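import Pool.Agent.Lib.MP_816dec_an.R1b3D
import Pool.Agent.Lib.MP_816dec_an.R1b3J19

/-!
MP_816dec_an (A3, row R1, b = 3): the cell `0.9 ≤ κ ≤ 0.95`.
-/

set_option autoImplicit false
set_option maxHeartbeats 4000000
set_option linter.unusedVariables false

open Complex Set

namespace Sok

namespace B3_19

private theorem yL {κ t : ℝ} (h : DomR κ t) (hk1 : 0.9 ≤ κ) (hk2 : κ ≤ 0.95) (ht1 : 0 ≤ t + κ) (ht2 : t + κ ≤ 1.091) :
    0 ≤ sy κ t ∧ sy κ t ≤ 0.393 := by
  have hy1 : 0 ≤ sy κ t := sy_nonneg h (by linarith)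
  have hy2 : sy κ t ≤ 0.393 := syR_le h 0.9 0.95 1.091 0.393 1.48141 0.6043 0.61283 0.64689 hk1 hk2 (by linarith) (by norm_num) (by norm_num)
    (expn_ge (by norm_num) (by norm_num)) (by norm_num) (by norm_num) (Or.inr ((mul_le_mul_of_nonneg_left (expn_le (E := 1.48142) (by norm_num) (by norm_num) (by norm_num)) (by norm_num)).trans (by norm_num))) (by norm_num) (by norm_num) (by norm_num)
  exact ⟨hy1, hy2⟩

theorem left {β r h t κ : ℝ} (hh : h = 2 * Real.pi / (3 : ℕ)) (hβ : 0 < β) (hr : 10 ≤ r) (hκ : κ = β * r)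
    (hk1 : 0.9 ≤ κ) (hk2 : κ ≤ 0.95) (hT1 : 0 ≤ t + κ) (hT2 : t + κ ≤ 1.091) :
    ‖Xf β r h t (-1)‖ < |‖Xf β r h t 1‖ - ‖Xf β r h t 0‖| := by
  obtain ⟨q1, q2, q3⟩ := b3_h hh
  have hR0 := b3_R0 hβ hr hκ
  have hR := b3_R hβ hr hκ (by linarith)
  have hD1 : DomR κ t := b3_dom (by linarith) (by linarith) (Or.inl (by linarith))
  have hy := yL hD1 hk1 hk2 (by linarith) (by linarith)
  have hY : 0.7761 * Real.exp (r * 0.73822) ≤ ‖Xf β r h t 1‖ :=
    b3_lo hβ hr hκ (k := 1) (t' := t) (by push_cast; ring) hD1 0.055 2.1973 0.7761 0.73822 (by norm_num)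
      (T3_19_p1 hD1 hβ hk1 hk2 (by linarith) (by linarith) hR0 hR)
      (v5_Dup hD1 0.95 0 0.393 1 0.67503 2.1973 hk2 hy.1 hy.2 (ex_up 0 (by norm_num) (by norm_num) (by norm_num) (by norm_num)) (ex_um 0.393 (by norm_num) (by norm_num) (by norm_num) (by norm_num)) (by norm_num) (by norm_num) (by norm_num)) (by norm_num) (by norm_num)
      (b3_Vlo hD1 0.9 0.95 0 1.091 0.53 (-0.63487) 0.668 0.78506 0.242 0.73822 hk1 hk2 (by linarith) (by linarith) (by norm_num) (ex_lm 0.63487 (by norm_num) (by norm_num) (by norm_num) (by norm_num) (by norm_num)) (by norm_num) (by norm_num) (by norm_num) (by norm_num) (by norm_num) (by norm_num) (by norm_num) (by norm_num) (ex_um 0.242 (by norm_num) (by norm_num) (by norm_num) (by norm_num)) (by norm_num))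
  have h0 : ‖Xf β r h t 0‖ ≤ 0.8786 * ‖Xf β r h t 1‖ :=
    b3_cmp 0.6786 0.03885 0.001039 0.68822 0.876209 0.00234 0.8786 hr (b3_HU0 0.64 0.9 0.95 (-2.0944) (-1.00339) 1.34153 1.77891 1.83676 0.56215 0.54445 1.7789 1.0021 0.12297 0.80661 1.6676 0 0.05 0.000001 1.7472 0.69937 hβ hr hκ (by norm_num) hk1 hk2 (by norm_num) (by linarith) (by linarith) (by norm_num) (by norm_num) (ex_up 0.576 (by norm_num) (by norm_num) (by norm_num) (by norm_num)) (ex_up 0.608 (by norm_num) (by norm_num) (by norm_num) (by norm_num)) (ex_um 0.576 (by norm_num) (by norm_num) (by norm_num) (by norm_num)) (ex_um 0.608 (by norm_num) (by norm_num) (by norm_num) (by norm_num)) (by norm_num) (by norm_num) (ex_lp 0.576 (by norm_num) (by norm_num) (by norm_num)) (by norm_num) (by norm_num) (by norm_num) (by norm_num) (by norm_num) (by norm_num) (by norm_num) (by norm_num) (by norm_num) (by norm_num) (by norm_num) (by norm_num) (by norm_num) (by norm_num) (v5_hump 5.083 10.526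 3.2444 0.0000003148 0.000001 hβ hr hκ hk1 hk2 (by norm_num) (tb := (-1.00339)) (by linarith) (by norm_num) (by norm_num) (by norm_num) (by norm_num) (by norm_num) (by norm_num) (by norm_num) (ex_un 14 0.99 (by norm_num) (by norm_num) (by norm_num) (by norm_num)) (by norm_num)) (by norm_num) (by norm_num)) hY (by norm_num) (by norm_num) (by norm_num) (by norm_num) (by norm_num) (ex_un 0 0.3885 (by norm_num) (by norm_num) (by norm_num) (by norm_num)) (by norm_num) (by norm_num) (by norm_num) (ex_un 6 0.8822 (by norm_num) (by norm_num) (by norm_num) (by norm_num)) (by norm_num) (by norm_num)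
  have h2 : ‖Xf β r h t (-1)‖ ≤ 0.037 * ‖Xf β r h t 1‖ := by
    rcases le_total ((t + h) + κ) 2.37 with g0 | g0
    · exact b3_cmp 0.009176 0.46969 0.0006227 0.73822 0.033428 0.000136 0.037 hr ((b3_Xm hh).trans_le (b3_HF 0.5 0.9 0.95 2.09439 2.37 1.31572 0.63763 0.62189 1.56832 1.60802 0.62188 2.1231 0.12297 2.71509 0.1007 0.05532 0.5766 0.000001 2.8273 0.1683 0.26853 hβ hr hκ (by norm_num) hk1 hk2 (by norm_num) (by linarith) (by linarith) (by norm_num) (ex_um 0.45 (by norm_num) (by norm_num) (by norm_num) (by norm_num)) (ex_um 0.475 (by norm_num) (by norm_num) (by norm_num) (by norm_num)) (ex_up 0.45 (by norm_num) (by norm_num) (by norm_num) (by norm_num)) (ex_up 0.475 (by norm_num) (by norm_num) (by norm_num) (by norm_num)) (by norm_num) (by norm_num) (ex_lm 0.475 (by norm_num) (by norm_num) (by norm_num) (by norm_num) (by norm_num)) (by norm_num) (by norm_num) (by norm_num) (by norm_num) (by norm_num) (by norm_num) (by norm_num) (by norm_num)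 (by norm_num) (by norm_num) (by norm_num) (by norm_num) (ex_un 0 0.5532 (by norm_num) (by norm_num) (by norm_num) (by norm_num)) (v5_hump 1.7096 10.526 3.2444 0.0000003148 0.000001 hβ hr hκ hk1 hk2 (by norm_num) (tb := 2.37) (by linarith) (by norm_num) (by norm_num) (by norm_num) (by norm_num) (by norm_num) (by norm_num) (by norm_num) (ex_un 14 0.99 (by norm_num) (by norm_num) (by norm_num) (by norm_num)) (by norm_num)) (by norm_num) (by norm_num) (by norm_num))) hY (by norm_num) (by norm_num) (by norm_num) (by norm_num) (by norm_num) (ex_un 4 0.6969 (by norm_num) (by norm_num) (by norm_num) (by norm_num)) (by norm_num) (by norm_num) (by norm_num) (ex_un 7 0.3822 (by norm_num) (by norm_num) (by norm_num) (by norm_num)) (by norm_num) (by norm_num)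
    exact b3_cmp 1 0 0.007678 0.48822 0 0.036989 0.037 hr (b3_w (b3_UD 0.9 0.95 2.37 3.1854 0.2 0.42053 0.2 1.9492 3.7388 0.25 hh hβ hr hκ (by norm_num) hk1 hk2 (by linarith) (by linarith) (by norm_num) (by norm_num) (by norm_num) (by norm_num) (by norm_num) (by norm_num) (by norm_num) (by norm_num) (by norm_num) (by norm_num) (by norm_num) (by norm_num) (by norm_num))) hY (by norm_num) (by norm_num) (by norm_num) (by norm_num) (by norm_num) (by norm_num) (by norm_num) (by norm_num) (by norm_num) (ex_un 4 0.8822 (by norm_num) (by norm_num) (by norm_num) (by norm_num)) (by norm_num) (by norm_num)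
  exact b3_out1 0.8786 0.037 hY (by norm_num) h0 h2 (by norm_num)

private theorem yR0 {κ t : ℝ} (h : DomR κ t) (hk1 : 0.9 ≤ κ) (hk2 : κ ≤ 0.95) (ht1 : -0.7124 ≤ t + κ) (ht2 : t + κ ≤ 0.0001) :
    (-0.419) ≤ sy κ t ∧ sy κ t ≤ 0.005 := by
  have hy1 : -0.419 ≤ sy κ t := syL_ge h 0.9 0.95 0.7124 0.419 0.6577 0.65771 0.2941 0.29008 0.30621 hk1 hk2 (by linarith) (by norm_num) (by norm_num) (by norm_num)
    (expm_ge (by norm_num) (by norm_num) (by norm_num) (by norm_num)) (expm_le (by norm_num) (by norm_num) (by norm_num)) (by norm_num)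
    (by norm_num) (by norm_num) (by norm_num) (by norm_num) (by norm_num) (by norm_num)
  have hy2 : sy κ t ≤ 0.005 := syR_le h 0.9 0.95 0.0001 0.005 1.00501 0.0052 0.00528 0.00559 hk1 hk2 (by linarith) (by norm_num) (by norm_num)
    (expn_ge (by norm_num) (by norm_num)) (by norm_num) (by norm_num) (Or.inr ((mul_le_mul_of_nonneg_left (expn_le (E := 1.00502) (by norm_num) (by norm_num) (by norm_num)) (by norm_num)).trans (by norm_num))) (by norm_num) (by norm_num) (by norm_num)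
  exact ⟨hy1, hy2⟩

theorem right0 {β r h t κ : ℝ} (hh : h = 2 * Real.pi / (3 : ℕ)) (hβ : 0 < β) (hr : 10 ≤ r) (hκ : κ = β * r)
    (hk1 : 0.9 ≤ κ) (hk2 : κ ≤ 0.95) (hT1 : 1.382 ≤ t + κ) (hT2 : t + κ ≤ h) :
    ‖Xf β r h t (-1)‖ < |‖Xf β r h t 1‖ - ‖Xf β r h t 0‖| := by
  obtain ⟨q1, q2, q3⟩ := b3_h hh
  have hR0 := b3_R0 hβ hr hκ
  have hR := b3_R hβ hr hκ (by linarith)
  have hD0 : DomR κ (t - h) := b3_dom (by linarith) (by linarith) (Or.inl (by linarith))
  have hy := yR0 hD0 hk1 hk2 (by linarith) (by linarith)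
  have hY : 0.7308 * Real.exp (r * 0.83859) ≤ ‖Xf β r h t 0‖ :=
    b3_lo hβ hr hκ (k := 0) (t' := t - h) (by push_cast; ring) hD0 0.105 2.2484 0.7308 0.83859 (by norm_num)
      (T3_19_p0R hD0 hβ hk1 hk2 (by linarith) (by linarith) hR0 hR)
      (v5_Dup hD0 0.95 (-0.419) 0.005 1.52045 0.99502 2.2484 hk2 hy.1 hy.2 (ex_up 0.419 (by norm_num) (by norm_num) (by norm_num) (by norm_num)) (ex_um 0.005 (by norm_num) (by norm_num) (by norm_num) (by norm_num)) (by norm_num) (by norm_num) (by norm_num)) (by norm_num) (by norm_num)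
      (b3_Vlo hD0 0.9 0.95 (-0.7124) 0.0001 1.38 0.32209 0.3704 0.93218 0.07023 0.83859 hk1 hk2 (by linarith) (by linarith) (by norm_num) (ex_lp 0.32209 (by norm_num) (by norm_num) (by norm_num)) (by norm_num) (by norm_num) (by norm_num) (by norm_num) (by norm_num) (by norm_num) (by norm_num) (by norm_num) (ex_um 0.07023 (by norm_num) (by norm_num) (by norm_num) (by norm_num)) (by norm_num))
  have h1 : ‖Xf β r h t 1‖ ≤ 0.3066 * ‖Xf β r h t 0‖ := by
    exact b3_cmp 0.118 0.21372 0.0002283 0.83859 0.306497 0.000058 0.3066 hr (b3_X1.trans_le (b3_HF 0.43 0.9 0.95 1.382 2.0944 1.21913 0.6791 0.66465 1.47256 1.50456 0.66464 1.8135 0.12297 2.0027 0.3763 0.13518 0.2589 0.000001 1.8982 0.1844 0.62487 hβ hr hκ (by norm_num) hk1 hk2 (by norm_num) (by linarith) (by linarith) (by norm_num) (ex_um 0.387 (by norm_num) (by norm_num) (by norm_num) (by norm_num)) (ex_um 0.4085 (by norm_num) (by norm_num) (by norm_num) (by norm_num)) (ex_up 0.387 (by norm_num)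 (by norm_num) (by norm_num) (by norm_num)) (ex_up 0.4085 (by norm_num) (by norm_num) (by norm_num) (by norm_num)) (by norm_num) (by norm_num) (ex_lm 0.4085 (by norm_num) (by norm_num) (by norm_num) (by norm_num) (by norm_num)) (by norm_num) (by norm_num) (by norm_num) (by norm_num) (by norm_num) (by norm_num) (by norm_num) (by norm_num) (by norm_num) (by norm_num) (by norm_num) (by norm_num) (ex_un 1 0.3518 (by norm_num) (by norm_num) (by norm_num) (by norm_num)) (v5_hump 1.9852 10.526 3.2444 0.0000003148 0.000001 hβ hr hκ hk1 hk2 (by norm_num) (tb := 2.0944) (by linarith) (by norm_num) (by norm_num) (by norm_num) (by norm_num) (by norm_num) (by norm_num) (by norm_num) (ex_un 14 0.99 (by norm_num) (by norm_num) (by norm_num) (by norm_num)) (by norm_num)) (by norm_num) (by norm_num) (by norm_num))) hY (by norm_num) (by norm_num) (by norm_num) (by norm_num) (by norm_num) (ex_un 2 0.1372 (by norm_num) (by norm_num) (by norm_num) (by norm_num))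 (by norm_num) (by norm_num) (by norm_num) (ex_un 8 0.3859 (by norm_num) (by norm_num) (by norm_num) (by norm_num)) (by norm_num) (by norm_num)
  have h2 : ‖Xf β r h t (-1)‖ ≤ 0.0035 * ‖Xf β r h t 0‖ := by
    exact b3_cmp 1 0 0.001195 0.67365 0 0.003441 0.0035 hr (b3_w (b3_UD 0.9 0.95 3.47639 4.1888 0.005 0.42053 0.11494 1.0968 2.1038 0.16494 hh hβ hr hκ (by norm_num) hk1 hk2 (by linarith) (by linarith) (by norm_num) (by norm_num) (by norm_num) (by norm_num) (by norm_num) (by norm_num) (by norm_num) (by norm_num) (by norm_num) (by norm_num) (by norm_num) (by norm_num) (by norm_num))) hY (by norm_num) (by norm_num) (by norm_num) (by norm_num) (by norm_num) (by norm_num) (by norm_num) (by norm_num) (by norm_num) (ex_un 6 0.7365 (by norm_num) (by norm_num) (by norm_num) (by norm_num)) (by norm_num) (by norm_num)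
  exact b3_out0 0.3066 0.0035 hY (by norm_num) h1 h2 (by norm_num)

private theorem yI {κ t : ℝ} (h : DomR κ t) (hk1 : 0.9 ≤ κ) (hk2 : κ ≤ 0.95) (ht1 : -1.0034 ≤ t + κ) (ht2 : t + κ ≤ -0.71239) :
    (-0.604) ≤ sy κ t ∧ sy κ t ≤ (-0.41) := by
  have hy1 : -0.604 ≤ sy κ t := syL_ge h 0.9 0.95 1.0034 0.604 0.54662 0.54663 0.3426 0.34753 0.36685 hk1 hk2 (by linarith) (by norm_num) (by norm_num) (by norm_num)
    (expm_ge (by norm_num) (by norm_num) (by norm_num) (by norm_num)) (expm_le (by norm_num) (by norm_num) (by norm_num)) (by norm_num)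
    (by norm_num) (by norm_num) (by norm_num) (by norm_num) (by norm_num) (by norm_num)
  have hy2 : sy κ t ≤ -0.41 := syL_le h 0.9 0.95 0.71239 0.41 0.66365 0.66366 0.28641 0.30234 hk1 hk2 (by linarith) (by norm_num) (by norm_num) (by norm_num)
    (expm_ge (by norm_num) (by norm_num) (by norm_num) (by norm_num)) (expm_le (by norm_num) (by norm_num) (by norm_num)) (by norm_num)
    (by norm_num) (by norm_num) (by norm_num) (by norm_num) (by norm_num) (by norm_num)
  exact ⟨hy1, hy2⟩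

theorem innE {β r h t κ : ℝ} (hh : h = 2 * Real.pi / (3 : ℕ)) (hβ : 0 < β) (hr : 10 ≤ r) (hκ : κ = β * r)
    (hk1 : 0.9 ≤ κ) (hk2 : κ ≤ 0.95) (hT1 : 1.091 ≤ t + κ) (hT2 : t + κ ≤ 1.382) :
    ‖Xf β r h t (-1)‖ ≤ 0.00167 * ‖Xf β r h t 0‖ ∧ ‖Xf β r h (t + β) (-1)‖ ≤ 0.00168 * ‖Xf β r h t 0‖ := by
  obtain ⟨q1, q2, q3⟩ := b3_h hh
  have hR0 := b3_R0 hβ hr hκ
  have hR := b3_R hβ hr hκ (by linarith)
  have hD0 : DomR κ (t - h) := b3_dom (by linarith) (by linarith) (Or.inl (by linarith))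
  have hy := yI hD0 hk1 hk2 (by linarith) (by linarith)
  have hY : 0.6447 * Real.exp (r * 0.67654) ≤ ‖Xf β r h t 0‖ :=
    b3_lo hβ hr hκ (k := 0) (t' := t - h) (by push_cast; ring) hD0 0.165 2.8125 0.6447 0.67654 (by norm_num)
      (T3_19_p0 hD0 hβ hk1 hk2 (by linarith) (by linarith) hR0 hR)
      (v5_Dup hD0 0.95 (-0.604) (-0.41) 1.82943 1.50682 2.8125 hk2 hy.1 hy.2 (ex_up 0.604 (by norm_num) (by norm_num) (by norm_num) (by norm_num)) (ex_up 0.41 (by norm_num) (by norm_num) (by norm_num) (by norm_num)) (by norm_num) (by norm_num) (by norm_num)) (by norm_num) (by norm_num)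
      (b3_Vlo hD0 0.9 0.95 (-1.0034) (-0.71239) 1.7 0.53063 0.3734 0.93109 0.0714 0.67654 hk1 hk2 (by linarith) (by linarith) (by norm_num) (ex_lp 0.53063 (by norm_num) (by norm_num) (by norm_num)) (by norm_num) (by norm_num) (by norm_num) (by norm_num) (by norm_num) (by norm_num) (by norm_num) (by norm_num) (ex_um 0.0714 (by norm_num) (by norm_num) (by norm_num) (by norm_num)) (by norm_num))
  constructor
  · exact b3_cmp 1 0 0.001902 0.62654 0 0.001665 0.00167 hr ((b3_Xm hh).trans_le (b3_U1 0.9 0.95 3.18539 3.4764 0.66459 0.12297 0.80661 0.6166 0.00035 0.9063 0.002479 0.5642 hβ hr hκ (by norm_num) hk1 hk2 (by linarith) (by linarith) (by norm_num) (by norm_num) (by norm_num) (by norm_num) (by norm_num) (by norm_num) (by norm_num) (by norm_num) (by norm_num) (by norm_num) (by norm_num) (by norm_num) (by norm_num) (ex_un 6 0.166 (by norm_num) (by norm_num) (by norm_num) (by norm_num)) (v5_hump 0.6032 10.526 3.2444 0.001749 0.002479 hβ hr hκ hk1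 hk2 (by norm_num) (tb := 3.4764) (by linarith) (by norm_num) (by norm_num) (by norm_num) (by norm_num) (by norm_num) (by norm_num) (by norm_num) (ex_un 6 0.3492 (by norm_num) (by norm_num) (by norm_num) (by norm_num)) (by norm_num)) (by norm_num))) hY (by norm_num) (by norm_num) (by norm_num) (by norm_num) (by norm_num) (by norm_num) (by norm_num) (by norm_num) (by norm_num) (ex_un 6 0.2654 (by norm_num) (by norm_num) (by norm_num) (by norm_num)) (by norm_num) (by norm_num)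
  · exact b3_cmp 1 0 0.001902 0.62654 0 0.001678 0.00168 hr ((b3_Xm hh).trans_le (b3_U1 0.9 0.95 3.18539 3.5714 0.66459 0.12297 0.80661 0.6166 0.00035 0.9063 0.006738 0.5685 hβ hr hκ (by norm_num) hk1 hk2 (by linarith) (by linarith) (by norm_num) (by norm_num) (by norm_num) (by norm_num) (by norm_num) (by norm_num) (by norm_num) (by norm_num) (by norm_num) (by norm_num) (by norm_num) (by norm_num) (by norm_num) (ex_un 6 0.166 (by norm_num) (by norm_num) (by norm_num) (by norm_num)) (v5_hump 0.5082 10.526 3.2444 0.004754 0.006738 hβ hr hκ hk1 hk2 (by norm_num) (tb := 3.5714) (by linarith) (by norm_num) (by norm_num) (by norm_num) (by norm_num) (by norm_num) (by norm_num) (by norm_num) (ex_un 5 0.3493 (by norm_num) (by norm_num) (by norm_num) (by norm_num)) (by norm_num)) (by norm_num))) hY (by norm_num) (by norm_num) (by norm_num) (by norm_num) (by norm_num) (by norm_num) (by norm_num) (by norm_num) (by norm_num) (ex_un 6 0.2654 (by norm_num)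 (by norm_num) (by norm_num) (by norm_num)) (by norm_num) (by norm_num)

private theorem yA0 {κ t : ℝ} (h : DomR κ t) (hk1 : 0.9 ≤ κ) (hk2 : κ ≤ 0.95) (ht1 : 1.091 ≤ t + κ) (ht2 : t + κ ≤ 1.111) :
    0.379 ≤ sy κ t ∧ sy κ t ≤ 0.398 := by
  have hy1 : 0.379 ≤ sy κ t := syR_ge h 0.9 0.95 1.091 0.379 1.46082 1.46083 0.58279 0.61518 hk1 hk2 (by linarith) (by norm_num) (by norm_num)
    (expn_ge (by norm_num) (by norm_num)) (expn_le (by norm_num) (by norm_num) (by norm_num)) (by norm_num)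
    (by norm_num) (by norm_num) (by norm_num) (by norm_num) (by norm_num) (by norm_num)
  have hy2 : sy κ t ≤ 0.398 := syR_le h 0.9 0.95 1.111 0.398 1.48884 0.615 0.62374 0.65841 hk1 hk2 (by linarith) (by norm_num) (by norm_num)
    (expn_ge (by norm_num) (by norm_num)) (by norm_num) (by norm_num) (Or.inr ((mul_le_mul_of_nonneg_left (expn_le (E := 1.48885) (by norm_num) (by norm_num) (by norm_num)) (by norm_num)).trans (by norm_num))) (by norm_num) (by norm_num) (by norm_num)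
  exact ⟨hy1, hy2⟩

private theorem yB0 {κ t : ℝ} (h : DomR κ t) (hk1 : 0.9 ≤ κ) (hk2 : κ ≤ 0.95) (ht1 : -1.0034 ≤ t + κ) (ht2 : t + κ ≤ -0.98339) :
    (-0.604) ≤ sy κ t ∧ sy κ t ≤ (-0.573) := by
  have hy1 : -0.604 ≤ sy κ t := syL_ge h 0.9 0.95 1.0034 0.604 0.54662 0.54663 0.3426 0.34753 0.36685 hk1 hk2 (by linarith) (by norm_num) (by norm_num) (by norm_num)
    (expm_ge (by norm_num) (by norm_num) (by norm_num) (by norm_num)) (expm_le (by norm_num) (by norm_num) (by norm_num)) (by norm_num)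
    (by norm_num) (by norm_num) (by norm_num) (by norm_num) (by norm_num) (by norm_num)
  have hy2 : sy κ t ≤ -0.573 := syL_le h 0.9 0.95 0.98339 0.573 0.56383 0.56384 0.34007 0.35898 hk1 hk2 (by linarith) (by norm_num) (by norm_num) (by norm_num)
    (expm_ge (by norm_num) (by norm_num) (by norm_num) (by norm_num)) (expm_le (by norm_num) (by norm_num) (by norm_num)) (by norm_num)
    (by norm_num) (by norm_num) (by norm_num) (by norm_num) (by norm_num) (by norm_num)
  exact ⟨hy1, hy2⟩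

theorem pc0 {β r h t κ : ℝ} (hh : h = 2 * Real.pi / (3 : ℕ)) (hβ : 0 < β) (hr : 10 ≤ r) (hκ : κ = β * r)
    (hk1 : 0.9 ≤ κ) (hk2 : κ ≤ 0.95) (hT1 : 1.091 ≤ t + κ) (hT2 : t + κ ≤ 1.111) :
    Xf β r h t 0 ≠ 0 ∧ r * 0.2851 ≤ (Ld β r h t 1 - Ld β r h t 0).im ∧
      ‖(((-1 : ℤ) : ℂ) - 1) * Ld β r h t 0 - ((-1 : ℤ) : ℂ) * Ld β r h t 1‖ ≤ r * 5.88 := by
  obtain ⟨q1, q2, q3⟩ := b3_h hh
  have hR0 := b3_R0 hβ hr hκ
  have hR := b3_R hβ hr hκ (by linarith)
  have hD1 : DomR κ t := b3_dom (by linarith) (by linarith) (Or.inl (by linarith))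
  have hD0 : DomR κ (t - h) := b3_dom (by linarith) (by linarith) (Or.inl (by linarith))
  have y1 := yA0 hD1 hk1 hk2 (by linarith) (by linarith)
  have y0 := yB0 hD0 hk1 hk2 (by linarith) (by linarith)
  have j1 := T3_19_d1_0 hD1 hβ hk1 hk2 (by linarith) (by linarith) hR0 hR
  exact b3_piece 0.9 0.95 0.379 0.398 0.389 0.67773 0.68455 0.67167 0.6504 2.1374 2.2032 0.08 0.11 0.11 1.545 0.6874 0 0 (-0.604) (-0.573) (-0.589) 1.80218 1.82943 1.738 2.4005 0.07 0.295 0.165 5.0471 5.6617 0 0 0.2851 5.88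
    hβ hr hκ (by norm_num) hk1 hk2 hD1 hD0 j1 (j1 _ (by rw [sub_self, norm_zero]; norm_num))
    (T3_19_d0_0 hD0 hβ hk1 hk2 (by linarith) (by linarith) hR0 hR)
    (T3_19_p0 hD0 hβ hk1 hk2 (by linarith) (by linarith) hR0 hR)
    y1.1 y1.2 y0.1 y0.2 (by norm_num)
    (ex_um 0.379 (by norm_num) (by norm_num) (by norm_num) (by norm_num)) (ex_um 0.398 (by norm_num) (by norm_num) (by norm_num) (by norm_num)) (ex_lm 0.389 (by norm_num) (by norm_num) (by norm_num) (by norm_num) (by norm_num)) (by norm_num) (by norm_num) (by norm_num) (by norm_num) (by norm_num) (by norm_num) (by norm_num) (by norm_num)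
    (by norm_num) (by norm_num) (by norm_num) (by norm_num) (by norm_num) (by norm_num) (by norm_num) (by norm_num) (by norm_num) (by norm_num)
    (ex_up 0.604 (by norm_num) (by norm_num) (by norm_num) (by norm_num)) (ex_lp 0.589 (by norm_num) (by norm_num) (by norm_num)) (by norm_num) (by norm_num) (by norm_num) (by norm_num) (by norm_num) (by norm_num)
    (by norm_num) (by norm_num) (by norm_num) (by norm_num) (by norm_num) (by norm_num) (by norm_num) (by norm_num) (by norm_num) (by norm_num) (by norm_num)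
    (by norm_num) (by norm_num) (by norm_num) (by norm_num)

private theorem yA1 {κ t : ℝ} (h : DomR κ t) (hk1 : 0.9 ≤ κ) (hk2 : κ ≤ 0.95) (ht1 : 1.111 ≤ t + κ) (ht2 : t + κ ≤ 1.131) :
    0.384 ≤ sy κ t ∧ sy κ t ≤ 0.403 := by
  have hy1 : 0.384 ≤ sy κ t := syR_ge h 0.9 0.95 1.111 0.384 1.46814 1.46815 0.59343 0.62642 hk1 hk2 (by linarith) (by norm_num) (by norm_num)
    (expn_ge (by norm_num) (by norm_num)) (expn_le (by norm_num) (by norm_num) (by norm_num)) (by norm_num)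
    (by norm_num) (by norm_num) (by norm_num) (by norm_num) (by norm_num) (by norm_num)
  have hy2 : sy κ t ≤ 0.403 := syR_le h 0.9 0.95 1.131 0.403 1.4963 0.6259 0.63474 0.67002 hk1 hk2 (by linarith) (by norm_num) (by norm_num)
    (expn_ge (by norm_num) (by norm_num)) (by norm_num) (by norm_num) (Or.inr ((mul_le_mul_of_nonneg_left (expn_le (E := 1.49631) (by norm_num) (by norm_num) (by norm_num)) (by norm_num)).trans (by norm_num))) (by norm_num) (by norm_num) (by norm_num)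
  exact ⟨hy1, hy2⟩

private theorem yB1 {κ t : ℝ} (h : DomR κ t) (hk1 : 0.9 ≤ κ) (hk2 : κ ≤ 0.95) (ht1 : -0.9834 ≤ t + κ) (ht2 : t + κ ≤ -0.96339) :
    (-0.591) ≤ sy κ t ∧ sy κ t ≤ (-0.561) := by
  have hy1 : -0.591 ≤ sy κ t := syL_ge h 0.9 0.95 0.9834 0.591 0.55377 0.55378 0.3524 0.3445 0.36365 hk1 hk2 (by linarith) (by norm_num) (by norm_num) (by norm_num)
    (expm_ge (by norm_num) (by norm_num) (by norm_num) (by norm_num)) (expm_le (by norm_num) (by norm_num) (by norm_num)) (by norm_num)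
    (by norm_num) (by norm_num) (by norm_num) (by norm_num) (by norm_num) (by norm_num)
  have hy2 : sy κ t ≤ -0.561 := syL_le h 0.9 0.95 0.96339 0.561 0.57063 0.57064 0.33697 0.3557 hk1 hk2 (by linarith) (by norm_num) (by norm_num) (by norm_num)
    (expm_ge (by norm_num) (by norm_num) (by norm_num) (by norm_num)) (expm_le (by norm_num) (by norm_num) (by norm_num)) (by norm_num)
    (by norm_num) (by norm_num) (by norm_num) (by norm_num) (by norm_num) (by norm_num)
  exact ⟨hy1, hy2⟩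

theorem pc1 {β r h t κ : ℝ} (hh : h = 2 * Real.pi / (3 : ℕ)) (hβ : 0 < β) (hr : 10 ≤ r) (hκ : κ = β * r)
    (hk1 : 0.9 ≤ κ) (hk2 : κ ≤ 0.95) (hT1 : 1.111 ≤ t + κ) (hT2 : t + κ ≤ 1.131) :
    Xf β r h t 0 ≠ 0 ∧ r * 0.2851 ≤ (Ld β r h t 1 - Ld β r h t 0).im ∧
      ‖(((-1 : ℤ) : ℂ) - 1) * Ld β r h t 0 - ((-1 : ℤ) : ℂ) * Ld β r h t 1‖ ≤ r * 5.88 := by
  obtain ⟨q1, q2, q3⟩ := b3_h hh
  have hR0 := b3_R0 hβ hr hκ
  have hR := b3_R hβ hr hκ (by linarith)
  have hD1 : DomR κ t := b3_dom (by linarith) (by linarith) (Or.inl (by linarith))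
  have hD0 : DomR κ (t - h) := b3_dom (by linarith) (by linarith) (Or.inl (by linarith))
  have y1 := yA1 hD1 hk1 hk2 (by linarith) (by linarith)
  have y0 := yB1 hD0 hk1 hk2 (by linarith) (by linarith)
  have j1 := T3_19_d1_0 hD1 hβ hk1 hk2 (by linarith) (by linarith) hR0 hR
  exact b3_piece 0.9 0.95 0.384 0.403 0.394 0.67435 0.68114 0.66832 0.6471 2.1437 2.2092 0.08 0.11 0.11 1.545 0.6829 0 0 (-0.591) (-0.561) (-0.576) 1.7789 1.8058 1.7156 2.3643 0.07 0.295 0.165 5.0471 5.6313 0 0 0.2851 5.88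
    hβ hr hκ (by norm_num) hk1 hk2 hD1 hD0 j1 (j1 _ (by rw [sub_self, norm_zero]; norm_num))
    (T3_19_d0_0 hD0 hβ hk1 hk2 (by linarith) (by linarith) hR0 hR)
    (T3_19_p0 hD0 hβ hk1 hk2 (by linarith) (by linarith) hR0 hR)
    y1.1 y1.2 y0.1 y0.2 (by norm_num)
    (ex_um 0.384 (by norm_num) (by norm_num) (by norm_num) (by norm_num)) (ex_um 0.403 (by norm_num) (by norm_num) (by norm_num) (by norm_num)) (ex_lm 0.394 (by norm_num) (by norm_num) (by norm_num) (by norm_num) (by norm_num)) (by norm_num) (by norm_num) (by norm_num) (by norm_num) (by norm_num) (by norm_num) (by norm_num) (by norm_num)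
    (by norm_num) (by norm_num) (by norm_num) (by norm_num) (by norm_num) (by norm_num) (by norm_num) (by norm_num) (by norm_num) (by norm_num)
    (ex_up 0.591 (by norm_num) (by norm_num) (by norm_num) (by norm_num)) (ex_lp 0.576 (by norm_num) (by norm_num) (by norm_num)) (by norm_num) (by norm_num) (by norm_num) (by norm_num) (by norm_num) (by norm_num)
    (by norm_num) (by norm_num) (by norm_num) (by norm_num) (by norm_num) (by norm_num) (by norm_num) (by norm_num) (by norm_num) (by norm_num) (by norm_num)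
    (by norm_num) (by norm_num) (by norm_num) (by norm_num)

private theorem yA2 {κ t : ℝ} (h : DomR κ t) (hk1 : 0.9 ≤ κ) (hk2 : κ ≤ 0.95) (ht1 : 1.131 ≤ t + κ) (ht2 : t + κ ≤ 1.158) :
    0.388 ≤ sy κ t ∧ sy κ t ≤ 0.409 := by
  have hy1 : 0.388 ≤ sy κ t := syR_ge h 0.9 0.95 1.131 0.388 1.47402 1.47403 0.60202 0.63548 hk1 hk2 (by linarith) (by norm_num) (by norm_num)
    (expn_ge (by norm_num) (by norm_num)) (expn_le (by norm_num) (by norm_num) (by norm_num)) (by norm_num)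
    (by norm_num) (by norm_num) (by norm_num) (by norm_num) (by norm_num) (by norm_num)
  have hy2 : sy κ t ≤ 0.409 := syR_le h 0.9 0.95 1.158 0.409 1.50531 0.639 0.64807 0.68409 hk1 hk2 (by linarith) (by norm_num) (by norm_num)
    (expn_ge (by norm_num) (by norm_num)) (by norm_num) (by norm_num) (Or.inr ((mul_le_mul_of_nonneg_left (expn_le (E := 1.50532) (by norm_num) (by norm_num) (by norm_num)) (by norm_num)).trans (by norm_num))) (by norm_num) (by norm_num) (by norm_num)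
  exact ⟨hy1, hy2⟩

private theorem yB2 {κ t : ℝ} (h : DomR κ t) (hk1 : 0.9 ≤ κ) (hk2 : κ ≤ 0.95) (ht1 : -0.9634 ≤ t + κ) (ht2 : t + κ ≤ -0.93639) :
    (-0.579) ≤ sy κ t ∧ sy κ t ≤ (-0.545) := by
  have hy1 : -0.579 ≤ sy κ t := syL_ge h 0.9 0.95 0.9634 0.579 0.56045 0.56047 0.3399 0.34157 0.36057 hk1 hk2 (by linarith) (by norm_num) (by norm_num) (by norm_num)
    (expm_ge (by norm_num) (by norm_num) (by norm_num) (by norm_num)) (expm_le (by norm_num) (by norm_num) (by norm_num)) (by norm_num)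
    (by norm_num) (by norm_num) (by norm_num) (by norm_num) (by norm_num) (by norm_num)
  have hy2 : sy κ t ≤ -0.545 := syL_le h 0.9 0.95 0.93639 0.545 0.57984 0.57985 0.33264 0.35114 hk1 hk2 (by linarith) (by norm_num) (by norm_num) (by norm_num)
    (expm_ge (by norm_num) (by norm_num) (by norm_num) (by norm_num)) (expm_le (by norm_num) (by norm_num) (by norm_num)) (by norm_num)
    (by norm_num) (by norm_num) (by norm_num) (by norm_num) (by norm_num) (by norm_num)
  exact ⟨hy1, hy2⟩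

theorem pc2 {β r h t κ : ℝ} (hh : h = 2 * Real.pi / (3 : ℕ)) (hβ : 0 < β) (hr : 10 ≤ r) (hκ : κ = β * r)
    (hk1 : 0.9 ≤ κ) (hk2 : κ ≤ 0.95) (hT1 : 1.131 ≤ t + κ) (hT2 : t + κ ≤ 1.158) :
    Xf β r h t 0 ≠ 0 ∧ r * 0.2851 ≤ (Ld β r h t 1 - Ld β r h t 0).im ∧
      ‖(((-1 : ℤ) : ℂ) - 1) * Ld β r h t 0 - ((-1 : ℤ) : ℂ) * Ld β r h t 1‖ ≤ r * 5.88 := by
  obtain ⟨q1, q2, q3⟩ := b3_h hh
  have hR0 := b3_R0 hβ hr hκ
  have hR := b3_R hβ hr hκ (by linarith)
  have hD1 : DomR κ t := b3_dom (by linarith) (by linarith) (Or.inl (by linarith))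
  have hD0 : DomR κ (t - h) := b3_dom (by linarith) (by linarith) (Or.inl (by linarith))
  have y1 := yA2 hD1 hk1 hk2 (by linarith) (by linarith)
  have y0 := yB2 hD0 hk1 hk2 (by linarith) (by linarith)
  have j1 := T3_19_d1_1 hD1 hβ hk1 hk2 (by linarith) (by linarith) hR0 hR
  exact b3_piece 0.9 0.95 0.388 0.409 0.399 0.67099 0.67842 0.66432 0.6445 2.1487 2.2163 0.06 0.11 0.11 2.06 0.9058 0 0 (-0.579) (-0.545) (-0.562) 1.75417 1.78426 1.6951 2.3177 0.08 0.31 0.165 4.6408 5.1673 0 0 0.2851 5.88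
    hβ hr hκ (by norm_num) hk1 hk2 hD1 hD0 j1 (j1 _ (by rw [sub_self, norm_zero]; norm_num))
    (T3_19_d0_1 hD0 hβ hk1 hk2 (by linarith) (by linarith) hR0 hR)
    (T3_19_p0 hD0 hβ hk1 hk2 (by linarith) (by linarith) hR0 hR)
    y1.1 y1.2 y0.1 y0.2 (by norm_num)
    (ex_um 0.388 (by norm_num) (by norm_num) (by norm_num) (by norm_num)) (ex_um 0.409 (by norm_num) (by norm_num) (by norm_num) (by norm_num)) (ex_lm 0.399 (by norm_num) (by norm_num) (by norm_num) (by norm_num) (by norm_num)) (by norm_num) (by norm_num) (by norm_num) (by norm_num) (by norm_num) (by norm_num) (by norm_num) (by norm_num)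
    (by norm_num) (by norm_num) (by norm_num) (by norm_num) (by norm_num) (by norm_num) (by norm_num) (by norm_num) (by norm_num) (by norm_num)
    (ex_up 0.579 (by norm_num) (by norm_num) (by norm_num) (by norm_num)) (ex_lp 0.562 (by norm_num) (by norm_num) (by norm_num)) (by norm_num) (by norm_num) (by norm_num) (by norm_num) (by norm_num) (by norm_num)
    (by norm_num) (by norm_num) (by norm_num) (by norm_num) (by norm_num) (by norm_num) (by norm_num) (by norm_num) (by norm_num) (by norm_num) (by norm_num)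
    (by norm_num) (by norm_num) (by norm_num) (by norm_num)

private theorem yA3 {κ t : ℝ} (h : DomR κ t) (hk1 : 0.9 ≤ κ) (hk2 : κ ≤ 0.95) (ht1 : 1.158 ≤ t + κ) (ht2 : t + κ ≤ 1.184) :
    0.394 ≤ sy κ t ∧ sy κ t ≤ 0.415 := by
  have hy1 : 0.394 ≤ sy κ t := syR_ge h 0.9 0.95 1.158 0.394 1.4829 1.48291 0.61501 0.64919 hk1 hk2 (by linarith) (by norm_num) (by norm_num)
    (expn_ge (by norm_num) (by norm_num)) (expn_le (by norm_num) (by norm_num) (by norm_num)) (by norm_num)
    (by norm_num) (by norm_num) (by norm_num) (by norm_num) (by norm_num) (by norm_num)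
  have hy2 : sy κ t ≤ 0.415 := syR_le h 0.9 0.95 1.184 0.415 1.51437 0.6523 0.66154 0.6983 hk1 hk2 (by linarith) (by norm_num) (by norm_num)
    (expn_ge (by norm_num) (by norm_num)) (by norm_num) (by norm_num) (Or.inr ((mul_le_mul_of_nonneg_left (expn_le (E := 1.51438) (by norm_num) (by norm_num) (by norm_num)) (by norm_num)).trans (by norm_num))) (by norm_num) (by norm_num) (by norm_num)
  exact ⟨hy1, hy2⟩

private theorem yB3 {κ t : ℝ} (h : DomR κ t) (hk1 : 0.9 ≤ κ) (hk2 : κ ≤ 0.95) (ht1 : -0.9364 ≤ t + κ) (ht2 : t + κ ≤ -0.91039) :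
    (-0.562) ≤ sy κ t ∧ sy κ t ≤ (-0.53) := by
  have hy1 : -0.562 ≤ sy κ t := syL_ge h 0.9 0.95 0.9364 0.562 0.57006 0.57007 0.3387 0.33723 0.35598 hk1 hk2 (by linarith) (by norm_num) (by norm_num) (by norm_num)
    (expm_ge (by norm_num) (by norm_num) (by norm_num) (by norm_num)) (expm_le (by norm_num) (by norm_num) (by norm_num)) (by norm_num)
    (by norm_num) (by norm_num) (by norm_num) (by norm_num) (by norm_num) (by norm_num)
  have hy2 : sy κ t ≤ -0.53 := syL_le h 0.9 0.95 0.91039 0.53 0.5886 0.58861 0.32837 0.34663 hk1 hk2 (by linarith) (by norm_num) (by norm_num) (by norm_num)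
    (expm_ge (by norm_num) (by norm_num) (by norm_num) (by norm_num)) (expm_le (by norm_num) (by norm_num) (by norm_num)) (by norm_num)
    (by norm_num) (by norm_num) (by norm_num) (by norm_num) (by norm_num) (by norm_num)
  exact ⟨hy1, hy2⟩

theorem pc3 {β r h t κ : ℝ} (hh : h = 2 * Real.pi / (3 : ℕ)) (hβ : 0 < β) (hr : 10 ≤ r) (hκ : κ = β * r)
    (hk1 : 0.9 ≤ κ) (hk2 : κ ≤ 0.95) (hT1 : 1.158 ≤ t + κ) (hT2 : t + κ ≤ 1.184) :
    Xf β r h t 0 ≠ 0 ∧ r * 0.2851 ≤ (Ld β r h t 1 - Ld β r h t 0).im ∧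
      ‖(((-1 : ℤ) : ℂ) - 1) * Ld β r h t 0 - ((-1 : ℤ) : ℂ) * Ld β r h t 1‖ ≤ r * 5.88 := by
  obtain ⟨q1, q2, q3⟩ := b3_h hh
  have hR0 := b3_R0 hβ hr hκ
  have hR := b3_R hβ hr hκ (by linarith)
  have hD1 : DomR κ t := b3_dom (by linarith) (by linarith) (Or.inl (by linarith))
  have hD0 : DomR κ (t - h) := b3_dom (by linarith) (by linarith) (Or.inl (by linarith))
  have y1 := yA3 hD1 hk1 hk2 (by linarith) (by linarith)
  have y0 := yB3 hD0 hk1 hk2 (by linarith) (by linarith)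
  have j1 := T3_19_d1_1 hD1 hβ hk1 hk2 (by linarith) (by linarith) hR0 hR
  exact b3_piece 0.9 0.95 0.394 0.415 0.405 0.66697 0.67436 0.66035 0.6407 2.1562 2.2236 0.06 0.11 0.11 2.06 0.8989 0 0 (-0.562) (-0.53) (-0.546) 1.72633 1.75418 1.6665 2.2767 0.08 0.31 0.165 4.6408 5.1257 0 0 0.2851 5.88
    hβ hr hκ (by norm_num) hk1 hk2 hD1 hD0 j1 (j1 _ (by rw [sub_self, norm_zero]; norm_num))
    (T3_19_d0_1 hD0 hβ hk1 hk2 (by linarith) (by linarith) hR0 hR)
    (T3_19_p0 hD0 hβ hk1 hk2 (by linarith) (by linarith) hR0 hR)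
    y1.1 y1.2 y0.1 y0.2 (by norm_num)
    (ex_um 0.394 (by norm_num) (by norm_num) (by norm_num) (by norm_num)) (ex_um 0.415 (by norm_num) (by norm_num) (by norm_num) (by norm_num)) (ex_lm 0.405 (by norm_num) (by norm_num) (by norm_num) (by norm_num) (by norm_num)) (by norm_num) (by norm_num) (by norm_num) (by norm_num) (by norm_num) (by norm_num) (by norm_num) (by norm_num)
    (by norm_num) (by norm_num) (by norm_num) (by norm_num) (by norm_num) (by norm_num) (by norm_num) (by norm_num) (by norm_num) (by norm_num)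
    (ex_up 0.562 (by norm_num) (by norm_num) (by norm_num) (by norm_num)) (ex_lp 0.546 (by norm_num) (by norm_num) (by norm_num)) (by norm_num) (by norm_num) (by norm_num) (by norm_num) (by norm_num) (by norm_num)
    (by norm_num) (by norm_num) (by norm_num) (by norm_num) (by norm_num) (by norm_num) (by norm_num) (by norm_num) (by norm_num) (by norm_num) (by norm_num)
    (by norm_num) (by norm_num) (by norm_num) (by norm_num)

private theorem yA4 {κ t : ℝ} (h : DomR κ t) (hk1 : 0.9 ≤ κ) (hk2 : κ ≤ 0.95) (ht1 : 1.184 ≤ t + κ) (ht2 : t + κ ≤ 1.211) :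
    0.399 ≤ sy κ t ∧ sy κ t ≤ 0.421 := by
  have hy1 : 0.399 ≤ sy κ t := syR_ge h 0.9 0.95 1.184 0.399 1.49033 1.49034 0.62593 0.66072 hk1 hk2 (by linarith) (by norm_num) (by norm_num)
    (expn_ge (by norm_num) (by norm_num)) (expn_le (by norm_num) (by norm_num) (by norm_num)) (by norm_num)
    (by norm_num) (by norm_num) (by norm_num) (by norm_num) (by norm_num) (by norm_num)
  have hy2 : sy κ t ≤ 0.421 := syR_le h 0.9 0.95 1.211 0.421 1.52348 0.6688 0.67514 0.71266 hk1 hk2 (by linarith) (by norm_num) (by norm_num)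
    (expn_ge (by norm_num) (by norm_num)) (by norm_num) (by norm_num) (Or.inr ((mul_le_mul_of_nonneg_left (expn_le (E := 1.52349) (by norm_num) (by norm_num) (by norm_num)) (by norm_num)).trans (by norm_num))) (by norm_num) (by norm_num) (by norm_num)
  exact ⟨hy1, hy2⟩

private theorem yB4 {κ t : ℝ} (h : DomR κ t) (hk1 : 0.9 ≤ κ) (hk2 : κ ≤ 0.95) (ht1 : -0.9104 ≤ t + κ) (ht2 : t + κ ≤ -0.88339) :
    (-0.546) ≤ sy κ t ∧ sy κ t ≤ (-0.514) := by
  have hy1 : -0.546 ≤ sy κ t := syL_ge h 0.9 0.95 0.9104 0.546 0.57926 0.57927 0.3282 0.33292 0.35143 hk1 hk2 (by linarith) (by norm_num) (by norm_num) (by norm_num)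
    (expm_ge (by norm_num) (by norm_num) (by norm_num) (by norm_num)) (expm_le (by norm_num) (by norm_num) (by norm_num)) (by norm_num)
    (by norm_num) (by norm_num) (by norm_num) (by norm_num) (by norm_num) (by norm_num)
  have hy2 : sy κ t ≤ -0.514 := syL_le h 0.9 0.95 0.88339 0.514 0.59809 0.5981 0.32359 0.34159 hk1 hk2 (by linarith) (by norm_num) (by norm_num) (by norm_num)
    (expm_ge (by norm_num) (by norm_num) (by norm_num) (by norm_num)) (expm_le (by norm_num) (by norm_num) (by norm_num)) (by norm_num)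
    (by norm_num) (by norm_num) (by norm_num) (by norm_num) (by norm_num) (by norm_num)
  exact ⟨hy1, hy2⟩

theorem pc4 {β r h t κ : ℝ} (hh : h = 2 * Real.pi / (3 : ℕ)) (hβ : 0 < β) (hr : 10 ≤ r) (hκ : κ = β * r)
    (hk1 : 0.9 ≤ κ) (hk2 : κ ≤ 0.95) (hT1 : 1.184 ≤ t + κ) (hT2 : t + κ ≤ 1.211) :
    Xf β r h t 0 ≠ 0 ∧ r * 0.2851 ≤ (Ld β r h t 1 - Ld β r h t 0).im ∧
      ‖(((-1 : ℤ) : ℂ) - 1) * Ld β r h t 0 - ((-1 : ℤ) : ℂ) * Ld β r h t 1‖ ≤ r * 5.88 := by
  obtain ⟨q1, q2, q3⟩ := b3_h hh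
  have hR0 := b3_R0 hβ hr hκ
  have hR := b3_R hβ hr hκ (by linarith)
  have hD1 : DomR κ t := b3_dom (by linarith) (by linarith) (Or.inl (by linarith))
  have hD0 : DomR κ (t - h) := b3_dom (by linarith) (by linarith) (Or.inl (by linarith))
  have y1 := yA4 hD1 hk1 hk2 (by linarith) (by linarith)
  have y0 := yB4 hD0 hk1 hk2 (by linarith) (by linarith)
  have j1 := T3_19_d1_1 hD1 hβ hk1 hk2 (by linarith) (by linarith) hR0 hR
  exact b3_piece 0.9 0.95 0.399 0.421 0.41 0.66365 0.671 0.6564 0.6375 2.1625 2.2309 0.06 0.11 0.11 2.06 0.8931 0 0 (-0.546) (-0.514) (-0.53) 1.69892 1.72634 1.6401 2.2351 0.08 0.31 0.165 4.6408 5.0912 0 0 0.2851 5.88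
    hβ hr hκ (by norm_num) hk1 hk2 hD1 hD0 j1 (j1 _ (by rw [sub_self, norm_zero]; norm_num))
    (T3_19_d0_1 hD0 hβ hk1 hk2 (by linarith) (by linarith) hR0 hR)
    (T3_19_p0 hD0 hβ hk1 hk2 (by linarith) (by linarith) hR0 hR)
    y1.1 y1.2 y0.1 y0.2 (by norm_num)
    (ex_um 0.399 (by norm_num) (by norm_num) (by norm_num) (by norm_num)) (ex_um 0.421 (by norm_num) (by norm_num) (by norm_num) (by norm_num)) (ex_lm 0.41 (by norm_num) (by norm_num) (by norm_num) (by norm_num) (by norm_num)) (by norm_num) (by norm_num) (by norm_num) (by norm_num) (by norm_num) (by norm_num) (by norm_num) (by norm_num)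
    (by norm_num) (by norm_num) (by norm_num) (by norm_num) (by norm_num) (by norm_num) (by norm_num) (by norm_num) (by norm_num) (by norm_num)
    (ex_up 0.546 (by norm_num) (by norm_num) (by norm_num) (by norm_num)) (ex_lp 0.53 (by norm_num) (by norm_num) (by norm_num)) (by norm_num) (by norm_num) (by norm_num) (by norm_num) (by norm_num) (by norm_num)
    (by norm_num) (by norm_num) (by norm_num) (by norm_num) (by norm_num) (by norm_num) (by norm_num) (by norm_num) (by norm_num) (by norm_num) (by norm_num)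
    (by norm_num) (by norm_num) (by norm_num) (by norm_num)

private theorem yA5 {κ t : ℝ} (h : DomR κ t) (hk1 : 0.9 ≤ κ) (hk2 : κ ≤ 0.95) (ht1 : 1.211 ≤ t + κ) (ht2 : t + κ ≤ 1.24) :
    0.405 ≤ sy κ t ∧ sy κ t ≤ 0.428 := by
  have hy1 : 0.405 ≤ sy κ t := syR_ge h 0.9 0.95 1.211 0.405 1.4993 1.49931 0.63917 0.67469 hk1 hk2 (by linarith) (by norm_num) (by norm_num)
    (expn_ge (by norm_num) (by norm_num)) (expn_le (by norm_num) (by norm_num) (by norm_num)) (by norm_num)
    (by norm_num) (by norm_num) (by norm_num) (by norm_num) (by norm_num) (by norm_num)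
  have hy2 : sy κ t ≤ 0.428 := syR_le h 0.9 0.95 1.24 0.428 1.53418 0.6815 0.69118 0.7296 hk1 hk2 (by linarith) (by norm_num) (by norm_num)
    (expn_ge (by norm_num) (by norm_num)) (by norm_num) (by norm_num) (Or.inr ((mul_le_mul_of_nonneg_left (expn_le (E := 1.53419) (by norm_num) (by norm_num) (by norm_num)) (by norm_num)).trans (by norm_num))) (by norm_num) (by norm_num) (by norm_num)
  exact ⟨hy1, hy2⟩

private theorem yB5 {κ t : ℝ} (h : DomR κ t) (hk1 : 0.9 ≤ κ) (hk2 : κ ≤ 0.95) (ht1 : -0.8834 ≤ t + κ) (ht2 : t + κ ≤ -0.85439) :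
    (-0.529) ≤ sy κ t ∧ sy κ t ≤ (-0.496) := by
  have hy1 : -0.529 ≤ sy κ t := syL_ge h 0.9 0.95 0.8834 0.529 0.58919 0.5892 0.3235 0.32808 0.34632 hk1 hk2 (by linarith) (by norm_num) (by norm_num) (by norm_num)
    (expm_ge (by norm_num) (by norm_num) (by norm_num) (by norm_num)) (expm_le (by norm_num) (by norm_num) (by norm_num)) (by norm_num)
    (by norm_num) (by norm_num) (by norm_num) (by norm_num) (by norm_num) (by norm_num)
  have hy2 : sy κ t ≤ -0.496 := syL_le h 0.9 0.95 0.85439 0.496 0.60896 0.60897 0.31794 0.33562 hk1 hk2 (by linarith) (by norm_num) (by norm_num) (by norm_num)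
    (expm_ge (by norm_num) (by norm_num) (by norm_num) (by norm_num)) (expm_le (by norm_num) (by norm_num) (by norm_num)) (by norm_num)
    (by norm_num) (by norm_num) (by norm_num) (by norm_num) (by norm_num) (by norm_num)
  exact ⟨hy1, hy2⟩

theorem pc5 {β r h t κ : ℝ} (hh : h = 2 * Real.pi / (3 : ℕ)) (hβ : 0 < β) (hr : 10 ≤ r) (hκ : κ = β * r)
    (hk1 : 0.9 ≤ κ) (hk2 : κ ≤ 0.95) (hT1 : 1.211 ≤ t + κ) (hT2 : t + κ ≤ 1.24) :
    Xf β r h t 0 ≠ 0 ∧ r * 0.2851 ≤ (Ld β r h t 1 - Ld β r h t 0).im ∧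
      ‖(((-1 : ℤ) : ℂ) - 1) * Ld β r h t 0 - ((-1 : ℤ) : ℂ) * Ld β r h t 1‖ ≤ r * 5.88 := by
  obtain ⟨q1, q2, q3⟩ := b3_h hh
  have hR0 := b3_R0 hβ hr hκ
  have hR := b3_R hβ hr hκ (by linarith)
  have hD1 : DomR κ t := b3_dom (by linarith) (by linarith) (Or.inl (by linarith))
  have hD0 : DomR κ (t - h) := b3_dom (by linarith) (by linarith) (Or.inl (by linarith))
  have y1 := yA5 hD1 hk1 hk2 (by linarith) (by linarith)
  have y0 := yB5 hD0 hk1 hk2 (by linarith) (by linarith)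
  have j1 := T3_19_d1_2 hD1 hβ hk1 hk2 (by linarith) (by linarith) hR0 hR
  exact b3_piece 0.9 0.95 0.405 0.428 0.416 0.65968 0.66698 0.65182 0.6337 2.1702 2.2395 0.03 0.12 0.12 4.5455 1.9554 0 0 (-0.529) (-0.496) (-0.512) 1.66862 1.69724 1.6124 2.1911 0.08 0.265 0.165 3.9671 4.3214 0 0 0.2851 5.88
    hβ hr hκ (by norm_num) hk1 hk2 hD1 hD0 j1 (j1 _ (by rw [sub_self, norm_zero]; norm_num))
    (T3_19_d0_2 hD0 hβ hk1 hk2 (by linarith) (by linarith) hR0 hR)
    (T3_19_p0 hD0 hβ hk1 hk2 (by linarith) (by linarith) hR0 hR)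
    y1.1 y1.2 y0.1 y0.2 (by norm_num)
    (ex_um 0.405 (by norm_num) (by norm_num) (by norm_num) (by norm_num)) (ex_um 0.428 (by norm_num) (by norm_num) (by norm_num) (by norm_num)) (ex_lm 0.416 (by norm_num) (by norm_num) (by norm_num) (by norm_num) (by norm_num)) (by norm_num) (by norm_num) (by norm_num) (by norm_num) (by norm_num) (by norm_num) (by norm_num) (by norm_num)
    (by norm_num) (by norm_num) (by norm_num) (by norm_num) (by norm_num) (by norm_num) (by norm_num) (by norm_num) (by norm_num) (by norm_num)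
    (ex_up 0.529 (by norm_num) (by norm_num) (by norm_num) (by norm_num)) (ex_lp 0.512 (by norm_num) (by norm_num) (by norm_num)) (by norm_num) (by norm_num) (by norm_num) (by norm_num) (by norm_num) (by norm_num)
    (by norm_num) (by norm_num) (by norm_num) (by norm_num) (by norm_num) (by norm_num) (by norm_num) (by norm_num) (by norm_num) (by norm_num) (by norm_num)
    (by norm_num) (by norm_num) (by norm_num) (by norm_num)

private theorem yA6 {κ t : ℝ} (h : DomR κ t) (hk1 : 0.9 ≤ κ) (hk2 : κ ≤ 0.95) (ht1 : 1.24 ≤ t + κ) (ht2 : t + κ ≤ 1.268) :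
    0.41 ≤ sy κ t ∧ sy κ t ≤ 0.434 := by
  have hy1 : 0.41 ≤ sy κ t := syR_ge h 0.9 0.95 1.24 0.41 1.50681 1.50682 0.6503 0.68645 hk1 hk2 (by linarith) (by norm_num) (by norm_num)
    (expn_ge (by norm_num) (by norm_num)) (expn_le (by norm_num) (by norm_num) (by norm_num)) (by norm_num)
    (by norm_num) (by norm_num) (by norm_num) (by norm_num) (by norm_num) (by norm_num)
  have hy2 : sy κ t ≤ 0.434 := syR_le h 0.9 0.95 1.268 0.434 1.54341 0.6952 0.70509 0.74428 hk1 hk2 (by linarith) (by norm_num) (by norm_num)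
    (expn_ge (by norm_num) (by norm_num)) (by norm_num) (by norm_num) (Or.inr ((mul_le_mul_of_nonneg_left (expn_le (E := 1.54342) (by norm_num) (by norm_num) (by norm_num)) (by norm_num)).trans (by norm_num))) (by norm_num) (by norm_num) (by norm_num)
  exact ⟨hy1, hy2⟩

private theorem yB6 {κ t : ℝ} (h : DomR κ t) (hk1 : 0.9 ≤ κ) (hk2 : κ ≤ 0.95) (ht1 : -0.8544 ≤ t + κ) (ht2 : t + κ ≤ -0.82639) :
    (-0.51) ≤ sy κ t ∧ sy κ t ≤ (-0.479) := by
  have hy1 : -0.51 ≤ sy κ t := syL_ge h 0.9 0.95 0.8544 0.51 0.60049 0.6005 0.3283 0.32236 0.34029 hk1 hk2 (by linarith) (by norm_num) (by norm_num) (by norm_num)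
    (expm_ge (by norm_num) (by norm_num) (by norm_num) (by norm_num)) (expm_le (by norm_num) (by norm_num) (by norm_num)) (by norm_num)
    (by norm_num) (by norm_num) (by norm_num) (by norm_num) (by norm_num) (by norm_num)
  have hy2 : sy κ t ≤ -0.479 := syL_le h 0.9 0.95 0.82639 0.479 0.6194 0.61941 0.3123 0.32967 hk1 hk2 (by linarith) (by norm_num) (by norm_num) (by norm_num)
    (expm_ge (by norm_num) (by norm_num) (by norm_num) (by norm_num)) (expm_le (by norm_num) (by norm_num) (by norm_num)) (by norm_num)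
    (by norm_num) (by norm_num) (by norm_num) (by norm_num) (by norm_num) (by norm_num)
  exact ⟨hy1, hy2⟩

theorem pc6 {β r h t κ : ℝ} (hh : h = 2 * Real.pi / (3 : ℕ)) (hβ : 0 < β) (hr : 10 ≤ r) (hκ : κ = β * r)
    (hk1 : 0.9 ≤ κ) (hk2 : κ ≤ 0.95) (hT1 : 1.24 ≤ t + κ) (hT2 : t + κ ≤ 1.268) :
    Xf β r h t 0 ≠ 0 ∧ r * 0.2851 ≤ (Ld β r h t 1 - Ld β r h t 0).im ∧
      ‖(((-1 : ℤ) : ℂ) - 1) * Ld β r h t 0 - ((-1 : ℤ) : ℂ) * Ld β r h t 1‖ ≤ r * 5.88 := by
  obtain ⟨q1, q2, q3⟩ := b3_h hh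
  have hR0 := b3_R0 hβ hr hκ
  have hR := b3_R hβ hr hκ (by linarith)
  have hD1 : DomR κ t := b3_dom (by linarith) (by linarith) (Or.inl (by linarith))
  have hD0 : DomR κ (t - h) := b3_dom (by linarith) (by linarith) (Or.inl (by linarith))
  have y1 := yA6 hD1 hk1 hk2 (by linarith) (by linarith)
  have y0 := yB6 hD0 hk1 hk2 (by linarith) (by linarith)
  have j1 := T3_19_d1_2 hD1 hβ hk1 hk2 (by linarith) (by linarith) hR0 hR
  exact b3_piece 0.9 0.95 0.41 0.434 0.422 0.65573 0.66366 0.64792 0.6305 2.1766 2.2469 0.03 0.12 0.12 4.5455 1.9426 0 0 (-0.51) (-0.479) (-0.494) 1.63885 1.6653 1.5821 2.1522 0.08 0.265 0.165 3.9671 4.2783 0 0 0.2851 5.88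
    hβ hr hκ (by norm_num) hk1 hk2 hD1 hD0 j1 (j1 _ (by rw [sub_self, norm_zero]; norm_num))
    (T3_19_d0_2 hD0 hβ hk1 hk2 (by linarith) (by linarith) hR0 hR)
    (T3_19_p0 hD0 hβ hk1 hk2 (by linarith) (by linarith) hR0 hR)
    y1.1 y1.2 y0.1 y0.2 (by norm_num)
    (ex_um 0.41 (by norm_num) (by norm_num) (by norm_num) (by norm_num)) (ex_um 0.434 (by norm_num) (by norm_num) (by norm_num) (by norm_num)) (ex_lm 0.422 (by norm_num) (by norm_num) (by norm_num) (by norm_num) (by norm_num)) (by norm_num) (by norm_num) (by norm_num) (by norm_num) (by norm_num) (by norm_num) (by norm_num) (by norm_num)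
    (by norm_num) (by norm_num) (by norm_num) (by norm_num) (by norm_num) (by norm_num) (by norm_num) (by norm_num) (by norm_num) (by norm_num)
    (ex_up 0.51 (by norm_num) (by norm_num) (by norm_num) (by norm_num)) (ex_lp 0.494 (by norm_num) (by norm_num) (by norm_num)) (by norm_num) (by norm_num) (by norm_num) (by norm_num) (by norm_num) (by norm_num)
    (by norm_num) (by norm_num) (by norm_num) (by norm_num) (by norm_num) (by norm_num) (by norm_num) (by norm_num) (by norm_num) (by norm_num) (by norm_num)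
    (by norm_num) (by norm_num) (by norm_num) (by norm_num)

private theorem yA7 {κ t : ℝ} (h : DomR κ t) (hk1 : 0.9 ≤ κ) (hk2 : κ ≤ 0.95) (ht1 : 1.268 ≤ t + κ) (ht2 : t + κ ≤ 1.296) :
    0.416 ≤ sy κ t ∧ sy κ t ≤ 0.44 := by
  have hy1 : 0.416 ≤ sy κ t := syR_ge h 0.9 0.95 1.268 0.416 1.51588 1.51589 0.66379 0.70068 hk1 hk2 (by linarith) (by norm_num) (by norm_num)
    (expn_ge (by norm_num) (by norm_num)) (expn_le (by norm_num) (by norm_num) (by norm_num)) (by norm_num)
    (by norm_num) (by norm_num) (by norm_num) (by norm_num) (by norm_num) (by norm_num)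
  have hy2 : sy κ t ≤ 0.44 := syR_le h 0.9 0.95 1.296 0.44 1.5527 0.7091 0.71914 0.75911 hk1 hk2 (by linarith) (by norm_num) (by norm_num)
    (expn_ge (by norm_num) (by norm_num)) (by norm_num) (by norm_num) (Or.inr ((mul_le_mul_of_nonneg_left (expn_le (E := 1.55271) (by norm_num) (by norm_num) (by norm_num)) (by norm_num)).trans (by norm_num))) (by norm_num) (by norm_num) (by norm_num)
  exact ⟨hy1, hy2⟩

private theorem yB7 {κ t : ℝ} (h : DomR κ t) (hk1 : 0.9 ≤ κ) (hk2 : κ ≤ 0.95) (ht1 : -0.8264 ≤ t + κ) (ht2 : t + κ ≤ -0.79839) :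
    (-0.492) ≤ sy κ t ∧ sy κ t ≤ (-0.462) := by
  have hy1 : -0.492 ≤ sy κ t := syL_ge h 0.9 0.95 0.8264 0.492 0.6114 0.61141 0.3269 0.31664 0.33424 hk1 hk2 (by linarith) (by norm_num) (by norm_num) (by norm_num)
    (expm_ge (by norm_num) (by norm_num) (by norm_num) (by norm_num)) (expm_le (by norm_num) (by norm_num) (by norm_num)) (by norm_num)
    (by norm_num) (by norm_num) (by norm_num) (by norm_num) (by norm_num) (by norm_num)
  have hy2 : sy κ t ≤ -0.462 := syL_le h 0.9 0.95 0.79839 0.462 0.63002 0.63003 0.30638 0.32342 hk1 hk2 (by linarith) (by norm_num) (by norm_num) (by norm_num)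
    (expm_ge (by norm_num) (by norm_num) (by norm_num) (by norm_num)) (expm_le (by norm_num) (by norm_num) (by norm_num)) (by norm_num)
    (by norm_num) (by norm_num) (by norm_num) (by norm_num) (by norm_num) (by norm_num)
  exact ⟨hy1, hy2⟩

theorem pc7 {β r h t κ : ℝ} (hh : h = 2 * Real.pi / (3 : ℕ)) (hβ : 0 < β) (hr : 10 ≤ r) (hκ : κ = β * r)
    (hk1 : 0.9 ≤ κ) (hk2 : κ ≤ 0.95) (hT1 : 1.268 ≤ t + κ) (hT2 : t + κ ≤ 1.296) :
    Xf β r h t 0 ≠ 0 ∧ r * 0.2851 ≤ (Ld β r h t 1 - Ld β r h t 0).im ∧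
      ‖(((-1 : ℤ) : ℂ) - 1) * Ld β r h t 0 - ((-1 : ℤ) : ℂ) * Ld β r h t 1‖ ≤ r * 5.88 := by
  obtain ⟨q1, q2, q3⟩ := b3_h hh
  have hR0 := b3_R0 hβ hr hκ
  have hR := b3_R hβ hr hκ (by linarith)
  have hD1 : DomR κ t := b3_dom (by linarith) (by linarith) (Or.inl (by linarith))
  have hD0 : DomR κ (t - h) := b3_dom (by linarith) (by linarith) (Or.inl (by linarith))
  have y1 := yA7 hD1 hk1 hk2 (by linarith) (by linarith)
  have y0 := yB7 hD0 hk1 hk2 (by linarith) (by linarith)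
  have j1 := T3_19_d1_2 hD1 hβ hk1 hk2 (by linarith) (by linarith) hR0 hR
  exact b3_piece 0.9 0.95 0.416 0.44 0.428 0.65181 0.65969 0.64404 0.6268 2.1843 2.2544 0.03 0.12 0.12 4.5455 1.9278 0 0 (-0.492) (-0.462) (-0.477) 1.61123 1.63559 1.5539 2.1157 0.08 0.265 0.165 3.9671 4.2381 0 0 0.2851 5.88
    hβ hr hκ (by norm_num) hk1 hk2 hD1 hD0 j1 (j1 _ (by rw [sub_self, norm_zero]; norm_num))
    (T3_19_d0_2 hD0 hβ hk1 hk2 (by linarith) (by linarith) hR0 hR)
    (T3_19_p0 hD0 hβ hk1 hk2 (by linarith) (by linarith) hR0 hR)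
    y1.1 y1.2 y0.1 y0.2 (by norm_num)
    (ex_um 0.416 (by norm_num) (by norm_num) (by norm_num) (by norm_num)) (ex_um 0.44 (by norm_num) (by norm_num) (by norm_num) (by norm_num)) (ex_lm 0.428 (by norm_num) (by norm_num) (by norm_num) (by norm_num) (by norm_num)) (by norm_num) (by norm_num) (by norm_num) (by norm_num) (by norm_num) (by norm_num) (by norm_num) (by norm_num)
    (by norm_num) (by norm_num) (by norm_num) (by norm_num) (by norm_num) (by norm_num) (by norm_num) (by norm_num) (by norm_num) (by norm_num)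
    (ex_up 0.492 (by norm_num) (by norm_num) (by norm_num) (by norm_num)) (ex_lp 0.477 (by norm_num) (by norm_num) (by norm_num)) (by norm_num) (by norm_num) (by norm_num) (by norm_num) (by norm_num) (by norm_num)
    (by norm_num) (by norm_num) (by norm_num) (by norm_num) (by norm_num) (by norm_num) (by norm_num) (by norm_num) (by norm_num) (by norm_num) (by norm_num)
    (by norm_num) (by norm_num) (by norm_num) (by norm_num)

private theorem yA8 {κ t : ℝ} (h : DomR κ t) (hk1 : 0.9 ≤ κ) (hk2 : κ ≤ 0.95) (ht1 : 1.296 ≤ t + κ) (ht2 : t + κ ≤ 1.325) :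
    0.421 ≤ sy κ t ∧ sy κ t ≤ 0.446 := by
  have hy1 : 0.421 ≤ sy κ t := syR_ge h 0.9 0.95 1.296 0.421 1.52348 1.52349 0.67514 0.71266 hk1 hk2 (by linarith) (by norm_num) (by norm_num)
    (expn_ge (by norm_num) (by norm_num)) (expn_le (by norm_num) (by norm_num) (by norm_num)) (by norm_num)
    (by norm_num) (by norm_num) (by norm_num) (by norm_num) (by norm_num) (by norm_num)
  have hy2 : sy κ t ≤ 0.446 := syR_le h 0.9 0.95 1.325 0.446 1.56205 0.7231 0.73334 0.77409 hk1 hk2 (by linarith) (by norm_num) (by norm_num)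
    (expn_ge (by norm_num) (by norm_num)) (by norm_num) (by norm_num) (Or.inr ((mul_le_mul_of_nonneg_left (expn_le (E := 1.56206) (by norm_num) (by norm_num) (by norm_num)) (by norm_num)).trans (by norm_num))) (by norm_num) (by norm_num) (by norm_num)
  exact ⟨hy1, hy2⟩

private theorem yB8 {κ t : ℝ} (h : DomR κ t) (hk1 : 0.9 ≤ κ) (hk2 : κ ≤ 0.95) (ht1 : -0.7984 ≤ t + κ) (ht2 : t + κ ≤ -0.76939) :
    (-0.474) ≤ sy κ t ∧ sy κ t ≤ (-0.445) := by
  have hy1 : -0.474 ≤ sy κ t := syL_ge h 0.9 0.95 0.7984 0.474 0.6225 0.62251 0.3249 0.31059 0.32786 hk1 hk2 (by linarith) (by norm_num) (by norm_num) (by norm_num)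
    (expm_ge (by norm_num) (by norm_num) (by norm_num) (by norm_num)) (expm_le (by norm_num) (by norm_num) (by norm_num)) (by norm_num)
    (by norm_num) (by norm_num) (by norm_num) (by norm_num) (by norm_num) (by norm_num)
  have hy2 : sy κ t ≤ -0.445 := syL_le h 0.9 0.95 0.76939 0.445 0.64082 0.64083 0.30017 0.31686 hk1 hk2 (by linarith) (by norm_num) (by norm_num) (by norm_num)
    (expm_ge (by norm_num) (by norm_num) (by norm_num) (by norm_num)) (expm_le (by norm_num) (by norm_num) (by norm_num)) (by norm_num)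
    (by norm_num) (by norm_num) (by norm_num) (by norm_num) (by norm_num) (by norm_num)
  exact ⟨hy1, hy2⟩

theorem pc8 {β r h t κ : ℝ} (hh : h = 2 * Real.pi / (3 : ℕ)) (hβ : 0 < β) (hr : 10 ≤ r) (hκ : κ = β * r)
    (hk1 : 0.9 ≤ κ) (hk2 : κ ≤ 0.95) (hT1 : 1.296 ≤ t + κ) (hT2 : t + κ ≤ 1.325) :
    Xf β r h t 0 ≠ 0 ∧ r * 0.2851 ≤ (Ld β r h t 1 - Ld β r h t 0).im ∧
      ‖(((-1 : ℤ) : ℂ) - 1) * Ld β r h t 0 - ((-1 : ℤ) : ℂ) * Ld β r h t 1‖ ≤ r * 5.88 := by
  obtain ⟨q1, q2, q3⟩ := b3_h hh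
  have hR0 := b3_R0 hβ hr hκ
  have hR := b3_R hβ hr hκ (by linarith)
  have hD1 : DomR κ t := b3_dom (by linarith) (by linarith) (Or.inl (by linarith))
  have hD0 : DomR κ (t - h) := b3_dom (by linarith) (by linarith) (Or.inl (by linarith))
  have y1 := yA8 hD1 hk1 hk2 (by linarith) (by linarith)
  have y0 := yB8 hD0 hk1 hk2 (by linarith) (by linarith)
  have j1 := T3_19_d1_2 hD1 hβ hk1 hk2 (by linarith) (by linarith) hR0 hR
  exact b3_piece 0.9 0.95 0.421 0.446 0.433 0.64856 0.6564 0.64019 0.6236 2.1908 2.2619 0.03 0.12 0.12 4.5455 1.9151 0 0 (-0.474) (-0.445) (-0.46) 1.58407 1.60641 1.5261 2.0815 0.08 0.265 0.165 3.9671 4.1964 0 0 0.2851 5.88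
    hβ hr hκ (by norm_num) hk1 hk2 hD1 hD0 j1 (j1 _ (by rw [sub_self, norm_zero]; norm_num))
    (T3_19_d0_2 hD0 hβ hk1 hk2 (by linarith) (by linarith) hR0 hR)
    (T3_19_p0 hD0 hβ hk1 hk2 (by linarith) (by linarith) hR0 hR)
    y1.1 y1.2 y0.1 y0.2 (by norm_num)
    (ex_um 0.421 (by norm_num) (by norm_num) (by norm_num) (by norm_num)) (ex_um 0.446 (by norm_num) (by norm_num) (by norm_num) (by norm_num)) (ex_lm 0.433 (by norm_num) (by norm_num) (by norm_num) (by norm_num) (by norm_num)) (by norm_num) (by norm_num) (by norm_num) (by norm_num) (by norm_num) (by norm_num) (by norm_num) (by norm_num)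
    (by norm_num) (by norm_num) (by norm_num) (by norm_num) (by norm_num) (by norm_num) (by norm_num) (by norm_num) (by norm_num) (by norm_num)
    (ex_up 0.474 (by norm_num) (by norm_num) (by norm_num) (by norm_num)) (ex_lp 0.46 (by norm_num) (by norm_num) (by norm_num)) (by norm_num) (by norm_num) (by norm_num) (by norm_num) (by norm_num) (by norm_num)
    (by norm_num) (by norm_num) (by norm_num) (by norm_num) (by norm_num) (by norm_num) (by norm_num) (by norm_num) (by norm_num) (by norm_num) (by norm_num)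
    (by norm_num) (by norm_num) (by norm_num) (by norm_num)

private theorem yA9 {κ t : ℝ} (h : DomR κ t) (hk1 : 0.9 ≤ κ) (hk2 : κ ≤ 0.95) (ht1 : 1.325 ≤ t + κ) (ht2 : t + κ ≤ 1.353) :
    0.426 ≤ sy κ t ∧ sy κ t ≤ 0.451 := by
  have hy1 : 0.426 ≤ sy κ t := syR_ge h 0.9 0.95 1.325 0.426 1.53112 1.53113 0.68658 0.72474 hk1 hk2 (by linarith) (by norm_num) (by norm_num)
    (expn_ge (by norm_num) (by norm_num)) (expn_le (by norm_num) (by norm_num) (by norm_num)) (by norm_num)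
    (by norm_num) (by norm_num) (by norm_num) (by norm_num) (by norm_num) (by norm_num)
  have hy2 : sy κ t ≤ 0.451 := syR_ang2 h 0.9 0.95 1.353 0.84 0.668 0.7448 0.451 0.637 1.56988 hk1 hk2 (by linarith) (by norm_num) (by norm_num) (by norm_num)
    (cos_le_num (by norm_num)) (sin_le_num (by norm_num) (by norm_num)) (expm_le (by norm_num) (by norm_num) (by norm_num))
    (expn_ge (by norm_num) (by norm_num)) (by norm_num) (by norm_num) (by norm_num) (by norm_num) (by norm_num)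
  exact ⟨hy1, hy2⟩

private theorem yB9 {κ t : ℝ} (h : DomR κ t) (hk1 : 0.9 ≤ κ) (hk2 : κ ≤ 0.95) (ht1 : -0.7694 ≤ t + κ) (ht2 : t + κ ≤ -0.74139) :
    (-0.456) ≤ sy κ t ∧ sy κ t ≤ (-0.427) := by
  have hy1 : -0.456 ≤ sy κ t := syL_ge h 0.9 0.95 0.7694 0.456 0.63381 0.63382 0.3028 0.30422 0.32114 hk1 hk2 (by linarith) (by norm_num) (by norm_num) (by norm_num)
    (expm_ge (by norm_num) (by norm_num) (by norm_num) (by norm_num)) (expm_le (by norm_num) (by norm_num) (by norm_num)) (by norm_num)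
    (by norm_num) (by norm_num) (by norm_num) (by norm_num) (by norm_num) (by norm_num)
  have hy2 : sy κ t ≤ -0.427 := syL_le h 0.9 0.95 0.74139 0.427 0.65246 0.65247 0.29326 0.30957 hk1 hk2 (by linarith) (by norm_num) (by norm_num) (by norm_num)
    (expm_ge (by norm_num) (by norm_num) (by norm_num) (by norm_num)) (expm_le (by norm_num) (by norm_num) (by norm_num)) (by norm_num)
    (by norm_num) (by norm_num) (by norm_num) (by norm_num) (by norm_num) (by norm_num)
  exact ⟨hy1, hy2⟩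

theorem pc9 {β r h t κ : ℝ} (hh : h = 2 * Real.pi / (3 : ℕ)) (hβ : 0 < β) (hr : 10 ≤ r) (hκ : κ = β * r)
    (hk1 : 0.9 ≤ κ) (hk2 : κ ≤ 0.95) (hT1 : 1.325 ≤ t + κ) (hT2 : t + κ ≤ 1.353) :
    Xf β r h t 0 ≠ 0 ∧ r * 0.2851 ≤ (Ld β r h t 1 - Ld β r h t 0).im ∧
      ‖(((-1 : ℤ) : ℂ) - 1) * Ld β r h t 0 - ((-1 : ℤ) : ℂ) * Ld β r h t 1‖ ≤ r * 5.88 := by
  obtain ⟨q1, q2, q3⟩ := b3_h hh
  have hR0 := b3_R0 hβ hr hκ
  have hR := b3_R hβ hr hκ (by linarith)
  have hD1 : DomR κ t := b3_dom (by linarith) (by linarith) (Or.inl (by linarith))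
  have hD0 : DomR κ (t - h) := b3_dom (by linarith) (by linarith) (Or.inl (by linarith))
  have y1 := yA9 hD1 hk1 hk2 (by linarith) (by linarith)
  have y0 := yB9 hD0 hk1 hk2 (by linarith) (by linarith)
  have j1 := T3_19_d1_2 hD1 hβ hk1 hk2 (by linarith) (by linarith) hR0 hR
  exact b3_piece 0.9 0.95 0.426 0.451 0.439 0.64468 0.65312 0.637 0.6205 2.1973 2.2683 0.03 0.12 0.12 4.5455 1.9028 0 0 (-0.456) (-0.427) (-0.442) 1.55581 1.57776 1.4989 2.0478 0.08 0.265 0.165 3.9671 4.1553 0 0 0.2851 5.88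
    hβ hr hκ (by norm_num) hk1 hk2 hD1 hD0 j1 (j1 _ (by rw [sub_self, norm_zero]; norm_num))
    (T3_19_d0_2 hD0 hβ hk1 hk2 (by linarith) (by linarith) hR0 hR)
    (T3_19_p0 hD0 hβ hk1 hk2 (by linarith) (by linarith) hR0 hR)
    y1.1 y1.2 y0.1 y0.2 (by norm_num)
    (ex_um 0.426 (by norm_num) (by norm_num) (by norm_num) (by norm_num)) (ex_um 0.451 (by norm_num) (by norm_num) (by norm_num) (by norm_num)) (ex_lm 0.439 (by norm_num) (by norm_num) (by norm_num) (by norm_num) (by norm_num)) (by norm_num) (by norm_num) (by norm_num) (by norm_num) (by norm_num) (by norm_num) (by norm_num) (by norm_num)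
    (by norm_num) (by norm_num) (by norm_num) (by norm_num) (by norm_num) (by norm_num) (by norm_num) (by norm_num) (by norm_num) (by norm_num)
    (ex_up 0.456 (by norm_num) (by norm_num) (by norm_num) (by norm_num)) (ex_lp 0.442 (by norm_num) (by norm_num) (by norm_num)) (by norm_num) (by norm_num) (by norm_num) (by norm_num) (by norm_num) (by norm_num)
    (by norm_num) (by norm_num) (by norm_num) (by norm_num) (by norm_num) (by norm_num) (by norm_num) (by norm_num) (by norm_num) (by norm_num) (by norm_num)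
    (by norm_num) (by norm_num) (by norm_num) (by norm_num)

private theorem yA10 {κ t : ℝ} (h : DomR κ t) (hk1 : 0.9 ≤ κ) (hk2 : κ ≤ 0.95) (ht1 : 1.353 ≤ t + κ) (ht2 : t + κ ≤ 1.382) :
    0.431 ≤ sy κ t ∧ sy κ t ≤ 0.456 := by
  have hy1 : 0.431 ≤ sy κ t := syR_ge h 0.9 0.95 1.353 0.431 1.53879 1.5388 0.69812 0.73692 hk1 hk2 (by linarith) (by norm_num) (by norm_num)
    (expn_ge (by norm_num) (by norm_num)) (expn_le (by norm_num) (by norm_num) (by norm_num)) (by norm_num)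
    (by norm_num) (by norm_num) (by norm_num) (by norm_num) (by norm_num) (by norm_num)
  have hy2 : sy κ t ≤ 0.456 := syR_ang2 h 0.9 0.95 1.382 0.859 0.6538 0.7573 0.456 0.63382 1.57774 hk1 hk2 (by linarith) (by norm_num) (by norm_num) (by norm_num)
    (cos_le_num (by norm_num)) (sin_le_num (by norm_num) (by norm_num)) (expm_le (by norm_num) (by norm_num) (by norm_num))
    (expn_ge (by norm_num) (by norm_num)) (by norm_num) (by norm_num) (by norm_num) (by norm_num) (by norm_num)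
  exact ⟨hy1, hy2⟩

private theorem yB10 {κ t : ℝ} (h : DomR κ t) (hk1 : 0.9 ≤ κ) (hk2 : κ ≤ 0.95) (ht1 : -0.7414 ≤ t + κ) (ht2 : t + κ ≤ -0.71239) :
    (-0.438) ≤ sy κ t ∧ sy κ t ≤ (-0.41) := by
  have hy1 : -0.438 ≤ sy κ t := syL_ge h 0.9 0.95 0.7414 0.438 0.64532 0.64533 0.2961 0.29752 0.31407 hk1 hk2 (by linarith) (by norm_num) (by norm_num) (by norm_num)
    (expm_ge (by norm_num) (by norm_num) (by norm_num) (by norm_num)) (expm_le (by norm_num) (by norm_num) (by norm_num)) (by norm_num)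
    (by norm_num) (by norm_num) (by norm_num) (by norm_num) (by norm_num) (by norm_num)
  have hy2 : sy κ t ≤ -0.41 := syL_le h 0.9 0.95 0.71239 0.41 0.66365 0.66366 0.28641 0.30234 hk1 hk2 (by linarith) (by norm_num) (by norm_num) (by norm_num)
    (expm_ge (by norm_num) (by norm_num) (by norm_num) (by norm_num)) (expm_le (by norm_num) (by norm_num) (by norm_num)) (by norm_num)
    (by norm_num) (by norm_num) (by norm_num) (by norm_num) (by norm_num) (by norm_num)
  exact ⟨hy1, hy2⟩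

theorem pc10 {β r h t κ : ℝ} (hh : h = 2 * Real.pi / (3 : ℕ)) (hβ : 0 < β) (hr : 10 ≤ r) (hκ : κ = β * r)
    (hk1 : 0.9 ≤ κ) (hk2 : κ ≤ 0.95) (hT1 : 1.353 ≤ t + κ) (hT2 : t + κ ≤ 1.382) :
    Xf β r h t 0 ≠ 0 ∧ r * 0.2851 ≤ (Ld β r h t 1 - Ld β r h t 0).im ∧
      ‖(((-1 : ℤ) : ℂ) - 1) * Ld β r h t 0 - ((-1 : ℤ) : ℂ) * Ld β r h t 1‖ ≤ r * 5.88 := by
  obtain ⟨q1, q2, q3⟩ := b3_h hh
  have hR0 := b3_R0 hβ hr hκ
  have hR := b3_R hβ hr hκ (by linarith)
  have hD1 : DomR κ t := b3_dom (by linarith) (by linarith) (Or.inl (by linarith))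
  have hD0 : DomR κ (t - h) := b3_dom (by linarith) (by linarith) (Or.inl (by linarith))
  have y1 := yA10 hD1 hk1 hk2 (by linarith) (by linarith)
  have y0 := yB10 hD0 hk1 hk2 (by linarith) (by linarith)
  have j1 := T3_19_d1_2 hD1 hβ hk1 hk2 (by linarith) (by linarith) hR0 hR
  exact b3_piece 0.9 0.95 0.431 0.456 0.444 0.64146 0.64986 0.63382 0.6174 2.2039 2.2746 0.03 0.12 0.12 4.5455 1.8904 0 0 (-0.438) (-0.41) (-0.424) 1.52806 1.54961 1.4722 2.0183 0.08 0.265 0.165 3.9671 4.111 0 0 0.2851 5.88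
    hβ hr hκ (by norm_num) hk1 hk2 hD1 hD0 j1 (j1 _ (by rw [sub_self, norm_zero]; norm_num))
    (T3_19_d0_2 hD0 hβ hk1 hk2 (by linarith) (by linarith) hR0 hR)
    (T3_19_p0 hD0 hβ hk1 hk2 (by linarith) (by linarith) hR0 hR)
    y1.1 y1.2 y0.1 y0.2 (by norm_num)
    (ex_um 0.431 (by norm_num) (by norm_num) (by norm_num) (by norm_num)) (ex_um 0.456 (by norm_num) (by norm_num) (by norm_num) (by norm_num)) (ex_lm 0.444 (by norm_num) (by norm_num) (by norm_num) (by norm_num) (by norm_num)) (by norm_num) (by norm_num) (by norm_num) (by norm_num) (by norm_num) (by norm_num) (by norm_num) (by norm_num)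
    (by norm_num) (by norm_num) (by norm_num) (by norm_num) (by norm_num) (by norm_num) (by norm_num) (by norm_num) (by norm_num) (by norm_num)
    (ex_up 0.438 (by norm_num) (by norm_num) (by norm_num) (by norm_num)) (ex_lp 0.424 (by norm_num) (by norm_num) (by norm_num)) (by norm_num) (by norm_num) (by norm_num) (by norm_num) (by norm_num) (by norm_num)
    (by norm_num) (by norm_num) (by norm_num) (by norm_num) (by norm_num) (by norm_num) (by norm_num) (by norm_num) (by norm_num) (by norm_num) (by norm_num)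
    (by norm_num) (by norm_num) (by norm_num) (by norm_num)

theorem innS {β r h t κ : ℝ} (hh : h = 2 * Real.pi / (3 : ℕ)) (hβ : 0 < β) (hr : 10 ≤ r) (hκ : κ = β * r)
    (hk1 : 0.9 ≤ κ) (hk2 : κ ≤ 0.95) (hT1 : 1.091 ≤ t + κ) (hT2 : t + κ ≤ 1.382) :
    Xf β r h t 0 ≠ 0 ∧ r * 0.2851 ≤ (Ld β r h t 1 - Ld β r h t 0).im ∧
      ‖(((-1 : ℤ) : ℂ) - 1) * Ld β r h t 0 - ((-1 : ℤ) : ℂ) * Ld β r h t 1‖ ≤ r * 5.88 := by
  rcases le_total (t + κ) 1.111 with f0 | g0
  · exact pc0 hh hβ hr hκ hk1 hk2 hT1 f0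
  rcases le_total (t + κ) 1.131 with f1 | g1
  · exact pc1 hh hβ hr hκ hk1 hk2 g0 f1
  rcases le_total (t + κ) 1.158 with f2 | g2
  · exact pc2 hh hβ hr hκ hk1 hk2 g1 f2
  rcases le_total (t + κ) 1.184 with f3 | g3
  · exact pc3 hh hβ hr hκ hk1 hk2 g2 f3
  rcases le_total (t + κ) 1.211 with f4 | g4
  · exact pc4 hh hβ hr hκ hk1 hk2 g3 f4
  rcases le_total (t + κ) 1.24 with f5 | g5
  · exact pc5 hh hβ hr hκ hk1 hk2 g4 f5
  rcases le_total (t + κ) 1.268 with f6 | g6
  · exact pc6 hh hβ hr hκ hk1 hk2 g5 f6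
  rcases le_total (t + κ) 1.296 with f7 | g7
  · exact pc7 hh hβ hr hκ hk1 hk2 g6 f7
  rcases le_total (t + κ) 1.325 with f8 | g8
  · exact pc8 hh hβ hr hκ hk1 hk2 g7 f8
  rcases le_total (t + κ) 1.353 with f9 | g9
  · exact pc9 hh hβ hr hκ hk1 hk2 g8 f9
  exact pc10 hh hβ hr hκ hk1 hk2 g9 hT2

theorem circ {p : ℤ} (hp : IsCoprime (3 : ℤ) p) {β r : ℝ} (hβ : 0 < β) (hr : 10 ≤ r) (hk1 : 0.9 ≤ β * r)
    (hk2 : β * r ≤ 0.95) : Circ (2 * Real.pi * p / (3 : ℕ) + β) r := by
  obtain ⟨κ, hκ⟩ : ∃ κ, κ = β * r := ⟨_, rfl⟩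
  rw [← hκ] at hk1 hk2
  refine circ3 hp hr (h := 2 * Real.pi / (3 : ℕ)) (κ := κ) rfl 1.091 1.382 1.0067 0.2851 0.00167 0.00168 5.88 (by norm_num) (by norm_num) (by norm_num)
    (by norm_num) (by norm_num) ?_ ?_ ?_ ?_ ?_ (by norm_num) (by norm_num)
  · intro t h1 h2
    exact (innS rfl hβ hr hκ hk1 hk2 h1 h2).1
  · intro t h1 h2
    exact (innE rfl hβ hr hκ hk1 hk2 h1 h2).1
  · intro t h1 h2
    exact (innE rfl hβ hr hκ hk1 hk2 h1 h2).2
  · intro t h1 h2
    exact (innS rfl hβ hr hκ hk1 hk2 h1 h2).2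
  · intro t h1 h2 h3
    rcases h3 with h3 | h3
    · exact left rfl hβ hr hκ hk1 hk2 h1 h3
    · exact right0 rfl hβ hr hκ hk1 hk2 h3 h2

end B3_19

end Sok
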