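import Pool.Agent.Lib.MP_816dec_an.R1b3D
import Pool.Agent.Lib.MP_816dec_an.R1b3J20

/-!
MP_816dec_an (A3, row R1, b = 3): the cell `0.95 ≤ κ ≤ 1`.
-/

set_option autoImplicit false
set_option maxHeartbeats 4000000
set_option linter.unusedVariables false

open Complex Set

namespace Sok

namespace B3_20

private theorem yL {κ t : ℝ} (h : DomR κ t) (hk1 : 0.95 ≤ κ) (hk2 : κ ≤ 1) (ht1 : 0 ≤ t + κ) (ht2 : t + κ ≤ 1.083) :
    0 ≤ sy κ t ∧ sy κ t ≤ 0.398 := by
  have hy1 : 0 ≤ sy κ t := sy_nonneg h (by linarith)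
  have hy2 : sy κ t ≤ 0.398 := syR_le h 0.95 1 1.083 0.398 1.48884 0.5847 0.59255 0.62375 hk1 hk2 (by linarith) (by norm_num) (by norm_num)
    (expn_ge (by norm_num) (by norm_num)) (by norm_num) (by norm_num) (Or.inr ((mul_le_mul_of_nonneg_left (expn_le (E := 1.48885) (by norm_num) (by norm_num) (by norm_num)) (by norm_num)).trans (by norm_num))) (by norm_num) (by norm_num) (by norm_num)
  exact ⟨hy1, hy2⟩

theorem left {β r h t κ : ℝ} (hh : h = 2 * Real.pi / (3 : ℕ)) (hβ : 0 < β) (hr : 10 ≤ r) (hκ : κ = β * r)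
    (hk1 : 0.95 ≤ κ) (hk2 : κ ≤ 1) (hT1 : 0 ≤ t + κ) (hT2 : t + κ ≤ 1.083) :
    ‖Xf β r h t (-1)‖ < |‖Xf β r h t 1‖ - ‖Xf β r h t 0‖| := by
  obtain ⟨q1, q2, q3⟩ := b3_h hh
  have hR0 := b3_R0 hβ hr hκ
  have hR := b3_R hβ hr hκ (by linarith)
  have hD1 : DomR κ t := b3_dom (by linarith) (by linarith) (Or.inl (by linarith))
  have hy := yL hD1 hk1 hk2 (by linarith) (by linarith)
  have hY : 0.7677 * Real.exp (r * 0.75121) ≤ ‖Xf β r h t 1‖ :=
    b3_lo hβ hr hκ (k := 1) (t' := t) (by push_cast; ring) hD1 0.06 2.2472 0.7677 0.75121 (by norm_num)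
      (T3_20_p1 hD1 hβ hk1 hk2 (by linarith) (by linarith) hR0 hR)
      (v5_Dup hD1 1 0 0.398 1 0.67167 2.2472 hk2 hy.1 hy.2 (ex_up 0 (by norm_num) (by norm_num) (by norm_num) (by norm_num)) (ex_um 0.398 (by norm_num) (by norm_num) (by norm_num) (by norm_num)) (by norm_num) (by norm_num) (by norm_num)) (by norm_num) (by norm_num)
      (b3_Vlo hD1 0.95 1 0 1.083 0.54 (-0.61618) 0.646 0.79849 0.22504 0.75121 hk1 hk2 (by linarith) (by linarith) (by norm_num) (ex_lm 0.61618 (by norm_num) (by norm_num) (by norm_num) (by norm_num) (by norm_num)) (by norm_num) (by norm_num) (by norm_num) (by norm_num) (by norm_num) (by norm_num) (by norm_num) (by norm_num) (ex_um 0.22504 (by norm_num) (by norm_num) (by norm_num) (by norm_num)) (by norm_num))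
  have h0 : ‖Xf β r h t 0‖ ≤ 0.8868 * ‖Xf β r h t 1‖ :=
    b3_cmp 0.6971 0.03614 0.000901 0.70121 0.884701 0.002004 0.8868 hr (b3_HU0 0.6 0.95 1 (-2.0944) (-1.01139) 1.3219 1.76827 1.82212 0.56553 0.54882 1.76826 0.9743 0.12616 0.7851 1.6176 0 0.05 0.000001 1.707 0.71507 hβ hr hκ (by norm_num) hk1 hk2 (by norm_num) (by linarith) (by linarith) (by norm_num) (by norm_num) (ex_up 0.57 (by norm_num) (by norm_num) (by norm_num) (by norm_num)) (ex_up 0.6 (by norm_num) (by norm_num) (by norm_num) (by norm_num)) (ex_um 0.57 (by norm_num) (by norm_num) (by norm_num) (by norm_num)) (ex_um 0.6 (by norm_num) (by norm_num) (by norm_num) (by norm_num)) (by norm_num) (by norm_num) (ex_lp 0.57 (by norm_num) (by norm_num) (by norm_num)) (by norm_num) (by norm_num) (by norm_num) (by norm_num) (by norm_num) (by norm_num) (by norm_num) (by norm_num) (by norm_num) (by norm_num) (by norm_num) (by norm_num) (by norm_num) (by norm_num) (v5_hump 5.005 10 3.1623 0.0000003148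 0.000001 hβ hr hκ hk1 hk2 (by norm_num) (tb := (-1.01139)) (by linarith) (by norm_num) (by norm_num) (by norm_num) (by norm_num) (by norm_num) (by norm_num) (by norm_num) (ex_un 14 0.99 (by norm_num) (by norm_num) (by norm_num) (by norm_num)) (by norm_num)) (by norm_num) (by norm_num)) hY (by norm_num) (by norm_num) (by norm_num) (by norm_num) (by norm_num) (ex_un 0 0.3614 (by norm_num) (by norm_num) (by norm_num) (by norm_num)) (by norm_num) (by norm_num) (by norm_num) (ex_un 7 0.0121 (by norm_num) (by norm_num) (by norm_num) (by norm_num)) (by norm_num) (by norm_num)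
  have h2 : ‖Xf β r h t (-1)‖ ≤ 0.0362 * ‖Xf β r h t 1‖ := by
    rcases le_total ((t + h) + κ) 2.42 with g0 | g0
    · exact b3_cmp 0.009917 0.46173 0.0005475 0.75121 0.036037 0.000124 0.0362 hr ((b3_Xm hh).trans_le (b3_HF 0.49 0.95 1 2.09439 2.42 1.31573 0.62783 0.61263 1.59282 1.63232 0.61262 2.0723 0.12616 2.66509 0.1007 0.05603 0.5726 0.000001 2.7897 0.1735 0.28948 hβ hr hκ (by norm_num) hk1 hk2 (by norm_num) (by linarith) (by linarith) (by norm_num) (ex_um 0.4655 (by norm_num) (by norm_num) (by norm_num) (by norm_num)) (ex_um 0.49 (by norm_num) (by norm_num) (by norm_num) (by norm_num)) (ex_up 0.4655 (by norm_num) (by norm_num) (by norm_num) (by norm_num)) (ex_up 0.49 (by norm_num) (by norm_num) (by norm_num) (by norm_num)) (by norm_num) (by norm_num) (ex_lm 0.49 (by norm_num) (by norm_num) (by norm_num) (by norm_num) (by norm_num)) (by norm_num) (by norm_num) (by norm_num) (by norm_num) (by norm_num) (by norm_num) (by norm_num) (by norm_num)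 (by norm_num) (by norm_num) (by norm_num) (by norm_num) (ex_un 0 0.5603 (by norm_num) (by norm_num) (by norm_num) (by norm_num)) (v5_hump 1.5737 10 3.1623 0.0000003148 0.000001 hβ hr hκ hk1 hk2 (by norm_num) (tb := 2.42) (by linarith) (by norm_num) (by norm_num) (by norm_num) (by norm_num) (by norm_num) (by norm_num) (by norm_num) (ex_un 14 0.99 (by norm_num) (by norm_num) (by norm_num) (by norm_num)) (by norm_num)) (by norm_num) (by norm_num) (by norm_num))) hY (by norm_num) (by norm_num) (by norm_num) (by norm_num) (by norm_num) (ex_un 4 0.6173 (by norm_num) (by norm_num) (by norm_num) (by norm_num)) (by norm_num) (by norm_num) (by norm_num) (ex_un 7 0.5121 (by norm_num) (by norm_num) (by norm_num) (by norm_num)) (by norm_num) (by norm_num)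
    exact b3_cmp 1 0 0.006657 0.50121 0 0.032316 0.0362 hr (b3_w (b3_UD 0.95 1 2.42 3.1774 0.2 0.40931 0.2 1.9429 3.7267 0.25 hh hβ hr hκ (by norm_num) hk1 hk2 (by linarith) (by linarith) (by norm_num) (by norm_num) (by norm_num) (by norm_num) (by norm_num) (by norm_num) (by norm_num) (by norm_num) (by norm_num) (by norm_num) (by norm_num) (by norm_num) (by norm_num))) hY (by norm_num) (by norm_num) (by norm_num) (by norm_num) (by norm_num) (by norm_num) (by norm_num) (by norm_num) (by norm_num) (ex_un 5 0.0121 (by norm_num) (by norm_num) (by norm_num) (by norm_num)) (by norm_num) (by norm_num)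
  exact b3_out1 0.8868 0.0362 hY (by norm_num) h0 h2 (by norm_num)

private theorem yR0 {κ t : ℝ} (h : DomR κ t) (hk1 : 0.95 ≤ κ) (hk2 : κ ≤ 1) (ht1 : -0.7124 ≤ t + κ) (ht2 : t + κ ≤ 0.0001) :
    (-0.411) ≤ sy κ t ∧ sy κ t ≤ 0.005 := by
  have hy1 : -0.411 ≤ sy κ t := syL_ge h 0.95 1 0.7124 0.411 0.66298 0.66299 0.276 0.27248 0.28684 hk1 hk2 (by linarith) (by norm_num) (by norm_num) (by norm_num)
    (expm_ge (by norm_num) (by norm_num) (by norm_num) (by norm_num)) (expm_le (by norm_num) (by norm_num) (by norm_num)) (by norm_num)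
    (by norm_num) (by norm_num) (by norm_num) (by norm_num) (by norm_num) (by norm_num)
  have hy2 : sy κ t ≤ 0.005 := syR_le h 0.95 1 0.0001 0.005 1.00501 0.0049 0.00502 0.00529 hk1 hk2 (by linarith) (by norm_num) (by norm_num)
    (expn_ge (by norm_num) (by norm_num)) (by norm_num) (by norm_num) (Or.inr ((mul_le_mul_of_nonneg_left (expn_le (E := 1.00502) (by norm_num) (by norm_num) (by norm_num)) (by norm_num)).trans (by norm_num))) (by norm_num) (by norm_num) (by norm_num)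
  exact ⟨hy1, hy2⟩

theorem right0 {β r h t κ : ℝ} (hh : h = 2 * Real.pi / (3 : ℕ)) (hβ : 0 < β) (hr : 10 ≤ r) (hκ : κ = β * r)
    (hk1 : 0.95 ≤ κ) (hk2 : κ ≤ 1) (hT1 : 1.382 ≤ t + κ) (hT2 : t + κ ≤ h) :
    ‖Xf β r h t (-1)‖ < |‖Xf β r h t 1‖ - ‖Xf β r h t 0‖| := by
  obtain ⟨q1, q2, q3⟩ := b3_h hh
  have hR0 := b3_R0 hβ hr hκ
  have hR := b3_R hβ hr hκ (by linarith)
  have hD0 : DomR κ (t - h) := b3_dom (by linarith) (by linarith) (Or.inl (by linarith))
  have hy := yR0 hD0 hk1 hk2 (by linarith) (by linarith)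
  have hY : 0.7151 * Real.exp (r * 0.8463) ≤ ‖Xf β r h t 0‖ :=
    b3_lo hβ hr hκ (k := 0) (t' := t - h) (by push_cast; ring) hD0 0.105 2.4531 0.7151 0.8463 (by norm_num)
      (T3_20_p0R hD0 hβ hk1 hk2 (by linarith) (by linarith) hR0 hR)
      (v5_Dup hD0 1 (-0.411) 0.005 1.50833 0.99502 2.4531 hk2 hy.1 hy.2 (ex_up 0.411 (by norm_num) (by norm_num) (by norm_num) (by norm_num)) (ex_um 0.005 (by norm_num) (by norm_num) (by norm_num) (by norm_num)) (by norm_num) (by norm_num) (by norm_num)) (by norm_num) (by norm_num)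
      (b3_Vlo hD0 0.95 1 (-0.7124) 0.0001 1.36 0.30749 0.3704 0.93218 0.07023 0.8463 hk1 hk2 (by linarith) (by linarith) (by norm_num) (ex_lp 0.30749 (by norm_num) (by norm_num) (by norm_num)) (by norm_num) (by norm_num) (by norm_num) (by norm_num) (by norm_num) (by norm_num) (by norm_num) (by norm_num) (ex_um 0.07023 (by norm_num) (by norm_num) (by norm_num) (by norm_num)) (by norm_num))
  have h1 : ‖Xf β r h t 1‖ ≤ 0.3186 * ‖Xf β r h t 0‖ := by
    exact b3_cmp 0.1262 0.20704 0.0002115 0.8463 0.318457 0.000057 0.3186 hr (b3_X1.trans_le (b3_HF 0.41 0.95 1 1.382 2.0944 1.20588 0.6774 0.66366 1.47625 1.50682 0.66365 1.7395 0.12616 1.9527 0.4263 0.15185 0.2195 0.000001 1.8045 0.1908 0.63926 hβ hr hκ (by norm_num) hk1 hk2 (by norm_num) (by linarith) (by linarith) (by norm_num) (ex_um 0.3895 (by norm_num) (by norm_num) (by norm_num) (by norm_num)) (ex_um 0.41 (by norm_num) (by norm_num) (by norm_num) (by norm_num)) (ex_up 0.3895 (by norm_num) (by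 norm_num) (by norm_num) (by norm_num)) (ex_up 0.41 (by norm_num) (by norm_num) (by norm_num) (by norm_num)) (by norm_num) (by norm_num) (ex_lm 0.41 (by norm_num) (by norm_num) (by norm_num) (by norm_num) (by norm_num)) (by norm_num) (by norm_num) (by norm_num) (by norm_num) (by norm_num) (by norm_num) (by norm_num) (by norm_num) (by norm_num) (by norm_num) (by norm_num) (by norm_num) (ex_un 1 0.5185 (by norm_num) (by norm_num) (by norm_num) (by norm_num)) (v5_hump 1.8993 10 3.1623 0.0000003148 0.000001 hβ hr hκ hk1 hk2 (by norm_num) (tb := 2.0944) (by linarith) (by norm_num) (by norm_num) (by norm_num) (by norm_num) (by norm_num) (by norm_num) (by norm_num) (ex_un 14 0.99 (by norm_num) (by norm_num) (by norm_num) (by norm_num)) (by norm_num)) (by norm_num) (by norm_num) (by norm_num))) hY (by norm_num) (by norm_num) (by norm_num) (by norm_num) (by norm_num) (ex_un 2 0.0704 (by norm_num) (by norm_num) (by norm_num) (by norm_num)) (by norm_num)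 (by norm_num) (by norm_num) (ex_un 8 0.463 (by norm_num) (by norm_num) (by norm_num) (by norm_num)) (by norm_num) (by norm_num)
  have h2 : ‖Xf β r h t (-1)‖ ≤ 0.0071 * ‖Xf β r h t 0‖ := by
    exact b3_cmp 1 0 0.00245 0.6012 0 0.007072 0.0071 hr (b3_w (b3_UD 0.95 1 3.47639 4.1888 0.005 0.40931 0.1951 1.0761 2.0641 0.2451 hh hβ hr hκ (by norm_num) hk1 hk2 (by linarith) (by linarith) (by norm_num) (by norm_num) (by norm_num) (by norm_num) (by norm_num) (by norm_num) (by norm_num) (by norm_num) (by norm_num) (by norm_num) (by norm_num) (by norm_num) (by norm_num))) hY (by norm_num) (by norm_num) (by norm_num) (by norm_num) (by norm_num) (by norm_num) (by norm_num) (by norm_num) (by norm_num) (ex_un 6 0.012 (by norm_num) (by norm_num) (by norm_num) (by norm_num)) (by norm_num) (by norm_num)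
  exact b3_out0 0.3186 0.0071 hY (by norm_num) h1 h2 (by norm_num)

private theorem yI {κ t : ℝ} (h : DomR κ t) (hk1 : 0.95 ≤ κ) (hk2 : κ ≤ 1) (ht1 : -1.0114 ≤ t + κ) (ht2 : t + κ ≤ -0.71239) :
    (-0.592) ≤ sy κ t ∧ sy κ t ≤ (-0.402) := by
  have hy1 : -0.592 ≤ sy κ t := syL_ge h 0.95 1 1.0114 0.592 0.55321 0.55323 0.3303 0.3275 0.34475 hk1 hk2 (by linarith) (by norm_num) (by norm_num) (by norm_num)
    (expm_ge (by norm_num) (by norm_num) (by norm_num) (by norm_num)) (expm_le (by norm_num) (by norm_num) (by norm_num)) (by norm_num)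
    (by norm_num) (by norm_num) (by norm_num) (by norm_num) (by norm_num) (by norm_num)
  have hy2 : sy κ t ≤ -0.402 := syL_le h 0.95 1 0.71239 0.402 0.66898 0.66899 0.26892 0.28309 hk1 hk2 (by linarith) (by norm_num) (by norm_num) (by norm_num)
    (expm_ge (by norm_num) (by norm_num) (by norm_num) (by norm_num)) (expm_le (by norm_num) (by norm_num) (by norm_num)) (by norm_num)
    (by norm_num) (by norm_num) (by norm_num) (by norm_num) (by norm_num) (by norm_num)
  exact ⟨hy1, hy2⟩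

theorem innE {β r h t κ : ℝ} (hh : h = 2 * Real.pi / (3 : ℕ)) (hβ : 0 < β) (hr : 10 ≤ r) (hκ : κ = β * r)
    (hk1 : 0.95 ≤ κ) (hk2 : κ ≤ 1) (hT1 : 1.083 ≤ t + κ) (hT2 : t + κ ≤ 1.382) :
    ‖Xf β r h t (-1)‖ ≤ 0.0015 * ‖Xf β r h t 0‖ ∧ ‖Xf β r h (t + β) (-1)‖ ≤ 0.00154 * ‖Xf β r h t 0‖ := by
  obtain ⟨q1, q2, q3⟩ := b3_h hh
  have hR0 := b3_R0 hβ hr hκ
  have hR := b3_R hβ hr hκ (by linarith)
  have hD0 : DomR κ (t - h) := b3_dom (by linarith) (by linarith) (Or.inl (by linarith))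
  have hy := yI hD0 hk1 hk2 (by linarith) (by linarith)
  have hY : 0.6301 * Real.exp (r * 0.69382) ≤ ‖Xf β r h t 0‖ :=
    b3_lo hβ hr hκ (k := 0) (t' := t - h) (by push_cast; ring) hD0 0.165 3.0835 0.6301 0.69382 (by norm_num)
      (T3_20_p0 hD0 hβ hk1 hk2 (by linarith) (by linarith) hR0 hR)
      (v5_Dup hD0 1 (-0.592) (-0.402) 1.80761 1.49482 3.0835 hk2 hy.1 hy.2 (ex_up 0.592 (by norm_num) (by norm_num) (by norm_num) (by norm_num)) (ex_up 0.402 (by norm_num) (by norm_num) (by norm_num) (by norm_num)) (by norm_num) (by norm_num) (by norm_num)) (by norm_num) (by norm_num)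
      (b3_Vlo hD0 0.95 1 (-1.0114) (-0.71239) 1.69 0.52473 0.3559 0.93733 0.06472 0.69382 hk1 hk2 (by linarith) (by linarith) (by norm_num) (ex_lp 0.52473 (by norm_num) (by norm_num) (by norm_num)) (by norm_num) (by norm_num) (by norm_num) (by norm_num) (by norm_num) (by norm_num) (by norm_num) (by norm_num) (ex_um 0.06472 (by norm_num) (by norm_num) (by norm_num) (by norm_num)) (by norm_num))
  constructor
  · exact b3_cmp 1 0 0.001602 0.64382 0 0.001499 0.0015 hr ((b3_Xm hh).trans_le (b3_U1 0.95 1 3.17739 3.4764 0.60659 0.12616 0.7851 0.5699 0.0006 0.9643 0.007866 0.5892 hβ hr hκ (by norm_num) hk1 hk2 (by linarith) (by linarith) (by norm_num) (by norm_num) (by norm_num) (by norm_num) (by norm_num) (by norm_num) (by norm_num) (by norm_num) (by norm_num) (by norm_num) (by norm_num) (by norm_num) (by norm_num) (ex_un 5 0.699 (by norm_num) (by norm_num) (by norm_num) (by norm_num)) (v5_hump 0.5173 10 3.1623 0.005668 0.007866 hβ hr hκ hk1 hk2 (by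 norm_num) (tb := 3.4764) (by linarith) (by norm_num) (by norm_num) (by norm_num) (by norm_num) (by norm_num) (by norm_num) (by norm_num) (ex_un 5 0.173 (by norm_num) (by norm_num) (by norm_num) (by norm_num)) (by norm_num)) (by norm_num))) hY (by norm_num) (by norm_num) (by norm_num) (by norm_num) (by norm_num) (by norm_num) (by norm_num) (by norm_num) (by norm_num) (ex_un 6 0.4382 (by norm_num) (by norm_num) (by norm_num) (by norm_num)) (by norm_num) (by norm_num)
  · exact b3_cmp 1 0 0.001602 0.64382 0 0.001533 0.00154 hr ((b3_Xm hh).trans_le (b3_U1 0.95 1 3.17739 3.5764 0.60659 0.12616 0.7851 0.5699 0.0006 0.9643 0.021386 0.6027 hβ hr hκ (by norm_num) hk1 hk2 (by linarith) (by linarith) (by norm_num) (by norm_num) (by norm_num) (by norm_num) (by norm_num) (by norm_num) (by norm_num) (by norm_num) (by norm_num) (by norm_num) (by norm_num) (by norm_num) (by norm_num) (ex_un 5 0.699 (by norm_num) (by norm_num) (by norm_num) (by norm_num)) (v5_hump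 0.4173 10 3.1623 0.01541 0.021386 hβ hr hκ hk1 hk2 (by norm_num) (tb := 3.5764) (by linarith) (by norm_num) (by norm_num) (by norm_num) (by norm_num) (by norm_num) (by norm_num) (by norm_num) (ex_un 4 0.173 (by norm_num) (by norm_num) (by norm_num) (by norm_num)) (by norm_num)) (by norm_num))) hY (by norm_num) (by norm_num) (by norm_num) (by norm_num) (by norm_num) (by norm_num) (by norm_num) (by norm_num) (by norm_num) (ex_un 6 0.4382 (by norm_num) (by norm_num) (by norm_num) (by norm_num)) (by norm_num) (by norm_num)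

private theorem yA0 {κ t : ℝ} (h : DomR κ t) (hk1 : 0.95 ≤ κ) (hk2 : κ ≤ 1) (ht1 : 1.083 ≤ t + κ) (ht2 : t + κ ≤ 1.103) :
    0.386 ≤ sy κ t ∧ sy κ t ≤ 0.403 := by
  have hy1 : 0.386 ≤ sy κ t := syR_ge h 0.95 1 1.083 0.386 1.47108 1.47109 0.56783 0.59773 hk1 hk2 (by linarith) (by norm_num) (by norm_num)
    (expn_ge (by norm_num) (by norm_num)) (expn_le (by norm_num) (by norm_num) (by norm_num)) (by norm_num)
    (by norm_num) (by norm_num) (by norm_num) (by norm_num) (by norm_num) (by norm_num)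
  have hy2 : sy κ t ≤ 0.403 := syR_le h 0.95 1 1.103 0.403 1.4963 0.595 0.603 0.63476 hk1 hk2 (by linarith) (by norm_num) (by norm_num)
    (expn_ge (by norm_num) (by norm_num)) (by norm_num) (by norm_num) (Or.inr ((mul_le_mul_of_nonneg_left (expn_le (E := 1.49631) (by norm_num) (by norm_num) (by norm_num)) (by norm_num)).trans (by norm_num))) (by norm_num) (by norm_num) (by norm_num)
  exact ⟨hy1, hy2⟩

private theorem yB0 {κ t : ℝ} (h : DomR κ t) (hk1 : 0.95 ≤ κ) (hk2 : κ ≤ 1) (ht1 : -1.0114 ≤ t + κ) (ht2 : t + κ ≤ -0.99139) :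
    (-0.592) ≤ sy κ t ∧ sy κ t ≤ (-0.563) := by
  have hy1 : -0.592 ≤ sy κ t := syL_ge h 0.95 1 1.0114 0.592 0.55321 0.55323 0.3303 0.3275 0.34475 hk1 hk2 (by linarith) (by norm_num) (by norm_num) (by norm_num)
    (expm_ge (by norm_num) (by norm_num) (by norm_num) (by norm_num)) (expm_le (by norm_num) (by norm_num) (by norm_num)) (by norm_num)
    (by norm_num) (by norm_num) (by norm_num) (by norm_num) (by norm_num) (by norm_num)
  have hy2 : sy κ t ≤ -0.563 := syL_le h 0.95 1 0.99139 0.563 0.56949 0.5695 0.32062 0.33751 hk1 hk2 (by linarith) (by norm_num) (by norm_num) (by norm_num)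
    (expm_ge (by norm_num) (by norm_num) (by norm_num) (by norm_num)) (expm_le (by norm_num) (by norm_num) (by norm_num)) (by norm_num)
    (by norm_num) (by norm_num) (by norm_num) (by norm_num) (by norm_num) (by norm_num)
  exact ⟨hy1, hy2⟩

theorem pc0 {β r h t κ : ℝ} (hh : h = 2 * Real.pi / (3 : ℕ)) (hβ : 0 < β) (hr : 10 ≤ r) (hκ : κ = β * r)
    (hk1 : 0.95 ≤ κ) (hk2 : κ ≤ 1) (hT1 : 1.083 ≤ t + κ) (hT2 : t + κ ≤ 1.103) :
    Xf β r h t 0 ≠ 0 ∧ r * 0.2552 ≤ (Ld β r h t 1 - Ld β r h t 0).im ∧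
      ‖(((-1 : ℤ) : ℂ) - 1) * Ld β r h t 0 - ((-1 : ℤ) : ℂ) * Ld β r h t 1‖ ≤ r * 5.73 := by
  obtain ⟨q1, q2, q3⟩ := b3_h hh
  have hR0 := b3_R0 hβ hr hκ
  have hR := b3_R hβ hr hκ (by linarith)
  have hD1 : DomR κ t := b3_dom (by linarith) (by linarith) (Or.inl (by linarith))
  have hD0 : DomR κ (t - h) := b3_dom (by linarith) (by linarith) (Or.inl (by linarith))
  have y1 := yA0 hD1 hk1 hk2 (by linarith) (by linarith)
  have y0 := yB0 hD0 hk1 hk2 (by linarith) (by linarith)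
  have j1 := T3_20_d1_0 hD1 hβ hk1 hk2 (by linarith) (by linarith) hR0 hR
  exact b3_piece 0.95 1 0.386 0.403 0.395 0.67368 0.67978 0.66832 0.6798 2.1889 2.2527 0.08 0.115 0.115 1.6243 0.7464 0 0 (-0.592) (-0.563) (-0.578) 1.78246 1.80761 1.8077 2.6553 0.08 0.315 0.165 4.7156 5.2313 0 0 0.2552 5.73
    hβ hr hκ (by norm_num) hk1 hk2 hD1 hD0 j1 (j1 _ (by rw [sub_self, norm_zero]; norm_num))
    (T3_20_d0_0 hD0 hβ hk1 hk2 (by linarith) (by linarith) hR0 hR)
    (T3_20_p0 hD0 hβ hk1 hk2 (by linarith) (by linarith) hR0 hR)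
    y1.1 y1.2 y0.1 y0.2 (by norm_num)
    (ex_um 0.386 (by norm_num) (by norm_num) (by norm_num) (by norm_num)) (ex_um 0.403 (by norm_num) (by norm_num) (by norm_num) (by norm_num)) (ex_lm 0.395 (by norm_num) (by norm_num) (by norm_num) (by norm_num) (by norm_num)) (by norm_num) (by norm_num) (by norm_num) (by norm_num) (by norm_num) (by norm_num) (by norm_num) (by norm_num)
    (by norm_num) (by norm_num) (by norm_num) (by norm_num) (by norm_num) (by norm_num) (by norm_num) (by norm_num) (by norm_num) (by norm_num)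
    (ex_up 0.592 (by norm_num) (by norm_num) (by norm_num) (by norm_num)) (ex_lp 0.578 (by norm_num) (by norm_num) (by norm_num)) (by norm_num) (by norm_num) (by norm_num) (by norm_num) (by norm_num) (by norm_num)
    (by norm_num) (by norm_num) (by norm_num) (by norm_num) (by norm_num) (by norm_num) (by norm_num) (by norm_num) (by norm_num) (by norm_num) (by norm_num)
    (by norm_num) (by norm_num) (by norm_num) (by norm_num)

private theorem yA1 {κ t : ℝ} (h : DomR κ t) (hk1 : 0.95 ≤ κ) (hk2 : κ ≤ 1) (ht1 : 1.103 ≤ t + κ) (ht2 : t + κ ≤ 1.123) :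
    0.39 ≤ sy κ t ∧ sy κ t ≤ 0.408 := by
  have hy1 : 0.39 ≤ sy κ t := syR_ge h 0.95 1 1.103 0.39 1.47698 1.47699 0.57602 0.60635 hk1 hk2 (by linarith) (by norm_num) (by norm_num)
    (expn_ge (by norm_num) (by norm_num)) (expn_le (by norm_num) (by norm_num) (by norm_num)) (by norm_num)
    (by norm_num) (by norm_num) (by norm_num) (by norm_num) (by norm_num) (by norm_num)
  have hy2 : sy κ t ≤ 0.408 := syR_le h 0.95 1 1.123 0.408 1.5038 0.6054 0.61355 0.64585 hk1 hk2 (by linarith) (by norm_num) (by norm_num)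
    (expn_ge (by norm_num) (by norm_num)) (by norm_num) (by norm_num) (Or.inr ((mul_le_mul_of_nonneg_left (expn_le (E := 1.50381) (by norm_num) (by norm_num) (by norm_num)) (by norm_num)).trans (by norm_num))) (by norm_num) (by norm_num) (by norm_num)
  exact ⟨hy1, hy2⟩

private theorem yB1 {κ t : ℝ} (h : DomR κ t) (hk1 : 0.95 ≤ κ) (hk2 : κ ≤ 1) (ht1 : -0.9914 ≤ t + κ) (ht2 : t + κ ≤ -0.97139) :
    (-0.58) ≤ sy κ t ∧ sy κ t ≤ (-0.552) := by
  have hy1 : -0.58 ≤ sy κ t := syL_ge h 0.95 1 0.9914 0.58 0.55989 0.5599 0.3375 0.32473 0.34184 hk1 hk2 (by linarith) (by norm_num) (by norm_num) (by norm_num)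
    (expm_ge (by norm_num) (by norm_num) (by norm_num) (by norm_num)) (expm_le (by norm_num) (by norm_num) (by norm_num)) (by norm_num)
    (by norm_num) (by norm_num) (by norm_num) (by norm_num) (by norm_num) (by norm_num)
  have hy2 : sy κ t ≤ -0.552 := syL_le h 0.95 1 0.97139 0.552 0.57579 0.5758 0.31783 0.33458 hk1 hk2 (by linarith) (by norm_num) (by norm_num) (by norm_num)
    (expm_ge (by norm_num) (by norm_num) (by norm_num) (by norm_num)) (expm_le (by norm_num) (by norm_num) (by norm_num)) (by norm_num)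
    (by norm_num) (by norm_num) (by norm_num) (by norm_num) (by norm_num) (by norm_num)
  exact ⟨hy1, hy2⟩

theorem pc1 {β r h t κ : ℝ} (hh : h = 2 * Real.pi / (3 : ℕ)) (hβ : 0 < β) (hr : 10 ≤ r) (hκ : κ = β * r)
    (hk1 : 0.95 ≤ κ) (hk2 : κ ≤ 1) (hT1 : 1.103 ≤ t + κ) (hT2 : t + κ ≤ 1.123) :
    Xf β r h t 0 ≠ 0 ∧ r * 0.2552 ≤ (Ld β r h t 1 - Ld β r h t 0).im ∧
      ‖(((-1 : ℤ) : ℂ) - 1) * Ld β r h t 0 - ((-1 : ℤ) : ℂ) * Ld β r h t 1‖ ≤ r * 5.73 := by
  obtain ⟨q1, q2, q3⟩ := b3_h hh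
  have hR0 := b3_R0 hβ hr hκ
  have hR := b3_R hβ hr hκ (by linarith)
  have hD1 : DomR κ t := b3_dom (by linarith) (by linarith) (Or.inl (by linarith))
  have hD0 : DomR κ (t - h) := b3_dom (by linarith) (by linarith) (Or.inl (by linarith))
  have y1 := yA1 hD1 hk1 hk2 (by linarith) (by linarith)
  have y0 := yB1 hD0 hk1 hk2 (by linarith) (by linarith)
  have j1 := T3_20_d1_0 hD1 hβ hk1 hk2 (by linarith) (by linarith) hR0 hR
  exact b3_piece 0.95 1 0.39 0.408 0.399 0.67099 0.67706 0.66498 0.6771 2.1936 2.2582 0.08 0.115 0.115 1.6243 0.7426 0 0 (-0.58) (-0.552) (-0.566) 1.7612 1.78604 1.7861 2.617 0.08 0.315 0.165 4.7156 5.2065 0 0 0.2552 5.73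
    hβ hr hκ (by norm_num) hk1 hk2 hD1 hD0 j1 (j1 _ (by rw [sub_self, norm_zero]; norm_num))
    (T3_20_d0_0 hD0 hβ hk1 hk2 (by linarith) (by linarith) hR0 hR)
    (T3_20_p0 hD0 hβ hk1 hk2 (by linarith) (by linarith) hR0 hR)
    y1.1 y1.2 y0.1 y0.2 (by norm_num)
    (ex_um 0.39 (by norm_num) (by norm_num) (by norm_num) (by norm_num)) (ex_um 0.408 (by norm_num) (by norm_num) (by norm_num) (by norm_num)) (ex_lm 0.399 (by norm_num) (by norm_num) (by norm_num) (by norm_num) (by norm_num)) (by norm_num) (by norm_num) (by norm_num) (by norm_num) (by norm_num) (by norm_num) (by norm_num) (by norm_num)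
    (by norm_num) (by norm_num) (by norm_num) (by norm_num) (by norm_num) (by norm_num) (by norm_num) (by norm_num) (by norm_num) (by norm_num)
    (ex_up 0.58 (by norm_num) (by norm_num) (by norm_num) (by norm_num)) (ex_lp 0.566 (by norm_num) (by norm_num) (by norm_num)) (by norm_num) (by norm_num) (by norm_num) (by norm_num) (by norm_num) (by norm_num)
    (by norm_num) (by norm_num) (by norm_num) (by norm_num) (by norm_num) (by norm_num) (by norm_num) (by norm_num) (by norm_num) (by norm_num) (by norm_num)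
    (by norm_num) (by norm_num) (by norm_num) (by norm_num)

private theorem yA2 {κ t : ℝ} (h : DomR κ t) (hk1 : 0.95 ≤ κ) (hk2 : κ ≤ 1) (ht1 : 1.123 ≤ t + κ) (ht2 : t + κ ≤ 1.15) :
    0.395 ≤ sy κ t ∧ sy κ t ≤ 0.415 := by
  have hy1 : 0.395 ≤ sy κ t := syR_ge h 0.95 1 1.123 0.395 1.48438 1.48439 0.58633 0.6172 hk1 hk2 (by linarith) (by norm_num) (by norm_num)
    (expn_ge (by norm_num) (by norm_num)) (expn_le (by norm_num) (by norm_num) (by norm_num)) (by norm_num)
    (by norm_num) (by norm_num) (by norm_num) (by norm_num) (by norm_num) (by norm_num)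
  have hy2 : sy κ t ≤ 0.415 := syR_le h 0.95 1 1.15 0.415 1.51437 0.6201 0.62846 0.66155 hk1 hk2 (by linarith) (by norm_num) (by norm_num)
    (expn_ge (by norm_num) (by norm_num)) (by norm_num) (by norm_num) (Or.inr ((mul_le_mul_of_nonneg_left (expn_le (E := 1.51438) (by norm_num) (by norm_num) (by norm_num)) (by norm_num)).trans (by norm_num))) (by norm_num) (by norm_num) (by norm_num)
  exact ⟨hy1, hy2⟩

private theorem yB2 {κ t : ℝ} (h : DomR κ t) (hk1 : 0.95 ≤ κ) (hk2 : κ ≤ 1) (ht1 : -0.9714 ≤ t + κ) (ht2 : t + κ ≤ -0.94439) :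
    (-0.569) ≤ sy κ t ∧ sy κ t ≤ (-0.537) := by
  have hy1 : -0.569 ≤ sy κ t := syL_ge h 0.95 1 0.9714 0.569 0.56609 0.5661 0.3178 0.3221 0.33907 hk1 hk2 (by linarith) (by norm_num) (by norm_num) (by norm_num)
    (expm_ge (by norm_num) (by norm_num) (by norm_num) (by norm_num)) (expm_le (by norm_num) (by norm_num) (by norm_num)) (by norm_num)
    (by norm_num) (by norm_num) (by norm_num) (by norm_num) (by norm_num) (by norm_num)
  have hy2 : sy κ t ≤ -0.537 := syL_le h 0.95 1 0.94439 0.537 0.58449 0.58451 0.31387 0.33041 hk1 hk2 (by linarith) (by norm_num) (by norm_num) (by norm_num)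
    (expm_ge (by norm_num) (by norm_num) (by norm_num) (by norm_num)) (expm_le (by norm_num) (by norm_num) (by norm_num)) (by norm_num)
    (by norm_num) (by norm_num) (by norm_num) (by norm_num) (by norm_num) (by norm_num)
  exact ⟨hy1, hy2⟩

theorem pc2 {β r h t κ : ℝ} (hh : h = 2 * Real.pi / (3 : ℕ)) (hβ : 0 < β) (hr : 10 ≤ r) (hκ : κ = β * r)
    (hk1 : 0.95 ≤ κ) (hk2 : κ ≤ 1) (hT1 : 1.123 ≤ t + κ) (hT2 : t + κ ≤ 1.15) :
    Xf β r h t 0 ≠ 0 ∧ r * 0.2552 ≤ (Ld β r h t 1 - Ld β r h t 0).im ∧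
      ‖(((-1 : ℤ) : ℂ) - 1) * Ld β r h t 0 - ((-1 : ℤ) : ℂ) * Ld β r h t 1‖ ≤ r * 5.73 := by
  obtain ⟨q1, q2, q3⟩ := b3_h hh
  have hR0 := b3_R0 hβ hr hκ
  have hR := b3_R hβ hr hκ (by linarith)
  have hD1 : DomR κ t := b3_dom (by linarith) (by linarith) (Or.inl (by linarith))
  have hD0 : DomR κ (t - h) := b3_dom (by linarith) (by linarith) (Or.inl (by linarith))
  have y1 := yA2 hD1 hk1 hk2 (by linarith) (by linarith)
  have y0 := yB2 hD0 hk1 hk2 (by linarith) (by linarith)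
  have j1 := T3_20_d1_1 hD1 hβ hk1 hk2 (by linarith) (by linarith) hR0 hR
  exact b3_piece 0.95 1 0.395 0.415 0.405 0.66697 0.67369 0.66035 0.6737 2.1995 2.2661 0.06 0.115 0.115 2.1658 0.9839 0 0 (-0.569) (-0.537) (-0.553) 1.73845 1.7665 1.7665 2.5662 0.08 0.295 0.165 4.4162 4.8699 0 0 0.2552 5.73
    hβ hr hκ (by norm_num) hk1 hk2 hD1 hD0 j1 (j1 _ (by rw [sub_self, norm_zero]; norm_num))
    (T3_20_d0_1 hD0 hβ hk1 hk2 (by linarith) (by linarith) hR0 hR)
    (T3_20_p0 hD0 hβ hk1 hk2 (by linarith) (by linarith) hR0 hR)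
    y1.1 y1.2 y0.1 y0.2 (by norm_num)
    (ex_um 0.395 (by norm_num) (by norm_num) (by norm_num) (by norm_num)) (ex_um 0.415 (by norm_num) (by norm_num) (by norm_num) (by norm_num)) (ex_lm 0.405 (by norm_num) (by norm_num) (by norm_num) (by norm_num) (by norm_num)) (by norm_num) (by norm_num) (by norm_num) (by norm_num) (by norm_num) (by norm_num) (by norm_num) (by norm_num)
    (by norm_num) (by norm_num) (by norm_num) (by norm_num) (by norm_num) (by norm_num) (by norm_num) (by norm_num) (by norm_num) (by norm_num)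
    (ex_up 0.569 (by norm_num) (by norm_num) (by norm_num) (by norm_num)) (ex_lp 0.553 (by norm_num) (by norm_num) (by norm_num)) (by norm_num) (by norm_num) (by norm_num) (by norm_num) (by norm_num) (by norm_num)
    (by norm_num) (by norm_num) (by norm_num) (by norm_num) (by norm_num) (by norm_num) (by norm_num) (by norm_num) (by norm_num) (by norm_num) (by norm_num)
    (by norm_num) (by norm_num) (by norm_num) (by norm_num)

private theorem yA3 {κ t : ℝ} (h : DomR κ t) (hk1 : 0.95 ≤ κ) (hk2 : κ ≤ 1) (ht1 : 1.15 ≤ t + κ) (ht2 : t + κ ≤ 1.176) :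
    0.401 ≤ sy κ t ∧ sy κ t ≤ 0.421 := by
  have hy1 : 0.401 ≤ sy κ t := syR_ge h 0.95 1 1.15 0.401 1.49331 1.49332 0.59881 0.63034 hk1 hk2 (by linarith) (by norm_num) (by norm_num)
    (expn_ge (by norm_num) (by norm_num)) (expn_le (by norm_num) (by norm_num) (by norm_num)) (by norm_num)
    (by norm_num) (by norm_num) (by norm_num) (by norm_num) (by norm_num) (by norm_num)
  have hy2 : sy κ t ≤ 0.421 := syR_le h 0.95 1 1.176 0.421 1.52348 0.6329 0.64138 0.67515 hk1 hk2 (by linarith) (by norm_num) (by norm_num)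
    (expn_ge (by norm_num) (by norm_num)) (by norm_num) (by norm_num) (Or.inr ((mul_le_mul_of_nonneg_left (expn_le (E := 1.52349) (by norm_num) (by norm_num) (by norm_num)) (by norm_num)).trans (by norm_num))) (by norm_num) (by norm_num) (by norm_num)
  exact ⟨hy1, hy2⟩

private theorem yB3 {κ t : ℝ} (h : DomR κ t) (hk1 : 0.95 ≤ κ) (hk2 : κ ≤ 1) (ht1 : -0.9444 ≤ t + κ) (ht2 : t + κ ≤ -0.91839) :
    (-0.553) ≤ sy κ t ∧ sy κ t ≤ (-0.522) := by
  have hy1 : -0.553 ≤ sy κ t := syL_ge h 0.95 1 0.9444 0.553 0.57522 0.57523 0.3138 0.31809 0.33485 hk1 hk2 (by linarith) (by norm_num) (by norm_num) (by norm_num)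
    (expm_ge (by norm_num) (by norm_num) (by norm_num) (by norm_num)) (expm_le (by norm_num) (by norm_num) (by norm_num)) (by norm_num)
    (by norm_num) (by norm_num) (by norm_num) (by norm_num) (by norm_num) (by norm_num)
  have hy2 : sy κ t ≤ -0.522 := syL_le h 0.95 1 0.91839 0.522 0.59333 0.59334 0.30971 0.32603 hk1 hk2 (by linarith) (by norm_num) (by norm_num) (by norm_num)
    (expm_ge (by norm_num) (by norm_num) (by norm_num) (by norm_num)) (expm_le (by norm_num) (by norm_num) (by norm_num)) (by norm_num)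
    (by norm_num) (by norm_num) (by norm_num) (by norm_num) (by norm_num) (by norm_num)
  exact ⟨hy1, hy2⟩

theorem pc3 {β r h t κ : ℝ} (hh : h = 2 * Real.pi / (3 : ℕ)) (hβ : 0 < β) (hr : 10 ≤ r) (hκ : κ = β * r)
    (hk1 : 0.95 ≤ κ) (hk2 : κ ≤ 1) (hT1 : 1.15 ≤ t + κ) (hT2 : t + κ ≤ 1.176) :
    Xf β r h t 0 ≠ 0 ∧ r * 0.2552 ≤ (Ld β r h t 1 - Ld β r h t 0).im ∧
      ‖(((-1 : ℤ) : ℂ) - 1) * Ld β r h t 0 - ((-1 : ℤ) : ℂ) * Ld β r h t 1‖ ≤ r * 5.73 := by
  obtain ⟨q1, q2, q3⟩ := b3_h hh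
  have hR0 := b3_R0 hβ hr hκ
  have hR := b3_R hβ hr hκ (by linarith)
  have hD1 : DomR κ t := b3_dom (by linarith) (by linarith) (Or.inl (by linarith))
  have hD0 : DomR κ (t - h) := b3_dom (by linarith) (by linarith) (Or.inl (by linarith))
  have y1 := yA3 hD1 hk1 hk2 (by linarith) (by linarith)
  have y0 := yB3 hD0 hk1 hk2 (by linarith) (by linarith)
  have j1 := T3_20_d1_1 hD1 hβ hk1 hk2 (by linarith) (by linarith) hR0 hR
  exact b3_piece 0.95 1 0.401 0.421 0.411 0.66298 0.66966 0.6564 0.6697 2.2066 2.2729 0.06 0.115 0.115 2.1658 0.9765 0 0 (-0.553) (-0.522) (-0.537) 1.71086 1.73847 1.7385 2.5184 0.08 0.295 0.165 4.4162 4.838 0 0 0.2552 5.73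
    hβ hr hκ (by norm_num) hk1 hk2 hD1 hD0 j1 (j1 _ (by rw [sub_self, norm_zero]; norm_num))
    (T3_20_d0_1 hD0 hβ hk1 hk2 (by linarith) (by linarith) hR0 hR)
    (T3_20_p0 hD0 hβ hk1 hk2 (by linarith) (by linarith) hR0 hR)
    y1.1 y1.2 y0.1 y0.2 (by norm_num)
    (ex_um 0.401 (by norm_num) (by norm_num) (by norm_num) (by norm_num)) (ex_um 0.421 (by norm_num) (by norm_num) (by norm_num) (by norm_num)) (ex_lm 0.411 (by norm_num) (by norm_num) (by norm_num) (by norm_num) (by norm_num)) (by norm_num) (by norm_num) (by norm_num) (by norm_num) (by norm_num) (by norm_num) (by norm_num) (by norm_num)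
    (by norm_num) (by norm_num) (by norm_num) (by norm_num) (by norm_num) (by norm_num) (by norm_num) (by norm_num) (by norm_num) (by norm_num)
    (ex_up 0.553 (by norm_num) (by norm_num) (by norm_num) (by norm_num)) (ex_lp 0.537 (by norm_num) (by norm_num) (by norm_num)) (by norm_num) (by norm_num) (by norm_num) (by norm_num) (by norm_num) (by norm_num)
    (by norm_num) (by norm_num) (by norm_num) (by norm_num) (by norm_num) (by norm_num) (by norm_num) (by norm_num) (by norm_num) (by norm_num) (by norm_num)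
    (by norm_num) (by norm_num) (by norm_num) (by norm_num)

private theorem yA4 {κ t : ℝ} (h : DomR κ t) (hk1 : 0.95 ≤ κ) (hk2 : κ ≤ 1) (ht1 : 1.176 ≤ t + κ) (ht2 : t + κ ≤ 1.203) :
    0.406 ≤ sy κ t ∧ sy κ t ≤ 0.427 := by
  have hy1 : 0.406 ≤ sy κ t := syR_ge h 0.95 1 1.176 0.406 1.5008 1.50081 0.60932 0.6414 hk1 hk2 (by linarith) (by norm_num) (by norm_num)
    (expn_ge (by norm_num) (by norm_num)) (expn_le (by norm_num) (by norm_num) (by norm_num)) (by norm_num)
    (by norm_num) (by norm_num) (by norm_num) (by norm_num) (by norm_num) (by norm_num)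
  have hy2 : sy κ t ≤ 0.427 := syR_le h 0.95 1 1.203 0.427 1.53265 0.6458 0.65444 0.6889 hk1 hk2 (by linarith) (by norm_num) (by norm_num)
    (expn_ge (by norm_num) (by norm_num)) (by norm_num) (by norm_num) (Or.inr ((mul_le_mul_of_nonneg_left (expn_le (E := 1.53266) (by norm_num) (by norm_num) (by norm_num)) (by norm_num)).trans (by norm_num))) (by norm_num) (by norm_num) (by norm_num)
  exact ⟨hy1, hy2⟩

private theorem yB4 {κ t : ℝ} (h : DomR κ t) (hk1 : 0.95 ≤ κ) (hk2 : κ ≤ 1) (ht1 : -0.9184 ≤ t + κ) (ht2 : t + κ ≤ -0.89139) :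
    (-0.537) ≤ sy κ t ∧ sy κ t ≤ (-0.506) := by
  have hy1 : -0.537 ≤ sy κ t := syL_ge h 0.95 1 0.9184 0.537 0.58449 0.58451 0.3138 0.31387 0.33041 hk1 hk2 (by linarith) (by norm_num) (by norm_num) (by norm_num)
    (expm_ge (by norm_num) (by norm_num) (by norm_num) (by norm_num)) (expm_le (by norm_num) (by norm_num) (by norm_num)) (by norm_num)
    (by norm_num) (by norm_num) (by norm_num) (by norm_num) (by norm_num) (by norm_num)
  have hy2 : sy κ t ≤ -0.506 := syL_le h 0.95 1 0.89139 0.506 0.6029 0.60291 0.30506 0.32113 hk1 hk2 (by linarith) (by norm_num) (by norm_num) (by norm_num)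
    (expm_ge (by norm_num) (by norm_num) (by norm_num) (by norm_num)) (expm_le (by norm_num) (by norm_num) (by norm_num)) (by norm_num)
    (by norm_num) (by norm_num) (by norm_num) (by norm_num) (by norm_num) (by norm_num)
  exact ⟨hy1, hy2⟩

theorem pc4 {β r h t κ : ℝ} (hh : h = 2 * Real.pi / (3 : ℕ)) (hβ : 0 < β) (hr : 10 ≤ r) (hκ : κ = β * r)
    (hk1 : 0.95 ≤ κ) (hk2 : κ ≤ 1) (hT1 : 1.176 ≤ t + κ) (hT2 : t + κ ≤ 1.203) :
    Xf β r h t 0 ≠ 0 ∧ r * 0.2552 ≤ (Ld β r h t 1 - Ld β r h t 0).im ∧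
      ‖(((-1 : ℤ) : ℂ) - 1) * Ld β r h t 0 - ((-1 : ℤ) : ℂ) * Ld β r h t 1‖ ≤ r * 5.73 := by
  obtain ⟨q1, q2, q3⟩ := b3_h hh
  have hR0 := b3_R0 hβ hr hκ
  have hR := b3_R hβ hr hκ (by linarith)
  have hD1 : DomR κ t := b3_dom (by linarith) (by linarith) (Or.inl (by linarith))
  have hD0 : DomR κ (t - h) := b3_dom (by linarith) (by linarith) (Or.inl (by linarith))
  have y1 := yA4 hD1 hk1 hk2 (by linarith) (by linarith)
  have y0 := yB4 hD0 hk1 hk2 (by linarith) (by linarith)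
  have j1 := T3_20_d1_1 hD1 hβ hk1 hk2 (by linarith) (by linarith) hR0 hR
  exact b3_piece 0.95 1 0.406 0.427 0.416 0.65968 0.66632 0.65247 0.6664 2.2126 2.2798 0.06 0.115 0.115 2.1658 0.9703 0 0 (-0.537) (-0.506) (-0.521) 1.6837 1.71087 1.7109 2.4696 0.08 0.295 0.165 4.4162 4.808 0 0 0.2552 5.73
    hβ hr hκ (by norm_num) hk1 hk2 hD1 hD0 j1 (j1 _ (by rw [sub_self, norm_zero]; norm_num))
    (T3_20_d0_1 hD0 hβ hk1 hk2 (by linarith) (by linarith) hR0 hR)
    (T3_20_p0 hD0 hβ hk1 hk2 (by linarith) (by linarith) hR0 hR)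
    y1.1 y1.2 y0.1 y0.2 (by norm_num)
    (ex_um 0.406 (by norm_num) (by norm_num) (by norm_num) (by norm_num)) (ex_um 0.427 (by norm_num) (by norm_num) (by norm_num) (by norm_num)) (ex_lm 0.416 (by norm_num) (by norm_num) (by norm_num) (by norm_num) (by norm_num)) (by norm_num) (by norm_num) (by norm_num) (by norm_num) (by norm_num) (by norm_num) (by norm_num) (by norm_num)
    (by norm_num) (by norm_num) (by norm_num) (by norm_num) (by norm_num) (by norm_num) (by norm_num) (by norm_num) (by norm_num) (by norm_num)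
    (ex_up 0.537 (by norm_num) (by norm_num) (by norm_num) (by norm_num)) (ex_lp 0.521 (by norm_num) (by norm_num) (by norm_num)) (by norm_num) (by norm_num) (by norm_num) (by norm_num) (by norm_num) (by norm_num)
    (by norm_num) (by norm_num) (by norm_num) (by norm_num) (by norm_num) (by norm_num) (by norm_num) (by norm_num) (by norm_num) (by norm_num) (by norm_num)
    (by norm_num) (by norm_num) (by norm_num) (by norm_num)

private theorem yA5 {κ t : ℝ} (h : DomR κ t) (hk1 : 0.95 ≤ κ) (hk2 : κ ≤ 1) (ht1 : 1.203 ≤ t + κ) (ht2 : t + κ ≤ 1.233) :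
    0.412 ≤ sy κ t ∧ sy κ t ≤ 0.434 := by
  have hy1 : 0.412 ≤ sy κ t := syR_ge h 0.95 1 1.203 0.412 1.50983 1.50984 0.62204 0.6548 hk1 hk2 (by linarith) (by norm_num) (by norm_num)
    (expn_ge (by norm_num) (by norm_num)) (expn_le (by norm_num) (by norm_num) (by norm_num)) (by norm_num)
    (by norm_num) (by norm_num) (by norm_num) (by norm_num) (by norm_num) (by norm_num)
  have hy2 : sy κ t ≤ 0.434 := syR_le h 0.95 1 1.233 0.434 1.54341 0.661 0.66983 0.7051 hk1 hk2 (by linarith) (by norm_num) (by norm_num)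
    (expn_ge (by norm_num) (by norm_num)) (by norm_num) (by norm_num) (Or.inr ((mul_le_mul_of_nonneg_left (expn_le (E := 1.54342) (by norm_num) (by norm_num) (by norm_num)) (by norm_num)).trans (by norm_num))) (by norm_num) (by norm_num) (by norm_num)
  exact ⟨hy1, hy2⟩

private theorem yB5 {κ t : ℝ} (h : DomR κ t) (hk1 : 0.95 ≤ κ) (hk2 : κ ≤ 1) (ht1 : -0.8914 ≤ t + κ) (ht2 : t + κ ≤ -0.86139) :
    (-0.521) ≤ sy κ t ∧ sy κ t ≤ (-0.489) := by
  have hy1 : -0.521 ≤ sy κ t := syL_ge h 0.95 1 0.8914 0.521 0.59392 0.59393 0.3053 0.30943 0.32573 hk1 hk2 (by linarith) (by norm_num) (by norm_num) (by norm_num)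
    (expm_ge (by norm_num) (by norm_num) (by norm_num) (by norm_num)) (expm_le (by norm_num) (by norm_num) (by norm_num)) (by norm_num)
    (by norm_num) (by norm_num) (by norm_num) (by norm_num) (by norm_num) (by norm_num)
  have hy2 : sy κ t ≤ -0.489 := syL_le h 0.95 1 0.86139 0.489 0.61323 0.61324 0.29986 0.31566 hk1 hk2 (by linarith) (by norm_num) (by norm_num) (by norm_num)
    (expm_ge (by norm_num) (by norm_num) (by norm_num) (by norm_num)) (expm_le (by norm_num) (by norm_num) (by norm_num)) (by norm_num)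
    (by norm_num) (by norm_num) (by norm_num) (by norm_num) (by norm_num) (by norm_num)
  exact ⟨hy1, hy2⟩

theorem pc5 {β r h t κ : ℝ} (hh : h = 2 * Real.pi / (3 : ℕ)) (hβ : 0 < β) (hr : 10 ≤ r) (hκ : κ = β * r)
    (hk1 : 0.95 ≤ κ) (hk2 : κ ≤ 1) (hT1 : 1.203 ≤ t + κ) (hT2 : t + κ ≤ 1.233) :
    Xf β r h t 0 ≠ 0 ∧ r * 0.2552 ≤ (Ld β r h t 1 - Ld β r h t 0).im ∧
      ‖(((-1 : ℤ) : ℂ) - 1) * Ld β r h t 0 - ((-1 : ℤ) : ℂ) * Ld β r h t 1‖ ≤ r * 5.73 := by
  obtain ⟨q1, q2, q3⟩ := b3_h hh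
  have hR0 := b3_R0 hβ hr hκ
  have hR := b3_R hβ hr hκ (by linarith)
  have hD1 : DomR κ t := b3_dom (by linarith) (by linarith) (Or.inl (by linarith))
  have hD0 : DomR κ (t - h) := b3_dom (by linarith) (by linarith) (Or.inl (by linarith))
  have y1 := yA5 hD1 hk1 hk2 (by linarith) (by linarith)
  have y0 := yB5 hD0 hk1 hk2 (by linarith) (by linarith)
  have j1 := T3_20_d1_2 hD1 hβ hk1 hk2 (by linarith) (by linarith) hR0 hR
  exact b3_piece 0.95 1 0.412 0.434 0.423 0.65507 0.66233 0.64792 0.6624 2.2197 2.2879 0.03 0.125 0.125 4.762 2.1173 0 0 (-0.521) (-0.489) (-0.505) 1.65698 1.68372 1.6838 2.4205 0.1 0.31 0.165 3.7126 4.0181 0 0 0.2552 5.73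
    hβ hr hκ (by norm_num) hk1 hk2 hD1 hD0 j1 (j1 _ (by rw [sub_self, norm_zero]; norm_num))
    (T3_20_d0_2 hD0 hβ hk1 hk2 (by linarith) (by linarith) hR0 hR)
    (T3_20_p0 hD0 hβ hk1 hk2 (by linarith) (by linarith) hR0 hR)
    y1.1 y1.2 y0.1 y0.2 (by norm_num)
    (ex_um 0.412 (by norm_num) (by norm_num) (by norm_num) (by norm_num)) (ex_um 0.434 (by norm_num) (by norm_num) (by norm_num) (by norm_num)) (ex_lm 0.423 (by norm_num) (by norm_num) (by norm_num) (by norm_num) (by norm_num)) (by norm_num) (by norm_num) (by norm_num) (by norm_num) (by norm_num) (by norm_num) (by norm_num) (by norm_num)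
    (by norm_num) (by norm_num) (by norm_num) (by norm_num) (by norm_num) (by norm_num) (by norm_num) (by norm_num) (by norm_num) (by norm_num)
    (ex_up 0.521 (by norm_num) (by norm_num) (by norm_num) (by norm_num)) (ex_lp 0.505 (by norm_num) (by norm_num) (by norm_num)) (by norm_num) (by norm_num) (by norm_num) (by norm_num) (by norm_num) (by norm_num)
    (by norm_num) (by norm_num) (by norm_num) (by norm_num) (by norm_num) (by norm_num) (by norm_num) (by norm_num) (by norm_num) (by norm_num) (by norm_num)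
    (by norm_num) (by norm_num) (by norm_num) (by norm_num)

private theorem yA6 {κ t : ℝ} (h : DomR κ t) (hk1 : 0.95 ≤ κ) (hk2 : κ ≤ 1) (ht1 : 1.233 ≤ t + κ) (ht2 : t + κ ≤ 1.263) :
    0.418 ≤ sy κ t ∧ sy κ t ≤ 0.441 := by
  have hy1 : 0.418 ≤ sy κ t := syR_ge h 0.95 1 1.233 0.418 1.51892 1.51893 0.6349 0.66833 hk1 hk2 (by linarith) (by norm_num) (by norm_num)
    (expn_ge (by norm_num) (by norm_num)) (expn_le (by norm_num) (by norm_num) (by norm_num)) (by norm_num)
    (by norm_num) (by norm_num) (by norm_num) (by norm_num) (by norm_num) (by norm_num)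
  have hy2 : sy κ t ≤ 0.441 := syR_le h 0.95 1 1.263 0.441 1.55426 0.6763 0.68542 0.72151 hk1 hk2 (by linarith) (by norm_num) (by norm_num)
    (expn_ge (by norm_num) (by norm_num)) (by norm_num) (by norm_num) (Or.inr ((mul_le_mul_of_nonneg_left (expn_le (E := 1.55427) (by norm_num) (by norm_num) (by norm_num)) (by norm_num)).trans (by norm_num))) (by norm_num) (by norm_num) (by norm_num)
  exact ⟨hy1, hy2⟩

private theorem yB6 {κ t : ℝ} (h : DomR κ t) (hk1 : 0.95 ≤ κ) (hk2 : κ ≤ 1) (ht1 : -0.8614 ≤ t + κ) (ht2 : t + κ ≤ -0.83139) :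
    (-0.503) ≤ sy κ t ∧ sy κ t ≤ (-0.472) := by
  have hy1 : -0.503 ≤ sy κ t := syL_ge h 0.95 1 0.8614 0.503 0.60471 0.60472 0.3001 0.30416 0.32019 hk1 hk2 (by linarith) (by norm_num) (by norm_num) (by norm_num)
    (expm_ge (by norm_num) (by norm_num) (by norm_num) (by norm_num)) (expm_le (by norm_num) (by norm_num) (by norm_num)) (by norm_num)
    (by norm_num) (by norm_num) (by norm_num) (by norm_num) (by norm_num) (by norm_num)
  have hy2 : sy κ t ≤ -0.472 := syL_le h 0.95 1 0.83139 0.472 0.62375 0.62376 0.2944 0.30992 hk1 hk2 (by linarith) (by norm_num) (by norm_num) (by norm_num)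
    (expm_ge (by norm_num) (by norm_num) (by norm_num) (by norm_num)) (expm_le (by norm_num) (by norm_num) (by norm_num)) (by norm_num)
    (by norm_num) (by norm_num) (by norm_num) (by norm_num) (by norm_num) (by norm_num)
  exact ⟨hy1, hy2⟩

theorem pc6 {β r h t κ : ℝ} (hh : h = 2 * Real.pi / (3 : ℕ)) (hβ : 0 < β) (hr : 10 ≤ r) (hκ : κ = β * r)
    (hk1 : 0.95 ≤ κ) (hk2 : κ ≤ 1) (hT1 : 1.233 ≤ t + κ) (hT2 : t + κ ≤ 1.263) :
    Xf β r h t 0 ≠ 0 ∧ r * 0.2552 ≤ (Ld β r h t 1 - Ld β r h t 0).im ∧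
      ‖(((-1 : ℤ) : ℂ) - 1) * Ld β r h t 0 - ((-1 : ℤ) : ℂ) * Ld β r h t 1‖ ≤ r * 5.73 := by
  obtain ⟨q1, q2, q3⟩ := b3_h hh
  have hR0 := b3_R0 hβ hr hκ
  have hR := b3_R hβ hr hκ (by linarith)
  have hD1 : DomR κ t := b3_dom (by linarith) (by linarith) (Or.inl (by linarith))
  have hD0 : DomR κ (t - h) := b3_dom (by linarith) (by linarith) (Or.inl (by linarith))
  have y1 := yA6 hD1 hk1 hk2 (by linarith) (by linarith)
  have y0 := yB6 hD0 hk1 hk2 (by linarith) (by linarith)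
  have j1 := T3_20_d1_2 hD1 hβ hk1 hk2 (by linarith) (by linarith) hR0 hR
  exact b3_piece 0.95 1 0.418 0.441 0.429 0.65115 0.65837 0.6434 0.6584 2.227 2.296 0.03 0.125 0.125 4.762 2.101 0 0 (-0.503) (-0.472) (-0.487) 1.62742 1.65368 1.6537 2.3745 0.1 0.31 0.165 3.7126 3.9843 0 0 0.2552 5.73
    hβ hr hκ (by norm_num) hk1 hk2 hD1 hD0 j1 (j1 _ (by rw [sub_self, norm_zero]; norm_num))
    (T3_20_d0_2 hD0 hβ hk1 hk2 (by linarith) (by linarith) hR0 hR)
    (T3_20_p0 hD0 hβ hk1 hk2 (by linarith) (by linarith) hR0 hR)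
    y1.1 y1.2 y0.1 y0.2 (by norm_num)
    (ex_um 0.418 (by norm_num) (by norm_num) (by norm_num) (by norm_num)) (ex_um 0.441 (by norm_num) (by norm_num) (by norm_num) (by norm_num)) (ex_lm 0.429 (by norm_num) (by norm_num) (by norm_num) (by norm_num) (by norm_num)) (by norm_num) (by norm_num) (by norm_num) (by norm_num) (by norm_num) (by norm_num) (by norm_num) (by norm_num)
    (by norm_num) (by norm_num) (by norm_num) (by norm_num) (by norm_num) (by norm_num) (by norm_num) (by norm_num) (by norm_num) (by norm_num)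
    (ex_up 0.503 (by norm_num) (by norm_num) (by norm_num) (by norm_num)) (ex_lp 0.487 (by norm_num) (by norm_num) (by norm_num)) (by norm_num) (by norm_num) (by norm_num) (by norm_num) (by norm_num) (by norm_num)
    (by norm_num) (by norm_num) (by norm_num) (by norm_num) (by norm_num) (by norm_num) (by norm_num) (by norm_num) (by norm_num) (by norm_num) (by norm_num)
    (by norm_num) (by norm_num) (by norm_num) (by norm_num)

private theorem yA7 {κ t : ℝ} (h : DomR κ t) (hk1 : 0.95 ≤ κ) (hk2 : κ ≤ 1) (ht1 : 1.263 ≤ t + κ) (ht2 : t + κ ≤ 1.292) :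
    0.424 ≤ sy κ t ∧ sy κ t ≤ 0.448 := by
  have hy1 : 0.424 ≤ sy κ t := syR_ge h 0.95 1 1.263 0.424 1.52806 1.52807 0.64789 0.68201 hk1 hk2 (by linarith) (by norm_num) (by norm_num)
    (expn_ge (by norm_num) (by norm_num)) (expn_le (by norm_num) (by norm_num) (by norm_num)) (by norm_num)
    (by norm_num) (by norm_num) (by norm_num) (by norm_num) (by norm_num) (by norm_num)
  have hy2 : sy κ t ≤ 0.448 := syR_le h 0.95 1 1.292 0.448 1.56517 0.6919 0.70119 0.73811 hk1 hk2 (by linarith) (by norm_num) (by norm_num)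
    (expn_ge (by norm_num) (by norm_num)) (by norm_num) (by norm_num) (Or.inr ((mul_le_mul_of_nonneg_left (expn_le (E := 1.56518) (by norm_num) (by norm_num) (by norm_num)) (by norm_num)).trans (by norm_num))) (by norm_num) (by norm_num) (by norm_num)
  exact ⟨hy1, hy2⟩

private theorem yB7 {κ t : ℝ} (h : DomR κ t) (hk1 : 0.95 ≤ κ) (hk2 : κ ≤ 1) (ht1 : -0.8314 ≤ t + κ) (ht2 : t + κ ≤ -0.80239) :
    (-0.484) ≤ sy κ t ∧ sy κ t ≤ (-0.455) := by
  have hy1 : -0.484 ≤ sy κ t := syL_ge h 0.95 1 0.8314 0.484 0.61631 0.61632 0.3061 0.29829 0.314 hk1 hk2 (by linarith) (by norm_num) (by norm_num) (by norm_num)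
    (expm_ge (by norm_num) (by norm_num) (by norm_num) (by norm_num)) (expm_le (by norm_num) (by norm_num) (by norm_num)) (by norm_num)
    (by norm_num) (by norm_num) (by norm_num) (by norm_num) (by norm_num) (by norm_num)
  have hy2 : sy κ t ≤ -0.455 := syL_le h 0.95 1 0.80239 0.455 0.63444 0.63445 0.28867 0.30387 hk1 hk2 (by linarith) (by norm_num) (by norm_num) (by norm_num)
    (expm_ge (by norm_num) (by norm_num) (by norm_num) (by norm_num)) (expm_le (by norm_num) (by norm_num) (by norm_num)) (by norm_num)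
    (by norm_num) (by norm_num) (by norm_num) (by norm_num) (by norm_num) (by norm_num)
  exact ⟨hy1, hy2⟩

theorem pc7 {β r h t κ : ℝ} (hh : h = 2 * Real.pi / (3 : ℕ)) (hβ : 0 < β) (hr : 10 ≤ r) (hκ : κ = β * r)
    (hk1 : 0.95 ≤ κ) (hk2 : κ ≤ 1) (hT1 : 1.263 ≤ t + κ) (hT2 : t + κ ≤ 1.292) :
    Xf β r h t 0 ≠ 0 ∧ r * 0.2552 ≤ (Ld β r h t 1 - Ld β r h t 0).im ∧
      ‖(((-1 : ℤ) : ℂ) - 1) * Ld β r h t 0 - ((-1 : ℤ) : ℂ) * Ld β r h t 1‖ ≤ r * 5.73 := by
  obtain ⟨q1, q2, q3⟩ := b3_h hh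
  have hR0 := b3_R0 hβ hr hκ
  have hR := b3_R hβ hr hκ (by linarith)
  have hD1 : DomR κ t := b3_dom (by linarith) (by linarith) (Or.inl (by linarith))
  have hD0 : DomR κ (t - h) := b3_dom (by linarith) (by linarith) (Or.inl (by linarith))
  have y1 := yA7 hD1 hk1 hk2 (by linarith) (by linarith)
  have y0 := yB7 hD0 hk1 hk2 (by linarith) (by linarith)
  have j1 := T3_20_d1_2 hD1 hβ hk1 hk2 (by linarith) (by linarith) hR0 hR
  exact b3_piece 0.95 1 0.424 0.448 0.436 0.64661 0.65443 0.63891 0.6545 2.2343 2.3043 0.03 0.125 0.125 4.762 2.0852 0 0 (-0.484) (-0.455) (-0.469) 1.59839 1.62256 1.6226 2.3311 0.1 0.31 0.165 3.7126 3.9456 0 0 0.2552 5.73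
    hβ hr hκ (by norm_num) hk1 hk2 hD1 hD0 j1 (j1 _ (by rw [sub_self, norm_zero]; norm_num))
    (T3_20_d0_2 hD0 hβ hk1 hk2 (by linarith) (by linarith) hR0 hR)
    (T3_20_p0 hD0 hβ hk1 hk2 (by linarith) (by linarith) hR0 hR)
    y1.1 y1.2 y0.1 y0.2 (by norm_num)
    (ex_um 0.424 (by norm_num) (by norm_num) (by norm_num) (by norm_num)) (ex_um 0.448 (by norm_num) (by norm_num) (by norm_num) (by norm_num)) (ex_lm 0.436 (by norm_num) (by norm_num) (by norm_num) (by norm_num) (by norm_num)) (by norm_num) (by norm_num) (by norm_num) (by norm_num) (by norm_num) (by norm_num) (by norm_num) (by norm_num)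
    (by norm_num) (by norm_num) (by norm_num) (by norm_num) (by norm_num) (by norm_num) (by norm_num) (by norm_num) (by norm_num) (by norm_num)
    (ex_up 0.484 (by norm_num) (by norm_num) (by norm_num) (by norm_num)) (ex_lp 0.469 (by norm_num) (by norm_num) (by norm_num)) (by norm_num) (by norm_num) (by norm_num) (by norm_num) (by norm_num) (by norm_num)
    (by norm_num) (by norm_num) (by norm_num) (by norm_num) (by norm_num) (by norm_num) (by norm_num) (by norm_num) (by norm_num) (by norm_num) (by norm_num)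
    (by norm_num) (by norm_num) (by norm_num) (by norm_num)

private theorem yA8 {κ t : ℝ} (h : DomR κ t) (hk1 : 0.95 ≤ κ) (hk2 : κ ≤ 1) (ht1 : 1.292 ≤ t + κ) (ht2 : t + κ ≤ 1.322) :
    0.43 ≤ sy κ t ∧ sy κ t ≤ 0.454 := by
  have hy1 : 0.43 ≤ sy κ t := syR_ge h 0.95 1 1.292 0.43 1.53725 1.53726 0.66101 0.69582 hk1 hk2 (by linarith) (by norm_num) (by norm_num)
    (expn_ge (by norm_num) (by norm_num)) (expn_le (by norm_num) (by norm_num) (by norm_num)) (by norm_num)
    (by norm_num) (by norm_num) (by norm_num) (by norm_num) (by norm_num) (by norm_num)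
  have hy2 : sy κ t ≤ 0.454 := syR_le h 0.95 1 1.322 0.454 1.57459 0.7054 0.71486 0.7525 hk1 hk2 (by linarith) (by norm_num) (by norm_num)
    (expn_ge (by norm_num) (by norm_num)) (by norm_num) (by norm_num) (Or.inr ((mul_le_mul_of_nonneg_left (expn_le (E := 1.5746) (by norm_num) (by norm_num) (by norm_num)) (by norm_num)).trans (by norm_num))) (by norm_num) (by norm_num) (by norm_num)
  exact ⟨hy1, hy2⟩

private theorem yB8 {κ t : ℝ} (h : DomR κ t) (hk1 : 0.95 ≤ κ) (hk2 : κ ≤ 1) (ht1 : -0.8024 ≤ t + κ) (ht2 : t + κ ≤ -0.77239) :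
    (-0.467) ≤ sy κ t ∧ sy κ t ≤ (-0.437) := by
  have hy1 : -0.467 ≤ sy κ t := syL_ge h 0.95 1 0.8024 0.467 0.62688 0.62689 0.2888 0.29275 0.30817 hk1 hk2 (by linarith) (by norm_num) (by norm_num) (by norm_num)
    (expm_ge (by norm_num) (by norm_num) (by norm_num) (by norm_num)) (expm_le (by norm_num) (by norm_num) (by norm_num)) (by norm_num)
    (by norm_num) (by norm_num) (by norm_num) (by norm_num) (by norm_num) (by norm_num)
  have hy2 : sy κ t ≤ -0.437 := syL_le h 0.95 1 0.77239 0.437 0.64597 0.64598 0.28228 0.29716 hk1 hk2 (by linarith) (by norm_num) (by norm_num) (by norm_num)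
    (expm_ge (by norm_num) (by norm_num) (by norm_num) (by norm_num)) (expm_le (by norm_num) (by norm_num) (by norm_num)) (by norm_num)
    (by norm_num) (by norm_num) (by norm_num) (by norm_num) (by norm_num) (by norm_num)
  exact ⟨hy1, hy2⟩

theorem pc8 {β r h t κ : ℝ} (hh : h = 2 * Real.pi / (3 : ℕ)) (hβ : 0 < β) (hr : 10 ≤ r) (hκ : κ = β * r)
    (hk1 : 0.95 ≤ κ) (hk2 : κ ≤ 1) (hT1 : 1.292 ≤ t + κ) (hT2 : t + κ ≤ 1.322) :
    Xf β r h t 0 ≠ 0 ∧ r * 0.2552 ≤ (Ld β r h t 1 - Ld β r h t 0).im ∧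
      ‖(((-1 : ℤ) : ℂ) - 1) * Ld β r h t 0 - ((-1 : ℤ) : ℂ) * Ld β r h t 1‖ ≤ r * 5.73 := by
  obtain ⟨q1, q2, q3⟩ := b3_h hh
  have hR0 := b3_R0 hβ hr hκ
  have hR := b3_R hβ hr hκ (by linarith)
  have hD1 : DomR κ t := b3_dom (by linarith) (by linarith) (Or.inl (by linarith))
  have hD0 : DomR κ (t - h) := b3_dom (by linarith) (by linarith) (Or.inl (by linarith))
  have y1 := yA8 hD1 hk1 hk2 (by linarith) (by linarith)
  have y0 := yB8 hD0 hk1 hk2 (by linarith) (by linarith)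
  have j1 := T3_20_d1_2 hD1 hβ hk1 hk2 (by linarith) (by linarith) hR0 hR
  exact b3_piece 0.95 1 0.43 0.454 0.442 0.64274 0.65051 0.63509 0.6506 2.2417 2.3114 0.03 0.125 0.125 4.762 2.0693 0 0 (-0.467) (-0.437) (-0.452) 1.57145 1.59521 1.5953 2.2878 0.1 0.31 0.165 3.7126 3.9158 0 0 0.2552 5.73
    hβ hr hκ (by norm_num) hk1 hk2 hD1 hD0 j1 (j1 _ (by rw [sub_self, norm_zero]; norm_num))
    (T3_20_d0_2 hD0 hβ hk1 hk2 (by linarith) (by linarith) hR0 hR)
    (T3_20_p0 hD0 hβ hk1 hk2 (by linarith) (by linarith) hR0 hR)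
    y1.1 y1.2 y0.1 y0.2 (by norm_num)
    (ex_um 0.43 (by norm_num) (by norm_num) (by norm_num) (by norm_num)) (ex_um 0.454 (by norm_num) (by norm_num) (by norm_num) (by norm_num)) (ex_lm 0.442 (by norm_num) (by norm_num) (by norm_num) (by norm_num) (by norm_num)) (by norm_num) (by norm_num) (by norm_num) (by norm_num) (by norm_num) (by norm_num) (by norm_num) (by norm_num)
    (by norm_num) (by norm_num) (by norm_num) (by norm_num) (by norm_num) (by norm_num) (by norm_num) (by norm_num) (by norm_num) (by norm_num)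
    (ex_up 0.467 (by norm_num) (by norm_num) (by norm_num) (by norm_num)) (ex_lp 0.452 (by norm_num) (by norm_num) (by norm_num)) (by norm_num) (by norm_num) (by norm_num) (by norm_num) (by norm_num) (by norm_num)
    (by norm_num) (by norm_num) (by norm_num) (by norm_num) (by norm_num) (by norm_num) (by norm_num) (by norm_num) (by norm_num) (by norm_num) (by norm_num)
    (by norm_num) (by norm_num) (by norm_num) (by norm_num)

private theorem yA9 {κ t : ℝ} (h : DomR κ t) (hk1 : 0.95 ≤ κ) (hk2 : κ ≤ 1) (ht1 : 1.322 ≤ t + κ) (ht2 : t + κ ≤ 1.352) :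
    0.436 ≤ sy κ t ∧ sy κ t ≤ 0.46 := by
  have hy1 : 0.436 ≤ sy κ t := syR_ge h 0.95 1 1.322 0.436 1.5465 1.54651 0.67427 0.70977 hk1 hk2 (by linarith) (by norm_num) (by norm_num)
    (expn_ge (by norm_num) (by norm_num)) (expn_le (by norm_num) (by norm_num) (by norm_num)) (by norm_num)
    (by norm_num) (by norm_num) (by norm_num) (by norm_num) (by norm_num) (by norm_num)
  have hy2 : sy κ t ≤ 0.46 := syR_ang2 h 0.95 1 1.352 0.816 0.6856 0.7285 0.46 0.63129 1.58407 hk1 hk2 (by linarith) (by norm_num) (by norm_num) (by norm_num)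
    (cos_le_num (by norm_num)) (sin_le_num (by norm_num) (by norm_num)) (expm_le (by norm_num) (by norm_num) (by norm_num))
    (expn_ge (by norm_num) (by norm_num)) (by norm_num) (by norm_num) (by norm_num) (by norm_num) (by norm_num)
  exact ⟨hy1, hy2⟩

private theorem yB9 {κ t : ℝ} (h : DomR κ t) (hk1 : 0.95 ≤ κ) (hk2 : κ ≤ 1) (ht1 : -0.7724 ≤ t + κ) (ht2 : t + κ ≤ -0.74239) :
    (-0.448) ≤ sy κ t ∧ sy κ t ≤ (-0.419) := by
  have hy1 : -0.448 ≤ sy κ t := syL_ge h 0.95 1 0.7724 0.448 0.6389 0.63891 0.2899 0.28622 0.3013 hk1 hk2 (by linarith) (by norm_num) (by norm_num) (by norm_num)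
    (expm_ge (by norm_num) (by norm_num) (by norm_num) (by norm_num)) (expm_le (by norm_num) (by norm_num) (by norm_num)) (by norm_num)
    (by norm_num) (by norm_num) (by norm_num) (by norm_num) (by norm_num) (by norm_num)
  have hy2 : sy κ t ≤ -0.419 := syL_le h 0.95 1 0.74239 0.419 0.6577 0.65771 0.27557 0.29009 hk1 hk2 (by linarith) (by norm_num) (by norm_num) (by norm_num)
    (expm_ge (by norm_num) (by norm_num) (by norm_num) (by norm_num)) (expm_le (by norm_num) (by norm_num) (by norm_num)) (by norm_num)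
    (by norm_num) (by norm_num) (by norm_num) (by norm_num) (by norm_num) (by norm_num)
  exact ⟨hy1, hy2⟩

theorem pc9 {β r h t κ : ℝ} (hh : h = 2 * Real.pi / (3 : ℕ)) (hβ : 0 < β) (hr : 10 ≤ r) (hκ : κ = β * r)
    (hk1 : 0.95 ≤ κ) (hk2 : κ ≤ 1) (hT1 : 1.322 ≤ t + κ) (hT2 : t + κ ≤ 1.352) :
    Xf β r h t 0 ≠ 0 ∧ r * 0.2552 ≤ (Ld β r h t 1 - Ld β r h t 0).im ∧
      ‖(((-1 : ℤ) : ℂ) - 1) * Ld β r h t 0 - ((-1 : ℤ) : ℂ) * Ld β r h t 1‖ ≤ r * 5.73 := by
  obtain ⟨q1, q2, q3⟩ := b3_h hh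
  have hR0 := b3_R0 hβ hr hκ
  have hR := b3_R hβ hr hκ (by linarith)
  have hD1 : DomR κ t := b3_dom (by linarith) (by linarith) (Or.inl (by linarith))
  have hD0 : DomR κ (t - h) := b3_dom (by linarith) (by linarith) (Or.inl (by linarith))
  have y1 := yA9 hD1 hk1 hk2 (by linarith) (by linarith)
  have y0 := yB9 hD0 hk1 hk2 (by linarith) (by linarith)
  have j1 := T3_20_d1_2 hD1 hβ hk1 hk2 (by linarith) (by linarith) hR0 hR
  exact b3_piece 0.95 1 0.436 0.46 0.448 0.6389 0.64662 0.63129 0.6467 2.2492 2.3186 0.03 0.125 0.125 4.762 2.0535 0 0 (-0.448) (-0.419) (-0.433) 1.54187 1.56518 1.5652 2.2474 0.1 0.31 0.165 3.7126 3.8763 0 0 0.2552 5.73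
    hβ hr hκ (by norm_num) hk1 hk2 hD1 hD0 j1 (j1 _ (by rw [sub_self, norm_zero]; norm_num))
    (T3_20_d0_2 hD0 hβ hk1 hk2 (by linarith) (by linarith) hR0 hR)
    (T3_20_p0 hD0 hβ hk1 hk2 (by linarith) (by linarith) hR0 hR)
    y1.1 y1.2 y0.1 y0.2 (by norm_num)
    (ex_um 0.436 (by norm_num) (by norm_num) (by norm_num) (by norm_num)) (ex_um 0.46 (by norm_num) (by norm_num) (by norm_num) (by norm_num)) (ex_lm 0.448 (by norm_num) (by norm_num) (by norm_num) (by norm_num) (by norm_num)) (by norm_num) (by norm_num) (by norm_num) (by norm_num) (by norm_num) (by norm_num) (by norm_num) (by norm_num)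
    (by norm_num) (by norm_num) (by norm_num) (by norm_num) (by norm_num) (by norm_num) (by norm_num) (by norm_num) (by norm_num) (by norm_num)
    (ex_up 0.448 (by norm_num) (by norm_num) (by norm_num) (by norm_num)) (ex_lp 0.433 (by norm_num) (by norm_num) (by norm_num)) (by norm_num) (by norm_num) (by norm_num) (by norm_num) (by norm_num) (by norm_num)
    (by norm_num) (by norm_num) (by norm_num) (by norm_num) (by norm_num) (by norm_num) (by norm_num) (by norm_num) (by norm_num) (by norm_num) (by norm_num)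
    (by norm_num) (by norm_num) (by norm_num) (by norm_num)

private theorem yA10 {κ t : ℝ} (h : DomR κ t) (hk1 : 0.95 ≤ κ) (hk2 : κ ≤ 1) (ht1 : 1.352 ≤ t + κ) (ht2 : t + κ ≤ 1.382) :
    0.441 ≤ sy κ t ∧ sy κ t ≤ 0.466 := by
  have hy1 : 0.441 ≤ sy κ t := syR_ge h 0.95 1 1.352 0.441 1.55426 1.55427 0.68542 0.72151 hk1 hk2 (by linarith) (by norm_num) (by norm_num)
    (expn_ge (by norm_num) (by norm_num)) (expn_le (by norm_num) (by norm_num) (by norm_num)) (by norm_num)
    (by norm_num) (by norm_num) (by norm_num) (by norm_num) (by norm_num) (by norm_num)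
  have hy2 : sy κ t ≤ 0.466 := syR_ang2 h 0.95 1 1.382 0.836 0.671 0.7421 0.466 0.62751 1.5936 hk1 hk2 (by linarith) (by norm_num) (by norm_num) (by norm_num)
    (cos_le_num (by norm_num)) (sin_le_num (by norm_num) (by norm_num)) (expm_le (by norm_num) (by norm_num) (by norm_num))
    (expn_ge (by norm_num) (by norm_num)) (by norm_num) (by norm_num) (by norm_num) (by norm_num) (by norm_num)
  exact ⟨hy1, hy2⟩

private theorem yB10 {κ t : ℝ} (h : DomR κ t) (hk1 : 0.95 ≤ κ) (hk2 : κ ≤ 1) (ht1 : -0.7424 ≤ t + κ) (ht2 : t + κ ≤ -0.71239) :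
    (-0.43) ≤ sy κ t ∧ sy κ t ≤ (-0.402) := by
  have hy1 : -0.43 ≤ sy κ t := syL_ge h 0.95 1 0.7424 0.43 0.6505 0.65051 0.276 0.27971 0.29445 hk1 hk2 (by linarith) (by norm_num) (by norm_num) (by norm_num)
    (expm_ge (by norm_num) (by norm_num) (by norm_num) (by norm_num)) (expm_le (by norm_num) (by norm_num) (by norm_num)) (by norm_num)
    (by norm_num) (by norm_num) (by norm_num) (by norm_num) (by norm_num) (by norm_num)
  have hy2 : sy κ t ≤ -0.402 := syL_le h 0.95 1 0.71239 0.402 0.66898 0.66899 0.26892 0.28309 hk1 hk2 (by linarith) (by norm_num) (by norm_num) (by norm_num)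
    (expm_ge (by norm_num) (by norm_num) (by norm_num) (by norm_num)) (expm_le (by norm_num) (by norm_num) (by norm_num)) (by norm_num)
    (by norm_num) (by norm_num) (by norm_num) (by norm_num) (by norm_num) (by norm_num)
  exact ⟨hy1, hy2⟩

theorem pc10 {β r h t κ : ℝ} (hh : h = 2 * Real.pi / (3 : ℕ)) (hβ : 0 < β) (hr : 10 ≤ r) (hκ : κ = β * r)
    (hk1 : 0.95 ≤ κ) (hk2 : κ ≤ 1) (hT1 : 1.352 ≤ t + κ) (hT2 : t + κ ≤ 1.382) :
    Xf β r h t 0 ≠ 0 ∧ r * 0.2552 ≤ (Ld β r h t 1 - Ld β r h t 0).im ∧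
      ‖(((-1 : ℤ) : ℂ) - 1) * Ld β r h t 0 - ((-1 : ℤ) : ℂ) * Ld β r h t 1‖ ≤ r * 5.73 := by
  obtain ⟨q1, q2, q3⟩ := b3_h hh
  have hR0 := b3_R0 hβ hr hκ
  have hR := b3_R hβ hr hκ (by linarith)
  have hD1 : DomR κ t := b3_dom (by linarith) (by linarith) (Or.inl (by linarith))
  have hD0 : DomR κ (t - h) := b3_dom (by linarith) (by linarith) (Or.inl (by linarith))
  have y1 := yA10 hD1 hk1 hk2 (by linarith) (by linarith)
  have y0 := yB10 hD0 hk1 hk2 (by linarith) (by linarith)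
  have j1 := T3_20_d1_2 hD1 hβ hk1 hk2 (by linarith) (by linarith) hR0 hR
  exact b3_piece 0.95 1 0.441 0.466 0.454 0.63508 0.6434 0.62751 0.6434 2.2554 2.3258 0.03 0.125 0.125 4.762 2.0402 0 0 (-0.43) (-0.402) (-0.416) 1.51588 1.53726 1.5373 2.2117 0.1 0.31 0.165 3.7126 3.8378 0 0 0.2552 5.73
    hβ hr hκ (by norm_num) hk1 hk2 hD1 hD0 j1 (j1 _ (by rw [sub_self, norm_zero]; norm_num))
    (T3_20_d0_2 hD0 hβ hk1 hk2 (by linarith) (by linarith) hR0 hR)
    (T3_20_p0 hD0 hβ hk1 hk2 (by linarith) (by linarith) hR0 hR)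
    y1.1 y1.2 y0.1 y0.2 (by norm_num)
    (ex_um 0.441 (by norm_num) (by norm_num) (by norm_num) (by norm_num)) (ex_um 0.466 (by norm_num) (by norm_num) (by norm_num) (by norm_num)) (ex_lm 0.454 (by norm_num) (by norm_num) (by norm_num) (by norm_num) (by norm_num)) (by norm_num) (by norm_num) (by norm_num) (by norm_num) (by norm_num) (by norm_num) (by norm_num) (by norm_num)
    (by norm_num) (by norm_num) (by norm_num) (by norm_num) (by norm_num) (by norm_num) (by norm_num) (by norm_num) (by norm_num) (by norm_num)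
    (ex_up 0.43 (by norm_num) (by norm_num) (by norm_num) (by norm_num)) (ex_lp 0.416 (by norm_num) (by norm_num) (by norm_num)) (by norm_num) (by norm_num) (by norm_num) (by norm_num) (by norm_num) (by norm_num)
    (by norm_num) (by norm_num) (by norm_num) (by norm_num) (by norm_num) (by norm_num) (by norm_num) (by norm_num) (by norm_num) (by norm_num) (by norm_num)
    (by norm_num) (by norm_num) (by norm_num) (by norm_num)

theorem innS {β r h t κ : ℝ} (hh : h = 2 * Real.pi / (3 : ℕ)) (hβ : 0 < β) (hr : 10 ≤ r) (hκ : κ = β * r)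
    (hk1 : 0.95 ≤ κ) (hk2 : κ ≤ 1) (hT1 : 1.083 ≤ t + κ) (hT2 : t + κ ≤ 1.382) :
    Xf β r h t 0 ≠ 0 ∧ r * 0.2552 ≤ (Ld β r h t 1 - Ld β r h t 0).im ∧
      ‖(((-1 : ℤ) : ℂ) - 1) * Ld β r h t 0 - ((-1 : ℤ) : ℂ) * Ld β r h t 1‖ ≤ r * 5.73 := by
  rcases le_total (t + κ) 1.103 with f0 | g0
  · exact pc0 hh hβ hr hκ hk1 hk2 hT1 f0
  rcases le_total (t + κ) 1.123 with f1 | g1
  · exact pc1 hh hβ hr hκ hk1 hk2 g0 f1
  rcases le_total (t + κ) 1.15 with f2 | g2
  · exact pc2 hh hβ hr hκ hk1 hk2 g1 f2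
  rcases le_total (t + κ) 1.176 with f3 | g3
  · exact pc3 hh hβ hr hκ hk1 hk2 g2 f3
  rcases le_total (t + κ) 1.203 with f4 | g4
  · exact pc4 hh hβ hr hκ hk1 hk2 g3 f4
  rcases le_total (t + κ) 1.233 with f5 | g5
  · exact pc5 hh hβ hr hκ hk1 hk2 g4 f5
  rcases le_total (t + κ) 1.263 with f6 | g6
  · exact pc6 hh hβ hr hκ hk1 hk2 g5 f6
  rcases le_total (t + κ) 1.292 with f7 | g7
  · exact pc7 hh hβ hr hκ hk1 hk2 g6 f7
  rcases le_total (t + κ) 1.322 with f8 | g8
  · exact pc8 hh hβ hr hκ hk1 hk2 g7 f8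
  rcases le_total (t + κ) 1.352 with f9 | g9
  · exact pc9 hh hβ hr hκ hk1 hk2 g8 f9
  exact pc10 hh hβ hr hκ hk1 hk2 g9 hT2

theorem circ {p : ℤ} (hp : IsCoprime (3 : ℤ) p) {β r : ℝ} (hβ : 0 < β) (hr : 10 ≤ r) (hk1 : 0.95 ≤ β * r)
    (hk2 : β * r ≤ 1) : Circ (2 * Real.pi * p / (3 : ℕ) + β) r := by
  obtain ⟨κ, hκ⟩ : ∃ κ, κ = β * r := ⟨_, rfl⟩
  rw [← hκ] at hk1 hk2
  refine circ3 hp hr (h := 2 * Real.pi / (3 : ℕ)) (κ := κ) rfl 1.083 1.382 1.0066 0.2552 0.0015 0.00154 5.73 (by norm_num) (by norm_num) (by norm_num)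
    (by norm_num) (by norm_num) ?_ ?_ ?_ ?_ ?_ (by norm_num) (by norm_num)
  · intro t h1 h2
    exact (innS rfl hβ hr hκ hk1 hk2 h1 h2).1
  · intro t h1 h2
    exact (innE rfl hβ hr hκ hk1 hk2 h1 h2).1
  · intro t h1 h2
    exact (innE rfl hβ hr hκ hk1 hk2 h1 h2).2
  · intro t h1 h2
    exact (innS rfl hβ hr hκ hk1 hk2 h1 h2).2
  · intro t h1 h2 h3
    rcases h3 with h3 | h3
    · exact left rfl hβ hr hκ hk1 hk2 h1 h3
    · exact right0 rfl hβ hr hκ hk1 hk2 h3 h2

end B3_20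

end Sok
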