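import Pool.Agent.Lib.MP_816dec_an.R1b3D
import Pool.Agent.Lib.MP_816dec_an.R1b3J21

/-!
MP_816dec_an (A3, row R1, b = 3): the cell `1 ≤ κ ≤ 1.05`.
-/

set_option autoImplicit false
set_option maxHeartbeats 4000000
set_option linter.unusedVariables false

open Complex Set

namespace Sok

namespace B3_21

private theorem yL {κ t : ℝ} (h : DomR κ t) (hk1 : 1 ≤ κ) (hk2 : κ ≤ 1.05) (ht1 : 0 ≤ t + κ) (ht2 : t + κ ≤ 1.074) :
    0 ≤ sy κ t ∧ sy κ t ≤ 0.402 := by
  have hy1 : 0 ≤ sy κ t := sy_nonneg h (by linarith)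
  have hy2 : sy κ t ≤ 0.402 := syR_le h 1 1.05 1.074 0.402 1.49481 0.5651 0.57229 0.60092 hk1 hk2 (by linarith) (by norm_num) (by norm_num)
    (expn_ge (by norm_num) (by norm_num)) (by norm_num) (by norm_num) (Or.inr ((mul_le_mul_of_nonneg_left (expn_le (E := 1.49482) (by norm_num) (by norm_num) (by norm_num)) (by norm_num)).trans (by norm_num))) (by norm_num) (by norm_num) (by norm_num)
  exact ⟨hy1, hy2⟩

theorem left {β r h t κ : ℝ} (hh : h = 2 * Real.pi / (3 : ℕ)) (hβ : 0 < β) (hr : 10 ≤ r) (hκ : κ = β * r)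
    (hk1 : 1 ≤ κ) (hk2 : κ ≤ 1.05) (hT1 : 0 ≤ t + κ) (hT2 : t + κ ≤ 1.074) :
    ‖Xf β r h t (-1)‖ < |‖Xf β r h t 1‖ - ‖Xf β r h t 0‖| := by
  obtain ⟨q1, q2, q3⟩ := b3_h hh
  have hR0 := b3_R0 hβ hr hκ
  have hR := b3_R hβ hr hκ (by linarith)
  have hD1 : DomR κ t := b3_dom (by linarith) (by linarith) (Or.inl (by linarith))
  have hy := yL hD1 hk1 hk2 (by linarith) (by linarith)
  have hY : 0.7594 * Real.exp (r * 0.76395) ≤ ‖Xf β r h t 1‖ :=
    b3_lo hβ hr hκ (k := 1) (t' := t) (by push_cast; ring) hD1 0.065 2.2975 0.7594 0.76395 (by norm_num)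
      (T3_21_p1 hD1 hβ hk1 hk2 (by linarith) (by linarith) hR0 hR)
      (v5_Dup hD1 1.05 0 0.402 1 0.66899 2.2975 hk2 hy.1 hy.2 (ex_up 0 (by norm_num) (by norm_num) (by norm_num) (by norm_num)) (ex_um 0.402 (by norm_num) (by norm_num) (by norm_num) (by norm_num)) (by norm_num) (by norm_num) (by norm_num)) (by norm_num) (by norm_num)
      (b3_Vlo hD1 1 1.05 0 1.074 0.55 (-0.59783) 0.624 0.81154 0.20883 0.76395 hk1 hk2 (by linarith) (by linarith) (by norm_num) (ex_lm 0.59783 (by norm_num) (by norm_num) (by norm_num) (by norm_num) (by norm_num)) (by norm_num) (by norm_num) (by norm_num) (by norm_num) (by norm_num) (by norm_num) (by norm_num) (by norm_num) (ex_um 0.20883 (by norm_num) (by norm_num) (by norm_num) (by norm_num)) (by norm_num))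
  have h0 : ‖Xf β r h t 0‖ ≤ 0.8839 * ‖Xf β r h t 1‖ :=
    b3_cmp 0.7044 0.0351 0.0007932 0.71395 0.882124 0.001742 0.8839 hr (b3_HU0 0.56 1 1.05 (-2.0944) (-1.02039) 1.30026 1.75068 1.80039 0.57122 0.55544 1.75066 0.951 0.12928 0.76522 1.5676 0 0.05 0.000001 1.6674 0.72885 hβ hr hκ (by norm_num) hk1 hk2 (by norm_num) (by linarith) (by linarith) (by norm_num) (by norm_num) (ex_up 0.56 (by norm_num) (by norm_num) (by norm_num) (by norm_num)) (ex_up 0.588 (by norm_num) (by norm_num) (by norm_num) (by norm_num)) (ex_um 0.56 (by norm_num) (by norm_num) (by norm_num) (by norm_num)) (ex_um 0.588 (by norm_num) (by norm_num) (by norm_num) (by norm_num)) (by norm_num) (by norm_num) (ex_lp 0.56 (by norm_num) (by norm_num) (by norm_num)) (by norm_num) (by norm_num) (by norm_num) (by norm_num) (by norm_num) (by norm_num) (by norm_num) (by norm_num) (by norm_num) (by norm_num) (by norm_num) (by norm_num) (by norm_num) (by norm_num) (v5_hump 4.9281 9.523 3.086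 0.0000003148 0.000001 hβ hr hκ hk1 hk2 (by norm_num) (tb := (-1.02039)) (by linarith) (by norm_num) (by norm_num) (by norm_num) (by norm_num) (by norm_num) (by norm_num) (by norm_num) (ex_un 14 0.99 (by norm_num) (by norm_num) (by norm_num) (by norm_num)) (by norm_num)) (by norm_num) (by norm_num)) hY (by norm_num) (by norm_num) (by norm_num) (by norm_num) (by norm_num) (ex_un 0 0.351 (by norm_num) (by norm_num) (by norm_num) (by norm_num)) (by norm_num) (by norm_num) (by norm_num) (ex_un 7 0.1395 (by norm_num) (by norm_num) (by norm_num) (by norm_num)) (by norm_num) (by norm_num)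
  have h2 : ‖Xf β r h t (-1)‖ ≤ 0.0389 * ‖Xf β r h t 1‖ := by
    rcases le_total ((t + h) + κ) 2.47 with g0 | g0
    · exact b3_cmp 0.0107 0.45406 0.0004831 0.76395 0.038736 0.000114 0.0389 hr ((b3_Xm hh).trans_le (b3_HF 0.48 1 1.05 2.09439 2.47 1.31519 0.61879 0.60412 1.61608 1.65533 0.6041 2.0223 0.12928 2.61509 0.1007 0.0572 0.5661 0.000002 2.7491 0.1788 0.30989 hβ hr hκ (by norm_num) hk1 hk2 (by norm_num) (by linarith) (by linarith) (by norm_num) (ex_um 0.48 (by norm_num) (by norm_num) (by norm_num) (by norm_num)) (ex_um 0.504 (by norm_num) (by norm_num) (by norm_num) (by norm_num)) (ex_up 0.48 (by norm_num) (by norm_num) (by norm_num) (by norm_num)) (ex_up 0.504 (by norm_num) (by norm_num) (by norm_num) (by norm_num)) (by norm_num) (by norm_num) (ex_lm 0.504 (by norm_num) (by norm_num) (by norm_num) (by norm_num) (by norm_num)) (by norm_num) (by norm_num) (by norm_num) (by norm_num) (by norm_num) (by norm_num) (by norm_num) (by norm_num)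 (by norm_num) (by norm_num) (by norm_num) (by norm_num) (ex_un 0 0.572 (by norm_num) (by norm_num) (by norm_num) (by norm_num)) (v5_hump 1.4377 9.523 3.086 0.000001139 0.000002 hβ hr hκ hk1 hk2 (by norm_num) (tb := 2.47) (by linarith) (by norm_num) (by norm_num) (by norm_num) (by norm_num) (by norm_num) (by norm_num) (by norm_num) (ex_un 13 0.6912 (by norm_num) (by norm_num) (by norm_num) (by norm_num)) (by norm_num)) (by norm_num) (by norm_num) (by norm_num))) hY (by norm_num) (by norm_num) (by norm_num) (by norm_num) (by norm_num) (ex_un 4 0.5406 (by norm_num) (by norm_num) (by norm_num) (by norm_num)) (by norm_num) (by norm_num) (by norm_num) (ex_un 7 0.6395 (by norm_num) (by norm_num) (by norm_num) (by norm_num)) (by norm_num) (by norm_num)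
    exact b3_cmp 1 0 0.005861 0.51395 0 0.028695 0.0389 hr (b3_w (b3_UD 1 1.05 2.47 3.1684 0.2 0.39895 0.2 1.9383 3.7179 0.25 hh hβ hr hκ (by norm_num) hk1 hk2 (by linarith) (by linarith) (by norm_num) (by norm_num) (by norm_num) (by norm_num) (by norm_num) (by norm_num) (by norm_num) (by norm_num) (by norm_num) (by norm_num) (by norm_num) (by norm_num) (by norm_num))) hY (by norm_num) (by norm_num) (by norm_num) (by norm_num) (by norm_num) (by norm_num) (by norm_num) (by norm_num) (by norm_num) (ex_un 5 0.1395 (by norm_num) (by norm_num) (by norm_num) (by norm_num)) (by norm_num) (by norm_num)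
  exact b3_out1 0.8839 0.0389 hY (by norm_num) h0 h2 (by norm_num)

private theorem yR0 {κ t : ℝ} (h : DomR κ t) (hk1 : 1 ≤ κ) (hk2 : κ ≤ 1.05) (ht1 : -0.7124 ≤ t + κ) (ht2 : t + κ ≤ 0.0001) :
    (-0.403) ≤ sy κ t ∧ sy κ t ≤ 0.005 := by
  have hy1 : -0.403 ≤ sy κ t := syL_ge h 1 1.05 0.7124 0.403 0.66831 0.66832 0.2554 0.2565 0.26934 hk1 hk2 (by linarith) (by norm_num) (by norm_num) (by norm_num)
    (expm_ge (by norm_num) (by norm_num) (by norm_num) (by norm_num)) (expm_le (by norm_num) (by norm_num) (by norm_num)) (by norm_num)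
    (by norm_num) (by norm_num) (by norm_num) (by norm_num) (by norm_num) (by norm_num)
  have hy2 : sy κ t ≤ 0.005 := syR_le h 1 1.05 0.0001 0.005 1.00501 0.0047 0.00478 0.00503 hk1 hk2 (by linarith) (by norm_num) (by norm_num)
    (expn_ge (by norm_num) (by norm_num)) (by norm_num) (by norm_num) (Or.inr ((mul_le_mul_of_nonneg_left (expn_le (E := 1.00502) (by norm_num) (by norm_num) (by norm_num)) (by norm_num)).trans (by norm_num))) (by norm_num) (by norm_num) (by norm_num)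
  exact ⟨hy1, hy2⟩

theorem right0 {β r h t κ : ℝ} (hh : h = 2 * Real.pi / (3 : ℕ)) (hβ : 0 < β) (hr : 10 ≤ r) (hκ : κ = β * r)
    (hk1 : 1 ≤ κ) (hk2 : κ ≤ 1.05) (hT1 : 1.382 ≤ t + κ) (hT2 : t + κ ≤ h) :
    ‖Xf β r h t (-1)‖ < |‖Xf β r h t 1‖ - ‖Xf β r h t 0‖| := by
  obtain ⟨q1, q2, q3⟩ := b3_h hh
  have hR0 := b3_R0 hβ hr hκ
  have hR := b3_R hβ hr hκ (by linarith)
  have hD0 : DomR κ (t - h) := b3_dom (by linarith) (by linarith) (Or.inl (by linarith))
  have hy := yR0 hD0 hk1 hk2 (by linarith) (by linarith)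
  have hY : 0.6967 * Real.exp (r * 0.85265) ≤ ‖Xf β r h t 0‖ :=
    b3_lo hβ hr hκ (k := 0) (t' := t - h) (by push_cast; ring) hD0 0.11 2.6625 0.6967 0.85265 (by norm_num)
      (T3_21_p0R hD0 hβ hk1 hk2 (by linarith) (by linarith) hR0 hR)
      (v5_Dup hD0 1.05 (-0.403) 0.005 1.49631 0.99502 2.6625 hk2 hy.1 hy.2 (ex_up 0.403 (by norm_num) (by norm_num) (by norm_num) (by norm_num)) (ex_um 0.005 (by norm_num) (by norm_num) (by norm_num) (by norm_num)) (by norm_num) (by norm_num) (by norm_num)) (by norm_num) (by norm_num)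
      (b3_Vlo hD0 1 1.05 (-0.7124) 0.0001 1.34 0.29267 0.3724 0.93145 0.07102 0.85265 hk1 hk2 (by linarith) (by linarith) (by norm_num) (ex_lp 0.29267 (by norm_num) (by norm_num) (by norm_num)) (by norm_num) (by norm_num) (by norm_num) (by norm_num) (by norm_num) (by norm_num) (by norm_num) (by norm_num) (ex_um 0.07102 (by norm_num) (by norm_num) (by norm_num) (by norm_num)) (by norm_num))
  have h1 : ‖Xf β r h t 1‖ ≤ 0.3359 * ‖Xf β r h t 0‖ := by
    exact b3_cmp 0.1334 0.20148 0.0001986 0.85265 0.335827 0.000057 0.3359 hr (b3_X1.trans_le (b3_HF 0.4 1 1.05 1.382 2.0944 1.20397 0.67033 0.65705 1.49183 1.52197 0.65704 1.6964 0.12928 1.9027 0.4763 0.15565 0.2115 0.000001 1.7539 0.1973 0.65117 hβ hr hκ (by norm_num) hk1 hk2 (by norm_num) (by linarith) (by linarith) (by norm_num) (ex_um 0.4 (by norm_num) (by norm_num) (by norm_num) (by norm_num)) (ex_um 0.42 (by norm_num) (by norm_num) (by norm_num) (by norm_num)) (ex_up 0.4 (by norm_num) (by norm_num)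 (by norm_num) (by norm_num)) (ex_up 0.42 (by norm_num) (by norm_num) (by norm_num) (by norm_num)) (by norm_num) (by norm_num) (ex_lm 0.42 (by norm_num) (by norm_num) (by norm_num) (by norm_num) (by norm_num)) (by norm_num) (by norm_num) (by norm_num) (by norm_num) (by norm_num) (by norm_num) (by norm_num) (by norm_num) (by norm_num) (by norm_num) (by norm_num) (by norm_num) (ex_un 1 0.5565 (by norm_num) (by norm_num) (by norm_num) (by norm_num)) (v5_hump 1.8133 9.523 3.086 0.0000003148 0.000001 hβ hr hκ hk1 hk2 (by norm_num) (tb := 2.0944) (by linarith) (by norm_num) (by norm_num) (by norm_num) (by norm_num) (by norm_num) (by norm_num) (by norm_num) (ex_un 14 0.99 (by norm_num) (by norm_num) (by norm_num) (by norm_num)) (by norm_num)) (by norm_num) (by norm_num) (by norm_num))) hY (by norm_num) (by norm_num) (by norm_num) (by norm_num) (by norm_num) (ex_un 2 0.0148 (by norm_num) (by norm_num) (by norm_num) (by norm_num)) (by norm_num) (by norm_num)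 (by norm_num) (ex_un 8 0.5265 (by norm_num) (by norm_num) (by norm_num) (by norm_num)) (by norm_num) (by norm_num)
  have h2 : ‖Xf β r h t (-1)‖ ≤ 0.0139 * ‖Xf β r h t 0‖ := by
    exact b3_cmp 1 0 0.00475 0.53501 0 0.013833 0.0139 hr (b3_w (b3_UD 1 1.05 3.47639 4.1888 0.005 0.39895 0.26764 1.0577 2.0288 0.31764 hh hβ hr hκ (by norm_num) hk1 hk2 (by linarith) (by linarith) (by norm_num) (by norm_num) (by norm_num) (by norm_num) (by norm_num) (by norm_num) (by norm_num) (by norm_num) (by norm_num) (by norm_num) (by norm_num) (by norm_num) (by norm_num))) hY (by norm_num) (by norm_num) (by norm_num) (by norm_num) (by norm_num) (by norm_num) (by norm_num) (by norm_num) (by norm_num) (ex_un 5 0.3501 (by norm_num) (by norm_num) (by norm_num) (by norm_num)) (by norm_num) (by norm_num)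
  exact b3_out0 0.3359 0.0139 hY (by norm_num) h1 h2 (by norm_num)

private theorem yI {κ t : ℝ} (h : DomR κ t) (hk1 : 1 ≤ κ) (hk2 : κ ≤ 1.05) (ht1 : -1.0204 ≤ t + κ) (ht2 : t + κ ≤ -0.71239) :
    (-0.582) ≤ sy κ t ∧ sy κ t ≤ (-0.394) := by
  have hy1 : -0.582 ≤ sy κ t := syL_ge h 1 1.05 1.0204 0.582 0.55877 0.55879 0.3058 0.30971 0.32522 hk1 hk2 (by linarith) (by norm_num) (by norm_num) (by norm_num)
    (expm_ge (by norm_num) (by norm_num) (by norm_num) (by norm_num)) (expm_le (by norm_num) (by norm_num) (by norm_num)) (by norm_num)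
    (by norm_num) (by norm_num) (by norm_num) (by norm_num) (by norm_num) (by norm_num)
  have hy2 : sy κ t ≤ -0.394 := syL_le h 1 1.05 0.71239 0.394 0.67435 0.67436 0.25304 0.2657 hk1 hk2 (by linarith) (by norm_num) (by norm_num) (by norm_num)
    (expm_ge (by norm_num) (by norm_num) (by norm_num) (by norm_num)) (expm_le (by norm_num) (by norm_num) (by norm_num)) (by norm_num)
    (by norm_num) (by norm_num) (by norm_num) (by norm_num) (by norm_num) (by norm_num)
  exact ⟨hy1, hy2⟩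

theorem innE {β r h t κ : ℝ} (hh : h = 2 * Real.pi / (3 : ℕ)) (hβ : 0 < β) (hr : 10 ≤ r) (hκ : κ = β * r)
    (hk1 : 1 ≤ κ) (hk2 : κ ≤ 1.05) (hT1 : 1.074 ≤ t + κ) (hT2 : t + κ ≤ 1.382) :
    ‖Xf β r h t (-1)‖ ≤ 0.00141 * ‖Xf β r h t 0‖ ∧ ‖Xf β r h (t + β) (-1)‖ ≤ 0.0015 * ‖Xf β r h t 0‖ := by
  obtain ⟨q1, q2, q3⟩ := b3_h hh
  have hR0 := b3_R0 hβ hr hκ
  have hR := b3_R hβ hr hκ (by linarith)
  have hD0 : DomR κ (t - h) := b3_dom (by linarith) (by linarith) (Or.inl (by linarith))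
  have hy := yI hD0 hk1 hk2 (by linarith) (by linarith)
  have hY : 0.6164 * Real.exp (r * 0.70922) ≤ ‖Xf β r h t 0‖ :=
    b3_lo hβ hr hκ (k := 0) (t' := t - h) (by push_cast; ring) hD0 0.165 3.3671 0.6164 0.70922 (by norm_num)
      (T3_21_p0 hD0 hβ hk1 hk2 (by linarith) (by linarith) hR0 hR)
      (v5_Dup hD0 1.05 (-0.582) (-0.394) 1.78962 1.48291 3.3671 hk2 hy.1 hy.2 (ex_up 0.582 (by norm_num) (by norm_num) (by norm_num) (by norm_num)) (ex_up 0.394 (by norm_num) (by norm_num) (by norm_num) (by norm_num)) (by norm_num) (by norm_num) (by norm_num)) (by norm_num) (by norm_num)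
      (b3_Vlo hD0 1 1.05 (-1.0204) (-0.71239) 1.69 0.52473 0.3304 0.94591 0.05561 0.70922 hk1 hk2 (by linarith) (by linarith) (by norm_num) (ex_lp 0.52473 (by norm_num) (by norm_num) (by norm_num)) (by norm_num) (by norm_num) (by norm_num) (by norm_num) (by norm_num) (by norm_num) (by norm_num) (by norm_num) (ex_um 0.05561 (by norm_num) (by norm_num) (by norm_num) (by norm_num)) (by norm_num))
  constructor
  · exact b3_cmp 1 0 0.001376 0.65922 0 0.001405 0.00141 hr ((b3_Xm hh).trans_le (b3_U1 1 1.05 3.16839 3.4764 0.54759 0.12928 0.76522 0.5205 0.00106 1.0233 0.022393 0.629 hβ hr hκ (by norm_num) hk1 hk2 (by linarith) (by linarith) (by norm_num) (by norm_num) (by norm_num) (by norm_num) (by norm_num) (by norm_num) (by norm_num) (by norm_num) (by norm_num) (by norm_num) (by norm_num) (by norm_num) (by norm_num) (ex_un 5 0.205 (by norm_num) (by norm_num) (by norm_num) (by norm_num)) (v5_hump 0.4313 9.523 3.086 0.01646 0.022393 hβ hr hκ hk1 hk2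 (by norm_num) (tb := 3.4764) (by linarith) (by norm_num) (by norm_num) (by norm_num) (by norm_num) (by norm_num) (by norm_num) (by norm_num) (ex_un 4 0.1072 (by norm_num) (by norm_num) (by norm_num) (by norm_num)) (by norm_num)) (by norm_num))) hY (by norm_num) (by norm_num) (by norm_num) (by norm_num) (by norm_num) (by norm_num) (by norm_num) (by norm_num) (by norm_num) (ex_un 6 0.5922 (by norm_num) (by norm_num) (by norm_num) (by norm_num)) (by norm_num) (by norm_num)
  · exact b3_cmp 1 0 0.001376 0.65922 0 0.001491 0.0015 hr ((b3_Xm hh).trans_le (b3_U1 1 1.05 3.16839 3.5814 0.54759 0.12928 0.76522 0.5205 0.00106 1.0233 0.060853 0.6675 hβ hr hκ (by norm_num) hk1 hk2 (by linarith) (by linarith) (by norm_num) (by norm_num) (by norm_num) (by norm_num) (by norm_num) (by norm_num) (by norm_num) (by norm_num) (by norm_num) (by norm_num) (by norm_num) (by norm_num) (by norm_num) (ex_un 5 0.205 (by norm_num) (by norm_num) (by norm_num) (by norm_num))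 (v5_hump 0.3263 9.523 3.086 0.04473 0.060853 hβ hr hκ hk1 hk2 (by norm_num) (tb := 3.5814) (by linarith) (by norm_num) (by norm_num) (by norm_num) (by norm_num) (by norm_num) (by norm_num) (by norm_num) (ex_un 3 0.1073 (by norm_num) (by norm_num) (by norm_num) (by norm_num)) (by norm_num)) (by norm_num))) hY (by norm_num) (by norm_num) (by norm_num) (by norm_num) (by norm_num) (by norm_num) (by norm_num) (by norm_num) (by norm_num) (ex_un 6 0.5922 (by norm_num) (by norm_num) (by norm_num) (by norm_num)) (by norm_num) (by norm_num)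

private theorem yA0 {κ t : ℝ} (h : DomR κ t) (hk1 : 1 ≤ κ) (hk2 : κ ≤ 1.05) (ht1 : 1.074 ≤ t + κ) (ht2 : t + κ ≤ 1.094) :
    0.391 ≤ sy κ t ∧ sy κ t ≤ 0.407 := by
  have hy1 : 0.391 ≤ sy κ t := syR_ge h 1 1.05 1.074 0.391 1.47845 1.47846 0.55054 0.57808 hk1 hk2 (by linarith) (by norm_num) (by norm_num)
    (expn_ge (by norm_num) (by norm_num)) (expn_le (by norm_num) (by norm_num) (by norm_num)) (by norm_num)
    (by norm_num) (by norm_num) (by norm_num) (by norm_num) (by norm_num) (by norm_num)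
  have hy2 : sy κ t ≤ 0.407 := syR_le h 1 1.05 1.094 0.407 1.5023 0.575 0.58232 0.61145 hk1 hk2 (by linarith) (by norm_num) (by norm_num)
    (expn_ge (by norm_num) (by norm_num)) (by norm_num) (by norm_num) (Or.inr ((mul_le_mul_of_nonneg_left (expn_le (E := 1.50231) (by norm_num) (by norm_num) (by norm_num)) (by norm_num)).trans (by norm_num))) (by norm_num) (by norm_num) (by norm_num)
  exact ⟨hy1, hy2⟩

private theorem yB0 {κ t : ℝ} (h : DomR κ t) (hk1 : 1 ≤ κ) (hk2 : κ ≤ 1.05) (ht1 : -1.0204 ≤ t + κ) (ht2 : t + κ ≤ -1.00039) :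
    (-0.582) ≤ sy κ t ∧ sy κ t ≤ (-0.554) := by
  have hy1 : -0.582 ≤ sy κ t := syL_ge h 1 1.05 1.0204 0.582 0.55877 0.55879 0.3058 0.30971 0.32522 hk1 hk2 (by linarith) (by norm_num) (by norm_num) (by norm_num)
    (expm_ge (by norm_num) (by norm_num) (by norm_num) (by norm_num)) (expm_le (by norm_num) (by norm_num) (by norm_num)) (by norm_num)
    (by norm_num) (by norm_num) (by norm_num) (by norm_num) (by norm_num) (by norm_num)
  have hy2 : sy κ t ≤ -0.554 := syL_le h 1 1.05 1.00039 0.554 0.57464 0.57465 0.30319 0.31836 hk1 hk2 (by linarith) (by norm_num) (by norm_num) (by norm_num)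
    (expm_ge (by norm_num) (by norm_num) (by norm_num) (by norm_num)) (expm_le (by norm_num) (by norm_num) (by norm_num)) (by norm_num)
    (by norm_num) (by norm_num) (by norm_num) (by norm_num) (by norm_num) (by norm_num)
  exact ⟨hy1, hy2⟩

theorem pc0 {β r h t κ : ℝ} (hh : h = 2 * Real.pi / (3 : ℕ)) (hβ : 0 < β) (hr : 10 ≤ r) (hκ : κ = β * r)
    (hk1 : 1 ≤ κ) (hk2 : κ ≤ 1.05) (hT1 : 1.074 ≤ t + κ) (hT2 : t + κ ≤ 1.094) :
    Xf β r h t 0 ≠ 0 ∧ r * 0.1946 ≤ (Ld β r h t 1 - Ld β r h t 0).im ∧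
      ‖(((-1 : ℤ) : ℂ) - 1) * Ld β r h t 0 - ((-1 : ℤ) : ℂ) * Ld β r h t 1‖ ≤ r * 5.64 := by
  obtain ⟨q1, q2, q3⟩ := b3_h hh
  have hR0 := b3_R0 hβ hr hκ
  have hR := b3_R hβ hr hκ (by linarith)
  have hD1 : DomR κ t := b3_dom (by linarith) (by linarith) (Or.inl (by linarith))
  have hD0 : DomR κ (t - h) := b3_dom (by linarith) (by linarith) (Or.inl (by linarith))
  have y1 := yA0 hD1 hk1 hk2 (by linarith) (by linarith)
  have y0 := yB0 hD0 hk1 hk2 (by linarith) (by linarith)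
  have j1 := T3_21_d1_0 hD1 hβ hk1 hk2 (by linarith) (by linarith) hR0 hR
  exact b3_piece 1 1.05 0.391 0.407 0.399 0.67099 0.67639 0.66565 0.7103 2.2394 2.3026 0.08 0.12 0.12 1.7046 0.8091 0 0 (-0.582) (-0.554) (-0.568) 1.76472 1.78962 1.8792 2.919 0.08 0.305 0.165 4.5659 5.0221 0 0 0.1946 5.64
    hβ hr hκ (by norm_num) hk1 hk2 hD1 hD0 j1 (j1 _ (by rw [sub_self, norm_zero]; norm_num))
    (T3_21_d0_0 hD0 hβ hk1 hk2 (by linarith) (by linarith) hR0 hR)
    (T3_21_p0 hD0 hβ hk1 hk2 (by linarith) (by linarith) hR0 hR)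
    y1.1 y1.2 y0.1 y0.2 (by norm_num)
    (ex_um 0.391 (by norm_num) (by norm_num) (by norm_num) (by norm_num)) (ex_um 0.407 (by norm_num) (by norm_num) (by norm_num) (by norm_num)) (ex_lm 0.399 (by norm_num) (by norm_num) (by norm_num) (by norm_num) (by norm_num)) (by norm_num) (by norm_num) (by norm_num) (by norm_num) (by norm_num) (by norm_num) (by norm_num) (by norm_num)
    (by norm_num) (by norm_num) (by norm_num) (by norm_num) (by norm_num) (by norm_num) (by norm_num) (by norm_num) (by norm_num) (by norm_num)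
    (ex_up 0.582 (by norm_num) (by norm_num) (by norm_num) (by norm_num)) (ex_lp 0.568 (by norm_num) (by norm_num) (by norm_num)) (by norm_num) (by norm_num) (by norm_num) (by norm_num) (by norm_num) (by norm_num)
    (by norm_num) (by norm_num) (by norm_num) (by norm_num) (by norm_num) (by norm_num) (by norm_num) (by norm_num) (by norm_num) (by norm_num) (by norm_num)
    (by norm_num) (by norm_num) (by norm_num) (by norm_num)

private theorem yA1 {κ t : ℝ} (h : DomR κ t) (hk1 : 1 ≤ κ) (hk2 : κ ≤ 1.05) (ht1 : 1.094 ≤ t + κ) (ht2 : t + κ ≤ 1.114) :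
    0.396 ≤ sy κ t ∧ sy κ t ≤ 0.412 := by
  have hy1 : 0.396 ≤ sy κ t := syR_ge h 1 1.05 1.094 0.396 1.48586 1.48587 0.56038 0.58841 hk1 hk2 (by linarith) (by norm_num) (by norm_num)
    (expn_ge (by norm_num) (by norm_num)) (expn_le (by norm_num) (by norm_num) (by norm_num)) (by norm_num)
    (by norm_num) (by norm_num) (by norm_num) (by norm_num) (by norm_num) (by norm_num)
  have hy2 : sy κ t ≤ 0.412 := syR_le h 1 1.05 1.114 0.412 1.50983 0.585 0.59242 0.62206 hk1 hk2 (by linarith) (by norm_num) (by norm_num)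
    (expn_ge (by norm_num) (by norm_num)) (by norm_num) (by norm_num) (Or.inr ((mul_le_mul_of_nonneg_left (expn_le (E := 1.50984) (by norm_num) (by norm_num) (by norm_num)) (by norm_num)).trans (by norm_num))) (by norm_num) (by norm_num) (by norm_num)
  exact ⟨hy1, hy2⟩

private theorem yB1 {κ t : ℝ} (h : DomR κ t) (hk1 : 1 ≤ κ) (hk2 : κ ≤ 1.05) (ht1 : -1.0004 ≤ t + κ) (ht2 : t + κ ≤ -0.98039) :
    (-0.57) ≤ sy κ t ∧ sy κ t ≤ (-0.543) := by
  have hy1 : -0.57 ≤ sy κ t := syL_ge h 1 1.05 1.0004 0.57 0.56552 0.56553 0.3172 0.30699 0.32236 hk1 hk2 (by linarith) (by norm_num) (by norm_num) (by norm_num)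
    (expm_ge (by norm_num) (by norm_num) (by norm_num) (by norm_num)) (expm_le (by norm_num) (by norm_num) (by norm_num)) (by norm_num)
    (by norm_num) (by norm_num) (by norm_num) (by norm_num) (by norm_num) (by norm_num)
  have hy2 : sy κ t ≤ -0.543 := syL_le h 1 1.05 0.98039 0.543 0.581 0.58101 0.30045 0.31549 hk1 hk2 (by linarith) (by norm_num) (by norm_num) (by norm_num)
    (expm_ge (by norm_num) (by norm_num) (by norm_num) (by norm_num)) (expm_le (by norm_num) (by norm_num) (by norm_num)) (by norm_num)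
    (by norm_num) (by norm_num) (by norm_num) (by norm_num) (by norm_num) (by norm_num)
  exact ⟨hy1, hy2⟩

theorem pc1 {β r h t κ : ℝ} (hh : h = 2 * Real.pi / (3 : ℕ)) (hβ : 0 < β) (hr : 10 ≤ r) (hκ : κ = β * r)
    (hk1 : 1 ≤ κ) (hk2 : κ ≤ 1.05) (hT1 : 1.094 ≤ t + κ) (hT2 : t + κ ≤ 1.114) :
    Xf β r h t 0 ≠ 0 ∧ r * 0.1946 ≤ (Ld β r h t 1 - Ld β r h t 0).im ∧
      ‖(((-1 : ℤ) : ℂ) - 1) * Ld β r h t 0 - ((-1 : ℤ) : ℂ) * Ld β r h t 1‖ ≤ r * 5.64 := by
  obtain ⟨q1, q2, q3⟩ := b3_h hh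
  have hR0 := b3_R0 hβ hr hκ
  have hR := b3_R hβ hr hκ (by linarith)
  have hD1 : DomR κ t := b3_dom (by linarith) (by linarith) (Or.inl (by linarith))
  have hD0 : DomR κ (t - h) := b3_dom (by linarith) (by linarith) (Or.inl (by linarith))
  have y1 := yA1 hD1 hk1 hk2 (by linarith) (by linarith)
  have y0 := yB1 hD0 hk1 hk2 (by linarith) (by linarith)
  have j1 := T3_21_d1_0 hD1 hβ hk1 hk2 (by linarith) (by linarith) hR0 hR
  exact b3_piece 1 1.05 0.396 0.412 0.404 0.66764 0.67301 0.66233 0.7067 2.2448 2.3077 0.08 0.12 0.12 1.7046 0.8041 0 0 (-0.57) (-0.543) (-0.556) 1.74368 1.76827 1.8567 2.8753 0.08 0.305 0.165 4.5659 4.9995 0 0 0.1946 5.64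
    hβ hr hκ (by norm_num) hk1 hk2 hD1 hD0 j1 (j1 _ (by rw [sub_self, norm_zero]; norm_num))
    (T3_21_d0_0 hD0 hβ hk1 hk2 (by linarith) (by linarith) hR0 hR)
    (T3_21_p0 hD0 hβ hk1 hk2 (by linarith) (by linarith) hR0 hR)
    y1.1 y1.2 y0.1 y0.2 (by norm_num)
    (ex_um 0.396 (by norm_num) (by norm_num) (by norm_num) (by norm_num)) (ex_um 0.412 (by norm_num) (by norm_num) (by norm_num) (by norm_num)) (ex_lm 0.404 (by norm_num) (by norm_num) (by norm_num) (by norm_num) (by norm_num)) (by norm_num) (by norm_num) (by norm_num) (by norm_num) (by norm_num) (by norm_num) (by norm_num) (by norm_num)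
    (by norm_num) (by norm_num) (by norm_num) (by norm_num) (by norm_num) (by norm_num) (by norm_num) (by norm_num) (by norm_num) (by norm_num)
    (ex_up 0.57 (by norm_num) (by norm_num) (by norm_num) (by norm_num)) (ex_lp 0.556 (by norm_num) (by norm_num) (by norm_num)) (by norm_num) (by norm_num) (by norm_num) (by norm_num) (by norm_num) (by norm_num)
    (by norm_num) (by norm_num) (by norm_num) (by norm_num) (by norm_num) (by norm_num) (by norm_num) (by norm_num) (by norm_num) (by norm_num) (by norm_num)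
    (by norm_num) (by norm_num) (by norm_num) (by norm_num)

private theorem yA2 {κ t : ℝ} (h : DomR κ t) (hk1 : 1 ≤ κ) (hk2 : κ ≤ 1.05) (ht1 : 1.114 ≤ t + κ) (ht2 : t + κ ≤ 1.141) :
    0.4 ≤ sy κ t ∧ sy κ t ≤ 0.419 := by
  have hy1 : 0.4 ≤ sy κ t := syR_ge h 1 1.05 1.114 0.4 1.49182 1.49183 0.56831 0.59674 hk1 hk2 (by linarith) (by norm_num) (by norm_num)
    (expn_ge (by norm_num) (by norm_num)) (expn_le (by norm_num) (by norm_num) (by norm_num)) (by norm_num)
    (by norm_num) (by norm_num) (by norm_num) (by norm_num) (by norm_num) (by norm_num)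
  have hy2 : sy κ t ≤ 0.419 := syR_le h 1 1.05 1.141 0.419 1.52043 0.5991 0.60672 0.63707 hk1 hk2 (by linarith) (by norm_num) (by norm_num)
    (expn_ge (by norm_num) (by norm_num)) (by norm_num) (by norm_num) (Or.inr ((mul_le_mul_of_nonneg_left (expn_le (E := 1.52045) (by norm_num) (by norm_num) (by norm_num)) (by norm_num)).trans (by norm_num))) (by norm_num) (by norm_num) (by norm_num)
  exact ⟨hy1, hy2⟩

private theorem yB2 {κ t : ℝ} (h : DomR κ t) (hk1 : 1 ≤ κ) (hk2 : κ ≤ 1.05) (ht1 : -0.9804 ≤ t + κ) (ht2 : t + κ ≤ -0.95339) :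
    (-0.559) ≤ sy κ t ∧ sy κ t ≤ (-0.528) := by
  have hy1 : -0.559 ≤ sy κ t := syL_ge h 1 1.05 0.9804 0.559 0.57178 0.57179 0.3043 0.3044 0.31964 hk1 hk2 (by linarith) (by norm_num) (by norm_num) (by norm_num)
    (expm_ge (by norm_num) (by norm_num) (by norm_num) (by norm_num)) (expm_le (by norm_num) (by norm_num) (by norm_num)) (by norm_num)
    (by norm_num) (by norm_num) (by norm_num) (by norm_num) (by norm_num) (by norm_num)
  have hy2 : sy κ t ≤ -0.528 := syL_le h 1 1.05 0.95339 0.528 0.58978 0.58979 0.29657 0.31141 hk1 hk2 (by linarith) (by norm_num) (by norm_num) (by norm_num)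
    (expm_ge (by norm_num) (by norm_num) (by norm_num) (by norm_num)) (expm_le (by norm_num) (by norm_num) (by norm_num)) (by norm_num)
    (by norm_num) (by norm_num) (by norm_num) (by norm_num) (by norm_num) (by norm_num)
  exact ⟨hy1, hy2⟩

theorem pc2 {β r h t κ : ℝ} (hh : h = 2 * Real.pi / (3 : ℕ)) (hβ : 0 < β) (hr : 10 ≤ r) (hκ : κ = β * r)
    (hk1 : 1 ≤ κ) (hk2 : κ ≤ 1.05) (hT1 : 1.114 ≤ t + κ) (hT2 : t + κ ≤ 1.141) :
    Xf β r h t 0 ≠ 0 ∧ r * 0.1946 ≤ (Ld β r h t 1 - Ld β r h t 0).im ∧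
      ‖(((-1 : ℤ) : ℂ) - 1) * Ld β r h t 0 - ((-1 : ℤ) : ℂ) * Ld β r h t 1‖ ≤ r * 5.64 := by
  obtain ⟨q1, q2, q3⟩ := b3_h hh
  have hR0 := b3_R0 hβ hr hκ
  have hR := b3_R hβ hr hκ (by linarith)
  have hD1 : DomR κ t := b3_dom (by linarith) (by linarith) (Or.inl (by linarith))
  have hD0 : DomR κ (t - h) := b3_dom (by linarith) (by linarith) (Or.inl (by linarith))
  have y1 := yA2 hD1 hk1 hk2 (by linarith) (by linarith)
  have y0 := yB2 hD0 hk1 hk2 (by linarith) (by linarith)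
  have j1 := T3_21_d1_1 hD1 hβ hk1 hk2 (by linarith) (by linarith) hR0 hR
  exact b3_piece 1 1.05 0.4 0.419 0.409 0.66431 0.67033 0.65771 0.7039 2.2492 2.315 0.06 0.12 0.12 2.2728 1.0668 0 0 (-0.559) (-0.528) (-0.543) 1.72115 1.74893 1.8364 2.8174 0.1 0.345 0.165 4.1318 4.5205 0 0 0.1946 5.64
    hβ hr hκ (by norm_num) hk1 hk2 hD1 hD0 j1 (j1 _ (by rw [sub_self, norm_zero]; norm_num))
    (T3_21_d0_1 hD0 hβ hk1 hk2 (by linarith) (by linarith) hR0 hR)
    (T3_21_p0 hD0 hβ hk1 hk2 (by linarith) (by linarith) hR0 hR)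
    y1.1 y1.2 y0.1 y0.2 (by norm_num)
    (ex_um 0.4 (by norm_num) (by norm_num) (by norm_num) (by norm_num)) (ex_um 0.419 (by norm_num) (by norm_num) (by norm_num) (by norm_num)) (ex_lm 0.409 (by norm_num) (by norm_num) (by norm_num) (by norm_num) (by norm_num)) (by norm_num) (by norm_num) (by norm_num) (by norm_num) (by norm_num) (by norm_num) (by norm_num) (by norm_num)
    (by norm_num) (by norm_num) (by norm_num) (by norm_num) (by norm_num) (by norm_num) (by norm_num) (by norm_num) (by norm_num) (by norm_num)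
    (ex_up 0.559 (by norm_num) (by norm_num) (by norm_num) (by norm_num)) (ex_lp 0.543 (by norm_num) (by norm_num) (by norm_num)) (by norm_num) (by norm_num) (by norm_num) (by norm_num) (by norm_num) (by norm_num)
    (by norm_num) (by norm_num) (by norm_num) (by norm_num) (by norm_num) (by norm_num) (by norm_num) (by norm_num) (by norm_num) (by norm_num) (by norm_num)
    (by norm_num) (by norm_num) (by norm_num) (by norm_num)

private theorem yA3 {κ t : ℝ} (h : DomR κ t) (hk1 : 1 ≤ κ) (hk2 : κ ≤ 1.05) (ht1 : 1.141 ≤ t + κ) (ht2 : t + κ ≤ 1.167) :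
    0.406 ≤ sy κ t ∧ sy κ t ≤ 0.426 := by
  have hy1 : 0.406 ≤ sy κ t := syR_ge h 1 1.05 1.141 0.406 1.5008 1.50081 0.5803 0.60933 hk1 hk2 (by linarith) (by norm_num) (by norm_num)
    (expn_ge (by norm_num) (by norm_num)) (expn_le (by norm_num) (by norm_num) (by norm_num)) (by norm_num)
    (by norm_num) (by norm_num) (by norm_num) (by norm_num) (by norm_num) (by norm_num)
  have hy2 : sy κ t ≤ 0.426 := syR_le h 1 1.05 1.167 0.426 1.53112 0.6134 0.62119 0.65227 hk1 hk2 (by linarith) (by norm_num) (by norm_num)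
    (expn_ge (by norm_num) (by norm_num)) (by norm_num) (by norm_num) (Or.inr ((mul_le_mul_of_nonneg_left (expn_le (E := 1.53113) (by norm_num) (by norm_num) (by norm_num)) (by norm_num)).trans (by norm_num))) (by norm_num) (by norm_num) (by norm_num)
  exact ⟨hy1, hy2⟩

private theorem yB3 {κ t : ℝ} (h : DomR κ t) (hk1 : 1 ≤ κ) (hk2 : κ ≤ 1.05) (ht1 : -0.9534 ≤ t + κ) (ht2 : t + κ ≤ -0.92739) :
    (-0.544) ≤ sy κ t ∧ sy κ t ≤ (-0.514) := by
  have hy1 : -0.544 ≤ sy κ t := syL_ge h 1 1.05 0.9534 0.544 0.58042 0.58043 0.2969 0.30071 0.31576 hk1 hk2 (by linarith) (by norm_num) (by norm_num) (by norm_num)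
    (expm_ge (by norm_num) (by norm_num) (by norm_num) (by norm_num)) (expm_le (by norm_num) (by norm_num) (by norm_num)) (by norm_num)
    (by norm_num) (by norm_num) (by norm_num) (by norm_num) (by norm_num) (by norm_num)
  have hy2 : sy κ t ≤ -0.514 := syL_le h 1 1.05 0.92739 0.514 0.59809 0.5981 0.29277 0.30743 hk1 hk2 (by linarith) (by norm_num) (by norm_num) (by norm_num)
    (expm_ge (by norm_num) (by norm_num) (by norm_num) (by norm_num)) (expm_le (by norm_num) (by norm_num) (by norm_num)) (by norm_num)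
    (by norm_num) (by norm_num) (by norm_num) (by norm_num) (by norm_num) (by norm_num)
  exact ⟨hy1, hy2⟩

theorem pc3 {β r h t κ : ℝ} (hh : h = 2 * Real.pi / (3 : ℕ)) (hβ : 0 < β) (hr : 10 ≤ r) (hκ : κ = β * r)
    (hk1 : 1 ≤ κ) (hk2 : κ ≤ 1.05) (hT1 : 1.141 ≤ t + κ) (hT2 : t + κ ≤ 1.167) :
    Xf β r h t 0 ≠ 0 ∧ r * 0.1946 ≤ (Ld β r h t 1 - Ld β r h t 0).im ∧
      ‖(((-1 : ℤ) : ℂ) - 1) * Ld β r h t 0 - ((-1 : ℤ) : ℂ) * Ld β r h t 1‖ ≤ r * 5.64 := by
  obtain ⟨q1, q2, q3⟩ := b3_h hh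
  have hR0 := b3_R0 hβ hr hκ
  have hR := b3_R hβ hr hκ (by linarith)
  have hD1 : DomR κ t := b3_dom (by linarith) (by linarith) (Or.inl (by linarith))
  have hD0 : DomR κ (t - h) := b3_dom (by linarith) (by linarith) (Or.inl (by linarith))
  have y1 := yA3 hD1 hk1 hk2 (by linarith) (by linarith)
  have y0 := yB3 hD0 hk1 hk2 (by linarith) (by linarith)
  have j1 := T3_21_d1_1 hD1 hβ hk1 hk2 (by linarith) (by linarith) hR0 hR
  exact b3_piece 1 1.05 0.406 0.426 0.416 0.65968 0.66632 0.65312 0.6997 2.2558 2.3223 0.06 0.12 0.12 2.2728 1.0589 0 0 (-0.544) (-0.514) (-0.529) 1.69723 1.72289 1.8091 2.7661 0.1 0.345 0.165 4.1318 4.4944 0 0 0.1946 5.64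
    hβ hr hκ (by norm_num) hk1 hk2 hD1 hD0 j1 (j1 _ (by rw [sub_self, norm_zero]; norm_num))
    (T3_21_d0_1 hD0 hβ hk1 hk2 (by linarith) (by linarith) hR0 hR)
    (T3_21_p0 hD0 hβ hk1 hk2 (by linarith) (by linarith) hR0 hR)
    y1.1 y1.2 y0.1 y0.2 (by norm_num)
    (ex_um 0.406 (by norm_num) (by norm_num) (by norm_num) (by norm_num)) (ex_um 0.426 (by norm_num) (by norm_num) (by norm_num) (by norm_num)) (ex_lm 0.416 (by norm_num) (by norm_num) (by norm_num) (by norm_num) (by norm_num)) (by norm_num) (by norm_num) (by norm_num) (by norm_num) (by norm_num) (by norm_num) (by norm_num) (by norm_num)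
    (by norm_num) (by norm_num) (by norm_num) (by norm_num) (by norm_num) (by norm_num) (by norm_num) (by norm_num) (by norm_num) (by norm_num)
    (ex_up 0.544 (by norm_num) (by norm_num) (by norm_num) (by norm_num)) (ex_lp 0.529 (by norm_num) (by norm_num) (by norm_num)) (by norm_num) (by norm_num) (by norm_num) (by norm_num) (by norm_num) (by norm_num)
    (by norm_num) (by norm_num) (by norm_num) (by norm_num) (by norm_num) (by norm_num) (by norm_num) (by norm_num) (by norm_num) (by norm_num) (by norm_num)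
    (by norm_num) (by norm_num) (by norm_num) (by norm_num)

private theorem yA4 {κ t : ℝ} (h : DomR κ t) (hk1 : 1 ≤ κ) (hk2 : κ ≤ 1.05) (ht1 : 1.167 ≤ t + κ) (ht2 : t + κ ≤ 1.194) :
    0.412 ≤ sy κ t ∧ sy κ t ≤ 0.432 := by
  have hy1 : 0.412 ≤ sy κ t := syR_ge h 1 1.05 1.167 0.412 1.50983 1.50984 0.59242 0.62206 hk1 hk2 (by linarith) (by norm_num) (by norm_num)
    (expn_ge (by norm_num) (by norm_num)) (expn_le (by norm_num) (by norm_num) (by norm_num)) (by norm_num)
    (by norm_num) (by norm_num) (by norm_num) (by norm_num) (by norm_num) (by norm_num)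
  have hy2 : sy κ t ≤ 0.432 := syR_le h 1 1.05 1.194 0.432 1.54033 0.6258 0.63373 0.66543 hk1 hk2 (by linarith) (by norm_num) (by norm_num)
    (expn_ge (by norm_num) (by norm_num)) (by norm_num) (by norm_num) (Or.inr ((mul_le_mul_of_nonneg_left (expn_le (E := 1.54034) (by norm_num) (by norm_num) (by norm_num)) (by norm_num)).trans (by norm_num))) (by norm_num) (by norm_num) (by norm_num)
  exact ⟨hy1, hy2⟩

private theorem yB4 {κ t : ℝ} (h : DomR κ t) (hk1 : 1 ≤ κ) (hk2 : κ ≤ 1.05) (ht1 : -0.9274 ≤ t + κ) (ht2 : t + κ ≤ -0.90039) :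
    (-0.529) ≤ sy κ t ∧ sy κ t ≤ (-0.499) := by
  have hy1 : -0.529 ≤ sy κ t := syL_ge h 1 1.05 0.9274 0.529 0.58919 0.5892 0.2931 0.29683 0.31169 hk1 hk2 (by linarith) (by norm_num) (by norm_num) (by norm_num)
    (expm_ge (by norm_num) (by norm_num) (by norm_num) (by norm_num)) (expm_le (by norm_num) (by norm_num) (by norm_num)) (by norm_num)
    (by norm_num) (by norm_num) (by norm_num) (by norm_num) (by norm_num) (by norm_num)
  have hy2 : sy κ t ≤ -0.499 := syL_le h 1 1.05 0.90039 0.499 0.60713 0.60714 0.28853 0.30297 hk1 hk2 (by linarith) (by norm_num) (by norm_num) (by norm_num)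
    (expm_ge (by norm_num) (by norm_num) (by norm_num) (by norm_num)) (expm_le (by norm_num) (by norm_num) (by norm_num)) (by norm_num)
    (by norm_num) (by norm_num) (by norm_num) (by norm_num) (by norm_num) (by norm_num)
  exact ⟨hy1, hy2⟩

theorem pc4 {β r h t κ : ℝ} (hh : h = 2 * Real.pi / (3 : ℕ)) (hβ : 0 < β) (hr : 10 ≤ r) (hκ : κ = β * r)
    (hk1 : 1 ≤ κ) (hk2 : κ ≤ 1.05) (hT1 : 1.167 ≤ t + κ) (hT2 : t + κ ≤ 1.194) :
    Xf β r h t 0 ≠ 0 ∧ r * 0.1946 ≤ (Ld β r h t 1 - Ld β r h t 0).im ∧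
      ‖(((-1 : ℤ) : ℂ) - 1) * Ld β r h t 0 - ((-1 : ℤ) : ℂ) * Ld β r h t 1‖ ≤ r * 5.64 := by
  obtain ⟨q1, q2, q3⟩ := b3_h hh
  have hR0 := b3_R0 hβ hr hκ
  have hR := b3_R hβ hr hκ (by linarith)
  have hD1 : DomR κ t := b3_dom (by linarith) (by linarith) (Or.inl (by linarith))
  have hD0 : DomR κ (t - h) := b3_dom (by linarith) (by linarith) (Or.inl (by linarith))
  have y1 := yA4 hD1 hk1 hk2 (by linarith) (by linarith)
  have y0 := yB4 hD0 hk1 hk2 (by linarith) (by linarith)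
  have j1 := T3_21_d1_1 hD1 hβ hk1 hk2 (by linarith) (by linarith) hR0 hR
  exact b3_piece 1 1.05 0.412 0.432 0.422 0.65573 0.66233 0.64921 0.6955 2.2625 2.3287 0.06 0.12 0.12 2.2728 1.051 0 0 (-0.529) (-0.499) (-0.514) 1.67196 1.69724 1.7822 2.7135 0.1 0.345 0.165 4.1318 4.4703 0 0 0.1946 5.64
    hβ hr hκ (by norm_num) hk1 hk2 hD1 hD0 j1 (j1 _ (by rw [sub_self, norm_zero]; norm_num))
    (T3_21_d0_1 hD0 hβ hk1 hk2 (by linarith) (by linarith) hR0 hR)
    (T3_21_p0 hD0 hβ hk1 hk2 (by linarith) (by linarith) hR0 hR)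
    y1.1 y1.2 y0.1 y0.2 (by norm_num)
    (ex_um 0.412 (by norm_num) (by norm_num) (by norm_num) (by norm_num)) (ex_um 0.432 (by norm_num) (by norm_num) (by norm_num) (by norm_num)) (ex_lm 0.422 (by norm_num) (by norm_num) (by norm_num) (by norm_num) (by norm_num)) (by norm_num) (by norm_num) (by norm_num) (by norm_num) (by norm_num) (by norm_num) (by norm_num) (by norm_num)
    (by norm_num) (by norm_num) (by norm_num) (by norm_num) (by norm_num) (by norm_num) (by norm_num) (by norm_num) (by norm_num) (by norm_num)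
    (ex_up 0.529 (by norm_num) (by norm_num) (by norm_num) (by norm_num)) (ex_lp 0.514 (by norm_num) (by norm_num) (by norm_num)) (by norm_num) (by norm_num) (by norm_num) (by norm_num) (by norm_num) (by norm_num)
    (by norm_num) (by norm_num) (by norm_num) (by norm_num) (by norm_num) (by norm_num) (by norm_num) (by norm_num) (by norm_num) (by norm_num) (by norm_num)
    (by norm_num) (by norm_num) (by norm_num) (by norm_num)

private theorem yA5 {κ t : ℝ} (h : DomR κ t) (hk1 : 1 ≤ κ) (hk2 : κ ≤ 1.05) (ht1 : 1.194 ≤ t + κ) (ht2 : t + κ ≤ 1.221) :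
    0.418 ≤ sy κ t ∧ sy κ t ≤ 0.439 := by
  have hy1 : 0.418 ≤ sy κ t := syR_ge h 1 1.05 1.194 0.418 1.51892 1.51893 0.60467 0.63492 hk1 hk2 (by linarith) (by norm_num) (by norm_num)
    (expn_ge (by norm_num) (by norm_num)) (expn_le (by norm_num) (by norm_num) (by norm_num)) (by norm_num)
    (by norm_num) (by norm_num) (by norm_num) (by norm_num) (by norm_num) (by norm_num)
  have hy2 : sy κ t ≤ 0.439 := syR_le h 1 1.05 1.221 0.439 1.55115 0.6404 0.64852 0.68096 hk1 hk2 (by linarith) (by norm_num) (by norm_num)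
    (expn_ge (by norm_num) (by norm_num)) (by norm_num) (by norm_num) (Or.inr ((mul_le_mul_of_nonneg_left (expn_le (E := 1.55116) (by norm_num) (by norm_num) (by norm_num)) (by norm_num)).trans (by norm_num))) (by norm_num) (by norm_num) (by norm_num)
  exact ⟨hy1, hy2⟩

private theorem yB5 {κ t : ℝ} (h : DomR κ t) (hk1 : 1 ≤ κ) (hk2 : κ ≤ 1.05) (ht1 : -0.9004 ≤ t + κ) (ht2 : t + κ ≤ -0.87339) :
    (-0.513) ≤ sy κ t ∧ sy κ t ≤ (-0.484) := by
  have hy1 : -0.513 ≤ sy κ t := syL_ge h 1 1.05 0.9004 0.513 0.59869 0.5987 0.3022 0.2925 0.30714 hk1 hk2 (by linarith) (by norm_num) (by norm_num) (by norm_num)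
    (expm_ge (by norm_num) (by norm_num) (by norm_num) (by norm_num)) (expm_le (by norm_num) (by norm_num) (by norm_num)) (by norm_num)
    (by norm_num) (by norm_num) (by norm_num) (by norm_num) (by norm_num) (by norm_num)
  have hy2 : sy κ t ≤ -0.484 := syL_le h 1 1.05 0.87339 0.484 0.61631 0.61632 0.28408 0.2983 hk1 hk2 (by linarith) (by norm_num) (by norm_num) (by norm_num)
    (expm_ge (by norm_num) (by norm_num) (by norm_num) (by norm_num)) (expm_le (by norm_num) (by norm_num) (by norm_num)) (by norm_num)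
    (by norm_num) (by norm_num) (by norm_num) (by norm_num) (by norm_num) (by norm_num)
  exact ⟨hy1, hy2⟩

theorem pc5 {β r h t κ : ℝ} (hh : h = 2 * Real.pi / (3 : ℕ)) (hβ : 0 < β) (hr : 10 ≤ r) (hκ : κ = β * r)
    (hk1 : 1 ≤ κ) (hk2 : κ ≤ 1.05) (hT1 : 1.194 ≤ t + κ) (hT2 : t + κ ≤ 1.221) :
    Xf β r h t 0 ≠ 0 ∧ r * 0.1946 ≤ (Ld β r h t 1 - Ld β r h t 0).im ∧
      ‖(((-1 : ℤ) : ℂ) - 1) * Ld β r h t 0 - ((-1 : ℤ) : ℂ) * Ld β r h t 1‖ ≤ r * 5.64 := by
  obtain ⟨q1, q2, q3⟩ := b3_h hh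
  have hR0 := b3_R0 hβ hr hκ
  have hR := b3_R hβ hr hκ (by linarith)
  have hD1 : DomR κ t := b3_dom (by linarith) (by linarith) (Or.inl (by linarith))
  have hD0 : DomR κ (t - h) := b3_dom (by linarith) (by linarith) (Or.inl (by linarith))
  have y1 := yA5 hD1 hk1 hk2 (by linarith) (by linarith)
  have y0 := yB5 hD0 hk1 hk2 (by linarith) (by linarith)
  have j1 := T3_21_d1_2 hD1 hβ hk1 hk2 (by linarith) (by linarith) hR0 hR
  exact b3_piece 1 1.05 0.418 0.439 0.428 0.65181 0.65837 0.64469 0.6913 2.2693 2.3363 0.04 0.165 0.165 4.9402 2.2671 0 0 (-0.513) (-0.484) (-0.498) 1.64542 1.6703 1.7539 2.6635 0.08 0.255 0.165 3.8174 4.1025 0 0 0.1946 5.64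
    hβ hr hκ (by norm_num) hk1 hk2 hD1 hD0 j1 (j1 _ (by rw [sub_self, norm_zero]; norm_num))
    (T3_21_d0_2 hD0 hβ hk1 hk2 (by linarith) (by linarith) hR0 hR)
    (T3_21_p0 hD0 hβ hk1 hk2 (by linarith) (by linarith) hR0 hR)
    y1.1 y1.2 y0.1 y0.2 (by norm_num)
    (ex_um 0.418 (by norm_num) (by norm_num) (by norm_num) (by norm_num)) (ex_um 0.439 (by norm_num) (by norm_num) (by norm_num) (by norm_num)) (ex_lm 0.428 (by norm_num) (by norm_num) (by norm_num) (by norm_num) (by norm_num)) (by norm_num) (by norm_num) (by norm_num) (by norm_num) (by norm_num) (by norm_num) (by norm_num) (by norm_num)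
    (by norm_num) (by norm_num) (by norm_num) (by norm_num) (by norm_num) (by norm_num) (by norm_num) (by norm_num) (by norm_num) (by norm_num)
    (ex_up 0.513 (by norm_num) (by norm_num) (by norm_num) (by norm_num)) (ex_lp 0.498 (by norm_num) (by norm_num) (by norm_num)) (by norm_num) (by norm_num) (by norm_num) (by norm_num) (by norm_num) (by norm_num)
    (by norm_num) (by norm_num) (by norm_num) (by norm_num) (by norm_num) (by norm_num) (by norm_num) (by norm_num) (by norm_num) (by norm_num) (by norm_num)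
    (by norm_num) (by norm_num) (by norm_num) (by norm_num)

private theorem yA6 {κ t : ℝ} (h : DomR κ t) (hk1 : 1 ≤ κ) (hk2 : κ ≤ 1.05) (ht1 : 1.221 ≤ t + κ) (ht2 : t + κ ≤ 1.248) :
    0.424 ≤ sy κ t ∧ sy κ t ≤ 0.445 := by
  have hy1 : 0.424 ≤ sy κ t := syR_ge h 1 1.05 1.221 0.424 1.52806 1.52807 0.61704 0.64791 hk1 hk2 (by linarith) (by norm_num) (by norm_num)
    (expn_ge (by norm_num) (by norm_num)) (expn_le (by norm_num) (by norm_num) (by norm_num)) (by norm_num)
    (by norm_num) (by norm_num) (by norm_num) (by norm_num) (by norm_num) (by norm_num)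
  have hy2 : sy κ t ≤ 0.445 := syR_le h 1 1.05 1.248 0.445 1.56048 0.653 0.66134 0.69443 hk1 hk2 (by linarith) (by norm_num) (by norm_num)
    (expn_ge (by norm_num) (by norm_num)) (by norm_num) (by norm_num) (Or.inr ((mul_le_mul_of_nonneg_left (expn_le (E := 1.5605) (by norm_num) (by norm_num) (by norm_num)) (by norm_num)).trans (by norm_num))) (by norm_num) (by norm_num) (by norm_num)
  exact ⟨hy1, hy2⟩

private theorem yB6 {κ t : ℝ} (h : DomR κ t) (hk1 : 1 ≤ κ) (hk2 : κ ≤ 1.05) (ht1 : -0.8734 ≤ t + κ) (ht2 : t + κ ≤ -0.84639) :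
    (-0.498) ≤ sy κ t ∧ sy κ t ≤ (-0.469) := by
  have hy1 : -0.498 ≤ sy κ t := syL_ge h 1 1.05 0.8734 0.498 0.60774 0.60775 0.2846 0.28824 0.30266 hk1 hk2 (by linarith) (by norm_num) (by norm_num) (by norm_num)
    (expm_ge (by norm_num) (by norm_num) (by norm_num) (by norm_num)) (expm_le (by norm_num) (by norm_num) (by norm_num)) (by norm_num)
    (by norm_num) (by norm_num) (by norm_num) (by norm_num) (by norm_num) (by norm_num)
  have hy2 : sy κ t ≤ -0.469 := syL_le h 1 1.05 0.84639 0.469 0.62562 0.62563 0.27944 0.29343 hk1 hk2 (by linarith) (by norm_num) (by norm_num) (by norm_num)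
    (expm_ge (by norm_num) (by norm_num) (by norm_num) (by norm_num)) (expm_le (by norm_num) (by norm_num) (by norm_num)) (by norm_num)
    (by norm_num) (by norm_num) (by norm_num) (by norm_num) (by norm_num) (by norm_num)
  exact ⟨hy1, hy2⟩

theorem pc6 {β r h t κ : ℝ} (hh : h = 2 * Real.pi / (3 : ℕ)) (hβ : 0 < β) (hr : 10 ≤ r) (hκ : κ = β * r)
    (hk1 : 1 ≤ κ) (hk2 : κ ≤ 1.05) (hT1 : 1.221 ≤ t + κ) (hT2 : t + κ ≤ 1.248) :
    Xf β r h t 0 ≠ 0 ∧ r * 0.1946 ≤ (Ld β r h t 1 - Ld β r h t 0).im ∧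
      ‖(((-1 : ℤ) : ℂ) - 1) * Ld β r h t 0 - ((-1 : ℤ) : ℂ) * Ld β r h t 1‖ ≤ r * 5.64 := by
  obtain ⟨q1, q2, q3⟩ := b3_h hh
  have hR0 := b3_R0 hβ hr hκ
  have hR := b3_R hβ hr hκ (by linarith)
  have hD1 : DomR κ t := b3_dom (by linarith) (by linarith) (Or.inl (by linarith))
  have hD0 : DomR κ (t - h) := b3_dom (by linarith) (by linarith) (Or.inl (by linarith))
  have y1 := yA6 hD1 hk1 hk2 (by linarith) (by linarith)
  have y0 := yB6 hD0 hk1 hk2 (by linarith) (by linarith)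
  have j1 := T3_21_d1_2 hD1 hβ hk1 hk2 (by linarith) (by linarith) hR0 hR
  exact b3_piece 1 1.05 0.424 0.445 0.434 0.64791 0.65443 0.64083 0.6872 2.2761 2.3428 0.04 0.165 0.165 4.9402 2.2503 0 0 (-0.498) (-0.469) (-0.483) 1.62092 1.64543 1.7278 2.6158 0.08 0.255 0.165 3.8174 4.0782 0 0 0.1946 5.64
    hβ hr hκ (by norm_num) hk1 hk2 hD1 hD0 j1 (j1 _ (by rw [sub_self, norm_zero]; norm_num))
    (T3_21_d0_2 hD0 hβ hk1 hk2 (by linarith) (by linarith) hR0 hR)
    (T3_21_p0 hD0 hβ hk1 hk2 (by linarith) (by linarith) hR0 hR)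
    y1.1 y1.2 y0.1 y0.2 (by norm_num)
    (ex_um 0.424 (by norm_num) (by norm_num) (by norm_num) (by norm_num)) (ex_um 0.445 (by norm_num) (by norm_num) (by norm_num) (by norm_num)) (ex_lm 0.434 (by norm_num) (by norm_num) (by norm_num) (by norm_num) (by norm_num)) (by norm_num) (by norm_num) (by norm_num) (by norm_num) (by norm_num) (by norm_num) (by norm_num) (by norm_num)
    (by norm_num) (by norm_num) (by norm_num) (by norm_num) (by norm_num) (by norm_num) (by norm_num) (by norm_num) (by norm_num) (by norm_num)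
    (ex_up 0.498 (by norm_num) (by norm_num) (by norm_num) (by norm_num)) (ex_lp 0.483 (by norm_num) (by norm_num) (by norm_num)) (by norm_num) (by norm_num) (by norm_num) (by norm_num) (by norm_num) (by norm_num)
    (by norm_num) (by norm_num) (by norm_num) (by norm_num) (by norm_num) (by norm_num) (by norm_num) (by norm_num) (by norm_num) (by norm_num) (by norm_num)
    (by norm_num) (by norm_num) (by norm_num) (by norm_num)

private theorem yA7 {κ t : ℝ} (h : DomR κ t) (hk1 : 1 ≤ κ) (hk2 : κ ≤ 1.05) (ht1 : 1.248 ≤ t + κ) (ht2 : t + κ ≤ 1.275) :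
    0.43 ≤ sy κ t ∧ sy κ t ≤ 0.451 := by
  have hy1 : 0.43 ≤ sy κ t := syR_ge h 1 1.05 1.248 0.43 1.53725 1.53726 0.62954 0.66103 hk1 hk2 (by linarith) (by norm_num) (by norm_num)
    (expn_ge (by norm_num) (by norm_num)) (expn_le (by norm_num) (by norm_num) (by norm_num)) (by norm_num)
    (by norm_num) (by norm_num) (by norm_num) (by norm_num) (by norm_num) (by norm_num)
  have hy2 : sy κ t ≤ 0.451 := syR_le h 1 1.05 1.275 0.451 1.56988 0.6658 0.6743 0.70803 hk1 hk2 (by linarith) (by norm_num) (by norm_num)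
    (expn_ge (by norm_num) (by norm_num)) (by norm_num) (by norm_num) (Or.inr ((mul_le_mul_of_nonneg_left (expn_le (E := 1.56989) (by norm_num) (by norm_num) (by norm_num)) (by norm_num)).trans (by norm_num))) (by norm_num) (by norm_num) (by norm_num)
  exact ⟨hy1, hy2⟩

private theorem yB7 {κ t : ℝ} (h : DomR κ t) (hk1 : 1 ≤ κ) (hk2 : κ ≤ 1.05) (ht1 : -0.8464 ≤ t + κ) (ht2 : t + κ ≤ -0.81939) :
    (-0.482) ≤ sy κ t ∧ sy κ t ≤ (-0.454) := by
  have hy1 : -0.482 ≤ sy κ t := syL_ge h 1 1.05 0.8464 0.482 0.61754 0.61755 0.2822 0.28348 0.29766 hk1 hk2 (by linarith) (by norm_num) (by norm_num) (by norm_num)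
    (expm_ge (by norm_num) (by norm_num) (by norm_num) (by norm_num)) (expm_le (by norm_num) (by norm_num) (by norm_num)) (by norm_num)
    (by norm_num) (by norm_num) (by norm_num) (by norm_num) (by norm_num) (by norm_num)
  have hy2 : sy κ t ≤ -0.454 := syL_le h 1 1.05 0.81939 0.454 0.63508 0.63509 0.27459 0.28834 hk1 hk2 (by linarith) (by norm_num) (by norm_num) (by norm_num)
    (expm_ge (by norm_num) (by norm_num) (by norm_num) (by norm_num)) (expm_le (by norm_num) (by norm_num) (by norm_num)) (by norm_num)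
    (by norm_num) (by norm_num) (by norm_num) (by norm_num) (by norm_num) (by norm_num)
  exact ⟨hy1, hy2⟩

theorem pc7 {β r h t κ : ℝ} (hh : h = 2 * Real.pi / (3 : ℕ)) (hβ : 0 < β) (hr : 10 ≤ r) (hκ : κ = β * r)
    (hk1 : 1 ≤ κ) (hk2 : κ ≤ 1.05) (hT1 : 1.248 ≤ t + κ) (hT2 : t + κ ≤ 1.275) :
    Xf β r h t 0 ≠ 0 ∧ r * 0.1946 ≤ (Ld β r h t 1 - Ld β r h t 0).im ∧
      ‖(((-1 : ℤ) : ℂ) - 1) * Ld β r h t 0 - ((-1 : ℤ) : ℂ) * Ld β r h t 1‖ ≤ r * 5.64 := by
  obtain ⟨q1, q2, q3⟩ := b3_h hh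
  have hR0 := b3_R0 hβ hr hκ
  have hR := b3_R hβ hr hκ (by linarith)
  have hD1 : DomR κ t := b3_dom (by linarith) (by linarith) (Or.inl (by linarith))
  have hD0 : DomR κ (t - h) := b3_dom (by linarith) (by linarith) (Or.inl (by linarith))
  have y1 := yA7 hD1 hk1 hk2 (by linarith) (by linarith)
  have y0 := yB7 hD0 hk1 hk2 (by linarith) (by linarith)
  have j1 := T3_21_d1_2 hD1 hβ hk1 hk2 (by linarith) (by linarith) hR0 hR
  exact b3_piece 1 1.05 0.43 0.451 0.441 0.64339 0.65051 0.637 0.6831 2.283 2.3494 0.04 0.165 0.165 4.9402 2.2335 0 0 (-0.482) (-0.454) (-0.468) 1.59679 1.61931 1.7003 2.5703 0.08 0.255 0.165 3.8174 4.0486 0 0 0.1946 5.64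
    hβ hr hκ (by norm_num) hk1 hk2 hD1 hD0 j1 (j1 _ (by rw [sub_self, norm_zero]; norm_num))
    (T3_21_d0_2 hD0 hβ hk1 hk2 (by linarith) (by linarith) hR0 hR)
    (T3_21_p0 hD0 hβ hk1 hk2 (by linarith) (by linarith) hR0 hR)
    y1.1 y1.2 y0.1 y0.2 (by norm_num)
    (ex_um 0.43 (by norm_num) (by norm_num) (by norm_num) (by norm_num)) (ex_um 0.451 (by norm_num) (by norm_num) (by norm_num) (by norm_num)) (ex_lm 0.441 (by norm_num) (by norm_num) (by norm_num) (by norm_num) (by norm_num)) (by norm_num) (by norm_num) (by norm_num) (by norm_num) (by norm_num) (by norm_num) (by norm_num) (by norm_num)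
    (by norm_num) (by norm_num) (by norm_num) (by norm_num) (by norm_num) (by norm_num) (by norm_num) (by norm_num) (by norm_num) (by norm_num)
    (ex_up 0.482 (by norm_num) (by norm_num) (by norm_num) (by norm_num)) (ex_lp 0.468 (by norm_num) (by norm_num) (by norm_num)) (by norm_num) (by norm_num) (by norm_num) (by norm_num) (by norm_num) (by norm_num)
    (by norm_num) (by norm_num) (by norm_num) (by norm_num) (by norm_num) (by norm_num) (by norm_num) (by norm_num) (by norm_num) (by norm_num) (by norm_num)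
    (by norm_num) (by norm_num) (by norm_num) (by norm_num)

private theorem yA8 {κ t : ℝ} (h : DomR κ t) (hk1 : 1 ≤ κ) (hk2 : κ ≤ 1.05) (ht1 : 1.275 ≤ t + κ) (ht2 : t + κ ≤ 1.301) :
    0.435 ≤ sy κ t ∧ sy κ t ≤ 0.457 := by
  have hy1 : 0.435 ≤ sy κ t := syR_ge h 1 1.05 1.275 0.435 1.54496 1.54497 0.64005 0.67207 hk1 hk2 (by linarith) (by norm_num) (by norm_num)
    (expn_ge (by norm_num) (by norm_num)) (expn_le (by norm_num) (by norm_num) (by norm_num)) (by norm_num)
    (by norm_num) (by norm_num) (by norm_num) (by norm_num) (by norm_num) (by norm_num)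
  have hy2 : sy κ t ≤ 0.457 := syR_le h 1 1.05 1.301 0.457 1.57932 0.6787 0.68738 0.72176 hk1 hk2 (by linarith) (by norm_num) (by norm_num)
    (expn_ge (by norm_num) (by norm_num)) (by norm_num) (by norm_num) (Or.inr ((mul_le_mul_of_nonneg_left (expn_le (E := 1.57933) (by norm_num) (by norm_num) (by norm_num)) (by norm_num)).trans (by norm_num))) (by norm_num) (by norm_num) (by norm_num)
  exact ⟨hy1, hy2⟩

private theorem yB8 {κ t : ℝ} (h : DomR κ t) (hk1 : 1 ≤ κ) (hk2 : κ ≤ 1.05) (ht1 : -0.8194 ≤ t + κ) (ht2 : t + κ ≤ -0.79339) :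
    (-0.466) ≤ sy κ t ∧ sy κ t ≤ (-0.44) := by
  have hy1 : -0.466 ≤ sy κ t := syL_ge h 1 1.05 0.8194 0.466 0.6275 0.62751 0.2819 0.27849 0.29242 hk1 hk2 (by linarith) (by norm_num) (by norm_num) (by norm_num)
    (expm_ge (by norm_num) (by norm_num) (by norm_num) (by norm_num)) (expm_le (by norm_num) (by norm_num) (by norm_num)) (by norm_num)
    (by norm_num) (by norm_num) (by norm_num) (by norm_num) (by norm_num) (by norm_num)
  have hy2 : sy κ t ≤ -0.44 := syL_le h 1 1.05 0.79339 0.44 0.64403 0.64404 0.26987 0.28338 hk1 hk2 (by linarith) (by norm_num) (by norm_num) (by norm_num)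
    (expm_ge (by norm_num) (by norm_num) (by norm_num) (by norm_num)) (expm_le (by norm_num) (by norm_num) (by norm_num)) (by norm_num)
    (by norm_num) (by norm_num) (by norm_num) (by norm_num) (by norm_num) (by norm_num)
  exact ⟨hy1, hy2⟩

theorem pc8 {β r h t κ : ℝ} (hh : h = 2 * Real.pi / (3 : ℕ)) (hβ : 0 < β) (hr : 10 ≤ r) (hκ : κ = β * r)
    (hk1 : 1 ≤ κ) (hk2 : κ ≤ 1.05) (hT1 : 1.275 ≤ t + κ) (hT2 : t + κ ≤ 1.301) :
    Xf β r h t 0 ≠ 0 ∧ r * 0.1946 ≤ (Ld β r h t 1 - Ld β r h t 0).im ∧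
      ‖(((-1 : ℤ) : ℂ) - 1) * Ld β r h t 0 - ((-1 : ℤ) : ℂ) * Ld β r h t 1‖ ≤ r * 5.64 := by
  obtain ⟨q1, q2, q3⟩ := b3_h hh
  have hR0 := b3_R0 hβ hr hκ
  have hR := b3_R hβ hr hκ (by linarith)
  have hD1 : DomR κ t := b3_dom (by linarith) (by linarith) (Or.inl (by linarith))
  have hD0 : DomR κ (t - h) := b3_dom (by linarith) (by linarith) (Or.inl (by linarith))
  have y1 := yA8 hD1 hk1 hk2 (by linarith) (by linarith)
  have y0 := yB8 hD0 hk1 hk2 (by linarith) (by linarith)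
  have j1 := T3_21_d1_2 hD1 hβ hk1 hk2 (by linarith) (by linarith) hR0 hR
  exact b3_piece 1 1.05 0.435 0.457 0.446 0.64018 0.64727 0.63319 0.6797 2.2888 2.3561 0.04 0.165 0.165 4.9402 2.2196 0 0 (-0.466) (-0.44) (-0.453) 1.57302 1.59361 1.6733 2.53 0.08 0.255 0.165 3.8174 4.0159 0 0 0.1946 5.64
    hβ hr hκ (by norm_num) hk1 hk2 hD1 hD0 j1 (j1 _ (by rw [sub_self, norm_zero]; norm_num))
    (T3_21_d0_2 hD0 hβ hk1 hk2 (by linarith) (by linarith) hR0 hR)
    (T3_21_p0 hD0 hβ hk1 hk2 (by linarith) (by linarith) hR0 hR)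
    y1.1 y1.2 y0.1 y0.2 (by norm_num)
    (ex_um 0.435 (by norm_num) (by norm_num) (by norm_num) (by norm_num)) (ex_um 0.457 (by norm_num) (by norm_num) (by norm_num) (by norm_num)) (ex_lm 0.446 (by norm_num) (by norm_num) (by norm_num) (by norm_num) (by norm_num)) (by norm_num) (by norm_num) (by norm_num) (by norm_num) (by norm_num) (by norm_num) (by norm_num) (by norm_num)
    (by norm_num) (by norm_num) (by norm_num) (by norm_num) (by norm_num) (by norm_num) (by norm_num) (by norm_num) (by norm_num) (by norm_num)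
    (ex_up 0.466 (by norm_num) (by norm_num) (by norm_num) (by norm_num)) (ex_lp 0.453 (by norm_num) (by norm_num) (by norm_num)) (by norm_num) (by norm_num) (by norm_num) (by norm_num) (by norm_num) (by norm_num)
    (by norm_num) (by norm_num) (by norm_num) (by norm_num) (by norm_num) (by norm_num) (by norm_num) (by norm_num) (by norm_num) (by norm_num) (by norm_num)
    (by norm_num) (by norm_num) (by norm_num) (by norm_num)

private theorem yA9 {κ t : ℝ} (h : DomR κ t) (hk1 : 1 ≤ κ) (hk2 : κ ≤ 1.05) (ht1 : 1.301 ≤ t + κ) (ht2 : t + κ ≤ 1.328) :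
    0.441 ≤ sy κ t ∧ sy κ t ≤ 0.463 := by
  have hy1 : 0.441 ≤ sy κ t := syR_ge h 1 1.05 1.301 0.441 1.55426 1.55427 0.65278 0.68544 hk1 hk2 (by linarith) (by norm_num) (by norm_num)
    (expn_ge (by norm_num) (by norm_num)) (expn_le (by norm_num) (by norm_num) (by norm_num)) (by norm_num)
    (by norm_num) (by norm_num) (by norm_num) (by norm_num) (by norm_num) (by norm_num)
  have hy2 : sy κ t ≤ 0.463 := syR_le h 1 1.05 1.328 0.463 1.58883 0.6918 0.70059 0.73564 hk1 hk2 (by linarith) (by norm_num) (by norm_num)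
    (expn_ge (by norm_num) (by norm_num)) (by norm_num) (by norm_num) (Or.inr ((mul_le_mul_of_nonneg_left (expn_le (E := 1.58884) (by norm_num) (by norm_num) (by norm_num)) (by norm_num)).trans (by norm_num))) (by norm_num) (by norm_num) (by norm_num)
  exact ⟨hy1, hy2⟩

private theorem yB9 {κ t : ℝ} (h : DomR κ t) (hk1 : 1 ≤ κ) (hk2 : κ ≤ 1.05) (ht1 : -0.7934 ≤ t + κ) (ht2 : t + κ ≤ -0.76639) :
    (-0.451) ≤ sy κ t ∧ sy κ t ≤ (-0.424) := by
  have hy1 : -0.451 ≤ sy κ t := syL_ge h 1 1.05 0.7934 0.451 0.63699 0.637 0.2713 0.2736 0.28729 hk1 hk2 (by linarith) (by norm_num) (by norm_num) (by norm_num)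
    (expm_ge (by norm_num) (by norm_num) (by norm_num) (by norm_num)) (expm_le (by norm_num) (by norm_num) (by norm_num)) (by norm_num)
    (by norm_num) (by norm_num) (by norm_num) (by norm_num) (by norm_num) (by norm_num)
  have hy2 : sy κ t ≤ -0.424 := syL_le h 1 1.05 0.76639 0.424 0.65442 0.65443 0.26426 0.27748 hk1 hk2 (by linarith) (by norm_num) (by norm_num) (by norm_num)
    (expm_ge (by norm_num) (by norm_num) (by norm_num) (by norm_num)) (expm_le (by norm_num) (by norm_num) (by norm_num)) (by norm_num)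
    (by norm_num) (by norm_num) (by norm_num) (by norm_num) (by norm_num) (by norm_num)
  exact ⟨hy1, hy2⟩

theorem pc9 {β r h t κ : ℝ} (hh : h = 2 * Real.pi / (3 : ℕ)) (hβ : 0 < β) (hr : 10 ≤ r) (hκ : κ = β * r)
    (hk1 : 1 ≤ κ) (hk2 : κ ≤ 1.05) (hT1 : 1.301 ≤ t + κ) (hT2 : t + κ ≤ 1.328) :
    Xf β r h t 0 ≠ 0 ∧ r * 0.1946 ≤ (Ld β r h t 1 - Ld β r h t 0).im ∧
      ‖(((-1 : ℤ) : ℂ) - 1) * Ld β r h t 0 - ((-1 : ℤ) : ℂ) * Ld β r h t 1‖ ≤ r * 5.64 := by
  obtain ⟨q1, q2, q3⟩ := b3_h hh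
  have hR0 := b3_R0 hβ hr hκ
  have hR := b3_R hβ hr hκ (by linarith)
  have hD1 : DomR κ t := b3_dom (by linarith) (by linarith) (Or.inl (by linarith))
  have hD0 : DomR κ (t - h) := b3_dom (by linarith) (by linarith) (Or.inl (by linarith))
  have y1 := yA9 hD1 hk1 hk2 (by linarith) (by linarith)
  have y0 := yB9 hD0 hk1 hk2 (by linarith) (by linarith)
  have j1 := T3_21_d1_2 hD1 hβ hk1 hk2 (by linarith) (by linarith) hR0 hR
  exact b3_piece 1 1.05 0.441 0.463 0.452 0.63635 0.6434 0.6294 0.6756 2.2958 2.3628 0.04 0.165 0.165 4.9402 2.2028 0 0 (-0.451) (-0.424) (-0.438) 1.5496 1.56989 1.6484 2.486 0.08 0.255 0.165 3.8174 3.991 0 0 0.1946 5.64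
    hβ hr hκ (by norm_num) hk1 hk2 hD1 hD0 j1 (j1 _ (by rw [sub_self, norm_zero]; norm_num))
    (T3_21_d0_2 hD0 hβ hk1 hk2 (by linarith) (by linarith) hR0 hR)
    (T3_21_p0 hD0 hβ hk1 hk2 (by linarith) (by linarith) hR0 hR)
    y1.1 y1.2 y0.1 y0.2 (by norm_num)
    (ex_um 0.441 (by norm_num) (by norm_num) (by norm_num) (by norm_num)) (ex_um 0.463 (by norm_num) (by norm_num) (by norm_num) (by norm_num)) (ex_lm 0.452 (by norm_num) (by norm_num) (by norm_num) (by norm_num) (by norm_num)) (by norm_num) (by norm_num) (by norm_num) (by norm_num) (by norm_num) (by norm_num) (by norm_num) (by norm_num)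
    (by norm_num) (by norm_num) (by norm_num) (by norm_num) (by norm_num) (by norm_num) (by norm_num) (by norm_num) (by norm_num) (by norm_num)
    (ex_up 0.451 (by norm_num) (by norm_num) (by norm_num) (by norm_num)) (ex_lp 0.438 (by norm_num) (by norm_num) (by norm_num)) (by norm_num) (by norm_num) (by norm_num) (by norm_num) (by norm_num) (by norm_num)
    (by norm_num) (by norm_num) (by norm_num) (by norm_num) (by norm_num) (by norm_num) (by norm_num) (by norm_num) (by norm_num) (by norm_num) (by norm_num)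
    (by norm_num) (by norm_num) (by norm_num) (by norm_num)

private theorem yA10 {κ t : ℝ} (h : DomR κ t) (hk1 : 1 ≤ κ) (hk2 : κ ≤ 1.05) (ht1 : 1.328 ≤ t + κ) (ht2 : t + κ ≤ 1.355) :
    0.446 ≤ sy κ t ∧ sy κ t ≤ 0.469 := by
  have hy1 : 0.446 ≤ sy κ t := syR_ge h 1 1.05 1.328 0.446 1.56205 1.56206 0.66349 0.69668 hk1 hk2 (by linarith) (by norm_num) (by norm_num)
    (expn_ge (by norm_num) (by norm_num)) (expn_le (by norm_num) (by norm_num) (by norm_num)) (by norm_num)
    (by norm_num) (by norm_num) (by norm_num) (by norm_num) (by norm_num) (by norm_num)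
  have hy2 : sy κ t ≤ 0.469 := syR_le h 1 1.05 1.355 0.469 1.59839 0.705 0.71394 0.74965 hk1 hk2 (by linarith) (by norm_num) (by norm_num)
    (expn_ge (by norm_num) (by norm_num)) (by norm_num) (by norm_num) (Or.inr ((mul_le_mul_of_nonneg_left (expn_le (E := 1.5984) (by norm_num) (by norm_num) (by norm_num)) (by norm_num)).trans (by norm_num))) (by norm_num) (by norm_num) (by norm_num)
  exact ⟨hy1, hy2⟩

private theorem yB10 {κ t : ℝ} (h : DomR κ t) (hk1 : 1 ≤ κ) (hk2 : κ ≤ 1.05) (ht1 : -0.7664 ≤ t + κ) (ht2 : t + κ ≤ -0.73939) :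
    (-0.435) ≤ sy κ t ∧ sy κ t ≤ (-0.409) := by
  have hy1 : -0.435 ≤ sy κ t := syL_ge h 1 1.05 0.7664 0.435 0.64726 0.64727 0.267 0.26815 0.28157 hk1 hk2 (by linarith) (by norm_num) (by norm_num) (by norm_num)
    (expm_ge (by norm_num) (by norm_num) (by norm_num) (by norm_num)) (expm_le (by norm_num) (by norm_num) (by norm_num)) (by norm_num)
    (by norm_num) (by norm_num) (by norm_num) (by norm_num) (by norm_num) (by norm_num)
  have hy2 : sy κ t ≤ -0.409 := syL_le h 1 1.05 0.73939 0.409 0.66431 0.66432 0.25876 0.27171 hk1 hk2 (by linarith) (by norm_num) (by norm_num) (by norm_num)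
    (expm_ge (by norm_num) (by norm_num) (by norm_num) (by norm_num)) (expm_le (by norm_num) (by norm_num) (by norm_num)) (by norm_num)
    (by norm_num) (by norm_num) (by norm_num) (by norm_num) (by norm_num) (by norm_num)
  exact ⟨hy1, hy2⟩

theorem pc10 {β r h t κ : ℝ} (hh : h = 2 * Real.pi / (3 : ℕ)) (hβ : 0 < β) (hr : 10 ≤ r) (hκ : κ = β * r)
    (hk1 : 1 ≤ κ) (hk2 : κ ≤ 1.05) (hT1 : 1.328 ≤ t + κ) (hT2 : t + κ ≤ 1.355) :
    Xf β r h t 0 ≠ 0 ∧ r * 0.1946 ≤ (Ld β r h t 1 - Ld β r h t 0).im ∧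
      ‖(((-1 : ℤ) : ℂ) - 1) * Ld β r h t 0 - ((-1 : ℤ) : ℂ) * Ld β r h t 1‖ ≤ r * 5.64 := by
  obtain ⟨q1, q2, q3⟩ := b3_h hh
  have hR0 := b3_R0 hβ hr hκ
  have hR := b3_R hβ hr hκ (by linarith)
  have hD1 : DomR κ t := b3_dom (by linarith) (by linarith) (Or.inl (by linarith))
  have hD0 : DomR κ (t - h) := b3_dom (by linarith) (by linarith) (Or.inl (by linarith))
  have y1 := yA10 hD1 hk1 hk2 (by linarith) (by linarith)
  have y0 := yB10 hD0 hk1 hk2 (by linarith) (by linarith)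
  have j1 := T3_21_d1_2 hD1 hβ hk1 hk2 (by linarith) (by linarith) hR0 hR
  exact b3_piece 1 1.05 0.446 0.469 0.458 0.63254 0.64019 0.62563 0.6722 2.3017 2.3696 0.04 0.165 0.165 4.9402 2.1889 0 0 (-0.435) (-0.409) (-0.422) 1.525 1.54497 1.6223 2.4471 0.08 0.255 0.165 3.8174 3.9589 0 0 0.1946 5.64
    hβ hr hκ (by norm_num) hk1 hk2 hD1 hD0 j1 (j1 _ (by rw [sub_self, norm_zero]; norm_num))
    (T3_21_d0_2 hD0 hβ hk1 hk2 (by linarith) (by linarith) hR0 hR)
    (T3_21_p0 hD0 hβ hk1 hk2 (by linarith) (by linarith) hR0 hR)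
    y1.1 y1.2 y0.1 y0.2 (by norm_num)
    (ex_um 0.446 (by norm_num) (by norm_num) (by norm_num) (by norm_num)) (ex_um 0.469 (by norm_num) (by norm_num) (by norm_num) (by norm_num)) (ex_lm 0.458 (by norm_num) (by norm_num) (by norm_num) (by norm_num) (by norm_num)) (by norm_num) (by norm_num) (by norm_num) (by norm_num) (by norm_num) (by norm_num) (by norm_num) (by norm_num)
    (by norm_num) (by norm_num) (by norm_num) (by norm_num) (by norm_num) (by norm_num) (by norm_num) (by norm_num) (by norm_num) (by norm_num)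
    (ex_up 0.435 (by norm_num) (by norm_num) (by norm_num) (by norm_num)) (ex_lp 0.422 (by norm_num) (by norm_num) (by norm_num)) (by norm_num) (by norm_num) (by norm_num) (by norm_num) (by norm_num) (by norm_num)
    (by norm_num) (by norm_num) (by norm_num) (by norm_num) (by norm_num) (by norm_num) (by norm_num) (by norm_num) (by norm_num) (by norm_num) (by norm_num)
    (by norm_num) (by norm_num) (by norm_num) (by norm_num)

private theorem yA11 {κ t : ℝ} (h : DomR κ t) (hk1 : 1 ≤ κ) (hk2 : κ ≤ 1.05) (ht1 : 1.355 ≤ t + κ) (ht2 : t + κ ≤ 1.382) :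
    0.451 ≤ sy κ t ∧ sy κ t ≤ 0.475 := by
  have hy1 : 0.451 ≤ sy κ t := syR_ge h 1 1.05 1.355 0.451 1.56988 1.56989 0.6743 0.70803 hk1 hk2 (by linarith) (by norm_num) (by norm_num)
    (expn_ge (by norm_num) (by norm_num)) (expn_le (by norm_num) (by norm_num) (by norm_num)) (by norm_num)
    (by norm_num) (by norm_num) (by norm_num) (by norm_num) (by norm_num) (by norm_num)
  have hy2 : sy κ t ≤ 0.475 := syR_le h 1 1.05 1.382 0.475 1.60801 0.7183 0.72743 0.76381 hk1 hk2 (by linarith) (by norm_num) (by norm_num)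
    (expn_ge (by norm_num) (by norm_num)) (by norm_num) (by norm_num) (Or.inr ((mul_le_mul_of_nonneg_left (expn_le (E := 1.60802) (by norm_num) (by norm_num) (by norm_num)) (by norm_num)).trans (by norm_num))) (by norm_num) (by norm_num) (by norm_num)
  exact ⟨hy1, hy2⟩

private theorem yB11 {κ t : ℝ} (h : DomR κ t) (hk1 : 1 ≤ κ) (hk2 : κ ≤ 1.05) (ht1 : -0.7394 ≤ t + κ) (ht2 : t + κ ≤ -0.71239) :
    (-0.419) ≤ sy κ t ∧ sy κ t ≤ (-0.394) := by
  have hy1 : -0.419 ≤ sy κ t := syL_ge h 1 1.05 0.7394 0.419 0.6577 0.65771 0.2624 0.26245 0.27559 hk1 hk2 (by linarith) (by norm_num) (by norm_num) (by norm_num)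
    (expm_ge (by norm_num) (by norm_num) (by norm_num) (by norm_num)) (expm_le (by norm_num) (by norm_num) (by norm_num)) (by norm_num)
    (by norm_num) (by norm_num) (by norm_num) (by norm_num) (by norm_num) (by norm_num)
  have hy2 : sy κ t ≤ -0.394 := syL_le h 1 1.05 0.71239 0.394 0.67435 0.67436 0.25304 0.2657 hk1 hk2 (by linarith) (by norm_num) (by norm_num) (by norm_num)
    (expm_ge (by norm_num) (by norm_num) (by norm_num) (by norm_num)) (expm_le (by norm_num) (by norm_num) (by norm_num)) (by norm_num)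
    (by norm_num) (by norm_num) (by norm_num) (by norm_num) (by norm_num) (by norm_num)
  exact ⟨hy1, hy2⟩

theorem pc11 {β r h t κ : ℝ} (hh : h = 2 * Real.pi / (3 : ℕ)) (hβ : 0 < β) (hr : 10 ≤ r) (hκ : κ = β * r)
    (hk1 : 1 ≤ κ) (hk2 : κ ≤ 1.05) (hT1 : 1.355 ≤ t + κ) (hT2 : t + κ ≤ 1.382) :
    Xf β r h t 0 ≠ 0 ∧ r * 0.1946 ≤ (Ld β r h t 1 - Ld β r h t 0).im ∧
      ‖(((-1 : ℤ) : ℂ) - 1) * Ld β r h t 0 - ((-1 : ℤ) : ℂ) * Ld β r h t 1‖ ≤ r * 5.64 := by
  obtain ⟨q1, q2, q3⟩ := b3_h hh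
  have hR0 := b3_R0 hβ hr hκ
  have hR := b3_R hβ hr hκ (by linarith)
  have hD1 : DomR κ t := b3_dom (by linarith) (by linarith) (Or.inl (by linarith))
  have hD0 : DomR κ (t - h) := b3_dom (by linarith) (by linarith) (Or.inl (by linarith))
  have y1 := yA11 hD1 hk1 hk2 (by linarith) (by linarith)
  have y0 := yB11 hD0 hk1 hk2 (by linarith) (by linarith)
  have j1 := T3_21_d1_2 hD1 hβ hk1 hk2 (by linarith) (by linarith) hR0 hR
  exact b3_piece 1 1.05 0.451 0.475 0.463 0.62939 0.637 0.62189 0.6689 2.3076 2.3764 0.04 0.165 0.165 4.9402 2.1754 0 0 (-0.419) (-0.394) (-0.406) 1.5008 1.52045 1.5965 2.4103 0.08 0.255 0.165 3.8174 3.9256 0 0 0.1946 5.64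
    hβ hr hκ (by norm_num) hk1 hk2 hD1 hD0 j1 (j1 _ (by rw [sub_self, norm_zero]; norm_num))
    (T3_21_d0_2 hD0 hβ hk1 hk2 (by linarith) (by linarith) hR0 hR)
    (T3_21_p0 hD0 hβ hk1 hk2 (by linarith) (by linarith) hR0 hR)
    y1.1 y1.2 y0.1 y0.2 (by norm_num)
    (ex_um 0.451 (by norm_num) (by norm_num) (by norm_num) (by norm_num)) (ex_um 0.475 (by norm_num) (by norm_num) (by norm_num) (by norm_num)) (ex_lm 0.463 (by norm_num) (by norm_num) (by norm_num) (by norm_num) (by norm_num)) (by norm_num) (by norm_num) (by norm_num) (by norm_num) (by norm_num) (by norm_num) (by norm_num) (by norm_num)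
    (by norm_num) (by norm_num) (by norm_num) (by norm_num) (by norm_num) (by norm_num) (by norm_num) (by norm_num) (by norm_num) (by norm_num)
    (ex_up 0.419 (by norm_num) (by norm_num) (by norm_num) (by norm_num)) (ex_lp 0.406 (by norm_num) (by norm_num) (by norm_num)) (by norm_num) (by norm_num) (by norm_num) (by norm_num) (by norm_num) (by norm_num)
    (by norm_num) (by norm_num) (by norm_num) (by norm_num) (by norm_num) (by norm_num) (by norm_num) (by norm_num) (by norm_num) (by norm_num) (by norm_num)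
    (by norm_num) (by norm_num) (by norm_num) (by norm_num)

theorem innS {β r h t κ : ℝ} (hh : h = 2 * Real.pi / (3 : ℕ)) (hβ : 0 < β) (hr : 10 ≤ r) (hκ : κ = β * r)
    (hk1 : 1 ≤ κ) (hk2 : κ ≤ 1.05) (hT1 : 1.074 ≤ t + κ) (hT2 : t + κ ≤ 1.382) :
    Xf β r h t 0 ≠ 0 ∧ r * 0.1946 ≤ (Ld β r h t 1 - Ld β r h t 0).im ∧
      ‖(((-1 : ℤ) : ℂ) - 1) * Ld β r h t 0 - ((-1 : ℤ) : ℂ) * Ld β r h t 1‖ ≤ r * 5.64 := by
  rcases le_total (t + κ) 1.094 with f0 | g0
  · exact pc0 hh hβ hr hκ hk1 hk2 hT1 f0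
  rcases le_total (t + κ) 1.114 with f1 | g1
  · exact pc1 hh hβ hr hκ hk1 hk2 g0 f1
  rcases le_total (t + κ) 1.141 with f2 | g2
  · exact pc2 hh hβ hr hκ hk1 hk2 g1 f2
  rcases le_total (t + κ) 1.167 with f3 | g3
  · exact pc3 hh hβ hr hκ hk1 hk2 g2 f3
  rcases le_total (t + κ) 1.194 with f4 | g4
  · exact pc4 hh hβ hr hκ hk1 hk2 g3 f4
  rcases le_total (t + κ) 1.221 with f5 | g5
  · exact pc5 hh hβ hr hκ hk1 hk2 g4 f5
  rcases le_total (t + κ) 1.248 with f6 | g6
  · exact pc6 hh hβ hr hκ hk1 hk2 g5 f6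
  rcases le_total (t + κ) 1.275 with f7 | g7
  · exact pc7 hh hβ hr hκ hk1 hk2 g6 f7
  rcases le_total (t + κ) 1.301 with f8 | g8
  · exact pc8 hh hβ hr hκ hk1 hk2 g7 f8
  rcases le_total (t + κ) 1.328 with f9 | g9
  · exact pc9 hh hβ hr hκ hk1 hk2 g8 f9
  rcases le_total (t + κ) 1.355 with f10 | g10
  · exact pc10 hh hβ hr hκ hk1 hk2 g9 f10
  exact pc11 hh hβ hr hκ hk1 hk2 g10 hT2

theorem circ {p : ℤ} (hp : IsCoprime (3 : ℤ) p) {β r : ℝ} (hβ : 0 < β) (hr : 10 ≤ r) (hk1 : 1 ≤ β * r)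
    (hk2 : β * r ≤ 1.05) : Circ (2 * Real.pi * p / (3 : ℕ) + β) r := by
  obtain ⟨κ, hκ⟩ : ∃ κ, κ = β * r := ⟨_, rfl⟩
  rw [← hκ] at hk1 hk2
  refine circ3 hp hr (h := 2 * Real.pi / (3 : ℕ)) (κ := κ) rfl 1.074 1.382 1.0065 0.1946 0.00141 0.0015 5.64 (by norm_num) (by norm_num) (by norm_num)
    (by norm_num) (by norm_num) ?_ ?_ ?_ ?_ ?_ (by norm_num) (by norm_num)
  · intro t h1 h2
    exact (innS rfl hβ hr hκ hk1 hk2 h1 h2).1
  · intro t h1 h2
    exact (innE rfl hβ hr hκ hk1 hk2 h1 h2).1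
  · intro t h1 h2
    exact (innE rfl hβ hr hκ hk1 hk2 h1 h2).2
  · intro t h1 h2
    exact (innS rfl hβ hr hκ hk1 hk2 h1 h2).2
  · intro t h1 h2 h3
    rcases h3 with h3 | h3
    · exact left rfl hβ hr hκ hk1 hk2 h1 h3
    · exact right0 rfl hβ hr hκ hk1 hk2 h3 h2

end B3_21

end Sok
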