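import Pool.Agent.Lib.MP_816dec_an.R1b3D
import Pool.Agent.Lib.MP_816dec_an.R1b3J22

/-!
MP_816dec_an (A3, row R1, b = 3): the cell `1.05 ≤ κ ≤ 1.1`.
-/

set_option autoImplicit false
set_option maxHeartbeats 4000000
set_option linter.unusedVariables false

open Complex Set

namespace Sok

namespace B3_22

private theorem yL {κ t : ℝ} (h : DomR κ t) (hk1 : 1.05 ≤ κ) (hk2 : κ ≤ 1.1) (ht1 : 0 ≤ t + κ) (ht2 : t + κ ≤ 1.066) :
    0 ≤ sy κ t ∧ sy κ t ≤ 0.405 := by
  have hy1 : 0 ≤ sy κ t := sy_nonneg h (by linarith)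
  have hy2 : sy κ t ≤ 0.405 := syR_le h 1.05 1.1 1.066 0.405 1.4993 0.5454 0.55201 0.57831 hk1 hk2 (by linarith) (by norm_num) (by norm_num)
    (expn_ge (by norm_num) (by norm_num)) (by norm_num) (by norm_num) (Or.inr ((mul_le_mul_of_nonneg_left (expn_le (E := 1.49931) (by norm_num) (by norm_num) (by norm_num)) (by norm_num)).trans (by norm_num))) (by norm_num) (by norm_num) (by norm_num)
  exact ⟨hy1, hy2⟩

theorem left {β r h t κ : ℝ} (hh : h = 2 * Real.pi / (3 : ℕ)) (hβ : 0 < β) (hr : 10 ≤ r) (hκ : κ = β * r)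
    (hk1 : 1.05 ≤ κ) (hk2 : κ ≤ 1.1) (hT1 : 0 ≤ t + κ) (hT2 : t + κ ≤ 1.066) :
    ‖Xf β r h t (-1)‖ < |‖Xf β r h t 1‖ - ‖Xf β r h t 0‖| := by
  obtain ⟨q1, q2, q3⟩ := b3_h hh
  have hR0 := b3_R0 hβ hr hκ
  have hR := b3_R hβ hr hκ (by linarith)
  have hD1 : DomR κ t := b3_dom (by linarith) (by linarith) (Or.inl (by linarith))
  have hy := yL hD1 hk1 hk2 (by linarith) (by linarith)
  have hY : 0.7512 * Real.exp (r * 0.77565) ≤ ‖Xf β r h t 1‖ :=
    b3_lo hβ hr hκ (k := 1) (t' := t) (by push_cast; ring) hD1 0.07 2.3483 0.7512 0.77565 (by norm_num)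
      (T3_22_p1 hD1 hβ hk1 hk2 (by linarith) (by linarith) hR0 hR)
      (v5_Dup hD1 1.1 0 0.405 1 0.66698 2.3483 hk2 hy.1 hy.2 (ex_up 0 (by norm_num) (by norm_num) (by norm_num) (by norm_num)) (ex_um 0.405 (by norm_num) (by norm_num) (by norm_num) (by norm_num)) (by norm_num) (by norm_num) (by norm_num)) (by norm_num) (by norm_num)
      (b3_Vlo hD1 1.05 1.1 0 1.066 0.56 (-0.57981) 0.604 0.82307 0.19472 0.77565 hk1 hk2 (by linarith) (by linarith) (by norm_num) (ex_lm 0.57981 (by norm_num) (by norm_num) (by norm_num) (by norm_num) (by norm_num)) (by norm_num) (by norm_num) (by norm_num) (by norm_num) (by norm_num) (by norm_num) (by norm_num) (by norm_num) (ex_um 0.19472 (by norm_num) (by norm_num) (by norm_num) (by norm_num)) (by norm_num))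
  have h0 : ‖Xf β r h t 0‖ ≤ 0.8871 * ‖Xf β r h t 1‖ :=
    b3_cmp 0.7175 0.03325 0.0007057 0.72565 0.885509 0.001538 0.8871 hr (b3_HU0 0.53 1.05 1.1 (-2.0944) (-1.02839) 1.28744 1.74456 1.79141 0.57322 0.55823 1.74455 0.9271 0.13232 0.74677 1.5176 0 0.05 0.000001 1.6363 0.7424 hβ hr hκ (by norm_num) hk1 hk2 (by norm_num) (by linarith) (by linarith) (by norm_num) (by norm_num) (ex_up 0.5565 (by norm_num) (by norm_num) (by norm_num) (by norm_num)) (ex_up 0.583 (by norm_num) (by norm_num) (by norm_num) (by norm_num)) (ex_um 0.5565 (by norm_num) (by norm_num) (by norm_num) (by norm_num)) (ex_um 0.583 (by norm_num) (by norm_num) (by norm_num) (by norm_num)) (by norm_num) (by norm_num) (ex_lp 0.5565 (by norm_num) (by norm_num) (by norm_num)) (by norm_num) (by norm_num) (by norm_num) (by norm_num) (by norm_num) (by norm_num) (by norm_num) (by norm_num) (by norm_num) (by norm_num) (by norm_num) (by norm_num) (by norm_num) (by norm_num) (v5_hump 4.8502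 9.09 3.015 0.0000003148 0.000001 hβ hr hκ hk1 hk2 (by norm_num) (tb := (-1.02839)) (by linarith) (by norm_num) (by norm_num) (by norm_num) (by norm_num) (by norm_num) (by norm_num) (by norm_num) (ex_un 14 0.99 (by norm_num) (by norm_num) (by norm_num) (by norm_num)) (by norm_num)) (by norm_num) (by norm_num)) hY (by norm_num) (by norm_num) (by norm_num) (by norm_num) (by norm_num) (ex_un 0 0.3325 (by norm_num) (by norm_num) (by norm_num) (by norm_num)) (by norm_num) (by norm_num) (by norm_num) (ex_un 7 0.2565 (by norm_num) (by norm_num) (by norm_num) (by norm_num)) (by norm_num) (by norm_num)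
  have h2 : ‖Xf β r h t (-1)‖ ≤ 0.0418 * ‖Xf β r h t 1‖ := by
    rcases le_total ((t + h) + κ) 2.52 with g0 | g0
    · exact b3_cmp 0.01215 0.44119 0.0004312 0.77565 0.041657 0.000106 0.0418 hr ((b3_Xm hh).trans_le (b3_HF 0.46 1.05 1.1 2.09439 2.52 1.29787 0.61694 0.60291 1.62093 1.65865 0.6029 1.9146 0.13232 2.56509 0.1007 0.0693 0.5029 0.00001 2.5755 0.184 0.33446 hβ hr hκ (by norm_num) hk1 hk2 (by norm_num) (by linarith) (by linarith) (by norm_num) (ex_um 0.483 (by norm_num) (by norm_num) (by norm_num) (by norm_num)) (ex_um 0.506 (by norm_num) (by norm_num) (by norm_num) (by norm_num)) (ex_up 0.483 (by norm_num) (by norm_num) (by norm_num) (by norm_num)) (ex_up 0.506 (by norm_num) (by norm_num) (by norm_num) (by norm_num)) (by norm_num) (by norm_num) (ex_lm 0.506 (by norm_num) (by norm_num) (by norm_num) (by norm_num) (by norm_num)) (by norm_num) (by norm_num) (by norm_num) (by norm_num) (by norm_num) (by norm_num) (by norm_num) (by norm_num)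 (by norm_num) (by norm_num) (by norm_num) (by norm_num) (ex_un 0 0.693 (by norm_num) (by norm_num) (by norm_num) (by norm_num)) (v5_hump 1.3018 9.09 3.015 0.000007336 0.00001 hβ hr hκ hk1 hk2 (by norm_num) (tb := 2.52) (by linarith) (by norm_num) (by norm_num) (by norm_num) (by norm_num) (by norm_num) (by norm_num) (by norm_num) (ex_un 11 0.8333 (by norm_num) (by norm_num) (by norm_num) (by norm_num)) (by norm_num)) (by norm_num) (by norm_num) (by norm_num))) hY (by norm_num) (by norm_num) (by norm_num) (by norm_num) (by norm_num) (ex_un 4 0.4119 (by norm_num) (by norm_num) (by norm_num) (by norm_num)) (by norm_num) (by norm_num) (by norm_num) (ex_un 7 0.7565 (by norm_num) (by norm_num) (by norm_num) (by norm_num)) (by norm_num) (by norm_num)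
    exact b3_cmp 1 0 0.005215 0.52565 0 0.025767 0.0418 hr (b3_w (b3_UD 1.05 1.1 2.52 3.1604 0.2 0.38934 0.2 1.935 3.7116 0.25 hh hβ hr hκ (by norm_num) hk1 hk2 (by linarith) (by linarith) (by norm_num) (by norm_num) (by norm_num) (by norm_num) (by norm_num) (by norm_num) (by norm_num) (by norm_num) (by norm_num) (by norm_num) (by norm_num) (by norm_num) (by norm_num))) hY (by norm_num) (by norm_num) (by norm_num) (by norm_num) (by norm_num) (by norm_num) (by norm_num) (by norm_num) (by norm_num) (ex_un 5 0.2565 (by norm_num) (by norm_num) (by norm_num) (by norm_num)) (by norm_num) (by norm_num)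
  exact b3_out1 0.8871 0.0418 hY (by norm_num) h0 h2 (by norm_num)

private theorem yR0 {κ t : ℝ} (h : DomR κ t) (hk1 : 1.05 ≤ κ) (hk2 : κ ≤ 1.1) (ht1 : -0.7124 ≤ t + κ) (ht2 : t + κ ≤ 0.0001) :
    (-0.395) ≤ sy κ t ∧ sy κ t ≤ 0.005 := by
  have hy1 : -0.395 ≤ sy κ t := syL_ge h 1.05 1.1 0.7124 0.395 0.67368 0.67369 0.239 0.24191 0.25344 hk1 hk2 (by linarith) (by norm_num) (by norm_num) (by norm_num)
    (expm_ge (by norm_num) (by norm_num) (by norm_num) (by norm_num)) (expm_le (by norm_num) (by norm_num) (by norm_num)) (by norm_num)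
    (by norm_num) (by norm_num) (by norm_num) (by norm_num) (by norm_num) (by norm_num)
  have hy2 : sy κ t ≤ 0.005 := syR_le h 1.05 1.1 0.0001 0.005 1.00501 0.0045 0.00456 0.00479 hk1 hk2 (by linarith) (by norm_num) (by norm_num)
    (expn_ge (by norm_num) (by norm_num)) (by norm_num) (by norm_num) (Or.inr ((mul_le_mul_of_nonneg_left (expn_le (E := 1.00502) (by norm_num) (by norm_num) (by norm_num)) (by norm_num)).trans (by norm_num))) (by norm_num) (by norm_num) (by norm_num)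
  exact ⟨hy1, hy2⟩

theorem right0 {β r h t κ : ℝ} (hh : h = 2 * Real.pi / (3 : ℕ)) (hβ : 0 < β) (hr : 10 ≤ r) (hκ : κ = β * r)
    (hk1 : 1.05 ≤ κ) (hk2 : κ ≤ 1.1) (hT1 : 1.382 ≤ t + κ) (hT2 : t + κ ≤ h) :
    ‖Xf β r h t (-1)‖ < |‖Xf β r h t 1‖ - ‖Xf β r h t 0‖| := by
  obtain ⟨q1, q2, q3⟩ := b3_h hh
  have hR0 := b3_R0 hβ hr hκ
  have hR := b3_R hβ hr hκ (by linarith)
  have hD0 : DomR κ (t - h) := b3_dom (by linarith) (by linarith) (Or.inl (by linarith))
  have hy := yR0 hD0 hk1 hk2 (by linarith) (by linarith)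
  have hY : 0.6834 * Real.exp (r * 0.8596) ≤ ‖Xf β r h t 0‖ :=
    b3_lo hβ hr hκ (k := 0) (t' := t - h) (by push_cast; ring) hD0 0.11 2.8762 0.6834 0.8596 (by norm_num)
      (T3_22_p0R hD0 hβ hk1 hk2 (by linarith) (by linarith) hR0 hR)
      (v5_Dup hD0 1.1 (-0.395) 0.005 1.48439 0.99502 2.8762 hk2 hy.1 hy.2 (ex_up 0.395 (by norm_num) (by norm_num) (by norm_num) (by norm_num)) (ex_um 0.005 (by norm_num) (by norm_num) (by norm_num) (by norm_num)) (by norm_num) (by norm_num) (by norm_num)) (by norm_num) (by norm_num)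
      (b3_Vlo hD0 1.05 1.1 (-0.7124) 0.0001 1.33 0.28518 0.3659 0.9338 0.0685 0.8596 hk1 hk2 (by linarith) (by linarith) (by norm_num) (ex_lp 0.28518 (by norm_num) (by norm_num) (by norm_num)) (by norm_num) (by norm_num) (by norm_num) (by norm_num) (by norm_num) (by norm_num) (by norm_num) (by norm_num) (ex_um 0.0685 (by norm_num) (by norm_num) (by norm_num) (by norm_num)) (by norm_num))
  have h1 : ‖Xf β r h t 1‖ ≤ 0.3549 * ‖Xf β r h t 0‖ := by
    exact b3_cmp 0.1421 0.19687 0.0001855 0.8596 0.354751 0.000056 0.3549 hr (b3_X1.trans_le (b3_HF 0.39 1.05 1.1 1.382 2.0944 1.20171 0.66399 0.65117 1.50607 1.53573 0.65115 1.6552 0.13232 1.8527 0.5263 0.16009 0.2024 0.000001 1.7061 0.2038 0.66273 hβ hr hκ (by norm_num) hk1 hk2 (by norm_num) (by linarith) (by linarith) (by norm_num) (ex_um 0.4095 (by norm_num) (by norm_num) (by norm_num) (by norm_num)) (ex_um 0.429 (by norm_num) (by norm_num) (by norm_num) (by norm_num)) (ex_up 0.4095 (by norm_num)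 (by norm_num) (by norm_num) (by norm_num)) (ex_up 0.429 (by norm_num) (by norm_num) (by norm_num) (by norm_num)) (by norm_num) (by norm_num) (ex_lm 0.429 (by norm_num) (by norm_num) (by norm_num) (by norm_num) (by norm_num)) (by norm_num) (by norm_num) (by norm_num) (by norm_num) (by norm_num) (by norm_num) (by norm_num) (by norm_num) (by norm_num) (by norm_num) (by norm_num) (by norm_num) (ex_un 1 0.6009 (by norm_num) (by norm_num) (by norm_num) (by norm_num)) (v5_hump 1.7274 9.09 3.015 0.0000003148 0.000001 hβ hr hκ hk1 hk2 (by norm_num) (tb := 2.0944) (by linarith) (by norm_num) (by norm_num) (by norm_num) (by norm_num) (by norm_num) (by norm_num) (by norm_num) (ex_un 14 0.99 (by norm_num) (by norm_num) (by norm_num) (by norm_num)) (by norm_num)) (by norm_num) (by norm_num) (by norm_num))) hY (by norm_num) (by norm_num) (by norm_num) (by norm_num) (by norm_num) (ex_un 1 0.9687 (by norm_num) (by norm_num) (by norm_num) (by norm_num)) (by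 norm_num) (by norm_num) (by norm_num) (ex_un 8 0.596 (by norm_num) (by norm_num) (by norm_num) (by norm_num)) (by norm_num) (by norm_num)
  have h2 : ‖Xf β r h t (-1)‖ ≤ 0.0253 * ‖Xf β r h t 0‖ := by
    exact b3_cmp 1 0 0.00863 0.47602 0 0.025229 0.0253 hr (b3_w (b3_UD 1.05 1.1 3.47639 4.1888 0.005 0.38934 0.33358 1.0415 1.9978 0.38358 hh hβ hr hκ (by norm_num) hk1 hk2 (by linarith) (by linarith) (by norm_num) (by norm_num) (by norm_num) (by norm_num) (by norm_num) (by norm_num) (by norm_num) (by norm_num) (by norm_num) (by norm_num) (by norm_num) (by norm_num) (by norm_num))) hY (by norm_num) (by norm_num) (by norm_num) (by norm_num) (by norm_num) (by norm_num) (by norm_num) (by norm_num) (by norm_num) (ex_un 4 0.7602 (by norm_num) (by norm_num) (by norm_num) (by norm_num)) (by norm_num) (by norm_num)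
  exact b3_out0 0.3549 0.0253 hY (by norm_num) h1 h2 (by norm_num)

private theorem yI {κ t : ℝ} (h : DomR κ t) (hk1 : 1.05 ≤ κ) (hk2 : κ ≤ 1.1) (ht1 : -1.0284 ≤ t + κ) (ht2 : t + κ ≤ -0.71239) :
    (-0.571) ≤ sy κ t ∧ sy κ t ≤ (-0.385) := by
  have hy1 : -0.571 ≤ sy κ t := syL_ge h 1.05 1.1 1.0284 0.571 0.56496 0.56497 0.2897 0.29326 0.30724 hk1 hk2 (by linarith) (by norm_num) (by norm_num) (by norm_num)
    (expm_ge (by norm_num) (by norm_num) (by norm_num) (by norm_num)) (expm_le (by norm_num) (by norm_num) (by norm_num)) (by norm_num)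
    (by norm_num) (by norm_num) (by norm_num) (by norm_num) (by norm_num) (by norm_num)
  have hy2 : sy κ t ≤ -0.385 := syL_le h 1.05 1.1 0.71239 0.385 0.68045 0.68046 0.23815 0.24951 hk1 hk2 (by linarith) (by norm_num) (by norm_num) (by norm_num)
    (expm_ge (by norm_num) (by norm_num) (by norm_num) (by norm_num)) (expm_le (by norm_num) (by norm_num) (by norm_num)) (by norm_num)
    (by norm_num) (by norm_num) (by norm_num) (by norm_num) (by norm_num) (by norm_num)
  exact ⟨hy1, hy2⟩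

theorem innE {β r h t κ : ℝ} (hh : h = 2 * Real.pi / (3 : ℕ)) (hβ : 0 < β) (hr : 10 ≤ r) (hκ : κ = β * r)
    (hk1 : 1.05 ≤ κ) (hk2 : κ ≤ 1.1) (hT1 : 1.066 ≤ t + κ) (hT2 : t + κ ≤ 1.382) :
    ‖Xf β r h t (-1)‖ ≤ 0.00138 * ‖Xf β r h t 0‖ ∧ ‖Xf β r h (t + β) (-1)‖ ≤ 0.00158 * ‖Xf β r h t 0‖ := by
  obtain ⟨q1, q2, q3⟩ := b3_h hh
  have hR0 := b3_R0 hβ hr hκ
  have hR := b3_R hβ hr hκ (by linarith)
  have hD0 : DomR κ (t - h) := b3_dom (by linarith) (by linarith) (Or.inl (by linarith))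
  have hy := yI hD0 hk1 hk2 (by linarith) (by linarith)
  have hY : 0.6041 * Real.exp (r * 0.72396) ≤ ‖Xf β r h t 0‖ :=
    b3_lo hβ hr hκ (k := 0) (t' := t - h) (by push_cast; ring) hD0 0.165 3.649 0.6041 0.72396 (by norm_num)
      (T3_22_p0 hD0 hβ hk1 hk2 (by linarith) (by linarith) hR0 hR)
      (v5_Dup hD0 1.1 (-0.571) (-0.385) 1.77004 1.46962 3.649 hk2 hy.1 hy.2 (ex_up 0.571 (by norm_num) (by norm_num) (by norm_num) (by norm_num)) (ex_up 0.385 (by norm_num) (by norm_num) (by norm_num) (by norm_num)) (by norm_num) (by norm_num) (by norm_num)) (by norm_num) (by norm_num)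
      (b3_Vlo hD0 1.05 1.1 (-1.0284) (-0.71239) 1.68 0.5188 0.3144 0.95098 0.05027 0.72396 hk1 hk2 (by linarith) (by linarith) (by norm_num) (ex_lp 0.5188 (by norm_num) (by norm_num) (by norm_num)) (by norm_num) (by norm_num) (by norm_num) (by norm_num) (by norm_num) (by norm_num) (by norm_num) (by norm_num) (ex_um 0.05027 (by norm_num) (by norm_num) (by norm_num) (by norm_num)) (by norm_num))
  constructor
  · exact b3_cmp 1 0 0.001192 0.67396 0 0.001375 0.00138 hr ((b3_Xm hh).trans_le (b3_U1 1.05 1.1 3.16039 3.4764 0.48959 0.13232 0.74677 0.4701 0.00195 1.0813 0.057826 0.6965 hβ hr hκ (by norm_num) hk1 hk2 (by linarith) (by linarith) (by norm_num) (by norm_num) (by norm_num) (by norm_num) (by norm_num) (by norm_num) (by norm_num) (by norm_num) (by norm_num) (by norm_num) (by norm_num) (by norm_num) (by norm_num) (ex_un 4 0.701 (by norm_num) (by norm_num) (by norm_num) (by norm_num)) (v5_hump 0.3454 9.09 3.015 0.04331 0.057826 hβ hr hκ hk1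 hk2 (by norm_num) (tb := 3.4764) (by linarith) (by norm_num) (by norm_num) (by norm_num) (by norm_num) (by norm_num) (by norm_num) (by norm_num) (ex_un 3 0.1396 (by norm_num) (by norm_num) (by norm_num) (by norm_num)) (by norm_num)) (by norm_num))) hY (by norm_num) (by norm_num) (by norm_num) (by norm_num) (by norm_num) (by norm_num) (by norm_num) (by norm_num) (by norm_num) (ex_un 6 0.7396 (by norm_num) (by norm_num) (by norm_num) (by norm_num)) (by norm_num) (by norm_num)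
  · exact b3_cmp 1 0 0.001192 0.67396 0 0.001571 0.00158 hr ((b3_Xm hh).trans_le (b3_U1 1.05 1.1 3.16039 3.5864 0.48959 0.13232 0.74677 0.4701 0.00195 1.0813 0.157147 0.7958 hβ hr hκ (by norm_num) hk1 hk2 (by linarith) (by linarith) (by norm_num) (by norm_num) (by norm_num) (by norm_num) (by norm_num) (by norm_num) (by norm_num) (by norm_num) (by norm_num) (by norm_num) (by norm_num) (by norm_num) (by norm_num) (ex_un 4 0.701 (by norm_num) (by norm_num) (by norm_num) (by norm_num)) (v5_hump 0.2354 9.09 3.015 0.1177 0.157147 hβ hr hκ hk1 hk2 (by norm_num) (tb := 3.5864) (by linarith) (by norm_num) (by norm_num) (by norm_num) (by norm_num) (by norm_num) (by norm_num) (by norm_num) (ex_un 2 0.1397 (by norm_num) (by norm_num) (by norm_num) (by norm_num)) (by norm_num)) (by norm_num))) hY (by norm_num) (by norm_num) (by norm_num) (by norm_num) (by norm_num) (by norm_num) (by norm_num) (by norm_num) (by norm_num) (ex_un 6 0.7396 (by norm_num) (by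 norm_num) (by norm_num) (by norm_num)) (by norm_num) (by norm_num)

private theorem yA0 {κ t : ℝ} (h : DomR κ t) (hk1 : 1.05 ≤ κ) (hk2 : κ ≤ 1.1) (ht1 : 1.066 ≤ t + κ) (ht2 : t + κ ≤ 1.086) :
    0.395 ≤ sy κ t ∧ sy κ t ≤ 0.411 := by
  have hy1 : 0.395 ≤ sy κ t := syR_ge h 1.05 1.1 1.066 0.395 1.48438 1.48439 0.53302 0.55842 hk1 hk2 (by linarith) (by norm_num) (by norm_num)
    (expn_ge (by norm_num) (by norm_num)) (expn_le (by norm_num) (by norm_num) (by norm_num)) (by norm_num)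
    (by norm_num) (by norm_num) (by norm_num) (by norm_num) (by norm_num) (by norm_num)
  have hy2 : sy κ t ≤ 0.411 := syR_le h 1.05 1.1 1.086 0.411 1.50832 0.5568 0.56356 0.59041 hk1 hk2 (by linarith) (by norm_num) (by norm_num)
    (expn_ge (by norm_num) (by norm_num)) (by norm_num) (by norm_num) (Or.inr ((mul_le_mul_of_nonneg_left (expn_le (E := 1.50833) (by norm_num) (by norm_num) (by norm_num)) (by norm_num)).trans (by norm_num))) (by norm_num) (by norm_num) (by norm_num)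
  exact ⟨hy1, hy2⟩

private theorem yB0 {κ t : ℝ} (h : DomR κ t) (hk1 : 1.05 ≤ κ) (hk2 : κ ≤ 1.1) (ht1 : -1.0284 ≤ t + κ) (ht2 : t + κ ≤ -1.00839) :
    (-0.571) ≤ sy κ t ∧ sy κ t ≤ (-0.544) := by
  have hy1 : -0.571 ≤ sy κ t := syL_ge h 1.05 1.1 1.0284 0.571 0.56496 0.56497 0.2897 0.29326 0.30724 hk1 hk2 (by linarith) (by norm_num) (by norm_num) (by norm_num)
    (expm_ge (by norm_num) (by norm_num) (by norm_num) (by norm_num)) (expm_le (by norm_num) (by norm_num) (by norm_num)) (by norm_num)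
    (by norm_num) (by norm_num) (by norm_num) (by norm_num) (by norm_num) (by norm_num)
  have hy2 : sy κ t ≤ -0.544 := syL_le h 1.05 1.1 1.00839 0.544 0.58042 0.58043 0.28704 0.30072 hk1 hk2 (by linarith) (by norm_num) (by norm_num) (by norm_num)
    (expm_ge (by norm_num) (by norm_num) (by norm_num) (by norm_num)) (expm_le (by norm_num) (by norm_num) (by norm_num)) (by norm_num)
    (by norm_num) (by norm_num) (by norm_num) (by norm_num) (by norm_num) (by norm_num)
  exact ⟨hy1, hy2⟩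

theorem pc0 {β r h t κ : ℝ} (hh : h = 2 * Real.pi / (3 : ℕ)) (hβ : 0 < β) (hr : 10 ≤ r) (hκ : κ = β * r)
    (hk1 : 1.05 ≤ κ) (hk2 : κ ≤ 1.1) (hT1 : 1.066 ≤ t + κ) (hT2 : t + κ ≤ 1.086) :
    Xf β r h t 0 ≠ 0 ∧ r * 0.1664 ≤ (Ld β r h t 1 - Ld β r h t 0).im ∧
      ‖(((-1 : ℤ) : ℂ) - 1) * Ld β r h t 0 - ((-1 : ℤ) : ℂ) * Ld β r h t 1‖ ≤ r * 5.55 := by
  obtain ⟨q1, q2, q3⟩ := b3_h hh
  have hR0 := b3_R0 hβ hr hκ
  have hR := b3_R hβ hr hκ (by linarith)
  have hD1 : DomR κ t := b3_dom (by linarith) (by linarith) (Or.inl (by linarith))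
  have hD0 : DomR κ (t - h) := b3_dom (by linarith) (by linarith) (Or.inl (by linarith))
  have y1 := yA0 hD1 hk1 hk2 (by linarith) (by linarith)
  have y0 := yB0 hD0 hk1 hk2 (by linarith) (by linarith)
  have j1 := T3_22_d1_0 hD1 hβ hk1 hk2 (by linarith) (by linarith) hR0 hR
  exact b3_piece 1.05 1.1 0.395 0.411 0.403 0.66831 0.67369 0.66299 0.7411 2.2902 2.3539 0.1 0.15 0.15 1.7648 0.8643 0 0 (-0.571) (-0.544) (-0.557) 1.74542 1.77004 1.9471 3.1834 0.08 0.295 0.165 4.4162 4.8194 0 0 0.1664 5.55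
    hβ hr hκ (by norm_num) hk1 hk2 hD1 hD0 j1 (j1 _ (by rw [sub_self, norm_zero]; norm_num))
    (T3_22_d0_0 hD0 hβ hk1 hk2 (by linarith) (by linarith) hR0 hR)
    (T3_22_p0 hD0 hβ hk1 hk2 (by linarith) (by linarith) hR0 hR)
    y1.1 y1.2 y0.1 y0.2 (by norm_num)
    (ex_um 0.395 (by norm_num) (by norm_num) (by norm_num) (by norm_num)) (ex_um 0.411 (by norm_num) (by norm_num) (by norm_num) (by norm_num)) (ex_lm 0.403 (by norm_num) (by norm_num) (by norm_num) (by norm_num) (by norm_num)) (by norm_num) (by norm_num) (by norm_num) (by norm_num) (by norm_num) (by norm_num) (by norm_num) (by norm_num)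
    (by norm_num) (by norm_num) (by norm_num) (by norm_num) (by norm_num) (by norm_num) (by norm_num) (by norm_num) (by norm_num) (by norm_num)
    (ex_up 0.571 (by norm_num) (by norm_num) (by norm_num) (by norm_num)) (ex_lp 0.557 (by norm_num) (by norm_num) (by norm_num)) (by norm_num) (by norm_num) (by norm_num) (by norm_num) (by norm_num) (by norm_num)
    (by norm_num) (by norm_num) (by norm_num) (by norm_num) (by norm_num) (by norm_num) (by norm_num) (by norm_num) (by norm_num) (by norm_num) (by norm_num)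
    (by norm_num) (by norm_num) (by norm_num) (by norm_num)

private theorem yA1 {κ t : ℝ} (h : DomR κ t) (hk1 : 1.05 ≤ κ) (hk2 : κ ≤ 1.1) (ht1 : 1.086 ≤ t + κ) (ht2 : t + κ ≤ 1.106) :
    0.4 ≤ sy κ t ∧ sy κ t ≤ 0.416 := by
  have hy1 : 0.4 ≤ sy κ t := syR_ge h 1.05 1.1 1.086 0.4 1.49182 1.49183 0.54247 0.56832 hk1 hk2 (by linarith) (by norm_num) (by norm_num)
    (expn_ge (by norm_num) (by norm_num)) (expn_le (by norm_num) (by norm_num) (by norm_num)) (by norm_num)
    (by norm_num) (by norm_num) (by norm_num) (by norm_num) (by norm_num) (by norm_num)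
  have hy2 : sy κ t ≤ 0.416 := syR_le h 1.05 1.1 1.106 0.416 1.51588 0.5664 0.57327 0.60059 hk1 hk2 (by linarith) (by norm_num) (by norm_num)
    (expn_ge (by norm_num) (by norm_num)) (by norm_num) (by norm_num) (Or.inr ((mul_le_mul_of_nonneg_left (expn_le (E := 1.51589) (by norm_num) (by norm_num) (by norm_num)) (by norm_num)).trans (by norm_num))) (by norm_num) (by norm_num) (by norm_num)
  exact ⟨hy1, hy2⟩

private theorem yB1 {κ t : ℝ} (h : DomR κ t) (hk1 : 1.05 ≤ κ) (hk2 : κ ≤ 1.1) (ht1 : -1.0084 ≤ t + κ) (ht2 : t + κ ≤ -0.98839) :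
    (-0.56) ≤ sy κ t ∧ sy κ t ≤ (-0.534) := by
  have hy1 : -0.56 ≤ sy κ t := syL_ge h 1.05 1.1 1.0084 0.56 0.5712 0.57122 0.2896 0.29079 0.30466 hk1 hk2 (by linarith) (by norm_num) (by norm_num) (by norm_num)
    (expm_ge (by norm_num) (by norm_num) (by norm_num) (by norm_num)) (expm_le (by norm_num) (by norm_num) (by norm_num)) (by norm_num)
    (by norm_num) (by norm_num) (by norm_num) (by norm_num) (by norm_num) (by norm_num)
  have hy2 : sy κ t ≤ -0.534 := syL_le h 1.05 1.1 0.98839 0.534 0.58625 0.58626 0.28459 0.29816 hk1 hk2 (by linarith) (by norm_num) (by norm_num) (by norm_num)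
    (expm_ge (by norm_num) (by norm_num) (by norm_num) (by norm_num)) (expm_le (by norm_num) (by norm_num) (by norm_num)) (by norm_num)
    (by norm_num) (by norm_num) (by norm_num) (by norm_num) (by norm_num) (by norm_num)
  exact ⟨hy1, hy2⟩

theorem pc1 {β r h t κ : ℝ} (hh : h = 2 * Real.pi / (3 : ℕ)) (hβ : 0 < β) (hr : 10 ≤ r) (hκ : κ = β * r)
    (hk1 : 1.05 ≤ κ) (hk2 : κ ≤ 1.1) (hT1 : 1.086 ≤ t + κ) (hT2 : t + κ ≤ 1.106) :
    Xf β r h t 0 ≠ 0 ∧ r * 0.1664 ≤ (Ld β r h t 1 - Ld β r h t 0).im ∧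
      ‖(((-1 : ℤ) : ℂ) - 1) * Ld β r h t 0 - ((-1 : ℤ) : ℂ) * Ld β r h t 1‖ ≤ r * 5.55 := by
  obtain ⟨q1, q2, q3⟩ := b3_h hh
  have hR0 := b3_R0 hβ hr hκ
  have hR := b3_R hβ hr hκ (by linarith)
  have hD1 : DomR κ t := b3_dom (by linarith) (by linarith) (Or.inl (by linarith))
  have hD0 : DomR κ (t - h) := b3_dom (by linarith) (by linarith) (Or.inl (by linarith))
  have y1 := yA1 hD1 hk1 hk2 (by linarith) (by linarith)
  have y0 := yB1 hD0 hk1 hk2 (by linarith) (by linarith)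
  have j1 := T3_22_d1_0 hD1 hβ hk1 hk2 (by linarith) (by linarith) hR0 hR
  exact b3_piece 1.05 1.1 0.4 0.416 0.408 0.66497 0.67033 0.65969 0.7374 2.2953 2.3586 0.1 0.15 0.15 1.7648 0.859 0 0 (-0.56) (-0.534) (-0.547) 1.72805 1.75068 1.9258 3.1386 0.08 0.295 0.165 4.4162 4.8006 0 0 0.1664 5.55
    hβ hr hκ (by norm_num) hk1 hk2 hD1 hD0 j1 (j1 _ (by rw [sub_self, norm_zero]; norm_num))
    (T3_22_d0_0 hD0 hβ hk1 hk2 (by linarith) (by linarith) hR0 hR)
    (T3_22_p0 hD0 hβ hk1 hk2 (by linarith) (by linarith) hR0 hR)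
    y1.1 y1.2 y0.1 y0.2 (by norm_num)
    (ex_um 0.4 (by norm_num) (by norm_num) (by norm_num) (by norm_num)) (ex_um 0.416 (by norm_num) (by norm_num) (by norm_num) (by norm_num)) (ex_lm 0.408 (by norm_num) (by norm_num) (by norm_num) (by norm_num) (by norm_num)) (by norm_num) (by norm_num) (by norm_num) (by norm_num) (by norm_num) (by norm_num) (by norm_num) (by norm_num)
    (by norm_num) (by norm_num) (by norm_num) (by norm_num) (by norm_num) (by norm_num) (by norm_num) (by norm_num) (by norm_num) (by norm_num)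
    (ex_up 0.56 (by norm_num) (by norm_num) (by norm_num) (by norm_num)) (ex_lp 0.547 (by norm_num) (by norm_num) (by norm_num)) (by norm_num) (by norm_num) (by norm_num) (by norm_num) (by norm_num) (by norm_num)
    (by norm_num) (by norm_num) (by norm_num) (by norm_num) (by norm_num) (by norm_num) (by norm_num) (by norm_num) (by norm_num) (by norm_num) (by norm_num)
    (by norm_num) (by norm_num) (by norm_num) (by norm_num)

private theorem yA2 {κ t : ℝ} (h : DomR κ t) (hk1 : 1.05 ≤ κ) (hk2 : κ ≤ 1.1) (ht1 : 1.106 ≤ t + κ) (ht2 : t + κ ≤ 1.133) :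
    0.405 ≤ sy κ t ∧ sy κ t ≤ 0.423 := by
  have hy1 : 0.405 ≤ sy κ t := syR_ge h 1.05 1.1 1.106 0.405 1.4993 1.49931 0.55201 0.57831 hk1 hk2 (by linarith) (by norm_num) (by norm_num)
    (expn_ge (by norm_num) (by norm_num)) (expn_le (by norm_num) (by norm_num) (by norm_num)) (by norm_num)
    (by norm_num) (by norm_num) (by norm_num) (by norm_num) (by norm_num) (by norm_num)
  have hy2 : sy κ t ≤ 0.423 := syR_le h 1.05 1.1 1.133 0.423 1.52653 0.58 0.58702 0.61498 hk1 hk2 (by linarith) (by norm_num) (by norm_num)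
    (expn_ge (by norm_num) (by norm_num)) (by norm_num) (by norm_num) (Or.inr ((mul_le_mul_of_nonneg_left (expn_le (E := 1.52654) (by norm_num) (by norm_num) (by norm_num)) (by norm_num)).trans (by norm_num))) (by norm_num) (by norm_num) (by norm_num)
  exact ⟨hy1, hy2⟩

private theorem yB2 {κ t : ℝ} (h : DomR κ t) (hk1 : 1.05 ≤ κ) (hk2 : κ ≤ 1.1) (ht1 : -0.9884 ≤ t + κ) (ht2 : t + κ ≤ -0.96139) :
    (-0.549) ≤ sy κ t ∧ sy κ t ≤ (-0.52) := by
  have hy1 : -0.549 ≤ sy κ t := syL_ge h 1.05 1.1 0.9884 0.549 0.57752 0.57753 0.2916 0.28823 0.30197 hk1 hk2 (by linarith) (by norm_num) (by norm_num) (by norm_num)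
    (expm_ge (by norm_num) (by norm_num) (by norm_num) (by norm_num)) (expm_le (by norm_num) (by norm_num) (by norm_num)) (by norm_num)
    (by norm_num) (by norm_num) (by norm_num) (by norm_num) (by norm_num) (by norm_num)
  have hy2 : sy κ t ≤ -0.52 := syL_le h 1.05 1.1 0.96139 0.52 0.59452 0.59453 0.28104 0.29444 hk1 hk2 (by linarith) (by norm_num) (by norm_num) (by norm_num)
    (expm_ge (by norm_num) (by norm_num) (by norm_num) (by norm_num)) (expm_le (by norm_num) (by norm_num) (by norm_num)) (by norm_num)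
    (by norm_num) (by norm_num) (by norm_num) (by norm_num) (by norm_num) (by norm_num)
  exact ⟨hy1, hy2⟩

theorem pc2 {β r h t κ : ℝ} (hh : h = 2 * Real.pi / (3 : ℕ)) (hβ : 0 < β) (hr : 10 ≤ r) (hκ : κ = β * r)
    (hk1 : 1.05 ≤ κ) (hk2 : κ ≤ 1.1) (hT1 : 1.106 ≤ t + κ) (hT2 : t + κ ≤ 1.133) :
    Xf β r h t 0 ≠ 0 ∧ r * 0.1664 ≤ (Ld β r h t 1 - Ld β r h t 0).im ∧
      ‖(((-1 : ℤ) : ℂ) - 1) * Ld β r h t 0 - ((-1 : ℤ) : ℂ) * Ld β r h t 1‖ ≤ r * 5.55 := by
  obtain ⟨q1, q2, q3⟩ := b3_h hh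
  have hR0 := b3_R0 hβ hr hκ
  have hR := b3_R hβ hr hκ (by linarith)
  have hD1 : DomR κ t := b3_dom (by linarith) (by linarith) (Or.inl (by linarith))
  have hD0 : DomR κ (t - h) := b3_dom (by linarith) (by linarith) (Or.inl (by linarith))
  have y1 := yA2 hD1 hk1 hk2 (by linarith) (by linarith)
  have y0 := yB2 hD0 hk1 hk2 (by linarith) (by linarith)
  have j1 := T3_22_d1_1 hD1 hβ hk1 hk2 (by linarith) (by linarith) hR0 hR
  exact b3_piece 1.05 1.1 0.405 0.423 0.414 0.661 0.66698 0.65508 0.7337 2.3003 2.3653 0.08 0.15 0.15 2.2059 1.0672 0 0 (-0.549) (-0.52) (-0.534) 1.70573 1.73153 1.9047 3.0779 0.08 0.28 0.165 4.1917 4.5509 0 0 0.1664 5.55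
    hβ hr hκ (by norm_num) hk1 hk2 hD1 hD0 j1 (j1 _ (by rw [sub_self, norm_zero]; norm_num))
    (T3_22_d0_1 hD0 hβ hk1 hk2 (by linarith) (by linarith) hR0 hR)
    (T3_22_p0 hD0 hβ hk1 hk2 (by linarith) (by linarith) hR0 hR)
    y1.1 y1.2 y0.1 y0.2 (by norm_num)
    (ex_um 0.405 (by norm_num) (by norm_num) (by norm_num) (by norm_num)) (ex_um 0.423 (by norm_num) (by norm_num) (by norm_num) (by norm_num)) (ex_lm 0.414 (by norm_num) (by norm_num) (by norm_num) (by norm_num) (by norm_num)) (by norm_num) (by norm_num) (by norm_num) (by norm_num) (by norm_num) (by norm_num) (by norm_num) (by norm_num)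
    (by norm_num) (by norm_num) (by norm_num) (by norm_num) (by norm_num) (by norm_num) (by norm_num) (by norm_num) (by norm_num) (by norm_num)
    (ex_up 0.549 (by norm_num) (by norm_num) (by norm_num) (by norm_num)) (ex_lp 0.534 (by norm_num) (by norm_num) (by norm_num)) (by norm_num) (by norm_num) (by norm_num) (by norm_num) (by norm_num) (by norm_num)
    (by norm_num) (by norm_num) (by norm_num) (by norm_num) (by norm_num) (by norm_num) (by norm_num) (by norm_num) (by norm_num) (by norm_num) (by norm_num)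
    (by norm_num) (by norm_num) (by norm_num) (by norm_num)

private theorem yA3 {κ t : ℝ} (h : DomR κ t) (hk1 : 1.05 ≤ κ) (hk2 : κ ≤ 1.1) (ht1 : 1.133 ≤ t + κ) (ht2 : t + κ ≤ 1.159) :
    0.411 ≤ sy κ t ∧ sy κ t ≤ 0.43 := by
  have hy1 : 0.411 ≤ sy κ t := syR_ge h 1.05 1.1 1.133 0.411 1.50832 1.50833 0.56356 0.59041 hk1 hk2 (by linarith) (by norm_num) (by norm_num)
    (expn_ge (by norm_num) (by norm_num)) (expn_le (by norm_num) (by norm_num) (by norm_num)) (by norm_num)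
    (by norm_num) (by norm_num) (by norm_num) (by norm_num) (by norm_num) (by norm_num)
  have hy2 : sy κ t ≤ 0.43 := syR_le h 1.05 1.1 1.159 0.43 1.53725 0.5937 0.60092 0.62955 hk1 hk2 (by linarith) (by norm_num) (by norm_num)
    (expn_ge (by norm_num) (by norm_num)) (by norm_num) (by norm_num) (Or.inr ((mul_le_mul_of_nonneg_left (expn_le (E := 1.53726) (by norm_num) (by norm_num) (by norm_num)) (by norm_num)).trans (by norm_num))) (by norm_num) (by norm_num) (by norm_num)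
  exact ⟨hy1, hy2⟩

private theorem yB3 {κ t : ℝ} (h : DomR κ t) (hk1 : 1.05 ≤ κ) (hk2 : κ ≤ 1.1) (ht1 : -0.9614 ≤ t + κ) (ht2 : t + κ ≤ -0.93539) :
    (-0.535) ≤ sy κ t ∧ sy κ t ≤ (-0.506) := by
  have hy1 : -0.535 ≤ sy κ t := syL_ge h 1.05 1.1 0.9614 0.535 0.58566 0.58568 0.2814 0.28484 0.29842 hk1 hk2 (by linarith) (by norm_num) (by norm_num) (by norm_num)
    (expm_ge (by norm_num) (by norm_num) (by norm_num) (by norm_num)) (expm_le (by norm_num) (by norm_num) (by norm_num)) (by norm_num)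
    (by norm_num) (by norm_num) (by norm_num) (by norm_num) (by norm_num) (by norm_num)
  have hy2 : sy κ t ≤ -0.506 := syL_le h 1.05 1.1 0.93539 0.506 0.6029 0.60291 0.27733 0.29055 hk1 hk2 (by linarith) (by norm_num) (by norm_num) (by norm_num)
    (expm_ge (by norm_num) (by norm_num) (by norm_num) (by norm_num)) (expm_le (by norm_num) (by norm_num) (by norm_num)) (by norm_num)
    (by norm_num) (by norm_num) (by norm_num) (by norm_num) (by norm_num) (by norm_num)
  exact ⟨hy1, hy2⟩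

theorem pc3 {β r h t κ : ℝ} (hh : h = 2 * Real.pi / (3 : ℕ)) (hβ : 0 < β) (hr : 10 ≤ r) (hκ : κ = β * r)
    (hk1 : 1.05 ≤ κ) (hk2 : κ ≤ 1.1) (hT1 : 1.133 ≤ t + κ) (hT2 : t + κ ≤ 1.159) :
    Xf β r h t 0 ≠ 0 ∧ r * 0.1664 ≤ (Ld β r h t 1 - Ld β r h t 0).im ∧
      ‖(((-1 : ℤ) : ℂ) - 1) * Ld β r h t 0 - ((-1 : ℤ) : ℂ) * Ld β r h t 1‖ ≤ r * 5.55 := by
  obtain ⟨q1, q2, q3⟩ := b3_h hh
  have hR0 := b3_R0 hβ hr hκ
  have hR := b3_R hβ hr hκ (by linarith)
  have hD1 : DomR κ t := b3_dom (by linarith) (by linarith) (Or.inl (by linarith))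
  have hD0 : DomR κ (t - h) := b3_dom (by linarith) (by linarith) (Or.inl (by linarith))
  have y1 := yA3 hD1 hk1 hk2 (by linarith) (by linarith)
  have y0 := yB3 hD0 hk1 hk2 (by linarith) (by linarith)
  have j1 := T3_22_d1_1 hD1 hβ hk1 hk2 (by linarith) (by linarith) hR0 hR
  exact b3_piece 1.05 1.1 0.411 0.43 0.42 0.65704 0.66299 0.65051 0.7293 2.3065 2.3721 0.08 0.15 0.15 2.2059 1.0593 0 0 (-0.535) (-0.506) (-0.52) 1.68202 1.70745 1.8782 3.0198 0.08 0.28 0.165 4.1917 4.5305 0 0 0.1664 5.55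
    hβ hr hκ (by norm_num) hk1 hk2 hD1 hD0 j1 (j1 _ (by rw [sub_self, norm_zero]; norm_num))
    (T3_22_d0_1 hD0 hβ hk1 hk2 (by linarith) (by linarith) hR0 hR)
    (T3_22_p0 hD0 hβ hk1 hk2 (by linarith) (by linarith) hR0 hR)
    y1.1 y1.2 y0.1 y0.2 (by norm_num)
    (ex_um 0.411 (by norm_num) (by norm_num) (by norm_num) (by norm_num)) (ex_um 0.43 (by norm_num) (by norm_num) (by norm_num) (by norm_num)) (ex_lm 0.42 (by norm_num) (by norm_num) (by norm_num) (by norm_num) (by norm_num)) (by norm_num) (by norm_num) (by norm_num) (by norm_num) (by norm_num) (by norm_num) (by norm_num) (by norm_num)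
    (by norm_num) (by norm_num) (by norm_num) (by norm_num) (by norm_num) (by norm_num) (by norm_num) (by norm_num) (by norm_num) (by norm_num)
    (ex_up 0.535 (by norm_num) (by norm_num) (by norm_num) (by norm_num)) (ex_lp 0.52 (by norm_num) (by norm_num) (by norm_num)) (by norm_num) (by norm_num) (by norm_num) (by norm_num) (by norm_num) (by norm_num)
    (by norm_num) (by norm_num) (by norm_num) (by norm_num) (by norm_num) (by norm_num) (by norm_num) (by norm_num) (by norm_num) (by norm_num) (by norm_num)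
    (by norm_num) (by norm_num) (by norm_num) (by norm_num)

private theorem yA4 {κ t : ℝ} (h : DomR κ t) (hk1 : 1.05 ≤ κ) (hk2 : κ ≤ 1.1) (ht1 : 1.159 ≤ t + κ) (ht2 : t + κ ≤ 1.186) :
    0.418 ≤ sy κ t ∧ sy κ t ≤ 0.436 := by
  have hy1 : 0.418 ≤ sy κ t := syR_ge h 1.05 1.1 1.159 0.418 1.51892 1.51893 0.57718 0.60468 hk1 hk2 (by linarith) (by norm_num) (by norm_num)
    (expn_ge (by norm_num) (by norm_num)) (expn_le (by norm_num) (by norm_num) (by norm_num)) (by norm_num)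
    (by norm_num) (by norm_num) (by norm_num) (by norm_num) (by norm_num) (by norm_num)
  have hy2 : sy κ t ≤ 0.436 := syR_le h 1.05 1.1 1.186 0.436 1.5465 0.6056 0.61297 0.64217 hk1 hk2 (by linarith) (by norm_num) (by norm_num)
    (expn_ge (by norm_num) (by norm_num)) (by norm_num) (by norm_num) (Or.inr ((mul_le_mul_of_nonneg_left (expn_le (E := 1.54651) (by norm_num) (by norm_num) (by norm_num)) (by norm_num)).trans (by norm_num))) (by norm_num) (by norm_num) (by norm_num)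
  exact ⟨hy1, hy2⟩

private theorem yB4 {κ t : ℝ} (h : DomR κ t) (hk1 : 1.05 ≤ κ) (hk2 : κ ≤ 1.1) (ht1 : -0.9354 ≤ t + κ) (ht2 : t + κ ≤ -0.90839) :
    (-0.52) ≤ sy κ t ∧ sy κ t ≤ (-0.492) := by
  have hy1 : -0.52 ≤ sy κ t := syL_ge h 1.05 1.1 0.9354 0.52 0.59452 0.59453 0.2866 0.28104 0.29444 hk1 hk2 (by linarith) (by norm_num) (by norm_num) (by norm_num)
    (expm_ge (by norm_num) (by norm_num) (by norm_num) (by norm_num)) (expm_le (by norm_num) (by norm_num) (by norm_num)) (by norm_num)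
    (by norm_num) (by norm_num) (by norm_num) (by norm_num) (by norm_num) (by norm_num)
  have hy2 : sy κ t ≤ -0.492 := syL_le h 1.05 1.1 0.90839 0.492 0.6114 0.61141 0.27346 0.28649 hk1 hk2 (by linarith) (by norm_num) (by norm_num) (by norm_num)
    (expm_ge (by norm_num) (by norm_num) (by norm_num) (by norm_num)) (expm_le (by norm_num) (by norm_num) (by norm_num)) (by norm_num)
    (by norm_num) (by norm_num) (by norm_num) (by norm_num) (by norm_num) (by norm_num)
  exact ⟨hy1, hy2⟩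

theorem pc4 {β r h t κ : ℝ} (hh : h = 2 * Real.pi / (3 : ℕ)) (hβ : 0 < β) (hr : 10 ≤ r) (hκ : κ = β * r)
    (hk1 : 1.05 ≤ κ) (hk2 : κ ≤ 1.1) (hT1 : 1.159 ≤ t + κ) (hT2 : t + κ ≤ 1.186) :
    Xf β r h t 0 ≠ 0 ∧ r * 0.1664 ≤ (Ld β r h t 1 - Ld β r h t 0).im ∧
      ‖(((-1 : ℤ) : ℂ) - 1) * Ld β r h t 0 - ((-1 : ℤ) : ℂ) * Ld β r h t 1‖ ≤ r * 5.55 := by
  obtain ⟨q1, q2, q3⟩ := b3_h hh
  have hR0 := b3_R0 hβ hr hκ
  have hR := b3_R hβ hr hκ (by linarith)
  have hD1 : DomR κ t := b3_dom (by linarith) (by linarith) (Or.inl (by linarith))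
  have hD0 : DomR κ (t - h) := b3_dom (by linarith) (by linarith) (Or.inl (by linarith))
  have y1 := yA4 hD1 hk1 hk2 (by linarith) (by linarith)
  have y0 := yB4 hD0 hk1 hk2 (by linarith) (by linarith)
  have j1 := T3_22_d1_1 hD1 hβ hk1 hk2 (by linarith) (by linarith) hR0 hR
  exact b3_piece 1.05 1.1 0.418 0.436 0.427 0.65246 0.65837 0.64662 0.7243 2.3137 2.378 0.08 0.15 0.15 2.2059 1.0504 0 0 (-0.52) (-0.492) (-0.506) 1.65864 1.68203 1.8503 2.9641 0.08 0.28 0.165 4.1917 4.505 0 0 0.1664 5.55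
    hβ hr hκ (by norm_num) hk1 hk2 hD1 hD0 j1 (j1 _ (by rw [sub_self, norm_zero]; norm_num))
    (T3_22_d0_1 hD0 hβ hk1 hk2 (by linarith) (by linarith) hR0 hR)
    (T3_22_p0 hD0 hβ hk1 hk2 (by linarith) (by linarith) hR0 hR)
    y1.1 y1.2 y0.1 y0.2 (by norm_num)
    (ex_um 0.418 (by norm_num) (by norm_num) (by norm_num) (by norm_num)) (ex_um 0.436 (by norm_num) (by norm_num) (by norm_num) (by norm_num)) (ex_lm 0.427 (by norm_num) (by norm_num) (by norm_num) (by norm_num) (by norm_num)) (by norm_num) (by norm_num) (by norm_num) (by norm_num) (by norm_num) (by norm_num) (by norm_num) (by norm_num)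
    (by norm_num) (by norm_num) (by norm_num) (by norm_num) (by norm_num) (by norm_num) (by norm_num) (by norm_num) (by norm_num) (by norm_num)
    (ex_up 0.52 (by norm_num) (by norm_num) (by norm_num) (by norm_num)) (ex_lp 0.506 (by norm_num) (by norm_num) (by norm_num)) (by norm_num) (by norm_num) (by norm_num) (by norm_num) (by norm_num) (by norm_num)
    (by norm_num) (by norm_num) (by norm_num) (by norm_num) (by norm_num) (by norm_num) (by norm_num) (by norm_num) (by norm_num) (by norm_num) (by norm_num)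
    (by norm_num) (by norm_num) (by norm_num) (by norm_num)

private theorem yA5 {κ t : ℝ} (h : DomR κ t) (hk1 : 1.05 ≤ κ) (hk2 : κ ≤ 1.1) (ht1 : 1.186 ≤ t + κ) (ht2 : t + κ ≤ 1.214) :
    0.424 ≤ sy κ t ∧ sy κ t ≤ 0.443 := by
  have hy1 : 0.424 ≤ sy κ t := syR_ge h 1.05 1.1 1.186 0.424 1.52806 1.52807 0.58899 0.61705 hk1 hk2 (by linarith) (by norm_num) (by norm_num)
    (expn_ge (by norm_num) (by norm_num)) (expn_le (by norm_num) (by norm_num) (by norm_num)) (by norm_num)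
    (by norm_num) (by norm_num) (by norm_num) (by norm_num) (by norm_num) (by norm_num)
  have hy2 : sy κ t ≤ 0.443 := syR_le h 1.05 1.1 1.214 0.443 1.55737 0.6197 0.62719 0.65707 hk1 hk2 (by linarith) (by norm_num) (by norm_num)
    (expn_ge (by norm_num) (by norm_num)) (by norm_num) (by norm_num) (Or.inr ((mul_le_mul_of_nonneg_left (expn_le (E := 1.55738) (by norm_num) (by norm_num) (by norm_num)) (by norm_num)).trans (by norm_num))) (by norm_num) (by norm_num) (by norm_num)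
  exact ⟨hy1, hy2⟩

private theorem yB5 {κ t : ℝ} (h : DomR κ t) (hk1 : 1.05 ≤ κ) (hk2 : κ ≤ 1.1) (ht1 : -0.9084 ≤ t + κ) (ht2 : t + κ ≤ -0.88039) :
    (-0.506) ≤ sy κ t ∧ sy κ t ≤ (-0.477) := by
  have hy1 : -0.506 ≤ sy κ t := syL_ge h 1.05 1.1 0.9084 0.506 0.6029 0.60291 0.274 0.27733 0.29055 hk1 hk2 (by linarith) (by norm_num) (by norm_num) (by norm_num)
    (expm_ge (by norm_num) (by norm_num) (by norm_num) (by norm_num)) (expm_le (by norm_num) (by norm_num) (by norm_num)) (by norm_num)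
    (by norm_num) (by norm_num) (by norm_num) (by norm_num) (by norm_num) (by norm_num)
  have hy2 : sy κ t ≤ -0.477 := syL_le h 1.05 1.1 0.88039 0.477 0.62064 0.62065 0.26913 0.28196 hk1 hk2 (by linarith) (by norm_num) (by norm_num) (by norm_num)
    (expm_ge (by norm_num) (by norm_num) (by norm_num) (by norm_num)) (expm_le (by norm_num) (by norm_num) (by norm_num)) (by norm_num)
    (by norm_num) (by norm_num) (by norm_num) (by norm_num) (by norm_num) (by norm_num)
  exact ⟨hy1, hy2⟩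

theorem pc5 {β r h t κ : ℝ} (hh : h = 2 * Real.pi / (3 : ℕ)) (hβ : 0 < β) (hr : 10 ≤ r) (hκ : κ = β * r)
    (hk1 : 1.05 ≤ κ) (hk2 : κ ≤ 1.1) (hT1 : 1.186 ≤ t + κ) (hT2 : t + κ ≤ 1.214) :
    Xf β r h t 0 ≠ 0 ∧ r * 0.1664 ≤ (Ld β r h t 1 - Ld β r h t 0).im ∧
      ‖(((-1 : ℤ) : ℂ) - 1) * Ld β r h t 0 - ((-1 : ℤ) : ℂ) * Ld β r h t 1‖ ≤ r * 5.55 := by
  obtain ⟨q1, q2, q3⟩ := b3_h hh
  have hR0 := b3_R0 hβ hr hκ
  have hR := b3_R hβ hr hκ (by linarith)
  have hD1 : DomR κ t := b3_dom (by linarith) (by linarith) (Or.inl (by linarith))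
  have hD0 : DomR κ (t - h) := b3_dom (by linarith) (by linarith) (Or.inl (by linarith))
  have y1 := yA5 hD1 hk1 hk2 (by linarith) (by linarith)
  have y0 := yB5 hD0 hk1 hk2 (by linarith) (by linarith)
  have j1 := T3_22_d1_2 hD1 hβ hk1 hk2 (by linarith) (by linarith) hR0 hR
  exact b3_piece 1.05 1.1 0.424 0.443 0.433 0.64856 0.65443 0.64211 0.7199 2.32 2.3849 0.04 0.17 0.17 5.1205 2.4202 0 0 (-0.506) (-0.477) (-0.491) 1.63394 1.65865 1.8246 2.9069 0.1 0.3 0.165 3.5929 3.8451 0 0 0.1664 5.55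
    hβ hr hκ (by norm_num) hk1 hk2 hD1 hD0 j1 (j1 _ (by rw [sub_self, norm_zero]; norm_num))
    (T3_22_d0_2 hD0 hβ hk1 hk2 (by linarith) (by linarith) hR0 hR)
    (T3_22_p0 hD0 hβ hk1 hk2 (by linarith) (by linarith) hR0 hR)
    y1.1 y1.2 y0.1 y0.2 (by norm_num)
    (ex_um 0.424 (by norm_num) (by norm_num) (by norm_num) (by norm_num)) (ex_um 0.443 (by norm_num) (by norm_num) (by norm_num) (by norm_num)) (ex_lm 0.433 (by norm_num) (by norm_num) (by norm_num) (by norm_num) (by norm_num)) (by norm_num) (by norm_num) (by norm_num) (by norm_num) (by norm_num) (by norm_num) (by norm_num) (by norm_num)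
    (by norm_num) (by norm_num) (by norm_num) (by norm_num) (by norm_num) (by norm_num) (by norm_num) (by norm_num) (by norm_num) (by norm_num)
    (ex_up 0.506 (by norm_num) (by norm_num) (by norm_num) (by norm_num)) (ex_lp 0.491 (by norm_num) (by norm_num) (by norm_num)) (by norm_num) (by norm_num) (by norm_num) (by norm_num) (by norm_num) (by norm_num)
    (by norm_num) (by norm_num) (by norm_num) (by norm_num) (by norm_num) (by norm_num) (by norm_num) (by norm_num) (by norm_num) (by norm_num) (by norm_num)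
    (by norm_num) (by norm_num) (by norm_num) (by norm_num)

private theorem yA6 {κ t : ℝ} (h : DomR κ t) (hk1 : 1.05 ≤ κ) (hk2 : κ ≤ 1.1) (ht1 : 1.214 ≤ t + κ) (ht2 : t + κ ≤ 1.242) :
    0.43 ≤ sy κ t ∧ sy κ t ≤ 0.45 := by
  have hy1 : 0.43 ≤ sy κ t := syR_ge h 1.05 1.1 1.214 0.43 1.53725 1.53726 0.60092 0.62955 hk1 hk2 (by linarith) (by norm_num) (by norm_num)
    (expn_ge (by norm_num) (by norm_num)) (expn_le (by norm_num) (by norm_num) (by norm_num)) (by norm_num)
    (by norm_num) (by norm_num) (by norm_num) (by norm_num) (by norm_num) (by norm_num)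
  have hy2 : sy κ t ≤ 0.45 := syR_le h 1.05 1.1 1.242 0.45 1.56831 0.6339 0.64158 0.67214 hk1 hk2 (by linarith) (by norm_num) (by norm_num)
    (expn_ge (by norm_num) (by norm_num)) (by norm_num) (by norm_num) (Or.inr ((mul_le_mul_of_nonneg_left (expn_le (E := 1.56832) (by norm_num) (by norm_num) (by norm_num)) (by norm_num)).trans (by norm_num))) (by norm_num) (by norm_num) (by norm_num)
  exact ⟨hy1, hy2⟩

private theorem yB6 {κ t : ℝ} (h : DomR κ t) (hk1 : 1.05 ≤ κ) (hk2 : κ ≤ 1.1) (ht1 : -0.8804 ≤ t + κ) (ht2 : t + κ ≤ -0.85239) :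
    (-0.49) ≤ sy κ t ∧ sy κ t ≤ (-0.462) := by
  have hy1 : -0.49 ≤ sy κ t := syL_ge h 1.05 1.1 0.8804 0.49 0.61262 0.61263 0.2696 0.27289 0.2859 hk1 hk2 (by linarith) (by norm_num) (by norm_num) (by norm_num)
    (expm_ge (by norm_num) (by norm_num) (by norm_num) (by norm_num)) (expm_le (by norm_num) (by norm_num) (by norm_num)) (by norm_num)
    (by norm_num) (by norm_num) (by norm_num) (by norm_num) (by norm_num) (by norm_num)
  have hy2 : sy κ t ≤ -0.462 := syL_le h 1.05 1.1 0.85239 0.462 0.63002 0.63003 0.2646 0.27722 hk1 hk2 (by linarith) (by norm_num) (by norm_num) (by norm_num)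
    (expm_ge (by norm_num) (by norm_num) (by norm_num) (by norm_num)) (expm_le (by norm_num) (by norm_num) (by norm_num)) (by norm_num)
    (by norm_num) (by norm_num) (by norm_num) (by norm_num) (by norm_num) (by norm_num)
  exact ⟨hy1, hy2⟩

theorem pc6 {β r h t κ : ℝ} (hh : h = 2 * Real.pi / (3 : ℕ)) (hβ : 0 < β) (hr : 10 ≤ r) (hκ : κ = β * r)
    (hk1 : 1.05 ≤ κ) (hk2 : κ ≤ 1.1) (hT1 : 1.214 ≤ t + κ) (hT2 : t + κ ≤ 1.242) :
    Xf β r h t 0 ≠ 0 ∧ r * 0.1664 ≤ (Ld β r h t 1 - Ld β r h t 0).im ∧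
      ‖(((-1 : ℤ) : ℂ) - 1) * Ld β r h t 0 - ((-1 : ℤ) : ℂ) * Ld β r h t 1‖ ≤ r * 5.55 := by
  obtain ⟨q1, q2, q3⟩ := b3_h hh
  have hR0 := b3_R0 hβ hr hκ
  have hR := b3_R hβ hr hκ (by linarith)
  have hD1 : DomR κ t := b3_dom (by linarith) (by linarith) (Or.inl (by linarith))
  have hD0 : DomR κ (t - h) := b3_dom (by linarith) (by linarith) (Or.inl (by linarith))
  have y1 := yA6 hD1 hk1 hk2 (by linarith) (by linarith)
  have y0 := yB6 hD0 hk1 hk2 (by linarith) (by linarith)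
  have j1 := T3_22_d1_2 hD1 hβ hk1 hk2 (by linarith) (by linarith) hR0 hR
  exact b3_piece 1.05 1.1 0.43 0.45 0.44 0.64403 0.65051 0.63763 0.7156 2.3264 2.392 0.04 0.17 0.17 5.1205 2.4024 0 0 (-0.49) (-0.462) (-0.476) 1.60962 1.63232 1.7956 2.8524 0.1 0.3 0.165 3.5929 3.8199 0 0 0.1664 5.55
    hβ hr hκ (by norm_num) hk1 hk2 hD1 hD0 j1 (j1 _ (by rw [sub_self, norm_zero]; norm_num))
    (T3_22_d0_2 hD0 hβ hk1 hk2 (by linarith) (by linarith) hR0 hR)
    (T3_22_p0 hD0 hβ hk1 hk2 (by linarith) (by linarith) hR0 hR)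
    y1.1 y1.2 y0.1 y0.2 (by norm_num)
    (ex_um 0.43 (by norm_num) (by norm_num) (by norm_num) (by norm_num)) (ex_um 0.45 (by norm_num) (by norm_num) (by norm_num) (by norm_num)) (ex_lm 0.44 (by norm_num) (by norm_num) (by norm_num) (by norm_num) (by norm_num)) (by norm_num) (by norm_num) (by norm_num) (by norm_num) (by norm_num) (by norm_num) (by norm_num) (by norm_num)
    (by norm_num) (by norm_num) (by norm_num) (by norm_num) (by norm_num) (by norm_num) (by norm_num) (by norm_num) (by norm_num) (by norm_num)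
    (ex_up 0.49 (by norm_num) (by norm_num) (by norm_num) (by norm_num)) (ex_lp 0.476 (by norm_num) (by norm_num) (by norm_num)) (by norm_num) (by norm_num) (by norm_num) (by norm_num) (by norm_num) (by norm_num)
    (by norm_num) (by norm_num) (by norm_num) (by norm_num) (by norm_num) (by norm_num) (by norm_num) (by norm_num) (by norm_num) (by norm_num) (by norm_num)
    (by norm_num) (by norm_num) (by norm_num) (by norm_num)

private theorem yA7 {κ t : ℝ} (h : DomR κ t) (hk1 : 1.05 ≤ κ) (hk2 : κ ≤ 1.1) (ht1 : 1.242 ≤ t + κ) (ht2 : t + κ ≤ 1.27) :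
    0.436 ≤ sy κ t ∧ sy κ t ≤ 0.457 := by
  have hy1 : 0.436 ≤ sy κ t := syR_ge h 1.05 1.1 1.242 0.436 1.5465 1.54651 0.61297 0.64217 hk1 hk2 (by linarith) (by norm_num) (by norm_num)
    (expn_ge (by norm_num) (by norm_num)) (expn_le (by norm_num) (by norm_num) (by norm_num)) (by norm_num)
    (by norm_num) (by norm_num) (by norm_num) (by norm_num) (by norm_num) (by norm_num)
  have hy2 : sy κ t ≤ 0.457 := syR_le h 1.05 1.1 1.27 0.457 1.57932 0.6483 0.65613 0.68739 hk1 hk2 (by linarith) (by norm_num) (by norm_num)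
    (expn_ge (by norm_num) (by norm_num)) (by norm_num) (by norm_num) (Or.inr ((mul_le_mul_of_nonneg_left (expn_le (E := 1.57933) (by norm_num) (by norm_num) (by norm_num)) (by norm_num)).trans (by norm_num))) (by norm_num) (by norm_num) (by norm_num)
  exact ⟨hy1, hy2⟩

private theorem yB7 {κ t : ℝ} (h : DomR κ t) (hk1 : 1.05 ≤ κ) (hk2 : κ ≤ 1.1) (ht1 : -0.8524 ≤ t + κ) (ht2 : t + κ ≤ -0.82439) :
    (-0.474) ≤ sy κ t ∧ sy κ t ≤ (-0.447) := by
  have hy1 : -0.474 ≤ sy κ t := syL_ge h 1.05 1.1 0.8524 0.474 0.6225 0.62251 0.2703 0.26824 0.28102 hk1 hk2 (by linarith) (by norm_num) (by norm_num) (by norm_num)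
    (expm_ge (by norm_num) (by norm_num) (by norm_num) (by norm_num)) (expm_le (by norm_num) (by norm_num) (by norm_num)) (by norm_num)
    (by norm_num) (by norm_num) (by norm_num) (by norm_num) (by norm_num) (by norm_num)
  have hy2 : sy κ t ≤ -0.447 := syL_le h 1.05 1.1 0.82439 0.447 0.63954 0.63955 0.25988 0.27227 hk1 hk2 (by linarith) (by norm_num) (by norm_num) (by norm_num)
    (expm_ge (by norm_num) (by norm_num) (by norm_num) (by norm_num)) (expm_le (by norm_num) (by norm_num) (by norm_num)) (by norm_num)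
    (by norm_num) (by norm_num) (by norm_num) (by norm_num) (by norm_num) (by norm_num)
  exact ⟨hy1, hy2⟩

theorem pc7 {β r h t κ : ℝ} (hh : h = 2 * Real.pi / (3 : ℕ)) (hβ : 0 < β) (hr : 10 ≤ r) (hκ : κ = β * r)
    (hk1 : 1.05 ≤ κ) (hk2 : κ ≤ 1.1) (hT1 : 1.242 ≤ t + κ) (hT2 : t + κ ≤ 1.27) :
    Xf β r h t 0 ≠ 0 ∧ r * 0.1664 ≤ (Ld β r h t 1 - Ld β r h t 0).im ∧
      ‖(((-1 : ℤ) : ℂ) - 1) * Ld β r h t 0 - ((-1 : ℤ) : ℂ) * Ld β r h t 1‖ ≤ r * 5.55 := by
  obtain ⟨q1, q2, q3⟩ := b3_h hh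
  have hR0 := b3_R0 hβ hr hκ
  have hR := b3_R hβ hr hκ (by linarith)
  have hD1 : DomR κ t := b3_dom (by linarith) (by linarith) (Or.inl (by linarith))
  have hD0 : DomR κ (t - h) := b3_dom (by linarith) (by linarith) (Or.inl (by linarith))
  have y1 := yA7 hD1 hk1 hk2 (by linarith) (by linarith)
  have y0 := yB7 hD0 hk1 hk2 (by linarith) (by linarith)
  have j1 := T3_22_d1_2 hD1 hβ hk1 hk2 (by linarith) (by linarith) hR0 hR
  exact b3_piece 1.05 1.1 0.436 0.457 0.447 0.63954 0.64662 0.63319 0.7113 2.3328 2.3992 0.04 0.17 0.17 5.1205 2.3847 0 0 (-0.474) (-0.447) (-0.461) 1.58565 1.60641 1.7671 2.8003 0.1 0.3 0.165 3.5929 3.7941 0 0 0.1664 5.55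
    hβ hr hκ (by norm_num) hk1 hk2 hD1 hD0 j1 (j1 _ (by rw [sub_self, norm_zero]; norm_num))
    (T3_22_d0_2 hD0 hβ hk1 hk2 (by linarith) (by linarith) hR0 hR)
    (T3_22_p0 hD0 hβ hk1 hk2 (by linarith) (by linarith) hR0 hR)
    y1.1 y1.2 y0.1 y0.2 (by norm_num)
    (ex_um 0.436 (by norm_num) (by norm_num) (by norm_num) (by norm_num)) (ex_um 0.457 (by norm_num) (by norm_num) (by norm_num) (by norm_num)) (ex_lm 0.447 (by norm_num) (by norm_num) (by norm_num) (by norm_num) (by norm_num)) (by norm_num) (by norm_num) (by norm_num) (by norm_num) (by norm_num) (by norm_num) (by norm_num) (by norm_num)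
    (by norm_num) (by norm_num) (by norm_num) (by norm_num) (by norm_num) (by norm_num) (by norm_num) (by norm_num) (by norm_num) (by norm_num)
    (ex_up 0.474 (by norm_num) (by norm_num) (by norm_num) (by norm_num)) (ex_lp 0.461 (by norm_num) (by norm_num) (by norm_num)) (by norm_num) (by norm_num) (by norm_num) (by norm_num) (by norm_num) (by norm_num)
    (by norm_num) (by norm_num) (by norm_num) (by norm_num) (by norm_num) (by norm_num) (by norm_num) (by norm_num) (by norm_num) (by norm_num) (by norm_num)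
    (by norm_num) (by norm_num) (by norm_num) (by norm_num)

private theorem yA8 {κ t : ℝ} (h : DomR κ t) (hk1 : 1.05 ≤ κ) (hk2 : κ ≤ 1.1) (ht1 : 1.27 ≤ t + κ) (ht2 : t + κ ≤ 1.298) :
    0.442 ≤ sy κ t ∧ sy κ t ≤ 0.463 := by
  have hy1 : 0.442 ≤ sy κ t := syR_ge h 1.05 1.1 1.27 0.442 1.55581 1.55582 0.62515 0.65493 hk1 hk2 (by linarith) (by norm_num) (by norm_num)
    (expn_ge (by norm_num) (by norm_num)) (expn_le (by norm_num) (by norm_num) (by norm_num)) (by norm_num)
    (by norm_num) (by norm_num) (by norm_num) (by norm_num) (by norm_num) (by norm_num)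
  have hy2 : sy κ t ≤ 0.463 := syR_le h 1.05 1.1 1.298 0.463 1.58883 0.6607 0.66875 0.70061 hk1 hk2 (by linarith) (by norm_num) (by norm_num)
    (expn_ge (by norm_num) (by norm_num)) (by norm_num) (by norm_num) (Or.inr ((mul_le_mul_of_nonneg_left (expn_le (E := 1.58884) (by norm_num) (by norm_num) (by norm_num)) (by norm_num)).trans (by norm_num))) (by norm_num) (by norm_num) (by norm_num)
  exact ⟨hy1, hy2⟩

private theorem yB8 {κ t : ℝ} (h : DomR κ t) (hk1 : 1.05 ≤ κ) (hk2 : κ ≤ 1.1) (ht1 : -0.8244 ≤ t + κ) (ht2 : t + κ ≤ -0.79639) :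
    (-0.459) ≤ sy κ t ∧ sy κ t ≤ (-0.432) := by
  have hy1 : -0.459 ≤ sy κ t := syL_ge h 1.05 1.1 0.8244 0.459 0.63191 0.63192 0.2605 0.26367 0.27624 hk1 hk2 (by linarith) (by norm_num) (by norm_num) (by norm_num)
    (expm_ge (by norm_num) (by norm_num) (by norm_num) (by norm_num)) (expm_le (by norm_num) (by norm_num) (by norm_num)) (by norm_num)
    (by norm_num) (by norm_num) (by norm_num) (by norm_num) (by norm_num) (by norm_num)
  have hy2 : sy κ t ≤ -0.432 := syL_le h 1.05 1.1 0.79639 0.432 0.6492 0.64921 0.25495 0.26711 hk1 hk2 (by linarith) (by norm_num) (by norm_num) (by norm_num)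
    (expm_ge (by norm_num) (by norm_num) (by norm_num) (by norm_num)) (expm_le (by norm_num) (by norm_num) (by norm_num)) (by norm_num)
    (by norm_num) (by norm_num) (by norm_num) (by norm_num) (by norm_num) (by norm_num)
  exact ⟨hy1, hy2⟩

theorem pc8 {β r h t κ : ℝ} (hh : h = 2 * Real.pi / (3 : ℕ)) (hβ : 0 < β) (hr : 10 ≤ r) (hκ : κ = β * r)
    (hk1 : 1.05 ≤ κ) (hk2 : κ ≤ 1.1) (hT1 : 1.27 ≤ t + κ) (hT2 : t + κ ≤ 1.298) :
    Xf β r h t 0 ≠ 0 ∧ r * 0.1664 ≤ (Ld β r h t 1 - Ld β r h t 0).im ∧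
      ‖(((-1 : ℤ) : ℂ) - 1) * Ld β r h t 0 - ((-1 : ℤ) : ℂ) * Ld β r h t 1‖ ≤ r * 5.55 := by
  obtain ⟨q1, q2, q3⟩ := b3_h hh
  have hR0 := b3_R0 hβ hr hκ
  have hR := b3_R hβ hr hκ (by linarith)
  have hD1 : DomR κ t := b3_dom (by linarith) (by linarith) (Or.inl (by linarith))
  have hD0 : DomR κ (t - h) := b3_dom (by linarith) (by linarith) (Or.inl (by linarith))
  have y1 := yA8 hD1 hk1 hk2 (by linarith) (by linarith)
  have y0 := yB8 hD0 hk1 hk2 (by linarith) (by linarith)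
  have j1 := T3_22_d1_2 hD1 hβ hk1 hk2 (by linarith) (by linarith) hR0 hR
  exact b3_piece 1.05 1.1 0.442 0.463 0.453 0.63571 0.64275 0.6294 0.7071 2.3393 2.4054 0.04 0.17 0.17 5.1205 2.3673 0 0 (-0.459) (-0.432) (-0.446) 1.56205 1.5825 1.7408 2.7507 0.1 0.3 0.165 3.5929 3.7712 0 0 0.1664 5.55
    hβ hr hκ (by norm_num) hk1 hk2 hD1 hD0 j1 (j1 _ (by rw [sub_self, norm_zero]; norm_num))
    (T3_22_d0_2 hD0 hβ hk1 hk2 (by linarith) (by linarith) hR0 hR)
    (T3_22_p0 hD0 hβ hk1 hk2 (by linarith) (by linarith) hR0 hR)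
    y1.1 y1.2 y0.1 y0.2 (by norm_num)
    (ex_um 0.442 (by norm_num) (by norm_num) (by norm_num) (by norm_num)) (ex_um 0.463 (by norm_num) (by norm_num) (by norm_num) (by norm_num)) (ex_lm 0.453 (by norm_num) (by norm_num) (by norm_num) (by norm_num) (by norm_num)) (by norm_num) (by norm_num) (by norm_num) (by norm_num) (by norm_num) (by norm_num) (by norm_num) (by norm_num)
    (by norm_num) (by norm_num) (by norm_num) (by norm_num) (by norm_num) (by norm_num) (by norm_num) (by norm_num) (by norm_num) (by norm_num)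
    (ex_up 0.459 (by norm_num) (by norm_num) (by norm_num) (by norm_num)) (ex_lp 0.446 (by norm_num) (by norm_num) (by norm_num)) (by norm_num) (by norm_num) (by norm_num) (by norm_num) (by norm_num) (by norm_num)
    (by norm_num) (by norm_num) (by norm_num) (by norm_num) (by norm_num) (by norm_num) (by norm_num) (by norm_num) (by norm_num) (by norm_num) (by norm_num)
    (by norm_num) (by norm_num) (by norm_num) (by norm_num)

private theorem yA9 {κ t : ℝ} (h : DomR κ t) (hk1 : 1.05 ≤ κ) (hk2 : κ ≤ 1.1) (ht1 : 1.298 ≤ t + κ) (ht2 : t + κ ≤ 1.326) :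
    0.448 ≤ sy κ t ∧ sy κ t ≤ 0.47 := by
  have hy1 : 0.448 ≤ sy κ t := syR_ge h 1.05 1.1 1.298 0.448 1.56517 1.56518 0.63745 0.66782 hk1 hk2 (by linarith) (by norm_num) (by norm_num)
    (expn_ge (by norm_num) (by norm_num)) (expn_le (by norm_num) (by norm_num) (by norm_num)) (by norm_num)
    (by norm_num) (by norm_num) (by norm_num) (by norm_num) (by norm_num) (by norm_num)
  have hy2 : sy κ t ≤ 0.47 := syR_le h 1.05 1.1 1.326 0.47 1.59999 0.6754 0.68363 0.7162 hk1 hk2 (by linarith) (by norm_num) (by norm_num)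
    (expn_ge (by norm_num) (by norm_num)) (by norm_num) (by norm_num) (Or.inr ((mul_le_mul_of_nonneg_left (expn_le (E := 1.6) (by norm_num) (by norm_num) (by norm_num)) (by norm_num)).trans (by norm_num))) (by norm_num) (by norm_num) (by norm_num)
  exact ⟨hy1, hy2⟩

private theorem yB9 {κ t : ℝ} (h : DomR κ t) (hk1 : 1.05 ≤ κ) (hk2 : κ ≤ 1.1) (ht1 : -0.7964 ≤ t + κ) (ht2 : t + κ ≤ -0.76839) :
    (-0.443) ≤ sy κ t ∧ sy κ t ≤ (-0.416) := by
  have hy1 : -0.443 ≤ sy κ t := syL_ge h 1.05 1.1 0.7964 0.443 0.6421 0.64211 0.2555 0.25859 0.27091 hk1 hk2 (by linarith) (by norm_num) (by norm_num) (by norm_num)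
    (expm_ge (by norm_num) (by norm_num) (by norm_num) (by norm_num)) (expm_le (by norm_num) (by norm_num) (by norm_num)) (by norm_num)
    (by norm_num) (by norm_num) (by norm_num) (by norm_num) (by norm_num) (by norm_num)
  have hy2 : sy κ t ≤ -0.416 := syL_le h 1.05 1.1 0.76839 0.416 0.65968 0.65969 0.24947 0.26137 hk1 hk2 (by linarith) (by norm_num) (by norm_num) (by norm_num)
    (expm_ge (by norm_num) (by norm_num) (by norm_num) (by norm_num)) (expm_le (by norm_num) (by norm_num) (by norm_num)) (by norm_num)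
    (by norm_num) (by norm_num) (by norm_num) (by norm_num) (by norm_num) (by norm_num)
  exact ⟨hy1, hy2⟩

theorem pc9 {β r h t κ : ℝ} (hh : h = 2 * Real.pi / (3 : ℕ)) (hβ : 0 < β) (hr : 10 ≤ r) (hκ : κ = β * r)
    (hk1 : 1.05 ≤ κ) (hk2 : κ ≤ 1.1) (hT1 : 1.298 ≤ t + κ) (hT2 : t + κ ≤ 1.326) :
    Xf β r h t 0 ≠ 0 ∧ r * 0.1664 ≤ (Ld β r h t 1 - Ld β r h t 0).im ∧
      ‖(((-1 : ℤ) : ℂ) - 1) * Ld β r h t 0 - ((-1 : ℤ) : ℂ) * Ld β r h t 1‖ ≤ r * 5.55 := by
  obtain ⟨q1, q2, q3⟩ := b3_h hh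
  have hR0 := b3_R0 hβ hr hκ
  have hR := b3_R hβ hr hκ (by linarith)
  have hD1 : DomR κ t := b3_dom (by linarith) (by linarith) (Or.inl (by linarith))
  have hD0 : DomR κ (t - h) := b3_dom (by linarith) (by linarith) (Or.inl (by linarith))
  have y1 := yA9 hD1 hk1 hk2 (by linarith) (by linarith)
  have y0 := yB9 hD0 hk1 hk2 (by linarith) (by linarith)
  have j1 := T3_22_d1_2 hD1 hβ hk1 hk2 (by linarith) (by linarith) hR0 hR
  exact b3_piece 1.05 1.1 0.448 0.47 0.459 0.63191 0.63891 0.62501 0.7029 2.3459 2.4127 0.04 0.17 0.17 5.1205 2.35 0 0 (-0.443) (-0.416) (-0.429) 1.53572 1.55738 1.7132 2.7005 0.1 0.3 0.165 3.5929 3.7457 0 0 0.1664 5.55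
    hβ hr hκ (by norm_num) hk1 hk2 hD1 hD0 j1 (j1 _ (by rw [sub_self, norm_zero]; norm_num))
    (T3_22_d0_2 hD0 hβ hk1 hk2 (by linarith) (by linarith) hR0 hR)
    (T3_22_p0 hD0 hβ hk1 hk2 (by linarith) (by linarith) hR0 hR)
    y1.1 y1.2 y0.1 y0.2 (by norm_num)
    (ex_um 0.448 (by norm_num) (by norm_num) (by norm_num) (by norm_num)) (ex_um 0.47 (by norm_num) (by norm_num) (by norm_num) (by norm_num)) (ex_lm 0.459 (by norm_num) (by norm_num) (by norm_num) (by norm_num) (by norm_num)) (by norm_num) (by norm_num) (by norm_num) (by norm_num) (by norm_num) (by norm_num) (by norm_num) (by norm_num)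
    (by norm_num) (by norm_num) (by norm_num) (by norm_num) (by norm_num) (by norm_num) (by norm_num) (by norm_num) (by norm_num) (by norm_num)
    (ex_up 0.443 (by norm_num) (by norm_num) (by norm_num) (by norm_num)) (ex_lp 0.429 (by norm_num) (by norm_num) (by norm_num)) (by norm_num) (by norm_num) (by norm_num) (by norm_num) (by norm_num) (by norm_num)
    (by norm_num) (by norm_num) (by norm_num) (by norm_num) (by norm_num) (by norm_num) (by norm_num) (by norm_num) (by norm_num) (by norm_num) (by norm_num)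
    (by norm_num) (by norm_num) (by norm_num) (by norm_num)

private theorem yA10 {κ t : ℝ} (h : DomR κ t) (hk1 : 1.05 ≤ κ) (hk2 : κ ≤ 1.1) (ht1 : 1.326 ≤ t + κ) (ht2 : t + κ ≤ 1.354) :
    0.454 ≤ sy κ t ∧ sy κ t ≤ 0.476 := by
  have hy1 : 0.454 ≤ sy κ t := syR_ge h 1.05 1.1 1.326 0.454 1.57459 1.5746 0.64987 0.68083 hk1 hk2 (by linarith) (by norm_num) (by norm_num)
    (expn_ge (by norm_num) (by norm_num)) (expn_le (by norm_num) (by norm_num) (by norm_num)) (by norm_num)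
    (by norm_num) (by norm_num) (by norm_num) (by norm_num) (by norm_num) (by norm_num)
  have hy2 : sy κ t ≤ 0.476 := syR_le h 1.05 1.1 1.354 0.476 1.60962 0.6882 0.69652 0.7297 hk1 hk2 (by linarith) (by norm_num) (by norm_num)
    (expn_ge (by norm_num) (by norm_num)) (by norm_num) (by norm_num) (Or.inr ((mul_le_mul_of_nonneg_left (expn_le (E := 1.60963) (by norm_num) (by norm_num) (by norm_num)) (by norm_num)).trans (by norm_num))) (by norm_num) (by norm_num) (by norm_num)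
  exact ⟨hy1, hy2⟩

private theorem yB10 {κ t : ℝ} (h : DomR κ t) (hk1 : 1.05 ≤ κ) (hk2 : κ ≤ 1.1) (ht1 : -0.7684 ≤ t + κ) (ht2 : t + κ ≤ -0.74039) :
    (-0.427) ≤ sy κ t ∧ sy κ t ≤ (-0.401) := by
  have hy1 : -0.427 ≤ sy κ t := syL_ge h 1.05 1.1 0.7684 0.427 0.65246 0.65247 0.2502 0.25327 0.26534 hk1 hk2 (by linarith) (by norm_num) (by norm_num) (by norm_num)
    (expm_ge (by norm_num) (by norm_num) (by norm_num) (by norm_num)) (expm_le (by norm_num) (by norm_num) (by norm_num)) (by norm_num)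
    (by norm_num) (by norm_num) (by norm_num) (by norm_num) (by norm_num) (by norm_num)
  have hy2 : sy κ t ≤ -0.401 := syL_le h 1.05 1.1 0.74039 0.401 0.66965 0.66966 0.24411 0.25575 hk1 hk2 (by linarith) (by norm_num) (by norm_num) (by norm_num)
    (expm_ge (by norm_num) (by norm_num) (by norm_num) (by norm_num)) (expm_le (by norm_num) (by norm_num) (by norm_num)) (by norm_num)
    (by norm_num) (by norm_num) (by norm_num) (by norm_num) (by norm_num) (by norm_num)
  exact ⟨hy1, hy2⟩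

theorem pc10 {β r h t κ : ℝ} (hh : h = 2 * Real.pi / (3 : ℕ)) (hβ : 0 < β) (hr : 10 ≤ r) (hκ : κ = β * r)
    (hk1 : 1.05 ≤ κ) (hk2 : κ ≤ 1.1) (hT1 : 1.326 ≤ t + κ) (hT2 : t + κ ≤ 1.354) :
    Xf β r h t 0 ≠ 0 ∧ r * 0.1664 ≤ (Ld β r h t 1 - Ld β r h t 0).im ∧
      ‖(((-1 : ℤ) : ℂ) - 1) * Ld β r h t 0 - ((-1 : ℤ) : ℂ) * Ld β r h t 1‖ ≤ r * 5.55 := by
  obtain ⟨q1, q2, q3⟩ := b3_h hh
  have hR0 := b3_R0 hβ hr hκ
  have hR := b3_R hβ hr hκ (by linarith)
  have hD1 : DomR κ t := b3_dom (by linarith) (by linarith) (Or.inl (by linarith))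
  have hD0 : DomR κ (t - h) := b3_dom (by linarith) (by linarith) (Or.inl (by linarith))
  have y1 := yA10 hD1 hk1 hk2 (by linarith) (by linarith)
  have y0 := yB10 hD0 hk1 hk2 (by linarith) (by linarith)
  have j1 := T3_22_d1_2 hD1 hβ hk1 hk2 (by linarith) (by linarith) hR0 hR
  exact b3_piece 1.05 1.1 0.454 0.476 0.465 0.62813 0.63509 0.62127 0.6986 2.3525 2.4191 0.04 0.17 0.17 5.1205 2.3323 0 0 (-0.427) (-0.401) (-0.414) 1.51285 1.53266 1.686 2.6557 0.1 0.3 0.165 3.5929 3.7172 0 0 0.1664 5.55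
    hβ hr hκ (by norm_num) hk1 hk2 hD1 hD0 j1 (j1 _ (by rw [sub_self, norm_zero]; norm_num))
    (T3_22_d0_2 hD0 hβ hk1 hk2 (by linarith) (by linarith) hR0 hR)
    (T3_22_p0 hD0 hβ hk1 hk2 (by linarith) (by linarith) hR0 hR)
    y1.1 y1.2 y0.1 y0.2 (by norm_num)
    (ex_um 0.454 (by norm_num) (by norm_num) (by norm_num) (by norm_num)) (ex_um 0.476 (by norm_num) (by norm_num) (by norm_num) (by norm_num)) (ex_lm 0.465 (by norm_num) (by norm_num) (by norm_num) (by norm_num) (by norm_num)) (by norm_num) (by norm_num) (by norm_num) (by norm_num) (by norm_num) (by norm_num) (by norm_num) (by norm_num)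
    (by norm_num) (by norm_num) (by norm_num) (by norm_num) (by norm_num) (by norm_num) (by norm_num) (by norm_num) (by norm_num) (by norm_num)
    (ex_up 0.427 (by norm_num) (by norm_num) (by norm_num) (by norm_num)) (ex_lp 0.414 (by norm_num) (by norm_num) (by norm_num)) (by norm_num) (by norm_num) (by norm_num) (by norm_num) (by norm_num) (by norm_num)
    (by norm_num) (by norm_num) (by norm_num) (by norm_num) (by norm_num) (by norm_num) (by norm_num) (by norm_num) (by norm_num) (by norm_num) (by norm_num)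
    (by norm_num) (by norm_num) (by norm_num) (by norm_num)

private theorem yA11 {κ t : ℝ} (h : DomR κ t) (hk1 : 1.05 ≤ κ) (hk2 : κ ≤ 1.1) (ht1 : 1.354 ≤ t + κ) (ht2 : t + κ ≤ 1.382) :
    0.459 ≤ sy κ t ∧ sy κ t ≤ 0.482 := by
  have hy1 : 0.459 ≤ sy κ t := syR_ge h 1.05 1.1 1.354 0.459 1.58248 1.5825 0.66032 0.69178 hk1 hk2 (by linarith) (by norm_num) (by norm_num)
    (expn_ge (by norm_num) (by norm_num)) (expn_le (by norm_num) (by norm_num) (by norm_num)) (by norm_num)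
    (by norm_num) (by norm_num) (by norm_num) (by norm_num) (by norm_num) (by norm_num)
  have hy2 : sy κ t ≤ 0.482 := syR_le h 1.05 1.1 1.382 0.482 1.6193 0.701 0.70954 0.74335 hk1 hk2 (by linarith) (by norm_num) (by norm_num)
    (expn_ge (by norm_num) (by norm_num)) (by norm_num) (by norm_num) (Or.inr ((mul_le_mul_of_nonneg_left (expn_le (E := 1.61931) (by norm_num) (by norm_num) (by norm_num)) (by norm_num)).trans (by norm_num))) (by norm_num) (by norm_num) (by norm_num)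
  exact ⟨hy1, hy2⟩

private theorem yB11 {κ t : ℝ} (h : DomR κ t) (hk1 : 1.05 ≤ κ) (hk2 : κ ≤ 1.1) (ht1 : -0.7404 ≤ t + κ) (ht2 : t + κ ≤ -0.71239) :
    (-0.411) ≤ sy κ t ∧ sy κ t ≤ (-0.385) := by
  have hy1 : -0.411 ≤ sy κ t := syL_ge h 1.05 1.1 0.7404 0.411 0.66298 0.66299 0.2447 0.24771 0.25952 hk1 hk2 (by linarith) (by norm_num) (by norm_num) (by norm_num)
    (expm_ge (by norm_num) (by norm_num) (by norm_num) (by norm_num)) (expm_le (by norm_num) (by norm_num) (by norm_num)) (by norm_num)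
    (by norm_num) (by norm_num) (by norm_num) (by norm_num) (by norm_num) (by norm_num)
  have hy2 : sy κ t ≤ -0.385 := syL_le h 1.05 1.1 0.71239 0.385 0.68045 0.68046 0.23815 0.24951 hk1 hk2 (by linarith) (by norm_num) (by norm_num) (by norm_num)
    (expm_ge (by norm_num) (by norm_num) (by norm_num) (by norm_num)) (expm_le (by norm_num) (by norm_num) (by norm_num)) (by norm_num)
    (by norm_num) (by norm_num) (by norm_num) (by norm_num) (by norm_num) (by norm_num)
  exact ⟨hy1, hy2⟩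

theorem pc11 {β r h t κ : ℝ} (hh : h = 2 * Real.pi / (3 : ℕ)) (hβ : 0 < β) (hr : 10 ≤ r) (hκ : κ = β * r)
    (hk1 : 1.05 ≤ κ) (hk2 : κ ≤ 1.1) (hT1 : 1.354 ≤ t + κ) (hT2 : t + κ ≤ 1.382) :
    Xf β r h t 0 ≠ 0 ∧ r * 0.1664 ≤ (Ld β r h t 1 - Ld β r h t 0).im ∧
      ‖(((-1 : ℤ) : ℂ) - 1) * Ld β r h t 0 - ((-1 : ℤ) : ℂ) * Ld β r h t 1‖ ≤ r * 5.55 := by
  obtain ⟨q1, q2, q3⟩ := b3_h hh
  have hR0 := b3_R0 hβ hr hκ
  have hR := b3_R hβ hr hκ (by linarith)
  have hD1 : DomR κ t := b3_dom (by linarith) (by linarith) (Or.inl (by linarith))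
  have hD0 : DomR κ (t - h) := b3_dom (by linarith) (by linarith) (Or.inl (by linarith))
  have y1 := yA11 hD1 hk1 hk2 (by linarith) (by linarith)
  have y0 := yB11 hD0 hk1 hk2 (by linarith) (by linarith)
  have j1 := T3_22_d1_2 hD1 hβ hk1 hk2 (by linarith) (by linarith) hR0 hR
  exact b3_piece 1.05 1.1 0.459 0.482 0.47 0.625 0.63192 0.61755 0.6952 2.3581 2.4255 0.04 0.17 0.17 5.1205 2.3182 0 0 (-0.411) (-0.385) (-0.398) 1.48884 1.50833 1.6592 2.6103 0.1 0.3 0.165 3.5929 3.6898 0 0 0.1664 5.55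
    hβ hr hκ (by norm_num) hk1 hk2 hD1 hD0 j1 (j1 _ (by rw [sub_self, norm_zero]; norm_num))
    (T3_22_d0_2 hD0 hβ hk1 hk2 (by linarith) (by linarith) hR0 hR)
    (T3_22_p0 hD0 hβ hk1 hk2 (by linarith) (by linarith) hR0 hR)
    y1.1 y1.2 y0.1 y0.2 (by norm_num)
    (ex_um 0.459 (by norm_num) (by norm_num) (by norm_num) (by norm_num)) (ex_um 0.482 (by norm_num) (by norm_num) (by norm_num) (by norm_num)) (ex_lm 0.47 (by norm_num) (by norm_num) (by norm_num) (by norm_num) (by norm_num)) (by norm_num) (by norm_num) (by norm_num) (by norm_num) (by norm_num) (by norm_num) (by norm_num) (by norm_num)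
    (by norm_num) (by norm_num) (by norm_num) (by norm_num) (by norm_num) (by norm_num) (by norm_num) (by norm_num) (by norm_num) (by norm_num)
    (ex_up 0.411 (by norm_num) (by norm_num) (by norm_num) (by norm_num)) (ex_lp 0.398 (by norm_num) (by norm_num) (by norm_num)) (by norm_num) (by norm_num) (by norm_num) (by norm_num) (by norm_num) (by norm_num)
    (by norm_num) (by norm_num) (by norm_num) (by norm_num) (by norm_num) (by norm_num) (by norm_num) (by norm_num) (by norm_num) (by norm_num) (by norm_num)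
    (by norm_num) (by norm_num) (by norm_num) (by norm_num)

theorem innS {β r h t κ : ℝ} (hh : h = 2 * Real.pi / (3 : ℕ)) (hβ : 0 < β) (hr : 10 ≤ r) (hκ : κ = β * r)
    (hk1 : 1.05 ≤ κ) (hk2 : κ ≤ 1.1) (hT1 : 1.066 ≤ t + κ) (hT2 : t + κ ≤ 1.382) :
    Xf β r h t 0 ≠ 0 ∧ r * 0.1664 ≤ (Ld β r h t 1 - Ld β r h t 0).im ∧
      ‖(((-1 : ℤ) : ℂ) - 1) * Ld β r h t 0 - ((-1 : ℤ) : ℂ) * Ld β r h t 1‖ ≤ r * 5.55 := by
  rcases le_total (t + κ) 1.086 with f0 | g0
  · exact pc0 hh hβ hr hκ hk1 hk2 hT1 f0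
  rcases le_total (t + κ) 1.106 with f1 | g1
  · exact pc1 hh hβ hr hκ hk1 hk2 g0 f1
  rcases le_total (t + κ) 1.133 with f2 | g2
  · exact pc2 hh hβ hr hκ hk1 hk2 g1 f2
  rcases le_total (t + κ) 1.159 with f3 | g3
  · exact pc3 hh hβ hr hκ hk1 hk2 g2 f3
  rcases le_total (t + κ) 1.186 with f4 | g4
  · exact pc4 hh hβ hr hκ hk1 hk2 g3 f4
  rcases le_total (t + κ) 1.214 with f5 | g5
  · exact pc5 hh hβ hr hκ hk1 hk2 g4 f5
  rcases le_total (t + κ) 1.242 with f6 | g6
  · exact pc6 hh hβ hr hκ hk1 hk2 g5 f6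
  rcases le_total (t + κ) 1.27 with f7 | g7
  · exact pc7 hh hβ hr hκ hk1 hk2 g6 f7
  rcases le_total (t + κ) 1.298 with f8 | g8
  · exact pc8 hh hβ hr hκ hk1 hk2 g7 f8
  rcases le_total (t + κ) 1.326 with f9 | g9
  · exact pc9 hh hβ hr hκ hk1 hk2 g8 f9
  rcases le_total (t + κ) 1.354 with f10 | g10
  · exact pc10 hh hβ hr hκ hk1 hk2 g9 f10
  exact pc11 hh hβ hr hκ hk1 hk2 g10 hT2

theorem circ {p : ℤ} (hp : IsCoprime (3 : ℤ) p) {β r : ℝ} (hβ : 0 < β) (hr : 10 ≤ r) (hk1 : 1.05 ≤ β * r)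
    (hk2 : β * r ≤ 1.1) : Circ (2 * Real.pi * p / (3 : ℕ) + β) r := by
  obtain ⟨κ, hκ⟩ : ∃ κ, κ = β * r := ⟨_, rfl⟩
  rw [← hκ] at hk1 hk2
  refine circ3 hp hr (h := 2 * Real.pi / (3 : ℕ)) (κ := κ) rfl 1.066 1.382 1.0064 0.1664 0.00138 0.00158 5.55 (by norm_num) (by norm_num) (by norm_num)
    (by norm_num) (by norm_num) ?_ ?_ ?_ ?_ ?_ (by norm_num) (by norm_num)
  · intro t h1 h2
    exact (innS rfl hβ hr hκ hk1 hk2 h1 h2).1
  · intro t h1 h2
    exact (innE rfl hβ hr hκ hk1 hk2 h1 h2).1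
  · intro t h1 h2
    exact (innE rfl hβ hr hκ hk1 hk2 h1 h2).2
  · intro t h1 h2
    exact (innS rfl hβ hr hκ hk1 hk2 h1 h2).2
  · intro t h1 h2 h3
    rcases h3 with h3 | h3
    · exact left rfl hβ hr hκ hk1 hk2 h1 h3
    · exact right0 rfl hβ hr hκ hk1 hk2 h3 h2

end B3_22

end Sok
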