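import Pool.Agent.Lib.MP_816dec_an.JBG2
import Pool.Agent.Lib.MP_816dec_an.R1b3J24p1
import Pool.Agent.Lib.MP_816dec_an.R1b3J24p2
import Pool.Agent.Lib.MP_816dec_an.R1b3J24p3
import Pool.Agent.Lib.MP_816dec_an.R1b3J24p4

/-!
MP_816dec_an (A3, row R1): b = 3, J tables of the cell 24.
-/

set_option autoImplicit false
set_option maxHeartbeats 4000000

open Complex Set

namespace Sok

end Sok
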