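import Pool.Agent.Lib.MP_816dec_an.R1b3D
import Pool.Agent.Lib.MP_816dec_an.R1b3J24

/-!
MP_816dec_an (A3, row R1, b = 3): the cell `1.15 ≤ κ ≤ 1.2`.
-/

set_option autoImplicit false
set_option maxHeartbeats 4000000
set_option linter.unusedVariables false

open Complex Set

namespace Sok

namespace B3_24

private theorem yL {κ t : ℝ} (h : DomR κ t) (hk1 : 1.15 ≤ κ) (hk2 : κ ≤ 1.2) (ht1 : 0 ≤ t + κ) (ht2 : t + κ ≤ 1.051) :
    0 ≤ sy κ t ∧ sy κ t ≤ 0.41 := by
  have hy1 : 0 ≤ sy κ t := sy_nonneg h (by linarith)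
  have hy2 : sy κ t ≤ 0.41 := syR_le h 1.15 1.2 1.051 0.41 1.50681 0.5092 0.51482 0.53722 hk1 hk2 (by linarith) (by norm_num) (by norm_num)
    (expn_ge (by norm_num) (by norm_num)) (by norm_num) (by norm_num) (Or.inr ((mul_le_mul_of_nonneg_left (expn_le (E := 1.50682) (by norm_num) (by norm_num) (by norm_num)) (by norm_num)).trans (by norm_num))) (by norm_num) (by norm_num) (by norm_num)
  exact ⟨hy1, hy2⟩

theorem left {β r h t κ : ℝ} (hh : h = 2 * Real.pi / (3 : ℕ)) (hβ : 0 < β) (hr : 10 ≤ r) (hκ : κ = β * r)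
    (hk1 : 1.15 ≤ κ) (hk2 : κ ≤ 1.2) (hT1 : 0 ≤ t + κ) (hT2 : t + κ ≤ 1.051) :
    ‖Xf β r h t (-1)‖ < |‖Xf β r h t 1‖ - ‖Xf β r h t 0‖| := by
  obtain ⟨q1, q2, q3⟩ := b3_h hh
  have hR0 := b3_R0 hβ hr hκ
  have hR := b3_R hβ hr hκ (by linarith)
  have hD1 : DomR κ t := b3_dom (by linarith) (by linarith) (Or.inl (by linarith))
  have hy := yL hD1 hk1 hk2 (by linarith) (by linarith)
  have hY : 0.735 * Real.exp (r * 0.79716) ≤ ‖Xf β r h t 1‖ :=
    b3_lo hβ hr hκ (k := 1) (t' := t) (by push_cast; ring) hD1 0.08 2.4543 0.735 0.79716 (by norm_num)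
      (T3_24_p1 hD1 hβ hk1 hk2 (by linarith) (by linarith) hR0 hR)
      (v5_Dup hD1 1.2 0 0.41 1 0.66366 2.4543 hk2 hy.1 hy.2 (ex_up 0 (by norm_num) (by norm_num) (by norm_num) (by norm_num)) (ex_um 0.41 (by norm_num) (by norm_num) (by norm_num) (by norm_num)) (by norm_num) (by norm_num) (by norm_num)) (by norm_num) (by norm_num)
      (b3_Vlo hD1 1.15 1.2 0 1.051 0.57 (-0.56211) 0.5565 0.8491 0.16358 0.79716 hk1 hk2 (by linarith) (by linarith) (by norm_num) (ex_lm 0.56211 (by norm_num) (by norm_num) (by norm_num) (by norm_num) (by norm_num)) (by norm_num) (by norm_num) (by norm_num) (by norm_num) (by norm_num) (by norm_num) (by norm_num) (by norm_num) (ex_um 0.16358 (by norm_num) (by norm_num) (by norm_num) (by norm_num)) (by norm_num))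
  have h0 : ‖Xf β r h t 0‖ ≤ 0.892 * ‖Xf β r h t 1‖ :=
    b3_cmp 0.7366 0.03061 0.0005699 0.74716 0.890735 0.001222 0.892 hr (b3_HU0 0.47 1.15 1.2 (-2.0944) (-1.04339) 1.25694 1.71687 1.75769 0.58246 0.56894 1.71686 0.8888 0.1382 0.71357 1.4176 0 0.05 0.000001 1.5759 0.76655 hβ hr hκ (by norm_num) hk1 hk2 (by norm_num) (by linarith) (by linarith) (by norm_num) (by norm_num) (ex_up 0.5405 (by norm_num) (by norm_num) (by norm_num) (by norm_num)) (ex_up 0.564 (by norm_num) (by norm_num) (by norm_num) (by norm_num)) (ex_um 0.5405 (by norm_num) (by norm_num) (by norm_num) (by norm_num)) (ex_um 0.564 (by norm_num) (by norm_num) (by norm_num) (by norm_num)) (by norm_num) (by norm_num) (ex_lp 0.5405 (by norm_num) (by norm_num) (by norm_num)) (by norm_num) (by norm_num) (by norm_num) (by norm_num) (by norm_num) (by norm_num) (by norm_num) (by norm_num) (by norm_num) (by norm_num) (by norm_num) (by norm_num) (by norm_num) (by norm_num) (v5_hump 4.6934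 8.333 2.8867 0.0000003148 0.000001 hβ hr hκ hk1 hk2 (by norm_num) (tb := (-1.04339)) (by linarith) (by norm_num) (by norm_num) (by norm_num) (by norm_num) (by norm_num) (by norm_num) (by norm_num) (ex_un 14 0.99 (by norm_num) (by norm_num) (by norm_num) (by norm_num)) (by norm_num)) (by norm_num) (by norm_num)) hY (by norm_num) (by norm_num) (by norm_num) (by norm_num) (by norm_num) (ex_un 0 0.3061 (by norm_num) (by norm_num) (by norm_num) (by norm_num)) (by norm_num) (by norm_num) (by norm_num) (ex_un 7 0.4716 (by norm_num) (by norm_num) (by norm_num) (by norm_num)) (by norm_num) (by norm_num)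
  have h2 : ‖Xf β r h t (-1)‖ ≤ 0.0441 * ‖Xf β r h t 1‖ := by
    rcases le_total ((t + h) + κ) 2.57 with g0 | g0
    · exact b3_cmp 0.01428 0.42492 0.0003513 0.79716 0.043921 0.000093 0.0441 hr ((b3_Xm hh).trans_le (b3_HF 0.44 1.15 1.2 2.09439 2.57 1.29377 0.60291 0.58979 1.65865 1.69554 0.58978 1.8225 0.1382 2.46509 0.1507 0.07461 0.4777 0.000164 2.2606 0.1945 0.37224 hβ hr hκ (by norm_num) hk1 hk2 (by norm_num) (by linarith) (by linarith) (by norm_num) (ex_um 0.506 (by norm_num) (by norm_num) (by norm_num) (by norm_num)) (ex_um 0.528 (by norm_num) (by norm_num) (by norm_num) (by norm_num)) (ex_up 0.506 (by norm_num) (by norm_num) (by norm_num) (by norm_num)) (ex_up 0.528 (by norm_num) (by norm_num) (by norm_num) (by norm_num)) (by norm_num) (by norm_num) (ex_lm 0.528 (by norm_num) (by norm_num) (by norm_num) (by norm_num) (by norm_num)) (by norm_num) (by norm_num) (by norm_num) (by norm_num) (by norm_num) (by norm_num) (by norm_num) (by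 norm_num) (by norm_num) (by norm_num) (by norm_num) (by norm_num) (ex_un 0 0.7461 (by norm_num) (by norm_num) (by norm_num) (by norm_num)) (v5_hump 1.08 8.333 2.8867 0.000127 0.000164 hβ hr hκ hk1 hk2 (by norm_num) (tb := 2.57) (by linarith) (by norm_num) (by norm_num) (by norm_num) (by norm_num) (by norm_num) (by norm_num) (by norm_num) (ex_un 8 0.99 (by norm_num) (by norm_num) (by norm_num) (by norm_num)) (by norm_num)) (by norm_num) (by norm_num) (by norm_num))) hY (by norm_num) (by norm_num) (by norm_num) (by norm_num) (by norm_num) (ex_un 4 0.2492 (by norm_num) (by norm_num) (by norm_num) (by norm_num)) (by norm_num) (by norm_num) (by norm_num) (ex_un 7 0.9716 (by norm_num) (by norm_num) (by norm_num) (by norm_num)) (by norm_num) (by norm_num)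
    exact b3_cmp 1 0 0.007055 0.49716 0 0.035914 0.0441 hr (b3_w (b3_UD 1.15 1.2 2.57 3.1454 0.25 0.37202 0.25 1.9506 3.7415 0.3 hh hβ hr hκ (by norm_num) hk1 hk2 (by linarith) (by linarith) (by norm_num) (by norm_num) (by norm_num) (by norm_num) (by norm_num) (by norm_num) (by norm_num) (by norm_num) (by norm_num) (by norm_num) (by norm_num) (by norm_num) (by norm_num))) hY (by norm_num) (by norm_num) (by norm_num) (by norm_num) (by norm_num) (by norm_num) (by norm_num) (by norm_num) (by norm_num) (ex_un 4 0.9716 (by norm_num) (by norm_num) (by norm_num) (by norm_num)) (by norm_num) (by norm_num)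
  exact b3_out1 0.892 0.0441 hY (by norm_num) h0 h2 (by norm_num)

private theorem yR0 {κ t : ℝ} (h : DomR κ t) (hk1 : 1.15 ≤ κ) (hk2 : κ ≤ 1.2) (ht1 : -0.7124 ≤ t + κ) (ht2 : t + κ ≤ 0.0001) :
    (-0.379) ≤ sy κ t ∧ sy κ t ≤ 0.005 := by
  have hy1 : -0.379 ≤ sy κ t := syL_ge h 1.15 1.2 0.7124 0.379 0.68454 0.68455 0.2138 0.2162 0.22561 hk1 hk2 (by linarith) (by norm_num) (by norm_num) (by norm_num)
    (expm_ge (by norm_num) (by norm_num) (by norm_num) (by norm_num)) (expm_le (by norm_num) (by norm_num) (by norm_num)) (by norm_num)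
    (by norm_num) (by norm_num) (by norm_num) (by norm_num) (by norm_num) (by norm_num)
  have hy2 : sy κ t ≤ 0.005 := syR_le h 1.15 1.2 0.0001 0.005 1.00501 0.0041 0.00418 0.00437 hk1 hk2 (by linarith) (by norm_num) (by norm_num)
    (expn_ge (by norm_num) (by norm_num)) (by norm_num) (by norm_num) (Or.inr ((mul_le_mul_of_nonneg_left (expn_le (E := 1.00502) (by norm_num) (by norm_num) (by norm_num)) (by norm_num)).trans (by norm_num))) (by norm_num) (by norm_num) (by norm_num)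
  exact ⟨hy1, hy2⟩

theorem right0 {β r h t κ : ℝ} (hh : h = 2 * Real.pi / (3 : ℕ)) (hβ : 0 < β) (hr : 10 ≤ r) (hκ : κ = β * r)
    (hk1 : 1.15 ≤ κ) (hk2 : κ ≤ 1.2) (hT1 : 1.382 ≤ t + κ) (hT2 : t + κ ≤ h) :
    ‖Xf β r h t (-1)‖ < |‖Xf β r h t 1‖ - ‖Xf β r h t 0‖| := by
  obtain ⟨q1, q2, q3⟩ := b3_h hh
  have hR0 := b3_R0 hβ hr hκ
  have hR := b3_R hβ hr hκ (by linarith)
  have hD0 : DomR κ (t - h) := b3_dom (by linarith) (by linarith) (Or.inl (by linarith))
  have hy := yR0 hD0 hk1 hk2 (by linarith) (by linarith)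
  have hY : 0.6521 * Real.exp (r * 0.86911) ≤ ‖Xf β r h t 0‖ :=
    b3_lo hβ hr hκ (k := 0) (t' := t - h) (by push_cast; ring) hD0 0.12 3.315 0.6521 0.86911 (by norm_num)
      (T3_24_p0R hD0 hβ hk1 hk2 (by linarith) (by linarith) hR0 hR)
      (v5_Dup hD0 1.2 (-0.379) 0.005 1.46083 0.99502 3.315 hk2 hy.1 hy.2 (ex_up 0.379 (by norm_num) (by norm_num) (by norm_num) (by norm_num)) (ex_um 0.005 (by norm_num) (by norm_num) (by norm_num) (by norm_num)) (by norm_num) (by norm_num) (by norm_num)) (by norm_num) (by norm_num)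
      (b3_Vlo hD0 1.15 1.2 (-0.7124) 0.0001 1.3 0.26237 0.3674 0.93326 0.06908 0.86911 hk1 hk2 (by linarith) (by linarith) (by norm_num) (ex_lp 0.26237 (by norm_num) (by norm_num) (by norm_num)) (by norm_num) (by norm_num) (by norm_num) (by norm_num) (by norm_num) (by norm_num) (by norm_num) (by norm_num) (ex_um 0.06908 (by norm_num) (by norm_num) (by norm_num) (by norm_num)) (by norm_num))
  have h1 : ‖Xf β r h t 1‖ ≤ 0.3973 * ‖Xf β r h t 0‖ := by
    exact b3_cmp 0.1601 0.18432 0.0001691 0.86911 0.397243 0.000057 0.3973 hr (b3_X1.trans_le (b3_HF 0.37 1.15 1.2 1.382 2.0944 1.19613 0.65345 0.64147 1.53036 1.55894 0.64146 1.5778 0.1382 1.7527 0.6263 0.17093 0.1821 0.000004 1.618 0.2171 0.68479 hβ hr hκ (by norm_num) hk1 hk2 (by norm_num) (by linarith) (by linarith) (by norm_num) (ex_um 0.4255 (by norm_num) (by norm_num) (by norm_num) (by norm_num)) (ex_um 0.444 (by norm_num) (by norm_num) (by norm_num) (by norm_num)) (ex_up 0.4255 (by norm_num)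 (by norm_num) (by norm_num) (by norm_num)) (ex_up 0.444 (by norm_num) (by norm_num) (by norm_num) (by norm_num)) (by norm_num) (by norm_num) (ex_lm 0.444 (by norm_num) (by norm_num) (by norm_num) (by norm_num) (by norm_num)) (by norm_num) (by norm_num) (by norm_num) (by norm_num) (by norm_num) (by norm_num) (by norm_num) (by norm_num) (by norm_num) (by norm_num) (by norm_num) (by norm_num) (ex_un 1 0.7093 (by norm_num) (by norm_num) (by norm_num) (by norm_num)) (v5_hump 1.5556 8.333 2.8867 0.000002387 0.000004 hβ hr hκ hk1 hk2 (by norm_num) (tb := 2.0944) (by linarith) (by norm_num) (by norm_num) (by norm_num) (by norm_num) (by norm_num) (by norm_num) (by norm_num) (ex_un 12 0.9628 (by norm_num) (by norm_num) (by norm_num) (by norm_num)) (by norm_num)) (by norm_num) (by norm_num) (by norm_num))) hY (by norm_num) (by norm_num) (by norm_num) (by norm_num) (by norm_num) (ex_un 1 0.8432 (by norm_num) (by norm_num) (by norm_num) (by norm_num))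 (by norm_num) (by norm_num) (by norm_num) (ex_un 8 0.6911 (by norm_num) (by norm_num) (by norm_num) (by norm_num)) (by norm_num) (by norm_num)
  have h2 : ‖Xf β r h t (-1)‖ ≤ 0.0742 * ‖Xf β r h t 0‖ := by
    exact b3_cmp 1 0 0.02484 0.37014 0 0.074155 0.0742 hr (b3_w (b3_UD 1.15 1.2 3.47639 4.1888 0.005 0.37202 0.44897 1.0149 1.9467 0.49897 hh hβ hr hκ (by norm_num) hk1 hk2 (by linarith) (by linarith) (by norm_num) (by norm_num) (by norm_num) (by norm_num) (by norm_num) (by norm_num) (by norm_num) (by norm_num) (by norm_num) (by norm_num) (by norm_num) (by norm_num) (by norm_num))) hY (by norm_num) (by norm_num) (by norm_num) (by norm_num) (by norm_num) (by norm_num) (by norm_num) (by norm_num) (by norm_num) (ex_un 3 0.7014 (by norm_num) (by norm_num) (by norm_num) (by norm_num)) (by norm_num) (by norm_num)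
  exact b3_out0 0.3973 0.0742 hY (by norm_num) h1 h2 (by norm_num)

private theorem yI {κ t : ℝ} (h : DomR κ t) (hk1 : 1.15 ≤ κ) (hk2 : κ ≤ 1.2) (ht1 : -1.0434 ≤ t + κ) (ht2 : t + κ ≤ -0.71239) :
    (-0.55) ≤ sy κ t ∧ sy κ t ≤ (-0.37) := by
  have hy1 : -0.55 ≤ sy κ t := syL_ge h 1.15 1.2 1.0434 0.55 0.57694 0.57696 0.2615 0.26443 0.27594 hk1 hk2 (by linarith) (by norm_num) (by norm_num) (by norm_num)
    (expm_ge (by norm_num) (by norm_num) (by norm_num) (by norm_num)) (expm_le (by norm_num) (by norm_num) (by norm_num)) (by norm_num)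
    (by norm_num) (by norm_num) (by norm_num) (by norm_num) (by norm_num) (by norm_num)
  have hy2 : sy κ t ≤ -0.37 := syL_le h 1.15 1.2 0.71239 0.37 0.69073 0.69074 0.21297 0.22224 hk1 hk2 (by linarith) (by norm_num) (by norm_num) (by norm_num)
    (expm_ge (by norm_num) (by norm_num) (by norm_num) (by norm_num)) (expm_le (by norm_num) (by norm_num) (by norm_num)) (by norm_num)
    (by norm_num) (by norm_num) (by norm_num) (by norm_num) (by norm_num) (by norm_num)
  exact ⟨hy1, hy2⟩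

theorem innE {β r h t κ : ℝ} (hh : h = 2 * Real.pi / (3 : ℕ)) (hβ : 0 < β) (hr : 10 ≤ r) (hκ : κ = β * r)
    (hk1 : 1.15 ≤ κ) (hk2 : κ ≤ 1.2) (hT1 : 1.051 ≤ t + κ) (hT2 : t + κ ≤ 1.382) :
    ‖Xf β r h t (-1)‖ ≤ 0.00162 * ‖Xf β r h t 0‖ ∧ ‖Xf β r h (t + β) (-1)‖ ≤ 0.00342 * ‖Xf β r h t 0‖ := by
  obtain ⟨q1, q2, q3⟩ := b3_h hh
  have hR0 := b3_R0 hβ hr hκ
  have hR := b3_R hβ hr hκ (by linarith)
  have hD0 : DomR κ (t - h) := b3_dom (by linarith) (by linarith) (Or.inl (by linarith))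
  have hy := yI hD0 hk1 hk2 (by linarith) (by linarith)
  have hY : 0.5823 * Real.exp (r * 0.75061) ≤ ‖Xf β r h t 0‖ :=
    b3_lo hβ hr hκ (k := 0) (t' := t - h) (by push_cast; ring) hD0 0.165 4.2261 0.5823 0.75061 (by norm_num)
      (T3_24_p0 hD0 hβ hk1 hk2 (by linarith) (by linarith) hR0 hR)
      (v5_Dup hD0 1.2 (-0.55) (-0.37) 1.73326 1.44774 4.2261 hk2 hy.1 hy.2 (ex_up 0.55 (by norm_num) (by norm_num) (by norm_num) (by norm_num)) (ex_up 0.37 (by norm_num) (by norm_num) (by norm_num) (by norm_num)) (by norm_num) (by norm_num) (by norm_num)) (by norm_num) (by norm_num)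
      (b3_Vlo hD0 1.15 1.2 (-1.0434) (-0.71239) 1.66 0.50682 0.2844 0.95983 0.041 0.75061 hk1 hk2 (by linarith) (by linarith) (by norm_num) (ex_lp 0.50682 (by norm_num) (by norm_num) (by norm_num)) (by norm_num) (by norm_num) (by norm_num) (by norm_num) (by norm_num) (by norm_num) (by norm_num) (by norm_num) (ex_um 0.041 (by norm_num) (by norm_num) (by norm_num) (by norm_num)) (by norm_num))
  constructor
  · exact b3_cmp 1 0 0.0009064 0.70061 0 0.00162 0.00162 hr ((b3_Xm hh).trans_le (b3_U1 1.15 1.2 3.14539 3.4764 0.37459 0.1382 0.71357 0.3657 0.0071 1.1963 0.304017 1.0404 hβ hr hκ (by norm_num) hk1 hk2 (by linarith) (by linarith) (by norm_num) (by norm_num) (by norm_num) (by norm_num) (by norm_num) (by norm_num) (by norm_num) (by norm_num) (by norm_num) (by norm_num) (by norm_num) (by norm_num) (by norm_num) (ex_un 3 0.657 (by norm_num) (by norm_num) (by norm_num) (by norm_num)) (v5_hump 0.1736 8.333 2.8867 0.2357 0.304017 hβ hr hκ hk1 hk2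 (by norm_num) (tb := 3.4764) (by linarith) (by norm_num) (by norm_num) (by norm_num) (by norm_num) (by norm_num) (by norm_num) (by norm_num) (ex_un 1 0.4466 (by norm_num) (by norm_num) (by norm_num) (by norm_num)) (by norm_num)) (by norm_num))) hY (by norm_num) (by norm_num) (by norm_num) (by norm_num) (by norm_num) (by norm_num) (by norm_num) (by norm_num) (by norm_num) (ex_un 7 0.0061 (by norm_num) (by norm_num) (by norm_num) (by norm_num)) (by norm_num) (by norm_num)
  · exact b3_cmp 1 0 0.0009688 0.69561 0 0.003414 0.00342 hr (b3_w (b3_UD 1.15 1.2 3.14539 3.5964 0.005 0.37202 0.005 1.0697 2.0518 0.055 hh hβ hr hκ (by norm_num) hk1 hk2 (by linarith) (by linarith) (by norm_num) (by norm_num) (by norm_num) (by norm_num) (by norm_num) (by norm_num) (by norm_num) (by norm_num) (by norm_num) (by norm_num) (by norm_num) (by norm_num) (by norm_num))) hY (by norm_num) (by norm_num) (by norm_num) (by norm_num) (by norm_num) (by norm_num) (by norm_num)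 (by norm_num) (by norm_num) (ex_un 6 0.9561 (by norm_num) (by norm_num) (by norm_num) (by norm_num)) (by norm_num) (by norm_num)

private theorem yA0 {κ t : ℝ} (h : DomR κ t) (hk1 : 1.15 ≤ κ) (hk2 : κ ≤ 1.2) (ht1 : 1.051 ≤ t + κ) (ht2 : t + κ ≤ 1.071) :
    0.402 ≤ sy κ t ∧ sy κ t ≤ 0.415 := by
  have hy1 : 0.402 ≤ sy κ t := syR_ge h 1.15 1.2 1.051 0.402 1.49481 1.49482 0.50076 0.52254 hk1 hk2 (by linarith) (by norm_num) (by norm_num)
    (expn_ge (by norm_num) (by norm_num)) (expn_le (by norm_num) (by norm_num) (by norm_num)) (by norm_num)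
    (by norm_num) (by norm_num) (by norm_num) (by norm_num) (by norm_num) (by norm_num)
  have hy2 : sy κ t ≤ 0.415 := syR_le h 1.15 1.2 1.071 0.415 1.51437 0.518 0.52371 0.5465 hk1 hk2 (by linarith) (by norm_num) (by norm_num)
    (expn_ge (by norm_num) (by norm_num)) (by norm_num) (by norm_num) (Or.inr ((mul_le_mul_of_nonneg_left (expn_le (E := 1.51438) (by norm_num) (by norm_num) (by norm_num)) (by norm_num)).trans (by norm_num))) (by norm_num) (by norm_num) (by norm_num)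
  exact ⟨hy1, hy2⟩

private theorem yB0 {κ t : ℝ} (h : DomR κ t) (hk1 : 1.15 ≤ κ) (hk2 : κ ≤ 1.2) (ht1 : -1.0434 ≤ t + κ) (ht2 : t + κ ≤ -1.02339) :
    (-0.55) ≤ sy κ t ∧ sy κ t ≤ (-0.525) := by
  have hy1 : -0.55 ≤ sy κ t := syL_ge h 1.15 1.2 1.0434 0.55 0.57694 0.57696 0.2615 0.26443 0.27594 hk1 hk2 (by linarith) (by norm_num) (by norm_num) (by norm_num)
    (expm_ge (by norm_num) (by norm_num) (by norm_num) (by norm_num)) (expm_le (by norm_num) (by norm_num) (by norm_num)) (by norm_num)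
    (by norm_num) (by norm_num) (by norm_num) (by norm_num) (by norm_num) (by norm_num)
  have hy2 : sy κ t ≤ -0.525 := syL_le h 1.15 1.2 1.02339 0.525 0.59155 0.59156 0.2588 0.27007 hk1 hk2 (by linarith) (by norm_num) (by norm_num) (by norm_num)
    (expm_ge (by norm_num) (by norm_num) (by norm_num) (by norm_num)) (expm_le (by norm_num) (by norm_num) (by norm_num)) (by norm_num)
    (by norm_num) (by norm_num) (by norm_num) (by norm_num) (by norm_num) (by norm_num)
  exact ⟨hy1, hy2⟩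

theorem pc0 {β r h t κ : ℝ} (hh : h = 2 * Real.pi / (3 : ℕ)) (hβ : 0 < β) (hr : 10 ≤ r) (hκ : κ = β * r)
    (hk1 : 1.15 ≤ κ) (hk2 : κ ≤ 1.2) (hT1 : 1.051 ≤ t + κ) (hT2 : t + κ ≤ 1.071) :
    Xf β r h t 0 ≠ 0 ∧ r * 0.0965 ≤ (Ld β r h t 1 - Ld β r h t 0).im ∧
      ‖(((-1 : ℤ) : ℂ) - 1) * Ld β r h t 0 - ((-1 : ℤ) : ℂ) * Ld β r h t 1‖ ≤ r * 5.41 := by
  obtain ⟨q1, q2, q3⟩ := b3_h hh
  have hR0 := b3_R0 hβ hr hκ
  have hR := b3_R hβ hr hκ (by linarith)
  have hD1 : DomR κ t := b3_dom (by linarith) (by linarith) (Or.inl (by linarith))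
  have hD0 : DomR κ (t - h) := b3_dom (by linarith) (by linarith) (Or.inl (by linarith))
  have y1 := yA0 hD1 hk1 hk2 (by linarith) (by linarith)
  have y0 := yB0 hD0 hk1 hk2 (by linarith) (by linarith)
  have j1 := T3_24_d1_0 hD1 hβ hk1 hk2 (by linarith) (by linarith) hR0 hR
  exact b3_piece 1.15 1.2 0.402 0.415 0.408 0.66497 0.66899 0.66035 0.8028 2.3958 2.458 0.1 0.155 0.155 1.8344 0.9515 0 0 (-0.55) (-0.525) (-0.537) 1.71086 1.73326 2.08 3.7281 0.08 0.285 0.165 4.2665 4.5962 0 0 0.0965 5.41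
    hβ hr hκ (by norm_num) hk1 hk2 hD1 hD0 j1 (j1 _ (by rw [sub_self, norm_zero]; norm_num))
    (T3_24_d0_0 hD0 hβ hk1 hk2 (by linarith) (by linarith) hR0 hR)
    (T3_24_p0 hD0 hβ hk1 hk2 (by linarith) (by linarith) hR0 hR)
    y1.1 y1.2 y0.1 y0.2 (by norm_num)
    (ex_um 0.402 (by norm_num) (by norm_num) (by norm_num) (by norm_num)) (ex_um 0.415 (by norm_num) (by norm_num) (by norm_num) (by norm_num)) (ex_lm 0.408 (by norm_num) (by norm_num) (by norm_num) (by norm_num) (by norm_num)) (by norm_num) (by norm_num) (by norm_num) (by norm_num) (by norm_num) (by norm_num) (by norm_num) (by norm_num)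
    (by norm_num) (by norm_num) (by norm_num) (by norm_num) (by norm_num) (by norm_num) (by norm_num) (by norm_num) (by norm_num) (by norm_num)
    (ex_up 0.55 (by norm_num) (by norm_num) (by norm_num) (by norm_num)) (ex_lp 0.537 (by norm_num) (by norm_num) (by norm_num)) (by norm_num) (by norm_num) (by norm_num) (by norm_num) (by norm_num) (by norm_num)
    (by norm_num) (by norm_num) (by norm_num) (by norm_num) (by norm_num) (by norm_num) (by norm_num) (by norm_num) (by norm_num) (by norm_num) (by norm_num)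
    (by norm_num) (by norm_num) (by norm_num) (by norm_num)

private theorem yA1 {κ t : ℝ} (h : DomR κ t) (hk1 : 1.15 ≤ κ) (hk2 : κ ≤ 1.2) (ht1 : 1.071 ≤ t + κ) (ht2 : t + κ ≤ 1.091) :
    0.407 ≤ sy κ t ∧ sy κ t ≤ 0.421 := by
  have hy1 : 0.407 ≤ sy κ t := syR_ge h 1.15 1.2 1.071 0.407 1.5023 1.50231 0.50953 0.53169 hk1 hk2 (by linarith) (by norm_num) (by norm_num)
    (expn_ge (by norm_num) (by norm_num)) (expn_le (by norm_num) (by norm_num) (by norm_num)) (by norm_num)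
    (by norm_num) (by norm_num) (by norm_num) (by norm_num) (by norm_num) (by norm_num)
  have hy2 : sy κ t ≤ 0.421 := syR_le h 1.15 1.2 1.091 0.421 1.52348 0.5286 0.53448 0.55773 hk1 hk2 (by linarith) (by norm_num) (by norm_num)
    (expn_ge (by norm_num) (by norm_num)) (by norm_num) (by norm_num) (Or.inr ((mul_le_mul_of_nonneg_left (expn_le (E := 1.52349) (by norm_num) (by norm_num) (by norm_num)) (by norm_num)).trans (by norm_num))) (by norm_num) (by norm_num) (by norm_num)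
  exact ⟨hy1, hy2⟩

private theorem yB1 {κ t : ℝ} (h : DomR κ t) (hk1 : 1.15 ≤ κ) (hk2 : κ ≤ 1.2) (ht1 : -1.0234 ≤ t + κ) (ht2 : t + κ ≤ -1.00339) :
    (-0.54) ≤ sy κ t ∧ sy κ t ≤ (-0.516) := by
  have hy1 : -0.54 ≤ sy κ t := syL_ge h 1.15 1.2 1.0234 0.54 0.58274 0.58275 0.2593 0.26223 0.27364 hk1 hk2 (by linarith) (by norm_num) (by norm_num) (by norm_num)
    (expm_ge (by norm_num) (by norm_num) (by norm_num) (by norm_num)) (expm_le (by norm_num) (by norm_num) (by norm_num)) (by norm_num)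
    (by norm_num) (by norm_num) (by norm_num) (by norm_num) (by norm_num) (by norm_num)
  have hy2 : sy κ t ≤ -0.516 := syL_le h 1.15 1.2 1.00339 0.516 0.5969 0.59691 0.25666 0.26784 hk1 hk2 (by linarith) (by norm_num) (by norm_num) (by norm_num)
    (expm_ge (by norm_num) (by norm_num) (by norm_num) (by norm_num)) (expm_le (by norm_num) (by norm_num) (by norm_num)) (by norm_num)
    (by norm_num) (by norm_num) (by norm_num) (by norm_num) (by norm_num) (by norm_num)
  exact ⟨hy1, hy2⟩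

theorem pc1 {β r h t κ : ℝ} (hh : h = 2 * Real.pi / (3 : ℕ)) (hβ : 0 < β) (hr : 10 ≤ r) (hκ : κ = β * r)
    (hk1 : 1.15 ≤ κ) (hk2 : κ ≤ 1.2) (hT1 : 1.071 ≤ t + κ) (hT2 : t + κ ≤ 1.091) :
    Xf β r h t 0 ≠ 0 ∧ r * 0.0965 ≤ (Ld β r h t 1 - Ld β r h t 0).im ∧
      ‖(((-1 : ℤ) : ℂ) - 1) * Ld β r h t 0 - ((-1 : ℤ) : ℂ) * Ld β r h t 1‖ ≤ r * 5.41 := by
  obtain ⟨q1, q2, q3⟩ := b3_h hh
  have hR0 := b3_R0 hβ hr hκ
  have hR := b3_R hβ hr hκ (by linarith)
  have hD1 : DomR κ t := b3_dom (by linarith) (by linarith) (Or.inl (by linarith))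
  have hD0 : DomR κ (t - h) := b3_dom (by linarith) (by linarith) (Or.inl (by linarith))
  have y1 := yA1 hD1 hk1 hk2 (by linarith) (by linarith)
  have y0 := yB1 hD0 hk1 hk2 (by linarith) (by linarith)
  have j1 := T3_24_d1_0 hD1 hβ hk1 hk2 (by linarith) (by linarith) hR0 hR
  exact b3_piece 1.15 1.2 0.407 0.421 0.414 0.661 0.66565 0.6564 0.7988 2.3999 2.4625 0.1 0.155 0.155 1.8344 0.9459 0 0 (-0.54) (-0.516) (-0.528) 1.69553 1.71601 2.0593 3.6787 0.08 0.285 0.165 4.2665 4.5809 0 0 0.0965 5.41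
    hβ hr hκ (by norm_num) hk1 hk2 hD1 hD0 j1 (j1 _ (by rw [sub_self, norm_zero]; norm_num))
    (T3_24_d0_0 hD0 hβ hk1 hk2 (by linarith) (by linarith) hR0 hR)
    (T3_24_p0 hD0 hβ hk1 hk2 (by linarith) (by linarith) hR0 hR)
    y1.1 y1.2 y0.1 y0.2 (by norm_num)
    (ex_um 0.407 (by norm_num) (by norm_num) (by norm_num) (by norm_num)) (ex_um 0.421 (by norm_num) (by norm_num) (by norm_num) (by norm_num)) (ex_lm 0.414 (by norm_num) (by norm_num) (by norm_num) (by norm_num) (by norm_num)) (by norm_num) (by norm_num) (by norm_num) (by norm_num) (by norm_num) (by norm_num) (by norm_num) (by norm_num)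
    (by norm_num) (by norm_num) (by norm_num) (by norm_num) (by norm_num) (by norm_num) (by norm_num) (by norm_num) (by norm_num) (by norm_num)
    (ex_up 0.54 (by norm_num) (by norm_num) (by norm_num) (by norm_num)) (ex_lp 0.528 (by norm_num) (by norm_num) (by norm_num)) (by norm_num) (by norm_num) (by norm_num) (by norm_num) (by norm_num) (by norm_num)
    (by norm_num) (by norm_num) (by norm_num) (by norm_num) (by norm_num) (by norm_num) (by norm_num) (by norm_num) (by norm_num) (by norm_num) (by norm_num)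
    (by norm_num) (by norm_num) (by norm_num) (by norm_num)

private theorem yA2 {κ t : ℝ} (h : DomR κ t) (hk1 : 1.15 ≤ κ) (hk2 : κ ≤ 1.2) (ht1 : 1.091 ≤ t + κ) (ht2 : t + κ ≤ 1.118) :
    0.412 ≤ sy κ t ∧ sy κ t ≤ 0.428 := by
  have hy1 : 0.412 ≤ sy κ t := syR_ge h 1.15 1.2 1.091 0.412 1.50983 1.50984 0.51837 0.54092 hk1 hk2 (by linarith) (by norm_num) (by norm_num)
    (expn_ge (by norm_num) (by norm_num)) (expn_le (by norm_num) (by norm_num) (by norm_num)) (by norm_num)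
    (by norm_num) (by norm_num) (by norm_num) (by norm_num) (by norm_num) (by norm_num)
  have hy2 : sy κ t ≤ 0.428 := syR_le h 1.15 1.2 1.118 0.428 1.53418 0.5412 0.54719 0.57099 hk1 hk2 (by linarith) (by norm_num) (by norm_num)
    (expn_ge (by norm_num) (by norm_num)) (by norm_num) (by norm_num) (Or.inr ((mul_le_mul_of_nonneg_left (expn_le (E := 1.53419) (by norm_num) (by norm_num) (by norm_num)) (by norm_num)).trans (by norm_num))) (by norm_num) (by norm_num) (by norm_num)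
  exact ⟨hy1, hy2⟩

private theorem yB2 {κ t : ℝ} (h : DomR κ t) (hk1 : 1.15 ≤ κ) (hk2 : κ ≤ 1.2) (ht1 : -1.0034 ≤ t + κ) (ht2 : t + κ ≤ -0.97639) :
    (-0.53) ≤ sy κ t ∧ sy κ t ≤ (-0.503) := by
  have hy1 : -0.53 ≤ sy κ t := syL_ge h 1.15 1.2 1.0034 0.53 0.5886 0.58861 0.2571 0.25996 0.27128 hk1 hk2 (by linarith) (by norm_num) (by norm_num) (by norm_num)
    (expm_ge (by norm_num) (by norm_num) (by norm_num) (by norm_num)) (expm_le (by norm_num) (by norm_num) (by norm_num)) (by norm_num)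
    (by norm_num) (by norm_num) (by norm_num) (by norm_num) (by norm_num) (by norm_num)
  have hy2 : sy κ t ≤ -0.503 := syL_le h 1.15 1.2 0.97639 0.503 0.60471 0.60472 0.25347 0.2645 hk1 hk2 (by linarith) (by norm_num) (by norm_num) (by norm_num)
    (expm_ge (by norm_num) (by norm_num) (by norm_num) (by norm_num)) (expm_le (by norm_num) (by norm_num) (by norm_num)) (by norm_num)
    (by norm_num) (by norm_num) (by norm_num) (by norm_num) (by norm_num) (by norm_num)
  exact ⟨hy1, hy2⟩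

theorem pc2 {β r h t κ : ℝ} (hh : h = 2 * Real.pi / (3 : ℕ)) (hβ : 0 < β) (hr : 10 ≤ r) (hκ : κ = β * r)
    (hk1 : 1.15 ≤ κ) (hk2 : κ ≤ 1.2) (hT1 : 1.091 ≤ t + κ) (hT2 : t + κ ≤ 1.118) :
    Xf β r h t 0 ≠ 0 ∧ r * 0.0965 ≤ (Ld β r h t 1 - Ld β r h t 0).im ∧
      ‖(((-1 : ℤ) : ℂ) - 1) * Ld β r h t 0 - ((-1 : ℤ) : ℂ) * Ld β r h t 1‖ ≤ r * 5.41 := by
  obtain ⟨q1, q2, q3⟩ := b3_h hh
  have hR0 := b3_R0 hβ hr hκ
  have hR := b3_R hβ hr hκ (by linarith)
  have hD1 : DomR κ t := b3_dom (by linarith) (by linarith) (Or.inl (by linarith))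
  have hD0 : DomR κ (t - h) := b3_dom (by linarith) (by linarith) (Or.inl (by linarith))
  have y1 := yA2 hD1 hk1 hk2 (by linarith) (by linarith)
  have y0 := yB2 hD0 hk1 hk2 (by linarith) (by linarith)
  have j1 := T3_24_d1_1 hD1 hβ hk1 hk2 (by linarith) (by linarith) hR0 hR
  exact b3_piece 1.15 1.2 0.412 0.428 0.42 0.65704 0.66233 0.65182 0.7948 2.404 2.4679 0.08 0.155 0.155 2.2929 1.1754 0 0 (-0.53) (-0.503) (-0.516) 1.67531 1.69894 2.0388 3.6093 0.1 0.325 0.165 3.8923 4.1771 0 0 0.0965 5.41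
    hβ hr hκ (by norm_num) hk1 hk2 hD1 hD0 j1 (j1 _ (by rw [sub_self, norm_zero]; norm_num))
    (T3_24_d0_1 hD0 hβ hk1 hk2 (by linarith) (by linarith) hR0 hR)
    (T3_24_p0 hD0 hβ hk1 hk2 (by linarith) (by linarith) hR0 hR)
    y1.1 y1.2 y0.1 y0.2 (by norm_num)
    (ex_um 0.412 (by norm_num) (by norm_num) (by norm_num) (by norm_num)) (ex_um 0.428 (by norm_num) (by norm_num) (by norm_num) (by norm_num)) (ex_lm 0.42 (by norm_num) (by norm_num) (by norm_num) (by norm_num) (by norm_num)) (by norm_num) (by norm_num) (by norm_num) (by norm_num) (by norm_num) (by norm_num) (by norm_num) (by norm_num)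
    (by norm_num) (by norm_num) (by norm_num) (by norm_num) (by norm_num) (by norm_num) (by norm_num) (by norm_num) (by norm_num) (by norm_num)
    (ex_up 0.53 (by norm_num) (by norm_num) (by norm_num) (by norm_num)) (ex_lp 0.516 (by norm_num) (by norm_num) (by norm_num)) (by norm_num) (by norm_num) (by norm_num) (by norm_num) (by norm_num) (by norm_num)
    (by norm_num) (by norm_num) (by norm_num) (by norm_num) (by norm_num) (by norm_num) (by norm_num) (by norm_num) (by norm_num) (by norm_num) (by norm_num)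
    (by norm_num) (by norm_num) (by norm_num) (by norm_num)

private theorem yA3 {κ t : ℝ} (h : DomR κ t) (hk1 : 1.15 ≤ κ) (hk2 : κ ≤ 1.2) (ht1 : 1.118 ≤ t + κ) (ht2 : t + κ ≤ 1.144) :
    0.419 ≤ sy κ t ∧ sy κ t ≤ 0.436 := by
  have hy1 : 0.419 ≤ sy κ t := syR_ge h 1.15 1.2 1.118 0.419 1.52043 1.52045 0.53088 0.55398 hk1 hk2 (by linarith) (by norm_num) (by norm_num)
    (expn_ge (by norm_num) (by norm_num)) (expn_le (by norm_num) (by norm_num) (by norm_num)) (by norm_num)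
    (by norm_num) (by norm_num) (by norm_num) (by norm_num) (by norm_num) (by norm_num)
  have hy2 : sy κ t ≤ 0.436 := syR_le h 1.15 1.2 1.144 0.436 1.5465 0.5557 0.56189 0.58633 hk1 hk2 (by linarith) (by norm_num) (by norm_num)
    (expn_ge (by norm_num) (by norm_num)) (by norm_num) (by norm_num) (Or.inr ((mul_le_mul_of_nonneg_left (expn_le (E := 1.54651) (by norm_num) (by norm_num) (by norm_num)) (by norm_num)).trans (by norm_num))) (by norm_num) (by norm_num) (by norm_num)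
  exact ⟨hy1, hy2⟩

private theorem yB3 {κ t : ℝ} (h : DomR κ t) (hk1 : 1.15 ≤ κ) (hk2 : κ ≤ 1.2) (ht1 : -0.9764 ≤ t + κ) (ht2 : t + κ ≤ -0.95039) :
    (-0.516) ≤ sy κ t ∧ sy κ t ≤ (-0.49) := by
  have hy1 : -0.516 ≤ sy κ t := syL_ge h 1.15 1.2 0.9764 0.516 0.5969 0.59691 0.2622 0.25666 0.26784 hk1 hk2 (by linarith) (by norm_num) (by norm_num) (by norm_num)
    (expm_ge (by norm_num) (by norm_num) (by norm_num) (by norm_num)) (expm_le (by norm_num) (by norm_num) (by norm_num)) (by norm_num)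
    (by norm_num) (by norm_num) (by norm_num) (by norm_num) (by norm_num) (by norm_num)
  have hy2 : sy κ t ≤ -0.49 := syL_le h 1.15 1.2 0.95039 0.49 0.61262 0.61263 0.25015 0.26104 hk1 hk2 (by linarith) (by norm_num) (by norm_num) (by norm_num)
    (expm_ge (by norm_num) (by norm_num) (by norm_num) (by norm_num)) (expm_le (by norm_num) (by norm_num) (by norm_num)) (by norm_num)
    (by norm_num) (by norm_num) (by norm_num) (by norm_num) (by norm_num) (by norm_num)
  exact ⟨hy1, hy2⟩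

theorem pc3 {β r h t κ : ℝ} (hh : h = 2 * Real.pi / (3 : ℕ)) (hβ : 0 < β) (hr : 10 ≤ r) (hκ : κ = β * r)
    (hk1 : 1.15 ≤ κ) (hk2 : κ ≤ 1.2) (hT1 : 1.118 ≤ t + κ) (hT2 : t + κ ≤ 1.144) :
    Xf β r h t 0 ≠ 0 ∧ r * 0.0965 ≤ (Ld β r h t 1 - Ld β r h t 0).im ∧
      ‖(((-1 : ℤ) : ℂ) - 1) * Ld β r h t 0 - ((-1 : ℤ) : ℂ) * Ld β r h t 1‖ ≤ r * 5.41 := by
  obtain ⟨q1, q2, q3⟩ := b3_h hh
  have hR0 := b3_R0 hβ hr hκ
  have hR := b3_R hβ hr hκ (by linarith)
  have hD1 : DomR κ t := b3_dom (by linarith) (by linarith) (Or.inl (by linarith))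
  have hD0 : DomR κ (t - h) := b3_dom (by linarith) (by linarith) (Or.inl (by linarith))
  have y1 := yA3 hD1 hk1 hk2 (by linarith) (by linarith)
  have y0 := yB3 hD0 hk1 hk2 (by linarith) (by linarith)
  have j1 := T3_24_d1_1 hD1 hβ hk1 hk2 (by linarith) (by linarith) hR0 hR
  exact b3_piece 1.15 1.2 0.419 0.436 0.427 0.65246 0.65771 0.64662 0.7893 2.41 2.4741 0.08 0.155 0.155 2.2929 1.1658 0 0 (-0.516) (-0.49) (-0.503) 1.65367 1.67532 2.0104 3.5425 0.1 0.325 0.165 3.8923 4.1576 0 0 0.0965 5.41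
    hβ hr hκ (by norm_num) hk1 hk2 hD1 hD0 j1 (j1 _ (by rw [sub_self, norm_zero]; norm_num))
    (T3_24_d0_1 hD0 hβ hk1 hk2 (by linarith) (by linarith) hR0 hR)
    (T3_24_p0 hD0 hβ hk1 hk2 (by linarith) (by linarith) hR0 hR)
    y1.1 y1.2 y0.1 y0.2 (by norm_num)
    (ex_um 0.419 (by norm_num) (by norm_num) (by norm_num) (by norm_num)) (ex_um 0.436 (by norm_num) (by norm_num) (by norm_num) (by norm_num)) (ex_lm 0.427 (by norm_num) (by norm_num) (by norm_num) (by norm_num) (by norm_num)) (by norm_num) (by norm_num) (by norm_num) (by norm_num) (by norm_num) (by norm_num) (by norm_num) (by norm_num)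
    (by norm_num) (by norm_num) (by norm_num) (by norm_num) (by norm_num) (by norm_num) (by norm_num) (by norm_num) (by norm_num) (by norm_num)
    (ex_up 0.516 (by norm_num) (by norm_num) (by norm_num) (by norm_num)) (ex_lp 0.503 (by norm_num) (by norm_num) (by norm_num)) (by norm_num) (by norm_num) (by norm_num) (by norm_num) (by norm_num) (by norm_num)
    (by norm_num) (by norm_num) (by norm_num) (by norm_num) (by norm_num) (by norm_num) (by norm_num) (by norm_num) (by norm_num) (by norm_num) (by norm_num)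
    (by norm_num) (by norm_num) (by norm_num) (by norm_num)

private theorem yA4 {κ t : ℝ} (h : DomR κ t) (hk1 : 1.15 ≤ κ) (hk2 : κ ≤ 1.2) (ht1 : 1.144 ≤ t + κ) (ht2 : t + κ ≤ 1.171) :
    0.426 ≤ sy κ t ∧ sy κ t ≤ 0.443 := by
  have hy1 : 0.426 ≤ sy κ t := syR_ge h 1.15 1.2 1.144 0.426 1.53112 1.53113 0.54354 0.56719 hk1 hk2 (by linarith) (by norm_num) (by norm_num)
    (expn_ge (by norm_num) (by norm_num)) (expn_le (by norm_num) (by norm_num) (by norm_num)) (by norm_num)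
    (by norm_num) (by norm_num) (by norm_num) (by norm_num) (by norm_num) (by norm_num)
  have hy2 : sy κ t ≤ 0.443 := syR_le h 1.15 1.2 1.171 0.443 1.55737 0.5686 0.57492 0.59993 hk1 hk2 (by linarith) (by norm_num) (by norm_num)
    (expn_ge (by norm_num) (by norm_num)) (by norm_num) (by norm_num) (Or.inr ((mul_le_mul_of_nonneg_left (expn_le (E := 1.55738) (by norm_num) (by norm_num) (by norm_num)) (by norm_num)).trans (by norm_num))) (by norm_num) (by norm_num) (by norm_num)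
  exact ⟨hy1, hy2⟩

private theorem yB4 {κ t : ℝ} (h : DomR κ t) (hk1 : 1.15 ≤ κ) (hk2 : κ ≤ 1.2) (ht1 : -0.9504 ≤ t + κ) (ht2 : t + κ ≤ -0.92339) :
    (-0.503) ≤ sy κ t ∧ sy κ t ≤ (-0.477) := by
  have hy1 : -0.503 ≤ sy κ t := syL_ge h 1.15 1.2 0.9504 0.503 0.60471 0.60472 0.2516 0.25347 0.2645 hk1 hk2 (by linarith) (by norm_num) (by norm_num) (by norm_num)
    (expm_ge (by norm_num) (by norm_num) (by norm_num) (by norm_num)) (expm_le (by norm_num) (by norm_num) (by norm_num)) (by norm_num)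
    (by norm_num) (by norm_num) (by norm_num) (by norm_num) (by norm_num) (by norm_num)
  have hy2 : sy κ t ≤ -0.477 := syL_le h 1.15 1.2 0.92339 0.477 0.62064 0.62065 0.2467 0.25744 hk1 hk2 (by linarith) (by norm_num) (by norm_num) (by norm_num)
    (expm_ge (by norm_num) (by norm_num) (by norm_num) (by norm_num)) (expm_le (by norm_num) (by norm_num) (by norm_num)) (by norm_num)
    (by norm_num) (by norm_num) (by norm_num) (by norm_num) (by norm_num) (by norm_num)
  exact ⟨hy1, hy2⟩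

theorem pc4 {β r h t κ : ℝ} (hh : h = 2 * Real.pi / (3 : ℕ)) (hβ : 0 < β) (hr : 10 ≤ r) (hκ : κ = β * r)
    (hk1 : 1.15 ≤ κ) (hk2 : κ ≤ 1.2) (hT1 : 1.144 ≤ t + κ) (hT2 : t + κ ≤ 1.171) :
    Xf β r h t 0 ≠ 0 ∧ r * 0.0965 ≤ (Ld β r h t 1 - Ld β r h t 0).im ∧
      ‖(((-1 : ℤ) : ℂ) - 1) * Ld β r h t 0 - ((-1 : ℤ) : ℂ) * Ld β r h t 1‖ ≤ r * 5.41 := by
  obtain ⟨q1, q2, q3⟩ := b3_h hh
  have hR0 := b3_R0 hβ hr hκ
  have hR := b3_R hβ hr hκ (by linarith)
  have hD1 : DomR κ t := b3_dom (by linarith) (by linarith) (Or.inl (by linarith))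
  have hD0 : DomR κ (t - h) := b3_dom (by linarith) (by linarith) (Or.inl (by linarith))
  have y1 := yA4 hD1 hk1 hk2 (by linarith) (by linarith)
  have y0 := yB4 hD0 hk1 hk2 (by linarith) (by linarith)
  have j1 := T3_24_d1_1 hD1 hβ hk1 hk2 (by linarith) (by linarith) hR0 hR
  exact b3_piece 1.15 1.2 0.426 0.443 0.434 0.64791 0.65312 0.64211 0.7838 2.416 2.4798 0.08 0.155 0.155 2.2929 1.1563 0 0 (-0.503) (-0.477) (-0.49) 1.63231 1.65368 1.9845 3.478 0.1 0.325 0.165 3.8923 4.1419 0 0 0.0965 5.41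
    hβ hr hκ (by norm_num) hk1 hk2 hD1 hD0 j1 (j1 _ (by rw [sub_self, norm_zero]; norm_num))
    (T3_24_d0_1 hD0 hβ hk1 hk2 (by linarith) (by linarith) hR0 hR)
    (T3_24_p0 hD0 hβ hk1 hk2 (by linarith) (by linarith) hR0 hR)
    y1.1 y1.2 y0.1 y0.2 (by norm_num)
    (ex_um 0.426 (by norm_num) (by norm_num) (by norm_num) (by norm_num)) (ex_um 0.443 (by norm_num) (by norm_num) (by norm_num) (by norm_num)) (ex_lm 0.434 (by norm_num) (by norm_num) (by norm_num) (by norm_num) (by norm_num)) (by norm_num) (by norm_num) (by norm_num) (by norm_num) (by norm_num) (by norm_num) (by norm_num) (by norm_num)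
    (by norm_num) (by norm_num) (by norm_num) (by norm_num) (by norm_num) (by norm_num) (by norm_num) (by norm_num) (by norm_num) (by norm_num)
    (ex_up 0.503 (by norm_num) (by norm_num) (by norm_num) (by norm_num)) (ex_lp 0.49 (by norm_num) (by norm_num) (by norm_num)) (by norm_num) (by norm_num) (by norm_num) (by norm_num) (by norm_num) (by norm_num)
    (by norm_num) (by norm_num) (by norm_num) (by norm_num) (by norm_num) (by norm_num) (by norm_num) (by norm_num) (by norm_num) (by norm_num) (by norm_num)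
    (by norm_num) (by norm_num) (by norm_num) (by norm_num)

private theorem yA5 {κ t : ℝ} (h : DomR κ t) (hk1 : 1.15 ≤ κ) (hk2 : κ ≤ 1.2) (ht1 : 1.171 ≤ t + κ) (ht2 : t + κ ≤ 1.197) :
    0.432 ≤ sy κ t ∧ sy κ t ≤ 0.45 := by
  have hy1 : 0.432 ≤ sy κ t := syR_ge h 1.15 1.2 1.171 0.432 1.54033 1.54034 0.55451 0.57864 hk1 hk2 (by linarith) (by norm_num) (by norm_num)
    (expn_ge (by norm_num) (by norm_num)) (expn_le (by norm_num) (by norm_num) (by norm_num)) (by norm_num)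
    (by norm_num) (by norm_num) (by norm_num) (by norm_num) (by norm_num) (by norm_num)
  have hy2 : sy κ t ≤ 0.45 := syR_le h 1.15 1.2 1.197 0.45 1.56831 0.5817 0.58811 0.6137 hk1 hk2 (by linarith) (by norm_num) (by norm_num)
    (expn_ge (by norm_num) (by norm_num)) (by norm_num) (by norm_num) (Or.inr ((mul_le_mul_of_nonneg_left (expn_le (E := 1.56832) (by norm_num) (by norm_num) (by norm_num)) (by norm_num)).trans (by norm_num))) (by norm_num) (by norm_num) (by norm_num)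
  exact ⟨hy1, hy2⟩

private theorem yB5 {κ t : ℝ} (h : DomR κ t) (hk1 : 1.15 ≤ κ) (hk2 : κ ≤ 1.2) (ht1 : -0.9234 ≤ t + κ) (ht2 : t + κ ≤ -0.89739) :
    (-0.489) ≤ sy κ t ∧ sy κ t ≤ (-0.464) := by
  have hy1 : -0.489 ≤ sy κ t := syL_ge h 1.15 1.2 0.9234 0.489 0.61323 0.61324 0.2553 0.24989 0.26077 hk1 hk2 (by linarith) (by norm_num) (by norm_num) (by norm_num)
    (expm_ge (by norm_num) (by norm_num) (by norm_num) (by norm_num)) (expm_le (by norm_num) (by norm_num) (by norm_num)) (by norm_num)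
    (by norm_num) (by norm_num) (by norm_num) (by norm_num) (by norm_num) (by norm_num)
  have hy2 : sy κ t ≤ -0.464 := syL_le h 1.15 1.2 0.89739 0.464 0.62876 0.62877 0.24312 0.2537 hk1 hk2 (by linarith) (by norm_num) (by norm_num) (by norm_num)
    (expm_ge (by norm_num) (by norm_num) (by norm_num) (by norm_num)) (expm_le (by norm_num) (by norm_num) (by norm_num)) (by norm_num)
    (by norm_num) (by norm_num) (by norm_num) (by norm_num) (by norm_num) (by norm_num)
  exact ⟨hy1, hy2⟩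

theorem pc5 {β r h t κ : ℝ} (hh : h = 2 * Real.pi / (3 : ℕ)) (hβ : 0 < β) (hr : 10 ≤ r) (hκ : κ = β * r)
    (hk1 : 1.15 ≤ κ) (hk2 : κ ≤ 1.2) (hT1 : 1.171 ≤ t + κ) (hT2 : t + κ ≤ 1.197) :
    Xf β r h t 0 ≠ 0 ∧ r * 0.0965 ≤ (Ld β r h t 1 - Ld β r h t 0).im ∧
      ‖(((-1 : ℤ) : ℂ) - 1) * Ld β r h t 0 - ((-1 : ℤ) : ℂ) * Ld β r h t 1‖ ≤ r * 5.41 := by
  obtain ⟨q1, q2, q3⟩ := b3_h hh
  have hR0 := b3_R0 hβ hr hκ
  have hR := b3_R hβ hr hκ (by linarith)
  have hD1 : DomR κ t := b3_dom (by linarith) (by linarith) (Or.inl (by linarith))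
  have hD0 : DomR κ (t - h) := b3_dom (by linarith) (by linarith) (Or.inl (by linarith))
  have y1 := yA5 hD1 hk1 hk2 (by linarith) (by linarith)
  have y0 := yB5 hD0 hk1 hk2 (by linarith) (by linarith)
  have j1 := T3_24_d1_2 hD1 hβ hk1 hk2 (by linarith) (by linarith) hR0 hR
  exact b3_piece 1.15 1.2 0.432 0.45 0.441 0.64339 0.64921 0.63763 0.7791 2.4213 2.4855 0.05 0.21 0.21 5.3165 2.662 0 0 (-0.489) (-0.464) (-0.476) 1.60962 1.63069 1.9569 3.4161 0.1 0.29 0.165 3.4731 3.6773 0 0 0.0965 5.41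
    hβ hr hκ (by norm_num) hk1 hk2 hD1 hD0 j1 (j1 _ (by rw [sub_self, norm_zero]; norm_num))
    (T3_24_d0_2 hD0 hβ hk1 hk2 (by linarith) (by linarith) hR0 hR)
    (T3_24_p0 hD0 hβ hk1 hk2 (by linarith) (by linarith) hR0 hR)
    y1.1 y1.2 y0.1 y0.2 (by norm_num)
    (ex_um 0.432 (by norm_num) (by norm_num) (by norm_num) (by norm_num)) (ex_um 0.45 (by norm_num) (by norm_num) (by norm_num) (by norm_num)) (ex_lm 0.441 (by norm_num) (by norm_num) (by norm_num) (by norm_num) (by norm_num)) (by norm_num) (by norm_num) (by norm_num) (by norm_num) (by norm_num) (by norm_num) (by norm_num) (by norm_num)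
    (by norm_num) (by norm_num) (by norm_num) (by norm_num) (by norm_num) (by norm_num) (by norm_num) (by norm_num) (by norm_num) (by norm_num)
    (ex_up 0.489 (by norm_num) (by norm_num) (by norm_num) (by norm_num)) (ex_lp 0.476 (by norm_num) (by norm_num) (by norm_num)) (by norm_num) (by norm_num) (by norm_num) (by norm_num) (by norm_num) (by norm_num)
    (by norm_num) (by norm_num) (by norm_num) (by norm_num) (by norm_num) (by norm_num) (by norm_num) (by norm_num) (by norm_num) (by norm_num) (by norm_num)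
    (by norm_num) (by norm_num) (by norm_num) (by norm_num)

private theorem yA6 {κ t : ℝ} (h : DomR κ t) (hk1 : 1.15 ≤ κ) (hk2 : κ ≤ 1.2) (ht1 : 1.197 ≤ t + κ) (ht2 : t + κ ≤ 1.224) :
    0.439 ≤ sy κ t ∧ sy κ t ≤ 0.457 := by
  have hy1 : 0.439 ≤ sy κ t := syR_ge h 1.15 1.2 1.197 0.439 1.55115 1.55116 0.56746 0.59214 hk1 hk2 (by linarith) (by norm_num) (by norm_num)
    (expn_ge (by norm_num) (by norm_num)) (expn_le (by norm_num) (by norm_num) (by norm_num)) (by norm_num)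
    (by norm_num) (by norm_num) (by norm_num) (by norm_num) (by norm_num) (by norm_num)
  have hy2 : sy κ t ≤ 0.457 := syR_le h 1.15 1.2 1.224 0.457 1.57932 0.5949 0.60145 0.62762 hk1 hk2 (by linarith) (by norm_num) (by norm_num)
    (expn_ge (by norm_num) (by norm_num)) (by norm_num) (by norm_num) (Or.inr ((mul_le_mul_of_nonneg_left (expn_le (E := 1.57933) (by norm_num) (by norm_num) (by norm_num)) (by norm_num)).trans (by norm_num))) (by norm_num) (by norm_num) (by norm_num)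
  exact ⟨hy1, hy2⟩

private theorem yB6 {κ t : ℝ} (h : DomR κ t) (hk1 : 1.15 ≤ κ) (hk2 : κ ≤ 1.2) (ht1 : -0.8974 ≤ t + κ) (ht2 : t + κ ≤ -0.87039) :
    (-0.476) ≤ sy κ t ∧ sy κ t ≤ (-0.45) := by
  have hy1 : -0.476 ≤ sy κ t := syL_ge h 1.15 1.2 0.8974 0.476 0.62126 0.62127 0.2437 0.24643 0.25716 hk1 hk2 (by linarith) (by norm_num) (by norm_num) (by norm_num)
    (expm_ge (by norm_num) (by norm_num) (by norm_num) (by norm_num)) (expm_le (by norm_num) (by norm_num) (by norm_num)) (by norm_num)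
    (by norm_num) (by norm_num) (by norm_num) (by norm_num) (by norm_num) (by norm_num)
  have hy2 : sy κ t ≤ -0.45 := syL_le h 1.15 1.2 0.87039 0.45 0.63762 0.63763 0.2391 0.24951 hk1 hk2 (by linarith) (by norm_num) (by norm_num) (by norm_num)
    (expm_ge (by norm_num) (by norm_num) (by norm_num) (by norm_num)) (expm_le (by norm_num) (by norm_num) (by norm_num)) (by norm_num)
    (by norm_num) (by norm_num) (by norm_num) (by norm_num) (by norm_num) (by norm_num)
  exact ⟨hy1, hy2⟩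

theorem pc6 {β r h t κ : ℝ} (hh : h = 2 * Real.pi / (3 : ℕ)) (hβ : 0 < β) (hr : 10 ≤ r) (hκ : κ = β * r)
    (hk1 : 1.15 ≤ κ) (hk2 : κ ≤ 1.2) (hT1 : 1.197 ≤ t + κ) (hT2 : t + κ ≤ 1.224) :
    Xf β r h t 0 ≠ 0 ∧ r * 0.0965 ≤ (Ld β r h t 1 - Ld β r h t 0).im ∧
      ‖(((-1 : ℤ) : ℂ) - 1) * Ld β r h t 0 - ((-1 : ℤ) : ℂ) * Ld β r h t 1‖ ≤ r * 5.41 := by
  obtain ⟨q1, q2, q3⟩ := b3_h hh
  have hR0 := b3_R0 hβ hr hκ
  have hR := b3_R hβ hr hκ (by linarith)
  have hD1 : DomR κ t := b3_dom (by linarith) (by linarith) (Or.inl (by linarith))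
  have hD0 : DomR κ (t - h) := b3_dom (by linarith) (by linarith) (Or.inl (by linarith))
  have y1 := yA6 hD1 hk1 hk2 (by linarith) (by linarith)
  have y0 := yB6 hD0 hk1 hk2 (by linarith) (by linarith)
  have j1 := T3_24_d1_2 hD1 hβ hk1 hk2 (by linarith) (by linarith) hR0 hR
  exact b3_piece 1.15 1.2 0.439 0.457 0.448 0.6389 0.64469 0.63319 0.7737 2.4275 2.4914 0.05 0.21 0.21 5.3165 2.6401 0 0 (-0.476) (-0.45) (-0.463) 1.58883 1.60963 1.9316 3.3516 0.1 0.29 0.165 3.4731 3.6645 0 0 0.0965 5.41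
    hβ hr hκ (by norm_num) hk1 hk2 hD1 hD0 j1 (j1 _ (by rw [sub_self, norm_zero]; norm_num))
    (T3_24_d0_2 hD0 hβ hk1 hk2 (by linarith) (by linarith) hR0 hR)
    (T3_24_p0 hD0 hβ hk1 hk2 (by linarith) (by linarith) hR0 hR)
    y1.1 y1.2 y0.1 y0.2 (by norm_num)
    (ex_um 0.439 (by norm_num) (by norm_num) (by norm_num) (by norm_num)) (ex_um 0.457 (by norm_num) (by norm_num) (by norm_num) (by norm_num)) (ex_lm 0.448 (by norm_num) (by norm_num) (by norm_num) (by norm_num) (by norm_num)) (by norm_num) (by norm_num) (by norm_num) (by norm_num) (by norm_num) (by norm_num) (by norm_num) (by norm_num)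
    (by norm_num) (by norm_num) (by norm_num) (by norm_num) (by norm_num) (by norm_num) (by norm_num) (by norm_num) (by norm_num) (by norm_num)
    (ex_up 0.476 (by norm_num) (by norm_num) (by norm_num) (by norm_num)) (ex_lp 0.463 (by norm_num) (by norm_num) (by norm_num)) (by norm_num) (by norm_num) (by norm_num) (by norm_num) (by norm_num) (by norm_num)
    (by norm_num) (by norm_num) (by norm_num) (by norm_num) (by norm_num) (by norm_num) (by norm_num) (by norm_num) (by norm_num) (by norm_num) (by norm_num)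
    (by norm_num) (by norm_num) (by norm_num) (by norm_num)

private theorem yA7 {κ t : ℝ} (h : DomR κ t) (hk1 : 1.15 ≤ κ) (hk2 : κ ≤ 1.2) (ht1 : 1.224 ≤ t + κ) (ht2 : t + κ ≤ 1.25) :
    0.445 ≤ sy κ t ∧ sy κ t ≤ 0.463 := by
  have hy1 : 0.445 ≤ sy κ t := syR_ge h 1.15 1.2 1.224 0.445 1.56048 1.5605 0.57867 0.60385 hk1 hk2 (by linarith) (by norm_num) (by norm_num)
    (expn_ge (by norm_num) (by norm_num)) (expn_le (by norm_num) (by norm_num) (by norm_num)) (by norm_num)
    (by norm_num) (by norm_num) (by norm_num) (by norm_num) (by norm_num) (by norm_num)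
  have hy2 : sy κ t ≤ 0.463 := syR_le h 1.15 1.2 1.25 0.463 1.58883 0.6063 0.61302 0.63969 hk1 hk2 (by linarith) (by norm_num) (by norm_num)
    (expn_ge (by norm_num) (by norm_num)) (by norm_num) (by norm_num) (Or.inr ((mul_le_mul_of_nonneg_left (expn_le (E := 1.58884) (by norm_num) (by norm_num) (by norm_num)) (by norm_num)).trans (by norm_num))) (by norm_num) (by norm_num) (by norm_num)
  exact ⟨hy1, hy2⟩

private theorem yB7 {κ t : ℝ} (h : DomR κ t) (hk1 : 1.15 ≤ κ) (hk2 : κ ≤ 1.2) (ht1 : -0.8704 ≤ t + κ) (ht2 : t + κ ≤ -0.84439) :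
    (-0.462) ≤ sy κ t ∧ sy κ t ≤ (-0.437) := by
  have hy1 : -0.462 ≤ sy κ t := syL_ge h 1.15 1.2 0.8704 0.462 0.63002 0.63003 0.2399 0.24255 0.25311 hk1 hk2 (by linarith) (by norm_num) (by norm_num) (by norm_num)
    (expm_ge (by norm_num) (by norm_num) (by norm_num) (by norm_num)) (expm_le (by norm_num) (by norm_num) (by norm_num)) (by norm_num)
    (by norm_num) (by norm_num) (by norm_num) (by norm_num) (by norm_num) (by norm_num)
  have hy2 : sy κ t ≤ -0.437 := syL_le h 1.15 1.2 0.84439 0.437 0.64597 0.64598 0.23524 0.24548 hk1 hk2 (by linarith) (by norm_num) (by norm_num) (by norm_num)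
    (expm_ge (by norm_num) (by norm_num) (by norm_num) (by norm_num)) (expm_le (by norm_num) (by norm_num) (by norm_num)) (by norm_num)
    (by norm_num) (by norm_num) (by norm_num) (by norm_num) (by norm_num) (by norm_num)
  exact ⟨hy1, hy2⟩

theorem pc7 {β r h t κ : ℝ} (hh : h = 2 * Real.pi / (3 : ℕ)) (hβ : 0 < β) (hr : 10 ≤ r) (hκ : κ = β * r)
    (hk1 : 1.15 ≤ κ) (hk2 : κ ≤ 1.2) (hT1 : 1.224 ≤ t + κ) (hT2 : t + κ ≤ 1.25) :
    Xf β r h t 0 ≠ 0 ∧ r * 0.0965 ≤ (Ld β r h t 1 - Ld β r h t 0).im ∧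
      ‖(((-1 : ℤ) : ℂ) - 1) * Ld β r h t 0 - ((-1 : ℤ) : ℂ) * Ld β r h t 1‖ ≤ r * 5.41 := by
  obtain ⟨q1, q2, q3⟩ := b3_h hh
  have hR0 := b3_R0 hβ hr hκ
  have hR := b3_R hβ hr hκ (by linarith)
  have hD1 : DomR κ t := b3_dom (by linarith) (by linarith) (Or.inl (by linarith))
  have hD0 : DomR κ (t - h) := b3_dom (by linarith) (by linarith) (Or.inl (by linarith))
  have y1 := yA7 hD1 hk1 hk2 (by linarith) (by linarith)
  have y0 := yB7 hD0 hk1 hk2 (by linarith) (by linarith)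
  have j1 := T3_24_d1_2 hD1 hβ hk1 hk2 (by linarith) (by linarith) hR0 hR
  exact b3_piece 1.15 1.2 0.445 0.463 0.454 0.63508 0.64083 0.6294 0.769 2.433 2.4965 0.05 0.21 0.21 5.3165 2.6211 0 0 (-0.462) (-0.437) (-0.45) 1.56831 1.58725 1.9047 3.2942 0.1 0.29 0.165 3.4731 3.6448 0 0 0.0965 5.41
    hβ hr hκ (by norm_num) hk1 hk2 hD1 hD0 j1 (j1 _ (by rw [sub_self, norm_zero]; norm_num))
    (T3_24_d0_2 hD0 hβ hk1 hk2 (by linarith) (by linarith) hR0 hR)
    (T3_24_p0 hD0 hβ hk1 hk2 (by linarith) (by linarith) hR0 hR)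
    y1.1 y1.2 y0.1 y0.2 (by norm_num)
    (ex_um 0.445 (by norm_num) (by norm_num) (by norm_num) (by norm_num)) (ex_um 0.463 (by norm_num) (by norm_num) (by norm_num) (by norm_num)) (ex_lm 0.454 (by norm_num) (by norm_num) (by norm_num) (by norm_num) (by norm_num)) (by norm_num) (by norm_num) (by norm_num) (by norm_num) (by norm_num) (by norm_num) (by norm_num) (by norm_num)
    (by norm_num) (by norm_num) (by norm_num) (by norm_num) (by norm_num) (by norm_num) (by norm_num) (by norm_num) (by norm_num) (by norm_num)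
    (ex_up 0.462 (by norm_num) (by norm_num) (by norm_num) (by norm_num)) (ex_lp 0.45 (by norm_num) (by norm_num) (by norm_num)) (by norm_num) (by norm_num) (by norm_num) (by norm_num) (by norm_num) (by norm_num)
    (by norm_num) (by norm_num) (by norm_num) (by norm_num) (by norm_num) (by norm_num) (by norm_num) (by norm_num) (by norm_num) (by norm_num) (by norm_num)
    (by norm_num) (by norm_num) (by norm_num) (by norm_num)

private theorem yA8 {κ t : ℝ} (h : DomR κ t) (hk1 : 1.15 ≤ κ) (hk2 : κ ≤ 1.2) (ht1 : 1.25 ≤ t + κ) (ht2 : t + κ ≤ 1.276) :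
    0.451 ≤ sy κ t ∧ sy κ t ≤ 0.47 := by
  have hy1 : 0.451 ≤ sy κ t := syR_ge h 1.15 1.2 1.25 0.451 1.56988 1.56989 0.59001 0.61567 hk1 hk2 (by linarith) (by norm_num) (by norm_num)
    (expn_ge (by norm_num) (by norm_num)) (expn_le (by norm_num) (by norm_num) (by norm_num)) (by norm_num)
    (by norm_num) (by norm_num) (by norm_num) (by norm_num) (by norm_num) (by norm_num)
  have hy2 : sy κ t ≤ 0.47 := syR_le h 1.15 1.2 1.276 0.47 1.59999 0.6198 0.62666 0.65392 hk1 hk2 (by linarith) (by norm_num) (by norm_num)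
    (expn_ge (by norm_num) (by norm_num)) (by norm_num) (by norm_num) (Or.inr ((mul_le_mul_of_nonneg_left (expn_le (E := 1.6) (by norm_num) (by norm_num) (by norm_num)) (by norm_num)).trans (by norm_num))) (by norm_num) (by norm_num) (by norm_num)
  exact ⟨hy1, hy2⟩

private theorem yB8 {κ t : ℝ} (h : DomR κ t) (hk1 : 1.15 ≤ κ) (hk2 : κ ≤ 1.2) (ht1 : -0.8444 ≤ t + κ) (ht2 : t + κ ≤ -0.81839) :
    (-0.449) ≤ sy κ t ∧ sy κ t ≤ (-0.424) := by
  have hy1 : -0.449 ≤ sy κ t := syL_ge h 1.15 1.2 0.8444 0.449 0.63826 0.63827 0.2362 0.23881 0.24921 hk1 hk2 (by linarith) (by norm_num) (by norm_num) (by norm_num)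
    (expm_ge (by norm_num) (by norm_num) (by norm_num) (by norm_num)) (expm_le (by norm_num) (by norm_num) (by norm_num)) (by norm_num)
    (by norm_num) (by norm_num) (by norm_num) (by norm_num) (by norm_num) (by norm_num)
  have hy2 : sy κ t ≤ -0.424 := syL_le h 1.15 1.2 0.81839 0.424 0.65442 0.65443 0.23122 0.24129 hk1 hk2 (by linarith) (by norm_num) (by norm_num) (by norm_num)
    (expm_ge (by norm_num) (by norm_num) (by norm_num) (by norm_num)) (expm_le (by norm_num) (by norm_num) (by norm_num)) (by norm_num)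
    (by norm_num) (by norm_num) (by norm_num) (by norm_num) (by norm_num) (by norm_num)
  exact ⟨hy1, hy2⟩

theorem pc8 {β r h t κ : ℝ} (hh : h = 2 * Real.pi / (3 : ℕ)) (hβ : 0 < β) (hr : 10 ≤ r) (hκ : κ = β * r)
    (hk1 : 1.15 ≤ κ) (hk2 : κ ≤ 1.2) (hT1 : 1.25 ≤ t + κ) (hT2 : t + κ ≤ 1.276) :
    Xf β r h t 0 ≠ 0 ∧ r * 0.0965 ≤ (Ld β r h t 1 - Ld β r h t 0).im ∧
      ‖(((-1 : ℤ) : ℂ) - 1) * Ld β r h t 0 - ((-1 : ℤ) : ℂ) * Ld β r h t 1‖ ≤ r * 5.41 := by
  obtain ⟨q1, q2, q3⟩ := b3_h hh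
  have hR0 := b3_R0 hβ hr hκ
  have hR := b3_R hβ hr hκ (by linarith)
  have hD1 : DomR κ t := b3_dom (by linarith) (by linarith) (Or.inl (by linarith))
  have hD0 : DomR κ (t - h) := b3_dom (by linarith) (by linarith) (Or.inl (by linarith))
  have y1 := yA8 hD1 hk1 hk2 (by linarith) (by linarith)
  have y0 := yB8 hD0 hk1 hk2 (by linarith) (by linarith)
  have j1 := T3_24_d1_2 hD1 hβ hk1 hk2 (by linarith) (by linarith) hR0 hR
  exact b3_piece 1.15 1.2 0.451 0.47 0.461 0.63065 0.637 0.62501 0.7644 2.4385 2.5026 0.05 0.21 0.21 5.3165 2.6025 0 0 (-0.449) (-0.424) (-0.436) 1.5465 1.56675 1.8801 3.239 0.1 0.29 0.165 3.4731 3.6283 0 0 0.0965 5.41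
    hβ hr hκ (by norm_num) hk1 hk2 hD1 hD0 j1 (j1 _ (by rw [sub_self, norm_zero]; norm_num))
    (T3_24_d0_2 hD0 hβ hk1 hk2 (by linarith) (by linarith) hR0 hR)
    (T3_24_p0 hD0 hβ hk1 hk2 (by linarith) (by linarith) hR0 hR)
    y1.1 y1.2 y0.1 y0.2 (by norm_num)
    (ex_um 0.451 (by norm_num) (by norm_num) (by norm_num) (by norm_num)) (ex_um 0.47 (by norm_num) (by norm_num) (by norm_num) (by norm_num)) (ex_lm 0.461 (by norm_num) (by norm_num) (by norm_num) (by norm_num) (by norm_num)) (by norm_num) (by norm_num) (by norm_num) (by norm_num) (by norm_num) (by norm_num) (by norm_num) (by norm_num)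
    (by norm_num) (by norm_num) (by norm_num) (by norm_num) (by norm_num) (by norm_num) (by norm_num) (by norm_num) (by norm_num) (by norm_num)
    (ex_up 0.449 (by norm_num) (by norm_num) (by norm_num) (by norm_num)) (ex_lp 0.436 (by norm_num) (by norm_num) (by norm_num)) (by norm_num) (by norm_num) (by norm_num) (by norm_num) (by norm_num) (by norm_num)
    (by norm_num) (by norm_num) (by norm_num) (by norm_num) (by norm_num) (by norm_num) (by norm_num) (by norm_num) (by norm_num) (by norm_num) (by norm_num)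
    (by norm_num) (by norm_num) (by norm_num) (by norm_num)

private theorem yA9 {κ t : ℝ} (h : DomR κ t) (hk1 : 1.15 ≤ κ) (hk2 : κ ≤ 1.2) (ht1 : 1.276 ≤ t + κ) (ht2 : t + κ ≤ 1.303) :
    0.457 ≤ sy κ t ∧ sy κ t ≤ 0.476 := by
  have hy1 : 0.457 ≤ sy κ t := syR_ge h 1.15 1.2 1.276 0.457 1.57932 1.57933 0.60145 0.62762 hk1 hk2 (by linarith) (by norm_num) (by norm_num)
    (expn_ge (by norm_num) (by norm_num)) (expn_le (by norm_num) (by norm_num) (by norm_num)) (by norm_num)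
    (by norm_num) (by norm_num) (by norm_num) (by norm_num) (by norm_num) (by norm_num)
  have hy2 : sy κ t ≤ 0.476 := syR_le h 1.15 1.2 1.303 0.476 1.60962 0.6315 0.63848 0.66625 hk1 hk2 (by linarith) (by norm_num) (by norm_num)
    (expn_ge (by norm_num) (by norm_num)) (by norm_num) (by norm_num) (Or.inr ((mul_le_mul_of_nonneg_left (expn_le (E := 1.60963) (by norm_num) (by norm_num) (by norm_num)) (by norm_num)).trans (by norm_num))) (by norm_num) (by norm_num) (by norm_num)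
  exact ⟨hy1, hy2⟩

private theorem yB9 {κ t : ℝ} (h : DomR κ t) (hk1 : 1.15 ≤ κ) (hk2 : κ ≤ 1.2) (ht1 : -0.8184 ≤ t + κ) (ht2 : t + κ ≤ -0.79139) :
    (-0.435) ≤ sy κ t ∧ sy κ t ≤ (-0.41) := by
  have hy1 : -0.435 ≤ sy κ t := syL_ge h 1.15 1.2 0.8184 0.435 0.64726 0.64727 0.232 0.23463 0.24484 hk1 hk2 (by linarith) (by norm_num) (by norm_num) (by norm_num)
    (expm_ge (by norm_num) (by norm_num) (by norm_num) (by norm_num)) (expm_le (by norm_num) (by norm_num) (by norm_num)) (by norm_num)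
    (by norm_num) (by norm_num) (by norm_num) (by norm_num) (by norm_num) (by norm_num)
  have hy2 : sy κ t ≤ -0.41 := syL_le h 1.15 1.2 0.79139 0.41 0.66365 0.66366 0.22674 0.23661 hk1 hk2 (by linarith) (by norm_num) (by norm_num) (by norm_num)
    (expm_ge (by norm_num) (by norm_num) (by norm_num) (by norm_num)) (expm_le (by norm_num) (by norm_num) (by norm_num)) (by norm_num)
    (by norm_num) (by norm_num) (by norm_num) (by norm_num) (by norm_num) (by norm_num)
  exact ⟨hy1, hy2⟩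

theorem pc9 {β r h t κ : ℝ} (hh : h = 2 * Real.pi / (3 : ℕ)) (hβ : 0 < β) (hr : 10 ≤ r) (hκ : κ = β * r)
    (hk1 : 1.15 ≤ κ) (hk2 : κ ≤ 1.2) (hT1 : 1.276 ≤ t + κ) (hT2 : t + κ ≤ 1.303) :
    Xf β r h t 0 ≠ 0 ∧ r * 0.0965 ≤ (Ld β r h t 1 - Ld β r h t 0).im ∧
      ‖(((-1 : ℤ) : ℂ) - 1) * Ld β r h t 0 - ((-1 : ℤ) : ℂ) * Ld β r h t 1‖ ≤ r * 5.41 := by
  obtain ⟨q1, q2, q3⟩ := b3_h hh
  have hR0 := b3_R0 hβ hr hκ
  have hR := b3_R hβ hr hκ (by linarith)
  have hD1 : DomR κ t := b3_dom (by linarith) (by linarith) (Or.inl (by linarith))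
  have hD0 : DomR κ (t - h) := b3_dom (by linarith) (by linarith) (Or.inl (by linarith))
  have y1 := yA9 hD1 hk1 hk2 (by linarith) (by linarith)
  have y0 := yB9 hD0 hk1 hk2 (by linarith) (by linarith)
  have j1 := T3_24_d1_2 hD1 hβ hk1 hk2 (by linarith) (by linarith) hR0 hR
  exact b3_piece 1.15 1.2 0.457 0.476 0.467 0.62688 0.63319 0.62127 0.7599 2.4441 2.5079 0.05 0.21 0.21 5.3165 2.5842 0 0 (-0.435) (-0.41) (-0.422) 1.525 1.54497 1.854 3.1818 0.1 0.29 0.165 3.4731 3.6099 0 0 0.0965 5.41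
    hβ hr hκ (by norm_num) hk1 hk2 hD1 hD0 j1 (j1 _ (by rw [sub_self, norm_zero]; norm_num))
    (T3_24_d0_2 hD0 hβ hk1 hk2 (by linarith) (by linarith) hR0 hR)
    (T3_24_p0 hD0 hβ hk1 hk2 (by linarith) (by linarith) hR0 hR)
    y1.1 y1.2 y0.1 y0.2 (by norm_num)
    (ex_um 0.457 (by norm_num) (by norm_num) (by norm_num) (by norm_num)) (ex_um 0.476 (by norm_num) (by norm_num) (by norm_num) (by norm_num)) (ex_lm 0.467 (by norm_num) (by norm_num) (by norm_num) (by norm_num) (by norm_num)) (by norm_num) (by norm_num) (by norm_num) (by norm_num) (by norm_num) (by norm_num) (by norm_num) (by norm_num)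
    (by norm_num) (by norm_num) (by norm_num) (by norm_num) (by norm_num) (by norm_num) (by norm_num) (by norm_num) (by norm_num) (by norm_num)
    (ex_up 0.435 (by norm_num) (by norm_num) (by norm_num) (by norm_num)) (ex_lp 0.422 (by norm_num) (by norm_num) (by norm_num)) (by norm_num) (by norm_num) (by norm_num) (by norm_num) (by norm_num) (by norm_num)
    (by norm_num) (by norm_num) (by norm_num) (by norm_num) (by norm_num) (by norm_num) (by norm_num) (by norm_num) (by norm_num) (by norm_num) (by norm_num)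
    (by norm_num) (by norm_num) (by norm_num) (by norm_num)

private theorem yA10 {κ t : ℝ} (h : DomR κ t) (hk1 : 1.15 ≤ κ) (hk2 : κ ≤ 1.2) (ht1 : 1.303 ≤ t + κ) (ht2 : t + κ ≤ 1.329) :
    0.463 ≤ sy κ t ∧ sy κ t ≤ 0.483 := by
  have hy1 : 0.463 ≤ sy κ t := syR_ge h 1.15 1.2 1.303 0.463 1.58883 1.58884 0.61302 0.63969 hk1 hk2 (by linarith) (by norm_num) (by norm_num)
    (expn_ge (by norm_num) (by norm_num)) (expn_le (by norm_num) (by norm_num) (by norm_num)) (by norm_num)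
    (by norm_num) (by norm_num) (by norm_num) (by norm_num) (by norm_num) (by norm_num)
  have hy2 : sy κ t ≤ 0.483 := syR_le h 1.15 1.2 1.329 0.483 1.62092 0.6453 0.65242 0.6808 hk1 hk2 (by linarith) (by norm_num) (by norm_num)
    (expn_ge (by norm_num) (by norm_num)) (by norm_num) (by norm_num) (Or.inr ((mul_le_mul_of_nonneg_left (expn_le (E := 1.62093) (by norm_num) (by norm_num) (by norm_num)) (by norm_num)).trans (by norm_num))) (by norm_num) (by norm_num) (by norm_num)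
  exact ⟨hy1, hy2⟩

private theorem yB10 {κ t : ℝ} (h : DomR κ t) (hk1 : 1.15 ≤ κ) (hk2 : κ ≤ 1.2) (ht1 : -0.7914 ≤ t + κ) (ht2 : t + κ ≤ -0.76539) :
    (-0.421) ≤ sy κ t ∧ sy κ t ≤ (-0.397) := by
  have hy1 : -0.421 ≤ sy κ t := syL_ge h 1.15 1.2 0.7914 0.421 0.65639 0.6564 0.2277 0.23028 0.2403 hk1 hk2 (by linarith) (by norm_num) (by norm_num) (by norm_num)
    (expm_ge (by norm_num) (by norm_num) (by norm_num) (by norm_num)) (expm_le (by norm_num) (by norm_num) (by norm_num)) (by norm_num)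
    (by norm_num) (by norm_num) (by norm_num) (by norm_num) (by norm_num) (by norm_num)
  have hy2 : sy κ t ≤ -0.397 := syL_le h 1.15 1.2 0.76539 0.397 0.67233 0.67234 0.22242 0.23211 hk1 hk2 (by linarith) (by norm_num) (by norm_num) (by norm_num)
    (expm_ge (by norm_num) (by norm_num) (by norm_num) (by norm_num)) (expm_le (by norm_num) (by norm_num) (by norm_num)) (by norm_num)
    (by norm_num) (by norm_num) (by norm_num) (by norm_num) (by norm_num) (by norm_num)
  exact ⟨hy1, hy2⟩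

theorem pc10 {β r h t κ : ℝ} (hh : h = 2 * Real.pi / (3 : ℕ)) (hβ : 0 < β) (hr : 10 ≤ r) (hκ : κ = β * r)
    (hk1 : 1.15 ≤ κ) (hk2 : κ ≤ 1.2) (hT1 : 1.303 ≤ t + κ) (hT2 : t + κ ≤ 1.329) :
    Xf β r h t 0 ≠ 0 ∧ r * 0.0965 ≤ (Ld β r h t 1 - Ld β r h t 0).im ∧
      ‖(((-1 : ℤ) : ℂ) - 1) * Ld β r h t 0 - ((-1 : ℤ) : ℂ) * Ld β r h t 1‖ ≤ r * 5.41 := by
  obtain ⟨q1, q2, q3⟩ := b3_h hh
  have hR0 := b3_R0 hβ hr hκ
  have hR := b3_R hβ hr hκ (by linarith)
  have hD1 : DomR κ t := b3_dom (by linarith) (by linarith) (Or.inl (by linarith))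
  have hD0 : DomR κ (t - h) := b3_dom (by linarith) (by linarith) (Or.inl (by linarith))
  have y1 := yA10 hD1 hk1 hk2 (by linarith) (by linarith)
  have y0 := yB10 hD0 hk1 hk2 (by linarith) (by linarith)
  have j1 := T3_24_d1_2 hD1 hβ hk1 hk2 (by linarith) (by linarith) hR0 hR
  exact b3_piece 1.15 1.2 0.463 0.483 0.473 0.62313 0.6294 0.61694 0.7553 2.4497 2.5141 0.05 0.21 0.21 5.3165 2.5656 0 0 (-0.421) (-0.397) (-0.409) 1.50531 1.52349 1.8282 3.1308 0.1 0.29 0.165 3.4731 3.5886 0 0 0.0965 5.41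
    hβ hr hκ (by norm_num) hk1 hk2 hD1 hD0 j1 (j1 _ (by rw [sub_self, norm_zero]; norm_num))
    (T3_24_d0_2 hD0 hβ hk1 hk2 (by linarith) (by linarith) hR0 hR)
    (T3_24_p0 hD0 hβ hk1 hk2 (by linarith) (by linarith) hR0 hR)
    y1.1 y1.2 y0.1 y0.2 (by norm_num)
    (ex_um 0.463 (by norm_num) (by norm_num) (by norm_num) (by norm_num)) (ex_um 0.483 (by norm_num) (by norm_num) (by norm_num) (by norm_num)) (ex_lm 0.473 (by norm_num) (by norm_num) (by norm_num) (by norm_num) (by norm_num)) (by norm_num) (by norm_num) (by norm_num) (by norm_num) (by norm_num) (by norm_num) (by norm_num) (by norm_num)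
    (by norm_num) (by norm_num) (by norm_num) (by norm_num) (by norm_num) (by norm_num) (by norm_num) (by norm_num) (by norm_num) (by norm_num)
    (ex_up 0.421 (by norm_num) (by norm_num) (by norm_num) (by norm_num)) (ex_lp 0.409 (by norm_num) (by norm_num) (by norm_num)) (by norm_num) (by norm_num) (by norm_num) (by norm_num) (by norm_num) (by norm_num)
    (by norm_num) (by norm_num) (by norm_num) (by norm_num) (by norm_num) (by norm_num) (by norm_num) (by norm_num) (by norm_num) (by norm_num) (by norm_num)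
    (by norm_num) (by norm_num) (by norm_num) (by norm_num)

private theorem yA11 {κ t : ℝ} (h : DomR κ t) (hk1 : 1.15 ≤ κ) (hk2 : κ ≤ 1.2) (ht1 : 1.329 ≤ t + κ) (ht2 : t + κ ≤ 1.356) :
    0.469 ≤ sy κ t ∧ sy κ t ≤ 0.489 := by
  have hy1 : 0.469 ≤ sy κ t := syR_ge h 1.15 1.2 1.329 0.469 1.59839 1.5984 0.6247 0.65187 hk1 hk2 (by linarith) (by norm_num) (by norm_num)
    (expn_ge (by norm_num) (by norm_num)) (expn_le (by norm_num) (by norm_num) (by norm_num)) (by norm_num)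
    (by norm_num) (by norm_num) (by norm_num) (by norm_num) (by norm_num) (by norm_num)
  have hy2 : sy κ t ≤ 0.489 := syR_le h 1.15 1.2 1.356 0.489 1.63068 0.6572 0.6645 0.6934 hk1 hk2 (by linarith) (by norm_num) (by norm_num)
    (expn_ge (by norm_num) (by norm_num)) (by norm_num) (by norm_num) (Or.inr ((mul_le_mul_of_nonneg_left (expn_le (E := 1.63069) (by norm_num) (by norm_num) (by norm_num)) (by norm_num)).trans (by norm_num))) (by norm_num) (by norm_num) (by norm_num)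
  exact ⟨hy1, hy2⟩

private theorem yB11 {κ t : ℝ} (h : DomR κ t) (hk1 : 1.15 ≤ κ) (hk2 : κ ≤ 1.2) (ht1 : -0.7654 ≤ t + κ) (ht2 : t + κ ≤ -0.73839) :
    (-0.407) ≤ sy κ t ∧ sy κ t ≤ (-0.383) := by
  have hy1 : -0.407 ≤ sy κ t := syL_ge h 1.15 1.2 0.7654 0.407 0.66564 0.66565 0.2233 0.22576 0.23559 hk1 hk2 (by linarith) (by norm_num) (by norm_num) (by norm_num)
    (expm_ge (by norm_num) (by norm_num) (by norm_num) (by norm_num)) (expm_le (by norm_num) (by norm_num) (by norm_num)) (by norm_num)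
    (by norm_num) (by norm_num) (by norm_num) (by norm_num) (by norm_num) (by norm_num)
  have hy2 : sy κ t ≤ -0.383 := syL_le h 1.15 1.2 0.73839 0.383 0.68181 0.68182 0.21761 0.22708 hk1 hk2 (by linarith) (by norm_num) (by norm_num) (by norm_num)
    (expm_ge (by norm_num) (by norm_num) (by norm_num) (by norm_num)) (expm_le (by norm_num) (by norm_num) (by norm_num)) (by norm_num)
    (by norm_num) (by norm_num) (by norm_num) (by norm_num) (by norm_num) (by norm_num)
  exact ⟨hy1, hy2⟩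

theorem pc11 {β r h t κ : ℝ} (hh : h = 2 * Real.pi / (3 : ℕ)) (hβ : 0 < β) (hr : 10 ≤ r) (hκ : κ = β * r)
    (hk1 : 1.15 ≤ κ) (hk2 : κ ≤ 1.2) (hT1 : 1.329 ≤ t + κ) (hT2 : t + κ ≤ 1.356) :
    Xf β r h t 0 ≠ 0 ∧ r * 0.0965 ≤ (Ld β r h t 1 - Ld β r h t 0).im ∧
      ‖(((-1 : ℤ) : ℂ) - 1) * Ld β r h t 0 - ((-1 : ℤ) : ℂ) * Ld β r h t 1‖ ≤ r * 5.41 := by
  obtain ⟨q1, q2, q3⟩ := b3_h hh
  have hR0 := b3_R0 hβ hr hκ
  have hR := b3_R hβ hr hκ (by linarith)
  have hD1 : DomR κ t := b3_dom (by linarith) (by linarith) (Or.inl (by linarith))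
  have hD0 : DomR κ (t - h) := b3_dom (by linarith) (by linarith) (Or.inl (by linarith))
  have y1 := yA11 hD1 hk1 hk2 (by linarith) (by linarith)
  have y0 := yB11 hD0 hk1 hk2 (by linarith) (by linarith)
  have j1 := T3_24_d1_2 hD1 hβ hk1 hk2 (by linarith) (by linarith) hR0 hR
  exact b3_piece 1.15 1.2 0.469 0.489 0.479 0.6194 0.62563 0.61324 0.7508 2.4555 2.5196 0.05 0.21 0.21 5.3165 2.5474 0 0 (-0.407) (-0.383) (-0.395) 1.48438 1.50231 1.8028 3.078 0.1 0.29 0.165 3.4731 3.5689 0 0 0.0965 5.41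
    hβ hr hκ (by norm_num) hk1 hk2 hD1 hD0 j1 (j1 _ (by rw [sub_self, norm_zero]; norm_num))
    (T3_24_d0_2 hD0 hβ hk1 hk2 (by linarith) (by linarith) hR0 hR)
    (T3_24_p0 hD0 hβ hk1 hk2 (by linarith) (by linarith) hR0 hR)
    y1.1 y1.2 y0.1 y0.2 (by norm_num)
    (ex_um 0.469 (by norm_num) (by norm_num) (by norm_num) (by norm_num)) (ex_um 0.489 (by norm_num) (by norm_num) (by norm_num) (by norm_num)) (ex_lm 0.479 (by norm_num) (by norm_num) (by norm_num) (by norm_num) (by norm_num)) (by norm_num) (by norm_num) (by norm_num) (by norm_num) (by norm_num) (by norm_num) (by norm_num) (by norm_num)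
    (by norm_num) (by norm_num) (by norm_num) (by norm_num) (by norm_num) (by norm_num) (by norm_num) (by norm_num) (by norm_num) (by norm_num)
    (ex_up 0.407 (by norm_num) (by norm_num) (by norm_num) (by norm_num)) (ex_lp 0.395 (by norm_num) (by norm_num) (by norm_num)) (by norm_num) (by norm_num) (by norm_num) (by norm_num) (by norm_num) (by norm_num)
    (by norm_num) (by norm_num) (by norm_num) (by norm_num) (by norm_num) (by norm_num) (by norm_num) (by norm_num) (by norm_num) (by norm_num) (by norm_num)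
    (by norm_num) (by norm_num) (by norm_num) (by norm_num)

private theorem yA12 {κ t : ℝ} (h : DomR κ t) (hk1 : 1.15 ≤ κ) (hk2 : κ ≤ 1.2) (ht1 : 1.356 ≤ t + κ) (ht2 : t + κ ≤ 1.382) :
    0.475 ≤ sy κ t ∧ sy κ t ≤ 0.495 := by
  have hy1 : 0.475 ≤ sy κ t := syR_ge h 1.15 1.2 1.356 0.475 1.60801 1.60802 0.6365 0.66419 hk1 hk2 (by linarith) (by norm_num) (by norm_num)
    (expn_ge (by norm_num) (by norm_num)) (expn_le (by norm_num) (by norm_num) (by norm_num)) (by norm_num)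
    (by norm_num) (by norm_num) (by norm_num) (by norm_num) (by norm_num) (by norm_num)
  have hy2 : sy κ t ≤ 0.495 := syR_le h 1.15 1.2 1.382 0.495 1.64049 0.6693 0.6767 0.70613 hk1 hk2 (by linarith) (by norm_num) (by norm_num)
    (expn_ge (by norm_num) (by norm_num)) (by norm_num) (by norm_num) (Or.inr ((mul_le_mul_of_nonneg_left (expn_le (E := 1.6405) (by norm_num) (by norm_num) (by norm_num)) (by norm_num)).trans (by norm_num))) (by norm_num) (by norm_num) (by norm_num)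
  exact ⟨hy1, hy2⟩

private theorem yB12 {κ t : ℝ} (h : DomR κ t) (hk1 : 1.15 ≤ κ) (hk2 : κ ≤ 1.2) (ht1 : -0.7384 ≤ t + κ) (ht2 : t + κ ≤ -0.71239) :
    (-0.393) ≤ sy κ t ∧ sy κ t ≤ (-0.37) := by
  have hy1 : -0.393 ≤ sy κ t := syL_ge h 1.15 1.2 0.7384 0.393 0.67502 0.67503 0.2186 0.22106 0.23069 hk1 hk2 (by linarith) (by norm_num) (by norm_num) (by norm_num)
    (expm_ge (by norm_num) (by norm_num) (by norm_num) (by norm_num)) (expm_le (by norm_num) (by norm_num) (by norm_num)) (by norm_num)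
    (by norm_num) (by norm_num) (by norm_num) (by norm_num) (by norm_num) (by norm_num)
  have hy2 : sy κ t ≤ -0.37 := syL_le h 1.15 1.2 0.71239 0.37 0.69073 0.69074 0.21297 0.22224 hk1 hk2 (by linarith) (by norm_num) (by norm_num) (by norm_num)
    (expm_ge (by norm_num) (by norm_num) (by norm_num) (by norm_num)) (expm_le (by norm_num) (by norm_num) (by norm_num)) (by norm_num)
    (by norm_num) (by norm_num) (by norm_num) (by norm_num) (by norm_num) (by norm_num)
  exact ⟨hy1, hy2⟩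

theorem pc12 {β r h t κ : ℝ} (hh : h = 2 * Real.pi / (3 : ℕ)) (hβ : 0 < β) (hr : 10 ≤ r) (hκ : κ = β * r)
    (hk1 : 1.15 ≤ κ) (hk2 : κ ≤ 1.2) (hT1 : 1.356 ≤ t + κ) (hT2 : t + κ ≤ 1.382) :
    Xf β r h t 0 ≠ 0 ∧ r * 0.0965 ≤ (Ld β r h t 1 - Ld β r h t 0).im ∧
      ‖(((-1 : ℤ) : ℂ) - 1) * Ld β r h t 0 - ((-1 : ℤ) : ℂ) * Ld β r h t 1‖ ≤ r * 5.41 := by
  obtain ⟨q1, q2, q3⟩ := b3_h hh
  have hR0 := b3_R0 hβ hr hκ
  have hR := b3_R hβ hr hκ (by linarith)
  have hD1 : DomR κ t := b3_dom (by linarith) (by linarith) (Or.inl (by linarith))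
  have hD0 : DomR κ (t - h) := b3_dom (by linarith) (by linarith) (Or.inl (by linarith))
  have y1 := yA12 hD1 hk1 hk2 (by linarith) (by linarith)
  have y0 := yB12 hD0 hk1 hk2 (by linarith) (by linarith)
  have j1 := T3_24_d1_2 hD1 hβ hk1 hk2 (by linarith) (by linarith) hR0 hR
  exact b3_piece 1.15 1.2 0.475 0.495 0.485 0.61569 0.62189 0.60958 0.7463 2.4613 2.5251 0.05 0.21 0.21 5.3165 2.5291 0 0 (-0.393) (-0.37) (-0.382) 1.46521 1.48142 1.7778 3.031 0.1 0.29 0.165 3.4731 3.5466 0 0 0.0965 5.41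
    hβ hr hκ (by norm_num) hk1 hk2 hD1 hD0 j1 (j1 _ (by rw [sub_self, norm_zero]; norm_num))
    (T3_24_d0_2 hD0 hβ hk1 hk2 (by linarith) (by linarith) hR0 hR)
    (T3_24_p0 hD0 hβ hk1 hk2 (by linarith) (by linarith) hR0 hR)
    y1.1 y1.2 y0.1 y0.2 (by norm_num)
    (ex_um 0.475 (by norm_num) (by norm_num) (by norm_num) (by norm_num)) (ex_um 0.495 (by norm_num) (by norm_num) (by norm_num) (by norm_num)) (ex_lm 0.485 (by norm_num) (by norm_num) (by norm_num) (by norm_num) (by norm_num)) (by norm_num) (by norm_num) (by norm_num) (by norm_num) (by norm_num) (by norm_num) (by norm_num) (by norm_num)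
    (by norm_num) (by norm_num) (by norm_num) (by norm_num) (by norm_num) (by norm_num) (by norm_num) (by norm_num) (by norm_num) (by norm_num)
    (ex_up 0.393 (by norm_num) (by norm_num) (by norm_num) (by norm_num)) (ex_lp 0.382 (by norm_num) (by norm_num) (by norm_num)) (by norm_num) (by norm_num) (by norm_num) (by norm_num) (by norm_num) (by norm_num)
    (by norm_num) (by norm_num) (by norm_num) (by norm_num) (by norm_num) (by norm_num) (by norm_num) (by norm_num) (by norm_num) (by norm_num) (by norm_num)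
    (by norm_num) (by norm_num) (by norm_num) (by norm_num)

theorem innS {β r h t κ : ℝ} (hh : h = 2 * Real.pi / (3 : ℕ)) (hβ : 0 < β) (hr : 10 ≤ r) (hκ : κ = β * r)
    (hk1 : 1.15 ≤ κ) (hk2 : κ ≤ 1.2) (hT1 : 1.051 ≤ t + κ) (hT2 : t + κ ≤ 1.382) :
    Xf β r h t 0 ≠ 0 ∧ r * 0.0965 ≤ (Ld β r h t 1 - Ld β r h t 0).im ∧
      ‖(((-1 : ℤ) : ℂ) - 1) * Ld β r h t 0 - ((-1 : ℤ) : ℂ) * Ld β r h t 1‖ ≤ r * 5.41 := by
  rcases le_total (t + κ) 1.071 with f0 | g0
  · exact pc0 hh hβ hr hκ hk1 hk2 hT1 f0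
  rcases le_total (t + κ) 1.091 with f1 | g1
  · exact pc1 hh hβ hr hκ hk1 hk2 g0 f1
  rcases le_total (t + κ) 1.118 with f2 | g2
  · exact pc2 hh hβ hr hκ hk1 hk2 g1 f2
  rcases le_total (t + κ) 1.144 with f3 | g3
  · exact pc3 hh hβ hr hκ hk1 hk2 g2 f3
  rcases le_total (t + κ) 1.171 with f4 | g4
  · exact pc4 hh hβ hr hκ hk1 hk2 g3 f4
  rcases le_total (t + κ) 1.197 with f5 | g5
  · exact pc5 hh hβ hr hκ hk1 hk2 g4 f5
  rcases le_total (t + κ) 1.224 with f6 | g6
  · exact pc6 hh hβ hr hκ hk1 hk2 g5 f6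
  rcases le_total (t + κ) 1.25 with f7 | g7
  · exact pc7 hh hβ hr hκ hk1 hk2 g6 f7
  rcases le_total (t + κ) 1.276 with f8 | g8
  · exact pc8 hh hβ hr hκ hk1 hk2 g7 f8
  rcases le_total (t + κ) 1.303 with f9 | g9
  · exact pc9 hh hβ hr hκ hk1 hk2 g8 f9
  rcases le_total (t + κ) 1.329 with f10 | g10
  · exact pc10 hh hβ hr hκ hk1 hk2 g9 f10
  rcases le_total (t + κ) 1.356 with f11 | g11
  · exact pc11 hh hβ hr hκ hk1 hk2 g10 f11
  exact pc12 hh hβ hr hκ hk1 hk2 g11 hT2

theorem circ {p : ℤ} (hp : IsCoprime (3 : ℤ) p) {β r : ℝ} (hβ : 0 < β) (hr : 10 ≤ r) (hk1 : 1.15 ≤ β * r)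
    (hk2 : β * r ≤ 1.2) : Circ (2 * Real.pi * p / (3 : ℕ) + β) r := by
  obtain ⟨κ, hκ⟩ : ∃ κ, κ = β * r := ⟨_, rfl⟩
  rw [← hκ] at hk1 hk2
  refine circ3 hp hr (h := 2 * Real.pi / (3 : ℕ)) (κ := κ) rfl 1.051 1.382 1.0067 0.0965 0.00162 0.00342 5.41 (by norm_num) (by norm_num) (by norm_num)
    (by norm_num) (by norm_num) ?_ ?_ ?_ ?_ ?_ (by norm_num) (by norm_num)
  · intro t h1 h2
    exact (innS rfl hβ hr hκ hk1 hk2 h1 h2).1
  · intro t h1 h2
    exact (innE rfl hβ hr hκ hk1 hk2 h1 h2).1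
  · intro t h1 h2
    exact (innE rfl hβ hr hκ hk1 hk2 h1 h2).2
  · intro t h1 h2
    exact (innS rfl hβ hr hκ hk1 hk2 h1 h2).2
  · intro t h1 h2 h3
    rcases h3 with h3 | h3
    · exact left rfl hβ hr hκ hk1 hk2 h1 h3
    · exact right0 rfl hβ hr hκ hk1 hk2 h3 h2

end B3_24

end Sok
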