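import Pool.Agent.Lib.MP_816dec_an.R1b3D
import Pool.Agent.Lib.MP_816dec_an.R1b3J25

/-!
MP_816dec_an (A3, row R1, b = 3): the cell `1.2 ≤ κ ≤ 1.25`.
-/

set_option autoImplicit false
set_option maxHeartbeats 4000000
set_option linter.unusedVariables false

open Complex Set

namespace Sok

namespace B3_25

private theorem yL {κ t : ℝ} (h : DomR κ t) (hk1 : 1.2 ≤ κ) (hk2 : κ ≤ 1.25) (ht1 : 0 ≤ t + κ) (ht2 : t + κ ≤ 1.045) :
    0 ≤ sy κ t ∧ sy κ t ≤ 0.411 := by
  have hy1 : 0 ≤ sy κ t := sy_nonneg h (by linarith)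
  have hy2 : sy κ t ≤ 0.411 := syR_le h 1.2 1.25 1.045 0.411 1.50832 0.4907 0.49593 0.51661 hk1 hk2 (by linarith) (by norm_num) (by norm_num)
    (expn_ge (by norm_num) (by norm_num)) (by norm_num) (by norm_num) (Or.inr ((mul_le_mul_of_nonneg_left (expn_le (E := 1.50833) (by norm_num) (by norm_num) (by norm_num)) (by norm_num)).trans (by norm_num))) (by norm_num) (by norm_num) (by norm_num)
  exact ⟨hy1, hy2⟩

theorem left {β r h t κ : ℝ} (hh : h = 2 * Real.pi / (3 : ℕ)) (hβ : 0 < β) (hr : 10 ≤ r) (hκ : κ = β * r)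
    (hk1 : 1.2 ≤ κ) (hk2 : κ ≤ 1.25) (hT1 : 0 ≤ t + κ) (hT2 : t + κ ≤ 1.045) :
    ‖Xf β r h t (-1)‖ < |‖Xf β r h t 1‖ - ‖Xf β r h t 0‖| := by
  obtain ⟨q1, q2, q3⟩ := b3_h hh
  have hR0 := b3_R0 hβ hr hκ
  have hR := b3_R hβ hr hκ (by linarith)
  have hD1 : DomR κ t := b3_dom (by linarith) (by linarith) (Or.inl (by linarith))
  have hy := yL hD1 hk1 hk2 (by linarith) (by linarith)
  have hY : 0.7231 * Real.exp (r * 0.80655) ≤ ‖Xf β r h t 1‖ :=
    b3_lo hβ hr hκ (k := 1) (t' := t) (by push_cast; ring) hD1 0.085 2.5625 0.7231 0.80655 (by norm_num)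
      (T3_25_p1 hD1 hβ hk1 hk2 (by linarith) (by linarith) hR0 hR)
      (v5_Dup hD1 1.25 0 0.411 1 0.66299 2.5625 hk2 hy.1 hy.2 (ex_up 0 (by norm_num) (by norm_num) (by norm_num) (by norm_num)) (ex_um 0.411 (by norm_num) (by norm_num) (by norm_num) (by norm_num)) (by norm_num) (by norm_num) (by norm_num)) (by norm_num) (by norm_num)
      (b3_Vlo hD1 1.2 1.25 0 1.045 0.58 (-0.54472) 0.541 0.85719 0.1541 0.80655 hk1 hk2 (by linarith) (by linarith) (by norm_num) (ex_lm 0.54472 (by norm_num) (by norm_num) (by norm_num) (by norm_num) (by norm_num)) (by norm_num) (by norm_num) (by norm_num) (by norm_num) (by norm_num) (by norm_num) (by norm_num) (by norm_num) (ex_um 0.1541 (by norm_num) (by norm_num) (by norm_num) (by norm_num)) (by norm_num))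
  have h0 : ‖Xf β r h t 0‖ ≤ 0.907 * ‖Xf β r h t 1‖ :=
    b3_cmp 0.7496 0.02885 0.0005195 0.75655 0.905823 0.001111 0.907 hr (b3_HU0 0.44 1.2 1.25 (-2.0944) (-1.04939) 1.23943 1.69554 1.73326 0.58979 0.57696 1.69553 0.8738 0.14105 0.69854 1.3676 0 0.05 0.000001 1.5464 0.7777 hβ hr hκ (by norm_num) hk1 hk2 (by norm_num) (by linarith) (by linarith) (by norm_num) (by norm_num) (ex_up 0.528 (by norm_num) (by norm_num) (by norm_num) (by norm_num)) (ex_up 0.55 (by norm_num) (by norm_num) (by norm_num) (by norm_num)) (ex_um 0.528 (by norm_num) (by norm_num) (by norm_num) (by norm_num)) (ex_um 0.55 (by norm_num) (by norm_num) (by norm_num) (by norm_num)) (by norm_num) (by norm_num) (ex_lp 0.528 (by norm_num) (by norm_num) (by norm_num)) (by norm_num) (by norm_num) (by norm_num) (by norm_num) (by norm_num) (by norm_num) (by norm_num) (by norm_num) (by norm_num) (by norm_num) (by norm_num) (by norm_num) (by norm_num) (by norm_num) (v5_hump 4.6135 8 2.8285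 0.0000003148 0.000001 hβ hr hκ hk1 hk2 (by norm_num) (tb := (-1.04939)) (by linarith) (by norm_num) (by norm_num) (by norm_num) (by norm_num) (by norm_num) (by norm_num) (by norm_num) (ex_un 14 0.99 (by norm_num) (by norm_num) (by norm_num) (by norm_num)) (by norm_num)) (by norm_num) (by norm_num)) hY (by norm_num) (by norm_num) (by norm_num) (by norm_num) (by norm_num) (ex_un 0 0.2885 (by norm_num) (by norm_num) (by norm_num) (by norm_num)) (by norm_num) (by norm_num) (by norm_num) (ex_un 7 0.5655 (by norm_num) (by norm_num) (by norm_num) (by norm_num)) (by norm_num) (by norm_num)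
  have h2 : ‖Xf β r h t (-1)‖ ≤ 0.0478 * ‖Xf β r h t 1‖ := by
    rcases le_total ((t + h) + κ) 2.62 with g0 | g0
    · exact b3_cmp 0.01559 0.41615 0.0003142 0.80655 0.047661 0.000087 0.0478 hr ((b3_Xm hh).trans_le (b3_HF 0.43 1.2 1.25 2.09439 2.62 1.29098 0.59691 0.58421 1.67532 1.71173 0.5842 1.7779 0.14105 2.41509 0.1507 0.07803 0.4622 0.000668 2.2106 0.2002 0.3904 hβ hr hκ (by norm_num) hk1 hk2 (by norm_num) (by linarith) (by linarith) (by norm_num) (ex_um 0.516 (by norm_num) (by norm_num) (by norm_num) (by norm_num)) (ex_um 0.5375 (by norm_num) (by norm_num) (by norm_num) (by norm_num)) (ex_up 0.516 (by norm_num) (by norm_num) (by norm_num) (by norm_num)) (ex_up 0.5375 (by norm_num) (by norm_num) (by norm_num) (by norm_num)) (by norm_num) (by norm_num) (ex_lm 0.5375 (by norm_num) (by norm_num) (by norm_num) (by norm_num) (by norm_num)) (by norm_num) (by norm_num) (by norm_num) (by norm_num) (by norm_num) (by norm_num) (by norm_num) (by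 norm_num) (by norm_num) (by norm_num) (by norm_num) (by norm_num) (ex_un 0 0.7803 (by norm_num) (by norm_num) (by norm_num) (by norm_num)) (v5_hump 0.9441 8 2.8285 0.000526 0.000668 hβ hr hκ hk1 hk2 (by norm_num) (tb := 2.62) (by linarith) (by norm_num) (by norm_num) (by norm_num) (by norm_num) (by norm_num) (by norm_num) (by norm_num) (ex_un 7 0.5528 (by norm_num) (by norm_num) (by norm_num) (by norm_num)) (by norm_num)) (by norm_num) (by norm_num) (by norm_num))) hY (by norm_num) (by norm_num) (by norm_num) (by norm_num) (by norm_num) (ex_un 4 0.1615 (by norm_num) (by norm_num) (by norm_num) (by norm_num)) (by norm_num) (by norm_num) (by norm_num) (ex_un 8 0.0655 (by norm_num) (by norm_num) (by norm_num) (by norm_num)) (by norm_num) (by norm_num)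
    exact b3_cmp 1 0 0.006311 0.50655 0 0.032648 0.0478 hr (b3_w (b3_UD 1.2 1.25 2.62 3.1394 0.25 0.36419 0.25 1.9502 3.7407 0.3 hh hβ hr hκ (by norm_num) hk1 hk2 (by linarith) (by linarith) (by norm_num) (by norm_num) (by norm_num) (by norm_num) (by norm_num) (by norm_num) (by norm_num) (by norm_num) (by norm_num) (by norm_num) (by norm_num) (by norm_num) (by norm_num))) hY (by norm_num) (by norm_num) (by norm_num) (by norm_num) (by norm_num) (by norm_num) (by norm_num) (by norm_num) (by norm_num) (ex_un 5 0.0655 (by norm_num) (by norm_num) (by norm_num) (by norm_num)) (by norm_num) (by norm_num)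
  exact b3_out1 0.907 0.0478 hY (by norm_num) h0 h2 (by norm_num)

private theorem yR0 {κ t : ℝ} (h : DomR κ t) (hk1 : 1.2 ≤ κ) (hk2 : κ ≤ 1.25) (ht1 : -0.7124 ≤ t + κ) (ht2 : t + κ ≤ -0.39439) :
    (-0.371) ≤ sy κ t ∧ sy κ t ≤ (-0.199) := by
  have hy1 : -0.371 ≤ sy κ t := syL_ge h 1.2 1.25 0.7124 0.371 0.69004 0.69005 0.2026 0.2048 0.21335 hk1 hk2 (by linarith) (by norm_num) (by norm_num) (by norm_num)
    (expm_ge (by norm_num) (by norm_num) (by norm_num) (by norm_num)) (expm_le (by norm_num) (by norm_num) (by norm_num)) (by norm_num)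
    (by norm_num) (by norm_num) (by norm_num) (by norm_num) (by norm_num) (by norm_num)
  have hy2 : sy κ t ≤ -0.199 := syL_le h 1.2 1.25 0.39439 0.199 0.81954 0.81955 0.13047 0.13591 hk1 hk2 (by linarith) (by norm_num) (by norm_num) (by norm_num)
    (expm_ge (by norm_num) (by norm_num) (by norm_num) (by norm_num)) (expm_le (by norm_num) (by norm_num) (by norm_num)) (by norm_num)
    (by norm_num) (by norm_num) (by norm_num) (by norm_num) (by norm_num) (by norm_num)
  exact ⟨hy1, hy2⟩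

theorem right0 {β r h t κ : ℝ} (hh : h = 2 * Real.pi / (3 : ℕ)) (hβ : 0 < β) (hr : 10 ≤ r) (hκ : κ = β * r)
    (hk1 : 1.2 ≤ κ) (hk2 : κ ≤ 1.25) (hT1 : 1.382 ≤ t + κ) (hT2 : t + κ ≤ 1.7) :
    ‖Xf β r h t (-1)‖ < |‖Xf β r h t 1‖ - ‖Xf β r h t 0‖| := by
  obtain ⟨q1, q2, q3⟩ := b3_h hh
  have hR0 := b3_R0 hβ hr hκ
  have hR := b3_R hβ hr hκ (by linarith)
  have hD0 : DomR κ (t - h) := b3_dom (by linarith) (by linarith) (Or.inl (by linarith))
  have hy := yR0 hD0 hk1 hk2 (by linarith) (by linarith)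
  have hY : 0.6415 * Real.exp (r * 0.891) ≤ ‖Xf β r h t 0‖ :=
    b3_lo hβ hr hκ (k := 0) (t' := t - h) (by push_cast; ring) hD0 0.12 3.5395 0.6415 0.891 (by norm_num)
      (T3_25_p0R hD0 hβ hk1 hk2 (by linarith) (by linarith) hR0 hR)
      (v5_Dup hD0 1.25 (-0.371) (-0.199) 1.44919 1.22019 3.5395 hk2 hy.1 hy.2 (ex_up 0.371 (by norm_num) (by norm_num) (by norm_num) (by norm_num)) (ex_up 0.199 (by norm_num) (by norm_num) (by norm_num) (by norm_num)) (by norm_num) (by norm_num) (by norm_num)) (by norm_num) (by norm_num)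
      (b3_Vlo hD0 1.2 1.25 (-0.7124) (-0.39439) 1.41 0.34359 0.2204 0.97581 0.02449 0.891 hk1 hk2 (by linarith) (by linarith) (by norm_num) (ex_lp 0.34359 (by norm_num) (by norm_num) (by norm_num)) (by norm_num) (by norm_num) (by norm_num) (by norm_num) (by norm_num) (by norm_num) (by norm_num) (by norm_num) (ex_um 0.02449 (by norm_num) (by norm_num) (by norm_num) (by norm_num)) (by norm_num))
  have h1 : ‖Xf β r h t 1‖ ≤ 0.3504 * ‖Xf β r h t 0‖ := by
    exact b3_cmp 0.1437 0.1957 0.000137 0.891 0.350301 0.000048 0.3504 hr (b3_X1.trans_le (b3_HF 0.36 1.2 1.25 1.382 1.7 1.19282 0.64921 0.63763 1.54034 1.56832 0.63762 1.5412 0.14105 1.7027 1.0707 0.17733 0.1712 0.000001 1.5638 0.2239 0.6953 hβ hr hκ (by norm_num) hk1 hk2 (by norm_num) (by linarith) (by linarith) (by norm_num) (ex_um 0.432 (by norm_num) (by norm_num) (by norm_num) (by norm_num)) (ex_um 0.45 (by norm_num) (by norm_num) (by norm_num) (by norm_num)) (ex_up 0.432 (by norm_num) (by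 norm_num) (by norm_num) (by norm_num)) (ex_up 0.45 (by norm_num) (by norm_num) (by norm_num) (by norm_num)) (by norm_num) (by norm_num) (ex_lm 0.45 (by norm_num) (by norm_num) (by norm_num) (by norm_num) (by norm_num)) (by norm_num) (by norm_num) (by norm_num) (by norm_num) (by norm_num) (by norm_num) (by norm_num) (by norm_num) (by norm_num) (by norm_num) (by norm_num) (by norm_num) (ex_un 1 0.7733 (by norm_num) (by norm_num) (by norm_num) (by norm_num)) (v5_hump 1.8641 8 2.8285 0.0000003386 0.000001 hβ hr hκ hk1 hk2 (by norm_num) (tb := 1.7) (by linarith) (by norm_num) (by norm_num) (by norm_num) (by norm_num) (by norm_num) (by norm_num) (by norm_num) (ex_un 14 0.9128 (by norm_num) (by norm_num) (by norm_num) (by norm_num)) (by norm_num)) (by norm_num) (by norm_num) (by norm_num))) hY (by norm_num) (by norm_num) (by norm_num) (by norm_num) (by norm_num) (ex_un 1 0.957 (by norm_num) (by norm_num) (by norm_num) (by norm_num)) (by norm_num) (by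 norm_num) (by norm_num) (ex_un 8 0.91 (by norm_num) (by norm_num) (by norm_num) (by norm_num)) (by norm_num) (by norm_num)
  have h2 : ‖Xf β r h t (-1)‖ ≤ 0.0043 * ‖Xf β r h t 0‖ := by
    exact b3_cmp 1 0 0.001409 0.65678 0 0.004233 0.0043 hr (b3_w (b3_UD 1.2 1.25 3.47639 3.7944 0.005 0.36419 0.18422 1.0046 1.927 0.23422 hh hβ hr hκ (by norm_num) hk1 hk2 (by linarith) (by linarith) (by norm_num) (by norm_num) (by norm_num) (by norm_num) (by norm_num) (by norm_num) (by norm_num) (by norm_num) (by norm_num) (by norm_num) (by norm_num) (by norm_num) (by norm_num))) hY (by norm_num) (by norm_num) (by norm_num) (by norm_num) (by norm_num) (by norm_num) (by norm_num) (by norm_num) (by norm_num) (ex_un 6 0.5678 (by norm_num) (by norm_num) (by norm_num) (by norm_num)) (by norm_num) (by norm_num)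
  exact b3_out0 0.3504 0.0043 hY (by norm_num) h1 h2 (by norm_num)

private theorem yR1 {κ t : ℝ} (h : DomR κ t) (hk1 : 1.2 ≤ κ) (hk2 : κ ≤ 1.25) (ht1 : -0.3944 ≤ t + κ) (ht2 : t + κ ≤ 0.0001) :
    (-0.203) ≤ sy κ t ∧ sy κ t ≤ 0.005 := by
  have hy1 : -0.203 ≤ sy κ t := syL_ge h 1.2 1.25 0.3944 0.203 0.81627 0.81628 0.1348 0.13256 0.13809 hk1 hk2 (by linarith) (by norm_num) (by norm_num) (by norm_num)
    (expm_ge (by norm_num) (by norm_num) (by norm_num) (by norm_num)) (expm_le (by norm_num) (by norm_num) (by norm_num)) (by norm_num)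
    (by norm_num) (by norm_num) (by norm_num) (by norm_num) (by norm_num) (by norm_num)
  have hy2 : sy κ t ≤ 0.005 := syR_le h 1.2 1.25 0.0001 0.005 1.00501 0.0039 0.00402 0.00419 hk1 hk2 (by linarith) (by norm_num) (by norm_num)
    (expn_ge (by norm_num) (by norm_num)) (by norm_num) (by norm_num) (Or.inr ((mul_le_mul_of_nonneg_left (expn_le (E := 1.00502) (by norm_num) (by norm_num) (by norm_num)) (by norm_num)).trans (by norm_num))) (by norm_num) (by norm_num) (by norm_num)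
  exact ⟨hy1, hy2⟩

theorem right1 {β r h t κ : ℝ} (hh : h = 2 * Real.pi / (3 : ℕ)) (hβ : 0 < β) (hr : 10 ≤ r) (hκ : κ = β * r)
    (hk1 : 1.2 ≤ κ) (hk2 : κ ≤ 1.25) (hT1 : 1.7 ≤ t + κ) (hT2 : t + κ ≤ h) :
    ‖Xf β r h t (-1)‖ < |‖Xf β r h t 1‖ - ‖Xf β r h t 0‖| := by
  obtain ⟨q1, q2, q3⟩ := b3_h hh
  have hR0 := b3_R0 hβ hr hκ
  have hR := b3_R hβ hr hκ (by linarith)
  have hD0 : DomR κ (t - h) := b3_dom (by linarith) (by linarith) (Or.inl (by linarith))
  have hy := yR1 hD0 hk1 hk2 (by linarith) (by linarith)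
  have hY : 0.672 * Real.exp (r * 0.96387) ≤ ‖Xf β r h t 0‖ :=
    b3_lo hβ hr hκ (k := 0) (t' := t - h) (by push_cast; ring) hD0 0.12 2.9391 0.672 0.96387 (by norm_num)
      (T3_25_p0R hD0 hβ hk1 hk2 (by linarith) (by linarith) hR0 hR)
      (v5_Dup hD0 1.25 (-0.203) 0.005 1.22508 0.99502 2.9391 hk2 hy.1 hy.2 (ex_up 0.203 (by norm_num) (by norm_num) (by norm_num) (by norm_num)) (ex_um 0.005 (by norm_num) (by norm_num) (by norm_num) (by norm_num)) (by norm_num) (by norm_num) (by norm_num)) (by norm_num) (by norm_num)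
      (b3_Vlo hD0 1.2 1.25 (-0.3944) 0.0001 1.16 0.14843 0.2024 0.97958 0.02064 0.96387 hk1 hk2 (by linarith) (by linarith) (by norm_num) (ex_lp 0.14843 (by norm_num) (by norm_num) (by norm_num)) (by norm_num) (by norm_num) (by norm_num) (by norm_num) (by norm_num) (by norm_num) (by norm_num) (by norm_num) (ex_um 0.02064 (by norm_num) (by norm_num) (by norm_num) (by norm_num)) (by norm_num))
  have h1 : ‖Xf β r h t 1‖ ≤ 0.0485 * ‖Xf β r h t 0‖ := by
    exact b3_cmp 0.01893 0.39857 0.00006544 0.96387 0.048469 0.000021 0.0485 hr (b3_X1.trans_le (b3_HF 0.4 1.2 1.25 1.7 2.0944 1.2453 0.61879 0.60654 1.61608 1.64873 0.60653 1.6558 0.14105 2.0207 0.6763 0.11698 0.3105 0.000011 1.7206 0.2109 0.5653 hβ hr hκ (by norm_num) hk1 hk2 (by norm_num) (by linarith) (by linarith) (by norm_num) (ex_um 0.48 (by norm_num) (by norm_num) (by norm_num) (by norm_num)) (ex_um 0.5 (by norm_num) (by norm_num) (by norm_num) (by norm_num)) (ex_up 0.48 (by norm_num) (by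 norm_num) (by norm_num) (by norm_num)) (ex_up 0.5 (by norm_num) (by norm_num) (by norm_num) (by norm_num)) (by norm_num) (by norm_num) (ex_lm 0.5 (by norm_num) (by norm_num) (by norm_num) (by norm_num) (by norm_num)) (by norm_num) (by norm_num) (by norm_num) (by norm_num) (by norm_num) (by norm_num) (by norm_num) (by norm_num) (by norm_num) (by norm_num) (by norm_num) (by norm_num) (ex_un 1 0.1698 (by norm_num) (by norm_num) (by norm_num) (by norm_num)) (v5_hump 1.4697 8 2.8285 0.00000789 0.000011 hβ hr hκ hk1 hk2 (by norm_num) (tb := 2.0944) (by linarith) (by norm_num) (by norm_num) (by norm_num) (by norm_num) (by norm_num) (by norm_num) (by norm_num) (ex_un 11 0.7576 (by norm_num) (by norm_num) (by norm_num) (by norm_num)) (by norm_num)) (by norm_num) (by norm_num) (by norm_num))) hY (by norm_num) (by norm_num) (by norm_num) (by norm_num) (by norm_num) (ex_un 3 0.9857 (by norm_num) (by norm_num) (by norm_num) (by norm_num)) (by norm_num) (by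 norm_num) (by norm_num) (ex_un 9 0.6387 (by norm_num) (by norm_num) (by norm_num) (by norm_num)) (by norm_num) (by norm_num)
  have h2 : ‖Xf β r h t (-1)‖ ≤ 0.0447 * ‖Xf β r h t 0‖ := by
    exact b3_cmp 1 0 0.01591 0.41413 0 0.044605 0.0447 hr (b3_w (b3_UD 1.2 1.25 3.79439 4.1888 0.005 0.36419 0.49974 0.9822 1.884 0.54974 hh hβ hr hκ (by norm_num) hk1 hk2 (by linarith) (by linarith) (by norm_num) (by norm_num) (by norm_num) (by norm_num) (by norm_num) (by norm_num) (by norm_num) (by norm_num) (by norm_num) (by norm_num) (by norm_num) (by norm_num) (by norm_num))) hY (by norm_num) (by norm_num) (by norm_num) (by norm_num) (by norm_num) (by norm_num) (by norm_num) (by norm_num) (by norm_num) (ex_un 4 0.1413 (by norm_num) (by norm_num) (by norm_num) (by norm_num)) (by norm_num) (by norm_num)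
  exact b3_out0 0.0485 0.0447 hY (by norm_num) h1 h2 (by norm_num)

private theorem yI {κ t : ℝ} (h : DomR κ t) (hk1 : 1.2 ≤ κ) (hk2 : κ ≤ 1.25) (ht1 : -1.0494 ≤ t + κ) (ht2 : t + κ ≤ -0.71239) :
    (-0.539) ≤ sy κ t ∧ sy κ t ≤ (-0.362) := by
  have hy1 : -0.539 ≤ sy κ t := syL_ge h 1.2 1.25 1.0494 0.539 0.58333 0.58334 0.255 0.25153 0.26202 hk1 hk2 (by linarith) (by norm_num) (by norm_num) (by norm_num)
    (expm_ge (by norm_num) (by norm_num) (by norm_num) (by norm_num)) (expm_le (by norm_num) (by norm_num) (by norm_num)) (by norm_num)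
    (by norm_num) (by norm_num) (by norm_num) (by norm_num) (by norm_num) (by norm_num)
  have hy2 : sy κ t ≤ -0.362 := syL_le h 1.2 1.25 0.71239 0.362 0.69628 0.69629 0.20164 0.21005 hk1 hk2 (by linarith) (by norm_num) (by norm_num) (by norm_num)
    (expm_ge (by norm_num) (by norm_num) (by norm_num) (by norm_num)) (expm_le (by norm_num) (by norm_num) (by norm_num)) (by norm_num)
    (by norm_num) (by norm_num) (by norm_num) (by norm_num) (by norm_num) (by norm_num)
  exact ⟨hy1, hy2⟩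

theorem innE {β r h t κ : ℝ} (hh : h = 2 * Real.pi / (3 : ℕ)) (hβ : 0 < β) (hr : 10 ≤ r) (hκ : κ = β * r)
    (hk1 : 1.2 ≤ κ) (hk2 : κ ≤ 1.25) (hT1 : 1.045 ≤ t + κ) (hT2 : t + κ ≤ 1.382) :
    ‖Xf β r h t (-1)‖ ≤ 0.00204 * ‖Xf β r h t 0‖ ∧ ‖Xf β r h (t + β) (-1)‖ ≤ 0.00395 * ‖Xf β r h t 0‖ := by
  obtain ⟨q1, q2, q3⟩ := b3_h hh
  have hR0 := b3_R0 hβ hr hκ
  have hR := b3_R hβ hr hκ (by linarith)
  have hD0 : DomR κ (t - h) := b3_dom (by linarith) (by linarith) (Or.inl (by linarith))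
  have hy := yI hD0 hk1 hk2 (by linarith) (by linarith)
  have hY : 0.5694 * Real.exp (r * 0.76309) ≤ ‖Xf β r h t 0‖ :=
    b3_lo hβ hr hκ (k := 0) (t' := t - h) (by push_cast; ring) hD0 0.17 4.514 0.5694 0.76309 (by norm_num)
      (T3_25_p0 hD0 hβ hk1 hk2 (by linarith) (by linarith) hR0 hR)
      (v5_Dup hD0 1.25 (-0.539) (-0.362) 1.7143 1.4362 4.514 hk2 hy.1 hy.2 (ex_up 0.539 (by norm_num) (by norm_num) (by norm_num) (by norm_num)) (ex_up 0.362 (by norm_num) (by norm_num) (by norm_num) (by norm_num)) (by norm_num) (by norm_num) (by norm_num)) (by norm_num) (by norm_num)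
      (b3_Vlo hD0 1.2 1.25 (-1.0494) (-0.71239) 1.65 0.50078 0.2694 0.96393 0.03674 0.76309 hk1 hk2 (by linarith) (by linarith) (by norm_num) (ex_lp 0.50078 (by norm_num) (by norm_num) (by norm_num)) (by norm_num) (by norm_num) (by norm_num) (by norm_num) (by norm_num) (by norm_num) (by norm_num) (by norm_num) (ex_um 0.03674 (by norm_num) (by norm_num) (by norm_num) (by norm_num)) (by norm_num))
  constructor
  · exact b3_cmp 1 0 0.0008001 0.71309 0 0.002033 0.00204 hr ((b3_Xm hh).trans_le (b3_U1 1.2 1.25 3.13939 3.4764 0.31859 0.14105 0.69854 0.3129 0.01399 1.2523 0.633092 1.4461 hβ hr hκ (by norm_num) hk1 hk2 (by linarith) (by linarith) (by norm_num) (by norm_num) (by norm_num) (by norm_num) (by norm_num) (by norm_num) (by norm_num) (by norm_num) (by norm_num) (by norm_num) (by norm_num) (by norm_num) (by norm_num) (ex_un 3 0.129 (by norm_num) (by norm_num) (by norm_num) (by norm_num)) (v5_hump 0.0877 8 2.8285 0.4987 0.633092 hβ hr hκ hk1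 hk2 (by norm_num) (tb := 3.4764) (by linarith) (by norm_num) (by norm_num) (by norm_num) (by norm_num) (by norm_num) (by norm_num) (by norm_num) (ex_un 0 0.7016 (by norm_num) (by norm_num) (by norm_num) (by norm_num)) (by norm_num)) (by norm_num))) hY (by norm_num) (by norm_num) (by norm_num) (by norm_num) (by norm_num) (by norm_num) (by norm_num) (by norm_num) (by norm_num) (ex_un 7 0.1309 (by norm_num) (by norm_num) (by norm_num) (by norm_num)) (by norm_num) (by norm_num)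
  · exact b3_cmp 1 0 0.00109 0.68327 0 0.00395 0.00395 hr (b3_w (b3_UD 1.2 1.25 3.13939 3.6014 0.02 0.36419 0.02982 1.0756 2.0632 0.07982 hh hβ hr hκ (by norm_num) hk1 hk2 (by linarith) (by linarith) (by norm_num) (by norm_num) (by norm_num) (by norm_num) (by norm_num) (by norm_num) (by norm_num) (by norm_num) (by norm_num) (by norm_num) (by norm_num) (by norm_num) (by norm_num))) hY (by norm_num) (by norm_num) (by norm_num) (by norm_num) (by norm_num) (by norm_num) (by norm_num) (by norm_num) (by norm_num) (ex_un 6 0.8327 (by norm_num) (by norm_num) (by norm_num) (by norm_num)) (by norm_num) (by norm_num)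

private theorem yA0 {κ t : ℝ} (h : DomR κ t) (hk1 : 1.2 ≤ κ) (hk2 : κ ≤ 1.25) (ht1 : 1.045 ≤ t + κ) (ht2 : t + κ ≤ 1.065) :
    0.404 ≤ sy κ t ∧ sy κ t ≤ 0.417 := by
  have hy1 : 0.404 ≤ sy κ t := syR_ge h 1.2 1.25 1.045 0.404 1.4978 1.49781 0.48408 0.50427 hk1 hk2 (by linarith) (by norm_num) (by norm_num)
    (expn_ge (by norm_num) (by norm_num)) (expn_le (by norm_num) (by norm_num) (by norm_num)) (by norm_num)
    (by norm_num) (by norm_num) (by norm_num) (by norm_num) (by norm_num) (by norm_num)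
  have hy2 : sy κ t ≤ 0.417 := syR_le h 1.2 1.25 1.065 0.417 1.5174 0.5009 0.5062 0.5273 hk1 hk2 (by linarith) (by norm_num) (by norm_num)
    (expn_ge (by norm_num) (by norm_num)) (by norm_num) (by norm_num) (Or.inr ((mul_le_mul_of_nonneg_left (expn_le (E := 1.51741) (by norm_num) (by norm_num) (by norm_num)) (by norm_num)).trans (by norm_num))) (by norm_num) (by norm_num) (by norm_num)
  exact ⟨hy1, hy2⟩

private theorem yB0 {κ t : ℝ} (h : DomR κ t) (hk1 : 1.2 ≤ κ) (hk2 : κ ≤ 1.25) (ht1 : -1.0494 ≤ t + κ) (ht2 : t + κ ≤ -1.02939) :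
    (-0.539) ≤ sy κ t ∧ sy κ t ≤ (-0.516) := by
  have hy1 : -0.539 ≤ sy κ t := syL_ge h 1.2 1.25 1.0494 0.539 0.58333 0.58334 0.255 0.25153 0.26202 hk1 hk2 (by linarith) (by norm_num) (by norm_num) (by norm_num)
    (expm_ge (by norm_num) (by norm_num) (by norm_num) (by norm_num)) (expm_le (by norm_num) (by norm_num) (by norm_num)) (by norm_num)
    (by norm_num) (by norm_num) (by norm_num) (by norm_num) (by norm_num) (by norm_num)
  have hy2 : sy κ t ≤ -0.516 := syL_le h 1.2 1.25 1.02939 0.516 0.5969 0.59691 0.2464 0.25668 hk1 hk2 (by linarith) (by norm_num) (by norm_num) (by norm_num)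
    (expm_ge (by norm_num) (by norm_num) (by norm_num) (by norm_num)) (expm_le (by norm_num) (by norm_num) (by norm_num)) (by norm_num)
    (by norm_num) (by norm_num) (by norm_num) (by norm_num) (by norm_num) (by norm_num)
  exact ⟨hy1, hy2⟩

theorem pc0 {β r h t κ : ℝ} (hh : h = 2 * Real.pi / (3 : ℕ)) (hβ : 0 < β) (hr : 10 ≤ r) (hκ : κ = β * r)
    (hk1 : 1.2 ≤ κ) (hk2 : κ ≤ 1.25) (hT1 : 1.045 ≤ t + κ) (hT2 : t + κ ≤ 1.065) :
    Xf β r h t 0 ≠ 0 ∧ r * 0.0973 ≤ (Ld β r h t 1 - Ld β r h t 0).im ∧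
      ‖(((-1 : ℤ) : ℂ) - 1) * Ld β r h t 0 - ((-1 : ℤ) : ℂ) * Ld β r h t 1‖ ≤ r * 5.36 := by
  obtain ⟨q1, q2, q3⟩ := b3_h hh
  have hR0 := b3_R0 hβ hr hκ
  have hR := b3_R hβ hr hκ (by linarith)
  have hD1 : DomR κ t := b3_dom (by linarith) (by linarith) (Or.inl (by linarith))
  have hD0 : DomR κ (t - h) := b3_dom (by linarith) (by linarith) (Or.inl (by linarith))
  have y1 := yA0 hD1 hk1 hk2 (by linarith) (by linarith)
  have y0 := yB0 hD0 hk1 hk2 (by linarith) (by linarith)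
  have j1 := T3_25_d1_0 hD1 hβ hk1 hk2 (by linarith) (by linarith) hR0 hR
  exact b3_piece 1.2 1.25 0.404 0.417 0.41 0.66365 0.66765 0.65903 0.8346 2.4498 2.5127 0.1 0.16 0.16 1.9048 1.0157 0 0 (-0.539) (-0.516) (-0.527) 1.69384 1.7143 2.1429 4.0086 0.08 0.285 0.17 4.2922 4.594 0 0 0.0973 5.36
    hβ hr hκ (by norm_num) hk1 hk2 hD1 hD0 j1 (j1 _ (by rw [sub_self, norm_zero]; norm_num))
    (T3_25_d0_0 hD0 hβ hk1 hk2 (by linarith) (by linarith) hR0 hR)
    (T3_25_p0 hD0 hβ hk1 hk2 (by linarith) (by linarith) hR0 hR)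
    y1.1 y1.2 y0.1 y0.2 (by norm_num)
    (ex_um 0.404 (by norm_num) (by norm_num) (by norm_num) (by norm_num)) (ex_um 0.417 (by norm_num) (by norm_num) (by norm_num) (by norm_num)) (ex_lm 0.41 (by norm_num) (by norm_num) (by norm_num) (by norm_num) (by norm_num)) (by norm_num) (by norm_num) (by norm_num) (by norm_num) (by norm_num) (by norm_num) (by norm_num) (by norm_num)
    (by norm_num) (by norm_num) (by norm_num) (by norm_num) (by norm_num) (by norm_num) (by norm_num) (by norm_num) (by norm_num) (by norm_num)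
    (ex_up 0.539 (by norm_num) (by norm_num) (by norm_num) (by norm_num)) (ex_lp 0.527 (by norm_num) (by norm_num) (by norm_num)) (by norm_num) (by norm_num) (by norm_num) (by norm_num) (by norm_num) (by norm_num)
    (by norm_num) (by norm_num) (by norm_num) (by norm_num) (by norm_num) (by norm_num) (by norm_num) (by norm_num) (by norm_num) (by norm_num) (by norm_num)
    (by norm_num) (by norm_num) (by norm_num) (by norm_num)

private theorem yA1 {κ t : ℝ} (h : DomR κ t) (hk1 : 1.2 ≤ κ) (hk2 : κ ≤ 1.25) (ht1 : 1.065 ≤ t + κ) (ht2 : t + κ ≤ 1.085) :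
    0.41 ≤ sy κ t ∧ sy κ t ≤ 0.423 := by
  have hy1 : 0.41 ≤ sy κ t := syR_ge h 1.2 1.25 1.065 0.41 1.50681 1.50682 0.49423 0.51484 hk1 hk2 (by linarith) (by norm_num) (by norm_num)
    (expn_ge (by norm_num) (by norm_num)) (expn_le (by norm_num) (by norm_num) (by norm_num)) (by norm_num)
    (by norm_num) (by norm_num) (by norm_num) (by norm_num) (by norm_num) (by norm_num)
  have hy2 : sy κ t ≤ 0.423 := syR_le h 1.2 1.25 1.085 0.423 1.52653 0.5111 0.51657 0.53811 hk1 hk2 (by linarith) (by norm_num) (by norm_num)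
    (expn_ge (by norm_num) (by norm_num)) (by norm_num) (by norm_num) (Or.inr ((mul_le_mul_of_nonneg_left (expn_le (E := 1.52654) (by norm_num) (by norm_num) (by norm_num)) (by norm_num)).trans (by norm_num))) (by norm_num) (by norm_num) (by norm_num)
  exact ⟨hy1, hy2⟩

private theorem yB1 {κ t : ℝ} (h : DomR κ t) (hk1 : 1.2 ≤ κ) (hk2 : κ ≤ 1.25) (ht1 : -1.0294 ≤ t + κ) (ht2 : t + κ ≤ -1.00939) :
    (-0.53) ≤ sy κ t ∧ sy κ t ≤ (-0.506) := by
  have hy1 : -0.53 ≤ sy κ t := syL_ge h 1.2 1.25 1.0294 0.53 0.5886 0.58861 0.2469 0.24956 0.25997 hk1 hk2 (by linarith) (by norm_num) (by norm_num) (by norm_num)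
    (expm_ge (by norm_num) (by norm_num) (by norm_num) (by norm_num)) (expm_le (by norm_num) (by norm_num) (by norm_num)) (by norm_num)
    (by norm_num) (by norm_num) (by norm_num) (by norm_num) (by norm_num) (by norm_num)
  have hy2 : sy κ t ≤ -0.506 := syL_le h 1.2 1.25 1.00939 0.506 0.6029 0.60291 0.24405 0.25423 hk1 hk2 (by linarith) (by norm_num) (by norm_num) (by norm_num)
    (expm_ge (by norm_num) (by norm_num) (by norm_num) (by norm_num)) (expm_le (by norm_num) (by norm_num) (by norm_num)) (by norm_num)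
    (by norm_num) (by norm_num) (by norm_num) (by norm_num) (by norm_num) (by norm_num)
  exact ⟨hy1, hy2⟩

theorem pc1 {β r h t κ : ℝ} (hh : h = 2 * Real.pi / (3 : ℕ)) (hβ : 0 < β) (hr : 10 ≤ r) (hκ : κ = β * r)
    (hk1 : 1.2 ≤ κ) (hk2 : κ ≤ 1.25) (hT1 : 1.065 ≤ t + κ) (hT2 : t + κ ≤ 1.085) :
    Xf β r h t 0 ≠ 0 ∧ r * 0.0973 ≤ (Ld β r h t 1 - Ld β r h t 0).im ∧
      ‖(((-1 : ℤ) : ℂ) - 1) * Ld β r h t 0 - ((-1 : ℤ) : ℂ) * Ld β r h t 1‖ ≤ r * 5.36 := by
  obtain ⟨q1, q2, q3⟩ := b3_h hh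
  have hR0 := b3_R0 hβ hr hκ
  have hR := b3_R hβ hr hκ (by linarith)
  have hD1 : DomR κ t := b3_dom (by linarith) (by linarith) (Or.inl (by linarith))
  have hD0 : DomR κ (t - h) := b3_dom (by linarith) (by linarith) (Or.inl (by linarith))
  have y1 := yA1 hD1 hk1 hk2 (by linarith) (by linarith)
  have y0 := yB1 hD0 hk1 hk2 (by linarith) (by linarith)
  have j1 := T3_25_d1_0 hD1 hβ hk1 hk2 (by linarith) (by linarith) hR0 hR
  exact b3_piece 1.2 1.25 0.41 0.423 0.416 0.65968 0.66366 0.65508 0.8296 2.4541 2.5166 0.1 0.16 0.16 1.9048 1.0088 0 0 (-0.53) (-0.506) (-0.518) 1.67866 1.69894 2.1237 3.9483 0.08 0.285 0.17 4.2922 4.5875 0 0 0.0973 5.36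
    hβ hr hκ (by norm_num) hk1 hk2 hD1 hD0 j1 (j1 _ (by rw [sub_self, norm_zero]; norm_num))
    (T3_25_d0_0 hD0 hβ hk1 hk2 (by linarith) (by linarith) hR0 hR)
    (T3_25_p0 hD0 hβ hk1 hk2 (by linarith) (by linarith) hR0 hR)
    y1.1 y1.2 y0.1 y0.2 (by norm_num)
    (ex_um 0.41 (by norm_num) (by norm_num) (by norm_num) (by norm_num)) (ex_um 0.423 (by norm_num) (by norm_num) (by norm_num) (by norm_num)) (ex_lm 0.416 (by norm_num) (by norm_num) (by norm_num) (by norm_num) (by norm_num)) (by norm_num) (by norm_num) (by norm_num) (by norm_num) (by norm_num) (by norm_num) (by norm_num) (by norm_num)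
    (by norm_num) (by norm_num) (by norm_num) (by norm_num) (by norm_num) (by norm_num) (by norm_num) (by norm_num) (by norm_num) (by norm_num)
    (ex_up 0.53 (by norm_num) (by norm_num) (by norm_num) (by norm_num)) (ex_lp 0.518 (by norm_num) (by norm_num) (by norm_num)) (by norm_num) (by norm_num) (by norm_num) (by norm_num) (by norm_num) (by norm_num)
    (by norm_num) (by norm_num) (by norm_num) (by norm_num) (by norm_num) (by norm_num) (by norm_num) (by norm_num) (by norm_num) (by norm_num) (by norm_num)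
    (by norm_num) (by norm_num) (by norm_num) (by norm_num)

private theorem yA2 {κ t : ℝ} (h : DomR κ t) (hk1 : 1.2 ≤ κ) (hk2 : κ ≤ 1.25) (ht1 : 1.085 ≤ t + κ) (ht2 : t + κ ≤ 1.105) :
    0.415 ≤ sy κ t ∧ sy κ t ≤ 0.429 := by
  have hy1 : 0.415 ≤ sy κ t := syR_ge h 1.2 1.25 1.085 0.415 1.51437 1.51438 0.50277 0.52373 hk1 hk2 (by linarith) (by norm_num) (by norm_num)
    (expn_ge (by norm_num) (by norm_num)) (expn_le (by norm_num) (by norm_num) (by norm_num)) (by norm_num)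
    (by norm_num) (by norm_num) (by norm_num) (by norm_num) (by norm_num) (by norm_num)
  have hy2 : sy κ t ≤ 0.429 := syR_le h 1.2 1.25 1.105 0.429 1.53572 0.5215 0.52705 0.54903 hk1 hk2 (by linarith) (by norm_num) (by norm_num)
    (expn_ge (by norm_num) (by norm_num)) (by norm_num) (by norm_num) (Or.inr ((mul_le_mul_of_nonneg_left (expn_le (E := 1.53573) (by norm_num) (by norm_num) (by norm_num)) (by norm_num)).trans (by norm_num))) (by norm_num) (by norm_num) (by norm_num)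
  exact ⟨hy1, hy2⟩

private theorem yB2 {κ t : ℝ} (h : DomR κ t) (hk1 : 1.2 ≤ κ) (hk2 : κ ≤ 1.25) (ht1 : -1.0094 ≤ t + κ) (ht2 : t + κ ≤ -0.98939) :
    (-0.52) ≤ sy κ t ∧ sy κ t ≤ (-0.497) := by
  have hy1 : -0.52 ≤ sy κ t := syL_ge h 1.2 1.25 1.0094 0.52 0.59452 0.59453 0.2447 0.24732 0.25763 hk1 hk2 (by linarith) (by norm_num) (by norm_num) (by norm_num)
    (expm_ge (by norm_num) (by norm_num) (by norm_num) (by norm_num)) (expm_le (by norm_num) (by norm_num) (by norm_num)) (by norm_num)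
    (by norm_num) (by norm_num) (by norm_num) (by norm_num) (by norm_num) (by norm_num)
  have hy2 : sy κ t ≤ -0.497 := syL_le h 1.2 1.25 0.98939 0.497 0.60835 0.60836 0.24187 0.25197 hk1 hk2 (by linarith) (by norm_num) (by norm_num) (by norm_num)
    (expm_ge (by norm_num) (by norm_num) (by norm_num) (by norm_num)) (expm_le (by norm_num) (by norm_num) (by norm_num)) (by norm_num)
    (by norm_num) (by norm_num) (by norm_num) (by norm_num) (by norm_num) (by norm_num)
  exact ⟨hy1, hy2⟩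

theorem pc2 {β r h t κ : ℝ} (hh : h = 2 * Real.pi / (3 : ℕ)) (hβ : 0 < β) (hr : 10 ≤ r) (hκ : κ = β * r)
    (hk1 : 1.2 ≤ κ) (hk2 : κ ≤ 1.25) (hT1 : 1.085 ≤ t + κ) (hT2 : t + κ ≤ 1.105) :
    Xf β r h t 0 ≠ 0 ∧ r * 0.0973 ≤ (Ld β r h t 1 - Ld β r h t 0).im ∧
      ‖(((-1 : ℤ) : ℂ) - 1) * Ld β r h t 0 - ((-1 : ℤ) : ℂ) * Ld β r h t 1‖ ≤ r * 5.36 := by
  obtain ⟨q1, q2, q3⟩ := b3_h hh
  have hR0 := b3_R0 hβ hr hκ
  have hR := b3_R hβ hr hκ (by linarith)
  have hD1 : DomR κ t := b3_dom (by linarith) (by linarith) (Or.inl (by linarith))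
  have hD0 : DomR κ (t - h) := b3_dom (by linarith) (by linarith) (Or.inl (by linarith))
  have y1 := yA2 hD1 hk1 hk2 (by linarith) (by linarith)
  have y0 := yB2 hD0 hk1 hk2 (by linarith) (by linarith)
  have j1 := T3_25_d1_1 hD1 hβ hk1 hk2 (by linarith) (by linarith) hR0 hR
  exact b3_piece 1.2 1.25 0.415 0.429 0.422 0.65573 0.66035 0.65117 0.8255 2.4578 2.5206 0.1 0.175 0.175 2.1213 1.117 0 0 (-0.52) (-0.497) (-0.508) 1.66196 1.68203 2.1026 3.8959 0.1 0.32 0.17 3.8555 4.1071 0 0 0.0973 5.36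
    hβ hr hκ (by norm_num) hk1 hk2 hD1 hD0 j1 (j1 _ (by rw [sub_self, norm_zero]; norm_num))
    (T3_25_d0_1 hD0 hβ hk1 hk2 (by linarith) (by linarith) hR0 hR)
    (T3_25_p0 hD0 hβ hk1 hk2 (by linarith) (by linarith) hR0 hR)
    y1.1 y1.2 y0.1 y0.2 (by norm_num)
    (ex_um 0.415 (by norm_num) (by norm_num) (by norm_num) (by norm_num)) (ex_um 0.429 (by norm_num) (by norm_num) (by norm_num) (by norm_num)) (ex_lm 0.422 (by norm_num) (by norm_num) (by norm_num) (by norm_num) (by norm_num)) (by norm_num) (by norm_num) (by norm_num) (by norm_num) (by norm_num) (by norm_num) (by norm_num) (by norm_num)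
    (by norm_num) (by norm_num) (by norm_num) (by norm_num) (by norm_num) (by norm_num) (by norm_num) (by norm_num) (by norm_num) (by norm_num)
    (ex_up 0.52 (by norm_num) (by norm_num) (by norm_num) (by norm_num)) (ex_lp 0.508 (by norm_num) (by norm_num) (by norm_num)) (by norm_num) (by norm_num) (by norm_num) (by norm_num) (by norm_num) (by norm_num)
    (by norm_num) (by norm_num) (by norm_num) (by norm_num) (by norm_num) (by norm_num) (by norm_num) (by norm_num) (by norm_num) (by norm_num) (by norm_num)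
    (by norm_num) (by norm_num) (by norm_num) (by norm_num)

private theorem yA3 {κ t : ℝ} (h : DomR κ t) (hk1 : 1.2 ≤ κ) (hk2 : κ ≤ 1.25) (ht1 : 1.105 ≤ t + κ) (ht2 : t + κ ≤ 1.125) :
    0.42 ≤ sy κ t ∧ sy κ t ≤ 0.434 := by
  have hy1 : 0.42 ≤ sy κ t := syR_ge h 1.2 1.25 1.105 0.42 1.52196 1.52197 0.51137 0.53269 hk1 hk2 (by linarith) (by norm_num) (by norm_num)
    (expn_ge (by norm_num) (by norm_num)) (expn_le (by norm_num) (by norm_num) (by norm_num)) (by norm_num)
    (by norm_num) (by norm_num) (by norm_num) (by norm_num) (by norm_num) (by norm_num)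
  have hy2 : sy κ t ≤ 0.434 := syR_le h 1.2 1.25 1.125 0.434 1.54341 0.5302 0.53587 0.55821 hk1 hk2 (by linarith) (by norm_num) (by norm_num)
    (expn_ge (by norm_num) (by norm_num)) (by norm_num) (by norm_num) (Or.inr ((mul_le_mul_of_nonneg_left (expn_le (E := 1.54342) (by norm_num) (by norm_num) (by norm_num)) (by norm_num)).trans (by norm_num))) (by norm_num) (by norm_num) (by norm_num)
  exact ⟨hy1, hy2⟩

private theorem yB3 {κ t : ℝ} (h : DomR κ t) (hk1 : 1.2 ≤ κ) (hk2 : κ ≤ 1.25) (ht1 : -0.9894 ≤ t + κ) (ht2 : t + κ ≤ -0.96939) :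
    (-0.51) ≤ sy κ t ∧ sy κ t ≤ (-0.488) := by
  have hy1 : -0.51 ≤ sy κ t := syL_ge h 1.2 1.25 0.9894 0.51 0.60049 0.6005 0.2492 0.24499 0.25522 hk1 hk2 (by linarith) (by norm_num) (by norm_num) (by norm_num)
    (expm_ge (by norm_num) (by norm_num) (by norm_num) (by norm_num)) (expm_le (by norm_num) (by norm_num) (by norm_num)) (by norm_num)
    (by norm_num) (by norm_num) (by norm_num) (by norm_num) (by norm_num) (by norm_num)
  have hy2 : sy κ t ≤ -0.488 := syL_le h 1.2 1.25 0.96939 0.488 0.61385 0.61386 0.23964 0.24964 hk1 hk2 (by linarith) (by norm_num) (by norm_num) (by norm_num)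
    (expm_ge (by norm_num) (by norm_num) (by norm_num) (by norm_num)) (expm_le (by norm_num) (by norm_num) (by norm_num)) (by norm_num)
    (by norm_num) (by norm_num) (by norm_num) (by norm_num) (by norm_num) (by norm_num)
  exact ⟨hy1, hy2⟩

theorem pc3 {β r h t κ : ℝ} (hh : h = 2 * Real.pi / (3 : ℕ)) (hβ : 0 < β) (hr : 10 ≤ r) (hκ : κ = β * r)
    (hk1 : 1.2 ≤ κ) (hk2 : κ ≤ 1.25) (hT1 : 1.105 ≤ t + κ) (hT2 : t + κ ≤ 1.125) :
    Xf β r h t 0 ≠ 0 ∧ r * 0.0973 ≤ (Ld β r h t 1 - Ld β r h t 0).im ∧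
      ‖(((-1 : ℤ) : ℂ) - 1) * Ld β r h t 0 - ((-1 : ℤ) : ℂ) * Ld β r h t 1‖ ≤ r * 5.36 := by
  obtain ⟨q1, q2, q3⟩ := b3_h hh
  have hR0 := b3_R0 hβ hr hκ
  have hR := b3_R hβ hr hκ (by linarith)
  have hD1 : DomR κ t := b3_dom (by linarith) (by linarith) (Or.inl (by linarith))
  have hD0 : DomR κ (t - h) := b3_dom (by linarith) (by linarith) (Or.inl (by linarith))
  have y1 := yA3 hD1 hk1 hk2 (by linarith) (by linarith)
  have y0 := yB3 hD0 hk1 hk2 (by linarith) (by linarith)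
  have j1 := T3_25_d1_1 hD1 hβ hk1 hk2 (by linarith) (by linarith) hR0 hR
  exact b3_piece 1.2 1.25 0.42 0.434 0.427 0.65246 0.65705 0.64792 0.8214 2.4615 2.524 0.1 0.175 0.175 2.1213 1.1106 0 0 (-0.51) (-0.488) (-0.499) 1.64707 1.6653 2.0817 3.8445 0.1 0.32 0.17 3.8555 4.0934 0 0 0.0973 5.36
    hβ hr hκ (by norm_num) hk1 hk2 hD1 hD0 j1 (j1 _ (by rw [sub_self, norm_zero]; norm_num))
    (T3_25_d0_1 hD0 hβ hk1 hk2 (by linarith) (by linarith) hR0 hR)
    (T3_25_p0 hD0 hβ hk1 hk2 (by linarith) (by linarith) hR0 hR)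
    y1.1 y1.2 y0.1 y0.2 (by norm_num)
    (ex_um 0.42 (by norm_num) (by norm_num) (by norm_num) (by norm_num)) (ex_um 0.434 (by norm_num) (by norm_num) (by norm_num) (by norm_num)) (ex_lm 0.427 (by norm_num) (by norm_num) (by norm_num) (by norm_num) (by norm_num)) (by norm_num) (by norm_num) (by norm_num) (by norm_num) (by norm_num) (by norm_num) (by norm_num) (by norm_num)
    (by norm_num) (by norm_num) (by norm_num) (by norm_num) (by norm_num) (by norm_num) (by norm_num) (by norm_num) (by norm_num) (by norm_num)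
    (ex_up 0.51 (by norm_num) (by norm_num) (by norm_num) (by norm_num)) (ex_lp 0.499 (by norm_num) (by norm_num) (by norm_num)) (by norm_num) (by norm_num) (by norm_num) (by norm_num) (by norm_num) (by norm_num)
    (by norm_num) (by norm_num) (by norm_num) (by norm_num) (by norm_num) (by norm_num) (by norm_num) (by norm_num) (by norm_num) (by norm_num) (by norm_num)
    (by norm_num) (by norm_num) (by norm_num) (by norm_num)

private theorem yA4 {κ t : ℝ} (h : DomR κ t) (hk1 : 1.2 ≤ κ) (hk2 : κ ≤ 1.25) (ht1 : 1.125 ≤ t + κ) (ht2 : t + κ ≤ 1.15) :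
    0.426 ≤ sy κ t ∧ sy κ t ≤ 0.441 := by
  have hy1 : 0.426 ≤ sy κ t := syR_ge h 1.2 1.25 1.125 0.426 1.53112 1.53113 0.5218 0.54356 hk1 hk2 (by linarith) (by norm_num) (by norm_num)
    (expn_ge (by norm_num) (by norm_num)) (expn_le (by norm_num) (by norm_num) (by norm_num)) (by norm_num)
    (by norm_num) (by norm_num) (by norm_num) (by norm_num) (by norm_num) (by norm_num)
  have hy2 : sy κ t ≤ 0.441 := syR_le h 1.2 1.25 1.15 0.441 1.55426 0.5426 0.54834 0.5712 hk1 hk2 (by linarith) (by norm_num) (by norm_num)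
    (expn_ge (by norm_num) (by norm_num)) (by norm_num) (by norm_num) (Or.inr ((mul_le_mul_of_nonneg_left (expn_le (E := 1.55427) (by norm_num) (by norm_num) (by norm_num)) (by norm_num)).trans (by norm_num))) (by norm_num) (by norm_num) (by norm_num)
  exact ⟨hy1, hy2⟩

private theorem yB4 {κ t : ℝ} (h : DomR κ t) (hk1 : 1.2 ≤ κ) (hk2 : κ ≤ 1.25) (ht1 : -0.9694 ≤ t + κ) (ht2 : t + κ ≤ -0.94439) :
    (-0.501) ≤ sy κ t ∧ sy κ t ≤ (-0.476) := by
  have hy1 : -0.501 ≤ sy κ t := syL_ge h 1.2 1.25 0.9694 0.501 0.60592 0.60593 0.2403 0.24285 0.25298 hk1 hk2 (by linarith) (by norm_num) (by norm_num) (by norm_num)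
    (expm_ge (by norm_num) (by norm_num) (by norm_num) (by norm_num)) (expm_le (by norm_num) (by norm_num) (by norm_num)) (by norm_num)
    (by norm_num) (by norm_num) (by norm_num) (by norm_num) (by norm_num) (by norm_num)
  have hy2 : sy κ t ≤ -0.476 := syL_le h 1.2 1.25 0.94439 0.476 0.62126 0.62127 0.23657 0.24644 hk1 hk2 (by linarith) (by norm_num) (by norm_num) (by norm_num)
    (expm_ge (by norm_num) (by norm_num) (by norm_num) (by norm_num)) (expm_le (by norm_num) (by norm_num) (by norm_num)) (by norm_num)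
    (by norm_num) (by norm_num) (by norm_num) (by norm_num) (by norm_num) (by norm_num)
  exact ⟨hy1, hy2⟩

theorem pc4 {β r h t κ : ℝ} (hh : h = 2 * Real.pi / (3 : ℕ)) (hβ : 0 < β) (hr : 10 ≤ r) (hκ : κ = β * r)
    (hk1 : 1.2 ≤ κ) (hk2 : κ ≤ 1.25) (hT1 : 1.125 ≤ t + κ) (hT2 : t + κ ≤ 1.15) :
    Xf β r h t 0 ≠ 0 ∧ r * 0.0973 ≤ (Ld β r h t 1 - Ld β r h t 0).im ∧
      ‖(((-1 : ℤ) : ℂ) - 1) * Ld β r h t 0 - ((-1 : ℤ) : ℂ) * Ld β r h t 1‖ ≤ r * 5.36 := by
  obtain ⟨q1, q2, q3⟩ := b3_h hh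
  have hR0 := b3_R0 hβ hr hκ
  have hR := b3_R hβ hr hκ (by linarith)
  have hD1 : DomR κ t := b3_dom (by linarith) (by linarith) (Or.inl (by linarith))
  have hD0 : DomR κ (t - h) := b3_dom (by linarith) (by linarith) (Or.inl (by linarith))
  have y1 := yA4 hD1 hk1 hk2 (by linarith) (by linarith)
  have y0 := yB4 hD0 hk1 hk2 (by linarith) (by linarith)
  have j1 := T3_25_d1_2 hD1 hβ hk1 hk2 (by linarith) (by linarith) hR0 hR
  exact b3_piece 1.2 1.25 0.426 0.441 0.433 0.64856 0.65312 0.6434 0.8164 2.4661 2.5289 0.08 0.16 0.16 2.381 1.2379 0 0 (-0.501) (-0.476) (-0.488) 1.62905 1.65038 2.063 3.7777 0.1 0.3 0.17 3.6145 3.8365 0 0 0.0973 5.36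
    hβ hr hκ (by norm_num) hk1 hk2 hD1 hD0 j1 (j1 _ (by rw [sub_self, norm_zero]; norm_num))
    (T3_25_d0_2 hD0 hβ hk1 hk2 (by linarith) (by linarith) hR0 hR)
    (T3_25_p0 hD0 hβ hk1 hk2 (by linarith) (by linarith) hR0 hR)
    y1.1 y1.2 y0.1 y0.2 (by norm_num)
    (ex_um 0.426 (by norm_num) (by norm_num) (by norm_num) (by norm_num)) (ex_um 0.441 (by norm_num) (by norm_num) (by norm_num) (by norm_num)) (ex_lm 0.433 (by norm_num) (by norm_num) (by norm_num) (by norm_num) (by norm_num)) (by norm_num) (by norm_num) (by norm_num) (by norm_num) (by norm_num) (by norm_num) (by norm_num) (by norm_num)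
    (by norm_num) (by norm_num) (by norm_num) (by norm_num) (by norm_num) (by norm_num) (by norm_num) (by norm_num) (by norm_num) (by norm_num)
    (ex_up 0.501 (by norm_num) (by norm_num) (by norm_num) (by norm_num)) (ex_lp 0.488 (by norm_num) (by norm_num) (by norm_num)) (by norm_num) (by norm_num) (by norm_num) (by norm_num) (by norm_num) (by norm_num)
    (by norm_num) (by norm_num) (by norm_num) (by norm_num) (by norm_num) (by norm_num) (by norm_num) (by norm_num) (by norm_num) (by norm_num) (by norm_num)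
    (by norm_num) (by norm_num) (by norm_num) (by norm_num)

private theorem yA5 {κ t : ℝ} (h : DomR κ t) (hk1 : 1.2 ≤ κ) (hk2 : κ ≤ 1.25) (ht1 : 1.15 ≤ t + κ) (ht2 : t + κ ≤ 1.175) :
    0.432 ≤ sy κ t ∧ sy κ t ≤ 0.448 := by
  have hy1 : 0.432 ≤ sy κ t := syR_ge h 1.2 1.25 1.15 0.432 1.54033 1.54034 0.53233 0.55453 hk1 hk2 (by linarith) (by norm_num) (by norm_num)
    (expn_ge (by norm_num) (by norm_num)) (expn_le (by norm_num) (by norm_num) (by norm_num)) (by norm_num)
    (by norm_num) (by norm_num) (by norm_num) (by norm_num) (by norm_num) (by norm_num)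
  have hy2 : sy κ t ≤ 0.448 := syR_le h 1.2 1.25 1.175 0.448 1.56517 0.5551 0.56095 0.58434 hk1 hk2 (by linarith) (by norm_num) (by norm_num)
    (expn_ge (by norm_num) (by norm_num)) (by norm_num) (by norm_num) (Or.inr ((mul_le_mul_of_nonneg_left (expn_le (E := 1.56518) (by norm_num) (by norm_num) (by norm_num)) (by norm_num)).trans (by norm_num))) (by norm_num) (by norm_num) (by norm_num)
  exact ⟨hy1, hy2⟩

private theorem yB5 {κ t : ℝ} (h : DomR κ t) (hk1 : 1.2 ≤ κ) (hk2 : κ ≤ 1.25) (ht1 : -0.9444 ≤ t + κ) (ht2 : t + κ ≤ -0.91939) :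
    (-0.488) ≤ sy κ t ∧ sy κ t ≤ (-0.464) := by
  have hy1 : -0.488 ≤ sy κ t := syL_ge h 1.2 1.25 0.9444 0.488 0.61385 0.61386 0.2413 0.23964 0.24964 hk1 hk2 (by linarith) (by norm_num) (by norm_num) (by norm_num)
    (expm_ge (by norm_num) (by norm_num) (by norm_num) (by norm_num)) (expm_le (by norm_num) (by norm_num) (by norm_num)) (by norm_num)
    (by norm_num) (by norm_num) (by norm_num) (by norm_num) (by norm_num) (by norm_num)
  have hy2 : sy κ t ≤ -0.464 := syL_le h 1.2 1.25 0.91939 0.464 0.62876 0.62877 0.23339 0.24313 hk1 hk2 (by linarith) (by norm_num) (by norm_num) (by norm_num)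
    (expm_ge (by norm_num) (by norm_num) (by norm_num) (by norm_num)) (expm_le (by norm_num) (by norm_num) (by norm_num)) (by norm_num)
    (by norm_num) (by norm_num) (by norm_num) (by norm_num) (by norm_num) (by norm_num)
  exact ⟨hy1, hy2⟩

theorem pc5 {β r h t κ : ℝ} (hh : h = 2 * Real.pi / (3 : ℕ)) (hβ : 0 < β) (hr : 10 ≤ r) (hκ : κ = β * r)
    (hk1 : 1.2 ≤ κ) (hk2 : κ ≤ 1.25) (hT1 : 1.15 ≤ t + κ) (hT2 : t + κ ≤ 1.175) :
    Xf β r h t 0 ≠ 0 ∧ r * 0.0973 ≤ (Ld β r h t 1 - Ld β r h t 0).im ∧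
      ‖(((-1 : ℤ) : ℂ) - 1) * Ld β r h t 0 - ((-1 : ℤ) : ℂ) * Ld β r h t 1‖ ≤ r * 5.36 := by
  obtain ⟨q1, q2, q3⟩ := b3_h hh
  have hR0 := b3_R0 hβ hr hκ
  have hR := b3_R hβ hr hκ (by linarith)
  have hD1 : DomR κ t := b3_dom (by linarith) (by linarith) (Or.inl (by linarith))
  have hD0 : DomR κ (t - h) := b3_dom (by linarith) (by linarith) (Or.inl (by linarith))
  have y1 := yA5 hD1 hk1 hk2 (by linarith) (by linarith)
  have y0 := yB5 hD0 hk1 hk2 (by linarith) (by linarith)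
  have j1 := T3_25_d1_2 hD1 hβ hk1 hk2 (by linarith) (by linarith) hR0 hR
  exact b3_piece 1.2 1.25 0.432 0.448 0.44 0.64403 0.64921 0.63891 0.8116 2.4708 2.5339 0.08 0.16 0.16 2.381 1.2294 0 0 (-0.488) (-0.464) (-0.476) 1.60962 1.62906 2.0364 3.7133 0.1 0.3 0.17 3.6145 3.8198 0 0 0.0973 5.36
    hβ hr hκ (by norm_num) hk1 hk2 hD1 hD0 j1 (j1 _ (by rw [sub_self, norm_zero]; norm_num))
    (T3_25_d0_2 hD0 hβ hk1 hk2 (by linarith) (by linarith) hR0 hR)
    (T3_25_p0 hD0 hβ hk1 hk2 (by linarith) (by linarith) hR0 hR)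
    y1.1 y1.2 y0.1 y0.2 (by norm_num)
    (ex_um 0.432 (by norm_num) (by norm_num) (by norm_num) (by norm_num)) (ex_um 0.448 (by norm_num) (by norm_num) (by norm_num) (by norm_num)) (ex_lm 0.44 (by norm_num) (by norm_num) (by norm_num) (by norm_num) (by norm_num)) (by norm_num) (by norm_num) (by norm_num) (by norm_num) (by norm_num) (by norm_num) (by norm_num) (by norm_num)
    (by norm_num) (by norm_num) (by norm_num) (by norm_num) (by norm_num) (by norm_num) (by norm_num) (by norm_num) (by norm_num) (by norm_num)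
    (ex_up 0.488 (by norm_num) (by norm_num) (by norm_num) (by norm_num)) (ex_lp 0.476 (by norm_num) (by norm_num) (by norm_num)) (by norm_num) (by norm_num) (by norm_num) (by norm_num) (by norm_num) (by norm_num)
    (by norm_num) (by norm_num) (by norm_num) (by norm_num) (by norm_num) (by norm_num) (by norm_num) (by norm_num) (by norm_num) (by norm_num) (by norm_num)
    (by norm_num) (by norm_num) (by norm_num) (by norm_num)

private theorem yA6 {κ t : ℝ} (h : DomR κ t) (hk1 : 1.2 ≤ κ) (hk2 : κ ≤ 1.25) (ht1 : 1.175 ≤ t + κ) (ht2 : t + κ ≤ 1.198) :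
    0.439 ≤ sy κ t ∧ sy κ t ≤ 0.454 := by
  have hy1 : 0.439 ≤ sy κ t := syR_ge h 1.2 1.25 1.175 0.439 1.55115 1.55116 0.54476 0.56747 hk1 hk2 (by linarith) (by norm_num) (by norm_num)
    (expn_ge (by norm_num) (by norm_num)) (expn_le (by norm_num) (by norm_num) (by norm_num)) (by norm_num)
    (by norm_num) (by norm_num) (by norm_num) (by norm_num) (by norm_num) (by norm_num)
  have hy2 : sy κ t ≤ 0.454 := syR_le h 1.2 1.25 1.198 0.454 1.57459 0.5659 0.57189 0.59573 hk1 hk2 (by linarith) (by norm_num) (by norm_num)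
    (expn_ge (by norm_num) (by norm_num)) (by norm_num) (by norm_num) (Or.inr ((mul_le_mul_of_nonneg_left (expn_le (E := 1.5746) (by norm_num) (by norm_num) (by norm_num)) (by norm_num)).trans (by norm_num))) (by norm_num) (by norm_num) (by norm_num)
  exact ⟨hy1, hy2⟩

private theorem yB6 {κ t : ℝ} (h : DomR κ t) (hk1 : 1.2 ≤ κ) (hk2 : κ ≤ 1.25) (ht1 : -0.9194 ≤ t + κ) (ht2 : t + κ ≤ -0.89639) :
    (-0.476) ≤ sy κ t ∧ sy κ t ≤ (-0.453) := by
  have hy1 : -0.476 ≤ sy κ t := syL_ge h 1.2 1.25 0.9194 0.476 0.62126 0.62127 0.2341 0.23657 0.24644 hk1 hk2 (by linarith) (by norm_num) (by norm_num) (by norm_num)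
    (expm_ge (by norm_num) (by norm_num) (by norm_num) (by norm_num)) (expm_le (by norm_num) (by norm_num) (by norm_num)) (by norm_num)
    (by norm_num) (by norm_num) (by norm_num) (by norm_num) (by norm_num) (by norm_num)
  have hy2 : sy κ t ≤ -0.453 := syL_le h 1.2 1.25 0.89639 0.453 0.63571 0.63572 0.23038 0.23999 hk1 hk2 (by linarith) (by norm_num) (by norm_num) (by norm_num)
    (expm_ge (by norm_num) (by norm_num) (by norm_num) (by norm_num)) (expm_le (by norm_num) (by norm_num) (by norm_num)) (by norm_num)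
    (by norm_num) (by norm_num) (by norm_num) (by norm_num) (by norm_num) (by norm_num)
  exact ⟨hy1, hy2⟩

theorem pc6 {β r h t κ : ℝ} (hh : h = 2 * Real.pi / (3 : ℕ)) (hβ : 0 < β) (hr : 10 ≤ r) (hκ : κ = β * r)
    (hk1 : 1.2 ≤ κ) (hk2 : κ ≤ 1.25) (hT1 : 1.175 ≤ t + κ) (hT2 : t + κ ≤ 1.198) :
    Xf β r h t 0 ≠ 0 ∧ r * 0.0973 ≤ (Ld β r h t 1 - Ld β r h t 0).im ∧
      ‖(((-1 : ℤ) : ℂ) - 1) * Ld β r h t 0 - ((-1 : ℤ) : ℂ) * Ld β r h t 1‖ ≤ r * 5.36 := by
  obtain ⟨q1, q2, q3⟩ := b3_h hh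
  have hR0 := b3_R0 hβ hr hκ
  have hR := b3_R hβ hr hκ (by linarith)
  have hD1 : DomR κ t := b3_dom (by linarith) (by linarith) (Or.inl (by linarith))
  have hD0 : DomR κ (t - h) := b3_dom (by linarith) (by linarith) (Or.inl (by linarith))
  have y1 := yA6 hD1 hk1 hk2 (by linarith) (by linarith)
  have y0 := yB6 hD0 hk1 hk2 (by linarith) (by linarith)
  have j1 := T3_25_d1_3 hD1 hβ hk1 hk2 (by linarith) (by linarith) hR0 hR
  exact b3_piece 1.2 1.25 0.439 0.454 0.447 0.63954 0.64469 0.63509 0.8059 2.4764 2.5383 0.08 0.19 0.19 2.9321 1.5016 0 0 (-0.476) (-0.453) (-0.465) 1.59201 1.60963 2.0121 3.656 0.1 0.285 0.17 3.4338 3.6135 0 0 0.0973 5.36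
    hβ hr hκ (by norm_num) hk1 hk2 hD1 hD0 j1 (j1 _ (by rw [sub_self, norm_zero]; norm_num))
    (T3_25_d0_3 hD0 hβ hk1 hk2 (by linarith) (by linarith) hR0 hR)
    (T3_25_p0 hD0 hβ hk1 hk2 (by linarith) (by linarith) hR0 hR)
    y1.1 y1.2 y0.1 y0.2 (by norm_num)
    (ex_um 0.439 (by norm_num) (by norm_num) (by norm_num) (by norm_num)) (ex_um 0.454 (by norm_num) (by norm_num) (by norm_num) (by norm_num)) (ex_lm 0.447 (by norm_num) (by norm_num) (by norm_num) (by norm_num) (by norm_num)) (by norm_num) (by norm_num) (by norm_num) (by norm_num) (by norm_num) (by norm_num) (by norm_num) (by norm_num)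
    (by norm_num) (by norm_num) (by norm_num) (by norm_num) (by norm_num) (by norm_num) (by norm_num) (by norm_num) (by norm_num) (by norm_num)
    (ex_up 0.476 (by norm_num) (by norm_num) (by norm_num) (by norm_num)) (ex_lp 0.465 (by norm_num) (by norm_num) (by norm_num)) (by norm_num) (by norm_num) (by norm_num) (by norm_num) (by norm_num) (by norm_num)
    (by norm_num) (by norm_num) (by norm_num) (by norm_num) (by norm_num) (by norm_num) (by norm_num) (by norm_num) (by norm_num) (by norm_num) (by norm_num)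
    (by norm_num) (by norm_num) (by norm_num) (by norm_num)

private theorem yA7 {κ t : ℝ} (h : DomR κ t) (hk1 : 1.2 ≤ κ) (hk2 : κ ≤ 1.25) (ht1 : 1.198 ≤ t + κ) (ht2 : t + κ ≤ 1.222) :
    0.444 ≤ sy κ t ∧ sy κ t ≤ 0.46 := by
  have hy1 : 0.444 ≤ sy κ t := syR_ge h 1.2 1.25 1.198 0.444 1.55892 1.55894 0.55372 0.57681 hk1 hk2 (by linarith) (by norm_num) (by norm_num)
    (expn_ge (by norm_num) (by norm_num)) (expn_le (by norm_num) (by norm_num) (by norm_num)) (by norm_num)
    (by norm_num) (by norm_num) (by norm_num) (by norm_num) (by norm_num) (by norm_num)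
  have hy2 : sy κ t ≤ 0.46 := syR_le h 1.2 1.25 1.222 0.46 1.58407 0.5768 0.58293 0.60724 hk1 hk2 (by linarith) (by norm_num) (by norm_num)
    (expn_ge (by norm_num) (by norm_num)) (by norm_num) (by norm_num) (Or.inr ((mul_le_mul_of_nonneg_left (expn_le (E := 1.58408) (by norm_num) (by norm_num) (by norm_num)) (by norm_num)).trans (by norm_num))) (by norm_num) (by norm_num) (by norm_num)
  exact ⟨hy1, hy2⟩

private theorem yB7 {κ t : ℝ} (h : DomR κ t) (hk1 : 1.2 ≤ κ) (hk2 : κ ≤ 1.25) (ht1 : -0.8964 ≤ t + κ) (ht2 : t + κ ≤ -0.87239) :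
    (-0.465) ≤ sy κ t ∧ sy κ t ≤ (-0.441) := by
  have hy1 : -0.465 ≤ sy κ t := syL_ge h 1.2 1.25 0.8964 0.465 0.62813 0.62814 0.2312 0.23366 0.24341 hk1 hk2 (by linarith) (by norm_num) (by norm_num) (by norm_num)
    (expm_ge (by norm_num) (by norm_num) (by norm_num) (by norm_num)) (expm_le (by norm_num) (by norm_num) (by norm_num)) (by norm_num)
    (by norm_num) (by norm_num) (by norm_num) (by norm_num) (by norm_num) (by norm_num)
  have hy2 : sy κ t ≤ -0.441 := syL_le h 1.2 1.25 0.87239 0.441 0.64339 0.6434 0.22698 0.23645 hk1 hk2 (by linarith) (by norm_num) (by norm_num) (by norm_num)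
    (expm_ge (by norm_num) (by norm_num) (by norm_num) (by norm_num)) (expm_le (by norm_num) (by norm_num) (by norm_num)) (by norm_num)
    (by norm_num) (by norm_num) (by norm_num) (by norm_num) (by norm_num) (by norm_num)
  exact ⟨hy1, hy2⟩

theorem pc7 {β r h t κ : ℝ} (hh : h = 2 * Real.pi / (3 : ℕ)) (hβ : 0 < β) (hr : 10 ≤ r) (hκ : κ = β * r)
    (hk1 : 1.2 ≤ κ) (hk2 : κ ≤ 1.25) (hT1 : 1.198 ≤ t + κ) (hT2 : t + κ ≤ 1.222) :
    Xf β r h t 0 ≠ 0 ∧ r * 0.0973 ≤ (Ld β r h t 1 - Ld β r h t 0).im ∧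
      ‖(((-1 : ℤ) : ℂ) - 1) * Ld β r h t 0 - ((-1 : ℤ) : ℂ) * Ld β r h t 1‖ ≤ r * 5.36 := by
  obtain ⟨q1, q2, q3⟩ := b3_h hh
  have hR0 := b3_R0 hβ hr hκ
  have hR := b3_R hβ hr hκ (by linarith)
  have hD1 : DomR κ t := b3_dom (by linarith) (by linarith) (Or.inl (by linarith))
  have hD0 : DomR κ (t - h) := b3_dom (by linarith) (by linarith) (Or.inl (by linarith))
  have y1 := yA7 hD1 hk1 hk2 (by linarith) (by linarith)
  have y0 := yB7 hD0 hk1 hk2 (by linarith) (by linarith)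
  have j1 := T3_25_d1_3 hD1 hβ hk1 hk2 (by linarith) (by linarith) hR0 hR
  exact b3_piece 1.2 1.25 0.444 0.46 0.452 0.63635 0.64147 0.63129 0.8019 2.4804 2.5427 0.08 0.19 0.19 2.9321 1.493 0 0 (-0.465) (-0.441) (-0.453) 1.57302 1.59202 1.9901 3.5956 0.1 0.285 0.17 3.4338 3.6039 0 0 0.0973 5.36
    hβ hr hκ (by norm_num) hk1 hk2 hD1 hD0 j1 (j1 _ (by rw [sub_self, norm_zero]; norm_num))
    (T3_25_d0_3 hD0 hβ hk1 hk2 (by linarith) (by linarith) hR0 hR)
    (T3_25_p0 hD0 hβ hk1 hk2 (by linarith) (by linarith) hR0 hR)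
    y1.1 y1.2 y0.1 y0.2 (by norm_num)
    (ex_um 0.444 (by norm_num) (by norm_num) (by norm_num) (by norm_num)) (ex_um 0.46 (by norm_num) (by norm_num) (by norm_num) (by norm_num)) (ex_lm 0.452 (by norm_num) (by norm_num) (by norm_num) (by norm_num) (by norm_num)) (by norm_num) (by norm_num) (by norm_num) (by norm_num) (by norm_num) (by norm_num) (by norm_num) (by norm_num)
    (by norm_num) (by norm_num) (by norm_num) (by norm_num) (by norm_num) (by norm_num) (by norm_num) (by norm_num) (by norm_num) (by norm_num)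
    (ex_up 0.465 (by norm_num) (by norm_num) (by norm_num) (by norm_num)) (ex_lp 0.453 (by norm_num) (by norm_num) (by norm_num)) (by norm_num) (by norm_num) (by norm_num) (by norm_num) (by norm_num) (by norm_num)
    (by norm_num) (by norm_num) (by norm_num) (by norm_num) (by norm_num) (by norm_num) (by norm_num) (by norm_num) (by norm_num) (by norm_num) (by norm_num)
    (by norm_num) (by norm_num) (by norm_num) (by norm_num)

private theorem yA8 {κ t : ℝ} (h : DomR κ t) (hk1 : 1.2 ≤ κ) (hk2 : κ ≤ 1.25) (ht1 : 1.222 ≤ t + κ) (ht2 : t + κ ≤ 1.245) :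
    0.45 ≤ sy κ t ∧ sy κ t ≤ 0.466 := by
  have hy1 : 0.45 ≤ sy κ t := syR_ge h 1.2 1.25 1.222 0.45 1.56831 1.56832 0.56459 0.58813 hk1 hk2 (by linarith) (by norm_num) (by norm_num)
    (expn_ge (by norm_num) (by norm_num)) (expn_le (by norm_num) (by norm_num) (by norm_num)) (by norm_num)
    (by norm_num) (by norm_num) (by norm_num) (by norm_num) (by norm_num) (by norm_num)
  have hy2 : sy κ t ≤ 0.466 := syR_le h 1.2 1.25 1.245 0.466 1.5936 0.5878 0.59409 0.61886 hk1 hk2 (by linarith) (by norm_num) (by norm_num)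
    (expn_ge (by norm_num) (by norm_num)) (by norm_num) (by norm_num) (Or.inr ((mul_le_mul_of_nonneg_left (expn_le (E := 1.59361) (by norm_num) (by norm_num) (by norm_num)) (by norm_num)).trans (by norm_num))) (by norm_num) (by norm_num) (by norm_num)
  exact ⟨hy1, hy2⟩

private theorem yB8 {κ t : ℝ} (h : DomR κ t) (hk1 : 1.2 ≤ κ) (hk2 : κ ≤ 1.25) (ht1 : -0.8724 ≤ t + κ) (ht2 : t + κ ≤ -0.84939) :
    (-0.453) ≤ sy κ t ∧ sy κ t ≤ (-0.43) := by
  have hy1 : -0.453 ≤ sy κ t := syL_ge h 1.2 1.25 0.8724 0.453 0.63571 0.63572 0.2279 0.23038 0.23999 hk1 hk2 (by linarith) (by norm_num) (by norm_num) (by norm_num)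
    (expm_ge (by norm_num) (by norm_num) (by norm_num) (by norm_num)) (expm_le (by norm_num) (by norm_num) (by norm_num)) (by norm_num)
    (by norm_num) (by norm_num) (by norm_num) (by norm_num) (by norm_num) (by norm_num)
  have hy2 : sy κ t ≤ -0.43 := syL_le h 1.2 1.25 0.84939 0.43 0.6505 0.65051 0.22377 0.2331 hk1 hk2 (by linarith) (by norm_num) (by norm_num) (by norm_num)
    (expm_ge (by norm_num) (by norm_num) (by norm_num) (by norm_num)) (expm_le (by norm_num) (by norm_num) (by norm_num)) (by norm_num)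
    (by norm_num) (by norm_num) (by norm_num) (by norm_num) (by norm_num) (by norm_num)
  exact ⟨hy1, hy2⟩

theorem pc8 {β r h t κ : ℝ} (hh : h = 2 * Real.pi / (3 : ℕ)) (hβ : 0 < β) (hr : 10 ≤ r) (hκ : κ = β * r)
    (hk1 : 1.2 ≤ κ) (hk2 : κ ≤ 1.25) (hT1 : 1.222 ≤ t + κ) (hT2 : t + κ ≤ 1.245) :
    Xf β r h t 0 ≠ 0 ∧ r * 0.0973 ≤ (Ld β r h t 1 - Ld β r h t 0).im ∧
      ‖(((-1 : ℤ) : ℂ) - 1) * Ld β r h t 0 - ((-1 : ℤ) : ℂ) * Ld β r h t 1‖ ≤ r * 5.36 := by
  obtain ⟨q1, q2, q3⟩ := b3_h hh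
  have hR0 := b3_R0 hβ hr hκ
  have hR := b3_R hβ hr hκ (by linarith)
  have hD1 : DomR κ t := b3_dom (by linarith) (by linarith) (Or.inl (by linarith))
  have hD0 : DomR κ (t - h) := b3_dom (by linarith) (by linarith) (Or.inl (by linarith))
  have y1 := yA8 hD1 hk1 hk2 (by linarith) (by linarith)
  have y0 := yB8 hD0 hk1 hk2 (by linarith) (by linarith)
  have j1 := T3_25_d1_3 hD1 hβ hk1 hk2 (by linarith) (by linarith) hR0 hR
  exact b3_piece 1.2 1.25 0.45 0.466 0.458 0.63254 0.63763 0.62751 0.7971 2.4853 2.5473 0.08 0.19 0.19 2.9321 1.4826 0 0 (-0.453) (-0.43) (-0.442) 1.55581 1.57303 1.9663 3.5419 0.1 0.285 0.17 3.4338 3.5877 0 0 0.0973 5.36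
    hβ hr hκ (by norm_num) hk1 hk2 hD1 hD0 j1 (j1 _ (by rw [sub_self, norm_zero]; norm_num))
    (T3_25_d0_3 hD0 hβ hk1 hk2 (by linarith) (by linarith) hR0 hR)
    (T3_25_p0 hD0 hβ hk1 hk2 (by linarith) (by linarith) hR0 hR)
    y1.1 y1.2 y0.1 y0.2 (by norm_num)
    (ex_um 0.45 (by norm_num) (by norm_num) (by norm_num) (by norm_num)) (ex_um 0.466 (by norm_num) (by norm_num) (by norm_num) (by norm_num)) (ex_lm 0.458 (by norm_num) (by norm_num) (by norm_num) (by norm_num) (by norm_num)) (by norm_num) (by norm_num) (by norm_num) (by norm_num) (by norm_num) (by norm_num) (by norm_num) (by norm_num)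
    (by norm_num) (by norm_num) (by norm_num) (by norm_num) (by norm_num) (by norm_num) (by norm_num) (by norm_num) (by norm_num) (by norm_num)
    (ex_up 0.453 (by norm_num) (by norm_num) (by norm_num) (by norm_num)) (ex_lp 0.442 (by norm_num) (by norm_num) (by norm_num)) (by norm_num) (by norm_num) (by norm_num) (by norm_num) (by norm_num) (by norm_num)
    (by norm_num) (by norm_num) (by norm_num) (by norm_num) (by norm_num) (by norm_num) (by norm_num) (by norm_num) (by norm_num) (by norm_num) (by norm_num)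
    (by norm_num) (by norm_num) (by norm_num) (by norm_num)

private theorem yA9 {κ t : ℝ} (h : DomR κ t) (hk1 : 1.2 ≤ κ) (hk2 : κ ≤ 1.25) (ht1 : 1.245 ≤ t + κ) (ht2 : t + κ ≤ 1.272) :
    0.456 ≤ sy κ t ∧ sy κ t ≤ 0.473 := by
  have hy1 : 0.456 ≤ sy κ t := syR_ge h 1.2 1.25 1.245 0.456 1.57774 1.57776 0.57555 0.59955 hk1 hk2 (by linarith) (by norm_num) (by norm_num)
    (expn_ge (by norm_num) (by norm_num)) (expn_le (by norm_num) (by norm_num) (by norm_num)) (by norm_num)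
    (by norm_num) (by norm_num) (by norm_num) (by norm_num) (by norm_num) (by norm_num)
  have hy2 : sy κ t ≤ 0.473 := syR_le h 1.2 1.25 1.272 0.473 1.6048 0.6009 0.60725 0.63257 hk1 hk2 (by linarith) (by norm_num) (by norm_num)
    (expn_ge (by norm_num) (by norm_num)) (by norm_num) (by norm_num) (Or.inr ((mul_le_mul_of_nonneg_left (expn_le (E := 1.60481) (by norm_num) (by norm_num) (by norm_num)) (by norm_num)).trans (by norm_num))) (by norm_num) (by norm_num) (by norm_num)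
  exact ⟨hy1, hy2⟩

private theorem yB9 {κ t : ℝ} (h : DomR κ t) (hk1 : 1.2 ≤ κ) (hk2 : κ ≤ 1.25) (ht1 : -0.8494 ≤ t + κ) (ht2 : t + κ ≤ -0.82239) :
    (-0.441) ≤ sy κ t ∧ sy κ t ≤ (-0.417) := by
  have hy1 : -0.441 ≤ sy κ t := syL_ge h 1.2 1.25 0.8494 0.441 0.64339 0.6434 0.2246 0.22698 0.23645 hk1 hk2 (by linarith) (by norm_num) (by norm_num) (by norm_num)
    (expm_ge (by norm_num) (by norm_num) (by norm_num) (by norm_num)) (expm_le (by norm_num) (by norm_num) (by norm_num)) (by norm_num)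
    (by norm_num) (by norm_num) (by norm_num) (by norm_num) (by norm_num) (by norm_num)
  have hy2 : sy κ t ≤ -0.417 := syL_le h 1.2 1.25 0.82239 0.417 0.65902 0.65903 0.21984 0.22902 hk1 hk2 (by linarith) (by norm_num) (by norm_num) (by norm_num)
    (expm_ge (by norm_num) (by norm_num) (by norm_num) (by norm_num)) (expm_le (by norm_num) (by norm_num) (by norm_num)) (by norm_num)
    (by norm_num) (by norm_num) (by norm_num) (by norm_num) (by norm_num) (by norm_num)
  exact ⟨hy1, hy2⟩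

theorem pc9 {β r h t κ : ℝ} (hh : h = 2 * Real.pi / (3 : ℕ)) (hβ : 0 < β) (hr : 10 ≤ r) (hκ : κ = β * r)
    (hk1 : 1.2 ≤ κ) (hk2 : κ ≤ 1.25) (hT1 : 1.245 ≤ t + κ) (hT2 : t + κ ≤ 1.272) :
    Xf β r h t 0 ≠ 0 ∧ r * 0.0973 ≤ (Ld β r h t 1 - Ld β r h t 0).im ∧
      ‖(((-1 : ℤ) : ℂ) - 1) * Ld β r h t 0 - ((-1 : ℤ) : ℂ) * Ld β r h t 1‖ ≤ r * 5.36 := by
  obtain ⟨q1, q2, q3⟩ := b3_h hh
  have hR0 := b3_R0 hβ hr hκ
  have hR := b3_R hβ hr hκ (by linarith)
  have hD1 : DomR κ t := b3_dom (by linarith) (by linarith) (Or.inl (by linarith))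
  have hD0 : DomR κ (t - h) := b3_dom (by linarith) (by linarith) (Or.inl (by linarith))
  have y1 := yA9 hD1 hk1 hk2 (by linarith) (by linarith)
  have y0 := yB9 hD0 hk1 hk2 (by linarith) (by linarith)
  have j1 := T3_25_d1_4 hD1 hβ hk1 hk2 (by linarith) (by linarith) hR0 hR
  exact b3_piece 1.2 1.25 0.456 0.473 0.465 0.62813 0.63382 0.62314 0.7923 2.4903 2.5528 0.05 0.205 0.205 5.1573 2.5894 0 0 (-0.441) (-0.417) (-0.429) 1.53572 1.55427 1.9429 3.4806 0.1 0.265 0.17 3.1928 3.3251 0 0 0.0973 5.36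
    hβ hr hκ (by norm_num) hk1 hk2 hD1 hD0 j1 (j1 _ (by rw [sub_self, norm_zero]; norm_num))
    (T3_25_d0_4 hD0 hβ hk1 hk2 (by linarith) (by linarith) hR0 hR)
    (T3_25_p0 hD0 hβ hk1 hk2 (by linarith) (by linarith) hR0 hR)
    y1.1 y1.2 y0.1 y0.2 (by norm_num)
    (ex_um 0.456 (by norm_num) (by norm_num) (by norm_num) (by norm_num)) (ex_um 0.473 (by norm_num) (by norm_num) (by norm_num) (by norm_num)) (ex_lm 0.465 (by norm_num) (by norm_num) (by norm_num) (by norm_num) (by norm_num)) (by norm_num) (by norm_num) (by norm_num) (by norm_num) (by norm_num) (by norm_num) (by norm_num) (by norm_num)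
    (by norm_num) (by norm_num) (by norm_num) (by norm_num) (by norm_num) (by norm_num) (by norm_num) (by norm_num) (by norm_num) (by norm_num)
    (ex_up 0.441 (by norm_num) (by norm_num) (by norm_num) (by norm_num)) (ex_lp 0.429 (by norm_num) (by norm_num) (by norm_num)) (by norm_num) (by norm_num) (by norm_num) (by norm_num) (by norm_num) (by norm_num)
    (by norm_num) (by norm_num) (by norm_num) (by norm_num) (by norm_num) (by norm_num) (by norm_num) (by norm_num) (by norm_num) (by norm_num) (by norm_num)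
    (by norm_num) (by norm_num) (by norm_num) (by norm_num)

private theorem yA10 {κ t : ℝ} (h : DomR κ t) (hk1 : 1.2 ≤ κ) (hk2 : κ ≤ 1.25) (ht1 : 1.272 ≤ t + κ) (ht2 : t + κ ≤ 1.3) :
    0.462 ≤ sy κ t ∧ sy κ t ≤ 0.48 := by
  have hy1 : 0.462 ≤ sy κ t := syR_ge h 1.2 1.25 1.272 0.462 1.58724 1.58725 0.58664 0.6111 hk1 hk2 (by linarith) (by norm_num) (by norm_num)
    (expn_ge (by norm_num) (by norm_num)) (expn_le (by norm_num) (by norm_num) (by norm_num)) (by norm_num)
    (by norm_num) (by norm_num) (by norm_num) (by norm_num) (by norm_num) (by norm_num)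
  have hy2 : sy κ t ≤ 0.48 := syR_le h 1.2 1.25 1.3 0.48 1.61607 0.6141 0.62057 0.64644 hk1 hk2 (by linarith) (by norm_num) (by norm_num)
    (expn_ge (by norm_num) (by norm_num)) (by norm_num) (by norm_num) (Or.inr ((mul_le_mul_of_nonneg_left (expn_le (E := 1.61608) (by norm_num) (by norm_num) (by norm_num)) (by norm_num)).trans (by norm_num))) (by norm_num) (by norm_num) (by norm_num)
  exact ⟨hy1, hy2⟩

private theorem yB10 {κ t : ℝ} (h : DomR κ t) (hk1 : 1.2 ≤ κ) (hk2 : κ ≤ 1.25) (ht1 : -0.8224 ≤ t + κ) (ht2 : t + κ ≤ -0.79439) :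
    (-0.427) ≤ sy κ t ∧ sy κ t ≤ (-0.403) := by
  have hy1 : -0.427 ≤ sy κ t := syL_ge h 1.2 1.25 0.8224 0.427 0.65246 0.65247 0.2221 0.22288 0.23218 hk1 hk2 (by linarith) (by norm_num) (by norm_num) (by norm_num)
    (expm_ge (by norm_num) (by norm_num) (by norm_num) (by norm_num)) (expm_le (by norm_num) (by norm_num) (by norm_num)) (by norm_num)
    (by norm_num) (by norm_num) (by norm_num) (by norm_num) (by norm_num) (by norm_num)
  have hy2 : sy κ t ≤ -0.403 := syL_le h 1.2 1.25 0.79439 0.403 0.66831 0.66832 0.21546 0.22445 hk1 hk2 (by linarith) (by norm_num) (by norm_num) (by norm_num)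
    (expm_ge (by norm_num) (by norm_num) (by norm_num) (by norm_num)) (expm_le (by norm_num) (by norm_num) (by norm_num)) (by norm_num)
    (by norm_num) (by norm_num) (by norm_num) (by norm_num) (by norm_num) (by norm_num)
  exact ⟨hy1, hy2⟩

theorem pc10 {β r h t κ : ℝ} (hh : h = 2 * Real.pi / (3 : ℕ)) (hβ : 0 < β) (hr : 10 ≤ r) (hκ : κ = β * r)
    (hk1 : 1.2 ≤ κ) (hk2 : κ ≤ 1.25) (hT1 : 1.272 ≤ t + κ) (hT2 : t + κ ≤ 1.3) :
    Xf β r h t 0 ≠ 0 ∧ r * 0.0973 ≤ (Ld β r h t 1 - Ld β r h t 0).im ∧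
      ‖(((-1 : ℤ) : ℂ) - 1) * Ld β r h t 0 - ((-1 : ℤ) : ℂ) * Ld β r h t 1‖ ≤ r * 5.36 := by
  obtain ⟨q1, q2, q3⟩ := b3_h hh
  have hR0 := b3_R0 hβ hr hκ
  have hR := b3_R hβ hr hκ (by linarith)
  have hD1 : DomR κ t := b3_dom (by linarith) (by linarith) (Or.inl (by linarith))
  have hD0 : DomR κ (t - h) := b3_dom (by linarith) (by linarith) (Or.inl (by linarith))
  have y1 := yA10 hD1 hk1 hk2 (by linarith) (by linarith)
  have y0 := yB10 hD0 hk1 hk2 (by linarith) (by linarith)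
  have j1 := T3_25_d1_4 hD1 hβ hk1 hk2 (by linarith) (by linarith) hR0 hR
  exact b3_piece 1.2 1.25 0.462 0.48 0.471 0.62437 0.63003 0.61879 0.7876 2.4954 2.5583 0.05 0.205 0.205 5.1573 2.5714 0 0 (-0.427) (-0.403) (-0.415) 1.51437 1.53266 1.9159 3.4171 0.1 0.265 0.17 3.1928 3.3092 0 0 0.0973 5.36
    hβ hr hκ (by norm_num) hk1 hk2 hD1 hD0 j1 (j1 _ (by rw [sub_self, norm_zero]; norm_num))
    (T3_25_d0_4 hD0 hβ hk1 hk2 (by linarith) (by linarith) hR0 hR)
    (T3_25_p0 hD0 hβ hk1 hk2 (by linarith) (by linarith) hR0 hR)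
    y1.1 y1.2 y0.1 y0.2 (by norm_num)
    (ex_um 0.462 (by norm_num) (by norm_num) (by norm_num) (by norm_num)) (ex_um 0.48 (by norm_num) (by norm_num) (by norm_num) (by norm_num)) (ex_lm 0.471 (by norm_num) (by norm_num) (by norm_num) (by norm_num) (by norm_num)) (by norm_num) (by norm_num) (by norm_num) (by norm_num) (by norm_num) (by norm_num) (by norm_num) (by norm_num)
    (by norm_num) (by norm_num) (by norm_num) (by norm_num) (by norm_num) (by norm_num) (by norm_num) (by norm_num) (by norm_num) (by norm_num)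
    (ex_up 0.427 (by norm_num) (by norm_num) (by norm_num) (by norm_num)) (ex_lp 0.415 (by norm_num) (by norm_num) (by norm_num)) (by norm_num) (by norm_num) (by norm_num) (by norm_num) (by norm_num) (by norm_num)
    (by norm_num) (by norm_num) (by norm_num) (by norm_num) (by norm_num) (by norm_num) (by norm_num) (by norm_num) (by norm_num) (by norm_num) (by norm_num)
    (by norm_num) (by norm_num) (by norm_num) (by norm_num)

private theorem yA11 {κ t : ℝ} (h : DomR κ t) (hk1 : 1.2 ≤ κ) (hk2 : κ ≤ 1.25) (ht1 : 1.3 ≤ t + κ) (ht2 : t + κ ≤ 1.327) :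
    0.468 ≤ sy κ t ∧ sy κ t ≤ 0.487 := by
  have hy1 : 0.468 ≤ sy κ t := syR_ge h 1.2 1.25 1.3 0.468 1.59679 1.5968 0.59783 0.62276 hk1 hk2 (by linarith) (by norm_num) (by norm_num)
    (expn_ge (by norm_num) (by norm_num)) (expn_le (by norm_num) (by norm_num) (by norm_num)) (by norm_num)
    (by norm_num) (by norm_num) (by norm_num) (by norm_num) (by norm_num) (by norm_num)
  have hy2 : sy κ t ≤ 0.487 := syR_le h 1.2 1.25 1.327 0.487 1.62742 0.6274 0.63404 0.66047 hk1 hk2 (by linarith) (by norm_num) (by norm_num)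
    (expn_ge (by norm_num) (by norm_num)) (by norm_num) (by norm_num) (Or.inr ((mul_le_mul_of_nonneg_left (expn_le (E := 1.62743) (by norm_num) (by norm_num) (by norm_num)) (by norm_num)).trans (by norm_num))) (by norm_num) (by norm_num) (by norm_num)
  exact ⟨hy1, hy2⟩

private theorem yB11 {κ t : ℝ} (h : DomR κ t) (hk1 : 1.2 ≤ κ) (hk2 : κ ≤ 1.25) (ht1 : -0.7944 ≤ t + κ) (ht2 : t + κ ≤ -0.76739) :
    (-0.413) ≤ sy κ t ∧ sy κ t ≤ (-0.389) := by
  have hy1 : -0.413 ≤ sy κ t := syL_ge h 1.2 1.25 0.7944 0.413 0.66166 0.66167 0.2163 0.21861 0.22773 hk1 hk2 (by linarith) (by norm_num) (by norm_num) (by norm_num)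
    (expm_ge (by norm_num) (by norm_num) (by norm_num) (by norm_num)) (expm_le (by norm_num) (by norm_num) (by norm_num)) (by norm_num)
    (by norm_num) (by norm_num) (by norm_num) (by norm_num) (by norm_num) (by norm_num)
  have hy2 : sy κ t ≤ -0.389 := syL_le h 1.2 1.25 0.76739 0.389 0.67773 0.67774 0.2109 0.21971 hk1 hk2 (by linarith) (by norm_num) (by norm_num) (by norm_num)
    (expm_ge (by norm_num) (by norm_num) (by norm_num) (by norm_num)) (expm_le (by norm_num) (by norm_num) (by norm_num)) (by norm_num)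
    (by norm_num) (by norm_num) (by norm_num) (by norm_num) (by norm_num) (by norm_num)
  exact ⟨hy1, hy2⟩

theorem pc11 {β r h t κ : ℝ} (hh : h = 2 * Real.pi / (3 : ℕ)) (hβ : 0 < β) (hr : 10 ≤ r) (hκ : κ = β * r)
    (hk1 : 1.2 ≤ κ) (hk2 : κ ≤ 1.25) (hT1 : 1.3 ≤ t + κ) (hT2 : t + κ ≤ 1.327) :
    Xf β r h t 0 ≠ 0 ∧ r * 0.0973 ≤ (Ld β r h t 1 - Ld β r h t 0).im ∧
      ‖(((-1 : ℤ) : ℂ) - 1) * Ld β r h t 0 - ((-1 : ℤ) : ℂ) * Ld β r h t 1‖ ≤ r * 5.36 := by
  obtain ⟨q1, q2, q3⟩ := b3_h hh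
  have hR0 := b3_R0 hβ hr hκ
  have hR := b3_R hβ hr hκ (by linarith)
  have hD1 : DomR κ t := b3_dom (by linarith) (by linarith) (Or.inl (by linarith))
  have hD0 : DomR κ (t - h) := b3_dom (by linarith) (by linarith) (Or.inl (by linarith))
  have y1 := yA11 hD1 hk1 hk2 (by linarith) (by linarith)
  have y0 := yB11 hD0 hk1 hk2 (by linarith) (by linarith)
  have j1 := T3_25_d1_4 hD1 hβ hk1 hk2 (by linarith) (by linarith) hR0 hR
  exact b3_piece 1.2 1.25 0.468 0.487 0.477 0.62064 0.62626 0.61447 0.7829 2.5006 2.564 0.05 0.205 0.205 5.1573 2.5534 0 0 (-0.413) (-0.389) (-0.401) 1.49331 1.51135 1.8892 3.356 0.1 0.265 0.17 3.1928 3.2926 0 0 0.0973 5.36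
    hβ hr hκ (by norm_num) hk1 hk2 hD1 hD0 j1 (j1 _ (by rw [sub_self, norm_zero]; norm_num))
    (T3_25_d0_4 hD0 hβ hk1 hk2 (by linarith) (by linarith) hR0 hR)
    (T3_25_p0 hD0 hβ hk1 hk2 (by linarith) (by linarith) hR0 hR)
    y1.1 y1.2 y0.1 y0.2 (by norm_num)
    (ex_um 0.468 (by norm_num) (by norm_num) (by norm_num) (by norm_num)) (ex_um 0.487 (by norm_num) (by norm_num) (by norm_num) (by norm_num)) (ex_lm 0.477 (by norm_num) (by norm_num) (by norm_num) (by norm_num) (by norm_num)) (by norm_num) (by norm_num) (by norm_num) (by norm_num) (by norm_num) (by norm_num) (by norm_num) (by norm_num)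
    (by norm_num) (by norm_num) (by norm_num) (by norm_num) (by norm_num) (by norm_num) (by norm_num) (by norm_num) (by norm_num) (by norm_num)
    (ex_up 0.413 (by norm_num) (by norm_num) (by norm_num) (by norm_num)) (ex_lp 0.401 (by norm_num) (by norm_num) (by norm_num)) (by norm_num) (by norm_num) (by norm_num) (by norm_num) (by norm_num) (by norm_num)
    (by norm_num) (by norm_num) (by norm_num) (by norm_num) (by norm_num) (by norm_num) (by norm_num) (by norm_num) (by norm_num) (by norm_num) (by norm_num)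
    (by norm_num) (by norm_num) (by norm_num) (by norm_num)

private theorem yA12 {κ t : ℝ} (h : DomR κ t) (hk1 : 1.2 ≤ κ) (hk2 : κ ≤ 1.25) (ht1 : 1.327 ≤ t + κ) (ht2 : t + κ ≤ 1.355) :
    0.475 ≤ sy κ t ∧ sy κ t ≤ 0.494 := by
  have hy1 : 0.475 ≤ sy κ t := syR_ge h 1.2 1.25 1.327 0.475 1.60801 1.60802 0.61104 0.63651 hk1 hk2 (by linarith) (by norm_num) (by norm_num)
    (expn_ge (by norm_num) (by norm_num)) (expn_le (by norm_num) (by norm_num) (by norm_num)) (by norm_num)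
    (by norm_num) (by norm_num) (by norm_num) (by norm_num) (by norm_num) (by norm_num)
  have hy2 : sy κ t ≤ 0.494 := syR_le h 1.2 1.25 1.355 0.494 1.63885 0.6409 0.64767 0.67467 hk1 hk2 (by linarith) (by norm_num) (by norm_num)
    (expn_ge (by norm_num) (by norm_num)) (by norm_num) (by norm_num) (Or.inr ((mul_le_mul_of_nonneg_left (expn_le (E := 1.63886) (by norm_num) (by norm_num) (by norm_num)) (by norm_num)).trans (by norm_num))) (by norm_num) (by norm_num) (by norm_num)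
  exact ⟨hy1, hy2⟩

private theorem yB12 {κ t : ℝ} (h : DomR κ t) (hk1 : 1.2 ≤ κ) (hk2 : κ ≤ 1.25) (ht1 : -0.7674 ≤ t + κ) (ht2 : t + κ ≤ -0.73939) :
    (-0.399) ≤ sy κ t ∧ sy κ t ≤ (-0.375) := by
  have hy1 : -0.399 ≤ sy κ t := syL_ge h 1.2 1.25 0.7674 0.399 0.67099 0.671 0.2119 0.21418 0.22311 hk1 hk2 (by linarith) (by norm_num) (by norm_num) (by norm_num)
    (expm_ge (by norm_num) (by norm_num) (by norm_num) (by norm_num)) (expm_le (by norm_num) (by norm_num) (by norm_num)) (by norm_num)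
    (by norm_num) (by norm_num) (by norm_num) (by norm_num) (by norm_num) (by norm_num)
  have hy2 : sy κ t ≤ -0.375 := syL_le h 1.2 1.25 0.73939 0.375 0.68728 0.68729 0.20618 0.21478 hk1 hk2 (by linarith) (by norm_num) (by norm_num) (by norm_num)
    (expm_ge (by norm_num) (by norm_num) (by norm_num) (by norm_num)) (expm_le (by norm_num) (by norm_num) (by norm_num)) (by norm_num)
    (by norm_num) (by norm_num) (by norm_num) (by norm_num) (by norm_num) (by norm_num)
  exact ⟨hy1, hy2⟩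

theorem pc12 {β r h t κ : ℝ} (hh : h = 2 * Real.pi / (3 : ℕ)) (hβ : 0 < β) (hr : 10 ≤ r) (hκ : κ = β * r)
    (hk1 : 1.2 ≤ κ) (hk2 : κ ≤ 1.25) (hT1 : 1.327 ≤ t + κ) (hT2 : t + κ ≤ 1.355) :
    Xf β r h t 0 ≠ 0 ∧ r * 0.0973 ≤ (Ld β r h t 1 - Ld β r h t 0).im ∧
      ‖(((-1 : ℤ) : ℂ) - 1) * Ld β r h t 0 - ((-1 : ℤ) : ℂ) * Ld β r h t 1‖ ≤ r * 5.36 := by
  obtain ⟨q1, q2, q3⟩ := b3_h hh
  have hR0 := b3_R0 hβ hr hκ
  have hR := b3_R hβ hr hκ (by linarith)
  have hD1 : DomR κ t := b3_dom (by linarith) (by linarith) (Or.inl (by linarith))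
  have hD0 : DomR κ (t - h) := b3_dom (by linarith) (by linarith) (Or.inl (by linarith))
  have y1 := yA12 hD1 hk1 hk2 (by linarith) (by linarith)
  have y0 := yB12 hD0 hk1 hk2 (by linarith) (by linarith)
  have j1 := T3_25_d1_4 hD1 hβ hk1 hk2 (by linarith) (by linarith) hR0 hR
  exact b3_piece 1.2 1.25 0.475 0.494 0.484 0.61631 0.62189 0.61019 0.7774 2.5068 2.5698 0.05 0.205 0.205 5.1573 2.5323 0 0 (-0.399) (-0.375) (-0.387) 1.47255 1.49034 1.863 3.2975 0.1 0.265 0.17 3.1928 3.2757 0 0 0.0973 5.36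
    hβ hr hκ (by norm_num) hk1 hk2 hD1 hD0 j1 (j1 _ (by rw [sub_self, norm_zero]; norm_num))
    (T3_25_d0_4 hD0 hβ hk1 hk2 (by linarith) (by linarith) hR0 hR)
    (T3_25_p0 hD0 hβ hk1 hk2 (by linarith) (by linarith) hR0 hR)
    y1.1 y1.2 y0.1 y0.2 (by norm_num)
    (ex_um 0.475 (by norm_num) (by norm_num) (by norm_num) (by norm_num)) (ex_um 0.494 (by norm_num) (by norm_num) (by norm_num) (by norm_num)) (ex_lm 0.484 (by norm_num) (by norm_num) (by norm_num) (by norm_num) (by norm_num)) (by norm_num) (by norm_num) (by norm_num) (by norm_num) (by norm_num) (by norm_num) (by norm_num) (by norm_num)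
    (by norm_num) (by norm_num) (by norm_num) (by norm_num) (by norm_num) (by norm_num) (by norm_num) (by norm_num) (by norm_num) (by norm_num)
    (ex_up 0.399 (by norm_num) (by norm_num) (by norm_num) (by norm_num)) (ex_lp 0.387 (by norm_num) (by norm_num) (by norm_num)) (by norm_num) (by norm_num) (by norm_num) (by norm_num) (by norm_num) (by norm_num)
    (by norm_num) (by norm_num) (by norm_num) (by norm_num) (by norm_num) (by norm_num) (by norm_num) (by norm_num) (by norm_num) (by norm_num) (by norm_num)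
    (by norm_num) (by norm_num) (by norm_num) (by norm_num)

private theorem yA13 {κ t : ℝ} (h : DomR κ t) (hk1 : 1.2 ≤ κ) (hk2 : κ ≤ 1.25) (ht1 : 1.355 ≤ t + κ) (ht2 : t + κ ≤ 1.382) :
    0.481 ≤ sy κ t ∧ sy κ t ≤ 0.501 := by
  have hy1 : 0.481 ≤ sy κ t := syR_ge h 1.2 1.25 1.355 0.481 1.61769 1.6177 0.62248 0.64843 hk1 hk2 (by linarith) (by norm_num) (by norm_num)
    (expn_ge (by norm_num) (by norm_num)) (expn_le (by norm_num) (by norm_num) (by norm_num)) (by norm_num)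
    (by norm_num) (by norm_num) (by norm_num) (by norm_num) (by norm_num) (by norm_num)
  have hy2 : sy κ t ≤ 0.501 := syR_le h 1.2 1.25 1.382 0.501 1.65036 0.6545 0.66146 0.68904 hk1 hk2 (by linarith) (by norm_num) (by norm_num)
    (expn_ge (by norm_num) (by norm_num)) (by norm_num) (by norm_num) (Or.inr ((mul_le_mul_of_nonneg_left (expn_le (E := 1.65038) (by norm_num) (by norm_num) (by norm_num)) (by norm_num)).trans (by norm_num))) (by norm_num) (by norm_num) (by norm_num)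
  exact ⟨hy1, hy2⟩

private theorem yB13 {κ t : ℝ} (h : DomR κ t) (hk1 : 1.2 ≤ κ) (hk2 : κ ≤ 1.25) (ht1 : -0.7394 ≤ t + κ) (ht2 : t + κ ≤ -0.71239) :
    (-0.385) ≤ sy κ t ∧ sy κ t ≤ (-0.362) := by
  have hy1 : -0.385 ≤ sy κ t := syL_ge h 1.2 1.25 0.7394 0.385 0.68045 0.68046 0.2073 0.20957 0.21832 hk1 hk2 (by linarith) (by norm_num) (by norm_num) (by norm_num)
    (expm_ge (by norm_num) (by norm_num) (by norm_num) (by norm_num)) (expm_le (by norm_num) (by norm_num) (by norm_num)) (by norm_num)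
    (by norm_num) (by norm_num) (by norm_num) (by norm_num) (by norm_num) (by norm_num)
  have hy2 : sy κ t ≤ -0.362 := syL_le h 1.2 1.25 0.71239 0.362 0.69628 0.69629 0.20164 0.21005 hk1 hk2 (by linarith) (by norm_num) (by norm_num) (by norm_num)
    (expm_ge (by norm_num) (by norm_num) (by norm_num) (by norm_num)) (expm_le (by norm_num) (by norm_num) (by norm_num)) (by norm_num)
    (by norm_num) (by norm_num) (by norm_num) (by norm_num) (by norm_num) (by norm_num)
  exact ⟨hy1, hy2⟩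

theorem pc13 {β r h t κ : ℝ} (hh : h = 2 * Real.pi / (3 : ℕ)) (hβ : 0 < β) (hr : 10 ≤ r) (hκ : κ = β * r)
    (hk1 : 1.2 ≤ κ) (hk2 : κ ≤ 1.25) (hT1 : 1.355 ≤ t + κ) (hT2 : t + κ ≤ 1.382) :
    Xf β r h t 0 ≠ 0 ∧ r * 0.0973 ≤ (Ld β r h t 1 - Ld β r h t 0).im ∧
      ‖(((-1 : ℤ) : ℂ) - 1) * Ld β r h t 0 - ((-1 : ℤ) : ℂ) * Ld β r h t 1‖ ≤ r * 5.36 := by
  obtain ⟨q1, q2, q3⟩ := b3_h hh
  have hR0 := b3_R0 hβ hr hκ
  have hR := b3_R hβ hr hκ (by linarith)
  have hD1 : DomR κ t := b3_dom (by linarith) (by linarith) (Or.inl (by linarith))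
  have hD0 : DomR κ (t - h) := b3_dom (by linarith) (by linarith) (Or.inl (by linarith))
  have y1 := yA13 hD1 hk1 hk2 (by linarith) (by linarith)
  have y0 := yB13 hD0 hk1 hk2 (by linarith) (by linarith)
  have j1 := T3_25_d1_4 hD1 hβ hk1 hk2 (by linarith) (by linarith) hR0 hR
  exact b3_piece 1.2 1.25 0.481 0.501 0.491 0.61201 0.61817 0.60593 0.7728 2.5121 2.5757 0.05 0.205 0.205 5.1573 2.5147 0 0 (-0.385) (-0.362) (-0.373) 1.45208 1.46962 1.8371 3.2454 0.1 0.265 0.17 3.1928 3.2559 0 0 0.0973 5.36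
    hβ hr hκ (by norm_num) hk1 hk2 hD1 hD0 j1 (j1 _ (by rw [sub_self, norm_zero]; norm_num))
    (T3_25_d0_4 hD0 hβ hk1 hk2 (by linarith) (by linarith) hR0 hR)
    (T3_25_p0 hD0 hβ hk1 hk2 (by linarith) (by linarith) hR0 hR)
    y1.1 y1.2 y0.1 y0.2 (by norm_num)
    (ex_um 0.481 (by norm_num) (by norm_num) (by norm_num) (by norm_num)) (ex_um 0.501 (by norm_num) (by norm_num) (by norm_num) (by norm_num)) (ex_lm 0.491 (by norm_num) (by norm_num) (by norm_num) (by norm_num) (by norm_num)) (by norm_num) (by norm_num) (by norm_num) (by norm_num) (by norm_num) (by norm_num) (by norm_num) (by norm_num)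
    (by norm_num) (by norm_num) (by norm_num) (by norm_num) (by norm_num) (by norm_num) (by norm_num) (by norm_num) (by norm_num) (by norm_num)
    (ex_up 0.385 (by norm_num) (by norm_num) (by norm_num) (by norm_num)) (ex_lp 0.373 (by norm_num) (by norm_num) (by norm_num)) (by norm_num) (by norm_num) (by norm_num) (by norm_num) (by norm_num) (by norm_num)
    (by norm_num) (by norm_num) (by norm_num) (by norm_num) (by norm_num) (by norm_num) (by norm_num) (by norm_num) (by norm_num) (by norm_num) (by norm_num)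
    (by norm_num) (by norm_num) (by norm_num) (by norm_num)

theorem innS {β r h t κ : ℝ} (hh : h = 2 * Real.pi / (3 : ℕ)) (hβ : 0 < β) (hr : 10 ≤ r) (hκ : κ = β * r)
    (hk1 : 1.2 ≤ κ) (hk2 : κ ≤ 1.25) (hT1 : 1.045 ≤ t + κ) (hT2 : t + κ ≤ 1.382) :
    Xf β r h t 0 ≠ 0 ∧ r * 0.0973 ≤ (Ld β r h t 1 - Ld β r h t 0).im ∧
      ‖(((-1 : ℤ) : ℂ) - 1) * Ld β r h t 0 - ((-1 : ℤ) : ℂ) * Ld β r h t 1‖ ≤ r * 5.36 := by
  rcases le_total (t + κ) 1.065 with f0 | g0
  · exact pc0 hh hβ hr hκ hk1 hk2 hT1 f0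
  rcases le_total (t + κ) 1.085 with f1 | g1
  · exact pc1 hh hβ hr hκ hk1 hk2 g0 f1
  rcases le_total (t + κ) 1.105 with f2 | g2
  · exact pc2 hh hβ hr hκ hk1 hk2 g1 f2
  rcases le_total (t + κ) 1.125 with f3 | g3
  · exact pc3 hh hβ hr hκ hk1 hk2 g2 f3
  rcases le_total (t + κ) 1.15 with f4 | g4
  · exact pc4 hh hβ hr hκ hk1 hk2 g3 f4
  rcases le_total (t + κ) 1.175 with f5 | g5
  · exact pc5 hh hβ hr hκ hk1 hk2 g4 f5
  rcases le_total (t + κ) 1.198 with f6 | g6
  · exact pc6 hh hβ hr hκ hk1 hk2 g5 f6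
  rcases le_total (t + κ) 1.222 with f7 | g7
  · exact pc7 hh hβ hr hκ hk1 hk2 g6 f7
  rcases le_total (t + κ) 1.245 with f8 | g8
  · exact pc8 hh hβ hr hκ hk1 hk2 g7 f8
  rcases le_total (t + κ) 1.272 with f9 | g9
  · exact pc9 hh hβ hr hκ hk1 hk2 g8 f9
  rcases le_total (t + κ) 1.3 with f10 | g10
  · exact pc10 hh hβ hr hκ hk1 hk2 g9 f10
  rcases le_total (t + κ) 1.327 with f11 | g11
  · exact pc11 hh hβ hr hκ hk1 hk2 g10 f11
  rcases le_total (t + κ) 1.355 with f12 | g12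
  · exact pc12 hh hβ hr hκ hk1 hk2 g11 f12
  exact pc13 hh hβ hr hκ hk1 hk2 g12 hT2

theorem circ {p : ℤ} (hp : IsCoprime (3 : ℤ) p) {β r : ℝ} (hβ : 0 < β) (hr : 10 ≤ r) (hk1 : 1.2 ≤ β * r)
    (hk2 : β * r ≤ 1.25) : Circ (2 * Real.pi * p / (3 : ℕ) + β) r := by
  obtain ⟨κ, hκ⟩ : ∃ κ, κ = β * r := ⟨_, rfl⟩
  rw [← hκ] at hk1 hk2
  refine circ3 hp hr (h := 2 * Real.pi / (3 : ℕ)) (κ := κ) rfl 1.045 1.382 1.0071 0.0973 0.00204 0.00395 5.36 (by norm_num) (by norm_num) (by norm_num)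
    (by norm_num) (by norm_num) ?_ ?_ ?_ ?_ ?_ (by norm_num) (by norm_num)
  · intro t h1 h2
    exact (innS rfl hβ hr hκ hk1 hk2 h1 h2).1
  · intro t h1 h2
    exact (innE rfl hβ hr hκ hk1 hk2 h1 h2).1
  · intro t h1 h2
    exact (innE rfl hβ hr hκ hk1 hk2 h1 h2).2
  · intro t h1 h2
    exact (innS rfl hβ hr hκ hk1 hk2 h1 h2).2
  · intro t h1 h2 h3
    rcases h3 with h3 | h3
    · exact left rfl hβ hr hκ hk1 hk2 h1 h3
    · rcases le_total (t + κ) 1.7 with g | g
      · exact right0 rfl hβ hr hκ hk1 hk2 h3 g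
      · exact right1 rfl hβ hr hκ hk1 hk2 g h2

end B3_25

end Sok
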