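import Pool.Agent.Lib.MP_816dec_an.R1b3D
import Pool.Agent.Lib.MP_816dec_an.R1b3J26

/-!
MP_816dec_an (A3, row R1, b = 3): the cell `1.25 ≤ κ ≤ 1.3`.
-/

set_option autoImplicit false
set_option maxHeartbeats 4000000
set_option linter.unusedVariables false

open Complex Set

namespace Sok

namespace B3_26

private theorem yL {κ t : ℝ} (h : DomR κ t) (hk1 : 1.25 ≤ κ) (hk2 : κ ≤ 1.3) (ht1 : 0 ≤ t + κ) (ht2 : t + κ ≤ 1.035) :
    0 ≤ sy κ t ∧ sy κ t ≤ 0.411 := by
  have hy1 : 0 ≤ sy κ t := sy_nonneg h (by linarith)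
  have hy2 : sy κ t ≤ 0.411 := syR_le h 1.25 1.3 1.035 0.411 1.50832 0.472 0.47686 0.49594 hk1 hk2 (by linarith) (by norm_num) (by norm_num)
    (expn_ge (by norm_num) (by norm_num)) (by norm_num) (by norm_num) (Or.inr ((mul_le_mul_of_nonneg_left (expn_le (E := 1.50833) (by norm_num) (by norm_num) (by norm_num)) (by norm_num)).trans (by norm_num))) (by norm_num) (by norm_num) (by norm_num)
  exact ⟨hy1, hy2⟩

theorem left {β r h t κ : ℝ} (hh : h = 2 * Real.pi / (3 : ℕ)) (hβ : 0 < β) (hr : 10 ≤ r) (hκ : κ = β * r)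
    (hk1 : 1.25 ≤ κ) (hk2 : κ ≤ 1.3) (hT1 : 0 ≤ t + κ) (hT2 : t + κ ≤ 1.035) :
    ‖Xf β r h t (-1)‖ < |‖Xf β r h t 1‖ - ‖Xf β r h t 0‖| := by
  obtain ⟨q1, q2, q3⟩ := b3_h hh
  have hR0 := b3_R0 hβ hr hκ
  have hR := b3_R hβ hr hκ (by linarith)
  have hD1 : DomR κ t := b3_dom (by linarith) (by linarith) (Or.inl (by linarith))
  have hy := yL hD1 hk1 hk2 (by linarith) (by linarith)
  have hY : 0.7105 * Real.exp (r * 0.81617) ≤ ‖Xf β r h t 1‖ :=
    b3_lo hβ hr hκ (k := 1) (t' := t) (by push_cast; ring) hD1 0.09 2.69 0.7105 0.81617 (by norm_num)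
      (T3_26_p1 hD1 hβ hk1 hk2 (by linarith) (by linarith) hR0 hR)
      (v5_Dup hD1 1.3 0 0.411 1 0.66299 2.69 hk2 hy.1 hy.2 (ex_up 0 (by norm_num) (by norm_num) (by norm_num) (by norm_num)) (ex_um 0.411 (by norm_num) (by norm_num) (by norm_num) (by norm_num)) (by norm_num) (by norm_num) (by norm_num)) (by norm_num) (by norm_num)
      (b3_Vlo hD1 1.25 1.3 0 1.035 0.6 (-0.51082) 0.535 0.86026 0.15053 0.81617 hk1 hk2 (by linarith) (by linarith) (by norm_num) (ex_lm 0.51082 (by norm_num) (by norm_num) (by norm_num) (by norm_num) (by norm_num)) (by norm_num) (by norm_num) (by norm_num) (by norm_num) (by norm_num) (by norm_num) (by norm_num) (by norm_num) (ex_um 0.15053 (by norm_num) (by norm_num) (by norm_num) (by norm_num)) (by norm_num))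
  have h0 : ‖Xf β r h t 0‖ ≤ 0.8992 * ‖Xf β r h t 1‖ :=
    b3_cmp 0.7454 0.02941 0.0004728 0.76617 0.898152 0.001016 0.8992 hr (b3_HU0 0.42 1.25 1.3 (-2.0944) (-1.05939) 1.2317 1.69046 1.72634 0.59156 0.57927 1.69045 0.8561 0.14385 0.68443 1.3176 0 0.05 0.000001 1.5262 0.78676 hβ hr hκ (by norm_num) hk1 hk2 (by norm_num) (by linarith) (by linarith) (by norm_num) (by norm_num) (ex_up 0.525 (by norm_num) (by norm_num) (by norm_num) (by norm_num)) (ex_up 0.546 (by norm_num) (by norm_num) (by norm_num) (by norm_num)) (ex_um 0.525 (by norm_num) (by norm_num) (by norm_num) (by norm_num)) (ex_um 0.546 (by norm_num) (by norm_num) (by norm_num) (by norm_num)) (by norm_num) (by norm_num) (ex_lp 0.525 (by norm_num) (by norm_num) (by norm_num)) (by norm_num) (by norm_num) (by norm_num) (by norm_num) (by norm_num) (by norm_num) (by norm_num) (by norm_num) (by norm_num) (by norm_num) (by norm_num) (by norm_num) (by norm_num) (by norm_num) (v5_hump 4.5376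 7.692 2.7735 0.0000003148 0.000001 hβ hr hκ hk1 hk2 (by norm_num) (tb := (-1.05939)) (by linarith) (by norm_num) (by norm_num) (by norm_num) (by norm_num) (by norm_num) (by norm_num) (by norm_num) (ex_un 14 0.99 (by norm_num) (by norm_num) (by norm_num) (by norm_num)) (by norm_num)) (by norm_num) (by norm_num)) hY (by norm_num) (by norm_num) (by norm_num) (by norm_num) (by norm_num) (ex_un 0 0.2941 (by norm_num) (by norm_num) (by norm_num) (by norm_num)) (by norm_num) (by norm_num) (by norm_num) (ex_un 7 0.6617 (by norm_num) (by norm_num) (by norm_num) (by norm_num)) (by norm_num) (by norm_num)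
  have h2 : ‖Xf β r h t (-1)‖ ≤ 0.0505 * ‖Xf β r h t 1‖ := by
    rcases le_total ((t + h) + κ) 2.62 with g0 | g0
    · exact b3_cmp 0.0169 0.40809 0.0002854 0.81617 0.048843 0.000083 0.0505 hr ((b3_Xm hh).trans_le (b3_HF 0.42 1.25 1.3 2.09439 2.62 1.28772 0.59156 0.57927 1.69046 1.72634 0.57926 1.7344 0.14385 2.36509 0.2007 0.08198 0.445 0.001706 2.0534 0.2064 0.40808 hβ hr hκ (by norm_num) hk1 hk2 (by norm_num) (by linarith) (by linarith) (by norm_num) (ex_um 0.525 (by norm_num) (by norm_num) (by norm_num) (by norm_num)) (ex_um 0.546 (by norm_num) (by norm_num) (by norm_num) (by norm_num)) (ex_up 0.525 (by norm_num) (by norm_num) (by norm_num) (by norm_num)) (ex_up 0.546 (by norm_num) (by norm_num) (by norm_num) (by norm_num)) (by norm_num) (by norm_num) (ex_lm 0.546 (by norm_num) (by norm_num) (by norm_num) (by norm_num) (by norm_num)) (by norm_num) (by norm_num) (by norm_num) (by norm_num) (by norm_num) (by norm_num) (by norm_num) (by norm_num)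 (by norm_num) (by norm_num) (by norm_num) (by norm_num) (ex_un 0 0.8198 (by norm_num) (by norm_num) (by norm_num) (by norm_num)) (v5_hump 0.8582 7.692 2.7735 0.001364 0.001706 hβ hr hκ hk1 hk2 (by norm_num) (tb := 2.62) (by linarith) (by norm_num) (by norm_num) (by norm_num) (by norm_num) (by norm_num) (by norm_num) (by norm_num) (ex_un 6 0.6012 (by norm_num) (by norm_num) (by norm_num) (by norm_num)) (by norm_num)) (by norm_num) (by norm_num) (by norm_num))) hY (by norm_num) (by norm_num) (by norm_num) (by norm_num) (by norm_num) (ex_un 4 0.0809 (by norm_num) (by norm_num) (by norm_num) (by norm_num)) (by norm_num) (by norm_num) (by norm_num) (ex_un 8 0.1617 (by norm_num) (by norm_num) (by norm_num) (by norm_num)) (by norm_num) (by norm_num)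
    exact b3_cmp 1 0 0.009496 0.46617 0 0.050465 0.0505 hr (b3_w (b3_UD 1.25 1.3 2.62 3.1294 0.3 0.35683 0.3 1.9685 3.7758 0.35 hh hβ hr hκ (by norm_num) hk1 hk2 (by linarith) (by linarith) (by norm_num) (by norm_num) (by norm_num) (by norm_num) (by norm_num) (by norm_num) (by norm_num) (by norm_num) (by norm_num) (by norm_num) (by norm_num) (by norm_num) (by norm_num))) hY (by norm_num) (by norm_num) (by norm_num) (by norm_num) (by norm_num) (by norm_num) (by norm_num) (by norm_num) (by norm_num) (ex_un 4 0.6617 (by norm_num) (by norm_num) (by norm_num) (by norm_num)) (by norm_num) (by norm_num)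
  exact b3_out1 0.8992 0.0505 hY (by norm_num) h0 h2 (by norm_num)

private theorem yM1 {κ t : ℝ} (h : DomR κ t) (hk1 : 1.25 ≤ κ) (hk2 : κ ≤ 1.3) (ht1 : 0 ≤ t + κ) (ht2 : t + κ ≤ 1.047) :
    0 ≤ sy κ t ∧ sy κ t ≤ 0.415 := by
  have hy1 : 0 ≤ sy κ t := sy_nonneg h (by linarith)
  have hy2 : sy κ t ≤ 0.415 := syR_le h 1.25 1.3 1.047 0.415 1.51437 0.4785 0.48343 0.50278 hk1 hk2 (by linarith) (by norm_num) (by norm_num)
    (expn_ge (by norm_num) (by norm_num)) (by norm_num) (by norm_num) (Or.inr ((mul_le_mul_of_nonneg_left (expn_le (E := 1.51438) (by norm_num) (by norm_num) (by norm_num)) (by norm_num)).trans (by norm_num))) (by norm_num) (by norm_num) (by norm_num)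
  exact ⟨hy1, hy2⟩

private theorem yM0 {κ t : ℝ} (h : DomR κ t) (hk1 : 1.25 ≤ κ) (hk2 : κ ≤ 1.3) (ht1 : -1.0594 ≤ t + κ) (ht2 : t + κ ≤ -1.04739) :
    (-0.531) ≤ sy κ t ∧ sy κ t ≤ (-0.512) := by
  have hy1 : -0.531 ≤ sy κ t := syL_ge h 1.25 1.3 1.0594 0.531 0.58801 0.58802 0.2377 0.24017 0.2498 hk1 hk2 (by linarith) (by norm_num) (by norm_num) (by norm_num)
    (expm_ge (by norm_num) (by norm_num) (by norm_num) (by norm_num)) (expm_le (by norm_num) (by norm_num) (by norm_num)) (by norm_num)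
    (by norm_num) (by norm_num) (by norm_num) (by norm_num) (by norm_num) (by norm_num)
  have hy2 : sy κ t ≤ -0.512 := syL_le h 1.25 1.3 1.04739 0.512 0.59929 0.5993 0.23602 0.24548 hk1 hk2 (by linarith) (by norm_num) (by norm_num) (by norm_num)
    (expm_ge (by norm_num) (by norm_num) (by norm_num) (by norm_num)) (expm_le (by norm_num) (by norm_num) (by norm_num)) (by norm_num)
    (by norm_num) (by norm_num) (by norm_num) (by norm_num) (by norm_num) (by norm_num)
  exact ⟨hy1, hy2⟩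

theorem middle {β r h t κ : ℝ} (hh : h = 2 * Real.pi / (3 : ℕ)) (hβ : 0 < β) (hr : 10 ≤ r) (hκ : κ = β * r)
    (hk1 : 1.25 ≤ κ) (hk2 : κ ≤ 1.3) (hT1 : 1.035 ≤ t + κ) (hT2 : t + κ ≤ 1.047) :
    ‖Xf β r h t (-1)‖ < |‖Xf β r h t 1‖ - ‖Xf β r h t 0‖| := by
  obtain ⟨q1, q2, q3⟩ := b3_h hh
  have hR0 := b3_R0 hβ hr hκ
  have hR := b3_R hβ hr hκ (by linarith)
  have hD1 : DomR κ t := b3_dom (by linarith) (by linarith) (Or.inl (by linarith))
  have hD0 : DomR κ (t - h) := b3_dom (by linarith) (by linarith) (Or.inl (by linarith))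
  have hy := yM1 hD1 hk1 hk2 (by linarith) (by linarith)
  have hy0 := yM0 hD0 hk1 hk2 (by linarith) (by linarith)
  have hY : 0.7105 * Real.exp (r * 0.81267) ≤ ‖Xf β r h t 1‖ :=
    b3_lo hβ hr hκ (k := 1) (t' := t) (by push_cast; ring) hD1 0.09 2.69 0.7105 0.81267 (by norm_num)
      (T3_26_p1 hD1 hβ hk1 hk2 (by linarith) (by linarith) hR0 hR)
      (v5_Dup hD1 1.3 0 0.415 1 0.66035 2.69 hk2 hy.1 hy.2 (ex_up 0 (by norm_num) (by norm_num) (by norm_num) (by norm_num)) (ex_um 0.415 (by norm_num) (by norm_num) (by norm_num) (by norm_num)) (by norm_num) (by norm_num) (by norm_num)) (by norm_num) (by norm_num)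
      (b3_Vlo hD1 1.25 1.3 0 1.047 0.59 (-0.52763) 0.5345 0.86052 0.15022 0.81267 hk1 hk2 (by linarith) (by linarith) (by norm_num) (ex_lm 0.52763 (by norm_num) (by norm_num) (by norm_num) (by norm_num) (by norm_num)) (by norm_num) (by norm_num) (by norm_num) (by norm_num) (by norm_num) (by norm_num) (by norm_num) (by norm_num) (ex_um 0.15022 (by norm_num) (by norm_num) (by norm_num) (by norm_num)) (by norm_num))
  have hU : ‖Xf β r h t 0‖ ≤ 0.8079 * Real.exp (r * 0.79086) :=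
    b3_up hβ hr hκ (k := 0) (t' := t - h) (by push_cast; ring) hD0 0.165 4.3257 0.8079 0.79086
      (T3_26_p0m hD0 hβ hk1 hk2 (by linarith) (by linarith) hR0 hR) (v5_Dlo hD0 1.25 (-0.531) (-0.512) (-0.521) 1.6837 4.3257 (by norm_num) hk1 hy0.1 hy0.2 (ex_lp 0.521 (by norm_num) (by norm_num) (by norm_num)) (by norm_num) (by norm_num) (by norm_num) (by norm_num)) (by norm_num) (by norm_num)
      (b3_VH hD0 0.39 1.25 1.3 1.19934 1.62825 1.66031 0.61417 0.60231 (-1.04739) 0.79086 (by norm_num) hk1 hk2 (by norm_num) (ex_up 0.4875 (by norm_num) (by norm_num) (by norm_num) (by norm_num)) (ex_up 0.507 (by norm_num) (by norm_num) (by norm_num) (by norm_num)) (ex_um 0.4875 (by norm_num) (by norm_num) (by norm_num) (by norm_num)) (ex_um 0.507 (by norm_num) (by norm_num) (by norm_num) (by norm_num)) (by norm_num) (by norm_num) (by norm_num) (by linarith) (by norm_num))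
  have h0 : ‖Xf β r h t 0‖ ≤ 0.9145 * ‖Xf β r h t 1‖ :=
    b3_cmp 1 0 0.8042 0.02181 0 0.914446 0.9145 hr (b3_w hU) hY (by norm_num) (by norm_num) (by norm_num) (by norm_num) (by norm_num) (by norm_num) (by norm_num) (by norm_num) (by norm_num) (ex_un 0 0.2181 (by norm_num) (by norm_num) (by norm_num) (by norm_num)) (by norm_num) (by norm_num)
  have h2 : ‖Xf β r h t (-1)‖ ≤ 0.0008 * ‖Xf β r h t 1‖ := by
    exact b3_cmp 1 0 0.0004892 0.76267 0 0.00071 0.0008 hr ((b3_Xm hh).trans_le (b3_U1 1.25 1.3 3.12939 3.1414 0.25859 0.14385 0.68443 0.2554 0.03053 1.3123 0.09405 1.0302 hβ hr hκ (by norm_num) hk1 hk2 (by linarith) (by linarith) (by norm_num) (by norm_num) (by norm_num) (by norm_num) (by norm_num) (by norm_num) (by norm_num) (by norm_num) (by norm_num) (by norm_num) (by norm_num) (by norm_num) (by norm_num) (ex_un 2 0.554 (by norm_num) (by norm_num) (by norm_num) (by norm_num)) (v5_hump 0.3368 7.692 2.7735 0.07522 0.09405 hβ hr hκ hk1 hk2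 (by norm_num) (tb := 3.1414) (by linarith) (by norm_num) (by norm_num) (by norm_num) (by norm_num) (by norm_num) (by norm_num) (by norm_num) (ex_un 2 0.5906 (by norm_num) (by norm_num) (by norm_num) (by norm_num)) (by norm_num)) (by norm_num))) hY (by norm_num) (by norm_num) (by norm_num) (by norm_num) (by norm_num) (by norm_num) (by norm_num) (by norm_num) (by norm_num) (ex_un 7 0.6267 (by norm_num) (by norm_num) (by norm_num) (by norm_num)) (by norm_num) (by norm_num)
  exact b3_out1 0.9145 0.0008 hY (by norm_num) h0 h2 (by norm_num)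

private theorem yR0 {κ t : ℝ} (h : DomR κ t) (hk1 : 1.25 ≤ κ) (hk2 : κ ≤ 1.3) (ht1 : -0.7124 ≤ t + κ) (ht2 : t + κ ≤ -0.39439) :
    (-0.363) ≤ sy κ t ∧ sy κ t ≤ (-0.196) := by
  have hy1 : -0.363 ≤ sy κ t := syL_ge h 1.25 1.3 0.7124 0.363 0.69558 0.69559 0.1922 0.19422 0.202 hk1 hk2 (by linarith) (by norm_num) (by norm_num) (by norm_num)
    (expm_ge (by norm_num) (by norm_num) (by norm_num) (by norm_num)) (expm_le (by norm_num) (by norm_num) (by norm_num)) (by norm_num)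
    (by norm_num) (by norm_num) (by norm_num) (by norm_num) (by norm_num) (by norm_num)
  have hy2 : sy κ t ≤ -0.196 := syL_le h 1.25 1.3 0.39439 0.196 0.82201 0.82202 0.12393 0.1289 hk1 hk2 (by linarith) (by norm_num) (by norm_num) (by norm_num)
    (expm_ge (by norm_num) (by norm_num) (by norm_num) (by norm_num)) (expm_le (by norm_num) (by norm_num) (by norm_num)) (by norm_num)
    (by norm_num) (by norm_num) (by norm_num) (by norm_num) (by norm_num) (by norm_num)
  exact ⟨hy1, hy2⟩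

theorem right0 {β r h t κ : ℝ} (hh : h = 2 * Real.pi / (3 : ℕ)) (hβ : 0 < β) (hr : 10 ≤ r) (hκ : κ = β * r)
    (hk1 : 1.25 ≤ κ) (hk2 : κ ≤ 1.3) (hT1 : 1.382 ≤ t + κ) (hT2 : t + κ ≤ 1.7) :
    ‖Xf β r h t (-1)‖ < |‖Xf β r h t 1‖ - ‖Xf β r h t 0‖| := by
  obtain ⟨q1, q2, q3⟩ := b3_h hh
  have hR0 := b3_R0 hβ hr hκ
  have hR := b3_R hβ hr hκ (by linarith)
  have hD0 : DomR κ (t - h) := b3_dom (by linarith) (by linarith) (Or.inl (by linarith))
  have hy := yR0 hD0 hk1 hk2 (by linarith) (by linarith)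
  have hY : 0.628 * Real.exp (r * 0.89715) ≤ ‖Xf β r h t 0‖ :=
    b3_lo hβ hr hκ (k := 0) (t' := t - h) (by push_cast; ring) hD0 0.125 3.767 0.628 0.89715 (by norm_num)
      (T3_26_p0R hD0 hβ hk1 hk2 (by linarith) (by linarith) hR0 hR)
      (v5_Dup hD0 1.3 (-0.363) (-0.196) 1.43764 1.21653 3.767 hk2 hy.1 hy.2 (ex_up 0.363 (by norm_num) (by norm_num) (by norm_num) (by norm_num)) (ex_up 0.196 (by norm_num) (by norm_num) (by norm_num) (by norm_num)) (by norm_num) (by norm_num) (by norm_num)) (by norm_num) (by norm_num)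
      (b3_Vlo hD0 1.25 1.3 (-0.7124) (-0.39439) 1.41 0.34359 0.1999 0.98008 0.02013 0.89715 hk1 hk2 (by linarith) (by linarith) (by norm_num) (ex_lp 0.34359 (by norm_num) (by norm_num) (by norm_num)) (by norm_num) (by norm_num) (by norm_num) (by norm_num) (by norm_num) (by norm_num) (by norm_num) (by norm_num) (ex_um 0.02013 (by norm_num) (by norm_num) (by norm_num) (by norm_num)) (by norm_num))
  have h1 : ‖Xf β r h t 1‖ ≤ 0.363 * ‖Xf β r h t 0‖ := by
    exact b3_cmp 0.1493 0.19166 0.0001293 0.89715 0.362909 0.000048 0.363 hr (b3_X1.trans_le (b3_HF 0.35 1.25 1.3 1.382 1.7 1.18919 0.64565 0.63445 1.54884 1.57618 0.63444 1.5059 0.14385 1.6527 1.1207 0.18441 0.16 0.000002 1.5265 0.2309 0.70549 hβ hr hκ (by norm_num) hk1 hk2 (by norm_num) (by linarith) (by linarith) (by norm_num) (ex_um 0.4375 (by norm_num) (by norm_num) (by norm_num) (by norm_num)) (ex_um 0.455 (by norm_num) (by norm_num) (by norm_num) (by norm_num)) (ex_up 0.4375 (by norm_num)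 (by norm_num) (by norm_num) (by norm_num)) (ex_up 0.455 (by norm_num) (by norm_num) (by norm_num) (by norm_num)) (by norm_num) (by norm_num) (ex_lm 0.455 (by norm_num) (by norm_num) (by norm_num) (by norm_num) (by norm_num)) (by norm_num) (by norm_num) (by norm_num) (by norm_num) (by norm_num) (by norm_num) (by norm_num) (by norm_num) (by norm_num) (by norm_num) (by norm_num) (by norm_num) (ex_un 1 0.8441 (by norm_num) (by norm_num) (by norm_num) (by norm_num)) (v5_hump 1.7782 7.692 2.7735 0.000001154 0.000002 hβ hr hκ hk1 hk2 (by norm_num) (tb := 1.7) (by linarith) (by norm_num) (by norm_num) (by norm_num) (by norm_num) (by norm_num) (by norm_num) (by norm_num) (ex_un 13 0.6779 (by norm_num) (by norm_num) (by norm_num) (by norm_num)) (by norm_num)) (by norm_num) (by norm_num) (by norm_num))) hY (by norm_num) (by norm_num) (by norm_num) (by norm_num) (by norm_num) (ex_un 1 0.9166 (by norm_num) (by norm_num) (by norm_num) (by norm_num)) (by norm_num)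 (by norm_num) (by norm_num) (ex_un 8 0.9715 (by norm_num) (by norm_num) (by norm_num) (by norm_num)) (by norm_num) (by norm_num)
  have h2 : ‖Xf β r h t (-1)‖ ≤ 0.0073 * ‖Xf β r h t 0‖ := by
    exact b3_cmp 1 0 0.002384 0.60392 0 0.007255 0.0073 hr (b3_w (b3_UD 1.25 1.3 3.47639 3.7944 0.005 0.35683 0.24323 0.9963 1.9111 0.29323 hh hβ hr hκ (by norm_num) hk1 hk2 (by linarith) (by linarith) (by norm_num) (by norm_num) (by norm_num) (by norm_num) (by norm_num) (by norm_num) (by norm_num) (by norm_num) (by norm_num) (by norm_num) (by norm_num) (by norm_num) (by norm_num))) hY (by norm_num) (by norm_num) (by norm_num) (by norm_num) (by norm_num) (by norm_num) (by norm_num) (by norm_num) (by norm_num) (ex_un 6 0.0392 (by norm_num) (by norm_num) (by norm_num) (by norm_num)) (by norm_num) (by norm_num)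
  exact b3_out0 0.363 0.0073 hY (by norm_num) h1 h2 (by norm_num)

private theorem yR1 {κ t : ℝ} (h : DomR κ t) (hk1 : 1.25 ≤ κ) (hk2 : κ ≤ 1.3) (ht1 : -0.3944 ≤ t + κ) (ht2 : t + κ ≤ 0.0001) :
    (-0.2) ≤ sy κ t ∧ sy κ t ≤ 0.005 := by
  have hy1 : -0.2 ≤ sy κ t := syL_ge h 1.25 1.3 0.3944 0.2 0.81873 0.81874 0.1246 0.12595 0.131 hk1 hk2 (by linarith) (by norm_num) (by norm_num) (by norm_num)
    (expm_ge (by norm_num) (by norm_num) (by norm_num) (by norm_num)) (expm_le (by norm_num) (by norm_num) (by norm_num)) (by norm_num)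
    (by norm_num) (by norm_num) (by norm_num) (by norm_num) (by norm_num) (by norm_num)
  have hy2 : sy κ t ≤ 0.005 := syR_le h 1.25 1.3 0.0001 0.005 1.00501 0.0038 0.00386 0.00403 hk1 hk2 (by linarith) (by norm_num) (by norm_num)
    (expn_ge (by norm_num) (by norm_num)) (by norm_num) (by norm_num) (Or.inr ((mul_le_mul_of_nonneg_left (expn_le (E := 1.00502) (by norm_num) (by norm_num) (by norm_num)) (by norm_num)).trans (by norm_num))) (by norm_num) (by norm_num) (by norm_num)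
  exact ⟨hy1, hy2⟩

theorem right1 {β r h t κ : ℝ} (hh : h = 2 * Real.pi / (3 : ℕ)) (hβ : 0 < β) (hr : 10 ≤ r) (hκ : κ = β * r)
    (hk1 : 1.25 ≤ κ) (hk2 : κ ≤ 1.3) (hT1 : 1.7 ≤ t + κ) (hT2 : t + κ ≤ h) :
    ‖Xf β r h t (-1)‖ < |‖Xf β r h t 1‖ - ‖Xf β r h t 0‖| := by
  obtain ⟨q1, q2, q3⟩ := b3_h hh
  have hR0 := b3_R0 hβ hr hκ
  have hR := b3_R hβ hr hκ (by linarith)
  have hD0 : DomR κ (t - h) := b3_dom (by linarith) (by linarith) (Or.inl (by linarith))
  have hy := yR1 hD0 hk1 hk2 (by linarith) (by linarith)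
  have hY : 0.6583 * Real.exp (r * 0.96445) ≤ ‖Xf β r h t 0‖ :=
    b3_lo hβ hr hκ (k := 0) (t' := t - h) (by push_cast; ring) hD0 0.125 3.1213 0.6583 0.96445 (by norm_num)
      (T3_26_p0R hD0 hβ hk1 hk2 (by linarith) (by linarith) hR0 hR)
      (v5_Dup hD0 1.3 (-0.2) 0.005 1.22141 0.99502 3.1213 hk2 hy.1 hy.2 (ex_up 0.2 (by norm_num) (by norm_num) (by norm_num) (by norm_num)) (ex_um 0.005 (by norm_num) (by norm_num) (by norm_num) (by norm_num)) (by norm_num) (by norm_num) (by norm_num)) (by norm_num) (by norm_num)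
      (b3_Vlo hD0 1.25 1.3 (-0.3944) 0.0001 1.15 0.13977 0.2069 0.97867 0.02157 0.96445 hk1 hk2 (by linarith) (by linarith) (by norm_num) (ex_lp 0.13977 (by norm_num) (by norm_num) (by norm_num)) (by norm_num) (by norm_num) (by norm_num) (by norm_num) (by norm_num) (by norm_num) (by norm_num) (by norm_num) (ex_um 0.02157 (by norm_num) (by norm_num) (by norm_num) (by norm_num)) (by norm_num))
  have h1 : ‖Xf β r h t 1‖ ≤ 0.0545 * ‖Xf β r h t 0‖ := by
    exact b3_cmp 0.0214 0.38561 0.00006507 0.96445 0.054464 0.000022 0.0545 hr (b3_X1.trans_le (b3_HF 0.39 1.25 1.3 1.7 2.0944 1.24184 0.61417 0.60231 1.62825 1.66031 0.60229 1.617 0.14385 1.9707 0.7263 0.12222 0.2947 0.00003 1.6754 0.2169 0.57884 hβ hr hκ (by norm_num) hk1 hk2 (by norm_num) (by linarith) (by linarith) (by norm_num) (ex_um 0.4875 (by norm_num) (by norm_num) (by norm_num) (by norm_num)) (ex_um 0.507 (by norm_num) (by norm_num) (by norm_num) (by norm_num)) (ex_up 0.4875 (by norm_num)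 (by norm_num) (by norm_num) (by norm_num)) (ex_up 0.507 (by norm_num) (by norm_num) (by norm_num) (by norm_num)) (by norm_num) (by norm_num) (ex_lm 0.507 (by norm_num) (by norm_num) (by norm_num) (by norm_num) (by norm_num)) (by norm_num) (by norm_num) (by norm_num) (by norm_num) (by norm_num) (by norm_num) (by norm_num) (by norm_num) (by norm_num) (by norm_num) (by norm_num) (by norm_num) (ex_un 1 0.2222 (by norm_num) (by norm_num) (by norm_num) (by norm_num)) (v5_hump 1.3838 7.692 2.7735 0.00002395 0.00003 hβ hr hκ hk1 hk2 (by norm_num) (tb := 2.0944) (by linarith) (by norm_num) (by norm_num) (by norm_num) (by norm_num) (by norm_num) (by norm_num) (by norm_num) (ex_un 10 0.6441 (by norm_num) (by norm_num) (by norm_num) (by norm_num)) (by norm_num)) (by norm_num) (by norm_num) (by norm_num))) hY (by norm_num) (by norm_num) (by norm_num) (by norm_num) (by norm_num) (ex_un 3 0.8561 (by norm_num) (by norm_num) (by norm_num) (by norm_num)) (by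 norm_num) (by norm_num) (by norm_num) (ex_un 9 0.6445 (by norm_num) (by norm_num) (by norm_num) (by norm_num)) (by norm_num) (by norm_num)
  have h2 : ‖Xf β r h t (-1)‖ ≤ 0.0719 * ‖Xf β r h t 0‖ := by
    exact b3_cmp 1 0 0.0254 0.36784 0 0.071813 0.0719 hr (b3_w (b3_UD 1.25 1.3 3.79439 4.1888 0.005 0.35683 0.54661 0.9703 1.8612 0.59661 hh hβ hr hκ (by norm_num) hk1 hk2 (by linarith) (by linarith) (by norm_num) (by norm_num) (by norm_num) (by norm_num) (by norm_num) (by norm_num) (by norm_num) (by norm_num) (by norm_num) (by norm_num) (by norm_num) (by norm_num) (by norm_num))) hY (by norm_num) (by norm_num) (by norm_num) (by norm_num) (by norm_num) (by norm_num) (by norm_num) (by norm_num) (by norm_num) (ex_un 3 0.6784 (by norm_num) (by norm_num) (by norm_num) (by norm_num)) (by norm_num) (by norm_num)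
  exact b3_out0 0.0545 0.0719 hY (by norm_num) h1 h2 (by norm_num)

private theorem yI {κ t : ℝ} (h : DomR κ t) (hk1 : 1.25 ≤ κ) (hk2 : κ ≤ 1.3) (ht1 : -1.0474 ≤ t + κ) (ht2 : t + κ ≤ -0.71239) :
    (-0.526) ≤ sy κ t ∧ sy κ t ≤ (-0.354) := by
  have hy1 : -0.526 ≤ sy κ t := syL_ge h 1.25 1.3 1.0474 0.526 0.59096 0.59097 0.2367 0.23911 0.24869 hk1 hk2 (by linarith) (by norm_num) (by norm_num) (by norm_num)
    (expm_ge (by norm_num) (by norm_num) (by norm_num) (by norm_num)) (expm_le (by norm_num) (by norm_num) (by norm_num)) (by norm_num)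
    (by norm_num) (by norm_num) (by norm_num) (by norm_num) (by norm_num) (by norm_num)
  have hy2 : sy κ t ≤ -0.354 := syL_le h 1.25 1.3 0.71239 0.354 0.70187 0.70188 0.19112 0.19878 hk1 hk2 (by linarith) (by norm_num) (by norm_num) (by norm_num)
    (expm_ge (by norm_num) (by norm_num) (by norm_num) (by norm_num)) (expm_le (by norm_num) (by norm_num) (by norm_num)) (by norm_num)
    (by norm_num) (by norm_num) (by norm_num) (by norm_num) (by norm_num) (by norm_num)
  exact ⟨hy1, hy2⟩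

theorem innE {β r h t κ : ℝ} (hh : h = 2 * Real.pi / (3 : ℕ)) (hβ : 0 < β) (hr : 10 ≤ r) (hκ : κ = β * r)
    (hk1 : 1.25 ≤ κ) (hk2 : κ ≤ 1.3) (hT1 : 1.047 ≤ t + κ) (hT2 : t + κ ≤ 1.382) :
    ‖Xf β r h t (-1)‖ ≤ 0.0027 * ‖Xf β r h t 0‖ ∧ ‖Xf β r h (t + β) (-1)‖ ≤ 0.00683 * ‖Xf β r h t 0‖ := by
  obtain ⟨q1, q2, q3⟩ := b3_h hh
  have hR0 := b3_R0 hβ hr hκ
  have hR := b3_R hβ hr hκ (by linarith)
  have hD0 : DomR κ (t - h) := b3_dom (by linarith) (by linarith) (Or.inl (by linarith))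
  have hy := yI hD0 hk1 hk2 (by linarith) (by linarith)
  have hY : 0.5611 * Real.exp (r * 0.77796) ≤ ‖Xf β r h t 0‖ :=
    b3_lo hβ hr hκ (k := 0) (t' := t - h) (by push_cast; ring) hD0 0.17 4.7872 0.5611 0.77796 (by norm_num)
      (T3_26_p0 hD0 hβ hk1 hk2 (by linarith) (by linarith) hR0 hR)
      (v5_Dup hD0 1.3 (-0.526) (-0.354) 1.69216 1.42476 4.7872 hk2 hy.1 hy.2 (ex_up 0.526 (by norm_num) (by norm_num) (by norm_num) (by norm_num)) (ex_up 0.354 (by norm_num) (by norm_num) (by norm_num) (by norm_num)) (by norm_num) (by norm_num) (by norm_num)) (by norm_num) (by norm_num)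
      (b3_Vlo hD0 1.25 1.3 (-1.0474) (-0.71239) 1.64 0.4947 0.2474 0.96955 0.03093 0.77796 hk1 hk2 (by linarith) (by linarith) (by norm_num) (ex_lp 0.4947 (by norm_num) (by norm_num) (by norm_num)) (by norm_num) (by norm_num) (by norm_num) (by norm_num) (by norm_num) (by norm_num) (by norm_num) (by norm_num) (ex_um 0.03093 (by norm_num) (by norm_num) (by norm_num) (by norm_num)) (by norm_num))
  constructor
  · exact b3_cmp 1 0 0.0007249 0.72296 0 0.002698 0.0027 hr (b3_w (b3_UD 1.25 1.3 3.14139 3.4764 0.005 0.35683 0.005 1.0887 2.0883 0.055 hh hβ hr hκ (by norm_num) hk1 hk2 (by linarith) (by linarith) (by norm_num) (by norm_num) (by norm_num) (by norm_num) (by norm_num) (by norm_num) (by norm_num) (by norm_num) (by norm_num) (by norm_num) (by norm_num) (by norm_num) (by norm_num))) hY (by norm_num) (by norm_num) (by norm_num) (by norm_num) (by norm_num) (by norm_num) (by norm_num) (by norm_num) (by norm_num) (ex_un 7 0.2296 (by norm_num) (by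 norm_num) (by norm_num) (by norm_num)) (by norm_num) (by norm_num)
  · exact b3_cmp 1 0 0.001849 0.62935 0 0.006823 0.00683 hr (b3_w (b3_UD 1.25 1.3 3.14139 3.6064 0.08 0.35683 0.09861 1.0794 2.0704 0.14861 hh hβ hr hκ (by norm_num) hk1 hk2 (by linarith) (by linarith) (by norm_num) (by norm_num) (by norm_num) (by norm_num) (by norm_num) (by norm_num) (by norm_num) (by norm_num) (by norm_num) (by norm_num) (by norm_num) (by norm_num) (by norm_num))) hY (by norm_num) (by norm_num) (by norm_num) (by norm_num) (by norm_num) (by norm_num) (by norm_num) (by norm_num) (by norm_num) (ex_un 6 0.2935 (by norm_num) (by norm_num) (by norm_num) (by norm_num)) (by norm_num) (by norm_num)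

private theorem yA0 {κ t : ℝ} (h : DomR κ t) (hk1 : 1.25 ≤ κ) (hk2 : κ ≤ 1.3) (ht1 : 1.047 ≤ t + κ) (ht2 : t + κ ≤ 1.067) :
    0.408 ≤ sy κ t ∧ sy κ t ≤ 0.421 := by
  have hy1 : 0.408 ≤ sy κ t := syR_ge h 1.25 1.3 1.047 0.408 1.5038 1.50381 0.47196 0.49085 hk1 hk2 (by linarith) (by norm_num) (by norm_num)
    (expn_ge (by norm_num) (by norm_num)) (expn_le (by norm_num) (by norm_num) (by norm_num)) (by norm_num)
    (by norm_num) (by norm_num) (by norm_num) (by norm_num) (by norm_num) (by norm_num)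
  have hy2 : sy κ t ≤ 0.421 := syR_le h 1.25 1.3 1.067 0.421 1.52348 0.4884 0.49337 0.51312 hk1 hk2 (by linarith) (by norm_num) (by norm_num)
    (expn_ge (by norm_num) (by norm_num)) (by norm_num) (by norm_num) (Or.inr ((mul_le_mul_of_nonneg_left (expn_le (E := 1.52349) (by norm_num) (by norm_num) (by norm_num)) (by norm_num)).trans (by norm_num))) (by norm_num) (by norm_num) (by norm_num)
  exact ⟨hy1, hy2⟩

private theorem yB0 {κ t : ℝ} (h : DomR κ t) (hk1 : 1.25 ≤ κ) (hk2 : κ ≤ 1.3) (ht1 : -1.0474 ≤ t + κ) (ht2 : t + κ ≤ -1.02739) :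
    (-0.526) ≤ sy κ t ∧ sy κ t ≤ (-0.503) := by
  have hy1 : -0.526 ≤ sy κ t := syL_ge h 1.25 1.3 1.0474 0.526 0.59096 0.59097 0.2367 0.23911 0.24869 hk1 hk2 (by linarith) (by norm_num) (by norm_num) (by norm_num)
    (expm_ge (by norm_num) (by norm_num) (by norm_num) (by norm_num)) (expm_le (by norm_num) (by norm_num) (by norm_num)) (by norm_num)
    (by norm_num) (by norm_num) (by norm_num) (by norm_num) (by norm_num) (by norm_num)
  have hy2 : sy κ t ≤ -0.503 := syL_le h 1.25 1.3 1.02739 0.503 0.60471 0.60472 0.23397 0.24334 hk1 hk2 (by linarith) (by norm_num) (by norm_num) (by norm_num)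
    (expm_ge (by norm_num) (by norm_num) (by norm_num) (by norm_num)) (expm_le (by norm_num) (by norm_num) (by norm_num)) (by norm_num)
    (by norm_num) (by norm_num) (by norm_num) (by norm_num) (by norm_num) (by norm_num)
  exact ⟨hy1, hy2⟩

theorem pc0 {β r h t κ : ℝ} (hh : h = 2 * Real.pi / (3 : ℕ)) (hβ : 0 < β) (hr : 10 ≤ r) (hκ : κ = β * r)
    (hk1 : 1.25 ≤ κ) (hk2 : κ ≤ 1.3) (hT1 : 1.047 ≤ t + κ) (hT2 : t + κ ≤ 1.067) :
    Xf β r h t 0 ≠ 0 ∧ r * 0.0773 ≤ (Ld β r h t 1 - Ld β r h t 0).im ∧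
      ‖(((-1 : ℤ) : ℂ) - 1) * Ld β r h t 0 - ((-1 : ℤ) : ℂ) * Ld β r h t 1‖ ≤ r * 5.31 := by
  obtain ⟨q1, q2, q3⟩ := b3_h hh
  have hR0 := b3_R0 hβ hr hκ
  have hR := b3_R hβ hr hκ (by linarith)
  have hD1 : DomR κ t := b3_dom (by linarith) (by linarith) (Or.inl (by linarith))
  have hD0 : DomR κ (t - h) := b3_dom (by linarith) (by linarith) (Or.inl (by linarith))
  have y1 := yA0 hD1 hk1 hk2 (by linarith) (by linarith)
  have y0 := yB0 hD0 hk1 hk2 (by linarith) (by linarith)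
  have j1 := T3_26_d1_0 hD1 hβ hk1 hk2 (by linarith) (by linarith) hR0 hR
  exact b3_piece 1.25 1.3 0.408 0.421 0.414 0.661 0.66498 0.6564 0.8645 2.5068 2.5702 0.1 0.165 0.165 1.9761 1.079 0 0 (-0.526) (-0.503) (-0.514) 1.67196 1.69216 2.1999 4.2657 0.08 0.285 0.17 4.2922 4.5719 0 0 0.0773 5.31
    hβ hr hκ (by norm_num) hk1 hk2 hD1 hD0 j1 (j1 _ (by rw [sub_self, norm_zero]; norm_num))
    (T3_26_d0_0 hD0 hβ hk1 hk2 (by linarith) (by linarith) hR0 hR)
    (T3_26_p0 hD0 hβ hk1 hk2 (by linarith) (by linarith) hR0 hR)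
    y1.1 y1.2 y0.1 y0.2 (by norm_num)
    (ex_um 0.408 (by norm_num) (by norm_num) (by norm_num) (by norm_num)) (ex_um 0.421 (by norm_num) (by norm_num) (by norm_num) (by norm_num)) (ex_lm 0.414 (by norm_num) (by norm_num) (by norm_num) (by norm_num) (by norm_num)) (by norm_num) (by norm_num) (by norm_num) (by norm_num) (by norm_num) (by norm_num) (by norm_num) (by norm_num)
    (by norm_num) (by norm_num) (by norm_num) (by norm_num) (by norm_num) (by norm_num) (by norm_num) (by norm_num) (by norm_num) (by norm_num)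
    (ex_up 0.526 (by norm_num) (by norm_num) (by norm_num) (by norm_num)) (ex_lp 0.514 (by norm_num) (by norm_num) (by norm_num)) (by norm_num) (by norm_num) (by norm_num) (by norm_num) (by norm_num) (by norm_num)
    (by norm_num) (by norm_num) (by norm_num) (by norm_num) (by norm_num) (by norm_num) (by norm_num) (by norm_num) (by norm_num) (by norm_num) (by norm_num)
    (by norm_num) (by norm_num) (by norm_num) (by norm_num)

private theorem yA1 {κ t : ℝ} (h : DomR κ t) (hk1 : 1.25 ≤ κ) (hk2 : κ ≤ 1.3) (ht1 : 1.067 ≤ t + κ) (ht2 : t + κ ≤ 1.087) :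
    0.414 ≤ sy κ t ∧ sy κ t ≤ 0.426 := by
  have hy1 : 0.414 ≤ sy κ t := syR_ge h 1.25 1.3 1.067 0.414 1.51285 1.51286 0.48178 0.50106 hk1 hk2 (by linarith) (by norm_num) (by norm_num)
    (expn_ge (by norm_num) (by norm_num)) (expn_le (by norm_num) (by norm_num) (by norm_num)) (by norm_num)
    (by norm_num) (by norm_num) (by norm_num) (by norm_num) (by norm_num) (by norm_num)
  have hy2 : sy κ t ≤ 0.426 := syR_le h 1.25 1.3 1.087 0.426 1.53112 0.4967 0.50173 0.52181 hk1 hk2 (by linarith) (by norm_num) (by norm_num)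
    (expn_ge (by norm_num) (by norm_num)) (by norm_num) (by norm_num) (Or.inr ((mul_le_mul_of_nonneg_left (expn_le (E := 1.53113) (by norm_num) (by norm_num) (by norm_num)) (by norm_num)).trans (by norm_num))) (by norm_num) (by norm_num) (by norm_num)
  exact ⟨hy1, hy2⟩

private theorem yB1 {κ t : ℝ} (h : DomR κ t) (hk1 : 1.25 ≤ κ) (hk2 : κ ≤ 1.3) (ht1 : -1.0274 ≤ t + κ) (ht2 : t + κ ≤ -1.00739) :
    (-0.516) ≤ sy κ t ∧ sy κ t ≤ (-0.494) := by
  have hy1 : -0.516 ≤ sy κ t := syL_ge h 1.25 1.3 1.0274 0.516 0.5969 0.59691 0.2345 0.23692 0.24641 hk1 hk2 (by linarith) (by norm_num) (by norm_num) (by norm_num)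
    (expm_ge (by norm_num) (by norm_num) (by norm_num) (by norm_num)) (expm_le (by norm_num) (by norm_num) (by norm_num)) (by norm_num)
    (by norm_num) (by norm_num) (by norm_num) (by norm_num) (by norm_num) (by norm_num)
  have hy2 : sy κ t ≤ -0.494 := syL_le h 1.25 1.3 1.00739 0.494 0.61018 0.61019 0.23186 0.24115 hk1 hk2 (by linarith) (by norm_num) (by norm_num) (by norm_num)
    (expm_ge (by norm_num) (by norm_num) (by norm_num) (by norm_num)) (expm_le (by norm_num) (by norm_num) (by norm_num)) (by norm_num)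
    (by norm_num) (by norm_num) (by norm_num) (by norm_num) (by norm_num) (by norm_num)
  exact ⟨hy1, hy2⟩

theorem pc1 {β r h t κ : ℝ} (hh : h = 2 * Real.pi / (3 : ℕ)) (hβ : 0 < β) (hr : 10 ≤ r) (hκ : κ = β * r)
    (hk1 : 1.25 ≤ κ) (hk2 : κ ≤ 1.3) (hT1 : 1.067 ≤ t + κ) (hT2 : t + κ ≤ 1.087) :
    Xf β r h t 0 ≠ 0 ∧ r * 0.0773 ≤ (Ld β r h t 1 - Ld β r h t 0).im ∧
      ‖(((-1 : ℤ) : ℂ) - 1) * Ld β r h t 0 - ((-1 : ℤ) : ℂ) * Ld β r h t 1‖ ≤ r * 5.31 := by
  obtain ⟨q1, q2, q3⟩ := b3_h hh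
  have hR0 := b3_R0 hβ hr hκ
  have hR := b3_R hβ hr hκ (by linarith)
  have hD1 : DomR κ t := b3_dom (by linarith) (by linarith) (Or.inl (by linarith))
  have hD0 : DomR κ (t - h) := b3_dom (by linarith) (by linarith) (Or.inl (by linarith))
  have y1 := yA1 hD1 hk1 hk2 (by linarith) (by linarith)
  have y0 := yB1 hD0 hk1 hk2 (by linarith) (by linarith)
  have j1 := T3_26_d1_0 hD1 hβ hk1 hk2 (by linarith) (by linarith) hR0 hR
  exact b3_piece 1.25 1.3 0.414 0.426 0.42 0.65704 0.66101 0.65312 0.8594 2.5106 2.5729 0.1 0.165 0.165 1.9761 1.0719 0 0 (-0.516) (-0.494) (-0.505) 1.65698 1.67532 2.178 4.2075 0.08 0.285 0.17 4.2922 4.5575 0 0 0.0773 5.31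
    hβ hr hκ (by norm_num) hk1 hk2 hD1 hD0 j1 (j1 _ (by rw [sub_self, norm_zero]; norm_num))
    (T3_26_d0_0 hD0 hβ hk1 hk2 (by linarith) (by linarith) hR0 hR)
    (T3_26_p0 hD0 hβ hk1 hk2 (by linarith) (by linarith) hR0 hR)
    y1.1 y1.2 y0.1 y0.2 (by norm_num)
    (ex_um 0.414 (by norm_num) (by norm_num) (by norm_num) (by norm_num)) (ex_um 0.426 (by norm_num) (by norm_num) (by norm_num) (by norm_num)) (ex_lm 0.42 (by norm_num) (by norm_num) (by norm_num) (by norm_num) (by norm_num)) (by norm_num) (by norm_num) (by norm_num) (by norm_num) (by norm_num) (by norm_num) (by norm_num) (by norm_num)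
    (by norm_num) (by norm_num) (by norm_num) (by norm_num) (by norm_num) (by norm_num) (by norm_num) (by norm_num) (by norm_num) (by norm_num)
    (ex_up 0.516 (by norm_num) (by norm_num) (by norm_num) (by norm_num)) (ex_lp 0.505 (by norm_num) (by norm_num) (by norm_num)) (by norm_num) (by norm_num) (by norm_num) (by norm_num) (by norm_num) (by norm_num)
    (by norm_num) (by norm_num) (by norm_num) (by norm_num) (by norm_num) (by norm_num) (by norm_num) (by norm_num) (by norm_num) (by norm_num) (by norm_num)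
    (by norm_num) (by norm_num) (by norm_num) (by norm_num)

private theorem yA2 {κ t : ℝ} (h : DomR κ t) (hk1 : 1.25 ≤ κ) (hk2 : κ ≤ 1.3) (ht1 : 1.087 ≤ t + κ) (ht2 : t + κ ≤ 1.107) :
    0.42 ≤ sy κ t ∧ sy κ t ≤ 0.432 := by
  have hy1 : 0.42 ≤ sy κ t := syR_ge h 1.25 1.3 1.087 0.42 1.52196 1.52197 0.49171 0.51139 hk1 hk2 (by linarith) (by norm_num) (by norm_num)
    (expn_ge (by norm_num) (by norm_num)) (expn_le (by norm_num) (by norm_num) (by norm_num)) (by norm_num)
    (by norm_num) (by norm_num) (by norm_num) (by norm_num) (by norm_num) (by norm_num)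
  have hy2 : sy κ t ≤ 0.432 := syR_le h 1.25 1.3 1.107 0.432 1.54033 0.5067 0.51186 0.53235 hk1 hk2 (by linarith) (by norm_num) (by norm_num)
    (expn_ge (by norm_num) (by norm_num)) (by norm_num) (by norm_num) (Or.inr ((mul_le_mul_of_nonneg_left (expn_le (E := 1.54034) (by norm_num) (by norm_num) (by norm_num)) (by norm_num)).trans (by norm_num))) (by norm_num) (by norm_num) (by norm_num)
  exact ⟨hy1, hy2⟩

private theorem yB2 {κ t : ℝ} (h : DomR κ t) (hk1 : 1.25 ≤ κ) (hk2 : κ ≤ 1.3) (ht1 : -1.0074 ≤ t + κ) (ht2 : t + κ ≤ -0.98739) :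
    (-0.507) ≤ sy κ t ∧ sy κ t ≤ (-0.485) := by
  have hy1 : -0.507 ≤ sy κ t := syL_ge h 1.25 1.3 1.0074 0.507 0.60229 0.60231 0.2325 0.23489 0.2443 hk1 hk2 (by linarith) (by norm_num) (by norm_num) (by norm_num)
    (expm_ge (by norm_num) (by norm_num) (by norm_num) (by norm_num)) (expm_le (by norm_num) (by norm_num) (by norm_num)) (by norm_num)
    (by norm_num) (by norm_num) (by norm_num) (by norm_num) (by norm_num) (by norm_num)
  have hy2 : sy κ t ≤ -0.485 := syL_le h 1.25 1.3 0.98739 0.485 0.61569 0.6157 0.22969 0.2389 hk1 hk2 (by linarith) (by norm_num) (by norm_num) (by norm_num)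
    (expm_ge (by norm_num) (by norm_num) (by norm_num) (by norm_num)) (expm_le (by norm_num) (by norm_num) (by norm_num)) (by norm_num)
    (by norm_num) (by norm_num) (by norm_num) (by norm_num) (by norm_num) (by norm_num)
  exact ⟨hy1, hy2⟩

theorem pc2 {β r h t κ : ℝ} (hh : h = 2 * Real.pi / (3 : ℕ)) (hβ : 0 < β) (hr : 10 ≤ r) (hκ : κ = β * r)
    (hk1 : 1.25 ≤ κ) (hk2 : κ ≤ 1.3) (hT1 : 1.087 ≤ t + κ) (hT2 : t + κ ≤ 1.107) :
    Xf β r h t 0 ≠ 0 ∧ r * 0.0773 ≤ (Ld β r h t 1 - Ld β r h t 0).im ∧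
      ‖(((-1 : ℤ) : ℂ) - 1) * Ld β r h t 0 - ((-1 : ℤ) : ℂ) * Ld β r h t 1‖ ≤ r * 5.31 := by
  obtain ⟨q1, q2, q3⟩ := b3_h hh
  have hR0 := b3_R0 hβ hr hκ
  have hR := b3_R hβ hr hκ (by linarith)
  have hD1 : DomR κ t := b3_dom (by linarith) (by linarith) (Or.inl (by linarith))
  have hD0 : DomR κ (t - h) := b3_dom (by linarith) (by linarith) (Or.inl (by linarith))
  have y1 := yA2 hD1 hk1 hk2 (by linarith) (by linarith)
  have y0 := yB2 hD0 hk1 hk2 (by linarith) (by linarith)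
  have j1 := T3_26_d1_1 hD1 hβ hk1 hk2 (by linarith) (by linarith) hR0 hR
  exact b3_piece 1.25 1.3 0.42 0.432 0.426 0.65311 0.65705 0.64921 0.8542 2.5144 2.5763 0.1 0.18 0.18 2.1952 1.1826 0 0 (-0.507) (-0.485) (-0.496) 1.64213 1.66031 2.1585 4.1507 0.1 0.32 0.17 3.8555 4.0849 0 0 0.0773 5.31
    hβ hr hκ (by norm_num) hk1 hk2 hD1 hD0 j1 (j1 _ (by rw [sub_self, norm_zero]; norm_num))
    (T3_26_d0_1 hD0 hβ hk1 hk2 (by linarith) (by linarith) hR0 hR)
    (T3_26_p0 hD0 hβ hk1 hk2 (by linarith) (by linarith) hR0 hR)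
    y1.1 y1.2 y0.1 y0.2 (by norm_num)
    (ex_um 0.42 (by norm_num) (by norm_num) (by norm_num) (by norm_num)) (ex_um 0.432 (by norm_num) (by norm_num) (by norm_num) (by norm_num)) (ex_lm 0.426 (by norm_num) (by norm_num) (by norm_num) (by norm_num) (by norm_num)) (by norm_num) (by norm_num) (by norm_num) (by norm_num) (by norm_num) (by norm_num) (by norm_num) (by norm_num)
    (by norm_num) (by norm_num) (by norm_num) (by norm_num) (by norm_num) (by norm_num) (by norm_num) (by norm_num) (by norm_num) (by norm_num)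
    (ex_up 0.507 (by norm_num) (by norm_num) (by norm_num) (by norm_num)) (ex_lp 0.496 (by norm_num) (by norm_num) (by norm_num)) (by norm_num) (by norm_num) (by norm_num) (by norm_num) (by norm_num) (by norm_num)
    (by norm_num) (by norm_num) (by norm_num) (by norm_num) (by norm_num) (by norm_num) (by norm_num) (by norm_num) (by norm_num) (by norm_num) (by norm_num)
    (by norm_num) (by norm_num) (by norm_num) (by norm_num)

private theorem yA3 {κ t : ℝ} (h : DomR κ t) (hk1 : 1.25 ≤ κ) (hk2 : κ ≤ 1.3) (ht1 : 1.107 ≤ t + κ) (ht2 : t + κ ≤ 1.127) :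
    0.425 ≤ sy κ t ∧ sy κ t ≤ 0.438 := by
  have hy1 : 0.425 ≤ sy κ t := syR_ge h 1.25 1.3 1.107 0.425 1.52958 1.5296 0.50005 0.52007 hk1 hk2 (by linarith) (by norm_num) (by norm_num)
    (expn_ge (by norm_num) (by norm_num)) (expn_le (by norm_num) (by norm_num) (by norm_num)) (by norm_num)
    (by norm_num) (by norm_num) (by norm_num) (by norm_num) (by norm_num) (by norm_num)
  have hy2 : sy κ t ≤ 0.438 := syR_le h 1.25 1.3 1.127 0.438 1.5496 0.5168 0.52209 0.54299 hk1 hk2 (by linarith) (by norm_num) (by norm_num)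
    (expn_ge (by norm_num) (by norm_num)) (by norm_num) (by norm_num) (Or.inr ((mul_le_mul_of_nonneg_left (expn_le (E := 1.54961) (by norm_num) (by norm_num) (by norm_num)) (by norm_num)).trans (by norm_num))) (by norm_num) (by norm_num) (by norm_num)
  exact ⟨hy1, hy2⟩

private theorem yB3 {κ t : ℝ} (h : DomR κ t) (hk1 : 1.25 ≤ κ) (hk2 : κ ≤ 1.3) (ht1 : -0.9874 ≤ t + κ) (ht2 : t + κ ≤ -0.96739) :
    (-0.497) ≤ sy κ t ∧ sy κ t ≤ (-0.476) := by
  have hy1 : -0.497 ≤ sy κ t := syL_ge h 1.25 1.3 0.9874 0.497 0.60835 0.60836 0.2403 0.23257 0.24189 hk1 hk2 (by linarith) (by norm_num) (by norm_num) (by norm_num)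
    (expm_ge (by norm_num) (by norm_num) (by norm_num) (by norm_num)) (expm_le (by norm_num) (by norm_num) (by norm_num)) (by norm_num)
    (by norm_num) (by norm_num) (by norm_num) (by norm_num) (by norm_num) (by norm_num)
  have hy2 : sy κ t ≤ -0.476 := syL_le h 1.25 1.3 0.96739 0.476 0.62126 0.62127 0.22747 0.23658 hk1 hk2 (by linarith) (by norm_num) (by norm_num) (by norm_num)
    (expm_ge (by norm_num) (by norm_num) (by norm_num) (by norm_num)) (expm_le (by norm_num) (by norm_num) (by norm_num)) (by norm_num)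
    (by norm_num) (by norm_num) (by norm_num) (by norm_num) (by norm_num) (by norm_num)
  exact ⟨hy1, hy2⟩

theorem pc3 {β r h t κ : ℝ} (hh : h = 2 * Real.pi / (3 : ℕ)) (hβ : 0 < β) (hr : 10 ≤ r) (hκ : κ = β * r)
    (hk1 : 1.25 ≤ κ) (hk2 : κ ≤ 1.3) (hT1 : 1.107 ≤ t + κ) (hT2 : t + κ ≤ 1.127) :
    Xf β r h t 0 ≠ 0 ∧ r * 0.0773 ≤ (Ld β r h t 1 - Ld β r h t 0).im ∧
      ‖(((-1 : ℤ) : ℂ) - 1) * Ld β r h t 0 - ((-1 : ℤ) : ℂ) * Ld β r h t 1‖ ≤ r * 5.31 := by
  obtain ⟨q1, q2, q3⟩ := b3_h hh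
  have hR0 := b3_R0 hβ hr hκ
  have hR := b3_R hβ hr hκ (by linarith)
  have hD1 : DomR κ t := b3_dom (by linarith) (by linarith) (Or.inl (by linarith))
  have hD0 : DomR κ (t - h) := b3_dom (by linarith) (by linarith) (Or.inl (by linarith))
  have y1 := yA3 hD1 hk1 hk2 (by linarith) (by linarith)
  have y0 := yB3 hD0 hk1 hk2 (by linarith) (by linarith)
  have j1 := T3_26_d1_1 hD1 hβ hk1 hk2 (by linarith) (by linarith) hR0 hR
  exact b3_piece 1.25 1.3 0.425 0.438 0.431 0.64985 0.65378 0.64533 0.85 2.5177 2.5799 0.1 0.18 0.18 2.1952 1.176 0 0 (-0.497) (-0.476) (-0.486) 1.62579 1.64379 2.137 4.0953 0.1 0.32 0.17 3.8555 4.0714 0 0 0.0773 5.31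
    hβ hr hκ (by norm_num) hk1 hk2 hD1 hD0 j1 (j1 _ (by rw [sub_self, norm_zero]; norm_num))
    (T3_26_d0_1 hD0 hβ hk1 hk2 (by linarith) (by linarith) hR0 hR)
    (T3_26_p0 hD0 hβ hk1 hk2 (by linarith) (by linarith) hR0 hR)
    y1.1 y1.2 y0.1 y0.2 (by norm_num)
    (ex_um 0.425 (by norm_num) (by norm_num) (by norm_num) (by norm_num)) (ex_um 0.438 (by norm_num) (by norm_num) (by norm_num) (by norm_num)) (ex_lm 0.431 (by norm_num) (by norm_num) (by norm_num) (by norm_num) (by norm_num)) (by norm_num) (by norm_num) (by norm_num) (by norm_num) (by norm_num) (by norm_num) (by norm_num) (by norm_num)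
    (by norm_num) (by norm_num) (by norm_num) (by norm_num) (by norm_num) (by norm_num) (by norm_num) (by norm_num) (by norm_num) (by norm_num)
    (ex_up 0.497 (by norm_num) (by norm_num) (by norm_num) (by norm_num)) (ex_lp 0.486 (by norm_num) (by norm_num) (by norm_num)) (by norm_num) (by norm_num) (by norm_num) (by norm_num) (by norm_num) (by norm_num)
    (by norm_num) (by norm_num) (by norm_num) (by norm_num) (by norm_num) (by norm_num) (by norm_num) (by norm_num) (by norm_num) (by norm_num) (by norm_num)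
    (by norm_num) (by norm_num) (by norm_num) (by norm_num)

private theorem yA4 {κ t : ℝ} (h : DomR κ t) (hk1 : 1.25 ≤ κ) (hk2 : κ ≤ 1.3) (ht1 : 1.127 ≤ t + κ) (ht2 : t + κ ≤ 1.152) :
    0.43 ≤ sy κ t ∧ sy κ t ≤ 0.445 := by
  have hy1 : 0.43 ≤ sy κ t := syR_ge h 1.25 1.3 1.127 0.43 1.53725 1.53726 0.50847 0.52882 hk1 hk2 (by linarith) (by norm_num) (by norm_num)
    (expn_ge (by norm_num) (by norm_num)) (expn_le (by norm_num) (by norm_num) (by norm_num)) (by norm_num)
    (by norm_num) (by norm_num) (by norm_num) (by norm_num) (by norm_num) (by norm_num)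
  have hy2 : sy κ t ≤ 0.445 := syR_le h 1.25 1.3 1.152 0.445 1.56048 0.5288 0.53416 0.55554 hk1 hk2 (by linarith) (by norm_num) (by norm_num)
    (expn_ge (by norm_num) (by norm_num)) (by norm_num) (by norm_num) (Or.inr ((mul_le_mul_of_nonneg_left (expn_le (E := 1.5605) (by norm_num) (by norm_num) (by norm_num)) (by norm_num)).trans (by norm_num))) (by norm_num) (by norm_num) (by norm_num)
  exact ⟨hy1, hy2⟩

private theorem yB4 {κ t : ℝ} (h : DomR κ t) (hk1 : 1.25 ≤ κ) (hk2 : κ ≤ 1.3) (ht1 : -0.9674 ≤ t + κ) (ht2 : t + κ ≤ -0.94239) :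
    (-0.488) ≤ sy κ t ∧ sy κ t ≤ (-0.464) := by
  have hy1 : -0.488 ≤ sy κ t := syL_ge h 1.25 1.3 0.9674 0.488 0.61385 0.61386 0.2281 0.23042 0.23966 hk1 hk2 (by linarith) (by norm_num) (by norm_num) (by norm_num)
    (expm_ge (by norm_num) (by norm_num) (by norm_num) (by norm_num)) (expm_le (by norm_num) (by norm_num) (by norm_num)) (by norm_num)
    (by norm_num) (by norm_num) (by norm_num) (by norm_num) (by norm_num) (by norm_num)
  have hy2 : sy κ t ≤ -0.464 := syL_le h 1.25 1.3 0.94239 0.464 0.62876 0.62877 0.22441 0.2334 hk1 hk2 (by linarith) (by norm_num) (by norm_num) (by norm_num)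
    (expm_ge (by norm_num) (by norm_num) (by norm_num) (by norm_num)) (expm_le (by norm_num) (by norm_num) (by norm_num)) (by norm_num)
    (by norm_num) (by norm_num) (by norm_num) (by norm_num) (by norm_num) (by norm_num)
  exact ⟨hy1, hy2⟩

theorem pc4 {β r h t κ : ℝ} (hh : h = 2 * Real.pi / (3 : ℕ)) (hβ : 0 < β) (hr : 10 ≤ r) (hκ : κ = β * r)
    (hk1 : 1.25 ≤ κ) (hk2 : κ ≤ 1.3) (hT1 : 1.127 ≤ t + κ) (hT2 : t + κ ≤ 1.152) :
    Xf β r h t 0 ≠ 0 ∧ r * 0.0773 ≤ (Ld β r h t 1 - Ld β r h t 0).im ∧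
      ‖(((-1 : ℤ) : ℂ) - 1) * Ld β r h t 0 - ((-1 : ℤ) : ℂ) * Ld β r h t 1‖ ≤ r * 5.31 := by
  obtain ⟨q1, q2, q3⟩ := b3_h hh
  have hR0 := b3_R0 hβ hr hκ
  have hR := b3_R hβ hr hκ (by linarith)
  have hD1 : DomR κ t := b3_dom (by linarith) (by linarith) (Or.inl (by linarith))
  have hD0 : DomR κ (t - h) := b3_dom (by linarith) (by linarith) (Or.inl (by linarith))
  have y1 := yA4 hD1 hk1 hk2 (by linarith) (by linarith)
  have y0 := yB4 hD0 hk1 hk2 (by linarith) (by linarith)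
  have j1 := T3_26_d1_2 hD1 hβ hk1 hk2 (by linarith) (by linarith) hR0 hR
  exact b3_piece 1.25 1.3 0.43 0.445 0.438 0.64532 0.65051 0.64083 0.8457 2.521 2.5841 0.08 0.165 0.165 2.4701 1.3157 0 0 (-0.488) (-0.464) (-0.476) 1.60962 1.62906 2.1178 4.023 0.1 0.295 0.17 3.5543 3.7529 0 0 0.0773 5.31
    hβ hr hκ (by norm_num) hk1 hk2 hD1 hD0 j1 (j1 _ (by rw [sub_self, norm_zero]; norm_num))
    (T3_26_d0_2 hD0 hβ hk1 hk2 (by linarith) (by linarith) hR0 hR)
    (T3_26_p0 hD0 hβ hk1 hk2 (by linarith) (by linarith) hR0 hR)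
    y1.1 y1.2 y0.1 y0.2 (by norm_num)
    (ex_um 0.43 (by norm_num) (by norm_num) (by norm_num) (by norm_num)) (ex_um 0.445 (by norm_num) (by norm_num) (by norm_num) (by norm_num)) (ex_lm 0.438 (by norm_num) (by norm_num) (by norm_num) (by norm_num) (by norm_num)) (by norm_num) (by norm_num) (by norm_num) (by norm_num) (by norm_num) (by norm_num) (by norm_num) (by norm_num)
    (by norm_num) (by norm_num) (by norm_num) (by norm_num) (by norm_num) (by norm_num) (by norm_num) (by norm_num) (by norm_num) (by norm_num)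
    (ex_up 0.488 (by norm_num) (by norm_num) (by norm_num) (by norm_num)) (ex_lp 0.476 (by norm_num) (by norm_num) (by norm_num)) (by norm_num) (by norm_num) (by norm_num) (by norm_num) (by norm_num) (by norm_num)
    (by norm_num) (by norm_num) (by norm_num) (by norm_num) (by norm_num) (by norm_num) (by norm_num) (by norm_num) (by norm_num) (by norm_num) (by norm_num)
    (by norm_num) (by norm_num) (by norm_num) (by norm_num)

private theorem yA5 {κ t : ℝ} (h : DomR κ t) (hk1 : 1.25 ≤ κ) (hk2 : κ ≤ 1.3) (ht1 : 1.152 ≤ t + κ) (ht2 : t + κ ≤ 1.177) :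
    0.437 ≤ sy κ t ∧ sy κ t ≤ 0.452 := by
  have hy1 : 0.437 ≤ sy κ t := syR_ge h 1.25 1.3 1.152 0.437 1.54805 1.54806 0.52038 0.54121 hk1 hk2 (by linarith) (by norm_num) (by norm_num)
    (expn_ge (by norm_num) (by norm_num)) (expn_le (by norm_num) (by norm_num) (by norm_num)) (by norm_num)
    (by norm_num) (by norm_num) (by norm_num) (by norm_num) (by norm_num) (by norm_num)
  have hy2 : sy κ t ≤ 0.452 := syR_le h 1.25 1.3 1.177 0.452 1.57145 0.5409 0.54638 0.56824 hk1 hk2 (by linarith) (by norm_num) (by norm_num)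
    (expn_ge (by norm_num) (by norm_num)) (by norm_num) (by norm_num) (Or.inr ((mul_le_mul_of_nonneg_left (expn_le (E := 1.57146) (by norm_num) (by norm_num) (by norm_num)) (by norm_num)).trans (by norm_num))) (by norm_num) (by norm_num) (by norm_num)
  exact ⟨hy1, hy2⟩

private theorem yB5 {κ t : ℝ} (h : DomR κ t) (hk1 : 1.25 ≤ κ) (hk2 : κ ≤ 1.3) (ht1 : -0.9424 ≤ t + κ) (ht2 : t + κ ≤ -0.91739) :
    (-0.476) ≤ sy κ t ∧ sy κ t ≤ (-0.452) := by
  have hy1 : -0.476 ≤ sy κ t := syL_ge h 1.25 1.3 0.9424 0.476 0.62126 0.62127 0.2251 0.22747 0.23658 hk1 hk2 (by linarith) (by norm_num) (by norm_num) (by norm_num)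
    (expm_ge (by norm_num) (by norm_num) (by norm_num) (by norm_num)) (expm_le (by norm_num) (by norm_num) (by norm_num)) (by norm_num)
    (by norm_num) (by norm_num) (by norm_num) (by norm_num) (by norm_num) (by norm_num)
  have hy2 : sy κ t ≤ -0.452 := syL_le h 1.25 1.3 0.91739 0.452 0.63635 0.63636 0.22125 0.23011 hk1 hk2 (by linarith) (by norm_num) (by norm_num) (by norm_num)
    (expm_ge (by norm_num) (by norm_num) (by norm_num) (by norm_num)) (expm_le (by norm_num) (by norm_num) (by norm_num)) (by norm_num)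
    (by norm_num) (by norm_num) (by norm_num) (by norm_num) (by norm_num) (by norm_num)
  exact ⟨hy1, hy2⟩

theorem pc5 {β r h t κ : ℝ} (hh : h = 2 * Real.pi / (3 : ℕ)) (hβ : 0 < β) (hr : 10 ≤ r) (hκ : κ = β * r)
    (hk1 : 1.25 ≤ κ) (hk2 : κ ≤ 1.3) (hT1 : 1.152 ≤ t + κ) (hT2 : t + κ ≤ 1.177) :
    Xf β r h t 0 ≠ 0 ∧ r * 0.0773 ≤ (Ld β r h t 1 - Ld β r h t 0).im ∧
      ‖(((-1 : ℤ) : ℂ) - 1) * Ld β r h t 0 - ((-1 : ℤ) : ℂ) * Ld β r h t 1‖ ≤ r * 5.31 := by
  obtain ⟨q1, q2, q3⟩ := b3_h hh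
  have hR0 := b3_R0 hβ hr hκ
  have hR := b3_R hβ hr hκ (by linarith)
  have hD1 : DomR κ t := b3_dom (by linarith) (by linarith) (Or.inl (by linarith))
  have hD0 : DomR κ (t - h) := b3_dom (by linarith) (by linarith) (Or.inl (by linarith))
  have y1 := yA5 hD1 hk1 hk2 (by linarith) (by linarith)
  have y0 := yB5 hD0 hk1 hk2 (by linarith) (by linarith)
  have j1 := T3_26_d1_2 hD1 hβ hk1 hk2 (by linarith) (by linarith) hR0 hR
  exact b3_piece 1.25 1.3 0.437 0.452 0.445 0.64082 0.64598 0.63636 0.8398 2.5259 2.5884 0.08 0.165 0.165 2.4701 1.3053 0 0 (-0.476) (-0.452) (-0.464) 1.59042 1.60963 2.0926 3.9533 0.1 0.295 0.17 3.5543 3.7408 0 0 0.0773 5.31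
    hβ hr hκ (by norm_num) hk1 hk2 hD1 hD0 j1 (j1 _ (by rw [sub_self, norm_zero]; norm_num))
    (T3_26_d0_2 hD0 hβ hk1 hk2 (by linarith) (by linarith) hR0 hR)
    (T3_26_p0 hD0 hβ hk1 hk2 (by linarith) (by linarith) hR0 hR)
    y1.1 y1.2 y0.1 y0.2 (by norm_num)
    (ex_um 0.437 (by norm_num) (by norm_num) (by norm_num) (by norm_num)) (ex_um 0.452 (by norm_num) (by norm_num) (by norm_num) (by norm_num)) (ex_lm 0.445 (by norm_num) (by norm_num) (by norm_num) (by norm_num) (by norm_num)) (by norm_num) (by norm_num) (by norm_num) (by norm_num) (by norm_num) (by norm_num) (by norm_num) (by norm_num)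
    (by norm_num) (by norm_num) (by norm_num) (by norm_num) (by norm_num) (by norm_num) (by norm_num) (by norm_num) (by norm_num) (by norm_num)
    (ex_up 0.476 (by norm_num) (by norm_num) (by norm_num) (by norm_num)) (ex_lp 0.464 (by norm_num) (by norm_num) (by norm_num)) (by norm_num) (by norm_num) (by norm_num) (by norm_num) (by norm_num) (by norm_num)
    (by norm_num) (by norm_num) (by norm_num) (by norm_num) (by norm_num) (by norm_num) (by norm_num) (by norm_num) (by norm_num) (by norm_num) (by norm_num)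
    (by norm_num) (by norm_num) (by norm_num) (by norm_num)

private theorem yA6 {κ t : ℝ} (h : DomR κ t) (hk1 : 1.25 ≤ κ) (hk2 : κ ≤ 1.3) (ht1 : 1.177 ≤ t + κ) (ht2 : t + κ ≤ 1.2) :
    0.443 ≤ sy κ t ∧ sy κ t ≤ 0.458 := by
  have hy1 : 0.443 ≤ sy κ t := syR_ge h 1.25 1.3 1.177 0.443 1.55737 1.55738 0.5307 0.55194 hk1 hk2 (by linarith) (by norm_num) (by norm_num)
    (expn_ge (by norm_num) (by norm_num)) (expn_le (by norm_num) (by norm_num) (by norm_num)) (by norm_num)
    (by norm_num) (by norm_num) (by norm_num) (by norm_num) (by norm_num) (by norm_num)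
  have hy2 : sy κ t ≤ 0.458 := syR_le h 1.25 1.3 1.2 0.458 1.5809 0.5513 0.55696 0.57925 hk1 hk2 (by linarith) (by norm_num) (by norm_num)
    (expn_ge (by norm_num) (by norm_num)) (by norm_num) (by norm_num) (Or.inr ((mul_le_mul_of_nonneg_left (expn_le (E := 1.58091) (by norm_num) (by norm_num) (by norm_num)) (by norm_num)).trans (by norm_num))) (by norm_num) (by norm_num) (by norm_num)
  exact ⟨hy1, hy2⟩

private theorem yB6 {κ t : ℝ} (h : DomR κ t) (hk1 : 1.25 ≤ κ) (hk2 : κ ≤ 1.3) (ht1 : -0.9174 ≤ t + κ) (ht2 : t + κ ≤ -0.89439) :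
    (-0.464) ≤ sy κ t ∧ sy κ t ≤ (-0.442) := by
  have hy1 : -0.464 ≤ sy κ t := syL_ge h 1.25 1.3 0.9174 0.464 0.62876 0.62877 0.2221 0.22441 0.2334 hk1 hk2 (by linarith) (by norm_num) (by norm_num) (by norm_num)
    (expm_ge (by norm_num) (by norm_num) (by norm_num) (by norm_num)) (expm_le (by norm_num) (by norm_num) (by norm_num)) (by norm_num)
    (by norm_num) (by norm_num) (by norm_num) (by norm_num) (by norm_num) (by norm_num)
  have hy2 : sy κ t ≤ -0.442 := syL_le h 1.25 1.3 0.89439 0.442 0.64274 0.64275 0.21853 0.22728 hk1 hk2 (by linarith) (by norm_num) (by norm_num) (by norm_num)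
    (expm_ge (by norm_num) (by norm_num) (by norm_num) (by norm_num)) (expm_le (by norm_num) (by norm_num) (by norm_num)) (by norm_num)
    (by norm_num) (by norm_num) (by norm_num) (by norm_num) (by norm_num) (by norm_num)
  exact ⟨hy1, hy2⟩

theorem pc6 {β r h t κ : ℝ} (hh : h = 2 * Real.pi / (3 : ℕ)) (hβ : 0 < β) (hr : 10 ≤ r) (hκ : κ = β * r)
    (hk1 : 1.25 ≤ κ) (hk2 : κ ≤ 1.3) (hT1 : 1.177 ≤ t + κ) (hT2 : t + κ ≤ 1.2) :
    Xf β r h t 0 ≠ 0 ∧ r * 0.0773 ≤ (Ld β r h t 1 - Ld β r h t 0).im ∧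
      ‖(((-1 : ℤ) : ℂ) - 1) * Ld β r h t 0 - ((-1 : ℤ) : ℂ) * Ld β r h t 1‖ ≤ r * 5.31 := by
  obtain ⟨q1, q2, q3⟩ := b3_h hh
  have hR0 := b3_R0 hβ hr hκ
  have hR := b3_R hβ hr hκ (by linarith)
  have hD1 : DomR κ t := b3_dom (by linarith) (by linarith) (Or.inl (by linarith))
  have hD0 : DomR κ (t - h) := b3_dom (by linarith) (by linarith) (Or.inl (by linarith))
  have y1 := yA6 hD1 hk1 hk2 (by linarith) (by linarith)
  have y0 := yB6 hD0 hk1 hk2 (by linarith) (by linarith)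
  have j1 := T3_26_d1_3 hD1 hβ hk1 hk2 (by linarith) (by linarith) hR0 hR
  exact b3_piece 1.25 1.3 0.443 0.458 0.451 0.63699 0.64211 0.63255 0.8348 2.5301 2.5923 0.08 0.195 0.195 3.028 1.5892 0 0 (-0.464) (-0.442) (-0.453) 1.57302 1.59043 2.0676 3.8971 0.1 0.28 0.17 3.3735 3.5333 0 0 0.0773 5.31
    hβ hr hκ (by norm_num) hk1 hk2 hD1 hD0 j1 (j1 _ (by rw [sub_self, norm_zero]; norm_num))
    (T3_26_d0_3 hD0 hβ hk1 hk2 (by linarith) (by linarith) hR0 hR)
    (T3_26_p0 hD0 hβ hk1 hk2 (by linarith) (by linarith) hR0 hR)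
    y1.1 y1.2 y0.1 y0.2 (by norm_num)
    (ex_um 0.443 (by norm_num) (by norm_num) (by norm_num) (by norm_num)) (ex_um 0.458 (by norm_num) (by norm_num) (by norm_num) (by norm_num)) (ex_lm 0.451 (by norm_num) (by norm_num) (by norm_num) (by norm_num) (by norm_num)) (by norm_num) (by norm_num) (by norm_num) (by norm_num) (by norm_num) (by norm_num) (by norm_num) (by norm_num)
    (by norm_num) (by norm_num) (by norm_num) (by norm_num) (by norm_num) (by norm_num) (by norm_num) (by norm_num) (by norm_num) (by norm_num)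
    (ex_up 0.464 (by norm_num) (by norm_num) (by norm_num) (by norm_num)) (ex_lp 0.453 (by norm_num) (by norm_num) (by norm_num)) (by norm_num) (by norm_num) (by norm_num) (by norm_num) (by norm_num) (by norm_num)
    (by norm_num) (by norm_num) (by norm_num) (by norm_num) (by norm_num) (by norm_num) (by norm_num) (by norm_num) (by norm_num) (by norm_num) (by norm_num)
    (by norm_num) (by norm_num) (by norm_num) (by norm_num)

private theorem yA7 {κ t : ℝ} (h : DomR κ t) (hk1 : 1.25 ≤ κ) (hk2 : κ ≤ 1.3) (ht1 : 1.2 ≤ t + κ) (ht2 : t + κ ≤ 1.224) :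
    0.449 ≤ sy κ t ∧ sy κ t ≤ 0.465 := by
  have hy1 : 0.449 ≤ sy κ t := syR_ge h 1.25 1.3 1.2 0.449 1.56674 1.56675 0.54112 0.56278 hk1 hk2 (by linarith) (by norm_num) (by norm_num)
    (expn_ge (by norm_num) (by norm_num)) (expn_le (by norm_num) (by norm_num) (by norm_num)) (by norm_num)
    (by norm_num) (by norm_num) (by norm_num) (by norm_num) (by norm_num) (by norm_num)
  have hy2 : sy κ t ≤ 0.465 := syR_le h 1.25 1.3 1.224 0.465 1.59201 0.5637 0.56944 0.59224 hk1 hk2 (by linarith) (by norm_num) (by norm_num)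
    (expn_ge (by norm_num) (by norm_num)) (by norm_num) (by norm_num) (Or.inr ((mul_le_mul_of_nonneg_left (expn_le (E := 1.59202) (by norm_num) (by norm_num) (by norm_num)) (by norm_num)).trans (by norm_num))) (by norm_num) (by norm_num) (by norm_num)
  exact ⟨hy1, hy2⟩

private theorem yB7 {κ t : ℝ} (h : DomR κ t) (hk1 : 1.25 ≤ κ) (hk2 : κ ≤ 1.3) (ht1 : -0.8944 ≤ t + κ) (ht2 : t + κ ≤ -0.87039) :
    (-0.453) ≤ sy κ t ∧ sy κ t ≤ (-0.43) := by
  have hy1 : -0.453 ≤ sy κ t := syL_ge h 1.25 1.3 0.8944 0.453 0.63571 0.63572 0.2193 0.22152 0.23039 hk1 hk2 (by linarith) (by norm_num) (by norm_num) (by norm_num)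
    (expm_ge (by norm_num) (by norm_num) (by norm_num) (by norm_num)) (expm_le (by norm_num) (by norm_num) (by norm_num)) (by norm_num)
    (by norm_num) (by norm_num) (by norm_num) (by norm_num) (by norm_num) (by norm_num)
  have hy2 : sy κ t ≤ -0.43 := syL_le h 1.25 1.3 0.87039 0.43 0.6505 0.65051 0.21516 0.22378 hk1 hk2 (by linarith) (by norm_num) (by norm_num) (by norm_num)
    (expm_ge (by norm_num) (by norm_num) (by norm_num) (by norm_num)) (expm_le (by norm_num) (by norm_num) (by norm_num)) (by norm_num)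
    (by norm_num) (by norm_num) (by norm_num) (by norm_num) (by norm_num) (by norm_num)
  exact ⟨hy1, hy2⟩

theorem pc7 {β r h t κ : ℝ} (hh : h = 2 * Real.pi / (3 : ℕ)) (hβ : 0 < β) (hr : 10 ≤ r) (hκ : κ = β * r)
    (hk1 : 1.25 ≤ κ) (hk2 : κ ≤ 1.3) (hT1 : 1.2 ≤ t + κ) (hT2 : t + κ ≤ 1.224) :
    Xf β r h t 0 ≠ 0 ∧ r * 0.0773 ≤ (Ld β r h t 1 - Ld β r h t 0).im ∧
      ‖(((-1 : ℤ) : ℂ) - 1) * Ld β r h t 0 - ((-1 : ℤ) : ℂ) * Ld β r h t 1‖ ≤ r * 5.31 := by
  obtain ⟨q1, q2, q3⟩ := b3_h hh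
  have hR0 := b3_R0 hβ hr hκ
  have hR := b3_R hβ hr hκ (by linarith)
  have hD1 : DomR κ t := b3_dom (by linarith) (by linarith) (Or.inl (by linarith))
  have hD0 : DomR κ (t - h) := b3_dom (by linarith) (by linarith) (Or.inl (by linarith))
  have y1 := yA7 hD1 hk1 hk2 (by linarith) (by linarith)
  have y0 := yB7 hD0 hk1 hk2 (by linarith) (by linarith)
  have j1 := T3_26_d1_3 hD1 hβ hk1 hk2 (by linarith) (by linarith) hR0 hR
  exact b3_piece 1.25 1.3 0.449 0.465 0.457 0.63318 0.63827 0.62814 0.8298 2.5344 2.5969 0.08 0.195 0.195 3.028 1.5784 0 0 (-0.453) (-0.43) (-0.442) 1.55581 1.57303 2.045 3.8313 0.1 0.28 0.17 3.3735 3.5246 0 0 0.0773 5.31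
    hβ hr hκ (by norm_num) hk1 hk2 hD1 hD0 j1 (j1 _ (by rw [sub_self, norm_zero]; norm_num))
    (T3_26_d0_3 hD0 hβ hk1 hk2 (by linarith) (by linarith) hR0 hR)
    (T3_26_p0 hD0 hβ hk1 hk2 (by linarith) (by linarith) hR0 hR)
    y1.1 y1.2 y0.1 y0.2 (by norm_num)
    (ex_um 0.449 (by norm_num) (by norm_num) (by norm_num) (by norm_num)) (ex_um 0.465 (by norm_num) (by norm_num) (by norm_num) (by norm_num)) (ex_lm 0.457 (by norm_num) (by norm_num) (by norm_num) (by norm_num) (by norm_num)) (by norm_num) (by norm_num) (by norm_num) (by norm_num) (by norm_num) (by norm_num) (by norm_num) (by norm_num)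
    (by norm_num) (by norm_num) (by norm_num) (by norm_num) (by norm_num) (by norm_num) (by norm_num) (by norm_num) (by norm_num) (by norm_num)
    (ex_up 0.453 (by norm_num) (by norm_num) (by norm_num) (by norm_num)) (ex_lp 0.442 (by norm_num) (by norm_num) (by norm_num)) (by norm_num) (by norm_num) (by norm_num) (by norm_num) (by norm_num) (by norm_num)
    (by norm_num) (by norm_num) (by norm_num) (by norm_num) (by norm_num) (by norm_num) (by norm_num) (by norm_num) (by norm_num) (by norm_num) (by norm_num)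
    (by norm_num) (by norm_num) (by norm_num) (by norm_num)

private theorem yA8 {κ t : ℝ} (h : DomR κ t) (hk1 : 1.25 ≤ κ) (hk2 : κ ≤ 1.3) (ht1 : 1.224 ≤ t + κ) (ht2 : t + κ ≤ 1.247) :
    0.455 ≤ sy κ t ∧ sy κ t ≤ 0.471 := by
  have hy1 : 0.455 ≤ sy κ t := syR_ge h 1.25 1.3 1.224 0.455 1.57617 1.57618 0.55165 0.57373 hk1 hk2 (by linarith) (by norm_num) (by norm_num)
    (expn_ge (by norm_num) (by norm_num)) (expn_le (by norm_num) (by norm_num) (by norm_num)) (by norm_num)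
    (by norm_num) (by norm_num) (by norm_num) (by norm_num) (by norm_num) (by norm_num)
  have hy2 : sy κ t ≤ 0.471 := syR_le h 1.25 1.3 1.247 0.471 1.60159 0.5744 0.58026 0.60349 hk1 hk2 (by linarith) (by norm_num) (by norm_num)
    (expn_ge (by norm_num) (by norm_num)) (by norm_num) (by norm_num) (Or.inr ((mul_le_mul_of_nonneg_left (expn_le (E := 1.6016) (by norm_num) (by norm_num) (by norm_num)) (by norm_num)).trans (by norm_num))) (by norm_num) (by norm_num) (by norm_num)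
  exact ⟨hy1, hy2⟩

private theorem yB8 {κ t : ℝ} (h : DomR κ t) (hk1 : 1.25 ≤ κ) (hk2 : κ ≤ 1.3) (ht1 : -0.8704 ≤ t + κ) (ht2 : t + κ ≤ -0.84739) :
    (-0.441) ≤ sy κ t ∧ sy κ t ≤ (-0.419) := by
  have hy1 : -0.441 ≤ sy κ t := syL_ge h 1.25 1.3 0.8704 0.441 0.64339 0.6434 0.2189 0.21825 0.227 hk1 hk2 (by linarith) (by norm_num) (by norm_num) (by norm_num)
    (expm_ge (by norm_num) (by norm_num) (by norm_num) (by norm_num)) (expm_le (by norm_num) (by norm_num) (by norm_num)) (by norm_num)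
    (by norm_num) (by norm_num) (by norm_num) (by norm_num) (by norm_num) (by norm_num)
  have hy2 : sy κ t ≤ -0.419 := syL_le h 1.25 1.3 0.84739 0.419 0.6577 0.65771 0.21198 0.22047 hk1 hk2 (by linarith) (by norm_num) (by norm_num) (by norm_num)
    (expm_ge (by norm_num) (by norm_num) (by norm_num) (by norm_num)) (expm_le (by norm_num) (by norm_num) (by norm_num)) (by norm_num)
    (by norm_num) (by norm_num) (by norm_num) (by norm_num) (by norm_num) (by norm_num)
  exact ⟨hy1, hy2⟩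

theorem pc8 {β r h t κ : ℝ} (hh : h = 2 * Real.pi / (3 : ℕ)) (hβ : 0 < β) (hr : 10 ≤ r) (hκ : κ = β * r)
    (hk1 : 1.25 ≤ κ) (hk2 : κ ≤ 1.3) (hT1 : 1.224 ≤ t + κ) (hT2 : t + κ ≤ 1.247) :
    Xf β r h t 0 ≠ 0 ∧ r * 0.0773 ≤ (Ld β r h t 1 - Ld β r h t 0).im ∧
      ‖(((-1 : ℤ) : ℂ) - 1) * Ld β r h t 0 - ((-1 : ℤ) : ℂ) * Ld β r h t 1‖ ≤ r * 5.31 := by
  obtain ⟨q1, q2, q3⟩ := b3_h hh
  have hR0 := b3_R0 hβ hr hκ
  have hR := b3_R hβ hr hκ (by linarith)
  have hD1 : DomR κ t := b3_dom (by linarith) (by linarith) (Or.inl (by linarith))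
  have hD0 : DomR κ (t - h) := b3_dom (by linarith) (by linarith) (Or.inl (by linarith))
  have y1 := yA8 hD1 hk1 hk2 (by linarith) (by linarith)
  have y0 := yB8 hD0 hk1 hk2 (by linarith) (by linarith)
  have j1 := T3_26_d1_3 hD1 hβ hk1 hk2 (by linarith) (by linarith) hR0 hR
  exact b3_piece 1.25 1.3 0.455 0.471 0.463 0.62939 0.63445 0.62438 0.8248 2.5388 2.6009 0.08 0.195 0.195 3.028 1.5675 0 0 (-0.441) (-0.419) (-0.43) 1.53725 1.55427 2.0206 3.7731 0.1 0.28 0.17 3.3735 3.5093 0 0 0.0773 5.31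
    hβ hr hκ (by norm_num) hk1 hk2 hD1 hD0 j1 (j1 _ (by rw [sub_self, norm_zero]; norm_num))
    (T3_26_d0_3 hD0 hβ hk1 hk2 (by linarith) (by linarith) hR0 hR)
    (T3_26_p0 hD0 hβ hk1 hk2 (by linarith) (by linarith) hR0 hR)
    y1.1 y1.2 y0.1 y0.2 (by norm_num)
    (ex_um 0.455 (by norm_num) (by norm_num) (by norm_num) (by norm_num)) (ex_um 0.471 (by norm_num) (by norm_num) (by norm_num) (by norm_num)) (ex_lm 0.463 (by norm_num) (by norm_num) (by norm_num) (by norm_num) (by norm_num)) (by norm_num) (by norm_num) (by norm_num) (by norm_num) (by norm_num) (by norm_num) (by norm_num) (by norm_num)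
    (by norm_num) (by norm_num) (by norm_num) (by norm_num) (by norm_num) (by norm_num) (by norm_num) (by norm_num) (by norm_num) (by norm_num)
    (ex_up 0.441 (by norm_num) (by norm_num) (by norm_num) (by norm_num)) (ex_lp 0.43 (by norm_num) (by norm_num) (by norm_num)) (by norm_num) (by norm_num) (by norm_num) (by norm_num) (by norm_num) (by norm_num)
    (by norm_num) (by norm_num) (by norm_num) (by norm_num) (by norm_num) (by norm_num) (by norm_num) (by norm_num) (by norm_num) (by norm_num) (by norm_num)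
    (by norm_num) (by norm_num) (by norm_num) (by norm_num)

private theorem yA9 {κ t : ℝ} (h : DomR κ t) (hk1 : 1.25 ≤ κ) (hk2 : κ ≤ 1.3) (ht1 : 1.247 ≤ t + κ) (ht2 : t + κ ≤ 1.274) :
    0.461 ≤ sy κ t ∧ sy κ t ≤ 0.478 := by
  have hy1 : 0.461 ≤ sy κ t := syR_ge h 1.25 1.3 1.247 0.461 1.58565 1.58566 0.56229 0.5848 hk1 hk2 (by linarith) (by norm_num) (by norm_num)
    (expn_ge (by norm_num) (by norm_num)) (expn_le (by norm_num) (by norm_num) (by norm_num)) (by norm_num)
    (by norm_num) (by norm_num) (by norm_num) (by norm_num) (by norm_num) (by norm_num)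
  have hy2 : sy κ t ≤ 0.478 := syR_le h 1.25 1.3 1.274 0.478 1.61284 0.587 0.59302 0.61676 hk1 hk2 (by linarith) (by norm_num) (by norm_num)
    (expn_ge (by norm_num) (by norm_num)) (by norm_num) (by norm_num) (Or.inr ((mul_le_mul_of_nonneg_left (expn_le (E := 1.61285) (by norm_num) (by norm_num) (by norm_num)) (by norm_num)).trans (by norm_num))) (by norm_num) (by norm_num) (by norm_num)
  exact ⟨hy1, hy2⟩

private theorem yB9 {κ t : ℝ} (h : DomR κ t) (hk1 : 1.25 ≤ κ) (hk2 : κ ≤ 1.3) (ht1 : -0.8474 ≤ t + κ) (ht2 : t + κ ≤ -0.82039) :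
    (-0.43) ≤ sy κ t ∧ sy κ t ≤ (-0.407) := by
  have hy1 : -0.43 ≤ sy κ t := syL_ge h 1.25 1.3 0.8474 0.43 0.6505 0.65051 0.213 0.21516 0.22378 hk1 hk2 (by linarith) (by norm_num) (by norm_num) (by norm_num)
    (expm_ge (by norm_num) (by norm_num) (by norm_num) (by norm_num)) (expm_le (by norm_num) (by norm_num) (by norm_num)) (by norm_num)
    (by norm_num) (by norm_num) (by norm_num) (by norm_num) (by norm_num) (by norm_num)
  have hy2 : sy κ t ≤ -0.407 := syL_le h 1.25 1.3 0.82039 0.407 0.66564 0.66565 0.20839 0.21674 hk1 hk2 (by linarith) (by norm_num) (by norm_num) (by norm_num)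
    (expm_ge (by norm_num) (by norm_num) (by norm_num) (by norm_num)) (expm_le (by norm_num) (by norm_num) (by norm_num)) (by norm_num)
    (by norm_num) (by norm_num) (by norm_num) (by norm_num) (by norm_num) (by norm_num)
  exact ⟨hy1, hy2⟩

theorem pc9 {β r h t κ : ℝ} (hh : h = 2 * Real.pi / (3 : ℕ)) (hβ : 0 < β) (hr : 10 ≤ r) (hκ : κ = β * r)
    (hk1 : 1.25 ≤ κ) (hk2 : κ ≤ 1.3) (hT1 : 1.247 ≤ t + κ) (hT2 : t + κ ≤ 1.274) :
    Xf β r h t 0 ≠ 0 ∧ r * 0.0773 ≤ (Ld β r h t 1 - Ld β r h t 0).im ∧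
      ‖(((-1 : ℤ) : ℂ) - 1) * Ld β r h t 0 - ((-1 : ℤ) : ℂ) * Ld β r h t 1‖ ≤ r * 5.31 := by
  obtain ⟨q1, q2, q3⟩ := b3_h hh
  have hR0 := b3_R0 hβ hr hκ
  have hR := b3_R hβ hr hκ (by linarith)
  have hD1 : DomR κ t := b3_dom (by linarith) (by linarith) (Or.inl (by linarith))
  have hD0 : DomR κ (t - h) := b3_dom (by linarith) (by linarith) (Or.inl (by linarith))
  have y1 := yA9 hD1 hk1 hk2 (by linarith) (by linarith)
  have y0 := yB9 hD0 hk1 hk2 (by linarith) (by linarith)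
  have j1 := T3_26_d1_4 hD1 hβ hk1 hk2 (by linarith) (by linarith) hR0 hR
  exact b3_piece 1.25 1.3 0.461 0.478 0.469 0.62562 0.63066 0.62003 0.8199 2.5433 2.6057 0.05 0.2 0.2 5 2.5706 0 0 (-0.43) (-0.407) (-0.418) 1.51892 1.53726 1.9985 3.7115 0.1 0.26 0.17 3.1326 3.2497 0 0 0.0773 5.31
    hβ hr hκ (by norm_num) hk1 hk2 hD1 hD0 j1 (j1 _ (by rw [sub_self, norm_zero]; norm_num))
    (T3_26_d0_4 hD0 hβ hk1 hk2 (by linarith) (by linarith) hR0 hR)
    (T3_26_p0 hD0 hβ hk1 hk2 (by linarith) (by linarith) hR0 hR)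
    y1.1 y1.2 y0.1 y0.2 (by norm_num)
    (ex_um 0.461 (by norm_num) (by norm_num) (by norm_num) (by norm_num)) (ex_um 0.478 (by norm_num) (by norm_num) (by norm_num) (by norm_num)) (ex_lm 0.469 (by norm_num) (by norm_num) (by norm_num) (by norm_num) (by norm_num)) (by norm_num) (by norm_num) (by norm_num) (by norm_num) (by norm_num) (by norm_num) (by norm_num) (by norm_num)
    (by norm_num) (by norm_num) (by norm_num) (by norm_num) (by norm_num) (by norm_num) (by norm_num) (by norm_num) (by norm_num) (by norm_num)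
    (ex_up 0.43 (by norm_num) (by norm_num) (by norm_num) (by norm_num)) (ex_lp 0.418 (by norm_num) (by norm_num) (by norm_num)) (by norm_num) (by norm_num) (by norm_num) (by norm_num) (by norm_num) (by norm_num)
    (by norm_num) (by norm_num) (by norm_num) (by norm_num) (by norm_num) (by norm_num) (by norm_num) (by norm_num) (by norm_num) (by norm_num) (by norm_num)
    (by norm_num) (by norm_num) (by norm_num) (by norm_num)

private theorem yA10 {κ t : ℝ} (h : DomR κ t) (hk1 : 1.25 ≤ κ) (hk2 : κ ≤ 1.3) (ht1 : 1.274 ≤ t + κ) (ht2 : t + κ ≤ 1.301) :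
    0.468 ≤ sy κ t ∧ sy κ t ≤ 0.485 := by
  have hy1 : 0.468 ≤ sy κ t := syR_ge h 1.25 1.3 1.274 0.468 1.59679 1.5968 0.57484 0.59785 hk1 hk2 (by linarith) (by norm_num) (by norm_num)
    (expn_ge (by norm_num) (by norm_num)) (expn_le (by norm_num) (by norm_num) (by norm_num)) (by norm_num)
    (by norm_num) (by norm_num) (by norm_num) (by norm_num) (by norm_num) (by norm_num)
  have hy2 : sy κ t ≤ 0.485 := syR_le h 1.25 1.3 1.301 0.485 1.62417 0.5998 0.60594 0.63019 hk1 hk2 (by linarith) (by norm_num) (by norm_num)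
    (expn_ge (by norm_num) (by norm_num)) (by norm_num) (by norm_num) (Or.inr ((mul_le_mul_of_nonneg_left (expn_le (E := 1.62418) (by norm_num) (by norm_num) (by norm_num)) (by norm_num)).trans (by norm_num))) (by norm_num) (by norm_num) (by norm_num)
  exact ⟨hy1, hy2⟩

private theorem yB10 {κ t : ℝ} (h : DomR κ t) (hk1 : 1.25 ≤ κ) (hk2 : κ ≤ 1.3) (ht1 : -0.8204 ≤ t + κ) (ht2 : t + κ ≤ -0.79339) :
    (-0.417) ≤ sy κ t ∧ sy κ t ≤ (-0.394) := by
  have hy1 : -0.417 ≤ sy κ t := syL_ge h 1.25 1.3 0.8204 0.417 0.65902 0.65903 0.2092 0.21139 0.21986 hk1 hk2 (by linarith) (by norm_num) (by norm_num) (by norm_num)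
    (expm_ge (by norm_num) (by norm_num) (by norm_num) (by norm_num)) (expm_le (by norm_num) (by norm_num) (by norm_num)) (by norm_num)
    (by norm_num) (by norm_num) (by norm_num) (by norm_num) (by norm_num) (by norm_num)
  have hy2 : sy κ t ≤ -0.394 := syL_le h 1.25 1.3 0.79339 0.394 0.67435 0.67436 0.20437 0.21256 hk1 hk2 (by linarith) (by norm_num) (by norm_num) (by norm_num)
    (expm_ge (by norm_num) (by norm_num) (by norm_num) (by norm_num)) (expm_le (by norm_num) (by norm_num) (by norm_num)) (by norm_num)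
    (by norm_num) (by norm_num) (by norm_num) (by norm_num) (by norm_num) (by norm_num)
  exact ⟨hy1, hy2⟩

theorem pc10 {β r h t κ : ℝ} (hh : h = 2 * Real.pi / (3 : ℕ)) (hβ : 0 < β) (hr : 10 ≤ r) (hκ : κ = β * r)
    (hk1 : 1.25 ≤ κ) (hk2 : κ ≤ 1.3) (hT1 : 1.274 ≤ t + κ) (hT2 : t + κ ≤ 1.301) :
    Xf β r h t 0 ≠ 0 ∧ r * 0.0773 ≤ (Ld β r h t 1 - Ld β r h t 0).im ∧
      ‖(((-1 : ℤ) : ℂ) - 1) * Ld β r h t 0 - ((-1 : ℤ) : ℂ) * Ld β r h t 1‖ ≤ r * 5.31 := by
  obtain ⟨q1, q2, q3⟩ := b3_h hh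
  have hR0 := b3_R0 hβ hr hκ
  have hR := b3_R hβ hr hκ (by linarith)
  have hD1 : DomR κ t := b3_dom (by linarith) (by linarith) (Or.inl (by linarith))
  have hD0 : DomR κ (t - h) := b3_dom (by linarith) (by linarith) (Or.inl (by linarith))
  have y1 := yA10 hD1 hk1 hk2 (by linarith) (by linarith)
  have y0 := yB10 hD0 hk1 hk2 (by linarith) (by linarith)
  have j1 := T3_26_d1_4 hD1 hβ hk1 hk2 (by linarith) (by linarith) hR0 hR
  exact b3_piece 1.25 1.3 0.468 0.485 0.476 0.62126 0.62626 0.6157 0.8142 2.5487 2.6107 0.05 0.2 0.2 5 2.5501 0 0 (-0.417) (-0.394) (-0.406) 1.5008 1.51741 1.9727 3.6469 0.1 0.26 0.17 3.1326 3.236 0 0 0.0773 5.31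
    hβ hr hκ (by norm_num) hk1 hk2 hD1 hD0 j1 (j1 _ (by rw [sub_self, norm_zero]; norm_num))
    (T3_26_d0_4 hD0 hβ hk1 hk2 (by linarith) (by linarith) hR0 hR)
    (T3_26_p0 hD0 hβ hk1 hk2 (by linarith) (by linarith) hR0 hR)
    y1.1 y1.2 y0.1 y0.2 (by norm_num)
    (ex_um 0.468 (by norm_num) (by norm_num) (by norm_num) (by norm_num)) (ex_um 0.485 (by norm_num) (by norm_num) (by norm_num) (by norm_num)) (ex_lm 0.476 (by norm_num) (by norm_num) (by norm_num) (by norm_num) (by norm_num)) (by norm_num) (by norm_num) (by norm_num) (by norm_num) (by norm_num) (by norm_num) (by norm_num) (by norm_num)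
    (by norm_num) (by norm_num) (by norm_num) (by norm_num) (by norm_num) (by norm_num) (by norm_num) (by norm_num) (by norm_num) (by norm_num)
    (ex_up 0.417 (by norm_num) (by norm_num) (by norm_num) (by norm_num)) (ex_lp 0.406 (by norm_num) (by norm_num) (by norm_num)) (by norm_num) (by norm_num) (by norm_num) (by norm_num) (by norm_num) (by norm_num)
    (by norm_num) (by norm_num) (by norm_num) (by norm_num) (by norm_num) (by norm_num) (by norm_num) (by norm_num) (by norm_num) (by norm_num) (by norm_num)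
    (by norm_num) (by norm_num) (by norm_num) (by norm_num)

private theorem yA11 {κ t : ℝ} (h : DomR κ t) (hk1 : 1.25 ≤ κ) (hk2 : κ ≤ 1.3) (ht1 : 1.301 ≤ t + κ) (ht2 : t + κ ≤ 1.328) :
    0.474 ≤ sy κ t ∧ sy κ t ≤ 0.492 := by
  have hy1 : 0.474 ≤ sy κ t := syR_ge h 1.25 1.3 1.301 0.474 1.6064 1.60641 0.58571 0.60916 hk1 hk2 (by linarith) (by norm_num) (by norm_num)
    (expn_ge (by norm_num) (by norm_num)) (expn_le (by norm_num) (by norm_num) (by norm_num)) (by norm_num)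
    (by norm_num) (by norm_num) (by norm_num) (by norm_num) (by norm_num) (by norm_num)
  have hy2 : sy κ t ≤ 0.492 := syR_le h 1.25 1.3 1.328 0.492 1.63558 0.6128 0.619 0.64377 hk1 hk2 (by linarith) (by norm_num) (by norm_num)
    (expn_ge (by norm_num) (by norm_num)) (by norm_num) (by norm_num) (Or.inr ((mul_le_mul_of_nonneg_left (expn_le (E := 1.63559) (by norm_num) (by norm_num) (by norm_num)) (by norm_num)).trans (by norm_num))) (by norm_num) (by norm_num) (by norm_num)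
  exact ⟨hy1, hy2⟩

private theorem yB11 {κ t : ℝ} (h : DomR κ t) (hk1 : 1.25 ≤ κ) (hk2 : κ ≤ 1.3) (ht1 : -0.7934 ≤ t + κ) (ht2 : t + κ ≤ -0.76639) :
    (-0.404) ≤ sy κ t ∧ sy κ t ≤ (-0.381) := by
  have hy1 : -0.404 ≤ sy κ t := syL_ge h 1.25 1.3 0.7934 0.404 0.66764 0.66765 0.2054 0.20748 0.21579 hk1 hk2 (by linarith) (by norm_num) (by norm_num) (by norm_num)
    (expm_ge (by norm_num) (by norm_num) (by norm_num) (by norm_num)) (expm_le (by norm_num) (by norm_num) (by norm_num)) (by norm_num)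
    (by norm_num) (by norm_num) (by norm_num) (by norm_num) (by norm_num) (by norm_num)
  have hy2 : sy κ t ≤ -0.381 := syL_le h 1.25 1.3 0.76639 0.381 0.68317 0.68318 0.20022 0.20824 hk1 hk2 (by linarith) (by norm_num) (by norm_num) (by norm_num)
    (expm_ge (by norm_num) (by norm_num) (by norm_num) (by norm_num)) (expm_le (by norm_num) (by norm_num) (by norm_num)) (by norm_num)
    (by norm_num) (by norm_num) (by norm_num) (by norm_num) (by norm_num) (by norm_num)
  exact ⟨hy1, hy2⟩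

theorem pc11 {β r h t κ : ℝ} (hh : h = 2 * Real.pi / (3 : ℕ)) (hβ : 0 < β) (hr : 10 ≤ r) (hκ : κ = β * r)
    (hk1 : 1.25 ≤ κ) (hk2 : κ ≤ 1.3) (hT1 : 1.301 ≤ t + κ) (hT2 : t + κ ≤ 1.328) :
    Xf β r h t 0 ≠ 0 ∧ r * 0.0773 ≤ (Ld β r h t 1 - Ld β r h t 0).im ∧
      ‖(((-1 : ℤ) : ℂ) - 1) * Ld β r h t 0 - ((-1 : ℤ) : ℂ) * Ld β r h t 1‖ ≤ r * 5.31 := by
  obtain ⟨q1, q2, q3⟩ := b3_h hh
  have hR0 := b3_R0 hβ hr hκ
  have hR := b3_R hβ hr hκ (by linarith)
  have hD1 : DomR κ t := b3_dom (by linarith) (by linarith) (Or.inl (by linarith))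
  have hD0 : DomR κ (t - h) := b3_dom (by linarith) (by linarith) (Or.inl (by linarith))
  have y1 := yA11 hD1 hk1 hk2 (by linarith) (by linarith)
  have y0 := yB11 hD0 hk1 hk2 (by linarith) (by linarith)
  have j1 := T3_26_d1_4 hD1 hβ hk1 hk2 (by linarith) (by linarith) hR0 hR
  exact b3_piece 1.25 1.3 0.474 0.492 0.483 0.61692 0.62251 0.61141 0.8093 2.5533 2.6158 0.05 0.2 0.2 5 2.5324 0 0 (-0.404) (-0.381) (-0.393) 1.48141 1.49781 1.9472 3.5847 0.1 0.26 0.17 3.1326 3.2218 0 0 0.0773 5.31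
    hβ hr hκ (by norm_num) hk1 hk2 hD1 hD0 j1 (j1 _ (by rw [sub_self, norm_zero]; norm_num))
    (T3_26_d0_4 hD0 hβ hk1 hk2 (by linarith) (by linarith) hR0 hR)
    (T3_26_p0 hD0 hβ hk1 hk2 (by linarith) (by linarith) hR0 hR)
    y1.1 y1.2 y0.1 y0.2 (by norm_num)
    (ex_um 0.474 (by norm_num) (by norm_num) (by norm_num) (by norm_num)) (ex_um 0.492 (by norm_num) (by norm_num) (by norm_num) (by norm_num)) (ex_lm 0.483 (by norm_num) (by norm_num) (by norm_num) (by norm_num) (by norm_num)) (by norm_num) (by norm_num) (by norm_num) (by norm_num) (by norm_num) (by norm_num) (by norm_num) (by norm_num)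
    (by norm_num) (by norm_num) (by norm_num) (by norm_num) (by norm_num) (by norm_num) (by norm_num) (by norm_num) (by norm_num) (by norm_num)
    (ex_up 0.404 (by norm_num) (by norm_num) (by norm_num) (by norm_num)) (ex_lp 0.393 (by norm_num) (by norm_num) (by norm_num)) (by norm_num) (by norm_num) (by norm_num) (by norm_num) (by norm_num) (by norm_num)
    (by norm_num) (by norm_num) (by norm_num) (by norm_num) (by norm_num) (by norm_num) (by norm_num) (by norm_num) (by norm_num) (by norm_num) (by norm_num)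
    (by norm_num) (by norm_num) (by norm_num) (by norm_num)

private theorem yA12 {κ t : ℝ} (h : DomR κ t) (hk1 : 1.25 ≤ κ) (hk2 : κ ≤ 1.3) (ht1 : 1.328 ≤ t + κ) (ht2 : t + κ ≤ 1.355) :
    0.48 ≤ sy κ t ∧ sy κ t ≤ 0.499 := by
  have hy1 : 0.48 ≤ sy κ t := syR_ge h 1.25 1.3 1.328 0.48 1.61607 1.61608 0.5967 0.62058 hk1 hk2 (by linarith) (by norm_num) (by norm_num)
    (expn_ge (by norm_num) (by norm_num)) (expn_le (by norm_num) (by norm_num) (by norm_num)) (by norm_num)
    (by norm_num) (by norm_num) (by norm_num) (by norm_num) (by norm_num) (by norm_num)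
  have hy2 : sy κ t ≤ 0.499 := syR_le h 1.25 1.3 1.355 0.499 1.64707 0.6258 0.63222 0.65752 hk1 hk2 (by linarith) (by norm_num) (by norm_num)
    (expn_ge (by norm_num) (by norm_num)) (by norm_num) (by norm_num) (Or.inr ((mul_le_mul_of_nonneg_left (expn_le (E := 1.64708) (by norm_num) (by norm_num) (by norm_num)) (by norm_num)).trans (by norm_num))) (by norm_num) (by norm_num) (by norm_num)
  exact ⟨hy1, hy2⟩

private theorem yB12 {κ t : ℝ} (h : DomR κ t) (hk1 : 1.25 ≤ κ) (hk2 : κ ≤ 1.3) (ht1 : -0.7664 ≤ t + κ) (ht2 : t + κ ≤ -0.73939) :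
    (-0.39) ≤ sy κ t ∧ sy κ t ≤ (-0.368) := by
  have hy1 : -0.39 ≤ sy κ t := syL_ge h 1.25 1.3 0.7664 0.39 0.67705 0.67706 0.201 0.20311 0.21125 hk1 hk2 (by linarith) (by norm_num) (by norm_num) (by norm_num)
    (expm_ge (by norm_num) (by norm_num) (by norm_num) (by norm_num)) (expm_le (by norm_num) (by norm_num) (by norm_num)) (by norm_num)
    (by norm_num) (by norm_num) (by norm_num) (by norm_num) (by norm_num) (by norm_num)
  have hy2 : sy κ t ≤ -0.368 := syL_le h 1.25 1.3 0.73939 0.368 0.69211 0.69212 0.19592 0.20377 hk1 hk2 (by linarith) (by norm_num) (by norm_num) (by norm_num)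
    (expm_ge (by norm_num) (by norm_num) (by norm_num) (by norm_num)) (expm_le (by norm_num) (by norm_num) (by norm_num)) (by norm_num)
    (by norm_num) (by norm_num) (by norm_num) (by norm_num) (by norm_num) (by norm_num)
  exact ⟨hy1, hy2⟩

theorem pc12 {β r h t κ : ℝ} (hh : h = 2 * Real.pi / (3 : ℕ)) (hβ : 0 < β) (hr : 10 ≤ r) (hκ : κ = β * r)
    (hk1 : 1.25 ≤ κ) (hk2 : κ ≤ 1.3) (hT1 : 1.328 ≤ t + κ) (hT2 : t + κ ≤ 1.355) :
    Xf β r h t 0 ≠ 0 ∧ r * 0.0773 ≤ (Ld β r h t 1 - Ld β r h t 0).im ∧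
      ‖(((-1 : ℤ) : ℂ) - 1) * Ld β r h t 0 - ((-1 : ℤ) : ℂ) * Ld β r h t 1‖ ≤ r * 5.31 := by
  obtain ⟨q1, q2, q3⟩ := b3_h hh
  have hR0 := b3_R0 hβ hr hκ
  have hR := b3_R hβ hr hκ (by linarith)
  have hD1 : DomR κ t := b3_dom (by linarith) (by linarith) (Or.inl (by linarith))
  have hD0 : DomR κ (t - h) := b3_dom (by linarith) (by linarith) (Or.inl (by linarith))
  have y1 := yA12 hD1 hk1 hk2 (by linarith) (by linarith)
  have y0 := yB12 hD0 hk1 hk2 (by linarith) (by linarith)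
  have j1 := T3_26_d1_4 hD1 hβ hk1 hk2 (by linarith) (by linarith) hR0 hR
  exact b3_piece 1.25 1.3 0.48 0.499 0.489 0.61323 0.61879 0.60714 0.8045 2.5581 2.621 0.05 0.2 0.2 5 2.515 0 0 (-0.39) (-0.368) (-0.379) 1.46082 1.47699 1.9201 3.525 0.1 0.26 0.17 3.1326 3.2037 0 0 0.0773 5.31
    hβ hr hκ (by norm_num) hk1 hk2 hD1 hD0 j1 (j1 _ (by rw [sub_self, norm_zero]; norm_num))
    (T3_26_d0_4 hD0 hβ hk1 hk2 (by linarith) (by linarith) hR0 hR)
    (T3_26_p0 hD0 hβ hk1 hk2 (by linarith) (by linarith) hR0 hR)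
    y1.1 y1.2 y0.1 y0.2 (by norm_num)
    (ex_um 0.48 (by norm_num) (by norm_num) (by norm_num) (by norm_num)) (ex_um 0.499 (by norm_num) (by norm_num) (by norm_num) (by norm_num)) (ex_lm 0.489 (by norm_num) (by norm_num) (by norm_num) (by norm_num) (by norm_num)) (by norm_num) (by norm_num) (by norm_num) (by norm_num) (by norm_num) (by norm_num) (by norm_num) (by norm_num)
    (by norm_num) (by norm_num) (by norm_num) (by norm_num) (by norm_num) (by norm_num) (by norm_num) (by norm_num) (by norm_num) (by norm_num)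
    (ex_up 0.39 (by norm_num) (by norm_num) (by norm_num) (by norm_num)) (ex_lp 0.379 (by norm_num) (by norm_num) (by norm_num)) (by norm_num) (by norm_num) (by norm_num) (by norm_num) (by norm_num) (by norm_num)
    (by norm_num) (by norm_num) (by norm_num) (by norm_num) (by norm_num) (by norm_num) (by norm_num) (by norm_num) (by norm_num) (by norm_num) (by norm_num)
    (by norm_num) (by norm_num) (by norm_num) (by norm_num)

private theorem yA13 {κ t : ℝ} (h : DomR κ t) (hk1 : 1.25 ≤ κ) (hk2 : κ ≤ 1.3) (ht1 : 1.355 ≤ t + κ) (ht2 : t + κ ≤ 1.382) :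
    0.486 ≤ sy κ t ∧ sy κ t ≤ 0.505 := by
  have hy1 : 0.486 ≤ sy κ t := syR_ge h 1.25 1.3 1.355 0.486 1.62579 1.62581 0.60779 0.63212 hk1 hk2 (by linarith) (by norm_num) (by norm_num)
    (expn_ge (by norm_num) (by norm_num)) (expn_le (by norm_num) (by norm_num) (by norm_num)) (by norm_num)
    (by norm_num) (by norm_num) (by norm_num) (by norm_num) (by norm_num) (by norm_num)
  have hy2 : sy κ t ≤ 0.505 := syR_le h 1.25 1.3 1.382 0.505 1.65698 0.6372 0.64367 0.66943 hk1 hk2 (by linarith) (by norm_num) (by norm_num)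
    (expn_ge (by norm_num) (by norm_num)) (by norm_num) (by norm_num) (Or.inr ((mul_le_mul_of_nonneg_left (expn_le (E := 1.65699) (by norm_num) (by norm_num) (by norm_num)) (by norm_num)).trans (by norm_num))) (by norm_num) (by norm_num) (by norm_num)
  exact ⟨hy1, hy2⟩

private theorem yB13 {κ t : ℝ} (h : DomR κ t) (hk1 : 1.25 ≤ κ) (hk2 : κ ≤ 1.3) (ht1 : -0.7394 ≤ t + κ) (ht2 : t + κ ≤ -0.71239) :
    (-0.377) ≤ sy κ t ∧ sy κ t ≤ (-0.354) := by
  have hy1 : -0.377 ≤ sy κ t := syL_ge h 1.25 1.3 0.7394 0.377 0.68591 0.68592 0.1969 0.19891 0.20688 hk1 hk2 (by linarith) (by norm_num) (by norm_num) (by norm_num)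
    (expm_ge (by norm_num) (by norm_num) (by norm_num) (by norm_num)) (expm_le (by norm_num) (by norm_num) (by norm_num)) (by norm_num)
    (by norm_num) (by norm_num) (by norm_num) (by norm_num) (by norm_num) (by norm_num)
  have hy2 : sy κ t ≤ -0.354 := syL_le h 1.25 1.3 0.71239 0.354 0.70187 0.70188 0.19112 0.19878 hk1 hk2 (by linarith) (by norm_num) (by norm_num) (by norm_num)
    (expm_ge (by norm_num) (by norm_num) (by norm_num) (by norm_num)) (expm_le (by norm_num) (by norm_num) (by norm_num)) (by norm_num)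
    (by norm_num) (by norm_num) (by norm_num) (by norm_num) (by norm_num) (by norm_num)
  exact ⟨hy1, hy2⟩

theorem pc13 {β r h t κ : ℝ} (hh : h = 2 * Real.pi / (3 : ℕ)) (hβ : 0 < β) (hr : 10 ≤ r) (hκ : κ = β * r)
    (hk1 : 1.25 ≤ κ) (hk2 : κ ≤ 1.3) (hT1 : 1.355 ≤ t + κ) (hT2 : t + κ ≤ 1.382) :
    Xf β r h t 0 ≠ 0 ∧ r * 0.0773 ≤ (Ld β r h t 1 - Ld β r h t 0).im ∧
      ‖(((-1 : ℤ) : ℂ) - 1) * Ld β r h t 0 - ((-1 : ℤ) : ℂ) * Ld β r h t 1‖ ≤ r * 5.31 := by
  obtain ⟨q1, q2, q3⟩ := b3_h hh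
  have hR0 := b3_R0 hβ hr hκ
  have hR := b3_R hβ hr hκ (by linarith)
  have hD1 : DomR κ t := b3_dom (by linarith) (by linarith) (Or.inl (by linarith))
  have hD0 : DomR κ (t - h) := b3_dom (by linarith) (by linarith) (Or.inl (by linarith))
  have y1 := yA13 hD1 hk1 hk2 (by linarith) (by linarith)
  have y0 := yB13 hD0 hk1 hk2 (by linarith) (by linarith)
  have j1 := T3_26_d1_4 hD1 hβ hk1 hk2 (by linarith) (by linarith) hR0 hR
  exact b3_piece 1.25 1.3 0.486 0.505 0.495 0.60957 0.61509 0.60351 0.7997 2.563 2.6256 0.05 0.2 0.2 5 2.4976 0 0 (-0.377) (-0.354) (-0.365) 1.44051 1.45791 1.8953 3.4629 0.1 0.26 0.17 3.1326 3.1906 0 0 0.0773 5.31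
    hβ hr hκ (by norm_num) hk1 hk2 hD1 hD0 j1 (j1 _ (by rw [sub_self, norm_zero]; norm_num))
    (T3_26_d0_4 hD0 hβ hk1 hk2 (by linarith) (by linarith) hR0 hR)
    (T3_26_p0 hD0 hβ hk1 hk2 (by linarith) (by linarith) hR0 hR)
    y1.1 y1.2 y0.1 y0.2 (by norm_num)
    (ex_um 0.486 (by norm_num) (by norm_num) (by norm_num) (by norm_num)) (ex_um 0.505 (by norm_num) (by norm_num) (by norm_num) (by norm_num)) (ex_lm 0.495 (by norm_num) (by norm_num) (by norm_num) (by norm_num) (by norm_num)) (by norm_num) (by norm_num) (by norm_num) (by norm_num) (by norm_num) (by norm_num) (by norm_num) (by norm_num)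
    (by norm_num) (by norm_num) (by norm_num) (by norm_num) (by norm_num) (by norm_num) (by norm_num) (by norm_num) (by norm_num) (by norm_num)
    (ex_up 0.377 (by norm_num) (by norm_num) (by norm_num) (by norm_num)) (ex_lp 0.365 (by norm_num) (by norm_num) (by norm_num)) (by norm_num) (by norm_num) (by norm_num) (by norm_num) (by norm_num) (by norm_num)
    (by norm_num) (by norm_num) (by norm_num) (by norm_num) (by norm_num) (by norm_num) (by norm_num) (by norm_num) (by norm_num) (by norm_num) (by norm_num)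
    (by norm_num) (by norm_num) (by norm_num) (by norm_num)

theorem innS {β r h t κ : ℝ} (hh : h = 2 * Real.pi / (3 : ℕ)) (hβ : 0 < β) (hr : 10 ≤ r) (hκ : κ = β * r)
    (hk1 : 1.25 ≤ κ) (hk2 : κ ≤ 1.3) (hT1 : 1.047 ≤ t + κ) (hT2 : t + κ ≤ 1.382) :
    Xf β r h t 0 ≠ 0 ∧ r * 0.0773 ≤ (Ld β r h t 1 - Ld β r h t 0).im ∧
      ‖(((-1 : ℤ) : ℂ) - 1) * Ld β r h t 0 - ((-1 : ℤ) : ℂ) * Ld β r h t 1‖ ≤ r * 5.31 := by
  rcases le_total (t + κ) 1.067 with f0 | g0
  · exact pc0 hh hβ hr hκ hk1 hk2 hT1 f0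
  rcases le_total (t + κ) 1.087 with f1 | g1
  · exact pc1 hh hβ hr hκ hk1 hk2 g0 f1
  rcases le_total (t + κ) 1.107 with f2 | g2
  · exact pc2 hh hβ hr hκ hk1 hk2 g1 f2
  rcases le_total (t + κ) 1.127 with f3 | g3
  · exact pc3 hh hβ hr hκ hk1 hk2 g2 f3
  rcases le_total (t + κ) 1.152 with f4 | g4
  · exact pc4 hh hβ hr hκ hk1 hk2 g3 f4
  rcases le_total (t + κ) 1.177 with f5 | g5
  · exact pc5 hh hβ hr hκ hk1 hk2 g4 f5
  rcases le_total (t + κ) 1.2 with f6 | g6
  · exact pc6 hh hβ hr hκ hk1 hk2 g5 f6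
  rcases le_total (t + κ) 1.224 with f7 | g7
  · exact pc7 hh hβ hr hκ hk1 hk2 g6 f7
  rcases le_total (t + κ) 1.247 with f8 | g8
  · exact pc8 hh hβ hr hκ hk1 hk2 g7 f8
  rcases le_total (t + κ) 1.274 with f9 | g9
  · exact pc9 hh hβ hr hκ hk1 hk2 g8 f9
  rcases le_total (t + κ) 1.301 with f10 | g10
  · exact pc10 hh hβ hr hκ hk1 hk2 g9 f10
  rcases le_total (t + κ) 1.328 with f11 | g11
  · exact pc11 hh hβ hr hκ hk1 hk2 g10 f11
  rcases le_total (t + κ) 1.355 with f12 | g12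
  · exact pc12 hh hβ hr hκ hk1 hk2 g11 f12
  exact pc13 hh hβ hr hκ hk1 hk2 g12 hT2

theorem circ {p : ℤ} (hp : IsCoprime (3 : ℤ) p) {β r : ℝ} (hβ : 0 < β) (hr : 10 ≤ r) (hk1 : 1.25 ≤ β * r)
    (hk2 : β * r ≤ 1.3) : Circ (2 * Real.pi * p / (3 : ℕ) + β) r := by
  obtain ⟨κ, hκ⟩ : ∃ κ, κ = β * r := ⟨_, rfl⟩
  rw [← hκ] at hk1 hk2
  refine circ3 hp hr (h := 2 * Real.pi / (3 : ℕ)) (κ := κ) rfl 1.047 1.382 1.0078 0.0773 0.0027 0.00683 5.31 (by norm_num) (by norm_num) (by norm_num)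
    (by norm_num) (by norm_num) ?_ ?_ ?_ ?_ ?_ (by norm_num) (by norm_num)
  · intro t h1 h2
    exact (innS rfl hβ hr hκ hk1 hk2 h1 h2).1
  · intro t h1 h2
    exact (innE rfl hβ hr hκ hk1 hk2 h1 h2).1
  · intro t h1 h2
    exact (innE rfl hβ hr hκ hk1 hk2 h1 h2).2
  · intro t h1 h2
    exact (innS rfl hβ hr hκ hk1 hk2 h1 h2).2
  · intro t h1 h2 h3
    rcases h3 with h3 | h3
    · rcases le_total (t + κ) 1.035 with g | g
      · exact left rfl hβ hr hκ hk1 hk2 h1 g
      · exact middle rfl hβ hr hκ hk1 hk2 g h3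
    · rcases le_total (t + κ) 1.7 with g | g
      · exact right0 rfl hβ hr hκ hk1 hk2 h3 g
      · exact right1 rfl hβ hr hκ hk1 hk2 g h2

end B3_26

end Sok
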