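import Pool.Agent.Lib.MP_816dec_an.R1b3D
import Pool.Agent.Lib.MP_816dec_an.R1b3J27

/-!
MP_816dec_an (A3, row R1, b = 3): the cell `1.3 ≤ κ ≤ 1.33`.
-/

set_option autoImplicit false
set_option maxHeartbeats 4000000
set_option linter.unusedVariables false

open Complex Set

namespace Sok

namespace B3_27

private theorem yL {κ t : ℝ} (h : DomR κ t) (hk1 : 1.3 ≤ κ) (hk2 : κ ≤ 1.33) (ht1 : 0 ≤ t + κ) (ht2 : t + κ ≤ 1.026) :
    0 ≤ sy κ t ∧ sy κ t ≤ 0.41 := by
  have hy1 : 0 ≤ sy κ t := sy_nonneg h (by linarith)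
  have hy2 : sy κ t ≤ 0.41 := syR_le h 1.3 1.33 1.026 0.41 1.50681 0.4618 0.4645 0.47523 hk1 hk2 (by linarith) (by norm_num) (by norm_num)
    (expn_ge (by norm_num) (by norm_num)) (by norm_num) (by norm_num) (Or.inr ((mul_le_mul_of_nonneg_left (expn_le (E := 1.50682) (by norm_num) (by norm_num) (by norm_num)) (by norm_num)).trans (by norm_num))) (by norm_num) (by norm_num) (by norm_num)
  exact ⟨hy1, hy2⟩

theorem left {β r h t κ : ℝ} (hh : h = 2 * Real.pi / (3 : ℕ)) (hβ : 0 < β) (hr : 10 ≤ r) (hκ : κ = β * r)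
    (hk1 : 1.3 ≤ κ) (hk2 : κ ≤ 1.33) (hT1 : 0 ≤ t + κ) (hT2 : t + κ ≤ 1.026) :
    ‖Xf β r h t (-1)‖ < |‖Xf β r h t 1‖ - ‖Xf β r h t 0‖| := by
  obtain ⟨q1, q2, q3⟩ := b3_h hh
  have hR0 := b3_R0 hβ hr hκ
  have hR := b3_R hβ hr hκ (by linarith)
  have hD1 : DomR κ t := b3_dom (by linarith) (by linarith) (Or.inl (by linarith))
  have hy := yL hD1 hk1 hk2 (by linarith) (by linarith)
  have hY : 0.7054 * Real.exp (r * 0.82537) ≤ ‖Xf β r h t 1‖ :=
    b3_lo hβ hr hκ (k := 1) (t' := t) (by push_cast; ring) hD1 0.09 2.7689 0.7054 0.82537 (by norm_num)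
      (T3_27_p1 hD1 hβ hk1 hk2 (by linarith) (by linarith) hR0 hR)
      (v5_Dup hD1 1.33 0 0.41 1 0.66366 2.7689 hk2 hy.1 hy.2 (ex_up 0 (by norm_num) (by norm_num) (by norm_num) (by norm_num)) (ex_um 0.41 (by norm_num) (by norm_num) (by norm_num) (by norm_num)) (by norm_num) (by norm_num) (by norm_num)) (by norm_num) (by norm_num)
      (b3_Vlo hD1 1.3 1.33 0 1.026 0.61 (-0.49429) 0.519 0.86831 0.14121 0.82537 hk1 hk2 (by linarith) (by linarith) (by norm_num) (ex_lm 0.49429 (by norm_num) (by norm_num) (by norm_num) (by norm_num) (by norm_num)) (by norm_num) (by norm_num) (by norm_num) (by norm_num) (by norm_num) (by norm_num) (by norm_num) (by norm_num) (ex_um 0.14121 (by norm_num) (by norm_num) (by norm_num) (by norm_num)) (by norm_num))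
  have h0 : ‖Xf β r h t 0‖ ≤ 0.8392 * ‖Xf β r h t 1‖ :=
    b3_cmp 0.7079 0.0346 0.0004324 0.77537 0.838261 0.000924 0.8392 hr (b3_HU0 0.41 1.3 1.33 (-2.0944) (-1.06839) 1.2288 1.70404 1.72513 0.58685 0.57967 1.70403 0.8353 0.1455 0.67114 1.2876 0 0.05 0.000001 1.5065 0.79077 hβ hr hκ (by norm_num) hk1 hk2 (by norm_num) (by linarith) (by linarith) (by norm_num) (by norm_num) (ex_up 0.533 (by norm_num) (by norm_num) (by norm_num) (by norm_num)) (ex_up 0.5453 (by norm_num) (by norm_num) (by norm_num) (by norm_num)) (ex_um 0.533 (by norm_num) (by norm_num) (by norm_num) (by norm_num)) (ex_um 0.5453 (by norm_num) (by norm_num) (by norm_num) (by norm_num)) (by norm_num) (by norm_num) (ex_lp 0.533 (by norm_num) (by norm_num) (by norm_num)) (by norm_num) (by norm_num) (by norm_num) (by norm_num) (by norm_num) (by norm_num) (by norm_num) (by norm_num) (by norm_num) (by norm_num) (by norm_num) (by norm_num) (by norm_num) (by norm_num) (v5_hump 4.495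 7.518 2.7419 0.0000003148 0.000001 hβ hr hκ hk1 hk2 (by norm_num) (tb := (-1.06839)) (by linarith) (by norm_num) (by norm_num) (by norm_num) (by norm_num) (by norm_num) (by norm_num) (by norm_num) (ex_un 14 0.99 (by norm_num) (by norm_num) (by norm_num) (by norm_num)) (by norm_num)) (by norm_num) (by norm_num)) hY (by norm_num) (by norm_num) (by norm_num) (by norm_num) (by norm_num) (ex_un 0 0.346 (by norm_num) (by norm_num) (by norm_num) (by norm_num)) (by norm_num) (by norm_num) (by norm_num) (ex_un 7 0.7537 (by norm_num) (by norm_num) (by norm_num) (by norm_num)) (by norm_num) (by norm_num)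
  have h2 : ‖Xf β r h t (-1)‖ ≤ 0.0488 * ‖Xf β r h t 1‖ := by
    rcases le_total ((t + h) + κ) 2.67 with g0 | g0
    · exact b3_cmp 0.01666 0.40953 0.0002604 0.82537 0.048696 0.000079 0.0488 hr ((b3_Xm hh).trans_le (b3_HF 0.42 1.3 1.33 2.09439 2.67 1.29548 0.57927 0.57202 1.72634 1.74823 0.572 1.7238 0.1455 2.33509 0.2007 0.07714 0.4662 0.004221 2.0618 0.2121 0.41584 hβ hr hκ (by norm_num) hk1 hk2 (by norm_num) (by linarith) (by linarith) (by norm_num) (ex_um 0.546 (by norm_num) (by norm_num) (by norm_num) (by norm_num)) (ex_um 0.5586 (by norm_num) (by norm_num) (by norm_num) (by norm_num)) (ex_up 0.546 (by norm_num) (by norm_num) (by norm_num) (by norm_num)) (ex_up 0.5586 (by norm_num) (by norm_num) (by norm_num) (by norm_num)) (by norm_num) (by norm_num) (ex_lm 0.5586 (by norm_num) (by norm_num) (by norm_num) (by norm_num) (by norm_num)) (by norm_num) (by norm_num) (by norm_num) (by norm_num) (by norm_num) (by norm_num) (by norm_num) (by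 norm_num) (by norm_num) (by norm_num) (by norm_num) (by norm_num) (ex_un 0 0.7714 (by norm_num) (by norm_num) (by norm_num) (by norm_num)) (v5_hump 0.7566 7.518 2.7419 0.003405 0.004221 hβ hr hκ hk1 hk2 (by norm_num) (tb := 2.67) (by linarith) (by norm_num) (by norm_num) (by norm_num) (by norm_num) (by norm_num) (by norm_num) (by norm_num) (ex_un 5 0.6881 (by norm_num) (by norm_num) (by norm_num) (by norm_num)) (by norm_num)) (by norm_num) (by norm_num) (by norm_num))) hY (by norm_num) (by norm_num) (by norm_num) (by norm_num) (by norm_num) (ex_un 4 0.0953 (by norm_num) (by norm_num) (by norm_num) (by norm_num)) (by norm_num) (by norm_num) (by norm_num) (ex_un 8 0.2537 (by norm_num) (by norm_num) (by norm_num) (by norm_num)) (by norm_num) (by norm_num)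
    exact b3_cmp 1 0 0.008685 0.47537 0 0.039683 0.0488 hr (b3_w (b3_UD 1.3 1.33 2.67 3.1204 0.3 0.3499 0.3 1.6803 3.223 0.35 hh hβ hr hκ (by norm_num) hk1 hk2 (by linarith) (by linarith) (by norm_num) (by norm_num) (by norm_num) (by norm_num) (by norm_num) (by norm_num) (by norm_num) (by norm_num) (by norm_num) (by norm_num) (by norm_num) (by norm_num) (by norm_num))) hY (by norm_num) (by norm_num) (by norm_num) (by norm_num) (by norm_num) (by norm_num) (by norm_num) (by norm_num) (by norm_num) (ex_un 4 0.7537 (by norm_num) (by norm_num) (by norm_num) (by norm_num)) (by norm_num) (by norm_num)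
  exact b3_out1 0.8392 0.0488 hY (by norm_num) h0 h2 (by norm_num)

private theorem yM1 {κ t : ℝ} (h : DomR κ t) (hk1 : 1.3 ≤ κ) (hk2 : κ ≤ 1.33) (ht1 : 0 ≤ t + κ) (ht2 : t + κ ≤ 1.047) :
    0 ≤ sy κ t ∧ sy κ t ≤ 0.416 := by
  have hy1 : 0 ≤ sy κ t := sy_nonneg h (by linarith)
  have hy2 : sy κ t ≤ 0.416 := syR_le h 1.3 1.33 1.047 0.416 1.51588 0.4713 0.47413 0.48509 hk1 hk2 (by linarith) (by norm_num) (by norm_num)
    (expn_ge (by norm_num) (by norm_num)) (by norm_num) (by norm_num) (Or.inr ((mul_le_mul_of_nonneg_left (expn_le (E := 1.51589) (by norm_num) (by norm_num) (by norm_num)) (by norm_num)).trans (by norm_num))) (by norm_num) (by norm_num) (by norm_num)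
  exact ⟨hy1, hy2⟩

private theorem yM0 {κ t : ℝ} (h : DomR κ t) (hk1 : 1.3 ≤ κ) (hk2 : κ ≤ 1.33) (ht1 : -1.0684 ≤ t + κ) (ht2 : t + κ ≤ -1.04739) :
    (-0.523) ≤ sy κ t ∧ sy κ t ≤ (-0.505) := by
  have hy1 : -0.523 ≤ sy κ t := syL_ge h 1.3 1.33 1.0684 0.523 0.59273 0.59275 0.2317 0.23308 0.23847 hk1 hk2 (by linarith) (by norm_num) (by norm_num) (by norm_num)
    (expm_ge (by norm_num) (by norm_num) (by norm_num) (by norm_num)) (expm_le (by norm_num) (by norm_num) (by norm_num)) (by norm_num)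
    (by norm_num) (by norm_num) (by norm_num) (by norm_num) (by norm_num) (by norm_num)
  have hy2 : sy κ t ≤ -0.505 := syL_le h 1.3 1.33 1.04739 0.505 0.6035 0.60351 0.22914 0.23445 hk1 hk2 (by linarith) (by norm_num) (by norm_num) (by norm_num)
    (expm_ge (by norm_num) (by norm_num) (by norm_num) (by norm_num)) (expm_le (by norm_num) (by norm_num) (by norm_num)) (by norm_num)
    (by norm_num) (by norm_num) (by norm_num) (by norm_num) (by norm_num) (by norm_num)
  exact ⟨hy1, hy2⟩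

theorem middle {β r h t κ : ℝ} (hh : h = 2 * Real.pi / (3 : ℕ)) (hβ : 0 < β) (hr : 10 ≤ r) (hκ : κ = β * r)
    (hk1 : 1.3 ≤ κ) (hk2 : κ ≤ 1.33) (hT1 : 1.026 ≤ t + κ) (hT2 : t + κ ≤ 1.047) :
    ‖Xf β r h t (-1)‖ < |‖Xf β r h t 1‖ - ‖Xf β r h t 0‖| := by
  obtain ⟨q1, q2, q3⟩ := b3_h hh
  have hR0 := b3_R0 hβ hr hκ
  have hR := b3_R hβ hr hκ (by linarith)
  have hD1 : DomR κ t := b3_dom (by linarith) (by linarith) (Or.inl (by linarith))
  have hD0 : DomR κ (t - h) := b3_dom (by linarith) (by linarith) (Or.inl (by linarith))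
  have hy := yM1 hD1 hk1 hk2 (by linarith) (by linarith)
  have hy0 := yM0 hD0 hk1 hk2 (by linarith) (by linarith)
  have hY : 0.7054 * Real.exp (r * 0.81787) ≤ ‖Xf β r h t 1‖ :=
    b3_lo hβ hr hκ (k := 1) (t' := t) (by push_cast; ring) hD1 0.09 2.7689 0.7054 0.81787 (by norm_num)
      (T3_27_p1 hD1 hβ hk1 hk2 (by linarith) (by linarith) hR0 hR)
      (v5_Dup hD1 1.33 0 0.416 1 0.65969 2.7689 hk2 hy.1 hy.2 (ex_up 0 (by norm_num) (by norm_num) (by norm_num) (by norm_num)) (ex_um 0.416 (by norm_num) (by norm_num) (by norm_num) (by norm_num)) (by norm_num) (by norm_num) (by norm_num)) (by norm_num) (by norm_num)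
      (b3_Vlo hD1 1.3 1.33 0 1.047 0.61 (-0.49429) 0.54 0.8577 0.15351 0.81787 hk1 hk2 (by linarith) (by linarith) (by norm_num) (ex_lm 0.49429 (by norm_num) (by norm_num) (by norm_num) (by norm_num) (by norm_num)) (by norm_num) (by norm_num) (by norm_num) (by norm_num) (by norm_num) (by norm_num) (by norm_num) (by norm_num) (ex_um 0.15351 (by norm_num) (by norm_num) (by norm_num) (by norm_num)) (by norm_num))
  have hU : ‖Xf β r h t 0‖ ≤ 0.7943 * Real.exp (r * 0.79801) :=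
    b3_up hβ hr hκ (k := 0) (t' := t - h) (by push_cast; ring) hD0 0.165 4.6292 0.7943 0.79801
      (T3_27_p0m hD0 hβ hk1 hk2 (by linarith) (by linarith) hR0 hR) (v5_Dlo hD0 1.3 (-0.523) (-0.505) (-0.514) 1.67196 4.6292 (by norm_num) hk1 hy0.1 hy0.2 (ex_lp 0.514 (by norm_num) (by norm_num) (by norm_num)) (by norm_num) (by norm_num) (by norm_num) (by norm_num)) (by norm_num) (by norm_num)
      (b3_VH hD0 0.38 1.3 1.33 1.19601 1.63886 1.65765 0.61019 0.60327 (-1.04739) 0.79801 (by norm_num) hk1 hk2 (by norm_num) (ex_up 0.494 (by norm_num) (by norm_num) (by norm_num) (by norm_num)) (ex_up 0.5054 (by norm_num) (by norm_num) (by norm_num) (by norm_num)) (ex_um 0.494 (by norm_num) (by norm_num) (by norm_num) (by norm_num)) (ex_um 0.5054 (by norm_num) (by norm_num) (by norm_num) (by norm_num)) (by norm_num) (by norm_num) (by norm_num) (by linarith) (by norm_num))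
  have h0 : ‖Xf β r h t 0‖ ≤ 0.9234 * ‖Xf β r h t 1‖ :=
    b3_cmp 1 0 0.82 0.01986 0 0.923343 0.9234 hr (b3_w hU) hY (by norm_num) (by norm_num) (by norm_num) (by norm_num) (by norm_num) (by norm_num) (by norm_num) (by norm_num) (by norm_num) (ex_un 0 0.1986 (by norm_num) (by norm_num) (by norm_num) (by norm_num)) (by norm_num) (by norm_num)
  have h2 : ‖Xf β r h t (-1)‖ ≤ 0.0008 * ‖Xf β r h t 1‖ := by
    exact b3_cmp 1 0 0.000465 0.76787 0 0.000791 0.0008 hr ((b3_Xm hh).trans_le (b3_U1 1.3 1.33 3.12039 3.1414 0.21959 0.1455 0.67114 0.2174 0.05235 1.3513 0.145254 1.1994 hβ hr hκ (by norm_num) hk1 hk2 (by linarith) (by linarith) (by norm_num) (by norm_num) (by norm_num) (by norm_num) (by norm_num) (by norm_num) (by norm_num) (by norm_num) (by norm_num) (by norm_num) (by norm_num) (by norm_num) (by norm_num) (ex_un 2 0.174 (by norm_num) (by norm_num) (by norm_num) (by norm_num)) (v5_hump 0.2852 7.518 2.7419 0.1172 0.145254 hβ hr hκ hk1 hk2 (by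 norm_num) (tb := 3.1414) (by linarith) (by norm_num) (by norm_num) (by norm_num) (by norm_num) (by norm_num) (by norm_num) (by norm_num) (ex_un 2 0.1441 (by norm_num) (by norm_num) (by norm_num) (by norm_num)) (by norm_num)) (by norm_num))) hY (by norm_num) (by norm_num) (by norm_num) (by norm_num) (by norm_num) (by norm_num) (by norm_num) (by norm_num) (by norm_num) (ex_un 7 0.6787 (by norm_num) (by norm_num) (by norm_num) (by norm_num)) (by norm_num) (by norm_num)
  exact b3_out1 0.9234 0.0008 hY (by norm_num) h0 h2 (by norm_num)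

private theorem yR0 {κ t : ℝ} (h : DomR κ t) (hk1 : 1.3 ≤ κ) (hk2 : κ ≤ 1.33) (ht1 : -0.7544 ≤ t + κ) (ht2 : t + κ ≤ -0.39439) :
    (-0.376) ≤ sy κ t ∧ sy κ t ≤ (-0.194) := by
  have hy1 : -0.376 ≤ sy κ t := syL_ge h 1.3 1.33 0.7544 0.376 0.6866 0.68661 0.1929 0.1941 0.19859 hk1 hk2 (by linarith) (by norm_num) (by norm_num) (by norm_num)
    (expm_ge (by norm_num) (by norm_num) (by norm_num) (by norm_num)) (expm_le (by norm_num) (by norm_num) (by norm_num)) (by norm_num)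
    (by norm_num) (by norm_num) (by norm_num) (by norm_num) (by norm_num) (by norm_num)
  have hy2 : sy κ t ≤ -0.194 := syL_le h 1.3 1.33 0.39439 0.194 0.82365 0.82366 0.12014 0.12292 hk1 hk2 (by linarith) (by norm_num) (by norm_num) (by norm_num)
    (expm_ge (by norm_num) (by norm_num) (by norm_num) (by norm_num)) (expm_le (by norm_num) (by norm_num) (by norm_num)) (by norm_num)
    (by norm_num) (by norm_num) (by norm_num) (by norm_num) (by norm_num) (by norm_num)
  exact ⟨hy1, hy2⟩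

theorem right0 {β r h t κ : ℝ} (hh : h = 2 * Real.pi / (3 : ℕ)) (hβ : 0 < β) (hr : 10 ≤ r) (hκ : κ = β * r)
    (hk1 : 1.3 ≤ κ) (hk2 : κ ≤ 1.33) (hT1 : 1.34 ≤ t + κ) (hT2 : t + κ ≤ 1.7) :
    ‖Xf β r h t (-1)‖ < |‖Xf β r h t 1‖ - ‖Xf β r h t 0‖| := by
  obtain ⟨q1, q2, q3⟩ := b3_h hh
  have hR0 := b3_R0 hβ hr hκ
  have hR := b3_R hβ hr hκ (by linarith)
  have hD0 : DomR κ (t - h) := b3_dom (by linarith) (by linarith) (Or.inl (by linarith))
  have hy := yR0 hD0 hk1 hk2 (by linarith) (by linarith)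
  have hY : 0.6151 * Real.exp (r * 0.89103) ≤ ‖Xf β r h t 0‖ :=
    b3_lo hβ hr hκ (k := 0) (t' := t - h) (by push_cast; ring) hD0 0.13 4.0003 0.6151 0.89103 (by norm_num)
      (T3_27_p0R hD0 hβ hk1 hk2 (by linarith) (by linarith) hR0 hR)
      (v5_Dup hD0 1.33 (-0.376) (-0.194) 1.45645 1.2141 4.0003 hk2 hy.1 hy.2 (ex_up 0.376 (by norm_num) (by norm_num) (by norm_num) (by norm_num)) (ex_up 0.194 (by norm_num) (by norm_num) (by norm_num) (by norm_num)) (by norm_num) (by norm_num) (by norm_num)) (by norm_num) (by norm_num)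
      (b3_Vlo hD0 1.3 1.33 (-0.7544) (-0.39439) 1.43 0.35768 0.1954 0.98097 0.01922 0.89103 hk1 hk2 (by linarith) (by linarith) (by norm_num) (ex_lp 0.35768 (by norm_num) (by norm_num) (by norm_num)) (by norm_num) (by norm_num) (by norm_num) (by norm_num) (by norm_num) (by norm_num) (by norm_num) (by norm_num) (ex_um 0.01922 (by norm_num) (by norm_num) (by norm_num) (by norm_num)) (by norm_num))
  have h1 : ‖Xf β r h t 1‖ ≤ 0.4673 * ‖Xf β r h t 0‖ := by
    exact b3_cmp 0.1938 0.16457 0.000137 0.89103 0.467187 0.000053 0.4673 hr (b3_X1.trans_le (b3_HF 0.34 1.3 1.33 1.34 1.7 1.18206 0.64275 0.63623 1.55582 1.57177 0.63622 1.4649 0.1455 1.5807 1.1707 0.19578 0.1436 0.000003 1.4828 0.2376 0.72646 hβ hr hκ (by norm_num) hk1 hk2 (by norm_num) (by linarith) (by linarith) (by norm_num) (ex_um 0.442 (by norm_num) (by norm_num) (by norm_num) (by norm_num)) (ex_um 0.4522 (by norm_num) (by norm_num) (by norm_num) (by norm_num)) (ex_up 0.442 (by norm_num)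 (by norm_num) (by norm_num) (by norm_num)) (ex_up 0.4522 (by norm_num) (by norm_num) (by norm_num) (by norm_num)) (by norm_num) (by norm_num) (ex_lm 0.4522 (by norm_num) (by norm_num) (by norm_num) (by norm_num) (by norm_num)) (by norm_num) (by norm_num) (by norm_num) (by norm_num) (by norm_num) (by norm_num) (by norm_num) (by norm_num) (by norm_num) (by norm_num) (by norm_num) (by norm_num) (ex_un 1 0.9578 (by norm_num) (by norm_num) (by norm_num) (by norm_num)) (v5_hump 1.7266 7.518 2.7419 0.000002347 0.000003 hβ hr hκ hk1 hk2 (by norm_num) (tb := 1.7) (by linarith) (by norm_num) (by norm_num) (by norm_num) (by norm_num) (by norm_num) (by norm_num) (by norm_num) (ex_un 12 0.9805 (by norm_num) (by norm_num) (by norm_num) (by norm_num)) (by norm_num)) (by norm_num) (by norm_num) (by norm_num))) hY (by norm_num) (by norm_num) (by norm_num) (by norm_num) (by norm_num) (ex_un 1 0.6457 (by norm_num) (by norm_num) (by norm_num) (by norm_num)) (by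 norm_num) (by norm_num) (by norm_num) (ex_un 8 0.9103 (by norm_num) (by norm_num) (by norm_num) (by norm_num)) (by norm_num) (by norm_num)
  have h2 : ‖Xf β r h t (-1)‖ ≤ 0.011 * ‖Xf β r h t 0‖ := by
    exact b3_cmp 1 0 0.00355 0.56453 0 0.010971 0.011 hr (b3_w (b3_UD 1.3 1.33 3.43439 3.7944 0.005 0.3499 0.2765 0.991 1.9009 0.3265 hh hβ hr hκ (by norm_num) hk1 hk2 (by linarith) (by linarith) (by norm_num) (by norm_num) (by norm_num) (by norm_num) (by norm_num) (by norm_num) (by norm_num) (by norm_num) (by norm_num) (by norm_num) (by norm_num) (by norm_num) (by norm_num))) hY (by norm_num) (by norm_num) (by norm_num) (by norm_num) (by norm_num) (by norm_num) (by norm_num) (by norm_num) (by norm_num) (ex_un 5 0.6453 (by norm_num) (by norm_num) (by norm_num) (by norm_num)) (by norm_num) (by norm_num)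
  exact b3_out0 0.4673 0.011 hY (by norm_num) h1 h2 (by norm_num)

private theorem yR1 {κ t : ℝ} (h : DomR κ t) (hk1 : 1.3 ≤ κ) (hk2 : κ ≤ 1.33) (ht1 : -0.3944 ≤ t + κ) (ht2 : t + κ ≤ 0.0001) :
    (-0.197) ≤ sy κ t ∧ sy κ t ≤ 0.005 := by
  have hy1 : -0.197 ≤ sy κ t := syL_ge h 1.3 1.33 0.3944 0.197 0.82119 0.8212 0.1209 0.12163 0.12445 hk1 hk2 (by linarith) (by norm_num) (by norm_num) (by norm_num)
    (expm_ge (by norm_num) (by norm_num) (by norm_num) (by norm_num)) (expm_le (by norm_num) (by norm_num) (by norm_num)) (by norm_num)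
    (by norm_num) (by norm_num) (by norm_num) (by norm_num) (by norm_num) (by norm_num)
  have hy2 : sy κ t ≤ 0.005 := syR_le h 1.3 1.33 0.0001 0.005 1.00501 0.0037 0.00377 0.00387 hk1 hk2 (by linarith) (by norm_num) (by norm_num)
    (expn_ge (by norm_num) (by norm_num)) (by norm_num) (by norm_num) (Or.inr ((mul_le_mul_of_nonneg_left (expn_le (E := 1.00502) (by norm_num) (by norm_num) (by norm_num)) (by norm_num)).trans (by norm_num))) (by norm_num) (by norm_num) (by norm_num)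
  exact ⟨hy1, hy2⟩

theorem right1 {β r h t κ : ℝ} (hh : h = 2 * Real.pi / (3 : ℕ)) (hβ : 0 < β) (hr : 10 ≤ r) (hκ : κ = β * r)
    (hk1 : 1.3 ≤ κ) (hk2 : κ ≤ 1.33) (hT1 : 1.7 ≤ t + κ) (hT2 : t + κ ≤ h) :
    ‖Xf β r h t (-1)‖ < |‖Xf β r h t 1‖ - ‖Xf β r h t 0‖| := by
  obtain ⟨q1, q2, q3⟩ := b3_h hh
  have hR0 := b3_R0 hβ hr hκ
  have hR := b3_R hβ hr hκ (by linarith)
  have hD0 : DomR κ (t - h) := b3_dom (by linarith) (by linarith) (Or.inl (by linarith))
  have hy := yR1 hD0 hk1 hk2 (by linarith) (by linarith)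
  have hY : 0.649 * Real.exp (r * 0.96619) ≤ ‖Xf β r h t 0‖ :=
    b3_lo hβ hr hκ (k := 0) (t' := t - h) (by push_cast; ring) hD0 0.13 3.2292 0.649 0.96619 (by norm_num)
      (T3_27_p0R hD0 hβ hk1 hk2 (by linarith) (by linarith) hR0 hR)
      (v5_Dup hD0 1.33 (-0.197) 0.005 1.21775 0.99502 3.2292 hk2 hy.1 hy.2 (ex_up 0.197 (by norm_num) (by norm_num) (by norm_num) (by norm_num)) (ex_um 0.005 (by norm_num) (by norm_num) (by norm_num) (by norm_num)) (by norm_num) (by norm_num) (by norm_num)) (by norm_num) (by norm_num)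
      (b3_Vlo hD0 1.3 1.33 (-0.3944) 0.0001 1.15 0.13977 0.1996 0.98014 0.02006 0.96619 hk1 hk2 (by linarith) (by linarith) (by norm_num) (ex_lp 0.13977 (by norm_num) (by norm_num) (by norm_num)) (by norm_num) (by norm_num) (by norm_num) (by norm_num) (by norm_num) (by norm_num) (by norm_num) (by norm_num) (ex_um 0.02006 (by norm_num) (by norm_num) (by norm_num) (by norm_num)) (by norm_num))
  have h1 : ‖Xf β r h t 1‖ ≤ 0.0573 * ‖Xf β r h t 0‖ := by
    exact b3_cmp 0.02239 0.3809 0.00006397 0.96619 0.057269 0.000022 0.0573 hr (b3_X1.trans_le (b3_HF 0.39 1.3 1.33 1.7 2.0944 1.24829 0.60231 0.5953 1.66031 1.67985 0.59529 1.6018 0.1455 1.9407 0.7763 0.11697 0.3105 0.000056 1.66 0.2206 0.58529 hβ hr hκ (by norm_num) hk1 hk2 (by norm_num) (by linarith) (by linarith) (by norm_num) (ex_um 0.507 (by norm_num) (by norm_num) (by norm_num) (by norm_num)) (ex_um 0.5187 (by norm_num) (by norm_num) (by norm_num) (by norm_num)) (ex_up 0.507 (by norm_num)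 (by norm_num) (by norm_num) (by norm_num)) (ex_up 0.5187 (by norm_num) (by norm_num) (by norm_num) (by norm_num)) (by norm_num) (by norm_num) (ex_lm 0.5187 (by norm_num) (by norm_num) (by norm_num) (by norm_num) (by norm_num)) (by norm_num) (by norm_num) (by norm_num) (by norm_num) (by norm_num) (by norm_num) (by norm_num) (by norm_num) (by norm_num) (by norm_num) (by norm_num) (by norm_num) (ex_un 1 0.1697 (by norm_num) (by norm_num) (by norm_num) (by norm_num)) (v5_hump 1.3322 7.518 2.7419 0.00004471 0.000056 hβ hr hκ hk1 hk2 (by norm_num) (tb := 2.0944) (by linarith) (by norm_num) (by norm_num) (by norm_num) (by norm_num) (by norm_num) (by norm_num) (by norm_num) (ex_un 10 0.0154 (by norm_num) (by norm_num) (by norm_num) (by norm_num)) (by norm_num)) (by norm_num) (by norm_num) (by norm_num))) hY (by norm_num) (by norm_num) (by norm_num) (by norm_num) (by norm_num) (ex_un 3 0.809 (by norm_num) (by norm_num) (by norm_num) (by norm_num)) (by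 norm_num) (by norm_num) (by norm_num) (ex_un 9 0.6619 (by norm_num) (by norm_num) (by norm_num) (by norm_num)) (by norm_num) (by norm_num)
  have h2 : ‖Xf β r h t (-1)‖ ≤ 0.0916 * ‖Xf β r h t 0‖ := by
    exact b3_cmp 1 0 0.03238 0.34315 0 0.091528 0.0916 hr (b3_w (b3_UD 1.3 1.33 3.79439 4.1888 0.005 0.3499 0.57304 0.9564 1.8345 0.62304 hh hβ hr hκ (by norm_num) hk1 hk2 (by linarith) (by linarith) (by norm_num) (by norm_num) (by norm_num) (by norm_num) (by norm_num) (by norm_num) (by norm_num) (by norm_num) (by norm_num) (by norm_num) (by norm_num) (by norm_num) (by norm_num))) hY (by norm_num) (by norm_num) (by norm_num) (by norm_num) (by norm_num) (by norm_num) (by norm_num) (by norm_num) (by norm_num) (ex_un 3 0.4315 (by norm_num) (by norm_num) (by norm_num) (by norm_num)) (by norm_num) (by norm_num)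
  exact b3_out0 0.0573 0.0916 hY (by norm_num) h1 h2 (by norm_num)

private theorem yI {κ t : ℝ} (h : DomR κ t) (hk1 : 1.3 ≤ κ) (hk2 : κ ≤ 1.33) (ht1 : -1.0474 ≤ t + κ) (ht2 : t + κ ≤ -0.75439) :
    (-0.513) ≤ sy κ t ∧ sy κ t ≤ (-0.37) := by
  have hy1 : -0.513 ≤ sy κ t := syL_ge h 1.3 1.33 1.0474 0.513 0.59869 0.5987 0.2295 0.23092 0.23626 hk1 hk2 (by linarith) (by norm_num) (by norm_num) (by norm_num)
    (expm_ge (by norm_num) (by norm_num) (by norm_num) (by norm_num)) (expm_le (by norm_num) (by norm_num) (by norm_num)) (by norm_num)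
    (by norm_num) (by norm_num) (by norm_num) (by norm_num) (by norm_num) (by norm_num)
  have hy2 : sy κ t ≤ -0.37 := syL_le h 1.3 1.33 0.75439 0.37 0.69073 0.69074 0.19215 0.1966 hk1 hk2 (by linarith) (by norm_num) (by norm_num) (by norm_num)
    (expm_ge (by norm_num) (by norm_num) (by norm_num) (by norm_num)) (expm_le (by norm_num) (by norm_num) (by norm_num)) (by norm_num)
    (by norm_num) (by norm_num) (by norm_num) (by norm_num) (by norm_num) (by norm_num)
  exact ⟨hy1, hy2⟩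

theorem innE {β r h t κ : ℝ} (hh : h = 2 * Real.pi / (3 : ℕ)) (hβ : 0 < β) (hr : 10 ≤ r) (hκ : κ = β * r)
    (hk1 : 1.3 ≤ κ) (hk2 : κ ≤ 1.33) (hT1 : 1.047 ≤ t + κ) (hT2 : t + κ ≤ 1.34) :
    ‖Xf β r h t (-1)‖ ≤ 0.00243 * ‖Xf β r h t 0‖ ∧ ‖Xf β r h (t + β) (-1)‖ ≤ 0.00647 * ‖Xf β r h t 0‖ := by
  obtain ⟨q1, q2, q3⟩ := b3_h hh
  have hR0 := b3_R0 hβ hr hκ
  have hR := b3_R hβ hr hκ (by linarith)
  have hD0 : DomR κ (t - h) := b3_dom (by linarith) (by linarith) (Or.inl (by linarith))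
  have hy := yI hD0 hk1 hk2 (by linarith) (by linarith)
  have hY : 0.5576 * Real.exp (r * 0.79078) ≤ ‖Xf β r h t 0‖ :=
    b3_lo hβ hr hκ (k := 0) (t' := t - h) (by push_cast; ring) hD0 0.17 4.9091 0.5576 0.79078 (by norm_num)
      (T3_27_p0 hD0 hβ hk1 hk2 (by linarith) (by linarith) hR0 hR)
      (v5_Dup hD0 1.33 (-0.513) (-0.37) 1.6703 1.44774 4.9091 hk2 hy.1 hy.2 (ex_up 0.513 (by norm_num) (by norm_num) (by norm_num) (by norm_num)) (ex_up 0.37 (by norm_num) (by norm_num) (by norm_num) (by norm_num)) (by norm_num) (by norm_num) (by norm_num)) (by norm_num) (by norm_num)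
      (b3_Vlo hD0 1.3 1.33 (-1.0474) (-0.75439) 1.62 0.48243 0.2414 0.971 0.02943 0.79078 hk1 hk2 (by linarith) (by linarith) (by norm_num) (ex_lp 0.48243 (by norm_num) (by norm_num) (by norm_num)) (by norm_num) (by norm_num) (by norm_num) (by norm_num) (by norm_num) (by norm_num) (by norm_num) (by norm_num) (ex_um 0.02943 (by norm_num) (by norm_num) (by norm_num) (by norm_num)) (by norm_num))
  constructor
  · exact b3_cmp 1 0 0.0006432 0.73496 0 0.002421 0.00243 hr (b3_w (b3_UD 1.3 1.33 3.14139 3.4344 0.005 0.3499 0.00582 1.0941 2.0986 0.05582 hh hβ hr hκ (by norm_num) hk1 hk2 (by linarith) (by linarith) (by norm_num) (by norm_num) (by norm_num) (by norm_num) (by norm_num) (by norm_num) (by norm_num) (by norm_num) (by norm_num) (by norm_num) (by norm_num) (by norm_num) (by norm_num))) hY (by norm_num) (by norm_num) (by norm_num) (by norm_num) (by norm_num) (by norm_num) (by norm_num) (by norm_num) (by norm_num) (ex_un 7 0.3496 (by norm_num)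 (by norm_num) (by norm_num) (by norm_num)) (by norm_num) (by norm_num)
  · exact b3_cmp 1 0 0.001749 0.63496 0 0.006465 0.00647 hr (b3_w (b3_UD 1.3 1.33 3.14139 3.5674 0.1 0.3499 0.10582 1.0745 2.061 0.15582 hh hβ hr hκ (by norm_num) hk1 hk2 (by linarith) (by linarith) (by norm_num) (by norm_num) (by norm_num) (by norm_num) (by norm_num) (by norm_num) (by norm_num) (by norm_num) (by norm_num) (by norm_num) (by norm_num) (by norm_num) (by norm_num))) hY (by norm_num) (by norm_num) (by norm_num) (by norm_num) (by norm_num) (by norm_num) (by norm_num) (by norm_num) (by norm_num) (ex_un 6 0.3496 (by norm_num) (by norm_num) (by norm_num) (by norm_num)) (by norm_num) (by norm_num)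

private theorem yA0 {κ t : ℝ} (h : DomR κ t) (hk1 : 1.3 ≤ κ) (hk2 : κ ≤ 1.33) (ht1 : 1.047 ≤ t + κ) (ht2 : t + κ ≤ 1.067) :
    0.411 ≤ sy κ t ∧ sy κ t ≤ 0.422 := by
  have hy1 : 0.411 ≤ sy κ t := syR_ge h 1.3 1.33 1.047 0.411 1.50832 1.50833 0.4661 0.47687 hk1 hk2 (by linarith) (by norm_num) (by norm_num)
    (expn_ge (by norm_num) (by norm_num)) (expn_le (by norm_num) (by norm_num) (by norm_num)) (by norm_num)
    (by norm_num) (by norm_num) (by norm_num) (by norm_num) (by norm_num) (by norm_num)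
  have hy2 : sy κ t ≤ 0.422 := syR_le h 1.3 1.33 1.067 0.422 1.525 0.481 0.48387 0.49505 hk1 hk2 (by linarith) (by norm_num) (by norm_num)
    (expn_ge (by norm_num) (by norm_num)) (by norm_num) (by norm_num) (Or.inr ((mul_le_mul_of_nonneg_left (expn_le (E := 1.52501) (by norm_num) (by norm_num) (by norm_num)) (by norm_num)).trans (by norm_num))) (by norm_num) (by norm_num) (by norm_num)
  exact ⟨hy1, hy2⟩

private theorem yB0 {κ t : ℝ} (h : DomR κ t) (hk1 : 1.3 ≤ κ) (hk2 : κ ≤ 1.33) (ht1 : -1.0474 ≤ t + κ) (ht2 : t + κ ≤ -1.02739) :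
    (-0.513) ≤ sy κ t ∧ sy κ t ≤ (-0.496) := by
  have hy1 : -0.513 ≤ sy κ t := syL_ge h 1.3 1.33 1.0474 0.513 0.59869 0.5987 0.2295 0.23092 0.23626 hk1 hk2 (by linarith) (by norm_num) (by norm_num) (by norm_num)
    (expm_ge (by norm_num) (by norm_num) (by norm_num) (by norm_num)) (expm_le (by norm_num) (by norm_num) (by norm_num)) (by norm_num)
    (by norm_num) (by norm_num) (by norm_num) (by norm_num) (by norm_num) (by norm_num)
  have hy2 : sy κ t ≤ -0.496 := syL_le h 1.3 1.33 1.02739 0.496 0.60896 0.60897 0.2271 0.23235 hk1 hk2 (by linarith) (by norm_num) (by norm_num) (by norm_num)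
    (expm_ge (by norm_num) (by norm_num) (by norm_num) (by norm_num)) (expm_le (by norm_num) (by norm_num) (by norm_num)) (by norm_num)
    (by norm_num) (by norm_num) (by norm_num) (by norm_num) (by norm_num) (by norm_num)
  exact ⟨hy1, hy2⟩

theorem pc0 {β r h t κ : ℝ} (hh : h = 2 * Real.pi / (3 : ℕ)) (hβ : 0 < β) (hr : 10 ≤ r) (hκ : κ = β * r)
    (hk1 : 1.3 ≤ κ) (hk2 : κ ≤ 1.33) (hT1 : 1.047 ≤ t + κ) (hT2 : t + κ ≤ 1.067) :
    Xf β r h t 0 ≠ 0 ∧ r * 0.1032 ≤ (Ld β r h t 1 - Ld β r h t 0).im ∧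
      ‖(((-1 : ℤ) : ℂ) - 1) * Ld β r h t 0 - ((-1 : ℤ) : ℂ) * Ld β r h t 1‖ ≤ r * 5.21 := by
  obtain ⟨q1, q2, q3⟩ := b3_h hh
  have hR0 := b3_R0 hβ hr hκ
  have hR := b3_R hβ hr hκ (by linarith)
  have hD1 : DomR κ t := b3_dom (by linarith) (by linarith) (Or.inl (by linarith))
  have hD0 : DomR κ (t - h) := b3_dom (by linarith) (by linarith) (Or.inl (by linarith))
  have y1 := yA0 hD1 hk1 hk2 (by linarith) (by linarith)
  have y0 := yB0 hD0 hk1 hk2 (by linarith) (by linarith)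
  have j1 := T3_27_d1_0 hD1 hβ hk1 hk2 (by linarith) (by linarith) hR0 hR
  exact b3_piece 1.3 1.33 0.411 0.422 0.416 0.65968 0.66299 0.65574 0.8818 2.5648 2.6047 0.1 0.17 0.17 2.0482 1.1278 0 0 (-0.513) (-0.496) (-0.504) 1.65532 1.6703 2.2215 4.5646 0.07 0.26 0.17 4.4751 4.6532 0 0 0.1032 5.21
    hβ hr hκ (by norm_num) hk1 hk2 hD1 hD0 j1 (j1 _ (by rw [sub_self, norm_zero]; norm_num))
    (T3_27_d0_0 hD0 hβ hk1 hk2 (by linarith) (by linarith) hR0 hR)
    (T3_27_p0 hD0 hβ hk1 hk2 (by linarith) (by linarith) hR0 hR)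
    y1.1 y1.2 y0.1 y0.2 (by norm_num)
    (ex_um 0.411 (by norm_num) (by norm_num) (by norm_num) (by norm_num)) (ex_um 0.422 (by norm_num) (by norm_num) (by norm_num) (by norm_num)) (ex_lm 0.416 (by norm_num) (by norm_num) (by norm_num) (by norm_num) (by norm_num)) (by norm_num) (by norm_num) (by norm_num) (by norm_num) (by norm_num) (by norm_num) (by norm_num) (by norm_num)
    (by norm_num) (by norm_num) (by norm_num) (by norm_num) (by norm_num) (by norm_num) (by norm_num) (by norm_num) (by norm_num) (by norm_num)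
    (ex_up 0.513 (by norm_num) (by norm_num) (by norm_num) (by norm_num)) (ex_lp 0.504 (by norm_num) (by norm_num) (by norm_num)) (by norm_num) (by norm_num) (by norm_num) (by norm_num) (by norm_num) (by norm_num)
    (by norm_num) (by norm_num) (by norm_num) (by norm_num) (by norm_num) (by norm_num) (by norm_num) (by norm_num) (by norm_num) (by norm_num) (by norm_num)
    (by norm_num) (by norm_num) (by norm_num) (by norm_num)

private theorem yA1 {κ t : ℝ} (h : DomR κ t) (hk1 : 1.3 ≤ κ) (hk2 : κ ≤ 1.33) (ht1 : 1.067 ≤ t + κ) (ht2 : t + κ ≤ 1.087) :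
    0.417 ≤ sy κ t ∧ sy κ t ≤ 0.428 := by
  have hy1 : 0.417 ≤ sy κ t := syR_ge h 1.3 1.33 1.067 0.417 1.5174 1.51741 0.47575 0.48674 hk1 hk2 (by linarith) (by norm_num) (by norm_num)
    (expn_ge (by norm_num) (by norm_num)) (expn_le (by norm_num) (by norm_num) (by norm_num)) (by norm_num)
    (by norm_num) (by norm_num) (by norm_num) (by norm_num) (by norm_num) (by norm_num)
  have hy2 : sy κ t ≤ 0.428 := syR_le h 1.3 1.33 1.087 0.428 1.53418 0.4908 0.4937 0.50511 hk1 hk2 (by linarith) (by norm_num) (by norm_num)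
    (expn_ge (by norm_num) (by norm_num)) (by norm_num) (by norm_num) (Or.inr ((mul_le_mul_of_nonneg_left (expn_le (E := 1.53419) (by norm_num) (by norm_num) (by norm_num)) (by norm_num)).trans (by norm_num))) (by norm_num) (by norm_num) (by norm_num)
  exact ⟨hy1, hy2⟩

private theorem yB1 {κ t : ℝ} (h : DomR κ t) (hk1 : 1.3 ≤ κ) (hk2 : κ ≤ 1.33) (ht1 : -1.0274 ≤ t + κ) (ht2 : t + κ ≤ -1.00739) :
    (-0.504) ≤ sy κ t ∧ sy κ t ≤ (-0.487) := by
  have hy1 : -0.504 ≤ sy κ t := syL_ge h 1.3 1.33 1.0274 0.504 0.6041 0.60412 0.2275 0.22892 0.23422 hk1 hk2 (by linarith) (by norm_num) (by norm_num) (by norm_num)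
    (expm_ge (by norm_num) (by norm_num) (by norm_num) (by norm_num)) (expm_le (by norm_num) (by norm_num) (by norm_num)) (by norm_num)
    (by norm_num) (by norm_num) (by norm_num) (by norm_num) (by norm_num) (by norm_num)
  have hy2 : sy κ t ≤ -0.487 := syL_le h 1.3 1.33 1.00739 0.487 0.61446 0.61447 0.22499 0.23019 hk1 hk2 (by linarith) (by norm_num) (by norm_num) (by norm_num)
    (expm_ge (by norm_num) (by norm_num) (by norm_num) (by norm_num)) (expm_le (by norm_num) (by norm_num) (by norm_num)) (by norm_num)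
    (by norm_num) (by norm_num) (by norm_num) (by norm_num) (by norm_num) (by norm_num)
  exact ⟨hy1, hy2⟩

theorem pc1 {β r h t κ : ℝ} (hh : h = 2 * Real.pi / (3 : ℕ)) (hβ : 0 < β) (hr : 10 ≤ r) (hκ : κ = β * r)
    (hk1 : 1.3 ≤ κ) (hk2 : κ ≤ 1.33) (hT1 : 1.067 ≤ t + κ) (hT2 : t + κ ≤ 1.087) :
    Xf β r h t 0 ≠ 0 ∧ r * 0.1032 ≤ (Ld β r h t 1 - Ld β r h t 0).im ∧
      ‖(((-1 : ℤ) : ℂ) - 1) * Ld β r h t 0 - ((-1 : ℤ) : ℂ) * Ld β r h t 1‖ ≤ r * 5.21 := by
  obtain ⟨q1, q2, q3⟩ := b3_h hh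
  have hR0 := b3_R0 hβ hr hκ
  have hR := b3_R hβ hr hκ (by linarith)
  have hD1 : DomR κ t := b3_dom (by linarith) (by linarith) (Or.inl (by linarith))
  have hD0 : DomR κ (t - h) := b3_dom (by linarith) (by linarith) (Or.inl (by linarith))
  have y1 := yA1 hD1 hk1 hk2 (by linarith) (by linarith)
  have y0 := yB1 hD0 hk1 hk2 (by linarith) (by linarith)
  have j1 := T3_27_d1_0 hD1 hβ hk1 hk2 (by linarith) (by linarith) hR0 hR
  exact b3_piece 1.3 1.33 0.417 0.428 0.422 0.65573 0.65903 0.65182 0.8766 2.5679 2.6076 0.1 0.17 0.17 2.0482 1.1205 0 0 (-0.504) (-0.487) (-0.495) 1.64049 1.65533 2.2016 4.5013 0.07 0.26 0.17 4.4751 4.6438 0 0 0.1032 5.21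
    hβ hr hκ (by norm_num) hk1 hk2 hD1 hD0 j1 (j1 _ (by rw [sub_self, norm_zero]; norm_num))
    (T3_27_d0_0 hD0 hβ hk1 hk2 (by linarith) (by linarith) hR0 hR)
    (T3_27_p0 hD0 hβ hk1 hk2 (by linarith) (by linarith) hR0 hR)
    y1.1 y1.2 y0.1 y0.2 (by norm_num)
    (ex_um 0.417 (by norm_num) (by norm_num) (by norm_num) (by norm_num)) (ex_um 0.428 (by norm_num) (by norm_num) (by norm_num) (by norm_num)) (ex_lm 0.422 (by norm_num) (by norm_num) (by norm_num) (by norm_num) (by norm_num)) (by norm_num) (by norm_num) (by norm_num) (by norm_num) (by norm_num) (by norm_num) (by norm_num) (by norm_num)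
    (by norm_num) (by norm_num) (by norm_num) (by norm_num) (by norm_num) (by norm_num) (by norm_num) (by norm_num) (by norm_num) (by norm_num)
    (ex_up 0.504 (by norm_num) (by norm_num) (by norm_num) (by norm_num)) (ex_lp 0.495 (by norm_num) (by norm_num) (by norm_num)) (by norm_num) (by norm_num) (by norm_num) (by norm_num) (by norm_num) (by norm_num)
    (by norm_num) (by norm_num) (by norm_num) (by norm_num) (by norm_num) (by norm_num) (by norm_num) (by norm_num) (by norm_num) (by norm_num) (by norm_num)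
    (by norm_num) (by norm_num) (by norm_num) (by norm_num)

private theorem yA2 {κ t : ℝ} (h : DomR κ t) (hk1 : 1.3 ≤ κ) (hk2 : κ ≤ 1.33) (ht1 : 1.087 ≤ t + κ) (ht2 : t + κ ≤ 1.107) :
    0.423 ≤ sy κ t ∧ sy κ t ≤ 0.434 := by
  have hy1 : 0.423 ≤ sy κ t := syR_ge h 1.3 1.33 1.087 0.423 1.52653 1.52654 0.4855 0.49672 hk1 hk2 (by linarith) (by norm_num) (by norm_num)
    (expn_ge (by norm_num) (by norm_num)) (expn_le (by norm_num) (by norm_num) (by norm_num)) (by norm_num)
    (by norm_num) (by norm_num) (by norm_num) (by norm_num) (by norm_num) (by norm_num)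
  have hy2 : sy κ t ≤ 0.434 := syR_le h 1.3 1.33 1.107 0.434 1.54341 0.5007 0.50363 0.51527 hk1 hk2 (by linarith) (by norm_num) (by norm_num)
    (expn_ge (by norm_num) (by norm_num)) (by norm_num) (by norm_num) (Or.inr ((mul_le_mul_of_nonneg_left (expn_le (E := 1.54342) (by norm_num) (by norm_num) (by norm_num)) (by norm_num)).trans (by norm_num))) (by norm_num) (by norm_num) (by norm_num)
  exact ⟨hy1, hy2⟩

private theorem yB2 {κ t : ℝ} (h : DomR κ t) (hk1 : 1.3 ≤ κ) (hk2 : κ ≤ 1.33) (ht1 : -1.0074 ≤ t + κ) (ht2 : t + κ ≤ -0.98739) :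
    (-0.495) ≤ sy κ t ∧ sy κ t ≤ (-0.478) := by
  have hy1 : -0.495 ≤ sy κ t := syL_ge h 1.3 1.33 1.0074 0.495 0.60957 0.60958 0.2255 0.22687 0.23211 hk1 hk2 (by linarith) (by norm_num) (by norm_num) (by norm_num)
    (expm_ge (by norm_num) (by norm_num) (by norm_num) (by norm_num)) (expm_le (by norm_num) (by norm_num) (by norm_num)) (by norm_num)
    (by norm_num) (by norm_num) (by norm_num) (by norm_num) (by norm_num) (by norm_num)
  have hy2 : sy κ t ≤ -0.478 := syL_le h 1.3 1.33 0.98739 0.478 0.62002 0.62003 0.22283 0.22799 hk1 hk2 (by linarith) (by norm_num) (by norm_num) (by norm_num)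
    (expm_ge (by norm_num) (by norm_num) (by norm_num) (by norm_num)) (expm_le (by norm_num) (by norm_num) (by norm_num)) (by norm_num)
    (by norm_num) (by norm_num) (by norm_num) (by norm_num) (by norm_num) (by norm_num)
  exact ⟨hy1, hy2⟩

theorem pc2 {β r h t κ : ℝ} (hh : h = 2 * Real.pi / (3 : ℕ)) (hβ : 0 < β) (hr : 10 ≤ r) (hκ : κ = β * r)
    (hk1 : 1.3 ≤ κ) (hk2 : κ ≤ 1.33) (hT1 : 1.087 ≤ t + κ) (hT2 : t + κ ≤ 1.107) :
    Xf β r h t 0 ≠ 0 ∧ r * 0.1032 ≤ (Ld β r h t 1 - Ld β r h t 0).im ∧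
      ‖(((-1 : ℤ) : ℂ) - 1) * Ld β r h t 0 - ((-1 : ℤ) : ℂ) * Ld β r h t 1‖ ≤ r * 5.21 := by
  obtain ⟨q1, q2, q3⟩ := b3_h hh
  have hR0 := b3_R0 hβ hr hκ
  have hR := b3_R hβ hr hκ (by linarith)
  have hD1 : DomR κ t := b3_dom (by linarith) (by linarith) (Or.inl (by linarith))
  have hD0 : DomR κ (t - h) := b3_dom (by linarith) (by linarith) (Or.inl (by linarith))
  have y1 := yA2 hD1 hk1 hk2 (by linarith) (by linarith)
  have y0 := yB2 hD0 hk1 hk2 (by linarith) (by linarith)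
  have j1 := T3_27_d1_1 hD1 hβ hk1 hk2 (by linarith) (by linarith) hR0 hR
  exact b3_piece 1.3 1.33 0.423 0.434 0.428 0.65181 0.65508 0.64792 0.8713 2.5711 2.6106 0.1 0.185 0.185 2.27 1.2335 0 0 (-0.495) (-0.478) (-0.486) 1.62579 1.6405 2.1819 4.4395 0.08 0.27 0.17 4.0663 4.2109 0 0 0.1032 5.21
    hβ hr hκ (by norm_num) hk1 hk2 hD1 hD0 j1 (j1 _ (by rw [sub_self, norm_zero]; norm_num))
    (T3_27_d0_1 hD0 hβ hk1 hk2 (by linarith) (by linarith) hR0 hR)
    (T3_27_p0 hD0 hβ hk1 hk2 (by linarith) (by linarith) hR0 hR)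
    y1.1 y1.2 y0.1 y0.2 (by norm_num)
    (ex_um 0.423 (by norm_num) (by norm_num) (by norm_num) (by norm_num)) (ex_um 0.434 (by norm_num) (by norm_num) (by norm_num) (by norm_num)) (ex_lm 0.428 (by norm_num) (by norm_num) (by norm_num) (by norm_num) (by norm_num)) (by norm_num) (by norm_num) (by norm_num) (by norm_num) (by norm_num) (by norm_num) (by norm_num) (by norm_num)
    (by norm_num) (by norm_num) (by norm_num) (by norm_num) (by norm_num) (by norm_num) (by norm_num) (by norm_num) (by norm_num) (by norm_num)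
    (ex_up 0.495 (by norm_num) (by norm_num) (by norm_num) (by norm_num)) (ex_lp 0.486 (by norm_num) (by norm_num) (by norm_num)) (by norm_num) (by norm_num) (by norm_num) (by norm_num) (by norm_num) (by norm_num)
    (by norm_num) (by norm_num) (by norm_num) (by norm_num) (by norm_num) (by norm_num) (by norm_num) (by norm_num) (by norm_num) (by norm_num) (by norm_num)
    (by norm_num) (by norm_num) (by norm_num) (by norm_num)

private theorem yA3 {κ t : ℝ} (h : DomR κ t) (hk1 : 1.3 ≤ κ) (hk2 : κ ≤ 1.33) (ht1 : 1.107 ≤ t + κ) (ht2 : t + κ ≤ 1.127) :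
    0.428 ≤ sy κ t ∧ sy κ t ≤ 0.44 := by
  have hy1 : 0.428 ≤ sy κ t := syR_ge h 1.3 1.33 1.107 0.428 1.53418 1.53419 0.4937 0.50511 hk1 hk2 (by linarith) (by norm_num) (by norm_num)
    (expn_ge (by norm_num) (by norm_num)) (expn_le (by norm_num) (by norm_num) (by norm_num)) (by norm_num)
    (by norm_num) (by norm_num) (by norm_num) (by norm_num) (by norm_num) (by norm_num)
  have hy2 : sy κ t ≤ 0.44 := syR_le h 1.3 1.33 1.127 0.44 1.5527 0.5107 0.51367 0.52554 hk1 hk2 (by linarith) (by norm_num) (by norm_num)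
    (expn_ge (by norm_num) (by norm_num)) (by norm_num) (by norm_num) (Or.inr ((mul_le_mul_of_nonneg_left (expn_le (E := 1.55271) (by norm_num) (by norm_num) (by norm_num)) (by norm_num)).trans (by norm_num))) (by norm_num) (by norm_num) (by norm_num)
  exact ⟨hy1, hy2⟩

private theorem yB3 {κ t : ℝ} (h : DomR κ t) (hk1 : 1.3 ≤ κ) (hk2 : κ ≤ 1.33) (ht1 : -0.9874 ≤ t + κ) (ht2 : t + κ ≤ -0.96739) :
    (-0.486) ≤ sy κ t ∧ sy κ t ≤ (-0.469) := by
  have hy1 : -0.486 ≤ sy κ t := syL_ge h 1.3 1.33 0.9874 0.486 0.61508 0.61509 0.2234 0.22475 0.22995 hk1 hk2 (by linarith) (by norm_num) (by norm_num) (by norm_num)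
    (expm_ge (by norm_num) (by norm_num) (by norm_num) (by norm_num)) (expm_le (by norm_num) (by norm_num) (by norm_num)) (by norm_num)
    (by norm_num) (by norm_num) (by norm_num) (by norm_num) (by norm_num) (by norm_num)
  have hy2 : sy κ t ≤ -0.469 := syL_le h 1.3 1.33 0.96739 0.469 0.62562 0.62563 0.22061 0.22571 hk1 hk2 (by linarith) (by norm_num) (by norm_num) (by norm_num)
    (expm_ge (by norm_num) (by norm_num) (by norm_num) (by norm_num)) (expm_le (by norm_num) (by norm_num) (by norm_num)) (by norm_num)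
    (by norm_num) (by norm_num) (by norm_num) (by norm_num) (by norm_num) (by norm_num)
  exact ⟨hy1, hy2⟩

theorem pc3 {β r h t κ : ℝ} (hh : h = 2 * Real.pi / (3 : ℕ)) (hβ : 0 < β) (hr : 10 ≤ r) (hκ : κ = β * r)
    (hk1 : 1.3 ≤ κ) (hk2 : κ ≤ 1.33) (hT1 : 1.107 ≤ t + κ) (hT2 : t + κ ≤ 1.127) :
    Xf β r h t 0 ≠ 0 ∧ r * 0.1032 ≤ (Ld β r h t 1 - Ld β r h t 0).im ∧
      ‖(((-1 : ℤ) : ℂ) - 1) * Ld β r h t 0 - ((-1 : ℤ) : ℂ) * Ld β r h t 1‖ ≤ r * 5.21 := by
  obtain ⟨q1, q2, q3⟩ := b3_h hh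
  have hR0 := b3_R0 hβ hr hκ
  have hR := b3_R hβ hr hκ (by linarith)
  have hD1 : DomR κ t := b3_dom (by linarith) (by linarith) (Or.inl (by linarith))
  have hD0 : DomR κ (t - h) := b3_dom (by linarith) (by linarith) (Or.inl (by linarith))
  have y1 := yA3 hD1 hk1 hk2 (by linarith) (by linarith)
  have y0 := yB3 hD0 hk1 hk2 (by linarith) (by linarith)
  have j1 := T3_27_d1_1 hD1 hβ hk1 hk2 (by linarith) (by linarith) hR0 hR
  exact b3_piece 1.3 1.33 0.428 0.44 0.434 0.64791 0.65182 0.64404 0.867 2.5739 2.6138 0.1 0.185 0.185 2.27 1.2268 0 0 (-0.486) (-0.469) (-0.477) 1.61123 1.62581 2.1624 4.3791 0.08 0.27 0.17 4.0663 4.2019 0 0 0.1032 5.21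
    hβ hr hκ (by norm_num) hk1 hk2 hD1 hD0 j1 (j1 _ (by rw [sub_self, norm_zero]; norm_num))
    (T3_27_d0_1 hD0 hβ hk1 hk2 (by linarith) (by linarith) hR0 hR)
    (T3_27_p0 hD0 hβ hk1 hk2 (by linarith) (by linarith) hR0 hR)
    y1.1 y1.2 y0.1 y0.2 (by norm_num)
    (ex_um 0.428 (by norm_num) (by norm_num) (by norm_num) (by norm_num)) (ex_um 0.44 (by norm_num) (by norm_num) (by norm_num) (by norm_num)) (ex_lm 0.434 (by norm_num) (by norm_num) (by norm_num) (by norm_num) (by norm_num)) (by norm_num) (by norm_num) (by norm_num) (by norm_num) (by norm_num) (by norm_num) (by norm_num) (by norm_num)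
    (by norm_num) (by norm_num) (by norm_num) (by norm_num) (by norm_num) (by norm_num) (by norm_num) (by norm_num) (by norm_num) (by norm_num)
    (ex_up 0.486 (by norm_num) (by norm_num) (by norm_num) (by norm_num)) (ex_lp 0.477 (by norm_num) (by norm_num) (by norm_num)) (by norm_num) (by norm_num) (by norm_num) (by norm_num) (by norm_num) (by norm_num)
    (by norm_num) (by norm_num) (by norm_num) (by norm_num) (by norm_num) (by norm_num) (by norm_num) (by norm_num) (by norm_num) (by norm_num) (by norm_num)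
    (by norm_num) (by norm_num) (by norm_num) (by norm_num)

private theorem yA4 {κ t : ℝ} (h : DomR κ t) (hk1 : 1.3 ≤ κ) (hk2 : κ ≤ 1.33) (ht1 : 1.127 ≤ t + κ) (ht2 : t + κ ≤ 1.152) :
    0.434 ≤ sy κ t ∧ sy κ t ≤ 0.447 := by
  have hy1 : 0.434 ≤ sy κ t := syR_ge h 1.3 1.33 1.127 0.434 1.54341 1.54342 0.50363 0.51527 hk1 hk2 (by linarith) (by norm_num) (by norm_num)
    (expn_ge (by norm_num) (by norm_num)) (expn_le (by norm_num) (by norm_num) (by norm_num)) (by norm_num)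
    (by norm_num) (by norm_num) (by norm_num) (by norm_num) (by norm_num) (by norm_num)
  have hy2 : sy κ t ≤ 0.447 := syR_le h 1.3 1.33 1.152 0.447 1.56361 0.5224 0.52551 0.53765 hk1 hk2 (by linarith) (by norm_num) (by norm_num)
    (expn_ge (by norm_num) (by norm_num)) (by norm_num) (by norm_num) (Or.inr ((mul_le_mul_of_nonneg_left (expn_le (E := 1.56362) (by norm_num) (by norm_num) (by norm_num)) (by norm_num)).trans (by norm_num))) (by norm_num) (by norm_num) (by norm_num)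
  exact ⟨hy1, hy2⟩

private theorem yB4 {κ t : ℝ} (h : DomR κ t) (hk1 : 1.3 ≤ κ) (hk2 : κ ≤ 1.33) (ht1 : -0.9674 ≤ t + κ) (ht2 : t + κ ≤ -0.94239) :
    (-0.477) ≤ sy κ t ∧ sy κ t ≤ (-0.458) := by
  have hy1 : -0.477 ≤ sy κ t := syL_ge h 1.3 1.33 0.9674 0.477 0.62064 0.62065 0.2213 0.22259 0.22774 hk1 hk2 (by linarith) (by norm_num) (by norm_num) (by norm_num)
    (expm_ge (by norm_num) (by norm_num) (by norm_num) (by norm_num)) (expm_le (by norm_num) (by norm_num) (by norm_num)) (by norm_num)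
    (by norm_num) (by norm_num) (by norm_num) (by norm_num) (by norm_num) (by norm_num)
  have hy2 : sy κ t ≤ -0.458 := syL_le h 1.3 1.33 0.94239 0.458 0.63254 0.63255 0.21782 0.22286 hk1 hk2 (by linarith) (by norm_num) (by norm_num) (by norm_num)
    (expm_ge (by norm_num) (by norm_num) (by norm_num) (by norm_num)) (expm_le (by norm_num) (by norm_num) (by norm_num)) (by norm_num)
    (by norm_num) (by norm_num) (by norm_num) (by norm_num) (by norm_num) (by norm_num)
  exact ⟨hy1, hy2⟩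

theorem pc4 {β r h t κ : ℝ} (hh : h = 2 * Real.pi / (3 : ℕ)) (hβ : 0 < β) (hr : 10 ≤ r) (hκ : κ = β * r)
    (hk1 : 1.3 ≤ κ) (hk2 : κ ≤ 1.33) (hT1 : 1.127 ≤ t + κ) (hT2 : t + κ ≤ 1.152) :
    Xf β r h t 0 ≠ 0 ∧ r * 0.1032 ≤ (Ld β r h t 1 - Ld β r h t 0).im ∧
      ‖(((-1 : ℤ) : ℂ) - 1) * Ld β r h t 0 - ((-1 : ℤ) : ℂ) * Ld β r h t 1‖ ≤ r * 5.21 := by
  obtain ⟨q1, q2, q3⟩ := b3_h hh
  have hR0 := b3_R0 hβ hr hκ
  have hR := b3_R hβ hr hκ (by linarith)
  have hD1 : DomR κ t := b3_dom (by linarith) (by linarith) (Or.inl (by linarith))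
  have hD0 : DomR κ (t - h) := b3_dom (by linarith) (by linarith) (Or.inl (by linarith))
  have y1 := yA4 hD1 hk1 hk2 (by linarith) (by linarith)
  have y0 := yB4 hD0 hk1 hk2 (by linarith) (by linarith)
  have j1 := T3_27_d1_2 hD1 hβ hk1 hk2 (by linarith) (by linarith) hR0 hR
  exact b3_piece 1.3 1.33 0.434 0.447 0.441 0.64339 0.64792 0.63955 0.8618 2.5773 2.6176 0.1 0.2 0.2 2.5 1.3421 0 0 (-0.477) (-0.458) (-0.468) 1.59679 1.61124 2.143 4.3068 0.1 0.295 0.17 3.5543 3.6703 0 0 0.1032 5.21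
    hβ hr hκ (by norm_num) hk1 hk2 hD1 hD0 j1 (j1 _ (by rw [sub_self, norm_zero]; norm_num))
    (T3_27_d0_2 hD0 hβ hk1 hk2 (by linarith) (by linarith) hR0 hR)
    (T3_27_p0 hD0 hβ hk1 hk2 (by linarith) (by linarith) hR0 hR)
    y1.1 y1.2 y0.1 y0.2 (by norm_num)
    (ex_um 0.434 (by norm_num) (by norm_num) (by norm_num) (by norm_num)) (ex_um 0.447 (by norm_num) (by norm_num) (by norm_num) (by norm_num)) (ex_lm 0.441 (by norm_num) (by norm_num) (by norm_num) (by norm_num) (by norm_num)) (by norm_num) (by norm_num) (by norm_num) (by norm_num) (by norm_num) (by norm_num) (by norm_num) (by norm_num)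
    (by norm_num) (by norm_num) (by norm_num) (by norm_num) (by norm_num) (by norm_num) (by norm_num) (by norm_num) (by norm_num) (by norm_num)
    (ex_up 0.477 (by norm_num) (by norm_num) (by norm_num) (by norm_num)) (ex_lp 0.468 (by norm_num) (by norm_num) (by norm_num)) (by norm_num) (by norm_num) (by norm_num) (by norm_num) (by norm_num) (by norm_num)
    (by norm_num) (by norm_num) (by norm_num) (by norm_num) (by norm_num) (by norm_num) (by norm_num) (by norm_num) (by norm_num) (by norm_num) (by norm_num)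
    (by norm_num) (by norm_num) (by norm_num) (by norm_num)

private theorem yA5 {κ t : ℝ} (h : DomR κ t) (hk1 : 1.3 ≤ κ) (hk2 : κ ≤ 1.33) (ht1 : 1.152 ≤ t + κ) (ht2 : t + κ ≤ 1.177) :
    0.441 ≤ sy κ t ∧ sy κ t ≤ 0.454 := by
  have hy1 : 0.441 ≤ sy κ t := syR_ge h 1.3 1.33 1.152 0.441 1.55426 1.55427 0.51535 0.52726 hk1 hk2 (by linarith) (by norm_num) (by norm_num)
    (expn_ge (by norm_num) (by norm_num)) (expn_le (by norm_num) (by norm_num) (by norm_num)) (by norm_num)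
    (by norm_num) (by norm_num) (by norm_num) (by norm_num) (by norm_num) (by norm_num)
  have hy2 : sy κ t ≤ 0.454 := syR_le h 1.3 1.33 1.177 0.454 1.57459 0.5343 0.53749 0.5499 hk1 hk2 (by linarith) (by norm_num) (by norm_num)
    (expn_ge (by norm_num) (by norm_num)) (by norm_num) (by norm_num) (Or.inr ((mul_le_mul_of_nonneg_left (expn_le (E := 1.5746) (by norm_num) (by norm_num) (by norm_num)) (by norm_num)).trans (by norm_num))) (by norm_num) (by norm_num) (by norm_num)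
  exact ⟨hy1, hy2⟩

private theorem yB5 {κ t : ℝ} (h : DomR κ t) (hk1 : 1.3 ≤ κ) (hk2 : κ ≤ 1.33) (ht1 : -0.9424 ≤ t + κ) (ht2 : t + κ ≤ -0.91739) :
    (-0.465) ≤ sy κ t ∧ sy κ t ≤ (-0.446) := by
  have hy1 : -0.465 ≤ sy κ t := syL_ge h 1.3 1.33 0.9424 0.465 0.62813 0.62814 0.2183 0.2196 0.22469 hk1 hk2 (by linarith) (by norm_num) (by norm_num) (by norm_num)
    (expm_ge (by norm_num) (by norm_num) (by norm_num) (by norm_num)) (expm_le (by norm_num) (by norm_num) (by norm_num)) (by norm_num)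
    (by norm_num) (by norm_num) (by norm_num) (by norm_num) (by norm_num) (by norm_num)
  have hy2 : sy κ t ≤ -0.446 := syL_le h 1.3 1.33 0.91739 0.446 0.64018 0.64019 0.21467 0.21964 hk1 hk2 (by linarith) (by norm_num) (by norm_num) (by norm_num)
    (expm_ge (by norm_num) (by norm_num) (by norm_num) (by norm_num)) (expm_le (by norm_num) (by norm_num) (by norm_num)) (by norm_num)
    (by norm_num) (by norm_num) (by norm_num) (by norm_num) (by norm_num) (by norm_num)
  exact ⟨hy1, hy2⟩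

theorem pc5 {β r h t κ : ℝ} (hh : h = 2 * Real.pi / (3 : ℕ)) (hβ : 0 < β) (hr : 10 ≤ r) (hκ : κ = β * r)
    (hk1 : 1.3 ≤ κ) (hk2 : κ ≤ 1.33) (hT1 : 1.152 ≤ t + κ) (hT2 : t + κ ≤ 1.177) :
    Xf β r h t 0 ≠ 0 ∧ r * 0.1032 ≤ (Ld β r h t 1 - Ld β r h t 0).im ∧
      ‖(((-1 : ℤ) : ℂ) - 1) * Ld β r h t 0 - ((-1 : ℤ) : ℂ) * Ld β r h t 1‖ ≤ r * 5.21 := by
  obtain ⟨q1, q2, q3⟩ := b3_h hh
  have hR0 := b3_R0 hβ hr hκ
  have hR := b3_R hβ hr hκ (by linarith)
  have hD1 : DomR κ t := b3_dom (by linarith) (by linarith) (Or.inl (by linarith))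
  have hD0 : DomR κ (t - h) := b3_dom (by linarith) (by linarith) (Or.inl (by linarith))
  have y1 := yA5 hD1 hk1 hk2 (by linarith) (by linarith)
  have y0 := yB5 hD0 hk1 hk2 (by linarith) (by linarith)
  have j1 := T3_27_d1_2 hD1 hβ hk1 hk2 (by linarith) (by linarith) hR0 hR
  exact b3_piece 1.3 1.33 0.441 0.454 0.448 0.6389 0.6434 0.63509 0.8558 2.5815 2.6215 0.1 0.2 0.2 2.5 1.3317 0 0 (-0.465) (-0.446) (-0.456) 1.57774 1.59202 2.1174 4.2307 0.1 0.295 0.17 3.5543 3.659 0 0 0.1032 5.21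
    hβ hr hκ (by norm_num) hk1 hk2 hD1 hD0 j1 (j1 _ (by rw [sub_self, norm_zero]; norm_num))
    (T3_27_d0_2 hD0 hβ hk1 hk2 (by linarith) (by linarith) hR0 hR)
    (T3_27_p0 hD0 hβ hk1 hk2 (by linarith) (by linarith) hR0 hR)
    y1.1 y1.2 y0.1 y0.2 (by norm_num)
    (ex_um 0.441 (by norm_num) (by norm_num) (by norm_num) (by norm_num)) (ex_um 0.454 (by norm_num) (by norm_num) (by norm_num) (by norm_num)) (ex_lm 0.448 (by norm_num) (by norm_num) (by norm_num) (by norm_num) (by norm_num)) (by norm_num) (by norm_num) (by norm_num) (by norm_num) (by norm_num) (by norm_num) (by norm_num) (by norm_num)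
    (by norm_num) (by norm_num) (by norm_num) (by norm_num) (by norm_num) (by norm_num) (by norm_num) (by norm_num) (by norm_num) (by norm_num)
    (ex_up 0.465 (by norm_num) (by norm_num) (by norm_num) (by norm_num)) (ex_lp 0.456 (by norm_num) (by norm_num) (by norm_num)) (by norm_num) (by norm_num) (by norm_num) (by norm_num) (by norm_num) (by norm_num)
    (by norm_num) (by norm_num) (by norm_num) (by norm_num) (by norm_num) (by norm_num) (by norm_num) (by norm_num) (by norm_num) (by norm_num) (by norm_num)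
    (by norm_num) (by norm_num) (by norm_num) (by norm_num)

private theorem yA6 {κ t : ℝ} (h : DomR κ t) (hk1 : 1.3 ≤ κ) (hk2 : κ ≤ 1.33) (ht1 : 1.177 ≤ t + κ) (ht2 : t + κ ≤ 1.2) :
    0.447 ≤ sy κ t ∧ sy κ t ≤ 0.46 := by
  have hy1 : 0.447 ≤ sy κ t := syR_ge h 1.3 1.33 1.177 0.447 1.56361 1.56362 0.52551 0.53765 hk1 hk2 (by linarith) (by norm_num) (by norm_num)
    (expn_ge (by norm_num) (by norm_num)) (expn_le (by norm_num) (by norm_num) (by norm_num)) (by norm_num)
    (by norm_num) (by norm_num) (by norm_num) (by norm_num) (by norm_num) (by norm_num)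
  have hy2 : sy κ t ≤ 0.46 := syR_le h 1.3 1.33 1.2 0.46 1.58407 0.5447 0.54787 0.56053 hk1 hk2 (by linarith) (by norm_num) (by norm_num)
    (expn_ge (by norm_num) (by norm_num)) (by norm_num) (by norm_num) (Or.inr ((mul_le_mul_of_nonneg_left (expn_le (E := 1.58408) (by norm_num) (by norm_num) (by norm_num)) (by norm_num)).trans (by norm_num))) (by norm_num) (by norm_num) (by norm_num)
  exact ⟨hy1, hy2⟩

private theorem yB6 {κ t : ℝ} (h : DomR κ t) (hk1 : 1.3 ≤ κ) (hk2 : κ ≤ 1.33) (ht1 : -0.9174 ≤ t + κ) (ht2 : t + κ ≤ -0.89439) :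
    (-0.454) ≤ sy κ t ∧ sy κ t ≤ (-0.436) := by
  have hy1 : -0.454 ≤ sy κ t := syL_ge h 1.3 1.33 0.9174 0.454 0.63508 0.63509 0.2155 0.21678 0.2218 hk1 hk2 (by linarith) (by norm_num) (by norm_num) (by norm_num)
    (expm_ge (by norm_num) (by norm_num) (by norm_num) (by norm_num)) (expm_le (by norm_num) (by norm_num) (by norm_num)) (by norm_num)
    (by norm_num) (by norm_num) (by norm_num) (by norm_num) (by norm_num) (by norm_num)
  have hy2 : sy κ t ≤ -0.436 := syL_le h 1.3 1.33 0.89439 0.436 0.64661 0.64662 0.21197 0.21687 hk1 hk2 (by linarith) (by norm_num) (by norm_num) (by norm_num)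
    (expm_ge (by norm_num) (by norm_num) (by norm_num) (by norm_num)) (expm_le (by norm_num) (by norm_num) (by norm_num)) (by norm_num)
    (by norm_num) (by norm_num) (by norm_num) (by norm_num) (by norm_num) (by norm_num)
  exact ⟨hy1, hy2⟩

theorem pc6 {β r h t κ : ℝ} (hh : h = 2 * Real.pi / (3 : ℕ)) (hβ : 0 < β) (hr : 10 ≤ r) (hκ : κ = β * r)
    (hk1 : 1.3 ≤ κ) (hk2 : κ ≤ 1.33) (hT1 : 1.177 ≤ t + κ) (hT2 : t + κ ≤ 1.2) :
    Xf β r h t 0 ≠ 0 ∧ r * 0.1032 ≤ (Ld β r h t 1 - Ld β r h t 0).im ∧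
      ‖(((-1 : ℤ) : ℂ) - 1) * Ld β r h t 0 - ((-1 : ℤ) : ℂ) * Ld β r h t 1‖ ≤ r * 5.21 := by
  obtain ⟨q1, q2, q3⟩ := b3_h hh
  have hR0 := b3_R0 hβ hr hκ
  have hR := b3_R hβ hr hκ (by linarith)
  have hD1 : DomR κ t := b3_dom (by linarith) (by linarith) (Or.inl (by linarith))
  have hD0 : DomR κ (t - h) := b3_dom (by linarith) (by linarith) (Or.inl (by linarith))
  have y1 := yA6 hD1 hk1 hk2 (by linarith) (by linarith)
  have y0 := yB6 hD0 hk1 hk2 (by linarith) (by linarith)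
  have j1 := T3_27_d1_3 hD1 hβ hk1 hk2 (by linarith) (by linarith) hR0 hR
  exact b3_piece 1.3 1.33 0.447 0.46 0.454 0.63508 0.63955 0.63129 0.8507 2.5851 2.625 0.08 0.195 0.195 3.028 1.6022 0 0 (-0.454) (-0.436) (-0.445) 1.56048 1.5746 2.0943 4.1692 0.1 0.28 0.17 3.3735 3.4602 0 0 0.1032 5.21
    hβ hr hκ (by norm_num) hk1 hk2 hD1 hD0 j1 (j1 _ (by rw [sub_self, norm_zero]; norm_num))
    (T3_27_d0_3 hD0 hβ hk1 hk2 (by linarith) (by linarith) hR0 hR)
    (T3_27_p0 hD0 hβ hk1 hk2 (by linarith) (by linarith) hR0 hR)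
    y1.1 y1.2 y0.1 y0.2 (by norm_num)
    (ex_um 0.447 (by norm_num) (by norm_num) (by norm_num) (by norm_num)) (ex_um 0.46 (by norm_num) (by norm_num) (by norm_num) (by norm_num)) (ex_lm 0.454 (by norm_num) (by norm_num) (by norm_num) (by norm_num) (by norm_num)) (by norm_num) (by norm_num) (by norm_num) (by norm_num) (by norm_num) (by norm_num) (by norm_num) (by norm_num)
    (by norm_num) (by norm_num) (by norm_num) (by norm_num) (by norm_num) (by norm_num) (by norm_num) (by norm_num) (by norm_num) (by norm_num)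
    (ex_up 0.454 (by norm_num) (by norm_num) (by norm_num) (by norm_num)) (ex_lp 0.445 (by norm_num) (by norm_num) (by norm_num)) (by norm_num) (by norm_num) (by norm_num) (by norm_num) (by norm_num) (by norm_num)
    (by norm_num) (by norm_num) (by norm_num) (by norm_num) (by norm_num) (by norm_num) (by norm_num) (by norm_num) (by norm_num) (by norm_num) (by norm_num)
    (by norm_num) (by norm_num) (by norm_num) (by norm_num)

private theorem yA7 {κ t : ℝ} (h : DomR κ t) (hk1 : 1.3 ≤ κ) (hk2 : κ ≤ 1.33) (ht1 : 1.2 ≤ t + κ) (ht2 : t + κ ≤ 1.224) :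
    0.453 ≤ sy κ t ∧ sy κ t ≤ 0.467 := by
  have hy1 : 0.453 ≤ sy κ t := syR_ge h 1.3 1.33 1.2 0.453 1.57302 1.57303 0.53577 0.54815 hk1 hk2 (by linarith) (by norm_num) (by norm_num)
    (expn_ge (by norm_num) (by norm_num)) (expn_le (by norm_num) (by norm_num) (by norm_num)) (by norm_num)
    (by norm_num) (by norm_num) (by norm_num) (by norm_num) (by norm_num) (by norm_num)
  have hy2 : sy κ t ≤ 0.467 := syR_le h 1.3 1.33 1.224 0.467 1.5952 0.5568 0.56011 0.57305 hk1 hk2 (by linarith) (by norm_num) (by norm_num)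
    (expn_ge (by norm_num) (by norm_num)) (by norm_num) (by norm_num) (Or.inr ((mul_le_mul_of_nonneg_left (expn_le (E := 1.59521) (by norm_num) (by norm_num) (by norm_num)) (by norm_num)).trans (by norm_num))) (by norm_num) (by norm_num) (by norm_num)
  exact ⟨hy1, hy2⟩

private theorem yB7 {κ t : ℝ} (h : DomR κ t) (hk1 : 1.3 ≤ κ) (hk2 : κ ≤ 1.33) (ht1 : -0.8944 ≤ t + κ) (ht2 : t + κ ≤ -0.87039) :
    (-0.443) ≤ sy κ t ∧ sy κ t ≤ (-0.425) := by
  have hy1 : -0.443 ≤ sy κ t := syL_ge h 1.3 1.33 0.8944 0.443 0.6421 0.64211 0.2126 0.21387 0.21882 hk1 hk2 (by linarith) (by norm_num) (by norm_num) (by norm_num)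
    (expm_ge (by norm_num) (by norm_num) (by norm_num) (by norm_num)) (expm_le (by norm_num) (by norm_num) (by norm_num)) (by norm_num)
    (by norm_num) (by norm_num) (by norm_num) (by norm_num) (by norm_num) (by norm_num)
  have hy2 : sy κ t ≤ -0.425 := syL_le h 1.3 1.33 0.87039 0.425 0.65376 0.65378 0.2089 0.21374 hk1 hk2 (by linarith) (by norm_num) (by norm_num) (by norm_num)
    (expm_ge (by norm_num) (by norm_num) (by norm_num) (by norm_num)) (expm_le (by norm_num) (by norm_num) (by norm_num)) (by norm_num)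
    (by norm_num) (by norm_num) (by norm_num) (by norm_num) (by norm_num) (by norm_num)
  exact ⟨hy1, hy2⟩

theorem pc7 {β r h t κ : ℝ} (hh : h = 2 * Real.pi / (3 : ℕ)) (hβ : 0 < β) (hr : 10 ≤ r) (hκ : κ = β * r)
    (hk1 : 1.3 ≤ κ) (hk2 : κ ≤ 1.33) (hT1 : 1.2 ≤ t + κ) (hT2 : t + κ ≤ 1.224) :
    Xf β r h t 0 ≠ 0 ∧ r * 0.1032 ≤ (Ld β r h t 1 - Ld β r h t 0).im ∧
      ‖(((-1 : ℤ) : ℂ) - 1) * Ld β r h t 0 - ((-1 : ℤ) : ℂ) * Ld β r h t 1‖ ≤ r * 5.21 := by
  obtain ⟨q1, q2, q3⟩ := b3_h hh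
  have hR0 := b3_R0 hβ hr hκ
  have hR := b3_R hβ hr hκ (by linarith)
  have hD1 : DomR κ t := b3_dom (by linarith) (by linarith) (Or.inl (by linarith))
  have hD0 : DomR κ (t - h) := b3_dom (by linarith) (by linarith) (Or.inl (by linarith))
  have y1 := yA7 hD1 hk1 hk2 (by linarith) (by linarith)
  have y0 := yB7 hD0 hk1 hk2 (by linarith) (by linarith)
  have j1 := T3_27_d1_3 hD1 hβ hk1 hk2 (by linarith) (by linarith) hR0 hR
  exact b3_piece 1.3 1.33 0.453 0.467 0.46 0.63128 0.63572 0.62689 0.8456 2.5889 2.6292 0.08 0.195 0.195 3.028 1.5914 0 0 (-0.443) (-0.425) (-0.434) 1.54341 1.55738 2.0714 4.1033 0.1 0.28 0.17 3.3735 3.4497 0 0 0.1032 5.21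
    hβ hr hκ (by norm_num) hk1 hk2 hD1 hD0 j1 (j1 _ (by rw [sub_self, norm_zero]; norm_num))
    (T3_27_d0_3 hD0 hβ hk1 hk2 (by linarith) (by linarith) hR0 hR)
    (T3_27_p0 hD0 hβ hk1 hk2 (by linarith) (by linarith) hR0 hR)
    y1.1 y1.2 y0.1 y0.2 (by norm_num)
    (ex_um 0.453 (by norm_num) (by norm_num) (by norm_num) (by norm_num)) (ex_um 0.467 (by norm_num) (by norm_num) (by norm_num) (by norm_num)) (ex_lm 0.46 (by norm_num) (by norm_num) (by norm_num) (by norm_num) (by norm_num)) (by norm_num) (by norm_num) (by norm_num) (by norm_num) (by norm_num) (by norm_num) (by norm_num) (by norm_num)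
    (by norm_num) (by norm_num) (by norm_num) (by norm_num) (by norm_num) (by norm_num) (by norm_num) (by norm_num) (by norm_num) (by norm_num)
    (ex_up 0.443 (by norm_num) (by norm_num) (by norm_num) (by norm_num)) (ex_lp 0.434 (by norm_num) (by norm_num) (by norm_num)) (by norm_num) (by norm_num) (by norm_num) (by norm_num) (by norm_num) (by norm_num)
    (by norm_num) (by norm_num) (by norm_num) (by norm_num) (by norm_num) (by norm_num) (by norm_num) (by norm_num) (by norm_num) (by norm_num) (by norm_num)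
    (by norm_num) (by norm_num) (by norm_num) (by norm_num)

private theorem yA8 {κ t : ℝ} (h : DomR κ t) (hk1 : 1.3 ≤ κ) (hk2 : κ ≤ 1.33) (ht1 : 1.224 ≤ t + κ) (ht2 : t + κ ≤ 1.247) :
    0.46 ≤ sy κ t ∧ sy κ t ≤ 0.473 := by
  have hy1 : 0.46 ≤ sy κ t := syR_ge h 1.3 1.33 1.224 0.46 1.58407 1.58408 0.54787 0.56053 hk1 hk2 (by linarith) (by norm_num) (by norm_num)
    (expn_ge (by norm_num) (by norm_num)) (expn_le (by norm_num) (by norm_num) (by norm_num)) (by norm_num)
    (by norm_num) (by norm_num) (by norm_num) (by norm_num) (by norm_num) (by norm_num)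
  have hy2 : sy κ t ≤ 0.473 := syR_le h 1.3 1.33 1.247 0.473 1.6048 0.5674 0.57072 0.58391 hk1 hk2 (by linarith) (by norm_num) (by norm_num)
    (expn_ge (by norm_num) (by norm_num)) (by norm_num) (by norm_num) (Or.inr ((mul_le_mul_of_nonneg_left (expn_le (E := 1.60481) (by norm_num) (by norm_num) (by norm_num)) (by norm_num)).trans (by norm_num))) (by norm_num) (by norm_num) (by norm_num)
  exact ⟨hy1, hy2⟩

private theorem yB8 {κ t : ℝ} (h : DomR κ t) (hk1 : 1.3 ≤ κ) (hk2 : κ ≤ 1.33) (ht1 : -0.8704 ≤ t + κ) (ht2 : t + κ ≤ -0.84739) :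
    (-0.432) ≤ sy κ t ∧ sy κ t ≤ (-0.414) := by
  have hy1 : -0.432 ≤ sy κ t := syL_ge h 1.3 1.33 0.8704 0.432 0.6492 0.64921 0.2096 0.21086 0.21574 hk1 hk2 (by linarith) (by norm_num) (by norm_num) (by norm_num)
    (expm_ge (by norm_num) (by norm_num) (by norm_num) (by norm_num)) (expm_le (by norm_num) (by norm_num) (by norm_num)) (by norm_num)
    (by norm_num) (by norm_num) (by norm_num) (by norm_num) (by norm_num) (by norm_num)
  have hy2 : sy κ t ≤ -0.414 := syL_le h 1.3 1.33 0.84739 0.414 0.661 0.66101 0.20575 0.21051 hk1 hk2 (by linarith) (by norm_num) (by norm_num) (by norm_num)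
    (expm_ge (by norm_num) (by norm_num) (by norm_num) (by norm_num)) (expm_le (by norm_num) (by norm_num) (by norm_num)) (by norm_num)
    (by norm_num) (by norm_num) (by norm_num) (by norm_num) (by norm_num) (by norm_num)
  exact ⟨hy1, hy2⟩

theorem pc8 {β r h t κ : ℝ} (hh : h = 2 * Real.pi / (3 : ℕ)) (hβ : 0 < β) (hr : 10 ≤ r) (hκ : κ = β * r)
    (hk1 : 1.3 ≤ κ) (hk2 : κ ≤ 1.33) (hT1 : 1.224 ≤ t + κ) (hT2 : t + κ ≤ 1.247) :
    Xf β r h t 0 ≠ 0 ∧ r * 0.1032 ≤ (Ld β r h t 1 - Ld β r h t 0).im ∧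
      ‖(((-1 : ℤ) : ℂ) - 1) * Ld β r h t 0 - ((-1 : ℤ) : ℂ) * Ld β r h t 1‖ ≤ r * 5.21 := by
  obtain ⟨q1, q2, q3⟩ := b3_h hh
  have hR0 := b3_R0 hβ hr hκ
  have hR := b3_R hβ hr hκ (by linarith)
  have hD1 : DomR κ t := b3_dom (by linarith) (by linarith) (Or.inl (by linarith))
  have hD0 : DomR κ (t - h) := b3_dom (by linarith) (by linarith) (Or.inl (by linarith))
  have y1 := yA8 hD1 hk1 hk2 (by linarith) (by linarith)
  have y0 := yB8 hD0 hk1 hk2 (by linarith) (by linarith)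
  have j1 := T3_27_d1_3 hD1 hβ hk1 hk2 (by linarith) (by linarith) hR0 hR
  exact b3_piece 1.3 1.33 0.46 0.473 0.467 0.62688 0.63129 0.62314 0.8397 2.5934 2.6329 0.08 0.195 0.195 3.028 1.5789 0 0 (-0.432) (-0.414) (-0.423) 1.52653 1.54034 2.0487 4.0393 0.1 0.28 0.17 3.3735 3.4388 0 0 0.1032 5.21
    hβ hr hκ (by norm_num) hk1 hk2 hD1 hD0 j1 (j1 _ (by rw [sub_self, norm_zero]; norm_num))
    (T3_27_d0_3 hD0 hβ hk1 hk2 (by linarith) (by linarith) hR0 hR)
    (T3_27_p0 hD0 hβ hk1 hk2 (by linarith) (by linarith) hR0 hR)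
    y1.1 y1.2 y0.1 y0.2 (by norm_num)
    (ex_um 0.46 (by norm_num) (by norm_num) (by norm_num) (by norm_num)) (ex_um 0.473 (by norm_num) (by norm_num) (by norm_num) (by norm_num)) (ex_lm 0.467 (by norm_num) (by norm_num) (by norm_num) (by norm_num) (by norm_num)) (by norm_num) (by norm_num) (by norm_num) (by norm_num) (by norm_num) (by norm_num) (by norm_num) (by norm_num)
    (by norm_num) (by norm_num) (by norm_num) (by norm_num) (by norm_num) (by norm_num) (by norm_num) (by norm_num) (by norm_num) (by norm_num)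
    (ex_up 0.432 (by norm_num) (by norm_num) (by norm_num) (by norm_num)) (ex_lp 0.423 (by norm_num) (by norm_num) (by norm_num)) (by norm_num) (by norm_num) (by norm_num) (by norm_num) (by norm_num) (by norm_num)
    (by norm_num) (by norm_num) (by norm_num) (by norm_num) (by norm_num) (by norm_num) (by norm_num) (by norm_num) (by norm_num) (by norm_num) (by norm_num)
    (by norm_num) (by norm_num) (by norm_num) (by norm_num)

private theorem yA9 {κ t : ℝ} (h : DomR κ t) (hk1 : 1.3 ≤ κ) (hk2 : κ ≤ 1.33) (ht1 : 1.247 ≤ t + κ) (ht2 : t + κ ≤ 1.27) :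
    0.465 ≤ sy κ t ∧ sy κ t ≤ 0.479 := by
  have hy1 : 0.465 ≤ sy κ t := syR_ge h 1.3 1.33 1.247 0.465 1.59201 1.59202 0.5566 0.56946 hk1 hk2 (by linarith) (by norm_num) (by norm_num)
    (expn_ge (by norm_num) (by norm_num)) (expn_le (by norm_num) (by norm_num) (by norm_num)) (by norm_num)
    (by norm_num) (by norm_num) (by norm_num) (by norm_num) (by norm_num) (by norm_num)
  have hy2 : sy κ t ≤ 0.479 := syR_le h 1.3 1.33 1.27 0.479 1.61445 0.578 0.58144 0.59487 hk1 hk2 (by linarith) (by norm_num) (by norm_num)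
    (expn_ge (by norm_num) (by norm_num)) (by norm_num) (by norm_num) (Or.inr ((mul_le_mul_of_nonneg_left (expn_le (E := 1.61446) (by norm_num) (by norm_num) (by norm_num)) (by norm_num)).trans (by norm_num))) (by norm_num) (by norm_num) (by norm_num)
  exact ⟨hy1, hy2⟩

private theorem yB9 {κ t : ℝ} (h : DomR κ t) (hk1 : 1.3 ≤ κ) (hk2 : κ ≤ 1.33) (ht1 : -0.8474 ≤ t + κ) (ht2 : t + κ ≤ -0.82439) :
    (-0.421) ≤ sy κ t ∧ sy κ t ≤ (-0.403) := by
  have hy1 : -0.421 ≤ sy κ t := syL_ge h 1.3 1.33 0.8474 0.421 0.65639 0.6564 0.2065 0.20777 0.21258 hk1 hk2 (by linarith) (by norm_num) (by norm_num) (by norm_num)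
    (expm_ge (by norm_num) (by norm_num) (by norm_num) (by norm_num)) (expm_le (by norm_num) (by norm_num) (by norm_num)) (by norm_num)
    (by norm_num) (by norm_num) (by norm_num) (by norm_num) (by norm_num) (by norm_num)
  have hy2 : sy κ t ≤ -0.403 := syL_le h 1.3 1.33 0.82439 0.403 0.66831 0.66832 0.2025 0.20718 hk1 hk2 (by linarith) (by norm_num) (by norm_num) (by norm_num)
    (expm_ge (by norm_num) (by norm_num) (by norm_num) (by norm_num)) (expm_le (by norm_num) (by norm_num) (by norm_num)) (by norm_num)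
    (by norm_num) (by norm_num) (by norm_num) (by norm_num) (by norm_num) (by norm_num)
  exact ⟨hy1, hy2⟩

theorem pc9 {β r h t κ : ℝ} (hh : h = 2 * Real.pi / (3 : ℕ)) (hβ : 0 < β) (hr : 10 ≤ r) (hκ : κ = β * r)
    (hk1 : 1.3 ≤ κ) (hk2 : κ ≤ 1.33) (hT1 : 1.247 ≤ t + κ) (hT2 : t + κ ≤ 1.27) :
    Xf β r h t 0 ≠ 0 ∧ r * 0.1032 ≤ (Ld β r h t 1 - Ld β r h t 0).im ∧
      ‖(((-1 : ℤ) : ℂ) - 1) * Ld β r h t 0 - ((-1 : ℤ) : ℂ) * Ld β r h t 1‖ ≤ r * 5.21 := by
  obtain ⟨q1, q2, q3⟩ := b3_h hh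
  have hR0 := b3_R0 hβ hr hκ
  have hR := b3_R hβ hr hκ (by linarith)
  have hD1 : DomR κ t := b3_dom (by linarith) (by linarith) (Or.inl (by linarith))
  have hD0 : DomR κ (t - h) := b3_dom (by linarith) (by linarith) (Or.inl (by linarith))
  have y1 := yA9 hD1 hk1 hk2 (by linarith) (by linarith)
  have y0 := yB9 hD0 hk1 hk2 (by linarith) (by linarith)
  have j1 := T3_27_d1_4 hD1 hβ hk1 hk2 (by linarith) (by linarith) hR0 hR
  exact b3_piece 1.3 1.33 0.465 0.479 0.472 0.62375 0.62814 0.61941 0.8355 2.5967 2.6367 0.06 0.2 0.2 4.1667 2.1604 0 0 (-0.421) (-0.403) (-0.412) 1.50983 1.52349 2.0263 3.9771 0.1 0.26 0.17 3.1326 3.183 0 0 0.1032 5.21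
    hβ hr hκ (by norm_num) hk1 hk2 hD1 hD0 j1 (j1 _ (by rw [sub_self, norm_zero]; norm_num))
    (T3_27_d0_4 hD0 hβ hk1 hk2 (by linarith) (by linarith) hR0 hR)
    (T3_27_p0 hD0 hβ hk1 hk2 (by linarith) (by linarith) hR0 hR)
    y1.1 y1.2 y0.1 y0.2 (by norm_num)
    (ex_um 0.465 (by norm_num) (by norm_num) (by norm_num) (by norm_num)) (ex_um 0.479 (by norm_num) (by norm_num) (by norm_num) (by norm_num)) (ex_lm 0.472 (by norm_num) (by norm_num) (by norm_num) (by norm_num) (by norm_num)) (by norm_num) (by norm_num) (by norm_num) (by norm_num) (by norm_num) (by norm_num) (by norm_num) (by norm_num)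
    (by norm_num) (by norm_num) (by norm_num) (by norm_num) (by norm_num) (by norm_num) (by norm_num) (by norm_num) (by norm_num) (by norm_num)
    (ex_up 0.421 (by norm_num) (by norm_num) (by norm_num) (by norm_num)) (ex_lp 0.412 (by norm_num) (by norm_num) (by norm_num)) (by norm_num) (by norm_num) (by norm_num) (by norm_num) (by norm_num) (by norm_num)
    (by norm_num) (by norm_num) (by norm_num) (by norm_num) (by norm_num) (by norm_num) (by norm_num) (by norm_num) (by norm_num) (by norm_num) (by norm_num)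
    (by norm_num) (by norm_num) (by norm_num) (by norm_num)

private theorem yA10 {κ t : ℝ} (h : DomR κ t) (hk1 : 1.3 ≤ κ) (hk2 : κ ≤ 1.33) (ht1 : 1.27 ≤ t + κ) (ht2 : t + κ ≤ 1.294) :
    0.471 ≤ sy κ t ∧ sy κ t ≤ 0.485 := by
  have hy1 : 0.471 ≤ sy κ t := syR_ge h 1.3 1.33 1.27 0.471 1.60159 1.6016 0.56717 0.58028 hk1 hk2 (by linarith) (by norm_num) (by norm_num)
    (expn_ge (by norm_num) (by norm_num)) (expn_le (by norm_num) (by norm_num) (by norm_num)) (by norm_num)
    (by norm_num) (by norm_num) (by norm_num) (by norm_num) (by norm_num) (by norm_num)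
  have hy2 : sy κ t ≤ 0.485 := syR_le h 1.3 1.33 1.294 0.485 1.62417 0.5888 0.59227 0.60595 hk1 hk2 (by linarith) (by norm_num) (by norm_num)
    (expn_ge (by norm_num) (by norm_num)) (by norm_num) (by norm_num) (Or.inr ((mul_le_mul_of_nonneg_left (expn_le (E := 1.62418) (by norm_num) (by norm_num) (by norm_num)) (by norm_num)).trans (by norm_num))) (by norm_num) (by norm_num) (by norm_num)
  exact ⟨hy1, hy2⟩

private theorem yB10 {κ t : ℝ} (h : DomR κ t) (hk1 : 1.3 ≤ κ) (hk2 : κ ≤ 1.33) (ht1 : -0.8244 ≤ t + κ) (ht2 : t + κ ≤ -0.80039) :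
    (-0.41) ≤ sy κ t ∧ sy κ t ≤ (-0.392) := by
  have hy1 : -0.41 ≤ sy κ t := syL_ge h 1.3 1.33 0.8244 0.41 0.66365 0.66366 0.2033 0.20458 0.20931 hk1 hk2 (by linarith) (by norm_num) (by norm_num) (by norm_num)
    (expm_ge (by norm_num) (by norm_num) (by norm_num) (by norm_num)) (expm_le (by norm_num) (by norm_num) (by norm_num)) (by norm_num)
    (by norm_num) (by norm_num) (by norm_num) (by norm_num) (by norm_num) (by norm_num)
  have hy2 : sy κ t ≤ -0.392 := syL_le h 1.3 1.33 0.80039 0.392 0.6757 0.67571 0.19915 0.20376 hk1 hk2 (by linarith) (by norm_num) (by norm_num) (by norm_num)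
    (expm_ge (by norm_num) (by norm_num) (by norm_num) (by norm_num)) (expm_le (by norm_num) (by norm_num) (by norm_num)) (by norm_num)
    (by norm_num) (by norm_num) (by norm_num) (by norm_num) (by norm_num) (by norm_num)
  exact ⟨hy1, hy2⟩

theorem pc10 {β r h t κ : ℝ} (hh : h = 2 * Real.pi / (3 : ℕ)) (hβ : 0 < β) (hr : 10 ≤ r) (hκ : κ = β * r)
    (hk1 : 1.3 ≤ κ) (hk2 : κ ≤ 1.33) (hT1 : 1.27 ≤ t + κ) (hT2 : t + κ ≤ 1.294) :
    Xf β r h t 0 ≠ 0 ∧ r * 0.1032 ≤ (Ld β r h t 1 - Ld β r h t 0).im ∧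
      ‖(((-1 : ℤ) : ℂ) - 1) * Ld β r h t 0 - ((-1 : ℤ) : ℂ) * Ld β r h t 1‖ ≤ r * 5.21 := by
  obtain ⟨q1, q2, q3⟩ := b3_h hh
  have hR0 := b3_R0 hβ hr hκ
  have hR := b3_R hβ hr hκ (by linarith)
  have hD1 : DomR κ t := b3_dom (by linarith) (by linarith) (Or.inl (by linarith))
  have hD0 : DomR κ (t - h) := b3_dom (by linarith) (by linarith) (Or.inl (by linarith))
  have y1 := yA10 hD1 hk1 hk2 (by linarith) (by linarith)
  have y0 := yB10 hD0 hk1 hk2 (by linarith) (by linarith)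
  have j1 := T3_27_d1_4 hD1 hβ hk1 hk2 (by linarith) (by linarith) hR0 hR
  exact b3_piece 1.3 1.33 0.471 0.485 0.478 0.62002 0.62438 0.6157 0.8305 2.6007 2.6406 0.06 0.2 0.2 4.1667 2.1458 0 0 (-0.41) (-0.392) (-0.401) 1.49331 1.50682 2.0041 3.9168 0.1 0.26 0.17 3.1326 3.1722 0 0 0.1032 5.21
    hβ hr hκ (by norm_num) hk1 hk2 hD1 hD0 j1 (j1 _ (by rw [sub_self, norm_zero]; norm_num))
    (T3_27_d0_4 hD0 hβ hk1 hk2 (by linarith) (by linarith) hR0 hR)
    (T3_27_p0 hD0 hβ hk1 hk2 (by linarith) (by linarith) hR0 hR)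
    y1.1 y1.2 y0.1 y0.2 (by norm_num)
    (ex_um 0.471 (by norm_num) (by norm_num) (by norm_num) (by norm_num)) (ex_um 0.485 (by norm_num) (by norm_num) (by norm_num) (by norm_num)) (ex_lm 0.478 (by norm_num) (by norm_num) (by norm_num) (by norm_num) (by norm_num)) (by norm_num) (by norm_num) (by norm_num) (by norm_num) (by norm_num) (by norm_num) (by norm_num) (by norm_num)
    (by norm_num) (by norm_num) (by norm_num) (by norm_num) (by norm_num) (by norm_num) (by norm_num) (by norm_num) (by norm_num) (by norm_num)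
    (ex_up 0.41 (by norm_num) (by norm_num) (by norm_num) (by norm_num)) (ex_lp 0.401 (by norm_num) (by norm_num) (by norm_num)) (by norm_num) (by norm_num) (by norm_num) (by norm_num) (by norm_num) (by norm_num)
    (by norm_num) (by norm_num) (by norm_num) (by norm_num) (by norm_num) (by norm_num) (by norm_num) (by norm_num) (by norm_num) (by norm_num) (by norm_num)
    (by norm_num) (by norm_num) (by norm_num) (by norm_num)

private theorem yA11 {κ t : ℝ} (h : DomR κ t) (hk1 : 1.3 ≤ κ) (hk2 : κ ≤ 1.33) (ht1 : 1.294 ≤ t + κ) (ht2 : t + κ ≤ 1.317) :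
    0.477 ≤ sy κ t ∧ sy κ t ≤ 0.491 := by
  have hy1 : 0.477 ≤ sy κ t := syR_ge h 1.3 1.33 1.294 0.477 1.61123 1.61124 0.57786 0.59121 hk1 hk2 (by linarith) (by norm_num) (by norm_num)
    (expn_ge (by norm_num) (by norm_num)) (expn_le (by norm_num) (by norm_num) (by norm_num)) (by norm_num)
    (by norm_num) (by norm_num) (by norm_num) (by norm_num) (by norm_num) (by norm_num)
  have hy2 : sy κ t ≤ 0.491 := syR_le h 1.3 1.33 1.317 0.491 1.63394 0.5997 0.6032 0.61714 hk1 hk2 (by linarith) (by norm_num) (by norm_num)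
    (expn_ge (by norm_num) (by norm_num)) (by norm_num) (by norm_num) (Or.inr ((mul_le_mul_of_nonneg_left (expn_le (E := 1.63395) (by norm_num) (by norm_num) (by norm_num)) (by norm_num)).trans (by norm_num))) (by norm_num) (by norm_num) (by norm_num)
  exact ⟨hy1, hy2⟩

private theorem yB11 {κ t : ℝ} (h : DomR κ t) (hk1 : 1.3 ≤ κ) (hk2 : κ ≤ 1.33) (ht1 : -0.8004 ≤ t + κ) (ht2 : t + κ ≤ -0.77739) :
    (-0.398) ≤ sy κ t ∧ sy κ t ≤ (-0.381) := by
  have hy1 : -0.398 ≤ sy κ t := syL_ge h 1.3 1.33 0.8004 0.398 0.67166 0.67167 0.1998 0.20099 0.20564 hk1 hk2 (by linarith) (by norm_num) (by norm_num) (by norm_num)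
    (expm_ge (by norm_num) (by norm_num) (by norm_num) (by norm_num)) (expm_le (by norm_num) (by norm_num) (by norm_num)) (by norm_num)
    (by norm_num) (by norm_num) (by norm_num) (by norm_num) (by norm_num) (by norm_num)
  have hy2 : sy κ t ≤ -0.381 := syL_le h 1.3 1.33 0.77739 0.381 0.68317 0.68318 0.1957 0.20023 hk1 hk2 (by linarith) (by norm_num) (by norm_num) (by norm_num)
    (expm_ge (by norm_num) (by norm_num) (by norm_num) (by norm_num)) (expm_le (by norm_num) (by norm_num) (by norm_num)) (by norm_num)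
    (by norm_num) (by norm_num) (by norm_num) (by norm_num) (by norm_num) (by norm_num)
  exact ⟨hy1, hy2⟩

theorem pc11 {β r h t κ : ℝ} (hh : h = 2 * Real.pi / (3 : ℕ)) (hβ : 0 < β) (hr : 10 ≤ r) (hκ : κ = β * r)
    (hk1 : 1.3 ≤ κ) (hk2 : κ ≤ 1.33) (hT1 : 1.294 ≤ t + κ) (hT2 : t + κ ≤ 1.317) :
    Xf β r h t 0 ≠ 0 ∧ r * 0.1032 ≤ (Ld β r h t 1 - Ld β r h t 0).im ∧
      ‖(((-1 : ℤ) : ℂ) - 1) * Ld β r h t 0 - ((-1 : ℤ) : ℂ) * Ld β r h t 1‖ ≤ r * 5.21 := by
  obtain ⟨q1, q2, q3⟩ := b3_h hh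
  have hR0 := b3_R0 hβ hr hκ
  have hR := b3_R hβ hr hκ (by linarith)
  have hD1 : DomR κ t := b3_dom (by linarith) (by linarith) (Or.inl (by linarith))
  have hD0 : DomR κ (t - h) := b3_dom (by linarith) (by linarith) (Or.inl (by linarith))
  have y1 := yA11 hD1 hk1 hk2 (by linarith) (by linarith)
  have y0 := yB11 hD0 hk1 hk2 (by linarith) (by linarith)
  have j1 := T3_27_d1_4 hD1 hβ hk1 hk2 (by linarith) (by linarith) hR0 hR
  exact b3_piece 1.3 1.33 0.477 0.491 0.484 0.61631 0.62065 0.61202 0.8255 2.6049 2.6446 0.06 0.2 0.2 4.1667 2.1312 0 0 (-0.398) (-0.381) (-0.39) 1.47698 1.48885 1.9802 3.8583 0.1 0.26 0.17 3.1326 3.1581 0 0 0.1032 5.21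
    hβ hr hκ (by norm_num) hk1 hk2 hD1 hD0 j1 (j1 _ (by rw [sub_self, norm_zero]; norm_num))
    (T3_27_d0_4 hD0 hβ hk1 hk2 (by linarith) (by linarith) hR0 hR)
    (T3_27_p0 hD0 hβ hk1 hk2 (by linarith) (by linarith) hR0 hR)
    y1.1 y1.2 y0.1 y0.2 (by norm_num)
    (ex_um 0.477 (by norm_num) (by norm_num) (by norm_num) (by norm_num)) (ex_um 0.491 (by norm_num) (by norm_num) (by norm_num) (by norm_num)) (ex_lm 0.484 (by norm_num) (by norm_num) (by norm_num) (by norm_num) (by norm_num)) (by norm_num) (by norm_num) (by norm_num) (by norm_num) (by norm_num) (by norm_num) (by norm_num) (by norm_num)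
    (by norm_num) (by norm_num) (by norm_num) (by norm_num) (by norm_num) (by norm_num) (by norm_num) (by norm_num) (by norm_num) (by norm_num)
    (ex_up 0.398 (by norm_num) (by norm_num) (by norm_num) (by norm_num)) (ex_lp 0.39 (by norm_num) (by norm_num) (by norm_num)) (by norm_num) (by norm_num) (by norm_num) (by norm_num) (by norm_num) (by norm_num)
    (by norm_num) (by norm_num) (by norm_num) (by norm_num) (by norm_num) (by norm_num) (by norm_num) (by norm_num) (by norm_num) (by norm_num) (by norm_num)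
    (by norm_num) (by norm_num) (by norm_num) (by norm_num)

private theorem yA12 {κ t : ℝ} (h : DomR κ t) (hk1 : 1.3 ≤ κ) (hk2 : κ ≤ 1.33) (ht1 : 1.317 ≤ t + κ) (ht2 : t + κ ≤ 1.34) :
    0.483 ≤ sy κ t ∧ sy κ t ≤ 0.497 := by
  have hy1 : 0.483 ≤ sy κ t := syR_ge h 1.3 1.33 1.317 0.483 1.62092 1.62093 0.58864 0.60224 hk1 hk2 (by linarith) (by norm_num) (by norm_num)
    (expn_ge (by norm_num) (by norm_num)) (expn_le (by norm_num) (by norm_num) (by norm_num)) (by norm_num)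
    (by norm_num) (by norm_num) (by norm_num) (by norm_num) (by norm_num) (by norm_num)
  have hy2 : sy κ t ≤ 0.497 := syR_le h 1.3 1.33 1.34 0.497 1.64378 0.6107 0.61425 0.62844 hk1 hk2 (by linarith) (by norm_num) (by norm_num)
    (expn_ge (by norm_num) (by norm_num)) (by norm_num) (by norm_num) (Or.inr ((mul_le_mul_of_nonneg_left (expn_le (E := 1.64379) (by norm_num) (by norm_num) (by norm_num)) (by norm_num)).trans (by norm_num))) (by norm_num) (by norm_num) (by norm_num)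
  exact ⟨hy1, hy2⟩

private theorem yB12 {κ t : ℝ} (h : DomR κ t) (hk1 : 1.3 ≤ κ) (hk2 : κ ≤ 1.33) (ht1 : -0.7774 ≤ t + κ) (ht2 : t + κ ≤ -0.75439) :
    (-0.387) ≤ sy κ t ∧ sy κ t ≤ (-0.37) := by
  have hy1 : -0.387 ≤ sy κ t := syL_ge h 1.3 1.33 0.7774 0.387 0.67909 0.6791 0.1964 0.19759 0.20217 hk1 hk2 (by linarith) (by norm_num) (by norm_num) (by norm_num)
    (expm_ge (by norm_num) (by norm_num) (by norm_num) (by norm_num)) (expm_le (by norm_num) (by norm_num) (by norm_num)) (by norm_num)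
    (by norm_num) (by norm_num) (by norm_num) (by norm_num) (by norm_num) (by norm_num)
  have hy2 : sy κ t ≤ -0.37 := syL_le h 1.3 1.33 0.75439 0.37 0.69073 0.69074 0.19215 0.1966 hk1 hk2 (by linarith) (by norm_num) (by norm_num) (by norm_num)
    (expm_ge (by norm_num) (by norm_num) (by norm_num) (by norm_num)) (expm_le (by norm_num) (by norm_num) (by norm_num)) (by norm_num)
    (by norm_num) (by norm_num) (by norm_num) (by norm_num) (by norm_num) (by norm_num)
  exact ⟨hy1, hy2⟩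

theorem pc12 {β r h t κ : ℝ} (hh : h = 2 * Real.pi / (3 : ℕ)) (hβ : 0 < β) (hr : 10 ≤ r) (hκ : κ = β * r)
    (hk1 : 1.3 ≤ κ) (hk2 : κ ≤ 1.33) (hT1 : 1.317 ≤ t + κ) (hT2 : t + κ ≤ 1.34) :
    Xf β r h t 0 ≠ 0 ∧ r * 0.1032 ≤ (Ld β r h t 1 - Ld β r h t 0).im ∧
      ‖(((-1 : ℤ) : ℂ) - 1) * Ld β r h t 0 - ((-1 : ℤ) : ℂ) * Ld β r h t 1‖ ≤ r * 5.21 := by
  obtain ⟨q1, q2, q3⟩ := b3_h hh
  have hR0 := b3_R0 hβ hr hκ
  have hR := b3_R hβ hr hκ (by linarith)
  have hD1 : DomR κ t := b3_dom (by linarith) (by linarith) (Or.inl (by linarith))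
  have hD0 : DomR κ (t - h) := b3_dom (by linarith) (by linarith) (Or.inl (by linarith))
  have y1 := yA12 hD1 hk1 hk2 (by linarith) (by linarith)
  have y0 := yB12 hD0 hk1 hk2 (by linarith) (by linarith)
  have j1 := T3_27_d1_4 hD1 hβ hk1 hk2 (by linarith) (by linarith) hR0 hR
  exact b3_piece 1.3 1.33 0.483 0.497 0.49 0.61262 0.61694 0.60836 0.8206 2.6091 2.6487 0.06 0.2 0.2 4.1667 2.1168 0 0 (-0.387) (-0.37) (-0.379) 1.46082 1.47256 1.9586 3.8015 0.1 0.26 0.17 3.1326 3.1469 0 0 0.1032 5.21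
    hβ hr hκ (by norm_num) hk1 hk2 hD1 hD0 j1 (j1 _ (by rw [sub_self, norm_zero]; norm_num))
    (T3_27_d0_4 hD0 hβ hk1 hk2 (by linarith) (by linarith) hR0 hR)
    (T3_27_p0 hD0 hβ hk1 hk2 (by linarith) (by linarith) hR0 hR)
    y1.1 y1.2 y0.1 y0.2 (by norm_num)
    (ex_um 0.483 (by norm_num) (by norm_num) (by norm_num) (by norm_num)) (ex_um 0.497 (by norm_num) (by norm_num) (by norm_num) (by norm_num)) (ex_lm 0.49 (by norm_num) (by norm_num) (by norm_num) (by norm_num) (by norm_num)) (by norm_num) (by norm_num) (by norm_num) (by norm_num) (by norm_num) (by norm_num) (by norm_num) (by norm_num)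
    (by norm_num) (by norm_num) (by norm_num) (by norm_num) (by norm_num) (by norm_num) (by norm_num) (by norm_num) (by norm_num) (by norm_num)
    (ex_up 0.387 (by norm_num) (by norm_num) (by norm_num) (by norm_num)) (ex_lp 0.379 (by norm_num) (by norm_num) (by norm_num)) (by norm_num) (by norm_num) (by norm_num) (by norm_num) (by norm_num) (by norm_num)
    (by norm_num) (by norm_num) (by norm_num) (by norm_num) (by norm_num) (by norm_num) (by norm_num) (by norm_num) (by norm_num) (by norm_num) (by norm_num)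
    (by norm_num) (by norm_num) (by norm_num) (by norm_num)

theorem innS {β r h t κ : ℝ} (hh : h = 2 * Real.pi / (3 : ℕ)) (hβ : 0 < β) (hr : 10 ≤ r) (hκ : κ = β * r)
    (hk1 : 1.3 ≤ κ) (hk2 : κ ≤ 1.33) (hT1 : 1.047 ≤ t + κ) (hT2 : t + κ ≤ 1.34) :
    Xf β r h t 0 ≠ 0 ∧ r * 0.1032 ≤ (Ld β r h t 1 - Ld β r h t 0).im ∧
      ‖(((-1 : ℤ) : ℂ) - 1) * Ld β r h t 0 - ((-1 : ℤ) : ℂ) * Ld β r h t 1‖ ≤ r * 5.21 := by
  rcases le_total (t + κ) 1.067 with f0 | g0
  · exact pc0 hh hβ hr hκ hk1 hk2 hT1 f0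
  rcases le_total (t + κ) 1.087 with f1 | g1
  · exact pc1 hh hβ hr hκ hk1 hk2 g0 f1
  rcases le_total (t + κ) 1.107 with f2 | g2
  · exact pc2 hh hβ hr hκ hk1 hk2 g1 f2
  rcases le_total (t + κ) 1.127 with f3 | g3
  · exact pc3 hh hβ hr hκ hk1 hk2 g2 f3
  rcases le_total (t + κ) 1.152 with f4 | g4
  · exact pc4 hh hβ hr hκ hk1 hk2 g3 f4
  rcases le_total (t + κ) 1.177 with f5 | g5
  · exact pc5 hh hβ hr hκ hk1 hk2 g4 f5
  rcases le_total (t + κ) 1.2 with f6 | g6
  · exact pc6 hh hβ hr hκ hk1 hk2 g5 f6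
  rcases le_total (t + κ) 1.224 with f7 | g7
  · exact pc7 hh hβ hr hκ hk1 hk2 g6 f7
  rcases le_total (t + κ) 1.247 with f8 | g8
  · exact pc8 hh hβ hr hκ hk1 hk2 g7 f8
  rcases le_total (t + κ) 1.27 with f9 | g9
  · exact pc9 hh hβ hr hκ hk1 hk2 g8 f9
  rcases le_total (t + κ) 1.294 with f10 | g10
  · exact pc10 hh hβ hr hκ hk1 hk2 g9 f10
  rcases le_total (t + κ) 1.317 with f11 | g11
  · exact pc11 hh hβ hr hκ hk1 hk2 g10 f11
  exact pc12 hh hβ hr hκ hk1 hk2 g11 hT2

theorem circ {p : ℤ} (hp : IsCoprime (3 : ℤ) p) {β r : ℝ} (hβ : 0 < β) (hr : 10 ≤ r) (hk1 : 1.3 ≤ β * r)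
    (hk2 : β * r ≤ 1.33) : Circ (2 * Real.pi * p / (3 : ℕ) + β) r := by
  obtain ⟨κ, hκ⟩ : ∃ κ, κ = β * r := ⟨_, rfl⟩
  rw [← hκ] at hk1 hk2
  refine circ3 hp hr (h := 2 * Real.pi / (3 : ℕ)) (κ := κ) rfl 1.047 1.34 1.0075 0.1032 0.00243 0.00647 5.21 (by norm_num) (by norm_num) (by norm_num)
    (by norm_num) (by norm_num) ?_ ?_ ?_ ?_ ?_ (by norm_num) (by norm_num)
  · intro t h1 h2
    exact (innS rfl hβ hr hκ hk1 hk2 h1 h2).1
  · intro t h1 h2
    exact (innE rfl hβ hr hκ hk1 hk2 h1 h2).1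
  · intro t h1 h2
    exact (innE rfl hβ hr hκ hk1 hk2 h1 h2).2
  · intro t h1 h2
    exact (innS rfl hβ hr hκ hk1 hk2 h1 h2).2
  · intro t h1 h2 h3
    rcases h3 with h3 | h3
    · rcases le_total (t + κ) 1.026 with g | g
      · exact left rfl hβ hr hκ hk1 hk2 h1 g
      · exact middle rfl hβ hr hκ hk1 hk2 g h3
    · rcases le_total (t + κ) 1.7 with g | g
      · exact right0 rfl hβ hr hκ hk1 hk2 h3 g
      · exact right1 rfl hβ hr hκ hk1 hk2 g h2

end B3_27

end Sok
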