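import Pool.Agent.Lib.MP_816dec_an.R1b3D
import Pool.Agent.Lib.MP_816dec_an.R1b3J28

/-!
MP_816dec_an (A3, row R1, b = 3): the cell `1.33 ≤ κ ≤ 1.36`.
-/

set_option autoImplicit false
set_option maxHeartbeats 4000000
set_option linter.unusedVariables false

open Complex Set

namespace Sok

namespace B3_28

private theorem yL {κ t : ℝ} (h : DomR κ t) (hk1 : 1.33 ≤ κ) (hk2 : κ ≤ 1.36) (ht1 : 0 ≤ t + κ) (ht2 : t + κ ≤ 1.022) :
    0 ≤ sy κ t ∧ sy κ t ≤ 0.409 := by
  have hy1 : 0 ≤ sy κ t := sy_nonneg h (by linarith)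
  have hy2 : sy κ t ≤ 0.409 := syR_le h 1.33 1.36 1.022 0.409 1.50531 0.4509 0.45269 0.46292 hk1 hk2 (by linarith) (by norm_num) (by norm_num)
    (expn_ge (by norm_num) (by norm_num)) (by norm_num) (by norm_num) (Or.inr ((mul_le_mul_of_nonneg_left (expn_le (E := 1.50532) (by norm_num) (by norm_num) (by norm_num)) (by norm_num)).trans (by norm_num))) (by norm_num) (by norm_num) (by norm_num)
  exact ⟨hy1, hy2⟩

theorem left {β r h t κ : ℝ} (hh : h = 2 * Real.pi / (3 : ℕ)) (hβ : 0 < β) (hr : 10 ≤ r) (hκ : κ = β * r)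
    (hk1 : 1.33 ≤ κ) (hk2 : κ ≤ 1.36) (hT1 : 0 ≤ t + κ) (hT2 : t + κ ≤ 1.022) :
    ‖Xf β r h t (-1)‖ < |‖Xf β r h t 1‖ - ‖Xf β r h t 0‖| := by
  obtain ⟨q1, q2, q3⟩ := b3_h hh
  have hR0 := b3_R0 hβ hr hκ
  have hR := b3_R hβ hr hκ (by linarith)
  have hD1 : DomR κ t := b3_dom (by linarith) (by linarith) (Or.inl (by linarith))
  have hy := yL hD1 hk1 hk2 (by linarith) (by linarith)
  have hY : 0.6965 * Real.exp (r * 0.8296) ≤ ‖Xf β r h t 1‖ :=
    b3_lo hβ hr hκ (k := 1) (t' := t) (by push_cast; ring) hD1 0.095 2.8496 0.6965 0.8296 (by norm_num)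
      (T3_28_p1 hD1 hβ hk1 hk2 (by linarith) (by linarith) hR0 hR)
      (v5_Dup hD1 1.36 0 0.409 1 0.66432 2.8496 hk2 hy.1 hy.2 (ex_up 0 (by norm_num) (by norm_num) (by norm_num) (by norm_num)) (ex_um 0.409 (by norm_num) (by norm_num) (by norm_num) (by norm_num)) (by norm_num) (by norm_num) (by norm_num)) (by norm_num) (by norm_num)
      (b3_Vlo hD1 1.33 1.36 0 1.022 0.62 (-0.47803) 0.5168 0.8694 0.13996 0.8296 hk1 hk2 (by linarith) (by linarith) (by norm_num) (ex_lm 0.47803 (by norm_num) (by norm_num) (by norm_num) (by norm_num) (by norm_num)) (by norm_num) (by norm_num) (by norm_num) (by norm_num) (by norm_num) (by norm_num) (by norm_num) (by norm_num) (ex_um 0.13996 (by norm_num) (by norm_num) (by norm_num) (by norm_num)) (by norm_num))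
  have h0 : ‖Xf β r h t 0‖ ≤ 0.8534 * ‖Xf β r h t 1‖ :=
    b3_cmp 0.7146 0.03365 0.0004151 0.7796 0.852493 0.000887 0.8534 hr (b3_HU0 0.39 1.33 1.36 (-2.0944) (-1.07239) 1.21418 1.67985 1.69962 0.5953 0.58838 1.67984 0.8309 0.14713 0.66353 1.2576 0 0.05 0.000001 1.4881 0.79595 hβ hr hκ (by norm_num) hk1 hk2 (by norm_num) (by linarith) (by linarith) (by norm_num) (by norm_num) (ex_up 0.5187 (by norm_num) (by norm_num) (by norm_num) (by norm_num)) (ex_up 0.5304 (by norm_num) (by norm_num) (by norm_num) (by norm_num)) (ex_um 0.5187 (by norm_num) (by norm_num) (by norm_num) (by norm_num)) (ex_um 0.5304 (by norm_num) (by norm_num) (by norm_num) (by norm_num)) (by norm_num) (by norm_num) (ex_lp 0.5187 (by norm_num) (by norm_num) (by norm_num)) (by norm_num) (by norm_num) (by norm_num) (by norm_num) (by norm_num) (by norm_num) (by norm_num) (by norm_num) (by norm_num) (by norm_num) (by norm_num) (by norm_num) (by norm_num) (by norm_num) (v5_hump 4.4475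 7.352 2.7115 0.0000003148 0.000001 hβ hr hκ hk1 hk2 (by norm_num) (tb := (-1.07239)) (by linarith) (by norm_num) (by norm_num) (by norm_num) (by norm_num) (by norm_num) (by norm_num) (by norm_num) (ex_un 14 0.99 (by norm_num) (by norm_num) (by norm_num) (by norm_num)) (by norm_num)) (by norm_num) (by norm_num)) hY (by norm_num) (by norm_num) (by norm_num) (by norm_num) (by norm_num) (ex_un 0 0.3365 (by norm_num) (by norm_num) (by norm_num) (by norm_num)) (by norm_num) (by norm_num) (by norm_num) (ex_un 7 0.796 (by norm_num) (by norm_num) (by norm_num) (by norm_num)) (by norm_num) (by norm_num)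
  have h2 : ‖Xf β r h t (-1)‖ ≤ 0.0517 * ‖Xf β r h t 1‖ := by
    rcases le_total ((t + h) + κ) 2.7 with g0 | g0
    · exact b3_cmp 0.01799 0.40182 0.0002496 0.8296 0.051589 0.000079 0.0517 hr ((b3_Xm hh).trans_le (b3_HF 0.41 1.33 1.36 2.09439 2.7 1.28647 0.57967 0.57259 1.72513 1.74648 0.57258 1.6799 0.14713 2.30509 0.2007 0.08484 0.4329 0.008738 1.9973 0.2197 0.42778 hβ hr hκ (by norm_num) hk1 hk2 (by norm_num) (by linarith) (by linarith) (by norm_num) (ex_um 0.5453 (by norm_num) (by norm_num) (by norm_num) (by norm_num)) (ex_um 0.5576 (by norm_num) (by norm_num) (by norm_num) (by norm_num)) (ex_up 0.5453 (by norm_num) (by norm_num) (by norm_num) (by norm_num)) (ex_up 0.5576 (by norm_num) (by norm_num) (by norm_num) (by norm_num)) (by norm_num) (by norm_num) (ex_lm 0.5576 (by norm_num) (by norm_num) (by norm_num) (by norm_num) (by norm_num)) (by norm_num) (by norm_num) (by norm_num) (by norm_num) (by norm_num) (by norm_num) (by norm_num) (by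 norm_num) (by norm_num) (by norm_num) (by norm_num) (by norm_num) (ex_un 0 0.8484 (by norm_num) (by norm_num) (by norm_num) (by norm_num)) (v5_hump 0.6751 7.352 2.7115 0.00711 0.008738 hβ hr hκ hk1 hk2 (by norm_num) (tb := 2.7) (by linarith) (by norm_num) (by norm_num) (by norm_num) (by norm_num) (by norm_num) (by norm_num) (by norm_num) (ex_un 4 0.9633 (by norm_num) (by norm_num) (by norm_num) (by norm_num)) (by norm_num)) (by norm_num) (by norm_num) (by norm_num))) hY (by norm_num) (by norm_num) (by norm_num) (by norm_num) (by norm_num) (ex_un 4 0.0182 (by norm_num) (by norm_num) (by norm_num) (by norm_num)) (by norm_num) (by norm_num) (by norm_num) (ex_un 8 0.296 (by norm_num) (by norm_num) (by norm_num) (by norm_num)) (by norm_num) (by norm_num)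
    exact b3_cmp 1 0 0.008338 0.4796 0 0.038538 0.0517 hr (b3_w (b3_UD 1.33 1.36 2.7 3.1164 0.3 0.34593 0.3 1.6783 3.2192 0.35 hh hβ hr hκ (by norm_num) hk1 hk2 (by linarith) (by linarith) (by norm_num) (by norm_num) (by norm_num) (by norm_num) (by norm_num) (by norm_num) (by norm_num) (by norm_num) (by norm_num) (by norm_num) (by norm_num) (by norm_num) (by norm_num))) hY (by norm_num) (by norm_num) (by norm_num) (by norm_num) (by norm_num) (by norm_num) (by norm_num) (by norm_num) (by norm_num) (ex_un 4 0.796 (by norm_num) (by norm_num) (by norm_num) (by norm_num)) (by norm_num) (by norm_num)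
  exact b3_out1 0.8534 0.0517 hY (by norm_num) h0 h2 (by norm_num)

private theorem yM1 {κ t : ℝ} (h : DomR κ t) (hk1 : 1.33 ≤ κ) (hk2 : κ ≤ 1.36) (ht1 : 0 ≤ t + κ) (ht2 : t + κ ≤ 1.047) :
    0 ≤ sy κ t ∧ sy κ t ≤ 0.417 := by
  have hy1 : 0 ≤ sy κ t := sy_nonneg h (by linarith)
  have hy2 : sy κ t ≤ 0.417 := syR_le h 1.33 1.36 1.047 0.417 1.5174 0.4626 0.46526 0.47576 hk1 hk2 (by linarith) (by norm_num) (by norm_num)
    (expn_ge (by norm_num) (by norm_num)) (by norm_num) (by norm_num) (Or.inr ((mul_le_mul_of_nonneg_left (expn_le (E := 1.51741) (by norm_num) (by norm_num) (by norm_num)) (by norm_num)).trans (by norm_num))) (by norm_num) (by norm_num) (by norm_num)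
  exact ⟨hy1, hy2⟩

private theorem yM0 {κ t : ℝ} (h : DomR κ t) (hk1 : 1.33 ≤ κ) (hk2 : κ ≤ 1.36) (ht1 : -1.0724 ≤ t + κ) (ht2 : t + κ ≤ -1.04739) :
    (-0.517) ≤ sy κ t ∧ sy κ t ≤ (-0.498) := by
  have hy1 : -0.517 ≤ sy κ t := syL_ge h 1.33 1.36 1.0724 0.517 0.5963 0.59631 0.2253 0.22668 0.2318 hk1 hk2 (by linarith) (by norm_num) (by norm_num) (by norm_num)
    (expm_ge (by norm_num) (by norm_num) (by norm_num) (by norm_num)) (expm_le (by norm_num) (by norm_num) (by norm_num)) (by norm_num)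
    (by norm_num) (by norm_num) (by norm_num) (by norm_num) (by norm_num) (by norm_num)
  have hy2 : sy κ t ≤ -0.498 := syL_le h 1.33 1.36 1.04739 0.498 0.60774 0.60775 0.22254 0.22757 hk1 hk2 (by linarith) (by norm_num) (by norm_num) (by norm_num)
    (expm_ge (by norm_num) (by norm_num) (by norm_num) (by norm_num)) (expm_le (by norm_num) (by norm_num) (by norm_num)) (by norm_num)
    (by norm_num) (by norm_num) (by norm_num) (by norm_num) (by norm_num) (by norm_num)
  exact ⟨hy1, hy2⟩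

theorem middle {β r h t κ : ℝ} (hh : h = 2 * Real.pi / (3 : ℕ)) (hβ : 0 < β) (hr : 10 ≤ r) (hκ : κ = β * r)
    (hk1 : 1.33 ≤ κ) (hk2 : κ ≤ 1.36) (hT1 : 1.022 ≤ t + κ) (hT2 : t + κ ≤ 1.047) :
    ‖Xf β r h t (-1)‖ < |‖Xf β r h t 1‖ - ‖Xf β r h t 0‖| := by
  obtain ⟨q1, q2, q3⟩ := b3_h hh
  have hR0 := b3_R0 hβ hr hκ
  have hR := b3_R hβ hr hκ (by linarith)
  have hD1 : DomR κ t := b3_dom (by linarith) (by linarith) (Or.inl (by linarith))
  have hD0 : DomR κ (t - h) := b3_dom (by linarith) (by linarith) (Or.inl (by linarith))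
  have hy := yM1 hD1 hk1 hk2 (by linarith) (by linarith)
  have hy0 := yM0 hD0 hk1 hk2 (by linarith) (by linarith)
  have hY : 0.6965 * Real.exp (r * 0.82135) ≤ ‖Xf β r h t 1‖ :=
    b3_lo hβ hr hκ (k := 1) (t' := t) (by push_cast; ring) hD1 0.095 2.8496 0.6965 0.82135 (by norm_num)
      (T3_28_p1 hD1 hβ hk1 hk2 (by linarith) (by linarith) hR0 hR)
      (v5_Dup hD1 1.36 0 0.417 1 0.65903 2.8496 hk2 hy.1 hy.2 (ex_up 0 (by norm_num) (by norm_num) (by norm_num) (by norm_num)) (ex_um 0.417 (by norm_num) (by norm_num) (by norm_num) (by norm_num)) (by norm_num) (by norm_num) (by norm_num)) (by norm_num) (by norm_num)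
      (b3_Vlo hD1 1.33 1.36 0 1.047 0.61 (-0.49429) 0.5304 0.8626 0.14781 0.82135 hk1 hk2 (by linarith) (by linarith) (by norm_num) (ex_lm 0.49429 (by norm_num) (by norm_num) (by norm_num) (by norm_num) (by norm_num)) (by norm_num) (by norm_num) (by norm_num) (by norm_num) (by norm_num) (by norm_num) (by norm_num) (by norm_num) (ex_um 0.14781 (by norm_num) (by norm_num) (by norm_num) (by norm_num)) (by norm_num))
  have hU : ‖Xf β r h t 0‖ ≤ 0.7874 * Real.exp (r * 0.80485) :=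
    b3_up hβ hr hκ (k := 0) (t' := t - h) (by push_cast; ring) hD0 0.165 4.7923 0.7874 0.80485
      (T3_28_p0m hD0 hβ hk1 hk2 (by linarith) (by linarith) hR0 hR) (v5_Dlo hD0 1.33 (-0.517) (-0.498) (-0.507) 1.6603 4.7923 (by norm_num) hk1 hy0.1 hy0.2 (ex_lp 0.507 (by norm_num) (by norm_num) (by norm_num)) (by norm_num) (by norm_num) (by norm_num) (by norm_num)) (by norm_num) (by norm_num)
      (b3_VH hD0 0.37 1.33 1.36 1.19238 1.63575 1.65401 0.61135 0.6046 (-1.04739) 0.80485 (by norm_num) hk1 hk2 (by norm_num) (ex_up 0.4921 (by norm_num) (by norm_num) (by norm_num) (by norm_num)) (ex_up 0.5032 (by norm_num) (by norm_num) (by norm_num) (by norm_num)) (ex_um 0.4921 (by norm_num) (by norm_num) (by norm_num) (by norm_num)) (ex_um 0.5032 (by norm_num) (by norm_num) (by norm_num) (by norm_num)) (by norm_num) (by norm_num) (by norm_num) (by linarith) (by norm_num))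
  have h0 : ‖Xf β r h t 0‖ ≤ 0.9587 * ‖Xf β r h t 1‖ :=
    b3_cmp 1 0 0.848 0.0165 0 0.958673 0.9587 hr (b3_w hU) hY (by norm_num) (by norm_num) (by norm_num) (by norm_num) (by norm_num) (by norm_num) (by norm_num) (by norm_num) (by norm_num) (ex_un 0 0.165 (by norm_num) (by norm_num) (by norm_num) (by norm_num)) (by norm_num) (by norm_num)
  have h2 : ‖Xf β r h t (-1)‖ ≤ 0.001 * ‖Xf β r h t 1‖ := by
    exact b3_cmp 1 0 0.0004496 0.77135 0 0.000922 0.001 hr ((b3_Xm hh).trans_le (b3_U1 1.33 1.36 3.11639 3.1414 0.18559 0.14713 0.66353 0.1841 0.08713 1.3853 0.221935 1.4282 hβ hr hκ (by norm_num) hk1 hk2 (by linarith) (by linarith) (by norm_num) (by norm_num) (by norm_num) (by norm_num) (by norm_num) (by norm_num) (by norm_num) (by norm_num) (by norm_num) (by norm_num) (by norm_num) (by norm_num) (by norm_num) (ex_un 1 0.841 (by norm_num) (by norm_num) (by norm_num) (by norm_num)) (v5_hump 0.2337 7.352 2.7115 0.1806 0.221935 hβ hr hκ hk1 hk2 (by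 norm_num) (tb := 3.1414) (by linarith) (by norm_num) (by norm_num) (by norm_num) (by norm_num) (by norm_num) (by norm_num) (by norm_num) (ex_un 1 0.7181 (by norm_num) (by norm_num) (by norm_num) (by norm_num)) (by norm_num)) (by norm_num))) hY (by norm_num) (by norm_num) (by norm_num) (by norm_num) (by norm_num) (by norm_num) (by norm_num) (by norm_num) (by norm_num) (ex_un 7 0.7135 (by norm_num) (by norm_num) (by norm_num) (by norm_num)) (by norm_num) (by norm_num)
  exact b3_out1 0.9587 0.001 hY (by norm_num) h0 h2 (by norm_num)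

private theorem yR0 {κ t : ℝ} (h : DomR κ t) (hk1 : 1.33 ≤ κ) (hk2 : κ ≤ 1.36) (ht1 : -0.7544 ≤ t + κ) (ht2 : t + κ ≤ -0.39439) :
    (-0.371) ≤ sy κ t ∧ sy κ t ≤ (-0.192) := by
  have hy1 : -0.371 ≤ sy κ t := syL_ge h 1.33 1.36 0.7544 0.371 0.69004 0.69005 0.1871 0.18823 0.19249 hk1 hk2 (by linarith) (by norm_num) (by norm_num) (by norm_num)
    (expm_ge (by norm_num) (by norm_num) (by norm_num) (by norm_num)) (expm_le (by norm_num) (by norm_num) (by norm_num)) (by norm_num)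
    (by norm_num) (by norm_num) (by norm_num) (by norm_num) (by norm_num) (by norm_num)
  have hy2 : sy κ t ≤ -0.192 := syL_le h 1.33 1.36 0.39439 0.192 0.8253 0.82531 0.11651 0.11915 hk1 hk2 (by linarith) (by norm_num) (by norm_num) (by norm_num)
    (expm_ge (by norm_num) (by norm_num) (by norm_num) (by norm_num)) (expm_le (by norm_num) (by norm_num) (by norm_num)) (by norm_num)
    (by norm_num) (by norm_num) (by norm_num) (by norm_num) (by norm_num) (by norm_num)
  exact ⟨hy1, hy2⟩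

theorem right0 {β r h t κ : ℝ} (hh : h = 2 * Real.pi / (3 : ℕ)) (hβ : 0 < β) (hr : 10 ≤ r) (hκ : κ = β * r)
    (hk1 : 1.33 ≤ κ) (hk2 : κ ≤ 1.36) (hT1 : 1.34 ≤ t + κ) (hT2 : t + κ ≤ 1.7) :
    ‖Xf β r h t (-1)‖ < |‖Xf β r h t 1‖ - ‖Xf β r h t 0‖| := by
  obtain ⟨q1, q2, q3⟩ := b3_h hh
  have hR0 := b3_R0 hβ hr hκ
  have hR := b3_R hβ hr hκ (by linarith)
  have hD0 : DomR κ (t - h) := b3_dom (by linarith) (by linarith) (Or.inl (by linarith))
  have hy := yR0 hD0 hk1 hk2 (by linarith) (by linarith)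
  have hY : 0.6063 * Real.exp (r * 0.89465) ≤ ‖Xf β r h t 0‖ :=
    b3_lo hβ hr hκ (k := 0) (t' := t - h) (by push_cast; ring) hD0 0.135 4.1425 0.6063 0.89465 (by norm_num)
      (T3_28_p0R hD0 hβ hk1 hk2 (by linarith) (by linarith) hR0 hR)
      (v5_Dup hD0 1.36 (-0.371) (-0.192) 1.44919 1.21168 4.1425 hk2 hy.1 hy.2 (ex_up 0.371 (by norm_num) (by norm_num) (by norm_num) (by norm_num)) (ex_up 0.192 (by norm_num) (by norm_num) (by norm_num) (by norm_num)) (by norm_num) (by norm_num) (by norm_num)) (by norm_num) (by norm_num)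
      (b3_Vlo hD0 1.33 1.36 (-0.7544) (-0.39439) 1.42 0.35066 0.1958 0.98089 0.0193 0.89465 hk1 hk2 (by linarith) (by linarith) (by norm_num) (ex_lp 0.35066 (by norm_num) (by norm_num) (by norm_num)) (by norm_num) (by norm_num) (by norm_num) (by norm_num) (by norm_num) (by norm_num) (by norm_num) (by norm_num) (ex_um 0.0193 (by norm_num) (by norm_num) (by norm_num) (by norm_num)) (by norm_num))
  have h1 : ‖Xf β r h t 1‖ ≤ 0.4762 * ‖Xf β r h t 0‖ := by
    exact b3_cmp 0.1988 0.16195 0.0001323 0.89465 0.476097 0.000053 0.4762 hr (b3_X1.trans_le (b3_HF 0.33 1.33 1.36 1.34 1.7 1.1749 0.64475 0.6384 1.55101 1.56644 0.63839 1.4366 0.14713 1.5507 1.2007 0.20773 0.1253 0.000006 1.452 0.2421 0.7327 hβ hr hκ (by norm_num) hk1 hk2 (by norm_num) (by linarith) (by linarith) (by norm_num) (ex_um 0.4389 (by norm_num) (by norm_num) (by norm_num) (by norm_num)) (ex_um 0.4488 (by norm_num) (by norm_num) (by norm_num) (by norm_num)) (ex_up 0.4389 (by norm_num)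 (by norm_num) (by norm_num) (by norm_num)) (ex_up 0.4488 (by norm_num) (by norm_num) (by norm_num) (by norm_num)) (by norm_num) (by norm_num) (ex_lm 0.4488 (by norm_num) (by norm_num) (by norm_num) (by norm_num) (by norm_num)) (by norm_num) (by norm_num) (by norm_num) (by norm_num) (by norm_num) (by norm_num) (by norm_num) (by norm_num) (by norm_num) (by norm_num) (by norm_num) (by norm_num) (ex_un 2 0.0773 (by norm_num) (by norm_num) (by norm_num) (by norm_num)) (v5_hump 1.6751 7.352 2.7115 0.000004485 0.000006 hβ hr hκ hk1 hk2 (by norm_num) (tb := 1.7) (by linarith) (by norm_num) (by norm_num) (by norm_num) (by norm_num) (by norm_num) (by norm_num) (by norm_num) (ex_un 12 0.3153 (by norm_num) (by norm_num) (by norm_num) (by norm_num)) (by norm_num)) (by norm_num) (by norm_num) (by norm_num))) hY (by norm_num) (by norm_num) (by norm_num) (by norm_num) (by norm_num) (ex_un 1 0.6195 (by norm_num) (by norm_num) (by norm_num) (by norm_num)) (by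 norm_num) (by norm_num) (by norm_num) (ex_un 8 0.9465 (by norm_num) (by norm_num) (by norm_num) (by norm_num)) (by norm_num) (by norm_num)
  have h2 : ‖Xf β r h t (-1)‖ ≤ 0.0147 * ‖Xf β r h t 0‖ := by
    exact b3_cmp 1 0 0.004688 0.53635 0 0.014668 0.0147 hr (b3_w (b3_UD 1.33 1.36 3.43439 3.7944 0.005 0.34593 0.3083 0.9889 1.8969 0.3583 hh hβ hr hκ (by norm_num) hk1 hk2 (by linarith) (by linarith) (by norm_num) (by norm_num) (by norm_num) (by norm_num) (by norm_num) (by norm_num) (by norm_num) (by norm_num) (by norm_num) (by norm_num) (by norm_num) (by norm_num) (by norm_num))) hY (by norm_num) (by norm_num) (by norm_num) (by norm_num) (by norm_num) (by norm_num) (by norm_num) (by norm_num) (by norm_num) (ex_un 5 0.3635 (by norm_num) (by norm_num) (by norm_num) (by norm_num)) (by norm_num) (by norm_num)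
  exact b3_out0 0.4762 0.0147 hY (by norm_num) h1 h2 (by norm_num)

private theorem yR1 {κ t : ℝ} (h : DomR κ t) (hk1 : 1.33 ≤ κ) (hk2 : κ ≤ 1.36) (ht1 : -0.3944 ≤ t + κ) (ht2 : t + κ ≤ 0.0001) :
    (-0.195) ≤ sy κ t ∧ sy κ t ≤ 0.005 := by
  have hy1 : -0.195 ≤ sy κ t := syL_ge h 1.33 1.36 0.3944 0.195 0.82283 0.82284 0.1172 0.11797 0.12065 hk1 hk2 (by linarith) (by norm_num) (by norm_num) (by norm_num)
    (expm_ge (by norm_num) (by norm_num) (by norm_num) (by norm_num)) (expm_le (by norm_num) (by norm_num) (by norm_num)) (by norm_num)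
    (by norm_num) (by norm_num) (by norm_num) (by norm_num) (by norm_num) (by norm_num)
  have hy2 : sy κ t ≤ 0.005 := syR_le h 1.33 1.36 0.0001 0.005 1.00501 0.0036 0.00369 0.00378 hk1 hk2 (by linarith) (by norm_num) (by norm_num)
    (expn_ge (by norm_num) (by norm_num)) (by norm_num) (by norm_num) (Or.inr ((mul_le_mul_of_nonneg_left (expn_le (E := 1.00502) (by norm_num) (by norm_num) (by norm_num)) (by norm_num)).trans (by norm_num))) (by norm_num) (by norm_num) (by norm_num)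
  exact ⟨hy1, hy2⟩

theorem right1 {β r h t κ : ℝ} (hh : h = 2 * Real.pi / (3 : ℕ)) (hβ : 0 < β) (hr : 10 ≤ r) (hκ : κ = β * r)
    (hk1 : 1.33 ≤ κ) (hk2 : κ ≤ 1.36) (hT1 : 1.7 ≤ t + κ) (hT2 : t + κ ≤ h) :
    ‖Xf β r h t (-1)‖ < |‖Xf β r h t 1‖ - ‖Xf β r h t 0‖| := by
  obtain ⟨q1, q2, q3⟩ := b3_h hh
  have hR0 := b3_R0 hβ hr hκ
  have hR := b3_R hβ hr hκ (by linarith)
  have hD0 : DomR κ (t - h) := b3_dom (by linarith) (by linarith) (Or.inl (by linarith))
  have hy := yR1 hD0 hk1 hk2 (by linarith) (by linarith)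
  have hY : 0.6397 * Real.exp (r * 0.96572) ≤ ‖Xf β r h t 0‖ :=
    b3_lo hβ hr hκ (k := 0) (t' := t - h) (by push_cast; ring) hD0 0.135 3.3419 0.6397 0.96572 (by norm_num)
      (T3_28_p0R hD0 hβ hk1 hk2 (by linarith) (by linarith) hR0 hR)
      (v5_Dup hD0 1.36 (-0.195) 0.005 1.21532 0.99502 3.3419 hk2 hy.1 hy.2 (ex_up 0.195 (by norm_num) (by norm_num) (by norm_num) (by norm_num)) (ex_um 0.005 (by norm_num) (by norm_num) (by norm_num) (by norm_num)) (by norm_num) (by norm_num) (by norm_num)) (by norm_num) (by norm_num)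
      (b3_Vlo hD0 1.33 1.36 (-0.3944) 0.0001 1.14 0.13103 0.2082 0.9784 0.02184 0.96572 hk1 hk2 (by linarith) (by linarith) (by norm_num) (ex_lp 0.13103 (by norm_num) (by norm_num) (by norm_num)) (by norm_num) (by norm_num) (by norm_num) (by norm_num) (by norm_num) (by norm_num) (by norm_num) (by norm_num) (ex_um 0.02184 (by norm_num) (by norm_num) (by norm_num) (by norm_num)) (by norm_num))
  have h1 : ‖Xf β r h t 1‖ ≤ 0.062 * ‖Xf β r h t 0‖ := by
    exact b3_cmp 0.02447 0.37167 0.00006427 0.96572 0.061897 0.000023 0.062 hr (b3_X1.trans_le (b3_HF 0.38 1.33 1.36 1.7 2.0944 1.24005 0.60327 0.59643 1.65765 1.67666 0.59642 1.5664 0.14713 1.9107 0.8063 0.12634 0.2828 0.000101 1.6181 0.2243 0.59405 hβ hr hκ (by norm_num) hk1 hk2 (by norm_num) (by linarith) (by linarith) (by norm_num) (ex_um 0.5054 (by norm_num) (by norm_num) (by norm_num) (by norm_num)) (ex_um 0.5168 (by norm_num) (by norm_num) (by norm_num) (by norm_num)) (ex_up 0.5054 (by norm_num)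 (by norm_num) (by norm_num) (by norm_num)) (ex_up 0.5168 (by norm_num) (by norm_num) (by norm_num) (by norm_num)) (by norm_num) (by norm_num) (ex_lm 0.5168 (by norm_num) (by norm_num) (by norm_num) (by norm_num) (by norm_num)) (by norm_num) (by norm_num) (by norm_num) (by norm_num) (by norm_num) (by norm_num) (by norm_num) (by norm_num) (by norm_num) (by norm_num) (by norm_num) (by norm_num) (ex_un 1 0.2634 (by norm_num) (by norm_num) (by norm_num) (by norm_num)) (v5_hump 1.2807 7.352 2.7115 0.00008151 0.000101 hβ hr hκ hk1 hk2 (by norm_num) (tb := 2.0944) (by linarith) (by norm_num) (by norm_num) (by norm_num) (by norm_num) (by norm_num) (by norm_num) (by norm_num) (ex_un 9 0.4157 (by norm_num) (by norm_num) (by norm_num) (by norm_num)) (by norm_num)) (by norm_num) (by norm_num) (by norm_num))) hY (by norm_num) (by norm_num) (by norm_num) (by norm_num) (by norm_num) (ex_un 3 0.7167 (by norm_num) (by norm_num) (by norm_num) (by norm_num)) (by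 norm_num) (by norm_num) (by norm_num) (ex_un 9 0.6572 (by norm_num) (by norm_num) (by norm_num) (by norm_num)) (by norm_num) (by norm_num)
  have h2 : ‖Xf β r h t (-1)‖ ≤ 0.1193 * ‖Xf β r h t 0‖ := by
    exact b3_cmp 1 0 0.04183 0.31742 0 0.119233 0.1193 hr (b3_w (b3_UD 1.33 1.36 3.79439 4.1888 0.005 0.34593 0.5983 0.9506 1.8234 0.6483 hh hβ hr hκ (by norm_num) hk1 hk2 (by linarith) (by linarith) (by norm_num) (by norm_num) (by norm_num) (by norm_num) (by norm_num) (by norm_num) (by norm_num) (by norm_num) (by norm_num) (by norm_num) (by norm_num) (by norm_num) (by norm_num))) hY (by norm_num) (by norm_num) (by norm_num) (by norm_num) (by norm_num) (by norm_num) (by norm_num) (by norm_num) (by norm_num) (ex_un 3 0.1742 (by norm_num) (by norm_num) (by norm_num) (by norm_num)) (by norm_num) (by norm_num)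
  exact b3_out0 0.062 0.1193 hY (by norm_num) h1 h2 (by norm_num)

private theorem yI {κ t : ℝ} (h : DomR κ t) (hk1 : 1.33 ≤ κ) (hk2 : κ ≤ 1.36) (ht1 : -1.0474 ≤ t + κ) (ht2 : t + κ ≤ -0.75439) :
    (-0.506) ≤ sy κ t ∧ sy κ t ≤ (-0.366) := by
  have hy1 : -0.506 ≤ sy κ t := syL_ge h 1.33 1.36 1.0474 0.506 0.6029 0.60291 0.223 0.22431 0.22938 hk1 hk2 (by linarith) (by norm_num) (by norm_num) (by norm_num)
    (expm_ge (by norm_num) (by norm_num) (by norm_num) (by norm_num)) (expm_le (by norm_num) (by norm_num) (by norm_num)) (by norm_num)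
    (by norm_num) (by norm_num) (by norm_num) (by norm_num) (by norm_num) (by norm_num)
  have hy2 : sy κ t ≤ -0.366 := syL_le h 1.33 1.36 0.75439 0.366 0.6935 0.69351 0.18663 0.19085 hk1 hk2 (by linarith) (by norm_num) (by norm_num) (by norm_num)
    (expm_ge (by norm_num) (by norm_num) (by norm_num) (by norm_num)) (expm_le (by norm_num) (by norm_num) (by norm_num)) (by norm_num)
    (by norm_num) (by norm_num) (by norm_num) (by norm_num) (by norm_num) (by norm_num)
  exact ⟨hy1, hy2⟩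

theorem innE {β r h t κ : ℝ} (hh : h = 2 * Real.pi / (3 : ℕ)) (hβ : 0 < β) (hr : 10 ≤ r) (hκ : κ = β * r)
    (hk1 : 1.33 ≤ κ) (hk2 : κ ≤ 1.36) (hT1 : 1.047 ≤ t + κ) (hT2 : t + κ ≤ 1.34) :
    ‖Xf β r h t (-1)‖ ≤ 0.00334 * ‖Xf β r h t 0‖ ∧ ‖Xf β r h (t + β) (-1)‖ ≤ 0.00891 * ‖Xf β r h t 0‖ := by
  obtain ⟨q1, q2, q3⟩ := b3_h hh
  have hR0 := b3_R0 hβ hr hκ
  have hR := b3_R hβ hr hκ (by linarith)
  have hD0 : DomR κ (t - h) := b3_dom (by linarith) (by linarith) (Or.inl (by linarith))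
  have hy := yI hD0 hk1 hk2 (by linarith) (by linarith)
  have hY : 0.5529 * Real.exp (r * 0.79793) ≤ ‖Xf β r h t 0‖ :=
    b3_lo hβ hr hκ (k := 0) (t' := t - h) (by push_cast; ring) hD0 0.17 5.0765 0.5529 0.79793 (by norm_num)
      (T3_28_p0 hD0 hβ hk1 hk2 (by linarith) (by linarith) hR0 hR)
      (v5_Dup hD0 1.36 (-0.506) (-0.366) 1.65865 1.44196 5.0765 hk2 hy.1 hy.2 (ex_up 0.506 (by norm_num) (by norm_num) (by norm_num) (by norm_num)) (ex_up 0.366 (by norm_num) (by norm_num) (by norm_num) (by norm_num)) (by norm_num) (by norm_num) (by norm_num)) (by norm_num) (by norm_num)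
      (b3_Vlo hD0 1.33 1.36 (-1.0474) (-0.75439) 1.61 0.47624 0.2361 0.97225 0.02815 0.79793 hk1 hk2 (by linarith) (by linarith) (by norm_num) (ex_lp 0.47624 (by norm_num) (by norm_num) (by norm_num)) (by norm_num) (by norm_num) (by norm_num) (by norm_num) (by norm_num) (by norm_num) (by norm_num) (by norm_num) (ex_um 0.02815 (by norm_num) (by norm_num) (by norm_num) (by norm_num)) (by norm_num))
  constructor
  · exact b3_cmp 1 0 0.0008733 0.70433 0 0.003335 0.00334 hr (b3_w (b3_UD 1.33 1.36 3.14139 3.4344 0.03 0.34593 0.0436 1.1006 2.1111 0.0936 hh hβ hr hκ (by norm_num) hk1 hk2 (by linarith) (by linarith) (by norm_num) (by norm_num) (by norm_num) (by norm_num) (by norm_num) (by norm_num) (by norm_num) (by norm_num) (by norm_num) (by norm_num) (by norm_num) (by norm_num) (by norm_num))) hY (by norm_num) (by norm_num) (by norm_num) (by norm_num) (by norm_num) (by norm_num) (by norm_num) (by norm_num) (by norm_num) (ex_un 7 0.0433 (by norm_num)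 (by norm_num) (by norm_num) (by norm_num)) (by norm_num) (by norm_num)
  · exact b3_cmp 1 0 0.002374 0.60433 0 0.008901 0.00891 hr (b3_w (b3_UD 1.33 1.36 3.14139 3.5704 0.1 0.34593 0.1436 1.0807 2.0729 0.1936 hh hβ hr hκ (by norm_num) hk1 hk2 (by linarith) (by linarith) (by norm_num) (by norm_num) (by norm_num) (by norm_num) (by norm_num) (by norm_num) (by norm_num) (by norm_num) (by norm_num) (by norm_num) (by norm_num) (by norm_num) (by norm_num))) hY (by norm_num) (by norm_num) (by norm_num) (by norm_num) (by norm_num) (by norm_num) (by norm_num) (by norm_num) (by norm_num) (ex_un 6 0.0433 (by norm_num) (by norm_num) (by norm_num) (by norm_num)) (by norm_num) (by norm_num)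

private theorem yA0 {κ t : ℝ} (h : DomR κ t) (hk1 : 1.33 ≤ κ) (hk2 : κ ≤ 1.36) (ht1 : 1.047 ≤ t + κ) (ht2 : t + κ ≤ 1.067) :
    0.413 ≤ sy κ t ∧ sy κ t ≤ 0.423 := by
  have hy1 : 0.413 ≤ sy κ t := syR_ge h 1.33 1.36 1.047 0.413 1.51134 1.51135 0.45895 0.46932 hk1 hk2 (by linarith) (by norm_num) (by norm_num)
    (expn_ge (by norm_num) (by norm_num)) (expn_le (by norm_num) (by norm_num) (by norm_num)) (by norm_num)
    (by norm_num) (by norm_num) (by norm_num) (by norm_num) (by norm_num) (by norm_num)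
  have hy2 : sy κ t ≤ 0.423 := syR_le h 1.33 1.36 1.067 0.423 1.52653 0.4721 0.47479 0.48551 hk1 hk2 (by linarith) (by norm_num) (by norm_num)
    (expn_ge (by norm_num) (by norm_num)) (by norm_num) (by norm_num) (Or.inr ((mul_le_mul_of_nonneg_left (expn_le (E := 1.52654) (by norm_num) (by norm_num) (by norm_num)) (by norm_num)).trans (by norm_num))) (by norm_num) (by norm_num) (by norm_num)
  exact ⟨hy1, hy2⟩

private theorem yB0 {κ t : ℝ} (h : DomR κ t) (hk1 : 1.33 ≤ κ) (hk2 : κ ≤ 1.36) (ht1 : -1.0474 ≤ t + κ) (ht2 : t + κ ≤ -1.02739) :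
    (-0.506) ≤ sy κ t ∧ sy κ t ≤ (-0.489) := by
  have hy1 : -0.506 ≤ sy κ t := syL_ge h 1.33 1.36 1.0474 0.506 0.6029 0.60291 0.223 0.22431 0.22938 hk1 hk2 (by linarith) (by norm_num) (by norm_num) (by norm_num)
    (expm_ge (by norm_num) (by norm_num) (by norm_num) (by norm_num)) (expm_le (by norm_num) (by norm_num) (by norm_num)) (by norm_num)
    (by norm_num) (by norm_num) (by norm_num) (by norm_num) (by norm_num) (by norm_num)
  have hy2 : sy κ t ≤ -0.489 := syL_le h 1.33 1.36 1.02739 0.489 0.61323 0.61324 0.22049 0.22547 hk1 hk2 (by linarith) (by norm_num) (by norm_num) (by norm_num)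
    (expm_ge (by norm_num) (by norm_num) (by norm_num) (by norm_num)) (expm_le (by norm_num) (by norm_num) (by norm_num)) (by norm_num)
    (by norm_num) (by norm_num) (by norm_num) (by norm_num) (by norm_num) (by norm_num)
  exact ⟨hy1, hy2⟩

theorem pc0 {β r h t κ : ℝ} (hh : h = 2 * Real.pi / (3 : ℕ)) (hβ : 0 < β) (hr : 10 ≤ r) (hκ : κ = β * r)
    (hk1 : 1.33 ≤ κ) (hk2 : κ ≤ 1.36) (hT1 : 1.047 ≤ t + κ) (hT2 : t + κ ≤ 1.067) :
    Xf β r h t 0 ≠ 0 ∧ r * 0.0755 ≤ (Ld β r h t 1 - Ld β r h t 0).im ∧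
      ‖(((-1 : ℤ) : ℂ) - 1) * Ld β r h t 0 - ((-1 : ℤ) : ℂ) * Ld β r h t 1‖ ≤ r * 5.2 := by
  obtain ⟨q1, q2, q3⟩ := b3_h hh
  have hR0 := b3_R0 hβ hr hκ
  have hR := b3_R hβ hr hκ (by linarith)
  have hD1 : DomR κ t := b3_dom (by linarith) (by linarith) (Or.inl (by linarith))
  have hD0 : DomR κ (t - h) := b3_dom (by linarith) (by linarith) (Or.inl (by linarith))
  have y1 := yA0 hD1 hk1 hk2 (by linarith) (by linarith)
  have y0 := yB0 hD0 hk1 hk2 (by linarith) (by linarith)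
  have j1 := T3_28_d1_0 hD1 hβ hk1 hk2 (by linarith) (by linarith) hR0 hR
  exact b3_piece 1.33 1.36 0.413 0.423 0.418 0.65836 0.66167 0.65508 0.8999 2.6003 2.6398 0.1 0.17 0.17 2.0482 1.1431 0 0 (-0.506) (-0.489) (-0.497) 1.64378 1.65865 2.2558 4.7251 0.07 0.265 0.17 4.5612 4.7335 0 0 0.0755 5.2
    hβ hr hκ (by norm_num) hk1 hk2 hD1 hD0 j1 (j1 _ (by rw [sub_self, norm_zero]; norm_num))
    (T3_28_d0_0 hD0 hβ hk1 hk2 (by linarith) (by linarith) hR0 hR)
    (T3_28_p0 hD0 hβ hk1 hk2 (by linarith) (by linarith) hR0 hR)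
    y1.1 y1.2 y0.1 y0.2 (by norm_num)
    (ex_um 0.413 (by norm_num) (by norm_num) (by norm_num) (by norm_num)) (ex_um 0.423 (by norm_num) (by norm_num) (by norm_num) (by norm_num)) (ex_lm 0.418 (by norm_num) (by norm_num) (by norm_num) (by norm_num) (by norm_num)) (by norm_num) (by norm_num) (by norm_num) (by norm_num) (by norm_num) (by norm_num) (by norm_num) (by norm_num)
    (by norm_num) (by norm_num) (by norm_num) (by norm_num) (by norm_num) (by norm_num) (by norm_num) (by norm_num) (by norm_num) (by norm_num)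
    (ex_up 0.506 (by norm_num) (by norm_num) (by norm_num) (by norm_num)) (ex_lp 0.497 (by norm_num) (by norm_num) (by norm_num)) (by norm_num) (by norm_num) (by norm_num) (by norm_num) (by norm_num) (by norm_num)
    (by norm_num) (by norm_num) (by norm_num) (by norm_num) (by norm_num) (by norm_num) (by norm_num) (by norm_num) (by norm_num) (by norm_num) (by norm_num)
    (by norm_num) (by norm_num) (by norm_num) (by norm_num)

private theorem yA1 {κ t : ℝ} (h : DomR κ t) (hk1 : 1.33 ≤ κ) (hk2 : κ ≤ 1.36) (ht1 : 1.067 ≤ t + κ) (ht2 : t + κ ≤ 1.087) :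
    0.419 ≤ sy κ t ∧ sy κ t ≤ 0.429 := by
  have hy1 : 0.419 ≤ sy κ t := syR_ge h 1.33 1.36 1.067 0.419 1.52043 1.52045 0.46842 0.479 hk1 hk2 (by linarith) (by norm_num) (by norm_num)
    (expn_ge (by norm_num) (by norm_num)) (expn_le (by norm_num) (by norm_num) (by norm_num)) (by norm_num)
    (by norm_num) (by norm_num) (by norm_num) (by norm_num) (by norm_num) (by norm_num)
  have hy2 : sy κ t ≤ 0.429 := syR_le h 1.33 1.36 1.087 0.429 1.53572 0.4816 0.48442 0.49536 hk1 hk2 (by linarith) (by norm_num) (by norm_num)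
    (expn_ge (by norm_num) (by norm_num)) (by norm_num) (by norm_num) (Or.inr ((mul_le_mul_of_nonneg_left (expn_le (E := 1.53573) (by norm_num) (by norm_num) (by norm_num)) (by norm_num)).trans (by norm_num))) (by norm_num) (by norm_num) (by norm_num)
  exact ⟨hy1, hy2⟩

private theorem yB1 {κ t : ℝ} (h : DomR κ t) (hk1 : 1.33 ≤ κ) (hk2 : κ ≤ 1.36) (ht1 : -1.0274 ≤ t + κ) (ht2 : t + κ ≤ -1.00739) :
    (-0.497) ≤ sy κ t ∧ sy κ t ≤ (-0.481) := by
  have hy1 : -0.497 ≤ sy κ t := syL_ge h 1.33 1.36 1.0274 0.497 0.60835 0.60836 0.221 0.22231 0.22734 hk1 hk2 (by linarith) (by norm_num) (by norm_num) (by norm_num)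
    (expm_ge (by norm_num) (by norm_num) (by norm_num) (by norm_num)) (expm_le (by norm_num) (by norm_num) (by norm_num)) (by norm_num)
    (by norm_num) (by norm_num) (by norm_num) (by norm_num) (by norm_num) (by norm_num)
  have hy2 : sy κ t ≤ -0.481 := syL_le h 1.33 1.36 1.00739 0.481 0.61816 0.61817 0.21862 0.22357 hk1 hk2 (by linarith) (by norm_num) (by norm_num) (by norm_num)
    (expm_ge (by norm_num) (by norm_num) (by norm_num) (by norm_num)) (expm_le (by norm_num) (by norm_num) (by norm_num)) (by norm_num)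
    (by norm_num) (by norm_num) (by norm_num) (by norm_num) (by norm_num) (by norm_num)
  exact ⟨hy1, hy2⟩

theorem pc1 {β r h t κ : ℝ} (hh : h = 2 * Real.pi / (3 : ℕ)) (hβ : 0 < β) (hr : 10 ≤ r) (hκ : κ = β * r)
    (hk1 : 1.33 ≤ κ) (hk2 : κ ≤ 1.36) (hT1 : 1.067 ≤ t + κ) (hT2 : t + κ ≤ 1.087) :
    Xf β r h t 0 ≠ 0 ∧ r * 0.0755 ≤ (Ld β r h t 1 - Ld β r h t 0).im ∧
      ‖(((-1 : ℤ) : ℂ) - 1) * Ld β r h t 0 - ((-1 : ℤ) : ℂ) * Ld β r h t 1‖ ≤ r * 5.2 := by
  obtain ⟨q1, q2, q3⟩ := b3_h hh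
  have hR0 := b3_R0 hβ hr hκ
  have hR := b3_R hβ hr hκ (by linarith)
  have hD1 : DomR κ t := b3_dom (by linarith) (by linarith) (Or.inl (by linarith))
  have hD0 : DomR κ (t - h) := b3_dom (by linarith) (by linarith) (Or.inl (by linarith))
  have y1 := yA1 hD1 hk1 hk2 (by linarith) (by linarith)
  have y0 := yB1 hD0 hk1 hk2 (by linarith) (by linarith)
  have j1 := T3_28_d1_0 hD1 hβ hk1 hk2 (by linarith) (by linarith) hR0 hR
  exact b3_piece 1.33 1.36 0.419 0.429 0.424 0.65442 0.65771 0.65117 0.8945 2.6031 2.6423 0.1 0.17 0.17 2.0482 1.1356 0 0 (-0.497) (-0.481) (-0.489) 1.63068 1.64379 2.2356 4.6664 0.07 0.265 0.17 4.5612 4.7205 0 0 0.0755 5.2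
    hβ hr hκ (by norm_num) hk1 hk2 hD1 hD0 j1 (j1 _ (by rw [sub_self, norm_zero]; norm_num))
    (T3_28_d0_0 hD0 hβ hk1 hk2 (by linarith) (by linarith) hR0 hR)
    (T3_28_p0 hD0 hβ hk1 hk2 (by linarith) (by linarith) hR0 hR)
    y1.1 y1.2 y0.1 y0.2 (by norm_num)
    (ex_um 0.419 (by norm_num) (by norm_num) (by norm_num) (by norm_num)) (ex_um 0.429 (by norm_num) (by norm_num) (by norm_num) (by norm_num)) (ex_lm 0.424 (by norm_num) (by norm_num) (by norm_num) (by norm_num) (by norm_num)) (by norm_num) (by norm_num) (by norm_num) (by norm_num) (by norm_num) (by norm_num) (by norm_num) (by norm_num)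
    (by norm_num) (by norm_num) (by norm_num) (by norm_num) (by norm_num) (by norm_num) (by norm_num) (by norm_num) (by norm_num) (by norm_num)
    (ex_up 0.497 (by norm_num) (by norm_num) (by norm_num) (by norm_num)) (ex_lp 0.489 (by norm_num) (by norm_num) (by norm_num)) (by norm_num) (by norm_num) (by norm_num) (by norm_num) (by norm_num) (by norm_num)
    (by norm_num) (by norm_num) (by norm_num) (by norm_num) (by norm_num) (by norm_num) (by norm_num) (by norm_num) (by norm_num) (by norm_num) (by norm_num)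
    (by norm_num) (by norm_num) (by norm_num) (by norm_num)

private theorem yA2 {κ t : ℝ} (h : DomR κ t) (hk1 : 1.33 ≤ κ) (hk2 : κ ≤ 1.36) (ht1 : 1.087 ≤ t + κ) (ht2 : t + κ ≤ 1.107) :
    0.424 ≤ sy κ t ∧ sy κ t ≤ 0.435 := by
  have hy1 : 0.424 ≤ sy κ t := syR_ge h 1.33 1.36 1.087 0.424 1.52806 1.52807 0.47639 0.48715 hk1 hk2 (by linarith) (by norm_num) (by norm_num)
    (expn_ge (by norm_num) (by norm_num)) (expn_le (by norm_num) (by norm_num) (by norm_num)) (by norm_num)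
    (by norm_num) (by norm_num) (by norm_num) (by norm_num) (by norm_num) (by norm_num)
  have hy2 : sy κ t ≤ 0.435 := syR_le h 1.33 1.36 1.107 0.435 1.54496 0.4913 0.49415 0.50531 hk1 hk2 (by linarith) (by norm_num) (by norm_num)
    (expn_ge (by norm_num) (by norm_num)) (by norm_num) (by norm_num) (Or.inr ((mul_le_mul_of_nonneg_left (expn_le (E := 1.54497) (by norm_num) (by norm_num) (by norm_num)) (by norm_num)).trans (by norm_num))) (by norm_num) (by norm_num) (by norm_num)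
  exact ⟨hy1, hy2⟩

private theorem yB2 {κ t : ℝ} (h : DomR κ t) (hk1 : 1.33 ≤ κ) (hk2 : κ ≤ 1.36) (ht1 : -1.0074 ≤ t + κ) (ht2 : t + κ ≤ -0.98739) :
    (-0.488) ≤ sy κ t ∧ sy κ t ≤ (-0.472) := by
  have hy1 : -0.488 ≤ sy κ t := syL_ge h 1.33 1.36 1.0074 0.488 0.61385 0.61386 0.219 0.22026 0.22524 hk1 hk2 (by linarith) (by norm_num) (by norm_num) (by norm_num)
    (expm_ge (by norm_num) (by norm_num) (by norm_num) (by norm_num)) (expm_le (by norm_num) (by norm_num) (by norm_num)) (by norm_num)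
    (by norm_num) (by norm_num) (by norm_num) (by norm_num) (by norm_num) (by norm_num)
  have hy2 : sy κ t ≤ -0.472 := syL_le h 1.33 1.36 0.98739 0.472 0.62375 0.62376 0.21647 0.22137 hk1 hk2 (by linarith) (by norm_num) (by norm_num) (by norm_num)
    (expm_ge (by norm_num) (by norm_num) (by norm_num) (by norm_num)) (expm_le (by norm_num) (by norm_num) (by norm_num)) (by norm_num)
    (by norm_num) (by norm_num) (by norm_num) (by norm_num) (by norm_num) (by norm_num)
  exact ⟨hy1, hy2⟩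

theorem pc2 {β r h t κ : ℝ} (hh : h = 2 * Real.pi / (3 : ℕ)) (hβ : 0 < β) (hr : 10 ≤ r) (hκ : κ = β * r)
    (hk1 : 1.33 ≤ κ) (hk2 : κ ≤ 1.36) (hT1 : 1.087 ≤ t + κ) (hT2 : t + κ ≤ 1.107) :
    Xf β r h t 0 ≠ 0 ∧ r * 0.0755 ≤ (Ld β r h t 1 - Ld β r h t 0).im ∧
      ‖(((-1 : ℤ) : ℂ) - 1) * Ld β r h t 0 - ((-1 : ℤ) : ℂ) * Ld β r h t 1‖ ≤ r * 5.2 := by
  obtain ⟨q1, q2, q3⟩ := b3_h hh
  have hR0 := b3_R0 hβ hr hκ
  have hR := b3_R hβ hr hκ (by linarith)
  have hD1 : DomR κ t := b3_dom (by linarith) (by linarith) (Or.inl (by linarith))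
  have hD0 : DomR κ (t - h) := b3_dom (by linarith) (by linarith) (Or.inl (by linarith))
  have y1 := yA2 hD1 hk1 hk2 (by linarith) (by linarith)
  have y0 := yB2 hD0 hk1 hk2 (by linarith) (by linarith)
  have j1 := T3_28_d1_1 hD1 hβ hk1 hk2 (by linarith) (by linarith) hR0 hR
  exact b3_piece 1.33 1.36 0.424 0.435 0.429 0.65115 0.65443 0.64727 0.8901 2.6055 2.645 0.1 0.185 0.185 2.27 1.2518 0 0 (-0.488) (-0.472) (-0.48) 1.61607 1.62906 2.2156 4.6018 0.08 0.27 0.17 4.0663 4.1998 0 0 0.0755 5.2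
    hβ hr hκ (by norm_num) hk1 hk2 hD1 hD0 j1 (j1 _ (by rw [sub_self, norm_zero]; norm_num))
    (T3_28_d0_1 hD0 hβ hk1 hk2 (by linarith) (by linarith) hR0 hR)
    (T3_28_p0 hD0 hβ hk1 hk2 (by linarith) (by linarith) hR0 hR)
    y1.1 y1.2 y0.1 y0.2 (by norm_num)
    (ex_um 0.424 (by norm_num) (by norm_num) (by norm_num) (by norm_num)) (ex_um 0.435 (by norm_num) (by norm_num) (by norm_num) (by norm_num)) (ex_lm 0.429 (by norm_num) (by norm_num) (by norm_num) (by norm_num) (by norm_num)) (by norm_num) (by norm_num) (by norm_num) (by norm_num) (by norm_num) (by norm_num) (by norm_num) (by norm_num)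
    (by norm_num) (by norm_num) (by norm_num) (by norm_num) (by norm_num) (by norm_num) (by norm_num) (by norm_num) (by norm_num) (by norm_num)
    (ex_up 0.488 (by norm_num) (by norm_num) (by norm_num) (by norm_num)) (ex_lp 0.48 (by norm_num) (by norm_num) (by norm_num)) (by norm_num) (by norm_num) (by norm_num) (by norm_num) (by norm_num) (by norm_num)
    (by norm_num) (by norm_num) (by norm_num) (by norm_num) (by norm_num) (by norm_num) (by norm_num) (by norm_num) (by norm_num) (by norm_num) (by norm_num)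
    (by norm_num) (by norm_num) (by norm_num) (by norm_num)

private theorem yA3 {κ t : ℝ} (h : DomR κ t) (hk1 : 1.33 ≤ κ) (hk2 : κ ≤ 1.36) (ht1 : 1.107 ≤ t + κ) (ht2 : t + κ ≤ 1.127) :
    0.43 ≤ sy κ t ∧ sy κ t ≤ 0.441 := by
  have hy1 : 0.43 ≤ sy κ t := syR_ge h 1.33 1.36 1.107 0.43 1.53725 1.53726 0.48604 0.49701 hk1 hk2 (by linarith) (by norm_num) (by norm_num)
    (expn_ge (by norm_num) (by norm_num)) (expn_le (by norm_num) (by norm_num) (by norm_num)) (by norm_num)
    (by norm_num) (by norm_num) (by norm_num) (by norm_num) (by norm_num) (by norm_num)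
  have hy2 : sy κ t ≤ 0.441 := syR_le h 1.33 1.36 1.127 0.441 1.55426 0.5011 0.50399 0.51537 hk1 hk2 (by linarith) (by norm_num) (by norm_num)
    (expn_ge (by norm_num) (by norm_num)) (by norm_num) (by norm_num) (Or.inr ((mul_le_mul_of_nonneg_left (expn_le (E := 1.55427) (by norm_num) (by norm_num) (by norm_num)) (by norm_num)).trans (by norm_num))) (by norm_num) (by norm_num) (by norm_num)
  exact ⟨hy1, hy2⟩

private theorem yB3 {κ t : ℝ} (h : DomR κ t) (hk1 : 1.33 ≤ κ) (hk2 : κ ≤ 1.36) (ht1 : -0.9874 ≤ t + κ) (ht2 : t + κ ≤ -0.96739) :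
    (-0.479) ≤ sy κ t ∧ sy κ t ≤ (-0.463) := by
  have hy1 : -0.479 ≤ sy κ t := syL_ge h 1.33 1.36 0.9874 0.479 0.6194 0.61941 0.2169 0.21815 0.22309 hk1 hk2 (by linarith) (by norm_num) (by norm_num) (by norm_num)
    (expm_ge (by norm_num) (by norm_num) (by norm_num) (by norm_num)) (expm_le (by norm_num) (by norm_num) (by norm_num)) (by norm_num)
    (by norm_num) (by norm_num) (by norm_num) (by norm_num) (by norm_num) (by norm_num)
  have hy2 : sy κ t ≤ -0.463 := syL_le h 1.33 1.36 0.96739 0.463 0.62939 0.6294 0.21427 0.21911 hk1 hk2 (by linarith) (by norm_num) (by norm_num) (by norm_num)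
    (expm_ge (by norm_num) (by norm_num) (by norm_num) (by norm_num)) (expm_le (by norm_num) (by norm_num) (by norm_num)) (by norm_num)
    (by norm_num) (by norm_num) (by norm_num) (by norm_num) (by norm_num) (by norm_num)
  exact ⟨hy1, hy2⟩

theorem pc3 {β r h t κ : ℝ} (hh : h = 2 * Real.pi / (3 : ℕ)) (hβ : 0 < β) (hr : 10 ≤ r) (hκ : κ = β * r)
    (hk1 : 1.33 ≤ κ) (hk2 : κ ≤ 1.36) (hT1 : 1.107 ≤ t + κ) (hT2 : t + κ ≤ 1.127) :
    Xf β r h t 0 ≠ 0 ∧ r * 0.0755 ≤ (Ld β r h t 1 - Ld β r h t 0).im ∧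
      ‖(((-1 : ℤ) : ℂ) - 1) * Ld β r h t 0 - ((-1 : ℤ) : ℂ) * Ld β r h t 1‖ ≤ r * 5.2 := by
  obtain ⟨q1, q2, q3⟩ := b3_h hh
  have hR0 := b3_R0 hβ hr hκ
  have hR := b3_R hβ hr hκ (by linarith)
  have hD1 : DomR κ t := b3_dom (by linarith) (by linarith) (Or.inl (by linarith))
  have hD0 : DomR κ (t - h) := b3_dom (by linarith) (by linarith) (Or.inl (by linarith))
  have y1 := yA3 hD1 hk1 hk2 (by linarith) (by linarith)
  have y0 := yB3 hD0 hk1 hk2 (by linarith) (by linarith)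
  have j1 := T3_28_d1_1 hD1 hβ hk1 hk2 (by linarith) (by linarith) hR0 hR
  exact b3_piece 1.33 1.36 0.43 0.441 0.435 0.64726 0.65051 0.6434 0.8847 2.6084 2.6477 0.1 0.185 0.185 2.27 1.2435 0 0 (-0.479) (-0.463) (-0.471) 1.60159 1.61446 2.1957 4.5387 0.08 0.27 0.17 4.0663 4.1909 0 0 0.0755 5.2
    hβ hr hκ (by norm_num) hk1 hk2 hD1 hD0 j1 (j1 _ (by rw [sub_self, norm_zero]; norm_num))
    (T3_28_d0_1 hD0 hβ hk1 hk2 (by linarith) (by linarith) hR0 hR)
    (T3_28_p0 hD0 hβ hk1 hk2 (by linarith) (by linarith) hR0 hR)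
    y1.1 y1.2 y0.1 y0.2 (by norm_num)
    (ex_um 0.43 (by norm_num) (by norm_num) (by norm_num) (by norm_num)) (ex_um 0.441 (by norm_num) (by norm_num) (by norm_num) (by norm_num)) (ex_lm 0.435 (by norm_num) (by norm_num) (by norm_num) (by norm_num) (by norm_num)) (by norm_num) (by norm_num) (by norm_num) (by norm_num) (by norm_num) (by norm_num) (by norm_num) (by norm_num)
    (by norm_num) (by norm_num) (by norm_num) (by norm_num) (by norm_num) (by norm_num) (by norm_num) (by norm_num) (by norm_num) (by norm_num)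
    (ex_up 0.479 (by norm_num) (by norm_num) (by norm_num) (by norm_num)) (ex_lp 0.471 (by norm_num) (by norm_num) (by norm_num)) (by norm_num) (by norm_num) (by norm_num) (by norm_num) (by norm_num) (by norm_num)
    (by norm_num) (by norm_num) (by norm_num) (by norm_num) (by norm_num) (by norm_num) (by norm_num) (by norm_num) (by norm_num) (by norm_num) (by norm_num)
    (by norm_num) (by norm_num) (by norm_num) (by norm_num)

private theorem yA4 {κ t : ℝ} (h : DomR κ t) (hk1 : 1.33 ≤ κ) (hk2 : κ ≤ 1.36) (ht1 : 1.127 ≤ t + κ) (ht2 : t + κ ≤ 1.152) :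
    0.436 ≤ sy κ t ∧ sy κ t ≤ 0.448 := by
  have hy1 : 0.436 ≤ sy κ t := syR_ge h 1.33 1.36 1.127 0.436 1.5465 1.54651 0.49578 0.50698 hk1 hk2 (by linarith) (by norm_num) (by norm_num)
    (expn_ge (by norm_num) (by norm_num)) (expn_le (by norm_num) (by norm_num) (by norm_num)) (by norm_num)
    (by norm_num) (by norm_num) (by norm_num) (by norm_num) (by norm_num) (by norm_num)
  have hy2 : sy κ t ≤ 0.448 := syR_le h 1.33 1.36 1.152 0.448 1.56517 0.5126 0.51558 0.52722 hk1 hk2 (by linarith) (by norm_num) (by norm_num)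
    (expn_ge (by norm_num) (by norm_num)) (by norm_num) (by norm_num) (Or.inr ((mul_le_mul_of_nonneg_left (expn_le (E := 1.56518) (by norm_num) (by norm_num) (by norm_num)) (by norm_num)).trans (by norm_num))) (by norm_num) (by norm_num) (by norm_num)
  exact ⟨hy1, hy2⟩

private theorem yB4 {κ t : ℝ} (h : DomR κ t) (hk1 : 1.33 ≤ κ) (hk2 : κ ≤ 1.36) (ht1 : -0.9674 ≤ t + κ) (ht2 : t + κ ≤ -0.94239) :
    (-0.47) ≤ sy κ t ∧ sy κ t ≤ (-0.452) := by
  have hy1 : -0.47 ≤ sy κ t := syL_ge h 1.33 1.36 0.9674 0.47 0.625 0.62501 0.2147 0.21599 0.22087 hk1 hk2 (by linarith) (by norm_num) (by norm_num) (by norm_num)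
    (expm_ge (by norm_num) (by norm_num) (by norm_num) (by norm_num)) (expm_le (by norm_num) (by norm_num) (by norm_num)) (by norm_num)
    (by norm_num) (by norm_num) (by norm_num) (by norm_num) (by norm_num) (by norm_num)
  have hy2 : sy κ t ≤ -0.452 := syL_le h 1.33 1.36 0.94239 0.452 0.63635 0.63636 0.21149 0.21627 hk1 hk2 (by linarith) (by norm_num) (by norm_num) (by norm_num)
    (expm_ge (by norm_num) (by norm_num) (by norm_num) (by norm_num)) (expm_le (by norm_num) (by norm_num) (by norm_num)) (by norm_num)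
    (by norm_num) (by norm_num) (by norm_num) (by norm_num) (by norm_num) (by norm_num)
  exact ⟨hy1, hy2⟩

theorem pc4 {β r h t κ : ℝ} (hh : h = 2 * Real.pi / (3 : ℕ)) (hβ : 0 < β) (hr : 10 ≤ r) (hκ : κ = β * r)
    (hk1 : 1.33 ≤ κ) (hk2 : κ ≤ 1.36) (hT1 : 1.127 ≤ t + κ) (hT2 : t + κ ≤ 1.152) :
    Xf β r h t 0 ≠ 0 ∧ r * 0.0755 ≤ (Ld β r h t 1 - Ld β r h t 0).im ∧
      ‖(((-1 : ℤ) : ℂ) - 1) * Ld β r h t 0 - ((-1 : ℤ) : ℂ) * Ld β r h t 1‖ ≤ r * 5.2 := by
  obtain ⟨q1, q2, q3⟩ := b3_h hh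
  have hR0 := b3_R0 hβ hr hκ
  have hR := b3_R hβ hr hκ (by linarith)
  have hD1 : DomR κ t := b3_dom (by linarith) (by linarith) (Or.inl (by linarith))
  have hD0 : DomR κ (t - h) := b3_dom (by linarith) (by linarith) (Or.inl (by linarith))
  have y1 := yA4 hD1 hk1 hk2 (by linarith) (by linarith)
  have y0 := yB4 hD0 hk1 hk2 (by linarith) (by linarith)
  have j1 := T3_28_d1_2 hD1 hβ hk1 hk2 (by linarith) (by linarith) hR0 hR
  exact b3_piece 1.33 1.36 0.436 0.448 0.442 0.64274 0.64662 0.63891 0.8795 2.6115 2.6511 0.08 0.17 0.17 2.5603 1.3935 0 0 (-0.47) (-0.452) (-0.461) 1.58565 1.6 2.176 4.4634 0.1 0.295 0.17 3.5543 3.6609 0 0 0.0755 5.2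
    hβ hr hκ (by norm_num) hk1 hk2 hD1 hD0 j1 (j1 _ (by rw [sub_self, norm_zero]; norm_num))
    (T3_28_d0_2 hD0 hβ hk1 hk2 (by linarith) (by linarith) hR0 hR)
    (T3_28_p0 hD0 hβ hk1 hk2 (by linarith) (by linarith) hR0 hR)
    y1.1 y1.2 y0.1 y0.2 (by norm_num)
    (ex_um 0.436 (by norm_num) (by norm_num) (by norm_num) (by norm_num)) (ex_um 0.448 (by norm_num) (by norm_num) (by norm_num) (by norm_num)) (ex_lm 0.442 (by norm_num) (by norm_num) (by norm_num) (by norm_num) (by norm_num)) (by norm_num) (by norm_num) (by norm_num) (by norm_num) (by norm_num) (by norm_num) (by norm_num) (by norm_num)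
    (by norm_num) (by norm_num) (by norm_num) (by norm_num) (by norm_num) (by norm_num) (by norm_num) (by norm_num) (by norm_num) (by norm_num)
    (ex_up 0.47 (by norm_num) (by norm_num) (by norm_num) (by norm_num)) (ex_lp 0.461 (by norm_num) (by norm_num) (by norm_num)) (by norm_num) (by norm_num) (by norm_num) (by norm_num) (by norm_num) (by norm_num)
    (by norm_num) (by norm_num) (by norm_num) (by norm_num) (by norm_num) (by norm_num) (by norm_num) (by norm_num) (by norm_num) (by norm_num) (by norm_num)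
    (by norm_num) (by norm_num) (by norm_num) (by norm_num)

private theorem yA5 {κ t : ℝ} (h : DomR κ t) (hk1 : 1.33 ≤ κ) (hk2 : κ ≤ 1.36) (ht1 : 1.152 ≤ t + κ) (ht2 : t + κ ≤ 1.177) :
    0.443 ≤ sy κ t ∧ sy κ t ≤ 0.455 := by
  have hy1 : 0.443 ≤ sy κ t := syR_ge h 1.33 1.36 1.152 0.443 1.55737 1.55738 0.50729 0.51874 hk1 hk2 (by linarith) (by norm_num) (by norm_num)
    (expn_ge (by norm_num) (by norm_num)) (expn_le (by norm_num) (by norm_num) (by norm_num)) (by norm_num)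
    (by norm_num) (by norm_num) (by norm_num) (by norm_num) (by norm_num) (by norm_num)
  have hy2 : sy κ t ≤ 0.455 := syR_le h 1.33 1.36 1.177 0.455 1.57617 0.5243 0.52732 0.53922 hk1 hk2 (by linarith) (by norm_num) (by norm_num)
    (expn_ge (by norm_num) (by norm_num)) (by norm_num) (by norm_num) (Or.inr ((mul_le_mul_of_nonneg_left (expn_le (E := 1.57618) (by norm_num) (by norm_num) (by norm_num)) (by norm_num)).trans (by norm_num))) (by norm_num) (by norm_num) (by norm_num)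
  exact ⟨hy1, hy2⟩

private theorem yB5 {κ t : ℝ} (h : DomR κ t) (hk1 : 1.33 ≤ κ) (hk2 : κ ≤ 1.36) (ht1 : -0.9424 ≤ t + κ) (ht2 : t + κ ≤ -0.91739) :
    (-0.459) ≤ sy κ t ∧ sy κ t ≤ (-0.44) := by
  have hy1 : -0.459 ≤ sy κ t := syL_ge h 1.33 1.36 0.9424 0.459 0.63191 0.63192 0.212 0.21326 0.21809 hk1 hk2 (by linarith) (by norm_num) (by norm_num) (by norm_num)
    (expm_ge (by norm_num) (by norm_num) (by norm_num) (by norm_num)) (expm_le (by norm_num) (by norm_num) (by norm_num)) (by norm_num)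
    (by norm_num) (by norm_num) (by norm_num) (by norm_num) (by norm_num) (by norm_num)
  have hy2 : sy κ t ≤ -0.44 := syL_le h 1.33 1.36 0.91739 0.44 0.64403 0.64404 0.20836 0.21307 hk1 hk2 (by linarith) (by norm_num) (by norm_num) (by norm_num)
    (expm_ge (by norm_num) (by norm_num) (by norm_num) (by norm_num)) (expm_le (by norm_num) (by norm_num) (by norm_num)) (by norm_num)
    (by norm_num) (by norm_num) (by norm_num) (by norm_num) (by norm_num) (by norm_num)
  exact ⟨hy1, hy2⟩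

theorem pc5 {β r h t κ : ℝ} (hh : h = 2 * Real.pi / (3 : ℕ)) (hβ : 0 < β) (hr : 10 ≤ r) (hκ : κ = β * r)
    (hk1 : 1.33 ≤ κ) (hk2 : κ ≤ 1.36) (hT1 : 1.152 ≤ t + κ) (hT2 : t + κ ≤ 1.177) :
    Xf β r h t 0 ≠ 0 ∧ r * 0.0755 ≤ (Ld β r h t 1 - Ld β r h t 0).im ∧
      ‖(((-1 : ℤ) : ℂ) - 1) * Ld β r h t 0 - ((-1 : ℤ) : ℂ) * Ld β r h t 1‖ ≤ r * 5.2 := by
  obtain ⟨q1, q2, q3⟩ := b3_h hh
  have hR0 := b3_R0 hβ hr hκ
  have hR := b3_R hβ hr hκ (by linarith)
  have hD1 : DomR κ t := b3_dom (by linarith) (by linarith) (Or.inl (by linarith))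
  have hD0 : DomR κ (t - h) := b3_dom (by linarith) (by linarith) (Or.inl (by linarith))
  have y1 := yA5 hD1 hk1 hk2 (by linarith) (by linarith)
  have y0 := yB5 hD0 hk1 hk2 (by linarith) (by linarith)
  have j1 := T3_28_d1_2 hD1 hβ hk1 hk2 (by linarith) (by linarith) hR0 hR
  exact b3_piece 1.33 1.36 0.443 0.455 0.449 0.63826 0.64211 0.63445 0.8733 2.6152 2.6546 0.08 0.17 0.17 2.5603 1.3827 0 0 (-0.459) (-0.44) (-0.45) 1.56831 1.5825 2.1522 4.3837 0.1 0.295 0.17 3.5543 3.6536 0 0 0.0755 5.2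
    hβ hr hκ (by norm_num) hk1 hk2 hD1 hD0 j1 (j1 _ (by rw [sub_self, norm_zero]; norm_num))
    (T3_28_d0_2 hD0 hβ hk1 hk2 (by linarith) (by linarith) hR0 hR)
    (T3_28_p0 hD0 hβ hk1 hk2 (by linarith) (by linarith) hR0 hR)
    y1.1 y1.2 y0.1 y0.2 (by norm_num)
    (ex_um 0.443 (by norm_num) (by norm_num) (by norm_num) (by norm_num)) (ex_um 0.455 (by norm_num) (by norm_num) (by norm_num) (by norm_num)) (ex_lm 0.449 (by norm_num) (by norm_num) (by norm_num) (by norm_num) (by norm_num)) (by norm_num) (by norm_num) (by norm_num) (by norm_num) (by norm_num) (by norm_num) (by norm_num) (by norm_num)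
    (by norm_num) (by norm_num) (by norm_num) (by norm_num) (by norm_num) (by norm_num) (by norm_num) (by norm_num) (by norm_num) (by norm_num)
    (ex_up 0.459 (by norm_num) (by norm_num) (by norm_num) (by norm_num)) (ex_lp 0.45 (by norm_num) (by norm_num) (by norm_num)) (by norm_num) (by norm_num) (by norm_num) (by norm_num) (by norm_num) (by norm_num)
    (by norm_num) (by norm_num) (by norm_num) (by norm_num) (by norm_num) (by norm_num) (by norm_num) (by norm_num) (by norm_num) (by norm_num) (by norm_num)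
    (by norm_num) (by norm_num) (by norm_num) (by norm_num)

private theorem yA6 {κ t : ℝ} (h : DomR κ t) (hk1 : 1.33 ≤ κ) (hk2 : κ ≤ 1.36) (ht1 : 1.177 ≤ t + κ) (ht2 : t + κ ≤ 1.2) :
    0.449 ≤ sy κ t ∧ sy κ t ≤ 0.462 := by
  have hy1 : 0.449 ≤ sy κ t := syR_ge h 1.33 1.36 1.177 0.449 1.56674 1.56675 0.51725 0.52893 hk1 hk2 (by linarith) (by norm_num) (by norm_num)
    (expn_ge (by norm_num) (by norm_num)) (expn_le (by norm_num) (by norm_num) (by norm_num)) (by norm_num)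
    (by norm_num) (by norm_num) (by norm_num) (by norm_num) (by norm_num) (by norm_num)
  have hy2 : sy κ t ≤ 0.462 := syR_le h 1.33 1.36 1.2 0.462 1.58724 0.5361 0.53919 0.55137 hk1 hk2 (by linarith) (by norm_num) (by norm_num)
    (expn_ge (by norm_num) (by norm_num)) (by norm_num) (by norm_num) (Or.inr ((mul_le_mul_of_nonneg_left (expn_le (E := 1.58725) (by norm_num) (by norm_num) (by norm_num)) (by norm_num)).trans (by norm_num))) (by norm_num) (by norm_num) (by norm_num)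
  exact ⟨hy1, hy2⟩

private theorem yB6 {κ t : ℝ} (h : DomR κ t) (hk1 : 1.33 ≤ κ) (hk2 : κ ≤ 1.36) (ht1 : -0.9174 ≤ t + κ) (ht2 : t + κ ≤ -0.89439) :
    (-0.448) ≤ sy κ t ∧ sy κ t ≤ (-0.43) := by
  have hy1 : -0.448 ≤ sy κ t := syL_ge h 1.33 1.36 0.9174 0.448 0.6389 0.63891 0.2092 0.21046 0.21522 hk1 hk2 (by linarith) (by norm_num) (by norm_num) (by norm_num)
    (expm_ge (by norm_num) (by norm_num) (by norm_num) (by norm_num)) (expm_le (by norm_num) (by norm_num) (by norm_num)) (by norm_num)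
    (by norm_num) (by norm_num) (by norm_num) (by norm_num) (by norm_num) (by norm_num)
  have hy2 : sy κ t ≤ -0.43 := syL_le h 1.33 1.36 0.89439 0.43 0.6505 0.65051 0.20567 0.21032 hk1 hk2 (by linarith) (by norm_num) (by norm_num) (by norm_num)
    (expm_ge (by norm_num) (by norm_num) (by norm_num) (by norm_num)) (expm_le (by norm_num) (by norm_num) (by norm_num)) (by norm_num)
    (by norm_num) (by norm_num) (by norm_num) (by norm_num) (by norm_num) (by norm_num)
  exact ⟨hy1, hy2⟩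

theorem pc6 {β r h t κ : ℝ} (hh : h = 2 * Real.pi / (3 : ℕ)) (hβ : 0 < β) (hr : 10 ≤ r) (hκ : κ = β * r)
    (hk1 : 1.33 ≤ κ) (hk2 : κ ≤ 1.36) (hT1 : 1.177 ≤ t + κ) (hT2 : t + κ ≤ 1.2) :
    Xf β r h t 0 ≠ 0 ∧ r * 0.0755 ≤ (Ld β r h t 1 - Ld β r h t 0).im ∧
      ‖(((-1 : ℤ) : ℂ) - 1) * Ld β r h t 0 - ((-1 : ℤ) : ℂ) * Ld β r h t 1‖ ≤ r * 5.2 := by
  obtain ⟨q1, q2, q3⟩ := b3_h hh
  have hR0 := b3_R0 hβ hr hκ
  have hR := b3_R hβ hr hκ (by linarith)
  have hD1 : DomR κ t := b3_dom (by linarith) (by linarith) (Or.inl (by linarith))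
  have hD0 : DomR κ (t - h) := b3_dom (by linarith) (by linarith) (Or.inl (by linarith))
  have y1 := yA6 hD1 hk1 hk2 (by linarith) (by linarith)
  have y0 := yB6 hD0 hk1 hk2 (by linarith) (by linarith)
  have j1 := T3_28_d1_3 hD1 hβ hk1 hk2 (by linarith) (by linarith) hR0 hR
  exact b3_piece 1.33 1.36 0.449 0.462 0.456 0.63381 0.63827 0.63003 0.8681 2.6185 2.6582 0.08 0.195 0.195 3.028 1.6245 0 0 (-0.448) (-0.43) (-0.439) 1.55115 1.56518 2.1287 4.3194 0.1 0.28 0.17 3.3735 3.4553 0 0 0.0755 5.2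
    hβ hr hκ (by norm_num) hk1 hk2 hD1 hD0 j1 (j1 _ (by rw [sub_self, norm_zero]; norm_num))
    (T3_28_d0_3 hD0 hβ hk1 hk2 (by linarith) (by linarith) hR0 hR)
    (T3_28_p0 hD0 hβ hk1 hk2 (by linarith) (by linarith) hR0 hR)
    y1.1 y1.2 y0.1 y0.2 (by norm_num)
    (ex_um 0.449 (by norm_num) (by norm_num) (by norm_num) (by norm_num)) (ex_um 0.462 (by norm_num) (by norm_num) (by norm_num) (by norm_num)) (ex_lm 0.456 (by norm_num) (by norm_num) (by norm_num) (by norm_num) (by norm_num)) (by norm_num) (by norm_num) (by norm_num) (by norm_num) (by norm_num) (by norm_num) (by norm_num) (by norm_num)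
    (by norm_num) (by norm_num) (by norm_num) (by norm_num) (by norm_num) (by norm_num) (by norm_num) (by norm_num) (by norm_num) (by norm_num)
    (ex_up 0.448 (by norm_num) (by norm_num) (by norm_num) (by norm_num)) (ex_lp 0.439 (by norm_num) (by norm_num) (by norm_num)) (by norm_num) (by norm_num) (by norm_num) (by norm_num) (by norm_num) (by norm_num)
    (by norm_num) (by norm_num) (by norm_num) (by norm_num) (by norm_num) (by norm_num) (by norm_num) (by norm_num) (by norm_num) (by norm_num) (by norm_num)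
    (by norm_num) (by norm_num) (by norm_num) (by norm_num)

private theorem yA7 {κ t : ℝ} (h : DomR κ t) (hk1 : 1.33 ≤ κ) (hk2 : κ ≤ 1.36) (ht1 : 1.2 ≤ t + κ) (ht2 : t + κ ≤ 1.224) :
    0.455 ≤ sy κ t ∧ sy κ t ≤ 0.469 := by
  have hy1 : 0.455 ≤ sy κ t := syR_ge h 1.33 1.36 1.2 0.455 1.57617 1.57618 0.52732 0.53922 hk1 hk2 (by linarith) (by norm_num) (by norm_num)
    (expn_ge (by norm_num) (by norm_num)) (expn_le (by norm_num) (by norm_num) (by norm_num)) (by norm_num)
    (by norm_num) (by norm_num) (by norm_num) (by norm_num) (by norm_num) (by norm_num)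
  have hy2 : sy κ t ≤ 0.469 := syR_le h 1.33 1.36 1.224 0.469 1.59839 0.548 0.5512 0.56365 hk1 hk2 (by linarith) (by norm_num) (by norm_num)
    (expn_ge (by norm_num) (by norm_num)) (by norm_num) (by norm_num) (Or.inr ((mul_le_mul_of_nonneg_left (expn_le (E := 1.5984) (by norm_num) (by norm_num) (by norm_num)) (by norm_num)).trans (by norm_num))) (by norm_num) (by norm_num) (by norm_num)
  exact ⟨hy1, hy2⟩

private theorem yB7 {κ t : ℝ} (h : DomR κ t) (hk1 : 1.33 ≤ κ) (hk2 : κ ≤ 1.36) (ht1 : -0.8944 ≤ t + κ) (ht2 : t + κ ≤ -0.87039) :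
    (-0.437) ≤ sy κ t ∧ sy κ t ≤ (-0.419) := by
  have hy1 : -0.437 ≤ sy κ t := syL_ge h 1.33 1.36 0.8944 0.437 0.64597 0.64598 0.2063 0.20756 0.21226 hk1 hk2 (by linarith) (by norm_num) (by norm_num) (by norm_num)
    (expm_ge (by norm_num) (by norm_num) (by norm_num) (by norm_num)) (expm_le (by norm_num) (by norm_num) (by norm_num)) (by norm_num)
    (by norm_num) (by norm_num) (by norm_num) (by norm_num) (by norm_num) (by norm_num)
  have hy2 : sy κ t ≤ -0.419 := syL_le h 1.33 1.36 0.87039 0.419 0.6577 0.65771 0.20262 0.20721 hk1 hk2 (by linarith) (by norm_num) (by norm_num) (by norm_num)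
    (expm_ge (by norm_num) (by norm_num) (by norm_num) (by norm_num)) (expm_le (by norm_num) (by norm_num) (by norm_num)) (by norm_num)
    (by norm_num) (by norm_num) (by norm_num) (by norm_num) (by norm_num) (by norm_num)
  exact ⟨hy1, hy2⟩

theorem pc7 {β r h t κ : ℝ} (hh : h = 2 * Real.pi / (3 : ℕ)) (hβ : 0 < β) (hr : 10 ≤ r) (hκ : κ = β * r)
    (hk1 : 1.33 ≤ κ) (hk2 : κ ≤ 1.36) (hT1 : 1.2 ≤ t + κ) (hT2 : t + κ ≤ 1.224) :
    Xf β r h t 0 ≠ 0 ∧ r * 0.0755 ≤ (Ld β r h t 1 - Ld β r h t 0).im ∧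
      ‖(((-1 : ℤ) : ℂ) - 1) * Ld β r h t 0 - ((-1 : ℤ) : ℂ) * Ld β r h t 1‖ ≤ r * 5.2 := by
  obtain ⟨q1, q2, q3⟩ := b3_h hh
  have hR0 := b3_R0 hβ hr hκ
  have hR := b3_R hβ hr hκ (by linarith)
  have hD1 : DomR κ t := b3_dom (by linarith) (by linarith) (Or.inl (by linarith))
  have hD0 : DomR κ (t - h) := b3_dom (by linarith) (by linarith) (Or.inl (by linarith))
  have y1 := yA7 hD1 hk1 hk2 (by linarith) (by linarith)
  have y0 := yB7 hD0 hk1 hk2 (by linarith) (by linarith)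
  have j1 := T3_28_d1_3 hD1 hβ hk1 hk2 (by linarith) (by linarith) hR0 hR
  exact b3_piece 1.33 1.36 0.455 0.469 0.462 0.63002 0.63445 0.62563 0.8629 2.6219 2.662 0.08 0.195 0.195 3.028 1.6137 0 0 (-0.437) (-0.419) (-0.428) 1.53418 1.54806 2.1054 4.2505 0.1 0.28 0.17 3.3735 3.4451 0 0 0.0755 5.2
    hβ hr hκ (by norm_num) hk1 hk2 hD1 hD0 j1 (j1 _ (by rw [sub_self, norm_zero]; norm_num))
    (T3_28_d0_3 hD0 hβ hk1 hk2 (by linarith) (by linarith) hR0 hR)
    (T3_28_p0 hD0 hβ hk1 hk2 (by linarith) (by linarith) hR0 hR)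
    y1.1 y1.2 y0.1 y0.2 (by norm_num)
    (ex_um 0.455 (by norm_num) (by norm_num) (by norm_num) (by norm_num)) (ex_um 0.469 (by norm_num) (by norm_num) (by norm_num) (by norm_num)) (ex_lm 0.462 (by norm_num) (by norm_num) (by norm_num) (by norm_num) (by norm_num)) (by norm_num) (by norm_num) (by norm_num) (by norm_num) (by norm_num) (by norm_num) (by norm_num) (by norm_num)
    (by norm_num) (by norm_num) (by norm_num) (by norm_num) (by norm_num) (by norm_num) (by norm_num) (by norm_num) (by norm_num) (by norm_num)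
    (ex_up 0.437 (by norm_num) (by norm_num) (by norm_num) (by norm_num)) (ex_lp 0.428 (by norm_num) (by norm_num) (by norm_num)) (by norm_num) (by norm_num) (by norm_num) (by norm_num) (by norm_num) (by norm_num)
    (by norm_num) (by norm_num) (by norm_num) (by norm_num) (by norm_num) (by norm_num) (by norm_num) (by norm_num) (by norm_num) (by norm_num) (by norm_num)
    (by norm_num) (by norm_num) (by norm_num) (by norm_num)

private theorem yA8 {κ t : ℝ} (h : DomR κ t) (hk1 : 1.33 ≤ κ) (hk2 : κ ≤ 1.36) (ht1 : 1.224 ≤ t + κ) (ht2 : t + κ ≤ 1.247) :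
    0.462 ≤ sy κ t ∧ sy κ t ≤ 0.475 := by
  have hy1 : 0.462 ≤ sy κ t := syR_ge h 1.33 1.36 1.224 0.462 1.58724 1.58725 0.53919 0.55137 hk1 hk2 (by linarith) (by norm_num) (by norm_num)
    (expn_ge (by norm_num) (by norm_num)) (expn_le (by norm_num) (by norm_num) (by norm_num)) (by norm_num)
    (by norm_num) (by norm_num) (by norm_num) (by norm_num) (by norm_num) (by norm_num)
  have hy2 : sy κ t ≤ 0.475 := syR_le h 1.33 1.36 1.247 0.475 1.60801 0.5584 0.56162 0.5743 hk1 hk2 (by linarith) (by norm_num) (by norm_num)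
    (expn_ge (by norm_num) (by norm_num)) (by norm_num) (by norm_num) (Or.inr ((mul_le_mul_of_nonneg_left (expn_le (E := 1.60802) (by norm_num) (by norm_num) (by norm_num)) (by norm_num)).trans (by norm_num))) (by norm_num) (by norm_num) (by norm_num)
  exact ⟨hy1, hy2⟩

private theorem yB8 {κ t : ℝ} (h : DomR κ t) (hk1 : 1.33 ≤ κ) (hk2 : κ ≤ 1.36) (ht1 : -0.8704 ≤ t + κ) (ht2 : t + κ ≤ -0.84739) :
    (-0.426) ≤ sy κ t ∧ sy κ t ≤ (-0.409) := by
  have hy1 : -0.426 ≤ sy κ t := syL_ge h 1.33 1.36 0.8704 0.426 0.65311 0.65312 0.2034 0.20457 0.2092 hk1 hk2 (by linarith) (by norm_num) (by norm_num) (by norm_num)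
    (expm_ge (by norm_num) (by norm_num) (by norm_num) (by norm_num)) (expm_le (by norm_num) (by norm_num) (by norm_num)) (by norm_num)
    (by norm_num) (by norm_num) (by norm_num) (by norm_num) (by norm_num) (by norm_num)
  have hy2 : sy κ t ≤ -0.409 := syL_le h 1.33 1.36 0.84739 0.409 0.66431 0.66432 0.19978 0.2043 hk1 hk2 (by linarith) (by norm_num) (by norm_num) (by norm_num)
    (expm_ge (by norm_num) (by norm_num) (by norm_num) (by norm_num)) (expm_le (by norm_num) (by norm_num) (by norm_num)) (by norm_num)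
    (by norm_num) (by norm_num) (by norm_num) (by norm_num) (by norm_num) (by norm_num)
  exact ⟨hy1, hy2⟩

theorem pc8 {β r h t κ : ℝ} (hh : h = 2 * Real.pi / (3 : ℕ)) (hβ : 0 < β) (hr : 10 ≤ r) (hκ : κ = β * r)
    (hk1 : 1.33 ≤ κ) (hk2 : κ ≤ 1.36) (hT1 : 1.224 ≤ t + κ) (hT2 : t + κ ≤ 1.247) :
    Xf β r h t 0 ≠ 0 ∧ r * 0.0755 ≤ (Ld β r h t 1 - Ld β r h t 0).im ∧
      ‖(((-1 : ℤ) : ℂ) - 1) * Ld β r h t 0 - ((-1 : ℤ) : ℂ) * Ld β r h t 1‖ ≤ r * 5.2 := by
  obtain ⟨q1, q2, q3⟩ := b3_h hh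
  have hR0 := b3_R0 hβ hr hκ
  have hR := b3_R hβ hr hκ (by linarith)
  have hD1 : DomR κ t := b3_dom (by linarith) (by linarith) (Or.inl (by linarith))
  have hD0 : DomR κ (t - h) := b3_dom (by linarith) (by linarith) (Or.inl (by linarith))
  have y1 := yA8 hD1 hk1 hk2 (by linarith) (by linarith)
  have y0 := yB8 hD0 hk1 hk2 (by linarith) (by linarith)
  have j1 := T3_28_d1_3 hD1 hβ hk1 hk2 (by linarith) (by linarith) hR0 hR
  exact b3_piece 1.33 1.36 0.462 0.475 0.469 0.62562 0.63003 0.62189 0.8569 2.626 2.6654 0.08 0.195 0.195 3.028 1.6012 0 0 (-0.426) (-0.409) (-0.417) 1.5174 1.53113 2.0824 4.1897 0.1 0.28 0.17 3.3735 3.4321 0 0 0.0755 5.2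
    hβ hr hκ (by norm_num) hk1 hk2 hD1 hD0 j1 (j1 _ (by rw [sub_self, norm_zero]; norm_num))
    (T3_28_d0_3 hD0 hβ hk1 hk2 (by linarith) (by linarith) hR0 hR)
    (T3_28_p0 hD0 hβ hk1 hk2 (by linarith) (by linarith) hR0 hR)
    y1.1 y1.2 y0.1 y0.2 (by norm_num)
    (ex_um 0.462 (by norm_num) (by norm_num) (by norm_num) (by norm_num)) (ex_um 0.475 (by norm_num) (by norm_num) (by norm_num) (by norm_num)) (ex_lm 0.469 (by norm_num) (by norm_num) (by norm_num) (by norm_num) (by norm_num)) (by norm_num) (by norm_num) (by norm_num) (by norm_num) (by norm_num) (by norm_num) (by norm_num) (by norm_num)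
    (by norm_num) (by norm_num) (by norm_num) (by norm_num) (by norm_num) (by norm_num) (by norm_num) (by norm_num) (by norm_num) (by norm_num)
    (ex_up 0.426 (by norm_num) (by norm_num) (by norm_num) (by norm_num)) (ex_lp 0.417 (by norm_num) (by norm_num) (by norm_num)) (by norm_num) (by norm_num) (by norm_num) (by norm_num) (by norm_num) (by norm_num)
    (by norm_num) (by norm_num) (by norm_num) (by norm_num) (by norm_num) (by norm_num) (by norm_num) (by norm_num) (by norm_num) (by norm_num) (by norm_num)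
    (by norm_num) (by norm_num) (by norm_num) (by norm_num)

private theorem yA9 {κ t : ℝ} (h : DomR κ t) (hk1 : 1.33 ≤ κ) (hk2 : κ ≤ 1.36) (ht1 : 1.247 ≤ t + κ) (ht2 : t + κ ≤ 1.27) :
    0.468 ≤ sy κ t ∧ sy κ t ≤ 0.481 := by
  have hy1 : 0.468 ≤ sy κ t := syR_ge h 1.33 1.36 1.247 0.468 1.59679 1.5968 0.54948 0.56189 hk1 hk2 (by linarith) (by norm_num) (by norm_num)
    (expn_ge (by norm_num) (by norm_num)) (expn_le (by norm_num) (by norm_num) (by norm_num)) (by norm_num)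
    (by norm_num) (by norm_num) (by norm_num) (by norm_num) (by norm_num) (by norm_num)
  have hy2 : sy κ t ≤ 0.481 := syR_le h 1.33 1.36 1.27 0.481 1.61769 0.5688 0.57213 0.58505 hk1 hk2 (by linarith) (by norm_num) (by norm_num)
    (expn_ge (by norm_num) (by norm_num)) (by norm_num) (by norm_num) (Or.inr ((mul_le_mul_of_nonneg_left (expn_le (E := 1.6177) (by norm_num) (by norm_num) (by norm_num)) (by norm_num)).trans (by norm_num))) (by norm_num) (by norm_num) (by norm_num)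
  exact ⟨hy1, hy2⟩

private theorem yB9 {κ t : ℝ} (h : DomR κ t) (hk1 : 1.33 ≤ κ) (hk2 : κ ≤ 1.36) (ht1 : -0.8474 ≤ t + κ) (ht2 : t + κ ≤ -0.82439) :
    (-0.415) ≤ sy κ t ∧ sy κ t ≤ (-0.398) := by
  have hy1 : -0.415 ≤ sy κ t := syL_ge h 1.33 1.36 0.8474 0.415 0.66034 0.66035 0.2003 0.2015 0.20605 hk1 hk2 (by linarith) (by norm_num) (by norm_num) (by norm_num)
    (expm_ge (by norm_num) (by norm_num) (by norm_num) (by norm_num)) (expm_le (by norm_num) (by norm_num) (by norm_num)) (by norm_num)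
    (by norm_num) (by norm_num) (by norm_num) (by norm_num) (by norm_num) (by norm_num)
  have hy2 : sy κ t ≤ -0.398 := syL_le h 1.33 1.36 0.82439 0.398 0.67166 0.67167 0.19655 0.201 hk1 hk2 (by linarith) (by norm_num) (by norm_num) (by norm_num)
    (expm_ge (by norm_num) (by norm_num) (by norm_num) (by norm_num)) (expm_le (by norm_num) (by norm_num) (by norm_num)) (by norm_num)
    (by norm_num) (by norm_num) (by norm_num) (by norm_num) (by norm_num) (by norm_num)
  exact ⟨hy1, hy2⟩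

theorem pc9 {β r h t κ : ℝ} (hh : h = 2 * Real.pi / (3 : ℕ)) (hβ : 0 < β) (hr : 10 ≤ r) (hκ : κ = β * r)
    (hk1 : 1.33 ≤ κ) (hk2 : κ ≤ 1.36) (hT1 : 1.247 ≤ t + κ) (hT2 : t + κ ≤ 1.27) :
    Xf β r h t 0 ≠ 0 ∧ r * 0.0755 ≤ (Ld β r h t 1 - Ld β r h t 0).im ∧
      ‖(((-1 : ℤ) : ℂ) - 1) * Ld β r h t 0 - ((-1 : ℤ) : ℂ) * Ld β r h t 1‖ ≤ r * 5.2 := by
  obtain ⟨q1, q2, q3⟩ := b3_h hh
  have hR0 := b3_R0 hβ hr hκ
  have hR := b3_R hβ hr hκ (by linarith)
  have hD1 : DomR κ t := b3_dom (by linarith) (by linarith) (Or.inl (by linarith))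
  have hD0 : DomR κ (t - h) := b3_dom (by linarith) (by linarith) (Or.inl (by linarith))
  have y1 := yA9 hD1 hk1 hk2 (by linarith) (by linarith)
  have y0 := yB9 hD0 hk1 hk2 (by linarith) (by linarith)
  have j1 := T3_28_d1_4 hD1 hβ hk1 hk2 (by linarith) (by linarith) hR0 hR
  exact b3_piece 1.33 1.36 0.468 0.481 0.474 0.6225 0.62626 0.61817 0.8518 2.6296 2.6688 0.06 0.2 0.2 4.1667 2.1887 0 0 (-0.415) (-0.398) (-0.406) 1.5008 1.51438 2.0596 4.1245 0.1 0.26 0.17 3.1326 3.1769 0 0 0.0755 5.2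
    hβ hr hκ (by norm_num) hk1 hk2 hD1 hD0 j1 (j1 _ (by rw [sub_self, norm_zero]; norm_num))
    (T3_28_d0_4 hD0 hβ hk1 hk2 (by linarith) (by linarith) hR0 hR)
    (T3_28_p0 hD0 hβ hk1 hk2 (by linarith) (by linarith) hR0 hR)
    y1.1 y1.2 y0.1 y0.2 (by norm_num)
    (ex_um 0.468 (by norm_num) (by norm_num) (by norm_num) (by norm_num)) (ex_um 0.481 (by norm_num) (by norm_num) (by norm_num) (by norm_num)) (ex_lm 0.474 (by norm_num) (by norm_num) (by norm_num) (by norm_num) (by norm_num)) (by norm_num) (by norm_num) (by norm_num) (by norm_num) (by norm_num) (by norm_num) (by norm_num) (by norm_num)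
    (by norm_num) (by norm_num) (by norm_num) (by norm_num) (by norm_num) (by norm_num) (by norm_num) (by norm_num) (by norm_num) (by norm_num)
    (ex_up 0.415 (by norm_num) (by norm_num) (by norm_num) (by norm_num)) (ex_lp 0.406 (by norm_num) (by norm_num) (by norm_num)) (by norm_num) (by norm_num) (by norm_num) (by norm_num) (by norm_num) (by norm_num)
    (by norm_num) (by norm_num) (by norm_num) (by norm_num) (by norm_num) (by norm_num) (by norm_num) (by norm_num) (by norm_num) (by norm_num) (by norm_num)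
    (by norm_num) (by norm_num) (by norm_num) (by norm_num)

private theorem yA10 {κ t : ℝ} (h : DomR κ t) (hk1 : 1.33 ≤ κ) (hk2 : κ ≤ 1.36) (ht1 : 1.27 ≤ t + κ) (ht2 : t + κ ≤ 1.294) :
    0.474 ≤ sy κ t ∧ sy κ t ≤ 0.487 := by
  have hy1 : 0.474 ≤ sy κ t := syR_ge h 1.33 1.36 1.27 0.474 1.6064 1.60641 0.55987 0.57252 hk1 hk2 (by linarith) (by norm_num) (by norm_num)
    (expn_ge (by norm_num) (by norm_num)) (expn_le (by norm_num) (by norm_num) (by norm_num)) (by norm_num)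
    (by norm_num) (by norm_num) (by norm_num) (by norm_num) (by norm_num) (by norm_num)
  have hy2 : sy κ t ≤ 0.487 := syR_le h 1.33 1.36 1.294 0.487 1.62742 0.5816 0.58275 0.59591 hk1 hk2 (by linarith) (by norm_num) (by norm_num)
    (expn_ge (by norm_num) (by norm_num)) (by norm_num) (by norm_num) (Or.inr ((mul_le_mul_of_nonneg_left (expn_le (E := 1.62743) (by norm_num) (by norm_num) (by norm_num)) (by norm_num)).trans (by norm_num))) (by norm_num) (by norm_num) (by norm_num)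
  exact ⟨hy1, hy2⟩

private theorem yB10 {κ t : ℝ} (h : DomR κ t) (hk1 : 1.33 ≤ κ) (hk2 : κ ≤ 1.36) (ht1 : -0.8244 ≤ t + κ) (ht2 : t + κ ≤ -0.80039) :
    (-0.404) ≤ sy κ t ∧ sy κ t ≤ (-0.387) := by
  have hy1 : -0.404 ≤ sy κ t := syL_ge h 1.33 1.36 0.8244 0.404 0.66764 0.66765 0.1971 0.19832 0.20281 hk1 hk2 (by linarith) (by norm_num) (by norm_num) (by norm_num)
    (expm_ge (by norm_num) (by norm_num) (by norm_num) (by norm_num)) (expm_le (by norm_num) (by norm_num) (by norm_num)) (by norm_num)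
    (by norm_num) (by norm_num) (by norm_num) (by norm_num) (by norm_num) (by norm_num)
  have hy2 : sy κ t ≤ -0.387 := syL_le h 1.33 1.36 0.80039 0.387 0.67909 0.6791 0.19324 0.19761 hk1 hk2 (by linarith) (by norm_num) (by norm_num) (by norm_num)
    (expm_ge (by norm_num) (by norm_num) (by norm_num) (by norm_num)) (expm_le (by norm_num) (by norm_num) (by norm_num)) (by norm_num)
    (by norm_num) (by norm_num) (by norm_num) (by norm_num) (by norm_num) (by norm_num)
  exact ⟨hy1, hy2⟩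

theorem pc10 {β r h t κ : ℝ} (hh : h = 2 * Real.pi / (3 : ℕ)) (hβ : 0 < β) (hr : 10 ≤ r) (hκ : κ = β * r)
    (hk1 : 1.33 ≤ κ) (hk2 : κ ≤ 1.36) (hT1 : 1.27 ≤ t + κ) (hT2 : t + κ ≤ 1.294) :
    Xf β r h t 0 ≠ 0 ∧ r * 0.0755 ≤ (Ld β r h t 1 - Ld β r h t 0).im ∧
      ‖(((-1 : ℤ) : ℂ) - 1) * Ld β r h t 0 - ((-1 : ℤ) : ℂ) * Ld β r h t 1‖ ≤ r * 5.2 := by
  obtain ⟨q1, q2, q3⟩ := b3_h hh
  have hR0 := b3_R0 hβ hr hκ
  have hR := b3_R hβ hr hκ (by linarith)
  have hD1 : DomR κ t := b3_dom (by linarith) (by linarith) (Or.inl (by linarith))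
  have hD0 : DomR κ (t - h) := b3_dom (by linarith) (by linarith) (Or.inl (by linarith))
  have y1 := yA10 hD1 hk1 hk2 (by linarith) (by linarith)
  have y0 := yB10 hD0 hk1 hk2 (by linarith) (by linarith)
  have j1 := T3_28_d1_4 hD1 hβ hk1 hk2 (by linarith) (by linarith) hR0 hR
  exact b3_piece 1.33 1.36 0.474 0.487 0.48 0.61878 0.62251 0.61447 0.8467 2.6334 2.6724 0.06 0.2 0.2 4.1667 2.1741 0 0 (-0.404) (-0.387) (-0.396) 1.48586 1.49781 2.0371 4.061 0.1 0.26 0.17 3.1326 3.1667 0 0 0.0755 5.2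
    hβ hr hκ (by norm_num) hk1 hk2 hD1 hD0 j1 (j1 _ (by rw [sub_self, norm_zero]; norm_num))
    (T3_28_d0_4 hD0 hβ hk1 hk2 (by linarith) (by linarith) hR0 hR)
    (T3_28_p0 hD0 hβ hk1 hk2 (by linarith) (by linarith) hR0 hR)
    y1.1 y1.2 y0.1 y0.2 (by norm_num)
    (ex_um 0.474 (by norm_num) (by norm_num) (by norm_num) (by norm_num)) (ex_um 0.487 (by norm_num) (by norm_num) (by norm_num) (by norm_num)) (ex_lm 0.48 (by norm_num) (by norm_num) (by norm_num) (by norm_num) (by norm_num)) (by norm_num) (by norm_num) (by norm_num) (by norm_num) (by norm_num) (by norm_num) (by norm_num) (by norm_num)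
    (by norm_num) (by norm_num) (by norm_num) (by norm_num) (by norm_num) (by norm_num) (by norm_num) (by norm_num) (by norm_num) (by norm_num)
    (ex_up 0.404 (by norm_num) (by norm_num) (by norm_num) (by norm_num)) (ex_lp 0.396 (by norm_num) (by norm_num) (by norm_num)) (by norm_num) (by norm_num) (by norm_num) (by norm_num) (by norm_num) (by norm_num)
    (by norm_num) (by norm_num) (by norm_num) (by norm_num) (by norm_num) (by norm_num) (by norm_num) (by norm_num) (by norm_num) (by norm_num) (by norm_num)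
    (by norm_num) (by norm_num) (by norm_num) (by norm_num)

private theorem yA11 {κ t : ℝ} (h : DomR κ t) (hk1 : 1.33 ≤ κ) (hk2 : κ ≤ 1.36) (ht1 : 1.294 ≤ t + κ) (ht2 : t + κ ≤ 1.317) :
    0.48 ≤ sy κ t ∧ sy κ t ≤ 0.494 := by
  have hy1 : 0.48 ≤ sy κ t := syR_ge h 1.33 1.36 1.294 0.48 1.61607 1.61608 0.57037 0.58325 hk1 hk2 (by linarith) (by norm_num) (by norm_num)
    (expn_ge (by norm_num) (by norm_num)) (expn_le (by norm_num) (by norm_num) (by norm_num)) (by norm_num)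
    (by norm_num) (by norm_num) (by norm_num) (by norm_num) (by norm_num) (by norm_num)
  have hy2 : sy κ t ≤ 0.494 := syR_le h 1.33 1.36 1.317 0.494 1.63885 0.5919 0.59528 0.60872 hk1 hk2 (by linarith) (by norm_num) (by norm_num)
    (expn_ge (by norm_num) (by norm_num)) (by norm_num) (by norm_num) (Or.inr ((mul_le_mul_of_nonneg_left (expn_le (E := 1.63886) (by norm_num) (by norm_num) (by norm_num)) (by norm_num)).trans (by norm_num))) (by norm_num) (by norm_num) (by norm_num)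
  exact ⟨hy1, hy2⟩

private theorem yB11 {κ t : ℝ} (h : DomR κ t) (hk1 : 1.33 ≤ κ) (hk2 : κ ≤ 1.36) (ht1 : -0.8004 ≤ t + κ) (ht2 : t + κ ≤ -0.77739) :
    (-0.393) ≤ sy κ t ∧ sy κ t ≤ (-0.376) := by
  have hy1 : -0.393 ≤ sy κ t := syL_ge h 1.33 1.36 0.8004 0.393 0.67502 0.67503 0.1939 0.19506 0.19947 hk1 hk2 (by linarith) (by norm_num) (by norm_num) (by norm_num)
    (expm_ge (by norm_num) (by norm_num) (by norm_num) (by norm_num)) (expm_le (by norm_num) (by norm_num) (by norm_num)) (by norm_num)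
    (by norm_num) (by norm_num) (by norm_num) (by norm_num) (by norm_num) (by norm_num)
  have hy2 : sy κ t ≤ -0.376 := syL_le h 1.33 1.36 0.77739 0.376 0.6866 0.68661 0.18982 0.19411 hk1 hk2 (by linarith) (by norm_num) (by norm_num) (by norm_num)
    (expm_ge (by norm_num) (by norm_num) (by norm_num) (by norm_num)) (expm_le (by norm_num) (by norm_num) (by norm_num)) (by norm_num)
    (by norm_num) (by norm_num) (by norm_num) (by norm_num) (by norm_num) (by norm_num)
  exact ⟨hy1, hy2⟩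

theorem pc11 {β r h t κ : ℝ} (hh : h = 2 * Real.pi / (3 : ℕ)) (hβ : 0 < β) (hr : 10 ≤ r) (hκ : κ = β * r)
    (hk1 : 1.33 ≤ κ) (hk2 : κ ≤ 1.36) (hT1 : 1.294 ≤ t + κ) (hT2 : t + κ ≤ 1.317) :
    Xf β r h t 0 ≠ 0 ∧ r * 0.0755 ≤ (Ld β r h t 1 - Ld β r h t 0).im ∧
      ‖(((-1 : ℤ) : ℂ) - 1) * Ld β r h t 0 - ((-1 : ℤ) : ℂ) * Ld β r h t 1‖ ≤ r * 5.2 := by
  obtain ⟨q1, q2, q3⟩ := b3_h hh
  have hR0 := b3_R0 hβ hr hκ
  have hR := b3_R hβ hr hκ (by linarith)
  have hD1 : DomR κ t := b3_dom (by linarith) (by linarith) (Or.inl (by linarith))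
  have hD0 : DomR κ (t - h) := b3_dom (by linarith) (by linarith) (Or.inl (by linarith))
  have y1 := yA11 hD1 hk1 hk2 (by linarith) (by linarith)
  have y0 := yB11 hD0 hk1 hk2 (by linarith) (by linarith)
  have j1 := T3_28_d1_4 hD1 hβ hk1 hk2 (by linarith) (by linarith) hR0 hR
  exact b3_piece 1.33 1.36 0.48 0.494 0.487 0.61446 0.61879 0.61019 0.8416 2.6372 2.6767 0.06 0.2 0.2 4.1667 2.1594 0 0 (-0.393) (-0.376) (-0.385) 1.46961 1.48142 2.0148 3.9996 0.1 0.26 0.17 3.1326 3.156 0 0 0.0755 5.2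
    hβ hr hκ (by norm_num) hk1 hk2 hD1 hD0 j1 (j1 _ (by rw [sub_self, norm_zero]; norm_num))
    (T3_28_d0_4 hD0 hβ hk1 hk2 (by linarith) (by linarith) hR0 hR)
    (T3_28_p0 hD0 hβ hk1 hk2 (by linarith) (by linarith) hR0 hR)
    y1.1 y1.2 y0.1 y0.2 (by norm_num)
    (ex_um 0.48 (by norm_num) (by norm_num) (by norm_num) (by norm_num)) (ex_um 0.494 (by norm_num) (by norm_num) (by norm_num) (by norm_num)) (ex_lm 0.487 (by norm_num) (by norm_num) (by norm_num) (by norm_num) (by norm_num)) (by norm_num) (by norm_num) (by norm_num) (by norm_num) (by norm_num) (by norm_num) (by norm_num) (by norm_num)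
    (by norm_num) (by norm_num) (by norm_num) (by norm_num) (by norm_num) (by norm_num) (by norm_num) (by norm_num) (by norm_num) (by norm_num)
    (ex_up 0.393 (by norm_num) (by norm_num) (by norm_num) (by norm_num)) (ex_lp 0.385 (by norm_num) (by norm_num) (by norm_num)) (by norm_num) (by norm_num) (by norm_num) (by norm_num) (by norm_num) (by norm_num)
    (by norm_num) (by norm_num) (by norm_num) (by norm_num) (by norm_num) (by norm_num) (by norm_num) (by norm_num) (by norm_num) (by norm_num) (by norm_num)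
    (by norm_num) (by norm_num) (by norm_num) (by norm_num)

private theorem yA12 {κ t : ℝ} (h : DomR κ t) (hk1 : 1.33 ≤ κ) (hk2 : κ ≤ 1.36) (ht1 : 1.317 ≤ t + κ) (ht2 : t + κ ≤ 1.34) :
    0.485 ≤ sy κ t ∧ sy κ t ≤ 0.5 := by
  have hy1 : 0.485 ≤ sy κ t := syR_ge h 1.33 1.36 1.317 0.485 1.62417 1.62418 0.5792 0.59228 hk1 hk2 (by linarith) (by norm_num) (by norm_num)
    (expn_ge (by norm_num) (by norm_num)) (expn_le (by norm_num) (by norm_num) (by norm_num)) (by norm_num)
    (by norm_num) (by norm_num) (by norm_num) (by norm_num) (by norm_num) (by norm_num)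
  have hy2 : sy κ t ≤ 0.5 := syR_le h 1.33 1.36 1.34 0.5 1.64871 0.6027 0.60614 0.61983 hk1 hk2 (by linarith) (by norm_num) (by norm_num)
    (expn_ge (by norm_num) (by norm_num)) (by norm_num) (by norm_num) (Or.inr ((mul_le_mul_of_nonneg_left (expn_le (E := 1.64873) (by norm_num) (by norm_num) (by norm_num)) (by norm_num)).trans (by norm_num))) (by norm_num) (by norm_num) (by norm_num)
  exact ⟨hy1, hy2⟩

private theorem yB12 {κ t : ℝ} (h : DomR κ t) (hk1 : 1.33 ≤ κ) (hk2 : κ ≤ 1.36) (ht1 : -0.7774 ≤ t + κ) (ht2 : t + κ ≤ -0.75439) :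
    (-0.382) ≤ sy κ t ∧ sy κ t ≤ (-0.366) := by
  have hy1 : -0.382 ≤ sy κ t := syL_ge h 1.33 1.36 0.7774 0.382 0.68249 0.6825 0.1906 0.19169 0.19603 hk1 hk2 (by linarith) (by norm_num) (by norm_num) (by norm_num)
    (expm_ge (by norm_num) (by norm_num) (by norm_num) (by norm_num)) (expm_le (by norm_num) (by norm_num) (by norm_num)) (by norm_num)
    (by norm_num) (by norm_num) (by norm_num) (by norm_num) (by norm_num) (by norm_num)
  have hy2 : sy κ t ≤ -0.366 := syL_le h 1.33 1.36 0.75439 0.366 0.6935 0.69351 0.18663 0.19085 hk1 hk2 (by linarith) (by norm_num) (by norm_num) (by norm_num)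
    (expm_ge (by norm_num) (by norm_num) (by norm_num) (by norm_num)) (expm_le (by norm_num) (by norm_num) (by norm_num)) (by norm_num)
    (by norm_num) (by norm_num) (by norm_num) (by norm_num) (by norm_num) (by norm_num)
  exact ⟨hy1, hy2⟩

theorem pc12 {β r h t κ : ℝ} (hh : h = 2 * Real.pi / (3 : ℕ)) (hβ : 0 < β) (hr : 10 ≤ r) (hκ : κ = β * r)
    (hk1 : 1.33 ≤ κ) (hk2 : κ ≤ 1.36) (hT1 : 1.317 ≤ t + κ) (hT2 : t + κ ≤ 1.34) :
    Xf β r h t 0 ≠ 0 ∧ r * 0.0755 ≤ (Ld β r h t 1 - Ld β r h t 0).im ∧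
      ‖(((-1 : ℤ) : ℂ) - 1) * Ld β r h t 0 - ((-1 : ℤ) : ℂ) * Ld β r h t 1‖ ≤ r * 5.2 := by
  obtain ⟨q1, q2, q3⟩ := b3_h hh
  have hR0 := b3_R0 hβ hr hκ
  have hR := b3_R hβ hr hκ (by linarith)
  have hD1 : DomR κ t := b3_dom (by linarith) (by linarith) (Or.inl (by linarith))
  have hD0 : DomR κ (t - h) := b3_dom (by linarith) (by linarith) (Or.inl (by linarith))
  have y1 := yA12 hD1 hk1 hk2 (by linarith) (by linarith)
  have y0 := yB12 hD0 hk1 hk2 (by linarith) (by linarith)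
  have j1 := T3_28_d1_4 hD1 hβ hk1 hk2 (by linarith) (by linarith) hR0 hR
  exact b3_piece 1.33 1.36 0.485 0.5 0.492 0.6114 0.6157 0.60654 0.8374 2.6404 2.6805 0.06 0.2 0.2 4.1667 2.1473 0 0 (-0.382) (-0.366) (-0.374) 1.45353 1.46522 1.9927 3.9454 0.1 0.26 0.17 3.1326 3.1427 0 0 0.0755 5.2
    hβ hr hκ (by norm_num) hk1 hk2 hD1 hD0 j1 (j1 _ (by rw [sub_self, norm_zero]; norm_num))
    (T3_28_d0_4 hD0 hβ hk1 hk2 (by linarith) (by linarith) hR0 hR)
    (T3_28_p0 hD0 hβ hk1 hk2 (by linarith) (by linarith) hR0 hR)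
    y1.1 y1.2 y0.1 y0.2 (by norm_num)
    (ex_um 0.485 (by norm_num) (by norm_num) (by norm_num) (by norm_num)) (ex_um 0.5 (by norm_num) (by norm_num) (by norm_num) (by norm_num)) (ex_lm 0.492 (by norm_num) (by norm_num) (by norm_num) (by norm_num) (by norm_num)) (by norm_num) (by norm_num) (by norm_num) (by norm_num) (by norm_num) (by norm_num) (by norm_num) (by norm_num)
    (by norm_num) (by norm_num) (by norm_num) (by norm_num) (by norm_num) (by norm_num) (by norm_num) (by norm_num) (by norm_num) (by norm_num)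
    (ex_up 0.382 (by norm_num) (by norm_num) (by norm_num) (by norm_num)) (ex_lp 0.374 (by norm_num) (by norm_num) (by norm_num)) (by norm_num) (by norm_num) (by norm_num) (by norm_num) (by norm_num) (by norm_num)
    (by norm_num) (by norm_num) (by norm_num) (by norm_num) (by norm_num) (by norm_num) (by norm_num) (by norm_num) (by norm_num) (by norm_num) (by norm_num)
    (by norm_num) (by norm_num) (by norm_num) (by norm_num)

theorem innS {β r h t κ : ℝ} (hh : h = 2 * Real.pi / (3 : ℕ)) (hβ : 0 < β) (hr : 10 ≤ r) (hκ : κ = β * r)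
    (hk1 : 1.33 ≤ κ) (hk2 : κ ≤ 1.36) (hT1 : 1.047 ≤ t + κ) (hT2 : t + κ ≤ 1.34) :
    Xf β r h t 0 ≠ 0 ∧ r * 0.0755 ≤ (Ld β r h t 1 - Ld β r h t 0).im ∧
      ‖(((-1 : ℤ) : ℂ) - 1) * Ld β r h t 0 - ((-1 : ℤ) : ℂ) * Ld β r h t 1‖ ≤ r * 5.2 := by
  rcases le_total (t + κ) 1.067 with f0 | g0
  · exact pc0 hh hβ hr hκ hk1 hk2 hT1 f0
  rcases le_total (t + κ) 1.087 with f1 | g1
  · exact pc1 hh hβ hr hκ hk1 hk2 g0 f1
  rcases le_total (t + κ) 1.107 with f2 | g2
  · exact pc2 hh hβ hr hκ hk1 hk2 g1 f2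
  rcases le_total (t + κ) 1.127 with f3 | g3
  · exact pc3 hh hβ hr hκ hk1 hk2 g2 f3
  rcases le_total (t + κ) 1.152 with f4 | g4
  · exact pc4 hh hβ hr hκ hk1 hk2 g3 f4
  rcases le_total (t + κ) 1.177 with f5 | g5
  · exact pc5 hh hβ hr hκ hk1 hk2 g4 f5
  rcases le_total (t + κ) 1.2 with f6 | g6
  · exact pc6 hh hβ hr hκ hk1 hk2 g5 f6
  rcases le_total (t + κ) 1.224 with f7 | g7
  · exact pc7 hh hβ hr hκ hk1 hk2 g6 f7
  rcases le_total (t + κ) 1.247 with f8 | g8
  · exact pc8 hh hβ hr hκ hk1 hk2 g7 f8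
  rcases le_total (t + κ) 1.27 with f9 | g9
  · exact pc9 hh hβ hr hκ hk1 hk2 g8 f9
  rcases le_total (t + κ) 1.294 with f10 | g10
  · exact pc10 hh hβ hr hκ hk1 hk2 g9 f10
  rcases le_total (t + κ) 1.317 with f11 | g11
  · exact pc11 hh hβ hr hκ hk1 hk2 g10 f11
  exact pc12 hh hβ hr hκ hk1 hk2 g11 hT2

theorem circ {p : ℤ} (hp : IsCoprime (3 : ℤ) p) {β r : ℝ} (hβ : 0 < β) (hr : 10 ≤ r) (hk1 : 1.33 ≤ β * r)
    (hk2 : β * r ≤ 1.36) : Circ (2 * Real.pi * p / (3 : ℕ) + β) r := by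
  obtain ⟨κ, hκ⟩ : ∃ κ, κ = β * r := ⟨_, rfl⟩
  rw [← hκ] at hk1 hk2
  refine circ3 hp hr (h := 2 * Real.pi / (3 : ℕ)) (κ := κ) rfl 1.047 1.34 1.0084 0.0755 0.00334 0.00891 5.2 (by norm_num) (by norm_num) (by norm_num)
    (by norm_num) (by norm_num) ?_ ?_ ?_ ?_ ?_ (by norm_num) (by norm_num)
  · intro t h1 h2
    exact (innS rfl hβ hr hκ hk1 hk2 h1 h2).1
  · intro t h1 h2
    exact (innE rfl hβ hr hκ hk1 hk2 h1 h2).1
  · intro t h1 h2
    exact (innE rfl hβ hr hκ hk1 hk2 h1 h2).2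
  · intro t h1 h2
    exact (innS rfl hβ hr hκ hk1 hk2 h1 h2).2
  · intro t h1 h2 h3
    rcases h3 with h3 | h3
    · rcases le_total (t + κ) 1.022 with g | g
      · exact left rfl hβ hr hκ hk1 hk2 h1 g
      · exact middle rfl hβ hr hκ hk1 hk2 g h3
    · rcases le_total (t + κ) 1.7 with g | g
      · exact right0 rfl hβ hr hκ hk1 hk2 h3 g
      · exact right1 rfl hβ hr hκ hk1 hk2 g h2

end B3_28

end Sok
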