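import Pool.Agent.Lib.MP_816dec_an.R1b3D
import Pool.Agent.Lib.MP_816dec_an.R1b3J29

/-!
MP_816dec_an (A3, row R1, b = 3): the cell `1.36 ≤ κ ≤ 1.39`.
-/

set_option autoImplicit false
set_option maxHeartbeats 4000000
set_option linter.unusedVariables false

open Complex Set

namespace Sok

namespace B3_29

private theorem yL {κ t : ℝ} (h : DomR κ t) (hk1 : 1.36 ≤ κ) (hk2 : κ ≤ 1.39) (ht1 : 0 ≤ t + κ) (ht2 : t + κ ≤ 1.022) :
    0 ≤ sy κ t ∧ sy κ t ≤ 0.41 := by
  have hy1 : 0 ≤ sy κ t := sy_nonneg h (by linarith)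
  have hy2 : sy κ t ≤ 0.41 := syR_le h 1.36 1.39 1.022 0.41 1.50681 0.4419 0.44445 0.45427 hk1 hk2 (by linarith) (by norm_num) (by norm_num)
    (expn_ge (by norm_num) (by norm_num)) (by norm_num) (by norm_num) (Or.inr ((mul_le_mul_of_nonneg_left (expn_le (E := 1.50682) (by norm_num) (by norm_num) (by norm_num)) (by norm_num)).trans (by norm_num))) (by norm_num) (by norm_num) (by norm_num)
  exact ⟨hy1, hy2⟩

theorem left {β r h t κ : ℝ} (hh : h = 2 * Real.pi / (3 : ℕ)) (hβ : 0 < β) (hr : 10 ≤ r) (hκ : κ = β * r)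
    (hk1 : 1.36 ≤ κ) (hk2 : κ ≤ 1.39) (hT1 : 0 ≤ t + κ) (hT2 : t + κ ≤ 1.022) :
    ‖Xf β r h t (-1)‖ < |‖Xf β r h t 1‖ - ‖Xf β r h t 0‖| := by
  obtain ⟨q1, q2, q3⟩ := b3_h hh
  have hR0 := b3_R0 hβ hr hκ
  have hR := b3_R hβ hr hκ (by linarith)
  have hD1 : DomR κ t := b3_dom (by linarith) (by linarith) (Or.inl (by linarith))
  have hy := yL hD1 hk1 hk2 (by linarith) (by linarith)
  have hY : 0.6877 * Real.exp (r * 0.83218) ≤ ‖Xf β r h t 1‖ :=
    b3_lo hβ hr hκ (k := 1) (t' := t) (by push_cast; ring) hD1 0.1 2.9321 0.6877 0.83218 (by norm_num)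
      (T3_29_p1 hD1 hβ hk1 hk2 (by linarith) (by linarith) hR0 hR)
      (v5_Dup hD1 1.39 0 0.41 1 0.66366 2.9321 hk2 hy.1 hy.2 (ex_up 0 (by norm_num) (by norm_num) (by norm_num) (by norm_num)) (ex_um 0.41 (by norm_num) (by norm_num) (by norm_num) (by norm_num)) (by norm_num) (by norm_num) (by norm_num)) (by norm_num) (by norm_num)
      (b3_Vlo hD1 1.36 1.39 0 1.022 0.63 (-0.46203) 0.5188 0.86841 0.1411 0.83218 hk1 hk2 (by linarith) (by linarith) (by norm_num) (ex_lm 0.46203 (by norm_num) (by norm_num) (by norm_num) (by norm_num) (by norm_num)) (by norm_num) (by norm_num) (by norm_num) (by norm_num) (by norm_num) (by norm_num) (by norm_num) (by norm_num) (ex_um 0.1411 (by norm_num) (by norm_num) (by norm_num) (by norm_num)) (by norm_num))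
  have h0 : ‖Xf β r h t 0‖ ≤ 0.8935 * ‖Xf β r h t 1‖ :=
    b3_cmp 0.7468 0.02923 0.000405 0.78218 0.892533 0.000871 0.8935 hr (b3_HU0 0.38 1.36 1.39 (-2.0944) (-1.07239) 1.21045 1.67666 1.69588 0.59643 0.58967 1.67665 0.8219 0.14874 0.65617 1.2276 0 0.05 0.000001 1.4789 0.80295 hβ hr hκ (by norm_num) hk1 hk2 (by norm_num) (by linarith) (by linarith) (by norm_num) (by norm_num) (ex_up 0.5168 (by norm_num) (by norm_num) (by norm_num) (by norm_num)) (ex_up 0.5282 (by norm_num) (by norm_num) (by norm_num) (by norm_num)) (ex_um 0.5168 (by norm_num) (by norm_num) (by norm_num) (by norm_num)) (ex_um 0.5282 (by norm_num) (by norm_num) (by norm_num) (by norm_num)) (by norm_num) (by norm_num) (ex_lp 0.5168 (by norm_num) (by norm_num) (by norm_num)) (by norm_num) (by norm_num) (by norm_num) (by norm_num) (by norm_num) (by norm_num) (by norm_num) (by norm_num) (by norm_num) (by norm_num) (by norm_num) (by norm_num) (by norm_num) (by norm_num) (v5_hump 4.3959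 7.194 2.6822 0.0000003148 0.000001 hβ hr hκ hk1 hk2 (by norm_num) (tb := (-1.07239)) (by linarith) (by norm_num) (by norm_num) (by norm_num) (by norm_num) (by norm_num) (by norm_num) (by norm_num) (ex_un 14 0.99 (by norm_num) (by norm_num) (by norm_num) (by norm_num)) (by norm_num)) (by norm_num) (by norm_num)) hY (by norm_num) (by norm_num) (by norm_num) (by norm_num) (by norm_num) (ex_un 0 0.2923 (by norm_num) (by norm_num) (by norm_num) (by norm_num)) (by norm_num) (by norm_num) (by norm_num) (ex_un 7 0.8218 (by norm_num) (by norm_num) (by norm_num) (by norm_num)) (by norm_num) (by norm_num)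
  have h2 : ‖Xf β r h t (-1)‖ ≤ 0.0566 * ‖Xf β r h t 1‖ := by
    rcases le_total ((t + h) + κ) 2.73 with g0 | g0
    · exact b3_cmp 0.01924 0.39684 0.0002433 0.83218 0.05647 0.000082 0.0566 hr ((b3_Xm hh).trans_le (b3_HF 0.41 1.36 1.39 2.09439 2.73 1.29403 0.57259 0.56559 1.74648 1.7681 0.56558 1.6826 0.14874 2.27509 0.2007 0.0801 0.4531 0.017052 2.0184 0.2312 0.43534 hβ hr hκ (by norm_num) hk1 hk2 (by norm_num) (by linarith) (by linarith) (by norm_num) (ex_um 0.5576 (by norm_num) (by norm_num) (by norm_num) (by norm_num)) (ex_um 0.5699 (by norm_num) (by norm_num) (by norm_num) (by norm_num)) (ex_up 0.5576 (by norm_num) (by norm_num) (by norm_num) (by norm_num)) (ex_up 0.5699 (by norm_num) (by norm_num) (by norm_num) (by norm_num)) (by norm_num) (by norm_num) (ex_lm 0.5699 (by norm_num) (by norm_num) (by norm_num) (by norm_num) (by norm_num)) (by norm_num) (by norm_num) (by norm_num) (by norm_num) (by norm_num) (by norm_num) (by norm_num) (by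 norm_num) (by norm_num) (by norm_num) (by norm_num) (by norm_num) (ex_un 0 0.801 (by norm_num) (by norm_num) (by norm_num) (by norm_num)) (v5_hump 0.5935 7.194 2.6822 0.01399 0.017052 hβ hr hκ hk1 hk2 (by norm_num) (tb := 2.73) (by linarith) (by norm_num) (by norm_num) (by norm_num) (by norm_num) (by norm_num) (by norm_num) (by norm_num) (ex_un 4 0.2696 (by norm_num) (by norm_num) (by norm_num) (by norm_num)) (by norm_num)) (by norm_num) (by norm_num) (by norm_num))) hY (by norm_num) (by norm_num) (by norm_num) (by norm_num) (by norm_num) (ex_un 3 0.9684 (by norm_num) (by norm_num) (by norm_num) (by norm_num)) (by norm_num) (by norm_num) (by norm_num) (ex_un 8 0.3218 (by norm_num) (by norm_num) (by norm_num) (by norm_num)) (by norm_num) (by norm_num)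
    exact b3_cmp 1 0 0.008134 0.48218 0 0.038038 0.0566 hr (b3_w (b3_UD 1.36 1.39 2.73 3.1164 0.3 0.3421 0.3 1.6766 3.2159 0.35 hh hβ hr hκ (by norm_num) hk1 hk2 (by linarith) (by linarith) (by norm_num) (by norm_num) (by norm_num) (by norm_num) (by norm_num) (by norm_num) (by norm_num) (by norm_num) (by norm_num) (by norm_num) (by norm_num) (by norm_num) (by norm_num))) hY (by norm_num) (by norm_num) (by norm_num) (by norm_num) (by norm_num) (by norm_num) (by norm_num) (by norm_num) (by norm_num) (ex_un 4 0.8218 (by norm_num) (by norm_num) (by norm_num) (by norm_num)) (by norm_num) (by norm_num)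
  exact b3_out1 0.8935 0.0566 hY (by norm_num) h0 h2 (by norm_num)

private theorem yM1 {κ t : ℝ} (h : DomR κ t) (hk1 : 1.36 ≤ κ) (hk2 : κ ≤ 1.39) (ht1 : 0 ≤ t + κ) (ht2 : t + κ ≤ 1.047) :
    0 ≤ sy κ t ∧ sy κ t ≤ 0.418 := by
  have hy1 : 0 ≤ sy κ t := sy_nonneg h (by linarith)
  have hy2 : sy κ t ≤ 0.418 := syR_le h 1.36 1.39 1.047 0.418 1.51892 0.4542 0.45676 0.46685 hk1 hk2 (by linarith) (by norm_num) (by norm_num)
    (expn_ge (by norm_num) (by norm_num)) (by norm_num) (by norm_num) (Or.inr ((mul_le_mul_of_nonneg_left (expn_le (E := 1.51893) (by norm_num) (by norm_num) (by norm_num)) (by norm_num)).trans (by norm_num))) (by norm_num) (by norm_num) (by norm_num)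
  exact ⟨hy1, hy2⟩

private theorem yM0 {κ t : ℝ} (h : DomR κ t) (hk1 : 1.36 ≤ κ) (hk2 : κ ≤ 1.39) (ht1 : -1.0724 ≤ t + κ) (ht2 : t + κ ≤ -1.04739) :
    (-0.51) ≤ sy κ t ∧ sy κ t ≤ (-0.491) := by
  have hy1 : -0.51 ≤ sy κ t := syL_ge h 1.36 1.39 1.0724 0.51 0.60049 0.6005 0.2191 0.22032 0.22519 hk1 hk2 (by linarith) (by norm_num) (by norm_num) (by norm_num)
    (expm_ge (by norm_num) (by norm_num) (by norm_num) (by norm_num)) (expm_le (by norm_num) (by norm_num) (by norm_num)) (by norm_num)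
    (by norm_num) (by norm_num) (by norm_num) (by norm_num) (by norm_num) (by norm_num)
  have hy2 : sy κ t ≤ -0.491 := syL_le h 1.36 1.39 1.04739 0.491 0.61201 0.61202 0.21618 0.22096 hk1 hk2 (by linarith) (by norm_num) (by norm_num) (by norm_num)
    (expm_ge (by norm_num) (by norm_num) (by norm_num) (by norm_num)) (expm_le (by norm_num) (by norm_num) (by norm_num)) (by norm_num)
    (by norm_num) (by norm_num) (by norm_num) (by norm_num) (by norm_num) (by norm_num)
  exact ⟨hy1, hy2⟩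

theorem middle {β r h t κ : ℝ} (hh : h = 2 * Real.pi / (3 : ℕ)) (hβ : 0 < β) (hr : 10 ≤ r) (hκ : κ = β * r)
    (hk1 : 1.36 ≤ κ) (hk2 : κ ≤ 1.39) (hT1 : 1.022 ≤ t + κ) (hT2 : t + κ ≤ 1.047) :
    ‖Xf β r h t (-1)‖ < |‖Xf β r h t 1‖ - ‖Xf β r h t 0‖| := by
  obtain ⟨q1, q2, q3⟩ := b3_h hh
  have hR0 := b3_R0 hβ hr hκ
  have hR := b3_R hβ hr hκ (by linarith)
  have hD1 : DomR κ t := b3_dom (by linarith) (by linarith) (Or.inl (by linarith))
  have hD0 : DomR κ (t - h) := b3_dom (by linarith) (by linarith) (Or.inl (by linarith))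
  have hy := yM1 hD1 hk1 hk2 (by linarith) (by linarith)
  have hy0 := yM0 hD0 hk1 hk2 (by linarith) (by linarith)
  have hY : 0.6877 * Real.exp (r * 0.82481) ≤ ‖Xf β r h t 1‖ :=
    b3_lo hβ hr hκ (k := 1) (t' := t) (by push_cast; ring) hD1 0.1 2.9321 0.6877 0.82481 (by norm_num)
      (T3_29_p1 hD1 hβ hk1 hk2 (by linarith) (by linarith) hR0 hR)
      (v5_Dup hD1 1.39 0 0.418 1 0.65837 2.9321 hk2 hy.1 hy.2 (ex_up 0 (by norm_num) (by norm_num) (by norm_num) (by norm_num)) (ex_um 0.418 (by norm_num) (by norm_num) (by norm_num) (by norm_num)) (by norm_num) (by norm_num) (by norm_num)) (by norm_num) (by norm_num)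
      (b3_Vlo hD1 1.36 1.39 0 1.047 0.62 (-0.47803) 0.5302 0.8627 0.14769 0.82481 hk1 hk2 (by linarith) (by linarith) (by norm_num) (ex_lm 0.47803 (by norm_num) (by norm_num) (by norm_num) (by norm_num) (by norm_num)) (by norm_num) (by norm_num) (by norm_num) (by norm_num) (by norm_num) (by norm_num) (by norm_num) (by norm_num) (ex_um 0.14769 (by norm_num) (by norm_num) (by norm_num) (by norm_num)) (by norm_num))
  have hU : ‖Xf β r h t 0‖ ≤ 0.7775 * Real.exp (r * 0.81135) :=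
    b3_up hβ hr hκ (k := 0) (t' := t - h) (by push_cast; ring) hD0 0.16 4.9551 0.7775 0.81135
      (T3_29_p0m hD0 hβ hk1 hk2 (by linarith) (by linarith) hR0 hR) (v5_Dlo hD0 1.36 (-0.51) (-0.491) (-0.5) 1.64871 4.9551 (by norm_num) hk1 hy0.1 hy0.2 (ex_lp 0.5 (by norm_num) (by norm_num) (by norm_num)) (by norm_num) (by norm_num) (by norm_num) (by norm_num)) (by norm_num) (by norm_num)
      (b3_VH hD0 0.35 1.36 1.39 1.17793 1.60963 1.62662 0.62127 0.61478 (-1.04739) 0.81135 (by norm_num) hk1 hk2 (by norm_num) (ex_up 0.476 (by norm_num) (by norm_num) (by norm_num) (by norm_num)) (ex_up 0.4865 (by norm_num) (by norm_num) (by norm_num) (by norm_num)) (ex_um 0.476 (by norm_num) (by norm_num) (by norm_num) (by norm_num)) (ex_um 0.4865 (by norm_num) (by norm_num) (by norm_num) (by norm_num)) (by norm_num) (by norm_num) (by norm_num) (by linarith) (by norm_num))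
  have h0 : ‖Xf β r h t 0‖ ≤ 0.9883 * ‖Xf β r h t 1‖ :=
    b3_cmp 1 0 0.8741 0.01346 0 0.988241 0.9883 hr (b3_w hU) hY (by norm_num) (by norm_num) (by norm_num) (by norm_num) (by norm_num) (by norm_num) (by norm_num) (by norm_num) (by norm_num) (ex_un 0 0.1346 (by norm_num) (by norm_num) (by norm_num) (by norm_num)) (by norm_num) (by norm_num)
  have h2 : ‖Xf β r h t (-1)‖ ≤ 0.0011 * ‖Xf β r h t 1‖ := by
    exact b3_cmp 1 0 0.0004348 0.77481 0 0.001095 0.0011 hr ((b3_Xm hh).trans_le (b3_U1 1.36 1.39 3.11639 3.1414 0.15559 0.14874 0.65617 0.1544 0.13867 1.4153 0.329077 1.731 hβ hr hκ (by norm_num) hk1 hk2 (by linarith) (by linarith) (by norm_num) (by norm_num) (by norm_num) (by norm_num) (by norm_num) (by norm_num) (by norm_num) (by norm_num) (by norm_num) (by norm_num) (by norm_num) (by norm_num) (by norm_num) (ex_un 1 0.544 (by norm_num) (by norm_num) (by norm_num) (by norm_num)) (v5_hump 0.1821 7.194 2.6822 0.27 0.329077 hβ hr hκ hk1 hk2 (by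 norm_num) (tb := 3.1414) (by linarith) (by norm_num) (by norm_num) (by norm_num) (by norm_num) (by norm_num) (by norm_num) (by norm_num) (ex_un 1 0.31 (by norm_num) (by norm_num) (by norm_num) (by norm_num)) (by norm_num)) (by norm_num))) hY (by norm_num) (by norm_num) (by norm_num) (by norm_num) (by norm_num) (by norm_num) (by norm_num) (by norm_num) (by norm_num) (ex_un 7 0.7481 (by norm_num) (by norm_num) (by norm_num) (by norm_num)) (by norm_num) (by norm_num)
  exact b3_out1 0.9883 0.0011 hY (by norm_num) h0 h2 (by norm_num)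

private theorem yR0 {κ t : ℝ} (h : DomR κ t) (hk1 : 1.36 ≤ κ) (hk2 : κ ≤ 1.39) (ht1 : -0.7544 ≤ t + κ) (ht2 : t + κ ≤ -0.39439) :
    (-0.367) ≤ sy κ t ∧ sy κ t ≤ (-0.19) := by
  have hy1 : -0.367 ≤ sy κ t := syL_ge h 1.36 1.39 0.7544 0.367 0.6928 0.69281 0.1818 0.18291 0.18696 hk1 hk2 (by linarith) (by norm_num) (by norm_num) (by norm_num)
    (expm_ge (by norm_num) (by norm_num) (by norm_num) (by norm_num)) (expm_le (by norm_num) (by norm_num) (by norm_num)) (by norm_num)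
    (by norm_num) (by norm_num) (by norm_num) (by norm_num) (by norm_num) (by norm_num)
  have hy2 : sy κ t ≤ -0.19 := syL_le h 1.36 1.39 0.39439 0.19 0.82695 0.82696 0.11303 0.11554 hk1 hk2 (by linarith) (by norm_num) (by norm_num) (by norm_num)
    (expm_ge (by norm_num) (by norm_num) (by norm_num) (by norm_num)) (expm_le (by norm_num) (by norm_num) (by norm_num)) (by norm_num)
    (by norm_num) (by norm_num) (by norm_num) (by norm_num) (by norm_num) (by norm_num)
  exact ⟨hy1, hy2⟩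

theorem right0 {β r h t κ : ℝ} (hh : h = 2 * Real.pi / (3 : ℕ)) (hβ : 0 < β) (hr : 10 ≤ r) (hκ : κ = β * r)
    (hk1 : 1.36 ≤ κ) (hk2 : κ ≤ 1.39) (hT1 : 1.34 ≤ t + κ) (hT2 : t + κ ≤ 1.7) :
    ‖Xf β r h t (-1)‖ < |‖Xf β r h t 1‖ - ‖Xf β r h t 0‖| := by
  obtain ⟨q1, q2, q3⟩ := b3_h hh
  have hR0 := b3_R0 hβ hr hκ
  have hR := b3_R hβ hr hκ (by linarith)
  have hD0 : DomR κ (t - h) := b3_dom (by linarith) (by linarith) (Or.inl (by linarith))
  have hy := yR0 hD0 hk1 hk2 (by linarith) (by linarith)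
  have hY : 0.6009 * Real.exp (r * 0.89804) ≤ ‖Xf β r h t 0‖ :=
    b3_lo hβ hr hκ (k := 0) (t' := t - h) (by push_cast; ring) hD0 0.135 4.2914 0.6009 0.89804 (by norm_num)
      (T3_29_p0R hD0 hβ hk1 hk2 (by linarith) (by linarith) hR0 hR)
      (v5_Dup hD0 1.39 (-0.367) (-0.19) 1.4434 1.20925 4.2914 hk2 hy.1 hy.2 (ex_up 0.367 (by norm_num) (by norm_num) (by norm_num) (by norm_num)) (ex_up 0.19 (by norm_num) (by norm_num) (by norm_num) (by norm_num)) (by norm_num) (by norm_num) (by norm_num)) (by norm_num) (by norm_num)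
      (b3_Vlo hD0 1.36 1.39 (-0.7544) (-0.39439) 1.41 0.34359 0.1968 0.98069 0.0195 0.89804 hk1 hk2 (by linarith) (by linarith) (by norm_num) (ex_lp 0.34359 (by norm_num) (by norm_num) (by norm_num)) (by norm_num) (by norm_num) (by norm_num) (by norm_num) (by norm_num) (by norm_num) (by norm_num) (by norm_num) (ex_um 0.0195 (by norm_num) (by norm_num) (by norm_num) (by norm_num)) (by norm_num))
  have h1 : ‖Xf β r h t 1‖ ≤ 0.4842 * ‖Xf β r h t 0‖ := by
    exact b3_cmp 0.2011 0.16079 0.0001282 0.89804 0.484059 0.000053 0.4842 hr (b3_X1.trans_le (b3_HF 0.33 1.36 1.39 1.34 1.7 1.17945 0.6384 0.63211 1.56644 1.58202 0.6321 1.4304 0.14874 1.5207 1.2307 0.20238 0.1322 0.000011 1.4464 0.2466 0.73725 hβ hr hκ (by norm_num) hk1 hk2 (by norm_num) (by linarith) (by linarith) (by norm_num) (ex_um 0.4488 (by norm_num) (by norm_num) (by norm_num) (by norm_num)) (ex_um 0.4587 (by norm_num) (by norm_num) (by norm_num) (by norm_num)) (ex_up 0.4488 (by norm_num)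 (by norm_num) (by norm_num) (by norm_num)) (ex_up 0.4587 (by norm_num) (by norm_num) (by norm_num) (by norm_num)) (by norm_num) (by norm_num) (ex_lm 0.4587 (by norm_num) (by norm_num) (by norm_num) (by norm_num) (by norm_num)) (by norm_num) (by norm_num) (by norm_num) (by norm_num) (by norm_num) (by norm_num) (by norm_num) (by norm_num) (by norm_num) (by norm_num) (by norm_num) (by norm_num) (ex_un 2 0.0238 (by norm_num) (by norm_num) (by norm_num) (by norm_num)) (v5_hump 1.6235 7.194 2.6822 0.000008511 0.000011 hβ hr hκ hk1 hk2 (by norm_num) (tb := 1.7) (by linarith) (by norm_num) (by norm_num) (by norm_num) (by norm_num) (by norm_num) (by norm_num) (by norm_num) (ex_un 11 0.6794 (by norm_num) (by norm_num) (by norm_num) (by norm_num)) (by norm_num)) (by norm_num) (by norm_num) (by norm_num))) hY (by norm_num) (by norm_num) (by norm_num) (by norm_num) (by norm_num) (ex_un 1 0.6079 (by norm_num) (by norm_num) (by norm_num) (by norm_num)) (by norm_num)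 (by norm_num) (by norm_num) (ex_un 8 0.9804 (by norm_num) (by norm_num) (by norm_num) (by norm_num)) (by norm_num) (by norm_num)
  have h2 : ‖Xf β r h t (-1)‖ ≤ 0.0194 * ‖Xf β r h t 0‖ := by
    exact b3_cmp 1 0 0.00614 0.5093 0 0.019363 0.0194 hr (b3_w (b3_UD 1.36 1.39 3.43439 3.7944 0.005 0.3421 0.33874 0.9879 1.8949 0.38874 hh hβ hr hκ (by norm_num) hk1 hk2 (by linarith) (by linarith) (by norm_num) (by norm_num) (by norm_num) (by norm_num) (by norm_num) (by norm_num) (by norm_num) (by norm_num) (by norm_num) (by norm_num) (by norm_num) (by norm_num) (by norm_num))) hY (by norm_num) (by norm_num) (by norm_num) (by norm_num) (by norm_num) (by norm_num) (by norm_num) (by norm_num) (by norm_num) (ex_un 5 0.093 (by norm_num) (by norm_num) (by norm_num) (by norm_num)) (by norm_num) (by norm_num)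
  exact b3_out0 0.4842 0.0194 hY (by norm_num) h1 h2 (by norm_num)

private theorem yR1 {κ t : ℝ} (h : DomR κ t) (hk1 : 1.36 ≤ κ) (hk2 : κ ≤ 1.39) (ht1 : -0.3944 ≤ t + κ) (ht2 : t + κ ≤ 0.0001) :
    (-0.193) ≤ sy κ t ∧ sy κ t ≤ 0.005 := by
  have hy1 : -0.193 ≤ sy κ t := syL_ge h 1.36 1.39 0.3944 0.193 0.82448 0.82449 0.1138 0.11447 0.11701 hk1 hk2 (by linarith) (by norm_num) (by norm_num) (by norm_num)
    (expm_ge (by norm_num) (by norm_num) (by norm_num) (by norm_num)) (expm_le (by norm_num) (by norm_num) (by norm_num)) (by norm_num)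
    (by norm_num) (by norm_num) (by norm_num) (by norm_num) (by norm_num) (by norm_num)
  have hy2 : sy κ t ≤ 0.005 := syR_le h 1.36 1.39 0.0001 0.005 1.00501 0.0035 0.00361 0.0037 hk1 hk2 (by linarith) (by norm_num) (by norm_num)
    (expn_ge (by norm_num) (by norm_num)) (by norm_num) (by norm_num) (Or.inr ((mul_le_mul_of_nonneg_left (expn_le (E := 1.00502) (by norm_num) (by norm_num) (by norm_num)) (by norm_num)).trans (by norm_num))) (by norm_num) (by norm_num) (by norm_num)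
  exact ⟨hy1, hy2⟩

theorem right1 {β r h t κ : ℝ} (hh : h = 2 * Real.pi / (3 : ℕ)) (hβ : 0 < β) (hr : 10 ≤ r) (hκ : κ = β * r)
    (hk1 : 1.36 ≤ κ) (hk2 : κ ≤ 1.39) (hT1 : 1.7 ≤ t + κ) (hT2 : t + κ ≤ h) :
    ‖Xf β r h t (-1)‖ < |‖Xf β r h t 1‖ - ‖Xf β r h t 0‖| := by
  obtain ⟨q1, q2, q3⟩ := b3_h hh
  have hR0 := b3_R0 hβ hr hκ
  have hR := b3_R hβ hr hκ (by linarith)
  have hD0 : DomR κ (t - h) := b3_dom (by linarith) (by linarith) (Or.inl (by linarith))
  have hy := yR1 hD0 hk1 hk2 (by linarith) (by linarith)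
  have hY : 0.6343 * Real.exp (r * 0.96673) ≤ ‖Xf β r h t 0‖ :=
    b3_lo hβ hr hκ (k := 0) (t' := t - h) (by push_cast; ring) hD0 0.135 3.4564 0.6343 0.96673 (by norm_num)
      (T3_29_p0R hD0 hβ hk1 hk2 (by linarith) (by linarith) hR0 hR)
      (v5_Dup hD0 1.39 (-0.193) 0.005 1.21289 0.99502 3.4564 hk2 hy.1 hy.2 (ex_up 0.193 (by norm_num) (by norm_num) (by norm_num) (by norm_num)) (ex_um 0.005 (by norm_num) (by norm_num) (by norm_num) (by norm_num)) (by norm_num) (by norm_num) (by norm_num)) (by norm_num) (by norm_num)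
      (b3_Vlo hD0 1.36 1.39 (-0.3944) 0.0001 1.14 0.13103 0.204 0.97926 0.02096 0.96673 hk1 hk2 (by linarith) (by linarith) (by norm_num) (ex_lp 0.13103 (by norm_num) (by norm_num) (by norm_num)) (by norm_num) (by norm_num) (by norm_num) (by norm_num) (by norm_num) (by norm_num) (by norm_num) (by norm_num) (ex_um 0.02096 (by norm_num) (by norm_num) (by norm_num) (by norm_num)) (by norm_num))
  have h1 : ‖Xf β r h t 1‖ ≤ 0.0657 * ‖Xf β r h t 0‖ := by
    exact b3_cmp 0.02575 0.36642 0.00006364 0.96673 0.065648 0.000023 0.0657 hr (b3_X1.trans_le (b3_HF 0.38 1.36 1.39 1.7 2.0944 1.24631 0.59643 0.58967 1.67666 1.69588 0.58966 1.5641 0.14874 1.8807 0.8363 0.1212 0.2977 0.000179 1.6171 0.2281 0.60031 hβ hr hκ (by norm_num) hk1 hk2 (by norm_num) (by linarith) (by linarith) (by norm_num) (ex_um 0.5168 (by norm_num) (by norm_num) (by norm_num) (by norm_num)) (ex_um 0.5282 (by norm_num) (by norm_num) (by norm_num) (by norm_num)) (ex_up 0.5168 (by norm_num)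 (by norm_num) (by norm_num) (by norm_num)) (ex_up 0.5282 (by norm_num) (by norm_num) (by norm_num) (by norm_num)) (by norm_num) (by norm_num) (ex_lm 0.5282 (by norm_num) (by norm_num) (by norm_num) (by norm_num) (by norm_num)) (by norm_num) (by norm_num) (by norm_num) (by norm_num) (by norm_num) (by norm_num) (by norm_num) (by norm_num) (by norm_num) (by norm_num) (by norm_num) (by norm_num) (ex_un 1 0.212 (by norm_num) (by norm_num) (by norm_num) (by norm_num)) (v5_hump 1.2291 7.194 2.6822 0.0001461 0.000179 hβ hr hκ hk1 hk2 (by norm_num) (tb := 2.0944) (by linarith) (by norm_num) (by norm_num) (by norm_num) (by norm_num) (by norm_num) (by norm_num) (by norm_num) (ex_un 8 0.8421 (by norm_num) (by norm_num) (by norm_num) (by norm_num)) (by norm_num)) (by norm_num) (by norm_num) (by norm_num))) hY (by norm_num) (by norm_num) (by norm_num) (by norm_num) (by norm_num) (ex_un 3 0.6642 (by norm_num) (by norm_num) (by norm_num) (by norm_num)) (by norm_num)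 (by norm_num) (by norm_num) (ex_un 9 0.6673 (by norm_num) (by norm_num) (by norm_num) (by norm_num)) (by norm_num) (by norm_num)
  have h2 : ‖Xf β r h t (-1)‖ ≤ 0.1532 * ‖Xf β r h t 0‖ := by
    exact b3_cmp 1 0 0.05358 0.29425 0 0.153147 0.1532 hr (b3_w (b3_UD 1.36 1.39 3.79439 4.1888 0.005 0.3421 0.62248 0.9452 1.813 0.67248 hh hβ hr hκ (by norm_num) hk1 hk2 (by linarith) (by linarith) (by norm_num) (by norm_num) (by norm_num) (by norm_num) (by norm_num) (by norm_num) (by norm_num) (by norm_num) (by norm_num) (by norm_num) (by norm_num) (by norm_num) (by norm_num))) hY (by norm_num) (by norm_num) (by norm_num) (by norm_num) (by norm_num) (by norm_num) (by norm_num) (by norm_num) (by norm_num) (ex_un 2 0.9425 (by norm_num) (by norm_num) (by norm_num) (by norm_num)) (by norm_num) (by norm_num)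
  exact b3_out0 0.0657 0.1532 hY (by norm_num) h1 h2 (by norm_num)

private theorem yI {κ t : ℝ} (h : DomR κ t) (hk1 : 1.36 ≤ κ) (hk2 : κ ≤ 1.39) (ht1 : -1.0474 ≤ t + κ) (ht2 : t + κ ≤ -0.75439) :
    (-0.499) ≤ sy κ t ∧ sy κ t ≤ (-0.361) := by
  have hy1 : -0.499 ≤ sy κ t := syL_ge h 1.36 1.39 1.0474 0.499 0.60713 0.60714 0.2167 0.21795 0.22277 hk1 hk2 (by linarith) (by norm_num) (by norm_num) (by norm_num)
    (expm_ge (by norm_num) (by norm_num) (by norm_num) (by norm_num)) (expm_le (by norm_num) (by norm_num) (by norm_num)) (by norm_num)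
    (by norm_num) (by norm_num) (by norm_num) (by norm_num) (by norm_num) (by norm_num)
  have hy2 : sy κ t ≤ -0.361 := syL_le h 1.36 1.39 0.75439 0.361 0.69697 0.69698 0.18101 0.18501 hk1 hk2 (by linarith) (by norm_num) (by norm_num) (by norm_num)
    (expm_ge (by norm_num) (by norm_num) (by norm_num) (by norm_num)) (expm_le (by norm_num) (by norm_num) (by norm_num)) (by norm_num)
    (by norm_num) (by norm_num) (by norm_num) (by norm_num) (by norm_num) (by norm_num)
  exact ⟨hy1, hy2⟩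

theorem innE {β r h t κ : ℝ} (hh : h = 2 * Real.pi / (3 : ℕ)) (hβ : 0 < β) (hr : 10 ≤ r) (hκ : κ = β * r)
    (hk1 : 1.36 ≤ κ) (hk2 : κ ≤ 1.39) (hT1 : 1.047 ≤ t + κ) (hT2 : t + κ ≤ 1.34) :
    ‖Xf β r h t (-1)‖ ≤ 0.00452 * ‖Xf β r h t 0‖ ∧ ‖Xf β r h (t + β) (-1)‖ ≤ 0.01207 * ‖Xf β r h t 0‖ := by
  obtain ⟨q1, q2, q3⟩ := b3_h hh
  have hR0 := b3_R0 hβ hr hκ
  have hR := b3_R hβ hr hκ (by linarith)
  have hD0 : DomR κ (t - h) := b3_dom (by linarith) (by linarith) (Or.inl (by linarith))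
  have hy := yI hD0 hk1 hk2 (by linarith) (by linarith)
  have hY : 0.5517 * Real.exp (r * 0.80474) ≤ ‖Xf β r h t 0‖ :=
    b3_lo hβ hr hκ (k := 0) (t' := t - h) (by push_cast; ring) hD0 0.165 5.2436 0.5517 0.80474 (by norm_num)
      (T3_29_p0 hD0 hβ hk1 hk2 (by linarith) (by linarith) hR0 hR)
      (v5_Dup hD0 1.39 (-0.499) (-0.361) 1.64708 1.43477 5.2436 hk2 hy.1 hy.2 (ex_up 0.499 (by norm_num) (by norm_num) (by norm_num) (by norm_num)) (ex_up 0.361 (by norm_num) (by norm_num) (by norm_num) (by norm_num)) (by norm_num) (by norm_num) (by norm_num)) (by norm_num) (by norm_num)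
      (b3_Vlo hD0 1.36 1.39 (-1.0474) (-0.75439) 1.61 0.47624 0.2178 0.97637 0.02392 0.80474 hk1 hk2 (by linarith) (by linarith) (by norm_num) (ex_lp 0.47624 (by norm_num) (by norm_num) (by norm_num)) (by norm_num) (by norm_num) (by norm_num) (by norm_num) (by norm_num) (by norm_num) (by norm_num) (by norm_num) (ex_um 0.02392 (by norm_num) (by norm_num) (by norm_num) (by norm_num)) (by norm_num))
  constructor
  · exact b3_cmp 1 0 0.001183 0.67474 0 0.004511 0.00452 hr (b3_w (b3_UD 1.36 1.39 3.14139 3.4344 0.08 0.3421 0.08 1.0967 2.1036 0.13 hh hβ hr hκ (by norm_num) hk1 hk2 (by linarith) (by linarith) (by norm_num) (by norm_num) (by norm_num) (by norm_num) (by norm_num) (by norm_num) (by norm_num) (by norm_num) (by norm_num) (by norm_num) (by norm_num) (by norm_num) (by norm_num))) hY (by norm_num) (by norm_num) (by norm_num) (by norm_num) (by norm_num) (by norm_num) (by norm_num) (by norm_num) (by norm_num) (ex_un 6 0.7474 (by norm_num) (by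 norm_num) (by norm_num) (by norm_num)) (by norm_num) (by norm_num)
  · exact b3_cmp 1 0 0.003207 0.575 0 0.012065 0.01207 hr (b3_w (b3_UD 1.36 1.39 3.14139 3.5734 0.15 0.3421 0.17974 1.082 2.0754 0.22974 hh hβ hr hκ (by norm_num) hk1 hk2 (by linarith) (by linarith) (by norm_num) (by norm_num) (by norm_num) (by norm_num) (by norm_num) (by norm_num) (by norm_num) (by norm_num) (by norm_num) (by norm_num) (by norm_num) (by norm_num) (by norm_num))) hY (by norm_num) (by norm_num) (by norm_num) (by norm_num) (by norm_num) (by norm_num) (by norm_num) (by norm_num) (by norm_num) (ex_un 5 0.75 (by norm_num) (by norm_num) (by norm_num) (by norm_num)) (by norm_num) (by norm_num)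

private theorem yA0 {κ t : ℝ} (h : DomR κ t) (hk1 : 1.36 ≤ κ) (hk2 : κ ≤ 1.39) (ht1 : 1.047 ≤ t + κ) (ht2 : t + κ ≤ 1.067) :
    0.414 ≤ sy κ t ∧ sy κ t ≤ 0.424 := by
  have hy1 : 0.414 ≤ sy κ t := syR_ge h 1.36 1.39 1.047 0.414 1.51285 1.51286 0.45058 0.46054 hk1 hk2 (by linarith) (by norm_num) (by norm_num)
    (expn_ge (by norm_num) (by norm_num)) (expn_le (by norm_num) (by norm_num) (by norm_num)) (by norm_num)
    (by norm_num) (by norm_num) (by norm_num) (by norm_num) (by norm_num) (by norm_num)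
  have hy2 : sy κ t ≤ 0.424 := syR_le h 1.36 1.39 1.067 0.424 1.52806 0.4635 0.46611 0.4764 hk1 hk2 (by linarith) (by norm_num) (by norm_num)
    (expn_ge (by norm_num) (by norm_num)) (by norm_num) (by norm_num) (Or.inr ((mul_le_mul_of_nonneg_left (expn_le (E := 1.52807) (by norm_num) (by norm_num) (by norm_num)) (by norm_num)).trans (by norm_num))) (by norm_num) (by norm_num) (by norm_num)
  exact ⟨hy1, hy2⟩

private theorem yB0 {κ t : ℝ} (h : DomR κ t) (hk1 : 1.36 ≤ κ) (hk2 : κ ≤ 1.39) (ht1 : -1.0474 ≤ t + κ) (ht2 : t + κ ≤ -1.02739) :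
    (-0.499) ≤ sy κ t ∧ sy κ t ≤ (-0.483) := by
  have hy1 : -0.499 ≤ sy κ t := syL_ge h 1.36 1.39 1.0474 0.499 0.60713 0.60714 0.2167 0.21795 0.22277 hk1 hk2 (by linarith) (by norm_num) (by norm_num) (by norm_num)
    (expm_ge (by norm_num) (by norm_num) (by norm_num) (by norm_num)) (expm_le (by norm_num) (by norm_num) (by norm_num)) (by norm_num)
    (by norm_num) (by norm_num) (by norm_num) (by norm_num) (by norm_num) (by norm_num)
  have hy2 : sy κ t ≤ -0.483 := syL_le h 1.36 1.39 1.02739 0.483 0.61692 0.61694 0.21436 0.21911 hk1 hk2 (by linarith) (by norm_num) (by norm_num) (by norm_num)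
    (expm_ge (by norm_num) (by norm_num) (by norm_num) (by norm_num)) (expm_le (by norm_num) (by norm_num) (by norm_num)) (by norm_num)
    (by norm_num) (by norm_num) (by norm_num) (by norm_num) (by norm_num) (by norm_num)
  exact ⟨hy1, hy2⟩

theorem pc0 {β r h t κ : ℝ} (hh : h = 2 * Real.pi / (3 : ℕ)) (hβ : 0 < β) (hr : 10 ≤ r) (hκ : κ = β * r)
    (hk1 : 1.36 ≤ κ) (hk2 : κ ≤ 1.39) (hT1 : 1.047 ≤ t + κ) (hT2 : t + κ ≤ 1.067) :
    Xf β r h t 0 ≠ 0 ∧ r * 0.0503 ≤ (Ld β r h t 1 - Ld β r h t 0).im ∧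
      ‖(((-1 : ℤ) : ℂ) - 1) * Ld β r h t 0 - ((-1 : ℤ) : ℂ) * Ld β r h t 1‖ ≤ r * 5.18 := by
  obtain ⟨q1, q2, q3⟩ := b3_h hh
  have hR0 := b3_R0 hβ hr hκ
  have hR := b3_R hβ hr hκ (by linarith)
  have hD1 : DomR κ t := b3_dom (by linarith) (by linarith) (Or.inl (by linarith))
  have hD0 : DomR κ (t - h) := b3_dom (by linarith) (by linarith) (Or.inl (by linarith))
  have y1 := yA0 hD1 hk1 hk2 (by linarith) (by linarith)
  have y0 := yB0 hD0 hk1 hk2 (by linarith) (by linarith)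
  have j1 := T3_29_d1_0 hD1 hβ hk1 hk2 (by linarith) (by linarith) hR0 hR
  exact b3_piece 1.36 1.39 0.414 0.424 0.419 0.6577 0.66101 0.65443 0.9189 2.636 2.6755 0.1 0.17 0.17 2.0482 1.1593 0 0 (-0.499) (-0.483) (-0.491) 1.63394 1.64708 2.2895 4.8929 0.07 0.27 0.165 4.6194 4.7813 0 0 0.0503 5.18
    hβ hr hκ (by norm_num) hk1 hk2 hD1 hD0 j1 (j1 _ (by rw [sub_self, norm_zero]; norm_num))
    (T3_29_d0_0 hD0 hβ hk1 hk2 (by linarith) (by linarith) hR0 hR)
    (T3_29_p0 hD0 hβ hk1 hk2 (by linarith) (by linarith) hR0 hR)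
    y1.1 y1.2 y0.1 y0.2 (by norm_num)
    (ex_um 0.414 (by norm_num) (by norm_num) (by norm_num) (by norm_num)) (ex_um 0.424 (by norm_num) (by norm_num) (by norm_num) (by norm_num)) (ex_lm 0.419 (by norm_num) (by norm_num) (by norm_num) (by norm_num) (by norm_num)) (by norm_num) (by norm_num) (by norm_num) (by norm_num) (by norm_num) (by norm_num) (by norm_num) (by norm_num)
    (by norm_num) (by norm_num) (by norm_num) (by norm_num) (by norm_num) (by norm_num) (by norm_num) (by norm_num) (by norm_num) (by norm_num)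
    (ex_up 0.499 (by norm_num) (by norm_num) (by norm_num) (by norm_num)) (ex_lp 0.491 (by norm_num) (by norm_num) (by norm_num)) (by norm_num) (by norm_num) (by norm_num) (by norm_num) (by norm_num) (by norm_num)
    (by norm_num) (by norm_num) (by norm_num) (by norm_num) (by norm_num) (by norm_num) (by norm_num) (by norm_num) (by norm_num) (by norm_num) (by norm_num)
    (by norm_num) (by norm_num) (by norm_num) (by norm_num)

private theorem yA1 {κ t : ℝ} (h : DomR κ t) (hk1 : 1.36 ≤ κ) (hk2 : κ ≤ 1.39) (ht1 : 1.067 ≤ t + κ) (ht2 : t + κ ≤ 1.087) :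
    0.42 ≤ sy κ t ∧ sy κ t ≤ 0.43 := by
  have hy1 : 0.42 ≤ sy κ t := syR_ge h 1.36 1.39 1.067 0.42 1.52196 1.52197 0.45987 0.47003 hk1 hk2 (by linarith) (by norm_num) (by norm_num)
    (expn_ge (by norm_num) (by norm_num)) (expn_le (by norm_num) (by norm_num) (by norm_num)) (by norm_num)
    (by norm_num) (by norm_num) (by norm_num) (by norm_num) (by norm_num) (by norm_num)
  have hy2 : sy κ t ≤ 0.43 := syR_le h 1.36 1.39 1.087 0.43 1.53725 0.4729 0.47555 0.48605 hk1 hk2 (by linarith) (by norm_num) (by norm_num)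
    (expn_ge (by norm_num) (by norm_num)) (by norm_num) (by norm_num) (Or.inr ((mul_le_mul_of_nonneg_left (expn_le (E := 1.53726) (by norm_num) (by norm_num) (by norm_num)) (by norm_num)).trans (by norm_num))) (by norm_num) (by norm_num) (by norm_num)
  exact ⟨hy1, hy2⟩

private theorem yB1 {κ t : ℝ} (h : DomR κ t) (hk1 : 1.36 ≤ κ) (hk2 : κ ≤ 1.39) (ht1 : -1.0274 ≤ t + κ) (ht2 : t + κ ≤ -1.00739) :
    (-0.491) ≤ sy κ t ∧ sy κ t ≤ (-0.474) := by
  have hy1 : -0.491 ≤ sy κ t := syL_ge h 1.36 1.39 1.0274 0.491 0.61201 0.61202 0.2149 0.21618 0.22096 hk1 hk2 (by linarith) (by norm_num) (by norm_num) (by norm_num)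
    (expm_ge (by norm_num) (by norm_num) (by norm_num) (by norm_num)) (expm_le (by norm_num) (by norm_num) (by norm_num)) (by norm_num)
    (by norm_num) (by norm_num) (by norm_num) (by norm_num) (by norm_num) (by norm_num)
  have hy2 : sy κ t ≤ -0.474 := syL_le h 1.36 1.39 1.00739 0.474 0.6225 0.62251 0.21227 0.21697 hk1 hk2 (by linarith) (by norm_num) (by norm_num) (by norm_num)
    (expm_ge (by norm_num) (by norm_num) (by norm_num) (by norm_num)) (expm_le (by norm_num) (by norm_num) (by norm_num)) (by norm_num)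
    (by norm_num) (by norm_num) (by norm_num) (by norm_num) (by norm_num) (by norm_num)
  exact ⟨hy1, hy2⟩

theorem pc1 {β r h t κ : ℝ} (hh : h = 2 * Real.pi / (3 : ℕ)) (hβ : 0 < β) (hr : 10 ≤ r) (hκ : κ = β * r)
    (hk1 : 1.36 ≤ κ) (hk2 : κ ≤ 1.39) (hT1 : 1.067 ≤ t + κ) (hT2 : t + κ ≤ 1.087) :
    Xf β r h t 0 ≠ 0 ∧ r * 0.0503 ≤ (Ld β r h t 1 - Ld β r h t 0).im ∧
      ‖(((-1 : ℤ) : ℂ) - 1) * Ld β r h t 0 - ((-1 : ℤ) : ℂ) * Ld β r h t 1‖ ≤ r * 5.18 := by
  obtain ⟨q1, q2, q3⟩ := b3_h hh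
  have hR0 := b3_R0 hβ hr hκ
  have hR := b3_R hβ hr hκ (by linarith)
  have hD1 : DomR κ t := b3_dom (by linarith) (by linarith) (Or.inl (by linarith))
  have hD0 : DomR κ (t - h) := b3_dom (by linarith) (by linarith) (Or.inl (by linarith))
  have y1 := yA1 hD1 hk1 hk2 (by linarith) (by linarith)
  have y0 := yB1 hD0 hk1 hk2 (by linarith) (by linarith)
  have j1 := T3_29_d1_0 hD1 hβ hk1 hk2 (by linarith) (by linarith) hR0 hR
  exact b3_piece 1.36 1.39 0.42 0.43 0.425 0.65376 0.65705 0.65051 0.9133 2.6384 2.6776 0.1 0.17 0.17 2.0482 1.1517 0 0 (-0.491) (-0.474) (-0.482) 1.6193 1.63395 2.2712 4.8242 0.07 0.27 0.165 4.6194 4.7768 0 0 0.0503 5.18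
    hβ hr hκ (by norm_num) hk1 hk2 hD1 hD0 j1 (j1 _ (by rw [sub_self, norm_zero]; norm_num))
    (T3_29_d0_0 hD0 hβ hk1 hk2 (by linarith) (by linarith) hR0 hR)
    (T3_29_p0 hD0 hβ hk1 hk2 (by linarith) (by linarith) hR0 hR)
    y1.1 y1.2 y0.1 y0.2 (by norm_num)
    (ex_um 0.42 (by norm_num) (by norm_num) (by norm_num) (by norm_num)) (ex_um 0.43 (by norm_num) (by norm_num) (by norm_num) (by norm_num)) (ex_lm 0.425 (by norm_num) (by norm_num) (by norm_num) (by norm_num) (by norm_num)) (by norm_num) (by norm_num) (by norm_num) (by norm_num) (by norm_num) (by norm_num) (by norm_num) (by norm_num)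
    (by norm_num) (by norm_num) (by norm_num) (by norm_num) (by norm_num) (by norm_num) (by norm_num) (by norm_num) (by norm_num) (by norm_num)
    (ex_up 0.491 (by norm_num) (by norm_num) (by norm_num) (by norm_num)) (ex_lp 0.482 (by norm_num) (by norm_num) (by norm_num)) (by norm_num) (by norm_num) (by norm_num) (by norm_num) (by norm_num) (by norm_num)
    (by norm_num) (by norm_num) (by norm_num) (by norm_num) (by norm_num) (by norm_num) (by norm_num) (by norm_num) (by norm_num) (by norm_num) (by norm_num)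
    (by norm_num) (by norm_num) (by norm_num) (by norm_num)

private theorem yA2 {κ t : ℝ} (h : DomR κ t) (hk1 : 1.36 ≤ κ) (hk2 : κ ≤ 1.39) (ht1 : 1.087 ≤ t + κ) (ht2 : t + κ ≤ 1.107) :
    0.426 ≤ sy κ t ∧ sy κ t ≤ 0.436 := by
  have hy1 : 0.426 ≤ sy κ t := syR_ge h 1.36 1.39 1.087 0.426 1.53112 1.53113 0.46924 0.47961 hk1 hk2 (by linarith) (by norm_num) (by norm_num)
    (expn_ge (by norm_num) (by norm_num)) (expn_le (by norm_num) (by norm_num) (by norm_num)) (by norm_num)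
    (by norm_num) (by norm_num) (by norm_num) (by norm_num) (by norm_num) (by norm_num)
  have hy2 : sy κ t ≤ 0.436 := syR_le h 1.36 1.39 1.107 0.436 1.5465 0.4823 0.48508 0.4958 hk1 hk2 (by linarith) (by norm_num) (by norm_num)
    (expn_ge (by norm_num) (by norm_num)) (by norm_num) (by norm_num) (Or.inr ((mul_le_mul_of_nonneg_left (expn_le (E := 1.54651) (by norm_num) (by norm_num) (by norm_num)) (by norm_num)).trans (by norm_num))) (by norm_num) (by norm_num) (by norm_num)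
  exact ⟨hy1, hy2⟩

private theorem yB2 {κ t : ℝ} (h : DomR κ t) (hk1 : 1.36 ≤ κ) (hk2 : κ ≤ 1.39) (ht1 : -1.0074 ≤ t + κ) (ht2 : t + κ ≤ -0.98739) :
    (-0.482) ≤ sy κ t ∧ sy κ t ≤ (-0.465) := by
  have hy1 : -0.482 ≤ sy κ t := syL_ge h 1.36 1.39 1.0074 0.482 0.61754 0.61755 0.2129 0.21413 0.21887 hk1 hk2 (by linarith) (by norm_num) (by norm_num) (by norm_num)
    (expm_ge (by norm_num) (by norm_num) (by norm_num) (by norm_num)) (expm_le (by norm_num) (by norm_num) (by norm_num)) (by norm_num)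
    (by norm_num) (by norm_num) (by norm_num) (by norm_num) (by norm_num) (by norm_num)
  have hy2 : sy κ t ≤ -0.465 := syL_le h 1.36 1.39 0.98739 0.465 0.62813 0.62814 0.21012 0.21477 hk1 hk2 (by linarith) (by norm_num) (by norm_num) (by norm_num)
    (expm_ge (by norm_num) (by norm_num) (by norm_num) (by norm_num)) (expm_le (by norm_num) (by norm_num) (by norm_num)) (by norm_num)
    (by norm_num) (by norm_num) (by norm_num) (by norm_num) (by norm_num) (by norm_num)
  exact ⟨hy1, hy2⟩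

theorem pc2 {β r h t κ : ℝ} (hh : h = 2 * Real.pi / (3 : ℕ)) (hβ : 0 < β) (hr : 10 ≤ r) (hκ : κ = β * r)
    (hk1 : 1.36 ≤ κ) (hk2 : κ ≤ 1.39) (hT1 : 1.087 ≤ t + κ) (hT2 : t + κ ≤ 1.107) :
    Xf β r h t 0 ≠ 0 ∧ r * 0.0503 ≤ (Ld β r h t 1 - Ld β r h t 0).im ∧
      ‖(((-1 : ℤ) : ℂ) - 1) * Ld β r h t 0 - ((-1 : ℤ) : ℂ) * Ld β r h t 1‖ ≤ r * 5.18 := by
  obtain ⟨q1, q2, q3⟩ := b3_h hh
  have hR0 := b3_R0 hβ hr hκ
  have hR := b3_R hβ hr hκ (by linarith)
  have hD1 : DomR κ t := b3_dom (by linarith) (by linarith) (Or.inl (by linarith))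
  have hD0 : DomR κ (t - h) := b3_dom (by linarith) (by linarith) (Or.inl (by linarith))
  have y1 := yA2 hD1 hk1 hk2 (by linarith) (by linarith)
  have y0 := yB2 hD0 hk1 hk2 (by linarith) (by linarith)
  have j1 := T3_29_d1_1 hD1 hβ hk1 hk2 (by linarith) (by linarith) hR0 hR
  exact b3_piece 1.36 1.39 0.426 0.436 0.431 0.64985 0.65312 0.64662 0.9079 2.6409 2.6799 0.1 0.185 0.185 2.27 1.2683 0 0 (-0.482) (-0.465) (-0.473) 1.6048 1.61931 2.2509 4.7572 0.08 0.265 0.165 3.9671 4.0941 0 0 0.0503 5.18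
    hβ hr hκ (by norm_num) hk1 hk2 hD1 hD0 j1 (j1 _ (by rw [sub_self, norm_zero]; norm_num))
    (T3_29_d0_1 hD0 hβ hk1 hk2 (by linarith) (by linarith) hR0 hR)
    (T3_29_p0 hD0 hβ hk1 hk2 (by linarith) (by linarith) hR0 hR)
    y1.1 y1.2 y0.1 y0.2 (by norm_num)
    (ex_um 0.426 (by norm_num) (by norm_num) (by norm_num) (by norm_num)) (ex_um 0.436 (by norm_num) (by norm_num) (by norm_num) (by norm_num)) (ex_lm 0.431 (by norm_num) (by norm_num) (by norm_num) (by norm_num) (by norm_num)) (by norm_num) (by norm_num) (by norm_num) (by norm_num) (by norm_num) (by norm_num) (by norm_num) (by norm_num)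
    (by norm_num) (by norm_num) (by norm_num) (by norm_num) (by norm_num) (by norm_num) (by norm_num) (by norm_num) (by norm_num) (by norm_num)
    (ex_up 0.482 (by norm_num) (by norm_num) (by norm_num) (by norm_num)) (ex_lp 0.473 (by norm_num) (by norm_num) (by norm_num)) (by norm_num) (by norm_num) (by norm_num) (by norm_num) (by norm_num) (by norm_num)
    (by norm_num) (by norm_num) (by norm_num) (by norm_num) (by norm_num) (by norm_num) (by norm_num) (by norm_num) (by norm_num) (by norm_num) (by norm_num)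
    (by norm_num) (by norm_num) (by norm_num) (by norm_num)

private theorem yA3 {κ t : ℝ} (h : DomR κ t) (hk1 : 1.36 ≤ κ) (hk2 : κ ≤ 1.39) (ht1 : 1.107 ≤ t + κ) (ht2 : t + κ ≤ 1.127) :
    0.432 ≤ sy κ t ∧ sy κ t ≤ 0.442 := by
  have hy1 : 0.432 ≤ sy κ t := syR_ge h 1.36 1.39 1.107 0.432 1.54033 1.54034 0.47872 0.48929 hk1 hk2 (by linarith) (by norm_num) (by norm_num)
    (expn_ge (by norm_num) (by norm_num)) (expn_le (by norm_num) (by norm_num) (by norm_num)) (by norm_num)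
    (by norm_num) (by norm_num) (by norm_num) (by norm_num) (by norm_num) (by norm_num)
  have hy2 : sy κ t ≤ 0.442 := syR_le h 1.36 1.39 1.127 0.442 1.55581 0.4919 0.49472 0.50565 hk1 hk2 (by linarith) (by norm_num) (by norm_num)
    (expn_ge (by norm_num) (by norm_num)) (by norm_num) (by norm_num) (Or.inr ((mul_le_mul_of_nonneg_left (expn_le (E := 1.55582) (by norm_num) (by norm_num) (by norm_num)) (by norm_num)).trans (by norm_num))) (by norm_num) (by norm_num) (by norm_num)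
  exact ⟨hy1, hy2⟩

private theorem yB3 {κ t : ℝ} (h : DomR κ t) (hk1 : 1.36 ≤ κ) (hk2 : κ ≤ 1.39) (ht1 : -0.9874 ≤ t + κ) (ht2 : t + κ ≤ -0.96739) :
    (-0.473) ≤ sy κ t ∧ sy κ t ≤ (-0.457) := by
  have hy1 : -0.473 ≤ sy κ t := syL_ge h 1.36 1.39 0.9874 0.473 0.62313 0.62314 0.2108 0.21204 0.21673 hk1 hk2 (by linarith) (by norm_num) (by norm_num) (by norm_num)
    (expm_ge (by norm_num) (by norm_num) (by norm_num) (by norm_num)) (expm_le (by norm_num) (by norm_num) (by norm_num)) (by norm_num)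
    (by norm_num) (by norm_num) (by norm_num) (by norm_num) (by norm_num) (by norm_num)
  have hy2 : sy κ t ≤ -0.457 := syL_le h 1.36 1.39 0.96739 0.457 0.63318 0.63319 0.20817 0.21278 hk1 hk2 (by linarith) (by norm_num) (by norm_num) (by norm_num)
    (expm_ge (by norm_num) (by norm_num) (by norm_num) (by norm_num)) (expm_le (by norm_num) (by norm_num) (by norm_num)) (by norm_num)
    (by norm_num) (by norm_num) (by norm_num) (by norm_num) (by norm_num) (by norm_num)
  exact ⟨hy1, hy2⟩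

theorem pc3 {β r h t κ : ℝ} (hh : h = 2 * Real.pi / (3 : ℕ)) (hβ : 0 < β) (hr : 10 ≤ r) (hκ : κ = β * r)
    (hk1 : 1.36 ≤ κ) (hk2 : κ ≤ 1.39) (hT1 : 1.107 ≤ t + κ) (hT2 : t + κ ≤ 1.127) :
    Xf β r h t 0 ≠ 0 ∧ r * 0.0503 ≤ (Ld β r h t 1 - Ld β r h t 0).im ∧
      ‖(((-1 : ℤ) : ℂ) - 1) * Ld β r h t 0 - ((-1 : ℤ) : ℂ) * Ld β r h t 1‖ ≤ r * 5.18 := by
  obtain ⟨q1, q2, q3⟩ := b3_h hh
  have hR0 := b3_R0 hβ hr hκ
  have hR := b3_R hβ hr hκ (by linarith)
  have hD1 : DomR κ t := b3_dom (by linarith) (by linarith) (Or.inl (by linarith))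
  have hD0 : DomR κ (t - h) := b3_dom (by linarith) (by linarith) (Or.inl (by linarith))
  have y1 := yA3 hD1 hk1 hk2 (by linarith) (by linarith)
  have y0 := yB3 hD0 hk1 hk2 (by linarith) (by linarith)
  have j1 := T3_29_d1_1 hD1 hβ hk1 hk2 (by linarith) (by linarith) hR0 hR
  exact b3_piece 1.36 1.39 0.432 0.442 0.437 0.64597 0.64921 0.64275 0.9025 2.6435 2.6823 0.1 0.185 0.185 2.27 1.2601 0 0 (-0.473) (-0.457) (-0.465) 1.59201 1.60481 2.2307 4.6987 0.08 0.265 0.165 3.9671 4.0825 0 0 0.0503 5.18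
    hβ hr hκ (by norm_num) hk1 hk2 hD1 hD0 j1 (j1 _ (by rw [sub_self, norm_zero]; norm_num))
    (T3_29_d0_1 hD0 hβ hk1 hk2 (by linarith) (by linarith) hR0 hR)
    (T3_29_p0 hD0 hβ hk1 hk2 (by linarith) (by linarith) hR0 hR)
    y1.1 y1.2 y0.1 y0.2 (by norm_num)
    (ex_um 0.432 (by norm_num) (by norm_num) (by norm_num) (by norm_num)) (ex_um 0.442 (by norm_num) (by norm_num) (by norm_num) (by norm_num)) (ex_lm 0.437 (by norm_num) (by norm_num) (by norm_num) (by norm_num) (by norm_num)) (by norm_num) (by norm_num) (by norm_num) (by norm_num) (by norm_num) (by norm_num) (by norm_num) (by norm_num)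
    (by norm_num) (by norm_num) (by norm_num) (by norm_num) (by norm_num) (by norm_num) (by norm_num) (by norm_num) (by norm_num) (by norm_num)
    (ex_up 0.473 (by norm_num) (by norm_num) (by norm_num) (by norm_num)) (ex_lp 0.465 (by norm_num) (by norm_num) (by norm_num)) (by norm_num) (by norm_num) (by norm_num) (by norm_num) (by norm_num) (by norm_num)
    (by norm_num) (by norm_num) (by norm_num) (by norm_num) (by norm_num) (by norm_num) (by norm_num) (by norm_num) (by norm_num) (by norm_num) (by norm_num)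
    (by norm_num) (by norm_num) (by norm_num) (by norm_num)

private theorem yA4 {κ t : ℝ} (h : DomR κ t) (hk1 : 1.36 ≤ κ) (hk2 : κ ≤ 1.39) (ht1 : 1.127 ≤ t + κ) (ht2 : t + κ ≤ 1.152) :
    0.437 ≤ sy κ t ∧ sy κ t ≤ 0.45 := by
  have hy1 : 0.437 ≤ sy κ t := syR_ge h 1.36 1.39 1.127 0.437 1.54805 1.54806 0.48668 0.49743 hk1 hk2 (by linarith) (by norm_num) (by norm_num)
    (expn_ge (by norm_num) (by norm_num)) (expn_le (by norm_num) (by norm_num) (by norm_num)) (by norm_num)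
    (by norm_num) (by norm_num) (by norm_num) (by norm_num) (by norm_num) (by norm_num)
  have hy2 : sy κ t ≤ 0.45 := syR_le h 1.36 1.39 1.152 0.45 1.56831 0.5049 0.50772 0.51893 hk1 hk2 (by linarith) (by norm_num) (by norm_num)
    (expn_ge (by norm_num) (by norm_num)) (by norm_num) (by norm_num) (Or.inr ((mul_le_mul_of_nonneg_left (expn_le (E := 1.56832) (by norm_num) (by norm_num) (by norm_num)) (by norm_num)).trans (by norm_num))) (by norm_num) (by norm_num) (by norm_num)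
  exact ⟨hy1, hy2⟩

private theorem yB4 {κ t : ℝ} (h : DomR κ t) (hk1 : 1.36 ≤ κ) (hk2 : κ ≤ 1.39) (ht1 : -0.9674 ≤ t + κ) (ht2 : t + κ ≤ -0.94239) :
    (-0.464) ≤ sy κ t ∧ sy κ t ≤ (-0.446) := by
  have hy1 : -0.464 ≤ sy κ t := syL_ge h 1.36 1.39 0.9674 0.464 0.62876 0.62877 0.2087 0.20988 0.21453 hk1 hk2 (by linarith) (by norm_num) (by norm_num) (by norm_num)
    (expm_ge (by norm_num) (by norm_num) (by norm_num) (by norm_num)) (expm_le (by norm_num) (by norm_num) (by norm_num)) (by norm_num)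
    (by norm_num) (by norm_num) (by norm_num) (by norm_num) (by norm_num) (by norm_num)
  have hy2 : sy κ t ≤ -0.446 := syL_le h 1.36 1.39 0.94239 0.446 0.64018 0.64019 0.20541 0.20995 hk1 hk2 (by linarith) (by norm_num) (by norm_num) (by norm_num)
    (expm_ge (by norm_num) (by norm_num) (by norm_num) (by norm_num)) (expm_le (by norm_num) (by norm_num) (by norm_num)) (by norm_num)
    (by norm_num) (by norm_num) (by norm_num) (by norm_num) (by norm_num) (by norm_num)
  exact ⟨hy1, hy2⟩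

theorem pc4 {β r h t κ : ℝ} (hh : h = 2 * Real.pi / (3 : ℕ)) (hβ : 0 < β) (hr : 10 ≤ r) (hκ : κ = β * r)
    (hk1 : 1.36 ≤ κ) (hk2 : κ ≤ 1.39) (hT1 : 1.127 ≤ t + κ) (hT2 : t + κ ≤ 1.152) :
    Xf β r h t 0 ≠ 0 ∧ r * 0.0503 ≤ (Ld β r h t 1 - Ld β r h t 0).im ∧
      ‖(((-1 : ℤ) : ℂ) - 1) * Ld β r h t 0 - ((-1 : ℤ) : ℂ) * Ld β r h t 1‖ ≤ r * 5.18 := by
  obtain ⟨q1, q2, q3⟩ := b3_h hh
  have hR0 := b3_R0 hβ hr hκ
  have hR := b3_R hβ hr hκ (by linarith)
  have hD1 : DomR κ t := b3_dom (by linarith) (by linarith) (Or.inl (by linarith))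
  have hD0 : DomR κ (t - h) := b3_dom (by linarith) (by linarith) (Or.inl (by linarith))
  have y1 := yA4 hD1 hk1 hk2 (by linarith) (by linarith)
  have y0 := yB4 hD0 hk1 hk2 (by linarith) (by linarith)
  have j1 := T3_29_d1_2 hD1 hβ hk1 hk2 (by linarith) (by linarith) hR0 hR
  exact b3_piece 1.36 1.39 0.437 0.45 0.444 0.64146 0.64598 0.63763 0.898 2.6457 2.6856 0.1 0.2 0.2 2.5 1.3803 0 0 (-0.464) (-0.446) (-0.455) 1.57617 1.59043 2.2107 4.6202 0.1 0.29 0.165 3.4731 3.5721 0 0 0.0503 5.18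
    hβ hr hκ (by norm_num) hk1 hk2 hD1 hD0 j1 (j1 _ (by rw [sub_self, norm_zero]; norm_num))
    (T3_29_d0_2 hD0 hβ hk1 hk2 (by linarith) (by linarith) hR0 hR)
    (T3_29_p0 hD0 hβ hk1 hk2 (by linarith) (by linarith) hR0 hR)
    y1.1 y1.2 y0.1 y0.2 (by norm_num)
    (ex_um 0.437 (by norm_num) (by norm_num) (by norm_num) (by norm_num)) (ex_um 0.45 (by norm_num) (by norm_num) (by norm_num) (by norm_num)) (ex_lm 0.444 (by norm_num) (by norm_num) (by norm_num) (by norm_num) (by norm_num)) (by norm_num) (by norm_num) (by norm_num) (by norm_num) (by norm_num) (by norm_num) (by norm_num) (by norm_num)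
    (by norm_num) (by norm_num) (by norm_num) (by norm_num) (by norm_num) (by norm_num) (by norm_num) (by norm_num) (by norm_num) (by norm_num)
    (ex_up 0.464 (by norm_num) (by norm_num) (by norm_num) (by norm_num)) (ex_lp 0.455 (by norm_num) (by norm_num) (by norm_num)) (by norm_num) (by norm_num) (by norm_num) (by norm_num) (by norm_num) (by norm_num)
    (by norm_num) (by norm_num) (by norm_num) (by norm_num) (by norm_num) (by norm_num) (by norm_num) (by norm_num) (by norm_num) (by norm_num) (by norm_num)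
    (by norm_num) (by norm_num) (by norm_num) (by norm_num)

private theorem yA5 {κ t : ℝ} (h : DomR κ t) (hk1 : 1.36 ≤ κ) (hk2 : κ ≤ 1.39) (ht1 : 1.152 ≤ t + κ) (ht2 : t + κ ≤ 1.177) :
    0.444 ≤ sy κ t ∧ sy κ t ≤ 0.457 := by
  have hy1 : 0.444 ≤ sy κ t := syR_ge h 1.36 1.39 1.152 0.444 1.55892 1.55894 0.49795 0.50895 hk1 hk2 (by linarith) (by norm_num) (by norm_num)
    (expn_ge (by norm_num) (by norm_num)) (expn_le (by norm_num) (by norm_num) (by norm_num)) (by norm_num)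
    (by norm_num) (by norm_num) (by norm_num) (by norm_num) (by norm_num) (by norm_num)
  have hy2 : sy κ t ≤ 0.457 := syR_le h 1.36 1.39 1.177 0.457 1.57932 0.5163 0.51924 0.53071 hk1 hk2 (by linarith) (by norm_num) (by norm_num)
    (expn_ge (by norm_num) (by norm_num)) (by norm_num) (by norm_num) (Or.inr ((mul_le_mul_of_nonneg_left (expn_le (E := 1.57933) (by norm_num) (by norm_num) (by norm_num)) (by norm_num)).trans (by norm_num))) (by norm_num) (by norm_num) (by norm_num)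
  exact ⟨hy1, hy2⟩

private theorem yB5 {κ t : ℝ} (h : DomR κ t) (hk1 : 1.36 ≤ κ) (hk2 : κ ≤ 1.39) (ht1 : -0.9424 ≤ t + κ) (ht2 : t + κ ≤ -0.91739) :
    (-0.453) ≤ sy κ t ∧ sy κ t ≤ (-0.435) := by
  have hy1 : -0.453 ≤ sy κ t := syL_ge h 1.36 1.39 0.9424 0.453 0.63571 0.63572 0.206 0.20717 0.21176 hk1 hk2 (by linarith) (by norm_num) (by norm_num) (by norm_num)
    (expm_ge (by norm_num) (by norm_num) (by norm_num) (by norm_num)) (expm_le (by norm_num) (by norm_num) (by norm_num)) (by norm_num)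
    (by norm_num) (by norm_num) (by norm_num) (by norm_num) (by norm_num) (by norm_num)
  have hy2 : sy κ t ≤ -0.435 := syL_le h 1.36 1.39 0.91739 0.435 0.64726 0.64727 0.20255 0.20704 hk1 hk2 (by linarith) (by norm_num) (by norm_num) (by norm_num)
    (expm_ge (by norm_num) (by norm_num) (by norm_num) (by norm_num)) (expm_le (by norm_num) (by norm_num) (by norm_num)) (by norm_num)
    (by norm_num) (by norm_num) (by norm_num) (by norm_num) (by norm_num) (by norm_num)
  exact ⟨hy1, hy2⟩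

theorem pc5 {β r h t κ : ℝ} (hh : h = 2 * Real.pi / (3 : ℕ)) (hβ : 0 < β) (hr : 10 ≤ r) (hκ : κ = β * r)
    (hk1 : 1.36 ≤ κ) (hk2 : κ ≤ 1.39) (hT1 : 1.152 ≤ t + κ) (hT2 : t + κ ≤ 1.177) :
    Xf β r h t 0 ≠ 0 ∧ r * 0.0503 ≤ (Ld β r h t 1 - Ld β r h t 0).im ∧
      ‖(((-1 : ℤ) : ℂ) - 1) * Ld β r h t 0 - ((-1 : ℤ) : ℂ) * Ld β r h t 1‖ ≤ r * 5.18 := by
  obtain ⟨q1, q2, q3⟩ := b3_h hh
  have hR0 := b3_R0 hβ hr hκ
  have hR := b3_R hβ hr hκ (by linarith)
  have hD1 : DomR κ t := b3_dom (by linarith) (by linarith) (Or.inl (by linarith))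
  have hD0 : DomR κ (t - h) := b3_dom (by linarith) (by linarith) (Or.inl (by linarith))
  have y1 := yA5 hD1 hk1 hk2 (by linarith) (by linarith)
  have y0 := yB5 hD0 hk1 hk2 (by linarith) (by linarith)
  have j1 := T3_29_d1_2 hD1 hβ hk1 hk2 (by linarith) (by linarith) hR0 hR
  exact b3_piece 1.36 1.39 0.444 0.457 0.451 0.63699 0.64147 0.63319 0.8917 2.6489 2.6887 0.1 0.2 0.2 2.5 1.3698 0 0 (-0.453) (-0.435) (-0.444) 1.55892 1.57303 2.1866 4.544 0.1 0.29 0.165 3.4731 3.5627 0 0 0.0503 5.18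
    hβ hr hκ (by norm_num) hk1 hk2 hD1 hD0 j1 (j1 _ (by rw [sub_self, norm_zero]; norm_num))
    (T3_29_d0_2 hD0 hβ hk1 hk2 (by linarith) (by linarith) hR0 hR)
    (T3_29_p0 hD0 hβ hk1 hk2 (by linarith) (by linarith) hR0 hR)
    y1.1 y1.2 y0.1 y0.2 (by norm_num)
    (ex_um 0.444 (by norm_num) (by norm_num) (by norm_num) (by norm_num)) (ex_um 0.457 (by norm_num) (by norm_num) (by norm_num) (by norm_num)) (ex_lm 0.451 (by norm_num) (by norm_num) (by norm_num) (by norm_num) (by norm_num)) (by norm_num) (by norm_num) (by norm_num) (by norm_num) (by norm_num) (by norm_num) (by norm_num) (by norm_num)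
    (by norm_num) (by norm_num) (by norm_num) (by norm_num) (by norm_num) (by norm_num) (by norm_num) (by norm_num) (by norm_num) (by norm_num)
    (ex_up 0.453 (by norm_num) (by norm_num) (by norm_num) (by norm_num)) (ex_lp 0.444 (by norm_num) (by norm_num) (by norm_num)) (by norm_num) (by norm_num) (by norm_num) (by norm_num) (by norm_num) (by norm_num)
    (by norm_num) (by norm_num) (by norm_num) (by norm_num) (by norm_num) (by norm_num) (by norm_num) (by norm_num) (by norm_num) (by norm_num) (by norm_num)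
    (by norm_num) (by norm_num) (by norm_num) (by norm_num)

private theorem yA6 {κ t : ℝ} (h : DomR κ t) (hk1 : 1.36 ≤ κ) (hk2 : κ ≤ 1.39) (ht1 : 1.177 ≤ t + κ) (ht2 : t + κ ≤ 1.2) :
    0.451 ≤ sy κ t ∧ sy κ t ≤ 0.463 := by
  have hy1 : 0.451 ≤ sy κ t := syR_ge h 1.36 1.39 1.177 0.451 1.56988 1.56989 0.50936 0.52061 hk1 hk2 (by linarith) (by norm_num) (by norm_num)
    (expn_ge (by norm_num) (by norm_num)) (expn_le (by norm_num) (by norm_num) (by norm_num)) (by norm_num)
    (by norm_num) (by norm_num) (by norm_num) (by norm_num) (by norm_num) (by norm_num)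
  have hy2 : sy κ t ≤ 0.463 := syR_le h 1.36 1.39 1.2 0.463 1.58883 0.5262 0.52922 0.54091 hk1 hk2 (by linarith) (by norm_num) (by norm_num)
    (expn_ge (by norm_num) (by norm_num)) (by norm_num) (by norm_num) (Or.inr ((mul_le_mul_of_nonneg_left (expn_le (E := 1.58884) (by norm_num) (by norm_num) (by norm_num)) (by norm_num)).trans (by norm_num))) (by norm_num) (by norm_num) (by norm_num)
  exact ⟨hy1, hy2⟩

private theorem yB6 {κ t : ℝ} (h : DomR κ t) (hk1 : 1.36 ≤ κ) (hk2 : κ ≤ 1.39) (ht1 : -0.9174 ≤ t + κ) (ht2 : t + κ ≤ -0.89439) :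
    (-0.442) ≤ sy κ t ∧ sy κ t ≤ (-0.424) := by
  have hy1 : -0.442 ≤ sy κ t := syL_ge h 1.36 1.39 0.9174 0.442 0.64274 0.64275 0.2032 0.20438 0.2089 hk1 hk2 (by linarith) (by norm_num) (by norm_num) (by norm_num)
    (expm_ge (by norm_num) (by norm_num) (by norm_num) (by norm_num)) (expm_le (by norm_num) (by norm_num) (by norm_num)) (by norm_num)
    (by norm_num) (by norm_num) (by norm_num) (by norm_num) (by norm_num) (by norm_num)
  have hy2 : sy κ t ≤ -0.424 := syL_le h 1.36 1.39 0.89439 0.424 0.65442 0.65443 0.19962 0.20403 hk1 hk2 (by linarith) (by norm_num) (by norm_num) (by norm_num)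
    (expm_ge (by norm_num) (by norm_num) (by norm_num) (by norm_num)) (expm_le (by norm_num) (by norm_num) (by norm_num)) (by norm_num)
    (by norm_num) (by norm_num) (by norm_num) (by norm_num) (by norm_num) (by norm_num)
  exact ⟨hy1, hy2⟩

theorem pc6 {β r h t κ : ℝ} (hh : h = 2 * Real.pi / (3 : ℕ)) (hβ : 0 < β) (hr : 10 ≤ r) (hκ : κ = β * r)
    (hk1 : 1.36 ≤ κ) (hk2 : κ ≤ 1.39) (hT1 : 1.177 ≤ t + κ) (hT2 : t + κ ≤ 1.2) :
    Xf β r h t 0 ≠ 0 ∧ r * 0.0503 ≤ (Ld β r h t 1 - Ld β r h t 0).im ∧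
      ‖(((-1 : ℤ) : ℂ) - 1) * Ld β r h t 0 - ((-1 : ℤ) : ℂ) * Ld β r h t 1‖ ≤ r * 5.18 := by
  obtain ⟨q1, q2, q3⟩ := b3_h hh
  have hR0 := b3_R0 hβ hr hκ
  have hR := b3_R hβ hr hκ (by linarith)
  have hD1 : DomR κ t := b3_dom (by linarith) (by linarith) (Or.inl (by linarith))
  have hD0 : DomR κ (t - h) := b3_dom (by linarith) (by linarith) (Or.inl (by linarith))
  have y1 := yA6 hD1 hk1 hk2 (by linarith) (by linarith)
  have y0 := yB6 hD0 hk1 hk2 (by linarith) (by linarith)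
  have j1 := T3_29_d1_3 hD1 hβ hk1 hk2 (by linarith) (by linarith) hR0 hR
  exact b3_piece 1.36 1.39 0.451 0.463 0.457 0.63318 0.637 0.6294 0.8855 2.6524 2.6914 0.08 0.19 0.19 2.9321 1.5943 0 0 (-0.442) (-0.424) (-0.433) 1.54187 1.55582 2.1626 4.47 0.1 0.275 0.165 3.2935 3.3689 0 0 0.0503 5.18
    hβ hr hκ (by norm_num) hk1 hk2 hD1 hD0 j1 (j1 _ (by rw [sub_self, norm_zero]; norm_num))
    (T3_29_d0_3 hD0 hβ hk1 hk2 (by linarith) (by linarith) hR0 hR)
    (T3_29_p0 hD0 hβ hk1 hk2 (by linarith) (by linarith) hR0 hR)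
    y1.1 y1.2 y0.1 y0.2 (by norm_num)
    (ex_um 0.451 (by norm_num) (by norm_num) (by norm_num) (by norm_num)) (ex_um 0.463 (by norm_num) (by norm_num) (by norm_num) (by norm_num)) (ex_lm 0.457 (by norm_num) (by norm_num) (by norm_num) (by norm_num) (by norm_num)) (by norm_num) (by norm_num) (by norm_num) (by norm_num) (by norm_num) (by norm_num) (by norm_num) (by norm_num)
    (by norm_num) (by norm_num) (by norm_num) (by norm_num) (by norm_num) (by norm_num) (by norm_num) (by norm_num) (by norm_num) (by norm_num)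
    (ex_up 0.442 (by norm_num) (by norm_num) (by norm_num) (by norm_num)) (ex_lp 0.433 (by norm_num) (by norm_num) (by norm_num)) (by norm_num) (by norm_num) (by norm_num) (by norm_num) (by norm_num) (by norm_num)
    (by norm_num) (by norm_num) (by norm_num) (by norm_num) (by norm_num) (by norm_num) (by norm_num) (by norm_num) (by norm_num) (by norm_num) (by norm_num)
    (by norm_num) (by norm_num) (by norm_num) (by norm_num)

private theorem yA7 {κ t : ℝ} (h : DomR κ t) (hk1 : 1.36 ≤ κ) (hk2 : κ ≤ 1.39) (ht1 : 1.2 ≤ t + κ) (ht2 : t + κ ≤ 1.224) :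
    0.457 ≤ sy κ t ∧ sy κ t ≤ 0.47 := by
  have hy1 : 0.457 ≤ sy κ t := syR_ge h 1.36 1.39 1.2 0.457 1.57932 1.57933 0.51924 0.53071 hk1 hk2 (by linarith) (by norm_num) (by norm_num)
    (expn_ge (by norm_num) (by norm_num)) (expn_le (by norm_num) (by norm_num) (by norm_num)) (by norm_num)
    (by norm_num) (by norm_num) (by norm_num) (by norm_num) (by norm_num) (by norm_num)
  have hy2 : sy κ t ≤ 0.47 := syR_le h 1.36 1.39 1.224 0.47 1.59999 0.538 0.541 0.55295 hk1 hk2 (by linarith) (by norm_num) (by norm_num)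
    (expn_ge (by norm_num) (by norm_num)) (by norm_num) (by norm_num) (Or.inr ((mul_le_mul_of_nonneg_left (expn_le (E := 1.6) (by norm_num) (by norm_num) (by norm_num)) (by norm_num)).trans (by norm_num))) (by norm_num) (by norm_num) (by norm_num)
  exact ⟨hy1, hy2⟩

private theorem yB7 {κ t : ℝ} (h : DomR κ t) (hk1 : 1.36 ≤ κ) (hk2 : κ ≤ 1.39) (ht1 : -0.8944 ≤ t + κ) (ht2 : t + κ ≤ -0.87039) :
    (-0.431) ≤ sy κ t ∧ sy κ t ≤ (-0.414) := by
  have hy1 : -0.431 ≤ sy κ t := syL_ge h 1.36 1.39 0.8944 0.431 0.64985 0.64986 0.2003 0.2015 0.20595 hk1 hk2 (by linarith) (by norm_num) (by norm_num) (by norm_num)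
    (expm_ge (by norm_num) (by norm_num) (by norm_num) (by norm_num)) (expm_le (by norm_num) (by norm_num) (by norm_num)) (by norm_num)
    (by norm_num) (by norm_num) (by norm_num) (by norm_num) (by norm_num) (by norm_num)
  have hy2 : sy κ t ≤ -0.414 := syL_le h 1.36 1.39 0.87039 0.414 0.661 0.66101 0.19687 0.20122 hk1 hk2 (by linarith) (by norm_num) (by norm_num) (by norm_num)
    (expm_ge (by norm_num) (by norm_num) (by norm_num) (by norm_num)) (expm_le (by norm_num) (by norm_num) (by norm_num)) (by norm_num)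
    (by norm_num) (by norm_num) (by norm_num) (by norm_num) (by norm_num) (by norm_num)
  exact ⟨hy1, hy2⟩

theorem pc7 {β r h t κ : ℝ} (hh : h = 2 * Real.pi / (3 : ℕ)) (hβ : 0 < β) (hr : 10 ≤ r) (hκ : κ = β * r)
    (hk1 : 1.36 ≤ κ) (hk2 : κ ≤ 1.39) (hT1 : 1.2 ≤ t + κ) (hT2 : t + κ ≤ 1.224) :
    Xf β r h t 0 ≠ 0 ∧ r * 0.0503 ≤ (Ld β r h t 1 - Ld β r h t 0).im ∧
      ‖(((-1 : ℤ) : ℂ) - 1) * Ld β r h t 0 - ((-1 : ℤ) : ℂ) * Ld β r h t 1‖ ≤ r * 5.18 := by
  obtain ⟨q1, q2, q3⟩ := b3_h hh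
  have hR0 := b3_R0 hβ hr hκ
  have hR := b3_R hβ hr hκ (by linarith)
  have hD1 : DomR κ t := b3_dom (by linarith) (by linarith) (Or.inl (by linarith))
  have hD0 : DomR κ (t - h) := b3_dom (by linarith) (by linarith) (Or.inl (by linarith))
  have y1 := yA7 hD1 hk1 hk2 (by linarith) (by linarith)
  have y0 := yB7 hD0 hk1 hk2 (by linarith) (by linarith)
  have j1 := T3_29_d1_3 hD1 hβ hk1 hk2 (by linarith) (by linarith) hR0 hR
  exact b3_piece 1.36 1.39 0.457 0.47 0.464 0.62876 0.63319 0.62501 0.8802 2.6554 2.6948 0.08 0.19 0.19 2.9321 1.5838 0 0 (-0.431) (-0.414) (-0.422) 1.525 1.5388 2.139 4.4046 0.1 0.275 0.165 3.2935 3.3568 0 0 0.0503 5.18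
    hβ hr hκ (by norm_num) hk1 hk2 hD1 hD0 j1 (j1 _ (by rw [sub_self, norm_zero]; norm_num))
    (T3_29_d0_3 hD0 hβ hk1 hk2 (by linarith) (by linarith) hR0 hR)
    (T3_29_p0 hD0 hβ hk1 hk2 (by linarith) (by linarith) hR0 hR)
    y1.1 y1.2 y0.1 y0.2 (by norm_num)
    (ex_um 0.457 (by norm_num) (by norm_num) (by norm_num) (by norm_num)) (ex_um 0.47 (by norm_num) (by norm_num) (by norm_num) (by norm_num)) (ex_lm 0.464 (by norm_num) (by norm_num) (by norm_num) (by norm_num) (by norm_num)) (by norm_num) (by norm_num) (by norm_num) (by norm_num) (by norm_num) (by norm_num) (by norm_num) (by norm_num)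
    (by norm_num) (by norm_num) (by norm_num) (by norm_num) (by norm_num) (by norm_num) (by norm_num) (by norm_num) (by norm_num) (by norm_num)
    (ex_up 0.431 (by norm_num) (by norm_num) (by norm_num) (by norm_num)) (ex_lp 0.422 (by norm_num) (by norm_num) (by norm_num)) (by norm_num) (by norm_num) (by norm_num) (by norm_num) (by norm_num) (by norm_num)
    (by norm_num) (by norm_num) (by norm_num) (by norm_num) (by norm_num) (by norm_num) (by norm_num) (by norm_num) (by norm_num) (by norm_num) (by norm_num)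
    (by norm_num) (by norm_num) (by norm_num) (by norm_num)

private theorem yA8 {κ t : ℝ} (h : DomR κ t) (hk1 : 1.36 ≤ κ) (hk2 : κ ≤ 1.39) (ht1 : 1.224 ≤ t + κ) (ht2 : t + κ ≤ 1.247) :
    0.464 ≤ sy κ t ∧ sy κ t ≤ 0.477 := by
  have hy1 : 0.464 ≤ sy κ t := syR_ge h 1.36 1.39 1.224 0.464 1.59042 1.59043 0.5309 0.54262 hk1 hk2 (by linarith) (by norm_num) (by norm_num)
    (expn_ge (by norm_num) (by norm_num)) (expn_le (by norm_num) (by norm_num) (by norm_num)) (by norm_num)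
    (by norm_num) (by norm_num) (by norm_num) (by norm_num) (by norm_num) (by norm_num)
  have hy2 : sy κ t ≤ 0.477 := syR_le h 1.36 1.39 1.247 0.477 1.61123 0.5498 0.55291 0.56512 hk1 hk2 (by linarith) (by norm_num) (by norm_num)
    (expn_ge (by norm_num) (by norm_num)) (by norm_num) (by norm_num) (Or.inr ((mul_le_mul_of_nonneg_left (expn_le (E := 1.61124) (by norm_num) (by norm_num) (by norm_num)) (by norm_num)).trans (by norm_num))) (by norm_num) (by norm_num) (by norm_num)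
  exact ⟨hy1, hy2⟩

private theorem yB8 {κ t : ℝ} (h : DomR κ t) (hk1 : 1.36 ≤ κ) (hk2 : κ ≤ 1.39) (ht1 : -0.8704 ≤ t + κ) (ht2 : t + κ ≤ -0.84739) :
    (-0.42) ≤ sy κ t ∧ sy κ t ≤ (-0.403) := by
  have hy1 : -0.42 ≤ sy κ t := syL_ge h 1.36 1.39 0.8704 0.42 0.65704 0.65705 0.1974 0.19853 0.20292 hk1 hk2 (by linarith) (by norm_num) (by norm_num) (by norm_num)
    (expm_ge (by norm_num) (by norm_num) (by norm_num) (by norm_num)) (expm_le (by norm_num) (by norm_num) (by norm_num)) (by norm_num)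
    (by norm_num) (by norm_num) (by norm_num) (by norm_num) (by norm_num) (by norm_num)
  have hy2 : sy κ t ≤ -0.403 := syL_le h 1.36 1.39 0.84739 0.403 0.66831 0.66832 0.19376 0.19804 hk1 hk2 (by linarith) (by norm_num) (by norm_num) (by norm_num)
    (expm_ge (by norm_num) (by norm_num) (by norm_num) (by norm_num)) (expm_le (by norm_num) (by norm_num) (by norm_num)) (by norm_num)
    (by norm_num) (by norm_num) (by norm_num) (by norm_num) (by norm_num) (by norm_num)
  exact ⟨hy1, hy2⟩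

theorem pc8 {β r h t κ : ℝ} (hh : h = 2 * Real.pi / (3 : ℕ)) (hβ : 0 < β) (hr : 10 ≤ r) (hκ : κ = β * r)
    (hk1 : 1.36 ≤ κ) (hk2 : κ ≤ 1.39) (hT1 : 1.224 ≤ t + κ) (hT2 : t + κ ≤ 1.247) :
    Xf β r h t 0 ≠ 0 ∧ r * 0.0503 ≤ (Ld β r h t 1 - Ld β r h t 0).im ∧
      ‖(((-1 : ℤ) : ℂ) - 1) * Ld β r h t 0 - ((-1 : ℤ) : ℂ) * Ld β r h t 1‖ ≤ r * 5.18 := by
  obtain ⟨q1, q2, q3⟩ := b3_h hh
  have hR0 := b3_R0 hβ hr hκ
  have hR := b3_R hβ hr hκ (by linarith)
  have hD1 : DomR κ t := b3_dom (by linarith) (by linarith) (Or.inl (by linarith))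
  have hD0 : DomR κ (t - h) := b3_dom (by linarith) (by linarith) (Or.inl (by linarith))
  have y1 := yA8 hD1 hk1 hk2 (by linarith) (by linarith)
  have y0 := yB8 hD0 hk1 hk2 (by linarith) (by linarith)
  have j1 := T3_29_d1_3 hD1 hβ hk1 hk2 (by linarith) (by linarith) hR0 hR
  exact b3_piece 1.36 1.39 0.464 0.477 0.47 0.625 0.62877 0.62065 0.874 2.6591 2.6983 0.08 0.19 0.19 2.9321 1.5716 0 0 (-0.42) (-0.403) (-0.411) 1.50832 1.52197 2.1156 4.3345 0.1 0.275 0.165 3.2935 3.3468 0 0 0.0503 5.18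
    hβ hr hκ (by norm_num) hk1 hk2 hD1 hD0 j1 (j1 _ (by rw [sub_self, norm_zero]; norm_num))
    (T3_29_d0_3 hD0 hβ hk1 hk2 (by linarith) (by linarith) hR0 hR)
    (T3_29_p0 hD0 hβ hk1 hk2 (by linarith) (by linarith) hR0 hR)
    y1.1 y1.2 y0.1 y0.2 (by norm_num)
    (ex_um 0.464 (by norm_num) (by norm_num) (by norm_num) (by norm_num)) (ex_um 0.477 (by norm_num) (by norm_num) (by norm_num) (by norm_num)) (ex_lm 0.47 (by norm_num) (by norm_num) (by norm_num) (by norm_num) (by norm_num)) (by norm_num) (by norm_num) (by norm_num) (by norm_num) (by norm_num) (by norm_num) (by norm_num) (by norm_num)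
    (by norm_num) (by norm_num) (by norm_num) (by norm_num) (by norm_num) (by norm_num) (by norm_num) (by norm_num) (by norm_num) (by norm_num)
    (ex_up 0.42 (by norm_num) (by norm_num) (by norm_num) (by norm_num)) (ex_lp 0.411 (by norm_num) (by norm_num) (by norm_num)) (by norm_num) (by norm_num) (by norm_num) (by norm_num) (by norm_num) (by norm_num)
    (by norm_num) (by norm_num) (by norm_num) (by norm_num) (by norm_num) (by norm_num) (by norm_num) (by norm_num) (by norm_num) (by norm_num) (by norm_num)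
    (by norm_num) (by norm_num) (by norm_num) (by norm_num)

private theorem yA9 {κ t : ℝ} (h : DomR κ t) (hk1 : 1.36 ≤ κ) (hk2 : κ ≤ 1.39) (ht1 : 1.247 ≤ t + κ) (ht2 : t + κ ≤ 1.27) :
    0.47 ≤ sy κ t ∧ sy κ t ≤ 0.483 := by
  have hy1 : 0.47 ≤ sy κ t := syR_ge h 1.36 1.39 1.247 0.47 1.59999 1.6 0.541 0.55295 hk1 hk2 (by linarith) (by norm_num) (by norm_num)
    (expn_ge (by norm_num) (by norm_num)) (expn_le (by norm_num) (by norm_num) (by norm_num)) (by norm_num)
    (by norm_num) (by norm_num) (by norm_num) (by norm_num) (by norm_num) (by norm_num)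
  have hy2 : sy κ t ≤ 0.483 := syR_le h 1.36 1.39 1.27 0.483 1.62092 0.5601 0.56324 0.57567 hk1 hk2 (by linarith) (by norm_num) (by norm_num)
    (expn_ge (by norm_num) (by norm_num)) (by norm_num) (by norm_num) (Or.inr ((mul_le_mul_of_nonneg_left (expn_le (E := 1.62093) (by norm_num) (by norm_num) (by norm_num)) (by norm_num)).trans (by norm_num))) (by norm_num) (by norm_num) (by norm_num)
  exact ⟨hy1, hy2⟩

private theorem yB9 {κ t : ℝ} (h : DomR κ t) (hk1 : 1.36 ≤ κ) (hk2 : κ ≤ 1.39) (ht1 : -0.8474 ≤ t + κ) (ht2 : t + κ ≤ -0.82439) :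
    (-0.41) ≤ sy κ t ∧ sy κ t ≤ (-0.393) := by
  have hy1 : -0.41 ≤ sy κ t := syL_ge h 1.36 1.39 0.8474 0.41 0.66365 0.66366 0.1946 0.19575 0.20008 hk1 hk2 (by linarith) (by norm_num) (by norm_num) (by norm_num)
    (expm_ge (by norm_num) (by norm_num) (by norm_num) (by norm_num)) (expm_le (by norm_num) (by norm_num) (by norm_num)) (by norm_num)
    (by norm_num) (by norm_num) (by norm_num) (by norm_num) (by norm_num) (by norm_num)
  have hy2 : sy κ t ≤ -0.393 := syL_le h 1.36 1.39 0.82439 0.393 0.67502 0.67503 0.19085 0.19507 hk1 hk2 (by linarith) (by norm_num) (by norm_num) (by norm_num)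
    (expm_ge (by norm_num) (by norm_num) (by norm_num) (by norm_num)) (expm_le (by norm_num) (by norm_num) (by norm_num)) (by norm_num)
    (by norm_num) (by norm_num) (by norm_num) (by norm_num) (by norm_num) (by norm_num)
  exact ⟨hy1, hy2⟩

theorem pc9 {β r h t κ : ℝ} (hh : h = 2 * Real.pi / (3 : ℕ)) (hβ : 0 < β) (hr : 10 ≤ r) (hκ : κ = β * r)
    (hk1 : 1.36 ≤ κ) (hk2 : κ ≤ 1.39) (hT1 : 1.247 ≤ t + κ) (hT2 : t + κ ≤ 1.27) :
    Xf β r h t 0 ≠ 0 ∧ r * 0.0503 ≤ (Ld β r h t 1 - Ld β r h t 0).im ∧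
      ‖(((-1 : ℤ) : ℂ) - 1) * Ld β r h t 0 - ((-1 : ℤ) : ℂ) * Ld β r h t 1‖ ≤ r * 5.18 := by
  obtain ⟨q1, q2, q3⟩ := b3_h hh
  have hR0 := b3_R0 hβ hr hκ
  have hR := b3_R hβ hr hκ (by linarith)
  have hD1 : DomR κ t := b3_dom (by linarith) (by linarith) (Or.inl (by linarith))
  have hD0 : DomR κ (t - h) := b3_dom (by linarith) (by linarith) (Or.inl (by linarith))
  have y1 := yA9 hD1 hk1 hk2 (by linarith) (by linarith)
  have y0 := yB9 hD0 hk1 hk2 (by linarith) (by linarith)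
  have j1 := T3_29_d1_4 hD1 hβ hk1 hk2 (by linarith) (by linarith) hR0 hR
  exact b3_piece 1.36 1.39 0.47 0.483 0.476 0.62126 0.62501 0.61694 0.8688 2.6624 2.7014 0.06 0.195 0.195 4.0373 2.1497 0 0 (-0.41) (-0.393) (-0.402) 1.49481 1.50682 2.0945 4.2724 0.1 0.255 0.165 3.0539 3.0946 0 0 0.0503 5.18
    hβ hr hκ (by norm_num) hk1 hk2 hD1 hD0 j1 (j1 _ (by rw [sub_self, norm_zero]; norm_num))
    (T3_29_d0_4 hD0 hβ hk1 hk2 (by linarith) (by linarith) hR0 hR)
    (T3_29_p0 hD0 hβ hk1 hk2 (by linarith) (by linarith) hR0 hR)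
    y1.1 y1.2 y0.1 y0.2 (by norm_num)
    (ex_um 0.47 (by norm_num) (by norm_num) (by norm_num) (by norm_num)) (ex_um 0.483 (by norm_num) (by norm_num) (by norm_num) (by norm_num)) (ex_lm 0.476 (by norm_num) (by norm_num) (by norm_num) (by norm_num) (by norm_num)) (by norm_num) (by norm_num) (by norm_num) (by norm_num) (by norm_num) (by norm_num) (by norm_num) (by norm_num)
    (by norm_num) (by norm_num) (by norm_num) (by norm_num) (by norm_num) (by norm_num) (by norm_num) (by norm_num) (by norm_num) (by norm_num)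
    (ex_up 0.41 (by norm_num) (by norm_num) (by norm_num) (by norm_num)) (ex_lp 0.402 (by norm_num) (by norm_num) (by norm_num)) (by norm_num) (by norm_num) (by norm_num) (by norm_num) (by norm_num) (by norm_num)
    (by norm_num) (by norm_num) (by norm_num) (by norm_num) (by norm_num) (by norm_num) (by norm_num) (by norm_num) (by norm_num) (by norm_num) (by norm_num)
    (by norm_num) (by norm_num) (by norm_num) (by norm_num)

private theorem yA10 {κ t : ℝ} (h : DomR κ t) (hk1 : 1.36 ≤ κ) (hk2 : κ ≤ 1.39) (ht1 : 1.27 ≤ t + κ) (ht2 : t + κ ≤ 1.294) :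
    0.476 ≤ sy κ t ∧ sy κ t ≤ 0.489 := by
  have hy1 : 0.476 ≤ sy κ t := syR_ge h 1.36 1.39 1.27 0.476 1.60962 1.60963 0.5512 0.56338 hk1 hk2 (by linarith) (by norm_num) (by norm_num)
    (expn_ge (by norm_num) (by norm_num)) (expn_le (by norm_num) (by norm_num) (by norm_num)) (by norm_num)
    (by norm_num) (by norm_num) (by norm_num) (by norm_num) (by norm_num) (by norm_num)
  have hy2 : sy κ t ≤ 0.489 := syR_le h 1.36 1.39 1.294 0.489 1.63068 0.5705 0.57367 0.58633 hk1 hk2 (by linarith) (by norm_num) (by norm_num)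
    (expn_ge (by norm_num) (by norm_num)) (by norm_num) (by norm_num) (Or.inr ((mul_le_mul_of_nonneg_left (expn_le (E := 1.63069) (by norm_num) (by norm_num) (by norm_num)) (by norm_num)).trans (by norm_num))) (by norm_num) (by norm_num) (by norm_num)
  exact ⟨hy1, hy2⟩

private theorem yB10 {κ t : ℝ} (h : DomR κ t) (hk1 : 1.36 ≤ κ) (hk2 : κ ≤ 1.39) (ht1 : -0.8244 ≤ t + κ) (ht2 : t + κ ≤ -0.80039) :
    (-0.399) ≤ sy κ t ∧ sy κ t ≤ (-0.382) := by
  have hy1 : -0.399 ≤ sy κ t := syL_ge h 1.36 1.39 0.8244 0.399 0.67099 0.671 0.1915 0.1926 0.19686 hk1 hk2 (by linarith) (by norm_num) (by norm_num) (by norm_num)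
    (expm_ge (by norm_num) (by norm_num) (by norm_num) (by norm_num)) (expm_le (by norm_num) (by norm_num) (by norm_num)) (by norm_num)
    (by norm_num) (by norm_num) (by norm_num) (by norm_num) (by norm_num) (by norm_num)
  have hy2 : sy κ t ≤ -0.382 := syL_le h 1.36 1.39 0.80039 0.382 0.68249 0.6825 0.18756 0.19171 hk1 hk2 (by linarith) (by norm_num) (by norm_num) (by norm_num)
    (expm_ge (by norm_num) (by norm_num) (by norm_num) (by norm_num)) (expm_le (by norm_num) (by norm_num) (by norm_num)) (by norm_num)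
    (by norm_num) (by norm_num) (by norm_num) (by norm_num) (by norm_num) (by norm_num)
  exact ⟨hy1, hy2⟩

theorem pc10 {β r h t κ : ℝ} (hh : h = 2 * Real.pi / (3 : ℕ)) (hβ : 0 < β) (hr : 10 ≤ r) (hκ : κ = β * r)
    (hk1 : 1.36 ≤ κ) (hk2 : κ ≤ 1.39) (hT1 : 1.27 ≤ t + κ) (hT2 : t + κ ≤ 1.294) :
    Xf β r h t 0 ≠ 0 ∧ r * 0.0503 ≤ (Ld β r h t 1 - Ld β r h t 0).im ∧
      ‖(((-1 : ℤ) : ℂ) - 1) * Ld β r h t 0 - ((-1 : ℤ) : ℂ) * Ld β r h t 1‖ ≤ r * 5.18 := by
  obtain ⟨q1, q2, q3⟩ := b3_h hh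
  have hR0 := b3_R0 hβ hr hκ
  have hR := b3_R hβ hr hκ (by linarith)
  have hD1 : DomR κ t := b3_dom (by linarith) (by linarith) (Or.inl (by linarith))
  have hD0 : DomR κ (t - h) := b3_dom (by linarith) (by linarith) (Or.inl (by linarith))
  have y1 := yA10 hD1 hk1 hk2 (by linarith) (by linarith)
  have y0 := yB10 hD0 hk1 hk2 (by linarith) (by linarith)
  have j1 := T3_29_d1_4 hD1 hβ hk1 hk2 (by linarith) (by linarith) hR0 hR
  exact b3_piece 1.36 1.39 0.476 0.489 0.482 0.61754 0.62127 0.61324 0.8636 2.6658 2.7046 0.06 0.195 0.195 4.0373 2.1355 0 0 (-0.399) (-0.382) (-0.391) 1.47845 1.49034 2.0716 4.2061 0.1 0.255 0.165 3.0539 3.0848 0 0 0.0503 5.18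
    hβ hr hκ (by norm_num) hk1 hk2 hD1 hD0 j1 (j1 _ (by rw [sub_self, norm_zero]; norm_num))
    (T3_29_d0_4 hD0 hβ hk1 hk2 (by linarith) (by linarith) hR0 hR)
    (T3_29_p0 hD0 hβ hk1 hk2 (by linarith) (by linarith) hR0 hR)
    y1.1 y1.2 y0.1 y0.2 (by norm_num)
    (ex_um 0.476 (by norm_num) (by norm_num) (by norm_num) (by norm_num)) (ex_um 0.489 (by norm_num) (by norm_num) (by norm_num) (by norm_num)) (ex_lm 0.482 (by norm_num) (by norm_num) (by norm_num) (by norm_num) (by norm_num)) (by norm_num) (by norm_num) (by norm_num) (by norm_num) (by norm_num) (by norm_num) (by norm_num) (by norm_num)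
    (by norm_num) (by norm_num) (by norm_num) (by norm_num) (by norm_num) (by norm_num) (by norm_num) (by norm_num) (by norm_num) (by norm_num)
    (ex_up 0.399 (by norm_num) (by norm_num) (by norm_num) (by norm_num)) (ex_lp 0.391 (by norm_num) (by norm_num) (by norm_num)) (by norm_num) (by norm_num) (by norm_num) (by norm_num) (by norm_num) (by norm_num)
    (by norm_num) (by norm_num) (by norm_num) (by norm_num) (by norm_num) (by norm_num) (by norm_num) (by norm_num) (by norm_num) (by norm_num) (by norm_num)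
    (by norm_num) (by norm_num) (by norm_num) (by norm_num)

private theorem yA11 {κ t : ℝ} (h : DomR κ t) (hk1 : 1.36 ≤ κ) (hk2 : κ ≤ 1.39) (ht1 : 1.294 ≤ t + κ) (ht2 : t + κ ≤ 1.317) :
    0.482 ≤ sy κ t ∧ sy κ t ≤ 0.495 := by
  have hy1 : 0.482 ≤ sy κ t := syR_ge h 1.36 1.39 1.294 0.482 1.6193 1.61931 0.56151 0.57391 hk1 hk2 (by linarith) (by norm_num) (by norm_num)
    (expn_ge (by norm_num) (by norm_num)) (expn_le (by norm_num) (by norm_num) (by norm_num)) (by norm_num)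
    (by norm_num) (by norm_num) (by norm_num) (by norm_num) (by norm_num) (by norm_num)
  have hy2 : sy κ t ≤ 0.495 := syR_le h 1.36 1.39 1.317 0.495 1.64049 0.5809 0.5842 0.5971 hk1 hk2 (by linarith) (by norm_num) (by norm_num)
    (expn_ge (by norm_num) (by norm_num)) (by norm_num) (by norm_num) (Or.inr ((mul_le_mul_of_nonneg_left (expn_le (E := 1.6405) (by norm_num) (by norm_num) (by norm_num)) (by norm_num)).trans (by norm_num))) (by norm_num) (by norm_num) (by norm_num)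
  exact ⟨hy1, hy2⟩

private theorem yB11 {κ t : ℝ} (h : DomR κ t) (hk1 : 1.36 ≤ κ) (hk2 : κ ≤ 1.39) (ht1 : -0.8004 ≤ t + κ) (ht2 : t + κ ≤ -0.77739) :
    (-0.388) ≤ sy κ t ∧ sy κ t ≤ (-0.372) := by
  have hy1 : -0.388 ≤ sy κ t := syL_ge h 1.36 1.39 0.8004 0.388 0.67841 0.67842 0.1883 0.18936 0.19355 hk1 hk2 (by linarith) (by norm_num) (by norm_num) (by norm_num)
    (expm_ge (by norm_num) (by norm_num) (by norm_num) (by norm_num)) (expm_le (by norm_num) (by norm_num) (by norm_num)) (by norm_num)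
    (by norm_num) (by norm_num) (by norm_num) (by norm_num) (by norm_num) (by norm_num)
  have hy2 : sy κ t ≤ -0.372 := syL_le h 1.36 1.39 0.77739 0.372 0.68935 0.68936 0.18448 0.18857 hk1 hk2 (by linarith) (by norm_num) (by norm_num) (by norm_num)
    (expm_ge (by norm_num) (by norm_num) (by norm_num) (by norm_num)) (expm_le (by norm_num) (by norm_num) (by norm_num)) (by norm_num)
    (by norm_num) (by norm_num) (by norm_num) (by norm_num) (by norm_num) (by norm_num)
  exact ⟨hy1, hy2⟩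

theorem pc11 {β r h t κ : ℝ} (hh : h = 2 * Real.pi / (3 : ℕ)) (hβ : 0 < β) (hr : 10 ≤ r) (hκ : κ = β * r)
    (hk1 : 1.36 ≤ κ) (hk2 : κ ≤ 1.39) (hT1 : 1.294 ≤ t + κ) (hT2 : t + κ ≤ 1.317) :
    Xf β r h t 0 ≠ 0 ∧ r * 0.0503 ≤ (Ld β r h t 1 - Ld β r h t 0).im ∧
      ‖(((-1 : ℤ) : ℂ) - 1) * Ld β r h t 0 - ((-1 : ℤ) : ℂ) * Ld β r h t 1‖ ≤ r * 5.18 := by
  obtain ⟨q1, q2, q3⟩ := b3_h hh
  have hR0 := b3_R0 hβ hr hκ
  have hR := b3_R hβ hr hκ (by linarith)
  have hD1 : DomR κ t := b3_dom (by linarith) (by linarith) (Or.inl (by linarith))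
  have hD0 : DomR κ (t - h) := b3_dom (by linarith) (by linarith) (Or.inl (by linarith))
  have y1 := yA11 hD1 hk1 hk2 (by linarith) (by linarith)
  have y0 := yB11 hD0 hk1 hk2 (by linarith) (by linarith)
  have j1 := T3_29_d1_4 hD1 hβ hk1 hk2 (by linarith) (by linarith) hR0 hR
  exact b3_piece 1.36 1.39 0.482 0.495 0.488 0.61385 0.61755 0.60958 0.8584 2.6693 2.708 0.06 0.195 0.195 4.0373 2.1213 0 0 (-0.388) (-0.372) (-0.38) 1.46228 1.47403 2.049 4.1476 0.1 0.255 0.165 3.0539 3.0726 0 0 0.0503 5.18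
    hβ hr hκ (by norm_num) hk1 hk2 hD1 hD0 j1 (j1 _ (by rw [sub_self, norm_zero]; norm_num))
    (T3_29_d0_4 hD0 hβ hk1 hk2 (by linarith) (by linarith) hR0 hR)
    (T3_29_p0 hD0 hβ hk1 hk2 (by linarith) (by linarith) hR0 hR)
    y1.1 y1.2 y0.1 y0.2 (by norm_num)
    (ex_um 0.482 (by norm_num) (by norm_num) (by norm_num) (by norm_num)) (ex_um 0.495 (by norm_num) (by norm_num) (by norm_num) (by norm_num)) (ex_lm 0.488 (by norm_num) (by norm_num) (by norm_num) (by norm_num) (by norm_num)) (by norm_num) (by norm_num) (by norm_num) (by norm_num) (by norm_num) (by norm_num) (by norm_num) (by norm_num)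
    (by norm_num) (by norm_num) (by norm_num) (by norm_num) (by norm_num) (by norm_num) (by norm_num) (by norm_num) (by norm_num) (by norm_num)
    (ex_up 0.388 (by norm_num) (by norm_num) (by norm_num) (by norm_num)) (ex_lp 0.38 (by norm_num) (by norm_num) (by norm_num)) (by norm_num) (by norm_num) (by norm_num) (by norm_num) (by norm_num) (by norm_num)
    (by norm_num) (by norm_num) (by norm_num) (by norm_num) (by norm_num) (by norm_num) (by norm_num) (by norm_num) (by norm_num) (by norm_num) (by norm_num)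
    (by norm_num) (by norm_num) (by norm_num) (by norm_num)

private theorem yA12 {κ t : ℝ} (h : DomR κ t) (hk1 : 1.36 ≤ κ) (hk2 : κ ≤ 1.39) (ht1 : 1.317 ≤ t + κ) (ht2 : t + κ ≤ 1.34) :
    0.488 ≤ sy κ t ∧ sy κ t ≤ 0.502 := by
  have hy1 : 0.488 ≤ sy κ t := syR_ge h 1.36 1.39 1.317 0.488 1.62905 1.62906 0.57192 0.58455 hk1 hk2 (by linarith) (by norm_num) (by norm_num)
    (expn_ge (by norm_num) (by norm_num)) (expn_le (by norm_num) (by norm_num) (by norm_num)) (by norm_num)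
    (by norm_num) (by norm_num) (by norm_num) (by norm_num) (by norm_num) (by norm_num)
  have hy2 : sy κ t ≤ 0.502 := syR_le h 1.36 1.39 1.34 0.502 1.65202 0.5933 0.59662 0.6098 hk1 hk2 (by linarith) (by norm_num) (by norm_num)
    (expn_ge (by norm_num) (by norm_num)) (by norm_num) (by norm_num) (Or.inr ((mul_le_mul_of_nonneg_left (expn_le (E := 1.65203) (by norm_num) (by norm_num) (by norm_num)) (by norm_num)).trans (by norm_num))) (by norm_num) (by norm_num) (by norm_num)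
  exact ⟨hy1, hy2⟩

private theorem yB12 {κ t : ℝ} (h : DomR κ t) (hk1 : 1.36 ≤ κ) (hk2 : κ ≤ 1.39) (ht1 : -0.7774 ≤ t + κ) (ht2 : t + κ ≤ -0.75439) :
    (-0.377) ≤ sy κ t ∧ sy κ t ≤ (-0.361) := by
  have hy1 : -0.377 ≤ sy κ t := syL_ge h 1.36 1.39 0.7774 0.377 0.68591 0.68592 0.1849 0.18603 0.19015 hk1 hk2 (by linarith) (by norm_num) (by norm_num) (by norm_num)
    (expm_ge (by norm_num) (by norm_num) (by norm_num) (by norm_num)) (expm_le (by norm_num) (by norm_num) (by norm_num)) (by norm_num)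
    (by norm_num) (by norm_num) (by norm_num) (by norm_num) (by norm_num) (by norm_num)
  have hy2 : sy κ t ≤ -0.361 := syL_le h 1.36 1.39 0.75439 0.361 0.69697 0.69698 0.18101 0.18501 hk1 hk2 (by linarith) (by norm_num) (by norm_num) (by norm_num)
    (expm_ge (by norm_num) (by norm_num) (by norm_num) (by norm_num)) (expm_le (by norm_num) (by norm_num) (by norm_num)) (by norm_num)
    (by norm_num) (by norm_num) (by norm_num) (by norm_num) (by norm_num) (by norm_num)
  exact ⟨hy1, hy2⟩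

theorem pc12 {β r h t κ : ℝ} (hh : h = 2 * Real.pi / (3 : ℕ)) (hβ : 0 < β) (hr : 10 ≤ r) (hκ : κ = β * r)
    (hk1 : 1.36 ≤ κ) (hk2 : κ ≤ 1.39) (hT1 : 1.317 ≤ t + κ) (hT2 : t + κ ≤ 1.34) :
    Xf β r h t 0 ≠ 0 ∧ r * 0.0503 ≤ (Ld β r h t 1 - Ld β r h t 0).im ∧
      ‖(((-1 : ℤ) : ℂ) - 1) * Ld β r h t 0 - ((-1 : ℤ) : ℂ) * Ld β r h t 1‖ ≤ r * 5.18 := by
  obtain ⟨q1, q2, q3⟩ := b3_h hh
  have hR0 := b3_R0 hβ hr hκ
  have hR := b3_R hβ hr hκ (by linarith)
  have hD1 : DomR κ t := b3_dom (by linarith) (by linarith) (Or.inl (by linarith))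
  have hD0 : DomR κ (t - h) := b3_dom (by linarith) (by linarith) (Or.inl (by linarith))
  have y1 := yA12 hD1 hk1 hk2 (by linarith) (by linarith)
  have y0 := yB12 hD0 hk1 hk2 (by linarith) (by linarith)
  have j1 := T3_29_d1_4 hD1 hβ hk1 hk2 (by linarith) (by linarith) hR0 hR
  exact b3_piece 1.36 1.39 0.488 0.502 0.495 0.60957 0.61386 0.60532 0.8533 2.6728 2.712 0.06 0.195 0.195 4.0373 2.1073 0 0 (-0.377) (-0.361) (-0.369) 1.44628 1.45791 2.0265 4.0849 0.1 0.255 0.165 3.0539 3.0621 0 0 0.0503 5.18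
    hβ hr hκ (by norm_num) hk1 hk2 hD1 hD0 j1 (j1 _ (by rw [sub_self, norm_zero]; norm_num))
    (T3_29_d0_4 hD0 hβ hk1 hk2 (by linarith) (by linarith) hR0 hR)
    (T3_29_p0 hD0 hβ hk1 hk2 (by linarith) (by linarith) hR0 hR)
    y1.1 y1.2 y0.1 y0.2 (by norm_num)
    (ex_um 0.488 (by norm_num) (by norm_num) (by norm_num) (by norm_num)) (ex_um 0.502 (by norm_num) (by norm_num) (by norm_num) (by norm_num)) (ex_lm 0.495 (by norm_num) (by norm_num) (by norm_num) (by norm_num) (by norm_num)) (by norm_num) (by norm_num) (by norm_num) (by norm_num) (by norm_num) (by norm_num) (by norm_num) (by norm_num)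
    (by norm_num) (by norm_num) (by norm_num) (by norm_num) (by norm_num) (by norm_num) (by norm_num) (by norm_num) (by norm_num) (by norm_num)
    (ex_up 0.377 (by norm_num) (by norm_num) (by norm_num) (by norm_num)) (ex_lp 0.369 (by norm_num) (by norm_num) (by norm_num)) (by norm_num) (by norm_num) (by norm_num) (by norm_num) (by norm_num) (by norm_num)
    (by norm_num) (by norm_num) (by norm_num) (by norm_num) (by norm_num) (by norm_num) (by norm_num) (by norm_num) (by norm_num) (by norm_num) (by norm_num)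
    (by norm_num) (by norm_num) (by norm_num) (by norm_num)

theorem innS {β r h t κ : ℝ} (hh : h = 2 * Real.pi / (3 : ℕ)) (hβ : 0 < β) (hr : 10 ≤ r) (hκ : κ = β * r)
    (hk1 : 1.36 ≤ κ) (hk2 : κ ≤ 1.39) (hT1 : 1.047 ≤ t + κ) (hT2 : t + κ ≤ 1.34) :
    Xf β r h t 0 ≠ 0 ∧ r * 0.0503 ≤ (Ld β r h t 1 - Ld β r h t 0).im ∧
      ‖(((-1 : ℤ) : ℂ) - 1) * Ld β r h t 0 - ((-1 : ℤ) : ℂ) * Ld β r h t 1‖ ≤ r * 5.18 := by
  rcases le_total (t + κ) 1.067 with f0 | g0
  · exact pc0 hh hβ hr hκ hk1 hk2 hT1 f0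
  rcases le_total (t + κ) 1.087 with f1 | g1
  · exact pc1 hh hβ hr hκ hk1 hk2 g0 f1
  rcases le_total (t + κ) 1.107 with f2 | g2
  · exact pc2 hh hβ hr hκ hk1 hk2 g1 f2
  rcases le_total (t + κ) 1.127 with f3 | g3
  · exact pc3 hh hβ hr hκ hk1 hk2 g2 f3
  rcases le_total (t + κ) 1.152 with f4 | g4
  · exact pc4 hh hβ hr hκ hk1 hk2 g3 f4
  rcases le_total (t + κ) 1.177 with f5 | g5
  · exact pc5 hh hβ hr hκ hk1 hk2 g4 f5
  rcases le_total (t + κ) 1.2 with f6 | g6
  · exact pc6 hh hβ hr hκ hk1 hk2 g5 f6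
  rcases le_total (t + κ) 1.224 with f7 | g7
  · exact pc7 hh hβ hr hκ hk1 hk2 g6 f7
  rcases le_total (t + κ) 1.247 with f8 | g8
  · exact pc8 hh hβ hr hκ hk1 hk2 g7 f8
  rcases le_total (t + κ) 1.27 with f9 | g9
  · exact pc9 hh hβ hr hκ hk1 hk2 g8 f9
  rcases le_total (t + κ) 1.294 with f10 | g10
  · exact pc10 hh hβ hr hκ hk1 hk2 g9 f10
  rcases le_total (t + κ) 1.317 with f11 | g11
  · exact pc11 hh hβ hr hκ hk1 hk2 g10 f11
  exact pc12 hh hβ hr hκ hk1 hk2 g11 hT2

theorem circ {p : ℤ} (hp : IsCoprime (3 : ℤ) p) {β r : ℝ} (hβ : 0 < β) (hr : 10 ≤ r) (hk1 : 1.36 ≤ β * r)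
    (hk2 : β * r ≤ 1.39) : Circ (2 * Real.pi * p / (3 : ℕ) + β) r := by
  obtain ⟨κ, hκ⟩ : ∃ κ, κ = β * r := ⟨_, rfl⟩
  rw [← hκ] at hk1 hk2
  refine circ3 hp hr (h := 2 * Real.pi / (3 : ℕ)) (κ := κ) rfl 1.047 1.34 1.0096 0.0503 0.00452 0.01207 5.18 (by norm_num) (by norm_num) (by norm_num)
    (by norm_num) (by norm_num) ?_ ?_ ?_ ?_ ?_ (by norm_num) (by norm_num)
  · intro t h1 h2
    exact (innS rfl hβ hr hκ hk1 hk2 h1 h2).1
  · intro t h1 h2
    exact (innE rfl hβ hr hκ hk1 hk2 h1 h2).1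
  · intro t h1 h2
    exact (innE rfl hβ hr hκ hk1 hk2 h1 h2).2
  · intro t h1 h2
    exact (innS rfl hβ hr hκ hk1 hk2 h1 h2).2
  · intro t h1 h2 h3
    rcases h3 with h3 | h3
    · rcases le_total (t + κ) 1.022 with g | g
      · exact left rfl hβ hr hκ hk1 hk2 h1 g
      · exact middle rfl hβ hr hκ hk1 hk2 g h3
    · rcases le_total (t + κ) 1.7 with g | g
      · exact right0 rfl hβ hr hκ hk1 hk2 h3 g
      · exact right1 rfl hβ hr hκ hk1 hk2 g h2

end B3_29

end Sok
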