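import Pool.Agent.Lib.MP_816dec_an.R1b3A
import Pool.Agent.Lib.MP_816dec_an.R1b3K01
import Pool.Agent.Lib.MP_816dec_an.R1b3K02
import Pool.Agent.Lib.MP_816dec_an.R1b3K03
import Pool.Agent.Lib.MP_816dec_an.R1b3K04
import Pool.Agent.Lib.MP_816dec_an.R1b3K05
import Pool.Agent.Lib.MP_816dec_an.R1b3K06
import Pool.Agent.Lib.MP_816dec_an.R1b3K07
import Pool.Agent.Lib.MP_816dec_an.R1b3K08
import Pool.Agent.Lib.MP_816dec_an.R1b3K09
import Pool.Agent.Lib.MP_816dec_an.R1b3K10
import Pool.Agent.Lib.MP_816dec_an.R1b3K11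
import Pool.Agent.Lib.MP_816dec_an.R1b3K12
import Pool.Agent.Lib.MP_816dec_an.R1b3K13
import Pool.Agent.Lib.MP_816dec_an.R1b3K14
import Pool.Agent.Lib.MP_816dec_an.R1b3K15
import Pool.Agent.Lib.MP_816dec_an.R1b3K16
import Pool.Agent.Lib.MP_816dec_an.R1b3K17
import Pool.Agent.Lib.MP_816dec_an.R1b3K18
import Pool.Agent.Lib.MP_816dec_an.R1b3K19
import Pool.Agent.Lib.MP_816dec_an.R1b3K20
import Pool.Agent.Lib.MP_816dec_an.R1b3K21
import Pool.Agent.Lib.MP_816dec_an.R1b3K22
import Pool.Agent.Lib.MP_816dec_an.R1b3K23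
import Pool.Agent.Lib.MP_816dec_an.R1b3K24
import Pool.Agent.Lib.MP_816dec_an.R1b3K25
import Pool.Agent.Lib.MP_816dec_an.R1b3K26
import Pool.Agent.Lib.MP_816dec_an.R1b3K27
import Pool.Agent.Lib.MP_816dec_an.R1b3K28
import Pool.Agent.Lib.MP_816dec_an.R1b3K29

/-!
MP_816dec_an (A3, row R1): the case b = 3.
-/

set_option autoImplicit false

namespace Sok

theorem R1_b3 : R1At 3 := by
  intro p β r hp hr hβ hκ _
  have hp' : IsCoprime (3 : ℤ) p := by exact_mod_cast hp
  rcases le_total (β * r) 0.3 with k0 | k0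
  · exact T3.circ_b3_small hp' hr hβ k0
  rcases le_total (β * r) 0.33 with f1 | k1
  · exact B3_01.circ hp' hβ hr k0 f1
  rcases le_total (β * r) 0.36 with f2 | k2
  · exact B3_02.circ hp' hβ hr k1 f2
  rcases le_total (β * r) 0.38 with f3 | k3
  · exact B3_03.circ hp' hβ hr k2 f3
  rcases le_total (β * r) 0.4 with f4 | k4
  · exact B3_04.circ hp' hβ hr k3 f4
  rcases le_total (β * r) 0.42 with f5 | k5
  · exact B3_05.circ hp' hβ hr k4 f5
  rcases le_total (β * r) 0.44 with f6 | k6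
  · exact B3_06.circ hp' hβ hr k5 f6
  rcases le_total (β * r) 0.46 with f7 | k7
  · exact B3_07.circ hp' hβ hr k6 f7
  rcases le_total (β * r) 0.48 with f8 | k8
  · exact B3_08.circ hp' hβ hr k7 f8
  rcases le_total (β * r) 0.5 with f9 | k9
  · exact B3_09.circ hp' hβ hr k8 f9
  rcases le_total (β * r) 0.53 with f10 | k10
  · exact B3_10.circ hp' hβ hr k9 f10
  rcases le_total (β * r) 0.56 with f11 | k11
  · exact B3_11.circ hp' hβ hr k10 f11
  rcases le_total (β * r) 0.6 with f12 | k12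
  · exact B3_12.circ hp' hβ hr k11 f12
  rcases le_total (β * r) 0.65 with f13 | k13
  · exact B3_13.circ hp' hβ hr k12 f13
  rcases le_total (β * r) 0.7 with f14 | k14
  · exact B3_14.circ hp' hβ hr k13 f14
  rcases le_total (β * r) 0.75 with f15 | k15
  · exact B3_15.circ hp' hβ hr k14 f15
  rcases le_total (β * r) 0.8 with f16 | k16
  · exact B3_16.circ hp' hβ hr k15 f16
  rcases le_total (β * r) 0.85 with f17 | k17
  · exact B3_17.circ hp' hβ hr k16 f17
  rcases le_total (β * r) 0.9 with f18 | k18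
  · exact B3_18.circ hp' hβ hr k17 f18
  rcases le_total (β * r) 0.95 with f19 | k19
  · exact B3_19.circ hp' hβ hr k18 f19
  rcases le_total (β * r) 1 with f20 | k20
  · exact B3_20.circ hp' hβ hr k19 f20
  rcases le_total (β * r) 1.05 with f21 | k21
  · exact B3_21.circ hp' hβ hr k20 f21
  rcases le_total (β * r) 1.1 with f22 | k22
  · exact B3_22.circ hp' hβ hr k21 f22
  rcases le_total (β * r) 1.15 with f23 | k23
  · exact B3_23.circ hp' hβ hr k22 f23
  rcases le_total (β * r) 1.2 with f24 | k24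
  · exact B3_24.circ hp' hβ hr k23 f24
  rcases le_total (β * r) 1.25 with f25 | k25
  · exact B3_25.circ hp' hβ hr k24 f25
  rcases le_total (β * r) 1.3 with f26 | k26
  · exact B3_26.circ hp' hβ hr k25 f26
  rcases le_total (β * r) 1.33 with f27 | k27
  · exact B3_27.circ hp' hβ hr k26 f27
  rcases le_total (β * r) 1.36 with f28 | k28
  · exact B3_28.circ hp' hβ hr k27 f28
  exact B3_29.circ hp' hβ hr k28 hκ

end Sok
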