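import Pool.Agent.Lib.MP_816dec_an.JBG2

/-!
MP_816dec_an (A3, row R1, b = 4): left discs.
-/

set_option autoImplicit false
set_option maxHeartbeats 4000000

open Complex Set

namespace Sok.B4

private theorem dl0_b0_0 {β x y : ℝ} (hβ : 0 < β) (hN : β * 27.777 ≤ 1) (hx1 : 0.1417 ≤ x) (hx2 : x ≤ 0.407)
    (hy1 : -0.448 ≤ y) (hy2 : y ≤ -0.358) : ‖HH β (x + y * I) - 1‖ ≤ 0.2 := by
  refine le_epsJ (C := 5.4285) (N0 := 27.777) (J_boxp 0.1417 0.407 0.448 0 (-0.358) 0.4917 0.6053 0.7602 2.5288 0.3479 5.2704 27.777 1.2311 6.354 1.772 0.85 0.2458 0.1449 0.3496 2.4091 0.1791 0.6961 0.6363 3.3501 0.001086 0.01789 0.00006073 0.0000003101 0.006939 0.0000003101 0.0000003101 0.0000003101 5.4285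
    hβ hN hx1 hx2 hy1 hy2 (by norm_num) (by norm_num) (by linarith) (by norm_num) (by norm_num) (by norm_num) (by norm_num) (by norm_num) (by norm_num) (by norm_num) (by norm_num) (by norm_num) (by norm_num) (by norm_num) (by norm_num) (by norm_num) (by norm_num) (by norm_num) (by norm_num) (by norm_num) (by norm_num) (by norm_num) (by norm_num) (by norm_num)
    (cube_sqrt_geJ (s := 0.7678) (by norm_num) (by norm_num) (by norm_num) (by norm_num))
    (cube_sqrt_geJ (s := 0.9215) (by norm_num) (by norm_num) (by norm_num) (by norm_num))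
    (by norm_num) (by norm_num) (by norm_num) (by norm_num) (by norm_num) (by norm_num) (by norm_num) (by norm_num) (by norm_num) (by norm_num) (by norm_num) (by norm_num) (by norm_num) (by norm_num) (by norm_num) (by norm_num) (by norm_num) (by norm_num)
    (exp_neg_leJ (r := 0.827) 6 (by norm_num) (by norm_num) (by norm_num) (by norm_num))
    (exp_neg_leJ (r := 0.024) 4 (by norm_num) (by norm_num) (by norm_num) (by norm_num))
    (exp_neg_leJ (r := 0.71) 9 (by norm_num) (by norm_num) (by norm_num) (by norm_num))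
    (exp_neg_leJ (r := 0.99) 14 (by norm_num) (by norm_num) (by norm_num) (by norm_num))
    (exp_neg_leJ (r := 0.974) 4 (by norm_num) (by norm_num) (by norm_num) (by norm_num))
    (exp_neg_leJ (r := 0.99) 14 (by norm_num) (by norm_num) (by norm_num) (by norm_num))
    (exp_neg_leJ (r := 0.99) 14 (by norm_num) (by norm_num) (by norm_num) (by norm_num))
    (exp_neg_leJ (r := 0.99) 14 (by norm_num) (by norm_num) (by norm_num) (by norm_num))
    (by norm_num)) (by norm_num) hN hβ.le (by norm_num)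

private theorem dl0_b0_1 {β x y : ℝ} (hβ : 0 < β) (hN : β * 27.777 ≤ 1) (hx1 : 0.137 ≤ x) (hx2 : x ≤ 0.425)
    (hy1 : -0.438 ≤ y) (hy2 : y ≤ -0.333) : ‖HH β (x + y * I) - 1‖ ≤ 0.2 := by
  refine le_epsJ (C := 5.4531) (N0 := 27.777) (J_boxp 0.137 0.425 0.438 0 (-0.333) 0.4955 0.6104 0.7909 2.5498 0.3548 5.2704 27.777 1.2319 6.363 1.773 0.8523 0.2477 0.146 0.3638 2.4336 0.1822 0.6896 0.654 3.3268 0.001031 0.01734 0.00004088 0.0000003101 0.006346 0.0000003101 0.0000003101 0.0000003101 5.4531
    hβ hN hx1 hx2 hy1 hy2 (by norm_num) (by norm_num) (by linarith) (by norm_num) (by norm_num) (by norm_num) (by norm_num) (by norm_num) (by norm_num) (by norm_num) (by norm_num) (by norm_num) (by norm_num) (by norm_num) (by norm_num) (by norm_num) (by norm_num) (by norm_num) (by norm_num) (by norm_num) (by norm_num) (by norm_num) (by norm_num) (by norm_num)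
    (cube_sqrt_geJ (s := 0.7677) (by norm_num) (by norm_num) (by norm_num) (by norm_num))
    (cube_sqrt_geJ (s := 0.9215) (by norm_num) (by norm_num) (by norm_num) (by norm_num))
    (by norm_num) (by norm_num) (by norm_num) (by norm_num) (by norm_num) (by norm_num) (by norm_num) (by norm_num) (by norm_num) (by norm_num) (by norm_num) (by norm_num) (by norm_num) (by norm_num) (by norm_num) (by norm_num) (by norm_num) (by norm_num)
    (exp_neg_leJ (r := 0.88) 6 (by norm_num) (by norm_num) (by norm_num) (by norm_num))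
    (exp_neg_leJ (r := 0.055) 4 (by norm_num) (by norm_num) (by norm_num) (by norm_num))
    (exp_neg_leJ (r := 0.105) 10 (by norm_num) (by norm_num) (by norm_num) (by norm_num))
    (exp_neg_leJ (r := 0.99) 14 (by norm_num) (by norm_num) (by norm_num) (by norm_num))
    (exp_neg_leJ (r := 0.06) 5 (by norm_num) (by norm_num) (by norm_num) (by norm_num))
    (exp_neg_leJ (r := 0.99) 14 (by norm_num) (by norm_num) (by norm_num) (by norm_num))
    (exp_neg_leJ (r := 0.99) 14 (by norm_num) (by norm_num) (by norm_num) (by norm_num))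
    (exp_neg_leJ (r := 0.99) 14 (by norm_num) (by norm_num) (by norm_num) (by norm_num))
    (by norm_num)) (by norm_num) hN hβ.le (by norm_num)

private theorem dl0_b0_2 {β x y : ℝ} (hβ : 0 < β) (hN : β * 27.777 ≤ 1) (hx1 : 0.1258 ≤ x) (hx2 : x ≤ 0.4624)
    (hy1 : -0.413 ≤ y) (hy2 : y ≤ -0.268) : ‖HH β (x + y * I) - 1‖ ≤ 0.2 := by
  refine le_epsJ (C := 5.3969) (N0 := 27.777) (J_boxp 0.1258 0.4624 0.413 0 (-0.268) 0.5053 0.62 0.8659 2.5907 0.3713 5.2704 27.777 1.227 6.303 1.768 0.861 0.2526 0.1493 0.3994 2.4979 0.1905 0.6741 0.6996 3.2783 0.0008975 0.01582 0.00001521 0.0000003101 0.005037 0.0000003101 0.0000003101 0.0000003101 5.3969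
    hβ hN hx1 hx2 hy1 hy2 (by norm_num) (by norm_num) (by linarith) (by norm_num) (by norm_num) (by norm_num) (by norm_num) (by norm_num) (by norm_num) (by norm_num) (by norm_num) (by norm_num) (by norm_num) (by norm_num) (by norm_num) (by norm_num) (by norm_num) (by norm_num) (by norm_num) (by norm_num) (by norm_num) (by norm_num) (by norm_num) (by norm_num)
    (cube_sqrt_geJ (s := 0.7687) (by norm_num) (by norm_num) (by norm_num) (by norm_num))
    (cube_sqrt_geJ (s := 0.9218) (by norm_num) (by norm_num) (by norm_num) (by norm_num))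
    (by norm_num) (by norm_num) (by norm_num) (by norm_num) (by norm_num) (by norm_num) (by norm_num) (by norm_num) (by norm_num) (by norm_num) (by norm_num) (by norm_num) (by norm_num) (by norm_num) (by norm_num) (by norm_num) (by norm_num) (by norm_num)
    (exp_neg_leJ (r := 0.016) 7 (by norm_num) (by norm_num) (by norm_num) (by norm_num))
    (exp_neg_leJ (r := 0.147) 4 (by norm_num) (by norm_num) (by norm_num) (by norm_num))
    (exp_neg_leJ (r := 0.094) 11 (by norm_num) (by norm_num) (by norm_num) (by norm_num))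
    (exp_neg_leJ (r := 0.99) 14 (by norm_num) (by norm_num) (by norm_num) (by norm_num))
    (exp_neg_leJ (r := 0.291) 5 (by norm_num) (by norm_num) (by norm_num) (by norm_num))
    (exp_neg_leJ (r := 0.99) 14 (by norm_num) (by norm_num) (by norm_num) (by norm_num))
    (exp_neg_leJ (r := 0.99) 14 (by norm_num) (by norm_num) (by norm_num) (by norm_num))
    (exp_neg_leJ (r := 0.99) 14 (by norm_num) (by norm_num) (by norm_num) (by norm_num))
    (by norm_num)) (by norm_num) hN hβ.le (by norm_num)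

private theorem dl0_b0_3 {β x y : ℝ} (hβ : 0 < β) (hN : β * 27.777 ≤ 1) (hx1 : 0.1433 ≤ x) (hx2 : x ≤ 0.4964)
    (hy1 : -0.348 ≤ y) (hy2 : y ≤ -0.138) : ‖HH β (x + y * I) - 1‖ ≤ 0.2 := by
  refine le_epsJ (C := 3.0699) (N0 := 27.777) (J_boxp 0.1433 0.4964 0.348 0 (-0.138) 0.5638 0.6063 0.9948 2.3561 0.398 5.2704 27.777 1.0754 4.729 1.64 0.9079 0.2818 0.1808 0.508 2.6952 0.2345 0.6984 0.9113 3.3505 0.0003995 0.006592 0.000000745 0.0000003101 0.001485 0.0000003101 0.0000003101 0.0000003101 3.0699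
    hβ hN hx1 hx2 hy1 hy2 (by norm_num) (by norm_num) (by linarith) (by norm_num) (by norm_num) (by norm_num) (by norm_num) (by norm_num) (by norm_num) (by norm_num) (by norm_num) (by norm_num) (by norm_num) (by norm_num) (by norm_num) (by norm_num) (by norm_num) (by norm_num) (by norm_num) (by norm_num) (by norm_num) (by norm_num) (by norm_num) (by norm_num)
    (cube_sqrt_geJ (s := 0.8009) (by norm_num) (by norm_num) (by norm_num) (by norm_num))
    (cube_sqrt_geJ (s := 0.9318) (by norm_num) (by norm_num) (by norm_num) (by norm_num))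
    (by norm_num) (by norm_num) (by norm_num) (by norm_num) (by norm_num) (by norm_num) (by norm_num) (by norm_num) (by norm_num) (by norm_num) (by norm_num) (by norm_num) (by norm_num) (by norm_num) (by norm_num) (by norm_num) (by norm_num) (by norm_num)
    (exp_neg_leJ (r := 0.827) 7 (by norm_num) (by norm_num) (by norm_num) (by norm_num))
    (exp_neg_leJ (r := 0.022) 5 (by norm_num) (by norm_num) (by norm_num) (by norm_num))
    (exp_neg_leJ (r := 0.11) 14 (by norm_num) (by norm_num) (by norm_num) (by norm_num))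
    (exp_neg_leJ (r := 0.99) 14 (by norm_num) (by norm_num) (by norm_num) (by norm_num))
    (exp_neg_leJ (r := 0.513) 6 (by norm_num) (by norm_num) (by norm_num) (by norm_num))
    (exp_neg_leJ (r := 0.99) 14 (by norm_num) (by norm_num) (by norm_num) (by norm_num))
    (exp_neg_leJ (r := 0.99) 14 (by norm_num) (by norm_num) (by norm_num) (by norm_num))
    (exp_neg_leJ (r := 0.99) 14 (by norm_num) (by norm_num) (by norm_num) (by norm_num))
    (by norm_num)) (by norm_num) hN hβ.le (by norm_num)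

private theorem dl0_c0 {κ t β : ℝ} (h : DomR κ t) (hβ : 0 < β) (hk1 : 0.3 ≤ κ) (hk2 : κ ≤ 0.36)
    (ht1 : -0.8483 ≤ t + κ) (ht2 : t + κ ≤ -0.534) (hR0 : β * 10 ≤ κ) (hR : β * (3.3 * (1 + κ ^ 2)) ≤ κ) :
    ∀ s : ℂ, ‖s - sg κ t‖ ≤ 0.04 → ‖HH β s - 1‖ ≤ 0.2 := by
  have hN : β * 27.777 ≤ 1 := bNR hβ h.1 hk2 hR0 (by norm_num)
  have hy1 : -0.408 ≤ sy κ t := syL_ang2 h 0.3 0.36 0.8483 0.853 0.6577 0.7534 0.408 1.5038 0.66497 hk1 hk2 (by linarith) (by norm_num) (by norm_num) (by norm_num) (by norm_num)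
    (cos_ge_num (by norm_num) (by norm_num)) (sin_le_num (by norm_num) (by norm_num))
    (expn_ge (by norm_num) (by norm_num)) (expm_ge (by norm_num) (by norm_num) (by norm_num) (by norm_num)) (by norm_num) (by norm_num) (by norm_num)
    (by norm_num) (by norm_num) (by norm_num)
  have hy2 : sy κ t ≤ -0.178 := syL_le h 0.3 0.36 0.534 0.178 0.83694 0.83695 0.41382 0.4966 hk1 hk2 (by linarith) (by norm_num) (by norm_num) (by norm_num)
    (expm_ge (by norm_num) (by norm_num) (by norm_num) (by norm_num)) (expm_le (by norm_num) (by norm_num) (by norm_num)) (by norm_num)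
    (by norm_num) (by norm_num) (by norm_num) (by norm_num) (by norm_num) (by norm_num)
  intro s hs
  have hs' : ‖s - ((sx κ t : ℂ) + (sy κ t : ℂ) * I)‖ ≤ 0.04 := hs
  obtain ⟨es, ⟨s1, s2⟩, ⟨s3, s4⟩⟩ := disc_split hs'
  rcases le_total (sy κ t) (-0.398) with f0 | g0
  · have hx1 : 0.1817 ≤ sx κ t := sx_lo h 0.3 (-0.398) 0.408 1.48884 0.1817 hk1 (by norm_num) f0 (abs_le.2 ⟨by linarith, by linarith⟩) (by rw [neg_neg]; exact expn_ge (by norm_num) (by norm_num)) (by norm_num) (by norm_num)
    have hx2 : sx κ t ≤ 0.367 := sx_hi h 0.36 (-0.408) 0.398 1.50381 0.367 hk2 hy1 (by norm_num) (by rw [abs_of_nonpos (by linarith)]; linarith) (by rw [neg_neg]; exact expn_le (by norm_num) (by norm_num) (by norm_num)) (by norm_num) (by norm_num)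
    rw [es]
    exact dl0_b0_0 hβ hN (by linarith) (by linarith) (by linarith) (by linarith)
  rcases le_total (sy κ t) (-0.373) with f1 | g1
  · have hx1 : 0.177 ≤ sx κ t := sx_lo h 0.3 (-0.373) 0.398 1.45208 0.177 hk1 (by norm_num) f1 (abs_le.2 ⟨by linarith, by linarith⟩) (by rw [neg_neg]; exact expn_ge (by norm_num) (by norm_num)) (by norm_num) (by norm_num)
    have hx2 : sx κ t ≤ 0.385 := sx_hi h 0.36 (-0.398) 0.373 1.48885 0.385 hk2 g0 (by norm_num) (by rw [abs_of_nonpos (by linarith)]; linarith) (by rw [neg_neg]; exact expn_le (by norm_num) (by norm_num) (by norm_num)) (by norm_num) (by norm_num)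
    rw [es]
    exact dl0_b0_1 hβ hN (by linarith) (by linarith) (by linarith) (by linarith)
  rcases le_total (sy κ t) (-0.308) with f2 | g2
  · have hx1 : 0.1658 ≤ sx κ t := sx_lo h 0.3 (-0.308) 0.373 1.3607 0.1658 hk1 (by norm_num) f2 (abs_le.2 ⟨by linarith, by linarith⟩) (by rw [neg_neg]; exact expn_ge (by norm_num) (by norm_num)) (by norm_num) (by norm_num)
    have hx2 : sx κ t ≤ 0.4224 := sx_hi h 0.36 (-0.373) 0.308 1.45209 0.4224 hk2 g1 (by norm_num) (by rw [abs_of_nonpos (by linarith)]; linarith) (by rw [neg_neg]; exact expn_le (by norm_num) (by norm_num) (by norm_num)) (by norm_num) (by norm_num)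
    rw [es]
    exact dl0_b0_2 hβ hN (by linarith) (by linarith) (by linarith) (by linarith)
  have hx1 : 0.1833 ≤ sx κ t := sx_lo h 0.3 (-0.178) 0.308 1.19482 0.1833 hk1 (by norm_num) hy2 (abs_le.2 ⟨by linarith, by linarith⟩) (by rw [neg_neg]; exact expn_ge (by norm_num) (by norm_num)) (by norm_num) (by norm_num)
  have hx2 : sx κ t ≤ 0.4564 := sx_hi h 0.36 (-0.308) 0.178 1.36071 0.4564 hk2 g2 (by norm_num) (by rw [abs_of_nonpos (by linarith)]; linarith) (by rw [neg_neg]; exact expn_le (by norm_num) (by norm_num) (by norm_num)) (by norm_num) (by norm_num)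
  rw [es]
  exact dl0_b0_3 hβ hN (by linarith) (by linarith) (by linarith) (by linarith)

theorem dl0 {κ t β : ℝ} (h : DomR κ t) (hβ : 0 < β) (hk1 : 0.3 ≤ κ) (hk2 : κ ≤ 0.36)
    (ht1 : -0.8483 ≤ t + κ) (ht2 : t + κ ≤ -0.534) (hR0 : β * 10 ≤ κ) (hR : β * (3.3 * (1 + κ ^ 2)) ≤ κ) :
    ∀ s : ℂ, ‖s - sg κ t‖ ≤ 0.04 → ‖HH β s - 1‖ ≤ 0.2 := by
  exact dl0_c0 h hβ hk1 hk2 ht1 ht2 hR0 hR

private theorem dl1_b0_0 {β x y : ℝ} (hβ : 0 < β) (hN : β * 23.809 ≤ 1) (hx1 : 0.2864 ≤ x) (hx2 : x ≤ 0.5301)
    (hy1 : -0.502 ≤ y) (hy2 : y ≤ -0.412) : ‖HH β (x + y * I) - 1‖ ≤ 0.25 := by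
  refine le_epsJ (C := 5.7714) (N0 := 23.809) (J_boxp 0.2864 0.5301 0.502 0 (-0.412) 0.5552 0.7301 0.7917 2.1509 0.355 4.8795 23.809 1.3151 7.533 1.849 0.7528 0.2775 0.1559 0.3139 2.168 0.2198 0.8965 0.7789 3.3002 0.001353 0.02448 0.0005684 0.0000003101 0.005338 0.0000003101 0.0000003101 0.0000003101 5.7714
    hβ hN hx1 hx2 hy1 hy2 (by norm_num) (by norm_num) (by linarith) (by norm_num) (by norm_num) (by norm_num) (by norm_num) (by norm_num) (by norm_num) (by norm_num) (by norm_num) (by norm_num) (by norm_num) (by norm_num) (by norm_num) (by norm_num) (by norm_num) (by norm_num) (by norm_num) (by norm_num) (by norm_num) (by norm_num) (by norm_num) (by norm_num)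
    (cube_sqrt_geJ (s := 0.7494) (by norm_num) (by norm_num) (by norm_num) (by norm_num))
    (cube_sqrt_geJ (s := 0.9159) (by norm_num) (by norm_num) (by norm_num) (by norm_num))
    (by norm_num) (by norm_num) (by norm_num) (by norm_num) (by norm_num) (by norm_num) (by norm_num) (by norm_num) (by norm_num) (by norm_num) (by norm_num) (by norm_num) (by norm_num) (by norm_num) (by norm_num) (by norm_num) (by norm_num) (by norm_num)
    (exp_neg_leJ (r := 0.606) 6 (by norm_num) (by norm_num) (by norm_num) (by norm_num))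
    (exp_neg_leJ (r := 0.711) 3 (by norm_num) (by norm_num) (by norm_num) (by norm_num))
    (exp_neg_leJ (r := 0.473) 7 (by norm_num) (by norm_num) (by norm_num) (by norm_num))
    (exp_neg_leJ (r := 0.99) 14 (by norm_num) (by norm_num) (by norm_num) (by norm_num))
    (exp_neg_leJ (r := 0.233) 5 (by norm_num) (by norm_num) (by norm_num) (by norm_num))
    (exp_neg_leJ (r := 0.99) 14 (by norm_num) (by norm_num) (by norm_num) (by norm_num))
    (exp_neg_leJ (r := 0.99) 14 (by norm_num) (by norm_num) (by norm_num) (by norm_num))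
    (exp_neg_leJ (r := 0.99) 14 (by norm_num) (by norm_num) (by norm_num) (by norm_num))
    (by norm_num)) (by norm_num) hN hβ.le (by norm_num)

private theorem dl1_b0_1 {β x y : ℝ} (hβ : 0 < β) (hN : β * 23.809 ≤ 1) (hx1 : 0.2764 ≤ x) (hx2 : x ≤ 0.5433)
    (hy1 : -0.492 ≤ y) (hy2 : y ≤ -0.387) : ‖HH β (x + y * I) - 1‖ ≤ 0.25 := by
  refine le_epsJ (C := 5.9468) (N0 := 23.809) (J_boxp 0.2764 0.5433 0.492 0 (-0.387) 0.5553 0.733 0.8192 2.1873 0.3611 4.8795 23.809 1.3201 7.611 1.854 0.757 0.2776 0.1554 0.3262 2.1945 0.2205 0.8827 0.786 3.2723 0.001349 0.02477 0.0004245 0.0000003101 0.005253 0.0000003101 0.0000003101 0.0000003101 5.9468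
    hβ hN hx1 hx2 hy1 hy2 (by norm_num) (by norm_num) (by linarith) (by norm_num) (by norm_num) (by norm_num) (by norm_num) (by norm_num) (by norm_num) (by norm_num) (by norm_num) (by norm_num) (by norm_num) (by norm_num) (by norm_num) (by norm_num) (by norm_num) (by norm_num) (by norm_num) (by norm_num) (by norm_num) (by norm_num) (by norm_num) (by norm_num)
    (cube_sqrt_geJ (s := 0.7483) (by norm_num) (by norm_num) (by norm_num) (by norm_num))
    (cube_sqrt_geJ (s := 0.9156) (by norm_num) (by norm_num) (by norm_num) (by norm_num))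
    (by norm_num) (by norm_num) (by norm_num) (by norm_num) (by norm_num) (by norm_num) (by norm_num) (by norm_num) (by norm_num) (by norm_num) (by norm_num) (by norm_num) (by norm_num) (by norm_num) (by norm_num) (by norm_num) (by norm_num) (by norm_num)
    (exp_neg_leJ (r := 0.609) 6 (by norm_num) (by norm_num) (by norm_num) (by norm_num))
    (exp_neg_leJ (r := 0.699) 3 (by norm_num) (by norm_num) (by norm_num) (by norm_num))
    (exp_neg_leJ (r := 0.766) 7 (by norm_num) (by norm_num) (by norm_num) (by norm_num))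
    (exp_neg_leJ (r := 0.99) 14 (by norm_num) (by norm_num) (by norm_num) (by norm_num))
    (exp_neg_leJ (r := 0.249) 5 (by norm_num) (by norm_num) (by norm_num) (by norm_num))
    (exp_neg_leJ (r := 0.99) 14 (by norm_num) (by norm_num) (by norm_num) (by norm_num))
    (exp_neg_leJ (r := 0.99) 14 (by norm_num) (by norm_num) (by norm_num) (by norm_num))
    (exp_neg_leJ (r := 0.99) 14 (by norm_num) (by norm_num) (by norm_num) (by norm_num))
    (by norm_num)) (by norm_num) hN hβ.le (by norm_num)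

private theorem dl1_b0_2 {β x y : ℝ} (hβ : 0 < β) (hN : β * 23.809 ≤ 1) (hx1 : 0.2606 ≤ x) (hx2 : x ≤ 0.5654)
    (hy1 : -0.467 ≤ y) (hy2 : y ≤ -0.332) : ‖HH β (x + y * I) - 1‖ ≤ 0.25 := by
  refine le_epsJ (C := 5.765) (N0 := 23.809) (J_boxp 0.2606 0.5654 0.467 0 (-0.332) 0.5619 0.7334 0.8752 2.2211 0.3733 4.8795 23.809 1.3053 7.382 1.84 0.7715 0.2809 0.1587 0.3603 2.2661 0.2264 0.8608 0.8224 3.2396 0.001248 0.0229 0.0001883 0.0000003101 0.004563 0.0000003101 0.0000003101 0.0000003101 5.765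
    hβ hN hx1 hx2 hy1 hy2 (by norm_num) (by norm_num) (by linarith) (by norm_num) (by norm_num) (by norm_num) (by norm_num) (by norm_num) (by norm_num) (by norm_num) (by norm_num) (by norm_num) (by norm_num) (by norm_num) (by norm_num) (by norm_num) (by norm_num) (by norm_num) (by norm_num) (by norm_num) (by norm_num) (by norm_num) (by norm_num) (by norm_num)
    (cube_sqrt_geJ (s := 0.7515) (by norm_num) (by norm_num) (by norm_num) (by norm_num))
    (cube_sqrt_geJ (s := 0.9166) (by norm_num) (by norm_num) (by norm_num) (by norm_num))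
    (by norm_num) (by norm_num) (by norm_num) (by norm_num) (by norm_num) (by norm_num) (by norm_num) (by norm_num) (by norm_num) (by norm_num) (by norm_num) (by norm_num) (by norm_num) (by norm_num) (by norm_num) (by norm_num) (by norm_num) (by norm_num)
    (exp_neg_leJ (r := 0.687) 6 (by norm_num) (by norm_num) (by norm_num) (by norm_num))
    (exp_neg_leJ (r := 0.778) 3 (by norm_num) (by norm_num) (by norm_num) (by norm_num))
    (exp_neg_leJ (r := 0.578) 8 (by norm_num) (by norm_num) (by norm_num) (by norm_num))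
    (exp_neg_leJ (r := 0.99) 14 (by norm_num) (by norm_num) (by norm_num) (by norm_num))
    (exp_neg_leJ (r := 0.39) 5 (by norm_num) (by norm_num) (by norm_num) (by norm_num))
    (exp_neg_leJ (r := 0.99) 14 (by norm_num) (by norm_num) (by norm_num) (by norm_num))
    (exp_neg_leJ (r := 0.99) 14 (by norm_num) (by norm_num) (by norm_num) (by norm_num))
    (exp_neg_leJ (r := 0.99) 14 (by norm_num) (by norm_num) (by norm_num) (by norm_num))
    (by norm_num)) (by norm_num) hN hβ.le (by norm_num)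

private theorem dl1_b0_3 {β x y : ℝ} (hβ : 0 < β) (hN : β * 23.809 ≤ 1) (hx1 : 0.2122 ≤ x) (hx2 : x ≤ 0.6074)
    (hy1 : -0.412 ≤ y) (hy2 : y ≤ -0.182) : ‖HH β (x + y * I) - 1‖ ≤ 0.25 := by
  refine le_epsJ (C := 5.9328) (N0 := 23.809) (J_boxp 0.2122 0.6074 0.412 0 (-0.182) 0.5669 0.734 1.0189 2.3649 0.4027 4.8795 23.809 1.2948 7.224 1.83 0.8061 0.2834 0.1611 0.4305 2.4256 0.233 0.7938 0.8751 3.1412 0.001176 0.02164 0.0000354 0.0000003101 0.003901 0.0000003101 0.0000003101 0.0000003101 5.9328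
    hβ hN hx1 hx2 hy1 hy2 (by norm_num) (by norm_num) (by linarith) (by norm_num) (by norm_num) (by norm_num) (by norm_num) (by norm_num) (by norm_num) (by norm_num) (by norm_num) (by norm_num) (by norm_num) (by norm_num) (by norm_num) (by norm_num) (by norm_num) (by norm_num) (by norm_num) (by norm_num) (by norm_num) (by norm_num) (by norm_num) (by norm_num)
    (cube_sqrt_geJ (s := 0.7539) (by norm_num) (by norm_num) (by norm_num) (by norm_num))
    (cube_sqrt_geJ (s := 0.9173) (by norm_num) (by norm_num) (by norm_num) (by norm_num))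
    (by norm_num) (by norm_num) (by norm_num) (by norm_num) (by norm_num) (by norm_num) (by norm_num) (by norm_num) (by norm_num) (by norm_num) (by norm_num) (by norm_num) (by norm_num) (by norm_num) (by norm_num) (by norm_num) (by norm_num) (by norm_num)
    (exp_neg_leJ (r := 0.747) 6 (by norm_num) (by norm_num) (by norm_num) (by norm_num))
    (exp_neg_leJ (r := 0.835) 3 (by norm_num) (by norm_num) (by norm_num) (by norm_num))
    (exp_neg_leJ (r := 0.249) 10 (by norm_num) (by norm_num) (by norm_num) (by norm_num))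
    (exp_neg_leJ (r := 0.99) 14 (by norm_num) (by norm_num) (by norm_num) (by norm_num))
    (exp_neg_leJ (r := 0.547) 5 (by norm_num) (by norm_num) (by norm_num) (by norm_num))
    (exp_neg_leJ (r := 0.99) 14 (by norm_num) (by norm_num) (by norm_num) (by norm_num))
    (exp_neg_leJ (r := 0.99) 14 (by norm_num) (by norm_num) (by norm_num) (by norm_num))
    (exp_neg_leJ (r := 0.99) 14 (by norm_num) (by norm_num) (by norm_num) (by norm_num))
    (by norm_num)) (by norm_num) hN hβ.le (by norm_num)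

private theorem dl1_b0_4 {β x y : ℝ} (hβ : 0 < β) (hN : β * 23.809 ≤ 1) (hx1 : 0.3461 ≤ x) (hx2 : x ≤ 0.5192)
    (hy1 : -0.262 ≤ y) (hy2 : y ≤ -0.173) : ‖HH β (x + y * I) - 1‖ ≤ 0.25 := by
  refine le_epsJ (C := 0.7211) (N0 := 23.809) (J_boxp 0.3461 0.5192 0.262 0 (-0.173) 0.7677 0.5816 0.9765 1.4691 0.3943 4.8795 23.809 0.7576 2.77 1.407 0.9785 0.3838 0.2869 0.7131 2.9647 0.38 0.9792 1.5507 3.8233 0.0001077 0.001083 0.0000003101 0.0000003101 0.0001178 0.0000003101 0.0000003101 0.0000003101 0.7211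
    hβ hN hx1 hx2 hy1 hy2 (by norm_num) (by norm_num) (by linarith) (by norm_num) (by norm_num) (by norm_num) (by norm_num) (by norm_num) (by norm_num) (by norm_num) (by norm_num) (by norm_num) (by norm_num) (by norm_num) (by norm_num) (by norm_num) (by norm_num) (by norm_num) (by norm_num) (by norm_num) (by norm_num) (by norm_num) (by norm_num) (by norm_num)
    (cube_sqrt_geJ (s := 0.8645) (by norm_num) (by norm_num) (by norm_num) (by norm_num))
    (cube_sqrt_geJ (s := 0.9524) (by norm_num) (by norm_num) (by norm_num) (by norm_num))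
    (by norm_num) (by norm_num) (by norm_num) (by norm_num) (by norm_num) (by norm_num) (by norm_num) (by norm_num) (by norm_num) (by norm_num) (by norm_num) (by norm_num) (by norm_num) (by norm_num) (by norm_num) (by norm_num) (by norm_num) (by norm_num)
    (exp_neg_leJ (r := 0.137) 9 (by norm_num) (by norm_num) (by norm_num) (by norm_num))
    (exp_neg_leJ (r := 0.83) 6 (by norm_num) (by norm_num) (by norm_num) (by norm_num))
    (exp_neg_leJ (r := 0.99) 14 (by norm_num) (by norm_num) (by norm_num) (by norm_num))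
    (exp_neg_leJ (r := 0.99) 14 (by norm_num) (by norm_num) (by norm_num) (by norm_num))
    (exp_neg_leJ (r := 0.047) 9 (by norm_num) (by norm_num) (by norm_num) (by norm_num))
    (exp_neg_leJ (r := 0.99) 14 (by norm_num) (by norm_num) (by norm_num) (by norm_num))
    (exp_neg_leJ (r := 0.99) 14 (by norm_num) (by norm_num) (by norm_num) (by norm_num))
    (exp_neg_leJ (r := 0.99) 14 (by norm_num) (by norm_num) (by norm_num) (by norm_num))
    (by norm_num)) (by norm_num) hN hβ.le (by norm_num)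

private theorem dl1_c0 {κ t β : ℝ} (h : DomR κ t) (hβ : 0 < β) (hk1 : 0.36 ≤ κ) (hk2 : κ ≤ 0.42)
    (ht1 : -0.8169 ≤ t + κ) (ht2 : t + κ ≤ -0.534) (hR0 : β * 10 ≤ κ) (hR : β * (3.3 * (1 + κ ^ 2)) ≤ κ) :
    ∀ s : ℂ, ‖s - sg κ t‖ ≤ 0.04 → ‖HH β s - 1‖ ≤ 0.25 := by
  have hN : β * 23.809 ≤ 1 := bNR hβ h.1 hk2 hR0 (by norm_num)
  have hy1 : -0.462 ≤ sy κ t := syL_ang2 h 0.36 0.42 0.8169 0.765 0.7213 0.6926 0.462 1.58724 0.63002 hk1 hk2 (by linarith) (by norm_num) (by norm_num) (by norm_num) (by norm_num)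
    (cos_ge_num (by norm_num) (by norm_num)) (sin_le_num (by norm_num) (by norm_num))
    (expn_ge (by norm_num) (by norm_num)) (expm_ge (by norm_num) (by norm_num) (by norm_num) (by norm_num)) (by norm_num) (by norm_num) (by norm_num)
    (by norm_num) (by norm_num) (by norm_num)
  have hy2 : sy κ t ≤ -0.213 := syL_le h 0.36 0.42 0.534 0.213 0.80815 0.80816 0.40984 0.47817 hk1 hk2 (by linarith) (by norm_num) (by norm_num) (by norm_num)
    (expm_ge (by norm_num) (by norm_num) (by norm_num) (by norm_num)) (expm_le (by norm_num) (by norm_num) (by norm_num)) (by norm_num)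
    (by norm_num) (by norm_num) (by norm_num) (by norm_num) (by norm_num) (by norm_num)
  intro s hs
  have hs' : ‖s - ((sx κ t : ℂ) + (sy κ t : ℂ) * I)‖ ≤ 0.04 := hs
  obtain ⟨es, ⟨s1, s2⟩, ⟨s3, s4⟩⟩ := disc_split hs'
  rcases le_total (sy κ t) (-0.452) with f0 | g0
  · have hx1 : 0.3264 ≤ sx κ t := sx_lo h 0.36 (-0.452) 0.462 1.57145 0.3264 hk1 (by norm_num) f0 (abs_le.2 ⟨by linarith, by linarith⟩) (by rw [neg_neg]; exact expn_ge (by norm_num) (by norm_num)) (by norm_num) (by norm_num)
    have hx2 : sx κ t ≤ 0.4901 := sx_hi h 0.42 (-0.462) 0.452 1.58725 0.4901 hk2 hy1 (by norm_num) (by rw [abs_of_nonpos (by linarith)]; linarith) (by rw [neg_neg]; exact expn_le (by norm_num) (by norm_num) (by norm_num)) (by norm_num) (by norm_num)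
    rw [es]
    exact dl1_b0_0 hβ hN (by linarith) (by linarith) (by linarith) (by linarith)
  rcases le_total (sy κ t) (-0.427) with f1 | g1
  · have hx1 : 0.3164 ≤ sx κ t := sx_lo h 0.36 (-0.427) 0.452 1.53265 0.3164 hk1 (by norm_num) f1 (abs_le.2 ⟨by linarith, by linarith⟩) (by rw [neg_neg]; exact expn_ge (by norm_num) (by norm_num)) (by norm_num) (by norm_num)
    have hx2 : sx κ t ≤ 0.5033 := sx_hi h 0.42 (-0.452) 0.427 1.57146 0.5033 hk2 g0 (by norm_num) (by rw [abs_of_nonpos (by linarith)]; linarith) (by rw [neg_neg]; exact expn_le (by norm_num) (by norm_num) (by norm_num)) (by norm_num) (by norm_num)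
    rw [es]
    exact dl1_b0_1 hβ hN (by linarith) (by linarith) (by linarith) (by linarith)
  rcases le_total (sy κ t) (-0.372) with f2 | g2
  · have hx1 : 0.3006 ≤ sx κ t := sx_lo h 0.36 (-0.372) 0.427 1.45063 0.3006 hk1 (by norm_num) f2 (abs_le.2 ⟨by linarith, by linarith⟩) (by rw [neg_neg]; exact expn_ge (by norm_num) (by norm_num)) (by norm_num) (by norm_num)
    have hx2 : sx κ t ≤ 0.5254 := sx_hi h 0.42 (-0.427) 0.372 1.53266 0.5254 hk2 g1 (by norm_num) (by rw [abs_of_nonpos (by linarith)]; linarith) (by rw [neg_neg]; exact expn_le (by norm_num) (by norm_num) (by norm_num)) (by norm_num) (by norm_num)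
    rw [es]
    exact dl1_b0_2 hβ hN (by linarith) (by linarith) (by linarith) (by linarith)
  rcases le_total (sy κ t) (-0.222) with f3 | g3
  · have hx1 : 0.2522 ≤ sx κ t := sx_lo h 0.36 (-0.222) 0.372 1.24857 0.2522 hk1 (by norm_num) f3 (abs_le.2 ⟨by linarith, by linarith⟩) (by rw [neg_neg]; exact expn_ge (by norm_num) (by norm_num)) (by norm_num) (by norm_num)
    have hx2 : sx κ t ≤ 0.5674 := sx_hi h 0.42 (-0.372) 0.222 1.45064 0.5674 hk2 g2 (by norm_num) (by rw [abs_of_nonpos (by linarith)]; linarith) (by rw [neg_neg]; exact expn_le (by norm_num) (by norm_num) (by norm_num)) (by norm_num) (by norm_num)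
    rw [es]
    exact dl1_b0_3 hβ hN (by linarith) (by linarith) (by linarith) (by linarith)
  have hx1 : 0.3861 ≤ sx κ t := sx_lo h 0.36 (-0.213) 0.222 1.23738 0.3861 hk1 (by norm_num) hy2 (abs_le.2 ⟨by linarith, by linarith⟩) (by rw [neg_neg]; exact expn_ge (by norm_num) (by norm_num)) (by norm_num) (by norm_num)
  have hx2 : sx κ t ≤ 0.4792 := sx_hi h 0.42 (-0.222) 0.213 1.24858 0.4792 hk2 g3 (by norm_num) (by rw [abs_of_nonpos (by linarith)]; linarith) (by rw [neg_neg]; exact expn_le (by norm_num) (by norm_num) (by norm_num)) (by norm_num) (by norm_num)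
  rw [es]
  exact dl1_b0_4 hβ hN (by linarith) (by linarith) (by linarith) (by linarith)

theorem dl1 {κ t β : ℝ} (h : DomR κ t) (hβ : 0 < β) (hk1 : 0.36 ≤ κ) (hk2 : κ ≤ 0.42)
    (ht1 : -0.8169 ≤ t + κ) (ht2 : t + κ ≤ -0.534) (hR0 : β * 10 ≤ κ) (hR : β * (3.3 * (1 + κ ^ 2)) ≤ κ) :
    ∀ s : ℂ, ‖s - sg κ t‖ ≤ 0.04 → ‖HH β s - 1‖ ≤ 0.25 := by
  exact dl1_c0 h hβ hk1 hk2 ht1 ht2 hR0 hR

private theorem dl2_b0_0 {β x y : ℝ} (hβ : 0 < β) (hN : β * 21.505 ≤ 1) (hx1 : 0.4347 ≤ x) (hx2 : x ≤ 0.6234)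
    (hy1 : -0.527 ≤ y) (hy2 : y ≤ -0.442) : ‖HH β (x + y * I) - 1‖ ≤ 0.2 := by
  refine le_epsJ (C := 4.1413) (N0 := 21.505) (J_boxp 0.4347 0.6234 0.527 0 (-0.442) 0.6419 0.8164 0.8367 1.7787 0.365 4.6374 21.505 1.2719 6.895 1.809 0.6938 0.3209 0.1848 0.3252 2.0375 0.2782 1.1018 1.0075 3.3622 0.001011 0.01887 0.0009243 0.0000003101 0.002533 0.0000003101 0.0000003101 0.0000003101 4.1413
    hβ hN hx1 hx2 hy1 hy2 (by norm_num) (by norm_num) (by linarith) (by norm_num) (by norm_num) (by norm_num) (by norm_num) (by norm_num) (by norm_num) (by norm_num) (by norm_num) (by norm_num) (by norm_num) (by norm_num) (by norm_num) (by norm_num) (by norm_num) (by norm_num) (by norm_num) (by norm_num) (by norm_num) (by norm_num) (by norm_num) (by norm_num)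
    (cube_sqrt_geJ (s := 0.7589) (by norm_num) (by norm_num) (by norm_num) (by norm_num))
    (cube_sqrt_geJ (s := 0.9188) (by norm_num) (by norm_num) (by norm_num) (by norm_num))
    (by norm_num) (by norm_num) (by norm_num) (by norm_num) (by norm_num) (by norm_num) (by norm_num) (by norm_num) (by norm_num) (by norm_num) (by norm_num) (by norm_num) (by norm_num) (by norm_num) (by norm_num) (by norm_num) (by norm_num) (by norm_num)
    (exp_neg_leJ (r := 0.9) 6 (by norm_num) (by norm_num) (by norm_num) (by norm_num))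
    (exp_neg_leJ (r := 0.974) 3 (by norm_num) (by norm_num) (by norm_num) (by norm_num))
    (exp_neg_leJ (r := 0.99) 6 (by norm_num) (by norm_num) (by norm_num) (by norm_num))
    (exp_neg_leJ (r := 0.99) 14 (by norm_num) (by norm_num) (by norm_num) (by norm_num))
    (exp_neg_leJ (r := 0.982) 5 (by norm_num) (by norm_num) (by norm_num) (by norm_num))
    (exp_neg_leJ (r := 0.99) 14 (by norm_num) (by norm_num) (by norm_num) (by norm_num))
    (exp_neg_leJ (r := 0.99) 14 (by norm_num) (by norm_num) (by norm_num) (by norm_num))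
    (exp_neg_leJ (r := 0.99) 14 (by norm_num) (by norm_num) (by norm_num) (by norm_num))
    (by norm_num)) (by norm_num) hN hβ.le (by norm_num)

private theorem dl2_b0_1 {β x y : ℝ} (hβ : 0 < β) (hN : β * 21.505 ≤ 1) (hx1 : 0.4301 ≤ x) (hx2 : x ≤ 0.6267)
    (hy1 : -0.522 ≤ y) (hy2 : y ≤ -0.432) : ‖HH β (x + y * I) - 1‖ ≤ 0.2 := by
  refine le_epsJ (C := 4.1402) (N0 := 21.505) (J_boxp 0.4301 0.6267 0.522 0 (-0.432) 0.6422 0.8157 0.8458 1.7871 0.3669 4.6374 21.505 1.2702 6.871 1.808 0.6972 0.321 0.1851 0.3315 2.0523 0.2787 1.0955 1.0119 3.3549 0.001008 0.01875 0.0008024 0.0000003101 0.002513 0.0000003101 0.0000003101 0.0000003101 4.1402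
    hβ hN hx1 hx2 hy1 hy2 (by norm_num) (by norm_num) (by linarith) (by norm_num) (by norm_num) (by norm_num) (by norm_num) (by norm_num) (by norm_num) (by norm_num) (by norm_num) (by norm_num) (by norm_num) (by norm_num) (by norm_num) (by norm_num) (by norm_num) (by norm_num) (by norm_num) (by norm_num) (by norm_num) (by norm_num) (by norm_num) (by norm_num)
    (cube_sqrt_geJ (s := 0.7593) (by norm_num) (by norm_num) (by norm_num) (by norm_num))
    (cube_sqrt_geJ (s := 0.9189) (by norm_num) (by norm_num) (by norm_num) (by norm_num))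
    (by norm_num) (by norm_num) (by norm_num) (by norm_num) (by norm_num) (by norm_num) (by norm_num) (by norm_num) (by norm_num) (by norm_num) (by norm_num) (by norm_num) (by norm_num) (by norm_num) (by norm_num) (by norm_num) (by norm_num) (by norm_num)
    (exp_neg_leJ (r := 0.903) 6 (by norm_num) (by norm_num) (by norm_num) (by norm_num))
    (exp_neg_leJ (r := 0.98) 3 (by norm_num) (by norm_num) (by norm_num) (by norm_num))
    (exp_neg_leJ (r := 0.128) 7 (by norm_num) (by norm_num) (by norm_num) (by norm_num))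
    (exp_neg_leJ (r := 0.99) 14 (by norm_num) (by norm_num) (by norm_num) (by norm_num))
    (exp_neg_leJ (r := 0.99) 5 (by norm_num) (by norm_num) (by norm_num) (by norm_num))
    (exp_neg_leJ (r := 0.99) 14 (by norm_num) (by norm_num) (by norm_num) (by norm_num))
    (exp_neg_leJ (r := 0.99) 14 (by norm_num) (by norm_num) (by norm_num) (by norm_num))
    (exp_neg_leJ (r := 0.99) 14 (by norm_num) (by norm_num) (by norm_num) (by norm_num))
    (by norm_num)) (by norm_num) hN hβ.le (by norm_num)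

private theorem dl2_b0_2 {β x y : ℝ} (hβ : 0 < β) (hN : β * 21.505 ≤ 1) (hx1 : 0.4213 ≤ x) (hx2 : x ≤ 0.6329)
    (hy1 : -0.512 ≤ y) (hy2 : y ≤ -0.412) : ‖HH β (x + y * I) - 1‖ ≤ 0.2 := by
  refine le_epsJ (C := 4.1259) (N0 := 21.505) (J_boxp 0.4213 0.6329 0.512 0 (-0.412) 0.6431 0.8141 0.8639 1.8023 0.3709 4.6374 21.505 1.2659 6.812 1.804 0.704 0.3215 0.1858 0.3443 2.0822 0.2799 1.0833 1.0215 3.3417 0.0009973 0.01857 0.0006089 0.0000003101 0.002433 0.0000003101 0.0000003101 0.0000003101 4.1259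
    hβ hN hx1 hx2 hy1 hy2 (by norm_num) (by norm_num) (by linarith) (by norm_num) (by norm_num) (by norm_num) (by norm_num) (by norm_num) (by norm_num) (by norm_num) (by norm_num) (by norm_num) (by norm_num) (by norm_num) (by norm_num) (by norm_num) (by norm_num) (by norm_num) (by norm_num) (by norm_num) (by norm_num) (by norm_num) (by norm_num) (by norm_num)
    (cube_sqrt_geJ (s := 0.7602) (by norm_num) (by norm_num) (by norm_num) (by norm_num))
    (cube_sqrt_geJ (s := 0.9192) (by norm_num) (by norm_num) (by norm_num) (by norm_num))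
    (by norm_num) (by norm_num) (by norm_num) (by norm_num) (by norm_num) (by norm_num) (by norm_num) (by norm_num) (by norm_num) (by norm_num) (by norm_num) (by norm_num) (by norm_num) (by norm_num) (by norm_num) (by norm_num) (by norm_num) (by norm_num)
    (exp_neg_leJ (r := 0.913) 6 (by norm_num) (by norm_num) (by norm_num) (by norm_num))
    (exp_neg_leJ (r := 0.99) 3 (by norm_num) (by norm_num) (by norm_num) (by norm_num))
    (exp_neg_leJ (r := 0.404) 7 (by norm_num) (by norm_num) (by norm_num) (by norm_num))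
    (exp_neg_leJ (r := 0.99) 14 (by norm_num) (by norm_num) (by norm_num) (by norm_num))
    (exp_neg_leJ (r := 0.019) 6 (by norm_num) (by norm_num) (by norm_num) (by norm_num))
    (exp_neg_leJ (r := 0.99) 14 (by norm_num) (by norm_num) (by norm_num) (by norm_num))
    (exp_neg_leJ (r := 0.99) 14 (by norm_num) (by norm_num) (by norm_num) (by norm_num))
    (exp_neg_leJ (r := 0.99) 14 (by norm_num) (by norm_num) (by norm_num) (by norm_num))
    (by norm_num)) (by norm_num) hN hβ.le (by norm_num)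

private theorem dl2_b0_3 {β x y : ℝ} (hβ : 0 < β) (hN : β * 21.505 ≤ 1) (hx1 : 0.4002 ≤ x) (hx2 : x ≤ 0.6469)
    (hy1 : -0.492 ≤ y) (hy2 : y ≤ -0.367) : ‖HH β (x + y * I) - 1‖ ≤ 0.2 := by
  refine le_epsJ (C := 4.2181) (N0 := 21.505) (J_boxp 0.4002 0.6469 0.492 0 (-0.367) 0.6425 0.8128 0.9051 1.8474 0.3796 4.6374 21.505 1.2651 6.8 1.803 0.7171 0.3212 0.1857 0.3686 2.1411 0.2806 1.0541 1.0336 3.303 0.001004 0.01857 0.0003622 0.0000003101 0.002396 0.0000003101 0.0000003101 0.0000003101 4.2181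
    hβ hN hx1 hx2 hy1 hy2 (by norm_num) (by norm_num) (by linarith) (by norm_num) (by norm_num) (by norm_num) (by norm_num) (by norm_num) (by norm_num) (by norm_num) (by norm_num) (by norm_num) (by norm_num) (by norm_num) (by norm_num) (by norm_num) (by norm_num) (by norm_num) (by norm_num) (by norm_num) (by norm_num) (by norm_num) (by norm_num) (by norm_num)
    (cube_sqrt_geJ (s := 0.7604) (by norm_num) (by norm_num) (by norm_num) (by norm_num))
    (cube_sqrt_geJ (s := 0.9192) (by norm_num) (by norm_num) (by norm_num) (by norm_num))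
    (by norm_num) (by norm_num) (by norm_num) (by norm_num) (by norm_num) (by norm_num) (by norm_num) (by norm_num) (by norm_num) (by norm_num) (by norm_num) (by norm_num) (by norm_num) (by norm_num) (by norm_num) (by norm_num) (by norm_num) (by norm_num)
    (exp_neg_leJ (r := 0.907) 6 (by norm_num) (by norm_num) (by norm_num) (by norm_num))
    (exp_neg_leJ (r := 0.99) 3 (by norm_num) (by norm_num) (by norm_num) (by norm_num))
    (exp_neg_leJ (r := 0.926) 7 (by norm_num) (by norm_num) (by norm_num) (by norm_num))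
    (exp_neg_leJ (r := 0.99) 14 (by norm_num) (by norm_num) (by norm_num) (by norm_num))
    (exp_neg_leJ (r := 0.034) 6 (by norm_num) (by norm_num) (by norm_num) (by norm_num))
    (exp_neg_leJ (r := 0.99) 14 (by norm_num) (by norm_num) (by norm_num) (by norm_num))
    (exp_neg_leJ (r := 0.99) 14 (by norm_num) (by norm_num) (by norm_num) (by norm_num))
    (exp_neg_leJ (r := 0.99) 14 (by norm_num) (by norm_num) (by norm_num) (by norm_num))
    (by norm_num)) (by norm_num) hN hβ.le (by norm_num)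

private theorem dl2_b0_4 {β x y : ℝ} (hβ : 0 < β) (hN : β * 21.505 ≤ 1) (hx1 : 0.3563 ≤ x) (hx2 : x ≤ 0.67)
    (hy1 : -0.447 ≤ y) (hy2 : y ≤ -0.262) : ‖HH β (x + y * I) - 1‖ ≤ 0.2 := by
  refine le_epsJ (C := 4.2498) (N0 := 21.505) (J_boxp 0.3563 0.67 0.447 0 (-0.262) 0.6435 0.8055 0.9968 1.9342 0.3984 4.6374 21.505 1.2518 6.621 1.791 0.7498 0.3217 0.1874 0.4246 2.2772 0.2838 0.9933 1.0682 3.2351 0.0009924 0.01778 0.0001083 0.0000003101 0.002237 0.0000003101 0.0000003101 0.0000003101 4.2498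
    hβ hN hx1 hx2 hy1 hy2 (by norm_num) (by norm_num) (by linarith) (by norm_num) (by norm_num) (by norm_num) (by norm_num) (by norm_num) (by norm_num) (by norm_num) (by norm_num) (by norm_num) (by norm_num) (by norm_num) (by norm_num) (by norm_num) (by norm_num) (by norm_num) (by norm_num) (by norm_num) (by norm_num) (by norm_num) (by norm_num) (by norm_num)
    (cube_sqrt_geJ (s := 0.7633) (by norm_num) (by norm_num) (by norm_num) (by norm_num))
    (cube_sqrt_geJ (s := 0.9201) (by norm_num) (by norm_num) (by norm_num) (by norm_num))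
    (by norm_num) (by norm_num) (by norm_num) (by norm_num) (by norm_num) (by norm_num) (by norm_num) (by norm_num) (by norm_num) (by norm_num) (by norm_num) (by norm_num) (by norm_num) (by norm_num) (by norm_num) (by norm_num) (by norm_num) (by norm_num)
    (exp_neg_leJ (r := 0.918) 6 (by norm_num) (by norm_num) (by norm_num) (by norm_num))
    (exp_neg_leJ (r := 0.03) 4 (by norm_num) (by norm_num) (by norm_num) (by norm_num))
    (exp_neg_leJ (r := 0.131) 9 (by norm_num) (by norm_num) (by norm_num) (by norm_num))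
    (exp_neg_leJ (r := 0.99) 14 (by norm_num) (by norm_num) (by norm_num) (by norm_num))
    (exp_neg_leJ (r := 0.103) 6 (by norm_num) (by norm_num) (by norm_num) (by norm_num))
    (exp_neg_leJ (r := 0.99) 14 (by norm_num) (by norm_num) (by norm_num) (by norm_num))
    (exp_neg_leJ (r := 0.99) 14 (by norm_num) (by norm_num) (by norm_num) (by norm_num))
    (exp_neg_leJ (r := 0.99) 14 (by norm_num) (by norm_num) (by norm_num) (by norm_num))
    (by norm_num)) (by norm_num) hN hβ.le (by norm_num)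

private theorem dl2_b0_5 {β x y : ℝ} (hβ : 0 < β) (hN : β * 21.505 ≤ 1) (hx1 : 0.4035 ≤ x) (hx2 : x ≤ 0.6193)
    (hy1 : -0.342 ≤ y) (hy2 : y ≤ -0.205) : ‖HH β (x + y * I) - 1‖ ≤ 0.2 := by
  refine le_epsJ (C := 1.3522) (N0 := 21.505) (J_boxp 0.4035 0.6193 0.342 0 (-0.205) 0.7513 0.7075 1.0078 1.5416 0.4005 4.6374 21.505 0.9418 3.74 1.536 0.8662 0.3756 0.2577 0.6065 2.6488 0.3641 1.0586 1.448 3.5959 0.0003107 0.003924 0.000002168 0.0000003101 0.0003987 0.0000003101 0.0000003101 0.0000003101 1.3522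
    hβ hN hx1 hx2 hy1 hy2 (by norm_num) (by norm_num) (by linarith) (by norm_num) (by norm_num) (by norm_num) (by norm_num) (by norm_num) (by norm_num) (by norm_num) (by norm_num) (by norm_num) (by norm_num) (by norm_num) (by norm_num) (by norm_num) (by norm_num) (by norm_num) (by norm_num) (by norm_num) (by norm_num) (by norm_num) (by norm_num) (by norm_num)
    (cube_sqrt_geJ (s := 0.8282) (by norm_num) (by norm_num) (by norm_num) (by norm_num))
    (cube_sqrt_geJ (s := 0.9405) (by norm_num) (by norm_num) (by norm_num) (by norm_num))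
    (by norm_num) (by norm_num) (by norm_num) (by norm_num) (by norm_num) (by norm_num) (by norm_num) (by norm_num) (by norm_num) (by norm_num) (by norm_num) (by norm_num) (by norm_num) (by norm_num) (by norm_num) (by norm_num) (by norm_num) (by norm_num)
    (exp_neg_leJ (r := 0.077) 8 (by norm_num) (by norm_num) (by norm_num) (by norm_num))
    (exp_neg_leJ (r := 0.541) 5 (by norm_num) (by norm_num) (by norm_num) (by norm_num))
    (exp_neg_leJ (r := 0.042) 13 (by norm_num) (by norm_num) (by norm_num) (by norm_num))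
    (exp_neg_leJ (r := 0.99) 14 (by norm_num) (by norm_num) (by norm_num) (by norm_num))
    (exp_neg_leJ (r := 0.829) 7 (by norm_num) (by norm_num) (by norm_num) (by norm_num))
    (exp_neg_leJ (r := 0.99) 14 (by norm_num) (by norm_num) (by norm_num) (by norm_num))
    (exp_neg_leJ (r := 0.99) 14 (by norm_num) (by norm_num) (by norm_num) (by norm_num))
    (exp_neg_leJ (r := 0.99) 14 (by norm_num) (by norm_num) (by norm_num) (by norm_num))
    (by norm_num)) (by norm_num) hN hβ.le (by norm_num)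

private theorem dl2_c0 {κ t β : ℝ} (h : DomR κ t) (hβ : 0 < β) (hk1 : 0.42 ≤ κ) (hk2 : κ ≤ 0.465)
    (ht1 : -0.8012 ≤ t + κ) (ht2 : t + κ ≤ -0.534) (hR0 : β * 10 ≤ κ) (hR : β * (3.3 * (1 + κ ^ 2)) ≤ κ) :
    ∀ s : ℂ, ‖s - sg κ t‖ ≤ 0.04 → ‖HH β s - 1‖ ≤ 0.2 := by
  have hN : β * 21.505 ≤ 1 := bNR hβ h.1 hk2 hR0 (by norm_num)
  have hy1 : -0.487 ≤ sy κ t := syL_ang2 h 0.42 0.465 0.8012 0.699 0.7654 0.6435 0.487 1.62742 0.61446 hk1 hk2 (by linarith) (by norm_num) (by norm_num) (by norm_num) (by norm_num)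
    (cos_ge_num (by norm_num) (by norm_num)) (sin_le_num (by norm_num) (by norm_num))
    (expn_ge (by norm_num) (by norm_num)) (expm_ge (by norm_num) (by norm_num) (by norm_num) (by norm_num)) (by norm_num) (by norm_num) (by norm_num)
    (by norm_num) (by norm_num) (by norm_num)
  have hy2 : sy κ t ≤ -0.245 := syL_le h 0.42 0.465 0.534 0.245 0.7827 0.78271 0.41239 0.45659 hk1 hk2 (by linarith) (by norm_num) (by norm_num) (by norm_num)
    (expm_ge (by norm_num) (by norm_num) (by norm_num) (by norm_num)) (expm_le (by norm_num) (by norm_num) (by norm_num)) (by norm_num)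
    (by norm_num) (by norm_num) (by norm_num) (by norm_num) (by norm_num) (by norm_num)
  intro s hs
  have hs' : ‖s - ((sx κ t : ℂ) + (sy κ t : ℂ) * I)‖ ≤ 0.04 := hs
  obtain ⟨es, ⟨s1, s2⟩, ⟨s3, s4⟩⟩ := disc_split hs'
  rcases le_total (sy κ t) (-0.482) with f0 | g0
  · have hx1 : 0.4747 ≤ sx κ t := sx_lo h 0.42 (-0.482) 0.487 1.6193 0.4747 hk1 (by norm_num) f0 (abs_le.2 ⟨by linarith, by linarith⟩) (by rw [neg_neg]; exact expn_ge (by norm_num) (by norm_num)) (by norm_num) (by norm_num)
    have hx2 : sx κ t ≤ 0.5834 := sx_hi h 0.465 (-0.487) 0.482 1.62743 0.5834 hk2 hy1 (by norm_num) (by rw [abs_of_nonpos (by linarith)]; linarith) (by rw [neg_neg]; exact expn_le (by norm_num) (by norm_num) (by norm_num)) (by norm_num) (by norm_num)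
    rw [es]
    exact dl2_b0_0 hβ hN (by linarith) (by linarith) (by linarith) (by linarith)
  rcases le_total (sy κ t) (-0.472) with f1 | g1
  · have hx1 : 0.4701 ≤ sx κ t := sx_lo h 0.42 (-0.472) 0.482 1.60319 0.4701 hk1 (by norm_num) f1 (abs_le.2 ⟨by linarith, by linarith⟩) (by rw [neg_neg]; exact expn_ge (by norm_num) (by norm_num)) (by norm_num) (by norm_num)
    have hx2 : sx κ t ≤ 0.5867 := sx_hi h 0.465 (-0.482) 0.472 1.61931 0.5867 hk2 g0 (by norm_num) (by rw [abs_of_nonpos (by linarith)]; linarith) (by rw [neg_neg]; exact expn_le (by norm_num) (by norm_num) (by norm_num)) (by norm_num) (by norm_num)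
    rw [es]
    exact dl2_b0_1 hβ hN (by linarith) (by linarith) (by linarith) (by linarith)
  rcases le_total (sy κ t) (-0.452) with f2 | g2
  · have hx1 : 0.4613 ≤ sx κ t := sx_lo h 0.42 (-0.452) 0.472 1.57145 0.4613 hk1 (by norm_num) f2 (abs_le.2 ⟨by linarith, by linarith⟩) (by rw [neg_neg]; exact expn_ge (by norm_num) (by norm_num)) (by norm_num) (by norm_num)
    have hx2 : sx κ t ≤ 0.5929 := sx_hi h 0.465 (-0.472) 0.452 1.6032 0.5929 hk2 g1 (by norm_num) (by rw [abs_of_nonpos (by linarith)]; linarith) (by rw [neg_neg]; exact expn_le (by norm_num) (by norm_num) (by norm_num)) (by norm_num) (by norm_num)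
    rw [es]
    exact dl2_b0_2 hβ hN (by linarith) (by linarith) (by linarith) (by linarith)
  rcases le_total (sy κ t) (-0.407) with f3 | g3
  · have hx1 : 0.4402 ≤ sx κ t := sx_lo h 0.42 (-0.407) 0.452 1.5023 0.4402 hk1 (by norm_num) f3 (abs_le.2 ⟨by linarith, by linarith⟩) (by rw [neg_neg]; exact expn_ge (by norm_num) (by norm_num)) (by norm_num) (by norm_num)
    have hx2 : sx κ t ≤ 0.6069 := sx_hi h 0.465 (-0.452) 0.407 1.57146 0.6069 hk2 g2 (by norm_num) (by rw [abs_of_nonpos (by linarith)]; linarith) (by rw [neg_neg]; exact expn_le (by norm_num) (by norm_num) (by norm_num)) (by norm_num) (by norm_num)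
    rw [es]
    exact dl2_b0_3 hβ hN (by linarith) (by linarith) (by linarith) (by linarith)
  rcases le_total (sy κ t) (-0.302) with f4 | g4
  · have hx1 : 0.3963 ≤ sx κ t := sx_lo h 0.42 (-0.302) 0.407 1.35256 0.3963 hk1 (by norm_num) f4 (abs_le.2 ⟨by linarith, by linarith⟩) (by rw [neg_neg]; exact expn_ge (by norm_num) (by norm_num)) (by norm_num) (by norm_num)
    have hx2 : sx κ t ≤ 0.63 := sx_hi h 0.465 (-0.407) 0.302 1.50231 0.63 hk2 g3 (by norm_num) (by rw [abs_of_nonpos (by linarith)]; linarith) (by rw [neg_neg]; exact expn_le (by norm_num) (by norm_num) (by norm_num)) (by norm_num) (by norm_num)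
    rw [es]
    exact dl2_b0_4 hβ hN (by linarith) (by linarith) (by linarith) (by linarith)
  have hx1 : 0.4435 ≤ sx κ t := sx_lo h 0.42 (-0.245) 0.302 1.27762 0.4435 hk1 (by norm_num) hy2 (abs_le.2 ⟨by linarith, by linarith⟩) (by rw [neg_neg]; exact expn_ge (by norm_num) (by norm_num)) (by norm_num) (by norm_num)
  have hx2 : sx κ t ≤ 0.5793 := sx_hi h 0.465 (-0.302) 0.245 1.35257 0.5793 hk2 g4 (by norm_num) (by rw [abs_of_nonpos (by linarith)]; linarith) (by rw [neg_neg]; exact expn_le (by norm_num) (by norm_num) (by norm_num)) (by norm_num) (by norm_num)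
  rw [es]
  exact dl2_b0_5 hβ hN (by linarith) (by linarith) (by linarith) (by linarith)

theorem dl2 {κ t β : ℝ} (h : DomR κ t) (hβ : 0 < β) (hk1 : 0.42 ≤ κ) (hk2 : κ ≤ 0.465)
    (ht1 : -0.8012 ≤ t + κ) (ht2 : t + κ ≤ -0.534) (hR0 : β * 10 ≤ κ) (hR : β * (3.3 * (1 + κ ^ 2)) ≤ κ) :
    ∀ s : ℂ, ‖s - sg κ t‖ ≤ 0.04 → ‖HH β s - 1‖ ≤ 0.2 := by
  exact dl2_c0 h hβ hk1 hk2 ht1 ht2 hR0 hR

private theorem dl3_b0_0 {β x y : ℝ} (hβ : 0 < β) (hN : β * 19.607 ≤ 1) (hx1 : 0.5376 ≤ x) (hx2 : x ≤ 0.7232)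
    (hy1 : -0.551 ≤ y) (hy2 : y ≤ -0.466) : ‖HH β (x + y * I) - 1‖ ≤ 0.22 := by
  refine le_epsJ (C := 4.1396) (N0 := 19.607) (J_boxp 0.5376 0.7232 0.551 0 (-0.466) 0.6973 0.9092 0.899 1.6284 0.3783 4.428 19.607 1.3039 7.36 1.839 0.6333 0.3486 0.1971 0.3225 1.9063 0.3151 1.2443 1.1481 3.3158 0.001078 0.02103 0.001795 0.0000003101 0.002075 0.0000003101 0.0000003101 0.0000003101 4.1396
    hβ hN hx1 hx2 hy1 hy2 (by norm_num) (by norm_num) (by linarith) (by norm_num) (by norm_num) (by norm_num) (by norm_num) (by norm_num) (by norm_num) (by norm_num) (by norm_num) (by norm_num) (by norm_num) (by norm_num) (by norm_num) (by norm_num) (by norm_num) (by norm_num) (by norm_num) (by norm_num) (by norm_num) (by norm_num) (by norm_num) (by norm_num)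
    (cube_sqrt_geJ (s := 0.7519) (by norm_num) (by norm_num) (by norm_num) (by norm_num))
    (cube_sqrt_geJ (s := 0.9167) (by norm_num) (by norm_num) (by norm_num) (by norm_num))
    (by norm_num) (by norm_num) (by norm_num) (by norm_num) (by norm_num) (by norm_num) (by norm_num) (by norm_num) (by norm_num) (by norm_num) (by norm_num) (by norm_num) (by norm_num) (by norm_num) (by norm_num) (by norm_num) (by norm_num) (by norm_num)
    (exp_neg_leJ (r := 0.835) 6 (by norm_num) (by norm_num) (by norm_num) (by norm_num))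
    (exp_neg_leJ (r := 0.864) 3 (by norm_num) (by norm_num) (by norm_num) (by norm_num))
    (exp_neg_leJ (r := 0.323) 6 (by norm_num) (by norm_num) (by norm_num) (by norm_num))
    (exp_neg_leJ (r := 0.99) 14 (by norm_num) (by norm_num) (by norm_num) (by norm_num))
    (exp_neg_leJ (r := 0.178) 6 (by norm_num) (by norm_num) (by norm_num) (by norm_num))
    (exp_neg_leJ (r := 0.99) 14 (by norm_num) (by norm_num) (by norm_num) (by norm_num))
    (exp_neg_leJ (r := 0.99) 14 (by norm_num) (by norm_num) (by norm_num) (by norm_num))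
    (exp_neg_leJ (r := 0.99) 14 (by norm_num) (by norm_num) (by norm_num) (by norm_num))
    (by norm_num)) (by norm_num) hN hβ.le (by norm_num)

private theorem dl3_b0_1 {β x y : ℝ} (hβ : 0 < β) (hN : β * 19.607 ≤ 1) (hx1 : 0.5318 ≤ x) (hx2 : x ≤ 0.7253)
    (hy1 : -0.546 ≤ y) (hy2 : y ≤ -0.456) : ‖HH β (x + y * I) - 1‖ ≤ 0.22 := by
  refine le_epsJ (C := 4.1522) (N0 := 19.607) (J_boxp 0.5318 0.7253 0.546 0 (-0.456) 0.6968 0.9079 0.9067 1.6371 0.3799 4.428 19.607 1.303 7.346 1.838 0.6371 0.3483 0.197 0.3284 1.9217 0.315 1.2363 1.1501 3.3077 0.001084 0.02107 0.0016 0.0000003101 0.002079 0.0000003101 0.0000003101 0.0000003101 4.1522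
    hβ hN hx1 hx2 hy1 hy2 (by norm_num) (by norm_num) (by linarith) (by norm_num) (by norm_num) (by norm_num) (by norm_num) (by norm_num) (by norm_num) (by norm_num) (by norm_num) (by norm_num) (by norm_num) (by norm_num) (by norm_num) (by norm_num) (by norm_num) (by norm_num) (by norm_num) (by norm_num) (by norm_num) (by norm_num) (by norm_num) (by norm_num)
    (cube_sqrt_geJ (s := 0.7521) (by norm_num) (by norm_num) (by norm_num) (by norm_num))
    (cube_sqrt_geJ (s := 0.9167) (by norm_num) (by norm_num) (by norm_num) (by norm_num))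
    (by norm_num) (by norm_num) (by norm_num) (by norm_num) (by norm_num) (by norm_num) (by norm_num) (by norm_num) (by norm_num) (by norm_num) (by norm_num) (by norm_num) (by norm_num) (by norm_num) (by norm_num) (by norm_num) (by norm_num) (by norm_num)
    (exp_neg_leJ (r := 0.829) 6 (by norm_num) (by norm_num) (by norm_num) (by norm_num))
    (exp_neg_leJ (r := 0.862) 3 (by norm_num) (by norm_num) (by norm_num) (by norm_num))
    (exp_neg_leJ (r := 0.438) 6 (by norm_num) (by norm_num) (by norm_num) (by norm_num))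
    (exp_neg_leJ (r := 0.99) 14 (by norm_num) (by norm_num) (by norm_num) (by norm_num))
    (exp_neg_leJ (r := 0.176) 6 (by norm_num) (by norm_num) (by norm_num) (by norm_num))
    (exp_neg_leJ (r := 0.99) 14 (by norm_num) (by norm_num) (by norm_num) (by norm_num))
    (exp_neg_leJ (r := 0.99) 14 (by norm_num) (by norm_num) (by norm_num) (by norm_num))
    (exp_neg_leJ (r := 0.99) 14 (by norm_num) (by norm_num) (by norm_num) (by norm_num))
    (by norm_num)) (by norm_num) hN hβ.le (by norm_num)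

private theorem dl3_b0_2 {β x y : ℝ} (hβ : 0 < β) (hN : β * 19.607 ≤ 1) (hx1 : 0.5205 ≤ x) (hx2 : x ≤ 0.7291)
    (hy1 : -0.536 ≤ y) (hy2 : y ≤ -0.436) : ‖HH β (x + y * I) - 1‖ ≤ 0.22 := by
  refine le_epsJ (C := 4.1666) (N0 := 19.607) (J_boxp 0.5205 0.7291 0.536 0 (-0.436) 0.6959 0.905 0.9218 1.6539 0.3831 4.428 19.607 1.3005 7.309 1.836 0.6449 0.3479 0.1971 0.3403 1.9527 0.315 1.2206 1.1546 3.293 0.001093 0.02103 0.001267 0.0000003101 0.002079 0.0000003101 0.0000003101 0.0000003101 4.1666
    hβ hN hx1 hx2 hy1 hy2 (by norm_num) (by norm_num) (by linarith) (by norm_num) (by norm_num) (by norm_num) (by norm_num) (by norm_num) (by norm_num) (by norm_num) (by norm_num) (by norm_num) (by norm_num) (by norm_num) (by norm_num) (by norm_num) (by norm_num) (by norm_num) (by norm_num) (by norm_num) (by norm_num) (by norm_num) (by norm_num) (by norm_num)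
    (cube_sqrt_geJ (s := 0.7526) (by norm_num) (by norm_num) (by norm_num) (by norm_num))
    (cube_sqrt_geJ (s := 0.9169) (by norm_num) (by norm_num) (by norm_num) (by norm_num))
    (by norm_num) (by norm_num) (by norm_num) (by norm_num) (by norm_num) (by norm_num) (by norm_num) (by norm_num) (by norm_num) (by norm_num) (by norm_num) (by norm_num) (by norm_num) (by norm_num) (by norm_num) (by norm_num) (by norm_num) (by norm_num)
    (exp_neg_leJ (r := 0.821) 6 (by norm_num) (by norm_num) (by norm_num) (by norm_num))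
    (exp_neg_leJ (r := 0.864) 3 (by norm_num) (by norm_num) (by norm_num) (by norm_num))
    (exp_neg_leJ (r := 0.672) 6 (by norm_num) (by norm_num) (by norm_num) (by norm_num))
    (exp_neg_leJ (r := 0.99) 14 (by norm_num) (by norm_num) (by norm_num) (by norm_num))
    (exp_neg_leJ (r := 0.176) 6 (by norm_num) (by norm_num) (by norm_num) (by norm_num))
    (exp_neg_leJ (r := 0.99) 14 (by norm_num) (by norm_num) (by norm_num) (by norm_num))
    (exp_neg_leJ (r := 0.99) 14 (by norm_num) (by norm_num) (by norm_num) (by norm_num))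
    (exp_neg_leJ (r := 0.99) 14 (by norm_num) (by norm_num) (by norm_num) (by norm_num))
    (by norm_num)) (by norm_num) hN hβ.le (by norm_num)

private theorem dl3_b0_3 {β x y : ℝ} (hβ : 0 < β) (hN : β * 19.607 ≤ 1) (hx1 : 0.499 ≤ x) (hx2 : x ≤ 0.7356)
    (hy1 : -0.516 ≤ y) (hy2 : y ≤ -0.396) : ‖HH β (x + y * I) - 1‖ ≤ 0.22 := by
  refine le_epsJ (C := 4.1559) (N0 := 19.607) (J_boxp 0.499 0.7356 0.516 0 (-0.396) 0.695 0.8986 0.9519 1.684 0.3893 4.428 19.607 1.293 7.197 1.829 0.6608 0.3474 0.1977 0.3646 2.0152 0.3155 1.1909 1.166 3.2674 0.001104 0.02078 0.0007865 0.0000003101 0.002059 0.0000003101 0.0000003101 0.0000003101 4.1559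
    hβ hN hx1 hx2 hy1 hy2 (by norm_num) (by norm_num) (by linarith) (by norm_num) (by norm_num) (by norm_num) (by norm_num) (by norm_num) (by norm_num) (by norm_num) (by norm_num) (by norm_num) (by norm_num) (by norm_num) (by norm_num) (by norm_num) (by norm_num) (by norm_num) (by norm_num) (by norm_num) (by norm_num) (by norm_num) (by norm_num) (by norm_num)
    (cube_sqrt_geJ (s := 0.7543) (by norm_num) (by norm_num) (by norm_num) (by norm_num))
    (cube_sqrt_geJ (s := 0.9174) (by norm_num) (by norm_num) (by norm_num) (by norm_num))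
    (by norm_num) (by norm_num) (by norm_num) (by norm_num) (by norm_num) (by norm_num) (by norm_num) (by norm_num) (by norm_num) (by norm_num) (by norm_num) (by norm_num) (by norm_num) (by norm_num) (by norm_num) (by norm_num) (by norm_num) (by norm_num)
    (exp_neg_leJ (r := 0.811) 6 (by norm_num) (by norm_num) (by norm_num) (by norm_num))
    (exp_neg_leJ (r := 0.876) 3 (by norm_num) (by norm_num) (by norm_num) (by norm_num))
    (exp_neg_leJ (r := 0.148) 7 (by norm_num) (by norm_num) (by norm_num) (by norm_num))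
    (exp_neg_leJ (r := 0.99) 14 (by norm_num) (by norm_num) (by norm_num) (by norm_num))
    (exp_neg_leJ (r := 0.186) 6 (by norm_num) (by norm_num) (by norm_num) (by norm_num))
    (exp_neg_leJ (r := 0.99) 14 (by norm_num) (by norm_num) (by norm_num) (by norm_num))
    (exp_neg_leJ (r := 0.99) 14 (by norm_num) (by norm_num) (by norm_num) (by norm_num))
    (exp_neg_leJ (r := 0.99) 14 (by norm_num) (by norm_num) (by norm_num) (by norm_num))
    (by norm_num)) (by norm_num) hN hβ.le (by norm_num)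

private theorem dl3_b0_4 {β x y : ℝ} (hβ : 0 < β) (hN : β * 19.607 ≤ 1) (hx1 : 0.4517 ≤ x) (hx2 : x ≤ 0.7488)
    (hy1 : -0.476 ≤ y) (hy2 : y ≤ -0.306) : ‖HH β (x + y * I) - 1‖ ≤ 0.22 := by
  refine le_epsJ (C := 4.2737) (N0 := 19.607) (J_boxp 0.4517 0.7488 0.476 0 (-0.306) 0.6901 0.8873 1.021 1.7626 0.4032 4.428 19.607 1.2858 7.092 1.822 0.6927 0.345 0.1971 0.4115 2.1398 0.3143 1.1254 1.1801 3.2035 0.001156 0.02103 0.0003135 0.0000003101 0.002109 0.0000003101 0.0000003101 0.0000003101 4.2737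
    hβ hN hx1 hx2 hy1 hy2 (by norm_num) (by norm_num) (by linarith) (by norm_num) (by norm_num) (by norm_num) (by norm_num) (by norm_num) (by norm_num) (by norm_num) (by norm_num) (by norm_num) (by norm_num) (by norm_num) (by norm_num) (by norm_num) (by norm_num) (by norm_num) (by norm_num) (by norm_num) (by norm_num) (by norm_num) (by norm_num) (by norm_num)
    (cube_sqrt_geJ (s := 0.7559) (by norm_num) (by norm_num) (by norm_num) (by norm_num))
    (cube_sqrt_geJ (s := 0.9179) (by norm_num) (by norm_num) (by norm_num) (by norm_num))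
    (by norm_num) (by norm_num) (by norm_num) (by norm_num) (by norm_num) (by norm_num) (by norm_num) (by norm_num) (by norm_num) (by norm_num) (by norm_num) (by norm_num) (by norm_num) (by norm_num) (by norm_num) (by norm_num) (by norm_num) (by norm_num)
    (exp_neg_leJ (r := 0.764) 6 (by norm_num) (by norm_num) (by norm_num) (by norm_num))
    (exp_neg_leJ (r := 0.864) 3 (by norm_num) (by norm_num) (by norm_num) (by norm_num))
    (exp_neg_leJ (r := 0.068) 8 (by norm_num) (by norm_num) (by norm_num) (by norm_num))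
    (exp_neg_leJ (r := 0.99) 14 (by norm_num) (by norm_num) (by norm_num) (by norm_num))
    (exp_neg_leJ (r := 0.162) 6 (by norm_num) (by norm_num) (by norm_num) (by norm_num))
    (exp_neg_leJ (r := 0.99) 14 (by norm_num) (by norm_num) (by norm_num) (by norm_num))
    (exp_neg_leJ (r := 0.99) 14 (by norm_num) (by norm_num) (by norm_num) (by norm_num))
    (exp_neg_leJ (r := 0.99) 14 (by norm_num) (by norm_num) (by norm_num) (by norm_num))
    (by norm_num)) (by norm_num) hN hβ.le (by norm_num)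

private theorem dl3_b0_5 {β x y : ℝ} (hβ : 0 < β) (hN : β * 19.607 ≤ 1) (hx1 : 0.4568 ≤ x) (hx2 : x ≤ 0.7108)
    (hy1 : -0.386 ≤ y) (hy2 : y ≤ -0.224) : ‖HH β (x + y * I) - 1‖ ≤ 0.22 := by
  refine le_epsJ (C := 2.0024) (N0 := 19.607) (J_boxp 0.4568 0.7108 0.386 0 (-0.224) 0.7576 0.8089 1.0524 1.5558 0.4093 4.428 19.607 1.0678 4.665 1.634 0.7904 0.3787 0.2439 0.5553 2.4551 0.366 1.1324 1.435 3.4268 0.0005963 0.008391 0.00001875 0.0000003101 0.0007648 0.0000003101 0.0000003101 0.0000003101 2.0024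
    hβ hN hx1 hx2 hy1 hy2 (by norm_num) (by norm_num) (by linarith) (by norm_num) (by norm_num) (by norm_num) (by norm_num) (by norm_num) (by norm_num) (by norm_num) (by norm_num) (by norm_num) (by norm_num) (by norm_num) (by norm_num) (by norm_num) (by norm_num) (by norm_num) (by norm_num) (by norm_num) (by norm_num) (by norm_num) (by norm_num) (by norm_num)
    (cube_sqrt_geJ (s := 0.8025) (by norm_num) (by norm_num) (by norm_num) (by norm_num))
    (cube_sqrt_geJ (s := 0.9323) (by norm_num) (by norm_num) (by norm_num) (by norm_num))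
    (by norm_num) (by norm_num) (by norm_num) (by norm_num) (by norm_num) (by norm_num) (by norm_num) (by norm_num) (by norm_num) (by norm_num) (by norm_num) (by norm_num) (by norm_num) (by norm_num) (by norm_num) (by norm_num) (by norm_num) (by norm_num)
    (exp_neg_leJ (r := 0.425) 7 (by norm_num) (by norm_num) (by norm_num) (by norm_num))
    (exp_neg_leJ (r := 0.782) 4 (by norm_num) (by norm_num) (by norm_num) (by norm_num))
    (exp_neg_leJ (r := 0.887) 10 (by norm_num) (by norm_num) (by norm_num) (by norm_num))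
    (exp_neg_leJ (r := 0.99) 14 (by norm_num) (by norm_num) (by norm_num) (by norm_num))
    (exp_neg_leJ (r := 0.176) 7 (by norm_num) (by norm_num) (by norm_num) (by norm_num))
    (exp_neg_leJ (r := 0.99) 14 (by norm_num) (by norm_num) (by norm_num) (by norm_num))
    (exp_neg_leJ (r := 0.99) 14 (by norm_num) (by norm_num) (by norm_num) (by norm_num))
    (exp_neg_leJ (r := 0.99) 14 (by norm_num) (by norm_num) (by norm_num) (by norm_num))
    (by norm_num)) (by norm_num) hN hβ.le (by norm_num)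

private theorem dl3_c0 {κ t β : ℝ} (h : DomR κ t) (hβ : 0 < β) (hk1 : 0.465 ≤ κ) (hk2 : κ ≤ 0.51)
    (ht1 : -0.8012 ≤ t + κ) (ht2 : t + κ ≤ -0.534) (hR0 : β * 10 ≤ κ) (hR : β * (3.3 * (1 + κ ^ 2)) ≤ κ) :
    ∀ s : ℂ, ‖s - sg κ t‖ ≤ 0.04 → ‖HH β s - 1‖ ≤ 0.22 := by
  have hN : β * 19.607 ≤ 1 := bNR hβ h.1 hk2 hR0 (by norm_num)
  have hy1 : -0.511 ≤ sy κ t := syL_ge h 0.465 0.51 0.8012 0.511 0.59989 0.5999 0.5865 0.60106 0.65925 hk1 hk2 (by linarith) (by norm_num) (by norm_num) (by norm_num)
    (expm_ge (by norm_num) (by norm_num) (by norm_num) (by norm_num)) (expm_le (by norm_num) (by norm_num) (by norm_num)) (by norm_num)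
    (by norm_num) (by norm_num) (by norm_num) (by norm_num) (by norm_num) (by norm_num)
  have hy2 : sy κ t ≤ -0.264 := syL_le h 0.465 0.51 0.534 0.264 0.76797 0.76798 0.39753 0.43602 hk1 hk2 (by linarith) (by norm_num) (by norm_num) (by norm_num)
    (expm_ge (by norm_num) (by norm_num) (by norm_num) (by norm_num)) (expm_le (by norm_num) (by norm_num) (by norm_num)) (by norm_num)
    (by norm_num) (by norm_num) (by norm_num) (by norm_num) (by norm_num) (by norm_num)
  intro s hs
  have hs' : ‖s - ((sx κ t : ℂ) + (sy κ t : ℂ) * I)‖ ≤ 0.04 := hs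
  obtain ⟨es, ⟨s1, s2⟩, ⟨s3, s4⟩⟩ := disc_split hs'
  rcases le_total (sy κ t) (-0.506) with f0 | g0
  · have hx1 : 0.5776 ≤ sx κ t := sx_lo h 0.465 (-0.506) 0.511 1.65864 0.5776 hk1 (by norm_num) f0 (abs_le.2 ⟨by linarith, by linarith⟩) (by rw [neg_neg]; exact expn_ge (by norm_num) (by norm_num)) (by norm_num) (by norm_num)
    have hx2 : sx κ t ≤ 0.6832 := sx_hi h 0.51 (-0.511) 0.506 1.66696 0.6832 hk2 hy1 (by norm_num) (by rw [abs_of_nonpos (by linarith)]; linarith) (by rw [neg_neg]; exact expn_le (by norm_num) (by norm_num) (by norm_num)) (by norm_num) (by norm_num)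
    rw [es]
    exact dl3_b0_0 hβ hN (by linarith) (by linarith) (by linarith) (by linarith)
  rcases le_total (sy κ t) (-0.496) with f1 | g1
  · have hx1 : 0.5718 ≤ sx κ t := sx_lo h 0.465 (-0.496) 0.506 1.64213 0.5718 hk1 (by norm_num) f1 (abs_le.2 ⟨by linarith, by linarith⟩) (by rw [neg_neg]; exact expn_ge (by norm_num) (by norm_num)) (by norm_num) (by norm_num)
    have hx2 : sx κ t ≤ 0.6853 := sx_hi h 0.51 (-0.506) 0.496 1.65865 0.6853 hk2 g0 (by norm_num) (by rw [abs_of_nonpos (by linarith)]; linarith) (by rw [neg_neg]; exact expn_le (by norm_num) (by norm_num) (by norm_num)) (by norm_num) (by norm_num)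
    rw [es]
    exact dl3_b0_1 hβ hN (by linarith) (by linarith) (by linarith) (by linarith)
  rcases le_total (sy κ t) (-0.476) with f2 | g2
  · have hx1 : 0.5605 ≤ sx κ t := sx_lo h 0.465 (-0.476) 0.496 1.60962 0.5605 hk1 (by norm_num) f2 (abs_le.2 ⟨by linarith, by linarith⟩) (by rw [neg_neg]; exact expn_ge (by norm_num) (by norm_num)) (by norm_num) (by norm_num)
    have hx2 : sx κ t ≤ 0.6891 := sx_hi h 0.51 (-0.496) 0.476 1.64214 0.6891 hk2 g1 (by norm_num) (by rw [abs_of_nonpos (by linarith)]; linarith) (by rw [neg_neg]; exact expn_le (by norm_num) (by norm_num) (by norm_num)) (by norm_num) (by norm_num)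
    rw [es]
    exact dl3_b0_2 hβ hN (by linarith) (by linarith) (by linarith) (by linarith)
  rcases le_total (sy κ t) (-0.436) with f3 | g3
  · have hx1 : 0.539 ≤ sx κ t := sx_lo h 0.465 (-0.436) 0.476 1.5465 0.539 hk1 (by norm_num) f3 (abs_le.2 ⟨by linarith, by linarith⟩) (by rw [neg_neg]; exact expn_ge (by norm_num) (by norm_num)) (by norm_num) (by norm_num)
    have hx2 : sx κ t ≤ 0.6956 := sx_hi h 0.51 (-0.476) 0.436 1.60963 0.6956 hk2 g2 (by norm_num) (by rw [abs_of_nonpos (by linarith)]; linarith) (by rw [neg_neg]; exact expn_le (by norm_num) (by norm_num) (by norm_num)) (by norm_num) (by norm_num)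
    rw [es]
    exact dl3_b0_3 hβ hN (by linarith) (by linarith) (by linarith) (by linarith)
  rcases le_total (sy κ t) (-0.346) with f4 | g4
  · have hx1 : 0.4917 ≤ sx κ t := sx_lo h 0.465 (-0.346) 0.436 1.4134 0.4917 hk1 (by norm_num) f4 (abs_le.2 ⟨by linarith, by linarith⟩) (by rw [neg_neg]; exact expn_ge (by norm_num) (by norm_num)) (by norm_num) (by norm_num)
    have hx2 : sx κ t ≤ 0.7088 := sx_hi h 0.51 (-0.436) 0.346 1.54651 0.7088 hk2 g3 (by norm_num) (by rw [abs_of_nonpos (by linarith)]; linarith) (by rw [neg_neg]; exact expn_le (by norm_num) (by norm_num) (by norm_num)) (by norm_num) (by norm_num)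
    rw [es]
    exact dl3_b0_4 hβ hN (by linarith) (by linarith) (by linarith) (by linarith)
  have hx1 : 0.4968 ≤ sx κ t := sx_lo h 0.465 (-0.264) 0.346 1.30212 0.4968 hk1 (by norm_num) hy2 (abs_le.2 ⟨by linarith, by linarith⟩) (by rw [neg_neg]; exact expn_ge (by norm_num) (by norm_num)) (by norm_num) (by norm_num)
  have hx2 : sx κ t ≤ 0.6708 := sx_hi h 0.51 (-0.346) 0.264 1.41341 0.6708 hk2 g4 (by norm_num) (by rw [abs_of_nonpos (by linarith)]; linarith) (by rw [neg_neg]; exact expn_le (by norm_num) (by norm_num) (by norm_num)) (by norm_num) (by norm_num)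
  rw [es]
  exact dl3_b0_5 hβ hN (by linarith) (by linarith) (by linarith) (by linarith)

theorem dl3 {κ t β : ℝ} (h : DomR κ t) (hβ : 0 < β) (hk1 : 0.465 ≤ κ) (hk2 : κ ≤ 0.51)
    (ht1 : -0.8012 ≤ t + κ) (ht2 : t + κ ≤ -0.534) (hR0 : β * 10 ≤ κ) (hR : β * (3.3 * (1 + κ ^ 2)) ≤ κ) :
    ∀ s : ℂ, ‖s - sg κ t‖ ≤ 0.04 → ‖HH β s - 1‖ ≤ 0.22 := by
  exact dl3_c0 h hβ hk1 hk2 ht1 ht2 hR0 hR

private theorem dl4_b0_0 {β x y : ℝ} (hβ : 0 < β) (hN : β * 18.018 ≤ 1) (hx1 : 0.6268 ≤ x) (hx2 : x ≤ 0.8287)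
    (hy1 : -0.57 ≤ y) (hy2 : y ≤ -0.465) : ‖HH β (x + y * I) - 1‖ ≤ 0.25 := by
  refine le_epsJ (C := 4.4306) (N0 := 18.018) (J_boxp 0.6268 0.8287 0.57 0 (-0.465) 0.7466 1.0059 0.9864 1.5396 0.3963 4.2448 18.018 1.3474 8.061 1.88 0.5752 0.3732 0.2056 0.3231 1.7881 0.348 1.3678 1.2748 3.2313 0.001203 0.02465 0.00297 0.0000003101 0.001893 0.0000003101 0.0000003101 0.0000003101 4.4306
    hβ hN hx1 hx2 hy1 hy2 (by norm_num) (by norm_num) (by linarith) (by norm_num) (by norm_num) (by norm_num) (by norm_num) (by norm_num) (by norm_num) (by norm_num) (by norm_num) (by norm_num) (by norm_num) (by norm_num) (by norm_num) (by norm_num) (by norm_num) (by norm_num) (by norm_num) (by norm_num) (by norm_num) (by norm_num) (by norm_num) (by norm_num)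
    (cube_sqrt_geJ (s := 0.7422) (by norm_num) (by norm_num) (by norm_num) (by norm_num))
    (cube_sqrt_geJ (s := 0.9137) (by norm_num) (by norm_num) (by norm_num) (by norm_num))
    (by norm_num) (by norm_num) (by norm_num) (by norm_num) (by norm_num) (by norm_num) (by norm_num) (by norm_num) (by norm_num) (by norm_num) (by norm_num) (by norm_num) (by norm_num) (by norm_num) (by norm_num) (by norm_num) (by norm_num) (by norm_num)
    (exp_neg_leJ (r := 0.724) 6 (by norm_num) (by norm_num) (by norm_num) (by norm_num))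
    (exp_neg_leJ (r := 0.704) 3 (by norm_num) (by norm_num) (by norm_num) (by norm_num))
    (exp_neg_leJ (r := 0.821) 5 (by norm_num) (by norm_num) (by norm_num) (by norm_num))
    (exp_neg_leJ (r := 0.99) 14 (by norm_num) (by norm_num) (by norm_num) (by norm_num))
    (exp_neg_leJ (r := 0.27) 6 (by norm_num) (by norm_num) (by norm_num) (by norm_num))
    (exp_neg_leJ (r := 0.99) 14 (by norm_num) (by norm_num) (by norm_num) (by norm_num))
    (exp_neg_leJ (r := 0.99) 14 (by norm_num) (by norm_num) (by norm_num) (by norm_num))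
    (exp_neg_leJ (r := 0.99) 14 (by norm_num) (by norm_num) (by norm_num) (by norm_num))
    (by norm_num)) (by norm_num) hN hβ.le (by norm_num)

private theorem dl4_b0_1 {β x y : ℝ} (hβ : 0 < β) (hN : β * 18.018 ≤ 1) (hx1 : 0.62 ≤ x) (hx2 : x ≤ 0.8296)
    (hy1 : -0.565 ≤ y) (hy2 : y ≤ -0.455) : ‖HH β (x + y * I) - 1‖ ≤ 0.25 := by
  refine le_epsJ (C := 4.448) (N0 := 18.018) (J_boxp 0.62 0.8296 0.565 0 (-0.455) 0.7454 1.0038 0.9927 1.5482 0.3975 4.2448 18.018 1.3467 8.049 1.879 0.5795 0.3726 0.2053 0.3286 1.8041 0.3475 1.3584 1.2748 3.2234 0.001217 0.02477 0.002693 0.0000003101 0.00191 0.0000003101 0.0000003101 0.0000003101 4.448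
    hβ hN hx1 hx2 hy1 hy2 (by norm_num) (by norm_num) (by linarith) (by norm_num) (by norm_num) (by norm_num) (by norm_num) (by norm_num) (by norm_num) (by norm_num) (by norm_num) (by norm_num) (by norm_num) (by norm_num) (by norm_num) (by norm_num) (by norm_num) (by norm_num) (by norm_num) (by norm_num) (by norm_num) (by norm_num) (by norm_num) (by norm_num)
    (cube_sqrt_geJ (s := 0.7423) (by norm_num) (by norm_num) (by norm_num) (by norm_num))
    (cube_sqrt_geJ (s := 0.9138) (by norm_num) (by norm_num) (by norm_num) (by norm_num))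
    (by norm_num) (by norm_num) (by norm_num) (by norm_num) (by norm_num) (by norm_num) (by norm_num) (by norm_num) (by norm_num) (by norm_num) (by norm_num) (by norm_num) (by norm_num) (by norm_num) (by norm_num) (by norm_num) (by norm_num) (by norm_num)
    (exp_neg_leJ (r := 0.713) 6 (by norm_num) (by norm_num) (by norm_num) (by norm_num))
    (exp_neg_leJ (r := 0.699) 3 (by norm_num) (by norm_num) (by norm_num) (by norm_num))
    (exp_neg_leJ (r := 0.92) 5 (by norm_num) (by norm_num) (by norm_num) (by norm_num))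
    (exp_neg_leJ (r := 0.99) 14 (by norm_num) (by norm_num) (by norm_num) (by norm_num))
    (exp_neg_leJ (r := 0.261) 6 (by norm_num) (by norm_num) (by norm_num) (by norm_num))
    (exp_neg_leJ (r := 0.99) 14 (by norm_num) (by norm_num) (by norm_num) (by norm_num))
    (exp_neg_leJ (r := 0.99) 14 (by norm_num) (by norm_num) (by norm_num) (by norm_num))
    (exp_neg_leJ (r := 0.99) 14 (by norm_num) (by norm_num) (by norm_num) (by norm_num))
    (by norm_num)) (by norm_num) hN hβ.le (by norm_num)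

private theorem dl4_b0_2 {β x y : ℝ} (hβ : 0 < β) (hN : β * 18.018 ≤ 1) (hx1 : 0.6065 ≤ x) (hx2 : x ≤ 0.8314)
    (hy1 : -0.555 ≤ y) (hy2 : y ≤ -0.435) : ‖HH β (x + y * I) - 1‖ ≤ 0.25 := by
  refine le_epsJ (C := 4.4862) (N0 := 18.018) (J_boxp 0.6065 0.8314 0.555 0 (-0.435) 0.743 0.9997 1.0053 1.5656 0.4 4.2448 18.018 1.3455 8.029 1.878 0.588 0.3714 0.2048 0.3398 1.836 0.3464 1.3397 1.275 3.2076 0.001243 0.025 0.002195 0.0000003101 0.001948 0.0000003101 0.0000003101 0.0000003101 4.4862
    hβ hN hx1 hx2 hy1 hy2 (by norm_num) (by norm_num) (by linarith) (by norm_num) (by norm_num) (by norm_num) (by norm_num) (by norm_num) (by norm_num) (by norm_num) (by norm_num) (by norm_num) (by norm_num) (by norm_num) (by norm_num) (by norm_num) (by norm_num) (by norm_num) (by norm_num) (by norm_num) (by norm_num) (by norm_num) (by norm_num) (by norm_num)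
    (cube_sqrt_geJ (s := 0.7426) (by norm_num) (by norm_num) (by norm_num) (by norm_num))
    (cube_sqrt_geJ (s := 0.9139) (by norm_num) (by norm_num) (by norm_num) (by norm_num))
    (by norm_num) (by norm_num) (by norm_num) (by norm_num) (by norm_num) (by norm_num) (by norm_num) (by norm_num) (by norm_num) (by norm_num) (by norm_num) (by norm_num) (by norm_num) (by norm_num) (by norm_num) (by norm_num) (by norm_num) (by norm_num)
    (exp_neg_leJ (r := 0.691) 6 (by norm_num) (by norm_num) (by norm_num) (by norm_num))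
    (exp_neg_leJ (r := 0.69) 3 (by norm_num) (by norm_num) (by norm_num) (by norm_num))
    (exp_neg_leJ (r := 0.122) 6 (by norm_num) (by norm_num) (by norm_num) (by norm_num))
    (exp_neg_leJ (r := 0.99) 14 (by norm_num) (by norm_num) (by norm_num) (by norm_num))
    (exp_neg_leJ (r := 0.241) 6 (by norm_num) (by norm_num) (by norm_num) (by norm_num))
    (exp_neg_leJ (r := 0.99) 14 (by norm_num) (by norm_num) (by norm_num) (by norm_num))
    (exp_neg_leJ (r := 0.99) 14 (by norm_num) (by norm_num) (by norm_num) (by norm_num))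
    (exp_neg_leJ (r := 0.99) 14 (by norm_num) (by norm_num) (by norm_num) (by norm_num))
    (by norm_num)) (by norm_num) hN hβ.le (by norm_num)

private theorem dl4_b0_3 {β x y : ℝ} (hβ : 0 < β) (hN : β * 18.018 ≤ 1) (hx1 : 0.586 ≤ x) (hx2 : x ≤ 0.8311)
    (hy1 : -0.535 ≤ y) (hy2 : y ≤ -0.4) : ‖HH β (x + y * I) - 1‖ ≤ 0.25 := by
  refine le_epsJ (C := 4.3493) (N0 := 18.018) (J_boxp 0.586 0.8311 0.535 0 (-0.4) 0.7428 0.9885 1.0251 1.5816 0.404 4.2448 18.018 1.3308 7.784 1.864 0.6066 0.3713 0.2066 0.3643 1.9019 0.3473 1.3113 1.2884 3.197 0.001245 0.02421 0.001413 0.0000003101 0.001918 0.0000003101 0.0000003101 0.0000003101 4.3493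
    hβ hN hx1 hx2 hy1 hy2 (by norm_num) (by norm_num) (by linarith) (by norm_num) (by norm_num) (by norm_num) (by norm_num) (by norm_num) (by norm_num) (by norm_num) (by norm_num) (by norm_num) (by norm_num) (by norm_num) (by norm_num) (by norm_num) (by norm_num) (by norm_num) (by norm_num) (by norm_num) (by norm_num) (by norm_num) (by norm_num) (by norm_num)
    (cube_sqrt_geJ (s := 0.7459) (by norm_num) (by norm_num) (by norm_num) (by norm_num))
    (cube_sqrt_geJ (s := 0.9149) (by norm_num) (by norm_num) (by norm_num) (by norm_num))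
    (by norm_num) (by norm_num) (by norm_num) (by norm_num) (by norm_num) (by norm_num) (by norm_num) (by norm_num) (by norm_num) (by norm_num) (by norm_num) (by norm_num) (by norm_num) (by norm_num) (by norm_num) (by norm_num) (by norm_num) (by norm_num)
    (exp_neg_leJ (r := 0.69) 6 (by norm_num) (by norm_num) (by norm_num) (by norm_num))
    (exp_neg_leJ (r := 0.722) 3 (by norm_num) (by norm_num) (by norm_num) (by norm_num))
    (exp_neg_leJ (r := 0.563) 6 (by norm_num) (by norm_num) (by norm_num) (by norm_num))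
    (exp_neg_leJ (r := 0.99) 14 (by norm_num) (by norm_num) (by norm_num) (by norm_num))
    (exp_neg_leJ (r := 0.257) 6 (by norm_num) (by norm_num) (by norm_num) (by norm_num))
    (exp_neg_leJ (r := 0.99) 14 (by norm_num) (by norm_num) (by norm_num) (by norm_num))
    (exp_neg_leJ (r := 0.99) 14 (by norm_num) (by norm_num) (by norm_num) (by norm_num))
    (exp_neg_leJ (r := 0.99) 14 (by norm_num) (by norm_num) (by norm_num) (by norm_num))
    (by norm_num)) (by norm_num) hN hβ.le (by norm_num)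

private theorem dl4_b0_4 {β x y : ℝ} (hβ : 0 < β) (hN : β * 18.018 ≤ 1) (hx1 : 0.54 ≤ x) (hx2 : x ≤ 0.8355)
    (hy1 : -0.5 ≤ y) (hy2 : y ≤ -0.325) : ‖HH β (x + y * I) - 1‖ ≤ 0.25 := by
  refine le_epsJ (C := 4.4552) (N0 := 18.018) (J_boxp 0.54 0.8355 0.5 0 (-0.325) 0.7352 0.9737 1.0741 1.6441 0.4135 4.2448 18.018 1.3245 7.682 1.858 0.6372 0.3675 0.2053 0.4038 2.0144 0.3441 1.2476 1.2915 3.1452 0.001333 0.02477 0.0006927 0.0000003101 0.002032 0.0000003101 0.0000003101 0.0000003101 4.4552
    hβ hN hx1 hx2 hy1 hy2 (by norm_num) (by norm_num) (by linarith) (by norm_num) (by norm_num) (by norm_num) (by norm_num) (by norm_num) (by norm_num) (by norm_num) (by norm_num) (by norm_num) (by norm_num) (by norm_num) (by norm_num) (by norm_num) (by norm_num) (by norm_num) (by norm_num) (by norm_num) (by norm_num) (by norm_num) (by norm_num) (by norm_num)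
    (cube_sqrt_geJ (s := 0.7473) (by norm_num) (by norm_num) (by norm_num) (by norm_num))
    (cube_sqrt_geJ (s := 0.9153) (by norm_num) (by norm_num) (by norm_num) (by norm_num))
    (by norm_num) (by norm_num) (by norm_num) (by norm_num) (by norm_num) (by norm_num) (by norm_num) (by norm_num) (by norm_num) (by norm_num) (by norm_num) (by norm_num) (by norm_num) (by norm_num) (by norm_num) (by norm_num) (by norm_num) (by norm_num)
    (exp_neg_leJ (r := 0.621) 6 (by norm_num) (by norm_num) (by norm_num) (by norm_num))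
    (exp_neg_leJ (r := 0.699) 3 (by norm_num) (by norm_num) (by norm_num) (by norm_num))
    (exp_neg_leJ (r := 0.275) 7 (by norm_num) (by norm_num) (by norm_num) (by norm_num))
    (exp_neg_leJ (r := 0.99) 14 (by norm_num) (by norm_num) (by norm_num) (by norm_num))
    (exp_neg_leJ (r := 0.199) 6 (by norm_num) (by norm_num) (by norm_num) (by norm_num))
    (exp_neg_leJ (r := 0.99) 14 (by norm_num) (by norm_num) (by norm_num) (by norm_num))
    (exp_neg_leJ (r := 0.99) 14 (by norm_num) (by norm_num) (by norm_num) (by norm_num))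
    (exp_neg_leJ (r := 0.99) 14 (by norm_num) (by norm_num) (by norm_num) (by norm_num))
    (by norm_num)) (by norm_num) hN hβ.le (by norm_num)

private theorem dl4_b0_5 {β x y : ℝ} (hβ : 0 < β) (hN : β * 18.018 ≤ 1) (hx1 : 0.5109 ≤ x) (hx2 : x ≤ 0.8075)
    (hy1 : -0.425 ≤ y) (hy2 : y ≤ -0.23) : ‖HH β (x + y * I) - 1‖ ≤ 0.25 := by
  refine le_epsJ (C := 2.8835) (N0 := 18.018) (J_boxp 0.5109 0.8075 0.425 0 (-0.23) 0.768 0.9126 1.1158 1.5695 0.4215 4.2448 18.018 1.1883 5.843 1.734 0.7172 0.3839 0.2318 0.5123 2.2749 0.371 1.2073 1.4372 3.2531 0.0009934 0.01536 0.00009806 0.0000003101 0.001252 0.0000003101 0.0000003101 0.0000003101 2.8835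
    hβ hN hx1 hx2 hy1 hy2 (by norm_num) (by norm_num) (by linarith) (by norm_num) (by norm_num) (by norm_num) (by norm_num) (by norm_num) (by norm_num) (by norm_num) (by norm_num) (by norm_num) (by norm_num) (by norm_num) (by norm_num) (by norm_num) (by norm_num) (by norm_num) (by norm_num) (by norm_num) (by norm_num) (by norm_num) (by norm_num) (by norm_num)
    (cube_sqrt_geJ (s := 0.7771) (by norm_num) (by norm_num) (by norm_num) (by norm_num))
    (cube_sqrt_geJ (s := 0.9243) (by norm_num) (by norm_num) (by norm_num) (by norm_num))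
    (by norm_num) (by norm_num) (by norm_num) (by norm_num) (by norm_num) (by norm_num) (by norm_num) (by norm_num) (by norm_num) (by norm_num) (by norm_num) (by norm_num) (by norm_num) (by norm_num) (by norm_num) (by norm_num) (by norm_num) (by norm_num)
    (exp_neg_leJ (r := 0.917) 6 (by norm_num) (by norm_num) (by norm_num) (by norm_num))
    (exp_neg_leJ (r := 0.176) 4 (by norm_num) (by norm_num) (by norm_num) (by norm_num))
    (exp_neg_leJ (r := 0.23) 9 (by norm_num) (by norm_num) (by norm_num) (by norm_num))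
    (exp_neg_leJ (r := 0.99) 14 (by norm_num) (by norm_num) (by norm_num) (by norm_num))
    (exp_neg_leJ (r := 0.684) 6 (by norm_num) (by norm_num) (by norm_num) (by norm_num))
    (exp_neg_leJ (r := 0.99) 14 (by norm_num) (by norm_num) (by norm_num) (by norm_num))
    (exp_neg_leJ (r := 0.99) 14 (by norm_num) (by norm_num) (by norm_num) (by norm_num))
    (exp_neg_leJ (r := 0.99) 14 (by norm_num) (by norm_num) (by norm_num) (by norm_num))
    (by norm_num)) (by norm_num) hN hβ.le (by norm_num)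

private theorem dl4_c0 {κ t β : ℝ} (h : DomR κ t) (hβ : 0 < β) (hk1 : 0.51 ≤ κ) (hk2 : κ ≤ 0.555)
    (ht1 : -0.8012 ≤ t + κ) (ht2 : t + κ ≤ -0.534) (hR0 : β * 10 ≤ κ) (hR : β * (3.3 * (1 + κ ^ 2)) ≤ κ) :
    ∀ s : ℂ, ‖s - sg κ t‖ ≤ 0.05 → ‖HH β s - 1‖ ≤ 0.25 := by
  have hN : β * 18.018 ≤ 1 := bNR hβ h.1 hk2 hR0 (by norm_num)
  have hy1 : -0.52 ≤ sy κ t := syL_ge h 0.51 0.555 0.8012 0.52 0.59452 0.59453 0.5447 0.55702 0.60619 hk1 hk2 (by linarith) (by norm_num) (by norm_num) (by norm_num)
    (expm_ge (by norm_num) (by norm_num) (by norm_num) (by norm_num)) (expm_le (by norm_num) (by norm_num) (by norm_num)) (by norm_num)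
    (by norm_num) (by norm_num) (by norm_num) (by norm_num) (by norm_num) (by norm_num)
  have hy2 : sy κ t ≤ -0.28 := syL_le h 0.51 0.555 0.534 0.28 0.75578 0.75579 0.38129 0.41495 hk1 hk2 (by linarith) (by norm_num) (by norm_num) (by norm_num)
    (expm_ge (by norm_num) (by norm_num) (by norm_num) (by norm_num)) (expm_le (by norm_num) (by norm_num) (by norm_num)) (by norm_num)
    (by norm_num) (by norm_num) (by norm_num) (by norm_num) (by norm_num) (by norm_num)
  intro s hs
  have hs' : ‖s - ((sx κ t : ℂ) + (sy κ t : ℂ) * I)‖ ≤ 0.05 := hs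
  obtain ⟨es, ⟨s1, s2⟩, ⟨s3, s4⟩⟩ := disc_split hs'
  rcases le_total (sy κ t) (-0.515) with f0 | g0
  · have hx1 : 0.6768 ≤ sx κ t := sx_lo h 0.51 (-0.515) 0.52 1.67363 0.6768 hk1 (by norm_num) f0 (abs_le.2 ⟨by linarith, by linarith⟩) (by rw [neg_neg]; exact expn_ge (by norm_num) (by norm_num)) (by norm_num) (by norm_num)
    have hx2 : sx κ t ≤ 0.7787 := sx_hi h 0.555 (-0.52) 0.515 1.68203 0.7787 hk2 hy1 (by norm_num) (by rw [abs_of_nonpos (by linarith)]; linarith) (by rw [neg_neg]; exact expn_le (by norm_num) (by norm_num) (by norm_num)) (by norm_num) (by norm_num)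
    rw [es]
    exact dl4_b0_0 hβ hN (by linarith) (by linarith) (by linarith) (by linarith)
  rcases le_total (sy κ t) (-0.505) with f1 | g1
  · have hx1 : 0.67 ≤ sx κ t := sx_lo h 0.51 (-0.505) 0.515 1.65698 0.67 hk1 (by norm_num) f1 (abs_le.2 ⟨by linarith, by linarith⟩) (by rw [neg_neg]; exact expn_ge (by norm_num) (by norm_num)) (by norm_num) (by norm_num)
    have hx2 : sx κ t ≤ 0.7796 := sx_hi h 0.555 (-0.515) 0.505 1.67364 0.7796 hk2 g0 (by norm_num) (by rw [abs_of_nonpos (by linarith)]; linarith) (by rw [neg_neg]; exact expn_le (by norm_num) (by norm_num) (by norm_num)) (by norm_num) (by norm_num)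
    rw [es]
    exact dl4_b0_1 hβ hN (by linarith) (by linarith) (by linarith) (by linarith)
  rcases le_total (sy κ t) (-0.485) with f2 | g2
  · have hx1 : 0.6565 ≤ sx κ t := sx_lo h 0.51 (-0.485) 0.505 1.62417 0.6565 hk1 (by norm_num) f2 (abs_le.2 ⟨by linarith, by linarith⟩) (by rw [neg_neg]; exact expn_ge (by norm_num) (by norm_num)) (by norm_num) (by norm_num)
    have hx2 : sx κ t ≤ 0.7814 := sx_hi h 0.555 (-0.505) 0.485 1.65699 0.7814 hk2 g1 (by norm_num) (by rw [abs_of_nonpos (by linarith)]; linarith) (by rw [neg_neg]; exact expn_le (by norm_num) (by norm_num) (by norm_num)) (by norm_num) (by norm_num)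
    rw [es]
    exact dl4_b0_2 hβ hN (by linarith) (by linarith) (by linarith) (by linarith)
  rcases le_total (sy κ t) (-0.45) with f3 | g3
  · have hx1 : 0.636 ≤ sx κ t := sx_lo h 0.51 (-0.45) 0.485 1.56831 0.636 hk1 (by norm_num) f3 (abs_le.2 ⟨by linarith, by linarith⟩) (by rw [neg_neg]; exact expn_ge (by norm_num) (by norm_num)) (by norm_num) (by norm_num)
    have hx2 : sx κ t ≤ 0.7811 := sx_hi h 0.555 (-0.485) 0.45 1.62418 0.7811 hk2 g2 (by norm_num) (by rw [abs_of_nonpos (by linarith)]; linarith) (by rw [neg_neg]; exact expn_le (by norm_num) (by norm_num) (by norm_num)) (by norm_num) (by norm_num)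
    rw [es]
    exact dl4_b0_3 hβ hN (by linarith) (by linarith) (by linarith) (by linarith)
  rcases le_total (sy κ t) (-0.375) with f4 | g4
  · have hx1 : 0.59 ≤ sx κ t := sx_lo h 0.51 (-0.375) 0.45 1.45499 0.59 hk1 (by norm_num) f4 (abs_le.2 ⟨by linarith, by linarith⟩) (by rw [neg_neg]; exact expn_ge (by norm_num) (by norm_num)) (by norm_num) (by norm_num)
    have hx2 : sx κ t ≤ 0.7855 := sx_hi h 0.555 (-0.45) 0.375 1.56832 0.7855 hk2 g3 (by norm_num) (by rw [abs_of_nonpos (by linarith)]; linarith) (by rw [neg_neg]; exact expn_le (by norm_num) (by norm_num) (by norm_num)) (by norm_num) (by norm_num)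
    rw [es]
    exact dl4_b0_4 hβ hN (by linarith) (by linarith) (by linarith) (by linarith)
  have hx1 : 0.5609 ≤ sx κ t := sx_lo h 0.51 (-0.28) 0.375 1.32312 0.5609 hk1 (by norm_num) hy2 (abs_le.2 ⟨by linarith, by linarith⟩) (by rw [neg_neg]; exact expn_ge (by norm_num) (by norm_num)) (by norm_num) (by norm_num)
  have hx2 : sx κ t ≤ 0.7575 := sx_hi h 0.555 (-0.375) 0.28 1.455 0.7575 hk2 g4 (by norm_num) (by rw [abs_of_nonpos (by linarith)]; linarith) (by rw [neg_neg]; exact expn_le (by norm_num) (by norm_num) (by norm_num)) (by norm_num) (by norm_num)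
  rw [es]
  exact dl4_b0_5 hβ hN (by linarith) (by linarith) (by linarith) (by linarith)

theorem dl4 {κ t β : ℝ} (h : DomR κ t) (hβ : 0 < β) (hk1 : 0.51 ≤ κ) (hk2 : κ ≤ 0.555)
    (ht1 : -0.8012 ≤ t + κ) (ht2 : t + κ ≤ -0.534) (hR0 : β * 10 ≤ κ) (hR : β * (3.3 * (1 + κ ^ 2)) ≤ κ) :
    ∀ s : ℂ, ‖s - sg κ t‖ ≤ 0.05 → ‖HH β s - 1‖ ≤ 0.25 := by
  exact dl4_c0 h hβ hk1 hk2 ht1 ht2 hR0 hR

private theorem dl5_b0_0 {β x y : ℝ} (hβ : 0 < β) (hN : β * 16.666 ≤ 1) (hx1 : 0.7105 ≤ x) (hx2 : x ≤ 0.9291)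
    (hy1 : -0.582 ≤ y) (hy2 : y ≤ -0.457) : ‖HH β (x + y * I) - 1‖ ≤ 0.28 := by
  refine le_epsJ (C := 4.5542) (N0 := 16.666) (J_boxp 0.7105 0.9291 0.582 0 (-0.457) 0.797 1.0964 1.0762 1.4581 0.4139 4.0825 16.666 1.3757 8.563 1.908 0.5255 0.3984 0.2157 0.3328 1.6951 0.3821 1.4837 1.4096 3.1527 0.00131 0.0275 0.003905 0.0000003101 0.001716 0.0000003101 0.0000003101 0.0000003101 4.5542
    hβ hN hx1 hx2 hy1 hy2 (by norm_num) (by norm_num) (by linarith) (by norm_num) (by norm_num) (by norm_num) (by norm_num) (by norm_num) (by norm_num) (by norm_num) (by norm_num) (by norm_num) (by norm_num) (by norm_num) (by norm_num) (by norm_num) (by norm_num) (by norm_num) (by norm_num) (by norm_num) (by norm_num) (by norm_num) (by norm_num) (by norm_num)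
    (cube_sqrt_geJ (s := 0.7358) (by norm_num) (by norm_num) (by norm_num) (by norm_num))
    (cube_sqrt_geJ (s := 0.9118) (by norm_num) (by norm_num) (by norm_num) (by norm_num))
    (by norm_num) (by norm_num) (by norm_num) (by norm_num) (by norm_num) (by norm_num) (by norm_num) (by norm_num) (by norm_num) (by norm_num) (by norm_num) (by norm_num) (by norm_num) (by norm_num) (by norm_num) (by norm_num) (by norm_num) (by norm_num)
    (exp_neg_leJ (r := 0.639) 6 (by norm_num) (by norm_num) (by norm_num) (by norm_num))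
    (exp_neg_leJ (r := 0.594) 3 (by norm_num) (by norm_num) (by norm_num) (by norm_num))
    (exp_neg_leJ (r := 0.546) 5 (by norm_num) (by norm_num) (by norm_num) (by norm_num))
    (exp_neg_leJ (r := 0.99) 14 (by norm_num) (by norm_num) (by norm_num) (by norm_num))
    (exp_neg_leJ (r := 0.368) 6 (by norm_num) (by norm_num) (by norm_num) (by norm_num))
    (exp_neg_leJ (r := 0.99) 14 (by norm_num) (by norm_num) (by norm_num) (by norm_num))
    (exp_neg_leJ (r := 0.99) 14 (by norm_num) (by norm_num) (by norm_num) (by norm_num))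
    (exp_neg_leJ (r := 0.99) 14 (by norm_num) (by norm_num) (by norm_num) (by norm_num))
    (by norm_num)) (by norm_num) hN hβ.le (by norm_num)

private theorem dl5_b0_1 {β x y : ℝ} (hβ : 0 < β) (hN : β * 16.666 ≤ 1) (hx1 : 0.7027 ≤ x) (hx2 : x ≤ 0.9292)
    (hy1 : -0.577 ≤ y) (hy2 : y ≤ -0.447) : ‖HH β (x + y * I) - 1‖ ≤ 0.28 := by
  refine le_epsJ (C := 4.5832) (N0 := 16.666) (J_boxp 0.7027 0.9292 0.577 0 (-0.447) 0.7951 1.0938 1.0814 1.4668 0.4149 4.0825 16.666 1.3757 8.563 1.908 0.5301 0.3975 0.2152 0.338 1.7114 0.3811 1.4729 1.4076 3.1442 0.001329 0.02772 0.00358 0.0000003101 0.001746 0.0000003101 0.0000003101 0.0000003101 4.5832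
    hβ hN hx1 hx2 hy1 hy2 (by norm_num) (by norm_num) (by linarith) (by norm_num) (by norm_num) (by norm_num) (by norm_num) (by norm_num) (by norm_num) (by norm_num) (by norm_num) (by norm_num) (by norm_num) (by norm_num) (by norm_num) (by norm_num) (by norm_num) (by norm_num) (by norm_num) (by norm_num) (by norm_num) (by norm_num) (by norm_num) (by norm_num)
    (cube_sqrt_geJ (s := 0.7358) (by norm_num) (by norm_num) (by norm_num) (by norm_num))
    (cube_sqrt_geJ (s := 0.9118) (by norm_num) (by norm_num) (by norm_num) (by norm_num))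
    (by norm_num) (by norm_num) (by norm_num) (by norm_num) (by norm_num) (by norm_num) (by norm_num) (by norm_num) (by norm_num) (by norm_num) (by norm_num) (by norm_num) (by norm_num) (by norm_num) (by norm_num) (by norm_num) (by norm_num) (by norm_num)
    (exp_neg_leJ (r := 0.624) 6 (by norm_num) (by norm_num) (by norm_num) (by norm_num))
    (exp_neg_leJ (r := 0.586) 3 (by norm_num) (by norm_num) (by norm_num) (by norm_num))
    (exp_neg_leJ (r := 0.633) 5 (by norm_num) (by norm_num) (by norm_num) (by norm_num))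
    (exp_neg_leJ (r := 0.99) 14 (by norm_num) (by norm_num) (by norm_num) (by norm_num))
    (exp_neg_leJ (r := 0.351) 6 (by norm_num) (by norm_num) (by norm_num) (by norm_num))
    (exp_neg_leJ (r := 0.99) 14 (by norm_num) (by norm_num) (by norm_num) (by norm_num))
    (exp_neg_leJ (r := 0.99) 14 (by norm_num) (by norm_num) (by norm_num) (by norm_num))
    (exp_neg_leJ (r := 0.99) 14 (by norm_num) (by norm_num) (by norm_num) (by norm_num))
    (by norm_num)) (by norm_num) hN hβ.le (by norm_num)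

private theorem dl5_b0_2 {β x y : ℝ} (hβ : 0 < β) (hN : β * 16.666 ≤ 1) (hx1 : 0.6874 ≤ x) (hx2 : x ≤ 0.9291)
    (hy1 : -0.567 ≤ y) (hy2 : y ≤ -0.427) : ‖HH β (x + y * I) - 1‖ ≤ 0.28 := by
  refine le_epsJ (C := 4.6393) (N0 := 16.666) (J_boxp 0.6874 0.9291 0.567 0 (-0.427) 0.7914 1.0885 1.0916 1.4841 0.4169 4.0825 16.666 1.3755 8.56 1.907 0.5393 0.3956 0.2142 0.3485 1.7443 0.3791 1.4517 1.4042 3.128 0.001371 0.0282 0.003008 0.0000003101 0.001804 0.0000003101 0.0000003101 0.0000003101 4.6393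
    hβ hN hx1 hx2 hy1 hy2 (by norm_num) (by norm_num) (by linarith) (by norm_num) (by norm_num) (by norm_num) (by norm_num) (by norm_num) (by norm_num) (by norm_num) (by norm_num) (by norm_num) (by norm_num) (by norm_num) (by norm_num) (by norm_num) (by norm_num) (by norm_num) (by norm_num) (by norm_num) (by norm_num) (by norm_num) (by norm_num) (by norm_num)
    (cube_sqrt_geJ (s := 0.7358) (by norm_num) (by norm_num) (by norm_num) (by norm_num))
    (cube_sqrt_geJ (s := 0.9119) (by norm_num) (by norm_num) (by norm_num) (by norm_num))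
    (by norm_num) (by norm_num) (by norm_num) (by norm_num) (by norm_num) (by norm_num) (by norm_num) (by norm_num) (by norm_num) (by norm_num) (by norm_num) (by norm_num) (by norm_num) (by norm_num) (by norm_num) (by norm_num) (by norm_num) (by norm_num)
    (exp_neg_leJ (r := 0.593) 6 (by norm_num) (by norm_num) (by norm_num) (by norm_num))
    (exp_neg_leJ (r := 0.569) 3 (by norm_num) (by norm_num) (by norm_num) (by norm_num))
    (exp_neg_leJ (r := 0.808) 5 (by norm_num) (by norm_num) (by norm_num) (by norm_num))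
    (exp_neg_leJ (r := 0.99) 14 (by norm_num) (by norm_num) (by norm_num) (by norm_num))
    (exp_neg_leJ (r := 0.318) 6 (by norm_num) (by norm_num) (by norm_num) (by norm_num))
    (exp_neg_leJ (r := 0.99) 14 (by norm_num) (by norm_num) (by norm_num) (by norm_num))
    (exp_neg_leJ (r := 0.99) 14 (by norm_num) (by norm_num) (by norm_num) (by norm_num))
    (exp_neg_leJ (r := 0.99) 14 (by norm_num) (by norm_num) (by norm_num) (by norm_num))
    (by norm_num)) (by norm_num) hN hβ.le (by norm_num)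

private theorem dl5_b0_3 {β x y : ℝ} (hβ : 0 < β) (hN : β * 16.666 ≤ 1) (hx1 : 0.6635 ≤ x) (hx2 : x ≤ 0.9256)
    (hy1 : -0.547 ≤ y) (hy2 : y ≤ -0.392) : ‖HH β (x + y * I) - 1‖ ≤ 0.28 := by
  refine le_epsJ (C := 4.5384) (N0 := 16.666) (J_boxp 0.6635 0.9256 0.547 0 (-0.392) 0.7888 1.0752 1.1075 1.5022 0.4199 4.0825 16.666 1.3631 8.335 1.895 0.5591 0.3943 0.2151 0.3719 1.8117 0.3784 1.4186 1.4107 3.1163 0.001401 0.02778 0.002034 0.0000003101 0.001826 0.0000003101 0.0000003101 0.0000003101 4.5384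
    hβ hN hx1 hx2 hy1 hy2 (by norm_num) (by norm_num) (by linarith) (by norm_num) (by norm_num) (by norm_num) (by norm_num) (by norm_num) (by norm_num) (by norm_num) (by norm_num) (by norm_num) (by norm_num) (by norm_num) (by norm_num) (by norm_num) (by norm_num) (by norm_num) (by norm_num) (by norm_num) (by norm_num) (by norm_num) (by norm_num) (by norm_num)
    (cube_sqrt_geJ (s := 0.7386) (by norm_num) (by norm_num) (by norm_num) (by norm_num))
    (cube_sqrt_geJ (s := 0.9127) (by norm_num) (by norm_num) (by norm_num) (by norm_num))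
    (by norm_num) (by norm_num) (by norm_num) (by norm_num) (by norm_num) (by norm_num) (by norm_num) (by norm_num) (by norm_num) (by norm_num) (by norm_num) (by norm_num) (by norm_num) (by norm_num) (by norm_num) (by norm_num) (by norm_num) (by norm_num)
    (exp_neg_leJ (r := 0.571) 6 (by norm_num) (by norm_num) (by norm_num) (by norm_num))
    (exp_neg_leJ (r := 0.584) 3 (by norm_num) (by norm_num) (by norm_num) (by norm_num))
    (exp_neg_leJ (r := 0.198) 6 (by norm_num) (by norm_num) (by norm_num) (by norm_num))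
    (exp_neg_leJ (r := 0.99) 14 (by norm_num) (by norm_num) (by norm_num) (by norm_num))
    (exp_neg_leJ (r := 0.306) 6 (by norm_num) (by norm_num) (by norm_num) (by norm_num))
    (exp_neg_leJ (r := 0.99) 14 (by norm_num) (by norm_num) (by norm_num) (by norm_num))
    (exp_neg_leJ (r := 0.99) 14 (by norm_num) (by norm_num) (by norm_num) (by norm_num))
    (exp_neg_leJ (r := 0.99) 14 (by norm_num) (by norm_num) (by norm_num) (by norm_num))
    (by norm_num)) (by norm_num) hN hβ.le (by norm_num)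

private theorem dl5_b0_4 {β x y : ℝ} (hβ : 0 < β) (hN : β * 16.666 ≤ 1) (hx1 : 0.616 ≤ x) (hx2 : x ≤ 0.9221)
    (hy1 : -0.512 ≤ y) (hy2 : y ≤ -0.322) : ‖HH β (x + y * I) - 1‖ ≤ 0.28 := by
  refine le_epsJ (C := 4.5611) (N0 := 16.666) (J_boxp 0.616 0.9221 0.512 0 (-0.322) 0.7802 1.0548 1.1446 1.5525 0.4269 4.0825 16.666 1.352 8.14 1.885 0.5928 0.39 0.2142 0.4109 1.9282 0.3745 1.3529 1.4109 3.0768 0.001506 0.0282 0.001064 0.0000003101 0.001948 0.0000003101 0.0000003101 0.0000003101 4.5611
    hβ hN hx1 hx2 hy1 hy2 (by norm_num) (by norm_num) (by linarith) (by norm_num) (by norm_num) (by norm_num) (by norm_num) (by norm_num) (by norm_num) (by norm_num) (by norm_num) (by norm_num) (by norm_num) (by norm_num) (by norm_num) (by norm_num) (by norm_num) (by norm_num) (by norm_num) (by norm_num) (by norm_num) (by norm_num) (by norm_num) (by norm_num)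
    (cube_sqrt_geJ (s := 0.7411) (by norm_num) (by norm_num) (by norm_num) (by norm_num))
    (cube_sqrt_geJ (s := 0.9134) (by norm_num) (by norm_num) (by norm_num) (by norm_num))
    (by norm_num) (by norm_num) (by norm_num) (by norm_num) (by norm_num) (by norm_num) (by norm_num) (by norm_num) (by norm_num) (by norm_num) (by norm_num) (by norm_num) (by norm_num) (by norm_num) (by norm_num) (by norm_num) (by norm_num) (by norm_num)
    (exp_neg_leJ (r := 0.499) 6 (by norm_num) (by norm_num) (by norm_num) (by norm_num))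
    (exp_neg_leJ (r := 0.569) 3 (by norm_num) (by norm_num) (by norm_num) (by norm_num))
    (exp_neg_leJ (r := 0.848) 6 (by norm_num) (by norm_num) (by norm_num) (by norm_num))
    (exp_neg_leJ (r := 0.99) 14 (by norm_num) (by norm_num) (by norm_num) (by norm_num))
    (exp_neg_leJ (r := 0.241) 6 (by norm_num) (by norm_num) (by norm_num) (by norm_num))
    (exp_neg_leJ (r := 0.99) 14 (by norm_num) (by norm_num) (by norm_num) (by norm_num))
    (exp_neg_leJ (r := 0.99) 14 (by norm_num) (by norm_num) (by norm_num) (by norm_num))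
    (exp_neg_leJ (r := 0.99) 14 (by norm_num) (by norm_num) (by norm_num) (by norm_num))
    (by norm_num)) (by norm_num) hN hβ.le (by norm_num)

private theorem dl5_b0_5 {β x y : ℝ} (hβ : 0 < β) (hN : β * 16.666 ≤ 1) (hx1 : 0.5775 ≤ x) (hx2 : x ≤ 0.8893)
    (hy1 : -0.442 ≤ y) (hy2 : y ≤ -0.232) : ‖HH β (x + y * I) - 1‖ ≤ 0.28 := by
  refine le_epsJ (C := 3.1997) (N0 := 16.666) (J_boxp 0.5775 0.8893 0.442 0 (-0.232) 0.8028 0.9931 1.1751 1.5071 0.4325 4.0825 16.666 1.2371 6.43 1.778 0.67 0.4013 0.2358 0.5082 2.1746 0.394 1.2996 1.5242 3.1675 0.001247 0.01972 0.00021 0.0000003101 0.001408 0.0000003101 0.0000003101 0.0000003101 3.1997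
    hβ hN hx1 hx2 hy1 hy2 (by norm_num) (by norm_num) (by linarith) (by norm_num) (by norm_num) (by norm_num) (by norm_num) (by norm_num) (by norm_num) (by norm_num) (by norm_num) (by norm_num) (by norm_num) (by norm_num) (by norm_num) (by norm_num) (by norm_num) (by norm_num) (by norm_num) (by norm_num) (by norm_num) (by norm_num) (by norm_num) (by norm_num)
    (cube_sqrt_geJ (s := 0.7665) (by norm_num) (by norm_num) (by norm_num) (by norm_num))
    (cube_sqrt_geJ (s := 0.9211) (by norm_num) (by norm_num) (by norm_num) (by norm_num))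
    (by norm_num) (by norm_num) (by norm_num) (by norm_num) (by norm_num) (by norm_num) (by norm_num) (by norm_num) (by norm_num) (by norm_num) (by norm_num) (by norm_num) (by norm_num) (by norm_num) (by norm_num) (by norm_num) (by norm_num) (by norm_num)
    (exp_neg_leJ (r := 0.688) 6 (by norm_num) (by norm_num) (by norm_num) (by norm_num))
    (exp_neg_leJ (r := 0.929) 3 (by norm_num) (by norm_num) (by norm_num) (by norm_num))
    (exp_neg_leJ (r := 0.469) 8 (by norm_num) (by norm_num) (by norm_num) (by norm_num))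
    (exp_neg_leJ (r := 0.99) 14 (by norm_num) (by norm_num) (by norm_num) (by norm_num))
    (exp_neg_leJ (r := 0.566) 6 (by norm_num) (by norm_num) (by norm_num) (by norm_num))
    (exp_neg_leJ (r := 0.99) 14 (by norm_num) (by norm_num) (by norm_num) (by norm_num))
    (exp_neg_leJ (r := 0.99) 14 (by norm_num) (by norm_num) (by norm_num) (by norm_num))
    (exp_neg_leJ (r := 0.99) 14 (by norm_num) (by norm_num) (by norm_num) (by norm_num))
    (by norm_num)) (by norm_num) hN hβ.le (by norm_num)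

private theorem dl5_c0 {κ t β : ℝ} (h : DomR κ t) (hβ : 0 < β) (hk1 : 0.555 ≤ κ) (hk2 : κ ≤ 0.6)
    (ht1 : -0.8012 ≤ t + κ) (ht2 : t + κ ≤ -0.534) (hR0 : β * 10 ≤ κ) (hR : β * (3.3 * (1 + κ ^ 2)) ≤ κ) :
    ∀ s : ℂ, ‖s - sg κ t‖ ≤ 0.06 → ‖HH β s - 1‖ ≤ 0.28 := by
  have hN : β * 16.666 ≤ 1 := bNR hβ h.1 hk2 hR0 (by norm_num)
  have hy1 : -0.522 ≤ sy κ t := syL_ge h 0.555 0.6 0.8012 0.522 0.59333 0.59334 0.5196 0.51619 0.55807 hk1 hk2 (by linarith) (by norm_num) (by norm_num) (by norm_num)
    (expm_ge (by norm_num) (by norm_num) (by norm_num) (by norm_num)) (expm_le (by norm_num) (by norm_num) (by norm_num)) (by norm_num)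
    (by norm_num) (by norm_num) (by norm_num) (by norm_num) (by norm_num) (by norm_num)
  have hy2 : sy κ t ≤ -0.292 := syL_le h 0.555 0.6 0.534 0.292 0.74676 0.74677 0.36342 0.3929 hk1 hk2 (by linarith) (by norm_num) (by norm_num) (by norm_num)
    (expm_ge (by norm_num) (by norm_num) (by norm_num) (by norm_num)) (expm_le (by norm_num) (by norm_num) (by norm_num)) (by norm_num)
    (by norm_num) (by norm_num) (by norm_num) (by norm_num) (by norm_num) (by norm_num)
  intro s hs
  have hs' : ‖s - ((sx κ t : ℂ) + (sy κ t : ℂ) * I)‖ ≤ 0.06 := hs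
  obtain ⟨es, ⟨s1, s2⟩, ⟨s3, s4⟩⟩ := disc_split hs'
  rcases le_total (sy κ t) (-0.517) with f0 | g0
  · have hx1 : 0.7705 ≤ sx κ t := sx_lo h 0.555 (-0.517) 0.522 1.67698 0.7705 hk1 (by norm_num) f0 (abs_le.2 ⟨by linarith, by linarith⟩) (by rw [neg_neg]; exact expn_ge (by norm_num) (by norm_num)) (by norm_num) (by norm_num)
    have hx2 : sx κ t ≤ 0.8691 := sx_hi h 0.6 (-0.522) 0.517 1.6854 0.8691 hk2 hy1 (by norm_num) (by rw [abs_of_nonpos (by linarith)]; linarith) (by rw [neg_neg]; exact expn_le (by norm_num) (by norm_num) (by norm_num)) (by norm_num) (by norm_num)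
    rw [es]
    exact dl5_b0_0 hβ hN (by linarith) (by linarith) (by linarith) (by linarith)
  rcases le_total (sy κ t) (-0.507) with f1 | g1
  · have hx1 : 0.7627 ≤ sx κ t := sx_lo h 0.555 (-0.507) 0.517 1.6603 0.7627 hk1 (by norm_num) f1 (abs_le.2 ⟨by linarith, by linarith⟩) (by rw [neg_neg]; exact expn_ge (by norm_num) (by norm_num)) (by norm_num) (by norm_num)
    have hx2 : sx κ t ≤ 0.8692 := sx_hi h 0.6 (-0.517) 0.507 1.67699 0.8692 hk2 g0 (by norm_num) (by rw [abs_of_nonpos (by linarith)]; linarith) (by rw [neg_neg]; exact expn_le (by norm_num) (by norm_num) (by norm_num)) (by norm_num) (by norm_num)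
    rw [es]
    exact dl5_b0_1 hβ hN (by linarith) (by linarith) (by linarith) (by linarith)
  rcases le_total (sy κ t) (-0.487) with f2 | g2
  · have hx1 : 0.7474 ≤ sx κ t := sx_lo h 0.555 (-0.487) 0.507 1.62742 0.7474 hk1 (by norm_num) f2 (abs_le.2 ⟨by linarith, by linarith⟩) (by rw [neg_neg]; exact expn_ge (by norm_num) (by norm_num)) (by norm_num) (by norm_num)
    have hx2 : sx κ t ≤ 0.8691 := sx_hi h 0.6 (-0.507) 0.487 1.66031 0.8691 hk2 g1 (by norm_num) (by rw [abs_of_nonpos (by linarith)]; linarith) (by rw [neg_neg]; exact expn_le (by norm_num) (by norm_num) (by norm_num)) (by norm_num) (by norm_num)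
    rw [es]
    exact dl5_b0_2 hβ hN (by linarith) (by linarith) (by linarith) (by linarith)
  rcases le_total (sy κ t) (-0.452) with f3 | g3
  · have hx1 : 0.7235 ≤ sx κ t := sx_lo h 0.555 (-0.452) 0.487 1.57145 0.7235 hk1 (by norm_num) f3 (abs_le.2 ⟨by linarith, by linarith⟩) (by rw [neg_neg]; exact expn_ge (by norm_num) (by norm_num)) (by norm_num) (by norm_num)
    have hx2 : sx κ t ≤ 0.8656 := sx_hi h 0.6 (-0.487) 0.452 1.62743 0.8656 hk2 g2 (by norm_num) (by rw [abs_of_nonpos (by linarith)]; linarith) (by rw [neg_neg]; exact expn_le (by norm_num) (by norm_num) (by norm_num)) (by norm_num) (by norm_num)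
    rw [es]
    exact dl5_b0_3 hβ hN (by linarith) (by linarith) (by linarith) (by linarith)
  rcases le_total (sy κ t) (-0.382) with f4 | g4
  · have hx1 : 0.676 ≤ sx κ t := sx_lo h 0.555 (-0.382) 0.452 1.46521 0.676 hk1 (by norm_num) f4 (abs_le.2 ⟨by linarith, by linarith⟩) (by rw [neg_neg]; exact expn_ge (by norm_num) (by norm_num)) (by norm_num) (by norm_num)
    have hx2 : sx κ t ≤ 0.8621 := sx_hi h 0.6 (-0.452) 0.382 1.57146 0.8621 hk2 g3 (by norm_num) (by rw [abs_of_nonpos (by linarith)]; linarith) (by rw [neg_neg]; exact expn_le (by norm_num) (by norm_num) (by norm_num)) (by norm_num) (by norm_num)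
    rw [es]
    exact dl5_b0_4 hβ hN (by linarith) (by linarith) (by linarith) (by linarith)
  have hx1 : 0.6375 ≤ sx κ t := sx_lo h 0.555 (-0.292) 0.382 1.3391 0.6375 hk1 (by norm_num) hy2 (abs_le.2 ⟨by linarith, by linarith⟩) (by rw [neg_neg]; exact expn_ge (by norm_num) (by norm_num)) (by norm_num) (by norm_num)
  have hx2 : sx κ t ≤ 0.8293 := sx_hi h 0.6 (-0.382) 0.292 1.46522 0.8293 hk2 g4 (by norm_num) (by rw [abs_of_nonpos (by linarith)]; linarith) (by rw [neg_neg]; exact expn_le (by norm_num) (by norm_num) (by norm_num)) (by norm_num) (by norm_num)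
  rw [es]
  exact dl5_b0_5 hβ hN (by linarith) (by linarith) (by linarith) (by linarith)

theorem dl5 {κ t β : ℝ} (h : DomR κ t) (hβ : 0 < β) (hk1 : 0.555 ≤ κ) (hk2 : κ ≤ 0.6)
    (ht1 : -0.8012 ≤ t + κ) (ht2 : t + κ ≤ -0.534) (hR0 : β * 10 ≤ κ) (hR : β * (3.3 * (1 + κ ^ 2)) ≤ κ) :
    ∀ s : ℂ, ‖s - sg κ t‖ ≤ 0.06 → ‖HH β s - 1‖ ≤ 0.28 := by
  exact dl5_c0 h hβ hk1 hk2 ht1 ht2 hR0 hR

private theorem dl6_b0_0 {β x y : ℝ} (hβ : 0 < β) (hN : β * 15.384 ≤ 1) (hx1 : 0.8001 ≤ x) (hx2 : x ≤ 1.0259)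
    (hy1 : -0.582 ≤ y) (hy2 : y ≤ -0.457) : ‖HH β (x + y * I) - 1‖ ≤ 0.28 := by
  refine le_epsJ (C := 4.1695) (N0 := 15.384) (J_boxp 0.8001 1.0259 0.582 0 (-0.457) 0.8601 1.1795 1.1608 1.3507 0.4299 3.9223 15.384 1.3714 8.485 1.904 0.4883 0.43 0.2334 0.3634 1.6428 0.4257 1.6078 1.5888 3.106 0.001341 0.02761 0.003737 0.0000003101 0.001434 0.0000003101 0.0000003101 0.0000003101 4.1695
    hβ hN hx1 hx2 hy1 hy2 (by norm_num) (by norm_num) (by linarith) (by norm_num) (by norm_num) (by norm_num) (by norm_num) (by norm_num) (by norm_num) (by norm_num) (by norm_num) (by norm_num) (by norm_num) (by norm_num) (by norm_num) (by norm_num) (by norm_num) (by norm_num) (by norm_num) (by norm_num) (by norm_num) (by norm_num) (by norm_num) (by norm_num)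
    (cube_sqrt_geJ (s := 0.7367) (by norm_num) (by norm_num) (by norm_num) (by norm_num))
    (cube_sqrt_geJ (s := 0.9121) (by norm_num) (by norm_num) (by norm_num) (by norm_num))
    (by norm_num) (by norm_num) (by norm_num) (by norm_num) (by norm_num) (by norm_num) (by norm_num) (by norm_num) (by norm_num) (by norm_num) (by norm_num) (by norm_num) (by norm_num) (by norm_num) (by norm_num) (by norm_num) (by norm_num) (by norm_num)
    (exp_neg_leJ (r := 0.615) 6 (by norm_num) (by norm_num) (by norm_num) (by norm_num))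
    (exp_neg_leJ (r := 0.59) 3 (by norm_num) (by norm_num) (by norm_num) (by norm_num))
    (exp_neg_leJ (r := 0.59) 5 (by norm_num) (by norm_num) (by norm_num) (by norm_num))
    (exp_neg_leJ (r := 0.99) 14 (by norm_num) (by norm_num) (by norm_num) (by norm_num))
    (exp_neg_leJ (r := 0.548) 6 (by norm_num) (by norm_num) (by norm_num) (by norm_num))
    (exp_neg_leJ (r := 0.99) 14 (by norm_num) (by norm_num) (by norm_num) (by norm_num))
    (exp_neg_leJ (r := 0.99) 14 (by norm_num) (by norm_num) (by norm_num) (by norm_num))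
    (exp_neg_leJ (r := 0.99) 14 (by norm_num) (by norm_num) (by norm_num) (by norm_num))
    (by norm_num)) (by norm_num) hN hβ.le (by norm_num)

private theorem dl6_b0_1 {β x y : ℝ} (hβ : 0 < β) (hN : β * 15.384 ≤ 1) (hx1 : 0.7915 ≤ x) (hx2 : x ≤ 1.025)
    (hy1 : -0.577 ≤ y) (hy2 : y ≤ -0.447) : ‖HH β (x + y * I) - 1‖ ≤ 0.28 := by
  refine le_epsJ (C := 4.2006) (N0 := 15.384) (J_boxp 0.7915 1.025 0.577 0 (-0.447) 0.8576 1.1763 1.1647 1.3589 0.4306 3.9223 15.384 1.3717 8.49 1.904 0.4932 0.4287 0.2327 0.3684 1.6596 0.4242 1.5959 1.5852 3.0975 0.001368 0.02792 0.003461 0.0000003101 0.001467 0.0000003101 0.0000003101 0.0000003101 4.2006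
    hβ hN hx1 hx2 hy1 hy2 (by norm_num) (by norm_num) (by linarith) (by norm_num) (by norm_num) (by norm_num) (by norm_num) (by norm_num) (by norm_num) (by norm_num) (by norm_num) (by norm_num) (by norm_num) (by norm_num) (by norm_num) (by norm_num) (by norm_num) (by norm_num) (by norm_num) (by norm_num) (by norm_num) (by norm_num) (by norm_num) (by norm_num)
    (cube_sqrt_geJ (s := 0.7367) (by norm_num) (by norm_num) (by norm_num) (by norm_num))
    (cube_sqrt_geJ (s := 0.9121) (by norm_num) (by norm_num) (by norm_num) (by norm_num))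
    (by norm_num) (by norm_num) (by norm_num) (by norm_num) (by norm_num) (by norm_num) (by norm_num) (by norm_num) (by norm_num) (by norm_num) (by norm_num) (by norm_num) (by norm_num) (by norm_num) (by norm_num) (by norm_num) (by norm_num) (by norm_num)
    (exp_neg_leJ (r := 0.595) 6 (by norm_num) (by norm_num) (by norm_num) (by norm_num))
    (exp_neg_leJ (r := 0.579) 3 (by norm_num) (by norm_num) (by norm_num) (by norm_num))
    (exp_neg_leJ (r := 0.667) 5 (by norm_num) (by norm_num) (by norm_num) (by norm_num))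
    (exp_neg_leJ (r := 0.99) 14 (by norm_num) (by norm_num) (by norm_num) (by norm_num))
    (exp_neg_leJ (r := 0.525) 6 (by norm_num) (by norm_num) (by norm_num) (by norm_num))
    (exp_neg_leJ (r := 0.99) 14 (by norm_num) (by norm_num) (by norm_num) (by norm_num))
    (exp_neg_leJ (r := 0.99) 14 (by norm_num) (by norm_num) (by norm_num) (by norm_num))
    (exp_neg_leJ (r := 0.99) 14 (by norm_num) (by norm_num) (by norm_num) (by norm_num))
    (by norm_num)) (by norm_num) hN hβ.le (by norm_num)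

private theorem dl6_b0_2 {β x y : ℝ} (hβ : 0 < β) (hN : β * 15.384 ≤ 1) (hx1 : 0.7745 ≤ x) (hx2 : x ≤ 1.0231)
    (hy1 : -0.567 ≤ y) (hy2 : y ≤ -0.427) : ‖HH β (x + y * I) - 1‖ ≤ 0.28 := by
  refine le_epsJ (C := 4.2565) (N0 := 15.384) (J_boxp 0.7745 1.0231 0.567 0 (-0.427) 0.8528 1.1698 1.1727 1.3751 0.4321 3.9223 15.384 1.3718 8.491 1.904 0.5032 0.4263 0.2314 0.3784 1.6934 0.4214 1.5723 1.5784 3.0812 0.00142 0.02848 0.00297 0.0000003101 0.001531 0.0000003101 0.0000003101 0.0000003101 4.2565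
    hβ hN hx1 hx2 hy1 hy2 (by norm_num) (by norm_num) (by linarith) (by norm_num) (by norm_num) (by norm_num) (by norm_num) (by norm_num) (by norm_num) (by norm_num) (by norm_num) (by norm_num) (by norm_num) (by norm_num) (by norm_num) (by norm_num) (by norm_num) (by norm_num) (by norm_num) (by norm_num) (by norm_num) (by norm_num) (by norm_num) (by norm_num)
    (cube_sqrt_geJ (s := 0.7367) (by norm_num) (by norm_num) (by norm_num) (by norm_num))
    (cube_sqrt_geJ (s := 0.9121) (by norm_num) (by norm_num) (by norm_num) (by norm_num))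
    (by norm_num) (by norm_num) (by norm_num) (by norm_num) (by norm_num) (by norm_num) (by norm_num) (by norm_num) (by norm_num) (by norm_num) (by norm_num) (by norm_num) (by norm_num) (by norm_num) (by norm_num) (by norm_num) (by norm_num) (by norm_num)
    (exp_neg_leJ (r := 0.558) 6 (by norm_num) (by norm_num) (by norm_num) (by norm_num))
    (exp_neg_leJ (r := 0.559) 3 (by norm_num) (by norm_num) (by norm_num) (by norm_num))
    (exp_neg_leJ (r := 0.821) 5 (by norm_num) (by norm_num) (by norm_num) (by norm_num))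
    (exp_neg_leJ (r := 0.99) 14 (by norm_num) (by norm_num) (by norm_num) (by norm_num))
    (exp_neg_leJ (r := 0.482) 6 (by norm_num) (by norm_num) (by norm_num) (by norm_num))
    (exp_neg_leJ (r := 0.99) 14 (by norm_num) (by norm_num) (by norm_num) (by norm_num))
    (exp_neg_leJ (r := 0.99) 14 (by norm_num) (by norm_num) (by norm_num) (by norm_num))
    (exp_neg_leJ (r := 0.99) 14 (by norm_num) (by norm_num) (by norm_num) (by norm_num))
    (by norm_num)) (by norm_num) hN hβ.le (by norm_num)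

private theorem dl6_b0_3 {β x y : ℝ} (hβ : 0 < β) (hN : β * 15.384 ≤ 1) (hx1 : 0.7473 ≤ x) (hx2 : x ≤ 1.0164)
    (hy1 : -0.547 ≤ y) (hy2 : y ≤ -0.392) : ‖HH β (x + y * I) - 1‖ ≤ 0.28 := by
  refine le_epsJ (C := 4.1991) (N0 := 15.384) (J_boxp 0.7473 1.0164 0.547 0 (-0.392) 0.8478 1.1543 1.1844 1.3942 0.4342 3.9223 15.384 1.3616 8.308 1.894 0.5242 0.4238 0.2315 0.4006 1.7624 0.4191 1.5347 1.5783 3.0689 0.001476 0.02842 0.002109 0.0000003101 0.001586 0.0000003101 0.0000003101 0.0000003101 4.1991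
    hβ hN hx1 hx2 hy1 hy2 (by norm_num) (by norm_num) (by linarith) (by norm_num) (by norm_num) (by norm_num) (by norm_num) (by norm_num) (by norm_num) (by norm_num) (by norm_num) (by norm_num) (by norm_num) (by norm_num) (by norm_num) (by norm_num) (by norm_num) (by norm_num) (by norm_num) (by norm_num) (by norm_num) (by norm_num) (by norm_num) (by norm_num)
    (cube_sqrt_geJ (s := 0.739) (by norm_num) (by norm_num) (by norm_num) (by norm_num))
    (cube_sqrt_geJ (s := 0.9128) (by norm_num) (by norm_num) (by norm_num) (by norm_num))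
    (by norm_num) (by norm_num) (by norm_num) (by norm_num) (by norm_num) (by norm_num) (by norm_num) (by norm_num) (by norm_num) (by norm_num) (by norm_num) (by norm_num) (by norm_num) (by norm_num) (by norm_num) (by norm_num) (by norm_num) (by norm_num)
    (exp_neg_leJ (r := 0.519) 6 (by norm_num) (by norm_num) (by norm_num) (by norm_num))
    (exp_neg_leJ (r := 0.561) 3 (by norm_num) (by norm_num) (by norm_num) (by norm_num))
    (exp_neg_leJ (r := 0.162) 6 (by norm_num) (by norm_num) (by norm_num) (by norm_num))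
    (exp_neg_leJ (r := 0.99) 14 (by norm_num) (by norm_num) (by norm_num) (by norm_num))
    (exp_neg_leJ (r := 0.447) 6 (by norm_num) (by norm_num) (by norm_num) (by norm_num))
    (exp_neg_leJ (r := 0.99) 14 (by norm_num) (by norm_num) (by norm_num) (by norm_num))
    (exp_neg_leJ (r := 0.99) 14 (by norm_num) (by norm_num) (by norm_num) (by norm_num))
    (exp_neg_leJ (r := 0.99) 14 (by norm_num) (by norm_num) (by norm_num) (by norm_num))
    (by norm_num)) (by norm_num) hN hβ.le (by norm_num)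

private theorem dl6_b0_4 {β x y : ℝ} (hβ : 0 < β) (hN : β * 15.384 ≤ 1) (hx1 : 0.694 ≤ x) (hx2 : x ≤ 1.0074)
    (hy1 : -0.512 ≤ y) (hy2 : y ≤ -0.322) : ‖HH β (x + y * I) - 1‖ ≤ 0.28 := by
  refine le_epsJ (C := 4.2682) (N0 := 15.384) (J_boxp 0.694 1.0074 0.512 0 (-0.322) 0.8351 1.1301 1.2144 1.4441 0.4397 3.9223 15.384 1.3533 8.163 1.886 0.56 0.4175 0.2291 0.4376 1.8815 0.4124 1.4609 1.5669 3.0281 0.001626 0.02949 0.001194 0.0000003101 0.001758 0.0000003101 0.0000003101 0.0000003101 4.2682
    hβ hN hx1 hx2 hy1 hy2 (by norm_num) (by norm_num) (by linarith) (by norm_num) (by norm_num) (by norm_num) (by norm_num) (by norm_num) (by norm_num) (by norm_num) (by norm_num) (by norm_num) (by norm_num) (by norm_num) (by norm_num) (by norm_num) (by norm_num) (by norm_num) (by norm_num) (by norm_num) (by norm_num) (by norm_num) (by norm_num) (by norm_num)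
    (cube_sqrt_geJ (s := 0.7408) (by norm_num) (by norm_num) (by norm_num) (by norm_num))
    (cube_sqrt_geJ (s := 0.9134) (by norm_num) (by norm_num) (by norm_num) (by norm_num))
    (by norm_num) (by norm_num) (by norm_num) (by norm_num) (by norm_num) (by norm_num) (by norm_num) (by norm_num) (by norm_num) (by norm_num) (by norm_num) (by norm_num) (by norm_num) (by norm_num) (by norm_num) (by norm_num) (by norm_num) (by norm_num)
    (exp_neg_leJ (r := 0.422) 6 (by norm_num) (by norm_num) (by norm_num) (by norm_num))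
    (exp_neg_leJ (r := 0.524) 3 (by norm_num) (by norm_num) (by norm_num) (by norm_num))
    (exp_neg_leJ (r := 0.732) 6 (by norm_num) (by norm_num) (by norm_num) (by norm_num))
    (exp_neg_leJ (r := 0.99) 14 (by norm_num) (by norm_num) (by norm_num) (by norm_num))
    (exp_neg_leJ (r := 0.344) 6 (by norm_num) (by norm_num) (by norm_num) (by norm_num))
    (exp_neg_leJ (r := 0.99) 14 (by norm_num) (by norm_num) (by norm_num) (by norm_num))
    (exp_neg_leJ (r := 0.99) 14 (by norm_num) (by norm_num) (by norm_num) (by norm_num))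
    (exp_neg_leJ (r := 0.99) 14 (by norm_num) (by norm_num) (by norm_num) (by norm_num))
    (by norm_num)) (by norm_num) hN hβ.le (by norm_num)

private theorem dl6_b0_5 {β x y : ℝ} (hβ : 0 < β) (hN : β * 15.384 ≤ 1) (hx1 : 0.655 ≤ x) (hx2 : x ≤ 0.9636)
    (hy1 : -0.442 ≤ y) (hy2 : y ≤ -0.241) : ‖HH β (x + y * I) - 1‖ ≤ 0.28 := by
  refine le_epsJ (C := 2.9689) (N0 := 15.384) (J_boxp 0.655 0.9636 0.442 0 (-0.241) 0.8574 1.0602 1.2267 1.3951 0.4419 3.9223 15.384 1.2366 6.424 1.777 0.6415 0.4286 0.2519 0.5348 2.1336 0.4317 1.4069 1.6792 3.1401 0.001371 0.0208 0.0002674 0.0000003101 0.001307 0.0000003101 0.0000003101 0.0000003101 2.9689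
    hβ hN hx1 hx2 hy1 hy2 (by norm_num) (by norm_num) (by linarith) (by norm_num) (by norm_num) (by norm_num) (by norm_num) (by norm_num) (by norm_num) (by norm_num) (by norm_num) (by norm_num) (by norm_num) (by norm_num) (by norm_num) (by norm_num) (by norm_num) (by norm_num) (by norm_num) (by norm_num) (by norm_num) (by norm_num) (by norm_num) (by norm_num)
    (cube_sqrt_geJ (s := 0.7666) (by norm_num) (by norm_num) (by norm_num) (by norm_num))
    (cube_sqrt_geJ (s := 0.9211) (by norm_num) (by norm_num) (by norm_num) (by norm_num))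
    (by norm_num) (by norm_num) (by norm_num) (by norm_num) (by norm_num) (by norm_num) (by norm_num) (by norm_num) (by norm_num) (by norm_num) (by norm_num) (by norm_num) (by norm_num) (by norm_num) (by norm_num) (by norm_num) (by norm_num) (by norm_num)
    (exp_neg_leJ (r := 0.593) 6 (by norm_num) (by norm_num) (by norm_num) (by norm_num))
    (exp_neg_leJ (r := 0.875) 3 (by norm_num) (by norm_num) (by norm_num) (by norm_num))
    (exp_neg_leJ (r := 0.227) 8 (by norm_num) (by norm_num) (by norm_num) (by norm_num))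
    (exp_neg_leJ (r := 0.99) 14 (by norm_num) (by norm_num) (by norm_num) (by norm_num))
    (exp_neg_leJ (r := 0.641) 6 (by norm_num) (by norm_num) (by norm_num) (by norm_num))
    (exp_neg_leJ (r := 0.99) 14 (by norm_num) (by norm_num) (by norm_num) (by norm_num))
    (exp_neg_leJ (r := 0.99) 14 (by norm_num) (by norm_num) (by norm_num) (by norm_num))
    (exp_neg_leJ (r := 0.99) 14 (by norm_num) (by norm_num) (by norm_num) (by norm_num))
    (by norm_num)) (by norm_num) hN hβ.le (by norm_num)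

private theorem dl6_c0 {κ t β : ℝ} (h : DomR κ t) (hβ : 0 < β) (hk1 : 0.6 ≤ κ) (hk2 : κ ≤ 0.65)
    (ht1 : -0.8012 ≤ t + κ) (ht2 : t + κ ≤ -0.534) (hR0 : β * 10 ≤ κ) (hR : β * (3.3 * (1 + κ ^ 2)) ≤ κ) :
    ∀ s : ℂ, ‖s - sg κ t‖ ≤ 0.06 → ‖HH β s - 1‖ ≤ 0.28 := by
  have hN : β * 15.384 ≤ 1 := bNR hβ h.1 hk2 hR0 (by norm_num)
  have hy1 : -0.522 ≤ sy κ t := syL_ge h 0.6 0.65 0.8012 0.522 0.59333 0.59334 0.5128 0.47648 0.51621 hk1 hk2 (by linarith) (by norm_num) (by norm_num) (by norm_num)
    (expm_ge (by norm_num) (by norm_num) (by norm_num) (by norm_num)) (expm_le (by norm_num) (by norm_num) (by norm_num)) (by norm_num)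
    (by norm_num) (by norm_num) (by norm_num) (by norm_num) (by norm_num) (by norm_num)
  have hy2 : sy κ t ≤ -0.301 := syL_le h 0.6 0.65 0.534 0.301 0.74007 0.74008 0.3427 0.37128 hk1 hk2 (by linarith) (by norm_num) (by norm_num) (by norm_num)
    (expm_ge (by norm_num) (by norm_num) (by norm_num) (by norm_num)) (expm_le (by norm_num) (by norm_num) (by norm_num)) (by norm_num)
    (by norm_num) (by norm_num) (by norm_num) (by norm_num) (by norm_num) (by norm_num)
  intro s hs
  have hs' : ‖s - ((sx κ t : ℂ) + (sy κ t : ℂ) * I)‖ ≤ 0.06 := hs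
  obtain ⟨es, ⟨s1, s2⟩, ⟨s3, s4⟩⟩ := disc_split hs'
  rcases le_total (sy κ t) (-0.517) with f0 | g0
  · have hx1 : 0.8601 ≤ sx κ t := sx_lo h 0.6 (-0.517) 0.522 1.67698 0.8601 hk1 (by norm_num) f0 (abs_le.2 ⟨by linarith, by linarith⟩) (by rw [neg_neg]; exact expn_ge (by norm_num) (by norm_num)) (by norm_num) (by norm_num)
    have hx2 : sx κ t ≤ 0.9659 := sx_hi h 0.65 (-0.522) 0.517 1.6854 0.9659 hk2 hy1 (by norm_num) (by rw [abs_of_nonpos (by linarith)]; linarith) (by rw [neg_neg]; exact expn_le (by norm_num) (by norm_num) (by norm_num)) (by norm_num) (by norm_num)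
    rw [es]
    exact dl6_b0_0 hβ hN (by linarith) (by linarith) (by linarith) (by linarith)
  rcases le_total (sy κ t) (-0.507) with f1 | g1
  · have hx1 : 0.8515 ≤ sx κ t := sx_lo h 0.6 (-0.507) 0.517 1.6603 0.8515 hk1 (by norm_num) f1 (abs_le.2 ⟨by linarith, by linarith⟩) (by rw [neg_neg]; exact expn_ge (by norm_num) (by norm_num)) (by norm_num) (by norm_num)
    have hx2 : sx κ t ≤ 0.965 := sx_hi h 0.65 (-0.517) 0.507 1.67699 0.965 hk2 g0 (by norm_num) (by rw [abs_of_nonpos (by linarith)]; linarith) (by rw [neg_neg]; exact expn_le (by norm_num) (by norm_num) (by norm_num)) (by norm_num) (by norm_num)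
    rw [es]
    exact dl6_b0_1 hβ hN (by linarith) (by linarith) (by linarith) (by linarith)
  rcases le_total (sy κ t) (-0.487) with f2 | g2
  · have hx1 : 0.8345 ≤ sx κ t := sx_lo h 0.6 (-0.487) 0.507 1.62742 0.8345 hk1 (by norm_num) f2 (abs_le.2 ⟨by linarith, by linarith⟩) (by rw [neg_neg]; exact expn_ge (by norm_num) (by norm_num)) (by norm_num) (by norm_num)
    have hx2 : sx κ t ≤ 0.9631 := sx_hi h 0.65 (-0.507) 0.487 1.66031 0.9631 hk2 g1 (by norm_num) (by rw [abs_of_nonpos (by linarith)]; linarith) (by rw [neg_neg]; exact expn_le (by norm_num) (by norm_num) (by norm_num)) (by norm_num) (by norm_num)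
    rw [es]
    exact dl6_b0_2 hβ hN (by linarith) (by linarith) (by linarith) (by linarith)
  rcases le_total (sy κ t) (-0.452) with f3 | g3
  · have hx1 : 0.8073 ≤ sx κ t := sx_lo h 0.6 (-0.452) 0.487 1.57145 0.8073 hk1 (by norm_num) f3 (abs_le.2 ⟨by linarith, by linarith⟩) (by rw [neg_neg]; exact expn_ge (by norm_num) (by norm_num)) (by norm_num) (by norm_num)
    have hx2 : sx κ t ≤ 0.9564 := sx_hi h 0.65 (-0.487) 0.452 1.62743 0.9564 hk2 g2 (by norm_num) (by rw [abs_of_nonpos (by linarith)]; linarith) (by rw [neg_neg]; exact expn_le (by norm_num) (by norm_num) (by norm_num)) (by norm_num) (by norm_num)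
    rw [es]
    exact dl6_b0_3 hβ hN (by linarith) (by linarith) (by linarith) (by linarith)
  rcases le_total (sy κ t) (-0.382) with f4 | g4
  · have hx1 : 0.754 ≤ sx κ t := sx_lo h 0.6 (-0.382) 0.452 1.46521 0.754 hk1 (by norm_num) f4 (abs_le.2 ⟨by linarith, by linarith⟩) (by rw [neg_neg]; exact expn_ge (by norm_num) (by norm_num)) (by norm_num) (by norm_num)
    have hx2 : sx κ t ≤ 0.9474 := sx_hi h 0.65 (-0.452) 0.382 1.57146 0.9474 hk2 g3 (by norm_num) (by rw [abs_of_nonpos (by linarith)]; linarith) (by rw [neg_neg]; exact expn_le (by norm_num) (by norm_num) (by norm_num)) (by norm_num) (by norm_num)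
    rw [es]
    exact dl6_b0_4 hβ hN (by linarith) (by linarith) (by linarith) (by linarith)
  have hx1 : 0.715 ≤ sx κ t := sx_lo h 0.6 (-0.301) 0.382 1.3512 0.715 hk1 (by norm_num) hy2 (abs_le.2 ⟨by linarith, by linarith⟩) (by rw [neg_neg]; exact expn_ge (by norm_num) (by norm_num)) (by norm_num) (by norm_num)
  have hx2 : sx κ t ≤ 0.9036 := sx_hi h 0.65 (-0.382) 0.301 1.46522 0.9036 hk2 g4 (by norm_num) (by rw [abs_of_nonpos (by linarith)]; linarith) (by rw [neg_neg]; exact expn_le (by norm_num) (by norm_num) (by norm_num)) (by norm_num) (by norm_num)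
  rw [es]
  exact dl6_b0_5 hβ hN (by linarith) (by linarith) (by linarith) (by linarith)

theorem dl6 {κ t β : ℝ} (h : DomR κ t) (hβ : 0 < β) (hk1 : 0.6 ≤ κ) (hk2 : κ ≤ 0.65)
    (ht1 : -0.8012 ≤ t + κ) (ht2 : t + κ ≤ -0.534) (hR0 : β * 10 ≤ κ) (hR : β * (3.3 * (1 + κ ^ 2)) ≤ κ) :
    ∀ s : ℂ, ‖s - sg κ t‖ ≤ 0.06 → ‖HH β s - 1‖ ≤ 0.28 := by
  exact dl6_c0 h hβ hk1 hk2 ht1 ht2 hR0 hR

end Sok.B4
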