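import Pool.Agent.Lib.MP_816dec_an.JBG2

/-!
MP_816dec_an (A3, row R1, b = 4): right discs.
-/

set_option autoImplicit false
set_option maxHeartbeats 4000000

open Complex Set

namespace Sok.B4

private theorem dr0_b0_0 {β x y : ℝ} (hβ : 0 < β) (hN : β * 27.777 ≤ 1) (hx1 : 0.1025 ≤ x) (hx2 : x ≤ 0.3112)
    (hy1 : -0 ≤ y) (hy2 : y ≤ 0.24) : ‖HH β (x + y * I) - 1‖ ≤ 0.02 := by
  refine le_epsJ (C := 0.3312) (N0 := 27.777) (J_boxp 0.1025 0.3112 0 0.24 0.24 0.7822 0.393 1.2785 1.6345 0.4511 5.2704 27.777 0.5025 1.9 1.249 1.3004 0.391 0.3255 1.0433 3.902 0.3803 0.6174 0.7463 2.7179 0.00001925 0.0001185 0.0000003101 0.0000003101 0.00002587 0.0000003101 0.0000003101 0.0000003101 0.3312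
    hβ hN hx1 hx2 hy1 hy2 (by norm_num) (by norm_num) (by linarith) (by norm_num) (by norm_num) (by norm_num) (by norm_num) (by norm_num) (by norm_num) (by norm_num) (by norm_num) (by norm_num) (by norm_num) (by norm_num) (by norm_num) (by norm_num) (by norm_num) (by norm_num) (by norm_num) (by norm_num) (by norm_num) (by norm_num) (by norm_num) (by norm_num)
    (cube_sqrt_geJ (s := 0.9124) (by norm_num) (by norm_num) (by norm_num) (by norm_num))
    (cube_sqrt_geJ (s := 0.9687) (by norm_num) (by norm_num) (by norm_num) (by norm_num))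
    (by norm_num) (by norm_num) (by norm_num) (by norm_num) (by norm_num) (by norm_num) (by norm_num) (by norm_num) (by norm_num) (by norm_num) (by norm_num) (by norm_num) (by norm_num) (by norm_num) (by norm_num) (by norm_num) (by norm_num) (by norm_num)
    (exp_neg_leJ (r := 0.86) 10 (by norm_num) (by norm_num) (by norm_num) (by norm_num))
    (exp_neg_leJ (r := 0.041) 9 (by norm_num) (by norm_num) (by norm_num) (by norm_num))
    (exp_neg_leJ (r := 0.99) 14 (by norm_num) (by norm_num) (by norm_num) (by norm_num))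
    (exp_neg_leJ (r := 0.99) 14 (by norm_num) (by norm_num) (by norm_num) (by norm_num))
    (exp_neg_leJ (r := 0.563) 10 (by norm_num) (by norm_num) (by norm_num) (by norm_num))
    (exp_neg_leJ (r := 0.99) 14 (by norm_num) (by norm_num) (by norm_num) (by norm_num))
    (exp_neg_leJ (r := 0.99) 14 (by norm_num) (by norm_num) (by norm_num) (by norm_num))
    (exp_neg_leJ (r := 0.99) 14 (by norm_num) (by norm_num) (by norm_num) (by norm_num))
    (by norm_num)) (by norm_num) hN hβ.le (by norm_num)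

private theorem dr0_b0_1 {β x y : ℝ} (hβ : 0 < β) (hN : β * 27.777 ≤ 1) (hn : ‖(x + y * I : ℂ)‖ ≤ 0.335) : ‖HH β (x + y * I) - 1‖ ≤ 0.02 := by
  refine le_epsJ (C := 0.5293) (N0 := 27.777) (J45_genN (N := 27.777) (r0 := 5.2704) (f := 2.5667) (n0 := 0.335) (a := 0.665) (wL := 1.602) (wR := 1.89)
    (E1 := 0.005584) (E2 := 0.0000003101) (E3 := 0.01799) (E4 := 0.000003408) (E5 := 0.0000003101) hβ (by norm_num) hN
    (by norm_num) (by norm_num) (by norm_num) hn (by norm_num) (by norm_num) (by norm_num)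
    (cube_sqrt_geJ (s := 0.9349) (by norm_num) (by norm_num) (by norm_num) (by norm_num))
    (cube_sqrt_geJ (s := 0.9131) (by norm_num) (by norm_num) (by norm_num) (by norm_num))
    (exp_neg_leJ (r := 0.188) 5 (by norm_num) (by norm_num) (by norm_num) (by norm_num))
    (exp_neg_leJ (r := 0.99) 14 (by norm_num) (by norm_num) (by norm_num) (by norm_num))
    (exp_neg_leJ (r := 0.018) 4 (by norm_num) (by norm_num) (by norm_num) (by norm_num))
    (exp_neg_leJ (r := 0.59) 12 (by norm_num) (by norm_num) (by norm_num) (by norm_num))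
    (exp_neg_leJ (r := 0.99) 14 (by norm_num) (by norm_num) (by norm_num) (by norm_num))
    (by norm_num)) (by norm_num) hN hβ.le (by norm_num)

private theorem dr0_c0 {κ t β : ℝ} (h : DomR κ t) (hβ : 0 < β) (hk1 : 0.3 ≤ κ) (hk2 : κ ≤ 0.36)
    (ht1 : 0.7225 ≤ t + κ) (ht2 : t + κ ≤ 1.0368) (hR0 : β * 10 ≤ κ) (hR : β * (3.3 * (1 + κ ^ 2)) ≤ κ) :
    ∀ s : ℂ, ‖s - sg κ t‖ ≤ 0.04 → ‖HH β s - 1‖ ≤ 0.02 := by
  have hN : β * 27.777 ≤ 1 := bNR hβ h.1 hk2 hR0 (by norm_num)
  have hy1 : 0.15 ≤ sy κ t := syR_ge h 0.3 0.36 0.7225 0.15 1.16183 1.16184 0.48409 0.58093 hk1 hk2 (by linarith) (by norm_num) (by norm_num)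
    (expn_ge (by norm_num) (by norm_num)) (expn_le (by norm_num) (by norm_num) (by norm_num)) (by norm_num)
    (by norm_num) (by norm_num) (by norm_num) (by norm_num) (by norm_num) (by norm_num)
  have hy2 : sy κ t ≤ 0.224 := syR_ang2 h 0.3 0.36 1.0368 0.891 0.6294 0.7778 0.224 0.79932 1.25107 hk1 hk2 (by linarith) (by norm_num) (by norm_num) (by norm_num)
    (cos_le_num (by norm_num)) (sin_le_num (by norm_num) (by norm_num)) (expm_le (by norm_num) (by norm_num) (by norm_num))
    (expn_ge (by norm_num) (by norm_num)) (by norm_num) (by norm_num) (by norm_num) (by norm_num) (by norm_num)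
  intro s hs
  have hs' : ‖s - ((sx κ t : ℂ) + (sy κ t : ℂ) * I)‖ ≤ 0.04 := hs
  obtain ⟨es, ⟨s1, s2⟩, ⟨s3, s4⟩⟩ := disc_split hs'
  rcases le_total (sy κ t) 0.2 with f0 | g0
  · have hx1 : 0.1425 ≤ sx κ t := sx_lo h 0.3 0.2 0.2 0.81873 0.1425 hk1 (by norm_num) f0 (abs_le.2 ⟨by linarith, by linarith⟩) (expm_ge (by norm_num) (by norm_num) (by norm_num) (by norm_num)) (by norm_num) (by norm_num)
    have hx2 : sx κ t ≤ 0.2712 := sx_hi h 0.36 0.15 0.15 0.86071 0.2712 hk2 hy1 (by norm_num) (by rw [abs_of_nonneg (by linarith)]; linarith) (expm_le (by norm_num) (by norm_num) (by norm_num)) (by norm_num) (by norm_num)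
    rw [es]
    exact dr0_b0_0 hβ hN (by linarith) (by linarith) (by linarith) (by linarith)
  rw [es]
  refine dr0_b0_1 hβ hN ?_
  rw [← es]
  exact disc_norm hs' (norm_sg_le h 0.36 0.2 0.81874 (0.335 - 0.04) hk2 g0 (expm_le (by norm_num) (by norm_num) (by norm_num)) (by norm_num))

theorem dr0 {κ t β : ℝ} (h : DomR κ t) (hβ : 0 < β) (hk1 : 0.3 ≤ κ) (hk2 : κ ≤ 0.36)
    (ht1 : 0.7225 ≤ t + κ) (ht2 : t + κ ≤ 1.0368) (hR0 : β * 10 ≤ κ) (hR : β * (3.3 * (1 + κ ^ 2)) ≤ κ) :
    ∀ s : ℂ, ‖s - sg κ t‖ ≤ 0.04 → ‖HH β s - 1‖ ≤ 0.02 := by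
  exact dr0_c0 h hβ hk1 hk2 ht1 ht2 hR0 hR

private theorem dr1_b0_0 {β x y : ℝ} (hβ : 0 < β) (hN : β * 23.809 ≤ 1) (hx1 : 0.1239 ≤ x) (hx2 : x ≤ 0.3642)
    (hy1 : -0 ≤ y) (hy2 : y ≤ 0.282) : ‖HH β (x + y * I) - 1‖ ≤ 0.06 := by
  refine le_epsJ (C := 0.4433) (N0 := 23.809) (J_boxp 0.1239 0.3642 0 0.282 0.282 0.7973 0.4607 1.3328 1.6217 0.4606 4.8795 23.809 0.5779 2.115 1.293 1.28 0.3986 0.3218 1.0506 3.8674 0.3864 0.6427 0.609 2.3787 0.00007562 0.0004712 0.0000003101 0.0000003101 0.0001012 0.0000003101 0.000000505 0.0000003101 0.4433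
    hβ hN hx1 hx2 hy1 hy2 (by norm_num) (by norm_num) (by linarith) (by norm_num) (by norm_num) (by norm_num) (by norm_num) (by norm_num) (by norm_num) (by norm_num) (by norm_num) (by norm_num) (by norm_num) (by norm_num) (by norm_num) (by norm_num) (by norm_num) (by norm_num) (by norm_num) (by norm_num) (by norm_num) (by norm_num) (by norm_num) (by norm_num)
    (cube_sqrt_geJ (s := 0.8985) (by norm_num) (by norm_num) (by norm_num) (by norm_num))
    (cube_sqrt_geJ (s := 0.9639) (by norm_num) (by norm_num) (by norm_num) (by norm_num))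
    (by norm_num) (by norm_num) (by norm_num) (by norm_num) (by norm_num) (by norm_num) (by norm_num) (by norm_num) (by norm_num) (by norm_num) (by norm_num) (by norm_num) (by norm_num) (by norm_num) (by norm_num) (by norm_num) (by norm_num) (by norm_num)
    (exp_neg_leJ (r := 0.49) 9 (by norm_num) (by norm_num) (by norm_num) (by norm_num))
    (exp_neg_leJ (r := 0.661) 7 (by norm_num) (by norm_num) (by norm_num) (by norm_num))
    (exp_neg_leJ (r := 0.99) 14 (by norm_num) (by norm_num) (by norm_num) (by norm_num))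
    (exp_neg_leJ (r := 0.99) 14 (by norm_num) (by norm_num) (by norm_num) (by norm_num))
    (exp_neg_leJ (r := 0.199) 9 (by norm_num) (by norm_num) (by norm_num) (by norm_num))
    (exp_neg_leJ (r := 0.99) 14 (by norm_num) (by norm_num) (by norm_num) (by norm_num))
    (exp_neg_leJ (r := 0.499) 14 (by norm_num) (by norm_num) (by norm_num) (by norm_num))
    (exp_neg_leJ (r := 0.99) 14 (by norm_num) (by norm_num) (by norm_num) (by norm_num))
    (by norm_num)) (by norm_num) hN hβ.le (by norm_num)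

private theorem dr1_b0_1 {β x y : ℝ} (hβ : 0 < β) (hN : β * 23.809 ≤ 1) (hn : ‖(x + y * I : ℂ)‖ ≤ 0.397) : ‖HH β (x + y * I) - 1‖ ≤ 0.06 := by
  refine le_epsJ (C := 1.3987) (N0 := 23.809) (J45_genN (N := 23.809) (r0 := 4.8795) (f := 2.3764) (n0 := 0.397) (a := 0.603) (wL := 1.877) (wR := 2.357)
    (E1 := 0.01774) (E2 := 0.00001891) (E3 := 0.0583) (E4 := 0.000229) (E5 := 0.0000003101) hβ (by norm_num) hN
    (by norm_num) (by norm_num) (by norm_num) hn (by norm_num) (by norm_num) (by norm_num)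
    (cube_sqrt_geJ (s := 0.914) (by norm_num) (by norm_num) (by norm_num) (by norm_num))
    (cube_sqrt_geJ (s := 0.8847) (by norm_num) (by norm_num) (by norm_num) (by norm_num))
    (exp_neg_leJ (r := 0.032) 4 (by norm_num) (by norm_num) (by norm_num) (by norm_num))
    (exp_neg_leJ (r := 0.878) 10 (by norm_num) (by norm_num) (by norm_num) (by norm_num))
    (exp_neg_leJ (r := 0.844) 2 (by norm_num) (by norm_num) (by norm_num) (by norm_num))
    (exp_neg_leJ (r := 0.382) 8 (by norm_num) (by norm_num) (by norm_num) (by norm_num))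
    (exp_neg_leJ (r := 0.99) 14 (by norm_num) (by norm_num) (by norm_num) (by norm_num))
    (by norm_num)) (by norm_num) hN hβ.le (by norm_num)

private theorem dr1_c0 {κ t β : ℝ} (h : DomR κ t) (hβ : 0 < β) (hk1 : 0.36 ≤ κ) (hk2 : κ ≤ 0.42)
    (ht1 : 0.7539 ≤ t + κ) (ht2 : t + κ ≤ 1.0368) (hR0 : β * 10 ≤ κ) (hR : β * (3.3 * (1 + κ ^ 2)) ≤ κ) :
    ∀ s : ℂ, ‖s - sg κ t‖ ≤ 0.06 → ‖HH β s - 1‖ ≤ 0.06 := by
  have hN : β * 23.809 ≤ 1 := bNR hβ h.1 hk2 hR0 (by norm_num)
  have hy1 : 0.177 ≤ sy κ t := syR_ge h 0.36 0.42 0.7539 0.177 1.19363 1.19364 0.50302 0.58688 hk1 hk2 (by linarith) (by norm_num) (by norm_num)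
    (expn_ge (by norm_num) (by norm_num)) (expn_le (by norm_num) (by norm_num) (by norm_num)) (by norm_num)
    (by norm_num) (by norm_num) (by norm_num) (by norm_num) (by norm_num) (by norm_num)
  have hy2 : sy κ t ≤ 0.249 := syR_ang2 h 0.36 0.42 1.0368 0.863 0.6508 0.7599 0.249 0.77958 1.28274 hk1 hk2 (by linarith) (by norm_num) (by norm_num) (by norm_num)
    (cos_le_num (by norm_num)) (sin_le_num (by norm_num) (by norm_num)) (expm_le (by norm_num) (by norm_num) (by norm_num))
    (expn_ge (by norm_num) (by norm_num)) (by norm_num) (by norm_num) (by norm_num) (by norm_num) (by norm_num)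
  intro s hs
  have hs' : ‖s - ((sx κ t : ℂ) + (sy κ t : ℂ) * I)‖ ≤ 0.06 := hs
  obtain ⟨es, ⟨s1, s2⟩, ⟨s3, s4⟩⟩ := disc_split hs'
  rcases le_total (sy κ t) 0.222 with f0 | g0
  · have hx1 : 0.1839 ≤ sx κ t := sx_lo h 0.36 0.222 0.222 0.80091 0.1839 hk1 (by norm_num) f0 (abs_le.2 ⟨by linarith, by linarith⟩) (expm_ge (by norm_num) (by norm_num) (by norm_num) (by norm_num)) (by norm_num) (by norm_num)
    have hx2 : sx κ t ≤ 0.3042 := sx_hi h 0.42 0.177 0.177 0.83778 0.3042 hk2 hy1 (by norm_num) (by rw [abs_of_nonneg (by linarith)]; linarith) (expm_le (by norm_num) (by norm_num) (by norm_num)) (by norm_num) (by norm_num)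
    rw [es]
    exact dr1_b0_0 hβ hN (by linarith) (by linarith) (by linarith) (by linarith)
  rw [es]
  refine dr1_b0_1 hβ hN ?_
  rw [← es]
  exact disc_norm hs' (norm_sg_le h 0.42 0.222 0.80092 (0.397 - 0.06) hk2 g0 (expm_le (by norm_num) (by norm_num) (by norm_num)) (by norm_num))

theorem dr1 {κ t β : ℝ} (h : DomR κ t) (hβ : 0 < β) (hk1 : 0.36 ≤ κ) (hk2 : κ ≤ 0.42)
    (ht1 : 0.7539 ≤ t + κ) (ht2 : t + κ ≤ 1.0368) (hR0 : β * 10 ≤ κ) (hR : β * (3.3 * (1 + κ ^ 2)) ≤ κ) :
    ∀ s : ℂ, ‖s - sg κ t‖ ≤ 0.06 → ‖HH β s - 1‖ ≤ 0.06 := by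
  exact dr1_c0 h hβ hk1 hk2 ht1 ht2 hR0 hR

private theorem dr2_b0_0 {β x y : ℝ} (hβ : 0 < β) (hN : β * 21.505 ≤ 1) (hx1 : 0.1691 ≤ x) (hx2 : x ≤ 0.374)
    (hy1 : -0 ≤ y) (hy2 : y ≤ 0.295) : ‖HH β (x + y * I) - 1‖ ≤ 0.02 := by
  refine le_epsJ (C := 0.425) (N0 := 21.505) (J_boxp 0.1691 0.374 0 0.295 0.295 0.8291 0.4764 1.348 1.538 0.4632 4.6374 21.505 0.5746 2.105 1.291 1.2762 0.4145 0.3351 1.0661 3.8601 0.407 0.704 0.6436 2.3652 0.000135 0.0007422 0.0000003101 0.0000003101 0.0001584 0.0000003101 0.0000009776 0.0000003101 0.425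
    hβ hN hx1 hx2 hy1 hy2 (by norm_num) (by norm_num) (by linarith) (by norm_num) (by norm_num) (by norm_num) (by norm_num) (by norm_num) (by norm_num) (by norm_num) (by norm_num) (by norm_num) (by norm_num) (by norm_num) (by norm_num) (by norm_num) (by norm_num) (by norm_num) (by norm_num) (by norm_num) (by norm_num) (by norm_num) (by norm_num) (by norm_num)
    (cube_sqrt_geJ (s := 0.8991) (by norm_num) (by norm_num) (by norm_num) (by norm_num))
    (cube_sqrt_geJ (s := 0.9641) (by norm_num) (by norm_num) (by norm_num) (by norm_num))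
    (by norm_num) (by norm_num) (by norm_num) (by norm_num) (by norm_num) (by norm_num) (by norm_num) (by norm_num) (by norm_num) (by norm_num) (by norm_num) (by norm_num) (by norm_num) (by norm_num) (by norm_num) (by norm_num) (by norm_num) (by norm_num)
    (exp_neg_leJ (r := 0.913) 8 (by norm_num) (by norm_num) (by norm_num) (by norm_num))
    (exp_neg_leJ (r := 0.206) 7 (by norm_num) (by norm_num) (by norm_num) (by norm_num))
    (exp_neg_leJ (r := 0.99) 14 (by norm_num) (by norm_num) (by norm_num) (by norm_num))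
    (exp_neg_leJ (r := 0.99) 14 (by norm_num) (by norm_num) (by norm_num) (by norm_num))
    (exp_neg_leJ (r := 0.752) 8 (by norm_num) (by norm_num) (by norm_num) (by norm_num))
    (exp_neg_leJ (r := 0.99) 14 (by norm_num) (by norm_num) (by norm_num) (by norm_num))
    (exp_neg_leJ (r := 0.84) 13 (by norm_num) (by norm_num) (by norm_num) (by norm_num))
    (exp_neg_leJ (r := 0.99) 14 (by norm_num) (by norm_num) (by norm_num) (by norm_num))
    (by norm_num)) (by norm_num) hN hβ.le (by norm_num)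

private theorem dr2_b0_1 {β x y : ℝ} (hβ : 0 < β) (hN : β * 21.505 ≤ 1) (hx1 : 0.1333 ≤ x) (hx2 : x ≤ 0.3192)
    (hy1 : -0 ≤ y) (hy2 : y ≤ 0.315) : ‖HH β (x + y * I) - 1‖ ≤ 0.02 := by
  refine le_epsJ (C := 0.4288) (N0 := 21.505) (J_boxp 0.1333 0.3192 0 0.315 0.315 0.8039 0.4485 1.3532 1.614 0.4641 4.6374 21.505 0.558 2.056 1.282 1.2973 0.4019 0.3271 1.0539 3.8846 0.3876 0.6524 0.4862 2.2752 0.0001767 0.0008815 0.0000003101 0.0000003101 0.00024 0.0000008078 0.00002881 0.0000003101 0.4288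
    hβ hN hx1 hx2 hy1 hy2 (by norm_num) (by norm_num) (by linarith) (by norm_num) (by norm_num) (by norm_num) (by norm_num) (by norm_num) (by norm_num) (by norm_num) (by norm_num) (by norm_num) (by norm_num) (by norm_num) (by norm_num) (by norm_num) (by norm_num) (by norm_num) (by norm_num) (by norm_num) (by norm_num) (by norm_num) (by norm_num) (by norm_num)
    (cube_sqrt_geJ (s := 0.9022) (by norm_num) (by norm_num) (by norm_num) (by norm_num))
    (cube_sqrt_geJ (s := 0.9652) (by norm_num) (by norm_num) (by norm_num) (by norm_num))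
    (by norm_num) (by norm_num) (by norm_num) (by norm_num) (by norm_num) (by norm_num) (by norm_num) (by norm_num) (by norm_num) (by norm_num) (by norm_num) (by norm_num) (by norm_num) (by norm_num) (by norm_num) (by norm_num) (by norm_num) (by norm_num)
    (exp_neg_leJ (r := 0.642) 8 (by norm_num) (by norm_num) (by norm_num) (by norm_num))
    (exp_neg_leJ (r := 0.034) 7 (by norm_num) (by norm_num) (by norm_num) (by norm_num))
    (exp_neg_leJ (r := 0.99) 14 (by norm_num) (by norm_num) (by norm_num) (by norm_num))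
    (exp_neg_leJ (r := 0.99) 14 (by norm_num) (by norm_num) (by norm_num) (by norm_num))
    (exp_neg_leJ (r := 0.335) 8 (by norm_num) (by norm_num) (by norm_num) (by norm_num))
    (exp_neg_leJ (r := 0.029) 14 (by norm_num) (by norm_num) (by norm_num) (by norm_num))
    (exp_neg_leJ (r := 0.455) 10 (by norm_num) (by norm_num) (by norm_num) (by norm_num))
    (exp_neg_leJ (r := 0.99) 14 (by norm_num) (by norm_num) (by norm_num) (by norm_num))
    (by norm_num)) (by norm_num) hN hβ.le (by norm_num)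

private theorem dr2_c0 {κ t β : ℝ} (h : DomR κ t) (hβ : 0 < β) (hk1 : 0.42 ≤ κ) (hk2 : κ ≤ 0.465)
    (ht1 : 0.7696 ≤ t + κ) (ht2 : t + κ ≤ 1.0368) (hR0 : β * 10 ≤ κ) (hR : β * (3.3 * (1 + κ ^ 2)) ≤ κ) :
    ∀ s : ℂ, ‖s - sg κ t‖ ≤ 0.05 → ‖HH β s - 1‖ ≤ 0.02 := by
  have hN : β * 21.505 ≤ 1 := bNR hβ h.1 hk2 hR0 (by norm_num)
  have hy1 : 0.2 ≤ sy κ t := syR_ge h 0.42 0.465 0.7696 0.2 1.2214 1.22141 0.52533 0.58163 hk1 hk2 (by linarith) (by norm_num) (by norm_num)
    (expn_ge (by norm_num) (by norm_num)) (expn_le (by norm_num) (by norm_num) (by norm_num)) (by norm_num)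
    (by norm_num) (by norm_num) (by norm_num) (by norm_num) (by norm_num) (by norm_num)
  have hy2 : sy κ t ≤ 0.265 := syR_ang2 h 0.42 0.465 1.0368 0.837 0.6702 0.7427 0.265 0.76721 1.30343 hk1 hk2 (by linarith) (by norm_num) (by norm_num) (by norm_num)
    (cos_le_num (by norm_num)) (sin_le_num (by norm_num) (by norm_num)) (expm_le (by norm_num) (by norm_num) (by norm_num))
    (expn_ge (by norm_num) (by norm_num)) (by norm_num) (by norm_num) (by norm_num) (by norm_num) (by norm_num)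
  intro s hs
  have hs' : ‖s - ((sx κ t : ℂ) + (sy κ t : ℂ) * I)‖ ≤ 0.05 := hs
  obtain ⟨es, ⟨s1, s2⟩, ⟨s3, s4⟩⟩ := disc_split hs'
  rcases le_total (sy κ t) 0.245 with f0 | g0
  · have hx1 : 0.2191 ≤ sx κ t := sx_lo h 0.42 0.245 0.245 0.7827 0.2191 hk1 (by norm_num) f0 (abs_le.2 ⟨by linarith, by linarith⟩) (expm_ge (by norm_num) (by norm_num) (by norm_num) (by norm_num)) (by norm_num) (by norm_num)
    have hx2 : sx κ t ≤ 0.324 := sx_hi h 0.465 0.2 0.2 0.81874 0.324 hk2 hy1 (by norm_num) (by rw [abs_of_nonneg (by linarith)]; linarith) (expm_le (by norm_num) (by norm_num) (by norm_num)) (by norm_num) (by norm_num)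
    rw [es]
    exact dr2_b0_0 hβ hN (by linarith) (by linarith) (by linarith) (by linarith)
  have hx1 : 0.1833 ≤ sx κ t := sx_lo h 0.42 0.265 0.265 0.7672 0.1833 hk1 (by norm_num) hy2 (abs_le.2 ⟨by linarith, by linarith⟩) (expm_ge (by norm_num) (by norm_num) (by norm_num) (by norm_num)) (by norm_num) (by norm_num)
  have hx2 : sx κ t ≤ 0.2692 := sx_hi h 0.465 0.245 0.245 0.78271 0.2692 hk2 g0 (by norm_num) (by rw [abs_of_nonneg (by linarith)]; linarith) (expm_le (by norm_num) (by norm_num) (by norm_num)) (by norm_num) (by norm_num)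
  rw [es]
  exact dr2_b0_1 hβ hN (by linarith) (by linarith) (by linarith) (by linarith)

theorem dr2 {κ t β : ℝ} (h : DomR κ t) (hβ : 0 < β) (hk1 : 0.42 ≤ κ) (hk2 : κ ≤ 0.465)
    (ht1 : 0.7696 ≤ t + κ) (ht2 : t + κ ≤ 1.0368) (hR0 : β * 10 ≤ κ) (hR : β * (3.3 * (1 + κ ^ 2)) ≤ κ) :
    ∀ s : ℂ, ‖s - sg κ t‖ ≤ 0.05 → ‖HH β s - 1‖ ≤ 0.02 := by
  exact dr2_c0 h hβ hk1 hk2 ht1 ht2 hR0 hR

private theorem dr3_b0_0 {β x y : ℝ} (hβ : 0 < β) (hN : β * 19.607 ≤ 1) (hx1 : 0.1652 ≤ x) (hx2 : x ≤ 0.4129)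
    (hy1 : -0 ≤ y) (hy2 : y ≤ 0.333) : ‖HH β (x + y * I) - 1‖ ≤ 0.03 := by
  refine le_epsJ (C := 0.5691) (N0 := 19.607) (J_boxp 0.1652 0.4129 0 0.333 0.333 0.8263 0.5305 1.3955 1.5728 0.4713 4.428 19.607 0.6421 2.324 1.332 1.2613 0.4131 0.3247 1.0648 3.8335 0.4013 0.6947 0.4728 2.0313 0.0003039 0.00172 0.0000003101 0.0000003101 0.0003836 0.000001217 0.00009422 0.0000003101 0.5691
    hβ hN hx1 hx2 hy1 hy2 (by norm_num) (by norm_num) (by linarith) (by norm_num) (by norm_num) (by norm_num) (by norm_num) (by norm_num) (by norm_num) (by norm_num) (by norm_num) (by norm_num) (by norm_num) (by norm_num) (by norm_num) (by norm_num) (by norm_num) (by norm_num) (by norm_num) (by norm_num) (by norm_num) (by norm_num) (by norm_num) (by norm_num)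
    (cube_sqrt_geJ (s := 0.8865) (by norm_num) (by norm_num) (by norm_num) (by norm_num))
    (cube_sqrt_geJ (s := 0.9598) (by norm_num) (by norm_num) (by norm_num) (by norm_num))
    (by norm_num) (by norm_num) (by norm_num) (by norm_num) (by norm_num) (by norm_num) (by norm_num) (by norm_num) (by norm_num) (by norm_num) (by norm_num) (by norm_num) (by norm_num) (by norm_num) (by norm_num) (by norm_num) (by norm_num) (by norm_num)
    (exp_neg_leJ (r := 0.099) 8 (by norm_num) (by norm_num) (by norm_num) (by norm_num))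
    (exp_neg_leJ (r := 0.366) 6 (by norm_num) (by norm_num) (by norm_num) (by norm_num))
    (exp_neg_leJ (r := 0.99) 14 (by norm_num) (by norm_num) (by norm_num) (by norm_num))
    (exp_neg_leJ (r := 0.99) 14 (by norm_num) (by norm_num) (by norm_num) (by norm_num))
    (exp_neg_leJ (r := 0.868) 7 (by norm_num) (by norm_num) (by norm_num) (by norm_num))
    (exp_neg_leJ (r := 0.62) 13 (by norm_num) (by norm_num) (by norm_num) (by norm_num))
    (exp_neg_leJ (r := 0.27) 9 (by norm_num) (by norm_num) (by norm_num) (by norm_num))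
    (exp_neg_leJ (r := 0.99) 14 (by norm_num) (by norm_num) (by norm_num) (by norm_num))
    (by norm_num)) (by norm_num) hN hβ.le (by norm_num)

private theorem dr3_b0_1 {β x y : ℝ} (hβ : 0 < β) (hN : β * 19.607 ≤ 1) (hx1 : 0.1504 ≤ x) (hx2 : x ≤ 0.336)
    (hy1 : -0 ≤ y) (hy2 : y ≤ 0.341) : ‖HH β (x + y * I) - 1‖ ≤ 0.03 := by
  refine le_epsJ (C := 0.4889) (N0 := 19.607) (J_boxp 0.1504 0.336 0 0.341 0.341 0.8159 0.4788 1.3825 1.5955 0.4691 4.428 19.607 0.5869 2.143 1.299 1.2908 0.4079 0.3281 1.0597 3.8712 0.3932 0.6734 0.4089 2.1045 0.0003401 0.001608 0.0000003101 0.0000003101 0.0004492 0.000001846 0.0003299 0.0000003101 0.4889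
    hβ hN hx1 hx2 hy1 hy2 (by norm_num) (by norm_num) (by linarith) (by norm_num) (by norm_num) (by norm_num) (by norm_num) (by norm_num) (by norm_num) (by norm_num) (by norm_num) (by norm_num) (by norm_num) (by norm_num) (by norm_num) (by norm_num) (by norm_num) (by norm_num) (by norm_num) (by norm_num) (by norm_num) (by norm_num) (by norm_num) (by norm_num)
    (cube_sqrt_geJ (s := 0.8968) (by norm_num) (by norm_num) (by norm_num) (by norm_num))
    (cube_sqrt_geJ (s := 0.9634) (by norm_num) (by norm_num) (by norm_num) (by norm_num))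
    (by norm_num) (by norm_num) (by norm_num) (by norm_num) (by norm_num) (by norm_num) (by norm_num) (by norm_num) (by norm_num) (by norm_num) (by norm_num) (by norm_num) (by norm_num) (by norm_num) (by norm_num) (by norm_num) (by norm_num) (by norm_num)
    (exp_neg_leJ (r := 0.99) 7 (by norm_num) (by norm_num) (by norm_num) (by norm_num))
    (exp_neg_leJ (r := 0.433) 6 (by norm_num) (by norm_num) (by norm_num) (by norm_num))
    (exp_neg_leJ (r := 0.99) 14 (by norm_num) (by norm_num) (by norm_num) (by norm_num))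
    (exp_neg_leJ (r := 0.99) 14 (by norm_num) (by norm_num) (by norm_num) (by norm_num))
    (exp_neg_leJ (r := 0.709) 7 (by norm_num) (by norm_num) (by norm_num) (by norm_num))
    (exp_neg_leJ (r := 0.203) 13 (by norm_num) (by norm_num) (by norm_num) (by norm_num))
    (exp_neg_leJ (r := 0.017) 8 (by norm_num) (by norm_num) (by norm_num) (by norm_num))
    (exp_neg_leJ (r := 0.99) 14 (by norm_num) (by norm_num) (by norm_num) (by norm_num))
    (by norm_num)) (by norm_num) hN hβ.le (by norm_num)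

private theorem dr3_c0 {κ t β : ℝ} (h : DomR κ t) (hβ : 0 < β) (hk1 : 0.465 ≤ κ) (hk2 : κ ≤ 0.51)
    (ht1 : 0.7696 ≤ t + κ) (ht2 : t + κ ≤ 1.0368) (hR0 : β * 10 ≤ κ) (hR : β * (3.3 * (1 + κ ^ 2)) ≤ κ) :
    ∀ s : ℂ, ‖s - sg κ t‖ ≤ 0.06 → ‖HH β s - 1‖ ≤ 0.03 := by
  have hN : β * 19.607 ≤ 1 := bNR hβ h.1 hk2 hR0 (by norm_num)
  have hy1 : 0.213 ≤ sy κ t := syR_ge h 0.465 0.51 0.7696 0.213 1.23738 1.23739 0.51678 0.56681 hk1 hk2 (by linarith) (by norm_num) (by norm_num)
    (expn_ge (by norm_num) (by norm_num)) (expn_le (by norm_num) (by norm_num) (by norm_num)) (by norm_num)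
    (by norm_num) (by norm_num) (by norm_num) (by norm_num) (by norm_num) (by norm_num)
  have hy2 : sy κ t ≤ 0.281 := syR_ang2 h 0.465 0.51 1.0368 0.817 0.6849 0.7292 0.281 0.75503 1.32445 hk1 hk2 (by linarith) (by norm_num) (by norm_num) (by norm_num)
    (cos_le_num (by norm_num)) (sin_le_num (by norm_num) (by norm_num)) (expm_le (by norm_num) (by norm_num) (by norm_num))
    (expn_ge (by norm_num) (by norm_num)) (by norm_num) (by norm_num) (by norm_num) (by norm_num) (by norm_num)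
  intro s hs
  have hs' : ‖s - ((sx κ t : ℂ) + (sy κ t : ℂ) * I)‖ ≤ 0.06 := hs
  obtain ⟨es, ⟨s1, s2⟩, ⟨s3, s4⟩⟩ := disc_split hs'
  rcases le_total (sy κ t) 0.273 with f0 | g0
  · have hx1 : 0.2252 ≤ sx κ t := sx_lo h 0.465 0.273 0.273 0.76109 0.2252 hk1 (by norm_num) f0 (abs_le.2 ⟨by linarith, by linarith⟩) (expm_ge (by norm_num) (by norm_num) (by norm_num) (by norm_num)) (by norm_num) (by norm_num)
    have hx2 : sx κ t ≤ 0.3529 := sx_hi h 0.51 0.213 0.213 0.80816 0.3529 hk2 hy1 (by norm_num) (by rw [abs_of_nonneg (by linarith)]; linarith) (expm_le (by norm_num) (by norm_num) (by norm_num)) (by norm_num) (by norm_num)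
    rw [es]
    exact dr3_b0_0 hβ hN (by linarith) (by linarith) (by linarith) (by linarith)
  have hx1 : 0.2104 ≤ sx κ t := sx_lo h 0.465 0.281 0.281 0.75502 0.2104 hk1 (by norm_num) hy2 (abs_le.2 ⟨by linarith, by linarith⟩) (expm_ge (by norm_num) (by norm_num) (by norm_num) (by norm_num)) (by norm_num) (by norm_num)
  have hx2 : sx κ t ≤ 0.276 := sx_hi h 0.51 0.273 0.273 0.7611 0.276 hk2 g0 (by norm_num) (by rw [abs_of_nonneg (by linarith)]; linarith) (expm_le (by norm_num) (by norm_num) (by norm_num)) (by norm_num) (by norm_num)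
  rw [es]
  exact dr3_b0_1 hβ hN (by linarith) (by linarith) (by linarith) (by linarith)

theorem dr3 {κ t β : ℝ} (h : DomR κ t) (hβ : 0 < β) (hk1 : 0.465 ≤ κ) (hk2 : κ ≤ 0.51)
    (ht1 : 0.7696 ≤ t + κ) (ht2 : t + κ ≤ 1.0368) (hR0 : β * 10 ≤ κ) (hR : β * (3.3 * (1 + κ ^ 2)) ≤ κ) :
    ∀ s : ℂ, ‖s - sg κ t‖ ≤ 0.06 → ‖HH β s - 1‖ ≤ 0.03 := by
  exact dr3_c0 h hβ hk1 hk2 ht1 ht2 hR0 hR

private theorem dr4_b0_0 {β x y : ℝ} (hβ : 0 < β) (hN : β * 18.018 ≤ 1) (hx1 : 0.2189 ≤ x) (hx2 : x ≤ 0.4408)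
    (hy1 : -0 ≤ y) (hy2 : y ≤ 0.331) : ‖HH β (x + y * I) - 1‖ ≤ 0.03 := by
  refine le_epsJ (C := 0.5378) (N0 := 18.018) (J_boxp 0.2189 0.4408 0 0.331 0.331 0.8641 0.5513 1.4021 1.4742 0.4724 4.2448 18.018 0.6381 2.31 1.33 1.2505 0.432 0.3401 1.0832 3.8193 0.4275 0.7693 0.5888 2.0915 0.0004174 0.002184 0.0000003101 0.0000003101 0.0004523 0.0000009574 0.00002473 0.0000003101 0.5378
    hβ hN hx1 hx2 hy1 hy2 (by norm_num) (by norm_num) (by linarith) (by norm_num) (by norm_num) (by norm_num) (by norm_num) (by norm_num) (by norm_num) (by norm_num) (by norm_num) (by norm_num) (by norm_num) (by norm_num) (by norm_num) (by norm_num) (by norm_num) (by norm_num) (by norm_num) (by norm_num) (by norm_num) (by norm_num) (by norm_num) (by norm_num)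
    (cube_sqrt_geJ (s := 0.8872) (by norm_num) (by norm_num) (by norm_num) (by norm_num))
    (cube_sqrt_geJ (s := 0.9601) (by norm_num) (by norm_num) (by norm_num) (by norm_num))
    (by norm_num) (by norm_num) (by norm_num) (by norm_num) (by norm_num) (by norm_num) (by norm_num) (by norm_num) (by norm_num) (by norm_num) (by norm_num) (by norm_num) (by norm_num) (by norm_num) (by norm_num) (by norm_num) (by norm_num) (by norm_num)
    (exp_neg_leJ (r := 0.783) 7 (by norm_num) (by norm_num) (by norm_num) (by norm_num))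
    (exp_neg_leJ (r := 0.127) 6 (by norm_num) (by norm_num) (by norm_num) (by norm_num))
    (exp_neg_leJ (r := 0.99) 14 (by norm_num) (by norm_num) (by norm_num) (by norm_num))
    (exp_neg_leJ (r := 0.99) 14 (by norm_num) (by norm_num) (by norm_num) (by norm_num))
    (exp_neg_leJ (r := 0.702) 7 (by norm_num) (by norm_num) (by norm_num) (by norm_num))
    (exp_neg_leJ (r := 0.861) 13 (by norm_num) (by norm_num) (by norm_num) (by norm_num))
    (exp_neg_leJ (r := 0.608) 10 (by norm_num) (by norm_num) (by norm_num) (by norm_num))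
    (exp_neg_leJ (r := 0.99) 14 (by norm_num) (by norm_num) (by norm_num) (by norm_num))
    (by norm_num)) (by norm_num) hN hβ.le (by norm_num)

private theorem dr4_b0_1 {β x y : ℝ} (hβ : 0 < β) (hN : β * 18.018 ≤ 1) (hx1 : 0.1949 ≤ x) (hx2 : x ≤ 0.3852)
    (hy1 : -0 ≤ y) (hy2 : y ≤ 0.346) : ‖HH β (x + y * I) - 1‖ ≤ 0.03 := by
  refine le_epsJ (C := 0.5169) (N0 := 18.018) (J_boxp 0.1949 0.3852 0 0.346 0.346 0.8472 0.5178 1.4001 1.5175 0.4721 4.2448 18.018 0.6112 2.22 1.313 1.2719 0.4235 0.3372 1.0749 3.8455 0.4144 0.7345 0.4765 2.0639 0.000486 0.0023 0.0000003101 0.0000003101 0.0005723 0.000001789 0.000187 0.0000003101 0.5169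
    hβ hN hx1 hx2 hy1 hy2 (by norm_num) (by norm_num) (by linarith) (by norm_num) (by norm_num) (by norm_num) (by norm_num) (by norm_num) (by norm_num) (by norm_num) (by norm_num) (by norm_num) (by norm_num) (by norm_num) (by norm_num) (by norm_num) (by norm_num) (by norm_num) (by norm_num) (by norm_num) (by norm_num) (by norm_num) (by norm_num) (by norm_num)
    (cube_sqrt_geJ (s := 0.8923) (by norm_num) (by norm_num) (by norm_num) (by norm_num))
    (cube_sqrt_geJ (s := 0.9618) (by norm_num) (by norm_num) (by norm_num) (by norm_num))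
    (by norm_num) (by norm_num) (by norm_num) (by norm_num) (by norm_num) (by norm_num) (by norm_num) (by norm_num) (by norm_num) (by norm_num) (by norm_num) (by norm_num) (by norm_num) (by norm_num) (by norm_num) (by norm_num) (by norm_num) (by norm_num)
    (exp_neg_leJ (r := 0.63) 7 (by norm_num) (by norm_num) (by norm_num) (by norm_num))
    (exp_neg_leJ (r := 0.075) 6 (by norm_num) (by norm_num) (by norm_num) (by norm_num))
    (exp_neg_leJ (r := 0.99) 14 (by norm_num) (by norm_num) (by norm_num) (by norm_num))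
    (exp_neg_leJ (r := 0.99) 14 (by norm_num) (by norm_num) (by norm_num) (by norm_num))
    (exp_neg_leJ (r := 0.466) 7 (by norm_num) (by norm_num) (by norm_num) (by norm_num))
    (exp_neg_leJ (r := 0.234) 13 (by norm_num) (by norm_num) (by norm_num) (by norm_num))
    (exp_neg_leJ (r := 0.585) 8 (by norm_num) (by norm_num) (by norm_num) (by norm_num))
    (exp_neg_leJ (r := 0.99) 14 (by norm_num) (by norm_num) (by norm_num) (by norm_num))
    (by norm_num)) (by norm_num) hN hβ.le (by norm_num)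

private theorem dr4_b0_2 {β x y : ℝ} (hβ : 0 < β) (hN : β * 18.018 ≤ 1) (hx1 : 0.179 ≤ x) (hx2 : x ≤ 0.3635)
    (hy1 : -0 ≤ y) (hy2 : y ≤ 0.355) : ‖HH β (x + y * I) - 1‖ ≤ 0.03 := by
  refine le_epsJ (C := 0.5295) (N0 := 18.018) (J_boxp 0.179 0.3635 0 0.355 0.355 0.8361 0.5081 1.403 1.5494 0.4726 4.2448 18.018 0.6078 2.209 1.311 1.2803 0.418 0.3333 1.0695 3.8548 0.4057 0.7116 0.4061 2.0161 0.0005364 0.002467 0.0000003101 0.0000003101 0.0006696 0.000002708 0.0006642 0.0000003101 0.5295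
    hβ hN hx1 hx2 hy1 hy2 (by norm_num) (by norm_num) (by linarith) (by norm_num) (by norm_num) (by norm_num) (by norm_num) (by norm_num) (by norm_num) (by norm_num) (by norm_num) (by norm_num) (by norm_num) (by norm_num) (by norm_num) (by norm_num) (by norm_num) (by norm_num) (by norm_num) (by norm_num) (by norm_num) (by norm_num) (by norm_num) (by norm_num)
    (cube_sqrt_geJ (s := 0.8929) (by norm_num) (by norm_num) (by norm_num) (by norm_num))
    (cube_sqrt_geJ (s := 0.962) (by norm_num) (by norm_num) (by norm_num) (by norm_num))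
    (by norm_num) (by norm_num) (by norm_num) (by norm_num) (by norm_num) (by norm_num) (by norm_num) (by norm_num) (by norm_num) (by norm_num) (by norm_num) (by norm_num) (by norm_num) (by norm_num) (by norm_num) (by norm_num) (by norm_num) (by norm_num)
    (exp_neg_leJ (r := 0.531) 7 (by norm_num) (by norm_num) (by norm_num) (by norm_num))
    (exp_neg_leJ (r := 0.005) 6 (by norm_num) (by norm_num) (by norm_num) (by norm_num))
    (exp_neg_leJ (r := 0.99) 14 (by norm_num) (by norm_num) (by norm_num) (by norm_num))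
    (exp_neg_leJ (r := 0.99) 14 (by norm_num) (by norm_num) (by norm_num) (by norm_num))
    (exp_neg_leJ (r := 0.309) 7 (by norm_num) (by norm_num) (by norm_num) (by norm_num))
    (exp_neg_leJ (r := 0.821) 12 (by norm_num) (by norm_num) (by norm_num) (by norm_num))
    (exp_neg_leJ (r := 0.317) 7 (by norm_num) (by norm_num) (by norm_num) (by norm_num))
    (exp_neg_leJ (r := 0.99) 14 (by norm_num) (by norm_num) (by norm_num) (by norm_num))
    (by norm_num)) (by norm_num) hN hβ.le (by norm_num)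

private theorem dr4_c0 {κ t β : ℝ} (h : DomR κ t) (hβ : 0 < β) (hk1 : 0.51 ≤ κ) (hk2 : κ ≤ 0.555)
    (ht1 : 0.7696 ≤ t + κ) (ht2 : t + κ ≤ 1.0368) (hR0 : β * 10 ≤ κ) (hR : β * (3.3 * (1 + κ ^ 2)) ≤ κ) :
    ∀ s : ℂ, ‖s - sg κ t‖ ≤ 0.06 → ‖HH β s - 1‖ ≤ 0.03 := by
  have hN : β * 18.018 ≤ 1 := bNR hβ h.1 hk2 hR0 (by norm_num)
  have hy1 : 0.226 ≤ sy κ t := syR_ge h 0.51 0.555 0.7696 0.226 1.25357 1.25358 0.51046 0.55551 hk1 hk2 (by linarith) (by norm_num) (by norm_num)
    (expn_ge (by norm_num) (by norm_num)) (expn_le (by norm_num) (by norm_num) (by norm_num)) (by norm_num)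
    (by norm_num) (by norm_num) (by norm_num) (by norm_num) (by norm_num) (by norm_num)
  have hy2 : sy κ t ≤ 0.295 := syR_ang2 h 0.51 0.555 1.0368 0.794 0.7014 0.7133 0.295 0.74454 1.34312 hk1 hk2 (by linarith) (by norm_num) (by norm_num) (by norm_num)
    (cos_le_num (by norm_num)) (sin_le_num (by norm_num) (by norm_num)) (expm_le (by norm_num) (by norm_num) (by norm_num))
    (expn_ge (by norm_num) (by norm_num)) (by norm_num) (by norm_num) (by norm_num) (by norm_num) (by norm_num)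
  intro s hs
  have hs' : ‖s - ((sx κ t : ℂ) + (sy κ t : ℂ) * I)‖ ≤ 0.06 := hs
  obtain ⟨es, ⟨s1, s2⟩, ⟨s3, s4⟩⟩ := disc_split hs'
  rcases le_total (sy κ t) 0.271 with f0 | g0
  · have hx1 : 0.2789 ≤ sx κ t := sx_lo h 0.51 0.271 0.271 0.76261 0.2789 hk1 (by norm_num) f0 (abs_le.2 ⟨by linarith, by linarith⟩) (expm_ge (by norm_num) (by norm_num) (by norm_num) (by norm_num)) (by norm_num) (by norm_num)
    have hx2 : sx κ t ≤ 0.3808 := sx_hi h 0.555 0.226 0.226 0.79772 0.3808 hk2 hy1 (by norm_num) (by rw [abs_of_nonneg (by linarith)]; linarith) (expm_le (by norm_num) (by norm_num) (by norm_num)) (by norm_num) (by norm_num)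
    rw [es]
    exact dr4_b0_0 hβ hN (by linarith) (by linarith) (by linarith) (by linarith)
  rcases le_total (sy κ t) 0.286 with f1 | g1
  · have hx1 : 0.2549 ≤ sx κ t := sx_lo h 0.51 0.286 0.286 0.75126 0.2549 hk1 (by norm_num) f1 (abs_le.2 ⟨by linarith, by linarith⟩) (expm_ge (by norm_num) (by norm_num) (by norm_num) (by norm_num)) (by norm_num) (by norm_num)
    have hx2 : sx κ t ≤ 0.3252 := sx_hi h 0.555 0.271 0.271 0.76262 0.3252 hk2 g0 (by norm_num) (by rw [abs_of_nonneg (by linarith)]; linarith) (expm_le (by norm_num) (by norm_num) (by norm_num)) (by norm_num) (by norm_num)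
    rw [es]
    exact dr4_b0_1 hβ hN (by linarith) (by linarith) (by linarith) (by linarith)
  have hx1 : 0.239 ≤ sx κ t := sx_lo h 0.51 0.295 0.295 0.74453 0.239 hk1 (by norm_num) hy2 (abs_le.2 ⟨by linarith, by linarith⟩) (expm_ge (by norm_num) (by norm_num) (by norm_num) (by norm_num)) (by norm_num) (by norm_num)
  have hx2 : sx κ t ≤ 0.3035 := sx_hi h 0.555 0.286 0.286 0.75127 0.3035 hk2 g1 (by norm_num) (by rw [abs_of_nonneg (by linarith)]; linarith) (expm_le (by norm_num) (by norm_num) (by norm_num)) (by norm_num) (by norm_num)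
  rw [es]
  exact dr4_b0_2 hβ hN (by linarith) (by linarith) (by linarith) (by linarith)

theorem dr4 {κ t β : ℝ} (h : DomR κ t) (hβ : 0 < β) (hk1 : 0.51 ≤ κ) (hk2 : κ ≤ 0.555)
    (ht1 : 0.7696 ≤ t + κ) (ht2 : t + κ ≤ 1.0368) (hR0 : β * 10 ≤ κ) (hR : β * (3.3 * (1 + κ ^ 2)) ≤ κ) :
    ∀ s : ℂ, ‖s - sg κ t‖ ≤ 0.06 → ‖HH β s - 1‖ ≤ 0.03 := by
  exact dr4_c0 h hβ hk1 hk2 ht1 ht2 hR0 hR

private theorem dr5_b0_0 {β x y : ℝ} (hβ : 0 < β) (hN : β * 16.666 ≤ 1) (hx1 : 0.196 ≤ x) (hx2 : x ≤ 0.4887)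
    (hy1 : -0 ≤ y) (hy2 : y ≤ 0.383) : ‖HH β (x + y * I) - 1‖ ≤ 0.05 := by
  refine le_epsJ (C := 0.8198) (N0 := 16.666) (J_boxp 0.196 0.4887 0 0.383 0.383 0.848 0.6209 1.4669 1.551 0.4832 4.0825 16.666 0.7322 2.663 1.39 1.2321 0.4239 0.3205 1.0753 3.7858 0.4111 0.7323 0.32 1.6115 0.0008554 0.004792 0.0000003101 0.0000003101 0.001061 0.000005011 0.00483 0.0000003101 0.8198
    hβ hN hx1 hx2 hy1 hy2 (by norm_num) (by norm_num) (by linarith) (by norm_num) (by norm_num) (by norm_num) (by norm_num) (by norm_num) (by norm_num) (by norm_num) (by norm_num) (by norm_num) (by norm_num) (by norm_num) (by norm_num) (by norm_num) (by norm_num) (by norm_num) (by norm_num) (by norm_num) (by norm_num) (by norm_num) (by norm_num) (by norm_num)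
    (cube_sqrt_geJ (s := 0.8694) (by norm_num) (by norm_num) (by norm_num) (by norm_num))
    (cube_sqrt_geJ (s := 0.9541) (by norm_num) (by norm_num) (by norm_num) (by norm_num))
    (by norm_num) (by norm_num) (by norm_num) (by norm_num) (by norm_num) (by norm_num) (by norm_num) (by norm_num) (by norm_num) (by norm_num) (by norm_num) (by norm_num) (by norm_num) (by norm_num) (by norm_num) (by norm_num) (by norm_num) (by norm_num)
    (exp_neg_leJ (r := 0.064) 7 (by norm_num) (by norm_num) (by norm_num) (by norm_num))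
    (exp_neg_leJ (r := 0.341) 5 (by norm_num) (by norm_num) (by norm_num) (by norm_num))
    (exp_neg_leJ (r := 0.99) 14 (by norm_num) (by norm_num) (by norm_num) (by norm_num))
    (exp_neg_leJ (r := 0.99) 14 (by norm_num) (by norm_num) (by norm_num) (by norm_num))
    (exp_neg_leJ (r := 0.851) 6 (by norm_num) (by norm_num) (by norm_num) (by norm_num))
    (exp_neg_leJ (r := 0.204) 12 (by norm_num) (by norm_num) (by norm_num) (by norm_num))
    (exp_neg_leJ (r := 0.333) 5 (by norm_num) (by norm_num) (by norm_num) (by norm_num))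
    (exp_neg_leJ (r := 0.99) 14 (by norm_num) (by norm_num) (by norm_num) (by norm_num))
    (by norm_num)) (by norm_num) hN hβ.le (by norm_num)

private theorem dr5_b0_1 {β x y : ℝ} (hβ : 0 < β) (hN : β * 16.666 ≤ 1) (hx1 : 0.1856 ≤ x) (hx2 : x ≤ 0.4034)
    (hy1 : -0 ≤ y) (hy2 : y ≤ 0.389) : ‖HH β (x + y * I) - 1‖ ≤ 0.05 := by
  refine le_epsJ (C := 0.7076) (N0 := 16.666) (J_boxp 0.1856 0.4034 0 0.389 0.389 0.8407 0.5605 1.4464 1.5603 0.4798 4.0825 16.666 0.6668 2.411 1.348 1.2649 0.4203 0.3269 1.0718 3.8284 0.4055 0.7173 0.2734 1.7266 0.0009083 0.004306 0.0000003101 0.0000003101 0.001163 0.000006453 0.01051 0.0000003101 0.7076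
    hβ hN hx1 hx2 hy1 hy2 (by norm_num) (by norm_num) (by linarith) (by norm_num) (by norm_num) (by norm_num) (by norm_num) (by norm_num) (by norm_num) (by norm_num) (by norm_num) (by norm_num) (by norm_num) (by norm_num) (by norm_num) (by norm_num) (by norm_num) (by norm_num) (by norm_num) (by norm_num) (by norm_num) (by norm_num) (by norm_num) (by norm_num)
    (cube_sqrt_geJ (s := 0.8818) (by norm_num) (by norm_num) (by norm_num) (by norm_num))
    (cube_sqrt_geJ (s := 0.9583) (by norm_num) (by norm_num) (by norm_num) (by norm_num))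
    (by norm_num) (by norm_num) (by norm_num) (by norm_num) (by norm_num) (by norm_num) (by norm_num) (by norm_num) (by norm_num) (by norm_num) (by norm_num) (by norm_num) (by norm_num) (by norm_num) (by norm_num) (by norm_num) (by norm_num) (by norm_num)
    (exp_neg_leJ (r := 0.004) 7 (by norm_num) (by norm_num) (by norm_num) (by norm_num))
    (exp_neg_leJ (r := 0.448) 5 (by norm_num) (by norm_num) (by norm_num) (by norm_num))
    (exp_neg_leJ (r := 0.99) 14 (by norm_num) (by norm_num) (by norm_num) (by norm_num))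
    (exp_neg_leJ (r := 0.99) 14 (by norm_num) (by norm_num) (by norm_num) (by norm_num))
    (exp_neg_leJ (r := 0.758) 6 (by norm_num) (by norm_num) (by norm_num) (by norm_num))
    (exp_neg_leJ (r := 0.954) 11 (by norm_num) (by norm_num) (by norm_num) (by norm_num))
    (exp_neg_leJ (r := 0.556) 4 (by norm_num) (by norm_num) (by norm_num) (by norm_num))
    (exp_neg_leJ (r := 0.99) 14 (by norm_num) (by norm_num) (by norm_num) (by norm_num))
    (by norm_num)) (by norm_num) hN hβ.le (by norm_num)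

private theorem dr5_c0 {κ t β : ℝ} (h : DomR κ t) (hβ : 0 < β) (hk1 : 0.555 ≤ κ) (hk2 : κ ≤ 0.6)
    (ht1 : 0.7696 ≤ t + κ) (ht2 : t + κ ≤ 1.0368) (hR0 : β * 10 ≤ κ) (hR : β * (3.3 * (1 + κ ^ 2)) ≤ κ) :
    ∀ s : ℂ, ‖s - sg κ t‖ ≤ 0.08 → ‖HH β s - 1‖ ≤ 0.05 := by
  have hN : β * 16.666 ≤ 1 := bNR hβ h.1 hk2 hR0 (by norm_num)
  have hy1 : 0.238 ≤ sy κ t := syR_ge h 0.555 0.6 0.7696 0.238 1.2687 1.26871 0.50325 0.54406 hk1 hk2 (by linarith) (by norm_num) (by norm_num)
    (expn_ge (by norm_num) (by norm_num)) (expn_le (by norm_num) (by norm_num) (by norm_num)) (by norm_num)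
    (by norm_num) (by norm_num) (by norm_num) (by norm_num) (by norm_num) (by norm_num)
  have hy2 : sy κ t ≤ 0.309 := syR_le h 0.555 0.6 1.0368 0.309 1.36206 0.6872 0.70146 0.75835 hk1 hk2 (by linarith) (by norm_num) (by norm_num)
    (expn_ge (by norm_num) (by norm_num)) (by norm_num) (by norm_num) (Or.inr ((mul_le_mul_of_nonneg_left (expn_le (E := 1.36207) (by norm_num) (by norm_num) (by norm_num)) (by norm_num)).trans (by norm_num))) (by norm_num) (by norm_num) (by norm_num)
  intro s hs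
  have hs' : ‖s - ((sx κ t : ℂ) + (sy κ t : ℂ) * I)‖ ≤ 0.08 := hs
  obtain ⟨es, ⟨s1, s2⟩, ⟨s3, s4⟩⟩ := disc_split hs'
  rcases le_total (sy κ t) 0.303 with f0 | g0
  · have hx1 : 0.276 ≤ sx κ t := sx_lo h 0.555 0.303 0.303 0.73859 0.276 hk1 (by norm_num) f0 (abs_le.2 ⟨by linarith, by linarith⟩) (expm_ge (by norm_num) (by norm_num) (by norm_num) (by norm_num)) (by norm_num) (by norm_num)
    have hx2 : sx κ t ≤ 0.4087 := sx_hi h 0.6 0.238 0.238 0.78821 0.4087 hk2 hy1 (by norm_num) (by rw [abs_of_nonneg (by linarith)]; linarith) (expm_le (by norm_num) (by norm_num) (by norm_num)) (by norm_num) (by norm_num)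
    rw [es]
    exact dr5_b0_0 hβ hN (by linarith) (by linarith) (by linarith) (by linarith)
  have hx1 : 0.2656 ≤ sx κ t := sx_lo h 0.555 0.309 0.309 0.73418 0.2656 hk1 (by norm_num) hy2 (abs_le.2 ⟨by linarith, by linarith⟩) (expm_ge (by norm_num) (by norm_num) (by norm_num) (by norm_num)) (by norm_num) (by norm_num)
  have hx2 : sx κ t ≤ 0.3234 := sx_hi h 0.6 0.303 0.303 0.7386 0.3234 hk2 g0 (by norm_num) (by rw [abs_of_nonneg (by linarith)]; linarith) (expm_le (by norm_num) (by norm_num) (by norm_num)) (by norm_num) (by norm_num)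
  rw [es]
  exact dr5_b0_1 hβ hN (by linarith) (by linarith) (by linarith) (by linarith)

theorem dr5 {κ t β : ℝ} (h : DomR κ t) (hβ : 0 < β) (hk1 : 0.555 ≤ κ) (hk2 : κ ≤ 0.6)
    (ht1 : 0.7696 ≤ t + κ) (ht2 : t + κ ≤ 1.0368) (hR0 : β * 10 ≤ κ) (hR : β * (3.3 * (1 + κ ^ 2)) ≤ κ) :
    ∀ s : ℂ, ‖s - sg κ t‖ ≤ 0.08 → ‖HH β s - 1‖ ≤ 0.05 := by
  exact dr5_c0 h hβ hk1 hk2 ht1 ht2 hR0 hR

private theorem dr6_b0_0 {β x y : ℝ} (hβ : 0 < β) (hN : β * 15.384 ≤ 1) (hx1 : 0.2274 ≤ x) (hx2 : x ≤ 0.5225)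
    (hy1 : -0 ≤ y) (hy2 : y ≤ 0.393) : ‖HH β (x + y * I) - 1‖ ≤ 0.06 := by
  refine le_epsJ (C := 0.8731) (N0 := 15.384) (J_boxp 0.2274 0.5225 0 0.393 0.393 0.8701 0.6539 1.4878 1.5029 0.4867 3.9223 15.384 0.7516 2.744 1.403 1.2191 0.435 0.326 1.0861 3.7664 0.4253 0.7747 0.3399 1.5375 0.001242 0.006638 0.0000003101 0.0000003101 0.001442 0.000006694 0.005359 0.0000003101 0.8731
    hβ hN hx1 hx2 hy1 hy2 (by norm_num) (by norm_num) (by linarith) (by norm_num) (by norm_num) (by norm_num) (by norm_num) (by norm_num) (by norm_num) (by norm_num) (by norm_num) (by norm_num) (by norm_num) (by norm_num) (by norm_num) (by norm_num) (by norm_num) (by norm_num) (by norm_num) (by norm_num) (by norm_num) (by norm_num) (by norm_num) (by norm_num)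
    (cube_sqrt_geJ (s := 0.8657) (by norm_num) (by norm_num) (by norm_num) (by norm_num))
    (cube_sqrt_geJ (s := 0.9528) (by norm_num) (by norm_num) (by norm_num) (by norm_num))
    (by norm_num) (by norm_num) (by norm_num) (by norm_num) (by norm_num) (by norm_num) (by norm_num) (by norm_num) (by norm_num) (by norm_num) (by norm_num) (by norm_num) (by norm_num) (by norm_num) (by norm_num) (by norm_num) (by norm_num) (by norm_num)
    (exp_neg_leJ (r := 0.692) 6 (by norm_num) (by norm_num) (by norm_num) (by norm_num))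
    (exp_neg_leJ (r := 0.015) 5 (by norm_num) (by norm_num) (by norm_num) (by norm_num))
    (exp_neg_leJ (r := 0.99) 14 (by norm_num) (by norm_num) (by norm_num) (by norm_num))
    (exp_neg_leJ (r := 0.99) 14 (by norm_num) (by norm_num) (by norm_num) (by norm_num))
    (exp_neg_leJ (r := 0.542) 6 (by norm_num) (by norm_num) (by norm_num) (by norm_num))
    (exp_neg_leJ (r := 0.917) 11 (by norm_num) (by norm_num) (by norm_num) (by norm_num))
    (exp_neg_leJ (r := 0.229) 5 (by norm_num) (by norm_num) (by norm_num) (by norm_num))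
    (exp_neg_leJ (r := 0.99) 14 (by norm_num) (by norm_num) (by norm_num) (by norm_num))
    (by norm_num)) (by norm_num) hN hβ.le (by norm_num)

private theorem dr6_b0_1 {β x y : ℝ} (hβ : 0 < β) (hN : β * 15.384 ≤ 1) (hx1 : 0.2121 ≤ x) (hx2 : x ≤ 0.4378)
    (hy1 : -0 ≤ y) (hy2 : y ≤ 0.402) : ‖HH β (x + y * I) - 1‖ ≤ 0.06 := by
  refine le_epsJ (C := 0.79) (N0 := 15.384) (J_boxp 0.2121 0.4378 0 0.402 0.402 0.8594 0.5944 1.4688 1.5213 0.4835 3.9223 15.384 0.6917 2.503 1.364 1.2517 0.4296 0.3306 1.0808 3.8086 0.417 0.7526 0.2707 1.6262 0.001351 0.006189 0.0000003101 0.0000003101 0.001637 0.000009383 0.01555 0.0000003101 0.79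
    hβ hN hx1 hx2 hy1 hy2 (by norm_num) (by norm_num) (by linarith) (by norm_num) (by norm_num) (by norm_num) (by norm_num) (by norm_num) (by norm_num) (by norm_num) (by norm_num) (by norm_num) (by norm_num) (by norm_num) (by norm_num) (by norm_num) (by norm_num) (by norm_num) (by norm_num) (by norm_num) (by norm_num) (by norm_num) (by norm_num) (by norm_num)
    (cube_sqrt_geJ (s := 0.8771) (by norm_num) (by norm_num) (by norm_num) (by norm_num))
    (cube_sqrt_geJ (s := 0.9567) (by norm_num) (by norm_num) (by norm_num) (by norm_num))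
    (by norm_num) (by norm_num) (by norm_num) (by norm_num) (by norm_num) (by norm_num) (by norm_num) (by norm_num) (by norm_num) (by norm_num) (by norm_num) (by norm_num) (by norm_num) (by norm_num) (by norm_num) (by norm_num) (by norm_num) (by norm_num)
    (exp_neg_leJ (r := 0.608) 6 (by norm_num) (by norm_num) (by norm_num) (by norm_num))
    (exp_neg_leJ (r := 0.085) 5 (by norm_num) (by norm_num) (by norm_num) (by norm_num))
    (exp_neg_leJ (r := 0.99) 14 (by norm_num) (by norm_num) (by norm_num) (by norm_num))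
    (exp_neg_leJ (r := 0.99) 14 (by norm_num) (by norm_num) (by norm_num) (by norm_num))
    (exp_neg_leJ (r := 0.415) 6 (by norm_num) (by norm_num) (by norm_num) (by norm_num))
    (exp_neg_leJ (r := 0.577) 11 (by norm_num) (by norm_num) (by norm_num) (by norm_num))
    (exp_neg_leJ (r := 0.164) 4 (by norm_num) (by norm_num) (by norm_num) (by norm_num))
    (exp_neg_leJ (r := 0.99) 14 (by norm_num) (by norm_num) (by norm_num) (by norm_num))
    (by norm_num)) (by norm_num) hN hβ.le (by norm_num)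

private theorem dr6_c0 {κ t β : ℝ} (h : DomR κ t) (hβ : 0 < β) (hk1 : 0.6 ≤ κ) (hk2 : κ ≤ 0.65)
    (ht1 : 0.7696 ≤ t + κ) (ht2 : t + κ ≤ 1.0368) (hR0 : β * 10 ≤ κ) (hR : β * (3.3 * (1 + κ ^ 2)) ≤ κ) :
    ∀ s : ℂ, ‖s - sg κ t‖ ≤ 0.08 → ‖HH β s - 1‖ ≤ 0.06 := by
  have hN : β * 15.384 ≤ 1 := bNR hβ h.1 hk2 hR0 (by norm_num)
  have hy1 : 0.248 ≤ sy κ t := syR_ge h 0.6 0.65 0.7696 0.248 1.28145 1.28146 0.48892 0.52968 hk1 hk2 (by linarith) (by norm_num) (by norm_num)
    (expn_ge (by norm_num) (by norm_num)) (expn_le (by norm_num) (by norm_num) (by norm_num)) (by norm_num)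
    (by norm_num) (by norm_num) (by norm_num) (by norm_num) (by norm_num) (by norm_num)
  have hy2 : sy κ t ≤ 0.322 := syR_le h 0.6 0.65 1.0368 0.322 1.37988 0.6693 0.68357 0.74055 hk1 hk2 (by linarith) (by norm_num) (by norm_num)
    (expn_ge (by norm_num) (by norm_num)) (by norm_num) (by norm_num) (Or.inr ((mul_le_mul_of_nonneg_left (expn_le (E := 1.37989) (by norm_num) (by norm_num) (by norm_num)) (by norm_num)).trans (by norm_num))) (by norm_num) (by norm_num) (by norm_num)
  intro s hs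
  have hs' : ‖s - ((sx κ t : ℂ) + (sy κ t : ℂ) * I)‖ ≤ 0.08 := hs
  obtain ⟨es, ⟨s1, s2⟩, ⟨s3, s4⟩⟩ := disc_split hs'
  rcases le_total (sy κ t) 0.313 with f0 | g0
  · have hx1 : 0.3074 ≤ sx κ t := sx_lo h 0.6 0.313 0.313 0.73124 0.3074 hk1 (by norm_num) f0 (abs_le.2 ⟨by linarith, by linarith⟩) (expm_ge (by norm_num) (by norm_num) (by norm_num) (by norm_num)) (by norm_num) (by norm_num)
    have hx2 : sx κ t ≤ 0.4425 := sx_hi h 0.65 0.248 0.248 0.78036 0.4425 hk2 hy1 (by norm_num) (by rw [abs_of_nonneg (by linarith)]; linarith) (expm_le (by norm_num) (by norm_num) (by norm_num)) (by norm_num) (by norm_num)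
    rw [es]
    exact dr6_b0_0 hβ hN (by linarith) (by linarith) (by linarith) (by linarith)
  have hx1 : 0.2921 ≤ sx κ t := sx_lo h 0.6 0.322 0.322 0.72469 0.2921 hk1 (by norm_num) hy2 (abs_le.2 ⟨by linarith, by linarith⟩) (expm_ge (by norm_num) (by norm_num) (by norm_num) (by norm_num)) (by norm_num) (by norm_num)
  have hx2 : sx κ t ≤ 0.3578 := sx_hi h 0.65 0.313 0.313 0.73125 0.3578 hk2 g0 (by norm_num) (by rw [abs_of_nonneg (by linarith)]; linarith) (expm_le (by norm_num) (by norm_num) (by norm_num)) (by norm_num) (by norm_num)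
  rw [es]
  exact dr6_b0_1 hβ hN (by linarith) (by linarith) (by linarith) (by linarith)

theorem dr6 {κ t β : ℝ} (h : DomR κ t) (hβ : 0 < β) (hk1 : 0.6 ≤ κ) (hk2 : κ ≤ 0.65)
    (ht1 : 0.7696 ≤ t + κ) (ht2 : t + κ ≤ 1.0368) (hR0 : β * 10 ≤ κ) (hR : β * (3.3 * (1 + κ ^ 2)) ≤ κ) :
    ∀ s : ℂ, ‖s - sg κ t‖ ≤ 0.08 → ‖HH β s - 1‖ ≤ 0.06 := by
  exact dr6_c0 h hβ hk1 hk2 ht1 ht2 hR0 hR

private theorem dr7_b0_0 {β x y : ℝ} (hβ : 0 < β) (hN : β * 14.285 ≤ 1) (hx1 : 0.2761 ≤ x) (hx2 : x ≤ 0.5542)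
    (hy1 : -0 ≤ y) (hy2 : y ≤ 0.394) : ‖HH β (x + y * I) - 1‖ ≤ 0.06 := by
  refine le_epsJ (C := 0.839) (N0 := 14.285) (J_boxp 0.2761 0.5542 0 0.394 0.394 0.9044 0.68 1.5002 1.4241 0.4887 3.7796 14.285 0.7519 2.746 1.403 1.2069 0.4521 0.3388 1.1027 3.7496 0.4489 0.8421 0.433 1.5592 0.001569 0.007929 0.0000003101 0.0000003101 0.001642 0.000005969 0.002061 0.0000003101 0.839
    hβ hN hx1 hx2 hy1 hy2 (by norm_num) (by norm_num) (by linarith) (by norm_num) (by norm_num) (by norm_num) (by norm_num) (by norm_num) (by norm_num) (by norm_num) (by norm_num) (by norm_num) (by norm_num) (by norm_num) (by norm_num) (by norm_num) (by norm_num) (by norm_num) (by norm_num) (by norm_num) (by norm_num) (by norm_num) (by norm_num) (by norm_num)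
    (cube_sqrt_geJ (s := 0.8656) (by norm_num) (by norm_num) (by norm_num) (by norm_num))
    (cube_sqrt_geJ (s := 0.9528) (by norm_num) (by norm_num) (by norm_num) (by norm_num))
    (by norm_num) (by norm_num) (by norm_num) (by norm_num) (by norm_num) (by norm_num) (by norm_num) (by norm_num) (by norm_num) (by norm_num) (by norm_num) (by norm_num) (by norm_num) (by norm_num) (by norm_num) (by norm_num) (by norm_num) (by norm_num)
    (exp_neg_leJ (r := 0.458) 6 (by norm_num) (by norm_num) (by norm_num) (by norm_num))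
    (exp_neg_leJ (r := 0.839) 4 (by norm_num) (by norm_num) (by norm_num) (by norm_num))
    (exp_neg_leJ (r := 0.99) 14 (by norm_num) (by norm_num) (by norm_num) (by norm_num))
    (exp_neg_leJ (r := 0.99) 14 (by norm_num) (by norm_num) (by norm_num) (by norm_num))
    (exp_neg_leJ (r := 0.412) 6 (by norm_num) (by norm_num) (by norm_num) (by norm_num))
    (exp_neg_leJ (r := 0.029) 12 (by norm_num) (by norm_num) (by norm_num) (by norm_num))
    (exp_neg_leJ (r := 0.185) 6 (by norm_num) (by norm_num) (by norm_num) (by norm_num))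
    (exp_neg_leJ (r := 0.99) 14 (by norm_num) (by norm_num) (by norm_num) (by norm_num))
    (by norm_num)) (by norm_num) hN hβ.le (by norm_num)

private theorem dr7_b0_1 {β x y : ℝ} (hβ : 0 < β) (hN : β * 14.285 ≤ 1) (hx1 : 0.2525 ≤ x) (hx2 : x ≤ 0.4837)
    (hy1 : -0 ≤ y) (hy2 : y ≤ 0.409) : ‖HH β (x + y * I) - 1‖ ≤ 0.06 := by
  refine le_epsJ (C := 0.8132) (N0 := 14.285) (J_boxp 0.2525 0.4837 0 0.409 0.409 0.8878 0.6335 1.4898 1.4592 0.487 3.7796 14.285 0.7136 2.588 1.378 1.234 0.4438 0.3383 1.0947 3.7839 0.4359 0.8078 0.3214 1.5678 0.001767 0.007985 0.0000003101 0.0000003101 0.001978 0.000009746 0.01015 0.0000003101 0.8132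
    hβ hN hx1 hx2 hy1 hy2 (by norm_num) (by norm_num) (by linarith) (by norm_num) (by norm_num) (by norm_num) (by norm_num) (by norm_num) (by norm_num) (by norm_num) (by norm_num) (by norm_num) (by norm_num) (by norm_num) (by norm_num) (by norm_num) (by norm_num) (by norm_num) (by norm_num) (by norm_num) (by norm_num) (by norm_num) (by norm_num) (by norm_num)
    (cube_sqrt_geJ (s := 0.873) (by norm_num) (by norm_num) (by norm_num) (by norm_num))
    (cube_sqrt_geJ (s := 0.9553) (by norm_num) (by norm_num) (by norm_num) (by norm_num))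
    (by norm_num) (by norm_num) (by norm_num) (by norm_num) (by norm_num) (by norm_num) (by norm_num) (by norm_num) (by norm_num) (by norm_num) (by norm_num) (by norm_num) (by norm_num) (by norm_num) (by norm_num) (by norm_num) (by norm_num) (by norm_num)
    (exp_neg_leJ (r := 0.339) 6 (by norm_num) (by norm_num) (by norm_num) (by norm_num))
    (exp_neg_leJ (r := 0.832) 4 (by norm_num) (by norm_num) (by norm_num) (by norm_num))
    (exp_neg_leJ (r := 0.99) 14 (by norm_num) (by norm_num) (by norm_num) (by norm_num))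
    (exp_neg_leJ (r := 0.99) 14 (by norm_num) (by norm_num) (by norm_num) (by norm_num))
    (exp_neg_leJ (r := 0.226) 6 (by norm_num) (by norm_num) (by norm_num) (by norm_num))
    (exp_neg_leJ (r := 0.539) 11 (by norm_num) (by norm_num) (by norm_num) (by norm_num))
    (exp_neg_leJ (r := 0.591) 4 (by norm_num) (by norm_num) (by norm_num) (by norm_num))
    (exp_neg_leJ (r := 0.99) 14 (by norm_num) (by norm_num) (by norm_num) (by norm_num))
    (by norm_num)) (by norm_num) hN hβ.le (by norm_num)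

private theorem dr7_b0_2 {β x y : ℝ} (hβ : 0 < β) (hN : β * 14.285 ≤ 1) (hx1 : 0.2441 ≤ x) (hx2 : x ≤ 0.4615)
    (hy1 : -0 ≤ y) (hy2 : y ≤ 0.414) : ‖HH β (x + y * I) - 1‖ ≤ 0.06 := by
  refine le_epsJ (C := 0.8266) (N0 := 14.285) (J_boxp 0.2441 0.4615 0 0.414 0.414 0.8819 0.62 1.4875 1.4727 0.4866 3.7796 14.285 0.7031 2.547 1.371 1.2426 0.4409 0.3376 1.0918 3.7944 0.4313 0.7957 0.2832 1.5641 0.001841 0.008064 0.0000003101 0.0000003101 0.002111 0.00001159 0.01751 0.0000003101 0.8266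
    hβ hN hx1 hx2 hy1 hy2 (by norm_num) (by norm_num) (by linarith) (by norm_num) (by norm_num) (by norm_num) (by norm_num) (by norm_num) (by norm_num) (by norm_num) (by norm_num) (by norm_num) (by norm_num) (by norm_num) (by norm_num) (by norm_num) (by norm_num) (by norm_num) (by norm_num) (by norm_num) (by norm_num) (by norm_num) (by norm_num) (by norm_num)
    (cube_sqrt_geJ (s := 0.875) (by norm_num) (by norm_num) (by norm_num) (by norm_num))
    (cube_sqrt_geJ (s := 0.9559) (by norm_num) (by norm_num) (by norm_num) (by norm_num))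
    (by norm_num) (by norm_num) (by norm_num) (by norm_num) (by norm_num) (by norm_num) (by norm_num) (by norm_num) (by norm_num) (by norm_num) (by norm_num) (by norm_num) (by norm_num) (by norm_num) (by norm_num) (by norm_num) (by norm_num) (by norm_num)
    (exp_neg_leJ (r := 0.298) 6 (by norm_num) (by norm_num) (by norm_num) (by norm_num))
    (exp_neg_leJ (r := 0.822) 4 (by norm_num) (by norm_num) (by norm_num) (by norm_num))
    (exp_neg_leJ (r := 0.99) 14 (by norm_num) (by norm_num) (by norm_num) (by norm_num))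
    (exp_neg_leJ (r := 0.99) 14 (by norm_num) (by norm_num) (by norm_num) (by norm_num))
    (exp_neg_leJ (r := 0.161) 6 (by norm_num) (by norm_num) (by norm_num) (by norm_num))
    (exp_neg_leJ (r := 0.366) 11 (by norm_num) (by norm_num) (by norm_num) (by norm_num))
    (exp_neg_leJ (r := 0.045) 4 (by norm_num) (by norm_num) (by norm_num) (by norm_num))
    (exp_neg_leJ (r := 0.99) 14 (by norm_num) (by norm_num) (by norm_num) (by norm_num))
    (by norm_num)) (by norm_num) hN hβ.le (by norm_num)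

private theorem dr7_c0 {κ t β : ℝ} (h : DomR κ t) (hβ : 0 < β) (hk1 : 0.65 ≤ κ) (hk2 : κ ≤ 0.7)
    (ht1 : 0.7696 ≤ t + κ) (ht2 : t + κ ≤ 1.0368) (hR0 : β * 10 ≤ κ) (hR : β * (3.3 * (1 + κ ^ 2)) ≤ κ) :
    ∀ s : ℂ, ‖s - sg κ t‖ ≤ 0.08 → ‖HH β s - 1‖ ≤ 0.06 := by
  have hN : β * 14.285 ≤ 1 := bNR hβ h.1 hk2 hR0 (by norm_num)
  have hy1 : 0.259 ≤ sy κ t := syR_ge h 0.65 0.7 0.7696 0.259 1.29563 1.29564 0.47938 0.51627 hk1 hk2 (by linarith) (by norm_num) (by norm_num)
    (expn_ge (by norm_num) (by norm_num)) (expn_le (by norm_num) (by norm_num) (by norm_num)) (by norm_num)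
    (by norm_num) (by norm_num) (by norm_num) (by norm_num) (by norm_num) (by norm_num)
  have hy2 : sy κ t ≤ 0.334 := syR_le h 0.65 0.7 1.0368 0.334 1.39654 0.6535 0.66634 0.71762 hk1 hk2 (by linarith) (by norm_num) (by norm_num)
    (expn_ge (by norm_num) (by norm_num)) (by norm_num) (by norm_num) (Or.inr ((mul_le_mul_of_nonneg_left (expn_le (E := 1.39655) (by norm_num) (by norm_num) (by norm_num)) (by norm_num)).trans (by norm_num))) (by norm_num) (by norm_num) (by norm_num)
  intro s hs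
  have hs' : ‖s - ((sx κ t : ℂ) + (sy κ t : ℂ) * I)‖ ≤ 0.08 := hs
  obtain ⟨es, ⟨s1, s2⟩, ⟨s3, s4⟩⟩ := disc_split hs'
  rcases le_total (sy κ t) 0.314 with f0 | g0
  · have hx1 : 0.3561 ≤ sx κ t := sx_lo h 0.65 0.314 0.314 0.73051 0.3561 hk1 (by norm_num) f0 (abs_le.2 ⟨by linarith, by linarith⟩) (expm_ge (by norm_num) (by norm_num) (by norm_num) (by norm_num)) (by norm_num) (by norm_num)
    have hx2 : sx κ t ≤ 0.4742 := sx_hi h 0.7 0.259 0.259 0.77183 0.4742 hk2 hy1 (by norm_num) (by rw [abs_of_nonneg (by linarith)]; linarith) (expm_le (by norm_num) (by norm_num) (by norm_num)) (by norm_num) (by norm_num)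
    rw [es]
    exact dr7_b0_0 hβ hN (by linarith) (by linarith) (by linarith) (by linarith)
  rcases le_total (sy κ t) 0.329 with f1 | g1
  · have hx1 : 0.3325 ≤ sx κ t := sx_lo h 0.65 0.329 0.329 0.71964 0.3325 hk1 (by norm_num) f1 (abs_le.2 ⟨by linarith, by linarith⟩) (expm_ge (by norm_num) (by norm_num) (by norm_num) (by norm_num)) (by norm_num) (by norm_num)
    have hx2 : sx κ t ≤ 0.4037 := sx_hi h 0.7 0.314 0.314 0.73052 0.4037 hk2 g0 (by norm_num) (by rw [abs_of_nonneg (by linarith)]; linarith) (expm_le (by norm_num) (by norm_num) (by norm_num)) (by norm_num) (by norm_num)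
    rw [es]
    exact dr7_b0_1 hβ hN (by linarith) (by linarith) (by linarith) (by linarith)
  have hx1 : 0.3241 ≤ sx κ t := sx_lo h 0.65 0.334 0.334 0.71605 0.3241 hk1 (by norm_num) hy2 (abs_le.2 ⟨by linarith, by linarith⟩) (expm_ge (by norm_num) (by norm_num) (by norm_num) (by norm_num)) (by norm_num) (by norm_num)
  have hx2 : sx κ t ≤ 0.3815 := sx_hi h 0.7 0.329 0.329 0.71965 0.3815 hk2 g1 (by norm_num) (by rw [abs_of_nonneg (by linarith)]; linarith) (expm_le (by norm_num) (by norm_num) (by norm_num)) (by norm_num) (by norm_num)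
  rw [es]
  exact dr7_b0_2 hβ hN (by linarith) (by linarith) (by linarith) (by linarith)

theorem dr7 {κ t β : ℝ} (h : DomR κ t) (hβ : 0 < β) (hk1 : 0.65 ≤ κ) (hk2 : κ ≤ 0.7)
    (ht1 : 0.7696 ≤ t + κ) (ht2 : t + κ ≤ 1.0368) (hR0 : β * 10 ≤ κ) (hR : β * (3.3 * (1 + κ ^ 2)) ≤ κ) :
    ∀ s : ℂ, ‖s - sg κ t‖ ≤ 0.08 → ‖HH β s - 1‖ ≤ 0.06 := by
  exact dr7_c0 h hβ hk1 hk2 ht1 ht2 hR0 hR

private theorem dr8_b0_0 {β x y : ℝ} (hβ : 0 < β) (hN : β * 13.333 ≤ 1) (hx1 : 0.3014 ≤ x) (hx2 : x ≤ 0.5861)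
    (hy1 : -0 ≤ y) (hy2 : y ≤ 0.409) : ‖HH β (x + y * I) - 1‖ ≤ 0.07 := by
  refine le_epsJ (C := 0.915) (N0 := 13.333) (J_boxp 0.3014 0.5861 0 0.409 0.409 0.9222 0.7147 1.5261 1.395 0.4929 3.6515 13.333 0.775 2.847 1.418 1.1946 0.461 0.3419 1.1114 3.7304 0.4597 0.8756 0.4192 1.4448 0.002143 0.01049 0.0000003676 0.0000003101 0.002179 0.000008519 0.003741 0.0000003101 0.915
    hβ hN hx1 hx2 hy1 hy2 (by norm_num) (by norm_num) (by linarith) (by norm_num) (by norm_num) (by norm_num) (by norm_num) (by norm_num) (by norm_num) (by norm_num) (by norm_num) (by norm_num) (by norm_num) (by norm_num) (by norm_num) (by norm_num) (by norm_num) (by norm_num) (by norm_num) (by norm_num) (by norm_num) (by norm_num) (by norm_num) (by norm_num)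
    (cube_sqrt_geJ (s := 0.8612) (by norm_num) (by norm_num) (by norm_num) (by norm_num))
    (cube_sqrt_geJ (s := 0.9513) (by norm_num) (by norm_num) (by norm_num) (by norm_num))
    (by norm_num) (by norm_num) (by norm_num) (by norm_num) (by norm_num) (by norm_num) (by norm_num) (by norm_num) (by norm_num) (by norm_num) (by norm_num) (by norm_num) (by norm_num) (by norm_num) (by norm_num) (by norm_num) (by norm_num) (by norm_num)
    (exp_neg_leJ (r := 0.146) 6 (by norm_num) (by norm_num) (by norm_num) (by norm_num))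
    (exp_neg_leJ (r := 0.558) 4 (by norm_num) (by norm_num) (by norm_num) (by norm_num))
    (exp_neg_leJ (r := 0.818) 14 (by norm_num) (by norm_num) (by norm_num) (by norm_num))
    (exp_neg_leJ (r := 0.99) 14 (by norm_num) (by norm_num) (by norm_num) (by norm_num))
    (exp_neg_leJ (r := 0.129) 6 (by norm_num) (by norm_num) (by norm_num) (by norm_num))
    (exp_neg_leJ (r := 0.674) 11 (by norm_num) (by norm_num) (by norm_num) (by norm_num))
    (exp_neg_leJ (r := 0.589) 5 (by norm_num) (by norm_num) (by norm_num) (by norm_num))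
    (exp_neg_leJ (r := 0.99) 14 (by norm_num) (by norm_num) (by norm_num) (by norm_num))
    (by norm_num)) (by norm_num) hN hβ.le (by norm_num)

private theorem dr8_b0_1 {β x y : ℝ} (hβ : 0 < β) (hN : β * 13.333 ≤ 1) (hx1 : 0.276 ≤ x) (hx2 : x ≤ 0.5079)
    (hy1 : -0 ≤ y) (hy2 : y ≤ 0.425) : ‖HH β (x + y * I) - 1‖ ≤ 0.07 := by
  refine le_epsJ (C := 0.9008) (N0 := 13.333) (J_boxp 0.276 0.5079 0 0.425 0.425 0.9044 0.6623 1.5129 1.4301 0.4907 3.6515 13.333 0.7324 2.664 1.39 1.2247 0.4521 0.3418 1.1027 3.7687 0.4457 0.8388 0.2998 1.4611 0.002413 0.0105 0.0000004125 0.0000003101 0.002635 0.00001391 0.01857 0.0000003101 0.9008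
    hβ hN hx1 hx2 hy1 hy2 (by norm_num) (by norm_num) (by linarith) (by norm_num) (by norm_num) (by norm_num) (by norm_num) (by norm_num) (by norm_num) (by norm_num) (by norm_num) (by norm_num) (by norm_num) (by norm_num) (by norm_num) (by norm_num) (by norm_num) (by norm_num) (by norm_num) (by norm_num) (by norm_num) (by norm_num) (by norm_num) (by norm_num)
    (cube_sqrt_geJ (s := 0.8694) (by norm_num) (by norm_num) (by norm_num) (by norm_num))
    (cube_sqrt_geJ (s := 0.9541) (by norm_num) (by norm_num) (by norm_num) (by norm_num))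
    (by norm_num) (by norm_num) (by norm_num) (by norm_num) (by norm_num) (by norm_num) (by norm_num) (by norm_num) (by norm_num) (by norm_num) (by norm_num) (by norm_num) (by norm_num) (by norm_num) (by norm_num) (by norm_num) (by norm_num) (by norm_num)
    (exp_neg_leJ (r := 0.027) 6 (by norm_num) (by norm_num) (by norm_num) (by norm_num))
    (exp_neg_leJ (r := 0.557) 4 (by norm_num) (by norm_num) (by norm_num) (by norm_num))
    (exp_neg_leJ (r := 0.702) 14 (by norm_num) (by norm_num) (by norm_num) (by norm_num))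
    (exp_neg_leJ (r := 0.99) 14 (by norm_num) (by norm_num) (by norm_num) (by norm_num))
    (exp_neg_leJ (r := 0.942) 5 (by norm_num) (by norm_num) (by norm_num) (by norm_num))
    (exp_neg_leJ (r := 0.183) 11 (by norm_num) (by norm_num) (by norm_num) (by norm_num))
    (exp_neg_leJ (r := 0.99) 3 (by norm_num) (by norm_num) (by norm_num) (by norm_num))
    (exp_neg_leJ (r := 0.99) 14 (by norm_num) (by norm_num) (by norm_num) (by norm_num))
    (by norm_num)) (by norm_num) hN hβ.le (by norm_num)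

private theorem dr8_c0 {κ t β : ℝ} (h : DomR κ t) (hβ : 0 < β) (hk1 : 0.7 ≤ κ) (hk2 : κ ≤ 0.75)
    (ht1 : 0.7696 ≤ t + κ) (ht2 : t + κ ≤ 1.0368) (hR0 : β * 10 ≤ κ) (hR : β * (3.3 * (1 + κ ^ 2)) ≤ κ) :
    ∀ s : ℂ, ‖s - sg κ t‖ ≤ 0.08 → ‖HH β s - 1‖ ≤ 0.07 := by
  have hN : β * 13.333 ≤ 1 := bNR hβ h.1 hk2 hR0 (by norm_num)
  have hy1 : 0.269 ≤ sy κ t := syR_ge h 0.7 0.75 0.7696 0.269 1.30865 1.30866 0.46936 0.5029 hk1 hk2 (by linarith) (by norm_num) (by norm_num)
    (expn_ge (by norm_num) (by norm_num)) (expn_le (by norm_num) (by norm_num) (by norm_num)) (by norm_num)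
    (by norm_num) (by norm_num) (by norm_num) (by norm_num) (by norm_num) (by norm_num)
  have hy2 : sy κ t ≤ 0.345 := syR_le h 0.7 0.75 1.0368 0.345 1.41198 0.6379 0.64951 0.69591 hk1 hk2 (by linarith) (by norm_num) (by norm_num)
    (expn_ge (by norm_num) (by norm_num)) (by norm_num) (by norm_num) (Or.inr ((mul_le_mul_of_nonneg_left (expn_le (E := 1.41199) (by norm_num) (by norm_num) (by norm_num)) (by norm_num)).trans (by norm_num))) (by norm_num) (by norm_num) (by norm_num)
  intro s hs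
  have hs' : ‖s - ((sx κ t : ℂ) + (sy κ t : ℂ) * I)‖ ≤ 0.08 := hs
  obtain ⟨es, ⟨s1, s2⟩, ⟨s3, s4⟩⟩ := disc_split hs'
  rcases le_total (sy κ t) 0.329 with f0 | g0
  · have hx1 : 0.3814 ≤ sx κ t := sx_lo h 0.7 0.329 0.329 0.71964 0.3814 hk1 (by norm_num) f0 (abs_le.2 ⟨by linarith, by linarith⟩) (expm_ge (by norm_num) (by norm_num) (by norm_num) (by norm_num)) (by norm_num) (by norm_num)
    have hx2 : sx κ t ≤ 0.5061 := sx_hi h 0.75 0.269 0.269 0.76415 0.5061 hk2 hy1 (by norm_num) (by rw [abs_of_nonneg (by linarith)]; linarith) (expm_le (by norm_num) (by norm_num) (by norm_num)) (by norm_num) (by norm_num)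
    rw [es]
    exact dr8_b0_0 hβ hN (by linarith) (by linarith) (by linarith) (by linarith)
  have hx1 : 0.356 ≤ sx κ t := sx_lo h 0.7 0.345 0.345 0.70822 0.356 hk1 (by norm_num) hy2 (abs_le.2 ⟨by linarith, by linarith⟩) (expm_ge (by norm_num) (by norm_num) (by norm_num) (by norm_num)) (by norm_num) (by norm_num)
  have hx2 : sx κ t ≤ 0.4279 := sx_hi h 0.75 0.329 0.329 0.71965 0.4279 hk2 g0 (by norm_num) (by rw [abs_of_nonneg (by linarith)]; linarith) (expm_le (by norm_num) (by norm_num) (by norm_num)) (by norm_num) (by norm_num)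
  rw [es]
  exact dr8_b0_1 hβ hN (by linarith) (by linarith) (by linarith) (by linarith)

theorem dr8 {κ t β : ℝ} (h : DomR κ t) (hβ : 0 < β) (hk1 : 0.7 ≤ κ) (hk2 : κ ≤ 0.75)
    (ht1 : 0.7696 ≤ t + κ) (ht2 : t + κ ≤ 1.0368) (hR0 : β * 10 ≤ κ) (hR : β * (3.3 * (1 + κ ^ 2)) ≤ κ) :
    ∀ s : ℂ, ‖s - sg κ t‖ ≤ 0.08 → ‖HH β s - 1‖ ≤ 0.07 := by
  exact dr8_c0 h hβ hk1 hk2 ht1 ht2 hR0 hR

private theorem dr9_b0_0 {β x y : ℝ} (hβ : 0 < β) (hN : β * 12.499 ≤ 1) (hx1 : 0.3778 ≤ x) (hx2 : x ≤ 0.5995)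
    (hy1 : -0 ≤ y) (hy2 : y ≤ 0.382) : ‖HH β (x + y * I) - 1‖ ≤ 0.06 := by
  refine le_epsJ (C := 0.7277) (N0 := 12.499) (J_boxp 0.3778 0.5995 0 0.382 0.382 0.976 0.7109 1.5065 1.273 0.4897 3.5354 12.499 0.7284 2.648 1.387 1.1895 0.4879 0.3695 1.1376 3.7273 0.4995 0.9841 0.6879 1.7352 0.002248 0.009878 0.0000006687 0.0000003101 0.001945 0.000004552 0.0001846 0.0000003101 0.7277
    hβ hN hx1 hx2 hy1 hy2 (by norm_num) (by norm_num) (by linarith) (by norm_num) (by norm_num) (by norm_num) (by norm_num) (by norm_num) (by norm_num) (by norm_num) (by norm_num) (by norm_num) (by norm_num) (by norm_num) (by norm_num) (by norm_num) (by norm_num) (by norm_num) (by norm_num) (by norm_num) (by norm_num) (by norm_num) (by norm_num) (by norm_num)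
    (cube_sqrt_geJ (s := 0.8701) (by norm_num) (by norm_num) (by norm_num) (by norm_num))
    (cube_sqrt_geJ (s := 0.9543) (by norm_num) (by norm_num) (by norm_num) (by norm_num))
    (by norm_num) (by norm_num) (by norm_num) (by norm_num) (by norm_num) (by norm_num) (by norm_num) (by norm_num) (by norm_num) (by norm_num) (by norm_num) (by norm_num) (by norm_num) (by norm_num) (by norm_num) (by norm_num) (by norm_num) (by norm_num)
    (exp_neg_leJ (r := 0.098) 6 (by norm_num) (by norm_num) (by norm_num) (by norm_num))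
    (exp_neg_leJ (r := 0.618) 4 (by norm_num) (by norm_num) (by norm_num) (by norm_num))
    (exp_neg_leJ (r := 0.218) 14 (by norm_num) (by norm_num) (by norm_num) (by norm_num))
    (exp_neg_leJ (r := 0.99) 14 (by norm_num) (by norm_num) (by norm_num) (by norm_num))
    (exp_neg_leJ (r := 0.243) 6 (by norm_num) (by norm_num) (by norm_num) (by norm_num))
    (exp_neg_leJ (r := 0.3) 12 (by norm_num) (by norm_num) (by norm_num) (by norm_num))
    (exp_neg_leJ (r := 0.598) 8 (by norm_num) (by norm_num) (by norm_num) (by norm_num))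
    (exp_neg_leJ (r := 0.99) 14 (by norm_num) (by norm_num) (by norm_num) (by norm_num))
    (by norm_num)) (by norm_num) hN hβ.le (by norm_num)

private theorem dr9_b0_1 {β x y : ℝ} (hβ : 0 < β) (hN : β * 12.499 ≤ 1) (hx1 : 0.3484 ≤ x) (hx2 : x ≤ 0.5422)
    (hy1 : -0 ≤ y) (hy2 : y ≤ 0.402) : ‖HH β (x + y * I) - 1‖ ≤ 0.06 := by
  refine le_epsJ (C := 0.7269) (N0 := 12.499) (J_boxp 0.3484 0.5422 0 0.402 0.402 0.9553 0.675 1.5032 1.3132 0.4892 3.5354 12.499 0.7066 2.561 1.373 1.2115 0.4776 0.3651 1.1275 3.7547 0.4832 0.9413 0.5433 1.6797 0.002566 0.01044 0.0000007585 0.0000003101 0.002384 0.000007781 0.001127 0.0000003101 0.7269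
    hβ hN hx1 hx2 hy1 hy2 (by norm_num) (by norm_num) (by linarith) (by norm_num) (by norm_num) (by norm_num) (by norm_num) (by norm_num) (by norm_num) (by norm_num) (by norm_num) (by norm_num) (by norm_num) (by norm_num) (by norm_num) (by norm_num) (by norm_num) (by norm_num) (by norm_num) (by norm_num) (by norm_num) (by norm_num) (by norm_num) (by norm_num)
    (cube_sqrt_geJ (s := 0.8743) (by norm_num) (by norm_num) (by norm_num) (by norm_num))
    (cube_sqrt_geJ (s := 0.9557) (by norm_num) (by norm_num) (by norm_num) (by norm_num))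
    (by norm_num) (by norm_num) (by norm_num) (by norm_num) (by norm_num) (by norm_num) (by norm_num) (by norm_num) (by norm_num) (by norm_num) (by norm_num) (by norm_num) (by norm_num) (by norm_num) (by norm_num) (by norm_num) (by norm_num) (by norm_num)
    (exp_neg_leJ (r := 0.969) 5 (by norm_num) (by norm_num) (by norm_num) (by norm_num))
    (exp_neg_leJ (r := 0.563) 4 (by norm_num) (by norm_num) (by norm_num) (by norm_num))
    (exp_neg_leJ (r := 0.092) 14 (by norm_num) (by norm_num) (by norm_num) (by norm_num))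
    (exp_neg_leJ (r := 0.99) 14 (by norm_num) (by norm_num) (by norm_num) (by norm_num))
    (exp_neg_leJ (r := 0.039) 6 (by norm_num) (by norm_num) (by norm_num) (by norm_num))
    (exp_neg_leJ (r := 0.765) 11 (by norm_num) (by norm_num) (by norm_num) (by norm_num))
    (exp_neg_leJ (r := 0.79) 6 (by norm_num) (by norm_num) (by norm_num) (by norm_num))
    (exp_neg_leJ (r := 0.99) 14 (by norm_num) (by norm_num) (by norm_num) (by norm_num))
    (by norm_num)) (by norm_num) hN hβ.le (by norm_num)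

private theorem dr9_b0_2 {β x y : ℝ} (hβ : 0 < β) (hN : β * 12.499 ≤ 1) (hx1 : 0.3328 ≤ x) (hx2 : x ≤ 0.5139)
    (hy1 : -0 ≤ y) (hy2 : y ≤ 0.412) : ‖HH β (x + y * I) - 1‖ ≤ 0.06 := by
  refine le_epsJ (C := 0.7365) (N0 := 12.499) (J_boxp 0.3328 0.5139 0 0.412 0.412 0.9443 0.6587 1.5027 1.3359 0.4891 3.5354 12.499 0.6976 2.526 1.367 1.2224 0.4721 0.3623 1.1222 3.7678 0.4746 0.9187 0.4692 1.6457 0.002746 0.01081 0.0000008102 0.0000003101 0.002661 0.00001032 0.002846 0.0000003101 0.7365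
    hβ hN hx1 hx2 hy1 hy2 (by norm_num) (by norm_num) (by linarith) (by norm_num) (by norm_num) (by norm_num) (by norm_num) (by norm_num) (by norm_num) (by norm_num) (by norm_num) (by norm_num) (by norm_num) (by norm_num) (by norm_num) (by norm_num) (by norm_num) (by norm_num) (by norm_num) (by norm_num) (by norm_num) (by norm_num) (by norm_num) (by norm_num)
    (cube_sqrt_geJ (s := 0.876) (by norm_num) (by norm_num) (by norm_num) (by norm_num))
    (cube_sqrt_geJ (s := 0.9563) (by norm_num) (by norm_num) (by norm_num) (by norm_num))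
    (by norm_num) (by norm_num) (by norm_num) (by norm_num) (by norm_num) (by norm_num) (by norm_num) (by norm_num) (by norm_num) (by norm_num) (by norm_num) (by norm_num) (by norm_num) (by norm_num) (by norm_num) (by norm_num) (by norm_num) (by norm_num)
    (exp_neg_leJ (r := 0.9) 5 (by norm_num) (by norm_num) (by norm_num) (by norm_num))
    (exp_neg_leJ (r := 0.528) 4 (by norm_num) (by norm_num) (by norm_num) (by norm_num))
    (exp_neg_leJ (r := 0.026) 14 (by norm_num) (by norm_num) (by norm_num) (by norm_num))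
    (exp_neg_leJ (r := 0.99) 14 (by norm_num) (by norm_num) (by norm_num) (by norm_num))
    (exp_neg_leJ (r := 0.932) 5 (by norm_num) (by norm_num) (by norm_num) (by norm_num))
    (exp_neg_leJ (r := 0.482) 11 (by norm_num) (by norm_num) (by norm_num) (by norm_num))
    (exp_neg_leJ (r := 0.864) 5 (by norm_num) (by norm_num) (by norm_num) (by norm_num))
    (exp_neg_leJ (r := 0.99) 14 (by norm_num) (by norm_num) (by norm_num) (by norm_num))
    (by norm_num)) (by norm_num) hN hβ.le (by norm_num)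

private theorem dr9_b0_3 {β x y : ℝ} (hβ : 0 < β) (hN : β * 12.499 ≤ 1) (hx1 : 0.3279 ≤ x) (hx2 : x ≤ 0.499)
    (hy1 : -0 ≤ y) (hy2 : y ≤ 0.415) : ‖HH β (x + y * I) - 1‖ ≤ 0.06 := by
  refine le_epsJ (C := 0.7307) (N0 := 12.499) (J_boxp 0.3279 0.499 0 0.415 0.415 0.9409 0.6491 1.5005 1.3422 0.4887 3.5354 12.499 0.6899 2.496 1.362 1.2281 0.4704 0.3622 1.1205 3.775 0.4719 0.9116 0.4465 1.6479 0.002804 0.01082 0.0000008274 0.0000003101 0.002752 0.00001127 0.003774 0.0000003101 0.7307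
    hβ hN hx1 hx2 hy1 hy2 (by norm_num) (by norm_num) (by linarith) (by norm_num) (by norm_num) (by norm_num) (by norm_num) (by norm_num) (by norm_num) (by norm_num) (by norm_num) (by norm_num) (by norm_num) (by norm_num) (by norm_num) (by norm_num) (by norm_num) (by norm_num) (by norm_num) (by norm_num) (by norm_num) (by norm_num) (by norm_num) (by norm_num)
    (cube_sqrt_geJ (s := 0.8775) (by norm_num) (by norm_num) (by norm_num) (by norm_num))
    (cube_sqrt_geJ (s := 0.9568) (by norm_num) (by norm_num) (by norm_num) (by norm_num))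
    (by norm_num) (by norm_num) (by norm_num) (by norm_num) (by norm_num) (by norm_num) (by norm_num) (by norm_num) (by norm_num) (by norm_num) (by norm_num) (by norm_num) (by norm_num) (by norm_num) (by norm_num) (by norm_num) (by norm_num) (by norm_num)
    (exp_neg_leJ (r := 0.879) 5 (by norm_num) (by norm_num) (by norm_num) (by norm_num))
    (exp_neg_leJ (r := 0.527) 4 (by norm_num) (by norm_num) (by norm_num) (by norm_num))
    (exp_neg_leJ (r := 0.005) 14 (by norm_num) (by norm_num) (by norm_num) (by norm_num))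
    (exp_neg_leJ (r := 0.99) 14 (by norm_num) (by norm_num) (by norm_num) (by norm_num))
    (exp_neg_leJ (r := 0.898) 5 (by norm_num) (by norm_num) (by norm_num) (by norm_num))
    (exp_neg_leJ (r := 0.394) 11 (by norm_num) (by norm_num) (by norm_num) (by norm_num))
    (exp_neg_leJ (r := 0.58) 5 (by norm_num) (by norm_num) (by norm_num) (by norm_num))
    (exp_neg_leJ (r := 0.99) 14 (by norm_num) (by norm_num) (by norm_num) (by norm_num))
    (by norm_num)) (by norm_num) hN hβ.le (by norm_num)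

private theorem dr9_c0 {κ t β : ℝ} (h : DomR κ t) (hβ : 0 < β) (hk1 : 0.75 ≤ κ) (hk2 : κ ≤ 0.8)
    (ht1 : 0.7696 ≤ t + κ) (ht2 : t + κ ≤ 1.0368) (hR0 : β * 10 ≤ κ) (hR : β * (3.3 * (1 + κ ^ 2)) ≤ κ) :
    ∀ s : ℂ, ‖s - sg κ t‖ ≤ 0.06 → ‖HH β s - 1‖ ≤ 0.06 := by
  have hN : β * 12.499 ≤ 1 := bNR hβ h.1 hk2 hR0 (by norm_num)
  have hy1 : 0.277 ≤ sy κ t := syR_ge h 0.75 0.8 0.7696 0.277 1.31916 1.31917 0.45675 0.48722 hk1 hk2 (by linarith) (by norm_num) (by norm_num)
    (expn_ge (by norm_num) (by norm_num)) (expn_le (by norm_num) (by norm_num) (by norm_num)) (by norm_num)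
    (by norm_num) (by norm_num) (by norm_num) (by norm_num) (by norm_num) (by norm_num)
  have hy2 : sy κ t ≤ 0.355 := syR_le h 0.75 0.8 1.0368 0.355 1.42618 0.6223 0.63286 0.67507 hk1 hk2 (by linarith) (by norm_num) (by norm_num)
    (expn_ge (by norm_num) (by norm_num)) (by norm_num) (by norm_num) (Or.inr ((mul_le_mul_of_nonneg_left (expn_le (E := 1.42619) (by norm_num) (by norm_num) (by norm_num)) (by norm_num)).trans (by norm_num))) (by norm_num) (by norm_num) (by norm_num)
  intro s hs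
  have hs' : ‖s - ((sx κ t : ℂ) + (sy κ t : ℂ) * I)‖ ≤ 0.06 := hs
  obtain ⟨es, ⟨s1, s2⟩, ⟨s3, s4⟩⟩ := disc_split hs'
  rcases le_total (sy κ t) 0.322 with f0 | g0
  · have hx1 : 0.4378 ≤ sx κ t := sx_lo h 0.75 0.322 0.322 0.72469 0.4378 hk1 (by norm_num) f0 (abs_le.2 ⟨by linarith, by linarith⟩) (expm_ge (by norm_num) (by norm_num) (by norm_num) (by norm_num)) (by norm_num) (by norm_num)
    have hx2 : sx κ t ≤ 0.5395 := sx_hi h 0.8 0.277 0.277 0.75806 0.5395 hk2 hy1 (by norm_num) (by rw [abs_of_nonneg (by linarith)]; linarith) (expm_le (by norm_num) (by norm_num) (by norm_num)) (by norm_num) (by norm_num)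
    rw [es]
    exact dr9_b0_0 hβ hN (by linarith) (by linarith) (by linarith) (by linarith)
  rcases le_total (sy κ t) 0.342 with f1 | g1
  · have hx1 : 0.4084 ≤ sx κ t := sx_lo h 0.75 0.342 0.342 0.71034 0.4084 hk1 (by norm_num) f1 (abs_le.2 ⟨by linarith, by linarith⟩) (expm_ge (by norm_num) (by norm_num) (by norm_num) (by norm_num)) (by norm_num) (by norm_num)
    have hx2 : sx κ t ≤ 0.4822 := sx_hi h 0.8 0.322 0.322 0.7247 0.4822 hk2 g0 (by norm_num) (by rw [abs_of_nonneg (by linarith)]; linarith) (expm_le (by norm_num) (by norm_num) (by norm_num)) (by norm_num) (by norm_num)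
    rw [es]
    exact dr9_b0_1 hβ hN (by linarith) (by linarith) (by linarith) (by linarith)
  rcases le_total (sy κ t) 0.352 with f2 | g2
  · have hx1 : 0.3928 ≤ sx κ t := sx_lo h 0.75 0.352 0.352 0.70328 0.3928 hk1 (by norm_num) f2 (abs_le.2 ⟨by linarith, by linarith⟩) (expm_ge (by norm_num) (by norm_num) (by norm_num) (by norm_num)) (by norm_num) (by norm_num)
    have hx2 : sx κ t ≤ 0.4539 := sx_hi h 0.8 0.342 0.342 0.71035 0.4539 hk2 g1 (by norm_num) (by rw [abs_of_nonneg (by linarith)]; linarith) (expm_le (by norm_num) (by norm_num) (by norm_num)) (by norm_num) (by norm_num)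
    rw [es]
    exact dr9_b0_2 hβ hN (by linarith) (by linarith) (by linarith) (by linarith)
  have hx1 : 0.3879 ≤ sx κ t := sx_lo h 0.75 0.355 0.355 0.70117 0.3879 hk1 (by norm_num) hy2 (abs_le.2 ⟨by linarith, by linarith⟩) (expm_ge (by norm_num) (by norm_num) (by norm_num) (by norm_num)) (by norm_num) (by norm_num)
  have hx2 : sx κ t ≤ 0.439 := sx_hi h 0.8 0.352 0.352 0.70329 0.439 hk2 g2 (by norm_num) (by rw [abs_of_nonneg (by linarith)]; linarith) (expm_le (by norm_num) (by norm_num) (by norm_num)) (by norm_num) (by norm_num)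
  rw [es]
  exact dr9_b0_3 hβ hN (by linarith) (by linarith) (by linarith) (by linarith)

theorem dr9 {κ t β : ℝ} (h : DomR κ t) (hβ : 0 < β) (hk1 : 0.75 ≤ κ) (hk2 : κ ≤ 0.8)
    (ht1 : 0.7696 ≤ t + κ) (ht2 : t + κ ≤ 1.0368) (hR0 : β * 10 ≤ κ) (hR : β * (3.3 * (1 + κ ^ 2)) ≤ κ) :
    ∀ s : ℂ, ‖s - sg κ t‖ ≤ 0.06 → ‖HH β s - 1‖ ≤ 0.06 := by
  exact dr9_c0 h hβ hk1 hk2 ht1 ht2 hR0 hR

private theorem dr10_b0_0 {β x y : ℝ} (hβ : 0 < β) (hN : β * 11.764 ≤ 1) (hx1 : 0.4025 ≤ x) (hx2 : x ≤ 0.637)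
    (hy1 : -0 ≤ y) (hy2 : y ≤ 0.396) : ‖HH β (x + y * I) - 1‖ ≤ 0.07 := by
  refine le_epsJ (C := 0.7983) (N0 := 11.764) (J_boxp 0.4025 0.637 0 0.396 0.396 0.9934 0.7501 1.5345 1.2512 0.4942 3.4299 11.764 0.7551 2.76 1.405 1.1751 0.4966 0.3716 1.146 3.7052 0.5101 1.0169 0.6772 1.6121 0.002909 0.01264 0.000001398 0.0000003101 0.002479 0.000006403 0.0003482 0.0000003101 0.7983
    hβ hN hx1 hx2 hy1 hy2 (by norm_num) (by norm_num) (by linarith) (by norm_num) (by norm_num) (by norm_num) (by norm_num) (by norm_num) (by norm_num) (by norm_num) (by norm_num) (by norm_num) (by norm_num) (by norm_num) (by norm_num) (by norm_num) (by norm_num) (by norm_num) (by norm_num) (by norm_num) (by norm_num) (by norm_num) (by norm_num) (by norm_num)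
    (cube_sqrt_geJ (s := 0.865) (by norm_num) (by norm_num) (by norm_num) (by norm_num))
    (cube_sqrt_geJ (s := 0.9526) (by norm_num) (by norm_num) (by norm_num) (by norm_num))
    (by norm_num) (by norm_num) (by norm_num) (by norm_num) (by norm_num) (by norm_num) (by norm_num) (by norm_num) (by norm_num) (by norm_num) (by norm_num) (by norm_num) (by norm_num) (by norm_num) (by norm_num) (by norm_num) (by norm_num) (by norm_num)
    (exp_neg_leJ (r := 0.842) 5 (by norm_num) (by norm_num) (by norm_num) (by norm_num))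
    (exp_neg_leJ (r := 0.371) 4 (by norm_num) (by norm_num) (by norm_num) (by norm_num))
    (exp_neg_leJ (r := 0.481) 13 (by norm_num) (by norm_num) (by norm_num) (by norm_num))
    (exp_neg_leJ (r := 0.99) 14 (by norm_num) (by norm_num) (by norm_num) (by norm_num))
    (exp_neg_leJ (r := 0) 6 (by norm_num) (by norm_num) (by norm_num) (by norm_num))
    (exp_neg_leJ (r := 0.962) 11 (by norm_num) (by norm_num) (by norm_num) (by norm_num))
    (exp_neg_leJ (r := 0.966) 7 (by norm_num) (by norm_num) (by norm_num) (by norm_num))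
    (exp_neg_leJ (r := 0.99) 14 (by norm_num) (by norm_num) (by norm_num) (by norm_num))
    (by norm_num)) (by norm_num) hN hβ.le (by norm_num)

private theorem dr10_b0_1 {β x y : ℝ} (hβ : 0 < β) (hN : β * 11.764 ≤ 1) (hx1 : 0.3649 ≤ x) (hx2 : x ≤ 0.5661)
    (hy1 : -0 ≤ y) (hy2 : y ≤ 0.421) : ‖HH β (x + y * I) - 1‖ ≤ 0.07 := by
  refine le_epsJ (C := 0.8067) (N0 := 11.764) (J_boxp 0.3649 0.5661 0 0.421 0.421 0.967 0.7055 1.5297 1.3007 0.4935 3.4299 11.764 0.7296 2.653 1.388 1.2023 0.4834 0.3659 1.1331 3.7391 0.4893 0.9623 0.4948 1.5403 0.003396 0.01352 0.000001627 0.0000003101 0.003168 0.00001213 0.002973 0.0000003101 0.8067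
    hβ hN hx1 hx2 hy1 hy2 (by norm_num) (by norm_num) (by linarith) (by norm_num) (by norm_num) (by norm_num) (by norm_num) (by norm_num) (by norm_num) (by norm_num) (by norm_num) (by norm_num) (by norm_num) (by norm_num) (by norm_num) (by norm_num) (by norm_num) (by norm_num) (by norm_num) (by norm_num) (by norm_num) (by norm_num) (by norm_num) (by norm_num)
    (cube_sqrt_geJ (s := 0.8699) (by norm_num) (by norm_num) (by norm_num) (by norm_num))
    (cube_sqrt_geJ (s := 0.9542) (by norm_num) (by norm_num) (by norm_num) (by norm_num))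
    (by norm_num) (by norm_num) (by norm_num) (by norm_num) (by norm_num) (by norm_num) (by norm_num) (by norm_num) (by norm_num) (by norm_num) (by norm_num) (by norm_num) (by norm_num) (by norm_num) (by norm_num) (by norm_num) (by norm_num) (by norm_num)
    (exp_neg_leJ (r := 0.686) 5 (by norm_num) (by norm_num) (by norm_num) (by norm_num))
    (exp_neg_leJ (r := 0.304) 4 (by norm_num) (by norm_num) (by norm_num) (by norm_num))
    (exp_neg_leJ (r := 0.329) 13 (by norm_num) (by norm_num) (by norm_num) (by norm_num))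
    (exp_neg_leJ (r := 0.99) 14 (by norm_num) (by norm_num) (by norm_num) (by norm_num))
    (exp_neg_leJ (r := 0.756) 5 (by norm_num) (by norm_num) (by norm_num) (by norm_num))
    (exp_neg_leJ (r := 0.32) 11 (by norm_num) (by norm_num) (by norm_num) (by norm_num))
    (exp_neg_leJ (r := 0.82) 5 (by norm_num) (by norm_num) (by norm_num) (by norm_num))
    (exp_neg_leJ (r := 0.99) 14 (by norm_num) (by norm_num) (by norm_num) (by norm_num))
    (by norm_num)) (by norm_num) hN hβ.le (by norm_num)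

private theorem dr10_b0_2 {β x y : ℝ} (hβ : 0 < β) (hN : β * 11.764 ≤ 1) (hx1 : 0.3471 ≤ x) (hx2 : x ≤ 0.5298)
    (hy1 : -0 ≤ y) (hy2 : y ≤ 0.432) : ‖HH β (x + y * I) - 1‖ ≤ 0.07 := by
  refine le_epsJ (C := 0.8212) (N0 := 11.764) (J_boxp 0.3471 0.5298 0 0.432 0.432 0.9544 0.6837 1.5269 1.3253 0.493 3.4299 11.764 0.7164 2.599 1.379 1.2163 0.4771 0.3632 1.127 3.7561 0.4795 0.9365 0.412 1.5121 0.003656 0.01396 0.000001747 0.0000003101 0.003555 0.00001644 0.007874 0.0000003101 0.8212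
    hβ hN hx1 hx2 hy1 hy2 (by norm_num) (by norm_num) (by linarith) (by norm_num) (by norm_num) (by norm_num) (by norm_num) (by norm_num) (by norm_num) (by norm_num) (by norm_num) (by norm_num) (by norm_num) (by norm_num) (by norm_num) (by norm_num) (by norm_num) (by norm_num) (by norm_num) (by norm_num) (by norm_num) (by norm_num) (by norm_num) (by norm_num)
    (cube_sqrt_geJ (s := 0.8724) (by norm_num) (by norm_num) (by norm_num) (by norm_num))
    (cube_sqrt_geJ (s := 0.9551) (by norm_num) (by norm_num) (by norm_num) (by norm_num))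
    (by norm_num) (by norm_num) (by norm_num) (by norm_num) (by norm_num) (by norm_num) (by norm_num) (by norm_num) (by norm_num) (by norm_num) (by norm_num) (by norm_num) (by norm_num) (by norm_num) (by norm_num) (by norm_num) (by norm_num) (by norm_num)
    (exp_neg_leJ (r := 0.612) 5 (by norm_num) (by norm_num) (by norm_num) (by norm_num))
    (exp_neg_leJ (r := 0.272) 4 (by norm_num) (by norm_num) (by norm_num) (by norm_num))
    (exp_neg_leJ (r := 0.258) 13 (by norm_num) (by norm_num) (by norm_num) (by norm_num))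
    (exp_neg_leJ (r := 0.99) 14 (by norm_num) (by norm_num) (by norm_num) (by norm_num))
    (exp_neg_leJ (r := 0.64) 5 (by norm_num) (by norm_num) (by norm_num) (by norm_num))
    (exp_neg_leJ (r := 0.016) 11 (by norm_num) (by norm_num) (by norm_num) (by norm_num))
    (exp_neg_leJ (r := 0.846) 4 (by norm_num) (by norm_num) (by norm_num) (by norm_num))
    (exp_neg_leJ (r := 0.99) 14 (by norm_num) (by norm_num) (by norm_num) (by norm_num))
    (by norm_num)) (by norm_num) hN hβ.le (by norm_num)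

private theorem dr10_c0 {κ t β : ℝ} (h : DomR κ t) (hβ : 0 < β) (hk1 : 0.8 ≤ κ) (hk2 : κ ≤ 0.85)
    (ht1 : 0.7539 ≤ t + κ) (ht2 : t + κ ≤ 1.0682) (hR0 : β * 10 ≤ κ) (hR : β * (3.3 * (1 + κ ^ 2)) ≤ κ) :
    ∀ s : ℂ, ‖s - sg κ t‖ ≤ 0.06 → ‖HH β s - 1‖ ≤ 0.07 := by
  have hN : β * 11.764 ≤ 1 := bNR hβ h.1 hk2 hR0 (by norm_num)
  have hy1 : 0.281 ≤ sy κ t := syR_ge h 0.8 0.85 0.7539 0.281 1.32445 1.32446 0.43784 0.46522 hk1 hk2 (by linarith) (by norm_num) (by norm_num)
    (expn_ge (by norm_num) (by norm_num)) (expn_le (by norm_num) (by norm_num) (by norm_num)) (by norm_num)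
    (by norm_num) (by norm_num) (by norm_num) (by norm_num) (by norm_num) (by norm_num)
  have hy2 : sy κ t ≤ 0.372 := syR_le h 0.8 0.85 1.0682 0.372 1.45063 0.6249 0.63486 0.67455 hk1 hk2 (by linarith) (by norm_num) (by norm_num)
    (expn_ge (by norm_num) (by norm_num)) (by norm_num) (by norm_num) (Or.inr ((mul_le_mul_of_nonneg_left (expn_le (E := 1.45064) (by norm_num) (by norm_num) (by norm_num)) (by norm_num)).trans (by norm_num))) (by norm_num) (by norm_num) (by norm_num)
  intro s hs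
  have hs' : ‖s - ((sx κ t : ℂ) + (sy κ t : ℂ) * I)‖ ≤ 0.06 := hs
  obtain ⟨es, ⟨s1, s2⟩, ⟨s3, s4⟩⟩ := disc_split hs'
  rcases le_total (sy κ t) 0.336 with f0 | g0
  · have hx1 : 0.4625 ≤ sx κ t := sx_lo h 0.8 0.336 0.336 0.71462 0.4625 hk1 (by norm_num) f0 (abs_le.2 ⟨by linarith, by linarith⟩) (expm_ge (by norm_num) (by norm_num) (by norm_num) (by norm_num)) (by norm_num) (by norm_num)
    have hx2 : sx κ t ≤ 0.577 := sx_hi h 0.85 0.281 0.281 0.75503 0.577 hk2 hy1 (by norm_num) (by rw [abs_of_nonneg (by linarith)]; linarith) (expm_le (by norm_num) (by norm_num) (by norm_num)) (by norm_num) (by norm_num)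
    rw [es]
    exact dr10_b0_0 hβ hN (by linarith) (by linarith) (by linarith) (by linarith)
  rcases le_total (sy κ t) 0.361 with f1 | g1
  · have hx1 : 0.4249 ≤ sx κ t := sx_lo h 0.8 0.361 0.361 0.69697 0.4249 hk1 (by norm_num) f1 (abs_le.2 ⟨by linarith, by linarith⟩) (expm_ge (by norm_num) (by norm_num) (by norm_num) (by norm_num)) (by norm_num) (by norm_num)
    have hx2 : sx κ t ≤ 0.5061 := sx_hi h 0.85 0.336 0.336 0.71463 0.5061 hk2 g0 (by norm_num) (by rw [abs_of_nonneg (by linarith)]; linarith) (expm_le (by norm_num) (by norm_num) (by norm_num)) (by norm_num) (by norm_num)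
    rw [es]
    exact dr10_b0_1 hβ hN (by linarith) (by linarith) (by linarith) (by linarith)
  have hx1 : 0.4071 ≤ sx κ t := sx_lo h 0.8 0.372 0.372 0.68935 0.4071 hk1 (by norm_num) hy2 (abs_le.2 ⟨by linarith, by linarith⟩) (expm_ge (by norm_num) (by norm_num) (by norm_num) (by norm_num)) (by norm_num) (by norm_num)
  have hx2 : sx κ t ≤ 0.4698 := sx_hi h 0.85 0.361 0.361 0.69698 0.4698 hk2 g1 (by norm_num) (by rw [abs_of_nonneg (by linarith)]; linarith) (expm_le (by norm_num) (by norm_num) (by norm_num)) (by norm_num) (by norm_num)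
  rw [es]
  exact dr10_b0_2 hβ hN (by linarith) (by linarith) (by linarith) (by linarith)

theorem dr10 {κ t β : ℝ} (h : DomR κ t) (hβ : 0 < β) (hk1 : 0.8 ≤ κ) (hk2 : κ ≤ 0.85)
    (ht1 : 0.7539 ≤ t + κ) (ht2 : t + κ ≤ 1.0682) (hR0 : β * 10 ≤ κ) (hR : β * (3.3 * (1 + κ ^ 2)) ≤ κ) :
    ∀ s : ℂ, ‖s - sg κ t‖ ≤ 0.06 → ‖HH β s - 1‖ ≤ 0.07 := by
  exact dr10_c0 h hβ hk1 hk2 ht1 ht2 hR0 hR

private theorem dr11_b0_0 {β x y : ℝ} (hβ : 0 < β) (hN : β * 11.111 ≤ 1) (hx1 : 0.3866 ≤ x) (hx2 : x ≤ 0.6903)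
    (hy1 : -0 ≤ y) (hy2 : y ≤ 0.443) : ‖HH β (x + y * I) - 1‖ ≤ 0.1 := by
  refine le_epsJ (C := 1.1056) (N0 := 11.111) (J_boxp 0.3866 0.6903 0 0.443 0.443 0.9822 0.8203 1.5997 1.2994 0.5046 3.3334 11.111 0.8352 3.134 1.459 1.1546 0.491 0.3543 1.1406 3.6698 0.4976 0.9901 0.4438 1.168 0.004276 0.01959 0.000003137 0.0000003101 0.003975 0.00001669 0.007239 0.000002321 1.1056
    hβ hN hx1 hx2 hy1 hy2 (by norm_num) (by norm_num) (by linarith) (by norm_num) (by norm_num) (by norm_num) (by norm_num) (by norm_num) (by norm_num) (by norm_num) (by norm_num) (by norm_num) (by norm_num) (by norm_num) (by norm_num) (by norm_num) (by norm_num) (by norm_num) (by norm_num) (by norm_num) (by norm_num) (by norm_num) (by norm_num) (by norm_num)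
    (cube_sqrt_geJ (s := 0.8494) (by norm_num) (by norm_num) (by norm_num) (by norm_num))
    (cube_sqrt_geJ (s := 0.9474) (by norm_num) (by norm_num) (by norm_num) (by norm_num))
    (by norm_num) (by norm_num) (by norm_num) (by norm_num) (by norm_num) (by norm_num) (by norm_num) (by norm_num) (by norm_num) (by norm_num) (by norm_num) (by norm_num) (by norm_num) (by norm_num) (by norm_num) (by norm_num) (by norm_num) (by norm_num)
    (exp_neg_leJ (r := 0.455) 5 (by norm_num) (by norm_num) (by norm_num) (by norm_num))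
    (exp_neg_leJ (r := 0.936) 3 (by norm_num) (by norm_num) (by norm_num) (by norm_num))
    (exp_neg_leJ (r := 0.673) 12 (by norm_num) (by norm_num) (by norm_num) (by norm_num))
    (exp_neg_leJ (r := 0.99) 14 (by norm_num) (by norm_num) (by norm_num) (by norm_num))
    (exp_neg_leJ (r := 0.528) 5 (by norm_num) (by norm_num) (by norm_num) (by norm_num))
    (exp_neg_leJ (r := 0.001) 11 (by norm_num) (by norm_num) (by norm_num) (by norm_num))
    (exp_neg_leJ (r := 0.931) 4 (by norm_num) (by norm_num) (by norm_num) (by norm_num))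
    (exp_neg_leJ (r := 0.977) 12 (by norm_num) (by norm_num) (by norm_num) (by norm_num))
    (by norm_num)) (by norm_num) hN hβ.le (by norm_num)

private theorem dr11_b0_1 {β x y : ℝ} (hβ : 0 < β) (hN : β * 11.111 ≤ 1) (hx1 : 0.3598 ≤ x) (hx2 : x ≤ 0.5901)
    (hy1 : -0 ≤ y) (hy2 : y ≤ 0.46) : ‖HH β (x + y * I) - 1‖ ≤ 0.1 := by
  refine le_epsJ (C := 1.0674) (N0 := 11.111) (J_boxp 0.3598 0.5901 0 0.46 0.46 0.9634 0.7483 1.5748 1.3271 0.5007 3.3334 11.111 0.7768 2.855 1.419 1.1931 0.4816 0.3569 1.1314 3.7201 0.4828 0.9512 0.3173 1.23 0.004744 0.01903 0.000003476 0.0000003101 0.004683 0.00002574 0.02946 0.000001163 1.0674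
    hβ hN hx1 hx2 hy1 hy2 (by norm_num) (by norm_num) (by linarith) (by norm_num) (by norm_num) (by norm_num) (by norm_num) (by norm_num) (by norm_num) (by norm_num) (by norm_num) (by norm_num) (by norm_num) (by norm_num) (by norm_num) (by norm_num) (by norm_num) (by norm_num) (by norm_num) (by norm_num) (by norm_num) (by norm_num) (by norm_num) (by norm_num)
    (cube_sqrt_geJ (s := 0.8608) (by norm_num) (by norm_num) (by norm_num) (by norm_num))
    (cube_sqrt_geJ (s := 0.9512) (by norm_num) (by norm_num) (by norm_num) (by norm_num))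
    (by norm_num) (by norm_num) (by norm_num) (by norm_num) (by norm_num) (by norm_num) (by norm_num) (by norm_num) (by norm_num) (by norm_num) (by norm_num) (by norm_num) (by norm_num) (by norm_num) (by norm_num) (by norm_num) (by norm_num) (by norm_num)
    (exp_neg_leJ (r := 0.351) 5 (by norm_num) (by norm_num) (by norm_num) (by norm_num))
    (exp_neg_leJ (r := 0.965) 3 (by norm_num) (by norm_num) (by norm_num) (by norm_num))
    (exp_neg_leJ (r := 0.57) 12 (by norm_num) (by norm_num) (by norm_num) (by norm_num))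
    (exp_neg_leJ (r := 0.99) 14 (by norm_num) (by norm_num) (by norm_num) (by norm_num))
    (exp_neg_leJ (r := 0.364) 5 (by norm_num) (by norm_num) (by norm_num) (by norm_num))
    (exp_neg_leJ (r := 0.568) 10 (by norm_num) (by norm_num) (by norm_num) (by norm_num))
    (exp_neg_leJ (r := 0.525) 3 (by norm_num) (by norm_num) (by norm_num) (by norm_num))
    (exp_neg_leJ (r := 0.666) 13 (by norm_num) (by norm_num) (by norm_num) (by norm_num))
    (by norm_num)) (by norm_num) hN hβ.le (by norm_num)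

private theorem dr11_c0 {κ t β : ℝ} (h : DomR κ t) (hβ : 0 < β) (hk1 : 0.85 ≤ κ) (hk2 : κ ≤ 0.9)
    (ht1 : 0.7539 ≤ t + κ) (ht2 : t + κ ≤ 1.0682) (hR0 : β * 10 ≤ κ) (hR : β * (3.3 * (1 + κ ^ 2)) ≤ κ) :
    ∀ s : ℂ, ‖s - sg κ t‖ ≤ 0.08 → ‖HH β s - 1‖ ≤ 0.1 := by
  have hN : β * 11.111 ≤ 1 := bNR hβ h.1 hk2 hR0 (by norm_num)
  have hy1 : 0.288 ≤ sy κ t := syR_ge h 0.85 0.9 0.7539 0.288 1.33375 1.33376 0.42679 0.45191 hk1 hk2 (by linarith) (by norm_num) (by norm_num)
    (expn_ge (by norm_num) (by norm_num)) (expn_le (by norm_num) (by norm_num) (by norm_num)) (by norm_num)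
    (by norm_num) (by norm_num) (by norm_num) (by norm_num) (by norm_num) (by norm_num)
  have hy2 : sy κ t ≤ 0.38 := syR_le h 0.85 0.9 1.0682 0.38 1.46228 0.6083 0.6174 0.65373 hk1 hk2 (by linarith) (by norm_num) (by norm_num)
    (expn_ge (by norm_num) (by norm_num)) (by norm_num) (by norm_num) (Or.inr ((mul_le_mul_of_nonneg_left (expn_le (E := 1.46229) (by norm_num) (by norm_num) (by norm_num)) (by norm_num)).trans (by norm_num))) (by norm_num) (by norm_num) (by norm_num)
  intro s hs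
  have hs' : ‖s - ((sx κ t : ℂ) + (sy κ t : ℂ) * I)‖ ≤ 0.08 := hs
  obtain ⟨es, ⟨s1, s2⟩, ⟨s3, s4⟩⟩ := disc_split hs'
  rcases le_total (sy κ t) 0.363 with f0 | g0
  · have hx1 : 0.4666 ≤ sx κ t := sx_lo h 0.85 0.363 0.363 0.69558 0.4666 hk1 (by norm_num) f0 (abs_le.2 ⟨by linarith, by linarith⟩) (expm_ge (by norm_num) (by norm_num) (by norm_num) (by norm_num)) (by norm_num) (by norm_num)
    have hx2 : sx κ t ≤ 0.6103 := sx_hi h 0.9 0.288 0.288 0.74977 0.6103 hk2 hy1 (by norm_num) (by rw [abs_of_nonneg (by linarith)]; linarith) (expm_le (by norm_num) (by norm_num) (by norm_num)) (by norm_num) (by norm_num)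
    rw [es]
    exact dr11_b0_0 hβ hN (by linarith) (by linarith) (by linarith) (by linarith)
  have hx1 : 0.4398 ≤ sx κ t := sx_lo h 0.85 0.38 0.38 0.68386 0.4398 hk1 (by norm_num) hy2 (abs_le.2 ⟨by linarith, by linarith⟩) (expm_ge (by norm_num) (by norm_num) (by norm_num) (by norm_num)) (by norm_num) (by norm_num)
  have hx2 : sx κ t ≤ 0.5101 := sx_hi h 0.9 0.363 0.363 0.69559 0.5101 hk2 g0 (by norm_num) (by rw [abs_of_nonneg (by linarith)]; linarith) (expm_le (by norm_num) (by norm_num) (by norm_num)) (by norm_num) (by norm_num)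
  rw [es]
  exact dr11_b0_1 hβ hN (by linarith) (by linarith) (by linarith) (by linarith)

theorem dr11 {κ t β : ℝ} (h : DomR κ t) (hβ : 0 < β) (hk1 : 0.85 ≤ κ) (hk2 : κ ≤ 0.9)
    (ht1 : 0.7539 ≤ t + κ) (ht2 : t + κ ≤ 1.0682) (hR0 : β * 10 ≤ κ) (hR : β * (3.3 * (1 + κ ^ 2)) ≤ κ) :
    ∀ s : ℂ, ‖s - sg κ t‖ ≤ 0.08 → ‖HH β s - 1‖ ≤ 0.1 := by
  exact dr11_c0 h hβ hk1 hk2 ht1 ht2 hR0 hR

private theorem dr12_b0_0 {β x y : ℝ} (hβ : 0 < β) (hN : β * 10.526 ≤ 1) (hx1 : 0.4359 ≤ x) (hx2 : x ≤ 0.7241)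
    (hy1 : -0 ≤ y) (hy2 : y ≤ 0.439) : ‖HH β (x + y * I) - 1‖ ≤ 0.1 := by
  refine le_epsJ (C := 1.0472) (N0 := 10.526) (J_boxp 0.4359 0.7241 0 0.439 0.439 1.0169 0.8468 1.611 1.2378 0.5064 3.2444 10.526 0.8328 3.122 1.458 1.1416 0.5084 0.3673 1.1574 3.6522 0.5219 1.0587 0.5596 1.2134 0.004744 0.02099 0.000005122 0.0000003101 0.004117 0.00001448 0.002774 0.000002843 1.0472
    hβ hN hx1 hx2 hy1 hy2 (by norm_num) (by norm_num) (by linarith) (by norm_num) (by norm_num) (by norm_num) (by norm_num) (by norm_num) (by norm_num) (by norm_num) (by norm_num) (by norm_num) (by norm_num) (by norm_num) (by norm_num) (by norm_num) (by norm_num) (by norm_num) (by norm_num) (by norm_num) (by norm_num) (by norm_num) (by norm_num) (by norm_num)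
    (cube_sqrt_geJ (s := 0.8499) (by norm_num) (by norm_num) (by norm_num) (by norm_num))
    (cube_sqrt_geJ (s := 0.9476) (by norm_num) (by norm_num) (by norm_num) (by norm_num))
    (by norm_num) (by norm_num) (by norm_num) (by norm_num) (by norm_num) (by norm_num) (by norm_num) (by norm_num) (by norm_num) (by norm_num) (by norm_num) (by norm_num) (by norm_num) (by norm_num) (by norm_num) (by norm_num) (by norm_num) (by norm_num)
    (exp_neg_leJ (r := 0.351) 5 (by norm_num) (by norm_num) (by norm_num) (by norm_num))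
    (exp_neg_leJ (r := 0.866) 3 (by norm_num) (by norm_num) (by norm_num) (by norm_num))
    (exp_neg_leJ (r := 0.182) 12 (by norm_num) (by norm_num) (by norm_num) (by norm_num))
    (exp_neg_leJ (r := 0.99) 14 (by norm_num) (by norm_num) (by norm_num) (by norm_num))
    (exp_neg_leJ (r := 0.493) 5 (by norm_num) (by norm_num) (by norm_num) (by norm_num))
    (exp_neg_leJ (r := 0.143) 11 (by norm_num) (by norm_num) (by norm_num) (by norm_num))
    (exp_neg_leJ (r := 0.89) 5 (by norm_num) (by norm_num) (by norm_num) (by norm_num))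
    (exp_neg_leJ (r := 0.772) 12 (by norm_num) (by norm_num) (by norm_num) (by norm_num))
    (by norm_num)) (by norm_num) hN hβ.le (by norm_num)

private theorem dr12_b0_1 {β x y : ℝ} (hβ : 0 < β) (hN : β * 10.526 ≤ 1) (hx1 : 0.4057 ≤ x) (hx2 : x ≤ 0.638)
    (hy1 : -0 ≤ y) (hy2 : y ≤ 0.459) : ‖HH β (x + y * I) - 1‖ ≤ 0.1 := by
  refine le_epsJ (C := 1.018) (N0 := 10.526) (J_boxp 0.4057 0.638 0 0.459 0.459 0.9957 0.786 1.5924 1.2701 0.5035 3.2444 10.526 0.7894 2.912 1.428 1.1747 0.4978 0.3668 1.1471 3.6952 0.5052 1.0149 0.4134 1.224 0.005306 0.02111 0.000005707 0.0000003101 0.004908 0.00002298 0.0129 0.000002547 1.018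
    hβ hN hx1 hx2 hy1 hy2 (by norm_num) (by norm_num) (by linarith) (by norm_num) (by norm_num) (by norm_num) (by norm_num) (by norm_num) (by norm_num) (by norm_num) (by norm_num) (by norm_num) (by norm_num) (by norm_num) (by norm_num) (by norm_num) (by norm_num) (by norm_num) (by norm_num) (by norm_num) (by norm_num) (by norm_num) (by norm_num) (by norm_num)
    (cube_sqrt_geJ (s := 0.8584) (by norm_num) (by norm_num) (by norm_num) (by norm_num))
    (cube_sqrt_geJ (s := 0.9504) (by norm_num) (by norm_num) (by norm_num) (by norm_num))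
    (by norm_num) (by norm_num) (by norm_num) (by norm_num) (by norm_num) (by norm_num) (by norm_num) (by norm_num) (by norm_num) (by norm_num) (by norm_num) (by norm_num) (by norm_num) (by norm_num) (by norm_num) (by norm_num) (by norm_num) (by norm_num)
    (exp_neg_leJ (r := 0.239) 5 (by norm_num) (by norm_num) (by norm_num) (by norm_num))
    (exp_neg_leJ (r := 0.86) 3 (by norm_num) (by norm_num) (by norm_num) (by norm_num))
    (exp_neg_leJ (r := 0.074) 12 (by norm_num) (by norm_num) (by norm_num) (by norm_num))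
    (exp_neg_leJ (r := 0.99) 14 (by norm_num) (by norm_num) (by norm_num) (by norm_num))
    (exp_neg_leJ (r := 0.317) 5 (by norm_num) (by norm_num) (by norm_num) (by norm_num))
    (exp_neg_leJ (r := 0.682) 10 (by norm_num) (by norm_num) (by norm_num) (by norm_num))
    (exp_neg_leJ (r := 0.351) 4 (by norm_num) (by norm_num) (by norm_num) (by norm_num))
    (exp_neg_leJ (r := 0.883) 12 (by norm_num) (by norm_num) (by norm_num) (by norm_num))
    (by norm_num)) (by norm_num) hN hβ.le (by norm_num)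

private theorem dr12_b0_2 {β x y : ℝ} (hβ : 0 < β) (hN : β * 10.526 ≤ 1) (hx1 : 0.3978 ≤ x) (hx2 : x ≤ 0.6085)
    (hy1 : -0 ≤ y) (hy2 : y ≤ 0.464) : ‖HH β (x + y * I) - 1‖ ≤ 0.1 := by
  refine le_epsJ (C := 1.0106) (N0 := 10.526) (J_boxp 0.3978 0.6085 0 0.464 0.464 0.9901 0.7653 1.5855 1.2781 0.5024 3.2444 10.526 0.773 2.838 1.417 1.186 0.495 0.3674 1.1444 3.7098 0.5009 1.0034 0.3762 1.2409 0.005462 0.02097 0.000005874 0.0000003101 0.005134 0.00002592 0.01915 0.000002127 1.0106
    hβ hN hx1 hx2 hy1 hy2 (by norm_num) (by norm_num) (by linarith) (by norm_num) (by norm_num) (by norm_num) (by norm_num) (by norm_num) (by norm_num) (by norm_num) (by norm_num) (by norm_num) (by norm_num) (by norm_num) (by norm_num) (by norm_num) (by norm_num) (by norm_num) (by norm_num) (by norm_num) (by norm_num) (by norm_num) (by norm_num) (by norm_num)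
    (cube_sqrt_geJ (s := 0.8615) (by norm_num) (by norm_num) (by norm_num) (by norm_num))
    (cube_sqrt_geJ (s := 0.9515) (by norm_num) (by norm_num) (by norm_num) (by norm_num))
    (by norm_num) (by norm_num) (by norm_num) (by norm_num) (by norm_num) (by norm_num) (by norm_num) (by norm_num) (by norm_num) (by norm_num) (by norm_num) (by norm_num) (by norm_num) (by norm_num) (by norm_num) (by norm_num) (by norm_num) (by norm_num)
    (exp_neg_leJ (r := 0.21) 5 (by norm_num) (by norm_num) (by norm_num) (by norm_num))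
    (exp_neg_leJ (r := 0.867) 3 (by norm_num) (by norm_num) (by norm_num) (by norm_num))
    (exp_neg_leJ (r := 0.045) 12 (by norm_num) (by norm_num) (by norm_num) (by norm_num))
    (exp_neg_leJ (r := 0.99) 14 (by norm_num) (by norm_num) (by norm_num) (by norm_num))
    (exp_neg_leJ (r := 0.272) 5 (by norm_num) (by norm_num) (by norm_num) (by norm_num))
    (exp_neg_leJ (r := 0.561) 10 (by norm_num) (by norm_num) (by norm_num) (by norm_num))
    (exp_neg_leJ (r := 0.959) 3 (by norm_num) (by norm_num) (by norm_num) (by norm_num))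
    (exp_neg_leJ (r := 0.061) 13 (by norm_num) (by norm_num) (by norm_num) (by norm_num))
    (by norm_num)) (by norm_num) hN hβ.le (by norm_num)

private theorem dr12_b0_3 {β x y : ℝ} (hβ : 0 < β) (hN : β * 10.526 ≤ 1) (hx1 : 0.3914 ≤ x) (hx2 : x ≤ 0.6009)
    (hy1 : -0 ≤ y) (hy2 : y ≤ 0.468) : ‖HH β (x + y * I) - 1‖ ≤ 0.1 := by
  refine le_epsJ (C := 1.0438) (N0 := 10.526) (J_boxp 0.3914 0.6009 0 0.468 0.468 0.9856 0.7617 1.5863 1.2872 0.5025 3.2444 10.526 0.7729 2.837 1.417 1.189 0.4927 0.3658 1.1422 3.7132 0.4974 0.9942 0.3462 1.2191 0.005595 0.02132 0.000006011 0.0000003101 0.005327 0.00002855 0.02617 0.000002679 1.0438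
    hβ hN hx1 hx2 hy1 hy2 (by norm_num) (by norm_num) (by linarith) (by norm_num) (by norm_num) (by norm_num) (by norm_num) (by norm_num) (by norm_num) (by norm_num) (by norm_num) (by norm_num) (by norm_num) (by norm_num) (by norm_num) (by norm_num) (by norm_num) (by norm_num) (by norm_num) (by norm_num) (by norm_num) (by norm_num) (by norm_num) (by norm_num)
    (cube_sqrt_geJ (s := 0.8616) (by norm_num) (by norm_num) (by norm_num) (by norm_num))
    (cube_sqrt_geJ (s := 0.9515) (by norm_num) (by norm_num) (by norm_num) (by norm_num))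
    (by norm_num) (by norm_num) (by norm_num) (by norm_num) (by norm_num) (by norm_num) (by norm_num) (by norm_num) (by norm_num) (by norm_num) (by norm_num) (by norm_num) (by norm_num) (by norm_num) (by norm_num) (by norm_num) (by norm_num) (by norm_num)
    (exp_neg_leJ (r := 0.186) 5 (by norm_num) (by norm_num) (by norm_num) (by norm_num))
    (exp_neg_leJ (r := 0.85) 3 (by norm_num) (by norm_num) (by norm_num) (by norm_num))
    (exp_neg_leJ (r := 0.022) 12 (by norm_num) (by norm_num) (by norm_num) (by norm_num))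
    (exp_neg_leJ (r := 0.99) 14 (by norm_num) (by norm_num) (by norm_num) (by norm_num))
    (exp_neg_leJ (r := 0.235) 5 (by norm_num) (by norm_num) (by norm_num) (by norm_num))
    (exp_neg_leJ (r := 0.464) 10 (by norm_num) (by norm_num) (by norm_num) (by norm_num))
    (exp_neg_leJ (r := 0.644) 3 (by norm_num) (by norm_num) (by norm_num) (by norm_num))
    (exp_neg_leJ (r := 0.832) 12 (by norm_num) (by norm_num) (by norm_num) (by norm_num))
    (by norm_num)) (by norm_num) hN hβ.le (by norm_num)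

private theorem dr12_c0 {κ t β : ℝ} (h : DomR κ t) (hβ : 0 < β) (hk1 : 0.9 ≤ κ) (hk2 : κ ≤ 0.95)
    (ht1 : 0.7539 ≤ t + κ) (ht2 : t + κ ≤ 1.0682) (hR0 : β * 10 ≤ κ) (hR : β * (3.3 * (1 + κ ^ 2)) ≤ κ) :
    ∀ s : ℂ, ‖s - sg κ t‖ ≤ 0.08 → ‖HH β s - 1‖ ≤ 0.1 := by
  have hN : β * 10.526 ≤ 1 := bNR hβ h.1 hk2 hR0 (by norm_num)
  have hy1 : 0.294 ≤ sy κ t := syR_ge h 0.9 0.95 0.7539 0.294 1.34178 1.34179 0.41524 0.43832 hk1 hk2 (by linarith) (by norm_num) (by norm_num)
    (expn_ge (by norm_num) (by norm_num)) (expn_le (by norm_num) (by norm_num) (by norm_num)) (by norm_num)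
    (by norm_num) (by norm_num) (by norm_num) (by norm_num) (by norm_num) (by norm_num)
  have hy2 : sy κ t ≤ 0.388 := syR_le h 0.9 0.95 1.0682 0.388 1.47402 0.5936 0.60202 0.63548 hk1 hk2 (by linarith) (by norm_num) (by norm_num)
    (expn_ge (by norm_num) (by norm_num)) (by norm_num) (by norm_num) (Or.inr ((mul_le_mul_of_nonneg_left (expn_le (E := 1.47403) (by norm_num) (by norm_num) (by norm_num)) (by norm_num)).trans (by norm_num))) (by norm_num) (by norm_num) (by norm_num)
  intro s hs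
  have hs' : ‖s - ((sx κ t : ℂ) + (sy κ t : ℂ) * I)‖ ≤ 0.08 := hs
  obtain ⟨es, ⟨s1, s2⟩, ⟨s3, s4⟩⟩ := disc_split hs'
  rcases le_total (sy κ t) 0.359 with f0 | g0
  · have hx1 : 0.5159 ≤ sx κ t := sx_lo h 0.9 0.359 0.359 0.69837 0.5159 hk1 (by norm_num) f0 (abs_le.2 ⟨by linarith, by linarith⟩) (expm_ge (by norm_num) (by norm_num) (by norm_num) (by norm_num)) (by norm_num) (by norm_num)
    have hx2 : sx κ t ≤ 0.6441 := sx_hi h 0.95 0.294 0.294 0.74528 0.6441 hk2 hy1 (by norm_num) (by rw [abs_of_nonneg (by linarith)]; linarith) (expm_le (by norm_num) (by norm_num) (by norm_num)) (by norm_num) (by norm_num)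
    rw [es]
    exact dr12_b0_0 hβ hN (by linarith) (by linarith) (by linarith) (by linarith)
  rcases le_total (sy κ t) 0.379 with f1 | g1
  · have hx1 : 0.4857 ≤ sx κ t := sx_lo h 0.9 0.379 0.379 0.68454 0.4857 hk1 (by norm_num) f1 (abs_le.2 ⟨by linarith, by linarith⟩) (expm_ge (by norm_num) (by norm_num) (by norm_num) (by norm_num)) (by norm_num) (by norm_num)
    have hx2 : sx κ t ≤ 0.558 := sx_hi h 0.95 0.359 0.359 0.69838 0.558 hk2 g0 (by norm_num) (by rw [abs_of_nonneg (by linarith)]; linarith) (expm_le (by norm_num) (by norm_num) (by norm_num)) (by norm_num) (by norm_num)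
    rw [es]
    exact dr12_b0_1 hβ hN (by linarith) (by linarith) (by linarith) (by linarith)
  rcases le_total (sy κ t) 0.384 with f2 | g2
  · have hx1 : 0.4778 ≤ sx κ t := sx_lo h 0.9 0.384 0.384 0.68113 0.4778 hk1 (by norm_num) f2 (abs_le.2 ⟨by linarith, by linarith⟩) (expm_ge (by norm_num) (by norm_num) (by norm_num) (by norm_num)) (by norm_num) (by norm_num)
    have hx2 : sx κ t ≤ 0.5285 := sx_hi h 0.95 0.379 0.379 0.68455 0.5285 hk2 g1 (by norm_num) (by rw [abs_of_nonneg (by linarith)]; linarith) (expm_le (by norm_num) (by norm_num) (by norm_num)) (by norm_num) (by norm_num)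
    rw [es]
    exact dr12_b0_2 hβ hN (by linarith) (by linarith) (by linarith) (by linarith)
  have hx1 : 0.4714 ≤ sx κ t := sx_lo h 0.9 0.388 0.388 0.67841 0.4714 hk1 (by norm_num) hy2 (abs_le.2 ⟨by linarith, by linarith⟩) (expm_ge (by norm_num) (by norm_num) (by norm_num) (by norm_num)) (by norm_num) (by norm_num)
  have hx2 : sx κ t ≤ 0.5209 := sx_hi h 0.95 0.384 0.384 0.68114 0.5209 hk2 g2 (by norm_num) (by rw [abs_of_nonneg (by linarith)]; linarith) (expm_le (by norm_num) (by norm_num) (by norm_num)) (by norm_num) (by norm_num)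
  rw [es]
  exact dr12_b0_3 hβ hN (by linarith) (by linarith) (by linarith) (by linarith)

theorem dr12 {κ t β : ℝ} (h : DomR κ t) (hβ : 0 < β) (hk1 : 0.9 ≤ κ) (hk2 : κ ≤ 0.95)
    (ht1 : 0.7539 ≤ t + κ) (ht2 : t + κ ≤ 1.0682) (hR0 : β * 10 ≤ κ) (hR : β * (3.3 * (1 + κ ^ 2)) ≤ κ) :
    ∀ s : ℂ, ‖s - sg κ t‖ ≤ 0.08 → ‖HH β s - 1‖ ≤ 0.1 := by
  exact dr12_c0 h hβ hk1 hk2 ht1 ht2 hR0 hR

private theorem dr13_b0_0 {β x y : ℝ} (hβ : 0 < β) (hN : β * 9.999 ≤ 1) (hx1 : 0.4359 ≤ x) (hx2 : x ≤ 0.7787)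
    (hy1 : -0 ≤ y) (hy2 : y ≤ 0.474) : ‖HH β (x + y * I) - 1‖ ≤ 0.14 := by
  refine le_epsJ (C := 1.3414) (N0 := 9.999) (J_boxp 0.4359 0.7787 0 0.474 0.474 1.0169 0.9117 1.6671 1.2592 0.5151 3.1622 9.999 0.8966 3.466 1.503 1.1206 0.5084 0.3564 1.1574 3.6179 0.5184 1.0552 0.4095 0.872 0.006202 0.02837 0.00000943 0.0000003101 0.005612 0.00002621 0.01668 0.0001636 1.3414
    hβ hN hx1 hx2 hy1 hy2 (by norm_num) (by norm_num) (by linarith) (by norm_num) (by norm_num) (by norm_num) (by norm_num) (by norm_num) (by norm_num) (by norm_num) (by norm_num) (by norm_num) (by norm_num) (by norm_num) (by norm_num) (by norm_num) (by norm_num) (by norm_num) (by norm_num) (by norm_num) (by norm_num) (by norm_num) (by norm_num) (by norm_num)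
    (cube_sqrt_geJ (s := 0.8373) (by norm_num) (by norm_num) (by norm_num) (by norm_num))
    (cube_sqrt_geJ (s := 0.9435) (by norm_num) (by norm_num) (by norm_num) (by norm_num))
    (by norm_num) (by norm_num) (by norm_num) (by norm_num) (by norm_num) (by norm_num) (by norm_num) (by norm_num) (by norm_num) (by norm_num) (by norm_num) (by norm_num) (by norm_num) (by norm_num) (by norm_num) (by norm_num) (by norm_num) (by norm_num)
    (exp_neg_leJ (r := 0.083) 5 (by norm_num) (by norm_num) (by norm_num) (by norm_num))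
    (exp_neg_leJ (r := 0.563) 3 (by norm_num) (by norm_num) (by norm_num) (by norm_num))
    (exp_neg_leJ (r := 0.572) 11 (by norm_num) (by norm_num) (by norm_num) (by norm_num))
    (exp_neg_leJ (r := 0.99) 14 (by norm_num) (by norm_num) (by norm_num) (by norm_num))
    (exp_neg_leJ (r := 0.183) 5 (by norm_num) (by norm_num) (by norm_num) (by norm_num))
    (exp_neg_leJ (r := 0.55) 10 (by norm_num) (by norm_num) (by norm_num) (by norm_num))
    (exp_neg_leJ (r := 0.094) 4 (by norm_num) (by norm_num) (by norm_num) (by norm_num))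
    (exp_neg_leJ (r := 0.719) 8 (by norm_num) (by norm_num) (by norm_num) (by norm_num))
    (by norm_num)) (by norm_num) hN hβ.le (by norm_num)

private theorem dr13_b0_1 {β x y : ℝ} (hβ : 0 < β) (hN : β * 9.999 ≤ 1) (hx1 : 0.413 ≤ x) (hx2 : x ≤ 0.6775)
    (hy1 : -0 ≤ y) (hy2 : y ≤ 0.489) : ‖HH β (x + y * I) - 1‖ ≤ 0.14 := by
  refine le_epsJ (C := 1.3059) (N0 := 9.999) (J_boxp 0.413 0.6775 0 0.489 0.489 1.0008 0.8356 1.6359 1.2775 0.5103 3.1622 9.999 0.835 3.133 1.459 1.1595 0.5003 0.3611 1.1496 3.6696 0.5057 1.0219 0.2993 0.9624 0.006725 0.02707 0.0000102 0.0000003101 0.006372 0.00003655 0.05047 0.00006623 1.3059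
    hβ hN hx1 hx2 hy1 hy2 (by norm_num) (by norm_num) (by linarith) (by norm_num) (by norm_num) (by norm_num) (by norm_num) (by norm_num) (by norm_num) (by norm_num) (by norm_num) (by norm_num) (by norm_num) (by norm_num) (by norm_num) (by norm_num) (by norm_num) (by norm_num) (by norm_num) (by norm_num) (by norm_num) (by norm_num) (by norm_num) (by norm_num)
    (cube_sqrt_geJ (s := 0.8495) (by norm_num) (by norm_num) (by norm_num) (by norm_num))
    (cube_sqrt_geJ (s := 0.9475) (by norm_num) (by norm_num) (by norm_num) (by norm_num))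
    (by norm_num) (by norm_num) (by norm_num) (by norm_num) (by norm_num) (by norm_num) (by norm_num) (by norm_num) (by norm_num) (by norm_num) (by norm_num) (by norm_num) (by norm_num) (by norm_num) (by norm_num) (by norm_num) (by norm_num) (by norm_num)
    (exp_neg_leJ (r := 0.002) 5 (by norm_num) (by norm_num) (by norm_num) (by norm_num))
    (exp_neg_leJ (r := 0.61) 3 (by norm_num) (by norm_num) (by norm_num) (by norm_num))
    (exp_neg_leJ (r := 0.494) 11 (by norm_num) (by norm_num) (by norm_num) (by norm_num))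
    (exp_neg_leJ (r := 0.99) 14 (by norm_num) (by norm_num) (by norm_num) (by norm_num))
    (exp_neg_leJ (r := 0.056) 5 (by norm_num) (by norm_num) (by norm_num) (by norm_num))
    (exp_neg_leJ (r := 0.217) 10 (by norm_num) (by norm_num) (by norm_num) (by norm_num))
    (exp_neg_leJ (r := 0.99) 2 (by norm_num) (by norm_num) (by norm_num) (by norm_num))
    (exp_neg_leJ (r := 0.623) 9 (by norm_num) (by norm_num) (by norm_num) (by norm_num))
    (by norm_num)) (by norm_num) hN hβ.le (by norm_num)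

private theorem dr13_b0_2 {β x y : ℝ} (hβ : 0 < β) (hN : β * 9.999 ≤ 1) (hx1 : 0.4035 ≤ x) (hx2 : x ≤ 0.655)
    (hy1 : -0 ≤ y) (hy2 : y ≤ 0.495) : ‖HH β (x + y * I) - 1‖ ≤ 0.14 := by
  refine le_epsJ (C := 1.3913) (N0 := 9.999) (J_boxp 0.4035 0.655 0 0.495 0.495 0.9941 0.8211 1.6322 1.289 0.5097 3.1622 9.999 0.826 3.088 1.453 1.1681 0.497 0.3601 1.1464 3.6804 0.5005 1.0082 0.2546 0.9546 0.006973 0.02734 0.00001053 0.0000003101 0.006712 0.00004191 0.0785 0.00007158 1.3913
    hβ hN hx1 hx2 hy1 hy2 (by norm_num) (by norm_num) (by linarith) (by norm_num) (by norm_num) (by norm_num) (by norm_num) (by norm_num) (by norm_num) (by norm_num) (by norm_num) (by norm_num) (by norm_num) (by norm_num) (by norm_num) (by norm_num) (by norm_num) (by norm_num) (by norm_num) (by norm_num) (by norm_num) (by norm_num) (by norm_num) (by norm_num)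
    (cube_sqrt_geJ (s := 0.8512) (by norm_num) (by norm_num) (by norm_num) (by norm_num))
    (cube_sqrt_geJ (s := 0.948) (by norm_num) (by norm_num) (by norm_num) (by norm_num))
    (by norm_num) (by norm_num) (by norm_num) (by norm_num) (by norm_num) (by norm_num) (by norm_num) (by norm_num) (by norm_num) (by norm_num) (by norm_num) (by norm_num) (by norm_num) (by norm_num) (by norm_num) (by norm_num) (by norm_num) (by norm_num)
    (exp_neg_leJ (r := 0.969) 4 (by norm_num) (by norm_num) (by norm_num) (by norm_num))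
    (exp_neg_leJ (r := 0.6) 3 (by norm_num) (by norm_num) (by norm_num) (by norm_num))
    (exp_neg_leJ (r := 0.462) 11 (by norm_num) (by norm_num) (by norm_num) (by norm_num))
    (exp_neg_leJ (r := 0.99) 14 (by norm_num) (by norm_num) (by norm_num) (by norm_num))
    (exp_neg_leJ (r := 0.004) 5 (by norm_num) (by norm_num) (by norm_num) (by norm_num))
    (exp_neg_leJ (r := 0.08) 10 (by norm_num) (by norm_num) (by norm_num) (by norm_num))
    (exp_neg_leJ (r := 0.545) 2 (by norm_num) (by norm_num) (by norm_num) (by norm_num))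
    (exp_neg_leJ (r := 0.545) 9 (by norm_num) (by norm_num) (by norm_num) (by norm_num))
    (by norm_num)) (by norm_num) hN hβ.le (by norm_num)

private theorem dr13_c0 {κ t β : ℝ} (h : DomR κ t) (hβ : 0 < β) (hk1 : 0.95 ≤ κ) (hk2 : κ ≤ 1)
    (ht1 : 0.7539 ≤ t + κ) (ht2 : t + κ ≤ 1.0682) (hR0 : β * 10 ≤ κ) (hR : β * (3.3 * (1 + κ ^ 2)) ≤ κ) :
    ∀ s : ℂ, ‖s - sg κ t‖ ≤ 0.1 → ‖HH β s - 1‖ ≤ 0.14 := by
  have hN : β * 9.999 ≤ 1 := bNR hβ h.1 hk2 hR0 (by norm_num)
  have hy1 : 0.299 ≤ sy κ t := syR_ge h 0.95 1 0.7539 0.299 1.3485 1.34851 0.4032 0.42443 hk1 hk2 (by linarith) (by norm_num) (by norm_num)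
    (expn_ge (by norm_num) (by norm_num)) (expn_le (by norm_num) (by norm_num) (by norm_num)) (by norm_num)
    (by norm_num) (by norm_num) (by norm_num) (by norm_num) (by norm_num) (by norm_num)
  have hy2 : sy κ t ≤ 0.395 := syR_le h 0.95 1 1.0682 0.395 1.48438 0.5786 0.58633 0.6172 hk1 hk2 (by linarith) (by norm_num) (by norm_num)
    (expn_ge (by norm_num) (by norm_num)) (by norm_num) (by norm_num) (Or.inr ((mul_le_mul_of_nonneg_left (expn_le (E := 1.48439) (by norm_num) (by norm_num) (by norm_num)) (by norm_num)).trans (by norm_num))) (by norm_num) (by norm_num) (by norm_num)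
  intro s hs
  have hs' : ‖s - ((sx κ t : ℂ) + (sy κ t : ℂ) * I)‖ ≤ 0.1 := hs
  obtain ⟨es, ⟨s1, s2⟩, ⟨s3, s4⟩⟩ := disc_split hs'
  rcases le_total (sy κ t) 0.374 with f0 | g0
  · have hx1 : 0.5359 ≤ sx κ t := sx_lo h 0.95 0.374 0.374 0.68797 0.5359 hk1 (by norm_num) f0 (abs_le.2 ⟨by linarith, by linarith⟩) (expm_ge (by norm_num) (by norm_num) (by norm_num) (by norm_num)) (by norm_num) (by norm_num)
    have hx2 : sx κ t ≤ 0.6787 := sx_hi h 1 0.299 0.299 0.74156 0.6787 hk2 hy1 (by norm_num) (by rw [abs_of_nonneg (by linarith)]; linarith) (expm_le (by norm_num) (by norm_num) (by norm_num)) (by norm_num) (by norm_num)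
    rw [es]
    exact dr13_b0_0 hβ hN (by linarith) (by linarith) (by linarith) (by linarith)
  rcases le_total (sy κ t) 0.389 with f1 | g1
  · have hx1 : 0.513 ≤ sx κ t := sx_lo h 0.95 0.389 0.389 0.67773 0.513 hk1 (by norm_num) f1 (abs_le.2 ⟨by linarith, by linarith⟩) (expm_ge (by norm_num) (by norm_num) (by norm_num) (by norm_num)) (by norm_num) (by norm_num)
    have hx2 : sx κ t ≤ 0.5775 := sx_hi h 1 0.374 0.374 0.68798 0.5775 hk2 g0 (by norm_num) (by rw [abs_of_nonneg (by linarith)]; linarith) (expm_le (by norm_num) (by norm_num) (by norm_num)) (by norm_num) (by norm_num)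
    rw [es]
    exact dr13_b0_1 hβ hN (by linarith) (by linarith) (by linarith) (by linarith)
  have hx1 : 0.5035 ≤ sx κ t := sx_lo h 0.95 0.395 0.395 0.67368 0.5035 hk1 (by norm_num) hy2 (abs_le.2 ⟨by linarith, by linarith⟩) (expm_ge (by norm_num) (by norm_num) (by norm_num) (by norm_num)) (by norm_num) (by norm_num)
  have hx2 : sx κ t ≤ 0.555 := sx_hi h 1 0.389 0.389 0.67774 0.555 hk2 g1 (by norm_num) (by rw [abs_of_nonneg (by linarith)]; linarith) (expm_le (by norm_num) (by norm_num) (by norm_num)) (by norm_num) (by norm_num)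
  rw [es]
  exact dr13_b0_2 hβ hN (by linarith) (by linarith) (by linarith) (by linarith)

theorem dr13 {κ t β : ℝ} (h : DomR κ t) (hβ : 0 < β) (hk1 : 0.95 ≤ κ) (hk2 : κ ≤ 1)
    (ht1 : 0.7539 ≤ t + κ) (ht2 : t + κ ≤ 1.0682) (hR0 : β * 10 ≤ κ) (hR : β * (3.3 * (1 + κ ^ 2)) ≤ κ) :
    ∀ s : ℂ, ‖s - sg κ t‖ ≤ 0.1 → ‖HH β s - 1‖ ≤ 0.14 := by
  exact dr13_c0 h hβ hk1 hk2 ht1 ht2 hR0 hR

end Sok.B4
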