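import Pool.Agent.Lib.MP_816dec_an.JBG2

/-!
MP_816dec_an (A3, row R1, b = 4): left discs.
-/

set_option autoImplicit false
set_option maxHeartbeats 4000000

open Complex Set

namespace Sok.B4

private theorem dl1a_b0_0 {β x y : ℝ} (hβ : 0 < β) (hN : β * 25.641 ≤ 1) (hx1 : 0.2961 ≤ x) (hx2 : x ≤ 0.4738)
    (hy1 : -0.474 ≤ y) (hy2 : y ≤ -0.369) : ‖HH β (x + y * I) - 1‖ ≤ 0.13 := by
  refine le_epsJ (C := 3.2777) (N0 := 25.641) (J_boxp 0.2961 0.4738 0.474 0 (-0.369) 0.5819 0.6702 0.7891 2.0013 0.3544 5.0637 25.641 1.1518 5.45 1.703 0.8003 0.2909 0.1792 0.3614 2.2894 0.2399 0.9099 0.8744 3.4824 0.0005769 0.01012 0.00009459 0.0000003101 0.002132 0.0000003101 0.0000003101 0.0000003101 3.2777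
    hβ hN hx1 hx2 hy1 hy2 (by norm_num) (by norm_num) (by linarith) (by norm_num) (by norm_num) (by norm_num) (by norm_num) (by norm_num) (by norm_num) (by norm_num) (by norm_num) (by norm_num) (by norm_num) (by norm_num) (by norm_num) (by norm_num) (by norm_num) (by norm_num) (by norm_num) (by norm_num) (by norm_num) (by norm_num) (by norm_num) (by norm_num)
    (cube_sqrt_geJ (s := 0.7848) (by norm_num) (by norm_num) (by norm_num) (by norm_num))
    (cube_sqrt_geJ (s := 0.9268) (by norm_num) (by norm_num) (by norm_num) (by norm_num))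
    (by norm_num) (by norm_num) (by norm_num) (by norm_num) (by norm_num) (by norm_num) (by norm_num) (by norm_num) (by norm_num) (by norm_num) (by norm_num) (by norm_num) (by norm_num) (by norm_num) (by norm_num) (by norm_num) (by norm_num) (by norm_num)
    (exp_neg_leJ (r := 0.458) 7 (by norm_num) (by norm_num) (by norm_num) (by norm_num))
    (exp_neg_leJ (r := 0.594) 4 (by norm_num) (by norm_num) (by norm_num) (by norm_num))
    (exp_neg_leJ (r := 0.266) 9 (by norm_num) (by norm_num) (by norm_num) (by norm_num))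
    (exp_neg_leJ (r := 0.99) 14 (by norm_num) (by norm_num) (by norm_num) (by norm_num))
    (exp_neg_leJ (r := 0.151) 6 (by norm_num) (by norm_num) (by norm_num) (by norm_num))
    (exp_neg_leJ (r := 0.99) 14 (by norm_num) (by norm_num) (by norm_num) (by norm_num))
    (exp_neg_leJ (r := 0.99) 14 (by norm_num) (by norm_num) (by norm_num) (by norm_num))
    (exp_neg_leJ (r := 0.99) 14 (by norm_num) (by norm_num) (by norm_num) (by norm_num))
    (by norm_num)) (by norm_num) hN hβ.le (by norm_num)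

private theorem dl1a_b0_1 {β x y : ℝ} (hβ : 0 < β) (hN : β * 25.641 ≤ 1) (hx1 : 0.2936 ≤ x) (hx2 : x ≤ 0.4794)
    (hy1 : -0.469 ≤ y) (hy2 : y ≤ -0.359) : ‖HH β (x + y * I) - 1‖ ≤ 0.13 := by
  refine le_epsJ (C := 3.2568) (N0 := 25.641) (J_boxp 0.2936 0.4794 0.469 0 (-0.359) 0.5837 0.6707 0.8005 2.0064 0.357 5.0637 25.641 1.1491 5.422 1.701 0.8028 0.2918 0.18 0.3684 2.3032 0.2414 0.9065 0.883 3.4761 0.0005633 0.009907 0.00007902 0.0000003101 0.002052 0.0000003101 0.0000003101 0.0000003101 3.2568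
    hβ hN hx1 hx2 hy1 hy2 (by norm_num) (by norm_num) (by linarith) (by norm_num) (by norm_num) (by norm_num) (by norm_num) (by norm_num) (by norm_num) (by norm_num) (by norm_num) (by norm_num) (by norm_num) (by norm_num) (by norm_num) (by norm_num) (by norm_num) (by norm_num) (by norm_num) (by norm_num) (by norm_num) (by norm_num) (by norm_num) (by norm_num)
    (cube_sqrt_geJ (s := 0.7854) (by norm_num) (by norm_num) (by norm_num) (by norm_num))
    (cube_sqrt_geJ (s := 0.9269) (by norm_num) (by norm_num) (by norm_num) (by norm_num))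
    (by norm_num) (by norm_num) (by norm_num) (by norm_num) (by norm_num) (by norm_num) (by norm_num) (by norm_num) (by norm_num) (by norm_num) (by norm_num) (by norm_num) (by norm_num) (by norm_num) (by norm_num) (by norm_num) (by norm_num) (by norm_num)
    (exp_neg_leJ (r := 0.482) 7 (by norm_num) (by norm_num) (by norm_num) (by norm_num))
    (exp_neg_leJ (r := 0.615) 4 (by norm_num) (by norm_num) (by norm_num) (by norm_num))
    (exp_neg_leJ (r := 0.446) 9 (by norm_num) (by norm_num) (by norm_num) (by norm_num))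
    (exp_neg_leJ (r := 0.99) 14 (by norm_num) (by norm_num) (by norm_num) (by norm_num))
    (exp_neg_leJ (r := 0.189) 6 (by norm_num) (by norm_num) (by norm_num) (by norm_num))
    (exp_neg_leJ (r := 0.99) 14 (by norm_num) (by norm_num) (by norm_num) (by norm_num))
    (exp_neg_leJ (r := 0.99) 14 (by norm_num) (by norm_num) (by norm_num) (by norm_num))
    (exp_neg_leJ (r := 0.99) 14 (by norm_num) (by norm_num) (by norm_num) (by norm_num))
    (by norm_num)) (by norm_num) hN hβ.le (by norm_num)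

private theorem dl1a_b0_2 {β x y : ℝ} (hβ : 0 < β) (hN : β * 25.641 ≤ 1) (hx1 : 0.2889 ≤ x) (hx2 : x ≤ 0.4897)
    (hy1 : -0.459 ≤ y) (hy2 : y ≤ -0.339) : ‖HH β (x + y * I) - 1‖ ≤ 0.13 := by
  refine le_epsJ (C := 3.2007) (N0 := 25.641) (J_boxp 0.2889 0.4897 0.459 0 (-0.339) 0.5875 0.6712 0.8227 2.0143 0.3619 5.0637 25.641 1.1425 5.355 1.695 0.808 0.2937 0.1818 0.3826 2.3313 0.2446 0.9 0.9008 3.4653 0.0005369 0.009463 0.00005499 0.0000003101 0.001891 0.0000003101 0.0000003101 0.0000003101 3.2007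
    hβ hN hx1 hx2 hy1 hy2 (by norm_num) (by norm_num) (by linarith) (by norm_num) (by norm_num) (by norm_num) (by norm_num) (by norm_num) (by norm_num) (by norm_num) (by norm_num) (by norm_num) (by norm_num) (by norm_num) (by norm_num) (by norm_num) (by norm_num) (by norm_num) (by norm_num) (by norm_num) (by norm_num) (by norm_num) (by norm_num) (by norm_num)
    (cube_sqrt_geJ (s := 0.7868) (by norm_num) (by norm_num) (by norm_num) (by norm_num))
    (cube_sqrt_geJ (s := 0.9274) (by norm_num) (by norm_num) (by norm_num) (by norm_num))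
    (by norm_num) (by norm_num) (by norm_num) (by norm_num) (by norm_num) (by norm_num) (by norm_num) (by norm_num) (by norm_num) (by norm_num) (by norm_num) (by norm_num) (by norm_num) (by norm_num) (by norm_num) (by norm_num) (by norm_num) (by norm_num)
    (exp_neg_leJ (r := 0.53) 7 (by norm_num) (by norm_num) (by norm_num) (by norm_num))
    (exp_neg_leJ (r := 0.661) 4 (by norm_num) (by norm_num) (by norm_num) (by norm_num))
    (exp_neg_leJ (r := 0.81) 9 (by norm_num) (by norm_num) (by norm_num) (by norm_num))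
    (exp_neg_leJ (r := 0.99) 14 (by norm_num) (by norm_num) (by norm_num) (by norm_num))
    (exp_neg_leJ (r := 0.271) 6 (by norm_num) (by norm_num) (by norm_num) (by norm_num))
    (exp_neg_leJ (r := 0.99) 14 (by norm_num) (by norm_num) (by norm_num) (by norm_num))
    (exp_neg_leJ (r := 0.99) 14 (by norm_num) (by norm_num) (by norm_num) (by norm_num))
    (exp_neg_leJ (r := 0.99) 14 (by norm_num) (by norm_num) (by norm_num) (by norm_num))
    (by norm_num)) (by norm_num) hN hβ.le (by norm_num)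

private theorem dl1a_b0_3 {β x y : ℝ} (hβ : 0 < β) (hN : β * 25.641 ≤ 1) (hx1 : 0.2724 ≤ x) (hx2 : x ≤ 0.515)
    (hy1 : -0.439 ≤ y) (hy2 : y ≤ -0.289) : ‖HH β (x + y * I) - 1‖ ≤ 0.13 := by
  refine le_epsJ (C := 3.3161) (N0 := 25.641) (J_boxp 0.2724 0.515 0.439 0 (-0.289) 0.5901 0.6768 0.878 2.0671 0.3739 5.0637 25.641 1.147 5.4 1.699 0.8168 0.295 0.1822 0.4085 2.3848 0.2475 0.8771 0.9221 3.4171 0.000519 0.00937 0.00002827 0.0000003101 0.001754 0.0000003101 0.0000003101 0.0000003101 3.3161
    hβ hN hx1 hx2 hy1 hy2 (by norm_num) (by norm_num) (by linarith) (by norm_num) (by norm_num) (by norm_num) (by norm_num) (by norm_num) (by norm_num) (by norm_num) (by norm_num) (by norm_num) (by norm_num) (by norm_num) (by norm_num) (by norm_num) (by norm_num) (by norm_num) (by norm_num) (by norm_num) (by norm_num) (by norm_num) (by norm_num) (by norm_num)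
    (cube_sqrt_geJ (s := 0.7859) (by norm_num) (by norm_num) (by norm_num) (by norm_num))
    (cube_sqrt_geJ (s := 0.9271) (by norm_num) (by norm_num) (by norm_num) (by norm_num))
    (by norm_num) (by norm_num) (by norm_num) (by norm_num) (by norm_num) (by norm_num) (by norm_num) (by norm_num) (by norm_num) (by norm_num) (by norm_num) (by norm_num) (by norm_num) (by norm_num) (by norm_num) (by norm_num) (by norm_num) (by norm_num)
    (exp_neg_leJ (r := 0.564) 7 (by norm_num) (by norm_num) (by norm_num) (by norm_num))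
    (exp_neg_leJ (r := 0.671) 4 (by norm_num) (by norm_num) (by norm_num) (by norm_num))
    (exp_neg_leJ (r := 0.474) 10 (by norm_num) (by norm_num) (by norm_num) (by norm_num))
    (exp_neg_leJ (r := 0.99) 14 (by norm_num) (by norm_num) (by norm_num) (by norm_num))
    (exp_neg_leJ (r := 0.346) 6 (by norm_num) (by norm_num) (by norm_num) (by norm_num))
    (exp_neg_leJ (r := 0.99) 14 (by norm_num) (by norm_num) (by norm_num) (by norm_num))
    (exp_neg_leJ (r := 0.99) 14 (by norm_num) (by norm_num) (by norm_num) (by norm_num))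
    (exp_neg_leJ (r := 0.99) 14 (by norm_num) (by norm_num) (by norm_num) (by norm_num))
    (by norm_num)) (by norm_num) hN hβ.le (by norm_num)

private theorem dl1a_b0_4 {β x y : ℝ} (hβ : 0 < β) (hN : β * 25.641 ≤ 1) (hx1 : 0.2389 ≤ x) (hx2 : x ≤ 0.5543)
    (hy1 : -0.389 ≤ y) (hy2 : y ≤ -0.163) : ‖HH β (x + y * I) - 1‖ ≤ 0.13 := by
  refine le_epsJ (C := 3.2089) (N0 := 25.641) (J_boxp 0.2389 0.5543 0.389 0 (-0.163) 0.602 0.6772 1.004 2.1453 0.3998 5.0637 25.641 1.125 5.182 1.681 0.8478 0.3009 0.1881 0.476 2.5295 0.2585 0.8307 0.991 3.349 0.0004465 0.008056 0.000005006 0.0000003101 0.001324 0.0000003101 0.0000003101 0.0000003101 3.2089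
    hβ hN hx1 hx2 hy1 hy2 (by norm_num) (by norm_num) (by linarith) (by norm_num) (by norm_num) (by norm_num) (by norm_num) (by norm_num) (by norm_num) (by norm_num) (by norm_num) (by norm_num) (by norm_num) (by norm_num) (by norm_num) (by norm_num) (by norm_num) (by norm_num) (by norm_num) (by norm_num) (by norm_num) (by norm_num) (by norm_num) (by norm_num)
    (cube_sqrt_geJ (s := 0.7905) (by norm_num) (by norm_num) (by norm_num) (by norm_num))
    (cube_sqrt_geJ (s := 0.9285) (by norm_num) (by norm_num) (by norm_num) (by norm_num))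
    (by norm_num) (by norm_num) (by norm_num) (by norm_num) (by norm_num) (by norm_num) (by norm_num) (by norm_num) (by norm_num) (by norm_num) (by norm_num) (by norm_num) (by norm_num) (by norm_num) (by norm_num) (by norm_num) (by norm_num) (by norm_num)
    (exp_neg_leJ (r := 0.715) 7 (by norm_num) (by norm_num) (by norm_num) (by norm_num))
    (exp_neg_leJ (r := 0.823) 4 (by norm_num) (by norm_num) (by norm_num) (by norm_num))
    (exp_neg_leJ (r := 0.205) 12 (by norm_num) (by norm_num) (by norm_num) (by norm_num))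
    (exp_neg_leJ (r := 0.99) 14 (by norm_num) (by norm_num) (by norm_num) (by norm_num))
    (exp_neg_leJ (r := 0.628) 6 (by norm_num) (by norm_num) (by norm_num) (by norm_num))
    (exp_neg_leJ (r := 0.99) 14 (by norm_num) (by norm_num) (by norm_num) (by norm_num))
    (exp_neg_leJ (r := 0.99) 14 (by norm_num) (by norm_num) (by norm_num) (by norm_num))
    (exp_neg_leJ (r := 0.99) 14 (by norm_num) (by norm_num) (by norm_num) (by norm_num))
    (by norm_num)) (by norm_num) hN hβ.le (by norm_num)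

private theorem dl1a_c0 {κ t β : ℝ} (h : DomR κ t) (hβ : 0 < β) (hk1 : 0.36 ≤ κ) (hk2 : κ ≤ 0.39)
    (ht1 : -0.8169 ≤ t + κ) (ht2 : t + κ ≤ -0.534) (hR0 : β * 10 ≤ κ) (hR : β * (3.3 * (1 + κ ^ 2)) ≤ κ) :
    ∀ s : ℂ, ‖s - sg κ t‖ ≤ 0.05 → ‖HH β s - 1‖ ≤ 0.13 := by
  have hN : β * 25.641 ≤ 1 := bNR hβ h.1 hk2 hR0 (by norm_num)
  have hy1 : -0.424 ≤ sy κ t := syL_ang2 h 0.36 0.39 0.8169 0.791 0.7031 0.7111 0.424 1.52806 0.65442 hk1 hk2 (by linarith) (by norm_num) (by norm_num) (by norm_num) (by norm_num)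
    (cos_ge_num (by norm_num) (by norm_num)) (sin_le_num (by norm_num) (by norm_num))
    (expn_ge (by norm_num) (by norm_num)) (expm_ge (by norm_num) (by norm_num) (by norm_num) (by norm_num)) (by norm_num) (by norm_num) (by norm_num)
    (by norm_num) (by norm_num) (by norm_num)
  have hy2 : sy κ t ≤ -0.213 := syL_le h 0.36 0.39 0.534 0.213 0.80815 0.80816 0.44137 0.47817 hk1 hk2 (by linarith) (by norm_num) (by norm_num) (by norm_num)
    (expm_ge (by norm_num) (by norm_num) (by norm_num) (by norm_num)) (expm_le (by norm_num) (by norm_num) (by norm_num)) (by norm_num)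
    (by norm_num) (by norm_num) (by norm_num) (by norm_num) (by norm_num) (by norm_num)
  intro s hs
  have hs' : ‖s - ((sx κ t : ℂ) + (sy κ t : ℂ) * I)‖ ≤ 0.05 := hs
  obtain ⟨es, ⟨s1, s2⟩, ⟨s3, s4⟩⟩ := disc_split hs'
  rcases le_total (sy κ t) (-0.419) with f0 | g0
  · have hx1 : 0.3461 ≤ sx κ t := sx_lo h 0.36 (-0.419) 0.424 1.52043 0.3461 hk1 (by norm_num) f0 (abs_le.2 ⟨by linarith, by linarith⟩) (by rw [neg_neg]; exact expn_ge (by norm_num) (by norm_num)) (by norm_num) (by norm_num)
    have hx2 : sx κ t ≤ 0.4238 := sx_hi h 0.39 (-0.424) 0.419 1.52807 0.4238 hk2 hy1 (by norm_num) (by rw [abs_of_nonpos (by linarith)]; linarith) (by rw [neg_neg]; exact expn_le (by norm_num) (by norm_num) (by norm_num)) (by norm_num) (by norm_num)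
    rw [es]
    exact dl1a_b0_0 hβ hN (by linarith) (by linarith) (by linarith) (by linarith)
  rcases le_total (sy κ t) (-0.409) with f1 | g1
  · have hx1 : 0.3436 ≤ sx κ t := sx_lo h 0.36 (-0.409) 0.419 1.50531 0.3436 hk1 (by norm_num) f1 (abs_le.2 ⟨by linarith, by linarith⟩) (by rw [neg_neg]; exact expn_ge (by norm_num) (by norm_num)) (by norm_num) (by norm_num)
    have hx2 : sx κ t ≤ 0.4294 := sx_hi h 0.39 (-0.419) 0.409 1.52045 0.4294 hk2 g0 (by norm_num) (by rw [abs_of_nonpos (by linarith)]; linarith) (by rw [neg_neg]; exact expn_le (by norm_num) (by norm_num) (by norm_num)) (by norm_num) (by norm_num)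
    rw [es]
    exact dl1a_b0_1 hβ hN (by linarith) (by linarith) (by linarith) (by linarith)
  rcases le_total (sy κ t) (-0.389) with f2 | g2
  · have hx1 : 0.3389 ≤ sx κ t := sx_lo h 0.36 (-0.389) 0.409 1.4755 0.3389 hk1 (by norm_num) f2 (abs_le.2 ⟨by linarith, by linarith⟩) (by rw [neg_neg]; exact expn_ge (by norm_num) (by norm_num)) (by norm_num) (by norm_num)
    have hx2 : sx κ t ≤ 0.4397 := sx_hi h 0.39 (-0.409) 0.389 1.50532 0.4397 hk2 g1 (by norm_num) (by rw [abs_of_nonpos (by linarith)]; linarith) (by rw [neg_neg]; exact expn_le (by norm_num) (by norm_num) (by norm_num)) (by norm_num) (by norm_num)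
    rw [es]
    exact dl1a_b0_2 hβ hN (by linarith) (by linarith) (by linarith) (by linarith)
  rcases le_total (sy κ t) (-0.339) with f3 | g3
  · have hx1 : 0.3224 ≤ sx κ t := sx_lo h 0.36 (-0.339) 0.389 1.40354 0.3224 hk1 (by norm_num) f3 (abs_le.2 ⟨by linarith, by linarith⟩) (by rw [neg_neg]; exact expn_ge (by norm_num) (by norm_num)) (by norm_num) (by norm_num)
    have hx2 : sx κ t ≤ 0.465 := sx_hi h 0.39 (-0.389) 0.339 1.47551 0.465 hk2 g2 (by norm_num) (by rw [abs_of_nonpos (by linarith)]; linarith) (by rw [neg_neg]; exact expn_le (by norm_num) (by norm_num) (by norm_num)) (by norm_num) (by norm_num)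
    rw [es]
    exact dl1a_b0_3 hβ hN (by linarith) (by linarith) (by linarith) (by linarith)
  have hx1 : 0.2889 ≤ sx κ t := sx_lo h 0.36 (-0.213) 0.339 1.23738 0.2889 hk1 (by norm_num) hy2 (abs_le.2 ⟨by linarith, by linarith⟩) (by rw [neg_neg]; exact expn_ge (by norm_num) (by norm_num)) (by norm_num) (by norm_num)
  have hx2 : sx κ t ≤ 0.5043 := sx_hi h 0.39 (-0.339) 0.213 1.40355 0.5043 hk2 g3 (by norm_num) (by rw [abs_of_nonpos (by linarith)]; linarith) (by rw [neg_neg]; exact expn_le (by norm_num) (by norm_num) (by norm_num)) (by norm_num) (by norm_num)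
  rw [es]
  exact dl1a_b0_4 hβ hN (by linarith) (by linarith) (by linarith) (by linarith)

theorem dl1a {κ t β : ℝ} (h : DomR κ t) (hβ : 0 < β) (hk1 : 0.36 ≤ κ) (hk2 : κ ≤ 0.39)
    (ht1 : -0.8169 ≤ t + κ) (ht2 : t + κ ≤ -0.534) (hR0 : β * 10 ≤ κ) (hR : β * (3.3 * (1 + κ ^ 2)) ≤ κ) :
    ∀ s : ℂ, ‖s - sg κ t‖ ≤ 0.05 → ‖HH β s - 1‖ ≤ 0.13 := by
  exact dl1a_c0 h hβ hk1 hk2 ht1 ht2 hR0 hR

private theorem dl1b_b0_0 {β x y : ℝ} (hβ : 0 < β) (hN : β * 23.809 ≤ 1) (hx1 : 0.3681 ≤ x) (hx2 : x ≤ 0.5255)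
    (hy1 : -0.498 ≤ y) (hy2 : y ≤ -0.413) : ‖HH β (x + y * I) - 1‖ ≤ 0.14 := by
  refine le_epsJ (C := 3.2274) (N0 := 23.809) (J_boxp 0.3681 0.5255 0.498 0 (-0.413) 0.6156 0.724 0.7879 1.8378 0.3542 4.8795 23.809 1.1761 5.708 1.724 0.7583 0.3077 0.1871 0.3482 2.1836 0.2617 1.0096 0.9531 3.4802 0.0006583 0.01164 0.0002511 0.0000003101 0.00197 0.0000003101 0.0000003101 0.0000003101 3.2274
    hβ hN hx1 hx2 hy1 hy2 (by norm_num) (by norm_num) (by linarith) (by norm_num) (by norm_num) (by norm_num) (by norm_num) (by norm_num) (by norm_num) (by norm_num) (by norm_num) (by norm_num) (by norm_num) (by norm_num) (by norm_num) (by norm_num) (by norm_num) (by norm_num) (by norm_num) (by norm_num) (by norm_num) (by norm_num) (by norm_num) (by norm_num)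
    (cube_sqrt_geJ (s := 0.7797) (by norm_num) (by norm_num) (by norm_num) (by norm_num))
    (cube_sqrt_geJ (s := 0.9252) (by norm_num) (by norm_num) (by norm_num) (by norm_num))
    (by norm_num) (by norm_num) (by norm_num) (by norm_num) (by norm_num) (by norm_num) (by norm_num) (by norm_num) (by norm_num) (by norm_num) (by norm_num) (by norm_num) (by norm_num) (by norm_num) (by norm_num) (by norm_num) (by norm_num) (by norm_num)
    (exp_neg_leJ (r := 0.326) 7 (by norm_num) (by norm_num) (by norm_num) (by norm_num))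
    (exp_neg_leJ (r := 0.454) 4 (by norm_num) (by norm_num) (by norm_num) (by norm_num))
    (exp_neg_leJ (r := 0.29) 8 (by norm_num) (by norm_num) (by norm_num) (by norm_num))
    (exp_neg_leJ (r := 0.99) 14 (by norm_num) (by norm_num) (by norm_num) (by norm_num))
    (exp_neg_leJ (r := 0.23) 6 (by norm_num) (by norm_num) (by norm_num) (by norm_num))
    (exp_neg_leJ (r := 0.99) 14 (by norm_num) (by norm_num) (by norm_num) (by norm_num))
    (exp_neg_leJ (r := 0.99) 14 (by norm_num) (by norm_num) (by norm_num) (by norm_num))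
    (exp_neg_leJ (r := 0.99) 14 (by norm_num) (by norm_num) (by norm_num) (by norm_num))
    (by norm_num)) (by norm_num) hN hβ.le (by norm_num)

private theorem dl1b_b0_1 {β x y : ℝ} (hβ : 0 < β) (hN : β * 23.809 ≤ 1) (hx1 : 0.3645 ≤ x) (hx2 : x ≤ 0.5302)
    (hy1 : -0.493 ≤ y) (hy2 : y ≤ -0.403) : ‖HH β (x + y * I) - 1‖ ≤ 0.14 := by
  refine le_epsJ (C := 3.2211) (N0 := 23.809) (J_boxp 0.3645 0.5302 0.493 0 (-0.403) 0.6166 0.724 0.7985 1.8456 0.3565 4.8795 23.809 1.1742 5.687 1.722 0.7611 0.3082 0.1876 0.3548 2.1979 0.2627 1.0046 0.9595 3.473 0.0006511 0.0115 0.0002146 0.0000003101 0.001923 0.0000003101 0.0000003101 0.0000003101 3.2211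
    hβ hN hx1 hx2 hy1 hy2 (by norm_num) (by norm_num) (by linarith) (by norm_num) (by norm_num) (by norm_num) (by norm_num) (by norm_num) (by norm_num) (by norm_num) (by norm_num) (by norm_num) (by norm_num) (by norm_num) (by norm_num) (by norm_num) (by norm_num) (by norm_num) (by norm_num) (by norm_num) (by norm_num) (by norm_num) (by norm_num) (by norm_num)
    (cube_sqrt_geJ (s := 0.7801) (by norm_num) (by norm_num) (by norm_num) (by norm_num))
    (cube_sqrt_geJ (s := 0.9253) (by norm_num) (by norm_num) (by norm_num) (by norm_num))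
    (by norm_num) (by norm_num) (by norm_num) (by norm_num) (by norm_num) (by norm_num) (by norm_num) (by norm_num) (by norm_num) (by norm_num) (by norm_num) (by norm_num) (by norm_num) (by norm_num) (by norm_num) (by norm_num) (by norm_num) (by norm_num)
    (exp_neg_leJ (r := 0.337) 7 (by norm_num) (by norm_num) (by norm_num) (by norm_num))
    (exp_neg_leJ (r := 0.466) 4 (by norm_num) (by norm_num) (by norm_num) (by norm_num))
    (exp_neg_leJ (r := 0.447) 8 (by norm_num) (by norm_num) (by norm_num) (by norm_num))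
    (exp_neg_leJ (r := 0.99) 14 (by norm_num) (by norm_num) (by norm_num) (by norm_num))
    (exp_neg_leJ (r := 0.254) 6 (by norm_num) (by norm_num) (by norm_num) (by norm_num))
    (exp_neg_leJ (r := 0.99) 14 (by norm_num) (by norm_num) (by norm_num) (by norm_num))
    (exp_neg_leJ (r := 0.99) 14 (by norm_num) (by norm_num) (by norm_num) (by norm_num))
    (exp_neg_leJ (r := 0.99) 14 (by norm_num) (by norm_num) (by norm_num) (by norm_num))
    (by norm_num)) (by norm_num) hN hβ.le (by norm_num)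

private theorem dl1b_b0_2 {β x y : ℝ} (hβ : 0 < β) (hN : β * 23.809 ≤ 1) (hx1 : 0.3577 ≤ x) (hx2 : x ≤ 0.539)
    (hy1 : -0.483 ≤ y) (hy2 : y ≤ -0.383) : ‖HH β (x + y * I) - 1‖ ≤ 0.14 := by
  refine le_epsJ (C := 3.197) (N0 := 23.809) (J_boxp 0.3577 0.539 0.483 0 (-0.383) 0.6189 0.7238 0.8193 1.8591 0.3612 4.8795 23.809 1.1695 5.636 1.718 0.7669 0.3094 0.1888 0.3683 2.2266 0.2649 0.9952 0.9731 3.4599 0.0006325 0.01117 0.0001559 0.0000003101 0.001824 0.0000003101 0.0000003101 0.0000003101 3.197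
    hβ hN hx1 hx2 hy1 hy2 (by norm_num) (by norm_num) (by linarith) (by norm_num) (by norm_num) (by norm_num) (by norm_num) (by norm_num) (by norm_num) (by norm_num) (by norm_num) (by norm_num) (by norm_num) (by norm_num) (by norm_num) (by norm_num) (by norm_num) (by norm_num) (by norm_num) (by norm_num) (by norm_num) (by norm_num) (by norm_num) (by norm_num)
    (cube_sqrt_geJ (s := 0.7811) (by norm_num) (by norm_num) (by norm_num) (by norm_num))
    (cube_sqrt_geJ (s := 0.9256) (by norm_num) (by norm_num) (by norm_num) (by norm_num))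
    (by norm_num) (by norm_num) (by norm_num) (by norm_num) (by norm_num) (by norm_num) (by norm_num) (by norm_num) (by norm_num) (by norm_num) (by norm_num) (by norm_num) (by norm_num) (by norm_num) (by norm_num) (by norm_num) (by norm_num) (by norm_num)
    (exp_neg_leJ (r := 0.366) 7 (by norm_num) (by norm_num) (by norm_num) (by norm_num))
    (exp_neg_leJ (r := 0.495) 4 (by norm_num) (by norm_num) (by norm_num) (by norm_num))
    (exp_neg_leJ (r := 0.768) 8 (by norm_num) (by norm_num) (by norm_num) (by norm_num))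
    (exp_neg_leJ (r := 0.99) 14 (by norm_num) (by norm_num) (by norm_num) (by norm_num))
    (exp_neg_leJ (r := 0.307) 6 (by norm_num) (by norm_num) (by norm_num) (by norm_num))
    (exp_neg_leJ (r := 0.99) 14 (by norm_num) (by norm_num) (by norm_num) (by norm_num))
    (exp_neg_leJ (r := 0.99) 14 (by norm_num) (by norm_num) (by norm_num) (by norm_num))
    (exp_neg_leJ (r := 0.99) 14 (by norm_num) (by norm_num) (by norm_num) (by norm_num))
    (by norm_num)) (by norm_num) hN hβ.le (by norm_num)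

private theorem dl1b_b0_3 {β x y : ℝ} (hβ : 0 < β) (hN : β * 23.809 ≤ 1) (hx1 : 0.3407 ≤ x) (hx2 : x ≤ 0.5579)
    (hy1 : -0.463 ≤ y) (hy2 : y ≤ -0.338) : ‖HH β (x + y * I) - 1‖ ≤ 0.14 := by
  refine le_epsJ (C := 3.2411) (N0 := 23.809) (J_boxp 0.3407 0.5579 0.463 0 (-0.338) 0.6212 0.725 0.8658 1.9005 0.3713 4.8795 23.809 1.1671 5.611 1.716 0.7781 0.3105 0.1897 0.394 2.2832 0.2675 0.9717 0.9935 3.4227 0.0006163 0.01094 0.00008441 0.0000003101 0.001716 0.0000003101 0.0000003101 0.0000003101 3.2411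
    hβ hN hx1 hx2 hy1 hy2 (by norm_num) (by norm_num) (by linarith) (by norm_num) (by norm_num) (by norm_num) (by norm_num) (by norm_num) (by norm_num) (by norm_num) (by norm_num) (by norm_num) (by norm_num) (by norm_num) (by norm_num) (by norm_num) (by norm_num) (by norm_num) (by norm_num) (by norm_num) (by norm_num) (by norm_num) (by norm_num) (by norm_num)
    (cube_sqrt_geJ (s := 0.7816) (by norm_num) (by norm_num) (by norm_num) (by norm_num))
    (cube_sqrt_geJ (s := 0.9257) (by norm_num) (by norm_num) (by norm_num) (by norm_num))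
    (by norm_num) (by norm_num) (by norm_num) (by norm_num) (by norm_num) (by norm_num) (by norm_num) (by norm_num) (by norm_num) (by norm_num) (by norm_num) (by norm_num) (by norm_num) (by norm_num) (by norm_num) (by norm_num) (by norm_num) (by norm_num)
    (exp_neg_leJ (r := 0.392) 7 (by norm_num) (by norm_num) (by norm_num) (by norm_num))
    (exp_neg_leJ (r := 0.516) 4 (by norm_num) (by norm_num) (by norm_num) (by norm_num))
    (exp_neg_leJ (r := 0.38) 9 (by norm_num) (by norm_num) (by norm_num) (by norm_num))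
    (exp_neg_leJ (r := 0.99) 14 (by norm_num) (by norm_num) (by norm_num) (by norm_num))
    (exp_neg_leJ (r := 0.368) 6 (by norm_num) (by norm_num) (by norm_num) (by norm_num))
    (exp_neg_leJ (r := 0.99) 14 (by norm_num) (by norm_num) (by norm_num) (by norm_num))
    (exp_neg_leJ (r := 0.99) 14 (by norm_num) (by norm_num) (by norm_num) (by norm_num))
    (exp_neg_leJ (r := 0.99) 14 (by norm_num) (by norm_num) (by norm_num) (by norm_num))
    (by norm_num)) (by norm_num) hN hβ.le (by norm_num)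

private theorem dl1b_b0_4 {β x y : ℝ} (hβ : 0 < β) (hN : β * 23.809 ≤ 1) (hx1 : 0.3021 ≤ x) (hx2 : x ≤ 0.5913)
    (hy1 : -0.418 ≤ y) (hy2 : y ≤ -0.228) : ‖HH β (x + y * I) - 1‖ ≤ 0.14 := by
  refine le_epsJ (C := 3.291) (N0 := 23.809) (J_boxp 0.3021 0.5913 0.418 0 (-0.228) 0.6259 0.7242 0.9725 1.9916 0.3935 4.8795 23.809 1.1571 5.505 1.708 0.8068 0.3129 0.1922 0.4518 2.4144 0.2734 0.9182 1.0386 3.3477 0.0005821 0.0103 0.00002135 0.0000003101 0.001491 0.0000003101 0.0000003101 0.0000003101 3.291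
    hβ hN hx1 hx2 hy1 hy2 (by norm_num) (by norm_num) (by linarith) (by norm_num) (by norm_num) (by norm_num) (by norm_num) (by norm_num) (by norm_num) (by norm_num) (by norm_num) (by norm_num) (by norm_num) (by norm_num) (by norm_num) (by norm_num) (by norm_num) (by norm_num) (by norm_num) (by norm_num) (by norm_num) (by norm_num) (by norm_num) (by norm_num)
    (cube_sqrt_geJ (s := 0.7837) (by norm_num) (by norm_num) (by norm_num) (by norm_num))
    (cube_sqrt_geJ (s := 0.9264) (by norm_num) (by norm_num) (by norm_num) (by norm_num))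
    (by norm_num) (by norm_num) (by norm_num) (by norm_num) (by norm_num) (by norm_num) (by norm_num) (by norm_num) (by norm_num) (by norm_num) (by norm_num) (by norm_num) (by norm_num) (by norm_num) (by norm_num) (by norm_num) (by norm_num) (by norm_num)
    (exp_neg_leJ (r := 0.449) 7 (by norm_num) (by norm_num) (by norm_num) (by norm_num))
    (exp_neg_leJ (r := 0.576) 4 (by norm_num) (by norm_num) (by norm_num) (by norm_num))
    (exp_neg_leJ (r := 0.756) 10 (by norm_num) (by norm_num) (by norm_num) (by norm_num))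
    (exp_neg_leJ (r := 0.99) 14 (by norm_num) (by norm_num) (by norm_num) (by norm_num))
    (exp_neg_leJ (r := 0.509) 6 (by norm_num) (by norm_num) (by norm_num) (by norm_num))
    (exp_neg_leJ (r := 0.99) 14 (by norm_num) (by norm_num) (by norm_num) (by norm_num))
    (exp_neg_leJ (r := 0.99) 14 (by norm_num) (by norm_num) (by norm_num) (by norm_num))
    (exp_neg_leJ (r := 0.99) 14 (by norm_num) (by norm_num) (by norm_num) (by norm_num))
    (by norm_num)) (by norm_num) hN hβ.le (by norm_num)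

private theorem dl1b_b0_5 {β x y : ℝ} (hβ : 0 < β) (hN : β * 23.809 ≤ 1) (hx1 : 0.3712 ≤ x) (hx2 : x ≤ 0.5386)
    (hy1 : -0.308 ≤ y) (hy2 : y ≤ -0.19) : ‖HH β (x + y * I) - 1‖ ≤ 0.14 := by
  refine le_epsJ (C := 0.9111) (N0 := 23.809) (J_boxp 0.3712 0.5386 0.308 0 (-0.19) 0.7527 0.6205 0.9728 1.5104 0.3935 4.8795 23.809 0.8244 3.08 1.452 0.9286 0.3763 0.2729 0.6491 2.8039 0.367 1.0139 1.4758 3.7677 0.000129 0.001509 0.0000003101 0.0000003101 0.0001607 0.0000003101 0.0000003101 0.0000003101 0.9111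
    hβ hN hx1 hx2 hy1 hy2 (by norm_num) (by norm_num) (by linarith) (by norm_num) (by norm_num) (by norm_num) (by norm_num) (by norm_num) (by norm_num) (by norm_num) (by norm_num) (by norm_num) (by norm_num) (by norm_num) (by norm_num) (by norm_num) (by norm_num) (by norm_num) (by norm_num) (by norm_num) (by norm_num) (by norm_num) (by norm_num) (by norm_num)
    (cube_sqrt_geJ (s := 0.8515) (by norm_num) (by norm_num) (by norm_num) (by norm_num))
    (cube_sqrt_geJ (s := 0.9481) (by norm_num) (by norm_num) (by norm_num) (by norm_num))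
    (by norm_num) (by norm_num) (by norm_num) (by norm_num) (by norm_num) (by norm_num) (by norm_num) (by norm_num) (by norm_num) (by norm_num) (by norm_num) (by norm_num) (by norm_num) (by norm_num) (by norm_num) (by norm_num) (by norm_num) (by norm_num)
    (exp_neg_leJ (r := 0.959) 8 (by norm_num) (by norm_num) (by norm_num) (by norm_num))
    (exp_neg_leJ (r := 0.497) 6 (by norm_num) (by norm_num) (by norm_num) (by norm_num))
    (exp_neg_leJ (r := 0.99) 14 (by norm_num) (by norm_num) (by norm_num) (by norm_num))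
    (exp_neg_leJ (r := 0.99) 14 (by norm_num) (by norm_num) (by norm_num) (by norm_num))
    (exp_neg_leJ (r := 0.737) 8 (by norm_num) (by norm_num) (by norm_num) (by norm_num))
    (exp_neg_leJ (r := 0.99) 14 (by norm_num) (by norm_num) (by norm_num) (by norm_num))
    (exp_neg_leJ (r := 0.99) 14 (by norm_num) (by norm_num) (by norm_num) (by norm_num))
    (exp_neg_leJ (r := 0.99) 14 (by norm_num) (by norm_num) (by norm_num) (by norm_num))
    (by norm_num)) (by norm_num) hN hβ.le (by norm_num)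

private theorem dl1b_c0 {κ t β : ℝ} (h : DomR κ t) (hβ : 0 < β) (hk1 : 0.39 ≤ κ) (hk2 : κ ≤ 0.42)
    (ht1 : -0.8169 ≤ t + κ) (ht2 : t + κ ≤ -0.534) (hR0 : β * 10 ≤ κ) (hR : β * (3.3 * (1 + κ ^ 2)) ≤ κ) :
    ∀ s : ℂ, ‖s - sg κ t‖ ≤ 0.04 → ‖HH β s - 1‖ ≤ 0.14 := by
  have hN : β * 23.809 ≤ 1 := bNR hβ h.1 hk2 hR0 (by norm_num)
  have hy1 : -0.458 ≤ sy κ t := syL_ang2 h 0.39 0.42 0.8169 0.761 0.7241 0.6897 0.458 1.5809 0.63254 hk1 hk2 (by linarith) (by norm_num) (by norm_num) (by norm_num) (by norm_num)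
    (cos_ge_num (by norm_num) (by norm_num)) (sin_le_num (by norm_num) (by norm_num))
    (expn_ge (by norm_num) (by norm_num)) (expm_ge (by norm_num) (by norm_num) (by norm_num) (by norm_num)) (by norm_num) (by norm_num) (by norm_num)
    (by norm_num) (by norm_num) (by norm_num)
  have hy2 : sy κ t ≤ -0.23 := syL_le h 0.39 0.42 0.534 0.23 0.79453 0.79454 0.43509 0.46858 hk1 hk2 (by linarith) (by norm_num) (by norm_num) (by norm_num)
    (expm_ge (by norm_num) (by norm_num) (by norm_num) (by norm_num)) (expm_le (by norm_num) (by norm_num) (by norm_num)) (by norm_num)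
    (by norm_num) (by norm_num) (by norm_num) (by norm_num) (by norm_num) (by norm_num)
  intro s hs
  have hs' : ‖s - ((sx κ t : ℂ) + (sy κ t : ℂ) * I)‖ ≤ 0.04 := hs
  obtain ⟨es, ⟨s1, s2⟩, ⟨s3, s4⟩⟩ := disc_split hs'
  rcases le_total (sy κ t) (-0.453) with f0 | g0
  · have hx1 : 0.4081 ≤ sx κ t := sx_lo h 0.39 (-0.453) 0.458 1.57302 0.4081 hk1 (by norm_num) f0 (abs_le.2 ⟨by linarith, by linarith⟩) (by rw [neg_neg]; exact expn_ge (by norm_num) (by norm_num)) (by norm_num) (by norm_num)
    have hx2 : sx κ t ≤ 0.4855 := sx_hi h 0.42 (-0.458) 0.453 1.58091 0.4855 hk2 hy1 (by norm_num) (by rw [abs_of_nonpos (by linarith)]; linarith) (by rw [neg_neg]; exact expn_le (by norm_num) (by norm_num) (by norm_num)) (by norm_num) (by norm_num)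
    rw [es]
    exact dl1b_b0_0 hβ hN (by linarith) (by linarith) (by linarith) (by linarith)
  rcases le_total (sy κ t) (-0.443) with f1 | g1
  · have hx1 : 0.4045 ≤ sx κ t := sx_lo h 0.39 (-0.443) 0.453 1.55737 0.4045 hk1 (by norm_num) f1 (abs_le.2 ⟨by linarith, by linarith⟩) (by rw [neg_neg]; exact expn_ge (by norm_num) (by norm_num)) (by norm_num) (by norm_num)
    have hx2 : sx κ t ≤ 0.4902 := sx_hi h 0.42 (-0.453) 0.443 1.57303 0.4902 hk2 g0 (by norm_num) (by rw [abs_of_nonpos (by linarith)]; linarith) (by rw [neg_neg]; exact expn_le (by norm_num) (by norm_num) (by norm_num)) (by norm_num) (by norm_num)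
    rw [es]
    exact dl1b_b0_1 hβ hN (by linarith) (by linarith) (by linarith) (by linarith)
  rcases le_total (sy κ t) (-0.423) with f2 | g2
  · have hx1 : 0.3977 ≤ sx κ t := sx_lo h 0.39 (-0.423) 0.443 1.52653 0.3977 hk1 (by norm_num) f2 (abs_le.2 ⟨by linarith, by linarith⟩) (by rw [neg_neg]; exact expn_ge (by norm_num) (by norm_num)) (by norm_num) (by norm_num)
    have hx2 : sx κ t ≤ 0.499 := sx_hi h 0.42 (-0.443) 0.423 1.55738 0.499 hk2 g1 (by norm_num) (by rw [abs_of_nonpos (by linarith)]; linarith) (by rw [neg_neg]; exact expn_le (by norm_num) (by norm_num) (by norm_num)) (by norm_num) (by norm_num)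
    rw [es]
    exact dl1b_b0_2 hβ hN (by linarith) (by linarith) (by linarith) (by linarith)
  rcases le_total (sy κ t) (-0.378) with f3 | g3
  · have hx1 : 0.3807 ≤ sx κ t := sx_lo h 0.39 (-0.378) 0.423 1.45936 0.3807 hk1 (by norm_num) f3 (abs_le.2 ⟨by linarith, by linarith⟩) (by rw [neg_neg]; exact expn_ge (by norm_num) (by norm_num)) (by norm_num) (by norm_num)
    have hx2 : sx κ t ≤ 0.5179 := sx_hi h 0.42 (-0.423) 0.378 1.52654 0.5179 hk2 g2 (by norm_num) (by rw [abs_of_nonpos (by linarith)]; linarith) (by rw [neg_neg]; exact expn_le (by norm_num) (by norm_num) (by norm_num)) (by norm_num) (by norm_num)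
    rw [es]
    exact dl1b_b0_3 hβ hN (by linarith) (by linarith) (by linarith) (by linarith)
  rcases le_total (sy κ t) (-0.268) with f4 | g4
  · have hx1 : 0.3421 ≤ sx κ t := sx_lo h 0.39 (-0.268) 0.378 1.30734 0.3421 hk1 (by norm_num) f4 (abs_le.2 ⟨by linarith, by linarith⟩) (by rw [neg_neg]; exact expn_ge (by norm_num) (by norm_num)) (by norm_num) (by norm_num)
    have hx2 : sx κ t ≤ 0.5513 := sx_hi h 0.42 (-0.378) 0.268 1.45937 0.5513 hk2 g3 (by norm_num) (by rw [abs_of_nonpos (by linarith)]; linarith) (by rw [neg_neg]; exact expn_le (by norm_num) (by norm_num) (by norm_num)) (by norm_num) (by norm_num)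
    rw [es]
    exact dl1b_b0_4 hβ hN (by linarith) (by linarith) (by linarith) (by linarith)
  have hx1 : 0.4112 ≤ sx κ t := sx_lo h 0.39 (-0.23) 0.268 1.2586 0.4112 hk1 (by norm_num) hy2 (abs_le.2 ⟨by linarith, by linarith⟩) (by rw [neg_neg]; exact expn_ge (by norm_num) (by norm_num)) (by norm_num) (by norm_num)
  have hx2 : sx κ t ≤ 0.4986 := sx_hi h 0.42 (-0.268) 0.23 1.30735 0.4986 hk2 g4 (by norm_num) (by rw [abs_of_nonpos (by linarith)]; linarith) (by rw [neg_neg]; exact expn_le (by norm_num) (by norm_num) (by norm_num)) (by norm_num) (by norm_num)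
  rw [es]
  exact dl1b_b0_5 hβ hN (by linarith) (by linarith) (by linarith) (by linarith)

theorem dl1b {κ t β : ℝ} (h : DomR κ t) (hβ : 0 < β) (hk1 : 0.39 ≤ κ) (hk2 : κ ≤ 0.42)
    (ht1 : -0.8169 ≤ t + κ) (ht2 : t + κ ≤ -0.534) (hR0 : β * 10 ≤ κ) (hR : β * (3.3 * (1 + κ ^ 2)) ≤ κ) :
    ∀ s : ℂ, ‖s - sg κ t‖ ≤ 0.04 → ‖HH β s - 1‖ ≤ 0.14 := by
  exact dl1b_c0 h hβ hk1 hk2 ht1 ht2 hR0 hR

end Sok.B4
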