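import Pool.Agent.Lib.MP_816dec_an.R1B4T
import Pool.Agent.Lib.MP_816dec_an.R1B4Jc
import Pool.Agent.Lib.MP_816dec_an.R1B4Je
import Pool.Agent.Lib.MP_816dec_an.R1B4Jf

/-!
MP_816dec_an (A3, row R1, b = 4): slopes.
-/

set_option autoImplicit false
set_option maxHeartbeats 4000000

open Complex Set Filter Topology

namespace Sok.B4

private theorem hR33 {β κ : ℝ} (hβ : 0 < β) (hR0 : β * 10 ≤ κ) (hk0 : 0 < κ) (hk : κ ≤ 1) : β * (3.3 * (1 + κ ^ 2)) ≤ κ := by
  have h1 : 3.3 * (1 + κ ^ 2) ≤ 10 := by nlinarith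
  exact (mul_le_mul_of_nonneg_left h1 hβ.le).trans hR0

private theorem yl0 {κ t : ℝ} (h : DomR κ t) (hk1 : 0.3 ≤ κ) (hk2 : κ ≤ 0.36) (ht1 : (-0.8483) ≤ t + κ)
    (ht2 : t + κ ≤ (-0.534)) : -0.408 ≤ sy κ t ∧ sy κ t ≤ -0.178 := by
  have hy1 : -0.408 ≤ sy κ t := syL_ang2 h 0.3 0.36 0.8483 0.853 0.6577 0.7534 0.408 1.5038 0.66497 hk1 hk2 (by linarith) (by norm_num) (by norm_num) (by norm_num) (by norm_num)
    (cos_ge_num (by norm_num) (by norm_num)) (sin_le_num (by norm_num) (by norm_num))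
    (expn_ge (by norm_num) (by norm_num)) (expm_ge (by norm_num) (by norm_num) (by norm_num) (by norm_num)) (by norm_num) (by norm_num) (by norm_num)
    (by norm_num) (by norm_num) (by norm_num)
  have hy2 : sy κ t ≤ -0.178 := syL_le h 0.3 0.36 0.534 0.178 0.83694 0.83695 0.41382 0.4966 hk1 hk2 (by linarith) (by norm_num) (by norm_num) (by norm_num)
    (expm_ge (by norm_num) (by norm_num) (by norm_num) (by norm_num)) (expm_le (by norm_num) (by norm_num) (by norm_num)) (by norm_num)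
    (by norm_num) (by norm_num) (by norm_num) (by norm_num) (by norm_num) (by norm_num)
  exact ⟨hy1, hy2⟩

private theorem yr0 {κ t : ℝ} (h : DomR κ t) (hk1 : 0.3 ≤ κ) (hk2 : κ ≤ 0.36) (ht1 : 0.7225 ≤ t + κ)
    (ht2 : t + κ ≤ 1.0368) : 0.15 ≤ sy κ t ∧ sy κ t ≤ 0.224 := by
  have hy1 : 0.15 ≤ sy κ t := syR_ge h 0.3 0.36 0.7225 0.15 1.16183 1.16184 0.48409 0.58093 hk1 hk2 (by linarith) (by norm_num) (by norm_num)
    (expn_ge (by norm_num) (by norm_num)) (expn_le (by norm_num) (by norm_num) (by norm_num)) (by norm_num)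
    (by norm_num) (by norm_num) (by norm_num) (by norm_num) (by norm_num) (by norm_num)
  have hy2 : sy κ t ≤ 0.224 := syR_ang2 h 0.3 0.36 1.0368 0.891 0.6294 0.7778 0.224 0.79932 1.25107 hk1 hk2 (by linarith) (by norm_num) (by norm_num) (by norm_num)
    (cos_le_num (by norm_num)) (sin_le_num (by norm_num) (by norm_num)) (expm_le (by norm_num) (by norm_num) (by norm_num))
    (expn_ge (by norm_num) (by norm_num)) (by norm_num) (by norm_num) (by norm_num) (by norm_num) (by norm_num)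
  exact ⟨hy1, hy2⟩

private theorem mm0 {κ t : ℝ} (d1 : DomR κ t) (d0 : DomR κ (t - Real.pi / 2)) (hk1 : 0.3 ≤ κ) (hk2 : κ ≤ 0.36)
    (ht1 : 0.7225 ≤ t + κ) (ht2 : t + κ ≤ 1.0368) : 1.0446 ≤ sp κ t - sp κ (t - Real.pi / 2) := by
  have hpi := Real.pi_gt_d6
  have hpi2 := Real.pi_lt_d6
  have hχ := chi_box (κ := κ) 0.36 0.3 0.36 0.8099 d1.1.le hk1 hk2 (by norm_num) (by norm_num) (by norm_num) (by norm_num) (by norm_num)
  have hμ := mu_box (κ := κ) 0.1177 0.3 0.36 0.0919 hk1 hk2 (by norm_num) (by norm_num) (by norm_num) (by norm_num) (by norm_num) (by norm_num)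
  rcases le_total (t + κ) 0.828 with f0 | g0
  · refine M_piece (κ := κ) (t := t) 0.36 0.712 0.899 0.7225 0.828 1.0446 d1.1.le hk2 ?_ ?_ (by linarith) (by linarith) (by norm_num) (by norm_num) (by norm_num) (by norm_num)
    · exact spR_ge_box d1 0.712 0.3 (0.36 / (1 + 0.36 ^ 2)) 0.8099 0.0919 0.828 _ _ _ (by linarith) (by linarith) hk1 (psi_lo d1.1.le hk2 (by norm_num)) hχ hμ (by norm_num) (by norm_num) (by norm_num)
        rfl (by norm_num) rfl rfl (by norm_num) (by norm_num)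
    · exact spL_ge_box d0 0.899 0.3 0.36 (0.36 / (1 + 0.36 ^ 2)) 0.8483 _ _ (by linarith) (by linarith) hk1 hk2 (psi_lo d0.1.le hk2 (by norm_num)) (by norm_num) (by norm_num)
        rfl (by norm_num) rfl (by norm_num) (by norm_num) (by norm_num)
  rcases le_total (t + κ) 0.933 with f1 | g1
  · refine M_piece (κ := κ) (t := t) 0.36 0.681 0.921 0.827 0.933 1.0446 d1.1.le hk2 ?_ ?_ (by linarith) (by linarith) (by norm_num) (by norm_num) (by norm_num) (by norm_num)
    · exact spR_ge_box d1 0.681 0.3 (0.36 / (1 + 0.36 ^ 2)) 0.8099 0.0919 0.933 _ _ _ (by linarith) (by linarith) hk1 (psi_lo d1.1.le hk2 (by norm_num)) hχ hμ (by norm_num) (by norm_num) (by norm_num)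
        rfl (by norm_num) rfl rfl (by norm_num) (by norm_num)
    · exact spL_ge_box d0 0.921 0.3 0.36 (0.36 / (1 + 0.36 ^ 2)) 0.7438 _ _ (by linarith) (by linarith) hk1 hk2 (psi_lo d0.1.le hk2 (by norm_num)) (by norm_num) (by norm_num)
        rfl (by norm_num) rfl (by norm_num) (by norm_num) (by norm_num)
  refine M_piece (κ := κ) (t := t) 0.36 0.653 0.942 0.932 1.0368 1.0446 d1.1.le hk2 ?_ ?_ (by linarith) (by linarith) (by norm_num) (by norm_num) (by norm_num) (by norm_num)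
  · exact spR_ge_box d1 0.653 0.3 (0.36 / (1 + 0.36 ^ 2)) 0.8099 0.0919 1.0368 _ _ _ (by linarith) (by linarith) hk1 (psi_lo d1.1.le hk2 (by norm_num)) hχ hμ (by norm_num) (by norm_num) (by norm_num)
      rfl (by norm_num) rfl rfl (by norm_num) (by norm_num)
  · exact spL_ge_box d0 0.942 0.3 0.36 (0.36 / (1 + 0.36 ^ 2)) 0.6388 _ _ (by linarith) (by linarith) hk1 hk2 (psi_lo d0.1.le hk2 (by norm_num)) (by norm_num) (by norm_num)
      rfl (by norm_num) rfl (by norm_num) (by norm_num) (by norm_num)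

theorem slp0 {β r κ t : ℝ} (hβ : 0 < β) (hr : 10 ≤ r) (hκ : κ = β * r) (hk1 : 0.3 ≤ κ) (hk2 : κ ≤ 0.36)
    (ht1 : 0.46 * (Real.pi / 2) ≤ t + κ) (ht2 : t + κ ≤ 0.66 * (Real.pi / 2)) : SL β r 2.0656 0.8884 0.3847 t := by
  have hpi := Real.pi_gt_d6
  have hpi2 := Real.pi_lt_d6
  have he1 := Real.exp_neg_one_lt_d9
  have hR0 : β * 10 ≤ κ := by rw [hκ]; exact mul_le_mul_of_nonneg_left hr hβ.le
  have hk0 : 0 < κ := by linarith
  have d1 : DomR κ t := ⟨hk0, by linarith, Or.inr (by linarith)⟩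
  have d0 : DomR κ (t - Real.pi / 2) := ⟨hk0, by linarith, Or.inr (by linarith)⟩
  have a1 : 0.7225 ≤ t + κ := by linarith
  have a2 : t + κ ≤ 1.0368 := by linarith
  have b1 : (-0.8483) ≤ t - Real.pi / 2 + κ := by linarith
  have b2 : t - Real.pi / 2 + κ ≤ (-0.534) := by linarith
  have hR := hR33 hβ hR0 hk0 (by linarith)
  have Jl := dl0 d0 hβ (by linarith) (by linarith) (by linarith) (by linarith) hR0 hR
  have Jr := dr0 d1 hβ (by linarith) (by linarith) (by linarith) (by linarith) hR0 hR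
  obtain ⟨y1, y2⟩ := yl0 d0 hk1 hk2 b1 b2
  obtain ⟨z1, z2⟩ := yr0 d1 hk1 hk2 a1 a2
  have hM := mm0 d1 d0 hk1 hk2 a1 a2
  have hE0 : Real.exp (-(-0.408)) ≤ 1.50381 := by rw [neg_neg]; exact (expn_le (by norm_num) (by norm_num) (by norm_num))
  have hEr : Real.exp (-0.15) ≤ 0.86071 := (expm_le (by norm_num) (by norm_num) (by norm_num))
  have hA0 := A_lt d0 0.36 (-0.408) 1.50381 0.784 hk2 y1 hE0 (by norm_num) (by norm_num) (by norm_num)
  have hA1 := A_lt d1 0.36 0.15 0.86071 0.263 hk2 z1 hEr (by norm_num) (by norm_num) (by norm_num)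
  have hd0 : 0.3774 ≤ sD κ (t - Real.pi / 2) := sD_ge3 d0 0.3 0.36 0.408 _ hk1 hk2 (by linarith) y1 (by norm_num) (by norm_num) (by norm_num) (by norm_num)
  have hd1 : 1.09 ≤ sD κ t := sD_geR d1 0.3 _ hk1 (by linarith) (by linarith) (by norm_num) (by norm_num)
  have F0 := LD_facts (t := t - Real.pi / 2) 0.04 0.2 0.784 6.2501 0.7173 (-0.408) 1.50381 2.0656 hβ hr hκ d0 (fun s hs => ⟨im_gt hs y1 (by norm_num), Jl s hs⟩) hA0 y1 hE0
    (C_of 0.36 1.50381 0.7173 0.3774 hk2 (by norm_num) hd0 (by norm_num) (by norm_num)) (by norm_num) (by norm_num) (by norm_num) (by norm_num) (by norm_num) (by norm_num) (by norm_num)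
  have z0 : -0 ≤ sy κ t := by linarith
  have F1 := LD_facts (t := t) 0.04 0.02 0.263 0.5103 0.1422 0.15 0.86071 0.8884 hβ hr hκ d1 (fun s hs => ⟨im_gt hs z0 (by norm_num), Jr s hs⟩) hA1 z1 hEr
    (C_of 0.36 0.86071 0.1422 1.09 hk2 (by norm_num) hd1 (by norm_num) (by norm_num)) (by norm_num) (by norm_num) (by norm_num) (by norm_num) (by norm_num) (by norm_num) (by norm_num)
  have hEl : 1.19482 ≤ Real.exp (-(-0.178)) := by rw [neg_neg]; exact (expn_ge (by norm_num) (by norm_num))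
  have hN := N_ge (κ := κ) (t := t - Real.pi / 2) 0.3 (-0.178) 1.19482 0.12848 (by norm_num) hk1 y2 hEl (by norm_num) (by norm_num)
  have hx0 : sx κ (t - Real.pi / 2) ≤ 0.5113 := sx_hi d0 0.36 (-0.408) 0.178 1.50381 _ hk2 y1 (by norm_num) (by rw [abs_of_nonpos (by linarith)]; linarith) hE0 (by norm_num) (by norm_num)
  have hG0 := gs_le d0 0.12848 0.5113 0.3774 1.5643 hN (by norm_num) hx0 hd0 (by norm_num) (by norm_num) (by norm_num)
  have hG1 : (0 : ℝ) ≤ gs κ t := gs_nonneg d1 (by linarith) (by linarith)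
  exact SL_of (κ := κ) 4.9001 0.1343 1.5643 0 1.0446 2.0656 0.8884 0.3847 hr ⟨F0.1, F0.2.1, F0.2.2.trans (by norm_num)⟩ ⟨F1.1, F1.2.1, F1.2.2.trans (by norm_num)⟩ hG0 hG1 hM
    (by norm_num) (by norm_num)

private theorem yl1 {κ t : ℝ} (h : DomR κ t) (hk1 : 0.36 ≤ κ) (hk2 : κ ≤ 0.39) (ht1 : (-0.8169) ≤ t + κ)
    (ht2 : t + κ ≤ (-0.534)) : -0.424 ≤ sy κ t ∧ sy κ t ≤ -0.213 := by
  have hy1 : -0.424 ≤ sy κ t := syL_ang2 h 0.36 0.39 0.8169 0.791 0.7031 0.7111 0.424 1.52806 0.65442 hk1 hk2 (by linarith) (by norm_num) (by norm_num) (by norm_num) (by norm_num)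
    (cos_ge_num (by norm_num) (by norm_num)) (sin_le_num (by norm_num) (by norm_num))
    (expn_ge (by norm_num) (by norm_num)) (expm_ge (by norm_num) (by norm_num) (by norm_num) (by norm_num)) (by norm_num) (by norm_num) (by norm_num)
    (by norm_num) (by norm_num) (by norm_num)
  have hy2 : sy κ t ≤ -0.213 := syL_le h 0.36 0.39 0.534 0.213 0.80815 0.80816 0.44137 0.47817 hk1 hk2 (by linarith) (by norm_num) (by norm_num) (by norm_num)
    (expm_ge (by norm_num) (by norm_num) (by norm_num) (by norm_num)) (expm_le (by norm_num) (by norm_num) (by norm_num)) (by norm_num)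
    (by norm_num) (by norm_num) (by norm_num) (by norm_num) (by norm_num) (by norm_num)
  exact ⟨hy1, hy2⟩

private theorem yr1 {κ t : ℝ} (h : DomR κ t) (hk1 : 0.36 ≤ κ) (hk2 : κ ≤ 0.39) (ht1 : 0.7539 ≤ t + κ)
    (ht2 : t + κ ≤ 1.0368) : 0.177 ≤ sy κ t ∧ sy κ t ≤ 0.235 := by
  have hy1 : 0.177 ≤ sy κ t := syR_ge h 0.36 0.39 0.7539 0.177 1.19363 1.19364 0.54172 0.58688 hk1 hk2 (by linarith) (by norm_num) (by norm_num)
    (expn_ge (by norm_num) (by norm_num)) (expn_le (by norm_num) (by norm_num) (by norm_num)) (by norm_num)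
    (by norm_num) (by norm_num) (by norm_num) (by norm_num) (by norm_num) (by norm_num)
  have hy2 : sy κ t ≤ 0.235 := syR_ang2 h 0.36 0.39 1.0368 0.866 0.6485 0.7619 0.235 0.79058 1.2649 hk1 hk2 (by linarith) (by norm_num) (by norm_num) (by norm_num)
    (cos_le_num (by norm_num)) (sin_le_num (by norm_num) (by norm_num)) (expm_le (by norm_num) (by norm_num) (by norm_num))
    (expn_ge (by norm_num) (by norm_num)) (by norm_num) (by norm_num) (by norm_num) (by norm_num) (by norm_num)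
  exact ⟨hy1, hy2⟩

private theorem mm1 {κ t : ℝ} (d1 : DomR κ t) (d0 : DomR κ (t - Real.pi / 2)) (hk1 : 0.36 ≤ κ) (hk2 : κ ≤ 0.39)
    (ht1 : 0.7539 ≤ t + κ) (ht2 : t + κ ≤ 1.0368) : 1.0275 ≤ sp κ t - sp κ (t - Real.pi / 2) := by
  have hpi := Real.pi_gt_d6
  have hpi2 := Real.pi_lt_d6
  have hχ := chi_box (κ := κ) 0.39 0.36 0.39 0.8368 d1.1.le hk1 hk2 (by norm_num) (by norm_num) (by norm_num) (by norm_num) (by norm_num)
  have hμ := mu_box (κ := κ) 0.1453 0.36 0.39 0.102 hk1 hk2 (by norm_num) (by norm_num) (by norm_num) (by norm_num) (by norm_num) (by norm_num)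
  rcases le_total (t + κ) 0.849 with f0 | g0
  · refine M_piece (κ := κ) (t := t) 0.39 0.705 0.914 0.7539 0.849 1.0275 d1.1.le hk2 ?_ ?_ (by linarith) (by linarith) (by norm_num) (by norm_num) (by norm_num) (by norm_num)
    · exact spR_ge_box d1 0.705 0.36 (0.39 / (1 + 0.39 ^ 2)) 0.8368 0.102 0.849 _ _ _ (by linarith) (by linarith) hk1 (psi_lo d1.1.le hk2 (by norm_num)) hχ hμ (by norm_num) (by norm_num) (by norm_num)
        rfl (by norm_num) rfl rfl (by norm_num) (by norm_num)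
    · exact spL_ge_box d0 0.914 0.36 0.39 (0.39 / (1 + 0.39 ^ 2)) 0.8169 _ _ (by linarith) (by linarith) hk1 hk2 (psi_lo d0.1.le hk2 (by norm_num)) (by norm_num) (by norm_num)
        rfl (by norm_num) rfl (by norm_num) (by norm_num) (by norm_num)
  rcases le_total (t + κ) 0.943 with f1 | g1
  · refine M_piece (κ := κ) (t := t) 0.39 0.678 0.933 0.848 0.943 1.0275 d1.1.le hk2 ?_ ?_ (by linarith) (by linarith) (by norm_num) (by norm_num) (by norm_num) (by norm_num)
    · exact spR_ge_box d1 0.678 0.36 (0.39 / (1 + 0.39 ^ 2)) 0.8368 0.102 0.943 _ _ _ (by linarith) (by linarith) hk1 (psi_lo d1.1.le hk2 (by norm_num)) hχ hμ (by norm_num) (by norm_num) (by norm_num)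
        rfl (by norm_num) rfl rfl (by norm_num) (by norm_num)
    · exact spL_ge_box d0 0.933 0.36 0.39 (0.39 / (1 + 0.39 ^ 2)) 0.7228 _ _ (by linarith) (by linarith) hk1 hk2 (psi_lo d0.1.le hk2 (by norm_num)) (by norm_num) (by norm_num)
        rfl (by norm_num) rfl (by norm_num) (by norm_num) (by norm_num)
  refine M_piece (κ := κ) (t := t) 0.39 0.653 0.949 0.942 1.0368 1.0275 d1.1.le hk2 ?_ ?_ (by linarith) (by linarith) (by norm_num) (by norm_num) (by norm_num) (by norm_num)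
  · exact spR_ge_box d1 0.653 0.36 (0.39 / (1 + 0.39 ^ 2)) 0.8368 0.102 1.0368 _ _ _ (by linarith) (by linarith) hk1 (psi_lo d1.1.le hk2 (by norm_num)) hχ hμ (by norm_num) (by norm_num) (by norm_num)
      rfl (by norm_num) rfl rfl (by norm_num) (by norm_num)
  · exact spL_ge_box d0 0.949 0.36 0.39 (0.39 / (1 + 0.39 ^ 2)) 0.6288 _ _ (by linarith) (by linarith) hk1 hk2 (psi_lo d0.1.le hk2 (by norm_num)) (by norm_num) (by norm_num)
      rfl (by norm_num) rfl (by norm_num) (by norm_num) (by norm_num)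

theorem slp1 {β r κ t : ℝ} (hβ : 0 < β) (hr : 10 ≤ r) (hκ : κ = β * r) (hk1 : 0.36 ≤ κ) (hk2 : κ ≤ 0.39)
    (ht1 : 0.48 * (Real.pi / 2) ≤ t + κ) (ht2 : t + κ ≤ 0.66 * (Real.pi / 2)) : SL β r 1.8463 0.8811 0.6322 t := by
  have hpi := Real.pi_gt_d6
  have hpi2 := Real.pi_lt_d6
  have he1 := Real.exp_neg_one_lt_d9
  have hR0 : β * 10 ≤ κ := by rw [hκ]; exact mul_le_mul_of_nonneg_left hr hβ.le
  have hk0 : 0 < κ := by linarith
  have d1 : DomR κ t := ⟨hk0, by linarith, Or.inr (by linarith)⟩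
  have d0 : DomR κ (t - Real.pi / 2) := ⟨hk0, by linarith, Or.inr (by linarith)⟩
  have a1 : 0.7539 ≤ t + κ := by linarith
  have a2 : t + κ ≤ 1.0368 := by linarith
  have b1 : (-0.8169) ≤ t - Real.pi / 2 + κ := by linarith
  have b2 : t - Real.pi / 2 + κ ≤ (-0.534) := by linarith
  have hR := hR33 hβ hR0 hk0 (by linarith)
  have Jl := dl1a d0 hβ (by linarith) (by linarith) (by linarith) (by linarith) hR0 hR
  have Jr := dr1 d1 hβ (by linarith) (by linarith) (by linarith) (by linarith) hR0 hR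
  obtain ⟨y1, y2⟩ := yl1 d0 hk1 hk2 b1 b2
  obtain ⟨z1, z2⟩ := yr1 d1 hk1 hk2 a1 a2
  have hM := mm1 d1 d0 hk1 hk2 a1 a2
  have hE0 : Real.exp (-(-0.424)) ≤ 1.52807 := by rw [neg_neg]; exact (expn_le (by norm_num) (by norm_num) (by norm_num))
  have hEr : Real.exp (-0.177) ≤ 0.83778 := (expm_le (by norm_num) (by norm_num) (by norm_num))
  have hA0 := A_lt d0 0.39 (-0.424) 1.52807 0.837 hk2 y1 hE0 (by norm_num) (by norm_num) (by norm_num)
  have hA1 := A_lt d1 0.39 0.177 0.83778 0.271 hk2 z1 hEr (by norm_num) (by norm_num) (by norm_num)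
  have hd0 : 0.438 ≤ sD κ (t - Real.pi / 2) := sD_ge3 d0 0.36 0.39 0.424 _ hk1 hk2 (by linarith) y1 (by norm_num) (by norm_num) (by norm_num) (by norm_num)
  have hd1 : 1.1296 ≤ sD κ t := sD_geR d1 0.36 _ hk1 (by linarith) (by linarith) (by norm_num) (by norm_num)
  have F0 := LD_facts (t := t - Real.pi / 2) 0.05 0.13 0.837 2.9886 0.6804 (-0.424) 1.52807 1.8463 hβ hr hκ d0 (fun s hs => ⟨im_gt hs y1 (by norm_num), Jl s hs⟩) hA0 y1 hE0
    (C_of 0.39 1.52807 0.6804 0.438 hk2 (by norm_num) hd0 (by norm_num) (by norm_num)) (by norm_num) (by norm_num) (by norm_num) (by norm_num) (by norm_num) (by norm_num) (by norm_num)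
  have z0 : -0 ≤ sy κ t := by linarith
  have F1 := LD_facts (t := t) 0.06 0.06 0.271 1.0639 0.1447 0.177 0.83778 0.8811 hβ hr hκ d1 (fun s hs => ⟨im_gt hs z0 (by norm_num), Jr s hs⟩) hA1 z1 hEr
    (C_of 0.39 0.83778 0.1447 1.1296 hk2 (by norm_num) hd1 (by norm_num) (by norm_num)) (by norm_num) (by norm_num) (by norm_num) (by norm_num) (by norm_num) (by norm_num) (by norm_num)
  have hEl : 1.23738 ≤ Real.exp (-(-0.213)) := by rw [neg_neg]; exact (expn_ge (by norm_num) (by norm_num))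
  have hN := N_ge (κ := κ) (t := t - Real.pi / 2) 0.36 (-0.213) 1.23738 0.19843 (by norm_num) hk1 y2 hEl (by norm_num) (by norm_num)
  have hx0 : sx κ (t - Real.pi / 2) ≤ 0.5566 := sx_hi d0 0.39 (-0.424) 0.213 1.52807 _ hk2 y1 (by norm_num) (by rw [abs_of_nonpos (by linarith)]; linarith) hE0 (by norm_num) (by norm_num)
  have hG0 := gs_le d0 0.19843 0.5566 0.438 1.1629 hN (by norm_num) hx0 hd0 (by norm_num) (by norm_num) (by norm_num)
  have hG1 : (0 : ℝ) ≤ gs κ t := gs_nonneg d1 (by linarith) (by linarith)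
  exact SL_of (κ := κ) 2.5015 0.2884 1.1629 0 1.0275 1.8463 0.8811 0.6322 hr ⟨F0.1, F0.2.1, F0.2.2.trans (by norm_num)⟩ ⟨F1.1, F1.2.1, F1.2.2.trans (by norm_num)⟩ hG0 hG1 hM
    (by norm_num) (by norm_num)

private theorem yl2 {κ t : ℝ} (h : DomR κ t) (hk1 : 0.39 ≤ κ) (hk2 : κ ≤ 0.42) (ht1 : (-0.8169) ≤ t + κ)
    (ht2 : t + κ ≤ (-0.534)) : -0.458 ≤ sy κ t ∧ sy κ t ≤ -0.23 := by
  have hy1 : -0.458 ≤ sy κ t := syL_ang2 h 0.39 0.42 0.8169 0.761 0.7241 0.6897 0.458 1.5809 0.63254 hk1 hk2 (by linarith) (by norm_num) (by norm_num) (by norm_num) (by norm_num)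
    (cos_ge_num (by norm_num) (by norm_num)) (sin_le_num (by norm_num) (by norm_num))
    (expn_ge (by norm_num) (by norm_num)) (expm_ge (by norm_num) (by norm_num) (by norm_num) (by norm_num)) (by norm_num) (by norm_num) (by norm_num)
    (by norm_num) (by norm_num) (by norm_num)
  have hy2 : sy κ t ≤ -0.23 := syL_le h 0.39 0.42 0.534 0.23 0.79453 0.79454 0.43509 0.46858 hk1 hk2 (by linarith) (by norm_num) (by norm_num) (by norm_num)
    (expm_ge (by norm_num) (by norm_num) (by norm_num) (by norm_num)) (expm_le (by norm_num) (by norm_num) (by norm_num)) (by norm_num)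
    (by norm_num) (by norm_num) (by norm_num) (by norm_num) (by norm_num) (by norm_num)
  exact ⟨hy1, hy2⟩

private theorem yr2 {κ t : ℝ} (h : DomR κ t) (hk1 : 0.39 ≤ κ) (hk2 : κ ≤ 0.42) (ht1 : 0.7539 ≤ t + κ)
    (ht2 : t + κ ≤ 1.0368) : 0.187 ≤ sy κ t ∧ sy κ t ≤ 0.247 := by
  have hy1 : 0.187 ≤ sy κ t := syR_ge h 0.39 0.42 0.7539 0.187 1.20562 1.20563 0.53678 0.57809 hk1 hk2 (by linarith) (by norm_num) (by norm_num)
    (expn_ge (by norm_num) (by norm_num)) (expn_le (by norm_num) (by norm_num) (by norm_num)) (by norm_num)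
    (by norm_num) (by norm_num) (by norm_num) (by norm_num) (by norm_num) (by norm_num)
  have hy2 : sy κ t ≤ 0.247 := syR_ang2 h 0.39 0.42 1.0368 0.852 0.6591 0.7527 0.247 0.78115 1.28017 hk1 hk2 (by linarith) (by norm_num) (by norm_num) (by norm_num)
    (cos_le_num (by norm_num)) (sin_le_num (by norm_num) (by norm_num)) (expm_le (by norm_num) (by norm_num) (by norm_num))
    (expn_ge (by norm_num) (by norm_num)) (by norm_num) (by norm_num) (by norm_num) (by norm_num) (by norm_num)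
  exact ⟨hy1, hy2⟩

private theorem mm2 {κ t : ℝ} (d1 : DomR κ t) (d0 : DomR κ (t - Real.pi / 2)) (hk1 : 0.39 ≤ κ) (hk2 : κ ≤ 0.42)
    (ht1 : 0.7539 ≤ t + κ) (ht2 : t + κ ≤ 1.0368) : 1.0058 ≤ sp κ t - sp κ (t - Real.pi / 2) := by
  have hpi := Real.pi_gt_d6
  have hpi2 := Real.pi_lt_d6
  have hχ := chi_box (κ := κ) 0.4169 0.39 0.42 0.857 d1.1.le hk1 hk2 (by norm_num) (by norm_num) (by norm_num) (by norm_num) (by norm_num)
  have hμ := mu_box (κ := κ) 0.1618 0.39 0.42 0.1116 hk1 hk2 (by norm_num) (by norm_num) (by norm_num) (by norm_num) (by norm_num) (by norm_num)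
  rcases le_total (t + κ) 0.849 with f0 | g0
  · refine M_piece (κ := κ) (t := t) 0.42 0.702 0.919 0.7539 0.849 1.0058 d1.1.le hk2 ?_ ?_ (by linarith) (by linarith) (by norm_num) (by norm_num) (by norm_num) (by norm_num)
    · exact spR_ge_box d1 0.702 0.39 (0.42 / (1 + 0.42 ^ 2)) 0.857 0.1116 0.849 _ _ _ (by linarith) (by linarith) hk1 (psi_lo d1.1.le hk2 (by norm_num)) hχ hμ (by norm_num) (by norm_num) (by norm_num)
        rfl (by norm_num) rfl rfl (by norm_num) (by norm_num)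
    · exact spL_ge_box d0 0.919 0.39 0.42 (0.42 / (1 + 0.42 ^ 2)) 0.8169 _ _ (by linarith) (by linarith) hk1 hk2 (psi_lo d0.1.le hk2 (by norm_num)) (by norm_num) (by norm_num)
        rfl (by norm_num) rfl (by norm_num) (by norm_num) (by norm_num)
  rcases le_total (t + κ) 0.943 with f1 | g1
  · refine M_piece (κ := κ) (t := t) 0.42 0.676 0.936 0.848 0.943 1.0058 d1.1.le hk2 ?_ ?_ (by linarith) (by linarith) (by norm_num) (by norm_num) (by norm_num) (by norm_num)
    · exact spR_ge_box d1 0.676 0.39 (0.42 / (1 + 0.42 ^ 2)) 0.857 0.1116 0.943 _ _ _ (by linarith) (by linarith) hk1 (psi_lo d1.1.le hk2 (by norm_num)) hχ hμ (by norm_num) (by norm_num) (by norm_num)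
        rfl (by norm_num) rfl rfl (by norm_num) (by norm_num)
    · exact spL_ge_box d0 0.936 0.39 0.42 (0.42 / (1 + 0.42 ^ 2)) 0.7228 _ _ (by linarith) (by linarith) hk1 hk2 (psi_lo d0.1.le hk2 (by norm_num)) (by norm_num) (by norm_num)
        rfl (by norm_num) rfl (by norm_num) (by norm_num) (by norm_num)
  refine M_piece (κ := κ) (t := t) 0.42 0.651 0.952 0.942 1.0368 1.0058 d1.1.le hk2 ?_ ?_ (by linarith) (by linarith) (by norm_num) (by norm_num) (by norm_num) (by norm_num)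
  · exact spR_ge_box d1 0.651 0.39 (0.42 / (1 + 0.42 ^ 2)) 0.857 0.1116 1.0368 _ _ _ (by linarith) (by linarith) hk1 (psi_lo d1.1.le hk2 (by norm_num)) hχ hμ (by norm_num) (by norm_num) (by norm_num)
      rfl (by norm_num) rfl rfl (by norm_num) (by norm_num)
  · exact spL_ge_box d0 0.952 0.39 0.42 (0.42 / (1 + 0.42 ^ 2)) 0.6288 _ _ (by linarith) (by linarith) hk1 hk2 (psi_lo d0.1.le hk2 (by norm_num)) (by norm_num) (by norm_num)
      rfl (by norm_num) rfl (by norm_num) (by norm_num) (by norm_num)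

theorem slp2 {β r κ t : ℝ} (hβ : 0 < β) (hr : 10 ≤ r) (hκ : κ = β * r) (hk1 : 0.39 ≤ κ) (hk2 : κ ≤ 0.42)
    (ht1 : 0.48 * (Real.pi / 2) ≤ t + κ) (ht2 : t + κ ≤ 0.66 * (Real.pi / 2)) : SL β r 2.0298 0.875 0.4796 t := by
  have hpi := Real.pi_gt_d6
  have hpi2 := Real.pi_lt_d6
  have he1 := Real.exp_neg_one_lt_d9
  have hR0 : β * 10 ≤ κ := by rw [hκ]; exact mul_le_mul_of_nonneg_left hr hβ.le
  have hk0 : 0 < κ := by linarith
  have d1 : DomR κ t := ⟨hk0, by linarith, Or.inr (by linarith)⟩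
  have d0 : DomR κ (t - Real.pi / 2) := ⟨hk0, by linarith, Or.inr (by linarith)⟩
  have a1 : 0.7539 ≤ t + κ := by linarith
  have a2 : t + κ ≤ 1.0368 := by linarith
  have b1 : (-0.8169) ≤ t - Real.pi / 2 + κ := by linarith
  have b2 : t - Real.pi / 2 + κ ≤ (-0.534) := by linarith
  have hR := hR33 hβ hR0 hk0 (by linarith)
  have Jl := dl1b d0 hβ (by linarith) (by linarith) (by linarith) (by linarith) hR0 hR
  have Jr := dr1 d1 hβ (by linarith) (by linarith) (by linarith) (by linarith) hR0 hR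
  obtain ⟨y1, y2⟩ := yl2 d0 hk1 hk2 b1 b2
  obtain ⟨z1, z2⟩ := yr2 d1 hk1 hk2 a1 a2
  have hM := mm2 d1 d0 hk1 hk2 a1 a2
  have hE0 : Real.exp (-(-0.458)) ≤ 1.58091 := by rw [neg_neg]; exact (expn_le (by norm_num) (by norm_num) (by norm_num))
  have hEr : Real.exp (-0.187) ≤ 0.82945 := (expm_le (by norm_num) (by norm_num) (by norm_num))
  have hA0 := A_lt d0 0.42 (-0.458) 1.58091 0.917 hk2 y1 hE0 (by norm_num) (by norm_num) (by norm_num)
  have hA1 := A_lt d1 0.42 0.187 0.82945 0.285 hk2 z1 hEr (by norm_num) (by norm_num) (by norm_num)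
  have hd0 : 0.4392 ≤ sD κ (t - Real.pi / 2) := sD_ge3 d0 0.39 0.42 0.458 _ hk1 hk2 (by linarith) y1 (by norm_num) (by norm_num) (by norm_num) (by norm_num)
  have hd1 : 1.1521 ≤ sD κ t := sD_geR d1 0.39 _ hk1 (by linarith) (by linarith) (by norm_num) (by norm_num)
  have F0 := LD_facts (t := t - Real.pi / 2) 0.04 0.14 0.917 4.0698 0.7559 (-0.458) 1.58091 2.0298 hβ hr hκ d0 (fun s hs => ⟨im_gt hs y1 (by norm_num), Jl s hs⟩) hA0 y1 hE0
    (C_of 0.42 1.58091 0.7559 0.4392 hk2 (by norm_num) hd0 (by norm_num) (by norm_num)) (by norm_num) (by norm_num) (by norm_num) (by norm_num) (by norm_num) (by norm_num) (by norm_num)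
  have z0 : -0 ≤ sy κ t := by linarith
  have F1 := LD_facts (t := t) 0.06 0.06 0.285 1.0639 0.1512 0.187 0.82945 0.875 hβ hr hκ d1 (fun s hs => ⟨im_gt hs z0 (by norm_num), Jr s hs⟩) hA1 z1 hEr
    (C_of 0.42 0.82945 0.1512 1.1521 hk2 (by norm_num) hd1 (by norm_num) (by norm_num)) (by norm_num) (by norm_num) (by norm_num) (by norm_num) (by norm_num) (by norm_num) (by norm_num)
  have hEl : 1.2586 ≤ Real.exp (-(-0.23)) := by rw [neg_neg]; exact (expn_ge (by norm_num) (by norm_num))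
  have hN := N_ge (κ := κ) (t := t - Real.pi / 2) 0.39 (-0.23) 1.2586 0.24093 (by norm_num) hk1 y2 hEl (by norm_num) (by norm_num)
  have hx0 : sx κ (t - Real.pi / 2) ≤ 0.6229 := sx_hi d0 0.42 (-0.458) 0.23 1.58091 _ hk2 y1 (by norm_num) (by rw [abs_of_nonpos (by linarith)]; linarith) hE0 (by norm_num) (by norm_num)
  have hG0 := gs_le d0 0.24093 0.6229 0.4392 1.2256 hN (by norm_num) hx0 hd0 (by norm_num) (by norm_num) (by norm_num)
  have hG1 : (0 : ℝ) ≤ gs κ t := gs_nonneg d1 (by linarith) (by linarith)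
  exact SL_of (κ := κ) 3.7321 0.3033 1.2256 0 1.0058 2.0298 0.875 0.4796 hr ⟨F0.1, F0.2.1, F0.2.2.trans (by norm_num)⟩ ⟨F1.1, F1.2.1, F1.2.2.trans (by norm_num)⟩ hG0 hG1 hM
    (by norm_num) (by norm_num)

private theorem yl3 {κ t : ℝ} (h : DomR κ t) (hk1 : 0.42 ≤ κ) (hk2 : κ ≤ 0.465) (ht1 : (-0.8012) ≤ t + κ)
    (ht2 : t + κ ≤ (-0.534)) : -0.487 ≤ sy κ t ∧ sy κ t ≤ -0.245 := by
  have hy1 : -0.487 ≤ sy κ t := syL_ang2 h 0.42 0.465 0.8012 0.699 0.7654 0.6435 0.487 1.62742 0.61446 hk1 hk2 (by linarith) (by norm_num) (by norm_num) (by norm_num) (by norm_num)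
    (cos_ge_num (by norm_num) (by norm_num)) (sin_le_num (by norm_num) (by norm_num))
    (expn_ge (by norm_num) (by norm_num)) (expm_ge (by norm_num) (by norm_num) (by norm_num) (by norm_num)) (by norm_num) (by norm_num) (by norm_num)
    (by norm_num) (by norm_num) (by norm_num)
  have hy2 : sy κ t ≤ -0.245 := syL_le h 0.42 0.465 0.534 0.245 0.7827 0.78271 0.41239 0.45659 hk1 hk2 (by linarith) (by norm_num) (by norm_num) (by norm_num)
    (expm_ge (by norm_num) (by norm_num) (by norm_num) (by norm_num)) (expm_le (by norm_num) (by norm_num) (by norm_num)) (by norm_num)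
    (by norm_num) (by norm_num) (by norm_num) (by norm_num) (by norm_num) (by norm_num)
  exact ⟨hy1, hy2⟩

private theorem yr3 {κ t : ℝ} (h : DomR κ t) (hk1 : 0.42 ≤ κ) (hk2 : κ ≤ 0.465) (ht1 : 0.7696 ≤ t + κ)
    (ht2 : t + κ ≤ 1.0368) : 0.2 ≤ sy κ t ∧ sy κ t ≤ 0.265 := by
  have hy1 : 0.2 ≤ sy κ t := syR_ge h 0.42 0.465 0.7696 0.2 1.2214 1.22141 0.52533 0.58163 hk1 hk2 (by linarith) (by norm_num) (by norm_num)
    (expn_ge (by norm_num) (by norm_num)) (expn_le (by norm_num) (by norm_num) (by norm_num)) (by norm_num)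
    (by norm_num) (by norm_num) (by norm_num) (by norm_num) (by norm_num) (by norm_num)
  have hy2 : sy κ t ≤ 0.265 := syR_ang2 h 0.42 0.465 1.0368 0.837 0.6702 0.7427 0.265 0.76721 1.30343 hk1 hk2 (by linarith) (by norm_num) (by norm_num) (by norm_num)
    (cos_le_num (by norm_num)) (sin_le_num (by norm_num) (by norm_num)) (expm_le (by norm_num) (by norm_num) (by norm_num))
    (expn_ge (by norm_num) (by norm_num)) (by norm_num) (by norm_num) (by norm_num) (by norm_num) (by norm_num)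
  exact ⟨hy1, hy2⟩

private theorem mm3 {κ t : ℝ} (d1 : DomR κ t) (d0 : DomR κ (t - Real.pi / 2)) (hk1 : 0.42 ≤ κ) (hk2 : κ ≤ 0.465)
    (ht1 : 0.7696 ≤ t + κ) (ht2 : t + κ ≤ 1.0368) : 0.9712 ≤ sp κ t - sp κ (t - Real.pi / 2) := by
  have hpi := Real.pi_gt_d6
  have hpi2 := Real.pi_lt_d6
  have hχ := chi_box (κ := κ) 0.4604 0.42 0.465 0.8752 d1.1.le hk1 hk2 (by norm_num) (by norm_num) (by norm_num) (by norm_num) (by norm_num)
  have hμ := mu_box (κ := κ) 0.2002 0.42 0.465 0.1246 hk1 hk2 (by norm_num) (by norm_num) (by norm_num) (by norm_num) (by norm_num) (by norm_num)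
  rcases le_total (t + κ) 0.859 with f0 | g0
  · refine M_piece (κ := κ) (t := t) 0.465 0.696 0.926 0.7696 0.859 0.9712 d1.1.le hk2 ?_ ?_ (by linarith) (by linarith) (by norm_num) (by norm_num) (by norm_num) (by norm_num)
    · exact spR_ge_box d1 0.696 0.42 (0.465 / (1 + 0.465 ^ 2)) 0.8752 0.1246 0.859 _ _ _ (by linarith) (by linarith) hk1 (psi_lo d1.1.le hk2 (by norm_num)) hχ hμ (by norm_num) (by norm_num) (by norm_num)
        rfl (by norm_num) rfl rfl (by norm_num) (by norm_num)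
    · exact spL_ge_box d0 0.926 0.42 0.465 (0.465 / (1 + 0.465 ^ 2)) 0.8012 _ _ (by linarith) (by linarith) hk1 hk2 (psi_lo d0.1.le hk2 (by norm_num)) (by norm_num) (by norm_num)
        rfl (by norm_num) rfl (by norm_num) (by norm_num) (by norm_num)
  rcases le_total (t + κ) 0.948 with f1 | g1
  · refine M_piece (κ := κ) (t := t) 0.465 0.671 0.942 0.858 0.948 0.9712 d1.1.le hk2 ?_ ?_ (by linarith) (by linarith) (by norm_num) (by norm_num) (by norm_num) (by norm_num)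
    · exact spR_ge_box d1 0.671 0.42 (0.465 / (1 + 0.465 ^ 2)) 0.8752 0.1246 0.948 _ _ _ (by linarith) (by linarith) hk1 (psi_lo d1.1.le hk2 (by norm_num)) hχ hμ (by norm_num) (by norm_num) (by norm_num)
        rfl (by norm_num) rfl rfl (by norm_num) (by norm_num)
    · exact spL_ge_box d0 0.942 0.42 0.465 (0.465 / (1 + 0.465 ^ 2)) 0.7128 _ _ (by linarith) (by linarith) hk1 hk2 (psi_lo d0.1.le hk2 (by norm_num)) (by norm_num) (by norm_num)
        rfl (by norm_num) rfl (by norm_num) (by norm_num) (by norm_num)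
  refine M_piece (κ := κ) (t := t) 0.465 0.647 0.956 0.947 1.0368 0.9712 d1.1.le hk2 ?_ ?_ (by linarith) (by linarith) (by norm_num) (by norm_num) (by norm_num) (by norm_num)
  · exact spR_ge_box d1 0.647 0.42 (0.465 / (1 + 0.465 ^ 2)) 0.8752 0.1246 1.0368 _ _ _ (by linarith) (by linarith) hk1 (psi_lo d1.1.le hk2 (by norm_num)) hχ hμ (by norm_num) (by norm_num) (by norm_num)
      rfl (by norm_num) rfl rfl (by norm_num) (by norm_num)
  · exact spL_ge_box d0 0.956 0.42 0.465 (0.465 / (1 + 0.465 ^ 2)) 0.6238 _ _ (by linarith) (by linarith) hk1 hk2 (psi_lo d0.1.le hk2 (by norm_num)) (by norm_num) (by norm_num)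
      rfl (by norm_num) rfl (by norm_num) (by norm_num) (by norm_num)

theorem slp3 {β r κ t : ℝ} (hβ : 0 < β) (hr : 10 ≤ r) (hκ : κ = β * r) (hk1 : 0.42 ≤ κ) (hk2 : κ ≤ 0.465)
    (ht1 : 0.49 * (Real.pi / 2) ≤ t + κ) (ht2 : t + κ ≤ 0.66 * (Real.pi / 2)) : SL β r 2.322 0.8475 0.2251 t := by
  have hpi := Real.pi_gt_d6
  have hpi2 := Real.pi_lt_d6
  have he1 := Real.exp_neg_one_lt_d9
  have hR0 : β * 10 ≤ κ := by rw [hκ]; exact mul_le_mul_of_nonneg_left hr hβ.le
  have hk0 : 0 < κ := by linarith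
  have d1 : DomR κ t := ⟨hk0, by linarith, Or.inr (by linarith)⟩
  have d0 : DomR κ (t - Real.pi / 2) := ⟨hk0, by linarith, Or.inr (by linarith)⟩
  have a1 : 0.7696 ≤ t + κ := by linarith
  have a2 : t + κ ≤ 1.0368 := by linarith
  have b1 : (-0.8012) ≤ t - Real.pi / 2 + κ := by linarith
  have b2 : t - Real.pi / 2 + κ ≤ (-0.534) := by linarith
  have hR := hR33 hβ hR0 hk0 (by linarith)
  have Jl := dl2 d0 hβ (by linarith) (by linarith) (by linarith) (by linarith) hR0 hR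
  have Jr := dr2 d1 hβ (by linarith) (by linarith) (by linarith) (by linarith) hR0 hR
  obtain ⟨y1, y2⟩ := yl3 d0 hk1 hk2 b1 b2
  obtain ⟨z1, z2⟩ := yr3 d1 hk1 hk2 a1 a2
  have hM := mm3 d1 d0 hk1 hk2 a1 a2
  have hE0 : Real.exp (-(-0.487)) ≤ 1.62743 := by rw [neg_neg]; exact (expn_le (by norm_num) (by norm_num) (by norm_num))
  have hEr : Real.exp (-0.2) ≤ 0.81874 := (expm_le (by norm_num) (by norm_num) (by norm_num))
  have hA0 := A_lt d0 0.465 (-0.487) 1.62743 0.979 hk2 y1 hE0 (by norm_num) (by norm_num) (by norm_num)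
  have hA1 := A_lt d1 0.465 0.2 0.81874 0.307 hk2 z1 hEr (by norm_num) (by norm_num) (by norm_num)
  have hd0 : 0.4578 ≤ sD κ (t - Real.pi / 2) := sD_ge3 d0 0.42 0.465 0.487 _ hk1 hk2 (by linarith) y1 (by norm_num) (by norm_num) (by norm_num) (by norm_num)
  have hd1 : 1.1764 ≤ sD κ t := sD_geR d1 0.42 _ hk1 (by linarith) (by linarith) (by norm_num) (by norm_num)
  have F0 := LD_facts (t := t - Real.pi / 2) 0.04 0.2 0.979 6.2501 0.8266 (-0.487) 1.62743 2.322 hβ hr hκ d0 (fun s hs => ⟨im_gt hs y1 (by norm_num), Jl s hs⟩) hA0 y1 hE0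
    (C_of 0.465 1.62743 0.8266 0.4578 hk2 (by norm_num) hd0 (by norm_num) (by norm_num)) (by norm_num) (by norm_num) (by norm_num) (by norm_num) (by norm_num) (by norm_num) (by norm_num)
  have z0 : -0 ≤ sy κ t := by linarith
  have F1 := LD_facts (t := t) 0.05 0.02 0.307 0.4082 0.1619 0.2 0.81874 0.8475 hβ hr hκ d1 (fun s hs => ⟨im_gt hs z0 (by norm_num), Jr s hs⟩) hA1 z1 hEr
    (C_of 0.465 0.81874 0.1619 1.1764 hk2 (by norm_num) hd1 (by norm_num) (by norm_num)) (by norm_num) (by norm_num) (by norm_num) (by norm_num) (by norm_num) (by norm_num) (by norm_num)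
  have hEl : 1.27762 ≤ Real.exp (-(-0.245)) := by rw [neg_neg]; exact (expn_ge (by norm_num) (by norm_num))
  have hN := N_ge (κ := κ) (t := t - Real.pi / 2) 0.42 (-0.245) 1.27762 0.28793 (by norm_num) hk1 y2 hEl (by norm_num) (by norm_num)
  have hx0 : sx κ (t - Real.pi / 2) ≤ 0.716 := sx_hi d0 0.465 (-0.487) 0.245 1.62743 _ hk2 y1 (by norm_num) (by rw [abs_of_nonpos (by linarith)]; linarith) hE0 (by norm_num) (by norm_num)
  have hG0 := gs_le d0 0.28793 0.716 0.4578 1.2164 hN (by norm_num) hx0 hd0 (by norm_num) (by norm_num) (by norm_num)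
  have hG1 : (0 : ℝ) ≤ gs κ t := gs_nonneg d1 (by linarith) (by linarith)
  exact SL_of (κ := κ) 6.1189 0.1254 1.2164 0 0.9712 2.322 0.8475 0.2251 hr ⟨F0.1, F0.2.1, F0.2.2.trans (by norm_num)⟩ ⟨F1.1, F1.2.1, F1.2.2.trans (by norm_num)⟩ hG0 hG1 hM
    (by norm_num) (by norm_num)

private theorem yl4 {κ t : ℝ} (h : DomR κ t) (hk1 : 0.465 ≤ κ) (hk2 : κ ≤ 0.51) (ht1 : (-0.8012) ≤ t + κ)
    (ht2 : t + κ ≤ (-0.534)) : -0.511 ≤ sy κ t ∧ sy κ t ≤ -0.264 := by
  have hy1 : -0.511 ≤ sy κ t := syL_ge h 0.465 0.51 0.8012 0.511 0.59989 0.5999 0.5865 0.60106 0.65925 hk1 hk2 (by linarith) (by norm_num) (by norm_num) (by norm_num)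
    (expm_ge (by norm_num) (by norm_num) (by norm_num) (by norm_num)) (expm_le (by norm_num) (by norm_num) (by norm_num)) (by norm_num)
    (by norm_num) (by norm_num) (by norm_num) (by norm_num) (by norm_num) (by norm_num)
  have hy2 : sy κ t ≤ -0.264 := syL_le h 0.465 0.51 0.534 0.264 0.76797 0.76798 0.39753 0.43602 hk1 hk2 (by linarith) (by norm_num) (by norm_num) (by norm_num)
    (expm_ge (by norm_num) (by norm_num) (by norm_num) (by norm_num)) (expm_le (by norm_num) (by norm_num) (by norm_num)) (by norm_num)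
    (by norm_num) (by norm_num) (by norm_num) (by norm_num) (by norm_num) (by norm_num)
  exact ⟨hy1, hy2⟩

private theorem yr4 {κ t : ℝ} (h : DomR κ t) (hk1 : 0.465 ≤ κ) (hk2 : κ ≤ 0.51) (ht1 : 0.7696 ≤ t + κ)
    (ht2 : t + κ ≤ 1.0368) : 0.213 ≤ sy κ t ∧ sy κ t ≤ 0.281 := by
  have hy1 : 0.213 ≤ sy κ t := syR_ge h 0.465 0.51 0.7696 0.213 1.23738 1.23739 0.51678 0.56681 hk1 hk2 (by linarith) (by norm_num) (by norm_num)
    (expn_ge (by norm_num) (by norm_num)) (expn_le (by norm_num) (by norm_num) (by norm_num)) (by norm_num)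
    (by norm_num) (by norm_num) (by norm_num) (by norm_num) (by norm_num) (by norm_num)
  have hy2 : sy κ t ≤ 0.281 := syR_ang2 h 0.465 0.51 1.0368 0.817 0.6849 0.7292 0.281 0.75503 1.32445 hk1 hk2 (by linarith) (by norm_num) (by norm_num) (by norm_num)
    (cos_le_num (by norm_num)) (sin_le_num (by norm_num) (by norm_num)) (expm_le (by norm_num) (by norm_num) (by norm_num))
    (expn_ge (by norm_num) (by norm_num)) (by norm_num) (by norm_num) (by norm_num) (by norm_num) (by norm_num)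
  exact ⟨hy1, hy2⟩

private theorem mm4 {κ t : ℝ} (d1 : DomR κ t) (d0 : DomR κ (t - Real.pi / 2)) (hk1 : 0.465 ≤ κ) (hk2 : κ ≤ 0.51)
    (ht1 : 0.7696 ≤ t + κ) (ht2 : t + κ ≤ 1.0368) : 0.9399 ≤ sp κ t - sp κ (t - Real.pi / 2) := by
  have hpi := Real.pi_gt_d6
  have hpi2 := Real.pi_lt_d6
  have hχ := chi_box (κ := κ) 0.5054 0.465 0.51 0.8801 d1.1.le hk1 hk2 (by norm_num) (by norm_num) (by norm_num) (by norm_num) (by norm_num)
  have hμ := mu_box (κ := κ) 0.2469 0.465 0.51 0.1357 hk1 hk2 (by norm_num) (by norm_num) (by norm_num) (by norm_num) (by norm_num) (by norm_num)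
  rcases le_total (t + κ) 0.859 with f0 | g0
  · refine M_piece (κ := κ) (t := t) 0.51 0.697 0.933 0.7696 0.859 0.9399 d1.1.le hk2 ?_ ?_ (by linarith) (by linarith) (by norm_num) (by norm_num) (by norm_num) (by norm_num)
    · exact spR_ge_box d1 0.697 0.465 (0.51 / (1 + 0.51 ^ 2)) 0.8801 0.1357 0.859 _ _ _ (by linarith) (by linarith) hk1 (psi_lo d1.1.le hk2 (by norm_num)) hχ hμ (by norm_num) (by norm_num) (by norm_num)
        rfl (by norm_num) rfl rfl (by norm_num) (by norm_num)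
    · exact spL_ge_box d0 0.933 0.465 0.51 (0.51 / (1 + 0.51 ^ 2)) 0.8012 _ _ (by linarith) (by linarith) hk1 hk2 (psi_lo d0.1.le hk2 (by norm_num)) (by norm_num) (by norm_num)
        rfl (by norm_num) rfl (by norm_num) (by norm_num) (by norm_num)
  rcases le_total (t + κ) 0.948 with f1 | g1
  · refine M_piece (κ := κ) (t := t) 0.51 0.672 0.947 0.858 0.948 0.9399 d1.1.le hk2 ?_ ?_ (by linarith) (by linarith) (by norm_num) (by norm_num) (by norm_num) (by norm_num)
    · exact spR_ge_box d1 0.672 0.465 (0.51 / (1 + 0.51 ^ 2)) 0.8801 0.1357 0.948 _ _ _ (by linarith) (by linarith) hk1 (psi_lo d1.1.le hk2 (by norm_num)) hχ hμ (by norm_num) (by norm_num) (by norm_num)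
        rfl (by norm_num) rfl rfl (by norm_num) (by norm_num)
    · exact spL_ge_box d0 0.947 0.465 0.51 (0.51 / (1 + 0.51 ^ 2)) 0.7128 _ _ (by linarith) (by linarith) hk1 hk2 (psi_lo d0.1.le hk2 (by norm_num)) (by norm_num) (by norm_num)
        rfl (by norm_num) rfl (by norm_num) (by norm_num) (by norm_num)
  refine M_piece (κ := κ) (t := t) 0.51 0.648 0.96 0.947 1.0368 0.9399 d1.1.le hk2 ?_ ?_ (by linarith) (by linarith) (by norm_num) (by norm_num) (by norm_num) (by norm_num)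
  · exact spR_ge_box d1 0.648 0.465 (0.51 / (1 + 0.51 ^ 2)) 0.8801 0.1357 1.0368 _ _ _ (by linarith) (by linarith) hk1 (psi_lo d1.1.le hk2 (by norm_num)) hχ hμ (by norm_num) (by norm_num) (by norm_num)
      rfl (by norm_num) rfl rfl (by norm_num) (by norm_num)
  · exact spL_ge_box d0 0.96 0.465 0.51 (0.51 / (1 + 0.51 ^ 2)) 0.6238 _ _ (by linarith) (by linarith) hk1 hk2 (psi_lo d0.1.le hk2 (by norm_num)) (by norm_num) (by norm_num)
      rfl (by norm_num) rfl (by norm_num) (by norm_num) (by norm_num)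

theorem slp4 {β r κ t : ℝ} (hβ : 0 < β) (hr : 10 ≤ r) (hκ : κ = β * r) (hk1 : 0.465 ≤ κ) (hk2 : κ ≤ 0.51)
    (ht1 : 0.49 * (Real.pi / 2) ≤ t + κ) (ht2 : t + κ ≤ 0.66 * (Real.pi / 2)) : SL β r 2.4717 0.842 0.107 t := by
  have hpi := Real.pi_gt_d6
  have hpi2 := Real.pi_lt_d6
  have he1 := Real.exp_neg_one_lt_d9
  have hR0 : β * 10 ≤ κ := by rw [hκ]; exact mul_le_mul_of_nonneg_left hr hβ.le
  have hk0 : 0 < κ := by linarith
  have d1 : DomR κ t := ⟨hk0, by linarith, Or.inr (by linarith)⟩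
  have d0 : DomR κ (t - Real.pi / 2) := ⟨hk0, by linarith, Or.inr (by linarith)⟩
  have a1 : 0.7696 ≤ t + κ := by linarith
  have a2 : t + κ ≤ 1.0368 := by linarith
  have b1 : (-0.8012) ≤ t - Real.pi / 2 + κ := by linarith
  have b2 : t - Real.pi / 2 + κ ≤ (-0.534) := by linarith
  have hR := hR33 hβ hR0 hk0 (by linarith)
  have Jl := dl3 d0 hβ (by linarith) (by linarith) (by linarith) (by linarith) hR0 hR
  have Jr := dr3 d1 hβ (by linarith) (by linarith) (by linarith) (by linarith) hR0 hR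
  obtain ⟨y1, y2⟩ := yl4 d0 hk1 hk2 b1 b2
  obtain ⟨z1, z2⟩ := yr4 d1 hk1 hk2 a1 a2
  have hM := mm4 d1 d0 hk1 hk2 a1 a2
  have hE0 : Real.exp (-(-0.511)) ≤ 1.66696 := by rw [neg_neg]; exact (expn_le (by norm_num) (by norm_num) (by norm_num))
  have hEr : Real.exp (-0.213) ≤ 0.80816 := (expm_le (by norm_num) (by norm_num) (by norm_num))
  have hA0 := A_ge d0 0.465 0.511 1.027 hk1 y1 (by norm_num) (by norm_num) (by norm_num) (by norm_num)
  have hA1 := A_lt d1 0.51 0.213 0.80816 0.327 hk2 z1 hEr (by norm_num) (by norm_num) (by norm_num)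
  have hd0 : 0.5281 ≤ sD κ (t - Real.pi / 2) := sD_ge3 d0 0.465 0.51 0.511 _ hk1 hk2 (by linarith) y1 (by norm_num) (by norm_num) (by norm_num) (by norm_num)
  have hd1 : 1.216225 ≤ sD κ t := sD_geR d1 0.465 _ hk1 (by linarith) (by linarith) (by norm_num) (by norm_num)
  have F0 := LD_facts (t := t - Real.pi / 2) 0.04 0.22 1.027 7.0513 0.805 (-0.511) 1.66696 2.4717 hβ hr hκ d0 (fun s hs => ⟨im_gt hs y1 (by norm_num), Jl s hs⟩) hA0 y1 hE0
    (C_of 0.51 1.66696 0.805 0.5281 hk2 (by norm_num) hd0 (by norm_num) (by norm_num)) (by norm_num) (by norm_num) (by norm_num) (by norm_num) (by norm_num) (by norm_num) (by norm_num)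
  have z0 : -0 ≤ sy κ t := by linarith
  have F1 := LD_facts (t := t) 0.06 0.03 0.327 0.5155 0.1695 0.213 0.80816 0.842 hβ hr hκ d1 (fun s hs => ⟨im_gt hs z0 (by norm_num), Jr s hs⟩) hA1 z1 hEr
    (C_of 0.51 0.80816 0.1695 1.216225 hk2 (by norm_num) hd1 (by norm_num) (by norm_num)) (by norm_num) (by norm_num) (by norm_num) (by norm_num) (by norm_num) (by norm_num) (by norm_num)
  have hEl : 1.30212 ≤ Real.exp (-(-0.264)) := by rw [neg_neg]; exact (expn_ge (by norm_num) (by norm_num))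
  have hN := N_ge (κ := κ) (t := t - Real.pi / 2) 0.465 (-0.264) 1.30212 0.36661 (by norm_num) hk1 y2 hEl (by norm_num) (by norm_num)
  have hx0 : sx κ (t - Real.pi / 2) ≤ 0.8082 := sx_hi d0 0.51 (-0.511) 0.264 1.66696 _ hk2 y1 (by norm_num) (by rw [abs_of_nonpos (by linarith)]; linarith) hE0 (by norm_num) (by norm_num)
  have hG0 := gs_le d0 0.36661 0.8082 0.5281 0.9178 hN (by norm_num) hx0 hd0 (by norm_num) (by norm_num) (by norm_num)
  have hG1 : (0 : ℝ) ≤ gs κ t := gs_nonneg d1 (by linarith) (by linarith)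
  exact SL_of (κ := κ) 7.2417 0.1686 0.9178 0 0.9399 2.4717 0.842 0.107 hr ⟨F0.1, F0.2.1, F0.2.2.trans (by norm_num)⟩ ⟨F1.1, F1.2.1, F1.2.2.trans (by norm_num)⟩ hG0 hG1 hM
    (by norm_num) (by norm_num)

private theorem yl5 {κ t : ℝ} (h : DomR κ t) (hk1 : 0.51 ≤ κ) (hk2 : κ ≤ 0.555) (ht1 : (-0.8012) ≤ t + κ)
    (ht2 : t + κ ≤ (-0.534)) : -0.52 ≤ sy κ t ∧ sy κ t ≤ -0.28 := by
  have hy1 : -0.52 ≤ sy κ t := syL_ge h 0.51 0.555 0.8012 0.52 0.59452 0.59453 0.5447 0.55702 0.60619 hk1 hk2 (by linarith) (by norm_num) (by norm_num) (by norm_num)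
    (expm_ge (by norm_num) (by norm_num) (by norm_num) (by norm_num)) (expm_le (by norm_num) (by norm_num) (by norm_num)) (by norm_num)
    (by norm_num) (by norm_num) (by norm_num) (by norm_num) (by norm_num) (by norm_num)
  have hy2 : sy κ t ≤ -0.28 := syL_le h 0.51 0.555 0.534 0.28 0.75578 0.75579 0.38129 0.41495 hk1 hk2 (by linarith) (by norm_num) (by norm_num) (by norm_num)
    (expm_ge (by norm_num) (by norm_num) (by norm_num) (by norm_num)) (expm_le (by norm_num) (by norm_num) (by norm_num)) (by norm_num)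
    (by norm_num) (by norm_num) (by norm_num) (by norm_num) (by norm_num) (by norm_num)
  exact ⟨hy1, hy2⟩

private theorem yr5 {κ t : ℝ} (h : DomR κ t) (hk1 : 0.51 ≤ κ) (hk2 : κ ≤ 0.555) (ht1 : 0.7696 ≤ t + κ)
    (ht2 : t + κ ≤ 1.0368) : 0.226 ≤ sy κ t ∧ sy κ t ≤ 0.295 := by
  have hy1 : 0.226 ≤ sy κ t := syR_ge h 0.51 0.555 0.7696 0.226 1.25357 1.25358 0.51046 0.55551 hk1 hk2 (by linarith) (by norm_num) (by norm_num)
    (expn_ge (by norm_num) (by norm_num)) (expn_le (by norm_num) (by norm_num) (by norm_num)) (by norm_num)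
    (by norm_num) (by norm_num) (by norm_num) (by norm_num) (by norm_num) (by norm_num)
  have hy2 : sy κ t ≤ 0.295 := syR_ang2 h 0.51 0.555 1.0368 0.794 0.7014 0.7133 0.295 0.74454 1.34312 hk1 hk2 (by linarith) (by norm_num) (by norm_num) (by norm_num)
    (cos_le_num (by norm_num)) (sin_le_num (by norm_num) (by norm_num)) (expm_le (by norm_num) (by norm_num) (by norm_num))
    (expn_ge (by norm_num) (by norm_num)) (by norm_num) (by norm_num) (by norm_num) (by norm_num) (by norm_num)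
  exact ⟨hy1, hy2⟩

private theorem mm5 {κ t : ℝ} (d1 : DomR κ t) (d0 : DomR κ (t - Real.pi / 2)) (hk1 : 0.51 ≤ κ) (hk2 : κ ≤ 0.555)
    (ht1 : 0.7696 ≤ t + κ) (ht2 : t + κ ≤ 1.0368) : 0.9087 ≤ sp κ t - sp κ (t - Real.pi / 2) := by
  have hpi := Real.pi_gt_d6
  have hpi2 := Real.pi_lt_d6
  have hχ := chi_box (κ := κ) 0.51 0.51 0.555 0.8801 d1.1.le hk1 hk2 (by norm_num) (by norm_num) (by norm_num) (by norm_num) (by norm_num)
  have hμ := mu_box (κ := κ) 0.2888 0.51 0.555 0.1448 hk1 hk2 (by norm_num) (by norm_num) (by norm_num) (by norm_num) (by norm_num) (by norm_num)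
  rcases le_total (t + κ) 0.859 with f0 | g0
  · refine M_piece (κ := κ) (t := t) 0.555 0.698 0.939 0.7696 0.859 0.9087 d1.1.le hk2 ?_ ?_ (by linarith) (by linarith) (by norm_num) (by norm_num) (by norm_num) (by norm_num)
    · exact spR_ge_box d1 0.698 0.51 (0.555 / (1 + 0.555 ^ 2)) 0.8801 0.1448 0.859 _ _ _ (by linarith) (by linarith) hk1 (psi_lo d1.1.le hk2 (by norm_num)) hχ hμ (by norm_num) (by norm_num) (by norm_num)
        rfl (by norm_num) rfl rfl (by norm_num) (by norm_num)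
    · exact spL_ge_box d0 0.939 0.51 0.555 (0.555 / (1 + 0.555 ^ 2)) 0.8012 _ _ (by linarith) (by linarith) hk1 hk2 (psi_lo d0.1.le hk2 (by norm_num)) (by norm_num) (by norm_num)
        rfl (by norm_num) rfl (by norm_num) (by norm_num) (by norm_num)
  rcases le_total (t + κ) 0.948 with f1 | g1
  · refine M_piece (κ := κ) (t := t) 0.555 0.673 0.952 0.858 0.948 0.9087 d1.1.le hk2 ?_ ?_ (by linarith) (by linarith) (by norm_num) (by norm_num) (by norm_num) (by norm_num)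
    · exact spR_ge_box d1 0.673 0.51 (0.555 / (1 + 0.555 ^ 2)) 0.8801 0.1448 0.948 _ _ _ (by linarith) (by linarith) hk1 (psi_lo d1.1.le hk2 (by norm_num)) hχ hμ (by norm_num) (by norm_num) (by norm_num)
        rfl (by norm_num) rfl rfl (by norm_num) (by norm_num)
    · exact spL_ge_box d0 0.952 0.51 0.555 (0.555 / (1 + 0.555 ^ 2)) 0.7128 _ _ (by linarith) (by linarith) hk1 hk2 (psi_lo d0.1.le hk2 (by norm_num)) (by norm_num) (by norm_num)
        rfl (by norm_num) rfl (by norm_num) (by norm_num) (by norm_num)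
  refine M_piece (κ := κ) (t := t) 0.555 0.65 0.964 0.947 1.0368 0.9087 d1.1.le hk2 ?_ ?_ (by linarith) (by linarith) (by norm_num) (by norm_num) (by norm_num) (by norm_num)
  · exact spR_ge_box d1 0.65 0.51 (0.555 / (1 + 0.555 ^ 2)) 0.8801 0.1448 1.0368 _ _ _ (by linarith) (by linarith) hk1 (psi_lo d1.1.le hk2 (by norm_num)) hχ hμ (by norm_num) (by norm_num) (by norm_num)
      rfl (by norm_num) rfl rfl (by norm_num) (by norm_num)
  · exact spL_ge_box d0 0.964 0.51 0.555 (0.555 / (1 + 0.555 ^ 2)) 0.6238 _ _ (by linarith) (by linarith) hk1 hk2 (psi_lo d0.1.le hk2 (by norm_num)) (by norm_num) (by norm_num)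
      rfl (by norm_num) rfl (by norm_num) (by norm_num) (by norm_num)

theorem slp5 {β r κ t : ℝ} (hβ : 0 < β) (hr : 10 ≤ r) (hκ : κ = β * r) (hk1 : 0.51 ≤ κ) (hk2 : κ ≤ 0.555)
    (ht1 : 0.49 * (Real.pi / 2) ≤ t + κ) (ht2 : t + κ ≤ 0.66 * (Real.pi / 2)) : SL β r 2.4494 0.8331 0.1366 t := by
  have hpi := Real.pi_gt_d6
  have hpi2 := Real.pi_lt_d6
  have he1 := Real.exp_neg_one_lt_d9
  have hR0 : β * 10 ≤ κ := by rw [hκ]; exact mul_le_mul_of_nonneg_left hr hβ.le
  have hk0 : 0 < κ := by linarith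
  have d1 : DomR κ t := ⟨hk0, by linarith, Or.inr (by linarith)⟩
  have d0 : DomR κ (t - Real.pi / 2) := ⟨hk0, by linarith, Or.inr (by linarith)⟩
  have a1 : 0.7696 ≤ t + κ := by linarith
  have a2 : t + κ ≤ 1.0368 := by linarith
  have b1 : (-0.8012) ≤ t - Real.pi / 2 + κ := by linarith
  have b2 : t - Real.pi / 2 + κ ≤ (-0.534) := by linarith
  have hR := hR33 hβ hR0 hk0 (by linarith)
  have Jl := dl4 d0 hβ (by linarith) (by linarith) (by linarith) (by linarith) hR0 hR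
  have Jr := dr4 d1 hβ (by linarith) (by linarith) (by linarith) (by linarith) hR0 hR
  obtain ⟨y1, y2⟩ := yl5 d0 hk1 hk2 b1 b2
  obtain ⟨z1, z2⟩ := yr5 d1 hk1 hk2 a1 a2
  have hM := mm5 d1 d0 hk1 hk2 a1 a2
  have hE0 : Real.exp (-(-0.52)) ≤ 1.68203 := by rw [neg_neg]; exact (expn_le (by norm_num) (by norm_num) (by norm_num))
  have hEr : Real.exp (-0.226) ≤ 0.79772 := (expm_le (by norm_num) (by norm_num) (by norm_num))
  have hA0 := A_ge d0 0.51 0.52 1.04 hk1 y1 (by norm_num) (by norm_num) (by norm_num) (by norm_num)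
  have hA1 := A_lt d1 0.555 0.226 0.79772 0.345 hk2 z1 hEr (by norm_num) (by norm_num) (by norm_num)
  have hd0 : 0.6312 ≤ sD κ (t - Real.pi / 2) := sD_ge3 d0 0.51 0.555 0.52 _ hk1 hk2 (by linarith) y1 (by norm_num) (by norm_num) (by norm_num) (by norm_num)
  have hd1 : 1.2601 ≤ sD κ t := sD_geR d1 0.51 _ hk1 (by linarith) (by linarith) (by norm_num) (by norm_num)
  have F0 := LD_facts (t := t - Real.pi / 2) 0.05 0.25 1.04 6.6667 0.7395 (-0.52) 1.68203 2.4494 hβ hr hκ d0 (fun s hs => ⟨im_gt hs y1 (by norm_num), Jl s hs⟩) hA0 y1 hE0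
    (C_of 0.555 1.68203 0.7395 0.6312 hk2 (by norm_num) hd0 (by norm_num) (by norm_num)) (by norm_num) (by norm_num) (by norm_num) (by norm_num) (by norm_num) (by norm_num) (by norm_num)
  have z0 : -0 ≤ sy κ t := by linarith
  have F1 := LD_facts (t := t) 0.06 0.03 0.345 0.5155 0.1757 0.226 0.79772 0.8331 hβ hr hκ d1 (fun s hs => ⟨im_gt hs z0 (by norm_num), Jr s hs⟩) hA1 z1 hEr
    (C_of 0.555 0.79772 0.1757 1.2601 hk2 (by norm_num) hd1 (by norm_num) (by norm_num)) (by norm_num) (by norm_num) (by norm_num) (by norm_num) (by norm_num) (by norm_num) (by norm_num)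
  have hEl : 1.32312 ≤ Real.exp (-(-0.28)) := by rw [neg_neg]; exact (expn_ge (by norm_num) (by norm_num))
  have hN := N_ge (κ := κ) (t := t - Real.pi / 2) 0.51 (-0.28) 1.32312 0.45534 (by norm_num) hk1 y2 hEl (by norm_num) (by norm_num)
  have hx0 : sx κ (t - Real.pi / 2) ≤ 0.8906 := sx_hi d0 0.555 (-0.52) 0.28 1.68203 _ hk2 y1 (by norm_num) (by rw [abs_of_nonpos (by linarith)]; linarith) hE0 (by norm_num) (by norm_num)
  have hG0 := gs_le d0 0.45534 0.8906 0.6312 0.6088 hN (by norm_num) hx0 hd0 (by norm_num) (by norm_num) (by norm_num)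
  have hG1 : (0 : ℝ) ≤ gs κ t := gs_nonneg d1 (by linarith) (by linarith)
  exact SL_of (κ := κ) 6.9334 0.1779 0.6088 0 0.9087 2.4494 0.8331 0.1366 hr ⟨F0.1, F0.2.1, F0.2.2.trans (by norm_num)⟩ ⟨F1.1, F1.2.1, F1.2.2.trans (by norm_num)⟩ hG0 hG1 hM
    (by norm_num) (by norm_num)

private theorem yl6 {κ t : ℝ} (h : DomR κ t) (hk1 : 0.555 ≤ κ) (hk2 : κ ≤ 0.6) (ht1 : (-0.8012) ≤ t + κ)
    (ht2 : t + κ ≤ (-0.534)) : -0.522 ≤ sy κ t ∧ sy κ t ≤ -0.292 := by
  have hy1 : -0.522 ≤ sy κ t := syL_ge h 0.555 0.6 0.8012 0.522 0.59333 0.59334 0.5196 0.51619 0.55807 hk1 hk2 (by linarith) (by norm_num) (by norm_num) (by norm_num)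
    (expm_ge (by norm_num) (by norm_num) (by norm_num) (by norm_num)) (expm_le (by norm_num) (by norm_num) (by norm_num)) (by norm_num)
    (by norm_num) (by norm_num) (by norm_num) (by norm_num) (by norm_num) (by norm_num)
  have hy2 : sy κ t ≤ -0.292 := syL_le h 0.555 0.6 0.534 0.292 0.74676 0.74677 0.36342 0.3929 hk1 hk2 (by linarith) (by norm_num) (by norm_num) (by norm_num)
    (expm_ge (by norm_num) (by norm_num) (by norm_num) (by norm_num)) (expm_le (by norm_num) (by norm_num) (by norm_num)) (by norm_num)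
    (by norm_num) (by norm_num) (by norm_num) (by norm_num) (by norm_num) (by norm_num)
  exact ⟨hy1, hy2⟩

private theorem yr6 {κ t : ℝ} (h : DomR κ t) (hk1 : 0.555 ≤ κ) (hk2 : κ ≤ 0.6) (ht1 : 0.7696 ≤ t + κ)
    (ht2 : t + κ ≤ 1.0368) : 0.238 ≤ sy κ t ∧ sy κ t ≤ 0.309 := by
  have hy1 : 0.238 ≤ sy κ t := syR_ge h 0.555 0.6 0.7696 0.238 1.2687 1.26871 0.50325 0.54406 hk1 hk2 (by linarith) (by norm_num) (by norm_num)
    (expn_ge (by norm_num) (by norm_num)) (expn_le (by norm_num) (by norm_num) (by norm_num)) (by norm_num)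
    (by norm_num) (by norm_num) (by norm_num) (by norm_num) (by norm_num) (by norm_num)
  have hy2 : sy κ t ≤ 0.309 := syR_le h 0.555 0.6 1.0368 0.309 1.36206 0.6872 0.70146 0.75835 hk1 hk2 (by linarith) (by norm_num) (by norm_num)
    (expn_ge (by norm_num) (by norm_num)) (by norm_num) (by norm_num) (Or.inr ((mul_le_mul_of_nonneg_left (expn_le (E := 1.36207) (by norm_num) (by norm_num) (by norm_num)) (by norm_num)).trans (by norm_num))) (by norm_num) (by norm_num) (by norm_num)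
  exact ⟨hy1, hy2⟩

private theorem mm6 {κ t : ℝ} (d1 : DomR κ t) (d0 : DomR κ (t - Real.pi / 2)) (hk1 : 0.555 ≤ κ) (hk2 : κ ≤ 0.6)
    (ht1 : 0.7696 ≤ t + κ) (ht2 : t + κ ≤ 1.0368) : 0.8778 ≤ sp κ t - sp κ (t - Real.pi / 2) := by
  have hpi := Real.pi_gt_d6
  have hpi2 := Real.pi_lt_d6
  have hχ := chi_box (κ := κ) 0.555 0.555 0.6 0.8733 d1.1.le hk1 hk2 (by norm_num) (by norm_num) (by norm_num) (by norm_num) (by norm_num)
  have hμ := mu_box (κ := κ) 0.3444 0.555 0.6 0.1518 hk1 hk2 (by norm_num) (by norm_num) (by norm_num) (by norm_num) (by norm_num) (by norm_num)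
  rcases le_total (t + κ) 0.859 with f0 | g0
  · refine M_piece (κ := κ) (t := t) 0.6 0.701 0.945 0.7696 0.859 0.8778 d1.1.le hk2 ?_ ?_ (by linarith) (by linarith) (by norm_num) (by norm_num) (by norm_num) (by norm_num)
    · exact spR_ge_box d1 0.701 0.555 (0.6 / (1 + 0.6 ^ 2)) 0.8733 0.1518 0.859 _ _ _ (by linarith) (by linarith) hk1 (psi_lo d1.1.le hk2 (by norm_num)) hχ hμ (by norm_num) (by norm_num) (by norm_num)
        rfl (by norm_num) rfl rfl (by norm_num) (by norm_num)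
    · exact spL_ge_box d0 0.945 0.555 0.6 (0.6 / (1 + 0.6 ^ 2)) 0.8012 _ _ (by linarith) (by linarith) hk1 hk2 (psi_lo d0.1.le hk2 (by norm_num)) (by norm_num) (by norm_num)
        rfl (by norm_num) rfl (by norm_num) (by norm_num) (by norm_num)
  rcases le_total (t + κ) 0.948 with f1 | g1
  · refine M_piece (κ := κ) (t := t) 0.6 0.676 0.957 0.858 0.948 0.8778 d1.1.le hk2 ?_ ?_ (by linarith) (by linarith) (by norm_num) (by norm_num) (by norm_num) (by norm_num)
    · exact spR_ge_box d1 0.676 0.555 (0.6 / (1 + 0.6 ^ 2)) 0.8733 0.1518 0.948 _ _ _ (by linarith) (by linarith) hk1 (psi_lo d1.1.le hk2 (by norm_num)) hχ hμ (by norm_num) (by norm_num) (by norm_num)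
        rfl (by norm_num) rfl rfl (by norm_num) (by norm_num)
    · exact spL_ge_box d0 0.957 0.555 0.6 (0.6 / (1 + 0.6 ^ 2)) 0.7128 _ _ (by linarith) (by linarith) hk1 hk2 (psi_lo d0.1.le hk2 (by norm_num)) (by norm_num) (by norm_num)
        rfl (by norm_num) rfl (by norm_num) (by norm_num) (by norm_num)
  refine M_piece (κ := κ) (t := t) 0.6 0.653 0.968 0.947 1.0368 0.8778 d1.1.le hk2 ?_ ?_ (by linarith) (by linarith) (by norm_num) (by norm_num) (by norm_num) (by norm_num)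
  · exact spR_ge_box d1 0.653 0.555 (0.6 / (1 + 0.6 ^ 2)) 0.8733 0.1518 1.0368 _ _ _ (by linarith) (by linarith) hk1 (psi_lo d1.1.le hk2 (by norm_num)) hχ hμ (by norm_num) (by norm_num) (by norm_num)
      rfl (by norm_num) rfl rfl (by norm_num) (by norm_num)
  · exact spL_ge_box d0 0.968 0.555 0.6 (0.6 / (1 + 0.6 ^ 2)) 0.6238 _ _ (by linarith) (by linarith) hk1 hk2 (psi_lo d0.1.le hk2 (by norm_num)) (by norm_num) (by norm_num)
      rfl (by norm_num) rfl (by norm_num) (by norm_num) (by norm_num)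

theorem slp6 {β r κ t : ℝ} (hβ : 0 < β) (hr : 10 ≤ r) (hκ : κ = β * r) (hk1 : 0.555 ≤ κ) (hk2 : κ ≤ 0.6)
    (ht1 : 0.49 * (Real.pi / 2) ≤ t + κ) (ht2 : t + κ ≤ 0.66 * (Real.pi / 2)) : SL β r 2.4247 0.8302 0.1435 t := by
  have hpi := Real.pi_gt_d6
  have hpi2 := Real.pi_lt_d6
  have he1 := Real.exp_neg_one_lt_d9
  have hR0 : β * 10 ≤ κ := by rw [hκ]; exact mul_le_mul_of_nonneg_left hr hβ.le
  have hk0 : 0 < κ := by linarith
  have d1 : DomR κ t := ⟨hk0, by linarith, Or.inr (by linarith)⟩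
  have d0 : DomR κ (t - Real.pi / 2) := ⟨hk0, by linarith, Or.inr (by linarith)⟩
  have a1 : 0.7696 ≤ t + κ := by linarith
  have a2 : t + κ ≤ 1.0368 := by linarith
  have b1 : (-0.8012) ≤ t - Real.pi / 2 + κ := by linarith
  have b2 : t - Real.pi / 2 + κ ≤ (-0.534) := by linarith
  have hR := hR33 hβ hR0 hk0 (by linarith)
  have Jl := dl5 d0 hβ (by linarith) (by linarith) (by linarith) (by linarith) hR0 hR
  have Jr := dr5 d1 hβ (by linarith) (by linarith) (by linarith) (by linarith) hR0 hR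
  obtain ⟨y1, y2⟩ := yl6 d0 hk1 hk2 b1 b2
  obtain ⟨z1, z2⟩ := yr6 d1 hk1 hk2 a1 a2
  have hM := mm6 d1 d0 hk1 hk2 a1 a2
  have hE0 : Real.exp (-(-0.522)) ≤ 1.6854 := by rw [neg_neg]; exact (expn_le (by norm_num) (by norm_num) (by norm_num))
  have hEr : Real.exp (-0.238) ≤ 0.78821 := (expm_le (by norm_num) (by norm_num) (by norm_num))
  have hA0 := A_ge d0 0.555 0.522 1.037 hk1 y1 (by norm_num) (by norm_num) (by norm_num) (by norm_num)
  have hA1 := A_lt d1 0.6 0.238 0.78821 0.363 hk2 z1 hEr (by norm_num) (by norm_num) (by norm_num)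
  have hd0 : 0.7534 ≤ sD κ (t - Real.pi / 2) := sD_ge3 d0 0.555 0.6 0.522 _ hk1 hk2 (by linarith) y1 (by norm_num) (by norm_num) (by norm_num) (by norm_num)
  have hd1 : 1.308025 ≤ sD κ t := sD_geR d1 0.555 _ hk1 (by linarith) (by linarith) (by norm_num) (by norm_num)
  have F0 := LD_facts (t := t - Real.pi / 2) 0.06 0.28 1.037 6.4815 0.6712 (-0.522) 1.6854 2.4247 hβ hr hκ d0 (fun s hs => ⟨im_gt hs y1 (by norm_num), Jl s hs⟩) hA0 y1 hE0
    (C_of 0.6 1.6854 0.6712 0.7534 hk2 (by norm_num) hd0 (by norm_num) (by norm_num)) (by norm_num) (by norm_num) (by norm_num) (by norm_num) (by norm_num) (by norm_num) (by norm_num)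
  have z0 : -0 ≤ sy κ t := by linarith
  have F1 := LD_facts (t := t) 0.08 0.05 0.363 0.6579 0.1808 0.238 0.78821 0.8302 hβ hr hκ d1 (fun s hs => ⟨im_gt hs z0 (by norm_num), Jr s hs⟩) hA1 z1 hEr
    (C_of 0.6 0.78821 0.1808 1.308025 hk2 (by norm_num) hd1 (by norm_num) (by norm_num)) (by norm_num) (by norm_num) (by norm_num) (by norm_num) (by norm_num) (by norm_num) (by norm_num)
  have hEl : 1.3391 ≤ Real.exp (-(-0.292)) := by rw [neg_neg]; exact (expn_ge (by norm_num) (by norm_num))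
  have hN := N_ge (κ := κ) (t := t - Real.pi / 2) 0.555 (-0.292) 1.3391 0.55234 (by norm_num) hk1 y2 hEl (by norm_num) (by norm_num)
  have hx0 : sx κ (t - Real.pi / 2) ≤ 0.9682 := sx_hi d0 0.6 (-0.522) 0.292 1.6854 _ hk2 y1 (by norm_num) (by rw [abs_of_nonpos (by linarith)]; linarith) hE0 (by norm_num) (by norm_num)
  have hG0 := gs_le d0 0.55234 0.9682 0.7534 0.3818 hN (by norm_num) hx0 hd0 (by norm_num) (by norm_num) (by norm_num)
  have hG1 : (0 : ℝ) ≤ gs κ t := gs_nonneg d1 (by linarith) (by linarith)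
  exact SL_of (κ := κ) 6.7214 0.2389 0.3818 0 0.8778 2.4247 0.8302 0.1435 hr ⟨F0.1, F0.2.1, F0.2.2.trans (by norm_num)⟩ ⟨F1.1, F1.2.1, F1.2.2.trans (by norm_num)⟩ hG0 hG1 hM
    (by norm_num) (by norm_num)

end Sok.B4
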