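import Pool.Agent.Lib.MP_816dec_an.R1B4W
import Pool.Agent.Lib.MP_816dec_an.R1B4Sa

/-!
MP_816dec_an (A3, row R1, b = 4): range 0.
-/

set_option autoImplicit false
set_option maxHeartbeats 4000000

open Complex Set Filter Topology

namespace Sok.B4

private theorem y1_0 {β r κ t : ℝ} (hβ : 0 < β) (hr : 10 ≤ r) (hκ : κ = β * r) (hk1 : 0.3 ≤ κ) (hk2 : κ ≤ 0.36)
    (h1 : 0.0785 ≤ t + κ) (h2 : t + κ ≤ 0.864) {c : ℝ} (hV : 1 - c * (t + κ) ^ 2 / (1 + κ ^ 2) ≤ sE κ t) :
    0.87677 * Real.exp (r * (1 - c * (t + κ) ^ 2 / (1 + κ ^ 2))) ≤ ‖Pb β r t‖ := by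
  have hpi := Real.pi_gt_d6
  have hpi2 := Real.pi_lt_d6
  have hR0 : β * 10 ≤ κ := by rw [hκ]; exact mul_le_mul_of_nonneg_left hr hβ.le
  have hk0 : 0 < κ := by linarith
  have hd : DomR κ t := ⟨hk0, by linarith, Or.inr (by linarith)⟩
  have J := jr0 hd hβ hk1 hk2 (by linarith) (by linarith) hR0 (hR33' hβ hR0 hk0 (by linarith))
  have y0 := sy_nonneg hd (by linarith)
  have y1 := syR_psi hd (0.36 / (1 + 0.36 ^ 2)) 0.864 0.2754 (psi_lo hd.1.le hk2 (by norm_num)) (by linarith) (by linarith) (by linarith) (by norm_num)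
  have hD := sD_le hd 0.36 0 0.2754 1 0.576491 1.62552 hk2 y0 y1 (by norm_num) (exp2 (expm_le (E := 0.75927) (by norm_num) (by norm_num) (by norm_num)) (by norm_num)) (by norm_num) (by norm_num)
  exact near_lo hβ (by linarith) hκ hd J hV hD (by norm_num) (by norm_num)

private theorem y1c_0 {β r κ t : ℝ} (hβ : 0 < β) (hr : 10 ≤ r) (hκ : κ = β * r) (hk1 : 0.3 ≤ κ) (hk2 : κ ≤ 0.36)
    (h1 : 0.672 ≤ t + κ) (h2 : t + κ ≤ 0.7226) :
    0.87677 * Real.exp (r * (1 - 0.46048 * (t + κ) ^ 2 / (1 + κ ^ 2))) ≤ ‖Pb β r t‖ := by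
  have hpi := Real.pi_gt_d6
  have hpi2 := Real.pi_lt_d6
  have hR0 : β * 10 ≤ κ := by rw [hκ]; exact mul_le_mul_of_nonneg_left hr hβ.le
  have hk0 : 0 < κ := by linarith
  have hd : DomR κ t := ⟨hk0, by linarith, Or.inr (by linarith)⟩
  exact y1_0 hβ hr hκ hk1 hk2 (by linarith) (by linarith) (V1_piece hd 0.36 0.3 0.36 0.12246 0.1525 0.05881 0.672 0.7226 0.46048 hk1 hk2 h1 h2
    (by norm_num) (by norm_num) (by norm_num) (by norm_num) (by norm_num) (by norm_num) (by norm_num) (by norm_num) (by norm_num) (by norm_num) (by norm_num) (by norm_num) (by norm_num) (by norm_num))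

private theorem y1h_0 {β r κ t : ℝ} (hβ : 0 < β) (hr : 10 ≤ r) (hκ : κ = β * r) (hk1 : 0.3 ≤ κ) (hk2 : κ ≤ 0.36)
    (h1 : 0.0785 ≤ t + κ) (h2 : t + κ ≤ 0.864) :
    0.87677 * Real.exp (r * (1 - 0.5 * (t + κ) ^ 2 / (1 + κ ^ 2))) ≤ ‖Pb β r t‖ := by
  have hpi := Real.pi_gt_d6
  have hpi2 := Real.pi_lt_d6
  have hR0 : β * 10 ≤ κ := by rw [hκ]; exact mul_le_mul_of_nonneg_left hr hβ.le
  have hk0 : 0 < κ := by linarith
  have hd : DomR κ t := ⟨hk0, by linarith, Or.inr (by linarith)⟩
  exact y1_0 hβ hr hκ hk1 hk2 (by linarith) (by linarith) (V1_half hd (by linarith) (by linarith))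

private theorem y0o_0 {β r κ t : ℝ} (hβ : 0 < β) (hr : 10 ≤ r) (hκ : κ = β * r) (hk1 : 0.3 ≤ κ) (hk2 : κ ≤ 0.36)
    (h1 : -0.5341 ≤ t + κ) (h2 : t + κ ≤ 0.0786) :
    0.94638 * Real.exp (r * (1 - 0.59693 * (t + κ) ^ 2 / (1 + κ ^ 2))) ≤ ‖Pb β r t‖ := by
  have hpi := Real.pi_gt_d6
  have hpi2 := Real.pi_lt_d6
  have hR0 : β * 10 ≤ κ := by rw [hκ]; exact mul_le_mul_of_nonneg_left hr hβ.le
  have hk0 : 0 < κ := by linarith
  have hd : DomR κ t := ⟨hk0, by linarith, Or.inr (by linarith)⟩
  have J := jo0 hd hβ hk1 hk2 (by linarith) (by linarith) hR0 (hR33' hβ hR0 hk0 (by linarith))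
  have h := hd
  have hy1 : -0.217 ≤ sy κ t := syL_ge2 h 0.3 0.36 0.5341 0.217 0.80492 0.80493 0.477 0.48518 0.58224 hk1 hk2 (by linarith) (by norm_num) (by norm_num) (by norm_num)
    (expm_ge (by norm_num) (by norm_num) (by norm_num) (by norm_num)) (expm_le (by norm_num) (by norm_num) (by norm_num)) (by norm_num)
    (by norm_num) (by norm_num) (by norm_num) (by norm_num) (by norm_num) (by norm_num)
  have hy3 : sy κ t ≤ 0.0251 := by
    rcases le_total (t + κ) 0 with hz | hz
    · have := sy_nonpos hd hz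
      linarith
    · exact syR_psi hd (0.36 / (1 + 0.36 ^ 2)) 0.0786 0.0251 (psi_lo hd.1.le hk2 (by norm_num)) hz (by linarith) (by linarith) (by norm_num)
  have hD := sD_le hd 0.36 (-0.217) 0.0251 1.543434 0.951055 1.17346 hk2 hy1 hy3 (exp2 (E := 1.24235) (by rw [neg_neg]; exact (expn_le (by norm_num) (by norm_num) (by norm_num))) (by norm_num)) (exp2 (expm_le (E := 0.97522) (by norm_num) (by norm_num) (by norm_num)) (by norm_num)) (by norm_num) (by norm_num)
  have hV : 1 - 0.59693 * (t + κ) ^ 2 / (1 + κ ^ 2) ≤ sE κ t := by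
    rcases le_total (t + κ) 0 with hz | hz
    · exact V0_piece hd 0.36 0.3 0.36 0.8099 (0.36 / (1 + 0.36 ^ 2)) 0.13499 0.01166 0.77219 0.3187 0.59693 0.5341 hk1 hk2 (by linarith) (by linarith) (psi_lo hd.1.le hk2 (by norm_num))
          (by norm_num) (by norm_num) (by norm_num) (by norm_num) (by norm_num) (by norm_num) (by norm_num) (by norm_num) (by norm_num) (by norm_num) (by norm_num) (by norm_num) (by norm_num) (by norm_num) (by norm_num)
    · exact (V_weak (by norm_num)).trans (V1_half hd (by linarith) hz)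
  exact near_lo hβ (by linarith) hκ hd J hV hD (by norm_num) (by norm_num)

private theorem y0w_0 {β r κ t : ℝ} (hβ : 0 < β) (hr : 10 ≤ r) (hκ : κ = β * r) (hk1 : 0.3 ≤ κ) (hk2 : κ ≤ 0.36)
    (h1 : -0.7069 ≤ t + κ) (h2 : t + κ ≤ -0.534) :
    0.77599 * Real.exp (r * (1 - 0.64516 * (t + κ) ^ 2 / (1 + κ ^ 2))) ≤ ‖Pb β r t‖ := by
  have hpi := Real.pi_gt_d6
  have hpi2 := Real.pi_lt_d6
  have hR0 : β * 10 ≤ κ := by rw [hκ]; exact mul_le_mul_of_nonneg_left hr hβ.le
  have hk0 : 0 < κ := by linarith
  have hd : DomR κ t := ⟨hk0, by linarith, Or.inr (by linarith)⟩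
  have J : ‖HH β (sg κ t) - 1‖ ≤ 0.2 := by
    exact (dl0 hd hβ (by linarith) (by linarith) (by linarith) (by linarith) hR0 (hR33' hβ hR0 hk0 (by linarith)) (sg κ t) (by rw [sub_self, norm_zero]; norm_num)).trans (by norm_num)
  have h := hd
  have hy1 : -0.315 ≤ sy κ t := syL_ang2 h 0.3 0.36 0.7069 0.692 0.7699 0.6381 0.315 1.37025 0.72978 hk1 hk2 (by linarith) (by norm_num) (by norm_num) (by norm_num) (by norm_num)
    (cos_ge_num (by norm_num) (by norm_num)) (sin_le_num (by norm_num) (by norm_num))
    (expn_ge (by norm_num) (by norm_num)) (expm_ge (by norm_num) (by norm_num) (by norm_num) (by norm_num)) (by norm_num) (by norm_num) (by norm_num)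
    (by norm_num) (by norm_num) (by norm_num)
  have hD := sD_le hd 0.36 (-0.315) 0 1.877613 1 1.12961 hk2 hy1 (sy_nonpos hd (by linarith)) (exp2 (E := 1.37026) (by rw [neg_neg]; exact (expn_le (by norm_num) (by norm_num) (by norm_num))) (by norm_num)) (by norm_num) (by norm_num) (by norm_num)
  have hV : 1 - 0.64516 * (t + κ) ^ 2 / (1 + κ ^ 2) ≤ sE κ t := V0_piece hd 0.36 0.3 0.36 0.8099 (0.36 / (1 + 0.36 ^ 2)) 0.13499 0.01166 0.77219 0.3187 0.64516 0.7069 hk1 hk2 (by linarith) (by linarith) (psi_lo hd.1.le hk2 (by norm_num))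
          (by norm_num) (by norm_num) (by norm_num) (by norm_num) (by norm_num) (by norm_num) (by norm_num) (by norm_num) (by norm_num) (by norm_num) (by norm_num) (by norm_num) (by norm_num) (by norm_num) (by norm_num)
  exact near_lo hβ (by linarith) hκ hd J hV hD (by norm_num) (by norm_num)

private theorem RL_0 {β r κ t : ℝ} (hβ : 0 < β) (hr : 10 ≤ r) (hκ : κ = β * r) (hk1 : 0.3 ≤ κ) (hk2 : κ ≤ 0.36)
    (h1 : 0.05 * (Real.pi / 2) ≤ t + κ) (h2 : t + κ ≤ 0.46 * (Real.pi / 2)) :
    ‖Pb β r (t - Real.pi)‖ + ‖Pb β r (t + Real.pi / 2)‖ < |‖Pb β r t‖ - ‖Pb β r (t - Real.pi / 2)‖| := by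
  have hpi := Real.pi_gt_d6
  have hpi2 := Real.pi_lt_d6
  have hR0 : β * 10 ≤ κ := by rw [hκ]; exact mul_le_mul_of_nonneg_left hr hβ.le
  have hk0 : 0 < κ := by linarith
  have hY := y1h_0 hβ hr hκ hk1 hk2 (t := t) (by linarith) (by linarith)
  have hY0 : 0 < ‖Pb β r t‖ := lt_of_lt_of_le (mul_pos (by norm_num) (Real.exp_pos _)) hY
  have c0 : ‖Pb β r (t - Real.pi / 2)‖ ≤ 0.48845 * ‖Pb β r t‖ := by
    rcases le_total (t + κ) 0.672 with hz | hz
    · exact (cellN (t' := t - Real.pi / 2) (τ := t + κ) 0.3 0.36 0.32 0.72615 1.37713 1.37712 2.396 0.18975 0.0126 1.05714 0.03718 0.00017 0.00001 0.5 2.888 _ _ 0.0785 0.672 0.672 1.570796 0 1 0.87677 0.2402 0.3949 0.7928 0.09056 0.01934 0.0003616 2.3033 0.26436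
      hβ hr hκ hk1 hk2 (by norm_num) (by linarith) (by linarith) (by linarith) (by linarith) (by linarith) hY
      (expm_le (by norm_num) (by norm_num) (by norm_num)) (expn_ge (by norm_num) (by norm_num)) (expn_le (by norm_num) (by norm_num) (by norm_num)) (by norm_num)
      (exp_neg_leJ (r := 0.4019) 2 (by norm_num) (by norm_num) (by norm_num) (by norm_num)) (exp_neg_leJ (r := 0.9489) 3 (by norm_num) (by norm_num) (by norm_num) (by norm_num)) (exp_neg_leJ (r := 0.9279) 7 (by norm_num) (by norm_num) (by norm_num) (by norm_num))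
      (by linarith)
      (by norm_num) (by norm_num) (by norm_num) (by norm_num) (by norm_num) (by norm_num) (by norm_num) (by norm_num) (by norm_num) (by norm_num) (by norm_num) (by norm_num) (by norm_num) (by norm_num) (by norm_num) (by norm_num) (by norm_num) (by norm_num) (by norm_num) le_rfl rfl (by norm_num) (by norm_num) (by norm_num) (by norm_num) (by norm_num) (by norm_num) (by norm_num) (by norm_num) (by norm_num) (by norm_num) (by norm_num) (by norm_num) (by norm_num) (by norm_num) (by norm_num) (by norm_num) (by norm_num) (by norm_num) (by norm_num)).trans (mul_le_mul_of_nonneg_right (by norm_num) hY0.le)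
    · have hY' := y1c_0 hβ hr hκ hk1 hk2 (t := t) hz (by linarith)
      exact (cellN (t' := t - Real.pi / 2) (τ := t + κ) 0.3 0.36 0.31 0.73345 1.36343 1.36342 2.371 0.19571 0.0126 1.05344 0.03525 0.00016 0.00001 0.46048 3.166 _ _ 0.672 0.7226 0.7226 1.570796 0 1 0.87677 0.177 0.3425 0.7794 0.17056 0.03256 0.0004129 2.3033 0.48845
      hβ hr hκ hk1 hk2 (by norm_num) (by linarith) (by linarith) (by linarith) (by linarith) (by linarith) hY'
      (expm_le (by norm_num) (by norm_num) (by norm_num)) (expn_ge (by norm_num) (by norm_num)) (expn_le (by norm_num) (by norm_num) (by norm_num)) (by norm_num)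
      (exp_neg_leJ (r := 0.7699) 1 (by norm_num) (by norm_num) (by norm_num) (by norm_num)) (exp_neg_leJ (r := 0.4249) 3 (by norm_num) (by norm_num) (by norm_num) (by norm_num)) (exp_neg_leJ (r := 0.7939) 7 (by norm_num) (by norm_num) (by norm_num) (by norm_num))
      (by linarith)
      (by norm_num) (by norm_num) (by norm_num) (by norm_num) (by norm_num) (by norm_num) (by norm_num) (by norm_num) (by norm_num) (by norm_num) (by norm_num) (by norm_num) (by norm_num) (by norm_num) (by norm_num) (by norm_num) (by norm_num) (by norm_num) (by norm_num) le_rfl rfl (by norm_num) (by norm_num) (by norm_num) (by norm_num) (by norm_num) (by norm_num) (by norm_num) (by norm_num) (by norm_num) (by norm_num) (by norm_num) (by norm_num) (by norm_num) (by norm_num) (by norm_num) (by norm_num) (by norm_num) (by norm_num) (by norm_num)).trans (mul_le_mul_of_nonneg_right (by norm_num) hY0.le)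
  have cm : ‖Pb β r (t - Real.pi)‖ ≤ 0.0008 * ‖Pb β r t‖ := cellN (t' := t - Real.pi) (τ := t + κ) 0.3 0.36 0.23 0.79454 1.25861 1.2586 2.2382 0.23791 0.028 1.02862 0.02102 0.00006 0.00001 0.5 2.888 _ _ 0.0785 0.7226 0.7226 3.141592 0 1 0.87677 1.1152 1.5406 0.7604 0.00001435 0.0000003101 0.0004988 2.3033 0.0008
      hβ hr hκ hk1 hk2 (by norm_num) (by linarith) (by linarith) (by linarith) (by linarith) (by linarith) hY
      (expm_le (by norm_num) (by norm_num) (by norm_num)) (expn_ge (by norm_num) (by norm_num)) (expn_le (by norm_num) (by norm_num) (by norm_num)) (by norm_num)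
      (exp_neg_leJ (r := 0.1519) 11 (by norm_num) (by norm_num) (by norm_num) (by norm_num)) (exp_neg_leJ (r := 0.9899) 14 (by norm_num) (by norm_num) (by norm_num) (by norm_num)) (exp_neg_leJ (r := 0.6039) 7 (by norm_num) (by norm_num) (by norm_num) (by norm_num))
      (by linarith)
      (by norm_num) (by norm_num) (by norm_num) (by norm_num) (by norm_num) (by norm_num) (by norm_num) (by norm_num) (by norm_num) (by norm_num) (by norm_num) (by norm_num) (by norm_num) (by norm_num) (by norm_num) (by norm_num) (by norm_num) (by norm_num) (by norm_num) le_rfl rfl (by norm_num) (by norm_num) (by norm_num) (by norm_num) (by norm_num) (by norm_num) (by norm_num) (by norm_num) (by norm_num) (by norm_num) (by norm_num) (by norm_num) (by norm_num) (by norm_num) (by norm_num) (by norm_num) (by norm_num) (by norm_num) (by norm_num)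
  have c2 : ‖Pb β r (t + Real.pi / 2)‖ ≤ 0.00477 * ‖Pb β r t‖ := by
    rcases le_total (t + Real.pi / 2) (Real.pi / 2) with hz | hz
    · exact (cellHU (t' := t + Real.pi / 2) (τ := t + κ) 0.3 0.36 0.22 1.24608 0.80251 0.80252 3.9166 0.12185 0.0077 0.000001 87.266 0.0000003101 1.02253 0.03016 0.00019 0.00002 0.5 2.888 _ _ 0.0785 0.7226 0.7226 1.570796 0.87677 0.7294 0.8252 0.7604 0.0006797 0.0002608 0.0004988 2.3033 0.00463
      hβ hr hκ hk1 hk2 (by linarith) (by linarith) (by linarith) (by linarith) (by linarith) hY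
      (expn_le (by norm_num) (by norm_num) (by norm_num))
      (expm_ge (by norm_num) (by norm_num) (by norm_num) (by norm_num)) (expm_le (by norm_num) (by norm_num) (by norm_num)) (exp_neg_leJ (r := 0.9899) 14 (by norm_num) (by norm_num) (by norm_num) (by norm_num)) 
      (exp_neg_leJ (r := 0.2939) 7 (by norm_num) (by norm_num) (by norm_num) (by norm_num)) (exp_neg_leJ (r := 0.2519) 8 (by norm_num) (by norm_num) (by norm_num) (by norm_num)) (exp_neg_leJ (r := 0.6039) 7 (by norm_num) (by norm_num) (by norm_num) (by norm_num))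
      (by linarith)
      (by norm_num) (by norm_num) (by norm_num) (by norm_num) (by norm_num) (by norm_num) (by norm_num) (by norm_num) (by norm_num) (by norm_num) (by norm_num) (by norm_num) (by norm_num) (by norm_num) (by norm_num) (by norm_num) (by norm_num) (by norm_num) (by norm_num) (by norm_num) (by norm_num) le_rfl rfl (by norm_num) (by norm_num) (by norm_num) (by norm_num) (by norm_num) (by norm_num) (by norm_num) (by norm_num) (by norm_num) (by norm_num) (by norm_num) (by norm_num) (by norm_num) (by norm_num) (by norm_num) (by norm_num) (by norm_num) (by norm_num) (by norm_num)).trans (mul_le_mul_of_nonneg_right (by norm_num) hY0.le)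
    · exact (cellUD (t' := t + Real.pi / 2) (τ := t + κ) 0.3 0.36 0.5 0.7226 0.87677 0.7604 0.001356 0.0004988 2.3033 0.00477
      hβ hr hκ hk1 hk2 (by norm_num) (by linarith) (by linarith) (by linarith) (by linarith) hY
      (exp_neg_leJ (r := 0.6039) 6 (by norm_num) (by norm_num) (by norm_num) (by norm_num)) (exp_neg_leJ (r := 0.6039) 7 (by norm_num) (by norm_num) (by norm_num) (by norm_num)) (by norm_num) (by norm_num) (by norm_num) (by norm_num) (by norm_num) (by norm_num) (by norm_num) (by norm_num)).trans (mul_le_mul_of_nonneg_right (by norm_num) hY0.le)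
  exact out_left hY0 c0 cm c2 (by norm_num)

private theorem RR_0 {β r κ t : ℝ} (hβ : 0 < β) (hr : 10 ≤ r) (hκ : κ = β * r) (hk1 : 0.3 ≤ κ) (hk2 : κ ≤ 0.36)
    (h1 : 0.66 * (Real.pi / 2) ≤ t + κ) (h2 : t + κ ≤ (0.05 + 1) * (Real.pi / 2)) :
    ‖Pb β r (t - Real.pi)‖ + ‖Pb β r (t + Real.pi / 2)‖ < |‖Pb β r t‖ - ‖Pb β r (t - Real.pi / 2)‖| := by
  have hpi := Real.pi_gt_d6
  have hpi2 := Real.pi_lt_d6
  have hR0 : β * 10 ≤ κ := by rw [hκ]; exact mul_le_mul_of_nonneg_left hr hβ.le
  have hk0 : 0 < κ := by linarith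
  have hY := y0o_0 hβ hr hκ hk1 hk2 (t := t - Real.pi / 2) (by linarith) (by linarith)
  have hY0 : 0 < ‖Pb β r (t - Real.pi / 2)‖ := lt_of_lt_of_le (mul_pos (by norm_num) (Real.exp_pos _)) hY
  have c1 : ‖Pb β r t‖ ≤ 0.4515 * ‖Pb β r (t - Real.pi / 2)‖ := cellH (t' := t) (τ := t - Real.pi / 2 + κ) 0.3 0.36 0.19 1.20925 0.82695 0.82696 3.0665 0.1929 0.0161 0.1356 0.000001 87.266 0.0000003101 1.01697 0.02183 0.0001 0.00001 0.59693 2.888 _ _ (-0.5341) 0.0786 0.5341 1.570796 0.94638 0.2003 0.3146 0.8437 0.13495 0.04303 0.0002168 2.3033 0.4515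
      hβ hr hκ hk1 hk2 (by linarith) (by linarith) (by linarith) (by linarith) (by linarith) hY
      (expn_le (by norm_num) (by norm_num) (by norm_num))
      (expm_ge (by norm_num) (by norm_num) (by norm_num) (by norm_num)) (expm_le (by norm_num) (by norm_num) (by norm_num)) (exp_neg_leJ (r := 0.9899) 14 (by norm_num) (by norm_num) (by norm_num) (by norm_num)) 
      (exp_neg_leJ (r := 0.0029) 2 (by norm_num) (by norm_num) (by norm_num) (by norm_num)) (exp_neg_leJ (r := 0.1459) 3 (by norm_num) (by norm_num) (by norm_num) (by norm_num)) (exp_neg_leJ (r := 0.4369) 8 (by norm_num) (by norm_num) (by norm_num) (by norm_num))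
      (by linarith) (by linarith)
      (by norm_num) (by norm_num) (by norm_num) (by norm_num) (by norm_num) (by norm_num) (by norm_num) (by norm_num) (by norm_num) (by norm_num) (by norm_num) (by norm_num) (by norm_num) (by norm_num) (by norm_num) (by norm_num) (by norm_num) (by norm_num) (by norm_num) (by norm_num) (by norm_num) (by norm_num) le_rfl rfl (by norm_num) (by norm_num) (by norm_num) (by norm_num) (by norm_num) (by norm_num) (by norm_num) (by norm_num) (by norm_num) (by norm_num) (by norm_num) (by norm_num) (by norm_num) (by norm_num) (by norm_num) (by norm_num) (by norm_num) (by norm_num) (by norm_num)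
  have cm : ‖Pb β r (t - Real.pi)‖ ≤ 0.00044 * ‖Pb β r (t - Real.pi / 2)‖ := cellN (t' := t - Real.pi) (τ := t - Real.pi / 2 + κ) 0.3 0.36 0.37 0.69074 1.44774 1.44773 2.5682 0.1571 0.0161 1.07775 0.04729 0.00026 0.00002 0.59693 2.888 _ _ (-0.5341) 0.0786 0.5341 1.570796 0 1 0.94638 1.063 1.2696 0.8437 0.0000242 0.000003067 0.0002168 2.3033 0.00044
      hβ hr hκ hk1 hk2 (by norm_num) (by linarith) (by linarith) (by linarith) (by linarith) (by linarith) hY
      (expm_le (by norm_num) (by norm_num) (by norm_num)) (expn_ge (by norm_num) (by norm_num)) (expn_le (by norm_num) (by norm_num) (by norm_num)) (by norm_num)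
      (exp_neg_leJ (r := 0.6299) 10 (by norm_num) (by norm_num) (by norm_num) (by norm_num)) (exp_neg_leJ (r := 0.6959) 12 (by norm_num) (by norm_num) (by norm_num) (by norm_num)) (exp_neg_leJ (r := 0.4369) 8 (by norm_num) (by norm_num) (by norm_num) (by norm_num))
      (by linarith)
      (by norm_num) (by norm_num) (by norm_num) (by norm_num) (by norm_num) (by norm_num) (by norm_num) (by norm_num) (by norm_num) (by norm_num) (by norm_num) (by norm_num) (by norm_num) (by norm_num) (by norm_num) (by norm_num) (by norm_num) (by norm_num) (by norm_num) le_rfl rfl (by norm_num) (by norm_num) (by norm_num) (by norm_num) (by norm_num) (by norm_num) (by norm_num) (by norm_num) (by norm_num) (by norm_num) (by norm_num) (by norm_num) (by norm_num) (by norm_num) (by norm_num) (by norm_num) (by norm_num) (by norm_num) (by norm_num)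
  have c2 : ‖Pb β r (t + Real.pi / 2)‖ ≤ 0.00192 * ‖Pb β r (t - Real.pi / 2)‖ := by
    rcases le_total (t + Real.pi / 2) (Real.pi / 2) with hz | hz
    · exact (cellHU (t' := t + Real.pi / 2) (τ := t - Real.pi / 2 + κ) 0.3 0.36 0.23 1.25861 0.79453 0.79454 4.8966 0.07874 0.0077 0.000001 87.266 0.0000003101 1.02455 0.0333 0.00024 0.00002 0.59693 2.888 _ _ (-0.5341) 0.0786 0.5341 3.141592 0.94638 1.2101 1.2815 0.8437 0.000005555 0.000002725 0.0002168 2.3033 0.00035
      hβ hr hκ hk1 hk2 (by linarith) (by linarith) (by linarith) (by linarith) (by linarith) hY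
      (expn_le (by norm_num) (by norm_num) (by norm_num))
      (expm_ge (by norm_num) (by norm_num) (by norm_num) (by norm_num)) (expm_le (by norm_num) (by norm_num) (by norm_num)) (exp_neg_leJ (r := 0.9899) 14 (by norm_num) (by norm_num) (by norm_num) (by norm_num)) 
      (exp_neg_leJ (r := 0.1009) 12 (by norm_num) (by norm_num) (by norm_num) (by norm_num)) (exp_neg_leJ (r := 0.8149) 12 (by norm_num) (by norm_num) (by norm_num) (by norm_num)) (exp_neg_leJ (r := 0.4369) 8 (by norm_num) (by norm_num) (by norm_num) (by norm_num))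
      (by linarith)
      (by norm_num) (by norm_num) (by norm_num) (by norm_num) (by norm_num) (by norm_num) (by norm_num) (by norm_num) (by norm_num) (by norm_num) (by norm_num) (by norm_num) (by norm_num) (by norm_num) (by norm_num) (by norm_num) (by norm_num) (by norm_num) (by norm_num) (by norm_num) (by norm_num) le_rfl rfl (by norm_num) (by norm_num) (by norm_num) (by norm_num) (by norm_num) (by norm_num) (by norm_num) (by norm_num) (by norm_num) (by norm_num) (by norm_num) (by norm_num) (by norm_num) (by norm_num) (by norm_num) (by norm_num) (by norm_num) (by norm_num) (by norm_num)).trans (mul_le_mul_of_nonneg_right (by norm_num) hY0.le)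
    · exact (cellUD (t' := t + Real.pi / 2) (τ := t - Real.pi / 2 + κ) 0.3 0.36 0.59693 0.5341 0.94638 0.8437 0.0005892 0.0002168 2.3033 0.00192
      hβ hr hκ hk1 hk2 (by norm_num) (by linarith) (by linarith) (by linarith) (by linarith) hY
      (exp_neg_leJ (r := 0.4369) 7 (by norm_num) (by norm_num) (by norm_num) (by norm_num)) (exp_neg_leJ (r := 0.4369) 8 (by norm_num) (by norm_num) (by norm_num) (by norm_num)) (by norm_num) (by norm_num) (by norm_num) (by norm_num) (by norm_num) (by norm_num) (by norm_num) (by norm_num)).trans (mul_le_mul_of_nonneg_right (by norm_num) hY0.le)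
  exact out_right hY0 c1 cm c2 (by norm_num)

private theorem WE_0 {β r κ t : ℝ} (hβ : 0 < β) (hr : 10 ≤ r) (hκ : κ = β * r) (hk1 : 0.3 ≤ κ) (hk2 : κ ≤ 0.36)
    (h1 : 0.46 * (Real.pi / 2) ≤ t + κ) (h2 : t + κ ≤ 0.66 * (Real.pi / 2)) :
    ‖Pb β r (t + Real.pi / 2)‖ ≤ 0.01334 * max ‖Pb β r (t - Real.pi / 2)‖ ‖Pb β r t‖ ∧
    ‖Pb β r (t - Real.pi)‖ ≤ 0.00225 * max ‖Pb β r (t - Real.pi / 2)‖ ‖Pb β r t‖ ∧
    ‖Pb β r (t + Real.pi / 2 + β)‖ ≤ 0.01334 * max ‖Pb β r (t - Real.pi / 2)‖ ‖Pb β r t‖ ∧
    ‖Pb β r (t - Real.pi + β)‖ ≤ 0.00227 * max ‖Pb β r (t - Real.pi / 2)‖ ‖Pb β r t‖ := by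
  have hpi := Real.pi_gt_d6
  have hpi2 := Real.pi_lt_d6
  have hR0 : β * 10 ≤ κ := by rw [hκ]; exact mul_le_mul_of_nonneg_left hr hβ.le
  have hk0 : 0 < κ := by linarith
  rcases le_total (t + κ) (0.55 * (Real.pi / 2)) with hm | hm
  · have hY := y1h_0 hβ hr hκ hk1 hk2 (t := t) (by linarith) (by linarith)
    have hY0 : 0 ≤ ‖Pb β r t‖ := norm_nonneg _
    have hmx : ‖Pb β r t‖ ≤ max ‖Pb β r (t - Real.pi / 2)‖ ‖Pb β r t‖ := (le_max_right _ _)
    have hmx0 := hY0.trans hmx
    refine ⟨?_, ?_, ?_, ?_⟩
    · rcases le_total (t + Real.pi / 2) (Real.pi / 2) with hz | hz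
      · exact (cellHU (t' := t + Real.pi / 2) (τ := t + κ) 0.3 0.36 0.23 1.25861 0.79453 0.79454 4.8966 0.07874 0.0077 0.000001 87.266 0.0000003101 1.02455 0.0333 0.00024 0.00002 0.5 2.888 _ _ 0.7225 0.864 0.864 1.570796 0.87677 0.92 0.9914 0.6575 0.0001011 0.00004961 0.001396 2.3033 0.00289
      hβ hr hκ hk1 hk2 (by linarith) (by linarith) (by linarith) (by linarith) (by linarith) hY
      (expn_le (by norm_num) (by norm_num) (by norm_num))
      (expm_ge (by norm_num) (by norm_num) (by norm_num) (by norm_num)) (expm_le (by norm_num) (by norm_num) (by norm_num)) (exp_neg_leJ (r := 0.9899) 14 (by norm_num) (by norm_num) (by norm_num) (by norm_num)) 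
      (exp_neg_leJ (r := 0.1999) 9 (by norm_num) (by norm_num) (by norm_num) (by norm_num)) (exp_neg_leJ (r := 0.9139) 9 (by norm_num) (by norm_num) (by norm_num) (by norm_num)) (exp_neg_leJ (r := 0.5749) 6 (by norm_num) (by norm_num) (by norm_num) (by norm_num))
      (by linarith)
      (by norm_num) (by norm_num) (by norm_num) (by norm_num) (by norm_num) (by norm_num) (by norm_num) (by norm_num) (by norm_num) (by norm_num) (by norm_num) (by norm_num) (by norm_num) (by norm_num) (by norm_num) (by norm_num) (by norm_num) (by norm_num) (by norm_num) (by norm_num) (by norm_num) le_rfl rfl (by norm_num) (by norm_num) (by norm_num) (by norm_num) (by norm_num) (by norm_num) (by norm_num) (by norm_num) (by norm_num) (by norm_num) (by norm_num) (by norm_num) (by norm_num) (by norm_num) (by norm_num) (by norm_num) (by norm_num) (by norm_num) (by norm_num)).trans (mul_le_mul (by norm_num) hmx hY0 (by norm_num))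
      · exact (cellUD (t' := t + Real.pi / 2) (τ := t + κ) 0.3 0.36 0.5 0.864 0.87677 0.6575 0.003794 0.001396 2.3033 0.01334
      hβ hr hκ hk1 hk2 (by norm_num) (by linarith) (by linarith) (by linarith) (by linarith) hY
      (exp_neg_leJ (r := 0.5749) 5 (by norm_num) (by norm_num) (by norm_num) (by norm_num)) (exp_neg_leJ (r := 0.5749) 6 (by norm_num) (by norm_num) (by norm_num) (by norm_num)) (by norm_num) (by norm_num) (by norm_num) (by norm_num) (by norm_num) (by norm_num) (by norm_num) (by norm_num)).trans (mul_le_mul (by norm_num) hmx hY0 (by norm_num))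
    · exact (cellN (t' := t - Real.pi) (τ := t + κ) 0.3 0.36 0.25 0.77881 1.28403 1.28402 2.2625 0.22823 0.0187 1.03404 0.02434 0.00008 0.00001 0.5 2.888 _ _ 0.7225 0.864 0.864 3.141592 0 1 0.87677 1.0198 1.4102 0.6575 0.00003725 0.000000751 0.001396 2.3033 0.00225
      hβ hr hκ hk1 hk2 (by norm_num) (by linarith) (by linarith) (by linarith) (by linarith) (by linarith) hY
      (expm_le (by norm_num) (by norm_num) (by norm_num)) (expn_ge (by norm_num) (by norm_num)) (expn_le (by norm_num) (by norm_num) (by norm_num)) (by norm_num)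
      (exp_neg_leJ (r := 0.1979) 10 (by norm_num) (by norm_num) (by norm_num) (by norm_num)) (exp_neg_leJ (r := 0.1019) 14 (by norm_num) (by norm_num) (by norm_num) (by norm_num)) (exp_neg_leJ (r := 0.5749) 6 (by norm_num) (by norm_num) (by norm_num) (by norm_num))
      (by linarith)
      (by norm_num) (by norm_num) (by norm_num) (by norm_num) (by norm_num) (by norm_num) (by norm_num) (by norm_num) (by norm_num) (by norm_num) (by norm_num) (by norm_num) (by norm_num) (by norm_num) (by norm_num) (by norm_num) (by norm_num) (by norm_num) (by norm_num) le_rfl rfl (by norm_num) (by norm_num) (by norm_num) (by norm_num) (by norm_num) (by norm_num) (by norm_num) (by norm_num) (by norm_num) (by norm_num) (by norm_num) (by norm_num) (by norm_num) (by norm_num) (by norm_num) (by norm_num) (by norm_num) (by norm_num) (by norm_num)).trans (mul_le_mul (by norm_num) hmx hY0 (by norm_num))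
    · rcases le_total (t + Real.pi / 2 + β) (Real.pi / 2) with hz | hz
      · exact (cellHU (t' := t + Real.pi / 2 + β) (τ := t + κ) 0.3 0.36 0.23 1.25861 0.79453 0.79454 4.8966 0.07874 0.0077 0.000001 87.266 0.0000003101 1.02455 0.0333 0.00024 0.00002 0.5 2.888 _ _ 0.7225 0.864 0.864 1.570796 0.87677 0.92 0.9914 0.6575 0.0001011 0.00004961 0.001396 2.3033 0.00289
      hβ hr hκ hk1 hk2 (by linarith) (by linarith) (by linarith) (by linarith) (by linarith) hY
      (expn_le (by norm_num) (by norm_num) (by norm_num))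
      (expm_ge (by norm_num) (by norm_num) (by norm_num) (by norm_num)) (expm_le (by norm_num) (by norm_num) (by norm_num)) (exp_neg_leJ (r := 0.9899) 14 (by norm_num) (by norm_num) (by norm_num) (by norm_num)) 
      (exp_neg_leJ (r := 0.1999) 9 (by norm_num) (by norm_num) (by norm_num) (by norm_num)) (exp_neg_leJ (r := 0.9139) 9 (by norm_num) (by norm_num) (by norm_num) (by norm_num)) (exp_neg_leJ (r := 0.5749) 6 (by norm_num) (by norm_num) (by norm_num) (by norm_num))
      (by linarith)
      (by norm_num) (by norm_num) (by norm_num) (by norm_num) (by norm_num) (by norm_num) (by norm_num) (by norm_num) (by norm_num) (by norm_num) (by norm_num) (by norm_num) (by norm_num) (by norm_num) (by norm_num) (by norm_num) (by norm_num) (by norm_num) (by norm_num) (by norm_num) (by norm_num) le_rfl rfl (by norm_num) (by norm_num) (by norm_num) (by norm_num) (by norm_num) (by norm_num) (by norm_num) (by norm_num) (by norm_num) (by norm_num) (by norm_num) (by norm_num) (by norm_num) (by norm_num) (by norm_num) (by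 norm_num) (by norm_num) (by norm_num) (by norm_num)).trans (mul_le_mul (by norm_num) hmx hY0 (by norm_num))
      · exact (cellUD (t' := t + Real.pi / 2 + β) (τ := t + κ) 0.3 0.36 0.5 0.864 0.87677 0.6575 0.003794 0.001396 2.3033 0.01334
      hβ hr hκ hk1 hk2 (by norm_num) (by linarith) (by linarith) (by linarith) (by linarith) hY
      (exp_neg_leJ (r := 0.5749) 5 (by norm_num) (by norm_num) (by norm_num) (by norm_num)) (exp_neg_leJ (r := 0.5749) 6 (by norm_num) (by norm_num) (by norm_num) (by norm_num)) (by norm_num) (by norm_num) (by norm_num) (by norm_num) (by norm_num) (by norm_num) (by norm_num) (by norm_num)).trans (mul_le_mul (by norm_num) hmx hY0 (by norm_num))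
    · exact (cellN (t' := t - Real.pi + β) (τ := t + κ) 0.3 0.36 0.26 0.77106 1.29694 1.29693 2.2765 0.22318 0.0187 1.03695 0.02607 0.00009 0.00001 0.5 2.888 _ _ 0.7225 0.864 0.864 3.141592 1 1.29694 0.87677 1.0663 1.4398 0.6575 0.00002342 0.0000005586 0.001396 2.3033 0.00227
      hβ hr hκ hk1 hk2 (by norm_num) (by linarith) (by linarith) (by linarith) (by linarith) (by linarith) hY
      (expm_le (by norm_num) (by norm_num) (by norm_num)) (expn_ge (by norm_num) (by norm_num)) (expn_le (by norm_num) (by norm_num) (by norm_num)) (by rw [mul_one]; exact (expn_le (by norm_num) (by norm_num) (by norm_num)))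
      (exp_neg_leJ (r := 0.6629) 10 (by norm_num) (by norm_num) (by norm_num) (by norm_num)) (exp_neg_leJ (r := 0.3979) 14 (by norm_num) (by norm_num) (by norm_num) (by norm_num)) (exp_neg_leJ (r := 0.5749) 6 (by norm_num) (by norm_num) (by norm_num) (by norm_num))
      (by linarith)
      (by norm_num) (by norm_num) (by norm_num) (by norm_num) (by norm_num) (by norm_num) (by norm_num) (by norm_num) (by norm_num) (by norm_num) (by norm_num) (by norm_num) (by norm_num) (by norm_num) (by norm_num) (by norm_num) (by norm_num) (by norm_num) (by norm_num) le_rfl rfl (by norm_num) (by norm_num) (by norm_num) (by norm_num) (by norm_num) (by norm_num) (by norm_num) (by norm_num) (by norm_num) (by norm_num) (by norm_num) (by norm_num) (by norm_num) (by norm_num) (by norm_num) (by norm_num) (by norm_num) (by norm_num) (by norm_num)).trans (mul_le_mul (by norm_num) hmx hY0 (by norm_num))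
  · have hY := y0w_0 hβ hr hκ hk1 hk2 (t := t - Real.pi / 2) (by linarith) (by linarith)
    have hY0 : 0 ≤ ‖Pb β r (t - Real.pi / 2)‖ := norm_nonneg _
    have hmx : ‖Pb β r (t - Real.pi / 2)‖ ≤ max ‖Pb β r (t - Real.pi / 2)‖ ‖Pb β r t‖ := (le_max_left _ _)
    have hmx0 := hY0.trans hmx
    refine ⟨?_, ?_, ?_, ?_⟩
    · rcases le_total (t + Real.pi / 2) (Real.pi / 2) with hz | hz
      · exact (cellHU (t' := t + Real.pi / 2) (τ := t - Real.pi / 2 + κ) 0.3 0.36 0.23 1.25861 0.79453 0.79454 4.8966 0.07874 0.0077 0.000001 87.266 0.0000003101 1.02455 0.0333 0.00024 0.00002 0.64516 2.888 _ _ (-0.7069) (-0.534) 0.7069 3.141592 0.77599 0.965 1.0364 0.7042 0.00006447 0.00003156 0.0008745 2.3033 0.00205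
      hβ hr hκ hk1 hk2 (by linarith) (by linarith) (by linarith) (by linarith) (by linarith) hY
      (expn_le (by norm_num) (by norm_num) (by norm_num))
      (expm_ge (by norm_num) (by norm_num) (by norm_num) (by norm_num)) (expm_le (by norm_num) (by norm_num) (by norm_num)) (exp_neg_leJ (r := 0.9899) 14 (by norm_num) (by norm_num) (by norm_num) (by norm_num)) 
      (exp_neg_leJ (r := 0.6499) 9 (by norm_num) (by norm_num) (by norm_num) (by norm_num)) (exp_neg_leJ (r := 0.3639) 10 (by norm_num) (by norm_num) (by norm_num) (by norm_num)) (exp_neg_leJ (r := 0.0419) 7 (by norm_num) (by norm_num) (by norm_num) (by norm_num))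
      (by linarith)
      (by norm_num) (by norm_num) (by norm_num) (by norm_num) (by norm_num) (by norm_num) (by norm_num) (by norm_num) (by norm_num) (by norm_num) (by norm_num) (by norm_num) (by norm_num) (by norm_num) (by norm_num) (by norm_num) (by norm_num) (by norm_num) (by norm_num) (by norm_num) (by norm_num) le_rfl rfl (by norm_num) (by norm_num) (by norm_num) (by norm_num) (by norm_num) (by norm_num) (by norm_num) (by norm_num) (by norm_num) (by norm_num) (by norm_num) (by norm_num) (by norm_num) (by norm_num) (by norm_num) (by norm_num) (by norm_num) (by norm_num) (by norm_num)).trans (mul_le_mul (by norm_num) hmx hY0 (by norm_num))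
      · exact (cellUD (t' := t + Real.pi / 2) (τ := t - Real.pi / 2 + κ) 0.3 0.36 0.64516 0.7069 0.77599 0.7042 0.002378 0.0008745 2.3033 0.00945
      hβ hr hκ hk1 hk2 (by norm_num) (by linarith) (by linarith) (by linarith) (by linarith) hY
      (exp_neg_leJ (r := 0.0419) 6 (by norm_num) (by norm_num) (by norm_num) (by norm_num)) (exp_neg_leJ (r := 0.0419) 7 (by norm_num) (by norm_num) (by norm_num) (by norm_num)) (by norm_num) (by norm_num) (by norm_num) (by norm_num) (by norm_num) (by norm_num) (by norm_num) (by norm_num)).trans (mul_le_mul (by norm_num) hmx hY0 (by norm_num))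
    · exact (cellN (t' := t - Real.pi) (τ := t - Real.pi / 2 + κ) 0.3 0.36 0.25 0.77881 1.28403 1.28402 2.2625 0.22823 0.0174 1.03404 0.02434 0.00008 0.00001 0.64516 2.888 _ _ (-0.7069) (-0.534) 0.7069 1.570796 0 1 0.77599 1.065 1.4553 0.7042 0.00002372 0.0000004785 0.0008745 2.3033 0.00159
      hβ hr hκ hk1 hk2 (by norm_num) (by linarith) (by linarith) (by linarith) (by linarith) (by linarith) hY
      (expm_le (by norm_num) (by norm_num) (by norm_num)) (expn_ge (by norm_num) (by norm_num)) (expn_le (by norm_num) (by norm_num) (by norm_num)) (by norm_num)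
      (exp_neg_leJ (r := 0.6499) 10 (by norm_num) (by norm_num) (by norm_num) (by norm_num)) (exp_neg_leJ (r := 0.5529) 14 (by norm_num) (by norm_num) (by norm_num) (by norm_num)) (exp_neg_leJ (r := 0.0419) 7 (by norm_num) (by norm_num) (by norm_num) (by norm_num))
      (by linarith)
      (by norm_num) (by norm_num) (by norm_num) (by norm_num) (by norm_num) (by norm_num) (by norm_num) (by norm_num) (by norm_num) (by norm_num) (by norm_num) (by norm_num) (by norm_num) (by norm_num) (by norm_num) (by norm_num) (by norm_num) (by norm_num) (by norm_num) le_rfl rfl (by norm_num) (by norm_num) (by norm_num) (by norm_num) (by norm_num) (by norm_num) (by norm_num) (by norm_num) (by norm_num) (by norm_num) (by norm_num) (by norm_num) (by norm_num) (by norm_num) (by norm_num) (by norm_num) (by norm_num) (by norm_num) (by norm_num)).trans (mul_le_mul (by norm_num) hmx hY0 (by norm_num))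
    · rcases le_total (t + Real.pi / 2 + β) (Real.pi / 2) with hz | hz
      · exact (cellHU (t' := t + Real.pi / 2 + β) (τ := t - Real.pi / 2 + κ) 0.3 0.36 0.23 1.25861 0.79453 0.79454 4.8966 0.07874 0.0077 0.000001 87.266 0.0000003101 1.02455 0.0333 0.00024 0.00002 0.64516 2.888 _ _ (-0.7069) (-0.534) 0.7069 3.141592 0.77599 0.965 1.0364 0.7042 0.00006447 0.00003156 0.0008745 2.3033 0.00205
      hβ hr hκ hk1 hk2 (by linarith) (by linarith) (by linarith) (by linarith) (by linarith) hY
      (expn_le (by norm_num) (by norm_num) (by norm_num))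
      (expm_ge (by norm_num) (by norm_num) (by norm_num) (by norm_num)) (expm_le (by norm_num) (by norm_num) (by norm_num)) (exp_neg_leJ (r := 0.9899) 14 (by norm_num) (by norm_num) (by norm_num) (by norm_num)) 
      (exp_neg_leJ (r := 0.6499) 9 (by norm_num) (by norm_num) (by norm_num) (by norm_num)) (exp_neg_leJ (r := 0.3639) 10 (by norm_num) (by norm_num) (by norm_num) (by norm_num)) (exp_neg_leJ (r := 0.0419) 7 (by norm_num) (by norm_num) (by norm_num) (by norm_num))
      (by linarith)
      (by norm_num) (by norm_num) (by norm_num) (by norm_num) (by norm_num) (by norm_num) (by norm_num) (by norm_num) (by norm_num) (by norm_num) (by norm_num) (by norm_num) (by norm_num) (by norm_num) (by norm_num) (by norm_num) (by norm_num) (by norm_num) (by norm_num) (by norm_num) (by norm_num) le_rfl rfl (by norm_num) (by norm_num) (by norm_num) (by norm_num) (by norm_num) (by norm_num) (by norm_num) (by norm_num) (by norm_num) (by norm_num) (by norm_num) (by norm_num) (by norm_num) (by norm_num) (by norm_num) (by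 norm_num) (by norm_num) (by norm_num) (by norm_num)).trans (mul_le_mul (by norm_num) hmx hY0 (by norm_num))
      · exact (cellUD (t' := t + Real.pi / 2 + β) (τ := t - Real.pi / 2 + κ) 0.3 0.36 0.64516 0.7069 0.77599 0.7042 0.002378 0.0008745 2.3033 0.00945
      hβ hr hκ hk1 hk2 (by norm_num) (by linarith) (by linarith) (by linarith) (by linarith) hY
      (exp_neg_leJ (r := 0.0419) 6 (by norm_num) (by norm_num) (by norm_num) (by norm_num)) (exp_neg_leJ (r := 0.0419) 7 (by norm_num) (by norm_num) (by norm_num) (by norm_num)) (by norm_num) (by norm_num) (by norm_num) (by norm_num) (by norm_num) (by norm_num) (by norm_num) (by norm_num)).trans (mul_le_mul (by norm_num) hmx hY0 (by norm_num))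
    · exact (cellN (t' := t - Real.pi + β) (τ := t - Real.pi / 2 + κ) 0.3 0.36 0.25 0.77881 1.28403 1.28402 2.2625 0.22823 0.0174 1.03404 0.02434 0.00008 0.00001 0.64516 2.888 _ _ (-0.7069) (-0.534) 0.7069 1.570796 1 1.28403 0.77599 1.065 1.4553 0.7042 0.00002372 0.0000004785 0.0008745 2.3033 0.00161
      hβ hr hκ hk1 hk2 (by norm_num) (by linarith) (by linarith) (by linarith) (by linarith) (by linarith) hY
      (expm_le (by norm_num) (by norm_num) (by norm_num)) (expn_ge (by norm_num) (by norm_num)) (expn_le (by norm_num) (by norm_num) (by norm_num)) (by rw [mul_one]; exact (expn_le (by norm_num) (by norm_num) (by norm_num)))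
      (exp_neg_leJ (r := 0.6499) 10 (by norm_num) (by norm_num) (by norm_num) (by norm_num)) (exp_neg_leJ (r := 0.5529) 14 (by norm_num) (by norm_num) (by norm_num) (by norm_num)) (exp_neg_leJ (r := 0.0419) 7 (by norm_num) (by norm_num) (by norm_num) (by norm_num))
      (by linarith)
      (by norm_num) (by norm_num) (by norm_num) (by norm_num) (by norm_num) (by norm_num) (by norm_num) (by norm_num) (by norm_num) (by norm_num) (by norm_num) (by norm_num) (by norm_num) (by norm_num) (by norm_num) (by norm_num) (by norm_num) (by norm_num) (by norm_num) le_rfl rfl (by norm_num) (by norm_num) (by norm_num) (by norm_num) (by norm_num) (by norm_num) (by norm_num) (by norm_num) (by norm_num) (by norm_num) (by norm_num) (by norm_num) (by norm_num) (by norm_num) (by norm_num) (by norm_num) (by norm_num) (by norm_num) (by norm_num)).trans (mul_le_mul (by norm_num) hmx hY0 (by norm_num))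

theorem rng_0 {p : ℤ} {β r κ : ℝ} (hp : IsCoprime (4 : ℤ) p) (hβ : 0 < β) (hr : 10 ≤ r) (hκ : κ = β * r)
    (hk1 : 0.3 ≤ κ) (hk2 : κ ≤ 0.36) : Circ (2 * Real.pi * p / 4 + β) r := by
  refine circ4 (κ := κ) (s0 := 0.05) (slo := 0.46) (shi := 0.66) (a := 1.04) (m := 0.3847) (E2 := 0.01334) (Em := 0.00225) (F2 := 0.01334) (Fm := 0.00227)
    (l0 := 2.0656) (l1 := 0.8884) hp (by linarith) (by norm_num) (by norm_num) (by norm_num) (by norm_num) ?_ ?_ (by norm_num) (by norm_num)
  · intro t h1 h2
    obtain ⟨w1, w2, w3, w4⟩ := WE_0 (t := t) hβ hr hκ hk1 hk2 h1 h2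
    have S : SL β r 2.0656 0.8884 0.3847 t := by
      exact SL_mono (by linarith) (slp0 (t := t) hβ hr hκ (by linarith) (by linarith) h1 h2) (by norm_num) (by norm_num) (by norm_num)
    exact ⟨S.ne0, w1, w2, w3, w4, S.L0, S.L1, S.S⟩
  · intro t h1 h2 h3
    rcases h3 with h3 | h3
    · exact RL_0 hβ hr hκ hk1 hk2 h1 h3.le
    · exact RR_0 hβ hr hκ hk1 hk2 h3.le h2

end Sok.B4
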