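import Pool.Agent.Lib.MP_816dec_an.R1B4W
import Pool.Agent.Lib.MP_816dec_an.R1B4Sa

/-!
MP_816dec_an (A3, row R1, b = 4): range 1.
-/

set_option autoImplicit false
set_option maxHeartbeats 4000000

open Complex Set Filter Topology

namespace Sok.B4

private theorem y1_1 {β r κ t : ℝ} (hβ : 0 < β) (hr : 10 ≤ r) (hκ : κ = β * r) (hk1 : 0.36 ≤ κ) (hk2 : κ ≤ 0.42)
    (h1 : 0.0785 ≤ t + κ) (h2 : t + κ ≤ 0.864) {c : ℝ} (hV : 1 - c * (t + κ) ^ 2 / (1 + κ ^ 2) ≤ sE κ t) :
    0.86546 * Real.exp (r * (1 - c * (t + κ) ^ 2 / (1 + κ ^ 2))) ≤ ‖Pb β r t‖ := by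
  have hpi := Real.pi_gt_d6
  have hpi2 := Real.pi_lt_d6
  have hR0 : β * 10 ≤ κ := by rw [hκ]; exact mul_le_mul_of_nonneg_left hr hβ.le
  have hk0 : 0 < κ := by linarith
  have hd : DomR κ t := ⟨hk0, by linarith, Or.inr (by linarith)⟩
  have J := jr1 hd hβ hk1 hk2 (by linarith) (by linarith) hR0 (hR33' hβ hR0 hk0 (by linarith))
  have y0 := sy_nonneg hd (by linarith)
  have y1 := syR_psi hd (0.42 / (1 + 0.42 ^ 2)) 0.864 0.3085 (psi_lo hd.1.le hk2 (by norm_num)) (by linarith) (by linarith) (by linarith) (by norm_num)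
  have hD := sD_le hd 0.42 0 0.3085 1 0.539564 1.71218 hk2 y0 y1 (by norm_num) (exp2 (expm_le (E := 0.73455) (by norm_num) (by norm_num) (by norm_num)) (by norm_num)) (by norm_num) (by norm_num)
  exact near_lo hβ (by linarith) hκ hd J hV hD (by norm_num) (by norm_num)

private theorem y1c_1 {β r κ t : ℝ} (hβ : 0 < β) (hr : 10 ≤ r) (hκ : κ = β * r) (hk1 : 0.36 ≤ κ) (hk2 : κ ≤ 0.42)
    (h1 : 0.703 ≤ t + κ) (h2 : t + κ ≤ 0.754) :
    0.86546 * Real.exp (r * (1 - 0.45794 * (t + κ) ^ 2 / (1 + κ ^ 2))) ≤ ‖Pb β r t‖ := by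
  have hpi := Real.pi_gt_d6
  have hpi2 := Real.pi_lt_d6
  have hR0 : β * 10 ≤ κ := by rw [hκ]; exact mul_le_mul_of_nonneg_left hr hβ.le
  have hk0 : 0 < κ := by linarith
  have hd : DomR κ t := ⟨hk0, by linarith, Or.inr (by linarith)⟩
  exact y1_1 hβ hr hκ hk1 hk2 (by linarith) (by linarith) (V1_piece hd 0.42 0.36 0.42 0.13497 0.1681 0.05983 0.703 0.754 0.45794 hk1 hk2 h1 h2
    (by norm_num) (by norm_num) (by norm_num) (by norm_num) (by norm_num) (by norm_num) (by norm_num) (by norm_num) (by norm_num) (by norm_num) (by norm_num) (by norm_num) (by norm_num) (by norm_num))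

private theorem y1h_1 {β r κ t : ℝ} (hβ : 0 < β) (hr : 10 ≤ r) (hκ : κ = β * r) (hk1 : 0.36 ≤ κ) (hk2 : κ ≤ 0.42)
    (h1 : 0.0785 ≤ t + κ) (h2 : t + κ ≤ 0.864) :
    0.86546 * Real.exp (r * (1 - 0.5 * (t + κ) ^ 2 / (1 + κ ^ 2))) ≤ ‖Pb β r t‖ := by
  have hpi := Real.pi_gt_d6
  have hpi2 := Real.pi_lt_d6
  have hR0 : β * 10 ≤ κ := by rw [hκ]; exact mul_le_mul_of_nonneg_left hr hβ.le
  have hk0 : 0 < κ := by linarith
  have hd : DomR κ t := ⟨hk0, by linarith, Or.inr (by linarith)⟩
  exact y1_1 hβ hr hκ hk1 hk2 (by linarith) (by linarith) (V1_half hd (by linarith) (by linarith))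

private theorem y0o_1 {β r κ t : ℝ} (hβ : 0 < β) (hr : 10 ≤ r) (hκ : κ = β * r) (hk1 : 0.36 ≤ κ) (hk2 : κ ≤ 0.42)
    (h1 : -0.5341 ≤ t + κ) (h2 : t + κ ≤ 0.0786) :
    0.9319 * Real.exp (r * (1 - 0.59919 * (t + κ) ^ 2 / (1 + κ ^ 2))) ≤ ‖Pb β r t‖ := by
  have hpi := Real.pi_gt_d6
  have hpi2 := Real.pi_lt_d6
  have hR0 : β * 10 ≤ κ := by rw [hκ]; exact mul_le_mul_of_nonneg_left hr hβ.le
  have hk0 : 0 < κ := by linarith
  have hd : DomR κ t := ⟨hk0, by linarith, Or.inr (by linarith)⟩
  have J := jo1 hd hβ hk1 hk2 (by linarith) (by linarith) hR0 (hR33' hβ hR0 hk0 (by linarith))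
  have h := hd
  have hy1 : -0.249 ≤ sy κ t := syL_ge h 0.36 0.42 0.5341 0.249 0.77957 0.77958 0.4429 0.46217 0.53921 hk1 hk2 (by linarith) (by norm_num) (by norm_num) (by norm_num)
    (expm_ge (by norm_num) (by norm_num) (by norm_num) (by norm_num)) (expm_le (by norm_num) (by norm_num) (by norm_num)) (by norm_num)
    (by norm_num) (by norm_num) (by norm_num) (by norm_num) (by norm_num) (by norm_num)
  have hy3 : sy κ t ≤ 0.0281 := by
    rcases le_total (t + κ) 0 with hz | hz
    · have := sy_nonpos hd hz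
      linarith
    · exact syR_psi hd (0.42 / (1 + 0.42 ^ 2)) 0.0786 0.0281 (psi_lo hd.1.le hk2 (by norm_num)) hz (by linarith) (by linarith) (by norm_num)
  have hD := sD_le hd 0.42 (-0.249) 0.0281 1.645448 0.945368 1.22297 hk2 hy1 hy3 (exp2 (E := 1.28275) (by rw [neg_neg]; exact (expn_le (by norm_num) (by norm_num) (by norm_num))) (by norm_num)) (exp2 (expm_le (E := 0.9723) (by norm_num) (by norm_num) (by norm_num)) (by norm_num)) (by norm_num) (by norm_num)
  have hV : 1 - 0.59919 * (t + κ) ^ 2 / (1 + κ ^ 2) ≤ sE κ t := by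
    rcases le_total (t + κ) 0 with hz | hz
    · exact V0_piece hd 0.42 0.36 0.42 0.857 (0.42 / (1 + 0.42 ^ 2)) 0.14284 0.01912 0.69379 0.35703 0.59919 0.5341 hk1 hk2 (by linarith) (by linarith) (psi_lo hd.1.le hk2 (by norm_num))
          (by norm_num) (by norm_num) (by norm_num) (by norm_num) (by norm_num) (by norm_num) (by norm_num) (by norm_num) (by norm_num) (by norm_num) (by norm_num) (by norm_num) (by norm_num) (by norm_num) (by norm_num)
    · exact (V_weak (by norm_num)).trans (V1_half hd (by linarith) hz)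
  exact near_lo hβ (by linarith) hκ hd J hV hD (by norm_num) (by norm_num)

private theorem y0w_1 {β r κ t : ℝ} (hβ : 0 < β) (hr : 10 ≤ r) (hκ : κ = β * r) (hk1 : 0.36 ≤ κ) (hk2 : κ ≤ 0.42)
    (h1 : -0.7069 ≤ t + κ) (h2 : t + κ ≤ -0.534) :
    0.82576 * Real.exp (r * (1 - 0.647 * (t + κ) ^ 2 / (1 + κ ^ 2))) ≤ ‖Pb β r t‖ := by
  have hpi := Real.pi_gt_d6
  have hpi2 := Real.pi_lt_d6
  have hR0 : β * 10 ≤ κ := by rw [hκ]; exact mul_le_mul_of_nonneg_left hr hβ.le
  have hk0 : 0 < κ := by linarith
  have hd : DomR κ t := ⟨hk0, by linarith, Or.inr (by linarith)⟩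
  have J : ‖HH β (sg κ t) - 1‖ ≤ 0.14 := by
    rcases le_total κ 0.39 with f0 | g0
    · exact (dl1a hd hβ (by linarith) (by linarith) (by linarith) (by linarith) hR0 (hR33' hβ hR0 hk0 (by linarith)) (sg κ t) (by rw [sub_self, norm_zero]; norm_num)).trans (by norm_num)
    exact (dl1b hd hβ (by linarith) (by linarith) (by linarith) (by linarith) hR0 (hR33' hβ hR0 hk0 (by linarith)) (sg κ t) (by rw [sub_self, norm_zero]; norm_num)).trans (by norm_num)
  have h := hd
  have hy1 : -0.37 ≤ sy κ t := syL_ge2 h 0.36 0.42 0.7069 0.37 0.69073 0.69074 0.6084 0.6085 0.70993 hk1 hk2 (by linarith) (by norm_num) (by norm_num) (by norm_num)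
    (expm_ge (by norm_num) (by norm_num) (by norm_num) (by norm_num)) (expm_le (by norm_num) (by norm_num) (by norm_num)) (by norm_num)
    (by norm_num) (by norm_num) (by norm_num) (by norm_num) (by norm_num) (by norm_num)
  have hD := sD_le hd 0.42 (-0.37) 0 2.095952 1 1.17641 hk2 hy1 (sy_nonpos hd (by linarith)) (exp2 (E := 1.44774) (by rw [neg_neg]; exact (expn_le (by norm_num) (by norm_num) (by norm_num))) (by norm_num)) (by norm_num) (by norm_num) (by norm_num)
  have hV : 1 - 0.647 * (t + κ) ^ 2 / (1 + κ ^ 2) ≤ sE κ t := V0_piece hd 0.42 0.36 0.42 0.857 (0.42 / (1 + 0.42 ^ 2)) 0.14284 0.01912 0.69379 0.35703 0.647 0.7069 hk1 hk2 (by linarith) (by linarith) (psi_lo hd.1.le hk2 (by norm_num))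
          (by norm_num) (by norm_num) (by norm_num) (by norm_num) (by norm_num) (by norm_num) (by norm_num) (by norm_num) (by norm_num) (by norm_num) (by norm_num) (by norm_num) (by norm_num) (by norm_num) (by norm_num)
  exact near_lo hβ (by linarith) hκ hd J hV hD (by norm_num) (by norm_num)

private theorem RL_1 {β r κ t : ℝ} (hβ : 0 < β) (hr : 10 ≤ r) (hκ : κ = β * r) (hk1 : 0.36 ≤ κ) (hk2 : κ ≤ 0.42)
    (h1 : 0.05 * (Real.pi / 2) ≤ t + κ) (h2 : t + κ ≤ 0.48 * (Real.pi / 2)) :
    ‖Pb β r (t - Real.pi)‖ + ‖Pb β r (t + Real.pi / 2)‖ < |‖Pb β r t‖ - ‖Pb β r (t - Real.pi / 2)‖| := by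
  have hpi := Real.pi_gt_d6
  have hpi2 := Real.pi_lt_d6
  have hR0 : β * 10 ≤ κ := by rw [hκ]; exact mul_le_mul_of_nonneg_left hr hβ.le
  have hk0 : 0 < κ := by linarith
  have hY := y1h_1 hβ hr hκ hk1 hk2 (t := t) (by linarith) (by linarith)
  have hY0 : 0 < ‖Pb β r t‖ := lt_of_lt_of_le (mul_pos (by norm_num) (Real.exp_pos _)) hY
  have c0 : ‖Pb β r (t - Real.pi / 2)‖ ≤ 0.59406 * ‖Pb β r t‖ := by
    rcases le_total (t + κ) 0.703 with hz | hz
    · exact (cellN (t' := t - Real.pi / 2) (τ := t + κ) 0.36 0.42 0.42 0.65705 1.52197 1.52196 2.0648 0.23118 0.0151 1.10198 0.05796 0.00037 0.00003 0.5 2.698 _ _ 0.0785 0.703 0.703 1.570796 0 1 0.86546 0.2086 0.381 0.7812 0.1242 0.02219 0.0004055 2.1027 0.3197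
      hβ hr hκ hk1 hk2 (by norm_num) (by linarith) (by linarith) (by linarith) (by linarith) (by linarith) hY
      (expm_le (by norm_num) (by norm_num) (by norm_num)) (expn_ge (by norm_num) (by norm_num)) (expn_le (by norm_num) (by norm_num) (by norm_num)) (by norm_num)
      (exp_neg_leJ (r := 0.0859) 2 (by norm_num) (by norm_num) (by norm_num) (by norm_num)) (exp_neg_leJ (r := 0.8099) 3 (by norm_num) (by norm_num) (by norm_num) (by norm_num)) (exp_neg_leJ (r := 0.8119) 7 (by norm_num) (by norm_num) (by norm_num) (by norm_num))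
      (by linarith)
      (by norm_num) (by norm_num) (by norm_num) (by norm_num) (by norm_num) (by norm_num) (by norm_num) (by norm_num) (by norm_num) (by norm_num) (by norm_num) (by norm_num) (by norm_num) (by norm_num) (by norm_num) (by norm_num) (by norm_num) (by norm_num) (by norm_num) le_rfl rfl (by norm_num) (by norm_num) (by norm_num) (by norm_num) (by norm_num) (by norm_num) (by norm_num) (by norm_num) (by norm_num) (by norm_num) (by norm_num) (by norm_num) (by norm_num) (by norm_num) (by norm_num) (by norm_num) (by norm_num) (by norm_num) (by norm_num)).trans (mul_le_mul_of_nonneg_right (by norm_num) hY0.le)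
    · have hY' := y1c_1 hβ hr hκ hk1 hk2 (t := t) hz (by linarith)
      exact (cellN (t' := t - Real.pi / 2) (τ := t + κ) 0.36 0.42 0.38 0.68387 1.46229 1.46228 2.0292 0.24913 0.0151 1.0823 0.04938 0.00028 0.00002 0.45794 2.619 _ _ 0.703 0.754 0.754 1.570796 0 1 0.86546 0.1421 0.3533 0.7695 0.24152 0.02923 0.0004555 2.1027 0.59406
      hβ hr hκ hk1 hk2 (by norm_num) (by linarith) (by linarith) (by linarith) (by linarith) (by linarith) hY'
      (expm_le (by norm_num) (by norm_num) (by norm_num)) (expn_ge (by norm_num) (by norm_num)) (expn_le (by norm_num) (by norm_num) (by norm_num)) (by norm_num)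
      (exp_neg_leJ (r := 0.4209) 1 (by norm_num) (by norm_num) (by norm_num) (by norm_num)) (exp_neg_leJ (r := 0.5329) 3 (by norm_num) (by norm_num) (by norm_num) (by norm_num)) (exp_neg_leJ (r := 0.6949) 7 (by norm_num) (by norm_num) (by norm_num) (by norm_num))
      (by linarith)
      (by norm_num) (by norm_num) (by norm_num) (by norm_num) (by norm_num) (by norm_num) (by norm_num) (by norm_num) (by norm_num) (by norm_num) (by norm_num) (by norm_num) (by norm_num) (by norm_num) (by norm_num) (by norm_num) (by norm_num) (by norm_num) (by norm_num) le_rfl rfl (by norm_num) (by norm_num) (by norm_num) (by norm_num) (by norm_num) (by norm_num) (by norm_num) (by norm_num) (by norm_num) (by norm_num) (by norm_num) (by norm_num) (by norm_num) (by norm_num) (by norm_num) (by norm_num) (by norm_num) (by norm_num) (by norm_num)).trans (mul_le_mul_of_nonneg_right (by norm_num) hY0.le)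
  have cm : ‖Pb β r (t - Real.pi)‖ ≤ 0.0009 * ‖Pb β r t‖ := cellN (t' := t - Real.pi) (τ := t + κ) 0.36 0.42 0.27 0.76338 1.30997 1.30996 1.9697 0.29515 0.0342 1.03998 0.02783 0.0001 0.00001 0.5 2.46 _ _ 0.0785 0.754 0.754 3.141592 0 1 0.86546 1.0903 1.5533 0.7483 0.00001845 0.0000003101 0.0005628 2.1027 0.0009
      hβ hr hκ hk1 hk2 (by norm_num) (by linarith) (by linarith) (by linarith) (by linarith) (by linarith) hY
      (expm_le (by norm_num) (by norm_num) (by norm_num)) (expn_ge (by norm_num) (by norm_num)) (expn_le (by norm_num) (by norm_num) (by norm_num)) (by norm_num)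
      (exp_neg_leJ (r := 0.9029) 10 (by norm_num) (by norm_num) (by norm_num) (by norm_num)) (exp_neg_leJ (r := 0.9899) 14 (by norm_num) (by norm_num) (by norm_num) (by norm_num)) (exp_neg_leJ (r := 0.4829) 7 (by norm_num) (by norm_num) (by norm_num) (by norm_num))
      (by linarith)
      (by norm_num) (by norm_num) (by norm_num) (by norm_num) (by norm_num) (by norm_num) (by norm_num) (by norm_num) (by norm_num) (by norm_num) (by norm_num) (by norm_num) (by norm_num) (by norm_num) (by norm_num) (by norm_num) (by norm_num) (by norm_num) (by norm_num) le_rfl rfl (by norm_num) (by norm_num) (by norm_num) (by norm_num) (by norm_num) (by norm_num) (by norm_num) (by norm_num) (by norm_num) (by norm_num) (by norm_num) (by norm_num) (by norm_num) (by norm_num) (by norm_num) (by norm_num) (by norm_num) (by norm_num) (by norm_num)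
  have c2 : ‖Pb β r (t + Real.pi / 2)‖ ≤ 0.0054 * ‖Pb β r t‖ := by
    rcases le_total (t + Real.pi / 2) (Real.pi / 2) with hz | hz
    · exact (cellHU (t' := t + Real.pi / 2) (τ := t + κ) 0.36 0.42 0.25 1.28403 0.7788 0.77881 3.438 0.16295 0.009 0.000001 71.426 0.0000003101 1.02882 0.04013 0.00035 0.00004 0.5 2.46 _ _ 0.0785 0.754 0.754 1.570796 0.86546 0.7042 0.7941 0.7483 0.0008745 0.0003569 0.0005628 2.1027 0.0054
      hβ hr hκ hk1 hk2 (by linarith) (by linarith) (by linarith) (by linarith) (by linarith) hY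
      (expn_le (by norm_num) (by norm_num) (by norm_num))
      (expm_ge (by norm_num) (by norm_num) (by norm_num) (by norm_num)) (expm_le (by norm_num) (by norm_num) (by norm_num)) (exp_neg_leJ (r := 0.9899) 14 (by norm_num) (by norm_num) (by norm_num) (by norm_num)) 
      (exp_neg_leJ (r := 0.0419) 7 (by norm_num) (by norm_num) (by norm_num) (by norm_num)) (exp_neg_leJ (r := 0.9409) 7 (by norm_num) (by norm_num) (by norm_num) (by norm_num)) (exp_neg_leJ (r := 0.4829) 7 (by norm_num) (by norm_num) (by norm_num) (by norm_num))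
      (by linarith)
      (by norm_num) (by norm_num) (by norm_num) (by norm_num) (by norm_num) (by norm_num) (by norm_num) (by norm_num) (by norm_num) (by norm_num) (by norm_num) (by norm_num) (by norm_num) (by norm_num) (by norm_num) (by norm_num) (by norm_num) (by norm_num) (by norm_num) (by norm_num) (by norm_num) le_rfl rfl (by norm_num) (by norm_num) (by norm_num) (by norm_num) (by norm_num) (by norm_num) (by norm_num) (by norm_num) (by norm_num) (by norm_num) (by norm_num) (by norm_num) (by norm_num) (by norm_num) (by norm_num) (by norm_num) (by norm_num) (by norm_num) (by norm_num)).trans (mul_le_mul_of_nonneg_right (by norm_num) hY0.le)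
    · exact (cellUD (t' := t + Real.pi / 2) (τ := t + κ) 0.36 0.42 0.5 0.754 0.86546 0.7483 0.00153 0.0005628 2.1027 0.00522
      hβ hr hκ hk1 hk2 (by norm_num) (by linarith) (by linarith) (by linarith) (by linarith) hY
      (exp_neg_leJ (r := 0.4829) 6 (by norm_num) (by norm_num) (by norm_num) (by norm_num)) (exp_neg_leJ (r := 0.4829) 7 (by norm_num) (by norm_num) (by norm_num) (by norm_num)) (by norm_num) (by norm_num) (by norm_num) (by norm_num) (by norm_num) (by norm_num) (by norm_num) (by norm_num)).trans (mul_le_mul_of_nonneg_right (by norm_num) hY0.le)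
  exact out_left hY0 c0 cm c2 (by norm_num)

private theorem RR_1 {β r κ t : ℝ} (hβ : 0 < β) (hr : 10 ≤ r) (hκ : κ = β * r) (hk1 : 0.36 ≤ κ) (hk2 : κ ≤ 0.42)
    (h1 : 0.66 * (Real.pi / 2) ≤ t + κ) (h2 : t + κ ≤ (0.05 + 1) * (Real.pi / 2)) :
    ‖Pb β r (t - Real.pi)‖ + ‖Pb β r (t + Real.pi / 2)‖ < |‖Pb β r t‖ - ‖Pb β r (t - Real.pi / 2)‖| := by
  have hpi := Real.pi_gt_d6
  have hpi2 := Real.pi_lt_d6
  have hR0 : β * 10 ≤ κ := by rw [hκ]; exact mul_le_mul_of_nonneg_left hr hβ.le
  have hk0 : 0 < κ := by linarith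
  have hY := y0o_1 hβ hr hκ hk1 hk2 (t := t - Real.pi / 2) (by linarith) (by linarith)
  have hY0 : 0 < ‖Pb β r (t - Real.pi / 2)‖ := lt_of_lt_of_le (mul_pos (by norm_num) (Real.exp_pos _)) hY
  have c1 : ‖Pb β r t‖ ≤ 0.45021 * ‖Pb β r (t - Real.pi / 2)‖ := cellH (t' := t) (τ := t - Real.pi / 2 + κ) 0.36 0.42 0.22 1.24608 0.80251 0.80252 2.8303 0.23334 0.0193 0.128 0.000001 71.426 0.0000003101 1.02253 0.03016 0.00019 0.00002 0.59919 2.46 _ _ (-0.5341) 0.0786 0.5341 1.570796 0.9319 0.1944 0.3015 0.8486 0.14356 0.04906 0.0002064 2.1027 0.45021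
      hβ hr hκ hk1 hk2 (by linarith) (by linarith) (by linarith) (by linarith) (by linarith) hY
      (expn_le (by norm_num) (by norm_num) (by norm_num))
      (expm_ge (by norm_num) (by norm_num) (by norm_num) (by norm_num)) (expm_le (by norm_num) (by norm_num) (by norm_num)) (exp_neg_leJ (r := 0.9899) 14 (by norm_num) (by norm_num) (by norm_num) (by norm_num)) 
      (exp_neg_leJ (r := 0.9439) 1 (by norm_num) (by norm_num) (by norm_num) (by norm_num)) (exp_neg_leJ (r := 0.0149) 3 (by norm_num) (by norm_num) (by norm_num) (by norm_num)) (exp_neg_leJ (r := 0.4859) 8 (by norm_num) (by norm_num) (by norm_num) (by norm_num))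
      (by linarith) (by linarith)
      (by norm_num) (by norm_num) (by norm_num) (by norm_num) (by norm_num) (by norm_num) (by norm_num) (by norm_num) (by norm_num) (by norm_num) (by norm_num) (by norm_num) (by norm_num) (by norm_num) (by norm_num) (by norm_num) (by norm_num) (by norm_num) (by norm_num) (by norm_num) (by norm_num) (by norm_num) le_rfl rfl (by norm_num) (by norm_num) (by norm_num) (by norm_num) (by norm_num) (by norm_num) (by norm_num) (by norm_num) (by norm_num) (by norm_num) (by norm_num) (by norm_num) (by norm_num) (by norm_num) (by norm_num) (by norm_num) (by norm_num) (by norm_num) (by norm_num)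
  have cm : ‖Pb β r (t - Real.pi)‖ ≤ 0.00041 * ‖Pb β r (t - Real.pi / 2)‖ := cellN (t' := t - Real.pi) (τ := t - Real.pi / 2 + κ) 0.36 0.42 0.45 0.63763 1.56832 1.56831 2.0975 0.21741 0.0193 1.11833 0.06457 0.00045 0.00004 0.59919 2.46 _ _ (-0.5341) 0.0786 0.5341 1.570796 0 1 0.9319 1.0895 1.3484 0.8486 0.0000186 0.000001394 0.0002064 2.1027 0.00041
      hβ hr hκ hk1 hk2 (by norm_num) (by linarith) (by linarith) (by linarith) (by linarith) (by linarith) hY
      (expm_le (by norm_num) (by norm_num) (by norm_num)) (expn_ge (by norm_num) (by norm_num)) (expn_le (by norm_num) (by norm_num) (by norm_num)) (by norm_num)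
      (exp_neg_leJ (r := 0.8949) 10 (by norm_num) (by norm_num) (by norm_num) (by norm_num)) (exp_neg_leJ (r := 0.4839) 13 (by norm_num) (by norm_num) (by norm_num) (by norm_num)) (exp_neg_leJ (r := 0.4859) 8 (by norm_num) (by norm_num) (by norm_num) (by norm_num))
      (by linarith)
      (by norm_num) (by norm_num) (by norm_num) (by norm_num) (by norm_num) (by norm_num) (by norm_num) (by norm_num) (by norm_num) (by norm_num) (by norm_num) (by norm_num) (by norm_num) (by norm_num) (by norm_num) (by norm_num) (by norm_num) (by norm_num) (by norm_num) le_rfl rfl (by norm_num) (by norm_num) (by norm_num) (by norm_num) (by norm_num) (by norm_num) (by norm_num) (by norm_num) (by norm_num) (by norm_num) (by norm_num) (by norm_num) (by norm_num) (by norm_num) (by norm_num) (by norm_num) (by norm_num) (by norm_num) (by norm_num)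
  have c2 : ‖Pb β r (t + Real.pi / 2)‖ ≤ 0.00178 * ‖Pb β r (t - Real.pi / 2)‖ := by
    rcases le_total (t + Real.pi / 2) (Real.pi / 2) with hz | hz
    · exact (cellHU (t' := t + Real.pi / 2) (τ := t - Real.pi / 2 + κ) 0.36 0.42 0.26 1.29694 0.77105 0.77106 3.9285 0.12606 0.009 0.000001 71.426 0.0000003101 1.03107 0.04384 0.00042 0.00005 0.59919 2.46 _ _ (-0.5341) 0.0786 0.5341 3.141592 0.9319 1.1666 1.2364 0.8486 0.000008587 0.000004271 0.0002064 2.1027 0.00034
      hβ hr hκ hk1 hk2 (by linarith) (by linarith) (by linarith) (by linarith) (by linarith) hY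
      (expn_le (by norm_num) (by norm_num) (by norm_num))
      (expm_ge (by norm_num) (by norm_num) (by norm_num) (by norm_num)) (expm_le (by norm_num) (by norm_num) (by norm_num)) (exp_neg_leJ (r := 0.9899) 14 (by norm_num) (by norm_num) (by norm_num) (by norm_num)) 
      (exp_neg_leJ (r := 0.6659) 11 (by norm_num) (by norm_num) (by norm_num) (by norm_num)) (exp_neg_leJ (r := 0.3639) 12 (by norm_num) (by norm_num) (by norm_num) (by norm_num)) (exp_neg_leJ (r := 0.4859) 8 (by norm_num) (by norm_num) (by norm_num) (by norm_num))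
      (by linarith)
      (by norm_num) (by norm_num) (by norm_num) (by norm_num) (by norm_num) (by norm_num) (by norm_num) (by norm_num) (by norm_num) (by norm_num) (by norm_num) (by norm_num) (by norm_num) (by norm_num) (by norm_num) (by norm_num) (by norm_num) (by norm_num) (by norm_num) (by norm_num) (by norm_num) le_rfl rfl (by norm_num) (by norm_num) (by norm_num) (by norm_num) (by norm_num) (by norm_num) (by norm_num) (by norm_num) (by norm_num) (by norm_num) (by norm_num) (by norm_num) (by norm_num) (by norm_num) (by norm_num) (by norm_num) (by norm_num) (by norm_num) (by norm_num)).trans (mul_le_mul_of_nonneg_right (by norm_num) hY0.le)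
    · exact (cellUD (t' := t + Real.pi / 2) (τ := t - Real.pi / 2 + κ) 0.36 0.42 0.59919 0.5341 0.9319 0.8486 0.0005611 0.0002064 2.1027 0.00178
      hβ hr hκ hk1 hk2 (by norm_num) (by linarith) (by linarith) (by linarith) (by linarith) hY
      (exp_neg_leJ (r := 0.4859) 7 (by norm_num) (by norm_num) (by norm_num) (by norm_num)) (exp_neg_leJ (r := 0.4859) 8 (by norm_num) (by norm_num) (by norm_num) (by norm_num)) (by norm_num) (by norm_num) (by norm_num) (by norm_num) (by norm_num) (by norm_num) (by norm_num) (by norm_num)).trans (mul_le_mul_of_nonneg_right (by norm_num) hY0.le)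
  exact out_right hY0 c1 cm c2 (by norm_num)

private theorem WE_1 {β r κ t : ℝ} (hβ : 0 < β) (hr : 10 ≤ r) (hκ : κ = β * r) (hk1 : 0.36 ≤ κ) (hk2 : κ ≤ 0.42)
    (h1 : 0.48 * (Real.pi / 2) ≤ t + κ) (h2 : t + κ ≤ 0.66 * (Real.pi / 2)) :
    ‖Pb β r (t + Real.pi / 2)‖ ≤ 0.01148 * max ‖Pb β r (t - Real.pi / 2)‖ ‖Pb β r t‖ ∧
    ‖Pb β r (t - Real.pi)‖ ≤ 0.00198 * max ‖Pb β r (t - Real.pi / 2)‖ ‖Pb β r t‖ ∧
    ‖Pb β r (t + Real.pi / 2 + β)‖ ≤ 0.01148 * max ‖Pb β r (t - Real.pi / 2)‖ ‖Pb β r t‖ ∧
    ‖Pb β r (t - Real.pi + β)‖ ≤ 0.00201 * max ‖Pb β r (t - Real.pi / 2)‖ ‖Pb β r t‖ := by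
  have hpi := Real.pi_gt_d6
  have hpi2 := Real.pi_lt_d6
  have hR0 : β * 10 ≤ κ := by rw [hκ]; exact mul_le_mul_of_nonneg_left hr hβ.le
  have hk0 : 0 < κ := by linarith
  rcases le_total (t + κ) (0.55 * (Real.pi / 2)) with hm | hm
  · have hY := y1h_1 hβ hr hκ hk1 hk2 (t := t) (by linarith) (by linarith)
    have hY0 : 0 ≤ ‖Pb β r t‖ := norm_nonneg _
    have hmx : ‖Pb β r t‖ ≤ max ‖Pb β r (t - Real.pi / 2)‖ ‖Pb β r t‖ := (le_max_right _ _)
    have hmx0 := hY0.trans hmx
    refine ⟨?_, ?_, ?_, ?_⟩
    · rcases le_total (t + Real.pi / 2) (Real.pi / 2) with hz | hz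
      · exact (cellHU (t' := t + Real.pi / 2) (τ := t + κ) 0.36 0.42 0.26 1.29694 0.77105 0.77106 3.9285 0.12606 0.009 0.000001 71.426 0.0000003101 1.03107 0.04384 0.00042 0.00005 0.5 2.46 _ _ 0.7539 0.864 0.864 1.570796 0.86546 0.8876 0.9574 0.6695 0.0001401 0.00006955 0.001239 2.1027 0.00274
      hβ hr hκ hk1 hk2 (by linarith) (by linarith) (by linarith) (by linarith) (by linarith) hY
      (expn_le (by norm_num) (by norm_num) (by norm_num))
      (expm_ge (by norm_num) (by norm_num) (by norm_num) (by norm_num)) (expm_le (by norm_num) (by norm_num) (by norm_num)) (exp_neg_leJ (r := 0.9899) 14 (by norm_num) (by norm_num) (by norm_num) (by norm_num)) 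
      (exp_neg_leJ (r := 0.8759) 8 (by norm_num) (by norm_num) (by norm_num) (by norm_num)) (exp_neg_leJ (r := 0.5739) 9 (by norm_num) (by norm_num) (by norm_num) (by norm_num)) (exp_neg_leJ (r := 0.6949) 6 (by norm_num) (by norm_num) (by norm_num) (by norm_num))
      (by linarith)
      (by norm_num) (by norm_num) (by norm_num) (by norm_num) (by norm_num) (by norm_num) (by norm_num) (by norm_num) (by norm_num) (by norm_num) (by norm_num) (by norm_num) (by norm_num) (by norm_num) (by norm_num) (by norm_num) (by norm_num) (by norm_num) (by norm_num) (by norm_num) (by norm_num) le_rfl rfl (by norm_num) (by norm_num) (by norm_num) (by norm_num) (by norm_num) (by norm_num) (by norm_num) (by norm_num) (by norm_num) (by norm_num) (by norm_num) (by norm_num) (by norm_num) (by norm_num) (by norm_num) (by norm_num) (by norm_num) (by norm_num) (by norm_num)).trans (mul_le_mul (by norm_num) hmx hY0 (by norm_num))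
      · exact (cellUD (t' := t + Real.pi / 2) (τ := t + κ) 0.36 0.42 0.5 0.864 0.86546 0.6695 0.003366 0.001239 2.1027 0.01148
      hβ hr hκ hk1 hk2 (by norm_num) (by linarith) (by linarith) (by linarith) (by linarith) hY
      (exp_neg_leJ (r := 0.6949) 5 (by norm_num) (by norm_num) (by norm_num) (by norm_num)) (exp_neg_leJ (r := 0.6949) 6 (by norm_num) (by norm_num) (by norm_num) (by norm_num)) (by norm_num) (by norm_num) (by norm_num) (by norm_num) (by norm_num) (by norm_num) (by norm_num) (by norm_num)).trans (mul_le_mul (by norm_num) hmx hY0 (by norm_num))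
    · exact (cellN (t' := t - Real.pi) (τ := t + κ) 0.36 0.42 0.29 0.74827 1.33643 1.33642 1.9768 0.28724 0.0221 1.04644 0.03147 0.00013 0.00001 0.5 2.46 _ _ 0.7539 0.864 0.864 3.141592 0 1 0.86546 1.0243 1.4606 0.6695 0.00003561 0.0000004539 0.001239 2.1027 0.00198
      hβ hr hκ hk1 hk2 (by norm_num) (by linarith) (by linarith) (by linarith) (by linarith) (by linarith) hY
      (expm_le (by norm_num) (by norm_num) (by norm_num)) (expn_ge (by norm_num) (by norm_num)) (expn_le (by norm_num) (by norm_num) (by norm_num)) (by norm_num)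
      (exp_neg_leJ (r := 0.2429) 10 (by norm_num) (by norm_num) (by norm_num) (by norm_num)) (exp_neg_leJ (r := 0.6059) 14 (by norm_num) (by norm_num) (by norm_num) (by norm_num)) (exp_neg_leJ (r := 0.6949) 6 (by norm_num) (by norm_num) (by norm_num) (by norm_num))
      (by linarith)
      (by norm_num) (by norm_num) (by norm_num) (by norm_num) (by norm_num) (by norm_num) (by norm_num) (by norm_num) (by norm_num) (by norm_num) (by norm_num) (by norm_num) (by norm_num) (by norm_num) (by norm_num) (by norm_num) (by norm_num) (by norm_num) (by norm_num) le_rfl rfl (by norm_num) (by norm_num) (by norm_num) (by norm_num) (by norm_num) (by norm_num) (by norm_num) (by norm_num) (by norm_num) (by norm_num) (by norm_num) (by norm_num) (by norm_num) (by norm_num) (by norm_num) (by norm_num) (by norm_num) (by norm_num) (by norm_num)).trans (mul_le_mul (by norm_num) hmx hY0 (by norm_num))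
    · rcases le_total (t + Real.pi / 2 + β) (Real.pi / 2) with hz | hz
      · exact (cellHU (t' := t + Real.pi / 2 + β) (τ := t + κ) 0.36 0.42 0.26 1.29694 0.77105 0.77106 3.9285 0.12606 0.009 0.000001 71.426 0.0000003101 1.03107 0.04384 0.00042 0.00005 0.5 2.46 _ _ 0.7539 0.864 0.864 1.570796 0.86546 0.8876 0.9574 0.6695 0.0001401 0.00006955 0.001239 2.1027 0.00274
      hβ hr hκ hk1 hk2 (by linarith) (by linarith) (by linarith) (by linarith) (by linarith) hY
      (expn_le (by norm_num) (by norm_num) (by norm_num))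
      (expm_ge (by norm_num) (by norm_num) (by norm_num) (by norm_num)) (expm_le (by norm_num) (by norm_num) (by norm_num)) (exp_neg_leJ (r := 0.9899) 14 (by norm_num) (by norm_num) (by norm_num) (by norm_num)) 
      (exp_neg_leJ (r := 0.8759) 8 (by norm_num) (by norm_num) (by norm_num) (by norm_num)) (exp_neg_leJ (r := 0.5739) 9 (by norm_num) (by norm_num) (by norm_num) (by norm_num)) (exp_neg_leJ (r := 0.6949) 6 (by norm_num) (by norm_num) (by norm_num) (by norm_num))
      (by linarith)
      (by norm_num) (by norm_num) (by norm_num) (by norm_num) (by norm_num) (by norm_num) (by norm_num) (by norm_num) (by norm_num) (by norm_num) (by norm_num) (by norm_num) (by norm_num) (by norm_num) (by norm_num) (by norm_num) (by norm_num) (by norm_num) (by norm_num) (by norm_num) (by norm_num) le_rfl rfl (by norm_num) (by norm_num) (by norm_num) (by norm_num) (by norm_num) (by norm_num) (by norm_num) (by norm_num) (by norm_num) (by norm_num) (by norm_num) (by norm_num) (by norm_num) (by norm_num) (by norm_num) (by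 norm_num) (by norm_num) (by norm_num) (by norm_num)).trans (mul_le_mul (by norm_num) hmx hY0 (by norm_num))
      · exact (cellUD (t' := t + Real.pi / 2 + β) (τ := t + κ) 0.36 0.42 0.5 0.864 0.86546 0.6695 0.003366 0.001239 2.1027 0.01148
      hβ hr hκ hk1 hk2 (by norm_num) (by linarith) (by linarith) (by linarith) (by linarith) hY
      (exp_neg_leJ (r := 0.6949) 5 (by norm_num) (by norm_num) (by norm_num) (by norm_num)) (exp_neg_leJ (r := 0.6949) 6 (by norm_num) (by norm_num) (by norm_num) (by norm_num)) (by norm_num) (by norm_num) (by norm_num) (by norm_num) (by norm_num) (by norm_num) (by norm_num) (by norm_num)).trans (mul_le_mul (by norm_num) hmx hY0 (by norm_num))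
    · exact (cellN (t' := t - Real.pi + β) (τ := t + κ) 0.36 0.42 0.29 0.74827 1.33643 1.33642 1.9768 0.28724 0.0221 1.04644 0.03147 0.00013 0.00001 0.5 2.46 _ _ 0.7539 0.864 0.864 3.141592 1 1.33643 0.86546 1.0243 1.4606 0.6695 0.00003561 0.0000004539 0.001239 2.1027 0.00201
      hβ hr hκ hk1 hk2 (by norm_num) (by linarith) (by linarith) (by linarith) (by linarith) (by linarith) hY
      (expm_le (by norm_num) (by norm_num) (by norm_num)) (expn_ge (by norm_num) (by norm_num)) (expn_le (by norm_num) (by norm_num) (by norm_num)) (by rw [mul_one]; exact (expn_le (by norm_num) (by norm_num) (by norm_num)))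
      (exp_neg_leJ (r := 0.2429) 10 (by norm_num) (by norm_num) (by norm_num) (by norm_num)) (exp_neg_leJ (r := 0.6059) 14 (by norm_num) (by norm_num) (by norm_num) (by norm_num)) (exp_neg_leJ (r := 0.6949) 6 (by norm_num) (by norm_num) (by norm_num) (by norm_num))
      (by linarith)
      (by norm_num) (by norm_num) (by norm_num) (by norm_num) (by norm_num) (by norm_num) (by norm_num) (by norm_num) (by norm_num) (by norm_num) (by norm_num) (by norm_num) (by norm_num) (by norm_num) (by norm_num) (by norm_num) (by norm_num) (by norm_num) (by norm_num) le_rfl rfl (by norm_num) (by norm_num) (by norm_num) (by norm_num) (by norm_num) (by norm_num) (by norm_num) (by norm_num) (by norm_num) (by norm_num) (by norm_num) (by norm_num) (by norm_num) (by norm_num) (by norm_num) (by norm_num) (by norm_num) (by norm_num) (by norm_num)).trans (mul_le_mul (by norm_num) hmx hY0 (by norm_num))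
  · have hY := y0w_1 hβ hr hκ hk1 hk2 (t := t - Real.pi / 2) (by linarith) (by linarith)
    have hY0 : 0 ≤ ‖Pb β r (t - Real.pi / 2)‖ := norm_nonneg _
    have hmx : ‖Pb β r (t - Real.pi / 2)‖ ≤ max ‖Pb β r (t - Real.pi / 2)‖ ‖Pb β r t‖ := (le_max_left _ _)
    have hmx0 := hY0.trans hmx
    refine ⟨?_, ?_, ?_, ?_⟩
    · rcases le_total (t + Real.pi / 2) (Real.pi / 2) with hz | hz
      · exact (cellHU (t' := t + Real.pi / 2) (τ := t - Real.pi / 2 + κ) 0.36 0.42 0.26 1.29694 0.77105 0.77106 3.9285 0.12606 0.009 0.000001 71.426 0.0000003101 1.03107 0.04384 0.00042 0.00005 0.647 2.46 _ _ (-0.7069) (-0.534) 0.7069 3.141592 0.82576 0.93 0.9998 0.7137 0.00009144 0.00004603 0.0007953 2.1027 0.00185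
      hβ hr hκ hk1 hk2 (by linarith) (by linarith) (by linarith) (by linarith) (by linarith) hY
      (expn_le (by norm_num) (by norm_num) (by norm_num))
      (expm_ge (by norm_num) (by norm_num) (by norm_num) (by norm_num)) (expm_le (by norm_num) (by norm_num) (by norm_num)) (exp_neg_leJ (r := 0.9899) 14 (by norm_num) (by norm_num) (by norm_num) (by norm_num)) 
      (exp_neg_leJ (r := 0.2999) 9 (by norm_num) (by norm_num) (by norm_num) (by norm_num)) (exp_neg_leJ (r := 0.9899) 9 (by norm_num) (by norm_num) (by norm_num) (by norm_num)) (exp_neg_leJ (r := 0.1369) 7 (by norm_num) (by norm_num) (by norm_num) (by norm_num))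
      (by linarith)
      (by norm_num) (by norm_num) (by norm_num) (by norm_num) (by norm_num) (by norm_num) (by norm_num) (by norm_num) (by norm_num) (by norm_num) (by norm_num) (by norm_num) (by norm_num) (by norm_num) (by norm_num) (by norm_num) (by norm_num) (by norm_num) (by norm_num) (by norm_num) (by norm_num) le_rfl rfl (by norm_num) (by norm_num) (by norm_num) (by norm_num) (by norm_num) (by norm_num) (by norm_num) (by norm_num) (by norm_num) (by norm_num) (by norm_num) (by norm_num) (by norm_num) (by norm_num) (by norm_num) (by norm_num) (by norm_num) (by norm_num) (by norm_num)).trans (mul_le_mul (by norm_num) hmx hY0 (by norm_num))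
      · exact (cellUD (t' := t + Real.pi / 2) (τ := t - Real.pi / 2 + κ) 0.36 0.42 0.647 0.7069 0.82576 0.7137 0.002162 0.0007953 2.1027 0.00772
      hβ hr hκ hk1 hk2 (by norm_num) (by linarith) (by linarith) (by linarith) (by linarith) hY
      (exp_neg_leJ (r := 0.1369) 6 (by norm_num) (by norm_num) (by norm_num) (by norm_num)) (exp_neg_leJ (r := 0.1369) 7 (by norm_num) (by norm_num) (by norm_num) (by norm_num)) (by norm_num) (by norm_num) (by norm_num) (by norm_num) (by norm_num) (by norm_num) (by norm_num) (by norm_num)).trans (mul_le_mul (by norm_num) hmx hY0 (by norm_num))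
    · exact (cellN (t' := t - Real.pi) (τ := t - Real.pi / 2 + κ) 0.36 0.42 0.28 0.75579 1.32313 1.32312 1.9731 0.29123 0.0209 1.04314 0.02963 0.00012 0.00001 0.647 2.46 _ _ (-0.7069) (-0.534) 0.7069 1.570796 0 1 0.82576 1.0267 1.4763 0.7137 0.00003477 0.0000003882 0.0007953 2.1027 0.00134
      hβ hr hκ hk1 hk2 (by norm_num) (by linarith) (by linarith) (by linarith) (by linarith) (by linarith) hY
      (expm_le (by norm_num) (by norm_num) (by norm_num)) (expn_ge (by norm_num) (by norm_num)) (expn_le (by norm_num) (by norm_num) (by norm_num)) (by norm_num)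
      (exp_neg_leJ (r := 0.2669) 10 (by norm_num) (by norm_num) (by norm_num) (by norm_num)) (exp_neg_leJ (r := 0.7629) 14 (by norm_num) (by norm_num) (by norm_num) (by norm_num)) (exp_neg_leJ (r := 0.1369) 7 (by norm_num) (by norm_num) (by norm_num) (by norm_num))
      (by linarith)
      (by norm_num) (by norm_num) (by norm_num) (by norm_num) (by norm_num) (by norm_num) (by norm_num) (by norm_num) (by norm_num) (by norm_num) (by norm_num) (by norm_num) (by norm_num) (by norm_num) (by norm_num) (by norm_num) (by norm_num) (by norm_num) (by norm_num) le_rfl rfl (by norm_num) (by norm_num) (by norm_num) (by norm_num) (by norm_num) (by norm_num) (by norm_num) (by norm_num) (by norm_num) (by norm_num) (by norm_num) (by norm_num) (by norm_num) (by norm_num) (by norm_num) (by norm_num) (by norm_num) (by norm_num) (by norm_num)).trans (mul_le_mul (by norm_num) hmx hY0 (by norm_num))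
    · rcases le_total (t + Real.pi / 2 + β) (Real.pi / 2) with hz | hz
      · exact (cellHU (t' := t + Real.pi / 2 + β) (τ := t - Real.pi / 2 + κ) 0.36 0.42 0.26 1.29694 0.77105 0.77106 3.9285 0.12606 0.009 0.000001 71.426 0.0000003101 1.03107 0.04384 0.00042 0.00005 0.647 2.46 _ _ (-0.7069) (-0.534) 0.7069 3.141592 0.82576 0.93 0.9998 0.7137 0.00009144 0.00004603 0.0007953 2.1027 0.00185
      hβ hr hκ hk1 hk2 (by linarith) (by linarith) (by linarith) (by linarith) (by linarith) hY
      (expn_le (by norm_num) (by norm_num) (by norm_num))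
      (expm_ge (by norm_num) (by norm_num) (by norm_num) (by norm_num)) (expm_le (by norm_num) (by norm_num) (by norm_num)) (exp_neg_leJ (r := 0.9899) 14 (by norm_num) (by norm_num) (by norm_num) (by norm_num)) 
      (exp_neg_leJ (r := 0.2999) 9 (by norm_num) (by norm_num) (by norm_num) (by norm_num)) (exp_neg_leJ (r := 0.9899) 9 (by norm_num) (by norm_num) (by norm_num) (by norm_num)) (exp_neg_leJ (r := 0.1369) 7 (by norm_num) (by norm_num) (by norm_num) (by norm_num))
      (by linarith)
      (by norm_num) (by norm_num) (by norm_num) (by norm_num) (by norm_num) (by norm_num) (by norm_num) (by norm_num) (by norm_num) (by norm_num) (by norm_num) (by norm_num) (by norm_num) (by norm_num) (by norm_num) (by norm_num) (by norm_num) (by norm_num) (by norm_num) (by norm_num) (by norm_num) le_rfl rfl (by norm_num) (by norm_num) (by norm_num) (by norm_num) (by norm_num) (by norm_num) (by norm_num) (by norm_num) (by norm_num) (by norm_num) (by norm_num) (by norm_num) (by norm_num) (by norm_num) (by norm_num) (by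 norm_num) (by norm_num) (by norm_num) (by norm_num)).trans (mul_le_mul (by norm_num) hmx hY0 (by norm_num))
      · exact (cellUD (t' := t + Real.pi / 2 + β) (τ := t - Real.pi / 2 + κ) 0.36 0.42 0.647 0.7069 0.82576 0.7137 0.002162 0.0007953 2.1027 0.00772
      hβ hr hκ hk1 hk2 (by norm_num) (by linarith) (by linarith) (by linarith) (by linarith) hY
      (exp_neg_leJ (r := 0.1369) 6 (by norm_num) (by norm_num) (by norm_num) (by norm_num)) (exp_neg_leJ (r := 0.1369) 7 (by norm_num) (by norm_num) (by norm_num) (by norm_num)) (by norm_num) (by norm_num) (by norm_num) (by norm_num) (by norm_num) (by norm_num) (by norm_num) (by norm_num)).trans (mul_le_mul (by norm_num) hmx hY0 (by norm_num))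
    · exact (cellN (t' := t - Real.pi + β) (τ := t - Real.pi / 2 + κ) 0.36 0.42 0.29 0.74827 1.33643 1.33642 1.9768 0.28724 0.0209 1.04644 0.03147 0.00013 0.00001 0.647 2.46 _ _ (-0.7069) (-0.534) 0.7069 1.570796 1 1.33643 0.82576 1.0655 1.5018 0.7137 0.0000236 0.0000003101 0.0007953 2.1027 0.00135
      hβ hr hκ hk1 hk2 (by norm_num) (by linarith) (by linarith) (by linarith) (by linarith) (by linarith) hY
      (expm_le (by norm_num) (by norm_num) (by norm_num)) (expn_ge (by norm_num) (by norm_num)) (expn_le (by norm_num) (by norm_num) (by norm_num)) (by rw [mul_one]; exact (expn_le (by norm_num) (by norm_num) (by norm_num)))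
      (exp_neg_leJ (r := 0.6549) 10 (by norm_num) (by norm_num) (by norm_num) (by norm_num)) (exp_neg_leJ (r := 0.9899) 14 (by norm_num) (by norm_num) (by norm_num) (by norm_num)) (exp_neg_leJ (r := 0.1369) 7 (by norm_num) (by norm_num) (by norm_num) (by norm_num))
      (by linarith)
      (by norm_num) (by norm_num) (by norm_num) (by norm_num) (by norm_num) (by norm_num) (by norm_num) (by norm_num) (by norm_num) (by norm_num) (by norm_num) (by norm_num) (by norm_num) (by norm_num) (by norm_num) (by norm_num) (by norm_num) (by norm_num) (by norm_num) le_rfl rfl (by norm_num) (by norm_num) (by norm_num) (by norm_num) (by norm_num) (by norm_num) (by norm_num) (by norm_num) (by norm_num) (by norm_num) (by norm_num) (by norm_num) (by norm_num) (by norm_num) (by norm_num) (by norm_num) (by norm_num) (by norm_num) (by norm_num)).trans (mul_le_mul (by norm_num) hmx hY0 (by norm_num))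

theorem rng_1 {p : ℤ} {β r κ : ℝ} (hp : IsCoprime (4 : ℤ) p) (hβ : 0 < β) (hr : 10 ≤ r) (hκ : κ = β * r)
    (hk1 : 0.36 ≤ κ) (hk2 : κ ≤ 0.42) : Circ (2 * Real.pi * p / 4 + β) r := by
  refine circ4 (κ := κ) (s0 := 0.05) (slo := 0.48) (shi := 0.66) (a := 1.04) (m := 0.4796) (E2 := 0.01148) (Em := 0.00198) (F2 := 0.01148) (Fm := 0.00201)
    (l0 := 2.0298) (l1 := 0.8811) hp (by linarith) (by norm_num) (by norm_num) (by norm_num) (by norm_num) ?_ ?_ (by norm_num) (by norm_num)
  · intro t h1 h2
    obtain ⟨w1, w2, w3, w4⟩ := WE_1 (t := t) hβ hr hκ hk1 hk2 h1 h2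
    have S : SL β r 2.0298 0.8811 0.4796 t := by
      rcases le_total κ 0.39 with f0 | g0
      · exact SL_mono (by linarith) (slp1 (t := t) hβ hr hκ (by linarith) (by linarith) h1 h2) (by norm_num) (by norm_num) (by norm_num)
      exact SL_mono (by linarith) (slp2 (t := t) hβ hr hκ (by linarith) (by linarith) h1 h2) (by norm_num) (by norm_num) (by norm_num)
    exact ⟨S.ne0, w1, w2, w3, w4, S.L0, S.L1, S.S⟩
  · intro t h1 h2 h3
    rcases h3 with h3 | h3
    · exact RL_1 hβ hr hκ hk1 hk2 h1 h3.le
    · exact RR_1 hβ hr hκ hk1 hk2 h3.le h2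

end Sok.B4
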