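import Pool.Agent.Lib.MP_816dec_an.R1B4W
import Pool.Agent.Lib.MP_816dec_an.R1B4Sa

/-!
MP_816dec_an (A3, row R1, b = 4): range 2.
-/

set_option autoImplicit false
set_option maxHeartbeats 4000000

open Complex Set Filter Topology

namespace Sok.B4

private theorem y1_2 {β r κ t : ℝ} (hβ : 0 < β) (hr : 10 ≤ r) (hκ : κ = β * r) (hk1 : 0.42 ≤ κ) (hk2 : κ ≤ 0.6)
    (h1 : 0.0785 ≤ t + κ) (h2 : t + κ ≤ 0.864) {c : ℝ} (hV : 1 - c * (t + κ) ^ 2 / (1 + κ ^ 2) ≤ sE κ t) :
    0.83141 * Real.exp (r * (1 - c * (t + κ) ^ 2 / (1 + κ ^ 2))) ≤ ‖Pb β r t‖ := by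
  have hpi := Real.pi_gt_d6
  have hpi2 := Real.pi_lt_d6
  have hR0 : β * 10 ≤ κ := by rw [hκ]; exact mul_le_mul_of_nonneg_left hr hβ.le
  have hk0 : 0 < κ := by linarith
  have hd : DomR κ t := ⟨hk0, by linarith, Or.inr (by linarith)⟩
  have J := jr2 hd hβ hk1 hk2 (by linarith) (by linarith) hR0 (hR33' hβ hR0 hk0 (by linarith))
  have y0 := sy_nonneg hd (by linarith)
  have y1 := syR_psi hd (0.6 / (1 + 0.6 ^ 2)) 0.864 0.3812 (psi_lo hd.1.le hk2 (by norm_num)) (by linarith) (by linarith) (by linarith) (by norm_num)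
  have hD := sD_le hd 0.6 0 0.3812 1 0.466558 1.93037 hk2 y0 y1 (by norm_num) (exp2 (expm_le (E := 0.68305) (by norm_num) (by norm_num) (by norm_num)) (by norm_num)) (by norm_num) (by norm_num)
  exact near_lo hβ (by linarith) hκ hd J hV hD (by norm_num) (by norm_num)

private theorem y1c_2 {β r κ t : ℝ} (hβ : 0 < β) (hr : 10 ≤ r) (hκ : κ = β * r) (hk1 : 0.42 ≤ κ) (hk2 : κ ≤ 0.6)
    (h1 : 0.719 ≤ t + κ) (h2 : t + κ ≤ 0.7697) :
    0.83141 * Real.exp (r * (1 - 0.46525 * (t + κ) ^ 2 / (1 + κ ^ 2))) ≤ ‖Pb β r t‖ := by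
  have hpi := Real.pi_gt_d6
  have hpi2 := Real.pi_lt_d6
  have hR0 : β * 10 ≤ κ := by rw [hκ]; exact mul_le_mul_of_nonneg_left hr hβ.le
  have hk0 : 0 < κ := by linarith
  have hd : DomR κ t := ⟨hk0, by linarith, Or.inr (by linarith)⟩
  exact y1_2 hβ hr hκ hk1 hk2 (by linarith) (by linarith) (V1_piece hd 0.6 0.42 0.6 0.14273 0.1942 0.04834 0.719 0.7697 0.46525 hk1 hk2 h1 h2
    (by norm_num) (by norm_num) (by norm_num) (by norm_num) (by norm_num) (by norm_num) (by norm_num) (by norm_num) (by norm_num) (by norm_num) (by norm_num) (by norm_num) (by norm_num) (by norm_num))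

private theorem y1h_2 {β r κ t : ℝ} (hβ : 0 < β) (hr : 10 ≤ r) (hκ : κ = β * r) (hk1 : 0.42 ≤ κ) (hk2 : κ ≤ 0.6)
    (h1 : 0.0785 ≤ t + κ) (h2 : t + κ ≤ 0.864) :
    0.83141 * Real.exp (r * (1 - 0.5 * (t + κ) ^ 2 / (1 + κ ^ 2))) ≤ ‖Pb β r t‖ := by
  have hpi := Real.pi_gt_d6
  have hpi2 := Real.pi_lt_d6
  have hR0 : β * 10 ≤ κ := by rw [hκ]; exact mul_le_mul_of_nonneg_left hr hβ.le
  have hk0 : 0 < κ := by linarith
  have hd : DomR κ t := ⟨hk0, by linarith, Or.inr (by linarith)⟩
  exact y1_2 hβ hr hκ hk1 hk2 (by linarith) (by linarith) (V1_half hd (by linarith) (by linarith))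

private theorem y0o_2 {β r κ t : ℝ} (hβ : 0 < β) (hr : 10 ≤ r) (hκ : κ = β * r) (hk1 : 0.42 ≤ κ) (hk2 : κ ≤ 0.6)
    (h1 : -0.5341 ≤ t + κ) (h2 : t + κ ≤ 0.0786) :
    0.88172 * Real.exp (r * (1 - 0.60043 * (t + κ) ^ 2 / (1 + κ ^ 2))) ≤ ‖Pb β r t‖ := by
  have hpi := Real.pi_gt_d6
  have hpi2 := Real.pi_lt_d6
  have hR0 : β * 10 ≤ κ := by rw [hκ]; exact mul_le_mul_of_nonneg_left hr hβ.le
  have hk0 : 0 < κ := by linarith
  have hd : DomR κ t := ⟨hk0, by linarith, Or.inr (by linarith)⟩
  have J := jo2 hd hβ hk1 hk2 (by linarith) (by linarith) hR0 (hR33' hβ hR0 hk0 (by linarith))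
  have h := hd
  have hy1 : -0.303 ≤ sy κ t := syL_ge h 0.42 0.6 0.5341 0.303 0.73859 0.7386 0.3729 0.37298 0.53285 hk1 hk2 (by linarith) (by norm_num) (by norm_num) (by norm_num)
    (expm_ge (by norm_num) (by norm_num) (by norm_num) (by norm_num)) (expm_le (by norm_num) (by norm_num) (by norm_num)) (by norm_num)
    (by norm_num) (by norm_num) (by norm_num) (by norm_num) (by norm_num) (by norm_num)
  have hy3 : sy κ t ≤ 0.0347 := by
    rcases le_total (t + κ) 0 with hz | hz
    · have := sy_nonpos hd hz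
      linarith
    · exact syR_psi hd (0.6 / (1 + 0.6 ^ 2)) 0.0786 0.0347 (psi_lo hd.1.le hk2 (by norm_num)) hz (by linarith) (by linarith) (by norm_num)
  have hD := sD_le hd 0.6 (-0.303) 0.0347 1.8331 0.932963 1.40527 hk2 hy1 hy3 (exp2 (E := 1.35392) (by rw [neg_neg]; exact (expn_le (by norm_num) (by norm_num) (by norm_num))) (by norm_num)) (exp2 (expm_le (E := 0.9659) (by norm_num) (by norm_num) (by norm_num)) (by norm_num)) (by norm_num) (by norm_num)
  have hV : 1 - 0.60043 * (t + κ) ^ 2 / (1 + κ ^ 2) ≤ sE κ t := by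
    rcases le_total (t + κ) 0 with hz | hz
    · exact V0_piece hd 0.5099 0.42 0.6 0.8828 (0.6 / (1 + 0.6 ^ 2)) 0.14714 0.05153 0.61424 0.44118 0.60043 0.5341 hk1 hk2 (by linarith) (by linarith) (psi_lo hd.1.le hk2 (by norm_num))
          (by norm_num) (by norm_num) (by norm_num) (by norm_num) (by norm_num) (by norm_num) (by norm_num) (by norm_num) (by norm_num) (by norm_num) (by norm_num) (by norm_num) (by norm_num) (by norm_num) (by norm_num)
    · exact (V_weak (by norm_num)).trans (V1_half hd (by linarith) hz)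
  exact near_lo hβ (by linarith) hκ hd J hV hD (by norm_num) (by norm_num)

private theorem y0w_2 {β r κ t : ℝ} (hβ : 0 < β) (hr : 10 ≤ r) (hκ : κ = β * r) (hk1 : 0.42 ≤ κ) (hk2 : κ ≤ 0.6)
    (h1 : -0.7069 ≤ t + κ) (h2 : t + κ ≤ -0.534) :
    0.66672 * Real.exp (r * (1 - 0.6481 * (t + κ) ^ 2 / (1 + κ ^ 2))) ≤ ‖Pb β r t‖ := by
  have hpi := Real.pi_gt_d6
  have hpi2 := Real.pi_lt_d6
  have hR0 : β * 10 ≤ κ := by rw [hκ]; exact mul_le_mul_of_nonneg_left hr hβ.le
  have hk0 : 0 < κ := by linarith
  have hd : DomR κ t := ⟨hk0, by linarith, Or.inr (by linarith)⟩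
  have J : ‖HH β (sg κ t) - 1‖ ≤ 0.28 := by
    rcases le_total κ 0.465 with f0 | g0
    · exact (dl2 hd hβ (by linarith) (by linarith) (by linarith) (by linarith) hR0 (hR33' hβ hR0 hk0 (by linarith)) (sg κ t) (by rw [sub_self, norm_zero]; norm_num)).trans (by norm_num)
    rcases le_total κ 0.51 with f1 | g1
    · exact (dl3 hd hβ (by linarith) (by linarith) (by linarith) (by linarith) hR0 (hR33' hβ hR0 hk0 (by linarith)) (sg κ t) (by rw [sub_self, norm_zero]; norm_num)).trans (by norm_num)
    rcases le_total κ 0.555 with f2 | g2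
    · exact (dl4 hd hβ (by linarith) (by linarith) (by linarith) (by linarith) hR0 (hR33' hβ hR0 hk0 (by linarith)) (sg κ t) (by rw [sub_self, norm_zero]; norm_num)).trans (by norm_num)
    exact (dl5 hd hβ (by linarith) (by linarith) (by linarith) (by linarith) hR0 (hR33' hβ hR0 hk0 (by linarith)) (sg κ t) (by rw [sub_self, norm_zero]; norm_num)).trans (by norm_num)
  have h := hd
  have hy1 : -0.439 ≤ sy κ t := syL_ge h 0.42 0.6 0.7069 0.439 0.64468 0.64469 0.4716 0.47169 0.67386 hk1 hk2 (by linarith) (by norm_num) (by norm_num) (by norm_num)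
    (expm_ge (by norm_num) (by norm_num) (by norm_num) (by norm_num)) (expm_le (by norm_num) (by norm_num) (by norm_num)) (by norm_num)
    (by norm_num) (by norm_num) (by norm_num) (by norm_num) (by norm_num) (by norm_num)
  have hD := sD_le hd 0.6 (-0.439) 0 2.406098 1 1.36001 hk2 hy1 (sy_nonpos hd (by linarith)) (exp2 (E := 1.55116) (by rw [neg_neg]; exact (expn_le (by norm_num) (by norm_num) (by norm_num))) (by norm_num)) (by norm_num) (by norm_num) (by norm_num)
  have hV : 1 - 0.6481 * (t + κ) ^ 2 / (1 + κ ^ 2) ≤ sE κ t := V0_piece hd 0.5099 0.42 0.6 0.8828 (0.6 / (1 + 0.6 ^ 2)) 0.14714 0.05153 0.61424 0.44118 0.6481 0.7069 hk1 hk2 (by linarith) (by linarith) (psi_lo hd.1.le hk2 (by norm_num))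
          (by norm_num) (by norm_num) (by norm_num) (by norm_num) (by norm_num) (by norm_num) (by norm_num) (by norm_num) (by norm_num) (by norm_num) (by norm_num) (by norm_num) (by norm_num) (by norm_num) (by norm_num)
  exact near_lo hβ (by linarith) hκ hd J hV hD (by norm_num) (by norm_num)

private theorem RL_2 {β r κ t : ℝ} (hβ : 0 < β) (hr : 10 ≤ r) (hκ : κ = β * r) (hk1 : 0.42 ≤ κ) (hk2 : κ ≤ 0.6)
    (h1 : 0.05 * (Real.pi / 2) ≤ t + κ) (h2 : t + κ ≤ 0.49 * (Real.pi / 2)) :
    ‖Pb β r (t - Real.pi)‖ + ‖Pb β r (t + Real.pi / 2)‖ < |‖Pb β r t‖ - ‖Pb β r (t - Real.pi / 2)‖| := by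
  have hpi := Real.pi_gt_d6
  have hpi2 := Real.pi_lt_d6
  have hR0 : β * 10 ≤ κ := by rw [hκ]; exact mul_le_mul_of_nonneg_left hr hβ.le
  have hk0 : 0 < κ := by linarith
  have hY := y1h_2 hβ hr hκ hk1 hk2 (t := t) (by linarith) (by linarith)
  have hY0 : 0 < ‖Pb β r t‖ := lt_of_lt_of_le (mul_pos (by norm_num) (Real.exp_pos _)) hY
  have c0 : ‖Pb β r (t - Real.pi / 2)‖ ≤ 0.83067 * ‖Pb β r t‖ := by
    rcases le_total (t + κ) 0.719 with hz | hz
    · exact (cellN (t' := t - Real.pi / 2) (τ := t + κ) 0.42 0.6 0.54 0.58275 1.71601 1.716 1.7728 0.27816 0.023 1.17602 0.08497 0.00071 0.00007 0.5 1.809 _ _ 0.0785 0.719 0.719 1.570796 0 1 0.83141 0.1569 0.3882 0.7802 0.20834 0.02066 0.0004096 1.9467 0.47121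
      hβ hr hκ hk1 hk2 (by norm_num) (by linarith) (by linarith) (by linarith) (by linarith) (by linarith) hY
      (expm_le (by norm_num) (by norm_num) (by norm_num)) (expn_ge (by norm_num) (by norm_num)) (expn_le (by norm_num) (by norm_num) (by norm_num)) (by norm_num)
      (exp_neg_leJ (r := 0.5689) 1 (by norm_num) (by norm_num) (by norm_num) (by norm_num)) (exp_neg_leJ (r := 0.8819) 3 (by norm_num) (by norm_num) (by norm_num) (by norm_num)) (exp_neg_leJ (r := 0.8019) 7 (by norm_num) (by norm_num) (by norm_num) (by norm_num))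
      (by linarith)
      (by norm_num) (by norm_num) (by norm_num) (by norm_num) (by norm_num) (by norm_num) (by norm_num) (by norm_num) (by norm_num) (by norm_num) (by norm_num) (by norm_num) (by norm_num) (by norm_num) (by norm_num) (by norm_num) (by norm_num) (by norm_num) (by norm_num) le_rfl rfl (by norm_num) (by norm_num) (by norm_num) (by norm_num) (by norm_num) (by norm_num) (by norm_num) (by norm_num) (by norm_num) (by norm_num) (by norm_num) (by norm_num) (by norm_num) (by norm_num) (by norm_num) (by norm_num) (by norm_num) (by norm_num) (by norm_num)).trans (mul_le_mul_of_nonneg_right (by norm_num) hY0.le)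
    · have hY' := y1c_2 hβ hr hκ hk1 hk2 (t := t) hz (by linarith)
      exact (cellN (t' := t - Real.pi / 2) (τ := t + κ) 0.42 0.6 0.49 0.61263 1.63232 1.63231 1.7688 0.29374 0.023 1.14233 0.07355 0.00056 0.00005 0.46525 1.809 _ _ 0.719 0.7697 0.7697 1.570796 0 1 0.83141 0.0988 0.3496 0.7656 0.37366 0.03033 0.0004736 1.9467 0.83067
      hβ hr hκ hk1 hk2 (by norm_num) (by linarith) (by linarith) (by linarith) (by linarith) (by linarith) hY'
      (expm_le (by norm_num) (by norm_num) (by norm_num)) (expn_ge (by norm_num) (by norm_num)) (expn_le (by norm_num) (by norm_num) (by norm_num)) (by norm_num)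
      (exp_neg_leJ (r := 0.9879) 0 (by norm_num) (by norm_num) (by norm_num) (by norm_num)) (exp_neg_leJ (r := 0.4959) 3 (by norm_num) (by norm_num) (by norm_num) (by norm_num)) (exp_neg_leJ (r := 0.6559) 7 (by norm_num) (by norm_num) (by norm_num) (by norm_num))
      (by linarith)
      (by norm_num) (by norm_num) (by norm_num) (by norm_num) (by norm_num) (by norm_num) (by norm_num) (by norm_num) (by norm_num) (by norm_num) (by norm_num) (by norm_num) (by norm_num) (by norm_num) (by norm_num) (by norm_num) (by norm_num) (by norm_num) (by norm_num) le_rfl rfl (by norm_num) (by norm_num) (by norm_num) (by norm_num) (by norm_num) (by norm_num) (by norm_num) (by norm_num) (by norm_num) (by norm_num) (by norm_num) (by norm_num) (by norm_num) (by norm_num) (by norm_num) (by norm_num) (by norm_num) (by norm_num) (by norm_num)).trans (mul_le_mul_of_nonneg_right (by norm_num) hY0.le)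
  have cm : ‖Pb β r (t - Real.pi)‖ ≤ 0.00105 * ‖Pb β r t‖ := cellN (t' := t - Real.pi) (τ := t + κ) 0.42 0.6 0.38 0.68387 1.46229 1.46228 1.7633 0.32995 0.0572 1.0823 0.04938 0.00028 0.00002 0.5 1.809 _ _ 0.0785 0.7697 0.7697 3.141592 0 1 0.83141 1.0616 1.6688 0.7481 0.00002454 0.0000003101 0.0005639 1.9467 0.00105
      hβ hr hκ hk1 hk2 (by norm_num) (by linarith) (by linarith) (by linarith) (by linarith) (by linarith) hY
      (expm_le (by norm_num) (by norm_num) (by norm_num)) (expn_ge (by norm_num) (by norm_num)) (expn_le (by norm_num) (by norm_num) (by norm_num)) (by norm_num)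
      (exp_neg_leJ (r := 0.6159) 10 (by norm_num) (by norm_num) (by norm_num) (by norm_num)) (exp_neg_leJ (r := 0.9899) 14 (by norm_num) (by norm_num) (by norm_num) (by norm_num)) (exp_neg_leJ (r := 0.4809) 7 (by norm_num) (by norm_num) (by norm_num) (by norm_num))
      (by linarith)
      (by norm_num) (by norm_num) (by norm_num) (by norm_num) (by norm_num) (by norm_num) (by norm_num) (by norm_num) (by norm_num) (by norm_num) (by norm_num) (by norm_num) (by norm_num) (by norm_num) (by norm_num) (by norm_num) (by norm_num) (by norm_num) (by norm_num) le_rfl rfl (by norm_num) (by norm_num) (by norm_num) (by norm_num) (by norm_num) (by norm_num) (by norm_num) (by norm_num) (by norm_num) (by norm_num) (by norm_num) (by norm_num) (by norm_num) (by norm_num) (by norm_num) (by norm_num) (by norm_num) (by norm_num) (by norm_num)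
  have c2 : ‖Pb β r (t + Real.pi / 2)‖ ≤ 0.01393 * ‖Pb β r t‖ := by
    rcases le_total (t + Real.pi / 2) (Real.pi / 2) with hz | hz
    · exact (cellHU (t' := t + Real.pi / 2) (τ := t + κ) 0.42 0.6 0.28 1.32313 0.75578 0.75579 3.1673 0.19785 0.0128 0.000001 41.843 0.0000003101 1.0358 0.05187 0.0006 0.00009 0.5 1.809 _ _ 0.0785 0.7697 0.7697 1.570796 0.83141 0.5809 0.7543 0.7481 0.003006 0.00053 0.0005639 1.9467 0.01393
      hβ hr hκ hk1 hk2 (by linarith) (by linarith) (by linarith) (by linarith) (by linarith) hY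
      (expn_le (by norm_num) (by norm_num) (by norm_num))
      (expm_ge (by norm_num) (by norm_num) (by norm_num) (by norm_num)) (expm_le (by norm_num) (by norm_num) (by norm_num)) (exp_neg_leJ (r := 0.9899) 14 (by norm_num) (by norm_num) (by norm_num) (by norm_num)) 
      (exp_neg_leJ (r := 0.8089) 5 (by norm_num) (by norm_num) (by norm_num) (by norm_num)) (exp_neg_leJ (r := 0.5429) 7 (by norm_num) (by norm_num) (by norm_num) (by norm_num)) (exp_neg_leJ (r := 0.4809) 7 (by norm_num) (by norm_num) (by norm_num) (by norm_num))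
      (by linarith)
      (by norm_num) (by norm_num) (by norm_num) (by norm_num) (by norm_num) (by norm_num) (by norm_num) (by norm_num) (by norm_num) (by norm_num) (by norm_num) (by norm_num) (by norm_num) (by norm_num) (by norm_num) (by norm_num) (by norm_num) (by norm_num) (by norm_num) (by norm_num) (by norm_num) le_rfl rfl (by norm_num) (by norm_num) (by norm_num) (by norm_num) (by norm_num) (by norm_num) (by norm_num) (by norm_num) (by norm_num) (by norm_num) (by norm_num) (by norm_num) (by norm_num) (by norm_num) (by norm_num) (by norm_num) (by norm_num) (by norm_num) (by norm_num)).trans (mul_le_mul_of_nonneg_right (by norm_num) hY0.le)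
    · exact (cellUD (t' := t + Real.pi / 2) (τ := t + κ) 0.42 0.6 0.5 0.7697 0.83141 0.7481 0.001533 0.0005639 1.9467 0.00573
      hβ hr hκ hk1 hk2 (by norm_num) (by linarith) (by linarith) (by linarith) (by linarith) hY
      (exp_neg_leJ (r := 0.4809) 6 (by norm_num) (by norm_num) (by norm_num) (by norm_num)) (exp_neg_leJ (r := 0.4809) 7 (by norm_num) (by norm_num) (by norm_num) (by norm_num)) (by norm_num) (by norm_num) (by norm_num) (by norm_num) (by norm_num) (by norm_num) (by norm_num) (by norm_num)).trans (mul_le_mul_of_nonneg_right (by norm_num) hY0.le)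
  exact out_left hY0 c0 cm c2 (by norm_num)

private theorem RR_2 {β r κ t : ℝ} (hβ : 0 < β) (hr : 10 ≤ r) (hκ : κ = β * r) (hk1 : 0.42 ≤ κ) (hk2 : κ ≤ 0.6)
    (h1 : 0.66 * (Real.pi / 2) ≤ t + κ) (h2 : t + κ ≤ (0.05 + 1) * (Real.pi / 2)) :
    ‖Pb β r (t - Real.pi)‖ + ‖Pb β r (t + Real.pi / 2)‖ < |‖Pb β r t‖ - ‖Pb β r (t - Real.pi / 2)‖| := by
  have hpi := Real.pi_gt_d6
  have hpi2 := Real.pi_lt_d6
  have hR0 : β * 10 ≤ κ := by rw [hκ]; exact mul_le_mul_of_nonneg_left hr hβ.le
  have hk0 : 0 < κ := by linarith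
  have hY := y0o_2 hβ hr hκ hk1 hk2 (t := t - Real.pi / 2) (by linarith) (by linarith)
  have hY0 : 0 < ‖Pb β r (t - Real.pi / 2)‖ := lt_of_lt_of_le (mul_pos (by norm_num) (Real.exp_pos _)) hY
  have c1 : ‖Pb β r t‖ ≤ 0.61707 * ‖Pb β r (t - Real.pi / 2)‖ := cellH (t' := t) (τ := t - Real.pi / 2 + κ) 0.42 0.6 0.25 1.28403 0.7788 0.77881 2.6668 0.27083 0.0299 0.1231 0.000001 41.843 0.0000003101 1.02882 0.04013 0.00035 0.00004 0.60043 1.809 _ _ (-0.5341) 0.0786 0.5341 1.570796 0.88172 0.1617 0.2814 0.8544 0.19861 0.06007 0.0001948 1.9467 0.61707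
      hβ hr hκ hk1 hk2 (by linarith) (by linarith) (by linarith) (by linarith) (by linarith) hY
      (expn_le (by norm_num) (by norm_num) (by norm_num))
      (expm_ge (by norm_num) (by norm_num) (by norm_num) (by norm_num)) (expm_le (by norm_num) (by norm_num) (by norm_num)) (exp_neg_leJ (r := 0.9899) 14 (by norm_num) (by norm_num) (by norm_num) (by norm_num)) 
      (exp_neg_leJ (r := 0.6169) 1 (by norm_num) (by norm_num) (by norm_num) (by norm_num)) (exp_neg_leJ (r := 0.8139) 2 (by norm_num) (by norm_num) (by norm_num) (by norm_num)) (exp_neg_leJ (r := 0.5439) 8 (by norm_num) (by norm_num) (by norm_num) (by norm_num))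
      (by linarith) (by linarith)
      (by norm_num) (by norm_num) (by norm_num) (by norm_num) (by norm_num) (by norm_num) (by norm_num) (by norm_num) (by norm_num) (by norm_num) (by norm_num) (by norm_num) (by norm_num) (by norm_num) (by norm_num) (by norm_num) (by norm_num) (by norm_num) (by norm_num) (by norm_num) (by norm_num) (by norm_num) le_rfl rfl (by norm_num) (by norm_num) (by norm_num) (by norm_num) (by norm_num) (by norm_num) (by norm_num) (by norm_num) (by norm_num) (by norm_num) (by norm_num) (by norm_num) (by norm_num) (by norm_num) (by norm_num) (by norm_num) (by norm_num) (by norm_num) (by norm_num)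
  have cm : ‖Pb β r (t - Real.pi)‖ ≤ 0.0005 * ‖Pb β r (t - Real.pi / 2)‖ := cellN (t' := t - Real.pi) (τ := t - Real.pi / 2 + κ) 0.42 0.6 0.64 0.5273 1.89649 1.89647 1.7787 0.25002 0.0299 1.2565 0.108 0.00103 0.00012 0.60043 1.809 _ _ (-0.5341) 0.0786 0.5341 1.570796 0 1 0.88172 1.0219 1.5169 0.8544 0.00003648 0.0000003101 0.0001948 1.9467 0.0005
      hβ hr hκ hk1 hk2 (by norm_num) (by linarith) (by linarith) (by linarith) (by linarith) (by linarith) hY
      (expm_le (by norm_num) (by norm_num) (by norm_num)) (expn_ge (by norm_num) (by norm_num)) (expn_le (by norm_num) (by norm_num) (by norm_num)) (by norm_num)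
      (exp_neg_leJ (r := 0.2189) 10 (by norm_num) (by norm_num) (by norm_num) (by norm_num)) (exp_neg_leJ (r := 0.9899) 14 (by norm_num) (by norm_num) (by norm_num) (by norm_num)) (exp_neg_leJ (r := 0.5439) 8 (by norm_num) (by norm_num) (by norm_num) (by norm_num))
      (by linarith)
      (by norm_num) (by norm_num) (by norm_num) (by norm_num) (by norm_num) (by norm_num) (by norm_num) (by norm_num) (by norm_num) (by norm_num) (by norm_num) (by norm_num) (by norm_num) (by norm_num) (by norm_num) (by norm_num) (by norm_num) (by norm_num) (by norm_num) le_rfl rfl (by norm_num) (by norm_num) (by norm_num) (by norm_num) (by norm_num) (by norm_num) (by norm_num) (by norm_num) (by norm_num) (by norm_num) (by norm_num) (by norm_num) (by norm_num) (by norm_num) (by norm_num) (by norm_num) (by norm_num) (by norm_num) (by norm_num)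
  have c2 : ‖Pb β r (t + Real.pi / 2)‖ ≤ 0.00187 * ‖Pb β r (t - Real.pi / 2)‖ := by
    rcases le_total (t + Real.pi / 2) (Real.pi / 2) with hz | hz
    · exact (cellHU (t' := t + Real.pi / 2) (τ := t - Real.pi / 2 + κ) 0.42 0.6 0.3 1.34986 0.74081 0.74082 4.2636 0.11139 0.0128 0.000001 41.843 0.0000003101 1.04083 0.06075 0.00084 0.00014 0.60043 1.809 _ _ (-0.5341) 0.0786 0.5341 3.141592 0.88172 0.9583 1.0919 0.8544 0.00006893 0.00001816 0.0001948 1.9467 0.00069
      hβ hr hκ hk1 hk2 (by linarith) (by linarith) (by linarith) (by linarith) (by linarith) hY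
      (expn_le (by norm_num) (by norm_num) (by norm_num))
      (expm_ge (by norm_num) (by norm_num) (by norm_num) (by norm_num)) (expm_le (by norm_num) (by norm_num) (by norm_num)) (exp_neg_leJ (r := 0.9899) 14 (by norm_num) (by norm_num) (by norm_num) (by norm_num)) 
      (exp_neg_leJ (r := 0.5829) 9 (by norm_num) (by norm_num) (by norm_num) (by norm_num)) (exp_neg_leJ (r := 0.9189) 10 (by norm_num) (by norm_num) (by norm_num) (by norm_num)) (exp_neg_leJ (r := 0.5439) 8 (by norm_num) (by norm_num) (by norm_num) (by norm_num))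
      (by linarith)
      (by norm_num) (by norm_num) (by norm_num) (by norm_num) (by norm_num) (by norm_num) (by norm_num) (by norm_num) (by norm_num) (by norm_num) (by norm_num) (by norm_num) (by norm_num) (by norm_num) (by norm_num) (by norm_num) (by norm_num) (by norm_num) (by norm_num) (by norm_num) (by norm_num) le_rfl rfl (by norm_num) (by norm_num) (by norm_num) (by norm_num) (by norm_num) (by norm_num) (by norm_num) (by norm_num) (by norm_num) (by norm_num) (by norm_num) (by norm_num) (by norm_num) (by norm_num) (by norm_num) (by norm_num) (by norm_num) (by norm_num) (by norm_num)).trans (mul_le_mul_of_nonneg_right (by norm_num) hY0.le)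
    · exact (cellUD (t' := t + Real.pi / 2) (τ := t - Real.pi / 2 + κ) 0.42 0.6 0.60043 0.5341 0.88172 0.8544 0.0005295 0.0001948 1.9467 0.00187
      hβ hr hκ hk1 hk2 (by norm_num) (by linarith) (by linarith) (by linarith) (by linarith) hY
      (exp_neg_leJ (r := 0.5439) 7 (by norm_num) (by norm_num) (by norm_num) (by norm_num)) (exp_neg_leJ (r := 0.5439) 8 (by norm_num) (by norm_num) (by norm_num) (by norm_num)) (by norm_num) (by norm_num) (by norm_num) (by norm_num) (by norm_num) (by norm_num) (by norm_num) (by norm_num)).trans (mul_le_mul_of_nonneg_right (by norm_num) hY0.le)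
  exact out_right hY0 c1 cm c2 (by norm_num)

private theorem WE_2 {β r κ t : ℝ} (hβ : 0 < β) (hr : 10 ≤ r) (hκ : κ = β * r) (hk1 : 0.42 ≤ κ) (hk2 : κ ≤ 0.6)
    (h1 : 0.49 * (Real.pi / 2) ≤ t + κ) (h2 : t + κ ≤ 0.66 * (Real.pi / 2)) :
    ‖Pb β r (t + Real.pi / 2)‖ ≤ 0.01103 * max ‖Pb β r (t - Real.pi / 2)‖ ‖Pb β r t‖ ∧
    ‖Pb β r (t - Real.pi)‖ ≤ 0.00202 * max ‖Pb β r (t - Real.pi / 2)‖ ‖Pb β r t‖ ∧
    ‖Pb β r (t + Real.pi / 2 + β)‖ ≤ 0.01103 * max ‖Pb β r (t - Real.pi / 2)‖ ‖Pb β r t‖ ∧
    ‖Pb β r (t - Real.pi + β)‖ ≤ 0.00206 * max ‖Pb β r (t - Real.pi / 2)‖ ‖Pb β r t‖ := by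
  have hpi := Real.pi_gt_d6
  have hpi2 := Real.pi_lt_d6
  have hR0 : β * 10 ≤ κ := by rw [hκ]; exact mul_le_mul_of_nonneg_left hr hβ.le
  have hk0 : 0 < κ := by linarith
  rcases le_total (t + κ) (0.55 * (Real.pi / 2)) with hm | hm
  · have hY := y1h_2 hβ hr hκ hk1 hk2 (t := t) (by linarith) (by linarith)
    have hY0 : 0 ≤ ‖Pb β r t‖ := norm_nonneg _
    have hmx : ‖Pb β r t‖ ≤ max ‖Pb β r (t - Real.pi / 2)‖ ‖Pb β r t‖ := (le_max_right _ _)
    have hmx0 := hY0.trans hmx
    refine ⟨?_, ?_, ?_, ?_⟩
    · rcases le_total (t + Real.pi / 2) (Real.pi / 2) with hz | hz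
      · exact (cellHU (t' := t + Real.pi / 2) (τ := t + κ) 0.42 0.6 0.3 1.34986 0.74081 0.74082 4.2636 0.11139 0.0128 0.000001 41.843 0.0000003101 1.04083 0.06075 0.00084 0.00014 0.5 1.809 _ _ 0.7696 0.864 0.864 1.570796 0.83141 0.7229 0.8566 0.6827 0.0007254 0.0001906 0.001086 1.9467 0.00605
      hβ hr hκ hk1 hk2 (by linarith) (by linarith) (by linarith) (by linarith) (by linarith) hY
      (expn_le (by norm_num) (by norm_num) (by norm_num))
      (expm_ge (by norm_num) (by norm_num) (by norm_num) (by norm_num)) (expm_le (by norm_num) (by norm_num) (by norm_num)) (exp_neg_leJ (r := 0.9899) 14 (by norm_num) (by norm_num) (by norm_num) (by norm_num)) 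
      (exp_neg_leJ (r := 0.2289) 7 (by norm_num) (by norm_num) (by norm_num) (by norm_num)) (exp_neg_leJ (r := 0.5659) 8 (by norm_num) (by norm_num) (by norm_num) (by norm_num)) (exp_neg_leJ (r := 0.8269) 6 (by norm_num) (by norm_num) (by norm_num) (by norm_num))
      (by linarith)
      (by norm_num) (by norm_num) (by norm_num) (by norm_num) (by norm_num) (by norm_num) (by norm_num) (by norm_num) (by norm_num) (by norm_num) (by norm_num) (by norm_num) (by norm_num) (by norm_num) (by norm_num) (by norm_num) (by norm_num) (by norm_num) (by norm_num) (by norm_num) (by norm_num) le_rfl rfl (by norm_num) (by norm_num) (by norm_num) (by norm_num) (by norm_num) (by norm_num) (by norm_num) (by norm_num) (by norm_num) (by norm_num) (by norm_num) (by norm_num) (by norm_num) (by norm_num) (by norm_num) (by norm_num) (by norm_num) (by norm_num) (by norm_num)).trans (mul_le_mul (by norm_num) hmx hY0 (by norm_num))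
      · exact (cellUD (t' := t + Real.pi / 2) (τ := t + κ) 0.42 0.6 0.5 0.864 0.83141 0.6827 0.002953 0.001086 1.9467 0.01103
      hβ hr hκ hk1 hk2 (by norm_num) (by linarith) (by linarith) (by linarith) (by linarith) hY
      (exp_neg_leJ (r := 0.8269) 5 (by norm_num) (by norm_num) (by norm_num) (by norm_num)) (exp_neg_leJ (r := 0.8269) 6 (by norm_num) (by norm_num) (by norm_num) (by norm_num)) (by norm_num) (by norm_num) (by norm_num) (by norm_num) (by norm_num) (by norm_num) (by norm_num) (by norm_num)).trans (mul_le_mul (by norm_num) hmx hY0 (by norm_num))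
    · exact (cellN (t' := t - Real.pi) (τ := t + κ) 0.42 0.6 0.39 0.67706 1.47699 1.47698 1.7634 0.32661 0.0345 1.087 0.0515 0.0003 0.00003 0.5 1.809 _ _ 0.7696 0.864 0.864 3.141592 0 1 0.83141 0.972 1.574 0.6827 0.00006013 0.0000003101 0.001086 1.9467 0.00202
      hβ hr hκ hk1 hk2 (by norm_num) (by linarith) (by linarith) (by linarith) (by linarith) (by linarith) hY
      (expm_le (by norm_num) (by norm_num) (by norm_num)) (expn_ge (by norm_num) (by norm_num)) (expn_le (by norm_num) (by norm_num) (by norm_num)) (by norm_num)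
      (exp_neg_leJ (r := 0.7199) 9 (by norm_num) (by norm_num) (by norm_num) (by norm_num)) (exp_neg_leJ (r := 0.9899) 14 (by norm_num) (by norm_num) (by norm_num) (by norm_num)) (exp_neg_leJ (r := 0.8269) 6 (by norm_num) (by norm_num) (by norm_num) (by norm_num))
      (by linarith)
      (by norm_num) (by norm_num) (by norm_num) (by norm_num) (by norm_num) (by norm_num) (by norm_num) (by norm_num) (by norm_num) (by norm_num) (by norm_num) (by norm_num) (by norm_num) (by norm_num) (by norm_num) (by norm_num) (by norm_num) (by norm_num) (by norm_num) le_rfl rfl (by norm_num) (by norm_num) (by norm_num) (by norm_num) (by norm_num) (by norm_num) (by norm_num) (by norm_num) (by norm_num) (by norm_num) (by norm_num) (by norm_num) (by norm_num) (by norm_num) (by norm_num) (by norm_num) (by norm_num) (by norm_num) (by norm_num)).trans (mul_le_mul (by norm_num) hmx hY0 (by norm_num))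
    · rcases le_total (t + Real.pi / 2 + β) (Real.pi / 2) with hz | hz
      · exact (cellHU (t' := t + Real.pi / 2 + β) (τ := t + κ) 0.42 0.6 0.3 1.34986 0.74081 0.74082 4.2636 0.11139 0.0128 0.000001 41.843 0.0000003101 1.04083 0.06075 0.00084 0.00014 0.5 1.809 _ _ 0.7696 0.864 0.864 1.570796 0.83141 0.7229 0.8566 0.6827 0.0007254 0.0001906 0.001086 1.9467 0.00605
      hβ hr hκ hk1 hk2 (by linarith) (by linarith) (by linarith) (by linarith) (by linarith) hY
      (expn_le (by norm_num) (by norm_num) (by norm_num))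
      (expm_ge (by norm_num) (by norm_num) (by norm_num) (by norm_num)) (expm_le (by norm_num) (by norm_num) (by norm_num)) (exp_neg_leJ (r := 0.9899) 14 (by norm_num) (by norm_num) (by norm_num) (by norm_num)) 
      (exp_neg_leJ (r := 0.2289) 7 (by norm_num) (by norm_num) (by norm_num) (by norm_num)) (exp_neg_leJ (r := 0.5659) 8 (by norm_num) (by norm_num) (by norm_num) (by norm_num)) (exp_neg_leJ (r := 0.8269) 6 (by norm_num) (by norm_num) (by norm_num) (by norm_num))
      (by linarith)
      (by norm_num) (by norm_num) (by norm_num) (by norm_num) (by norm_num) (by norm_num) (by norm_num) (by norm_num) (by norm_num) (by norm_num) (by norm_num) (by norm_num) (by norm_num) (by norm_num) (by norm_num) (by norm_num) (by norm_num) (by norm_num) (by norm_num) (by norm_num) (by norm_num) le_rfl rfl (by norm_num) (by norm_num) (by norm_num) (by norm_num) (by norm_num) (by norm_num) (by norm_num) (by norm_num) (by norm_num) (by norm_num) (by norm_num) (by norm_num) (by norm_num) (by norm_num) (by norm_num) (by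 norm_num) (by norm_num) (by norm_num) (by norm_num)).trans (mul_le_mul (by norm_num) hmx hY0 (by norm_num))
      · exact (cellUD (t' := t + Real.pi / 2 + β) (τ := t + κ) 0.42 0.6 0.5 0.864 0.83141 0.6827 0.002953 0.001086 1.9467 0.01103
      hβ hr hκ hk1 hk2 (by norm_num) (by linarith) (by linarith) (by linarith) (by linarith) hY
      (exp_neg_leJ (r := 0.8269) 5 (by norm_num) (by norm_num) (by norm_num) (by norm_num)) (exp_neg_leJ (r := 0.8269) 6 (by norm_num) (by norm_num) (by norm_num) (by norm_num)) (by norm_num) (by norm_num) (by norm_num) (by norm_num) (by norm_num) (by norm_num) (by norm_num) (by norm_num)).trans (mul_le_mul (by norm_num) hmx hY0 (by norm_num))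
    · exact (cellN (t' := t - Real.pi + β) (τ := t + κ) 0.42 0.6 0.4 0.67033 1.49183 1.49182 1.7637 0.32327 0.0345 1.09184 0.05363 0.00033 0.00003 0.5 1.809 _ _ 0.7696 0.864 0.864 3.141592 1 1.49183 0.83141 0.999 1.5958 0.6827 0.00004603 0.0000003101 0.001086 1.9467 0.00206
      hβ hr hκ hk1 hk2 (by norm_num) (by linarith) (by linarith) (by linarith) (by linarith) (by linarith) hY
      (expm_le (by norm_num) (by norm_num) (by norm_num)) (expn_ge (by norm_num) (by norm_num)) (expn_le (by norm_num) (by norm_num) (by norm_num)) (by rw [mul_one]; exact (expn_le (by norm_num) (by norm_num) (by norm_num)))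
      (exp_neg_leJ (r := 0.9899) 9 (by norm_num) (by norm_num) (by norm_num) (by norm_num)) (exp_neg_leJ (r := 0.9899) 14 (by norm_num) (by norm_num) (by norm_num) (by norm_num)) (exp_neg_leJ (r := 0.8269) 6 (by norm_num) (by norm_num) (by norm_num) (by norm_num))
      (by linarith)
      (by norm_num) (by norm_num) (by norm_num) (by norm_num) (by norm_num) (by norm_num) (by norm_num) (by norm_num) (by norm_num) (by norm_num) (by norm_num) (by norm_num) (by norm_num) (by norm_num) (by norm_num) (by norm_num) (by norm_num) (by norm_num) (by norm_num) le_rfl rfl (by norm_num) (by norm_num) (by norm_num) (by norm_num) (by norm_num) (by norm_num) (by norm_num) (by norm_num) (by norm_num) (by norm_num) (by norm_num) (by norm_num) (by norm_num) (by norm_num) (by norm_num) (by norm_num) (by norm_num) (by norm_num) (by norm_num)).trans (mul_le_mul (by norm_num) hmx hY0 (by norm_num))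
  · have hY := y0w_2 hβ hr hκ hk1 hk2 (t := t - Real.pi / 2) (by linarith) (by linarith)
    have hY0 : 0 ≤ ‖Pb β r (t - Real.pi / 2)‖ := norm_nonneg _
    have hmx : ‖Pb β r (t - Real.pi / 2)‖ ≤ max ‖Pb β r (t - Real.pi / 2)‖ ‖Pb β r t‖ := (le_max_left _ _)
    have hmx0 := hY0.trans hmx
    refine ⟨?_, ?_, ?_, ?_⟩
    · rcases le_total (t + Real.pi / 2) (Real.pi / 2) with hz | hz
      · exact (cellHU (t' := t + Real.pi / 2) (τ := t - Real.pi / 2 + κ) 0.42 0.6 0.3 1.34986 0.74081 0.74082 4.2636 0.11139 0.0128 0.000001 41.843 0.0000003101 1.04083 0.06075 0.00084 0.00014 0.6481 1.809 _ _ (-0.7069) (-0.534) 0.7069 3.141592 0.66672 0.7593 0.893 0.7247 0.0005043 0.0001328 0.0007124 1.9467 0.00516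
      hβ hr hκ hk1 hk2 (by linarith) (by linarith) (by linarith) (by linarith) (by linarith) hY
      (expn_le (by norm_num) (by norm_num) (by norm_num))
      (expm_ge (by norm_num) (by norm_num) (by norm_num) (by norm_num)) (expm_le (by norm_num) (by norm_num) (by norm_num)) (exp_neg_leJ (r := 0.9899) 14 (by norm_num) (by norm_num) (by norm_num) (by norm_num)) 
      (exp_neg_leJ (r := 0.5929) 7 (by norm_num) (by norm_num) (by norm_num) (by norm_num)) (exp_neg_leJ (r := 0.9299) 8 (by norm_num) (by norm_num) (by norm_num) (by norm_num)) (exp_neg_leJ (r := 0.2469) 7 (by norm_num) (by norm_num) (by norm_num) (by norm_num))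
      (by linarith)
      (by norm_num) (by norm_num) (by norm_num) (by norm_num) (by norm_num) (by norm_num) (by norm_num) (by norm_num) (by norm_num) (by norm_num) (by norm_num) (by norm_num) (by norm_num) (by norm_num) (by norm_num) (by norm_num) (by norm_num) (by norm_num) (by norm_num) (by norm_num) (by norm_num) le_rfl rfl (by norm_num) (by norm_num) (by norm_num) (by norm_num) (by norm_num) (by norm_num) (by norm_num) (by norm_num) (by norm_num) (by norm_num) (by norm_num) (by norm_num) (by norm_num) (by norm_num) (by norm_num) (by norm_num) (by norm_num) (by norm_num) (by norm_num)).trans (mul_le_mul (by norm_num) hmx hY0 (by norm_num))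
      · exact (cellUD (t' := t + Real.pi / 2) (τ := t - Real.pi / 2 + κ) 0.42 0.6 0.6481 0.7069 0.66672 0.7247 0.001937 0.0007124 1.9467 0.00903
      hβ hr hκ hk1 hk2 (by norm_num) (by linarith) (by linarith) (by linarith) (by linarith) hY
      (exp_neg_leJ (r := 0.2469) 6 (by norm_num) (by norm_num) (by norm_num) (by norm_num)) (exp_neg_leJ (r := 0.2469) 7 (by norm_num) (by norm_num) (by norm_num) (by norm_num)) (by norm_num) (by norm_num) (by norm_num) (by norm_num) (by norm_num) (by norm_num) (by norm_num) (by norm_num)).trans (mul_le_mul (by norm_num) hmx hY0 (by norm_num))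
    · exact (cellN (t' := t - Real.pi) (τ := t - Real.pi / 2 + κ) 0.42 0.6 0.4 0.67033 1.49183 1.49182 1.7637 0.32327 0.0328 1.09184 0.05363 0.00033 0.00003 0.6481 1.809 _ _ (-0.7069) (-0.534) 0.7069 1.570796 0 1 0.66672 1.0228 1.6196 0.7247 0.00003615 0.0000003101 0.0007124 1.9467 0.00166
      hβ hr hκ hk1 hk2 (by norm_num) (by linarith) (by linarith) (by linarith) (by linarith) (by linarith) hY
      (expm_le (by norm_num) (by norm_num) (by norm_num)) (expn_ge (by norm_num) (by norm_num)) (expn_le (by norm_num) (by norm_num) (by norm_num)) (by norm_num)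
      (exp_neg_leJ (r := 0.2279) 10 (by norm_num) (by norm_num) (by norm_num) (by norm_num)) (exp_neg_leJ (r := 0.9899) 14 (by norm_num) (by norm_num) (by norm_num) (by norm_num)) (exp_neg_leJ (r := 0.2469) 7 (by norm_num) (by norm_num) (by norm_num) (by norm_num))
      (by linarith)
      (by norm_num) (by norm_num) (by norm_num) (by norm_num) (by norm_num) (by norm_num) (by norm_num) (by norm_num) (by norm_num) (by norm_num) (by norm_num) (by norm_num) (by norm_num) (by norm_num) (by norm_num) (by norm_num) (by norm_num) (by norm_num) (by norm_num) le_rfl rfl (by norm_num) (by norm_num) (by norm_num) (by norm_num) (by norm_num) (by norm_num) (by norm_num) (by norm_num) (by norm_num) (by norm_num) (by norm_num) (by norm_num) (by norm_num) (by norm_num) (by norm_num) (by norm_num) (by norm_num) (by norm_num) (by norm_num)).trans (mul_le_mul (by norm_num) hmx hY0 (by norm_num))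
    · rcases le_total (t + Real.pi / 2 + β) (Real.pi / 2) with hz | hz
      · exact (cellHU (t' := t + Real.pi / 2 + β) (τ := t - Real.pi / 2 + κ) 0.42 0.6 0.3 1.34986 0.74081 0.74082 4.2636 0.11139 0.0128 0.000001 41.843 0.0000003101 1.04083 0.06075 0.00084 0.00014 0.6481 1.809 _ _ (-0.7069) (-0.534) 0.7069 3.141592 0.66672 0.7593 0.893 0.7247 0.0005043 0.0001328 0.0007124 1.9467 0.00516
      hβ hr hκ hk1 hk2 (by linarith) (by linarith) (by linarith) (by linarith) (by linarith) hY
      (expn_le (by norm_num) (by norm_num) (by norm_num))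
      (expm_ge (by norm_num) (by norm_num) (by norm_num) (by norm_num)) (expm_le (by norm_num) (by norm_num) (by norm_num)) (exp_neg_leJ (r := 0.9899) 14 (by norm_num) (by norm_num) (by norm_num) (by norm_num)) 
      (exp_neg_leJ (r := 0.5929) 7 (by norm_num) (by norm_num) (by norm_num) (by norm_num)) (exp_neg_leJ (r := 0.9299) 8 (by norm_num) (by norm_num) (by norm_num) (by norm_num)) (exp_neg_leJ (r := 0.2469) 7 (by norm_num) (by norm_num) (by norm_num) (by norm_num))
      (by linarith)
      (by norm_num) (by norm_num) (by norm_num) (by norm_num) (by norm_num) (by norm_num) (by norm_num) (by norm_num) (by norm_num) (by norm_num) (by norm_num) (by norm_num) (by norm_num) (by norm_num) (by norm_num) (by norm_num) (by norm_num) (by norm_num) (by norm_num) (by norm_num) (by norm_num) le_rfl rfl (by norm_num) (by norm_num) (by norm_num) (by norm_num) (by norm_num) (by norm_num) (by norm_num) (by norm_num) (by norm_num) (by norm_num) (by norm_num) (by norm_num) (by norm_num) (by norm_num) (by norm_num) (by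 norm_num) (by norm_num) (by norm_num) (by norm_num)).trans (mul_le_mul (by norm_num) hmx hY0 (by norm_num))
      · exact (cellUD (t' := t + Real.pi / 2 + β) (τ := t - Real.pi / 2 + κ) 0.42 0.6 0.6481 0.7069 0.66672 0.7247 0.001937 0.0007124 1.9467 0.00903
      hβ hr hκ hk1 hk2 (by norm_num) (by linarith) (by linarith) (by linarith) (by linarith) hY
      (exp_neg_leJ (r := 0.2469) 6 (by norm_num) (by norm_num) (by norm_num) (by norm_num)) (exp_neg_leJ (r := 0.2469) 7 (by norm_num) (by norm_num) (by norm_num) (by norm_num)) (by norm_num) (by norm_num) (by norm_num) (by norm_num) (by norm_num) (by norm_num) (by norm_num) (by norm_num)).trans (mul_le_mul (by norm_num) hmx hY0 (by norm_num))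
    · exact (cellN (t' := t - Real.pi + β) (τ := t - Real.pi / 2 + κ) 0.42 0.6 0.41 0.66366 1.50682 1.50681 1.764 0.31993 0.0328 1.09683 0.05579 0.00035 0.00003 0.6481 1.809 _ _ (-0.7069) (-0.534) 0.7069 1.570796 1 1.50682 0.66672 1.0467 1.6385 0.7247 0.00002847 0.0000003101 0.0007124 1.9467 0.0017
      hβ hr hκ hk1 hk2 (by norm_num) (by linarith) (by linarith) (by linarith) (by linarith) (by linarith) hY
      (expm_le (by norm_num) (by norm_num) (by norm_num)) (expn_ge (by norm_num) (by norm_num)) (expn_le (by norm_num) (by norm_num) (by norm_num)) (by rw [mul_one]; exact (expn_le (by norm_num) (by norm_num) (by norm_num)))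
      (exp_neg_leJ (r := 0.4669) 10 (by norm_num) (by norm_num) (by norm_num) (by norm_num)) (exp_neg_leJ (r := 0.9899) 14 (by norm_num) (by norm_num) (by norm_num) (by norm_num)) (exp_neg_leJ (r := 0.2469) 7 (by norm_num) (by norm_num) (by norm_num) (by norm_num))
      (by linarith)
      (by norm_num) (by norm_num) (by norm_num) (by norm_num) (by norm_num) (by norm_num) (by norm_num) (by norm_num) (by norm_num) (by norm_num) (by norm_num) (by norm_num) (by norm_num) (by norm_num) (by norm_num) (by norm_num) (by norm_num) (by norm_num) (by norm_num) le_rfl rfl (by norm_num) (by norm_num) (by norm_num) (by norm_num) (by norm_num) (by norm_num) (by norm_num) (by norm_num) (by norm_num) (by norm_num) (by norm_num) (by norm_num) (by norm_num) (by norm_num) (by norm_num) (by norm_num) (by norm_num) (by norm_num) (by norm_num)).trans (mul_le_mul (by norm_num) hmx hY0 (by norm_num))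

theorem rng_2 {p : ℤ} {β r κ : ℝ} (hp : IsCoprime (4 : ℤ) p) (hβ : 0 < β) (hr : 10 ≤ r) (hκ : κ = β * r)
    (hk1 : 0.42 ≤ κ) (hk2 : κ ≤ 0.6) : Circ (2 * Real.pi * p / 4 + β) r := by
  refine circ4 (κ := κ) (s0 := 0.05) (slo := 0.49) (shi := 0.66) (a := 1.04) (m := 0.107) (E2 := 0.01103) (Em := 0.00202) (F2 := 0.01103) (Fm := 0.00206)
    (l0 := 2.4717) (l1 := 0.8475) hp (by linarith) (by norm_num) (by norm_num) (by norm_num) (by norm_num) ?_ ?_ (by norm_num) (by norm_num)
  · intro t h1 h2
    obtain ⟨w1, w2, w3, w4⟩ := WE_2 (t := t) hβ hr hκ hk1 hk2 h1 h2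
    have S : SL β r 2.4717 0.8475 0.107 t := by
      rcases le_total κ 0.465 with f0 | g0
      · exact SL_mono (by linarith) (slp3 (t := t) hβ hr hκ (by linarith) (by linarith) h1 h2) (by norm_num) (by norm_num) (by norm_num)
      rcases le_total κ 0.51 with f1 | g1
      · exact SL_mono (by linarith) (slp4 (t := t) hβ hr hκ (by linarith) (by linarith) h1 h2) (by norm_num) (by norm_num) (by norm_num)
      rcases le_total κ 0.555 with f2 | g2
      · exact SL_mono (by linarith) (slp5 (t := t) hβ hr hκ (by linarith) (by linarith) h1 h2) (by norm_num) (by norm_num) (by norm_num)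
      exact SL_mono (by linarith) (slp6 (t := t) hβ hr hκ (by linarith) (by linarith) h1 h2) (by norm_num) (by norm_num) (by norm_num)
    exact ⟨S.ne0, w1, w2, w3, w4, S.L0, S.L1, S.S⟩
  · intro t h1 h2 h3
    rcases h3 with h3 | h3
    · exact RL_2 hβ hr hκ hk1 hk2 h1 h3.le
    · exact RR_2 hβ hr hκ hk1 hk2 h3.le h2

end Sok.B4
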