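import Pool.Agent.Lib.MP_816dec_an.JBG2

/-!
MP_816dec_an (A3, row R1, b = 4): left discs.
-/

set_option autoImplicit false
set_option maxHeartbeats 4000000

open Complex Set

namespace Sok.B4

private theorem dl7_b0_0 {β x y : ℝ} (hβ : 0 < β) (hN : β * 14.285 ≤ 1) (hx1 : 0.8831 ≤ x) (hx2 : x ≤ 1.1237)
    (hy1 : -0.58 ≤ y) (hy2 : y ≤ -0.445) : ‖HH β (x + y * I) - 1‖ ≤ 0.28 := by
  refine le_epsJ (C := 3.9563) (N0 := 14.285) (J_boxp 0.8831 1.1237 0.58 0 (-0.445) 0.92 1.2646 1.2533 1.2687 0.4467 3.7796 14.285 1.3746 8.543 1.907 0.4525 0.4599 0.2492 0.395 1.596 0.4671 1.7227 1.7602 3.0407 0.001404 0.02848 0.003548 0.0000003101 0.001267 0.0000003101 0.0000003101 0.0000003101 3.9563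
    hβ hN hx1 hx2 hy1 hy2 (by norm_num) (by norm_num) (by linarith) (by norm_num) (by norm_num) (by norm_num) (by norm_num) (by norm_num) (by norm_num) (by norm_num) (by norm_num) (by norm_num) (by norm_num) (by norm_num) (by norm_num) (by norm_num) (by norm_num) (by norm_num) (by norm_num) (by norm_num) (by norm_num) (by norm_num) (by norm_num) (by norm_num)
    (cube_sqrt_geJ (s := 0.736) (by norm_num) (by norm_num) (by norm_num) (by norm_num))
    (cube_sqrt_geJ (s := 0.9119) (by norm_num) (by norm_num) (by norm_num) (by norm_num))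
    (by norm_num) (by norm_num) (by norm_num) (by norm_num) (by norm_num) (by norm_num) (by norm_num) (by norm_num) (by norm_num) (by norm_num) (by norm_num) (by norm_num) (by norm_num) (by norm_num) (by norm_num) (by norm_num) (by norm_num) (by norm_num)
    (exp_neg_leJ (r := 0.569) 6 (by norm_num) (by norm_num) (by norm_num) (by norm_num))
    (exp_neg_leJ (r := 0.559) 3 (by norm_num) (by norm_num) (by norm_num) (by norm_num))
    (exp_neg_leJ (r := 0.642) 5 (by norm_num) (by norm_num) (by norm_num) (by norm_num))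
    (exp_neg_leJ (r := 0.99) 14 (by norm_num) (by norm_num) (by norm_num) (by norm_num))
    (exp_neg_leJ (r := 0.672) 6 (by norm_num) (by norm_num) (by norm_num) (by norm_num))
    (exp_neg_leJ (r := 0.99) 14 (by norm_num) (by norm_num) (by norm_num) (by norm_num))
    (exp_neg_leJ (r := 0.99) 14 (by norm_num) (by norm_num) (by norm_num) (by norm_num))
    (exp_neg_leJ (r := 0.99) 14 (by norm_num) (by norm_num) (by norm_num) (by norm_num))
    (by norm_num)) (by norm_num) hN hβ.le (by norm_num)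

private theorem dl7_b0_1 {β x y : ℝ} (hβ : 0 < β) (hN : β * 14.285 ≤ 1) (hx1 : 0.861 ≤ x) (hx2 : x ≤ 1.116)
    (hy1 : -0.565 ≤ y) (hy2 : y ≤ -0.42) : ‖HH β (x + y * I) - 1‖ ≤ 0.28 := by
  refine le_epsJ (C := 3.915) (N0 := 14.285) (J_boxp 0.861 1.116 0.565 0 (-0.42) 0.9151 1.2509 1.2578 1.2812 0.4475 3.7796 14.285 1.367 8.405 1.899 0.4693 0.4575 0.249 0.4111 1.6491 0.4645 1.6921 1.7568 3.0337 0.001453 0.02857 0.002824 0.0000003101 0.001315 0.0000003101 0.0000003101 0.0000003101 3.915
    hβ hN hx1 hx2 hy1 hy2 (by norm_num) (by norm_num) (by linarith) (by norm_num) (by norm_num) (by norm_num) (by norm_num) (by norm_num) (by norm_num) (by norm_num) (by norm_num) (by norm_num) (by norm_num) (by norm_num) (by norm_num) (by norm_num) (by norm_num) (by norm_num) (by norm_num) (by norm_num) (by norm_num) (by norm_num) (by norm_num) (by norm_num)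
    (cube_sqrt_geJ (s := 0.7377) (by norm_num) (by norm_num) (by norm_num) (by norm_num))
    (cube_sqrt_geJ (s := 0.9124) (by norm_num) (by norm_num) (by norm_num) (by norm_num))
    (by norm_num) (by norm_num) (by norm_num) (by norm_num) (by norm_num) (by norm_num) (by norm_num) (by norm_num) (by norm_num) (by norm_num) (by norm_num) (by norm_num) (by norm_num) (by norm_num) (by norm_num) (by norm_num) (by norm_num) (by norm_num)
    (exp_neg_leJ (r := 0.535) 6 (by norm_num) (by norm_num) (by norm_num) (by norm_num))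
    (exp_neg_leJ (r := 0.556) 3 (by norm_num) (by norm_num) (by norm_num) (by norm_num))
    (exp_neg_leJ (r := 0.872) 5 (by norm_num) (by norm_num) (by norm_num) (by norm_num))
    (exp_neg_leJ (r := 0.99) 14 (by norm_num) (by norm_num) (by norm_num) (by norm_num))
    (exp_neg_leJ (r := 0.635) 6 (by norm_num) (by norm_num) (by norm_num) (by norm_num))
    (exp_neg_leJ (r := 0.99) 14 (by norm_num) (by norm_num) (by norm_num) (by norm_num))
    (exp_neg_leJ (r := 0.99) 14 (by norm_num) (by norm_num) (by norm_num) (by norm_num))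
    (exp_neg_leJ (r := 0.99) 14 (by norm_num) (by norm_num) (by norm_num) (by norm_num))
    (by norm_num)) (by norm_num) hN hβ.le (by norm_num)

private theorem dl7_b0_2 {β x y : ℝ} (hβ : 0 < β) (hN : β * 14.285 ≤ 1) (hx1 : 0.822 ≤ x) (hx2 : x ≤ 1.1043)
    (hy1 : -0.54 ≤ y) (hy2 : y ≤ -0.375) : ‖HH β (x + y * I) - 1‖ ≤ 0.28 := by
  refine le_epsJ (C := 3.9032) (N0 := 14.285) (J_boxp 0.822 1.1043 0.54 0 (-0.375) 0.9054 1.2293 1.2689 1.3076 0.4494 3.7796 14.285 1.3578 8.241 1.89 0.4969 0.4526 0.2478 0.4372 1.737 0.4592 1.6381 1.7468 3.0144 0.001558 0.02905 0.001941 0.0000003101 0.001418 0.0000003101 0.0000003101 0.0000003101 3.9032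
    hβ hN hx1 hx2 hy1 hy2 (by norm_num) (by norm_num) (by linarith) (by norm_num) (by norm_num) (by norm_num) (by norm_num) (by norm_num) (by norm_num) (by norm_num) (by norm_num) (by norm_num) (by norm_num) (by norm_num) (by norm_num) (by norm_num) (by norm_num) (by norm_num) (by norm_num) (by norm_num) (by norm_num) (by norm_num) (by norm_num) (by norm_num)
    (cube_sqrt_geJ (s := 0.7398) (by norm_num) (by norm_num) (by norm_num) (by norm_num))
    (cube_sqrt_geJ (s := 0.913) (by norm_num) (by norm_num) (by norm_num) (by norm_num))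
    (by norm_num) (by norm_num) (by norm_num) (by norm_num) (by norm_num) (by norm_num) (by norm_num) (by norm_num) (by norm_num) (by norm_num) (by norm_num) (by norm_num) (by norm_num) (by norm_num) (by norm_num) (by norm_num) (by norm_num) (by norm_num)
    (exp_neg_leJ (r := 0.465) 6 (by norm_num) (by norm_num) (by norm_num) (by norm_num))
    (exp_neg_leJ (r := 0.539) 3 (by norm_num) (by norm_num) (by norm_num) (by norm_num))
    (exp_neg_leJ (r := 0.245) 6 (by norm_num) (by norm_num) (by norm_num) (by norm_num))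
    (exp_neg_leJ (r := 0.99) 14 (by norm_num) (by norm_num) (by norm_num) (by norm_num))
    (exp_neg_leJ (r := 0.559) 6 (by norm_num) (by norm_num) (by norm_num) (by norm_num))
    (exp_neg_leJ (r := 0.99) 14 (by norm_num) (by norm_num) (by norm_num) (by norm_num))
    (exp_neg_leJ (r := 0.99) 14 (by norm_num) (by norm_num) (by norm_num) (by norm_num))
    (exp_neg_leJ (r := 0.99) 14 (by norm_num) (by norm_num) (by norm_num) (by norm_num))
    (by norm_num)) (by norm_num) hN hβ.le (by norm_num)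

private theorem dl7_b0_3 {β x y : ℝ} (hβ : 0 < β) (hN : β * 14.285 ≤ 1) (hx1 : 0.7481 ≤ x) (hx2 : x ≤ 1.085)
    (hy1 : -0.495 ≤ y) (hy2 : y ≤ -0.285) : ‖HH β (x + y * I) - 1‖ ≤ 0.28 := by
  refine le_epsJ (C := 3.9925) (N0 := 14.285) (J_boxp 0.7481 1.085 0.495 0 (-0.285) 0.8853 1.1926 1.2995 1.3686 0.4548 3.7796 14.285 1.3472 8.058 1.88 0.5458 0.4426 0.2438 0.483 1.8941 0.4479 1.5358 1.7213 2.9664 0.001797 0.03076 0.001012 0.0000003101 0.001666 0.0000003101 0.0000003101 0.0000003101 3.9925
    hβ hN hx1 hx2 hy1 hy2 (by norm_num) (by norm_num) (by linarith) (by norm_num) (by norm_num) (by norm_num) (by norm_num) (by norm_num) (by norm_num) (by norm_num) (by norm_num) (by norm_num) (by norm_num) (by norm_num) (by norm_num) (by norm_num) (by norm_num) (by norm_num) (by norm_num) (by norm_num) (by norm_num) (by norm_num) (by norm_num) (by norm_num)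
    (cube_sqrt_geJ (s := 0.7422) (by norm_num) (by norm_num) (by norm_num) (by norm_num))
    (cube_sqrt_geJ (s := 0.9138) (by norm_num) (by norm_num) (by norm_num) (by norm_num))
    (by norm_num) (by norm_num) (by norm_num) (by norm_num) (by norm_num) (by norm_num) (by norm_num) (by norm_num) (by norm_num) (by norm_num) (by norm_num) (by norm_num) (by norm_num) (by norm_num) (by norm_num) (by norm_num) (by norm_num) (by norm_num)
    (exp_neg_leJ (r := 0.322) 6 (by norm_num) (by norm_num) (by norm_num) (by norm_num))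
    (exp_neg_leJ (r := 0.482) 3 (by norm_num) (by norm_num) (by norm_num) (by norm_num))
    (exp_neg_leJ (r := 0.899) 6 (by norm_num) (by norm_num) (by norm_num) (by norm_num))
    (exp_neg_leJ (r := 0.99) 14 (by norm_num) (by norm_num) (by norm_num) (by norm_num))
    (exp_neg_leJ (r := 0.398) 6 (by norm_num) (by norm_num) (by norm_num) (by norm_num))
    (exp_neg_leJ (r := 0.99) 14 (by norm_num) (by norm_num) (by norm_num) (by norm_num))
    (exp_neg_leJ (r := 0.99) 14 (by norm_num) (by norm_num) (by norm_num) (by norm_num))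
    (exp_neg_leJ (r := 0.99) 14 (by norm_num) (by norm_num) (by norm_num) (by norm_num))
    (by norm_num)) (by norm_num) hN hβ.le (by norm_num)

private theorem dl7_b0_4 {β x y : ℝ} (hβ : 0 < β) (hN : β * 14.285 ≤ 1) (hx1 : 0.7534 ≤ x) (hx2 : x ≤ 0.9996)
    (hy1 : -0.405 ≤ y) (hy2 : y ≤ -0.247) : ‖HH β (x + y * I) - 1‖ ≤ 0.28 := by
  refine le_epsJ (C := 1.9015) (N0 := 14.285) (J_boxp 0.7534 0.9996 0.405 0 (-0.247) 0.9529 1.0786 1.2515 1.2027 0.4463 3.7796 14.285 1.132 5.25 1.686 0.6618 0.4764 0.2966 0.6269 2.2337 0.4997 1.5431 1.9765 3.2869 0.00111 0.01447 0.0001295 0.0000003101 0.0007944 0.0000003101 0.0000003101 0.0000003101 1.9015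
    hβ hN hx1 hx2 hy1 hy2 (by norm_num) (by norm_num) (by linarith) (by norm_num) (by norm_num) (by norm_num) (by norm_num) (by norm_num) (by norm_num) (by norm_num) (by norm_num) (by norm_num) (by norm_num) (by norm_num) (by norm_num) (by norm_num) (by norm_num) (by norm_num) (by norm_num) (by norm_num) (by norm_num) (by norm_num) (by norm_num) (by norm_num)
    (cube_sqrt_geJ (s := 0.789) (by norm_num) (by norm_num) (by norm_num) (by norm_num))
    (cube_sqrt_geJ (s := 0.9281) (by norm_num) (by norm_num) (by norm_num) (by norm_num))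
    (by norm_num) (by norm_num) (by norm_num) (by norm_num) (by norm_num) (by norm_num) (by norm_num) (by norm_num) (by norm_num) (by norm_num) (by norm_num) (by norm_num) (by norm_num) (by norm_num) (by norm_num) (by norm_num) (by norm_num) (by norm_num)
    (exp_neg_leJ (r := 0.805) 6 (by norm_num) (by norm_num) (by norm_num) (by norm_num))
    (exp_neg_leJ (r := 0.236) 4 (by norm_num) (by norm_num) (by norm_num) (by norm_num))
    (exp_neg_leJ (r := 0.955) 8 (by norm_num) (by norm_num) (by norm_num) (by norm_num))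
    (exp_neg_leJ (r := 0.99) 14 (by norm_num) (by norm_num) (by norm_num) (by norm_num))
    (exp_neg_leJ (r := 0.138) 7 (by norm_num) (by norm_num) (by norm_num) (by norm_num))
    (exp_neg_leJ (r := 0.99) 14 (by norm_num) (by norm_num) (by norm_num) (by norm_num))
    (exp_neg_leJ (r := 0.99) 14 (by norm_num) (by norm_num) (by norm_num) (by norm_num))
    (exp_neg_leJ (r := 0.99) 14 (by norm_num) (by norm_num) (by norm_num) (by norm_num))
    (by norm_num)) (by norm_num) hN hβ.le (by norm_num)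

private theorem dl7_c0 {κ t β : ℝ} (h : DomR κ t) (hβ : 0 < β) (hk1 : 0.65 ≤ κ) (hk2 : κ ≤ 0.7)
    (ht1 : -0.8012 ≤ t + κ) (ht2 : t + κ ≤ -0.534) (hR0 : β * 10 ≤ κ) (hR : β * (3.3 * (1 + κ ^ 2)) ≤ κ) :
    ∀ s : ℂ, ‖s - sg κ t‖ ≤ 0.06 → ‖HH β s - 1‖ ≤ 0.28 := by
  have hN : β * 14.285 ≤ 1 := bNR hβ h.1 hk2 hR0 (by norm_num)
  have hy1 : -0.52 ≤ sy κ t := syL_ge h 0.65 0.7 0.8012 0.52 0.59452 0.59453 0.4558 0.44164 0.47563 hk1 hk2 (by linarith) (by norm_num) (by norm_num) (by norm_num)
    (expm_ge (by norm_num) (by norm_num) (by norm_num) (by norm_num)) (expm_le (by norm_num) (by norm_num) (by norm_num)) (by norm_num)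
    (by norm_num) (by norm_num) (by norm_num) (by norm_num) (by norm_num) (by norm_num)
  have hy2 : sy κ t ≤ -0.307 := syL_le h 0.65 0.7 0.534 0.307 0.73565 0.73566 0.32263 0.34746 hk1 hk2 (by linarith) (by norm_num) (by norm_num) (by norm_num)
    (expm_ge (by norm_num) (by norm_num) (by norm_num) (by norm_num)) (expm_le (by norm_num) (by norm_num) (by norm_num)) (by norm_num)
    (by norm_num) (by norm_num) (by norm_num) (by norm_num) (by norm_num) (by norm_num)
  intro s hs
  have hs' : ‖s - ((sx κ t : ℂ) + (sy κ t : ℂ) * I)‖ ≤ 0.06 := hs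
  obtain ⟨es, ⟨s1, s2⟩, ⟨s3, s4⟩⟩ := disc_split hs'
  rcases le_total (sy κ t) (-0.505) with f0 | g0
  · have hx1 : 0.9431 ≤ sx κ t := sx_lo h 0.65 (-0.505) 0.52 1.65698 0.9431 hk1 (by norm_num) f0 (abs_le.2 ⟨by linarith, by linarith⟩) (by rw [neg_neg]; exact expn_ge (by norm_num) (by norm_num)) (by norm_num) (by norm_num)
    have hx2 : sx κ t ≤ 1.0637 := sx_hi h 0.7 (-0.52) 0.505 1.68203 1.0637 hk2 hy1 (by norm_num) (by rw [abs_of_nonpos (by linarith)]; linarith) (by rw [neg_neg]; exact expn_le (by norm_num) (by norm_num) (by norm_num)) (by norm_num) (by norm_num)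
    rw [es]
    exact dl7_b0_0 hβ hN (by linarith) (by linarith) (by linarith) (by linarith)
  rcases le_total (sy κ t) (-0.48) with f1 | g1
  · have hx1 : 0.921 ≤ sx κ t := sx_lo h 0.65 (-0.48) 0.505 1.61607 0.921 hk1 (by norm_num) f1 (abs_le.2 ⟨by linarith, by linarith⟩) (by rw [neg_neg]; exact expn_ge (by norm_num) (by norm_num)) (by norm_num) (by norm_num)
    have hx2 : sx κ t ≤ 1.056 := sx_hi h 0.7 (-0.505) 0.48 1.65699 1.056 hk2 g0 (by norm_num) (by rw [abs_of_nonpos (by linarith)]; linarith) (by rw [neg_neg]; exact expn_le (by norm_num) (by norm_num) (by norm_num)) (by norm_num) (by norm_num)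
    rw [es]
    exact dl7_b0_1 hβ hN (by linarith) (by linarith) (by linarith) (by linarith)
  rcases le_total (sy κ t) (-0.435) with f2 | g2
  · have hx1 : 0.882 ≤ sx κ t := sx_lo h 0.65 (-0.435) 0.48 1.54496 0.882 hk1 (by norm_num) f2 (abs_le.2 ⟨by linarith, by linarith⟩) (by rw [neg_neg]; exact expn_ge (by norm_num) (by norm_num)) (by norm_num) (by norm_num)
    have hx2 : sx κ t ≤ 1.0443 := sx_hi h 0.7 (-0.48) 0.435 1.61608 1.0443 hk2 g1 (by norm_num) (by rw [abs_of_nonpos (by linarith)]; linarith) (by rw [neg_neg]; exact expn_le (by norm_num) (by norm_num) (by norm_num)) (by norm_num) (by norm_num)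
    rw [es]
    exact dl7_b0_2 hβ hN (by linarith) (by linarith) (by linarith) (by linarith)
  rcases le_total (sy κ t) (-0.345) with f3 | g3
  · have hx1 : 0.8081 ≤ sx κ t := sx_lo h 0.65 (-0.345) 0.435 1.41198 0.8081 hk1 (by norm_num) f3 (abs_le.2 ⟨by linarith, by linarith⟩) (by rw [neg_neg]; exact expn_ge (by norm_num) (by norm_num)) (by norm_num) (by norm_num)
    have hx2 : sx κ t ≤ 1.025 := sx_hi h 0.7 (-0.435) 0.345 1.54497 1.025 hk2 g2 (by norm_num) (by rw [abs_of_nonpos (by linarith)]; linarith) (by rw [neg_neg]; exact expn_le (by norm_num) (by norm_num) (by norm_num)) (by norm_num) (by norm_num)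
    rw [es]
    exact dl7_b0_3 hβ hN (by linarith) (by linarith) (by linarith) (by linarith)
  have hx1 : 0.8134 ≤ sx κ t := sx_lo h 0.65 (-0.307) 0.345 1.35934 0.8134 hk1 (by norm_num) hy2 (abs_le.2 ⟨by linarith, by linarith⟩) (by rw [neg_neg]; exact expn_ge (by norm_num) (by norm_num)) (by norm_num) (by norm_num)
  have hx2 : sx κ t ≤ 0.9396 := sx_hi h 0.7 (-0.345) 0.307 1.41199 0.9396 hk2 g3 (by norm_num) (by rw [abs_of_nonpos (by linarith)]; linarith) (by rw [neg_neg]; exact expn_le (by norm_num) (by norm_num) (by norm_num)) (by norm_num) (by norm_num)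
  rw [es]
  exact dl7_b0_4 hβ hN (by linarith) (by linarith) (by linarith) (by linarith)

theorem dl7 {κ t β : ℝ} (h : DomR κ t) (hβ : 0 < β) (hk1 : 0.65 ≤ κ) (hk2 : κ ≤ 0.7)
    (ht1 : -0.8012 ≤ t + κ) (ht2 : t + κ ≤ -0.534) (hR0 : β * 10 ≤ κ) (hR : β * (3.3 * (1 + κ ^ 2)) ≤ κ) :
    ∀ s : ℂ, ‖s - sg κ t‖ ≤ 0.06 → ‖HH β s - 1‖ ≤ 0.28 := by
  exact dl7_c0 h hβ hk1 hk2 ht1 ht2 hR0 hR

private theorem dl8_b0_0 {β x y : ℝ} (hβ : 0 < β) (hN : β * 13.333 ≤ 1) (hx1 : 0.9849 ≤ x) (hx2 : x ≤ 1.2061)
    (hy1 : -0.574 ≤ y) (hy2 : y ≤ -0.449) : ‖HH β (x + y * I) - 1‖ ≤ 0.25 := by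
  refine le_epsJ (C := 3.2813) (N0 := 13.333) (J_boxp 0.9849 1.2061 0.574 0 (-0.449) 0.9959 1.3358 1.3261 1.1587 0.4595 3.6515 13.333 1.3413 7.958 1.874 0.4263 0.4979 0.2753 0.4393 1.5702 0.5198 1.8637 1.9801 3.0507 0.001311 0.0255 0.002866 0.0000003101 0.0009807 0.0000003101 0.0000003101 0.0000003101 3.2813
    hβ hN hx1 hx2 hy1 hy2 (by norm_num) (by norm_num) (by linarith) (by norm_num) (by norm_num) (by norm_num) (by norm_num) (by norm_num) (by norm_num) (by norm_num) (by norm_num) (by norm_num) (by norm_num) (by norm_num) (by norm_num) (by norm_num) (by norm_num) (by norm_num) (by norm_num) (by norm_num) (by norm_num) (by norm_num) (by norm_num) (by norm_num)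
    (cube_sqrt_geJ (s := 0.7435) (by norm_num) (by norm_num) (by norm_num) (by norm_num))
    (cube_sqrt_geJ (s := 0.9142) (by norm_num) (by norm_num) (by norm_num) (by norm_num))
    (by norm_num) (by norm_num) (by norm_num) (by norm_num) (by norm_num) (by norm_num) (by norm_num) (by norm_num) (by norm_num) (by norm_num) (by norm_num) (by norm_num) (by norm_num) (by norm_num) (by norm_num) (by norm_num) (by norm_num) (by norm_num)
    (exp_neg_leJ (r := 0.638) 6 (by norm_num) (by norm_num) (by norm_num) (by norm_num))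
    (exp_neg_leJ (r := 0.67) 3 (by norm_num) (by norm_num) (by norm_num) (by norm_num))
    (exp_neg_leJ (r := 0.857) 5 (by norm_num) (by norm_num) (by norm_num) (by norm_num))
    (exp_neg_leJ (r := 0.99) 14 (by norm_num) (by norm_num) (by norm_num) (by norm_num))
    (exp_neg_leJ (r := 0.93) 6 (by norm_num) (by norm_num) (by norm_num) (by norm_num))
    (exp_neg_leJ (r := 0.99) 14 (by norm_num) (by norm_num) (by norm_num) (by norm_num))
    (exp_neg_leJ (r := 0.99) 14 (by norm_num) (by norm_num) (by norm_num) (by norm_num))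
    (exp_neg_leJ (r := 0.99) 14 (by norm_num) (by norm_num) (by norm_num) (by norm_num))
    (by norm_num)) (by norm_num) hN hβ.le (by norm_num)

private theorem dl8_b0_1 {β x y : ℝ} (hβ : 0 < β) (hN : β * 13.333 ≤ 1) (hx1 : 0.9745 ≤ x) (hx2 : x ≤ 1.2036)
    (hy1 : -0.569 ≤ y) (hy2 : y ≤ -0.439) : ‖HH β (x + y * I) - 1‖ ≤ 0.25 := by
  refine le_epsJ (C := 3.3112) (N0 := 13.333) (J_boxp 0.9745 1.2036 0.569 0 (-0.439) 0.9922 1.3314 1.328 1.1661 0.4598 3.6515 13.333 1.3419 7.968 1.875 0.4319 0.496 0.2741 0.4437 1.5878 0.5175 1.8493 1.9729 3.0419 0.001344 0.02591 0.002706 0.0000003101 0.001012 0.0000003101 0.0000003101 0.0000003101 3.3112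
    hβ hN hx1 hx2 hy1 hy2 (by norm_num) (by norm_num) (by linarith) (by norm_num) (by norm_num) (by norm_num) (by norm_num) (by norm_num) (by norm_num) (by norm_num) (by norm_num) (by norm_num) (by norm_num) (by norm_num) (by norm_num) (by norm_num) (by norm_num) (by norm_num) (by norm_num) (by norm_num) (by norm_num) (by norm_num) (by norm_num) (by norm_num)
    (cube_sqrt_geJ (s := 0.7434) (by norm_num) (by norm_num) (by norm_num) (by norm_num))
    (cube_sqrt_geJ (s := 0.9141) (by norm_num) (by norm_num) (by norm_num) (by norm_num))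
    (by norm_num) (by norm_num) (by norm_num) (by norm_num) (by norm_num) (by norm_num) (by norm_num) (by norm_num) (by norm_num) (by norm_num) (by norm_num) (by norm_num) (by norm_num) (by norm_num) (by norm_num) (by norm_num) (by norm_num) (by norm_num)
    (exp_neg_leJ (r := 0.613) 6 (by norm_num) (by norm_num) (by norm_num) (by norm_num))
    (exp_neg_leJ (r := 0.654) 3 (by norm_num) (by norm_num) (by norm_num) (by norm_num))
    (exp_neg_leJ (r := 0.915) 5 (by norm_num) (by norm_num) (by norm_num) (by norm_num))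
    (exp_neg_leJ (r := 0.99) 14 (by norm_num) (by norm_num) (by norm_num) (by norm_num))
    (exp_neg_leJ (r := 0.899) 6 (by norm_num) (by norm_num) (by norm_num) (by norm_num))
    (exp_neg_leJ (r := 0.99) 14 (by norm_num) (by norm_num) (by norm_num) (by norm_num))
    (exp_neg_leJ (r := 0.99) 14 (by norm_num) (by norm_num) (by norm_num) (by norm_num))
    (exp_neg_leJ (r := 0.99) 14 (by norm_num) (by norm_num) (by norm_num) (by norm_num))
    (by norm_num)) (by norm_num) hN hβ.le (by norm_num)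

private theorem dl8_b0_2 {β x y : ℝ} (hβ : 0 < β) (hN : β * 13.333 ≤ 1) (hx1 : 0.9602 ≤ x) (hx2 : x ≤ 1.1966)
    (hy1 : -0.559 ≤ y) (hy2 : y ≤ -0.424) : ‖HH β (x + y * I) - 1‖ ≤ 0.25 := by
  refine le_epsJ (C := 3.2669) (N0 := 13.333) (J_boxp 0.9602 1.1966 0.559 0 (-0.424) 0.9892 1.3208 1.3281 1.1714 0.4598 3.6515 13.333 1.3353 7.858 1.868 0.4438 0.4945 0.2744 0.4546 1.6242 0.516 1.8295 1.9715 3.0421 0.001371 0.0258 0.002333 0.0000003101 0.001032 0.0000003101 0.0000003101 0.0000003101 3.2669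
    hβ hN hx1 hx2 hy1 hy2 (by norm_num) (by norm_num) (by linarith) (by norm_num) (by norm_num) (by norm_num) (by norm_num) (by norm_num) (by norm_num) (by norm_num) (by norm_num) (by norm_num) (by norm_num) (by norm_num) (by norm_num) (by norm_num) (by norm_num) (by norm_num) (by norm_num) (by norm_num) (by norm_num) (by norm_num) (by norm_num) (by norm_num)
    (cube_sqrt_geJ (s := 0.7449) (by norm_num) (by norm_num) (by norm_num) (by norm_num))
    (cube_sqrt_geJ (s := 0.9146) (by norm_num) (by norm_num) (by norm_num) (by norm_num))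
    (by norm_num) (by norm_num) (by norm_num) (by norm_num) (by norm_num) (by norm_num) (by norm_num) (by norm_num) (by norm_num) (by norm_num) (by norm_num) (by norm_num) (by norm_num) (by norm_num) (by norm_num) (by norm_num) (by norm_num) (by norm_num)
    (exp_neg_leJ (r := 0.593) 6 (by norm_num) (by norm_num) (by norm_num) (by norm_num))
    (exp_neg_leJ (r := 0.658) 3 (by norm_num) (by norm_num) (by norm_num) (by norm_num))
    (exp_neg_leJ (r := 0.061) 6 (by norm_num) (by norm_num) (by norm_num) (by norm_num))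
    (exp_neg_leJ (r := 0.99) 14 (by norm_num) (by norm_num) (by norm_num) (by norm_num))
    (exp_neg_leJ (r := 0.879) 6 (by norm_num) (by norm_num) (by norm_num) (by norm_num))
    (exp_neg_leJ (r := 0.99) 14 (by norm_num) (by norm_num) (by norm_num) (by norm_num))
    (exp_neg_leJ (r := 0.99) 14 (by norm_num) (by norm_num) (by norm_num) (by norm_num))
    (exp_neg_leJ (r := 0.99) 14 (by norm_num) (by norm_num) (by norm_num) (by norm_num))
    (by norm_num)) (by norm_num) hN hβ.le (by norm_num)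

private theorem dl8_b0_3 {β x y : ℝ} (hβ : 0 < β) (hN : β * 13.333 ≤ 1) (hx1 : 0.9364 ≤ x) (hx2 : x ≤ 1.1871)
    (hy1 : -0.544 ≤ y) (hy2 : y ≤ -0.399) : ‖HH β (x + y * I) - 1‖ ≤ 0.25 := by
  refine le_epsJ (C := 3.243) (N0 := 13.333) (J_boxp 0.9364 1.1871 0.544 0 (-0.399) 0.9831 1.3059 1.3306 1.1834 0.4602 3.6515 13.333 1.3284 7.745 1.862 0.4613 0.4915 0.2738 0.4701 1.6783 0.5126 1.7965 1.9647 3.035 0.001427 0.02601 0.001898 0.0000003101 0.001079 0.0000003101 0.0000003101 0.0000003101 3.243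
    hβ hN hx1 hx2 hy1 hy2 (by norm_num) (by norm_num) (by linarith) (by norm_num) (by norm_num) (by norm_num) (by norm_num) (by norm_num) (by norm_num) (by norm_num) (by norm_num) (by norm_num) (by norm_num) (by norm_num) (by norm_num) (by norm_num) (by norm_num) (by norm_num) (by norm_num) (by norm_num) (by norm_num) (by norm_num) (by norm_num) (by norm_num)
    (cube_sqrt_geJ (s := 0.7464) (by norm_num) (by norm_num) (by norm_num) (by norm_num))
    (cube_sqrt_geJ (s := 0.915) (by norm_num) (by norm_num) (by norm_num) (by norm_num))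
    (by norm_num) (by norm_num) (by norm_num) (by norm_num) (by norm_num) (by norm_num) (by norm_num) (by norm_num) (by norm_num) (by norm_num) (by norm_num) (by norm_num) (by norm_num) (by norm_num) (by norm_num) (by norm_num) (by norm_num) (by norm_num)
    (exp_neg_leJ (r := 0.553) 6 (by norm_num) (by norm_num) (by norm_num) (by norm_num))
    (exp_neg_leJ (r := 0.65) 3 (by norm_num) (by norm_num) (by norm_num) (by norm_num))
    (exp_neg_leJ (r := 0.267) 6 (by norm_num) (by norm_num) (by norm_num) (by norm_num))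
    (exp_neg_leJ (r := 0.99) 14 (by norm_num) (by norm_num) (by norm_num) (by norm_num))
    (exp_neg_leJ (r := 0.834) 6 (by norm_num) (by norm_num) (by norm_num) (by norm_num))
    (exp_neg_leJ (r := 0.99) 14 (by norm_num) (by norm_num) (by norm_num) (by norm_num))
    (exp_neg_leJ (r := 0.99) 14 (by norm_num) (by norm_num) (by norm_num) (by norm_num))
    (exp_neg_leJ (r := 0.99) 14 (by norm_num) (by norm_num) (by norm_num) (by norm_num))
    (by norm_num)) (by norm_num) hN hβ.le (by norm_num)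

private theorem dl8_b0_4 {β x y : ℝ} (hβ : 0 < β) (hN : β * 13.333 ≤ 1) (hx1 : 0.8943 ≤ x) (hx2 : x ≤ 1.1724)
    (hy1 : -0.519 ≤ y) (hy2 : y ≤ -0.354) : ‖HH β (x + y * I) - 1‖ ≤ 0.25 := by
  refine le_epsJ (C := 3.2501) (N0 := 13.333) (J_boxp 0.8943 1.1724 0.519 0 (-0.354) 0.9712 1.2822 1.3386 1.2089 0.4616 3.6515 13.333 1.3203 7.615 1.854 0.4901 0.4855 0.2718 0.4951 1.7677 0.5058 1.7382 1.9485 3.0152 0.001545 0.02672 0.00136 0.0000003101 0.001181 0.0000003101 0.0000003101 0.0000003101 3.2501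
    hβ hN hx1 hx2 hy1 hy2 (by norm_num) (by norm_num) (by linarith) (by norm_num) (by norm_num) (by norm_num) (by norm_num) (by norm_num) (by norm_num) (by norm_num) (by norm_num) (by norm_num) (by norm_num) (by norm_num) (by norm_num) (by norm_num) (by norm_num) (by norm_num) (by norm_num) (by norm_num) (by norm_num) (by norm_num) (by norm_num) (by norm_num)
    (cube_sqrt_geJ (s := 0.7482) (by norm_num) (by norm_num) (by norm_num) (by norm_num))
    (cube_sqrt_geJ (s := 0.9156) (by norm_num) (by norm_num) (by norm_num) (by norm_num))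
    (by norm_num) (by norm_num) (by norm_num) (by norm_num) (by norm_num) (by norm_num) (by norm_num) (by norm_num) (by norm_num) (by norm_num) (by norm_num) (by norm_num) (by norm_num) (by norm_num) (by norm_num) (by norm_num) (by norm_num) (by norm_num)
    (exp_neg_leJ (r := 0.473) 6 (by norm_num) (by norm_num) (by norm_num) (by norm_num))
    (exp_neg_leJ (r := 0.623) 3 (by norm_num) (by norm_num) (by norm_num) (by norm_num))
    (exp_neg_leJ (r := 0.601) 6 (by norm_num) (by norm_num) (by norm_num) (by norm_num))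
    (exp_neg_leJ (r := 0.99) 14 (by norm_num) (by norm_num) (by norm_num) (by norm_num))
    (exp_neg_leJ (r := 0.743) 6 (by norm_num) (by norm_num) (by norm_num) (by norm_num))
    (exp_neg_leJ (r := 0.99) 14 (by norm_num) (by norm_num) (by norm_num) (by norm_num))
    (exp_neg_leJ (r := 0.99) 14 (by norm_num) (by norm_num) (by norm_num) (by norm_num))
    (exp_neg_leJ (r := 0.99) 14 (by norm_num) (by norm_num) (by norm_num) (by norm_num))
    (by norm_num)) (by norm_num) hN hβ.le (by norm_num)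

private theorem dl8_b0_5 {β x y : ℝ} (hβ : 0 < β) (hN : β * 13.333 ≤ 1) (hx1 : 0.8201 ≤ x) (hx2 : x ≤ 1.1459)
    (hy1 : -0.474 ≤ y) (hy2 : y ≤ -0.269) : ‖HH β (x + y * I) - 1‖ ≤ 0.25 := by
  refine le_epsJ (C := 3.2547) (N0 := 13.333) (J_boxp 0.8201 1.1459 0.474 0 (-0.269) 0.9509 1.2401 1.3593 1.2574 0.4652 3.6515 13.333 1.3042 7.365 1.839 0.5418 0.4754 0.2687 0.5408 1.9284 0.4944 1.6355 1.9224 2.9813 0.001768 0.02783 0.0007392 0.0000003101 0.001374 0.0000003101 0.0000003101 0.0000003101 3.2547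
    hβ hN hx1 hx2 hy1 hy2 (by norm_num) (by norm_num) (by linarith) (by norm_num) (by norm_num) (by norm_num) (by norm_num) (by norm_num) (by norm_num) (by norm_num) (by norm_num) (by norm_num) (by norm_num) (by norm_num) (by norm_num) (by norm_num) (by norm_num) (by norm_num) (by norm_num) (by norm_num) (by norm_num) (by norm_num) (by norm_num) (by norm_num)
    (cube_sqrt_geJ (s := 0.7518) (by norm_num) (by norm_num) (by norm_num) (by norm_num))
    (cube_sqrt_geJ (s := 0.9166) (by norm_num) (by norm_num) (by norm_num) (by norm_num))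
    (by norm_num) (by norm_num) (by norm_num) (by norm_num) (by norm_num) (by norm_num) (by norm_num) (by norm_num) (by norm_num) (by norm_num) (by norm_num) (by norm_num) (by norm_num) (by norm_num) (by norm_num) (by norm_num) (by norm_num) (by norm_num)
    (exp_neg_leJ (r := 0.338) 6 (by norm_num) (by norm_num) (by norm_num) (by norm_num))
    (exp_neg_leJ (r := 0.582) 3 (by norm_num) (by norm_num) (by norm_num) (by norm_num))
    (exp_neg_leJ (r := 0.21) 7 (by norm_num) (by norm_num) (by norm_num) (by norm_num))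
    (exp_neg_leJ (r := 0.99) 14 (by norm_num) (by norm_num) (by norm_num) (by norm_num))
    (exp_neg_leJ (r := 0.591) 6 (by norm_num) (by norm_num) (by norm_num) (by norm_num))
    (exp_neg_leJ (r := 0.99) 14 (by norm_num) (by norm_num) (by norm_num) (by norm_num))
    (exp_neg_leJ (r := 0.99) 14 (by norm_num) (by norm_num) (by norm_num) (by norm_num))
    (exp_neg_leJ (r := 0.99) 14 (by norm_num) (by norm_num) (by norm_num) (by norm_num))
    (by norm_num)) (by norm_num) hN hβ.le (by norm_num)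

private theorem dl8_b0_6 {β x y : ℝ} (hβ : 0 < β) (hN : β * 13.333 ≤ 1) (hx1 : 0.8358 ≤ x) (hx2 : x ≤ 1.0551)
    (hy1 : -0.389 ≤ y) (hy2 : y ≤ -0.25) : ‖HH β (x + y * I) - 1‖ ≤ 0.25 := by
  refine le_epsJ (C := 1.5941) (N0 := 13.333) (J_boxp 0.8358 1.0551 0.389 0 (-0.25) 1.0223 1.1246 1.2946 1.1008 0.454 3.6515 13.333 1.1001 4.948 1.66 0.6552 0.5111 0.3237 0.6803 2.2544 0.5484 1.6572 2.1848 3.3266 0.0011 0.01337 0.0001151 0.0000003101 0.0006682 0.0000003101 0.0000003101 0.0000003101 1.5941
    hβ hN hx1 hx2 hy1 hy2 (by norm_num) (by norm_num) (by linarith) (by norm_num) (by norm_num) (by norm_num) (by norm_num) (by norm_num) (by norm_num) (by norm_num) (by norm_num) (by norm_num) (by norm_num) (by norm_num) (by norm_num) (by norm_num) (by norm_num) (by norm_num) (by norm_num) (by norm_num) (by norm_num) (by norm_num) (by norm_num) (by norm_num)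
    (cube_sqrt_geJ (s := 0.7958) (by norm_num) (by norm_num) (by norm_num) (by norm_num))
    (cube_sqrt_geJ (s := 0.9302) (by norm_num) (by norm_num) (by norm_num) (by norm_num))
    (by norm_num) (by norm_num) (by norm_num) (by norm_num) (by norm_num) (by norm_num) (by norm_num) (by norm_num) (by norm_num) (by norm_num) (by norm_num) (by norm_num) (by norm_num) (by norm_num) (by norm_num) (by norm_num) (by norm_num) (by norm_num)
    (exp_neg_leJ (r := 0.814) 6 (by norm_num) (by norm_num) (by norm_num) (by norm_num))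
    (exp_neg_leJ (r := 0.315) 4 (by norm_num) (by norm_num) (by norm_num) (by norm_num))
    (exp_neg_leJ (r := 0.07) 9 (by norm_num) (by norm_num) (by norm_num) (by norm_num))
    (exp_neg_leJ (r := 0.99) 14 (by norm_num) (by norm_num) (by norm_num) (by norm_num))
    (exp_neg_leJ (r := 0.311) 7 (by norm_num) (by norm_num) (by norm_num) (by norm_num))
    (exp_neg_leJ (r := 0.99) 14 (by norm_num) (by norm_num) (by norm_num) (by norm_num))
    (exp_neg_leJ (r := 0.99) 14 (by norm_num) (by norm_num) (by norm_num) (by norm_num))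
    (exp_neg_leJ (r := 0.99) 14 (by norm_num) (by norm_num) (by norm_num) (by norm_num))
    (by norm_num)) (by norm_num) hN hβ.le (by norm_num)

private theorem dl8_c0 {κ t β : ℝ} (h : DomR κ t) (hβ : 0 < β) (hk1 : 0.7 ≤ κ) (hk2 : κ ≤ 0.75)
    (ht1 : -0.8012 ≤ t + κ) (ht2 : t + κ ≤ -0.534) (hR0 : β * 10 ≤ κ) (hR : β * (3.3 * (1 + κ ^ 2)) ≤ κ) :
    ∀ s : ℂ, ‖s - sg κ t‖ ≤ 0.06 → ‖HH β s - 1‖ ≤ 0.25 := by
  have hN : β * 13.333 ≤ 1 := bNR hβ h.1 hk2 hR0 (by norm_num)
  have hy1 : -0.514 ≤ sy κ t := syL_ge h 0.7 0.75 0.8012 0.514 0.59809 0.5981 0.4196 0.40989 0.43918 hk1 hk2 (by linarith) (by norm_num) (by norm_num) (by norm_num)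
    (expm_ge (by norm_num) (by norm_num) (by norm_num) (by norm_num)) (expm_le (by norm_num) (by norm_num) (by norm_num)) (by norm_num)
    (by norm_num) (by norm_num) (by norm_num) (by norm_num) (by norm_num) (by norm_num)
  have hy2 : sy κ t ≤ -0.31 := syL_le h 0.7 0.75 0.534 0.31 0.73344 0.73345 0.30315 0.32482 hk1 hk2 (by linarith) (by norm_num) (by norm_num) (by norm_num)
    (expm_ge (by norm_num) (by norm_num) (by norm_num) (by norm_num)) (expm_le (by norm_num) (by norm_num) (by norm_num)) (by norm_num)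
    (by norm_num) (by norm_num) (by norm_num) (by norm_num) (by norm_num) (by norm_num)
  intro s hs
  have hs' : ‖s - ((sx κ t : ℂ) + (sy κ t : ℂ) * I)‖ ≤ 0.06 := hs
  obtain ⟨es, ⟨s1, s2⟩, ⟨s3, s4⟩⟩ := disc_split hs'
  rcases le_total (sy κ t) (-0.509) with f0 | g0
  · have hx1 : 1.0449 ≤ sx κ t := sx_lo h 0.7 (-0.509) 0.514 1.66362 1.0449 hk1 (by norm_num) f0 (abs_le.2 ⟨by linarith, by linarith⟩) (by rw [neg_neg]; exact expn_ge (by norm_num) (by norm_num)) (by norm_num) (by norm_num)
    have hx2 : sx κ t ≤ 1.1461 := sx_hi h 0.75 (-0.514) 0.509 1.67197 1.1461 hk2 hy1 (by norm_num) (by rw [abs_of_nonpos (by linarith)]; linarith) (by rw [neg_neg]; exact expn_le (by norm_num) (by norm_num) (by norm_num)) (by norm_num) (by norm_num)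
    rw [es]
    exact dl8_b0_0 hβ hN (by linarith) (by linarith) (by linarith) (by linarith)
  rcases le_total (sy κ t) (-0.499) with f1 | g1
  · have hx1 : 1.0345 ≤ sx κ t := sx_lo h 0.7 (-0.499) 0.509 1.64707 1.0345 hk1 (by norm_num) f1 (abs_le.2 ⟨by linarith, by linarith⟩) (by rw [neg_neg]; exact expn_ge (by norm_num) (by norm_num)) (by norm_num) (by norm_num)
    have hx2 : sx κ t ≤ 1.1436 := sx_hi h 0.75 (-0.509) 0.499 1.66363 1.1436 hk2 g0 (by norm_num) (by rw [abs_of_nonpos (by linarith)]; linarith) (by rw [neg_neg]; exact expn_le (by norm_num) (by norm_num) (by norm_num)) (by norm_num) (by norm_num)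
    rw [es]
    exact dl8_b0_1 hβ hN (by linarith) (by linarith) (by linarith) (by linarith)
  rcases le_total (sy κ t) (-0.484) with f2 | g2
  · have hx1 : 1.0202 ≤ sx κ t := sx_lo h 0.7 (-0.484) 0.499 1.62255 1.0202 hk1 (by norm_num) f2 (abs_le.2 ⟨by linarith, by linarith⟩) (by rw [neg_neg]; exact expn_ge (by norm_num) (by norm_num)) (by norm_num) (by norm_num)
    have hx2 : sx κ t ≤ 1.1366 := sx_hi h 0.75 (-0.499) 0.484 1.64708 1.1366 hk2 g1 (by norm_num) (by rw [abs_of_nonpos (by linarith)]; linarith) (by rw [neg_neg]; exact expn_le (by norm_num) (by norm_num) (by norm_num)) (by norm_num) (by norm_num)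
    rw [es]
    exact dl8_b0_2 hβ hN (by linarith) (by linarith) (by linarith) (by linarith)
  rcases le_total (sy κ t) (-0.459) with f3 | g3
  · have hx1 : 0.9964 ≤ sx κ t := sx_lo h 0.7 (-0.459) 0.484 1.58248 0.9964 hk1 (by norm_num) f3 (abs_le.2 ⟨by linarith, by linarith⟩) (by rw [neg_neg]; exact expn_ge (by norm_num) (by norm_num)) (by norm_num) (by norm_num)
    have hx2 : sx κ t ≤ 1.1271 := sx_hi h 0.75 (-0.484) 0.459 1.62256 1.1271 hk2 g2 (by norm_num) (by rw [abs_of_nonpos (by linarith)]; linarith) (by rw [neg_neg]; exact expn_le (by norm_num) (by norm_num) (by norm_num)) (by norm_num) (by norm_num)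
    rw [es]
    exact dl8_b0_3 hβ hN (by linarith) (by linarith) (by linarith) (by linarith)
  rcases le_total (sy κ t) (-0.414) with f4 | g4
  · have hx1 : 0.9543 ≤ sx κ t := sx_lo h 0.7 (-0.414) 0.459 1.51285 0.9543 hk1 (by norm_num) f4 (abs_le.2 ⟨by linarith, by linarith⟩) (by rw [neg_neg]; exact expn_ge (by norm_num) (by norm_num)) (by norm_num) (by norm_num)
    have hx2 : sx κ t ≤ 1.1124 := sx_hi h 0.75 (-0.459) 0.414 1.5825 1.1124 hk2 g3 (by norm_num) (by rw [abs_of_nonpos (by linarith)]; linarith) (by rw [neg_neg]; exact expn_le (by norm_num) (by norm_num) (by norm_num)) (by norm_num) (by norm_num)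
    rw [es]
    exact dl8_b0_4 hβ hN (by linarith) (by linarith) (by linarith) (by linarith)
  rcases le_total (sy κ t) (-0.329) with f5 | g5
  · have hx1 : 0.8801 ≤ sx κ t := sx_lo h 0.7 (-0.329) 0.414 1.38957 0.8801 hk1 (by norm_num) f5 (abs_le.2 ⟨by linarith, by linarith⟩) (by rw [neg_neg]; exact expn_ge (by norm_num) (by norm_num)) (by norm_num) (by norm_num)
    have hx2 : sx κ t ≤ 1.0859 := sx_hi h 0.75 (-0.414) 0.329 1.51286 1.0859 hk2 g4 (by norm_num) (by rw [abs_of_nonpos (by linarith)]; linarith) (by rw [neg_neg]; exact expn_le (by norm_num) (by norm_num) (by norm_num)) (by norm_num) (by norm_num)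
    rw [es]
    exact dl8_b0_5 hβ hN (by linarith) (by linarith) (by linarith) (by linarith)
  have hx1 : 0.8958 ≤ sx κ t := sx_lo h 0.7 (-0.31) 0.329 1.36342 0.8958 hk1 (by norm_num) hy2 (abs_le.2 ⟨by linarith, by linarith⟩) (by rw [neg_neg]; exact expn_ge (by norm_num) (by norm_num)) (by norm_num) (by norm_num)
  have hx2 : sx κ t ≤ 0.9951 := sx_hi h 0.75 (-0.329) 0.31 1.38958 0.9951 hk2 g5 (by norm_num) (by rw [abs_of_nonpos (by linarith)]; linarith) (by rw [neg_neg]; exact expn_le (by norm_num) (by norm_num) (by norm_num)) (by norm_num) (by norm_num)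
  rw [es]
  exact dl8_b0_6 hβ hN (by linarith) (by linarith) (by linarith) (by linarith)

theorem dl8 {κ t β : ℝ} (h : DomR κ t) (hβ : 0 < β) (hk1 : 0.7 ≤ κ) (hk2 : κ ≤ 0.75)
    (ht1 : -0.8012 ≤ t + κ) (ht2 : t + κ ≤ -0.534) (hR0 : β * 10 ≤ κ) (hR : β * (3.3 * (1 + κ ^ 2)) ≤ κ) :
    ∀ s : ℂ, ‖s - sg κ t‖ ≤ 0.06 → ‖HH β s - 1‖ ≤ 0.25 := by
  exact dl8_c0 h hβ hk1 hk2 ht1 ht2 hR0 hR

private theorem dl9_b0_0 {β x y : ℝ} (hβ : 0 < β) (hN : β * 12.499 ≤ 1) (hx1 : 1.0628 ≤ x) (hx2 : x ≤ 1.2908)
    (hy1 : -0.566 ≤ y) (hy2 : y ≤ -0.436) : ‖HH β (x + y * I) - 1‖ ≤ 0.25 := by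
  refine le_epsJ (C := 3.039) (N0 := 12.499) (J_boxp 1.0628 1.2908 0.566 0 (-0.436) 1.0565 1.4095 1.4087 1.093 0.4735 3.5354 12.499 1.3342 7.84 1.868 0.4011 0.5282 0.2933 0.4786 1.5493 0.562 1.9715 2.1577 3.0062 0.00136 0.02563 0.002533 0.0000003101 0.0008903 0.0000003101 0.0000003101 0.0000003101 3.039
    hβ hN hx1 hx2 hy1 hy2 (by norm_num) (by norm_num) (by linarith) (by norm_num) (by norm_num) (by norm_num) (by norm_num) (by norm_num) (by norm_num) (by norm_num) (by norm_num) (by norm_num) (by norm_num) (by norm_num) (by norm_num) (by norm_num) (by norm_num) (by norm_num) (by norm_num) (by norm_num) (by norm_num) (by norm_num) (by norm_num) (by norm_num)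
    (cube_sqrt_geJ (s := 0.7451) (by norm_num) (by norm_num) (by norm_num) (by norm_num))
    (cube_sqrt_geJ (s := 0.9146) (by norm_num) (by norm_num) (by norm_num) (by norm_num))
    (by norm_num) (by norm_num) (by norm_num) (by norm_num) (by norm_num) (by norm_num) (by norm_num) (by norm_num) (by norm_num) (by norm_num) (by norm_num) (by norm_num) (by norm_num) (by norm_num) (by norm_num) (by norm_num) (by norm_num) (by norm_num)
    (exp_neg_leJ (r := 0.601) 6 (by norm_num) (by norm_num) (by norm_num) (by norm_num))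
    (exp_neg_leJ (r := 0.665) 3 (by norm_num) (by norm_num) (by norm_num) (by norm_num))
    (exp_neg_leJ (r := 0.982) 5 (by norm_num) (by norm_num) (by norm_num) (by norm_num))
    (exp_neg_leJ (r := 0.99) 14 (by norm_num) (by norm_num) (by norm_num) (by norm_num))
    (exp_neg_leJ (r := 0.024) 7 (by norm_num) (by norm_num) (by norm_num) (by norm_num))
    (exp_neg_leJ (r := 0.99) 14 (by norm_num) (by norm_num) (by norm_num) (by norm_num))
    (exp_neg_leJ (r := 0.99) 14 (by norm_num) (by norm_num) (by norm_num) (by norm_num))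
    (exp_neg_leJ (r := 0.99) 14 (by norm_num) (by norm_num) (by norm_num) (by norm_num))
    (by norm_num)) (by norm_num) hN hβ.le (by norm_num)

private theorem dl9_b0_1 {β x y : ℝ} (hβ : 0 < β) (hN : β * 12.499 ≤ 1) (hx1 : 1.0406 ≤ x) (hx2 : x ≤ 1.2845)
    (hy1 : -0.556 ≤ y) (hy2 : y ≤ -0.416) : ‖HH β (x + y * I) - 1‖ ≤ 0.25 := by
  refine le_epsJ (C := 3.0984) (N0 := 12.499) (J_boxp 1.0406 1.2845 0.556 0 (-0.416) 1.0479 1.3997 1.4111 1.1074 0.474 3.5354 12.499 1.3358 7.866 1.869 0.4128 0.5239 0.2906 0.4868 1.5853 0.5567 1.9408 2.1405 2.9884 0.001434 0.02648 0.00228 0.0000003101 0.000954 0.0000003101 0.0000003101 0.0000003101 3.0984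
    hβ hN hx1 hx2 hy1 hy2 (by norm_num) (by norm_num) (by linarith) (by norm_num) (by norm_num) (by norm_num) (by norm_num) (by norm_num) (by norm_num) (by norm_num) (by norm_num) (by norm_num) (by norm_num) (by norm_num) (by norm_num) (by norm_num) (by norm_num) (by norm_num) (by norm_num) (by norm_num) (by norm_num) (by norm_num) (by norm_num) (by norm_num)
    (cube_sqrt_geJ (s := 0.7448) (by norm_num) (by norm_num) (by norm_num) (by norm_num))
    (cube_sqrt_geJ (s := 0.9145) (by norm_num) (by norm_num) (by norm_num) (by norm_num))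
    (by norm_num) (by norm_num) (by norm_num) (by norm_num) (by norm_num) (by norm_num) (by norm_num) (by norm_num) (by norm_num) (by norm_num) (by norm_num) (by norm_num) (by norm_num) (by norm_num) (by norm_num) (by norm_num) (by norm_num) (by norm_num)
    (exp_neg_leJ (r := 0.548) 6 (by norm_num) (by norm_num) (by norm_num) (by norm_num))
    (exp_neg_leJ (r := 0.632) 3 (by norm_num) (by norm_num) (by norm_num) (by norm_num))
    (exp_neg_leJ (r := 0.084) 6 (by norm_num) (by norm_num) (by norm_num) (by norm_num))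
    (exp_neg_leJ (r := 0.99) 14 (by norm_num) (by norm_num) (by norm_num) (by norm_num))
    (exp_neg_leJ (r := 0.958) 6 (by norm_num) (by norm_num) (by norm_num) (by norm_num))
    (exp_neg_leJ (r := 0.99) 14 (by norm_num) (by norm_num) (by norm_num) (by norm_num))
    (exp_neg_leJ (r := 0.99) 14 (by norm_num) (by norm_num) (by norm_num) (by norm_num))
    (exp_neg_leJ (r := 0.99) 14 (by norm_num) (by norm_num) (by norm_num) (by norm_num))
    (by norm_num)) (by norm_num) hN hβ.le (by norm_num)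

private theorem dl9_b0_2 {β x y : ℝ} (hβ : 0 < β) (hN : β * 12.499 ≤ 1) (hx1 : 1.004 ≤ x) (hx2 : x ≤ 1.2699)
    (hy1 : -0.536 ≤ y) (hy2 : y ≤ -0.381) : ‖HH β (x + y * I) - 1‖ ≤ 0.25 := by
  refine le_epsJ (C := 3.1102) (N0 := 12.499) (J_boxp 1.004 1.2699 0.536 0 (-0.381) 1.0364 1.3784 1.4128 1.1266 0.4742 3.5354 12.499 1.33 7.77 1.863 0.4369 0.5181 0.2884 0.5059 1.6583 0.5498 1.8901 2.1216 2.9731 0.001542 0.02723 0.001795 0.0000003101 0.00104 0.0000003101 0.0000003101 0.0000003101 3.1102
    hβ hN hx1 hx2 hy1 hy2 (by norm_num) (by norm_num) (by linarith) (by norm_num) (by norm_num) (by norm_num) (by norm_num) (by norm_num) (by norm_num) (by norm_num) (by norm_num) (by norm_num) (by norm_num) (by norm_num) (by norm_num) (by norm_num) (by norm_num) (by norm_num) (by norm_num) (by norm_num) (by norm_num) (by norm_num) (by norm_num) (by norm_num)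
    (cube_sqrt_geJ (s := 0.7461) (by norm_num) (by norm_num) (by norm_num) (by norm_num))
    (cube_sqrt_geJ (s := 0.9149) (by norm_num) (by norm_num) (by norm_num) (by norm_num))
    (by norm_num) (by norm_num) (by norm_num) (by norm_num) (by norm_num) (by norm_num) (by norm_num) (by norm_num) (by norm_num) (by norm_num) (by norm_num) (by norm_num) (by norm_num) (by norm_num) (by norm_num) (by norm_num) (by norm_num) (by norm_num)
    (exp_neg_leJ (r := 0.475) 6 (by norm_num) (by norm_num) (by norm_num) (by norm_num))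
    (exp_neg_leJ (r := 0.604) 3 (by norm_num) (by norm_num) (by norm_num) (by norm_num))
    (exp_neg_leJ (r := 0.323) 6 (by norm_num) (by norm_num) (by norm_num) (by norm_num))
    (exp_neg_leJ (r := 0.99) 14 (by norm_num) (by norm_num) (by norm_num) (by norm_num))
    (exp_neg_leJ (r := 0.871) 6 (by norm_num) (by norm_num) (by norm_num) (by norm_num))
    (exp_neg_leJ (r := 0.99) 14 (by norm_num) (by norm_num) (by norm_num) (by norm_num))
    (exp_neg_leJ (r := 0.99) 14 (by norm_num) (by norm_num) (by norm_num) (by norm_num))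
    (exp_neg_leJ (r := 0.99) 14 (by norm_num) (by norm_num) (by norm_num) (by norm_num))
    (by norm_num)) (by norm_num) hN hβ.le (by norm_num)

private theorem dl9_b0_3 {β x y : ℝ} (hβ : 0 < β) (hN : β * 12.499 ≤ 1) (hx1 : 0.9453 ≤ x) (hx2 : x ≤ 1.2437)
    (hy1 : -0.501 ≤ y) (hy2 : y ≤ -0.321) : ‖HH β (x + y * I) - 1‖ ≤ 0.25 := by
  refine le_epsJ (C := 3.0738) (N0 := 12.499) (J_boxp 0.9453 1.2437 0.501 0 (-0.321) 1.0199 1.3409 1.417 1.1558 0.4749 3.5354 12.499 1.3148 7.529 1.849 0.4793 0.5099 0.2864 0.541 1.7863 0.5404 1.8088 2.0994 2.9577 0.001708 0.02792 0.00116 0.0000003101 0.001168 0.0000003101 0.0000003101 0.0000003101 3.0738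
    hβ hN hx1 hx2 hy1 hy2 (by norm_num) (by norm_num) (by linarith) (by norm_num) (by norm_num) (by norm_num) (by norm_num) (by norm_num) (by norm_num) (by norm_num) (by norm_num) (by norm_num) (by norm_num) (by norm_num) (by norm_num) (by norm_num) (by norm_num) (by norm_num) (by norm_num) (by norm_num) (by norm_num) (by norm_num) (by norm_num) (by norm_num)
    (cube_sqrt_geJ (s := 0.7494) (by norm_num) (by norm_num) (by norm_num) (by norm_num))
    (cube_sqrt_geJ (s := 0.9159) (by norm_num) (by norm_num) (by norm_num) (by norm_num))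
    (by norm_num) (by norm_num) (by norm_num) (by norm_num) (by norm_num) (by norm_num) (by norm_num) (by norm_num) (by norm_num) (by norm_num) (by norm_num) (by norm_num) (by norm_num) (by norm_num) (by norm_num) (by norm_num) (by norm_num) (by norm_num)
    (exp_neg_leJ (r := 0.373) 6 (by norm_num) (by norm_num) (by norm_num) (by norm_num))
    (exp_neg_leJ (r := 0.579) 3 (by norm_num) (by norm_num) (by norm_num) (by norm_num))
    (exp_neg_leJ (r := 0.761) 6 (by norm_num) (by norm_num) (by norm_num) (by norm_num))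
    (exp_neg_leJ (r := 0.99) 14 (by norm_num) (by norm_num) (by norm_num) (by norm_num))
    (exp_neg_leJ (r := 0.754) 6 (by norm_num) (by norm_num) (by norm_num) (by norm_num))
    (exp_neg_leJ (r := 0.99) 14 (by norm_num) (by norm_num) (by norm_num) (by norm_num))
    (exp_neg_leJ (r := 0.99) 14 (by norm_num) (by norm_num) (by norm_num) (by norm_num))
    (exp_neg_leJ (r := 0.99) 14 (by norm_num) (by norm_num) (by norm_num) (by norm_num))
    (by norm_num)) (by norm_num) hN hβ.le (by norm_num)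

private theorem dl9_b0_4 {β x y : ℝ} (hβ : 0 < β) (hN : β * 12.499 ≤ 1) (hx1 : 0.8878 ≤ x) (hx2 : x ≤ 1.1895)
    (hy1 : -0.441 ≤ y) (hy2 : y ≤ -0.249) : ‖HH β (x + y * I) - 1‖ ≤ 0.25 := by
  refine le_epsJ (C := 2.4974) (N0 := 12.499) (J_boxp 0.8878 1.1895 0.441 0 (-0.249) 1.022 1.2687 1.4068 1.148 0.4732 3.5354 12.499 1.2414 6.485 1.781 0.5555 0.5109 0.2995 0.616 2.0108 0.5453 1.7292 2.1475 3.0389 0.001687 0.02371 0.0004537 0.0000003101 0.001099 0.0000003101 0.0000003101 0.0000003101 2.4974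
    hβ hN hx1 hx2 hy1 hy2 (by norm_num) (by norm_num) (by linarith) (by norm_num) (by norm_num) (by norm_num) (by norm_num) (by norm_num) (by norm_num) (by norm_num) (by norm_num) (by norm_num) (by norm_num) (by norm_num) (by norm_num) (by norm_num) (by norm_num) (by norm_num) (by norm_num) (by norm_num) (by norm_num) (by norm_num) (by norm_num) (by norm_num)
    (cube_sqrt_geJ (s := 0.7656) (by norm_num) (by norm_num) (by norm_num) (by norm_num))
    (cube_sqrt_geJ (s := 0.9208) (by norm_num) (by norm_num) (by norm_num) (by norm_num))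
    (by norm_num) (by norm_num) (by norm_num) (by norm_num) (by norm_num) (by norm_num) (by norm_num) (by norm_num) (by norm_num) (by norm_num) (by norm_num) (by norm_num) (by norm_num) (by norm_num) (by norm_num) (by norm_num) (by norm_num) (by norm_num)
    (exp_neg_leJ (r := 0.385) 6 (by norm_num) (by norm_num) (by norm_num) (by norm_num))
    (exp_neg_leJ (r := 0.743) 3 (by norm_num) (by norm_num) (by norm_num) (by norm_num))
    (exp_neg_leJ (r := 0.699) 7 (by norm_num) (by norm_num) (by norm_num) (by norm_num))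
    (exp_neg_leJ (r := 0.99) 14 (by norm_num) (by norm_num) (by norm_num) (by norm_num))
    (exp_neg_leJ (r := 0.815) 6 (by norm_num) (by norm_num) (by norm_num) (by norm_num))
    (exp_neg_leJ (r := 0.99) 14 (by norm_num) (by norm_num) (by norm_num) (by norm_num))
    (exp_neg_leJ (r := 0.99) 14 (by norm_num) (by norm_num) (by norm_num) (by norm_num))
    (exp_neg_leJ (r := 0.99) 14 (by norm_num) (by norm_num) (by norm_num) (by norm_num))
    (by norm_num)) (by norm_num) hN hβ.le (by norm_num)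

private theorem dl9_c0 {κ t β : ℝ} (h : DomR κ t) (hβ : 0 < β) (hk1 : 0.75 ≤ κ) (hk2 : κ ≤ 0.8)
    (ht1 : -0.8012 ≤ t + κ) (ht2 : t + κ ≤ -0.534) (hR0 : β * 10 ≤ κ) (hR : β * (3.3 * (1 + κ ^ 2)) ≤ κ) :
    ∀ s : ℂ, ‖s - sg κ t‖ ≤ 0.06 → ‖HH β s - 1‖ ≤ 0.25 := by
  have hN : β * 12.499 ≤ 1 := bNR hβ h.1 hk2 hR0 (by norm_num)
  have hy1 : -0.506 ≤ sy κ t := syL_ge h 0.75 0.8 0.8012 0.506 0.6029 0.60291 0.3855 0.38133 0.40677 hk1 hk2 (by linarith) (by norm_num) (by norm_num) (by norm_num)
    (expm_ge (by norm_num) (by norm_num) (by norm_num) (by norm_num)) (expm_le (by norm_num) (by norm_num) (by norm_num)) (by norm_num)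
    (by norm_num) (by norm_num) (by norm_num) (by norm_num) (by norm_num) (by norm_num)
  have hy2 : sy κ t ≤ -0.309 := syL_le h 0.75 0.8 0.534 0.309 0.73418 0.73419 0.28357 0.30249 hk1 hk2 (by linarith) (by norm_num) (by norm_num) (by norm_num)
    (expm_ge (by norm_num) (by norm_num) (by norm_num) (by norm_num)) (expm_le (by norm_num) (by norm_num) (by norm_num)) (by norm_num)
    (by norm_num) (by norm_num) (by norm_num) (by norm_num) (by norm_num) (by norm_num)
  intro s hs
  have hs' : ‖s - ((sx κ t : ℂ) + (sy κ t : ℂ) * I)‖ ≤ 0.06 := hs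
  obtain ⟨es, ⟨s1, s2⟩, ⟨s3, s4⟩⟩ := disc_split hs'
  rcases le_total (sy κ t) (-0.496) with f0 | g0
  · have hx1 : 1.1228 ≤ sx κ t := sx_lo h 0.75 (-0.496) 0.506 1.64213 1.1228 hk1 (by norm_num) f0 (abs_le.2 ⟨by linarith, by linarith⟩) (by rw [neg_neg]; exact expn_ge (by norm_num) (by norm_num)) (by norm_num) (by norm_num)
    have hx2 : sx κ t ≤ 1.2308 := sx_hi h 0.8 (-0.506) 0.496 1.65865 1.2308 hk2 hy1 (by norm_num) (by rw [abs_of_nonpos (by linarith)]; linarith) (by rw [neg_neg]; exact expn_le (by norm_num) (by norm_num) (by norm_num)) (by norm_num) (by norm_num)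
    rw [es]
    exact dl9_b0_0 hβ hN (by linarith) (by linarith) (by linarith) (by linarith)
  rcases le_total (sy κ t) (-0.476) with f1 | g1
  · have hx1 : 1.1006 ≤ sx κ t := sx_lo h 0.75 (-0.476) 0.496 1.60962 1.1006 hk1 (by norm_num) f1 (abs_le.2 ⟨by linarith, by linarith⟩) (by rw [neg_neg]; exact expn_ge (by norm_num) (by norm_num)) (by norm_num) (by norm_num)
    have hx2 : sx κ t ≤ 1.2245 := sx_hi h 0.8 (-0.496) 0.476 1.64214 1.2245 hk2 g0 (by norm_num) (by rw [abs_of_nonpos (by linarith)]; linarith) (by rw [neg_neg]; exact expn_le (by norm_num) (by norm_num) (by norm_num)) (by norm_num) (by norm_num)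
    rw [es]
    exact dl9_b0_1 hβ hN (by linarith) (by linarith) (by linarith) (by linarith)
  rcases le_total (sy κ t) (-0.441) with f2 | g2
  · have hx1 : 1.064 ≤ sx κ t := sx_lo h 0.75 (-0.441) 0.476 1.55426 1.064 hk1 (by norm_num) f2 (abs_le.2 ⟨by linarith, by linarith⟩) (by rw [neg_neg]; exact expn_ge (by norm_num) (by norm_num)) (by norm_num) (by norm_num)
    have hx2 : sx κ t ≤ 1.2099 := sx_hi h 0.8 (-0.476) 0.441 1.60963 1.2099 hk2 g1 (by norm_num) (by rw [abs_of_nonpos (by linarith)]; linarith) (by rw [neg_neg]; exact expn_le (by norm_num) (by norm_num) (by norm_num)) (by norm_num) (by norm_num)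
    rw [es]
    exact dl9_b0_2 hβ hN (by linarith) (by linarith) (by linarith) (by linarith)
  rcases le_total (sy κ t) (-0.381) with f3 | g3
  · have hx1 : 1.0053 ≤ sx κ t := sx_lo h 0.75 (-0.381) 0.441 1.46374 1.0053 hk1 (by norm_num) f3 (abs_le.2 ⟨by linarith, by linarith⟩) (by rw [neg_neg]; exact expn_ge (by norm_num) (by norm_num)) (by norm_num) (by norm_num)
    have hx2 : sx κ t ≤ 1.1837 := sx_hi h 0.8 (-0.441) 0.381 1.55427 1.1837 hk2 g2 (by norm_num) (by rw [abs_of_nonpos (by linarith)]; linarith) (by rw [neg_neg]; exact expn_le (by norm_num) (by norm_num) (by norm_num)) (by norm_num) (by norm_num)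
    rw [es]
    exact dl9_b0_3 hβ hN (by linarith) (by linarith) (by linarith) (by linarith)
  have hx1 : 0.9478 ≤ sx κ t := sx_lo h 0.75 (-0.309) 0.381 1.36206 0.9478 hk1 (by norm_num) hy2 (abs_le.2 ⟨by linarith, by linarith⟩) (by rw [neg_neg]; exact expn_ge (by norm_num) (by norm_num)) (by norm_num) (by norm_num)
  have hx2 : sx κ t ≤ 1.1295 := sx_hi h 0.8 (-0.381) 0.309 1.46375 1.1295 hk2 g3 (by norm_num) (by rw [abs_of_nonpos (by linarith)]; linarith) (by rw [neg_neg]; exact expn_le (by norm_num) (by norm_num) (by norm_num)) (by norm_num) (by norm_num)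
  rw [es]
  exact dl9_b0_4 hβ hN (by linarith) (by linarith) (by linarith) (by linarith)

theorem dl9 {κ t β : ℝ} (h : DomR κ t) (hβ : 0 < β) (hk1 : 0.75 ≤ κ) (hk2 : κ ≤ 0.8)
    (ht1 : -0.8012 ≤ t + κ) (ht2 : t + κ ≤ -0.534) (hR0 : β * 10 ≤ κ) (hR : β * (3.3 * (1 + κ ^ 2)) ≤ κ) :
    ∀ s : ℂ, ‖s - sg κ t‖ ≤ 0.06 → ‖HH β s - 1‖ ≤ 0.25 := by
  exact dl9_c0 h hβ hk1 hk2 ht1 ht2 hR0 hR

private theorem dl10_b0_0 {β x y : ℝ} (hβ : 0 < β) (hN : β * 11.764 ≤ 1) (hx1 : 1.1543 ≤ x) (hx2 : x ≤ 1.382)
    (hy1 : -0.568 ≤ y) (hy2 : y ≤ -0.438) : ‖HH β (x + y * I) - 1‖ ≤ 0.25 := by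
  refine le_epsJ (C := 2.8749) (N0 := 11.764) (J_boxp 1.1543 1.382 0.568 0 (-0.438) 1.1195 1.4942 1.492 1.0313 0.4873 3.4299 11.764 1.3348 7.849 1.868 0.3642 0.5597 0.3106 0.5068 1.492 0.6053 2.0982 2.3353 2.959 0.001383 0.02593 0.002586 0.0000003101 0.0008088 0.0000003101 0.0000003101 0.0000003101 2.8749
    hβ hN hx1 hx2 hy1 hy2 (by norm_num) (by norm_num) (by linarith) (by norm_num) (by norm_num) (by norm_num) (by norm_num) (by norm_num) (by norm_num) (by norm_num) (by norm_num) (by norm_num) (by norm_num) (by norm_num) (by norm_num) (by norm_num) (by norm_num) (by norm_num) (by norm_num) (by norm_num) (by norm_num) (by norm_num) (by norm_num) (by norm_num)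
    (cube_sqrt_geJ (s := 0.745) (by norm_num) (by norm_num) (by norm_num) (by norm_num))
    (cube_sqrt_geJ (s := 0.9146) (by norm_num) (by norm_num) (by norm_num) (by norm_num))
    (by norm_num) (by norm_num) (by norm_num) (by norm_num) (by norm_num) (by norm_num) (by norm_num) (by norm_num) (by norm_num) (by norm_num) (by norm_num) (by norm_num) (by norm_num) (by norm_num) (by norm_num) (by norm_num) (by norm_num) (by norm_num)
    (exp_neg_leJ (r := 0.584) 6 (by norm_num) (by norm_num) (by norm_num) (by norm_num))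
    (exp_neg_leJ (r := 0.653) 3 (by norm_num) (by norm_num) (by norm_num) (by norm_num))
    (exp_neg_leJ (r := 0.961) 5 (by norm_num) (by norm_num) (by norm_num) (by norm_num))
    (exp_neg_leJ (r := 0.99) 14 (by norm_num) (by norm_num) (by norm_num) (by norm_num))
    (exp_neg_leJ (r := 0.12) 7 (by norm_num) (by norm_num) (by norm_num) (by norm_num))
    (exp_neg_leJ (r := 0.99) 14 (by norm_num) (by norm_num) (by norm_num) (by norm_num))
    (exp_neg_leJ (r := 0.99) 14 (by norm_num) (by norm_num) (by norm_num) (by norm_num))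
    (exp_neg_leJ (r := 0.99) 14 (by norm_num) (by norm_num) (by norm_num) (by norm_num))
    (by norm_num)) (by norm_num) hN hβ.le (by norm_num)

private theorem dl10_b0_1 {β x y : ℝ} (hβ : 0 < β) (hN : β * 11.764 ≤ 1) (hx1 : 1.1302 ≤ x) (hx2 : x ≤ 1.3744)
    (hy1 : -0.558 ≤ y) (hy2 : y ≤ -0.418) : ‖HH β (x + y * I) - 1‖ ≤ 0.25 := by
  refine le_epsJ (C := 2.9369) (N0 := 11.764) (J_boxp 1.1302 1.3744 0.558 0 (-0.418) 1.1096 1.4834 1.4926 1.0453 0.4874 3.4299 11.764 1.3369 7.884 1.87 0.3764 0.5547 0.3075 0.5143 1.5287 0.5991 2.0648 2.3142 2.9401 0.001467 0.02688 0.002358 0.0000003101 0.0008701 0.0000003101 0.0000003101 0.0000003101 2.9369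
    hβ hN hx1 hx2 hy1 hy2 (by norm_num) (by norm_num) (by linarith) (by norm_num) (by norm_num) (by norm_num) (by norm_num) (by norm_num) (by norm_num) (by norm_num) (by norm_num) (by norm_num) (by norm_num) (by norm_num) (by norm_num) (by norm_num) (by norm_num) (by norm_num) (by norm_num) (by norm_num) (by norm_num) (by norm_num) (by norm_num) (by norm_num)
    (cube_sqrt_geJ (s := 0.7445) (by norm_num) (by norm_num) (by norm_num) (by norm_num))
    (cube_sqrt_geJ (s := 0.9144) (by norm_num) (by norm_num) (by norm_num) (by norm_num))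
    (by norm_num) (by norm_num) (by norm_num) (by norm_num) (by norm_num) (by norm_num) (by norm_num) (by norm_num) (by norm_num) (by norm_num) (by norm_num) (by norm_num) (by norm_num) (by norm_num) (by norm_num) (by norm_num) (by norm_num) (by norm_num)
    (exp_neg_leJ (r := 0.525) 6 (by norm_num) (by norm_num) (by norm_num) (by norm_num))
    (exp_neg_leJ (r := 0.617) 3 (by norm_num) (by norm_num) (by norm_num) (by norm_num))
    (exp_neg_leJ (r := 0.05) 6 (by norm_num) (by norm_num) (by norm_num) (by norm_num))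
    (exp_neg_leJ (r := 0.99) 14 (by norm_num) (by norm_num) (by norm_num) (by norm_num))
    (exp_neg_leJ (r := 0.047) 7 (by norm_num) (by norm_num) (by norm_num) (by norm_num))
    (exp_neg_leJ (r := 0.99) 14 (by norm_num) (by norm_num) (by norm_num) (by norm_num))
    (exp_neg_leJ (r := 0.99) 14 (by norm_num) (by norm_num) (by norm_num) (by norm_num))
    (exp_neg_leJ (r := 0.99) 14 (by norm_num) (by norm_num) (by norm_num) (by norm_num))
    (by norm_num)) (by norm_num) hN hβ.le (by norm_num)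

private theorem dl10_b0_2 {β x y : ℝ} (hβ : 0 < β) (hN : β * 11.764 ≤ 1) (hx1 : 1.0973 ≤ x) (hx2 : x ≤ 1.3557)
    (hy1 : -0.538 ≤ y) (hy2 : y ≤ -0.388) : ‖HH β (x + y * I) - 1‖ ≤ 0.25 := by
  refine le_epsJ (C := 2.8784) (N0 := 11.764) (J_boxp 1.0973 1.3557 0.538 0 (-0.388) 1.1007 1.4586 1.4875 1.0562 0.4866 3.4299 11.764 1.3252 7.694 1.859 0.402 0.5503 0.3072 0.5346 1.6039 0.594 2.0193 2.3028 2.9417 0.001545 0.02699 0.001857 0.0000003101 0.0009271 0.0000003101 0.0000003101 0.0000003101 2.8784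
    hβ hN hx1 hx2 hy1 hy2 (by norm_num) (by norm_num) (by linarith) (by norm_num) (by norm_num) (by norm_num) (by norm_num) (by norm_num) (by norm_num) (by norm_num) (by norm_num) (by norm_num) (by norm_num) (by norm_num) (by norm_num) (by norm_num) (by norm_num) (by norm_num) (by norm_num) (by norm_num) (by norm_num) (by norm_num) (by norm_num) (by norm_num)
    (cube_sqrt_geJ (s := 0.7471) (by norm_num) (by norm_num) (by norm_num) (by norm_num))
    (cube_sqrt_geJ (s := 0.9152) (by norm_num) (by norm_num) (by norm_num) (by norm_num))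
    (by norm_num) (by norm_num) (by norm_num) (by norm_num) (by norm_num) (by norm_num) (by norm_num) (by norm_num) (by norm_num) (by norm_num) (by norm_num) (by norm_num) (by norm_num) (by norm_num) (by norm_num) (by norm_num) (by norm_num) (by norm_num)
    (exp_neg_leJ (r := 0.473) 6 (by norm_num) (by norm_num) (by norm_num) (by norm_num))
    (exp_neg_leJ (r := 0.613) 3 (by norm_num) (by norm_num) (by norm_num) (by norm_num))
    (exp_neg_leJ (r := 0.289) 6 (by norm_num) (by norm_num) (by norm_num) (by norm_num))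
    (exp_neg_leJ (r := 0.99) 14 (by norm_num) (by norm_num) (by norm_num) (by norm_num))
    (exp_neg_leJ (r := 0.987) 6 (by norm_num) (by norm_num) (by norm_num) (by norm_num))
    (exp_neg_leJ (r := 0.99) 14 (by norm_num) (by norm_num) (by norm_num) (by norm_num))
    (exp_neg_leJ (r := 0.99) 14 (by norm_num) (by norm_num) (by norm_num) (by norm_num))
    (exp_neg_leJ (r := 0.99) 14 (by norm_num) (by norm_num) (by norm_num) (by norm_num))
    (by norm_num)) (by norm_num) hN hβ.le (by norm_num)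

private theorem dl10_b0_3 {β x y : ℝ} (hβ : 0 < β) (hN : β * 11.764 ≤ 1) (hx1 : 1.0371 ≤ x) (hx2 : x ≤ 1.3311)
    (hy1 : -0.508 ≤ y) (hy2 : y ≤ -0.333) : ‖HH β (x + y * I) - 1‖ ≤ 0.25 := by
  refine le_epsJ (C := 2.9357) (N0 := 11.764) (J_boxp 1.0371 1.3311 0.508 0 (-0.333) 1.0796 1.4248 1.4889 1.0878 0.4868 3.4299 11.764 1.3198 7.607 1.854 0.4392 0.5397 0.3023 0.5614 1.7148 0.5812 1.9359 2.264 2.9132 0.001749 0.02857 0.001356 0.0000003101 0.001076 0.0000003101 0.0000003101 0.0000003101 2.9357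
    hβ hN hx1 hx2 hy1 hy2 (by norm_num) (by norm_num) (by linarith) (by norm_num) (by norm_num) (by norm_num) (by norm_num) (by norm_num) (by norm_num) (by norm_num) (by norm_num) (by norm_num) (by norm_num) (by norm_num) (by norm_num) (by norm_num) (by norm_num) (by norm_num) (by norm_num) (by norm_num) (by norm_num) (by norm_num) (by norm_num) (by norm_num)
    (cube_sqrt_geJ (s := 0.7483) (by norm_num) (by norm_num) (by norm_num) (by norm_num))
    (cube_sqrt_geJ (s := 0.9156) (by norm_num) (by norm_num) (by norm_num) (by norm_num))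
    (by norm_num) (by norm_num) (by norm_num) (by norm_num) (by norm_num) (by norm_num) (by norm_num) (by norm_num) (by norm_num) (by norm_num) (by norm_num) (by norm_num) (by norm_num) (by norm_num) (by norm_num) (by norm_num) (by norm_num) (by norm_num)
    (exp_neg_leJ (r := 0.349) 6 (by norm_num) (by norm_num) (by norm_num) (by norm_num))
    (exp_neg_leJ (r := 0.556) 3 (by norm_num) (by norm_num) (by norm_num) (by norm_num))
    (exp_neg_leJ (r := 0.604) 6 (by norm_num) (by norm_num) (by norm_num) (by norm_num))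
    (exp_neg_leJ (r := 0.99) 14 (by norm_num) (by norm_num) (by norm_num) (by norm_num))
    (exp_neg_leJ (r := 0.837) 6 (by norm_num) (by norm_num) (by norm_num) (by norm_num))
    (exp_neg_leJ (r := 0.99) 14 (by norm_num) (by norm_num) (by norm_num) (by norm_num))
    (exp_neg_leJ (r := 0.99) 14 (by norm_num) (by norm_num) (by norm_num) (by norm_num))
    (exp_neg_leJ (r := 0.99) 14 (by norm_num) (by norm_num) (by norm_num) (by norm_num))
    (by norm_num)) (by norm_num) hN hβ.le (by norm_num)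

private theorem dl10_b0_4 {β x y : ℝ} (hβ : 0 < β) (hN : β * 11.764 ≤ 1) (hx1 : 0.9377 ≤ x) (hx2 : x ≤ 1.2847)
    (hy1 : -0.453 ≤ y) (hy2 : y ≤ -0.233) : ‖HH β (x + y * I) - 1‖ ≤ 0.25 := by
  refine le_epsJ (C := 2.9315) (N0 := 11.764) (J_boxp 0.9377 1.2847 0.453 0 (-0.233) 1.0486 1.3623 1.4963 1.1392 0.488 3.4299 11.764 1.2992 7.289 1.834 0.5078 0.5242 0.2972 0.6142 1.9186 0.563 1.7983 2.2147 2.8843 0.0021 0.03033 0.0007282 0.0000003101 0.001331 0.0000003101 0.0000003101 0.0000003101 2.9315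
    hβ hN hx1 hx2 hy1 hy2 (by norm_num) (by norm_num) (by linarith) (by norm_num) (by norm_num) (by norm_num) (by norm_num) (by norm_num) (by norm_num) (by norm_num) (by norm_num) (by norm_num) (by norm_num) (by norm_num) (by norm_num) (by norm_num) (by norm_num) (by norm_num) (by norm_num) (by norm_num) (by norm_num) (by norm_num) (by norm_num) (by norm_num)
    (cube_sqrt_geJ (s := 0.7529) (by norm_num) (by norm_num) (by norm_num) (by norm_num))
    (cube_sqrt_geJ (s := 0.917) (by norm_num) (by norm_num) (by norm_num) (by norm_num))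
    (by norm_num) (by norm_num) (by norm_num) (by norm_num) (by norm_num) (by norm_num) (by norm_num) (by norm_num) (by norm_num) (by norm_num) (by norm_num) (by norm_num) (by norm_num) (by norm_num) (by norm_num) (by norm_num) (by norm_num) (by norm_num)
    (exp_neg_leJ (r := 0.166) 6 (by norm_num) (by norm_num) (by norm_num) (by norm_num))
    (exp_neg_leJ (r := 0.496) 3 (by norm_num) (by norm_num) (by norm_num) (by norm_num))
    (exp_neg_leJ (r := 0.225) 7 (by norm_num) (by norm_num) (by norm_num) (by norm_num))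
    (exp_neg_leJ (r := 0.99) 14 (by norm_num) (by norm_num) (by norm_num) (by norm_num))
    (exp_neg_leJ (r := 0.623) 6 (by norm_num) (by norm_num) (by norm_num) (by norm_num))
    (exp_neg_leJ (r := 0.99) 14 (by norm_num) (by norm_num) (by norm_num) (by norm_num))
    (exp_neg_leJ (r := 0.99) 14 (by norm_num) (by norm_num) (by norm_num) (by norm_num))
    (exp_neg_leJ (r := 0.99) 14 (by norm_num) (by norm_num) (by norm_num) (by norm_num))
    (by norm_num)) (by norm_num) hN hβ.le (by norm_num)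

private theorem dl10_b0_5 {β x y : ℝ} (hβ : 0 < β) (hN : β * 11.764 ≤ 1) (hx1 : 0.9648 ≤ x) (hx2 : x ≤ 1.1627)
    (hy1 : -0.353 ≤ y) (hy2 : y ≤ -0.227) : ‖HH β (x + y * I) - 1‖ ≤ 0.25 := by
  refine le_epsJ (C := 1.2963) (N0 := 11.764) (J_boxp 0.9648 1.1627 0.353 0 (-0.227) 1.1387 1.2152 1.3963 0.9725 0.4715 3.4299 11.764 1.0672 4.66 1.633 0.647 0.5693 0.3668 0.7813 2.3097 0.6308 1.8358 2.5407 3.3384 0.001236 0.01337 0.000102 0.0000003101 0.0005993 0.0000003101 0.0000003101 0.0000003101 1.2963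
    hβ hN hx1 hx2 hy1 hy2 (by norm_num) (by norm_num) (by linarith) (by norm_num) (by norm_num) (by norm_num) (by norm_num) (by norm_num) (by norm_num) (by norm_num) (by norm_num) (by norm_num) (by norm_num) (by norm_num) (by norm_num) (by norm_num) (by norm_num) (by norm_num) (by norm_num) (by norm_num) (by norm_num) (by norm_num) (by norm_num) (by norm_num)
    (cube_sqrt_geJ (s := 0.8026) (by norm_num) (by norm_num) (by norm_num) (by norm_num))
    (cube_sqrt_geJ (s := 0.9323) (by norm_num) (by norm_num) (by norm_num) (by norm_num))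
    (by norm_num) (by norm_num) (by norm_num) (by norm_num) (by norm_num) (by norm_num) (by norm_num) (by norm_num) (by norm_num) (by norm_num) (by norm_num) (by norm_num) (by norm_num) (by norm_num) (by norm_num) (by norm_num) (by norm_num) (by norm_num)
    (exp_neg_leJ (r := 0.697) 6 (by norm_num) (by norm_num) (by norm_num) (by norm_num))
    (exp_neg_leJ (r := 0.315) 4 (by norm_num) (by norm_num) (by norm_num) (by norm_num))
    (exp_neg_leJ (r := 0.191) 9 (by norm_num) (by norm_num) (by norm_num) (by norm_num))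
    (exp_neg_leJ (r := 0.99) 14 (by norm_num) (by norm_num) (by norm_num) (by norm_num))
    (exp_neg_leJ (r := 0.42) 7 (by norm_num) (by norm_num) (by norm_num) (by norm_num))
    (exp_neg_leJ (r := 0.99) 14 (by norm_num) (by norm_num) (by norm_num) (by norm_num))
    (exp_neg_leJ (r := 0.99) 14 (by norm_num) (by norm_num) (by norm_num) (by norm_num))
    (exp_neg_leJ (r := 0.99) 14 (by norm_num) (by norm_num) (by norm_num) (by norm_num))
    (by norm_num)) (by norm_num) hN hβ.le (by norm_num)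

private theorem dl10_c0 {κ t β : ℝ} (h : DomR κ t) (hβ : 0 < β) (hk1 : 0.8 ≤ κ) (hk2 : κ ≤ 0.85)
    (ht1 : -0.8169 ≤ t + κ) (ht2 : t + κ ≤ -0.5026) (hR0 : β * 10 ≤ κ) (hR : β * (3.3 * (1 + κ ^ 2)) ≤ κ) :
    ∀ s : ℂ, ‖s - sg κ t‖ ≤ 0.06 → ‖HH β s - 1‖ ≤ 0.25 := by
  have hN : β * 11.764 ≤ 1 := bNR hβ h.1 hk2 hR0 (by norm_num)
  have hy1 : -0.508 ≤ sy κ t := syL_ge h 0.8 0.85 0.8169 0.508 0.60169 0.6017 0.3577 0.35959 0.38208 hk1 hk2 (by linarith) (by norm_num) (by norm_num) (by norm_num)
    (expm_ge (by norm_num) (by norm_num) (by norm_num) (by norm_num)) (expm_le (by norm_num) (by norm_num) (by norm_num)) (by norm_num)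
    (by norm_num) (by norm_num) (by norm_num) (by norm_num) (by norm_num) (by norm_num)
  have hy2 : sy κ t ≤ -0.287 := syL_le h 0.8 0.85 0.5026 0.287 0.75051 0.75052 0.2534 0.26925 hk1 hk2 (by linarith) (by norm_num) (by norm_num) (by norm_num)
    (expm_ge (by norm_num) (by norm_num) (by norm_num) (by norm_num)) (expm_le (by norm_num) (by norm_num) (by norm_num)) (by norm_num)
    (by norm_num) (by norm_num) (by norm_num) (by norm_num) (by norm_num) (by norm_num)
  intro s hs
  have hs' : ‖s - ((sx κ t : ℂ) + (sy κ t : ℂ) * I)‖ ≤ 0.06 := hs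
  obtain ⟨es, ⟨s1, s2⟩, ⟨s3, s4⟩⟩ := disc_split hs'
  rcases le_total (sy κ t) (-0.498) with f0 | g0
  · have hx1 : 1.2143 ≤ sx κ t := sx_lo h 0.8 (-0.498) 0.508 1.64542 1.2143 hk1 (by norm_num) f0 (abs_le.2 ⟨by linarith, by linarith⟩) (by rw [neg_neg]; exact expn_ge (by norm_num) (by norm_num)) (by norm_num) (by norm_num)
    have hx2 : sx κ t ≤ 1.322 := sx_hi h 0.85 (-0.508) 0.498 1.66197 1.322 hk2 hy1 (by norm_num) (by rw [abs_of_nonpos (by linarith)]; linarith) (by rw [neg_neg]; exact expn_le (by norm_num) (by norm_num) (by norm_num)) (by norm_num) (by norm_num)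
    rw [es]
    exact dl10_b0_0 hβ hN (by linarith) (by linarith) (by linarith) (by linarith)
  rcases le_total (sy κ t) (-0.478) with f1 | g1
  · have hx1 : 1.1902 ≤ sx κ t := sx_lo h 0.8 (-0.478) 0.498 1.61284 1.1902 hk1 (by norm_num) f1 (abs_le.2 ⟨by linarith, by linarith⟩) (by rw [neg_neg]; exact expn_ge (by norm_num) (by norm_num)) (by norm_num) (by norm_num)
    have hx2 : sx κ t ≤ 1.3144 := sx_hi h 0.85 (-0.498) 0.478 1.64543 1.3144 hk2 g0 (by norm_num) (by rw [abs_of_nonpos (by linarith)]; linarith) (by rw [neg_neg]; exact expn_le (by norm_num) (by norm_num) (by norm_num)) (by norm_num) (by norm_num)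
    rw [es]
    exact dl10_b0_1 hβ hN (by linarith) (by linarith) (by linarith) (by linarith)
  rcases le_total (sy κ t) (-0.448) with f2 | g2
  · have hx1 : 1.1573 ≤ sx κ t := sx_lo h 0.8 (-0.448) 0.478 1.56517 1.1573 hk1 (by norm_num) f2 (abs_le.2 ⟨by linarith, by linarith⟩) (by rw [neg_neg]; exact expn_ge (by norm_num) (by norm_num)) (by norm_num) (by norm_num)
    have hx2 : sx κ t ≤ 1.2957 := sx_hi h 0.85 (-0.478) 0.448 1.61285 1.2957 hk2 g1 (by norm_num) (by rw [abs_of_nonpos (by linarith)]; linarith) (by rw [neg_neg]; exact expn_le (by norm_num) (by norm_num) (by norm_num)) (by norm_num) (by norm_num)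
    rw [es]
    exact dl10_b0_2 hβ hN (by linarith) (by linarith) (by linarith) (by linarith)
  rcases le_total (sy κ t) (-0.393) with f3 | g3
  · have hx1 : 1.0971 ≤ sx κ t := sx_lo h 0.8 (-0.393) 0.448 1.48141 1.0971 hk1 (by norm_num) f3 (abs_le.2 ⟨by linarith, by linarith⟩) (by rw [neg_neg]; exact expn_ge (by norm_num) (by norm_num)) (by norm_num) (by norm_num)
    have hx2 : sx κ t ≤ 1.2711 := sx_hi h 0.85 (-0.448) 0.393 1.56518 1.2711 hk2 g2 (by norm_num) (by rw [abs_of_nonpos (by linarith)]; linarith) (by rw [neg_neg]; exact expn_le (by norm_num) (by norm_num) (by norm_num)) (by norm_num) (by norm_num)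
    rw [es]
    exact dl10_b0_3 hβ hN (by linarith) (by linarith) (by linarith) (by linarith)
  rcases le_total (sy κ t) (-0.293) with f4 | g4
  · have hx1 : 0.9977 ≤ sx κ t := sx_lo h 0.8 (-0.293) 0.393 1.34044 0.9977 hk1 (by norm_num) f4 (abs_le.2 ⟨by linarith, by linarith⟩) (by rw [neg_neg]; exact expn_ge (by norm_num) (by norm_num)) (by norm_num) (by norm_num)
    have hx2 : sx κ t ≤ 1.2247 := sx_hi h 0.85 (-0.393) 0.293 1.48142 1.2247 hk2 g3 (by norm_num) (by rw [abs_of_nonpos (by linarith)]; linarith) (by rw [neg_neg]; exact expn_le (by norm_num) (by norm_num) (by norm_num)) (by norm_num) (by norm_num)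
    rw [es]
    exact dl10_b0_4 hβ hN (by linarith) (by linarith) (by linarith) (by linarith)
  have hx1 : 1.0248 ≤ sx κ t := sx_lo h 0.8 (-0.287) 0.293 1.33242 1.0248 hk1 (by norm_num) hy2 (abs_le.2 ⟨by linarith, by linarith⟩) (by rw [neg_neg]; exact expn_ge (by norm_num) (by norm_num)) (by norm_num) (by norm_num)
  have hx2 : sx κ t ≤ 1.1027 := sx_hi h 0.85 (-0.293) 0.287 1.34045 1.1027 hk2 g4 (by norm_num) (by rw [abs_of_nonpos (by linarith)]; linarith) (by rw [neg_neg]; exact expn_le (by norm_num) (by norm_num) (by norm_num)) (by norm_num) (by norm_num)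
  rw [es]
  exact dl10_b0_5 hβ hN (by linarith) (by linarith) (by linarith) (by linarith)

theorem dl10 {κ t β : ℝ} (h : DomR κ t) (hβ : 0 < β) (hk1 : 0.8 ≤ κ) (hk2 : κ ≤ 0.85)
    (ht1 : -0.8169 ≤ t + κ) (ht2 : t + κ ≤ -0.5026) (hR0 : β * 10 ≤ κ) (hR : β * (3.3 * (1 + κ ^ 2)) ≤ κ) :
    ∀ s : ℂ, ‖s - sg κ t‖ ≤ 0.06 → ‖HH β s - 1‖ ≤ 0.25 := by
  exact dl10_c0 h hβ hk1 hk2 ht1 ht2 hR0 hR

private theorem dl11_b0_0 {β x y : ℝ} (hβ : 0 < β) (hN : β * 11.111 ≤ 1) (hx1 : 1.2161 ≤ x) (hx2 : x ≤ 1.4605)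
    (hy1 : -0.557 ≤ y) (hy2 : y ≤ -0.417) : ‖HH β (x + y * I) - 1‖ ≤ 0.25 := by
  refine le_epsJ (C := 2.7715) (N0 := 11.111) (J_boxp 1.2161 1.4605 0.557 0 (-0.417) 1.1708 1.5632 1.5726 0.9899 0.5003 3.3334 11.111 1.3352 7.856 1.868 0.3442 0.5853 0.3248 0.5453 1.4837 0.6414 2.1838 2.4888 2.895 0.0015 0.02712 0.00234 0.0000003101 0.000804 0.0000003101 0.0000003101 0.0000003101 2.7715
    hβ hN hx1 hx2 hy1 hy2 (by norm_num) (by norm_num) (by linarith) (by norm_num) (by norm_num) (by norm_num) (by norm_num) (by norm_num) (by norm_num) (by norm_num) (by norm_num) (by norm_num) (by norm_num) (by norm_num) (by norm_num) (by norm_num) (by norm_num) (by norm_num) (by norm_num) (by norm_num) (by norm_num) (by norm_num) (by norm_num) (by norm_num)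
    (cube_sqrt_geJ (s := 0.7449) (by norm_num) (by norm_num) (by norm_num) (by norm_num))
    (cube_sqrt_geJ (s := 0.9146) (by norm_num) (by norm_num) (by norm_num) (by norm_num))
    (by norm_num) (by norm_num) (by norm_num) (by norm_num) (by norm_num) (by norm_num) (by norm_num) (by norm_num) (by norm_num) (by norm_num) (by norm_num) (by norm_num) (by norm_num) (by norm_num) (by norm_num) (by norm_num) (by norm_num) (by norm_num)
    (exp_neg_leJ (r := 0.503) 6 (by norm_num) (by norm_num) (by norm_num) (by norm_num))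
    (exp_neg_leJ (r := 0.608) 3 (by norm_num) (by norm_num) (by norm_num) (by norm_num))
    (exp_neg_leJ (r := 0.058) 6 (by norm_num) (by norm_num) (by norm_num) (by norm_num))
    (exp_neg_leJ (r := 0.99) 14 (by norm_num) (by norm_num) (by norm_num) (by norm_num))
    (exp_neg_leJ (r := 0.126) 7 (by norm_num) (by norm_num) (by norm_num) (by norm_num))
    (exp_neg_leJ (r := 0.99) 14 (by norm_num) (by norm_num) (by norm_num) (by norm_num))
    (exp_neg_leJ (r := 0.99) 14 (by norm_num) (by norm_num) (by norm_num) (by norm_num))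
    (exp_neg_leJ (r := 0.99) 14 (by norm_num) (by norm_num) (by norm_num) (by norm_num))
    (by norm_num)) (by norm_num) hN hβ.le (by norm_num)

private theorem dl11_b0_1 {β x y : ℝ} (hβ : 0 < β) (hN : β * 11.111 ≤ 1) (hx1 : 1.1805 ≤ x) (hx2 : x ≤ 1.4396)
    (hy1 : -0.537 ≤ y) (hy2 : y ≤ -0.387) : ‖HH β (x + y * I) - 1‖ ≤ 0.25 := by
  refine le_epsJ (C := 2.7291) (N0 := 11.111) (J_boxp 1.1805 1.4396 0.537 0 (-0.387) 1.1599 1.5365 1.5647 1.0014 0.4991 3.3334 11.111 1.3247 7.686 1.858 0.3707 0.5799 0.3238 0.5647 1.5602 0.635 2.1345 2.4719 2.8964 0.001592 0.02742 0.001885 0.0000003101 0.0008631 0.0000003101 0.0000003101 0.0000003101 2.7291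
    hβ hN hx1 hx2 hy1 hy2 (by norm_num) (by norm_num) (by linarith) (by norm_num) (by norm_num) (by norm_num) (by norm_num) (by norm_num) (by norm_num) (by norm_num) (by norm_num) (by norm_num) (by norm_num) (by norm_num) (by norm_num) (by norm_num) (by norm_num) (by norm_num) (by norm_num) (by norm_num) (by norm_num) (by norm_num) (by norm_num) (by norm_num)
    (cube_sqrt_geJ (s := 0.7472) (by norm_num) (by norm_num) (by norm_num) (by norm_num))
    (cube_sqrt_geJ (s := 0.9153) (by norm_num) (by norm_num) (by norm_num) (by norm_num))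
    (by norm_num) (by norm_num) (by norm_num) (by norm_num) (by norm_num) (by norm_num) (by norm_num) (by norm_num) (by norm_num) (by norm_num) (by norm_num) (by norm_num) (by norm_num) (by norm_num) (by norm_num) (by norm_num) (by norm_num) (by norm_num)
    (exp_neg_leJ (r := 0.443) 6 (by norm_num) (by norm_num) (by norm_num) (by norm_num))
    (exp_neg_leJ (r := 0.597) 3 (by norm_num) (by norm_num) (by norm_num) (by norm_num))
    (exp_neg_leJ (r := 0.274) 6 (by norm_num) (by norm_num) (by norm_num) (by norm_num))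
    (exp_neg_leJ (r := 0.99) 14 (by norm_num) (by norm_num) (by norm_num) (by norm_num))
    (exp_neg_leJ (r := 0.055) 7 (by norm_num) (by norm_num) (by norm_num) (by norm_num))
    (exp_neg_leJ (r := 0.99) 14 (by norm_num) (by norm_num) (by norm_num) (by norm_num))
    (exp_neg_leJ (r := 0.99) 14 (by norm_num) (by norm_num) (by norm_num) (by norm_num))
    (exp_neg_leJ (r := 0.99) 14 (by norm_num) (by norm_num) (by norm_num) (by norm_num))
    (by norm_num)) (by norm_num) hN hβ.le (by norm_num)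

private theorem dl11_b0_2 {β x y : ℝ} (hβ : 0 < β) (hN : β * 11.111 ≤ 1) (hx1 : 1.1225 ≤ x) (hx2 : x ≤ 1.4101)
    (hy1 : -0.507 ≤ y) (hy2 : y ≤ -0.337) : ‖HH β (x + y * I) - 1‖ ≤ 0.25 := by
  refine le_epsJ (C := 2.7252) (N0 := 11.111) (J_boxp 1.1225 1.4101 0.507 0 (-0.337) 1.1404 1.4985 1.5582 1.0251 0.498 3.3334 11.111 1.3141 7.517 1.848 0.4097 0.5701 0.3204 0.5922 1.6737 0.6232 2.0542 2.4375 2.8837 0.001775 0.02848 0.00139 0.0000003101 0.0009865 0.0000003101 0.0000003101 0.0000003101 2.7252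
    hβ hN hx1 hx2 hy1 hy2 (by norm_num) (by norm_num) (by linarith) (by norm_num) (by norm_num) (by norm_num) (by norm_num) (by norm_num) (by norm_num) (by norm_num) (by norm_num) (by norm_num) (by norm_num) (by norm_num) (by norm_num) (by norm_num) (by norm_num) (by norm_num) (by norm_num) (by norm_num) (by norm_num) (by norm_num) (by norm_num) (by norm_num)
    (cube_sqrt_geJ (s := 0.7496) (by norm_num) (by norm_num) (by norm_num) (by norm_num))
    (cube_sqrt_geJ (s := 0.916) (by norm_num) (by norm_num) (by norm_num) (by norm_num))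
    (by norm_num) (by norm_num) (by norm_num) (by norm_num) (by norm_num) (by norm_num) (by norm_num) (by norm_num) (by norm_num) (by norm_num) (by norm_num) (by norm_num) (by norm_num) (by norm_num) (by norm_num) (by norm_num) (by norm_num) (by norm_num)
    (exp_neg_leJ (r := 0.334) 6 (by norm_num) (by norm_num) (by norm_num) (by norm_num))
    (exp_neg_leJ (r := 0.559) 3 (by norm_num) (by norm_num) (by norm_num) (by norm_num))
    (exp_neg_leJ (r := 0.579) 6 (by norm_num) (by norm_num) (by norm_num) (by norm_num))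
    (exp_neg_leJ (r := 0.99) 14 (by norm_num) (by norm_num) (by norm_num) (by norm_num))
    (exp_neg_leJ (r := 0.924) 6 (by norm_num) (by norm_num) (by norm_num) (by norm_num))
    (exp_neg_leJ (r := 0.99) 14 (by norm_num) (by norm_num) (by norm_num) (by norm_num))
    (exp_neg_leJ (r := 0.99) 14 (by norm_num) (by norm_num) (by norm_num) (by norm_num))
    (exp_neg_leJ (r := 0.99) 14 (by norm_num) (by norm_num) (by norm_num) (by norm_num))
    (by norm_num)) (by norm_num) hN hβ.le (by norm_num)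

private theorem dl11_b0_3 {β x y : ℝ} (hβ : 0 < β) (hN : β * 11.111 ≤ 1) (hx1 : 1.025 ≤ x) (hx2 : x ≤ 1.363)
    (hy1 : -0.457 ≤ y) (hy2 : y ≤ -0.247) : ‖HH β (x + y * I) - 1‖ ≤ 0.25 := by
  refine le_epsJ (C := 2.7516) (N0 := 11.111) (J_boxp 1.025 1.363 0.457 0 (-0.247) 1.1073 1.4376 1.5572 1.071 0.4979 3.3334 11.111 1.2983 7.276 1.834 0.474 0.5536 0.314 0.6377 1.8616 0.6032 1.9192 2.3784 2.8542 0.002132 0.03057 0.0008376 0.0000003101 0.00123 0.0000003101 0.0000003101 0.0000003101 2.7516
    hβ hN hx1 hx2 hy1 hy2 (by norm_num) (by norm_num) (by linarith) (by norm_num) (by norm_num) (by norm_num) (by norm_num) (by norm_num) (by norm_num) (by norm_num) (by norm_num) (by norm_num) (by norm_num) (by norm_num) (by norm_num) (by norm_num) (by norm_num) (by norm_num) (by norm_num) (by norm_num) (by norm_num) (by norm_num) (by norm_num) (by norm_num)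
    (cube_sqrt_geJ (s := 0.7531) (by norm_num) (by norm_num) (by norm_num) (by norm_num))
    (cube_sqrt_geJ (s := 0.917) (by norm_num) (by norm_num) (by norm_num) (by norm_num))
    (by norm_num) (by norm_num) (by norm_num) (by norm_num) (by norm_num) (by norm_num) (by norm_num) (by norm_num) (by norm_num) (by norm_num) (by norm_num) (by norm_num) (by norm_num) (by norm_num) (by norm_num) (by norm_num) (by norm_num) (by norm_num)
    (exp_neg_leJ (r := 0.151) 6 (by norm_num) (by norm_num) (by norm_num) (by norm_num))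
    (exp_neg_leJ (r := 0.488) 3 (by norm_num) (by norm_num) (by norm_num) (by norm_num))
    (exp_neg_leJ (r := 0.085) 7 (by norm_num) (by norm_num) (by norm_num) (by norm_num))
    (exp_neg_leJ (r := 0.99) 14 (by norm_num) (by norm_num) (by norm_num) (by norm_num))
    (exp_neg_leJ (r := 0.702) 6 (by norm_num) (by norm_num) (by norm_num) (by norm_num))
    (exp_neg_leJ (r := 0.99) 14 (by norm_num) (by norm_num) (by norm_num) (by norm_num))
    (exp_neg_leJ (r := 0.99) 14 (by norm_num) (by norm_num) (by norm_num) (by norm_num))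
    (exp_neg_leJ (r := 0.99) 14 (by norm_num) (by norm_num) (by norm_num) (by norm_num))
    (by norm_num)) (by norm_num) hN hβ.le (by norm_num)

private theorem dl11_b0_4 {β x y : ℝ} (hβ : 0 < β) (hN : β * 11.111 ≤ 1) (hx1 : 1.0266 ≤ x) (hx2 : x ≤ 1.25)
    (hy1 : -0.367 ≤ y) (hy2 : y ≤ -0.224) : ‖HH β (x + y * I) - 1‖ ≤ 0.25 := by
  refine le_epsJ (C := 1.4521) (N0 := 11.111) (J_boxp 1.0266 1.25 0.367 0 (-0.224) 1.1723 1.3028 1.4713 0.9557 0.484 3.3334 11.111 1.1114 5.052 1.669 0.6005 0.5861 0.369 0.7804 2.2153 0.6531 1.9214 2.6262 3.2238 0.001486 0.01659 0.0001717 0.0000003101 0.000706 0.0000003101 0.0000003101 0.0000003101 1.4521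
    hβ hN hx1 hx2 hy1 hy2 (by norm_num) (by norm_num) (by linarith) (by norm_num) (by norm_num) (by norm_num) (by norm_num) (by norm_num) (by norm_num) (by norm_num) (by norm_num) (by norm_num) (by norm_num) (by norm_num) (by norm_num) (by norm_num) (by norm_num) (by norm_num) (by norm_num) (by norm_num) (by norm_num) (by norm_num) (by norm_num) (by norm_num)
    (cube_sqrt_geJ (s := 0.7934) (by norm_num) (by norm_num) (by norm_num) (by norm_num))
    (cube_sqrt_geJ (s := 0.9294) (by norm_num) (by norm_num) (by norm_num) (by norm_num))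
    (by norm_num) (by norm_num) (by norm_num) (by norm_num) (by norm_num) (by norm_num) (by norm_num) (by norm_num) (by norm_num) (by norm_num) (by norm_num) (by norm_num) (by norm_num) (by norm_num) (by norm_num) (by norm_num) (by norm_num) (by norm_num)
    (exp_neg_leJ (r := 0.512) 6 (by norm_num) (by norm_num) (by norm_num) (by norm_num))
    (exp_neg_leJ (r := 0.099) 4 (by norm_num) (by norm_num) (by norm_num) (by norm_num))
    (exp_neg_leJ (r := 0.671) 8 (by norm_num) (by norm_num) (by norm_num) (by norm_num))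
    (exp_neg_leJ (r := 0.99) 14 (by norm_num) (by norm_num) (by norm_num) (by norm_num))
    (exp_neg_leJ (r := 0.256) 7 (by norm_num) (by norm_num) (by norm_num) (by norm_num))
    (exp_neg_leJ (r := 0.99) 14 (by norm_num) (by norm_num) (by norm_num) (by norm_num))
    (exp_neg_leJ (r := 0.99) 14 (by norm_num) (by norm_num) (by norm_num) (by norm_num))
    (exp_neg_leJ (r := 0.99) 14 (by norm_num) (by norm_num) (by norm_num) (by norm_num))
    (by norm_num)) (by norm_num) hN hβ.le (by norm_num)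

private theorem dl11_c0 {κ t β : ℝ} (h : DomR κ t) (hβ : 0 < β) (hk1 : 0.85 ≤ κ) (hk2 : κ ≤ 0.9)
    (ht1 : -0.8169 ≤ t + κ) (ht2 : t + κ ≤ -0.5026) (hR0 : β * 10 ≤ κ) (hR : β * (3.3 * (1 + κ ^ 2)) ≤ κ) :
    ∀ s : ℂ, ‖s - sg κ t‖ ≤ 0.06 → ‖HH β s - 1‖ ≤ 0.25 := by
  have hN : β * 11.111 ≤ 1 := bNR hβ h.1 hk2 hR0 (by norm_num)
  have hy1 : -0.497 ≤ sy κ t := syL_ge h 0.85 0.9 0.8169 0.497 0.60835 0.60836 0.3392 0.33594 0.35572 hk1 hk2 (by linarith) (by norm_num) (by norm_num) (by norm_num)
    (expm_ge (by norm_num) (by norm_num) (by norm_num) (by norm_num)) (expm_le (by norm_num) (by norm_num) (by norm_num)) (by norm_num)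
    (by norm_num) (by norm_num) (by norm_num) (by norm_num) (by norm_num) (by norm_num)
  have hy2 : sy κ t ≤ -0.284 := syL_le h 0.85 0.9 0.5026 0.284 0.75276 0.75277 0.23753 0.25152 hk1 hk2 (by linarith) (by norm_num) (by norm_num) (by norm_num)
    (expm_ge (by norm_num) (by norm_num) (by norm_num) (by norm_num)) (expm_le (by norm_num) (by norm_num) (by norm_num)) (by norm_num)
    (by norm_num) (by norm_num) (by norm_num) (by norm_num) (by norm_num) (by norm_num)
  intro s hs
  have hs' : ‖s - ((sx κ t : ℂ) + (sy κ t : ℂ) * I)‖ ≤ 0.06 := hs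
  obtain ⟨es, ⟨s1, s2⟩, ⟨s3, s4⟩⟩ := disc_split hs'
  rcases le_total (sy κ t) (-0.477) with f0 | g0
  · have hx1 : 1.2761 ≤ sx κ t := sx_lo h 0.85 (-0.477) 0.497 1.61123 1.2761 hk1 (by norm_num) f0 (abs_le.2 ⟨by linarith, by linarith⟩) (by rw [neg_neg]; exact expn_ge (by norm_num) (by norm_num)) (by norm_num) (by norm_num)
    have hx2 : sx κ t ≤ 1.4005 := sx_hi h 0.9 (-0.497) 0.477 1.64379 1.4005 hk2 hy1 (by norm_num) (by rw [abs_of_nonpos (by linarith)]; linarith) (by rw [neg_neg]; exact expn_le (by norm_num) (by norm_num) (by norm_num)) (by norm_num) (by norm_num)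
    rw [es]
    exact dl11_b0_0 hβ hN (by linarith) (by linarith) (by linarith) (by linarith)
  rcases le_total (sy κ t) (-0.447) with f1 | g1
  · have hx1 : 1.2405 ≤ sx κ t := sx_lo h 0.85 (-0.447) 0.477 1.56361 1.2405 hk1 (by norm_num) f1 (abs_le.2 ⟨by linarith, by linarith⟩) (by rw [neg_neg]; exact expn_ge (by norm_num) (by norm_num)) (by norm_num) (by norm_num)
    have hx2 : sx κ t ≤ 1.3796 := sx_hi h 0.9 (-0.477) 0.447 1.61124 1.3796 hk2 g0 (by norm_num) (by rw [abs_of_nonpos (by linarith)]; linarith) (by rw [neg_neg]; exact expn_le (by norm_num) (by norm_num) (by norm_num)) (by norm_num) (by norm_num)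
    rw [es]
    exact dl11_b0_1 hβ hN (by linarith) (by linarith) (by linarith) (by linarith)
  rcases le_total (sy κ t) (-0.397) with f2 | g2
  · have hx1 : 1.1825 ≤ sx κ t := sx_lo h 0.85 (-0.397) 0.447 1.48735 1.1825 hk1 (by norm_num) f2 (abs_le.2 ⟨by linarith, by linarith⟩) (by rw [neg_neg]; exact expn_ge (by norm_num) (by norm_num)) (by norm_num) (by norm_num)
    have hx2 : sx κ t ≤ 1.3501 := sx_hi h 0.9 (-0.447) 0.397 1.56362 1.3501 hk2 g1 (by norm_num) (by rw [abs_of_nonpos (by linarith)]; linarith) (by rw [neg_neg]; exact expn_le (by norm_num) (by norm_num) (by norm_num)) (by norm_num) (by norm_num)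
    rw [es]
    exact dl11_b0_2 hβ hN (by linarith) (by linarith) (by linarith) (by linarith)
  rcases le_total (sy κ t) (-0.307) with f3 | g3
  · have hx1 : 1.085 ≤ sx κ t := sx_lo h 0.85 (-0.307) 0.397 1.35934 1.085 hk1 (by norm_num) f3 (abs_le.2 ⟨by linarith, by linarith⟩) (by rw [neg_neg]; exact expn_ge (by norm_num) (by norm_num)) (by norm_num) (by norm_num)
    have hx2 : sx κ t ≤ 1.303 := sx_hi h 0.9 (-0.397) 0.307 1.48736 1.303 hk2 g2 (by norm_num) (by rw [abs_of_nonpos (by linarith)]; linarith) (by rw [neg_neg]; exact expn_le (by norm_num) (by norm_num) (by norm_num)) (by norm_num) (by norm_num)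
    rw [es]
    exact dl11_b0_3 hβ hN (by linarith) (by linarith) (by linarith) (by linarith)
  have hx1 : 1.0866 ≤ sx κ t := sx_lo h 0.85 (-0.284) 0.307 1.32843 1.0866 hk1 (by norm_num) hy2 (abs_le.2 ⟨by linarith, by linarith⟩) (by rw [neg_neg]; exact expn_ge (by norm_num) (by norm_num)) (by norm_num) (by norm_num)
  have hx2 : sx κ t ≤ 1.19 := sx_hi h 0.9 (-0.307) 0.284 1.35935 1.19 hk2 g3 (by norm_num) (by rw [abs_of_nonpos (by linarith)]; linarith) (by rw [neg_neg]; exact expn_le (by norm_num) (by norm_num) (by norm_num)) (by norm_num) (by norm_num)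
  rw [es]
  exact dl11_b0_4 hβ hN (by linarith) (by linarith) (by linarith) (by linarith)

theorem dl11 {κ t β : ℝ} (h : DomR κ t) (hβ : 0 < β) (hk1 : 0.85 ≤ κ) (hk2 : κ ≤ 0.9)
    (ht1 : -0.8169 ≤ t + κ) (ht2 : t + κ ≤ -0.5026) (hR0 : β * 10 ≤ κ) (hR : β * (3.3 * (1 + κ ^ 2)) ≤ κ) :
    ∀ s : ℂ, ‖s - sg κ t‖ ≤ 0.06 → ‖HH β s - 1‖ ≤ 0.25 := by
  exact dl11_c0 h hβ hk1 hk2 ht1 ht2 hR0 hR

private theorem dl12_b0_0 {β x y : ℝ} (hβ : 0 < β) (hN : β * 10.526 ≤ 1) (hx1 : 1.2847 ≤ x) (hx2 : x ≤ 1.5494)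
    (hy1 : -0.566 ≤ y) (hy2 : y ≤ -0.396) : ‖HH β (x + y * I) - 1‖ ≤ 0.28 := by
  refine le_epsJ (C := 2.9176) (N0 := 10.526) (J_boxp 1.2847 1.5494 0.566 0 (-0.396) 1.2127 1.6496 1.663 0.9657 0.5145 3.2444 10.526 1.3603 8.285 1.893 0.3017 0.6063 0.3314 0.5546 1.4048 0.6698 2.2788 2.6015 2.7973 0.001694 0.03057 0.002923 0.0000003794 0.0008675 0.0000003101 0.0000003101 0.0000003101 2.9176
    hβ hN hx1 hx2 hy1 hy2 (by norm_num) (by norm_num) (by linarith) (by norm_num) (by norm_num) (by norm_num) (by norm_num) (by norm_num) (by norm_num) (by norm_num) (by norm_num) (by norm_num) (by norm_num) (by norm_num) (by norm_num) (by norm_num) (by norm_num) (by norm_num) (by norm_num) (by norm_num) (by norm_num) (by norm_num) (by norm_num) (by norm_num)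
    (cube_sqrt_geJ (s := 0.7393) (by norm_num) (by norm_num) (by norm_num) (by norm_num))
    (cube_sqrt_geJ (s := 0.9129) (by norm_num) (by norm_num) (by norm_num) (by norm_num))
    (by norm_num) (by norm_num) (by norm_num) (by norm_num) (by norm_num) (by norm_num) (by norm_num) (by norm_num) (by norm_num) (by norm_num) (by norm_num) (by norm_num) (by norm_num) (by norm_num) (by norm_num) (by norm_num) (by norm_num) (by norm_num)
    (exp_neg_leJ (r := 0.381) 6 (by norm_num) (by norm_num) (by norm_num) (by norm_num))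
    (exp_neg_leJ (r := 0.488) 3 (by norm_num) (by norm_num) (by norm_num) (by norm_num))
    (exp_neg_leJ (r := 0.837) 5 (by norm_num) (by norm_num) (by norm_num) (by norm_num))
    (exp_neg_leJ (r := 0.786) 14 (by norm_num) (by norm_num) (by norm_num) (by norm_num))
    (exp_neg_leJ (r := 0.05) 7 (by norm_num) (by norm_num) (by norm_num) (by norm_num))
    (exp_neg_leJ (r := 0.99) 14 (by norm_num) (by norm_num) (by norm_num) (by norm_num))
    (exp_neg_leJ (r := 0.99) 14 (by norm_num) (by norm_num) (by norm_num) (by norm_num))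
    (exp_neg_leJ (r := 0.99) 14 (by norm_num) (by norm_num) (by norm_num) (by norm_num))
    (by norm_num)) (by norm_num) hN hβ.le (by norm_num)

private theorem dl12_b0_1 {β x y : ℝ} (hβ : 0 < β) (hN : β * 10.526 ≤ 1) (hx1 : 1.2653 ≤ x) (hx2 : x ≤ 1.5381)
    (hy1 : -0.556 ≤ y) (hy2 : y ≤ -0.381) : ‖HH β (x + y * I) - 1‖ ≤ 0.28 := by
  refine le_epsJ (C := 2.9049) (N0 := 10.526) (J_boxp 1.2653 1.5381 0.556 0 (-0.381) 1.2062 1.6356 1.658 0.972 0.5137 3.2444 10.526 1.356 8.21 1.888 0.3153 0.603 0.3304 0.5637 1.4434 0.6658 2.2519 2.5899 2.7966 0.001753 0.03091 0.002658 0.0000003101 0.0009047 0.0000003101 0.0000003101 0.0000003101 2.9049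
    hβ hN hx1 hx2 hy1 hy2 (by norm_num) (by norm_num) (by linarith) (by norm_num) (by norm_num) (by norm_num) (by norm_num) (by norm_num) (by norm_num) (by norm_num) (by norm_num) (by norm_num) (by norm_num) (by norm_num) (by norm_num) (by norm_num) (by norm_num) (by norm_num) (by norm_num) (by norm_num) (by norm_num) (by norm_num) (by norm_num) (by norm_num)
    (cube_sqrt_geJ (s := 0.7402) (by norm_num) (by norm_num) (by norm_num) (by norm_num))
    (cube_sqrt_geJ (s := 0.9132) (by norm_num) (by norm_num) (by norm_num) (by norm_num))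
    (by norm_num) (by norm_num) (by norm_num) (by norm_num) (by norm_num) (by norm_num) (by norm_num) (by norm_num) (by norm_num) (by norm_num) (by norm_num) (by norm_num) (by norm_num) (by norm_num) (by norm_num) (by norm_num) (by norm_num) (by norm_num)
    (exp_neg_leJ (r := 0.347) 6 (by norm_num) (by norm_num) (by norm_num) (by norm_num))
    (exp_neg_leJ (r := 0.477) 3 (by norm_num) (by norm_num) (by norm_num) (by norm_num))
    (exp_neg_leJ (r := 0.933) 5 (by norm_num) (by norm_num) (by norm_num) (by norm_num))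
    (exp_neg_leJ (r := 0.99) 14 (by norm_num) (by norm_num) (by norm_num) (by norm_num))
    (exp_neg_leJ (r := 0.008) 7 (by norm_num) (by norm_num) (by norm_num) (by norm_num))
    (exp_neg_leJ (r := 0.99) 14 (by norm_num) (by norm_num) (by norm_num) (by norm_num))
    (exp_neg_leJ (r := 0.99) 14 (by norm_num) (by norm_num) (by norm_num) (by norm_num))
    (exp_neg_leJ (r := 0.99) 14 (by norm_num) (by norm_num) (by norm_num) (by norm_num))
    (by norm_num)) (by norm_num) hN hβ.le (by norm_num)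

private theorem dl12_b0_2 {β x y : ℝ} (hβ : 0 < β) (hN : β * 10.526 ≤ 1) (hx1 : 1.2332 ≤ x) (hx2 : x ≤ 1.522)
    (hy1 : -0.541 ≤ y) (hy2 : y ≤ -0.356) : ‖HH β (x + y * I) - 1‖ ≤ 0.28 := by
  refine le_epsJ (C := 2.9233) (N0 := 10.526) (J_boxp 1.2332 1.522 0.541 0 (-0.356) 1.1942 1.6153 1.6527 0.9852 0.5129 3.2444 10.526 1.3527 8.152 1.885 0.3353 0.597 0.3278 0.5764 1.5009 0.6584 2.2075 2.5664 2.7876 0.001866 0.03175 0.002319 0.0000003101 0.0009807 0.0000003101 0.0000003101 0.0000003101 2.9233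
    hβ hN hx1 hx2 hy1 hy2 (by norm_num) (by norm_num) (by linarith) (by norm_num) (by norm_num) (by norm_num) (by norm_num) (by norm_num) (by norm_num) (by norm_num) (by norm_num) (by norm_num) (by norm_num) (by norm_num) (by norm_num) (by norm_num) (by norm_num) (by norm_num) (by norm_num) (by norm_num) (by norm_num) (by norm_num) (by norm_num) (by norm_num)
    (cube_sqrt_geJ (s := 0.741) (by norm_num) (by norm_num) (by norm_num) (by norm_num))
    (cube_sqrt_geJ (s := 0.9134) (by norm_num) (by norm_num) (by norm_num) (by norm_num))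
    (by norm_num) (by norm_num) (by norm_num) (by norm_num) (by norm_num) (by norm_num) (by norm_num) (by norm_num) (by norm_num) (by norm_num) (by norm_num) (by norm_num) (by norm_num) (by norm_num) (by norm_num) (by norm_num) (by norm_num) (by norm_num)
    (exp_neg_leJ (r := 0.284) 6 (by norm_num) (by norm_num) (by norm_num) (by norm_num))
    (exp_neg_leJ (r := 0.45) 3 (by norm_num) (by norm_num) (by norm_num) (by norm_num))
    (exp_neg_leJ (r := 0.067) 6 (by norm_num) (by norm_num) (by norm_num) (by norm_num))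
    (exp_neg_leJ (r := 0.99) 14 (by norm_num) (by norm_num) (by norm_num) (by norm_num))
    (exp_neg_leJ (r := 0.93) 6 (by norm_num) (by norm_num) (by norm_num) (by norm_num))
    (exp_neg_leJ (r := 0.99) 14 (by norm_num) (by norm_num) (by norm_num) (by norm_num))
    (exp_neg_leJ (r := 0.99) 14 (by norm_num) (by norm_num) (by norm_num) (by norm_num))
    (exp_neg_leJ (r := 0.99) 14 (by norm_num) (by norm_num) (by norm_num) (by norm_num))
    (by norm_num)) (by norm_num) hN hβ.le (by norm_num)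

private theorem dl12_b0_3 {β x y : ℝ} (hβ : 0 < β) (hN : β * 10.526 ≤ 1) (hx1 : 1.1842 ≤ x) (hx2 : x ≤ 1.4949)
    (hy1 : -0.516 ≤ y) (hy2 : y ≤ -0.316) : ‖HH β (x + y * I) - 1‖ ≤ 0.28 := by
  refine le_epsJ (C := 2.9092) (N0 := 10.526) (J_boxp 1.1842 1.4949 0.516 0 (-0.316) 1.1775 1.5815 1.644 1.0035 0.5116 3.2444 10.526 1.3431 7.988 1.876 0.3688 0.5887 0.3251 0.5991 1.5969 0.6483 2.1396 2.5364 2.7815 0.002038 0.03265 0.001826 0.0000003101 0.00109 0.0000003101 0.0000003101 0.0000003101 2.9092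
    hβ hN hx1 hx2 hy1 hy2 (by norm_num) (by norm_num) (by linarith) (by norm_num) (by norm_num) (by norm_num) (by norm_num) (by norm_num) (by norm_num) (by norm_num) (by norm_num) (by norm_num) (by norm_num) (by norm_num) (by norm_num) (by norm_num) (by norm_num) (by norm_num) (by norm_num) (by norm_num) (by norm_num) (by norm_num) (by norm_num) (by norm_num)
    (cube_sqrt_geJ (s := 0.7431) (by norm_num) (by norm_num) (by norm_num) (by norm_num))
    (cube_sqrt_geJ (s := 0.914) (by norm_num) (by norm_num) (by norm_num) (by norm_num))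
    (by norm_num) (by norm_num) (by norm_num) (by norm_num) (by norm_num) (by norm_num) (by norm_num) (by norm_num) (by norm_num) (by norm_num) (by norm_num) (by norm_num) (by norm_num) (by norm_num) (by norm_num) (by norm_num) (by norm_num) (by norm_num)
    (exp_neg_leJ (r := 0.196) 6 (by norm_num) (by norm_num) (by norm_num) (by norm_num))
    (exp_neg_leJ (r := 0.422) 3 (by norm_num) (by norm_num) (by norm_num) (by norm_num))
    (exp_neg_leJ (r := 0.306) 6 (by norm_num) (by norm_num) (by norm_num) (by norm_num))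
    (exp_neg_leJ (r := 0.99) 14 (by norm_num) (by norm_num) (by norm_num) (by norm_num))
    (exp_neg_leJ (r := 0.824) 6 (by norm_num) (by norm_num) (by norm_num) (by norm_num))
    (exp_neg_leJ (r := 0.99) 14 (by norm_num) (by norm_num) (by norm_num) (by norm_num))
    (exp_neg_leJ (r := 0.99) 14 (by norm_num) (by norm_num) (by norm_num) (by norm_num))
    (exp_neg_leJ (r := 0.99) 14 (by norm_num) (by norm_num) (by norm_num) (by norm_num))
    (by norm_num)) (by norm_num) hN hβ.le (by norm_num)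

private theorem dl12_b0_4 {β x y : ℝ} (hβ : 0 < β) (hN : β * 10.526 ≤ 1) (hx1 : 1.1023 ≤ x) (hx2 : x ≤ 1.4535)
    (hy1 : -0.476 ≤ y) (hy2 : y ≤ -0.246) : ‖HH β (x + y * I) - 1‖ ≤ 0.28 := by
  refine le_epsJ (C := 2.9461) (N0 := 10.526) (J_boxp 1.1023 1.4535 0.476 0 (-0.246) 1.1482 1.5295 1.6375 1.0401 0.5106 3.2444 10.526 1.3321 7.805 1.865 0.4216 0.574 0.3191 0.6342 1.7492 0.6303 2.0262 2.4813 2.759 0.00238 0.03481 0.001263 0.0000003101 0.001316 0.0000003101 0.0000003101 0.0000003101 2.9461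
    hβ hN hx1 hx2 hy1 hy2 (by norm_num) (by norm_num) (by linarith) (by norm_num) (by norm_num) (by norm_num) (by norm_num) (by norm_num) (by norm_num) (by norm_num) (by norm_num) (by norm_num) (by norm_num) (by norm_num) (by norm_num) (by norm_num) (by norm_num) (by norm_num) (by norm_num) (by norm_num) (by norm_num) (by norm_num) (by norm_num) (by norm_num)
    (cube_sqrt_geJ (s := 0.7456) (by norm_num) (by norm_num) (by norm_num) (by norm_num))
    (cube_sqrt_geJ (s := 0.9148) (by norm_num) (by norm_num) (by norm_num) (by norm_num))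
    (by norm_num) (by norm_num) (by norm_num) (by norm_num) (by norm_num) (by norm_num) (by norm_num) (by norm_num) (by norm_num) (by norm_num) (by norm_num) (by norm_num) (by norm_num) (by norm_num) (by norm_num) (by norm_num) (by norm_num) (by norm_num)
    (exp_neg_leJ (r := 0.041) 6 (by norm_num) (by norm_num) (by norm_num) (by norm_num))
    (exp_neg_leJ (r := 0.358) 3 (by norm_num) (by norm_num) (by norm_num) (by norm_num))
    (exp_neg_leJ (r := 0.675) 6 (by norm_num) (by norm_num) (by norm_num) (by norm_num))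
    (exp_neg_leJ (r := 0.99) 14 (by norm_num) (by norm_num) (by norm_num) (by norm_num))
    (exp_neg_leJ (r := 0.634) 6 (by norm_num) (by norm_num) (by norm_num) (by norm_num))
    (exp_neg_leJ (r := 0.99) 14 (by norm_num) (by norm_num) (by norm_num) (by norm_num))
    (exp_neg_leJ (r := 0.99) 14 (by norm_num) (by norm_num) (by norm_num) (by norm_num))
    (exp_neg_leJ (r := 0.99) 14 (by norm_num) (by norm_num) (by norm_num) (by norm_num))
    (by norm_num)) (by norm_num) hN hβ.le (by norm_num)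

private theorem dl12_b0_5 {β x y : ℝ} (hβ : 0 < β) (hN : β * 10.526 ≤ 1) (hx1 : 1.0665 ≤ x) (hx2 : x ≤ 1.3659)
    (hy1 : -0.406 ≤ y) (hy2 : y ≤ -0.201) : ‖HH β (x + y * I) - 1‖ ≤ 0.28 := by
  refine le_epsJ (C := 2.0313) (N0 := 10.526) (J_boxp 1.0665 1.3659 0.406 0 (-0.201) 1.1727 1.425 1.5825 0.9906 0.5019 3.2444 10.526 1.2152 6.158 1.758 0.52 0.5863 0.3488 0.7324 2.0241 0.6512 1.9766 2.6 2.9715 0.00209 0.02547 0.0004492 0.0000003101 0.001058 0.0000003101 0.0000003101 0.0000003101 2.0313
    hβ hN hx1 hx2 hy1 hy2 (by norm_num) (by norm_num) (by linarith) (by norm_num) (by norm_num) (by norm_num) (by norm_num) (by norm_num) (by norm_num) (by norm_num) (by norm_num) (by norm_num) (by norm_num) (by norm_num) (by norm_num) (by norm_num) (by norm_num) (by norm_num) (by norm_num) (by norm_num) (by norm_num) (by norm_num) (by norm_num) (by norm_num)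
    (cube_sqrt_geJ (s := 0.7713) (by norm_num) (by norm_num) (by norm_num) (by norm_num))
    (cube_sqrt_geJ (s := 0.9226) (by norm_num) (by norm_num) (by norm_num) (by norm_num))
    (by norm_num) (by norm_num) (by norm_num) (by norm_num) (by norm_num) (by norm_num) (by norm_num) (by norm_num) (by norm_num) (by norm_num) (by norm_num) (by norm_num) (by norm_num) (by norm_num) (by norm_num) (by norm_num) (by norm_num) (by norm_num)
    (exp_neg_leJ (r := 0.171) 6 (by norm_num) (by norm_num) (by norm_num) (by norm_num))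
    (exp_neg_leJ (r := 0.671) 3 (by norm_num) (by norm_num) (by norm_num) (by norm_num))
    (exp_neg_leJ (r := 0.709) 7 (by norm_num) (by norm_num) (by norm_num) (by norm_num))
    (exp_neg_leJ (r := 0.99) 14 (by norm_num) (by norm_num) (by norm_num) (by norm_num))
    (exp_neg_leJ (r := 0.854) 6 (by norm_num) (by norm_num) (by norm_num) (by norm_num))
    (exp_neg_leJ (r := 0.99) 14 (by norm_num) (by norm_num) (by norm_num) (by norm_num))
    (exp_neg_leJ (r := 0.99) 14 (by norm_num) (by norm_num) (by norm_num) (by norm_num))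
    (exp_neg_leJ (r := 0.99) 14 (by norm_num) (by norm_num) (by norm_num) (by norm_num))
    (by norm_num)) (by norm_num) hN hβ.le (by norm_num)

private theorem dl12_c0 {κ t β : ℝ} (h : DomR κ t) (hβ : 0 < β) (hk1 : 0.9 ≤ κ) (hk2 : κ ≤ 0.95)
    (ht1 : -0.8169 ≤ t + κ) (ht2 : t + κ ≤ -0.5026) (hR0 : β * 10 ≤ κ) (hR : β * (3.3 * (1 + κ ^ 2)) ≤ κ) :
    ∀ s : ℂ, ‖s - sg κ t‖ ≤ 0.08 → ‖HH β s - 1‖ ≤ 0.28 := by
  have hN : β * 10.526 ≤ 1 := bNR hβ h.1 hk2 hR0 (by norm_num)
  have hy1 : -0.486 ≤ sy κ t := syL_ge h 0.9 0.95 0.8169 0.486 0.61508 0.61509 0.3219 0.31466 0.33215 hk1 hk2 (by linarith) (by norm_num) (by norm_num) (by norm_num)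
    (expm_ge (by norm_num) (by norm_num) (by norm_num) (by norm_num)) (expm_le (by norm_num) (by norm_num) (by norm_num)) (by norm_num)
    (by norm_num) (by norm_num) (by norm_num) (by norm_num) (by norm_num) (by norm_num)
  have hy2 : sy κ t ≤ -0.281 := syL_le h 0.9 0.95 0.5026 0.281 0.75502 0.75503 0.22332 0.23574 hk1 hk2 (by linarith) (by norm_num) (by norm_num) (by norm_num)
    (expm_ge (by norm_num) (by norm_num) (by norm_num) (by norm_num)) (expm_le (by norm_num) (by norm_num) (by norm_num)) (by norm_num)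
    (by norm_num) (by norm_num) (by norm_num) (by norm_num) (by norm_num) (by norm_num)
  intro s hs
  have hs' : ‖s - ((sx κ t : ℂ) + (sy κ t : ℂ) * I)‖ ≤ 0.08 := hs
  obtain ⟨es, ⟨s1, s2⟩, ⟨s3, s4⟩⟩ := disc_split hs'
  rcases le_total (sy κ t) (-0.476) with f0 | g0
  · have hx1 : 1.3647 ≤ sx κ t := sx_lo h 0.9 (-0.476) 0.486 1.60962 1.3647 hk1 (by norm_num) f0 (abs_le.2 ⟨by linarith, by linarith⟩) (by rw [neg_neg]; exact expn_ge (by norm_num) (by norm_num)) (by norm_num) (by norm_num)
    have hx2 : sx κ t ≤ 1.4694 := sx_hi h 0.95 (-0.486) 0.476 1.62581 1.4694 hk2 hy1 (by norm_num) (by rw [abs_of_nonpos (by linarith)]; linarith) (by rw [neg_neg]; exact expn_le (by norm_num) (by norm_num) (by norm_num)) (by norm_num) (by norm_num)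
    rw [es]
    exact dl12_b0_0 hβ hN (by linarith) (by linarith) (by linarith) (by linarith)
  rcases le_total (sy κ t) (-0.461) with f1 | g1
  · have hx1 : 1.3453 ≤ sx κ t := sx_lo h 0.9 (-0.461) 0.476 1.58565 1.3453 hk1 (by norm_num) f1 (abs_le.2 ⟨by linarith, by linarith⟩) (by rw [neg_neg]; exact expn_ge (by norm_num) (by norm_num)) (by norm_num) (by norm_num)
    have hx2 : sx κ t ≤ 1.4581 := sx_hi h 0.95 (-0.476) 0.461 1.60963 1.4581 hk2 g0 (by norm_num) (by rw [abs_of_nonpos (by linarith)]; linarith) (by rw [neg_neg]; exact expn_le (by norm_num) (by norm_num) (by norm_num)) (by norm_num) (by norm_num)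
    rw [es]
    exact dl12_b0_1 hβ hN (by linarith) (by linarith) (by linarith) (by linarith)
  rcases le_total (sy κ t) (-0.436) with f2 | g2
  · have hx1 : 1.3132 ≤ sx κ t := sx_lo h 0.9 (-0.436) 0.461 1.5465 1.3132 hk1 (by norm_num) f2 (abs_le.2 ⟨by linarith, by linarith⟩) (by rw [neg_neg]; exact expn_ge (by norm_num) (by norm_num)) (by norm_num) (by norm_num)
    have hx2 : sx κ t ≤ 1.442 := sx_hi h 0.95 (-0.461) 0.436 1.58566 1.442 hk2 g1 (by norm_num) (by rw [abs_of_nonpos (by linarith)]; linarith) (by rw [neg_neg]; exact expn_le (by norm_num) (by norm_num) (by norm_num)) (by norm_num) (by norm_num)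
    rw [es]
    exact dl12_b0_2 hβ hN (by linarith) (by linarith) (by linarith) (by linarith)
  rcases le_total (sy κ t) (-0.396) with f3 | g3
  · have hx1 : 1.2642 ≤ sx κ t := sx_lo h 0.9 (-0.396) 0.436 1.48586 1.2642 hk1 (by norm_num) f3 (abs_le.2 ⟨by linarith, by linarith⟩) (by rw [neg_neg]; exact expn_ge (by norm_num) (by norm_num)) (by norm_num) (by norm_num)
    have hx2 : sx κ t ≤ 1.4149 := sx_hi h 0.95 (-0.436) 0.396 1.54651 1.4149 hk2 g2 (by norm_num) (by rw [abs_of_nonpos (by linarith)]; linarith) (by rw [neg_neg]; exact expn_le (by norm_num) (by norm_num) (by norm_num)) (by norm_num) (by norm_num)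
    rw [es]
    exact dl12_b0_3 hβ hN (by linarith) (by linarith) (by linarith) (by linarith)
  rcases le_total (sy κ t) (-0.326) with f4 | g4
  · have hx1 : 1.1823 ≤ sx κ t := sx_lo h 0.9 (-0.326) 0.396 1.38541 1.1823 hk1 (by norm_num) f4 (abs_le.2 ⟨by linarith, by linarith⟩) (by rw [neg_neg]; exact expn_ge (by norm_num) (by norm_num)) (by norm_num) (by norm_num)
    have hx2 : sx κ t ≤ 1.3735 := sx_hi h 0.95 (-0.396) 0.326 1.48587 1.3735 hk2 g3 (by norm_num) (by rw [abs_of_nonpos (by linarith)]; linarith) (by rw [neg_neg]; exact expn_le (by norm_num) (by norm_num) (by norm_num)) (by norm_num) (by norm_num)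
    rw [es]
    exact dl12_b0_4 hβ hN (by linarith) (by linarith) (by linarith) (by linarith)
  have hx1 : 1.1465 ≤ sx κ t := sx_lo h 0.9 (-0.281) 0.326 1.32445 1.1465 hk1 (by norm_num) hy2 (abs_le.2 ⟨by linarith, by linarith⟩) (by rw [neg_neg]; exact expn_ge (by norm_num) (by norm_num)) (by norm_num) (by norm_num)
  have hx2 : sx κ t ≤ 1.2859 := sx_hi h 0.95 (-0.326) 0.281 1.38542 1.2859 hk2 g4 (by norm_num) (by rw [abs_of_nonpos (by linarith)]; linarith) (by rw [neg_neg]; exact expn_le (by norm_num) (by norm_num) (by norm_num)) (by norm_num) (by norm_num)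
  rw [es]
  exact dl12_b0_5 hβ hN (by linarith) (by linarith) (by linarith) (by linarith)

theorem dl12 {κ t β : ℝ} (h : DomR κ t) (hβ : 0 < β) (hk1 : 0.9 ≤ κ) (hk2 : κ ≤ 0.95)
    (ht1 : -0.8169 ≤ t + κ) (ht2 : t + κ ≤ -0.5026) (hR0 : β * 10 ≤ κ) (hR : β * (3.3 * (1 + κ ^ 2)) ≤ κ) :
    ∀ s : ℂ, ‖s - sg κ t‖ ≤ 0.08 → ‖HH β s - 1‖ ≤ 0.28 := by
  exact dl12_c0 h hβ hk1 hk2 ht1 ht2 hR0 hR

private theorem dl13_b0_0 {β x y : ℝ} (hβ : 0 < β) (hN : β * 9.999 ≤ 1) (hx1 : 1.3851 ≤ x) (hx2 : x ≤ 1.5992)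
    (hy1 : -0.536 ≤ y) (hy2 : y ≤ -0.411) : ‖HH β (x + y * I) - 1‖ ≤ 0.22 := by
  refine le_epsJ (C := 2.18) (N0 := 9.999) (J_boxp 1.3851 1.5992 0.536 0 (-0.411) 1.3047 1.6867 1.7043 0.8761 0.5209 3.1622 9.999 1.2928 7.194 1.828 0.3102 0.6523 0.3712 0.6363 1.4736 0.7349 2.4178 2.8838 2.8973 0.001472 0.02448 0.001726 0.0000003996 0.000644 0.0000003101 0.0000003101 0.0000003101 2.18
    hβ hN hx1 hx2 hy1 hy2 (by norm_num) (by norm_num) (by linarith) (by norm_num) (by norm_num) (by norm_num) (by norm_num) (by norm_num) (by norm_num) (by norm_num) (by norm_num) (by norm_num) (by norm_num) (by norm_num) (by norm_num) (by norm_num) (by norm_num) (by norm_num) (by norm_num) (by norm_num) (by norm_num) (by norm_num) (by norm_num) (by norm_num)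
    (cube_sqrt_geJ (s := 0.7543) (by norm_num) (by norm_num) (by norm_num) (by norm_num))
    (cube_sqrt_geJ (s := 0.9174) (by norm_num) (by norm_num) (by norm_num) (by norm_num))
    (by norm_num) (by norm_num) (by norm_num) (by norm_num) (by norm_num) (by norm_num) (by norm_num) (by norm_num) (by norm_num) (by norm_num) (by norm_num) (by norm_num) (by norm_num) (by norm_num) (by norm_num) (by norm_num) (by norm_num) (by norm_num)
    (exp_neg_leJ (r := 0.522) 6 (by norm_num) (by norm_num) (by norm_num) (by norm_num))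
    (exp_neg_leJ (r := 0.711) 3 (by norm_num) (by norm_num) (by norm_num) (by norm_num))
    (exp_neg_leJ (r := 0.362) 6 (by norm_num) (by norm_num) (by norm_num) (by norm_num))
    (exp_neg_leJ (r := 0.734) 14 (by norm_num) (by norm_num) (by norm_num) (by norm_num))
    (exp_neg_leJ (r := 0.348) 7 (by norm_num) (by norm_num) (by norm_num) (by norm_num))
    (exp_neg_leJ (r := 0.99) 14 (by norm_num) (by norm_num) (by norm_num) (by norm_num))
    (exp_neg_leJ (r := 0.99) 14 (by norm_num) (by norm_num) (by norm_num) (by norm_num))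
    (exp_neg_leJ (r := 0.99) 14 (by norm_num) (by norm_num) (by norm_num) (by norm_num))
    (by norm_num)) (by norm_num) hN hβ.le (by norm_num)

private theorem dl13_b0_1 {β x y : ℝ} (hβ : 0 < β) (hN : β * 9.999 ≤ 1) (hx1 : 1.3787 ≤ x) (hx2 : x ≤ 1.5924)
    (hy1 : -0.531 ≤ y) (hy2 : y ≤ -0.406) : ‖HH β (x + y * I) - 1‖ ≤ 0.22 := by
  refine le_epsJ (C := 2.1485) (N0 := 9.999) (J_boxp 1.3787 1.5924 0.531 0 (-0.406) 1.3038 1.6787 1.6996 0.8758 0.5201 3.1622 9.999 1.2876 7.118 1.824 0.3175 0.6518 0.3721 0.642 1.4935 0.7346 2.4089 2.8846 2.9062 0.001479 0.02426 0.001631 0.000000328 0.0006459 0.0000003101 0.0000003101 0.0000003101 2.1485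
    hβ hN hx1 hx2 hy1 hy2 (by norm_num) (by norm_num) (by linarith) (by norm_num) (by norm_num) (by norm_num) (by norm_num) (by norm_num) (by norm_num) (by norm_num) (by norm_num) (by norm_num) (by norm_num) (by norm_num) (by norm_num) (by norm_num) (by norm_num) (by norm_num) (by norm_num) (by norm_num) (by norm_num) (by norm_num) (by norm_num) (by norm_num)
    (cube_sqrt_geJ (s := 0.7555) (by norm_num) (by norm_num) (by norm_num) (by norm_num))
    (cube_sqrt_geJ (s := 0.9177) (by norm_num) (by norm_num) (by norm_num) (by norm_num))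
    (by norm_num) (by norm_num) (by norm_num) (by norm_num) (by norm_num) (by norm_num) (by norm_num) (by norm_num) (by norm_num) (by norm_num) (by norm_num) (by norm_num) (by norm_num) (by norm_num) (by norm_num) (by norm_num) (by norm_num) (by norm_num)
    (exp_neg_leJ (r := 0.517) 6 (by norm_num) (by norm_num) (by norm_num) (by norm_num))
    (exp_neg_leJ (r := 0.72) 3 (by norm_num) (by norm_num) (by norm_num) (by norm_num))
    (exp_neg_leJ (r := 0.419) 6 (by norm_num) (by norm_num) (by norm_num) (by norm_num))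
    (exp_neg_leJ (r := 0.933) 14 (by norm_num) (by norm_num) (by norm_num) (by norm_num))
    (exp_neg_leJ (r := 0.345) 7 (by norm_num) (by norm_num) (by norm_num) (by norm_num))
    (exp_neg_leJ (r := 0.99) 14 (by norm_num) (by norm_num) (by norm_num) (by norm_num))
    (exp_neg_leJ (r := 0.99) 14 (by norm_num) (by norm_num) (by norm_num) (by norm_num))
    (exp_neg_leJ (r := 0.99) 14 (by norm_num) (by norm_num) (by norm_num) (by norm_num))
    (by norm_num)) (by norm_num) hN hβ.le (by norm_num)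

private theorem dl13_b0_2 {β x y : ℝ} (hβ : 0 < β) (hN : β * 9.999 ≤ 1) (hx1 : 1.3645 ≤ x) (hx2 : x ≤ 1.587)
    (hy1 : -0.526 ≤ y) (hy2 : y ≤ -0.396) : ‖HH β (x + y * I) - 1‖ ≤ 0.22 := by
  refine le_epsJ (C := 2.1742) (N0 := 9.999) (J_boxp 1.3645 1.587 0.526 0 (-0.396) 1.2973 1.6719 1.6981 0.882 0.5199 3.1622 9.999 1.2888 7.136 1.825 0.3241 0.6486 0.3699 0.645 1.5127 0.7304 2.3893 2.8698 2.8963 0.001527 0.0248 0.001583 0.0000003101 0.0006736 0.0000003101 0.0000003101 0.0000003101 2.1742
    hβ hN hx1 hx2 hy1 hy2 (by norm_num) (by norm_num) (by linarith) (by norm_num) (by norm_num) (by norm_num) (by norm_num) (by norm_num) (by norm_num) (by norm_num) (by norm_num) (by norm_num) (by norm_num) (by norm_num) (by norm_num) (by norm_num) (by norm_num) (by norm_num) (by norm_num) (by norm_num) (by norm_num) (by norm_num) (by norm_num) (by norm_num)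
    (cube_sqrt_geJ (s := 0.7552) (by norm_num) (by norm_num) (by norm_num) (by norm_num))
    (cube_sqrt_geJ (s := 0.9177) (by norm_num) (by norm_num) (by norm_num) (by norm_num))
    (by norm_num) (by norm_num) (by norm_num) (by norm_num) (by norm_num) (by norm_num) (by norm_num) (by norm_num) (by norm_num) (by norm_num) (by norm_num) (by norm_num) (by norm_num) (by norm_num) (by norm_num) (by norm_num) (by norm_num) (by norm_num)
    (exp_neg_leJ (r := 0.485) 6 (by norm_num) (by norm_num) (by norm_num) (by norm_num))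
    (exp_neg_leJ (r := 0.698) 3 (by norm_num) (by norm_num) (by norm_num) (by norm_num))
    (exp_neg_leJ (r := 0.449) 6 (by norm_num) (by norm_num) (by norm_num) (by norm_num))
    (exp_neg_leJ (r := 0.99) 14 (by norm_num) (by norm_num) (by norm_num) (by norm_num))
    (exp_neg_leJ (r := 0.303) 7 (by norm_num) (by norm_num) (by norm_num) (by norm_num))
    (exp_neg_leJ (r := 0.99) 14 (by norm_num) (by norm_num) (by norm_num) (by norm_num))
    (exp_neg_leJ (r := 0.99) 14 (by norm_num) (by norm_num) (by norm_num) (by norm_num))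
    (exp_neg_leJ (r := 0.99) 14 (by norm_num) (by norm_num) (by norm_num) (by norm_num))
    (by norm_num)) (by norm_num) hN hβ.le (by norm_num)

private theorem dl13_b0_3 {β x y : ℝ} (hβ : 0 < β) (hN : β * 9.999 ≤ 1) (hx1 : 1.3443 ≤ x) (hx2 : x ≤ 1.5749)
    (hy1 : -0.516 ≤ y) (hy2 : y ≤ -0.381) : ‖HH β (x + y * I) - 1‖ ≤ 0.22 := by
  refine le_epsJ (C := 2.1661) (N0 := 9.999) (J_boxp 1.3443 1.5749 0.516 0 (-0.381) 1.2902 1.6573 1.6922 0.8877 0.519 3.1622 9.999 1.2846 7.075 1.821 0.338 0.645 0.3688 0.6539 1.5518 0.726 2.3613 2.8566 2.8956 0.001583 0.02507 0.001448 0.0000003101 0.0007039 0.0000003101 0.0000003101 0.0000003101 2.1661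
    hβ hN hx1 hx2 hy1 hy2 (by norm_num) (by norm_num) (by linarith) (by norm_num) (by norm_num) (by norm_num) (by norm_num) (by norm_num) (by norm_num) (by norm_num) (by norm_num) (by norm_num) (by norm_num) (by norm_num) (by norm_num) (by norm_num) (by norm_num) (by norm_num) (by norm_num) (by norm_num) (by norm_num) (by norm_num) (by norm_num) (by norm_num)
    (cube_sqrt_geJ (s := 0.7561) (by norm_num) (by norm_num) (by norm_num) (by norm_num))
    (cube_sqrt_geJ (s := 0.9179) (by norm_num) (by norm_num) (by norm_num) (by norm_num))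
    (by norm_num) (by norm_num) (by norm_num) (by norm_num) (by norm_num) (by norm_num) (by norm_num) (by norm_num) (by norm_num) (by norm_num) (by norm_num) (by norm_num) (by norm_num) (by norm_num) (by norm_num) (by norm_num) (by norm_num) (by norm_num)
    (exp_neg_leJ (r := 0.449) 6 (by norm_num) (by norm_num) (by norm_num) (by norm_num))
    (exp_neg_leJ (r := 0.687) 3 (by norm_num) (by norm_num) (by norm_num) (by norm_num))
    (exp_neg_leJ (r := 0.538) 6 (by norm_num) (by norm_num) (by norm_num) (by norm_num))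
    (exp_neg_leJ (r := 0.99) 14 (by norm_num) (by norm_num) (by norm_num) (by norm_num))
    (exp_neg_leJ (r := 0.259) 7 (by norm_num) (by norm_num) (by norm_num) (by norm_num))
    (exp_neg_leJ (r := 0.99) 14 (by norm_num) (by norm_num) (by norm_num) (by norm_num))
    (exp_neg_leJ (r := 0.99) 14 (by norm_num) (by norm_num) (by norm_num) (by norm_num))
    (exp_neg_leJ (r := 0.99) 14 (by norm_num) (by norm_num) (by norm_num) (by norm_num))
    (by norm_num)) (by norm_num) hN hβ.le (by norm_num)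

private theorem dl13_b0_4 {β x y : ℝ} (hβ : 0 < β) (hN : β * 9.999 ≤ 1) (hx1 : 1.3108 ≤ x) (hx2 : x ≤ 1.5576)
    (hy1 : -0.501 ≤ y) (hy2 : y ≤ -0.356) : ‖HH β (x + y * I) - 1‖ ≤ 0.22 := by
  refine le_epsJ (C := 2.1788) (N0 := 9.999) (J_boxp 1.3108 1.5576 0.501 0 (-0.356) 1.2773 1.6362 1.6855 0.8994 0.518 3.1622 9.999 1.281 7.023 1.817 0.3585 0.6386 0.3659 0.6661 1.6099 0.718 2.3149 2.8304 2.886 0.001687 0.0258 0.001282 0.0000003101 0.0007625 0.0000003101 0.0000003101 0.0000003101 2.1788
    hβ hN hx1 hx2 hy1 hy2 (by norm_num) (by norm_num) (by linarith) (by norm_num) (by norm_num) (by norm_num) (by norm_num) (by norm_num) (by norm_num) (by norm_num) (by norm_num) (by norm_num) (by norm_num) (by norm_num) (by norm_num) (by norm_num) (by norm_num) (by norm_num) (by norm_num) (by norm_num) (by norm_num) (by norm_num) (by norm_num) (by norm_num)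
    (cube_sqrt_geJ (s := 0.7569) (by norm_num) (by norm_num) (by norm_num) (by norm_num))
    (cube_sqrt_geJ (s := 0.9182) (by norm_num) (by norm_num) (by norm_num) (by norm_num))
    (by norm_num) (by norm_num) (by norm_num) (by norm_num) (by norm_num) (by norm_num) (by norm_num) (by norm_num) (by norm_num) (by norm_num) (by norm_num) (by norm_num) (by norm_num) (by norm_num) (by norm_num) (by norm_num) (by norm_num) (by norm_num)
    (exp_neg_leJ (r := 0.385) 6 (by norm_num) (by norm_num) (by norm_num) (by norm_num))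
    (exp_neg_leJ (r := 0.658) 3 (by norm_num) (by norm_num) (by norm_num) (by norm_num))
    (exp_neg_leJ (r := 0.66) 6 (by norm_num) (by norm_num) (by norm_num) (by norm_num))
    (exp_neg_leJ (r := 0.99) 14 (by norm_num) (by norm_num) (by norm_num) (by norm_num))
    (exp_neg_leJ (r := 0.179) 7 (by norm_num) (by norm_num) (by norm_num) (by norm_num))
    (exp_neg_leJ (r := 0.99) 14 (by norm_num) (by norm_num) (by norm_num) (by norm_num))
    (exp_neg_leJ (r := 0.99) 14 (by norm_num) (by norm_num) (by norm_num) (by norm_num))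
    (exp_neg_leJ (r := 0.99) 14 (by norm_num) (by norm_num) (by norm_num) (by norm_num))
    (by norm_num)) (by norm_num) hN hβ.le (by norm_num)

private theorem dl13_b0_5 {β x y : ℝ} (hβ : 0 < β) (hN : β * 9.999 ≤ 1) (hx1 : 1.2595 ≤ x) (hx2 : x ≤ 1.5286)
    (hy1 : -0.476 ≤ y) (hy2 : y ≤ -0.316) : ‖HH β (x + y * I) - 1‖ ≤ 0.22 := by
  refine le_epsJ (C := 2.174) (N0 := 9.999) (J_boxp 1.2595 1.5286 0.476 0 (-0.316) 1.2589 1.601 1.6747 0.9162 0.5163 3.1622 9.999 1.2718 6.893 1.809 0.3928 0.6294 0.3626 0.688 1.7068 0.7067 2.2439 2.7957 2.8791 0.00185 0.02667 0.001032 0.0000003101 0.0008537 0.0000003101 0.0000003101 0.0000003101 2.174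
    hβ hN hx1 hx2 hy1 hy2 (by norm_num) (by norm_num) (by linarith) (by norm_num) (by norm_num) (by norm_num) (by norm_num) (by norm_num) (by norm_num) (by norm_num) (by norm_num) (by norm_num) (by norm_num) (by norm_num) (by norm_num) (by norm_num) (by norm_num) (by norm_num) (by norm_num) (by norm_num) (by norm_num) (by norm_num) (by norm_num) (by norm_num)
    (cube_sqrt_geJ (s := 0.7589) (by norm_num) (by norm_num) (by norm_num) (by norm_num))
    (cube_sqrt_geJ (s := 0.9188) (by norm_num) (by norm_num) (by norm_num) (by norm_num))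
    (by norm_num) (by norm_num) (by norm_num) (by norm_num) (by norm_num) (by norm_num) (by norm_num) (by norm_num) (by norm_num) (by norm_num) (by norm_num) (by norm_num) (by norm_num) (by norm_num) (by norm_num) (by norm_num) (by norm_num) (by norm_num)
    (exp_neg_leJ (r := 0.293) 6 (by norm_num) (by norm_num) (by norm_num) (by norm_num))
    (exp_neg_leJ (r := 0.625) 3 (by norm_num) (by norm_num) (by norm_num) (by norm_num))
    (exp_neg_leJ (r := 0.879) 6 (by norm_num) (by norm_num) (by norm_num) (by norm_num))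
    (exp_neg_leJ (r := 0.99) 14 (by norm_num) (by norm_num) (by norm_num) (by norm_num))
    (exp_neg_leJ (r := 0.066) 7 (by norm_num) (by norm_num) (by norm_num) (by norm_num))
    (exp_neg_leJ (r := 0.99) 14 (by norm_num) (by norm_num) (by norm_num) (by norm_num))
    (exp_neg_leJ (r := 0.99) 14 (by norm_num) (by norm_num) (by norm_num) (by norm_num))
    (exp_neg_leJ (r := 0.99) 14 (by norm_num) (by norm_num) (by norm_num) (by norm_num))
    (by norm_num)) (by norm_num) hN hβ.le (by norm_num)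

private theorem dl13_b0_6 {β x y : ℝ} (hβ : 0 < β) (hN : β * 9.999 ≤ 1) (hx1 : 1.1808 ≤ x) (hx2 : x ≤ 1.4829)
    (hy1 : -0.436 ≤ y) (hy2 : y ≤ -0.251) : ‖HH β (x + y * I) - 1‖ ≤ 0.22 := by
  refine le_epsJ (C := 2.1516) (N0 := 9.999) (J_boxp 1.1808 1.4829 0.436 0 (-0.251) 1.2319 1.5457 1.6614 0.9428 0.5143 3.1622 9.999 1.2548 6.661 1.794 0.4473 0.6159 0.3583 0.7242 1.8613 0.6903 2.1349 2.7471 2.872 0.002117 0.02783 0.0007167 0.0000003101 0.001009 0.0000003101 0.0000003101 0.0000003101 2.1516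
    hβ hN hx1 hx2 hy1 hy2 (by norm_num) (by norm_num) (by linarith) (by norm_num) (by norm_num) (by norm_num) (by norm_num) (by norm_num) (by norm_num) (by norm_num) (by norm_num) (by norm_num) (by norm_num) (by norm_num) (by norm_num) (by norm_num) (by norm_num) (by norm_num) (by norm_num) (by norm_num) (by norm_num) (by norm_num) (by norm_num) (by norm_num)
    (cube_sqrt_geJ (s := 0.7627) (by norm_num) (by norm_num) (by norm_num) (by norm_num))
    (cube_sqrt_geJ (s := 0.9199) (by norm_num) (by norm_num) (by norm_num) (by norm_num))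
    (by norm_num) (by norm_num) (by norm_num) (by norm_num) (by norm_num) (by norm_num) (by norm_num) (by norm_num) (by norm_num) (by norm_num) (by norm_num) (by norm_num) (by norm_num) (by norm_num) (by norm_num) (by norm_num) (by norm_num) (by norm_num)
    (exp_neg_leJ (r := 0.158) 6 (by norm_num) (by norm_num) (by norm_num) (by norm_num))
    (exp_neg_leJ (r := 0.582) 3 (by norm_num) (by norm_num) (by norm_num) (by norm_num))
    (exp_neg_leJ (r := 0.241) 7 (by norm_num) (by norm_num) (by norm_num) (by norm_num))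
    (exp_neg_leJ (r := 0.99) 14 (by norm_num) (by norm_num) (by norm_num) (by norm_num))
    (exp_neg_leJ (r := 0.902) 6 (by norm_num) (by norm_num) (by norm_num) (by norm_num))
    (exp_neg_leJ (r := 0.99) 14 (by norm_num) (by norm_num) (by norm_num) (by norm_num))
    (exp_neg_leJ (r := 0.99) 14 (by norm_num) (by norm_num) (by norm_num) (by norm_num))
    (exp_neg_leJ (r := 0.99) 14 (by norm_num) (by norm_num) (by norm_num) (by norm_num))
    (by norm_num)) (by norm_num) hN hβ.le (by norm_num)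

private theorem dl13_b0_7 {β x y : ℝ} (hβ : 0 < β) (hN : β * 9.999 ≤ 1) (hx1 : 1.1539 ≤ x) (hx2 : x ≤ 1.3964)
    (hy1 : -0.371 ≤ y) (hy2 : y ≤ -0.217) : ‖HH β (x + y * I) - 1‖ ≤ 0.22 := by
  refine le_epsJ (C := 1.5209) (N0 := 9.999) (J_boxp 1.1539 1.3964 0.371 0 (-0.217) 1.2591 1.4449 1.601 0.8956 0.5048 3.1622 9.999 1.1476 5.407 1.7 0.5405 0.6295 0.3887 0.8176 2.1192 0.7128 2.0977 2.87 3.0922 0.001848 0.02058 0.0002817 0.0000003101 0.0008032 0.0000003101 0.0000003101 0.0000003101 1.5209
    hβ hN hx1 hx2 hy1 hy2 (by norm_num) (by norm_num) (by linarith) (by norm_num) (by norm_num) (by norm_num) (by norm_num) (by norm_num) (by norm_num) (by norm_num) (by norm_num) (by norm_num) (by norm_num) (by norm_num) (by norm_num) (by norm_num) (by norm_num) (by norm_num) (by norm_num) (by norm_num) (by norm_num) (by norm_num) (by norm_num) (by norm_num)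
    (cube_sqrt_geJ (s := 0.7857) (by norm_num) (by norm_num) (by norm_num) (by norm_num))
    (cube_sqrt_geJ (s := 0.927) (by norm_num) (by norm_num) (by norm_num) (by norm_num))
    (by norm_num) (by norm_num) (by norm_num) (by norm_num) (by norm_num) (by norm_num) (by norm_num) (by norm_num) (by norm_num) (by norm_num) (by norm_num) (by norm_num) (by norm_num) (by norm_num) (by norm_num) (by norm_num) (by norm_num) (by norm_num)
    (exp_neg_leJ (r := 0.294) 6 (by norm_num) (by norm_num) (by norm_num) (by norm_num))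
    (exp_neg_leJ (r := 0.886) 3 (by norm_num) (by norm_num) (by norm_num) (by norm_num))
    (exp_neg_leJ (r := 0.175) 8 (by norm_num) (by norm_num) (by norm_num) (by norm_num))
    (exp_neg_leJ (r := 0.99) 14 (by norm_num) (by norm_num) (by norm_num) (by norm_num))
    (exp_neg_leJ (r := 0.127) 7 (by norm_num) (by norm_num) (by norm_num) (by norm_num))
    (exp_neg_leJ (r := 0.99) 14 (by norm_num) (by norm_num) (by norm_num) (by norm_num))
    (exp_neg_leJ (r := 0.99) 14 (by norm_num) (by norm_num) (by norm_num) (by norm_num))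
    (exp_neg_leJ (r := 0.99) 14 (by norm_num) (by norm_num) (by norm_num) (by norm_num))
    (by norm_num)) (by norm_num) hN hβ.le (by norm_num)

private theorem dl13_c0 {κ t β : ℝ} (h : DomR κ t) (hβ : 0 < β) (hk1 : 0.95 ≤ κ) (hk2 : κ ≤ 1)
    (ht1 : -0.8169 ≤ t + κ) (ht2 : t + κ ≤ -0.5026) (hR0 : β * 10 ≤ κ) (hR : β * (3.3 * (1 + κ ^ 2)) ≤ κ) :
    ∀ s : ℂ, ‖s - sg κ t‖ ≤ 0.06 → ‖HH β s - 1‖ ≤ 0.22 := by
  have hN : β * 9.999 ≤ 1 := bNR hβ h.1 hk2 hR0 (by norm_num)
  have hy1 : -0.476 ≤ sy κ t := syL_ge h 0.95 1 0.8169 0.476 0.62126 0.62127 0.2918 0.29571 0.31129 hk1 hk2 (by linarith) (by norm_num) (by norm_num) (by norm_num)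
    (expm_ge (by norm_num) (by norm_num) (by norm_num) (by norm_num)) (expm_le (by norm_num) (by norm_num) (by norm_num)) (by norm_num)
    (by norm_num) (by norm_num) (by norm_num) (by norm_num) (by norm_num) (by norm_num)
  have hy2 : sy κ t ≤ -0.277 := syL_le h 0.95 1 0.5026 0.277 0.75805 0.75806 0.20997 0.22104 hk1 hk2 (by linarith) (by norm_num) (by norm_num) (by norm_num)
    (expm_ge (by norm_num) (by norm_num) (by norm_num) (by norm_num)) (expm_le (by norm_num) (by norm_num) (by norm_num)) (by norm_num)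
    (by norm_num) (by norm_num) (by norm_num) (by norm_num) (by norm_num) (by norm_num)
  intro s hs
  have hs' : ‖s - ((sx κ t : ℂ) + (sy κ t : ℂ) * I)‖ ≤ 0.06 := hs
  obtain ⟨es, ⟨s1, s2⟩, ⟨s3, s4⟩⟩ := disc_split hs'
  rcases le_total (sy κ t) (-0.471) with f0 | g0
  · have hx1 : 1.4451 ≤ sx κ t := sx_lo h 0.95 (-0.471) 0.476 1.60159 1.4451 hk1 (by norm_num) f0 (abs_le.2 ⟨by linarith, by linarith⟩) (by rw [neg_neg]; exact expn_ge (by norm_num) (by norm_num)) (by norm_num) (by norm_num)
    have hx2 : sx κ t ≤ 1.5392 := sx_hi h 1 (-0.476) 0.471 1.60963 1.5392 hk2 hy1 (by norm_num) (by rw [abs_of_nonpos (by linarith)]; linarith) (by rw [neg_neg]; exact expn_le (by norm_num) (by norm_num) (by norm_num)) (by norm_num) (by norm_num)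
    rw [es]
    exact dl13_b0_0 hβ hN (by linarith) (by linarith) (by linarith) (by linarith)
  rcases le_total (sy κ t) (-0.466) with f1 | g1
  · have hx1 : 1.4387 ≤ sx κ t := sx_lo h 0.95 (-0.466) 0.471 1.5936 1.4387 hk1 (by norm_num) f1 (abs_le.2 ⟨by linarith, by linarith⟩) (by rw [neg_neg]; exact expn_ge (by norm_num) (by norm_num)) (by norm_num) (by norm_num)
    have hx2 : sx κ t ≤ 1.5324 := sx_hi h 1 (-0.471) 0.466 1.6016 1.5324 hk2 g0 (by norm_num) (by rw [abs_of_nonpos (by linarith)]; linarith) (by rw [neg_neg]; exact expn_le (by norm_num) (by norm_num) (by norm_num)) (by norm_num) (by norm_num)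
    rw [es]
    exact dl13_b0_1 hβ hN (by linarith) (by linarith) (by linarith) (by linarith)
  rcases le_total (sy κ t) (-0.456) with f2 | g2
  · have hx1 : 1.4245 ≤ sx κ t := sx_lo h 0.95 (-0.456) 0.466 1.57774 1.4245 hk1 (by norm_num) f2 (abs_le.2 ⟨by linarith, by linarith⟩) (by rw [neg_neg]; exact expn_ge (by norm_num) (by norm_num)) (by norm_num) (by norm_num)
    have hx2 : sx κ t ≤ 1.527 := sx_hi h 1 (-0.466) 0.456 1.59361 1.527 hk2 g1 (by norm_num) (by rw [abs_of_nonpos (by linarith)]; linarith) (by rw [neg_neg]; exact expn_le (by norm_num) (by norm_num) (by norm_num)) (by norm_num) (by norm_num)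
    rw [es]
    exact dl13_b0_2 hβ hN (by linarith) (by linarith) (by linarith) (by linarith)
  rcases le_total (sy κ t) (-0.441) with f3 | g3
  · have hx1 : 1.4043 ≤ sx κ t := sx_lo h 0.95 (-0.441) 0.456 1.55426 1.4043 hk1 (by norm_num) f3 (abs_le.2 ⟨by linarith, by linarith⟩) (by rw [neg_neg]; exact expn_ge (by norm_num) (by norm_num)) (by norm_num) (by norm_num)
    have hx2 : sx κ t ≤ 1.5149 := sx_hi h 1 (-0.456) 0.441 1.57776 1.5149 hk2 g2 (by norm_num) (by rw [abs_of_nonpos (by linarith)]; linarith) (by rw [neg_neg]; exact expn_le (by norm_num) (by norm_num) (by norm_num)) (by norm_num) (by norm_num)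
    rw [es]
    exact dl13_b0_3 hβ hN (by linarith) (by linarith) (by linarith) (by linarith)
  rcases le_total (sy κ t) (-0.416) with f4 | g4
  · have hx1 : 1.3708 ≤ sx κ t := sx_lo h 0.95 (-0.416) 0.441 1.51588 1.3708 hk1 (by norm_num) f4 (abs_le.2 ⟨by linarith, by linarith⟩) (by rw [neg_neg]; exact expn_ge (by norm_num) (by norm_num)) (by norm_num) (by norm_num)
    have hx2 : sx κ t ≤ 1.4976 := sx_hi h 1 (-0.441) 0.416 1.55427 1.4976 hk2 g3 (by norm_num) (by rw [abs_of_nonpos (by linarith)]; linarith) (by rw [neg_neg]; exact expn_le (by norm_num) (by norm_num) (by norm_num)) (by norm_num) (by norm_num)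
    rw [es]
    exact dl13_b0_4 hβ hN (by linarith) (by linarith) (by linarith) (by linarith)
  rcases le_total (sy κ t) (-0.376) with f5 | g5
  · have hx1 : 1.3195 ≤ sx κ t := sx_lo h 0.95 (-0.376) 0.416 1.45644 1.3195 hk1 (by norm_num) f5 (abs_le.2 ⟨by linarith, by linarith⟩) (by rw [neg_neg]; exact expn_ge (by norm_num) (by norm_num)) (by norm_num) (by norm_num)
    have hx2 : sx κ t ≤ 1.4686 := sx_hi h 1 (-0.416) 0.376 1.51589 1.4686 hk2 g4 (by norm_num) (by rw [abs_of_nonpos (by linarith)]; linarith) (by rw [neg_neg]; exact expn_le (by norm_num) (by norm_num) (by norm_num)) (by norm_num) (by norm_num)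
    rw [es]
    exact dl13_b0_5 hβ hN (by linarith) (by linarith) (by linarith) (by linarith)
  rcases le_total (sy κ t) (-0.311) with f6 | g6
  · have hx1 : 1.2408 ≤ sx κ t := sx_lo h 0.95 (-0.311) 0.376 1.36478 1.2408 hk1 (by norm_num) f6 (abs_le.2 ⟨by linarith, by linarith⟩) (by rw [neg_neg]; exact expn_ge (by norm_num) (by norm_num)) (by norm_num) (by norm_num)
    have hx2 : sx κ t ≤ 1.4229 := sx_hi h 1 (-0.376) 0.311 1.45645 1.4229 hk2 g5 (by norm_num) (by rw [abs_of_nonpos (by linarith)]; linarith) (by rw [neg_neg]; exact expn_le (by norm_num) (by norm_num) (by norm_num)) (by norm_num) (by norm_num)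
    rw [es]
    exact dl13_b0_6 hβ hN (by linarith) (by linarith) (by linarith) (by linarith)
  have hx1 : 1.2139 ≤ sx κ t := sx_lo h 0.95 (-0.277) 0.311 1.31916 1.2139 hk1 (by norm_num) hy2 (abs_le.2 ⟨by linarith, by linarith⟩) (by rw [neg_neg]; exact expn_ge (by norm_num) (by norm_num)) (by norm_num) (by norm_num)
  have hx2 : sx κ t ≤ 1.3364 := sx_hi h 1 (-0.311) 0.277 1.36479 1.3364 hk2 g6 (by norm_num) (by rw [abs_of_nonpos (by linarith)]; linarith) (by rw [neg_neg]; exact expn_le (by norm_num) (by norm_num) (by norm_num)) (by norm_num) (by norm_num)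
  rw [es]
  exact dl13_b0_7 hβ hN (by linarith) (by linarith) (by linarith) (by linarith)

theorem dl13 {κ t β : ℝ} (h : DomR κ t) (hβ : 0 < β) (hk1 : 0.95 ≤ κ) (hk2 : κ ≤ 1)
    (ht1 : -0.8169 ≤ t + κ) (ht2 : t + κ ≤ -0.5026) (hR0 : β * 10 ≤ κ) (hR : β * (3.3 * (1 + κ ^ 2)) ≤ κ) :
    ∀ s : ℂ, ‖s - sg κ t‖ ≤ 0.06 → ‖HH β s - 1‖ ≤ 0.22 := by
  exact dl13_c0 h hβ hk1 hk2 ht1 ht2 hR0 hR

end Sok.B4
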