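import Pool.Agent.Lib.MP_816dec_an.R1B4T
import Pool.Agent.Lib.MP_816dec_an.R1B4Jc
import Pool.Agent.Lib.MP_816dec_an.R1B4Jd
import Pool.Agent.Lib.MP_816dec_an.R1B4Je

/-!
MP_816dec_an (A3, row R1, b = 4): slopes.
-/

set_option autoImplicit false
set_option maxHeartbeats 4000000

open Complex Set Filter Topology

namespace Sok.B4

private theorem hR33 {β κ : ℝ} (hβ : 0 < β) (hR0 : β * 10 ≤ κ) (hk0 : 0 < κ) (hk : κ ≤ 1) : β * (3.3 * (1 + κ ^ 2)) ≤ κ := by
  have h1 : 3.3 * (1 + κ ^ 2) ≤ 10 := by nlinarith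
  exact (mul_le_mul_of_nonneg_left h1 hβ.le).trans hR0

private theorem yl7 {κ t : ℝ} (h : DomR κ t) (hk1 : 0.6 ≤ κ) (hk2 : κ ≤ 0.65) (ht1 : (-0.8012) ≤ t + κ)
    (ht2 : t + κ ≤ (-0.534)) : -0.522 ≤ sy κ t ∧ sy κ t ≤ -0.301 := by
  have hy1 : -0.522 ≤ sy κ t := syL_ge h 0.6 0.65 0.8012 0.522 0.59333 0.59334 0.5128 0.47648 0.51621 hk1 hk2 (by linarith) (by norm_num) (by norm_num) (by norm_num)
    (expm_ge (by norm_num) (by norm_num) (by norm_num) (by norm_num)) (expm_le (by norm_num) (by norm_num) (by norm_num)) (by norm_num)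
    (by norm_num) (by norm_num) (by norm_num) (by norm_num) (by norm_num) (by norm_num)
  have hy2 : sy κ t ≤ -0.301 := syL_le h 0.6 0.65 0.534 0.301 0.74007 0.74008 0.3427 0.37128 hk1 hk2 (by linarith) (by norm_num) (by norm_num) (by norm_num)
    (expm_ge (by norm_num) (by norm_num) (by norm_num) (by norm_num)) (expm_le (by norm_num) (by norm_num) (by norm_num)) (by norm_num)
    (by norm_num) (by norm_num) (by norm_num) (by norm_num) (by norm_num) (by norm_num)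
  exact ⟨hy1, hy2⟩

private theorem yr7 {κ t : ℝ} (h : DomR κ t) (hk1 : 0.6 ≤ κ) (hk2 : κ ≤ 0.65) (ht1 : 0.7696 ≤ t + κ)
    (ht2 : t + κ ≤ 1.0368) : 0.248 ≤ sy κ t ∧ sy κ t ≤ 0.322 := by
  have hy1 : 0.248 ≤ sy κ t := syR_ge h 0.6 0.65 0.7696 0.248 1.28145 1.28146 0.48892 0.52968 hk1 hk2 (by linarith) (by norm_num) (by norm_num)
    (expn_ge (by norm_num) (by norm_num)) (expn_le (by norm_num) (by norm_num) (by norm_num)) (by norm_num)
    (by norm_num) (by norm_num) (by norm_num) (by norm_num) (by norm_num) (by norm_num)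
  have hy2 : sy κ t ≤ 0.322 := syR_le h 0.6 0.65 1.0368 0.322 1.37988 0.6693 0.68357 0.74055 hk1 hk2 (by linarith) (by norm_num) (by norm_num)
    (expn_ge (by norm_num) (by norm_num)) (by norm_num) (by norm_num) (Or.inr ((mul_le_mul_of_nonneg_left (expn_le (E := 1.37989) (by norm_num) (by norm_num) (by norm_num)) (by norm_num)).trans (by norm_num))) (by norm_num) (by norm_num) (by norm_num)
  exact ⟨hy1, hy2⟩

private theorem mm7 {κ t : ℝ} (d1 : DomR κ t) (d0 : DomR κ (t - Real.pi / 2)) (hk1 : 0.6 ≤ κ) (hk2 : κ ≤ 0.65)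
    (ht1 : 0.7696 ≤ t + κ) (ht2 : t + κ ≤ 1.0368) : 0.8433 ≤ sp κ t - sp κ (t - Real.pi / 2) := by
  have hpi := Real.pi_gt_d6
  have hpi2 := Real.pi_lt_d6
  have hχ := chi_box (κ := κ) 0.6 0.6 0.65 0.8565 d1.1.le hk1 hk2 (by norm_num) (by norm_num) (by norm_num) (by norm_num) (by norm_num)
  have hμ := mu_box (κ := κ) 0.4037 0.6 0.65 0.1572 hk1 hk2 (by norm_num) (by norm_num) (by norm_num) (by norm_num) (by norm_num) (by norm_num)
  rcases le_total (t + κ) 0.859 with f0 | g0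
  · refine M_piece (κ := κ) (t := t) 0.65 0.704 0.951 0.7696 0.859 0.8433 d1.1.le hk2 ?_ ?_ (by linarith) (by linarith) (by norm_num) (by norm_num) (by norm_num) (by norm_num)
    · exact spR_ge_box d1 0.704 0.6 (0.65 / (1 + 0.65 ^ 2)) 0.8565 0.1572 0.859 _ _ _ (by linarith) (by linarith) hk1 (psi_lo d1.1.le hk2 (by norm_num)) hχ hμ (by norm_num) (by norm_num) (by norm_num)
        rfl (by norm_num) rfl rfl (by norm_num) (by norm_num)
    · exact spL_ge_box d0 0.951 0.6 0.65 (0.65 / (1 + 0.65 ^ 2)) 0.8012 _ _ (by linarith) (by linarith) hk1 hk2 (psi_lo d0.1.le hk2 (by norm_num)) (by norm_num) (by norm_num)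
        rfl (by norm_num) rfl (by norm_num) (by norm_num) (by norm_num)
  rcases le_total (t + κ) 0.948 with f1 | g1
  · refine M_piece (κ := κ) (t := t) 0.65 0.68 0.962 0.858 0.948 0.8433 d1.1.le hk2 ?_ ?_ (by linarith) (by linarith) (by norm_num) (by norm_num) (by norm_num) (by norm_num)
    · exact spR_ge_box d1 0.68 0.6 (0.65 / (1 + 0.65 ^ 2)) 0.8565 0.1572 0.948 _ _ _ (by linarith) (by linarith) hk1 (psi_lo d1.1.le hk2 (by norm_num)) hχ hμ (by norm_num) (by norm_num) (by norm_num)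
        rfl (by norm_num) rfl rfl (by norm_num) (by norm_num)
    · exact spL_ge_box d0 0.962 0.6 0.65 (0.65 / (1 + 0.65 ^ 2)) 0.7128 _ _ (by linarith) (by linarith) hk1 hk2 (psi_lo d0.1.le hk2 (by norm_num)) (by norm_num) (by norm_num)
        rfl (by norm_num) rfl (by norm_num) (by norm_num) (by norm_num)
  refine M_piece (κ := κ) (t := t) 0.65 0.657 0.971 0.947 1.0368 0.8433 d1.1.le hk2 ?_ ?_ (by linarith) (by linarith) (by norm_num) (by norm_num) (by norm_num) (by norm_num)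
  · exact spR_ge_box d1 0.657 0.6 (0.65 / (1 + 0.65 ^ 2)) 0.8565 0.1572 1.0368 _ _ _ (by linarith) (by linarith) hk1 (psi_lo d1.1.le hk2 (by norm_num)) hχ hμ (by norm_num) (by norm_num) (by norm_num)
      rfl (by norm_num) rfl rfl (by norm_num) (by norm_num)
  · exact spL_ge_box d0 0.971 0.6 0.65 (0.65 / (1 + 0.65 ^ 2)) 0.6238 _ _ (by linarith) (by linarith) hk1 hk2 (psi_lo d0.1.le hk2 (by norm_num)) (by norm_num) (by norm_num)
      rfl (by norm_num) rfl (by norm_num) (by norm_num) (by norm_num)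

theorem slp7 {β r κ t : ℝ} (hβ : 0 < β) (hr : 10 ≤ r) (hκ : κ = β * r) (hk1 : 0.6 ≤ κ) (hk2 : κ ≤ 0.65)
    (ht1 : 0.49 * (Real.pi / 2) ≤ t + κ) (ht2 : t + κ ≤ 0.66 * (Real.pi / 2)) : SL β r 2.416 0.8297 0.1208 t := by
  have hpi := Real.pi_gt_d6
  have hpi2 := Real.pi_lt_d6
  have he1 := Real.exp_neg_one_lt_d9
  have hR0 : β * 10 ≤ κ := by rw [hκ]; exact mul_le_mul_of_nonneg_left hr hβ.le
  have hk0 : 0 < κ := by linarith
  have d1 : DomR κ t := ⟨hk0, by linarith, Or.inr (by linarith)⟩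
  have d0 : DomR κ (t - Real.pi / 2) := ⟨hk0, by linarith, Or.inr (by linarith)⟩
  have a1 : 0.7696 ≤ t + κ := by linarith
  have a2 : t + κ ≤ 1.0368 := by linarith
  have b1 : (-0.8012) ≤ t - Real.pi / 2 + κ := by linarith
  have b2 : t - Real.pi / 2 + κ ≤ (-0.534) := by linarith
  have hR := hR33 hβ hR0 hk0 (by linarith)
  have Jl := dl6 d0 hβ (by linarith) (by linarith) (by linarith) (by linarith) hR0 hR
  have Jr := dr6 d1 hβ (by linarith) (by linarith) (by linarith) (by linarith) hR0 hR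
  obtain ⟨y1, y2⟩ := yl7 d0 hk1 hk2 b1 b2
  obtain ⟨z1, z2⟩ := yr7 d1 hk1 hk2 a1 a2
  have hM := mm7 d1 d0 hk1 hk2 a1 a2
  have hE0 : Real.exp (-(-0.522)) ≤ 1.6854 := by rw [neg_neg]; exact (expn_le (by norm_num) (by norm_num) (by norm_num))
  have hEr : Real.exp (-0.248) ≤ 0.78036 := (expm_le (by norm_num) (by norm_num) (by norm_num))
  have hA0 := A_ge d0 0.6 0.522 1.032 hk1 y1 (by norm_num) (by norm_num) (by norm_num) (by norm_num)
  have hA1 := A_lt d1 0.65 0.248 0.78036 0.384 hk2 z1 hEr (by norm_num) (by norm_num) (by norm_num)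
  have hd0 : 0.888 ≤ sD κ (t - Real.pi / 2) := sD_ge3 d0 0.6 0.65 0.522 _ hk1 hk2 (by linarith) y1 (by norm_num) (by norm_num) (by norm_num) (by norm_num)
  have hd1 : 1.36 ≤ sD κ t := sD_geR d1 0.6 _ hk1 (by linarith) (by linarith) (by norm_num) (by norm_num)
  have F0 := LD_facts (t := t - Real.pi / 2) 0.06 0.28 1.032 6.4815 0.6169 (-0.522) 1.6854 2.416 hβ hr hκ d0 (fun s hs => ⟨im_gt hs y1 (by norm_num), Jl s hs⟩) hA0 y1 hE0
    (C_of 0.65 1.6854 0.6169 0.888 hk2 (by norm_num) hd0 (by norm_num) (by norm_num)) (by norm_num) (by norm_num) (by norm_num) (by norm_num) (by norm_num) (by norm_num) (by norm_num)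
  have z0 : -0 ≤ sy κ t := by linarith
  have F1 := LD_facts (t := t) 0.08 0.06 0.384 0.7979 0.1865 0.248 0.78036 0.8297 hβ hr hκ d1 (fun s hs => ⟨im_gt hs z0 (by norm_num), Jr s hs⟩) hA1 z1 hEr
    (C_of 0.65 0.78036 0.1865 1.36 hk2 (by norm_num) hd1 (by norm_num) (by norm_num)) (by norm_num) (by norm_num) (by norm_num) (by norm_num) (by norm_num) (by norm_num) (by norm_num)
  have hEl : 1.3512 ≤ Real.exp (-(-0.301)) := by rw [neg_neg]; exact (expn_ge (by norm_num) (by norm_num))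
  have hN := N_ge (κ := κ) (t := t - Real.pi / 2) 0.6 (-0.301) 1.3512 0.65726 (by norm_num) hk1 y2 hEl (by norm_num) (by norm_num)
  have hx0 : sx κ (t - Real.pi / 2) ≤ 1.0534 := sx_hi d0 0.65 (-0.522) 0.301 1.6854 _ hk2 y1 (by norm_num) (by rw [abs_of_nonpos (by linarith)]; linarith) hE0 (by norm_num) (by norm_num)
  have hG0 := gs_le d0 0.65726 1.0534 0.888 0.229 hN (by norm_num) hx0 hd0 (by norm_num) (by norm_num) (by norm_num)
  have hG1 : (0 : ℝ) ≤ gs κ t := gs_nonneg d1 (by linarith) (by linarith)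
  exact SL_of (κ := κ) 6.689 0.3064 0.229 0 0.8433 2.416 0.8297 0.1208 hr ⟨F0.1, F0.2.1, F0.2.2.trans (by norm_num)⟩ ⟨F1.1, F1.2.1, F1.2.2.trans (by norm_num)⟩ hG0 hG1 hM
    (by norm_num) (by norm_num)

private theorem yl8 {κ t : ℝ} (h : DomR κ t) (hk1 : 0.65 ≤ κ) (hk2 : κ ≤ 0.7) (ht1 : (-0.8012) ≤ t + κ)
    (ht2 : t + κ ≤ (-0.534)) : -0.52 ≤ sy κ t ∧ sy κ t ≤ -0.307 := by
  have hy1 : -0.52 ≤ sy κ t := syL_ge h 0.65 0.7 0.8012 0.52 0.59452 0.59453 0.4558 0.44164 0.47563 hk1 hk2 (by linarith) (by norm_num) (by norm_num) (by norm_num)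
    (expm_ge (by norm_num) (by norm_num) (by norm_num) (by norm_num)) (expm_le (by norm_num) (by norm_num) (by norm_num)) (by norm_num)
    (by norm_num) (by norm_num) (by norm_num) (by norm_num) (by norm_num) (by norm_num)
  have hy2 : sy κ t ≤ -0.307 := syL_le h 0.65 0.7 0.534 0.307 0.73565 0.73566 0.32263 0.34746 hk1 hk2 (by linarith) (by norm_num) (by norm_num) (by norm_num)
    (expm_ge (by norm_num) (by norm_num) (by norm_num) (by norm_num)) (expm_le (by norm_num) (by norm_num) (by norm_num)) (by norm_num)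
    (by norm_num) (by norm_num) (by norm_num) (by norm_num) (by norm_num) (by norm_num)
  exact ⟨hy1, hy2⟩

private theorem yr8 {κ t : ℝ} (h : DomR κ t) (hk1 : 0.65 ≤ κ) (hk2 : κ ≤ 0.7) (ht1 : 0.7696 ≤ t + κ)
    (ht2 : t + κ ≤ 1.0368) : 0.259 ≤ sy κ t ∧ sy κ t ≤ 0.334 := by
  have hy1 : 0.259 ≤ sy κ t := syR_ge h 0.65 0.7 0.7696 0.259 1.29563 1.29564 0.47938 0.51627 hk1 hk2 (by linarith) (by norm_num) (by norm_num)
    (expn_ge (by norm_num) (by norm_num)) (expn_le (by norm_num) (by norm_num) (by norm_num)) (by norm_num)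
    (by norm_num) (by norm_num) (by norm_num) (by norm_num) (by norm_num) (by norm_num)
  have hy2 : sy κ t ≤ 0.334 := syR_le h 0.65 0.7 1.0368 0.334 1.39654 0.6535 0.66634 0.71762 hk1 hk2 (by linarith) (by norm_num) (by norm_num)
    (expn_ge (by norm_num) (by norm_num)) (by norm_num) (by norm_num) (Or.inr ((mul_le_mul_of_nonneg_left (expn_le (E := 1.39655) (by norm_num) (by norm_num) (by norm_num)) (by norm_num)).trans (by norm_num))) (by norm_num) (by norm_num) (by norm_num)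
  exact ⟨hy1, hy2⟩

private theorem mm8 {κ t : ℝ} (d1 : DomR κ t) (d0 : DomR κ (t - Real.pi / 2)) (hk1 : 0.65 ≤ κ) (hk2 : κ ≤ 0.7)
    (ht1 : 0.7696 ≤ t + κ) (ht2 : t + κ ≤ 1.0368) : 0.8107 ≤ sp κ t - sp κ (t - Real.pi / 2) := by
  have hpi := Real.pi_gt_d6
  have hpi2 := Real.pi_lt_d6
  have hχ := chi_box (κ := κ) 0.65 0.65 0.7 0.828 d1.1.le hk1 hk2 (by norm_num) (by norm_num) (by norm_num) (by norm_num) (by norm_num)
  have hμ := mu_box (κ := κ) 0.4764 0.65 0.7 0.1603 hk1 hk2 (by norm_num) (by norm_num) (by norm_num) (by norm_num) (by norm_num) (by norm_num)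
  rcases le_total (t + κ) 0.859 with f0 | g0
  · refine M_piece (κ := κ) (t := t) 0.7 0.71 0.957 0.7696 0.859 0.8107 d1.1.le hk2 ?_ ?_ (by linarith) (by linarith) (by norm_num) (by norm_num) (by norm_num) (by norm_num)
    · exact spR_ge_box d1 0.71 0.65 (0.7 / (1 + 0.7 ^ 2)) 0.828 0.1603 0.859 _ _ _ (by linarith) (by linarith) hk1 (psi_lo d1.1.le hk2 (by norm_num)) hχ hμ (by norm_num) (by norm_num) (by norm_num)
        rfl (by norm_num) rfl rfl (by norm_num) (by norm_num)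
    · exact spL_ge_box d0 0.957 0.65 0.7 (0.7 / (1 + 0.7 ^ 2)) 0.8012 _ _ (by linarith) (by linarith) hk1 hk2 (psi_lo d0.1.le hk2 (by norm_num)) (by norm_num) (by norm_num)
        rfl (by norm_num) rfl (by norm_num) (by norm_num) (by norm_num)
  rcases le_total (t + κ) 0.948 with f1 | g1
  · refine M_piece (κ := κ) (t := t) 0.7 0.686 0.967 0.858 0.948 0.8107 d1.1.le hk2 ?_ ?_ (by linarith) (by linarith) (by norm_num) (by norm_num) (by norm_num) (by norm_num)
    · exact spR_ge_box d1 0.686 0.65 (0.7 / (1 + 0.7 ^ 2)) 0.828 0.1603 0.948 _ _ _ (by linarith) (by linarith) hk1 (psi_lo d1.1.le hk2 (by norm_num)) hχ hμ (by norm_num) (by norm_num) (by norm_num)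
        rfl (by norm_num) rfl rfl (by norm_num) (by norm_num)
    · exact spL_ge_box d0 0.967 0.65 0.7 (0.7 / (1 + 0.7 ^ 2)) 0.7128 _ _ (by linarith) (by linarith) hk1 hk2 (psi_lo d0.1.le hk2 (by norm_num)) (by norm_num) (by norm_num)
        rfl (by norm_num) rfl (by norm_num) (by norm_num) (by norm_num)
  refine M_piece (κ := κ) (t := t) 0.7 0.663 0.975 0.947 1.0368 0.8107 d1.1.le hk2 ?_ ?_ (by linarith) (by linarith) (by norm_num) (by norm_num) (by norm_num) (by norm_num)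
  · exact spR_ge_box d1 0.663 0.65 (0.7 / (1 + 0.7 ^ 2)) 0.828 0.1603 1.0368 _ _ _ (by linarith) (by linarith) hk1 (psi_lo d1.1.le hk2 (by norm_num)) hχ hμ (by norm_num) (by norm_num) (by norm_num)
      rfl (by norm_num) rfl rfl (by norm_num) (by norm_num)
  · exact spL_ge_box d0 0.975 0.65 0.7 (0.7 / (1 + 0.7 ^ 2)) 0.6238 _ _ (by linarith) (by linarith) hk1 hk2 (psi_lo d0.1.le hk2 (by norm_num)) (by norm_num) (by norm_num)
      rfl (by norm_num) rfl (by norm_num) (by norm_num) (by norm_num)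

theorem slp8 {β r κ t : ℝ} (hβ : 0 < β) (hr : 10 ≤ r) (hκ : κ = β * r) (hk1 : 0.65 ≤ κ) (hk2 : κ ≤ 0.7)
    (ht1 : 0.49 * (Real.pi / 2) ≤ t + κ) (ht2 : t + κ ≤ 0.66 * (Real.pi / 2)) : SL β r 2.4025 0.823 0.1029 t := by
  have hpi := Real.pi_gt_d6
  have hpi2 := Real.pi_lt_d6
  have he1 := Real.exp_neg_one_lt_d9
  have hR0 : β * 10 ≤ κ := by rw [hκ]; exact mul_le_mul_of_nonneg_left hr hβ.le
  have hk0 : 0 < κ := by linarith
  have d1 : DomR κ t := ⟨hk0, by linarith, Or.inl (by linarith)⟩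
  have d0 : DomR κ (t - Real.pi / 2) := ⟨hk0, by linarith, Or.inl (by linarith)⟩
  have a1 : 0.7696 ≤ t + κ := by linarith
  have a2 : t + κ ≤ 1.0368 := by linarith
  have b1 : (-0.8012) ≤ t - Real.pi / 2 + κ := by linarith
  have b2 : t - Real.pi / 2 + κ ≤ (-0.534) := by linarith
  have hR := hR33 hβ hR0 hk0 (by linarith)
  have Jl := dl7 d0 hβ (by linarith) (by linarith) (by linarith) (by linarith) hR0 hR
  have Jr := dr7 d1 hβ (by linarith) (by linarith) (by linarith) (by linarith) hR0 hR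
  obtain ⟨y1, y2⟩ := yl8 d0 hk1 hk2 b1 b2
  obtain ⟨z1, z2⟩ := yr8 d1 hk1 hk2 a1 a2
  have hM := mm8 d1 d0 hk1 hk2 a1 a2
  have hE0 : Real.exp (-(-0.52)) ≤ 1.68203 := by rw [neg_neg]; exact (expn_le (by norm_num) (by norm_num) (by norm_num))
  have hEr : Real.exp (-0.259) ≤ 0.77183 := (expm_le (by norm_num) (by norm_num) (by norm_num))
  have hA0 := A_ge d0 0.65 0.52 1.025 hk1 y1 (by norm_num) (by norm_num) (by norm_num) (by norm_num)
  have hA1 := A_lt d1 0.7 0.259 0.77183 0.402 hk2 z1 hEr (by norm_num) (by norm_num) (by norm_num)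
  have hd0 : 1.0503 ≤ sD κ (t - Real.pi / 2) := sD_ge3 d0 0.65 0.7 0.52 _ hk1 hk2 (by linarith) y1 (by norm_num) (by norm_num) (by norm_num) (by norm_num)
  have hd1 : 1.4225 ≤ sD κ t := sD_geR d1 0.65 _ hk1 (by linarith) (by linarith) (by norm_num) (by norm_num)
  have F0 := LD_facts (t := t - Real.pi / 2) 0.06 0.28 1.025 6.4815 0.5606 (-0.52) 1.68203 2.4025 hβ hr hκ d0 (fun s hs => ⟨im_gt hs y1 (by norm_num), Jl s hs⟩) hA0 y1 hE0
    (C_of 0.7 1.68203 0.5606 1.0503 hk2 (by norm_num) hd0 (by norm_num) (by norm_num)) (by norm_num) (by norm_num) (by norm_num) (by norm_num) (by norm_num) (by norm_num) (by norm_num)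
  have z0 : -0 ≤ sy κ t := by linarith
  have F1 := LD_facts (t := t) 0.08 0.06 0.402 0.7979 0.19 0.259 0.77183 0.823 hβ hr hκ d1 (fun s hs => ⟨im_gt hs z0 (by norm_num), Jr s hs⟩) hA1 z1 hEr
    (C_of 0.7 0.77183 0.19 1.4225 hk2 (by norm_num) hd1 (by norm_num) (by norm_num)) (by norm_num) (by norm_num) (by norm_num) (by norm_num) (by norm_num) (by norm_num) (by norm_num)
  have hEl : 1.35934 ≤ Real.exp (-(-0.307)) := by rw [neg_neg]; exact (expn_ge (by norm_num) (by norm_num))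
  have hN := N_ge (κ := κ) (t := t - Real.pi / 2) 0.65 (-0.307) 1.35934 0.78069 (by norm_num) hk1 y2 hEl (by norm_num) (by norm_num)
  have hx0 : sx κ (t - Real.pi / 2) ≤ 1.1367 := sx_hi d0 0.7 (-0.52) 0.307 1.68203 _ hk2 y1 (by norm_num) (by rw [abs_of_nonpos (by linarith)]; linarith) hE0 (by norm_num) (by norm_num)
  have hG0 := gs_le d0 0.78069 1.1367 1.0503 0.113 hN (by norm_num) hx0 hd0 (by norm_num) (by norm_num) (by norm_num)
  have hG1 : (0 : ℝ) ≤ gs κ t := gs_nonneg d1 (by linarith) (by linarith)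
  exact SL_of (κ := κ) 6.6436 0.3208 0.113 0 0.8107 2.4025 0.823 0.1029 hr ⟨F0.1, F0.2.1, F0.2.2.trans (by norm_num)⟩ ⟨F1.1, F1.2.1, F1.2.2.trans (by norm_num)⟩ hG0 hG1 hM
    (by norm_num) (by norm_num)

end Sok.B4
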