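import Pool.Agent.Lib.MP_816dec_an.R1B4T
import Pool.Agent.Lib.MP_816dec_an.R1B4Jc
import Pool.Agent.Lib.MP_816dec_an.R1B4Jd
import Pool.Agent.Lib.MP_816dec_an.R1B4Je

/-!
MP_816dec_an (A3, row R1, b = 4): slopes.
-/

set_option autoImplicit false
set_option maxHeartbeats 4000000

open Complex Set Filter Topology

namespace Sok.B4

private theorem hR33 {β κ : ℝ} (hβ : 0 < β) (hR0 : β * 10 ≤ κ) (hk0 : 0 < κ) (hk : κ ≤ 1) : β * (3.3 * (1 + κ ^ 2)) ≤ κ := by
  have h1 : 3.3 * (1 + κ ^ 2) ≤ 10 := by nlinarith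
  exact (mul_le_mul_of_nonneg_left h1 hβ.le).trans hR0

private theorem yl9 {κ t : ℝ} (h : DomR κ t) (hk1 : 0.7 ≤ κ) (hk2 : κ ≤ 0.75) (ht1 : (-0.8012) ≤ t + κ)
    (ht2 : t + κ ≤ (-0.534)) : -0.514 ≤ sy κ t ∧ sy κ t ≤ -0.31 := by
  have hy1 : -0.514 ≤ sy κ t := syL_ge h 0.7 0.75 0.8012 0.514 0.59809 0.5981 0.4196 0.40989 0.43918 hk1 hk2 (by linarith) (by norm_num) (by norm_num) (by norm_num)
    (expm_ge (by norm_num) (by norm_num) (by norm_num) (by norm_num)) (expm_le (by norm_num) (by norm_num) (by norm_num)) (by norm_num)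
    (by norm_num) (by norm_num) (by norm_num) (by norm_num) (by norm_num) (by norm_num)
  have hy2 : sy κ t ≤ -0.31 := syL_le h 0.7 0.75 0.534 0.31 0.73344 0.73345 0.30315 0.32482 hk1 hk2 (by linarith) (by norm_num) (by norm_num) (by norm_num)
    (expm_ge (by norm_num) (by norm_num) (by norm_num) (by norm_num)) (expm_le (by norm_num) (by norm_num) (by norm_num)) (by norm_num)
    (by norm_num) (by norm_num) (by norm_num) (by norm_num) (by norm_num) (by norm_num)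
  exact ⟨hy1, hy2⟩

private theorem yr9 {κ t : ℝ} (h : DomR κ t) (hk1 : 0.7 ≤ κ) (hk2 : κ ≤ 0.75) (ht1 : 0.7696 ≤ t + κ)
    (ht2 : t + κ ≤ 1.0368) : 0.269 ≤ sy κ t ∧ sy κ t ≤ 0.345 := by
  have hy1 : 0.269 ≤ sy κ t := syR_ge h 0.7 0.75 0.7696 0.269 1.30865 1.30866 0.46936 0.5029 hk1 hk2 (by linarith) (by norm_num) (by norm_num)
    (expn_ge (by norm_num) (by norm_num)) (expn_le (by norm_num) (by norm_num) (by norm_num)) (by norm_num)
    (by norm_num) (by norm_num) (by norm_num) (by norm_num) (by norm_num) (by norm_num)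
  have hy2 : sy κ t ≤ 0.345 := syR_le h 0.7 0.75 1.0368 0.345 1.41198 0.6379 0.64951 0.69591 hk1 hk2 (by linarith) (by norm_num) (by norm_num)
    (expn_ge (by norm_num) (by norm_num)) (by norm_num) (by norm_num) (Or.inr ((mul_le_mul_of_nonneg_left (expn_le (E := 1.41199) (by norm_num) (by norm_num) (by norm_num)) (by norm_num)).trans (by norm_num))) (by norm_num) (by norm_num) (by norm_num)
  exact ⟨hy1, hy2⟩

private theorem mm9 {κ t : ℝ} (d1 : DomR κ t) (d0 : DomR κ (t - Real.pi / 2)) (hk1 : 0.7 ≤ κ) (hk2 : κ ≤ 0.75)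
    (ht1 : 0.7696 ≤ t + κ) (ht2 : t + κ ≤ 1.0368) : 0.7794 ≤ sp κ t - sp κ (t - Real.pi / 2) := by
  have hpi := Real.pi_gt_d6
  have hpi2 := Real.pi_lt_d6
  have hχ := chi_box (κ := κ) 0.7 0.7 0.75 0.7915 d1.1.le hk1 hk2 (by norm_num) (by norm_num) (by norm_num) (by norm_num) (by norm_num)
  have hμ := mu_box (κ := κ) 0.5552 0.7 0.75 0.1613 hk1 hk2 (by norm_num) (by norm_num) (by norm_num) (by norm_num) (by norm_num) (by norm_num)
  rcases le_total (t + κ) 0.859 with f0 | g0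
  · refine M_piece (κ := κ) (t := t) 0.75 0.718 0.963 0.7696 0.859 0.7794 d1.1.le hk2 ?_ ?_ (by linarith) (by linarith) (by norm_num) (by norm_num) (by norm_num) (by norm_num)
    · exact spR_ge_box d1 0.718 0.7 (0.75 / (1 + 0.75 ^ 2)) 0.7915 0.1613 0.859 _ _ _ (by linarith) (by linarith) hk1 (psi_lo d1.1.le hk2 (by norm_num)) hχ hμ (by norm_num) (by norm_num) (by norm_num)
        rfl (by norm_num) rfl rfl (by norm_num) (by norm_num)
    · exact spL_ge_box d0 0.963 0.7 0.75 (0.75 / (1 + 0.75 ^ 2)) 0.8012 _ _ (by linarith) (by linarith) hk1 hk2 (psi_lo d0.1.le hk2 (by norm_num)) (by norm_num) (by norm_num)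
        rfl (by norm_num) rfl (by norm_num) (by norm_num) (by norm_num)
  rcases le_total (t + κ) 0.948 with f1 | g1
  · refine M_piece (κ := κ) (t := t) 0.75 0.694 0.971 0.858 0.948 0.7794 d1.1.le hk2 ?_ ?_ (by linarith) (by linarith) (by norm_num) (by norm_num) (by norm_num) (by norm_num)
    · exact spR_ge_box d1 0.694 0.7 (0.75 / (1 + 0.75 ^ 2)) 0.7915 0.1613 0.948 _ _ _ (by linarith) (by linarith) hk1 (psi_lo d1.1.le hk2 (by norm_num)) hχ hμ (by norm_num) (by norm_num) (by norm_num)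
        rfl (by norm_num) rfl rfl (by norm_num) (by norm_num)
    · exact spL_ge_box d0 0.971 0.7 0.75 (0.75 / (1 + 0.75 ^ 2)) 0.7128 _ _ (by linarith) (by linarith) hk1 hk2 (psi_lo d0.1.le hk2 (by norm_num)) (by norm_num) (by norm_num)
        rfl (by norm_num) rfl (by norm_num) (by norm_num) (by norm_num)
  refine M_piece (κ := κ) (t := t) 0.75 0.671 0.978 0.947 1.0368 0.7794 d1.1.le hk2 ?_ ?_ (by linarith) (by linarith) (by norm_num) (by norm_num) (by norm_num) (by norm_num)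
  · exact spR_ge_box d1 0.671 0.7 (0.75 / (1 + 0.75 ^ 2)) 0.7915 0.1613 1.0368 _ _ _ (by linarith) (by linarith) hk1 (psi_lo d1.1.le hk2 (by norm_num)) hχ hμ (by norm_num) (by norm_num) (by norm_num)
      rfl (by norm_num) rfl rfl (by norm_num) (by norm_num)
  · exact spL_ge_box d0 0.978 0.7 0.75 (0.75 / (1 + 0.75 ^ 2)) 0.6238 _ _ (by linarith) (by linarith) hk1 hk2 (psi_lo d0.1.le hk2 (by norm_num)) (by norm_num) (by norm_num)
      rfl (by norm_num) rfl (by norm_num) (by norm_num) (by norm_num)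

theorem slp9 {β r κ t : ℝ} (hβ : 0 < β) (hr : 10 ≤ r) (hκ : κ = β * r) (hk1 : 0.7 ≤ κ) (hk2 : κ ≤ 0.75)
    (ht1 : 0.49 * (Real.pi / 2) ≤ t + κ) (ht2 : t + κ ≤ 0.66 * (Real.pi / 2)) : SL β r 2.2871 0.823 0.1723 t := by
  have hpi := Real.pi_gt_d6
  have hpi2 := Real.pi_lt_d6
  have he1 := Real.exp_neg_one_lt_d9
  have hR0 : β * 10 ≤ κ := by rw [hκ]; exact mul_le_mul_of_nonneg_left hr hβ.le
  have hk0 : 0 < κ := by linarith
  have d1 : DomR κ t := ⟨hk0, by linarith, Or.inl (by linarith)⟩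
  have d0 : DomR κ (t - Real.pi / 2) := ⟨hk0, by linarith, Or.inl (by linarith)⟩
  have a1 : 0.7696 ≤ t + κ := by linarith
  have a2 : t + κ ≤ 1.0368 := by linarith
  have b1 : (-0.8012) ≤ t - Real.pi / 2 + κ := by linarith
  have b2 : t - Real.pi / 2 + κ ≤ (-0.534) := by linarith
  have hR := hR33 hβ hR0 hk0 (by linarith)
  have Jl := dl8 d0 hβ (by linarith) (by linarith) (by linarith) (by linarith) hR0 hR
  have Jr := dr8 d1 hβ (by linarith) (by linarith) (by linarith) (by linarith) hR0 hR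
  obtain ⟨y1, y2⟩ := yl9 d0 hk1 hk2 b1 b2
  obtain ⟨z1, z2⟩ := yr9 d1 hk1 hk2 a1 a2
  have hM := mm9 d1 d0 hk1 hk2 a1 a2
  have hE0 : Real.exp (-(-0.514)) ≤ 1.67197 := by rw [neg_neg]; exact (expn_le (by norm_num) (by norm_num) (by norm_num))
  have hEr : Real.exp (-0.269) ≤ 0.76415 := (expm_le (by norm_num) (by norm_num) (by norm_num))
  have hA0 := A_ge d0 0.7 0.514 1.015 hk1 y1 (by norm_num) (by norm_num) (by norm_num) (by norm_num)
  have hA1 := A_lt d1 0.75 0.269 0.76415 0.42 hk2 z1 hEr (by norm_num) (by norm_num) (by norm_num)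
  have hd0 : 1.2245 ≤ sD κ (t - Real.pi / 2) := sD_ge4 d0 0.7 _ hk1 (by linarith) (by norm_num) (by norm_num)
  have hd1 : 1.49 ≤ sD κ t := sD_geR d1 0.7 _ hk1 (by linarith) (by linarith) (by norm_num) (by norm_num)
  have F0 := LD_facts (t := t - Real.pi / 2) 0.06 0.25 1.015 5.5556 0.5121 (-0.514) 1.67197 2.2871 hβ hr hκ d0 (fun s hs => ⟨im_gt hs y1 (by norm_num), Jl s hs⟩) hA0 y1 hE0
    (C_of 0.75 1.67197 0.5121 1.2245 hk2 (by norm_num) hd0 (by norm_num) (by norm_num)) (by norm_num) (by norm_num) (by norm_num) (by norm_num) (by norm_num) (by norm_num) (by norm_num)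
  have z0 : -0 ≤ sy κ t := by linarith
  have F1 := LD_facts (t := t) 0.08 0.07 0.42 0.9409 0.1924 0.269 0.76415 0.823 hβ hr hκ d1 (fun s hs => ⟨im_gt hs z0 (by norm_num), Jr s hs⟩) hA1 z1 hEr
    (C_of 0.75 0.76415 0.1924 1.49 hk2 (by norm_num) hd1 (by norm_num) (by norm_num)) (by norm_num) (by norm_num) (by norm_num) (by norm_num) (by norm_num) (by norm_num) (by norm_num)
  have hEl : 1.36342 ≤ Real.exp (-(-0.31)) := by rw [neg_neg]; exact (expn_ge (by norm_num) (by norm_num))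
  have hN := N_ge (κ := κ) (t := t - Real.pi / 2) 0.7 (-0.31) 1.36342 0.91086 (by norm_num) hk1 y2 hEl (by norm_num) (by norm_num)
  have hx0 : sx κ (t - Real.pi / 2) ≤ 1.2151 := sx_hi d0 0.75 (-0.514) 0.31 1.67197 _ hk2 y1 (by norm_num) (by rw [abs_of_nonpos (by linarith)]; linarith) hE0 (by norm_num) (by norm_num)
  have hG0 := gs_le d0 0.91086 1.2151 1.2245 0.0362 hN (by norm_num) hx0 hd0 (by norm_num) (by norm_num) (by norm_num)
  have hG1 : (0 : ℝ) ≤ gs κ t := gs_nonneg d1 (by linarith) (by linarith)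
  exact SL_of (κ := κ) 5.639 0.3952 0.0362 0 0.7794 2.2871 0.823 0.1723 hr ⟨F0.1, F0.2.1, F0.2.2.trans (by norm_num)⟩ ⟨F1.1, F1.2.1, F1.2.2.trans (by norm_num)⟩ hG0 hG1 hM
    (by norm_num) (by norm_num)

private theorem yl10 {κ t : ℝ} (h : DomR κ t) (hk1 : 0.75 ≤ κ) (hk2 : κ ≤ 0.8) (ht1 : (-0.8012) ≤ t + κ)
    (ht2 : t + κ ≤ (-0.534)) : -0.506 ≤ sy κ t ∧ sy κ t ≤ -0.309 := by
  have hy1 : -0.506 ≤ sy κ t := syL_ge h 0.75 0.8 0.8012 0.506 0.6029 0.60291 0.3855 0.38133 0.40677 hk1 hk2 (by linarith) (by norm_num) (by norm_num) (by norm_num)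
    (expm_ge (by norm_num) (by norm_num) (by norm_num) (by norm_num)) (expm_le (by norm_num) (by norm_num) (by norm_num)) (by norm_num)
    (by norm_num) (by norm_num) (by norm_num) (by norm_num) (by norm_num) (by norm_num)
  have hy2 : sy κ t ≤ -0.309 := syL_le h 0.75 0.8 0.534 0.309 0.73418 0.73419 0.28357 0.30249 hk1 hk2 (by linarith) (by norm_num) (by norm_num) (by norm_num)
    (expm_ge (by norm_num) (by norm_num) (by norm_num) (by norm_num)) (expm_le (by norm_num) (by norm_num) (by norm_num)) (by norm_num)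
    (by norm_num) (by norm_num) (by norm_num) (by norm_num) (by norm_num) (by norm_num)
  exact ⟨hy1, hy2⟩

private theorem yr10 {κ t : ℝ} (h : DomR κ t) (hk1 : 0.75 ≤ κ) (hk2 : κ ≤ 0.8) (ht1 : 0.7696 ≤ t + κ)
    (ht2 : t + κ ≤ 1.0368) : 0.277 ≤ sy κ t ∧ sy κ t ≤ 0.355 := by
  have hy1 : 0.277 ≤ sy κ t := syR_ge h 0.75 0.8 0.7696 0.277 1.31916 1.31917 0.45675 0.48722 hk1 hk2 (by linarith) (by norm_num) (by norm_num)
    (expn_ge (by norm_num) (by norm_num)) (expn_le (by norm_num) (by norm_num) (by norm_num)) (by norm_num)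
    (by norm_num) (by norm_num) (by norm_num) (by norm_num) (by norm_num) (by norm_num)
  have hy2 : sy κ t ≤ 0.355 := syR_le h 0.75 0.8 1.0368 0.355 1.42618 0.6223 0.63286 0.67507 hk1 hk2 (by linarith) (by norm_num) (by norm_num)
    (expn_ge (by norm_num) (by norm_num)) (by norm_num) (by norm_num) (Or.inr ((mul_le_mul_of_nonneg_left (expn_le (E := 1.42619) (by norm_num) (by norm_num) (by norm_num)) (by norm_num)).trans (by norm_num))) (by norm_num) (by norm_num) (by norm_num)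
  exact ⟨hy1, hy2⟩

private theorem mm10 {κ t : ℝ} (d1 : DomR κ t) (d0 : DomR κ (t - Real.pi / 2)) (hk1 : 0.75 ≤ κ) (hk2 : κ ≤ 0.8)
    (ht1 : 0.7696 ≤ t + κ) (ht2 : t + κ ≤ 1.0368) : 0.7493 ≤ sp κ t - sp κ (t - Real.pi / 2) := by
  have hpi := Real.pi_gt_d6
  have hpi2 := Real.pi_lt_d6
  have hχ := chi_box (κ := κ) 0.75 0.75 0.8 0.7489 d1.1.le hk1 hk2 (by norm_num) (by norm_num) (by norm_num) (by norm_num) (by norm_num)
  have hμ := mu_box (κ := κ) 0.5779 0.75 0.8 0.1614 hk1 hk2 (by norm_num) (by norm_num) (by norm_num) (by norm_num) (by norm_num) (by norm_num)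
  rcases le_total (t + κ) 0.859 with f0 | g0
  · refine M_piece (κ := κ) (t := t) 0.8 0.726 0.968 0.7696 0.859 0.7493 d1.1.le hk2 ?_ ?_ (by linarith) (by linarith) (by norm_num) (by norm_num) (by norm_num) (by norm_num)
    · exact spR_ge_box d1 0.726 0.75 (0.8 / (1 + 0.8 ^ 2)) 0.7489 0.1614 0.859 _ _ _ (by linarith) (by linarith) hk1 (psi_lo d1.1.le hk2 (by norm_num)) hχ hμ (by norm_num) (by norm_num) (by norm_num)
        rfl (by norm_num) rfl rfl (by norm_num) (by norm_num)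
    · exact spL_ge_box d0 0.968 0.75 0.8 (0.8 / (1 + 0.8 ^ 2)) 0.8012 _ _ (by linarith) (by linarith) hk1 hk2 (psi_lo d0.1.le hk2 (by norm_num)) (by norm_num) (by norm_num)
        rfl (by norm_num) rfl (by norm_num) (by norm_num) (by norm_num)
  rcases le_total (t + κ) 0.948 with f1 | g1
  · refine M_piece (κ := κ) (t := t) 0.8 0.703 0.975 0.858 0.948 0.7493 d1.1.le hk2 ?_ ?_ (by linarith) (by linarith) (by norm_num) (by norm_num) (by norm_num) (by norm_num)
    · exact spR_ge_box d1 0.703 0.75 (0.8 / (1 + 0.8 ^ 2)) 0.7489 0.1614 0.948 _ _ _ (by linarith) (by linarith) hk1 (psi_lo d1.1.le hk2 (by norm_num)) hχ hμ (by norm_num) (by norm_num) (by norm_num)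
        rfl (by norm_num) rfl rfl (by norm_num) (by norm_num)
    · exact spL_ge_box d0 0.975 0.75 0.8 (0.8 / (1 + 0.8 ^ 2)) 0.7128 _ _ (by linarith) (by linarith) hk1 hk2 (psi_lo d0.1.le hk2 (by norm_num)) (by norm_num) (by norm_num)
        rfl (by norm_num) rfl (by norm_num) (by norm_num) (by norm_num)
  refine M_piece (κ := κ) (t := t) 0.8 0.68 0.981 0.947 1.0368 0.7493 d1.1.le hk2 ?_ ?_ (by linarith) (by linarith) (by norm_num) (by norm_num) (by norm_num) (by norm_num)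
  · exact spR_ge_box d1 0.68 0.75 (0.8 / (1 + 0.8 ^ 2)) 0.7489 0.1614 1.0368 _ _ _ (by linarith) (by linarith) hk1 (psi_lo d1.1.le hk2 (by norm_num)) hχ hμ (by norm_num) (by norm_num) (by norm_num)
      rfl (by norm_num) rfl rfl (by norm_num) (by norm_num)
  · exact spL_ge_box d0 0.981 0.75 0.8 (0.8 / (1 + 0.8 ^ 2)) 0.6238 _ _ (by linarith) (by linarith) hk1 hk2 (psi_lo d0.1.le hk2 (by norm_num)) (by norm_num) (by norm_num)
      rfl (by norm_num) rfl (by norm_num) (by norm_num) (by norm_num)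

theorem slp10 {β r κ t : ℝ} (hβ : 0 < β) (hr : 10 ≤ r) (hκ : κ = β * r) (hk1 : 0.75 ≤ κ) (hk2 : κ ≤ 0.8)
    (ht1 : 0.49 * (Real.pi / 2) ≤ t + κ) (ht2 : t + κ ≤ 0.66 * (Real.pi / 2)) : SL β r 2.2653 0.8241 0.1437 t := by
  have hpi := Real.pi_gt_d6
  have hpi2 := Real.pi_lt_d6
  have he1 := Real.exp_neg_one_lt_d9
  have hR0 : β * 10 ≤ κ := by rw [hκ]; exact mul_le_mul_of_nonneg_left hr hβ.le
  have hk0 : 0 < κ := by linarith
  have d1 : DomR κ t := ⟨hk0, by linarith, Or.inl (by linarith)⟩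
  have d0 : DomR κ (t - Real.pi / 2) := ⟨hk0, by linarith, Or.inl (by linarith)⟩
  have a1 : 0.7696 ≤ t + κ := by linarith
  have a2 : t + κ ≤ 1.0368 := by linarith
  have b1 : (-0.8012) ≤ t - Real.pi / 2 + κ := by linarith
  have b2 : t - Real.pi / 2 + κ ≤ (-0.534) := by linarith
  have hR := hR33 hβ hR0 hk0 (by linarith)
  have Jl := dl9 d0 hβ (by linarith) (by linarith) (by linarith) (by linarith) hR0 hR
  have Jr := dr9 d1 hβ (by linarith) (by linarith) (by linarith) (by linarith) hR0 hR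
  obtain ⟨y1, y2⟩ := yl10 d0 hk1 hk2 b1 b2
  obtain ⟨z1, z2⟩ := yr10 d1 hk1 hk2 a1 a2
  have hM := mm10 d1 d0 hk1 hk2 a1 a2
  have hE0 : Real.exp (-(-0.506)) ≤ 1.65865 := by rw [neg_neg]; exact (expn_le (by norm_num) (by norm_num) (by norm_num))
  have hEr : Real.exp (-0.277) ≤ 0.75806 := (expm_le (by norm_num) (by norm_num) (by norm_num))
  have hA0 := A_ge d0 0.75 0.506 1.006 hk1 y1 (by norm_num) (by norm_num) (by norm_num) (by norm_num)
  have hA1 := A_lt d1 0.8 0.277 0.75806 0.438 hk2 z1 hEr (by norm_num) (by norm_num) (by norm_num)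
  have hd0 : 1.3923 ≤ sD κ (t - Real.pi / 2) := sD_ge4 d0 0.75 _ hk1 (by linarith) (by norm_num) (by norm_num)
  have hd1 : 1.5625 ≤ sD κ t := sD_geR d1 0.75 _ hk1 (by linarith) (by linarith) (by norm_num) (by norm_num)
  have F0 := LD_facts (t := t - Real.pi / 2) 0.06 0.25 1.006 5.5556 0.4766 (-0.506) 1.65865 2.2653 hβ hr hκ d0 (fun s hs => ⟨im_gt hs y1 (by norm_num), Jl s hs⟩) hA0 y1 hE0
    (C_of 0.8 1.65865 0.4766 1.3923 hk2 (by norm_num) hd0 (by norm_num) (by norm_num)) (by norm_num) (by norm_num) (by norm_num) (by norm_num) (by norm_num) (by norm_num) (by norm_num)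
  have z0 : -0 ≤ sy κ t := by linarith
  have F1 := LD_facts (t := t) 0.06 0.06 0.438 1.0639 0.1941 0.277 0.75806 0.8241 hβ hr hκ d1 (fun s hs => ⟨im_gt hs z0 (by norm_num), Jr s hs⟩) hA1 z1 hEr
    (C_of 0.8 0.75806 0.1941 1.5625 hk2 (by norm_num) hd1 (by norm_num) (by norm_num)) (by norm_num) (by norm_num) (by norm_num) (by norm_num) (by norm_num) (by norm_num) (by norm_num)
  have hEl : 1.36206 ≤ Real.exp (-(-0.309)) := by rw [neg_neg]; exact (expn_ge (by norm_num) (by norm_num))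
  have hN := N_ge (κ := κ) (t := t - Real.pi / 2) 0.75 (-0.309) 1.36206 1 (by norm_num) hk1 y2 hEl (by norm_num) (by norm_num)
  have hx0 : sx κ (t - Real.pi / 2) ≤ 1.2905 := sx_hi d0 0.8 (-0.506) 0.309 1.65865 _ hk2 y1 (by norm_num) (by rw [abs_of_nonpos (by linarith)]; linarith) hE0 (by norm_num) (by norm_num)
  have hG0 := gs_le d0 1 1.2905 1.3923 0 hN (by norm_num) hx0 hd0 (by norm_num) (by norm_num) (by norm_num)
  have hG1 : (0 : ℝ) ≤ gs κ t := gs_nonneg d1 (by linarith) (by linarith)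
  exact SL_of (κ := κ) 5.589 0.466 0 0 0.7493 2.2653 0.8241 0.1437 hr ⟨F0.1, F0.2.1, F0.2.2.trans (by norm_num)⟩ ⟨F1.1, F1.2.1, F1.2.2.trans (by norm_num)⟩ hG0 hG1 hM
    (by norm_num) (by norm_num)

end Sok.B4
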