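import Pool.Agent.Lib.MP_816dec_an.R1B4T
import Pool.Agent.Lib.MP_816dec_an.R1B4Jc
import Pool.Agent.Lib.MP_816dec_an.R1B4Jd
import Pool.Agent.Lib.MP_816dec_an.R1B4Je

/-!
MP_816dec_an (A3, row R1, b = 4): slopes.
-/

set_option autoImplicit false
set_option maxHeartbeats 4000000

open Complex Set Filter Topology

namespace Sok.B4

private theorem hR33 {β κ : ℝ} (hβ : 0 < β) (hR0 : β * 10 ≤ κ) (hk0 : 0 < κ) (hk : κ ≤ 1) : β * (3.3 * (1 + κ ^ 2)) ≤ κ := by
  have h1 : 3.3 * (1 + κ ^ 2) ≤ 10 := by nlinarith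
  exact (mul_le_mul_of_nonneg_left h1 hβ.le).trans hR0

private theorem yl11 {κ t : ℝ} (h : DomR κ t) (hk1 : 0.8 ≤ κ) (hk2 : κ ≤ 0.85) (ht1 : (-0.8169) ≤ t + κ)
    (ht2 : t + κ ≤ (-0.5026)) : -0.508 ≤ sy κ t ∧ sy κ t ≤ -0.287 := by
  have hy1 : -0.508 ≤ sy κ t := syL_ge h 0.8 0.85 0.8169 0.508 0.60169 0.6017 0.3577 0.35959 0.38208 hk1 hk2 (by linarith) (by norm_num) (by norm_num) (by norm_num)
    (expm_ge (by norm_num) (by norm_num) (by norm_num) (by norm_num)) (expm_le (by norm_num) (by norm_num) (by norm_num)) (by norm_num)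
    (by norm_num) (by norm_num) (by norm_num) (by norm_num) (by norm_num) (by norm_num)
  have hy2 : sy κ t ≤ -0.287 := syL_le h 0.8 0.85 0.5026 0.287 0.75051 0.75052 0.2534 0.26925 hk1 hk2 (by linarith) (by norm_num) (by norm_num) (by norm_num)
    (expm_ge (by norm_num) (by norm_num) (by norm_num) (by norm_num)) (expm_le (by norm_num) (by norm_num) (by norm_num)) (by norm_num)
    (by norm_num) (by norm_num) (by norm_num) (by norm_num) (by norm_num) (by norm_num)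
  exact ⟨hy1, hy2⟩

private theorem yr11 {κ t : ℝ} (h : DomR κ t) (hk1 : 0.8 ≤ κ) (hk2 : κ ≤ 0.85) (ht1 : 0.7539 ≤ t + κ)
    (ht2 : t + κ ≤ 1.0682) : 0.281 ≤ sy κ t ∧ sy κ t ≤ 0.372 := by
  have hy1 : 0.281 ≤ sy κ t := syR_ge h 0.8 0.85 0.7539 0.281 1.32445 1.32446 0.43784 0.46522 hk1 hk2 (by linarith) (by norm_num) (by norm_num)
    (expn_ge (by norm_num) (by norm_num)) (expn_le (by norm_num) (by norm_num) (by norm_num)) (by norm_num)
    (by norm_num) (by norm_num) (by norm_num) (by norm_num) (by norm_num) (by norm_num)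
  have hy2 : sy κ t ≤ 0.372 := syR_le h 0.8 0.85 1.0682 0.372 1.45063 0.6249 0.63486 0.67455 hk1 hk2 (by linarith) (by norm_num) (by norm_num)
    (expn_ge (by norm_num) (by norm_num)) (by norm_num) (by norm_num) (Or.inr ((mul_le_mul_of_nonneg_left (expn_le (E := 1.45064) (by norm_num) (by norm_num) (by norm_num)) (by norm_num)).trans (by norm_num))) (by norm_num) (by norm_num) (by norm_num)
  exact ⟨hy1, hy2⟩

private theorem mm11 {κ t : ℝ} (d1 : DomR κ t) (d0 : DomR κ (t - Real.pi / 2)) (hk1 : 0.8 ≤ κ) (hk2 : κ ≤ 0.85)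
    (ht1 : 0.7539 ≤ t + κ) (ht2 : t + κ ≤ 1.0682) : 0.71 ≤ sp κ t - sp κ (t - Real.pi / 2) := by
  have hpi := Real.pi_gt_d6
  have hpi2 := Real.pi_lt_d6
  have hχ := chi_box (κ := κ) 0.8 0.8 0.85 0.702 d1.1.le hk1 hk2 (by norm_num) (by norm_num) (by norm_num) (by norm_num) (by norm_num)
  have hμ := mu_box (κ := κ) 0.6399 0.8 0.85 0.1606 hk1 hk2 (by norm_num) (by norm_num) (by norm_num) (by norm_num) (by norm_num) (by norm_num)
  rcases le_total (t + κ) 0.859 with f0 | g0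
  · refine M_piece (κ := κ) (t := t) 0.85 0.735 0.971 0.7539 0.859 0.71 d1.1.le hk2 ?_ ?_ (by linarith) (by linarith) (by norm_num) (by norm_num) (by norm_num) (by norm_num)
    · exact spR_ge_box d1 0.735 0.8 (0.85 / (1 + 0.85 ^ 2)) 0.702 0.1606 0.859 _ _ _ (by linarith) (by linarith) hk1 (psi_lo d1.1.le hk2 (by norm_num)) hχ hμ (by norm_num) (by norm_num) (by norm_num)
        rfl (by norm_num) rfl rfl (by norm_num) (by norm_num)
    · exact spL_ge_box d0 0.971 0.8 0.85 (0.85 / (1 + 0.85 ^ 2)) 0.8169 _ _ (by linarith) (by linarith) hk1 hk2 (psi_lo d0.1.le hk2 (by norm_num)) (by norm_num) (by norm_num)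
        rfl (by norm_num) rfl (by norm_num) (by norm_num) (by norm_num)
  rcases le_total (t + κ) 0.964 with f1 | g1
  · refine M_piece (κ := κ) (t := t) 0.85 0.708 0.978 0.858 0.964 0.71 d1.1.le hk2 ?_ ?_ (by linarith) (by linarith) (by norm_num) (by norm_num) (by norm_num) (by norm_num)
    · exact spR_ge_box d1 0.708 0.8 (0.85 / (1 + 0.85 ^ 2)) 0.702 0.1606 0.964 _ _ _ (by linarith) (by linarith) hk1 (psi_lo d1.1.le hk2 (by norm_num)) hχ hμ (by norm_num) (by norm_num) (by norm_num)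
        rfl (by norm_num) rfl rfl (by norm_num) (by norm_num)
    · exact spL_ge_box d0 0.978 0.8 0.85 (0.85 / (1 + 0.85 ^ 2)) 0.7128 _ _ (by linarith) (by linarith) hk1 hk2 (psi_lo d0.1.le hk2 (by norm_num)) (by norm_num) (by norm_num)
        rfl (by norm_num) rfl (by norm_num) (by norm_num) (by norm_num)
  refine M_piece (κ := κ) (t := t) 0.85 0.682 0.984 0.963 1.0682 0.71 d1.1.le hk2 ?_ ?_ (by linarith) (by linarith) (by norm_num) (by norm_num) (by norm_num) (by norm_num)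
  · exact spR_ge_box d1 0.682 0.8 (0.85 / (1 + 0.85 ^ 2)) 0.702 0.1606 1.0682 _ _ _ (by linarith) (by linarith) hk1 (psi_lo d1.1.le hk2 (by norm_num)) hχ hμ (by norm_num) (by norm_num) (by norm_num)
      rfl (by norm_num) rfl rfl (by norm_num) (by norm_num)
  · exact spL_ge_box d0 0.984 0.8 0.85 (0.85 / (1 + 0.85 ^ 2)) 0.6078 _ _ (by linarith) (by linarith) hk1 hk2 (psi_lo d0.1.le hk2 (by norm_num)) (by norm_num) (by norm_num)
      rfl (by norm_num) rfl (by norm_num) (by norm_num) (by norm_num)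

theorem slp11 {β r κ t : ℝ} (hβ : 0 < β) (hr : 10 ≤ r) (hκ : κ = β * r) (hk1 : 0.8 ≤ κ) (hk2 : κ ≤ 0.85)
    (ht1 : 0.48 * (Real.pi / 2) ≤ t + κ) (ht2 : t + κ ≤ 0.68 * (Real.pi / 2)) : SL β r 2.2674 0.832 0.0932 t := by
  have hpi := Real.pi_gt_d6
  have hpi2 := Real.pi_lt_d6
  have he1 := Real.exp_neg_one_lt_d9
  have hR0 : β * 10 ≤ κ := by rw [hκ]; exact mul_le_mul_of_nonneg_left hr hβ.le
  have hk0 : 0 < κ := by linarith
  have d1 : DomR κ t := ⟨hk0, by linarith, Or.inl (by linarith)⟩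
  have d0 : DomR κ (t - Real.pi / 2) := ⟨hk0, by linarith, Or.inl (by linarith)⟩
  have a1 : 0.7539 ≤ t + κ := by linarith
  have a2 : t + κ ≤ 1.0682 := by linarith
  have b1 : (-0.8169) ≤ t - Real.pi / 2 + κ := by linarith
  have b2 : t - Real.pi / 2 + κ ≤ (-0.5026) := by linarith
  have hR := hR33 hβ hR0 hk0 (by linarith)
  have Jl := dl10 d0 hβ (by linarith) (by linarith) (by linarith) (by linarith) hR0 hR
  have Jr := dr10 d1 hβ (by linarith) (by linarith) (by linarith) (by linarith) hR0 hR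
  obtain ⟨y1, y2⟩ := yl11 d0 hk1 hk2 b1 b2
  obtain ⟨z1, z2⟩ := yr11 d1 hk1 hk2 a1 a2
  have hM := mm11 d1 d0 hk1 hk2 a1 a2
  have hE0 : Real.exp (-(-0.508)) ≤ 1.66197 := by rw [neg_neg]; exact (expn_le (by norm_num) (by norm_num) (by norm_num))
  have hEr : Real.exp (-0.281) ≤ 0.75503 := (expm_le (by norm_num) (by norm_num) (by norm_num))
  have hA0 := A_ge d0 0.8 0.508 1.007 hk1 y1 (by norm_num) (by norm_num) (by norm_num) (by norm_num)
  have hA1 := A_lt d1 0.85 0.281 0.75503 0.457 hk2 z1 hEr (by norm_num) (by norm_num) (by norm_num)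
  have hd0 : 1.5387 ≤ sD κ (t - Real.pi / 2) := sD_ge4 d0 0.8 _ hk1 (by linarith) (by norm_num) (by norm_num)
  have hd1 : 1.64 ≤ sD κ t := sD_geR d1 0.8 _ hk1 (by linarith) (by linarith) (by norm_num) (by norm_num)
  have F0 := LD_facts (t := t - Real.pi / 2) 0.06 0.25 1.007 5.5556 0.4591 (-0.508) 1.66197 2.2674 hβ hr hκ d0 (fun s hs => ⟨im_gt hs y1 (by norm_num), Jl s hs⟩) hA0 y1 hE0
    (C_of 0.85 1.66197 0.4591 1.5387 hk2 (by norm_num) hd0 (by norm_num) (by norm_num)) (by norm_num) (by norm_num) (by norm_num) (by norm_num) (by norm_num) (by norm_num) (by norm_num)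
  have z0 : -0 ≤ sy κ t := by linarith
  have F1 := LD_facts (t := t) 0.06 0.07 0.457 1.2545 0.1957 0.281 0.75503 0.832 hβ hr hκ d1 (fun s hs => ⟨im_gt hs z0 (by norm_num), Jr s hs⟩) hA1 z1 hEr
    (C_of 0.85 0.75503 0.1957 1.64 hk2 (by norm_num) hd1 (by norm_num) (by norm_num)) (by norm_num) (by norm_num) (by norm_num) (by norm_num) (by norm_num) (by norm_num) (by norm_num)
  have hEl : 1.33242 ≤ Real.exp (-(-0.287)) := by rw [neg_neg]; exact (expn_ge (by norm_num) (by norm_num))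
  have hN := N_ge (κ := κ) (t := t - Real.pi / 2) 0.8 (-0.287) 1.33242 1 (by norm_num) hk1 y2 hEl (by norm_num) (by norm_num)
  have hx0 : sx κ (t - Real.pi / 2) ≤ 1.3833 := sx_hi d0 0.85 (-0.508) 0.287 1.66197 _ hk2 y1 (by norm_num) (by rw [abs_of_nonpos (by linarith)]; linarith) hE0 (by norm_num) (by norm_num)
  have hG0 := gs_le d0 1 1.3833 1.5387 0 hN (by norm_num) hx0 hd0 (by norm_num) (by norm_num) (by norm_num)
  have hG1 : (0 : ℝ) ≤ gs κ t := gs_nonneg d1 (by linarith) (by linarith)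
  exact SL_of (κ := κ) 5.5945 0.5734 0 0 0.71 2.2674 0.832 0.0932 hr ⟨F0.1, F0.2.1, F0.2.2.trans (by norm_num)⟩ ⟨F1.1, F1.2.1, F1.2.2.trans (by norm_num)⟩ hG0 hG1 hM
    (by norm_num) (by norm_num)

private theorem yl12 {κ t : ℝ} (h : DomR κ t) (hk1 : 0.85 ≤ κ) (hk2 : κ ≤ 0.9) (ht1 : (-0.8169) ≤ t + κ)
    (ht2 : t + κ ≤ (-0.5026)) : -0.497 ≤ sy κ t ∧ sy κ t ≤ -0.284 := by
  have hy1 : -0.497 ≤ sy κ t := syL_ge h 0.85 0.9 0.8169 0.497 0.60835 0.60836 0.3392 0.33594 0.35572 hk1 hk2 (by linarith) (by norm_num) (by norm_num) (by norm_num)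
    (expm_ge (by norm_num) (by norm_num) (by norm_num) (by norm_num)) (expm_le (by norm_num) (by norm_num) (by norm_num)) (by norm_num)
    (by norm_num) (by norm_num) (by norm_num) (by norm_num) (by norm_num) (by norm_num)
  have hy2 : sy κ t ≤ -0.284 := syL_le h 0.85 0.9 0.5026 0.284 0.75276 0.75277 0.23753 0.25152 hk1 hk2 (by linarith) (by norm_num) (by norm_num) (by norm_num)
    (expm_ge (by norm_num) (by norm_num) (by norm_num) (by norm_num)) (expm_le (by norm_num) (by norm_num) (by norm_num)) (by norm_num)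
    (by norm_num) (by norm_num) (by norm_num) (by norm_num) (by norm_num) (by norm_num)
  exact ⟨hy1, hy2⟩

private theorem yr12 {κ t : ℝ} (h : DomR κ t) (hk1 : 0.85 ≤ κ) (hk2 : κ ≤ 0.9) (ht1 : 0.7539 ≤ t + κ)
    (ht2 : t + κ ≤ 1.0682) : 0.288 ≤ sy κ t ∧ sy κ t ≤ 0.38 := by
  have hy1 : 0.288 ≤ sy κ t := syR_ge h 0.85 0.9 0.7539 0.288 1.33375 1.33376 0.42679 0.45191 hk1 hk2 (by linarith) (by norm_num) (by norm_num)
    (expn_ge (by norm_num) (by norm_num)) (expn_le (by norm_num) (by norm_num) (by norm_num)) (by norm_num)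
    (by norm_num) (by norm_num) (by norm_num) (by norm_num) (by norm_num) (by norm_num)
  have hy2 : sy κ t ≤ 0.38 := syR_le h 0.85 0.9 1.0682 0.38 1.46228 0.6083 0.6174 0.65373 hk1 hk2 (by linarith) (by norm_num) (by norm_num)
    (expn_ge (by norm_num) (by norm_num)) (by norm_num) (by norm_num) (Or.inr ((mul_le_mul_of_nonneg_left (expn_le (E := 1.46229) (by norm_num) (by norm_num) (by norm_num)) (by norm_num)).trans (by norm_num))) (by norm_num) (by norm_num) (by norm_num)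
  exact ⟨hy1, hy2⟩

private theorem mm12 {κ t : ℝ} (d1 : DomR κ t) (d0 : DomR κ (t - Real.pi / 2)) (hk1 : 0.85 ≤ κ) (hk2 : κ ≤ 0.9)
    (ht1 : 0.7539 ≤ t + κ) (ht2 : t + κ ≤ 1.0682) : 0.6827 ≤ sp κ t - sp κ (t - Real.pi / 2) := by
  have hpi := Real.pi_gt_d6
  have hpi2 := Real.pi_lt_d6
  have hχ := chi_box (κ := κ) 0.85 0.85 0.9 0.6525 d1.1.le hk1 hk2 (by norm_num) (by norm_num) (by norm_num) (by norm_num) (by norm_num)
  have hμ := mu_box (κ := κ) 0.7224 0.85 0.9 0.1584 hk1 hk2 (by norm_num) (by norm_num) (by norm_num) (by norm_num) (by norm_num) (by norm_num)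
  rcases le_total (t + κ) 0.859 with f0 | g0
  · refine M_piece (κ := κ) (t := t) 0.9 0.745 0.975 0.7539 0.859 0.6827 d1.1.le hk2 ?_ ?_ (by linarith) (by linarith) (by norm_num) (by norm_num) (by norm_num) (by norm_num)
    · exact spR_ge_box d1 0.745 0.85 (0.9 / (1 + 0.9 ^ 2)) 0.6525 0.1584 0.859 _ _ _ (by linarith) (by linarith) hk1 (psi_lo d1.1.le hk2 (by norm_num)) hχ hμ (by norm_num) (by norm_num) (by norm_num)
        rfl (by norm_num) rfl rfl (by norm_num) (by norm_num)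
    · exact spL_ge_box d0 0.975 0.85 0.9 (0.9 / (1 + 0.9 ^ 2)) 0.8169 _ _ (by linarith) (by linarith) hk1 hk2 (psi_lo d0.1.le hk2 (by norm_num)) (by norm_num) (by norm_num)
        rfl (by norm_num) rfl (by norm_num) (by norm_num) (by norm_num)
  rcases le_total (t + κ) 0.964 with f1 | g1
  · refine M_piece (κ := κ) (t := t) 0.9 0.718 0.981 0.858 0.964 0.6827 d1.1.le hk2 ?_ ?_ (by linarith) (by linarith) (by norm_num) (by norm_num) (by norm_num) (by norm_num)
    · exact spR_ge_box d1 0.718 0.85 (0.9 / (1 + 0.9 ^ 2)) 0.6525 0.1584 0.964 _ _ _ (by linarith) (by linarith) hk1 (psi_lo d1.1.le hk2 (by norm_num)) hχ hμ (by norm_num) (by norm_num) (by norm_num)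
        rfl (by norm_num) rfl rfl (by norm_num) (by norm_num)
    · exact spL_ge_box d0 0.981 0.85 0.9 (0.9 / (1 + 0.9 ^ 2)) 0.7128 _ _ (by linarith) (by linarith) hk1 hk2 (psi_lo d0.1.le hk2 (by norm_num)) (by norm_num) (by norm_num)
        rfl (by norm_num) rfl (by norm_num) (by norm_num) (by norm_num)
  refine M_piece (κ := κ) (t := t) 0.9 0.693 0.986 0.963 1.0682 0.6827 d1.1.le hk2 ?_ ?_ (by linarith) (by linarith) (by norm_num) (by norm_num) (by norm_num) (by norm_num)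
  · exact spR_ge_box d1 0.693 0.85 (0.9 / (1 + 0.9 ^ 2)) 0.6525 0.1584 1.0682 _ _ _ (by linarith) (by linarith) hk1 (psi_lo d1.1.le hk2 (by norm_num)) hχ hμ (by norm_num) (by norm_num) (by norm_num)
      rfl (by norm_num) rfl rfl (by norm_num) (by norm_num)
  · exact spL_ge_box d0 0.986 0.85 0.9 (0.9 / (1 + 0.9 ^ 2)) 0.6078 _ _ (by linarith) (by linarith) hk1 hk2 (psi_lo d0.1.le hk2 (by norm_num)) (by norm_num) (by norm_num)
      rfl (by norm_num) rfl (by norm_num) (by norm_num) (by norm_num)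

theorem slp12 {β r κ t : ℝ} (hβ : 0 < β) (hr : 10 ≤ r) (hκ : κ = β * r) (hk1 : 0.85 ≤ κ) (hk2 : κ ≤ 0.9)
    (ht1 : 0.48 * (Real.pi / 2) ≤ t + κ) (ht2 : t + κ ≤ 0.68 * (Real.pi / 2)) : SL β r 2.2432 0.8353 0.0618 t := by
  have hpi := Real.pi_gt_d6
  have hpi2 := Real.pi_lt_d6
  have he1 := Real.exp_neg_one_lt_d9
  have hR0 : β * 10 ≤ κ := by rw [hκ]; exact mul_le_mul_of_nonneg_left hr hβ.le
  have hk0 : 0 < κ := by linarith
  have d1 : DomR κ t := ⟨hk0, by linarith, Or.inl (by linarith)⟩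
  have d0 : DomR κ (t - Real.pi / 2) := ⟨hk0, by linarith, Or.inl (by linarith)⟩
  have a1 : 0.7539 ≤ t + κ := by linarith
  have a2 : t + κ ≤ 1.0682 := by linarith
  have b1 : (-0.8169) ≤ t - Real.pi / 2 + κ := by linarith
  have b2 : t - Real.pi / 2 + κ ≤ (-0.5026) := by linarith
  have hR := hR33 hβ hR0 hk0 (by linarith)
  have Jl := dl11 d0 hβ (by linarith) (by linarith) (by linarith) (by linarith) hR0 hR
  have Jr := dr11 d1 hβ (by linarith) (by linarith) (by linarith) (by linarith) hR0 hR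
  obtain ⟨y1, y2⟩ := yl12 d0 hk1 hk2 b1 b2
  obtain ⟨z1, z2⟩ := yr12 d1 hk1 hk2 a1 a2
  have hM := mm12 d1 d0 hk1 hk2 a1 a2
  have hE0 : Real.exp (-(-0.497)) ≤ 1.64379 := by rw [neg_neg]; exact (expn_le (by norm_num) (by norm_num) (by norm_num))
  have hEr : Real.exp (-0.288) ≤ 0.74977 := (expm_le (by norm_num) (by norm_num) (by norm_num))
  have hA0 := A_lt d0 0.9 (-0.497) 1.64379 0.999 hk2 y1 hE0 (by norm_num) (by norm_num) (by norm_num)
  have hA1 := A_lt d1 0.9 0.288 0.74977 0.474 hk2 z1 hEr (by norm_num) (by norm_num) (by norm_num)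
  have hd0 : 1.6692 ≤ sD κ (t - Real.pi / 2) := sD_ge4 d0 0.85 _ hk1 (by linarith) (by norm_num) (by norm_num)
  have hd1 : 1.7225 ≤ sD κ t := sD_geR d1 0.85 _ hk1 (by linarith) (by linarith) (by norm_num) (by norm_num)
  have F0 := LD_facts (t := t - Real.pi / 2) 0.06 0.25 0.999 5.5556 0.4432 (-0.497) 1.64379 2.2432 hβ hr hκ d0 (fun s hs => ⟨im_gt hs y1 (by norm_num), Jl s hs⟩) hA0 y1 hE0
    (C_of 0.9 1.64379 0.4432 1.6692 hk2 (by norm_num) hd0 (by norm_num) (by norm_num)) (by norm_num) (by norm_num) (by norm_num) (by norm_num) (by norm_num) (by norm_num) (by norm_num)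
  have z0 : -0 ≤ sy κ t := by linarith
  have F1 := LD_facts (t := t) 0.08 0.1 0.474 1.3889 0.1959 0.288 0.74977 0.8353 hβ hr hκ d1 (fun s hs => ⟨im_gt hs z0 (by norm_num), Jr s hs⟩) hA1 z1 hEr
    (C_of 0.9 0.74977 0.1959 1.7225 hk2 (by norm_num) hd1 (by norm_num) (by norm_num)) (by norm_num) (by norm_num) (by norm_num) (by norm_num) (by norm_num) (by norm_num) (by norm_num)
  have hEl : 1.32843 ≤ Real.exp (-(-0.284)) := by rw [neg_neg]; exact (expn_ge (by norm_num) (by norm_num))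
  have hN := N_ge (κ := κ) (t := t - Real.pi / 2) 0.85 (-0.284) 1.32843 1 (by norm_num) hk1 y2 hEl (by norm_num) (by norm_num)
  have hx0 : sx κ (t - Real.pi / 2) ≤ 1.4519 := sx_hi d0 0.9 (-0.497) 0.284 1.64379 _ hk2 y1 (by norm_num) (by rw [abs_of_nonpos (by linarith)]; linarith) hE0 (by norm_num) (by norm_num)
  have hG0 := gs_le d0 1 1.4519 1.6692 0 hN (by norm_num) hx0 hd0 (by norm_num) (by norm_num) (by norm_num)
  have hG1 : (0 : ℝ) ≤ gs κ t := gs_nonneg d1 (by linarith) (by linarith)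
  exact SL_of (κ := κ) 5.5501 0.6584 0 0 0.6827 2.2432 0.8353 0.0618 hr ⟨F0.1, F0.2.1, F0.2.2.trans (by norm_num)⟩ ⟨F1.1, F1.2.1, F1.2.2.trans (by norm_num)⟩ hG0 hG1 hM
    (by norm_num) (by norm_num)

end Sok.B4
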