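import Pool.Agent.Lib.MP_816dec_an.R1B4T
import Pool.Agent.Lib.MP_816dec_an.R1B4Jc
import Pool.Agent.Lib.MP_816dec_an.R1B4Jd
import Pool.Agent.Lib.MP_816dec_an.R1B4Je

/-!
MP_816dec_an (A3, row R1, b = 4): slopes.
-/

set_option autoImplicit false
set_option maxHeartbeats 4000000

open Complex Set Filter Topology

namespace Sok.B4

private theorem hR33 {β κ : ℝ} (hβ : 0 < β) (hR0 : β * 10 ≤ κ) (hk0 : 0 < κ) (hk : κ ≤ 1) : β * (3.3 * (1 + κ ^ 2)) ≤ κ := by
  have h1 : 3.3 * (1 + κ ^ 2) ≤ 10 := by nlinarith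
  exact (mul_le_mul_of_nonneg_left h1 hβ.le).trans hR0

private theorem yl13 {κ t : ℝ} (h : DomR κ t) (hk1 : 0.9 ≤ κ) (hk2 : κ ≤ 0.95) (ht1 : (-0.8169) ≤ t + κ)
    (ht2 : t + κ ≤ (-0.5026)) : -0.486 ≤ sy κ t ∧ sy κ t ≤ -0.281 := by
  have hy1 : -0.486 ≤ sy κ t := syL_ge h 0.9 0.95 0.8169 0.486 0.61508 0.61509 0.3219 0.31466 0.33215 hk1 hk2 (by linarith) (by norm_num) (by norm_num) (by norm_num)
    (expm_ge (by norm_num) (by norm_num) (by norm_num) (by norm_num)) (expm_le (by norm_num) (by norm_num) (by norm_num)) (by norm_num)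
    (by norm_num) (by norm_num) (by norm_num) (by norm_num) (by norm_num) (by norm_num)
  have hy2 : sy κ t ≤ -0.281 := syL_le h 0.9 0.95 0.5026 0.281 0.75502 0.75503 0.22332 0.23574 hk1 hk2 (by linarith) (by norm_num) (by norm_num) (by norm_num)
    (expm_ge (by norm_num) (by norm_num) (by norm_num) (by norm_num)) (expm_le (by norm_num) (by norm_num) (by norm_num)) (by norm_num)
    (by norm_num) (by norm_num) (by norm_num) (by norm_num) (by norm_num) (by norm_num)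
  exact ⟨hy1, hy2⟩

private theorem yr13 {κ t : ℝ} (h : DomR κ t) (hk1 : 0.9 ≤ κ) (hk2 : κ ≤ 0.95) (ht1 : 0.7539 ≤ t + κ)
    (ht2 : t + κ ≤ 1.0682) : 0.294 ≤ sy κ t ∧ sy κ t ≤ 0.388 := by
  have hy1 : 0.294 ≤ sy κ t := syR_ge h 0.9 0.95 0.7539 0.294 1.34178 1.34179 0.41524 0.43832 hk1 hk2 (by linarith) (by norm_num) (by norm_num)
    (expn_ge (by norm_num) (by norm_num)) (expn_le (by norm_num) (by norm_num) (by norm_num)) (by norm_num)
    (by norm_num) (by norm_num) (by norm_num) (by norm_num) (by norm_num) (by norm_num)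
  have hy2 : sy κ t ≤ 0.388 := syR_le h 0.9 0.95 1.0682 0.388 1.47402 0.5936 0.60202 0.63548 hk1 hk2 (by linarith) (by norm_num) (by norm_num)
    (expn_ge (by norm_num) (by norm_num)) (by norm_num) (by norm_num) (Or.inr ((mul_le_mul_of_nonneg_left (expn_le (E := 1.47403) (by norm_num) (by norm_num) (by norm_num)) (by norm_num)).trans (by norm_num))) (by norm_num) (by norm_num) (by norm_num)
  exact ⟨hy1, hy2⟩

private theorem mm13 {κ t : ℝ} (d1 : DomR κ t) (d0 : DomR κ (t - Real.pi / 2)) (hk1 : 0.9 ≤ κ) (hk2 : κ ≤ 0.95)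
    (ht1 : 0.7539 ≤ t + κ) (ht2 : t + κ ≤ 1.0682) : 0.6562 ≤ sp κ t - sp κ (t - Real.pi / 2) := by
  have hpi := Real.pi_gt_d6
  have hpi2 := Real.pi_lt_d6
  have hχ := chi_box (κ := κ) 0.9 0.9 0.95 0.6017 d1.1.le hk1 hk2 (by norm_num) (by norm_num) (by norm_num) (by norm_num) (by norm_num)
  have hμ := mu_box (κ := κ) 0.8099 0.9 0.95 0.1551 hk1 hk2 (by norm_num) (by norm_num) (by norm_num) (by norm_num) (by norm_num) (by norm_num)
  rcases le_total (t + κ) 0.859 with f0 | g0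
  · refine M_piece (κ := κ) (t := t) 0.95 0.756 0.978 0.7539 0.859 0.6562 d1.1.le hk2 ?_ ?_ (by linarith) (by linarith) (by norm_num) (by norm_num) (by norm_num) (by norm_num)
    · exact spR_ge_box d1 0.756 0.9 (0.95 / (1 + 0.95 ^ 2)) 0.6017 0.1551 0.859 _ _ _ (by linarith) (by linarith) hk1 (psi_lo d1.1.le hk2 (by norm_num)) hχ hμ (by norm_num) (by norm_num) (by norm_num)
        rfl (by norm_num) rfl rfl (by norm_num) (by norm_num)
    · exact spL_ge_box d0 0.978 0.9 0.95 (0.95 / (1 + 0.95 ^ 2)) 0.8169 _ _ (by linarith) (by linarith) hk1 hk2 (psi_lo d0.1.le hk2 (by norm_num)) (by norm_num) (by norm_num)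
        rfl (by norm_num) rfl (by norm_num) (by norm_num) (by norm_num)
  rcases le_total (t + κ) 0.964 with f1 | g1
  · refine M_piece (κ := κ) (t := t) 0.95 0.729 0.984 0.858 0.964 0.6562 d1.1.le hk2 ?_ ?_ (by linarith) (by linarith) (by norm_num) (by norm_num) (by norm_num) (by norm_num)
    · exact spR_ge_box d1 0.729 0.9 (0.95 / (1 + 0.95 ^ 2)) 0.6017 0.1551 0.964 _ _ _ (by linarith) (by linarith) hk1 (psi_lo d1.1.le hk2 (by norm_num)) hχ hμ (by norm_num) (by norm_num) (by norm_num)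
        rfl (by norm_num) rfl rfl (by norm_num) (by norm_num)
    · exact spL_ge_box d0 0.984 0.9 0.95 (0.95 / (1 + 0.95 ^ 2)) 0.7128 _ _ (by linarith) (by linarith) hk1 hk2 (psi_lo d0.1.le hk2 (by norm_num)) (by norm_num) (by norm_num)
        rfl (by norm_num) rfl (by norm_num) (by norm_num) (by norm_num)
  refine M_piece (κ := κ) (t := t) 0.95 0.704 0.988 0.963 1.0682 0.6562 d1.1.le hk2 ?_ ?_ (by linarith) (by linarith) (by norm_num) (by norm_num) (by norm_num) (by norm_num)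
  · exact spR_ge_box d1 0.704 0.9 (0.95 / (1 + 0.95 ^ 2)) 0.6017 0.1551 1.0682 _ _ _ (by linarith) (by linarith) hk1 (psi_lo d1.1.le hk2 (by norm_num)) hχ hμ (by norm_num) (by norm_num) (by norm_num)
      rfl (by norm_num) rfl rfl (by norm_num) (by norm_num)
  · exact spL_ge_box d0 0.988 0.9 0.95 (0.95 / (1 + 0.95 ^ 2)) 0.6078 _ _ (by linarith) (by linarith) hk1 hk2 (psi_lo d0.1.le hk2 (by norm_num)) (by norm_num) (by norm_num)
      rfl (by norm_num) rfl (by norm_num) (by norm_num) (by norm_num)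

theorem slp13 {β r κ t : ℝ} (hβ : 0 < β) (hr : 10 ≤ r) (hκ : κ = β * r) (hk1 : 0.9 ≤ κ) (hk2 : κ ≤ 0.95)
    (ht1 : 0.48 * (Real.pi / 2) ≤ t + κ) (ht2 : t + κ ≤ 0.68 * (Real.pi / 2)) : SL β r 2.1528 0.833 0.1044 t := by
  have hpi := Real.pi_gt_d6
  have hpi2 := Real.pi_lt_d6
  have he1 := Real.exp_neg_one_lt_d9
  have hR0 : β * 10 ≤ κ := by rw [hκ]; exact mul_le_mul_of_nonneg_left hr hβ.le
  have hk0 : 0 < κ := by linarith
  have d1 : DomR κ t := ⟨hk0, by linarith, Or.inl (by linarith)⟩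
  have d0 : DomR κ (t - Real.pi / 2) := ⟨hk0, by linarith, Or.inl (by linarith)⟩
  have a1 : 0.7539 ≤ t + κ := by linarith
  have a2 : t + κ ≤ 1.0682 := by linarith
  have b1 : (-0.8169) ≤ t - Real.pi / 2 + κ := by linarith
  have b2 : t - Real.pi / 2 + κ ≤ (-0.5026) := by linarith
  have hR := hR33 hβ hR0 hk0 (by linarith)
  have Jl := dl12 d0 hβ (by linarith) (by linarith) (by linarith) (by linarith) hR0 hR
  have Jr := dr12 d1 hβ (by linarith) (by linarith) (by linarith) (by linarith) hR0 hR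
  obtain ⟨y1, y2⟩ := yl13 d0 hk1 hk2 b1 b2
  obtain ⟨z1, z2⟩ := yr13 d1 hk1 hk2 a1 a2
  have hM := mm13 d1 d0 hk1 hk2 a1 a2
  have hE0 : Real.exp (-(-0.486)) ≤ 1.62581 := by rw [neg_neg]; exact (expn_le (by norm_num) (by norm_num) (by norm_num))
  have hEr : Real.exp (-0.294) ≤ 0.74528 := (expm_le (by norm_num) (by norm_num) (by norm_num))
  have hA0 := A_lt d0 0.95 (-0.486) 1.62581 0.995 hk2 y1 hE0 (by norm_num) (by norm_num) (by norm_num)
  have hA1 := A_lt d1 0.95 0.294 0.74528 0.49 hk2 z1 hEr (by norm_num) (by norm_num) (by norm_num)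
  have hd0 : 1.7877 ≤ sD κ (t - Real.pi / 2) := sD_ge4 d0 0.9 _ hk1 (by linarith) (by norm_num) (by norm_num)
  have hd1 : 1.81 ≤ sD κ t := sD_geR d1 0.9 _ hk1 (by linarith) (by linarith) (by norm_num) (by norm_num)
  have F0 := LD_facts (t := t - Real.pi / 2) 0.08 0.28 0.995 4.8612 0.432 (-0.486) 1.62581 2.1528 hβ hr hκ d0 (fun s hs => ⟨im_gt hs y1 (by norm_num), Jl s hs⟩) hA0 y1 hE0
    (C_of 0.95 1.62581 0.432 1.7877 hk2 (by norm_num) hd0 (by norm_num) (by norm_num)) (by norm_num) (by norm_num) (by norm_num) (by norm_num) (by norm_num) (by norm_num) (by norm_num)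
  have z0 : -0 ≤ sy κ t := by linarith
  have F1 := LD_facts (t := t) 0.08 0.1 0.49 1.3889 0.1956 0.294 0.74528 0.833 hβ hr hκ d1 (fun s hs => ⟨im_gt hs z0 (by norm_num), Jr s hs⟩) hA1 z1 hEr
    (C_of 0.95 0.74528 0.1956 1.81 hk2 (by norm_num) hd1 (by norm_num) (by norm_num)) (by norm_num) (by norm_num) (by norm_num) (by norm_num) (by norm_num) (by norm_num) (by norm_num)
  have hEl : 1.32445 ≤ Real.exp (-(-0.281)) := by rw [neg_neg]; exact (expn_ge (by norm_num) (by norm_num))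
  have hN := N_ge (κ := κ) (t := t - Real.pi / 2) 0.9 (-0.281) 1.32445 1 (by norm_num) hk1 y2 hEl (by norm_num) (by norm_num)
  have hx0 : sx κ (t - Real.pi / 2) ≤ 1.5188 := sx_hi d0 0.95 (-0.486) 0.281 1.62581 _ hk2 y1 (by norm_num) (by rw [abs_of_nonpos (by linarith)]; linarith) hE0 (by norm_num) (by norm_num)
  have hG0 := gs_le d0 1 1.5188 1.7877 0 hN (by norm_num) hx0 hd0 (by norm_num) (by norm_num) (by norm_num)
  have hG1 : (0 : ℝ) ≤ gs κ t := gs_nonneg d1 (by linarith) (by linarith)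
  exact SL_of (κ := κ) 4.8369 0.6806 0 0 0.6562 2.1528 0.833 0.1044 hr ⟨F0.1, F0.2.1, F0.2.2.trans (by norm_num)⟩ ⟨F1.1, F1.2.1, F1.2.2.trans (by norm_num)⟩ hG0 hG1 hM
    (by norm_num) (by norm_num)

private theorem yl14 {κ t : ℝ} (h : DomR κ t) (hk1 : 0.95 ≤ κ) (hk2 : κ ≤ 1) (ht1 : (-0.8169) ≤ t + κ)
    (ht2 : t + κ ≤ (-0.5026)) : -0.476 ≤ sy κ t ∧ sy κ t ≤ -0.277 := by
  have hy1 : -0.476 ≤ sy κ t := syL_ge h 0.95 1 0.8169 0.476 0.62126 0.62127 0.2918 0.29571 0.31129 hk1 hk2 (by linarith) (by norm_num) (by norm_num) (by norm_num)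
    (expm_ge (by norm_num) (by norm_num) (by norm_num) (by norm_num)) (expm_le (by norm_num) (by norm_num) (by norm_num)) (by norm_num)
    (by norm_num) (by norm_num) (by norm_num) (by norm_num) (by norm_num) (by norm_num)
  have hy2 : sy κ t ≤ -0.277 := syL_le h 0.95 1 0.5026 0.277 0.75805 0.75806 0.20997 0.22104 hk1 hk2 (by linarith) (by norm_num) (by norm_num) (by norm_num)
    (expm_ge (by norm_num) (by norm_num) (by norm_num) (by norm_num)) (expm_le (by norm_num) (by norm_num) (by norm_num)) (by norm_num)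
    (by norm_num) (by norm_num) (by norm_num) (by norm_num) (by norm_num) (by norm_num)
  exact ⟨hy1, hy2⟩

private theorem yr14 {κ t : ℝ} (h : DomR κ t) (hk1 : 0.95 ≤ κ) (hk2 : κ ≤ 1) (ht1 : 0.7539 ≤ t + κ)
    (ht2 : t + κ ≤ 1.0682) : 0.299 ≤ sy κ t ∧ sy κ t ≤ 0.395 := by
  have hy1 : 0.299 ≤ sy κ t := syR_ge h 0.95 1 0.7539 0.299 1.3485 1.34851 0.4032 0.42443 hk1 hk2 (by linarith) (by norm_num) (by norm_num)
    (expn_ge (by norm_num) (by norm_num)) (expn_le (by norm_num) (by norm_num) (by norm_num)) (by norm_num)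
    (by norm_num) (by norm_num) (by norm_num) (by norm_num) (by norm_num) (by norm_num)
  have hy2 : sy κ t ≤ 0.395 := syR_le h 0.95 1 1.0682 0.395 1.48438 0.5786 0.58633 0.6172 hk1 hk2 (by linarith) (by norm_num) (by norm_num)
    (expn_ge (by norm_num) (by norm_num)) (by norm_num) (by norm_num) (Or.inr ((mul_le_mul_of_nonneg_left (expn_le (E := 1.48439) (by norm_num) (by norm_num) (by norm_num)) (by norm_num)).trans (by norm_num))) (by norm_num) (by norm_num) (by norm_num)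
  exact ⟨hy1, hy2⟩

private theorem mm14 {κ t : ℝ} (d1 : DomR κ t) (d0 : DomR κ (t - Real.pi / 2)) (hk1 : 0.95 ≤ κ) (hk2 : κ ≤ 1)
    (ht1 : 0.7539 ≤ t + κ) (ht2 : t + κ ≤ 1.0682) : 0.6312 ≤ sp κ t - sp κ (t - Real.pi / 2) := by
  have hpi := Real.pi_gt_d6
  have hpi2 := Real.pi_lt_d6
  have hχ := chi_box (κ := κ) 0.95 0.95 1 0.5506 d1.1.le hk1 hk2 (by norm_num) (by norm_num) (by norm_num) (by norm_num) (by norm_num)
  have hμ := mu_box (κ := κ) 0.9024 0.95 1 0.1508 hk1 hk2 (by norm_num) (by norm_num) (by norm_num) (by norm_num) (by norm_num) (by norm_num)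
  rcases le_total (t + κ) 0.859 with f0 | g0
  · refine M_piece (κ := κ) (t := t) 1 0.767 0.981 0.7539 0.859 0.6312 d1.1.le hk2 ?_ ?_ (by linarith) (by linarith) (by norm_num) (by norm_num) (by norm_num) (by norm_num)
    · exact spR_ge_box d1 0.767 0.95 (1 / (1 + 1 ^ 2)) 0.5506 0.1508 0.859 _ _ _ (by linarith) (by linarith) hk1 (psi_lo d1.1.le hk2 (by norm_num)) hχ hμ (by norm_num) (by norm_num) (by norm_num)
        rfl (by norm_num) rfl rfl (by norm_num) (by norm_num)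
    · exact spL_ge_box d0 0.981 0.95 1 (1 / (1 + 1 ^ 2)) 0.8169 _ _ (by linarith) (by linarith) hk1 hk2 (psi_lo d0.1.le hk2 (by norm_num)) (by norm_num) (by norm_num)
        rfl (by norm_num) rfl (by norm_num) (by norm_num) (by norm_num)
  rcases le_total (t + κ) 0.964 with f1 | g1
  · refine M_piece (κ := κ) (t := t) 1 0.741 0.986 0.858 0.964 0.6312 d1.1.le hk2 ?_ ?_ (by linarith) (by linarith) (by norm_num) (by norm_num) (by norm_num) (by norm_num)
    · exact spR_ge_box d1 0.741 0.95 (1 / (1 + 1 ^ 2)) 0.5506 0.1508 0.964 _ _ _ (by linarith) (by linarith) hk1 (psi_lo d1.1.le hk2 (by norm_num)) hχ hμ (by norm_num) (by norm_num) (by norm_num)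
        rfl (by norm_num) rfl rfl (by norm_num) (by norm_num)
    · exact spL_ge_box d0 0.986 0.95 1 (1 / (1 + 1 ^ 2)) 0.7128 _ _ (by linarith) (by linarith) hk1 hk2 (psi_lo d0.1.le hk2 (by norm_num)) (by norm_num) (by norm_num)
        rfl (by norm_num) rfl (by norm_num) (by norm_num) (by norm_num)
  refine M_piece (κ := κ) (t := t) 1 0.716 0.99 0.963 1.0682 0.6312 d1.1.le hk2 ?_ ?_ (by linarith) (by linarith) (by norm_num) (by norm_num) (by norm_num) (by norm_num)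
  · exact spR_ge_box d1 0.716 0.95 (1 / (1 + 1 ^ 2)) 0.5506 0.1508 1.0682 _ _ _ (by linarith) (by linarith) hk1 (psi_lo d1.1.le hk2 (by norm_num)) hχ hμ (by norm_num) (by norm_num) (by norm_num)
      rfl (by norm_num) rfl rfl (by norm_num) (by norm_num)
  · exact spL_ge_box d0 0.99 0.95 1 (1 / (1 + 1 ^ 2)) 0.6078 _ _ (by linarith) (by linarith) hk1 hk2 (psi_lo d0.1.le hk2 (by norm_num)) (by norm_num) (by norm_num)
      rfl (by norm_num) rfl (by norm_num) (by norm_num) (by norm_num)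

theorem slp14 {β r κ t : ℝ} (hβ : 0 < β) (hr : 10 ≤ r) (hκ : κ = β * r) (hk1 : 0.95 ≤ κ) (hk2 : κ ≤ 1)
    (ht1 : 0.48 * (Real.pi / 2) ≤ t + κ) (ht2 : t + κ ≤ 0.68 * (Real.pi / 2)) : SL β r 2.118 0.8435 0.0829 t := by
  have hpi := Real.pi_gt_d6
  have hpi2 := Real.pi_lt_d6
  have he1 := Real.exp_neg_one_lt_d9
  have hR0 : β * 10 ≤ κ := by rw [hκ]; exact mul_le_mul_of_nonneg_left hr hβ.le
  have hk0 : 0 < κ := by linarith
  have d1 : DomR κ t := ⟨hk0, by linarith, Or.inl (by linarith)⟩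
  have d0 : DomR κ (t - Real.pi / 2) := ⟨hk0, by linarith, Or.inl (by linarith)⟩
  have a1 : 0.7539 ≤ t + κ := by linarith
  have a2 : t + κ ≤ 1.0682 := by linarith
  have b1 : (-0.8169) ≤ t - Real.pi / 2 + κ := by linarith
  have b2 : t - Real.pi / 2 + κ ≤ (-0.5026) := by linarith
  have hR := hR33 hβ hR0 hk0 (by linarith)
  have Jl := dl13 d0 hβ (by linarith) (by linarith) (by linarith) (by linarith) hR0 hR
  have Jr := dr13 d1 hβ (by linarith) (by linarith) (by linarith) (by linarith) hR0 hR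
  obtain ⟨y1, y2⟩ := yl14 d0 hk1 hk2 b1 b2
  obtain ⟨z1, z2⟩ := yr14 d1 hk1 hk2 a1 a2
  have hM := mm14 d1 d0 hk1 hk2 a1 a2
  have hE0 : Real.exp (-(-0.476)) ≤ 1.60963 := by rw [neg_neg]; exact (expn_le (by norm_num) (by norm_num) (by norm_num))
  have hEr : Real.exp (-0.299) ≤ 0.74156 := (expm_le (by norm_num) (by norm_num) (by norm_num))
  have hA0 := A_lt d0 1 (-0.476) 1.60963 0.991 hk2 y1 hE0 (by norm_num) (by norm_num) (by norm_num)
  have hA1 := A_lt d1 1 0.299 0.74156 0.506 hk2 z1 hEr (by norm_num) (by norm_num) (by norm_num)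
  have hd0 : 1.8972 ≤ sD κ (t - Real.pi / 2) := sD_ge4 d0 0.95 _ hk1 (by linarith) (by norm_num) (by norm_num)
  have hd1 : 1.9025 ≤ sD κ t := sD_geR d1 0.95 _ hk1 (by linarith) (by linarith) (by norm_num) (by norm_num)
  have F0 := LD_facts (t := t - Real.pi / 2) 0.06 0.22 0.991 4.7009 0.4243 (-0.476) 1.60963 2.118 hβ hr hκ d0 (fun s hs => ⟨im_gt hs y1 (by norm_num), Jl s hs⟩) hA0 y1 hE0
    (C_of 1 1.60963 0.4243 1.8972 hk2 (by norm_num) hd0 (by norm_num) (by norm_num)) (by norm_num) (by norm_num) (by norm_num) (by norm_num) (by norm_num) (by norm_num) (by norm_num)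
  have z0 : -0 ≤ sy κ t := by linarith
  have F1 := LD_facts (t := t) 0.1 0.14 0.506 1.628 0.1949 0.299 0.74156 0.8435 hβ hr hκ d1 (fun s hs => ⟨im_gt hs z0 (by norm_num), Jr s hs⟩) hA1 z1 hEr
    (C_of 1 0.74156 0.1949 1.9025 hk2 (by norm_num) hd1 (by norm_num) (by norm_num)) (by norm_num) (by norm_num) (by norm_num) (by norm_num) (by norm_num) (by norm_num) (by norm_num)
  have hEl : 1.31916 ≤ Real.exp (-(-0.277)) := by rw [neg_neg]; exact (expn_ge (by norm_num) (by norm_num))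
  have hN := N_ge (κ := κ) (t := t - Real.pi / 2) 0.95 (-0.277) 1.31916 1 (by norm_num) hk1 y2 hEl (by norm_num) (by norm_num)
  have hx0 : sx κ (t - Real.pi / 2) ≤ 1.5857 := sx_hi d0 1 (-0.476) 0.277 1.60963 _ hk2 y1 (by norm_num) (by rw [abs_of_nonpos (by linarith)]; linarith) hE0 (by norm_num) (by norm_num)
  have hG0 := gs_le d0 1 1.5857 1.8972 0 hN (by norm_num) hx0 hd0 (by norm_num) (by norm_num) (by norm_num)
  have hG1 : (0 : ℝ) ≤ gs κ t := gs_nonneg d1 (by linarith) (by linarith)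
  exact SL_of (κ := κ) 4.6586 0.8238 0 0 0.6312 2.118 0.8435 0.0829 hr ⟨F0.1, F0.2.1, F0.2.2.trans (by norm_num)⟩ ⟨F1.1, F1.2.1, F1.2.2.trans (by norm_num)⟩ hG0 hG1 hM
    (by norm_num) (by norm_num)

end Sok.B4
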