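import Pool.Agent.Lib.MP_816dec_an.R1B4T
import Pool.Agent.Lib.MP_816dec_an.R1B4Jc
import Pool.Agent.Lib.MP_816dec_an.R1B4Jd
import Pool.Agent.Lib.MP_816dec_an.R1B4Je
import Pool.Agent.Lib.MP_816dec_an.R1B4Sbp1
import Pool.Agent.Lib.MP_816dec_an.R1B4Sbp2
import Pool.Agent.Lib.MP_816dec_an.R1B4Sbp3
import Pool.Agent.Lib.MP_816dec_an.R1B4Sbp4

/-!
MP_816dec_an (A3, row R1, b = 4): slopes.
-/

set_option autoImplicit false
set_option maxHeartbeats 4000000

open Complex Set Filter Topology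

namespace Sok.B4

end Sok.B4
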