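import Pool.Agent.Lib.MP_816dec_an.R1B4W
import Pool.Agent.Lib.MP_816dec_an.R1B4Sb

/-!
MP_816dec_an (A3, row R1, b = 4): range 3.
-/

set_option autoImplicit false
set_option maxHeartbeats 4000000

open Complex Set Filter Topology

namespace Sok.B4

private theorem y1_3 {β r κ t : ℝ} (hβ : 0 < β) (hr : 10 ≤ r) (hκ : κ = β * r) (hk1 : 0.6 ≤ κ) (hk2 : κ ≤ 0.8)
    (h1 : 0.0785 ≤ t + κ) (h2 : t + κ ≤ 0.864) {c : ℝ} (hV : 1 - c * (t + κ) ^ 2 / (1 + κ ^ 2) ≤ sE κ t) :
    0.79987 * Real.exp (r * (1 - c * (t + κ) ^ 2 / (1 + κ ^ 2))) ≤ ‖Pb β r t‖ := by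
  have hpi := Real.pi_gt_d6
  have hpi2 := Real.pi_lt_d6
  have hR0 : β * 10 ≤ κ := by rw [hκ]; exact mul_le_mul_of_nonneg_left hr hβ.le
  have hk0 : 0 < κ := by linarith
  have hd : DomR κ t := ⟨hk0, by linarith, Or.inl (by linarith [Real.exp_neg_one_lt_d9])⟩
  have J := jr3 hd hβ hk1 hk2 (by linarith) (by linarith) hR0 (hR33' hβ hR0 hk0 (by linarith))
  have y0 := sy_nonneg hd (by linarith)
  have y1 := syR_psi hd (0.8 / (1 + 0.8 ^ 2)) 0.864 0.4215 (psi_lo hd.1.le hk2 (by norm_num)) (by linarith) (by linarith) (by linarith) (by norm_num)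
  have hD := sD_le hd 0.8 0 0.4215 1 0.430428 2.11848 hk2 y0 y1 (by norm_num) (exp2 (expm_le (E := 0.65607) (by norm_num) (by norm_num) (by norm_num)) (by norm_num)) (by norm_num) (by norm_num)
  exact near_lo hβ (by linarith) hκ hd J hV hD (by norm_num) (by norm_num)

private theorem y1c_3 {β r κ t : ℝ} (hβ : 0 < β) (hr : 10 ≤ r) (hκ : κ = β * r) (hk1 : 0.6 ≤ κ) (hk2 : κ ≤ 0.8)
    (h1 : 0.719 ≤ t + κ) (h2 : t + κ ≤ 0.7697) :
    0.79987 * Real.exp (r * (1 - 0.46873 * (t + κ) ^ 2 / (1 + κ ^ 2))) ≤ ‖Pb β r t‖ := by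
  have hpi := Real.pi_gt_d6
  have hpi2 := Real.pi_lt_d6
  have hR0 : β * 10 ≤ κ := by rw [hκ]; exact mul_le_mul_of_nonneg_left hr hβ.le
  have hk0 : 0 < κ := by linarith
  have hd : DomR κ t := ⟨hk0, by linarith, Or.inl (by linarith [Real.exp_neg_one_lt_d9])⟩
  exact y1_3 hβ hr hκ hk1 hk2 (by linarith) (by linarith) (V1_piece hd 0.7 0.6 0.8 0.11699 0.1981 0.0435 0.719 0.7697 0.46873 hk1 hk2 h1 h2
    (by norm_num) (by norm_num) (by norm_num) (by norm_num) (by norm_num) (by norm_num) (by norm_num) (by norm_num) (by norm_num) (by norm_num) (by norm_num) (by norm_num) (by norm_num) (by norm_num))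

private theorem y1h_3 {β r κ t : ℝ} (hβ : 0 < β) (hr : 10 ≤ r) (hκ : κ = β * r) (hk1 : 0.6 ≤ κ) (hk2 : κ ≤ 0.8)
    (h1 : 0.0785 ≤ t + κ) (h2 : t + κ ≤ 0.864) :
    0.79987 * Real.exp (r * (1 - 0.5 * (t + κ) ^ 2 / (1 + κ ^ 2))) ≤ ‖Pb β r t‖ := by
  have hpi := Real.pi_gt_d6
  have hpi2 := Real.pi_lt_d6
  have hR0 : β * 10 ≤ κ := by rw [hκ]; exact mul_le_mul_of_nonneg_left hr hβ.le
  have hk0 : 0 < κ := by linarith
  have hd : DomR κ t := ⟨hk0, by linarith, Or.inl (by linarith [Real.exp_neg_one_lt_d9])⟩
  exact y1_3 hβ hr hκ hk1 hk2 (by linarith) (by linarith) (V1_half hd (by linarith) (by linarith))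

private theorem y0o_3 {β r κ t : ℝ} (hβ : 0 < β) (hr : 10 ≤ r) (hκ : κ = β * r) (hk1 : 0.6 ≤ κ) (hk2 : κ ≤ 0.8)
    (h1 : -0.5341 ≤ t + κ) (h2 : t + κ ≤ 0.0786) :
    0.81815 * Real.exp (r * (1 - 0.59207 * (t + κ) ^ 2 / (1 + κ ^ 2))) ≤ ‖Pb β r t‖ := by
  have hpi := Real.pi_gt_d6
  have hpi2 := Real.pi_lt_d6
  have hR0 : β * 10 ≤ κ := by rw [hκ]; exact mul_le_mul_of_nonneg_left hr hβ.le
  have hk0 : 0 < κ := by linarith
  have hd : DomR κ t := ⟨hk0, by linarith, Or.inl (by linarith [Real.exp_neg_one_lt_d9])⟩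
  have J := jo3 hd hβ hk1 hk2 (by linarith) (by linarith) hR0 (hR33' hβ hR0 hk0 (by linarith))
  have h := hd
  have hy1 : -0.312 ≤ sy κ t := syL_ge h 0.6 0.8 0.5341 0.312 0.73198 0.73199 0.3092 0.28547 0.38064 hk1 hk2 (by linarith) (by norm_num) (by norm_num) (by norm_num)
    (expm_ge (by norm_num) (by norm_num) (by norm_num) (by norm_num)) (expm_le (by norm_num) (by norm_num) (by norm_num)) (by norm_num)
    (by norm_num) (by norm_num) (by norm_num) (by norm_num) (by norm_num) (by norm_num)
  have hy3 : sy κ t ≤ 0.0384 := by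
    rcases le_total (t + κ) 0 with hz | hz
    · have := sy_nonpos hd hz
      linarith
    · exact syR_psi hd (0.8 / (1 + 0.8 ^ 2)) 0.0786 0.0384 (psi_lo hd.1.le hk2 (by norm_num)) hz (by linarith) (by linarith) (by norm_num)
  have hD := sD_le hd 0.8 (-0.312) 0.0384 1.866394 0.92608 1.6695 hk2 hy1 hy3 (exp2 (E := 1.36616) (by rw [neg_neg]; exact (expn_le (by norm_num) (by norm_num) (by norm_num))) (by norm_num)) (exp2 (expm_le (E := 0.96233) (by norm_num) (by norm_num) (by norm_num)) (by norm_num)) (by norm_num) (by norm_num)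
  have hV : 1 - 0.59207 * (t + κ) ^ 2 / (1 + κ ^ 2) ≤ sE κ t := by
    rcases le_total (t + κ) 0 with hz | hz
    · exact V0_piece hd 0.6 0.6 0.8 0.8565 (0.8 / (1 + 0.8 ^ 2)) 0.14276 0.09286 0.39755 0.48781 0.59207 0.5341 hk1 hk2 (by linarith) (by linarith) (psi_lo hd.1.le hk2 (by norm_num))
          (by norm_num) (by norm_num) (by norm_num) (by norm_num) (by norm_num) (by norm_num) (by norm_num) (by norm_num) (by norm_num) (by norm_num) (by norm_num) (by norm_num) (by norm_num) (by norm_num) (by norm_num)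
    · exact (V_weak (by norm_num)).trans (V1_half hd (by linarith) hz)
  exact near_lo hβ (by linarith) hκ hd J hV hD (by norm_num) (by norm_num)

private theorem y0w_3 {β r κ t : ℝ} (hβ : 0 < β) (hr : 10 ≤ r) (hκ : κ = β * r) (hk1 : 0.6 ≤ κ) (hk2 : κ ≤ 0.8)
    (h1 : -0.7069 ≤ t + κ) (h2 : t + κ ≤ -0.534) :
    0.63382 * Real.exp (r * (1 - 0.63262 * (t + κ) ^ 2 / (1 + κ ^ 2))) ≤ ‖Pb β r t‖ := by
  have hpi := Real.pi_gt_d6
  have hpi2 := Real.pi_lt_d6
  have hR0 : β * 10 ≤ κ := by rw [hκ]; exact mul_le_mul_of_nonneg_left hr hβ.le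
  have hk0 : 0 < κ := by linarith
  have hd : DomR κ t := ⟨hk0, by linarith, Or.inl (by linarith [Real.exp_neg_one_lt_d9])⟩
  have J : ‖HH β (sg κ t) - 1‖ ≤ 0.28 := by
    rcases le_total κ 0.65 with f0 | g0
    · exact (dl6 hd hβ (by linarith) (by linarith) (by linarith) (by linarith) hR0 (hR33' hβ hR0 hk0 (by linarith)) (sg κ t) (by rw [sub_self, norm_zero]; norm_num)).trans (by norm_num)
    rcases le_total κ 0.7 with f1 | g1
    · exact (dl7 hd hβ (by linarith) (by linarith) (by linarith) (by linarith) hR0 (hR33' hβ hR0 hk0 (by linarith)) (sg κ t) (by rw [sub_self, norm_zero]; norm_num)).trans (by norm_num)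
    rcases le_total κ 0.75 with f2 | g2
    · exact (dl8 hd hβ (by linarith) (by linarith) (by linarith) (by linarith) hR0 (hR33' hβ hR0 hk0 (by linarith)) (sg κ t) (by rw [sub_self, norm_zero]; norm_num)).trans (by norm_num)
    exact (dl9 hd hβ (by linarith) (by linarith) (by linarith) (by linarith) hR0 (hR33' hβ hR0 hk0 (by linarith)) (sg κ t) (by rw [sub_self, norm_zero]; norm_num)).trans (by norm_num)
  have h := hd
  have hy1 : -0.442 ≤ sy κ t := syL_ge h 0.6 0.8 0.7069 0.442 0.64274 0.64275 0.434 0.35511 0.4735 hk1 hk2 (by linarith) (by norm_num) (by norm_num) (by norm_num)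
    (expm_ge (by norm_num) (by norm_num) (by norm_num) (by norm_num)) (expm_le (by norm_num) (by norm_num) (by norm_num)) (by norm_num)
    (by norm_num) (by norm_num) (by norm_num) (by norm_num) (by norm_num) (by norm_num)
  have hD := sD_le hd 0.8 (-0.442) 0 2.420576 1 1.66517 hk2 hy1 (sy_nonpos hd (by linarith)) (exp2 (E := 1.55582) (by rw [neg_neg]; exact (expn_le (by norm_num) (by norm_num) (by norm_num))) (by norm_num)) (by norm_num) (by norm_num) (by norm_num)
  have hV : 1 - 0.63262 * (t + κ) ^ 2 / (1 + κ ^ 2) ≤ sE κ t := V0_piece hd 0.6 0.6 0.8 0.8565 (0.8 / (1 + 0.8 ^ 2)) 0.14276 0.09286 0.39755 0.48781 0.63262 0.7069 hk1 hk2 (by linarith) (by linarith) (psi_lo hd.1.le hk2 (by norm_num))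
          (by norm_num) (by norm_num) (by norm_num) (by norm_num) (by norm_num) (by norm_num) (by norm_num) (by norm_num) (by norm_num) (by norm_num) (by norm_num) (by norm_num) (by norm_num) (by norm_num) (by norm_num)
  exact near_lo hβ (by linarith) hκ hd J hV hD (by norm_num) (by norm_num)

private theorem RL_3 {β r κ t : ℝ} (hβ : 0 < β) (hr : 10 ≤ r) (hκ : κ = β * r) (hk1 : 0.6 ≤ κ) (hk2 : κ ≤ 0.8)
    (h1 : 0.05 * (Real.pi / 2) ≤ t + κ) (h2 : t + κ ≤ 0.49 * (Real.pi / 2)) :
    ‖Pb β r (t - Real.pi)‖ + ‖Pb β r (t + Real.pi / 2)‖ < |‖Pb β r t‖ - ‖Pb β r (t - Real.pi / 2)‖| := by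
  have hpi := Real.pi_gt_d6
  have hpi2 := Real.pi_lt_d6
  have hR0 : β * 10 ≤ κ := by rw [hκ]; exact mul_le_mul_of_nonneg_left hr hβ.le
  have hk0 : 0 < κ := by linarith
  have hY := y1h_3 hβ hr hκ hk1 hk2 (t := t) (by linarith) (by linarith)
  have hY0 : 0 < ‖Pb β r t‖ := lt_of_lt_of_le (mul_pos (by norm_num) (Real.exp_pos _)) hY
  have c0 : ‖Pb β r (t - Real.pi / 2)‖ ≤ 0.89315 * ‖Pb β r t‖ := by
    rcases le_total (t + κ) 0.719 with hz | hz
    · exact (cellN (t' := t - Real.pi / 2) (τ := t + κ) 0.6 0.8 0.55 0.57696 1.73326 1.73324 1.3037 0.50921 0.0331 1.18327 0.08727 0.00074 0.00008 0.5 1.333 _ _ 0.0785 0.719 0.719 1.570796 0 1 0.79987 0.1058 0.6956 0.8099 0.34719 0.0009559 0.0003039 1.6287 0.56751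
      hβ hr hκ hk1 hk2 (by norm_num) (by linarith) (by linarith) (by linarith) (by linarith) (by linarith) hY
      (expm_le (by norm_num) (by norm_num) (by norm_num)) (expn_ge (by norm_num) (by norm_num)) (expn_le (by norm_num) (by norm_num) (by norm_num)) (by norm_num)
      (exp_neg_leJ (r := 0.0579) 1 (by norm_num) (by norm_num) (by norm_num) (by norm_num)) (exp_neg_leJ (r := 0.9559) 6 (by norm_num) (by norm_num) (by norm_num) (by norm_num)) (exp_neg_leJ (r := 0.0989) 8 (by norm_num) (by norm_num) (by norm_num) (by norm_num))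
      (by linarith)
      (by norm_num) (by norm_num) (by norm_num) (by norm_num) (by norm_num) (by norm_num) (by norm_num) (by norm_num) (by norm_num) (by norm_num) (by norm_num) (by norm_num) (by norm_num) (by norm_num) (by norm_num) (by norm_num) (by norm_num) (by norm_num) (by norm_num) le_rfl rfl (by norm_num) (by norm_num) (by norm_num) (by norm_num) (by norm_num) (by norm_num) (by norm_num) (by norm_num) (by norm_num) (by norm_num) (by norm_num) (by norm_num) (by norm_num) (by norm_num) (by norm_num) (by norm_num) (by norm_num) (by norm_num) (by norm_num)).trans (mul_le_mul_of_nonneg_right (by norm_num) hY0.le)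
    · have hY' := y1c_3 hβ hr hκ hk1 hk2 (t := t) hz (by linarith)
      exact (cellN (t' := t - Real.pi / 2) (τ := t + κ) 0.6 0.8 0.51 0.6005 1.6653 1.66528 1.3213 0.51595 0.0331 1.15531 0.0781 0.00062 0.00006 0.46873 1.333 _ _ 0.719 0.7697 0.7697 1.570796 0 1 0.79987 0.0618 0.646 0.7958 0.53932 0.001566 0.000351 1.6287 0.89315
      hβ hr hκ hk1 hk2 (by norm_num) (by linarith) (by linarith) (by linarith) (by linarith) (by linarith) hY'
      (expm_le (by norm_num) (by norm_num) (by norm_num)) (expn_ge (by norm_num) (by norm_num)) (expn_le (by norm_num) (by norm_num) (by norm_num)) (by norm_num)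
      (exp_neg_leJ (r := 0.6179) 0 (by norm_num) (by norm_num) (by norm_num) (by norm_num)) (exp_neg_leJ (r := 0.4599) 6 (by norm_num) (by norm_num) (by norm_num) (by norm_num)) (exp_neg_leJ (r := 0.9579) 7 (by norm_num) (by norm_num) (by norm_num) (by norm_num))
      (by linarith)
      (by norm_num) (by norm_num) (by norm_num) (by norm_num) (by norm_num) (by norm_num) (by norm_num) (by norm_num) (by norm_num) (by norm_num) (by norm_num) (by norm_num) (by norm_num) (by norm_num) (by norm_num) (by norm_num) (by norm_num) (by norm_num) (by norm_num) le_rfl rfl (by norm_num) (by norm_num) (by norm_num) (by norm_num) (by norm_num) (by norm_num) (by norm_num) (by norm_num) (by norm_num) (by norm_num) (by norm_num) (by norm_num) (by norm_num) (by norm_num) (by norm_num) (by norm_num) (by norm_num) (by norm_num) (by norm_num)).trans (mul_le_mul_of_nonneg_right (by norm_num) hY0.le)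
  have cm : ‖Pb β r (t - Real.pi)‖ ≤ 0.0008 * ‖Pb β r t‖ := cellN (t' := t - Real.pi) (τ := t + κ) 0.6 0.8 0.51 0.6005 1.6653 1.66528 1.3213 0.51595 0.0942 1.15531 0.0781 0.00062 0.00006 0.5 1.333 _ _ 0.0785 0.7697 0.7697 3.141592 0 1 0.79987 1.0519 1.8396 0.7821 0.00002703 0.0000003101 0.0004019 1.6287 0.0008
      hβ hr hκ hk1 hk2 (by norm_num) (by linarith) (by linarith) (by linarith) (by linarith) (by linarith) hY
      (expm_le (by norm_num) (by norm_num) (by norm_num)) (expn_ge (by norm_num) (by norm_num)) (expn_le (by norm_num) (by norm_num) (by norm_num)) (by norm_num)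
      (exp_neg_leJ (r := 0.5189) 10 (by norm_num) (by norm_num) (by norm_num) (by norm_num)) (exp_neg_leJ (r := 0.9899) 14 (by norm_num) (by norm_num) (by norm_num) (by norm_num)) (exp_neg_leJ (r := 0.8209) 7 (by norm_num) (by norm_num) (by norm_num) (by norm_num))
      (by linarith)
      (by norm_num) (by norm_num) (by norm_num) (by norm_num) (by norm_num) (by norm_num) (by norm_num) (by norm_num) (by norm_num) (by norm_num) (by norm_num) (by norm_num) (by norm_num) (by norm_num) (by norm_num) (by norm_num) (by norm_num) (by norm_num) (by norm_num) le_rfl rfl (by norm_num) (by norm_num) (by norm_num) (by norm_num) (by norm_num) (by norm_num) (by norm_num) (by norm_num) (by norm_num) (by norm_num) (by norm_num) (by norm_num) (by norm_num) (by norm_num) (by norm_num) (by norm_num) (by norm_num) (by norm_num) (by norm_num)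
  have c2 : ‖Pb β r (t + Real.pi / 2)‖ ≤ 0.02043 * ‖Pb β r t‖ := by
    rcases le_total (t + Real.pi / 2) (Real.pi / 2) with hz | hz
    · exact (cellHU (t' := t + Real.pi / 2) (τ := t + κ) 0.6 0.8 0.36 1.43333 0.69767 0.69768 2.65 0.30617 0.0171 0.000001 24.587 0.0000003101 1.05769 0.09288 0.00207 0.00055 0.5 1.333 _ _ 0.0785 0.7697 0.7697 1.570796 0.79987 0.5303 0.6734 0.7821 0.004978 0.001192 0.0004019 1.6287 0.02043
      hβ hr hκ hk1 hk2 (by linarith) (by linarith) (by linarith) (by linarith) (by linarith) hY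
      (expn_le (by norm_num) (by norm_num) (by norm_num))
      (expm_ge (by norm_num) (by norm_num) (by norm_num) (by norm_num)) (expm_le (by norm_num) (by norm_num) (by norm_num)) (exp_neg_leJ (r := 0.9899) 14 (by norm_num) (by norm_num) (by norm_num) (by norm_num)) 
      (exp_neg_leJ (r := 0.3029) 5 (by norm_num) (by norm_num) (by norm_num) (by norm_num)) (exp_neg_leJ (r := 0.7339) 6 (by norm_num) (by norm_num) (by norm_num) (by norm_num)) (exp_neg_leJ (r := 0.8209) 7 (by norm_num) (by norm_num) (by norm_num) (by norm_num))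
      (by linarith)
      (by norm_num) (by norm_num) (by norm_num) (by norm_num) (by norm_num) (by norm_num) (by norm_num) (by norm_num) (by norm_num) (by norm_num) (by norm_num) (by norm_num) (by norm_num) (by norm_num) (by norm_num) (by norm_num) (by norm_num) (by norm_num) (by norm_num) (by norm_num) (by norm_num) le_rfl rfl (by norm_num) (by norm_num) (by norm_num) (by norm_num) (by norm_num) (by norm_num) (by norm_num) (by norm_num) (by norm_num) (by norm_num) (by norm_num) (by norm_num) (by norm_num) (by norm_num) (by norm_num) (by norm_num) (by norm_num) (by norm_num) (by norm_num)).trans (mul_le_mul_of_nonneg_right (by norm_num) hY0.le)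
    · exact (cellUD (t' := t + Real.pi / 2) (τ := t + κ) 0.6 0.8 0.5 0.7697 0.79987 0.7821 0.001093 0.0004019 1.6287 0.00403
      hβ hr hκ hk1 hk2 (by norm_num) (by linarith) (by linarith) (by linarith) (by linarith) hY
      (exp_neg_leJ (r := 0.8209) 6 (by norm_num) (by norm_num) (by norm_num) (by norm_num)) (exp_neg_leJ (r := 0.8209) 7 (by norm_num) (by norm_num) (by norm_num) (by norm_num)) (by norm_num) (by norm_num) (by norm_num) (by norm_num) (by norm_num) (by norm_num) (by norm_num) (by norm_num)).trans (mul_le_mul_of_nonneg_right (by norm_num) hY0.le)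
  exact out_left hY0 c0 cm c2 (by norm_num)

private theorem RR_3 {β r κ t : ℝ} (hβ : 0 < β) (hr : 10 ≤ r) (hκ : κ = β * r) (hk1 : 0.6 ≤ κ) (hk2 : κ ≤ 0.8)
    (h1 : 0.66 * (Real.pi / 2) ≤ t + κ) (h2 : t + κ ≤ (0.05 + 1) * (Real.pi / 2)) :
    ‖Pb β r (t - Real.pi)‖ + ‖Pb β r (t + Real.pi / 2)‖ < |‖Pb β r t‖ - ‖Pb β r (t - Real.pi / 2)‖| := by
  have hpi := Real.pi_gt_d6
  have hpi2 := Real.pi_lt_d6
  have hR0 : β * 10 ≤ κ := by rw [hκ]; exact mul_le_mul_of_nonneg_left hr hβ.le
  have hk0 : 0 < κ := by linarith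
  have hY := y0o_3 hβ hr hκ hk1 hk2 (t := t - Real.pi / 2) (by linarith) (by linarith)
  have hY0 : 0 < ‖Pb β r (t - Real.pi / 2)‖ := lt_of_lt_of_le (mul_pos (by norm_num) (Real.exp_pos _)) hY
  have c1 : ‖Pb β r t‖ ≤ 0.61142 * ‖Pb β r (t - Real.pi / 2)‖ := cellH (t' := t) (τ := t - Real.pi / 2 + κ) 0.6 0.8 0.3 1.34986 0.74081 0.74082 2.1386 0.44272 0.0443 0.1151 0.000001 24.587 0.0000003101 1.04083 0.06075 0.00084 0.00014 0.59207 1.333 _ _ (-0.5341) 0.0786 0.5341 1.570796 0.81815 0.1471 0.3053 0.8758 0.22975 0.04723 0.0001574 1.6287 0.61142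
      hβ hr hκ hk1 hk2 (by linarith) (by linarith) (by linarith) (by linarith) (by linarith) hY
      (expn_le (by norm_num) (by norm_num) (by norm_num))
      (expm_ge (by norm_num) (by norm_num) (by norm_num) (by norm_num)) (expm_le (by norm_num) (by norm_num) (by norm_num)) (exp_neg_leJ (r := 0.9899) 14 (by norm_num) (by norm_num) (by norm_num) (by norm_num)) 
      (exp_neg_leJ (r := 0.4709) 1 (by norm_num) (by norm_num) (by norm_num) (by norm_num)) (exp_neg_leJ (r := 0.0529) 3 (by norm_num) (by norm_num) (by norm_num) (by norm_num)) (exp_neg_leJ (r := 0.7579) 8 (by norm_num) (by norm_num) (by norm_num) (by norm_num))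
      (by linarith) (by linarith)
      (by norm_num) (by norm_num) (by norm_num) (by norm_num) (by norm_num) (by norm_num) (by norm_num) (by norm_num) (by norm_num) (by norm_num) (by norm_num) (by norm_num) (by norm_num) (by norm_num) (by norm_num) (by norm_num) (by norm_num) (by norm_num) (by norm_num) (by norm_num) (by norm_num) (by norm_num) le_rfl rfl (by norm_num) (by norm_num) (by norm_num) (by norm_num) (by norm_num) (by norm_num) (by norm_num) (by norm_num) (by norm_num) (by norm_num) (by norm_num) (by norm_num) (by norm_num) (by norm_num) (by norm_num) (by norm_num) (by norm_num) (by norm_num) (by norm_num)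
  have cm : ‖Pb β r (t - Real.pi)‖ ≤ 0.00077 * ‖Pb β r (t - Real.pi / 2)‖ := cellN (t' := t - Real.pi) (τ := t - Real.pi / 2 + κ) 0.6 0.8 0.75 0.47238 2.11701 2.11697 1.2097 0.48423 0.0443 1.36702 0.13286 0.00139 0.00018 0.59207 1.333 _ _ (-0.5341) 0.0786 0.5341 1.570796 0 1 0.81815 0.818 1.6489 0.8758 0.0002803 0.0000003101 0.0001574 1.6287 0.00077
      hβ hr hκ hk1 hk2 (by norm_num) (by linarith) (by linarith) (by linarith) (by linarith) (by linarith) hY
      (expm_le (by norm_num) (by norm_num) (by norm_num)) (expn_ge (by norm_num) (by norm_num)) (expn_le (by norm_num) (by norm_num) (by norm_num)) (by norm_num)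
      (exp_neg_leJ (r := 0.1799) 8 (by norm_num) (by norm_num) (by norm_num) (by norm_num)) (exp_neg_leJ (r := 0.9899) 14 (by norm_num) (by norm_num) (by norm_num) (by norm_num)) (exp_neg_leJ (r := 0.7579) 8 (by norm_num) (by norm_num) (by norm_num) (by norm_num))
      (by linarith)
      (by norm_num) (by norm_num) (by norm_num) (by norm_num) (by norm_num) (by norm_num) (by norm_num) (by norm_num) (by norm_num) (by norm_num) (by norm_num) (by norm_num) (by norm_num) (by norm_num) (by norm_num) (by norm_num) (by norm_num) (by norm_num) (by norm_num) le_rfl rfl (by norm_num) (by norm_num) (by norm_num) (by norm_num) (by norm_num) (by norm_num) (by norm_num) (by norm_num) (by norm_num) (by norm_num) (by norm_num) (by norm_num) (by norm_num) (by norm_num) (by norm_num) (by norm_num) (by norm_num) (by norm_num) (by norm_num)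
  have c2 : ‖Pb β r (t + Real.pi / 2)‖ ≤ 0.00155 * ‖Pb β r (t - Real.pi / 2)‖ := by
    rcases le_total (t + Real.pi / 2) (Real.pi / 2) with hz | hz
    · exact (cellHU (t' := t + Real.pi / 2) (τ := t - Real.pi / 2 + κ) 0.6 0.8 0.38 1.46229 0.68386 0.68387 3.1131 0.22634 0.0171 0.000001 24.587 0.0000003101 1.06388 0.10558 0.00272 0.00084 0.59207 1.333 _ _ (-0.5341) 0.0786 0.5341 3.141592 0.81815 0.8966 1.0092 0.8758 0.0001281 0.00004142 0.0001574 1.6287 0.00085
      hβ hr hκ hk1 hk2 (by linarith) (by linarith) (by linarith) (by linarith) (by linarith) hY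
      (expn_le (by norm_num) (by norm_num) (by norm_num))
      (expm_ge (by norm_num) (by norm_num) (by norm_num) (by norm_num)) (expm_le (by norm_num) (by norm_num) (by norm_num)) (exp_neg_leJ (r := 0.9899) 14 (by norm_num) (by norm_num) (by norm_num) (by norm_num)) 
      (exp_neg_leJ (r := 0.9659) 8 (by norm_num) (by norm_num) (by norm_num) (by norm_num)) (exp_neg_leJ (r := 0.0919) 10 (by norm_num) (by norm_num) (by norm_num) (by norm_num)) (exp_neg_leJ (r := 0.7579) 8 (by norm_num) (by norm_num) (by norm_num) (by norm_num))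
      (by linarith)
      (by norm_num) (by norm_num) (by norm_num) (by norm_num) (by norm_num) (by norm_num) (by norm_num) (by norm_num) (by norm_num) (by norm_num) (by norm_num) (by norm_num) (by norm_num) (by norm_num) (by norm_num) (by norm_num) (by norm_num) (by norm_num) (by norm_num) (by norm_num) (by norm_num) le_rfl rfl (by norm_num) (by norm_num) (by norm_num) (by norm_num) (by norm_num) (by norm_num) (by norm_num) (by norm_num) (by norm_num) (by norm_num) (by norm_num) (by norm_num) (by norm_num) (by norm_num) (by norm_num) (by norm_num) (by norm_num) (by norm_num) (by norm_num)).trans (mul_le_mul_of_nonneg_right (by norm_num) hY0.le)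
    · exact (cellUD (t' := t + Real.pi / 2) (τ := t - Real.pi / 2 + κ) 0.6 0.8 0.59207 0.5341 0.81815 0.8758 0.0004279 0.0001574 1.6287 0.00155
      hβ hr hκ hk1 hk2 (by norm_num) (by linarith) (by linarith) (by linarith) (by linarith) hY
      (exp_neg_leJ (r := 0.7579) 7 (by norm_num) (by norm_num) (by norm_num) (by norm_num)) (exp_neg_leJ (r := 0.7579) 8 (by norm_num) (by norm_num) (by norm_num) (by norm_num)) (by norm_num) (by norm_num) (by norm_num) (by norm_num) (by norm_num) (by norm_num) (by norm_num) (by norm_num)).trans (mul_le_mul_of_nonneg_right (by norm_num) hY0.le)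
  exact out_right hY0 c1 cm c2 (by norm_num)

private theorem WE_3 {β r κ t : ℝ} (hβ : 0 < β) (hr : 10 ≤ r) (hκ : κ = β * r) (hk1 : 0.6 ≤ κ) (hk2 : κ ≤ 0.8)
    (h1 : 0.49 * (Real.pi / 2) ≤ t + κ) (h2 : t + κ ≤ 0.66 * (Real.pi / 2)) :
    ‖Pb β r (t + Real.pi / 2)‖ ≤ 0.00709 * max ‖Pb β r (t - Real.pi / 2)‖ ‖Pb β r t‖ ∧
    ‖Pb β r (t - Real.pi)‖ ≤ 0.00139 * max ‖Pb β r (t - Real.pi / 2)‖ ‖Pb β r t‖ ∧
    ‖Pb β r (t + Real.pi / 2 + β)‖ ≤ 0.00709 * max ‖Pb β r (t - Real.pi / 2)‖ ‖Pb β r t‖ ∧
    ‖Pb β r (t - Real.pi + β)‖ ≤ 0.00144 * max ‖Pb β r (t - Real.pi / 2)‖ ‖Pb β r t‖ := by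
  have hpi := Real.pi_gt_d6
  have hpi2 := Real.pi_lt_d6
  have hR0 : β * 10 ≤ κ := by rw [hκ]; exact mul_le_mul_of_nonneg_left hr hβ.le
  have hk0 : 0 < κ := by linarith
  rcases le_total (t + κ) (0.55 * (Real.pi / 2)) with hm | hm
  · have hY := y1h_3 hβ hr hκ hk1 hk2 (t := t) (by linarith) (by linarith)
    have hY0 : 0 ≤ ‖Pb β r t‖ := norm_nonneg _
    have hmx : ‖Pb β r t‖ ≤ max ‖Pb β r (t - Real.pi / 2)‖ ‖Pb β r t‖ := (le_max_right _ _)
    have hmx0 := hY0.trans hmx
    refine ⟨?_, ?_, ?_, ?_⟩
    · rcases le_total (t + Real.pi / 2) (Real.pi / 2) with hz | hz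
      · exact (cellHU (t' := t + Real.pi / 2) (τ := t + κ) 0.6 0.8 0.38 1.46229 0.68386 0.68387 3.1131 0.22634 0.0171 0.000001 24.587 0.0000003101 1.06388 0.10558 0.00272 0.00084 0.5 1.333 _ _ 0.7696 0.864 0.864 1.570796 0.79987 0.6897 0.8022 0.7255 0.001014 0.0003282 0.0007068 1.6287 0.00601
      hβ hr hκ hk1 hk2 (by linarith) (by linarith) (by linarith) (by linarith) (by linarith) hY
      (expn_le (by norm_num) (by norm_num) (by norm_num))
      (expm_ge (by norm_num) (by norm_num) (by norm_num) (by norm_num)) (expm_le (by norm_num) (by norm_num) (by norm_num)) (exp_neg_leJ (r := 0.9899) 14 (by norm_num) (by norm_num) (by norm_num) (by norm_num)) 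
      (exp_neg_leJ (r := 0.8969) 6 (by norm_num) (by norm_num) (by norm_num) (by norm_num)) (exp_neg_leJ (r := 0.0219) 8 (by norm_num) (by norm_num) (by norm_num) (by norm_num)) (exp_neg_leJ (r := 0.2549) 7 (by norm_num) (by norm_num) (by norm_num) (by norm_num))
      (by linarith)
      (by norm_num) (by norm_num) (by norm_num) (by norm_num) (by norm_num) (by norm_num) (by norm_num) (by norm_num) (by norm_num) (by norm_num) (by norm_num) (by norm_num) (by norm_num) (by norm_num) (by norm_num) (by norm_num) (by norm_num) (by norm_num) (by norm_num) (by norm_num) (by norm_num) le_rfl rfl (by norm_num) (by norm_num) (by norm_num) (by norm_num) (by norm_num) (by norm_num) (by norm_num) (by norm_num) (by norm_num) (by norm_num) (by norm_num) (by norm_num) (by norm_num) (by norm_num) (by norm_num) (by norm_num) (by norm_num) (by norm_num) (by norm_num)).trans (mul_le_mul (by norm_num) hmx hY0 (by norm_num))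
      · exact (cellUD (t' := t + Real.pi / 2) (τ := t + κ) 0.6 0.8 0.5 0.864 0.79987 0.7255 0.001922 0.0007068 1.6287 0.00709
      hβ hr hκ hk1 hk2 (by norm_num) (by linarith) (by linarith) (by linarith) (by linarith) hY
      (exp_neg_leJ (r := 0.2549) 6 (by norm_num) (by norm_num) (by norm_num) (by norm_num)) (exp_neg_leJ (r := 0.2549) 7 (by norm_num) (by norm_num) (by norm_num) (by norm_num)) (by norm_num) (by norm_num) (by norm_num) (by norm_num) (by norm_num) (by norm_num) (by norm_num) (by norm_num)).trans (mul_le_mul (by norm_num) hmx hY0 (by norm_num))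
    · exact (cellN (t' := t - Real.pi) (τ := t + κ) 0.6 0.8 0.52 0.59453 1.68203 1.68202 1.317 0.51422 0.052 1.16204 0.08039 0.00065 0.00007 0.5 1.333 _ _ 0.7696 0.864 0.864 3.141592 0 1 0.79987 0.9628 1.7512 0.7255 0.0000659 0.0000003101 0.0007068 1.6287 0.00139
      hβ hr hκ hk1 hk2 (by norm_num) (by linarith) (by linarith) (by linarith) (by linarith) (by linarith) hY
      (expm_le (by norm_num) (by norm_num) (by norm_num)) (expn_ge (by norm_num) (by norm_num)) (expn_le (by norm_num) (by norm_num) (by norm_num)) (by norm_num)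
      (exp_neg_leJ (r := 0.6279) 9 (by norm_num) (by norm_num) (by norm_num) (by norm_num)) (exp_neg_leJ (r := 0.9899) 14 (by norm_num) (by norm_num) (by norm_num) (by norm_num)) (exp_neg_leJ (r := 0.2549) 7 (by norm_num) (by norm_num) (by norm_num) (by norm_num))
      (by linarith)
      (by norm_num) (by norm_num) (by norm_num) (by norm_num) (by norm_num) (by norm_num) (by norm_num) (by norm_num) (by norm_num) (by norm_num) (by norm_num) (by norm_num) (by norm_num) (by norm_num) (by norm_num) (by norm_num) (by norm_num) (by norm_num) (by norm_num) le_rfl rfl (by norm_num) (by norm_num) (by norm_num) (by norm_num) (by norm_num) (by norm_num) (by norm_num) (by norm_num) (by norm_num) (by norm_num) (by norm_num) (by norm_num) (by norm_num) (by norm_num) (by norm_num) (by norm_num) (by norm_num) (by norm_num) (by norm_num)).trans (mul_le_mul (by norm_num) hmx hY0 (by norm_num))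
    · rcases le_total (t + Real.pi / 2 + β) (Real.pi / 2) with hz | hz
      · exact (cellHU (t' := t + Real.pi / 2 + β) (τ := t + κ) 0.6 0.8 0.38 1.46229 0.68386 0.68387 3.1131 0.22634 0.0171 0.000001 24.587 0.0000003101 1.06388 0.10558 0.00272 0.00084 0.5 1.333 _ _ 0.7696 0.864 0.864 1.570796 0.79987 0.6897 0.8022 0.7255 0.001014 0.0003282 0.0007068 1.6287 0.00601
      hβ hr hκ hk1 hk2 (by linarith) (by linarith) (by linarith) (by linarith) (by linarith) hY
      (expn_le (by norm_num) (by norm_num) (by norm_num))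
      (expm_ge (by norm_num) (by norm_num) (by norm_num) (by norm_num)) (expm_le (by norm_num) (by norm_num) (by norm_num)) (exp_neg_leJ (r := 0.9899) 14 (by norm_num) (by norm_num) (by norm_num) (by norm_num)) 
      (exp_neg_leJ (r := 0.8969) 6 (by norm_num) (by norm_num) (by norm_num) (by norm_num)) (exp_neg_leJ (r := 0.0219) 8 (by norm_num) (by norm_num) (by norm_num) (by norm_num)) (exp_neg_leJ (r := 0.2549) 7 (by norm_num) (by norm_num) (by norm_num) (by norm_num))
      (by linarith)
      (by norm_num) (by norm_num) (by norm_num) (by norm_num) (by norm_num) (by norm_num) (by norm_num) (by norm_num) (by norm_num) (by norm_num) (by norm_num) (by norm_num) (by norm_num) (by norm_num) (by norm_num) (by norm_num) (by norm_num) (by norm_num) (by norm_num) (by norm_num) (by norm_num) le_rfl rfl (by norm_num) (by norm_num) (by norm_num) (by norm_num) (by norm_num) (by norm_num) (by norm_num) (by norm_num) (by norm_num) (by norm_num) (by norm_num) (by norm_num) (by norm_num) (by norm_num) (by norm_num) (by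 norm_num) (by norm_num) (by norm_num) (by norm_num)).trans (mul_le_mul (by norm_num) hmx hY0 (by norm_num))
      · exact (cellUD (t' := t + Real.pi / 2 + β) (τ := t + κ) 0.6 0.8 0.5 0.864 0.79987 0.7255 0.001922 0.0007068 1.6287 0.00709
      hβ hr hκ hk1 hk2 (by norm_num) (by linarith) (by linarith) (by linarith) (by linarith) hY
      (exp_neg_leJ (r := 0.2549) 6 (by norm_num) (by norm_num) (by norm_num) (by norm_num)) (exp_neg_leJ (r := 0.2549) 7 (by norm_num) (by norm_num) (by norm_num) (by norm_num)) (by norm_num) (by norm_num) (by norm_num) (by norm_num) (by norm_num) (by norm_num) (by norm_num) (by norm_num)).trans (mul_le_mul (by norm_num) hmx hY0 (by norm_num))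
    · exact (cellN (t' := t - Real.pi + β) (τ := t + κ) 0.6 0.8 0.55 0.57696 1.73326 1.73324 1.3037 0.50921 0.052 1.18327 0.08727 0.00074 0.00008 0.5 1.333 _ _ 0.7696 0.864 0.864 3.141592 1 1.73326 0.79987 1.0159 1.8077 0.7255 0.00003873 0.0000003101 0.0007068 1.6287 0.00144
      hβ hr hκ hk1 hk2 (by norm_num) (by linarith) (by linarith) (by linarith) (by linarith) (by linarith) hY
      (expm_le (by norm_num) (by norm_num) (by norm_num)) (expn_ge (by norm_num) (by norm_num)) (expn_le (by norm_num) (by norm_num) (by norm_num)) (by rw [mul_one]; exact (expn_le (by norm_num) (by norm_num) (by norm_num)))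
      (exp_neg_leJ (r := 0.1589) 10 (by norm_num) (by norm_num) (by norm_num) (by norm_num)) (exp_neg_leJ (r := 0.9899) 14 (by norm_num) (by norm_num) (by norm_num) (by norm_num)) (exp_neg_leJ (r := 0.2549) 7 (by norm_num) (by norm_num) (by norm_num) (by norm_num))
      (by linarith)
      (by norm_num) (by norm_num) (by norm_num) (by norm_num) (by norm_num) (by norm_num) (by norm_num) (by norm_num) (by norm_num) (by norm_num) (by norm_num) (by norm_num) (by norm_num) (by norm_num) (by norm_num) (by norm_num) (by norm_num) (by norm_num) (by norm_num) le_rfl rfl (by norm_num) (by norm_num) (by norm_num) (by norm_num) (by norm_num) (by norm_num) (by norm_num) (by norm_num) (by norm_num) (by norm_num) (by norm_num) (by norm_num) (by norm_num) (by norm_num) (by norm_num) (by norm_num) (by norm_num) (by norm_num) (by norm_num)).trans (mul_le_mul (by norm_num) hmx hY0 (by norm_num))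
  · have hY := y0w_3 hβ hr hκ hk1 hk2 (t := t - Real.pi / 2) (by linarith) (by linarith)
    have hY0 : 0 ≤ ‖Pb β r (t - Real.pi / 2)‖ := norm_nonneg _
    have hmx : ‖Pb β r (t - Real.pi / 2)‖ ≤ max ‖Pb β r (t - Real.pi / 2)‖ ‖Pb β r t‖ := (le_max_left _ _)
    have hmx0 := hY0.trans hmx
    refine ⟨?_, ?_, ?_, ?_⟩
    · rcases le_total (t + Real.pi / 2) (Real.pi / 2) with hz | hz
      · exact (cellHU (t' := t + Real.pi / 2) (τ := t - Real.pi / 2 + κ) 0.6 0.8 0.38 1.46229 0.68386 0.68387 3.1131 0.22634 0.0171 0.000001 24.587 0.0000003101 1.06388 0.10558 0.00272 0.00084 0.63262 1.333 _ _ (-0.7069) (-0.534) 0.7069 3.141592 0.63382 0.7245 0.8371 0.7675 0.0007139 0.0002316 0.0004647 1.6287 0.00528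
      hβ hr hκ hk1 hk2 (by linarith) (by linarith) (by linarith) (by linarith) (by linarith) hY
      (expn_le (by norm_num) (by norm_num) (by norm_num))
      (expm_ge (by norm_num) (by norm_num) (by norm_num) (by norm_num)) (expm_le (by norm_num) (by norm_num) (by norm_num)) (exp_neg_leJ (r := 0.9899) 14 (by norm_num) (by norm_num) (by norm_num) (by norm_num)) 
      (exp_neg_leJ (r := 0.2449) 7 (by norm_num) (by norm_num) (by norm_num) (by norm_num)) (exp_neg_leJ (r := 0.3709) 8 (by norm_num) (by norm_num) (by norm_num) (by norm_num)) (exp_neg_leJ (r := 0.6749) 7 (by norm_num) (by norm_num) (by norm_num) (by norm_num))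
      (by linarith)
      (by norm_num) (by norm_num) (by norm_num) (by norm_num) (by norm_num) (by norm_num) (by norm_num) (by norm_num) (by norm_num) (by norm_num) (by norm_num) (by norm_num) (by norm_num) (by norm_num) (by norm_num) (by norm_num) (by norm_num) (by norm_num) (by norm_num) (by norm_num) (by norm_num) le_rfl rfl (by norm_num) (by norm_num) (by norm_num) (by norm_num) (by norm_num) (by norm_num) (by norm_num) (by norm_num) (by norm_num) (by norm_num) (by norm_num) (by norm_num) (by norm_num) (by norm_num) (by norm_num) (by norm_num) (by norm_num) (by norm_num) (by norm_num)).trans (mul_le_mul (by norm_num) hmx hY0 (by norm_num))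
      · exact (cellUD (t' := t + Real.pi / 2) (τ := t - Real.pi / 2 + κ) 0.6 0.8 0.63262 0.7069 0.63382 0.7675 0.001264 0.0004647 1.6287 0.00588
      hβ hr hκ hk1 hk2 (by norm_num) (by linarith) (by linarith) (by linarith) (by linarith) hY
      (exp_neg_leJ (r := 0.6749) 6 (by norm_num) (by norm_num) (by norm_num) (by norm_num)) (exp_neg_leJ (r := 0.6749) 7 (by norm_num) (by norm_num) (by norm_num) (by norm_num)) (by norm_num) (by norm_num) (by norm_num) (by norm_num) (by norm_num) (by norm_num) (by norm_num) (by norm_num)).trans (mul_le_mul (by norm_num) hmx hY0 (by norm_num))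
    · exact (cellN (t' := t - Real.pi) (τ := t - Real.pi / 2 + κ) 0.6 0.8 0.54 0.58275 1.71601 1.716 1.3081 0.51085 0.049 1.17602 0.08497 0.00071 0.00007 0.63262 1.333 _ _ (-0.7069) (-0.534) 0.7069 1.570796 0 1 0.63382 0.9996 1.7901 0.7675 0.00004603 0.0000003101 0.0004647 1.6287 0.00118
      hβ hr hκ hk1 hk2 (by norm_num) (by linarith) (by linarith) (by linarith) (by linarith) (by linarith) hY
      (expm_le (by norm_num) (by norm_num) (by norm_num)) (expn_ge (by norm_num) (by norm_num)) (expn_le (by norm_num) (by norm_num) (by norm_num)) (by norm_num)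
      (exp_neg_leJ (r := 0.9899) 9 (by norm_num) (by norm_num) (by norm_num) (by norm_num)) (exp_neg_leJ (r := 0.9899) 14 (by norm_num) (by norm_num) (by norm_num) (by norm_num)) (exp_neg_leJ (r := 0.6749) 7 (by norm_num) (by norm_num) (by norm_num) (by norm_num))
      (by linarith)
      (by norm_num) (by norm_num) (by norm_num) (by norm_num) (by norm_num) (by norm_num) (by norm_num) (by norm_num) (by norm_num) (by norm_num) (by norm_num) (by norm_num) (by norm_num) (by norm_num) (by norm_num) (by norm_num) (by norm_num) (by norm_num) (by norm_num) le_rfl rfl (by norm_num) (by norm_num) (by norm_num) (by norm_num) (by norm_num) (by norm_num) (by norm_num) (by norm_num) (by norm_num) (by norm_num) (by norm_num) (by norm_num) (by norm_num) (by norm_num) (by norm_num) (by norm_num) (by norm_num) (by norm_num) (by norm_num)).trans (mul_le_mul (by norm_num) hmx hY0 (by norm_num))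
    · rcases le_total (t + Real.pi / 2 + β) (Real.pi / 2) with hz | hz
      · exact (cellHU (t' := t + Real.pi / 2 + β) (τ := t - Real.pi / 2 + κ) 0.6 0.8 0.38 1.46229 0.68386 0.68387 3.1131 0.22634 0.0171 0.000001 24.587 0.0000003101 1.06388 0.10558 0.00272 0.00084 0.63262 1.333 _ _ (-0.7069) (-0.534) 0.7069 3.141592 0.63382 0.7245 0.8371 0.7675 0.0007139 0.0002316 0.0004647 1.6287 0.00528
      hβ hr hκ hk1 hk2 (by linarith) (by linarith) (by linarith) (by linarith) (by linarith) hY
      (expn_le (by norm_num) (by norm_num) (by norm_num))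
      (expm_ge (by norm_num) (by norm_num) (by norm_num) (by norm_num)) (expm_le (by norm_num) (by norm_num) (by norm_num)) (exp_neg_leJ (r := 0.9899) 14 (by norm_num) (by norm_num) (by norm_num) (by norm_num)) 
      (exp_neg_leJ (r := 0.2449) 7 (by norm_num) (by norm_num) (by norm_num) (by norm_num)) (exp_neg_leJ (r := 0.3709) 8 (by norm_num) (by norm_num) (by norm_num) (by norm_num)) (exp_neg_leJ (r := 0.6749) 7 (by norm_num) (by norm_num) (by norm_num) (by norm_num))
      (by linarith)
      (by norm_num) (by norm_num) (by norm_num) (by norm_num) (by norm_num) (by norm_num) (by norm_num) (by norm_num) (by norm_num) (by norm_num) (by norm_num) (by norm_num) (by norm_num) (by norm_num) (by norm_num) (by norm_num) (by norm_num) (by norm_num) (by norm_num) (by norm_num) (by norm_num) le_rfl rfl (by norm_num) (by norm_num) (by norm_num) (by norm_num) (by norm_num) (by norm_num) (by norm_num) (by norm_num) (by norm_num) (by norm_num) (by norm_num) (by norm_num) (by norm_num) (by norm_num) (by norm_num) (by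 norm_num) (by norm_num) (by norm_num) (by norm_num)).trans (mul_le_mul (by norm_num) hmx hY0 (by norm_num))
      · exact (cellUD (t' := t + Real.pi / 2 + β) (τ := t - Real.pi / 2 + κ) 0.6 0.8 0.63262 0.7069 0.63382 0.7675 0.001264 0.0004647 1.6287 0.00588
      hβ hr hκ hk1 hk2 (by norm_num) (by linarith) (by linarith) (by linarith) (by linarith) hY
      (exp_neg_leJ (r := 0.6749) 6 (by norm_num) (by norm_num) (by norm_num) (by norm_num)) (exp_neg_leJ (r := 0.6749) 7 (by norm_num) (by norm_num) (by norm_num) (by norm_num)) (by norm_num) (by norm_num) (by norm_num) (by norm_num) (by norm_num) (by norm_num) (by norm_num) (by norm_num)).trans (mul_le_mul (by norm_num) hmx hY0 (by norm_num))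
    · exact (cellN (t' := t - Real.pi + β) (τ := t - Real.pi / 2 + κ) 0.6 0.8 0.56 0.57122 1.75068 1.75066 1.2993 0.50761 0.049 1.19069 0.08957 0.00077 0.00008 0.63262 1.333 _ _ (-0.7069) (-0.534) 0.7069 1.570796 1 1.75068 0.63382 1.0302 1.8235 0.7675 0.00003357 0.0000003101 0.0004647 1.6287 0.00123
      hβ hr hκ hk1 hk2 (by norm_num) (by linarith) (by linarith) (by linarith) (by linarith) (by linarith) hY
      (expm_le (by norm_num) (by norm_num) (by norm_num)) (expn_ge (by norm_num) (by norm_num)) (expn_le (by norm_num) (by norm_num) (by norm_num)) (by rw [mul_one]; exact (expn_le (by norm_num) (by norm_num) (by norm_num)))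
      (exp_neg_leJ (r := 0.3019) 10 (by norm_num) (by norm_num) (by norm_num) (by norm_num)) (exp_neg_leJ (r := 0.9899) 14 (by norm_num) (by norm_num) (by norm_num) (by norm_num)) (exp_neg_leJ (r := 0.6749) 7 (by norm_num) (by norm_num) (by norm_num) (by norm_num))
      (by linarith)
      (by norm_num) (by norm_num) (by norm_num) (by norm_num) (by norm_num) (by norm_num) (by norm_num) (by norm_num) (by norm_num) (by norm_num) (by norm_num) (by norm_num) (by norm_num) (by norm_num) (by norm_num) (by norm_num) (by norm_num) (by norm_num) (by norm_num) le_rfl rfl (by norm_num) (by norm_num) (by norm_num) (by norm_num) (by norm_num) (by norm_num) (by norm_num) (by norm_num) (by norm_num) (by norm_num) (by norm_num) (by norm_num) (by norm_num) (by norm_num) (by norm_num) (by norm_num) (by norm_num) (by norm_num) (by norm_num)).trans (mul_le_mul (by norm_num) hmx hY0 (by norm_num))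

theorem rng_3 {p : ℤ} {β r κ : ℝ} (hp : IsCoprime (4 : ℤ) p) (hβ : 0 < β) (hr : 10 ≤ r) (hκ : κ = β * r)
    (hk1 : 0.6 ≤ κ) (hk2 : κ ≤ 0.8) : Circ (2 * Real.pi * p / 4 + β) r := by
  refine circ4 (κ := κ) (s0 := 0.05) (slo := 0.49) (shi := 0.66) (a := 1.04) (m := 0.1029) (E2 := 0.00709) (Em := 0.00139) (F2 := 0.00709) (Fm := 0.00144)
    (l0 := 2.416) (l1 := 0.8297) hp (by linarith) (by norm_num) (by norm_num) (by norm_num) (by norm_num) ?_ ?_ (by norm_num) (by norm_num)
  · intro t h1 h2
    obtain ⟨w1, w2, w3, w4⟩ := WE_3 (t := t) hβ hr hκ hk1 hk2 h1 h2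
    have S : SL β r 2.416 0.8297 0.1029 t := by
      rcases le_total κ 0.65 with f0 | g0
      · exact SL_mono (by linarith) (slp7 (t := t) hβ hr hκ (by linarith) (by linarith) h1 h2) (by norm_num) (by norm_num) (by norm_num)
      rcases le_total κ 0.7 with f1 | g1
      · exact SL_mono (by linarith) (slp8 (t := t) hβ hr hκ (by linarith) (by linarith) h1 h2) (by norm_num) (by norm_num) (by norm_num)
      rcases le_total κ 0.75 with f2 | g2
      · exact SL_mono (by linarith) (slp9 (t := t) hβ hr hκ (by linarith) (by linarith) h1 h2) (by norm_num) (by norm_num) (by norm_num)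
      exact SL_mono (by linarith) (slp10 (t := t) hβ hr hκ (by linarith) (by linarith) h1 h2) (by norm_num) (by norm_num) (by norm_num)
    exact ⟨S.ne0, w1, w2, w3, w4, S.L0, S.L1, S.S⟩
  · intro t h1 h2 h3
    rcases h3 with h3 | h3
    · exact RL_3 hβ hr hκ hk1 hk2 h1 h3.le
    · exact RR_3 hβ hr hκ hk1 hk2 h3.le h2

end Sok.B4
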