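import Pool.Agent.Lib.MP_816dec_an.R1B4W
import Pool.Agent.Lib.MP_816dec_an.R1B4Sb

/-!
MP_816dec_an (A3, row R1, b = 4): range 4.
-/

set_option autoImplicit false
set_option maxHeartbeats 4000000

open Complex Set Filter Topology

namespace Sok.B4

private theorem y1_4 {β r κ t : ℝ} (hβ : 0 < β) (hr : 10 ≤ r) (hκ : κ = β * r) (hk1 : 0.8 ≤ κ) (hk2 : κ ≤ 1)
    (h1 : 0.0785 ≤ t + κ) (h2 : t + κ ≤ 0.864) {c : ℝ} (hV : 1 - c * (t + κ) ^ 2 / (1 + κ ^ 2) ≤ sE κ t) :
    0.77263 * Real.exp (r * (1 - c * (t + κ) ^ 2 / (1 + κ ^ 2))) ≤ ‖Pb β r t‖ := by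
  have hpi := Real.pi_gt_d6
  have hpi2 := Real.pi_lt_d6
  have hR0 : β * 10 ≤ κ := by rw [hκ]; exact mul_le_mul_of_nonneg_left hr hβ.le
  have hk0 : 0 < κ := by linarith
  have hd : DomR κ t := ⟨hk0, by linarith, Or.inl (by linarith [Real.exp_neg_one_lt_d9])⟩
  have J := jr4 hd hβ hk1 hk2 (by linarith) (by linarith) hR0 (hR33' hβ hR0 hk0 (by linarith))
  have y0 := sy_nonneg hd (by linarith)
  have y1 := syR_psi hd (1 / (1 + 1 ^ 2)) 0.864 0.4321 (psi_lo hd.1.le hk2 (by norm_num)) (by linarith) (by linarith) (by linarith) (by norm_num)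
  have hD := sD_le hd 1 0 0.4321 1 0.421396 2.2856 hk2 y0 y1 (by norm_num) (exp2 (expm_le (E := 0.64915) (by norm_num) (by norm_num) (by norm_num)) (by norm_num)) (by norm_num) (by norm_num)
  exact near_lo hβ (by linarith) hκ hd J hV hD (by norm_num) (by norm_num)

private theorem y1c_4 {β r κ t : ℝ} (hβ : 0 < β) (hr : 10 ≤ r) (hκ : κ = β * r) (hk1 : 0.8 ≤ κ) (hk2 : κ ≤ 1)
    (h1 : 0.703 ≤ t + κ) (h2 : t + κ ≤ 0.754) :
    0.77263 * Real.exp (r * (1 - 0.47409 * (t + κ) ^ 2 / (1 + κ ^ 2))) ≤ ‖Pb β r t‖ := by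
  have hpi := Real.pi_gt_d6
  have hpi2 := Real.pi_lt_d6
  have hR0 : β * 10 ≤ κ := by rw [hκ]; exact mul_le_mul_of_nonneg_left hr hβ.le
  have hk0 : 0 < κ := by linarith
  have hd : DomR κ t := ⟨hk0, by linarith, Or.inl (by linarith [Real.exp_neg_one_lt_d9])⟩
  exact y1_4 hβ hr hκ hk1 hk2 (by linarith) (by linarith) (V1_piece hd 0.8 0.8 1 0.08333 0.1919 0.03687 0.703 0.754 0.47409 hk1 hk2 h1 h2
    (by norm_num) (by norm_num) (by norm_num) (by norm_num) (by norm_num) (by norm_num) (by norm_num) (by norm_num) (by norm_num) (by norm_num) (by norm_num) (by norm_num) (by norm_num) (by norm_num))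

private theorem y1h_4 {β r κ t : ℝ} (hβ : 0 < β) (hr : 10 ≤ r) (hκ : κ = β * r) (hk1 : 0.8 ≤ κ) (hk2 : κ ≤ 1)
    (h1 : 0.0785 ≤ t + κ) (h2 : t + κ ≤ 0.864) :
    0.77263 * Real.exp (r * (1 - 0.5 * (t + κ) ^ 2 / (1 + κ ^ 2))) ≤ ‖Pb β r t‖ := by
  have hpi := Real.pi_gt_d6
  have hpi2 := Real.pi_lt_d6
  have hR0 : β * 10 ≤ κ := by rw [hκ]; exact mul_le_mul_of_nonneg_left hr hβ.le
  have hk0 : 0 < κ := by linarith
  have hd : DomR κ t := ⟨hk0, by linarith, Or.inl (by linarith [Real.exp_neg_one_lt_d9])⟩
  exact y1_4 hβ hr hκ hk1 hk2 (by linarith) (by linarith) (V1_half hd (by linarith) (by linarith))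

private theorem y0o_4 {β r κ t : ℝ} (hβ : 0 < β) (hr : 10 ≤ r) (hκ : κ = β * r) (hk1 : 0.8 ≤ κ) (hk2 : κ ≤ 1)
    (h1 : -0.5027 ≤ t + κ) (h2 : t + κ ≤ 0.0786) :
    0.75489 * Real.exp (r * (1 - 0.56819 * (t + κ) ^ 2 / (1 + κ ^ 2))) ≤ ‖Pb β r t‖ := by
  have hpi := Real.pi_gt_d6
  have hpi2 := Real.pi_lt_d6
  have hR0 : β * 10 ≤ κ := by rw [hκ]; exact mul_le_mul_of_nonneg_left hr hβ.le
  have hk0 : 0 < κ := by linarith
  have hd : DomR κ t := ⟨hk0, by linarith, Or.inl (by linarith [Real.exp_neg_one_lt_d9])⟩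
  have J := jo4 hd hβ hk1 hk2 (by linarith) (by linarith) hR0 (hR33' hβ hR0 hk0 (by linarith))
  have h := hd
  have hy1 : -0.29 ≤ sy κ t := syL_ge h 0.8 1 0.5027 0.29 0.74826 0.74827 0.2622 0.21699 0.27125 hk1 hk2 (by linarith) (by norm_num) (by norm_num) (by norm_num)
    (expm_ge (by norm_num) (by norm_num) (by norm_num) (by norm_num)) (expm_le (by norm_num) (by norm_num) (by norm_num)) (by norm_num)
    (by norm_num) (by norm_num) (by norm_num) (by norm_num) (by norm_num) (by norm_num)
  have hy3 : sy κ t ≤ 0.0394 := by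
    rcases le_total (t + κ) 0 with hz | hz
    · have := sy_nonpos hd hz
      linarith
    · exact syR_psi hd (1 / (1 + 1 ^ 2)) 0.0786 0.0394 (psi_lo hd.1.le hk2 (by norm_num)) hz (by linarith) (by linarith) (by norm_num)
  have hD := sD_le hd 1 (-0.29) 0.0394 1.786046 0.924233 2.20605 hk2 hy1 hy3 (exp2 (E := 1.33643) (by rw [neg_neg]; exact (expn_le (by norm_num) (by norm_num) (by norm_num))) (by norm_num)) (exp2 (expm_le (E := 0.96137) (by norm_num) (by norm_num) (by norm_num)) (by norm_num)) (by norm_num) (by norm_num)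
  have hV : 1 - 0.56819 * (t + κ) ^ 2 / (1 + κ ^ 2) ≤ sE κ t := by
    rcases le_total (t + κ) 0 with hz | hz
    · exact V0_piece hd 0.8 0.8 1 0.702 (1 / (1 + 1 ^ 2)) 0.11701 0.12501 0.22671 0.50001 0.56819 0.5027 hk1 hk2 (by linarith) (by linarith) (psi_lo hd.1.le hk2 (by norm_num))
          (by norm_num) (by norm_num) (by norm_num) (by norm_num) (by norm_num) (by norm_num) (by norm_num) (by norm_num) (by norm_num) (by norm_num) (by norm_num) (by norm_num) (by norm_num) (by norm_num) (by norm_num)
    · exact (V_weak (by norm_num)).trans (V1_half hd (by linarith) hz)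
  exact near_lo hβ (by linarith) hκ hd J hV hD (by norm_num) (by norm_num)

private theorem y0w_4 {β r κ t : ℝ} (hβ : 0 < β) (hr : 10 ≤ r) (hκ : κ = β * r) (hk1 : 0.8 ≤ κ) (hk2 : κ ≤ 1)
    (h1 : -0.7069 ≤ t + κ) (h2 : t + κ ≤ -0.5026) :
    0.57241 * Real.exp (r * (1 - 0.6039 * (t + κ) ^ 2 / (1 + κ ^ 2))) ≤ ‖Pb β r t‖ := by
  have hpi := Real.pi_gt_d6
  have hpi2 := Real.pi_lt_d6
  have hR0 : β * 10 ≤ κ := by rw [hκ]; exact mul_le_mul_of_nonneg_left hr hβ.le
  have hk0 : 0 < κ := by linarith
  have hd : DomR κ t := ⟨hk0, by linarith, Or.inl (by linarith [Real.exp_neg_one_lt_d9])⟩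
  have J : ‖HH β (sg κ t) - 1‖ ≤ 0.28 := by
    rcases le_total κ 0.85 with f0 | g0
    · exact (dl10 hd hβ (by linarith) (by linarith) (by linarith) (by linarith) hR0 (hR33' hβ hR0 hk0 (by linarith)) (sg κ t) (by rw [sub_self, norm_zero]; norm_num)).trans (by norm_num)
    rcases le_total κ 0.9 with f1 | g1
    · exact (dl11 hd hβ (by linarith) (by linarith) (by linarith) (by linarith) hR0 (hR33' hβ hR0 hk0 (by linarith)) (sg κ t) (by rw [sub_self, norm_zero]; norm_num)).trans (by norm_num)
    rcases le_total κ 0.95 with f2 | g2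
    · exact (dl12 hd hβ (by linarith) (by linarith) (by linarith) (by linarith) hR0 (hR33' hβ hR0 hk0 (by linarith)) (sg κ t) (by rw [sub_self, norm_zero]; norm_num)).trans (by norm_num)
    exact (dl13 hd hβ (by linarith) (by linarith) (by linarith) (by linarith) hR0 (hR33' hβ hR0 hk0 (by linarith)) (sg κ t) (by rw [sub_self, norm_zero]; norm_num)).trans (by norm_num)
  have h := hd
  have hy1 : -0.43 ≤ sy κ t := syL_ge h 0.8 1 0.7069 0.43 0.6505 0.65051 0.3321 0.27971 0.34965 hk1 hk2 (by linarith) (by norm_num) (by norm_num) (by norm_num)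
    (expm_ge (by norm_num) (by norm_num) (by norm_num) (by norm_num)) (expm_le (by norm_num) (by norm_num) (by norm_num)) (by norm_num)
    (by norm_num) (by norm_num) (by norm_num) (by norm_num) (by norm_num) (by norm_num)
  have hD := sD_le hd 1 (-0.43) 0 2.363169 1 2.50317 hk2 hy1 (sy_nonpos hd (by linarith)) (exp2 (E := 1.53726) (by rw [neg_neg]; exact (expn_le (by norm_num) (by norm_num) (by norm_num))) (by norm_num)) (by norm_num) (by norm_num) (by norm_num)
  have hV : 1 - 0.6039 * (t + κ) ^ 2 / (1 + κ ^ 2) ≤ sE κ t := V0_piece hd 0.8 0.8 1 0.702 (1 / (1 + 1 ^ 2)) 0.11701 0.12501 0.22671 0.50001 0.6039 0.7069 hk1 hk2 (by linarith) (by linarith) (psi_lo hd.1.le hk2 (by norm_num))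
          (by norm_num) (by norm_num) (by norm_num) (by norm_num) (by norm_num) (by norm_num) (by norm_num) (by norm_num) (by norm_num) (by norm_num) (by norm_num) (by norm_num) (by norm_num) (by norm_num) (by norm_num)
  exact near_lo hβ (by linarith) hκ hd J hV hD (by norm_num) (by norm_num)

private theorem RL_4 {β r κ t : ℝ} (hβ : 0 < β) (hr : 10 ≤ r) (hκ : κ = β * r) (hk1 : 0.8 ≤ κ) (hk2 : κ ≤ 1)
    (h1 : 0.05 * (Real.pi / 2) ≤ t + κ) (h2 : t + κ ≤ 0.48 * (Real.pi / 2)) :
    ‖Pb β r (t - Real.pi)‖ + ‖Pb β r (t + Real.pi / 2)‖ < |‖Pb β r t‖ - ‖Pb β r (t - Real.pi / 2)‖| := by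
  have hpi := Real.pi_gt_d6
  have hpi2 := Real.pi_lt_d6
  have hR0 : β * 10 ≤ κ := by rw [hκ]; exact mul_le_mul_of_nonneg_left hr hβ.le
  have hk0 : 0 < κ := by linarith
  have hY := y1h_4 hβ hr hκ hk1 hk2 (t := t) (by linarith) (by linarith)
  have hY0 : 0 < ‖Pb β r t‖ := lt_of_lt_of_le (mul_pos (by norm_num) (Real.exp_pos _)) hY
  have c0 : ‖Pb β r (t - Real.pi / 2)‖ ≤ 0.88527 * ‖Pb β r t‖ := by
    rcases le_total (t + κ) 0.703 with hz | hz
    · exact (cellN (t' := t - Real.pi / 2) (τ := t + κ) 0.8 1 0.52 0.59453 1.68203 1.68202 1.0994 0.73785 0.0451 1.16204 0.08039 0.00065 0.00007 0.5 1.049 _ _ 0.0785 0.703 0.703 1.570796 0 1 0.77263 0.0844 0.9099 0.8493 0.4308 0.0001118 0.000205 1.4105 0.61344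
      hβ hr hκ hk1 hk2 (by norm_num) (by linarith) (by linarith) (by linarith) (by linarith) (by linarith) hY
      (expm_le (by norm_num) (by norm_num) (by norm_num)) (expn_ge (by norm_num) (by norm_num)) (expn_le (by norm_num) (by norm_num) (by norm_num)) (by norm_num)
      (exp_neg_leJ (r := 0.8439) 0 (by norm_num) (by norm_num) (by norm_num) (by norm_num)) (exp_neg_leJ (r := 0.0989) 9 (by norm_num) (by norm_num) (by norm_num) (by norm_num)) (exp_neg_leJ (r := 0.4929) 8 (by norm_num) (by norm_num) (by norm_num) (by norm_num))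
      (by linarith)
      (by norm_num) (by norm_num) (by norm_num) (by norm_num) (by norm_num) (by norm_num) (by norm_num) (by norm_num) (by norm_num) (by norm_num) (by norm_num) (by norm_num) (by norm_num) (by norm_num) (by norm_num) (by norm_num) (by norm_num) (by norm_num) (by norm_num) le_rfl rfl (by norm_num) (by norm_num) (by norm_num) (by norm_num) (by norm_num) (by norm_num) (by norm_num) (by norm_num) (by norm_num) (by norm_num) (by norm_num) (by norm_num) (by norm_num) (by norm_num) (by norm_num) (by norm_num) (by norm_num) (by norm_num) (by norm_num)).trans (mul_le_mul_of_nonneg_right (by norm_num) hY0.le)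
    · have hY' := y1c_4 hβ hr hκ hk1 hk2 (t := t) hz (by linarith)
      exact (cellN (t' := t - Real.pi / 2) (τ := t + κ) 0.8 1 0.49 0.61263 1.63232 1.63231 1.1133 0.74154 0.0451 1.14233 0.07355 0.00056 0.00005 0.47409 1.049 _ _ 0.703 0.754 0.754 1.570796 0 1 0.77263 0.0488 0.8612 0.8356 0.61401 0.0001821 0.0002351 1.4105 0.88527
      hβ hr hκ hk1 hk2 (by norm_num) (by linarith) (by linarith) (by linarith) (by linarith) (by linarith) hY'
      (expm_le (by norm_num) (by norm_num) (by norm_num)) (expn_ge (by norm_num) (by norm_num)) (expn_le (by norm_num) (by norm_num) (by norm_num)) (by norm_num)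
      (exp_neg_leJ (r := 0.4879) 0 (by norm_num) (by norm_num) (by norm_num) (by norm_num)) (exp_neg_leJ (r := 0.6119) 8 (by norm_num) (by norm_num) (by norm_num) (by norm_num)) (exp_neg_leJ (r := 0.3559) 8 (by norm_num) (by norm_num) (by norm_num) (by norm_num))
      (by linarith)
      (by norm_num) (by norm_num) (by norm_num) (by norm_num) (by norm_num) (by norm_num) (by norm_num) (by norm_num) (by norm_num) (by norm_num) (by norm_num) (by norm_num) (by norm_num) (by norm_num) (by norm_num) (by norm_num) (by norm_num) (by norm_num) (by norm_num) le_rfl rfl (by norm_num) (by norm_num) (by norm_num) (by norm_num) (by norm_num) (by norm_num) (by norm_num) (by norm_num) (by norm_num) (by norm_num) (by norm_num) (by norm_num) (by norm_num) (by norm_num) (by norm_num) (by norm_num) (by norm_num) (by norm_num) (by norm_num)).trans (mul_le_mul_of_nonneg_right (by norm_num) hY0.le)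
  have cm : ‖Pb β r (t - Real.pi)‖ ≤ 0.00058 * ‖Pb β r t‖ := cellN (t' := t - Real.pi) (τ := t + κ) 0.8 1 0.62 0.53795 1.85893 1.85892 1.0535 0.72715 0.1541 1.23894 0.1034 0.00096 0.00011 0.5 1.049 _ _ 0.0785 0.754 0.754 3.141592 0 1 0.77263 0.9945 1.9841 0.8266 0.00004812 0.0000003101 0.0002572 1.4105 0.00058
      hβ hr hκ hk1 hk2 (by norm_num) (by linarith) (by linarith) (by linarith) (by linarith) (by linarith) hY
      (expm_le (by norm_num) (by norm_num) (by norm_num)) (expn_ge (by norm_num) (by norm_num)) (expn_le (by norm_num) (by norm_num) (by norm_num)) (by norm_num)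
      (exp_neg_leJ (r := 0.9449) 9 (by norm_num) (by norm_num) (by norm_num) (by norm_num)) (exp_neg_leJ (r := 0.9899) 14 (by norm_num) (by norm_num) (by norm_num) (by norm_num)) (exp_neg_leJ (r := 0.2659) 8 (by norm_num) (by norm_num) (by norm_num) (by norm_num))
      (by linarith)
      (by norm_num) (by norm_num) (by norm_num) (by norm_num) (by norm_num) (by norm_num) (by norm_num) (by norm_num) (by norm_num) (by norm_num) (by norm_num) (by norm_num) (by norm_num) (by norm_num) (by norm_num) (by norm_num) (by norm_num) (by norm_num) (by norm_num) le_rfl rfl (by norm_num) (by norm_num) (by norm_num) (by norm_num) (by norm_num) (by norm_num) (by norm_num) (by norm_num) (by norm_num) (by norm_num) (by norm_num) (by norm_num) (by norm_num) (by norm_num) (by norm_num) (by norm_num) (by norm_num) (by norm_num) (by norm_num)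
  have c2 : ‖Pb β r (t + Real.pi / 2)‖ ≤ 0.03077 * ‖Pb β r t‖ := by
    rcases le_total (t + Real.pi / 2) (Real.pi / 2) with hz | hz
    · exact (cellHU (t' := t + Real.pi / 2) (τ := t + κ) 0.8 1 0.41 1.50682 0.66365 0.66366 2.1089 0.50825 0.0213 0.000001 14.233 0.0000006588 1.07367 0.12665 0.00403 0.00154 0.5 1.049 _ _ 0.0785 0.754 0.754 1.570796 0.77263 0.4687 0.6206 0.8266 0.009222 0.002018 0.0002572 1.4105 0.03077
      hβ hr hκ hk1 hk2 (by linarith) (by linarith) (by linarith) (by linarith) (by linarith) hY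
      (expn_le (by norm_num) (by norm_num) (by norm_num))
      (expm_ge (by norm_num) (by norm_num) (by norm_num) (by norm_num)) (expm_le (by norm_num) (by norm_num) (by norm_num)) (exp_neg_leJ (r := 0.2329) 14 (by norm_num) (by norm_num) (by norm_num) (by norm_num)) 
      (exp_neg_leJ (r := 0.6869) 4 (by norm_num) (by norm_num) (by norm_num) (by norm_num)) (exp_neg_leJ (r := 0.2059) 6 (by norm_num) (by norm_num) (by norm_num) (by norm_num)) (exp_neg_leJ (r := 0.2659) 8 (by norm_num) (by norm_num) (by norm_num) (by norm_num))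
      (by linarith)
      (by norm_num) (by norm_num) (by norm_num) (by norm_num) (by norm_num) (by norm_num) (by norm_num) (by norm_num) (by norm_num) (by norm_num) (by norm_num) (by norm_num) (by norm_num) (by norm_num) (by norm_num) (by norm_num) (by norm_num) (by norm_num) (by norm_num) (by norm_num) (by norm_num) le_rfl rfl (by norm_num) (by norm_num) (by norm_num) (by norm_num) (by norm_num) (by norm_num) (by norm_num) (by norm_num) (by norm_num) (by norm_num) (by norm_num) (by norm_num) (by norm_num) (by norm_num) (by norm_num) (by norm_num) (by norm_num) (by norm_num) (by norm_num)).trans (mul_le_mul_of_nonneg_right (by norm_num) hY0.le)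
    · exact (cellUD (t' := t + Real.pi / 2) (τ := t + κ) 0.8 1 0.5 0.754 0.77263 0.8266 0.000699 0.0002572 1.4105 0.00259
      hβ hr hκ hk1 hk2 (by norm_num) (by linarith) (by linarith) (by linarith) (by linarith) hY
      (exp_neg_leJ (r := 0.2659) 7 (by norm_num) (by norm_num) (by norm_num) (by norm_num)) (exp_neg_leJ (r := 0.2659) 8 (by norm_num) (by norm_num) (by norm_num) (by norm_num)) (by norm_num) (by norm_num) (by norm_num) (by norm_num) (by norm_num) (by norm_num) (by norm_num) (by norm_num)).trans (mul_le_mul_of_nonneg_right (by norm_num) hY0.le)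
  exact out_left hY0 c0 cm c2 (by norm_num)

private theorem RR_4 {β r κ t : ℝ} (hβ : 0 < β) (hr : 10 ≤ r) (hκ : κ = β * r) (hk1 : 0.8 ≤ κ) (hk2 : κ ≤ 1)
    (h1 : 0.68 * (Real.pi / 2) ≤ t + κ) (h2 : t + κ ≤ (0.05 + 1) * (Real.pi / 2)) :
    ‖Pb β r (t - Real.pi)‖ + ‖Pb β r (t + Real.pi / 2)‖ < |‖Pb β r t‖ - ‖Pb β r (t - Real.pi / 2)‖| := by
  have hpi := Real.pi_gt_d6
  have hpi2 := Real.pi_lt_d6
  have hR0 : β * 10 ≤ κ := by rw [hκ]; exact mul_le_mul_of_nonneg_left hr hβ.le
  have hk0 : 0 < κ := by linarith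
  have hY := y0o_4 hβ hr hκ hk1 hk2 (t := t - Real.pi / 2) (by linarith) (by linarith)
  have hY0 : 0 < ‖Pb β r (t - Real.pi / 2)‖ := lt_of_lt_of_le (mul_pos (by norm_num) (Real.exp_pos _)) hY
  have c1 : ‖Pb β r t‖ ≤ 0.509 * ‖Pb β r (t - Real.pi / 2)‖ := cellH (t' := t) (τ := t - Real.pi / 2 + κ) 0.8 1 0.34 1.40495 0.71177 0.71178 1.8122 0.64173 0.0611 0.1109 0.000001 14.233 0.0000006588 1.05179 0.08121 0.00155 0.00036 0.56819 1.049 _ _ (-0.5027) 0.0786 0.5027 1.570796 0.75489 0.1563 0.3574 0.9124 0.20959 0.02806 0.0001091 1.4105 0.509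
      hβ hr hκ hk1 hk2 (by linarith) (by linarith) (by linarith) (by linarith) (by linarith) hY
      (expn_le (by norm_num) (by norm_num) (by norm_num))
      (expm_ge (by norm_num) (by norm_num) (by norm_num) (by norm_num)) (expm_le (by norm_num) (by norm_num) (by norm_num)) (exp_neg_leJ (r := 0.2329) 14 (by norm_num) (by norm_num) (by norm_num) (by norm_num)) 
      (exp_neg_leJ (r := 0.5629) 1 (by norm_num) (by norm_num) (by norm_num) (by norm_num)) (exp_neg_leJ (r := 0.5739) 3 (by norm_num) (by norm_num) (by norm_num) (by norm_num)) (exp_neg_leJ (r := 0.1239) 9 (by norm_num) (by norm_num) (by norm_num) (by norm_num))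
      (by linarith) (by linarith)
      (by norm_num) (by norm_num) (by norm_num) (by norm_num) (by norm_num) (by norm_num) (by norm_num) (by norm_num) (by norm_num) (by norm_num) (by norm_num) (by norm_num) (by norm_num) (by norm_num) (by norm_num) (by norm_num) (by norm_num) (by norm_num) (by norm_num) (by norm_num) (by norm_num) (by norm_num) le_rfl rfl (by norm_num) (by norm_num) (by norm_num) (by norm_num) (by norm_num) (by norm_num) (by norm_num) (by norm_num) (by norm_num) (by norm_num) (by norm_num) (by norm_num) (by norm_num) (by norm_num) (by norm_num) (by norm_num) (by norm_num) (by norm_num) (by norm_num)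
  have cm : ‖Pb β r (t - Real.pi)‖ ≤ 0.00302 * ‖Pb β r (t - Real.pi / 2)‖ := cellN (t' := t - Real.pi) (τ := t - Real.pi / 2 + κ) 0.8 1 0.75 0.47238 2.11701 2.11697 0.994 0.71727 0.0611 1.36702 0.13286 0.00139 0.00018 0.56819 1.049 _ _ (-0.5027) 0.0786 0.5027 1.570796 0 1 0.75489 0.6159 1.6741 0.9124 0.002115 0.0000003101 0.0001091 1.4105 0.00302
      hβ hr hκ hk1 hk2 (by norm_num) (by linarith) (by linarith) (by linarith) (by linarith) (by linarith) hY
      (expm_le (by norm_num) (by norm_num) (by norm_num)) (expn_ge (by norm_num) (by norm_num)) (expn_le (by norm_num) (by norm_num) (by norm_num)) (by norm_num)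
      (exp_neg_leJ (r := 0.1589) 6 (by norm_num) (by norm_num) (by norm_num) (by norm_num)) (exp_neg_leJ (r := 0.9899) 14 (by norm_num) (by norm_num) (by norm_num) (by norm_num)) (exp_neg_leJ (r := 0.1239) 9 (by norm_num) (by norm_num) (by norm_num) (by norm_num))
      (by linarith)
      (by norm_num) (by norm_num) (by norm_num) (by norm_num) (by norm_num) (by norm_num) (by norm_num) (by norm_num) (by norm_num) (by norm_num) (by norm_num) (by norm_num) (by norm_num) (by norm_num) (by norm_num) (by norm_num) (by norm_num) (by norm_num) (by norm_num) le_rfl rfl (by norm_num) (by norm_num) (by norm_num) (by norm_num) (by norm_num) (by norm_num) (by norm_num) (by norm_num) (by norm_num) (by norm_num) (by norm_num) (by norm_num) (by norm_num) (by norm_num) (by norm_num) (by norm_num) (by norm_num) (by norm_num) (by norm_num)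
  have c2 : ‖Pb β r (t + Real.pi / 2)‖ ≤ 0.00113 * ‖Pb β r (t - Real.pi / 2)‖ := by
    rcases le_total (t + Real.pi / 2) (Real.pi / 2) with hz | hz
    · exact (cellHU (t' := t + Real.pi / 2) (τ := t - Real.pi / 2 + κ) 0.8 1 0.47 1.6 0.625 0.62501 2.9654 0.27293 0.0213 0.000001 14.233 0.0000006588 1.09502 0.17673 0.00833 0.00471 0.56819 1.049 _ _ (-0.5027) 0.0786 0.5027 3.141592 0.75489 0.8836 0.9601 0.9124 0.0001457 0.0000677 0.0001091 1.4105 0.00095
      hβ hr hκ hk1 hk2 (by linarith) (by linarith) (by linarith) (by linarith) (by linarith) hY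
      (expn_le (by norm_num) (by norm_num) (by norm_num))
      (expm_ge (by norm_num) (by norm_num) (by norm_num) (by norm_num)) (expm_le (by norm_num) (by norm_num) (by norm_num)) (exp_neg_leJ (r := 0.2329) 14 (by norm_num) (by norm_num) (by norm_num) (by norm_num)) 
      (exp_neg_leJ (r := 0.8359) 8 (by norm_num) (by norm_num) (by norm_num) (by norm_num)) (exp_neg_leJ (r := 0.6009) 9 (by norm_num) (by norm_num) (by norm_num) (by norm_num)) (exp_neg_leJ (r := 0.1239) 9 (by norm_num) (by norm_num) (by norm_num) (by norm_num))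
      (by linarith)
      (by norm_num) (by norm_num) (by norm_num) (by norm_num) (by norm_num) (by norm_num) (by norm_num) (by norm_num) (by norm_num) (by norm_num) (by norm_num) (by norm_num) (by norm_num) (by norm_num) (by norm_num) (by norm_num) (by norm_num) (by norm_num) (by norm_num) (by norm_num) (by norm_num) le_rfl rfl (by norm_num) (by norm_num) (by norm_num) (by norm_num) (by norm_num) (by norm_num) (by norm_num) (by norm_num) (by norm_num) (by norm_num) (by norm_num) (by norm_num) (by norm_num) (by norm_num) (by norm_num) (by norm_num) (by norm_num) (by norm_num) (by norm_num)).trans (mul_le_mul_of_nonneg_right (by norm_num) hY0.le)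
    · exact (cellUD (t' := t + Real.pi / 2) (τ := t - Real.pi / 2 + κ) 0.8 1 0.56819 0.5027 0.75489 0.9124 0.0002964 0.0001091 1.4105 0.00113
      hβ hr hκ hk1 hk2 (by norm_num) (by linarith) (by linarith) (by linarith) (by linarith) hY
      (exp_neg_leJ (r := 0.1239) 8 (by norm_num) (by norm_num) (by norm_num) (by norm_num)) (exp_neg_leJ (r := 0.1239) 9 (by norm_num) (by norm_num) (by norm_num) (by norm_num)) (by norm_num) (by norm_num) (by norm_num) (by norm_num) (by norm_num) (by norm_num) (by norm_num) (by norm_num)).trans (mul_le_mul_of_nonneg_right (by norm_num) hY0.le)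
  exact out_right hY0 c1 cm c2 (by norm_num)

private theorem WE_4 {β r κ t : ℝ} (hβ : 0 < β) (hr : 10 ≤ r) (hκ : κ = β * r) (hk1 : 0.8 ≤ κ) (hk2 : κ ≤ 1)
    (h1 : 0.48 * (Real.pi / 2) ≤ t + κ) (h2 : t + κ ≤ 0.68 * (Real.pi / 2)) :
    ‖Pb β r (t + Real.pi / 2)‖ ≤ 0.00717 * max ‖Pb β r (t - Real.pi / 2)‖ ‖Pb β r t‖ ∧
    ‖Pb β r (t - Real.pi)‖ ≤ 0.00097 * max ‖Pb β r (t - Real.pi / 2)‖ ‖Pb β r t‖ ∧
    ‖Pb β r (t + Real.pi / 2 + β)‖ ≤ 0.00717 * max ‖Pb β r (t - Real.pi / 2)‖ ‖Pb β r t‖ ∧
    ‖Pb β r (t - Real.pi + β)‖ ≤ 0.00103 * max ‖Pb β r (t - Real.pi / 2)‖ ‖Pb β r t‖ := by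
  have hpi := Real.pi_gt_d6
  have hpi2 := Real.pi_lt_d6
  have hR0 : β * 10 ≤ κ := by rw [hκ]; exact mul_le_mul_of_nonneg_left hr hβ.le
  have hk0 : 0 < κ := by linarith
  rcases le_total (t + κ) (0.55 * (Real.pi / 2)) with hm | hm
  · have hY := y1h_4 hβ hr hκ hk1 hk2 (t := t) (by linarith) (by linarith)
    have hY0 : 0 ≤ ‖Pb β r t‖ := norm_nonneg _
    have hmx : ‖Pb β r t‖ ≤ max ‖Pb β r (t - Real.pi / 2)‖ ‖Pb β r t‖ := (le_max_right _ _)
    have hmx0 := hY0.trans hmx
    refine ⟨?_, ?_, ?_, ?_⟩
    · rcases le_total (t + Real.pi / 2) (Real.pi / 2) with hz | hz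
      · exact (cellHU (t' := t + Real.pi / 2) (τ := t + κ) 0.8 1 0.46 1.58408 0.63128 0.63129 2.6826 0.33019 0.0213 0.000001 14.233 0.0000006588 1.0913 0.1676 0.00742 0.00394 0.5 1.049 _ _ 0.7539 0.864 0.864 1.570796 0.77263 0.6568 0.7445 0.7724 0.001406 0.0005845 0.0004426 1.4105 0.00717
      hβ hr hκ hk1 hk2 (by linarith) (by linarith) (by linarith) (by linarith) (by linarith) hY
      (expn_le (by norm_num) (by norm_num) (by norm_num))
      (expm_ge (by norm_num) (by norm_num) (by norm_num) (by norm_num)) (expm_le (by norm_num) (by norm_num) (by norm_num)) (exp_neg_leJ (r := 0.2329) 14 (by norm_num) (by norm_num) (by norm_num) (by norm_num)) 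
      (exp_neg_leJ (r := 0.5679) 6 (by norm_num) (by norm_num) (by norm_num) (by norm_num)) (exp_neg_leJ (r := 0.4449) 7 (by norm_num) (by norm_num) (by norm_num) (by norm_num)) (exp_neg_leJ (r := 0.7239) 7 (by norm_num) (by norm_num) (by norm_num) (by norm_num))
      (by linarith)
      (by norm_num) (by norm_num) (by norm_num) (by norm_num) (by norm_num) (by norm_num) (by norm_num) (by norm_num) (by norm_num) (by norm_num) (by norm_num) (by norm_num) (by norm_num) (by norm_num) (by norm_num) (by norm_num) (by norm_num) (by norm_num) (by norm_num) (by norm_num) (by norm_num) le_rfl rfl (by norm_num) (by norm_num) (by norm_num) (by norm_num) (by norm_num) (by norm_num) (by norm_num) (by norm_num) (by norm_num) (by norm_num) (by norm_num) (by norm_num) (by norm_num) (by norm_num) (by norm_num) (by norm_num) (by norm_num) (by norm_num) (by norm_num)).trans (mul_le_mul (by norm_num) hmx hY0 (by norm_num))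
      · exact (cellUD (t' := t + Real.pi / 2) (τ := t + κ) 0.8 1 0.5 0.864 0.77263 0.7724 0.001203 0.0004426 1.4105 0.00445
      hβ hr hκ hk1 hk2 (by norm_num) (by linarith) (by linarith) (by linarith) (by linarith) hY
      (exp_neg_leJ (r := 0.7239) 6 (by norm_num) (by norm_num) (by norm_num) (by norm_num)) (exp_neg_leJ (r := 0.7239) 7 (by norm_num) (by norm_num) (by norm_num) (by norm_num)) (by norm_num) (by norm_num) (by norm_num) (by norm_num) (by norm_num) (by norm_num) (by norm_num) (by norm_num)).trans (mul_le_mul (by norm_num) hmx hY0 (by norm_num))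
    · exact (cellN (t' := t - Real.pi) (τ := t + κ) 0.8 1 0.68 0.50663 1.97388 1.97386 1.026 0.72202 0.0756 1.29389 0.11714 0.00116 0.00014 0.5 1.049 _ _ 0.7539 0.864 0.864 3.141592 0 1 0.77263 0.9495 1.9737 0.7724 0.00007525 0.0000003101 0.0004426 1.4105 0.00097
      hβ hr hκ hk1 hk2 (by norm_num) (by linarith) (by linarith) (by linarith) (by linarith) (by linarith) hY
      (expm_le (by norm_num) (by norm_num) (by norm_num)) (expn_ge (by norm_num) (by norm_num)) (expn_le (by norm_num) (by norm_num) (by norm_num)) (by norm_num)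
      (exp_neg_leJ (r := 0.4949) 9 (by norm_num) (by norm_num) (by norm_num) (by norm_num)) (exp_neg_leJ (r := 0.9899) 14 (by norm_num) (by norm_num) (by norm_num) (by norm_num)) (exp_neg_leJ (r := 0.7239) 7 (by norm_num) (by norm_num) (by norm_num) (by norm_num))
      (by linarith)
      (by norm_num) (by norm_num) (by norm_num) (by norm_num) (by norm_num) (by norm_num) (by norm_num) (by norm_num) (by norm_num) (by norm_num) (by norm_num) (by norm_num) (by norm_num) (by norm_num) (by norm_num) (by norm_num) (by norm_num) (by norm_num) (by norm_num) le_rfl rfl (by norm_num) (by norm_num) (by norm_num) (by norm_num) (by norm_num) (by norm_num) (by norm_num) (by norm_num) (by norm_num) (by norm_num) (by norm_num) (by norm_num) (by norm_num) (by norm_num) (by norm_num) (by norm_num) (by norm_num) (by norm_num) (by norm_num)).trans (mul_le_mul (by norm_num) hmx hY0 (by norm_num))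
    · rcases le_total (t + Real.pi / 2 + β) (Real.pi / 2) with hz | hz
      · exact (cellHU (t' := t + Real.pi / 2 + β) (τ := t + κ) 0.8 1 0.46 1.58408 0.63128 0.63129 2.6826 0.33019 0.0213 0.000001 14.233 0.0000006588 1.0913 0.1676 0.00742 0.00394 0.5 1.049 _ _ 0.7539 0.864 0.864 1.570796 0.77263 0.6568 0.7445 0.7724 0.001406 0.0005845 0.0004426 1.4105 0.00717
      hβ hr hκ hk1 hk2 (by linarith) (by linarith) (by linarith) (by linarith) (by linarith) hY
      (expn_le (by norm_num) (by norm_num) (by norm_num))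
      (expm_ge (by norm_num) (by norm_num) (by norm_num) (by norm_num)) (expm_le (by norm_num) (by norm_num) (by norm_num)) (exp_neg_leJ (r := 0.2329) 14 (by norm_num) (by norm_num) (by norm_num) (by norm_num)) 
      (exp_neg_leJ (r := 0.5679) 6 (by norm_num) (by norm_num) (by norm_num) (by norm_num)) (exp_neg_leJ (r := 0.4449) 7 (by norm_num) (by norm_num) (by norm_num) (by norm_num)) (exp_neg_leJ (r := 0.7239) 7 (by norm_num) (by norm_num) (by norm_num) (by norm_num))
      (by linarith)
      (by norm_num) (by norm_num) (by norm_num) (by norm_num) (by norm_num) (by norm_num) (by norm_num) (by norm_num) (by norm_num) (by norm_num) (by norm_num) (by norm_num) (by norm_num) (by norm_num) (by norm_num) (by norm_num) (by norm_num) (by norm_num) (by norm_num) (by norm_num) (by norm_num) le_rfl rfl (by norm_num) (by norm_num) (by norm_num) (by norm_num) (by norm_num) (by norm_num) (by norm_num) (by norm_num) (by norm_num) (by norm_num) (by norm_num) (by norm_num) (by norm_num) (by norm_num) (by norm_num) (by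 norm_num) (by norm_num) (by norm_num) (by norm_num)).trans (mul_le_mul (by norm_num) hmx hY0 (by norm_num))
      · exact (cellUD (t' := t + Real.pi / 2 + β) (τ := t + κ) 0.8 1 0.5 0.864 0.77263 0.7724 0.001203 0.0004426 1.4105 0.00445
      hβ hr hκ hk1 hk2 (by norm_num) (by linarith) (by linarith) (by linarith) (by linarith) hY
      (exp_neg_leJ (r := 0.7239) 6 (by norm_num) (by norm_num) (by norm_num) (by norm_num)) (exp_neg_leJ (r := 0.7239) 7 (by norm_num) (by norm_num) (by norm_num) (by norm_num)) (by norm_num) (by norm_num) (by norm_num) (by norm_num) (by norm_num) (by norm_num) (by norm_num) (by norm_num)).trans (mul_le_mul (by norm_num) hmx hY0 (by norm_num))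
    · exact (cellN (t' := t - Real.pi + β) (τ := t + κ) 0.8 1 0.74 0.47712 2.09594 2.0959 0.9985 0.71787 0.0756 1.35595 0.13064 0.00136 0.00017 0.5 1.049 _ _ 0.7539 0.864 0.864 3.141592 1 2.09594 0.77263 1.0104 2 0.7724 0.00004092 0.0000003101 0.0004426 1.4105 0.00103
      hβ hr hκ hk1 hk2 (by norm_num) (by linarith) (by linarith) (by linarith) (by linarith) (by linarith) hY
      (expm_le (by norm_num) (by norm_num) (by norm_num)) (expn_ge (by norm_num) (by norm_num)) (expn_le (by norm_num) (by norm_num) (by norm_num)) (by rw [mul_one]; exact (expn_le (by norm_num) (by norm_num) (by norm_num)))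
      (exp_neg_leJ (r := 0.1039) 10 (by norm_num) (by norm_num) (by norm_num) (by norm_num)) (exp_neg_leJ (r := 0.9899) 14 (by norm_num) (by norm_num) (by norm_num) (by norm_num)) (exp_neg_leJ (r := 0.7239) 7 (by norm_num) (by norm_num) (by norm_num) (by norm_num))
      (by linarith)
      (by norm_num) (by norm_num) (by norm_num) (by norm_num) (by norm_num) (by norm_num) (by norm_num) (by norm_num) (by norm_num) (by norm_num) (by norm_num) (by norm_num) (by norm_num) (by norm_num) (by norm_num) (by norm_num) (by norm_num) (by norm_num) (by norm_num) le_rfl rfl (by norm_num) (by norm_num) (by norm_num) (by norm_num) (by norm_num) (by norm_num) (by norm_num) (by norm_num) (by norm_num) (by norm_num) (by norm_num) (by norm_num) (by norm_num) (by norm_num) (by norm_num) (by norm_num) (by norm_num) (by norm_num) (by norm_num)).trans (mul_le_mul (by norm_num) hmx hY0 (by norm_num))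
  · have hY := y0w_4 hβ hr hκ hk1 hk2 (t := t - Real.pi / 2) (by linarith) (by linarith)
    have hY0 : 0 ≤ ‖Pb β r (t - Real.pi / 2)‖ := norm_nonneg _
    have hmx : ‖Pb β r (t - Real.pi / 2)‖ ≤ max ‖Pb β r (t - Real.pi / 2)‖ ‖Pb β r t‖ := (le_max_left _ _)
    have hmx0 := hY0.trans hmx
    refine ⟨?_, ?_, ?_, ?_⟩
    · rcases le_total (t + Real.pi / 2) (Real.pi / 2) with hz | hz
      · exact (cellHU (t' := t + Real.pi / 2) (τ := t - Real.pi / 2 + κ) 0.8 1 0.46 1.58408 0.63128 0.63129 2.6826 0.33019 0.0213 0.000001 14.233 0.0000006588 1.0913 0.1676 0.00742 0.00394 0.6039 1.049 _ _ (-0.7069) (-0.5026) 0.7069 3.141592 0.57241 0.6986 0.7863 0.8159 0.0009281 0.0003856 0.0002862 1.4105 0.00637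
      hβ hr hκ hk1 hk2 (by linarith) (by linarith) (by linarith) (by linarith) (by linarith) hY
      (expn_le (by norm_num) (by norm_num) (by norm_num))
      (expm_ge (by norm_num) (by norm_num) (by norm_num) (by norm_num)) (expm_le (by norm_num) (by norm_num) (by norm_num)) (exp_neg_leJ (r := 0.2329) 14 (by norm_num) (by norm_num) (by norm_num) (by norm_num)) 
      (exp_neg_leJ (r := 0.9859) 6 (by norm_num) (by norm_num) (by norm_num) (by norm_num)) (exp_neg_leJ (r := 0.8629) 7 (by norm_num) (by norm_num) (by norm_num) (by norm_num)) (exp_neg_leJ (r := 0.1589) 8 (by norm_num) (by norm_num) (by norm_num) (by norm_num))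
      (by linarith)
      (by norm_num) (by norm_num) (by norm_num) (by norm_num) (by norm_num) (by norm_num) (by norm_num) (by norm_num) (by norm_num) (by norm_num) (by norm_num) (by norm_num) (by norm_num) (by norm_num) (by norm_num) (by norm_num) (by norm_num) (by norm_num) (by norm_num) (by norm_num) (by norm_num) le_rfl rfl (by norm_num) (by norm_num) (by norm_num) (by norm_num) (by norm_num) (by norm_num) (by norm_num) (by norm_num) (by norm_num) (by norm_num) (by norm_num) (by norm_num) (by norm_num) (by norm_num) (by norm_num) (by norm_num) (by norm_num) (by norm_num) (by norm_num)).trans (mul_le_mul (by norm_num) hmx hY0 (by norm_num))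
      · exact (cellUD (t' := t + Real.pi / 2) (τ := t - Real.pi / 2 + κ) 0.8 1 0.6039 0.7069 0.57241 0.8159 0.000778 0.0002862 1.4105 0.00389
      hβ hr hκ hk1 hk2 (by norm_num) (by linarith) (by linarith) (by linarith) (by linarith) hY
      (exp_neg_leJ (r := 0.1589) 7 (by norm_num) (by norm_num) (by norm_num) (by norm_num)) (exp_neg_leJ (r := 0.1589) 8 (by norm_num) (by norm_num) (by norm_num) (by norm_num)) (by norm_num) (by norm_num) (by norm_num) (by norm_num) (by norm_num) (by norm_num) (by norm_num) (by norm_num)).trans (mul_le_mul (by norm_num) hmx hY0 (by norm_num))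
    · exact (cellN (t' := t - Real.pi) (τ := t - Real.pi / 2 + κ) 0.8 1 0.72 0.48676 2.05444 2.05441 1.0077 0.71914 0.0698 1.33445 0.12617 0.0013 0.00016 0.6039 1.049 _ _ (-0.7069) (-0.5026) 0.7069 1.570796 0 1 0.57241 0.9543 2 0.8159 0.00007173 0.0000003101 0.0002862 1.4105 0.00091
      hβ hr hκ hk1 hk2 (by norm_num) (by linarith) (by linarith) (by linarith) (by linarith) (by linarith) hY
      (expm_le (by norm_num) (by norm_num) (by norm_num)) (expn_ge (by norm_num) (by norm_num)) (expn_le (by norm_num) (by norm_num) (by norm_num)) (by norm_num)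
      (exp_neg_leJ (r := 0.5429) 9 (by norm_num) (by norm_num) (by norm_num) (by norm_num)) (exp_neg_leJ (r := 0.9899) 14 (by norm_num) (by norm_num) (by norm_num) (by norm_num)) (exp_neg_leJ (r := 0.1589) 8 (by norm_num) (by norm_num) (by norm_num) (by norm_num))
      (by linarith)
      (by norm_num) (by norm_num) (by norm_num) (by norm_num) (by norm_num) (by norm_num) (by norm_num) (by norm_num) (by norm_num) (by norm_num) (by norm_num) (by norm_num) (by norm_num) (by norm_num) (by norm_num) (by norm_num) (by norm_num) (by norm_num) (by norm_num) le_rfl rfl (by norm_num) (by norm_num) (by norm_num) (by norm_num) (by norm_num) (by norm_num) (by norm_num) (by norm_num) (by norm_num) (by norm_num) (by norm_num) (by norm_num) (by norm_num) (by norm_num) (by norm_num) (by norm_num) (by norm_num) (by norm_num) (by norm_num)).trans (mul_le_mul (by norm_num) hmx hY0 (by norm_num))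
    · rcases le_total (t + Real.pi / 2 + β) (Real.pi / 2) with hz | hz
      · exact (cellHU (t' := t + Real.pi / 2 + β) (τ := t - Real.pi / 2 + κ) 0.8 1 0.46 1.58408 0.63128 0.63129 2.6826 0.33019 0.0213 0.000001 14.233 0.0000006588 1.0913 0.1676 0.00742 0.00394 0.6039 1.049 _ _ (-0.7069) (-0.5026) 0.7069 3.141592 0.57241 0.6986 0.7863 0.8159 0.0009281 0.0003856 0.0002862 1.4105 0.00637
      hβ hr hκ hk1 hk2 (by linarith) (by linarith) (by linarith) (by linarith) (by linarith) hY
      (expn_le (by norm_num) (by norm_num) (by norm_num))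
      (expm_ge (by norm_num) (by norm_num) (by norm_num) (by norm_num)) (expm_le (by norm_num) (by norm_num) (by norm_num)) (exp_neg_leJ (r := 0.2329) 14 (by norm_num) (by norm_num) (by norm_num) (by norm_num)) 
      (exp_neg_leJ (r := 0.9859) 6 (by norm_num) (by norm_num) (by norm_num) (by norm_num)) (exp_neg_leJ (r := 0.8629) 7 (by norm_num) (by norm_num) (by norm_num) (by norm_num)) (exp_neg_leJ (r := 0.1589) 8 (by norm_num) (by norm_num) (by norm_num) (by norm_num))
      (by linarith)
      (by norm_num) (by norm_num) (by norm_num) (by norm_num) (by norm_num) (by norm_num) (by norm_num) (by norm_num) (by norm_num) (by norm_num) (by norm_num) (by norm_num) (by norm_num) (by norm_num) (by norm_num) (by norm_num) (by norm_num) (by norm_num) (by norm_num) (by norm_num) (by norm_num) le_rfl rfl (by norm_num) (by norm_num) (by norm_num) (by norm_num) (by norm_num) (by norm_num) (by norm_num) (by norm_num) (by norm_num) (by norm_num) (by norm_num) (by norm_num) (by norm_num) (by norm_num) (by norm_num) (by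 norm_num) (by norm_num) (by norm_num) (by norm_num)).trans (mul_le_mul (by norm_num) hmx hY0 (by norm_num))
      · exact (cellUD (t' := t + Real.pi / 2 + β) (τ := t - Real.pi / 2 + κ) 0.8 1 0.6039 0.7069 0.57241 0.8159 0.000778 0.0002862 1.4105 0.00389
      hβ hr hκ hk1 hk2 (by norm_num) (by linarith) (by linarith) (by linarith) (by linarith) hY
      (exp_neg_leJ (r := 0.1589) 7 (by norm_num) (by norm_num) (by norm_num) (by norm_num)) (exp_neg_leJ (r := 0.1589) 8 (by norm_num) (by norm_num) (by norm_num) (by norm_num)) (by norm_num) (by norm_num) (by norm_num) (by norm_num) (by norm_num) (by norm_num) (by norm_num) (by norm_num)).trans (mul_le_mul (by norm_num) hmx hY0 (by norm_num))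
    · exact (cellN (t' := t - Real.pi + β) (τ := t - Real.pi / 2 + κ) 0.8 1 0.75 0.47238 2.11701 2.11697 0.994 0.71727 0.0698 1.36702 0.13286 0.00139 0.00018 0.6039 1.049 _ _ (-0.7069) (-0.5026) 0.7069 1.570796 1 2.11701 0.57241 0.9772 2 0.8159 0.00005711 0.0000003101 0.0002862 1.4105 0.00102
      hβ hr hκ hk1 hk2 (by norm_num) (by linarith) (by linarith) (by linarith) (by linarith) (by linarith) hY
      (expm_le (by norm_num) (by norm_num) (by norm_num)) (expn_ge (by norm_num) (by norm_num)) (expn_le (by norm_num) (by norm_num) (by norm_num)) (by rw [mul_one]; exact (expn_le (by norm_num) (by norm_num) (by norm_num)))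
      (exp_neg_leJ (r := 0.7719) 9 (by norm_num) (by norm_num) (by norm_num) (by norm_num)) (exp_neg_leJ (r := 0.9899) 14 (by norm_num) (by norm_num) (by norm_num) (by norm_num)) (exp_neg_leJ (r := 0.1589) 8 (by norm_num) (by norm_num) (by norm_num) (by norm_num))
      (by linarith)
      (by norm_num) (by norm_num) (by norm_num) (by norm_num) (by norm_num) (by norm_num) (by norm_num) (by norm_num) (by norm_num) (by norm_num) (by norm_num) (by norm_num) (by norm_num) (by norm_num) (by norm_num) (by norm_num) (by norm_num) (by norm_num) (by norm_num) le_rfl rfl (by norm_num) (by norm_num) (by norm_num) (by norm_num) (by norm_num) (by norm_num) (by norm_num) (by norm_num) (by norm_num) (by norm_num) (by norm_num) (by norm_num) (by norm_num) (by norm_num) (by norm_num) (by norm_num) (by norm_num) (by norm_num) (by norm_num)).trans (mul_le_mul (by norm_num) hmx hY0 (by norm_num))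

theorem rng_4 {p : ℤ} {β r κ : ℝ} (hp : IsCoprime (4 : ℤ) p) (hβ : 0 < β) (hr : 10 ≤ r) (hκ : κ = β * r)
    (hk1 : 0.8 ≤ κ) (hk2 : κ ≤ 1) : Circ (2 * Real.pi * p / 4 + β) r := by
  refine circ4 (κ := κ) (s0 := 0.05) (slo := 0.48) (shi := 0.68) (a := 1.04) (m := 0.0618) (E2 := 0.00717) (Em := 0.00097) (F2 := 0.00717) (Fm := 0.00103)
    (l0 := 2.2674) (l1 := 0.8435) hp (by linarith) (by norm_num) (by norm_num) (by norm_num) (by norm_num) ?_ ?_ (by norm_num) (by norm_num)
  · intro t h1 h2
    obtain ⟨w1, w2, w3, w4⟩ := WE_4 (t := t) hβ hr hκ hk1 hk2 h1 h2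
    have S : SL β r 2.2674 0.8435 0.0618 t := by
      rcases le_total κ 0.85 with f0 | g0
      · exact SL_mono (by linarith) (slp11 (t := t) hβ hr hκ (by linarith) (by linarith) h1 h2) (by norm_num) (by norm_num) (by norm_num)
      rcases le_total κ 0.9 with f1 | g1
      · exact SL_mono (by linarith) (slp12 (t := t) hβ hr hκ (by linarith) (by linarith) h1 h2) (by norm_num) (by norm_num) (by norm_num)
      rcases le_total κ 0.95 with f2 | g2
      · exact SL_mono (by linarith) (slp13 (t := t) hβ hr hκ (by linarith) (by linarith) h1 h2) (by norm_num) (by norm_num) (by norm_num)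
      exact SL_mono (by linarith) (slp14 (t := t) hβ hr hκ (by linarith) (by linarith) h1 h2) (by norm_num) (by norm_num) (by norm_num)
    exact ⟨S.ne0, w1, w2, w3, w4, S.L0, S.L1, S.S⟩
  · intro t h1 h2 h3
    rcases h3 with h3 | h3
    · exact RL_4 hβ hr hκ hk1 hk2 h1 h3.le
    · exact RR_4 hβ hr hκ hk1 hk2 h3.le h2

end Sok.B4
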