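import Pool.Agent.Lib.MP_816dec_an.R1B4D

/-!
MP_816dec_an (A3, row R1, b = 4): two dimensional covers of the discs, `κ ≥ 1`.
-/

set_option autoImplicit false
set_option maxHeartbeats 4000000

open Complex Set

namespace Sok.B4

private theorem dl14_b0_0 {β x y : ℝ} (hβ : 0 < β) (hN : β * 9.09 ≤ 1) (hx1 : 1.3267 ≤ x) (hx2 : x ≤ 1.4167)
    (hy1 : -0.623 ≤ y) (hy2 : y ≤ -0.563) : ‖HH β (x + y * I) - 1‖ ≤ 0.275 := by
  refine le_epsJ (C := 2.4637) (N0 := 9.09) (J_boxp 1.3267 1.4167 0.623 0 (-0.563) 1.2018 1.5477 1.4826 0.9242 0.4858 3.015 9.09 1.2879 7.122 1.824 0.3001 0.6008 0.3429 0.479 1.2943 0.659 2.3369 2.5305 3.1583 0.00425 0.04434 0.01286 0.000007781 0.002513 0.0000003101 0.0000003101 0.0000003101 2.4637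
    hβ hN hx1 hx2 hy1 hy2 (by norm_num) (by norm_num) (by linarith) (by norm_num) (by norm_num) (by norm_num) (by norm_num) (by norm_num) (by norm_num) (by norm_num) (by norm_num) (by norm_num) (by norm_num) (by norm_num) (by norm_num) (by norm_num) (by norm_num) (by norm_num) (by norm_num) (by norm_num) (by norm_num) (by norm_num) (by norm_num) (by norm_num)
    (cube_sqrt_geJ (s := 0.7554) (by norm_num) (by norm_num) (by norm_num) (by norm_num))
    (cube_sqrt_geJ (s := 0.9177) (by norm_num) (by norm_num) (by norm_num) (by norm_num))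
    (by norm_num) (by norm_num) (by norm_num) (by norm_num) (by norm_num) (by norm_num) (by norm_num) (by norm_num) (by norm_num) (by norm_num) (by norm_num) (by norm_num) (by norm_num) (by norm_num) (by norm_num) (by norm_num) (by norm_num) (by norm_num)
    (exp_neg_leJ (r := 0.461) 5 (by norm_num) (by norm_num) (by norm_num) (by norm_num))
    (exp_neg_leJ (r := 0.116) 3 (by norm_num) (by norm_num) (by norm_num) (by norm_num))
    (exp_neg_leJ (r := 0.354) 4 (by norm_num) (by norm_num) (by norm_num) (by norm_num))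
    (exp_neg_leJ (r := 0.765) 11 (by norm_num) (by norm_num) (by norm_num) (by norm_num))
    (exp_neg_leJ (r := 0.99) 5 (by norm_num) (by norm_num) (by norm_num) (by norm_num))
    (exp_neg_leJ (r := 0.99) 14 (by norm_num) (by norm_num) (by norm_num) (by norm_num))
    (exp_neg_leJ (r := 0.99) 14 (by norm_num) (by norm_num) (by norm_num) (by norm_num))
    (exp_neg_leJ (r := 0.99) 14 (by norm_num) (by norm_num) (by norm_num) (by norm_num))
    (by norm_num)) (by norm_num) hN hβ.le (by norm_num)

private theorem dl14_b0_1 {β x y : ℝ} (hβ : 0 < β) (hN : β * 9.09 ≤ 1) (hx1 : 1.4167 ≤ x) (hx2 : x ≤ 1.5367)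
    (hy1 : -0.623 ≤ y) (hy2 : y ≤ -0.563) : ‖HH β (x + y * I) - 1‖ ≤ 0.275 := by
  refine le_epsJ (C := 2.4658) (N0 := 9.09) (J_boxp 1.4167 1.5367 0.623 0 (-0.563) 1.2652 1.6582 1.5977 0.8882 0.5043 3.015 9.09 1.3107 7.465 1.845 0.254 0.6325 0.3562 0.5098 1.2275 0.7027 2.4615 2.7105 3.038 0.00319 0.03929 0.009721 0.00001428 0.001684 0.0000003101 0.0000003101 0.0000003101 2.4658
    hβ hN hx1 hx2 hy1 hy2 (by norm_num) (by norm_num) (by linarith) (by norm_num) (by norm_num) (by norm_num) (by norm_num) (by norm_num) (by norm_num) (by norm_num) (by norm_num) (by norm_num) (by norm_num) (by norm_num) (by norm_num) (by norm_num) (by norm_num) (by norm_num) (by norm_num) (by norm_num) (by norm_num) (by norm_num) (by norm_num) (by norm_num)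
    (cube_sqrt_geJ (s := 0.7503) (by norm_num) (by norm_num) (by norm_num) (by norm_num))
    (cube_sqrt_geJ (s := 0.9162) (by norm_num) (by norm_num) (by norm_num) (by norm_num))
    (by norm_num) (by norm_num) (by norm_num) (by norm_num) (by norm_num) (by norm_num) (by norm_num) (by norm_num) (by norm_num) (by norm_num) (by norm_num) (by norm_num) (by norm_num) (by norm_num) (by norm_num) (by norm_num) (by norm_num) (by norm_num)
    (exp_neg_leJ (r := 0.749) 5 (by norm_num) (by norm_num) (by norm_num) (by norm_num))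
    (exp_neg_leJ (r := 0.237) 3 (by norm_num) (by norm_num) (by norm_num) (by norm_num))
    (exp_neg_leJ (r := 0.634) 4 (by norm_num) (by norm_num) (by norm_num) (by norm_num))
    (exp_neg_leJ (r := 0.157) 11 (by norm_num) (by norm_num) (by norm_num) (by norm_num))
    (exp_neg_leJ (r := 0.387) 6 (by norm_num) (by norm_num) (by norm_num) (by norm_num))
    (exp_neg_leJ (r := 0.99) 14 (by norm_num) (by norm_num) (by norm_num) (by norm_num))
    (exp_neg_leJ (r := 0.99) 14 (by norm_num) (by norm_num) (by norm_num) (by norm_num))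
    (exp_neg_leJ (r := 0.99) 14 (by norm_num) (by norm_num) (by norm_num) (by norm_num))
    (by norm_num)) (by norm_num) hN hβ.le (by norm_num)

private theorem dl14_b0_2 {β x y : ℝ} (hβ : 0 < β) (hN : β * 9.09 ≤ 1) (hx1 : 1.5367 ≤ x) (hx2 : x ≤ 1.6967)
    (hy1 : -0.623 ≤ y) (hy2 : y ≤ -0.563) : ‖HH β (x + y * I) - 1‖ ≤ 0.275 := by
  refine le_epsJ (C := 2.476) (N0 := 9.09) (J_boxp 1.5367 1.6967 0.623 0 (-0.563) 1.3497 1.8075 1.7521 0.8442 0.5281 3.015 9.09 1.3392 7.923 1.872 0.1924 0.6748 0.3735 0.5509 1.1378 0.761 2.6277 2.9505 2.8721 0.002171 0.03355 0.006692 0.00003226 0.0009934 0.0000003101 0.0000003101 0.0000003101 2.476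
    hβ hN hx1 hx2 hy1 hy2 (by norm_num) (by norm_num) (by linarith) (by norm_num) (by norm_num) (by norm_num) (by norm_num) (by norm_num) (by norm_num) (by norm_num) (by norm_num) (by norm_num) (by norm_num) (by norm_num) (by norm_num) (by norm_num) (by norm_num) (by norm_num) (by norm_num) (by norm_num) (by norm_num) (by norm_num) (by norm_num) (by norm_num)
    (cube_sqrt_geJ (s := 0.744) (by norm_num) (by norm_num) (by norm_num) (by norm_num))
    (cube_sqrt_geJ (s := 0.9143) (by norm_num) (by norm_num) (by norm_num) (by norm_num))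
    (by norm_num) (by norm_num) (by norm_num) (by norm_num) (by norm_num) (by norm_num) (by norm_num) (by norm_num) (by norm_num) (by norm_num) (by norm_num) (by norm_num) (by norm_num) (by norm_num) (by norm_num) (by norm_num) (by norm_num) (by norm_num)
    (exp_neg_leJ (r := 0.133) 6 (by norm_num) (by norm_num) (by norm_num) (by norm_num))
    (exp_neg_leJ (r := 0.395) 3 (by norm_num) (by norm_num) (by norm_num) (by norm_num))
    (exp_neg_leJ (r := 0.007) 5 (by norm_num) (by norm_num) (by norm_num) (by norm_num))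
    (exp_neg_leJ (r := 0.342) 10 (by norm_num) (by norm_num) (by norm_num) (by norm_num))
    (exp_neg_leJ (r := 0.917) 6 (by norm_num) (by norm_num) (by norm_num) (by norm_num))
    (exp_neg_leJ (r := 0.99) 14 (by norm_num) (by norm_num) (by norm_num) (by norm_num))
    (exp_neg_leJ (r := 0.99) 14 (by norm_num) (by norm_num) (by norm_num) (by norm_num))
    (exp_neg_leJ (r := 0.99) 14 (by norm_num) (by norm_num) (by norm_num) (by norm_num))
    (by norm_num)) (by norm_num) hN hβ.le (by norm_num)

private theorem dl14_b0_3 {β x y : ℝ} (hβ : 0 < β) (hN : β * 9.09 ≤ 1) (hx1 : 1.6967 ≤ x) (hx2 : x ≤ 1.8564)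
    (hy1 : -0.623 ≤ y) (hy2 : y ≤ -0.563) : ‖HH β (x + y * I) - 1‖ ≤ 0.275 := by
  refine le_epsJ (C := 2.237) (N0 := 9.09) (J_boxp 1.6967 1.8564 0.623 0 (-0.563) 1.4624 1.9582 1.9072 0.781 0.551 3.015 9.09 1.3391 7.921 1.872 0.131 0.7311 0.4048 0.6056 1.0479 0.8387 2.8492 3.2705 2.7825 0.001302 0.02527 0.004072 0.00007303 0.0004894 0.0000003101 0.0000003101 0.0000003101 2.237
    hβ hN hx1 hx2 hy1 hy2 (by norm_num) (by norm_num) (by linarith) (by norm_num) (by norm_num) (by norm_num) (by norm_num) (by norm_num) (by norm_num) (by norm_num) (by norm_num) (by norm_num) (by norm_num) (by norm_num) (by norm_num) (by norm_num) (by norm_num) (by norm_num) (by norm_num) (by norm_num) (by norm_num) (by norm_num) (by norm_num) (by norm_num)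
    (cube_sqrt_geJ (s := 0.744) (by norm_num) (by norm_num) (by norm_num) (by norm_num))
    (cube_sqrt_geJ (s := 0.9143) (by norm_num) (by norm_num) (by norm_num) (by norm_num))
    (by norm_num) (by norm_num) (by norm_num) (by norm_num) (by norm_num) (by norm_num) (by norm_num) (by norm_num) (by norm_num) (by norm_num) (by norm_num) (by norm_num) (by norm_num) (by norm_num) (by norm_num) (by norm_num) (by norm_num) (by norm_num)
    (exp_neg_leJ (r := 0.645) 6 (by norm_num) (by norm_num) (by norm_num) (by norm_num))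
    (exp_neg_leJ (r := 0.679) 3 (by norm_num) (by norm_num) (by norm_num) (by norm_num))
    (exp_neg_leJ (r := 0.504) 5 (by norm_num) (by norm_num) (by norm_num) (by norm_num))
    (exp_neg_leJ (r := 0.525) 9 (by norm_num) (by norm_num) (by norm_num) (by norm_num))
    (exp_neg_leJ (r := 0.623) 7 (by norm_num) (by norm_num) (by norm_num) (by norm_num))
    (exp_neg_leJ (r := 0.99) 14 (by norm_num) (by norm_num) (by norm_num) (by norm_num))
    (exp_neg_leJ (r := 0.99) 14 (by norm_num) (by norm_num) (by norm_num) (by norm_num))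
    (exp_neg_leJ (r := 0.99) 14 (by norm_num) (by norm_num) (by norm_num) (by norm_num))
    (by norm_num)) (by norm_num) hN hβ.le (by norm_num)

private theorem dl14_b1_0 {β x y : ℝ} (hβ : 0 < β) (hN : β * 9.09 ≤ 1) (hx1 : 1.1406 ≤ x) (hx2 : x ≤ 1.2506)
    (hy1 : -0.563 ≤ y) (hy2 : y ≤ -0.129) : ‖HH β (x + y * I) - 1‖ ≤ 0.275 := by
  refine le_epsJ (C := 2.4686) (N0 := 9.09) (J_boxp 1.1406 1.2506 0.563 0 (-0.129) 1.1134 1.3715 1.5241 1.0509 0.4926 3.015 9.09 1.2319 6.363 1.773 0.4194 0.5566 0.3281 0.51 1.5813 0.6014 2.0792 2.3214 3.2651 0.006352 0.05087 0.009712 0.0000005722 0.004229 0.0000003101 0.0000003101 0.0000003101 2.4686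
    hβ hN hx1 hx2 hy1 hy2 (by norm_num) (by norm_num) (by linarith) (by norm_num) (by norm_num) (by norm_num) (by norm_num) (by norm_num) (by norm_num) (by norm_num) (by norm_num) (by norm_num) (by norm_num) (by norm_num) (by norm_num) (by norm_num) (by norm_num) (by norm_num) (by norm_num) (by norm_num) (by norm_num) (by norm_num) (by norm_num) (by norm_num)
    (cube_sqrt_geJ (s := 0.7677) (by norm_num) (by norm_num) (by norm_num) (by norm_num))
    (cube_sqrt_geJ (s := 0.9215) (by norm_num) (by norm_num) (by norm_num) (by norm_num))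
    (by norm_num) (by norm_num) (by norm_num) (by norm_num) (by norm_num) (by norm_num) (by norm_num) (by norm_num) (by norm_num) (by norm_num) (by norm_num) (by norm_num) (by norm_num) (by norm_num) (by norm_num) (by norm_num) (by norm_num) (by norm_num)
    (exp_neg_leJ (r := 0.059) 5 (by norm_num) (by norm_num) (by norm_num) (by norm_num))
    (exp_neg_leJ (r := 0.982) 2 (by norm_num) (by norm_num) (by norm_num) (by norm_num))
    (exp_neg_leJ (r := 0.635) 4 (by norm_num) (by norm_num) (by norm_num) (by norm_num))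
    (exp_neg_leJ (r := 0.374) 14 (by norm_num) (by norm_num) (by norm_num) (by norm_num))
    (exp_neg_leJ (r := 0.466) 5 (by norm_num) (by norm_num) (by norm_num) (by norm_num))
    (exp_neg_leJ (r := 0.99) 14 (by norm_num) (by norm_num) (by norm_num) (by norm_num))
    (exp_neg_leJ (r := 0.99) 14 (by norm_num) (by norm_num) (by norm_num) (by norm_num))
    (exp_neg_leJ (r := 0.99) 14 (by norm_num) (by norm_num) (by norm_num) (by norm_num))
    (by norm_num)) (by norm_num) hN hβ.le (by norm_num)

private theorem dl14_b1_1 {β x y : ℝ} (hβ : 0 < β) (hN : β * 9.09 ≤ 1) (hx1 : 1.2506 ≤ x) (hx2 : x ≤ 1.4006)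
    (hy1 : -0.563 ≤ y) (hy2 : y ≤ -0.129) : ‖HH β (x + y * I) - 1‖ ≤ 0.275 := by
  refine le_epsJ (C := 2.4733) (N0 := 9.09) (J_boxp 1.2506 1.4006 0.563 0 (-0.129) 1.1908 1.5096 1.6494 0.9884 0.5124 3.015 9.09 1.2678 6.838 1.805 0.3617 0.5953 0.3437 0.5477 1.4978 0.6548 2.2315 2.5414 3.1097 0.004468 0.04399 0.006911 0.000001223 0.002609 0.0000003101 0.0000003101 0.0000003101 2.4733
    hβ hN hx1 hx2 hy1 hy2 (by norm_num) (by norm_num) (by linarith) (by norm_num) (by norm_num) (by norm_num) (by norm_num) (by norm_num) (by norm_num) (by norm_num) (by norm_num) (by norm_num) (by norm_num) (by norm_num) (by norm_num) (by norm_num) (by norm_num) (by norm_num) (by norm_num) (by norm_num) (by norm_num) (by norm_num) (by norm_num) (by norm_num)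
    (cube_sqrt_geJ (s := 0.7598) (by norm_num) (by norm_num) (by norm_num) (by norm_num))
    (cube_sqrt_geJ (s := 0.9191) (by norm_num) (by norm_num) (by norm_num) (by norm_num))
    (by norm_num) (by norm_num) (by norm_num) (by norm_num) (by norm_num) (by norm_num) (by norm_num) (by norm_num) (by norm_num) (by norm_num) (by norm_num) (by norm_num) (by norm_num) (by norm_num) (by norm_num) (by norm_num) (by norm_num) (by norm_num)
    (exp_neg_leJ (r := 0.411) 5 (by norm_num) (by norm_num) (by norm_num) (by norm_num))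
    (exp_neg_leJ (r := 0.124) 3 (by norm_num) (by norm_num) (by norm_num) (by norm_num))
    (exp_neg_leJ (r := 0.978) 4 (by norm_num) (by norm_num) (by norm_num) (by norm_num))
    (exp_neg_leJ (r := 0.615) 13 (by norm_num) (by norm_num) (by norm_num) (by norm_num))
    (exp_neg_leJ (r := 0.952) 5 (by norm_num) (by norm_num) (by norm_num) (by norm_num))
    (exp_neg_leJ (r := 0.99) 14 (by norm_num) (by norm_num) (by norm_num) (by norm_num))
    (exp_neg_leJ (r := 0.99) 14 (by norm_num) (by norm_num) (by norm_num) (by norm_num))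
    (exp_neg_leJ (r := 0.99) 14 (by norm_num) (by norm_num) (by norm_num) (by norm_num))
    (by norm_num)) (by norm_num) hN hβ.le (by norm_num)

private theorem dl14_b1_2 {β x y : ℝ} (hβ : 0 < β) (hN : β * 9.09 ≤ 1) (hx1 : 1.4006 ≤ x) (hx2 : x ≤ 1.6006)
    (hy1 : -0.563 ≤ y) (hy2 : y ≤ -0.129) : ‖HH β (x + y * I) - 1‖ ≤ 0.275 := by
  refine le_epsJ (C := 2.4701) (N0 := 9.09) (J_boxp 1.4006 1.6006 0.563 0 (-0.129) 1.2965 1.6968 1.8223 0.9145 0.5386 3.015 9.09 1.3088 7.435 1.843 0.2848 0.6482 0.3654 0.599 1.3857 0.7277 2.4392 2.8414 2.9008 0.002768 0.03612 0.004323 0.000003387 0.001343 0.0000003101 0.0000003101 0.0000003101 2.4701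
    hβ hN hx1 hx2 hy1 hy2 (by norm_num) (by norm_num) (by linarith) (by norm_num) (by norm_num) (by norm_num) (by norm_num) (by norm_num) (by norm_num) (by norm_num) (by norm_num) (by norm_num) (by norm_num) (by norm_num) (by norm_num) (by norm_num) (by norm_num) (by norm_num) (by norm_num) (by norm_num) (by norm_num) (by norm_num) (by norm_num) (by norm_num)
    (cube_sqrt_geJ (s := 0.7508) (by norm_num) (by norm_num) (by norm_num) (by norm_num))
    (cube_sqrt_geJ (s := 0.9163) (by norm_num) (by norm_num) (by norm_num) (by norm_num))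
    (by norm_num) (by norm_num) (by norm_num) (by norm_num) (by norm_num) (by norm_num) (by norm_num) (by norm_num) (by norm_num) (by norm_num) (by norm_num) (by norm_num) (by norm_num) (by norm_num) (by norm_num) (by norm_num) (by norm_num) (by norm_num)
    (exp_neg_leJ (r := 0.892) 5 (by norm_num) (by norm_num) (by norm_num) (by norm_num))
    (exp_neg_leJ (r := 0.321) 3 (by norm_num) (by norm_num) (by norm_num) (by norm_num))
    (exp_neg_leJ (r := 0.444) 5 (by norm_num) (by norm_num) (by norm_num) (by norm_num))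
    (exp_neg_leJ (r := 0.596) 12 (by norm_num) (by norm_num) (by norm_num) (by norm_num))
    (exp_neg_leJ (r := 0.614) 6 (by norm_num) (by norm_num) (by norm_num) (by norm_num))
    (exp_neg_leJ (r := 0.99) 14 (by norm_num) (by norm_num) (by norm_num) (by norm_num))
    (exp_neg_leJ (r := 0.99) 14 (by norm_num) (by norm_num) (by norm_num) (by norm_num))
    (exp_neg_leJ (r := 0.99) 14 (by norm_num) (by norm_num) (by norm_num) (by norm_num))
    (by norm_num)) (by norm_num) hN hβ.le (by norm_num)

private theorem dl14_b1_3 {β x y : ℝ} (hβ : 0 < β) (hN : β * 9.09 ≤ 1) (hx1 : 1.6006 ≤ x) (hx2 : x ≤ 1.8564)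
    (hy1 : -0.563 ≤ y) (hy2 : y ≤ -0.129) : ‖HH β (x + y * I) - 1‖ ≤ 0.275 := by
  refine le_epsJ (C := 2.4281) (N0 := 9.09) (J_boxp 1.6006 1.8564 0.563 0 (-0.129) 1.4373 1.9399 2.0506 0.8311 0.5713 3.015 9.09 1.3497 8.101 1.882 0.1864 0.7186 0.3953 0.6675 1.2412 0.8248 2.7162 3.2414 2.64 0.001457 0.02753 0.002319 0.0000126 0.0005549 0.0000003101 0.0000003101 0.0000003101 2.4281
    hβ hN hx1 hx2 hy1 hy2 (by norm_num) (by norm_num) (by linarith) (by norm_num) (by norm_num) (by norm_num) (by norm_num) (by norm_num) (by norm_num) (by norm_num) (by norm_num) (by norm_num) (by norm_num) (by norm_num) (by norm_num) (by norm_num) (by norm_num) (by norm_num) (by norm_num) (by norm_num) (by norm_num) (by norm_num) (by norm_num) (by norm_num)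
    (cube_sqrt_geJ (s := 0.7416) (by norm_num) (by norm_num) (by norm_num) (by norm_num))
    (cube_sqrt_geJ (s := 0.9136) (by norm_num) (by norm_num) (by norm_num) (by norm_num))
    (by norm_num) (by norm_num) (by norm_num) (by norm_num) (by norm_num) (by norm_num) (by norm_num) (by norm_num) (by norm_num) (by norm_num) (by norm_num) (by norm_num) (by norm_num) (by norm_num) (by norm_num) (by norm_num) (by norm_num) (by norm_num)
    (exp_neg_leJ (r := 0.532) 6 (by norm_num) (by norm_num) (by norm_num) (by norm_num))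
    (exp_neg_leJ (r := 0.593) 3 (by norm_num) (by norm_num) (by norm_num) (by norm_num))
    (exp_neg_leJ (r := 0.067) 6 (by norm_num) (by norm_num) (by norm_num) (by norm_num))
    (exp_neg_leJ (r := 0.282) 11 (by norm_num) (by norm_num) (by norm_num) (by norm_num))
    (exp_neg_leJ (r := 0.497) 7 (by norm_num) (by norm_num) (by norm_num) (by norm_num))
    (exp_neg_leJ (r := 0.99) 14 (by norm_num) (by norm_num) (by norm_num) (by norm_num))
    (exp_neg_leJ (r := 0.99) 14 (by norm_num) (by norm_num) (by norm_num) (by norm_num))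
    (exp_neg_leJ (r := 0.99) 14 (by norm_num) (by norm_num) (by norm_num) (by norm_num))
    (by norm_num)) (by norm_num) hN hβ.le (by norm_num)

theorem dl14 {κ t β : ℝ} (h : DomR κ t) (hβ : 0 < β) (hk1 : 1 ≤ κ) (hk2 : κ ≤ 1.1)
    (ht1 : -0.8483 ≤ t + κ) (ht2 : t + κ ≤ -0.5026) (hR0 : β * 10 ≤ κ) :
    ∀ s : ℂ, ‖s - sg κ t‖ ≤ 0.14 → ‖HH β s - 1‖ ≤ 0.275 := by
  have hN : β * 9.09 ≤ 1 := bNR hβ h.1 hk2 hR0 (by norm_num)
  have hy1 : -0.483 ≤ sy κ t := syL_ge h 1 1.1 0.8483 0.483 0.61692 0.61694 0.2866 0.27088 0.29799 hk1 hk2 (by linarith) (by norm_num) (by norm_num) (by norm_num)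
    (expm_ge (by norm_num) (by norm_num) (by norm_num) (by norm_num)) (expm_le (by norm_num) (by norm_num) (by norm_num)) (by norm_num)
    (by norm_num) (by norm_num) (by norm_num) (by norm_num) (by norm_num) (by norm_num)
  have hy2 : sy κ t ≤ -0.269 := syL_le h 1 1.1 0.5026 0.269 0.76414 0.76415 0.18686 0.20556 hk1 hk2 (by linarith) (by norm_num) (by norm_num) (by norm_num)
    (expm_ge (by norm_num) (by norm_num) (by norm_num) (by norm_num)) (expm_le (by norm_num) (by norm_num) (by norm_num)) (by norm_num)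
    (by norm_num) (by norm_num) (by norm_num) (by norm_num) (by norm_num) (by norm_num)
  intro s hs
  have hs' : ‖s - ((sx κ t : ℂ) + (sy κ t : ℂ) * I)‖ ≤ 0.14 := hs
  obtain ⟨es, ⟨s1, s2⟩, ⟨s3, s4⟩⟩ := disc_split hs'
  rcases le_total s.im (-0.563) with f0 | g0
  · have hx1 : 1.4667 ≤ sx κ t := sxm_lo h 1 (-0.423) 1.52653 1.4667 (-0.483) hk1 (by linarith) (by linarith) (by rw [neg_neg]; exact expn_ge (by norm_num) (by norm_num)) (by norm_num) (by norm_num) (by norm_num) (by norm_num)
    have hx2 : sx κ t ≤ 1.7164 := sxm_hi h 1 1.1 (-0.483) 1.62093 1.7164 hk1 hk2 (by linarith) (Or.inr ⟨by linarith, by norm_num⟩) (by rw [neg_neg]; exact expn_le (by norm_num) (by norm_num) (by norm_num)) (by norm_num) (by norm_num) (by norm_num)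
    rw [es]
    rcases le_total s.re 1.4167 with d0 | e0
    · exact dl14_b0_0 hβ hN (by linarith) (by linarith) (by linarith) (by linarith)
    rcases le_total s.re 1.5367 with d1 | e1
    · exact dl14_b0_1 hβ hN (by linarith) (by linarith) (by linarith) (by linarith)
    rcases le_total s.re 1.6967 with d2 | e2
    · exact dl14_b0_2 hβ hN (by linarith) (by linarith) (by linarith) (by linarith)
    exact dl14_b0_3 hβ hN (by linarith) (by linarith) (by linarith) (by linarith)
  have hx1 : 1.2806 ≤ sx κ t := sxm_lo h 1 (-0.269) 1.30865 1.2806 (-0.483) hk1 (by linarith) (by linarith) (by rw [neg_neg]; exact expn_ge (by norm_num) (by norm_num)) (by norm_num) (by norm_num) (by norm_num) (by norm_num)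
  have hx2 : sx κ t ≤ 1.7164 := sxm_hi h 1 1.1 (-0.483) 1.62093 1.7164 hk1 hk2 (by linarith) (Or.inr ⟨by linarith, by norm_num⟩) (by rw [neg_neg]; exact expn_le (by norm_num) (by norm_num) (by norm_num)) (by norm_num) (by norm_num) (by norm_num)
  rw [es]
  rcases le_total s.re 1.2506 with d0 | e0
  · exact dl14_b1_0 hβ hN (by linarith) (by linarith) (by linarith) (by linarith)
  rcases le_total s.re 1.4006 with d1 | e1
  · exact dl14_b1_1 hβ hN (by linarith) (by linarith) (by linarith) (by linarith)
  rcases le_total s.re 1.6006 with d2 | e2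
  · exact dl14_b1_2 hβ hN (by linarith) (by linarith) (by linarith) (by linarith)
  exact dl14_b1_3 hβ hN (by linarith) (by linarith) (by linarith) (by linarith)

private theorem dl15_b0_0 {β x y : ℝ} (hβ : 0 < β) (hN : β * 8.333 ≤ 1) (hx1 : 1.4529 ≤ x) (hx2 : x ≤ 1.5529)
    (hy1 : -0.601 ≤ y) (hy2 : y ≤ -0.541) : ‖HH β (x + y * I) - 1‖ ≤ 0.264 := by
  refine le_epsJ (C := 2.1927) (N0 := 8.333) (J_boxp 1.4529 1.5529 0.601 0 (-0.541) 1.3063 1.6652 1.6194 0.8524 0.5077 2.8867 8.333 1.2748 6.935 1.812 0.268 0.6531 0.3756 0.5569 1.2896 0.7323 2.5117 2.8428 3.0913 0.004332 0.04377 0.009663 0.00002156 0.002239 0.0000003101 0.0000003101 0.0000003101 2.1927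
    hβ hN hx1 hx2 hy1 hy2 (by norm_num) (by norm_num) (by linarith) (by norm_num) (by norm_num) (by norm_num) (by norm_num) (by norm_num) (by norm_num) (by norm_num) (by norm_num) (by norm_num) (by norm_num) (by norm_num) (by norm_num) (by norm_num) (by norm_num) (by norm_num) (by norm_num) (by norm_num) (by norm_num) (by norm_num) (by norm_num) (by norm_num)
    (cube_sqrt_geJ (s := 0.7583) (by norm_num) (by norm_num) (by norm_num) (by norm_num))
    (cube_sqrt_geJ (s := 0.9186) (by norm_num) (by norm_num) (by norm_num) (by norm_num))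
    (by norm_num) (by norm_num) (by norm_num) (by norm_num) (by norm_num) (by norm_num) (by norm_num) (by norm_num) (by norm_num) (by norm_num) (by norm_num) (by norm_num) (by norm_num) (by norm_num) (by norm_num) (by norm_num) (by norm_num) (by norm_num)
    (exp_neg_leJ (r := 0.442) 5 (by norm_num) (by norm_num) (by norm_num) (by norm_num))
    (exp_neg_leJ (r := 0.129) 3 (by norm_num) (by norm_num) (by norm_num) (by norm_num))
    (exp_neg_leJ (r := 0.64) 4 (by norm_num) (by norm_num) (by norm_num) (by norm_num))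
    (exp_neg_leJ (r := 0.746) 10 (by norm_num) (by norm_num) (by norm_num) (by norm_num))
    (exp_neg_leJ (r := 0.102) 6 (by norm_num) (by norm_num) (by norm_num) (by norm_num))
    (exp_neg_leJ (r := 0.99) 14 (by norm_num) (by norm_num) (by norm_num) (by norm_num))
    (exp_neg_leJ (r := 0.99) 14 (by norm_num) (by norm_num) (by norm_num) (by norm_num))
    (exp_neg_leJ (r := 0.99) 14 (by norm_num) (by norm_num) (by norm_num) (by norm_num))
    (by norm_num)) (by norm_num) hN hβ.le (by norm_num)

private theorem dl15_b0_1 {β x y : ℝ} (hβ : 0 < β) (hN : β * 8.333 ≤ 1) (hx1 : 1.5529 ≤ x) (hx2 : x ≤ 1.6829)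
    (hy1 : -0.601 ≤ y) (hy2 : y ≤ -0.541) : ‖HH β (x + y * I) - 1‖ ≤ 0.264 := by
  refine le_epsJ (C := 2.1937) (N0 := 8.333) (J_boxp 1.5529 1.6829 0.601 0 (-0.541) 1.3767 1.787 1.7444 0.8177 0.527 2.8867 8.333 1.2981 7.273 1.833 0.218 0.6883 0.3905 0.5911 1.2167 0.7809 2.6501 3.0428 2.9602 0.003235 0.03863 0.007282 0.00003955 0.001494 0.0000003101 0.0000003101 0.0000003101 2.1937
    hβ hN hx1 hx2 hy1 hy2 (by norm_num) (by norm_num) (by linarith) (by norm_num) (by norm_num) (by norm_num) (by norm_num) (by norm_num) (by norm_num) (by norm_num) (by norm_num) (by norm_num) (by norm_num) (by norm_num) (by norm_num) (by norm_num) (by norm_num) (by norm_num) (by norm_num) (by norm_num) (by norm_num) (by norm_num) (by norm_num) (by norm_num)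
    (cube_sqrt_geJ (s := 0.7531) (by norm_num) (by norm_num) (by norm_num) (by norm_num))
    (cube_sqrt_geJ (s := 0.917) (by norm_num) (by norm_num) (by norm_num) (by norm_num))
    (by norm_num) (by norm_num) (by norm_num) (by norm_num) (by norm_num) (by norm_num) (by norm_num) (by norm_num) (by norm_num) (by norm_num) (by norm_num) (by norm_num) (by norm_num) (by norm_num) (by norm_num) (by norm_num) (by norm_num) (by norm_num)
    (exp_neg_leJ (r := 0.735) 5 (by norm_num) (by norm_num) (by norm_num) (by norm_num))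
    (exp_neg_leJ (r := 0.254) 3 (by norm_num) (by norm_num) (by norm_num) (by norm_num))
    (exp_neg_leJ (r := 0.925) 4 (by norm_num) (by norm_num) (by norm_num) (by norm_num))
    (exp_neg_leJ (r := 0.138) 10 (by norm_num) (by norm_num) (by norm_num) (by norm_num))
    (exp_neg_leJ (r := 0.507) 6 (by norm_num) (by norm_num) (by norm_num) (by norm_num))
    (exp_neg_leJ (r := 0.99) 14 (by norm_num) (by norm_num) (by norm_num) (by norm_num))
    (exp_neg_leJ (r := 0.99) 14 (by norm_num) (by norm_num) (by norm_num) (by norm_num))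
    (exp_neg_leJ (r := 0.99) 14 (by norm_num) (by norm_num) (by norm_num) (by norm_num))
    (by norm_num)) (by norm_num) hN hβ.le (by norm_num)

private theorem dl15_b0_2 {β x y : ℝ} (hβ : 0 < β) (hN : β * 8.333 ≤ 1) (hx1 : 1.6829 ≤ x) (hx2 : x ≤ 1.8429)
    (hy1 : -0.601 ≤ y) (hy2 : y ≤ -0.541) : ‖HH β (x + y * I) - 1‖ ≤ 0.264 := by
  refine le_epsJ (C := 2.1613) (N0 := 8.333) (J_boxp 1.6829 1.8429 0.601 0 (-0.541) 1.4683 1.9385 1.8993 0.7746 0.5499 2.8867 8.333 1.3203 7.615 1.854 0.1565 0.7341 0.411 0.6356 1.1265 0.8441 2.8301 3.3028 2.8084 0.002206 0.03259 0.005012 0.00008382 0.0008823 0.0000003101 0.0000003101 0.0000003101 2.1613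
    hβ hN hx1 hx2 hy1 hy2 (by norm_num) (by norm_num) (by linarith) (by norm_num) (by norm_num) (by norm_num) (by norm_num) (by norm_num) (by norm_num) (by norm_num) (by norm_num) (by norm_num) (by norm_num) (by norm_num) (by norm_num) (by norm_num) (by norm_num) (by norm_num) (by norm_num) (by norm_num) (by norm_num) (by norm_num) (by norm_num) (by norm_num)
    (cube_sqrt_geJ (s := 0.7482) (by norm_num) (by norm_num) (by norm_num) (by norm_num))
    (cube_sqrt_geJ (s := 0.9156) (by norm_num) (by norm_num) (by norm_num) (by norm_num))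
    (by norm_num) (by norm_num) (by norm_num) (by norm_num) (by norm_num) (by norm_num) (by norm_num) (by norm_num) (by norm_num) (by norm_num) (by norm_num) (by norm_num) (by norm_num) (by norm_num) (by norm_num) (by norm_num) (by norm_num) (by norm_num)
    (exp_neg_leJ (r := 0.117) 6 (by norm_num) (by norm_num) (by norm_num) (by norm_num))
    (exp_neg_leJ (r := 0.424) 3 (by norm_num) (by norm_num) (by norm_num) (by norm_num))
    (exp_neg_leJ (r := 0.296) 5 (by norm_num) (by norm_num) (by norm_num) (by norm_num))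
    (exp_neg_leJ (r := 0.387) 9 (by norm_num) (by norm_num) (by norm_num) (by norm_num))
    (exp_neg_leJ (r := 0.033) 7 (by norm_num) (by norm_num) (by norm_num) (by norm_num))
    (exp_neg_leJ (r := 0.99) 14 (by norm_num) (by norm_num) (by norm_num) (by norm_num))
    (exp_neg_leJ (r := 0.99) 14 (by norm_num) (by norm_num) (by norm_num) (by norm_num))
    (exp_neg_leJ (r := 0.99) 14 (by norm_num) (by norm_num) (by norm_num) (by norm_num))
    (by norm_num)) (by norm_num) hN hβ.le (by norm_num)

private theorem dl15_b0_3 {β x y : ℝ} (hβ : 0 < β) (hN : β * 8.333 ≤ 1) (hx1 : 1.8429 ≤ x) (hx2 : x ≤ 1.9862)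
    (hy1 : -0.601 ≤ y) (hy2 : y ≤ -0.541) : ‖HH β (x + y * I) - 1‖ ≤ 0.264 := by
  refine le_epsJ (C := 1.9251) (N0 := 8.333) (J_boxp 1.8429 1.9862 0.601 0 (-0.541) 1.5809 2.0752 2.0386 0.7184 0.5697 2.8867 8.333 1.3127 7.496 1.847 0.1014 0.7904 0.4445 0.6904 1.0454 0.9218 3.0517 3.6228 2.7568 0.001381 0.02465 0.003177 0.000165 0.0004619 0.0000003101 0.0000003101 0.0000003101 1.9251
    hβ hN hx1 hx2 hy1 hy2 (by norm_num) (by norm_num) (by linarith) (by norm_num) (by norm_num) (by norm_num) (by norm_num) (by norm_num) (by norm_num) (by norm_num) (by norm_num) (by norm_num) (by norm_num) (by norm_num) (by norm_num) (by norm_num) (by norm_num) (by norm_num) (by norm_num) (by norm_num) (by norm_num) (by norm_num) (by norm_num) (by norm_num)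
    (cube_sqrt_geJ (s := 0.7499) (by norm_num) (by norm_num) (by norm_num) (by norm_num))
    (cube_sqrt_geJ (s := 0.9161) (by norm_num) (by norm_num) (by norm_num) (by norm_num))
    (by norm_num) (by norm_num) (by norm_num) (by norm_num) (by norm_num) (by norm_num) (by norm_num) (by norm_num) (by norm_num) (by norm_num) (by norm_num) (by norm_num) (by norm_num) (by norm_num) (by norm_num) (by norm_num) (by norm_num) (by norm_num)
    (exp_neg_leJ (r := 0.586) 6 (by norm_num) (by norm_num) (by norm_num) (by norm_num))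
    (exp_neg_leJ (r := 0.704) 3 (by norm_num) (by norm_num) (by norm_num) (by norm_num))
    (exp_neg_leJ (r := 0.753) 5 (by norm_num) (by norm_num) (by norm_num) (by norm_num))
    (exp_neg_leJ (r := 0.711) 8 (by norm_num) (by norm_num) (by norm_num) (by norm_num))
    (exp_neg_leJ (r := 0.681) 7 (by norm_num) (by norm_num) (by norm_num) (by norm_num))
    (exp_neg_leJ (r := 0.99) 14 (by norm_num) (by norm_num) (by norm_num) (by norm_num))
    (exp_neg_leJ (r := 0.99) 14 (by norm_num) (by norm_num) (by norm_num) (by norm_num))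
    (exp_neg_leJ (r := 0.99) 14 (by norm_num) (by norm_num) (by norm_num) (by norm_num))
    (by norm_num)) (by norm_num) hN hβ.le (by norm_num)

private theorem dl15_b1_0 {β x y : ℝ} (hβ : 0 < β) (hN : β * 8.333 ≤ 1) (hx1 : 1.2627 ≤ x) (hx2 : x ≤ 1.3827)
    (hy1 : -0.541 ≤ y) (hy2 : y ≤ -0.12) : ‖HH β (x + y * I) - 1‖ ≤ 0.264 := by
  refine le_epsJ (C := 2.1887) (N0 := 8.333) (J_boxp 1.2627 1.3827 0.541 0 (-0.12) 1.215 1.4848 1.639 0.956 0.5108 2.8867 8.333 1.2221 6.242 1.764 0.3889 0.6074 0.36 0.5865 1.5791 0.6727 2.2483 2.6254 3.2013 0.00634 0.05047 0.007561 0.000001931 0.003681 0.0000003101 0.0000003101 0.0000003101 2.1887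
    hβ hN hx1 hx2 hy1 hy2 (by norm_num) (by norm_num) (by linarith) (by norm_num) (by norm_num) (by norm_num) (by norm_num) (by norm_num) (by norm_num) (by norm_num) (by norm_num) (by norm_num) (by norm_num) (by norm_num) (by norm_num) (by norm_num) (by norm_num) (by norm_num) (by norm_num) (by norm_num) (by norm_num) (by norm_num) (by norm_num) (by norm_num)
    (cube_sqrt_geJ (s := 0.7698) (by norm_num) (by norm_num) (by norm_num) (by norm_num))
    (cube_sqrt_geJ (s := 0.9221) (by norm_num) (by norm_num) (by norm_num) (by norm_num))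
    (by norm_num) (by norm_num) (by norm_num) (by norm_num) (by norm_num) (by norm_num) (by norm_num) (by norm_num) (by norm_num) (by norm_num) (by norm_num) (by norm_num) (by norm_num) (by norm_num) (by norm_num) (by norm_num) (by norm_num) (by norm_num)
    (exp_neg_leJ (r := 0.061) 5 (by norm_num) (by norm_num) (by norm_num) (by norm_num))
    (exp_neg_leJ (r := 0.99) 2 (by norm_num) (by norm_num) (by norm_num) (by norm_num))
    (exp_neg_leJ (r := 0.887) 4 (by norm_num) (by norm_num) (by norm_num) (by norm_num))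
    (exp_neg_leJ (r := 0.158) 13 (by norm_num) (by norm_num) (by norm_num) (by norm_num))
    (exp_neg_leJ (r := 0.605) 5 (by norm_num) (by norm_num) (by norm_num) (by norm_num))
    (exp_neg_leJ (r := 0.99) 14 (by norm_num) (by norm_num) (by norm_num) (by norm_num))
    (exp_neg_leJ (r := 0.99) 14 (by norm_num) (by norm_num) (by norm_num) (by norm_num))
    (exp_neg_leJ (r := 0.99) 14 (by norm_num) (by norm_num) (by norm_num) (by norm_num))
    (by norm_num)) (by norm_num) hN hβ.le (by norm_num)

private theorem dl15_b1_1 {β x y : ℝ} (hβ : 0 < β) (hN : β * 8.333 ≤ 1) (hx1 : 1.3827 ≤ x) (hx2 : x ≤ 1.5427)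
    (hy1 : -0.541 ≤ y) (hy2 : y ≤ -0.12) : ‖HH β (x + y * I) - 1‖ ≤ 0.264 := by
  refine le_epsJ (C := 2.1911) (N0 := 8.333) (J_boxp 1.3827 1.5427 0.541 0 (-0.12) 1.2995 1.6349 1.7761 0.8997 0.5317 2.8867 8.333 1.2581 6.705 1.797 0.3273 0.6497 0.3772 0.6276 1.4893 0.731 2.4145 2.8654 3.0333 0.004459 0.04316 0.005359 0.000004078 0.002264 0.0000003101 0.0000003101 0.0000003101 2.1911
    hβ hN hx1 hx2 hy1 hy2 (by norm_num) (by norm_num) (by linarith) (by norm_num) (by norm_num) (by norm_num) (by norm_num) (by norm_num) (by norm_num) (by norm_num) (by norm_num) (by norm_num) (by norm_num) (by norm_num) (by norm_num) (by norm_num) (by norm_num) (by norm_num) (by norm_num) (by norm_num) (by norm_num) (by norm_num) (by norm_num) (by norm_num)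
    (cube_sqrt_geJ (s := 0.7619) (by norm_num) (by norm_num) (by norm_num) (by norm_num))
    (cube_sqrt_geJ (s := 0.9197) (by norm_num) (by norm_num) (by norm_num) (by norm_num))
    (by norm_num) (by norm_num) (by norm_num) (by norm_num) (by norm_num) (by norm_num) (by norm_num) (by norm_num) (by norm_num) (by norm_num) (by norm_num) (by norm_num) (by norm_num) (by norm_num) (by norm_num) (by norm_num) (by norm_num) (by norm_num)
    (exp_neg_leJ (r := 0.413) 5 (by norm_num) (by norm_num) (by norm_num) (by norm_num))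
    (exp_neg_leJ (r := 0.143) 3 (by norm_num) (by norm_num) (by norm_num) (by norm_num))
    (exp_neg_leJ (r := 0.229) 5 (by norm_num) (by norm_num) (by norm_num) (by norm_num))
    (exp_neg_leJ (r := 0.41) 12 (by norm_num) (by norm_num) (by norm_num) (by norm_num))
    (exp_neg_leJ (r := 0.091) 6 (by norm_num) (by norm_num) (by norm_num) (by norm_num))
    (exp_neg_leJ (r := 0.99) 14 (by norm_num) (by norm_num) (by norm_num) (by norm_num))
    (exp_neg_leJ (r := 0.99) 14 (by norm_num) (by norm_num) (by norm_num) (by norm_num))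
    (exp_neg_leJ (r := 0.99) 14 (by norm_num) (by norm_num) (by norm_num) (by norm_num))
    (by norm_num)) (by norm_num) hN hβ.le (by norm_num)

private theorem dl15_b1_2 {β x y : ℝ} (hβ : 0 < β) (hN : β * 8.333 ≤ 1) (hx1 : 1.5427 ≤ x) (hx2 : x ≤ 1.7527)
    (hy1 : -0.541 ≤ y) (hy2 : y ≤ -0.12) : ‖HH β (x + y * I) - 1‖ ≤ 0.264 := by
  refine le_epsJ (C := 2.196) (N0 := 8.333) (J_boxp 1.5427 1.7527 0.541 0 (-0.12) 1.4121 1.8343 1.9613 0.8346 0.5588 2.8867 8.333 1.299 7.287 1.834 0.2466 0.706 0.4003 0.6824 1.3707 0.8087 2.636 3.1854 2.8113 0.002793 0.03562 0.003396 0.00001096 0.001187 0.0000003101 0.0000003101 0.0000003101 2.196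
    hβ hN hx1 hx2 hy1 hy2 (by norm_num) (by norm_num) (by linarith) (by norm_num) (by norm_num) (by norm_num) (by norm_num) (by norm_num) (by norm_num) (by norm_num) (by norm_num) (by norm_num) (by norm_num) (by norm_num) (by norm_num) (by norm_num) (by norm_num) (by norm_num) (by norm_num) (by norm_num) (by norm_num) (by norm_num) (by norm_num) (by norm_num)
    (cube_sqrt_geJ (s := 0.7529) (by norm_num) (by norm_num) (by norm_num) (by norm_num))
    (cube_sqrt_geJ (s := 0.917) (by norm_num) (by norm_num) (by norm_num) (by norm_num))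
    (by norm_num) (by norm_num) (by norm_num) (by norm_num) (by norm_num) (by norm_num) (by norm_num) (by norm_num) (by norm_num) (by norm_num) (by norm_num) (by norm_num) (by norm_num) (by norm_num) (by norm_num) (by norm_num) (by norm_num) (by norm_num)
    (exp_neg_leJ (r := 0.883) 5 (by norm_num) (by norm_num) (by norm_num) (by norm_num))
    (exp_neg_leJ (r := 0.335) 3 (by norm_num) (by norm_num) (by norm_num) (by norm_num))
    (exp_neg_leJ (r := 0.686) 5 (by norm_num) (by norm_num) (by norm_num) (by norm_num))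
    (exp_neg_leJ (r := 0.422) 11 (by norm_num) (by norm_num) (by norm_num) (by norm_num))
    (exp_neg_leJ (r := 0.738) 6 (by norm_num) (by norm_num) (by norm_num) (by norm_num))
    (exp_neg_leJ (r := 0.99) 14 (by norm_num) (by norm_num) (by norm_num) (by norm_num))
    (exp_neg_leJ (r := 0.99) 14 (by norm_num) (by norm_num) (by norm_num) (by norm_num))
    (exp_neg_leJ (r := 0.99) 14 (by norm_num) (by norm_num) (by norm_num) (by norm_num))
    (by norm_num)) (by norm_num) hN hβ.le (by norm_num)

private theorem dl15_b1_3 {β x y : ℝ} (hβ : 0 < β) (hN : β * 8.333 ≤ 1) (hx1 : 1.7527 ≤ x) (hx2 : x ≤ 1.9862)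
    (hy1 : -0.541 ≤ y) (hy2 : y ≤ -0.12) : ‖HH β (x + y * I) - 1‖ ≤ 0.264 := by
  refine le_epsJ (C := 2.0396) (N0 := 8.333) (J_boxp 1.7527 1.9862 0.541 0 (-0.12) 1.56 2.0586 2.1725 0.7565 0.5881 2.8867 8.333 1.3197 7.606 1.854 0.1568 0.7799 0.4368 0.7542 1.2382 0.9107 2.9268 3.6054 2.6216 0.001507 0.0263 0.001866 0.00003307 0.0005067 0.0000003101 0.0000003101 0.0000003101 2.0396
    hβ hN hx1 hx2 hy1 hy2 (by norm_num) (by norm_num) (by linarith) (by norm_num) (by norm_num) (by norm_num) (by norm_num) (by norm_num) (by norm_num) (by norm_num) (by norm_num) (by norm_num) (by norm_num) (by norm_num) (by norm_num) (by norm_num) (by norm_num) (by norm_num) (by norm_num) (by norm_num) (by norm_num) (by norm_num) (by norm_num) (by norm_num)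
    (cube_sqrt_geJ (s := 0.7483) (by norm_num) (by norm_num) (by norm_num) (by norm_num))
    (cube_sqrt_geJ (s := 0.9156) (by norm_num) (by norm_num) (by norm_num) (by norm_num))
    (by norm_num) (by norm_num) (by norm_num) (by norm_num) (by norm_num) (by norm_num) (by norm_num) (by norm_num) (by norm_num) (by norm_num) (by norm_num) (by norm_num) (by norm_num) (by norm_num) (by norm_num) (by norm_num) (by norm_num) (by norm_num)
    (exp_neg_leJ (r := 0.498) 6 (by norm_num) (by norm_num) (by norm_num) (by norm_num))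
    (exp_neg_leJ (r := 0.639) 3 (by norm_num) (by norm_num) (by norm_num) (by norm_num))
    (exp_neg_leJ (r := 0.284) 6 (by norm_num) (by norm_num) (by norm_num) (by norm_num))
    (exp_neg_leJ (r := 0.317) 10 (by norm_num) (by norm_num) (by norm_num) (by norm_num))
    (exp_neg_leJ (r := 0.588) 7 (by norm_num) (by norm_num) (by norm_num) (by norm_num))
    (exp_neg_leJ (r := 0.99) 14 (by norm_num) (by norm_num) (by norm_num) (by norm_num))
    (exp_neg_leJ (r := 0.99) 14 (by norm_num) (by norm_num) (by norm_num) (by norm_num))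
    (exp_neg_leJ (r := 0.99) 14 (by norm_num) (by norm_num) (by norm_num) (by norm_num))
    (by norm_num)) (by norm_num) hN hβ.le (by norm_num)

theorem dl15 {κ t β : ℝ} (h : DomR κ t) (hβ : 0 < β) (hk1 : 1.1 ≤ κ) (hk2 : κ ≤ 1.2)
    (ht1 : -0.8483 ≤ t + κ) (ht2 : t + κ ≤ -0.5026) (hR0 : β * 10 ≤ κ) :
    ∀ s : ℂ, ‖s - sg κ t‖ ≤ 0.14 → ‖HH β s - 1‖ ≤ 0.264 := by
  have hN : β * 8.333 ≤ 1 := bNR hβ h.1 hk2 hR0 (by norm_num)
  have hy1 : -0.461 ≤ sy κ t := syL_ge h 1.1 1.2 0.8483 0.461 0.63065 0.63066 0.2514 0.24227 0.26431 hk1 hk2 (by linarith) (by norm_num) (by norm_num) (by norm_num)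
    (expm_ge (by norm_num) (by norm_num) (by norm_num) (by norm_num)) (expm_le (by norm_num) (by norm_num) (by norm_num)) (by norm_num)
    (by norm_num) (by norm_num) (by norm_num) (by norm_num) (by norm_num) (by norm_num)
  have hy2 : sy κ t ≤ -0.26 := syL_le h 1.1 1.2 0.5026 0.26 0.77105 0.77106 0.16706 0.18226 hk1 hk2 (by linarith) (by norm_num) (by norm_num) (by norm_num)
    (expm_ge (by norm_num) (by norm_num) (by norm_num) (by norm_num)) (expm_le (by norm_num) (by norm_num) (by norm_num)) (by norm_num)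
    (by norm_num) (by norm_num) (by norm_num) (by norm_num) (by norm_num) (by norm_num)
  intro s hs
  have hs' : ‖s - ((sx κ t : ℂ) + (sy κ t : ℂ) * I)‖ ≤ 0.14 := hs
  obtain ⟨es, ⟨s1, s2⟩, ⟨s3, s4⟩⟩ := disc_split hs'
  rcases le_total s.im (-0.541) with f0 | g0
  · have hx1 : 1.5929 ≤ sx κ t := sxm_lo h 1.1 (-0.401) 1.49331 1.5929 (-0.461) hk1 (by linarith) (by linarith) (by rw [neg_neg]; exact expn_ge (by norm_num) (by norm_num)) (by norm_num) (by norm_num) (by norm_num) (by norm_num)
    have hx2 : sx κ t ≤ 1.8462 := sxm_hi h 1.1 1.2 (-0.461) 1.58566 1.8462 hk1 hk2 (by linarith) (Or.inr ⟨by linarith, by norm_num⟩) (by rw [neg_neg]; exact expn_le (by norm_num) (by norm_num) (by norm_num)) (by norm_num) (by norm_num) (by norm_num)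
    rw [es]
    rcases le_total s.re 1.5529 with d0 | e0
    · exact dl15_b0_0 hβ hN (by linarith) (by linarith) (by linarith) (by linarith)
    rcases le_total s.re 1.6829 with d1 | e1
    · exact dl15_b0_1 hβ hN (by linarith) (by linarith) (by linarith) (by linarith)
    rcases le_total s.re 1.8429 with d2 | e2
    · exact dl15_b0_2 hβ hN (by linarith) (by linarith) (by linarith) (by linarith)
    exact dl15_b0_3 hβ hN (by linarith) (by linarith) (by linarith) (by linarith)
  have hx1 : 1.4027 ≤ sx κ t := sxm_lo h 1.1 (-0.26) 1.29693 1.4027 (-0.461) hk1 (by linarith) (by linarith) (by rw [neg_neg]; exact expn_ge (by norm_num) (by norm_num)) (by norm_num) (by norm_num) (by norm_num) (by norm_num)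
  have hx2 : sx κ t ≤ 1.8462 := sxm_hi h 1.1 1.2 (-0.461) 1.58566 1.8462 hk1 hk2 (by linarith) (Or.inr ⟨by linarith, by norm_num⟩) (by rw [neg_neg]; exact expn_le (by norm_num) (by norm_num) (by norm_num)) (by norm_num) (by norm_num) (by norm_num)
  rw [es]
  rcases le_total s.re 1.3827 with d0 | e0
  · exact dl15_b1_0 hβ hN (by linarith) (by linarith) (by linarith) (by linarith)
  rcases le_total s.re 1.5427 with d1 | e1
  · exact dl15_b1_1 hβ hN (by linarith) (by linarith) (by linarith) (by linarith)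
  rcases le_total s.re 1.7527 with d2 | e2
  · exact dl15_b1_2 hβ hN (by linarith) (by linarith) (by linarith) (by linarith)
  exact dl15_b1_3 hβ hN (by linarith) (by linarith) (by linarith) (by linarith)

private theorem dl16_b0_0 {β x y : ℝ} (hβ : 0 < β) (hN : β * 7.692 ≤ 1) (hx1 : 1.573 ≤ x) (hx2 : x ≤ 1.673)
    (hy1 : -0.58 ≤ y) (hy2 : y ≤ -0.52) : ‖HH β (x + y * I) - 1‖ ≤ 0.26 := by
  refine le_epsJ (C := 1.9599) (N0 := 7.692) (J_boxp 1.573 1.673 0.58 0 (-0.52) 1.4058 1.7707 1.7405 0.7916 0.5264 2.7735 7.692 1.2596 6.725 1.798 0.2412 0.7028 0.4077 0.6312 1.29 0.8022 2.6779 3.14 3.0448 0.004495 0.04346 0.007805 0.00004922 0.002092 0.0000003101 0.0000003101 0.0000003101 1.9599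
    hβ hN hx1 hx2 hy1 hy2 (by norm_num) (by norm_num) (by linarith) (by norm_num) (by norm_num) (by norm_num) (by norm_num) (by norm_num) (by norm_num) (by norm_num) (by norm_num) (by norm_num) (by norm_num) (by norm_num) (by norm_num) (by norm_num) (by norm_num) (by norm_num) (by norm_num) (by norm_num) (by norm_num) (by norm_num) (by norm_num) (by norm_num)
    (cube_sqrt_geJ (s := 0.7616) (by norm_num) (by norm_num) (by norm_num) (by norm_num))
    (cube_sqrt_geJ (s := 0.9196) (by norm_num) (by norm_num) (by norm_num) (by norm_num))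
    (by norm_num) (by norm_num) (by norm_num) (by norm_num) (by norm_num) (by norm_num) (by norm_num) (by norm_num) (by norm_num) (by norm_num) (by norm_num) (by norm_num) (by norm_num) (by norm_num) (by norm_num) (by norm_num) (by norm_num) (by norm_num)
    (exp_neg_leJ (r := 0.405) 5 (by norm_num) (by norm_num) (by norm_num) (by norm_num))
    (exp_neg_leJ (r := 0.136) 3 (by norm_num) (by norm_num) (by norm_num) (by norm_num))
    (exp_neg_leJ (r := 0.855) 4 (by norm_num) (by norm_num) (by norm_num) (by norm_num))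
    (exp_neg_leJ (r := 0.922) 9 (by norm_num) (by norm_num) (by norm_num) (by norm_num))
    (exp_neg_leJ (r := 0.17) 6 (by norm_num) (by norm_num) (by norm_num) (by norm_num))
    (exp_neg_leJ (r := 0.99) 14 (by norm_num) (by norm_num) (by norm_num) (by norm_num))
    (exp_neg_leJ (r := 0.99) 14 (by norm_num) (by norm_num) (by norm_num) (by norm_num))
    (exp_neg_leJ (r := 0.99) 14 (by norm_num) (by norm_num) (by norm_num) (by norm_num))
    (by norm_num)) (by norm_num) hN hβ.le (by norm_num)

private theorem dl16_b0_1 {β x y : ℝ} (hβ : 0 < β) (hN : β * 7.692 ≤ 1) (hx1 : 1.673 ≤ x) (hx2 : x ≤ 1.803)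
    (hy1 : -0.58 ≤ y) (hy2 : y ≤ -0.52) : ‖HH β (x + y * I) - 1‖ ≤ 0.26 := by
  refine le_epsJ (C := 1.971) (N0 := 7.692) (J_boxp 1.673 1.803 0.58 0 (-0.52) 1.4762 1.894 1.8658 0.7616 0.545 2.7735 7.692 1.2831 7.053 1.82 0.1912 0.738 0.4224 0.6654 1.2167 0.8507 2.8164 3.34 2.9096 0.00343 0.03882 0.005989 0.00008628 0.001441 0.0000003101 0.0000003101 0.0000003101 1.971
    hβ hN hx1 hx2 hy1 hy2 (by norm_num) (by norm_num) (by linarith) (by norm_num) (by norm_num) (by norm_num) (by norm_num) (by norm_num) (by norm_num) (by norm_num) (by norm_num) (by norm_num) (by norm_num) (by norm_num) (by norm_num) (by norm_num) (by norm_num) (by norm_num) (by norm_num) (by norm_num) (by norm_num) (by norm_num) (by norm_num) (by norm_num)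
    (cube_sqrt_geJ (s := 0.7565) (by norm_num) (by norm_num) (by norm_num) (by norm_num))
    (cube_sqrt_geJ (s := 0.918) (by norm_num) (by norm_num) (by norm_num) (by norm_num))
    (by norm_num) (by norm_num) (by norm_num) (by norm_num) (by norm_num) (by norm_num) (by norm_num) (by norm_num) (by norm_num) (by norm_num) (by norm_num) (by norm_num) (by norm_num) (by norm_num) (by norm_num) (by norm_num) (by norm_num) (by norm_num)
    (exp_neg_leJ (r := 0.676) 5 (by norm_num) (by norm_num) (by norm_num) (by norm_num))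
    (exp_neg_leJ (r := 0.249) 3 (by norm_num) (by norm_num) (by norm_num) (by norm_num))
    (exp_neg_leJ (r := 0.118) 5 (by norm_num) (by norm_num) (by norm_num) (by norm_num))
    (exp_neg_leJ (r := 0.358) 9 (by norm_num) (by norm_num) (by norm_num) (by norm_num))
    (exp_neg_leJ (r := 0.543) 6 (by norm_num) (by norm_num) (by norm_num) (by norm_num))
    (exp_neg_leJ (r := 0.99) 14 (by norm_num) (by norm_num) (by norm_num) (by norm_num))
    (exp_neg_leJ (r := 0.99) 14 (by norm_num) (by norm_num) (by norm_num) (by norm_num))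
    (exp_neg_leJ (r := 0.99) 14 (by norm_num) (by norm_num) (by norm_num) (by norm_num))
    (by norm_num)) (by norm_num) hN hβ.le (by norm_num)

private theorem dl16_b0_2 {β x y : ℝ} (hβ : 0 < β) (hN : β * 7.692 ≤ 1) (hx1 : 1.803 ≤ x) (hx2 : x ≤ 1.973)
    (hy1 : -0.58 ≤ y) (hy2 : y ≤ -0.52) : ‖HH β (x + y * I) - 1‖ ≤ 0.26 := by
  refine le_epsJ (C := 1.9946) (N0 := 7.692) (J_boxp 1.803 1.973 0.58 0 (-0.52) 1.5677 2.0565 2.0306 0.726 0.5685 2.7735 7.692 1.3118 7.482 1.846 0.1258 0.7838 0.441 0.7099 1.1204 0.9139 2.9964 3.6 2.7279 0.002411 0.03365 0.004255 0.000181 0.0008859 0.0000003101 0.0000003101 0.0000003101 1.9946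
    hβ hN hx1 hx2 hy1 hy2 (by norm_num) (by norm_num) (by linarith) (by norm_num) (by norm_num) (by norm_num) (by norm_num) (by norm_num) (by norm_num) (by norm_num) (by norm_num) (by norm_num) (by norm_num) (by norm_num) (by norm_num) (by norm_num) (by norm_num) (by norm_num) (by norm_num) (by norm_num) (by norm_num) (by norm_num) (by norm_num) (by norm_num)
    (cube_sqrt_geJ (s := 0.7501) (by norm_num) (by norm_num) (by norm_num) (by norm_num))
    (cube_sqrt_geJ (s := 0.9161) (by norm_num) (by norm_num) (by norm_num) (by norm_num))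
    (by norm_num) (by norm_num) (by norm_num) (by norm_num) (by norm_num) (by norm_num) (by norm_num) (by norm_num) (by norm_num) (by norm_num) (by norm_num) (by norm_num) (by norm_num) (by norm_num) (by norm_num) (by norm_num) (by norm_num) (by norm_num)
    (exp_neg_leJ (r := 0.028) 6 (by norm_num) (by norm_num) (by norm_num) (by norm_num))
    (exp_neg_leJ (r := 0.392) 3 (by norm_num) (by norm_num) (by norm_num) (by norm_num))
    (exp_neg_leJ (r := 0.46) 5 (by norm_num) (by norm_num) (by norm_num) (by norm_num))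
    (exp_neg_leJ (r := 0.618) 8 (by norm_num) (by norm_num) (by norm_num) (by norm_num))
    (exp_neg_leJ (r := 0.029) 7 (by norm_num) (by norm_num) (by norm_num) (by norm_num))
    (exp_neg_leJ (r := 0.99) 14 (by norm_num) (by norm_num) (by norm_num) (by norm_num))
    (exp_neg_leJ (r := 0.99) 14 (by norm_num) (by norm_num) (by norm_num) (by norm_num))
    (exp_neg_leJ (r := 0.99) 14 (by norm_num) (by norm_num) (by norm_num) (by norm_num))
    (by norm_num)) (by norm_num) hN hβ.le (by norm_num)

private theorem dl16_b0_3 {β x y : ℝ} (hβ : 0 < β) (hN : β * 7.692 ≤ 1) (hx1 : 1.973 ≤ x) (hx2 : x ≤ 2.11)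
    (hy1 : -0.58 ≤ y) (hy2 : y ≤ -0.52) : ‖HH β (x + y * I) - 1‖ ≤ 0.26 := by
  refine le_epsJ (C := 1.7445) (N0 := 7.692) (J_boxp 1.973 2.11 0.58 0 (-0.52) 1.6874 2.1883 2.164 0.6712 0.5869 2.7735 7.692 1.2969 7.255 1.832 0.0731 0.8436 0.4789 0.7681 1.0426 0.9964 3.2318 3.94 2.7096 0.001522 0.02517 0.002725 0.0003292 0.0004698 0.0000003101 0.0000003101 0.0000003101 1.7445
    hβ hN hx1 hx2 hy1 hy2 (by norm_num) (by norm_num) (by linarith) (by norm_num) (by norm_num) (by norm_num) (by norm_num) (by norm_num) (by norm_num) (by norm_num) (by norm_num) (by norm_num) (by norm_num) (by norm_num) (by norm_num) (by norm_num) (by norm_num) (by norm_num) (by norm_num) (by norm_num) (by norm_num) (by norm_num) (by norm_num) (by norm_num)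
    (cube_sqrt_geJ (s := 0.7534) (by norm_num) (by norm_num) (by norm_num) (by norm_num))
    (cube_sqrt_geJ (s := 0.9171) (by norm_num) (by norm_num) (by norm_num) (by norm_num))
    (by norm_num) (by norm_num) (by norm_num) (by norm_num) (by norm_num) (by norm_num) (by norm_num) (by norm_num) (by norm_num) (by norm_num) (by norm_num) (by norm_num) (by norm_num) (by norm_num) (by norm_num) (by norm_num) (by norm_num) (by norm_num)
    (exp_neg_leJ (r := 0.488) 6 (by norm_num) (by norm_num) (by norm_num) (by norm_num))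
    (exp_neg_leJ (r := 0.683) 3 (by norm_num) (by norm_num) (by norm_num) (by norm_num))
    (exp_neg_leJ (r := 0.908) 5 (by norm_num) (by norm_num) (by norm_num) (by norm_num))
    (exp_neg_leJ (r := 0.019) 8 (by norm_num) (by norm_num) (by norm_num) (by norm_num))
    (exp_neg_leJ (r := 0.664) 7 (by norm_num) (by norm_num) (by norm_num) (by norm_num))
    (exp_neg_leJ (r := 0.99) 14 (by norm_num) (by norm_num) (by norm_num) (by norm_num))
    (exp_neg_leJ (r := 0.99) 14 (by norm_num) (by norm_num) (by norm_num) (by norm_num))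
    (exp_neg_leJ (r := 0.99) 14 (by norm_num) (by norm_num) (by norm_num) (by norm_num))
    (by norm_num)) (by norm_num) hN hβ.le (by norm_num)

private theorem dl16_b1_0 {β x y : ℝ} (hβ : 0 < β) (hN : β * 7.692 ≤ 1) (hx1 : 1.3706 ≤ x) (hx2 : x ≤ 1.5006)
    (hy1 : -0.52 ≤ y) (hy2 : y ≤ -0.103) : ‖HH β (x + y * I) - 1‖ ≤ 0.26 := by
  refine le_epsJ (C := 1.9978) (N0 := 7.692) (J_boxp 1.3706 1.5006 0.52 0 (-0.103) 1.3059 1.5882 1.7483 0.8861 0.5275 2.7735 7.692 1.2162 6.169 1.759 0.3629 0.6529 0.3882 0.6566 1.5808 0.7366 2.3977 2.8983 3.136 0.006592 0.05067 0.00641 0.000005242 0.003468 0.0000003101 0.0000003101 0.0000003101 1.9978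
    hβ hN hx1 hx2 hy1 hy2 (by norm_num) (by norm_num) (by linarith) (by norm_num) (by norm_num) (by norm_num) (by norm_num) (by norm_num) (by norm_num) (by norm_num) (by norm_num) (by norm_num) (by norm_num) (by norm_num) (by norm_num) (by norm_num) (by norm_num) (by norm_num) (by norm_num) (by norm_num) (by norm_num) (by norm_num) (by norm_num) (by norm_num)
    (cube_sqrt_geJ (s := 0.7711) (by norm_num) (by norm_num) (by norm_num) (by norm_num))
    (cube_sqrt_geJ (s := 0.9225) (by norm_num) (by norm_num) (by norm_num) (by norm_num))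
    (by norm_num) (by norm_num) (by norm_num) (by norm_num) (by norm_num) (by norm_num) (by norm_num) (by norm_num) (by norm_num) (by norm_num) (by norm_num) (by norm_num) (by norm_num) (by norm_num) (by norm_num) (by norm_num) (by norm_num) (by norm_num)
    (exp_neg_leJ (r := 0.022) 5 (by norm_num) (by norm_num) (by norm_num) (by norm_num))
    (exp_neg_leJ (r := 0.986) 2 (by norm_num) (by norm_num) (by norm_num) (by norm_num))
    (exp_neg_leJ (r := 0.05) 5 (by norm_num) (by norm_num) (by norm_num) (by norm_num))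
    (exp_neg_leJ (r := 0.159) 12 (by norm_num) (by norm_num) (by norm_num) (by norm_num))
    (exp_neg_leJ (r := 0.665) 5 (by norm_num) (by norm_num) (by norm_num) (by norm_num))
    (exp_neg_leJ (r := 0.99) 14 (by norm_num) (by norm_num) (by norm_num) (by norm_num))
    (exp_neg_leJ (r := 0.99) 14 (by norm_num) (by norm_num) (by norm_num) (by norm_num))
    (exp_neg_leJ (r := 0.99) 14 (by norm_num) (by norm_num) (by norm_num) (by norm_num))
    (by norm_num)) (by norm_num) hN hβ.le (by norm_num)

private theorem dl16_b1_1 {β x y : ℝ} (hβ : 0 < β) (hN : β * 7.692 ≤ 1) (hx1 : 1.5006 ≤ x) (hx2 : x ≤ 1.6606)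
    (hy1 : -0.52 ≤ y) (hy2 : y ≤ -0.103) : ‖HH β (x + y * I) - 1‖ ≤ 0.26 := by
  refine le_epsJ (C := 1.9639) (N0 := 7.692) (J_boxp 1.5006 1.6606 0.52 0 (-0.103) 1.3974 1.7402 1.8874 0.8317 0.5481 2.7735 7.692 1.2454 6.537 1.785 0.3014 0.6986 0.4086 0.7011 1.4904 0.7998 2.5777 3.1583 2.9829 0.004641 0.0432 0.004554 0.00001051 0.00213 0.0000003101 0.0000003101 0.0000003101 1.9639
    hβ hN hx1 hx2 hy1 hy2 (by norm_num) (by norm_num) (by linarith) (by norm_num) (by norm_num) (by norm_num) (by norm_num) (by norm_num) (by norm_num) (by norm_num) (by norm_num) (by norm_num) (by norm_num) (by norm_num) (by norm_num) (by norm_num) (by norm_num) (by norm_num) (by norm_num) (by norm_num) (by norm_num) (by norm_num) (by norm_num) (by norm_num)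
    (cube_sqrt_geJ (s := 0.7647) (by norm_num) (by norm_num) (by norm_num) (by norm_num))
    (cube_sqrt_geJ (s := 0.9206) (by norm_num) (by norm_num) (by norm_num) (by norm_num))
    (by norm_num) (by norm_num) (by norm_num) (by norm_num) (by norm_num) (by norm_num) (by norm_num) (by norm_num) (by norm_num) (by norm_num) (by norm_num) (by norm_num) (by norm_num) (by norm_num) (by norm_num) (by norm_num) (by norm_num) (by norm_num)
    (exp_neg_leJ (r := 0.373) 5 (by norm_num) (by norm_num) (by norm_num) (by norm_num))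
    (exp_neg_leJ (r := 0.142) 3 (by norm_num) (by norm_num) (by norm_num) (by norm_num))
    (exp_neg_leJ (r := 0.392) 5 (by norm_num) (by norm_num) (by norm_num) (by norm_num))
    (exp_neg_leJ (r := 0.464) 11 (by norm_num) (by norm_num) (by norm_num) (by norm_num))
    (exp_neg_leJ (r := 0.152) 6 (by norm_num) (by norm_num) (by norm_num) (by norm_num))
    (exp_neg_leJ (r := 0.99) 14 (by norm_num) (by norm_num) (by norm_num) (by norm_num))
    (exp_neg_leJ (r := 0.99) 14 (by norm_num) (by norm_num) (by norm_num) (by norm_num))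
    (exp_neg_leJ (r := 0.99) 14 (by norm_num) (by norm_num) (by norm_num) (by norm_num))
    (by norm_num)) (by norm_num) hN hβ.le (by norm_num)

private theorem dl16_b1_2 {β x y : ℝ} (hβ : 0 < β) (hN : β * 7.692 ≤ 1) (hx1 : 1.6606 ≤ x) (hx2 : x ≤ 1.8706)
    (hy1 : -0.52 ≤ y) (hy2 : y ≤ -0.103) : ‖HH β (x + y * I) - 1‖ ≤ 0.26 := by
  refine le_epsJ (C := 1.9806) (N0 := 7.692) (J_boxp 1.6606 1.8706 0.52 0 (-0.103) 1.5101 1.9416 2.0746 0.7762 0.5747 2.7735 7.692 1.2858 7.092 1.822 0.2206 0.755 0.4314 0.7559 1.3713 0.8775 2.7992 3.4783 2.7554 0.003011 0.03623 0.002991 0.00002626 0.001174 0.0000003101 0.0000003101 0.0000003101 1.9806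
    hβ hN hx1 hx2 hy1 hy2 (by norm_num) (by norm_num) (by linarith) (by norm_num) (by norm_num) (by norm_num) (by norm_num) (by norm_num) (by norm_num) (by norm_num) (by norm_num) (by norm_num) (by norm_num) (by norm_num) (by norm_num) (by norm_num) (by norm_num) (by norm_num) (by norm_num) (by norm_num) (by norm_num) (by norm_num) (by norm_num) (by norm_num)
    (cube_sqrt_geJ (s := 0.7559) (by norm_num) (by norm_num) (by norm_num) (by norm_num))
    (cube_sqrt_geJ (s := 0.9179) (by norm_num) (by norm_num) (by norm_num) (by norm_num))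
    (by norm_num) (by norm_num) (by norm_num) (by norm_num) (by norm_num) (by norm_num) (by norm_num) (by norm_num) (by norm_num) (by norm_num) (by norm_num) (by norm_num) (by norm_num) (by norm_num) (by norm_num) (by norm_num) (by norm_num) (by norm_num)
    (exp_neg_leJ (r := 0.807) 5 (by norm_num) (by norm_num) (by norm_num) (by norm_num))
    (exp_neg_leJ (r := 0.318) 3 (by norm_num) (by norm_num) (by norm_num) (by norm_num))
    (exp_neg_leJ (r := 0.814) 5 (by norm_num) (by norm_num) (by norm_num) (by norm_num))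
    (exp_neg_leJ (r := 0.548) 10 (by norm_num) (by norm_num) (by norm_num) (by norm_num))
    (exp_neg_leJ (r := 0.749) 6 (by norm_num) (by norm_num) (by norm_num) (by norm_num))
    (exp_neg_leJ (r := 0.99) 14 (by norm_num) (by norm_num) (by norm_num) (by norm_num))
    (exp_neg_leJ (r := 0.99) 14 (by norm_num) (by norm_num) (by norm_num) (by norm_num))
    (exp_neg_leJ (r := 0.99) 14 (by norm_num) (by norm_num) (by norm_num) (by norm_num))
    (by norm_num)) (by norm_num) hN hβ.le (by norm_num)

private theorem dl16_b1_3 {β x y : ℝ} (hβ : 0 < β) (hN : β * 7.692 ≤ 1) (hx1 : 1.8706 ≤ x) (hx2 : x ≤ 2.11)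
    (hy1 : -0.52 ≤ y) (hy2 : y ≤ -0.103) : ‖HH β (x + y * I) - 1‖ ≤ 0.26 := by
  refine le_epsJ (C := 1.881) (N0 := 7.692) (J_boxp 1.8706 2.11 0.52 0 (-0.103) 1.6579 2.1732 2.2928 0.7094 0.6041 2.7735 7.692 1.3109 7.468 1.845 0.1285 0.8289 0.4667 0.8278 1.235 0.9795 3.09 3.8983 2.5458 0.001704 0.02764 0.001718 0.00007495 0.0005348 0.0000003101 0.0000003101 0.0000003101 1.881
    hβ hN hx1 hx2 hy1 hy2 (by norm_num) (by norm_num) (by linarith) (by norm_num) (by norm_num) (by norm_num) (by norm_num) (by norm_num) (by norm_num) (by norm_num) (by norm_num) (by norm_num) (by norm_num) (by norm_num) (by norm_num) (by norm_num) (by norm_num) (by norm_num) (by norm_num) (by norm_num) (by norm_num) (by norm_num) (by norm_num) (by norm_num)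
    (cube_sqrt_geJ (s := 0.7503) (by norm_num) (by norm_num) (by norm_num) (by norm_num))
    (cube_sqrt_geJ (s := 0.9162) (by norm_num) (by norm_num) (by norm_num) (by norm_num))
    (by norm_num) (by norm_num) (by norm_num) (by norm_num) (by norm_num) (by norm_num) (by norm_num) (by norm_num) (by norm_num) (by norm_num) (by norm_num) (by norm_num) (by norm_num) (by norm_num) (by norm_num) (by norm_num) (by norm_num) (by norm_num)
    (exp_neg_leJ (r := 0.375) 6 (by norm_num) (by norm_num) (by norm_num) (by norm_num))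
    (exp_neg_leJ (r := 0.589) 3 (by norm_num) (by norm_num) (by norm_num) (by norm_num))
    (exp_neg_leJ (r := 0.367) 6 (by norm_num) (by norm_num) (by norm_num) (by norm_num))
    (exp_neg_leJ (r := 0.499) 9 (by norm_num) (by norm_num) (by norm_num) (by norm_num))
    (exp_neg_leJ (r := 0.534) 7 (by norm_num) (by norm_num) (by norm_num) (by norm_num))
    (exp_neg_leJ (r := 0.99) 14 (by norm_num) (by norm_num) (by norm_num) (by norm_num))
    (exp_neg_leJ (r := 0.99) 14 (by norm_num) (by norm_num) (by norm_num) (by norm_num))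
    (exp_neg_leJ (r := 0.99) 14 (by norm_num) (by norm_num) (by norm_num) (by norm_num))
    (by norm_num)) (by norm_num) hN hβ.le (by norm_num)

theorem dl16 {κ t β : ℝ} (h : DomR κ t) (hβ : 0 < β) (hk1 : 1.2 ≤ κ) (hk2 : κ ≤ 1.3)
    (ht1 : -0.8483 ≤ t + κ) (ht2 : t + κ ≤ -0.4869) (hR0 : β * 10 ≤ κ) :
    ∀ s : ℂ, ‖s - sg κ t‖ ≤ 0.14 → ‖HH β s - 1‖ ≤ 0.26 := by
  have hN : β * 7.692 ≤ 1 := bNR hβ h.1 hk2 hR0 (by norm_num)
  have hy1 : -0.44 ≤ sy κ t := syL_ge h 1.2 1.3 0.8483 0.44 0.64403 0.64404 0.23 0.21797 0.23615 hk1 hk2 (by linarith) (by norm_num) (by norm_num) (by norm_num)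
    (expm_ge (by norm_num) (by norm_num) (by norm_num) (by norm_num)) (expm_le (by norm_num) (by norm_num) (by norm_num)) (by norm_num)
    (by norm_num) (by norm_num) (by norm_num) (by norm_num) (by norm_num) (by norm_num)
  have hy2 : sy κ t ≤ -0.243 := syL_le h 1.2 1.3 0.4869 0.243 0.78427 0.78428 0.14659 0.15882 hk1 hk2 (by linarith) (by norm_num) (by norm_num) (by norm_num)
    (expm_ge (by norm_num) (by norm_num) (by norm_num) (by norm_num)) (expm_le (by norm_num) (by norm_num) (by norm_num)) (by norm_num)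
    (by norm_num) (by norm_num) (by norm_num) (by norm_num) (by norm_num) (by norm_num)
  intro s hs
  have hs' : ‖s - ((sx κ t : ℂ) + (sy κ t : ℂ) * I)‖ ≤ 0.14 := hs
  obtain ⟨es, ⟨s1, s2⟩, ⟨s3, s4⟩⟩ := disc_split hs'
  rcases le_total s.im (-0.52) with f0 | g0
  · have hx1 : 1.713 ≤ sx κ t := sxm_lo h 1.2 (-0.38) 1.46228 1.713 (-0.44) hk1 (by linarith) (by linarith) (by rw [neg_neg]; exact expn_ge (by norm_num) (by norm_num)) (by norm_num) (by norm_num) (by norm_num) (by norm_num)
    have hx2 : sx κ t ≤ 1.97 := sxm_hi h 1.2 1.3 (-0.44) 1.55271 1.97 hk1 hk2 (by linarith) (Or.inr ⟨by linarith, by norm_num⟩) (by rw [neg_neg]; exact expn_le (by norm_num) (by norm_num) (by norm_num)) (by norm_num) (by norm_num) (by norm_num)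
    rw [es]
    rcases le_total s.re 1.673 with d0 | e0
    · exact dl16_b0_0 hβ hN (by linarith) (by linarith) (by linarith) (by linarith)
    rcases le_total s.re 1.803 with d1 | e1
    · exact dl16_b0_1 hβ hN (by linarith) (by linarith) (by linarith) (by linarith)
    rcases le_total s.re 1.973 with d2 | e2
    · exact dl16_b0_2 hβ hN (by linarith) (by linarith) (by linarith) (by linarith)
    exact dl16_b0_3 hβ hN (by linarith) (by linarith) (by linarith) (by linarith)
  have hx1 : 1.5106 ≤ sx κ t := sxm_lo h 1.2 (-0.243) 1.27506 1.5106 (-0.44) hk1 (by linarith) (by linarith) (by rw [neg_neg]; exact expn_ge (by norm_num) (by norm_num)) (by norm_num) (by norm_num) (by norm_num) (by norm_num)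
  have hx2 : sx κ t ≤ 1.97 := sxm_hi h 1.2 1.3 (-0.44) 1.55271 1.97 hk1 hk2 (by linarith) (Or.inr ⟨by linarith, by norm_num⟩) (by rw [neg_neg]; exact expn_le (by norm_num) (by norm_num) (by norm_num)) (by norm_num) (by norm_num) (by norm_num)
  rw [es]
  rcases le_total s.re 1.5006 with d0 | e0
  · exact dl16_b1_0 hβ hN (by linarith) (by linarith) (by linarith) (by linarith)
  rcases le_total s.re 1.6606 with d1 | e1
  · exact dl16_b1_1 hβ hN (by linarith) (by linarith) (by linarith) (by linarith)
  rcases le_total s.re 1.8706 with d2 | e2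
  · exact dl16_b1_2 hβ hN (by linarith) (by linarith) (by linarith) (by linarith)
  exact dl16_b1_3 hβ hN (by linarith) (by linarith) (by linarith) (by linarith)

private theorem dl17_b0_0 {β x y : ℝ} (hβ : 0 < β) (hN : β * 7.194 ≤ 1) (hx1 : 1.6899 ≤ x) (hx2 : x ≤ 1.7899)
    (hy1 : -0.561 ≤ y) (hy2 : y ≤ -0.501) : ‖HH β (x + y * I) - 1‖ ≤ 0.2502 := by
  refine le_epsJ (C := 1.7864) (N0 := 7.194) (J_boxp 1.6899 1.7899 0.561 0 (-0.501) 1.5016 1.8758 1.8582 0.7409 0.5439 2.6822 7.194 1.2493 6.588 1.788 0.2138 0.7507 0.4381 0.7012 1.2853 0.8693 2.8398 3.4255 2.9929 0.004517 0.04281 0.006448 0.0000965 0.001925 0.0000003101 0.0000003101 0.0000003101 1.7864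
    hβ hN hx1 hx2 hy1 hy2 (by norm_num) (by norm_num) (by linarith) (by norm_num) (by norm_num) (by norm_num) (by norm_num) (by norm_num) (by norm_num) (by norm_num) (by norm_num) (by norm_num) (by norm_num) (by norm_num) (by norm_num) (by norm_num) (by norm_num) (by norm_num) (by norm_num) (by norm_num) (by norm_num) (by norm_num) (by norm_num) (by norm_num)
    (cube_sqrt_geJ (s := 0.7639) (by norm_num) (by norm_num) (by norm_num) (by norm_num))
    (cube_sqrt_geJ (s := 0.9203) (by norm_num) (by norm_num) (by norm_num) (by norm_num))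
    (by norm_num) (by norm_num) (by norm_num) (by norm_num) (by norm_num) (by norm_num) (by norm_num) (by norm_num) (by norm_num) (by norm_num) (by norm_num) (by norm_num) (by norm_num) (by norm_num) (by norm_num) (by norm_num) (by norm_num) (by norm_num)
    (exp_neg_leJ (r := 0.4) 5 (by norm_num) (by norm_num) (by norm_num) (by norm_num))
    (exp_neg_leJ (r := 0.151) 3 (by norm_num) (by norm_num) (by norm_num) (by norm_num))
    (exp_neg_leJ (r := 0.044) 5 (by norm_num) (by norm_num) (by norm_num) (by norm_num))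
    (exp_neg_leJ (r := 0.246) 9 (by norm_num) (by norm_num) (by norm_num) (by norm_num))
    (exp_neg_leJ (r := 0.253) 6 (by norm_num) (by norm_num) (by norm_num) (by norm_num))
    (exp_neg_leJ (r := 0.99) 14 (by norm_num) (by norm_num) (by norm_num) (by norm_num))
    (exp_neg_leJ (r := 0.99) 14 (by norm_num) (by norm_num) (by norm_num) (by norm_num))
    (exp_neg_leJ (r := 0.99) 14 (by norm_num) (by norm_num) (by norm_num) (by norm_num))
    (by norm_num)) (by norm_num) hN hβ.le (by norm_num)

private theorem dl17_b0_1 {β x y : ℝ} (hβ : 0 < β) (hN : β * 7.194 ≤ 1) (hx1 : 1.7899 ≤ x) (hx2 : x ≤ 1.9099)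
    (hy1 : -0.561 ≤ y) (hy2 : y ≤ -0.501) : ‖HH β (x + y * I) - 1‖ ≤ 0.2502 := by
  refine le_epsJ (C := 1.7695) (N0 := 7.194) (J_boxp 1.7899 1.9099 0.561 0 (-0.501) 1.572 1.9906 1.9741 0.7129 0.5606 2.6822 7.194 1.2663 6.817 1.804 0.1676 0.7859 0.4542 0.7354 1.2173 0.9179 2.9783 3.6255 2.8808 0.00351 0.03813 0.005042 0.0001576 0.001357 0.0000003101 0.0000003101 0.0000003101 1.7695
    hβ hN hx1 hx2 hy1 hy2 (by norm_num) (by norm_num) (by linarith) (by norm_num) (by norm_num) (by norm_num) (by norm_num) (by norm_num) (by norm_num) (by norm_num) (by norm_num) (by norm_num) (by norm_num) (by norm_num) (by norm_num) (by norm_num) (by norm_num) (by norm_num) (by norm_num) (by norm_num) (by norm_num) (by norm_num) (by norm_num) (by norm_num)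
    (cube_sqrt_geJ (s := 0.7601) (by norm_num) (by norm_num) (by norm_num) (by norm_num))
    (cube_sqrt_geJ (s := 0.9192) (by norm_num) (by norm_num) (by norm_num) (by norm_num))
    (by norm_num) (by norm_num) (by norm_num) (by norm_num) (by norm_num) (by norm_num) (by norm_num) (by norm_num) (by norm_num) (by norm_num) (by norm_num) (by norm_num) (by norm_num) (by norm_num) (by norm_num) (by norm_num) (by norm_num) (by norm_num)
    (exp_neg_leJ (r := 0.653) 5 (by norm_num) (by norm_num) (by norm_num) (by norm_num))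
    (exp_neg_leJ (r := 0.267) 3 (by norm_num) (by norm_num) (by norm_num) (by norm_num))
    (exp_neg_leJ (r := 0.29) 5 (by norm_num) (by norm_num) (by norm_num) (by norm_num))
    (exp_neg_leJ (r := 0.757) 8 (by norm_num) (by norm_num) (by norm_num) (by norm_num))
    (exp_neg_leJ (r := 0.603) 6 (by norm_num) (by norm_num) (by norm_num) (by norm_num))
    (exp_neg_leJ (r := 0.99) 14 (by norm_num) (by norm_num) (by norm_num) (by norm_num))
    (exp_neg_leJ (r := 0.99) 14 (by norm_num) (by norm_num) (by norm_num) (by norm_num))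
    (exp_neg_leJ (r := 0.99) 14 (by norm_num) (by norm_num) (by norm_num) (by norm_num))
    (by norm_num)) (by norm_num) hN hβ.le (by norm_num)

private theorem dl17_b0_2 {β x y : ℝ} (hβ : 0 < β) (hN : β * 7.194 ≤ 1) (hx1 : 1.9099 ≤ x) (hx2 : x ≤ 2.0599)
    (hy1 : -0.561 ≤ y) (hy2 : y ≤ -0.501) : ‖HH β (x + y * I) - 1‖ ≤ 0.2502 := by
  refine le_epsJ (C := 1.7762) (N0 := 7.194) (J_boxp 1.9099 2.0599 0.561 0 (-0.501) 1.6565 2.135 2.1195 0.6829 0.5809 2.6822 7.194 1.2889 7.137 1.825 0.11 0.8282 0.4724 0.7765 1.1321 0.9762 3.1444 3.8655 2.7283 0.002594 0.03345 0.003752 0.0002905 0.0008921 0.0000003101 0.0000003101 0.0000003101 1.7762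
    hβ hN hx1 hx2 hy1 hy2 (by norm_num) (by norm_num) (by linarith) (by norm_num) (by norm_num) (by norm_num) (by norm_num) (by norm_num) (by norm_num) (by norm_num) (by norm_num) (by norm_num) (by norm_num) (by norm_num) (by norm_num) (by norm_num) (by norm_num) (by norm_num) (by norm_num) (by norm_num) (by norm_num) (by norm_num) (by norm_num) (by norm_num)
    (cube_sqrt_geJ (s := 0.7552) (by norm_num) (by norm_num) (by norm_num) (by norm_num))
    (cube_sqrt_geJ (s := 0.9177) (by norm_num) (by norm_num) (by norm_num) (by norm_num))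
    (by norm_num) (by norm_num) (by norm_num) (by norm_num) (by norm_num) (by norm_num) (by norm_num) (by norm_num) (by norm_num) (by norm_num) (by norm_num) (by norm_num) (by norm_num) (by norm_num) (by norm_num) (by norm_num) (by norm_num) (by norm_num)
    (exp_neg_leJ (r := 0.958) 5 (by norm_num) (by norm_num) (by norm_num) (by norm_num))
    (exp_neg_leJ (r := 0.398) 3 (by norm_num) (by norm_num) (by norm_num) (by norm_num))
    (exp_neg_leJ (r := 0.586) 5 (by norm_num) (by norm_num) (by norm_num) (by norm_num))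
    (exp_neg_leJ (r := 0.144) 8 (by norm_num) (by norm_num) (by norm_num) (by norm_num))
    (exp_neg_leJ (r := 0.022) 7 (by norm_num) (by norm_num) (by norm_num) (by norm_num))
    (exp_neg_leJ (r := 0.99) 14 (by norm_num) (by norm_num) (by norm_num) (by norm_num))
    (exp_neg_leJ (r := 0.99) 14 (by norm_num) (by norm_num) (by norm_num) (by norm_num))
    (exp_neg_leJ (r := 0.99) 14 (by norm_num) (by norm_num) (by norm_num) (by norm_num))
    (by norm_num)) (by norm_num) hN hβ.le (by norm_num)

private theorem dl17_b0_3 {β x y : ℝ} (hβ : 0 < β) (hN : β * 7.194 ≤ 1) (hx1 : 2.0599 ≤ x) (hx2 : x ≤ 2.2154)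
    (hy1 : -0.561 ≤ y) (hy2 : y ≤ -0.501) : ‖HH β (x + y * I) - 1‖ ≤ 0.2502 := by
  refine le_epsJ (C := 1.7127) (N0 := 7.194) (J_boxp 2.0599 2.2154 0.561 0 (-0.501) 1.7621 2.2854 2.271 0.6443 0.6012 2.6822 7.194 1.297 7.256 1.832 0.0501 0.881 0.5001 0.8278 1.0436 1.049 3.3521 4.1655 2.6194 0.00177 0.02742 0.002601 0.0005494 0.0005284 0.0000003101 0.0000003101 0.0000003101 1.7127
    hβ hN hx1 hx2 hy1 hy2 (by norm_num) (by norm_num) (by linarith) (by norm_num) (by norm_num) (by norm_num) (by norm_num) (by norm_num) (by norm_num) (by norm_num) (by norm_num) (by norm_num) (by norm_num) (by norm_num) (by norm_num) (by norm_num) (by norm_num) (by norm_num) (by norm_num) (by norm_num) (by norm_num) (by norm_num) (by norm_num) (by norm_num)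
    (cube_sqrt_geJ (s := 0.7534) (by norm_num) (by norm_num) (by norm_num) (by norm_num))
    (cube_sqrt_geJ (s := 0.9171) (by norm_num) (by norm_num) (by norm_num) (by norm_num))
    (by norm_num) (by norm_num) (by norm_num) (by norm_num) (by norm_num) (by norm_num) (by norm_num) (by norm_num) (by norm_num) (by norm_num) (by norm_num) (by norm_num) (by norm_num) (by norm_num) (by norm_num) (by norm_num) (by norm_num) (by norm_num)
    (exp_neg_leJ (r := 0.337) 6 (by norm_num) (by norm_num) (by norm_num) (by norm_num))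
    (exp_neg_leJ (r := 0.597) 3 (by norm_num) (by norm_num) (by norm_num) (by norm_num))
    (exp_neg_leJ (r := 0.955) 5 (by norm_num) (by norm_num) (by norm_num) (by norm_num))
    (exp_neg_leJ (r := 0.507) 7 (by norm_num) (by norm_num) (by norm_num) (by norm_num))
    (exp_neg_leJ (r := 0.546) 7 (by norm_num) (by norm_num) (by norm_num) (by norm_num))
    (exp_neg_leJ (r := 0.99) 14 (by norm_num) (by norm_num) (by norm_num) (by norm_num))
    (exp_neg_leJ (r := 0.99) 14 (by norm_num) (by norm_num) (by norm_num) (by norm_num))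
    (exp_neg_leJ (r := 0.99) 14 (by norm_num) (by norm_num) (by norm_num) (by norm_num))
    (by norm_num)) (by norm_num) hN hβ.le (by norm_num)

private theorem dl17_b1_0 {β x y : ℝ} (hβ : 0 < β) (hN : β * 7.194 ≤ 1) (hx1 : 1.4874 ≤ x) (hx2 : x ≤ 1.6074)
    (hy1 : -0.501 ≤ y) (hy2 : y ≤ -0.095) : ‖HH β (x + y * I) - 1‖ ≤ 0.2502 := by
  refine le_epsJ (C := 1.7721) (N0 := 7.194) (J_boxp 1.4874 1.6074 0.501 0 (-0.095) 1.4016 1.6837 1.8447 0.8186 0.5419 2.6822 7.194 1.2013 5.993 1.746 0.3394 0.7007 0.4201 0.7266 1.5817 0.8037 2.5594 3.1836 3.11 0.006474 0.04871 0.00537 0.00001145 0.00309 0.0000003101 0.0000003101 0.0000003101 1.7721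
    hβ hN hx1 hx2 hy1 hy2 (by norm_num) (by norm_num) (by linarith) (by norm_num) (by norm_num) (by norm_num) (by norm_num) (by norm_num) (by norm_num) (by norm_num) (by norm_num) (by norm_num) (by norm_num) (by norm_num) (by norm_num) (by norm_num) (by norm_num) (by norm_num) (by norm_num) (by norm_num) (by norm_num) (by norm_num) (by norm_num) (by norm_num)
    (cube_sqrt_geJ (s := 0.7743) (by norm_num) (by norm_num) (by norm_num) (by norm_num))
    (cube_sqrt_geJ (s := 0.9235) (by norm_num) (by norm_num) (by norm_num) (by norm_num))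
    (by norm_num) (by norm_num) (by norm_num) (by norm_num) (by norm_num) (by norm_num) (by norm_num) (by norm_num) (by norm_num) (by norm_num) (by norm_num) (by norm_num) (by norm_num) (by norm_num) (by norm_num) (by norm_num) (by norm_num) (by norm_num)
    (exp_neg_leJ (r := 0.04) 5 (by norm_num) (by norm_num) (by norm_num) (by norm_num))
    (exp_neg_leJ (r := 0.022) 3 (by norm_num) (by norm_num) (by norm_num) (by norm_num))
    (exp_neg_leJ (r := 0.227) 5 (by norm_num) (by norm_num) (by norm_num) (by norm_num))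
    (exp_neg_leJ (r := 0.378) 11 (by norm_num) (by norm_num) (by norm_num) (by norm_num))
    (exp_neg_leJ (r := 0.781) 5 (by norm_num) (by norm_num) (by norm_num) (by norm_num))
    (exp_neg_leJ (r := 0.99) 14 (by norm_num) (by norm_num) (by norm_num) (by norm_num))
    (exp_neg_leJ (r := 0.99) 14 (by norm_num) (by norm_num) (by norm_num) (by norm_num))
    (exp_neg_leJ (r := 0.99) 14 (by norm_num) (by norm_num) (by norm_num) (by norm_num))
    (by norm_num)) (by norm_num) hN hβ.le (by norm_num)

private theorem dl17_b1_1 {β x y : ℝ} (hβ : 0 < β) (hN : β * 7.194 ≤ 1) (hx1 : 1.6074 ≤ x) (hx2 : x ≤ 1.7674)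
    (hy1 : -0.501 ≤ y) (hy2 : y ≤ -0.095) : ‖HH β (x + y * I) - 1‖ ≤ 0.2502 := by
  refine le_epsJ (C := 1.7966) (N0 := 7.194) (J_boxp 1.6074 1.7674 0.501 0 (-0.095) 1.4861 1.8371 1.9857 0.7779 0.5622 2.6822 7.194 1.2362 6.418 1.777 0.2778 0.743 0.4368 0.7677 1.491 0.862 2.7256 3.4236 2.9331 0.004773 0.0432 0.003999 0.00002199 0.002028 0.0000003101 0.0000003101 0.0000003101 1.7966
    hβ hN hx1 hx2 hy1 hy2 (by norm_num) (by norm_num) (by linarith) (by norm_num) (by norm_num) (by norm_num) (by norm_num) (by norm_num) (by norm_num) (by norm_num) (by norm_num) (by norm_num) (by norm_num) (by norm_num) (by norm_num) (by norm_num) (by norm_num) (by norm_num) (by norm_num) (by norm_num) (by norm_num) (by norm_num) (by norm_num) (by norm_num)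
    (cube_sqrt_geJ (s := 0.7667) (by norm_num) (by norm_num) (by norm_num) (by norm_num))
    (cube_sqrt_geJ (s := 0.9212) (by norm_num) (by norm_num) (by norm_num) (by norm_num))
    (by norm_num) (by norm_num) (by norm_num) (by norm_num) (by norm_num) (by norm_num) (by norm_num) (by norm_num) (by norm_num) (by norm_num) (by norm_num) (by norm_num) (by norm_num) (by norm_num) (by norm_num) (by norm_num) (by norm_num) (by norm_num)
    (exp_neg_leJ (r := 0.345) 5 (by norm_num) (by norm_num) (by norm_num) (by norm_num))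
    (exp_neg_leJ (r := 0.142) 3 (by norm_num) (by norm_num) (by norm_num) (by norm_num))
    (exp_neg_leJ (r := 0.522) 5 (by norm_num) (by norm_num) (by norm_num) (by norm_num))
    (exp_neg_leJ (r := 0.726) 10 (by norm_num) (by norm_num) (by norm_num) (by norm_num))
    (exp_neg_leJ (r := 0.201) 6 (by norm_num) (by norm_num) (by norm_num) (by norm_num))
    (exp_neg_leJ (r := 0.99) 14 (by norm_num) (by norm_num) (by norm_num) (by norm_num))
    (exp_neg_leJ (r := 0.99) 14 (by norm_num) (by norm_num) (by norm_num) (by norm_num))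
    (exp_neg_leJ (r := 0.99) 14 (by norm_num) (by norm_num) (by norm_num) (by norm_num))
    (by norm_num)) (by norm_num) hN hβ.le (by norm_num)

private theorem dl17_b1_2 {β x y : ℝ} (hβ : 0 < β) (hN : β * 7.194 ≤ 1) (hx1 : 1.7674 ≤ x) (hx2 : x ≤ 1.9674)
    (hy1 : -0.501 ≤ y) (hy2 : y ≤ -0.095) : ‖HH β (x + y * I) - 1‖ ≤ 0.2502 := by
  refine le_epsJ (C := 1.7875) (N0 := 7.194) (J_boxp 1.7674 1.9674 0.501 0 (-0.095) 1.5988 2.0302 2.1656 0.728 0.5871 2.6822 7.194 1.2699 6.866 1.807 0.2009 0.7993 0.461 0.8224 1.3772 0.9397 2.9471 3.7436 2.7282 0.003187 0.0363 0.002703 0.00004995 0.001161 0.0000003101 0.0000003101 0.0000003101 1.7875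
    hβ hN hx1 hx2 hy1 hy2 (by norm_num) (by norm_num) (by linarith) (by norm_num) (by norm_num) (by norm_num) (by norm_num) (by norm_num) (by norm_num) (by norm_num) (by norm_num) (by norm_num) (by norm_num) (by norm_num) (by norm_num) (by norm_num) (by norm_num) (by norm_num) (by norm_num) (by norm_num) (by norm_num) (by norm_num) (by norm_num) (by norm_num)
    (cube_sqrt_geJ (s := 0.7594) (by norm_num) (by norm_num) (by norm_num) (by norm_num))
    (cube_sqrt_geJ (s := 0.9189) (by norm_num) (by norm_num) (by norm_num) (by norm_num))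
    (by norm_num) (by norm_num) (by norm_num) (by norm_num) (by norm_num) (by norm_num) (by norm_num) (by norm_num) (by norm_num) (by norm_num) (by norm_num) (by norm_num) (by norm_num) (by norm_num) (by norm_num) (by norm_num) (by norm_num) (by norm_num)
    (exp_neg_leJ (r := 0.75) 5 (by norm_num) (by norm_num) (by norm_num) (by norm_num))
    (exp_neg_leJ (r := 0.316) 3 (by norm_num) (by norm_num) (by norm_num) (by norm_num))
    (exp_neg_leJ (r := 0.916) 5 (by norm_num) (by norm_num) (by norm_num) (by norm_num))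
    (exp_neg_leJ (r := 0.907) 9 (by norm_num) (by norm_num) (by norm_num) (by norm_num))
    (exp_neg_leJ (r := 0.76) 6 (by norm_num) (by norm_num) (by norm_num) (by norm_num))
    (exp_neg_leJ (r := 0.99) 14 (by norm_num) (by norm_num) (by norm_num) (by norm_num))
    (exp_neg_leJ (r := 0.99) 14 (by norm_num) (by norm_num) (by norm_num) (by norm_num))
    (exp_neg_leJ (r := 0.99) 14 (by norm_num) (by norm_num) (by norm_num) (by norm_num))
    (by norm_num)) (by norm_num) hN hβ.le (by norm_num)

private theorem dl17_b1_3 {β x y : ℝ} (hβ : 0 < β) (hN : β * 7.194 ≤ 1) (hx1 : 1.9674 ≤ x) (hx2 : x ≤ 2.2154)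
    (hy1 : -0.501 ≤ y) (hy2 : y ≤ -0.095) : ‖HH β (x + y * I) - 1‖ ≤ 0.2502 := by
  refine le_epsJ (C := 1.7784) (N0 := 7.194) (J_boxp 1.9674 2.2154 0.501 0 (-0.095) 1.7396 2.2714 2.3932 0.6743 0.6172 2.6822 7.194 1.3058 7.39 1.841 0.1055 0.8697 0.4912 0.8909 1.2356 1.0369 3.224 4.1436 2.4725 0.001919 0.02923 0.001647 0.0001384 0.0005764 0.0000003101 0.0000003101 0.0000003101 1.7784
    hβ hN hx1 hx2 hy1 hy2 (by norm_num) (by norm_num) (by linarith) (by norm_num) (by norm_num) (by norm_num) (by norm_num) (by norm_num) (by norm_num) (by norm_num) (by norm_num) (by norm_num) (by norm_num) (by norm_num) (by norm_num) (by norm_num) (by norm_num) (by norm_num) (by norm_num) (by norm_num) (by norm_num) (by norm_num) (by norm_num) (by norm_num)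
    (cube_sqrt_geJ (s := 0.7514) (by norm_num) (by norm_num) (by norm_num) (by norm_num))
    (cube_sqrt_geJ (s := 0.9165) (by norm_num) (by norm_num) (by norm_num) (by norm_num))
    (by norm_num) (by norm_num) (by norm_num) (by norm_num) (by norm_num) (by norm_num) (by norm_num) (by norm_num) (by norm_num) (by norm_num) (by norm_num) (by norm_num) (by norm_num) (by norm_num) (by norm_num) (by norm_num) (by norm_num) (by norm_num)
    (exp_neg_leJ (r := 0.256) 6 (by norm_num) (by norm_num) (by norm_num) (by norm_num))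
    (exp_neg_leJ (r := 0.533) 3 (by norm_num) (by norm_num) (by norm_num) (by norm_num))
    (exp_neg_leJ (r := 0.409) 6 (by norm_num) (by norm_num) (by norm_num) (by norm_num))
    (exp_neg_leJ (r := 0.888) 8 (by norm_num) (by norm_num) (by norm_num) (by norm_num))
    (exp_neg_leJ (r := 0.459) 7 (by norm_num) (by norm_num) (by norm_num) (by norm_num))
    (exp_neg_leJ (r := 0.99) 14 (by norm_num) (by norm_num) (by norm_num) (by norm_num))
    (exp_neg_leJ (r := 0.99) 14 (by norm_num) (by norm_num) (by norm_num) (by norm_num))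
    (exp_neg_leJ (r := 0.99) 14 (by norm_num) (by norm_num) (by norm_num) (by norm_num))
    (by norm_num)) (by norm_num) hN hβ.le (by norm_num)

theorem dl17 {κ t β : ℝ} (h : DomR κ t) (hβ : 0 < β) (hk1 : 1.3 ≤ κ) (hk2 : κ ≤ 1.39)
    (ht1 : -0.8483 ≤ t + κ) (ht2 : t + κ ≤ -0.4869) (hR0 : β * 10 ≤ κ) :
    ∀ s : ℂ, ‖s - sg κ t‖ ≤ 0.14 → ‖HH β s - 1‖ ≤ 0.2502 := by
  have hN : β * 7.194 ≤ 1 := bNR hβ h.1 hk2 hR0 (by norm_num)
  have hy1 : -0.421 ≤ sy κ t := syL_ge h 1.3 1.39 0.8483 0.421 0.65639 0.6564 0.1987 0.1988 0.21258 hk1 hk2 (by linarith) (by norm_num) (by norm_num) (by norm_num)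
    (expm_ge (by norm_num) (by norm_num) (by norm_num) (by norm_num)) (expm_le (by norm_num) (by norm_num) (by norm_num)) (by norm_num)
    (by norm_num) (by norm_num) (by norm_num) (by norm_num) (by norm_num) (by norm_num)
  have hy2 : sy κ t ≤ -0.235 := syL_le h 1.3 1.39 0.4869 0.235 0.79057 0.79058 0.13365 0.14292 hk1 hk2 (by linarith) (by norm_num) (by norm_num) (by norm_num)
    (expm_ge (by norm_num) (by norm_num) (by norm_num) (by norm_num)) (expm_le (by norm_num) (by norm_num) (by norm_num)) (by norm_num)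
    (by norm_num) (by norm_num) (by norm_num) (by norm_num) (by norm_num) (by norm_num)
  intro s hs
  have hs' : ‖s - ((sx κ t : ℂ) + (sy κ t : ℂ) * I)‖ ≤ 0.14 := hs
  obtain ⟨es, ⟨s1, s2⟩, ⟨s3, s4⟩⟩ := disc_split hs'
  rcases le_total s.im (-0.501) with f0 | g0
  · have hx1 : 1.8299 ≤ sx κ t := sxm_lo h 1.3 (-0.361) 1.43476 1.8299 (-0.421) hk1 (by linarith) (by linarith) (by rw [neg_neg]; exact expn_ge (by norm_num) (by norm_num)) (by norm_num) (by norm_num) (by norm_num) (by norm_num)
    have hx2 : sx κ t ≤ 2.0754 := sxm_hi h 1.3 1.39 (-0.421) 1.52349 2.0754 hk1 hk2 (by linarith) (Or.inr ⟨by linarith, by norm_num⟩) (by rw [neg_neg]; exact expn_le (by norm_num) (by norm_num) (by norm_num)) (by norm_num) (by norm_num) (by norm_num)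
    rw [es]
    rcases le_total s.re 1.7899 with d0 | e0
    · exact dl17_b0_0 hβ hN (by linarith) (by linarith) (by linarith) (by linarith)
    rcases le_total s.re 1.9099 with d1 | e1
    · exact dl17_b0_1 hβ hN (by linarith) (by linarith) (by linarith) (by linarith)
    rcases le_total s.re 2.0599 with d2 | e2
    · exact dl17_b0_2 hβ hN (by linarith) (by linarith) (by linarith) (by linarith)
    exact dl17_b0_3 hβ hN (by linarith) (by linarith) (by linarith) (by linarith)
  have hx1 : 1.6274 ≤ sx κ t := sxm_lo h 1.3 (-0.235) 1.2649 1.6274 (-0.421) hk1 (by linarith) (by linarith) (by rw [neg_neg]; exact expn_ge (by norm_num) (by norm_num)) (by norm_num) (by norm_num) (by norm_num) (by norm_num)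
  have hx2 : sx κ t ≤ 2.0754 := sxm_hi h 1.3 1.39 (-0.421) 1.52349 2.0754 hk1 hk2 (by linarith) (Or.inr ⟨by linarith, by norm_num⟩) (by rw [neg_neg]; exact expn_le (by norm_num) (by norm_num) (by norm_num)) (by norm_num) (by norm_num) (by norm_num)
  rw [es]
  rcases le_total s.re 1.6074 with d0 | e0
  · exact dl17_b1_0 hβ hN (by linarith) (by linarith) (by linarith) (by linarith)
  rcases le_total s.re 1.7674 with d1 | e1
  · exact dl17_b1_1 hβ hN (by linarith) (by linarith) (by linarith) (by linarith)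
  rcases le_total s.re 1.9674 with d2 | e2
  · exact dl17_b1_2 hβ hN (by linarith) (by linarith) (by linarith) (by linarith)
  exact dl17_b1_3 hβ hN (by linarith) (by linarith) (by linarith) (by linarith)

end Sok.B4
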