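import Pool.Agent.Lib.MP_816dec_an.R1B4D

/-!
MP_816dec_an (A3, row R1, b = 4): two dimensional covers of the discs, `κ ≥ 1`.
-/

set_option autoImplicit false
set_option maxHeartbeats 4000000

open Complex Set

namespace Sok.B4

private theorem dr14_b0_0 {β x y : ℝ} (hβ : 0 < β) (hN : β * 9.09 ≤ 1) (hx1 : 0.4483 ≤ x) (hx2 : x ≤ 0.4983)
    (hy1 : -0 ≤ y) (hy2 : y ≤ 0.486) : ‖HH β (x + y * I) - 1‖ ≤ 0.099 := by
  refine le_epsJ (C := 0.8968) (N0 := 9.09) (J_boxp 0.4483 0.4983 0 0.486 0.486 1.0257 0.6961 1.5674 1.2053 0.4995 3.015 9.09 0.6787 2.455 1.355 1.2284 0.5128 0.3968 1.1617 3.7625 0.5232 1.0711 0.3828 1.4264 0.009463 0.02718 0.00002597 0.0000003101 0.008619 0.00005918 0.03085 0.000002349 0.8968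
    hβ hN hx1 hx2 hy1 hy2 (by norm_num) (by norm_num) (by linarith) (by norm_num) (by norm_num) (by norm_num) (by norm_num) (by norm_num) (by norm_num) (by norm_num) (by norm_num) (by norm_num) (by norm_num) (by norm_num) (by norm_num) (by norm_num) (by norm_num) (by norm_num) (by norm_num) (by norm_num) (by norm_num) (by norm_num) (by norm_num) (by norm_num)
    (cube_sqrt_geJ (s := 0.8796) (by norm_num) (by norm_num) (by norm_num) (by norm_num))
    (cube_sqrt_geJ (s := 0.9575) (by norm_num) (by norm_num) (by norm_num) (by norm_num))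
    (by norm_num) (by norm_num) (by norm_num) (by norm_num) (by norm_num) (by norm_num) (by norm_num) (by norm_num) (by norm_num) (by norm_num) (by norm_num) (by norm_num) (by norm_num) (by norm_num) (by norm_num) (by norm_num) (by norm_num) (by norm_num)
    (exp_neg_leJ (r := 0.661) 4 (by norm_num) (by norm_num) (by norm_num) (by norm_num))
    (exp_neg_leJ (r := 0.606) 3 (by norm_num) (by norm_num) (by norm_num) (by norm_num))
    (exp_neg_leJ (r := 0.559) 10 (by norm_num) (by norm_num) (by norm_num) (by norm_num))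
    (exp_neg_leJ (r := 0.99) 14 (by norm_num) (by norm_num) (by norm_num) (by norm_num))
    (exp_neg_leJ (r := 0.755) 4 (by norm_num) (by norm_num) (by norm_num) (by norm_num))
    (exp_neg_leJ (r := 0.736) 9 (by norm_num) (by norm_num) (by norm_num) (by norm_num))
    (exp_neg_leJ (r := 0.479) 3 (by norm_num) (by norm_num) (by norm_num) (by norm_num))
    (exp_neg_leJ (r := 0.965) 12 (by norm_num) (by norm_num) (by norm_num) (by norm_num))
    (by norm_num)) (by norm_num) hN hβ.le (by norm_num)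

private theorem dr14_b0_1 {β x y : ℝ} (hβ : 0 < β) (hN : β * 9.09 ≤ 1) (hx1 : 0.4983 ≤ x) (hx2 : x ≤ 0.6183)
    (hy1 : -0 ≤ y) (hy2 : y ≤ 0.486) : ‖HH β (x + y * I) - 1‖ ≤ 0.099 := by
  refine le_epsJ (C := 0.8972) (N0 := 9.09) (J_boxp 0.4983 0.6183 0 0.486 0.486 1.0609 0.7865 1.6096 1.1611 0.5062 3.015 9.09 0.7414 2.702 1.396 1.1823 0.5304 0.3993 1.1788 3.7011 0.5474 1.1403 0.4828 1.2806 0.008072 0.02656 0.00002223 0.0000003101 0.006932 0.00003152 0.01243 0.000008812 0.8972
    hβ hN hx1 hx2 hy1 hy2 (by norm_num) (by norm_num) (by linarith) (by norm_num) (by norm_num) (by norm_num) (by norm_num) (by norm_num) (by norm_num) (by norm_num) (by norm_num) (by norm_num) (by norm_num) (by norm_num) (by norm_num) (by norm_num) (by norm_num) (by norm_num) (by norm_num) (by norm_num) (by norm_num) (by norm_num) (by norm_num) (by norm_num)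
    (cube_sqrt_geJ (s := 0.8676) (by norm_num) (by norm_num) (by norm_num) (by norm_num))
    (cube_sqrt_geJ (s := 0.9535) (by norm_num) (by norm_num) (by norm_num) (by norm_num))
    (by norm_num) (by norm_num) (by norm_num) (by norm_num) (by norm_num) (by norm_num) (by norm_num) (by norm_num) (by norm_num) (by norm_num) (by norm_num) (by norm_num) (by norm_num) (by norm_num) (by norm_num) (by norm_num) (by norm_num) (by norm_num)
    (exp_neg_leJ (r := 0.821) 4 (by norm_num) (by norm_num) (by norm_num) (by norm_num))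
    (exp_neg_leJ (r := 0.629) 3 (by norm_num) (by norm_num) (by norm_num) (by norm_num))
    (exp_neg_leJ (r := 0.715) 10 (by norm_num) (by norm_num) (by norm_num) (by norm_num))
    (exp_neg_leJ (r := 0.99) 14 (by norm_num) (by norm_num) (by norm_num) (by norm_num))
    (exp_neg_leJ (r := 0.975) 4 (by norm_num) (by norm_num) (by norm_num) (by norm_num))
    (exp_neg_leJ (r := 0.365) 10 (by norm_num) (by norm_num) (by norm_num) (by norm_num))
    (exp_neg_leJ (r := 0.388) 4 (by norm_num) (by norm_num) (by norm_num) (by norm_num))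
    (exp_neg_leJ (r := 0.64) 11 (by norm_num) (by norm_num) (by norm_num) (by norm_num))
    (by norm_num)) (by norm_num) hN hβ.le (by norm_num)

private theorem dr14_b0_2 {β x y : ℝ} (hβ : 0 < β) (hN : β * 9.09 ≤ 1) (hx1 : 0.6183 ≤ x) (hx2 : x ≤ 0.8083)
    (hy1 : -0 ≤ y) (hy2 : y ≤ 0.486) : ‖HH β (x + y * I) - 1‖ ≤ 0.099 := by
  refine le_epsJ (C := 0.8891) (N0 := 9.09) (J_boxp 0.6183 0.8083 0 0.486 0.486 1.1454 0.9432 1.6917 1.0611 0.5189 3.015 9.09 0.8235 3.075 1.451 1.1092 0.5726 0.4154 1.2199 3.6002 0.6057 1.3065 0.7228 1.0947 0.005495 0.02297 0.0000153 0.0000003101 0.004068 0.00000697 0.001403 0.00004787 0.8891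
    hβ hN hx1 hx2 hy1 hy2 (by norm_num) (by norm_num) (by linarith) (by norm_num) (by norm_num) (by norm_num) (by norm_num) (by norm_num) (by norm_num) (by norm_num) (by norm_num) (by norm_num) (by norm_num) (by norm_num) (by norm_num) (by norm_num) (by norm_num) (by norm_num) (by norm_num) (by norm_num) (by norm_num) (by norm_num) (by norm_num) (by norm_num)
    (cube_sqrt_geJ (s := 0.8517) (by norm_num) (by norm_num) (by norm_num) (by norm_num))
    (cube_sqrt_geJ (s := 0.9482) (by norm_num) (by norm_num) (by norm_num) (by norm_num))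
    (by norm_num) (by norm_num) (by norm_num) (by norm_num) (by norm_num) (by norm_num) (by norm_num) (by norm_num) (by norm_num) (by norm_num) (by norm_num) (by norm_num) (by norm_num) (by norm_num) (by norm_num) (by norm_num) (by norm_num) (by norm_num)
    (exp_neg_leJ (r := 0.204) 5 (by norm_num) (by norm_num) (by norm_num) (by norm_num))
    (exp_neg_leJ (r := 0.775) 3 (by norm_num) (by norm_num) (by norm_num) (by norm_num))
    (exp_neg_leJ (r := 0.088) 11 (by norm_num) (by norm_num) (by norm_num) (by norm_num))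
    (exp_neg_leJ (r := 0.99) 14 (by norm_num) (by norm_num) (by norm_num) (by norm_num))
    (exp_neg_leJ (r := 0.505) 5 (by norm_num) (by norm_num) (by norm_num) (by norm_num))
    (exp_neg_leJ (r := 0.876) 11 (by norm_num) (by norm_num) (by norm_num) (by norm_num))
    (exp_neg_leJ (r := 0.57) 6 (by norm_num) (by norm_num) (by norm_num) (by norm_num))
    (exp_neg_leJ (r := 0.95) 9 (by norm_num) (by norm_num) (by norm_num) (by norm_num))
    (by norm_num)) (by norm_num) hN hβ.le (by norm_num)

private theorem dr14_b0_3 {β x y : ℝ} (hβ : 0 < β) (hN : β * 9.09 ≤ 1) (hx1 : 0.8083 ≤ x) (hx2 : x ≤ 0.8466)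
    (hy1 : -0 ≤ y) (hy2 : y ≤ 0.486) : ‖HH β (x + y * I) - 1‖ ≤ 0.099 := by
  refine le_epsJ (C := 0.5838) (N0 := 9.09) (J_boxp 0.8083 0.8466 0 0.486 0.486 1.2792 0.9762 1.7103 0.904 0.5218 3.015 9.09 0.7632 2.795 1.41 1.0945 0.6395 0.4768 1.2849 3.5795 0.698 1.5696 1.1028 1.385 0.002994 0.01312 0.000008476 0.0000003101 0.001758 0.0000006367 0.00004433 0.000003411 0.5838
    hβ hN hx1 hx2 hy1 hy2 (by norm_num) (by norm_num) (by linarith) (by norm_num) (by norm_num) (by norm_num) (by norm_num) (by norm_num) (by norm_num) (by norm_num) (by norm_num) (by norm_num) (by norm_num) (by norm_num) (by norm_num) (by norm_num) (by norm_num) (by norm_num) (by norm_num) (by norm_num) (by norm_num) (by norm_num) (by norm_num) (by norm_num)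
    (cube_sqrt_geJ (s := 0.8634) (by norm_num) (by norm_num) (by norm_num) (by norm_num))
    (cube_sqrt_geJ (s := 0.9521) (by norm_num) (by norm_num) (by norm_num) (by norm_num))
    (by norm_num) (by norm_num) (by norm_num) (by norm_num) (by norm_num) (by norm_num) (by norm_num) (by norm_num) (by norm_num) (by norm_num) (by norm_num) (by norm_num) (by norm_num) (by norm_num) (by norm_num) (by norm_num) (by norm_num) (by norm_num)
    (exp_neg_leJ (r := 0.813) 5 (by norm_num) (by norm_num) (by norm_num) (by norm_num))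
    (exp_neg_leJ (r := 0.334) 4 (by norm_num) (by norm_num) (by norm_num) (by norm_num))
    (exp_neg_leJ (r := 0.679) 11 (by norm_num) (by norm_num) (by norm_num) (by norm_num))
    (exp_neg_leJ (r := 0.99) 14 (by norm_num) (by norm_num) (by norm_num) (by norm_num))
    (exp_neg_leJ (r := 0.344) 6 (by norm_num) (by norm_num) (by norm_num) (by norm_num))
    (exp_neg_leJ (r := 0.267) 14 (by norm_num) (by norm_num) (by norm_num) (by norm_num))
    (exp_neg_leJ (r := 0.024) 10 (by norm_num) (by norm_num) (by norm_num) (by norm_num))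
    (exp_neg_leJ (r := 0.589) 12 (by norm_num) (by norm_num) (by norm_num) (by norm_num))
    (by norm_num)) (by norm_num) hN hβ.le (by norm_num)

theorem dr14 {κ t β : ℝ} (h : DomR κ t) (hβ : 0 < β) (hk1 : 1 ≤ κ) (hk2 : κ ≤ 1.1)
    (ht1 : 0.7225 ≤ t + κ) (ht2 : t + κ ≤ 1.0682) (hR0 : β * 10 ≤ κ) :
    ∀ s : ℂ, ‖s - sg κ t‖ ≤ 0.08 → ‖HH β s - 1‖ ≤ 0.099 := by
  have hN : β * 9.09 ≤ 1 := bNR hβ h.1 hk2 hR0 (by norm_num)
  have hy1 : 0.293 ≤ sy κ t := syR_ge h 1 1.1 0.7225 0.293 1.34044 1.34045 0.35704 0.39276 hk1 hk2 (by linarith) (by norm_num) (by norm_num)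
    (expn_ge (by norm_num) (by norm_num)) (expn_le (by norm_num) (by norm_num) (by norm_num)) (by norm_num)
    (by norm_num) (by norm_num) (by norm_num) (by norm_num) (by norm_num) (by norm_num)
  have hy2 : sy κ t ≤ 0.406 := syR_le h 1 1.1 1.0682 0.406 1.5008 0.54 0.55393 0.60933 hk1 hk2 (by linarith) (by norm_num) (by norm_num)
    (expn_ge (by norm_num) (by norm_num)) (by norm_num) (by norm_num) (Or.inr ((mul_le_mul_of_nonneg_left (expn_le (E := 1.50081) (by norm_num) (by norm_num) (by norm_num)) (by norm_num)).trans (by norm_num))) (by norm_num) (by norm_num) (by norm_num)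
  intro s hs
  have hs' : ‖s - ((sx κ t : ℂ) + (sy κ t : ℂ) * I)‖ ≤ 0.08 := hs
  obtain ⟨es, ⟨s1, s2⟩, ⟨s3, s4⟩⟩ := disc_split hs'
  have hx1 : 0.5283 ≤ sx κ t := sxm_lo h 1 0.406 0.66631 0.5283 0.293 hk1 (by linarith) (by linarith) (expm_ge (by norm_num) (by norm_num) (by norm_num) (by norm_num)) (by norm_num) (by norm_num) (by norm_num) (by norm_num)
  have hx2 : sx κ t ≤ 0.7666 := sxm_hi h 1 1.1 0.293 0.74603 0.7666 hk1 hk2 (by linarith) (Or.inl (by norm_num)) (expm_le (by norm_num) (by norm_num) (by norm_num)) (by norm_num) (by norm_num) (by norm_num)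
  rw [es]
  rcases le_total s.re 0.4983 with d0 | e0
  · exact dr14_b0_0 hβ hN (by linarith) (by linarith) (by linarith) (by linarith)
  rcases le_total s.re 0.6183 with d1 | e1
  · exact dr14_b0_1 hβ hN (by linarith) (by linarith) (by linarith) (by linarith)
  rcases le_total s.re 0.8083 with d2 | e2
  · exact dr14_b0_2 hβ hN (by linarith) (by linarith) (by linarith) (by linarith)
  exact dr14_b0_3 hβ hN (by linarith) (by linarith) (by linarith) (by linarith)

private theorem dr15_b0_0 {β x y : ℝ} (hβ : 0 < β) (hN : β * 8.333 ≤ 1) (hx1 : 0.4961 ≤ x) (hx2 : x ≤ 0.5161)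
    (hy1 : -0 ≤ y) (hy2 : y ≤ 0.515) : ‖HH β (x + y * I) - 1‖ ≤ 0.12 := by
  refine le_epsJ (C := 0.9989) (N0 := 8.333) (J_boxp 0.4961 0.5161 0 0.515 0.515 1.0593 0.7291 1.6005 1.1604 0.5048 2.8867 8.333 0.6883 2.49 1.361 1.2216 0.5296 0.4081 1.1781 3.7481 0.5434 1.1343 0.354 1.2956 0.01212 0.03338 0.00005461 0.0000003101 0.01081 0.00007855 0.05255 0.00002051 0.9989
    hβ hN hx1 hx2 hy1 hy2 (by norm_num) (by norm_num) (by linarith) (by norm_num) (by norm_num) (by norm_num) (by norm_num) (by norm_num) (by norm_num) (by norm_num) (by norm_num) (by norm_num) (by norm_num) (by norm_num) (by norm_num) (by norm_num) (by norm_num) (by norm_num) (by norm_num) (by norm_num) (by norm_num) (by norm_num) (by norm_num) (by norm_num)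
    (cube_sqrt_geJ (s := 0.8778) (by norm_num) (by norm_num) (by norm_num) (by norm_num))
    (cube_sqrt_geJ (s := 0.9569) (by norm_num) (by norm_num) (by norm_num) (by norm_num))
    (by norm_num) (by norm_num) (by norm_num) (by norm_num) (by norm_num) (by norm_num) (by norm_num) (by norm_num) (by norm_num) (by norm_num) (by norm_num) (by norm_num) (by norm_num) (by norm_num) (by norm_num) (by norm_num) (by norm_num) (by norm_num)
    (exp_neg_leJ (r := 0.413) 4 (by norm_num) (by norm_num) (by norm_num) (by norm_num))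
    (exp_neg_leJ (r := 0.4) 3 (by norm_num) (by norm_num) (by norm_num) (by norm_num))
    (exp_neg_leJ (r := 0.817) 9 (by norm_num) (by norm_num) (by norm_num) (by norm_num))
    (exp_neg_leJ (r := 0.99) 14 (by norm_num) (by norm_num) (by norm_num) (by norm_num))
    (exp_neg_leJ (r := 0.528) 4 (by norm_num) (by norm_num) (by norm_num) (by norm_num))
    (exp_neg_leJ (r := 0.452) 9 (by norm_num) (by norm_num) (by norm_num) (by norm_num))
    (exp_neg_leJ (r := 0.949) 2 (by norm_num) (by norm_num) (by norm_num) (by norm_num))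
    (exp_neg_leJ (r := 0.796) 10 (by norm_num) (by norm_num) (by norm_num) (by norm_num))
    (by norm_num)) (by norm_num) hN hβ.le (by norm_num)

private theorem dr15_b0_1 {β x y : ℝ} (hβ : 0 < β) (hN : β * 8.333 ≤ 1) (hx1 : 0.5161 ≤ x) (hx2 : x ≤ 0.5761)
    (hy1 : -0 ≤ y) (hy2 : y ≤ 0.515) : ‖HH β (x + y * I) - 1‖ ≤ 0.12 := by
  refine le_epsJ (C := 0.9879) (N0 := 8.333) (J_boxp 0.5161 0.5761 0 0.515 0.515 1.0734 0.7728 1.6209 1.1449 0.508 2.8867 8.333 0.72 2.614 1.382 1.1985 0.5366 0.4078 1.1849 3.7178 0.5531 1.162 0.394 1.2168 0.01144 0.03345 0.00005166 0.0000003101 0.009977 0.00006245 0.03752 0.00003951 0.9879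
    hβ hN hx1 hx2 hy1 hy2 (by norm_num) (by norm_num) (by linarith) (by norm_num) (by norm_num) (by norm_num) (by norm_num) (by norm_num) (by norm_num) (by norm_num) (by norm_num) (by norm_num) (by norm_num) (by norm_num) (by norm_num) (by norm_num) (by norm_num) (by norm_num) (by norm_num) (by norm_num) (by norm_num) (by norm_num) (by norm_num) (by norm_num)
    (cube_sqrt_geJ (s := 0.8717) (by norm_num) (by norm_num) (by norm_num) (by norm_num))
    (cube_sqrt_geJ (s := 0.9549) (by norm_num) (by norm_num) (by norm_num) (by norm_num))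
    (by norm_num) (by norm_num) (by norm_num) (by norm_num) (by norm_num) (by norm_num) (by norm_num) (by norm_num) (by norm_num) (by norm_num) (by norm_num) (by norm_num) (by norm_num) (by norm_num) (by norm_num) (by norm_num) (by norm_num) (by norm_num)
    (exp_neg_leJ (r := 0.471) 4 (by norm_num) (by norm_num) (by norm_num) (by norm_num))
    (exp_neg_leJ (r := 0.398) 3 (by norm_num) (by norm_num) (by norm_num) (by norm_num))
    (exp_neg_leJ (r := 0.873) 9 (by norm_num) (by norm_num) (by norm_num) (by norm_num))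
    (exp_neg_leJ (r := 0.99) 14 (by norm_num) (by norm_num) (by norm_num) (by norm_num))
    (exp_neg_leJ (r := 0.608) 4 (by norm_num) (by norm_num) (by norm_num) (by norm_num))
    (exp_neg_leJ (r := 0.682) 9 (by norm_num) (by norm_num) (by norm_num) (by norm_num))
    (exp_neg_leJ (r := 0.283) 3 (by norm_num) (by norm_num) (by norm_num) (by norm_num))
    (exp_neg_leJ (r := 0.139) 10 (by norm_num) (by norm_num) (by norm_num) (by norm_num))
    (by norm_num)) (by norm_num) hN hβ.le (by norm_num)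

private theorem dr15_b0_2 {β x y : ℝ} (hβ : 0 < β) (hN : β * 8.333 ≤ 1) (hx1 : 0.5761 ≤ x) (hx2 : x ≤ 0.7161)
    (hy1 : -0 ≤ y) (hy2 : y ≤ 0.515) : ‖HH β (x + y * I) - 1‖ ≤ 0.12 := by
  refine le_epsJ (C := 0.9832) (N0 := 8.333) (J_boxp 0.5761 0.7161 0 0.515 0.515 1.1157 0.8821 1.6758 1.0985 0.5165 2.8867 8.333 0.7907 2.918 1.429 1.1446 0.5578 0.4108 1.2054 3.6451 0.5823 1.2451 0.514 1.0397 0.009587 0.03262 0.00004345 0.0000003101 0.007828 0.00003121 0.01381 0.000173 0.9832
    hβ hN hx1 hx2 hy1 hy2 (by norm_num) (by norm_num) (by linarith) (by norm_num) (by norm_num) (by norm_num) (by norm_num) (by norm_num) (by norm_num) (by norm_num) (by norm_num) (by norm_num) (by norm_num) (by norm_num) (by norm_num) (by norm_num) (by norm_num) (by norm_num) (by norm_num) (by norm_num) (by norm_num) (by norm_num) (by norm_num) (by norm_num)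
    (cube_sqrt_geJ (s := 0.8581) (by norm_num) (by norm_num) (by norm_num) (by norm_num))
    (cube_sqrt_geJ (s := 0.9503) (by norm_num) (by norm_num) (by norm_num) (by norm_num))
    (by norm_num) (by norm_num) (by norm_num) (by norm_num) (by norm_num) (by norm_num) (by norm_num) (by norm_num) (by norm_num) (by norm_num) (by norm_num) (by norm_num) (by norm_num) (by norm_num) (by norm_num) (by norm_num) (by norm_num) (by norm_num)
    (exp_neg_leJ (r := 0.648) 4 (by norm_num) (by norm_num) (by norm_num) (by norm_num))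
    (exp_neg_leJ (r := 0.423) 3 (by norm_num) (by norm_num) (by norm_num) (by norm_num))
    (exp_neg_leJ (r := 0.044) 10 (by norm_num) (by norm_num) (by norm_num) (by norm_num))
    (exp_neg_leJ (r := 0.99) 14 (by norm_num) (by norm_num) (by norm_num) (by norm_num))
    (exp_neg_leJ (r := 0.852) 4 (by norm_num) (by norm_num) (by norm_num) (by norm_num))
    (exp_neg_leJ (r := 0.375) 10 (by norm_num) (by norm_num) (by norm_num) (by norm_num))
    (exp_neg_leJ (r := 0.283) 4 (by norm_num) (by norm_num) (by norm_num) (by norm_num))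
    (exp_neg_leJ (r := 0.663) 8 (by norm_num) (by norm_num) (by norm_num) (by norm_num))
    (by norm_num)) (by norm_num) hN hβ.le (by norm_num)

private theorem dr15_b0_3 {β x y : ℝ} (hβ : 0 < β) (hN : β * 8.333 ≤ 1) (hx1 : 0.7161 ≤ x) (hx2 : x ≤ 0.9369)
    (hy1 : -0 ≤ y) (hy2 : y ≤ 0.515) : ‖HH β (x + y * I) - 1‖ ≤ 0.12 := by
  refine le_epsJ (C := 0.9834) (N0 := 8.333) (J_boxp 0.7161 0.9369 0 0.515 0.515 1.2142 1.0692 1.7813 0.9976 0.5325 2.8867 8.333 0.8806 3.375 1.491 1.0597 0.607 0.4288 1.2534 3.5266 0.6503 1.4389 0.794 0.8111 0.006359 0.02809 0.00002913 0.0000003101 0.004437 0.000006228 0.00134 0.001163 0.9834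
    hβ hN hx1 hx2 hy1 hy2 (by norm_num) (by norm_num) (by linarith) (by norm_num) (by norm_num) (by norm_num) (by norm_num) (by norm_num) (by norm_num) (by norm_num) (by norm_num) (by norm_num) (by norm_num) (by norm_num) (by norm_num) (by norm_num) (by norm_num) (by norm_num) (by norm_num) (by norm_num) (by norm_num) (by norm_num) (by norm_num) (by norm_num)
    (cube_sqrt_geJ (s := 0.8405) (by norm_num) (by norm_num) (by norm_num) (by norm_num))
    (cube_sqrt_geJ (s := 0.9445) (by norm_num) (by norm_num) (by norm_num) (by norm_num))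
    (by norm_num) (by norm_num) (by norm_num) (by norm_num) (by norm_num) (by norm_num) (by norm_num) (by norm_num) (by norm_num) (by norm_num) (by norm_num) (by norm_num) (by norm_num) (by norm_num) (by norm_num) (by norm_num) (by norm_num) (by norm_num)
    (exp_neg_leJ (r := 0.058) 5 (by norm_num) (by norm_num) (by norm_num) (by norm_num))
    (exp_neg_leJ (r := 0.573) 3 (by norm_num) (by norm_num) (by norm_num) (by norm_num))
    (exp_neg_leJ (r := 0.444) 10 (by norm_num) (by norm_num) (by norm_num) (by norm_num))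
    (exp_neg_leJ (r := 0.99) 14 (by norm_num) (by norm_num) (by norm_num) (by norm_num))
    (exp_neg_leJ (r := 0.418) 5 (by norm_num) (by norm_num) (by norm_num) (by norm_num))
    (exp_neg_leJ (r := 0.99) 11 (by norm_num) (by norm_num) (by norm_num) (by norm_num))
    (exp_neg_leJ (r := 0.616) 6 (by norm_num) (by norm_num) (by norm_num) (by norm_num))
    (exp_neg_leJ (r := 0.758) 6 (by norm_num) (by norm_num) (by norm_num) (by norm_num))
    (by norm_num)) (by norm_num) hN hβ.le (by norm_num)

theorem dr15 {κ t β : ℝ} (h : DomR κ t) (hβ : 0 < β) (hk1 : 1.1 ≤ κ) (hk2 : κ ≤ 1.2)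
    (ht1 : 0.7225 ≤ t + κ) (ht2 : t + κ ≤ 1.0682) (hR0 : β * 10 ≤ κ) :
    ∀ s : ℂ, ‖s - sg κ t‖ ≤ 0.1 → ‖HH β s - 1‖ ≤ 0.12 := by
  have hN : β * 8.333 ≤ 1 := bNR hβ h.1 hk2 hR0 (by norm_num)
  have hy1 : 0.3 ≤ sy κ t := syR_ge h 1.1 1.2 0.7225 0.3 1.34985 1.34986 0.33746 0.36815 hk1 hk2 (by linarith) (by norm_num) (by norm_num)
    (expn_ge (by norm_num) (by norm_num)) (expn_le (by norm_num) (by norm_num) (by norm_num)) (by norm_num)
    (by norm_num) (by norm_num) (by norm_num) (by norm_num) (by norm_num) (by norm_num)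
  have hy2 : sy κ t ≤ 0.415 := syR_le h 1.1 1.2 1.0682 0.415 1.51437 0.5118 0.52371 0.57134 hk1 hk2 (by linarith) (by norm_num) (by norm_num)
    (expn_ge (by norm_num) (by norm_num)) (by norm_num) (by norm_num) (Or.inr ((mul_le_mul_of_nonneg_left (expn_le (E := 1.51438) (by norm_num) (by norm_num) (by norm_num)) (by norm_num)).trans (by norm_num))) (by norm_num) (by norm_num) (by norm_num)
  intro s hs
  have hs' : ‖s - ((sx κ t : ℂ) + (sy κ t : ℂ) * I)‖ ≤ 0.1 := hs
  obtain ⟨es, ⟨s1, s2⟩, ⟨s3, s4⟩⟩ := disc_split hs'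
  have hx1 : 0.5961 ≤ sx κ t := sxm_lo h 1.1 0.415 0.66034 0.5961 0.3 hk1 (by linarith) (by linarith) (expm_ge (by norm_num) (by norm_num) (by norm_num) (by norm_num)) (by norm_num) (by norm_num) (by norm_num) (by norm_num)
  have hx2 : sx κ t ≤ 0.8369 := sxm_hi h 1.1 1.2 0.3 0.74082 0.8369 hk1 hk2 (by linarith) (Or.inl (by norm_num)) (expm_le (by norm_num) (by norm_num) (by norm_num)) (by norm_num) (by norm_num) (by norm_num)
  rw [es]
  rcases le_total s.re 0.5161 with d0 | e0
  · exact dr15_b0_0 hβ hN (by linarith) (by linarith) (by linarith) (by linarith)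
  rcases le_total s.re 0.5761 with d1 | e1
  · exact dr15_b0_1 hβ hN (by linarith) (by linarith) (by linarith) (by linarith)
  rcases le_total s.re 0.7161 with d2 | e2
  · exact dr15_b0_2 hβ hN (by linarith) (by linarith) (by linarith) (by linarith)
  exact dr15_b0_3 hβ hN (by linarith) (by linarith) (by linarith) (by linarith)

private theorem dr16_b0_0 {β x y : ℝ} (hβ : 0 < β) (hN : β * 7.692 ≤ 1) (hx1 : 0.5578 ≤ x) (hx2 : x ≤ 0.5878)
    (hy1 : -0 ≤ y) (hy2 : y ≤ 0.526) : ‖HH β (x + y * I) - 1‖ ≤ 0.13 := by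
  refine le_epsJ (C := 0.9895) (N0 := 7.692) (J_boxp 0.5578 0.5878 0 0.526 0.526 1.1028 0.7888 1.6353 1.1043 0.5102 2.7735 7.692 0.7153 2.595 1.379 1.194 0.5513 0.4199 1.1992 3.7099 0.5723 1.2186 0.4302 1.2049 0.01441 0.0396 0.00009865 0.0000003101 0.01226 0.000085 0.03656 0.0000944 0.9895
    hβ hN hx1 hx2 hy1 hy2 (by norm_num) (by norm_num) (by linarith) (by norm_num) (by norm_num) (by norm_num) (by norm_num) (by norm_num) (by norm_num) (by norm_num) (by norm_num) (by norm_num) (by norm_num) (by norm_num) (by norm_num) (by norm_num) (by norm_num) (by norm_num) (by norm_num) (by norm_num) (by norm_num) (by norm_num) (by norm_num) (by norm_num)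
    (cube_sqrt_geJ (s := 0.8726) (by norm_num) (by norm_num) (by norm_num) (by norm_num))
    (cube_sqrt_geJ (s := 0.9552) (by norm_num) (by norm_num) (by norm_num) (by norm_num))
    (by norm_num) (by norm_num) (by norm_num) (by norm_num) (by norm_num) (by norm_num) (by norm_num) (by norm_num) (by norm_num) (by norm_num) (by norm_num) (by norm_num) (by norm_num) (by norm_num) (by norm_num) (by norm_num) (by norm_num) (by norm_num)
    (exp_neg_leJ (r := 0.24) 4 (by norm_num) (by norm_num) (by norm_num) (by norm_num))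
    (exp_neg_leJ (r := 0.229) 3 (by norm_num) (by norm_num) (by norm_num) (by norm_num))
    (exp_neg_leJ (r := 0.224) 9 (by norm_num) (by norm_num) (by norm_num) (by norm_num))
    (exp_neg_leJ (r := 0.99) 14 (by norm_num) (by norm_num) (by norm_num) (by norm_num))
    (exp_neg_leJ (r := 0.402) 4 (by norm_num) (by norm_num) (by norm_num) (by norm_num))
    (exp_neg_leJ (r := 0.373) 9 (by norm_num) (by norm_num) (by norm_num) (by norm_num))
    (exp_neg_leJ (r := 0.309) 3 (by norm_num) (by norm_num) (by norm_num) (by norm_num))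
    (exp_neg_leJ (r := 0.268) 9 (by norm_num) (by norm_num) (by norm_num) (by norm_num))
    (by norm_num)) (by norm_num) hN hβ.le (by norm_num)

private theorem dr16_b0_1 {β x y : ℝ} (hβ : 0 < β) (hN : β * 7.692 ≤ 1) (hx1 : 0.5878 ≤ x) (hx2 : x ≤ 0.6678)
    (hy1 : -0 ≤ y) (hy2 : y ≤ 0.526) : ‖HH β (x + y * I) - 1‖ ≤ 0.13 := by
  refine le_epsJ (C := 0.9914) (N0 := 7.692) (J_boxp 0.5878 0.6678 0 0.526 0.526 1.1239 0.8501 1.6658 1.0833 0.5149 2.7735 7.692 0.7564 2.765 1.406 1.1632 0.5619 0.4202 1.2094 3.6687 0.5868 1.2602 0.4902 1.0983 0.01328 0.03948 0.00009125 0.0000003101 0.01097 0.00006177 0.02308 0.0002144 0.9914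
    hβ hN hx1 hx2 hy1 hy2 (by norm_num) (by norm_num) (by linarith) (by norm_num) (by norm_num) (by norm_num) (by norm_num) (by norm_num) (by norm_num) (by norm_num) (by norm_num) (by norm_num) (by norm_num) (by norm_num) (by norm_num) (by norm_num) (by norm_num) (by norm_num) (by norm_num) (by norm_num) (by norm_num) (by norm_num) (by norm_num) (by norm_num)
    (cube_sqrt_geJ (s := 0.8647) (by norm_num) (by norm_num) (by norm_num) (by norm_num))
    (cube_sqrt_geJ (s := 0.9525) (by norm_num) (by norm_num) (by norm_num) (by norm_num))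
    (by norm_num) (by norm_num) (by norm_num) (by norm_num) (by norm_num) (by norm_num) (by norm_num) (by norm_num) (by norm_num) (by norm_num) (by norm_num) (by norm_num) (by norm_num) (by norm_num) (by norm_num) (by norm_num) (by norm_num) (by norm_num)
    (exp_neg_leJ (r := 0.322) 4 (by norm_num) (by norm_num) (by norm_num) (by norm_num))
    (exp_neg_leJ (r := 0.232) 3 (by norm_num) (by norm_num) (by norm_num) (by norm_num))
    (exp_neg_leJ (r := 0.302) 9 (by norm_num) (by norm_num) (by norm_num) (by norm_num))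
    (exp_neg_leJ (r := 0.99) 14 (by norm_num) (by norm_num) (by norm_num) (by norm_num))
    (exp_neg_leJ (r := 0.513) 4 (by norm_num) (by norm_num) (by norm_num) (by norm_num))
    (exp_neg_leJ (r := 0.693) 9 (by norm_num) (by norm_num) (by norm_num) (by norm_num))
    (exp_neg_leJ (r := 0.77) 3 (by norm_num) (by norm_num) (by norm_num) (by norm_num))
    (exp_neg_leJ (r := 0.448) 8 (by norm_num) (by norm_num) (by norm_num) (by norm_num))
    (by norm_num)) (by norm_num) hN hβ.le (by norm_num)

private theorem dr16_b0_2 {β x y : ℝ} (hβ : 0 < β) (hN : β * 7.692 ≤ 1) (hx1 : 0.6678 ≤ x) (hx2 : x ≤ 0.8178)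
    (hy1 : -0 ≤ y) (hy2 : y ≤ 0.526) : ‖HH β (x + y * I) - 1‖ ≤ 0.13 := by
  refine le_epsJ (C := 0.986) (N0 := 7.692) (J_boxp 0.6678 0.8178 0 0.526 0.526 1.1802 0.9724 1.7314 1.0263 0.525 2.7735 7.692 0.824 3.078 1.451 1.1055 0.59 0.428 1.2368 3.5894 0.6257 1.3709 0.6502 0.9258 0.0107 0.03719 0.00007391 0.0000003101 0.008144 0.00002636 0.006732 0.000808 0.986
    hβ hN hx1 hx2 hy1 hy2 (by norm_num) (by norm_num) (by linarith) (by norm_num) (by norm_num) (by norm_num) (by norm_num) (by norm_num) (by norm_num) (by norm_num) (by norm_num) (by norm_num) (by norm_num) (by norm_num) (by norm_num) (by norm_num) (by norm_num) (by norm_num) (by norm_num) (by norm_num) (by norm_num) (by norm_num) (by norm_num) (by norm_num)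
    (cube_sqrt_geJ (s := 0.8516) (by norm_num) (by norm_num) (by norm_num) (by norm_num))
    (cube_sqrt_geJ (s := 0.9482) (by norm_num) (by norm_num) (by norm_num) (by norm_num))
    (by norm_num) (by norm_num) (by norm_num) (by norm_num) (by norm_num) (by norm_num) (by norm_num) (by norm_num) (by norm_num) (by norm_num) (by norm_num) (by norm_num) (by norm_num) (by norm_num) (by norm_num) (by norm_num) (by norm_num) (by norm_num)
    (exp_neg_leJ (r := 0.538) 4 (by norm_num) (by norm_num) (by norm_num) (by norm_num))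
    (exp_neg_leJ (r := 0.292) 3 (by norm_num) (by norm_num) (by norm_num) (by norm_num))
    (exp_neg_leJ (r := 0.513) 9 (by norm_num) (by norm_num) (by norm_num) (by norm_num))
    (exp_neg_leJ (r := 0.99) 14 (by norm_num) (by norm_num) (by norm_num) (by norm_num))
    (exp_neg_leJ (r := 0.812) 4 (by norm_num) (by norm_num) (by norm_num) (by norm_num))
    (exp_neg_leJ (r := 0.544) 10 (by norm_num) (by norm_num) (by norm_num) (by norm_num))
    (exp_neg_leJ (r := 0.001) 5 (by norm_num) (by norm_num) (by norm_num) (by norm_num))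
    (exp_neg_leJ (r := 0.121) 7 (by norm_num) (by norm_num) (by norm_num) (by norm_num))
    (by norm_num)) (by norm_num) hN hβ.le (by norm_num)

private theorem dr16_b0_3 {β x y : ℝ} (hβ : 0 < β) (hN : β * 7.692 ≤ 1) (hx1 : 0.8178 ≤ x) (hx2 : x ≤ 1.0098)
    (hy1 : -0 ≤ y) (hy2 : y ≤ 0.526) : ‖HH β (x + y * I) - 1‖ ≤ 0.13 := by
  refine le_epsJ (C := 0.9415) (N0 := 7.692) (J_boxp 0.8178 1.0098 0 0.526 0.526 1.2859 1.1386 1.8299 0.9277 0.5397 2.7735 7.692 0.8855 3.402 1.495 1.0317 0.6429 0.4531 1.2882 3.4854 0.6985 1.5786 0.9502 0.774 0.00714 0.03066 0.0000499 0.0000003101 0.004646 0.000005331 0.0006702 0.002606 0.9415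
    hβ hN hx1 hx2 hy1 hy2 (by norm_num) (by norm_num) (by linarith) (by norm_num) (by norm_num) (by norm_num) (by norm_num) (by norm_num) (by norm_num) (by norm_num) (by norm_num) (by norm_num) (by norm_num) (by norm_num) (by norm_num) (by norm_num) (by norm_num) (by norm_num) (by norm_num) (by norm_num) (by norm_num) (by norm_num) (by norm_num) (by norm_num)
    (cube_sqrt_geJ (s := 0.8395) (by norm_num) (by norm_num) (by norm_num) (by norm_num))
    (cube_sqrt_geJ (s := 0.9442) (by norm_num) (by norm_num) (by norm_num) (by norm_num))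
    (by norm_num) (by norm_num) (by norm_num) (by norm_num) (by norm_num) (by norm_num) (by norm_num) (by norm_num) (by norm_num) (by norm_num) (by norm_num) (by norm_num) (by norm_num) (by norm_num) (by norm_num) (by norm_num) (by norm_num) (by norm_num)
    (exp_neg_leJ (r := 0.945) 4 (by norm_num) (by norm_num) (by norm_num) (by norm_num))
    (exp_neg_leJ (r := 0.485) 3 (by norm_num) (by norm_num) (by norm_num) (by norm_num))
    (exp_neg_leJ (r := 0.908) 9 (by norm_num) (by norm_num) (by norm_num) (by norm_num))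
    (exp_neg_leJ (r := 0.99) 14 (by norm_num) (by norm_num) (by norm_num) (by norm_num))
    (exp_neg_leJ (r := 0.372) 5 (by norm_num) (by norm_num) (by norm_num) (by norm_num))
    (exp_neg_leJ (r := 0.142) 12 (by norm_num) (by norm_num) (by norm_num) (by norm_num))
    (exp_neg_leJ (r := 0.308) 7 (by norm_num) (by norm_num) (by norm_num) (by norm_num))
    (exp_neg_leJ (r := 0.953) 5 (by norm_num) (by norm_num) (by norm_num) (by norm_num))
    (by norm_num)) (by norm_num) hN hβ.le (by norm_num)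

theorem dr16 {κ t β : ℝ} (h : DomR κ t) (hβ : 0 < β) (hk1 : 1.2 ≤ κ) (hk2 : κ ≤ 1.3)
    (ht1 : 0.7225 ≤ t + κ) (ht2 : t + κ ≤ 1.0839) (hR0 : β * 10 ≤ κ) :
    ∀ s : ℂ, ‖s - sg κ t‖ ≤ 0.1 → ‖HH β s - 1‖ ≤ 0.13 := by
  have hN : β * 7.692 ≤ 1 := bNR hβ h.1 hk2 hR0 (by norm_num)
  have hy1 : 0.304 ≤ sy κ t := syR_ge h 1.2 1.3 0.7225 0.304 1.35526 1.35527 0.31692 0.34334 hk1 hk2 (by linarith) (by norm_num) (by norm_num)
    (expn_ge (by norm_num) (by norm_num)) (expn_le (by norm_num) (by norm_num) (by norm_num)) (by norm_num)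
    (by norm_num) (by norm_num) (by norm_num) (by norm_num) (by norm_num) (by norm_num)
  have hy2 : sy κ t ≤ 0.426 := syR_le h 1.2 1.3 1.0839 0.426 1.53112 0.4912 0.50173 0.54356 hk1 hk2 (by linarith) (by norm_num) (by norm_num)
    (expn_ge (by norm_num) (by norm_num)) (by norm_num) (by norm_num) (Or.inr ((mul_le_mul_of_nonneg_left (expn_le (E := 1.53113) (by norm_num) (by norm_num) (by norm_num)) (by norm_num)).trans (by norm_num))) (by norm_num) (by norm_num) (by norm_num)
  intro s hs
  have hs' : ‖s - ((sx κ t : ℂ) + (sy κ t : ℂ) * I)‖ ≤ 0.1 := hs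
  obtain ⟨es, ⟨s1, s2⟩, ⟨s3, s4⟩⟩ := disc_split hs'
  have hx1 : 0.6578 ≤ sx κ t := sxm_lo h 1.2 0.426 0.65311 0.6578 0.304 hk1 (by linarith) (by linarith) (expm_ge (by norm_num) (by norm_num) (by norm_num) (by norm_num)) (by norm_num) (by norm_num) (by norm_num) (by norm_num)
  have hx2 : sx κ t ≤ 0.9098 := sxm_hi h 1.2 1.3 0.304 0.73787 0.9098 hk1 hk2 (by linarith) (Or.inl (by norm_num)) (expm_le (by norm_num) (by norm_num) (by norm_num)) (by norm_num) (by norm_num) (by norm_num)
  rw [es]
  rcases le_total s.re 0.5878 with d0 | e0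
  · exact dr16_b0_0 hβ hN (by linarith) (by linarith) (by linarith) (by linarith)
  rcases le_total s.re 0.6678 with d1 | e1
  · exact dr16_b0_1 hβ hN (by linarith) (by linarith) (by linarith) (by linarith)
  rcases le_total s.re 0.8178 with d2 | e2
  · exact dr16_b0_2 hβ hN (by linarith) (by linarith) (by linarith) (by linarith)
  exact dr16_b0_3 hβ hN (by linarith) (by linarith) (by linarith) (by linarith)

private theorem dr17_b0_0 {β x y : ℝ} (hβ : 0 < β) (hN : β * 7.194 ≤ 1) (hx1 : 0.6097 ≤ x) (hx2 : x ≤ 0.6597)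
    (hy1 : -0 ≤ y) (hy2 : y ≤ 0.549) : ‖HH β (x + y * I) - 1‖ ≤ 0.1529 := by
  refine le_epsJ (C := 1.0862) (N0 := 7.194) (J_boxp 0.6097 0.6597 0 0.549 0.549 1.1393 0.8583 1.6837 1.0671 0.5177 2.6822 7.194 0.7534 2.752 1.404 1.1663 0.5696 0.4265 1.2169 3.6689 0.5951 1.2882 0.4354 1.0114 0.01663 0.04652 0.0001581 0.0000003101 0.01383 0.0000945 0.04364 0.000692 1.0862
    hβ hN hx1 hx2 hy1 hy2 (by norm_num) (by norm_num) (by linarith) (by norm_num) (by norm_num) (by norm_num) (by norm_num) (by norm_num) (by norm_num) (by norm_num) (by norm_num) (by norm_num) (by norm_num) (by norm_num) (by norm_num) (by norm_num) (by norm_num) (by norm_num) (by norm_num) (by norm_num) (by norm_num) (by norm_num) (by norm_num) (by norm_num)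
    (cube_sqrt_geJ (s := 0.8653) (by norm_num) (by norm_num) (by norm_num) (by norm_num))
    (cube_sqrt_geJ (s := 0.9527) (by norm_num) (by norm_num) (by norm_num) (by norm_num))
    (by norm_num) (by norm_num) (by norm_num) (by norm_num) (by norm_num) (by norm_num) (by norm_num) (by norm_num) (by norm_num) (by norm_num) (by norm_num) (by norm_num) (by norm_num) (by norm_num) (by norm_num) (by norm_num) (by norm_num) (by norm_num)
    (exp_neg_leJ (r := 0.097) 4 (by norm_num) (by norm_num) (by norm_num) (by norm_num))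
    (exp_neg_leJ (r := 0.068) 3 (by norm_num) (by norm_num) (by norm_num) (by norm_num))
    (exp_neg_leJ (r := 0.754) 8 (by norm_num) (by norm_num) (by norm_num) (by norm_num))
    (exp_neg_leJ (r := 0.99) 14 (by norm_num) (by norm_num) (by norm_num) (by norm_num))
    (exp_neg_leJ (r := 0.281) 4 (by norm_num) (by norm_num) (by norm_num) (by norm_num))
    (exp_neg_leJ (r := 0.267) 9 (by norm_num) (by norm_num) (by norm_num) (by norm_num))
    (exp_neg_leJ (r := 0.132) 3 (by norm_num) (by norm_num) (by norm_num) (by norm_num))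
    (exp_neg_leJ (r := 0.276) 7 (by norm_num) (by norm_num) (by norm_num) (by norm_num))
    (by norm_num)) (by norm_num) hN hβ.le (by norm_num)

private theorem dr17_b0_1 {β x y : ℝ} (hβ : 0 < β) (hN : β * 7.194 ≤ 1) (hx1 : 0.6597 ≤ x) (hx2 : x ≤ 0.7897)
    (hy1 : -0 ≤ y) (hy2 : y ≤ 0.549) : ‖HH β (x + y * I) - 1‖ ≤ 0.1529 := by
  refine le_epsJ (C := 1.0994) (N0 := 7.194) (J_boxp 0.6597 0.7897 0 0.549 0.549 1.1745 0.9618 1.7387 1.036 0.5261 2.6822 7.194 0.819 3.053 1.448 1.1163 0.5872 0.4269 1.2341 3.6009 0.6194 1.3574 0.5354 0.83 0.01465 0.04638 0.0001398 0.0000003101 0.01163 0.0000575 0.0213 0.00256 1.0994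
    hβ hN hx1 hx2 hy1 hy2 (by norm_num) (by norm_num) (by linarith) (by norm_num) (by norm_num) (by norm_num) (by norm_num) (by norm_num) (by norm_num) (by norm_num) (by norm_num) (by norm_num) (by norm_num) (by norm_num) (by norm_num) (by norm_num) (by norm_num) (by norm_num) (by norm_num) (by norm_num) (by norm_num) (by norm_num) (by norm_num) (by norm_num)
    (cube_sqrt_geJ (s := 0.8526) (by norm_num) (by norm_num) (by norm_num) (by norm_num))
    (cube_sqrt_geJ (s := 0.9485) (by norm_num) (by norm_num) (by norm_num) (by norm_num))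
    (by norm_num) (by norm_num) (by norm_num) (by norm_num) (by norm_num) (by norm_num) (by norm_num) (by norm_num) (by norm_num) (by norm_num) (by norm_num) (by norm_num) (by norm_num) (by norm_num) (by norm_num) (by norm_num) (by norm_num) (by norm_num)
    (exp_neg_leJ (r := 0.224) 4 (by norm_num) (by norm_num) (by norm_num) (by norm_num))
    (exp_neg_leJ (r := 0.071) 3 (by norm_num) (by norm_num) (by norm_num) (by norm_num))
    (exp_neg_leJ (r := 0.878) 8 (by norm_num) (by norm_num) (by norm_num) (by norm_num))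
    (exp_neg_leJ (r := 0.99) 14 (by norm_num) (by norm_num) (by norm_num) (by norm_num))
    (exp_neg_leJ (r := 0.455) 4 (by norm_num) (by norm_num) (by norm_num) (by norm_num))
    (exp_neg_leJ (r := 0.765) 9 (by norm_num) (by norm_num) (by norm_num) (by norm_num))
    (exp_neg_leJ (r := 0.851) 3 (by norm_num) (by norm_num) (by norm_num) (by norm_num))
    (exp_neg_leJ (r := 0.971) 5 (by norm_num) (by norm_num) (by norm_num) (by norm_num))
    (by norm_num)) (by norm_num) hN hβ.le (by norm_num)

private theorem dr17_b0_2 {β x y : ℝ} (hβ : 0 < β) (hN : β * 7.194 ≤ 1) (hx1 : 0.7897 ≤ x) (hx2 : x ≤ 0.9897)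
    (hy1 : -0 ≤ y) (hy2 : y ≤ 0.549) : ‖HH β (x + y * I) - 1‖ ≤ 0.1529 := by
  refine le_epsJ (C := 1.0846) (N0 := 7.194) (J_boxp 0.7897 0.9897 0 0.549 0.549 1.2661 1.1318 1.8382 0.9517 0.5409 2.6822 7.194 0.894 3.451 1.501 1.0394 0.633 0.4444 1.2786 3.4934 0.6826 1.5374 0.7954 0.6279 0.01054 0.04089 0.0001013 0.0000003101 0.007391 0.00001573 0.003277 0.01093 1.0846
    hβ hN hx1 hx2 hy1 hy2 (by norm_num) (by norm_num) (by linarith) (by norm_num) (by norm_num) (by norm_num) (by norm_num) (by norm_num) (by norm_num) (by norm_num) (by norm_num) (by norm_num) (by norm_num) (by norm_num) (by norm_num) (by norm_num) (by norm_num) (by norm_num) (by norm_num) (by norm_num) (by norm_num) (by norm_num) (by norm_num) (by norm_num)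
    (cube_sqrt_geJ (s := 0.8378) (by norm_num) (by norm_num) (by norm_num) (by norm_num))
    (cube_sqrt_geJ (s := 0.9436) (by norm_num) (by norm_num) (by norm_num) (by norm_num))
    (by norm_num) (by norm_num) (by norm_num) (by norm_num) (by norm_num) (by norm_num) (by norm_num) (by norm_num) (by norm_num) (by norm_num) (by norm_num) (by norm_num) (by norm_num) (by norm_num) (by norm_num) (by norm_num) (by norm_num) (by norm_num)
    (exp_neg_leJ (r := 0.553) 4 (by norm_num) (by norm_num) (by norm_num) (by norm_num))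
    (exp_neg_leJ (r := 0.197) 3 (by norm_num) (by norm_num) (by norm_num) (by norm_num))
    (exp_neg_leJ (r := 0.198) 9 (by norm_num) (by norm_num) (by norm_num) (by norm_num))
    (exp_neg_leJ (r := 0.99) 14 (by norm_num) (by norm_num) (by norm_num) (by norm_num))
    (exp_neg_leJ (r := 0.91) 4 (by norm_num) (by norm_num) (by norm_num) (by norm_num))
    (exp_neg_leJ (r := 0.06) 11 (by norm_num) (by norm_num) (by norm_num) (by norm_num))
    (exp_neg_leJ (r := 0.722) 5 (by norm_num) (by norm_num) (by norm_num) (by norm_num))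
    (exp_neg_leJ (r := 0.517) 4 (by norm_num) (by norm_num) (by norm_num) (by norm_num))
    (by norm_num)) (by norm_num) hN hβ.le (by norm_num)

private theorem dr17_b0_3 {β x y : ℝ} (hβ : 0 < β) (hN : β * 7.194 ≤ 1) (hx1 : 0.9897 ≤ x) (hx2 : x ≤ 1.0954)
    (hy1 : -0 ≤ y) (hy2 : y ≤ 0.549) : ‖HH β (x + y * I) - 1‖ ≤ 0.1529 := by
  refine le_epsJ (C := 0.7962) (N0 := 7.194) (J_boxp 0.9897 1.0954 0 0.549 0.549 1.4069 1.2253 1.8972 0.8254 0.5495 2.6822 7.194 0.871 3.322 1.485 0.9988 0.7034 0.4992 1.347 3.4356 0.7797 1.8143 1.1954 0.7738 0.006346 0.02759 0.00006195 0.0000003101 0.003667 0.000002146 0.0001844 0.003827 0.7962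
    hβ hN hx1 hx2 hy1 hy2 (by norm_num) (by norm_num) (by linarith) (by norm_num) (by norm_num) (by norm_num) (by norm_num) (by norm_num) (by norm_num) (by norm_num) (by norm_num) (by norm_num) (by norm_num) (by norm_num) (by norm_num) (by norm_num) (by norm_num) (by norm_num) (by norm_num) (by norm_num) (by norm_num) (by norm_num) (by norm_num) (by norm_num)
    (cube_sqrt_geJ (s := 0.8424) (by norm_num) (by norm_num) (by norm_num) (by norm_num))
    (cube_sqrt_geJ (s := 0.9451) (by norm_num) (by norm_num) (by norm_num) (by norm_num))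
    (by norm_num) (by norm_num) (by norm_num) (by norm_num) (by norm_num) (by norm_num) (by norm_num) (by norm_num) (by norm_num) (by norm_num) (by norm_num) (by norm_num) (by norm_num) (by norm_num) (by norm_num) (by norm_num) (by norm_num) (by norm_num)
    (exp_neg_leJ (r := 0.06) 5 (by norm_num) (by norm_num) (by norm_num) (by norm_num))
    (exp_neg_leJ (r := 0.591) 3 (by norm_num) (by norm_num) (by norm_num) (by norm_num))
    (exp_neg_leJ (r := 0.69) 9 (by norm_num) (by norm_num) (by norm_num) (by norm_num))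
    (exp_neg_leJ (r := 0.99) 14 (by norm_num) (by norm_num) (by norm_num) (by norm_num))
    (exp_neg_leJ (r := 0.609) 5 (by norm_num) (by norm_num) (by norm_num) (by norm_num))
    (exp_neg_leJ (r := 0.052) 13 (by norm_num) (by norm_num) (by norm_num) (by norm_num))
    (exp_neg_leJ (r := 0.599) 8 (by norm_num) (by norm_num) (by norm_num) (by norm_num))
    (exp_neg_leJ (r := 0.566) 5 (by norm_num) (by norm_num) (by norm_num) (by norm_num))
    (by norm_num)) (by norm_num) hN hβ.le (by norm_num)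

theorem dr17 {κ t β : ℝ} (h : DomR κ t) (hβ : 0 < β) (hk1 : 1.3 ≤ κ) (hk2 : κ ≤ 1.39)
    (ht1 : 0.7225 ≤ t + κ) (ht2 : t + κ ≤ 1.0839) (hR0 : β * 10 ≤ κ) :
    ∀ s : ℂ, ‖s - sg κ t‖ ≤ 0.12 → ‖HH β s - 1‖ ≤ 0.1529 := by
  have hN : β * 7.194 ≤ 1 := bNR hβ h.1 hk2 hR0 (by norm_num)
  have hy1 : 0.307 ≤ sy κ t := syR_ge h 1.3 1.39 0.7225 0.307 1.35934 1.35935 0.30022 0.32102 hk1 hk2 (by linarith) (by norm_num) (by norm_num)
    (expn_ge (by norm_num) (by norm_num)) (expn_le (by norm_num) (by norm_num) (by norm_num)) (by norm_num)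
    (by norm_num) (by norm_num) (by norm_num) (by norm_num) (by norm_num) (by norm_num)
  have hy2 : sy κ t ≤ 0.429 := syR_le h 1.3 1.39 1.0839 0.429 1.53572 0.4712 0.47397 0.5068 hk1 hk2 (by linarith) (by norm_num) (by norm_num)
    (expn_ge (by norm_num) (by norm_num)) (by norm_num) (by norm_num) (Or.inr ((mul_le_mul_of_nonneg_left (expn_le (E := 1.53573) (by norm_num) (by norm_num) (by norm_num)) (by norm_num)).trans (by norm_num))) (by norm_num) (by norm_num) (by norm_num)
  intro s hs
  have hs' : ‖s - ((sx κ t : ℂ) + (sy κ t : ℂ) * I)‖ ≤ 0.12 := hs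
  obtain ⟨es, ⟨s1, s2⟩, ⟨s3, s4⟩⟩ := disc_split hs'
  have hx1 : 0.7297 ≤ sx κ t := sxm_lo h 1.3 0.429 0.65115 0.7297 0.307 hk1 (by linarith) (by linarith) (expm_ge (by norm_num) (by norm_num) (by norm_num) (by norm_num)) (by norm_num) (by norm_num) (by norm_num) (by norm_num)
  have hx2 : sx κ t ≤ 0.9754 := sxm_hi h 1.3 1.39 0.307 0.73566 0.9754 hk1 hk2 (by linarith) (Or.inl (by norm_num)) (expm_le (by norm_num) (by norm_num) (by norm_num)) (by norm_num) (by norm_num) (by norm_num)
  rw [es]
  rcases le_total s.re 0.6597 with d0 | e0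
  · exact dr17_b0_0 hβ hN (by linarith) (by linarith) (by linarith) (by linarith)
  rcases le_total s.re 0.7897 with d1 | e1
  · exact dr17_b0_1 hβ hN (by linarith) (by linarith) (by linarith) (by linarith)
  rcases le_total s.re 0.9897 with d2 | e2
  · exact dr17_b0_2 hβ hN (by linarith) (by linarith) (by linarith) (by linarith)
  exact dr17_b0_3 hβ hN (by linarith) (by linarith) (by linarith) (by linarith)

end Sok.B4
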