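import Pool.Agent.Lib.MP_816dec_an.R1B4T
import Pool.Agent.Lib.MP_816dec_an.R1B4Jg
import Pool.Agent.Lib.MP_816dec_an.R1B4Jh

/-!
MP_816dec_an (A3, row R1, b = 4): slopes.
-/

set_option autoImplicit false
set_option maxHeartbeats 4000000

open Complex Set Filter Topology

namespace Sok.B4

private theorem yl15 {κ t : ℝ} (h : DomR κ t) (hk1 : 1 ≤ κ) (hk2 : κ ≤ 1.1) (ht1 : (-0.8483) ≤ t + κ)
    (ht2 : t + κ ≤ (-0.5026)) : -0.483 ≤ sy κ t ∧ sy κ t ≤ -0.269 := by
  have hy1 : -0.483 ≤ sy κ t := syL_ge h 1 1.1 0.8483 0.483 0.61692 0.61694 0.2866 0.27088 0.29799 hk1 hk2 (by linarith) (by norm_num) (by norm_num) (by norm_num)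
    (expm_ge (by norm_num) (by norm_num) (by norm_num) (by norm_num)) (expm_le (by norm_num) (by norm_num) (by norm_num)) (by norm_num)
    (by norm_num) (by norm_num) (by norm_num) (by norm_num) (by norm_num) (by norm_num)
  have hy2 : sy κ t ≤ -0.269 := syL_le h 1 1.1 0.5026 0.269 0.76414 0.76415 0.18686 0.20556 hk1 hk2 (by linarith) (by norm_num) (by norm_num) (by norm_num)
    (expm_ge (by norm_num) (by norm_num) (by norm_num) (by norm_num)) (expm_le (by norm_num) (by norm_num) (by norm_num)) (by norm_num)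
    (by norm_num) (by norm_num) (by norm_num) (by norm_num) (by norm_num) (by norm_num)
  exact ⟨hy1, hy2⟩

private theorem yr15 {κ t : ℝ} (h : DomR κ t) (hk1 : 1 ≤ κ) (hk2 : κ ≤ 1.1) (ht1 : 0.7225 ≤ t + κ)
    (ht2 : t + κ ≤ 1.0682) : 0.293 ≤ sy κ t ∧ sy κ t ≤ 0.406 := by
  have hy1 : 0.293 ≤ sy κ t := syR_ge h 1 1.1 0.7225 0.293 1.34044 1.34045 0.35704 0.39276 hk1 hk2 (by linarith) (by norm_num) (by norm_num)
    (expn_ge (by norm_num) (by norm_num)) (expn_le (by norm_num) (by norm_num) (by norm_num)) (by norm_num)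
    (by norm_num) (by norm_num) (by norm_num) (by norm_num) (by norm_num) (by norm_num)
  have hy2 : sy κ t ≤ 0.406 := syR_le h 1 1.1 1.0682 0.406 1.5008 0.54 0.55393 0.60933 hk1 hk2 (by linarith) (by norm_num) (by norm_num)
    (expn_ge (by norm_num) (by norm_num)) (by norm_num) (by norm_num) (Or.inr ((mul_le_mul_of_nonneg_left (expn_le (E := 1.50081) (by norm_num) (by norm_num) (by norm_num)) (by norm_num)).trans (by norm_num))) (by norm_num) (by norm_num) (by norm_num)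
  exact ⟨hy1, hy2⟩

private theorem mm15 {κ t : ℝ} (d1 : DomR κ t) (d0 : DomR κ (t - Real.pi / 2)) (hk1 : 1 ≤ κ) (hk2 : κ ≤ 1.1)
    (ht1 : 0.7225 ≤ t + κ) (ht2 : t + κ ≤ 1.0682) : 0.5772 ≤ sp κ t - sp κ (t - Real.pi / 2) := by
  have hpi := Real.pi_gt_d6
  have hpi2 := Real.pi_lt_d6
  have hχ := chi_box (κ := κ) 1 1 1.1 0.5001 d1.1.le hk1 hk2 (by norm_num) (by norm_num) (by norm_num) (by norm_num) (by norm_num)
  have hμ := mu_box (κ := κ) 0.9999 1 1.1 0.1459 hk1 hk2 (by norm_num) (by norm_num) (by norm_num) (by norm_num) (by norm_num) (by norm_num)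
  rcases le_total (t + κ) 0.838 with f0 | g0
  · refine M_piece (κ := κ) (t := t) 1.1 0.783 0.983 0.7225 0.838 0.5772 d1.1.le hk2 ?_ ?_ (by linarith) (by linarith) (by norm_num) (by norm_num) (by norm_num) (by norm_num)
    · exact spR_ge_box d1 0.783 1 (1 / (1 + 1 ^ 2)) 0.5001 0.1459 0.838 _ _ _ (by linarith) (by linarith) hk1 (psi_hi hk1 (by norm_num)) hχ hμ (by norm_num) (by norm_num) (by norm_num)
        rfl (by norm_num) rfl rfl (by norm_num) (by norm_num)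
    · exact spL_ge_box d0 0.983 1 1.1 (1 / (1 + 1 ^ 2)) 0.8483 _ _ (by linarith) (by linarith) hk1 hk2 (psi_hi hk1 (by norm_num)) (by norm_num) (by norm_num)
        rfl (by norm_num) rfl (by norm_num) (by norm_num) (by norm_num)
  rcases le_total (t + κ) 0.953 with f1 | g1
  · refine M_piece (κ := κ) (t := t) 1.1 0.755 0.987 0.837 0.953 0.5772 d1.1.le hk2 ?_ ?_ (by linarith) (by linarith) (by norm_num) (by norm_num) (by norm_num) (by norm_num)
    · exact spR_ge_box d1 0.755 1 (1 / (1 + 1 ^ 2)) 0.5001 0.1459 0.953 _ _ _ (by linarith) (by linarith) hk1 (psi_hi hk1 (by norm_num)) hχ hμ (by norm_num) (by norm_num) (by norm_num)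
        rfl (by norm_num) rfl rfl (by norm_num) (by norm_num)
    · exact spL_ge_box d0 0.987 1 1.1 (1 / (1 + 1 ^ 2)) 0.7338 _ _ (by linarith) (by linarith) hk1 hk2 (psi_hi hk1 (by norm_num)) (by norm_num) (by norm_num)
        rfl (by norm_num) rfl (by norm_num) (by norm_num) (by norm_num)
  refine M_piece (κ := κ) (t := t) 1.1 0.728 0.991 0.952 1.0682 0.5772 d1.1.le hk2 ?_ ?_ (by linarith) (by linarith) (by norm_num) (by norm_num) (by norm_num) (by norm_num)
  · exact spR_ge_box d1 0.728 1 (1 / (1 + 1 ^ 2)) 0.5001 0.1459 1.0682 _ _ _ (by linarith) (by linarith) hk1 (psi_hi hk1 (by norm_num)) hχ hμ (by norm_num) (by norm_num) (by norm_num)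
      rfl (by norm_num) rfl rfl (by norm_num) (by norm_num)
  · exact spL_ge_box d0 0.991 1 1.1 (1 / (1 + 1 ^ 2)) 0.6188 _ _ (by linarith) (by linarith) hk1 hk2 (psi_hi hk1 (by norm_num)) (by norm_num) (by norm_num)
      rfl (by norm_num) rfl (by norm_num) (by norm_num) (by norm_num)

theorem slp15 {β r κ t : ℝ} (hβ : 0 < β) (hr : 10 ≤ r) (hκ : κ = β * r) (hk1 : 1 ≤ κ) (hk2 : κ ≤ 1.1)
    (ht1 : 0.46 * (Real.pi / 2) ≤ t + κ) (ht2 : t + κ ≤ 0.68 * (Real.pi / 2)) : SL β r 1.9352 0.8442 0.2326 t := by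
  have hpi := Real.pi_gt_d6
  have hpi2 := Real.pi_lt_d6
  have he1 := Real.exp_neg_one_lt_d9
  have hR0 : β * 10 ≤ κ := by rw [hκ]; exact mul_le_mul_of_nonneg_left hr hβ.le
  have hk0 : 0 < κ := by linarith
  have d1 : DomR κ t := ⟨hk0, by linarith, Or.inl (by linarith)⟩
  have d0 : DomR κ (t - Real.pi / 2) := ⟨hk0, by linarith, Or.inl (by linarith)⟩
  have a1 : 0.7225 ≤ t + κ := by linarith
  have a2 : t + κ ≤ 1.0682 := by linarith
  have b1 : (-0.8483) ≤ t - Real.pi / 2 + κ := by linarith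
  have b2 : t - Real.pi / 2 + κ ≤ (-0.5026) := by linarith
  have Jl := dl14 d0 hβ hk1 hk2 (by linarith) (by linarith) hR0
  have Jr := dr14 d1 hβ hk1 hk2 (by linarith) (by linarith) hR0
  obtain ⟨y1, y2⟩ := yl15 d0 hk1 hk2 b1 b2
  obtain ⟨z1, z2⟩ := yr15 d1 hk1 hk2 a1 a2
  have hM := mm15 d1 d0 hk1 hk2 a1 a2
  have hE0 : Real.exp (-(-0.483)) ≤ 1.62093 := by rw [neg_neg]; exact (expn_le (by norm_num) (by norm_num) (by norm_num))
  have hEr : Real.exp (-0.293) ≤ 0.74603 := (expm_le (by norm_num) (by norm_num) (by norm_num))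
  have hA0 := A_lt d0 1.1 (-0.483) 1.62093 0.995 hk2 y1 hE0 (by norm_num) (by norm_num) (by norm_num)
  have hA1 := A_lt d1 1.1 0.293 0.74603 0.546 hk2 z1 hEr (by norm_num) (by norm_num) (by norm_num)
  have hd0 : 2 ≤ sD κ (t - Real.pi / 2) := sD_ge1 d0 1 _ hk1 (by norm_num) (by linarith) (by norm_num)
  have hd1 : 1.7739 ≤ sD κ t := sD_geR' d1 1 0.293 0.406 _ hk1 (by norm_num) z1 z2 (by norm_num) (by norm_num)
  have F0 := LD_facts (t := t - Real.pi / 2) 0.14 0.275 0.995 2.7094 0.4458 (-0.483) 1.62093 1.9352 hβ hr hκ d0 (fun s hs => ⟨im_gt hs y1 (by norm_num), Jl s hs⟩) hA0 y1 hE0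
    (C_of 1.1 1.62093 0.4458 2 hk2 (by norm_num) hd0 (by norm_num) (by norm_num)) (by norm_num) (by norm_num) (by norm_num) (by norm_num) (by norm_num) (by norm_num) (by norm_num)
  have z0 : -0 ≤ sy κ t := by linarith
  have F1 := LD_facts (t := t) 0.08 0.099 0.546 1.3735 0.2314 0.293 0.74603 0.8442 hβ hr hκ d1 (fun s hs => ⟨im_gt hs z0 (by norm_num), Jr s hs⟩) hA1 z1 hEr
    (C_of 1.1 0.74603 0.2314 1.7739 hk2 (by norm_num) hd1 (by norm_num) (by norm_num)) (by norm_num) (by norm_num) (by norm_num) (by norm_num) (by norm_num) (by norm_num) (by norm_num)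
  have hEl : 1.30865 ≤ Real.exp (-(-0.269)) := by rw [neg_neg]; exact (expn_ge (by norm_num) (by norm_num))
  have hN := N_ge (κ := κ) (t := t - Real.pi / 2) 1 (-0.269) 1.30865 1 (by norm_num) hk1 y2 hEl (by norm_num) (by norm_num)
  have hx0 : sx κ (t - Real.pi / 2) ≤ 1.7627 := sx_hi d0 1.1 (-0.483) 0.269 1.62093 _ hk2 y1 (by norm_num) (by rw [abs_of_nonpos (by linarith)]; linarith) hE0 (by norm_num) (by norm_num)
  have hG0 := gs_le d0 1 1.7627 2 0 hN (by norm_num) hx0 hd0 (by norm_num) (by norm_num) (by norm_num)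
  have hN2 := N_le (κ := κ) (t := t) 1.1 0.293 0.74603 1 hk0.le hk2 z1 hEr (by norm_num)
  have hG1 := gs_ge d1 1 1.7739 0.00001 hN2 (by norm_num) (by norm_num) hd1 (by norm_num) (by norm_num) (by norm_num)
  exact SL_of (κ := κ) 2.6959 0.75 0 (-0.00001) 0.5772 1.9352 0.8442 0.2326 hr ⟨F0.1, F0.2.1, F0.2.2.trans (by norm_num)⟩ ⟨F1.1, F1.2.1, F1.2.2.trans (by norm_num)⟩ hG0 hG1 hM
    (by norm_num) (by norm_num)

private theorem yl16 {κ t : ℝ} (h : DomR κ t) (hk1 : 1.1 ≤ κ) (hk2 : κ ≤ 1.2) (ht1 : (-0.8483) ≤ t + κ)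
    (ht2 : t + κ ≤ (-0.5026)) : -0.461 ≤ sy κ t ∧ sy κ t ≤ -0.26 := by
  have hy1 : -0.461 ≤ sy κ t := syL_ge h 1.1 1.2 0.8483 0.461 0.63065 0.63066 0.2514 0.24227 0.26431 hk1 hk2 (by linarith) (by norm_num) (by norm_num) (by norm_num)
    (expm_ge (by norm_num) (by norm_num) (by norm_num) (by norm_num)) (expm_le (by norm_num) (by norm_num) (by norm_num)) (by norm_num)
    (by norm_num) (by norm_num) (by norm_num) (by norm_num) (by norm_num) (by norm_num)
  have hy2 : sy κ t ≤ -0.26 := syL_le h 1.1 1.2 0.5026 0.26 0.77105 0.77106 0.16706 0.18226 hk1 hk2 (by linarith) (by norm_num) (by norm_num) (by norm_num)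
    (expm_ge (by norm_num) (by norm_num) (by norm_num) (by norm_num)) (expm_le (by norm_num) (by norm_num) (by norm_num)) (by norm_num)
    (by norm_num) (by norm_num) (by norm_num) (by norm_num) (by norm_num) (by norm_num)
  exact ⟨hy1, hy2⟩

private theorem yr16 {κ t : ℝ} (h : DomR κ t) (hk1 : 1.1 ≤ κ) (hk2 : κ ≤ 1.2) (ht1 : 0.7225 ≤ t + κ)
    (ht2 : t + κ ≤ 1.0682) : 0.3 ≤ sy κ t ∧ sy κ t ≤ 0.415 := by
  have hy1 : 0.3 ≤ sy κ t := syR_ge h 1.1 1.2 0.7225 0.3 1.34985 1.34986 0.33746 0.36815 hk1 hk2 (by linarith) (by norm_num) (by norm_num)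
    (expn_ge (by norm_num) (by norm_num)) (expn_le (by norm_num) (by norm_num) (by norm_num)) (by norm_num)
    (by norm_num) (by norm_num) (by norm_num) (by norm_num) (by norm_num) (by norm_num)
  have hy2 : sy κ t ≤ 0.415 := syR_le h 1.1 1.2 1.0682 0.415 1.51437 0.5118 0.52371 0.57134 hk1 hk2 (by linarith) (by norm_num) (by norm_num)
    (expn_ge (by norm_num) (by norm_num)) (by norm_num) (by norm_num) (Or.inr ((mul_le_mul_of_nonneg_left (expn_le (E := 1.51438) (by norm_num) (by norm_num) (by norm_num)) (by norm_num)).trans (by norm_num))) (by norm_num) (by norm_num) (by norm_num)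
  exact ⟨hy1, hy2⟩

private theorem mm16 {κ t : ℝ} (d1 : DomR κ t) (d0 : DomR κ (t - Real.pi / 2)) (hk1 : 1.1 ≤ κ) (hk2 : κ ≤ 1.2)
    (ht1 : 0.7225 ≤ t + κ) (ht2 : t + κ ≤ 1.0682) : 0.5341 ≤ sp κ t - sp κ (t - Real.pi / 2) := by
  have hpi := Real.pi_gt_d6
  have hpi2 := Real.pi_lt_d6
  have hχ := chi_box (κ := κ) 1.1 1.1 1.2 0.4032 d1.1.le hk1 hk2 (by norm_num) (by norm_num) (by norm_num) (by norm_num) (by norm_num)
  have hμ := mu_box (κ := κ) 1.2099 1.1 1.2 0.1348 hk1 hk2 (by norm_num) (by norm_num) (by norm_num) (by norm_num) (by norm_num) (by norm_num)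
  rcases le_total (t + κ) 0.838 with f0 | g0
  · refine M_piece (κ := κ) (t := t) 1.2 0.807 0.987 0.7225 0.838 0.5341 d1.1.le hk2 ?_ ?_ (by linarith) (by linarith) (by norm_num) (by norm_num) (by norm_num) (by norm_num)
    · exact spR_ge_box d1 0.807 1.1 (1.1 / (1 + 1.1 ^ 2)) 0.4032 0.1348 0.838 _ _ _ (by linarith) (by linarith) hk1 (psi_hi hk1 (by norm_num)) hχ hμ (by norm_num) (by norm_num) (by norm_num)
        rfl (by norm_num) rfl rfl (by norm_num) (by norm_num)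
    · exact spL_ge_box d0 0.987 1.1 1.2 (1.1 / (1 + 1.1 ^ 2)) 0.8483 _ _ (by linarith) (by linarith) hk1 hk2 (psi_hi hk1 (by norm_num)) (by norm_num) (by norm_num)
        rfl (by norm_num) rfl (by norm_num) (by norm_num) (by norm_num)
  rcases le_total (t + κ) 0.953 with f1 | g1
  · refine M_piece (κ := κ) (t := t) 1.2 0.78 0.991 0.837 0.953 0.5341 d1.1.le hk2 ?_ ?_ (by linarith) (by linarith) (by norm_num) (by norm_num) (by norm_num) (by norm_num)
    · exact spR_ge_box d1 0.78 1.1 (1.1 / (1 + 1.1 ^ 2)) 0.4032 0.1348 0.953 _ _ _ (by linarith) (by linarith) hk1 (psi_hi hk1 (by norm_num)) hχ hμ (by norm_num) (by norm_num) (by norm_num)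
        rfl (by norm_num) rfl rfl (by norm_num) (by norm_num)
    · exact spL_ge_box d0 0.991 1.1 1.2 (1.1 / (1 + 1.1 ^ 2)) 0.7338 _ _ (by linarith) (by linarith) hk1 hk2 (psi_hi hk1 (by norm_num)) (by norm_num) (by norm_num)
        rfl (by norm_num) rfl (by norm_num) (by norm_num) (by norm_num)
  refine M_piece (κ := κ) (t := t) 1.2 0.753 0.993 0.952 1.0682 0.5341 d1.1.le hk2 ?_ ?_ (by linarith) (by linarith) (by norm_num) (by norm_num) (by norm_num) (by norm_num)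
  · exact spR_ge_box d1 0.753 1.1 (1.1 / (1 + 1.1 ^ 2)) 0.4032 0.1348 1.0682 _ _ _ (by linarith) (by linarith) hk1 (psi_hi hk1 (by norm_num)) hχ hμ (by norm_num) (by norm_num) (by norm_num)
      rfl (by norm_num) rfl rfl (by norm_num) (by norm_num)
  · exact spL_ge_box d0 0.993 1.1 1.2 (1.1 / (1 + 1.1 ^ 2)) 0.6188 _ _ (by linarith) (by linarith) hk1 hk2 (psi_hi hk1 (by norm_num)) (by norm_num) (by norm_num)
      rfl (by norm_num) rfl (by norm_num) (by norm_num) (by norm_num)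

theorem slp16 {β r κ t : ℝ} (hβ : 0 < β) (hr : 10 ≤ r) (hκ : κ = β * r) (hk1 : 1.1 ≤ κ) (hk2 : κ ≤ 1.2)
    (ht1 : 0.46 * (Real.pi / 2) ≤ t + κ) (ht2 : t + κ ≤ 0.68 * (Real.pi / 2)) : SL β r 1.8824 0.844 0.2018 t := by
  have hpi := Real.pi_gt_d6
  have hpi2 := Real.pi_lt_d6
  have he1 := Real.exp_neg_one_lt_d9
  have hR0 : β * 10 ≤ κ := by rw [hκ]; exact mul_le_mul_of_nonneg_left hr hβ.le
  have hk0 : 0 < κ := by linarith
  have d1 : DomR κ t := ⟨hk0, by linarith, Or.inl (by linarith)⟩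
  have d0 : DomR κ (t - Real.pi / 2) := ⟨hk0, by linarith, Or.inl (by linarith)⟩
  have a1 : 0.7225 ≤ t + κ := by linarith
  have a2 : t + κ ≤ 1.0682 := by linarith
  have b1 : (-0.8483) ≤ t - Real.pi / 2 + κ := by linarith
  have b2 : t - Real.pi / 2 + κ ≤ (-0.5026) := by linarith
  have Jl := dl15 d0 hβ hk1 hk2 (by linarith) (by linarith) hR0
  have Jr := dr15 d1 hβ hk1 hk2 (by linarith) (by linarith) hR0
  obtain ⟨y1, y2⟩ := yl16 d0 hk1 hk2 b1 b2
  obtain ⟨z1, z2⟩ := yr16 d1 hk1 hk2 a1 a2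
  have hM := mm16 d1 d0 hk1 hk2 a1 a2
  have hE0 : Real.exp (-(-0.461)) ≤ 1.58566 := by rw [neg_neg]; exact (expn_le (by norm_num) (by norm_num) (by norm_num))
  have hEr : Real.exp (-0.3) ≤ 0.74082 := (expm_le (by norm_num) (by norm_num) (by norm_num))
  have hA0 := A_lt d0 1.2 (-0.461) 1.58566 0.99 hk2 y1 hE0 (by norm_num) (by norm_num) (by norm_num)
  have hA1 := A_lt d1 1.2 0.3 0.74082 0.576 hk2 z1 hEr (by norm_num) (by norm_num) (by norm_num)
  have hd0 : 2.21 ≤ sD κ (t - Real.pi / 2) := sD_ge1 d0 1.1 _ hk1 (by norm_num) (by linarith) (by norm_num)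
  have hd1 : 1.8056 ≤ sD κ t := sD_geR' d1 1.1 0.3 0.415 _ hk1 (by norm_num) z1 z2 (by norm_num) (by norm_num)
  have F0 := LD_facts (t := t - Real.pi / 2) 0.14 0.264 0.99 2.5622 0.4305 (-0.461) 1.58566 1.8824 hβ hr hκ d0 (fun s hs => ⟨im_gt hs y1 (by norm_num), Jl s hs⟩) hA0 y1 hE0
    (C_of 1.2 1.58566 0.4305 2.21 hk2 (by norm_num) hd0 (by norm_num) (by norm_num)) (by norm_num) (by norm_num) (by norm_num) (by norm_num) (by norm_num) (by norm_num) (by norm_num)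
  have z0 : -0 ≤ sy κ t := by linarith
  have F1 := LD_facts (t := t) 0.1 0.12 0.576 1.3637 0.2462 0.3 0.74082 0.844 hβ hr hκ d1 (fun s hs => ⟨im_gt hs z0 (by norm_num), Jr s hs⟩) hA1 z1 hEr
    (C_of 1.2 0.74082 0.2462 1.8056 hk2 (by norm_num) hd1 (by norm_num) (by norm_num)) (by norm_num) (by norm_num) (by norm_num) (by norm_num) (by norm_num) (by norm_num) (by norm_num)
  have hEl : 1.29693 ≤ Real.exp (-(-0.26)) := by rw [neg_neg]; exact (expn_ge (by norm_num) (by norm_num))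
  have hN := N_ge (κ := κ) (t := t - Real.pi / 2) 1.1 (-0.26) 1.29693 1 (by norm_num) hk1 y2 hEl (by norm_num) (by norm_num)
  have hx0 : sx κ (t - Real.pi / 2) ≤ 1.885 := sx_hi d0 1.2 (-0.461) 0.26 1.58566 _ hk2 y1 (by norm_num) (by rw [abs_of_nonpos (by linarith)]; linarith) hE0 (by norm_num) (by norm_num)
  have hG0 := gs_le d0 1 1.885 2.21 0 hN (by norm_num) hx0 hd0 (by norm_num) (by norm_num) (by norm_num)
  have hN2 := N_le (κ := κ) (t := t) 1.2 0.3 0.74082 1 hk0.le hk2 z1 hEr (by norm_num)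
  have hG1 := gs_ge d1 1 1.8056 0.00001 hN2 (by norm_num) (by norm_num) hd1 (by norm_num) (by norm_num) (by norm_num)
  exact SL_of (κ := κ) 2.5366 0.7855 0 (-0.00001) 0.5341 1.8824 0.844 0.2018 hr ⟨F0.1, F0.2.1, F0.2.2.trans (by norm_num)⟩ ⟨F1.1, F1.2.1, F1.2.2.trans (by norm_num)⟩ hG0 hG1 hM
    (by norm_num) (by norm_num)

private theorem yl17 {κ t : ℝ} (h : DomR κ t) (hk1 : 1.2 ≤ κ) (hk2 : κ ≤ 1.3) (ht1 : (-0.8483) ≤ t + κ)
    (ht2 : t + κ ≤ (-0.4869)) : -0.44 ≤ sy κ t ∧ sy κ t ≤ -0.243 := by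
  have hy1 : -0.44 ≤ sy κ t := syL_ge h 1.2 1.3 0.8483 0.44 0.64403 0.64404 0.23 0.21797 0.23615 hk1 hk2 (by linarith) (by norm_num) (by norm_num) (by norm_num)
    (expm_ge (by norm_num) (by norm_num) (by norm_num) (by norm_num)) (expm_le (by norm_num) (by norm_num) (by norm_num)) (by norm_num)
    (by norm_num) (by norm_num) (by norm_num) (by norm_num) (by norm_num) (by norm_num)
  have hy2 : sy κ t ≤ -0.243 := syL_le h 1.2 1.3 0.4869 0.243 0.78427 0.78428 0.14659 0.15882 hk1 hk2 (by linarith) (by norm_num) (by norm_num) (by norm_num)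
    (expm_ge (by norm_num) (by norm_num) (by norm_num) (by norm_num)) (expm_le (by norm_num) (by norm_num) (by norm_num)) (by norm_num)
    (by norm_num) (by norm_num) (by norm_num) (by norm_num) (by norm_num) (by norm_num)
  exact ⟨hy1, hy2⟩

private theorem yr17 {κ t : ℝ} (h : DomR κ t) (hk1 : 1.2 ≤ κ) (hk2 : κ ≤ 1.3) (ht1 : 0.7225 ≤ t + κ)
    (ht2 : t + κ ≤ 1.0839) : 0.304 ≤ sy κ t ∧ sy κ t ≤ 0.426 := by
  have hy1 : 0.304 ≤ sy κ t := syR_ge h 1.2 1.3 0.7225 0.304 1.35526 1.35527 0.31692 0.34334 hk1 hk2 (by linarith) (by norm_num) (by norm_num)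
    (expn_ge (by norm_num) (by norm_num)) (expn_le (by norm_num) (by norm_num) (by norm_num)) (by norm_num)
    (by norm_num) (by norm_num) (by norm_num) (by norm_num) (by norm_num) (by norm_num)
  have hy2 : sy κ t ≤ 0.426 := syR_le h 1.2 1.3 1.0839 0.426 1.53112 0.4912 0.50173 0.54356 hk1 hk2 (by linarith) (by norm_num) (by norm_num)
    (expn_ge (by norm_num) (by norm_num)) (by norm_num) (by norm_num) (Or.inr ((mul_le_mul_of_nonneg_left (expn_le (E := 1.53113) (by norm_num) (by norm_num) (by norm_num)) (by norm_num)).trans (by norm_num))) (by norm_num) (by norm_num) (by norm_num)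
  exact ⟨hy1, hy2⟩

private theorem mm17 {κ t : ℝ} (d1 : DomR κ t) (d0 : DomR κ (t - Real.pi / 2)) (hk1 : 1.2 ≤ κ) (hk2 : κ ≤ 1.3)
    (ht1 : 0.7225 ≤ t + κ) (ht2 : t + κ ≤ 1.0839) : 0.4927 ≤ sp κ t - sp κ (t - Real.pi / 2) := by
  have hpi := Real.pi_gt_d6
  have hpi2 := Real.pi_lt_d6
  have hχ := chi_box (κ := κ) 1.2 1.2 1.3 0.3145 d1.1.le hk1 hk2 (by norm_num) (by norm_num) (by norm_num) (by norm_num) (by norm_num)
  have hμ := mu_box (κ := κ) 1.4399 1.2 1.3 0.123 hk1 hk2 (by norm_num) (by norm_num) (by norm_num) (by norm_num) (by norm_num) (by norm_num)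
  rcases le_total (t + κ) 0.843 with f0 | g0
  · refine M_piece (κ := κ) (t := t) 1.3 0.829 0.99 0.7225 0.843 0.4927 d1.1.le hk2 ?_ ?_ (by linarith) (by linarith) (by norm_num) (by norm_num) (by norm_num) (by norm_num)
    · exact spR_ge_box d1 0.829 1.2 (1.2 / (1 + 1.2 ^ 2)) 0.3145 0.123 0.843 _ _ _ (by linarith) (by linarith) hk1 (psi_hi hk1 (by norm_num)) hχ hμ (by norm_num) (by norm_num) (by norm_num)
        rfl (by norm_num) rfl rfl (by norm_num) (by norm_num)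
    · exact spL_ge_box d0 0.99 1.2 1.3 (1.2 / (1 + 1.2 ^ 2)) 0.8483 _ _ (by linarith) (by linarith) hk1 hk2 (psi_hi hk1 (by norm_num)) (by norm_num) (by norm_num)
        rfl (by norm_num) rfl (by norm_num) (by norm_num) (by norm_num)
  rcases le_total (t + κ) 0.964 with f1 | g1
  · refine M_piece (κ := κ) (t := t) 1.3 0.803 0.993 0.842 0.964 0.4927 d1.1.le hk2 ?_ ?_ (by linarith) (by linarith) (by norm_num) (by norm_num) (by norm_num) (by norm_num)
    · exact spR_ge_box d1 0.803 1.2 (1.2 / (1 + 1.2 ^ 2)) 0.3145 0.123 0.964 _ _ _ (by linarith) (by linarith) hk1 (psi_hi hk1 (by norm_num)) hχ hμ (by norm_num) (by norm_num) (by norm_num)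
        rfl (by norm_num) rfl rfl (by norm_num) (by norm_num)
    · exact spL_ge_box d0 0.993 1.2 1.3 (1.2 / (1 + 1.2 ^ 2)) 0.7288 _ _ (by linarith) (by linarith) hk1 hk2 (psi_hi hk1 (by norm_num)) (by norm_num) (by norm_num)
        rfl (by norm_num) rfl (by norm_num) (by norm_num) (by norm_num)
  refine M_piece (κ := κ) (t := t) 1.3 0.776 0.995 0.963 1.0839 0.4927 d1.1.le hk2 ?_ ?_ (by linarith) (by linarith) (by norm_num) (by norm_num) (by norm_num) (by norm_num)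
  · exact spR_ge_box d1 0.776 1.2 (1.2 / (1 + 1.2 ^ 2)) 0.3145 0.123 1.0839 _ _ _ (by linarith) (by linarith) hk1 (psi_hi hk1 (by norm_num)) hχ hμ (by norm_num) (by norm_num) (by norm_num)
      rfl (by norm_num) rfl rfl (by norm_num) (by norm_num)
  · exact spL_ge_box d0 0.995 1.2 1.3 (1.2 / (1 + 1.2 ^ 2)) 0.6078 _ _ (by linarith) (by linarith) hk1 hk2 (psi_hi hk1 (by norm_num)) (by norm_num) (by norm_num)
      rfl (by norm_num) rfl (by norm_num) (by norm_num) (by norm_num)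

theorem slp17 {β r κ t : ℝ} (hβ : 0 < β) (hr : 10 ≤ r) (hκ : κ = β * r) (hk1 : 1.2 ≤ κ) (hk2 : κ ≤ 1.3)
    (ht1 : 0.46 * (Real.pi / 2) ≤ t + κ) (ht2 : t + κ ≤ 0.69 * (Real.pi / 2)) : SL β r 1.8416 0.8545 0.1549 t := by
  have hpi := Real.pi_gt_d6
  have hpi2 := Real.pi_lt_d6
  have he1 := Real.exp_neg_one_lt_d9
  have hR0 : β * 10 ≤ κ := by rw [hκ]; exact mul_le_mul_of_nonneg_left hr hβ.le
  have hk0 : 0 < κ := by linarith
  have d1 : DomR κ t := ⟨hk0, by linarith, Or.inl (by linarith)⟩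
  have d0 : DomR κ (t - Real.pi / 2) := ⟨hk0, by linarith, Or.inl (by linarith)⟩
  have a1 : 0.7225 ≤ t + κ := by linarith
  have a2 : t + κ ≤ 1.0839 := by linarith
  have b1 : (-0.8483) ≤ t - Real.pi / 2 + κ := by linarith
  have b2 : t - Real.pi / 2 + κ ≤ (-0.4869) := by linarith
  have Jl := dl16 d0 hβ hk1 hk2 (by linarith) (by linarith) hR0
  have Jr := dr16 d1 hβ hk1 hk2 (by linarith) (by linarith) hR0
  obtain ⟨y1, y2⟩ := yl17 d0 hk1 hk2 b1 b2
  obtain ⟨z1, z2⟩ := yr17 d1 hk1 hk2 a1 a2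
  have hM := mm17 d1 d0 hk1 hk2 a1 a2
  have hE0 : Real.exp (-(-0.44)) ≤ 1.55271 := by rw [neg_neg]; exact (expn_le (by norm_num) (by norm_num) (by norm_num))
  have hEr : Real.exp (-0.304) ≤ 0.73787 := (expm_le (by norm_num) (by norm_num) (by norm_num))
  have hA0 := A_lt d0 1.3 (-0.44) 1.55271 0.986 hk2 y1 hE0 (by norm_num) (by norm_num) (by norm_num)
  have hA1 := A_lt d1 1.3 0.304 0.73787 0.604 hk2 z1 hEr (by norm_num) (by norm_num) (by norm_num)
  have hd0 : 2.44 ≤ sD κ (t - Real.pi / 2) := sD_ge1 d0 1.2 _ hk1 (by norm_num) (by linarith) (by norm_num)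
  have hd1 : 1.8211 ≤ sD κ t := sD_geR' d1 1.2 0.304 0.426 _ hk1 (by norm_num) z1 z2 (by norm_num) (by norm_num)
  have F0 := LD_facts (t := t - Real.pi / 2) 0.14 0.26 0.986 2.5097 0.4137 (-0.44) 1.55271 1.8416 hβ hr hκ d0 (fun s hs => ⟨im_gt hs y1 (by norm_num), Jl s hs⟩) hA0 y1 hE0
    (C_of 1.3 1.55271 0.4137 2.44 hk2 (by norm_num) hd0 (by norm_num) (by norm_num)) (by norm_num) (by norm_num) (by norm_num) (by norm_num) (by norm_num) (by norm_num) (by norm_num)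
  have z0 : -0 ≤ sy κ t := by linarith
  have F1 := LD_facts (t := t) 0.1 0.13 0.604 1.4943 0.2634 0.304 0.73787 0.8545 hβ hr hκ d1 (fun s hs => ⟨im_gt hs z0 (by norm_num), Jr s hs⟩) hA1 z1 hEr
    (C_of 1.3 0.73787 0.2634 1.8211 hk2 (by norm_num) hd1 (by norm_num) (by norm_num)) (by norm_num) (by norm_num) (by norm_num) (by norm_num) (by norm_num) (by norm_num) (by norm_num)
  have hEl : 1.27506 ≤ Real.exp (-(-0.243)) := by rw [neg_neg]; exact (expn_ge (by norm_num) (by norm_num))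
  have hN := N_ge (κ := κ) (t := t - Real.pi / 2) 1.2 (-0.243) 1.27506 1 (by norm_num) hk1 y2 hEl (by norm_num) (by norm_num)
  have hx0 : sx κ (t - Real.pi / 2) ≤ 2.0039 := sx_hi d0 1.3 (-0.44) 0.243 1.55271 _ hk2 y1 (by norm_num) (by rw [abs_of_nonpos (by linarith)]; linarith) hE0 (by norm_num) (by norm_num)
  have hG0 := gs_le d0 1 2.0039 2.44 0 hN (by norm_num) hx0 hd0 (by norm_num) (by norm_num) (by norm_num)
  have hN2 := N_le (κ := κ) (t := t) 1.3 0.304 0.73787 1 hk0.le hk2 z1 hEr (by norm_num)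
  have hG1 := gs_ge d1 1 1.8211 0.00001 hN2 (by norm_num) (by norm_num) hd1 (by norm_num) (by norm_num) (by norm_num)
  exact SL_of (κ := κ) 2.4746 0.9026 0 (-0.00001) 0.4927 1.8416 0.8545 0.1549 hr ⟨F0.1, F0.2.1, F0.2.2.trans (by norm_num)⟩ ⟨F1.1, F1.2.1, F1.2.2.trans (by norm_num)⟩ hG0 hG1 hM
    (by norm_num) (by norm_num)

private theorem yl18 {κ t : ℝ} (h : DomR κ t) (hk1 : 1.3 ≤ κ) (hk2 : κ ≤ 1.39) (ht1 : (-0.8483) ≤ t + κ)
    (ht2 : t + κ ≤ (-0.4869)) : -0.421 ≤ sy κ t ∧ sy κ t ≤ -0.235 := by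
  have hy1 : -0.421 ≤ sy κ t := syL_ge h 1.3 1.39 0.8483 0.421 0.65639 0.6564 0.1987 0.1988 0.21258 hk1 hk2 (by linarith) (by norm_num) (by norm_num) (by norm_num)
    (expm_ge (by norm_num) (by norm_num) (by norm_num) (by norm_num)) (expm_le (by norm_num) (by norm_num) (by norm_num)) (by norm_num)
    (by norm_num) (by norm_num) (by norm_num) (by norm_num) (by norm_num) (by norm_num)
  have hy2 : sy κ t ≤ -0.235 := syL_le h 1.3 1.39 0.4869 0.235 0.79057 0.79058 0.13365 0.14292 hk1 hk2 (by linarith) (by norm_num) (by norm_num) (by norm_num)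
    (expm_ge (by norm_num) (by norm_num) (by norm_num) (by norm_num)) (expm_le (by norm_num) (by norm_num) (by norm_num)) (by norm_num)
    (by norm_num) (by norm_num) (by norm_num) (by norm_num) (by norm_num) (by norm_num)
  exact ⟨hy1, hy2⟩

private theorem yr18 {κ t : ℝ} (h : DomR κ t) (hk1 : 1.3 ≤ κ) (hk2 : κ ≤ 1.39) (ht1 : 0.7225 ≤ t + κ)
    (ht2 : t + κ ≤ 1.0839) : 0.307 ≤ sy κ t ∧ sy κ t ≤ 0.429 := by
  have hy1 : 0.307 ≤ sy κ t := syR_ge h 1.3 1.39 0.7225 0.307 1.35934 1.35935 0.30022 0.32102 hk1 hk2 (by linarith) (by norm_num) (by norm_num)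
    (expn_ge (by norm_num) (by norm_num)) (expn_le (by norm_num) (by norm_num) (by norm_num)) (by norm_num)
    (by norm_num) (by norm_num) (by norm_num) (by norm_num) (by norm_num) (by norm_num)
  have hy2 : sy κ t ≤ 0.429 := syR_le h 1.3 1.39 1.0839 0.429 1.53572 0.4712 0.47397 0.5068 hk1 hk2 (by linarith) (by norm_num) (by norm_num)
    (expn_ge (by norm_num) (by norm_num)) (by norm_num) (by norm_num) (Or.inr ((mul_le_mul_of_nonneg_left (expn_le (E := 1.53573) (by norm_num) (by norm_num) (by norm_num)) (by norm_num)).trans (by norm_num))) (by norm_num) (by norm_num) (by norm_num)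
  exact ⟨hy1, hy2⟩

private theorem mm18 {κ t : ℝ} (d1 : DomR κ t) (d0 : DomR κ (t - Real.pi / 2)) (hk1 : 1.3 ≤ κ) (hk2 : κ ≤ 1.39)
    (ht1 : 0.7225 ≤ t + κ) (ht2 : t + κ ≤ 1.0839) : 0.4622 ≤ sp κ t - sp κ (t - Real.pi / 2) := by
  have hpi := Real.pi_gt_d6
  have hpi2 := Real.pi_lt_d6
  have hχ := chi_box (κ := κ) 1.3 1.3 1.39 0.2354 d1.1.le hk1 hk2 (by norm_num) (by norm_num) (by norm_num) (by norm_num) (by norm_num)
  have hμ := mu_box (κ := κ) 1.6899 1.3 1.39 0.1113 hk1 hk2 (by norm_num) (by norm_num) (by norm_num) (by norm_num) (by norm_num) (by norm_num)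
  rcases le_total (t + κ) 0.843 with f0 | g0
  · refine M_piece (κ := κ) (t := t) 1.39 0.853 0.939 0.7225 0.843 0.4622 d1.1.le hk2 ?_ ?_ (by linarith) (by linarith) (by norm_num) (by norm_num) (by norm_num) (by norm_num)
    · exact spR_ge_box d1 0.853 1.3 (1.3 / (1 + 1.3 ^ 2)) 0.2354 0.1113 0.843 _ _ _ (by linarith) (by linarith) hk1 (psi_hi hk1 (by norm_num)) hχ hμ (by norm_num) (by norm_num) (by norm_num)
        rfl (by norm_num) rfl rfl (by norm_num) (by norm_num)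
    · exact spL_ge_box d0 0.939 1.3 1.39 (1.3 / (1 + 1.3 ^ 2)) 0.8483 _ _ (by linarith) (by linarith) hk1 hk2 (psi_hi hk1 (by norm_num)) (by norm_num) (by norm_num)
        rfl (by norm_num) rfl (by norm_num) (by norm_num) (by norm_num)
  rcases le_total (t + κ) 0.964 with f1 | g1
  · refine M_piece (κ := κ) (t := t) 1.39 0.828 0.995 0.842 0.964 0.4622 d1.1.le hk2 ?_ ?_ (by linarith) (by linarith) (by norm_num) (by norm_num) (by norm_num) (by norm_num)
    · exact spR_ge_box d1 0.828 1.3 (1.3 / (1 + 1.3 ^ 2)) 0.2354 0.1113 0.964 _ _ _ (by linarith) (by linarith) hk1 (psi_hi hk1 (by norm_num)) hχ hμ (by norm_num) (by norm_num) (by norm_num)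
        rfl (by norm_num) rfl rfl (by norm_num) (by norm_num)
    · exact spL_ge_box d0 0.995 1.3 1.39 (1.3 / (1 + 1.3 ^ 2)) 0.7288 _ _ (by linarith) (by linarith) hk1 hk2 (psi_hi hk1 (by norm_num)) (by norm_num) (by norm_num)
        rfl (by norm_num) rfl (by norm_num) (by norm_num) (by norm_num)
  refine M_piece (κ := κ) (t := t) 1.39 0.803 0.996 0.963 1.0839 0.4622 d1.1.le hk2 ?_ ?_ (by linarith) (by linarith) (by norm_num) (by norm_num) (by norm_num) (by norm_num)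
  · exact spR_ge_box d1 0.803 1.3 (1.3 / (1 + 1.3 ^ 2)) 0.2354 0.1113 1.0839 _ _ _ (by linarith) (by linarith) hk1 (psi_hi hk1 (by norm_num)) hχ hμ (by norm_num) (by norm_num) (by norm_num)
      rfl (by norm_num) rfl rfl (by norm_num) (by norm_num)
  · exact spL_ge_box d0 0.996 1.3 1.39 (1.3 / (1 + 1.3 ^ 2)) 0.6078 _ _ (by linarith) (by linarith) hk1 hk2 (psi_hi hk1 (by norm_num)) (by norm_num) (by norm_num)
      rfl (by norm_num) rfl (by norm_num) (by norm_num) (by norm_num)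

theorem slp18 {β r κ t : ℝ} (hβ : 0 < β) (hr : 10 ≤ r) (hκ : κ = β * r) (hk1 : 1.3 ≤ κ) (hk2 : κ ≤ 1.39)
    (ht1 : 0.46 * (Real.pi / 2) ≤ t + κ) (ht2 : t + κ ≤ 0.69 * (Real.pi / 2)) : SL β r 1.7972 0.8578 0.1324 t := by
  have hpi := Real.pi_gt_d6
  have hpi2 := Real.pi_lt_d6
  have he1 := Real.exp_neg_one_lt_d9
  have hR0 : β * 10 ≤ κ := by rw [hκ]; exact mul_le_mul_of_nonneg_left hr hβ.le
  have hk0 : 0 < κ := by linarith
  have d1 : DomR κ t := ⟨hk0, by linarith, Or.inl (by linarith)⟩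
  have d0 : DomR κ (t - Real.pi / 2) := ⟨hk0, by linarith, Or.inl (by linarith)⟩
  have a1 : 0.7225 ≤ t + κ := by linarith
  have a2 : t + κ ≤ 1.0839 := by linarith
  have b1 : (-0.8483) ≤ t - Real.pi / 2 + κ := by linarith
  have b2 : t - Real.pi / 2 + κ ≤ (-0.4869) := by linarith
  have Jl := dl17 d0 hβ hk1 hk2 (by linarith) (by linarith) hR0
  have Jr := dr17 d1 hβ hk1 hk2 (by linarith) (by linarith) hR0
  obtain ⟨y1, y2⟩ := yl18 d0 hk1 hk2 b1 b2
  obtain ⟨z1, z2⟩ := yr18 d1 hk1 hk2 a1 a2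
  have hM := mm18 d1 d0 hk1 hk2 a1 a2
  have hE0 : Real.exp (-(-0.421)) ≤ 1.52349 := by rw [neg_neg]; exact (expn_le (by norm_num) (by norm_num) (by norm_num))
  have hEr : Real.exp (-0.307) ≤ 0.73566 := (expm_le (by norm_num) (by norm_num) (by norm_num))
  have hA0 := A_lt d0 1.39 (-0.421) 1.52349 0.983 hk2 y1 hE0 (by norm_num) (by norm_num) (by norm_num)
  have hA1 := A_lt d1 1.39 0.307 0.73566 0.628 hk2 z1 hEr (by norm_num) (by norm_num) (by norm_num)
  have hd0 : 2.69 ≤ sD κ (t - Real.pi / 2) := sD_ge1 d0 1.3 _ hk1 (by norm_num) (by linarith) (by norm_num)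
  have hd1 : 1.8539 ≤ sD κ t := sD_geR' d1 1.3 0.307 0.429 _ hk1 (by norm_num) z1 z2 (by norm_num) (by norm_num)
  have F0 := LD_facts (t := t - Real.pi / 2) 0.14 0.2502 0.983 2.3835 0.3937 (-0.421) 1.52349 1.7972 hβ hr hκ d0 (fun s hs => ⟨im_gt hs y1 (by norm_num), Jl s hs⟩) hA0 y1 hE0
    (C_of 1.39 1.52349 0.3937 2.69 hk2 (by norm_num) hd0 (by norm_num) (by norm_num)) (by norm_num) (by norm_num) (by norm_num) (by norm_num) (by norm_num) (by norm_num) (by norm_num)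
  have z0 : -0 ≤ sy κ t := by linarith
  have F1 := LD_facts (t := t) 0.12 0.1529 0.628 1.5042 0.2758 0.307 0.73566 0.8578 hβ hr hκ d1 (fun s hs => ⟨im_gt hs z0 (by norm_num), Jr s hs⟩) hA1 z1 hEr
    (C_of 1.39 0.73566 0.2758 1.8539 hk2 (by norm_num) hd1 (by norm_num) (by norm_num)) (by norm_num) (by norm_num) (by norm_num) (by norm_num) (by norm_num) (by norm_num) (by norm_num)
  have hEl : 1.2649 ≤ Real.exp (-(-0.235)) := by rw [neg_neg]; exact (expn_ge (by norm_num) (by norm_num))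
  have hN := N_ge (κ := κ) (t := t - Real.pi / 2) 1.3 (-0.235) 1.2649 1 (by norm_num) hk1 y2 hEl (by norm_num) (by norm_num)
  have hx0 : sx κ (t - Real.pi / 2) ≤ 2.1046 := sx_hi d0 1.39 (-0.421) 0.235 1.52349 _ hk2 y1 (by norm_num) (by rw [abs_of_nonpos (by linarith)]; linarith) hE0 (by norm_num) (by norm_num)
  have hG0 := gs_le d0 1 2.1046 2.69 0 hN (by norm_num) hx0 hd0 (by norm_num) (by norm_num) (by norm_num)
  have hN2 := N_le (κ := κ) (t := t) 1.39 0.307 0.73566 1.04565 hk0.le hk2 z1 hEr (by norm_num)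
  have hG1 := gs_ge d1 1.04565 1.8539 0.00944 hN2 (by norm_num) (by norm_num) hd1 (by norm_num) (by norm_num) (by norm_num)
  exact SL_of (κ := κ) 2.343 0.9447 0 (-0.00944) 0.4622 1.7972 0.8578 0.1324 hr ⟨F0.1, F0.2.1, F0.2.2.trans (by norm_num)⟩ ⟨F1.1, F1.2.1, F1.2.2.trans (by norm_num)⟩ hG0 hG1 hM
    (by norm_num) (by norm_num)

end Sok.B4
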