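import Pool.Agent.Lib.MP_816dec_an.R1b4A
import Pool.Agent.Lib.MP_816dec_an.R1All
import Pool.Agent.Lib.MP_816dec_an.R1B4R0
import Pool.Agent.Lib.MP_816dec_an.R1B4R1
import Pool.Agent.Lib.MP_816dec_an.R1B4R2
import Pool.Agent.Lib.MP_816dec_an.R1B4R3
import Pool.Agent.Lib.MP_816dec_an.R1B4R4
import Pool.Agent.Lib.MP_816dec_an.R1B4R5
import Pool.Agent.Lib.MP_816dec_an.R1B4R6
import Pool.Agent.Lib.MP_816dec_an.R1B4R7
import Pool.Agent.Lib.MP_816dec_an.R1B4R8

/-!
MP_816dec_an (A3, row R1, b = 4): the case `b = 4` for all `κ = β r ≤ 1.39`.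
-/

set_option autoImplicit false

namespace Sok

open B4 in
/-- the case `b = 4`, `κ ∈ [0.3, 1.39]` -/
theorem circ_b4_large {p : ℤ} {β r : ℝ} (hp : IsCoprime (4 : ℤ) p) (hr : 10 ≤ r) (hβ : 0 < β)
    (h1 : 0.3 ≤ β * r) (h2 : β * r ≤ 1.39) : Circ (2 * Real.pi * p / 4 + β) r := by
  rcases le_total (β * r) 0.36 with a | a
  · exact rng_0 hp hβ hr rfl h1 a
  rcases le_total (β * r) 0.42 with b | b
  · exact rng_1 hp hβ hr rfl a b
  rcases le_total (β * r) 0.6 with c | c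
  · exact rng_2 hp hβ hr rfl b c
  rcases le_total (β * r) 0.8 with d | d
  · exact rng_3 hp hβ hr rfl c d
  rcases le_total (β * r) 1 with e | e
  · exact rng_4 hp hβ hr rfl d e
  rcases le_total (β * r) 1.1 with f | f
  · exact rng_5 hp hβ hr rfl e f
  rcases le_total (β * r) 1.2 with g | g
  · exact rng_6 hp hβ hr rfl f g
  rcases le_total (β * r) 1.3 with k | k
  · exact rng_7 hp hβ hr rfl g k
  · exact rng_8 hp hβ hr rfl k h2

/-- row R1 for `b = 4` -/
theorem R1_b4 : R1At 4 := by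
  intro p β r hp hr hβ hκ _
  rcases le_total (β * r) 0.3 with a | a
  · exact circ_b4_small hp hr hβ a
  · have h := circ_b4_large hp hr hβ a hκ
    push_cast
    exact h

end Sok
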