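import Pool.Agent.Lib.MP_816dec_an.R1b5WA

/-!
MP_816dec_an (A3, row R1), SINGLE CASE `b = 5`, `r ≥ 10`, `0.3 ≤ κ ≤ 0.36`: outside the window, assembly (generated file).
-/

set_option autoImplicit false
set_option linter.unusedVariables false

open Complex Set Filter Topology Metric

namespace Sok

private theorem B5Ao_B1 {κ t : ℝ} (h : DomR κ t) (hk1 : 0.3 ≤ κ) (hk2 : κ ≤ 0.36) (ht1 : 0.0628 ≤ t + κ) (ht2 : t + κ ≤ 0.251) :
    (0.016 ≤ sy κ t ∧ sy κ t ≤ 0.073) ∧ (0.2691 ≤ sx κ t ∧ sx κ t ≤ 0.354) ∧ κ * Real.exp (-sy κ t) ≤ 0.3543 ∧ 1.1191 ≤ sD κ t ∧ sD κ t ≤ 1.258 := by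
  have hy1 : 0.016 ≤ sy κ t := syR_ge h 0.3 0.36 0.0628 0.016 1.01612 1.01613 0.04516 0.0542 hk1 hk2 (by linarith) (by norm_num) (by norm_num)
    (expn_ge (by norm_num) (by norm_num)) (expn_le (by norm_num) (by norm_num) (by norm_num)) (by norm_num)
    (by norm_num) (by norm_num) (by norm_num) (by norm_num) (by norm_num) (by norm_num)
  have hy2 : sy κ t ≤ 0.073 := syR_le h 0.3 0.36 0.251 0.073 1.07573 0.2072 0.21813 0.26177 hk1 hk2 (by linarith) (by norm_num) (by norm_num)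
    (expn_ge (by norm_num) (by norm_num)) (by norm_num) (by norm_num) (Or.inr ((mul_le_mul_of_nonneg_left (expn_le (E := 1.07574) (by norm_num) (by norm_num) (by norm_num)) (by norm_num)).trans (by norm_num))) (by norm_num) (by norm_num) (by norm_num)
  have hy1' : 0.016 ≤ sy κ t := by linarith
  have hy2' : sy κ t ≤ 0.073 := by linarith
  have hx1 : 0.2691 ≤ sx κ t := sx_lo h 0.3 0.073 0.0731 0.9296 0.2691 hk1 (by norm_num) hy2' (abs_le.2 ⟨by linarith, by linarith⟩) (ex_lm 0.073 (by norm_num) (by norm_num) (by norm_num) (by norm_num) (by norm_num)) (by norm_num) (by norm_num)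
  have hx2 : sx κ t ≤ 0.354 := sx_hi h 0.36 0.016 0.016 0.98413 0.354 hk2 hy1' (by norm_num) (le_trans (by linarith) (le_abs_self _)) (ex_um 0.016 (by norm_num) (by norm_num) (by norm_num) (by norm_num)) (by norm_num) (by norm_num)
  refine ⟨⟨hy1', hy2'⟩, ⟨hx1, hx2⟩, v5_n h 0.36 0.016 0.98413 0.3543 hk2 hy1' (ex_um 0.016 (by norm_num) (by norm_num) (by norm_num) (by norm_num)) (by norm_num), ?_, ?_⟩
  · exact v5_Dlo h 0.3 0.016 0.073 0.016 0.98412 1.1191 (by norm_num) hk1 hy1' hy2' (ex_lm 0.016 (by norm_num) (by norm_num) (by norm_num) (by norm_num) (by norm_num)) (by norm_num) (by norm_num) (by norm_num) (by norm_num)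
  · exact v5_Dup h 0.36 0.016 0.073 0.98413 0.92961 1.258 hk2 hy1' hy2' (ex_um 0.016 (by norm_num) (by norm_num) (by norm_num) (by norm_num)) (ex_um 0.073 (by norm_num) (by norm_num) (by norm_num) (by norm_num)) (by norm_num) (by norm_num) (by norm_num)

private theorem B5Ao_T2_0_0 {β x y : ℝ} (hβ : 0 < β) (hN : β * 27.777 ≤ 1) (hx1 : 0.269 ≤ x) (hx2 : x ≤ 0.3541)
    (hy1 : -0 ≤ y) (hy2 : y ≤ 0.0731) : ‖HH β (x + y * I) - 1‖ ≤ 0.03 := by
  refine le_epsJ (C := 0.1672) (N0 := 27.777) (J_boxp 0.269 0.3541 0 0.0731 0.0731 0.8994 0.3616 1.1301 1.2464 0.4242 5.2704 27.777 0.4021 1.655 1.194 1.2839 0.4496 0.3894 1.1003 3.8973 0.4782 0.865 1.7951 3.9227 0.000003773 0.00002011 0.0000003101 0.0000003101 0.000001705 0.0000003101 0.0000003101 0.0000003101 0.1672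
    hβ hN hx1 hx2 hy1 hy2 (by norm_num) (by norm_num) (by linarith) (by norm_num) (by norm_num) (by norm_num) (by norm_num) (by norm_num) (by norm_num) (by norm_num) (by norm_num) (by norm_num) (by norm_num) (by norm_num) (by norm_num) (by norm_num) (by norm_num) (by norm_num) (by norm_num) (by norm_num) (by norm_num) (by norm_num) (by norm_num) (by norm_num)
    (cube_sqrt_geJ (s := 0.9305) (by norm_num) (by norm_num) (by norm_num) (by norm_num))
    (cube_sqrt_geJ (s := 0.975) (by norm_num) (by norm_num) (by norm_num) (by norm_num))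
    (by norm_num) (by norm_num) (by norm_num) (by norm_num) (by norm_num) (by norm_num) (by norm_num) (by norm_num) (by norm_num) (by norm_num) (by norm_num) (by norm_num) (by norm_num) (by norm_num) (by norm_num) (by norm_num) (by norm_num) (by norm_num)
    (exp_neg_leJ (r := 0.488) 12 (by norm_num) (by norm_num) (by norm_num) (by norm_num))
    (exp_neg_leJ (r := 0.816) 10 (by norm_num) (by norm_num) (by norm_num) (by norm_num))
    (exp_neg_leJ (r := 0.99) 14 (by norm_num) (by norm_num) (by norm_num) (by norm_num))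
    (exp_neg_leJ (r := 0.99) 14 (by norm_num) (by norm_num) (by norm_num) (by norm_num))
    (exp_neg_leJ (r := 0.282) 13 (by norm_num) (by norm_num) (by norm_num) (by norm_num))
    (exp_neg_leJ (r := 0.99) 14 (by norm_num) (by norm_num) (by norm_num) (by norm_num))
    (exp_neg_leJ (r := 0.99) 14 (by norm_num) (by norm_num) (by norm_num) (by norm_num))
    (exp_neg_leJ (r := 0.99) 14 (by norm_num) (by norm_num) (by norm_num) (by norm_num))
    (by norm_num)) (by norm_num) hN hβ.le (by norm_num)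

private theorem B5Ao_T2 {β x y : ℝ} (hβ : 0 < β) (hN : β * 27.777 ≤ 1) (hx1 : 0.269 ≤ x) (hx2 : x ≤ 0.3541)
    (hy1 : 0.0159 ≤ y) (hy2 : y ≤ 0.0731) : ‖HH β (x + y * I) - 1‖ ≤ 0.03 := by
  exact B5Ao_T2_0_0 hβ hN (by linarith) (by linarith) (by linarith) (by linarith)

private theorem B5Ao_G3 {κ : ℝ} (hk1 : 0.3 ≤ κ) (hk2 : κ ≤ 0.36) : gG κ 0.62 ≤ 1.28268 ∧ 0.63992 ≤ Real.exp (-(κ * 0.62)) ^ 2 := by
  refine ⟨gG_le 0.62 0.3 0.36 1.28268 0.83028 0.79996 1.20443 1.25008 hk1 hk2 (by norm_num)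
    (ex_um 0.186 (by norm_num) (by norm_num) (by norm_num) (by norm_num)) (ex_um 0.2232 (by norm_num) (by norm_num) (by norm_num) (by norm_num))
    (ex_up 0.186 (by norm_num) (by norm_num) (by norm_num) (by norm_num)) (ex_up 0.2232 (by norm_num) (by norm_num) (by norm_num) (by norm_num))
    (by norm_num) (by norm_num), ?_⟩
  exact v5_M 0.79995 (ex_lm 0.2232 (by linarith) (by norm_num) (by norm_num) (by norm_num) (by norm_num)) (by norm_num) (by norm_num)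

private theorem B5Ao_C4 {β r t κ : ℝ} (hβ : 0 < β) (hr : 10 ≤ r) (hκ : κ = β * r) (hk1 : 0.3 ≤ κ) (hk2 : κ ≤ 0.36) (hta : 1.3194 ≤ t + κ)
    (htb : t + κ ≤ 1.5077) : ‖F (cexp (I * β)) (r * cexp (I * ((t + β / 2 : ℝ) : ℂ)))‖ ≤
      3.2348 * Real.exp (r * (1.28268 - 0.62 * (t + κ))) + 0.1057 * Real.exp (r * 0) :=
  v5_H 0.62 0.3 0.36 1.3194 1.5077 1.28268 3.1451 0.63992 0.0757 2.53 0.3629 0.08558 0.4299 0.00000203 3.2348 0.1057 hβ hr hκ (by norm_num) hk1 hk2 hta htb (by norm_num) (B5Ao_G3 hk1 hk2).1 (B5Ao_G3 hk1 hk2).2 (by norm_num) (by norm_num) (by norm_num)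
    (by norm_num) (by norm_num) (by norm_num) (by norm_num) (by norm_num) (by norm_num) (by norm_num) (by norm_num) (ex_un 0 0.8557 (by norm_num) (by norm_num) (by norm_num) (by norm_num))
    (v5_hump 3.5042 27.777 5.2704 0.0000009316 0.00000203 hβ hr hκ hk1 hk2 (by norm_num) htb (by norm_num) (by norm_num) (by norm_num) (by norm_num) (by norm_num) (by norm_num) (by norm_num) (ex_un 13 0.9 (by norm_num) (by norm_num) (by norm_num) (by norm_num)) (by norm_num)) (by norm_num) (by norm_num)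

private theorem B5Ao_G5 {κ : ℝ} (hk1 : 0.3 ≤ κ) (hk2 : κ ≤ 0.36) : gG κ (-0.71) ≤ 1.23725 ∧ 1.5311 ≤ Real.exp (-(κ * (-0.71))) ^ 2 := by
  refine ⟨gG_le (-0.71) 0.3 0.36 1.23725 1.23739 1.29124 0.80816 0.77446 hk1 hk2 (by norm_num)
    (ex_up 0.213 (by norm_num) (by norm_num) (by norm_num) (by norm_num)) (ex_up 0.2556 (by norm_num) (by norm_num) (by norm_num) (by norm_num))
    (ex_um 0.213 (by norm_num) (by norm_num) (by norm_num) (by norm_num)) (ex_um 0.2556 (by norm_num) (by norm_num) (by norm_num) (by norm_num))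
    (by norm_num) (by norm_num), ?_⟩
  exact v5_M 1.23738 (ex_lp 0.213 (by linarith) (by norm_num) (by norm_num)) (by norm_num) (by norm_num)

private theorem B5Ao_C6 {β r t κ : ℝ} (hβ : 0 < β) (hr : 10 ≤ r) (hκ : κ = β * r) (hk1 : 0.3 ≤ κ) (hk2 : κ ≤ 0.36) (hta : (-2.4505) ≤ t + κ)
    (htb : t + κ ≤ (-2.2622)) : ‖F (cexp (I * β)) (r * cexp (I * ((t + β / 2 : ℝ) : ℂ)))‖ ≤
      2.2213 * Real.exp (r * (1.23725 - (-0.71) * (t + κ))) + 2.3087 * Real.exp (r * 0.0501) :=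
  v5_HU (-0.71) 0.3 0.36 (-2.4505) (-2.2622) 1.23725 2.2213 1.5311 0.0757 1.3971 1.9014 0 0.0501 0.00000203 2.3087 hβ hr hκ (by norm_num) hk1 hk2 hta htb (by norm_num) (by norm_num) (B5Ao_G5 hk1 hk2).1 (B5Ao_G5 hk1 hk2).2 (by norm_num) (by norm_num) (by norm_num)
    (by norm_num) (by norm_num) (by norm_num) (by norm_num) (by norm_num) (by norm_num) (by norm_num)
    (by norm_num) (by norm_num) (by norm_num) (v5_hump 7.2741 27.777 5.2704 0.0000009316 0.00000203 hβ hr hκ hk1 hk2 (by norm_num) htb (by norm_num) (by norm_num) (by norm_num) (by norm_num) (by norm_num) (by norm_num) (by norm_num) (ex_un 13 0.9 (by norm_num) (by norm_num) (by norm_num) (by norm_num)) (by norm_num)) (by norm_num)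

private theorem B5Ao_C7 {β r t κ : ℝ} (hβ : 0 < β) (hr : 10 ≤ r) (hκ : κ = β * r) (hk1 : 0.3 ≤ κ) (hk2 : κ ≤ 0.36) (hta : 2.576 ≤ t + κ)
    (htb : t + κ ≤ 2.7643) : ‖F (cexp (I * β)) (r * cexp (I * ((t + β / 2 : ℝ) : ℂ)))‖ ≤
      3.4246 * Real.exp (r * (0.01 + 1 / 20)) :=
  v5_UD 0.3 0.36 2.576 2.7643 0.01 0.7284 0.01 1.7854 3.4246 hβ hr hκ (by norm_num) hk1 hk2 hta htb (by norm_num) (by norm_num) (by norm_num) (by norm_num) (by norm_num) (by norm_num) (by norm_num) (by norm_num) (by norm_num) (by norm_num) (by norm_num)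

private theorem B5Ao_Y8 {β r t κ h t' : ℝ} (hβ : 0 < β) (hκ : κ = β * r) (hN : β * 27.777 ≤ 1) (hk1 : 0.3 ≤ κ) (hk2 : κ ≤ 0.36)
    (ht : t' = t + (((1 : ℤ) : ℝ) - 1) * h) (hD : DomR κ t') (hta : 0.0628 ≤ t' + κ) (htb : t' + κ ≤ 0.251) :
    0.9159 * Real.exp (r * sE κ t') ≤ ‖Xf β r h t 1‖ := by
  obtain ⟨⟨ya, yb⟩, ⟨xa, xb⟩, n1, Da, Db⟩ := B5Ao_B1 hD hk1 hk2 hta htb
  have J := B5Ao_T2 (x := sx κ t') (y := sy κ t') hβ hN (by linarith only [xa, xb, ya, yb]) (by linarith only [xa, xb, ya, yb]) (by linarith only [xa, xb, ya, yb]) (by linarith only [xa, xb, ya, yb])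
  exact v5_Jlo hβ hκ (k := 1) ht hD 0.03 1.258 0.9159 (by norm_num) J Db (by norm_num)

private theorem B5Ao_V9 {κ t : ℝ} (hD : DomR κ t) (hk1 : 0.3 ≤ κ) (hk2 : κ ≤ 0.36) (hta : 0.0628 ≤ t + κ) (htb : t + κ ≤ 0.251) :
    1.00681 - 0.137 * (t + κ) ≤ sE κ t := by
  have hκ0 : 0 < κ := hD.1
  exact v5_V1 hD 0.3 0.36 0.0628 0.251 0.09192 0.15801 0.14549 1.00681 0.137 (by norm_num) hk1 hk2 (by norm_num) (by norm_num) hta htb (by norm_num) (clo5 0.3 0.36 0.14549 (by norm_num) hk1 hk2 (by norm_num) (by norm_num) (by norm_num))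
      ((cup1 0.36 hκ0.le hk2 (by norm_num)).trans (by norm_num)) (by norm_num) (by norm_num) (by norm_num) (by norm_num) (by norm_num) (by norm_num)

private theorem B5Ao_K10 {β r t κ h : ℝ} (hβ : 0 < β) (hr : 10 ≤ r) (hκ : κ = β * r) (hk1 : 0.3 ≤ κ) (hk2 : κ ≤ 0.36)
    (hh : h = 2 * Real.pi / 5) (hh1 : 1.25663 ≤ h) (hh2 : h ≤ 1.25664) (hta : 0.0628 ≤ t + κ) (htb : t + κ ≤ 0.251)
    (hY : 0.9159 * Real.exp (r * sE κ t) ≤ ‖Xf β r h t 1‖) (hV : 1.00681 - 0.137 * (t + κ) ≤ sE κ t) :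
    ‖Xf β r h t 2‖ ≤ 0.0172 * ‖Xf β r h t 1‖ := by
  rw [v5_X 2 1 (by push_cast; ring)]
  exact v5_cmp 0.5335 0.004823 0.0171 0.9724 0.00006023 0.00000696 0.0172 hr (B5Ao_C4 (t := t + 1 * h) hβ hr hκ hk1 hk2 (by linarith only [hta, htb, hh1, hh2]) (by linarith only [hta, htb, hh1, hh2])) hY (by norm_num) (by norm_num) (by norm_num) (by norm_num) (by linarith only [hV, hta, htb, hh1, hh2]) (ex_un 5 0.3349 (by norm_num) (by norm_num) (by norm_num) (by norm_num)) (by norm_num) (by norm_num) (by linarith only [hV, hta, htb, hh1, hh2]) (ex_un 9 0.7239 (by norm_num) (by norm_num) (by norm_num) (by norm_num)) (by norm_num) (by norm_num)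

private theorem B5Ao_K11 {β r t κ h : ℝ} (hβ : 0 < β) (hr : 10 ≤ r) (hκ : κ = β * r) (hk1 : 0.3 ≤ κ) (hk2 : κ ≤ 0.36)
    (hh : h = 2 * Real.pi / 5) (hh1 : 1.25663 ≤ h) (hh2 : h ≤ 1.25664) (hta : 0.0628 ≤ t + κ) (htb : t + κ ≤ 0.251)
    (hY : 0.9159 * Real.exp (r * sE κ t) ≤ ‖Xf β r h t 1‖) (hV : 1.00681 - 0.137 * (t + κ) ≤ sE κ t) :
    ‖Xf β r h t (-1)‖ ≤ 0.000253 * ‖Xf β r h t 1‖ := by
  rw [v5_X (-1) (-2) (by push_cast; ring)]
  exact v5_cmp 1.3413 0.000001498 0.00000364 0.9223 0.00009877 0.000249 0.000253 hr (B5Ao_C6 (t := t + (-2) * h) hβ hr hκ hk1 hk2 (by linarith only [hta, htb, hh1, hh2]) (by linarith only [hta, htb, hh1, hh2])) hY (by norm_num) (by norm_num) (by norm_num) (by norm_num) (by linarith only [hV, hta, htb, hh1, hh2]) (ex_un 13 0.4129 (by norm_num) (by norm_num) (by norm_num) (by norm_num)) (by norm_num) (by norm_num) (by linarith only [hV, hta, htb, hh1, hh2]) (ex_un 9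 0.2229 (by norm_num) (by norm_num) (by norm_num) (by norm_num)) (by norm_num) (by norm_num)

private theorem B5Ao_K12 {β r t κ h : ℝ} (hβ : 0 < β) (hr : 10 ≤ r) (hκ : κ = β * r) (hk1 : 0.3 ≤ κ) (hk2 : κ ≤ 0.36)
    (hh : h = 2 * Real.pi / 5) (hh1 : 1.25663 ≤ h) (hh2 : h ≤ 1.25664) (hta : 0.0628 ≤ t + κ) (htb : t + κ ≤ 0.251)
    (hY : 0.9159 * Real.exp (r * sE κ t) ≤ ‖Xf β r h t 1‖) (hV : 1.00681 - 0.137 * (t + κ) ≤ sE κ t) :
    ‖Xf β r h t (-2)‖ ≤ 0.000408 * ‖Xf β r h t 1‖ := by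
  rw [v5_Xm2 hh]
  exact v5_cmp0 0.9124 0.0001091 0.000408 hr (B5Ao_C7 (t := t + 2 * h) hβ hr hκ hk1 hk2 (by linarith only [hta, htb, hh1, hh2]) (by linarith only [hta, htb, hh1, hh2])) hY (by norm_num) (by norm_num) (by norm_num) (by linarith only [hV, hta, htb, hh1, hh2]) (ex_un 9 0.1239 (by norm_num) (by norm_num) (by norm_num) (by norm_num)) (by norm_num)

private theorem B5Ao_C13 {β r t κ : ℝ} (hβ : 0 < β) (hr : 10 ≤ r) (hκ : κ = β * r) (hk1 : 0.3 ≤ κ) (hk2 : κ ≤ 0.36) (hta : (-1.1939) ≤ t + κ)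
    (htb : t + κ ≤ (-1.0056)) : ‖F (cexp (I * β)) (r * cexp (I * ((t + β / 2 : ℝ) : ℂ)))‖ ≤
      2.2213 * Real.exp (r * (1.23725 - (-0.71) * (t + κ))) + 2.2928 * Real.exp (r * 0.2384) :=
  v5_HU (-0.71) 0.3 0.36 (-1.1939) (-1.0056) 1.23725 2.2213 1.5311 0.0757 1.3971 3.158 0.2653 0.2384 0.00000203 2.2928 hβ hr hκ (by norm_num) hk1 hk2 hta htb (by norm_num) (by norm_num) (B5Ao_G5 hk1 hk2).1 (B5Ao_G5 hk1 hk2).2 (by norm_num) (by norm_num) (by norm_num)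
    (by norm_num) (by norm_num) (by norm_num) (by norm_num) (by norm_num) (by norm_num) (by norm_num)
    (by norm_num) (by norm_num) (by norm_num) (v5_hump 6.0175 27.777 5.2704 0.0000009316 0.00000203 hβ hr hκ hk1 hk2 (by norm_num) htb (by norm_num) (by norm_num) (by norm_num) (by norm_num) (by norm_num) (by norm_num) (by norm_num) (ex_un 13 0.9 (by norm_num) (by norm_num) (by norm_num) (by norm_num)) (by norm_num)) (by norm_num)

private theorem B5Ao_K14 {β r t κ h : ℝ} (hβ : 0 < β) (hr : 10 ≤ r) (hκ : κ = β * r) (hk1 : 0.3 ≤ κ) (hk2 : κ ≤ 0.36)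
    (hh : h = 2 * Real.pi / 5) (hh1 : 1.25663 ≤ h) (hh2 : h ≤ 1.25664) (hta : 0.0628 ≤ t + κ) (htb : t + κ ≤ 0.251)
    (hY : 0.9159 * Real.exp (r * sE κ t) ≤ ‖Xf β r h t 1‖) (hV : 1.00681 - 0.137 * (t + κ) ≤ sE κ t) :
    ‖Xf β r h t 0‖ ≤ 0.029 * ‖Xf β r h t 1‖ := by
  rw [v5_X 0 (-1) (by push_cast; ring)]
  exact v5_cmp 0.4491 0.01123 0.0273 0.734 0.0006494 0.00163 0.029 hr (B5Ao_C13 (t := t + (-1) * h) hβ hr hκ hk1 hk2 (by linarith only [hta, htb, hh1, hh2]) (by linarith only [hta, htb, hh1, hh2])) hY (by norm_num) (by norm_num) (by norm_num) (by norm_num) (by linarith only [hV, hta, htb, hh1, hh2]) (ex_un 4 0.4909 (by norm_num) (by norm_num) (by norm_num) (by norm_num)) (by norm_num) (by norm_num) (by linarith only [hV, hta, htb, hh1, hh2]) (ex_un 7 0.3399 (by norm_num) (by norm_num) (by norm_num) (by norm_num)) (by norm_num) (by norm_num)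

private theorem B5Ao_O15 {β r t κ h : ℝ} (hβ : 0 < β) (hr : 10 ≤ r) (hκ : κ = β * r) (hk1 : 0.3 ≤ κ) (hk2 : κ ≤ 0.36)
    (hh : h = 2 * Real.pi / 5) (hta : 0.0628 ≤ t + κ) (htb : t + κ ≤ 0.251) :
    ‖Xf β r h t (-2)‖ + ‖Xf β r h t (-1)‖ + ‖Xf β r h t 2‖ < |‖Xf β r h t 1‖ - ‖Xf β r h t 0‖| := by
  obtain ⟨hh1, hh2⟩ := v5_h hh
  have hκ0 : 0 < κ := by linarith only [hk1]
  have hN : β * 27.777 ≤ 1 := v5_hN 0.36 27.777 hβ hr hκ hk2 (by norm_num) (by norm_num)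
  have hD1 : DomR κ t := v5_dom hκ0 (by linarith only [hta, htb, hk1, hk2, hh1, hh2]) (Or.inr (by linarith only [hta, htb, hk1, hk2, hh1, hh2]))
  have e1 : t = t + (((1 : ℤ) : ℝ) - 1) * h := by push_cast; ring
  have hY := B5Ao_Y8 (h := h) hβ hκ hN hk1 hk2 e1 hD1 hta htb
  have hV := B5Ao_V9 hD1 hk1 hk2 hta htb
  have cp2 := B5Ao_K10 hβ hr hκ hk1 hk2 hh hh1 hh2 hta htb hY hV
  have cm1 := B5Ao_K11 hβ hr hκ hk1 hk2 hh hh1 hh2 hta htb hY hV
  have cm2 := B5Ao_K12 hβ hr hκ hk1 hk2 hh hh1 hh2 hta htb hY hV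
  have cn0 := B5Ao_K14 hβ hr hκ hk1 hk2 hh hh1 hh2 hta htb hY hV
  have hp : 0 < ‖Xf β r h t 1‖ := lt_of_lt_of_le (by positivity) hY
  exact v5_out1 _ _ _ _ cm2 cm1 cp2 cn0 hp (by norm_num)

private theorem B5Ao_B16 {κ t : ℝ} (h : DomR κ t) (hk1 : 0.3 ≤ κ) (hk2 : κ ≤ 0.36) (ht1 : 0.251 ≤ t + κ) (ht2 : t + κ ≤ 0.415) :
    (0.062 ≤ sy κ t ∧ sy κ t ≤ 0.113) ∧ (0.2429 ≤ sx κ t ∧ sx κ t ≤ 0.3327) ∧ κ * Real.exp (-sy κ t) ≤ 0.3384 ∧ 1.2035 ≤ sD κ t ∧ sD κ t ≤ 1.3294 := by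
  have hy1 : 0.062 ≤ sy κ t := syR_ge h 0.3 0.36 0.251 0.062 1.06396 1.06397 0.18323 0.21989 hk1 hk2 (by linarith) (by norm_num) (by norm_num)
    (expn_ge (by norm_num) (by norm_num)) (expn_le (by norm_num) (by norm_num) (by norm_num)) (by norm_num)
    (by norm_num) (by norm_num) (by norm_num) (by norm_num) (by norm_num) (by norm_num)
  have hy2 : sy κ t ≤ 0.113 := syR_le h 0.3 0.36 0.415 0.113 1.11963 0.3338 0.35143 0.42174 hk1 hk2 (by linarith) (by norm_num) (by norm_num)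
    (expn_ge (by norm_num) (by norm_num)) (by norm_num) (by norm_num) (Or.inr ((mul_le_mul_of_nonneg_left (expn_le (E := 1.11964) (by norm_num) (by norm_num) (by norm_num)) (by norm_num)).trans (by norm_num))) (by norm_num) (by norm_num) (by norm_num)
  have hy1' : 0.062 ≤ sy κ t := by linarith
  have hy2' : sy κ t ≤ 0.113 := by linarith
  have hx1 : 0.2429 ≤ sx κ t := sx_lo h 0.3 0.113 0.1131 0.89315 0.2429 hk1 (by norm_num) hy2' (abs_le.2 ⟨by linarith, by linarith⟩) (ex_lm 0.113 (by norm_num) (by norm_num) (by norm_num) (by norm_num) (by norm_num)) (by norm_num) (by norm_num)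
  have hx2 : sx κ t ≤ 0.3327 := sx_hi h 0.36 0.062 0.062 0.93989 0.3327 hk2 hy1' (by norm_num) (le_trans (by linarith) (le_abs_self _)) (ex_um 0.062 (by norm_num) (by norm_num) (by norm_num) (by norm_num)) (by norm_num) (by norm_num)
  refine ⟨⟨hy1', hy2'⟩, ⟨hx1, hx2⟩, v5_n h 0.36 0.062 0.93989 0.3384 hk2 hy1' (ex_um 0.062 (by norm_num) (by norm_num) (by norm_num) (by norm_num)) (by norm_num), ?_, ?_⟩
  · exact v5_Dlo h 0.3 0.062 0.113 0.062 0.93988 1.2035 (by norm_num) hk1 hy1' hy2' (ex_lm 0.062 (by norm_num) (by norm_num) (by norm_num) (by norm_num) (by norm_num)) (by norm_num) (by norm_num) (by norm_num) (by norm_num)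
  · exact v5_Dup h 0.36 0.062 0.113 0.93989 0.89316 1.3294 hk2 hy1' hy2' (ex_um 0.062 (by norm_num) (by norm_num) (by norm_num) (by norm_num)) (ex_um 0.113 (by norm_num) (by norm_num) (by norm_num) (by norm_num)) (by norm_num) (by norm_num) (by norm_num)

private theorem B5Ao_T17_0_0 {β x y : ℝ} (hβ : 0 < β) (hN : β * 27.777 ≤ 1) (hx1 : 0.2428 ≤ x) (hx2 : x ≤ 0.3328)
    (hy1 : -0 ≤ y) (hy2 : y ≤ 0.1131) : ‖HH β (x + y * I) - 1‖ ≤ 0.03 := by
  refine le_epsJ (C := 0.1728) (N0 := 27.777) (J_boxp 0.2428 0.3328 0 0.1131 0.1131 0.881 0.3515 1.1618 1.3035 0.4301 5.2704 27.777 0.399 1.648 1.192 1.2921 0.4404 0.3819 1.0913 3.9066 0.4614 0.8246 1.5712 3.7092 0.000004873 0.00002473 0.0000003101 0.0000003101 0.000002722 0.0000003101 0.0000003101 0.0000003101 0.1728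
    hβ hN hx1 hx2 hy1 hy2 (by norm_num) (by norm_num) (by linarith) (by norm_num) (by norm_num) (by norm_num) (by norm_num) (by norm_num) (by norm_num) (by norm_num) (by norm_num) (by norm_num) (by norm_num) (by norm_num) (by norm_num) (by norm_num) (by norm_num) (by norm_num) (by norm_num) (by norm_num) (by norm_num) (by norm_num) (by norm_num) (by norm_num)
    (cube_sqrt_geJ (s := 0.9311) (by norm_num) (by norm_num) (by norm_num) (by norm_num))
    (cube_sqrt_geJ (s := 0.9752) (by norm_num) (by norm_num) (by norm_num) (by norm_num))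
    (by norm_num) (by norm_num) (by norm_num) (by norm_num) (by norm_num) (by norm_num) (by norm_num) (by norm_num) (by norm_num) (by norm_num) (by norm_num) (by norm_num) (by norm_num) (by norm_num) (by norm_num) (by norm_num) (by norm_num) (by norm_num)
    (exp_neg_leJ (r := 0.232) 12 (by norm_num) (by norm_num) (by norm_num) (by norm_num))
    (exp_neg_leJ (r := 0.608) 10 (by norm_num) (by norm_num) (by norm_num) (by norm_num))
    (exp_neg_leJ (r := 0.99) 14 (by norm_num) (by norm_num) (by norm_num) (by norm_num))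
    (exp_neg_leJ (r := 0.99) 14 (by norm_num) (by norm_num) (by norm_num) (by norm_num))
    (exp_neg_leJ (r := 0.816) 12 (by norm_num) (by norm_num) (by norm_num) (by norm_num))
    (exp_neg_leJ (r := 0.99) 14 (by norm_num) (by norm_num) (by norm_num) (by norm_num))
    (exp_neg_leJ (r := 0.99) 14 (by norm_num) (by norm_num) (by norm_num) (by norm_num))
    (exp_neg_leJ (r := 0.99) 14 (by norm_num) (by norm_num) (by norm_num) (by norm_num))
    (by norm_num)) (by norm_num) hN hβ.le (by norm_num)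

private theorem B5Ao_T17 {β x y : ℝ} (hβ : 0 < β) (hN : β * 27.777 ≤ 1) (hx1 : 0.2428 ≤ x) (hx2 : x ≤ 0.3328)
    (hy1 : 0.0619 ≤ y) (hy2 : y ≤ 0.1131) : ‖HH β (x + y * I) - 1‖ ≤ 0.03 := by
  exact B5Ao_T17_0_0 hβ hN (by linarith) (by linarith) (by linarith) (by linarith)

private theorem B5Ao_G18 {κ : ℝ} (hk1 : 0.3 ≤ κ) (hk2 : κ ≤ 0.36) : gG κ 0.66 ≤ 1.32977 ∧ 0.62174 ≤ Real.exp (-(κ * 0.66)) ^ 2 := by
  refine ⟨gG_le 0.66 0.3 0.36 1.32977 0.82037 0.78852 1.21897 1.26821 hk1 hk2 (by norm_num)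
    (ex_um 0.198 (by norm_num) (by norm_num) (by norm_num) (by norm_num)) (ex_um 0.2376 (by norm_num) (by norm_num) (by norm_num) (by norm_num))
    (ex_up 0.198 (by norm_num) (by norm_num) (by norm_num) (by norm_num)) (ex_up 0.2376 (by norm_num) (by norm_num) (by norm_num) (by norm_num))
    (by norm_num) (by norm_num), ?_⟩
  exact v5_M 0.78851 (ex_lm 0.2376 (by linarith) (by norm_num) (by norm_num) (by norm_num) (by norm_num)) (by norm_num) (by norm_num)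

private theorem B5Ao_C19 {β r t κ : ℝ} (hβ : 0 < β) (hr : 10 ≤ r) (hκ : κ = β * r) (hk1 : 0.3 ≤ κ) (hk2 : κ ≤ 0.36) (hta : 1.5076 ≤ t + κ)
    (htb : t + κ ≤ 1.6717) : ‖F (cexp (I * β)) (r * cexp (I * ((t + β / 2 : ℝ) : ℂ)))‖ ≤
      3.6236 * Real.exp (r * (1.32977 - 0.66 * (t + κ))) + 0.1036 * Real.exp (r * 0) :=
  v5_H 0.66 0.3 0.36 1.5076 1.6717 1.32977 3.4043 0.62174 0.0757 2.7182 0.1989 0.05544 0.576 0.00000203 3.6236 0.1036 hβ hr hκ (by norm_num) hk1 hk2 hta htb (by norm_num) (B5Ao_G18 hk1 hk2).1 (B5Ao_G18 hk1 hk2).2 (by norm_num) (by norm_num) (by norm_num)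
    (by norm_num) (by norm_num) (by norm_num) (by norm_num) (by norm_num) (by norm_num) (by norm_num) (by norm_num) (ex_un 0 0.5543 (by norm_num) (by norm_num) (by norm_num) (by norm_num))
    (v5_hump 3.3402 27.777 5.2704 0.0000009316 0.00000203 hβ hr hκ hk1 hk2 (by norm_num) htb (by norm_num) (by norm_num) (by norm_num) (by norm_num) (by norm_num) (by norm_num) (by norm_num) (ex_un 13 0.9 (by norm_num) (by norm_num) (by norm_num) (by norm_num)) (by norm_num)) (by norm_num) (by norm_num)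

private theorem B5Ao_C20 {β r t κ : ℝ} (hβ : 0 < β) (hr : 10 ≤ r) (hκ : κ = β * r) (hk1 : 0.3 ≤ κ) (hk2 : κ ≤ 0.36) (hta : (-2.2623) ≤ t + κ)
    (htb : t + κ ≤ (-2.0982)) : ‖F (cexp (I * β)) (r * cexp (I * ((t + β / 2 : ℝ) : ℂ)))‖ ≤
      2.2213 * Real.exp (r * (1.23725 - (-0.71) * (t + κ))) + 2.3051 * Real.exp (r * 0.0501) :=
  v5_HU (-0.71) 0.3 0.36 (-2.2623) (-2.0982) 1.23725 2.2213 1.5311 0.0757 1.3971 2.0896 0 0.0501 0.00000203 2.3051 hβ hr hκ (by norm_num) hk1 hk2 hta htb (by norm_num) (by norm_num) (B5Ao_G5 hk1 hk2).1 (B5Ao_G5 hk1 hk2).2 (by norm_num) (by norm_num) (by norm_num)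
    (by norm_num) (by norm_num) (by norm_num) (by norm_num) (by norm_num) (by norm_num) (by norm_num)
    (by norm_num) (by norm_num) (by norm_num) (v5_hump 7.1101 27.777 5.2704 0.0000009316 0.00000203 hβ hr hκ hk1 hk2 (by norm_num) htb (by norm_num) (by norm_num) (by norm_num) (by norm_num) (by norm_num) (by norm_num) (by norm_num) (ex_un 13 0.9 (by norm_num) (by norm_num) (by norm_num) (by norm_num)) (by norm_num)) (by norm_num)

private theorem B5Ao_C21 {β r t κ : ℝ} (hβ : 0 < β) (hr : 10 ≤ r) (hκ : κ = β * r) (hk1 : 0.3 ≤ κ) (hk2 : κ ≤ 0.36) (hta : 2.7642 ≤ t + κ)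
    (htb : t + κ ≤ 2.9283) : ‖F (cexp (I * β)) (r * cexp (I * ((t + β / 2 : ℝ) : ℂ)))‖ ≤
      3.4076 * Real.exp (r * (0.01 + 1 / 20)) :=
  v5_UD 0.3 0.36 2.7642 2.9283 0.01 0.7284 0.01 1.7765 3.4076 hβ hr hκ (by norm_num) hk1 hk2 hta htb (by norm_num) (by norm_num) (by norm_num) (by norm_num) (by norm_num) (by norm_num) (by norm_num) (by norm_num) (by norm_num) (by norm_num) (by norm_num)

private theorem B5Ao_Y22 {β r t κ h t' : ℝ} (hβ : 0 < β) (hκ : κ = β * r) (hN : β * 27.777 ≤ 1) (hk1 : 0.3 ≤ κ) (hk2 : κ ≤ 0.36)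
    (ht : t' = t + (((1 : ℤ) : ℝ) - 1) * h) (hD : DomR κ t') (hta : 0.251 ≤ t' + κ) (htb : t' + κ ≤ 0.415) :
    0.9033 * Real.exp (r * sE κ t') ≤ ‖Xf β r h t 1‖ := by
  obtain ⟨⟨ya, yb⟩, ⟨xa, xb⟩, n1, Da, Db⟩ := B5Ao_B16 hD hk1 hk2 hta htb
  have J := B5Ao_T17 (x := sx κ t') (y := sy κ t') hβ hN (by linarith only [xa, xb, ya, yb]) (by linarith only [xa, xb, ya, yb]) (by linarith only [xa, xb, ya, yb]) (by linarith only [xa, xb, ya, yb])
  exact v5_Jlo hβ hκ (k := 1) ht hD 0.03 1.3294 0.9033 (by norm_num) J Db (by norm_num)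

private theorem B5Ao_V23 {κ t : ℝ} (hD : DomR κ t) (hk1 : 0.3 ≤ κ) (hk2 : κ ≤ 0.36) (hta : 0.251 ≤ t + κ) (htb : t + κ ≤ 0.415) :
    1.04285 - 0.2814 * (t + κ) ≤ sE κ t := by
  have hκ0 : 0 < κ := hD.1
  exact v5_V1 hD 0.3 0.36 0.251 0.415 0.07747 0.15801 0.14549 1.04285 0.2814 (by norm_num) hk1 hk2 (by norm_num) (by norm_num) hta htb (by norm_num) (clo5 0.3 0.36 0.14549 (by norm_num) hk1 hk2 (by norm_num) (by norm_num) (by norm_num))
      ((cup1 0.36 hκ0.le hk2 (by norm_num)).trans (by norm_num)) (by norm_num) (by norm_num) (by norm_num) (by norm_num) (by norm_num) (by norm_num)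

private theorem B5Ao_K24 {β r t κ h : ℝ} (hβ : 0 < β) (hr : 10 ≤ r) (hκ : κ = β * r) (hk1 : 0.3 ≤ κ) (hk2 : κ ≤ 0.36)
    (hh : h = 2 * Real.pi / 5) (hh1 : 1.25663 ≤ h) (hh2 : h ≤ 1.25664) (hta : 0.251 ≤ t + κ) (htb : t + κ ≤ 0.415)
    (hY : 0.9033 * Real.exp (r * sE κ t) ≤ ‖Xf β r h t 1‖) (hV : 1.04285 - 0.2814 * (t + κ) ≤ sE κ t) :
    ‖Xf β r h t 2‖ ≤ 0.00687 * ‖Xf β r h t 1‖ := by
  rw [v5_X 2 1 (by push_cast; ring)]
  exact v5_cmp 0.6374 0.001707 0.00685 0.926 0.00009518 0.000011 0.00687 hr (B5Ao_C19 (t := t + 1 * h) hβ hr hκ hk1 hk2 (by linarith only [hta, htb, hh1, hh2]) (by linarith only [hta, htb, hh1, hh2])) hY (by norm_num) (by norm_num) (by norm_num) (by norm_num) (by linarith only [hV, hta, htb, hh1, hh2]) (ex_un 6 0.3739 (by norm_num) (by norm_num) (by norm_num) (by norm_num)) (by norm_num) (by norm_num) (by linarith only [hV, hta, htb, hh1, hh2]) (ex_un 9 0.2599 (by norm_num)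 (by norm_num) (by norm_num) (by norm_num)) (by norm_num) (by norm_num)

private theorem B5Ao_K25 {β r t κ h : ℝ} (hβ : 0 < β) (hr : 10 ≤ r) (hκ : κ = β * r) (hk1 : 0.3 ≤ κ) (hk2 : κ ≤ 0.36)
    (hh : h = 2 * Real.pi / 5) (hh1 : 1.25663 ≤ h) (hh2 : h ≤ 1.25664) (hta : 0.251 ≤ t + κ) (htb : t + κ ≤ 0.415)
    (hY : 0.9033 * Real.exp (r * sE κ t) ≤ ‖Xf β r h t 1‖) (hV : 1.04285 - 0.2814 * (t + κ) ≤ sE κ t) :
    ‖Xf β r h t (-1)‖ ≤ 0.000423 * ‖Xf β r h t 1‖ := by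
  rw [v5_X (-1) (-2) (by push_cast; ring)]
  exact v5_cmp 1.1785 0.000007685 0.0000189 0.8759 0.0001583 0.000404 0.000423 hr (B5Ao_C20 (t := t + (-2) * h) hβ hr hκ hk1 hk2 (by linarith only [hta, htb, hh1, hh2]) (by linarith only [hta, htb, hh1, hh2])) hY (by norm_num) (by norm_num) (by norm_num) (by norm_num) (by linarith only [hV, hta, htb, hh1, hh2]) (ex_un 11 0.7849 (by norm_num) (by norm_num) (by norm_num) (by norm_num)) (by norm_num) (by norm_num) (by linarith only [hV, hta, htb, hh1, hh2]) (ex_un 8 0.7589 (by norm_num) (by norm_num) (by norm_num) (by norm_num)) (by norm_num) (by norm_num)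

private theorem B5Ao_K26 {β r t κ h : ℝ} (hβ : 0 < β) (hr : 10 ≤ r) (hκ : κ = β * r) (hk1 : 0.3 ≤ κ) (hk2 : κ ≤ 0.36)
    (hh : h = 2 * Real.pi / 5) (hh1 : 1.25663 ≤ h) (hh2 : h ≤ 1.25664) (hta : 0.251 ≤ t + κ) (htb : t + κ ≤ 0.415)
    (hY : 0.9033 * Real.exp (r * sE κ t) ≤ ‖Xf β r h t 1‖) (hV : 1.04285 - 0.2814 * (t + κ) ≤ sE κ t) :
    ‖Xf β r h t (-2)‖ ≤ 0.000658 * ‖Xf β r h t 1‖ := by
  rw [v5_Xm2 hh]
  exact v5_cmp0 0.866 0.0001743 0.000658 hr (B5Ao_C21 (t := t + 2 * h) hβ hr hκ hk1 hk2 (by linarith only [hta, htb, hh1, hh2]) (by linarith only [hta, htb, hh1, hh2])) hY (by norm_num) (by norm_num) (by norm_num) (by linarith only [hV, hta, htb, hh1, hh2]) (ex_un 8 0.6599 (by norm_num) (by norm_num) (by norm_num) (by norm_num)) (by norm_num)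

private theorem B5Ao_C27 {β r t κ : ℝ} (hβ : 0 < β) (hr : 10 ≤ r) (hκ : κ = β * r) (hk1 : 0.3 ≤ κ) (hk2 : κ ≤ 0.36) (hta : (-1.0057) ≤ t + κ)
    (htb : t + κ ≤ (-0.8416)) : ‖F (cexp (I * β)) (r * cexp (I * ((t + β / 2 : ℝ) : ℂ)))‖ ≤
      2.2213 * Real.exp (r * (1.23725 - (-0.71) * (t + κ))) + 2.2915 * Real.exp (r * 0.3549) :=
  v5_HU (-0.71) 0.3 0.36 (-1.0057) (-0.8416) 1.23725 2.2213 1.5311 0.0757 1.3971 3.3462 0.4293 0.3549 0.00000203 2.2915 hβ hr hκ (by norm_num) hk1 hk2 hta htb (by norm_num) (by norm_num) (B5Ao_G5 hk1 hk2).1 (B5Ao_G5 hk1 hk2).2 (by norm_num) (by norm_num) (by norm_num)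
    (by norm_num) (by norm_num) (by norm_num) (by norm_num) (by norm_num) (by norm_num) (by norm_num)
    (by norm_num) (by norm_num) (by norm_num) (v5_hump 5.8535 27.777 5.2704 0.0000009316 0.00000203 hβ hr hκ hk1 hk2 (by norm_num) htb (by norm_num) (by norm_num) (by norm_num) (by norm_num) (by norm_num) (by norm_num) (by norm_num) (ex_un 13 0.9 (by norm_num) (by norm_num) (by norm_num) (by norm_num)) (by norm_num)) (by norm_num)

private theorem B5Ao_K28 {β r t κ h : ℝ} (hβ : 0 < β) (hr : 10 ≤ r) (hκ : κ = β * r) (hk1 : 0.3 ≤ κ) (hk2 : κ ≤ 0.36)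
    (hh : h = 2 * Real.pi / 5) (hh1 : 1.25663 ≤ h) (hh2 : h ≤ 1.25664) (hta : 0.251 ≤ t + κ) (htb : t + κ ≤ 0.415)
    (hY : 0.9033 * Real.exp (r * sE κ t) ≤ ‖Xf β r h t 1‖) (hV : 1.04285 - 0.2814 * (t + κ) ≤ sE κ t) :
    ‖Xf β r h t 0‖ ≤ 0.152 * ‖Xf β r h t 1‖ := by
  rw [v5_X 0 (-1) (by push_cast; ring)]
  exact v5_cmp 0.2863 0.05778 0.143 0.5711 0.00333 0.00845 0.152 hr (B5Ao_C27 (t := t + (-1) * h) hβ hr hκ hk1 hk2 (by linarith only [hta, htb, hh1, hh2]) (by linarith only [hta, htb, hh1, hh2])) hY (by norm_num) (by norm_num) (by norm_num) (by norm_num) (by linarith only [hV, hta, htb, hh1, hh2]) (ex_un 2 0.8629 (by norm_num) (by norm_num) (by norm_num) (by norm_num)) (by norm_num) (by norm_num) (by linarith only [hV, hta, htb, hh1, hh2]) (ex_un 5 0.7109 (by norm_num) (by norm_num) (by norm_num) (by norm_num)) (by norm_num) (by norm_num)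

private theorem B5Ao_O29 {β r t κ h : ℝ} (hβ : 0 < β) (hr : 10 ≤ r) (hκ : κ = β * r) (hk1 : 0.3 ≤ κ) (hk2 : κ ≤ 0.36)
    (hh : h = 2 * Real.pi / 5) (hta : 0.251 ≤ t + κ) (htb : t + κ ≤ 0.415) :
    ‖Xf β r h t (-2)‖ + ‖Xf β r h t (-1)‖ + ‖Xf β r h t 2‖ < |‖Xf β r h t 1‖ - ‖Xf β r h t 0‖| := by
  obtain ⟨hh1, hh2⟩ := v5_h hh
  have hκ0 : 0 < κ := by linarith only [hk1]
  have hN : β * 27.777 ≤ 1 := v5_hN 0.36 27.777 hβ hr hκ hk2 (by norm_num) (by norm_num)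
  have hD1 : DomR κ t := v5_dom hκ0 (by linarith only [hta, htb, hk1, hk2, hh1, hh2]) (Or.inr (by linarith only [hta, htb, hk1, hk2, hh1, hh2]))
  have e1 : t = t + (((1 : ℤ) : ℝ) - 1) * h := by push_cast; ring
  have hY := B5Ao_Y22 (h := h) hβ hκ hN hk1 hk2 e1 hD1 hta htb
  have hV := B5Ao_V23 hD1 hk1 hk2 hta htb
  have cp2 := B5Ao_K24 hβ hr hκ hk1 hk2 hh hh1 hh2 hta htb hY hV
  have cm1 := B5Ao_K25 hβ hr hκ hk1 hk2 hh hh1 hh2 hta htb hY hV
  have cm2 := B5Ao_K26 hβ hr hκ hk1 hk2 hh hh1 hh2 hta htb hY hV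
  have cn0 := B5Ao_K28 hβ hr hκ hk1 hk2 hh hh1 hh2 hta htb hY hV
  have hp : 0 < ‖Xf β r h t 1‖ := lt_of_lt_of_le (by positivity) hY
  exact v5_out1 _ _ _ _ cm2 cm1 cp2 cn0 hp (by norm_num)

private theorem B5Ao_B30 {κ t : ℝ} (h : DomR κ t) (hk1 : 0.3 ≤ κ) (hk2 : κ ≤ 0.36) (ht1 : 0.415 ≤ t + κ) (ht2 : t + κ ≤ 0.5655) :
    (0.097 ≤ sy κ t ∧ sy κ t ≤ 0.145) ∧ (0.2151 ≤ sx κ t ∧ sx κ t ≤ 0.312) ∧ κ * Real.exp (-sy κ t) ≤ 0.3268 ∧ 1.2681 ≤ sD κ t ∧ sD κ t ≤ 1.387 := by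
  have hy1 : 0.097 ≤ sy κ t := syR_ge h 0.3 0.36 0.415 0.097 1.10186 1.10187 0.29689 0.35628 hk1 hk2 (by linarith) (by norm_num) (by norm_num)
    (expn_ge (by norm_num) (by norm_num)) (expn_le (by norm_num) (by norm_num) (by norm_num)) (by norm_num)
    (by norm_num) (by norm_num) (by norm_num) (by norm_num) (by norm_num) (by norm_num)
  have hy2 : sy κ t ≤ 0.145 := syR_le h 0.3 0.36 0.5655 0.145 1.15603 0.45 0.46562 0.55876 hk1 hk2 (by linarith) (by norm_num) (by norm_num)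
    (expn_ge (by norm_num) (by norm_num)) (by norm_num) (by norm_num) (Or.inr ((mul_le_mul_of_nonneg_left (expn_le (E := 1.15604) (by norm_num) (by norm_num) (by norm_num)) (by norm_num)).trans (by norm_num))) (by norm_num) (by norm_num) (by norm_num)
  have hy1' : 0.097 ≤ sy κ t := by linarith
  have hy2' : sy κ t ≤ 0.145 := by linarith
  have hx1 : 0.2151 ≤ sx κ t := sx_lo h 0.3 0.145 0.1451 0.86502 0.2151 hk1 (by norm_num) hy2' (abs_le.2 ⟨by linarith, by linarith⟩) (ex_lm 0.145 (by norm_num) (by norm_num) (by norm_num) (by norm_num) (by norm_num)) (by norm_num) (by norm_num)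
  have hx2 : sx κ t ≤ 0.312 := sx_hi h 0.36 0.097 0.097 0.90756 0.312 hk2 hy1' (by norm_num) (le_trans (by linarith) (le_abs_self _)) (ex_um 0.097 (by norm_num) (by norm_num) (by norm_num) (by norm_num)) (by norm_num) (by norm_num)
  refine ⟨⟨hy1', hy2'⟩, ⟨hx1, hx2⟩, v5_n h 0.36 0.097 0.90756 0.3268 hk2 hy1' (ex_um 0.097 (by norm_num) (by norm_num) (by norm_num) (by norm_num)) (by norm_num), ?_, ?_⟩
  · exact v5_Dlo h 0.3 0.097 0.145 0.097 0.90755 1.2681 (by norm_num) hk1 hy1' hy2' (ex_lm 0.097 (by norm_num) (by norm_num) (by norm_num) (by norm_num) (by norm_num)) (by norm_num) (by norm_num) (by norm_num) (by norm_num)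
  · exact v5_Dup h 0.36 0.097 0.145 0.90756 0.86503 1.387 hk2 hy1' hy2' (ex_um 0.097 (by norm_num) (by norm_num) (by norm_num) (by norm_num)) (ex_um 0.145 (by norm_num) (by norm_num) (by norm_num) (by norm_num)) (by norm_num) (by norm_num) (by norm_num)

private theorem B5Ao_T31_0_0 {β x y : ℝ} (hβ : 0 < β) (hN : β * 27.777 ≤ 1) (hx1 : 0.215 ≤ x) (hx2 : x ≤ 0.3121)
    (hy1 : -0 ≤ y) (hy2 : y ≤ 0.1451) : ‖HH β (x + y * I) - 1‖ ≤ 0.03 := by
  refine le_epsJ (C := 0.1815) (N0 := 27.777) (J_boxp 0.215 0.3121 0 0.1451 0.1451 0.8614 0.3442 1.1869 1.3627 0.4347 5.2704 27.777 0.3996 1.65 1.192 1.3 0.4306 0.3733 1.0818 3.915 0.4446 0.7828 1.3783 3.5227 0.000006415 0.0000314 0.0000003101 0.0000003101 0.000004335 0.0000003101 0.0000003101 0.0000003101 0.1815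
    hβ hN hx1 hx2 hy1 hy2 (by norm_num) (by norm_num) (by linarith) (by norm_num) (by norm_num) (by norm_num) (by norm_num) (by norm_num) (by norm_num) (by norm_num) (by norm_num) (by norm_num) (by norm_num) (by norm_num) (by norm_num) (by norm_num) (by norm_num) (by norm_num) (by norm_num) (by norm_num) (by norm_num) (by norm_num) (by norm_num) (by norm_num)
    (cube_sqrt_geJ (s := 0.931) (by norm_num) (by norm_num) (by norm_num) (by norm_num))
    (cube_sqrt_geJ (s := 0.9752) (by norm_num) (by norm_num) (by norm_num) (by norm_num))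
    (by norm_num) (by norm_num) (by norm_num) (by norm_num) (by norm_num) (by norm_num) (by norm_num) (by norm_num) (by norm_num) (by norm_num) (by norm_num) (by norm_num) (by norm_num) (by norm_num) (by norm_num) (by norm_num) (by norm_num) (by norm_num)
    (exp_neg_leJ (r := 0.96) 11 (by norm_num) (by norm_num) (by norm_num) (by norm_num))
    (exp_neg_leJ (r := 0.369) 10 (by norm_num) (by norm_num) (by norm_num) (by norm_num))
    (exp_neg_leJ (r := 0.99) 14 (by norm_num) (by norm_num) (by norm_num) (by norm_num))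
    (exp_neg_leJ (r := 0.99) 14 (by norm_num) (by norm_num) (by norm_num) (by norm_num))
    (exp_neg_leJ (r := 0.349) 12 (by norm_num) (by norm_num) (by norm_num) (by norm_num))
    (exp_neg_leJ (r := 0.99) 14 (by norm_num) (by norm_num) (by norm_num) (by norm_num))
    (exp_neg_leJ (r := 0.99) 14 (by norm_num) (by norm_num) (by norm_num) (by norm_num))
    (exp_neg_leJ (r := 0.99) 14 (by norm_num) (by norm_num) (by norm_num) (by norm_num))
    (by norm_num)) (by norm_num) hN hβ.le (by norm_num)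

private theorem B5Ao_T31 {β x y : ℝ} (hβ : 0 < β) (hN : β * 27.777 ≤ 1) (hx1 : 0.215 ≤ x) (hx2 : x ≤ 0.3121)
    (hy1 : 0.0969 ≤ y) (hy2 : y ≤ 0.1451) : ‖HH β (x + y * I) - 1‖ ≤ 0.03 := by
  exact B5Ao_T31_0_0 hβ hN (by linarith) (by linarith) (by linarith) (by linarith)

private theorem B5Ao_G32 {κ : ℝ} (hk1 : 0.3 ≤ κ) (hk2 : κ ≤ 0.36) : gG κ 0.68 ≤ 1.35558 ∧ 0.61286 ≤ Real.exp (-(κ * 0.68)) ^ 2 := by
  refine ⟨gG_le 0.68 0.3 0.36 1.35558 0.81547 0.78287 1.2263 1.27737 hk1 hk2 (by norm_num)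
    (ex_um 0.204 (by norm_num) (by norm_num) (by norm_num) (by norm_num)) (ex_um 0.2448 (by norm_num) (by norm_num) (by norm_num) (by norm_num))
    (ex_up 0.204 (by norm_num) (by norm_num) (by norm_num) (by norm_num)) (ex_up 0.2448 (by norm_num) (by norm_num) (by norm_num) (by norm_num))
    (by norm_num) (by norm_num), ?_⟩
  exact v5_M 0.78286 (ex_lm 0.2448 (by linarith) (by norm_num) (by norm_num) (by norm_num) (by norm_num)) (by norm_num) (by norm_num)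

private theorem B5Ao_C33 {β r t κ : ℝ} (hβ : 0 < β) (hr : 10 ≤ r) (hκ : κ = β * r) (hk1 : 0.3 ≤ κ) (hk2 : κ ≤ 0.36) (hta : 1.6716 ≤ t + κ)
    (htb : t + κ ≤ 1.8222) : ‖F (cexp (I * β)) (r * cexp (I * ((t + β / 2 : ℝ) : ℂ)))‖ ≤
      4.6128 * Real.exp (r * (1.35558 - 0.68 * (t + κ))) + 0.102 * Real.exp (r * 0) :=
  v5_H 0.68 0.3 0.36 1.6716 1.8222 1.35558 3.5903 0.61286 0.0757 2.8822 0.0484 0.04263 0.6537 0.00000203 4.6128 0.102 hβ hr hκ (by norm_num) hk1 hk2 hta htb (by norm_num) (B5Ao_G32 hk1 hk2).1 (B5Ao_G32 hk1 hk2).2 (by norm_num) (by norm_num) (by norm_num)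
    (by norm_num) (by norm_num) (by norm_num) (by norm_num) (by norm_num) (by norm_num) (by norm_num) (by norm_num) (ex_un 0 0.4262 (by norm_num) (by norm_num) (by norm_num) (by norm_num))
    (v5_hump 3.1897 27.777 5.2704 0.0000009316 0.00000203 hβ hr hκ hk1 hk2 (by norm_num) htb (by norm_num) (by norm_num) (by norm_num) (by norm_num) (by norm_num) (by norm_num) (by norm_num) (ex_un 13 0.9 (by norm_num) (by norm_num) (by norm_num) (by norm_num)) (by norm_num)) (by norm_num) (by norm_num)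

private theorem B5Ao_C34 {β r t κ : ℝ} (hβ : 0 < β) (hr : 10 ≤ r) (hκ : κ = β * r) (hk1 : 0.3 ≤ κ) (hk2 : κ ≤ 0.36) (hta : (-2.0983) ≤ t + κ)
    (htb : t + κ ≤ (-1.9477)) : ‖F (cexp (I * β)) (r * cexp (I * ((t + β / 2 : ℝ) : ℂ)))‖ ≤
      2.2213 * Real.exp (r * (1.23725 - (-0.71) * (t + κ))) + 2.3025 * Real.exp (r * 0.0501) :=
  v5_HU (-0.71) 0.3 0.36 (-2.0983) (-1.9477) 1.23725 2.2213 1.5311 0.0757 1.3971 2.2536 0 0.0501 0.00000203 2.3025 hβ hr hκ (by norm_num) hk1 hk2 hta htb (by norm_num) (by norm_num) (B5Ao_G5 hk1 hk2).1 (B5Ao_G5 hk1 hk2).2 (by norm_num) (by norm_num) (by norm_num)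
    (by norm_num) (by norm_num) (by norm_num) (by norm_num) (by norm_num) (by norm_num) (by norm_num)
    (by norm_num) (by norm_num) (by norm_num) (v5_hump 6.9596 27.777 5.2704 0.0000009316 0.00000203 hβ hr hκ hk1 hk2 (by norm_num) htb (by norm_num) (by norm_num) (by norm_num) (by norm_num) (by norm_num) (by norm_num) (by norm_num) (ex_un 13 0.9 (by norm_num) (by norm_num) (by norm_num) (by norm_num)) (by norm_num)) (by norm_num)

private theorem B5Ao_C35 {β r t κ : ℝ} (hβ : 0 < β) (hr : 10 ≤ r) (hκ : κ = β * r) (hk1 : 0.3 ≤ κ) (hk2 : κ ≤ 0.36) (hta : 2.9282 ≤ t + κ)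
    (htb : t + κ ≤ 3.0788) : ‖F (cexp (I * β)) (r * cexp (I * ((t + β / 2 : ℝ) : ℂ)))‖ ≤
      3.3978 * Real.exp (r * (0.01 + 1 / 20)) :=
  v5_UD 0.3 0.36 2.9282 3.0788 0.01 0.7284 0.01 1.7714 3.3978 hβ hr hκ (by norm_num) hk1 hk2 hta htb (by norm_num) (by norm_num) (by norm_num) (by norm_num) (by norm_num) (by norm_num) (by norm_num) (by norm_num) (by norm_num) (by norm_num) (by norm_num)

private theorem B5Ao_Y36 {β r t κ h t' : ℝ} (hβ : 0 < β) (hκ : κ = β * r) (hN : β * 27.777 ≤ 1) (hk1 : 0.3 ≤ κ) (hk2 : κ ≤ 0.36)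
    (ht : t' = t + (((1 : ℤ) : ℝ) - 1) * h) (hD : DomR κ t') (hta : 0.415 ≤ t' + κ) (htb : t' + κ ≤ 0.5655) :
    0.8938 * Real.exp (r * sE κ t') ≤ ‖Xf β r h t 1‖ := by
  obtain ⟨⟨ya, yb⟩, ⟨xa, xb⟩, n1, Da, Db⟩ := B5Ao_B30 hD hk1 hk2 hta htb
  have J := B5Ao_T31 (x := sx κ t') (y := sy κ t') hβ hN (by linarith only [xa, xb, ya, yb]) (by linarith only [xa, xb, ya, yb]) (by linarith only [xa, xb, ya, yb]) (by linarith only [xa, xb, ya, yb])
  exact v5_Jlo hβ hκ (k := 1) ht hD 0.03 1.387 0.8938 (by norm_num) J Db (by norm_num)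

private theorem B5Ao_V37 {κ t : ℝ} (hD : DomR κ t) (hk1 : 0.3 ≤ κ) (hk2 : κ ≤ 0.36) (hta : 0.415 ≤ t + κ) (htb : t + κ ≤ 0.5655) :
    1.09411 - 0.407 * (t + κ) ≤ sE κ t := by
  have hκ0 : 0 < κ := hD.1
  exact v5_V1 hD 0.3 0.36 0.415 0.5655 0.06422 0.15801 0.14549 1.09411 0.407 (by norm_num) hk1 hk2 (by norm_num) (by norm_num) hta htb (by norm_num) (clo5 0.3 0.36 0.14549 (by norm_num) hk1 hk2 (by norm_num) (by norm_num) (by norm_num))
      ((cup1 0.36 hκ0.le hk2 (by norm_num)).trans (by norm_num)) (by norm_num) (by norm_num) (by norm_num) (by norm_num) (by norm_num) (by norm_num)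

private theorem B5Ao_K38 {β r t κ h : ℝ} (hβ : 0 < β) (hr : 10 ≤ r) (hκ : κ = β * r) (hk1 : 0.3 ≤ κ) (hk2 : κ ≤ 0.36)
    (hh : h = 2 * Real.pi / 5) (hh1 : 1.25663 ≤ h) (hh2 : h ≤ 1.25664) (hta : 0.415 ≤ t + κ) (htb : t + κ ≤ 0.5655)
    (hY : 0.8938 * Real.exp (r * sE κ t) ≤ ‖Xf β r h t 1‖) (hV : 1.09411 - 0.407 * (t + κ) ≤ sE κ t) :
    ‖Xf β r h t 2‖ ≤ 0.00445 * ‖Xf β r h t 1‖ := by
  rw [v5_X 2 1 (by push_cast; ring)]
  exact v5_cmp 0.7063 0.0008563 0.00442 0.8639 0.0001779 0.0000204 0.00445 hr (B5Ao_C33 (t := t + 1 * h) hβ hr hκ hk1 hk2 (by linarith only [hta, htb, hh1, hh2]) (by linarith only [hta, htb, hh1, hh2])) hY (by norm_num) (by norm_num) (by norm_num) (by norm_num) (by linarith only [hV, hta, htb, hh1, hh2]) (ex_un 7 0.0629 (by norm_num) (by norm_num) (by norm_num) (by norm_num)) (by norm_num) (by norm_num) (by linarith only [hV, hta, htb, hh1, hh2]) (ex_un 8 0.6389 (by norm_num)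 (by norm_num) (by norm_num) (by norm_num)) (by norm_num) (by norm_num)

private theorem B5Ao_K39 {β r t κ h : ℝ} (hβ : 0 < β) (hr : 10 ≤ r) (hκ : κ = β * r) (hk1 : 0.3 ≤ κ) (hk2 : κ ≤ 0.36)
    (hh : h = 2 * Real.pi / 5) (hh1 : 1.25663 ≤ h) (hh2 : h ≤ 1.25664) (hta : 0.415 ≤ t + κ) (htb : t + κ ≤ 0.5655)
    (hY : 0.8938 * Real.exp (r * sE κ t) ≤ ‖Xf β r h t 1‖) (hV : 1.09411 - 0.407 * (t + κ) ≤ sE κ t) :
    ‖Xf β r h t (-1)‖ ≤ 0.000857 * ‖Xf β r h t 1‖ := by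
  rw [v5_X (-1) (-2) (by push_cast; ring)]
  exact v5_cmp 1.0096 0.00004125 0.000103 0.8138 0.0002923 0.000753 0.000857 hr (B5Ao_C34 (t := t + (-2) * h) hβ hr hκ hk1 hk2 (by linarith only [hta, htb, hh1, hh2]) (by linarith only [hta, htb, hh1, hh2])) hY (by norm_num) (by norm_num) (by norm_num) (by norm_num) (by linarith only [hV, hta, htb, hh1, hh2]) (ex_un 10 0.0959 (by norm_num) (by norm_num) (by norm_num) (by norm_num)) (by norm_num) (by norm_num) (by linarith only [hV, hta, htb, hh1, hh2]) (ex_un 8 0.1379 (by norm_num) (by norm_num) (by norm_num) (by norm_num)) (by norm_num) (by norm_num)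

private theorem B5Ao_K40 {β r t κ h : ℝ} (hβ : 0 < β) (hr : 10 ≤ r) (hκ : κ = β * r) (hk1 : 0.3 ≤ κ) (hk2 : κ ≤ 0.36)
    (hh : h = 2 * Real.pi / 5) (hh1 : 1.25663 ≤ h) (hh2 : h ≤ 1.25664) (hta : 0.415 ≤ t + κ) (htb : t + κ ≤ 0.5655)
    (hY : 0.8938 * Real.exp (r * sE κ t) ≤ ‖Xf β r h t 1‖) (hV : 1.09411 - 0.407 * (t + κ) ≤ sE κ t) :
    ‖Xf β r h t (-2)‖ ≤ 0.00123 * ‖Xf β r h t 1‖ := by
  rw [v5_Xm2 hh]
  exact v5_cmp0 0.8039 0.0003227 0.00123 hr (B5Ao_C35 (t := t + 2 * h) hβ hr hκ hk1 hk2 (by linarith only [hta, htb, hh1, hh2]) (by linarith only [hta, htb, hh1, hh2])) hY (by norm_num) (by norm_num) (by norm_num) (by linarith only [hV, hta, htb, hh1, hh2]) (ex_un 8 0.0389 (by norm_num) (by norm_num) (by norm_num) (by norm_num)) (by norm_num)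

private theorem B5Ao_C41 {β r t κ : ℝ} (hβ : 0 < β) (hr : 10 ≤ r) (hκ : κ = β * r) (hk1 : 0.3 ≤ κ) (hk2 : κ ≤ 0.36) (hta : (-0.8417) ≤ t + κ)
    (htb : t + κ ≤ (-0.6911)) : ‖F (cexp (I * β)) (r * cexp (I * ((t + β / 2 : ℝ) : ℂ)))‖ ≤
      2.2213 * Real.exp (r * (1.23725 - (-0.71) * (t + κ))) + 2.2904 * Real.exp (r * 0.4617) :=
  v5_HU (-0.71) 0.3 0.36 (-0.8417) (-0.6911) 1.23725 2.2213 1.5311 0.0757 1.3971 3.5102 0.5798 0.4617 0.00000203 2.2904 hβ hr hκ (by norm_num) hk1 hk2 hta htb (by norm_num) (by norm_num) (B5Ao_G5 hk1 hk2).1 (B5Ao_G5 hk1 hk2).2 (by norm_num) (by norm_num) (by norm_num)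
    (by norm_num) (by norm_num) (by norm_num) (by norm_num) (by norm_num) (by norm_num) (by norm_num)
    (by norm_num) (by norm_num) (by norm_num) (v5_hump 5.703 27.777 5.2704 0.0000009316 0.00000203 hβ hr hκ hk1 hk2 (by norm_num) htb (by norm_num) (by norm_num) (by norm_num) (by norm_num) (by norm_num) (by norm_num) (by norm_num) (ex_un 13 0.9 (by norm_num) (by norm_num) (by norm_num) (by norm_num)) (by norm_num)) (by norm_num)

private theorem B5Ao_K42 {β r t κ h : ℝ} (hβ : 0 < β) (hr : 10 ≤ r) (hκ : κ = β * r) (hk1 : 0.3 ≤ κ) (hk2 : κ ≤ 0.36)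
    (hh : h = 2 * Real.pi / 5) (hh1 : 1.25663 ≤ h) (hh2 : h ≤ 1.25664) (hta : 0.415 ≤ t + κ) (htb : t + κ ≤ 0.5655)
    (hY : 0.8938 * Real.exp (r * sE κ t) ≤ ‖Xf β r h t 1‖) (hV : 1.09411 - 0.407 * (t + κ) ≤ sE κ t) :
    ‖Xf β r h t 0‖ ≤ 0.816 * ‖Xf β r h t 1‖ := by
  rw [v5_X 0 (-1) (by push_cast; ring)]
  exact v5_cmp 0.1174 0.3092 0.769 0.4022 0.01792 0.046 0.816 hr (B5Ao_C41 (t := t + (-1) * h) hβ hr hκ hk1 hk2 (by linarith only [hta, htb, hh1, hh2]) (by linarith only [hta, htb, hh1, hh2])) hY (by norm_num) (by norm_num) (by norm_num) (by norm_num) (by linarith only [hV, hta, htb, hh1, hh2]) (ex_un 1 0.1739 (by norm_num) (by norm_num) (by norm_num) (by norm_num)) (by norm_num) (by norm_num) (by linarith only [hV, hta, htb, hh1, hh2]) (ex_un 4 0.0219 (by norm_num) (by norm_num) (by norm_num) (by norm_num)) (by norm_num) (by norm_num)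

private theorem B5Ao_O43 {β r t κ h : ℝ} (hβ : 0 < β) (hr : 10 ≤ r) (hκ : κ = β * r) (hk1 : 0.3 ≤ κ) (hk2 : κ ≤ 0.36)
    (hh : h = 2 * Real.pi / 5) (hta : 0.415 ≤ t + κ) (htb : t + κ ≤ 0.5655) :
    ‖Xf β r h t (-2)‖ + ‖Xf β r h t (-1)‖ + ‖Xf β r h t 2‖ < |‖Xf β r h t 1‖ - ‖Xf β r h t 0‖| := by
  obtain ⟨hh1, hh2⟩ := v5_h hh
  have hκ0 : 0 < κ := by linarith only [hk1]
  have hN : β * 27.777 ≤ 1 := v5_hN 0.36 27.777 hβ hr hκ hk2 (by norm_num) (by norm_num)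
  have hD1 : DomR κ t := v5_dom hκ0 (by linarith only [hta, htb, hk1, hk2, hh1, hh2]) (Or.inr (by linarith only [hta, htb, hk1, hk2, hh1, hh2]))
  have e1 : t = t + (((1 : ℤ) : ℝ) - 1) * h := by push_cast; ring
  have hY := B5Ao_Y36 (h := h) hβ hκ hN hk1 hk2 e1 hD1 hta htb
  have hV := B5Ao_V37 hD1 hk1 hk2 hta htb
  have cp2 := B5Ao_K38 hβ hr hκ hk1 hk2 hh hh1 hh2 hta htb hY hV
  have cm1 := B5Ao_K39 hβ hr hκ hk1 hk2 hh hh1 hh2 hta htb hY hV
  have cm2 := B5Ao_K40 hβ hr hκ hk1 hk2 hh hh1 hh2 hta htb hY hV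
  have cn0 := B5Ao_K42 hβ hr hκ hk1 hk2 hh hh1 hh2 hta htb hY hV
  have hp : 0 < ‖Xf β r h t 1‖ := lt_of_lt_of_le (by positivity) hY
  exact v5_out1 _ _ _ _ cm2 cm1 cp2 cn0 hp (by norm_num)

private theorem B5Ao_B44 {κ t : ℝ} (h : DomR κ t) (hk1 : 0.3 ≤ κ) (hk2 : κ ≤ 0.36) (ht1 : (-0.4902) ≤ t + κ) (ht2 : t + κ ≤ (-0.3766)) :
    ((-0.195) ≤ sy κ t ∧ sy κ t ≤ (-0.118)) ∧ (0.2754 ≤ sx κ t ∧ sx κ t ≤ 0.4214) ∧ κ * Real.exp (-sy κ t) ≤ 0.4376 ∧ 0.7429 ≤ sD κ t ∧ sD κ t ≤ 0.9281 := by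
  have hy1 : -0.195 ≤ sy κ t := syL_ge h 0.3 0.36 0.4902 0.195 0.82283 0.82284 0.4308 0.44569 0.53485 hk1 hk2 (by linarith) (by norm_num) (by norm_num) (by norm_num)
    (expm_ge (by norm_num) (by norm_num) (by norm_num) (by norm_num)) (expm_le (by norm_num) (by norm_num) (by norm_num)) (by norm_num)
    (by norm_num) (by norm_num) (by norm_num) (by norm_num) (by norm_num) (by norm_num)
  have hy2 : sy κ t ≤ -0.118 := syL_le h 0.3 0.36 0.3766 0.118 0.88869 0.8887 0.29129 0.34956 hk1 hk2 (by linarith) (by norm_num) (by norm_num) (by norm_num)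
    (expm_ge (by norm_num) (by norm_num) (by norm_num) (by norm_num)) (expm_le (by norm_num) (by norm_num) (by norm_num)) (by norm_num)
    (by norm_num) (by norm_num) (by norm_num) (by norm_num) (by norm_num) (by norm_num)
  have hy1' : (-0.195) ≤ sy κ t := by linarith
  have hy2' : sy κ t ≤ (-0.118) := by linarith
  have hx1 : 0.2754 ≤ sx κ t := sx_lo h 0.3 (-0.118) 0.1951 1.12524 0.2754 hk1 (by norm_num) hy2' (abs_le.2 ⟨by linarith, by linarith⟩) (ex_lp 0.118 (by norm_num) (by norm_num) (by norm_num)) (by norm_num) (by norm_num)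
  have hx2 : sx κ t ≤ 0.4214 := sx_hi h 0.36 (-0.195) 0.118 1.21532 0.4214 hk2 hy1' (by norm_num) (le_trans (by linarith) (neg_le_abs _)) (ex_up 0.195 (by norm_num) (by norm_num) (by norm_num) (by norm_num)) (by norm_num) (by norm_num)
  refine ⟨⟨hy1', hy2'⟩, ⟨hx1, hx2⟩, v5_n h 0.36 (-0.195) 1.21532 0.4376 hk2 hy1' (ex_up 0.195 (by norm_num) (by norm_num) (by norm_num) (by norm_num)) (by norm_num), ?_, ?_⟩
  · exact v5_Dlo h 0.3 (-0.195) (-0.118) (-0.195) 1.21531 0.7429 (by norm_num) hk1 hy1' hy2' (ex_lp 0.195 (by norm_num) (by norm_num) (by norm_num)) (by norm_num) (by norm_num) (by norm_num) (by norm_num)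
  · exact v5_Dup h 0.36 (-0.195) (-0.118) 1.21532 1.12525 0.9281 hk2 hy1' hy2' (ex_up 0.195 (by norm_num) (by norm_num) (by norm_num) (by norm_num)) (ex_up 0.118 (by norm_num) (by norm_num) (by norm_num) (by norm_num)) (by norm_num) (by norm_num) (by norm_num)

private theorem B5Ao_T45_0_0 {β x y : ℝ} (hβ : 0 < β) (hN : β * 27.777 ≤ 1) (hx1 : 0.2753 ≤ x) (hx2 : x ≤ 0.4215)
    (hy1 : -0.1951 ≤ y) (hy2 : y ≤ -0.1179) : ‖HH β (x + y * I) - 1‖ ≤ 0.03 := by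
  refine le_epsJ (C := 0.4336) (N0 := 27.777) (J_boxp 0.2753 0.4215 0.1951 0 (-0.1179) 0.7653 0.4645 0.9777 1.477 0.3945 5.2704 27.777 0.607 2.207 1.311 1.0779 0.3826 0.3052 0.7945 3.2364 0.3821 0.8811 1.5909 4 0.00002427 0.0002083 0.0000003101 0.0000003101 0.00002461 0.0000003101 0.0000003101 0.0000003101 0.4336
    hβ hN hx1 hx2 hy1 hy2 (by norm_num) (by norm_num) (by linarith) (by norm_num) (by norm_num) (by norm_num) (by norm_num) (by norm_num) (by norm_num) (by norm_num) (by norm_num) (by norm_num) (by norm_num) (by norm_num) (by norm_num) (by norm_num) (by norm_num) (by norm_num) (by norm_num) (by norm_num) (by norm_num) (by norm_num) (by norm_num) (by norm_num)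
    (cube_sqrt_geJ (s := 0.8931) (by norm_num) (by norm_num) (by norm_num) (by norm_num))
    (cube_sqrt_geJ (s := 0.9621) (by norm_num) (by norm_num) (by norm_num) (by norm_num))
    (by norm_num) (by norm_num) (by norm_num) (by norm_num) (by norm_num) (by norm_num) (by norm_num) (by norm_num) (by norm_num) (by norm_num) (by norm_num) (by norm_num) (by norm_num) (by norm_num) (by norm_num) (by norm_num) (by norm_num) (by norm_num)
    (exp_neg_leJ (r := 0.627) 10 (by norm_num) (by norm_num) (by norm_num) (by norm_num))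
    (exp_neg_leJ (r := 0.477) 8 (by norm_num) (by norm_num) (by norm_num) (by norm_num))
    (exp_neg_leJ (r := 0.99) 14 (by norm_num) (by norm_num) (by norm_num) (by norm_num))
    (exp_neg_leJ (r := 0.99) 14 (by norm_num) (by norm_num) (by norm_num) (by norm_num))
    (exp_neg_leJ (r := 0.613) 10 (by norm_num) (by norm_num) (by norm_num) (by norm_num))
    (exp_neg_leJ (r := 0.99) 14 (by norm_num) (by norm_num) (by norm_num) (by norm_num))
    (exp_neg_leJ (r := 0.99) 14 (by norm_num) (by norm_num) (by norm_num) (by norm_num))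
    (exp_neg_leJ (r := 0.99) 14 (by norm_num) (by norm_num) (by norm_num) (by norm_num))
    (by norm_num)) (by norm_num) hN hβ.le (by norm_num)

private theorem B5Ao_T45 {β x y : ℝ} (hβ : 0 < β) (hN : β * 27.777 ≤ 1) (hx1 : 0.2753 ≤ x) (hx2 : x ≤ 0.4215)
    (hy1 : (-0.1951) ≤ y) (hy2 : y ≤ (-0.1179)) : ‖HH β (x + y * I) - 1‖ ≤ 0.03 := by
  exact B5Ao_T45_0_0 hβ hN (by linarith) (by linarith) (by linarith) (by linarith)

private theorem B5Ao_C46 {β r t κ : ℝ} (hβ : 0 < β) (hr : 10 ≤ r) (hκ : κ = β * r) (hk1 : 0.3 ≤ κ) (hk2 : κ ≤ 0.36) (hta : 2.0231 ≤ t + κ)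
    (htb : t + κ ≤ 2.1367) : ‖F (cexp (I * β)) (r * cexp (I * ((t + β / 2 : ℝ) : ℂ)))‖ ≤
      3.8395 * Real.exp (r * (0.01 + 1 / 20)) :=
  v5_UD 0.3 0.36 2.0231 2.1367 0.01 0.7284 0.01 2.0017 3.8395 hβ hr hκ (by norm_num) hk1 hk2 hta htb (by norm_num) (by norm_num) (by norm_num) (by norm_num) (by norm_num) (by norm_num) (by norm_num) (by norm_num) (by norm_num) (by norm_num) (by norm_num)

private theorem B5Ao_C47 {β r t κ : ℝ} (hβ : 0 < β) (hr : 10 ≤ r) (hκ : κ = β * r) (hk1 : 0.3 ≤ κ) (hk2 : κ ≤ 0.36) (hta : (-1.7468) ≤ t + κ)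
    (htb : t + κ ≤ (-1.6332)) : ‖F (cexp (I * β)) (r * cexp (I * ((t + β / 2 : ℝ) : ℂ)))‖ ≤
      2.2213 * Real.exp (r * (1.23725 - (-0.71) * (t + κ))) + 2.2979 * Real.exp (r * 0.0501) :=
  v5_HU (-0.71) 0.3 0.36 (-1.7468) (-1.6332) 1.23725 2.2213 1.5311 0.0757 1.3971 2.6051 0 0.0501 0.00000203 2.2979 hβ hr hκ (by norm_num) hk1 hk2 hta htb (by norm_num) (by norm_num) (B5Ao_G5 hk1 hk2).1 (B5Ao_G5 hk1 hk2).2 (by norm_num) (by norm_num) (by norm_num)
    (by norm_num) (by norm_num) (by norm_num) (by norm_num) (by norm_num) (by norm_num) (by norm_num)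
    (by norm_num) (by norm_num) (by norm_num) (v5_hump 6.6451 27.777 5.2704 0.0000009316 0.00000203 hβ hr hκ hk1 hk2 (by norm_num) htb (by norm_num) (by norm_num) (by norm_num) (by norm_num) (by norm_num) (by norm_num) (by norm_num) (ex_un 13 0.9 (by norm_num) (by norm_num) (by norm_num) (by norm_num)) (by norm_num)) (by norm_num)

private theorem B5Ao_C48 {β r t κ : ℝ} (hβ : 0 < β) (hr : 10 ≤ r) (hκ : κ = β * r) (hk1 : 0.3 ≤ κ) (hk2 : κ ≤ 0.36) (hta : 3.2797 ≤ t + κ)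
    (htb : t + κ ≤ 3.3933) : ‖F (cexp (I * β)) (r * cexp (I * ((t + β / 2 : ℝ) : ℂ)))‖ ≤
      3.3849 * Real.exp (r * (0.01 + 1 / 20)) :=
  v5_UD 0.3 0.36 3.2797 3.3933 0.01 0.7284 0.01 1.7647 3.3849 hβ hr hκ (by norm_num) hk1 hk2 hta htb (by norm_num) (by norm_num) (by norm_num) (by norm_num) (by norm_num) (by norm_num) (by norm_num) (by norm_num) (by norm_num) (by norm_num) (by norm_num)

private theorem B5Ao_Y49 {β r t κ h t' : ℝ} (hβ : 0 < β) (hκ : κ = β * r) (hN : β * 27.777 ≤ 1) (hk1 : 0.3 ≤ κ) (hk2 : κ ≤ 0.36)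
    (ht : t' = t + (((0 : ℤ) : ℝ) - 1) * h) (hD : DomR κ t') (hta : (-0.4902) ≤ t' + κ) (htb : t' + κ ≤ (-0.3766)) :
    0.9882 * Real.exp (r * sE κ t') ≤ ‖Xf β r h t 0‖ := by
  obtain ⟨⟨ya, yb⟩, ⟨xa, xb⟩, n1, Da, Db⟩ := B5Ao_B44 hD hk1 hk2 hta htb
  have J := B5Ao_T45 (x := sx κ t') (y := sy κ t') hβ hN (by linarith only [xa, xb, ya, yb]) (by linarith only [xa, xb, ya, yb]) (by linarith only [xa, xb, ya, yb]) (by linarith only [xa, xb, ya, yb])
  exact v5_Jlo hβ hκ (k := 0) ht hD 0.03 0.9281 0.9882 (by norm_num) J Db (by norm_num)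

private theorem B5Ao_V50 {κ t : ℝ} (hD : DomR κ t) (hk1 : 0.3 ≤ κ) (hk2 : κ ≤ 0.36) (hta : (-0.4902) ≤ t + κ) (htb : t + κ ≤ (-0.3766)) :
    1.10018 + 0.4704 * (t + κ) ≤ sE κ t := by
  have hκ0 : 0 < κ := hD.1
  exact v5_V0 hD 0.3 0.36 (-0.4902) (-0.3766) 0.4903 0.5915 0.14496 0.01297 0.77219 0.33028 1.10018 0.4704 (by norm_num) hk1 hk2 (by norm_num) hta htb (by norm_num) (by norm_num) (by norm_num) ((cup1 0.36 hκ0.le hk2 (by norm_num)).trans (by norm_num))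
      (by norm_num) (by norm_num) (by norm_num) (by norm_num) (by norm_num) (by norm_num) (by norm_num) (by norm_num) (by norm_num) (by norm_num) (by norm_num) (by norm_num) (by norm_num)

private theorem B5Ao_K51 {β r t κ h : ℝ} (hβ : 0 < β) (hr : 10 ≤ r) (hκ : κ = β * r) (hk1 : 0.3 ≤ κ) (hk2 : κ ≤ 0.36)
    (hh : h = 2 * Real.pi / 5) (hh1 : 1.25663 ≤ h) (hh2 : h ≤ 1.25664) (hta : 0.7665 ≤ t + κ) (htb : t + κ ≤ 0.88)
    (hY : 0.9882 * Real.exp (r * sE κ (t - h)) ≤ ‖Xf β r h t 0‖) (hV : 1.10018 + 0.4704 * (t - h + κ) ≤ sE κ (t - h)) :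
    ‖Xf β r h t 2‖ ≤ 0.00119 * ‖Xf β r h t 0‖ := by
  rw [v5_X 2 1 (by push_cast; ring)]
  exact v5_cmp0 0.8096 0.0003048 0.00119 hr (B5Ao_C46 (t := t + 1 * h) hβ hr hκ hk1 hk2 (by linarith only [hta, htb, hh1, hh2]) (by linarith only [hta, htb, hh1, hh2])) hY (by norm_num) (by norm_num) (by norm_num) (by linarith only [hV, hta, htb, hh1, hh2]) (ex_un 8 0.0959 (by norm_num) (by norm_num) (by norm_num) (by norm_num)) (by norm_num)

private theorem B5Ao_K52 {β r t κ h : ℝ} (hβ : 0 < β) (hr : 10 ≤ r) (hκ : κ = β * r) (hk1 : 0.3 ≤ κ) (hk2 : κ ≤ 0.36)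
    (hh : h = 2 * Real.pi / 5) (hh1 : 1.25663 ≤ h) (hh2 : h ≤ 1.25664) (hta : 0.7665 ≤ t + κ) (htb : t + κ ≤ 0.88)
    (hY : 0.9882 * Real.exp (r * sE κ (t - h)) ≤ ‖Xf β r h t 0‖) (hV : 1.10018 + 0.4704 * (t - h + κ) ≤ sE κ (t - h)) :
    ‖Xf β r h t (-1)‖ ≤ 0.00113 * ‖Xf β r h t 0‖ := by
  rw [v5_X (-1) (-2) (by push_cast; ring)]
  exact v5_cmp 0.8453 0.0002136 0.000481 0.8195 0.0002761 0.000643 0.00113 hr (B5Ao_C47 (t := t + (-2) * h) hβ hr hκ hk1 hk2 (by linarith only [hta, htb, hh1, hh2]) (by linarith only [hta, htb, hh1, hh2])) hY (by norm_num) (by norm_num) (by norm_num) (by norm_num) (by linarith only [hV, hta, htb, hh1, hh2]) (ex_un 8 0.4529 (by norm_num) (by norm_num) (by norm_num) (by norm_num)) (by norm_num) (by norm_num) (by linarith only [hV, hta, htb, hh1, hh2]) (ex_un 8 0.1949 (by norm_num) (by norm_num) (by norm_num) (by norm_num)) (by norm_num) (by norm_num)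

private theorem B5Ao_K53 {β r t κ h : ℝ} (hβ : 0 < β) (hr : 10 ≤ r) (hκ : κ = β * r) (hk1 : 0.3 ≤ κ) (hk2 : κ ≤ 0.36)
    (hh : h = 2 * Real.pi / 5) (hh1 : 1.25663 ≤ h) (hh2 : h ≤ 1.25664) (hta : 0.7665 ≤ t + κ) (htb : t + κ ≤ 0.88)
    (hY : 0.9882 * Real.exp (r * sE κ (t - h)) ≤ ‖Xf β r h t 0‖) (hV : 1.10018 + 0.4704 * (t - h + κ) ≤ sE κ (t - h)) :
    ‖Xf β r h t (-2)‖ ≤ 0.00105 * ‖Xf β r h t 0‖ := by
  rw [v5_Xm2 hh]
  exact v5_cmp0 0.8096 0.0003048 0.00105 hr (B5Ao_C48 (t := t + 2 * h) hβ hr hκ hk1 hk2 (by linarith only [hta, htb, hh1, hh2]) (by linarith only [hta, htb, hh1, hh2])) hY (by norm_num) (by norm_num) (by norm_num) (by linarith only [hV, hta, htb, hh1, hh2]) (ex_un 8 0.0959 (by norm_num) (by norm_num) (by norm_num) (by norm_num)) (by norm_num)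

private theorem B5Ao_G54 {κ : ℝ} (hk1 : 0.3 ≤ κ) (hk2 : κ ≤ 0.36) : gG κ 0.49 ≤ 1.16338 ∧ 0.70271 ≤ Real.exp (-(κ * 0.49)) ^ 2 := by
  refine ⟨gG_le 0.49 0.3 0.36 1.16338 0.8633 0.83829 1.15836 1.19292 hk1 hk2 (by norm_num)
    (ex_um 0.147 (by norm_num) (by norm_num) (by norm_num) (by norm_num)) (ex_um 0.1764 (by norm_num) (by norm_num) (by norm_num) (by norm_num))
    (ex_up 0.147 (by norm_num) (by norm_num) (by norm_num) (by norm_num)) (ex_up 0.1764 (by norm_num) (by norm_num) (by norm_num) (by norm_num))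
    (by norm_num) (by norm_num), ?_⟩
  exact v5_M 0.83828 (ex_lm 0.1764 (by linarith) (by norm_num) (by norm_num) (by norm_num) (by norm_num)) (by norm_num) (by norm_num)

private theorem B5Ao_B55 {κ t : ℝ} (h : DomR κ t) (hk1 : 0.3 ≤ κ) (hk2 : κ ≤ 0.36) (ht1 : 0.7664 ≤ t + κ) (ht2 : t + κ ≤ 0.8801) :
    (0.157 ≤ sy κ t ∧ sy κ t ≤ 0.202) ∧ (0.1387 ≤ sx κ t ∧ sx κ t ≤ 0.2647) ∧ κ * Real.exp (-sy κ t) ≤ 0.3077 ∧ 1.3797 ≤ sD κ t ∧ sD κ t ≤ 1.4906 := by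
  have hy1 : 0.157 ≤ sy κ t := syR_ge h 0.3 0.36 0.7664 0.157 1.16999 1.17 0.51024 0.61231 hk1 hk2 (by linarith) (by norm_num) (by norm_num)
    (expn_ge (by norm_num) (by norm_num)) (expn_le (by norm_num) (by norm_num) (by norm_num)) (by norm_num)
    (by norm_num) (by norm_num) (by norm_num) (by norm_num) (by norm_num) (by norm_num)
  have hy2 : sy κ t ≤ 0.202 := syR_le h 0.3 0.36 0.8801 0.202 1.22384 0.6523 0.68671 0.82406 hk1 hk2 (by linarith) (by norm_num) (by norm_num)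
    (expn_ge (by norm_num) (by norm_num)) (by norm_num) (by norm_num) (Or.inr ((mul_le_mul_of_nonneg_left (expn_le (E := 1.22385) (by norm_num) (by norm_num) (by norm_num)) (by norm_num)).trans (by norm_num))) (by norm_num) (by norm_num) (by norm_num)
  have hy1' : 0.157 ≤ sy κ t := by linarith
  have hy2' : sy κ t ≤ 0.202 := by linarith
  have hx1 : 0.1387 ≤ sx κ t := sx_lo h 0.3 0.202 0.2021 0.81709 0.1387 hk1 (by norm_num) hy2' (abs_le.2 ⟨by linarith, by linarith⟩) (ex_lm 0.202 (by norm_num) (by norm_num) (by norm_num) (by norm_num) (by norm_num)) (by norm_num) (by norm_num)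
  have hx2 : sx κ t ≤ 0.2647 := sx_hi h 0.36 0.157 0.157 0.85471 0.2647 hk2 hy1' (by norm_num) (le_trans (by linarith) (le_abs_self _)) (ex_um 0.157 (by norm_num) (by norm_num) (by norm_num) (by norm_num)) (by norm_num) (by norm_num)
  refine ⟨⟨hy1', hy2'⟩, ⟨hx1, hx2⟩, v5_n h 0.36 0.157 0.85471 0.3077 hk2 hy1' (ex_um 0.157 (by norm_num) (by norm_num) (by norm_num) (by norm_num)) (by norm_num), ?_, ?_⟩
  · exact v5_Dlo h 0.3 0.157 0.202 0.157 0.8547 1.3797 (by norm_num) hk1 hy1' hy2' (ex_lm 0.157 (by norm_num) (by norm_num) (by norm_num) (by norm_num) (by norm_num)) (by norm_num) (by norm_num) (by norm_num) (by norm_num)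
  · exact v5_Dup h 0.36 0.157 0.202 0.85471 0.8171 1.4906 hk2 hy1' hy2' (ex_um 0.157 (by norm_num) (by norm_num) (by norm_num) (by norm_num)) (ex_um 0.202 (by norm_num) (by norm_num) (by norm_num) (by norm_num)) (by norm_num) (by norm_num) (by norm_num)

private theorem B5Ao_T56_0_0 {β x y : ℝ} (hβ : 0 < β) (hN : β * 27.777 ≤ 1) (hx1 : 0.1386 ≤ x) (hx2 : x ≤ 0.2648)
    (hy1 : -0 ≤ y) (hy2 : y ≤ 0.2021) : ‖HH β (x + y * I) - 1‖ ≤ 0.03 := by
  refine le_epsJ (C := 0.2167) (N0 := 27.777) (J_boxp 0.1386 0.2648 0 0.2021 0.2021 0.8076 0.3332 1.231 1.5288 0.4427 5.2704 27.777 0.4126 1.679 1.199 1.3182 0.4037 0.3482 1.0557 3.9325 0.4017 0.6712 0.981 3.1312 0.0000135 0.00006313 0.0000003101 0.0000003101 0.00001427 0.0000003101 0.0000003101 0.0000003101 0.2167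
    hβ hN hx1 hx2 hy1 hy2 (by norm_num) (by norm_num) (by linarith) (by norm_num) (by norm_num) (by norm_num) (by norm_num) (by norm_num) (by norm_num) (by norm_num) (by norm_num) (by norm_num) (by norm_num) (by norm_num) (by norm_num) (by norm_num) (by norm_num) (by norm_num) (by norm_num) (by norm_num) (by norm_num) (by norm_num) (by norm_num) (by norm_num)
    (cube_sqrt_geJ (s := 0.9286) (by norm_num) (by norm_num) (by norm_num) (by norm_num))
    (cube_sqrt_geJ (s := 0.9744) (by norm_num) (by norm_num) (by norm_num) (by norm_num))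
    (by norm_num) (by norm_num) (by norm_num) (by norm_num) (by norm_num) (by norm_num) (by norm_num) (by norm_num) (by norm_num) (by norm_num) (by norm_num) (by norm_num) (by norm_num) (by norm_num) (by norm_num) (by norm_num) (by norm_num) (by norm_num)
    (exp_neg_leJ (r := 0.213) 11 (by norm_num) (by norm_num) (by norm_num) (by norm_num))
    (exp_neg_leJ (r := 0.671) 9 (by norm_num) (by norm_num) (by norm_num) (by norm_num))
    (exp_neg_leJ (r := 0.99) 14 (by norm_num) (by norm_num) (by norm_num) (by norm_num))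
    (exp_neg_leJ (r := 0.99) 14 (by norm_num) (by norm_num) (by norm_num) (by norm_num))
    (exp_neg_leJ (r := 0.158) 11 (by norm_num) (by norm_num) (by norm_num) (by norm_num))
    (exp_neg_leJ (r := 0.99) 14 (by norm_num) (by norm_num) (by norm_num) (by norm_num))
    (exp_neg_leJ (r := 0.99) 14 (by norm_num) (by norm_num) (by norm_num) (by norm_num))
    (exp_neg_leJ (r := 0.99) 14 (by norm_num) (by norm_num) (by norm_num) (by norm_num))
    (by norm_num)) (by norm_num) hN hβ.le (by norm_num)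

private theorem B5Ao_T56 {β x y : ℝ} (hβ : 0 < β) (hN : β * 27.777 ≤ 1) (hx1 : 0.1386 ≤ x) (hx2 : x ≤ 0.2648)
    (hy1 : 0.1569 ≤ y) (hy2 : y ≤ 0.2021) : ‖HH β (x + y * I) - 1‖ ≤ 0.03 := by
  exact B5Ao_T56_0_0 hβ hN (by linarith) (by linarith) (by linarith) (by linarith)

private theorem B5Ao_U57 {β r t κ h t' : ℝ} (hβ : 0 < β) (hκ : κ = β * r) (hN : β * 27.777 ≤ 1) (hk1 : 0.3 ≤ κ) (hk2 : κ ≤ 0.36)
    (ht : t' = t + (((1 : ℤ) : ℝ) - 1) * h) (hD : DomR κ t') (hta : 0.7664 ≤ t' + κ) (htb : t' + κ ≤ 0.8801) :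
    ‖Xf β r h t 1‖ ≤ 0.9504 * Real.exp (r * sE κ t') := by
  obtain ⟨⟨ya, yb⟩, ⟨xa, xb⟩, n1, Da, Db⟩ := B5Ao_B55 hD hk1 hk2 hta htb
  have J := B5Ao_T56 (x := sx κ t') (y := sy κ t') hβ hN (by linarith only [xa, xb, ya, yb]) (by linarith only [xa, xb, ya, yb]) (by linarith only [xa, xb, ya, yb]) (by linarith only [xa, xb, ya, yb])
  exact v5_Jup (h := h) (t := t) (k := 1) hβ hκ ht hD 0.03 1.3797 0.9504 J Da (by norm_num) (by norm_num)

private theorem B5Ao_K58 {β r t κ h : ℝ} (hβ : 0 < β) (hr : 10 ≤ r) (hκ : κ = β * r) (hk1 : 0.3 ≤ κ) (hk2 : κ ≤ 0.36)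
    (hh : h = 2 * Real.pi / 5) (hh1 : 1.25663 ≤ h) (hh2 : h ≤ 1.25664) (hta : 0.7665 ≤ t + κ) (htb : t + κ ≤ 0.88) (hN : β * 27.777 ≤ 1)
    (hD : DomR κ t) (hY : 0.9882 * Real.exp (r * sE κ (t - h)) ≤ ‖Xf β r h t 0‖) (hV : 1.10018 + 0.4704 * (t - h + κ) ≤ sE κ (t - h)) :
    ‖Xf β r h t 1‖ ≤ 0.429 * ‖Xf β r h t 0‖ := by
  have hU := B5Ao_U57 (h := h) (t := t) hβ hκ hN hk1 hk2 (by push_cast; ring) hD (by linarith only [hta, htb, hh1, hh2]) (by linarith only [hta, htb, hh1, hh2])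
  have hW := V_up hD 0.49 (B5Ao_G54 hk1 hk2).1
  exact v5_cmpJ 0.0818 0.4458 0.429 hr hU hW hY (by norm_num) (by norm_num) (by norm_num) (by linarith only [hV, hta, htb, hh1, hh2]) (ex_un 0 0.8179 (by norm_num) (by norm_num) (by norm_num) (by norm_num)) (by norm_num)

private theorem B5Ao_O59 {β r t κ h : ℝ} (hβ : 0 < β) (hr : 10 ≤ r) (hκ : κ = β * r) (hk1 : 0.3 ≤ κ) (hk2 : κ ≤ 0.36)
    (hh : h = 2 * Real.pi / 5) (hta : 0.7665 ≤ t + κ) (htb : t + κ ≤ 0.88) :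
    ‖Xf β r h t (-2)‖ + ‖Xf β r h t (-1)‖ + ‖Xf β r h t 2‖ < |‖Xf β r h t 1‖ - ‖Xf β r h t 0‖| := by
  obtain ⟨hh1, hh2⟩ := v5_h hh
  have hκ0 : 0 < κ := by linarith only [hk1]
  have hN : β * 27.777 ≤ 1 := v5_hN 0.36 27.777 hβ hr hκ hk2 (by norm_num) (by norm_num)
  have hD1 : DomR κ t := v5_dom hκ0 (by linarith only [hta, htb, hk1, hk2, hh1, hh2]) (Or.inr (by linarith only [hta, htb, hk1, hk2, hh1, hh2]))
  have hD0 : DomR κ (t - h) := v5_dom hκ0 (by linarith only [hta, htb, hk1, hk2, hh1, hh2]) (Or.inr (by linarith only [hta, htb, hk1, hk2, hh1, hh2]))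
  have h0a : (-0.4902) ≤ t - h + κ := by linarith only [hta, htb, hh1, hh2]
  have h0b : t - h + κ ≤ (-0.3766) := by linarith only [hta, htb, hh1, hh2]
  have e0 : t - h = t + (((0 : ℤ) : ℝ) - 1) * h := by push_cast; ring
  have hY := B5Ao_Y49 (h := h) hβ hκ hN hk1 hk2 e0 hD0 h0a h0b
  have hV := B5Ao_V50 hD0 hk1 hk2 h0a h0b
  have cp2 := B5Ao_K51 hβ hr hκ hk1 hk2 hh hh1 hh2 hta htb hY hV
  have cm1 := B5Ao_K52 hβ hr hκ hk1 hk2 hh hh1 hh2 hta htb hY hV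
  have cm2 := B5Ao_K53 hβ hr hκ hk1 hk2 hh hh1 hh2 hta htb hY hV
  have cn1 := B5Ao_K58 hβ hr hκ hk1 hk2 hh hh1 hh2 hta htb hN hD1 hY hV
  have hp : 0 < ‖Xf β r h t 0‖ := lt_of_lt_of_le (by positivity) hY
  exact v5_out0 _ _ _ _ cm2 cm1 cp2 cn1 hp (by norm_num)

private theorem B5Ao_B60 {κ t : ℝ} (h : DomR κ t) (hk1 : 0.3 ≤ κ) (hk2 : κ ≤ 0.36) (ht1 : (-0.3767) ≤ t + κ) (ht2 : t + κ ≤ (-0.1886)) :
    ((-0.142) ≤ sy κ t ∧ sy κ t ≤ (-0.055)) ∧ (0.2833 ≤ sx κ t ∧ sx κ t ≤ 0.4113) ∧ κ * Real.exp (-sy κ t) ≤ 0.415 ∧ 0.8355 ≤ sD κ t ∧ sD κ t ≤ 1.0347 := by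
  have hy1 : -0.142 ≤ sy κ t := syL_ge h 0.3 0.36 0.3767 0.142 0.86762 0.86763 0.3251 0.34222 0.41068 hk1 hk2 (by linarith) (by norm_num) (by norm_num) (by norm_num)
    (expm_ge (by norm_num) (by norm_num) (by norm_num) (by norm_num)) (expm_le (by norm_num) (by norm_num) (by norm_num)) (by norm_num)
    (by norm_num) (by norm_num) (by norm_num) (by norm_num) (by norm_num) (by norm_num)
  have hy2 : sy κ t ≤ -0.055 := syL_le h 0.3 0.36 0.1886 0.055 0.94648 0.94649 0.1446 0.17353 hk1 hk2 (by linarith) (by norm_num) (by norm_num) (by norm_num)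
    (expm_ge (by norm_num) (by norm_num) (by norm_num) (by norm_num)) (expm_le (by norm_num) (by norm_num) (by norm_num)) (by norm_num)
    (by norm_num) (by norm_num) (by norm_num) (by norm_num) (by norm_num) (by norm_num)
  have hy1' : (-0.142) ≤ sy κ t := by linarith
  have hy2' : sy κ t ≤ (-0.055) := by linarith
  have hx1 : 0.2833 ≤ sx κ t := sx_lo h 0.3 (-0.055) 0.1421 1.05654 0.2833 hk1 (by norm_num) hy2' (abs_le.2 ⟨by linarith, by linarith⟩) (ex_lp 0.055 (by norm_num) (by norm_num) (by norm_num)) (by norm_num) (by norm_num)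
  have hx2 : sx κ t ≤ 0.4113 := sx_hi h 0.36 (-0.142) 0.055 1.15258 0.4113 hk2 hy1' (by norm_num) (le_trans (by linarith) (neg_le_abs _)) (ex_up 0.142 (by norm_num) (by norm_num) (by norm_num) (by norm_num)) (by norm_num) (by norm_num)
  refine ⟨⟨hy1', hy2'⟩, ⟨hx1, hx2⟩, v5_n h 0.36 (-0.142) 1.15258 0.415 hk2 hy1' (ex_up 0.142 (by norm_num) (by norm_num) (by norm_num) (by norm_num)) (by norm_num), ?_, ?_⟩
  · exact v5_Dlo h 0.3 (-0.142) (-0.055) (-0.142) 1.15257 0.8355 (by norm_num) hk1 hy1' hy2' (ex_lp 0.142 (by norm_num) (by norm_num) (by norm_num)) (by norm_num) (by norm_num) (by norm_num) (by norm_num)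
  · exact v5_Dup h 0.36 (-0.142) (-0.055) 1.15258 1.05655 1.0347 hk2 hy1' hy2' (ex_up 0.142 (by norm_num) (by norm_num) (by norm_num) (by norm_num)) (ex_up 0.055 (by norm_num) (by norm_num) (by norm_num) (by norm_num)) (by norm_num) (by norm_num) (by norm_num)

private theorem B5Ao_T61_0_0 {β x y : ℝ} (hβ : 0 < β) (hN : β * 27.777 ≤ 1) (hx1 : 0.2832 ≤ x) (hx2 : x ≤ 0.4114)
    (hy1 : -0.1421 ≤ y) (hy2 : y ≤ -0.0549) : ‖HH β (x + y * I) - 1‖ ≤ 0.03 := by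
  refine le_epsJ (C := 0.3208) (N0 := 27.777) (J_boxp 0.2832 0.4114 0.1421 0 (-0.0549) 0.8085 0.4353 1.0308 1.3966 0.4051 5.2704 27.777 0.5385 1.999 1.27 1.1307 0.4042 0.3316 0.8809 3.4138 0.4149 0.8921 1.7508 4.0952 0.00001332 0.0001001 0.0000003101 0.0000003101 0.000009893 0.0000003101 0.0000003101 0.0000003101 0.3208
    hβ hN hx1 hx2 hy1 hy2 (by norm_num) (by norm_num) (by linarith) (by norm_num) (by norm_num) (by norm_num) (by norm_num) (by norm_num) (by norm_num) (by norm_num) (by norm_num) (by norm_num) (by norm_num) (by norm_num) (by norm_num) (by norm_num) (by norm_num) (by norm_num) (by norm_num) (by norm_num) (by norm_num) (by norm_num) (by norm_num) (by norm_num)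
    (cube_sqrt_geJ (s := 0.9058) (by norm_num) (by norm_num) (by norm_num) (by norm_num))
    (cube_sqrt_geJ (s := 0.9664) (by norm_num) (by norm_num) (by norm_num) (by norm_num))
    (by norm_num) (by norm_num) (by norm_num) (by norm_num) (by norm_num) (by norm_num) (by norm_num) (by norm_num) (by norm_num) (by norm_num) (by norm_num) (by norm_num) (by norm_num) (by norm_num) (by norm_num) (by norm_num) (by norm_num) (by norm_num)
    (exp_neg_leJ (r := 0.227) 11 (by norm_num) (by norm_num) (by norm_num) (by norm_num))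
    (exp_neg_leJ (r := 0.21) 9 (by norm_num) (by norm_num) (by norm_num) (by norm_num))
    (exp_neg_leJ (r := 0.99) 14 (by norm_num) (by norm_num) (by norm_num) (by norm_num))
    (exp_neg_leJ (r := 0.99) 14 (by norm_num) (by norm_num) (by norm_num) (by norm_num))
    (exp_neg_leJ (r := 0.524) 11 (by norm_num) (by norm_num) (by norm_num) (by norm_num))
    (exp_neg_leJ (r := 0.99) 14 (by norm_num) (by norm_num) (by norm_num) (by norm_num))
    (exp_neg_leJ (r := 0.99) 14 (by norm_num) (by norm_num) (by norm_num) (by norm_num))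
    (exp_neg_leJ (r := 0.99) 14 (by norm_num) (by norm_num) (by norm_num) (by norm_num))
    (by norm_num)) (by norm_num) hN hβ.le (by norm_num)

private theorem B5Ao_T61 {β x y : ℝ} (hβ : 0 < β) (hN : β * 27.777 ≤ 1) (hx1 : 0.2832 ≤ x) (hx2 : x ≤ 0.4114)
    (hy1 : (-0.1421) ≤ y) (hy2 : y ≤ (-0.0549)) : ‖HH β (x + y * I) - 1‖ ≤ 0.03 := by
  exact B5Ao_T61_0_0 hβ hN (by linarith) (by linarith) (by linarith) (by linarith)

private theorem B5Ao_C62 {β r t κ : ℝ} (hβ : 0 < β) (hr : 10 ≤ r) (hκ : κ = β * r) (hk1 : 0.3 ≤ κ) (hk2 : κ ≤ 0.36) (hta : 2.1366 ≤ t + κ)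
    (htb : t + κ ≤ 2.3247) : ‖F (cexp (I * β)) (r * cexp (I * ((t + β / 2 : ℝ) : ℂ)))‖ ≤
      3.581 * Real.exp (r * (0.01 + 1 / 20)) :=
  v5_UD 0.3 0.36 2.1366 2.3247 0.01 0.7284 0.01 1.8669 3.581 hβ hr hκ (by norm_num) hk1 hk2 hta htb (by norm_num) (by norm_num) (by norm_num) (by norm_num) (by norm_num) (by norm_num) (by norm_num) (by norm_num) (by norm_num) (by norm_num) (by norm_num)

private theorem B5Ao_C63 {β r t κ : ℝ} (hβ : 0 < β) (hr : 10 ≤ r) (hκ : κ = β * r) (hk1 : 0.3 ≤ κ) (hk2 : κ ≤ 0.36) (hta : (-1.6333) ≤ t + κ)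
    (htb : t + κ ≤ (-1.4452)) : ‖F (cexp (I * β)) (r * cexp (I * ((t + β / 2 : ℝ) : ℂ)))‖ ≤
      2.2213 * Real.exp (r * (1.23725 - (-0.71) * (t + κ))) + 2.2967 * Real.exp (r * 0.0501) :=
  v5_HU (-0.71) 0.3 0.36 (-1.6333) (-1.4452) 1.23725 2.2213 1.5311 0.0757 1.3971 2.7186 0 0.0501 0.00000203 2.2967 hβ hr hκ (by norm_num) hk1 hk2 hta htb (by norm_num) (by norm_num) (B5Ao_G5 hk1 hk2).1 (B5Ao_G5 hk1 hk2).2 (by norm_num) (by norm_num) (by norm_num)
    (by norm_num) (by norm_num) (by norm_num) (by norm_num) (by norm_num) (by norm_num) (by norm_num)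
    (by norm_num) (by norm_num) (by norm_num) (v5_hump 6.4571 27.777 5.2704 0.0000009316 0.00000203 hβ hr hκ hk1 hk2 (by norm_num) htb (by norm_num) (by norm_num) (by norm_num) (by norm_num) (by norm_num) (by norm_num) (by norm_num) (ex_un 13 0.9 (by norm_num) (by norm_num) (by norm_num) (by norm_num)) (by norm_num)) (by norm_num)

private theorem B5Ao_C64 {β r t κ : ℝ} (hβ : 0 < β) (hr : 10 ≤ r) (hκ : κ = β * r) (hk1 : 0.3 ≤ κ) (hk2 : κ ≤ 0.36) (hta : 3.3932 ≤ t + κ)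
    (htb : t + κ ≤ 3.5813) : ‖F (cexp (I * β)) (r * cexp (I * ((t + β / 2 : ℝ) : ℂ)))‖ ≤
      3.382 * Real.exp (r * (0.01 + 1 / 20)) :=
  v5_UD 0.3 0.36 3.3932 3.5813 0.01 0.7284 0.01 1.7632 3.382 hβ hr hκ (by norm_num) hk1 hk2 hta htb (by norm_num) (by norm_num) (by norm_num) (by norm_num) (by norm_num) (by norm_num) (by norm_num) (by norm_num) (by norm_num) (by norm_num) (by norm_num)

private theorem B5Ao_Y65 {β r t κ h t' : ℝ} (hβ : 0 < β) (hκ : κ = β * r) (hN : β * 27.777 ≤ 1) (hk1 : 0.3 ≤ κ) (hk2 : κ ≤ 0.36)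
    (ht : t' = t + (((0 : ℤ) : ℝ) - 1) * h) (hD : DomR κ t') (hta : (-0.3767) ≤ t' + κ) (htb : t' + κ ≤ (-0.1886)) :
    0.9617 * Real.exp (r * sE κ t') ≤ ‖Xf β r h t 0‖ := by
  obtain ⟨⟨ya, yb⟩, ⟨xa, xb⟩, n1, Da, Db⟩ := B5Ao_B60 hD hk1 hk2 hta htb
  have J := B5Ao_T61 (x := sx κ t') (y := sy κ t') hβ hN (by linarith only [xa, xb, ya, yb]) (by linarith only [xa, xb, ya, yb]) (by linarith only [xa, xb, ya, yb]) (by linarith only [xa, xb, ya, yb])
  exact v5_Jlo hβ hκ (k := 0) ht hD 0.03 1.0347 0.9617 (by norm_num) J Db (by norm_num)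

private theorem B5Ao_V66 {κ t : ℝ} (hD : DomR κ t) (hk1 : 0.3 ≤ κ) (hk2 : κ ≤ 0.36) (hta : (-0.3767) ≤ t + κ) (htb : t + κ ≤ (-0.1886)) :
    1.03686 + 0.2934 * (t + κ) ≤ sE κ t := by
  have hκ0 : 0 < κ := hD.1
  exact v5_V0 hD 0.3 0.36 (-0.3767) (-0.1886) 0.3768 0.5658 0.14496 0.01297 0.77219 0.33028 1.03686 0.2934 (by norm_num) hk1 hk2 (by norm_num) hta htb (by norm_num) (by norm_num) (by norm_num) ((cup1 0.36 hκ0.le hk2 (by norm_num)).trans (by norm_num))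
      (by norm_num) (by norm_num) (by norm_num) (by norm_num) (by norm_num) (by norm_num) (by norm_num) (by norm_num) (by norm_num) (by norm_num) (by norm_num) (by norm_num) (by norm_num)

private theorem B5Ao_K67 {β r t κ h : ℝ} (hβ : 0 < β) (hr : 10 ≤ r) (hκ : κ = β * r) (hk1 : 0.3 ≤ κ) (hk2 : κ ≤ 0.36)
    (hh : h = 2 * Real.pi / 5) (hh1 : 1.25663 ≤ h) (hh2 : h ≤ 1.25664) (hta : 0.88 ≤ t + κ) (htb : t + κ ≤ 1.068)
    (hY : 0.9617 * Real.exp (r * sE κ (t - h)) ≤ ‖Xf β r h t 0‖) (hV : 1.03686 + 0.2934 * (t - h + κ) ≤ sE κ (t - h)) :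
    ‖Xf β r h t 2‖ ≤ 0.000648 * ‖Xf β r h t 0‖ := by
  rw [v5_X 2 1 (by push_cast; ring)]
  exact v5_cmp0 0.8663 0.0001738 0.000648 hr (B5Ao_C62 (t := t + 1 * h) hβ hr hκ hk1 hk2 (by linarith only [hta, htb, hh1, hh2]) (by linarith only [hta, htb, hh1, hh2])) hY (by norm_num) (by norm_num) (by norm_num) (by linarith only [hV, hta, htb, hh1, hh2]) (ex_un 8 0.6629 (by norm_num) (by norm_num) (by norm_num) (by norm_num)) (by norm_num)

private theorem B5Ao_K68 {β r t κ h : ℝ} (hβ : 0 < β) (hr : 10 ≤ r) (hκ : κ = β * r) (hk1 : 0.3 ≤ κ) (hk2 : κ ≤ 0.36)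
    (hh : h = 2 * Real.pi / 5) (hh1 : 1.25663 ≤ h) (hh2 : h ≤ 1.25664) (hta : 0.88 ≤ t + κ) (htb : t + κ ≤ 1.068)
    (hY : 0.9617 * Real.exp (r * sE κ (t - h)) ≤ ‖Xf β r h t 0‖) (hV : 1.03686 + 0.2934 * (t - h + κ) ≤ sE κ (t - h)) :
    ‖Xf β r h t (-1)‖ ≤ 0.00143 * ‖Xf β r h t 0‖ := by
  rw [v5_X (-1) (-2) (by push_cast; ring)]
  exact v5_cmp 0.7703 0.0004542 0.00105 0.8762 0.0001579 0.000378 0.00143 hr (B5Ao_C63 (t := t + (-2) * h) hβ hr hκ hk1 hk2 (by linarith only [hta, htb, hh1, hh2]) (by linarith only [hta, htb, hh1, hh2])) hY (by norm_num) (by norm_num) (by norm_num) (by norm_num) (by linarith only [hV, hta, htb, hh1, hh2]) (ex_un 7 0.7029 (by norm_num) (by norm_num) (by norm_num) (by norm_num)) (by norm_num) (by norm_num) (by linarith only [hV, hta, htb, hh1, hh2]) (ex_un 8 0.7619 (by norm_num) (by norm_num) (by norm_num) (by norm_num)) (by norm_num) (by norm_num)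

private theorem B5Ao_K69 {β r t κ h : ℝ} (hβ : 0 < β) (hr : 10 ≤ r) (hκ : κ = β * r) (hk1 : 0.3 ≤ κ) (hk2 : κ ≤ 0.36)
    (hh : h = 2 * Real.pi / 5) (hh1 : 1.25663 ≤ h) (hh2 : h ≤ 1.25664) (hta : 0.88 ≤ t + κ) (htb : t + κ ≤ 1.068)
    (hY : 0.9617 * Real.exp (r * sE κ (t - h)) ≤ ‖Xf β r h t 0‖) (hV : 1.03686 + 0.2934 * (t - h + κ) ≤ sE κ (t - h)) :
    ‖Xf β r h t (-2)‖ ≤ 0.000612 * ‖Xf β r h t 0‖ := by
  rw [v5_Xm2 hh]
  exact v5_cmp0 0.8663 0.0001738 0.000612 hr (B5Ao_C64 (t := t + 2 * h) hβ hr hκ hk1 hk2 (by linarith only [hta, htb, hh1, hh2]) (by linarith only [hta, htb, hh1, hh2])) hY (by norm_num) (by norm_num) (by norm_num) (by linarith only [hV, hta, htb, hh1, hh2]) (ex_un 8 0.6629 (by norm_num) (by norm_num) (by norm_num) (by norm_num)) (by norm_num)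

private theorem B5Ao_G70 {κ : ℝ} (hk1 : 0.3 ≤ κ) (hk2 : κ ≤ 0.36) : gG κ 0.5 ≤ 1.17101 ∧ 0.69767 ≤ Real.exp (-(κ * 0.5)) ^ 2 := by
  refine ⟨gG_le 0.5 0.3 0.36 1.17101 0.86071 0.83528 1.16184 1.19722 hk1 hk2 (by norm_num)
    (ex_um 0.15 (by norm_num) (by norm_num) (by norm_num) (by norm_num)) (ex_um 0.18 (by norm_num) (by norm_num) (by norm_num) (by norm_num))
    (ex_up 0.15 (by norm_num) (by norm_num) (by norm_num) (by norm_num)) (ex_up 0.18 (by norm_num) (by norm_num) (by norm_num) (by norm_num))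
    (by norm_num) (by norm_num), ?_⟩
  exact v5_M 0.83527 (ex_lm 0.18 (by linarith) (by norm_num) (by norm_num) (by norm_num) (by norm_num)) (by norm_num) (by norm_num)

private theorem B5Ao_C71 {β r t κ : ℝ} (hβ : 0 < β) (hr : 10 ≤ r) (hκ : κ = β * r) (hk1 : 0.3 ≤ κ) (hk2 : κ ≤ 0.36) (hta : 0.8799 ≤ t + κ)
    (htb : t + κ ≤ 1.0681) : ‖F (cexp (I * β)) (r * cexp (I * ((t + β / 2 : ℝ) : ℂ)))‖ ≤
      2.7458 * Real.exp (r * (1.17101 - 0.5 * (t + κ))) + 0.112 * Real.exp (r * 0) :=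
  v5_H 0.5 0.3 0.36 0.8799 1.0681 1.17101 2.7337 0.69767 0.0757 2.0905 0.8025 0.2056 0.128 0.00000203 2.7458 0.112 hβ hr hκ (by norm_num) hk1 hk2 hta htb (by norm_num) (B5Ao_G70 hk1 hk2).1 (B5Ao_G70 hk1 hk2).2 (by norm_num) (by norm_num) (by norm_num)
    (by norm_num) (by norm_num) (by norm_num) (by norm_num) (by norm_num) (by norm_num) (by norm_num) (by norm_num) (ex_un 2 0.0559 (by norm_num) (by norm_num) (by norm_num) (by norm_num))
    (v5_hump 3.9438 27.777 5.2704 0.0000009316 0.00000203 hβ hr hκ hk1 hk2 (by norm_num) htb (by norm_num) (by norm_num) (by norm_num) (by norm_num) (by norm_num) (by norm_num) (by norm_num) (ex_un 13 0.9 (by norm_num) (by norm_num) (by norm_num) (by norm_num)) (by norm_num)) (by norm_num) (by norm_num)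

private theorem B5Ao_K72 {β r t κ h : ℝ} (hβ : 0 < β) (hr : 10 ≤ r) (hκ : κ = β * r) (hk1 : 0.3 ≤ κ) (hk2 : κ ≤ 0.36)
    (hh : h = 2 * Real.pi / 5) (hh1 : 1.25663 ≤ h) (hh2 : h ≤ 1.25664) (hta : 0.88 ≤ t + κ) (htb : t + κ ≤ 1.068)
    (hY : 0.9617 * Real.exp (r * sE κ (t - h)) ≤ ‖Xf β r h t 0‖) (hV : 1.03686 + 0.2934 * (t - h + κ) ≤ sE κ (t - h)) :
    ‖Xf β r h t 1‖ ≤ 0.413 * ‖Xf β r h t 0‖ := by
  rw [v5_X 1 0 (by push_cast; ring)]
  exact v5_cmp 0.1953 0.1443 0.412 0.9263 0.0000949 0.0000111 0.413 hr (B5Ao_C71 (t := t + 0 * h) hβ hr hκ hk1 hk2 (by linarith only [hta, htb, hh1, hh2]) (by linarith only [hta, htb, hh1, hh2])) hY (by norm_num) (by norm_num) (by norm_num) (by norm_num) (by linarith only [hV, hta, htb, hh1, hh2]) (ex_un 1 0.9529 (by norm_num) (by norm_num) (by norm_num) (by norm_num)) (by norm_num) (by norm_num) (by linarith only [hV, hta, htb, hh1, hh2]) (ex_un 9 0.2629 (by norm_num)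 (by norm_num) (by norm_num) (by norm_num)) (by norm_num) (by norm_num)

private theorem B5Ao_O73 {β r t κ h : ℝ} (hβ : 0 < β) (hr : 10 ≤ r) (hκ : κ = β * r) (hk1 : 0.3 ≤ κ) (hk2 : κ ≤ 0.36)
    (hh : h = 2 * Real.pi / 5) (hta : 0.88 ≤ t + κ) (htb : t + κ ≤ 1.068) :
    ‖Xf β r h t (-2)‖ + ‖Xf β r h t (-1)‖ + ‖Xf β r h t 2‖ < |‖Xf β r h t 1‖ - ‖Xf β r h t 0‖| := by
  obtain ⟨hh1, hh2⟩ := v5_h hh
  have hκ0 : 0 < κ := by linarith only [hk1]
  have hN : β * 27.777 ≤ 1 := v5_hN 0.36 27.777 hβ hr hκ hk2 (by norm_num) (by norm_num)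
  have hD1 : DomR κ t := v5_dom hκ0 (by linarith only [hta, htb, hk1, hk2, hh1, hh2]) (Or.inr (by linarith only [hta, htb, hk1, hk2, hh1, hh2]))
  have hD0 : DomR κ (t - h) := v5_dom hκ0 (by linarith only [hta, htb, hk1, hk2, hh1, hh2]) (Or.inr (by linarith only [hta, htb, hk1, hk2, hh1, hh2]))
  have h0a : (-0.3767) ≤ t - h + κ := by linarith only [hta, htb, hh1, hh2]
  have h0b : t - h + κ ≤ (-0.1886) := by linarith only [hta, htb, hh1, hh2]
  have e0 : t - h = t + (((0 : ℤ) : ℝ) - 1) * h := by push_cast; ring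
  have hY := B5Ao_Y65 (h := h) hβ hκ hN hk1 hk2 e0 hD0 h0a h0b
  have hV := B5Ao_V66 hD0 hk1 hk2 h0a h0b
  have cp2 := B5Ao_K67 hβ hr hκ hk1 hk2 hh hh1 hh2 hta htb hY hV
  have cm1 := B5Ao_K68 hβ hr hκ hk1 hk2 hh hh1 hh2 hta htb hY hV
  have cm2 := B5Ao_K69 hβ hr hκ hk1 hk2 hh hh1 hh2 hta htb hY hV
  have cn1 := B5Ao_K72 hβ hr hκ hk1 hk2 hh hh1 hh2 hta htb hY hV
  have hp : 0 < ‖Xf β r h t 0‖ := lt_of_lt_of_le (by positivity) hY
  exact v5_out0 _ _ _ _ cm2 cm1 cp2 cn1 hp (by norm_num)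

private theorem B5Ao_B74 {κ t : ℝ} (h : DomR κ t) (hk1 : 0.3 ≤ κ) (hk2 : κ ≤ 0.36) (ht1 : (-0.1887) ≤ t + κ) (ht2 : t + κ ≤ 0.0629) :
    ((-0.066) ≤ sy κ t ∧ sy κ t ≤ 0.02) ∧ (0.2865 ≤ sx κ t ∧ sx κ t ≤ 0.3846) ∧ κ * Real.exp (-sy κ t) ≤ 0.3846 ∧ 0.9706 ≤ sD κ t ∧ sD κ t ≤ 1.1646 := by
  have hy1 : -0.066 ≤ sy κ t := syL_ge h 0.3 0.36 0.1887 0.066 0.93613 0.93614 0.163 0.17162 0.20596 hk1 hk2 (by linarith) (by norm_num) (by norm_num) (by norm_num)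
    (expm_ge (by norm_num) (by norm_num) (by norm_num) (by norm_num)) (expm_le (by norm_num) (by norm_num) (by norm_num)) (by norm_num)
    (by norm_num) (by norm_num) (by norm_num) (by norm_num) (by norm_num) (by norm_num)
  have hy2 : sy κ t ≤ 0.02 := syR_le h 0.3 0.36 0.0629 0.02 1.0202 0.0538 0.05667 0.06802 hk1 hk2 (by linarith) (by norm_num) (by norm_num)
    (expn_ge (by norm_num) (by norm_num)) (by norm_num) (by norm_num) (Or.inr ((mul_le_mul_of_nonneg_left (expn_le (E := 1.02021) (by norm_num) (by norm_num) (by norm_num)) (by norm_num)).trans (by norm_num))) (by norm_num) (by norm_num) (by norm_num)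
  have hy1' : (-0.066) ≤ sy κ t := by linarith
  have hy2' : sy κ t ≤ 0.02 := by linarith
  have hx1 : 0.2865 ≤ sx κ t := sx_lo h 0.3 0.02 0.0661 0.98019 0.2865 hk1 (by norm_num) hy2' (abs_le.2 ⟨by linarith, by linarith⟩) (ex_lm 0.02 (by norm_num) (by norm_num) (by norm_num) (by norm_num) (by norm_num)) (by norm_num) (by norm_num)
  have hx2 : sx κ t ≤ 0.3846 := sx_hi h 0.36 (-0.066) 0 1.06823 0.3846 hk2 hy1' (by norm_num) (abs_nonneg _) (ex_up 0.066 (by norm_num) (by norm_num) (by norm_num) (by norm_num)) (by norm_num) (by norm_num)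
  refine ⟨⟨hy1', hy2'⟩, ⟨hx1, hx2⟩, v5_n h 0.36 (-0.066) 1.06823 0.3846 hk2 hy1' (ex_up 0.066 (by norm_num) (by norm_num) (by norm_num) (by norm_num)) (by norm_num), ?_, ?_⟩
  · exact v5_Dlo h 0.3 (-0.066) 0.02 (-0.066) 1.06822 0.9706 (by norm_num) hk1 hy1' hy2' (ex_lp 0.066 (by norm_num) (by norm_num) (by norm_num)) (by norm_num) (by norm_num) (by norm_num) (by norm_num)
  · exact v5_Dup h 0.36 (-0.066) 0.02 1.06823 0.9802 1.1646 hk2 hy1' hy2' (ex_up 0.066 (by norm_num) (by norm_num) (by norm_num) (by norm_num)) (ex_um 0.02 (by norm_num) (by norm_num) (by norm_num) (by norm_num)) (by norm_num) (by norm_num) (by norm_num)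

private theorem B5Ao_T75_0_0 {β x y : ℝ} (hβ : 0 < β) (hN : β * 27.777 ≤ 1) (hx1 : 0.2864 ≤ x) (hx2 : x ≤ 0.3847)
    (hy1 : -0.0661 ≤ y) (hy2 : y ≤ 0.0201) : ‖HH β (x + y * I) - 1‖ ≤ 0.03 := by
  refine le_epsJ (C := 0.2138) (N0 := 27.777) (J_boxp 0.2864 0.3847 0.0661 0.0201 0.0201 0.8647 0.3904 1.0903 1.2986 0.4166 5.2704 27.777 0.4515 1.77 1.221 1.2111 0.4323 0.3672 1.0019 3.6727 0.4559 0.8945 1.8776 4.1289 0.000006102 0.00003721 0.0000003101 0.0000003101 0.000003169 0.0000003101 0.0000003101 0.0000003101 0.2138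
    hβ hN hx1 hx2 hy1 hy2 (by norm_num) (by norm_num) (by linarith) (by norm_num) (by norm_num) (by norm_num) (by norm_num) (by norm_num) (by norm_num) (by norm_num) (by norm_num) (by norm_num) (by norm_num) (by norm_num) (by norm_num) (by norm_num) (by norm_num) (by norm_num) (by norm_num) (by norm_num) (by norm_num) (by norm_num) (by norm_num) (by norm_num)
    (cube_sqrt_geJ (s := 0.9216) (by norm_num) (by norm_num) (by norm_num) (by norm_num))
    (cube_sqrt_geJ (s := 0.9719) (by norm_num) (by norm_num) (by norm_num) (by norm_num))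
    (by norm_num) (by norm_num) (by norm_num) (by norm_num) (by norm_num) (by norm_num) (by norm_num) (by norm_num) (by norm_num) (by norm_num) (by norm_num) (by norm_num) (by norm_num) (by norm_num) (by norm_num) (by norm_num) (by norm_num) (by norm_num)
    (exp_neg_leJ (r := 0.007) 12 (by norm_num) (by norm_num) (by norm_num) (by norm_num))
    (exp_neg_leJ (r := 0.199) 10 (by norm_num) (by norm_num) (by norm_num) (by norm_num))
    (exp_neg_leJ (r := 0.99) 14 (by norm_num) (by norm_num) (by norm_num) (by norm_num))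
    (exp_neg_leJ (r := 0.99) 14 (by norm_num) (by norm_num) (by norm_num) (by norm_num))
    (exp_neg_leJ (r := 0.663) 12 (by norm_num) (by norm_num) (by norm_num) (by norm_num))
    (exp_neg_leJ (r := 0.99) 14 (by norm_num) (by norm_num) (by norm_num) (by norm_num))
    (exp_neg_leJ (r := 0.99) 14 (by norm_num) (by norm_num) (by norm_num) (by norm_num))
    (exp_neg_leJ (r := 0.99) 14 (by norm_num) (by norm_num) (by norm_num) (by norm_num))
    (by norm_num)) (by norm_num) hN hβ.le (by norm_num)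

private theorem B5Ao_T75 {β x y : ℝ} (hβ : 0 < β) (hN : β * 27.777 ≤ 1) (hx1 : 0.2864 ≤ x) (hx2 : x ≤ 0.3847)
    (hy1 : (-0.0661) ≤ y) (hy2 : y ≤ 0.0201) : ‖HH β (x + y * I) - 1‖ ≤ 0.03 := by
  exact B5Ao_T75_0_0 hβ hN (by linarith) (by linarith) (by linarith) (by linarith)

private theorem B5Ao_C76 {β r t κ : ℝ} (hβ : 0 < β) (hr : 10 ≤ r) (hκ : κ = β * r) (hk1 : 0.3 ≤ κ) (hk2 : κ ≤ 0.36) (hta : 2.3246 ≤ t + κ)
    (htb : t + κ ≤ 2.5762) : ‖F (cexp (I * β)) (r * cexp (I * ((t + β / 2 : ℝ) : ℂ)))‖ ≤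
      3.4726 * Real.exp (r * (0.01 + 1 / 20)) :=
  v5_UD 0.3 0.36 2.3246 2.5762 0.01 0.7284 0.01 1.8104 3.4726 hβ hr hκ (by norm_num) hk1 hk2 hta htb (by norm_num) (by norm_num) (by norm_num) (by norm_num) (by norm_num) (by norm_num) (by norm_num) (by norm_num) (by norm_num) (by norm_num) (by norm_num)

private theorem B5Ao_C77 {β r t κ : ℝ} (hβ : 0 < β) (hr : 10 ≤ r) (hκ : κ = β * r) (hk1 : 0.3 ≤ κ) (hk2 : κ ≤ 0.36) (hta : (-1.4453) ≤ t + κ)
    (htb : t + κ ≤ (-1.1937)) : ‖F (cexp (I * β)) (r * cexp (I * ((t + β / 2 : ℝ) : ℂ)))‖ ≤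
      2.2213 * Real.exp (r * (1.23725 - (-0.71) * (t + κ))) + 2.2949 * Real.exp (r * 0.1049) :=
  v5_HU (-0.71) 0.3 0.36 (-1.4453) (-1.1937) 1.23725 2.2213 1.5311 0.0757 1.3971 2.9066 0.0772 0.1049 0.00000203 2.2949 hβ hr hκ (by norm_num) hk1 hk2 hta htb (by norm_num) (by norm_num) (B5Ao_G5 hk1 hk2).1 (B5Ao_G5 hk1 hk2).2 (by norm_num) (by norm_num) (by norm_num)
    (by norm_num) (by norm_num) (by norm_num) (by norm_num) (by norm_num) (by norm_num) (by norm_num)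
    (by norm_num) (by norm_num) (by norm_num) (v5_hump 6.2056 27.777 5.2704 0.0000009316 0.00000203 hβ hr hκ hk1 hk2 (by norm_num) htb (by norm_num) (by norm_num) (by norm_num) (by norm_num) (by norm_num) (by norm_num) (by norm_num) (ex_un 13 0.9 (by norm_num) (by norm_num) (by norm_num) (by norm_num)) (by norm_num)) (by norm_num)

private theorem B5Ao_C78 {β r t κ : ℝ} (hβ : 0 < β) (hr : 10 ≤ r) (hκ : κ = β * r) (hk1 : 0.3 ≤ κ) (hk2 : κ ≤ 0.36) (hta : 3.5812 ≤ t + κ)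
    (htb : t + κ ≤ 3.8328) : ‖F (cexp (I * β)) (r * cexp (I * ((t + β / 2 : ℝ) : ℂ)))‖ ≤
      3.3782 * Real.exp (r * (0.01 + 1 / 20)) :=
  v5_UD 0.3 0.36 3.5812 3.8328 0.01 0.7284 0.01 1.7612 3.3782 hβ hr hκ (by norm_num) hk1 hk2 hta htb (by norm_num) (by norm_num) (by norm_num) (by norm_num) (by norm_num) (by norm_num) (by norm_num) (by norm_num) (by norm_num) (by norm_num) (by norm_num)

private theorem B5Ao_Y79 {β r t κ h t' : ℝ} (hβ : 0 < β) (hκ : κ = β * r) (hN : β * 27.777 ≤ 1) (hk1 : 0.3 ≤ κ) (hk2 : κ ≤ 0.36)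
    (ht : t' = t + (((0 : ℤ) : ℝ) - 1) * h) (hD : DomR κ t') (hta : (-0.1887) ≤ t' + κ) (htb : t' + κ ≤ 0.0629) :
    0.9337 * Real.exp (r * sE κ t') ≤ ‖Xf β r h t 0‖ := by
  obtain ⟨⟨ya, yb⟩, ⟨xa, xb⟩, n1, Da, Db⟩ := B5Ao_B74 hD hk1 hk2 hta htb
  have J := B5Ao_T75 (x := sx κ t') (y := sy κ t') hβ hN (by linarith only [xa, xb, ya, yb]) (by linarith only [xa, xb, ya, yb]) (by linarith only [xa, xb, ya, yb]) (by linarith only [xa, xb, ya, yb])
  exact v5_Jlo hβ hκ (k := 0) ht hD 0.03 1.1646 0.9337 (by norm_num) J Db (by norm_num)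

private theorem B5Ao_V80 {κ t : ℝ} (hD : DomR κ t) (hk1 : 0.3 ≤ κ) (hk2 : κ ≤ 0.36) (hta : (-0.1887) ≤ t + κ) (htb : t + κ ≤ 0.0629) :
    0.99422 + 0.0612 * (t + κ) ≤ sE κ t := by
  have hκ0 : 0 < κ := hD.1
  exact v5_V0 hD 0.3 0.36 (-0.1887) 0.0629 0.1888 0.5299 0.14496 0.01297 0.77219 0.33028 0.99422 0.0612 (by norm_num) hk1 hk2 (by norm_num) hta htb (by norm_num) (by norm_num) (by norm_num) ((cup1 0.36 hκ0.le hk2 (by norm_num)).trans (by norm_num))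
      (by norm_num) (by norm_num) (by norm_num) (by norm_num) (by norm_num) (by norm_num) (by norm_num) (by norm_num) (by norm_num) (by norm_num) (by norm_num) (by norm_num) (by norm_num)

private theorem B5Ao_K81 {β r t κ h : ℝ} (hβ : 0 < β) (hr : 10 ≤ r) (hκ : κ = β * r) (hk1 : 0.3 ≤ κ) (hk2 : κ ≤ 0.36)
    (hh : h = 2 * Real.pi / 5) (hh1 : 1.25663 ≤ h) (hh2 : h ≤ 1.25664) (hta : 1.068 ≤ t + κ) (htb : t + κ ≤ 1.3195)
    (hY : 0.9337 * Real.exp (r * sE κ (t - h)) ≤ ‖Xf β r h t 0‖) (hV : 0.99422 + 0.0612 * (t - h + κ) ≤ sE κ (t - h)) :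
    ‖Xf β r h t 2‖ ≤ 0.000367 * ‖Xf β r h t 0‖ := by
  rw [v5_X 2 1 (by push_cast; ring)]
  exact v5_cmp0 0.9226 0.00009847 0.000367 hr (B5Ao_C76 (t := t + 1 * h) hβ hr hκ hk1 hk2 (by linarith only [hta, htb, hh1, hh2]) (by linarith only [hta, htb, hh1, hh2])) hY (by norm_num) (by norm_num) (by norm_num) (by linarith only [hV, hta, htb, hh1, hh2]) (ex_un 9 0.2259 (by norm_num) (by norm_num) (by norm_num) (by norm_num)) (by norm_num)

private theorem B5Ao_K82 {β r t κ h : ℝ} (hβ : 0 < β) (hr : 10 ≤ r) (hκ : κ = β * r) (hk1 : 0.3 ≤ κ) (hk2 : κ ≤ 0.36)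
    (hh : h = 2 * Real.pi / 5) (hh1 : 1.25663 ≤ h) (hh2 : h ≤ 1.25664) (hta : 1.068 ≤ t + κ) (htb : t + κ ≤ 1.3195)
    (hY : 0.9337 * Real.exp (r * sE κ (t - h)) ≤ ‖Xf β r h t 0‖) (hV : 0.99422 + 0.0612 * (t - h + κ) ≤ sE κ (t - h)) :
    ‖Xf β r h t (-1)‖ ≤ 0.00582 * ‖Xf β r h t 0‖ := by
  rw [v5_X (-1) (-2) (by push_cast; ring)]
  exact v5_cmp 0.6083 0.002282 0.00543 0.8777 0.0001556 0.000383 0.00582 hr (B5Ao_C77 (t := t + (-2) * h) hβ hr hκ hk1 hk2 (by linarith only [hta, htb, hh1, hh2]) (by linarith only [hta, htb, hh1, hh2])) hY (by norm_num) (by norm_num) (by norm_num) (by norm_num) (by linarith only [hV, hta, htb, hh1, hh2]) (ex_un 6 0.0829 (by norm_num) (by norm_num) (by norm_num) (by norm_num)) (by norm_num) (by norm_num) (by linarith only [hV, hta, htb, hh1, hh2]) (ex_un 8 0.7769 (by norm_num) (by norm_num) (by norm_num) (by norm_num)) (by norm_num) (by norm_num)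

private theorem B5Ao_K83 {β r t κ h : ℝ} (hβ : 0 < β) (hr : 10 ≤ r) (hκ : κ = β * r) (hk1 : 0.3 ≤ κ) (hk2 : κ ≤ 0.36)
    (hh : h = 2 * Real.pi / 5) (hh1 : 1.25663 ≤ h) (hh2 : h ≤ 1.25664) (hta : 1.068 ≤ t + κ) (htb : t + κ ≤ 1.3195)
    (hY : 0.9337 * Real.exp (r * sE κ (t - h)) ≤ ‖Xf β r h t 0‖) (hV : 0.99422 + 0.0612 * (t - h + κ) ≤ sE κ (t - h)) :
    ‖Xf β r h t (-2)‖ ≤ 0.000357 * ‖Xf β r h t 0‖ := by
  rw [v5_Xm2 hh]
  exact v5_cmp0 0.9226 0.00009847 0.000357 hr (B5Ao_C78 (t := t + 2 * h) hβ hr hκ hk1 hk2 (by linarith only [hta, htb, hh1, hh2]) (by linarith only [hta, htb, hh1, hh2])) hY (by norm_num) (by norm_num) (by norm_num) (by linarith only [hV, hta, htb, hh1, hh2]) (ex_un 9 0.2259 (by norm_num) (by norm_num) (by norm_num) (by norm_num)) (by norm_num)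

private theorem B5Ao_G84 {κ : ℝ} (hk1 : 0.3 ≤ κ) (hk2 : κ ≤ 0.36) : gG κ 0.56 ≤ 1.22188 ∧ 0.66817 ≤ Real.exp (-(κ * 0.56)) ^ 2 := by
  refine ⟨gG_le 0.56 0.3 0.36 1.22188 0.84536 0.81743 1.18294 1.22336 hk1 hk2 (by norm_num)
    (ex_um 0.168 (by norm_num) (by norm_num) (by norm_num) (by norm_num)) (ex_um 0.2016 (by norm_num) (by norm_num) (by norm_num) (by norm_num))
    (ex_up 0.168 (by norm_num) (by norm_num) (by norm_num) (by norm_num)) (ex_up 0.2016 (by norm_num) (by norm_num) (by norm_num) (by norm_num))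
    (by norm_num) (by norm_num), ?_⟩
  exact v5_M 0.81742 (ex_lm 0.2016 (by linarith) (by norm_num) (by norm_num) (by norm_num) (by norm_num)) (by norm_num) (by norm_num)

private theorem B5Ao_C85 {β r t κ : ℝ} (hβ : 0 < β) (hr : 10 ≤ r) (hκ : κ = β * r) (hk1 : 0.3 ≤ κ) (hk2 : κ ≤ 0.36) (hta : 1.0679 ≤ t + κ)
    (htb : t + κ ≤ 1.3196) : ‖F (cexp (I * β)) (r * cexp (I * ((t + β / 2 : ℝ) : ℂ)))‖ ≤
      2.9316 * Real.exp (r * (1.22188 - 0.56 * (t + κ))) + 0.109 * Real.exp (r * 0) :=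
  v5_H 0.56 0.3 0.36 1.0679 1.3196 1.22188 2.8978 0.66817 0.0757 2.2785 0.551 0.14063 0.2453 0.00000203 2.9316 0.109 hβ hr hκ (by norm_num) hk1 hk2 hta htb (by norm_num) (B5Ao_G84 hk1 hk2).1 (B5Ao_G84 hk1 hk2).2 (by norm_num) (by norm_num) (by norm_num)
    (by norm_num) (by norm_num) (by norm_num) (by norm_num) (by norm_num) (by norm_num) (by norm_num) (by norm_num) (ex_un 1 0.4062 (by norm_num) (by norm_num) (by norm_num) (by norm_num))
    (v5_hump 3.6923 27.777 5.2704 0.0000009316 0.00000203 hβ hr hκ hk1 hk2 (by norm_num) htb (by norm_num) (by norm_num) (by norm_num) (by norm_num) (by norm_num) (by norm_num) (by norm_num) (ex_un 13 0.9 (by norm_num) (by norm_num) (by norm_num) (by norm_num)) (by norm_num)) (by norm_num) (by norm_num)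

private theorem B5Ao_K86 {β r t κ h : ℝ} (hβ : 0 < β) (hr : 10 ≤ r) (hκ : κ = β * r) (hk1 : 0.3 ≤ κ) (hk2 : κ ≤ 0.36)
    (hh : h = 2 * Real.pi / 5) (hh1 : 1.25663 ≤ h) (hh2 : h ≤ 1.25664) (hta : 1.068 ≤ t + κ) (htb : t + κ ≤ 1.3195)
    (hY : 0.9337 * Real.exp (r * sE κ (t - h)) ≤ ‖Xf β r h t 0‖) (hV : 0.99422 + 0.0612 * (t - h + κ) ≤ sE κ (t - h)) :
    ‖Xf β r h t 1‖ ≤ 0.0873 * ‖Xf β r h t 0‖ := by
  rw [v5_X 1 0 (by push_cast; ring)]
  exact v5_cmp 0.3588 0.02775 0.0872 0.9826 0.00005459 0.00000638 0.0873 hr (B5Ao_C85 (t := t + 0 * h) hβ hr hκ hk1 hk2 (by linarith only [hta, htb, hh1, hh2]) (by linarith only [hta, htb, hh1, hh2])) hY (by norm_num) (by norm_num) (by norm_num) (by norm_num) (by linarith only [hV, hta, htb, hh1, hh2]) (ex_un 3 0.5879 (by norm_num) (by norm_num) (by norm_num) (by norm_num)) (by norm_num) (by norm_num) (by linarith only [hV, hta, htb, hh1, hh2]) (ex_un 9 0.8259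 (by norm_num) (by norm_num) (by norm_num) (by norm_num)) (by norm_num) (by norm_num)

private theorem B5Ao_O87 {β r t κ h : ℝ} (hβ : 0 < β) (hr : 10 ≤ r) (hκ : κ = β * r) (hk1 : 0.3 ≤ κ) (hk2 : κ ≤ 0.36)
    (hh : h = 2 * Real.pi / 5) (hta : 1.068 ≤ t + κ) (htb : t + κ ≤ 1.3195) :
    ‖Xf β r h t (-2)‖ + ‖Xf β r h t (-1)‖ + ‖Xf β r h t 2‖ < |‖Xf β r h t 1‖ - ‖Xf β r h t 0‖| := by
  obtain ⟨hh1, hh2⟩ := v5_h hh
  have hκ0 : 0 < κ := by linarith only [hk1]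
  have hN : β * 27.777 ≤ 1 := v5_hN 0.36 27.777 hβ hr hκ hk2 (by norm_num) (by norm_num)
  have hD1 : DomR κ t := v5_dom hκ0 (by linarith only [hta, htb, hk1, hk2, hh1, hh2]) (Or.inr (by linarith only [hta, htb, hk1, hk2, hh1, hh2]))
  have hD0 : DomR κ (t - h) := v5_dom hκ0 (by linarith only [hta, htb, hk1, hk2, hh1, hh2]) (Or.inr (by linarith only [hta, htb, hk1, hk2, hh1, hh2]))
  have h0a : (-0.1887) ≤ t - h + κ := by linarith only [hta, htb, hh1, hh2]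
  have h0b : t - h + κ ≤ 0.0629 := by linarith only [hta, htb, hh1, hh2]
  have e0 : t - h = t + (((0 : ℤ) : ℝ) - 1) * h := by push_cast; ring
  have hY := B5Ao_Y79 (h := h) hβ hκ hN hk1 hk2 e0 hD0 h0a h0b
  have hV := B5Ao_V80 hD0 hk1 hk2 h0a h0b
  have cp2 := B5Ao_K81 hβ hr hκ hk1 hk2 hh hh1 hh2 hta htb hY hV
  have cm1 := B5Ao_K82 hβ hr hκ hk1 hk2 hh hh1 hh2 hta htb hY hV
  have cm2 := B5Ao_K83 hβ hr hκ hk1 hk2 hh hh1 hh2 hta htb hY hV
  have cn1 := B5Ao_K86 hβ hr hκ hk1 hk2 hh hh1 hh2 hta htb hY hV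
  have hp : 0 < ‖Xf β r h t 0‖ := lt_of_lt_of_le (by positivity) hY
  exact v5_out0 _ _ _ _ cm2 cm1 cp2 cn1 hp (by norm_num)

theorem R1_b5_A {p : ℤ} {β r : ℝ} (hp : IsCoprime (5 : ℤ) p) (hr : 10 ≤ r) (hβ : 0 < β) (hk1 : 0.3 ≤ β * r)
    (hk2 : β * r ≤ 0.36) : Circ (2 * Real.pi * p / 5 + β) r := by
  obtain ⟨h, hh⟩ : ∃ h : ℝ, h = 2 * Real.pi / 5 := ⟨_, rfl⟩
  obtain ⟨hh1, hh2⟩ := v5_h hh
  obtain ⟨κ, hκ⟩ : ∃ κ, κ = β * r := ⟨_, rfl⟩
  rw [← hκ] at hk1 hk2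
  refine v5_circ (κ := κ) hp hr hh 0.45 0.61 1.03 0.02 0.0117 0.00339 0.00485 0.0421 0.016 0.0316 0.7596 ?_ ?_ (by norm_num) (by norm_num) (by norm_num) (by norm_num) (by norm_num) (by norm_num) (by norm_num) (by norm_num) (by norm_num) (by norm_num)
  · intro t g1 g2
    rcases le_total (t + κ) 0.666 with g3 | g3
    · exact B5Aw_W21 hβ hr hκ hk1 hk2 hh (by linarith) (by linarith)
    exact B5Aw_W41 hβ hr hκ hk1 hk2 hh (by linarith) (by linarith)
  · intro t g1 g2 g3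
    rcases g3 with g3 | g3
    · rcases le_total (t + κ) 0.251 with g4 | g4
      · exact B5Ao_O15 hβ hr hκ hk1 hk2 hh (by linarith) (by linarith)
      rcases le_total (t + κ) 0.415 with g4 | g4
      · exact B5Ao_O29 hβ hr hκ hk1 hk2 hh (by linarith) (by linarith)
      exact B5Ao_O43 hβ hr hκ hk1 hk2 hh (by linarith) (by linarith)
    · rcases le_total (t + κ) 0.88 with g4 | g4
      · exact B5Ao_O59 hβ hr hκ hk1 hk2 hh (by linarith) (by linarith)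
      rcases le_total (t + κ) 1.068 with g4 | g4
      · exact B5Ao_O73 hβ hr hκ hk1 hk2 hh (by linarith) (by linarith)
      exact B5Ao_O87 hβ hr hκ hk1 hk2 hh (by linarith) (by linarith)

end Sok
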