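import Pool.Agent.Lib.MP_816dec_an.R1b5WB

/-!
MP_816dec_an (A3, row R1), SINGLE CASE `b = 5`, `r ≥ 10`, `0.36 ≤ κ ≤ 0.42`: outside the window, assembly (generated file).
-/

set_option autoImplicit false
set_option linter.unusedVariables false

open Complex Set Filter Topology Metric

namespace Sok

private theorem B5Bo_B1 {κ t : ℝ} (h : DomR κ t) (hk1 : 0.36 ≤ κ) (hk2 : κ ≤ 0.42) (ht1 : 0.0628 ≤ t + κ) (ht2 : t + κ ≤ 0.251) :
    (0.019 ≤ sy κ t ∧ sy κ t ≤ 0.081) ∧ (0.3219 ≤ sx κ t ∧ sx κ t ≤ 0.4117) ∧ κ * Real.exp (-sy κ t) ≤ 0.4121 ∧ 1.1627 ≤ sD κ t ∧ sD κ t ≤ 1.3121 := by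
  have hy1 : 0.019 ≤ sy κ t := syR_ge h 0.36 0.42 0.0628 0.019 1.01918 1.01919 0.0461 0.0538 hk1 hk2 (by linarith) (by norm_num) (by norm_num)
    (expn_ge (by norm_num) (by norm_num)) (expn_le (by norm_num) (by norm_num) (by norm_num)) (by norm_num)
    (by norm_num) (by norm_num) (by norm_num) (by norm_num) (by norm_num) (by norm_num)
  have hy2 : sy κ t ≤ 0.081 := syR_le h 0.36 0.42 0.251 0.081 1.08437 0.2004 0.20912 0.24399 hk1 hk2 (by linarith) (by norm_num) (by norm_num)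
    (expn_ge (by norm_num) (by norm_num)) (by norm_num) (by norm_num) (Or.inr ((mul_le_mul_of_nonneg_left (expn_le (E := 1.08438) (by norm_num) (by norm_num) (by norm_num)) (by norm_num)).trans (by norm_num))) (by norm_num) (by norm_num) (by norm_num)
  have hy1' : 0.019 ≤ sy κ t := by linarith
  have hy2' : sy κ t ≤ 0.081 := by linarith
  have hx1 : 0.3219 ≤ sx κ t := sx_lo h 0.36 0.081 0.0811 0.92219 0.3219 hk1 (by norm_num) hy2' (abs_le.2 ⟨by linarith, by linarith⟩) (ex_lm 0.081 (by norm_num) (by norm_num) (by norm_num) (by norm_num) (by norm_num)) (by norm_num) (by norm_num)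
  have hx2 : sx κ t ≤ 0.4117 := sx_hi h 0.42 0.019 0.019 0.98118 0.4117 hk2 hy1' (by norm_num) (le_trans (by linarith) (le_abs_self _)) (ex_um 0.019 (by norm_num) (by norm_num) (by norm_num) (by norm_num)) (by norm_num) (by norm_num)
  refine ⟨⟨hy1', hy2'⟩, ⟨hx1, hx2⟩, v5_n h 0.42 0.019 0.98118 0.4121 hk2 hy1' (ex_um 0.019 (by norm_num) (by norm_num) (by norm_num) (by norm_num)) (by norm_num), ?_, ?_⟩
  · exact v5_Dlo h 0.36 0.019 0.081 0.019 0.98117 1.1627 (by norm_num) hk1 hy1' hy2' (ex_lm 0.019 (by norm_num) (by norm_num) (by norm_num) (by norm_num) (by norm_num)) (by norm_num) (by norm_num) (by norm_num) (by norm_num)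
  · exact v5_Dup h 0.42 0.019 0.081 0.98118 0.9222 1.3121 hk2 hy1' hy2' (ex_um 0.019 (by norm_num) (by norm_num) (by norm_num) (by norm_num)) (ex_um 0.081 (by norm_num) (by norm_num) (by norm_num) (by norm_num)) (by norm_num) (by norm_num) (by norm_num)

private theorem B5Bo_T2_0_0 {β x y : ℝ} (hβ : 0 < β) (hN : β * 23.809 ≤ 1) (hx1 : 0.3218 ≤ x) (hx2 : x ≤ 0.4118)
    (hy1 : -0 ≤ y) (hy2 : y ≤ 0.0811) : ‖HH β (x + y * I) - 1‖ ≤ 0.03 := by
  refine le_epsJ (C := 0.1943) (N0 := 23.809) (J_boxp 0.3218 0.4118 0 0.0811 0.0811 0.9366 0.4198 1.1569 1.1867 0.4291 4.8795 23.809 0.4483 1.763 1.219 1.2617 0.4682 0.3983 1.1184 3.8638 0.503 0.9372 1.8664 3.8324 0.00001442 0.00007615 0.0000003101 0.0000003101 0.000006321 0.0000003101 0.0000003101 0.0000003101 0.1943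
    hβ hN hx1 hx2 hy1 hy2 (by norm_num) (by norm_num) (by linarith) (by norm_num) (by norm_num) (by norm_num) (by norm_num) (by norm_num) (by norm_num) (by norm_num) (by norm_num) (by norm_num) (by norm_num) (by norm_num) (by norm_num) (by norm_num) (by norm_num) (by norm_num) (by norm_num) (by norm_num) (by norm_num) (by norm_num) (by norm_num) (by norm_num)
    (cube_sqrt_geJ (s := 0.9222) (by norm_num) (by norm_num) (by norm_num) (by norm_num))
    (cube_sqrt_geJ (s := 0.9721) (by norm_num) (by norm_num) (by norm_num) (by norm_num))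
    (by norm_num) (by norm_num) (by norm_num) (by norm_num) (by norm_num) (by norm_num) (by norm_num) (by norm_num) (by norm_num) (by norm_num) (by norm_num) (by norm_num) (by norm_num) (by norm_num) (by norm_num) (by norm_num) (by norm_num) (by norm_num)
    (exp_neg_leJ (r := 0.147) 11 (by norm_num) (by norm_num) (by norm_num) (by norm_num))
    (exp_neg_leJ (r := 0.483) 9 (by norm_num) (by norm_num) (by norm_num) (by norm_num))
    (exp_neg_leJ (r := 0.99) 14 (by norm_num) (by norm_num) (by norm_num) (by norm_num))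
    (exp_neg_leJ (r := 0.99) 14 (by norm_num) (by norm_num) (by norm_num) (by norm_num))
    (exp_neg_leJ (r := 0.975) 11 (by norm_num) (by norm_num) (by norm_num) (by norm_num))
    (exp_neg_leJ (r := 0.99) 14 (by norm_num) (by norm_num) (by norm_num) (by norm_num))
    (exp_neg_leJ (r := 0.99) 14 (by norm_num) (by norm_num) (by norm_num) (by norm_num))
    (exp_neg_leJ (r := 0.99) 14 (by norm_num) (by norm_num) (by norm_num) (by norm_num))
    (by norm_num)) (by norm_num) hN hβ.le (by norm_num)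

private theorem B5Bo_T2 {β x y : ℝ} (hβ : 0 < β) (hN : β * 23.809 ≤ 1) (hx1 : 0.3218 ≤ x) (hx2 : x ≤ 0.4118)
    (hy1 : 0.0189 ≤ y) (hy2 : y ≤ 0.0811) : ‖HH β (x + y * I) - 1‖ ≤ 0.03 := by
  exact B5Bo_T2_0_0 hβ hN (by linarith) (by linarith) (by linarith) (by linarith)

private theorem B5Bo_G3 {κ : ℝ} (hk1 : 0.36 ≤ κ) (hk2 : κ ≤ 0.42) : gG κ 0.59 ≤ 1.26801 ∧ 0.60919 ≤ Real.exp (-(κ * 0.59)) ^ 2 := by
  refine ⟨gG_le 0.59 0.36 0.42 1.26801 0.80865 0.78052 1.23665 1.28121 hk1 hk2 (by norm_num)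
    (ex_um 0.2124 (by norm_num) (by norm_num) (by norm_num) (by norm_num)) (ex_um 0.2478 (by norm_num) (by norm_num) (by norm_num) (by norm_num))
    (ex_up 0.2124 (by norm_num) (by norm_num) (by norm_num) (by norm_num)) (ex_up 0.2478 (by norm_num) (by norm_num) (by norm_num) (by norm_num))
    (by norm_num) (by norm_num), ?_⟩
  exact v5_M 0.78051 (ex_lm 0.2478 (by linarith) (by norm_num) (by norm_num) (by norm_num) (by norm_num)) (by norm_num) (by norm_num)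

private theorem B5Bo_C4 {β r t κ : ℝ} (hβ : 0 < β) (hr : 10 ≤ r) (hκ : κ = β * r) (hk1 : 0.36 ≤ κ) (hk2 : κ ≤ 0.42) (hta : 1.3194 ≤ t + κ)
    (htb : t + κ ≤ 1.5077) : ‖F (cexp (I * β)) (r * cexp (I * ((t + β / 2 : ℝ) : ℂ)))‖ ≤
      2.9328 * Real.exp (r * (1.26801 - 0.59 * (t + κ))) + 0.115 * Real.exp (r * 0) :=
  v5_H 0.59 0.36 0.42 1.3194 1.5077 1.26801 2.8556 0.60919 0.0818 2.47 0.4229 0.09343 0.399 0.00000189 2.9328 0.115 hβ hr hκ (by norm_num) hk1 hk2 hta htb (by norm_num) (B5Bo_G3 hk1 hk2).1 (B5Bo_G3 hk1 hk2).2 (by norm_num) (by norm_num) (by norm_num)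
    (by norm_num) (by norm_num) (by norm_num) (by norm_num) (by norm_num) (by norm_num) (by norm_num) (by norm_num) (ex_un 0 0.9342 (by norm_num) (by norm_num) (by norm_num) (by norm_num))
    (v5_hump 3.4826 23.809 4.8795 0.0000009316 0.00000189 hβ hr hκ hk1 hk2 (by norm_num) htb (by norm_num) (by norm_num) (by norm_num) (by norm_num) (by norm_num) (by norm_num) (by norm_num) (ex_un 13 0.9 (by norm_num) (by norm_num) (by norm_num) (by norm_num)) (by norm_num)) (by norm_num) (by norm_num)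

private theorem B5Bo_G5 {κ : ℝ} (hk1 : 0.36 ≤ κ) (hk2 : κ ≤ 0.42) : gG κ (-0.7) ≤ 1.23566 ∧ 1.65531 ≤ Real.exp (-(κ * (-0.7))) ^ 2 := by
  refine ⟨gG_le (-0.7) 0.36 0.42 1.23566 1.2866 1.34179 0.77725 0.74528 hk1 hk2 (by norm_num)
    (ex_up 0.252 (by norm_num) (by norm_num) (by norm_num) (by norm_num)) (ex_up 0.294 (by norm_num) (by norm_num) (by norm_num) (by norm_num))
    (ex_um 0.252 (by norm_num) (by norm_num) (by norm_num) (by norm_num)) (ex_um 0.294 (by norm_num) (by norm_num) (by norm_num) (by norm_num))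
    (by norm_num) (by norm_num), ?_⟩
  exact v5_M 1.28659 (ex_lp 0.252 (by linarith) (by norm_num) (by norm_num)) (by norm_num) (by norm_num)

private theorem B5Bo_C6 {β r t κ : ℝ} (hβ : 0 < β) (hr : 10 ≤ r) (hκ : κ = β * r) (hk1 : 0.36 ≤ κ) (hk2 : κ ≤ 0.42) (hta : (-2.4505) ≤ t + κ)
    (htb : t + κ ≤ (-2.2622)) : ‖F (cexp (I * β)) (r * cexp (I * ((t + β / 2 : ℝ) : ℂ)))‖ ≤
      1.9647 * Real.exp (r * (1.23566 - (-0.7) * (t + κ))) + 2.1773 * Real.exp (r * 0.0501) :=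
  v5_HU (-0.7) 0.36 0.42 (-2.4505) (-2.2622) 1.23566 1.9647 1.65531 0.0818 1.2754 1.8414 0 0.0501 0.00000189 2.1773 hβ hr hκ (by norm_num) hk1 hk2 hta htb (by norm_num) (by norm_num) (B5Bo_G5 hk1 hk2).1 (B5Bo_G5 hk1 hk2).2 (by norm_num) (by norm_num) (by norm_num)
    (by norm_num) (by norm_num) (by norm_num) (by norm_num) (by norm_num) (by norm_num) (by norm_num)
    (by norm_num) (by norm_num) (by norm_num) (v5_hump 7.2525 23.809 4.8795 0.0000009316 0.00000189 hβ hr hκ hk1 hk2 (by norm_num) htb (by norm_num) (by norm_num) (by norm_num) (by norm_num) (by norm_num) (by norm_num) (by norm_num) (ex_un 13 0.9 (by norm_num) (by norm_num) (by norm_num) (by norm_num)) (by norm_num)) (by norm_num)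

private theorem B5Bo_C7 {β r t κ : ℝ} (hβ : 0 < β) (hr : 10 ≤ r) (hκ : κ = β * r) (hk1 : 0.36 ≤ κ) (hk2 : κ ≤ 0.42) (hta : 2.576 ≤ t + κ)
    (htb : t + κ ≤ 2.7643) : ‖F (cexp (I * β)) (r * cexp (I * ((t + β / 2 : ℝ) : ℂ)))‖ ≤
      3.1618 * Real.exp (r * (0.01 + 1 / 20)) :=
  v5_UD 0.36 0.42 2.576 2.7643 0.01 0.665 0.01 1.6484 3.1618 hβ hr hκ (by norm_num) hk1 hk2 hta htb (by norm_num) (by norm_num) (by norm_num) (by norm_num) (by norm_num) (by norm_num) (by norm_num) (by norm_num) (by norm_num) (by norm_num) (by norm_num)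

private theorem B5Bo_Y8 {β r t κ h t' : ℝ} (hβ : 0 < β) (hκ : κ = β * r) (hN : β * 23.809 ≤ 1) (hk1 : 0.36 ≤ κ) (hk2 : κ ≤ 0.42)
    (ht : t' = t + (((1 : ℤ) : ℝ) - 1) * h) (hD : DomR κ t') (hta : 0.0628 ≤ t' + κ) (htb : t' + κ ≤ 0.251) :
    0.9063 * Real.exp (r * sE κ t') ≤ ‖Xf β r h t 1‖ := by
  obtain ⟨⟨ya, yb⟩, ⟨xa, xb⟩, n1, Da, Db⟩ := B5Bo_B1 hD hk1 hk2 hta htb
  have J := B5Bo_T2 (x := sx κ t') (y := sy κ t') hβ hN (by linarith only [xa, xb, ya, yb]) (by linarith only [xa, xb, ya, yb]) (by linarith only [xa, xb, ya, yb]) (by linarith only [xa, xb, ya, yb])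
  exact v5_Jlo hβ hκ (k := 1) ht hD 0.03 1.3121 0.9063 (by norm_num) J Db (by norm_num)

private theorem B5Bo_V9 {κ t : ℝ} (hD : DomR κ t) (hk1 : 0.36 ≤ κ) (hk2 : κ ≤ 0.42) (hta : 0.0628 ≤ t + κ) (htb : t + κ ≤ 0.251) :
    1.00653 - 0.1316 * (t + κ) ≤ sE κ t := by
  have hκ0 : 0 < κ := hD.1
  exact v5_V1 hD 0.36 0.42 0.0628 0.251 0.09945 0.17498 0.17222 1.00653 0.1316 (by norm_num) hk1 hk2 (by norm_num) (by norm_num) hta htb (by norm_num) (clo5 0.36 0.42 0.17222 (by norm_num) hk1 hk2 (by norm_num) (by norm_num) (by norm_num))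
      ((cup1 0.42 hκ0.le hk2 (by norm_num)).trans (by norm_num)) (by norm_num) (by norm_num) (by norm_num) (by norm_num) (by norm_num) (by norm_num)

private theorem B5Bo_K10 {β r t κ h : ℝ} (hβ : 0 < β) (hr : 10 ≤ r) (hκ : κ = β * r) (hk1 : 0.36 ≤ κ) (hk2 : κ ≤ 0.42)
    (hh : h = 2 * Real.pi / 5) (hh1 : 1.25663 ≤ h) (hh2 : h ≤ 1.25664) (hta : 0.0628 ≤ t + κ) (htb : t + κ ≤ 0.251)
    (hY : 0.9063 * Real.exp (r * sE κ t) ≤ ‖Xf β r h t 1‖) (hV : 1.00653 - 0.1316 * (t + κ) ≤ sE κ t) :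
    ‖Xf β r h t 2‖ ≤ 0.0201 * ‖Xf β r h t 1‖ := by
  rw [v5_X 2 1 (by push_cast; ring)]
  exact v5_cmp 0.5087 0.006178 0.02 0.9734 0.00005965 0.00000757 0.0201 hr (B5Bo_C4 (t := t + 1 * h) hβ hr hκ hk1 hk2 (by linarith only [hta, htb, hh1, hh2]) (by linarith only [hta, htb, hh1, hh2])) hY (by norm_num) (by norm_num) (by norm_num) (by norm_num) (by linarith only [hV, hta, htb, hh1, hh2]) (ex_un 5 0.0869 (by norm_num) (by norm_num) (by norm_num) (by norm_num)) (by norm_num) (by norm_num) (by linarith only [hV, hta, htb, hh1, hh2]) (ex_un 9 0.7339 (by norm_num) (by norm_num) (by norm_num) (by norm_num)) (by norm_num) (by norm_num)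

private theorem B5Bo_K11 {β r t κ h : ℝ} (hβ : 0 < β) (hr : 10 ≤ r) (hκ : κ = β * r) (hk1 : 0.36 ≤ κ) (hk2 : κ ≤ 0.42)
    (hh : h = 2 * Real.pi / 5) (hh1 : 1.25663 ≤ h) (hh2 : h ≤ 1.25664) (hta : 0.0628 ≤ t + κ) (htb : t + κ ≤ 0.251)
    (hY : 0.9063 * Real.exp (r * sE κ t) ≤ ‖Xf β r h t 1‖) (hV : 1.00653 - 0.1316 * (t + κ) ≤ sE κ t) :
    ‖Xf β r h t (-1)‖ ≤ 0.000239 * ‖Xf β r h t 1‖ := by
  rw [v5_X (-1) (-2) (by push_cast; ring)]
  exact v5_cmp 1.3214 0.000001826 0.00000396 0.9233 0.00009778 0.000235 0.000239 hr (B5Bo_C6 (t := t + (-2) * h) hβ hr hκ hk1 hk2 (by linarith only [hta, htb, hh1, hh2]) (by linarith only [hta, htb, hh1, hh2])) hY (by norm_num) (by norm_num) (by norm_num) (by norm_num) (by linarith only [hV, hta, htb, hh1, hh2]) (ex_un 13 0.2139 (by norm_num) (by norm_num) (by norm_num) (by norm_num)) (by norm_num) (by norm_num) (by linarith only [hV, hta, htb, hh1, hh2]) (ex_un 9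 0.2329 (by norm_num) (by norm_num) (by norm_num) (by norm_num)) (by norm_num) (by norm_num)

private theorem B5Bo_K12 {β r t κ h : ℝ} (hβ : 0 < β) (hr : 10 ≤ r) (hκ : κ = β * r) (hk1 : 0.36 ≤ κ) (hk2 : κ ≤ 0.42)
    (hh : h = 2 * Real.pi / 5) (hh1 : 1.25663 ≤ h) (hh2 : h ≤ 1.25664) (hta : 0.0628 ≤ t + κ) (htb : t + κ ≤ 0.251)
    (hY : 0.9063 * Real.exp (r * sE κ t) ≤ ‖Xf β r h t 1‖) (hV : 1.00653 - 0.1316 * (t + κ) ≤ sE κ t) :
    ‖Xf β r h t (-2)‖ ≤ 0.000377 * ‖Xf β r h t 1‖ := by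
  rw [v5_Xm2 hh]
  exact v5_cmp0 0.9134 0.000108 0.000377 hr (B5Bo_C7 (t := t + 2 * h) hβ hr hκ hk1 hk2 (by linarith only [hta, htb, hh1, hh2]) (by linarith only [hta, htb, hh1, hh2])) hY (by norm_num) (by norm_num) (by norm_num) (by linarith only [hV, hta, htb, hh1, hh2]) (ex_un 9 0.1339 (by norm_num) (by norm_num) (by norm_num) (by norm_num)) (by norm_num)

private theorem B5Bo_G13 {κ : ℝ} (hk1 : 0.36 ≤ κ) (hk2 : κ ≤ 0.42) : gG κ (-0.71) ≤ 1.24184 ∧ 1.66727 ≤ Real.exp (-(κ * (-0.71))) ^ 2 := by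
  refine ⟨gG_le (-0.71) 0.36 0.42 1.24184 1.29124 1.34744 0.77446 0.74216 hk1 hk2 (by norm_num)
    (ex_up 0.2556 (by norm_num) (by norm_num) (by norm_num) (by norm_num)) (ex_up 0.2982 (by norm_num) (by norm_num) (by norm_num) (by norm_num))
    (ex_um 0.2556 (by norm_num) (by norm_num) (by norm_num) (by norm_num)) (ex_um 0.2982 (by norm_num) (by norm_num) (by norm_num) (by norm_num))
    (by norm_num) (by norm_num), ?_⟩
  exact v5_M 1.29123 (ex_lp 0.2556 (by linarith) (by norm_num) (by norm_num)) (by norm_num) (by norm_num)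

private theorem B5Bo_C14 {β r t κ : ℝ} (hβ : 0 < β) (hr : 10 ≤ r) (hκ : κ = β * r) (hk1 : 0.36 ≤ κ) (hk2 : κ ≤ 0.42) (hta : (-1.1939) ≤ t + κ)
    (htb : t + κ ≤ (-1.0056)) : ‖F (cexp (I * β)) (r * cexp (I * ((t + β / 2 : ℝ) : ℂ)))‖ ≤
      1.9656 * Real.exp (r * (1.24184 - (-0.71) * (t + κ))) + 2.1647 * Real.exp (r * 0.1958) :=
  v5_HU (-0.71) 0.36 0.42 (-1.1939) (-1.0056) 1.24184 1.9656 1.66727 0.0818 1.2754 3.098 0.2053 0.1958 0.00000189 2.1647 hβ hr hκ (by norm_num) hk1 hk2 hta htb (by norm_num) (by norm_num) (B5Bo_G13 hk1 hk2).1 (B5Bo_G13 hk1 hk2).2 (by norm_num) (by norm_num) (by norm_num)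
    (by norm_num) (by norm_num) (by norm_num) (by norm_num) (by norm_num) (by norm_num) (by norm_num)
    (by norm_num) (by norm_num) (by norm_num) (v5_hump 5.9959 23.809 4.8795 0.0000009316 0.00000189 hβ hr hκ hk1 hk2 (by norm_num) htb (by norm_num) (by norm_num) (by norm_num) (by norm_num) (by norm_num) (by norm_num) (by norm_num) (ex_un 13 0.9 (by norm_num) (by norm_num) (by norm_num) (by norm_num)) (by norm_num)) (by norm_num)

private theorem B5Bo_K15 {β r t κ h : ℝ} (hβ : 0 < β) (hr : 10 ≤ r) (hκ : κ = β * r) (hk1 : 0.36 ≤ κ) (hk2 : κ ≤ 0.42)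
    (hh : h = 2 * Real.pi / 5) (hh1 : 1.25663 ≤ h) (hh2 : h ≤ 1.25664) (hta : 0.0628 ≤ t + κ) (htb : t + κ ≤ 0.251)
    (hY : 0.9063 * Real.exp (r * sE κ t) ≤ ‖Xf β r h t 1‖) (hV : 1.00653 - 0.1316 * (t + κ) ≤ sE κ t) :
    ‖Xf β r h t 0‖ ≤ 0.0264 * ‖Xf β r h t 1‖ := by
  rw [v5_X 0 (-1) (by push_cast; ring)]
  exact v5_cmp 0.4456 0.01163 0.0253 0.7776 0.0004232 0.00102 0.0264 hr (B5Bo_C14 (t := t + (-1) * h) hβ hr hκ hk1 hk2 (by linarith only [hta, htb, hh1, hh2]) (by linarith only [hta, htb, hh1, hh2])) hY (by norm_num) (by norm_num) (by norm_num) (by norm_num) (by linarith only [hV, hta, htb, hh1, hh2]) (ex_un 4 0.4559 (by norm_num) (by norm_num) (by norm_num) (by norm_num)) (by norm_num) (by norm_num) (by linarith only [hV, hta, htb, hh1, hh2]) (ex_un 7 0.7759 (by norm_num) (by norm_num) (by norm_num) (by norm_num)) (by norm_num) (by norm_num)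

private theorem B5Bo_O16 {β r t κ h : ℝ} (hβ : 0 < β) (hr : 10 ≤ r) (hκ : κ = β * r) (hk1 : 0.36 ≤ κ) (hk2 : κ ≤ 0.42)
    (hh : h = 2 * Real.pi / 5) (hta : 0.0628 ≤ t + κ) (htb : t + κ ≤ 0.251) :
    ‖Xf β r h t (-2)‖ + ‖Xf β r h t (-1)‖ + ‖Xf β r h t 2‖ < |‖Xf β r h t 1‖ - ‖Xf β r h t 0‖| := by
  obtain ⟨hh1, hh2⟩ := v5_h hh
  have hκ0 : 0 < κ := by linarith only [hk1]
  have hN : β * 23.809 ≤ 1 := v5_hN 0.42 23.809 hβ hr hκ hk2 (by norm_num) (by norm_num)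
  have hD1 : DomR κ t := v5_dom hκ0 (by linarith only [hta, htb, hk1, hk2, hh1, hh2]) (Or.inr (by linarith only [hta, htb, hk1, hk2, hh1, hh2]))
  have e1 : t = t + (((1 : ℤ) : ℝ) - 1) * h := by push_cast; ring
  have hY := B5Bo_Y8 (h := h) hβ hκ hN hk1 hk2 e1 hD1 hta htb
  have hV := B5Bo_V9 hD1 hk1 hk2 hta htb
  have cp2 := B5Bo_K10 hβ hr hκ hk1 hk2 hh hh1 hh2 hta htb hY hV
  have cm1 := B5Bo_K11 hβ hr hκ hk1 hk2 hh hh1 hh2 hta htb hY hV
  have cm2 := B5Bo_K12 hβ hr hκ hk1 hk2 hh hh1 hh2 hta htb hY hV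
  have cn0 := B5Bo_K15 hβ hr hκ hk1 hk2 hh hh1 hh2 hta htb hY hV
  have hp : 0 < ‖Xf β r h t 1‖ := lt_of_lt_of_le (by positivity) hY
  exact v5_out1 _ _ _ _ cm2 cm1 cp2 cn0 hp (by norm_num)

private theorem B5Bo_B17 {κ t : ℝ} (h : DomR κ t) (hk1 : 0.36 ≤ κ) (hk2 : κ ≤ 0.42) (ht1 : 0.251 ≤ t + κ) (ht2 : t + κ ≤ 0.415) :
    (0.072 ≤ sy κ t ∧ sy κ t ≤ 0.126) ∧ (0.2912 ≤ sx κ t ∧ sx κ t ≤ 0.3842) ∧ κ * Real.exp (-sy κ t) ≤ 0.3909 ∧ 1.2562 ≤ sD κ t ∧ sD κ t ≤ 1.3892 := by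
  have hy1 : 0.072 ≤ sy κ t := syR_ge h 0.36 0.42 0.251 0.072 1.07465 1.07466 0.18422 0.21494 hk1 hk2 (by linarith) (by norm_num) (by norm_num)
    (expn_ge (by norm_num) (by norm_num)) (expn_le (by norm_num) (by norm_num) (by norm_num)) (by norm_num)
    (by norm_num) (by norm_num) (by norm_num) (by norm_num) (by norm_num) (by norm_num)
  have hy2 : sy κ t ≤ 0.126 := syR_le h 0.36 0.42 0.415 0.126 1.13428 0.326 0.34028 0.39701 hk1 hk2 (by linarith) (by norm_num) (by norm_num)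
    (expn_ge (by norm_num) (by norm_num)) (by norm_num) (by norm_num) (Or.inr ((mul_le_mul_of_nonneg_left (expn_le (E := 1.13429) (by norm_num) (by norm_num) (by norm_num)) (by norm_num)).trans (by norm_num))) (by norm_num) (by norm_num) (by norm_num)
  have hy1' : 0.072 ≤ sy κ t := by linarith
  have hy2' : sy κ t ≤ 0.126 := by linarith
  have hx1 : 0.2912 ≤ sx κ t := sx_lo h 0.36 0.126 0.1261 0.88161 0.2912 hk1 (by norm_num) hy2' (abs_le.2 ⟨by linarith, by linarith⟩) (ex_lm 0.126 (by norm_num) (by norm_num) (by norm_num) (by norm_num) (by norm_num)) (by norm_num) (by norm_num)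
  have hx2 : sx κ t ≤ 0.3842 := sx_hi h 0.42 0.072 0.072 0.93054 0.3842 hk2 hy1' (by norm_num) (le_trans (by linarith) (le_abs_self _)) (ex_um 0.072 (by norm_num) (by norm_num) (by norm_num) (by norm_num)) (by norm_num) (by norm_num)
  refine ⟨⟨hy1', hy2'⟩, ⟨hx1, hx2⟩, v5_n h 0.42 0.072 0.93054 0.3909 hk2 hy1' (ex_um 0.072 (by norm_num) (by norm_num) (by norm_num) (by norm_num)) (by norm_num), ?_, ?_⟩
  · exact v5_Dlo h 0.36 0.072 0.126 0.072 0.93053 1.2562 (by norm_num) hk1 hy1' hy2' (ex_lm 0.072 (by norm_num) (by norm_num) (by norm_num) (by norm_num) (by norm_num)) (by norm_num) (by norm_num) (by norm_num) (by norm_num)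
  · exact v5_Dup h 0.42 0.072 0.126 0.93054 0.88162 1.3892 hk2 hy1' hy2' (ex_um 0.072 (by norm_num) (by norm_num) (by norm_num) (by norm_num)) (ex_um 0.126 (by norm_num) (by norm_num) (by norm_num) (by norm_num)) (by norm_num) (by norm_num) (by norm_num)

private theorem B5Bo_T18_0_0 {β x y : ℝ} (hβ : 0 < β) (hN : β * 23.809 ≤ 1) (hx1 : 0.2911 ≤ x) (hx2 : x ≤ 0.3843)
    (hy1 : -0 ≤ y) (hy2 : y ≤ 0.1261) : ‖HH β (x + y * I) - 1‖ ≤ 0.03 := by
  refine le_epsJ (C := 0.1998) (N0 := 23.809) (J_boxp 0.2911 0.3843 0 0.1261 0.1261 0.915 0.4045 1.1899 1.2464 0.4352 4.8795 23.809 0.4421 1.748 1.216 1.2723 0.4574 0.39 1.1079 3.8764 0.4835 0.8901 1.612 3.6005 0.00001869 0.00009281 0.0000003101 0.0000003101 0.00001003 0.0000003101 0.0000003101 0.0000003101 0.1998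
    hβ hN hx1 hx2 hy1 hy2 (by norm_num) (by norm_num) (by linarith) (by norm_num) (by norm_num) (by norm_num) (by norm_num) (by norm_num) (by norm_num) (by norm_num) (by norm_num) (by norm_num) (by norm_num) (by norm_num) (by norm_num) (by norm_num) (by norm_num) (by norm_num) (by norm_num) (by norm_num) (by norm_num) (by norm_num) (by norm_num) (by norm_num)
    (cube_sqrt_geJ (s := 0.9233) (by norm_num) (by norm_num) (by norm_num) (by norm_num))
    (cube_sqrt_geJ (s := 0.9725) (by norm_num) (by norm_num) (by norm_num) (by norm_num))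
    (by norm_num) (by norm_num) (by norm_num) (by norm_num) (by norm_num) (by norm_num) (by norm_num) (by norm_num) (by norm_num) (by norm_num) (by norm_num) (by norm_num) (by norm_num) (by norm_num) (by norm_num) (by norm_num) (by norm_num) (by norm_num)
    (exp_neg_leJ (r := 0.89) 10 (by norm_num) (by norm_num) (by norm_num) (by norm_num))
    (exp_neg_leJ (r := 0.285) 9 (by norm_num) (by norm_num) (by norm_num) (by norm_num))
    (exp_neg_leJ (r := 0.99) 14 (by norm_num) (by norm_num) (by norm_num) (by norm_num))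
    (exp_neg_leJ (r := 0.99) 14 (by norm_num) (by norm_num) (by norm_num) (by norm_num))
    (exp_neg_leJ (r := 0.511) 11 (by norm_num) (by norm_num) (by norm_num) (by norm_num))
    (exp_neg_leJ (r := 0.99) 14 (by norm_num) (by norm_num) (by norm_num) (by norm_num))
    (exp_neg_leJ (r := 0.99) 14 (by norm_num) (by norm_num) (by norm_num) (by norm_num))
    (exp_neg_leJ (r := 0.99) 14 (by norm_num) (by norm_num) (by norm_num) (by norm_num))
    (by norm_num)) (by norm_num) hN hβ.le (by norm_num)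

private theorem B5Bo_T18 {β x y : ℝ} (hβ : 0 < β) (hN : β * 23.809 ≤ 1) (hx1 : 0.2911 ≤ x) (hx2 : x ≤ 0.3843)
    (hy1 : 0.0719 ≤ y) (hy2 : y ≤ 0.1261) : ‖HH β (x + y * I) - 1‖ ≤ 0.03 := by
  exact B5Bo_T18_0_0 hβ hN (by linarith) (by linarith) (by linarith) (by linarith)

private theorem B5Bo_G19 {κ : ℝ} (hk1 : 0.36 ≤ κ) (hk2 : κ ≤ 0.42) : gG κ 0.63 ≤ 1.31499 ∧ 0.58907 ≤ Real.exp (-(κ * 0.63)) ^ 2 := by
  refine ⟨gG_le 0.63 0.36 0.42 1.31499 0.79709 0.76752 1.25458 1.30291 hk1 hk2 (by norm_num)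
    (ex_um 0.2268 (by norm_num) (by norm_num) (by norm_num) (by norm_num)) (ex_um 0.2646 (by norm_num) (by norm_num) (by norm_num) (by norm_num))
    (ex_up 0.2268 (by norm_num) (by norm_num) (by norm_num) (by norm_num)) (ex_up 0.2646 (by norm_num) (by norm_num) (by norm_num) (by norm_num))
    (by norm_num) (by norm_num), ?_⟩
  exact v5_M 0.76751 (ex_lm 0.2646 (by linarith) (by norm_num) (by norm_num) (by norm_num) (by norm_num)) (by norm_num) (by norm_num)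

private theorem B5Bo_C20 {β r t κ : ℝ} (hβ : 0 < β) (hr : 10 ≤ r) (hκ : κ = β * r) (hk1 : 0.36 ≤ κ) (hk2 : κ ≤ 0.42) (hta : 1.5076 ≤ t + κ)
    (htb : t + κ ≤ 1.6717) : ‖F (cexp (I * β)) (r * cexp (I * ((t + β / 2 : ℝ) : ℂ)))‖ ≤
      3.2557 * Real.exp (r * (1.31499 - 0.63 * (t + κ))) + 0.1126 * Real.exp (r * 0) :=
  v5_H 0.63 0.36 0.42 1.5076 1.6717 1.31499 3.083 0.58907 0.0818 2.6582 0.2589 0.06078 0.5466 0.00000189 3.2557 0.1126 hβ hr hκ (by norm_num) hk1 hk2 hta htb (by norm_num) (B5Bo_G19 hk1 hk2).1 (B5Bo_G19 hk1 hk2).2 (by norm_num) (by norm_num) (by norm_num)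
    (by norm_num) (by norm_num) (by norm_num) (by norm_num) (by norm_num) (by norm_num) (by norm_num) (by norm_num) (ex_un 0 0.6077 (by norm_num) (by norm_num) (by norm_num) (by norm_num))
    (v5_hump 3.3186 23.809 4.8795 0.0000009316 0.00000189 hβ hr hκ hk1 hk2 (by norm_num) htb (by norm_num) (by norm_num) (by norm_num) (by norm_num) (by norm_num) (by norm_num) (by norm_num) (ex_un 13 0.9 (by norm_num) (by norm_num) (by norm_num) (by norm_num)) (by norm_num)) (by norm_num) (by norm_num)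

private theorem B5Bo_C21 {β r t κ : ℝ} (hβ : 0 < β) (hr : 10 ≤ r) (hκ : κ = β * r) (hk1 : 0.36 ≤ κ) (hk2 : κ ≤ 0.42) (hta : (-2.2623) ≤ t + κ)
    (htb : t + κ ≤ (-2.0982)) : ‖F (cexp (I * β)) (r * cexp (I * ((t + β / 2 : ℝ) : ℂ)))‖ ≤
      1.9656 * Real.exp (r * (1.24184 - (-0.71) * (t + κ))) + 2.1786 * Real.exp (r * 0.0501) :=
  v5_HU (-0.71) 0.36 0.42 (-2.2623) (-2.0982) 1.24184 1.9656 1.66727 0.0818 1.2754 2.0296 0 0.0501 0.00000189 2.1786 hβ hr hκ (by norm_num) hk1 hk2 hta htb (by norm_num) (by norm_num) (B5Bo_G13 hk1 hk2).1 (B5Bo_G13 hk1 hk2).2 (by norm_num) (by norm_num) (by norm_num)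
    (by norm_num) (by norm_num) (by norm_num) (by norm_num) (by norm_num) (by norm_num) (by norm_num)
    (by norm_num) (by norm_num) (by norm_num) (v5_hump 7.0885 23.809 4.8795 0.0000009316 0.00000189 hβ hr hκ hk1 hk2 (by norm_num) htb (by norm_num) (by norm_num) (by norm_num) (by norm_num) (by norm_num) (by norm_num) (by norm_num) (ex_un 13 0.9 (by norm_num) (by norm_num) (by norm_num) (by norm_num)) (by norm_num)) (by norm_num)

private theorem B5Bo_C22 {β r t κ : ℝ} (hβ : 0 < β) (hr : 10 ≤ r) (hκ : κ = β * r) (hk1 : 0.36 ≤ κ) (hk2 : κ ≤ 0.42) (hta : 2.7642 ≤ t + κ)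
    (htb : t + κ ≤ 2.9283) : ‖F (cexp (I * β)) (r * cexp (I * ((t + β / 2 : ℝ) : ℂ)))‖ ≤
      3.1402 * Real.exp (r * (0.01 + 1 / 20)) :=
  v5_UD 0.36 0.42 2.7642 2.9283 0.01 0.665 0.01 1.6371 3.1402 hβ hr hκ (by norm_num) hk1 hk2 hta htb (by norm_num) (by norm_num) (by norm_num) (by norm_num) (by norm_num) (by norm_num) (by norm_num) (by norm_num) (by norm_num) (by norm_num) (by norm_num)

private theorem B5Bo_Y23 {β r t κ h t' : ℝ} (hβ : 0 < β) (hκ : κ = β * r) (hN : β * 23.809 ≤ 1) (hk1 : 0.36 ≤ κ) (hk2 : κ ≤ 0.42)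
    (ht : t' = t + (((1 : ℤ) : ℝ) - 1) * h) (hD : DomR κ t') (hta : 0.251 ≤ t' + κ) (htb : t' + κ ≤ 0.415) :
    0.8934 * Real.exp (r * sE κ t') ≤ ‖Xf β r h t 1‖ := by
  obtain ⟨⟨ya, yb⟩, ⟨xa, xb⟩, n1, Da, Db⟩ := B5Bo_B17 hD hk1 hk2 hta htb
  have J := B5Bo_T18 (x := sx κ t') (y := sy κ t') hβ hN (by linarith only [xa, xb, ya, yb]) (by linarith only [xa, xb, ya, yb]) (by linarith only [xa, xb, ya, yb]) (by linarith only [xa, xb, ya, yb])
  exact v5_Jlo hβ hκ (k := 1) ht hD 0.03 1.3892 0.8934 (by norm_num) J Db (by norm_num)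

private theorem B5Bo_V24 {κ t : ℝ} (hD : DomR κ t) (hk1 : 0.36 ≤ κ) (hk2 : κ ≤ 0.42) (hta : 0.251 ≤ t + κ) (htb : t + κ ≤ 0.415) :
    1.04099 - 0.2698 * (t + κ) ≤ sE κ t := by
  have hκ0 : 0 < κ := hD.1
  exact v5_V1 hD 0.36 0.42 0.251 0.415 0.08312 0.17498 0.17222 1.04099 0.2698 (by norm_num) hk1 hk2 (by norm_num) (by norm_num) hta htb (by norm_num) (clo5 0.36 0.42 0.17222 (by norm_num) hk1 hk2 (by norm_num) (by norm_num) (by norm_num))
      ((cup1 0.42 hκ0.le hk2 (by norm_num)).trans (by norm_num)) (by norm_num) (by norm_num) (by norm_num) (by norm_num) (by norm_num) (by norm_num)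

private theorem B5Bo_K25 {β r t κ h : ℝ} (hβ : 0 < β) (hr : 10 ≤ r) (hκ : κ = β * r) (hk1 : 0.36 ≤ κ) (hk2 : κ ≤ 0.42)
    (hh : h = 2 * Real.pi / 5) (hh1 : 1.25663 ≤ h) (hh2 : h ≤ 1.25664) (hta : 0.251 ≤ t + κ) (htb : t + κ ≤ 0.415)
    (hY : 0.8934 * Real.exp (r * sE κ t) ≤ ‖Xf β r h t 1‖) (hV : 1.04099 - 0.2698 * (t + κ) ≤ sE κ t) :
    ‖Xf β r h t 2‖ ≤ 0.00837 * ‖Xf β r h t 1‖ := by
  rw [v5_X 2 1 (by push_cast; ring)]
  exact v5_cmp 0.608 0.002289 0.00835 0.929 0.00009238 0.0000117 0.00837 hr (B5Bo_C20 (t := t + 1 * h) hβ hr hκ hk1 hk2 (by linarith only [hta, htb, hh1, hh2]) (by linarith only [hta, htb, hh1, hh2])) hY (by norm_num) (by norm_num) (by norm_num) (by norm_num) (by linarith only [hV, hta, htb, hh1, hh2]) (ex_un 6 0.0799 (by norm_num) (by norm_num) (by norm_num) (by norm_num)) (by norm_num) (by norm_num) (by linarith only [hV, hta, htb, hh1, hh2]) (ex_un 9 0.2899 (by norm_num)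 (by norm_num) (by norm_num) (by norm_num)) (by norm_num) (by norm_num)

private theorem B5Bo_K26 {β r t κ h : ℝ} (hβ : 0 < β) (hr : 10 ≤ r) (hκ : κ = β * r) (hk1 : 0.36 ≤ κ) (hk2 : κ ≤ 0.42)
    (hh : h = 2 * Real.pi / 5) (hh1 : 1.25663 ≤ h) (hh2 : h ≤ 1.25664) (hta : 0.251 ≤ t + κ) (htb : t + κ ≤ 0.415)
    (hY : 0.8934 * Real.exp (r * sE κ t) ≤ ‖Xf β r h t 1‖) (hV : 1.04099 - 0.2698 * (t + κ) ≤ sE κ t) :
    ‖Xf β r h t (-1)‖ ≤ 0.000394 * ‖Xf β r h t 1‖ := by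
  rw [v5_X (-1) (-2) (by push_cast; ring)]
  exact v5_cmp 1.1769 0.000007804 0.0000172 0.8789 0.0001538 0.000376 0.000394 hr (B5Bo_C21 (t := t + (-2) * h) hβ hr hκ hk1 hk2 (by linarith only [hta, htb, hh1, hh2]) (by linarith only [hta, htb, hh1, hh2])) hY (by norm_num) (by norm_num) (by norm_num) (by norm_num) (by linarith only [hV, hta, htb, hh1, hh2]) (ex_un 11 0.7689 (by norm_num) (by norm_num) (by norm_num) (by norm_num)) (by norm_num) (by norm_num) (by linarith only [hV, hta, htb, hh1, hh2]) (ex_un 8 0.7889 (by norm_num) (by norm_num) (by norm_num) (by norm_num)) (by norm_num) (by norm_num)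

private theorem B5Bo_K27 {β r t κ h : ℝ} (hβ : 0 < β) (hr : 10 ≤ r) (hκ : κ = β * r) (hk1 : 0.36 ≤ κ) (hk2 : κ ≤ 0.42)
    (hh : h = 2 * Real.pi / 5) (hh1 : 1.25663 ≤ h) (hh2 : h ≤ 1.25664) (hta : 0.251 ≤ t + κ) (htb : t + κ ≤ 0.415)
    (hY : 0.8934 * Real.exp (r * sE κ t) ≤ ‖Xf β r h t 1‖) (hV : 1.04099 - 0.2698 * (t + κ) ≤ sE κ t) :
    ‖Xf β r h t (-2)‖ ≤ 0.000596 * ‖Xf β r h t 1‖ := by
  rw [v5_Xm2 hh]
  exact v5_cmp0 0.869 0.0001693 0.000596 hr (B5Bo_C22 (t := t + 2 * h) hβ hr hκ hk1 hk2 (by linarith only [hta, htb, hh1, hh2]) (by linarith only [hta, htb, hh1, hh2])) hY (by norm_num) (by norm_num) (by norm_num) (by linarith only [hV, hta, htb, hh1, hh2]) (ex_un 8 0.6899 (by norm_num) (by norm_num) (by norm_num) (by norm_num)) (by norm_num)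

private theorem B5Bo_C28 {β r t κ : ℝ} (hβ : 0 < β) (hr : 10 ≤ r) (hκ : κ = β * r) (hk1 : 0.36 ≤ κ) (hk2 : κ ≤ 0.42) (hta : (-1.0057) ≤ t + κ)
    (htb : t + κ ≤ (-0.8416)) : ‖F (cexp (I * β)) (r * cexp (I * ((t + β / 2 : ℝ) : ℂ)))‖ ≤
      1.9656 * Real.exp (r * (1.24184 - (-0.71) * (t + κ))) + 2.1631 * Real.exp (r * 0.3123) :=
  v5_HU (-0.71) 0.36 0.42 (-1.0057) (-0.8416) 1.24184 1.9656 1.66727 0.0818 1.2754 3.2862 0.3693 0.3123 0.00000189 2.1631 hβ hr hκ (by norm_num) hk1 hk2 hta htb (by norm_num) (by norm_num) (B5Bo_G13 hk1 hk2).1 (B5Bo_G13 hk1 hk2).2 (by norm_num) (by norm_num) (by norm_num)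
    (by norm_num) (by norm_num) (by norm_num) (by norm_num) (by norm_num) (by norm_num) (by norm_num)
    (by norm_num) (by norm_num) (by norm_num) (v5_hump 5.8319 23.809 4.8795 0.0000009316 0.00000189 hβ hr hκ hk1 hk2 (by norm_num) htb (by norm_num) (by norm_num) (by norm_num) (by norm_num) (by norm_num) (by norm_num) (by norm_num) (ex_un 13 0.9 (by norm_num) (by norm_num) (by norm_num) (by norm_num)) (by norm_num)) (by norm_num)

private theorem B5Bo_K29 {β r t κ h : ℝ} (hβ : 0 < β) (hr : 10 ≤ r) (hκ : κ = β * r) (hk1 : 0.36 ≤ κ) (hk2 : κ ≤ 0.42)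
    (hh : h = 2 * Real.pi / 5) (hh1 : 1.25663 ≤ h) (hh2 : h ≤ 1.25664) (hta : 0.251 ≤ t + κ) (htb : t + κ ≤ 0.415)
    (hY : 0.8934 * Real.exp (r * sE κ t) ≤ ‖Xf β r h t 1‖) (hV : 1.04099 - 0.2698 * (t + κ) ≤ sE κ t) :
    ‖Xf β r h t 0‖ ≤ 0.136 * ‖Xf β r h t 1‖ := by
  rw [v5_X 0 (-1) (by push_cast; ring)]
  exact v5_cmp 0.2847 0.05867 0.13 0.6167 0.002098 0.00508 0.136 hr (B5Bo_C28 (t := t + (-1) * h) hβ hr hκ hk1 hk2 (by linarith only [hta, htb, hh1, hh2]) (by linarith only [hta, htb, hh1, hh2])) hY (by norm_num) (by norm_num) (by norm_num) (by norm_num) (by linarith only [hV, hta, htb, hh1, hh2]) (ex_un 2 0.8469 (by norm_num) (by norm_num) (by norm_num) (by norm_num)) (by norm_num) (by norm_num) (by linarith only [hV, hta, htb, hh1, hh2]) (ex_un 6 0.1669 (by norm_num) (by norm_num) (by norm_num) (by norm_num)) (by norm_num) (by norm_num)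

private theorem B5Bo_O30 {β r t κ h : ℝ} (hβ : 0 < β) (hr : 10 ≤ r) (hκ : κ = β * r) (hk1 : 0.36 ≤ κ) (hk2 : κ ≤ 0.42)
    (hh : h = 2 * Real.pi / 5) (hta : 0.251 ≤ t + κ) (htb : t + κ ≤ 0.415) :
    ‖Xf β r h t (-2)‖ + ‖Xf β r h t (-1)‖ + ‖Xf β r h t 2‖ < |‖Xf β r h t 1‖ - ‖Xf β r h t 0‖| := by
  obtain ⟨hh1, hh2⟩ := v5_h hh
  have hκ0 : 0 < κ := by linarith only [hk1]
  have hN : β * 23.809 ≤ 1 := v5_hN 0.42 23.809 hβ hr hκ hk2 (by norm_num) (by norm_num)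
  have hD1 : DomR κ t := v5_dom hκ0 (by linarith only [hta, htb, hk1, hk2, hh1, hh2]) (Or.inr (by linarith only [hta, htb, hk1, hk2, hh1, hh2]))
  have e1 : t = t + (((1 : ℤ) : ℝ) - 1) * h := by push_cast; ring
  have hY := B5Bo_Y23 (h := h) hβ hκ hN hk1 hk2 e1 hD1 hta htb
  have hV := B5Bo_V24 hD1 hk1 hk2 hta htb
  have cp2 := B5Bo_K25 hβ hr hκ hk1 hk2 hh hh1 hh2 hta htb hY hV
  have cm1 := B5Bo_K26 hβ hr hκ hk1 hk2 hh hh1 hh2 hta htb hY hV
  have cm2 := B5Bo_K27 hβ hr hκ hk1 hk2 hh hh1 hh2 hta htb hY hV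
  have cn0 := B5Bo_K29 hβ hr hκ hk1 hk2 hh hh1 hh2 hta htb hY hV
  have hp : 0 < ‖Xf β r h t 1‖ := lt_of_lt_of_le (by positivity) hY
  exact v5_out1 _ _ _ _ cm2 cm1 cp2 cn0 hp (by norm_num)

private theorem B5Bo_B31 {κ t : ℝ} (h : DomR κ t) (hk1 : 0.36 ≤ κ) (hk2 : κ ≤ 0.42) (ht1 : 0.415 ≤ t + κ) (ht2 : t + κ ≤ 0.5655) :
    (0.112 ≤ sy κ t ∧ sy κ t ≤ 0.161) ∧ (0.2607 ≤ sx κ t ∧ sx κ t ≤ 0.3585) ∧ κ * Real.exp (-sy κ t) ≤ 0.3756 ∧ 1.3275 ≤ sD κ t ∧ sD κ t ≤ 1.4499 := by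
  have hy1 : 0.112 ≤ sy κ t := syR_ge h 0.36 0.42 0.415 0.112 1.11851 1.11852 0.29826 0.34799 hk1 hk2 (by linarith) (by norm_num) (by norm_num)
    (expn_ge (by norm_num) (by norm_num)) (expn_le (by norm_num) (by norm_num) (by norm_num)) (by norm_num)
    (by norm_num) (by norm_num) (by norm_num) (by norm_num) (by norm_num) (by norm_num)
  have hy2 : sy κ t ≤ 0.161 := syR_le h 0.36 0.42 0.5655 0.161 1.17468 0.4377 0.45029 0.52535 hk1 hk2 (by linarith) (by norm_num) (by norm_num)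
    (expn_ge (by norm_num) (by norm_num)) (by norm_num) (by norm_num) (Or.inr ((mul_le_mul_of_nonneg_left (expn_le (E := 1.17469) (by norm_num) (by norm_num) (by norm_num)) (by norm_num)).trans (by norm_num))) (by norm_num) (by norm_num) (by norm_num)
  have hy1' : 0.112 ≤ sy κ t := by linarith
  have hy2' : sy κ t ≤ 0.161 := by linarith
  have hx1 : 0.2607 ≤ sx κ t := sx_lo h 0.36 0.161 0.1611 0.85129 0.2607 hk1 (by norm_num) hy2' (abs_le.2 ⟨by linarith, by linarith⟩) (ex_lm 0.161 (by norm_num) (by norm_num) (by norm_num) (by norm_num) (by norm_num)) (by norm_num) (by norm_num)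
  have hx2 : sx κ t ≤ 0.3585 := sx_hi h 0.42 0.112 0.112 0.89405 0.3585 hk2 hy1' (by norm_num) (le_trans (by linarith) (le_abs_self _)) (ex_um 0.112 (by norm_num) (by norm_num) (by norm_num) (by norm_num)) (by norm_num) (by norm_num)
  refine ⟨⟨hy1', hy2'⟩, ⟨hx1, hx2⟩, v5_n h 0.42 0.112 0.89405 0.3756 hk2 hy1' (ex_um 0.112 (by norm_num) (by norm_num) (by norm_num) (by norm_num)) (by norm_num), ?_, ?_⟩
  · exact v5_Dlo h 0.36 0.112 0.161 0.112 0.89404 1.3275 (by norm_num) hk1 hy1' hy2' (ex_lm 0.112 (by norm_num) (by norm_num) (by norm_num) (by norm_num) (by norm_num)) (by norm_num) (by norm_num) (by norm_num) (by norm_num)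
  · exact v5_Dup h 0.42 0.112 0.161 0.89405 0.8513 1.4499 hk2 hy1' hy2' (ex_um 0.112 (by norm_num) (by norm_num) (by norm_num) (by norm_num)) (ex_um 0.161 (by norm_num) (by norm_num) (by norm_num) (by norm_num)) (by norm_num) (by norm_num) (by norm_num)

private theorem B5Bo_T32_0_0 {β x y : ℝ} (hβ : 0 < β) (hN : β * 23.809 ≤ 1) (hx1 : 0.2606 ≤ x) (hx2 : x ≤ 0.3586)
    (hy1 : -0 ≤ y) (hy2 : y ≤ 0.1611) : ‖HH β (x + y * I) - 1‖ ≤ 0.03 := by
  refine le_epsJ (C := 0.2085) (N0 := 23.809) (J_boxp 0.2606 0.3586 0 0.1611 0.1611 0.8935 0.3932 1.2153 1.3053 0.4398 4.8795 23.809 0.4401 1.743 1.215 1.2821 0.4467 0.3812 1.0974 3.8874 0.4651 0.8443 1.4009 3.4053 0.00002408 0.0001145 0.0000003101 0.0000003101 0.00001553 0.0000003101 0.0000003101 0.0000003101 0.2085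
    hβ hN hx1 hx2 hy1 hy2 (by norm_num) (by norm_num) (by linarith) (by norm_num) (by norm_num) (by norm_num) (by norm_num) (by norm_num) (by norm_num) (by norm_num) (by norm_num) (by norm_num) (by norm_num) (by norm_num) (by norm_num) (by norm_num) (by norm_num) (by norm_num) (by norm_num) (by norm_num) (by norm_num) (by norm_num) (by norm_num) (by norm_num)
    (cube_sqrt_geJ (s := 0.9237) (by norm_num) (by norm_num) (by norm_num) (by norm_num))
    (cube_sqrt_geJ (s := 0.9726) (by norm_num) (by norm_num) (by norm_num) (by norm_num))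
    (by norm_num) (by norm_num) (by norm_num) (by norm_num) (by norm_num) (by norm_num) (by norm_num) (by norm_num) (by norm_num) (by norm_num) (by norm_num) (by norm_num) (by norm_num) (by norm_num) (by norm_num) (by norm_num) (by norm_num) (by norm_num)
    (exp_neg_leJ (r := 0.635) 10 (by norm_num) (by norm_num) (by norm_num) (by norm_num))
    (exp_neg_leJ (r := 0.075) 9 (by norm_num) (by norm_num) (by norm_num) (by norm_num))
    (exp_neg_leJ (r := 0.99) 14 (by norm_num) (by norm_num) (by norm_num) (by norm_num))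
    (exp_neg_leJ (r := 0.99) 14 (by norm_num) (by norm_num) (by norm_num) (by norm_num))
    (exp_neg_leJ (r := 0.073) 11 (by norm_num) (by norm_num) (by norm_num) (by norm_num))
    (exp_neg_leJ (r := 0.99) 14 (by norm_num) (by norm_num) (by norm_num) (by norm_num))
    (exp_neg_leJ (r := 0.99) 14 (by norm_num) (by norm_num) (by norm_num) (by norm_num))
    (exp_neg_leJ (r := 0.99) 14 (by norm_num) (by norm_num) (by norm_num) (by norm_num))
    (by norm_num)) (by norm_num) hN hβ.le (by norm_num)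

private theorem B5Bo_T32 {β x y : ℝ} (hβ : 0 < β) (hN : β * 23.809 ≤ 1) (hx1 : 0.2606 ≤ x) (hx2 : x ≤ 0.3586)
    (hy1 : 0.1119 ≤ y) (hy2 : y ≤ 0.1611) : ‖HH β (x + y * I) - 1‖ ≤ 0.03 := by
  exact B5Bo_T32_0_0 hβ hN (by linarith) (by linarith) (by linarith) (by linarith)

private theorem B5Bo_G33 {κ : ℝ} (hk1 : 0.36 ≤ κ) (hk2 : κ ≤ 0.42) : gG κ 0.65 ≤ 1.34084 ∧ 0.57925 ≤ Real.exp (-(κ * 0.65)) ^ 2 := by
  refine ⟨gG_le 0.65 0.36 0.42 1.34084 0.79137 0.7611 1.26365 1.31391 hk1 hk2 (by norm_num)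
    (ex_um 0.234 (by norm_num) (by norm_num) (by norm_num) (by norm_num)) (ex_um 0.273 (by norm_num) (by norm_num) (by norm_num) (by norm_num))
    (ex_up 0.234 (by norm_num) (by norm_num) (by norm_num) (by norm_num)) (ex_up 0.273 (by norm_num) (by norm_num) (by norm_num) (by norm_num))
    (by norm_num) (by norm_num), ?_⟩
  exact v5_M 0.76109 (ex_lm 0.273 (by linarith) (by norm_num) (by norm_num) (by norm_num) (by norm_num)) (by norm_num) (by norm_num)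

private theorem B5Bo_C34 {β r t κ : ℝ} (hβ : 0 < β) (hr : 10 ≤ r) (hκ : κ = β * r) (hk1 : 0.36 ≤ κ) (hk2 : κ ≤ 0.42) (hta : 1.6716 ≤ t + κ)
    (htb : t + κ ≤ 1.8222) : ‖F (cexp (I * β)) (r * cexp (I * ((t + β / 2 : ℝ) : ℂ)))‖ ≤
      3.7174 * Real.exp (r * (1.34084 - 0.65 * (t + κ))) + 0.1108 * Real.exp (r * 0) :=
  v5_H 0.65 0.36 0.42 1.6716 1.8222 1.34084 3.2441 0.57925 0.0818 2.8222 0.1084 0.04681 0.6272 0.00000189 3.7174 0.1108 hβ hr hκ (by norm_num) hk1 hk2 hta htb (by norm_num) (B5Bo_G33 hk1 hk2).1 (B5Bo_G33 hk1 hk2).2 (by norm_num) (by norm_num) (by norm_num)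
    (by norm_num) (by norm_num) (by norm_num) (by norm_num) (by norm_num) (by norm_num) (by norm_num) (by norm_num) (ex_un 0 0.468 (by norm_num) (by norm_num) (by norm_num) (by norm_num))
    (v5_hump 3.1681 23.809 4.8795 0.0000009316 0.00000189 hβ hr hκ hk1 hk2 (by norm_num) htb (by norm_num) (by norm_num) (by norm_num) (by norm_num) (by norm_num) (by norm_num) (by norm_num) (ex_un 13 0.9 (by norm_num) (by norm_num) (by norm_num) (by norm_num)) (by norm_num)) (by norm_num) (by norm_num)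

private theorem B5Bo_C35 {β r t κ : ℝ} (hβ : 0 < β) (hr : 10 ≤ r) (hκ : κ = β * r) (hk1 : 0.36 ≤ κ) (hk2 : κ ≤ 0.42) (hta : (-2.0983) ≤ t + κ)
    (htb : t + κ ≤ (-1.9477)) : ‖F (cexp (I * β)) (r * cexp (I * ((t + β / 2 : ℝ) : ℂ)))‖ ≤
      1.9656 * Real.exp (r * (1.24184 - (-0.71) * (t + κ))) + 2.1755 * Real.exp (r * 0.0501) :=
  v5_HU (-0.71) 0.36 0.42 (-2.0983) (-1.9477) 1.24184 1.9656 1.66727 0.0818 1.2754 2.1936 0 0.0501 0.00000189 2.1755 hβ hr hκ (by norm_num) hk1 hk2 hta htb (by norm_num) (by norm_num) (B5Bo_G13 hk1 hk2).1 (B5Bo_G13 hk1 hk2).2 (by norm_num) (by norm_num) (by norm_num)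
    (by norm_num) (by norm_num) (by norm_num) (by norm_num) (by norm_num) (by norm_num) (by norm_num)
    (by norm_num) (by norm_num) (by norm_num) (v5_hump 6.938 23.809 4.8795 0.0000009316 0.00000189 hβ hr hκ hk1 hk2 (by norm_num) htb (by norm_num) (by norm_num) (by norm_num) (by norm_num) (by norm_num) (by norm_num) (by norm_num) (ex_un 13 0.9 (by norm_num) (by norm_num) (by norm_num) (by norm_num)) (by norm_num)) (by norm_num)

private theorem B5Bo_C36 {β r t κ : ℝ} (hβ : 0 < β) (hr : 10 ≤ r) (hκ : κ = β * r) (hk1 : 0.36 ≤ κ) (hk2 : κ ≤ 0.42) (hta : 2.9282 ≤ t + κ)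
    (htb : t + κ ≤ 3.0788) : ‖F (cexp (I * β)) (r * cexp (I * ((t + β / 2 : ℝ) : ℂ)))‖ ≤
      3.1285 * Real.exp (r * (0.01 + 1 / 20)) :=
  v5_UD 0.36 0.42 2.9282 3.0788 0.01 0.665 0.01 1.631 3.1285 hβ hr hκ (by norm_num) hk1 hk2 hta htb (by norm_num) (by norm_num) (by norm_num) (by norm_num) (by norm_num) (by norm_num) (by norm_num) (by norm_num) (by norm_num) (by norm_num) (by norm_num)

private theorem B5Bo_Y37 {β r t κ h t' : ℝ} (hβ : 0 < β) (hκ : κ = β * r) (hN : β * 23.809 ≤ 1) (hk1 : 0.36 ≤ κ) (hk2 : κ ≤ 0.42)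
    (ht : t' = t + (((1 : ℤ) : ℝ) - 1) * h) (hD : DomR κ t') (hta : 0.415 ≤ t' + κ) (htb : t' + κ ≤ 0.5655) :
    0.8839 * Real.exp (r * sE κ t') ≤ ‖Xf β r h t 1‖ := by
  obtain ⟨⟨ya, yb⟩, ⟨xa, xb⟩, n1, Da, Db⟩ := B5Bo_B31 hD hk1 hk2 hta htb
  have J := B5Bo_T32 (x := sx κ t') (y := sy κ t') hβ hN (by linarith only [xa, xb, ya, yb]) (by linarith only [xa, xb, ya, yb]) (by linarith only [xa, xb, ya, yb]) (by linarith only [xa, xb, ya, yb])
  exact v5_Jlo hβ hκ (k := 1) ht hD 0.03 1.4499 0.8839 (by norm_num) J Db (by norm_num)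

private theorem B5Bo_V38 {κ t : ℝ} (hD : DomR κ t) (hk1 : 0.36 ≤ κ) (hk2 : κ ≤ 0.42) (hta : 0.415 ≤ t + κ) (htb : t + κ ≤ 0.5655) :
    1.09001 - 0.3902 * (t + κ) ≤ sE κ t := by
  have hκ0 : 0 < κ := hD.1
  exact v5_V1 hD 0.36 0.42 0.415 0.5655 0.06814 0.17498 0.17222 1.09001 0.3902 (by norm_num) hk1 hk2 (by norm_num) (by norm_num) hta htb (by norm_num) (clo5 0.36 0.42 0.17222 (by norm_num) hk1 hk2 (by norm_num) (by norm_num) (by norm_num))
      ((cup1 0.42 hκ0.le hk2 (by norm_num)).trans (by norm_num)) (by norm_num) (by norm_num) (by norm_num) (by norm_num) (by norm_num) (by norm_num)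

private theorem B5Bo_K39 {β r t κ h : ℝ} (hβ : 0 < β) (hr : 10 ≤ r) (hκ : κ = β * r) (hk1 : 0.36 ≤ κ) (hk2 : κ ≤ 0.42)
    (hh : h = 2 * Real.pi / 5) (hh1 : 1.25663 ≤ h) (hh2 : h ≤ 1.25664) (hta : 0.415 ≤ t + κ) (htb : t + κ ≤ 0.5655)
    (hY : 0.8839 * Real.exp (r * sE κ t) ≤ ‖Xf β r h t 1‖) (hV : 1.09001 - 0.3902 * (t + κ) ≤ sE κ t) :
    ‖Xf β r h t 2‖ ≤ 0.00506 * ‖Xf β r h t 1‖ := by
  rw [v5_X 2 1 (by push_cast; ring)]
  exact v5_cmp 0.6737 0.001195 0.00503 0.8693 0.0001688 0.0000212 0.00506 hr (B5Bo_C34 (t := t + 1 * h) hβ hr hκ hk1 hk2 (by linarith only [hta, htb, hh1, hh2]) (by linarith only [hta, htb, hh1, hh2])) hY (by norm_num) (by norm_num) (by norm_num) (by norm_num) (by linarith only [hV, hta, htb, hh1, hh2]) (ex_un 6 0.7369 (by norm_num) (by norm_num) (by norm_num) (by norm_num)) (by norm_num) (by norm_num) (by linarith only [hV, hta, htb, hh1, hh2]) (ex_un 8 0.6929 (by norm_num)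 (by norm_num) (by norm_num) (by norm_num)) (by norm_num) (by norm_num)

private theorem B5Bo_K40 {β r t κ h : ℝ} (hβ : 0 < β) (hr : 10 ≤ r) (hκ : κ = β * r) (hk1 : 0.36 ≤ κ) (hk2 : κ ≤ 0.42)
    (hh : h = 2 * Real.pi / 5) (hh1 : 1.25663 ≤ h) (hh2 : h ≤ 1.25664) (hta : 0.415 ≤ t + κ) (htb : t + κ ≤ 0.5655)
    (hY : 0.8839 * Real.exp (r * sE κ t) ≤ ‖Xf β r h t 1‖) (hV : 1.09001 - 0.3902 * (t + κ) ≤ sE κ t) :
    ‖Xf β r h t (-1)‖ ≤ 0.000774 * ‖Xf β r h t 1‖ := by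
  rw [v5_X (-1) (-2) (by push_cast; ring)]
  exact v5_cmp 1.0104 0.00004092 0.000091 0.8192 0.000277 0.000682 0.000774 hr (B5Bo_C35 (t := t + (-2) * h) hβ hr hκ hk1 hk2 (by linarith only [hta, htb, hh1, hh2]) (by linarith only [hta, htb, hh1, hh2])) hY (by norm_num) (by norm_num) (by norm_num) (by norm_num) (by linarith only [hV, hta, htb, hh1, hh2]) (ex_un 10 0.1039 (by norm_num) (by norm_num) (by norm_num) (by norm_num)) (by norm_num) (by norm_num) (by linarith only [hV, hta, htb, hh1, hh2]) (ex_un 8 0.1919 (by norm_num) (by norm_num) (by norm_num) (by norm_num)) (by norm_num) (by norm_num)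

private theorem B5Bo_K41 {β r t κ h : ℝ} (hβ : 0 < β) (hr : 10 ≤ r) (hκ : κ = β * r) (hk1 : 0.36 ≤ κ) (hk2 : κ ≤ 0.42)
    (hh : h = 2 * Real.pi / 5) (hh1 : 1.25663 ≤ h) (hh2 : h ≤ 1.25664) (hta : 0.415 ≤ t + κ) (htb : t + κ ≤ 0.5655)
    (hY : 0.8839 * Real.exp (r * sE κ t) ≤ ‖Xf β r h t 1‖) (hV : 1.09001 - 0.3902 * (t + κ) ≤ sE κ t) :
    ‖Xf β r h t (-2)‖ ≤ 0.00109 * ‖Xf β r h t 1‖ := by
  rw [v5_Xm2 hh]
  exact v5_cmp0 0.8093 0.0003058 0.00109 hr (B5Bo_C36 (t := t + 2 * h) hβ hr hκ hk1 hk2 (by linarith only [hta, htb, hh1, hh2]) (by linarith only [hta, htb, hh1, hh2])) hY (by norm_num) (by norm_num) (by norm_num) (by linarith only [hV, hta, htb, hh1, hh2]) (ex_un 8 0.0929 (by norm_num) (by norm_num) (by norm_num) (by norm_num)) (by norm_num)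

private theorem B5Bo_C42 {β r t κ : ℝ} (hβ : 0 < β) (hr : 10 ≤ r) (hκ : κ = β * r) (hk1 : 0.36 ≤ κ) (hk2 : κ ≤ 0.42) (hta : (-0.8417) ≤ t + κ)
    (htb : t + κ ≤ (-0.6911)) : ‖F (cexp (I * β)) (r * cexp (I * ((t + β / 2 : ℝ) : ℂ)))‖ ≤
      1.9656 * Real.exp (r * (1.24184 - (-0.71) * (t + κ))) + 2.162 * Real.exp (r * 0.4191) :=
  v5_HU (-0.71) 0.36 0.42 (-0.8417) (-0.6911) 1.24184 1.9656 1.66727 0.0818 1.2754 3.4502 0.5198 0.4191 0.00000189 2.162 hβ hr hκ (by norm_num) hk1 hk2 hta htb (by norm_num) (by norm_num) (B5Bo_G13 hk1 hk2).1 (B5Bo_G13 hk1 hk2).2 (by norm_num) (by norm_num) (by norm_num)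
    (by norm_num) (by norm_num) (by norm_num) (by norm_num) (by norm_num) (by norm_num) (by norm_num)
    (by norm_num) (by norm_num) (by norm_num) (v5_hump 5.6814 23.809 4.8795 0.0000009316 0.00000189 hβ hr hκ hk1 hk2 (by norm_num) htb (by norm_num) (by norm_num) (by norm_num) (by norm_num) (by norm_num) (by norm_num) (by norm_num) (ex_un 13 0.9 (by norm_num) (by norm_num) (by norm_num) (by norm_num)) (by norm_num)) (by norm_num)

private theorem B5Bo_K43 {β r t κ h : ℝ} (hβ : 0 < β) (hr : 10 ≤ r) (hκ : κ = β * r) (hk1 : 0.36 ≤ κ) (hk2 : κ ≤ 0.42)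
    (hh : h = 2 * Real.pi / 5) (hh1 : 1.25663 ≤ h) (hh2 : h ≤ 1.25664) (hta : 0.415 ≤ t + κ) (htb : t + κ ≤ 0.5655)
    (hY : 0.8839 * Real.exp (r * sE κ t) ≤ ‖Xf β r h t 1‖) (hV : 1.09001 - 0.3902 * (t + κ) ≤ sE κ t) :
    ‖Xf β r h t 0‖ ≤ 0.711 * ‖Xf β r h t 1‖ := by
  rw [v5_X 0 (-1) (by push_cast; ring)]
  exact v5_cmp 0.1182 0.3068 0.683 0.4502 0.01111 0.0272 0.711 hr (B5Bo_C42 (t := t + (-1) * h) hβ hr hκ hk1 hk2 (by linarith only [hta, htb, hh1, hh2]) (by linarith only [hta, htb, hh1, hh2])) hY (by norm_num) (by norm_num) (by norm_num) (by norm_num) (by linarith only [hV, hta, htb, hh1, hh2]) (ex_un 1 0.1819 (by norm_num) (by norm_num) (by norm_num) (by norm_num)) (by norm_num) (by norm_num) (by linarith only [hV, hta, htb, hh1, hh2]) (ex_un 4 0.5019 (by norm_num) (by norm_num) (by norm_num) (by norm_num)) (by norm_num) (by norm_num)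

private theorem B5Bo_O44 {β r t κ h : ℝ} (hβ : 0 < β) (hr : 10 ≤ r) (hκ : κ = β * r) (hk1 : 0.36 ≤ κ) (hk2 : κ ≤ 0.42)
    (hh : h = 2 * Real.pi / 5) (hta : 0.415 ≤ t + κ) (htb : t + κ ≤ 0.5655) :
    ‖Xf β r h t (-2)‖ + ‖Xf β r h t (-1)‖ + ‖Xf β r h t 2‖ < |‖Xf β r h t 1‖ - ‖Xf β r h t 0‖| := by
  obtain ⟨hh1, hh2⟩ := v5_h hh
  have hκ0 : 0 < κ := by linarith only [hk1]
  have hN : β * 23.809 ≤ 1 := v5_hN 0.42 23.809 hβ hr hκ hk2 (by norm_num) (by norm_num)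
  have hD1 : DomR κ t := v5_dom hκ0 (by linarith only [hta, htb, hk1, hk2, hh1, hh2]) (Or.inr (by linarith only [hta, htb, hk1, hk2, hh1, hh2]))
  have e1 : t = t + (((1 : ℤ) : ℝ) - 1) * h := by push_cast; ring
  have hY := B5Bo_Y37 (h := h) hβ hκ hN hk1 hk2 e1 hD1 hta htb
  have hV := B5Bo_V38 hD1 hk1 hk2 hta htb
  have cp2 := B5Bo_K39 hβ hr hκ hk1 hk2 hh hh1 hh2 hta htb hY hV
  have cm1 := B5Bo_K40 hβ hr hκ hk1 hk2 hh hh1 hh2 hta htb hY hV
  have cm2 := B5Bo_K41 hβ hr hκ hk1 hk2 hh hh1 hh2 hta htb hY hV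
  have cn0 := B5Bo_K43 hβ hr hκ hk1 hk2 hh hh1 hh2 hta htb hY hV
  have hp : 0 < ‖Xf β r h t 1‖ := lt_of_lt_of_le (by positivity) hY
  exact v5_out1 _ _ _ _ cm2 cm1 cp2 cn0 hp (by norm_num)

private theorem B5Bo_B45 {κ t : ℝ} (h : DomR κ t) (hk1 : 0.36 ≤ κ) (hk2 : κ ≤ 0.42) (ht1 : (-0.4902) ≤ t + κ) (ht2 : t + κ ≤ (-0.3766)) :
    ((-0.223) ≤ sy κ t ∧ sy κ t ≤ (-0.14)) ∧ (0.3488 ≤ sx κ t ∧ sx κ t ≤ 0.506) ∧ κ * Real.exp (-sy κ t) ≤ 0.525 ∧ 0.7564 ≤ sD κ t ∧ sD κ t ≤ 0.9535 := by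
  have hy1 : -0.223 ≤ sy κ t := syL_ge h 0.36 0.42 0.4902 0.223 0.80011 0.80012 0.4071 0.42482 0.49563 hk1 hk2 (by linarith) (by norm_num) (by norm_num) (by norm_num)
    (expm_ge (by norm_num) (by norm_num) (by norm_num) (by norm_num)) (expm_le (by norm_num) (by norm_num) (by norm_num)) (by norm_num)
    (by norm_num) (by norm_num) (by norm_num) (by norm_num) (by norm_num) (by norm_num)
  have hy2 : sy κ t ≤ -0.14 := syL_le h 0.36 0.42 0.3766 0.14 0.86935 0.86936 0.28978 0.33809 hk1 hk2 (by linarith) (by norm_num) (by norm_num) (by norm_num)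
    (expm_ge (by norm_num) (by norm_num) (by norm_num) (by norm_num)) (expm_le (by norm_num) (by norm_num) (by norm_num)) (by norm_num)
    (by norm_num) (by norm_num) (by norm_num) (by norm_num) (by norm_num) (by norm_num)
  have hy1' : (-0.223) ≤ sy κ t := by linarith
  have hy2' : sy κ t ≤ (-0.14) := by linarith
  have hx1 : 0.3488 ≤ sx κ t := sx_lo h 0.36 (-0.14) 0.2231 1.15027 0.3488 hk1 (by norm_num) hy2' (abs_le.2 ⟨by linarith, by linarith⟩) (ex_lp 0.14 (by norm_num) (by norm_num) (by norm_num)) (by norm_num) (by norm_num)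
  have hx2 : sx κ t ≤ 0.506 := sx_hi h 0.42 (-0.223) 0.14 1.24983 0.506 hk2 hy1' (by norm_num) (le_trans (by linarith) (neg_le_abs _)) (ex_up 0.223 (by norm_num) (by norm_num) (by norm_num) (by norm_num)) (by norm_num) (by norm_num)
  refine ⟨⟨hy1', hy2'⟩, ⟨hx1, hx2⟩, v5_n h 0.42 (-0.223) 1.24983 0.525 hk2 hy1' (ex_up 0.223 (by norm_num) (by norm_num) (by norm_num) (by norm_num)) (by norm_num), ?_, ?_⟩
  · exact v5_Dlo h 0.36 (-0.223) (-0.14) (-0.223) 1.24982 0.7564 (by norm_num) hk1 hy1' hy2' (ex_lp 0.223 (by norm_num) (by norm_num) (by norm_num)) (by norm_num) (by norm_num) (by norm_num) (by norm_num)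
  · exact v5_Dup h 0.42 (-0.223) (-0.14) 1.24983 1.15028 0.9535 hk2 hy1' hy2' (ex_up 0.223 (by norm_num) (by norm_num) (by norm_num) (by norm_num)) (ex_up 0.14 (by norm_num) (by norm_num) (by norm_num) (by norm_num)) (by norm_num) (by norm_num) (by norm_num)

private theorem B5Bo_T46_0_0 {β x y : ℝ} (hβ : 0 < β) (hN : β * 23.809 ≤ 1) (hx1 : 0.3487 ≤ x) (hx2 : x ≤ 0.5061)
    (hy1 : -0.2231 ≤ y) (hy2 : y ≤ -0.1399) : ‖HH β (x + y * I) - 1‖ ≤ 0.03 := by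
  refine le_epsJ (C := 0.5595) (N0 := 23.809) (J_boxp 0.3487 0.5061 0.2231 0 (-0.1399) 0.7971 0.5531 0.998 1.4038 0.3986 4.8795 23.809 0.6939 2.512 1.365 1.0195 0.3985 0.3063 0.7754 3.0986 0.4025 0.9828 1.6616 3.906 0.00007585 0.000681 0.0000003101 0.0000003101 0.00006892 0.0000003101 0.0000003101 0.0000003101 0.5595
    hβ hN hx1 hx2 hy1 hy2 (by norm_num) (by norm_num) (by linarith) (by norm_num) (by norm_num) (by norm_num) (by norm_num) (by norm_num) (by norm_num) (by norm_num) (by norm_num) (by norm_num) (by norm_num) (by norm_num) (by norm_num) (by norm_num) (by norm_num) (by norm_num) (by norm_num) (by norm_num) (by norm_num) (by norm_num) (by norm_num) (by norm_num)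
    (cube_sqrt_geJ (s := 0.8767) (by norm_num) (by norm_num) (by norm_num) (by norm_num))
    (cube_sqrt_geJ (s := 0.9565) (by norm_num) (by norm_num) (by norm_num) (by norm_num))
    (by norm_num) (by norm_num) (by norm_num) (by norm_num) (by norm_num) (by norm_num) (by norm_num) (by norm_num) (by norm_num) (by norm_num) (by norm_num) (by norm_num) (by norm_num) (by norm_num) (by norm_num) (by norm_num) (by norm_num) (by norm_num)
    (exp_neg_leJ (r := 0.487) 9 (by norm_num) (by norm_num) (by norm_num) (by norm_num))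
    (exp_neg_leJ (r := 0.292) 7 (by norm_num) (by norm_num) (by norm_num) (by norm_num))
    (exp_neg_leJ (r := 0.99) 14 (by norm_num) (by norm_num) (by norm_num) (by norm_num))
    (exp_neg_leJ (r := 0.99) 14 (by norm_num) (by norm_num) (by norm_num) (by norm_num))
    (exp_neg_leJ (r := 0.583) 9 (by norm_num) (by norm_num) (by norm_num) (by norm_num))
    (exp_neg_leJ (r := 0.99) 14 (by norm_num) (by norm_num) (by norm_num) (by norm_num))
    (exp_neg_leJ (r := 0.99) 14 (by norm_num) (by norm_num) (by norm_num) (by norm_num))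
    (exp_neg_leJ (r := 0.99) 14 (by norm_num) (by norm_num) (by norm_num) (by norm_num))
    (by norm_num)) (by norm_num) hN hβ.le (by norm_num)

private theorem B5Bo_T46 {β x y : ℝ} (hβ : 0 < β) (hN : β * 23.809 ≤ 1) (hx1 : 0.3487 ≤ x) (hx2 : x ≤ 0.5061)
    (hy1 : (-0.2231) ≤ y) (hy2 : y ≤ (-0.1399)) : ‖HH β (x + y * I) - 1‖ ≤ 0.03 := by
  exact B5Bo_T46_0_0 hβ hN (by linarith) (by linarith) (by linarith) (by linarith)

private theorem B5Bo_C47 {β r t κ : ℝ} (hβ : 0 < β) (hr : 10 ≤ r) (hκ : κ = β * r) (hk1 : 0.36 ≤ κ) (hk2 : κ ≤ 0.42) (hta : 2.0231 ≤ t + κ)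
    (htb : t + κ ≤ 2.1367) : ‖F (cexp (I * β)) (r * cexp (I * ((t + β / 2 : ℝ) : ℂ)))‖ ≤
      4.3384 * Real.exp (r * (0.01 + 1 / 20)) :=
  v5_UD 0.36 0.42 2.0231 2.1367 0.01 0.665 0.01 2.2618 4.3384 hβ hr hκ (by norm_num) hk1 hk2 hta htb (by norm_num) (by norm_num) (by norm_num) (by norm_num) (by norm_num) (by norm_num) (by norm_num) (by norm_num) (by norm_num) (by norm_num) (by norm_num)

private theorem B5Bo_C48 {β r t κ : ℝ} (hβ : 0 < β) (hr : 10 ≤ r) (hκ : κ = β * r) (hk1 : 0.36 ≤ κ) (hk2 : κ ≤ 0.42) (hta : (-1.7468) ≤ t + κ)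
    (htb : t + κ ≤ (-1.6332)) : ‖F (cexp (I * β)) (r * cexp (I * ((t + β / 2 : ℝ) : ℂ)))‖ ≤
      1.9656 * Real.exp (r * (1.24184 - (-0.71) * (t + κ))) + 2.1704 * Real.exp (r * 0.0501) :=
  v5_HU (-0.71) 0.36 0.42 (-1.7468) (-1.6332) 1.24184 1.9656 1.66727 0.0818 1.2754 2.5451 0 0.0501 0.00000189 2.1704 hβ hr hκ (by norm_num) hk1 hk2 hta htb (by norm_num) (by norm_num) (B5Bo_G13 hk1 hk2).1 (B5Bo_G13 hk1 hk2).2 (by norm_num) (by norm_num) (by norm_num)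
    (by norm_num) (by norm_num) (by norm_num) (by norm_num) (by norm_num) (by norm_num) (by norm_num)
    (by norm_num) (by norm_num) (by norm_num) (v5_hump 6.6235 23.809 4.8795 0.0000009316 0.00000189 hβ hr hκ hk1 hk2 (by norm_num) htb (by norm_num) (by norm_num) (by norm_num) (by norm_num) (by norm_num) (by norm_num) (by norm_num) (ex_un 13 0.9 (by norm_num) (by norm_num) (by norm_num) (by norm_num)) (by norm_num)) (by norm_num)

private theorem B5Bo_C49 {β r t κ : ℝ} (hβ : 0 < β) (hr : 10 ≤ r) (hκ : κ = β * r) (hk1 : 0.36 ≤ κ) (hk2 : κ ≤ 0.42) (hta : 3.2797 ≤ t + κ)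
    (htb : t + κ ≤ 3.3933) : ‖F (cexp (I * β)) (r * cexp (I * ((t + β / 2 : ℝ) : ℂ)))‖ ≤
      3.1131 * Real.exp (r * (0.01 + 1 / 20)) :=
  v5_UD 0.36 0.42 3.2797 3.3933 0.01 0.665 0.01 1.623 3.1131 hβ hr hκ (by norm_num) hk1 hk2 hta htb (by norm_num) (by norm_num) (by norm_num) (by norm_num) (by norm_num) (by norm_num) (by norm_num) (by norm_num) (by norm_num) (by norm_num) (by norm_num)

private theorem B5Bo_Y50 {β r t κ h t' : ℝ} (hβ : 0 < β) (hκ : κ = β * r) (hN : β * 23.809 ≤ 1) (hk1 : 0.36 ≤ κ) (hk2 : κ ≤ 0.42)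
    (ht : t' = t + (((0 : ℤ) : ℝ) - 1) * h) (hD : DomR κ t') (hta : (-0.4902) ≤ t' + κ) (htb : t' + κ ≤ (-0.3766)) :
    0.9816 * Real.exp (r * sE κ t') ≤ ‖Xf β r h t 0‖ := by
  obtain ⟨⟨ya, yb⟩, ⟨xa, xb⟩, n1, Da, Db⟩ := B5Bo_B45 hD hk1 hk2 hta htb
  have J := B5Bo_T46 (x := sx κ t') (y := sy κ t') hβ hN (by linarith only [xa, xb, ya, yb]) (by linarith only [xa, xb, ya, yb]) (by linarith only [xa, xb, ya, yb]) (by linarith only [xa, xb, ya, yb])
  exact v5_Jlo hβ hκ (k := 0) ht hD 0.03 0.9535 0.9816 (by norm_num) J Db (by norm_num)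

private theorem B5Bo_V51 {κ t : ℝ} (hD : DomR κ t) (hk1 : 0.36 ≤ κ) (hk2 : κ ≤ 0.42) (hta : (-0.4902) ≤ t + κ) (htb : t + κ ≤ (-0.3766)) :
    1.09719 + 0.4564 * (t + κ) ≤ sE κ t := by
  have hκ0 : 0 < κ := hD.1
  exact v5_V0 hD 0.36 0.42 (-0.4902) (-0.3766) 0.4903 0.5948 0.15491 0.02159 0.69379 0.37182 1.09719 0.4564 (by norm_num) hk1 hk2 (by norm_num) hta htb (by norm_num) (by norm_num) (by norm_num) ((cup1 0.42 hκ0.le hk2 (by norm_num)).trans (by norm_num))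
      (by norm_num) (by norm_num) (by norm_num) (by norm_num) (by norm_num) (by norm_num) (by norm_num) (by norm_num) (by norm_num) (by norm_num) (by norm_num) (by norm_num) (by norm_num)

private theorem B5Bo_K52 {β r t κ h : ℝ} (hβ : 0 < β) (hr : 10 ≤ r) (hκ : κ = β * r) (hk1 : 0.36 ≤ κ) (hk2 : κ ≤ 0.42)
    (hh : h = 2 * Real.pi / 5) (hh1 : 1.25663 ≤ h) (hh2 : h ≤ 1.25664) (hta : 0.7665 ≤ t + κ) (htb : t + κ ≤ 0.88)
    (hY : 0.9816 * Real.exp (r * sE κ (t - h)) ≤ ‖Xf β r h t 0‖) (hV : 1.09719 + 0.4564 * (t - h + κ) ≤ sE κ (t - h)) :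
    ‖Xf β r h t 2‖ ≤ 0.0013 * ‖Xf β r h t 0‖ := by
  rw [v5_X 2 1 (by push_cast; ring)]
  exact v5_cmp0 0.8134 0.0002935 0.0013 hr (B5Bo_C47 (t := t + 1 * h) hβ hr hκ hk1 hk2 (by linarith only [hta, htb, hh1, hh2]) (by linarith only [hta, htb, hh1, hh2])) hY (by norm_num) (by norm_num) (by norm_num) (by linarith only [hV, hta, htb, hh1, hh2]) (ex_un 8 0.1339 (by norm_num) (by norm_num) (by norm_num) (by norm_num)) (by norm_num)

private theorem B5Bo_K53 {β r t κ h : ℝ} (hβ : 0 < β) (hr : 10 ≤ r) (hκ : κ = β * r) (hk1 : 0.36 ≤ κ) (hk2 : κ ≤ 0.42)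
    (hh : h = 2 * Real.pi / 5) (hh1 : 1.25663 ≤ h) (hh2 : h ≤ 1.25664) (hta : 0.7665 ≤ t + κ) (htb : t + κ ≤ 0.88)
    (hY : 0.9816 * Real.exp (r * sE κ (t - h)) ≤ ‖Xf β r h t 0‖) (hV : 1.09719 + 0.4564 * (t - h + κ) ≤ sE κ (t - h)) :
    ‖Xf β r h t (-1)‖ ≤ 0.00103 * ‖Xf β r h t 0‖ := by
  rw [v5_X (-1) (-2) (by push_cast; ring)]
  exact v5_cmp 0.843 0.0002185 0.000438 0.8233 0.0002658 0.000588 0.00103 hr (B5Bo_C48 (t := t + (-2) * h) hβ hr hκ hk1 hk2 (by linarith only [hta, htb, hh1, hh2]) (by linarith only [hta, htb, hh1, hh2])) hY (by norm_num) (by norm_num) (by norm_num) (by norm_num) (by linarith only [hV, hta, htb, hh1, hh2]) (ex_un 8 0.4299 (by norm_num) (by norm_num) (by norm_num) (by norm_num)) (by norm_num) (by norm_num) (by linarith only [hV, hta, htb, hh1, hh2]) (ex_un 8 0.2329 (by norm_num) (by norm_num) (by norm_num) (by norm_num)) (by norm_num) (by norm_num)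

private theorem B5Bo_K54 {β r t κ h : ℝ} (hβ : 0 < β) (hr : 10 ≤ r) (hκ : κ = β * r) (hk1 : 0.36 ≤ κ) (hk2 : κ ≤ 0.42)
    (hh : h = 2 * Real.pi / 5) (hh1 : 1.25663 ≤ h) (hh2 : h ≤ 1.25664) (hta : 0.7665 ≤ t + κ) (htb : t + κ ≤ 0.88)
    (hY : 0.9816 * Real.exp (r * sE κ (t - h)) ≤ ‖Xf β r h t 0‖) (hV : 1.09719 + 0.4564 * (t - h + κ) ≤ sE κ (t - h)) :
    ‖Xf β r h t (-2)‖ ≤ 0.000931 * ‖Xf β r h t 0‖ := by
  rw [v5_Xm2 hh]
  exact v5_cmp0 0.8134 0.0002935 0.000931 hr (B5Bo_C49 (t := t + 2 * h) hβ hr hκ hk1 hk2 (by linarith only [hta, htb, hh1, hh2]) (by linarith only [hta, htb, hh1, hh2])) hY (by norm_num) (by norm_num) (by norm_num) (by linarith only [hV, hta, htb, hh1, hh2]) (ex_un 8 0.1339 (by norm_num) (by norm_num) (by norm_num) (by norm_num)) (by norm_num)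

private theorem B5Bo_G55 {κ : ℝ} (hk1 : 0.36 ≤ κ) (hk2 : κ ≤ 0.42) : gG κ 0.47 ≤ 1.15771 ∧ 0.67381 ≤ Real.exp (-(κ * 0.47)) ^ 2 := by
  refine ⟨gG_le 0.47 0.36 0.42 1.15771 0.84435 0.82087 1.18436 1.21824 hk1 hk2 (by norm_num)
    (ex_um 0.1692 (by norm_num) (by norm_num) (by norm_num) (by norm_num)) (ex_um 0.1974 (by norm_num) (by norm_num) (by norm_num) (by norm_num))
    (ex_up 0.1692 (by norm_num) (by norm_num) (by norm_num) (by norm_num)) (ex_up 0.1974 (by norm_num) (by norm_num) (by norm_num) (by norm_num))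
    (by norm_num) (by norm_num), ?_⟩
  exact v5_M 0.82086 (ex_lm 0.1974 (by linarith) (by norm_num) (by norm_num) (by norm_num) (by norm_num)) (by norm_num) (by norm_num)

private theorem B5Bo_B56 {κ t : ℝ} (h : DomR κ t) (hk1 : 0.36 ≤ κ) (hk2 : κ ≤ 0.42) (ht1 : 0.7664 ≤ t + κ) (ht2 : t + κ ≤ 0.8801) :
    (0.179 ≤ sy κ t ∧ sy κ t ≤ 0.224) ∧ (0.1804 ≤ sx κ t ∧ sx κ t ≤ 0.3022) ∧ κ * Real.exp (-sy κ t) ≤ 0.3512 ∧ 1.4485 ≤ sD κ t ∧ sD κ t ≤ 1.5608 := by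
  have hy1 : 0.179 ≤ sy κ t := syR_ge h 0.36 0.42 0.7664 0.179 1.19602 1.19603 0.50973 0.5947 hk1 hk2 (by linarith) (by norm_num) (by norm_num)
    (expn_ge (by norm_num) (by norm_num)) (expn_le (by norm_num) (by norm_num) (by norm_num)) (by norm_num)
    (by norm_num) (by norm_num) (by norm_num) (by norm_num) (by norm_num) (by norm_num)
  have hy2 : sy κ t ≤ 0.224 := syR_le h 0.36 0.42 0.8801 0.224 1.25107 0.6394 0.66723 0.77845 hk1 hk2 (by linarith) (by norm_num) (by norm_num)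
    (expn_ge (by norm_num) (by norm_num)) (by norm_num) (by norm_num) (Or.inr ((mul_le_mul_of_nonneg_left (expn_le (E := 1.25108) (by norm_num) (by norm_num) (by norm_num)) (by norm_num)).trans (by norm_num))) (by norm_num) (by norm_num) (by norm_num)
  have hy1' : 0.179 ≤ sy κ t := by linarith
  have hy2' : sy κ t ≤ 0.224 := by linarith
  have hx1 : 0.1804 ≤ sx κ t := sx_lo h 0.36 0.224 0.2241 0.79931 0.1804 hk1 (by norm_num) hy2' (abs_le.2 ⟨by linarith, by linarith⟩) (ex_lm 0.224 (by norm_num) (by norm_num) (by norm_num) (by norm_num) (by norm_num)) (by norm_num) (by norm_num)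
  have hx2 : sx κ t ≤ 0.3022 := sx_hi h 0.42 0.179 0.179 0.83611 0.3022 hk2 hy1' (by norm_num) (le_trans (by linarith) (le_abs_self _)) (ex_um 0.179 (by norm_num) (by norm_num) (by norm_num) (by norm_num)) (by norm_num) (by norm_num)
  refine ⟨⟨hy1', hy2'⟩, ⟨hx1, hx2⟩, v5_n h 0.42 0.179 0.83611 0.3512 hk2 hy1' (ex_um 0.179 (by norm_num) (by norm_num) (by norm_num) (by norm_num)) (by norm_num), ?_, ?_⟩
  · exact v5_Dlo h 0.36 0.179 0.224 0.179 0.8361 1.4485 (by norm_num) hk1 hy1' hy2' (ex_lm 0.179 (by norm_num) (by norm_num) (by norm_num) (by norm_num) (by norm_num)) (by norm_num) (by norm_num) (by norm_num) (by norm_num)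
  · exact v5_Dup h 0.42 0.179 0.224 0.83611 0.79932 1.5608 hk2 hy1' hy2' (ex_um 0.179 (by norm_num) (by norm_num) (by norm_num) (by norm_num)) (ex_um 0.224 (by norm_num) (by norm_num) (by norm_num) (by norm_num)) (by norm_num) (by norm_num) (by norm_num)

private theorem B5Bo_T57_0_0 {β x y : ℝ} (hβ : 0 < β) (hN : β * 23.809 ≤ 1) (hx1 : 0.1803 ≤ x) (hx2 : x ≤ 0.3023)
    (hy1 : -0 ≤ y) (hy2 : y ≤ 0.2241) : ‖HH β (x + y * I) - 1‖ ≤ 0.03 := by
  refine le_epsJ (C := 0.2474) (N0 := 23.809) (J_boxp 0.1803 0.3023 0 0.2241 0.2241 0.837 0.3764 1.2609 1.4664 0.448 4.8795 23.809 0.4498 1.766 1.22 1.3038 0.4184 0.3557 1.07 3.9093 0.4197 0.7267 0.9701 2.9935 0.00004736 0.0002102 0.0000003101 0.0000003101 0.00004602 0.0000003101 0.0000003101 0.0000003101 0.2474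
    hβ hN hx1 hx2 hy1 hy2 (by norm_num) (by norm_num) (by linarith) (by norm_num) (by norm_num) (by norm_num) (by norm_num) (by norm_num) (by norm_num) (by norm_num) (by norm_num) (by norm_num) (by norm_num) (by norm_num) (by norm_num) (by norm_num) (by norm_num) (by norm_num) (by norm_num) (by norm_num) (by norm_num) (by norm_num) (by norm_num) (by norm_num)
    (cube_sqrt_geJ (s := 0.9219) (by norm_num) (by norm_num) (by norm_num) (by norm_num))
    (cube_sqrt_geJ (s := 0.972) (by norm_num) (by norm_num) (by norm_num) (by norm_num))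
    (by norm_num) (by norm_num) (by norm_num) (by norm_num) (by norm_num) (by norm_num) (by norm_num) (by norm_num) (by norm_num) (by norm_num) (by norm_num) (by norm_num) (by norm_num) (by norm_num) (by norm_num) (by norm_num) (by norm_num) (by norm_num)
    (exp_neg_leJ (r := 0.961) 9 (by norm_num) (by norm_num) (by norm_num) (by norm_num))
    (exp_neg_leJ (r := 0.468) 8 (by norm_num) (by norm_num) (by norm_num) (by norm_num))
    (exp_neg_leJ (r := 0.99) 14 (by norm_num) (by norm_num) (by norm_num) (by norm_num))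
    (exp_neg_leJ (r := 0.99) 14 (by norm_num) (by norm_num) (by norm_num) (by norm_num))
    (exp_neg_leJ (r := 0.99) 9 (by norm_num) (by norm_num) (by norm_num) (by norm_num))
    (exp_neg_leJ (r := 0.99) 14 (by norm_num) (by norm_num) (by norm_num) (by norm_num))
    (exp_neg_leJ (r := 0.99) 14 (by norm_num) (by norm_num) (by norm_num) (by norm_num))
    (exp_neg_leJ (r := 0.99) 14 (by norm_num) (by norm_num) (by norm_num) (by norm_num))
    (by norm_num)) (by norm_num) hN hβ.le (by norm_num)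

private theorem B5Bo_T57 {β x y : ℝ} (hβ : 0 < β) (hN : β * 23.809 ≤ 1) (hx1 : 0.1803 ≤ x) (hx2 : x ≤ 0.3023)
    (hy1 : 0.1789 ≤ y) (hy2 : y ≤ 0.2241) : ‖HH β (x + y * I) - 1‖ ≤ 0.03 := by
  exact B5Bo_T57_0_0 hβ hN (by linarith) (by linarith) (by linarith) (by linarith)

private theorem B5Bo_U58 {β r t κ h t' : ℝ} (hβ : 0 < β) (hκ : κ = β * r) (hN : β * 23.809 ≤ 1) (hk1 : 0.36 ≤ κ) (hk2 : κ ≤ 0.42)
    (ht : t' = t + (((1 : ℤ) : ℝ) - 1) * h) (hD : DomR κ t') (hta : 0.7664 ≤ t' + κ) (htb : t' + κ ≤ 0.8801) :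
    ‖Xf β r h t 1‖ ≤ 0.9389 * Real.exp (r * sE κ t') := by
  obtain ⟨⟨ya, yb⟩, ⟨xa, xb⟩, n1, Da, Db⟩ := B5Bo_B56 hD hk1 hk2 hta htb
  have J := B5Bo_T57 (x := sx κ t') (y := sy κ t') hβ hN (by linarith only [xa, xb, ya, yb]) (by linarith only [xa, xb, ya, yb]) (by linarith only [xa, xb, ya, yb]) (by linarith only [xa, xb, ya, yb])
  exact v5_Jup (h := h) (t := t) (k := 1) hβ hκ ht hD 0.03 1.4485 0.9389 J Da (by norm_num) (by norm_num)

private theorem B5Bo_K59 {β r t κ h : ℝ} (hβ : 0 < β) (hr : 10 ≤ r) (hκ : κ = β * r) (hk1 : 0.36 ≤ κ) (hk2 : κ ≤ 0.42)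
    (hh : h = 2 * Real.pi / 5) (hh1 : 1.25663 ≤ h) (hh2 : h ≤ 1.25664) (hta : 0.7665 ≤ t + κ) (htb : t + κ ≤ 0.88) (hN : β * 23.809 ≤ 1)
    (hD : DomR κ t) (hY : 0.9816 * Real.exp (r * sE κ (t - h)) ≤ ‖Xf β r h t 0‖) (hV : 1.09719 + 0.4564 * (t - h + κ) ≤ sE κ (t - h)) :
    ‖Xf β r h t 1‖ ≤ 0.451 * ‖Xf β r h t 0‖ := by
  have hU := B5Bo_U58 (h := h) (t := t) hβ hκ hN hk1 hk2 (by push_cast; ring) hD (by linarith only [hta, htb, hh1, hh2]) (by linarith only [hta, htb, hh1, hh2])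
  have hW := V_up hD 0.47 (B5Bo_G55 hk1 hk2).1
  exact v5_cmpJ 0.076 0.4714 0.451 hr hU hW hY (by norm_num) (by norm_num) (by norm_num) (by linarith only [hV, hta, htb, hh1, hh2]) (ex_un 0 0.7599 (by norm_num) (by norm_num) (by norm_num) (by norm_num)) (by norm_num)

private theorem B5Bo_O60 {β r t κ h : ℝ} (hβ : 0 < β) (hr : 10 ≤ r) (hκ : κ = β * r) (hk1 : 0.36 ≤ κ) (hk2 : κ ≤ 0.42)
    (hh : h = 2 * Real.pi / 5) (hta : 0.7665 ≤ t + κ) (htb : t + κ ≤ 0.88) :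
    ‖Xf β r h t (-2)‖ + ‖Xf β r h t (-1)‖ + ‖Xf β r h t 2‖ < |‖Xf β r h t 1‖ - ‖Xf β r h t 0‖| := by
  obtain ⟨hh1, hh2⟩ := v5_h hh
  have hκ0 : 0 < κ := by linarith only [hk1]
  have hN : β * 23.809 ≤ 1 := v5_hN 0.42 23.809 hβ hr hκ hk2 (by norm_num) (by norm_num)
  have hD1 : DomR κ t := v5_dom hκ0 (by linarith only [hta, htb, hk1, hk2, hh1, hh2]) (Or.inr (by linarith only [hta, htb, hk1, hk2, hh1, hh2]))
  have hD0 : DomR κ (t - h) := v5_dom hκ0 (by linarith only [hta, htb, hk1, hk2, hh1, hh2]) (Or.inr (by linarith only [hta, htb, hk1, hk2, hh1, hh2]))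
  have h0a : (-0.4902) ≤ t - h + κ := by linarith only [hta, htb, hh1, hh2]
  have h0b : t - h + κ ≤ (-0.3766) := by linarith only [hta, htb, hh1, hh2]
  have e0 : t - h = t + (((0 : ℤ) : ℝ) - 1) * h := by push_cast; ring
  have hY := B5Bo_Y50 (h := h) hβ hκ hN hk1 hk2 e0 hD0 h0a h0b
  have hV := B5Bo_V51 hD0 hk1 hk2 h0a h0b
  have cp2 := B5Bo_K52 hβ hr hκ hk1 hk2 hh hh1 hh2 hta htb hY hV
  have cm1 := B5Bo_K53 hβ hr hκ hk1 hk2 hh hh1 hh2 hta htb hY hV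
  have cm2 := B5Bo_K54 hβ hr hκ hk1 hk2 hh hh1 hh2 hta htb hY hV
  have cn1 := B5Bo_K59 hβ hr hκ hk1 hk2 hh hh1 hh2 hta htb hN hD1 hY hV
  have hp : 0 < ‖Xf β r h t 0‖ := lt_of_lt_of_le (by positivity) hY
  exact v5_out0 _ _ _ _ cm2 cm1 cp2 cn1 hp (by norm_num)

private theorem B5Bo_B61 {κ t : ℝ} (h : DomR κ t) (hk1 : 0.36 ≤ κ) (hk2 : κ ≤ 0.42) (ht1 : (-0.3767) ≤ t + κ) (ht2 : t + κ ≤ (-0.1886)) :
    ((-0.161) ≤ sy κ t ∧ sy κ t ≤ (-0.064)) ∧ (0.3483 ≤ sx κ t ∧ sx κ t ≤ 0.4893) ∧ κ * Real.exp (-sy κ t) ≤ 0.4934 ∧ 0.8568 ≤ sD κ t ∧ sD κ t ≤ 1.0725 := by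
  have hy1 : -0.161 ≤ sy κ t := syL_ge h 0.36 0.42 0.3767 0.161 0.85129 0.8513 0.3127 0.32632 0.38073 hk1 hk2 (by linarith) (by norm_num) (by norm_num) (by norm_num)
    (expm_ge (by norm_num) (by norm_num) (by norm_num) (by norm_num)) (expm_le (by norm_num) (by norm_num) (by norm_num)) (by norm_num)
    (by norm_num) (by norm_num) (by norm_num) (by norm_num) (by norm_num) (by norm_num)
  have hy2 : sy κ t ≤ -0.064 := syL_le h 0.36 0.42 0.1886 0.064 0.938 0.93801 0.14293 0.16676 hk1 hk2 (by linarith) (by norm_num) (by norm_num) (by norm_num)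
    (expm_ge (by norm_num) (by norm_num) (by norm_num) (by norm_num)) (expm_le (by norm_num) (by norm_num) (by norm_num)) (by norm_num)
    (by norm_num) (by norm_num) (by norm_num) (by norm_num) (by norm_num) (by norm_num)
  have hy1' : (-0.161) ≤ sy κ t := by linarith
  have hy2' : sy κ t ≤ (-0.064) := by linarith
  have hx1 : 0.3483 ≤ sx κ t := sx_lo h 0.36 (-0.064) 0.1611 1.06609 0.3483 hk1 (by norm_num) hy2' (abs_le.2 ⟨by linarith, by linarith⟩) (ex_lp 0.064 (by norm_num) (by norm_num) (by norm_num)) (by norm_num) (by norm_num)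
  have hx2 : sx κ t ≤ 0.4893 := sx_hi h 0.42 (-0.161) 0.064 1.17469 0.4893 hk2 hy1' (by norm_num) (le_trans (by linarith) (neg_le_abs _)) (ex_up 0.161 (by norm_num) (by norm_num) (by norm_num) (by norm_num)) (by norm_num) (by norm_num)
  refine ⟨⟨hy1', hy2'⟩, ⟨hx1, hx2⟩, v5_n h 0.42 (-0.161) 1.17469 0.4934 hk2 hy1' (ex_up 0.161 (by norm_num) (by norm_num) (by norm_num) (by norm_num)) (by norm_num), ?_, ?_⟩
  · exact v5_Dlo h 0.36 (-0.161) (-0.064) (-0.161) 1.17468 0.8568 (by norm_num) hk1 hy1' hy2' (ex_lp 0.161 (by norm_num) (by norm_num) (by norm_num)) (by norm_num) (by norm_num) (by norm_num) (by norm_num)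
  · exact v5_Dup h 0.42 (-0.161) (-0.064) 1.17469 1.0661 1.0725 hk2 hy1' hy2' (ex_up 0.161 (by norm_num) (by norm_num) (by norm_num) (by norm_num)) (ex_up 0.064 (by norm_num) (by norm_num) (by norm_num) (by norm_num)) (by norm_num) (by norm_num) (by norm_num)

private theorem B5Bo_T62_0_0 {β x y : ℝ} (hβ : 0 < β) (hN : β * 23.809 ≤ 1) (hx1 : 0.3482 ≤ x) (hx2 : x ≤ 0.4894)
    (hy1 : -0.1611 ≤ y) (hy2 : y ≤ -0.0639) : ‖HH β (x + y * I) - 1‖ ≤ 0.03 := by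
  refine le_epsJ (C := 0.4033) (N0 := 23.809) (J_boxp 0.3482 0.4894 0.1611 0 (-0.0639) 0.8408 0.5153 1.0564 1.3332 0.4101 4.8795 23.809 0.6129 2.226 1.315 1.0831 0.4203 0.3345 0.8731 3.3085 0.4361 0.9821 1.8291 4.0077 0.00004513 0.0003489 0.0000003101 0.0000003101 0.00003096 0.0000003101 0.0000003101 0.0000003101 0.4033
    hβ hN hx1 hx2 hy1 hy2 (by norm_num) (by norm_num) (by linarith) (by norm_num) (by norm_num) (by norm_num) (by norm_num) (by norm_num) (by norm_num) (by norm_num) (by norm_num) (by norm_num) (by norm_num) (by norm_num) (by norm_num) (by norm_num) (by norm_num) (by norm_num) (by norm_num) (by norm_num) (by norm_num) (by norm_num) (by norm_num) (by norm_num)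
    (cube_sqrt_geJ (s := 0.892) (by norm_num) (by norm_num) (by norm_num) (by norm_num))
    (cube_sqrt_geJ (s := 0.9617) (by norm_num) (by norm_num) (by norm_num) (by norm_num))
    (by norm_num) (by norm_num) (by norm_num) (by norm_num) (by norm_num) (by norm_num) (by norm_num) (by norm_num) (by norm_num) (by norm_num) (by norm_num) (by norm_num) (by norm_num) (by norm_num) (by norm_num) (by norm_num) (by norm_num) (by norm_num)
    (exp_neg_leJ (r := 0.006) 10 (by norm_num) (by norm_num) (by norm_num) (by norm_num))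
    (exp_neg_leJ (r := 0.964) 7 (by norm_num) (by norm_num) (by norm_num) (by norm_num))
    (exp_neg_leJ (r := 0.99) 14 (by norm_num) (by norm_num) (by norm_num) (by norm_num))
    (exp_neg_leJ (r := 0.99) 14 (by norm_num) (by norm_num) (by norm_num) (by norm_num))
    (exp_neg_leJ (r := 0.383) 10 (by norm_num) (by norm_num) (by norm_num) (by norm_num))
    (exp_neg_leJ (r := 0.99) 14 (by norm_num) (by norm_num) (by norm_num) (by norm_num))
    (exp_neg_leJ (r := 0.99) 14 (by norm_num) (by norm_num) (by norm_num) (by norm_num))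
    (exp_neg_leJ (r := 0.99) 14 (by norm_num) (by norm_num) (by norm_num) (by norm_num))
    (by norm_num)) (by norm_num) hN hβ.le (by norm_num)

private theorem B5Bo_T62 {β x y : ℝ} (hβ : 0 < β) (hN : β * 23.809 ≤ 1) (hx1 : 0.3482 ≤ x) (hx2 : x ≤ 0.4894)
    (hy1 : (-0.1611) ≤ y) (hy2 : y ≤ (-0.0639)) : ‖HH β (x + y * I) - 1‖ ≤ 0.03 := by
  exact B5Bo_T62_0_0 hβ hN (by linarith) (by linarith) (by linarith) (by linarith)

private theorem B5Bo_C63 {β r t κ : ℝ} (hβ : 0 < β) (hr : 10 ≤ r) (hκ : κ = β * r) (hk1 : 0.36 ≤ κ) (hk2 : κ ≤ 0.42) (hta : 2.1366 ≤ t + κ)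
    (htb : t + κ ≤ 2.3247) : ‖F (cexp (I * β)) (r * cexp (I * ((t + β / 2 : ℝ) : ℂ)))‖ ≤
      3.4156 * Real.exp (r * (0.01 + 1 / 20)) :=
  v5_UD 0.36 0.42 2.1366 2.3247 0.01 0.665 0.01 1.7807 3.4156 hβ hr hκ (by norm_num) hk1 hk2 hta htb (by norm_num) (by norm_num) (by norm_num) (by norm_num) (by norm_num) (by norm_num) (by norm_num) (by norm_num) (by norm_num) (by norm_num) (by norm_num)

private theorem B5Bo_C64 {β r t κ : ℝ} (hβ : 0 < β) (hr : 10 ≤ r) (hκ : κ = β * r) (hk1 : 0.36 ≤ κ) (hk2 : κ ≤ 0.42) (hta : (-1.6333) ≤ t + κ)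
    (htb : t + κ ≤ (-1.4452)) : ‖F (cexp (I * β)) (r * cexp (I * ((t + β / 2 : ℝ) : ℂ)))‖ ≤
      1.9656 * Real.exp (r * (1.24184 - (-0.71) * (t + κ))) + 2.169 * Real.exp (r * 0.0501) :=
  v5_HU (-0.71) 0.36 0.42 (-1.6333) (-1.4452) 1.24184 1.9656 1.66727 0.0818 1.2754 2.6586 0 0.0501 0.00000189 2.169 hβ hr hκ (by norm_num) hk1 hk2 hta htb (by norm_num) (by norm_num) (B5Bo_G13 hk1 hk2).1 (B5Bo_G13 hk1 hk2).2 (by norm_num) (by norm_num) (by norm_num)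
    (by norm_num) (by norm_num) (by norm_num) (by norm_num) (by norm_num) (by norm_num) (by norm_num)
    (by norm_num) (by norm_num) (by norm_num) (v5_hump 6.4355 23.809 4.8795 0.0000009316 0.00000189 hβ hr hκ hk1 hk2 (by norm_num) htb (by norm_num) (by norm_num) (by norm_num) (by norm_num) (by norm_num) (by norm_num) (by norm_num) (ex_un 13 0.9 (by norm_num) (by norm_num) (by norm_num) (by norm_num)) (by norm_num)) (by norm_num)

private theorem B5Bo_C65 {β r t κ : ℝ} (hβ : 0 < β) (hr : 10 ≤ r) (hκ : κ = β * r) (hk1 : 0.36 ≤ κ) (hk2 : κ ≤ 0.42) (hta : 3.3932 ≤ t + κ)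
    (htb : t + κ ≤ 3.5813) : ‖F (cexp (I * β)) (r * cexp (I * ((t + β / 2 : ℝ) : ℂ)))‖ ≤
      3.1099 * Real.exp (r * (0.01 + 1 / 20)) :=
  v5_UD 0.36 0.42 3.3932 3.5813 0.01 0.665 0.01 1.6213 3.1099 hβ hr hκ (by norm_num) hk1 hk2 hta htb (by norm_num) (by norm_num) (by norm_num) (by norm_num) (by norm_num) (by norm_num) (by norm_num) (by norm_num) (by norm_num) (by norm_num) (by norm_num)

private theorem B5Bo_Y66 {β r t κ h t' : ℝ} (hβ : 0 < β) (hκ : κ = β * r) (hN : β * 23.809 ≤ 1) (hk1 : 0.36 ≤ κ) (hk2 : κ ≤ 0.42)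
    (ht : t' = t + (((0 : ℤ) : ℝ) - 1) * h) (hD : DomR κ t') (hta : (-0.3767) ≤ t' + κ) (htb : t' + κ ≤ (-0.1886)) :
    0.9531 * Real.exp (r * sE κ t') ≤ ‖Xf β r h t 0‖ := by
  obtain ⟨⟨ya, yb⟩, ⟨xa, xb⟩, n1, Da, Db⟩ := B5Bo_B61 hD hk1 hk2 hta htb
  have J := B5Bo_T62 (x := sx κ t') (y := sy κ t') hβ hN (by linarith only [xa, xb, ya, yb]) (by linarith only [xa, xb, ya, yb]) (by linarith only [xa, xb, ya, yb]) (by linarith only [xa, xb, ya, yb])
  exact v5_Jlo hβ hκ (k := 0) ht hD 0.03 1.0725 0.9531 (by norm_num) J Db (by norm_num)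

private theorem B5Bo_V67 {κ t : ℝ} (hD : DomR κ t) (hk1 : 0.36 ≤ κ) (hk2 : κ ≤ 0.42) (hta : (-0.3767) ≤ t + κ) (htb : t + κ ≤ (-0.1886)) :
    1.03576 + 0.2846 * (t + κ) ≤ sE κ t := by
  have hκ0 : 0 < κ := hD.1
  exact v5_V0 hD 0.36 0.42 (-0.3767) (-0.1886) 0.3768 0.5687 0.15491 0.02159 0.69379 0.37182 1.03576 0.2846 (by norm_num) hk1 hk2 (by norm_num) hta htb (by norm_num) (by norm_num) (by norm_num) ((cup1 0.42 hκ0.le hk2 (by norm_num)).trans (by norm_num))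
      (by norm_num) (by norm_num) (by norm_num) (by norm_num) (by norm_num) (by norm_num) (by norm_num) (by norm_num) (by norm_num) (by norm_num) (by norm_num) (by norm_num) (by norm_num)

private theorem B5Bo_K68 {β r t κ h : ℝ} (hβ : 0 < β) (hr : 10 ≤ r) (hκ : κ = β * r) (hk1 : 0.36 ≤ κ) (hk2 : κ ≤ 0.42)
    (hh : h = 2 * Real.pi / 5) (hh1 : 1.25663 ≤ h) (hh2 : h ≤ 1.25664) (hta : 0.88 ≤ t + κ) (htb : t + κ ≤ 1.068)
    (hY : 0.9531 * Real.exp (r * sE κ (t - h)) ≤ ‖Xf β r h t 0‖) (hV : 1.03576 + 0.2846 * (t - h + κ) ≤ sE κ (t - h)) :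
    ‖Xf β r h t 2‖ ≤ 0.00061 * ‖Xf β r h t 0‖ := by
  rw [v5_X 2 1 (by push_cast; ring)]
  exact v5_cmp0 0.8685 0.0001701 0.00061 hr (B5Bo_C63 (t := t + 1 * h) hβ hr hκ hk1 hk2 (by linarith only [hta, htb, hh1, hh2]) (by linarith only [hta, htb, hh1, hh2])) hY (by norm_num) (by norm_num) (by norm_num) (by linarith only [hV, hta, htb, hh1, hh2]) (ex_un 8 0.6849 (by norm_num) (by norm_num) (by norm_num) (by norm_num)) (by norm_num)

private theorem B5Bo_K69 {β r t κ h : ℝ} (hβ : 0 < β) (hr : 10 ≤ r) (hκ : κ = β * r) (hk1 : 0.36 ≤ κ) (hk2 : κ ≤ 0.42)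
    (hh : h = 2 * Real.pi / 5) (hh1 : 1.25663 ≤ h) (hh2 : h ≤ 1.25664) (hta : 0.88 ≤ t + κ) (htb : t + κ ≤ 1.068)
    (hY : 0.9531 * Real.exp (r * sE κ (t - h)) ≤ ‖Xf β r h t 0‖) (hV : 1.03576 + 0.2846 * (t - h + κ) ≤ sE κ (t - h)) :
    ‖Xf β r h t (-1)‖ ≤ 0.00133 * ‖Xf β r h t 0‖ := by
  rw [v5_X (-1) (-2) (by push_cast; ring)]
  exact v5_cmp 0.7663 0.0004722 0.000974 0.8784 0.0001545 0.000352 0.00133 hr (B5Bo_C64 (t := t + (-2) * h) hβ hr hκ hk1 hk2 (by linarith only [hta, htb, hh1, hh2]) (by linarith only [hta, htb, hh1, hh2])) hY (by norm_num) (by norm_num) (by norm_num) (by norm_num) (by linarith only [hV, hta, htb, hh1, hh2]) (ex_un 7 0.6629 (by norm_num) (by norm_num) (by norm_num) (by norm_num)) (by norm_num) (by norm_num) (by linarith only [hV, hta, htb, hh1, hh2]) (ex_un 8 0.7839 (by norm_num) (by norm_num) (by norm_num) (by norm_num)) (by norm_num) (by norm_num)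

private theorem B5Bo_K70 {β r t κ h : ℝ} (hβ : 0 < β) (hr : 10 ≤ r) (hκ : κ = β * r) (hk1 : 0.36 ≤ κ) (hk2 : κ ≤ 0.42)
    (hh : h = 2 * Real.pi / 5) (hh1 : 1.25663 ≤ h) (hh2 : h ≤ 1.25664) (hta : 0.88 ≤ t + κ) (htb : t + κ ≤ 1.068)
    (hY : 0.9531 * Real.exp (r * sE κ (t - h)) ≤ ‖Xf β r h t 0‖) (hV : 1.03576 + 0.2846 * (t - h + κ) ≤ sE κ (t - h)) :
    ‖Xf β r h t (-2)‖ ≤ 0.000556 * ‖Xf β r h t 0‖ := by
  rw [v5_Xm2 hh]
  exact v5_cmp0 0.8685 0.0001701 0.000556 hr (B5Bo_C65 (t := t + 2 * h) hβ hr hκ hk1 hk2 (by linarith only [hta, htb, hh1, hh2]) (by linarith only [hta, htb, hh1, hh2])) hY (by norm_num) (by norm_num) (by norm_num) (by linarith only [hV, hta, htb, hh1, hh2]) (ex_un 8 0.6849 (by norm_num) (by norm_num) (by norm_num) (by norm_num)) (by norm_num)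

private theorem B5Bo_G71 {κ : ℝ} (hk1 : 0.36 ≤ κ) (hk2 : κ ≤ 0.42) : gG κ 0.48 ≤ 1.16541 ∧ 0.66817 ≤ Real.exp (-(κ * 0.48)) ^ 2 := by
  refine ⟨gG_le 0.48 0.36 0.42 1.16541 0.84131 0.81743 1.18863 1.22336 hk1 hk2 (by norm_num)
    (ex_um 0.1728 (by norm_num) (by norm_num) (by norm_num) (by norm_num)) (ex_um 0.2016 (by norm_num) (by norm_num) (by norm_num) (by norm_num))
    (ex_up 0.1728 (by norm_num) (by norm_num) (by norm_num) (by norm_num)) (ex_up 0.2016 (by norm_num) (by norm_num) (by norm_num) (by norm_num))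
    (by norm_num) (by norm_num), ?_⟩
  exact v5_M 0.81742 (ex_lm 0.2016 (by linarith) (by norm_num) (by norm_num) (by norm_num) (by norm_num)) (by norm_num) (by norm_num)

private theorem B5Bo_C72 {β r t κ : ℝ} (hβ : 0 < β) (hr : 10 ≤ r) (hκ : κ = β * r) (hk1 : 0.36 ≤ κ) (hk2 : κ ≤ 0.42) (hta : 0.8799 ≤ t + κ)
    (htb : t + κ ≤ 1.0681) : ‖F (cexp (I * β)) (r * cexp (I * ((t + β / 2 : ℝ) : ℂ)))‖ ≤
      2.5212 * Real.exp (r * (1.16541 - 0.48 * (t + κ))) + 0.1221 * Real.exp (r * 0) :=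
  v5_H 0.48 0.36 0.42 0.8799 1.0681 1.16541 2.5095 0.66817 0.0818 2.0305 0.8625 0.20982 0.1227 0.00000189 2.5212 0.1221 hβ hr hκ (by norm_num) hk1 hk2 hta htb (by norm_num) (B5Bo_G71 hk1 hk2).1 (B5Bo_G71 hk1 hk2).2 (by norm_num) (by norm_num) (by norm_num)
    (by norm_num) (by norm_num) (by norm_num) (by norm_num) (by norm_num) (by norm_num) (by norm_num) (by norm_num) (ex_un 2 0.0981 (by norm_num) (by norm_num) (by norm_num) (by norm_num))
    (v5_hump 3.9222 23.809 4.8795 0.0000009316 0.00000189 hβ hr hκ hk1 hk2 (by norm_num) htb (by norm_num) (by norm_num) (by norm_num) (by norm_num) (by norm_num) (by norm_num) (by norm_num) (ex_un 13 0.9 (by norm_num) (by norm_num) (by norm_num) (by norm_num)) (by norm_num)) (by norm_num) (by norm_num)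

private theorem B5Bo_K73 {β r t κ h : ℝ} (hβ : 0 < β) (hr : 10 ≤ r) (hκ : κ = β * r) (hk1 : 0.36 ≤ κ) (hk2 : κ ≤ 0.42)
    (hh : h = 2 * Real.pi / 5) (hh1 : 1.25663 ≤ h) (hh2 : h ≤ 1.25664) (hta : 0.88 ≤ t + κ) (htb : t + κ ≤ 1.068)
    (hY : 0.9531 * Real.exp (r * sE κ (t - h)) ≤ ‖Xf β r h t 0‖) (hV : 1.03576 + 0.2846 * (t - h + κ) ≤ sE κ (t - h)) :
    ‖Xf β r h t 1‖ ≤ 0.42 * ‖Xf β r h t 0‖ := by
  rw [v5_X 1 0 (by push_cast; ring)]
  exact v5_cmp 0.1855 0.1583 0.419 0.9285 0.00009284 0.0000119 0.42 hr (B5Bo_C72 (t := t + 0 * h) hβ hr hκ hk1 hk2 (by linarith only [hta, htb, hh1, hh2]) (by linarith only [hta, htb, hh1, hh2])) hY (by norm_num) (by norm_num) (by norm_num) (by norm_num) (by linarith only [hV, hta, htb, hh1, hh2]) (ex_un 1 0.8549 (by norm_num) (by norm_num) (by norm_num) (by norm_num)) (by norm_num) (by norm_num) (by linarith only [hV, hta, htb, hh1, hh2]) (ex_un 9 0.2849 (by norm_num)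 (by norm_num) (by norm_num) (by norm_num)) (by norm_num) (by norm_num)

private theorem B5Bo_O74 {β r t κ h : ℝ} (hβ : 0 < β) (hr : 10 ≤ r) (hκ : κ = β * r) (hk1 : 0.36 ≤ κ) (hk2 : κ ≤ 0.42)
    (hh : h = 2 * Real.pi / 5) (hta : 0.88 ≤ t + κ) (htb : t + κ ≤ 1.068) :
    ‖Xf β r h t (-2)‖ + ‖Xf β r h t (-1)‖ + ‖Xf β r h t 2‖ < |‖Xf β r h t 1‖ - ‖Xf β r h t 0‖| := by
  obtain ⟨hh1, hh2⟩ := v5_h hh
  have hκ0 : 0 < κ := by linarith only [hk1]
  have hN : β * 23.809 ≤ 1 := v5_hN 0.42 23.809 hβ hr hκ hk2 (by norm_num) (by norm_num)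
  have hD1 : DomR κ t := v5_dom hκ0 (by linarith only [hta, htb, hk1, hk2, hh1, hh2]) (Or.inr (by linarith only [hta, htb, hk1, hk2, hh1, hh2]))
  have hD0 : DomR κ (t - h) := v5_dom hκ0 (by linarith only [hta, htb, hk1, hk2, hh1, hh2]) (Or.inr (by linarith only [hta, htb, hk1, hk2, hh1, hh2]))
  have h0a : (-0.3767) ≤ t - h + κ := by linarith only [hta, htb, hh1, hh2]
  have h0b : t - h + κ ≤ (-0.1886) := by linarith only [hta, htb, hh1, hh2]
  have e0 : t - h = t + (((0 : ℤ) : ℝ) - 1) * h := by push_cast; ring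
  have hY := B5Bo_Y66 (h := h) hβ hκ hN hk1 hk2 e0 hD0 h0a h0b
  have hV := B5Bo_V67 hD0 hk1 hk2 h0a h0b
  have cp2 := B5Bo_K68 hβ hr hκ hk1 hk2 hh hh1 hh2 hta htb hY hV
  have cm1 := B5Bo_K69 hβ hr hκ hk1 hk2 hh hh1 hh2 hta htb hY hV
  have cm2 := B5Bo_K70 hβ hr hκ hk1 hk2 hh hh1 hh2 hta htb hY hV
  have cn1 := B5Bo_K73 hβ hr hκ hk1 hk2 hh hh1 hh2 hta htb hY hV
  have hp : 0 < ‖Xf β r h t 0‖ := lt_of_lt_of_le (by positivity) hY
  exact v5_out0 _ _ _ _ cm2 cm1 cp2 cn1 hp (by norm_num)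

private theorem B5Bo_B75 {κ t : ℝ} (h : DomR κ t) (hk1 : 0.36 ≤ κ) (hk2 : κ ≤ 0.42) (ht1 : (-0.1887) ≤ t + κ) (ht2 : t + κ ≤ 0.0629) :
    ((-0.074) ≤ sy κ t ∧ sy κ t ≤ 0.022) ∧ (0.3442 ≤ sx κ t ∧ sx κ t ≤ 0.4523) ∧ κ * Real.exp (-sy κ t) ≤ 0.4523 ∧ 1.0022 ≤ sD κ t ∧ sD κ t ≤ 1.2129 := by
  have hy1 : -0.074 ≤ sy κ t := syL_ge h 0.36 0.42 0.1887 0.074 0.92867 0.92868 0.1567 0.16362 0.1909 hk1 hk2 (by linarith) (by norm_num) (by norm_num) (by norm_num)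
    (expm_ge (by norm_num) (by norm_num) (by norm_num) (by norm_num)) (expm_le (by norm_num) (by norm_num) (by norm_num)) (by norm_num)
    (by norm_num) (by norm_num) (by norm_num) (by norm_num) (by norm_num) (by norm_num)
  have hy2 : sy κ t ≤ 0.022 := syR_le h 0.36 0.42 0.0629 0.022 1.02224 0.0513 0.05354 0.06248 hk1 hk2 (by linarith) (by norm_num) (by norm_num)
    (expn_ge (by norm_num) (by norm_num)) (by norm_num) (by norm_num) (Or.inr ((mul_le_mul_of_nonneg_left (expn_le (E := 1.02225) (by norm_num) (by norm_num) (by norm_num)) (by norm_num)).trans (by norm_num))) (by norm_num) (by norm_num) (by norm_num)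
  have hy1' : (-0.074) ≤ sy κ t := by linarith
  have hy2' : sy κ t ≤ 0.022 := by linarith
  have hx1 : 0.3442 ≤ sx κ t := sx_lo h 0.36 0.022 0.0741 0.97824 0.3442 hk1 (by norm_num) hy2' (abs_le.2 ⟨by linarith, by linarith⟩) (ex_lm 0.022 (by norm_num) (by norm_num) (by norm_num) (by norm_num) (by norm_num)) (by norm_num) (by norm_num)
  have hx2 : sx κ t ≤ 0.4523 := sx_hi h 0.42 (-0.074) 0 1.07681 0.4523 hk2 hy1' (by norm_num) (abs_nonneg _) (ex_up 0.074 (by norm_num) (by norm_num) (by norm_num) (by norm_num)) (by norm_num) (by norm_num)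
  refine ⟨⟨hy1', hy2'⟩, ⟨hx1, hx2⟩, v5_n h 0.42 (-0.074) 1.07681 0.4523 hk2 hy1' (ex_up 0.074 (by norm_num) (by norm_num) (by norm_num) (by norm_num)) (by norm_num), ?_, ?_⟩
  · exact v5_Dlo h 0.36 (-0.074) 0.022 (-0.074) 1.0768 1.0022 (by norm_num) hk1 hy1' hy2' (ex_lp 0.074 (by norm_num) (by norm_num) (by norm_num)) (by norm_num) (by norm_num) (by norm_num) (by norm_num)
  · exact v5_Dup h 0.42 (-0.074) 0.022 1.07681 0.97825 1.2129 hk2 hy1' hy2' (ex_up 0.074 (by norm_num) (by norm_num) (by norm_num) (by norm_num)) (ex_um 0.022 (by norm_num) (by norm_num) (by norm_num) (by norm_num)) (by norm_num) (by norm_num) (by norm_num)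

private theorem B5Bo_T76_0_0 {β x y : ℝ} (hβ : 0 < β) (hN : β * 23.809 ≤ 1) (hx1 : 0.3441 ≤ x) (hx2 : x ≤ 0.4524)
    (hy1 : -0.0741 ≤ y) (hy2 : y ≤ 0.0221) : ‖HH β (x + y * I) - 1‖ ≤ 0.03 := by
  refine le_epsJ (C := 0.2579) (N0 := 23.809) (J_boxp 0.3441 0.4524 0.0741 0.0221 0.0221 0.8997 0.4585 1.1178 1.2389 0.4218 4.8795 23.809 0.5097 1.92 1.254 1.1777 0.4498 0.3734 1.0091 3.6083 0.4794 0.9741 1.9626 4.0498 0.00002237 0.0001381 0.0000003101 0.0000003101 0.00001105 0.0000003101 0.0000003101 0.0000003101 0.2579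
    hβ hN hx1 hx2 hy1 hy2 (by norm_num) (by norm_num) (by linarith) (by norm_num) (by norm_num) (by norm_num) (by norm_num) (by norm_num) (by norm_num) (by norm_num) (by norm_num) (by norm_num) (by norm_num) (by norm_num) (by norm_num) (by norm_num) (by norm_num) (by norm_num) (by norm_num) (by norm_num) (by norm_num) (by norm_num) (by norm_num) (by norm_num)
    (cube_sqrt_geJ (s := 0.911) (by norm_num) (by norm_num) (by norm_num) (by norm_num))
    (cube_sqrt_geJ (s := 0.9682) (by norm_num) (by norm_num) (by norm_num) (by norm_num))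
    (by norm_num) (by norm_num) (by norm_num) (by norm_num) (by norm_num) (by norm_num) (by norm_num) (by norm_num) (by norm_num) (by norm_num) (by norm_num) (by norm_num) (by norm_num) (by norm_num) (by norm_num) (by norm_num) (by norm_num) (by norm_num)
    (exp_neg_leJ (r := 0.709) 10 (by norm_num) (by norm_num) (by norm_num) (by norm_num))
    (exp_neg_leJ (r := 0.89) 8 (by norm_num) (by norm_num) (by norm_num) (by norm_num))
    (exp_neg_leJ (r := 0.99) 14 (by norm_num) (by norm_num) (by norm_num) (by norm_num))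
    (exp_neg_leJ (r := 0.99) 14 (by norm_num) (by norm_num) (by norm_num) (by norm_num))
    (exp_neg_leJ (r := 0.414) 11 (by norm_num) (by norm_num) (by norm_num) (by norm_num))
    (exp_neg_leJ (r := 0.99) 14 (by norm_num) (by norm_num) (by norm_num) (by norm_num))
    (exp_neg_leJ (r := 0.99) 14 (by norm_num) (by norm_num) (by norm_num) (by norm_num))
    (exp_neg_leJ (r := 0.99) 14 (by norm_num) (by norm_num) (by norm_num) (by norm_num))
    (by norm_num)) (by norm_num) hN hβ.le (by norm_num)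

private theorem B5Bo_T76 {β x y : ℝ} (hβ : 0 < β) (hN : β * 23.809 ≤ 1) (hx1 : 0.3441 ≤ x) (hx2 : x ≤ 0.4524)
    (hy1 : (-0.0741) ≤ y) (hy2 : y ≤ 0.0221) : ‖HH β (x + y * I) - 1‖ ≤ 0.03 := by
  exact B5Bo_T76_0_0 hβ hN (by linarith) (by linarith) (by linarith) (by linarith)

private theorem B5Bo_C77 {β r t κ : ℝ} (hβ : 0 < β) (hr : 10 ≤ r) (hκ : κ = β * r) (hk1 : 0.36 ≤ κ) (hk2 : κ ≤ 0.42) (hta : 2.3246 ≤ t + κ)
    (htb : t + κ ≤ 2.5762) : ‖F (cexp (I * β)) (r * cexp (I * ((t + β / 2 : ℝ) : ℂ)))‖ ≤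
      3.2276 * Real.exp (r * (0.01 + 1 / 20)) :=
  v5_UD 0.36 0.42 2.3246 2.5762 0.01 0.665 0.01 1.6827 3.2276 hβ hr hκ (by norm_num) hk1 hk2 hta htb (by norm_num) (by norm_num) (by norm_num) (by norm_num) (by norm_num) (by norm_num) (by norm_num) (by norm_num) (by norm_num) (by norm_num) (by norm_num)

private theorem B5Bo_C78 {β r t κ : ℝ} (hβ : 0 < β) (hr : 10 ≤ r) (hκ : κ = β * r) (hk1 : 0.36 ≤ κ) (hk2 : κ ≤ 0.42) (hta : (-1.4453) ≤ t + κ)
    (htb : t + κ ≤ (-1.1937)) : ‖F (cexp (I * β)) (r * cexp (I * ((t + β / 2 : ℝ) : ℂ)))‖ ≤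
      1.9656 * Real.exp (r * (1.24184 - (-0.71) * (t + κ))) + 2.167 * Real.exp (r * 0.0623) :=
  v5_HU (-0.71) 0.36 0.42 (-1.4453) (-1.1937) 1.24184 1.9656 1.66727 0.0818 1.2754 2.8466 0.0172 0.0623 0.00000189 2.167 hβ hr hκ (by norm_num) hk1 hk2 hta htb (by norm_num) (by norm_num) (B5Bo_G13 hk1 hk2).1 (B5Bo_G13 hk1 hk2).2 (by norm_num) (by norm_num) (by norm_num)
    (by norm_num) (by norm_num) (by norm_num) (by norm_num) (by norm_num) (by norm_num) (by norm_num)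
    (by norm_num) (by norm_num) (by norm_num) (v5_hump 6.184 23.809 4.8795 0.0000009316 0.00000189 hβ hr hκ hk1 hk2 (by norm_num) htb (by norm_num) (by norm_num) (by norm_num) (by norm_num) (by norm_num) (by norm_num) (by norm_num) (ex_un 13 0.9 (by norm_num) (by norm_num) (by norm_num) (by norm_num)) (by norm_num)) (by norm_num)

private theorem B5Bo_C79 {β r t κ : ℝ} (hβ : 0 < β) (hr : 10 ≤ r) (hκ : κ = β * r) (hk1 : 0.36 ≤ κ) (hk2 : κ ≤ 0.42) (hta : 3.5812 ≤ t + κ)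
    (htb : t + κ ≤ 3.8328) : ‖F (cexp (I * β)) (r * cexp (I * ((t + β / 2 : ℝ) : ℂ)))‖ ≤
      3.1053 * Real.exp (r * (0.01 + 1 / 20)) :=
  v5_UD 0.36 0.42 3.5812 3.8328 0.01 0.665 0.01 1.6189 3.1053 hβ hr hκ (by norm_num) hk1 hk2 hta htb (by norm_num) (by norm_num) (by norm_num) (by norm_num) (by norm_num) (by norm_num) (by norm_num) (by norm_num) (by norm_num) (by norm_num) (by norm_num)

private theorem B5Bo_Y80 {β r t κ h t' : ℝ} (hβ : 0 < β) (hκ : κ = β * r) (hN : β * 23.809 ≤ 1) (hk1 : 0.36 ≤ κ) (hk2 : κ ≤ 0.42)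
    (ht : t' = t + (((0 : ℤ) : ℝ) - 1) * h) (hD : DomR κ t') (hta : (-0.1887) ≤ t' + κ) (htb : t' + κ ≤ 0.0629) :
    0.9243 * Real.exp (r * sE κ t') ≤ ‖Xf β r h t 0‖ := by
  obtain ⟨⟨ya, yb⟩, ⟨xa, xb⟩, n1, Da, Db⟩ := B5Bo_B75 hD hk1 hk2 hta htb
  have J := B5Bo_T76 (x := sx κ t') (y := sy κ t') hβ hN (by linarith only [xa, xb, ya, yb]) (by linarith only [xa, xb, ya, yb]) (by linarith only [xa, xb, ya, yb]) (by linarith only [xa, xb, ya, yb])
  exact v5_Jlo hβ hκ (k := 0) ht hD 0.03 1.2129 0.9243 (by norm_num) J Db (by norm_num)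

private theorem B5Bo_V81 {κ t : ℝ} (hD : DomR κ t) (hk1 : 0.36 ≤ κ) (hk2 : κ ≤ 0.42) (hta : (-0.1887) ≤ t + κ) (htb : t + κ ≤ 0.0629) :
    0.99441 + 0.0592 * (t + κ) ≤ sE κ t := by
  have hκ0 : 0 < κ := hD.1
  exact v5_V0 hD 0.36 0.42 (-0.1887) 0.0629 0.1888 0.5316 0.15491 0.02159 0.69379 0.37182 0.99441 0.0592 (by norm_num) hk1 hk2 (by norm_num) hta htb (by norm_num) (by norm_num) (by norm_num) ((cup1 0.42 hκ0.le hk2 (by norm_num)).trans (by norm_num))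
      (by norm_num) (by norm_num) (by norm_num) (by norm_num) (by norm_num) (by norm_num) (by norm_num) (by norm_num) (by norm_num) (by norm_num) (by norm_num) (by norm_num) (by norm_num)

private theorem B5Bo_K82 {β r t κ h : ℝ} (hβ : 0 < β) (hr : 10 ≤ r) (hκ : κ = β * r) (hk1 : 0.36 ≤ κ) (hk2 : κ ≤ 0.42)
    (hh : h = 2 * Real.pi / 5) (hh1 : 1.25663 ≤ h) (hh2 : h ≤ 1.25664) (hta : 1.068 ≤ t + κ) (htb : t + κ ≤ 1.3195)
    (hY : 0.9243 * Real.exp (r * sE κ (t - h)) ≤ ‖Xf β r h t 0‖) (hV : 0.99441 + 0.0592 * (t - h + κ) ≤ sE κ (t - h)) :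
    ‖Xf β r h t 2‖ ≤ 0.000342 * ‖Xf β r h t 0‖ := by
  rw [v5_X 2 1 (by push_cast; ring)]
  exact v5_cmp0 0.9232 0.00009788 0.000342 hr (B5Bo_C77 (t := t + 1 * h) hβ hr hκ hk1 hk2 (by linarith only [hta, htb, hh1, hh2]) (by linarith only [hta, htb, hh1, hh2])) hY (by norm_num) (by norm_num) (by norm_num) (by linarith only [hV, hta, htb, hh1, hh2]) (ex_un 9 0.2319 (by norm_num) (by norm_num) (by norm_num) (by norm_num)) (by norm_num)

private theorem B5Bo_K83 {β r t κ h : ℝ} (hβ : 0 < β) (hr : 10 ≤ r) (hκ : κ = β * r) (hk1 : 0.36 ≤ κ) (hk2 : κ ≤ 0.42)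
    (hh : h = 2 * Real.pi / 5) (hh1 : 1.25663 ≤ h) (hh2 : h ≤ 1.25664) (hta : 1.068 ≤ t + κ) (htb : t + κ ≤ 1.3195)
    (hY : 0.9243 * Real.exp (r * sE κ (t - h)) ≤ ‖Xf β r h t 0‖) (hV : 0.99441 + 0.0592 * (t - h + κ) ≤ sE κ (t - h)) :
    ‖Xf β r h t (-1)‖ ≤ 0.00532 * ‖Xf β r h t 0‖ := by
  rw [v5_X (-1) (-2) (by push_cast; ring)]
  exact v5_cmp 0.6038 0.002387 0.00508 0.9209 0.0001002 0.000235 0.00532 hr (B5Bo_C78 (t := t + (-2) * h) hβ hr hκ hk1 hk2 (by linarith only [hta, htb, hh1, hh2]) (by linarith only [hta, htb, hh1, hh2])) hY (by norm_num) (by norm_num) (by norm_num) (by norm_num) (by linarith only [hV, hta, htb, hh1, hh2]) (ex_un 6 0.0379 (by norm_num) (by norm_num) (by norm_num) (by norm_num)) (by norm_num) (by norm_num) (by linarith only [hV, hta, htb, hh1, hh2]) (ex_un 9 0.2089 (by norm_num) (by norm_num) (by norm_num) (by norm_num)) (by norm_num) (by norm_num)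

private theorem B5Bo_K84 {β r t κ h : ℝ} (hβ : 0 < β) (hr : 10 ≤ r) (hκ : κ = β * r) (hk1 : 0.36 ≤ κ) (hk2 : κ ≤ 0.42)
    (hh : h = 2 * Real.pi / 5) (hh1 : 1.25663 ≤ h) (hh2 : h ≤ 1.25664) (hta : 1.068 ≤ t + κ) (htb : t + κ ≤ 1.3195)
    (hY : 0.9243 * Real.exp (r * sE κ (t - h)) ≤ ‖Xf β r h t 0‖) (hV : 0.99441 + 0.0592 * (t - h + κ) ≤ sE κ (t - h)) :
    ‖Xf β r h t (-2)‖ ≤ 0.000329 * ‖Xf β r h t 0‖ := by
  rw [v5_Xm2 hh]
  exact v5_cmp0 0.9232 0.00009788 0.000329 hr (B5Bo_C79 (t := t + 2 * h) hβ hr hκ hk1 hk2 (by linarith only [hta, htb, hh1, hh2]) (by linarith only [hta, htb, hh1, hh2])) hY (by norm_num) (by norm_num) (by norm_num) (by linarith only [hV, hta, htb, hh1, hh2]) (ex_un 9 0.2319 (by norm_num) (by norm_num) (by norm_num) (by norm_num)) (by norm_num)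

private theorem B5Bo_G85 {κ : ℝ} (hk1 : 0.36 ≤ κ) (hk2 : κ ≤ 0.42) : gG κ 0.54 ≤ 1.21702 ∧ 0.63533 ≤ Real.exp (-(κ * 0.54)) ^ 2 := by
  refine ⟨gG_le 0.54 0.36 0.42 1.21702 0.82333 0.79709 1.21459 1.25458 hk1 hk2 (by norm_num)
    (ex_um 0.1944 (by norm_num) (by norm_num) (by norm_num) (by norm_num)) (ex_um 0.2268 (by norm_num) (by norm_num) (by norm_num) (by norm_num))
    (ex_up 0.1944 (by norm_num) (by norm_num) (by norm_num) (by norm_num)) (ex_up 0.2268 (by norm_num) (by norm_num) (by norm_num) (by norm_num))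
    (by norm_num) (by norm_num), ?_⟩
  exact v5_M 0.79708 (ex_lm 0.2268 (by linarith) (by norm_num) (by norm_num) (by norm_num) (by norm_num)) (by norm_num) (by norm_num)

private theorem B5Bo_C86 {β r t κ : ℝ} (hβ : 0 < β) (hr : 10 ≤ r) (hκ : κ = β * r) (hk1 : 0.36 ≤ κ) (hk2 : κ ≤ 0.42) (hta : 1.0679 ≤ t + κ)
    (htb : t + κ ≤ 1.3196) : ‖F (cexp (I * β)) (r * cexp (I * ((t + β / 2 : ℝ) : ℂ)))‖ ≤
      2.6984 * Real.exp (r * (1.21702 - 0.54 * (t + κ))) + 0.1187 * Real.exp (r * 0) :=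
  v5_H 0.54 0.36 0.42 1.0679 1.3196 1.21702 2.6659 0.63533 0.0818 2.2185 0.611 0.14198 0.2421 0.00000189 2.6984 0.1187 hβ hr hκ (by norm_num) hk1 hk2 hta htb (by norm_num) (B5Bo_G85 hk1 hk2).1 (B5Bo_G85 hk1 hk2).2 (by norm_num) (by norm_num) (by norm_num)
    (by norm_num) (by norm_num) (by norm_num) (by norm_num) (by norm_num) (by norm_num) (by norm_num) (by norm_num) (ex_un 1 0.4197 (by norm_num) (by norm_num) (by norm_num) (by norm_num))
    (v5_hump 3.6707 23.809 4.8795 0.0000009316 0.00000189 hβ hr hκ hk1 hk2 (by norm_num) htb (by norm_num) (by norm_num) (by norm_num) (by norm_num) (by norm_num) (by norm_num) (by norm_num) (ex_un 13 0.9 (by norm_num) (by norm_num) (by norm_num) (by norm_num)) (by norm_num)) (by norm_num) (by norm_num)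

private theorem B5Bo_K87 {β r t κ h : ℝ} (hβ : 0 < β) (hr : 10 ≤ r) (hκ : κ = β * r) (hk1 : 0.36 ≤ κ) (hk2 : κ ≤ 0.42)
    (hh : h = 2 * Real.pi / 5) (hh1 : 1.25663 ≤ h) (hh2 : h ≤ 1.25664) (hta : 1.068 ≤ t + κ) (htb : t + κ ≤ 1.3195)
    (hY : 0.9243 * Real.exp (r * sE κ (t - h)) ≤ ‖Xf β r h t 0‖) (hV : 0.99441 + 0.0592 * (t - h + κ) ≤ sE κ (t - h)) :
    ‖Xf β r h t 1‖ ≤ 0.0949 * ‖Xf β r h t 0‖ := by
  rw [v5_X 1 0 (by push_cast; ring)]
  exact v5_cmp 0.3429 0.03246 0.0948 0.9832 0.00005428 0.00000698 0.0949 hr (B5Bo_C86 (t := t + 0 * h) hβ hr hκ hk1 hk2 (by linarith only [hta, htb, hh1, hh2]) (by linarith only [hta, htb, hh1, hh2])) hY (by norm_num) (by norm_num) (by norm_num) (by norm_num) (by linarith only [hV, hta, htb, hh1, hh2]) (ex_un 3 0.4289 (by norm_num) (by norm_num) (by norm_num) (by norm_num)) (by norm_num) (by norm_num) (by linarith only [hV, hta, htb, hh1, hh2]) (ex_un 9 0.8319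 (by norm_num) (by norm_num) (by norm_num) (by norm_num)) (by norm_num) (by norm_num)

private theorem B5Bo_O88 {β r t κ h : ℝ} (hβ : 0 < β) (hr : 10 ≤ r) (hκ : κ = β * r) (hk1 : 0.36 ≤ κ) (hk2 : κ ≤ 0.42)
    (hh : h = 2 * Real.pi / 5) (hta : 1.068 ≤ t + κ) (htb : t + κ ≤ 1.3195) :
    ‖Xf β r h t (-2)‖ + ‖Xf β r h t (-1)‖ + ‖Xf β r h t 2‖ < |‖Xf β r h t 1‖ - ‖Xf β r h t 0‖| := by
  obtain ⟨hh1, hh2⟩ := v5_h hh
  have hκ0 : 0 < κ := by linarith only [hk1]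
  have hN : β * 23.809 ≤ 1 := v5_hN 0.42 23.809 hβ hr hκ hk2 (by norm_num) (by norm_num)
  have hD1 : DomR κ t := v5_dom hκ0 (by linarith only [hta, htb, hk1, hk2, hh1, hh2]) (Or.inr (by linarith only [hta, htb, hk1, hk2, hh1, hh2]))
  have hD0 : DomR κ (t - h) := v5_dom hκ0 (by linarith only [hta, htb, hk1, hk2, hh1, hh2]) (Or.inr (by linarith only [hta, htb, hk1, hk2, hh1, hh2]))
  have h0a : (-0.1887) ≤ t - h + κ := by linarith only [hta, htb, hh1, hh2]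
  have h0b : t - h + κ ≤ 0.0629 := by linarith only [hta, htb, hh1, hh2]
  have e0 : t - h = t + (((0 : ℤ) : ℝ) - 1) * h := by push_cast; ring
  have hY := B5Bo_Y80 (h := h) hβ hκ hN hk1 hk2 e0 hD0 h0a h0b
  have hV := B5Bo_V81 hD0 hk1 hk2 h0a h0b
  have cp2 := B5Bo_K82 hβ hr hκ hk1 hk2 hh hh1 hh2 hta htb hY hV
  have cm1 := B5Bo_K83 hβ hr hκ hk1 hk2 hh hh1 hh2 hta htb hY hV
  have cm2 := B5Bo_K84 hβ hr hκ hk1 hk2 hh hh1 hh2 hta htb hY hV
  have cn1 := B5Bo_K87 hβ hr hκ hk1 hk2 hh hh1 hh2 hta htb hY hV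
  have hp : 0 < ‖Xf β r h t 0‖ := lt_of_lt_of_le (by positivity) hY
  exact v5_out0 _ _ _ _ cm2 cm1 cp2 cn1 hp (by norm_num)

theorem R1_b5_B {p : ℤ} {β r : ℝ} (hp : IsCoprime (5 : ℤ) p) (hr : 10 ≤ r) (hβ : 0 < β) (hk1 : 0.36 ≤ β * r)
    (hk2 : β * r ≤ 0.42) : Circ (2 * Real.pi * p / 5 + β) r := by
  obtain ⟨h, hh⟩ : ∃ h : ℝ, h = 2 * Real.pi / 5 := ⟨_, rfl⟩
  obtain ⟨hh1, hh2⟩ := v5_h hh
  obtain ⟨κ, hκ⟩ : ∃ κ, κ = β * r := ⟨_, rfl⟩
  rw [← hκ] at hk1 hk2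
  refine v5_circ (κ := κ) hp hr hh 0.45 0.61 1.03 0.027 0.0197 0.00302 0.00421 0.0682 0.0146 0.028 0.7241 ?_ ?_ (by norm_num) (by norm_num) (by norm_num) (by norm_num) (by norm_num) (by norm_num) (by norm_num) (by norm_num) (by norm_num) (by norm_num)
  · intro t g1 g2
    rcases le_total (t + κ) 0.666 with g3 | g3
    · exact B5Bw_W21 hβ hr hκ hk1 hk2 hh (by linarith) (by linarith)
    exact B5Bw_W41 hβ hr hκ hk1 hk2 hh (by linarith) (by linarith)
  · intro t g1 g2 g3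
    rcases g3 with g3 | g3
    · rcases le_total (t + κ) 0.251 with g4 | g4
      · exact B5Bo_O16 hβ hr hκ hk1 hk2 hh (by linarith) (by linarith)
      rcases le_total (t + κ) 0.415 with g4 | g4
      · exact B5Bo_O30 hβ hr hκ hk1 hk2 hh (by linarith) (by linarith)
      exact B5Bo_O44 hβ hr hκ hk1 hk2 hh (by linarith) (by linarith)
    · rcases le_total (t + κ) 0.88 with g4 | g4
      · exact B5Bo_O60 hβ hr hκ hk1 hk2 hh (by linarith) (by linarith)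
      rcases le_total (t + κ) 1.068 with g4 | g4
      · exact B5Bo_O74 hβ hr hκ hk1 hk2 hh (by linarith) (by linarith)
      exact B5Bo_O88 hβ hr hκ hk1 hk2 hh (by linarith) (by linarith)

end Sok
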