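import Pool.Agent.Lib.MP_816dec_an.R1b5WC

/-!
MP_816dec_an (A3, row R1), SINGLE CASE `b = 5`, `r ≥ 10`, `0.42 ≤ κ ≤ 0.5`: outside the window, assembly (generated file).
-/

set_option autoImplicit false
set_option linter.unusedVariables false

open Complex Set Filter Topology Metric

namespace Sok

private theorem B5Co_B1 {κ t : ℝ} (h : DomR κ t) (hk1 : 0.42 ≤ κ) (hk2 : κ ≤ 0.5) (ht1 : 0.0628 ≤ t + κ) (ht2 : t + κ ≤ 0.251) :
    (0.021 ≤ sy κ t ∧ sy κ t ≤ 0.091) ∧ (0.3724 ≤ sx κ t ∧ sx κ t ≤ 0.4892) ∧ κ * Real.exp (-sy κ t) ≤ 0.4897 ∧ 1.2111 ≤ sD κ t ∧ sD κ t ≤ 1.3905 := by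
  have hy1 : 0.021 ≤ sy κ t := syR_ge h 0.42 0.5 0.0628 0.021 1.02122 1.02123 0.04289 0.05107 hk1 hk2 (by linarith) (by norm_num) (by norm_num)
    (expn_ge (by norm_num) (by norm_num)) (expn_le (by norm_num) (by norm_num) (by norm_num)) (by norm_num)
    (by norm_num) (by norm_num) (by norm_num) (by norm_num) (by norm_num) (by norm_num)
  have hy2 : sy κ t ≤ 0.091 := syR_le h 0.42 0.5 0.251 0.091 1.09526 0.1898 0.19933 0.23731 hk1 hk2 (by linarith) (by norm_num) (by norm_num)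
    (expn_ge (by norm_num) (by norm_num)) (by norm_num) (by norm_num) (Or.inr ((mul_le_mul_of_nonneg_left (expn_le (E := 1.09527) (by norm_num) (by norm_num) (by norm_num)) (by norm_num)).trans (by norm_num))) (by norm_num) (by norm_num) (by norm_num)
  have hy1' : 0.021 ≤ sy κ t := by linarith
  have hy2' : sy κ t ≤ 0.091 := by linarith
  have hx1 : 0.3724 ≤ sx κ t := sx_lo h 0.42 0.091 0.0911 0.91301 0.3724 hk1 (by norm_num) hy2' (abs_le.2 ⟨by linarith, by linarith⟩) (ex_lm 0.091 (by norm_num) (by norm_num) (by norm_num) (by norm_num) (by norm_num)) (by norm_num) (by norm_num)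
  have hx2 : sx κ t ≤ 0.4892 := sx_hi h 0.5 0.021 0.021 0.97922 0.4892 hk2 hy1' (by norm_num) (le_trans (by linarith) (le_abs_self _)) (ex_um 0.021 (by norm_num) (by norm_num) (by norm_num) (by norm_num)) (by norm_num) (by norm_num)
  refine ⟨⟨hy1', hy2'⟩, ⟨hx1, hx2⟩, v5_n h 0.5 0.021 0.97922 0.4897 hk2 hy1' (ex_um 0.021 (by norm_num) (by norm_num) (by norm_num) (by norm_num)) (by norm_num), ?_, ?_⟩
  · exact v5_Dlo h 0.42 0.021 0.091 0.021 0.97921 1.2111 (by norm_num) hk1 hy1' hy2' (ex_lm 0.021 (by norm_num) (by norm_num) (by norm_num) (by norm_num) (by norm_num)) (by norm_num) (by norm_num) (by norm_num) (by norm_num)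
  · exact v5_Dup h 0.5 0.021 0.091 0.97922 0.91302 1.3905 hk2 hy1' hy2' (ex_um 0.021 (by norm_num) (by norm_num) (by norm_num) (by norm_num)) (ex_um 0.091 (by norm_num) (by norm_num) (by norm_num) (by norm_num)) (by norm_num) (by norm_num) (by norm_num)

private theorem B5Co_T2_0_0 {β x y : ℝ} (hβ : 0 < β) (hN : β * 19.999 ≤ 1) (hx1 : 0.3723 ≤ x) (hx2 : x ≤ 0.4893)
    (hy1 : -0 ≤ y) (hy2 : y ≤ 0.0911) : ‖HH β (x + y * I) - 1‖ ≤ 0.03 := by
  refine le_epsJ (C := 0.2443) (N0 := 19.999) (J_boxp 0.3723 0.4893 0 0.0911 0.0911 0.9722 0.4978 1.1958 1.1408 0.4363 4.4721 19.999 0.5121 1.926 1.255 1.2319 0.486 0.4031 1.1357 3.8189 0.5265 1.0062 1.9245 3.6742 0.00006019 0.0003157 0.0000003101 0.0000003101 0.00002676 0.0000003101 0.0000003101 0.0000003101 0.2443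
    hβ hN hx1 hx2 hy1 hy2 (by norm_num) (by norm_num) (by linarith) (by norm_num) (by norm_num) (by norm_num) (by norm_num) (by norm_num) (by norm_num) (by norm_num) (by norm_num) (by norm_num) (by norm_num) (by norm_num) (by norm_num) (by norm_num) (by norm_num) (by norm_num) (by norm_num) (by norm_num) (by norm_num) (by norm_num) (by norm_num) (by norm_num)
    (cube_sqrt_geJ (s := 0.9106) (by norm_num) (by norm_num) (by norm_num) (by norm_num))
    (cube_sqrt_geJ (s := 0.9681) (by norm_num) (by norm_num) (by norm_num) (by norm_num))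
    (by norm_num) (by norm_num) (by norm_num) (by norm_num) (by norm_num) (by norm_num) (by norm_num) (by norm_num) (by norm_num) (by norm_num) (by norm_num) (by norm_num) (by norm_num) (by norm_num) (by norm_num) (by norm_num) (by norm_num) (by norm_num)
    (exp_neg_leJ (r := 0.719) 9 (by norm_num) (by norm_num) (by norm_num) (by norm_num))
    (exp_neg_leJ (r := 0.061) 8 (by norm_num) (by norm_num) (by norm_num) (by norm_num))
    (exp_neg_leJ (r := 0.99) 14 (by norm_num) (by norm_num) (by norm_num) (by norm_num))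
    (exp_neg_leJ (r := 0.99) 14 (by norm_num) (by norm_num) (by norm_num) (by norm_num))
    (exp_neg_leJ (r := 0.529) 10 (by norm_num) (by norm_num) (by norm_num) (by norm_num))
    (exp_neg_leJ (r := 0.99) 14 (by norm_num) (by norm_num) (by norm_num) (by norm_num))
    (exp_neg_leJ (r := 0.99) 14 (by norm_num) (by norm_num) (by norm_num) (by norm_num))
    (exp_neg_leJ (r := 0.99) 14 (by norm_num) (by norm_num) (by norm_num) (by norm_num))
    (by norm_num)) (by norm_num) hN hβ.le (by norm_num)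

private theorem B5Co_T2 {β x y : ℝ} (hβ : 0 < β) (hN : β * 19.999 ≤ 1) (hx1 : 0.3723 ≤ x) (hx2 : x ≤ 0.4893)
    (hy1 : 0.0209 ≤ y) (hy2 : y ≤ 0.0911) : ‖HH β (x + y * I) - 1‖ ≤ 0.03 := by
  exact B5Co_T2_0_0 hβ hN (by linarith) (by linarith) (by linarith) (by linarith)

private theorem B5Co_G3 {κ : ℝ} (hk1 : 0.42 ≤ κ) (hk2 : κ ≤ 0.5) : gG κ 0.55 ≤ 1.24697 ∧ 0.57694 ≤ Real.exp (-(κ * 0.55)) ^ 2 := by
  refine ⟨gG_le 0.55 0.42 0.5 1.24697 0.79374 0.75958 1.25986 1.31654 hk1 hk2 (by norm_num)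
    (ex_um 0.231 (by norm_num) (by norm_num) (by norm_num) (by norm_num)) (ex_um 0.275 (by norm_num) (by norm_num) (by norm_num) (by norm_num))
    (ex_up 0.231 (by norm_num) (by norm_num) (by norm_num) (by norm_num)) (ex_up 0.275 (by norm_num) (by norm_num) (by norm_num) (by norm_num))
    (by norm_num) (by norm_num), ?_⟩
  exact v5_M 0.75957 (ex_lm 0.275 (by linarith) (by norm_num) (by norm_num) (by norm_num) (by norm_num)) (by norm_num) (by norm_num)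

private theorem B5Co_C4 {β r t κ : ℝ} (hβ : 0 < β) (hr : 10 ≤ r) (hκ : κ = β * r) (hk1 : 0.42 ≤ κ) (hk2 : κ ≤ 0.5) (hta : 1.3194 ≤ t + κ)
    (htb : t + κ ≤ 1.5077) : ‖F (cexp (I * β)) (r * cexp (I * ((t + β / 2 : ℝ) : ℂ)))‖ ≤
      2.674 * Real.exp (r * (1.24697 - 0.55 * (t + κ))) + 0.1267 * Real.exp (r * 0) :=
  v5_H 0.55 0.42 0.5 1.3194 1.5077 1.24697 2.6111 0.57694 0.0893 2.39 0.4829 0.10802 0.3396 0.00000175 2.674 0.1267 hβ hr hκ (by norm_num) hk1 hk2 hta htb (by norm_num) (B5Co_G3 hk1 hk2).1 (B5Co_G3 hk1 hk2).2 (by norm_num) (by norm_num) (by norm_num)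
    (by norm_num) (by norm_num) (by norm_num) (by norm_num) (by norm_num) (by norm_num) (by norm_num) (by norm_num) (ex_un 1 0.0801 (by norm_num) (by norm_num) (by norm_num) (by norm_num))
    (v5_hump 3.3451 19.999 4.4721 0.0000009316 0.00000175 hβ hr hκ hk1 hk2 (by norm_num) htb (by norm_num) (by norm_num) (by norm_num) (by norm_num) (by norm_num) (by norm_num) (by norm_num) (ex_un 13 0.9 (by norm_num) (by norm_num) (by norm_num) (by norm_num)) (by norm_num)) (by norm_num) (by norm_num)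

private theorem B5Co_G5 {κ : ℝ} (hk1 : 0.42 ≤ κ) (hk2 : κ ≤ 0.5) : gG κ (-0.7) ≤ 1.24608 ∧ 1.80037 ≤ Real.exp (-(κ * (-0.7))) ^ 2 := by
  refine ⟨gG_le (-0.7) 0.42 0.5 1.24608 1.34179 1.41907 0.74528 0.70469 hk1 hk2 (by norm_num)
    (ex_up 0.294 (by norm_num) (by norm_num) (by norm_num) (by norm_num)) (ex_up 0.35 (by norm_num) (by norm_num) (by norm_num) (by norm_num))
    (ex_um 0.294 (by norm_num) (by norm_num) (by norm_num) (by norm_num)) (ex_um 0.35 (by norm_num) (by norm_num) (by norm_num) (by norm_num))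
    (by norm_num) (by norm_num), ?_⟩
  exact v5_M 1.34178 (ex_lp 0.294 (by linarith) (by norm_num) (by norm_num)) (by norm_num) (by norm_num)

private theorem B5Co_C6 {β r t κ : ℝ} (hβ : 0 < β) (hr : 10 ≤ r) (hκ : κ = β * r) (hk1 : 0.42 ≤ κ) (hk2 : κ ≤ 0.5) (hta : (-2.4505) ≤ t + κ)
    (htb : t + κ ≤ (-2.2622)) : ‖F (cexp (I * β)) (r * cexp (I * ((t + β / 2 : ℝ) : ℂ)))‖ ≤
      1.7664 * Real.exp (r * (1.24608 - (-0.7) * (t + κ))) + 2.1051 * Real.exp (r * 0.0501) :=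
  v5_HU (-0.7) 0.42 0.5 (-2.4505) (-2.2622) 1.24608 1.7664 1.80037 0.0893 1.1808 1.7614 0 0.0501 0.00000175 2.1051 hβ hr hκ (by norm_num) hk1 hk2 hta htb (by norm_num) (by norm_num) (B5Co_G5 hk1 hk2).1 (B5Co_G5 hk1 hk2).2 (by norm_num) (by norm_num) (by norm_num)
    (by norm_num) (by norm_num) (by norm_num) (by norm_num) (by norm_num) (by norm_num) (by norm_num)
    (by norm_num) (by norm_num) (by norm_num) (v5_hump 7.115 19.999 4.4721 0.0000009316 0.00000175 hβ hr hκ hk1 hk2 (by norm_num) htb (by norm_num) (by norm_num) (by norm_num) (by norm_num) (by norm_num) (by norm_num) (by norm_num) (ex_un 13 0.9 (by norm_num) (by norm_num) (by norm_num) (by norm_num)) (by norm_num)) (by norm_num)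

private theorem B5Co_C7 {β r t κ : ℝ} (hβ : 0 < β) (hr : 10 ≤ r) (hκ : κ = β * r) (hk1 : 0.42 ≤ κ) (hk2 : κ ≤ 0.5) (hta : 2.576 ≤ t + κ)
    (htb : t + κ ≤ 2.7643) : ‖F (cexp (I * β)) (r * cexp (I * ((t + β / 2 : ℝ) : ℂ)))‖ ≤
      2.9771 * Real.exp (r * (0.01 + 1 / 20)) :=
  v5_UD 0.42 0.5 2.576 2.7643 0.01 0.6156 0.01 1.5521 2.9771 hβ hr hκ (by norm_num) hk1 hk2 hta htb (by norm_num) (by norm_num) (by norm_num) (by norm_num) (by norm_num) (by norm_num) (by norm_num) (by norm_num) (by norm_num) (by norm_num) (by norm_num)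

private theorem B5Co_Y8 {β r t κ h t' : ℝ} (hβ : 0 < β) (hκ : κ = β * r) (hN : β * 19.999 ≤ 1) (hk1 : 0.42 ≤ κ) (hk2 : κ ≤ 0.5)
    (ht : t' = t + (((1 : ℤ) : ℝ) - 1) * h) (hD : DomR κ t') (hta : 0.0628 ≤ t' + κ) (htb : t' + κ ≤ 0.251) :
    0.8932 * Real.exp (r * sE κ t') ≤ ‖Xf β r h t 1‖ := by
  obtain ⟨⟨ya, yb⟩, ⟨xa, xb⟩, n1, Da, Db⟩ := B5Co_B1 hD hk1 hk2 hta htb
  have J := B5Co_T2 (x := sx κ t') (y := sy κ t') hβ hN (by linarith only [xa, xb, ya, yb]) (by linarith only [xa, xb, ya, yb]) (by linarith only [xa, xb, ya, yb]) (by linarith only [xa, xb, ya, yb])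
  exact v5_Jlo hβ hκ (k := 1) ht hD 0.03 1.3905 0.8932 (by norm_num) J Db (by norm_num)

private theorem B5Co_V9 {κ t : ℝ} (hD : DomR κ t) (hk1 : 0.42 ≤ κ) (hk2 : κ ≤ 0.5) (hta : 0.0628 ≤ t + κ) (htb : t + κ ≤ 0.251) :
    1.00628 - 0.1264 * (t + κ) ≤ sE κ t := by
  have hκ0 : 0 < κ := hD.1
  exact v5_V1 hD 0.42 0.5 0.0628 0.251 0.09906 0.19481 0.19765 1.00628 0.1264 (by norm_num) hk1 hk2 (by norm_num) (by norm_num) hta htb (by norm_num) (clo5 0.42 0.5 0.19765 (by norm_num) hk1 hk2 (by norm_num) (by norm_num) (by norm_num))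
      ((cup1 0.5 hκ0.le hk2 (by norm_num)).trans (by norm_num)) (by norm_num) (by norm_num) (by norm_num) (by norm_num) (by norm_num) (by norm_num)

private theorem B5Co_K10 {β r t κ h : ℝ} (hβ : 0 < β) (hr : 10 ≤ r) (hκ : κ = β * r) (hk1 : 0.42 ≤ κ) (hk2 : κ ≤ 0.5)
    (hh : h = 2 * Real.pi / 5) (hh1 : 1.25663 ≤ h) (hh2 : h ≤ 1.25664) (hta : 0.0628 ≤ t + κ) (htb : t + κ ≤ 0.251)
    (hY : 0.8932 * Real.exp (r * sE κ t) ≤ ‖Xf β r h t 1‖) (hV : 1.00628 - 0.1264 * (t + κ) ≤ sE κ t) :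
    ‖Xf β r h t 2‖ ≤ 0.0257 * ‖Xf β r h t 1‖ := by
  rw [v5_X 2 1 (by push_cast; ring)]
  exact v5_cmp 0.477 0.00855 0.0256 0.9745 0.00005902 0.00000838 0.0257 hr (B5Co_C4 (t := t + 1 * h) hβ hr hκ hk1 hk2 (by linarith only [hta, htb, hh1, hh2]) (by linarith only [hta, htb, hh1, hh2])) hY (by norm_num) (by norm_num) (by norm_num) (by norm_num) (by linarith only [hV, hta, htb, hh1, hh2]) (ex_un 4 0.7699 (by norm_num) (by norm_num) (by norm_num) (by norm_num)) (by norm_num) (by norm_num) (by linarith only [hV, hta, htb, hh1, hh2]) (ex_un 9 0.7449 (by norm_num) (by norm_num) (by norm_num) (by norm_num)) (by norm_num) (by norm_num)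

private theorem B5Co_K11 {β r t κ h : ℝ} (hβ : 0 < β) (hr : 10 ≤ r) (hκ : κ = β * r) (hk1 : 0.42 ≤ κ) (hk2 : κ ≤ 0.5)
    (hh : h = 2 * Real.pi / 5) (hh1 : 1.25663 ≤ h) (hh2 : h ≤ 1.25664) (hta : 0.0628 ≤ t + κ) (htb : t + κ ≤ 0.251)
    (hY : 0.8932 * Real.exp (r * sE κ t) ≤ ‖Xf β r h t 1‖) (hV : 1.00628 - 0.1264 * (t + κ) ≤ sE κ t) :
    ‖Xf β r h t (-1)‖ ≤ 0.000232 * ‖Xf β r h t 1‖ := by
  rw [v5_X (-1) (-2) (by push_cast; ring)]
  exact v5_cmp 1.312 0.000002005 0.00000397 0.9244 0.00009672 0.000228 0.000232 hr (B5Co_C6 (t := t + (-2) * h) hβ hr hκ hk1 hk2 (by linarith only [hta, htb, hh1, hh2]) (by linarith only [hta, htb, hh1, hh2])) hY (by norm_num) (by norm_num) (by norm_num) (by norm_num) (by linarith only [hV, hta, htb, hh1, hh2]) (ex_un 13 0.1199 (by norm_num) (by norm_num) (by norm_num) (by norm_num)) (by norm_num) (by norm_num) (by linarith only [hV, hta, htb, hh1, hh2]) (ex_un 9 0.2439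 (by norm_num) (by norm_num) (by norm_num) (by norm_num)) (by norm_num) (by norm_num)

private theorem B5Co_K12 {β r t κ h : ℝ} (hβ : 0 < β) (hr : 10 ≤ r) (hκ : κ = β * r) (hk1 : 0.42 ≤ κ) (hk2 : κ ≤ 0.5)
    (hh : h = 2 * Real.pi / 5) (hh1 : 1.25663 ≤ h) (hh2 : h ≤ 1.25664) (hta : 0.0628 ≤ t + κ) (htb : t + κ ≤ 0.251)
    (hY : 0.8932 * Real.exp (r * sE κ t) ≤ ‖Xf β r h t 1‖) (hV : 1.00628 - 0.1264 * (t + κ) ≤ sE κ t) :
    ‖Xf β r h t (-2)‖ ≤ 0.000356 * ‖Xf β r h t 1‖ := by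
  rw [v5_Xm2 hh]
  exact v5_cmp0 0.9145 0.0001068 0.000356 hr (B5Co_C7 (t := t + 2 * h) hβ hr hκ hk1 hk2 (by linarith only [hta, htb, hh1, hh2]) (by linarith only [hta, htb, hh1, hh2])) hY (by norm_num) (by norm_num) (by norm_num) (by linarith only [hV, hta, htb, hh1, hh2]) (ex_un 9 0.1449 (by norm_num) (by norm_num) (by norm_num) (by norm_num)) (by norm_num)

private theorem B5Co_G13 {κ : ℝ} (hk1 : 0.42 ≤ κ) (hk2 : κ ≤ 0.5) : gG κ (-0.71) ≤ 1.25248 ∧ 1.81556 ≤ Real.exp (-(κ * (-0.71))) ^ 2 := by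
  refine ⟨gG_le (-0.71) 0.42 0.5 1.25248 1.34744 1.42619 0.74216 0.70118 hk1 hk2 (by norm_num)
    (ex_up 0.2982 (by norm_num) (by norm_num) (by norm_num) (by norm_num)) (ex_up 0.355 (by norm_num) (by norm_num) (by norm_num) (by norm_num))
    (ex_um 0.2982 (by norm_num) (by norm_num) (by norm_num) (by norm_num)) (ex_um 0.355 (by norm_num) (by norm_num) (by norm_num) (by norm_num))
    (by norm_num) (by norm_num), ?_⟩
  exact v5_M 1.34743 (ex_lp 0.2982 (by linarith) (by norm_num) (by norm_num)) (by norm_num) (by norm_num)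

private theorem B5Co_C14 {β r t κ : ℝ} (hβ : 0 < β) (hr : 10 ≤ r) (hκ : κ = β * r) (hk1 : 0.42 ≤ κ) (hk2 : κ ≤ 0.5) (hta : (-1.1939) ≤ t + κ)
    (htb : t + κ ≤ (-1.0056)) : ‖F (cexp (I * β)) (r * cexp (I * ((t + β / 2 : ℝ) : ℂ)))‖ ≤
      1.766 * Real.exp (r * (1.25248 - (-0.71) * (t + κ))) + 2.0899 * Real.exp (r * 0.1532) :=
  v5_HU (-0.71) 0.42 0.5 (-1.1939) (-1.0056) 1.25248 1.766 1.81556 0.0893 1.1808 3.018 0.1453 0.1532 0.00000175 2.0899 hβ hr hκ (by norm_num) hk1 hk2 hta htb (by norm_num) (by norm_num) (B5Co_G13 hk1 hk2).1 (B5Co_G13 hk1 hk2).2 (by norm_num) (by norm_num) (by norm_num)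
    (by norm_num) (by norm_num) (by norm_num) (by norm_num) (by norm_num) (by norm_num) (by norm_num)
    (by norm_num) (by norm_num) (by norm_num) (v5_hump 5.8584 19.999 4.4721 0.0000009316 0.00000175 hβ hr hκ hk1 hk2 (by norm_num) htb (by norm_num) (by norm_num) (by norm_num) (by norm_num) (by norm_num) (by norm_num) (by norm_num) (ex_un 13 0.9 (by norm_num) (by norm_num) (by norm_num) (by norm_num)) (by norm_num)) (by norm_num)

private theorem B5Co_K15 {β r t κ h : ℝ} (hβ : 0 < β) (hr : 10 ≤ r) (hκ : κ = β * r) (hk1 : 0.42 ≤ κ) (hk2 : κ ≤ 0.5)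
    (hh : h = 2 * Real.pi / 5) (hh1 : 1.25663 ≤ h) (hh2 : h ≤ 1.25664) (hta : 0.0628 ≤ t + κ) (htb : t + κ ≤ 0.251)
    (hY : 0.8932 * Real.exp (r * sE κ t) ≤ ‖Xf β r h t 1‖) (hV : 1.00628 - 0.1264 * (t + κ) ≤ sE κ t) :
    ‖Xf β r h t 0‖ ≤ 0.026 * ‖Xf β r h t 1‖ := by
  rw [v5_X 0 (-1) (by push_cast; ring)]
  exact v5_cmp 0.436 0.01279 0.0253 0.8213 0.0002712 0.000635 0.026 hr (B5Co_C14 (t := t + (-1) * h) hβ hr hκ hk1 hk2 (by linarith only [hta, htb, hh1, hh2]) (by linarith only [hta, htb, hh1, hh2])) hY (by norm_num) (by norm_num) (by norm_num) (by norm_num) (by linarith only [hV, hta, htb, hh1, hh2]) (ex_un 4 0.3599 (by norm_num) (by norm_num) (by norm_num) (by norm_num)) (by norm_num) (by norm_num) (by linarith only [hV, hta, htb, hh1, hh2]) (ex_un 8 0.2129 (by norm_num) (by norm_num) (by norm_num) (by norm_num)) (by norm_num) (by norm_num)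

private theorem B5Co_O16 {β r t κ h : ℝ} (hβ : 0 < β) (hr : 10 ≤ r) (hκ : κ = β * r) (hk1 : 0.42 ≤ κ) (hk2 : κ ≤ 0.5)
    (hh : h = 2 * Real.pi / 5) (hta : 0.0628 ≤ t + κ) (htb : t + κ ≤ 0.251) :
    ‖Xf β r h t (-2)‖ + ‖Xf β r h t (-1)‖ + ‖Xf β r h t 2‖ < |‖Xf β r h t 1‖ - ‖Xf β r h t 0‖| := by
  obtain ⟨hh1, hh2⟩ := v5_h hh
  have hκ0 : 0 < κ := by linarith only [hk1]
  have hN : β * 19.999 ≤ 1 := v5_hN 0.5 19.999 hβ hr hκ hk2 (by norm_num) (by norm_num)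
  have hD1 : DomR κ t := v5_dom hκ0 (by linarith only [hta, htb, hk1, hk2, hh1, hh2]) (Or.inr (by linarith only [hta, htb, hk1, hk2, hh1, hh2]))
  have e1 : t = t + (((1 : ℤ) : ℝ) - 1) * h := by push_cast; ring
  have hY := B5Co_Y8 (h := h) hβ hκ hN hk1 hk2 e1 hD1 hta htb
  have hV := B5Co_V9 hD1 hk1 hk2 hta htb
  have cp2 := B5Co_K10 hβ hr hκ hk1 hk2 hh hh1 hh2 hta htb hY hV
  have cm1 := B5Co_K11 hβ hr hκ hk1 hk2 hh hh1 hh2 hta htb hY hV
  have cm2 := B5Co_K12 hβ hr hκ hk1 hk2 hh hh1 hh2 hta htb hY hV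
  have cn0 := B5Co_K15 hβ hr hκ hk1 hk2 hh hh1 hh2 hta htb hY hV
  have hp : 0 < ‖Xf β r h t 1‖ := lt_of_lt_of_le (by positivity) hY
  exact v5_out1 _ _ _ _ cm2 cm1 cp2 cn0 hp (by norm_num)

private theorem B5Co_B17 {κ t : ℝ} (h : DomR κ t) (hk1 : 0.42 ≤ κ) (hk2 : κ ≤ 0.5) (ht1 : 0.251 ≤ t + κ) (ht2 : t + κ ≤ 0.415) :
    (0.08 ≤ sy κ t ∧ sy κ t ≤ 0.14) ∧ (0.3371 ≤ sx κ t ∧ sx κ t ≤ 0.4546) ∧ κ * Real.exp (-sy κ t) ≤ 0.4616 ∧ 1.3103 ≤ sD κ t ∧ sD κ t ≤ 1.469 := by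
  have hy1 : 0.08 ≤ sy κ t := syR_ge h 0.42 0.5 0.251 0.08 1.08328 1.08329 0.17332 0.20635 hk1 hk2 (by linarith) (by norm_num) (by norm_num)
    (expn_ge (by norm_num) (by norm_num)) (expn_le (by norm_num) (by norm_num) (by norm_num)) (by norm_num)
    (by norm_num) (by norm_num) (by norm_num) (by norm_num) (by norm_num) (by norm_num)
  have hy2 : sy κ t ≤ 0.14 := syR_le h 0.42 0.5 0.415 0.14 1.15027 0.3067 0.32207 0.38343 hk1 hk2 (by linarith) (by norm_num) (by norm_num)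
    (expn_ge (by norm_num) (by norm_num)) (by norm_num) (by norm_num) (Or.inr ((mul_le_mul_of_nonneg_left (expn_le (E := 1.15028) (by norm_num) (by norm_num) (by norm_num)) (by norm_num)).trans (by norm_num))) (by norm_num) (by norm_num) (by norm_num)
  have hy1' : 0.08 ≤ sy κ t := by linarith
  have hy2' : sy κ t ≤ 0.14 := by linarith
  have hx1 : 0.3371 ≤ sx κ t := sx_lo h 0.42 0.14 0.1401 0.86935 0.3371 hk1 (by norm_num) hy2' (abs_le.2 ⟨by linarith, by linarith⟩) (ex_lm 0.14 (by norm_num) (by norm_num) (by norm_num) (by norm_num) (by norm_num)) (by norm_num) (by norm_num)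
  have hx2 : sx κ t ≤ 0.4546 := sx_hi h 0.5 0.08 0.08 0.92312 0.4546 hk2 hy1' (by norm_num) (le_trans (by linarith) (le_abs_self _)) (ex_um 0.08 (by norm_num) (by norm_num) (by norm_num) (by norm_num)) (by norm_num) (by norm_num)
  refine ⟨⟨hy1', hy2'⟩, ⟨hx1, hx2⟩, v5_n h 0.5 0.08 0.92312 0.4616 hk2 hy1' (ex_um 0.08 (by norm_num) (by norm_num) (by norm_num) (by norm_num)) (by norm_num), ?_, ?_⟩
  · exact v5_Dlo h 0.42 0.08 0.14 0.08 0.92311 1.3103 (by norm_num) hk1 hy1' hy2' (ex_lm 0.08 (by norm_num) (by norm_num) (by norm_num) (by norm_num) (by norm_num)) (by norm_num) (by norm_num) (by norm_num) (by norm_num)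
  · exact v5_Dup h 0.5 0.08 0.14 0.92312 0.86936 1.469 hk2 hy1' hy2' (ex_um 0.08 (by norm_num) (by norm_num) (by norm_num) (by norm_num)) (ex_um 0.14 (by norm_num) (by norm_num) (by norm_num) (by norm_num)) (by norm_num) (by norm_num) (by norm_num)

private theorem B5Co_T18_0_0 {β x y : ℝ} (hβ : 0 < β) (hN : β * 19.999 ≤ 1) (hx1 : 0.337 ≤ x) (hx2 : x ≤ 0.4547)
    (hy1 : -0 ≤ y) (hy2 : y ≤ 0.1401) : ‖HH β (x + y * I) - 1‖ ≤ 0.03 := by
  refine le_epsJ (C := 0.2503) (N0 := 19.999) (J_boxp 0.337 0.4547 0 0.1401 0.1401 0.9473 0.4758 1.2275 1.2017 0.442 4.4721 19.999 0.5023 1.9 1.249 1.2452 0.4736 0.3943 1.1236 3.8355 0.5044 0.9523 1.6438 3.4325 0.00007707 0.0003772 0.0000003101 0.0000003101 0.00004162 0.0000003101 0.0000003101 0.0000003101 0.2503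
    hβ hN hx1 hx2 hy1 hy2 (by norm_num) (by norm_num) (by linarith) (by norm_num) (by norm_num) (by norm_num) (by norm_num) (by norm_num) (by norm_num) (by norm_num) (by norm_num) (by norm_num) (by norm_num) (by norm_num) (by norm_num) (by norm_num) (by norm_num) (by norm_num) (by norm_num) (by norm_num) (by norm_num) (by norm_num) (by norm_num) (by norm_num)
    (cube_sqrt_geJ (s := 0.9124) (by norm_num) (by norm_num) (by norm_num) (by norm_num))
    (cube_sqrt_geJ (s := 0.9687) (by norm_num) (by norm_num) (by norm_num) (by norm_num))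
    (by norm_num) (by norm_num) (by norm_num) (by norm_num) (by norm_num) (by norm_num) (by norm_num) (by norm_num) (by norm_num) (by norm_num) (by norm_num) (by norm_num) (by norm_num) (by norm_num) (by norm_num) (by norm_num) (by norm_num) (by norm_num)
    (exp_neg_leJ (r := 0.471) 9 (by norm_num) (by norm_num) (by norm_num) (by norm_num))
    (exp_neg_leJ (r := 0.885) 7 (by norm_num) (by norm_num) (by norm_num) (by norm_num))
    (exp_neg_leJ (r := 0.99) 14 (by norm_num) (by norm_num) (by norm_num) (by norm_num))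
    (exp_neg_leJ (r := 0.99) 14 (by norm_num) (by norm_num) (by norm_num) (by norm_num))
    (exp_neg_leJ (r := 0.087) 10 (by norm_num) (by norm_num) (by norm_num) (by norm_num))
    (exp_neg_leJ (r := 0.99) 14 (by norm_num) (by norm_num) (by norm_num) (by norm_num))
    (exp_neg_leJ (r := 0.99) 14 (by norm_num) (by norm_num) (by norm_num) (by norm_num))
    (exp_neg_leJ (r := 0.99) 14 (by norm_num) (by norm_num) (by norm_num) (by norm_num))
    (by norm_num)) (by norm_num) hN hβ.le (by norm_num)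

private theorem B5Co_T18 {β x y : ℝ} (hβ : 0 < β) (hN : β * 19.999 ≤ 1) (hx1 : 0.337 ≤ x) (hx2 : x ≤ 0.4547)
    (hy1 : 0.0799 ≤ y) (hy2 : y ≤ 0.1401) : ‖HH β (x + y * I) - 1‖ ≤ 0.03 := by
  exact B5Co_T18_0_0 hβ hN (by linarith) (by linarith) (by linarith) (by linarith)

private theorem B5Co_G19 {κ : ℝ} (hk1 : 0.42 ≤ κ) (hk2 : κ ≤ 0.5) : gG κ 0.59 ≤ 1.29323 ∧ 0.55432 ≤ Real.exp (-(κ * 0.59)) ^ 2 := by
  refine ⟨gG_le 0.59 0.42 0.5 1.29323 0.78052 0.74454 1.28121 1.34313 hk1 hk2 (by norm_num)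
    (ex_um 0.2478 (by norm_num) (by norm_num) (by norm_num) (by norm_num)) (ex_um 0.295 (by norm_num) (by norm_num) (by norm_num) (by norm_num))
    (ex_up 0.2478 (by norm_num) (by norm_num) (by norm_num) (by norm_num)) (ex_up 0.295 (by norm_num) (by norm_num) (by norm_num) (by norm_num))
    (by norm_num) (by norm_num), ?_⟩
  exact v5_M 0.74453 (ex_lm 0.295 (by linarith) (by norm_num) (by norm_num) (by norm_num) (by norm_num)) (by norm_num) (by norm_num)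

private theorem B5Co_C20 {β r t κ : ℝ} (hβ : 0 < β) (hr : 10 ≤ r) (hκ : κ = β * r) (hk1 : 0.42 ≤ κ) (hk2 : κ ≤ 0.5) (hta : 1.5076 ≤ t + κ)
    (htb : t + κ ≤ 1.6717) : ‖F (cexp (I * β)) (r * cexp (I * ((t + β / 2 : ℝ) : ℂ)))‖ ≤
      2.9424 * Real.exp (r * (1.29323 - 0.59 * (t + κ))) + 0.124 * Real.exp (r * 0) :=
  v5_H 0.59 0.42 0.5 1.5076 1.6717 1.29323 2.8044 0.55432 0.0893 2.5782 0.3189 0.07145 0.4926 0.00000175 2.9424 0.124 hβ hr hκ (by norm_num) hk1 hk2 hta htb (by norm_num) (B5Co_G19 hk1 hk2).1 (B5Co_G19 hk1 hk2).2 (by norm_num) (by norm_num) (by norm_num)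
    (by norm_num) (by norm_num) (by norm_num) (by norm_num) (by norm_num) (by norm_num) (by norm_num) (by norm_num) (ex_un 0 0.7144 (by norm_num) (by norm_num) (by norm_num) (by norm_num))
    (v5_hump 3.1811 19.999 4.4721 0.0000009316 0.00000175 hβ hr hκ hk1 hk2 (by norm_num) htb (by norm_num) (by norm_num) (by norm_num) (by norm_num) (by norm_num) (by norm_num) (by norm_num) (ex_un 13 0.9 (by norm_num) (by norm_num) (by norm_num) (by norm_num)) (by norm_num)) (by norm_num) (by norm_num)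

private theorem B5Co_C21 {β r t κ : ℝ} (hβ : 0 < β) (hr : 10 ≤ r) (hκ : κ = β * r) (hk1 : 0.42 ≤ κ) (hk2 : κ ≤ 0.5) (hta : (-2.2623) ≤ t + κ)
    (htb : t + κ ≤ (-2.0982)) : ‖F (cexp (I * β)) (r * cexp (I * ((t + β / 2 : ℝ) : ℂ)))‖ ≤
      1.766 * Real.exp (r * (1.25248 - (-0.71) * (t + κ))) + 2.1061 * Real.exp (r * 0.0501) :=
  v5_HU (-0.71) 0.42 0.5 (-2.2623) (-2.0982) 1.25248 1.766 1.81556 0.0893 1.1808 1.9496 0 0.0501 0.00000175 2.1061 hβ hr hκ (by norm_num) hk1 hk2 hta htb (by norm_num) (by norm_num) (B5Co_G13 hk1 hk2).1 (B5Co_G13 hk1 hk2).2 (by norm_num) (by norm_num) (by norm_num)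
    (by norm_num) (by norm_num) (by norm_num) (by norm_num) (by norm_num) (by norm_num) (by norm_num)
    (by norm_num) (by norm_num) (by norm_num) (v5_hump 6.951 19.999 4.4721 0.0000009316 0.00000175 hβ hr hκ hk1 hk2 (by norm_num) htb (by norm_num) (by norm_num) (by norm_num) (by norm_num) (by norm_num) (by norm_num) (by norm_num) (ex_un 13 0.9 (by norm_num) (by norm_num) (by norm_num) (by norm_num)) (by norm_num)) (by norm_num)

private theorem B5Co_C22 {β r t κ : ℝ} (hβ : 0 < β) (hr : 10 ≤ r) (hκ : κ = β * r) (hk1 : 0.42 ≤ κ) (hk2 : κ ≤ 0.5) (hta : 2.7642 ≤ t + κ)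
    (htb : t + κ ≤ 2.9283) : ‖F (cexp (I * β)) (r * cexp (I * ((t + β / 2 : ℝ) : ℂ)))‖ ≤
      2.9464 * Real.exp (r * (0.01 + 1 / 20)) :=
  v5_UD 0.42 0.5 2.7642 2.9283 0.01 0.6156 0.01 1.5361 2.9464 hβ hr hκ (by norm_num) hk1 hk2 hta htb (by norm_num) (by norm_num) (by norm_num) (by norm_num) (by norm_num) (by norm_num) (by norm_num) (by norm_num) (by norm_num) (by norm_num) (by norm_num)

private theorem B5Co_Y23 {β r t κ h t' : ℝ} (hβ : 0 < β) (hκ : κ = β * r) (hN : β * 19.999 ≤ 1) (hk1 : 0.42 ≤ κ) (hk2 : κ ≤ 0.5)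
    (ht : t' = t + (((1 : ℤ) : ℝ) - 1) * h) (hD : DomR κ t') (hta : 0.251 ≤ t' + κ) (htb : t' + κ ≤ 0.415) :
    0.881 * Real.exp (r * sE κ t') ≤ ‖Xf β r h t 1‖ := by
  obtain ⟨⟨ya, yb⟩, ⟨xa, xb⟩, n1, Da, Db⟩ := B5Co_B17 hD hk1 hk2 hta htb
  have J := B5Co_T18 (x := sx κ t') (y := sy κ t') hβ hN (by linarith only [xa, xb, ya, yb]) (by linarith only [xa, xb, ya, yb]) (by linarith only [xa, xb, ya, yb]) (by linarith only [xa, xb, ya, yb])
  exact v5_Jlo hβ hκ (k := 1) ht hD 0.03 1.469 0.881 (by norm_num) J Db (by norm_num)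

private theorem B5Co_V24 {κ t : ℝ} (hD : DomR κ t) (hk1 : 0.42 ≤ κ) (hk2 : κ ≤ 0.5) (hta : 0.251 ≤ t + κ) (htb : t + κ ≤ 0.415) :
    1.03949 - 0.2597 * (t + κ) ≤ sE κ t := by
  have hκ0 : 0 < κ := hD.1
  exact v5_V1 hD 0.42 0.5 0.251 0.415 0.08113 0.19481 0.19765 1.03949 0.2597 (by norm_num) hk1 hk2 (by norm_num) (by norm_num) hta htb (by norm_num) (clo5 0.42 0.5 0.19765 (by norm_num) hk1 hk2 (by norm_num) (by norm_num) (by norm_num))
      ((cup1 0.5 hκ0.le hk2 (by norm_num)).trans (by norm_num)) (by norm_num) (by norm_num) (by norm_num) (by norm_num) (by norm_num) (by norm_num)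

private theorem B5Co_K25 {β r t κ h : ℝ} (hβ : 0 < β) (hr : 10 ≤ r) (hκ : κ = β * r) (hk1 : 0.42 ≤ κ) (hk2 : κ ≤ 0.5)
    (hh : h = 2 * Real.pi / 5) (hh1 : 1.25663 ≤ h) (hh2 : h ≤ 1.25664) (hta : 0.251 ≤ t + κ) (htb : t + κ ≤ 0.415)
    (hY : 0.881 * Real.exp (r * sE κ t) ≤ ‖Xf β r h t 1‖) (hV : 1.03949 - 0.2597 * (t + κ) ≤ sE κ t) :
    ‖Xf β r h t 2‖ ≤ 0.0113 * ‖Xf β r h t 1‖ := by
  rw [v5_X 2 1 (by push_cast; ring)]
  exact v5_cmp 0.5705 0.00335 0.0112 0.9317 0.00008993 0.0000127 0.0113 hr (B5Co_C20 (t := t + 1 * h) hβ hr hκ hk1 hk2 (by linarith only [hta, htb, hh1, hh2]) (by linarith only [hta, htb, hh1, hh2])) hY (by norm_num) (by norm_num) (by norm_num) (by norm_num) (by linarith only [hV, hta, htb, hh1, hh2]) (ex_un 5 0.7049 (by norm_num) (by norm_num) (by norm_num) (by norm_num)) (by norm_num) (by norm_num) (by linarith only [hV, hta, htb, hh1, hh2]) (ex_un 9 0.3169 (by norm_num) (by norm_num)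 (by norm_num) (by norm_num)) (by norm_num) (by norm_num)

private theorem B5Co_K26 {β r t κ h : ℝ} (hβ : 0 < β) (hr : 10 ≤ r) (hκ : κ = β * r) (hk1 : 0.42 ≤ κ) (hk2 : κ ≤ 0.5)
    (hh : h = 2 * Real.pi / 5) (hh1 : 1.25663 ≤ h) (hh2 : h ≤ 1.25664) (hta : 0.251 ≤ t + κ) (htb : t + κ ≤ 0.415)
    (hY : 0.881 * Real.exp (r * sE κ t) ≤ ‖Xf β r h t 1‖) (hV : 1.03949 - 0.2597 * (t + κ) ≤ sE κ t) :
    ‖Xf β r h t (-1)‖ ≤ 0.000377 * ‖Xf β r h t 1‖ := by
  rw [v5_X (-1) (-2) (by push_cast; ring)]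
  exact v5_cmp 1.1689 0.000008433 0.000017 0.8816 0.0001499 0.000359 0.000377 hr (B5Co_C21 (t := t + (-2) * h) hβ hr hκ hk1 hk2 (by linarith only [hta, htb, hh1, hh2]) (by linarith only [hta, htb, hh1, hh2])) hY (by norm_num) (by norm_num) (by norm_num) (by norm_num) (by linarith only [hV, hta, htb, hh1, hh2]) (ex_un 11 0.6889 (by norm_num) (by norm_num) (by norm_num) (by norm_num)) (by norm_num) (by norm_num) (by linarith only [hV, hta, htb, hh1, hh2]) (ex_un 8 0.8159 (by norm_num) (by norm_num) (by norm_num) (by norm_num)) (by norm_num) (by norm_num)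

private theorem B5Co_K27 {β r t κ h : ℝ} (hβ : 0 < β) (hr : 10 ≤ r) (hκ : κ = β * r) (hk1 : 0.42 ≤ κ) (hk2 : κ ≤ 0.5)
    (hh : h = 2 * Real.pi / 5) (hh1 : 1.25663 ≤ h) (hh2 : h ≤ 1.25664) (hta : 0.251 ≤ t + κ) (htb : t + κ ≤ 0.415)
    (hY : 0.881 * Real.exp (r * sE κ t) ≤ ‖Xf β r h t 1‖) (hV : 1.03949 - 0.2597 * (t + κ) ≤ sE κ t) :
    ‖Xf β r h t (-2)‖ ≤ 0.000552 * ‖Xf β r h t 1‖ := by
  rw [v5_Xm2 hh]
  exact v5_cmp0 0.8717 0.0001649 0.000552 hr (B5Co_C22 (t := t + 2 * h) hβ hr hκ hk1 hk2 (by linarith only [hta, htb, hh1, hh2]) (by linarith only [hta, htb, hh1, hh2])) hY (by norm_num) (by norm_num) (by norm_num) (by linarith only [hV, hta, htb, hh1, hh2]) (ex_un 8 0.7169 (by norm_num) (by norm_num) (by norm_num) (by norm_num)) (by norm_num)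

private theorem B5Co_C28 {β r t κ : ℝ} (hβ : 0 < β) (hr : 10 ≤ r) (hκ : κ = β * r) (hk1 : 0.42 ≤ κ) (hk2 : κ ≤ 0.5) (hta : (-1.0057) ≤ t + κ)
    (htb : t + κ ≤ (-0.8416)) : ‖F (cexp (I * β)) (r * cexp (I * ((t + β / 2 : ℝ) : ℂ)))‖ ≤
      1.766 * Real.exp (r * (1.25248 - (-0.71) * (t + κ))) + 2.0881 * Real.exp (r * 0.2697) :=
  v5_HU (-0.71) 0.42 0.5 (-1.0057) (-0.8416) 1.25248 1.766 1.81556 0.0893 1.1808 3.2062 0.3093 0.2697 0.00000175 2.0881 hβ hr hκ (by norm_num) hk1 hk2 hta htb (by norm_num) (by norm_num) (B5Co_G13 hk1 hk2).1 (B5Co_G13 hk1 hk2).2 (by norm_num) (by norm_num) (by norm_num)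
    (by norm_num) (by norm_num) (by norm_num) (by norm_num) (by norm_num) (by norm_num) (by norm_num)
    (by norm_num) (by norm_num) (by norm_num) (v5_hump 5.6944 19.999 4.4721 0.0000009316 0.00000175 hβ hr hκ hk1 hk2 (by norm_num) htb (by norm_num) (by norm_num) (by norm_num) (by norm_num) (by norm_num) (by norm_num) (by norm_num) (ex_un 13 0.9 (by norm_num) (by norm_num) (by norm_num) (by norm_num)) (by norm_num)) (by norm_num)

private theorem B5Co_K29 {β r t κ h : ℝ} (hβ : 0 < β) (hr : 10 ≤ r) (hκ : κ = β * r) (hk1 : 0.42 ≤ κ) (hk2 : κ ≤ 0.5)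
    (hh : h = 2 * Real.pi / 5) (hh1 : 1.25663 ≤ h) (hh2 : h ≤ 1.25664) (hta : 0.251 ≤ t + κ) (htb : t + κ ≤ 0.415)
    (hY : 0.881 * Real.exp (r * sE κ t) ≤ ‖Xf β r h t 1‖) (hV : 1.03949 - 0.2597 * (t + κ) ≤ sE κ t) :
    ‖Xf β r h t 0‖ ≤ 0.132 * ‖Xf β r h t 1‖ := by
  rw [v5_X 0 (-1) (by push_cast; ring)]
  exact v5_cmp 0.2767 0.06336 0.128 0.662 0.001339 0.00318 0.132 hr (B5Co_C28 (t := t + (-1) * h) hβ hr hκ hk1 hk2 (by linarith only [hta, htb, hh1, hh2]) (by linarith only [hta, htb, hh1, hh2])) hY (by norm_num) (by norm_num) (by norm_num) (by norm_num) (by linarith only [hV, hta, htb, hh1, hh2]) (ex_un 2 0.7669 (by norm_num) (by norm_num) (by norm_num) (by norm_num)) (by norm_num) (by norm_num) (by linarith only [hV, hta, htb, hh1, hh2]) (ex_un 6 0.6199 (by norm_num) (by norm_num) (by norm_num) (by norm_num)) (by norm_num) (by norm_num)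

private theorem B5Co_O30 {β r t κ h : ℝ} (hβ : 0 < β) (hr : 10 ≤ r) (hκ : κ = β * r) (hk1 : 0.42 ≤ κ) (hk2 : κ ≤ 0.5)
    (hh : h = 2 * Real.pi / 5) (hta : 0.251 ≤ t + κ) (htb : t + κ ≤ 0.415) :
    ‖Xf β r h t (-2)‖ + ‖Xf β r h t (-1)‖ + ‖Xf β r h t 2‖ < |‖Xf β r h t 1‖ - ‖Xf β r h t 0‖| := by
  obtain ⟨hh1, hh2⟩ := v5_h hh
  have hκ0 : 0 < κ := by linarith only [hk1]
  have hN : β * 19.999 ≤ 1 := v5_hN 0.5 19.999 hβ hr hκ hk2 (by norm_num) (by norm_num)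
  have hD1 : DomR κ t := v5_dom hκ0 (by linarith only [hta, htb, hk1, hk2, hh1, hh2]) (Or.inr (by linarith only [hta, htb, hk1, hk2, hh1, hh2]))
  have e1 : t = t + (((1 : ℤ) : ℝ) - 1) * h := by push_cast; ring
  have hY := B5Co_Y23 (h := h) hβ hκ hN hk1 hk2 e1 hD1 hta htb
  have hV := B5Co_V24 hD1 hk1 hk2 hta htb
  have cp2 := B5Co_K25 hβ hr hκ hk1 hk2 hh hh1 hh2 hta htb hY hV
  have cm1 := B5Co_K26 hβ hr hκ hk1 hk2 hh hh1 hh2 hta htb hY hV
  have cm2 := B5Co_K27 hβ hr hκ hk1 hk2 hh hh1 hh2 hta htb hY hV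
  have cn0 := B5Co_K29 hβ hr hκ hk1 hk2 hh hh1 hh2 hta htb hY hV
  have hp : 0 < ‖Xf β r h t 1‖ := lt_of_lt_of_le (by positivity) hY
  exact v5_out1 _ _ _ _ cm2 cm1 cp2 cn0 hp (by norm_num)

private theorem B5Co_B31 {κ t : ℝ} (h : DomR κ t) (hk1 : 0.42 ≤ κ) (hk2 : κ ≤ 0.5) (ht1 : 0.415 ≤ t + κ) (ht2 : t + κ ≤ 0.5655) :
    (0.124 ≤ sy κ t ∧ sy κ t ≤ 0.18) ∧ (0.301 ≤ sx κ t ∧ sx κ t ≤ 0.424) ∧ κ * Real.exp (-sy κ t) ≤ 0.4417 ∧ 1.3856 ≤ sD κ t ∧ sD κ t ≤ 1.5345 := by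
  have hy1 : 0.124 ≤ sy κ t := syR_ge h 0.42 0.5 0.415 0.124 1.13201 1.13202 0.28073 0.33422 hk1 hk2 (by linarith) (by norm_num) (by norm_num)
    (expn_ge (by norm_num) (by norm_num)) (expn_le (by norm_num) (by norm_num) (by norm_num)) (by norm_num)
    (by norm_num) (by norm_num) (by norm_num) (by norm_num) (by norm_num) (by norm_num)
  have hy2 : sy κ t ≤ 0.18 := syR_le h 0.42 0.5 0.5655 0.18 1.19721 0.4104 0.43099 0.5131 hk1 hk2 (by linarith) (by norm_num) (by norm_num)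
    (expn_ge (by norm_num) (by norm_num)) (by norm_num) (by norm_num) (Or.inr ((mul_le_mul_of_nonneg_left (expn_le (E := 1.19722) (by norm_num) (by norm_num) (by norm_num)) (by norm_num)).trans (by norm_num))) (by norm_num) (by norm_num) (by norm_num)
  have hy1' : 0.124 ≤ sy κ t := by linarith
  have hy2' : sy κ t ≤ 0.18 := by linarith
  have hx1 : 0.301 ≤ sx κ t := sx_lo h 0.42 0.18 0.1801 0.83527 0.301 hk1 (by norm_num) hy2' (abs_le.2 ⟨by linarith, by linarith⟩) (ex_lm 0.18 (by norm_num) (by norm_num) (by norm_num) (by norm_num) (by norm_num)) (by norm_num) (by norm_num)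
  have hx2 : sx κ t ≤ 0.424 := sx_hi h 0.5 0.124 0.124 0.88338 0.424 hk2 hy1' (by norm_num) (le_trans (by linarith) (le_abs_self _)) (ex_um 0.124 (by norm_num) (by norm_num) (by norm_num) (by norm_num)) (by norm_num) (by norm_num)
  refine ⟨⟨hy1', hy2'⟩, ⟨hx1, hx2⟩, v5_n h 0.5 0.124 0.88338 0.4417 hk2 hy1' (ex_um 0.124 (by norm_num) (by norm_num) (by norm_num) (by norm_num)) (by norm_num), ?_, ?_⟩
  · exact v5_Dlo h 0.42 0.124 0.18 0.124 0.88337 1.3856 (by norm_num) hk1 hy1' hy2' (ex_lm 0.124 (by norm_num) (by norm_num) (by norm_num) (by norm_num) (by norm_num)) (by norm_num) (by norm_num) (by norm_num) (by norm_num)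
  · exact v5_Dup h 0.5 0.124 0.18 0.88338 0.83528 1.5345 hk2 hy1' hy2' (ex_um 0.124 (by norm_num) (by norm_num) (by norm_num) (by norm_num)) (ex_um 0.18 (by norm_num) (by norm_num) (by norm_num) (by norm_num)) (by norm_num) (by norm_num) (by norm_num)

private theorem B5Co_T32_0_0 {β x y : ℝ} (hβ : 0 < β) (hN : β * 19.999 ≤ 1) (hx1 : 0.3009 ≤ x) (hx2 : x ≤ 0.4241)
    (hy1 : -0 ≤ y) (hy2 : y ≤ 0.1801) : ‖HH β (x + y * I) - 1‖ ≤ 0.03 := by
  refine le_epsJ (C := 0.2639) (N0 := 19.999) (J_boxp 0.3009 0.4241 0 0.1801 0.1801 0.9219 0.4608 1.254 1.2651 0.4468 4.4721 19.999 0.4999 1.893 1.248 1.257 0.4609 0.3841 1.1112 3.849 0.4828 0.8982 1.4 3.2126 0.00009934 0.0004619 0.0000003101 0.0000003101 0.00006415 0.0000003101 0.0000003101 0.0000003101 0.2639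
    hβ hN hx1 hx2 hy1 hy2 (by norm_num) (by norm_num) (by linarith) (by norm_num) (by norm_num) (by norm_num) (by norm_num) (by norm_num) (by norm_num) (by norm_num) (by norm_num) (by norm_num) (by norm_num) (by norm_num) (by norm_num) (by norm_num) (by norm_num) (by norm_num) (by norm_num) (by norm_num) (by norm_num) (by norm_num) (by norm_num) (by norm_num)
    (cube_sqrt_geJ (s := 0.9128) (by norm_num) (by norm_num) (by norm_num) (by norm_num))
    (cube_sqrt_geJ (s := 0.9689) (by norm_num) (by norm_num) (by norm_num) (by norm_num))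
    (by norm_num) (by norm_num) (by norm_num) (by norm_num) (by norm_num) (by norm_num) (by norm_num) (by norm_num) (by norm_num) (by norm_num) (by norm_num) (by norm_num) (by norm_num) (by norm_num) (by norm_num) (by norm_num) (by norm_num) (by norm_num)
    (exp_neg_leJ (r := 0.217) 9 (by norm_num) (by norm_num) (by norm_num) (by norm_num))
    (exp_neg_leJ (r := 0.681) 7 (by norm_num) (by norm_num) (by norm_num) (by norm_num))
    (exp_neg_leJ (r := 0.99) 14 (by norm_num) (by norm_num) (by norm_num) (by norm_num))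
    (exp_neg_leJ (r := 0.99) 14 (by norm_num) (by norm_num) (by norm_num) (by norm_num))
    (exp_neg_leJ (r := 0.655) 9 (by norm_num) (by norm_num) (by norm_num) (by norm_num))
    (exp_neg_leJ (r := 0.99) 14 (by norm_num) (by norm_num) (by norm_num) (by norm_num))
    (exp_neg_leJ (r := 0.99) 14 (by norm_num) (by norm_num) (by norm_num) (by norm_num))
    (exp_neg_leJ (r := 0.99) 14 (by norm_num) (by norm_num) (by norm_num) (by norm_num))
    (by norm_num)) (by norm_num) hN hβ.le (by norm_num)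

private theorem B5Co_T32 {β x y : ℝ} (hβ : 0 < β) (hN : β * 19.999 ≤ 1) (hx1 : 0.3009 ≤ x) (hx2 : x ≤ 0.4241)
    (hy1 : 0.1239 ≤ y) (hy2 : y ≤ 0.1801) : ‖HH β (x + y * I) - 1‖ ≤ 0.03 := by
  exact B5Co_T32_0_0 hβ hN (by linarith) (by linarith) (by linarith) (by linarith)

private theorem B5Co_G33 {κ : ℝ} (hk1 : 0.42 ≤ κ) (hk2 : κ ≤ 0.5) : gG κ 0.61 ≤ 1.3188 ∧ 0.54334 ≤ Real.exp (-(κ * 0.61)) ^ 2 := by
  refine ⟨gG_le 0.61 0.42 0.5 1.3188 0.77399 0.73713 1.29202 1.35663 hk1 hk2 (by norm_num)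
    (ex_um 0.2562 (by norm_num) (by norm_num) (by norm_num) (by norm_num)) (ex_um 0.305 (by norm_num) (by norm_num) (by norm_num) (by norm_num))
    (ex_up 0.2562 (by norm_num) (by norm_num) (by norm_num) (by norm_num)) (ex_up 0.305 (by norm_num) (by norm_num) (by norm_num) (by norm_num))
    (by norm_num) (by norm_num), ?_⟩
  exact v5_M 0.73712 (ex_lm 0.305 (by linarith) (by norm_num) (by norm_num) (by norm_num) (by norm_num)) (by norm_num) (by norm_num)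

private theorem B5Co_C34 {β r t κ : ℝ} (hβ : 0 < β) (hr : 10 ≤ r) (hκ : κ = β * r) (hk1 : 0.42 ≤ κ) (hk2 : κ ≤ 0.5) (hta : 1.6716 ≤ t + κ)
    (htb : t + κ ≤ 1.8222) : ‖F (cexp (I * β)) (r * cexp (I * ((t + β / 2 : ℝ) : ℂ)))‖ ≤
      3.2428 * Real.exp (r * (1.3188 - 0.61 * (t + κ))) + 0.1219 * Real.exp (r * 0) :=
  v5_H 0.61 0.42 0.5 1.6716 1.8222 1.3188 2.9378 0.54334 0.0893 2.7422 0.1684 0.05561 0.575 0.00000175 3.2428 0.1219 hβ hr hκ (by norm_num) hk1 hk2 hta htb (by norm_num) (B5Co_G33 hk1 hk2).1 (B5Co_G33 hk1 hk2).2 (by norm_num) (by norm_num) (by norm_num)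
    (by norm_num) (by norm_num) (by norm_num) (by norm_num) (by norm_num) (by norm_num) (by norm_num) (by norm_num) (ex_un 0 0.556 (by norm_num) (by norm_num) (by norm_num) (by norm_num))
    (v5_hump 3.0306 19.999 4.4721 0.0000009316 0.00000175 hβ hr hκ hk1 hk2 (by norm_num) htb (by norm_num) (by norm_num) (by norm_num) (by norm_num) (by norm_num) (by norm_num) (by norm_num) (ex_un 13 0.9 (by norm_num) (by norm_num) (by norm_num) (by norm_num)) (by norm_num)) (by norm_num) (by norm_num)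

private theorem B5Co_C35 {β r t κ : ℝ} (hβ : 0 < β) (hr : 10 ≤ r) (hκ : κ = β * r) (hk1 : 0.42 ≤ κ) (hk2 : κ ≤ 0.5) (hta : (-2.0983) ≤ t + κ)
    (htb : t + κ ≤ (-1.9477)) : ‖F (cexp (I * β)) (r * cexp (I * ((t + β / 2 : ℝ) : ℂ)))‖ ≤
      1.766 * Real.exp (r * (1.25248 - (-0.71) * (t + κ))) + 2.1025 * Real.exp (r * 0.0501) :=
  v5_HU (-0.71) 0.42 0.5 (-2.0983) (-1.9477) 1.25248 1.766 1.81556 0.0893 1.1808 2.1136 0 0.0501 0.00000175 2.1025 hβ hr hκ (by norm_num) hk1 hk2 hta htb (by norm_num) (by norm_num) (B5Co_G13 hk1 hk2).1 (B5Co_G13 hk1 hk2).2 (by norm_num) (by norm_num) (by norm_num)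
    (by norm_num) (by norm_num) (by norm_num) (by norm_num) (by norm_num) (by norm_num) (by norm_num)
    (by norm_num) (by norm_num) (by norm_num) (v5_hump 6.8005 19.999 4.4721 0.0000009316 0.00000175 hβ hr hκ hk1 hk2 (by norm_num) htb (by norm_num) (by norm_num) (by norm_num) (by norm_num) (by norm_num) (by norm_num) (by norm_num) (ex_un 13 0.9 (by norm_num) (by norm_num) (by norm_num) (by norm_num)) (by norm_num)) (by norm_num)

private theorem B5Co_C36 {β r t κ : ℝ} (hβ : 0 < β) (hr : 10 ≤ r) (hκ : κ = β * r) (hk1 : 0.42 ≤ κ) (hk2 : κ ≤ 0.5) (hta : 2.9282 ≤ t + κ)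
    (htb : t + κ ≤ 3.0788) : ‖F (cexp (I * β)) (r * cexp (I * ((t + β / 2 : ℝ) : ℂ)))‖ ≤
      2.9305 * Real.exp (r * (0.01 + 1 / 20)) :=
  v5_UD 0.42 0.5 2.9282 3.0788 0.01 0.6156 0.01 1.5278 2.9305 hβ hr hκ (by norm_num) hk1 hk2 hta htb (by norm_num) (by norm_num) (by norm_num) (by norm_num) (by norm_num) (by norm_num) (by norm_num) (by norm_num) (by norm_num) (by norm_num) (by norm_num)

private theorem B5Co_Y37 {β r t κ h t' : ℝ} (hβ : 0 < β) (hκ : κ = β * r) (hN : β * 19.999 ≤ 1) (hk1 : 0.42 ≤ κ) (hk2 : κ ≤ 0.5)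
    (ht : t' = t + (((1 : ℤ) : ℝ) - 1) * h) (hD : DomR κ t') (hta : 0.415 ≤ t' + κ) (htb : t' + κ ≤ 0.5655) :
    0.8715 * Real.exp (r * sE κ t') ≤ ‖Xf β r h t 1‖ := by
  obtain ⟨⟨ya, yb⟩, ⟨xa, xb⟩, n1, Da, Db⟩ := B5Co_B31 hD hk1 hk2 hta htb
  have J := B5Co_T32 (x := sx κ t') (y := sy κ t') hβ hN (by linarith only [xa, xb, ya, yb]) (by linarith only [xa, xb, ya, yb]) (by linarith only [xa, xb, ya, yb]) (by linarith only [xa, xb, ya, yb])
  exact v5_Jlo hβ hκ (k := 1) ht hD 0.03 1.5345 0.8715 (by norm_num) J Db (by norm_num)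

private theorem B5Co_V38 {κ t : ℝ} (hD : DomR κ t) (hk1 : 0.42 ≤ κ) (hk2 : κ ≤ 0.5) (hta : 0.415 ≤ t + κ) (htb : t + κ ≤ 0.5655) :
    1.0871 - 0.3768 * (t + κ) ≤ sE κ t := by
  have hκ0 : 0 < κ := hD.1
  exact v5_V1 hD 0.42 0.5 0.415 0.5655 0.06468 0.19481 0.19765 1.0871 0.3768 (by norm_num) hk1 hk2 (by norm_num) (by norm_num) hta htb (by norm_num) (clo5 0.42 0.5 0.19765 (by norm_num) hk1 hk2 (by norm_num) (by norm_num) (by norm_num))
      ((cup1 0.5 hκ0.le hk2 (by norm_num)).trans (by norm_num)) (by norm_num) (by norm_num) (by norm_num) (by norm_num) (by norm_num) (by norm_num)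

private theorem B5Co_K39 {β r t κ h : ℝ} (hβ : 0 < β) (hr : 10 ≤ r) (hκ : κ = β * r) (hk1 : 0.42 ≤ κ) (hk2 : κ ≤ 0.5)
    (hh : h = 2 * Real.pi / 5) (hh1 : 1.25663 ≤ h) (hh2 : h ≤ 1.25664) (hta : 0.415 ≤ t + κ) (htb : t + κ ≤ 0.5655)
    (hY : 0.8715 * Real.exp (r * sE κ t) ≤ ‖Xf β r h t 1‖) (hV : 1.0871 - 0.3768 * (t + κ) ≤ sE κ t) :
    ‖Xf β r h t 2‖ ≤ 0.00676 * ‖Xf β r h t 1‖ := by
  rw [v5_X 2 1 (by push_cast; ring)]
  exact v5_cmp 0.6316 0.001808 0.00673 0.874 0.0001612 0.0000226 0.00676 hr (B5Co_C34 (t := t + 1 * h) hβ hr hκ hk1 hk2 (by linarith only [hta, htb, hh1, hh2]) (by linarith only [hta, htb, hh1, hh2])) hY (by norm_num) (by norm_num) (by norm_num) (by norm_num) (by linarith only [hV, hta, htb, hh1, hh2]) (ex_un 6 0.3159 (by norm_num) (by norm_num) (by norm_num) (by norm_num)) (by norm_num) (by norm_num) (by linarith only [hV, hta, htb, hh1, hh2]) (ex_un 8 0.7399 (by norm_num) (by norm_num)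 (by norm_num) (by norm_num)) (by norm_num) (by norm_num)

private theorem B5Co_K40 {β r t κ h : ℝ} (hβ : 0 < β) (hr : 10 ≤ r) (hκ : κ = β * r) (hk1 : 0.42 ≤ κ) (hk2 : κ ≤ 0.5)
    (hh : h = 2 * Real.pi / 5) (hh1 : 1.25663 ≤ h) (hh2 : h ≤ 1.25664) (hta : 0.415 ≤ t + κ) (htb : t + κ ≤ 0.5655)
    (hY : 0.8715 * Real.exp (r * sE κ t) ≤ ‖Xf β r h t 1‖) (hV : 1.0871 - 0.3768 * (t + κ) ≤ sE κ t) :
    ‖Xf β r h t (-1)‖ ≤ 0.000727 * ‖Xf β r h t 1‖ := by
  rw [v5_X (-1) (-2) (by push_cast; ring)]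
  exact v5_cmp 1.0044 0.00004346 0.0000881 0.8239 0.0002643 0.000638 0.000727 hr (B5Co_C35 (t := t + (-2) * h) hβ hr hκ hk1 hk2 (by linarith only [hta, htb, hh1, hh2]) (by linarith only [hta, htb, hh1, hh2])) hY (by norm_num) (by norm_num) (by norm_num) (by norm_num) (by linarith only [hV, hta, htb, hh1, hh2]) (ex_un 10 0.0439 (by norm_num) (by norm_num) (by norm_num) (by norm_num)) (by norm_num) (by norm_num) (by linarith only [hV, hta, htb, hh1, hh2]) (ex_un 8 0.2389 (by norm_num) (by norm_num) (by norm_num) (by norm_num)) (by norm_num) (by norm_num)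

private theorem B5Co_K41 {β r t κ h : ℝ} (hβ : 0 < β) (hr : 10 ≤ r) (hκ : κ = β * r) (hk1 : 0.42 ≤ κ) (hk2 : κ ≤ 0.5)
    (hh : h = 2 * Real.pi / 5) (hh1 : 1.25663 ≤ h) (hh2 : h ≤ 1.25664) (hta : 0.415 ≤ t + κ) (htb : t + κ ≤ 0.5655)
    (hY : 0.8715 * Real.exp (r * sE κ t) ≤ ‖Xf β r h t 1‖) (hV : 1.0871 - 0.3768 * (t + κ) ≤ sE κ t) :
    ‖Xf β r h t (-2)‖ ≤ 0.000981 * ‖Xf β r h t 1‖ := by
  rw [v5_Xm2 hh]
  exact v5_cmp0 0.814 0.0002917 0.000981 hr (B5Co_C36 (t := t + 2 * h) hβ hr hκ hk1 hk2 (by linarith only [hta, htb, hh1, hh2]) (by linarith only [hta, htb, hh1, hh2])) hY (by norm_num) (by norm_num) (by norm_num) (by linarith only [hV, hta, htb, hh1, hh2]) (ex_un 8 0.1399 (by norm_num) (by norm_num) (by norm_num) (by norm_num)) (by norm_num)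

private theorem B5Co_C42 {β r t κ : ℝ} (hβ : 0 < β) (hr : 10 ≤ r) (hκ : κ = β * r) (hk1 : 0.42 ≤ κ) (hk2 : κ ≤ 0.5) (hta : (-0.8417) ≤ t + κ)
    (htb : t + κ ≤ (-0.6911)) : ‖F (cexp (I * β)) (r * cexp (I * ((t + β / 2 : ℝ) : ℂ)))‖ ≤
      1.766 * Real.exp (r * (1.25248 - (-0.71) * (t + κ))) + 2.0868 * Real.exp (r * 0.3765) :=
  v5_HU (-0.71) 0.42 0.5 (-0.8417) (-0.6911) 1.25248 1.766 1.81556 0.0893 1.1808 3.3702 0.4598 0.3765 0.00000175 2.0868 hβ hr hκ (by norm_num) hk1 hk2 hta htb (by norm_num) (by norm_num) (B5Co_G13 hk1 hk2).1 (B5Co_G13 hk1 hk2).2 (by norm_num) (by norm_num) (by norm_num)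
    (by norm_num) (by norm_num) (by norm_num) (by norm_num) (by norm_num) (by norm_num) (by norm_num)
    (by norm_num) (by norm_num) (by norm_num) (v5_hump 5.5439 19.999 4.4721 0.0000009316 0.00000175 hβ hr hκ hk1 hk2 (by norm_num) htb (by norm_num) (by norm_num) (by norm_num) (by norm_num) (by norm_num) (by norm_num) (by norm_num) (ex_un 13 0.9 (by norm_num) (by norm_num) (by norm_num) (by norm_num)) (by norm_num)) (by norm_num)

private theorem B5Co_K43 {β r t κ h : ℝ} (hβ : 0 < β) (hr : 10 ≤ r) (hκ : κ = β * r) (hk1 : 0.42 ≤ κ) (hk2 : κ ≤ 0.5)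
    (hh : h = 2 * Real.pi / 5) (hh1 : 1.25663 ≤ h) (hh2 : h ≤ 1.25664) (hta : 0.415 ≤ t + κ) (htb : t + κ ≤ 0.5655)
    (hY : 0.8715 * Real.exp (r * sE κ t) ≤ ‖Xf β r h t 1‖) (hV : 1.0871 - 0.3768 * (t + κ) ≤ sE κ t) :
    ‖Xf β r h t 0‖ ≤ 0.677 * ‖Xf β r h t 1‖ := by
  rw [v5_X 0 (-1) (by push_cast; ring)]
  exact v5_cmp 0.1122 0.3257 0.66 0.4975 0.007033 0.0169 0.677 hr (B5Co_C42 (t := t + (-1) * h) hβ hr hκ hk1 hk2 (by linarith only [hta, htb, hh1, hh2]) (by linarith only [hta, htb, hh1, hh2])) hY (by norm_num) (by norm_num) (by norm_num) (by norm_num) (by linarith only [hV, hta, htb, hh1, hh2]) (ex_un 1 0.1219 (by norm_num) (by norm_num) (by norm_num) (by norm_num)) (by norm_num) (by norm_num) (by linarith only [hV, hta, htb, hh1, hh2]) (ex_un 4 0.9749 (by norm_num) (by norm_num) (by norm_num) (by norm_num)) (by norm_num) (by norm_num)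

private theorem B5Co_O44 {β r t κ h : ℝ} (hβ : 0 < β) (hr : 10 ≤ r) (hκ : κ = β * r) (hk1 : 0.42 ≤ κ) (hk2 : κ ≤ 0.5)
    (hh : h = 2 * Real.pi / 5) (hta : 0.415 ≤ t + κ) (htb : t + κ ≤ 0.5655) :
    ‖Xf β r h t (-2)‖ + ‖Xf β r h t (-1)‖ + ‖Xf β r h t 2‖ < |‖Xf β r h t 1‖ - ‖Xf β r h t 0‖| := by
  obtain ⟨hh1, hh2⟩ := v5_h hh
  have hκ0 : 0 < κ := by linarith only [hk1]
  have hN : β * 19.999 ≤ 1 := v5_hN 0.5 19.999 hβ hr hκ hk2 (by norm_num) (by norm_num)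
  have hD1 : DomR κ t := v5_dom hκ0 (by linarith only [hta, htb, hk1, hk2, hh1, hh2]) (Or.inr (by linarith only [hta, htb, hk1, hk2, hh1, hh2]))
  have e1 : t = t + (((1 : ℤ) : ℝ) - 1) * h := by push_cast; ring
  have hY := B5Co_Y37 (h := h) hβ hκ hN hk1 hk2 e1 hD1 hta htb
  have hV := B5Co_V38 hD1 hk1 hk2 hta htb
  have cp2 := B5Co_K39 hβ hr hκ hk1 hk2 hh hh1 hh2 hta htb hY hV
  have cm1 := B5Co_K40 hβ hr hκ hk1 hk2 hh hh1 hh2 hta htb hY hV
  have cm2 := B5Co_K41 hβ hr hκ hk1 hk2 hh hh1 hh2 hta htb hY hV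
  have cn0 := B5Co_K43 hβ hr hκ hk1 hk2 hh hh1 hh2 hta htb hY hV
  have hp : 0 < ‖Xf β r h t 1‖ := lt_of_lt_of_le (by positivity) hY
  exact v5_out1 _ _ _ _ cm2 cm1 cp2 cn0 hp (by norm_num)

private theorem B5Co_B45 {κ t : ℝ} (h : DomR κ t) (hk1 : 0.42 ≤ κ) (hk2 : κ ≤ 0.5) (ht1 : (-0.4902) ≤ t + κ) (ht2 : t + κ ≤ (-0.3766)) :
    ((-0.251) ≤ sy κ t ∧ sy κ t ≤ (-0.159)) ∧ (0.4235 ≤ sx κ t ∧ sx κ t ≤ 0.6227) ∧ κ * Real.exp (-sy κ t) ≤ 0.6427 ∧ 0.7894 ≤ sD κ t ∧ sD κ t ≤ 1.0256 := by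
  have hy1 : -0.251 ≤ sy κ t := syL_ge h 0.42 0.5 0.4902 0.251 0.77802 0.77803 0.3719 0.39056 0.46497 hk1 hk2 (by linarith) (by norm_num) (by norm_num) (by norm_num)
    (expm_ge (by norm_num) (by norm_num) (by norm_num) (by norm_num)) (expm_le (by norm_num) (by norm_num) (by norm_num)) (by norm_num)
    (by norm_num) (by norm_num) (by norm_num) (by norm_num) (by norm_num) (by norm_num)
  have hy2 : sy κ t ≤ -0.159 := syL_le h 0.42 0.5 0.3766 0.159 0.85299 0.853 0.27125 0.32293 hk1 hk2 (by linarith) (by norm_num) (by norm_num) (by norm_num)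
    (expm_ge (by norm_num) (by norm_num) (by norm_num) (by norm_num)) (expm_le (by norm_num) (by norm_num) (by norm_num)) (by norm_num)
    (by norm_num) (by norm_num) (by norm_num) (by norm_num) (by norm_num) (by norm_num)
  have hy1' : (-0.251) ≤ sy κ t := by linarith
  have hy2' : sy κ t ≤ (-0.159) := by linarith
  have hx1 : 0.4235 ≤ sx κ t := sx_lo h 0.42 (-0.159) 0.2511 1.17233 0.4235 hk1 (by norm_num) hy2' (abs_le.2 ⟨by linarith, by linarith⟩) (ex_lp 0.159 (by norm_num) (by norm_num) (by norm_num)) (by norm_num) (by norm_num)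
  have hx2 : sx κ t ≤ 0.6227 := sx_hi h 0.5 (-0.251) 0.159 1.28532 0.6227 hk2 hy1' (by norm_num) (le_trans (by linarith) (neg_le_abs _)) (ex_up 0.251 (by norm_num) (by norm_num) (by norm_num) (by norm_num)) (by norm_num) (by norm_num)
  refine ⟨⟨hy1', hy2'⟩, ⟨hx1, hx2⟩, v5_n h 0.5 (-0.251) 1.28532 0.6427 hk2 hy1' (ex_up 0.251 (by norm_num) (by norm_num) (by norm_num) (by norm_num)) (by norm_num), ?_, ?_⟩
  · exact v5_Dlo h 0.42 (-0.251) (-0.159) (-0.251) 1.28531 0.7894 (by norm_num) hk1 hy1' hy2' (ex_lp 0.251 (by norm_num) (by norm_num) (by norm_num)) (by norm_num) (by norm_num) (by norm_num) (by norm_num)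
  · exact v5_Dup h 0.5 (-0.251) (-0.159) 1.28532 1.17234 1.0256 hk2 hy1' hy2' (ex_up 0.251 (by norm_num) (by norm_num) (by norm_num) (by norm_num)) (ex_up 0.159 (by norm_num) (by norm_num) (by norm_num) (by norm_num)) (by norm_num) (by norm_num) (by norm_num)

private theorem B5Co_T46_0_0 {β x y : ℝ} (hβ : 0 < β) (hN : β * 19.999 ≤ 1) (hx1 : 0.4234 ≤ x) (hx2 : x ≤ 0.542)
    (hy1 : -0.2511 ≤ y) (hy2 : y ≤ -0.1589) : ‖HH β (x + y * I) - 1‖ ≤ 0.03 := by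
  refine le_epsJ (C := 0.5994) (N0 := 19.999) (J_boxp 0.4234 0.542 0.2511 0 (-0.1589) 0.8298 0.5974 1.0007 1.3235 0.3991 4.4721 19.999 0.72 2.614 1.382 0.9798 0.4148 0.3153 0.7568 2.9877 0.4235 1.0862 1.7349 3.9349 0.0002498 0.001828 0.0000003101 0.0000003101 0.00021 0.0000003101 0.0000003101 0.0000003101 0.5994
    hβ hN hx1 hx2 hy1 hy2 (by norm_num) (by norm_num) (by linarith) (by norm_num) (by norm_num) (by norm_num) (by norm_num) (by norm_num) (by norm_num) (by norm_num) (by norm_num) (by norm_num) (by norm_num) (by norm_num) (by norm_num) (by norm_num) (by norm_num) (by norm_num) (by norm_num) (by norm_num) (by norm_num) (by norm_num) (by norm_num) (by norm_num)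
    (cube_sqrt_geJ (s := 0.8717) (by norm_num) (by norm_num) (by norm_num) (by norm_num))
    (cube_sqrt_geJ (s := 0.9549) (by norm_num) (by norm_num) (by norm_num) (by norm_num))
    (by norm_num) (by norm_num) (by norm_num) (by norm_num) (by norm_num) (by norm_num) (by norm_num) (by norm_num) (by norm_num) (by norm_num) (by norm_num) (by norm_num) (by norm_num) (by norm_num) (by norm_num) (by norm_num) (by norm_num) (by norm_num)
    (exp_neg_leJ (r := 0.295) 8 (by norm_num) (by norm_num) (by norm_num) (by norm_num))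
    (exp_neg_leJ (r := 0.305) 6 (by norm_num) (by norm_num) (by norm_num) (by norm_num))
    (exp_neg_leJ (r := 0.99) 14 (by norm_num) (by norm_num) (by norm_num) (by norm_num))
    (exp_neg_leJ (r := 0.99) 14 (by norm_num) (by norm_num) (by norm_num) (by norm_num))
    (exp_neg_leJ (r := 0.469) 8 (by norm_num) (by norm_num) (by norm_num) (by norm_num))
    (exp_neg_leJ (r := 0.99) 14 (by norm_num) (by norm_num) (by norm_num) (by norm_num))
    (exp_neg_leJ (r := 0.99) 14 (by norm_num) (by norm_num) (by norm_num) (by norm_num))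
    (exp_neg_leJ (r := 0.99) 14 (by norm_num) (by norm_num) (by norm_num) (by norm_num))
    (by norm_num)) (by norm_num) hN hβ.le (by norm_num)

private theorem B5Co_T46_0_1 {β x y : ℝ} (hβ : 0 < β) (hN : β * 19.999 ≤ 1) (hx1 : 0.542 ≤ x) (hx2 : x ≤ 0.6228)
    (hy1 : -0.2511 ≤ y) (hy2 : y ≤ -0.1589) : ‖HH β (x + y * I) - 1‖ ≤ 0.03 := by
  refine le_epsJ (C := 0.5364) (N0 := 19.999) (J_boxp 0.542 0.6228 0.2511 0 (-0.1589) 0.9134 0.6716 1.0466 1.172 0.4082 4.4721 19.999 0.7353 2.676 1.392 0.9487 0.4566 0.3447 0.7974 2.9427 0.4811 1.2504 1.9721 3.9704 0.0001083 0.001018 0.0000003101 0.0000003101 0.00006636 0.0000003101 0.0000003101 0.0000003101 0.5364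
    hβ hN hx1 hx2 hy1 hy2 (by norm_num) (by norm_num) (by linarith) (by norm_num) (by norm_num) (by norm_num) (by norm_num) (by norm_num) (by norm_num) (by norm_num) (by norm_num) (by norm_num) (by norm_num) (by norm_num) (by norm_num) (by norm_num) (by norm_num) (by norm_num) (by norm_num) (by norm_num) (by norm_num) (by norm_num) (by norm_num) (by norm_num)
    (cube_sqrt_geJ (s := 0.8688) (by norm_num) (by norm_num) (by norm_num) (by norm_num))
    (cube_sqrt_geJ (s := 0.9539) (by norm_num) (by norm_num) (by norm_num) (by norm_num))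
    (by norm_num) (by norm_num) (by norm_num) (by norm_num) (by norm_num) (by norm_num) (by norm_num) (by norm_num) (by norm_num) (by norm_num) (by norm_num) (by norm_num) (by norm_num) (by norm_num) (by norm_num) (by norm_num) (by norm_num) (by norm_num)
    (exp_neg_leJ (r := 0.131) 9 (by norm_num) (by norm_num) (by norm_num) (by norm_num))
    (exp_neg_leJ (r := 0.893) 6 (by norm_num) (by norm_num) (by norm_num) (by norm_num))
    (exp_neg_leJ (r := 0.99) 14 (by norm_num) (by norm_num) (by norm_num) (by norm_num))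
    (exp_neg_leJ (r := 0.99) 14 (by norm_num) (by norm_num) (by norm_num) (by norm_num))
    (exp_neg_leJ (r := 0.621) 9 (by norm_num) (by norm_num) (by norm_num) (by norm_num))
    (exp_neg_leJ (r := 0.99) 14 (by norm_num) (by norm_num) (by norm_num) (by norm_num))
    (exp_neg_leJ (r := 0.99) 14 (by norm_num) (by norm_num) (by norm_num) (by norm_num))
    (exp_neg_leJ (r := 0.99) 14 (by norm_num) (by norm_num) (by norm_num) (by norm_num))
    (by norm_num)) (by norm_num) hN hβ.le (by norm_num)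

private theorem B5Co_T46 {β x y : ℝ} (hβ : 0 < β) (hN : β * 19.999 ≤ 1) (hx1 : 0.4234 ≤ x) (hx2 : x ≤ 0.6228)
    (hy1 : (-0.2511) ≤ y) (hy2 : y ≤ (-0.1589)) : ‖HH β (x + y * I) - 1‖ ≤ 0.03 := by
  rcases le_total x 0.542 with hxx | hxx
  · exact B5Co_T46_0_0 hβ hN (by linarith) (by linarith) (by linarith) (by linarith)
  exact B5Co_T46_0_1 hβ hN (by linarith) (by linarith) (by linarith) (by linarith)

private theorem B5Co_C47 {β r t κ : ℝ} (hβ : 0 < β) (hr : 10 ≤ r) (hκ : κ = β * r) (hk1 : 0.42 ≤ κ) (hk2 : κ ≤ 0.5) (hta : 2.0231 ≤ t + κ)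
    (htb : t + κ ≤ 2.1367) : ‖F (cexp (I * β)) (r * cexp (I * ((t + β / 2 : ℝ) : ℂ)))‖ ≤
      4.7731 * Real.exp (r * (0.08 + 1 / 20)) :=
  v5_UD 0.42 0.5 2.0231 2.1367 0.08 0.6156 0.08 2.4884 4.7731 hβ hr hκ (by norm_num) hk1 hk2 hta htb (by norm_num) (by norm_num) (by norm_num) (by norm_num) (by norm_num) (by norm_num) (by norm_num) (by norm_num) (by norm_num) (by norm_num) (by norm_num)

private theorem B5Co_C48 {β r t κ : ℝ} (hβ : 0 < β) (hr : 10 ≤ r) (hκ : κ = β * r) (hk1 : 0.42 ≤ κ) (hk2 : κ ≤ 0.5) (hta : (-1.7468) ≤ t + κ)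
    (htb : t + κ ≤ (-1.6332)) : ‖F (cexp (I * β)) (r * cexp (I * ((t + β / 2 : ℝ) : ℂ)))‖ ≤
      1.766 * Real.exp (r * (1.25248 - (-0.71) * (t + κ))) + 2.0965 * Real.exp (r * 0.0501) :=
  v5_HU (-0.71) 0.42 0.5 (-1.7468) (-1.6332) 1.25248 1.766 1.81556 0.0893 1.1808 2.4651 0 0.0501 0.00000175 2.0965 hβ hr hκ (by norm_num) hk1 hk2 hta htb (by norm_num) (by norm_num) (B5Co_G13 hk1 hk2).1 (B5Co_G13 hk1 hk2).2 (by norm_num) (by norm_num) (by norm_num)
    (by norm_num) (by norm_num) (by norm_num) (by norm_num) (by norm_num) (by norm_num) (by norm_num)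
    (by norm_num) (by norm_num) (by norm_num) (v5_hump 6.486 19.999 4.4721 0.0000009316 0.00000175 hβ hr hκ hk1 hk2 (by norm_num) htb (by norm_num) (by norm_num) (by norm_num) (by norm_num) (by norm_num) (by norm_num) (by norm_num) (ex_un 13 0.9 (by norm_num) (by norm_num) (by norm_num) (by norm_num)) (by norm_num)) (by norm_num)

private theorem B5Co_C49 {β r t κ : ℝ} (hβ : 0 < β) (hr : 10 ≤ r) (hκ : κ = β * r) (hk1 : 0.42 ≤ κ) (hk2 : κ ≤ 0.5) (hta : 3.2797 ≤ t + κ)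
    (htb : t + κ ≤ 3.3933) : ‖F (cexp (I * β)) (r * cexp (I * ((t + β / 2 : ℝ) : ℂ)))‖ ≤
      2.911 * Real.exp (r * (0.01 + 1 / 20)) :=
  v5_UD 0.42 0.5 3.2797 3.3933 0.01 0.6156 0.01 1.5176 2.911 hβ hr hκ (by norm_num) hk1 hk2 hta htb (by norm_num) (by norm_num) (by norm_num) (by norm_num) (by norm_num) (by norm_num) (by norm_num) (by norm_num) (by norm_num) (by norm_num) (by norm_num)

private theorem B5Co_Y50 {β r t κ h t' : ℝ} (hβ : 0 < β) (hκ : κ = β * r) (hN : β * 19.999 ≤ 1) (hk1 : 0.42 ≤ κ) (hk2 : κ ≤ 0.5)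
    (ht : t' = t + (((0 : ℤ) : ℝ) - 1) * h) (hD : DomR κ t') (hta : (-0.4902) ≤ t' + κ) (htb : t' + κ ≤ (-0.3766)) :
    0.9638 * Real.exp (r * sE κ t') ≤ ‖Xf β r h t 0‖ := by
  obtain ⟨⟨ya, yb⟩, ⟨xa, xb⟩, n1, Da, Db⟩ := B5Co_B45 hD hk1 hk2 hta htb
  have J := B5Co_T46 (x := sx κ t') (y := sy κ t') hβ hN (by linarith only [xa, xb, ya, yb]) (by linarith only [xa, xb, ya, yb]) (by linarith only [xa, xb, ya, yb]) (by linarith only [xa, xb, ya, yb])
  exact v5_Jlo hβ hκ (k := 0) ht hD 0.03 1.0256 0.9638 (by norm_num) J Db (by norm_num)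

private theorem B5Co_V51 {κ t : ℝ} (hD : DomR κ t) (hk1 : 0.42 ≤ κ) (hk2 : κ ≤ 0.5) (hta : (-0.4902) ≤ t + κ) (htb : t + κ ≤ (-0.3766)) :
    1.09393 + 0.4411 * (t + κ) ≤ sE κ t := by
  have hκ0 : 0 < κ := hD.1
  exact v5_V0 hD 0.42 0.5 (-0.4902) (-0.3766) 0.4903 0.5987 0.1656 0.03839 0.61424 0.42503 1.09393 0.4411 (by norm_num) hk1 hk2 (by norm_num) hta htb (by norm_num) (by norm_num) (by norm_num) ((cup1 0.5 hκ0.le hk2 (by norm_num)).trans (by norm_num))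
      (by norm_num) (by norm_num) (by norm_num) (by norm_num) (by norm_num) (by norm_num) (by norm_num) (by norm_num) (by norm_num) (by norm_num) (by norm_num) (by norm_num) (by norm_num)

private theorem B5Co_K52 {β r t κ h : ℝ} (hβ : 0 < β) (hr : 10 ≤ r) (hκ : κ = β * r) (hk1 : 0.42 ≤ κ) (hk2 : κ ≤ 0.5)
    (hh : h = 2 * Real.pi / 5) (hh1 : 1.25663 ≤ h) (hh2 : h ≤ 1.25664) (hta : 0.7665 ≤ t + κ) (htb : t + κ ≤ 0.88)
    (hY : 0.9638 * Real.exp (r * sE κ (t - h)) ≤ ‖Xf β r h t 0‖) (hV : 1.09393 + 0.4411 * (t - h + κ) ≤ sE κ (t - h)) :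
    ‖Xf β r h t 2‖ ≤ 0.00281 * ‖Xf β r h t 0‖ := by
  rw [v5_X 2 1 (by push_cast; ring)]
  exact v5_cmp0 0.7477 0.0005669 0.00281 hr (B5Co_C47 (t := t + 1 * h) hβ hr hκ hk1 hk2 (by linarith only [hta, htb, hh1, hh2]) (by linarith only [hta, htb, hh1, hh2])) hY (by norm_num) (by norm_num) (by norm_num) (by linarith only [hV, hta, htb, hh1, hh2]) (ex_un 7 0.4769 (by norm_num) (by norm_num) (by norm_num) (by norm_num)) (by norm_num)

private theorem B5Co_K53 {β r t κ h : ℝ} (hβ : 0 < β) (hr : 10 ≤ r) (hκ : κ = β * r) (hk1 : 0.42 ≤ κ) (hk2 : κ ≤ 0.5)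
    (hh : h = 2 * Real.pi / 5) (hh1 : 1.25663 ≤ h) (hh2 : h ≤ 1.25664) (hta : 0.7665 ≤ t + κ) (htb : t + κ ≤ 0.88)
    (hY : 0.9638 * Real.exp (r * sE κ (t - h)) ≤ ‖Xf β r h t 0‖) (hV : 1.09393 + 0.4411 * (t - h + κ) ≤ sE κ (t - h)) :
    ‖Xf β r h t (-1)‖ ≤ 0.00099 * ‖Xf β r h t 0‖ := by
  rw [v5_X (-1) (-2) (by push_cast; ring)]
  exact v5_cmp 0.8349 0.0002368 0.000434 0.8276 0.0002547 0.000555 0.00099 hr (B5Co_C48 (t := t + (-2) * h) hβ hr hκ hk1 hk2 (by linarith only [hta, htb, hh1, hh2]) (by linarith only [hta, htb, hh1, hh2])) hY (by norm_num) (by norm_num) (by norm_num) (by norm_num) (by linarith only [hV, hta, htb, hh1, hh2]) (ex_un 8 0.3489 (by norm_num) (by norm_num) (by norm_num) (by norm_num)) (by norm_num) (by norm_num) (by linarith only [hV, hta, htb, hh1, hh2]) (ex_un 8 0.2759 (by norm_num) (by norm_num) (by norm_num) (by norm_num)) (by norm_num) (by norm_num)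

private theorem B5Co_K54 {β r t κ h : ℝ} (hβ : 0 < β) (hr : 10 ≤ r) (hκ : κ = β * r) (hk1 : 0.42 ≤ κ) (hk2 : κ ≤ 0.5)
    (hh : h = 2 * Real.pi / 5) (hh1 : 1.25663 ≤ h) (hh2 : h ≤ 1.25664) (hta : 0.7665 ≤ t + κ) (htb : t + κ ≤ 0.88)
    (hY : 0.9638 * Real.exp (r * sE κ (t - h)) ≤ ‖Xf β r h t 0‖) (hV : 1.09393 + 0.4411 * (t - h + κ) ≤ sE κ (t - h)) :
    ‖Xf β r h t (-2)‖ ≤ 0.00085 * ‖Xf β r h t 0‖ := by
  rw [v5_Xm2 hh]
  exact v5_cmp0 0.8177 0.0002811 0.00085 hr (B5Co_C49 (t := t + 2 * h) hβ hr hκ hk1 hk2 (by linarith only [hta, htb, hh1, hh2]) (by linarith only [hta, htb, hh1, hh2])) hY (by norm_num) (by norm_num) (by norm_num) (by linarith only [hV, hta, htb, hh1, hh2]) (ex_un 8 0.1769 (by norm_num) (by norm_num) (by norm_num) (by norm_num)) (by norm_num)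

private theorem B5Co_G55 {κ : ℝ} (hk1 : 0.42 ≤ κ) (hk2 : κ ≤ 0.5) : gG κ 0.44 ≤ 1.14708 ∧ 0.64402 ≤ Real.exp (-(κ * 0.44)) ^ 2 := by
  refine ⟨gG_le 0.44 0.42 0.5 1.14708 0.83128 0.80252 1.20298 1.24608 hk1 hk2 (by norm_num)
    (ex_um 0.1848 (by norm_num) (by norm_num) (by norm_num) (by norm_num)) (ex_um 0.22 (by norm_num) (by norm_num) (by norm_num) (by norm_num))
    (ex_up 0.1848 (by norm_num) (by norm_num) (by norm_num) (by norm_num)) (ex_up 0.22 (by norm_num) (by norm_num) (by norm_num) (by norm_num))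
    (by norm_num) (by norm_num), ?_⟩
  exact v5_M 0.80251 (ex_lm 0.22 (by linarith) (by norm_num) (by norm_num) (by norm_num) (by norm_num)) (by norm_num) (by norm_num)

private theorem B5Co_B56 {κ t : ℝ} (h : DomR κ t) (hk1 : 0.42 ≤ κ) (hk2 : κ ≤ 0.5) (ht1 : 0.7664 ≤ t + κ) (ht2 : t + κ ≤ 0.8801) :
    (0.199 ≤ sy κ t ∧ sy κ t ≤ 0.25) ∧ (0.2108 ≤ sx κ t ∧ sx κ t ≤ 0.3583) ∧ κ * Real.exp (-sy κ t) ≤ 0.4098 ∧ 1.5164 ≤ sD κ t ∧ sD κ t ≤ 1.6517 := by
  have hy1 : 0.199 ≤ sy κ t := syR_ge h 0.42 0.5 0.7664 0.199 1.22018 1.22019 0.48563 0.57814 hk1 hk2 (by linarith) (by norm_num) (by norm_num)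
    (expn_ge (by norm_num) (by norm_num)) (expn_le (by norm_num) (by norm_num) (by norm_num)) (by norm_num)
    (by norm_num) (by norm_num) (by norm_num) (by norm_num) (by norm_num) (by norm_num)
  have hy2 : sy κ t ≤ 0.25 := syR_le h 0.42 0.5 0.8801 0.25 1.28402 0.6114 0.642 0.76431 hk1 hk2 (by linarith) (by norm_num) (by norm_num)
    (expn_ge (by norm_num) (by norm_num)) (by norm_num) (by norm_num) (Or.inr ((mul_le_mul_of_nonneg_left (expn_le (E := 1.28403) (by norm_num) (by norm_num) (by norm_num)) (by norm_num)).trans (by norm_num))) (by norm_num) (by norm_num) (by norm_num)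
  have hy1' : 0.199 ≤ sy κ t := by linarith
  have hy2' : sy κ t ≤ 0.25 := by linarith
  have hx1 : 0.2108 ≤ sx κ t := sx_lo h 0.42 0.25 0.2501 0.7788 0.2108 hk1 (by norm_num) hy2' (abs_le.2 ⟨by linarith, by linarith⟩) (ex_lm 0.25 (by norm_num) (by norm_num) (by norm_num) (by norm_num) (by norm_num)) (by norm_num) (by norm_num)
  have hx2 : sx κ t ≤ 0.3583 := sx_hi h 0.5 0.199 0.199 0.81955 0.3583 hk2 hy1' (by norm_num) (le_trans (by linarith) (le_abs_self _)) (ex_um 0.199 (by norm_num) (by norm_num) (by norm_num) (by norm_num)) (by norm_num) (by norm_num)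
  refine ⟨⟨hy1', hy2'⟩, ⟨hx1, hx2⟩, v5_n h 0.5 0.199 0.81955 0.4098 hk2 hy1' (ex_um 0.199 (by norm_num) (by norm_num) (by norm_num) (by norm_num)) (by norm_num), ?_, ?_⟩
  · exact v5_Dlo h 0.42 0.199 0.25 0.199 0.81954 1.5164 (by norm_num) hk1 hy1' hy2' (ex_lm 0.199 (by norm_num) (by norm_num) (by norm_num) (by norm_num) (by norm_num)) (by norm_num) (by norm_num) (by norm_num) (by norm_num)
  · exact v5_Dup h 0.5 0.199 0.25 0.81955 0.77881 1.6517 hk2 hy1' hy2' (ex_um 0.199 (by norm_num) (by norm_num) (by norm_num) (by norm_num)) (ex_um 0.25 (by norm_num) (by norm_num) (by norm_num) (by norm_num)) (by norm_num) (by norm_num) (by norm_num)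

private theorem B5Co_T57_0_0 {β x y : ℝ} (hβ : 0 < β) (hN : β * 19.999 ≤ 1) (hx1 : 0.2107 ≤ x) (hx2 : x ≤ 0.3584)
    (hy1 : -0 ≤ y) (hy2 : y ≤ 0.2501) : ‖HH β (x + y * I) - 1‖ ≤ 0.03 := by
  refine le_epsJ (C := 0.3207) (N0 := 19.999) (J_boxp 0.2107 0.3584 0 0.2501 0.2501 0.8584 0.4371 1.3005 1.434 0.455 4.4721 19.999 0.5093 1.918 1.253 1.2822 0.4291 0.3563 1.0804 3.8756 0.4318 0.7662 0.9194 2.7668 0.0001878 0.0008048 0.0000003101 0.0000003101 0.0001779 0.0000003101 0.0000003101 0.0000003101 0.3207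
    hβ hN hx1 hx2 hy1 hy2 (by norm_num) (by norm_num) (by linarith) (by norm_num) (by norm_num) (by norm_num) (by norm_num) (by norm_num) (by norm_num) (by norm_num) (by norm_num) (by norm_num) (by norm_num) (by norm_num) (by norm_num) (by norm_num) (by norm_num) (by norm_num) (by norm_num) (by norm_num) (by norm_num) (by norm_num) (by norm_num) (by norm_num)
    (cube_sqrt_geJ (s := 0.9111) (by norm_num) (by norm_num) (by norm_num) (by norm_num))
    (cube_sqrt_geJ (s := 0.9683) (by norm_num) (by norm_num) (by norm_num) (by norm_num))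
    (by norm_num) (by norm_num) (by norm_num) (by norm_num) (by norm_num) (by norm_num) (by norm_num) (by norm_num) (by norm_num) (by norm_num) (by norm_num) (by norm_num) (by norm_num) (by norm_num) (by norm_num) (by norm_num) (by norm_num) (by norm_num)
    (exp_neg_leJ (r := 0.581) 8 (by norm_num) (by norm_num) (by norm_num) (by norm_num))
    (exp_neg_leJ (r := 0.125) 7 (by norm_num) (by norm_num) (by norm_num) (by norm_num))
    (exp_neg_leJ (r := 0.99) 14 (by norm_num) (by norm_num) (by norm_num) (by norm_num))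
    (exp_neg_leJ (r := 0.99) 14 (by norm_num) (by norm_num) (by norm_num) (by norm_num))
    (exp_neg_leJ (r := 0.635) 8 (by norm_num) (by norm_num) (by norm_num) (by norm_num))
    (exp_neg_leJ (r := 0.99) 14 (by norm_num) (by norm_num) (by norm_num) (by norm_num))
    (exp_neg_leJ (r := 0.99) 14 (by norm_num) (by norm_num) (by norm_num) (by norm_num))
    (exp_neg_leJ (r := 0.99) 14 (by norm_num) (by norm_num) (by norm_num) (by norm_num))
    (by norm_num)) (by norm_num) hN hβ.le (by norm_num)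

private theorem B5Co_T57 {β x y : ℝ} (hβ : 0 < β) (hN : β * 19.999 ≤ 1) (hx1 : 0.2107 ≤ x) (hx2 : x ≤ 0.3584)
    (hy1 : 0.1989 ≤ y) (hy2 : y ≤ 0.2501) : ‖HH β (x + y * I) - 1‖ ≤ 0.03 := by
  exact B5Co_T57_0_0 hβ hN (by linarith) (by linarith) (by linarith) (by linarith)

private theorem B5Co_U58 {β r t κ h t' : ℝ} (hβ : 0 < β) (hκ : κ = β * r) (hN : β * 19.999 ≤ 1) (hk1 : 0.42 ≤ κ) (hk2 : κ ≤ 0.5)
    (ht : t' = t + (((1 : ℤ) : ℝ) - 1) * h) (hD : DomR κ t') (hta : 0.7664 ≤ t' + κ) (htb : t' + κ ≤ 0.8801) :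
    ‖Xf β r h t 1‖ ≤ 0.9282 * Real.exp (r * sE κ t') := by
  obtain ⟨⟨ya, yb⟩, ⟨xa, xb⟩, n1, Da, Db⟩ := B5Co_B56 hD hk1 hk2 hta htb
  have J := B5Co_T57 (x := sx κ t') (y := sy κ t') hβ hN (by linarith only [xa, xb, ya, yb]) (by linarith only [xa, xb, ya, yb]) (by linarith only [xa, xb, ya, yb]) (by linarith only [xa, xb, ya, yb])
  exact v5_Jup (h := h) (t := t) (k := 1) hβ hκ ht hD 0.03 1.5164 0.9282 J Da (by norm_num) (by norm_num)

private theorem B5Co_K59 {β r t κ h : ℝ} (hβ : 0 < β) (hr : 10 ≤ r) (hκ : κ = β * r) (hk1 : 0.42 ≤ κ) (hk2 : κ ≤ 0.5)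
    (hh : h = 2 * Real.pi / 5) (hh1 : 1.25663 ≤ h) (hh2 : h ≤ 1.25664) (hta : 0.7665 ≤ t + κ) (htb : t + κ ≤ 0.88) (hN : β * 19.999 ≤ 1)
    (hD : DomR κ t) (hY : 0.9638 * Real.exp (r * sE κ (t - h)) ≤ ‖Xf β r h t 0‖) (hV : 1.09393 + 0.4411 * (t - h + κ) ≤ sE κ (t - h)) :
    ‖Xf β r h t 1‖ ≤ 0.492 * ‖Xf β r h t 0‖ := by
  have hU := B5Co_U58 (h := h) (t := t) hβ hκ hN hk1 hk2 (by push_cast; ring) hD (by linarith only [hta, htb, hh1, hh2]) (by linarith only [hta, htb, hh1, hh2])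
  have hW := V_up hD 0.44 (B5Co_G55 hk1 hk2).1
  exact v5_cmpJ 0.0679 0.5099 0.492 hr hU hW hY (by norm_num) (by norm_num) (by norm_num) (by linarith only [hV, hta, htb, hh1, hh2]) (ex_un 0 0.6789 (by norm_num) (by norm_num) (by norm_num) (by norm_num)) (by norm_num)

private theorem B5Co_O60 {β r t κ h : ℝ} (hβ : 0 < β) (hr : 10 ≤ r) (hκ : κ = β * r) (hk1 : 0.42 ≤ κ) (hk2 : κ ≤ 0.5)
    (hh : h = 2 * Real.pi / 5) (hta : 0.7665 ≤ t + κ) (htb : t + κ ≤ 0.88) :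
    ‖Xf β r h t (-2)‖ + ‖Xf β r h t (-1)‖ + ‖Xf β r h t 2‖ < |‖Xf β r h t 1‖ - ‖Xf β r h t 0‖| := by
  obtain ⟨hh1, hh2⟩ := v5_h hh
  have hκ0 : 0 < κ := by linarith only [hk1]
  have hN : β * 19.999 ≤ 1 := v5_hN 0.5 19.999 hβ hr hκ hk2 (by norm_num) (by norm_num)
  have hD1 : DomR κ t := v5_dom hκ0 (by linarith only [hta, htb, hk1, hk2, hh1, hh2]) (Or.inr (by linarith only [hta, htb, hk1, hk2, hh1, hh2]))
  have hD0 : DomR κ (t - h) := v5_dom hκ0 (by linarith only [hta, htb, hk1, hk2, hh1, hh2]) (Or.inr (by linarith only [hta, htb, hk1, hk2, hh1, hh2]))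
  have h0a : (-0.4902) ≤ t - h + κ := by linarith only [hta, htb, hh1, hh2]
  have h0b : t - h + κ ≤ (-0.3766) := by linarith only [hta, htb, hh1, hh2]
  have e0 : t - h = t + (((0 : ℤ) : ℝ) - 1) * h := by push_cast; ring
  have hY := B5Co_Y50 (h := h) hβ hκ hN hk1 hk2 e0 hD0 h0a h0b
  have hV := B5Co_V51 hD0 hk1 hk2 h0a h0b
  have cp2 := B5Co_K52 hβ hr hκ hk1 hk2 hh hh1 hh2 hta htb hY hV
  have cm1 := B5Co_K53 hβ hr hκ hk1 hk2 hh hh1 hh2 hta htb hY hV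
  have cm2 := B5Co_K54 hβ hr hκ hk1 hk2 hh hh1 hh2 hta htb hY hV
  have cn1 := B5Co_K59 hβ hr hκ hk1 hk2 hh hh1 hh2 hta htb hN hD1 hY hV
  have hp : 0 < ‖Xf β r h t 0‖ := lt_of_lt_of_le (by positivity) hY
  exact v5_out0 _ _ _ _ cm2 cm1 cp2 cn1 hp (by norm_num)

private theorem B5Co_B61 {κ t : ℝ} (h : DomR κ t) (hk1 : 0.42 ≤ κ) (hk2 : κ ≤ 0.5) (ht1 : (-0.3767) ≤ t + κ) (ht2 : t + κ ≤ (-0.1886)) :
    ((-0.181) ≤ sy κ t ∧ sy κ t ≤ (-0.073)) ∧ (0.4139 ≤ sx κ t ∧ sx κ t ≤ 0.5948) ∧ κ * Real.exp (-sy κ t) ≤ 0.5993 ∧ 0.8913 ≤ sD κ t ∧ sD κ t ≤ 1.1434 := by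
  have hy1 : -0.181 ≤ sy κ t := syL_ge h 0.42 0.5 0.3767 0.181 0.83443 0.83444 0.2876 0.30206 0.35961 hk1 hk2 (by linarith) (by norm_num) (by norm_num) (by norm_num)
    (expm_ge (by norm_num) (by norm_num) (by norm_num) (by norm_num)) (expm_le (by norm_num) (by norm_num) (by norm_num)) (by norm_num)
    (by norm_num) (by norm_num) (by norm_num) (by norm_num) (by norm_num) (by norm_num)
  have hy2 : sy κ t ≤ -0.073 := syL_le h 0.42 0.5 0.1886 0.073 0.9296 0.92961 0.13572 0.16158 hk1 hk2 (by linarith) (by norm_num) (by norm_num) (by norm_num)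
    (expm_ge (by norm_num) (by norm_num) (by norm_num) (by norm_num)) (expm_le (by norm_num) (by norm_num) (by norm_num)) (by norm_num)
    (by norm_num) (by norm_num) (by norm_num) (by norm_num) (by norm_num) (by norm_num)
  have hy1' : (-0.181) ≤ sy κ t := by linarith
  have hy2' : sy κ t ≤ (-0.073) := by linarith
  have hx1 : 0.4139 ≤ sx κ t := sx_lo h 0.42 (-0.073) 0.1811 1.07573 0.4139 hk1 (by norm_num) hy2' (abs_le.2 ⟨by linarith, by linarith⟩) (ex_lp 0.073 (by norm_num) (by norm_num) (by norm_num)) (by norm_num) (by norm_num)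
  have hx2 : sx κ t ≤ 0.5948 := sx_hi h 0.5 (-0.181) 0.073 1.19842 0.5948 hk2 hy1' (by norm_num) (le_trans (by linarith) (neg_le_abs _)) (ex_up 0.181 (by norm_num) (by norm_num) (by norm_num) (by norm_num)) (by norm_num) (by norm_num)
  refine ⟨⟨hy1', hy2'⟩, ⟨hx1, hx2⟩, v5_n h 0.5 (-0.181) 1.19842 0.5993 hk2 hy1' (ex_up 0.181 (by norm_num) (by norm_num) (by norm_num) (by norm_num)) (by norm_num), ?_, ?_⟩
  · exact v5_Dlo h 0.42 (-0.181) (-0.073) (-0.181) 1.19841 0.8913 (by norm_num) hk1 hy1' hy2' (ex_lp 0.181 (by norm_num) (by norm_num) (by norm_num)) (by norm_num) (by norm_num) (by norm_num) (by norm_num)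
  · exact v5_Dup h 0.5 (-0.181) (-0.073) 1.19842 1.07574 1.1434 hk2 hy1' hy2' (ex_up 0.181 (by norm_num) (by norm_num) (by norm_num) (by norm_num)) (ex_up 0.073 (by norm_num) (by norm_num) (by norm_num) (by norm_num)) (by norm_num) (by norm_num) (by norm_num)

private theorem B5Co_T62_0_0 {β x y : ℝ} (hβ : 0 < β) (hN : β * 19.999 ≤ 1) (hx1 : 0.4138 ≤ x) (hx2 : x ≤ 0.5949)
    (hy1 : -0.1811 ≤ y) (hy2 : y ≤ -0.0729) : ‖HH β (x + y * I) - 1‖ ≤ 0.03 := by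
  refine le_epsJ (C := 0.5576) (N0 := 19.999) (J_boxp 0.4138 0.5949 0.1811 0 (-0.0729) 0.8728 0.6219 1.1016 1.2872 0.4188 4.4721 19.999 0.7126 2.584 1.377 1.0241 0.4363 0.3327 0.864 3.1844 0.457 1.0729 1.906 3.8491 0.0001627 0.001291 0.0000003101 0.0000003101 0.0001074 0.0000003101 0.0000003101 0.0000003101 0.5576
    hβ hN hx1 hx2 hy1 hy2 (by norm_num) (by norm_num) (by linarith) (by norm_num) (by norm_num) (by norm_num) (by norm_num) (by norm_num) (by norm_num) (by norm_num) (by norm_num) (by norm_num) (by norm_num) (by norm_num) (by norm_num) (by norm_num) (by norm_num) (by norm_num) (by norm_num) (by norm_num) (by norm_num) (by norm_num) (by norm_num) (by norm_num)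
    (cube_sqrt_geJ (s := 0.8731) (by norm_num) (by norm_num) (by norm_num) (by norm_num))
    (cube_sqrt_geJ (s := 0.9553) (by norm_num) (by norm_num) (by norm_num) (by norm_num))
    (by norm_num) (by norm_num) (by norm_num) (by norm_num) (by norm_num) (by norm_num) (by norm_num) (by norm_num) (by norm_num) (by norm_num) (by norm_num) (by norm_num) (by norm_num) (by norm_num) (by norm_num) (by norm_num) (by norm_num) (by norm_num)
    (exp_neg_leJ (r := 0.725) 8 (by norm_num) (by norm_num) (by norm_num) (by norm_num))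
    (exp_neg_leJ (r := 0.653) 6 (by norm_num) (by norm_num) (by norm_num) (by norm_num))
    (exp_neg_leJ (r := 0.99) 14 (by norm_num) (by norm_num) (by norm_num) (by norm_num))
    (exp_neg_leJ (r := 0.99) 14 (by norm_num) (by norm_num) (by norm_num) (by norm_num))
    (exp_neg_leJ (r := 0.139) 9 (by norm_num) (by norm_num) (by norm_num) (by norm_num))
    (exp_neg_leJ (r := 0.99) 14 (by norm_num) (by norm_num) (by norm_num) (by norm_num))
    (exp_neg_leJ (r := 0.99) 14 (by norm_num) (by norm_num) (by norm_num) (by norm_num))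
    (exp_neg_leJ (r := 0.99) 14 (by norm_num) (by norm_num) (by norm_num) (by norm_num))
    (by norm_num)) (by norm_num) hN hβ.le (by norm_num)

private theorem B5Co_T62 {β x y : ℝ} (hβ : 0 < β) (hN : β * 19.999 ≤ 1) (hx1 : 0.4138 ≤ x) (hx2 : x ≤ 0.5949)
    (hy1 : (-0.1811) ≤ y) (hy2 : y ≤ (-0.0729)) : ‖HH β (x + y * I) - 1‖ ≤ 0.03 := by
  exact B5Co_T62_0_0 hβ hN (by linarith) (by linarith) (by linarith) (by linarith)

private theorem B5Co_C63 {β r t κ : ℝ} (hβ : 0 < β) (hr : 10 ≤ r) (hκ : κ = β * r) (hk1 : 0.42 ≤ κ) (hk2 : κ ≤ 0.5) (hta : 2.1366 ≤ t + κ)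
    (htb : t + κ ≤ 2.3247) : ‖F (cexp (I * β)) (r * cexp (I * ((t + β / 2 : ℝ) : ℂ)))‖ ≤
      3.6414 * Real.exp (r * (0.01 + 1 / 20)) :=
  v5_UD 0.42 0.5 2.1366 2.3247 0.01 0.6156 0.01 1.8984 3.6414 hβ hr hκ (by norm_num) hk1 hk2 hta htb (by norm_num) (by norm_num) (by norm_num) (by norm_num) (by norm_num) (by norm_num) (by norm_num) (by norm_num) (by norm_num) (by norm_num) (by norm_num)

private theorem B5Co_C64 {β r t κ : ℝ} (hβ : 0 < β) (hr : 10 ≤ r) (hκ : κ = β * r) (hk1 : 0.42 ≤ κ) (hk2 : κ ≤ 0.5) (hta : (-1.6333) ≤ t + κ)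
    (htb : t + κ ≤ (-1.4452)) : ‖F (cexp (I * β)) (r * cexp (I * ((t + β / 2 : ℝ) : ℂ)))‖ ≤
      1.766 * Real.exp (r * (1.25248 - (-0.71) * (t + κ))) + 2.0949 * Real.exp (r * 0.0501) :=
  v5_HU (-0.71) 0.42 0.5 (-1.6333) (-1.4452) 1.25248 1.766 1.81556 0.0893 1.1808 2.5786 0 0.0501 0.00000175 2.0949 hβ hr hκ (by norm_num) hk1 hk2 hta htb (by norm_num) (by norm_num) (B5Co_G13 hk1 hk2).1 (B5Co_G13 hk1 hk2).2 (by norm_num) (by norm_num) (by norm_num)
    (by norm_num) (by norm_num) (by norm_num) (by norm_num) (by norm_num) (by norm_num) (by norm_num)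
    (by norm_num) (by norm_num) (by norm_num) (v5_hump 6.298 19.999 4.4721 0.0000009316 0.00000175 hβ hr hκ hk1 hk2 (by norm_num) htb (by norm_num) (by norm_num) (by norm_num) (by norm_num) (by norm_num) (by norm_num) (by norm_num) (ex_un 13 0.9 (by norm_num) (by norm_num) (by norm_num) (by norm_num)) (by norm_num)) (by norm_num)

private theorem B5Co_C65 {β r t κ : ℝ} (hβ : 0 < β) (hr : 10 ≤ r) (hκ : κ = β * r) (hk1 : 0.42 ≤ κ) (hk2 : κ ≤ 0.5) (hta : 3.3932 ≤ t + κ)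
    (htb : t + κ ≤ 3.5813) : ‖F (cexp (I * β)) (r * cexp (I * ((t + β / 2 : ℝ) : ℂ)))‖ ≤
      2.9069 * Real.exp (r * (0.01 + 1 / 20)) :=
  v5_UD 0.42 0.5 3.3932 3.5813 0.01 0.6156 0.01 1.5155 2.9069 hβ hr hκ (by norm_num) hk1 hk2 hta htb (by norm_num) (by norm_num) (by norm_num) (by norm_num) (by norm_num) (by norm_num) (by norm_num) (by norm_num) (by norm_num) (by norm_num) (by norm_num)

private theorem B5Co_Y66 {β r t κ h t' : ℝ} (hβ : 0 < β) (hκ : κ = β * r) (hN : β * 19.999 ≤ 1) (hk1 : 0.42 ≤ κ) (hk2 : κ ≤ 0.5)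
    (ht : t' = t + (((0 : ℤ) : ℝ) - 1) * h) (hD : DomR κ t') (hta : (-0.3767) ≤ t' + κ) (htb : t' + κ ≤ (-0.1886)) :
    0.938 * Real.exp (r * sE κ t') ≤ ‖Xf β r h t 0‖ := by
  obtain ⟨⟨ya, yb⟩, ⟨xa, xb⟩, n1, Da, Db⟩ := B5Co_B61 hD hk1 hk2 hta htb
  have J := B5Co_T62 (x := sx κ t') (y := sy κ t') hβ hN (by linarith only [xa, xb, ya, yb]) (by linarith only [xa, xb, ya, yb]) (by linarith only [xa, xb, ya, yb]) (by linarith only [xa, xb, ya, yb])
  exact v5_Jlo hβ hκ (k := 0) ht hD 0.03 1.1434 0.938 (by norm_num) J Db (by norm_num)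

private theorem B5Co_V67 {κ t : ℝ} (hD : DomR κ t) (hk1 : 0.42 ≤ κ) (hk2 : κ ≤ 0.5) (hta : (-0.3767) ≤ t + κ) (htb : t + κ ≤ (-0.1886)) :
    1.03453 + 0.2748 * (t + κ) ≤ sE κ t := by
  have hκ0 : 0 < κ := hD.1
  exact v5_V0 hD 0.42 0.5 (-0.3767) (-0.1886) 0.3768 0.5719 0.1656 0.03839 0.61424 0.42503 1.03453 0.2748 (by norm_num) hk1 hk2 (by norm_num) hta htb (by norm_num) (by norm_num) (by norm_num) ((cup1 0.5 hκ0.le hk2 (by norm_num)).trans (by norm_num))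
      (by norm_num) (by norm_num) (by norm_num) (by norm_num) (by norm_num) (by norm_num) (by norm_num) (by norm_num) (by norm_num) (by norm_num) (by norm_num) (by norm_num) (by norm_num)

private theorem B5Co_K68 {β r t κ h : ℝ} (hβ : 0 < β) (hr : 10 ≤ r) (hκ : κ = β * r) (hk1 : 0.42 ≤ κ) (hk2 : κ ≤ 0.5)
    (hh : h = 2 * Real.pi / 5) (hh1 : 1.25663 ≤ h) (hh2 : h ≤ 1.25664) (hta : 0.88 ≤ t + κ) (htb : t + κ ≤ 1.068)
    (hY : 0.938 * Real.exp (r * sE κ (t - h)) ≤ ‖Xf β r h t 0‖) (hV : 1.03453 + 0.2748 * (t - h + κ) ≤ sE κ (t - h)) :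
    ‖Xf β r h t 2‖ ≤ 0.000645 * ‖Xf β r h t 0‖ := by
  rw [v5_X 2 1 (by push_cast; ring)]
  exact v5_cmp0 0.871 0.000166 0.000645 hr (B5Co_C63 (t := t + 1 * h) hβ hr hκ hk1 hk2 (by linarith only [hta, htb, hh1, hh2]) (by linarith only [hta, htb, hh1, hh2])) hY (by norm_num) (by norm_num) (by norm_num) (by linarith only [hV, hta, htb, hh1, hh2]) (ex_un 8 0.7099 (by norm_num) (by norm_num) (by norm_num) (by norm_num)) (by norm_num)

private theorem B5Co_K69 {β r t κ h : ℝ} (hβ : 0 < β) (hr : 10 ≤ r) (hκ : κ = β * r) (hk1 : 0.42 ≤ κ) (hk2 : κ ≤ 0.5)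
    (hh : h = 2 * Real.pi / 5) (hh1 : 1.25663 ≤ h) (hh2 : h ≤ 1.25664) (hta : 0.88 ≤ t + κ) (htb : t + κ ≤ 1.068)
    (hY : 0.938 * Real.exp (r * sE κ (t - h)) ≤ ‖Xf β r h t 0‖) (hV : 1.03453 + 0.2748 * (t - h + κ) ≤ sE κ (t - h)) :
    ‖Xf β r h t (-1)‖ ≤ 0.00132 * ‖Xf β r h t 0‖ := by
  rw [v5_X (-1) (-2) (by push_cast; ring)]
  exact v5_cmp 0.7563 0.0005208 0.000981 0.8809 0.0001509 0.000338 0.00132 hr (B5Co_C64 (t := t + (-2) * h) hβ hr hκ hk1 hk2 (by linarith only [hta, htb, hh1, hh2]) (by linarith only [hta, htb, hh1, hh2])) hY (by norm_num) (by norm_num) (by norm_num) (by norm_num) (by linarith only [hV, hta, htb, hh1, hh2]) (ex_un 7 0.5629 (by norm_num) (by norm_num) (by norm_num) (by norm_num)) (by norm_num) (by norm_num) (by linarith only [hV, hta, htb, hh1, hh2]) (ex_un 8 0.8089 (by norm_num) (by norm_num) (by norm_num) (by norm_num)) (by norm_num) (by norm_num)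

private theorem B5Co_K70 {β r t κ h : ℝ} (hβ : 0 < β) (hr : 10 ≤ r) (hκ : κ = β * r) (hk1 : 0.42 ≤ κ) (hk2 : κ ≤ 0.5)
    (hh : h = 2 * Real.pi / 5) (hh1 : 1.25663 ≤ h) (hh2 : h ≤ 1.25664) (hta : 0.88 ≤ t + κ) (htb : t + κ ≤ 1.068)
    (hY : 0.938 * Real.exp (r * sE κ (t - h)) ≤ ‖Xf β r h t 0‖) (hV : 1.03453 + 0.2748 * (t - h + κ) ≤ sE κ (t - h)) :
    ‖Xf β r h t (-2)‖ ≤ 0.000515 * ‖Xf β r h t 0‖ := by
  rw [v5_Xm2 hh]
  exact v5_cmp0 0.871 0.000166 0.000515 hr (B5Co_C65 (t := t + 2 * h) hβ hr hκ hk1 hk2 (by linarith only [hta, htb, hh1, hh2]) (by linarith only [hta, htb, hh1, hh2])) hY (by norm_num) (by norm_num) (by norm_num) (by linarith only [hV, hta, htb, hh1, hh2]) (ex_un 8 0.7099 (by norm_num) (by norm_num) (by norm_num) (by norm_num)) (by norm_num)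

private theorem B5Co_G71 {κ : ℝ} (hk1 : 0.42 ≤ κ) (hk2 : κ ≤ 0.5) : gG κ 0.45 ≤ 1.15474 ∧ 0.63761 ≤ Real.exp (-(κ * 0.45)) ^ 2 := by
  refine ⟨gG_le 0.45 0.42 0.5 1.15474 0.82779 0.79852 1.20805 1.25233 hk1 hk2 (by norm_num)
    (ex_um 0.189 (by norm_num) (by norm_num) (by norm_num) (by norm_num)) (ex_um 0.225 (by norm_num) (by norm_num) (by norm_num) (by norm_num))
    (ex_up 0.189 (by norm_num) (by norm_num) (by norm_num) (by norm_num)) (ex_up 0.225 (by norm_num) (by norm_num) (by norm_num) (by norm_num))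
    (by norm_num) (by norm_num), ?_⟩
  exact v5_M 0.79851 (ex_lm 0.225 (by linarith) (by norm_num) (by norm_num) (by norm_num) (by norm_num)) (by norm_num) (by norm_num)

private theorem B5Co_C72 {β r t κ : ℝ} (hβ : 0 < β) (hr : 10 ≤ r) (hκ : κ = β * r) (hk1 : 0.42 ≤ κ) (hk2 : κ ≤ 0.5) (hta : 0.8799 ≤ t + κ)
    (htb : t + κ ≤ 1.0681) : ‖F (cexp (I * β)) (r * cexp (I * ((t + β / 2 : ℝ) : ℂ)))‖ ≤
      2.3374 * Real.exp (r * (1.15474 - 0.45 * (t + κ))) + 0.1351 * Real.exp (r * 0) :=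
  v5_H 0.45 0.42 0.5 0.8799 1.0681 1.15474 2.3269 0.63761 0.0893 1.9505 0.9225 0.22287 0.1077 0.00000175 2.3374 0.1351 hβ hr hκ (by norm_num) hk1 hk2 hta htb (by norm_num) (B5Co_G71 hk1 hk2).1 (B5Co_G71 hk1 hk2).2 (by norm_num) (by norm_num) (by norm_num)
    (by norm_num) (by norm_num) (by norm_num) (by norm_num) (by norm_num) (by norm_num) (by norm_num) (by norm_num) (ex_un 2 0.2286 (by norm_num) (by norm_num) (by norm_num) (by norm_num))
    (v5_hump 3.7847 19.999 4.4721 0.0000009316 0.00000175 hβ hr hκ hk1 hk2 (by norm_num) htb (by norm_num) (by norm_num) (by norm_num) (by norm_num) (by norm_num) (by norm_num) (by norm_num) (ex_un 13 0.9 (by norm_num) (by norm_num) (by norm_num) (by norm_num)) (by norm_num)) (by norm_num) (by norm_num)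

private theorem B5Co_K73 {β r t κ h : ℝ} (hβ : 0 < β) (hr : 10 ≤ r) (hκ : κ = β * r) (hk1 : 0.42 ≤ κ) (hk2 : κ ≤ 0.5)
    (hh : h = 2 * Real.pi / 5) (hh1 : 1.25663 ≤ h) (hh2 : h ≤ 1.25664) (hta : 0.88 ≤ t + κ) (htb : t + κ ≤ 1.068)
    (hY : 0.938 * Real.exp (r * sE κ (t - h)) ≤ ‖Xf β r h t 0‖) (hV : 1.03453 + 0.2748 * (t - h + κ) ≤ sE κ (t - h)) :
    ‖Xf β r h t 1‖ ≤ 0.45 * ‖Xf β r h t 0‖ := by
  rw [v5_X 1 0 (by push_cast; ring)]
  exact v5_cmp 0.1722 0.1799 0.449 0.931 0.00009056 0.0000131 0.45 hr (B5Co_C72 (t := t + 0 * h) hβ hr hκ hk1 hk2 (by linarith only [hta, htb, hh1, hh2]) (by linarith only [hta, htb, hh1, hh2])) hY (by norm_num) (by norm_num) (by norm_num) (by norm_num) (by linarith only [hV, hta, htb, hh1, hh2]) (ex_un 1 0.7219 (by norm_num) (by norm_num) (by norm_num) (by norm_num)) (by norm_num) (by norm_num) (by linarith only [hV, hta, htb, hh1, hh2]) (ex_un 9 0.3099 (by norm_num)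 (by norm_num) (by norm_num) (by norm_num)) (by norm_num) (by norm_num)

private theorem B5Co_O74 {β r t κ h : ℝ} (hβ : 0 < β) (hr : 10 ≤ r) (hκ : κ = β * r) (hk1 : 0.42 ≤ κ) (hk2 : κ ≤ 0.5)
    (hh : h = 2 * Real.pi / 5) (hta : 0.88 ≤ t + κ) (htb : t + κ ≤ 1.068) :
    ‖Xf β r h t (-2)‖ + ‖Xf β r h t (-1)‖ + ‖Xf β r h t 2‖ < |‖Xf β r h t 1‖ - ‖Xf β r h t 0‖| := by
  obtain ⟨hh1, hh2⟩ := v5_h hh
  have hκ0 : 0 < κ := by linarith only [hk1]
  have hN : β * 19.999 ≤ 1 := v5_hN 0.5 19.999 hβ hr hκ hk2 (by norm_num) (by norm_num)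
  have hD1 : DomR κ t := v5_dom hκ0 (by linarith only [hta, htb, hk1, hk2, hh1, hh2]) (Or.inr (by linarith only [hta, htb, hk1, hk2, hh1, hh2]))
  have hD0 : DomR κ (t - h) := v5_dom hκ0 (by linarith only [hta, htb, hk1, hk2, hh1, hh2]) (Or.inr (by linarith only [hta, htb, hk1, hk2, hh1, hh2]))
  have h0a : (-0.3767) ≤ t - h + κ := by linarith only [hta, htb, hh1, hh2]
  have h0b : t - h + κ ≤ (-0.1886) := by linarith only [hta, htb, hh1, hh2]
  have e0 : t - h = t + (((0 : ℤ) : ℝ) - 1) * h := by push_cast; ring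
  have hY := B5Co_Y66 (h := h) hβ hκ hN hk1 hk2 e0 hD0 h0a h0b
  have hV := B5Co_V67 hD0 hk1 hk2 h0a h0b
  have cp2 := B5Co_K68 hβ hr hκ hk1 hk2 hh hh1 hh2 hta htb hY hV
  have cm1 := B5Co_K69 hβ hr hκ hk1 hk2 hh hh1 hh2 hta htb hY hV
  have cm2 := B5Co_K70 hβ hr hκ hk1 hk2 hh hh1 hh2 hta htb hY hV
  have cn1 := B5Co_K73 hβ hr hκ hk1 hk2 hh hh1 hh2 hta htb hY hV
  have hp : 0 < ‖Xf β r h t 0‖ := lt_of_lt_of_le (by positivity) hY
  exact v5_out0 _ _ _ _ cm2 cm1 cp2 cn1 hp (by norm_num)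

private theorem B5Co_B75 {κ t : ℝ} (h : DomR κ t) (hk1 : 0.42 ≤ κ) (hk2 : κ ≤ 0.5) (ht1 : (-0.1887) ≤ t + κ) (ht2 : t + κ ≤ 0.0629) :
    ((-0.083) ≤ sy κ t ∧ sy κ t ≤ 0.025) ∧ (0.4011 ≤ sx κ t ∧ sx κ t ≤ 0.5433) ∧ κ * Real.exp (-sy κ t) ≤ 0.5433 ∧ 1.0422 ≤ sD κ t ∧ sD κ t ≤ 1.2879 := by
  have hy1 : -0.083 ≤ sy κ t := syL_ge h 0.42 0.5 0.1887 0.083 0.92035 0.92036 0.1454 0.15277 0.18189 hk1 hk2 (by linarith) (by norm_num) (by norm_num) (by norm_num)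
    (expm_ge (by norm_num) (by norm_num) (by norm_num) (by norm_num)) (expm_le (by norm_num) (by norm_num) (by norm_num)) (by norm_num)
    (by norm_num) (by norm_num) (by norm_num) (by norm_num) (by norm_num) (by norm_num)
  have hy2 : sy κ t ≤ 0.025 := syR_le h 0.42 0.5 0.0629 0.025 1.02531 0.0488 0.05126 0.06104 hk1 hk2 (by linarith) (by norm_num) (by norm_num)
    (expn_ge (by norm_num) (by norm_num)) (by norm_num) (by norm_num) (Or.inr ((mul_le_mul_of_nonneg_left (expn_le (E := 1.02532) (by norm_num) (by norm_num) (by norm_num)) (by norm_num)).trans (by norm_num))) (by norm_num) (by norm_num) (by norm_num)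
  have hy1' : (-0.083) ≤ sy κ t := by linarith
  have hy2' : sy κ t ≤ 0.025 := by linarith
  have hx1 : 0.4011 ≤ sx κ t := sx_lo h 0.42 0.025 0.0831 0.9753 0.4011 hk1 (by norm_num) hy2' (abs_le.2 ⟨by linarith, by linarith⟩) (ex_lm 0.025 (by norm_num) (by norm_num) (by norm_num) (by norm_num) (by norm_num)) (by norm_num) (by norm_num)
  have hx2 : sx κ t ≤ 0.5433 := sx_hi h 0.5 (-0.083) 0 1.08655 0.5433 hk2 hy1' (by norm_num) (abs_nonneg _) (ex_up 0.083 (by norm_num) (by norm_num) (by norm_num) (by norm_num)) (by norm_num) (by norm_num)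
  refine ⟨⟨hy1', hy2'⟩, ⟨hx1, hx2⟩, v5_n h 0.5 (-0.083) 1.08655 0.5433 hk2 hy1' (ex_up 0.083 (by norm_num) (by norm_num) (by norm_num) (by norm_num)) (by norm_num), ?_, ?_⟩
  · exact v5_Dlo h 0.42 (-0.083) 0.025 (-0.083) 1.08654 1.0422 (by norm_num) hk1 hy1' hy2' (ex_lp 0.083 (by norm_num) (by norm_num) (by norm_num)) (by norm_num) (by norm_num) (by norm_num) (by norm_num)
  · exact v5_Dup h 0.5 (-0.083) 0.025 1.08655 0.97531 1.2879 hk2 hy1' hy2' (ex_up 0.083 (by norm_num) (by norm_num) (by norm_num) (by norm_num)) (ex_um 0.025 (by norm_num) (by norm_num) (by norm_num) (by norm_num)) (by norm_num) (by norm_num) (by norm_num)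

private theorem B5Co_T76_0_0 {β x y : ℝ} (hβ : 0 < β) (hN : β * 19.999 ≤ 1) (hx1 : 0.401 ≤ x) (hx2 : x ≤ 0.5434)
    (hy1 : -0.0831 ≤ y) (hy2 : y ≤ 0.0251) : ‖HH β (x + y * I) - 1‖ ≤ 0.03 := by
  refine le_epsJ (C := 0.3392) (N0 := 19.999) (J_boxp 0.401 0.5434 0.0831 0.0251 0.0251 0.9334 0.5498 1.1603 1.1945 0.4298 4.4721 19.999 0.5891 2.15 1.3 1.1344 0.4666 0.375 1.0143 3.5274 0.5018 1.0526 2.0391 3.9013 0.00008864 0.0005538 0.0000003101 0.0000003101 0.00004384 0.0000003101 0.0000003101 0.0000003101 0.3392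
    hβ hN hx1 hx2 hy1 hy2 (by norm_num) (by norm_num) (by linarith) (by norm_num) (by norm_num) (by norm_num) (by norm_num) (by norm_num) (by norm_num) (by norm_num) (by norm_num) (by norm_num) (by norm_num) (by norm_num) (by norm_num) (by norm_num) (by norm_num) (by norm_num) (by norm_num) (by norm_num) (by norm_num) (by norm_num) (by norm_num) (by norm_num)
    (cube_sqrt_geJ (s := 0.8964) (by norm_num) (by norm_num) (by norm_num) (by norm_num))
    (cube_sqrt_geJ (s := 0.9632) (by norm_num) (by norm_num) (by norm_num) (by norm_num))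
    (by norm_num) (by norm_num) (by norm_num) (by norm_num) (by norm_num) (by norm_num) (by norm_num) (by norm_num) (by norm_num) (by norm_num) (by norm_num) (by norm_num) (by norm_num) (by norm_num) (by norm_num) (by norm_num) (by norm_num) (by norm_num)
    (exp_neg_leJ (r := 0.331) 9 (by norm_num) (by norm_num) (by norm_num) (by norm_num))
    (exp_neg_leJ (r := 0.499) 7 (by norm_num) (by norm_num) (by norm_num) (by norm_num))
    (exp_neg_leJ (r := 0.99) 14 (by norm_num) (by norm_num) (by norm_num) (by norm_num))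
    (exp_neg_leJ (r := 0.99) 14 (by norm_num) (by norm_num) (by norm_num) (by norm_num))
    (exp_neg_leJ (r := 0.035) 10 (by norm_num) (by norm_num) (by norm_num) (by norm_num))
    (exp_neg_leJ (r := 0.99) 14 (by norm_num) (by norm_num) (by norm_num) (by norm_num))
    (exp_neg_leJ (r := 0.99) 14 (by norm_num) (by norm_num) (by norm_num) (by norm_num))
    (exp_neg_leJ (r := 0.99) 14 (by norm_num) (by norm_num) (by norm_num) (by norm_num))
    (by norm_num)) (by norm_num) hN hβ.le (by norm_num)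

private theorem B5Co_T76 {β x y : ℝ} (hβ : 0 < β) (hN : β * 19.999 ≤ 1) (hx1 : 0.401 ≤ x) (hx2 : x ≤ 0.5434)
    (hy1 : (-0.0831) ≤ y) (hy2 : y ≤ 0.0251) : ‖HH β (x + y * I) - 1‖ ≤ 0.03 := by
  exact B5Co_T76_0_0 hβ hN (by linarith) (by linarith) (by linarith) (by linarith)

private theorem B5Co_C77 {β r t κ : ℝ} (hβ : 0 < β) (hr : 10 ≤ r) (hκ : κ = β * r) (hk1 : 0.42 ≤ κ) (hk2 : κ ≤ 0.5) (hta : 2.3246 ≤ t + κ)
    (htb : t + κ ≤ 2.5762) : ‖F (cexp (I * β)) (r * cexp (I * ((t + β / 2 : ℝ) : ℂ)))‖ ≤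
      3.0863 * Real.exp (r * (0.01 + 1 / 20)) :=
  v5_UD 0.42 0.5 2.3246 2.5762 0.01 0.6156 0.01 1.609 3.0863 hβ hr hκ (by norm_num) hk1 hk2 hta htb (by norm_num) (by norm_num) (by norm_num) (by norm_num) (by norm_num) (by norm_num) (by norm_num) (by norm_num) (by norm_num) (by norm_num) (by norm_num)

private theorem B5Co_C78 {β r t κ : ℝ} (hβ : 0 < β) (hr : 10 ≤ r) (hκ : κ = β * r) (hk1 : 0.42 ≤ κ) (hk2 : κ ≤ 0.5) (hta : (-1.4453) ≤ t + κ)
    (htb : t + κ ≤ (-1.1937)) : ‖F (cexp (I * β)) (r * cexp (I * ((t + β / 2 : ℝ) : ℂ)))‖ ≤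
      1.766 * Real.exp (r * (1.25248 - (-0.71) * (t + κ))) + 2.0926 * Real.exp (r * 0.0501) :=
  v5_HU (-0.71) 0.42 0.5 (-1.4453) (-1.1937) 1.25248 1.766 1.81556 0.0893 1.1808 2.7666 0 0.0501 0.00000175 2.0926 hβ hr hκ (by norm_num) hk1 hk2 hta htb (by norm_num) (by norm_num) (B5Co_G13 hk1 hk2).1 (B5Co_G13 hk1 hk2).2 (by norm_num) (by norm_num) (by norm_num)
    (by norm_num) (by norm_num) (by norm_num) (by norm_num) (by norm_num) (by norm_num) (by norm_num)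
    (by norm_num) (by norm_num) (by norm_num) (v5_hump 6.0465 19.999 4.4721 0.0000009316 0.00000175 hβ hr hκ hk1 hk2 (by norm_num) htb (by norm_num) (by norm_num) (by norm_num) (by norm_num) (by norm_num) (by norm_num) (by norm_num) (ex_un 13 0.9 (by norm_num) (by norm_num) (by norm_num) (by norm_num)) (by norm_num)) (by norm_num)

private theorem B5Co_C79 {β r t κ : ℝ} (hβ : 0 < β) (hr : 10 ≤ r) (hκ : κ = β * r) (hk1 : 0.42 ≤ κ) (hk2 : κ ≤ 0.5) (hta : 3.5812 ≤ t + κ)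
    (htb : t + κ ≤ 3.8328) : ‖F (cexp (I * β)) (r * cexp (I * ((t + β / 2 : ℝ) : ℂ)))‖ ≤
      2.9014 * Real.exp (r * (0.01 + 1 / 20)) :=
  v5_UD 0.42 0.5 3.5812 3.8328 0.01 0.6156 0.01 1.5126 2.9014 hβ hr hκ (by norm_num) hk1 hk2 hta htb (by norm_num) (by norm_num) (by norm_num) (by norm_num) (by norm_num) (by norm_num) (by norm_num) (by norm_num) (by norm_num) (by norm_num) (by norm_num)

private theorem B5Co_Y80 {β r t κ h t' : ℝ} (hβ : 0 < β) (hκ : κ = β * r) (hN : β * 19.999 ≤ 1) (hk1 : 0.42 ≤ κ) (hk2 : κ ≤ 0.5)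
    (ht : t' = t + (((0 : ℤ) : ℝ) - 1) * h) (hD : DomR κ t') (hta : (-0.1887) ≤ t' + κ) (htb : t' + κ ≤ 0.0629) :
    0.9105 * Real.exp (r * sE κ t') ≤ ‖Xf β r h t 0‖ := by
  obtain ⟨⟨ya, yb⟩, ⟨xa, xb⟩, n1, Da, Db⟩ := B5Co_B75 hD hk1 hk2 hta htb
  have J := B5Co_T76 (x := sx κ t') (y := sy κ t') hβ hN (by linarith only [xa, xb, ya, yb]) (by linarith only [xa, xb, ya, yb]) (by linarith only [xa, xb, ya, yb]) (by linarith only [xa, xb, ya, yb])
  exact v5_Jlo hβ hκ (k := 0) ht hD 0.03 1.2879 0.9105 (by norm_num) J Db (by norm_num)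

private theorem B5Co_V81 {κ t : ℝ} (hD : DomR κ t) (hk1 : 0.42 ≤ κ) (hk2 : κ ≤ 0.5) (hta : (-0.1887) ≤ t + κ) (htb : t + κ ≤ 0.0629) :
    0.99461 + 0.057 * (t + κ) ≤ sE κ t := by
  have hκ0 : 0 < κ := hD.1
  exact v5_V0 hD 0.42 0.5 (-0.1887) 0.0629 0.1888 0.5334 0.1656 0.03839 0.61424 0.42503 0.99461 0.057 (by norm_num) hk1 hk2 (by norm_num) hta htb (by norm_num) (by norm_num) (by norm_num) ((cup1 0.5 hκ0.le hk2 (by norm_num)).trans (by norm_num))
      (by norm_num) (by norm_num) (by norm_num) (by norm_num) (by norm_num) (by norm_num) (by norm_num) (by norm_num) (by norm_num) (by norm_num) (by norm_num) (by norm_num) (by norm_num)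

private theorem B5Co_K82 {β r t κ h : ℝ} (hβ : 0 < β) (hr : 10 ≤ r) (hκ : κ = β * r) (hk1 : 0.42 ≤ κ) (hk2 : κ ≤ 0.5)
    (hh : h = 2 * Real.pi / 5) (hh1 : 1.25663 ≤ h) (hh2 : h ≤ 1.25664) (hta : 1.068 ≤ t + κ) (htb : t + κ ≤ 1.3195)
    (hY : 0.9105 * Real.exp (r * sE κ (t - h)) ≤ ‖Xf β r h t 0‖) (hV : 0.99461 + 0.057 * (t - h + κ) ≤ sE κ (t - h)) :
    ‖Xf β r h t 2‖ ≤ 0.00033 * ‖Xf β r h t 0‖ := by
  rw [v5_X 2 1 (by push_cast; ring)]
  exact v5_cmp0 0.9238 0.0000973 0.00033 hr (B5Co_C77 (t := t + 1 * h) hβ hr hκ hk1 hk2 (by linarith only [hta, htb, hh1, hh2]) (by linarith only [hta, htb, hh1, hh2])) hY (by norm_num) (by norm_num) (by norm_num) (by linarith only [hV, hta, htb, hh1, hh2]) (ex_un 9 0.2379 (by norm_num) (by norm_num) (by norm_num) (by norm_num)) (by norm_num)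

private theorem B5Co_K83 {β r t κ h : ℝ} (hβ : 0 < β) (hr : 10 ≤ r) (hκ : κ = β * r) (hk1 : 0.42 ≤ κ) (hk2 : κ ≤ 0.5)
    (hh : h = 2 * Real.pi / 5) (hh1 : 1.25663 ≤ h) (hh2 : h ≤ 1.25664) (hta : 1.068 ≤ t + κ) (htb : t + κ ≤ 1.3195)
    (hY : 0.9105 * Real.exp (r * sE κ (t - h)) ≤ ‖Xf β r h t 0‖) (hV : 0.99461 + 0.057 * (t - h + κ) ≤ sE κ (t - h)) :
    ‖Xf β r h t (-1)‖ ≤ 0.00544 * ‖Xf β r h t 0‖ := by
  rw [v5_X (-1) (-2) (by push_cast; ring)]
  exact v5_cmp 0.5932 0.002695 0.00523 0.9337 0.00008815 0.000203 0.00544 hr (B5Co_C78 (t := t + (-2) * h) hβ hr hκ hk1 hk2 (by linarith only [hta, htb, hh1, hh2]) (by linarith only [hta, htb, hh1, hh2])) hY (by norm_num) (by norm_num) (by norm_num) (by norm_num) (by linarith only [hV, hta, htb, hh1, hh2]) (ex_un 5 0.9319 (by norm_num) (by norm_num) (by norm_num) (by norm_num)) (by norm_num) (by norm_num) (by linarith only [hV, hta, htb, hh1, hh2]) (ex_un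 9 0.3369 (by norm_num) (by norm_num) (by norm_num) (by norm_num)) (by norm_num) (by norm_num)

private theorem B5Co_K84 {β r t κ h : ℝ} (hβ : 0 < β) (hr : 10 ≤ r) (hκ : κ = β * r) (hk1 : 0.42 ≤ κ) (hk2 : κ ≤ 0.5)
    (hh : h = 2 * Real.pi / 5) (hh1 : 1.25663 ≤ h) (hh2 : h ≤ 1.25664) (hta : 1.068 ≤ t + κ) (htb : t + κ ≤ 1.3195)
    (hY : 0.9105 * Real.exp (r * sE κ (t - h)) ≤ ‖Xf β r h t 0‖) (hV : 0.99461 + 0.057 * (t - h + κ) ≤ sE κ (t - h)) :
    ‖Xf β r h t (-2)‖ ≤ 0.000311 * ‖Xf β r h t 0‖ := by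
  rw [v5_Xm2 hh]
  exact v5_cmp0 0.9238 0.0000973 0.000311 hr (B5Co_C79 (t := t + 2 * h) hβ hr hκ hk1 hk2 (by linarith only [hta, htb, hh1, hh2]) (by linarith only [hta, htb, hh1, hh2])) hY (by norm_num) (by norm_num) (by norm_num) (by linarith only [hV, hta, htb, hh1, hh2]) (ex_un 9 0.2379 (by norm_num) (by norm_num) (by norm_num) (by norm_num)) (by norm_num)

private theorem B5Co_G85 {κ : ℝ} (hk1 : 0.42 ≤ κ) (hk2 : κ ≤ 0.5) : gG κ 0.5 ≤ 1.1971 ∧ 0.60652 ≤ Real.exp (-(κ * 0.5)) ^ 2 := by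
  refine ⟨gG_le 0.5 0.42 0.5 1.1971 0.81059 0.77881 1.23368 1.28403 hk1 hk2 (by norm_num)
    (ex_um 0.21 (by norm_num) (by norm_num) (by norm_num) (by norm_num)) (ex_um 0.25 (by norm_num) (by norm_num) (by norm_num) (by norm_num))
    (ex_up 0.21 (by norm_num) (by norm_num) (by norm_num) (by norm_num)) (ex_up 0.25 (by norm_num) (by norm_num) (by norm_num) (by norm_num))
    (by norm_num) (by norm_num), ?_⟩
  exact v5_M 0.7788 (ex_lm 0.25 (by linarith) (by norm_num) (by norm_num) (by norm_num) (by norm_num)) (by norm_num) (by norm_num)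

private theorem B5Co_C86 {β r t κ : ℝ} (hβ : 0 < β) (hr : 10 ≤ r) (hκ : κ = β * r) (hk1 : 0.42 ≤ κ) (hk2 : κ ≤ 0.5) (hta : 1.0679 ≤ t + κ)
    (htb : t + κ ≤ 1.3196) : ‖F (cexp (I * β)) (r * cexp (I * ((t + β / 2 : ℝ) : ℂ)))‖ ≤
      2.4723 * Real.exp (r * (1.1971 - 0.5 * (t + κ))) + 0.1311 * Real.exp (r * 0) :=
  v5_H 0.5 0.42 0.5 1.0679 1.3196 1.1971 2.4457 0.60652 0.0893 2.1385 0.671 0.16169 0.1993 0.00000175 2.4723 0.1311 hβ hr hκ (by norm_num) hk1 hk2 hta htb (by norm_num) (B5Co_G85 hk1 hk2).1 (B5Co_G85 hk1 hk2).2 (by norm_num) (by norm_num) (by norm_num)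
    (by norm_num) (by norm_num) (by norm_num) (by norm_num) (by norm_num) (by norm_num) (by norm_num) (by norm_num) (ex_un 1 0.6168 (by norm_num) (by norm_num) (by norm_num) (by norm_num))
    (v5_hump 3.5332 19.999 4.4721 0.0000009316 0.00000175 hβ hr hκ hk1 hk2 (by norm_num) htb (by norm_num) (by norm_num) (by norm_num) (by norm_num) (by norm_num) (by norm_num) (by norm_num) (ex_un 13 0.9 (by norm_num) (by norm_num) (by norm_num) (by norm_num)) (by norm_num)) (by norm_num) (by norm_num)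

private theorem B5Co_K87 {β r t κ h : ℝ} (hβ : 0 < β) (hr : 10 ≤ r) (hκ : κ = β * r) (hk1 : 0.42 ≤ κ) (hk2 : κ ≤ 0.5)
    (hh : h = 2 * Real.pi / 5) (hh1 : 1.25663 ≤ h) (hh2 : h ≤ 1.25664) (hta : 1.068 ≤ t + κ) (htb : t + κ ≤ 1.3195)
    (hY : 0.9105 * Real.exp (r * sE κ (t - h)) ≤ ‖Xf β r h t 0‖) (hV : 0.99461 + 0.057 * (t - h + κ) ≤ sE κ (t - h)) :
    ‖Xf β r h t 1‖ ≤ 0.111 * ‖Xf β r h t 0‖ := by
  rw [v5_X 1 0 (by push_cast; ring)]
  exact v5_cmp 0.3207 0.04049 0.11 0.9838 0.00005397 0.00000778 0.111 hr (B5Co_C86 (t := t + 0 * h) hβ hr hκ hk1 hk2 (by linarith only [hta, htb, hh1, hh2]) (by linarith only [hta, htb, hh1, hh2])) hY (by norm_num) (by norm_num) (by norm_num) (by norm_num) (by linarith only [hV, hta, htb, hh1, hh2]) (ex_un 3 0.2069 (by norm_num) (by norm_num) (by norm_num) (by norm_num)) (by norm_num) (by norm_num) (by linarith only [hV, hta, htb, hh1, hh2]) (ex_un 9 0.8379 (by norm_num)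 (by norm_num) (by norm_num) (by norm_num)) (by norm_num) (by norm_num)

private theorem B5Co_O88 {β r t κ h : ℝ} (hβ : 0 < β) (hr : 10 ≤ r) (hκ : κ = β * r) (hk1 : 0.42 ≤ κ) (hk2 : κ ≤ 0.5)
    (hh : h = 2 * Real.pi / 5) (hta : 1.068 ≤ t + κ) (htb : t + κ ≤ 1.3195) :
    ‖Xf β r h t (-2)‖ + ‖Xf β r h t (-1)‖ + ‖Xf β r h t 2‖ < |‖Xf β r h t 1‖ - ‖Xf β r h t 0‖| := by
  obtain ⟨hh1, hh2⟩ := v5_h hh
  have hκ0 : 0 < κ := by linarith only [hk1]
  have hN : β * 19.999 ≤ 1 := v5_hN 0.5 19.999 hβ hr hκ hk2 (by norm_num) (by norm_num)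
  have hD1 : DomR κ t := v5_dom hκ0 (by linarith only [hta, htb, hk1, hk2, hh1, hh2]) (Or.inr (by linarith only [hta, htb, hk1, hk2, hh1, hh2]))
  have hD0 : DomR κ (t - h) := v5_dom hκ0 (by linarith only [hta, htb, hk1, hk2, hh1, hh2]) (Or.inr (by linarith only [hta, htb, hk1, hk2, hh1, hh2]))
  have h0a : (-0.1887) ≤ t - h + κ := by linarith only [hta, htb, hh1, hh2]
  have h0b : t - h + κ ≤ 0.0629 := by linarith only [hta, htb, hh1, hh2]
  have e0 : t - h = t + (((0 : ℤ) : ℝ) - 1) * h := by push_cast; ring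
  have hY := B5Co_Y80 (h := h) hβ hκ hN hk1 hk2 e0 hD0 h0a h0b
  have hV := B5Co_V81 hD0 hk1 hk2 h0a h0b
  have cp2 := B5Co_K82 hβ hr hκ hk1 hk2 hh hh1 hh2 hta htb hY hV
  have cm1 := B5Co_K83 hβ hr hκ hk1 hk2 hh hh1 hh2 hta htb hY hV
  have cm2 := B5Co_K84 hβ hr hκ hk1 hk2 hh hh1 hh2 hta htb hY hV
  have cn1 := B5Co_K87 hβ hr hκ hk1 hk2 hh hh1 hh2 hta htb hY hV
  have hp : 0 < ‖Xf β r h t 0‖ := lt_of_lt_of_le (by positivity) hY
  exact v5_out0 _ _ _ _ cm2 cm1 cp2 cn1 hp (by norm_num)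

theorem R1_b5_C {p : ℤ} {β r : ℝ} (hp : IsCoprime (5 : ℤ) p) (hr : 10 ≤ r) (hβ : 0 < β) (hk1 : 0.42 ≤ β * r)
    (hk2 : β * r ≤ 0.5) : Circ (2 * Real.pi * p / 5 + β) r := by
  obtain ⟨h, hh⟩ : ∃ h : ℝ, h = 2 * Real.pi / 5 := ⟨_, rfl⟩
  obtain ⟨hh1, hh2⟩ := v5_h hh
  obtain ⟨κ, hκ⟩ : ∃ κ, κ = β * r := ⟨_, rfl⟩
  rw [← hκ] at hk1 hk2
  refine v5_circ (κ := κ) hp hr hh 0.45 0.61 1.06 0.0492 0.0424 0.00286 0.00385 0.146 0.0147 0.0272 0.6085 ?_ ?_ (by norm_num) (by norm_num) (by norm_num) (by norm_num) (by norm_num) (by norm_num) (by norm_num) (by norm_num) (by norm_num) (by norm_num)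
  · intro t g1 g2
    rcases le_total (t + κ) 0.666 with g3 | g3
    · exact B5Cw_W21 hβ hr hκ hk1 hk2 hh (by linarith) (by linarith)
    exact B5Cw_W41 hβ hr hκ hk1 hk2 hh (by linarith) (by linarith)
  · intro t g1 g2 g3
    rcases g3 with g3 | g3
    · rcases le_total (t + κ) 0.251 with g4 | g4
      · exact B5Co_O16 hβ hr hκ hk1 hk2 hh (by linarith) (by linarith)
      rcases le_total (t + κ) 0.415 with g4 | g4
      · exact B5Co_O30 hβ hr hκ hk1 hk2 hh (by linarith) (by linarith)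
      exact B5Co_O44 hβ hr hκ hk1 hk2 hh (by linarith) (by linarith)
    · rcases le_total (t + κ) 0.88 with g4 | g4
      · exact B5Co_O60 hβ hr hκ hk1 hk2 hh (by linarith) (by linarith)
      rcases le_total (t + κ) 1.068 with g4 | g4
      · exact B5Co_O74 hβ hr hκ hk1 hk2 hh (by linarith) (by linarith)
      exact B5Co_O88 hβ hr hκ hk1 hk2 hh (by linarith) (by linarith)

end Sok
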