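import Pool.Agent.Lib.MP_816dec_an.R1b5WD

/-!
MP_816dec_an (A3, row R1), SINGLE CASE `b = 5`, `r ≥ 10`, `0.5 ≤ κ ≤ 0.6`: outside the window, assembly (generated file).
-/

set_option autoImplicit false
set_option linter.unusedVariables false

open Complex Set Filter Topology Metric

namespace Sok

private theorem B5Do_B1 {κ t : ℝ} (h : DomR κ t) (hk1 : 0.5 ≤ κ) (hk2 : κ ≤ 0.6) (ht1 : 0.0628 ≤ t + κ) (ht2 : t + κ ≤ 0.251) :
    (0.024 ≤ sy κ t ∧ sy κ t ≤ 0.1) ∧ (0.4412 ≤ sx κ t ∧ sx κ t ≤ 0.5853) ∧ κ * Real.exp (-sy κ t) ≤ 0.5858 ∧ 1.2862 ≤ sD κ t ∧ sD κ t ≤ 1.4948 := by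
  have hy1 : 0.024 ≤ sy κ t := syR_ge h 0.5 0.6 0.0628 0.024 1.02429 1.0243 0.04097 0.04917 hk1 hk2 (by linarith) (by norm_num) (by norm_num)
    (expn_ge (by norm_num) (by norm_num)) (expn_le (by norm_num) (by norm_num) (by norm_num)) (by norm_num)
    (by norm_num) (by norm_num) (by norm_num) (by norm_num) (by norm_num) (by norm_num)
  have hy2 : sy κ t ≤ 0.1 := syR_le h 0.5 0.6 0.251 0.1 1.10517 0.1749 0.18419 0.22104 hk1 hk2 (by linarith) (by norm_num) (by norm_num)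
    (expn_ge (by norm_num) (by norm_num)) (by norm_num) (by norm_num) (Or.inr ((mul_le_mul_of_nonneg_left (expn_le (E := 1.10518) (by norm_num) (by norm_num) (by norm_num)) (by norm_num)).trans (by norm_num))) (by norm_num) (by norm_num) (by norm_num)
  have hy1' : 0.024 ≤ sy κ t := by linarith
  have hy2' : sy κ t ≤ 0.1 := by linarith
  have hx1 : 0.4412 ≤ sx κ t := sx_lo h 0.5 0.1 0.1001 0.90483 0.4412 hk1 (by norm_num) hy2' (abs_le.2 ⟨by linarith, by linarith⟩) (ex_lm 0.1 (by norm_num) (by norm_num) (by norm_num) (by norm_num) (by norm_num)) (by norm_num) (by norm_num)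
  have hx2 : sx κ t ≤ 0.5853 := sx_hi h 0.6 0.024 0.024 0.97629 0.5853 hk2 hy1' (by norm_num) (le_trans (by linarith) (le_abs_self _)) (ex_um 0.024 (by norm_num) (by norm_num) (by norm_num) (by norm_num)) (by norm_num) (by norm_num)
  refine ⟨⟨hy1', hy2'⟩, ⟨hx1, hx2⟩, v5_n h 0.6 0.024 0.97629 0.5858 hk2 hy1' (ex_um 0.024 (by norm_num) (by norm_num) (by norm_num) (by norm_num)) (by norm_num), ?_, ?_⟩
  · exact v5_Dlo h 0.5 0.024 0.1 0.024 0.97628 1.2862 (by norm_num) hk1 hy1' hy2' (ex_lm 0.024 (by norm_num) (by norm_num) (by norm_num) (by norm_num) (by norm_num)) (by norm_num) (by norm_num) (by norm_num) (by norm_num)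
  · exact v5_Dup h 0.6 0.024 0.1 0.97629 0.90484 1.4948 hk2 hy1' hy2' (ex_um 0.024 (by norm_num) (by norm_num) (by norm_num) (by norm_num)) (ex_um 0.1 (by norm_num) (by norm_num) (by norm_num) (by norm_num)) (by norm_num) (by norm_num) (by norm_num)

private theorem B5Do_T2_0_0 {β x y : ℝ} (hβ : 0 < β) (hN : β * 16.666 ≤ 1) (hx1 : 0.4411 ≤ x) (hx2 : x ≤ 0.5854)
    (hy1 : -0 ≤ y) (hy2 : y ≤ 0.1001) : ‖HH β (x + y * I) - 1‖ ≤ 0.03 := by
  refine le_epsJ (C := 0.3108) (N0 := 16.666) (J_boxp 0.4411 0.5854 0 0.1001 0.1001 1.0206 0.5939 1.2462 1.0828 0.4454 4.0825 16.666 0.582 2.128 1.296 1.1949 0.5102 0.4113 1.1592 3.7633 0.559 1.1005 2.0235 3.5082 0.0002031 0.001058 0.0000003101 0.0000003101 0.00008998 0.0000003101 0.0000003101 0.0000003101 0.3108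
    hβ hN hx1 hx2 hy1 hy2 (by norm_num) (by norm_num) (by linarith) (by norm_num) (by norm_num) (by norm_num) (by norm_num) (by norm_num) (by norm_num) (by norm_num) (by norm_num) (by norm_num) (by norm_num) (by norm_num) (by norm_num) (by norm_num) (by norm_num) (by norm_num) (by norm_num) (by norm_num) (by norm_num) (by norm_num) (by norm_num) (by norm_num)
    (cube_sqrt_geJ (s := 0.8977) (by norm_num) (by norm_num) (by norm_num) (by norm_num))
    (cube_sqrt_geJ (s := 0.9637) (by norm_num) (by norm_num) (by norm_num) (by norm_num))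
    (by norm_num) (by norm_num) (by norm_num) (by norm_num) (by norm_num) (by norm_num) (by norm_num) (by norm_num) (by norm_num) (by norm_num) (by norm_num) (by norm_num) (by norm_num) (by norm_num) (by norm_num) (by norm_num) (by norm_num) (by norm_num)
    (exp_neg_leJ (r := 0.502) 8 (by norm_num) (by norm_num) (by norm_num) (by norm_num))
    (exp_neg_leJ (r := 0.854) 6 (by norm_num) (by norm_num) (by norm_num) (by norm_num))
    (exp_neg_leJ (r := 0.99) 14 (by norm_num) (by norm_num) (by norm_num) (by norm_num))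
    (exp_neg_leJ (r := 0.99) 14 (by norm_num) (by norm_num) (by norm_num) (by norm_num))
    (exp_neg_leJ (r := 0.316) 9 (by norm_num) (by norm_num) (by norm_num) (by norm_num))
    (exp_neg_leJ (r := 0.99) 14 (by norm_num) (by norm_num) (by norm_num) (by norm_num))
    (exp_neg_leJ (r := 0.99) 14 (by norm_num) (by norm_num) (by norm_num) (by norm_num))
    (exp_neg_leJ (r := 0.99) 14 (by norm_num) (by norm_num) (by norm_num) (by norm_num))
    (by norm_num)) (by norm_num) hN hβ.le (by norm_num)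

private theorem B5Do_T2 {β x y : ℝ} (hβ : 0 < β) (hN : β * 16.666 ≤ 1) (hx1 : 0.4411 ≤ x) (hx2 : x ≤ 0.5854)
    (hy1 : 0.0239 ≤ y) (hy2 : y ≤ 0.1001) : ‖HH β (x + y * I) - 1‖ ≤ 0.03 := by
  exact B5Do_T2_0_0 hβ hN (by linarith) (by linarith) (by linarith) (by linarith)

private theorem B5Do_G3 {κ : ℝ} (hk1 : 0.5 ≤ κ) (hk2 : κ ≤ 0.6) : gG κ 0.52 ≤ 1.24039 ∧ 0.53579 ≤ Real.exp (-(κ * 0.52)) ^ 2 := by
  refine ⟨gG_le 0.52 0.5 0.6 1.24039 0.77106 0.73199 1.29694 1.36616 hk1 hk2 (by norm_num)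
    (ex_um 0.26 (by norm_num) (by norm_num) (by norm_num) (by norm_num)) (ex_um 0.312 (by norm_num) (by norm_num) (by norm_num) (by norm_num))
    (ex_up 0.26 (by norm_num) (by norm_num) (by norm_num) (by norm_num)) (ex_up 0.312 (by norm_num) (by norm_num) (by norm_num) (by norm_num))
    (by norm_num) (by norm_num), ?_⟩
  exact v5_M 0.73198 (ex_lm 0.312 (by linarith) (by norm_num) (by norm_num) (by norm_num) (by norm_num)) (by norm_num) (by norm_num)

private theorem B5Do_C4 {β r t κ : ℝ} (hβ : 0 < β) (hr : 10 ≤ r) (hκ : κ = β * r) (hk1 : 0.5 ≤ κ) (hk2 : κ ≤ 0.6) (hta : 1.3194 ≤ t + κ)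
    (htb : t + κ ≤ 1.5077) : ‖F (cexp (I * β)) (r * cexp (I * ((t + β / 2 : ℝ) : ℂ)))‖ ≤
      2.4702 * Real.exp (r * (1.24039 - 0.52 * (t + κ))) + 0.1406 * Real.exp (r * 0) :=
  v5_H 0.52 0.5 0.6 1.3194 1.5077 1.24039 2.4132 0.53579 0.0978 2.29 0.5629 0.11157 0.3278 0.00000161 2.4702 0.1406 hβ hr hκ (by norm_num) hk1 hk2 hta htb (by norm_num) (B5Do_G3 hk1 hk2).1 (B5Do_G3 hk1 hk2).2 (by norm_num) (by norm_num) (by norm_num)
    (by norm_num) (by norm_num) (by norm_num) (by norm_num) (by norm_num) (by norm_num) (by norm_num) (by norm_num) (ex_un 1 0.1156 (by norm_num) (by norm_num) (by norm_num) (by norm_num))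
    (v5_hump 3.1733 16.666 4.0825 0.0000009316 0.00000161 hβ hr hκ hk1 hk2 (by norm_num) htb (by norm_num) (by norm_num) (by norm_num) (by norm_num) (by norm_num) (by norm_num) (by norm_num) (ex_un 13 0.9 (by norm_num) (by norm_num) (by norm_num) (by norm_num)) (by norm_num)) (by norm_num) (by norm_num)

private theorem B5Do_G5 {κ : ℝ} (hk1 : 0.5 ≤ κ) (hk2 : κ ≤ 0.6) : gG κ (-0.67) ≤ 1.246 ∧ 1.95423 ≤ Real.exp (-(κ * (-0.67))) ^ 2 := by
  refine ⟨gG_le (-0.67) 0.5 0.6 1.246 1.39795 1.49482 0.71534 0.66899 hk1 hk2 (by norm_num)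
    (ex_up 0.335 (by norm_num) (by norm_num) (by norm_num) (by norm_num)) (ex_up 0.402 (by norm_num) (by norm_num) (by norm_num) (by norm_num))
    (ex_um 0.335 (by norm_num) (by norm_num) (by norm_num) (by norm_num)) (ex_um 0.402 (by norm_num) (by norm_num) (by norm_num) (by norm_num))
    (by norm_num) (by norm_num), ?_⟩
  exact v5_M 1.39794 (ex_lp 0.335 (by linarith) (by norm_num) (by norm_num)) (by norm_num) (by norm_num)

private theorem B5Do_C6 {β r t κ : ℝ} (hβ : 0 < β) (hr : 10 ≤ r) (hκ : κ = β * r) (hk1 : 0.5 ≤ κ) (hk2 : κ ≤ 0.6) (hta : (-2.4505) ≤ t + κ)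
    (htb : t + κ ≤ (-2.2622)) : ‖F (cexp (I * β)) (r * cexp (I * ((t + β / 2 : ℝ) : ℂ)))‖ ≤
      1.5637 * Real.exp (r * (1.246 - (-0.67) * (t + κ))) + 2.0139 * Real.exp (r * 0.0501) :=
  v5_HU (-0.67) 0.5 0.6 (-2.4505) (-2.2622) 1.246 1.5637 1.95423 0.0978 1.0822 1.6614 0 0.0501 0.00000161 2.0139 hβ hr hκ (by norm_num) hk1 hk2 hta htb (by norm_num) (by norm_num) (B5Do_G5 hk1 hk2).1 (B5Do_G5 hk1 hk2).2 (by norm_num) (by norm_num) (by norm_num)
    (by norm_num) (by norm_num) (by norm_num) (by norm_num) (by norm_num) (by norm_num) (by norm_num)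
    (by norm_num) (by norm_num) (by norm_num) (v5_hump 6.9432 16.666 4.0825 0.0000009316 0.00000161 hβ hr hκ hk1 hk2 (by norm_num) htb (by norm_num) (by norm_num) (by norm_num) (by norm_num) (by norm_num) (by norm_num) (by norm_num) (ex_un 13 0.9 (by norm_num) (by norm_num) (by norm_num) (by norm_num)) (by norm_num)) (by norm_num)

private theorem B5Do_C7 {β r t κ : ℝ} (hβ : 0 < β) (hr : 10 ≤ r) (hκ : κ = β * r) (hk1 : 0.5 ≤ κ) (hk2 : κ ≤ 0.6) (hta : 2.576 ≤ t + κ)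
    (htb : t + κ ≤ 2.7643) : ‖F (cexp (I * β)) (r * cexp (I * ((t + β / 2 : ℝ) : ℂ)))‖ ≤
      2.8016 * Real.exp (r * (0.01 + 1 / 20)) :=
  v5_UD 0.5 0.6 2.576 2.7643 0.01 0.5642 0.01 1.4606 2.8016 hβ hr hκ (by norm_num) hk1 hk2 hta htb (by norm_num) (by norm_num) (by norm_num) (by norm_num) (by norm_num) (by norm_num) (by norm_num) (by norm_num) (by norm_num) (by norm_num) (by norm_num)

private theorem B5Do_Y8 {β r t κ h t' : ℝ} (hβ : 0 < β) (hκ : κ = β * r) (hN : β * 16.666 ≤ 1) (hk1 : 0.5 ≤ κ) (hk2 : κ ≤ 0.6)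
    (ht : t' = t + (((1 : ℤ) : ℝ) - 1) * h) (hD : DomR κ t') (hta : 0.0628 ≤ t' + κ) (htb : t' + κ ≤ 0.251) :
    0.8772 * Real.exp (r * sE κ t') ≤ ‖Xf β r h t 1‖ := by
  obtain ⟨⟨ya, yb⟩, ⟨xa, xb⟩, n1, Da, Db⟩ := B5Do_B1 hD hk1 hk2 hta htb
  have J := B5Do_T2 (x := sx κ t') (y := sy κ t') hβ hN (by linarith only [xa, xb, ya, yb]) (by linarith only [xa, xb, ya, yb]) (by linarith only [xa, xb, ya, yb]) (by linarith only [xa, xb, ya, yb])
  exact v5_Jlo hβ hκ (k := 1) ht hD 0.03 1.4948 0.8772 (by norm_num) J Db (by norm_num)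

private theorem B5Do_V9 {κ t : ℝ} (hD : DomR κ t) (hk1 : 0.5 ≤ κ) (hk2 : κ ≤ 0.6) (hta : 0.0628 ≤ t + κ) (htb : t + κ ≤ 0.251) :
    1.00591 - 0.1191 * (t + κ) ≤ sE κ t := by
  have hκ0 : 0 < κ := hD.1
  exact v5_V1 hD 0.5 0.6 0.0628 0.251 0.09665 0.21121 0.22916 1.00591 0.1191 (by norm_num) hk1 hk2 (by norm_num) (by norm_num) hta htb (by norm_num) (clo5 0.5 0.6 0.22916 (by norm_num) hk1 hk2 (by norm_num) (by norm_num) (by norm_num))
      ((cup1 0.6 hκ0.le hk2 (by norm_num)).trans (by norm_num)) (by norm_num) (by norm_num) (by norm_num) (by norm_num) (by norm_num) (by norm_num)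

private theorem B5Do_K10 {β r t κ h : ℝ} (hβ : 0 < β) (hr : 10 ≤ r) (hκ : κ = β * r) (hk1 : 0.5 ≤ κ) (hk2 : κ ≤ 0.6)
    (hh : h = 2 * Real.pi / 5) (hh1 : 1.25663 ≤ h) (hh2 : h ≤ 1.25664) (hta : 0.0628 ≤ t + κ) (htb : t + κ ≤ 0.251)
    (hY : 0.8772 * Real.exp (r * sE κ t) ≤ ‖Xf β r h t 1‖) (hV : 1.00591 - 0.1191 * (t + κ) ≤ sE κ t) :
    ‖Xf β r h t 2‖ ≤ 0.0334 * ‖Xf β r h t 1‖ := by
  rw [v5_X 2 1 (by push_cast; ring)]
  exact v5_cmp 0.4441 0.0118 0.0333 0.976 0.00005817 0.00000933 0.0334 hr (B5Do_C4 (t := t + 1 * h) hβ hr hκ hk1 hk2 (by linarith only [hta, htb, hh1, hh2]) (by linarith only [hta, htb, hh1, hh2])) hY (by norm_num) (by norm_num) (by norm_num) (by norm_num) (by linarith only [hV, hta, htb, hh1, hh2]) (ex_un 4 0.4409 (by norm_num) (by norm_num) (by norm_num) (by norm_num)) (by norm_num) (by norm_num) (by linarith only [hV, hta, htb, hh1, hh2]) (ex_un 9 0.7599 (by norm_num) (by norm_num)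 (by norm_num) (by norm_num)) (by norm_num) (by norm_num)

private theorem B5Do_K11 {β r t κ h : ℝ} (hβ : 0 < β) (hr : 10 ≤ r) (hκ : κ = β * r) (hk1 : 0.5 ≤ κ) (hk2 : κ ≤ 0.6)
    (hh : h = 2 * Real.pi / 5) (hh1 : 1.25663 ≤ h) (hh2 : h ≤ 1.25664) (hta : 0.0628 ≤ t + κ) (htb : t + κ ≤ 0.251)
    (hY : 0.8772 * Real.exp (r * sE κ t) ≤ ‖Xf β r h t 1‖) (hV : 1.00591 - 0.1191 * (t + κ) ≤ sE κ t) :
    ‖Xf β r h t (-1)‖ ≤ 0.000226 * ‖Xf β r h t 1‖ := by
  rw [v5_X (-1) (-2) (by push_cast; ring)]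
  exact v5_cmp 1.2457 0.000003896 0.00000695 0.9259 0.00009528 0.000219 0.000226 hr (B5Do_C6 (t := t + (-2) * h) hβ hr hκ hk1 hk2 (by linarith only [hta, htb, hh1, hh2]) (by linarith only [hta, htb, hh1, hh2])) hY (by norm_num) (by norm_num) (by norm_num) (by norm_num) (by linarith only [hV, hta, htb, hh1, hh2]) (ex_un 12 0.4569 (by norm_num) (by norm_num) (by norm_num) (by norm_num)) (by norm_num) (by norm_num) (by linarith only [hV, hta, htb, hh1, hh2]) (ex_un 9 0.2589 (by norm_num) (by norm_num) (by norm_num) (by norm_num)) (by norm_num) (by norm_num)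

private theorem B5Do_K12 {β r t κ h : ℝ} (hβ : 0 < β) (hr : 10 ≤ r) (hκ : κ = β * r) (hk1 : 0.5 ≤ κ) (hk2 : κ ≤ 0.6)
    (hh : h = 2 * Real.pi / 5) (hh1 : 1.25663 ≤ h) (hh2 : h ≤ 1.25664) (hta : 0.0628 ≤ t + κ) (htb : t + κ ≤ 0.251)
    (hY : 0.8772 * Real.exp (r * sE κ t) ≤ ‖Xf β r h t 1‖) (hV : 1.00591 - 0.1191 * (t + κ) ≤ sE κ t) :
    ‖Xf β r h t (-2)‖ ≤ 0.000336 * ‖Xf β r h t 1‖ := by
  rw [v5_Xm2 hh]
  exact v5_cmp0 0.916 0.0001052 0.000336 hr (B5Do_C7 (t := t + 2 * h) hβ hr hκ hk1 hk2 (by linarith only [hta, htb, hh1, hh2]) (by linarith only [hta, htb, hh1, hh2])) hY (by norm_num) (by norm_num) (by norm_num) (by linarith only [hV, hta, htb, hh1, hh2]) (ex_un 9 0.1599 (by norm_num) (by norm_num) (by norm_num) (by norm_num)) (by norm_num)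

private theorem B5Do_G13 {κ : ℝ} (hk1 : 0.5 ≤ κ) (hk2 : κ ≤ 0.6) : gG κ (-0.71) ≤ 1.27334 ∧ 2.03398 ≤ Real.exp (-(κ * (-0.71))) ^ 2 := by
  refine ⟨gG_le (-0.71) 0.5 0.6 1.27334 1.42619 1.53113 0.70118 0.65312 hk1 hk2 (by norm_num)
    (ex_up 0.355 (by norm_num) (by norm_num) (by norm_num) (by norm_num)) (ex_up 0.426 (by norm_num) (by norm_num) (by norm_num) (by norm_num))
    (ex_um 0.355 (by norm_num) (by norm_num) (by norm_num) (by norm_num)) (ex_um 0.426 (by norm_num) (by norm_num) (by norm_num) (by norm_num))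
    (by norm_num) (by norm_num), ?_⟩
  exact v5_M 1.42618 (ex_lp 0.355 (by linarith) (by norm_num) (by norm_num)) (by norm_num) (by norm_num)

private theorem B5Do_C14 {β r t κ : ℝ} (hβ : 0 < β) (hr : 10 ≤ r) (hκ : κ = β * r) (hk1 : 0.5 ≤ κ) (hk2 : κ ≤ 0.6) (hta : (-1.1939) ≤ t + κ)
    (htb : t + κ ≤ (-1.0056)) : ‖F (cexp (I * β)) (r * cexp (I * ((t + β / 2 : ℝ) : ℂ)))‖ ≤
      1.5574 * Real.exp (r * (1.27334 - (-0.71) * (t + κ))) + 2.0146 * Real.exp (r * 0.0964) :=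
  v5_HU (-0.71) 0.5 0.6 (-1.1939) (-1.0056) 1.27334 1.5574 2.03398 0.0978 1.0822 2.918 0.0653 0.0964 0.00000161 2.0146 hβ hr hκ (by norm_num) hk1 hk2 hta htb (by norm_num) (by norm_num) (B5Do_G13 hk1 hk2).1 (B5Do_G13 hk1 hk2).2 (by norm_num) (by norm_num) (by norm_num)
    (by norm_num) (by norm_num) (by norm_num) (by norm_num) (by norm_num) (by norm_num) (by norm_num)
    (by norm_num) (by norm_num) (by norm_num) (v5_hump 5.6866 16.666 4.0825 0.0000009316 0.00000161 hβ hr hκ hk1 hk2 (by norm_num) htb (by norm_num) (by norm_num) (by norm_num) (by norm_num) (by norm_num) (by norm_num) (by norm_num) (ex_un 13 0.9 (by norm_num) (by norm_num) (by norm_num) (by norm_num)) (by norm_num)) (by norm_num)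

private theorem B5Do_K15 {β r t κ h : ℝ} (hβ : 0 < β) (hr : 10 ≤ r) (hκ : κ = β * r) (hk1 : 0.5 ≤ κ) (hk2 : κ ≤ 0.6)
    (hh : h = 2 * Real.pi / 5) (hh1 : 1.25663 ≤ h) (hh2 : h ≤ 1.25664) (hta : 0.0628 ≤ t + κ) (htb : t + κ ≤ 0.251)
    (hY : 0.8772 * Real.exp (r * sE κ t) ≤ ‖Xf β r h t 1‖) (hV : 1.00591 - 0.1191 * (t + κ) ≤ sE κ t) :
    ‖Xf β r h t 0‖ ≤ 0.028 * ‖Xf β r h t 1‖ := by
  rw [v5_X 0 (-1) (by push_cast; ring)]
  exact v5_cmp 0.4166 0.01552 0.0276 0.8796 0.0001528 0.000351 0.028 hr (B5Do_C14 (t := t + (-1) * h) hβ hr hκ hk1 hk2 (by linarith only [hta, htb, hh1, hh2]) (by linarith only [hta, htb, hh1, hh2])) hY (by norm_num) (by norm_num) (by norm_num) (by norm_num) (by linarith only [hV, hta, htb, hh1, hh2]) (ex_un 4 0.1659 (by norm_num) (by norm_num) (by norm_num) (by norm_num)) (by norm_num) (by norm_num) (by linarith only [hV, hta, htb, hh1, hh2]) (ex_un 8 0.7959 (by norm_num) (by norm_num)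 (by norm_num) (by norm_num)) (by norm_num) (by norm_num)

private theorem B5Do_O16 {β r t κ h : ℝ} (hβ : 0 < β) (hr : 10 ≤ r) (hκ : κ = β * r) (hk1 : 0.5 ≤ κ) (hk2 : κ ≤ 0.6)
    (hh : h = 2 * Real.pi / 5) (hta : 0.0628 ≤ t + κ) (htb : t + κ ≤ 0.251) :
    ‖Xf β r h t (-2)‖ + ‖Xf β r h t (-1)‖ + ‖Xf β r h t 2‖ < |‖Xf β r h t 1‖ - ‖Xf β r h t 0‖| := by
  obtain ⟨hh1, hh2⟩ := v5_h hh
  have hκ0 : 0 < κ := by linarith only [hk1]
  have hN : β * 16.666 ≤ 1 := v5_hN 0.6 16.666 hβ hr hκ hk2 (by norm_num) (by norm_num)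
  have hD1 : DomR κ t := v5_dom hκ0 (by linarith only [hta, htb, hk1, hk2, hh1, hh2]) (Or.inr (by linarith only [hta, htb, hk1, hk2, hh1, hh2]))
  have e1 : t = t + (((1 : ℤ) : ℝ) - 1) * h := by push_cast; ring
  have hY := B5Do_Y8 (h := h) hβ hκ hN hk1 hk2 e1 hD1 hta htb
  have hV := B5Do_V9 hD1 hk1 hk2 hta htb
  have cp2 := B5Do_K10 hβ hr hκ hk1 hk2 hh hh1 hh2 hta htb hY hV
  have cm1 := B5Do_K11 hβ hr hκ hk1 hk2 hh hh1 hh2 hta htb hY hV
  have cm2 := B5Do_K12 hβ hr hκ hk1 hk2 hh hh1 hh2 hta htb hY hV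
  have cn0 := B5Do_K15 hβ hr hκ hk1 hk2 hh hh1 hh2 hta htb hY hV
  have hp : 0 < ‖Xf β r h t 1‖ := lt_of_lt_of_le (by positivity) hY
  exact v5_out1 _ _ _ _ cm2 cm1 cp2 cn0 hp (by norm_num)

private theorem B5Do_B17 {κ t : ℝ} (h : DomR κ t) (hk1 : 0.5 ≤ κ) (hk2 : κ ≤ 0.6) (ht1 : 0.251 ≤ t + κ) (ht2 : t + κ ≤ 0.415) :
    (0.09 ≤ sy κ t ∧ sy κ t ≤ 0.155) ∧ (0.3991 ≤ sx κ t ∧ sx κ t ≤ 0.541) ∧ κ * Real.exp (-sy κ t) ≤ 0.5484 ∧ 1.3888 ≤ sD κ t ∧ sD κ t ≤ 1.5741 := by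
  have hy1 : 0.09 ≤ sy κ t := syR_ge h 0.5 0.6 0.251 0.09 1.09417 1.09418 0.16412 0.19696 hk1 hk2 (by linarith) (by norm_num) (by norm_num)
    (expn_ge (by norm_num) (by norm_num)) (expn_le (by norm_num) (by norm_num) (by norm_num)) (by norm_num)
    (by norm_num) (by norm_num) (by norm_num) (by norm_num) (by norm_num) (by norm_num)
  have hy2 : sy κ t ≤ 0.155 := syR_le h 0.5 0.6 0.415 0.155 1.16765 0.2865 0.30164 0.36198 hk1 hk2 (by linarith) (by norm_num) (by norm_num)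
    (expn_ge (by norm_num) (by norm_num)) (by norm_num) (by norm_num) (Or.inr ((mul_le_mul_of_nonneg_left (expn_le (E := 1.16766) (by norm_num) (by norm_num) (by norm_num)) (by norm_num)).trans (by norm_num))) (by norm_num) (by norm_num) (by norm_num)
  have hy1' : 0.09 ≤ sy κ t := by linarith
  have hy2' : sy κ t ≤ 0.155 := by linarith
  have hx1 : 0.3991 ≤ sx κ t := sx_lo h 0.5 0.155 0.1551 0.85641 0.3991 hk1 (by norm_num) hy2' (abs_le.2 ⟨by linarith, by linarith⟩) (ex_lm 0.155 (by norm_num) (by norm_num) (by norm_num) (by norm_num) (by norm_num)) (by norm_num) (by norm_num)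
  have hx2 : sx κ t ≤ 0.541 := sx_hi h 0.6 0.09 0.09 0.91394 0.541 hk2 hy1' (by norm_num) (le_trans (by linarith) (le_abs_self _)) (ex_um 0.09 (by norm_num) (by norm_num) (by norm_num) (by norm_num)) (by norm_num) (by norm_num)
  refine ⟨⟨hy1', hy2'⟩, ⟨hx1, hx2⟩, v5_n h 0.6 0.09 0.91394 0.5484 hk2 hy1' (ex_um 0.09 (by norm_num) (by norm_num) (by norm_num) (by norm_num)) (by norm_num), ?_, ?_⟩
  · exact v5_Dlo h 0.5 0.09 0.155 0.09 0.91393 1.3888 (by norm_num) hk1 hy1' hy2' (ex_lm 0.09 (by norm_num) (by norm_num) (by norm_num) (by norm_num) (by norm_num)) (by norm_num) (by norm_num) (by norm_num) (by norm_num)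
  · exact v5_Dup h 0.6 0.09 0.155 0.91394 0.85642 1.5741 hk2 hy1' hy2' (ex_um 0.09 (by norm_num) (by norm_num) (by norm_num) (by norm_num)) (ex_um 0.155 (by norm_num) (by norm_num) (by norm_num) (by norm_num)) (by norm_num) (by norm_num) (by norm_num)

private theorem B5Do_T18_0_0 {β x y : ℝ} (hβ : 0 < β) (hN : β * 16.666 ≤ 1) (hx1 : 0.399 ≤ x) (hx2 : x ≤ 0.5411)
    (hy1 : -0 ≤ y) (hy2 : y ≤ 0.1551) : ‖HH β (x + y * I) - 1‖ ≤ 0.03 := by
  refine le_epsJ (C := 0.3185) (N0 := 16.666) (J_boxp 0.399 0.5411 0 0.1551 0.1551 0.991 0.5629 1.2756 1.1449 0.4506 4.0825 16.666 0.5681 2.086 1.288 1.212 0.4954 0.4016 1.1448 3.7853 0.533 1.0366 1.7034 3.2491 0.0002598 0.001241 0.0000003101 0.0000003101 0.0001392 0.0000003101 0.0000003101 0.0000003101 0.3185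
    hβ hN hx1 hx2 hy1 hy2 (by norm_num) (by norm_num) (by linarith) (by norm_num) (by norm_num) (by norm_num) (by norm_num) (by norm_num) (by norm_num) (by norm_num) (by norm_num) (by norm_num) (by norm_num) (by norm_num) (by norm_num) (by norm_num) (by norm_num) (by norm_num) (by norm_num) (by norm_num) (by norm_num) (by norm_num) (by norm_num) (by norm_num)
    (cube_sqrt_geJ (s := 0.9003) (by norm_num) (by norm_num) (by norm_num) (by norm_num))
    (cube_sqrt_geJ (s := 0.9645) (by norm_num) (by norm_num) (by norm_num) (by norm_num))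
    (by norm_num) (by norm_num) (by norm_num) (by norm_num) (by norm_num) (by norm_num) (by norm_num) (by norm_num) (by norm_num) (by norm_num) (by norm_num) (by norm_num) (by norm_num) (by norm_num) (by norm_num) (by norm_num) (by norm_num) (by norm_num)
    (exp_neg_leJ (r := 0.256) 8 (by norm_num) (by norm_num) (by norm_num) (by norm_num))
    (exp_neg_leJ (r := 0.693) 6 (by norm_num) (by norm_num) (by norm_num) (by norm_num))
    (exp_neg_leJ (r := 0.99) 14 (by norm_num) (by norm_num) (by norm_num) (by norm_num))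
    (exp_neg_leJ (r := 0.99) 14 (by norm_num) (by norm_num) (by norm_num) (by norm_num))
    (exp_neg_leJ (r := 0.882) 8 (by norm_num) (by norm_num) (by norm_num) (by norm_num))
    (exp_neg_leJ (r := 0.99) 14 (by norm_num) (by norm_num) (by norm_num) (by norm_num))
    (exp_neg_leJ (r := 0.99) 14 (by norm_num) (by norm_num) (by norm_num) (by norm_num))
    (exp_neg_leJ (r := 0.99) 14 (by norm_num) (by norm_num) (by norm_num) (by norm_num))
    (by norm_num)) (by norm_num) hN hβ.le (by norm_num)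

private theorem B5Do_T18 {β x y : ℝ} (hβ : 0 < β) (hN : β * 16.666 ≤ 1) (hx1 : 0.399 ≤ x) (hx2 : x ≤ 0.5411)
    (hy1 : 0.0899 ≤ y) (hy2 : y ≤ 0.1551) : ‖HH β (x + y * I) - 1‖ ≤ 0.03 := by
  exact B5Do_T18_0_0 hβ hN (by linarith) (by linarith) (by linarith) (by linarith)

private theorem B5Do_G19 {κ : ℝ} (hk1 : 0.5 ≤ κ) (hk2 : κ ≤ 0.6) : gG κ 0.55 ≤ 1.27559 ∧ 0.51684 ≤ Real.exp (-(κ * 0.55)) ^ 2 := by
  refine ⟨gG_le 0.55 0.5 0.6 1.27559 0.75958 0.71893 1.31654 1.39097 hk1 hk2 (by norm_num)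
    (ex_um 0.275 (by norm_num) (by norm_num) (by norm_num) (by norm_num)) (ex_um 0.33 (by norm_num) (by norm_num) (by norm_num) (by norm_num))
    (ex_up 0.275 (by norm_num) (by norm_num) (by norm_num) (by norm_num)) (ex_up 0.33 (by norm_num) (by norm_num) (by norm_num) (by norm_num))
    (by norm_num) (by norm_num), ?_⟩
  exact v5_M 0.71892 (ex_lm 0.33 (by linarith) (by norm_num) (by norm_num) (by norm_num) (by norm_num)) (by norm_num) (by norm_num)

private theorem B5Do_C20 {β r t κ : ℝ} (hβ : 0 < β) (hr : 10 ≤ r) (hκ : κ = β * r) (hk1 : 0.5 ≤ κ) (hk2 : κ ≤ 0.6) (hta : 1.5076 ≤ t + κ)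
    (htb : t + κ ≤ 1.6717) : ‖F (cexp (I * β)) (r * cexp (I * ((t + β / 2 : ℝ) : ℂ)))‖ ≤
      2.6551 * Real.exp (r * (1.27559 - 0.55 * (t + κ))) + 0.1373 * Real.exp (r * 0) :=
  v5_H 0.55 0.5 0.6 1.5076 1.6717 1.27559 2.5456 0.51684 0.0978 2.4782 0.3989 0.08164 0.4465 0.00000161 2.6551 0.1373 hβ hr hκ (by norm_num) hk1 hk2 hta htb (by norm_num) (B5Do_G19 hk1 hk2).1 (B5Do_G19 hk1 hk2).2 (by norm_num) (by norm_num) (by norm_num)
    (by norm_num) (by norm_num) (by norm_num) (by norm_num) (by norm_num) (by norm_num) (by norm_num) (by norm_num) (ex_un 0 0.8163 (by norm_num) (by norm_num) (by norm_num) (by norm_num))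
    (v5_hump 3.0093 16.666 4.0825 0.0000009316 0.00000161 hβ hr hκ hk1 hk2 (by norm_num) htb (by norm_num) (by norm_num) (by norm_num) (by norm_num) (by norm_num) (by norm_num) (by norm_num) (ex_un 13 0.9 (by norm_num) (by norm_num) (by norm_num) (by norm_num)) (by norm_num)) (by norm_num) (by norm_num)

private theorem B5Do_C21 {β r t κ : ℝ} (hβ : 0 < β) (hr : 10 ≤ r) (hκ : κ = β * r) (hk1 : 0.5 ≤ κ) (hk2 : κ ≤ 0.6) (hta : (-2.2623) ≤ t + κ)
    (htb : t + κ ≤ (-2.0982)) : ‖F (cexp (I * β)) (r * cexp (I * ((t + β / 2 : ℝ) : ℂ)))‖ ≤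
      1.5574 * Real.exp (r * (1.27334 - (-0.71) * (t + κ))) + 2.0339 * Real.exp (r * 0.0501) :=
  v5_HU (-0.71) 0.5 0.6 (-2.2623) (-2.0982) 1.27334 1.5574 2.03398 0.0978 1.0822 1.8496 0 0.0501 0.00000161 2.0339 hβ hr hκ (by norm_num) hk1 hk2 hta htb (by norm_num) (by norm_num) (B5Do_G13 hk1 hk2).1 (B5Do_G13 hk1 hk2).2 (by norm_num) (by norm_num) (by norm_num)
    (by norm_num) (by norm_num) (by norm_num) (by norm_num) (by norm_num) (by norm_num) (by norm_num)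
    (by norm_num) (by norm_num) (by norm_num) (v5_hump 6.7792 16.666 4.0825 0.0000009316 0.00000161 hβ hr hκ hk1 hk2 (by norm_num) htb (by norm_num) (by norm_num) (by norm_num) (by norm_num) (by norm_num) (by norm_num) (by norm_num) (ex_un 13 0.9 (by norm_num) (by norm_num) (by norm_num) (by norm_num)) (by norm_num)) (by norm_num)

private theorem B5Do_C22 {β r t κ : ℝ} (hβ : 0 < β) (hr : 10 ≤ r) (hκ : κ = β * r) (hk1 : 0.5 ≤ κ) (hk2 : κ ≤ 0.6) (hta : 2.7642 ≤ t + κ)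
    (htb : t + κ ≤ 2.9283) : ‖F (cexp (I * β)) (r * cexp (I * ((t + β / 2 : ℝ) : ℂ)))‖ ≤
      2.7527 * Real.exp (r * (0.01 + 1 / 20)) :=
  v5_UD 0.5 0.6 2.7642 2.9283 0.01 0.5642 0.01 1.4351 2.7527 hβ hr hκ (by norm_num) hk1 hk2 hta htb (by norm_num) (by norm_num) (by norm_num) (by norm_num) (by norm_num) (by norm_num) (by norm_num) (by norm_num) (by norm_num) (by norm_num) (by norm_num)

private theorem B5Do_Y23 {β r t κ h t' : ℝ} (hβ : 0 < β) (hκ : κ = β * r) (hN : β * 16.666 ≤ 1) (hk1 : 0.5 ≤ κ) (hk2 : κ ≤ 0.6)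
    (ht : t' = t + (((1 : ℤ) : ℝ) - 1) * h) (hD : DomR κ t') (hta : 0.251 ≤ t' + κ) (htb : t' + κ ≤ 0.415) :
    0.8659 * Real.exp (r * sE κ t') ≤ ‖Xf β r h t 1‖ := by
  obtain ⟨⟨ya, yb⟩, ⟨xa, xb⟩, n1, Da, Db⟩ := B5Do_B17 hD hk1 hk2 hta htb
  have J := B5Do_T18 (x := sx κ t') (y := sy κ t') hβ hN (by linarith only [xa, xb, ya, yb]) (by linarith only [xa, xb, ya, yb]) (by linarith only [xa, xb, ya, yb]) (by linarith only [xa, xb, ya, yb])
  exact v5_Jlo hβ hκ (k := 1) ht hD 0.03 1.5741 0.8659 (by norm_num) J Db (by norm_num)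

private theorem B5Do_V24 {κ t : ℝ} (hD : DomR κ t) (hk1 : 0.5 ≤ κ) (hk2 : κ ≤ 0.6) (hta : 0.251 ≤ t + κ) (htb : t + κ ≤ 0.415) :
    1.03729 - 0.245 * (t + κ) ≤ sE κ t := by
  have hκ0 : 0 < κ := hD.1
  exact v5_V1 hD 0.5 0.6 0.251 0.415 0.07885 0.21121 0.22916 1.03729 0.245 (by norm_num) hk1 hk2 (by norm_num) (by norm_num) hta htb (by norm_num) (clo5 0.5 0.6 0.22916 (by norm_num) hk1 hk2 (by norm_num) (by norm_num) (by norm_num))
      ((cup1 0.6 hκ0.le hk2 (by norm_num)).trans (by norm_num)) (by norm_num) (by norm_num) (by norm_num) (by norm_num) (by norm_num) (by norm_num)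

private theorem B5Do_K25 {β r t κ h : ℝ} (hβ : 0 < β) (hr : 10 ≤ r) (hκ : κ = β * r) (hk1 : 0.5 ≤ κ) (hk2 : κ ≤ 0.6)
    (hh : h = 2 * Real.pi / 5) (hh1 : 1.25663 ≤ h) (hh2 : h ≤ 1.25664) (hta : 0.251 ≤ t + κ) (htb : t + κ ≤ 0.415)
    (hY : 0.8659 * Real.exp (r * sE κ t) ≤ ‖Xf β r h t 1‖) (hV : 1.03729 - 0.245 * (t + κ) ≤ sE κ t) :
    ‖Xf β r h t 2‖ ≤ 0.0156 * ‖Xf β r h t 1‖ := by
  rw [v5_X 2 1 (by push_cast; ring)]
  exact v5_cmp 0.5294 0.005024 0.0155 0.9356 0.0000865 0.0000138 0.0156 hr (B5Do_C20 (t := t + 1 * h) hβ hr hκ hk1 hk2 (by linarith only [hta, htb, hh1, hh2]) (by linarith only [hta, htb, hh1, hh2])) hY (by norm_num) (by norm_num) (by norm_num) (by norm_num) (by linarith only [hV, hta, htb, hh1, hh2]) (ex_un 5 0.2939 (by norm_num) (by norm_num) (by norm_num) (by norm_num)) (by norm_num) (by norm_num) (by linarith only [hV, hta, htb, hh1, hh2]) (ex_un 9 0.3559 (by norm_num) (by norm_num)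 (by norm_num) (by norm_num)) (by norm_num) (by norm_num)

private theorem B5Do_K26 {β r t κ h : ℝ} (hβ : 0 < β) (hr : 10 ≤ r) (hκ : κ = β * r) (hk1 : 0.5 ≤ κ) (hk2 : κ ≤ 0.6)
    (hh : h = 2 * Real.pi / 5) (hh1 : 1.25663 ≤ h) (hh2 : h ≤ 1.25664) (hta : 0.251 ≤ t + κ) (htb : t + κ ≤ 0.415)
    (hY : 0.8659 * Real.exp (r * sE κ t) ≤ ‖Xf β r h t 1‖) (hV : 1.03729 - 0.245 * (t + κ) ≤ sE κ t) :
    ‖Xf β r h t (-1)‖ ≤ 0.000358 * ‖Xf β r h t 1‖ := by
  rw [v5_X (-1) (-2) (by push_cast; ring)]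
  exact v5_cmp 1.152 0.000009951 0.0000179 0.8855 0.0001444 0.00034 0.000358 hr (B5Do_C21 (t := t + (-2) * h) hβ hr hκ hk1 hk2 (by linarith only [hta, htb, hh1, hh2]) (by linarith only [hta, htb, hh1, hh2])) hY (by norm_num) (by norm_num) (by norm_num) (by norm_num) (by linarith only [hV, hta, htb, hh1, hh2]) (ex_un 11 0.5199 (by norm_num) (by norm_num) (by norm_num) (by norm_num)) (by norm_num) (by norm_num) (by linarith only [hV, hta, htb, hh1, hh2]) (ex_un 8 0.8549 (by norm_num) (by norm_num) (by norm_num) (by norm_num)) (by norm_num) (by norm_num)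

private theorem B5Do_K27 {β r t κ h : ℝ} (hβ : 0 < β) (hr : 10 ≤ r) (hκ : κ = β * r) (hk1 : 0.5 ≤ κ) (hk2 : κ ≤ 0.6)
    (hh : h = 2 * Real.pi / 5) (hh1 : 1.25663 ≤ h) (hh2 : h ≤ 1.25664) (hta : 0.251 ≤ t + κ) (htb : t + κ ≤ 0.415)
    (hY : 0.8659 * Real.exp (r * sE κ t) ≤ ‖Xf β r h t 1‖) (hV : 1.03729 - 0.245 * (t + κ) ≤ sE κ t) :
    ‖Xf β r h t (-2)‖ ≤ 0.000505 * ‖Xf β r h t 1‖ := by
  rw [v5_Xm2 hh]
  exact v5_cmp0 0.8756 0.0001588 0.000505 hr (B5Do_C22 (t := t + 2 * h) hβ hr hκ hk1 hk2 (by linarith only [hta, htb, hh1, hh2]) (by linarith only [hta, htb, hh1, hh2])) hY (by norm_num) (by norm_num) (by norm_num) (by linarith only [hV, hta, htb, hh1, hh2]) (ex_un 8 0.7559 (by norm_num) (by norm_num) (by norm_num) (by norm_num)) (by norm_num)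

private theorem B5Do_C28 {β r t κ : ℝ} (hβ : 0 < β) (hr : 10 ≤ r) (hκ : κ = β * r) (hk1 : 0.5 ≤ κ) (hk2 : κ ≤ 0.6) (hta : (-1.0057) ≤ t + κ)
    (htb : t + κ ≤ (-0.8416)) : ‖F (cexp (I * β)) (r * cexp (I * ((t + β / 2 : ℝ) : ℂ)))‖ ≤
      1.5574 * Real.exp (r * (1.27334 - (-0.71) * (t + κ))) + 2.0125 * Real.exp (r * 0.2129) :=
  v5_HU (-0.71) 0.5 0.6 (-1.0057) (-0.8416) 1.27334 1.5574 2.03398 0.0978 1.0822 3.1062 0.2293 0.2129 0.00000161 2.0125 hβ hr hκ (by norm_num) hk1 hk2 hta htb (by norm_num) (by norm_num) (B5Do_G13 hk1 hk2).1 (B5Do_G13 hk1 hk2).2 (by norm_num) (by norm_num) (by norm_num)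
    (by norm_num) (by norm_num) (by norm_num) (by norm_num) (by norm_num) (by norm_num) (by norm_num)
    (by norm_num) (by norm_num) (by norm_num) (v5_hump 5.5226 16.666 4.0825 0.0000009316 0.00000161 hβ hr hκ hk1 hk2 (by norm_num) htb (by norm_num) (by norm_num) (by norm_num) (by norm_num) (by norm_num) (by norm_num) (by norm_num) (ex_un 13 0.9 (by norm_num) (by norm_num) (by norm_num) (by norm_num)) (by norm_num)) (by norm_num)

private theorem B5Do_K29 {β r t κ h : ℝ} (hβ : 0 < β) (hr : 10 ≤ r) (hκ : κ = β * r) (hk1 : 0.5 ≤ κ) (hk2 : κ ≤ 0.6)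
    (hh : h = 2 * Real.pi / 5) (hh1 : 1.25663 ≤ h) (hh2 : h ≤ 1.25664) (hta : 0.251 ≤ t + κ) (htb : t + κ ≤ 0.415)
    (hY : 0.8659 * Real.exp (r * sE κ t) ≤ ‖Xf β r h t 1‖) (hV : 1.03729 - 0.245 * (t + κ) ≤ sE κ t) :
    ‖Xf β r h t 0‖ ≤ 0.137 * ‖Xf β r h t 1‖ := by
  rw [v5_X 0 (-1) (by push_cast; ring)]
  exact v5_cmp 0.2598 0.07468 0.135 0.7227 0.0007269 0.00169 0.137 hr (B5Do_C28 (t := t + (-1) * h) hβ hr hκ hk1 hk2 (by linarith only [hta, htb, hh1, hh2]) (by linarith only [hta, htb, hh1, hh2])) hY (by norm_num) (by norm_num) (by norm_num) (by norm_num) (by linarith only [hV, hta, htb, hh1, hh2]) (ex_un 2 0.5979 (by norm_num) (by norm_num) (by norm_num) (by norm_num)) (by norm_num) (by norm_num) (by linarith only [hV, hta, htb, hh1, hh2]) (ex_un 7 0.2269 (by norm_num) (by norm_num) (by norm_num) (by norm_num)) (by norm_num) (by norm_num)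

private theorem B5Do_O30 {β r t κ h : ℝ} (hβ : 0 < β) (hr : 10 ≤ r) (hκ : κ = β * r) (hk1 : 0.5 ≤ κ) (hk2 : κ ≤ 0.6)
    (hh : h = 2 * Real.pi / 5) (hta : 0.251 ≤ t + κ) (htb : t + κ ≤ 0.415) :
    ‖Xf β r h t (-2)‖ + ‖Xf β r h t (-1)‖ + ‖Xf β r h t 2‖ < |‖Xf β r h t 1‖ - ‖Xf β r h t 0‖| := by
  obtain ⟨hh1, hh2⟩ := v5_h hh
  have hκ0 : 0 < κ := by linarith only [hk1]
  have hN : β * 16.666 ≤ 1 := v5_hN 0.6 16.666 hβ hr hκ hk2 (by norm_num) (by norm_num)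
  have hD1 : DomR κ t := v5_dom hκ0 (by linarith only [hta, htb, hk1, hk2, hh1, hh2]) (Or.inr (by linarith only [hta, htb, hk1, hk2, hh1, hh2]))
  have e1 : t = t + (((1 : ℤ) : ℝ) - 1) * h := by push_cast; ring
  have hY := B5Do_Y23 (h := h) hβ hκ hN hk1 hk2 e1 hD1 hta htb
  have hV := B5Do_V24 hD1 hk1 hk2 hta htb
  have cp2 := B5Do_K25 hβ hr hκ hk1 hk2 hh hh1 hh2 hta htb hY hV
  have cm1 := B5Do_K26 hβ hr hκ hk1 hk2 hh hh1 hh2 hta htb hY hV
  have cm2 := B5Do_K27 hβ hr hκ hk1 hk2 hh hh1 hh2 hta htb hY hV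
  have cn0 := B5Do_K29 hβ hr hκ hk1 hk2 hh hh1 hh2 hta htb hY hV
  have hp : 0 < ‖Xf β r h t 1‖ := lt_of_lt_of_le (by positivity) hY
  exact v5_out1 _ _ _ _ cm2 cm1 cp2 cn0 hp (by norm_num)

private theorem B5Do_B31 {κ t : ℝ} (h : DomR κ t) (hk1 : 0.5 ≤ κ) (hk2 : κ ≤ 0.6) (ht1 : 0.415 ≤ t + κ) (ht2 : t + κ ≤ 0.5655) :
    (0.139 ≤ sy κ t ∧ sy κ t ≤ 0.199) ∧ (0.3581 ≤ sx κ t ∧ sx κ t ≤ 0.5033) ∧ κ * Real.exp (-sy κ t) ≤ 0.5222 ∧ 1.4673 ≤ sD κ t ∧ sD κ t ≤ 1.6398 := by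
  have hy1 : 0.139 ≤ sy κ t := syR_ge h 0.5 0.6 0.415 0.139 1.14912 1.14913 0.26621 0.31946 hk1 hk2 (by linarith) (by norm_num) (by norm_num)
    (expn_ge (by norm_num) (by norm_num)) (expn_le (by norm_num) (by norm_num) (by norm_num)) (by norm_num)
    (by norm_num) (by norm_num) (by norm_num) (by norm_num) (by norm_num) (by norm_num)
  have hy2 : sy κ t ≤ 0.199 := syR_le h 0.5 0.6 0.5655 0.199 1.22018 0.3979 0.40469 0.48564 hk1 hk2 (by linarith) (by norm_num) (by norm_num)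
    (expn_ge (by norm_num) (by norm_num)) (by norm_num) (by norm_num) (Or.inr ((mul_le_mul_of_nonneg_left (expn_le (E := 1.22019) (by norm_num) (by norm_num) (by norm_num)) (by norm_num)).trans (by norm_num))) (by norm_num) (by norm_num) (by norm_num)
  have hy1' : 0.139 ≤ sy κ t := by linarith
  have hy2' : sy κ t ≤ 0.199 := by linarith
  have hx1 : 0.3581 ≤ sx κ t := sx_lo h 0.5 0.199 0.1991 0.81954 0.3581 hk1 (by norm_num) hy2' (abs_le.2 ⟨by linarith, by linarith⟩) (ex_lm 0.199 (by norm_num) (by norm_num) (by norm_num) (by norm_num) (by norm_num)) (by norm_num) (by norm_num)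
  have hx2 : sx κ t ≤ 0.5033 := sx_hi h 0.6 0.139 0.139 0.87023 0.5033 hk2 hy1' (by norm_num) (le_trans (by linarith) (le_abs_self _)) (ex_um 0.139 (by norm_num) (by norm_num) (by norm_num) (by norm_num)) (by norm_num) (by norm_num)
  refine ⟨⟨hy1', hy2'⟩, ⟨hx1, hx2⟩, v5_n h 0.6 0.139 0.87023 0.5222 hk2 hy1' (ex_um 0.139 (by norm_num) (by norm_num) (by norm_num) (by norm_num)) (by norm_num), ?_, ?_⟩
  · exact v5_Dlo h 0.5 0.139 0.199 0.139 0.87022 1.4673 (by norm_num) hk1 hy1' hy2' (ex_lm 0.139 (by norm_num) (by norm_num) (by norm_num) (by norm_num) (by norm_num)) (by norm_num) (by norm_num) (by norm_num) (by norm_num)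
  · exact v5_Dup h 0.6 0.139 0.199 0.87023 0.81955 1.6398 hk2 hy1' hy2' (ex_um 0.139 (by norm_num) (by norm_num) (by norm_num) (by norm_num)) (ex_um 0.199 (by norm_num) (by norm_num) (by norm_num) (by norm_num)) (by norm_num) (by norm_num) (by norm_num)

private theorem B5Do_T32_0_0 {β x y : ℝ} (hβ : 0 < β) (hN : β * 16.666 ≤ 1) (hx1 : 0.358 ≤ x) (hx2 : x ≤ 0.5034)
    (hy1 : -0 ≤ y) (hy2 : y ≤ 0.1991) : ‖HH β (x + y * I) - 1‖ ≤ 0.03 := by
  refine le_epsJ (C := 0.3362) (N0 := 16.666) (J_boxp 0.358 0.5034 0 0.1991 0.1991 0.9621 0.5414 1.3005 1.2085 0.455 4.0825 16.666 0.5628 2.07 1.284 1.2265 0.481 0.3908 1.1308 3.8028 0.5086 0.9753 1.4327 3.0182 0.0003302 0.001485 0.0000003101 0.0000003101 0.0002085 0.0000003101 0.0000003101 0.0000003101 0.3362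
    hβ hN hx1 hx2 hy1 hy2 (by norm_num) (by norm_num) (by linarith) (by norm_num) (by norm_num) (by norm_num) (by norm_num) (by norm_num) (by norm_num) (by norm_num) (by norm_num) (by norm_num) (by norm_num) (by norm_num) (by norm_num) (by norm_num) (by norm_num) (by norm_num) (by norm_num) (by norm_num) (by norm_num) (by norm_num) (by norm_num) (by norm_num)
    (cube_sqrt_geJ (s := 0.9013) (by norm_num) (by norm_num) (by norm_num) (by norm_num))
    (cube_sqrt_geJ (s := 0.9649) (by norm_num) (by norm_num) (by norm_num) (by norm_num))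
    (by norm_num) (by norm_num) (by norm_num) (by norm_num) (by norm_num) (by norm_num) (by norm_num) (by norm_num) (by norm_num) (by norm_num) (by norm_num) (by norm_num) (by norm_num) (by norm_num) (by norm_num) (by norm_num) (by norm_num) (by norm_num)
    (exp_neg_leJ (r := 0.016) 8 (by norm_num) (by norm_num) (by norm_num) (by norm_num))
    (exp_neg_leJ (r := 0.513) 6 (by norm_num) (by norm_num) (by norm_num) (by norm_num))
    (exp_neg_leJ (r := 0.99) 14 (by norm_num) (by norm_num) (by norm_num) (by norm_num))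
    (exp_neg_leJ (r := 0.99) 14 (by norm_num) (by norm_num) (by norm_num) (by norm_num))
    (exp_neg_leJ (r := 0.476) 8 (by norm_num) (by norm_num) (by norm_num) (by norm_num))
    (exp_neg_leJ (r := 0.99) 14 (by norm_num) (by norm_num) (by norm_num) (by norm_num))
    (exp_neg_leJ (r := 0.99) 14 (by norm_num) (by norm_num) (by norm_num) (by norm_num))
    (exp_neg_leJ (r := 0.99) 14 (by norm_num) (by norm_num) (by norm_num) (by norm_num))
    (by norm_num)) (by norm_num) hN hβ.le (by norm_num)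

private theorem B5Do_T32 {β x y : ℝ} (hβ : 0 < β) (hN : β * 16.666 ≤ 1) (hx1 : 0.358 ≤ x) (hx2 : x ≤ 0.5034)
    (hy1 : 0.1389 ≤ y) (hy2 : y ≤ 0.1991) : ‖HH β (x + y * I) - 1‖ ≤ 0.03 := by
  exact B5Do_T32_0_0 hβ hN (by linarith) (by linarith) (by linarith) (by linarith)

private theorem B5Do_G33 {κ : ℝ} (hk1 : 0.5 ≤ κ) (hk2 : κ ≤ 0.6) : gG κ 0.58 ≤ 1.31475 ∧ 0.49856 ≤ Real.exp (-(κ * 0.58)) ^ 2 := by
  refine ⟨gG_le 0.58 0.5 0.6 1.31475 0.74827 0.7061 1.33643 1.41624 hk1 hk2 (by norm_num)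
    (ex_um 0.29 (by norm_num) (by norm_num) (by norm_num) (by norm_num)) (ex_um 0.348 (by norm_num) (by norm_num) (by norm_num) (by norm_num))
    (ex_up 0.29 (by norm_num) (by norm_num) (by norm_num) (by norm_num)) (ex_up 0.348 (by norm_num) (by norm_num) (by norm_num) (by norm_num))
    (by norm_num) (by norm_num), ?_⟩
  exact v5_M 0.70609 (ex_lm 0.348 (by linarith) (by norm_num) (by norm_num) (by norm_num) (by norm_num)) (by norm_num) (by norm_num)

private theorem B5Do_C34 {β r t κ : ℝ} (hβ : 0 < β) (hr : 10 ≤ r) (hκ : κ = β * r) (hk1 : 0.5 ≤ κ) (hk2 : κ ≤ 0.6) (hta : 1.6716 ≤ t + κ)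
    (htb : t + κ ≤ 1.8222) : ‖F (cexp (I * β)) (r * cexp (I * ((t + β / 2 : ℝ) : ℂ)))‖ ≤
      2.9558 * Real.exp (r * (1.31475 - 0.58 * (t + κ))) + 0.1349 * Real.exp (r * 0) :=
  v5_H 0.58 0.5 0.6 1.6716 1.8222 1.31475 2.7295 0.49856 0.0978 2.6422 0.2484 0.05568 0.5746 0.00000161 2.9558 0.1349 hβ hr hκ (by norm_num) hk1 hk2 hta htb (by norm_num) (B5Do_G33 hk1 hk2).1 (B5Do_G33 hk1 hk2).2 (by norm_num) (by norm_num) (by norm_num)
    (by norm_num) (by norm_num) (by norm_num) (by norm_num) (by norm_num) (by norm_num) (by norm_num) (by norm_num) (ex_un 0 0.5567 (by norm_num) (by norm_num) (by norm_num) (by norm_num))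
    (v5_hump 2.8588 16.666 4.0825 0.0000009316 0.00000161 hβ hr hκ hk1 hk2 (by norm_num) htb (by norm_num) (by norm_num) (by norm_num) (by norm_num) (by norm_num) (by norm_num) (by norm_num) (ex_un 13 0.9 (by norm_num) (by norm_num) (by norm_num) (by norm_num)) (by norm_num)) (by norm_num) (by norm_num)

private theorem B5Do_C35 {β r t κ : ℝ} (hβ : 0 < β) (hr : 10 ≤ r) (hκ : κ = β * r) (hk1 : 0.5 ≤ κ) (hk2 : κ ≤ 0.6) (hta : (-2.0983) ≤ t + κ)
    (htb : t + κ ≤ (-1.9477)) : ‖F (cexp (I * β)) (r * cexp (I * ((t + β / 2 : ℝ) : ℂ)))‖ ≤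
      1.5574 * Real.exp (r * (1.27334 - (-0.71) * (t + κ))) + 2.0296 * Real.exp (r * 0.0501) :=
  v5_HU (-0.71) 0.5 0.6 (-2.0983) (-1.9477) 1.27334 1.5574 2.03398 0.0978 1.0822 2.0136 0 0.0501 0.00000161 2.0296 hβ hr hκ (by norm_num) hk1 hk2 hta htb (by norm_num) (by norm_num) (B5Do_G13 hk1 hk2).1 (B5Do_G13 hk1 hk2).2 (by norm_num) (by norm_num) (by norm_num)
    (by norm_num) (by norm_num) (by norm_num) (by norm_num) (by norm_num) (by norm_num) (by norm_num)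
    (by norm_num) (by norm_num) (by norm_num) (v5_hump 6.6287 16.666 4.0825 0.0000009316 0.00000161 hβ hr hκ hk1 hk2 (by norm_num) htb (by norm_num) (by norm_num) (by norm_num) (by norm_num) (by norm_num) (by norm_num) (by norm_num) (ex_un 13 0.9 (by norm_num) (by norm_num) (by norm_num) (by norm_num)) (by norm_num)) (by norm_num)

private theorem B5Do_C36 {β r t κ : ℝ} (hβ : 0 < β) (hr : 10 ≤ r) (hκ : κ = β * r) (hk1 : 0.5 ≤ κ) (hk2 : κ ≤ 0.6) (hta : 2.9282 ≤ t + κ)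
    (htb : t + κ ≤ 3.0788) : ‖F (cexp (I * β)) (r * cexp (I * ((t + β / 2 : ℝ) : ℂ)))‖ ≤
      2.7299 * Real.exp (r * (0.01 + 1 / 20)) :=
  v5_UD 0.5 0.6 2.9282 3.0788 0.01 0.5642 0.01 1.4232 2.7299 hβ hr hκ (by norm_num) hk1 hk2 hta htb (by norm_num) (by norm_num) (by norm_num) (by norm_num) (by norm_num) (by norm_num) (by norm_num) (by norm_num) (by norm_num) (by norm_num) (by norm_num)

private theorem B5Do_Y37 {β r t κ h t' : ℝ} (hβ : 0 < β) (hκ : κ = β * r) (hN : β * 16.666 ≤ 1) (hk1 : 0.5 ≤ κ) (hk2 : κ ≤ 0.6)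
    (ht : t' = t + (((1 : ℤ) : ℝ) - 1) * h) (hD : DomR κ t') (hta : 0.415 ≤ t' + κ) (htb : t' + κ ≤ 0.5655) :
    0.8571 * Real.exp (r * sE κ t') ≤ ‖Xf β r h t 1‖ := by
  obtain ⟨⟨ya, yb⟩, ⟨xa, xb⟩, n1, Da, Db⟩ := B5Do_B31 hD hk1 hk2 hta htb
  have J := B5Do_T32 (x := sx κ t') (y := sy κ t') hβ hN (by linarith only [xa, xb, ya, yb]) (by linarith only [xa, xb, ya, yb]) (by linarith only [xa, xb, ya, yb]) (by linarith only [xa, xb, ya, yb])
  exact v5_Jlo hβ hκ (k := 1) ht hD 0.03 1.6398 0.8571 (by norm_num) J Db (by norm_num)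

private theorem B5Do_V38 {κ t : ℝ} (hD : DomR κ t) (hk1 : 0.5 ≤ κ) (hk2 : κ ≤ 0.6) (hta : 0.415 ≤ t + κ) (htb : t + κ ≤ 0.5655) :
    1.08238 - 0.3559 * (t + κ) ≤ sE κ t := by
  have hκ0 : 0 < κ := hD.1
  exact v5_V1 hD 0.5 0.6 0.415 0.5655 0.06252 0.21121 0.22916 1.08238 0.3559 (by norm_num) hk1 hk2 (by norm_num) (by norm_num) hta htb (by norm_num) (clo5 0.5 0.6 0.22916 (by norm_num) hk1 hk2 (by norm_num) (by norm_num) (by norm_num))
      ((cup1 0.6 hκ0.le hk2 (by norm_num)).trans (by norm_num)) (by norm_num) (by norm_num) (by norm_num) (by norm_num) (by norm_num) (by norm_num)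

private theorem B5Do_K39 {β r t κ h : ℝ} (hβ : 0 < β) (hr : 10 ≤ r) (hκ : κ = β * r) (hk1 : 0.5 ≤ κ) (hk2 : κ ≤ 0.6)
    (hh : h = 2 * Real.pi / 5) (hh1 : 1.25663 ≤ h) (hh2 : h ≤ 1.25664) (hta : 0.415 ≤ t + κ) (htb : t + κ ≤ 0.5655)
    (hY : 0.8571 * Real.exp (r * sE κ t) ≤ ‖Xf β r h t 1‖) (hV : 1.08238 - 0.3559 * (t + κ) ≤ sE κ t) :
    ‖Xf β r h t 2‖ ≤ 0.00967 * ‖Xf β r h t 1‖ := by
  rw [v5_X 2 1 (by push_cast; ring)]
  exact v5_cmp 0.5894 0.002793 0.00964 0.8811 0.0001506 0.0000238 0.00967 hr (B5Do_C34 (t := t + 1 * h) hβ hr hκ hk1 hk2 (by linarith only [hta, htb, hh1, hh2]) (by linarith only [hta, htb, hh1, hh2])) hY (by norm_num) (by norm_num) (by norm_num) (by norm_num) (by linarith only [hV, hta, htb, hh1, hh2]) (ex_un 5 0.8939 (by norm_num) (by norm_num) (by norm_num) (by norm_num)) (by norm_num) (by norm_num) (by linarith only [hV, hta, htb, hh1, hh2]) (ex_un 8 0.8109 (by norm_num) (by norm_num)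 (by norm_num) (by norm_num)) (by norm_num) (by norm_num)

private theorem B5Do_K40 {β r t κ h : ℝ} (hβ : 0 < β) (hr : 10 ≤ r) (hκ : κ = β * r) (hk1 : 0.5 ≤ κ) (hk2 : κ ≤ 0.6)
    (hh : h = 2 * Real.pi / 5) (hh1 : 1.25663 ≤ h) (hh2 : h ≤ 1.25664) (hta : 0.415 ≤ t + κ) (htb : t + κ ≤ 0.5655)
    (hY : 0.8571 * Real.exp (r * sE κ t) ≤ ‖Xf β r h t 1‖) (hV : 1.08238 - 0.3559 * (t + κ) ≤ sE κ t) :
    ‖Xf β r h t (-1)‖ ≤ 0.000676 * ‖Xf β r h t 1‖ := by
  rw [v5_X (-1) (-2) (by push_cast; ring)]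
  exact v5_cmp 0.9906 0.00005058 0.000092 0.831 0.0002462 0.000583 0.000676 hr (B5Do_C35 (t := t + (-2) * h) hβ hr hκ hk1 hk2 (by linarith only [hta, htb, hh1, hh2]) (by linarith only [hta, htb, hh1, hh2])) hY (by norm_num) (by norm_num) (by norm_num) (by norm_num) (by linarith only [hV, hta, htb, hh1, hh2]) (ex_un 9 0.9059 (by norm_num) (by norm_num) (by norm_num) (by norm_num)) (by norm_num) (by norm_num) (by linarith only [hV, hta, htb, hh1, hh2]) (ex_un 8 0.3099 (by norm_num) (by norm_num) (by norm_num) (by norm_num)) (by norm_num) (by norm_num)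

private theorem B5Do_K41 {β r t κ h : ℝ} (hβ : 0 < β) (hr : 10 ≤ r) (hκ : κ = β * r) (hk1 : 0.5 ≤ κ) (hk2 : κ ≤ 0.6)
    (hh : h = 2 * Real.pi / 5) (hh1 : 1.25663 ≤ h) (hh2 : h ≤ 1.25664) (hta : 0.415 ≤ t + κ) (htb : t + κ ≤ 0.5655)
    (hY : 0.8571 * Real.exp (r * sE κ t) ≤ ‖Xf β r h t 1‖) (hV : 1.08238 - 0.3559 * (t + κ) ≤ sE κ t) :
    ‖Xf β r h t (-2)‖ ≤ 0.000866 * ‖Xf β r h t 1‖ := by
  rw [v5_Xm2 hh]
  exact v5_cmp0 0.8211 0.0002717 0.000866 hr (B5Do_C36 (t := t + 2 * h) hβ hr hκ hk1 hk2 (by linarith only [hta, htb, hh1, hh2]) (by linarith only [hta, htb, hh1, hh2])) hY (by norm_num) (by norm_num) (by norm_num) (by linarith only [hV, hta, htb, hh1, hh2]) (ex_un 8 0.2109 (by norm_num) (by norm_num) (by norm_num) (by norm_num)) (by norm_num)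

private theorem B5Do_G42 {κ : ℝ} (hk1 : 0.5 ≤ κ) (hk2 : κ ≤ 0.6) : gG κ (-0.7) ≤ 1.26639 ∧ 2.01373 ≤ Real.exp (-(κ * (-0.7))) ^ 2 := by
  refine ⟨gG_le (-0.7) 0.5 0.6 1.26639 1.41907 1.52197 0.70469 0.65705 hk1 hk2 (by norm_num)
    (ex_up 0.35 (by norm_num) (by norm_num) (by norm_num) (by norm_num)) (ex_up 0.42 (by norm_num) (by norm_num) (by norm_num) (by norm_num))
    (ex_um 0.35 (by norm_num) (by norm_num) (by norm_num) (by norm_num)) (ex_um 0.42 (by norm_num) (by norm_num) (by norm_num) (by norm_num))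
    (by norm_num) (by norm_num), ?_⟩
  exact v5_M 1.41906 (ex_lp 0.35 (by linarith) (by norm_num) (by norm_num)) (by norm_num) (by norm_num)

private theorem B5Do_C43 {β r t κ : ℝ} (hβ : 0 < β) (hr : 10 ≤ r) (hκ : κ = β * r) (hk1 : 0.5 ≤ κ) (hk2 : κ ≤ 0.6) (hta : (-0.8417) ≤ t + κ)
    (htb : t + κ ≤ (-0.6911)) : ‖F (cexp (I * β)) (r * cexp (I * ((t + β / 2 : ℝ) : ℂ)))‖ ≤
      1.559 * Real.exp (r * (1.26639 - (-0.7) * (t + κ))) + 2.0045 * Real.exp (r * 0.3159) :=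
  v5_HU (-0.7) 0.5 0.6 (-0.8417) (-0.6911) 1.26639 1.559 2.01373 0.0978 1.0822 3.2702 0.3798 0.3159 0.00000161 2.0045 hβ hr hκ (by norm_num) hk1 hk2 hta htb (by norm_num) (by norm_num) (B5Do_G42 hk1 hk2).1 (B5Do_G42 hk1 hk2).2 (by norm_num) (by norm_num) (by norm_num)
    (by norm_num) (by norm_num) (by norm_num) (by norm_num) (by norm_num) (by norm_num) (by norm_num)
    (by norm_num) (by norm_num) (by norm_num) (v5_hump 5.3721 16.666 4.0825 0.0000009316 0.00000161 hβ hr hκ hk1 hk2 (by norm_num) htb (by norm_num) (by norm_num) (by norm_num) (by norm_num) (by norm_num) (by norm_num) (by norm_num) (ex_un 13 0.9 (by norm_num) (by norm_num) (by norm_num) (by norm_num)) (by norm_num)) (by norm_num)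

private theorem B5Do_K44 {β r t κ h : ℝ} (hβ : 0 < β) (hr : 10 ≤ r) (hκ : κ = β * r) (hk1 : 0.5 ≤ κ) (hk2 : κ ≤ 0.6)
    (hh : h = 2 * Real.pi / 5) (hh1 : 1.25663 ≤ h) (hh2 : h ≤ 1.25664) (hta : 0.415 ≤ t + κ) (htb : t + κ ≤ 0.5655)
    (hY : 0.8571 * Real.exp (r * sE κ t) ≤ ‖Xf β r h t 1‖) (hV : 1.08238 - 0.3559 * (t + κ) ≤ sE κ t) :
    ‖Xf β r h t 0‖ ≤ 0.701 * ‖Xf β r h t 1‖ := by
  rw [v5_X 0 (-1) (by push_cast; ring)]
  exact v5_cmp 0.0985 0.3804 0.692 0.5652 0.003527 0.00825 0.701 hr (B5Do_C43 (t := t + (-1) * h) hβ hr hκ hk1 hk2 (by linarith only [hta, htb, hh1, hh2]) (by linarith only [hta, htb, hh1, hh2])) hY (by norm_num) (by norm_num) (by norm_num) (by norm_num) (by linarith only [hV, hta, htb, hh1, hh2]) (ex_un 0 0.9849 (by norm_num) (by norm_num) (by norm_num) (by norm_num)) (by norm_num) (by norm_num) (by linarith only [hV, hta, htb, hh1, hh2]) (ex_un 5 0.6519 (by norm_num) (by norm_num)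 (by norm_num) (by norm_num)) (by norm_num) (by norm_num)

private theorem B5Do_O45 {β r t κ h : ℝ} (hβ : 0 < β) (hr : 10 ≤ r) (hκ : κ = β * r) (hk1 : 0.5 ≤ κ) (hk2 : κ ≤ 0.6)
    (hh : h = 2 * Real.pi / 5) (hta : 0.415 ≤ t + κ) (htb : t + κ ≤ 0.5655) :
    ‖Xf β r h t (-2)‖ + ‖Xf β r h t (-1)‖ + ‖Xf β r h t 2‖ < |‖Xf β r h t 1‖ - ‖Xf β r h t 0‖| := by
  obtain ⟨hh1, hh2⟩ := v5_h hh
  have hκ0 : 0 < κ := by linarith only [hk1]
  have hN : β * 16.666 ≤ 1 := v5_hN 0.6 16.666 hβ hr hκ hk2 (by norm_num) (by norm_num)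
  have hD1 : DomR κ t := v5_dom hκ0 (by linarith only [hta, htb, hk1, hk2, hh1, hh2]) (Or.inr (by linarith only [hta, htb, hk1, hk2, hh1, hh2]))
  have e1 : t = t + (((1 : ℤ) : ℝ) - 1) * h := by push_cast; ring
  have hY := B5Do_Y37 (h := h) hβ hκ hN hk1 hk2 e1 hD1 hta htb
  have hV := B5Do_V38 hD1 hk1 hk2 hta htb
  have cp2 := B5Do_K39 hβ hr hκ hk1 hk2 hh hh1 hh2 hta htb hY hV
  have cm1 := B5Do_K40 hβ hr hκ hk1 hk2 hh hh1 hh2 hta htb hY hV
  have cm2 := B5Do_K41 hβ hr hκ hk1 hk2 hh hh1 hh2 hta htb hY hV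
  have cn0 := B5Do_K44 hβ hr hκ hk1 hk2 hh hh1 hh2 hta htb hY hV
  have hp : 0 < ‖Xf β r h t 1‖ := lt_of_lt_of_le (by positivity) hY
  exact v5_out1 _ _ _ _ cm2 cm1 cp2 cn0 hp (by norm_num)

private theorem B5Do_B46 {κ t : ℝ} (h : DomR κ t) (hk1 : 0.5 ≤ κ) (hk2 : κ ≤ 0.6) (ht1 : (-0.4902) ≤ t + κ) (ht2 : t + κ ≤ (-0.3766)) :
    ((-0.272) ≤ sy κ t ∧ sy κ t ≤ (-0.18)) ∧ (0.5331 ≤ sx κ t ∧ sx κ t ≤ 0.7668) ∧ κ * Real.exp (-sy κ t) ≤ 0.7876 ∧ 0.8867 ≤ sD κ t ∧ sD κ t ≤ 1.1561 := by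
  have hy1 : -0.272 ≤ sy κ t := syL_ge h 0.5 0.6 0.4902 0.272 0.76185 0.76186 0.3338 0.34537 0.41446 hk1 hk2 (by linarith) (by norm_num) (by norm_num) (by norm_num)
    (expm_ge (by norm_num) (by norm_num) (by norm_num) (by norm_num)) (expm_le (by norm_num) (by norm_num) (by norm_num)) (by norm_num)
    (by norm_num) (by norm_num) (by norm_num) (by norm_num) (by norm_num) (by norm_num)
  have hy2 : sy κ t ≤ -0.18 := syL_le h 0.5 0.6 0.3766 0.18 0.83527 0.83528 0.25058 0.30071 hk1 hk2 (by linarith) (by norm_num) (by norm_num) (by norm_num)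
    (expm_ge (by norm_num) (by norm_num) (by norm_num) (by norm_num)) (expm_le (by norm_num) (by norm_num) (by norm_num)) (by norm_num)
    (by norm_num) (by norm_num) (by norm_num) (by norm_num) (by norm_num) (by norm_num)
  have hy1' : (-0.272) ≤ sy κ t := by linarith
  have hy2' : sy κ t ≤ (-0.18) := by linarith
  have hx1 : 0.5331 ≤ sx κ t := sx_lo h 0.5 (-0.18) 0.2721 1.19721 0.5331 hk1 (by norm_num) hy2' (abs_le.2 ⟨by linarith, by linarith⟩) (ex_lp 0.18 (by norm_num) (by norm_num) (by norm_num)) (by norm_num) (by norm_num)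
  have hx2 : sx κ t ≤ 0.7668 := sx_hi h 0.6 (-0.272) 0.18 1.31259 0.7668 hk2 hy1' (by norm_num) (le_trans (by linarith) (neg_le_abs _)) (ex_up 0.272 (by norm_num) (by norm_num) (by norm_num) (by norm_num)) (by norm_num) (by norm_num)
  refine ⟨⟨hy1', hy2'⟩, ⟨hx1, hx2⟩, v5_n h 0.6 (-0.272) 1.31259 0.7876 hk2 hy1' (ex_up 0.272 (by norm_num) (by norm_num) (by norm_num) (by norm_num)) (by norm_num), ?_, ?_⟩
  · exact v5_Dlo h 0.5 (-0.272) (-0.18) (-0.272) 1.31258 0.8867 (by norm_num) hk1 hy1' hy2' (ex_lp 0.272 (by norm_num) (by norm_num) (by norm_num)) (by norm_num) (by norm_num) (by norm_num) (by norm_num)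
  · exact v5_Dup h 0.6 (-0.272) (-0.18) 1.31259 1.19722 1.1561 hk2 hy1' hy2' (ex_up 0.272 (by norm_num) (by norm_num) (by norm_num) (by norm_num)) (ex_up 0.18 (by norm_num) (by norm_num) (by norm_num) (by norm_num)) (by norm_num) (by norm_num) (by norm_num)

private theorem B5Do_T47_0_0 {β x y : ℝ} (hβ : 0 < β) (hN : β * 16.666 ≤ 1) (hx1 : 0.533 ≤ x) (hx2 : x ≤ 0.629)
    (hy1 : -0.2721 ≤ y) (hy2 : y ≤ -0.1799) : ‖HH β (x + y * I) - 1‖ ≤ 0.04 := by
  refine le_epsJ (C := 0.6663) (N0 := 16.666) (J_boxp 0.533 0.629 0.2721 0 (-0.1799) 0.8921 0.6854 1.0336 1.2066 0.4056 4.0825 16.666 0.7683 2.817 1.414 0.927 0.446 0.3318 0.7612 2.8712 0.4652 1.2379 1.897 3.9149 0.0005915 0.003971 0.000003097 0.0000003101 0.00043 0.0000003101 0.0000003101 0.0000003101 0.6663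
    hβ hN hx1 hx2 hy1 hy2 (by norm_num) (by norm_num) (by linarith) (by norm_num) (by norm_num) (by norm_num) (by norm_num) (by norm_num) (by norm_num) (by norm_num) (by norm_num) (by norm_num) (by norm_num) (by norm_num) (by norm_num) (by norm_num) (by norm_num) (by norm_num) (by norm_num) (by norm_num) (by norm_num) (by norm_num) (by norm_num) (by norm_num)
    (cube_sqrt_geJ (s := 0.8624) (by norm_num) (by norm_num) (by norm_num) (by norm_num))
    (cube_sqrt_geJ (s := 0.9518) (by norm_num) (by norm_num) (by norm_num) (by norm_num))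
    (by norm_num) (by norm_num) (by norm_num) (by norm_num) (by norm_num) (by norm_num) (by norm_num) (by norm_num) (by norm_num) (by norm_num) (by norm_num) (by norm_num) (by norm_num) (by norm_num) (by norm_num) (by norm_num) (by norm_num) (by norm_num)
    (exp_neg_leJ (r := 0.433) 7 (by norm_num) (by norm_num) (by norm_num) (by norm_num))
    (exp_neg_leJ (r := 0.529) 5 (by norm_num) (by norm_num) (by norm_num) (by norm_num))
    (exp_neg_leJ (r := 0.686) 12 (by norm_num) (by norm_num) (by norm_num) (by norm_num))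
    (exp_neg_leJ (r := 0.99) 14 (by norm_num) (by norm_num) (by norm_num) (by norm_num))
    (exp_neg_leJ (r := 0.753) 7 (by norm_num) (by norm_num) (by norm_num) (by norm_num))
    (exp_neg_leJ (r := 0.99) 14 (by norm_num) (by norm_num) (by norm_num) (by norm_num))
    (exp_neg_leJ (r := 0.99) 14 (by norm_num) (by norm_num) (by norm_num) (by norm_num))
    (exp_neg_leJ (r := 0.99) 14 (by norm_num) (by norm_num) (by norm_num) (by norm_num))
    (by norm_num)) (by norm_num) hN hβ.le (by norm_num)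

private theorem B5Do_T47_0_1 {β x y : ℝ} (hβ : 0 < β) (hN : β * 16.666 ≤ 1) (hx1 : 0.629 ≤ x) (hx2 : x ≤ 0.726)
    (hy1 : -0.2721 ≤ y) (hy2 : y ≤ -0.1799) : ‖HH β (x + y * I) - 1‖ ≤ 0.04 := by
  refine le_epsJ (C := 0.6649) (N0 := 16.666) (J_boxp 0.629 0.726 0.2721 0 (-0.1799) 0.9597 0.7754 1.0953 1.1132 0.4176 4.0825 16.666 0.808 3 1.441 0.8897 0.4798 0.3506 0.794 2.817 0.5118 1.3709 2.089 3.8623 0.0003401 0.002906 0.000001793 0.0000003101 0.0001977 0.0000003101 0.0000003101 0.0000003101 0.6649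
    hβ hN hx1 hx2 hy1 hy2 (by norm_num) (by norm_num) (by linarith) (by norm_num) (by norm_num) (by norm_num) (by norm_num) (by norm_num) (by norm_num) (by norm_num) (by norm_num) (by norm_num) (by norm_num) (by norm_num) (by norm_num) (by norm_num) (by norm_num) (by norm_num) (by norm_num) (by norm_num) (by norm_num) (by norm_num) (by norm_num) (by norm_num)
    (cube_sqrt_geJ (s := 0.8547) (by norm_num) (by norm_num) (by norm_num) (by norm_num))
    (cube_sqrt_geJ (s := 0.9492) (by norm_num) (by norm_num) (by norm_num) (by norm_num))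
    (by norm_num) (by norm_num) (by norm_num) (by norm_num) (by norm_num) (by norm_num) (by norm_num) (by norm_num) (by norm_num) (by norm_num) (by norm_num) (by norm_num) (by norm_num) (by norm_num) (by norm_num) (by norm_num) (by norm_num) (by norm_num)
    (exp_neg_leJ (r := 0.99) 7 (by norm_num) (by norm_num) (by norm_num) (by norm_num))
    (exp_neg_leJ (r := 0.843) 5 (by norm_num) (by norm_num) (by norm_num) (by norm_num))
    (exp_neg_leJ (r := 0.232) 13 (by norm_num) (by norm_num) (by norm_num) (by norm_num))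
    (exp_neg_leJ (r := 0.99) 14 (by norm_num) (by norm_num) (by norm_num) (by norm_num))
    (exp_neg_leJ (r := 0.529) 8 (by norm_num) (by norm_num) (by norm_num) (by norm_num))
    (exp_neg_leJ (r := 0.99) 14 (by norm_num) (by norm_num) (by norm_num) (by norm_num))
    (exp_neg_leJ (r := 0.99) 14 (by norm_num) (by norm_num) (by norm_num) (by norm_num))
    (exp_neg_leJ (r := 0.99) 14 (by norm_num) (by norm_num) (by norm_num) (by norm_num))
    (by norm_num)) (by norm_num) hN hβ.le (by norm_num)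

private theorem B5Do_T47_0_2 {β x y : ℝ} (hβ : 0 < β) (hN : β * 16.666 ≤ 1) (hx1 : 0.726 ≤ x) (hx2 : x ≤ 0.7669)
    (hy1 : -0.2721 ≤ y) (hy2 : y ≤ -0.1799) : ‖HH β (x + y * I) - 1‖ ≤ 0.04 := by
  refine le_epsJ (C := 0.5628) (N0 := 16.666) (J_boxp 0.726 0.7669 0.2721 0 (-0.1799) 1.028 0.8138 1.1229 1.0167 0.4228 4.0825 16.666 0.7917 2.923 1.429 0.8739 0.5139 0.3783 0.8273 2.794 0.559 1.5052 2.283 3.9519 0.000191 0.00183 0.000001031 0.0000003101 0.00008998 0.0000003101 0.0000003101 0.0000003101 0.5628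
    hβ hN hx1 hx2 hy1 hy2 (by norm_num) (by norm_num) (by linarith) (by norm_num) (by norm_num) (by norm_num) (by norm_num) (by norm_num) (by norm_num) (by norm_num) (by norm_num) (by norm_num) (by norm_num) (by norm_num) (by norm_num) (by norm_num) (by norm_num) (by norm_num) (by norm_num) (by norm_num) (by norm_num) (by norm_num) (by norm_num) (by norm_num)
    (cube_sqrt_geJ (s := 0.8579) (by norm_num) (by norm_num) (by norm_num) (by norm_num))
    (cube_sqrt_geJ (s := 0.9502) (by norm_num) (by norm_num) (by norm_num) (by norm_num))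
    (by norm_num) (by norm_num) (by norm_num) (by norm_num) (by norm_num) (by norm_num) (by norm_num) (by norm_num) (by norm_num) (by norm_num) (by norm_num) (by norm_num) (by norm_num) (by norm_num) (by norm_num) (by norm_num) (by norm_num) (by norm_num)
    (exp_neg_leJ (r := 0.564) 8 (by norm_num) (by norm_num) (by norm_num) (by norm_num))
    (exp_neg_leJ (r := 0.304) 6 (by norm_num) (by norm_num) (by norm_num) (by norm_num))
    (exp_neg_leJ (r := 0.787) 13 (by norm_num) (by norm_num) (by norm_num) (by norm_num))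
    (exp_neg_leJ (r := 0.99) 14 (by norm_num) (by norm_num) (by norm_num) (by norm_num))
    (exp_neg_leJ (r := 0.316) 9 (by norm_num) (by norm_num) (by norm_num) (by norm_num))
    (exp_neg_leJ (r := 0.99) 14 (by norm_num) (by norm_num) (by norm_num) (by norm_num))
    (exp_neg_leJ (r := 0.99) 14 (by norm_num) (by norm_num) (by norm_num) (by norm_num))
    (exp_neg_leJ (r := 0.99) 14 (by norm_num) (by norm_num) (by norm_num) (by norm_num))
    (by norm_num)) (by norm_num) hN hβ.le (by norm_num)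

private theorem B5Do_T47 {β x y : ℝ} (hβ : 0 < β) (hN : β * 16.666 ≤ 1) (hx1 : 0.533 ≤ x) (hx2 : x ≤ 0.7669)
    (hy1 : (-0.2721) ≤ y) (hy2 : y ≤ (-0.1799)) : ‖HH β (x + y * I) - 1‖ ≤ 0.04 := by
  rcases le_total x 0.629 with hxx | hxx
  · exact B5Do_T47_0_0 hβ hN (by linarith) (by linarith) (by linarith) (by linarith)
  rcases le_total x 0.726 with hxx | hxx
  · exact B5Do_T47_0_1 hβ hN (by linarith) (by linarith) (by linarith) (by linarith)
  exact B5Do_T47_0_2 hβ hN (by linarith) (by linarith) (by linarith) (by linarith)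

private theorem B5Do_C48 {β r t κ : ℝ} (hβ : 0 < β) (hr : 10 ≤ r) (hκ : κ = β * r) (hk1 : 0.5 ≤ κ) (hk2 : κ ≤ 0.6) (hta : 2.0231 ≤ t + κ)
    (htb : t + κ ≤ 2.1367) : ‖F (cexp (I * β)) (r * cexp (I * ((t + β / 2 : ℝ) : ℂ)))‖ ≤
      4.375 * Real.exp (r * (0.19 + 1 / 20)) :=
  v5_UD 0.5 0.6 2.0231 2.1367 0.19 0.5642 0.19 2.2809 4.375 hβ hr hκ (by norm_num) hk1 hk2 hta htb (by norm_num) (by norm_num) (by norm_num) (by norm_num) (by norm_num) (by norm_num) (by norm_num) (by norm_num) (by norm_num) (by norm_num) (by norm_num)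

private theorem B5Do_C49 {β r t κ : ℝ} (hβ : 0 < β) (hr : 10 ≤ r) (hκ : κ = β * r) (hk1 : 0.5 ≤ κ) (hk2 : κ ≤ 0.6) (hta : (-1.7468) ≤ t + κ)
    (htb : t + κ ≤ (-1.6332)) : ‖F (cexp (I * β)) (r * cexp (I * ((t + β / 2 : ℝ) : ℂ)))‖ ≤
      1.5574 * Real.exp (r * (1.27334 - (-0.71) * (t + κ))) + 2.0224 * Real.exp (r * 0.0501) :=
  v5_HU (-0.71) 0.5 0.6 (-1.7468) (-1.6332) 1.27334 1.5574 2.03398 0.0978 1.0822 2.3651 0 0.0501 0.00000161 2.0224 hβ hr hκ (by norm_num) hk1 hk2 hta htb (by norm_num) (by norm_num) (B5Do_G13 hk1 hk2).1 (B5Do_G13 hk1 hk2).2 (by norm_num) (by norm_num) (by norm_num)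
    (by norm_num) (by norm_num) (by norm_num) (by norm_num) (by norm_num) (by norm_num) (by norm_num)
    (by norm_num) (by norm_num) (by norm_num) (v5_hump 6.3142 16.666 4.0825 0.0000009316 0.00000161 hβ hr hκ hk1 hk2 (by norm_num) htb (by norm_num) (by norm_num) (by norm_num) (by norm_num) (by norm_num) (by norm_num) (by norm_num) (ex_un 13 0.9 (by norm_num) (by norm_num) (by norm_num) (by norm_num)) (by norm_num)) (by norm_num)

private theorem B5Do_C50 {β r t κ : ℝ} (hβ : 0 < β) (hr : 10 ≤ r) (hκ : κ = β * r) (hk1 : 0.5 ≤ κ) (hk2 : κ ≤ 0.6) (hta : 3.2797 ≤ t + κ)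
    (htb : t + κ ≤ 3.3933) : ‖F (cexp (I * β)) (r * cexp (I * ((t + β / 2 : ℝ) : ℂ)))‖ ≤
      2.7032 * Real.exp (r * (0.01 + 1 / 20)) :=
  v5_UD 0.5 0.6 3.2797 3.3933 0.01 0.5642 0.01 1.4093 2.7032 hβ hr hκ (by norm_num) hk1 hk2 hta htb (by norm_num) (by norm_num) (by norm_num) (by norm_num) (by norm_num) (by norm_num) (by norm_num) (by norm_num) (by norm_num) (by norm_num) (by norm_num)

private theorem B5Do_Y51 {β r t κ h t' : ℝ} (hβ : 0 < β) (hκ : κ = β * r) (hN : β * 16.666 ≤ 1) (hk1 : 0.5 ≤ κ) (hk2 : κ ≤ 0.6)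
    (ht : t' = t + (((0 : ℤ) : ℝ) - 1) * h) (hD : DomR κ t') (hta : (-0.4902) ≤ t' + κ) (htb : t' + κ ≤ (-0.3766)) :
    0.9258 * Real.exp (r * sE κ t') ≤ ‖Xf β r h t 0‖ := by
  obtain ⟨⟨ya, yb⟩, ⟨xa, xb⟩, n1, Da, Db⟩ := B5Do_B46 hD hk1 hk2 hta htb
  have J := B5Do_T47 (x := sx κ t') (y := sy κ t') hβ hN (by linarith only [xa, xb, ya, yb]) (by linarith only [xa, xb, ya, yb]) (by linarith only [xa, xb, ya, yb]) (by linarith only [xa, xb, ya, yb])
  exact v5_Jlo hβ hκ (k := 0) ht hD 0.04 1.1561 0.9258 (by norm_num) J Db (by norm_num)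

private theorem B5Do_V52 {κ t : ℝ} (hD : DomR κ t) (hk1 : 0.5 ≤ κ) (hk2 : κ ≤ 0.6) (hta : (-0.4902) ≤ t + κ) (htb : t + κ ≤ (-0.3766)) :
    1.08839 + 0.415 * (t + κ) ≤ sE κ t := by
  have hκ0 : 0 < κ := hD.1
  exact v5_V0 hD 0.5 0.6 (-0.4902) (-0.3766) 0.4903 0.5984 0.16897 0.06636 0.51201 0.48001 1.08839 0.415 (by norm_num) hk1 hk2 (by norm_num) hta htb (by norm_num) (by norm_num) (by norm_num) ((cup1 0.6 hκ0.le hk2 (by norm_num)).trans (by norm_num))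
      (by norm_num) (by norm_num) (by norm_num) (by norm_num) (by norm_num) (by norm_num) (by norm_num) (by norm_num) (by norm_num) (by norm_num) (by norm_num) (by norm_num) (by norm_num)

private theorem B5Do_K53 {β r t κ h : ℝ} (hβ : 0 < β) (hr : 10 ≤ r) (hκ : κ = β * r) (hk1 : 0.5 ≤ κ) (hk2 : κ ≤ 0.6)
    (hh : h = 2 * Real.pi / 5) (hh1 : 1.25663 ≤ h) (hh2 : h ≤ 1.25664) (hta : 0.7665 ≤ t + κ) (htb : t + κ ≤ 0.88)
    (hY : 0.9258 * Real.exp (r * sE κ (t - h)) ≤ ‖Xf β r h t 0‖) (hV : 1.08839 + 0.415 * (t - h + κ) ≤ sE κ (t - h)) :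
    ‖Xf β r h t 2‖ ≤ 0.0075 * ‖Xf β r h t 0‖ := by
  rw [v5_X 2 1 (by push_cast; ring)]
  exact v5_cmp0 0.6449 0.001585 0.0075 hr (B5Do_C48 (t := t + 1 * h) hβ hr hκ hk1 hk2 (by linarith only [hta, htb, hh1, hh2]) (by linarith only [hta, htb, hh1, hh2])) hY (by norm_num) (by norm_num) (by norm_num) (by linarith only [hV, hta, htb, hh1, hh2]) (ex_un 6 0.4489 (by norm_num) (by norm_num) (by norm_num) (by norm_num)) (by norm_num)

private theorem B5Do_K54 {β r t κ h : ℝ} (hβ : 0 < β) (hr : 10 ≤ r) (hκ : κ = β * r) (hk1 : 0.5 ≤ κ) (hk2 : κ ≤ 0.6)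
    (hh : h = 2 * Real.pi / 5) (hh1 : 1.25663 ≤ h) (hh2 : h ≤ 1.25664) (hta : 0.7665 ≤ t + κ) (htb : t + κ ≤ 0.88)
    (hY : 0.9258 * Real.exp (r * sE κ (t - h)) ≤ ‖Xf β r h t 0‖) (hV : 1.08839 + 0.415 * (t - h + κ) ≤ sE κ (t - h)) :
    ‖Xf β r h t (-1)‖ ≤ 0.00099 * ‖Xf β r h t 0‖ := by
  rw [v5_X (-1) (-2) (by push_cast; ring)]
  exact v5_cmp 0.8183 0.0002795 0.000471 0.8348 0.0002371 0.000518 0.00099 hr (B5Do_C49 (t := t + (-2) * h) hβ hr hκ hk1 hk2 (by linarith only [hta, htb, hh1, hh2]) (by linarith only [hta, htb, hh1, hh2])) hY (by norm_num) (by norm_num) (by norm_num) (by norm_num) (by linarith only [hV, hta, htb, hh1, hh2]) (ex_un 8 0.1829 (by norm_num) (by norm_num) (by norm_num) (by norm_num)) (by norm_num) (by norm_num) (by linarith only [hV, hta, htb, hh1, hh2]) (ex_un 8 0.3479 (by norm_num) (by norm_num) (by norm_num) (by norm_num)) (by norm_num) (by norm_num)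

private theorem B5Do_K55 {β r t κ h : ℝ} (hβ : 0 < β) (hr : 10 ≤ r) (hκ : κ = β * r) (hk1 : 0.5 ≤ κ) (hk2 : κ ≤ 0.6)
    (hh : h = 2 * Real.pi / 5) (hh1 : 1.25663 ≤ h) (hh2 : h ≤ 1.25664) (hta : 0.7665 ≤ t + κ) (htb : t + κ ≤ 0.88)
    (hY : 0.9258 * Real.exp (r * sE κ (t - h)) ≤ ‖Xf β r h t 0‖) (hV : 1.08839 + 0.415 * (t - h + κ) ≤ sE κ (t - h)) :
    ‖Xf β r h t (-2)‖ ≤ 0.000764 * ‖Xf β r h t 0‖ := by
  rw [v5_Xm2 hh]
  exact v5_cmp0 0.8249 0.0002616 0.000764 hr (B5Do_C50 (t := t + 2 * h) hβ hr hκ hk1 hk2 (by linarith only [hta, htb, hh1, hh2]) (by linarith only [hta, htb, hh1, hh2])) hY (by norm_num) (by norm_num) (by norm_num) (by linarith only [hV, hta, htb, hh1, hh2]) (ex_un 8 0.2489 (by norm_num) (by norm_num) (by norm_num) (by norm_num)) (by norm_num)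

private theorem B5Do_G56 {κ : ℝ} (hk1 : 0.5 ≤ κ) (hk2 : κ ≤ 0.6) : gG κ 0.41 ≤ 1.13857 ∧ 0.61139 ≤ Real.exp (-(κ * 0.41)) ^ 2 := by
  refine ⟨gG_le 0.41 0.5 0.6 1.13857 0.81465 0.78193 1.22753 1.2789 hk1 hk2 (by norm_num)
    (ex_um 0.205 (by norm_num) (by norm_num) (by norm_num) (by norm_num)) (ex_um 0.246 (by norm_num) (by norm_num) (by norm_num) (by norm_num))
    (ex_up 0.205 (by norm_num) (by norm_num) (by norm_num) (by norm_num)) (ex_up 0.246 (by norm_num) (by norm_num) (by norm_num) (by norm_num))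
    (by norm_num) (by norm_num), ?_⟩
  exact v5_M 0.78192 (ex_lm 0.246 (by linarith) (by norm_num) (by norm_num) (by norm_num) (by norm_num)) (by norm_num) (by norm_num)

private theorem B5Do_B57 {κ t : ℝ} (h : DomR κ t) (hk1 : 0.5 ≤ κ) (hk2 : κ ≤ 0.6) (ht1 : 0.7664 ≤ t + κ) (ht2 : t + κ ≤ 0.8801) :
    (0.223 ≤ sy κ t ∧ sy κ t ≤ 0.277) ∧ (0.2586 ≤ sx κ t ∧ sx κ t ≤ 0.4252) ∧ κ * Real.exp (-sy κ t) ≤ 0.4801 ∧ 1.606 ≤ sD κ t ∧ sD κ t ≤ 1.7609 := by
  have hy1 : 0.223 ≤ sy κ t := syR_ge h 0.5 0.6 0.7664 0.223 1.24982 1.24983 0.46451 0.55743 hk1 hk2 (by linarith) (by norm_num) (by norm_num)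
    (expn_ge (by norm_num) (by norm_num)) (expn_le (by norm_num) (by norm_num) (by norm_num)) (by norm_num)
    (by norm_num) (by norm_num) (by norm_num) (by norm_num) (by norm_num) (by norm_num)
  have hy2 : sy κ t ≤ 0.277 := syR_le h 0.5 0.6 0.8801 0.277 1.31916 0.5785 0.60901 0.73083 hk1 hk2 (by linarith) (by norm_num) (by norm_num)
    (expn_ge (by norm_num) (by norm_num)) (by norm_num) (by norm_num) (Or.inr ((mul_le_mul_of_nonneg_left (expn_le (E := 1.31917) (by norm_num) (by norm_num) (by norm_num)) (by norm_num)).trans (by norm_num))) (by norm_num) (by norm_num) (by norm_num)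
  have hy1' : 0.223 ≤ sy κ t := by linarith
  have hy2' : sy κ t ≤ 0.277 := by linarith
  have hx1 : 0.2586 ≤ sx κ t := sx_lo h 0.5 0.277 0.2771 0.75805 0.2586 hk1 (by norm_num) hy2' (abs_le.2 ⟨by linarith, by linarith⟩) (ex_lm 0.277 (by norm_num) (by norm_num) (by norm_num) (by norm_num) (by norm_num)) (by norm_num) (by norm_num)
  have hx2 : sx κ t ≤ 0.4252 := sx_hi h 0.6 0.223 0.223 0.80012 0.4252 hk2 hy1' (by norm_num) (le_trans (by linarith) (le_abs_self _)) (ex_um 0.223 (by norm_num) (by norm_num) (by norm_num) (by norm_num)) (by norm_num) (by norm_num)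
  refine ⟨⟨hy1', hy2'⟩, ⟨hx1, hx2⟩, v5_n h 0.6 0.223 0.80012 0.4801 hk2 hy1' (ex_um 0.223 (by norm_num) (by norm_num) (by norm_num) (by norm_num)) (by norm_num), ?_, ?_⟩
  · exact v5_Dlo h 0.5 0.223 0.277 0.223 0.80011 1.606 (by norm_num) hk1 hy1' hy2' (ex_lm 0.223 (by norm_num) (by norm_num) (by norm_num) (by norm_num) (by norm_num)) (by norm_num) (by norm_num) (by norm_num) (by norm_num)
  · exact v5_Dup h 0.6 0.223 0.277 0.80012 0.75806 1.7609 hk2 hy1' hy2' (ex_um 0.223 (by norm_num) (by norm_num) (by norm_num) (by norm_num)) (ex_um 0.277 (by norm_num) (by norm_num) (by norm_num) (by norm_num)) (by norm_num) (by norm_num) (by norm_num)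

private theorem B5Do_T58_0_0 {β x y : ℝ} (hβ : 0 < β) (hN : β * 16.666 ≤ 1) (hx1 : 0.2585 ≤ x) (hx2 : x ≤ 0.4253)
    (hy1 : -0 ≤ y) (hy2 : y ≤ 0.2771) : ‖HH β (x + y * I) - 1‖ ≤ 0.03 := by
  refine le_epsJ (C := 0.415) (N0 := 16.666) (J_boxp 0.2585 0.4253 0 0.2771 0.2771 0.892 0.5077 1.3461 1.3772 0.4629 4.0825 16.666 0.5692 2.089 1.288 1.2565 0.4459 0.3613 1.0967 3.8359 0.4523 0.8296 0.8992 2.5432 0.0005927 0.002428 0.0000003101 0.0000003101 0.0005326 0.0000009912 0.0000003113 0.0000003101 0.415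
    hβ hN hx1 hx2 hy1 hy2 (by norm_num) (by norm_num) (by linarith) (by norm_num) (by norm_num) (by norm_num) (by norm_num) (by norm_num) (by norm_num) (by norm_num) (by norm_num) (by norm_num) (by norm_num) (by norm_num) (by norm_num) (by norm_num) (by norm_num) (by norm_num) (by norm_num) (by norm_num) (by norm_num) (by norm_num) (by norm_num) (by norm_num)
    (cube_sqrt_geJ (s := 0.9001) (by norm_num) (by norm_num) (by norm_num) (by norm_num))
    (cube_sqrt_geJ (s := 0.9645) (by norm_num) (by norm_num) (by norm_num) (by norm_num))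
    (by norm_num) (by norm_num) (by norm_num) (by norm_num) (by norm_num) (by norm_num) (by norm_num) (by norm_num) (by norm_num) (by norm_num) (by norm_num) (by norm_num) (by norm_num) (by norm_num) (by norm_num) (by norm_num) (by norm_num) (by norm_num)
    (exp_neg_leJ (r := 0.431) 7 (by norm_num) (by norm_num) (by norm_num) (by norm_num))
    (exp_neg_leJ (r := 0.021) 6 (by norm_num) (by norm_num) (by norm_num) (by norm_num))
    (exp_neg_leJ (r := 0.99) 14 (by norm_num) (by norm_num) (by norm_num) (by norm_num))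
    (exp_neg_leJ (r := 0.99) 14 (by norm_num) (by norm_num) (by norm_num) (by norm_num))
    (exp_neg_leJ (r := 0.538) 7 (by norm_num) (by norm_num) (by norm_num) (by norm_num))
    (exp_neg_leJ (r := 0.826) 13 (by norm_num) (by norm_num) (by norm_num) (by norm_num))
    (exp_neg_leJ (r := 0.986) 14 (by norm_num) (by norm_num) (by norm_num) (by norm_num))
    (exp_neg_leJ (r := 0.99) 14 (by norm_num) (by norm_num) (by norm_num) (by norm_num))
    (by norm_num)) (by norm_num) hN hβ.le (by norm_num)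

private theorem B5Do_T58 {β x y : ℝ} (hβ : 0 < β) (hN : β * 16.666 ≤ 1) (hx1 : 0.2585 ≤ x) (hx2 : x ≤ 0.4253)
    (hy1 : 0.2229 ≤ y) (hy2 : y ≤ 0.2771) : ‖HH β (x + y * I) - 1‖ ≤ 0.03 := by
  exact B5Do_T58_0_0 hβ hN (by linarith) (by linarith) (by linarith) (by linarith)

private theorem B5Do_U59 {β r t κ h t' : ℝ} (hβ : 0 < β) (hκ : κ = β * r) (hN : β * 16.666 ≤ 1) (hk1 : 0.5 ≤ κ) (hk2 : κ ≤ 0.6)
    (ht : t' = t + (((1 : ℤ) : ℝ) - 1) * h) (hD : DomR κ t') (hta : 0.7664 ≤ t' + κ) (htb : t' + κ ≤ 0.8801) :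
    ‖Xf β r h t 1‖ ≤ 0.915 * Real.exp (r * sE κ t') := by
  obtain ⟨⟨ya, yb⟩, ⟨xa, xb⟩, n1, Da, Db⟩ := B5Do_B57 hD hk1 hk2 hta htb
  have J := B5Do_T58 (x := sx κ t') (y := sy κ t') hβ hN (by linarith only [xa, xb, ya, yb]) (by linarith only [xa, xb, ya, yb]) (by linarith only [xa, xb, ya, yb]) (by linarith only [xa, xb, ya, yb])
  exact v5_Jup (h := h) (t := t) (k := 1) hβ hκ ht hD 0.03 1.606 0.915 J Da (by norm_num) (by norm_num)

private theorem B5Do_K60 {β r t κ h : ℝ} (hβ : 0 < β) (hr : 10 ≤ r) (hκ : κ = β * r) (hk1 : 0.5 ≤ κ) (hk2 : κ ≤ 0.6)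
    (hh : h = 2 * Real.pi / 5) (hh1 : 1.25663 ≤ h) (hh2 : h ≤ 1.25664) (hta : 0.7665 ≤ t + κ) (htb : t + κ ≤ 0.88) (hN : β * 16.666 ≤ 1)
    (hD : DomR κ t) (hY : 0.9258 * Real.exp (r * sE κ (t - h)) ≤ ‖Xf β r h t 0‖) (hV : 1.08839 + 0.415 * (t - h + κ) ≤ sE κ (t - h)) :
    ‖Xf β r h t 1‖ ≤ 0.542 * ‖Xf β r h t 0‖ := by
  have hU := B5Do_U59 (h := h) (t := t) hβ hκ hN hk1 hk2 (by push_cast; ring) hD (by linarith only [hta, htb, hh1, hh2]) (by linarith only [hta, htb, hh1, hh2])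
  have hW := V_up hD 0.41 (B5Do_G56 hk1 hk2).1
  exact v5_cmpJ 0.0606 0.5475 0.542 hr hU hW hY (by norm_num) (by norm_num) (by norm_num) (by linarith only [hV, hta, htb, hh1, hh2]) (ex_un 0 0.6059 (by norm_num) (by norm_num) (by norm_num) (by norm_num)) (by norm_num)

private theorem B5Do_O61 {β r t κ h : ℝ} (hβ : 0 < β) (hr : 10 ≤ r) (hκ : κ = β * r) (hk1 : 0.5 ≤ κ) (hk2 : κ ≤ 0.6)
    (hh : h = 2 * Real.pi / 5) (hta : 0.7665 ≤ t + κ) (htb : t + κ ≤ 0.88) :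
    ‖Xf β r h t (-2)‖ + ‖Xf β r h t (-1)‖ + ‖Xf β r h t 2‖ < |‖Xf β r h t 1‖ - ‖Xf β r h t 0‖| := by
  obtain ⟨hh1, hh2⟩ := v5_h hh
  have hκ0 : 0 < κ := by linarith only [hk1]
  have hN : β * 16.666 ≤ 1 := v5_hN 0.6 16.666 hβ hr hκ hk2 (by norm_num) (by norm_num)
  have hD1 : DomR κ t := v5_dom hκ0 (by linarith only [hta, htb, hk1, hk2, hh1, hh2]) (Or.inr (by linarith only [hta, htb, hk1, hk2, hh1, hh2]))
  have hD0 : DomR κ (t - h) := v5_dom hκ0 (by linarith only [hta, htb, hk1, hk2, hh1, hh2]) (Or.inr (by linarith only [hta, htb, hk1, hk2, hh1, hh2]))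
  have h0a : (-0.4902) ≤ t - h + κ := by linarith only [hta, htb, hh1, hh2]
  have h0b : t - h + κ ≤ (-0.3766) := by linarith only [hta, htb, hh1, hh2]
  have e0 : t - h = t + (((0 : ℤ) : ℝ) - 1) * h := by push_cast; ring
  have hY := B5Do_Y51 (h := h) hβ hκ hN hk1 hk2 e0 hD0 h0a h0b
  have hV := B5Do_V52 hD0 hk1 hk2 h0a h0b
  have cp2 := B5Do_K53 hβ hr hκ hk1 hk2 hh hh1 hh2 hta htb hY hV
  have cm1 := B5Do_K54 hβ hr hκ hk1 hk2 hh hh1 hh2 hta htb hY hV
  have cm2 := B5Do_K55 hβ hr hκ hk1 hk2 hh hh1 hh2 hta htb hY hV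
  have cn1 := B5Do_K60 hβ hr hκ hk1 hk2 hh hh1 hh2 hta htb hN hD1 hY hV
  have hp : 0 < ‖Xf β r h t 0‖ := lt_of_lt_of_le (by positivity) hY
  exact v5_out0 _ _ _ _ cm2 cm1 cp2 cn1 hp (by norm_num)

private theorem B5Do_B62 {κ t : ℝ} (h : DomR κ t) (hk1 : 0.5 ≤ κ) (hk2 : κ ≤ 0.6) (ht1 : (-0.3767) ≤ t + κ) (ht2 : t + κ ≤ (-0.1886)) :
    ((-0.198) ≤ sy κ t ∧ sy κ t ≤ (-0.082)) ∧ (0.5052 ≤ sx κ t ∧ sx κ t ≤ 0.7268) ∧ κ * Real.exp (-sy κ t) ≤ 0.7314 ∧ 0.9754 ≤ sD κ t ∧ sD κ t ≤ 1.2602 := by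
  have hy1 : -0.198 ≤ sy κ t := syL_ge h 0.5 0.6 0.3767 0.198 0.82036 0.82037 0.2571 0.27071 0.32487 hk1 hk2 (by linarith) (by norm_num) (by norm_num) (by norm_num)
    (expm_ge (by norm_num) (by norm_num) (by norm_num) (by norm_num)) (expm_le (by norm_num) (by norm_num) (by norm_num)) (by norm_num)
    (by norm_num) (by norm_num) (by norm_num) (by norm_num) (by norm_num) (by norm_num)
  have hy2 : sy κ t ≤ -0.082 := syL_le h 0.5 0.6 0.1886 0.082 0.92127 0.92128 0.1259 0.15109 hk1 hk2 (by linarith) (by norm_num) (by norm_num) (by norm_num)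
    (expm_ge (by norm_num) (by norm_num) (by norm_num) (by norm_num)) (expm_le (by norm_num) (by norm_num) (by norm_num)) (by norm_num)
    (by norm_num) (by norm_num) (by norm_num) (by norm_num) (by norm_num) (by norm_num)
  have hy1' : (-0.198) ≤ sy κ t := by linarith
  have hy2' : sy κ t ≤ (-0.082) := by linarith
  have hx1 : 0.5052 ≤ sx κ t := sx_lo h 0.5 (-0.082) 0.1981 1.08545 0.5052 hk1 (by norm_num) hy2' (abs_le.2 ⟨by linarith, by linarith⟩) (ex_lp 0.082 (by norm_num) (by norm_num) (by norm_num)) (by norm_num) (by norm_num)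
  have hx2 : sx κ t ≤ 0.7268 := sx_hi h 0.6 (-0.198) 0.082 1.21897 0.7268 hk2 hy1' (by norm_num) (le_trans (by linarith) (neg_le_abs _)) (ex_up 0.198 (by norm_num) (by norm_num) (by norm_num) (by norm_num)) (by norm_num) (by norm_num)
  refine ⟨⟨hy1', hy2'⟩, ⟨hx1, hx2⟩, v5_n h 0.6 (-0.198) 1.21897 0.7314 hk2 hy1' (ex_up 0.198 (by norm_num) (by norm_num) (by norm_num) (by norm_num)) (by norm_num), ?_, ?_⟩
  · exact v5_Dlo h 0.5 (-0.198) (-0.082) (-0.198) 1.21896 0.9754 (by norm_num) hk1 hy1' hy2' (ex_lp 0.198 (by norm_num) (by norm_num) (by norm_num)) (by norm_num) (by norm_num) (by norm_num) (by norm_num)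
  · exact v5_Dup h 0.6 (-0.198) (-0.082) 1.21897 1.08546 1.2602 hk2 hy1' hy2' (ex_up 0.198 (by norm_num) (by norm_num) (by norm_num) (by norm_num)) (ex_up 0.082 (by norm_num) (by norm_num) (by norm_num) (by norm_num)) (by norm_num) (by norm_num) (by norm_num)

private theorem B5Do_T63_0_0 {β x y : ℝ} (hβ : 0 < β) (hN : β * 16.666 ≤ 1) (hx1 : 0.5051 ≤ x) (hx2 : x ≤ 0.604)
    (hy1 : -0.1981 ≤ y) (hy2 : y ≤ -0.0819) : ‖HH β (x + y * I) - 1‖ ≤ 0.03 := by
  refine le_epsJ (C := 0.4996) (N0 := 16.666) (J_boxp 0.5051 0.604 0.1981 0 (-0.0819) 0.925 0.6357 1.099 1.1784 0.4183 4.0825 16.666 0.6873 2.487 1.361 1.0049 0.4624 0.3565 0.8684 3.1246 0.4921 1.1993 2.0424 3.9942 0.0004505 0.002637 0.0000005188 0.0000003101 0.0002744 0.0000003101 0.0000003101 0.0000003101 0.4996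
    hβ hN hx1 hx2 hy1 hy2 (by norm_num) (by norm_num) (by linarith) (by norm_num) (by norm_num) (by norm_num) (by norm_num) (by norm_num) (by norm_num) (by norm_num) (by norm_num) (by norm_num) (by norm_num) (by norm_num) (by norm_num) (by norm_num) (by norm_num) (by norm_num) (by norm_num) (by norm_num) (by norm_num) (by norm_num) (by norm_num) (by norm_num)
    (cube_sqrt_geJ (s := 0.878) (by norm_num) (by norm_num) (by norm_num) (by norm_num))
    (cube_sqrt_geJ (s := 0.9569) (by norm_num) (by norm_num) (by norm_num) (by norm_num))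
    (by norm_num) (by norm_num) (by norm_num) (by norm_num) (by norm_num) (by norm_num) (by norm_num) (by norm_num) (by norm_num) (by norm_num) (by norm_num) (by norm_num) (by norm_num) (by norm_num) (by norm_num) (by norm_num) (by norm_num) (by norm_num)
    (exp_neg_leJ (r := 0.706) 7 (by norm_num) (by norm_num) (by norm_num) (by norm_num))
    (exp_neg_leJ (r := 0.941) 5 (by norm_num) (by norm_num) (by norm_num) (by norm_num))
    (exp_neg_leJ (r := 0.472) 14 (by norm_num) (by norm_num) (by norm_num) (by norm_num))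
    (exp_neg_leJ (r := 0.99) 14 (by norm_num) (by norm_num) (by norm_num) (by norm_num))
    (exp_neg_leJ (r := 0.201) 8 (by norm_num) (by norm_num) (by norm_num) (by norm_num))
    (exp_neg_leJ (r := 0.99) 14 (by norm_num) (by norm_num) (by norm_num) (by norm_num))
    (exp_neg_leJ (r := 0.99) 14 (by norm_num) (by norm_num) (by norm_num) (by norm_num))
    (exp_neg_leJ (r := 0.99) 14 (by norm_num) (by norm_num) (by norm_num) (by norm_num))
    (by norm_num)) (by norm_num) hN hβ.le (by norm_num)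

private theorem B5Do_T63_0_1 {β x y : ℝ} (hβ : 0 < β) (hN : β * 16.666 ≤ 1) (hx1 : 0.604 ≤ x) (hx2 : x ≤ 0.695)
    (hy1 : -0.1981 ≤ y) (hy2 : y ≤ -0.0819) : ‖HH β (x + y * I) - 1‖ ≤ 0.03 := by
  refine le_epsJ (C := 0.4986) (N0 := 16.666) (J_boxp 0.604 0.695 0.1981 0 (-0.0819) 0.9946 0.7227 1.1515 1.0819 0.4281 4.0825 16.666 0.7267 2.641 1.386 0.9699 0.4972 0.3768 0.9023 3.073 0.5401 1.3363 2.2402 3.9555 0.0002521 0.001876 0.0000003101 0.0000003101 0.0001233 0.0000003101 0.0000003101 0.0000003101 0.4986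
    hβ hN hx1 hx2 hy1 hy2 (by norm_num) (by norm_num) (by linarith) (by norm_num) (by norm_num) (by norm_num) (by norm_num) (by norm_num) (by norm_num) (by norm_num) (by norm_num) (by norm_num) (by norm_num) (by norm_num) (by norm_num) (by norm_num) (by norm_num) (by norm_num) (by norm_num) (by norm_num) (by norm_num) (by norm_num) (by norm_num) (by norm_num)
    (cube_sqrt_geJ (s := 0.8704) (by norm_num) (by norm_num) (by norm_num) (by norm_num))
    (cube_sqrt_geJ (s := 0.9544) (by norm_num) (by norm_num) (by norm_num) (by norm_num))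
    (by norm_num) (by norm_num) (by norm_num) (by norm_num) (by norm_num) (by norm_num) (by norm_num) (by norm_num) (by norm_num) (by norm_num) (by norm_num) (by norm_num) (by norm_num) (by norm_num) (by norm_num) (by norm_num) (by norm_num) (by norm_num)
    (exp_neg_leJ (r := 0.286) 8 (by norm_num) (by norm_num) (by norm_num) (by norm_num))
    (exp_neg_leJ (r := 0.279) 6 (by norm_num) (by norm_num) (by norm_num) (by norm_num))
    (exp_neg_leJ (r := 0.99) 14 (by norm_num) (by norm_num) (by norm_num) (by norm_num))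
    (exp_neg_leJ (r := 0.99) 14 (by norm_num) (by norm_num) (by norm_num) (by norm_num))
    (exp_neg_leJ (r := 0.001) 9 (by norm_num) (by norm_num) (by norm_num) (by norm_num))
    (exp_neg_leJ (r := 0.99) 14 (by norm_num) (by norm_num) (by norm_num) (by norm_num))
    (exp_neg_leJ (r := 0.99) 14 (by norm_num) (by norm_num) (by norm_num) (by norm_num))
    (exp_neg_leJ (r := 0.99) 14 (by norm_num) (by norm_num) (by norm_num) (by norm_num))
    (by norm_num)) (by norm_num) hN hβ.le (by norm_num)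

private theorem B5Do_T63_0_2 {β x y : ℝ} (hβ : 0 < β) (hN : β * 16.666 ≤ 1) (hx1 : 0.695 ≤ x) (hx2 : x ≤ 0.7269)
    (hy1 : -0.1981 ≤ y) (hy2 : y ≤ -0.0819) : ‖HH β (x + y * I) - 1‖ ≤ 0.03 := by
  refine le_epsJ (C := 0.427) (N0 := 16.666) (J_boxp 0.695 0.7269 0.1981 0 (-0.0819) 1.0587 0.7535 1.1711 0.9935 0.4318 4.0825 16.666 0.7118 2.581 1.377 0.9576 0.5293 0.4037 0.9334 3.0549 0.5843 1.4623 2.4222 4.0538 0.0001479 0.001199 0.0000003101 0.0000003101 0.00005912 0.0000003101 0.0000003101 0.0000003101 0.427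
    hβ hN hx1 hx2 hy1 hy2 (by norm_num) (by norm_num) (by linarith) (by norm_num) (by norm_num) (by norm_num) (by norm_num) (by norm_num) (by norm_num) (by norm_num) (by norm_num) (by norm_num) (by norm_num) (by norm_num) (by norm_num) (by norm_num) (by norm_num) (by norm_num) (by norm_num) (by norm_num) (by norm_num) (by norm_num) (by norm_num) (by norm_num)
    (cube_sqrt_geJ (s := 0.8733) (by norm_num) (by norm_num) (by norm_num) (by norm_num))
    (cube_sqrt_geJ (s := 0.9554) (by norm_num) (by norm_num) (by norm_num) (by norm_num))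
    (by norm_num) (by norm_num) (by norm_num) (by norm_num) (by norm_num) (by norm_num) (by norm_num) (by norm_num) (by norm_num) (by norm_num) (by norm_num) (by norm_num) (by norm_num) (by norm_num) (by norm_num) (by norm_num) (by norm_num) (by norm_num)
    (exp_neg_leJ (r := 0.821) 8 (by norm_num) (by norm_num) (by norm_num) (by norm_num))
    (exp_neg_leJ (r := 0.728) 6 (by norm_num) (by norm_num) (by norm_num) (by norm_num))
    (exp_neg_leJ (r := 0.99) 14 (by norm_num) (by norm_num) (by norm_num) (by norm_num))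
    (exp_neg_leJ (r := 0.99) 14 (by norm_num) (by norm_num) (by norm_num) (by norm_num))
    (exp_neg_leJ (r := 0.737) 9 (by norm_num) (by norm_num) (by norm_num) (by norm_num))
    (exp_neg_leJ (r := 0.99) 14 (by norm_num) (by norm_num) (by norm_num) (by norm_num))
    (exp_neg_leJ (r := 0.99) 14 (by norm_num) (by norm_num) (by norm_num) (by norm_num))
    (exp_neg_leJ (r := 0.99) 14 (by norm_num) (by norm_num) (by norm_num) (by norm_num))
    (by norm_num)) (by norm_num) hN hβ.le (by norm_num)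

private theorem B5Do_T63 {β x y : ℝ} (hβ : 0 < β) (hN : β * 16.666 ≤ 1) (hx1 : 0.5051 ≤ x) (hx2 : x ≤ 0.7269)
    (hy1 : (-0.1981) ≤ y) (hy2 : y ≤ (-0.0819)) : ‖HH β (x + y * I) - 1‖ ≤ 0.03 := by
  rcases le_total x 0.604 with hxx | hxx
  · exact B5Do_T63_0_0 hβ hN (by linarith) (by linarith) (by linarith) (by linarith)
  rcases le_total x 0.695 with hxx | hxx
  · exact B5Do_T63_0_1 hβ hN (by linarith) (by linarith) (by linarith) (by linarith)
  exact B5Do_T63_0_2 hβ hN (by linarith) (by linarith) (by linarith) (by linarith)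

private theorem B5Do_C64 {β r t κ : ℝ} (hβ : 0 < β) (hr : 10 ≤ r) (hκ : κ = β * r) (hk1 : 0.5 ≤ κ) (hk2 : κ ≤ 0.6) (hta : 2.1366 ≤ t + κ)
    (htb : t + κ ≤ 2.3247) : ‖F (cexp (I * β)) (r * cexp (I * ((t + β / 2 : ℝ) : ℂ)))‖ ≤
      4.5239 * Real.exp (r * (0.07 + 1 / 20)) :=
  v5_UD 0.5 0.6 2.1366 2.3247 0.07 0.5642 0.07 2.3585 4.5239 hβ hr hκ (by norm_num) hk1 hk2 hta htb (by norm_num) (by norm_num) (by norm_num) (by norm_num) (by norm_num) (by norm_num) (by norm_num) (by norm_num) (by norm_num) (by norm_num) (by norm_num)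

private theorem B5Do_C65 {β r t κ : ℝ} (hβ : 0 < β) (hr : 10 ≤ r) (hκ : κ = β * r) (hk1 : 0.5 ≤ κ) (hk2 : κ ≤ 0.6) (hta : (-1.6333) ≤ t + κ)
    (htb : t + κ ≤ (-1.4452)) : ‖F (cexp (I * β)) (r * cexp (I * ((t + β / 2 : ℝ) : ℂ)))‖ ≤
      1.5574 * Real.exp (r * (1.27334 - (-0.71) * (t + κ))) + 2.0205 * Real.exp (r * 0.0501) :=
  v5_HU (-0.71) 0.5 0.6 (-1.6333) (-1.4452) 1.27334 1.5574 2.03398 0.0978 1.0822 2.4786 0 0.0501 0.00000161 2.0205 hβ hr hκ (by norm_num) hk1 hk2 hta htb (by norm_num) (by norm_num) (B5Do_G13 hk1 hk2).1 (B5Do_G13 hk1 hk2).2 (by norm_num) (by norm_num) (by norm_num)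
    (by norm_num) (by norm_num) (by norm_num) (by norm_num) (by norm_num) (by norm_num) (by norm_num)
    (by norm_num) (by norm_num) (by norm_num) (v5_hump 6.1262 16.666 4.0825 0.0000009316 0.00000161 hβ hr hκ hk1 hk2 (by norm_num) htb (by norm_num) (by norm_num) (by norm_num) (by norm_num) (by norm_num) (by norm_num) (by norm_num) (ex_un 13 0.9 (by norm_num) (by norm_num) (by norm_num) (by norm_num)) (by norm_num)) (by norm_num)

private theorem B5Do_C66 {β r t κ : ℝ} (hβ : 0 < β) (hr : 10 ≤ r) (hκ : κ = β * r) (hk1 : 0.5 ≤ κ) (hk2 : κ ≤ 0.6) (hta : 3.3932 ≤ t + κ)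
    (htb : t + κ ≤ 3.5813) : ‖F (cexp (I * β)) (r * cexp (I * ((t + β / 2 : ℝ) : ℂ)))‖ ≤
      2.6979 * Real.exp (r * (0.01 + 1 / 20)) :=
  v5_UD 0.5 0.6 3.3932 3.5813 0.01 0.5642 0.01 1.4065 2.6979 hβ hr hκ (by norm_num) hk1 hk2 hta htb (by norm_num) (by norm_num) (by norm_num) (by norm_num) (by norm_num) (by norm_num) (by norm_num) (by norm_num) (by norm_num) (by norm_num) (by norm_num)

private theorem B5Do_Y67 {β r t κ h t' : ℝ} (hβ : 0 < β) (hκ : κ = β * r) (hN : β * 16.666 ≤ 1) (hk1 : 0.5 ≤ κ) (hk2 : κ ≤ 0.6)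
    (ht : t' = t + (((0 : ℤ) : ℝ) - 1) * h) (hD : DomR κ t') (hta : (-0.3767) ≤ t' + κ) (htb : t' + κ ≤ (-0.1886)) :
    0.9155 * Real.exp (r * sE κ t') ≤ ‖Xf β r h t 0‖ := by
  obtain ⟨⟨ya, yb⟩, ⟨xa, xb⟩, n1, Da, Db⟩ := B5Do_B62 hD hk1 hk2 hta htb
  have J := B5Do_T63 (x := sx κ t') (y := sy κ t') hβ hN (by linarith only [xa, xb, ya, yb]) (by linarith only [xa, xb, ya, yb]) (by linarith only [xa, xb, ya, yb]) (by linarith only [xa, xb, ya, yb])
  exact v5_Jlo hβ hκ (k := 0) ht hD 0.03 1.2602 0.9155 (by norm_num) J Db (by norm_num)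

private theorem B5Do_V68 {κ t : ℝ} (hD : DomR κ t) (hk1 : 0.5 ≤ κ) (hk2 : κ ≤ 0.6) (hta : (-0.3767) ≤ t + κ) (htb : t + κ ≤ (-0.1886)) :
    1.03252 + 0.2588 * (t + κ) ≤ sE κ t := by
  have hκ0 : 0 < κ := hD.1
  exact v5_V0 hD 0.5 0.6 (-0.3767) (-0.1886) 0.3768 0.5722 0.16897 0.06636 0.51201 0.48001 1.03252 0.2588 (by norm_num) hk1 hk2 (by norm_num) hta htb (by norm_num) (by norm_num) (by norm_num) ((cup1 0.6 hκ0.le hk2 (by norm_num)).trans (by norm_num))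
      (by norm_num) (by norm_num) (by norm_num) (by norm_num) (by norm_num) (by norm_num) (by norm_num) (by norm_num) (by norm_num) (by norm_num) (by norm_num) (by norm_num) (by norm_num)

private theorem B5Do_K69 {β r t κ h : ℝ} (hβ : 0 < β) (hr : 10 ≤ r) (hκ : κ = β * r) (hk1 : 0.5 ≤ κ) (hk2 : κ ≤ 0.6)
    (hh : h = 2 * Real.pi / 5) (hh1 : 1.25663 ≤ h) (hh2 : h ≤ 1.25664) (hta : 0.88 ≤ t + κ) (htb : t + κ ≤ 1.068)
    (hY : 0.9155 * Real.exp (r * sE κ (t - h)) ≤ ‖Xf β r h t 0‖) (hV : 1.03252 + 0.2588 * (t - h + κ) ≤ sE κ (t - h)) :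
    ‖Xf β r h t 2‖ ≤ 0.00143 * ‖Xf β r h t 0‖ := by
  rw [v5_X 2 1 (by push_cast; ring)]
  exact v5_cmp0 0.815 0.0002888 0.00143 hr (B5Do_C64 (t := t + 1 * h) hβ hr hκ hk1 hk2 (by linarith only [hta, htb, hh1, hh2]) (by linarith only [hta, htb, hh1, hh2])) hY (by norm_num) (by norm_num) (by norm_num) (by linarith only [hV, hta, htb, hh1, hh2]) (ex_un 8 0.1499 (by norm_num) (by norm_num) (by norm_num) (by norm_num)) (by norm_num)

private theorem B5Do_K70 {β r t κ h : ℝ} (hβ : 0 < β) (hr : 10 ≤ r) (hκ : κ = β * r) (hk1 : 0.5 ≤ κ) (hk2 : κ ≤ 0.6)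
    (hh : h = 2 * Real.pi / 5) (hh1 : 1.25663 ≤ h) (hh2 : h ≤ 1.25664) (hta : 0.88 ≤ t + κ) (htb : t + κ ≤ 1.068)
    (hY : 0.9155 * Real.exp (r * sE κ (t - h)) ≤ ‖Xf β r h t 0‖) (hV : 1.03252 + 0.2588 * (t - h + κ) ≤ sE κ (t - h)) :
    ‖Xf β r h t (-1)‖ ≤ 0.00141 * ‖Xf β r h t 0‖ := by
  rw [v5_X (-1) (-2) (by push_cast; ring)]
  exact v5_cmp 0.7364 0.0006341 0.00108 0.8849 0.0001452 0.000321 0.00141 hr (B5Do_C65 (t := t + (-2) * h) hβ hr hκ hk1 hk2 (by linarith only [hta, htb, hh1, hh2]) (by linarith only [hta, htb, hh1, hh2])) hY (by norm_num) (by norm_num) (by norm_num) (by norm_num) (by linarith only [hV, hta, htb, hh1, hh2]) (ex_un 7 0.3639 (by norm_num) (by norm_num) (by norm_num) (by norm_num)) (by norm_num) (by norm_num) (by linarith only [hV, hta, htb, hh1, hh2]) (ex_un 8 0.8489 (by norm_num) (by norm_num) (by norm_num) (by norm_num)) (by norm_num) (by norm_num)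

private theorem B5Do_K71 {β r t κ h : ℝ} (hβ : 0 < β) (hr : 10 ≤ r) (hκ : κ = β * r) (hk1 : 0.5 ≤ κ) (hk2 : κ ≤ 0.6)
    (hh : h = 2 * Real.pi / 5) (hh1 : 1.25663 ≤ h) (hh2 : h ≤ 1.25664) (hta : 0.88 ≤ t + κ) (htb : t + κ ≤ 1.068)
    (hY : 0.9155 * Real.exp (r * sE κ (t - h)) ≤ ‖Xf β r h t 0‖) (hV : 1.03252 + 0.2588 * (t - h + κ) ≤ sE κ (t - h)) :
    ‖Xf β r h t (-2)‖ ≤ 0.000471 * ‖Xf β r h t 0‖ := by
  rw [v5_Xm2 hh]
  exact v5_cmp0 0.875 0.0001597 0.000471 hr (B5Do_C66 (t := t + 2 * h) hβ hr hκ hk1 hk2 (by linarith only [hta, htb, hh1, hh2]) (by linarith only [hta, htb, hh1, hh2])) hY (by norm_num) (by norm_num) (by norm_num) (by linarith only [hV, hta, htb, hh1, hh2]) (ex_un 8 0.7499 (by norm_num) (by norm_num) (by norm_num) (by norm_num)) (by norm_num)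

private theorem B5Do_C72 {β r t κ : ℝ} (hβ : 0 < β) (hr : 10 ≤ r) (hκ : κ = β * r) (hk1 : 0.5 ≤ κ) (hk2 : κ ≤ 0.6) (hta : 0.8799 ≤ t + κ)
    (htb : t + κ ≤ 1.0681) : ‖F (cexp (I * β)) (r * cexp (I * ((t + β / 2 : ℝ) : ℂ)))‖ ≤
      2.131 * Real.exp (r * (1.13857 - 0.41 * (t + κ))) + 0.1507 * Real.exp (r * 0) :=
  v5_H 0.41 0.5 0.6 0.8799 1.0681 1.13857 2.1228 0.61139 0.0978 1.8505 1.0025 0.24854 0.08344 0.00000161 2.131 0.1507 hβ hr hκ (by norm_num) hk1 hk2 hta htb (by norm_num) (B5Do_G56 hk1 hk2).1 (B5Do_G56 hk1 hk2).2 (by norm_num) (by norm_num) (by norm_num)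
    (by norm_num) (by norm_num) (by norm_num) (by norm_num) (by norm_num) (by norm_num) (by norm_num) (by norm_num) (ex_un 2 0.4853 (by norm_num) (by norm_num) (by norm_num) (by norm_num))
    (v5_hump 3.6129 16.666 4.0825 0.0000009316 0.00000161 hβ hr hκ hk1 hk2 (by norm_num) htb (by norm_num) (by norm_num) (by norm_num) (by norm_num) (by norm_num) (by norm_num) (by norm_num) (ex_un 13 0.9 (by norm_num) (by norm_num) (by norm_num) (by norm_num)) (by norm_num)) (by norm_num) (by norm_num)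

private theorem B5Do_K73 {β r t κ h : ℝ} (hβ : 0 < β) (hr : 10 ≤ r) (hκ : κ = β * r) (hk1 : 0.5 ≤ κ) (hk2 : κ ≤ 0.6)
    (hh : h = 2 * Real.pi / 5) (hh1 : 1.25663 ≤ h) (hh2 : h ≤ 1.25664) (hta : 0.88 ≤ t + κ) (htb : t + κ ≤ 1.068)
    (hY : 0.9155 * Real.exp (r * sE κ (t - h)) ≤ ‖Xf β r h t 0‖) (hV : 1.03252 + 0.2588 * (t - h + κ) ≤ sE κ (t - h)) :
    ‖Xf β r h t 1‖ ≤ 0.486 * ‖Xf β r h t 0‖ := by
  rw [v5_X 1 0 (by push_cast; ring)]
  exact v5_cmp 0.1572 0.2083 0.485 0.935 0.00008702 0.0000144 0.486 hr (B5Do_C72 (t := t + 0 * h) hβ hr hκ hk1 hk2 (by linarith only [hta, htb, hh1, hh2]) (by linarith only [hta, htb, hh1, hh2])) hY (by norm_num) (by norm_num) (by norm_num) (by norm_num) (by linarith only [hV, hta, htb, hh1, hh2]) (ex_un 1 0.5719 (by norm_num) (by norm_num) (by norm_num) (by norm_num)) (by norm_num) (by norm_num) (by linarith only [hV, hta, htb, hh1, hh2]) (ex_un 9 0.3499 (by norm_num) (by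 norm_num) (by norm_num) (by norm_num)) (by norm_num) (by norm_num)

private theorem B5Do_O74 {β r t κ h : ℝ} (hβ : 0 < β) (hr : 10 ≤ r) (hκ : κ = β * r) (hk1 : 0.5 ≤ κ) (hk2 : κ ≤ 0.6)
    (hh : h = 2 * Real.pi / 5) (hta : 0.88 ≤ t + κ) (htb : t + κ ≤ 1.068) :
    ‖Xf β r h t (-2)‖ + ‖Xf β r h t (-1)‖ + ‖Xf β r h t 2‖ < |‖Xf β r h t 1‖ - ‖Xf β r h t 0‖| := by
  obtain ⟨hh1, hh2⟩ := v5_h hh
  have hκ0 : 0 < κ := by linarith only [hk1]
  have hN : β * 16.666 ≤ 1 := v5_hN 0.6 16.666 hβ hr hκ hk2 (by norm_num) (by norm_num)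
  have hD1 : DomR κ t := v5_dom hκ0 (by linarith only [hta, htb, hk1, hk2, hh1, hh2]) (Or.inr (by linarith only [hta, htb, hk1, hk2, hh1, hh2]))
  have hD0 : DomR κ (t - h) := v5_dom hκ0 (by linarith only [hta, htb, hk1, hk2, hh1, hh2]) (Or.inr (by linarith only [hta, htb, hk1, hk2, hh1, hh2]))
  have h0a : (-0.3767) ≤ t - h + κ := by linarith only [hta, htb, hh1, hh2]
  have h0b : t - h + κ ≤ (-0.1886) := by linarith only [hta, htb, hh1, hh2]
  have e0 : t - h = t + (((0 : ℤ) : ℝ) - 1) * h := by push_cast; ring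
  have hY := B5Do_Y67 (h := h) hβ hκ hN hk1 hk2 e0 hD0 h0a h0b
  have hV := B5Do_V68 hD0 hk1 hk2 h0a h0b
  have cp2 := B5Do_K69 hβ hr hκ hk1 hk2 hh hh1 hh2 hta htb hY hV
  have cm1 := B5Do_K70 hβ hr hκ hk1 hk2 hh hh1 hh2 hta htb hY hV
  have cm2 := B5Do_K71 hβ hr hκ hk1 hk2 hh hh1 hh2 hta htb hY hV
  have cn1 := B5Do_K73 hβ hr hκ hk1 hk2 hh hh1 hh2 hta htb hY hV
  have hp : 0 < ‖Xf β r h t 0‖ := lt_of_lt_of_le (by positivity) hY
  exact v5_out0 _ _ _ _ cm2 cm1 cp2 cn1 hp (by norm_num)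

private theorem B5Do_B75 {κ t : ℝ} (h : DomR κ t) (hk1 : 0.5 ≤ κ) (hk2 : κ ≤ 0.6) (ht1 : (-0.1887) ≤ t + κ) (ht2 : t + κ ≤ 0.0629) :
    ((-0.091) ≤ sy κ t ∧ sy κ t ≤ 0.028) ∧ (0.4775 ≤ sx κ t ∧ sx κ t ≤ 0.6572) ∧ κ * Real.exp (-sy κ t) ≤ 0.6572 ∧ 1.1178 ≤ sD κ t ∧ sD κ t ≤ 1.3964 := by
  have hy1 : -0.091 ≤ sy κ t := syL_ge h 0.5 0.6 0.1887 0.091 0.91301 0.91302 0.1315 0.13847 0.16617 hk1 hk2 (by linarith) (by norm_num) (by norm_num) (by norm_num)
    (expm_ge (by norm_num) (by norm_num) (by norm_num) (by norm_num)) (expm_le (by norm_num) (by norm_num) (by norm_num)) (by norm_num)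
    (by norm_num) (by norm_num) (by norm_num) (by norm_num) (by norm_num) (by norm_num)
  have hy2 : sy κ t ≤ 0.028 := syR_le h 0.5 0.6 0.0629 0.028 1.02839 0.0455 0.04799 0.0576 hk1 hk2 (by linarith) (by norm_num) (by norm_num)
    (expn_ge (by norm_num) (by norm_num)) (by norm_num) (by norm_num) (Or.inr ((mul_le_mul_of_nonneg_left (expn_le (E := 1.0284) (by norm_num) (by norm_num) (by norm_num)) (by norm_num)).trans (by norm_num))) (by norm_num) (by norm_num) (by norm_num)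
  have hy1' : (-0.091) ≤ sy κ t := by linarith
  have hy2' : sy κ t ≤ 0.028 := by linarith
  have hx1 : 0.4775 ≤ sx κ t := sx_lo h 0.5 0.028 0.0911 0.97238 0.4775 hk1 (by norm_num) hy2' (abs_le.2 ⟨by linarith, by linarith⟩) (ex_lm 0.028 (by norm_num) (by norm_num) (by norm_num) (by norm_num) (by norm_num)) (by norm_num) (by norm_num)
  have hx2 : sx κ t ≤ 0.6572 := sx_hi h 0.6 (-0.091) 0 1.09527 0.6572 hk2 hy1' (by norm_num) (abs_nonneg _) (ex_up 0.091 (by norm_num) (by norm_num) (by norm_num) (by norm_num)) (by norm_num) (by norm_num)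
  refine ⟨⟨hy1', hy2'⟩, ⟨hx1, hx2⟩, v5_n h 0.6 (-0.091) 1.09527 0.6572 hk2 hy1' (ex_up 0.091 (by norm_num) (by norm_num) (by norm_num) (by norm_num)) (by norm_num), ?_, ?_⟩
  · exact v5_Dlo h 0.5 (-0.091) 0.028 (-0.091) 1.09526 1.1178 (by norm_num) hk1 hy1' hy2' (ex_lp 0.091 (by norm_num) (by norm_num) (by norm_num)) (by norm_num) (by norm_num) (by norm_num) (by norm_num)
  · exact v5_Dup h 0.6 (-0.091) 0.028 1.09527 0.97239 1.3964 hk2 hy1' hy2' (ex_up 0.091 (by norm_num) (by norm_num) (by norm_num) (by norm_num)) (ex_um 0.028 (by norm_num) (by norm_num) (by norm_num) (by norm_num)) (by norm_num) (by norm_num) (by norm_num)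

private theorem B5Do_T76_0_0 {β x y : ℝ} (hβ : 0 < β) (hN : β * 16.666 ≤ 1) (hx1 : 0.4774 ≤ x) (hx2 : x ≤ 0.6573)
    (hy1 : -0.0911 ≤ y) (hy2 : y ≤ 0.0281) : ‖HH β (x + y * I) - 1‖ ≤ 0.03 := by
  refine le_epsJ (C := 0.4506) (N0 := 16.666) (J_boxp 0.4774 0.6573 0.0911 0.0281 0.0281 0.9815 0.6636 1.2203 1.1361 0.4408 4.0825 16.666 0.6762 2.445 1.354 1.0832 0.4907 0.3801 1.0279 3.4364 0.5342 1.1581 2.1573 3.7306 0.0002808 0.001775 0.0000003101 0.0000003101 0.0001365 0.0000003101 0.0000003101 0.0000003101 0.4506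
    hβ hN hx1 hx2 hy1 hy2 (by norm_num) (by norm_num) (by linarith) (by norm_num) (by norm_num) (by norm_num) (by norm_num) (by norm_num) (by norm_num) (by norm_num) (by norm_num) (by norm_num) (by norm_num) (by norm_num) (by norm_num) (by norm_num) (by norm_num) (by norm_num) (by norm_num) (by norm_num) (by norm_num) (by norm_num) (by norm_num) (by norm_num)
    (cube_sqrt_geJ (s := 0.8801) (by norm_num) (by norm_num) (by norm_num) (by norm_num))
    (cube_sqrt_geJ (s := 0.9577) (by norm_num) (by norm_num) (by norm_num) (by norm_num))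
    (by norm_num) (by norm_num) (by norm_num) (by norm_num) (by norm_num) (by norm_num) (by norm_num) (by norm_num) (by norm_num) (by norm_num) (by norm_num) (by norm_num) (by norm_num) (by norm_num) (by norm_num) (by norm_num) (by norm_num) (by norm_num)
    (exp_neg_leJ (r := 0.178) 8 (by norm_num) (by norm_num) (by norm_num) (by norm_num))
    (exp_neg_leJ (r := 0.334) 6 (by norm_num) (by norm_num) (by norm_num) (by norm_num))
    (exp_neg_leJ (r := 0.99) 14 (by norm_num) (by norm_num) (by norm_num) (by norm_num))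
    (exp_neg_leJ (r := 0.99) 14 (by norm_num) (by norm_num) (by norm_num) (by norm_num))
    (exp_neg_leJ (r := 0.902) 8 (by norm_num) (by norm_num) (by norm_num) (by norm_num))
    (exp_neg_leJ (r := 0.99) 14 (by norm_num) (by norm_num) (by norm_num) (by norm_num))
    (exp_neg_leJ (r := 0.99) 14 (by norm_num) (by norm_num) (by norm_num) (by norm_num))
    (exp_neg_leJ (r := 0.99) 14 (by norm_num) (by norm_num) (by norm_num) (by norm_num))
    (by norm_num)) (by norm_num) hN hβ.le (by norm_num)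

private theorem B5Do_T76 {β x y : ℝ} (hβ : 0 < β) (hN : β * 16.666 ≤ 1) (hx1 : 0.4774 ≤ x) (hx2 : x ≤ 0.6573)
    (hy1 : (-0.0911) ≤ y) (hy2 : y ≤ 0.0281) : ‖HH β (x + y * I) - 1‖ ≤ 0.03 := by
  exact B5Do_T76_0_0 hβ hN (by linarith) (by linarith) (by linarith) (by linarith)

private theorem B5Do_C77 {β r t κ : ℝ} (hβ : 0 < β) (hr : 10 ≤ r) (hκ : κ = β * r) (hk1 : 0.5 ≤ κ) (hk2 : κ ≤ 0.6) (hta : 2.3246 ≤ t + κ)
    (htb : t + κ ≤ 2.5762) : ‖F (cexp (I * β)) (r * cexp (I * ((t + β / 2 : ℝ) : ℂ)))‖ ≤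
      3.0416 * Real.exp (r * (0.01 + 1 / 20)) :=
  v5_UD 0.5 0.6 2.3246 2.5762 0.01 0.5642 0.01 1.5857 3.0416 hβ hr hκ (by norm_num) hk1 hk2 hta htb (by norm_num) (by norm_num) (by norm_num) (by norm_num) (by norm_num) (by norm_num) (by norm_num) (by norm_num) (by norm_num) (by norm_num) (by norm_num)

private theorem B5Do_C78 {β r t κ : ℝ} (hβ : 0 < β) (hr : 10 ≤ r) (hκ : κ = β * r) (hk1 : 0.5 ≤ κ) (hk2 : κ ≤ 0.6) (hta : (-1.4453) ≤ t + κ)
    (htb : t + κ ≤ (-1.1937)) : ‖F (cexp (I * β)) (r * cexp (I * ((t + β / 2 : ℝ) : ℂ)))‖ ≤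
      1.5574 * Real.exp (r * (1.27334 - (-0.71) * (t + κ))) + 2.0177 * Real.exp (r * 0.0501) :=
  v5_HU (-0.71) 0.5 0.6 (-1.4453) (-1.1937) 1.27334 1.5574 2.03398 0.0978 1.0822 2.6666 0 0.0501 0.00000161 2.0177 hβ hr hκ (by norm_num) hk1 hk2 hta htb (by norm_num) (by norm_num) (B5Do_G13 hk1 hk2).1 (B5Do_G13 hk1 hk2).2 (by norm_num) (by norm_num) (by norm_num)
    (by norm_num) (by norm_num) (by norm_num) (by norm_num) (by norm_num) (by norm_num) (by norm_num)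
    (by norm_num) (by norm_num) (by norm_num) (v5_hump 5.8747 16.666 4.0825 0.0000009316 0.00000161 hβ hr hκ hk1 hk2 (by norm_num) htb (by norm_num) (by norm_num) (by norm_num) (by norm_num) (by norm_num) (by norm_num) (by norm_num) (ex_un 13 0.9 (by norm_num) (by norm_num) (by norm_num) (by norm_num)) (by norm_num)) (by norm_num)

private theorem B5Do_C79 {β r t κ : ℝ} (hβ : 0 < β) (hr : 10 ≤ r) (hκ : κ = β * r) (hk1 : 0.5 ≤ κ) (hk2 : κ ≤ 0.6) (hta : 3.5812 ≤ t + κ)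
    (htb : t + κ ≤ 3.8328) : ‖F (cexp (I * β)) (r * cexp (I * ((t + β / 2 : ℝ) : ℂ)))‖ ≤
      2.691 * Real.exp (r * (0.01 + 1 / 20)) :=
  v5_UD 0.5 0.6 3.5812 3.8328 0.01 0.5642 0.01 1.4029 2.691 hβ hr hκ (by norm_num) hk1 hk2 hta htb (by norm_num) (by norm_num) (by norm_num) (by norm_num) (by norm_num) (by norm_num) (by norm_num) (by norm_num) (by norm_num) (by norm_num) (by norm_num)

private theorem B5Do_Y80 {β r t κ h t' : ℝ} (hβ : 0 < β) (hκ : κ = β * r) (hN : β * 16.666 ≤ 1) (hk1 : 0.5 ≤ κ) (hk2 : κ ≤ 0.6)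
    (ht : t' = t + (((0 : ℤ) : ℝ) - 1) * h) (hD : DomR κ t') (hta : (-0.1887) ≤ t' + κ) (htb : t' + κ ≤ 0.0629) :
    0.8923 * Real.exp (r * sE κ t') ≤ ‖Xf β r h t 0‖ := by
  obtain ⟨⟨ya, yb⟩, ⟨xa, xb⟩, n1, Da, Db⟩ := B5Do_B75 hD hk1 hk2 hta htb
  have J := B5Do_T76 (x := sx κ t') (y := sy κ t') hβ hN (by linarith only [xa, xb, ya, yb]) (by linarith only [xa, xb, ya, yb]) (by linarith only [xa, xb, ya, yb]) (by linarith only [xa, xb, ya, yb])
  exact v5_Jlo hβ hκ (k := 0) ht hD 0.03 1.3964 0.8923 (by norm_num) J Db (by norm_num)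

private theorem B5Do_V81 {κ t : ℝ} (hD : DomR κ t) (hk1 : 0.5 ≤ κ) (hk2 : κ ≤ 0.6) (hta : (-0.1887) ≤ t + κ) (htb : t + κ ≤ 0.0629) :
    0.99492 + 0.0537 * (t + κ) ≤ sE κ t := by
  have hκ0 : 0 < κ := hD.1
  exact v5_V0 hD 0.5 0.6 (-0.1887) 0.0629 0.1888 0.5338 0.16897 0.06636 0.51201 0.48001 0.99492 0.0537 (by norm_num) hk1 hk2 (by norm_num) hta htb (by norm_num) (by norm_num) (by norm_num) ((cup1 0.6 hκ0.le hk2 (by norm_num)).trans (by norm_num))
      (by norm_num) (by norm_num) (by norm_num) (by norm_num) (by norm_num) (by norm_num) (by norm_num) (by norm_num) (by norm_num) (by norm_num) (by norm_num) (by norm_num) (by norm_num)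

private theorem B5Do_K82 {β r t κ h : ℝ} (hβ : 0 < β) (hr : 10 ≤ r) (hκ : κ = β * r) (hk1 : 0.5 ≤ κ) (hk2 : κ ≤ 0.6)
    (hh : h = 2 * Real.pi / 5) (hh1 : 1.25663 ≤ h) (hh2 : h ≤ 1.25664) (hta : 1.068 ≤ t + κ) (htb : t + κ ≤ 1.3195)
    (hY : 0.8923 * Real.exp (r * sE κ (t - h)) ≤ ‖Xf β r h t 0‖) (hV : 0.99492 + 0.0537 * (t - h + κ) ≤ sE κ (t - h)) :
    ‖Xf β r h t 2‖ ≤ 0.000329 * ‖Xf β r h t 0‖ := by
  rw [v5_X 2 1 (by push_cast; ring)]
  exact v5_cmp0 0.9247 0.00009643 0.000329 hr (B5Do_C77 (t := t + 1 * h) hβ hr hκ hk1 hk2 (by linarith only [hta, htb, hh1, hh2]) (by linarith only [hta, htb, hh1, hh2])) hY (by norm_num) (by norm_num) (by norm_num) (by linarith only [hV, hta, htb, hh1, hh2]) (ex_un 9 0.2469 (by norm_num) (by norm_num) (by norm_num) (by norm_num)) (by norm_num)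

private theorem B5Do_K83 {β r t κ h : ℝ} (hβ : 0 < β) (hr : 10 ≤ r) (hκ : κ = β * r) (hk1 : 0.5 ≤ κ) (hk2 : κ ≤ 0.6)
    (hh : h = 2 * Real.pi / 5) (hh1 : 1.25663 ≤ h) (hh2 : h ≤ 1.25664) (hta : 1.068 ≤ t + κ) (htb : t + κ ≤ 1.3195)
    (hY : 0.8923 * Real.exp (r * sE κ (t - h)) ≤ ‖Xf β r h t 0‖) (hV : 0.99492 + 0.0537 * (t - h + κ) ≤ sE κ (t - h)) :
    ‖Xf β r h t (-1)‖ ≤ 0.00594 * ‖Xf β r h t 0‖ := by
  rw [v5_X (-1) (-2) (by push_cast; ring)]
  exact v5_cmp 0.5725 0.003285 0.00574 0.9346 0.00008737 0.000198 0.00594 hr (B5Do_C78 (t := t + (-2) * h) hβ hr hκ hk1 hk2 (by linarith only [hta, htb, hh1, hh2]) (by linarith only [hta, htb, hh1, hh2])) hY (by norm_num) (by norm_num) (by norm_num) (by norm_num) (by linarith only [hV, hta, htb, hh1, hh2]) (ex_un 5 0.7249 (by norm_num) (by norm_num) (by norm_num) (by norm_num)) (by norm_num) (by norm_num) (by linarith only [hV, hta, htb, hh1, hh2]) (ex_un 9 0.3459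 (by norm_num) (by norm_num) (by norm_num) (by norm_num)) (by norm_num) (by norm_num)

private theorem B5Do_K84 {β r t κ h : ℝ} (hβ : 0 < β) (hr : 10 ≤ r) (hκ : κ = β * r) (hk1 : 0.5 ≤ κ) (hk2 : κ ≤ 0.6)
    (hh : h = 2 * Real.pi / 5) (hh1 : 1.25663 ≤ h) (hh2 : h ≤ 1.25664) (hta : 1.068 ≤ t + κ) (htb : t + κ ≤ 1.3195)
    (hY : 0.8923 * Real.exp (r * sE κ (t - h)) ≤ ‖Xf β r h t 0‖) (hV : 0.99492 + 0.0537 * (t - h + κ) ≤ sE κ (t - h)) :
    ‖Xf β r h t (-2)‖ ≤ 0.000291 * ‖Xf β r h t 0‖ := by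
  rw [v5_Xm2 hh]
  exact v5_cmp0 0.9247 0.00009643 0.000291 hr (B5Do_C79 (t := t + 2 * h) hβ hr hκ hk1 hk2 (by linarith only [hta, htb, hh1, hh2]) (by linarith only [hta, htb, hh1, hh2])) hY (by norm_num) (by norm_num) (by norm_num) (by linarith only [hV, hta, htb, hh1, hh2]) (ex_un 9 0.2469 (by norm_num) (by norm_num) (by norm_num) (by norm_num)) (by norm_num)

private theorem B5Do_G85 {κ : ℝ} (hk1 : 0.5 ≤ κ) (hk2 : κ ≤ 0.6) : gG κ 0.47 ≤ 1.1893 ∧ 0.56892 ≤ Real.exp (-(κ * 0.47)) ^ 2 := by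
  refine ⟨gG_le 0.47 0.5 0.6 1.1893 0.79058 0.75428 1.26491 1.32578 hk1 hk2 (by norm_num)
    (ex_um 0.235 (by norm_num) (by norm_num) (by norm_num) (by norm_num)) (ex_um 0.282 (by norm_num) (by norm_num) (by norm_num) (by norm_num))
    (ex_up 0.235 (by norm_num) (by norm_num) (by norm_num) (by norm_num)) (ex_up 0.282 (by norm_num) (by norm_num) (by norm_num) (by norm_num))
    (by norm_num) (by norm_num), ?_⟩
  exact v5_M 0.75427 (ex_lm 0.282 (by linarith) (by norm_num) (by norm_num) (by norm_num) (by norm_num)) (by norm_num) (by norm_num)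

private theorem B5Do_C86 {β r t κ : ℝ} (hβ : 0 < β) (hr : 10 ≤ r) (hκ : κ = β * r) (hk1 : 0.5 ≤ κ) (hk2 : κ ≤ 0.6) (hta : 1.0679 ≤ t + κ)
    (htb : t + κ ≤ 1.3196) : ‖F (cexp (I * β)) (r * cexp (I * ((t + β / 2 : ℝ) : ℂ)))‖ ≤
      2.2793 * Real.exp (r * (1.1893 - 0.47 * (t + κ))) + 0.1458 * Real.exp (r * 0) :=
  v5_H 0.47 0.5 0.6 1.0679 1.3196 1.1893 2.2551 0.56892 0.0978 2.0385 0.751 0.16902 0.1856 0.00000161 2.2793 0.1458 hβ hr hκ (by norm_num) hk1 hk2 hta htb (by norm_num) (B5Do_G85 hk1 hk2).1 (B5Do_G85 hk1 hk2).2 (by norm_num) (by norm_num) (by norm_num)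
    (by norm_num) (by norm_num) (by norm_num) (by norm_num) (by norm_num) (by norm_num) (by norm_num) (by norm_num) (ex_un 1 0.6901 (by norm_num) (by norm_num) (by norm_num) (by norm_num))
    (v5_hump 3.3614 16.666 4.0825 0.0000009316 0.00000161 hβ hr hκ hk1 hk2 (by norm_num) htb (by norm_num) (by norm_num) (by norm_num) (by norm_num) (by norm_num) (by norm_num) (by norm_num) (ex_un 13 0.9 (by norm_num) (by norm_num) (by norm_num) (by norm_num)) (by norm_num)) (by norm_num) (by norm_num)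

private theorem B5Do_K87 {β r t κ h : ℝ} (hβ : 0 < β) (hr : 10 ≤ r) (hκ : κ = β * r) (hk1 : 0.5 ≤ κ) (hk2 : κ ≤ 0.6)
    (hh : h = 2 * Real.pi / 5) (hh1 : 1.25663 ≤ h) (hh2 : h ≤ 1.25664) (hta : 1.068 ≤ t + κ) (htb : t + κ ≤ 1.3195)
    (hY : 0.8923 * Real.exp (r * sE κ (t - h)) ≤ ‖Xf β r h t 0‖) (hV : 0.99492 + 0.0537 * (t - h + κ) ≤ sE κ (t - h)) :
    ‖Xf β r h t 1‖ ≤ 0.134 * ‖Xf β r h t 0‖ := by
  rw [v5_X 1 0 (by push_cast; ring)]
  exact v5_cmp 0.2974 0.05202 0.133 0.9847 0.0000535 0.00000875 0.134 hr (B5Do_C86 (t := t + 0 * h) hβ hr hκ hk1 hk2 (by linarith only [hta, htb, hh1, hh2]) (by linarith only [hta, htb, hh1, hh2])) hY (by norm_num) (by norm_num) (by norm_num) (by norm_num) (by linarith only [hV, hta, htb, hh1, hh2]) (ex_un 2 0.9739 (by norm_num) (by norm_num) (by norm_num) (by norm_num)) (by norm_num) (by norm_num) (by linarith only [hV, hta, htb, hh1, hh2]) (ex_un 9 0.8469 (by norm_num)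 (by norm_num) (by norm_num) (by norm_num)) (by norm_num) (by norm_num)

private theorem B5Do_O88 {β r t κ h : ℝ} (hβ : 0 < β) (hr : 10 ≤ r) (hκ : κ = β * r) (hk1 : 0.5 ≤ κ) (hk2 : κ ≤ 0.6)
    (hh : h = 2 * Real.pi / 5) (hta : 1.068 ≤ t + κ) (htb : t + κ ≤ 1.3195) :
    ‖Xf β r h t (-2)‖ + ‖Xf β r h t (-1)‖ + ‖Xf β r h t 2‖ < |‖Xf β r h t 1‖ - ‖Xf β r h t 0‖| := by
  obtain ⟨hh1, hh2⟩ := v5_h hh
  have hκ0 : 0 < κ := by linarith only [hk1]
  have hN : β * 16.666 ≤ 1 := v5_hN 0.6 16.666 hβ hr hκ hk2 (by norm_num) (by norm_num)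
  have hD1 : DomR κ t := v5_dom hκ0 (by linarith only [hta, htb, hk1, hk2, hh1, hh2]) (Or.inr (by linarith only [hta, htb, hk1, hk2, hh1, hh2]))
  have hD0 : DomR κ (t - h) := v5_dom hκ0 (by linarith only [hta, htb, hk1, hk2, hh1, hh2]) (Or.inr (by linarith only [hta, htb, hk1, hk2, hh1, hh2]))
  have h0a : (-0.1887) ≤ t - h + κ := by linarith only [hta, htb, hh1, hh2]
  have h0b : t - h + κ ≤ 0.0629 := by linarith only [hta, htb, hh1, hh2]
  have e0 : t - h = t + (((0 : ℤ) : ℝ) - 1) * h := by push_cast; ring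
  have hY := B5Do_Y80 (h := h) hβ hκ hN hk1 hk2 e0 hD0 h0a h0b
  have hV := B5Do_V81 hD0 hk1 hk2 h0a h0b
  have cp2 := B5Do_K82 hβ hr hκ hk1 hk2 hh hh1 hh2 hta htb hY hV
  have cm1 := B5Do_K83 hβ hr hκ hk1 hk2 hh hh1 hh2 hta htb hY hV
  have cm2 := B5Do_K84 hβ hr hκ hk1 hk2 hh hh1 hh2 hta htb hY hV
  have cn1 := B5Do_K87 hβ hr hκ hk1 hk2 hh hh1 hh2 hta htb hY hV
  have hp : 0 < ‖Xf β r h t 0‖ := lt_of_lt_of_le (by positivity) hY
  exact v5_out0 _ _ _ _ cm2 cm1 cp2 cn1 hp (by norm_num)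

theorem R1_b5_D {p : ℤ} {β r : ℝ} (hp : IsCoprime (5 : ℤ) p) (hr : 10 ≤ r) (hβ : 0 < β) (hk1 : 0.5 ≤ β * r)
    (hk2 : β * r ≤ 0.6) : Circ (2 * Real.pi * p / 5 + β) r := by
  obtain ⟨h, hh⟩ : ∃ h : ℝ, h = 2 * Real.pi / 5 := ⟨_, rfl⟩
  obtain ⟨hh1, hh2⟩ := v5_h hh
  obtain ⟨κ, hκ⟩ : ∃ κ, κ = β * r := ⟨_, rfl⟩
  rw [← hκ] at hk1 hk2
  refine v5_circ (κ := κ) hp hr hh 0.45 0.61 1.08 0.0717 0.0658 0.00254 0.00327 0.2 0.0132 0.0232 0.5412 ?_ ?_ (by norm_num) (by norm_num) (by norm_num) (by norm_num) (by norm_num) (by norm_num) (by norm_num) (by norm_num) (by norm_num) (by norm_num)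
  · intro t g1 g2
    rcases le_total (t + κ) 0.666 with g3 | g3
    · exact B5Dw_W22 hβ hr hκ hk1 hk2 hh (by linarith) (by linarith)
    exact B5Dw_W42 hβ hr hκ hk1 hk2 hh (by linarith) (by linarith)
  · intro t g1 g2 g3
    rcases g3 with g3 | g3
    · rcases le_total (t + κ) 0.251 with g4 | g4
      · exact B5Do_O16 hβ hr hκ hk1 hk2 hh (by linarith) (by linarith)
      rcases le_total (t + κ) 0.415 with g4 | g4
      · exact B5Do_O30 hβ hr hκ hk1 hk2 hh (by linarith) (by linarith)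
      exact B5Do_O45 hβ hr hκ hk1 hk2 hh (by linarith) (by linarith)
    · rcases le_total (t + κ) 0.88 with g4 | g4
      · exact B5Do_O61 hβ hr hκ hk1 hk2 hh (by linarith) (by linarith)
      rcases le_total (t + κ) 1.068 with g4 | g4
      · exact B5Do_O74 hβ hr hκ hk1 hk2 hh (by linarith) (by linarith)
      exact B5Do_O88 hβ hr hκ hk1 hk2 hh (by linarith) (by linarith)

end Sok
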