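import Pool.Agent.Lib.MP_816dec_an.R1b5WE

/-!
MP_816dec_an (A3, row R1), SINGLE CASE `b = 5`, `r ≥ 10`, `0.6 ≤ κ ≤ 0.7`: outside the window, assembly (generated file).
-/

set_option autoImplicit false
set_option linter.unusedVariables false

open Complex Set Filter Topology Metric

namespace Sok

private theorem B5Eo_B1 {κ t : ℝ} (h : DomR κ t) (hk1 : 0.6 ≤ κ) (hk2 : κ ≤ 0.7) (ht1 : 0.0628 ≤ t + κ) (ht2 : t + κ ≤ 0.251) :
    (0.026 ≤ sy κ t ∧ sy κ t ≤ 0.107) ∧ (0.5283 ≤ sx κ t ∧ sx κ t ≤ 0.6816) ∧ κ * Real.exp (-sy κ t) ≤ 0.6821 ∧ 1.3937 ≤ sD κ t ∧ sD κ t ≤ 1.6097 := by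
  have hy1 : 0.026 ≤ sy κ t := syR_ge h 0.6 0.7 0.0628 0.026 1.02634 1.02635 0.03812 0.04448 hk1 hk2 (by linarith) (by norm_num) (by norm_num)
    (expn_ge (by norm_num) (by norm_num)) (expn_le (by norm_num) (by norm_num) (by norm_num)) (by norm_num)
    (by norm_num) (by norm_num) (by norm_num) (by norm_num) (by norm_num) (by norm_num)
  have hy2 : sy κ t ≤ 0.107 := syR_le h 0.6 0.7 0.251 0.107 1.11293 0.1677 0.17011 0.19848 hk1 hk2 (by linarith) (by norm_num) (by norm_num)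
    (expn_ge (by norm_num) (by norm_num)) (by norm_num) (by norm_num) (Or.inr ((mul_le_mul_of_nonneg_left (expn_le (E := 1.11294) (by norm_num) (by norm_num) (by norm_num)) (by norm_num)).trans (by norm_num))) (by norm_num) (by norm_num) (by norm_num)
  have hy1' : 0.026 ≤ sy κ t := by linarith
  have hy2' : sy κ t ≤ 0.107 := by linarith
  have hx1 : 0.5283 ≤ sx κ t := sx_lo h 0.6 0.107 0.1071 0.89852 0.5283 hk1 (by norm_num) hy2' (abs_le.2 ⟨by linarith, by linarith⟩) (ex_lm 0.107 (by norm_num) (by norm_num) (by norm_num) (by norm_num) (by norm_num)) (by norm_num) (by norm_num)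
  have hx2 : sx κ t ≤ 0.6816 := sx_hi h 0.7 0.026 0.026 0.97434 0.6816 hk2 hy1' (by norm_num) (le_trans (by linarith) (le_abs_self _)) (ex_um 0.026 (by norm_num) (by norm_num) (by norm_num) (by norm_num)) (by norm_num) (by norm_num)
  refine ⟨⟨hy1', hy2'⟩, ⟨hx1, hx2⟩, v5_n h 0.7 0.026 0.97434 0.6821 hk2 hy1' (ex_um 0.026 (by norm_num) (by norm_num) (by norm_num) (by norm_num)) (by norm_num), ?_, ?_⟩
  · exact v5_Dlo h 0.6 0.026 0.107 0.026 0.97433 1.3937 (by norm_num) hk1 hy1' hy2' (ex_lm 0.026 (by norm_num) (by norm_num) (by norm_num) (by norm_num) (by norm_num)) (by norm_num) (by norm_num) (by norm_num) (by norm_num)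
  · exact v5_Dup h 0.7 0.026 0.107 0.97434 0.89853 1.6097 hk2 hy1' hy2' (ex_um 0.026 (by norm_num) (by norm_num) (by norm_num) (by norm_num)) (ex_um 0.107 (by norm_num) (by norm_num) (by norm_num) (by norm_num)) (by norm_num) (by norm_num) (by norm_num)

private theorem B5Eo_T2_0_0 {β x y : ℝ} (hβ : 0 < β) (hN : β * 14.285 ≤ 1) (hx1 : 0.5282 ≤ x) (hx2 : x ≤ 0.6817)
    (hy1 : -0 ≤ y) (hy2 : y ≤ 0.1071) : ‖HH β (x + y * I) - 1‖ ≤ 0.03 := by
  refine le_epsJ (C := 0.3665) (N0 := 14.285) (J_boxp 0.5282 0.6817 0 0.1071 0.1071 1.0819 0.6901 1.3002 1.0133 0.4549 3.7796 14.285 0.6379 2.309 1.33 1.1579 0.5409 0.4259 1.189 3.7077 0.6006 1.2204 2.1677 3.3879 0.0004417 0.002282 0.0000003101 0.0000003101 0.0001881 0.0000003101 0.0000003101 0.0000003101 0.3665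
    hβ hN hx1 hx2 hy1 hy2 (by norm_num) (by norm_num) (by linarith) (by norm_num) (by norm_num) (by norm_num) (by norm_num) (by norm_num) (by norm_num) (by norm_num) (by norm_num) (by norm_num) (by norm_num) (by norm_num) (by norm_num) (by norm_num) (by norm_num) (by norm_num) (by norm_num) (by norm_num) (by norm_num) (by norm_num) (by norm_num) (by norm_num)
    (cube_sqrt_geJ (s := 0.8873) (by norm_num) (by norm_num) (by norm_num) (by norm_num))
    (cube_sqrt_geJ (s := 0.9601) (by norm_num) (by norm_num) (by norm_num) (by norm_num))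
    (by norm_num) (by norm_num) (by norm_num) (by norm_num) (by norm_num) (by norm_num) (by norm_num) (by norm_num) (by norm_num) (by norm_num) (by norm_num) (by norm_num) (by norm_num) (by norm_num) (by norm_num) (by norm_num) (by norm_num) (by norm_num)
    (exp_neg_leJ (r := 0.726) 7 (by norm_num) (by norm_num) (by norm_num) (by norm_num))
    (exp_neg_leJ (r := 0.083) 6 (by norm_num) (by norm_num) (by norm_num) (by norm_num))
    (exp_neg_leJ (r := 0.99) 14 (by norm_num) (by norm_num) (by norm_num) (by norm_num))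
    (exp_neg_leJ (r := 0.99) 14 (by norm_num) (by norm_num) (by norm_num) (by norm_num))
    (exp_neg_leJ (r := 0.579) 8 (by norm_num) (by norm_num) (by norm_num) (by norm_num))
    (exp_neg_leJ (r := 0.99) 14 (by norm_num) (by norm_num) (by norm_num) (by norm_num))
    (exp_neg_leJ (r := 0.99) 14 (by norm_num) (by norm_num) (by norm_num) (by norm_num))
    (exp_neg_leJ (r := 0.99) 14 (by norm_num) (by norm_num) (by norm_num) (by norm_num))
    (by norm_num)) (by norm_num) hN hβ.le (by norm_num)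

private theorem B5Eo_T2 {β x y : ℝ} (hβ : 0 < β) (hN : β * 14.285 ≤ 1) (hx1 : 0.5282 ≤ x) (hx2 : x ≤ 0.6817)
    (hy1 : 0.0259 ≤ y) (hy2 : y ≤ 0.1071) : ‖HH β (x + y * I) - 1‖ ≤ 0.03 := by
  exact B5Eo_T2_0_0 hβ hN (by linarith) (by linarith) (by linarith) (by linarith)

private theorem B5Eo_G3 {κ : ℝ} (hk1 : 0.6 ≤ κ) (hk2 : κ ≤ 0.7) : gG κ 0.49 ≤ 1.23174 ∧ 0.50357 ≤ Real.exp (-(κ * 0.49)) ^ 2 := by
  refine ⟨gG_le 0.49 0.6 0.7 1.23174 0.74528 0.70964 1.34179 1.40917 hk1 hk2 (by norm_num)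
    (ex_um 0.294 (by norm_num) (by norm_num) (by norm_num) (by norm_num)) (ex_um 0.343 (by norm_num) (by norm_num) (by norm_num) (by norm_num))
    (ex_up 0.294 (by norm_num) (by norm_num) (by norm_num) (by norm_num)) (ex_up 0.343 (by norm_num) (by norm_num) (by norm_num) (by norm_num))
    (by norm_num) (by norm_num), ?_⟩
  exact v5_M 0.70963 (ex_lm 0.343 (by linarith) (by norm_num) (by norm_num) (by norm_num) (by norm_num)) (by norm_num) (by norm_num)

private theorem B5Eo_C4 {β r t κ : ℝ} (hβ : 0 < β) (hr : 10 ≤ r) (hκ : κ = β * r) (hk1 : 0.6 ≤ κ) (hk2 : κ ≤ 0.7) (hta : 1.3194 ≤ t + κ)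
    (htb : t + κ ≤ 1.5077) : ‖F (cexp (I * β)) (r * cexp (I * ((t + β / 2 : ℝ) : ℂ)))‖ ≤
      2.2555 * Real.exp (r * (1.23174 - 0.49 * (t + κ))) + 0.1539 * Real.exp (r * 0) :=
  v5_H 0.49 0.6 0.7 1.3194 1.5077 1.23174 2.207 0.50357 0.1056 2.19 0.6629 0.11904 0.3042 0.00000151 2.2555 0.1539 hβ hr hκ (by norm_num) hk1 hk2 hta htb (by norm_num) (B5Eo_G3 hk1 hk2).1 (B5Eo_G3 hk1 hk2).2 (by norm_num) (by norm_num) (by norm_num)
    (by norm_num) (by norm_num) (by norm_num) (by norm_num) (by norm_num) (by norm_num) (by norm_num) (by norm_num) (ex_un 1 0.1903 (by norm_num) (by norm_num) (by norm_num) (by norm_num))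
    (v5_hump 3.0014 14.285 3.7796 0.0000009316 0.00000151 hβ hr hκ hk1 hk2 (by norm_num) htb (by norm_num) (by norm_num) (by norm_num) (by norm_num) (by norm_num) (by norm_num) (by norm_num) (ex_un 13 0.9 (by norm_num) (by norm_num) (by norm_num) (by norm_num)) (by norm_num)) (by norm_num) (by norm_num)

private theorem B5Eo_G5 {κ : ℝ} (hk1 : 0.6 ≤ κ) (hk2 : κ ≤ 0.7) : gG κ (-0.68) ≤ 1.27979 ∧ 2.26141 ≤ Real.exp (-(κ * (-0.68))) ^ 2 := by
  refine ⟨gG_le (-0.68) 0.6 0.7 1.27979 1.50381 1.60963 0.66498 0.62127 hk1 hk2 (by norm_num)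
    (ex_up 0.408 (by norm_num) (by norm_num) (by norm_num) (by norm_num)) (ex_up 0.476 (by norm_num) (by norm_num) (by norm_num) (by norm_num))
    (ex_um 0.408 (by norm_num) (by norm_num) (by norm_num) (by norm_num)) (ex_um 0.476 (by norm_num) (by norm_num) (by norm_num) (by norm_num))
    (by norm_num) (by norm_num), ?_⟩
  exact v5_M 1.5038 (ex_lp 0.408 (by linarith) (by norm_num) (by norm_num)) (by norm_num) (by norm_num)

private theorem B5Eo_C6 {β r t κ : ℝ} (hβ : 0 < β) (hr : 10 ≤ r) (hκ : κ = β * r) (hk1 : 0.6 ≤ κ) (hk2 : κ ≤ 0.7) (hta : (-2.4505) ≤ t + κ)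
    (htb : t + κ ≤ (-2.2622)) : ‖F (cexp (I * β)) (r * cexp (I * ((t + β / 2 : ℝ) : ℂ)))‖ ≤
      1.3653 * Real.exp (r * (1.27979 - (-0.68) * (t + κ))) + 1.9418 * Real.exp (r * 0.0501) :=
  v5_HU (-0.68) 0.6 0.7 (-2.4505) (-2.2622) 1.27979 1.3653 2.26141 0.1056 0.9879 1.5614 0 0.0501 0.00000151 1.9418 hβ hr hκ (by norm_num) hk1 hk2 hta htb (by norm_num) (by norm_num) (B5Eo_G5 hk1 hk2).1 (B5Eo_G5 hk1 hk2).2 (by norm_num) (by norm_num) (by norm_num)
    (by norm_num) (by norm_num) (by norm_num) (by norm_num) (by norm_num) (by norm_num) (by norm_num)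
    (by norm_num) (by norm_num) (by norm_num) (v5_hump 6.7713 14.285 3.7796 0.0000009316 0.00000151 hβ hr hκ hk1 hk2 (by norm_num) htb (by norm_num) (by norm_num) (by norm_num) (by norm_num) (by norm_num) (by norm_num) (by norm_num) (ex_un 13 0.9 (by norm_num) (by norm_num) (by norm_num) (by norm_num)) (by norm_num)) (by norm_num)

private theorem B5Eo_C7 {β r t κ : ℝ} (hβ : 0 < β) (hr : 10 ≤ r) (hκ : κ = β * r) (hk1 : 0.6 ≤ κ) (hk2 : κ ≤ 0.7) (hta : 2.576 ≤ t + κ)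
    (htb : t + κ ≤ 2.7643) : ‖F (cexp (I * β)) (r * cexp (I * ((t + β / 2 : ℝ) : ℂ)))‖ ≤
      2.6541 * Real.exp (r * (0.01 + 1 / 20)) :=
  v5_UD 0.6 0.7 2.576 2.7643 0.01 0.5151 0.01 1.3837 2.6541 hβ hr hκ (by norm_num) hk1 hk2 hta htb (by norm_num) (by norm_num) (by norm_num) (by norm_num) (by norm_num) (by norm_num) (by norm_num) (by norm_num) (by norm_num) (by norm_num) (by norm_num)

private theorem B5Eo_Y8 {β r t κ h t' : ℝ} (hβ : 0 < β) (hκ : κ = β * r) (hN : β * 14.285 ≤ 1) (hk1 : 0.6 ≤ κ) (hk2 : κ ≤ 0.7)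
    (ht : t' = t + (((1 : ℤ) : ℝ) - 1) * h) (hD : DomR κ t') (hta : 0.0628 ≤ t' + κ) (htb : t' + κ ≤ 0.251) :
    0.8611 * Real.exp (r * sE κ t') ≤ ‖Xf β r h t 1‖ := by
  obtain ⟨⟨ya, yb⟩, ⟨xa, xb⟩, n1, Da, Db⟩ := B5Eo_B1 hD hk1 hk2 hta htb
  have J := B5Eo_T2 (x := sx κ t') (y := sy κ t') hβ hN (by linarith only [xa, xb, ya, yb]) (by linarith only [xa, xb, ya, yb]) (by linarith only [xa, xb, ya, yb]) (by linarith only [xa, xb, ya, yb])
  exact v5_Jlo hβ hκ (k := 1) ht hD 0.03 1.6097 0.8611 (by norm_num) J Db (by norm_num)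

private theorem B5Eo_V9 {κ t : ℝ} (hD : DomR κ t) (hk1 : 0.6 ≤ κ) (hk2 : κ ≤ 0.7) (hta : 0.0628 ≤ t + κ) (htb : t + κ ≤ 0.251) :
    1.00545 - 0.1096 * (t + κ) ≤ sE κ t := by
  have hκ0 : 0 < κ := hD.1
  exact v5_V1 hD 0.6 0.7 0.0628 0.251 0.09532 0.21532 0.26399 1.00545 0.1096 (by norm_num) hk1 hk2 (by norm_num) (by norm_num) hta htb (by norm_num) (clo5 0.6 0.7 0.26399 (by norm_num) hk1 hk2 (by norm_num) (by norm_num) (by norm_num))
      ((cup1 0.7 hκ0.le hk2 (by norm_num)).trans (by norm_num)) (by norm_num) (by norm_num) (by norm_num) (by norm_num) (by norm_num) (by norm_num)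

private theorem B5Eo_K10 {β r t κ h : ℝ} (hβ : 0 < β) (hr : 10 ≤ r) (hκ : κ = β * r) (hk1 : 0.6 ≤ κ) (hk2 : κ ≤ 0.7)
    (hh : h = 2 * Real.pi / 5) (hh1 : 1.25663 ≤ h) (hh2 : h ≤ 1.25664) (hta : 0.0628 ≤ t + κ) (htb : t + κ ≤ 0.251)
    (hY : 0.8611 * Real.exp (r * sE κ t) ≤ ‖Xf β r h t 1‖) (hV : 1.00545 - 0.1096 * (t + κ) ≤ sE κ t) :
    ‖Xf β r h t 2‖ ≤ 0.0422 * ‖Xf β r h t 1‖ := by
  rw [v5_X 2 1 (by push_cast; ring)]
  exact v5_cmp 0.4133 0.01604 0.0421 0.9779 0.00005711 0.0000103 0.0422 hr (B5Eo_C4 (t := t + 1 * h) hβ hr hκ hk1 hk2 (by linarith only [hta, htb, hh1, hh2]) (by linarith only [hta, htb, hh1, hh2])) hY (by norm_num) (by norm_num) (by norm_num) (by norm_num) (by linarith only [hV, hta, htb, hh1, hh2]) (ex_un 4 0.1329 (by norm_num) (by norm_num) (by norm_num) (by norm_num)) (by norm_num) (by norm_num) (by linarith only [hV, hta, htb, hh1, hh2]) (ex_un 9 0.7789 (by norm_num) (by norm_num) (by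 norm_num) (by norm_num)) (by norm_num) (by norm_num)

private theorem B5Eo_K11 {β r t κ h : ℝ} (hβ : 0 < β) (hr : 10 ≤ r) (hκ : κ = β * r) (hk1 : 0.6 ≤ κ) (hk2 : κ ≤ 0.7)
    (hh : h = 2 * Real.pi / 5) (hh1 : 1.25663 ≤ h) (hh2 : h ≤ 1.25664) (hta : 0.0628 ≤ t + κ) (htb : t + κ ≤ 0.251)
    (hY : 0.8611 * Real.exp (r * sE κ t) ≤ ‖Xf β r h t 1‖) (hV : 1.00545 - 0.1096 * (t + κ) ≤ sE κ t) :
    ‖Xf β r h t (-1)‖ ≤ 0.000218 * ‖Xf β r h t 1‖ := by
  rw [v5_X (-1) (-2) (by push_cast; ring)]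
  exact v5_cmp 1.2364 0.000004273 0.00000678 0.9278 0.00009349 0.000211 0.000218 hr (B5Eo_C6 (t := t + (-2) * h) hβ hr hκ hk1 hk2 (by linarith only [hta, htb, hh1, hh2]) (by linarith only [hta, htb, hh1, hh2])) hY (by norm_num) (by norm_num) (by norm_num) (by norm_num) (by linarith only [hV, hta, htb, hh1, hh2]) (ex_un 12 0.3639 (by norm_num) (by norm_num) (by norm_num) (by norm_num)) (by norm_num) (by norm_num) (by linarith only [hV, hta, htb, hh1, hh2]) (ex_un 9 0.2779 (by norm_num) (by norm_num) (by norm_num) (by norm_num)) (by norm_num) (by norm_num)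

private theorem B5Eo_K12 {β r t κ h : ℝ} (hβ : 0 < β) (hr : 10 ≤ r) (hκ : κ = β * r) (hk1 : 0.6 ≤ κ) (hk2 : κ ≤ 0.7)
    (hh : h = 2 * Real.pi / 5) (hh1 : 1.25663 ≤ h) (hh2 : h ≤ 1.25664) (hta : 0.0628 ≤ t + κ) (htb : t + κ ≤ 0.251)
    (hY : 0.8611 * Real.exp (r * sE κ t) ≤ ‖Xf β r h t 1‖) (hV : 1.00545 - 0.1096 * (t + κ) ≤ sE κ t) :
    ‖Xf β r h t (-2)‖ ≤ 0.000319 * ‖Xf β r h t 1‖ := by
  rw [v5_Xm2 hh]
  exact v5_cmp0 0.9179 0.0001032 0.000319 hr (B5Eo_C7 (t := t + 2 * h) hβ hr hκ hk1 hk2 (by linarith only [hta, htb, hh1, hh2]) (by linarith only [hta, htb, hh1, hh2])) hY (by norm_num) (by norm_num) (by norm_num) (by linarith only [hV, hta, htb, hh1, hh2]) (ex_un 9 0.1789 (by norm_num) (by norm_num) (by norm_num) (by norm_num)) (by norm_num)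

private theorem B5Eo_G13 {κ : ℝ} (hk1 : 0.6 ≤ κ) (hk2 : κ ≤ 0.7) : gG κ (-0.71) ≤ 1.30296 ∧ 2.34432 ≤ Real.exp (-(κ * (-0.71))) ^ 2 := by
  refine ⟨gG_le (-0.71) 0.6 0.7 1.30296 1.53113 1.64379 0.65312 0.60836 hk1 hk2 (by norm_num)
    (ex_up 0.426 (by norm_num) (by norm_num) (by norm_num) (by norm_num)) (ex_up 0.497 (by norm_num) (by norm_num) (by norm_num) (by norm_num))
    (ex_um 0.426 (by norm_num) (by norm_num) (by norm_num) (by norm_num)) (ex_um 0.497 (by norm_num) (by norm_num) (by norm_num) (by norm_num))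
    (by norm_num) (by norm_num), ?_⟩
  exact v5_M 1.53112 (ex_lp 0.426 (by linarith) (by norm_num) (by norm_num)) (by norm_num) (by norm_num)

private theorem B5Eo_C14 {β r t κ : ℝ} (hβ : 0 < β) (hr : 10 ≤ r) (hκ : κ = β * r) (hk1 : 0.6 ≤ κ) (hk2 : κ ≤ 0.7) (hta : (-1.1939) ≤ t + κ)
    (htb : t + κ ≤ (-1.0056)) : ‖F (cexp (I * β)) (r * cexp (I * ((t + β / 2 : ℝ) : ℂ)))‖ ≤
      1.3576 * Real.exp (r * (1.30296 - (-0.71) * (t + κ))) + 1.9324 * Real.exp (r * 0.0501) :=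
  v5_HU (-0.71) 0.6 0.7 (-1.1939) (-1.0056) 1.30296 1.3576 2.34432 0.1056 0.9879 2.818 0 0.0501 0.00000151 1.9324 hβ hr hκ (by norm_num) hk1 hk2 hta htb (by norm_num) (by norm_num) (B5Eo_G13 hk1 hk2).1 (B5Eo_G13 hk1 hk2).2 (by norm_num) (by norm_num) (by norm_num)
    (by norm_num) (by norm_num) (by norm_num) (by norm_num) (by norm_num) (by norm_num) (by norm_num)
    (by norm_num) (by norm_num) (by norm_num) (v5_hump 5.5147 14.285 3.7796 0.0000009316 0.00000151 hβ hr hκ hk1 hk2 (by norm_num) htb (by norm_num) (by norm_num) (by norm_num) (by norm_num) (by norm_num) (by norm_num) (by norm_num) (ex_un 13 0.9 (by norm_num) (by norm_num) (by norm_num) (by norm_num)) (by norm_num)) (by norm_num)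

private theorem B5Eo_K15 {β r t κ h : ℝ} (hβ : 0 < β) (hr : 10 ≤ r) (hκ : κ = β * r) (hk1 : 0.6 ≤ κ) (hk2 : κ ≤ 0.7)
    (hh : h = 2 * Real.pi / 5) (hh1 : 1.25663 ≤ h) (hh2 : h ≤ 1.25664) (hta : 0.0628 ≤ t + κ) (htb : t + κ ≤ 0.251)
    (hY : 0.8611 * Real.exp (r * sE κ t) ≤ ‖Xf β r h t 1‖) (hV : 1.00545 - 0.1096 * (t + κ) ≤ sE κ t) :
    ‖Xf β r h t 0‖ ≤ 0.033 * ‖Xf β r h t 1‖ := by
  rw [v5_X 0 (-1) (by push_cast; ring)]
  exact v5_cmp 0.3889 0.02074 0.0327 0.9278 0.00009349 0.00021 0.033 hr (B5Eo_C14 (t := t + (-1) * h) hβ hr hκ hk1 hk2 (by linarith only [hta, htb, hh1, hh2]) (by linarith only [hta, htb, hh1, hh2])) hY (by norm_num) (by norm_num) (by norm_num) (by norm_num) (by linarith only [hV, hta, htb, hh1, hh2]) (ex_un 3 0.8889 (by norm_num) (by norm_num) (by norm_num) (by norm_num)) (by norm_num) (by norm_num) (by linarith only [hV, hta, htb, hh1, hh2]) (ex_un 9 0.2779 (by norm_num) (by norm_num)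 (by norm_num) (by norm_num)) (by norm_num) (by norm_num)

private theorem B5Eo_O16 {β r t κ h : ℝ} (hβ : 0 < β) (hr : 10 ≤ r) (hκ : κ = β * r) (hk1 : 0.6 ≤ κ) (hk2 : κ ≤ 0.7)
    (hh : h = 2 * Real.pi / 5) (hta : 0.0628 ≤ t + κ) (htb : t + κ ≤ 0.251) :
    ‖Xf β r h t (-2)‖ + ‖Xf β r h t (-1)‖ + ‖Xf β r h t 2‖ < |‖Xf β r h t 1‖ - ‖Xf β r h t 0‖| := by
  obtain ⟨hh1, hh2⟩ := v5_h hh
  have hκ0 : 0 < κ := by linarith only [hk1]
  have hN : β * 14.285 ≤ 1 := v5_hN 0.7 14.285 hβ hr hκ hk2 (by norm_num) (by norm_num)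
  have hD1 : DomR κ t := v5_dom hκ0 (by linarith only [hta, htb, hk1, hk2, hh1, hh2]) (Or.inr (by linarith only [hta, htb, hk1, hk2, hh1, hh2]))
  have e1 : t = t + (((1 : ℤ) : ℝ) - 1) * h := by push_cast; ring
  have hY := B5Eo_Y8 (h := h) hβ hκ hN hk1 hk2 e1 hD1 hta htb
  have hV := B5Eo_V9 hD1 hk1 hk2 hta htb
  have cp2 := B5Eo_K10 hβ hr hκ hk1 hk2 hh hh1 hh2 hta htb hY hV
  have cm1 := B5Eo_K11 hβ hr hκ hk1 hk2 hh hh1 hh2 hta htb hY hV
  have cm2 := B5Eo_K12 hβ hr hκ hk1 hk2 hh hh1 hh2 hta htb hY hV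
  have cn0 := B5Eo_K15 hβ hr hκ hk1 hk2 hh hh1 hh2 hta htb hY hV
  have hp : 0 < ‖Xf β r h t 1‖ := lt_of_lt_of_le (by positivity) hY
  exact v5_out1 _ _ _ _ cm2 cm1 cp2 cn0 hp (by norm_num)

private theorem B5Eo_B17 {κ t : ℝ} (h : DomR κ t) (hk1 : 0.6 ≤ κ) (hk2 : κ ≤ 0.7) (ht1 : 0.251 ≤ t + κ) (ht2 : t + κ ≤ 0.415) :
    (0.099 ≤ sy κ t ∧ sy κ t ≤ 0.167) ∧ (0.4794 ≤ sx κ t ∧ sx κ t ≤ 0.6263) ∧ κ * Real.exp (-sy κ t) ≤ 0.6341 ∧ 1.4933 ≤ sD κ t ∧ sD κ t ≤ 1.6849 := by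
  have hy1 : 0.099 ≤ sy κ t := syR_ge h 0.6 0.7 0.251 0.099 1.10406 1.10407 0.15614 0.18218 hk1 hk2 (by linarith) (by norm_num) (by norm_num)
    (expn_ge (by norm_num) (by norm_num)) (expn_le (by norm_num) (by norm_num) (by norm_num)) (by norm_num)
    (by norm_num) (by norm_num) (by norm_num) (by norm_num) (by norm_num) (by norm_num)
  have hy2 : sy κ t ≤ 0.167 := syR_le h 0.6 0.7 0.415 0.167 1.18175 0.2701 0.28193 0.32893 hk1 hk2 (by linarith) (by norm_num) (by norm_num)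
    (expn_ge (by norm_num) (by norm_num)) (by norm_num) (by norm_num) (Or.inr ((mul_le_mul_of_nonneg_left (expn_le (E := 1.18176) (by norm_num) (by norm_num) (by norm_num)) (by norm_num)).trans (by norm_num))) (by norm_num) (by norm_num) (by norm_num)
  have hy1' : 0.099 ≤ sy κ t := by linarith
  have hy2' : sy κ t ≤ 0.167 := by linarith
  have hx1 : 0.4794 ≤ sx κ t := sx_lo h 0.6 0.167 0.1671 0.84619 0.4794 hk1 (by norm_num) hy2' (abs_le.2 ⟨by linarith, by linarith⟩) (ex_lm 0.167 (by norm_num) (by norm_num) (by norm_num) (by norm_num) (by norm_num)) (by norm_num) (by norm_num)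
  have hx2 : sx κ t ≤ 0.6263 := sx_hi h 0.7 0.099 0.099 0.90575 0.6263 hk2 hy1' (by norm_num) (le_trans (by linarith) (le_abs_self _)) (ex_um 0.099 (by norm_num) (by norm_num) (by norm_num) (by norm_num)) (by norm_num) (by norm_num)
  refine ⟨⟨hy1', hy2'⟩, ⟨hx1, hx2⟩, v5_n h 0.7 0.099 0.90575 0.6341 hk2 hy1' (ex_um 0.099 (by norm_num) (by norm_num) (by norm_num) (by norm_num)) (by norm_num), ?_, ?_⟩
  · exact v5_Dlo h 0.6 0.099 0.167 0.099 0.90574 1.4933 (by norm_num) hk1 hy1' hy2' (ex_lm 0.099 (by norm_num) (by norm_num) (by norm_num) (by norm_num) (by norm_num)) (by norm_num) (by norm_num) (by norm_num) (by norm_num)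
  · exact v5_Dup h 0.7 0.099 0.167 0.90575 0.8462 1.6849 hk2 hy1' hy2' (ex_um 0.099 (by norm_num) (by norm_num) (by norm_num) (by norm_num)) (ex_um 0.167 (by norm_num) (by norm_num) (by norm_num) (by norm_num)) (by norm_num) (by norm_num) (by norm_num)

private theorem B5Eo_T18_0_0 {β x y : ℝ} (hβ : 0 < β) (hN : β * 14.285 ≤ 1) (hx1 : 0.4793 ≤ x) (hx2 : x ≤ 0.6264)
    (hy1 : -0 ≤ y) (hy2 : y ≤ 0.1671) : ‖HH β (x + y * I) - 1‖ ≤ 0.03 := by
  refine le_epsJ (C := 0.3739) (N0 := 14.285) (J_boxp 0.4793 0.6264 0 0.1671 0.1671 1.0475 0.6484 1.3246 1.0736 0.4592 3.7796 14.285 0.619 2.246 1.318 1.1791 0.5237 0.4156 1.1723 3.736 0.5707 1.1466 1.8126 3.1207 0.0005638 0.00265 0.0000003101 0.0000003101 0.0002882 0.0000003101 0.0000003101 0.0000003101 0.3739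
    hβ hN hx1 hx2 hy1 hy2 (by norm_num) (by norm_num) (by linarith) (by norm_num) (by norm_num) (by norm_num) (by norm_num) (by norm_num) (by norm_num) (by norm_num) (by norm_num) (by norm_num) (by norm_num) (by norm_num) (by norm_num) (by norm_num) (by norm_num) (by norm_num) (by norm_num) (by norm_num) (by norm_num) (by norm_num) (by norm_num) (by norm_num)
    (cube_sqrt_geJ (s := 0.8908) (by norm_num) (by norm_num) (by norm_num) (by norm_num))
    (cube_sqrt_geJ (s := 0.9613) (by norm_num) (by norm_num) (by norm_num) (by norm_num))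
    (by norm_num) (by norm_num) (by norm_num) (by norm_num) (by norm_num) (by norm_num) (by norm_num) (by norm_num) (by norm_num) (by norm_num) (by norm_num) (by norm_num) (by norm_num) (by norm_num) (by norm_num) (by norm_num) (by norm_num) (by norm_num)
    (exp_neg_leJ (r := 0.481) 7 (by norm_num) (by norm_num) (by norm_num) (by norm_num))
    (exp_neg_leJ (r := 0.936) 5 (by norm_num) (by norm_num) (by norm_num) (by norm_num))
    (exp_neg_leJ (r := 0.99) 14 (by norm_num) (by norm_num) (by norm_num) (by norm_num))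
    (exp_neg_leJ (r := 0.99) 14 (by norm_num) (by norm_num) (by norm_num) (by norm_num))
    (exp_neg_leJ (r := 0.152) 8 (by norm_num) (by norm_num) (by norm_num) (by norm_num))
    (exp_neg_leJ (r := 0.99) 14 (by norm_num) (by norm_num) (by norm_num) (by norm_num))
    (exp_neg_leJ (r := 0.99) 14 (by norm_num) (by norm_num) (by norm_num) (by norm_num))
    (exp_neg_leJ (r := 0.99) 14 (by norm_num) (by norm_num) (by norm_num) (by norm_num))
    (by norm_num)) (by norm_num) hN hβ.le (by norm_num)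

private theorem B5Eo_T18 {β x y : ℝ} (hβ : 0 < β) (hN : β * 14.285 ≤ 1) (hx1 : 0.4793 ≤ x) (hx2 : x ≤ 0.6264)
    (hy1 : 0.0989 ≤ y) (hy2 : y ≤ 0.1671) : ‖HH β (x + y * I) - 1‖ ≤ 0.03 := by
  exact B5Eo_T18_0_0 hβ hN (by linarith) (by linarith) (by linarith) (by linarith)

private theorem B5Eo_G19 {κ : ℝ} (hk1 : 0.6 ≤ κ) (hk2 : κ ≤ 0.7) : gG κ 0.52 ≤ 1.26763 ∧ 0.48287 ≤ Real.exp (-(κ * 0.52)) ^ 2 := by
  refine ⟨gG_le 0.52 0.6 0.7 1.26763 0.73199 0.6949 1.36616 1.43908 hk1 hk2 (by norm_num)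
    (ex_um 0.312 (by norm_num) (by norm_num) (by norm_num) (by norm_num)) (ex_um 0.364 (by norm_num) (by norm_num) (by norm_num) (by norm_num))
    (ex_up 0.312 (by norm_num) (by norm_num) (by norm_num) (by norm_num)) (ex_up 0.364 (by norm_num) (by norm_num) (by norm_num) (by norm_num))
    (by norm_num) (by norm_num), ?_⟩
  exact v5_M 0.69489 (ex_lm 0.364 (by linarith) (by norm_num) (by norm_num) (by norm_num) (by norm_num)) (by norm_num) (by norm_num)

private theorem B5Eo_C20 {β r t κ : ℝ} (hβ : 0 < β) (hr : 10 ≤ r) (hκ : κ = β * r) (hk1 : 0.6 ≤ κ) (hk2 : κ ≤ 0.7) (hta : 1.5076 ≤ t + κ)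
    (htb : t + κ ≤ 1.6717) : ‖F (cexp (I * β)) (r * cexp (I * ((t + β / 2 : ℝ) : ℂ)))‖ ≤
      2.4189 * Real.exp (r * (1.26763 - 0.52 * (t + κ))) + 0.1501 * Real.exp (r * 0) :=
  v5_H 0.52 0.6 0.7 1.5076 1.6717 1.26763 2.3289 0.48287 0.1056 2.3782 0.4989 0.08681 0.4249 0.00000151 2.4189 0.1501 hβ hr hκ (by norm_num) hk1 hk2 hta htb (by norm_num) (B5Eo_G19 hk1 hk2).1 (B5Eo_G19 hk1 hk2).2 (by norm_num) (by norm_num) (by norm_num)
    (by norm_num) (by norm_num) (by norm_num) (by norm_num) (by norm_num) (by norm_num) (by norm_num) (by norm_num) (ex_un 0 0.868 (by norm_num) (by norm_num) (by norm_num) (by norm_num))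
    (v5_hump 2.8374 14.285 3.7796 0.0000009316 0.00000151 hβ hr hκ hk1 hk2 (by norm_num) htb (by norm_num) (by norm_num) (by norm_num) (by norm_num) (by norm_num) (by norm_num) (by norm_num) (ex_un 13 0.9 (by norm_num) (by norm_num) (by norm_num) (by norm_num)) (by norm_num)) (by norm_num) (by norm_num)

private theorem B5Eo_C21 {β r t κ : ℝ} (hβ : 0 < β) (hr : 10 ≤ r) (hκ : κ = β * r) (hk1 : 0.6 ≤ κ) (hk2 : κ ≤ 0.7) (hta : (-2.2623) ≤ t + κ)
    (htb : t + κ ≤ (-2.0982)) : ‖F (cexp (I * β)) (r * cexp (I * ((t + β / 2 : ℝ) : ℂ)))‖ ≤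
      1.3576 * Real.exp (r * (1.30296 - (-0.71) * (t + κ))) + 1.9553 * Real.exp (r * 0.0501) :=
  v5_HU (-0.71) 0.6 0.7 (-2.2623) (-2.0982) 1.30296 1.3576 2.34432 0.1056 0.9879 1.7496 0 0.0501 0.00000151 1.9553 hβ hr hκ (by norm_num) hk1 hk2 hta htb (by norm_num) (by norm_num) (B5Eo_G13 hk1 hk2).1 (B5Eo_G13 hk1 hk2).2 (by norm_num) (by norm_num) (by norm_num)
    (by norm_num) (by norm_num) (by norm_num) (by norm_num) (by norm_num) (by norm_num) (by norm_num)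
    (by norm_num) (by norm_num) (by norm_num) (v5_hump 6.6073 14.285 3.7796 0.0000009316 0.00000151 hβ hr hκ hk1 hk2 (by norm_num) htb (by norm_num) (by norm_num) (by norm_num) (by norm_num) (by norm_num) (by norm_num) (by norm_num) (ex_un 13 0.9 (by norm_num) (by norm_num) (by norm_num) (by norm_num)) (by norm_num)) (by norm_num)

private theorem B5Eo_C22 {β r t κ : ℝ} (hβ : 0 < β) (hr : 10 ≤ r) (hκ : κ = β * r) (hk1 : 0.6 ≤ κ) (hk2 : κ ≤ 0.7) (hta : 2.7642 ≤ t + κ)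
    (htb : t + κ ≤ 2.9283) : ‖F (cexp (I * β)) (r * cexp (I * ((t + β / 2 : ℝ) : ℂ)))‖ ≤
      2.5722 * Real.exp (r * (0.01 + 1 / 20)) :=
  v5_UD 0.6 0.7 2.7642 2.9283 0.01 0.5151 0.01 1.341 2.5722 hβ hr hκ (by norm_num) hk1 hk2 hta htb (by norm_num) (by norm_num) (by norm_num) (by norm_num) (by norm_num) (by norm_num) (by norm_num) (by norm_num) (by norm_num) (by norm_num) (by norm_num)

private theorem B5Eo_Y23 {β r t κ h t' : ℝ} (hβ : 0 < β) (hκ : κ = β * r) (hN : β * 14.285 ≤ 1) (hk1 : 0.6 ≤ κ) (hk2 : κ ≤ 0.7)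
    (ht : t' = t + (((1 : ℤ) : ℝ) - 1) * h) (hD : DomR κ t') (hta : 0.251 ≤ t' + κ) (htb : t' + κ ≤ 0.415) :
    0.8513 * Real.exp (r * sE κ t') ≤ ‖Xf β r h t 1‖ := by
  obtain ⟨⟨ya, yb⟩, ⟨xa, xb⟩, n1, Da, Db⟩ := B5Eo_B17 hD hk1 hk2 hta htb
  have J := B5Eo_T18 (x := sx κ t') (y := sy κ t') hβ hN (by linarith only [xa, xb, ya, yb]) (by linarith only [xa, xb, ya, yb]) (by linarith only [xa, xb, ya, yb]) (by linarith only [xa, xb, ya, yb])
  exact v5_Jlo hβ hκ (k := 1) ht hD 0.03 1.6849 0.8513 (by norm_num) J Db (by norm_num)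

private theorem B5Eo_V24 {κ t : ℝ} (hD : DomR κ t) (hk1 : 0.6 ≤ κ) (hk2 : κ ≤ 0.7) (hta : 0.251 ≤ t + κ) (htb : t + κ ≤ 0.415) :
    1.03421 - 0.2249 * (t + κ) ≤ sE κ t := by
  have hκ0 : 0 < κ := hD.1
  exact v5_V1 hD 0.6 0.7 0.251 0.415 0.0799 0.21532 0.26399 1.03421 0.2249 (by norm_num) hk1 hk2 (by norm_num) (by norm_num) hta htb (by norm_num) (clo5 0.6 0.7 0.26399 (by norm_num) hk1 hk2 (by norm_num) (by norm_num) (by norm_num))
      ((cup1 0.7 hκ0.le hk2 (by norm_num)).trans (by norm_num)) (by norm_num) (by norm_num) (by norm_num) (by norm_num) (by norm_num) (by norm_num)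

private theorem B5Eo_K25 {β r t κ h : ℝ} (hβ : 0 < β) (hr : 10 ≤ r) (hκ : κ = β * r) (hk1 : 0.6 ≤ κ) (hk2 : κ ≤ 0.7)
    (hh : h = 2 * Real.pi / 5) (hh1 : 1.25663 ≤ h) (hh2 : h ≤ 1.25664) (hta : 0.251 ≤ t + κ) (htb : t + κ ≤ 0.415)
    (hY : 0.8513 * Real.exp (r * sE κ t) ≤ ‖Xf β r h t 1‖) (hV : 1.03421 - 0.2249 * (t + κ) ≤ sE κ t) :
    ‖Xf β r h t 2‖ ≤ 0.0208 * ‖Xf β r h t 1‖ := by
  rw [v5_X 2 1 (by push_cast; ring)]
  exact v5_cmp 0.494 0.007269 0.0207 0.9408 0.00008215 0.0000145 0.0208 hr (B5Eo_C20 (t := t + 1 * h) hβ hr hκ hk1 hk2 (by linarith only [hta, htb, hh1, hh2]) (by linarith only [hta, htb, hh1, hh2])) hY (by norm_num) (by norm_num) (by norm_num) (by norm_num) (by linarith only [hV, hta, htb, hh1, hh2]) (ex_un 4 0.9399 (by norm_num) (by norm_num) (by norm_num) (by norm_num)) (by norm_num) (by norm_num) (by linarith only [hV, hta, htb, hh1, hh2]) (ex_un 9 0.4079 (by norm_num) (by norm_num) (by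 norm_num) (by norm_num)) (by norm_num) (by norm_num)

private theorem B5Eo_K26 {β r t κ h : ℝ} (hβ : 0 < β) (hr : 10 ≤ r) (hκ : κ = β * r) (hk1 : 0.6 ≤ κ) (hk2 : κ ≤ 0.7)
    (hh : h = 2 * Real.pi / 5) (hh1 : 1.25663 ≤ h) (hh2 : h ≤ 1.25664) (hta : 0.251 ≤ t + κ) (htb : t + κ ≤ 0.415)
    (hY : 0.8513 * Real.exp (r * sE κ t) ≤ ‖Xf β r h t 1‖) (hV : 1.03421 - 0.2249 * (t + κ) ≤ sE κ t) :
    ‖Xf β r h t (-1)‖ ≤ 0.000337 * ‖Xf β r h t 1‖ := by
  rw [v5_X (-1) (-2) (by push_cast; ring)]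
  exact v5_cmp 1.1276 0.00001268 0.0000203 0.8907 0.0001374 0.000316 0.000337 hr (B5Eo_C21 (t := t + (-2) * h) hβ hr hκ hk1 hk2 (by linarith only [hta, htb, hh1, hh2]) (by linarith only [hta, htb, hh1, hh2])) hY (by norm_num) (by norm_num) (by norm_num) (by norm_num) (by linarith only [hV, hta, htb, hh1, hh2]) (ex_un 11 0.2759 (by norm_num) (by norm_num) (by norm_num) (by norm_num)) (by norm_num) (by norm_num) (by linarith only [hV, hta, htb, hh1, hh2]) (ex_un 8 0.9069 (by norm_num) (by norm_num) (by norm_num) (by norm_num)) (by norm_num) (by norm_num)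

private theorem B5Eo_K27 {β r t κ h : ℝ} (hβ : 0 < β) (hr : 10 ≤ r) (hκ : κ = β * r) (hk1 : 0.6 ≤ κ) (hk2 : κ ≤ 0.7)
    (hh : h = 2 * Real.pi / 5) (hh1 : 1.25663 ≤ h) (hh2 : h ≤ 1.25664) (hta : 0.251 ≤ t + κ) (htb : t + κ ≤ 0.415)
    (hY : 0.8513 * Real.exp (r * sE κ t) ≤ ‖Xf β r h t 1‖) (hV : 1.03421 - 0.2249 * (t + κ) ≤ sE κ t) :
    ‖Xf β r h t (-2)‖ ≤ 0.000457 * ‖Xf β r h t 1‖ := by
  rw [v5_Xm2 hh]
  exact v5_cmp0 0.8808 0.000151 0.000457 hr (B5Eo_C22 (t := t + 2 * h) hβ hr hκ hk1 hk2 (by linarith only [hta, htb, hh1, hh2]) (by linarith only [hta, htb, hh1, hh2])) hY (by norm_num) (by norm_num) (by norm_num) (by linarith only [hV, hta, htb, hh1, hh2]) (ex_un 8 0.8079 (by norm_num) (by norm_num) (by norm_num) (by norm_num)) (by norm_num)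

private theorem B5Eo_C28 {β r t κ : ℝ} (hβ : 0 < β) (hr : 10 ≤ r) (hκ : κ = β * r) (hk1 : 0.6 ≤ κ) (hk2 : κ ≤ 0.7) (hta : (-1.0057) ≤ t + κ)
    (htb : t + κ ≤ (-0.8416)) : ‖F (cexp (I * β)) (r * cexp (I * ((t + β / 2 : ℝ) : ℂ)))‖ ≤
      1.3576 * Real.exp (r * (1.30296 - (-0.71) * (t + κ))) + 1.93 * Real.exp (r * 0.1419) :=
  v5_HU (-0.71) 0.6 0.7 (-1.0057) (-0.8416) 1.30296 1.3576 2.34432 0.1056 0.9879 3.0062 0.1293 0.1419 0.00000151 1.93 hβ hr hκ (by norm_num) hk1 hk2 hta htb (by norm_num) (by norm_num) (B5Eo_G13 hk1 hk2).1 (B5Eo_G13 hk1 hk2).2 (by norm_num) (by norm_num) (by norm_num)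
    (by norm_num) (by norm_num) (by norm_num) (by norm_num) (by norm_num) (by norm_num) (by norm_num)
    (by norm_num) (by norm_num) (by norm_num) (v5_hump 5.3507 14.285 3.7796 0.0000009316 0.00000151 hβ hr hκ hk1 hk2 (by norm_num) htb (by norm_num) (by norm_num) (by norm_num) (by norm_num) (by norm_num) (by norm_num) (by norm_num) (ex_un 13 0.9 (by norm_num) (by norm_num) (by norm_num) (by norm_num)) (by norm_num)) (by norm_num)

private theorem B5Eo_K29 {β r t κ h : ℝ} (hβ : 0 < β) (hr : 10 ≤ r) (hκ : κ = β * r) (hk1 : 0.6 ≤ κ) (hk2 : κ ≤ 0.7)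
    (hh : h = 2 * Real.pi / 5) (hh1 : 1.25663 ≤ h) (hh2 : h ≤ 1.25664) (hta : 0.251 ≤ t + κ) (htb : t + κ ≤ 0.415)
    (hY : 0.8513 * Real.exp (r * sE κ t) ≤ ‖Xf β r h t 1‖) (hV : 1.03421 - 0.2249 * (t + κ) ≤ sE κ t) :
    ‖Xf β r h t 0‖ ≤ 0.153 * ‖Xf β r h t 1‖ := by
  rw [v5_X 0 (-1) (by push_cast; ring)]
  exact v5_cmp 0.2354 0.09505 0.152 0.7989 0.0003456 0.000784 0.153 hr (B5Eo_C28 (t := t + (-1) * h) hβ hr hκ hk1 hk2 (by linarith only [hta, htb, hh1, hh2]) (by linarith only [hta, htb, hh1, hh2])) hY (by norm_num) (by norm_num) (by norm_num) (by norm_num) (by linarith only [hV, hta, htb, hh1, hh2]) (ex_un 2 0.3539 (by norm_num) (by norm_num) (by norm_num) (by norm_num)) (by norm_num) (by norm_num) (by linarith only [hV, hta, htb, hh1, hh2]) (ex_un 7 0.9889 (by norm_num) (by norm_num) (by norm_num) (by norm_num)) (by norm_num) (by norm_num)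

private theorem B5Eo_O30 {β r t κ h : ℝ} (hβ : 0 < β) (hr : 10 ≤ r) (hκ : κ = β * r) (hk1 : 0.6 ≤ κ) (hk2 : κ ≤ 0.7)
    (hh : h = 2 * Real.pi / 5) (hta : 0.251 ≤ t + κ) (htb : t + κ ≤ 0.415) :
    ‖Xf β r h t (-2)‖ + ‖Xf β r h t (-1)‖ + ‖Xf β r h t 2‖ < |‖Xf β r h t 1‖ - ‖Xf β r h t 0‖| := by
  obtain ⟨hh1, hh2⟩ := v5_h hh
  have hκ0 : 0 < κ := by linarith only [hk1]
  have hN : β * 14.285 ≤ 1 := v5_hN 0.7 14.285 hβ hr hκ hk2 (by norm_num) (by norm_num)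
  have hD1 : DomR κ t := v5_dom hκ0 (by linarith only [hta, htb, hk1, hk2, hh1, hh2]) (Or.inr (by linarith only [hta, htb, hk1, hk2, hh1, hh2]))
  have e1 : t = t + (((1 : ℤ) : ℝ) - 1) * h := by push_cast; ring
  have hY := B5Eo_Y23 (h := h) hβ hκ hN hk1 hk2 e1 hD1 hta htb
  have hV := B5Eo_V24 hD1 hk1 hk2 hta htb
  have cp2 := B5Eo_K25 hβ hr hκ hk1 hk2 hh hh1 hh2 hta htb hY hV
  have cm1 := B5Eo_K26 hβ hr hκ hk1 hk2 hh hh1 hh2 hta htb hY hV
  have cm2 := B5Eo_K27 hβ hr hκ hk1 hk2 hh hh1 hh2 hta htb hY hV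
  have cn0 := B5Eo_K29 hβ hr hκ hk1 hk2 hh hh1 hh2 hta htb hY hV
  have hp : 0 < ‖Xf β r h t 1‖ := lt_of_lt_of_le (by positivity) hY
  exact v5_out1 _ _ _ _ cm2 cm1 cp2 cn0 hp (by norm_num)

private theorem B5Eo_B31 {κ t : ℝ} (h : DomR κ t) (hk1 : 0.6 ≤ κ) (hk2 : κ ≤ 0.7) (ht1 : 0.415 ≤ t + κ) (ht2 : t + κ ≤ 0.5655) :
    (0.154 ≤ sy κ t ∧ sy κ t ≤ 0.215) ∧ (0.4334 ≤ sx κ t ∧ sx κ t ≤ 0.58) ∧ κ * Real.exp (-sy κ t) ≤ 0.6001 ∧ 1.5725 ≤ sD κ t ∧ sD κ t ≤ 1.7488 := by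
  have hy1 : 0.154 ≤ sy κ t := syR_ge h 0.6 0.7 0.415 0.154 1.16649 1.1665 0.25662 0.29941 hk1 hk2 (by linarith) (by norm_num) (by norm_num)
    (expn_ge (by norm_num) (by norm_num)) (expn_le (by norm_num) (by norm_num) (by norm_num)) (by norm_num)
    (by norm_num) (by norm_num) (by norm_num) (by norm_num) (by norm_num) (by norm_num)
  have hy2 : sy κ t ≤ 0.215 := syR_le h 0.6 0.7 0.5655 0.215 1.23986 0.3649 0.38081 0.44429 hk1 hk2 (by linarith) (by norm_num) (by norm_num)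
    (expn_ge (by norm_num) (by norm_num)) (by norm_num) (by norm_num) (Or.inr ((mul_le_mul_of_nonneg_left (expn_le (E := 1.23987) (by norm_num) (by norm_num) (by norm_num)) (by norm_num)).trans (by norm_num))) (by norm_num) (by norm_num) (by norm_num)
  have hy1' : 0.154 ≤ sy κ t := by linarith
  have hy2' : sy κ t ≤ 0.215 := by linarith
  have hx1 : 0.4334 ≤ sx κ t := sx_lo h 0.6 0.215 0.2151 0.80654 0.4334 hk1 (by norm_num) hy2' (abs_le.2 ⟨by linarith, by linarith⟩) (ex_lm 0.215 (by norm_num) (by norm_num) (by norm_num) (by norm_num) (by norm_num)) (by norm_num) (by norm_num)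
  have hx2 : sx κ t ≤ 0.58 := sx_hi h 0.7 0.154 0.154 0.85728 0.58 hk2 hy1' (by norm_num) (le_trans (by linarith) (le_abs_self _)) (ex_um 0.154 (by norm_num) (by norm_num) (by norm_num) (by norm_num)) (by norm_num) (by norm_num)
  refine ⟨⟨hy1', hy2'⟩, ⟨hx1, hx2⟩, v5_n h 0.7 0.154 0.85728 0.6001 hk2 hy1' (ex_um 0.154 (by norm_num) (by norm_num) (by norm_num) (by norm_num)) (by norm_num), ?_, ?_⟩
  · exact v5_Dlo h 0.6 0.154 0.215 0.154 0.85727 1.5725 (by norm_num) hk1 hy1' hy2' (ex_lm 0.154 (by norm_num) (by norm_num) (by norm_num) (by norm_num) (by norm_num)) (by norm_num) (by norm_num) (by norm_num) (by norm_num)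
  · exact v5_Dup h 0.7 0.154 0.215 0.85728 0.80655 1.7488 hk2 hy1' hy2' (ex_um 0.154 (by norm_num) (by norm_num) (by norm_num) (by norm_num)) (ex_um 0.215 (by norm_num) (by norm_num) (by norm_num) (by norm_num)) (by norm_num) (by norm_num) (by norm_num)

private theorem B5Eo_T32_0_0 {β x y : ℝ} (hβ : 0 < β) (hN : β * 14.285 ≤ 1) (hx1 : 0.4333 ≤ x) (hx2 : x ≤ 0.5801)
    (hy1 : -0 ≤ y) (hy2 : y ≤ 0.2151) : ‖HH β (x + y * I) - 1‖ ≤ 0.03 := by
  refine le_epsJ (C := 0.3928) (N0 := 14.285) (J_boxp 0.4333 0.5801 0 0.2151 0.2151 1.0151 0.6187 1.3465 1.1346 0.463 3.7796 14.285 0.6095 2.215 1.312 1.197 0.5075 0.4044 1.1566 3.7582 0.5435 1.078 1.5147 2.8833 0.0007109 0.003105 0.0000003101 0.0000003101 0.0004257 0.0000003101 0.0000003101 0.0000003101 0.3928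
    hβ hN hx1 hx2 hy1 hy2 (by norm_num) (by norm_num) (by linarith) (by norm_num) (by norm_num) (by norm_num) (by norm_num) (by norm_num) (by norm_num) (by norm_num) (by norm_num) (by norm_num) (by norm_num) (by norm_num) (by norm_num) (by norm_num) (by norm_num) (by norm_num) (by norm_num) (by norm_num) (by norm_num) (by norm_num) (by norm_num) (by norm_num)
    (cube_sqrt_geJ (s := 0.8926) (by norm_num) (by norm_num) (by norm_num) (by norm_num))
    (cube_sqrt_geJ (s := 0.9619) (by norm_num) (by norm_num) (by norm_num) (by norm_num))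
    (by norm_num) (by norm_num) (by norm_num) (by norm_num) (by norm_num) (by norm_num) (by norm_num) (by norm_num) (by norm_num) (by norm_num) (by norm_num) (by norm_num) (by norm_num) (by norm_num) (by norm_num) (by norm_num) (by norm_num) (by norm_num)
    (exp_neg_leJ (r := 0.249) 7 (by norm_num) (by norm_num) (by norm_num) (by norm_num))
    (exp_neg_leJ (r := 0.776) 5 (by norm_num) (by norm_num) (by norm_num) (by norm_num))
    (exp_neg_leJ (r := 0.99) 14 (by norm_num) (by norm_num) (by norm_num) (by norm_num))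
    (exp_neg_leJ (r := 0.99) 14 (by norm_num) (by norm_num) (by norm_num) (by norm_num))
    (exp_neg_leJ (r := 0.763) 7 (by norm_num) (by norm_num) (by norm_num) (by norm_num))
    (exp_neg_leJ (r := 0.99) 14 (by norm_num) (by norm_num) (by norm_num) (by norm_num))
    (exp_neg_leJ (r := 0.99) 14 (by norm_num) (by norm_num) (by norm_num) (by norm_num))
    (exp_neg_leJ (r := 0.99) 14 (by norm_num) (by norm_num) (by norm_num) (by norm_num))
    (by norm_num)) (by norm_num) hN hβ.le (by norm_num)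

private theorem B5Eo_T32 {β x y : ℝ} (hβ : 0 < β) (hN : β * 14.285 ≤ 1) (hx1 : 0.4333 ≤ x) (hx2 : x ≤ 0.5801)
    (hy1 : 0.1539 ≤ y) (hy2 : y ≤ 0.2151) : ‖HH β (x + y * I) - 1‖ ≤ 0.03 := by
  exact B5Eo_T32_0_0 hβ hN (by linarith) (by linarith) (by linarith) (by linarith)

private theorem B5Eo_G33 {κ : ℝ} (hk1 : 0.6 ≤ κ) (hk2 : κ ≤ 0.7) : gG κ 0.53 ≤ 1.2805 ∧ 0.47615 ≤ Real.exp (-(κ * 0.53)) ^ 2 := by
  refine ⟨gG_le 0.53 0.6 0.7 1.2805 0.72761 0.69005 1.37438 1.44919 hk1 hk2 (by norm_num)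
    (ex_um 0.318 (by norm_num) (by norm_num) (by norm_num) (by norm_num)) (ex_um 0.371 (by norm_num) (by norm_num) (by norm_num) (by norm_num))
    (ex_up 0.318 (by norm_num) (by norm_num) (by norm_num) (by norm_num)) (ex_up 0.371 (by norm_num) (by norm_num) (by norm_num) (by norm_num))
    (by norm_num) (by norm_num), ?_⟩
  exact v5_M 0.69004 (ex_lm 0.371 (by linarith) (by norm_num) (by norm_num) (by norm_num) (by norm_num)) (by norm_num) (by norm_num)

private theorem B5Eo_C34 {β r t κ : ℝ} (hβ : 0 < β) (hr : 10 ≤ r) (hκ : κ = β * r) (hk1 : 0.6 ≤ κ) (hk2 : κ ≤ 0.7) (hta : 1.6716 ≤ t + κ)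
    (htb : t + κ ≤ 1.8222) : ‖F (cexp (I * β)) (r * cexp (I * ((t + β / 2 : ℝ) : ℂ)))‖ ≤
      2.5203 * Real.exp (r * (1.2805 - 0.53 * (t + κ))) + 0.1472 * Real.exp (r * 0) :=
  v5_H 0.53 0.6 0.7 1.6716 1.8222 1.2805 2.3787 0.47615 0.1056 2.5422 0.3484 0.07697 0.467 0.00000151 2.5203 0.1472 hβ hr hκ (by norm_num) hk1 hk2 hta htb (by norm_num) (B5Eo_G33 hk1 hk2).1 (B5Eo_G33 hk1 hk2).2 (by norm_num) (by norm_num) (by norm_num)
    (by norm_num) (by norm_num) (by norm_num) (by norm_num) (by norm_num) (by norm_num) (by norm_num) (by norm_num) (ex_un 0 0.7696 (by norm_num) (by norm_num) (by norm_num) (by norm_num))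
    (v5_hump 2.6869 14.285 3.7796 0.0000009316 0.00000151 hβ hr hκ hk1 hk2 (by norm_num) htb (by norm_num) (by norm_num) (by norm_num) (by norm_num) (by norm_num) (by norm_num) (by norm_num) (ex_un 13 0.9 (by norm_num) (by norm_num) (by norm_num) (by norm_num)) (by norm_num)) (by norm_num) (by norm_num)

private theorem B5Eo_C35 {β r t κ : ℝ} (hβ : 0 < β) (hr : 10 ≤ r) (hκ : κ = β * r) (hk1 : 0.6 ≤ κ) (hk2 : κ ≤ 0.7) (hta : (-2.0983) ≤ t + κ)
    (htb : t + κ ≤ (-1.9477)) : ‖F (cexp (I * β)) (r * cexp (I * ((t + β / 2 : ℝ) : ℂ)))‖ ≤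
      1.3576 * Real.exp (r * (1.30296 - (-0.71) * (t + κ))) + 1.9501 * Real.exp (r * 0.0501) :=
  v5_HU (-0.71) 0.6 0.7 (-2.0983) (-1.9477) 1.30296 1.3576 2.34432 0.1056 0.9879 1.9136 0 0.0501 0.00000151 1.9501 hβ hr hκ (by norm_num) hk1 hk2 hta htb (by norm_num) (by norm_num) (B5Eo_G13 hk1 hk2).1 (B5Eo_G13 hk1 hk2).2 (by norm_num) (by norm_num) (by norm_num)
    (by norm_num) (by norm_num) (by norm_num) (by norm_num) (by norm_num) (by norm_num) (by norm_num)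
    (by norm_num) (by norm_num) (by norm_num) (v5_hump 6.4568 14.285 3.7796 0.0000009316 0.00000151 hβ hr hκ hk1 hk2 (by norm_num) htb (by norm_num) (by norm_num) (by norm_num) (by norm_num) (by norm_num) (by norm_num) (by norm_num) (ex_un 13 0.9 (by norm_num) (by norm_num) (by norm_num) (by norm_num)) (by norm_num)) (by norm_num)

private theorem B5Eo_C36 {β r t κ : ℝ} (hβ : 0 < β) (hr : 10 ≤ r) (hκ : κ = β * r) (hk1 : 0.6 ≤ κ) (hk2 : κ ≤ 0.7) (hta : 2.9282 ≤ t + κ)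
    (htb : t + κ ≤ 3.0788) : ‖F (cexp (I * β)) (r * cexp (I * ((t + β / 2 : ℝ) : ℂ)))‖ ≤
      2.5385 * Real.exp (r * (0.01 + 1 / 20)) :=
  v5_UD 0.6 0.7 2.9282 3.0788 0.01 0.5151 0.01 1.3234 2.5385 hβ hr hκ (by norm_num) hk1 hk2 hta htb (by norm_num) (by norm_num) (by norm_num) (by norm_num) (by norm_num) (by norm_num) (by norm_num) (by norm_num) (by norm_num) (by norm_num) (by norm_num)

private theorem B5Eo_Y37 {β r t κ h t' : ℝ} (hβ : 0 < β) (hκ : κ = β * r) (hN : β * 14.285 ≤ 1) (hk1 : 0.6 ≤ κ) (hk2 : κ ≤ 0.7)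
    (ht : t' = t + (((1 : ℤ) : ℝ) - 1) * h) (hD : DomR κ t') (hta : 0.415 ≤ t' + κ) (htb : t' + κ ≤ 0.5655) :
    0.8435 * Real.exp (r * sE κ t') ≤ ‖Xf β r h t 1‖ := by
  obtain ⟨⟨ya, yb⟩, ⟨xa, xb⟩, n1, Da, Db⟩ := B5Eo_B31 hD hk1 hk2 hta htb
  have J := B5Eo_T32 (x := sx κ t') (y := sy κ t') hβ hN (by linarith only [xa, xb, ya, yb]) (by linarith only [xa, xb, ya, yb]) (by linarith only [xa, xb, ya, yb]) (by linarith only [xa, xb, ya, yb])
  exact v5_Jlo hβ hκ (k := 1) ht hD 0.03 1.7488 0.8435 (by norm_num) J Db (by norm_num)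

private theorem B5Eo_V38 {κ t : ℝ} (hD : DomR κ t) (hk1 : 0.6 ≤ κ) (hk2 : κ ≤ 0.7) (hta : 0.415 ≤ t + κ) (htb : t + κ ≤ 0.5655) :
    1.07513 - 0.3253 * (t + κ) ≤ sE κ t := by
  have hκ0 : 0 < κ := hD.1
  exact v5_V1 hD 0.6 0.7 0.415 0.5655 0.06576 0.21532 0.26399 1.07513 0.3253 (by norm_num) hk1 hk2 (by norm_num) (by norm_num) hta htb (by norm_num) (clo5 0.6 0.7 0.26399 (by norm_num) hk1 hk2 (by norm_num) (by norm_num) (by norm_num))
      ((cup1 0.7 hκ0.le hk2 (by norm_num)).trans (by norm_num)) (by norm_num) (by norm_num) (by norm_num) (by norm_num) (by norm_num) (by norm_num)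

private theorem B5Eo_K39 {β r t κ h : ℝ} (hβ : 0 < β) (hr : 10 ≤ r) (hκ : κ = β * r) (hk1 : 0.6 ≤ κ) (hk2 : κ ≤ 0.7)
    (hh : h = 2 * Real.pi / 5) (hh1 : 1.25663 ≤ h) (hh2 : h ≤ 1.25664) (hta : 0.415 ≤ t + κ) (htb : t + κ ≤ 0.5655)
    (hY : 0.8435 * Real.exp (r * sE κ t) ≤ ‖Xf β r h t 1‖) (hV : 1.07513 - 0.3253 * (t + κ) ≤ sE κ t) :
    ‖Xf β r h t 2‖ ≤ 0.0129 * ‖Xf β r h t 1‖ := by
  rw [v5_X 2 1 (by push_cast; ring)]
  exact v5_cmp 0.5455 0.004281 0.0128 0.8911 0.0001369 0.0000239 0.0129 hr (B5Eo_C34 (t := t + 1 * h) hβ hr hκ hk1 hk2 (by linarith only [hta, htb, hh1, hh2]) (by linarith only [hta, htb, hh1, hh2])) hY (by norm_num) (by norm_num) (by norm_num) (by norm_num) (by linarith only [hV, hta, htb, hh1, hh2]) (ex_un 5 0.4549 (by norm_num) (by norm_num) (by norm_num) (by norm_num)) (by norm_num) (by norm_num) (by linarith only [hV, hta, htb, hh1, hh2]) (ex_un 8 0.9109 (by norm_num) (by norm_num)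 (by norm_num) (by norm_num)) (by norm_num) (by norm_num)

private theorem B5Eo_K40 {β r t κ h : ℝ} (hβ : 0 < β) (hr : 10 ≤ r) (hκ : κ = β * r) (hk1 : 0.6 ≤ κ) (hk2 : κ ≤ 0.7)
    (hh : h = 2 * Real.pi / 5) (hh1 : 1.25663 ≤ h) (hh2 : h ≤ 1.25664) (hta : 0.415 ≤ t + κ) (htb : t + κ ≤ 0.5655)
    (hY : 0.8435 * Real.exp (r * sE κ t) ≤ ‖Xf β r h t 1‖) (hV : 1.07513 - 0.3253 * (t + κ) ≤ sE κ t) :
    ‖Xf β r h t (-1)‖ ≤ 0.000615 * ‖Xf β r h t 1‖ := by
  rw [v5_X (-1) (-2) (by push_cast; ring)]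
  exact v5_cmp 0.9711 0.00006099 0.0000982 0.841 0.0002229 0.000516 0.000615 hr (B5Eo_C35 (t := t + (-2) * h) hβ hr hκ hk1 hk2 (by linarith only [hta, htb, hh1, hh2]) (by linarith only [hta, htb, hh1, hh2])) hY (by norm_num) (by norm_num) (by norm_num) (by norm_num) (by linarith only [hV, hta, htb, hh1, hh2]) (ex_un 9 0.7109 (by norm_num) (by norm_num) (by norm_num) (by norm_num)) (by norm_num) (by norm_num) (by linarith only [hV, hta, htb, hh1, hh2]) (ex_un 8 0.4099 (by norm_num) (by norm_num) (by norm_num) (by norm_num)) (by norm_num) (by norm_num)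

private theorem B5Eo_K41 {β r t κ h : ℝ} (hβ : 0 < β) (hr : 10 ≤ r) (hκ : κ = β * r) (hk1 : 0.6 ≤ κ) (hk2 : κ ≤ 0.7)
    (hh : h = 2 * Real.pi / 5) (hh1 : 1.25663 ≤ h) (hh2 : h ≤ 1.25664) (hta : 0.415 ≤ t + κ) (htb : t + κ ≤ 0.5655)
    (hY : 0.8435 * Real.exp (r * sE κ t) ≤ ‖Xf β r h t 1‖) (hV : 1.07513 - 0.3253 * (t + κ) ≤ sE κ t) :
    ‖Xf β r h t (-2)‖ ≤ 0.000741 * ‖Xf β r h t 1‖ := by
  rw [v5_Xm2 hh]
  exact v5_cmp0 0.8311 0.0002459 0.000741 hr (B5Eo_C36 (t := t + 2 * h) hβ hr hκ hk1 hk2 (by linarith only [hta, htb, hh1, hh2]) (by linarith only [hta, htb, hh1, hh2])) hY (by norm_num) (by norm_num) (by norm_num) (by linarith only [hV, hta, htb, hh1, hh2]) (ex_un 8 0.3109 (by norm_num) (by norm_num) (by norm_num) (by norm_num)) (by norm_num)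

private theorem B5Eo_G42 {κ : ℝ} (hk1 : 0.6 ≤ κ) (hk2 : κ ≤ 0.7) : gG κ (-0.62) ≤ 1.2359 ∧ 2.10432 ≤ Real.exp (-(κ * (-0.62))) ^ 2 := by
  refine ⟨gG_le (-0.62) 0.6 0.7 1.2359 1.45064 1.54342 0.68936 0.64792 hk1 hk2 (by norm_num)
    (ex_up 0.372 (by norm_num) (by norm_num) (by norm_num) (by norm_num)) (ex_up 0.434 (by norm_num) (by norm_num) (by norm_num) (by norm_num))
    (ex_um 0.372 (by norm_num) (by norm_num) (by norm_num) (by norm_num)) (ex_um 0.434 (by norm_num) (by norm_num) (by norm_num) (by norm_num))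
    (by norm_num) (by norm_num), ?_⟩
  exact v5_M 1.45063 (ex_lp 0.372 (by linarith) (by norm_num) (by norm_num)) (by norm_num) (by norm_num)

private theorem B5Eo_C43 {β r t κ : ℝ} (hβ : 0 < β) (hr : 10 ≤ r) (hκ : κ = β * r) (hk1 : 0.6 ≤ κ) (hk2 : κ ≤ 0.7) (hta : (-0.8417) ≤ t + κ)
    (htb : t + κ ≤ (-0.6911)) : ‖F (cexp (I * β)) (r * cexp (I * ((t + β / 2 : ℝ) : ℂ)))‖ ≤
      1.3807 * Real.exp (r * (1.2359 - (-0.62) * (t + κ))) + 1.866 * Real.exp (r * 0.2235) :=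
  v5_HU (-0.62) 0.6 0.7 (-0.8417) (-0.6911) 1.2359 1.3807 2.10432 0.1056 0.9879 3.1702 0.2798 0.2235 0.00000151 1.866 hβ hr hκ (by norm_num) hk1 hk2 hta htb (by norm_num) (by norm_num) (B5Eo_G42 hk1 hk2).1 (B5Eo_G42 hk1 hk2).2 (by norm_num) (by norm_num) (by norm_num)
    (by norm_num) (by norm_num) (by norm_num) (by norm_num) (by norm_num) (by norm_num) (by norm_num)
    (by norm_num) (by norm_num) (by norm_num) (v5_hump 5.2002 14.285 3.7796 0.0000009316 0.00000151 hβ hr hκ hk1 hk2 (by norm_num) htb (by norm_num) (by norm_num) (by norm_num) (by norm_num) (by norm_num) (by norm_num) (by norm_num) (ex_un 13 0.9 (by norm_num) (by norm_num) (by norm_num) (by norm_num)) (by norm_num)) (by norm_num)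

private theorem B5Eo_K44 {β r t κ h : ℝ} (hβ : 0 < β) (hr : 10 ≤ r) (hκ : κ = β * r) (hk1 : 0.6 ≤ κ) (hk2 : κ ≤ 0.7)
    (hh : h = 2 * Real.pi / 5) (hh1 : 1.25663 ≤ h) (hh2 : h ≤ 1.25664) (hta : 0.415 ≤ t + κ) (htb : t + κ ≤ 0.5655)
    (hY : 0.8435 * Real.exp (r * sE κ t) ≤ ‖Xf β r h t 1‖) (hV : 1.07513 - 0.3253 * (t + κ) ≤ sE κ t) :
    ‖Xf β r h t 0‖ ≤ 0.72 * ‖Xf β r h t 1‖ := by
  rw [v5_X 0 (-1) (by push_cast; ring)]
  exact v5_cmp 0.0837 0.4377 0.717 0.6676 0.001268 0.00281 0.72 hr (B5Eo_C43 (t := t + (-1) * h) hβ hr hκ hk1 hk2 (by linarith only [hta, htb, hh1, hh2]) (by linarith only [hta, htb, hh1, hh2])) hY (by norm_num) (by norm_num) (by norm_num) (by norm_num) (by linarith only [hV, hta, htb, hh1, hh2]) (ex_un 0 0.8369 (by norm_num) (by norm_num) (by norm_num) (by norm_num)) (by norm_num) (by norm_num) (by linarith only [hV, hta, htb, hh1, hh2]) (ex_un 6 0.6759 (by norm_num) (by norm_num) (by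 norm_num) (by norm_num)) (by norm_num) (by norm_num)

private theorem B5Eo_O45 {β r t κ h : ℝ} (hβ : 0 < β) (hr : 10 ≤ r) (hκ : κ = β * r) (hk1 : 0.6 ≤ κ) (hk2 : κ ≤ 0.7)
    (hh : h = 2 * Real.pi / 5) (hta : 0.415 ≤ t + κ) (htb : t + κ ≤ 0.5655) :
    ‖Xf β r h t (-2)‖ + ‖Xf β r h t (-1)‖ + ‖Xf β r h t 2‖ < |‖Xf β r h t 1‖ - ‖Xf β r h t 0‖| := by
  obtain ⟨hh1, hh2⟩ := v5_h hh
  have hκ0 : 0 < κ := by linarith only [hk1]
  have hN : β * 14.285 ≤ 1 := v5_hN 0.7 14.285 hβ hr hκ hk2 (by norm_num) (by norm_num)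
  have hD1 : DomR κ t := v5_dom hκ0 (by linarith only [hta, htb, hk1, hk2, hh1, hh2]) (Or.inr (by linarith only [hta, htb, hk1, hk2, hh1, hh2]))
  have e1 : t = t + (((1 : ℤ) : ℝ) - 1) * h := by push_cast; ring
  have hY := B5Eo_Y37 (h := h) hβ hκ hN hk1 hk2 e1 hD1 hta htb
  have hV := B5Eo_V38 hD1 hk1 hk2 hta htb
  have cp2 := B5Eo_K39 hβ hr hκ hk1 hk2 hh hh1 hh2 hta htb hY hV
  have cm1 := B5Eo_K40 hβ hr hκ hk1 hk2 hh hh1 hh2 hta htb hY hV
  have cm2 := B5Eo_K41 hβ hr hκ hk1 hk2 hh hh1 hh2 hta htb hY hV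
  have cn0 := B5Eo_K44 hβ hr hκ hk1 hk2 hh hh1 hh2 hta htb hY hV
  have hp : 0 < ‖Xf β r h t 1‖ := lt_of_lt_of_le (by positivity) hY
  exact v5_out1 _ _ _ _ cm2 cm1 cp2 cn0 hp (by norm_num)

private theorem B5Eo_B46 {κ t : ℝ} (h : DomR κ t) (hk1 : 0.6 ≤ κ) (hk2 : κ ≤ 0.7) (ht1 : (-0.4902) ≤ t + κ) (ht2 : t + κ ≤ (-0.3766)) :
    ((-0.281) ≤ sy κ t ∧ sy κ t ≤ (-0.196)) ∧ (0.6736 ≤ sx κ t ∧ sx κ t ≤ 0.9062) ∧ κ * Real.exp (-sy κ t) ≤ 0.9272 ∧ 1.0695 ≤ sD κ t ∧ sD κ t ≤ 1.3332 := by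
  have hy1 : -0.281 ≤ sy κ t := syL_ge h 0.6 0.7 0.4902 0.281 0.75502 0.75503 0.2904 0.30308 0.35361 hk1 hk2 (by linarith) (by norm_num) (by norm_num) (by norm_num)
    (expm_ge (by norm_num) (by norm_num) (by norm_num) (by norm_num)) (expm_le (by norm_num) (by norm_num) (by norm_num)) (by norm_num)
    (by norm_num) (by norm_num) (by norm_num) (by norm_num) (by norm_num) (by norm_num)
  have hy2 : sy κ t ≤ -0.196 := syL_le h 0.6 0.7 0.3766 0.196 0.82201 0.82202 0.23016 0.26853 hk1 hk2 (by linarith) (by norm_num) (by norm_num) (by norm_num)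
    (expm_ge (by norm_num) (by norm_num) (by norm_num) (by norm_num)) (expm_le (by norm_num) (by norm_num) (by norm_num)) (by norm_num)
    (by norm_num) (by norm_num) (by norm_num) (by norm_num) (by norm_num) (by norm_num)
  have hy1' : (-0.281) ≤ sy κ t := by linarith
  have hy2' : sy κ t ≤ (-0.196) := by linarith
  have hx1 : 0.6736 ≤ sx κ t := sx_lo h 0.6 (-0.196) 0.2811 1.21652 0.6736 hk1 (by norm_num) hy2' (abs_le.2 ⟨by linarith, by linarith⟩) (ex_lp 0.196 (by norm_num) (by norm_num) (by norm_num)) (by norm_num) (by norm_num)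
  have hx2 : sx κ t ≤ 0.9062 := sx_hi h 0.7 (-0.281) 0.196 1.32446 0.9062 hk2 hy1' (by norm_num) (le_trans (by linarith) (neg_le_abs _)) (ex_up 0.281 (by norm_num) (by norm_num) (by norm_num) (by norm_num)) (by norm_num) (by norm_num)
  refine ⟨⟨hy1', hy2'⟩, ⟨hx1, hx2⟩, v5_n h 0.7 (-0.281) 1.32446 0.9272 hk2 hy1' (ex_up 0.281 (by norm_num) (by norm_num) (by norm_num) (by norm_num)) (by norm_num), ?_, ?_⟩
  · exact v5_Dlo h 0.6 (-0.281) (-0.196) (-0.281) 1.32445 1.0695 (by norm_num) hk1 hy1' hy2' (ex_lp 0.281 (by norm_num) (by norm_num) (by norm_num)) (by norm_num) (by norm_num) (by norm_num) (by norm_num)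
  · exact v5_Dup h 0.7 (-0.281) (-0.196) 1.32446 1.21653 1.3332 hk2 hy1' hy2' (ex_up 0.281 (by norm_num) (by norm_num) (by norm_num) (by norm_num)) (ex_up 0.196 (by norm_num) (by norm_num) (by norm_num) (by norm_num)) (by norm_num) (by norm_num) (by norm_num)

private theorem B5Eo_T47_0_0 {β x y : ℝ} (hβ : 0 < β) (hN : β * 14.285 ≤ 1) (hx1 : 0.6735 ≤ x) (hx2 : x ≤ 0.759)
    (hy1 : -0.2811 ≤ y) (hy2 : y ≤ -0.1959) : ‖HH β (x + y * I) - 1‖ ≤ 0.05 := by
  refine le_epsJ (C := 0.7142) (N0 := 14.285) (J_boxp 0.6735 0.759 0.2811 0 (-0.1959) 0.9847 0.8094 1.1058 1.0762 0.4196 3.7796 14.285 0.822 3.068 1.45 0.8687 0.4923 0.3574 0.7951 2.7694 0.5285 1.4325 2.1535 3.8589 0.0008832 0.006067 0.00001168 0.0000003101 0.0005268 0.0000003101 0.0000003101 0.0000003101 0.7142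
    hβ hN hx1 hx2 hy1 hy2 (by norm_num) (by norm_num) (by linarith) (by norm_num) (by norm_num) (by norm_num) (by norm_num) (by norm_num) (by norm_num) (by norm_num) (by norm_num) (by norm_num) (by norm_num) (by norm_num) (by norm_num) (by norm_num) (by norm_num) (by norm_num) (by norm_num) (by norm_num) (by norm_num) (by norm_num) (by norm_num) (by norm_num)
    (cube_sqrt_geJ (s := 0.852) (by norm_num) (by norm_num) (by norm_num) (by norm_num))
    (cube_sqrt_geJ (s := 0.9483) (by norm_num) (by norm_num) (by norm_num) (by norm_num))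
    (by norm_num) (by norm_num) (by norm_num) (by norm_num) (by norm_num) (by norm_num) (by norm_num) (by norm_num) (by norm_num) (by norm_num) (by norm_num) (by norm_num) (by norm_num) (by norm_num) (by norm_num) (by norm_num) (by norm_num) (by norm_num)
    (exp_neg_leJ (r := 0.032) 7 (by norm_num) (by norm_num) (by norm_num) (by norm_num))
    (exp_neg_leJ (r := 0.105) 5 (by norm_num) (by norm_num) (by norm_num) (by norm_num))
    (exp_neg_leJ (r := 0.358) 11 (by norm_num) (by norm_num) (by norm_num) (by norm_num))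
    (exp_neg_leJ (r := 0.99) 14 (by norm_num) (by norm_num) (by norm_num) (by norm_num))
    (exp_neg_leJ (r := 0.549) 7 (by norm_num) (by norm_num) (by norm_num) (by norm_num))
    (exp_neg_leJ (r := 0.99) 14 (by norm_num) (by norm_num) (by norm_num) (by norm_num))
    (exp_neg_leJ (r := 0.99) 14 (by norm_num) (by norm_num) (by norm_num) (by norm_num))
    (exp_neg_leJ (r := 0.99) 14 (by norm_num) (by norm_num) (by norm_num) (by norm_num))
    (by norm_num)) (by norm_num) hN hβ.le (by norm_num)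

private theorem B5Eo_T47_0_1 {β x y : ℝ} (hβ : 0 < β) (hN : β * 14.285 ≤ 1) (hx1 : 0.759 ≤ x) (hx2 : x ≤ 0.848)
    (hy1 : -0.2811 ≤ y) (hy2 : y ≤ -0.1959) : ‖HH β (x + y * I) - 1‖ ≤ 0.05 := by
  refine le_epsJ (C := 0.7142) (N0 := 14.285) (J_boxp 0.759 0.848 0.2811 0 (-0.1959) 1.0449 0.8934 1.1687 1.0122 0.4313 3.7796 14.285 0.8551 3.237 1.473 0.8344 0.5224 0.3735 0.8243 2.7193 0.5701 1.5509 2.3245 3.8015 0.0005746 0.004821 0.000007705 0.0000003101 0.0002908 0.0000003101 0.0000003101 0.0000003101 0.7142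
    hβ hN hx1 hx2 hy1 hy2 (by norm_num) (by norm_num) (by linarith) (by norm_num) (by norm_num) (by norm_num) (by norm_num) (by norm_num) (by norm_num) (by norm_num) (by norm_num) (by norm_num) (by norm_num) (by norm_num) (by norm_num) (by norm_num) (by norm_num) (by norm_num) (by norm_num) (by norm_num) (by norm_num) (by norm_num) (by norm_num) (by norm_num)
    (cube_sqrt_geJ (s := 0.8455) (by norm_num) (by norm_num) (by norm_num) (by norm_num))
    (cube_sqrt_geJ (s := 0.9462) (by norm_num) (by norm_num) (by norm_num) (by norm_num))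
    (by norm_num) (by norm_num) (by norm_num) (by norm_num) (by norm_num) (by norm_num) (by norm_num) (by norm_num) (by norm_num) (by norm_num) (by norm_num) (by norm_num) (by norm_num) (by norm_num) (by norm_num) (by norm_num) (by norm_num) (by norm_num)
    (exp_neg_leJ (r := 0.462) 7 (by norm_num) (by norm_num) (by norm_num) (by norm_num))
    (exp_neg_leJ (r := 0.335) 5 (by norm_num) (by norm_num) (by norm_num) (by norm_num))
    (exp_neg_leJ (r := 0.775) 11 (by norm_num) (by norm_num) (by norm_num) (by norm_num))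
    (exp_neg_leJ (r := 0.99) 14 (by norm_num) (by norm_num) (by norm_num) (by norm_num))
    (exp_neg_leJ (r := 0.143) 8 (by norm_num) (by norm_num) (by norm_num) (by norm_num))
    (exp_neg_leJ (r := 0.99) 14 (by norm_num) (by norm_num) (by norm_num) (by norm_num))
    (exp_neg_leJ (r := 0.99) 14 (by norm_num) (by norm_num) (by norm_num) (by norm_num))
    (exp_neg_leJ (r := 0.99) 14 (by norm_num) (by norm_num) (by norm_num) (by norm_num))
    (by norm_num)) (by norm_num) hN hβ.le (by norm_num)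

private theorem B5Eo_T47_0_2 {β x y : ℝ} (hβ : 0 < β) (hN : β * 14.285 ≤ 1) (hx1 : 0.848 ≤ x) (hx2 : x ≤ 0.9063)
    (hy1 : -0.2811 ≤ y) (hy2 : y ≤ -0.1959) : ‖HH β (x + y * I) - 1‖ ≤ 0.05 := by
  refine le_epsJ (C := 0.6522) (N0 := 14.285) (J_boxp 0.848 0.9063 0.2811 0 (-0.1959) 1.1075 0.9489 1.2116 0.9445 0.4392 3.7796 14.285 0.8568 3.246 1.475 0.812 0.5537 0.3955 0.8548 2.6863 0.6133 1.6741 2.5025 3.8287 0.0003684 0.003524 0.000004981 0.0000003101 0.0001571 0.0000003101 0.0000003101 0.0000003101 0.6522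
    hβ hN hx1 hx2 hy1 hy2 (by norm_num) (by norm_num) (by linarith) (by norm_num) (by norm_num) (by norm_num) (by norm_num) (by norm_num) (by norm_num) (by norm_num) (by norm_num) (by norm_num) (by norm_num) (by norm_num) (by norm_num) (by norm_num) (by norm_num) (by norm_num) (by norm_num) (by norm_num) (by norm_num) (by norm_num) (by norm_num) (by norm_num)
    (cube_sqrt_geJ (s := 0.8452) (by norm_num) (by norm_num) (by norm_num) (by norm_num))
    (cube_sqrt_geJ (s := 0.946) (by norm_num) (by norm_num) (by norm_num) (by norm_num))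
    (by norm_num) (by norm_num) (by norm_num) (by norm_num) (by norm_num) (by norm_num) (by norm_num) (by norm_num) (by norm_num) (by norm_num) (by norm_num) (by norm_num) (by norm_num) (by norm_num) (by norm_num) (by norm_num) (by norm_num) (by norm_num)
    (exp_neg_leJ (r := 0.909) 7 (by norm_num) (by norm_num) (by norm_num) (by norm_num))
    (exp_neg_leJ (r := 0.649) 5 (by norm_num) (by norm_num) (by norm_num) (by norm_num))
    (exp_neg_leJ (r := 0.21) 12 (by norm_num) (by norm_num) (by norm_num) (by norm_num))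
    (exp_neg_leJ (r := 0.99) 14 (by norm_num) (by norm_num) (by norm_num) (by norm_num))
    (exp_neg_leJ (r := 0.76) 8 (by norm_num) (by norm_num) (by norm_num) (by norm_num))
    (exp_neg_leJ (r := 0.99) 14 (by norm_num) (by norm_num) (by norm_num) (by norm_num))
    (exp_neg_leJ (r := 0.99) 14 (by norm_num) (by norm_num) (by norm_num) (by norm_num))
    (exp_neg_leJ (r := 0.99) 14 (by norm_num) (by norm_num) (by norm_num) (by norm_num))
    (by norm_num)) (by norm_num) hN hβ.le (by norm_num)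

private theorem B5Eo_T47 {β x y : ℝ} (hβ : 0 < β) (hN : β * 14.285 ≤ 1) (hx1 : 0.6735 ≤ x) (hx2 : x ≤ 0.9063)
    (hy1 : (-0.2811) ≤ y) (hy2 : y ≤ (-0.1959)) : ‖HH β (x + y * I) - 1‖ ≤ 0.05 := by
  rcases le_total x 0.759 with hxx | hxx
  · exact B5Eo_T47_0_0 hβ hN (by linarith) (by linarith) (by linarith) (by linarith)
  rcases le_total x 0.848 with hxx | hxx
  · exact B5Eo_T47_0_1 hβ hN (by linarith) (by linarith) (by linarith) (by linarith)
  exact B5Eo_T47_0_2 hβ hN (by linarith) (by linarith) (by linarith) (by linarith)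

private theorem B5Eo_G48 {κ : ℝ} (hk1 : 0.6 ≤ κ) (hk2 : κ ≤ 0.7) : gG κ 0.57 ≤ 1.33718 ∧ 0.45022 ≤ Real.exp (-(κ * 0.57)) ^ 2 := by
  refine ⟨gG_le 0.57 0.6 0.7 1.33718 0.71035 0.671 1.40777 1.49034 hk1 hk2 (by norm_num)
    (ex_um 0.342 (by norm_num) (by norm_num) (by norm_num) (by norm_num)) (ex_um 0.399 (by norm_num) (by norm_num) (by norm_num) (by norm_num))
    (ex_up 0.342 (by norm_num) (by norm_num) (by norm_num) (by norm_num)) (ex_up 0.399 (by norm_num) (by norm_num) (by norm_num) (by norm_num))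
    (by norm_num) (by norm_num), ?_⟩
  exact v5_M 0.67099 (ex_lm 0.399 (by linarith) (by norm_num) (by norm_num) (by norm_num) (by norm_num)) (by norm_num) (by norm_num)

private theorem B5Eo_C49 {β r t κ : ℝ} (hβ : 0 < β) (hr : 10 ≤ r) (hκ : κ = β * r) (hk1 : 0.6 ≤ κ) (hk2 : κ ≤ 0.7) (hta : 2.0231 ≤ t + κ)
    (htb : t + κ ≤ 2.1367) : ‖F (cexp (I * β)) (r * cexp (I * ((t + β / 2 : ℝ) : ℂ)))‖ ≤
      4.6898 * Real.exp (r * (1.33718 - 0.57 * (t + κ))) + 0.1421 * Real.exp (r * 0) :=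
  v5_H 0.57 0.6 0.7 2.0231 2.1367 1.33718 2.6575 0.45022 0.1056 2.8937 0.0339 0.04282 0.6524 0.00000151 4.6898 0.1421 hβ hr hκ (by norm_num) hk1 hk2 hta htb (by norm_num) (B5Eo_G48 hk1 hk2).1 (B5Eo_G48 hk1 hk2).2 (by norm_num) (by norm_num) (by norm_num)
    (by norm_num) (by norm_num) (by norm_num) (by norm_num) (by norm_num) (by norm_num) (by norm_num) (by norm_num) (ex_un 0 0.4281 (by norm_num) (by norm_num) (by norm_num) (by norm_num))
    (v5_hump 2.3724 14.285 3.7796 0.0000009316 0.00000151 hβ hr hκ hk1 hk2 (by norm_num) htb (by norm_num) (by norm_num) (by norm_num) (by norm_num) (by norm_num) (by norm_num) (by norm_num) (ex_un 13 0.9 (by norm_num) (by norm_num) (by norm_num) (by norm_num)) (by norm_num)) (by norm_num) (by norm_num)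

private theorem B5Eo_C50 {β r t κ : ℝ} (hβ : 0 < β) (hr : 10 ≤ r) (hκ : κ = β * r) (hk1 : 0.6 ≤ κ) (hk2 : κ ≤ 0.7) (hta : (-1.7468) ≤ t + κ)
    (htb : t + κ ≤ (-1.6332)) : ‖F (cexp (I * β)) (r * cexp (I * ((t + β / 2 : ℝ) : ℂ)))‖ ≤
      1.3576 * Real.exp (r * (1.30296 - (-0.71) * (t + κ))) + 1.9415 * Real.exp (r * 0.0501) :=
  v5_HU (-0.71) 0.6 0.7 (-1.7468) (-1.6332) 1.30296 1.3576 2.34432 0.1056 0.9879 2.2651 0 0.0501 0.00000151 1.9415 hβ hr hκ (by norm_num) hk1 hk2 hta htb (by norm_num) (by norm_num) (B5Eo_G13 hk1 hk2).1 (B5Eo_G13 hk1 hk2).2 (by norm_num) (by norm_num) (by norm_num)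
    (by norm_num) (by norm_num) (by norm_num) (by norm_num) (by norm_num) (by norm_num) (by norm_num)
    (by norm_num) (by norm_num) (by norm_num) (v5_hump 6.1423 14.285 3.7796 0.0000009316 0.00000151 hβ hr hκ hk1 hk2 (by norm_num) htb (by norm_num) (by norm_num) (by norm_num) (by norm_num) (by norm_num) (by norm_num) (by norm_num) (ex_un 13 0.9 (by norm_num) (by norm_num) (by norm_num) (by norm_num)) (by norm_num)) (by norm_num)

private theorem B5Eo_C51 {β r t κ : ℝ} (hβ : 0 < β) (hr : 10 ≤ r) (hκ : κ = β * r) (hk1 : 0.6 ≤ κ) (hk2 : κ ≤ 0.7) (hta : 3.2797 ≤ t + κ)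
    (htb : t + κ ≤ 3.3933) : ‖F (cexp (I * β)) (r * cexp (I * ((t + β / 2 : ℝ) : ℂ)))‖ ≤
      2.5026 * Real.exp (r * (0.01 + 1 / 20)) :=
  v5_UD 0.6 0.7 3.2797 3.3933 0.01 0.5151 0.01 1.3047 2.5026 hβ hr hκ (by norm_num) hk1 hk2 hta htb (by norm_num) (by norm_num) (by norm_num) (by norm_num) (by norm_num) (by norm_num) (by norm_num) (by norm_num) (by norm_num) (by norm_num) (by norm_num)

private theorem B5Eo_Y52 {β r t κ h t' : ℝ} (hβ : 0 < β) (hκ : κ = β * r) (hN : β * 14.285 ≤ 1) (hk1 : 0.6 ≤ κ) (hk2 : κ ≤ 0.7)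
    (ht : t' = t + (((0 : ℤ) : ℝ) - 1) * h) (hD : DomR κ t') (hta : (-0.4902) ≤ t' + κ) (htb : t' + κ ≤ (-0.3766)) :
    0.884 * Real.exp (r * sE κ t') ≤ ‖Xf β r h t 0‖ := by
  obtain ⟨⟨ya, yb⟩, ⟨xa, xb⟩, n1, Da, Db⟩ := B5Eo_B46 hD hk1 hk2 hta htb
  have J := B5Eo_T47 (x := sx κ t') (y := sy κ t') hβ hN (by linarith only [xa, xb, ya, yb]) (by linarith only [xa, xb, ya, yb]) (by linarith only [xa, xb, ya, yb]) (by linarith only [xa, xb, ya, yb])
  exact v5_Jlo hβ hκ (k := 0) ht hD 0.05 1.3332 0.884 (by norm_num) J Db (by norm_num)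

private theorem B5Eo_V53 {κ t : ℝ} (hD : DomR κ t) (hk1 : 0.6 ≤ κ) (hk2 : κ ≤ 0.7) (hta : (-0.4902) ≤ t + κ) (htb : t + κ ≤ (-0.3766)) :
    1.08017 + 0.3765 * (t + κ) ≤ sE κ t := by
  have hκ0 : 0 < κ := hD.1
  exact v5_V0 hD 0.6 0.7 (-0.4902) (-0.3766) 0.4903 0.5908 0.15833 0.09545 0.39755 0.51471 1.08017 0.3765 (by norm_num) hk1 hk2 (by norm_num) hta htb (by norm_num) (by norm_num) (by norm_num) ((cup1 0.7 hκ0.le hk2 (by norm_num)).trans (by norm_num))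
      (by norm_num) (by norm_num) (by norm_num) (by norm_num) (by norm_num) (by norm_num) (by norm_num) (by norm_num) (by norm_num) (by norm_num) (by norm_num) (by norm_num) (by norm_num)

private theorem B5Eo_K54 {β r t κ h : ℝ} (hβ : 0 < β) (hr : 10 ≤ r) (hκ : κ = β * r) (hk1 : 0.6 ≤ κ) (hk2 : κ ≤ 0.7)
    (hh : h = 2 * Real.pi / 5) (hh1 : 1.25663 ≤ h) (hh2 : h ≤ 1.25664) (hta : 0.7665 ≤ t + κ) (htb : t + κ ≤ 0.88)
    (hY : 0.884 * Real.exp (r * sE κ (t - h)) ≤ ‖Xf β r h t 0‖) (hV : 1.08017 + 0.3765 * (t - h + κ) ≤ sE κ (t - h)) :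
    ‖Xf β r h t 2‖ ≤ 0.00434 * ‖Xf β r h t 0‖ := by
  rw [v5_X 2 1 (by push_cast; ring)]
  exact v5_cmp 0.7116 0.0008121 0.00431 0.8956 0.0001312 0.0000211 0.00434 hr (B5Eo_C49 (t := t + 1 * h) hβ hr hκ hk1 hk2 (by linarith only [hta, htb, hh1, hh2]) (by linarith only [hta, htb, hh1, hh2])) hY (by norm_num) (by norm_num) (by norm_num) (by norm_num) (by linarith only [hV, hta, htb, hh1, hh2]) (ex_un 7 0.1159 (by norm_num) (by norm_num) (by norm_num) (by norm_num)) (by norm_num) (by norm_num) (by linarith only [hV, hta, htb, hh1, hh2]) (ex_un 8 0.9559 (by norm_num) (by norm_num) (by norm_num) (by norm_num)) (by norm_num) (by norm_num)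

private theorem B5Eo_K55 {β r t κ h : ℝ} (hβ : 0 < β) (hr : 10 ≤ r) (hκ : κ = β * r) (hk1 : 0.6 ≤ κ) (hk2 : κ ≤ 0.7)
    (hh : h = 2 * Real.pi / 5) (hh1 : 1.25663 ≤ h) (hh2 : h ≤ 1.25664) (hta : 0.7665 ≤ t + κ) (htb : t + κ ≤ 0.88)
    (hY : 0.884 * Real.exp (r * sE κ (t - h)) ≤ ‖Xf β r h t 0‖) (hV : 1.08017 + 0.3765 * (t - h + κ) ≤ sE κ (t - h)) :
    ‖Xf β r h t (-1)‖ ≤ 0.00103 * ‖Xf β r h t 0‖ := by
  rw [v5_X (-1) (-2) (by push_cast; ring)]
  exact v5_cmp 0.795 0.0003585 0.000551 0.8455 0.0002132 0.000469 0.00103 hr (B5Eo_C50 (t := t + (-2) * h) hβ hr hκ hk1 hk2 (by linarith only [hta, htb, hh1, hh2]) (by linarith only [hta, htb, hh1, hh2])) hY (by norm_num) (by norm_num) (by norm_num) (by norm_num) (by linarith only [hV, hta, htb, hh1, hh2]) (ex_un 7 0.9499 (by norm_num) (by norm_num) (by norm_num) (by norm_num)) (by norm_num) (by norm_num) (by linarith only [hV, hta, htb, hh1, hh2]) (ex_un 8 0.4549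 (by norm_num) (by norm_num) (by norm_num) (by norm_num)) (by norm_num) (by norm_num)

private theorem B5Eo_K56 {β r t κ h : ℝ} (hβ : 0 < β) (hr : 10 ≤ r) (hκ : κ = β * r) (hk1 : 0.6 ≤ κ) (hk2 : κ ≤ 0.7)
    (hh : h = 2 * Real.pi / 5) (hh1 : 1.25663 ≤ h) (hh2 : h ≤ 1.25664) (hta : 0.7665 ≤ t + κ) (htb : t + κ ≤ 0.88)
    (hY : 0.884 * Real.exp (r * sE κ (t - h)) ≤ ‖Xf β r h t 0‖) (hV : 1.08017 + 0.3765 * (t - h + κ) ≤ sE κ (t - h)) :
    ‖Xf β r h t (-2)‖ ≤ 0.000666 * ‖Xf β r h t 0‖ := by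
  rw [v5_Xm2 hh]
  exact v5_cmp0 0.8356 0.0002352 0.000666 hr (B5Eo_C51 (t := t + 2 * h) hβ hr hκ hk1 hk2 (by linarith only [hta, htb, hh1, hh2]) (by linarith only [hta, htb, hh1, hh2])) hY (by norm_num) (by norm_num) (by norm_num) (by linarith only [hV, hta, htb, hh1, hh2]) (ex_un 8 0.3559 (by norm_num) (by norm_num) (by norm_num) (by norm_num)) (by norm_num)

private theorem B5Eo_G57 {κ : ℝ} (hk1 : 0.6 ≤ κ) (hk2 : κ ≤ 0.7) : gG κ 0.38 ≤ 1.12905 ∧ 0.58741 ≤ Real.exp (-(κ * 0.38)) ^ 2 := by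
  refine ⟨gG_le 0.38 0.6 0.7 1.12905 0.79613 0.76644 1.25609 1.30474 hk1 hk2 (by norm_num)
    (ex_um 0.228 (by norm_num) (by norm_num) (by norm_num) (by norm_num)) (ex_um 0.266 (by norm_num) (by norm_num) (by norm_num) (by norm_num))
    (ex_up 0.228 (by norm_num) (by norm_num) (by norm_num) (by norm_num)) (ex_up 0.266 (by norm_num) (by norm_num) (by norm_num) (by norm_num))
    (by norm_num) (by norm_num), ?_⟩
  exact v5_M 0.76643 (ex_lm 0.266 (by linarith) (by norm_num) (by norm_num) (by norm_num) (by norm_num)) (by norm_num) (by norm_num)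

private theorem B5Eo_B58 {κ t : ℝ} (h : DomR κ t) (hk1 : 0.6 ≤ κ) (hk2 : κ ≤ 0.7) (ht1 : 0.7664 ≤ t + κ) (ht2 : t + κ ≤ 0.8801) :
    (0.248 ≤ sy κ t ∧ sy κ t ≤ 0.299) ∧ (0.3293 ≤ sx κ t ∧ sx κ t ≤ 0.4868) ∧ κ * Real.exp (-sy κ t) ≤ 0.5463 ∧ 1.7152 ≤ sD κ t ∧ sD κ t ≤ 1.8675 := by
  have hy1 : 0.248 ≤ sy κ t := syR_ge h 0.6 0.7 0.7664 0.248 1.28145 1.28146 0.45399 0.52968 hk1 hk2 (by linarith) (by norm_num) (by norm_num)
    (expn_ge (by norm_num) (by norm_num)) (expn_le (by norm_num) (by norm_num) (by norm_num)) (by norm_num)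
    (by norm_num) (by norm_num) (by norm_num) (by norm_num) (by norm_num) (by norm_num)
  have hy2 : sy κ t ≤ 0.299 := syR_le h 0.6 0.7 0.8801 0.299 1.3485 0.5519 0.576 0.67201 hk1 hk2 (by linarith) (by norm_num) (by norm_num)
    (expn_ge (by norm_num) (by norm_num)) (by norm_num) (by norm_num) (Or.inr ((mul_le_mul_of_nonneg_left (expn_le (E := 1.34851) (by norm_num) (by norm_num) (by norm_num)) (by norm_num)).trans (by norm_num))) (by norm_num) (by norm_num) (by norm_num)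
  have hy1' : 0.248 ≤ sy κ t := by linarith
  have hy2' : sy κ t ≤ 0.299 := by linarith
  have hx1 : 0.3293 ≤ sx κ t := sx_lo h 0.6 0.299 0.2991 0.74155 0.3293 hk1 (by norm_num) hy2' (abs_le.2 ⟨by linarith, by linarith⟩) (ex_lm 0.299 (by norm_num) (by norm_num) (by norm_num) (by norm_num) (by norm_num)) (by norm_num) (by norm_num)
  have hx2 : sx κ t ≤ 0.4868 := sx_hi h 0.7 0.248 0.248 0.78036 0.4868 hk2 hy1' (by norm_num) (le_trans (by linarith) (le_abs_self _)) (ex_um 0.248 (by norm_num) (by norm_num) (by norm_num) (by norm_num)) (by norm_num) (by norm_num)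
  refine ⟨⟨hy1', hy2'⟩, ⟨hx1, hx2⟩, v5_n h 0.7 0.248 0.78036 0.5463 hk2 hy1' (ex_um 0.248 (by norm_num) (by norm_num) (by norm_num) (by norm_num)) (by norm_num), ?_, ?_⟩
  · exact v5_Dlo h 0.6 0.248 0.299 0.248 0.78035 1.7152 (by norm_num) hk1 hy1' hy2' (ex_lm 0.248 (by norm_num) (by norm_num) (by norm_num) (by norm_num) (by norm_num)) (by norm_num) (by norm_num) (by norm_num) (by norm_num)
  · exact v5_Dup h 0.7 0.248 0.299 0.78036 0.74156 1.8675 hk2 hy1' hy2' (ex_um 0.248 (by norm_num) (by norm_num) (by norm_num) (by norm_num)) (ex_um 0.299 (by norm_num) (by norm_num) (by norm_num) (by norm_num)) (by norm_num) (by norm_num) (by norm_num)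

private theorem B5Eo_T59_0_0 {β x y : ℝ} (hβ : 0 < β) (hN : β * 14.285 ≤ 1) (hx1 : 0.3292 ≤ x) (hx2 : x ≤ 0.45)
    (hy1 : -0 ≤ y) (hy2 : y ≤ 0.2991) : ‖HH β (x + y * I) - 1‖ ≤ 0.03 := by
  refine le_epsJ (C := 0.4275) (N0 := 14.285) (J_boxp 0.3292 0.45 0 0.2991 0.2991 0.9418 0.5404 1.3749 1.283 0.4678 3.7796 14.285 0.5738 2.103 1.291 1.247 0.4708 0.3808 1.1209 3.8195 0.4844 0.9253 0.9462 2.4921 0.001202 0.004345 0.0000003101 0.0000003101 0.0009914 0.00000182 0.00000135 0.0000003101 0.4275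
    hβ hN hx1 hx2 hy1 hy2 (by norm_num) (by norm_num) (by linarith) (by norm_num) (by norm_num) (by norm_num) (by norm_num) (by norm_num) (by norm_num) (by norm_num) (by norm_num) (by norm_num) (by norm_num) (by norm_num) (by norm_num) (by norm_num) (by norm_num) (by norm_num) (by norm_num) (by norm_num) (by norm_num) (by norm_num) (by norm_num) (by norm_num)
    (cube_sqrt_geJ (s := 0.8992) (by norm_num) (by norm_num) (by norm_num) (by norm_num))
    (cube_sqrt_geJ (s := 0.9642) (by norm_num) (by norm_num) (by norm_num) (by norm_num))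
    (by norm_num) (by norm_num) (by norm_num) (by norm_num) (by norm_num) (by norm_num) (by norm_num) (by norm_num) (by norm_num) (by norm_num) (by norm_num) (by norm_num) (by norm_num) (by norm_num) (by norm_num) (by norm_num) (by norm_num) (by norm_num)
    (exp_neg_leJ (r := 0.725) 6 (by norm_num) (by norm_num) (by norm_num) (by norm_num))
    (exp_neg_leJ (r := 0.439) 5 (by norm_num) (by norm_num) (by norm_num) (by norm_num))
    (exp_neg_leJ (r := 0.99) 14 (by norm_num) (by norm_num) (by norm_num) (by norm_num))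
    (exp_neg_leJ (r := 0.99) 14 (by norm_num) (by norm_num) (by norm_num) (by norm_num))
    (exp_neg_leJ (r := 0.919) 6 (by norm_num) (by norm_num) (by norm_num) (by norm_num))
    (exp_neg_leJ (r := 0.217) 13 (by norm_num) (by norm_num) (by norm_num) (by norm_num))
    (exp_neg_leJ (r := 0.516) 13 (by norm_num) (by norm_num) (by norm_num) (by norm_num))
    (exp_neg_leJ (r := 0.99) 14 (by norm_num) (by norm_num) (by norm_num) (by norm_num))
    (by norm_num)) (by norm_num) hN hβ.le (by norm_num)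

private theorem B5Eo_T59_0_1 {β x y : ℝ} (hβ : 0 < β) (hN : β * 14.285 ≤ 1) (hx1 : 0.45 ≤ x) (hx2 : x ≤ 0.4869)
    (hy1 : -0 ≤ y) (hy2 : y ≤ 0.2991) : ‖HH β (x + y * I) - 1‖ ≤ 0.03 := by
  refine le_epsJ (C := 0.3287) (N0 := 14.285) (J_boxp 0.45 0.4869 0 0.2991 0.2991 1.0269 0.5715 1.3874 1.132 0.47 3.7796 14.285 0.5566 2.052 1.281 1.2328 0.5134 0.4181 1.1623 3.7997 0.543 1.0925 1.1878 2.6492 0.0006537 0.002558 0.0000003101 0.0000003101 0.0004287 0.0000003101 0.0000003101 0.0000003101 0.3287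
    hβ hN hx1 hx2 hy1 hy2 (by norm_num) (by norm_num) (by linarith) (by norm_num) (by norm_num) (by norm_num) (by norm_num) (by norm_num) (by norm_num) (by norm_num) (by norm_num) (by norm_num) (by norm_num) (by norm_num) (by norm_num) (by norm_num) (by norm_num) (by norm_num) (by norm_num) (by norm_num) (by norm_num) (by norm_num) (by norm_num) (by norm_num)
    (cube_sqrt_geJ (s := 0.9024) (by norm_num) (by norm_num) (by norm_num) (by norm_num))
    (cube_sqrt_geJ (s := 0.9653) (by norm_num) (by norm_num) (by norm_num) (by norm_num))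
    (by norm_num) (by norm_num) (by norm_num) (by norm_num) (by norm_num) (by norm_num) (by norm_num) (by norm_num) (by norm_num) (by norm_num) (by norm_num) (by norm_num) (by norm_num) (by norm_num) (by norm_num) (by norm_num) (by norm_num) (by norm_num)
    (exp_neg_leJ (r := 0.333) 7 (by norm_num) (by norm_num) (by norm_num) (by norm_num))
    (exp_neg_leJ (r := 0.972) 5 (by norm_num) (by norm_num) (by norm_num) (by norm_num))
    (exp_neg_leJ (r := 0.99) 14 (by norm_num) (by norm_num) (by norm_num) (by norm_num))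
    (exp_neg_leJ (r := 0.99) 14 (by norm_num) (by norm_num) (by norm_num) (by norm_num))
    (exp_neg_leJ (r := 0.756) 7 (by norm_num) (by norm_num) (by norm_num) (by norm_num))
    (exp_neg_leJ (r := 0.99) 14 (by norm_num) (by norm_num) (by norm_num) (by norm_num))
    (exp_neg_leJ (r := 0.99) 14 (by norm_num) (by norm_num) (by norm_num) (by norm_num))
    (exp_neg_leJ (r := 0.99) 14 (by norm_num) (by norm_num) (by norm_num) (by norm_num))
    (by norm_num)) (by norm_num) hN hβ.le (by norm_num)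

private theorem B5Eo_T59 {β x y : ℝ} (hβ : 0 < β) (hN : β * 14.285 ≤ 1) (hx1 : 0.3292 ≤ x) (hx2 : x ≤ 0.4869)
    (hy1 : 0.2479 ≤ y) (hy2 : y ≤ 0.2991) : ‖HH β (x + y * I) - 1‖ ≤ 0.03 := by
  rcases le_total x 0.45 with hxx | hxx
  · exact B5Eo_T59_0_0 hβ hN (by linarith) (by linarith) (by linarith) (by linarith)
  exact B5Eo_T59_0_1 hβ hN (by linarith) (by linarith) (by linarith) (by linarith)

private theorem B5Eo_U60 {β r t κ h t' : ℝ} (hβ : 0 < β) (hκ : κ = β * r) (hN : β * 14.285 ≤ 1) (hk1 : 0.6 ≤ κ) (hk2 : κ ≤ 0.7)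
    (ht : t' = t + (((1 : ℤ) : ℝ) - 1) * h) (hD : DomR κ t') (hta : 0.7664 ≤ t' + κ) (htb : t' + κ ≤ 0.8801) :
    ‖Xf β r h t 1‖ ≤ 0.9001 * Real.exp (r * sE κ t') := by
  obtain ⟨⟨ya, yb⟩, ⟨xa, xb⟩, n1, Da, Db⟩ := B5Eo_B58 hD hk1 hk2 hta htb
  have J := B5Eo_T59 (x := sx κ t') (y := sy κ t') hβ hN (by linarith only [xa, xb, ya, yb]) (by linarith only [xa, xb, ya, yb]) (by linarith only [xa, xb, ya, yb]) (by linarith only [xa, xb, ya, yb])
  exact v5_Jup (h := h) (t := t) (k := 1) hβ hκ ht hD 0.03 1.7152 0.9001 J Da (by norm_num) (by norm_num)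

private theorem B5Eo_K61 {β r t κ h : ℝ} (hβ : 0 < β) (hr : 10 ≤ r) (hκ : κ = β * r) (hk1 : 0.6 ≤ κ) (hk2 : κ ≤ 0.7)
    (hh : h = 2 * Real.pi / 5) (hh1 : 1.25663 ≤ h) (hh2 : h ≤ 1.25664) (hta : 0.7665 ≤ t + κ) (htb : t + κ ≤ 0.88) (hN : β * 14.285 ≤ 1)
    (hD : DomR κ t) (hY : 0.884 * Real.exp (r * sE κ (t - h)) ≤ ‖Xf β r h t 0‖) (hV : 1.08017 + 0.3765 * (t - h + κ) ≤ sE κ (t - h)) :
    ‖Xf β r h t 1‖ ≤ 0.574 * ‖Xf β r h t 0‖ := by
  have hU := B5Eo_U60 (h := h) (t := t) hβ hκ hN hk1 hk2 (by push_cast; ring) hD (by linarith only [hta, htb, hh1, hh2]) (by linarith only [hta, htb, hh1, hh2])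
  have hW := V_up hD 0.38 (B5Eo_G57 hk1 hk2).1
  exact v5_cmpJ 0.0578 0.5628 0.574 hr hU hW hY (by norm_num) (by norm_num) (by norm_num) (by linarith only [hV, hta, htb, hh1, hh2]) (ex_un 0 0.5779 (by norm_num) (by norm_num) (by norm_num) (by norm_num)) (by norm_num)

private theorem B5Eo_O62 {β r t κ h : ℝ} (hβ : 0 < β) (hr : 10 ≤ r) (hκ : κ = β * r) (hk1 : 0.6 ≤ κ) (hk2 : κ ≤ 0.7)
    (hh : h = 2 * Real.pi / 5) (hta : 0.7665 ≤ t + κ) (htb : t + κ ≤ 0.88) :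
    ‖Xf β r h t (-2)‖ + ‖Xf β r h t (-1)‖ + ‖Xf β r h t 2‖ < |‖Xf β r h t 1‖ - ‖Xf β r h t 0‖| := by
  obtain ⟨hh1, hh2⟩ := v5_h hh
  have hκ0 : 0 < κ := by linarith only [hk1]
  have hN : β * 14.285 ≤ 1 := v5_hN 0.7 14.285 hβ hr hκ hk2 (by norm_num) (by norm_num)
  have hD1 : DomR κ t := v5_dom hκ0 (by linarith only [hta, htb, hk1, hk2, hh1, hh2]) (Or.inr (by linarith only [hta, htb, hk1, hk2, hh1, hh2]))
  have hD0 : DomR κ (t - h) := v5_dom hκ0 (by linarith only [hta, htb, hk1, hk2, hh1, hh2]) (Or.inr (by linarith only [hta, htb, hk1, hk2, hh1, hh2]))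
  have h0a : (-0.4902) ≤ t - h + κ := by linarith only [hta, htb, hh1, hh2]
  have h0b : t - h + κ ≤ (-0.3766) := by linarith only [hta, htb, hh1, hh2]
  have e0 : t - h = t + (((0 : ℤ) : ℝ) - 1) * h := by push_cast; ring
  have hY := B5Eo_Y52 (h := h) hβ hκ hN hk1 hk2 e0 hD0 h0a h0b
  have hV := B5Eo_V53 hD0 hk1 hk2 h0a h0b
  have cp2 := B5Eo_K54 hβ hr hκ hk1 hk2 hh hh1 hh2 hta htb hY hV
  have cm1 := B5Eo_K55 hβ hr hκ hk1 hk2 hh hh1 hh2 hta htb hY hV
  have cm2 := B5Eo_K56 hβ hr hκ hk1 hk2 hh hh1 hh2 hta htb hY hV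
  have cn1 := B5Eo_K61 hβ hr hκ hk1 hk2 hh hh1 hh2 hta htb hN hD1 hY hV
  have hp : 0 < ‖Xf β r h t 0‖ := lt_of_lt_of_le (by positivity) hY
  exact v5_out0 _ _ _ _ cm2 cm1 cp2 cn1 hp (by norm_num)

private theorem B5Eo_B63 {κ t : ℝ} (h : DomR κ t) (hk1 : 0.6 ≤ κ) (hk2 : κ ≤ 0.7) (ht1 : (-0.3767) ≤ t + κ) (ht2 : t + κ ≤ (-0.1886)) :
    ((-0.207) ≤ sy κ t ∧ sy κ t ≤ (-0.09)) ∧ (0.6229 ≤ sx κ t ∧ sx κ t ≤ 0.8563) ∧ κ * Real.exp (-sy κ t) ≤ 0.861 ∧ 1.1306 ≤ sD κ t ∧ sD κ t ≤ 1.4067 := by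
  have hy1 : -0.207 ≤ sy κ t := syL_ge h 0.6 0.7 0.3767 0.207 0.81301 0.81302 0.2303 0.24041 0.2805 hk1 hk2 (by linarith) (by norm_num) (by norm_num) (by norm_num)
    (expm_ge (by norm_num) (by norm_num) (by norm_num) (by norm_num)) (expm_le (by norm_num) (by norm_num) (by norm_num)) (by norm_num)
    (by norm_num) (by norm_num) (by norm_num) (by norm_num) (by norm_num) (by norm_num)
  have hy2 : sy κ t ≤ -0.09 := syL_le h 0.6 0.7 0.1886 0.09 0.91393 0.91394 0.1175 0.1371 hk1 hk2 (by linarith) (by norm_num) (by norm_num) (by norm_num)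
    (expm_ge (by norm_num) (by norm_num) (by norm_num) (by norm_num)) (expm_le (by norm_num) (by norm_num) (by norm_num)) (by norm_num)
    (by norm_num) (by norm_num) (by norm_num) (by norm_num) (by norm_num) (by norm_num)
  have hy1' : (-0.207) ≤ sy κ t := by linarith
  have hy2' : sy κ t ≤ (-0.09) := by linarith
  have hx1 : 0.6229 ≤ sx κ t := sx_lo h 0.6 (-0.09) 0.2071 1.09417 0.6229 hk1 (by norm_num) hy2' (abs_le.2 ⟨by linarith, by linarith⟩) (ex_lp 0.09 (by norm_num) (by norm_num) (by norm_num)) (by norm_num) (by norm_num)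
  have hx2 : sx κ t ≤ 0.8563 := sx_hi h 0.7 (-0.207) 0.09 1.22999 0.8563 hk2 hy1' (by norm_num) (le_trans (by linarith) (neg_le_abs _)) (ex_up 0.207 (by norm_num) (by norm_num) (by norm_num) (by norm_num)) (by norm_num) (by norm_num)
  refine ⟨⟨hy1', hy2'⟩, ⟨hx1, hx2⟩, v5_n h 0.7 (-0.207) 1.22999 0.861 hk2 hy1' (ex_up 0.207 (by norm_num) (by norm_num) (by norm_num) (by norm_num)) (by norm_num), ?_, ?_⟩
  · exact v5_Dlo h 0.6 (-0.207) (-0.09) (-0.207) 1.22998 1.1306 (by norm_num) hk1 hy1' hy2' (ex_lp 0.207 (by norm_num) (by norm_num) (by norm_num)) (by norm_num) (by norm_num) (by norm_num) (by norm_num)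
  · exact v5_Dup h 0.7 (-0.207) (-0.09) 1.22999 1.09418 1.4067 hk2 hy1' hy2' (ex_up 0.207 (by norm_num) (by norm_num) (by norm_num) (by norm_num)) (ex_up 0.09 (by norm_num) (by norm_num) (by norm_num) (by norm_num)) (by norm_num) (by norm_num) (by norm_num)

private theorem B5Eo_T64_0_0 {β x y : ℝ} (hβ : 0 < β) (hN : β * 14.285 ≤ 1) (hx1 : 0.6228 ≤ x) (hx2 : x ≤ 0.72)
    (hy1 : -0.2071 ≤ y) (hy2 : y ≤ -0.0899) : ‖HH β (x + y * I) - 1‖ ≤ 0.04 := by
  refine le_epsJ (C := 0.5703) (N0 := 14.285) (J_boxp 0.6228 0.72 0.2071 0 (-0.0899) 1.0015 0.7492 1.1605 1.0749 0.4298 3.7796 14.285 0.7481 2.73 1.4 0.952 0.5007 0.3758 0.8945 3.0299 0.5443 1.3623 2.2533 3.9211 0.0007834 0.004664 0.000002829 0.0000003101 0.0004207 0.0000003101 0.0000003101 0.0000003101 0.5703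
    hβ hN hx1 hx2 hy1 hy2 (by norm_num) (by norm_num) (by linarith) (by norm_num) (by norm_num) (by norm_num) (by norm_num) (by norm_num) (by norm_num) (by norm_num) (by norm_num) (by norm_num) (by norm_num) (by norm_num) (by norm_num) (by norm_num) (by norm_num) (by norm_num) (by norm_num) (by norm_num) (by norm_num) (by norm_num) (by norm_num) (by norm_num)
    (cube_sqrt_geJ (s := 0.8663) (by norm_num) (by norm_num) (by norm_num) (by norm_num))
    (cube_sqrt_geJ (s := 0.9531) (by norm_num) (by norm_num) (by norm_num) (by norm_num))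
    (by norm_num) (by norm_num) (by norm_num) (by norm_num) (by norm_num) (by norm_num) (by norm_num) (by norm_num) (by norm_num) (by norm_num) (by norm_num) (by norm_num) (by norm_num) (by norm_num) (by norm_num) (by norm_num) (by norm_num) (by norm_num)
    (exp_neg_leJ (r := 0.152) 7 (by norm_num) (by norm_num) (by norm_num) (by norm_num))
    (exp_neg_leJ (r := 0.368) 5 (by norm_num) (by norm_num) (by norm_num) (by norm_num))
    (exp_neg_leJ (r := 0.777) 12 (by norm_num) (by norm_num) (by norm_num) (by norm_num))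
    (exp_neg_leJ (r := 0.99) 14 (by norm_num) (by norm_num) (by norm_num) (by norm_num))
    (exp_neg_leJ (r := 0.775) 7 (by norm_num) (by norm_num) (by norm_num) (by norm_num))
    (exp_neg_leJ (r := 0.99) 14 (by norm_num) (by norm_num) (by norm_num) (by norm_num))
    (exp_neg_leJ (r := 0.99) 14 (by norm_num) (by norm_num) (by norm_num) (by norm_num))
    (exp_neg_leJ (r := 0.99) 14 (by norm_num) (by norm_num) (by norm_num) (by norm_num))
    (by norm_num)) (by norm_num) hN hβ.le (by norm_num)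

private theorem B5Eo_T64_0_1 {β x y : ℝ} (hβ : 0 < β) (hN : β * 14.285 ≤ 1) (hx1 : 0.72 ≤ x) (hx2 : x ≤ 0.815)
    (hy1 : -0.2071 ≤ y) (hy2 : y ≤ -0.0899) : ‖HH β (x + y * I) - 1‖ ≤ 0.04 := by
  refine le_epsJ (C := 0.5704) (N0 := 14.285) (J_boxp 0.72 0.815 0.2071 0 (-0.0899) 1.0699 0.841 1.2217 0.9988 0.441 3.7796 14.285 0.7861 2.897 1.426 0.9154 0.5349 0.3947 0.9278 2.9759 0.5916 1.4969 2.4477 3.866 0.0004807 0.003562 0.000001756 0.0000003101 0.0002138 0.0000003101 0.0000003101 0.0000003101 0.5704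
    hβ hN hx1 hx2 hy1 hy2 (by norm_num) (by norm_num) (by linarith) (by norm_num) (by norm_num) (by norm_num) (by norm_num) (by norm_num) (by norm_num) (by norm_num) (by norm_num) (by norm_num) (by norm_num) (by norm_num) (by norm_num) (by norm_num) (by norm_num) (by norm_num) (by norm_num) (by norm_num) (by norm_num) (by norm_num) (by norm_num) (by norm_num)
    (cube_sqrt_geJ (s := 0.859) (by norm_num) (by norm_num) (by norm_num) (by norm_num))
    (cube_sqrt_geJ (s := 0.9506) (by norm_num) (by norm_num) (by norm_num) (by norm_num))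
    (by norm_num) (by norm_num) (by norm_num) (by norm_num) (by norm_num) (by norm_num) (by norm_num) (by norm_num) (by norm_num) (by norm_num) (by norm_num) (by norm_num) (by norm_num) (by norm_num) (by norm_num) (by norm_num) (by norm_num) (by norm_num)
    (exp_neg_leJ (r := 0.641) 7 (by norm_num) (by norm_num) (by norm_num) (by norm_num))
    (exp_neg_leJ (r := 0.638) 5 (by norm_num) (by norm_num) (by norm_num) (by norm_num))
    (exp_neg_leJ (r := 0.253) 13 (by norm_num) (by norm_num) (by norm_num) (by norm_num))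
    (exp_neg_leJ (r := 0.99) 14 (by norm_num) (by norm_num) (by norm_num) (by norm_num))
    (exp_neg_leJ (r := 0.451) 8 (by norm_num) (by norm_num) (by norm_num) (by norm_num))
    (exp_neg_leJ (r := 0.99) 14 (by norm_num) (by norm_num) (by norm_num) (by norm_num))
    (exp_neg_leJ (r := 0.99) 14 (by norm_num) (by norm_num) (by norm_num) (by norm_num))
    (exp_neg_leJ (r := 0.99) 14 (by norm_num) (by norm_num) (by norm_num) (by norm_num))
    (by norm_num)) (by norm_num) hN hβ.le (by norm_num)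

private theorem B5Eo_T64_0_2 {β x y : ℝ} (hβ : 0 < β) (hN : β * 14.285 ≤ 1) (hx1 : 0.815 ≤ x) (hx2 : x ≤ 0.8564)
    (hy1 : -0.2071 ≤ y) (hy2 : y ≤ -0.0899) : ‖HH β (x + y * I) - 1‖ ≤ 0.04 := by
  refine le_epsJ (C := 0.4956) (N0 := 14.285) (J_boxp 0.815 0.8564 0.2071 0 (-0.0899) 1.1368 0.8811 1.2497 0.9224 0.446 3.7796 14.285 0.7751 2.847 1.418 0.8995 0.5683 0.4215 0.9603 2.9523 0.6377 1.6284 2.6377 3.947 0.0002982 0.002428 0.000001105 0.0000003101 0.0001107 0.0000003101 0.0000003101 0.0000003101 0.4956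
    hβ hN hx1 hx2 hy1 hy2 (by norm_num) (by norm_num) (by linarith) (by norm_num) (by norm_num) (by norm_num) (by norm_num) (by norm_num) (by norm_num) (by norm_num) (by norm_num) (by norm_num) (by norm_num) (by norm_num) (by norm_num) (by norm_num) (by norm_num) (by norm_num) (by norm_num) (by norm_num) (by norm_num) (by norm_num) (by norm_num) (by norm_num)
    (cube_sqrt_geJ (s := 0.8611) (by norm_num) (by norm_num) (by norm_num) (by norm_num))
    (cube_sqrt_geJ (s := 0.9513) (by norm_num) (by norm_num) (by norm_num) (by norm_num))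
    (by norm_num) (by norm_num) (by norm_num) (by norm_num) (by norm_num) (by norm_num) (by norm_num) (by norm_num) (by norm_num) (by norm_num) (by norm_num) (by norm_num) (by norm_num) (by norm_num) (by norm_num) (by norm_num) (by norm_num) (by norm_num)
    (exp_neg_leJ (r := 0.118) 8 (by norm_num) (by norm_num) (by norm_num) (by norm_num))
    (exp_neg_leJ (r := 0.021) 6 (by norm_num) (by norm_num) (by norm_num) (by norm_num))
    (exp_neg_leJ (r := 0.717) 13 (by norm_num) (by norm_num) (by norm_num) (by norm_num))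
    (exp_neg_leJ (r := 0.99) 14 (by norm_num) (by norm_num) (by norm_num) (by norm_num))
    (exp_neg_leJ (r := 0.109) 9 (by norm_num) (by norm_num) (by norm_num) (by norm_num))
    (exp_neg_leJ (r := 0.99) 14 (by norm_num) (by norm_num) (by norm_num) (by norm_num))
    (exp_neg_leJ (r := 0.99) 14 (by norm_num) (by norm_num) (by norm_num) (by norm_num))
    (exp_neg_leJ (r := 0.99) 14 (by norm_num) (by norm_num) (by norm_num) (by norm_num))
    (by norm_num)) (by norm_num) hN hβ.le (by norm_num)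

private theorem B5Eo_T64 {β x y : ℝ} (hβ : 0 < β) (hN : β * 14.285 ≤ 1) (hx1 : 0.6228 ≤ x) (hx2 : x ≤ 0.8564)
    (hy1 : (-0.2071) ≤ y) (hy2 : y ≤ (-0.0899)) : ‖HH β (x + y * I) - 1‖ ≤ 0.04 := by
  rcases le_total x 0.72 with hxx | hxx
  · exact B5Eo_T64_0_0 hβ hN (by linarith) (by linarith) (by linarith) (by linarith)
  rcases le_total x 0.815 with hxx | hxx
  · exact B5Eo_T64_0_1 hβ hN (by linarith) (by linarith) (by linarith) (by linarith)
  exact B5Eo_T64_0_2 hβ hN (by linarith) (by linarith) (by linarith) (by linarith)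

private theorem B5Eo_C65 {β r t κ : ℝ} (hβ : 0 < β) (hr : 10 ≤ r) (hκ : κ = β * r) (hk1 : 0.6 ≤ κ) (hk2 : κ ≤ 0.7) (hta : 2.1366 ≤ t + κ)
    (htb : t + κ ≤ 2.3247) : ‖F (cexp (I * β)) (r * cexp (I * ((t + β / 2 : ℝ) : ℂ)))‖ ≤
      4.5247 * Real.exp (r * (0.17 + 1 / 20)) :=
  v5_UD 0.6 0.7 2.1366 2.3247 0.17 0.5151 0.17 2.3589 4.5247 hβ hr hκ (by norm_num) hk1 hk2 hta htb (by norm_num) (by norm_num) (by norm_num) (by norm_num) (by norm_num) (by norm_num) (by norm_num) (by norm_num) (by norm_num) (by norm_num) (by norm_num)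

private theorem B5Eo_C66 {β r t κ : ℝ} (hβ : 0 < β) (hr : 10 ≤ r) (hκ : κ = β * r) (hk1 : 0.6 ≤ κ) (hk2 : κ ≤ 0.7) (hta : (-1.6333) ≤ t + κ)
    (htb : t + κ ≤ (-1.4452)) : ‖F (cexp (I * β)) (r * cexp (I * ((t + β / 2 : ℝ) : ℂ)))‖ ≤
      1.3576 * Real.exp (r * (1.30296 - (-0.71) * (t + κ))) + 1.9393 * Real.exp (r * 0.0501) :=
  v5_HU (-0.71) 0.6 0.7 (-1.6333) (-1.4452) 1.30296 1.3576 2.34432 0.1056 0.9879 2.3786 0 0.0501 0.00000151 1.9393 hβ hr hκ (by norm_num) hk1 hk2 hta htb (by norm_num) (by norm_num) (B5Eo_G13 hk1 hk2).1 (B5Eo_G13 hk1 hk2).2 (by norm_num) (by norm_num) (by norm_num)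
    (by norm_num) (by norm_num) (by norm_num) (by norm_num) (by norm_num) (by norm_num) (by norm_num)
    (by norm_num) (by norm_num) (by norm_num) (v5_hump 5.9543 14.285 3.7796 0.0000009316 0.00000151 hβ hr hκ hk1 hk2 (by norm_num) htb (by norm_num) (by norm_num) (by norm_num) (by norm_num) (by norm_num) (by norm_num) (by norm_num) (ex_un 13 0.9 (by norm_num) (by norm_num) (by norm_num) (by norm_num)) (by norm_num)) (by norm_num)

private theorem B5Eo_C67 {β r t κ : ℝ} (hβ : 0 < β) (hr : 10 ≤ r) (hκ : κ = β * r) (hk1 : 0.6 ≤ κ) (hk2 : κ ≤ 0.7) (hta : 3.3932 ≤ t + κ)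
    (htb : t + κ ≤ 3.5813) : ‖F (cexp (I * β)) (r * cexp (I * ((t + β / 2 : ℝ) : ℂ)))‖ ≤
      2.4959 * Real.exp (r * (0.01 + 1 / 20)) :=
  v5_UD 0.6 0.7 3.3932 3.5813 0.01 0.5151 0.01 1.3012 2.4959 hβ hr hκ (by norm_num) hk1 hk2 hta htb (by norm_num) (by norm_num) (by norm_num) (by norm_num) (by norm_num) (by norm_num) (by norm_num) (by norm_num) (by norm_num) (by norm_num) (by norm_num)

private theorem B5Eo_Y68 {β r t κ h t' : ℝ} (hβ : 0 < β) (hκ : κ = β * r) (hN : β * 14.285 ≤ 1) (hk1 : 0.6 ≤ κ) (hk2 : κ ≤ 0.7)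
    (ht : t' = t + (((0 : ℤ) : ℝ) - 1) * h) (hD : DomR κ t') (hta : (-0.3767) ≤ t' + κ) (htb : t' + κ ≤ (-0.1886)) :
    0.8814 * Real.exp (r * sE κ t') ≤ ‖Xf β r h t 0‖ := by
  obtain ⟨⟨ya, yb⟩, ⟨xa, xb⟩, n1, Da, Db⟩ := B5Eo_B63 hD hk1 hk2 hta htb
  have J := B5Eo_T64 (x := sx κ t') (y := sy κ t') hβ hN (by linarith only [xa, xb, ya, yb]) (by linarith only [xa, xb, ya, yb]) (by linarith only [xa, xb, ya, yb]) (by linarith only [xa, xb, ya, yb])
  exact v5_Jlo hβ hκ (k := 0) ht hD 0.04 1.4067 0.8814 (by norm_num) J Db (by norm_num)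

private theorem B5Eo_V69 {κ t : ℝ} (hD : DomR κ t) (hk1 : 0.6 ≤ κ) (hk2 : κ ≤ 0.7) (hta : (-0.3767) ≤ t + κ) (htb : t + κ ≤ (-0.1886)) :
    1.02959 + 0.2356 * (t + κ) ≤ sE κ t := by
  have hκ0 : 0 < κ := hD.1
  exact v5_V0 hD 0.6 0.7 (-0.3767) (-0.1886) 0.3768 0.5669 0.15833 0.09545 0.39755 0.51471 1.02959 0.2356 (by norm_num) hk1 hk2 (by norm_num) hta htb (by norm_num) (by norm_num) (by norm_num) ((cup1 0.7 hκ0.le hk2 (by norm_num)).trans (by norm_num))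
      (by norm_num) (by norm_num) (by norm_num) (by norm_num) (by norm_num) (by norm_num) (by norm_num) (by norm_num) (by norm_num) (by norm_num) (by norm_num) (by norm_num) (by norm_num)

private theorem B5Eo_K70 {β r t κ h : ℝ} (hβ : 0 < β) (hr : 10 ≤ r) (hκ : κ = β * r) (hk1 : 0.6 ≤ κ) (hk2 : κ ≤ 0.7)
    (hh : h = 2 * Real.pi / 5) (hh1 : 1.25663 ≤ h) (hh2 : h ≤ 1.25664) (hta : 0.88 ≤ t + κ) (htb : t + κ ≤ 1.068)
    (hY : 0.8814 * Real.exp (r * sE κ (t - h)) ≤ ‖Xf β r h t 0‖) (hV : 1.02959 + 0.2356 * (t - h + κ) ≤ sE κ (t - h)) :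
    ‖Xf β r h t 2‖ ≤ 0.00381 * ‖Xf β r h t 0‖ := by
  rw [v5_X 2 1 (by push_cast; ring)]
  exact v5_cmp0 0.7208 0.0007408 0.00381 hr (B5Eo_C65 (t := t + 1 * h) hβ hr hκ hk1 hk2 (by linarith only [hta, htb, hh1, hh2]) (by linarith only [hta, htb, hh1, hh2])) hY (by norm_num) (by norm_num) (by norm_num) (by linarith only [hV, hta, htb, hh1, hh2]) (ex_un 7 0.2079 (by norm_num) (by norm_num) (by norm_num) (by norm_num)) (by norm_num)

private theorem B5Eo_K71 {β r t κ h : ℝ} (hβ : 0 < β) (hr : 10 ≤ r) (hκ : κ = β * r) (hk1 : 0.6 ≤ κ) (hk2 : κ ≤ 0.7)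
    (hh : h = 2 * Real.pi / 5) (hh1 : 1.25663 ≤ h) (hh2 : h ≤ 1.25664) (hta : 0.88 ≤ t + κ) (htb : t + κ ≤ 1.068)
    (hY : 0.8814 * Real.exp (r * sE κ (t - h)) ≤ ‖Xf β r h t 0‖) (hV : 1.02959 + 0.2356 * (t - h + κ) ≤ sE κ (t - h)) :
    ‖Xf β r h t (-1)‖ ≤ 0.00161 * ‖Xf β r h t 0‖ := by
  rw [v5_X (-1) (-2) (by push_cast; ring)]
  exact v5_cmp 0.7083 0.0008394 0.0013 0.8907 0.0001374 0.000303 0.00161 hr (B5Eo_C66 (t := t + (-2) * h) hβ hr hκ hk1 hk2 (by linarith only [hta, htb, hh1, hh2]) (by linarith only [hta, htb, hh1, hh2])) hY (by norm_num) (by norm_num) (by norm_num) (by norm_num) (by linarith only [hV, hta, htb, hh1, hh2]) (ex_un 7 0.0829 (by norm_num) (by norm_num) (by norm_num) (by norm_num)) (by norm_num) (by norm_num) (by linarith only [hV, hta, htb, hh1, hh2]) (ex_un 8 0.9069 (by norm_num) (by norm_num) (by norm_num) (by norm_num)) (by norm_num) (by norm_num)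

private theorem B5Eo_K72 {β r t κ h : ℝ} (hβ : 0 < β) (hr : 10 ≤ r) (hκ : κ = β * r) (hk1 : 0.6 ≤ κ) (hk2 : κ ≤ 0.7)
    (hh : h = 2 * Real.pi / 5) (hh1 : 1.25663 ≤ h) (hh2 : h ≤ 1.25664) (hta : 0.88 ≤ t + κ) (htb : t + κ ≤ 1.068)
    (hY : 0.8814 * Real.exp (r * sE κ (t - h)) ≤ ‖Xf β r h t 0‖) (hV : 1.02959 + 0.2356 * (t - h + κ) ≤ sE κ (t - h)) :
    ‖Xf β r h t (-2)‖ ≤ 0.000428 * ‖Xf β r h t 0‖ := by
  rw [v5_Xm2 hh]
  exact v5_cmp0 0.8808 0.000151 0.000428 hr (B5Eo_C67 (t := t + 2 * h) hβ hr hκ hk1 hk2 (by linarith only [hta, htb, hh1, hh2]) (by linarith only [hta, htb, hh1, hh2])) hY (by norm_num) (by norm_num) (by norm_num) (by linarith only [hV, hta, htb, hh1, hh2]) (ex_un 8 0.8079 (by norm_num) (by norm_num) (by norm_num) (by norm_num)) (by norm_num)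

private theorem B5Eo_C73 {β r t κ : ℝ} (hβ : 0 < β) (hr : 10 ≤ r) (hκ : κ = β * r) (hk1 : 0.6 ≤ κ) (hk2 : κ ≤ 0.7) (hta : 0.8799 ≤ t + κ)
    (htb : t + κ ≤ 1.0681) : ‖F (cexp (I * β)) (r * cexp (I * ((t + β / 2 : ℝ) : ℂ)))‖ ≤
      1.9449 * Real.exp (r * (1.12905 - 0.38 * (t + κ))) + 0.166 * Real.exp (r * 0) :=
  v5_H 0.38 0.6 0.7 0.8799 1.0681 1.12905 1.9381 0.58741 0.1056 1.7505 1.1025 0.26614 0.07019 0.00000151 1.9449 0.166 hβ hr hκ (by norm_num) hk1 hk2 hta htb (by norm_num) (B5Eo_G57 hk1 hk2).1 (B5Eo_G57 hk1 hk2).2 (by norm_num) (by norm_num) (by norm_num)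
    (by norm_num) (by norm_num) (by norm_num) (by norm_num) (by norm_num) (by norm_num) (by norm_num) (by norm_num) (ex_un 2 0.6613 (by norm_num) (by norm_num) (by norm_num) (by norm_num))
    (v5_hump 3.441 14.285 3.7796 0.0000009316 0.00000151 hβ hr hκ hk1 hk2 (by norm_num) htb (by norm_num) (by norm_num) (by norm_num) (by norm_num) (by norm_num) (by norm_num) (by norm_num) (ex_un 13 0.9 (by norm_num) (by norm_num) (by norm_num) (by norm_num)) (by norm_num)) (by norm_num) (by norm_num)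

private theorem B5Eo_K74 {β r t κ h : ℝ} (hβ : 0 < β) (hr : 10 ≤ r) (hκ : κ = β * r) (hk1 : 0.6 ≤ κ) (hk2 : κ ≤ 0.7)
    (hh : h = 2 * Real.pi / 5) (hh1 : 1.25663 ≤ h) (hh2 : h ≤ 1.25664) (hta : 0.88 ≤ t + κ) (htb : t + κ ≤ 1.068)
    (hY : 0.8814 * Real.exp (r * sE κ (t - h)) ≤ ‖Xf β r h t 0‖) (hV : 1.02959 + 0.2356 * (t - h + κ) ≤ sE κ (t - h)) :
    ‖Xf β r h t 1‖ ≤ 0.514 * ‖Xf β r h t 0‖ := by
  rw [v5_X 1 0 (by push_cast; ring)]
  exact v5_cmp 0.1462 0.2322 0.513 0.9408 0.00008215 0.0000155 0.514 hr (B5Eo_C73 (t := t + 0 * h) hβ hr hκ hk1 hk2 (by linarith only [hta, htb, hh1, hh2]) (by linarith only [hta, htb, hh1, hh2])) hY (by norm_num) (by norm_num) (by norm_num) (by norm_num) (by linarith only [hV, hta, htb, hh1, hh2]) (ex_un 1 0.4619 (by norm_num) (by norm_num) (by norm_num) (by norm_num)) (by norm_num) (by norm_num) (by linarith only [hV, hta, htb, hh1, hh2]) (ex_un 9 0.4079 (by norm_num) (by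 norm_num) (by norm_num) (by norm_num)) (by norm_num) (by norm_num)

private theorem B5Eo_O75 {β r t κ h : ℝ} (hβ : 0 < β) (hr : 10 ≤ r) (hκ : κ = β * r) (hk1 : 0.6 ≤ κ) (hk2 : κ ≤ 0.7)
    (hh : h = 2 * Real.pi / 5) (hta : 0.88 ≤ t + κ) (htb : t + κ ≤ 1.068) :
    ‖Xf β r h t (-2)‖ + ‖Xf β r h t (-1)‖ + ‖Xf β r h t 2‖ < |‖Xf β r h t 1‖ - ‖Xf β r h t 0‖| := by
  obtain ⟨hh1, hh2⟩ := v5_h hh
  have hκ0 : 0 < κ := by linarith only [hk1]
  have hN : β * 14.285 ≤ 1 := v5_hN 0.7 14.285 hβ hr hκ hk2 (by norm_num) (by norm_num)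
  have hD1 : DomR κ t := v5_dom hκ0 (by linarith only [hta, htb, hk1, hk2, hh1, hh2]) (Or.inr (by linarith only [hta, htb, hk1, hk2, hh1, hh2]))
  have hD0 : DomR κ (t - h) := v5_dom hκ0 (by linarith only [hta, htb, hk1, hk2, hh1, hh2]) (Or.inr (by linarith only [hta, htb, hk1, hk2, hh1, hh2]))
  have h0a : (-0.3767) ≤ t - h + κ := by linarith only [hta, htb, hh1, hh2]
  have h0b : t - h + κ ≤ (-0.1886) := by linarith only [hta, htb, hh1, hh2]
  have e0 : t - h = t + (((0 : ℤ) : ℝ) - 1) * h := by push_cast; ring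
  have hY := B5Eo_Y68 (h := h) hβ hκ hN hk1 hk2 e0 hD0 h0a h0b
  have hV := B5Eo_V69 hD0 hk1 hk2 h0a h0b
  have cp2 := B5Eo_K70 hβ hr hκ hk1 hk2 hh hh1 hh2 hta htb hY hV
  have cm1 := B5Eo_K71 hβ hr hκ hk1 hk2 hh hh1 hh2 hta htb hY hV
  have cm2 := B5Eo_K72 hβ hr hκ hk1 hk2 hh hh1 hh2 hta htb hY hV
  have cn1 := B5Eo_K74 hβ hr hκ hk1 hk2 hh hh1 hh2 hta htb hY hV
  have hp : 0 < ‖Xf β r h t 0‖ := lt_of_lt_of_le (by positivity) hY
  exact v5_out0 _ _ _ _ cm2 cm1 cp2 cn1 hp (by norm_num)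

private theorem B5Eo_B76 {κ t : ℝ} (h : DomR κ t) (hk1 : 0.6 ≤ κ) (hk2 : κ ≤ 0.7) (ht1 : (-0.1887) ≤ t + κ) (ht2 : t + κ ≤ 0.0629) :
    ((-0.096) ≤ sy κ t ∧ sy κ t ≤ 0.029) ∧ (0.5748 ≤ sx κ t ∧ sx κ t ≤ 0.7706) ∧ κ * Real.exp (-sy κ t) ≤ 0.7706 ∧ 1.2441 ≤ sD κ t ∧ sD κ t ≤ 1.5204 := by
  have hy1 : -0.096 ≤ sy κ t := syL_ge h 0.6 0.7 0.1887 0.096 0.90846 0.90847 0.1193 0.12458 0.14536 hk1 hk2 (by linarith) (by norm_num) (by norm_num) (by norm_num)
    (expm_ge (by norm_num) (by norm_num) (by norm_num) (by norm_num)) (expm_le (by norm_num) (by norm_num) (by norm_num)) (by norm_num)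
    (by norm_num) (by norm_num) (by norm_num) (by norm_num) (by norm_num) (by norm_num)
  have hy2 : sy κ t ≤ 0.029 := syR_le h 0.6 0.7 0.0629 0.029 1.02942 0.0408 0.04264 0.04976 hk1 hk2 (by linarith) (by norm_num) (by norm_num)
    (expn_ge (by norm_num) (by norm_num)) (by norm_num) (by norm_num) (Or.inr ((mul_le_mul_of_nonneg_left (expn_le (E := 1.02943) (by norm_num) (by norm_num) (by norm_num)) (by norm_num)).trans (by norm_num))) (by norm_num) (by norm_num) (by norm_num)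
  have hy1' : (-0.096) ≤ sy κ t := by linarith
  have hy2' : sy κ t ≤ 0.029 := by linarith
  have hx1 : 0.5748 ≤ sx κ t := sx_lo h 0.6 0.029 0.0961 0.97141 0.5748 hk1 (by norm_num) hy2' (abs_le.2 ⟨by linarith, by linarith⟩) (ex_lm 0.029 (by norm_num) (by norm_num) (by norm_num) (by norm_num) (by norm_num)) (by norm_num) (by norm_num)
  have hx2 : sx κ t ≤ 0.7706 := sx_hi h 0.7 (-0.096) 0 1.10076 0.7706 hk2 hy1' (by norm_num) (abs_nonneg _) (ex_up 0.096 (by norm_num) (by norm_num) (by norm_num) (by norm_num)) (by norm_num) (by norm_num)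
  refine ⟨⟨hy1', hy2'⟩, ⟨hx1, hx2⟩, v5_n h 0.7 (-0.096) 1.10076 0.7706 hk2 hy1' (ex_up 0.096 (by norm_num) (by norm_num) (by norm_num) (by norm_num)) (by norm_num), ?_, ?_⟩
  · exact v5_Dlo h 0.6 (-0.096) 0.029 (-0.096) 1.10075 1.2441 (by norm_num) hk1 hy1' hy2' (ex_lp 0.096 (by norm_num) (by norm_num) (by norm_num)) (by norm_num) (by norm_num) (by norm_num) (by norm_num)
  · exact v5_Dup h 0.7 (-0.096) 0.029 1.10076 0.97142 1.5204 hk2 hy1' hy2' (ex_up 0.096 (by norm_num) (by norm_num) (by norm_num) (by norm_num)) (ex_um 0.029 (by norm_num) (by norm_num) (by norm_num) (by norm_num)) (by norm_num) (by norm_num) (by norm_num)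

private theorem B5Eo_T77_0_0 {β x y : ℝ} (hβ : 0 < β) (hN : β * 14.285 ≤ 1) (hx1 : 0.5747 ≤ x) (hx2 : x ≤ 0.697)
    (hy1 : -0.0961 ≤ y) (hy2 : y ≤ 0.0291) : ‖HH β (x + y * I) - 1‖ ≤ 0.03 := by
  refine le_epsJ (C := 0.4282) (N0 := 14.285) (J_boxp 0.5747 0.697 0.0961 0.0291 0.0291 1.0464 0.7036 1.243 1.0416 0.4448 3.7796 14.285 0.6725 2.432 1.351 1.0633 0.5231 0.4059 1.0533 3.3977 0.5787 1.2927 2.334 3.8117 0.0005689 0.003038 0.0000003101 0.0000003101 0.0002572 0.0000003101 0.0000003101 0.0000003101 0.4282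
    hβ hN hx1 hx2 hy1 hy2 (by norm_num) (by norm_num) (by linarith) (by norm_num) (by norm_num) (by norm_num) (by norm_num) (by norm_num) (by norm_num) (by norm_num) (by norm_num) (by norm_num) (by norm_num) (by norm_num) (by norm_num) (by norm_num) (by norm_num) (by norm_num) (by norm_num) (by norm_num) (by norm_num) (by norm_num) (by norm_num) (by norm_num)
    (cube_sqrt_geJ (s := 0.8808) (by norm_num) (by norm_num) (by norm_num) (by norm_num))
    (cube_sqrt_geJ (s := 0.9579) (by norm_num) (by norm_num) (by norm_num) (by norm_num))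
    (by norm_num) (by norm_num) (by norm_num) (by norm_num) (by norm_num) (by norm_num) (by norm_num) (by norm_num) (by norm_num) (by norm_num) (by norm_num) (by norm_num) (by norm_num) (by norm_num) (by norm_num) (by norm_num) (by norm_num) (by norm_num)
    (exp_neg_leJ (r := 0.472) 7 (by norm_num) (by norm_num) (by norm_num) (by norm_num))
    (exp_neg_leJ (r := 0.798) 5 (by norm_num) (by norm_num) (by norm_num) (by norm_num))
    (exp_neg_leJ (r := 0.99) 14 (by norm_num) (by norm_num) (by norm_num) (by norm_num))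
    (exp_neg_leJ (r := 0.99) 14 (by norm_num) (by norm_num) (by norm_num) (by norm_num))
    (exp_neg_leJ (r := 0.266) 8 (by norm_num) (by norm_num) (by norm_num) (by norm_num))
    (exp_neg_leJ (r := 0.99) 14 (by norm_num) (by norm_num) (by norm_num) (by norm_num))
    (exp_neg_leJ (r := 0.99) 14 (by norm_num) (by norm_num) (by norm_num) (by norm_num))
    (exp_neg_leJ (r := 0.99) 14 (by norm_num) (by norm_num) (by norm_num) (by norm_num))
    (by norm_num)) (by norm_num) hN hβ.le (by norm_num)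

private theorem B5Eo_T77_0_1 {β x y : ℝ} (hβ : 0 < β) (hN : β * 14.285 ≤ 1) (hx1 : 0.697 ≤ x) (hx2 : x ≤ 0.7707)
    (hy1 : -0.0961 ≤ y) (hy2 : y ≤ 0.0291) : ‖HH β (x + y * I) - 1‖ ≤ 0.03 := by
  refine le_epsJ (C := 0.3858) (N0 := 14.285) (J_boxp 0.697 0.7707 0.0961 0.0291 0.0291 1.1326 0.7767 1.2858 0.9408 0.4524 3.7796 14.285 0.6858 2.481 1.36 1.0349 0.5662 0.4368 1.0951 3.3553 0.6381 1.4621 2.5786 3.8576 0.0003073 0.001952 0.0000003101 0.0000003101 0.0001101 0.0000003101 0.0000003101 0.0000003101 0.3858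
    hβ hN hx1 hx2 hy1 hy2 (by norm_num) (by norm_num) (by linarith) (by norm_num) (by norm_num) (by norm_num) (by norm_num) (by norm_num) (by norm_num) (by norm_num) (by norm_num) (by norm_num) (by norm_num) (by norm_num) (by norm_num) (by norm_num) (by norm_num) (by norm_num) (by norm_num) (by norm_num) (by norm_num) (by norm_num) (by norm_num) (by norm_num)
    (cube_sqrt_geJ (s := 0.8782) (by norm_num) (by norm_num) (by norm_num) (by norm_num))
    (cube_sqrt_geJ (s := 0.957) (by norm_num) (by norm_num) (by norm_num) (by norm_num))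
    (by norm_num) (by norm_num) (by norm_num) (by norm_num) (by norm_num) (by norm_num) (by norm_num) (by norm_num) (by norm_num) (by norm_num) (by norm_num) (by norm_num) (by norm_num) (by norm_num) (by norm_num) (by norm_num) (by norm_num) (by norm_num)
    (exp_neg_leJ (r := 0.088) 8 (by norm_num) (by norm_num) (by norm_num) (by norm_num))
    (exp_neg_leJ (r := 0.239) 6 (by norm_num) (by norm_num) (by norm_num) (by norm_num))
    (exp_neg_leJ (r := 0.99) 14 (by norm_num) (by norm_num) (by norm_num) (by norm_num))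
    (exp_neg_leJ (r := 0.99) 14 (by norm_num) (by norm_num) (by norm_num) (by norm_num))
    (exp_neg_leJ (r := 0.115) 9 (by norm_num) (by norm_num) (by norm_num) (by norm_num))
    (exp_neg_leJ (r := 0.99) 14 (by norm_num) (by norm_num) (by norm_num) (by norm_num))
    (exp_neg_leJ (r := 0.99) 14 (by norm_num) (by norm_num) (by norm_num) (by norm_num))
    (exp_neg_leJ (r := 0.99) 14 (by norm_num) (by norm_num) (by norm_num) (by norm_num))
    (by norm_num)) (by norm_num) hN hβ.le (by norm_num)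

private theorem B5Eo_T77 {β x y : ℝ} (hβ : 0 < β) (hN : β * 14.285 ≤ 1) (hx1 : 0.5747 ≤ x) (hx2 : x ≤ 0.7707)
    (hy1 : (-0.0961) ≤ y) (hy2 : y ≤ 0.0291) : ‖HH β (x + y * I) - 1‖ ≤ 0.03 := by
  rcases le_total x 0.697 with hxx | hxx
  · exact B5Eo_T77_0_0 hβ hN (by linarith) (by linarith) (by linarith) (by linarith)
  exact B5Eo_T77_0_1 hβ hN (by linarith) (by linarith) (by linarith) (by linarith)

private theorem B5Eo_C78 {β r t κ : ℝ} (hβ : 0 < β) (hr : 10 ≤ r) (hκ : κ = β * r) (hk1 : 0.6 ≤ κ) (hk2 : κ ≤ 0.7) (hta : 2.3246 ≤ t + κ)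
    (htb : t + κ ≤ 2.5762) : ‖F (cexp (I * β)) (r * cexp (I * ((t + β / 2 : ℝ) : ℂ)))‖ ≤
      3.5188 * Real.exp (r * (0.01 + 1 / 20)) :=
  v5_UD 0.6 0.7 2.3246 2.5762 0.01 0.5151 0.01 1.8345 3.5188 hβ hr hκ (by norm_num) hk1 hk2 hta htb (by norm_num) (by norm_num) (by norm_num) (by norm_num) (by norm_num) (by norm_num) (by norm_num) (by norm_num) (by norm_num) (by norm_num) (by norm_num)

private theorem B5Eo_C79 {β r t κ : ℝ} (hβ : 0 < β) (hr : 10 ≤ r) (hκ : κ = β * r) (hk1 : 0.6 ≤ κ) (hk2 : κ ≤ 0.7) (hta : (-1.4453) ≤ t + κ)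
    (htb : t + κ ≤ (-1.1937)) : ‖F (cexp (I * β)) (r * cexp (I * ((t + β / 2 : ℝ) : ℂ)))‖ ≤
      1.3576 * Real.exp (r * (1.30296 - (-0.71) * (t + κ))) + 1.936 * Real.exp (r * 0.0501) :=
  v5_HU (-0.71) 0.6 0.7 (-1.4453) (-1.1937) 1.30296 1.3576 2.34432 0.1056 0.9879 2.5666 0 0.0501 0.00000151 1.936 hβ hr hκ (by norm_num) hk1 hk2 hta htb (by norm_num) (by norm_num) (B5Eo_G13 hk1 hk2).1 (B5Eo_G13 hk1 hk2).2 (by norm_num) (by norm_num) (by norm_num)
    (by norm_num) (by norm_num) (by norm_num) (by norm_num) (by norm_num) (by norm_num) (by norm_num)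
    (by norm_num) (by norm_num) (by norm_num) (v5_hump 5.7028 14.285 3.7796 0.0000009316 0.00000151 hβ hr hκ hk1 hk2 (by norm_num) htb (by norm_num) (by norm_num) (by norm_num) (by norm_num) (by norm_num) (by norm_num) (by norm_num) (ex_un 13 0.9 (by norm_num) (by norm_num) (by norm_num) (by norm_num)) (by norm_num)) (by norm_num)

private theorem B5Eo_C80 {β r t κ : ℝ} (hβ : 0 < β) (hr : 10 ≤ r) (hκ : κ = β * r) (hk1 : 0.6 ≤ κ) (hk2 : κ ≤ 0.7) (hta : 3.5812 ≤ t + κ)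
    (htb : t + κ ≤ 3.8328) : ‖F (cexp (I * β)) (r * cexp (I * ((t + β / 2 : ℝ) : ℂ)))‖ ≤
      2.4871 * Real.exp (r * (0.01 + 1 / 20)) :=
  v5_UD 0.6 0.7 3.5812 3.8328 0.01 0.5151 0.01 1.2966 2.4871 hβ hr hκ (by norm_num) hk1 hk2 hta htb (by norm_num) (by norm_num) (by norm_num) (by norm_num) (by norm_num) (by norm_num) (by norm_num) (by norm_num) (by norm_num) (by norm_num) (by norm_num)

private theorem B5Eo_Y81 {β r t κ h t' : ℝ} (hβ : 0 < β) (hκ : κ = β * r) (hN : β * 14.285 ≤ 1) (hk1 : 0.6 ≤ κ) (hk2 : κ ≤ 0.7)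
    (ht : t' = t + (((0 : ℤ) : ℝ) - 1) * h) (hD : DomR κ t') (hta : (-0.1887) ≤ t' + κ) (htb : t' + κ ≤ 0.0629) :
    0.8735 * Real.exp (r * sE κ t') ≤ ‖Xf β r h t 0‖ := by
  obtain ⟨⟨ya, yb⟩, ⟨xa, xb⟩, n1, Da, Db⟩ := B5Eo_B76 hD hk1 hk2 hta htb
  have J := B5Eo_T77 (x := sx κ t') (y := sy κ t') hβ hN (by linarith only [xa, xb, ya, yb]) (by linarith only [xa, xb, ya, yb]) (by linarith only [xa, xb, ya, yb]) (by linarith only [xa, xb, ya, yb])
  exact v5_Jlo hβ hκ (k := 0) ht hD 0.03 1.5204 0.8735 (by norm_num) J Db (by norm_num)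

private theorem B5Eo_V82 {κ t : ℝ} (hD : DomR κ t) (hk1 : 0.6 ≤ κ) (hk2 : κ ≤ 0.7) (hta : (-0.1887) ≤ t + κ) (htb : t + κ ≤ 0.0629) :
    0.99535 + 0.0492 * (t + κ) ≤ sE κ t := by
  have hκ0 : 0 < κ := hD.1
  exact v5_V0 hD 0.6 0.7 (-0.1887) 0.0629 0.1888 0.5315 0.15833 0.09545 0.39755 0.51471 0.99535 0.0492 (by norm_num) hk1 hk2 (by norm_num) hta htb (by norm_num) (by norm_num) (by norm_num) ((cup1 0.7 hκ0.le hk2 (by norm_num)).trans (by norm_num))
      (by norm_num) (by norm_num) (by norm_num) (by norm_num) (by norm_num) (by norm_num) (by norm_num) (by norm_num) (by norm_num) (by norm_num) (by norm_num) (by norm_num) (by norm_num)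

private theorem B5Eo_K83 {β r t κ h : ℝ} (hβ : 0 < β) (hr : 10 ≤ r) (hκ : κ = β * r) (hk1 : 0.6 ≤ κ) (hk2 : κ ≤ 0.7)
    (hh : h = 2 * Real.pi / 5) (hh1 : 1.25663 ≤ h) (hh2 : h ≤ 1.25664) (hta : 1.068 ≤ t + κ) (htb : t + κ ≤ 1.3195)
    (hY : 0.8735 * Real.exp (r * sE κ (t - h)) ≤ ‖Xf β r h t 0‖) (hV : 0.99535 + 0.0492 * (t - h + κ) ≤ sE κ (t - h)) :
    ‖Xf β r h t 2‖ ≤ 0.000384 * ‖Xf β r h t 0‖ := by
  rw [v5_X 2 1 (by push_cast; ring)]
  exact v5_cmp0 0.926 0.00009518 0.000384 hr (B5Eo_C78 (t := t + 1 * h) hβ hr hκ hk1 hk2 (by linarith only [hta, htb, hh1, hh2]) (by linarith only [hta, htb, hh1, hh2])) hY (by norm_num) (by norm_num) (by norm_num) (by linarith only [hV, hta, htb, hh1, hh2]) (ex_un 9 0.2599 (by norm_num) (by norm_num) (by norm_num) (by norm_num)) (by norm_num)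

private theorem B5Eo_K84 {β r t κ h : ℝ} (hβ : 0 < β) (hr : 10 ≤ r) (hκ : κ = β * r) (hk1 : 0.6 ≤ κ) (hk2 : κ ≤ 0.7)
    (hh : h = 2 * Real.pi / 5) (hh1 : 1.25663 ≤ h) (hh2 : h ≤ 1.25664) (hta : 1.068 ≤ t + κ) (htb : t + κ ≤ 1.3195)
    (hY : 0.8735 * Real.exp (r * sE κ (t - h)) ≤ ‖Xf β r h t 0‖) (hV : 0.99535 + 0.0492 * (t - h + κ) ≤ sE κ (t - h)) :
    ‖Xf β r h t (-1)‖ ≤ 0.00702 * ‖Xf β r h t 0‖ := by
  rw [v5_X (-1) (-2) (by push_cast; ring)]
  exact v5_cmp 0.543 0.004388 0.00682 0.9359 0.00008624 0.000192 0.00702 hr (B5Eo_C79 (t := t + (-2) * h) hβ hr hκ hk1 hk2 (by linarith only [hta, htb, hh1, hh2]) (by linarith only [hta, htb, hh1, hh2])) hY (by norm_num) (by norm_num) (by norm_num) (by norm_num) (by linarith only [hV, hta, htb, hh1, hh2]) (ex_un 5 0.4299 (by norm_num) (by norm_num) (by norm_num) (by norm_num)) (by norm_num) (by norm_num) (by linarith only [hV, hta, htb, hh1, hh2]) (ex_un 9 0.3589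 (by norm_num) (by norm_num) (by norm_num) (by norm_num)) (by norm_num) (by norm_num)

private theorem B5Eo_K85 {β r t κ h : ℝ} (hβ : 0 < β) (hr : 10 ≤ r) (hκ : κ = β * r) (hk1 : 0.6 ≤ κ) (hk2 : κ ≤ 0.7)
    (hh : h = 2 * Real.pi / 5) (hh1 : 1.25663 ≤ h) (hh2 : h ≤ 1.25664) (hta : 1.068 ≤ t + κ) (htb : t + κ ≤ 1.3195)
    (hY : 0.8735 * Real.exp (r * sE κ (t - h)) ≤ ‖Xf β r h t 0‖) (hV : 0.99535 + 0.0492 * (t - h + κ) ≤ sE κ (t - h)) :
    ‖Xf β r h t (-2)‖ ≤ 0.000272 * ‖Xf β r h t 0‖ := by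
  rw [v5_Xm2 hh]
  exact v5_cmp0 0.926 0.00009518 0.000272 hr (B5Eo_C80 (t := t + 2 * h) hβ hr hκ hk1 hk2 (by linarith only [hta, htb, hh1, hh2]) (by linarith only [hta, htb, hh1, hh2])) hY (by norm_num) (by norm_num) (by norm_num) (by linarith only [hV, hta, htb, hh1, hh2]) (ex_un 9 0.2599 (by norm_num) (by norm_num) (by norm_num) (by norm_num)) (by norm_num)

private theorem B5Eo_G86 {κ : ℝ} (hk1 : 0.6 ≤ κ) (hk2 : κ ≤ 0.7) : gG κ 0.42 ≤ 1.16176 ∧ 0.55542 ≤ Real.exp (-(κ * 0.42)) ^ 2 := by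
  refine ⟨gG_le 0.42 0.6 0.7 1.16176 0.77725 0.74528 1.2866 1.34179 hk1 hk2 (by norm_num)
    (ex_um 0.252 (by norm_num) (by norm_num) (by norm_num) (by norm_num)) (ex_um 0.294 (by norm_num) (by norm_num) (by norm_num) (by norm_num))
    (ex_up 0.252 (by norm_num) (by norm_num) (by norm_num) (by norm_num)) (ex_up 0.294 (by norm_num) (by norm_num) (by norm_num) (by norm_num))
    (by norm_num) (by norm_num), ?_⟩
  exact v5_M 0.74527 (ex_lm 0.294 (by linarith) (by norm_num) (by norm_num) (by norm_num) (by norm_num)) (by norm_num) (by norm_num)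

private theorem B5Eo_C87 {β r t κ : ℝ} (hβ : 0 < β) (hr : 10 ≤ r) (hκ : κ = β * r) (hk1 : 0.6 ≤ κ) (hk2 : κ ≤ 0.7) (hta : 1.0679 ≤ t + κ)
    (htb : t + κ ≤ 1.3196) : ‖F (cexp (I * β)) (r * cexp (I * ((t + β / 2 : ℝ) : ℂ)))‖ ≤
      2.0308 * Real.exp (r * (1.16176 - 0.42 * (t + κ))) + 0.1601 * Real.exp (r * 0) :=
  v5_H 0.42 0.6 0.7 1.0679 1.3196 1.16176 2.0152 0.55542 0.1056 1.9385 0.851 0.20802 0.125 0.00000151 2.0308 0.1601 hβ hr hκ (by norm_num) hk1 hk2 hta htb (by norm_num) (B5Eo_G86 hk1 hk2).1 (B5Eo_G86 hk1 hk2).2 (by norm_num) (by norm_num) (by norm_num)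
    (by norm_num) (by norm_num) (by norm_num) (by norm_num) (by norm_num) (by norm_num) (by norm_num) (by norm_num) (ex_un 2 0.0801 (by norm_num) (by norm_num) (by norm_num) (by norm_num))
    (v5_hump 3.1895 14.285 3.7796 0.0000009316 0.00000151 hβ hr hκ hk1 hk2 (by norm_num) htb (by norm_num) (by norm_num) (by norm_num) (by norm_num) (by norm_num) (by norm_num) (by norm_num) (ex_un 13 0.9 (by norm_num) (by norm_num) (by norm_num) (by norm_num)) (by norm_num)) (by norm_num) (by norm_num)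

private theorem B5Eo_K88 {β r t κ h : ℝ} (hβ : 0 < β) (hr : 10 ≤ r) (hκ : κ = β * r) (hk1 : 0.6 ≤ κ) (hk2 : κ ≤ 0.7)
    (hh : h = 2 * Real.pi / 5) (hh1 : 1.25663 ≤ h) (hh2 : h ≤ 1.25664) (hta : 1.068 ≤ t + κ) (htb : t + κ ≤ 1.3195)
    (hY : 0.8735 * Real.exp (r * sE κ (t - h)) ≤ ‖Xf β r h t 0‖) (hV : 0.99535 + 0.0492 * (t - h + κ) ≤ sE κ (t - h)) :
    ‖Xf β r h t 1‖ ≤ 0.154 * ‖Xf β r h t 0‖ := by
  rw [v5_X 1 0 (by push_cast; ring)]
  exact v5_cmp 0.2728 0.06579 0.153 0.986 0.00005284 0.00000969 0.154 hr (B5Eo_C87 (t := t + 0 * h) hβ hr hκ hk1 hk2 (by linarith only [hta, htb, hh1, hh2]) (by linarith only [hta, htb, hh1, hh2])) hY (by norm_num) (by norm_num) (by norm_num) (by norm_num) (by linarith only [hV, hta, htb, hh1, hh2]) (ex_un 2 0.7279 (by norm_num) (by norm_num) (by norm_num) (by norm_num)) (by norm_num) (by norm_num) (by linarith only [hV, hta, htb, hh1, hh2]) (ex_un 9 0.8599 (by norm_num) (by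 norm_num) (by norm_num) (by norm_num)) (by norm_num) (by norm_num)

private theorem B5Eo_O89 {β r t κ h : ℝ} (hβ : 0 < β) (hr : 10 ≤ r) (hκ : κ = β * r) (hk1 : 0.6 ≤ κ) (hk2 : κ ≤ 0.7)
    (hh : h = 2 * Real.pi / 5) (hta : 1.068 ≤ t + κ) (htb : t + κ ≤ 1.3195) :
    ‖Xf β r h t (-2)‖ + ‖Xf β r h t (-1)‖ + ‖Xf β r h t 2‖ < |‖Xf β r h t 1‖ - ‖Xf β r h t 0‖| := by
  obtain ⟨hh1, hh2⟩ := v5_h hh
  have hκ0 : 0 < κ := by linarith only [hk1]
  have hN : β * 14.285 ≤ 1 := v5_hN 0.7 14.285 hβ hr hκ hk2 (by norm_num) (by norm_num)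
  have hD1 : DomR κ t := v5_dom hκ0 (by linarith only [hta, htb, hk1, hk2, hh1, hh2]) (Or.inr (by linarith only [hta, htb, hk1, hk2, hh1, hh2]))
  have hD0 : DomR κ (t - h) := v5_dom hκ0 (by linarith only [hta, htb, hk1, hk2, hh1, hh2]) (Or.inr (by linarith only [hta, htb, hk1, hk2, hh1, hh2]))
  have h0a : (-0.1887) ≤ t - h + κ := by linarith only [hta, htb, hh1, hh2]
  have h0b : t - h + κ ≤ 0.0629 := by linarith only [hta, htb, hh1, hh2]
  have e0 : t - h = t + (((0 : ℤ) : ℝ) - 1) * h := by push_cast; ring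
  have hY := B5Eo_Y81 (h := h) hβ hκ hN hk1 hk2 e0 hD0 h0a h0b
  have hV := B5Eo_V82 hD0 hk1 hk2 h0a h0b
  have cp2 := B5Eo_K83 hβ hr hκ hk1 hk2 hh hh1 hh2 hta htb hY hV
  have cm1 := B5Eo_K84 hβ hr hκ hk1 hk2 hh hh1 hh2 hta htb hY hV
  have cm2 := B5Eo_K85 hβ hr hκ hk1 hk2 hh hh1 hh2 hta htb hY hV
  have cn1 := B5Eo_K88 hβ hr hκ hk1 hk2 hh hh1 hh2 hta htb hY hV
  have hp : 0 < ‖Xf β r h t 0‖ := lt_of_lt_of_le (by positivity) hY
  exact v5_out0 _ _ _ _ cm2 cm1 cp2 cn1 hp (by norm_num)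

theorem R1_b5_E {p : ℤ} {β r : ℝ} (hp : IsCoprime (5 : ℤ) p) (hr : 10 ≤ r) (hβ : 0 < β) (hk1 : 0.6 ≤ β * r)
    (hk2 : β * r ≤ 0.7) : Circ (2 * Real.pi * p / 5 + β) r := by
  obtain ⟨h, hh⟩ : ∃ h : ℝ, h = 2 * Real.pi / 5 := ⟨_, rfl⟩
  obtain ⟨hh1, hh2⟩ := v5_h hh
  obtain ⟨κ, hκ⟩ : ∃ κ, κ = β * r := ⟨_, rfl⟩
  rw [← hκ] at hk1 hk2
  refine v5_circ (κ := κ) hp hr hh 0.45 0.61 1.02 0.0151 0.0102 0.00221 0.0026 0.027 0.011 0.0173 0.5368 ?_ ?_ (by norm_num) (by norm_num) (by norm_num) (by norm_num) (by norm_num) (by norm_num) (by norm_num) (by norm_num) (by norm_num) (by norm_num)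
  · intro t g1 g2
    rcases le_total (t + κ) 0.666 with g3 | g3
    · exact B5Ew_W22 hβ hr hκ hk1 hk2 hh (by linarith) (by linarith)
    exact B5Ew_W43 hβ hr hκ hk1 hk2 hh (by linarith) (by linarith)
  · intro t g1 g2 g3
    rcases g3 with g3 | g3
    · rcases le_total (t + κ) 0.251 with g4 | g4
      · exact B5Eo_O16 hβ hr hκ hk1 hk2 hh (by linarith) (by linarith)
      rcases le_total (t + κ) 0.415 with g4 | g4
      · exact B5Eo_O30 hβ hr hκ hk1 hk2 hh (by linarith) (by linarith)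
      exact B5Eo_O45 hβ hr hκ hk1 hk2 hh (by linarith) (by linarith)
    · rcases le_total (t + κ) 0.88 with g4 | g4
      · exact B5Eo_O62 hβ hr hκ hk1 hk2 hh (by linarith) (by linarith)
      rcases le_total (t + κ) 1.068 with g4 | g4
      · exact B5Eo_O75 hβ hr hκ hk1 hk2 hh (by linarith) (by linarith)
      exact B5Eo_O89 hβ hr hκ hk1 hk2 hh (by linarith) (by linarith)

end Sok
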