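import Pool.Agent.Lib.MP_816dec_an.R1b5WF

/-!
MP_816dec_an (A3, row R1), SINGLE CASE `b = 5`, `r ≥ 10`, `0.7 ≤ κ ≤ 0.8`: outside the window, assembly (generated file).
-/

set_option autoImplicit false
set_option linter.unusedVariables false

open Complex Set Filter Topology Metric

namespace Sok

private theorem B5Fo_B1 {κ t : ℝ} (h : DomR κ t) (hk1 : 0.7 ≤ κ) (hk2 : κ ≤ 0.8) (ht1 : 0.0628 ≤ t + κ) (ht2 : t + κ ≤ 0.251) :
    (0.028 ≤ sy κ t ∧ sy κ t ≤ 0.113) ∧ (0.6148 ≤ sx κ t ∧ sx κ t ≤ 0.7775) ∧ κ * Real.exp (-sy κ t) ≤ 0.778 ∧ 1.5193 ≤ sD κ t ∧ sD κ t ≤ 1.7366 := by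
  have hy1 : 0.028 ≤ sy κ t := syR_ge h 0.7 0.8 0.0628 0.028 1.02839 1.0284 0.03599 0.04114 hk1 hk2 (by linarith) (by norm_num) (by norm_num)
    (expn_ge (by norm_num) (by norm_num)) (expn_le (by norm_num) (by norm_num) (by norm_num)) (by norm_num)
    (by norm_num) (by norm_num) (by norm_num) (by norm_num) (by norm_num) (by norm_num)
  have hy2 : sy κ t ≤ 0.113 := syR_le h 0.7 0.8 0.251 0.113 1.11963 0.1524 0.15814 0.18075 hk1 hk2 (by linarith) (by norm_num) (by norm_num)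
    (expn_ge (by norm_num) (by norm_num)) (by norm_num) (by norm_num) (Or.inr ((mul_le_mul_of_nonneg_left (expn_le (E := 1.11964) (by norm_num) (by norm_num) (by norm_num)) (by norm_num)).trans (by norm_num))) (by norm_num) (by norm_num) (by norm_num)
  have hy1' : 0.028 ≤ sy κ t := by linarith
  have hy2' : sy κ t ≤ 0.113 := by linarith
  have hx1 : 0.6148 ≤ sx κ t := sx_lo h 0.7 0.113 0.1131 0.89315 0.6148 hk1 (by norm_num) hy2' (abs_le.2 ⟨by linarith, by linarith⟩) (ex_lm 0.113 (by norm_num) (by norm_num) (by norm_num) (by norm_num) (by norm_num)) (by norm_num) (by norm_num)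
  have hx2 : sx κ t ≤ 0.7775 := sx_hi h 0.8 0.028 0.028 0.97239 0.7775 hk2 hy1' (by norm_num) (le_trans (by linarith) (le_abs_self _)) (ex_um 0.028 (by norm_num) (by norm_num) (by norm_num) (by norm_num)) (by norm_num) (by norm_num)
  refine ⟨⟨hy1', hy2'⟩, ⟨hx1, hx2⟩, v5_n h 0.8 0.028 0.97239 0.778 hk2 hy1' (ex_um 0.028 (by norm_num) (by norm_num) (by norm_num) (by norm_num)) (by norm_num), ?_, ?_⟩
  · exact v5_Dlo h 0.7 0.028 0.113 0.028 0.97238 1.5193 (by norm_num) hk1 hy1' hy2' (ex_lm 0.028 (by norm_num) (by norm_num) (by norm_num) (by norm_num) (by norm_num)) (by norm_num) (by norm_num) (by norm_num) (by norm_num)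
  · exact v5_Dup h 0.8 0.028 0.113 0.97239 0.89316 1.7366 hk2 hy1' hy2' (ex_um 0.028 (by norm_num) (by norm_num) (by norm_num) (by norm_num)) (ex_um 0.113 (by norm_num) (by norm_num) (by norm_num) (by norm_num)) (by norm_num) (by norm_num) (by norm_num)

private theorem B5Fo_T2_0_0 {β x y : ℝ} (hβ : 0 < β) (hN : β * 12.499 ≤ 1) (hx1 : 0.6147 ≤ x) (hx2 : x ≤ 0.735)
    (hy1 : -0 ≤ y) (hy2 : y ≤ 0.1131) : ‖HH β (x + y * I) - 1‖ ≤ 0.03 := by
  refine le_epsJ (C := 0.3742) (N0 := 12.499) (J_boxp 0.6147 0.735 0 0.1131 0.1131 1.1428 0.7437 1.3339 0.9454 0.4608 3.5354 12.499 0.6508 2.354 1.338 1.1374 0.5713 0.4474 1.2187 3.6768 0.642 1.3395 2.315 3.3869 0.0007928 0.003729 0.0000003101 0.0000003101 0.0003276 0.0000003101 0.0000003101 0.0000003101 0.3742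
    hβ hN hx1 hx2 hy1 hy2 (by norm_num) (by norm_num) (by linarith) (by norm_num) (by norm_num) (by norm_num) (by norm_num) (by norm_num) (by norm_num) (by norm_num) (by norm_num) (by norm_num) (by norm_num) (by norm_num) (by norm_num) (by norm_num) (by norm_num) (by norm_num) (by norm_num) (by norm_num) (by norm_num) (by norm_num) (by norm_num) (by norm_num)
    (cube_sqrt_geJ (s := 0.8849) (by norm_num) (by norm_num) (by norm_num) (by norm_num))
    (cube_sqrt_geJ (s := 0.9593) (by norm_num) (by norm_num) (by norm_num) (by norm_num))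
    (by norm_num) (by norm_num) (by norm_num) (by norm_num) (by norm_num) (by norm_num) (by norm_num) (by norm_num) (by norm_num) (by norm_num) (by norm_num) (by norm_num) (by norm_num) (by norm_num) (by norm_num) (by norm_num) (by norm_num) (by norm_num)
    (exp_neg_leJ (r := 0.14) 7 (by norm_num) (by norm_num) (by norm_num) (by norm_num))
    (exp_neg_leJ (r := 0.592) 5 (by norm_num) (by norm_num) (by norm_num) (by norm_num))
    (exp_neg_leJ (r := 0.99) 14 (by norm_num) (by norm_num) (by norm_num) (by norm_num))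
    (exp_neg_leJ (r := 0.99) 14 (by norm_num) (by norm_num) (by norm_num) (by norm_num))
    (exp_neg_leJ (r := 0.024) 8 (by norm_num) (by norm_num) (by norm_num) (by norm_num))
    (exp_neg_leJ (r := 0.99) 14 (by norm_num) (by norm_num) (by norm_num) (by norm_num))
    (exp_neg_leJ (r := 0.99) 14 (by norm_num) (by norm_num) (by norm_num) (by norm_num))
    (exp_neg_leJ (r := 0.99) 14 (by norm_num) (by norm_num) (by norm_num) (by norm_num))
    (by norm_num)) (by norm_num) hN hβ.le (by norm_num)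

private theorem B5Fo_T2_0_1 {β x y : ℝ} (hβ : 0 < β) (hN : β * 12.499 ≤ 1) (hx1 : 0.735 ≤ x) (hx2 : x ≤ 0.7776)
    (hy1 : -0 ≤ y) (hy2 : y ≤ 0.1131) : ‖HH β (x + y * I) - 1‖ ≤ 0.03 := by
  refine le_epsJ (C := 0.3129) (N0 := 12.499) (J_boxp 0.735 0.7776 0 0.1131 0.1131 1.2276 0.7858 1.3579 0.8568 0.4649 3.5354 12.499 0.6402 2.317 1.331 1.121 0.6137 0.4828 1.2598 3.6523 0.7004 1.5061 2.5556 3.5131 0.000467 0.002396 0.0000003101 0.0000003101 0.0001581 0.0000003101 0.0000003101 0.0000003101 0.3129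
    hβ hN hx1 hx2 hy1 hy2 (by norm_num) (by norm_num) (by linarith) (by norm_num) (by norm_num) (by norm_num) (by norm_num) (by norm_num) (by norm_num) (by norm_num) (by norm_num) (by norm_num) (by norm_num) (by norm_num) (by norm_num) (by norm_num) (by norm_num) (by norm_num) (by norm_num) (by norm_num) (by norm_num) (by norm_num) (by norm_num) (by norm_num)
    (cube_sqrt_geJ (s := 0.8869) (by norm_num) (by norm_num) (by norm_num) (by norm_num))
    (cube_sqrt_geJ (s := 0.96) (by norm_num) (by norm_num) (by norm_num) (by norm_num))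
    (by norm_num) (by norm_num) (by norm_num) (by norm_num) (by norm_num) (by norm_num) (by norm_num) (by norm_num) (by norm_num) (by norm_num) (by norm_num) (by norm_num) (by norm_num) (by norm_num) (by norm_num) (by norm_num) (by norm_num) (by norm_num)
    (exp_neg_leJ (r := 0.67) 7 (by norm_num) (by norm_num) (by norm_num) (by norm_num))
    (exp_neg_leJ (r := 0.034) 6 (by norm_num) (by norm_num) (by norm_num) (by norm_num))
    (exp_neg_leJ (r := 0.99) 14 (by norm_num) (by norm_num) (by norm_num) (by norm_num))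
    (exp_neg_leJ (r := 0.99) 14 (by norm_num) (by norm_num) (by norm_num) (by norm_num))
    (exp_neg_leJ (r := 0.754) 8 (by norm_num) (by norm_num) (by norm_num) (by norm_num))
    (exp_neg_leJ (r := 0.99) 14 (by norm_num) (by norm_num) (by norm_num) (by norm_num))
    (exp_neg_leJ (r := 0.99) 14 (by norm_num) (by norm_num) (by norm_num) (by norm_num))
    (exp_neg_leJ (r := 0.99) 14 (by norm_num) (by norm_num) (by norm_num) (by norm_num))
    (by norm_num)) (by norm_num) hN hβ.le (by norm_num)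

private theorem B5Fo_T2 {β x y : ℝ} (hβ : 0 < β) (hN : β * 12.499 ≤ 1) (hx1 : 0.6147 ≤ x) (hx2 : x ≤ 0.7776)
    (hy1 : 0.0279 ≤ y) (hy2 : y ≤ 0.1131) : ‖HH β (x + y * I) - 1‖ ≤ 0.03 := by
  rcases le_total x 0.735 with hxx | hxx
  · exact B5Fo_T2_0_0 hβ hN (by linarith) (by linarith) (by linarith) (by linarith)
  exact B5Fo_T2_0_1 hβ hN (by linarith) (by linarith) (by linarith) (by linarith)

private theorem B5Fo_G3 {κ : ℝ} (hk1 : 0.7 ≤ κ) (hk2 : κ ≤ 0.8) : gG κ 0.46 ≤ 1.2211 ∧ 0.47901 ≤ Real.exp (-(κ * 0.46)) ^ 2 := by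
  refine ⟨gG_le 0.46 0.7 0.8 1.2211 0.7247 0.69212 1.37989 1.44485 hk1 hk2 (by norm_num)
    (ex_um 0.322 (by norm_num) (by norm_num) (by norm_num) (by norm_num)) (ex_um 0.368 (by norm_num) (by norm_num) (by norm_num) (by norm_num))
    (ex_up 0.322 (by norm_num) (by norm_num) (by norm_num) (by norm_num)) (ex_up 0.368 (by norm_num) (by norm_num) (by norm_num) (by norm_num))
    (by norm_num) (by norm_num), ?_⟩
  exact v5_M 0.69211 (ex_lm 0.368 (by linarith) (by norm_num) (by norm_num) (by norm_num) (by norm_num)) (by norm_num) (by norm_num)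

private theorem B5Fo_C4 {β r t κ : ℝ} (hβ : 0 < β) (hr : 10 ≤ r) (hκ : κ = β * r) (hk1 : 0.7 ≤ κ) (hk2 : κ ≤ 0.8) (hta : 1.3194 ≤ t + κ)
    (htb : t + κ ≤ 1.5077) : ‖F (cexp (I * β)) (r * cexp (I * ((t + β / 2 : ℝ) : ℂ)))‖ ≤
      2.0759 * Real.exp (r * (1.2211 - 0.46 * (t + κ))) + 0.167 * Real.exp (r * 0) :=
  v5_H 0.46 0.7 0.8 1.3194 1.5077 1.2211 2.0357 0.47901 0.1129 2.09 0.7629 0.13053 0.2712 0.00000142 2.0759 0.167 hβ hr hκ (by norm_num) hk1 hk2 hta htb (by norm_num) (B5Fo_G3 hk1 hk2).1 (B5Fo_G3 hk1 hk2).2 (by norm_num) (by norm_num) (by norm_num)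
    (by norm_num) (by norm_num) (by norm_num) (by norm_num) (by norm_num) (by norm_num) (by norm_num) (by norm_num) (ex_un 1 0.3052 (by norm_num) (by norm_num) (by norm_num) (by norm_num))
    (v5_hump 2.8296 12.499 3.5354 0.0000009316 0.00000142 hβ hr hκ hk1 hk2 (by norm_num) htb (by norm_num) (by norm_num) (by norm_num) (by norm_num) (by norm_num) (by norm_num) (by norm_num) (ex_un 13 0.9 (by norm_num) (by norm_num) (by norm_num) (by norm_num)) (by norm_num)) (by norm_num) (by norm_num)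

private theorem B5Fo_G5 {κ : ℝ} (hk1 : 0.7 ≤ κ) (hk2 : κ ≤ 0.8) : gG κ (-0.69) ≤ 1.32389 ∧ 2.62738 ≤ Real.exp (-(κ * (-0.69))) ^ 2 := by
  refine ⟨gG_le (-0.69) 0.7 0.8 1.32389 1.62093 1.73673 0.61694 0.5758 hk1 hk2 (by norm_num)
    (ex_up 0.483 (by norm_num) (by norm_num) (by norm_num) (by norm_num)) (ex_up 0.552 (by norm_num) (by norm_num) (by norm_num) (by norm_num))
    (ex_um 0.483 (by norm_num) (by norm_num) (by norm_num) (by norm_num)) (ex_um 0.552 (by norm_num) (by norm_num) (by norm_num) (by norm_num))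
    (by norm_num) (by norm_num), ?_⟩
  exact v5_M 1.62092 (ex_lp 0.483 (by linarith) (by norm_num) (by norm_num)) (by norm_num) (by norm_num)

private theorem B5Fo_C6 {β r t κ : ℝ} (hβ : 0 < β) (hr : 10 ≤ r) (hκ : κ = β * r) (hk1 : 0.7 ≤ κ) (hk2 : κ ≤ 0.8) (hta : (-2.4505) ≤ t + κ)
    (htb : t + κ ≤ (-2.2622)) : ‖F (cexp (I * β)) (r * cexp (I * ((t + β / 2 : ℝ) : ℂ)))‖ ≤
      1.2088 * Real.exp (r * (1.32389 - (-0.69) * (t + κ))) + 1.8972 * Real.exp (r * 0.0501) :=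
  v5_HU (-0.69) 0.7 0.8 (-2.4505) (-2.2622) 1.32389 1.2088 2.62738 0.1129 0.9147 1.4614 0 0.0501 0.00000142 1.8972 hβ hr hκ (by norm_num) hk1 hk2 hta htb (by norm_num) (by norm_num) (B5Fo_G5 hk1 hk2).1 (B5Fo_G5 hk1 hk2).2 (by norm_num) (by norm_num) (by norm_num)
    (by norm_num) (by norm_num) (by norm_num) (by norm_num) (by norm_num) (by norm_num) (by norm_num)
    (by norm_num) (by norm_num) (by norm_num) (v5_hump 6.5995 12.499 3.5354 0.0000009316 0.00000142 hβ hr hκ hk1 hk2 (by norm_num) htb (by norm_num) (by norm_num) (by norm_num) (by norm_num) (by norm_num) (by norm_num) (by norm_num) (ex_un 13 0.9 (by norm_num) (by norm_num) (by norm_num) (by norm_num)) (by norm_num)) (by norm_num)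

private theorem B5Fo_C7 {β r t κ : ℝ} (hβ : 0 < β) (hr : 10 ≤ r) (hκ : κ = β * r) (hk1 : 0.7 ≤ κ) (hk2 : κ ≤ 0.8) (hta : 2.576 ≤ t + κ)
    (htb : t + κ ≤ 2.7643) : ‖F (cexp (I * β)) (r * cexp (I * ((t + β / 2 : ℝ) : ℂ)))‖ ≤
      2.6125 * Real.exp (r * (0.01 + 1 / 20)) :=
  v5_UD 0.7 0.8 2.576 2.7643 0.01 0.4769 0.01 1.362 2.6125 hβ hr hκ (by norm_num) hk1 hk2 hta htb (by norm_num) (by norm_num) (by norm_num) (by norm_num) (by norm_num) (by norm_num) (by norm_num) (by norm_num) (by norm_num) (by norm_num) (by norm_num)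

private theorem B5Fo_Y8 {β r t κ h t' : ℝ} (hβ : 0 < β) (hκ : κ = β * r) (hN : β * 12.499 ≤ 1) (hk1 : 0.7 ≤ κ) (hk2 : κ ≤ 0.8)
    (ht : t' = t + (((1 : ℤ) : ℝ) - 1) * h) (hD : DomR κ t') (hta : 0.0628 ≤ t' + κ) (htb : t' + κ ≤ 0.251) :
    0.8449 * Real.exp (r * sE κ t') ≤ ‖Xf β r h t 1‖ := by
  obtain ⟨⟨ya, yb⟩, ⟨xa, xb⟩, n1, Da, Db⟩ := B5Fo_B1 hD hk1 hk2 hta htb
  have J := B5Fo_T2 (x := sx κ t') (y := sy κ t') hβ hN (by linarith only [xa, xb, ya, yb]) (by linarith only [xa, xb, ya, yb]) (by linarith only [xa, xb, ya, yb]) (by linarith only [xa, xb, ya, yb])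
  exact v5_Jlo hβ hκ (k := 1) ht hD 0.03 1.7366 0.8449 (by norm_num) J Db (by norm_num)

private theorem B5Fo_V9 {κ t : ℝ} (hD : DomR κ t) (hk1 : 0.7 ≤ κ) (hk2 : κ ≤ 0.8) (hta : 0.0628 ≤ t + κ) (htb : t + κ ≤ 0.251) :
    1.00499 - 0.1003 * (t + κ) ≤ sE κ t := by
  have hκ0 : 0 < κ := hD.1
  exact v5_V1 hD 0.7 0.8 0.0628 0.251 0.09014 0.21119 0.29283 1.00499 0.1003 (by norm_num) hk1 hk2 (by norm_num) (by norm_num) hta htb (by norm_num) (clo5 0.7 0.8 0.29283 (by norm_num) hk1 hk2 (by norm_num) (by norm_num) (by norm_num))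
      ((cup1 0.8 hκ0.le hk2 (by norm_num)).trans (by norm_num)) (by norm_num) (by norm_num) (by norm_num) (by norm_num) (by norm_num) (by norm_num)

private theorem B5Fo_K10 {β r t κ h : ℝ} (hβ : 0 < β) (hr : 10 ≤ r) (hκ : κ = β * r) (hk1 : 0.7 ≤ κ) (hk2 : κ ≤ 0.8)
    (hh : h = 2 * Real.pi / 5) (hh1 : 1.25663 ≤ h) (hh2 : h ≤ 1.25664) (hta : 0.0628 ≤ t + κ) (htb : t + κ ≤ 0.251)
    (hY : 0.8449 * Real.exp (r * sE κ t) ≤ ‖Xf β r h t 1‖) (hV : 1.00499 - 0.1003 * (t + κ) ≤ sE κ t) :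
    ‖Xf β r h t 2‖ ≤ 0.0533 * ‖Xf β r h t 1‖ := by
  rw [v5_X 2 1 (by push_cast; ring)]
  exact v5_cmp 0.3845 0.02163 0.0532 0.9798 0.00005608 0.0000111 0.0533 hr (B5Fo_C4 (t := t + 1 * h) hβ hr hκ hk1 hk2 (by linarith only [hta, htb, hh1, hh2]) (by linarith only [hta, htb, hh1, hh2])) hY (by norm_num) (by norm_num) (by norm_num) (by norm_num) (by linarith only [hV, hta, htb, hh1, hh2]) (ex_un 3 0.8449 (by norm_num) (by norm_num) (by norm_num) (by norm_num)) (by norm_num) (by norm_num) (by linarith only [hV, hta, htb, hh1, hh2]) (ex_un 9 0.7979 (by norm_num) (by norm_num) (by norm_num) (by norm_num)) (by norm_num) (by norm_num)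

private theorem B5Fo_K11 {β r t κ h : ℝ} (hβ : 0 < β) (hr : 10 ≤ r) (hκ : κ = β * r) (hk1 : 0.7 ≤ κ) (hk2 : κ ≤ 0.8)
    (hh : h = 2 * Real.pi / 5) (hh1 : 1.25663 ≤ h) (hh2 : h ≤ 1.25664) (hta : 0.0628 ≤ t + κ) (htb : t + κ ≤ 0.251)
    (hY : 0.8449 * Real.exp (r * sE κ t) ≤ ‖Xf β r h t 1‖) (hV : 1.00499 - 0.1003 * (t + κ) ≤ sE κ t) :
    ‖Xf β r h t (-1)‖ ≤ 0.000214 * ‖Xf β r h t 1‖ := by
  rw [v5_X (-1) (-2) (by push_cast; ring)]
  exact v5_cmp 1.2168 0.000005195 0.00000744 0.9297 0.00009174 0.000206 0.000214 hr (B5Fo_C6 (t := t + (-2) * h) hβ hr hκ hk1 hk2 (by linarith only [hta, htb, hh1, hh2]) (by linarith only [hta, htb, hh1, hh2])) hY (by norm_num) (by norm_num) (by norm_num) (by norm_num) (by linarith only [hV, hta, htb, hh1, hh2]) (ex_un 12 0.1679 (by norm_num) (by norm_num) (by norm_num) (by norm_num)) (by norm_num) (by norm_num) (by linarith only [hV, hta, htb, hh1, hh2]) (ex_un 9 0.2969 (by norm_num)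 (by norm_num) (by norm_num) (by norm_num)) (by norm_num) (by norm_num)

private theorem B5Fo_K12 {β r t κ h : ℝ} (hβ : 0 < β) (hr : 10 ≤ r) (hκ : κ = β * r) (hk1 : 0.7 ≤ κ) (hk2 : κ ≤ 0.8)
    (hh : h = 2 * Real.pi / 5) (hh1 : 1.25663 ≤ h) (hh2 : h ≤ 1.25664) (hta : 0.0628 ≤ t + κ) (htb : t + κ ≤ 0.251)
    (hY : 0.8449 * Real.exp (r * sE κ t) ≤ ‖Xf β r h t 1‖) (hV : 1.00499 - 0.1003 * (t + κ) ≤ sE κ t) :
    ‖Xf β r h t (-2)‖ ≤ 0.000314 * ‖Xf β r h t 1‖ := by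
  rw [v5_Xm2 hh]
  exact v5_cmp0 0.9198 0.0001013 0.000314 hr (B5Fo_C7 (t := t + 2 * h) hβ hr hκ hk1 hk2 (by linarith only [hta, htb, hh1, hh2]) (by linarith only [hta, htb, hh1, hh2])) hY (by norm_num) (by norm_num) (by norm_num) (by linarith only [hV, hta, htb, hh1, hh2]) (ex_un 9 0.1979 (by norm_num) (by norm_num) (by norm_num) (by norm_num)) (by norm_num)

private theorem B5Fo_G13 {κ : ℝ} (hk1 : 0.7 ≤ κ) (hk2 : κ ≤ 0.8) : gG κ (-0.71) ≤ 1.34181 ∧ 2.70201 ≤ Real.exp (-(κ * (-0.71))) ^ 2 := by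
  refine ⟨gG_le (-0.71) 0.7 0.8 1.34181 1.64379 1.76474 0.60836 0.56666 hk1 hk2 (by norm_num)
    (ex_up 0.497 (by norm_num) (by norm_num) (by norm_num) (by norm_num)) (ex_up 0.568 (by norm_num) (by norm_num) (by norm_num) (by norm_num))
    (ex_um 0.497 (by norm_num) (by norm_num) (by norm_num) (by norm_num)) (ex_um 0.568 (by norm_num) (by norm_num) (by norm_num) (by norm_num))
    (by norm_num) (by norm_num), ?_⟩
  exact v5_M 1.64378 (ex_lp 0.497 (by linarith) (by norm_num) (by norm_num)) (by norm_num) (by norm_num)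

private theorem B5Fo_C14 {β r t κ : ℝ} (hβ : 0 < β) (hr : 10 ≤ r) (hκ : κ = β * r) (hk1 : 0.7 ≤ κ) (hk2 : κ ≤ 0.8) (hta : (-1.1939) ≤ t + κ)
    (htb : t + κ ≤ (-1.0056)) : ‖F (cexp (I * β)) (r * cexp (I * ((t + β / 2 : ℝ) : ℂ)))‖ ≤
      1.2023 * Real.exp (r * (1.34181 - (-0.71) * (t + κ))) + 1.8761 * Real.exp (r * 0.0501) :=
  v5_HU (-0.71) 0.7 0.8 (-1.1939) (-1.0056) 1.34181 1.2023 2.70201 0.1129 0.9147 2.718 0 0.0501 0.00000142 1.8761 hβ hr hκ (by norm_num) hk1 hk2 hta htb (by norm_num) (by norm_num) (B5Fo_G13 hk1 hk2).1 (B5Fo_G13 hk1 hk2).2 (by norm_num) (by norm_num) (by norm_num)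
    (by norm_num) (by norm_num) (by norm_num) (by norm_num) (by norm_num) (by norm_num) (by norm_num)
    (by norm_num) (by norm_num) (by norm_num) (v5_hump 5.3429 12.499 3.5354 0.0000009316 0.00000142 hβ hr hκ hk1 hk2 (by norm_num) htb (by norm_num) (by norm_num) (by norm_num) (by norm_num) (by norm_num) (by norm_num) (by norm_num) (ex_un 13 0.9 (by norm_num) (by norm_num) (by norm_num) (by norm_num)) (by norm_num)) (by norm_num)

private theorem B5Fo_K15 {β r t κ h : ℝ} (hβ : 0 < β) (hr : 10 ≤ r) (hκ : κ = β * r) (hk1 : 0.7 ≤ κ) (hk2 : κ ≤ 0.8)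
    (hh : h = 2 * Real.pi / 5) (hh1 : 1.25663 ≤ h) (hh2 : h ≤ 1.25664) (hta : 0.0628 ≤ t + κ) (htb : t + κ ≤ 0.251)
    (hY : 0.8449 * Real.exp (r * sE κ t) ≤ ‖Xf β r h t 1‖) (hV : 1.00499 - 0.1003 * (t + κ) ≤ sE κ t) :
    ‖Xf β r h t 0‖ ≤ 0.0426 * ‖Xf β r h t 1‖ := by
  rw [v5_X 0 (-1) (by push_cast; ring)]
  exact v5_cmp 0.352 0.02967 0.0423 0.9297 0.00009174 0.000204 0.0426 hr (B5Fo_C14 (t := t + (-1) * h) hβ hr hκ hk1 hk2 (by linarith only [hta, htb, hh1, hh2]) (by linarith only [hta, htb, hh1, hh2])) hY (by norm_num) (by norm_num) (by norm_num) (by norm_num) (by linarith only [hV, hta, htb, hh1, hh2]) (ex_un 3 0.5199 (by norm_num) (by norm_num) (by norm_num) (by norm_num)) (by norm_num) (by norm_num) (by linarith only [hV, hta, htb, hh1, hh2]) (ex_un 9 0.2969 (by norm_num) (by norm_num) (by norm_num) (by norm_num)) (by norm_num) (by norm_num)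

private theorem B5Fo_O16 {β r t κ h : ℝ} (hβ : 0 < β) (hr : 10 ≤ r) (hκ : κ = β * r) (hk1 : 0.7 ≤ κ) (hk2 : κ ≤ 0.8)
    (hh : h = 2 * Real.pi / 5) (hta : 0.0628 ≤ t + κ) (htb : t + κ ≤ 0.251) :
    ‖Xf β r h t (-2)‖ + ‖Xf β r h t (-1)‖ + ‖Xf β r h t 2‖ < |‖Xf β r h t 1‖ - ‖Xf β r h t 0‖| := by
  obtain ⟨hh1, hh2⟩ := v5_h hh
  have hκ0 : 0 < κ := by linarith only [hk1]
  have hN : β * 12.499 ≤ 1 := v5_hN 0.8 12.499 hβ hr hκ hk2 (by norm_num) (by norm_num)
  have hD1 : DomR κ t := v5_dom hκ0 (by linarith only [hta, htb, hk1, hk2, hh1, hh2]) (Or.inr (by linarith only [hta, htb, hk1, hk2, hh1, hh2]))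
  have e1 : t = t + (((1 : ℤ) : ℝ) - 1) * h := by push_cast; ring
  have hY := B5Fo_Y8 (h := h) hβ hκ hN hk1 hk2 e1 hD1 hta htb
  have hV := B5Fo_V9 hD1 hk1 hk2 hta htb
  have cp2 := B5Fo_K10 hβ hr hκ hk1 hk2 hh hh1 hh2 hta htb hY hV
  have cm1 := B5Fo_K11 hβ hr hκ hk1 hk2 hh hh1 hh2 hta htb hY hV
  have cm2 := B5Fo_K12 hβ hr hκ hk1 hk2 hh hh1 hh2 hta htb hY hV
  have cn0 := B5Fo_K15 hβ hr hκ hk1 hk2 hh hh1 hh2 hta htb hY hV
  have hp : 0 < ‖Xf β r h t 1‖ := lt_of_lt_of_le (by positivity) hY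
  exact v5_out1 _ _ _ _ cm2 cm1 cp2 cn0 hp (by norm_num)

private theorem B5Fo_B17 {κ t : ℝ} (h : DomR κ t) (hk1 : 0.7 ≤ κ) (hk2 : κ ≤ 0.8) (ht1 : 0.251 ≤ t + κ) (ht2 : t + κ ≤ 0.415) :
    (0.106 ≤ sy κ t ∧ sy κ t ≤ 0.175) ∧ (0.5609 ≤ sx κ t ∧ sx κ t ≤ 0.7117) ∧ κ * Real.exp (-sy κ t) ≤ 0.7196 ∧ 1.6083 ≤ sD κ t ∧ sD κ t ≤ 1.8011 := by
  have hy1 : 0.106 ≤ sy κ t := syR_ge h 0.7 0.8 0.251 0.106 1.11182 1.11183 0.14731 0.16837 hk1 hk2 (by linarith) (by norm_num) (by norm_num)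
    (expn_ge (by norm_num) (by norm_num)) (expn_le (by norm_num) (by norm_num) (by norm_num)) (by norm_num)
    (by norm_num) (by norm_num) (by norm_num) (by norm_num) (by norm_num) (by norm_num)
  have hy2 : sy κ t ≤ 0.175 := syR_le h 0.7 0.8 0.415 0.175 1.19124 0.2574 0.26058 0.29782 hk1 hk2 (by linarith) (by norm_num) (by norm_num)
    (expn_ge (by norm_num) (by norm_num)) (by norm_num) (by norm_num) (Or.inr ((mul_le_mul_of_nonneg_left (expn_le (E := 1.19125) (by norm_num) (by norm_num) (by norm_num)) (by norm_num)).trans (by norm_num))) (by norm_num) (by norm_num) (by norm_num)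
  have hy1' : 0.106 ≤ sy κ t := by linarith
  have hy2' : sy κ t ≤ 0.175 := by linarith
  have hx1 : 0.5609 ≤ sx κ t := sx_lo h 0.7 0.175 0.1751 0.83945 0.5609 hk1 (by norm_num) hy2' (abs_le.2 ⟨by linarith, by linarith⟩) (ex_lm 0.175 (by norm_num) (by norm_num) (by norm_num) (by norm_num) (by norm_num)) (by norm_num) (by norm_num)
  have hx2 : sx κ t ≤ 0.7117 := sx_hi h 0.8 0.106 0.106 0.89943 0.7117 hk2 hy1' (by norm_num) (le_trans (by linarith) (le_abs_self _)) (ex_um 0.106 (by norm_num) (by norm_num) (by norm_num) (by norm_num)) (by norm_num) (by norm_num)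
  refine ⟨⟨hy1', hy2'⟩, ⟨hx1, hx2⟩, v5_n h 0.8 0.106 0.89943 0.7196 hk2 hy1' (ex_um 0.106 (by norm_num) (by norm_num) (by norm_num) (by norm_num)) (by norm_num), ?_, ?_⟩
  · exact v5_Dlo h 0.7 0.106 0.175 0.106 0.89942 1.6083 (by norm_num) hk1 hy1' hy2' (ex_lm 0.106 (by norm_num) (by norm_num) (by norm_num) (by norm_num) (by norm_num)) (by norm_num) (by norm_num) (by norm_num) (by norm_num)
  · exact v5_Dup h 0.8 0.106 0.175 0.89943 0.83946 1.8011 hk2 hy1' hy2' (ex_um 0.106 (by norm_num) (by norm_num) (by norm_num) (by norm_num)) (ex_um 0.175 (by norm_num) (by norm_num) (by norm_num) (by norm_num)) (by norm_num) (by norm_num) (by norm_num)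

private theorem B5Fo_T18_0_0 {β x y : ℝ} (hβ : 0 < β) (hN : β * 12.499 ≤ 1) (hx1 : 0.5608 ≤ x) (hx2 : x ≤ 0.666)
    (hy1 : -0 ≤ y) (hy2 : y ≤ 0.1751) : ‖HH β (x + y * I) - 1‖ ≤ 0.03 := by
  refine le_epsJ (C := 0.3743) (N0 := 12.499) (J_boxp 0.5608 0.666 0 0.1751 0.1751 1.1049 0.6887 1.3508 1.0008 0.4637 3.5354 12.499 0.6234 2.26 1.321 1.1639 0.5524 0.4376 1.2002 3.7129 0.6095 1.2586 1.9412 3.1365 0.001007 0.004217 0.0000003101 0.0000003101 0.0004918 0.0000003101 0.0000003101 0.0000003101 0.3743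
    hβ hN hx1 hx2 hy1 hy2 (by norm_num) (by norm_num) (by linarith) (by norm_num) (by norm_num) (by norm_num) (by norm_num) (by norm_num) (by norm_num) (by norm_num) (by norm_num) (by norm_num) (by norm_num) (by norm_num) (by norm_num) (by norm_num) (by norm_num) (by norm_num) (by norm_num) (by norm_num) (by norm_num) (by norm_num) (by norm_num) (by norm_num)
    (cube_sqrt_geJ (s := 0.89) (by norm_num) (by norm_num) (by norm_num) (by norm_num))
    (cube_sqrt_geJ (s := 0.961) (by norm_num) (by norm_num) (by norm_num) (by norm_num))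
    (by norm_num) (by norm_num) (by norm_num) (by norm_num) (by norm_num) (by norm_num) (by norm_num) (by norm_num) (by norm_num) (by norm_num) (by norm_num) (by norm_num) (by norm_num) (by norm_num) (by norm_num) (by norm_num) (by norm_num) (by norm_num)
    (exp_neg_leJ (r := 0.904) 6 (by norm_num) (by norm_num) (by norm_num) (by norm_num))
    (exp_neg_leJ (r := 0.469) 5 (by norm_num) (by norm_num) (by norm_num) (by norm_num))
    (exp_neg_leJ (r := 0.99) 14 (by norm_num) (by norm_num) (by norm_num) (by norm_num))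
    (exp_neg_leJ (r := 0.99) 14 (by norm_num) (by norm_num) (by norm_num) (by norm_num))
    (exp_neg_leJ (r := 0.618) 7 (by norm_num) (by norm_num) (by norm_num) (by norm_num))
    (exp_neg_leJ (r := 0.99) 14 (by norm_num) (by norm_num) (by norm_num) (by norm_num))
    (exp_neg_leJ (r := 0.99) 14 (by norm_num) (by norm_num) (by norm_num) (by norm_num))
    (exp_neg_leJ (r := 0.99) 14 (by norm_num) (by norm_num) (by norm_num) (by norm_num))
    (by norm_num)) (by norm_num) hN hβ.le (by norm_num)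

private theorem B5Fo_T18_0_1 {β x y : ℝ} (hβ : 0 < β) (hN : β * 12.499 ≤ 1) (hx1 : 0.666 ≤ x) (hx2 : x ≤ 0.7118)
    (hy1 : -0 ≤ y) (hy2 : y ≤ 0.1751) : ‖HH β (x + y * I) - 1‖ ≤ 0.03 := by
  refine le_epsJ (C := 0.3242) (N0 := 12.499) (J_boxp 0.666 0.7118 0 0.1751 0.1751 1.179 0.7331 1.3739 0.9157 0.4677 3.5354 12.499 0.6218 2.255 1.32 1.1463 0.5894 0.4673 1.2362 3.6868 0.6606 1.4042 2.1516 3.2262 0.0006325 0.002914 0.0000003101 0.0000003101 0.0002598 0.0000003101 0.0000003101 0.0000003101 0.3242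
    hβ hN hx1 hx2 hy1 hy2 (by norm_num) (by norm_num) (by linarith) (by norm_num) (by norm_num) (by norm_num) (by norm_num) (by norm_num) (by norm_num) (by norm_num) (by norm_num) (by norm_num) (by norm_num) (by norm_num) (by norm_num) (by norm_num) (by norm_num) (by norm_num) (by norm_num) (by norm_num) (by norm_num) (by norm_num) (by norm_num) (by norm_num)
    (cube_sqrt_geJ (s := 0.8903) (by norm_num) (by norm_num) (by norm_num) (by norm_num))
    (cube_sqrt_geJ (s := 0.9611) (by norm_num) (by norm_num) (by norm_num) (by norm_num))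
    (by norm_num) (by norm_num) (by norm_num) (by norm_num) (by norm_num) (by norm_num) (by norm_num) (by norm_num) (by norm_num) (by norm_num) (by norm_num) (by norm_num) (by norm_num) (by norm_num) (by norm_num) (by norm_num) (by norm_num) (by norm_num)
    (exp_neg_leJ (r := 0.366) 7 (by norm_num) (by norm_num) (by norm_num) (by norm_num))
    (exp_neg_leJ (r := 0.84) 5 (by norm_num) (by norm_num) (by norm_num) (by norm_num))
    (exp_neg_leJ (r := 0.99) 14 (by norm_num) (by norm_num) (by norm_num) (by norm_num))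
    (exp_neg_leJ (r := 0.99) 14 (by norm_num) (by norm_num) (by norm_num) (by norm_num))
    (exp_neg_leJ (r := 0.256) 8 (by norm_num) (by norm_num) (by norm_num) (by norm_num))
    (exp_neg_leJ (r := 0.99) 14 (by norm_num) (by norm_num) (by norm_num) (by norm_num))
    (exp_neg_leJ (r := 0.99) 14 (by norm_num) (by norm_num) (by norm_num) (by norm_num))
    (exp_neg_leJ (r := 0.99) 14 (by norm_num) (by norm_num) (by norm_num) (by norm_num))
    (by norm_num)) (by norm_num) hN hβ.le (by norm_num)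

private theorem B5Fo_T18 {β x y : ℝ} (hβ : 0 < β) (hN : β * 12.499 ≤ 1) (hx1 : 0.5608 ≤ x) (hx2 : x ≤ 0.7118)
    (hy1 : 0.1059 ≤ y) (hy2 : y ≤ 0.1751) : ‖HH β (x + y * I) - 1‖ ≤ 0.03 := by
  rcases le_total x 0.666 with hxx | hxx
  · exact B5Fo_T18_0_0 hβ hN (by linarith) (by linarith) (by linarith) (by linarith)
  exact B5Fo_T18_0_1 hβ hN (by linarith) (by linarith) (by linarith) (by linarith)

private theorem B5Fo_G19 {κ : ℝ} (hk1 : 0.7 ≤ κ) (hk2 : κ ≤ 0.8) : gG κ 0.49 ≤ 1.25726 ∧ 0.45657 ≤ Real.exp (-(κ * 0.49)) ^ 2 := by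
  refine ⟨gG_le 0.49 0.7 0.8 1.25726 0.70964 0.67571 1.40917 1.47994 hk1 hk2 (by norm_num)
    (ex_um 0.343 (by norm_num) (by norm_num) (by norm_num) (by norm_num)) (ex_um 0.392 (by norm_num) (by norm_num) (by norm_num) (by norm_num))
    (ex_up 0.343 (by norm_num) (by norm_num) (by norm_num) (by norm_num)) (ex_up 0.392 (by norm_num) (by norm_num) (by norm_num) (by norm_num))
    (by norm_num) (by norm_num), ?_⟩
  exact v5_M 0.6757 (ex_lm 0.392 (by linarith) (by norm_num) (by norm_num) (by norm_num) (by norm_num)) (by norm_num) (by norm_num)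

private theorem B5Fo_C20 {β r t κ : ℝ} (hβ : 0 < β) (hr : 10 ≤ r) (hκ : κ = β * r) (hk1 : 0.7 ≤ κ) (hk2 : κ ≤ 0.8) (hta : 1.5076 ≤ t + κ)
    (htb : t + κ ≤ 1.6717) : ‖F (cexp (I * β)) (r * cexp (I * ((t + β / 2 : ℝ) : ℂ)))‖ ≤
      2.2199 * Real.exp (r * (1.25726 - 0.49 * (t + κ))) + 0.1625 * Real.exp (r * 0) :=
  v5_H 0.49 0.7 0.8 1.5076 1.6717 1.25726 2.1461 0.45657 0.1129 2.2782 0.5989 0.09556 0.3911 0.00000142 2.2199 0.1625 hβ hr hκ (by norm_num) hk1 hk2 hta htb (by norm_num) (B5Fo_G19 hk1 hk2).1 (B5Fo_G19 hk1 hk2).2 (by norm_num) (by norm_num) (by norm_num)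
    (by norm_num) (by norm_num) (by norm_num) (by norm_num) (by norm_num) (by norm_num) (by norm_num) (by norm_num) (ex_un 0 0.9555 (by norm_num) (by norm_num) (by norm_num) (by norm_num))
    (v5_hump 2.6656 12.499 3.5354 0.0000009316 0.00000142 hβ hr hκ hk1 hk2 (by norm_num) htb (by norm_num) (by norm_num) (by norm_num) (by norm_num) (by norm_num) (by norm_num) (by norm_num) (ex_un 13 0.9 (by norm_num) (by norm_num) (by norm_num) (by norm_num)) (by norm_num)) (by norm_num) (by norm_num)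

private theorem B5Fo_C21 {β r t κ : ℝ} (hβ : 0 < β) (hr : 10 ≤ r) (hκ : κ = β * r) (hk1 : 0.7 ≤ κ) (hk2 : κ ≤ 0.8) (hta : (-2.2623) ≤ t + κ)
    (htb : t + κ ≤ (-2.0982)) : ‖F (cexp (I * β)) (r * cexp (I * ((t + β / 2 : ℝ) : ℂ)))‖ ≤
      1.2023 * Real.exp (r * (1.34181 - (-0.71) * (t + κ))) + 1.903 * Real.exp (r * 0.0501) :=
  v5_HU (-0.71) 0.7 0.8 (-2.2623) (-2.0982) 1.34181 1.2023 2.70201 0.1129 0.9147 1.6496 0 0.0501 0.00000142 1.903 hβ hr hκ (by norm_num) hk1 hk2 hta htb (by norm_num) (by norm_num) (B5Fo_G13 hk1 hk2).1 (B5Fo_G13 hk1 hk2).2 (by norm_num) (by norm_num) (by norm_num)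
    (by norm_num) (by norm_num) (by norm_num) (by norm_num) (by norm_num) (by norm_num) (by norm_num)
    (by norm_num) (by norm_num) (by norm_num) (v5_hump 6.4355 12.499 3.5354 0.0000009316 0.00000142 hβ hr hκ hk1 hk2 (by norm_num) htb (by norm_num) (by norm_num) (by norm_num) (by norm_num) (by norm_num) (by norm_num) (by norm_num) (ex_un 13 0.9 (by norm_num) (by norm_num) (by norm_num) (by norm_num)) (by norm_num)) (by norm_num)

private theorem B5Fo_C22 {β r t κ : ℝ} (hβ : 0 < β) (hr : 10 ≤ r) (hκ : κ = β * r) (hk1 : 0.7 ≤ κ) (hk2 : κ ≤ 0.8) (hta : 2.7642 ≤ t + κ)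
    (htb : t + κ ≤ 2.9283) : ‖F (cexp (I * β)) (r * cexp (I * ((t + β / 2 : ℝ) : ℂ)))‖ ≤
      2.4539 * Real.exp (r * (0.01 + 1 / 20)) :=
  v5_UD 0.7 0.8 2.7642 2.9283 0.01 0.4769 0.01 1.2793 2.4539 hβ hr hκ (by norm_num) hk1 hk2 hta htb (by norm_num) (by norm_num) (by norm_num) (by norm_num) (by norm_num) (by norm_num) (by norm_num) (by norm_num) (by norm_num) (by norm_num) (by norm_num)

private theorem B5Fo_Y23 {β r t κ h t' : ℝ} (hβ : 0 < β) (hκ : κ = β * r) (hN : β * 12.499 ≤ 1) (hk1 : 0.7 ≤ κ) (hk2 : κ ≤ 0.8)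
    (ht : t' = t + (((1 : ℤ) : ℝ) - 1) * h) (hD : DomR κ t') (hta : 0.251 ≤ t' + κ) (htb : t' + κ ≤ 0.415) :
    0.8373 * Real.exp (r * sE κ t') ≤ ‖Xf β r h t 1‖ := by
  obtain ⟨⟨ya, yb⟩, ⟨xa, xb⟩, n1, Da, Db⟩ := B5Fo_B17 hD hk1 hk2 hta htb
  have J := B5Fo_T18 (x := sx κ t') (y := sy κ t') hβ hN (by linarith only [xa, xb, ya, yb]) (by linarith only [xa, xb, ya, yb]) (by linarith only [xa, xb, ya, yb]) (by linarith only [xa, xb, ya, yb])
  exact v5_Jlo hβ hκ (k := 1) ht hD 0.03 1.8011 0.8373 (by norm_num) J Db (by norm_num)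

private theorem B5Fo_V24 {κ t : ℝ} (hD : DomR κ t) (hk1 : 0.7 ≤ κ) (hk2 : κ ≤ 0.8) (hta : 0.251 ≤ t + κ) (htb : t + κ ≤ 0.415) :
    1.0313 - 0.2057 * (t + κ) ≤ sE κ t := by
  have hκ0 : 0 < κ := hD.1
  exact v5_V1 hD 0.7 0.8 0.251 0.415 0.0779 0.21119 0.29283 1.0313 0.2057 (by norm_num) hk1 hk2 (by norm_num) (by norm_num) hta htb (by norm_num) (clo5 0.7 0.8 0.29283 (by norm_num) hk1 hk2 (by norm_num) (by norm_num) (by norm_num))
      ((cup1 0.8 hκ0.le hk2 (by norm_num)).trans (by norm_num)) (by norm_num) (by norm_num) (by norm_num) (by norm_num) (by norm_num) (by norm_num)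

private theorem B5Fo_K25 {β r t κ h : ℝ} (hβ : 0 < β) (hr : 10 ≤ r) (hκ : κ = β * r) (hk1 : 0.7 ≤ κ) (hk2 : κ ≤ 0.8)
    (hh : h = 2 * Real.pi / 5) (hh1 : 1.25663 ≤ h) (hh2 : h ≤ 1.25664) (hta : 0.251 ≤ t + κ) (htb : t + κ ≤ 0.415)
    (hY : 0.8373 * Real.exp (r * sE κ t) ≤ ‖Xf β r h t 1‖) (hV : 1.0313 - 0.2057 * (t + κ) ≤ sE κ t) :
    ‖Xf β r h t 2‖ ≤ 0.0266 * ‖Xf β r h t 1‖ := by
  rw [v5_X 2 1 (by push_cast; ring)]
  exact v5_cmp 0.4611 0.009979 0.0265 0.9459 0.0000781 0.0000152 0.0266 hr (B5Fo_C20 (t := t + 1 * h) hβ hr hκ hk1 hk2 (by linarith only [hta, htb, hh1, hh2]) (by linarith only [hta, htb, hh1, hh2])) hY (by norm_num) (by norm_num) (by norm_num) (by norm_num) (by linarith only [hV, hta, htb, hh1, hh2]) (ex_un 4 0.6109 (by norm_num) (by norm_num) (by norm_num) (by norm_num)) (by norm_num) (by norm_num) (by linarith only [hV, hta, htb, hh1, hh2]) (ex_un 9 0.4589 (by norm_num) (by norm_num) (by norm_num)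 (by norm_num)) (by norm_num) (by norm_num)

private theorem B5Fo_K26 {β r t κ h : ℝ} (hβ : 0 < β) (hr : 10 ≤ r) (hκ : κ = β * r) (hk1 : 0.7 ≤ κ) (hk2 : κ ≤ 0.8)
    (hh : h = 2 * Real.pi / 5) (hh1 : 1.25663 ≤ h) (hh2 : h ≤ 1.25664) (hta : 0.251 ≤ t + κ) (htb : t + κ ≤ 0.415)
    (hY : 0.8373 * Real.exp (r * sE κ t) ≤ ‖Xf β r h t 1‖) (hV : 1.0313 - 0.2057 * (t + κ) ≤ sE κ t) :
    ‖Xf β r h t (-1)‖ ≤ 0.000325 * ‖Xf β r h t 1‖ := by
  rw [v5_X (-1) (-2) (by push_cast; ring)]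
  exact v5_cmp 1.0938 0.00001805 0.000026 0.8958 0.0001309 0.000298 0.000325 hr (B5Fo_C21 (t := t + (-2) * h) hβ hr hκ hk1 hk2 (by linarith only [hta, htb, hh1, hh2]) (by linarith only [hta, htb, hh1, hh2])) hY (by norm_num) (by norm_num) (by norm_num) (by norm_num) (by linarith only [hV, hta, htb, hh1, hh2]) (ex_un 10 0.9379 (by norm_num) (by norm_num) (by norm_num) (by norm_num)) (by norm_num) (by norm_num) (by linarith only [hV, hta, htb, hh1, hh2]) (ex_un 8 0.9579 (by norm_num) (by norm_num) (by norm_num) (by norm_num)) (by norm_num) (by norm_num)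

private theorem B5Fo_K27 {β r t κ h : ℝ} (hβ : 0 < β) (hr : 10 ≤ r) (hκ : κ = β * r) (hk1 : 0.7 ≤ κ) (hk2 : κ ≤ 0.8)
    (hh : h = 2 * Real.pi / 5) (hh1 : 1.25663 ≤ h) (hh2 : h ≤ 1.25664) (hta : 0.251 ≤ t + κ) (htb : t + κ ≤ 0.415)
    (hY : 0.8373 * Real.exp (r * sE κ t) ≤ ‖Xf β r h t 1‖) (hV : 1.0313 - 0.2057 * (t + κ) ≤ sE κ t) :
    ‖Xf β r h t (-2)‖ ≤ 0.000422 * ‖Xf β r h t 1‖ := by
  rw [v5_Xm2 hh]
  exact v5_cmp0 0.8859 0.0001438 0.000422 hr (B5Fo_C22 (t := t + 2 * h) hβ hr hκ hk1 hk2 (by linarith only [hta, htb, hh1, hh2]) (by linarith only [hta, htb, hh1, hh2])) hY (by norm_num) (by norm_num) (by norm_num) (by linarith only [hV, hta, htb, hh1, hh2]) (ex_un 8 0.8589 (by norm_num) (by norm_num) (by norm_num) (by norm_num)) (by norm_num)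

private theorem B5Fo_G28 {κ : ℝ} (hk1 : 0.7 ≤ κ) (hk2 : κ ≤ 0.8) : gG κ (-0.65) ≤ 1.28943 ∧ 2.48431 ≤ Real.exp (-(κ * (-0.65))) ^ 2 := by
  refine ⟨gG_le (-0.65) 0.7 0.8 1.28943 1.57618 1.68203 0.63445 0.59453 hk1 hk2 (by norm_num)
    (ex_up 0.455 (by norm_num) (by norm_num) (by norm_num) (by norm_num)) (ex_up 0.52 (by norm_num) (by norm_num) (by norm_num) (by norm_num))
    (ex_um 0.455 (by norm_num) (by norm_num) (by norm_num) (by norm_num)) (ex_um 0.52 (by norm_num) (by norm_num) (by norm_num) (by norm_num))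
    (by norm_num) (by norm_num), ?_⟩
  exact v5_M 1.57617 (ex_lp 0.455 (by linarith) (by norm_num) (by norm_num)) (by norm_num) (by norm_num)

private theorem B5Fo_C29 {β r t κ : ℝ} (hβ : 0 < β) (hr : 10 ≤ r) (hκ : κ = β * r) (hk1 : 0.7 ≤ κ) (hk2 : κ ≤ 0.8) (hta : (-1.0057) ≤ t + κ)
    (htb : t + κ ≤ (-0.8416)) : ‖F (cexp (I * β)) (r * cexp (I * ((t + β / 2 : ℝ) : ℂ)))‖ ≤
      1.2217 * Real.exp (r * (1.28943 - (-0.65) * (t + κ))) + 1.8295 * Real.exp (r * 0.0691) :=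
  v5_HU (-0.65) 0.7 0.8 (-1.0057) (-0.8416) 1.28943 1.2217 2.48431 0.1129 0.9147 2.9062 0.0293 0.0691 0.00000142 1.8295 hβ hr hκ (by norm_num) hk1 hk2 hta htb (by norm_num) (by norm_num) (B5Fo_G28 hk1 hk2).1 (B5Fo_G28 hk1 hk2).2 (by norm_num) (by norm_num) (by norm_num)
    (by norm_num) (by norm_num) (by norm_num) (by norm_num) (by norm_num) (by norm_num) (by norm_num)
    (by norm_num) (by norm_num) (by norm_num) (v5_hump 5.1789 12.499 3.5354 0.0000009316 0.00000142 hβ hr hκ hk1 hk2 (by norm_num) htb (by norm_num) (by norm_num) (by norm_num) (by norm_num) (by norm_num) (by norm_num) (by norm_num) (ex_un 13 0.9 (by norm_num) (by norm_num) (by norm_num) (by norm_num)) (by norm_num)) (by norm_num)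

private theorem B5Fo_K30 {β r t κ h : ℝ} (hβ : 0 < β) (hr : 10 ≤ r) (hκ : κ = β * r) (hk1 : 0.7 ≤ κ) (hk2 : κ ≤ 0.8)
    (hh : h = 2 * Real.pi / 5) (hh1 : 1.25663 ≤ h) (hh2 : h ≤ 1.25664) (hta : 0.251 ≤ t + κ) (htb : t + κ ≤ 0.415)
    (hY : 0.8373 * Real.exp (r * sE κ t) ≤ ‖Xf β r h t 1‖) (hV : 1.0313 - 0.2057 * (t + κ) ≤ sE κ t) :
    ‖Xf β r h t 0‖ ≤ 0.192 * ‖Xf β r h t 1‖ := by
  rw [v5_X 0 (-1) (by push_cast; ring)]
  exact v5_cmp 0.2035 0.1307 0.191 0.8768 0.0001569 0.000343 0.192 hr (B5Fo_C29 (t := t + (-1) * h) hβ hr hκ hk1 hk2 (by linarith only [hta, htb, hh1, hh2]) (by linarith only [hta, htb, hh1, hh2])) hY (by norm_num) (by norm_num) (by norm_num) (by norm_num) (by linarith only [hV, hta, htb, hh1, hh2]) (ex_un 2 0.0349 (by norm_num) (by norm_num) (by norm_num) (by norm_num)) (by norm_num) (by norm_num) (by linarith only [hV, hta, htb, hh1, hh2]) (ex_un 8 0.7679 (by norm_num) (by norm_num) (by norm_num)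 (by norm_num)) (by norm_num) (by norm_num)

private theorem B5Fo_O31 {β r t κ h : ℝ} (hβ : 0 < β) (hr : 10 ≤ r) (hκ : κ = β * r) (hk1 : 0.7 ≤ κ) (hk2 : κ ≤ 0.8)
    (hh : h = 2 * Real.pi / 5) (hta : 0.251 ≤ t + κ) (htb : t + κ ≤ 0.415) :
    ‖Xf β r h t (-2)‖ + ‖Xf β r h t (-1)‖ + ‖Xf β r h t 2‖ < |‖Xf β r h t 1‖ - ‖Xf β r h t 0‖| := by
  obtain ⟨hh1, hh2⟩ := v5_h hh
  have hκ0 : 0 < κ := by linarith only [hk1]
  have hN : β * 12.499 ≤ 1 := v5_hN 0.8 12.499 hβ hr hκ hk2 (by norm_num) (by norm_num)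
  have hD1 : DomR κ t := v5_dom hκ0 (by linarith only [hta, htb, hk1, hk2, hh1, hh2]) (Or.inr (by linarith only [hta, htb, hk1, hk2, hh1, hh2]))
  have e1 : t = t + (((1 : ℤ) : ℝ) - 1) * h := by push_cast; ring
  have hY := B5Fo_Y23 (h := h) hβ hκ hN hk1 hk2 e1 hD1 hta htb
  have hV := B5Fo_V24 hD1 hk1 hk2 hta htb
  have cp2 := B5Fo_K25 hβ hr hκ hk1 hk2 hh hh1 hh2 hta htb hY hV
  have cm1 := B5Fo_K26 hβ hr hκ hk1 hk2 hh hh1 hh2 hta htb hY hV
  have cm2 := B5Fo_K27 hβ hr hκ hk1 hk2 hh hh1 hh2 hta htb hY hV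
  have cn0 := B5Fo_K30 hβ hr hκ hk1 hk2 hh hh1 hh2 hta htb hY hV
  have hp : 0 < ‖Xf β r h t 1‖ := lt_of_lt_of_le (by positivity) hY
  exact v5_out1 _ _ _ _ cm2 cm1 cp2 cn0 hp (by norm_num)

private theorem B5Fo_B32 {κ t : ℝ} (h : DomR κ t) (hk1 : 0.7 ≤ κ) (hk2 : κ ≤ 0.8) (ht1 : 0.415 ≤ t + κ) (ht2 : t + κ ≤ 0.5655) :
    (0.166 ≤ sy κ t ∧ sy κ t ≤ 0.227) ∧ (0.5095 ≤ sx κ t ∧ sx κ t ≤ 0.657) ∧ κ * Real.exp (-sy κ t) ≤ 0.6777 ∧ 1.6835 ≤ sD κ t ∧ sD κ t ≤ 1.8605 := by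
  have hy1 : 0.166 ≤ sy κ t := syR_ge h 0.7 0.8 0.415 0.166 1.18057 1.18058 0.24496 0.27997 hk1 hk2 (by linarith) (by norm_num) (by norm_num)
    (expn_ge (by norm_num) (by norm_num)) (expn_le (by norm_num) (by norm_num) (by norm_num)) (by norm_num)
    (by norm_num) (by norm_num) (by norm_num) (by norm_num) (by norm_num) (by norm_num)
  have hy2 : sy κ t ≤ 0.227 := syR_le h 0.7 0.8 0.5655 0.227 1.25482 0.3433 0.35605 0.40693 hk1 hk2 (by linarith) (by norm_num) (by norm_num)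
    (expn_ge (by norm_num) (by norm_num)) (by norm_num) (by norm_num) (Or.inr ((mul_le_mul_of_nonneg_left (expn_le (E := 1.25483) (by norm_num) (by norm_num) (by norm_num)) (by norm_num)).trans (by norm_num))) (by norm_num) (by norm_num) (by norm_num)
  have hy1' : 0.166 ≤ sy κ t := by linarith
  have hy2' : sy κ t ≤ 0.227 := by linarith
  have hx1 : 0.5095 ≤ sx κ t := sx_lo h 0.7 0.227 0.2271 0.79692 0.5095 hk1 (by norm_num) hy2' (abs_le.2 ⟨by linarith, by linarith⟩) (ex_lm 0.227 (by norm_num) (by norm_num) (by norm_num) (by norm_num) (by norm_num)) (by norm_num) (by norm_num)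
  have hx2 : sx κ t ≤ 0.657 := sx_hi h 0.8 0.166 0.166 0.84705 0.657 hk2 hy1' (by norm_num) (le_trans (by linarith) (le_abs_self _)) (ex_um 0.166 (by norm_num) (by norm_num) (by norm_num) (by norm_num)) (by norm_num) (by norm_num)
  refine ⟨⟨hy1', hy2'⟩, ⟨hx1, hx2⟩, v5_n h 0.8 0.166 0.84705 0.6777 hk2 hy1' (ex_um 0.166 (by norm_num) (by norm_num) (by norm_num) (by norm_num)) (by norm_num), ?_, ?_⟩
  · exact v5_Dlo h 0.7 0.166 0.227 0.166 0.84704 1.6835 (by norm_num) hk1 hy1' hy2' (ex_lm 0.166 (by norm_num) (by norm_num) (by norm_num) (by norm_num) (by norm_num)) (by norm_num) (by norm_num) (by norm_num) (by norm_num)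
  · exact v5_Dup h 0.8 0.166 0.227 0.84705 0.79693 1.8605 hk2 hy1' hy2' (ex_um 0.166 (by norm_num) (by norm_num) (by norm_num) (by norm_num)) (ex_um 0.227 (by norm_num) (by norm_num) (by norm_num) (by norm_num)) (by norm_num) (by norm_num) (by norm_num)

private theorem B5Fo_T33_0_0 {β x y : ℝ} (hβ : 0 < β) (hN : β * 12.499 ≤ 1) (hx1 : 0.5094 ≤ x) (hx2 : x ≤ 0.594)
    (hy1 : -0 ≤ y) (hy2 : y ≤ 0.2271) : ‖HH β (x + y * I) - 1‖ ≤ 0.03 := by
  refine le_epsJ (C := 0.3742) (N0 := 12.499) (J_boxp 0.5094 0.594 0 0.2271 0.2271 1.0687 0.636 1.3634 1.0569 0.4659 3.5354 12.499 0.5952 2.169 1.304 1.1916 0.5343 0.4283 1.1826 3.7493 0.5792 1.1821 1.6154 2.9319 0.00126 0.004735 0.0000003813 0.0000003101 0.0007181 0.0000003836 0.0000003101 0.0000003101 0.3742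
    hβ hN hx1 hx2 hy1 hy2 (by norm_num) (by norm_num) (by linarith) (by norm_num) (by norm_num) (by norm_num) (by norm_num) (by norm_num) (by norm_num) (by norm_num) (by norm_num) (by norm_num) (by norm_num) (by norm_num) (by norm_num) (by norm_num) (by norm_num) (by norm_num) (by norm_num) (by norm_num) (by norm_num) (by norm_num) (by norm_num) (by norm_num)
    (cube_sqrt_geJ (s := 0.8953) (by norm_num) (by norm_num) (by norm_num) (by norm_num))
    (cube_sqrt_geJ (s := 0.9628) (by norm_num) (by norm_num) (by norm_num) (by norm_num))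
    (by norm_num) (by norm_num) (by norm_num) (by norm_num) (by norm_num) (by norm_num) (by norm_num) (by norm_num) (by norm_num) (by norm_num) (by norm_num) (by norm_num) (by norm_num) (by norm_num) (by norm_num) (by norm_num) (by norm_num) (by norm_num)
    (exp_neg_leJ (r := 0.678) 6 (by norm_num) (by norm_num) (by norm_num) (by norm_num))
    (exp_neg_leJ (r := 0.353) 5 (by norm_num) (by norm_num) (by norm_num) (by norm_num))
    (exp_neg_leJ (r := 0.781) 14 (by norm_num) (by norm_num) (by norm_num) (by norm_num))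
    (exp_neg_leJ (r := 0.99) 14 (by norm_num) (by norm_num) (by norm_num) (by norm_num))
    (exp_neg_leJ (r := 0.239) 7 (by norm_num) (by norm_num) (by norm_num) (by norm_num))
    (exp_neg_leJ (r := 0.775) 14 (by norm_num) (by norm_num) (by norm_num) (by norm_num))
    (exp_neg_leJ (r := 0.99) 14 (by norm_num) (by norm_num) (by norm_num) (by norm_num))
    (exp_neg_leJ (r := 0.99) 14 (by norm_num) (by norm_num) (by norm_num) (by norm_num))
    (by norm_num)) (by norm_num) hN hβ.le (by norm_num)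

private theorem B5Fo_T33_0_1 {β x y : ℝ} (hβ : 0 < β) (hN : β * 12.499 ≤ 1) (hx1 : 0.594 ≤ x) (hx2 : x ≤ 0.6571)
    (hy1 : -0 ≤ y) (hy2 : y ≤ 0.2271) : ‖HH β (x + y * I) - 1‖ ≤ 0.03 := by
  refine le_epsJ (C := 0.3544) (N0 := 12.499) (J_boxp 0.594 0.6571 0 0.2271 0.2271 1.1283 0.6953 1.392 0.9845 0.4707 3.5354 12.499 0.6163 2.237 1.317 1.1673 0.5641 0.4482 1.2116 3.7138 0.6203 1.2992 1.7846 2.9399 0.0008675 0.003692 0.0000003101 0.0000003101 0.00043 0.0000003101 0.0000003101 0.0000003101 0.3544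
    hβ hN hx1 hx2 hy1 hy2 (by norm_num) (by norm_num) (by linarith) (by norm_num) (by norm_num) (by norm_num) (by norm_num) (by norm_num) (by norm_num) (by norm_num) (by norm_num) (by norm_num) (by norm_num) (by norm_num) (by norm_num) (by norm_num) (by norm_num) (by norm_num) (by norm_num) (by norm_num) (by norm_num) (by norm_num) (by norm_num) (by norm_num)
    (cube_sqrt_geJ (s := 0.8913) (by norm_num) (by norm_num) (by norm_num) (by norm_num))
    (cube_sqrt_geJ (s := 0.9615) (by norm_num) (by norm_num) (by norm_num) (by norm_num))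
    (by norm_num) (by norm_num) (by norm_num) (by norm_num) (by norm_num) (by norm_num) (by norm_num) (by norm_num) (by norm_num) (by norm_num) (by norm_num) (by norm_num) (by norm_num) (by norm_num) (by norm_num) (by norm_num) (by norm_num) (by norm_num)
    (exp_neg_leJ (r := 0.05) 7 (by norm_num) (by norm_num) (by norm_num) (by norm_num))
    (exp_neg_leJ (r := 0.602) 5 (by norm_num) (by norm_num) (by norm_num) (by norm_num))
    (exp_neg_leJ (r := 0.99) 14 (by norm_num) (by norm_num) (by norm_num) (by norm_num))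
    (exp_neg_leJ (r := 0.99) 14 (by norm_num) (by norm_num) (by norm_num) (by norm_num))
    (exp_neg_leJ (r := 0.753) 7 (by norm_num) (by norm_num) (by norm_num) (by norm_num))
    (exp_neg_leJ (r := 0.99) 14 (by norm_num) (by norm_num) (by norm_num) (by norm_num))
    (exp_neg_leJ (r := 0.99) 14 (by norm_num) (by norm_num) (by norm_num) (by norm_num))
    (exp_neg_leJ (r := 0.99) 14 (by norm_num) (by norm_num) (by norm_num) (by norm_num))
    (by norm_num)) (by norm_num) hN hβ.le (by norm_num)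

private theorem B5Fo_T33 {β x y : ℝ} (hβ : 0 < β) (hN : β * 12.499 ≤ 1) (hx1 : 0.5094 ≤ x) (hx2 : x ≤ 0.6571)
    (hy1 : 0.1659 ≤ y) (hy2 : y ≤ 0.2271) : ‖HH β (x + y * I) - 1‖ ≤ 0.03 := by
  rcases le_total x 0.594 with hxx | hxx
  · exact B5Fo_T33_0_0 hβ hN (by linarith) (by linarith) (by linarith) (by linarith)
  exact B5Fo_T33_0_1 hβ hN (by linarith) (by linarith) (by linarith) (by linarith)

private theorem B5Fo_G34 {κ : ℝ} (hk1 : 0.7 ≤ κ) (hk2 : κ ≤ 0.8) : gG κ 0.51 ≤ 1.28378 ∧ 0.44218 ≤ Real.exp (-(κ * 0.51)) ^ 2 := by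
  refine ⟨gG_le 0.51 0.7 0.8 1.28378 0.69978 0.66498 1.42904 1.50381 hk1 hk2 (by norm_num)
    (ex_um 0.357 (by norm_num) (by norm_num) (by norm_num) (by norm_num)) (ex_um 0.408 (by norm_num) (by norm_num) (by norm_num) (by norm_num))
    (ex_up 0.357 (by norm_num) (by norm_num) (by norm_num) (by norm_num)) (ex_up 0.408 (by norm_num) (by norm_num) (by norm_num) (by norm_num))
    (by norm_num) (by norm_num), ?_⟩
  exact v5_M 0.66497 (ex_lm 0.408 (by linarith) (by norm_num) (by norm_num) (by norm_num) (by norm_num)) (by norm_num) (by norm_num)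

private theorem B5Fo_C35 {β r t κ : ℝ} (hβ : 0 < β) (hr : 10 ≤ r) (hκ : κ = β * r) (hk1 : 0.7 ≤ κ) (hk2 : κ ≤ 0.8) (hta : 1.6716 ≤ t + κ)
    (htb : t + κ ≤ 1.8222) : ‖F (cexp (I * β)) (r * cexp (I * ((t + β / 2 : ℝ) : ℂ)))‖ ≤
      2.3613 * Real.exp (r * (1.28378 - 0.51 * (t + κ))) + 0.1592 * Real.exp (r * 0) :=
  v5_H 0.51 0.7 0.8 1.6716 1.8222 1.28378 2.241 0.44218 0.1129 2.4422 0.4484 0.07467 0.4775 0.00000142 2.3613 0.1592 hβ hr hκ (by norm_num) hk1 hk2 hta htb (by norm_num) (B5Fo_G34 hk1 hk2).1 (B5Fo_G34 hk1 hk2).2 (by norm_num) (by norm_num) (by norm_num)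
    (by norm_num) (by norm_num) (by norm_num) (by norm_num) (by norm_num) (by norm_num) (by norm_num) (by norm_num) (ex_un 0 0.7466 (by norm_num) (by norm_num) (by norm_num) (by norm_num))
    (v5_hump 2.5151 12.499 3.5354 0.0000009316 0.00000142 hβ hr hκ hk1 hk2 (by norm_num) htb (by norm_num) (by norm_num) (by norm_num) (by norm_num) (by norm_num) (by norm_num) (by norm_num) (ex_un 13 0.9 (by norm_num) (by norm_num) (by norm_num) (by norm_num)) (by norm_num)) (by norm_num) (by norm_num)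

private theorem B5Fo_C36 {β r t κ : ℝ} (hβ : 0 < β) (hr : 10 ≤ r) (hκ : κ = β * r) (hk1 : 0.7 ≤ κ) (hk2 : κ ≤ 0.8) (hta : (-2.0983) ≤ t + κ)
    (htb : t + κ ≤ (-1.9477)) : ‖F (cexp (I * β)) (r * cexp (I * ((t + β / 2 : ℝ) : ℂ)))‖ ≤
      1.2023 * Real.exp (r * (1.34181 - (-0.71) * (t + κ))) + 1.8968 * Real.exp (r * 0.0501) :=
  v5_HU (-0.71) 0.7 0.8 (-2.0983) (-1.9477) 1.34181 1.2023 2.70201 0.1129 0.9147 1.8136 0 0.0501 0.00000142 1.8968 hβ hr hκ (by norm_num) hk1 hk2 hta htb (by norm_num) (by norm_num) (B5Fo_G13 hk1 hk2).1 (B5Fo_G13 hk1 hk2).2 (by norm_num) (by norm_num) (by norm_num)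
    (by norm_num) (by norm_num) (by norm_num) (by norm_num) (by norm_num) (by norm_num) (by norm_num)
    (by norm_num) (by norm_num) (by norm_num) (v5_hump 6.285 12.499 3.5354 0.0000009316 0.00000142 hβ hr hκ hk1 hk2 (by norm_num) htb (by norm_num) (by norm_num) (by norm_num) (by norm_num) (by norm_num) (by norm_num) (by norm_num) (ex_un 13 0.9 (by norm_num) (by norm_num) (by norm_num) (by norm_num)) (by norm_num)) (by norm_num)

private theorem B5Fo_C37 {β r t κ : ℝ} (hβ : 0 < β) (hr : 10 ≤ r) (hκ : κ = β * r) (hk1 : 0.7 ≤ κ) (hk2 : κ ≤ 0.8) (hta : 2.9282 ≤ t + κ)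
    (htb : t + κ ≤ 3.0788) : ‖F (cexp (I * β)) (r * cexp (I * ((t + β / 2 : ℝ) : ℂ)))‖ ≤
      2.4015 * Real.exp (r * (0.01 + 1 / 20)) :=
  v5_UD 0.7 0.8 2.9282 3.0788 0.01 0.4769 0.01 1.252 2.4015 hβ hr hκ (by norm_num) hk1 hk2 hta htb (by norm_num) (by norm_num) (by norm_num) (by norm_num) (by norm_num) (by norm_num) (by norm_num) (by norm_num) (by norm_num) (by norm_num) (by norm_num)

private theorem B5Fo_Y38 {β r t κ h t' : ℝ} (hβ : 0 < β) (hκ : κ = β * r) (hN : β * 12.499 ≤ 1) (hk1 : 0.7 ≤ κ) (hk2 : κ ≤ 0.8)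
    (ht : t' = t + (((1 : ℤ) : ℝ) - 1) * h) (hD : DomR κ t') (hta : 0.415 ≤ t' + κ) (htb : t' + κ ≤ 0.5655) :
    0.8305 * Real.exp (r * sE κ t') ≤ ‖Xf β r h t 1‖ := by
  obtain ⟨⟨ya, yb⟩, ⟨xa, xb⟩, n1, Da, Db⟩ := B5Fo_B32 hD hk1 hk2 hta htb
  have J := B5Fo_T33 (x := sx κ t') (y := sy κ t') hβ hN (by linarith only [xa, xb, ya, yb]) (by linarith only [xa, xb, ya, yb]) (by linarith only [xa, xb, ya, yb]) (by linarith only [xa, xb, ya, yb])
  exact v5_Jlo hβ hκ (k := 1) ht hD 0.03 1.8605 0.8305 (by norm_num) J Db (by norm_num)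

private theorem B5Fo_V39 {κ t : ℝ} (hD : DomR κ t) (hk1 : 0.7 ≤ κ) (hk2 : κ ≤ 0.8) (hta : 0.415 ≤ t + κ) (htb : t + κ ≤ 0.5655) :
    1.06845 - 0.2965 * (t + κ) ≤ sE κ t := by
  have hκ0 : 0 < κ := hD.1
  exact v5_V1 hD 0.7 0.8 0.415 0.5655 0.06667 0.21119 0.29283 1.06845 0.2965 (by norm_num) hk1 hk2 (by norm_num) (by norm_num) hta htb (by norm_num) (clo5 0.7 0.8 0.29283 (by norm_num) hk1 hk2 (by norm_num) (by norm_num) (by norm_num))
      ((cup1 0.8 hκ0.le hk2 (by norm_num)).trans (by norm_num)) (by norm_num) (by norm_num) (by norm_num) (by norm_num) (by norm_num) (by norm_num)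

private theorem B5Fo_K40 {β r t κ h : ℝ} (hβ : 0 < β) (hr : 10 ≤ r) (hκ : κ = β * r) (hk1 : 0.7 ≤ κ) (hk2 : κ ≤ 0.8)
    (hh : h = 2 * Real.pi / 5) (hh1 : 1.25663 ≤ h) (hh2 : h ≤ 1.25664) (hta : 0.415 ≤ t + κ) (htb : t + κ ≤ 0.5655)
    (hY : 0.8305 * Real.exp (r * sE κ t) ≤ ‖Xf β r h t 1‖) (hV : 1.06845 - 0.2965 * (t + κ) ≤ sE κ t) :
    ‖Xf β r h t 2‖ ≤ 0.0168 * ‖Xf β r h t 1‖ := by
  rw [v5_X 2 1 (by push_cast; ring)]
  exact v5_cmp 0.5141 0.005853 0.0167 0.9007 0.0001226 0.0000236 0.0168 hr (B5Fo_C35 (t := t + 1 * h) hβ hr hκ hk1 hk2 (by linarith only [hta, htb, hh1, hh2]) (by linarith only [hta, htb, hh1, hh2])) hY (by norm_num) (by norm_num) (by norm_num) (by norm_num) (by linarith only [hV, hta, htb, hh1, hh2]) (ex_un 5 0.1409 (by norm_num) (by norm_num) (by norm_num) (by norm_num)) (by norm_num) (by norm_num) (by linarith only [hV, hta, htb, hh1, hh2]) (ex_un 9 0.0069 (by norm_num) (by norm_num) (by norm_num)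 (by norm_num)) (by norm_num) (by norm_num)

private theorem B5Fo_K41 {β r t κ h : ℝ} (hβ : 0 < β) (hr : 10 ≤ r) (hκ : κ = β * r) (hk1 : 0.7 ≤ κ) (hk2 : κ ≤ 0.8)
    (hh : h = 2 * Real.pi / 5) (hh1 : 1.25663 ≤ h) (hh2 : h ≤ 1.25664) (hta : 0.415 ≤ t + κ) (htb : t + κ ≤ 0.5655)
    (hY : 0.8305 * Real.exp (r * sE κ t) ≤ ‖Xf β r h t 1‖) (hV : 1.06845 - 0.2965 * (t + κ) ≤ sE κ t) :
    ‖Xf β r h t (-1)‖ ≤ 0.000582 * ‖Xf β r h t 1‖ := by
  rw [v5_X (-1) (-2) (by push_cast; ring)]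
  exact v5_cmp 0.9418 0.00008134 0.000118 0.8506 0.0002027 0.000463 0.000582 hr (B5Fo_C36 (t := t + (-2) * h) hβ hr hκ hk1 hk2 (by linarith only [hta, htb, hh1, hh2]) (by linarith only [hta, htb, hh1, hh2])) hY (by norm_num) (by norm_num) (by norm_num) (by norm_num) (by linarith only [hV, hta, htb, hh1, hh2]) (ex_un 9 0.4179 (by norm_num) (by norm_num) (by norm_num) (by norm_num)) (by norm_num) (by norm_num) (by linarith only [hV, hta, htb, hh1, hh2]) (ex_un 8 0.5059 (by norm_num) (by norm_num) (by norm_num) (by norm_num)) (by norm_num) (by norm_num)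

private theorem B5Fo_K42 {β r t κ h : ℝ} (hβ : 0 < β) (hr : 10 ≤ r) (hκ : κ = β * r) (hk1 : 0.7 ≤ κ) (hk2 : κ ≤ 0.8)
    (hh : h = 2 * Real.pi / 5) (hh1 : 1.25663 ≤ h) (hh2 : h ≤ 1.25664) (hta : 0.415 ≤ t + κ) (htb : t + κ ≤ 0.5655)
    (hY : 0.8305 * Real.exp (r * sE κ t) ≤ ‖Xf β r h t 1‖) (hV : 1.06845 - 0.2965 * (t + κ) ≤ sE κ t) :
    ‖Xf β r h t (-2)‖ ≤ 0.000647 * ‖Xf β r h t 1‖ := by
  rw [v5_Xm2 hh]
  exact v5_cmp0 0.8407 0.0002236 0.000647 hr (B5Fo_C37 (t := t + 2 * h) hβ hr hκ hk1 hk2 (by linarith only [hta, htb, hh1, hh2]) (by linarith only [hta, htb, hh1, hh2])) hY (by norm_num) (by norm_num) (by norm_num) (by linarith only [hV, hta, htb, hh1, hh2]) (ex_un 8 0.4069 (by norm_num) (by norm_num) (by norm_num) (by norm_num)) (by norm_num)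

private theorem B5Fo_G43 {κ : ℝ} (hk1 : 0.7 ≤ κ) (hk2 : κ ≤ 0.8) : gG κ (-0.54) ≤ 1.20409 ∧ 2.12973 ≤ Real.exp (-(κ * (-0.54))) ^ 2 := by
  refine ⟨gG_le (-0.54) 0.7 0.8 1.20409 1.45937 1.54034 0.68524 0.64921 hk1 hk2 (by norm_num)
    (ex_up 0.378 (by norm_num) (by norm_num) (by norm_num) (by norm_num)) (ex_up 0.432 (by norm_num) (by norm_num) (by norm_num) (by norm_num))
    (ex_um 0.378 (by norm_num) (by norm_num) (by norm_num) (by norm_num)) (ex_um 0.432 (by norm_num) (by norm_num) (by norm_num) (by norm_num))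
    (by norm_num) (by norm_num), ?_⟩
  exact v5_M 1.45936 (ex_lp 0.378 (by linarith) (by norm_num) (by norm_num)) (by norm_num) (by norm_num)

private theorem B5Fo_C44 {β r t κ : ℝ} (hβ : 0 < β) (hr : 10 ≤ r) (hκ : κ = β * r) (hk1 : 0.7 ≤ κ) (hk2 : κ ≤ 0.8) (hta : (-0.8417) ≤ t + κ)
    (htb : t + κ ≤ (-0.6911)) : ‖F (cexp (I * β)) (r * cexp (I * ((t + β / 2 : ℝ) : ℂ)))‖ ≤
      1.2572 * Real.exp (r * (1.20409 - (-0.54) * (t + κ))) + 1.7469 * Real.exp (r * 0.1471) :=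
  v5_HU (-0.54) 0.7 0.8 (-0.8417) (-0.6911) 1.20409 1.2572 2.12973 0.1129 0.9147 3.0702 0.1798 0.1471 0.00000142 1.7469 hβ hr hκ (by norm_num) hk1 hk2 hta htb (by norm_num) (by norm_num) (B5Fo_G43 hk1 hk2).1 (B5Fo_G43 hk1 hk2).2 (by norm_num) (by norm_num) (by norm_num)
    (by norm_num) (by norm_num) (by norm_num) (by norm_num) (by norm_num) (by norm_num) (by norm_num)
    (by norm_num) (by norm_num) (by norm_num) (v5_hump 5.0284 12.499 3.5354 0.0000009316 0.00000142 hβ hr hκ hk1 hk2 (by norm_num) htb (by norm_num) (by norm_num) (by norm_num) (by norm_num) (by norm_num) (by norm_num) (by norm_num) (ex_un 13 0.9 (by norm_num) (by norm_num) (by norm_num) (by norm_num)) (by norm_num)) (by norm_num)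

private theorem B5Fo_K45 {β r t κ h : ℝ} (hβ : 0 < β) (hr : 10 ≤ r) (hκ : κ = β * r) (hk1 : 0.7 ≤ κ) (hk2 : κ ≤ 0.8)
    (hh : h = 2 * Real.pi / 5) (hh1 : 1.25663 ≤ h) (hh2 : h ≤ 1.25664) (hta : 0.415 ≤ t + κ) (htb : t + κ ≤ 0.5655)
    (hY : 0.8305 * Real.exp (r * sE κ t) ≤ ‖Xf β r h t 1‖) (hV : 1.06845 - 0.2965 * (t + κ) ≤ sE κ t) :
    ‖Xf β r h t 0‖ ≤ 0.76 * ‖Xf β r h t 1‖ := by
  rw [v5_X 0 (-1) (by push_cast; ring)]
  exact v5_cmp 0.0698 0.5005 0.758 0.7536 0.0005348 0.00113 0.76 hr (B5Fo_C44 (t := t + (-1) * h) hβ hr hκ hk1 hk2 (by linarith only [hta, htb, hh1, hh2]) (by linarith only [hta, htb, hh1, hh2])) hY (by norm_num) (by norm_num) (by norm_num) (by norm_num) (by linarith only [hV, hta, htb, hh1, hh2]) (ex_un 0 0.6979 (by norm_num) (by norm_num) (by norm_num) (by norm_num)) (by norm_num) (by norm_num) (by linarith only [hV, hta, htb, hh1, hh2]) (ex_un 7 0.5359 (by norm_num) (by norm_num) (by norm_num)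 (by norm_num)) (by norm_num) (by norm_num)

private theorem B5Fo_O46 {β r t κ h : ℝ} (hβ : 0 < β) (hr : 10 ≤ r) (hκ : κ = β * r) (hk1 : 0.7 ≤ κ) (hk2 : κ ≤ 0.8)
    (hh : h = 2 * Real.pi / 5) (hta : 0.415 ≤ t + κ) (htb : t + κ ≤ 0.5655) :
    ‖Xf β r h t (-2)‖ + ‖Xf β r h t (-1)‖ + ‖Xf β r h t 2‖ < |‖Xf β r h t 1‖ - ‖Xf β r h t 0‖| := by
  obtain ⟨hh1, hh2⟩ := v5_h hh
  have hκ0 : 0 < κ := by linarith only [hk1]
  have hN : β * 12.499 ≤ 1 := v5_hN 0.8 12.499 hβ hr hκ hk2 (by norm_num) (by norm_num)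
  have hD1 : DomR κ t := v5_dom hκ0 (by linarith only [hta, htb, hk1, hk2, hh1, hh2]) (Or.inr (by linarith only [hta, htb, hk1, hk2, hh1, hh2]))
  have e1 : t = t + (((1 : ℤ) : ℝ) - 1) * h := by push_cast; ring
  have hY := B5Fo_Y38 (h := h) hβ hκ hN hk1 hk2 e1 hD1 hta htb
  have hV := B5Fo_V39 hD1 hk1 hk2 hta htb
  have cp2 := B5Fo_K40 hβ hr hκ hk1 hk2 hh hh1 hh2 hta htb hY hV
  have cm1 := B5Fo_K41 hβ hr hκ hk1 hk2 hh hh1 hh2 hta htb hY hV
  have cm2 := B5Fo_K42 hβ hr hκ hk1 hk2 hh hh1 hh2 hta htb hY hV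
  have cn0 := B5Fo_K45 hβ hr hκ hk1 hk2 hh hh1 hh2 hta htb hY hV
  have hp : 0 < ‖Xf β r h t 1‖ := lt_of_lt_of_le (by positivity) hY
  exact v5_out1 _ _ _ _ cm2 cm1 cp2 cn0 hp (by norm_num)

private theorem B5Fo_B47 {κ t : ℝ} (h : DomR κ t) (hk1 : 0.7 ≤ κ) (hk2 : κ ≤ 0.8) (ht1 : (-0.4902) ≤ t + κ) (ht2 : t + κ ≤ (-0.3766)) :
    ((-0.282) ≤ sy κ t ∧ sy κ t ≤ (-0.205)) ∧ (0.8116 ≤ sx κ t ∧ sx κ t ≤ 1.0407) ∧ κ * Real.exp (-sy κ t) ≤ 1.0607 ∧ 1.2972 ≤ sD κ t ∧ sD κ t ≤ 1.561 := by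
  have hy1 : -0.282 ≤ sy κ t := syL_ge h 0.7 0.8 0.4902 0.282 0.75427 0.75428 0.2785 0.26588 0.30387 hk1 hk2 (by linarith) (by norm_num) (by norm_num) (by norm_num)
    (expm_ge (by norm_num) (by norm_num) (by norm_num) (by norm_num)) (expm_le (by norm_num) (by norm_num) (by norm_num)) (by norm_num)
    (by norm_num) (by norm_num) (by norm_num) (by norm_num) (by norm_num) (by norm_num)
  have hy2 : sy κ t ≤ -0.205 := syL_le h 0.7 0.8 0.3766 0.205 0.81464 0.81465 0.20875 0.23858 hk1 hk2 (by linarith) (by norm_num) (by norm_num) (by norm_num)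
    (expm_ge (by norm_num) (by norm_num) (by norm_num) (by norm_num)) (expm_le (by norm_num) (by norm_num) (by norm_num)) (by norm_num)
    (by norm_num) (by norm_num) (by norm_num) (by norm_num) (by norm_num) (by norm_num)
  have hy1' : (-0.282) ≤ sy κ t := by linarith
  have hy2' : sy κ t ≤ (-0.205) := by linarith
  have hx1 : 0.8116 ≤ sx κ t := sx_lo h 0.7 (-0.205) 0.2821 1.22752 0.8116 hk1 (by norm_num) hy2' (abs_le.2 ⟨by linarith, by linarith⟩) (ex_lp 0.205 (by norm_num) (by norm_num) (by norm_num)) (by norm_num) (by norm_num)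
  have hx2 : sx κ t ≤ 1.0407 := sx_hi h 0.8 (-0.282) 0.205 1.32578 1.0407 hk2 hy1' (by norm_num) (le_trans (by linarith) (neg_le_abs _)) (ex_up 0.282 (by norm_num) (by norm_num) (by norm_num) (by norm_num)) (by norm_num) (by norm_num)
  refine ⟨⟨hy1', hy2'⟩, ⟨hx1, hx2⟩, v5_n h 0.8 (-0.282) 1.32578 1.0607 hk2 hy1' (ex_up 0.282 (by norm_num) (by norm_num) (by norm_num) (by norm_num)) (by norm_num), ?_, ?_⟩
  · exact v5_Dlo h 0.7 (-0.282) (-0.205) (-0.282) 1.32577 1.2972 (by norm_num) hk1 hy1' hy2' (ex_lp 0.282 (by norm_num) (by norm_num) (by norm_num)) (by norm_num) (by norm_num) (by norm_num) (by norm_num)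
  · exact v5_Dup h 0.8 (-0.282) (-0.205) 1.32578 1.22753 1.561 hk2 hy1' hy2' (ex_up 0.282 (by norm_num) (by norm_num) (by norm_num) (by norm_num)) (ex_up 0.205 (by norm_num) (by norm_num) (by norm_num) (by norm_num)) (by norm_num) (by norm_num) (by norm_num)

private theorem B5Fo_T48_0_0 {β x y : ℝ} (hβ : 0 < β) (hN : β * 12.499 ≤ 1) (hx1 : 0.8115 ≤ x) (hx2 : x ≤ 0.894)
    (hy1 : -0.2821 ≤ y) (hy2 : y ≤ -0.2049) : ‖HH β (x + y * I) - 1‖ ≤ 0.06 := by
  refine le_epsJ (C := 0.7492) (N0 := 12.499) (J_boxp 0.8115 0.894 0.2821 0 (-0.2049) 1.0811 0.9375 1.1965 0.9732 0.4364 3.5354 12.499 0.8672 3.301 1.482 0.8158 0.5405 0.3842 0.8407 2.6901 0.595 1.6236 2.4268 3.7866 0.001167 0.008226 0.00002735 0.0000003101 0.0005897 0.0000003101 0.0000003101 0.0000003101 0.7492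
    hβ hN hx1 hx2 hy1 hy2 (by norm_num) (by norm_num) (by linarith) (by norm_num) (by norm_num) (by norm_num) (by norm_num) (by norm_num) (by norm_num) (by norm_num) (by norm_num) (by norm_num) (by norm_num) (by norm_num) (by norm_num) (by norm_num) (by norm_num) (by norm_num) (by norm_num) (by norm_num) (by norm_num) (by norm_num) (by norm_num) (by norm_num)
    (cube_sqrt_geJ (s := 0.8431) (by norm_num) (by norm_num) (by norm_num) (by norm_num))
    (cube_sqrt_geJ (s := 0.9454) (by norm_num) (by norm_num) (by norm_num) (by norm_num))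
    (by norm_num) (by norm_num) (by norm_num) (by norm_num) (by norm_num) (by norm_num) (by norm_num) (by norm_num) (by norm_num) (by norm_num) (by norm_num) (by norm_num) (by norm_num) (by norm_num) (by norm_num) (by norm_num) (by norm_num) (by norm_num)
    (exp_neg_leJ (r := 0.755) 6 (by norm_num) (by norm_num) (by norm_num) (by norm_num))
    (exp_neg_leJ (r := 0.802) 4 (by norm_num) (by norm_num) (by norm_num) (by norm_num))
    (exp_neg_leJ (r := 0.507) 10 (by norm_num) (by norm_num) (by norm_num) (by norm_num))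
    (exp_neg_leJ (r := 0.99) 14 (by norm_num) (by norm_num) (by norm_num) (by norm_num))
    (exp_neg_leJ (r := 0.436) 7 (by norm_num) (by norm_num) (by norm_num) (by norm_num))
    (exp_neg_leJ (r := 0.99) 14 (by norm_num) (by norm_num) (by norm_num) (by norm_num))
    (exp_neg_leJ (r := 0.99) 14 (by norm_num) (by norm_num) (by norm_num) (by norm_num))
    (exp_neg_leJ (r := 0.99) 14 (by norm_num) (by norm_num) (by norm_num) (by norm_num))
    (by norm_num)) (by norm_num) hN hβ.le (by norm_num)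

private theorem B5Fo_T48_0_1 {β x y : ℝ} (hβ : 0 < β) (hN : β * 12.499 ≤ 1) (hx1 : 0.894 ≤ x) (hx2 : x ≤ 0.981)
    (hy1 : -0.2821 ≤ y) (hy2 : y ≤ -0.2049) : ‖HH β (x + y * I) - 1‖ ≤ 0.06 := by
  refine le_epsJ (C := 0.7494) (N0 := 12.499) (J_boxp 0.894 0.981 0.2821 0 (-0.2049) 1.1392 1.0208 1.2628 0.9243 0.4484 3.5354 12.499 0.8961 3.463 1.503 0.7824 0.5695 0.3994 0.869 2.6408 0.6351 1.7378 2.5918 3.7252 0.0008104 0.00683 0.00001923 0.0000003101 0.000358 0.0000003101 0.0000003101 0.0000003101 0.7494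
    hβ hN hx1 hx2 hy1 hy2 (by norm_num) (by norm_num) (by linarith) (by norm_num) (by norm_num) (by norm_num) (by norm_num) (by norm_num) (by norm_num) (by norm_num) (by norm_num) (by norm_num) (by norm_num) (by norm_num) (by norm_num) (by norm_num) (by norm_num) (by norm_num) (by norm_num) (by norm_num) (by norm_num) (by norm_num) (by norm_num) (by norm_num)
    (cube_sqrt_geJ (s := 0.8374) (by norm_num) (by norm_num) (by norm_num) (by norm_num))
    (cube_sqrt_geJ (s := 0.9435) (by norm_num) (by norm_num) (by norm_num) (by norm_num))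
    (by norm_num) (by norm_num) (by norm_num) (by norm_num) (by norm_num) (by norm_num) (by norm_num) (by norm_num) (by norm_num) (by norm_num) (by norm_num) (by norm_num) (by norm_num) (by norm_num) (by norm_num) (by norm_num) (by norm_num) (by norm_num)
    (exp_neg_leJ (r := 0.118) 7 (by norm_num) (by norm_num) (by norm_num) (by norm_num))
    (exp_neg_leJ (r := 0.99) 4 (by norm_num) (by norm_num) (by norm_num) (by norm_num))
    (exp_neg_leJ (r := 0.861) 10 (by norm_num) (by norm_num) (by norm_num) (by norm_num))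
    (exp_neg_leJ (r := 0.99) 14 (by norm_num) (by norm_num) (by norm_num) (by norm_num))
    (exp_neg_leJ (r := 0.938) 7 (by norm_num) (by norm_num) (by norm_num) (by norm_num))
    (exp_neg_leJ (r := 0.99) 14 (by norm_num) (by norm_num) (by norm_num) (by norm_num))
    (exp_neg_leJ (r := 0.99) 14 (by norm_num) (by norm_num) (by norm_num) (by norm_num))
    (exp_neg_leJ (r := 0.99) 14 (by norm_num) (by norm_num) (by norm_num) (by norm_num))
    (by norm_num)) (by norm_num) hN hβ.le (by norm_num)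

private theorem B5Fo_T48_0_2 {β x y : ℝ} (hβ : 0 < β) (hN : β * 12.499 ≤ 1) (hx1 : 0.981 ≤ x) (hx2 : x ≤ 1.0408)
    (hy1 : -0.2821 ≤ y) (hy2 : y ≤ -0.2049) : ‖HH β (x + y * I) - 1‖ ≤ 0.06 := by
  refine le_epsJ (C := 0.6914) (N0 := 12.499) (J_boxp 0.981 1.0408 0.2821 0 (-0.2049) 1.2005 1.0784 1.3098 0.8701 0.4566 3.5354 12.499 0.8983 3.476 1.504 0.7594 0.6002 0.4205 0.8988 2.6068 0.6774 1.8583 2.7658 3.7426 0.0005527 0.005222 0.00001322 0.0000003101 0.0002106 0.0000003101 0.0000003101 0.0000003101 0.6914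
    hβ hN hx1 hx2 hy1 hy2 (by norm_num) (by norm_num) (by linarith) (by norm_num) (by norm_num) (by norm_num) (by norm_num) (by norm_num) (by norm_num) (by norm_num) (by norm_num) (by norm_num) (by norm_num) (by norm_num) (by norm_num) (by norm_num) (by norm_num) (by norm_num) (by norm_num) (by norm_num) (by norm_num) (by norm_num) (by norm_num) (by norm_num)
    (cube_sqrt_geJ (s := 0.8369) (by norm_num) (by norm_num) (by norm_num) (by norm_num))
    (cube_sqrt_geJ (s := 0.9434) (by norm_num) (by norm_num) (by norm_num) (by norm_num))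
    (by norm_num) (by norm_num) (by norm_num) (by norm_num) (by norm_num) (by norm_num) (by norm_num) (by norm_num) (by norm_num) (by norm_num) (by norm_num) (by norm_num) (by norm_num) (by norm_num) (by norm_num) (by norm_num) (by norm_num) (by norm_num)
    (exp_neg_leJ (r := 0.501) 7 (by norm_num) (by norm_num) (by norm_num) (by norm_num))
    (exp_neg_leJ (r := 0.255) 5 (by norm_num) (by norm_num) (by norm_num) (by norm_num))
    (exp_neg_leJ (r := 0.234) 11 (by norm_num) (by norm_num) (by norm_num) (by norm_num))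
    (exp_neg_leJ (r := 0.99) 14 (by norm_num) (by norm_num) (by norm_num) (by norm_num))
    (exp_neg_leJ (r := 0.466) 8 (by norm_num) (by norm_num) (by norm_num) (by norm_num))
    (exp_neg_leJ (r := 0.99) 14 (by norm_num) (by norm_num) (by norm_num) (by norm_num))
    (exp_neg_leJ (r := 0.99) 14 (by norm_num) (by norm_num) (by norm_num) (by norm_num))
    (exp_neg_leJ (r := 0.99) 14 (by norm_num) (by norm_num) (by norm_num) (by norm_num))
    (by norm_num)) (by norm_num) hN hβ.le (by norm_num)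

private theorem B5Fo_T48 {β x y : ℝ} (hβ : 0 < β) (hN : β * 12.499 ≤ 1) (hx1 : 0.8115 ≤ x) (hx2 : x ≤ 1.0408)
    (hy1 : (-0.2821) ≤ y) (hy2 : y ≤ (-0.2049)) : ‖HH β (x + y * I) - 1‖ ≤ 0.06 := by
  rcases le_total x 0.894 with hxx | hxx
  · exact B5Fo_T48_0_0 hβ hN (by linarith) (by linarith) (by linarith) (by linarith)
  rcases le_total x 0.981 with hxx | hxx
  · exact B5Fo_T48_0_1 hβ hN (by linarith) (by linarith) (by linarith) (by linarith)
  exact B5Fo_T48_0_2 hβ hN (by linarith) (by linarith) (by linarith) (by linarith)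

private theorem B5Fo_G49 {κ : ℝ} (hk1 : 0.7 ≤ κ) (hk2 : κ ≤ 0.8) : gG κ 0.54 ≤ 1.3277 ∧ 0.42146 ≤ Real.exp (-(κ * 0.54)) ^ 2 := by
  refine ⟨gG_le 0.54 0.7 0.8 1.3277 0.68524 0.64921 1.45937 1.54034 hk1 hk2 (by norm_num)
    (ex_um 0.378 (by norm_num) (by norm_num) (by norm_num) (by norm_num)) (ex_um 0.432 (by norm_num) (by norm_num) (by norm_num) (by norm_num))
    (ex_up 0.378 (by norm_num) (by norm_num) (by norm_num) (by norm_num)) (ex_up 0.432 (by norm_num) (by norm_num) (by norm_num) (by norm_num))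
    (by norm_num) (by norm_num), ?_⟩
  exact v5_M 0.6492 (ex_lm 0.432 (by linarith) (by norm_num) (by norm_num) (by norm_num) (by norm_num)) (by norm_num) (by norm_num)

private theorem B5Fo_C50 {β r t κ : ℝ} (hβ : 0 < β) (hr : 10 ≤ r) (hκ : κ = β * r) (hk1 : 0.7 ≤ κ) (hk2 : κ ≤ 0.8) (hta : 2.0231 ≤ t + κ)
    (htb : t + κ ≤ 2.1367) : ‖F (cexp (I * β)) (r * cexp (I * ((t + β / 2 : ℝ) : ℂ)))‖ ≤
      2.964 * Real.exp (r * (1.3277 - 0.54 * (t + κ))) + 0.1534 * Real.exp (r * 0) :=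
  v5_H 0.54 0.7 0.8 2.0231 2.1367 1.3277 2.4386 0.42146 0.1129 2.7937 0.1339 0.04746 0.6231 0.00000142 2.964 0.1534 hβ hr hκ (by norm_num) hk1 hk2 hta htb (by norm_num) (B5Fo_G49 hk1 hk2).1 (B5Fo_G49 hk1 hk2).2 (by norm_num) (by norm_num) (by norm_num)
    (by norm_num) (by norm_num) (by norm_num) (by norm_num) (by norm_num) (by norm_num) (by norm_num) (by norm_num) (ex_un 0 0.4745 (by norm_num) (by norm_num) (by norm_num) (by norm_num))
    (v5_hump 2.2006 12.499 3.5354 0.0000009316 0.00000142 hβ hr hκ hk1 hk2 (by norm_num) htb (by norm_num) (by norm_num) (by norm_num) (by norm_num) (by norm_num) (by norm_num) (by norm_num) (ex_un 13 0.9 (by norm_num) (by norm_num) (by norm_num) (by norm_num)) (by norm_num)) (by norm_num) (by norm_num)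

private theorem B5Fo_C51 {β r t κ : ℝ} (hβ : 0 < β) (hr : 10 ≤ r) (hκ : κ = β * r) (hk1 : 0.7 ≤ κ) (hk2 : κ ≤ 0.8) (hta : (-1.7468) ≤ t + κ)
    (htb : t + κ ≤ (-1.6332)) : ‖F (cexp (I * β)) (r * cexp (I * ((t + β / 2 : ℝ) : ℂ)))‖ ≤
      1.2023 * Real.exp (r * (1.34181 - (-0.71) * (t + κ))) + 1.8867 * Real.exp (r * 0.0501) :=
  v5_HU (-0.71) 0.7 0.8 (-1.7468) (-1.6332) 1.34181 1.2023 2.70201 0.1129 0.9147 2.1651 0 0.0501 0.00000142 1.8867 hβ hr hκ (by norm_num) hk1 hk2 hta htb (by norm_num) (by norm_num) (B5Fo_G13 hk1 hk2).1 (B5Fo_G13 hk1 hk2).2 (by norm_num) (by norm_num) (by norm_num)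
    (by norm_num) (by norm_num) (by norm_num) (by norm_num) (by norm_num) (by norm_num) (by norm_num)
    (by norm_num) (by norm_num) (by norm_num) (v5_hump 5.9705 12.499 3.5354 0.0000009316 0.00000142 hβ hr hκ hk1 hk2 (by norm_num) htb (by norm_num) (by norm_num) (by norm_num) (by norm_num) (by norm_num) (by norm_num) (by norm_num) (ex_un 13 0.9 (by norm_num) (by norm_num) (by norm_num) (by norm_num)) (by norm_num)) (by norm_num)

private theorem B5Fo_C52 {β r t κ : ℝ} (hβ : 0 < β) (hr : 10 ≤ r) (hκ : κ = β * r) (hk1 : 0.7 ≤ κ) (hk2 : κ ≤ 0.8) (hta : 3.2797 ≤ t + κ)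
    (htb : t + κ ≤ 3.3933) : ‖F (cexp (I * β)) (r * cexp (I * ((t + β / 2 : ℝ) : ℂ)))‖ ≤
      2.3522 * Real.exp (r * (0.01 + 1 / 20)) :=
  v5_UD 0.7 0.8 3.2797 3.3933 0.01 0.4769 0.01 1.2263 2.3522 hβ hr hκ (by norm_num) hk1 hk2 hta htb (by norm_num) (by norm_num) (by norm_num) (by norm_num) (by norm_num) (by norm_num) (by norm_num) (by norm_num) (by norm_num) (by norm_num) (by norm_num)

private theorem B5Fo_Y53 {β r t κ h t' : ℝ} (hβ : 0 < β) (hκ : κ = β * r) (hN : β * 12.499 ≤ 1) (hk1 : 0.7 ≤ κ) (hk2 : κ ≤ 0.8)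
    (ht : t' = t + (((0 : ℤ) : ℝ) - 1) * h) (hD : DomR κ t') (hta : (-0.4902) ≤ t' + κ) (htb : t' + κ ≤ (-0.3766)) :
    0.8409 * Real.exp (r * sE κ t') ≤ ‖Xf β r h t 0‖ := by
  obtain ⟨⟨ya, yb⟩, ⟨xa, xb⟩, n1, Da, Db⟩ := B5Fo_B47 hD hk1 hk2 hta htb
  have J := B5Fo_T48 (x := sx κ t') (y := sy κ t') hβ hN (by linarith only [xa, xb, ya, yb]) (by linarith only [xa, xb, ya, yb]) (by linarith only [xa, xb, ya, yb]) (by linarith only [xa, xb, ya, yb])
  exact v5_Jlo hβ hκ (k := 0) ht hD 0.06 1.561 0.8409 (by norm_num) J Db (by norm_num)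

private theorem B5Fo_V54 {κ t : ℝ} (hD : DomR κ t) (hk1 : 0.7 ≤ κ) (hk2 : κ ≤ 0.8) (hta : (-0.4902) ≤ t + κ) (htb : t + κ ≤ (-0.3766)) :
    1.07195 + 0.3378 * (t + κ) ≤ sE κ t := by
  have hκ0 : 0 < κ := hD.1
  exact v5_V0 hD 0.7 0.8 (-0.4902) (-0.3766) 0.4903 0.5806 0.14174 0.12383 0.30231 0.53692 1.07195 0.3378 (by norm_num) hk1 hk2 (by norm_num) hta htb (by norm_num) (by norm_num) (by norm_num) ((cup1 0.8 hκ0.le hk2 (by norm_num)).trans (by norm_num))
      (by norm_num) (by norm_num) (by norm_num) (by norm_num) (by norm_num) (by norm_num) (by norm_num) (by norm_num) (by norm_num) (by norm_num) (by norm_num) (by norm_num) (by norm_num)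

private theorem B5Fo_K55 {β r t κ h : ℝ} (hβ : 0 < β) (hr : 10 ≤ r) (hκ : κ = β * r) (hk1 : 0.7 ≤ κ) (hk2 : κ ≤ 0.8)
    (hh : h = 2 * Real.pi / 5) (hh1 : 1.25663 ≤ h) (hh2 : h ≤ 1.25664) (hta : 0.7665 ≤ t + κ) (htb : t + κ ≤ 0.88)
    (hY : 0.8409 * Real.exp (r * sE κ (t - h)) ≤ ‖Xf β r h t 0‖) (hV : 1.07195 + 0.3378 * (t - h + κ) ≤ sE κ (t - h)) :
    ‖Xf β r h t 2‖ ≤ 0.00436 * ‖Xf β r h t 0‖ := by
  rw [v5_X 2 1 (by push_cast; ring)]
  exact v5_cmp 0.6711 0.001226 0.00433 0.9063 0.0001159 0.0000212 0.00436 hr (B5Fo_C50 (t := t + 1 * h) hβ hr hκ hk1 hk2 (by linarith only [hta, htb, hh1, hh2]) (by linarith only [hta, htb, hh1, hh2])) hY (by norm_num) (by norm_num) (by norm_num) (by norm_num) (by linarith only [hV, hta, htb, hh1, hh2]) (ex_un 6 0.7109 (by norm_num) (by norm_num) (by norm_num) (by norm_num)) (by norm_num) (by norm_num) (by linarith only [hV, hta, htb, hh1, hh2]) (ex_un 9 0.0629 (by norm_num) (by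 norm_num) (by norm_num) (by norm_num)) (by norm_num) (by norm_num)

private theorem B5Fo_K56 {β r t κ h : ℝ} (hβ : 0 < β) (hr : 10 ≤ r) (hκ : κ = β * r) (hk1 : 0.7 ≤ κ) (hk2 : κ ≤ 0.8)
    (hh : h = 2 * Real.pi / 5) (hh1 : 1.25663 ≤ h) (hh2 : h ≤ 1.25664) (hta : 0.7665 ≤ t + κ) (htb : t + κ ≤ 0.88)
    (hY : 0.8409 * Real.exp (r * sE κ (t - h)) ≤ ‖Xf β r h t 0‖) (hV : 1.07195 + 0.3378 * (t - h + κ) ≤ sE κ (t - h)) :
    ‖Xf β r h t (-1)‖ ≤ 0.00114 * ‖Xf β r h t 0‖ := by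
  rw [v5_X (-1) (-2) (by push_cast; ring)]
  exact v5_cmp 0.7625 0.0004901 0.000701 0.8562 0.0001918 0.000431 0.00114 hr (B5Fo_C51 (t := t + (-2) * h) hβ hr hκ hk1 hk2 (by linarith only [hta, htb, hh1, hh2]) (by linarith only [hta, htb, hh1, hh2])) hY (by norm_num) (by norm_num) (by norm_num) (by norm_num) (by linarith only [hV, hta, htb, hh1, hh2]) (ex_un 7 0.6249 (by norm_num) (by norm_num) (by norm_num) (by norm_num)) (by norm_num) (by norm_num) (by linarith only [hV, hta, htb, hh1, hh2]) (ex_un 8 0.5619 (by norm_num) (by norm_num) (by norm_num) (by norm_num)) (by norm_num) (by norm_num)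

private theorem B5Fo_K57 {β r t κ h : ℝ} (hβ : 0 < β) (hr : 10 ≤ r) (hκ : κ = β * r) (hk1 : 0.7 ≤ κ) (hk2 : κ ≤ 0.8)
    (hh : h = 2 * Real.pi / 5) (hh1 : 1.25663 ≤ h) (hh2 : h ≤ 1.25664) (hta : 0.7665 ≤ t + κ) (htb : t + κ ≤ 0.88)
    (hY : 0.8409 * Real.exp (r * sE κ (t - h)) ≤ ‖Xf β r h t 0‖) (hV : 1.07195 + 0.3378 * (t - h + κ) ≤ sE κ (t - h)) :
    ‖Xf β r h t (-2)‖ ≤ 0.000592 * ‖Xf β r h t 0‖ := by
  rw [v5_Xm2 hh]
  exact v5_cmp0 0.8463 0.0002115 0.000592 hr (B5Fo_C52 (t := t + 2 * h) hβ hr hκ hk1 hk2 (by linarith only [hta, htb, hh1, hh2]) (by linarith only [hta, htb, hh1, hh2])) hY (by norm_num) (by norm_num) (by norm_num) (by linarith only [hV, hta, htb, hh1, hh2]) (ex_un 8 0.4629 (by norm_num) (by norm_num) (by norm_num) (by norm_num)) (by norm_num)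

private theorem B5Fo_G58 {κ : ℝ} (hk1 : 0.7 ≤ κ) (hk2 : κ ≤ 0.8) : gG κ 0.35 ≤ 1.1186 ∧ 0.5712 ≤ Real.exp (-(κ * 0.35)) ^ 2 := by
  refine ⟨gG_le 0.35 0.7 0.8 1.1186 0.78271 0.75579 1.27763 1.32313 hk1 hk2 (by norm_num)
    (ex_um 0.245 (by norm_num) (by norm_num) (by norm_num) (by norm_num)) (ex_um 0.28 (by norm_num) (by norm_num) (by norm_num) (by norm_num))
    (ex_up 0.245 (by norm_num) (by norm_num) (by norm_num) (by norm_num)) (ex_up 0.28 (by norm_num) (by norm_num) (by norm_num) (by norm_num))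
    (by norm_num) (by norm_num), ?_⟩
  exact v5_M 0.75578 (ex_lm 0.28 (by linarith) (by norm_num) (by norm_num) (by norm_num) (by norm_num)) (by norm_num) (by norm_num)

private theorem B5Fo_B59 {κ t : ℝ} (h : DomR κ t) (hk1 : 0.7 ≤ κ) (hk2 : κ ≤ 0.8) (ht1 : 0.7664 ≤ t + κ) (ht2 : t + κ ≤ 0.8801) :
    (0.268 ≤ sy κ t ∧ sy κ t ≤ 0.317) ∧ (0.3992 ≤ sx κ t ∧ sx κ t ≤ 0.5502) ∧ κ * Real.exp (-sy κ t) ≤ 0.612 ∧ 1.8226 ≤ sD κ t ∧ sD κ t ≤ 1.9736 := by
  have hy1 : 0.268 ≤ sy κ t := syR_ge h 0.7 0.8 0.7664 0.268 1.30734 1.30735 0.43795 0.50053 hk1 hk2 (by linarith) (by norm_num) (by norm_num)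
    (expn_ge (by norm_num) (by norm_num)) (expn_le (by norm_num) (by norm_num) (by norm_num)) (by norm_num)
    (by norm_num) (by norm_num) (by norm_num) (by norm_num) (by norm_num) (by norm_num)
  have hy2 : sy κ t ≤ 0.317 := syR_le h 0.7 0.8 0.8801 0.317 1.373 0.531 0.54405 0.62178 hk1 hk2 (by linarith) (by norm_num) (by norm_num)
    (expn_ge (by norm_num) (by norm_num)) (by norm_num) (by norm_num) (Or.inr ((mul_le_mul_of_nonneg_left (expn_le (E := 1.37301) (by norm_num) (by norm_num) (by norm_num)) (by norm_num)).trans (by norm_num))) (by norm_num) (by norm_num) (by norm_num)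
  have hy1' : 0.268 ≤ sy κ t := by linarith
  have hy2' : sy κ t ≤ 0.317 := by linarith
  have hx1 : 0.3992 ≤ sx κ t := sx_lo h 0.7 0.317 0.3171 0.72833 0.3992 hk1 (by norm_num) hy2' (abs_le.2 ⟨by linarith, by linarith⟩) (ex_lm 0.317 (by norm_num) (by norm_num) (by norm_num) (by norm_num) (by norm_num)) (by norm_num) (by norm_num)
  have hx2 : sx κ t ≤ 0.5502 := sx_hi h 0.8 0.268 0.268 0.76491 0.5502 hk2 hy1' (by norm_num) (le_trans (by linarith) (le_abs_self _)) (ex_um 0.268 (by norm_num) (by norm_num) (by norm_num) (by norm_num)) (by norm_num) (by norm_num)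
  refine ⟨⟨hy1', hy2'⟩, ⟨hx1, hx2⟩, v5_n h 0.8 0.268 0.76491 0.612 hk2 hy1' (ex_um 0.268 (by norm_num) (by norm_num) (by norm_num) (by norm_num)) (by norm_num), ?_, ?_⟩
  · exact v5_Dlo h 0.7 0.268 0.317 0.268 0.7649 1.8226 (by norm_num) hk1 hy1' hy2' (ex_lm 0.268 (by norm_num) (by norm_num) (by norm_num) (by norm_num) (by norm_num)) (by norm_num) (by norm_num) (by norm_num) (by norm_num)
  · exact v5_Dup h 0.8 0.268 0.317 0.76491 0.72834 1.9736 hk2 hy1' hy2' (ex_um 0.268 (by norm_num) (by norm_num) (by norm_num) (by norm_num)) (ex_um 0.317 (by norm_num) (by norm_num) (by norm_num) (by norm_num)) (by norm_num) (by norm_num) (by norm_num)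

private theorem B5Fo_T60_0_0 {β x y : ℝ} (hβ : 0 < β) (hN : β * 12.499 ≤ 1) (hx1 : 0.3991 ≤ x) (hx2 : x ≤ 0.474)
    (hy1 : -0 ≤ y) (hy2 : y ≤ 0.3171) : ‖HH β (x + y * I) - 1‖ ≤ 0.035 := by
  refine le_epsJ (C := 0.4368) (N0 := 12.499) (J_boxp 0.3991 0.474 0 0.3171 0.3171 0.991 0.5703 1.3998 1.1993 0.4721 3.5354 12.499 0.5755 2.108 1.292 1.2378 0.4954 0.4004 1.1448 3.804 0.5165 1.0202 1.0088 2.4658 0.002046 0.006712 0.0000006112 0.0000003101 0.001573 0.000002903 0.000003347 0.0000003101 0.4368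
    hβ hN hx1 hx2 hy1 hy2 (by norm_num) (by norm_num) (by linarith) (by norm_num) (by norm_num) (by norm_num) (by norm_num) (by norm_num) (by norm_num) (by norm_num) (by norm_num) (by norm_num) (by norm_num) (by norm_num) (by norm_num) (by norm_num) (by norm_num) (by norm_num) (by norm_num) (by norm_num) (by norm_num) (by norm_num) (by norm_num) (by norm_num)
    (cube_sqrt_geJ (s := 0.8989) (by norm_num) (by norm_num) (by norm_num) (by norm_num))
    (cube_sqrt_geJ (s := 0.9641) (by norm_num) (by norm_num) (by norm_num) (by norm_num))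
    (by norm_num) (by norm_num) (by norm_num) (by norm_num) (by norm_num) (by norm_num) (by norm_num) (by norm_num) (by norm_num) (by norm_num) (by norm_num) (by norm_num) (by norm_num) (by norm_num) (by norm_num) (by norm_num) (by norm_num) (by norm_num)
    (exp_neg_leJ (r := 0.192) 6 (by norm_num) (by norm_num) (by norm_num) (by norm_num))
    (exp_neg_leJ (r := 0.004) 5 (by norm_num) (by norm_num) (by norm_num) (by norm_num))
    (exp_neg_leJ (r := 0.308) 14 (by norm_num) (by norm_num) (by norm_num) (by norm_num))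
    (exp_neg_leJ (r := 0.99) 14 (by norm_num) (by norm_num) (by norm_num) (by norm_num))
    (exp_neg_leJ (r := 0.455) 6 (by norm_num) (by norm_num) (by norm_num) (by norm_num))
    (exp_neg_leJ (r := 0.751) 12 (by norm_num) (by norm_num) (by norm_num) (by norm_num))
    (exp_neg_leJ (r := 0.608) 12 (by norm_num) (by norm_num) (by norm_num) (by norm_num))
    (exp_neg_leJ (r := 0.99) 14 (by norm_num) (by norm_num) (by norm_num) (by norm_num))
    (by norm_num)) (by norm_num) hN hβ.le (by norm_num)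

private theorem B5Fo_T60_0_1 {β x y : ℝ} (hβ : 0 < β) (hN : β * 12.499 ≤ 1) (hx1 : 0.474 ≤ x) (hx2 : x ≤ 0.5503)
    (hy1 : -0 ≤ y) (hy2 : y ≤ 0.3171) : ‖HH β (x + y * I) - 1‖ ≤ 0.035 := by
  refine le_epsJ (C := 0.4244) (N0 := 12.499) (J_boxp 0.474 0.5503 0 0.3171 0.3171 1.0438 0.6352 1.4275 1.1204 0.4767 3.5354 12.499 0.6086 2.212 1.312 1.2084 0.5218 0.416 1.1705 3.7629 0.5529 1.1239 1.1586 2.4392 0.001473 0.005523 0.0000004431 0.0000003101 0.001001 0.0000007934 0.0000005142 0.0000003101 0.4244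
    hβ hN hx1 hx2 hy1 hy2 (by norm_num) (by norm_num) (by linarith) (by norm_num) (by norm_num) (by norm_num) (by norm_num) (by norm_num) (by norm_num) (by norm_num) (by norm_num) (by norm_num) (by norm_num) (by norm_num) (by norm_num) (by norm_num) (by norm_num) (by norm_num) (by norm_num) (by norm_num) (by norm_num) (by norm_num) (by norm_num) (by norm_num)
    (cube_sqrt_geJ (s := 0.8928) (by norm_num) (by norm_num) (by norm_num) (by norm_num))
    (cube_sqrt_geJ (s := 0.962) (by norm_num) (by norm_num) (by norm_num) (by norm_num))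
    (by norm_num) (by norm_num) (by norm_num) (by norm_num) (by norm_num) (by norm_num) (by norm_num) (by norm_num) (by norm_num) (by norm_num) (by norm_num) (by norm_num) (by norm_num) (by norm_num) (by norm_num) (by norm_num) (by norm_num) (by norm_num)
    (exp_neg_leJ (r := 0.521) 6 (by norm_num) (by norm_num) (by norm_num) (by norm_num))
    (exp_neg_leJ (r := 0.199) 5 (by norm_num) (by norm_num) (by norm_num) (by norm_num))
    (exp_neg_leJ (r := 0.63) 14 (by norm_num) (by norm_num) (by norm_num) (by norm_num))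
    (exp_neg_leJ (r := 0.99) 14 (by norm_num) (by norm_num) (by norm_num) (by norm_num))
    (exp_neg_leJ (r := 0.91) 6 (by norm_num) (by norm_num) (by norm_num) (by norm_num))
    (exp_neg_leJ (r := 0.047) 14 (by norm_num) (by norm_num) (by norm_num) (by norm_num))
    (exp_neg_leJ (r := 0.481) 14 (by norm_num) (by norm_num) (by norm_num) (by norm_num))
    (exp_neg_leJ (r := 0.99) 14 (by norm_num) (by norm_num) (by norm_num) (by norm_num))
    (by norm_num)) (by norm_num) hN hβ.le (by norm_num)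

private theorem B5Fo_T60 {β x y : ℝ} (hβ : 0 < β) (hN : β * 12.499 ≤ 1) (hx1 : 0.3991 ≤ x) (hx2 : x ≤ 0.5503)
    (hy1 : 0.2679 ≤ y) (hy2 : y ≤ 0.3171) : ‖HH β (x + y * I) - 1‖ ≤ 0.035 := by
  rcases le_total x 0.474 with hxx | hxx
  · exact B5Fo_T60_0_0 hβ hN (by linarith) (by linarith) (by linarith) (by linarith)
  exact B5Fo_T60_0_1 hβ hN (by linarith) (by linarith) (by linarith) (by linarith)

private theorem B5Fo_U61 {β r t κ h t' : ℝ} (hβ : 0 < β) (hκ : κ = β * r) (hN : β * 12.499 ≤ 1) (hk1 : 0.7 ≤ κ) (hk2 : κ ≤ 0.8)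
    (ht : t' = t + (((1 : ℤ) : ℝ) - 1) * h) (hD : DomR κ t') (hta : 0.7664 ≤ t' + κ) (htb : t' + κ ≤ 0.8801) :
    ‖Xf β r h t 1‖ ≤ 0.8908 * Real.exp (r * sE κ t') := by
  obtain ⟨⟨ya, yb⟩, ⟨xa, xb⟩, n1, Da, Db⟩ := B5Fo_B59 hD hk1 hk2 hta htb
  have J := B5Fo_T60 (x := sx κ t') (y := sy κ t') hβ hN (by linarith only [xa, xb, ya, yb]) (by linarith only [xa, xb, ya, yb]) (by linarith only [xa, xb, ya, yb]) (by linarith only [xa, xb, ya, yb])
  exact v5_Jup (h := h) (t := t) (k := 1) hβ hκ ht hD 0.035 1.8226 0.8908 J Da (by norm_num) (by norm_num)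

private theorem B5Fo_K62 {β r t κ h : ℝ} (hβ : 0 < β) (hr : 10 ≤ r) (hκ : κ = β * r) (hk1 : 0.7 ≤ κ) (hk2 : κ ≤ 0.8)
    (hh : h = 2 * Real.pi / 5) (hh1 : 1.25663 ≤ h) (hh2 : h ≤ 1.25664) (hta : 0.7665 ≤ t + κ) (htb : t + κ ≤ 0.88) (hN : β * 12.499 ≤ 1)
    (hD : DomR κ t) (hY : 0.8409 * Real.exp (r * sE κ (t - h)) ≤ ‖Xf β r h t 0‖) (hV : 1.07195 + 0.3378 * (t - h + κ) ≤ sE κ (t - h)) :
    ‖Xf β r h t 1‖ ≤ 0.607 * ‖Xf β r h t 0‖ := by
  have hU := B5Fo_U61 (h := h) (t := t) hβ hκ hN hk1 hk2 (by push_cast; ring) hD (by linarith only [hta, htb, hh1, hh2]) (by linarith only [hta, htb, hh1, hh2])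
  have hW := V_up hD 0.35 (B5Fo_G58 hk1 hk2).1
  exact v5_cmpJ 0.056 0.5728 0.607 hr hU hW hY (by norm_num) (by norm_num) (by norm_num) (by linarith only [hV, hta, htb, hh1, hh2]) (ex_un 0 0.5599 (by norm_num) (by norm_num) (by norm_num) (by norm_num)) (by norm_num)

private theorem B5Fo_O63 {β r t κ h : ℝ} (hβ : 0 < β) (hr : 10 ≤ r) (hκ : κ = β * r) (hk1 : 0.7 ≤ κ) (hk2 : κ ≤ 0.8)
    (hh : h = 2 * Real.pi / 5) (hta : 0.7665 ≤ t + κ) (htb : t + κ ≤ 0.88) :
    ‖Xf β r h t (-2)‖ + ‖Xf β r h t (-1)‖ + ‖Xf β r h t 2‖ < |‖Xf β r h t 1‖ - ‖Xf β r h t 0‖| := by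
  obtain ⟨hh1, hh2⟩ := v5_h hh
  have hκ0 : 0 < κ := by linarith only [hk1]
  have hN : β * 12.499 ≤ 1 := v5_hN 0.8 12.499 hβ hr hκ hk2 (by norm_num) (by norm_num)
  have hD1 : DomR κ t := v5_dom hκ0 (by linarith only [hta, htb, hk1, hk2, hh1, hh2]) (Or.inr (by linarith only [hta, htb, hk1, hk2, hh1, hh2]))
  have hD0 : DomR κ (t - h) := v5_dom hκ0 (by linarith only [hta, htb, hk1, hk2, hh1, hh2]) (Or.inr (by linarith only [hta, htb, hk1, hk2, hh1, hh2]))
  have h0a : (-0.4902) ≤ t - h + κ := by linarith only [hta, htb, hh1, hh2]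
  have h0b : t - h + κ ≤ (-0.3766) := by linarith only [hta, htb, hh1, hh2]
  have e0 : t - h = t + (((0 : ℤ) : ℝ) - 1) * h := by push_cast; ring
  have hY := B5Fo_Y53 (h := h) hβ hκ hN hk1 hk2 e0 hD0 h0a h0b
  have hV := B5Fo_V54 hD0 hk1 hk2 h0a h0b
  have cp2 := B5Fo_K55 hβ hr hκ hk1 hk2 hh hh1 hh2 hta htb hY hV
  have cm1 := B5Fo_K56 hβ hr hκ hk1 hk2 hh hh1 hh2 hta htb hY hV
  have cm2 := B5Fo_K57 hβ hr hκ hk1 hk2 hh hh1 hh2 hta htb hY hV
  have cn1 := B5Fo_K62 hβ hr hκ hk1 hk2 hh hh1 hh2 hta htb hN hD1 hY hV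
  have hp : 0 < ‖Xf β r h t 0‖ := lt_of_lt_of_le (by positivity) hY
  exact v5_out0 _ _ _ _ cm2 cm1 cp2 cn1 hp (by norm_num)

private theorem B5Fo_B64 {κ t : ℝ} (h : DomR κ t) (hk1 : 0.7 ≤ κ) (hk2 : κ ≤ 0.8) (ht1 : (-0.3767) ≤ t + κ) (ht2 : t + κ ≤ (-0.1886)) :
    ((-0.209) ≤ sy κ t ∧ sy κ t ≤ (-0.095)) ∧ (0.7408 ≤ sx κ t ∧ sx κ t ≤ 0.9814) ∧ κ * Real.exp (-sy κ t) ≤ 0.986 ∧ 1.3262 ≤ sD κ t ∧ sD κ t ≤ 1.584 := by
  have hy1 : -0.209 ≤ sy κ t := syL_ge h 0.7 0.8 0.3767 0.209 0.81139 0.8114 0.2094 0.21197 0.24227 hk1 hk2 (by linarith) (by norm_num) (by norm_num) (by norm_num)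
    (expm_ge (by norm_num) (by norm_num) (by norm_num) (by norm_num)) (expm_le (by norm_num) (by norm_num) (by norm_num)) (by norm_num)
    (by norm_num) (by norm_num) (by norm_num) (by norm_num) (by norm_num) (by norm_num)
  have hy2 : sy κ t ≤ -0.095 := syL_le h 0.7 0.8 0.1886 0.095 0.90937 0.90938 0.10798 0.12342 hk1 hk2 (by linarith) (by norm_num) (by norm_num) (by norm_num)
    (expm_ge (by norm_num) (by norm_num) (by norm_num) (by norm_num)) (expm_le (by norm_num) (by norm_num) (by norm_num)) (by norm_num)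
    (by norm_num) (by norm_num) (by norm_num) (by norm_num) (by norm_num) (by norm_num)
  have hy1' : (-0.209) ≤ sy κ t := by linarith
  have hy2' : sy κ t ≤ (-0.095) := by linarith
  have hx1 : 0.7408 ≤ sx κ t := sx_lo h 0.7 (-0.095) 0.2091 1.09965 0.7408 hk1 (by norm_num) hy2' (abs_le.2 ⟨by linarith, by linarith⟩) (ex_lp 0.095 (by norm_num) (by norm_num) (by norm_num)) (by norm_num) (by norm_num)
  have hx2 : sx κ t ≤ 0.9814 := sx_hi h 0.8 (-0.209) 0.095 1.23245 0.9814 hk2 hy1' (by norm_num) (le_trans (by linarith) (neg_le_abs _)) (ex_up 0.209 (by norm_num) (by norm_num) (by norm_num) (by norm_num)) (by norm_num) (by norm_num)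
  refine ⟨⟨hy1', hy2'⟩, ⟨hx1, hx2⟩, v5_n h 0.8 (-0.209) 1.23245 0.986 hk2 hy1' (ex_up 0.209 (by norm_num) (by norm_num) (by norm_num) (by norm_num)) (by norm_num), ?_, ?_⟩
  · exact v5_Dlo h 0.7 (-0.209) (-0.095) (-0.209) 1.23244 1.3262 (by norm_num) hk1 hy1' hy2' (ex_lp 0.209 (by norm_num) (by norm_num) (by norm_num)) (by norm_num) (by norm_num) (by norm_num) (by norm_num)
  · exact v5_Dup h 0.8 (-0.209) (-0.095) 1.23245 1.09966 1.584 hk2 hy1' hy2' (ex_up 0.209 (by norm_num) (by norm_num) (by norm_num) (by norm_num)) (ex_up 0.095 (by norm_num) (by norm_num) (by norm_num) (by norm_num)) (by norm_num) (by norm_num) (by norm_num)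

private theorem B5Fo_T65_0_0 {β x y : ℝ} (hβ : 0 < β) (hN : β * 12.499 ≤ 1) (hx1 : 0.7407 ≤ x) (hx2 : x ≤ 0.838)
    (hy1 : -0.2091 ≤ y) (hy2 : y ≤ -0.0949) : ‖HH β (x + y * I) - 1‖ ≤ 0.05 := by
  refine le_epsJ (C := 0.6232) (N0 := 12.499) (J_boxp 0.7407 0.838 0.2091 0 (-0.0949) 1.0831 0.8637 1.2335 0.9853 0.4431 3.5354 12.499 0.7975 2.95 1.433 0.9047 0.5415 0.3975 0.9317 2.9564 0.6005 1.5255 2.4837 3.8457 0.001152 0.00698 0.000008768 0.0000003101 0.0005505 0.0000003101 0.0000003101 0.0000003101 0.6232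
    hβ hN hx1 hx2 hy1 hy2 (by norm_num) (by norm_num) (by linarith) (by norm_num) (by norm_num) (by norm_num) (by norm_num) (by norm_num) (by norm_num) (by norm_num) (by norm_num) (by norm_num) (by norm_num) (by norm_num) (by norm_num) (by norm_num) (by norm_num) (by norm_num) (by norm_num) (by norm_num) (by norm_num) (by norm_num) (by norm_num) (by norm_num)
    (cube_sqrt_geJ (s := 0.8568) (by norm_num) (by norm_num) (by norm_num) (by norm_num))
    (cube_sqrt_geJ (s := 0.9499) (by norm_num) (by norm_num) (by norm_num) (by norm_num))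
    (by norm_num) (by norm_num) (by norm_num) (by norm_num) (by norm_num) (by norm_num) (by norm_num) (by norm_num) (by norm_num) (by norm_num) (by norm_num) (by norm_num) (by norm_num) (by norm_num) (by norm_num) (by norm_num) (by norm_num) (by norm_num)
    (exp_neg_leJ (r := 0.768) 6 (by norm_num) (by norm_num) (by norm_num) (by norm_num))
    (exp_neg_leJ (r := 0.968) 4 (by norm_num) (by norm_num) (by norm_num) (by norm_num))
    (exp_neg_leJ (r := 0.645) 11 (by norm_num) (by norm_num) (by norm_num) (by norm_num))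
    (exp_neg_leJ (r := 0.99) 14 (by norm_num) (by norm_num) (by norm_num) (by norm_num))
    (exp_neg_leJ (r := 0.505) 7 (by norm_num) (by norm_num) (by norm_num) (by norm_num))
    (exp_neg_leJ (r := 0.99) 14 (by norm_num) (by norm_num) (by norm_num) (by norm_num))
    (exp_neg_leJ (r := 0.99) 14 (by norm_num) (by norm_num) (by norm_num) (by norm_num))
    (exp_neg_leJ (r := 0.99) 14 (by norm_num) (by norm_num) (by norm_num) (by norm_num))
    (by norm_num)) (by norm_num) hN hβ.le (by norm_num)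

private theorem B5Fo_T65_0_1 {β x y : ℝ} (hβ : 0 < β) (hN : β * 12.499 ≤ 1) (hx1 : 0.838 ≤ x) (hx2 : x ≤ 0.937)
    (hy1 : -0.2091 ≤ y) (hy2 : y ≤ -0.0949) : ‖HH β (x + y * I) - 1‖ ≤ 0.05 := by
  refine le_epsJ (C := 0.6239) (N0 := 12.499) (J_boxp 0.838 0.937 0.2091 0 (-0.0949) 1.1516 0.9601 1.3028 0.9237 0.4554 3.5354 12.499 0.8338 3.127 1.458 0.8667 0.5757 0.4157 0.965 2.8998 0.6478 1.6603 2.6783 3.7782 0.0007504 0.005545 0.000005781 0.0000003101 0.0003048 0.0000003101 0.0000003101 0.0000003101 0.6239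
    hβ hN hx1 hx2 hy1 hy2 (by norm_num) (by norm_num) (by linarith) (by norm_num) (by norm_num) (by norm_num) (by norm_num) (by norm_num) (by norm_num) (by norm_num) (by norm_num) (by norm_num) (by norm_num) (by norm_num) (by norm_num) (by norm_num) (by norm_num) (by norm_num) (by norm_num) (by norm_num) (by norm_num) (by norm_num) (by norm_num) (by norm_num)
    (cube_sqrt_geJ (s := 0.8497) (by norm_num) (by norm_num) (by norm_num) (by norm_num))
    (cube_sqrt_geJ (s := 0.9475) (by norm_num) (by norm_num) (by norm_num) (by norm_num))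
    (by norm_num) (by norm_num) (by norm_num) (by norm_num) (by norm_num) (by norm_num) (by norm_num) (by norm_num) (by norm_num) (by norm_num) (by norm_num) (by norm_num) (by norm_num) (by norm_num) (by norm_num) (by norm_num) (by norm_num) (by norm_num)
    (exp_neg_leJ (r := 0.195) 7 (by norm_num) (by norm_num) (by norm_num) (by norm_num))
    (exp_neg_leJ (r := 0.195) 5 (by norm_num) (by norm_num) (by norm_num) (by norm_num))
    (exp_neg_leJ (r := 0.061) 12 (by norm_num) (by norm_num) (by norm_num) (by norm_num))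
    (exp_neg_leJ (r := 0.99) 14 (by norm_num) (by norm_num) (by norm_num) (by norm_num))
    (exp_neg_leJ (r := 0.096) 8 (by norm_num) (by norm_num) (by norm_num) (by norm_num))
    (exp_neg_leJ (r := 0.99) 14 (by norm_num) (by norm_num) (by norm_num) (by norm_num))
    (exp_neg_leJ (r := 0.99) 14 (by norm_num) (by norm_num) (by norm_num) (by norm_num))
    (exp_neg_leJ (r := 0.99) 14 (by norm_num) (by norm_num) (by norm_num) (by norm_num))
    (by norm_num)) (by norm_num) hN hβ.le (by norm_num)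

private theorem B5Fo_T65_0_2 {β x y : ℝ} (hβ : 0 < β) (hN : β * 12.499 ≤ 1) (hx1 : 0.937 ≤ x) (hx2 : x ≤ 0.9815)
    (hy1 : -0.2091 ≤ y) (hy2 : y ≤ -0.0949) : ‖HH β (x + y * I) - 1‖ ≤ 0.05 := by
  refine le_epsJ (C := 0.5422) (N0 := 12.499) (J_boxp 0.937 0.9815 0.2091 0 (-0.0949) 1.2213 1.0036 1.3352 0.8562 0.461 3.5354 12.499 0.8218 3.067 1.45 0.8496 0.6106 0.4433 0.9989 2.8744 0.6959 1.7973 2.8763 3.858 0.0004855 0.003928 0.000003784 0.0000003101 0.0001671 0.0000003101 0.0000003101 0.0000003101 0.5422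
    hβ hN hx1 hx2 hy1 hy2 (by norm_num) (by norm_num) (by linarith) (by norm_num) (by norm_num) (by norm_num) (by norm_num) (by norm_num) (by norm_num) (by norm_num) (by norm_num) (by norm_num) (by norm_num) (by norm_num) (by norm_num) (by norm_num) (by norm_num) (by norm_num) (by norm_num) (by norm_num) (by norm_num) (by norm_num) (by norm_num) (by norm_num)
    (cube_sqrt_geJ (s := 0.852) (by norm_num) (by norm_num) (by norm_num) (by norm_num))
    (cube_sqrt_geJ (s := 0.9483) (by norm_num) (by norm_num) (by norm_num) (by norm_num))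
    (by norm_num) (by norm_num) (by norm_num) (by norm_num) (by norm_num) (by norm_num) (by norm_num) (by norm_num) (by norm_num) (by norm_num) (by norm_num) (by norm_num) (by norm_num) (by norm_num) (by norm_num) (by norm_num) (by norm_num) (by norm_num)
    (exp_neg_leJ (r := 0.631) 7 (by norm_num) (by norm_num) (by norm_num) (by norm_num))
    (exp_neg_leJ (r := 0.54) 5 (by norm_num) (by norm_num) (by norm_num) (by norm_num))
    (exp_neg_leJ (r := 0.485) 12 (by norm_num) (by norm_num) (by norm_num) (by norm_num))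
    (exp_neg_leJ (r := 0.99) 14 (by norm_num) (by norm_num) (by norm_num) (by norm_num))
    (exp_neg_leJ (r := 0.698) 8 (by norm_num) (by norm_num) (by norm_num) (by norm_num))
    (exp_neg_leJ (r := 0.99) 14 (by norm_num) (by norm_num) (by norm_num) (by norm_num))
    (exp_neg_leJ (r := 0.99) 14 (by norm_num) (by norm_num) (by norm_num) (by norm_num))
    (exp_neg_leJ (r := 0.99) 14 (by norm_num) (by norm_num) (by norm_num) (by norm_num))
    (by norm_num)) (by norm_num) hN hβ.le (by norm_num)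

private theorem B5Fo_T65 {β x y : ℝ} (hβ : 0 < β) (hN : β * 12.499 ≤ 1) (hx1 : 0.7407 ≤ x) (hx2 : x ≤ 0.9815)
    (hy1 : (-0.2091) ≤ y) (hy2 : y ≤ (-0.0949)) : ‖HH β (x + y * I) - 1‖ ≤ 0.05 := by
  rcases le_total x 0.838 with hxx | hxx
  · exact B5Fo_T65_0_0 hβ hN (by linarith) (by linarith) (by linarith) (by linarith)
  rcases le_total x 0.937 with hxx | hxx
  · exact B5Fo_T65_0_1 hβ hN (by linarith) (by linarith) (by linarith) (by linarith)
  exact B5Fo_T65_0_2 hβ hN (by linarith) (by linarith) (by linarith) (by linarith)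

private theorem B5Fo_C66 {β r t κ : ℝ} (hβ : 0 < β) (hr : 10 ≤ r) (hκ : κ = β * r) (hk1 : 0.7 ≤ κ) (hk2 : κ ≤ 0.8) (hta : 2.1366 ≤ t + κ)
    (htb : t + κ ≤ 2.3247) : ‖F (cexp (I * β)) (r * cexp (I * ((t + β / 2 : ℝ) : ℂ)))‖ ≤
      4.5544 * Real.exp (r * (0.27 + 1 / 20)) :=
  v5_UD 0.7 0.8 2.1366 2.3247 0.27 0.4769 0.27 2.3744 4.5544 hβ hr hκ (by norm_num) hk1 hk2 hta htb (by norm_num) (by norm_num) (by norm_num) (by norm_num) (by norm_num) (by norm_num) (by norm_num) (by norm_num) (by norm_num) (by norm_num) (by norm_num)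

private theorem B5Fo_C67 {β r t κ : ℝ} (hβ : 0 < β) (hr : 10 ≤ r) (hκ : κ = β * r) (hk1 : 0.7 ≤ κ) (hk2 : κ ≤ 0.8) (hta : (-1.6333) ≤ t + κ)
    (htb : t + κ ≤ (-1.4452)) : ‖F (cexp (I * β)) (r * cexp (I * ((t + β / 2 : ℝ) : ℂ)))‖ ≤
      1.2023 * Real.exp (r * (1.34181 - (-0.71) * (t + κ))) + 1.8841 * Real.exp (r * 0.0501) :=
  v5_HU (-0.71) 0.7 0.8 (-1.6333) (-1.4452) 1.34181 1.2023 2.70201 0.1129 0.9147 2.2786 0 0.0501 0.00000142 1.8841 hβ hr hκ (by norm_num) hk1 hk2 hta htb (by norm_num) (by norm_num) (B5Fo_G13 hk1 hk2).1 (B5Fo_G13 hk1 hk2).2 (by norm_num) (by norm_num) (by norm_num)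
    (by norm_num) (by norm_num) (by norm_num) (by norm_num) (by norm_num) (by norm_num) (by norm_num)
    (by norm_num) (by norm_num) (by norm_num) (v5_hump 5.7825 12.499 3.5354 0.0000009316 0.00000142 hβ hr hκ hk1 hk2 (by norm_num) htb (by norm_num) (by norm_num) (by norm_num) (by norm_num) (by norm_num) (by norm_num) (by norm_num) (ex_un 13 0.9 (by norm_num) (by norm_num) (by norm_num) (by norm_num)) (by norm_num)) (by norm_num)

private theorem B5Fo_C68 {β r t κ : ℝ} (hβ : 0 < β) (hr : 10 ≤ r) (hκ : κ = β * r) (hk1 : 0.7 ≤ κ) (hk2 : κ ≤ 0.8) (hta : 3.3932 ≤ t + κ)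
    (htb : t + κ ≤ 3.5813) : ‖F (cexp (I * β)) (r * cexp (I * ((t + β / 2 : ℝ) : ℂ)))‖ ≤
      2.3434 * Real.exp (r * (0.01 + 1 / 20)) :=
  v5_UD 0.7 0.8 3.3932 3.5813 0.01 0.4769 0.01 1.2217 2.3434 hβ hr hκ (by norm_num) hk1 hk2 hta htb (by norm_num) (by norm_num) (by norm_num) (by norm_num) (by norm_num) (by norm_num) (by norm_num) (by norm_num) (by norm_num) (by norm_num) (by norm_num)

private theorem B5Fo_Y69 {β r t κ h t' : ℝ} (hβ : 0 < β) (hκ : κ = β * r) (hN : β * 12.499 ≤ 1) (hk1 : 0.7 ≤ κ) (hk2 : κ ≤ 0.8)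
    (ht : t' = t + (((0 : ℤ) : ℝ) - 1) * h) (hD : DomR κ t') (hta : (-0.3767) ≤ t' + κ) (htb : t' + κ ≤ (-0.1886)) :
    0.8468 * Real.exp (r * sE κ t') ≤ ‖Xf β r h t 0‖ := by
  obtain ⟨⟨ya, yb⟩, ⟨xa, xb⟩, n1, Da, Db⟩ := B5Fo_B64 hD hk1 hk2 hta htb
  have J := B5Fo_T65 (x := sx κ t') (y := sy κ t') hβ hN (by linarith only [xa, xb, ya, yb]) (by linarith only [xa, xb, ya, yb]) (by linarith only [xa, xb, ya, yb]) (by linarith only [xa, xb, ya, yb])
  exact v5_Jlo hβ hκ (k := 0) ht hD 0.05 1.584 0.8468 (by norm_num) J Db (by norm_num)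

private theorem B5Fo_V70 {κ t : ℝ} (hD : DomR κ t) (hk1 : 0.7 ≤ κ) (hk2 : κ ≤ 0.8) (hta : (-0.3767) ≤ t + κ) (htb : t + κ ≤ (-0.1886)) :
    1.02668 + 0.2123 * (t + κ) ≤ sE κ t := by
  have hκ0 : 0 < κ := hD.1
  exact v5_V0 hD 0.7 0.8 (-0.3767) (-0.1886) 0.3768 0.5595 0.14174 0.12383 0.30231 0.53692 1.02668 0.2123 (by norm_num) hk1 hk2 (by norm_num) hta htb (by norm_num) (by norm_num) (by norm_num) ((cup1 0.8 hκ0.le hk2 (by norm_num)).trans (by norm_num))
      (by norm_num) (by norm_num) (by norm_num) (by norm_num) (by norm_num) (by norm_num) (by norm_num) (by norm_num) (by norm_num) (by norm_num) (by norm_num) (by norm_num) (by norm_num)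

private theorem B5Fo_K71 {β r t κ h : ℝ} (hβ : 0 < β) (hr : 10 ≤ r) (hκ : κ = β * r) (hk1 : 0.7 ≤ κ) (hk2 : κ ≤ 0.8)
    (hh : h = 2 * Real.pi / 5) (hh1 : 1.25663 ≤ h) (hh2 : h ≤ 1.25664) (hta : 0.88 ≤ t + κ) (htb : t + κ ≤ 1.068)
    (hY : 0.8468 * Real.exp (r * sE κ (t - h)) ≤ ‖Xf β r h t 0‖) (hV : 1.02668 + 0.2123 * (t - h + κ) ≤ sE κ (t - h)) :
    ‖Xf β r h t 2‖ ≤ 0.0103 * ‖Xf β r h t 0‖ := by
  rw [v5_X 2 1 (by push_cast; ring)]
  exact v5_cmp0 0.6267 0.001899 0.0103 hr (B5Fo_C66 (t := t + 1 * h) hβ hr hκ hk1 hk2 (by linarith only [hta, htb, hh1, hh2]) (by linarith only [hta, htb, hh1, hh2])) hY (by norm_num) (by norm_num) (by norm_num) (by linarith only [hV, hta, htb, hh1, hh2]) (ex_un 6 0.2669 (by norm_num) (by norm_num) (by norm_num) (by norm_num)) (by norm_num)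

private theorem B5Fo_K72 {β r t κ h : ℝ} (hβ : 0 < β) (hr : 10 ≤ r) (hκ : κ = β * r) (hk1 : 0.7 ≤ κ) (hk2 : κ ≤ 0.8)
    (hh : h = 2 * Real.pi / 5) (hh1 : 1.25663 ≤ h) (hh2 : h ≤ 1.25664) (hta : 0.88 ≤ t + κ) (htb : t + κ ≤ 1.068)
    (hY : 0.8468 * Real.exp (r * sE κ (t - h)) ≤ ‖Xf β r h t 0‖) (hV : 1.02668 + 0.2123 * (t - h + κ) ≤ sE κ (t - h)) :
    ‖Xf β r h t (-1)‖ ≤ 0.00205 * ‖Xf β r h t 0‖ := by
  rw [v5_X (-1) (-2) (by push_cast; ring)]
  exact v5_cmp 0.6709 0.001228 0.00175 0.8966 0.0001299 0.00029 0.00205 hr (B5Fo_C67 (t := t + (-2) * h) hβ hr hκ hk1 hk2 (by linarith only [hta, htb, hh1, hh2]) (by linarith only [hta, htb, hh1, hh2])) hY (by norm_num) (by norm_num) (by norm_num) (by norm_num) (by linarith only [hV, hta, htb, hh1, hh2]) (ex_un 6 0.7089 (by norm_num) (by norm_num) (by norm_num) (by norm_num)) (by norm_num) (by norm_num) (by linarith only [hV, hta, htb, hh1, hh2]) (ex_un 8 0.9659 (by norm_num)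 (by norm_num) (by norm_num) (by norm_num)) (by norm_num) (by norm_num)

private theorem B5Fo_K73 {β r t κ h : ℝ} (hβ : 0 < β) (hr : 10 ≤ r) (hκ : κ = β * r) (hk1 : 0.7 ≤ κ) (hk2 : κ ≤ 0.8)
    (hh : h = 2 * Real.pi / 5) (hh1 : 1.25663 ≤ h) (hh2 : h ≤ 1.25664) (hta : 0.88 ≤ t + κ) (htb : t + κ ≤ 1.068)
    (hY : 0.8468 * Real.exp (r * sE κ (t - h)) ≤ ‖Xf β r h t 0‖) (hV : 1.02668 + 0.2123 * (t - h + κ) ≤ sE κ (t - h)) :
    ‖Xf β r h t (-2)‖ ≤ 0.000395 * ‖Xf β r h t 0‖ := by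
  rw [v5_Xm2 hh]
  exact v5_cmp0 0.8867 0.0001427 0.000395 hr (B5Fo_C68 (t := t + 2 * h) hβ hr hκ hk1 hk2 (by linarith only [hta, htb, hh1, hh2]) (by linarith only [hta, htb, hh1, hh2])) hY (by norm_num) (by norm_num) (by norm_num) (by linarith only [hV, hta, htb, hh1, hh2]) (ex_un 8 0.8669 (by norm_num) (by norm_num) (by norm_num) (by norm_num)) (by norm_num)

private theorem B5Fo_G74 {κ : ℝ} (hk1 : 0.7 ≤ κ) (hk2 : κ ≤ 0.8) : gG κ 0.36 ≤ 1.12625 ∧ 0.56214 ≤ Real.exp (-(κ * 0.36)) ^ 2 := by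
  refine ⟨gG_le 0.36 0.7 0.8 1.12625 0.77725 0.74977 1.2866 1.33376 hk1 hk2 (by norm_num)
    (ex_um 0.252 (by norm_num) (by norm_num) (by norm_num) (by norm_num)) (ex_um 0.288 (by norm_num) (by norm_num) (by norm_num) (by norm_num))
    (ex_up 0.252 (by norm_num) (by norm_num) (by norm_num) (by norm_num)) (ex_up 0.288 (by norm_num) (by norm_num) (by norm_num) (by norm_num))
    (by norm_num) (by norm_num), ?_⟩
  exact v5_M 0.74976 (ex_lm 0.288 (by linarith) (by norm_num) (by norm_num) (by norm_num) (by norm_num)) (by norm_num) (by norm_num)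

private theorem B5Fo_C75 {β r t κ : ℝ} (hβ : 0 < β) (hr : 10 ≤ r) (hκ : κ = β * r) (hk1 : 0.7 ≤ κ) (hk2 : κ ≤ 0.8) (hta : 0.8799 ≤ t + κ)
    (htb : t + κ ≤ 1.0681) : ‖F (cexp (I * β)) (r * cexp (I * ((t + β / 2 : ℝ) : ℂ)))‖ ≤
      1.8113 * Real.exp (r * (1.12625 - 0.36 * (t + κ))) + 0.1814 * Real.exp (r * 0) :=
  v5_H 0.36 0.7 0.8 0.8799 1.0681 1.12625 1.8051 0.56214 0.1129 1.6505 1.2025 0.27276 0.06582 0.00000142 1.8113 0.1814 hβ hr hκ (by norm_num) hk1 hk2 hta htb (by norm_num) (B5Fo_G74 hk1 hk2).1 (B5Fo_G74 hk1 hk2).2 (by norm_num) (by norm_num) (by norm_num)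
    (by norm_num) (by norm_num) (by norm_num) (by norm_num) (by norm_num) (by norm_num) (by norm_num) (by norm_num) (ex_un 2 0.7275 (by norm_num) (by norm_num) (by norm_num) (by norm_num))
    (v5_hump 3.2692 12.499 3.5354 0.0000009316 0.00000142 hβ hr hκ hk1 hk2 (by norm_num) htb (by norm_num) (by norm_num) (by norm_num) (by norm_num) (by norm_num) (by norm_num) (by norm_num) (ex_un 13 0.9 (by norm_num) (by norm_num) (by norm_num) (by norm_num)) (by norm_num)) (by norm_num) (by norm_num)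

private theorem B5Fo_K76 {β r t κ h : ℝ} (hβ : 0 < β) (hr : 10 ≤ r) (hκ : κ = β * r) (hk1 : 0.7 ≤ κ) (hk2 : κ ≤ 0.8)
    (hh : h = 2 * Real.pi / 5) (hh1 : 1.25663 ≤ h) (hh2 : h ≤ 1.25664) (hta : 0.88 ≤ t + κ) (htb : t + κ ≤ 1.068)
    (hY : 0.8468 * Real.exp (r * sE κ (t - h)) ≤ ‖Xf β r h t 0‖) (hV : 1.02668 + 0.2123 * (t - h + κ) ≤ sE κ (t - h)) :
    ‖Xf β r h t 1‖ ≤ 0.544 * ‖Xf β r h t 0‖ := by
  rw [v5_X 1 0 (by push_cast; ring)]
  exact v5_cmp 0.1372 0.2538 0.543 0.9467 0.00007748 0.0000166 0.544 hr (B5Fo_C75 (t := t + 0 * h) hβ hr hκ hk1 hk2 (by linarith only [hta, htb, hh1, hh2]) (by linarith only [hta, htb, hh1, hh2])) hY (by norm_num) (by norm_num) (by norm_num) (by norm_num) (by linarith only [hV, hta, htb, hh1, hh2]) (ex_un 1 0.3719 (by norm_num) (by norm_num) (by norm_num) (by norm_num)) (by norm_num) (by norm_num) (by linarith only [hV, hta, htb, hh1, hh2]) (ex_un 9 0.4669 (by norm_num) (by norm_num)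 (by norm_num) (by norm_num)) (by norm_num) (by norm_num)

private theorem B5Fo_O77 {β r t κ h : ℝ} (hβ : 0 < β) (hr : 10 ≤ r) (hκ : κ = β * r) (hk1 : 0.7 ≤ κ) (hk2 : κ ≤ 0.8)
    (hh : h = 2 * Real.pi / 5) (hta : 0.88 ≤ t + κ) (htb : t + κ ≤ 1.068) :
    ‖Xf β r h t (-2)‖ + ‖Xf β r h t (-1)‖ + ‖Xf β r h t 2‖ < |‖Xf β r h t 1‖ - ‖Xf β r h t 0‖| := by
  obtain ⟨hh1, hh2⟩ := v5_h hh
  have hκ0 : 0 < κ := by linarith only [hk1]
  have hN : β * 12.499 ≤ 1 := v5_hN 0.8 12.499 hβ hr hκ hk2 (by norm_num) (by norm_num)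
  have hD1 : DomR κ t := v5_dom hκ0 (by linarith only [hta, htb, hk1, hk2, hh1, hh2]) (Or.inr (by linarith only [hta, htb, hk1, hk2, hh1, hh2]))
  have hD0 : DomR κ (t - h) := v5_dom hκ0 (by linarith only [hta, htb, hk1, hk2, hh1, hh2]) (Or.inr (by linarith only [hta, htb, hk1, hk2, hh1, hh2]))
  have h0a : (-0.3767) ≤ t - h + κ := by linarith only [hta, htb, hh1, hh2]
  have h0b : t - h + κ ≤ (-0.1886) := by linarith only [hta, htb, hh1, hh2]
  have e0 : t - h = t + (((0 : ℤ) : ℝ) - 1) * h := by push_cast; ring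
  have hY := B5Fo_Y69 (h := h) hβ hκ hN hk1 hk2 e0 hD0 h0a h0b
  have hV := B5Fo_V70 hD0 hk1 hk2 h0a h0b
  have cp2 := B5Fo_K71 hβ hr hκ hk1 hk2 hh hh1 hh2 hta htb hY hV
  have cm1 := B5Fo_K72 hβ hr hκ hk1 hk2 hh hh1 hh2 hta htb hY hV
  have cm2 := B5Fo_K73 hβ hr hκ hk1 hk2 hh hh1 hh2 hta htb hY hV
  have cn1 := B5Fo_K76 hβ hr hκ hk1 hk2 hh hh1 hh2 hta htb hY hV
  have hp : 0 < ‖Xf β r h t 0‖ := lt_of_lt_of_le (by positivity) hY
  exact v5_out0 _ _ _ _ cm2 cm1 cp2 cn1 hp (by norm_num)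

private theorem B5Fo_B78 {κ t : ℝ} (h : DomR κ t) (hk1 : 0.7 ≤ κ) (hk2 : κ ≤ 0.8) (ht1 : (-0.1887) ≤ t + κ) (ht2 : t + κ ≤ 0.0629) :
    ((-0.099) ≤ sy κ t ∧ sy κ t ≤ 0.031) ∧ (0.6713 ≤ sx κ t ∧ sx κ t ≤ 0.8833) ∧ κ * Real.exp (-sy κ t) ≤ 0.8833 ∧ 1.3992 ≤ sD κ t ∧ sD κ t ≤ 1.6636 := by
  have hy1 : -0.099 ≤ sy κ t := syL_ge h 0.7 0.8 0.1887 0.099 0.90574 0.90575 0.108 0.11208 0.1281 hk1 hk2 (by linarith) (by norm_num) (by norm_num) (by norm_num)
    (expm_ge (by norm_num) (by norm_num) (by norm_num) (by norm_num)) (expm_le (by norm_num) (by norm_num) (by norm_num)) (by norm_num)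
    (by norm_num) (by norm_num) (by norm_num) (by norm_num) (by norm_num) (by norm_num)
  have hy2 : sy κ t ≤ 0.031 := syR_le h 0.7 0.8 0.0629 0.031 1.03148 0.0385 0.03996 0.04569 hk1 hk2 (by linarith) (by norm_num) (by norm_num)
    (expn_ge (by norm_num) (by norm_num)) (by norm_num) (by norm_num) (Or.inr ((mul_le_mul_of_nonneg_left (expn_le (E := 1.03149) (by norm_num) (by norm_num) (by norm_num)) (by norm_num)).trans (by norm_num))) (by norm_num) (by norm_num) (by norm_num)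
  have hy1' : (-0.099) ≤ sy κ t := by linarith
  have hy2' : sy κ t ≤ 0.031 := by linarith
  have hx1 : 0.6713 ≤ sx κ t := sx_lo h 0.7 0.031 0.0991 0.96947 0.6713 hk1 (by norm_num) hy2' (abs_le.2 ⟨by linarith, by linarith⟩) (ex_lm 0.031 (by norm_num) (by norm_num) (by norm_num) (by norm_num) (by norm_num)) (by norm_num) (by norm_num)
  have hx2 : sx κ t ≤ 0.8833 := sx_hi h 0.8 (-0.099) 0 1.10407 0.8833 hk2 hy1' (by norm_num) (abs_nonneg _) (ex_up 0.099 (by norm_num) (by norm_num) (by norm_num) (by norm_num)) (by norm_num) (by norm_num)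
  refine ⟨⟨hy1', hy2'⟩, ⟨hx1, hx2⟩, v5_n h 0.8 (-0.099) 1.10407 0.8833 hk2 hy1' (ex_up 0.099 (by norm_num) (by norm_num) (by norm_num) (by norm_num)) (by norm_num), ?_, ?_⟩
  · exact v5_Dlo h 0.7 (-0.099) 0.031 (-0.099) 1.10406 1.3992 (by norm_num) hk1 hy1' hy2' (ex_lp 0.099 (by norm_num) (by norm_num) (by norm_num)) (by norm_num) (by norm_num) (by norm_num) (by norm_num)
  · exact v5_Dup h 0.8 (-0.099) 0.031 1.10407 0.96948 1.6636 hk2 hy1' hy2' (ex_up 0.099 (by norm_num) (by norm_num) (by norm_num) (by norm_num)) (ex_um 0.031 (by norm_num) (by norm_num) (by norm_num) (by norm_num)) (by norm_num) (by norm_num) (by norm_num)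

private theorem B5Fo_T79_0_0 {β x y : ℝ} (hβ : 0 < β) (hN : β * 12.499 ≤ 1) (hx1 : 0.6712 ≤ x) (hx2 : x ≤ 0.76)
    (hy1 : -0.0991 ≤ y) (hy2 : y ≤ 0.0311) : ‖HH β (x + y * I) - 1‖ ≤ 0.035 := by
  refine le_epsJ (C := 0.4373) (N0 := 12.499) (J_boxp 0.6712 0.76 0.0991 0.0311 0.0311 1.1123 0.7665 1.281 0.9649 0.4516 3.5354 12.499 0.6892 2.494 1.362 1.0363 0.5561 0.4283 1.0816 3.3519 0.6237 1.4261 2.5103 3.8243 0.0009615 0.004735 0.000001347 0.0000003101 0.0004124 0.0000003101 0.0000003101 0.0000003101 0.4373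
    hβ hN hx1 hx2 hy1 hy2 (by norm_num) (by norm_num) (by linarith) (by norm_num) (by norm_num) (by norm_num) (by norm_num) (by norm_num) (by norm_num) (by norm_num) (by norm_num) (by norm_num) (by norm_num) (by norm_num) (by norm_num) (by norm_num) (by norm_num) (by norm_num) (by norm_num) (by norm_num) (by norm_num) (by norm_num) (by norm_num) (by norm_num)
    (cube_sqrt_geJ (s := 0.8776) (by norm_num) (by norm_num) (by norm_num) (by norm_num))
    (cube_sqrt_geJ (s := 0.9568) (by norm_num) (by norm_num) (by norm_num) (by norm_num))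
    (by norm_num) (by norm_num) (by norm_num) (by norm_num) (by norm_num) (by norm_num) (by norm_num) (by norm_num) (by norm_num) (by norm_num) (by norm_num) (by norm_num) (by norm_num) (by norm_num) (by norm_num) (by norm_num) (by norm_num) (by norm_num)
    (exp_neg_leJ (r := 0.95) 6 (by norm_num) (by norm_num) (by norm_num) (by norm_num))
    (exp_neg_leJ (r := 0.353) 5 (by norm_num) (by norm_num) (by norm_num) (by norm_num))
    (exp_neg_leJ (r := 0.518) 13 (by norm_num) (by norm_num) (by norm_num) (by norm_num))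
    (exp_neg_leJ (r := 0.99) 14 (by norm_num) (by norm_num) (by norm_num) (by norm_num))
    (exp_neg_leJ (r := 0.795) 7 (by norm_num) (by norm_num) (by norm_num) (by norm_num))
    (exp_neg_leJ (r := 0.99) 14 (by norm_num) (by norm_num) (by norm_num) (by norm_num))
    (exp_neg_leJ (r := 0.99) 14 (by norm_num) (by norm_num) (by norm_num) (by norm_num))
    (exp_neg_leJ (r := 0.99) 14 (by norm_num) (by norm_num) (by norm_num) (by norm_num))
    (by norm_num)) (by norm_num) hN hβ.le (by norm_num)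

private theorem B5Fo_T79_0_1 {β x y : ℝ} (hβ : 0 < β) (hN : β * 12.499 ≤ 1) (hx1 : 0.76 ≤ x) (hx2 : x ≤ 0.842)
    (hy1 : -0.0991 ≤ y) (hy2 : y ≤ 0.0311) : ‖HH β (x + y * I) - 1‖ ≤ 0.035 := by
  refine le_epsJ (C := 0.4365) (N0 := 12.499) (J_boxp 0.76 0.842 0.0991 0.0311 0.0311 1.1748 0.8479 1.3313 0.9062 0.4604 3.5354 12.499 0.7218 2.621 1.383 1.0047 0.5873 0.446 1.112 3.3046 0.6668 1.5491 2.6879 3.7807 0.0006491 0.003797 0.000000923 0.0000003101 0.0002403 0.0000003101 0.0000003101 0.0000003101 0.4365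
    hβ hN hx1 hx2 hy1 hy2 (by norm_num) (by norm_num) (by linarith) (by norm_num) (by norm_num) (by norm_num) (by norm_num) (by norm_num) (by norm_num) (by norm_num) (by norm_num) (by norm_num) (by norm_num) (by norm_num) (by norm_num) (by norm_num) (by norm_num) (by norm_num) (by norm_num) (by norm_num) (by norm_num) (by norm_num) (by norm_num) (by norm_num)
    (cube_sqrt_geJ (s := 0.8714) (by norm_num) (by norm_num) (by norm_num) (by norm_num))
    (cube_sqrt_geJ (s := 0.9547) (by norm_num) (by norm_num) (by norm_num) (by norm_num))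
    (by norm_num) (by norm_num) (by norm_num) (by norm_num) (by norm_num) (by norm_num) (by norm_num) (by norm_num) (by norm_num) (by norm_num) (by norm_num) (by norm_num) (by norm_num) (by norm_num) (by norm_num) (by norm_num) (by norm_num) (by norm_num)
    (exp_neg_leJ (r := 0.34) 7 (by norm_num) (by norm_num) (by norm_num) (by norm_num))
    (exp_neg_leJ (r := 0.574) 5 (by norm_num) (by norm_num) (by norm_num) (by norm_num))
    (exp_neg_leJ (r := 0.898) 13 (by norm_num) (by norm_num) (by norm_num) (by norm_num))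
    (exp_neg_leJ (r := 0.99) 14 (by norm_num) (by norm_num) (by norm_num) (by norm_num))
    (exp_neg_leJ (r := 0.334) 8 (by norm_num) (by norm_num) (by norm_num) (by norm_num))
    (exp_neg_leJ (r := 0.99) 14 (by norm_num) (by norm_num) (by norm_num) (by norm_num))
    (exp_neg_leJ (r := 0.99) 14 (by norm_num) (by norm_num) (by norm_num) (by norm_num))
    (exp_neg_leJ (r := 0.99) 14 (by norm_num) (by norm_num) (by norm_num) (by norm_num))
    (by norm_num)) (by norm_num) hN hβ.le (by norm_num)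

private theorem B5Fo_T79_0_2 {β x y : ℝ} (hβ : 0 < β) (hN : β * 12.499 ≤ 1) (hx1 : 0.842 ≤ x) (hx2 : x ≤ 0.8834)
    (hy1 : -0.0991 ≤ y) (hy2 : y ≤ 0.0311) : ‖HH β (x + y * I) - 1‖ ≤ 0.035 := by
  refine le_epsJ (C := 0.3988) (N0 := 12.499) (J_boxp 0.842 0.8834 0.0991 0.0311 0.0311 1.2325 0.889 1.3578 0.8517 0.4649 3.5354 12.499 0.7213 2.619 1.383 0.9888 0.6162 0.468 1.14 3.2808 0.7066 1.6626 2.8519 3.8329 0.0004528 0.002889 0.000000649 0.0000003101 0.0001464 0.0000003101 0.0000003101 0.0000003101 0.3988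
    hβ hN hx1 hx2 hy1 hy2 (by norm_num) (by norm_num) (by linarith) (by norm_num) (by norm_num) (by norm_num) (by norm_num) (by norm_num) (by norm_num) (by norm_num) (by norm_num) (by norm_num) (by norm_num) (by norm_num) (by norm_num) (by norm_num) (by norm_num) (by norm_num) (by norm_num) (by norm_num) (by norm_num) (by norm_num) (by norm_num) (by norm_num)
    (cube_sqrt_geJ (s := 0.8715) (by norm_num) (by norm_num) (by norm_num) (by norm_num))
    (cube_sqrt_geJ (s := 0.9548) (by norm_num) (by norm_num) (by norm_num) (by norm_num))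
    (by norm_num) (by norm_num) (by norm_num) (by norm_num) (by norm_num) (by norm_num) (by norm_num) (by norm_num) (by norm_num) (by norm_num) (by norm_num) (by norm_num) (by norm_num) (by norm_num) (by norm_num) (by norm_num) (by norm_num) (by norm_num)
    (exp_neg_leJ (r := 0.701) 7 (by norm_num) (by norm_num) (by norm_num) (by norm_num))
    (exp_neg_leJ (r := 0.849) 5 (by norm_num) (by norm_num) (by norm_num) (by norm_num))
    (exp_neg_leJ (r := 0.248) 14 (by norm_num) (by norm_num) (by norm_num) (by norm_num))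
    (exp_neg_leJ (r := 0.99) 14 (by norm_num) (by norm_num) (by norm_num) (by norm_num))
    (exp_neg_leJ (r := 0.831) 8 (by norm_num) (by norm_num) (by norm_num) (by norm_num))
    (exp_neg_leJ (r := 0.99) 14 (by norm_num) (by norm_num) (by norm_num) (by norm_num))
    (exp_neg_leJ (r := 0.99) 14 (by norm_num) (by norm_num) (by norm_num) (by norm_num))
    (exp_neg_leJ (r := 0.99) 14 (by norm_num) (by norm_num) (by norm_num) (by norm_num))
    (by norm_num)) (by norm_num) hN hβ.le (by norm_num)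

private theorem B5Fo_T79 {β x y : ℝ} (hβ : 0 < β) (hN : β * 12.499 ≤ 1) (hx1 : 0.6712 ≤ x) (hx2 : x ≤ 0.8834)
    (hy1 : (-0.0991) ≤ y) (hy2 : y ≤ 0.0311) : ‖HH β (x + y * I) - 1‖ ≤ 0.035 := by
  rcases le_total x 0.76 with hxx | hxx
  · exact B5Fo_T79_0_0 hβ hN (by linarith) (by linarith) (by linarith) (by linarith)
  rcases le_total x 0.842 with hxx | hxx
  · exact B5Fo_T79_0_1 hβ hN (by linarith) (by linarith) (by linarith) (by linarith)
  exact B5Fo_T79_0_2 hβ hN (by linarith) (by linarith) (by linarith) (by linarith)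

private theorem B5Fo_C80 {β r t κ : ℝ} (hβ : 0 < β) (hr : 10 ≤ r) (hκ : κ = β * r) (hk1 : 0.7 ≤ κ) (hk2 : κ ≤ 0.8) (hta : 2.3246 ≤ t + κ)
    (htb : t + κ ≤ 2.5762) : ‖F (cexp (I * β)) (r * cexp (I * ((t + β / 2 : ℝ) : ℂ)))‖ ≤
      4.0164 * Real.exp (r * (0.09 + 1 / 20)) :=
  v5_UD 0.7 0.8 2.3246 2.5762 0.09 0.4769 0.09 2.0939 4.0164 hβ hr hκ (by norm_num) hk1 hk2 hta htb (by norm_num) (by norm_num) (by norm_num) (by norm_num) (by norm_num) (by norm_num) (by norm_num) (by norm_num) (by norm_num) (by norm_num) (by norm_num)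

private theorem B5Fo_C81 {β r t κ : ℝ} (hβ : 0 < β) (hr : 10 ≤ r) (hκ : κ = β * r) (hk1 : 0.7 ≤ κ) (hk2 : κ ≤ 0.8) (hta : (-1.4453) ≤ t + κ)
    (htb : t + κ ≤ (-1.1937)) : ‖F (cexp (I * β)) (r * cexp (I * ((t + β / 2 : ℝ) : ℂ)))‖ ≤
      1.2023 * Real.exp (r * (1.34181 - (-0.71) * (t + κ))) + 1.8803 * Real.exp (r * 0.0501) :=
  v5_HU (-0.71) 0.7 0.8 (-1.4453) (-1.1937) 1.34181 1.2023 2.70201 0.1129 0.9147 2.4666 0 0.0501 0.00000142 1.8803 hβ hr hκ (by norm_num) hk1 hk2 hta htb (by norm_num) (by norm_num) (B5Fo_G13 hk1 hk2).1 (B5Fo_G13 hk1 hk2).2 (by norm_num) (by norm_num) (by norm_num)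
    (by norm_num) (by norm_num) (by norm_num) (by norm_num) (by norm_num) (by norm_num) (by norm_num)
    (by norm_num) (by norm_num) (by norm_num) (v5_hump 5.531 12.499 3.5354 0.0000009316 0.00000142 hβ hr hκ hk1 hk2 (by norm_num) htb (by norm_num) (by norm_num) (by norm_num) (by norm_num) (by norm_num) (by norm_num) (by norm_num) (ex_un 13 0.9 (by norm_num) (by norm_num) (by norm_num) (by norm_num)) (by norm_num)) (by norm_num)

private theorem B5Fo_C82 {β r t κ : ℝ} (hβ : 0 < β) (hr : 10 ≤ r) (hκ : κ = β * r) (hk1 : 0.7 ≤ κ) (hk2 : κ ≤ 0.8) (hta : 3.5812 ≤ t + κ)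
    (htb : t + κ ≤ 3.8328) : ‖F (cexp (I * β)) (r * cexp (I * ((t + β / 2 : ℝ) : ℂ)))‖ ≤
      2.3325 * Real.exp (r * (0.01 + 1 / 20)) :=
  v5_UD 0.7 0.8 3.5812 3.8328 0.01 0.4769 0.01 1.216 2.3325 hβ hr hκ (by norm_num) hk1 hk2 hta htb (by norm_num) (by norm_num) (by norm_num) (by norm_num) (by norm_num) (by norm_num) (by norm_num) (by norm_num) (by norm_num) (by norm_num) (by norm_num)

private theorem B5Fo_Y83 {β r t κ h t' : ℝ} (hβ : 0 < β) (hκ : κ = β * r) (hN : β * 12.499 ≤ 1) (hk1 : 0.7 ≤ κ) (hk2 : κ ≤ 0.8)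
    (ht : t' = t + (((0 : ℤ) : ℝ) - 1) * h) (hD : DomR κ t') (hta : (-0.1887) ≤ t' + κ) (htb : t' + κ ≤ 0.0629) :
    0.8496 * Real.exp (r * sE κ t') ≤ ‖Xf β r h t 0‖ := by
  obtain ⟨⟨ya, yb⟩, ⟨xa, xb⟩, n1, Da, Db⟩ := B5Fo_B78 hD hk1 hk2 hta htb
  have J := B5Fo_T79 (x := sx κ t') (y := sy κ t') hβ hN (by linarith only [xa, xb, ya, yb]) (by linarith only [xa, xb, ya, yb]) (by linarith only [xa, xb, ya, yb]) (by linarith only [xa, xb, ya, yb])
  exact v5_Jlo hβ hκ (k := 0) ht hD 0.035 1.6636 0.8496 (by norm_num) J Db (by norm_num)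

private theorem B5Fo_V84 {κ t : ℝ} (hD : DomR κ t) (hk1 : 0.7 ≤ κ) (hk2 : κ ≤ 0.8) (hta : (-0.1887) ≤ t + κ) (htb : t + κ ≤ 0.0629) :
    0.99579 + 0.0446 * (t + κ) ≤ sE κ t := by
  have hκ0 : 0 < κ := hD.1
  exact v5_V0 hD 0.7 0.8 (-0.1887) 0.0629 0.1888 0.5282 0.14174 0.12383 0.30231 0.53692 0.99579 0.0446 (by norm_num) hk1 hk2 (by norm_num) hta htb (by norm_num) (by norm_num) (by norm_num) ((cup1 0.8 hκ0.le hk2 (by norm_num)).trans (by norm_num))
      (by norm_num) (by norm_num) (by norm_num) (by norm_num) (by norm_num) (by norm_num) (by norm_num) (by norm_num) (by norm_num) (by norm_num) (by norm_num) (by norm_num) (by norm_num)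

private theorem B5Fo_K85 {β r t κ h : ℝ} (hβ : 0 < β) (hr : 10 ≤ r) (hκ : κ = β * r) (hk1 : 0.7 ≤ κ) (hk2 : κ ≤ 0.8)
    (hh : h = 2 * Real.pi / 5) (hh1 : 1.25663 ≤ h) (hh2 : h ≤ 1.25664) (hta : 1.068 ≤ t + κ) (htb : t + κ ≤ 1.3195)
    (hY : 0.8496 * Real.exp (r * sE κ (t - h)) ≤ ‖Xf β r h t 0‖) (hV : 0.99579 + 0.0446 * (t - h + κ) ≤ sE κ (t - h)) :
    ‖Xf β r h t 2‖ ≤ 0.00099 * ‖Xf β r h t 0‖ := by
  rw [v5_X 2 1 (by push_cast; ring)]
  exact v5_cmp0 0.8473 0.0002094 0.00099 hr (B5Fo_C80 (t := t + 1 * h) hβ hr hκ hk1 hk2 (by linarith only [hta, htb, hh1, hh2]) (by linarith only [hta, htb, hh1, hh2])) hY (by norm_num) (by norm_num) (by norm_num) (by linarith only [hV, hta, htb, hh1, hh2]) (ex_un 8 0.4729 (by norm_num) (by norm_num) (by norm_num) (by norm_num)) (by norm_num)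

private theorem B5Fo_K86 {β r t κ h : ℝ} (hβ : 0 < β) (hr : 10 ≤ r) (hκ : κ = β * r) (hk1 : 0.7 ≤ κ) (hk2 : κ ≤ 0.8)
    (hh : h = 2 * Real.pi / 5) (hh1 : 1.25663 ≤ h) (hh2 : h ≤ 1.25664) (hta : 1.068 ≤ t + κ) (htb : t + κ ≤ 1.3195)
    (hY : 0.8496 * Real.exp (r * sE κ (t - h)) ≤ ‖Xf β r h t 0‖) (hV : 0.99579 + 0.0446 * (t - h + κ) ≤ sE κ (t - h)) :
    ‖Xf β r h t (-1)‖ ≤ 0.00933 * ‖Xf β r h t 0‖ := by
  rw [v5_X (-1) (-2) (by push_cast; ring)]
  exact v5_cmp 0.5043 0.006456 0.00914 0.9372 0.00008514 0.000189 0.00933 hr (B5Fo_C81 (t := t + (-2) * h) hβ hr hκ hk1 hk2 (by linarith only [hta, htb, hh1, hh2]) (by linarith only [hta, htb, hh1, hh2])) hY (by norm_num) (by norm_num) (by norm_num) (by norm_num) (by linarith only [hV, hta, htb, hh1, hh2]) (ex_un 5 0.0429 (by norm_num) (by norm_num) (by norm_num) (by norm_num)) (by norm_num) (by norm_num) (by linarith only [hV, hta, htb, hh1, hh2]) (ex_un 9 0.3719 (by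 norm_num) (by norm_num) (by norm_num) (by norm_num)) (by norm_num) (by norm_num)

private theorem B5Fo_K87 {β r t κ h : ℝ} (hβ : 0 < β) (hr : 10 ≤ r) (hκ : κ = β * r) (hk1 : 0.7 ≤ κ) (hk2 : κ ≤ 0.8)
    (hh : h = 2 * Real.pi / 5) (hh1 : 1.25663 ≤ h) (hh2 : h ≤ 1.25664) (hta : 1.068 ≤ t + κ) (htb : t + κ ≤ 1.3195)
    (hY : 0.8496 * Real.exp (r * sE κ (t - h)) ≤ ‖Xf β r h t 0‖) (hV : 0.99579 + 0.0446 * (t - h + κ) ≤ sE κ (t - h)) :
    ‖Xf β r h t (-2)‖ ≤ 0.000258 * ‖Xf β r h t 0‖ := by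
  rw [v5_Xm2 hh]
  exact v5_cmp0 0.9273 0.00009396 0.000258 hr (B5Fo_C82 (t := t + 2 * h) hβ hr hκ hk1 hk2 (by linarith only [hta, htb, hh1, hh2]) (by linarith only [hta, htb, hh1, hh2])) hY (by norm_num) (by norm_num) (by norm_num) (by linarith only [hV, hta, htb, hh1, hh2]) (ex_un 9 0.2729 (by norm_num) (by norm_num) (by norm_num) (by norm_num)) (by norm_num)

private theorem B5Fo_G88 {κ : ℝ} (hk1 : 0.7 ≤ κ) (hk2 : κ ≤ 0.8) : gG κ 0.4 ≤ 1.15996 ∧ 0.52727 ≤ Real.exp (-(κ * 0.4)) ^ 2 := by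
  refine ⟨gG_le 0.4 0.7 0.8 1.15996 0.75579 0.72615 1.32313 1.37713 hk1 hk2 (by norm_num)
    (ex_um 0.28 (by norm_num) (by norm_num) (by norm_num) (by norm_num)) (ex_um 0.32 (by norm_num) (by norm_num) (by norm_num) (by norm_num))
    (ex_up 0.28 (by norm_num) (by norm_num) (by norm_num) (by norm_num)) (ex_up 0.32 (by norm_num) (by norm_num) (by norm_num) (by norm_num))
    (by norm_num) (by norm_num), ?_⟩
  exact v5_M 0.72614 (ex_lm 0.32 (by linarith) (by norm_num) (by norm_num) (by norm_num) (by norm_num)) (by norm_num) (by norm_num)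

private theorem B5Fo_C89 {β r t κ : ℝ} (hβ : 0 < β) (hr : 10 ≤ r) (hκ : κ = β * r) (hk1 : 0.7 ≤ κ) (hk2 : κ ≤ 0.8) (hta : 1.0679 ≤ t + κ)
    (htb : t + κ ≤ 1.3196) : ‖F (cexp (I * β)) (r * cexp (I * ((t + β / 2 : ℝ) : ℂ)))‖ ≤
      1.8949 * Real.exp (r * (1.15996 - 0.4 * (t + κ))) + 0.1744 * Real.exp (r * 0) :=
  v5_H 0.4 0.7 0.8 1.0679 1.3196 1.15996 1.8805 0.52727 0.1129 1.8385 0.951 0.21163 0.1205 0.00000142 1.8949 0.1744 hβ hr hκ (by norm_num) hk1 hk2 hta htb (by norm_num) (B5Fo_G88 hk1 hk2).1 (B5Fo_G88 hk1 hk2).2 (by norm_num) (by norm_num) (by norm_num)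
    (by norm_num) (by norm_num) (by norm_num) (by norm_num) (by norm_num) (by norm_num) (by norm_num) (by norm_num) (ex_un 2 0.1162 (by norm_num) (by norm_num) (by norm_num) (by norm_num))
    (v5_hump 3.0177 12.499 3.5354 0.0000009316 0.00000142 hβ hr hκ hk1 hk2 (by norm_num) htb (by norm_num) (by norm_num) (by norm_num) (by norm_num) (by norm_num) (by norm_num) (by norm_num) (ex_un 13 0.9 (by norm_num) (by norm_num) (by norm_num) (by norm_num)) (by norm_num)) (by norm_num) (by norm_num)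

private theorem B5Fo_K90 {β r t κ h : ℝ} (hβ : 0 < β) (hr : 10 ≤ r) (hκ : κ = β * r) (hk1 : 0.7 ≤ κ) (hk2 : κ ≤ 0.8)
    (hh : h = 2 * Real.pi / 5) (hh1 : 1.25663 ≤ h) (hh2 : h ≤ 1.25664) (hta : 1.068 ≤ t + κ) (htb : t + κ ≤ 1.3195)
    (hY : 0.8496 * Real.exp (r * sE κ (t - h)) ≤ ‖Xf β r h t 0‖) (hV : 0.99579 + 0.0446 * (t - h + κ) ≤ sE κ (t - h)) :
    ‖Xf β r h t 1‖ ≤ 0.177 * ‖Xf β r h t 0‖ := by
  rw [v5_X 1 0 (by push_cast; ring)]
  exact v5_cmp 0.2546 0.0786 0.176 0.9873 0.00005219 0.0000108 0.177 hr (B5Fo_C89 (t := t + 0 * h) hβ hr hκ hk1 hk2 (by linarith only [hta, htb, hh1, hh2]) (by linarith only [hta, htb, hh1, hh2])) hY (by norm_num) (by norm_num) (by norm_num) (by norm_num) (by linarith only [hV, hta, htb, hh1, hh2]) (ex_un 2 0.5459 (by norm_num) (by norm_num) (by norm_num) (by norm_num)) (by norm_num) (by norm_num) (by linarith only [hV, hta, htb, hh1, hh2]) (ex_un 9 0.8729 (by norm_num) (by norm_num)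 (by norm_num) (by norm_num)) (by norm_num) (by norm_num)

private theorem B5Fo_O91 {β r t κ h : ℝ} (hβ : 0 < β) (hr : 10 ≤ r) (hκ : κ = β * r) (hk1 : 0.7 ≤ κ) (hk2 : κ ≤ 0.8)
    (hh : h = 2 * Real.pi / 5) (hta : 1.068 ≤ t + κ) (htb : t + κ ≤ 1.3195) :
    ‖Xf β r h t (-2)‖ + ‖Xf β r h t (-1)‖ + ‖Xf β r h t 2‖ < |‖Xf β r h t 1‖ - ‖Xf β r h t 0‖| := by
  obtain ⟨hh1, hh2⟩ := v5_h hh
  have hκ0 : 0 < κ := by linarith only [hk1]
  have hN : β * 12.499 ≤ 1 := v5_hN 0.8 12.499 hβ hr hκ hk2 (by norm_num) (by norm_num)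
  have hD1 : DomR κ t := v5_dom hκ0 (by linarith only [hta, htb, hk1, hk2, hh1, hh2]) (Or.inr (by linarith only [hta, htb, hk1, hk2, hh1, hh2]))
  have hD0 : DomR κ (t - h) := v5_dom hκ0 (by linarith only [hta, htb, hk1, hk2, hh1, hh2]) (Or.inr (by linarith only [hta, htb, hk1, hk2, hh1, hh2]))
  have h0a : (-0.1887) ≤ t - h + κ := by linarith only [hta, htb, hh1, hh2]
  have h0b : t - h + κ ≤ 0.0629 := by linarith only [hta, htb, hh1, hh2]
  have e0 : t - h = t + (((0 : ℤ) : ℝ) - 1) * h := by push_cast; ring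
  have hY := B5Fo_Y83 (h := h) hβ hκ hN hk1 hk2 e0 hD0 h0a h0b
  have hV := B5Fo_V84 hD0 hk1 hk2 h0a h0b
  have cp2 := B5Fo_K85 hβ hr hκ hk1 hk2 hh hh1 hh2 hta htb hY hV
  have cm1 := B5Fo_K86 hβ hr hκ hk1 hk2 hh hh1 hh2 hta htb hY hV
  have cm2 := B5Fo_K87 hβ hr hκ hk1 hk2 hh hh1 hh2 hta htb hY hV
  have cn1 := B5Fo_K90 hβ hr hκ hk1 hk2 hh hh1 hh2 hta htb hY hV
  have hp : 0 < ‖Xf β r h t 0‖ := lt_of_lt_of_le (by positivity) hY
  exact v5_out0 _ _ _ _ cm2 cm1 cp2 cn1 hp (by norm_num)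

theorem R1_b5_F {p : ℤ} {β r : ℝ} (hp : IsCoprime (5 : ℤ) p) (hr : 10 ≤ r) (hβ : 0 < β) (hk1 : 0.7 ≤ β * r)
    (hk2 : β * r ≤ 0.8) : Circ (2 * Real.pi * p / 5 + β) r := by
  obtain ⟨h, hh⟩ : ∃ h : ℝ, h = 2 * Real.pi / 5 := ⟨_, rfl⟩
  obtain ⟨hh1, hh2⟩ := v5_h hh
  obtain ⟨κ, hκ⟩ : ∃ κ, κ = β * r := ⟨_, rfl⟩
  rw [← hκ] at hk1 hk2
  refine v5_circ (κ := κ) hp hr hh 0.45 0.61 1.02 0.0169 0.0129 0.00191 0.00202 0.0314 0.00921 0.0128 0.484 ?_ ?_ (by norm_num) (by norm_num) (by norm_num) (by norm_num) (by norm_num) (by norm_num) (by norm_num) (by norm_num) (by norm_num) (by norm_num)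
  · intro t g1 g2
    rcases le_total (t + κ) 0.666 with g3 | g3
    · exact B5Fw_W22 hβ hr hκ hk1 hk2 hh (by linarith) (by linarith)
    exact B5Fw_W43 hβ hr hκ hk1 hk2 hh (by linarith) (by linarith)
  · intro t g1 g2 g3
    rcases g3 with g3 | g3
    · rcases le_total (t + κ) 0.251 with g4 | g4
      · exact B5Fo_O16 hβ hr hκ hk1 hk2 hh (by linarith) (by linarith)
      rcases le_total (t + κ) 0.415 with g4 | g4
      · exact B5Fo_O31 hβ hr hκ hk1 hk2 hh (by linarith) (by linarith)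
      exact B5Fo_O46 hβ hr hκ hk1 hk2 hh (by linarith) (by linarith)
    · rcases le_total (t + κ) 0.88 with g4 | g4
      · exact B5Fo_O63 hβ hr hκ hk1 hk2 hh (by linarith) (by linarith)
      rcases le_total (t + κ) 1.068 with g4 | g4
      · exact B5Fo_O77 hβ hr hκ hk1 hk2 hh (by linarith) (by linarith)
      exact B5Fo_O91 hβ hr hκ hk1 hk2 hh (by linarith) (by linarith)

end Sok
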