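import Pool.Agent.Lib.MP_816dec_an.R1b5WG

/-!
MP_816dec_an (A3, row R1), SINGLE CASE `b = 5`, `r ≥ 10`, `0.8 ≤ κ ≤ 0.9`: outside the window, assembly (generated file).
-/

set_option autoImplicit false
set_option linter.unusedVariables false

open Complex Set Filter Topology Metric

namespace Sok

private theorem B5Go_B1 {κ t : ℝ} (h : DomR κ t) (hk1 : 0.8 ≤ κ) (hk2 : κ ≤ 0.9) (ht1 : 0.0628 ≤ t + κ) (ht2 : t + κ ≤ 0.251) :
    (0.029 ≤ sy κ t ∧ sy κ t ≤ 0.116) ∧ (0.7028 ≤ sx κ t ∧ sx κ t ≤ 0.8738) ∧ κ * Real.exp (-sy κ t) ≤ 0.8743 ∧ 1.6619 ≤ sD κ t ∧ sD κ t ≤ 1.8743 := by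
  have hy1 : 0.029 ≤ sy κ t := syR_ge h 0.8 0.9 0.0628 0.029 1.02942 1.02943 0.03317 0.03732 hk1 hk2 (by linarith) (by norm_num) (by norm_num)
    (expn_ge (by norm_num) (by norm_num)) (expn_le (by norm_num) (by norm_num) (by norm_num)) (by norm_num)
    (by norm_num) (by norm_num) (by norm_num) (by norm_num) (by norm_num) (by norm_num)
  have hy2 : sy κ t ≤ 0.116 := syR_le h 0.8 0.9 0.251 0.116 1.12299 0.1402 0.14474 0.16284 hk1 hk2 (by linarith) (by norm_num) (by norm_num)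
    (expn_ge (by norm_num) (by norm_num)) (by norm_num) (by norm_num) (Or.inr ((mul_le_mul_of_nonneg_left (expn_le (E := 1.123) (by norm_num) (by norm_num) (by norm_num)) (by norm_num)).trans (by norm_num))) (by norm_num) (by norm_num) (by norm_num)
  have hy1' : 0.029 ≤ sy κ t := by linarith
  have hy2' : sy κ t ≤ 0.116 := by linarith
  have hx1 : 0.7028 ≤ sx κ t := sx_lo h 0.8 0.116 0.1161 0.89047 0.7028 hk1 (by norm_num) hy2' (abs_le.2 ⟨by linarith, by linarith⟩) (ex_lm 0.116 (by norm_num) (by norm_num) (by norm_num) (by norm_num) (by norm_num)) (by norm_num) (by norm_num)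
  have hx2 : sx κ t ≤ 0.8738 := sx_hi h 0.9 0.029 0.029 0.97142 0.8738 hk2 hy1' (by norm_num) (le_trans (by linarith) (le_abs_self _)) (ex_um 0.029 (by norm_num) (by norm_num) (by norm_num) (by norm_num)) (by norm_num) (by norm_num)
  refine ⟨⟨hy1', hy2'⟩, ⟨hx1, hx2⟩, v5_n h 0.9 0.029 0.97142 0.8743 hk2 hy1' (ex_um 0.029 (by norm_num) (by norm_num) (by norm_num) (by norm_num)) (by norm_num), ?_, ?_⟩
  · exact v5_Dlo h 0.8 0.029 0.116 0.029 0.97141 1.6619 (by norm_num) hk1 hy1' hy2' (ex_lm 0.029 (by norm_num) (by norm_num) (by norm_num) (by norm_num) (by norm_num)) (by norm_num) (by norm_num) (by norm_num) (by norm_num)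
  · exact v5_Dup h 0.9 0.029 0.116 0.97142 0.89048 1.8743 hk2 hy1' hy2' (ex_um 0.029 (by norm_num) (by norm_num) (by norm_num) (by norm_num)) (ex_um 0.116 (by norm_num) (by norm_num) (by norm_num) (by norm_num)) (by norm_num) (by norm_num) (by norm_num)

private theorem B5Go_T2_0_0 {β x y : ℝ} (hβ : 0 < β) (hN : β * 11.111 ≤ 1) (hx1 : 0.7027 ≤ x) (hx2 : x ≤ 0.797)
    (hy1 : -0 ≤ y) (hy2 : y ≤ 0.1161) : ‖HH β (x + y * I) - 1‖ ≤ 0.035 := by
  refine le_epsJ (C := 0.3878) (N0 := 11.111) (J_boxp 0.7027 0.797 0 0.1161 0.1161 1.2048 0.8055 1.3715 0.8856 0.4673 3.3334 11.111 0.6686 2.418 1.349 1.1135 0.6023 0.4681 1.2488 3.641 0.6844 1.4611 2.4781 3.3808 0.001242 0.005512 0.0000009443 0.0000003101 0.0004987 0.0000003101 0.0000003101 0.0000003101 0.3878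
    hβ hN hx1 hx2 hy1 hy2 (by norm_num) (by norm_num) (by linarith) (by norm_num) (by norm_num) (by norm_num) (by norm_num) (by norm_num) (by norm_num) (by norm_num) (by norm_num) (by norm_num) (by norm_num) (by norm_num) (by norm_num) (by norm_num) (by norm_num) (by norm_num) (by norm_num) (by norm_num) (by norm_num) (by norm_num) (by norm_num) (by norm_num)
    (cube_sqrt_geJ (s := 0.8815) (by norm_num) (by norm_num) (by norm_num) (by norm_num))
    (cube_sqrt_geJ (s := 0.9581) (by norm_num) (by norm_num) (by norm_num) (by norm_num))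
    (by norm_num) (by norm_num) (by norm_num) (by norm_num) (by norm_num) (by norm_num) (by norm_num) (by norm_num) (by norm_num) (by norm_num) (by norm_num) (by norm_num) (by norm_num) (by norm_num) (by norm_num) (by norm_num) (by norm_num) (by norm_num)
    (exp_neg_leJ (r := 0.692) 6 (by norm_num) (by norm_num) (by norm_num) (by norm_num))
    (exp_neg_leJ (r := 0.201) 5 (by norm_num) (by norm_num) (by norm_num) (by norm_num))
    (exp_neg_leJ (r := 0.875) 13 (by norm_num) (by norm_num) (by norm_num) (by norm_num))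
    (exp_neg_leJ (r := 0.99) 14 (by norm_num) (by norm_num) (by norm_num) (by norm_num))
    (exp_neg_leJ (r := 0.604) 7 (by norm_num) (by norm_num) (by norm_num) (by norm_num))
    (exp_neg_leJ (r := 0.99) 14 (by norm_num) (by norm_num) (by norm_num) (by norm_num))
    (exp_neg_leJ (r := 0.99) 14 (by norm_num) (by norm_num) (by norm_num) (by norm_num))
    (exp_neg_leJ (r := 0.99) 14 (by norm_num) (by norm_num) (by norm_num) (by norm_num))
    (by norm_num)) (by norm_num) hN hβ.le (by norm_num)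

private theorem B5Go_T2_0_1 {β x y : ℝ} (hβ : 0 < β) (hN : β * 11.111 ≤ 1) (hx1 : 0.797 ≤ x) (hx2 : x ≤ 0.8739)
    (hy1 : -0 ≤ y) (hy2 : y ≤ 0.1161) : ‖HH β (x + y * I) - 1‖ ≤ 0.035 := by
  refine le_epsJ (C := 0.3766) (N0 := 11.111) (J_boxp 0.797 0.8739 0 0.1161 0.1161 1.2712 0.8816 1.4176 0.8308 0.475 3.3334 11.111 0.6936 2.51 1.365 1.084 0.6355 0.4886 1.2811 3.5967 0.7303 1.5916 2.6667 3.3625 0.000858 0.004393 0.0000006581 0.0000003101 0.0002994 0.0000003101 0.0000003101 0.0000003101 0.3766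
    hβ hN hx1 hx2 hy1 hy2 (by norm_num) (by norm_num) (by linarith) (by norm_num) (by norm_num) (by norm_num) (by norm_num) (by norm_num) (by norm_num) (by norm_num) (by norm_num) (by norm_num) (by norm_num) (by norm_num) (by norm_num) (by norm_num) (by norm_num) (by norm_num) (by norm_num) (by norm_num) (by norm_num) (by norm_num) (by norm_num) (by norm_num)
    (cube_sqrt_geJ (s := 0.8768) (by norm_num) (by norm_num) (by norm_num) (by norm_num))
    (cube_sqrt_geJ (s := 0.9565) (by norm_num) (by norm_num) (by norm_num) (by norm_num))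
    (by norm_num) (by norm_num) (by norm_num) (by norm_num) (by norm_num) (by norm_num) (by norm_num) (by norm_num) (by norm_num) (by norm_num) (by norm_num) (by norm_num) (by norm_num) (by norm_num) (by norm_num) (by norm_num) (by norm_num) (by norm_num)
    (exp_neg_leJ (r := 0.061) 7 (by norm_num) (by norm_num) (by norm_num) (by norm_num))
    (exp_neg_leJ (r := 0.428) 5 (by norm_num) (by norm_num) (by norm_num) (by norm_num))
    (exp_neg_leJ (r := 0.234) 14 (by norm_num) (by norm_num) (by norm_num) (by norm_num))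
    (exp_neg_leJ (r := 0.99) 14 (by norm_num) (by norm_num) (by norm_num) (by norm_num))
    (exp_neg_leJ (r := 0.114) 8 (by norm_num) (by norm_num) (by norm_num) (by norm_num))
    (exp_neg_leJ (r := 0.99) 14 (by norm_num) (by norm_num) (by norm_num) (by norm_num))
    (exp_neg_leJ (r := 0.99) 14 (by norm_num) (by norm_num) (by norm_num) (by norm_num))
    (exp_neg_leJ (r := 0.99) 14 (by norm_num) (by norm_num) (by norm_num) (by norm_num))
    (by norm_num)) (by norm_num) hN hβ.le (by norm_num)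

private theorem B5Go_T2 {β x y : ℝ} (hβ : 0 < β) (hN : β * 11.111 ≤ 1) (hx1 : 0.7027 ≤ x) (hx2 : x ≤ 0.8739)
    (hy1 : 0.0289 ≤ y) (hy2 : y ≤ 0.1161) : ‖HH β (x + y * I) - 1‖ ≤ 0.035 := by
  rcases le_total x 0.797 with hxx | hxx
  · exact B5Go_T2_0_0 hβ hN (by linarith) (by linarith) (by linarith) (by linarith)
  exact B5Go_T2_0_1 hβ hN (by linarith) (by linarith) (by linarith) (by linarith)

private theorem B5Go_G3 {κ : ℝ} (hk1 : 0.8 ≤ κ) (hk2 : κ ≤ 0.9) : gG κ 0.43 ≤ 1.20862 ∧ 0.46116 ≤ Real.exp (-(κ * 0.43)) ^ 2 := by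
  refine ⟨gG_le 0.43 0.8 0.9 1.20862 0.70893 0.6791 1.41058 1.47256 hk1 hk2 (by norm_num)
    (ex_um 0.344 (by norm_num) (by norm_num) (by norm_num) (by norm_num)) (ex_um 0.387 (by norm_num) (by norm_num) (by norm_num) (by norm_num))
    (ex_up 0.344 (by norm_num) (by norm_num) (by norm_num) (by norm_num)) (ex_up 0.387 (by norm_num) (by norm_num) (by norm_num) (by norm_num))
    (by norm_num) (by norm_num), ?_⟩
  exact v5_M 0.67909 (ex_lm 0.387 (by linarith) (by norm_num) (by norm_num) (by norm_num) (by norm_num)) (by norm_num) (by norm_num)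

private theorem B5Go_C4 {β r t κ : ℝ} (hβ : 0 < β) (hr : 10 ≤ r) (hκ : κ = β * r) (hk1 : 0.8 ≤ κ) (hk2 : κ ≤ 0.9) (hta : 1.3194 ≤ t + κ)
    (htb : t + κ ≤ 1.5077) : ‖F (cexp (I * β)) (r * cexp (I * ((t + β / 2 : ℝ) : ℂ)))‖ ≤
      1.9211 * Real.exp (r * (1.20862 - 0.43 * (t + κ))) + 0.1799 * Real.exp (r * 0) :=
  v5_H 0.43 0.8 0.9 1.3194 1.5077 1.20862 1.8888 0.46116 0.1197 1.99 0.8629 0.14617 0.2322 0.00000136 1.9211 0.1799 hβ hr hκ (by norm_num) hk1 hk2 hta htb (by norm_num) (B5Go_G3 hk1 hk2).1 (B5Go_G3 hk1 hk2).2 (by norm_num) (by norm_num) (by norm_num)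
    (by norm_num) (by norm_num) (by norm_num) (by norm_num) (by norm_num) (by norm_num) (by norm_num) (by norm_num) (ex_un 1 0.4616 (by norm_num) (by norm_num) (by norm_num) (by norm_num))
    (v5_hump 2.6578 11.111 3.3334 0.0000009316 0.00000136 hβ hr hκ hk1 hk2 (by norm_num) htb (by norm_num) (by norm_num) (by norm_num) (by norm_num) (by norm_num) (by norm_num) (by norm_num) (ex_un 13 0.9 (by norm_num) (by norm_num) (by norm_num) (by norm_num)) (by norm_num)) (by norm_num) (by norm_num)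

private theorem B5Go_G5 {κ : ℝ} (hk1 : 0.8 ≤ κ) (hk2 : κ ≤ 0.9) : gG κ (-0.69) ≤ 1.36939 ∧ 3.01616 ≤ Real.exp (-(κ * (-0.69))) ^ 2 := by
  refine ⟨gG_le (-0.69) 0.8 0.9 1.36939 1.73673 1.86079 0.5758 0.53741 hk1 hk2 (by norm_num)
    (ex_up 0.552 (by norm_num) (by norm_num) (by norm_num) (by norm_num)) (ex_up 0.621 (by norm_num) (by norm_num) (by norm_num) (by norm_num))
    (ex_um 0.552 (by norm_num) (by norm_num) (by norm_num) (by norm_num)) (ex_um 0.621 (by norm_num) (by norm_num) (by norm_num) (by norm_num))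
    (by norm_num) (by norm_num), ?_⟩
  exact v5_M 1.73671 (ex_lp 0.552 (by linarith) (by norm_num) (by norm_num)) (by norm_num) (by norm_num)

private theorem B5Go_C6 {β r t κ : ℝ} (hβ : 0 < β) (hr : 10 ≤ r) (hκ : κ = β * r) (hk1 : 0.8 ≤ κ) (hk2 : κ ≤ 0.9) (hta : (-2.4505) ≤ t + κ)
    (htb : t + κ ≤ (-2.2622)) : ‖F (cexp (I * β)) (r * cexp (I * ((t + β / 2 : ℝ) : ℂ)))‖ ≤
      1.0847 * Real.exp (r * (1.36939 - (-0.69) * (t + κ))) + 1.8634 * Real.exp (r * 0.0501) :=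
  v5_HU (-0.69) 0.8 0.9 (-2.4505) (-2.2622) 1.36939 1.0847 3.01616 0.1197 0.8556 1.3614 0 0.0501 0.00000136 1.8634 hβ hr hκ (by norm_num) hk1 hk2 hta htb (by norm_num) (by norm_num) (B5Go_G5 hk1 hk2).1 (B5Go_G5 hk1 hk2).2 (by norm_num) (by norm_num) (by norm_num)
    (by norm_num) (by norm_num) (by norm_num) (by norm_num) (by norm_num) (by norm_num) (by norm_num)
    (by norm_num) (by norm_num) (by norm_num) (v5_hump 6.4277 11.111 3.3334 0.0000009316 0.00000136 hβ hr hκ hk1 hk2 (by norm_num) htb (by norm_num) (by norm_num) (by norm_num) (by norm_num) (by norm_num) (by norm_num) (by norm_num) (ex_un 13 0.9 (by norm_num) (by norm_num) (by norm_num) (by norm_num)) (by norm_num)) (by norm_num)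

private theorem B5Go_C7 {β r t κ : ℝ} (hβ : 0 < β) (hr : 10 ≤ r) (hκ : κ = β * r) (hk1 : 0.8 ≤ κ) (hk2 : κ ≤ 0.9) (hta : 2.576 ≤ t + κ)
    (htb : t + κ ≤ 2.7643) : ‖F (cexp (I * β)) (r * cexp (I * ((t + β / 2 : ℝ) : ℂ)))‖ ≤
      2.8114 * Real.exp (r * (0.01 + 1 / 20)) :=
  v5_UD 0.8 0.9 2.576 2.7643 0.01 0.4461 0.01 1.4657 2.8114 hβ hr hκ (by norm_num) hk1 hk2 hta htb (by norm_num) (by norm_num) (by norm_num) (by norm_num) (by norm_num) (by norm_num) (by norm_num) (by norm_num) (by norm_num) (by norm_num) (by norm_num)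

private theorem B5Go_Y8 {β r t κ h t' : ℝ} (hβ : 0 < β) (hκ : κ = β * r) (hN : β * 11.111 ≤ 1) (hk1 : 0.8 ≤ κ) (hk2 : κ ≤ 0.9)
    (ht : t' = t + (((1 : ℤ) : ℝ) - 1) * h) (hD : DomR κ t') (hta : 0.0628 ≤ t' + κ) (htb : t' + κ ≤ 0.251) :
    0.8247 * Real.exp (r * sE κ t') ≤ ‖Xf β r h t 1‖ := by
  obtain ⟨⟨ya, yb⟩, ⟨xa, xb⟩, n1, Da, Db⟩ := B5Go_B1 hD hk1 hk2 hta htb
  have J := B5Go_T2 (x := sx κ t') (y := sy κ t') hβ hN (by linarith only [xa, xb, ya, yb]) (by linarith only [xa, xb, ya, yb]) (by linarith only [xa, xb, ya, yb]) (by linarith only [xa, xb, ya, yb])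
  exact v5_Jlo hβ hκ (k := 1) ht hD 0.035 1.8743 0.8247 (by norm_num) J Db (by norm_num)

private theorem B5Go_V9 {κ t : ℝ} (hD : DomR κ t) (hk1 : 0.8 ≤ κ) (hk2 : κ ≤ 0.9) (hta : 0.0628 ≤ t + κ) (htb : t + κ ≤ 0.251) :
    1.00455 - 0.0915 * (t + κ) ≤ sE κ t := by
  have hκ0 : 0 < κ := hD.1
  exact v5_V1 hD 0.8 0.9 0.0628 0.251 0.08221 0.20031 0.31466 1.00455 0.0915 (by norm_num) hk1 hk2 (by norm_num) (by norm_num) hta htb (by norm_num) (clo5 0.8 0.9 0.31466 (by norm_num) hk1 hk2 (by norm_num) (by norm_num) (by norm_num))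
      ((cup1 0.9 hκ0.le hk2 (by norm_num)).trans (by norm_num)) (by norm_num) (by norm_num) (by norm_num) (by norm_num) (by norm_num) (by norm_num)

private theorem B5Go_K10 {β r t κ h : ℝ} (hβ : 0 < β) (hr : 10 ≤ r) (hκ : κ = β * r) (hk1 : 0.8 ≤ κ) (hk2 : κ ≤ 0.9)
    (hh : h = 2 * Real.pi / 5) (hh1 : 1.25663 ≤ h) (hh2 : h ≤ 1.25664) (hta : 0.0628 ≤ t + κ) (htb : t + κ ≤ 0.251)
    (hY : 0.8247 * Real.exp (r * sE κ t) ≤ ‖Xf β r h t 1‖) (hV : 1.00455 - 0.0915 * (t + κ) ≤ sE κ t) :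
    ‖Xf β r h t 2‖ ≤ 0.0656 * ‖Xf β r h t 1‖ := by
  rw [v5_X 2 1 (by push_cast; ring)]
  exact v5_cmp 0.3575 0.0281 0.0655 0.9815 0.00005517 0.0000121 0.0656 hr (B5Go_C4 (t := t + 1 * h) hβ hr hκ hk1 hk2 (by linarith only [hta, htb, hh1, hh2]) (by linarith only [hta, htb, hh1, hh2])) hY (by norm_num) (by norm_num) (by norm_num) (by norm_num) (by linarith only [hV, hta, htb, hh1, hh2]) (ex_un 3 0.5749 (by norm_num) (by norm_num) (by norm_num) (by norm_num)) (by norm_num) (by norm_num) (by linarith only [hV, hta, htb, hh1, hh2]) (ex_un 9 0.8149 (by norm_num) (by norm_num) (by norm_num) (by norm_num)) (by norm_num) (by norm_num)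

private theorem B5Go_K11 {β r t κ h : ℝ} (hβ : 0 < β) (hr : 10 ≤ r) (hκ : κ = β * r) (hk1 : 0.8 ≤ κ) (hk2 : κ ≤ 0.9)
    (hh : h = 2 * Real.pi / 5) (hh1 : 1.25663 ≤ h) (hh2 : h ≤ 1.25664) (hta : 0.0628 ≤ t + κ) (htb : t + κ ≤ 0.251)
    (hY : 0.8247 * Real.exp (r * sE κ t) ≤ ‖Xf β r h t 1‖) (hV : 1.00455 - 0.0915 * (t + κ) ≤ sE κ t) :
    ‖Xf β r h t (-1)‖ ≤ 0.000215 * ‖Xf β r h t 1‖ := by
  rw [v5_X (-1) (-2) (by push_cast; ring)]
  exact v5_cmp 1.1731 0.000008096 0.0000107 0.9314 0.0000902 0.000204 0.000215 hr (B5Go_C6 (t := t + (-2) * h) hβ hr hκ hk1 hk2 (by linarith only [hta, htb, hh1, hh2]) (by linarith only [hta, htb, hh1, hh2])) hY (by norm_num) (by norm_num) (by norm_num) (by norm_num) (by linarith only [hV, hta, htb, hh1, hh2]) (ex_un 11 0.7309 (by norm_num) (by norm_num) (by norm_num) (by norm_num)) (by norm_num) (by norm_num) (by linarith only [hV, hta, htb, hh1, hh2]) (ex_un 9 0.3139 (by norm_num) (by norm_num)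 (by norm_num) (by norm_num)) (by norm_num) (by norm_num)

private theorem B5Go_K12 {β r t κ h : ℝ} (hβ : 0 < β) (hr : 10 ≤ r) (hκ : κ = β * r) (hk1 : 0.8 ≤ κ) (hk2 : κ ≤ 0.9)
    (hh : h = 2 * Real.pi / 5) (hh1 : 1.25663 ≤ h) (hh2 : h ≤ 1.25664) (hta : 0.0628 ≤ t + κ) (htb : t + κ ≤ 0.251)
    (hY : 0.8247 * Real.exp (r * sE κ t) ≤ ‖Xf β r h t 1‖) (hV : 1.00455 - 0.0915 * (t + κ) ≤ sE κ t) :
    ‖Xf β r h t (-2)‖ ≤ 0.00034 * ‖Xf β r h t 1‖ := by
  rw [v5_Xm2 hh]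
  exact v5_cmp0 0.9215 0.00009956 0.00034 hr (B5Go_C7 (t := t + 2 * h) hβ hr hκ hk1 hk2 (by linarith only [hta, htb, hh1, hh2]) (by linarith only [hta, htb, hh1, hh2])) hY (by norm_num) (by norm_num) (by norm_num) (by linarith only [hV, hta, htb, hh1, hh2]) (ex_un 9 0.2149 (by norm_num) (by norm_num) (by norm_num) (by norm_num)) (by norm_num)

private theorem B5Go_G13 {κ : ℝ} (hk1 : 0.8 ≤ κ) (hk2 : κ ≤ 0.9) : gG κ (-0.68) ≤ 1.35911 ∧ 2.96831 ≤ Real.exp (-(κ * (-0.68))) ^ 2 := by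
  refine ⟨gG_le (-0.68) 0.8 0.9 1.35911 1.72289 1.84412 0.58043 0.54227 hk1 hk2 (by norm_num)
    (ex_up 0.544 (by norm_num) (by norm_num) (by norm_num) (by norm_num)) (ex_up 0.612 (by norm_num) (by norm_num) (by norm_num) (by norm_num))
    (ex_um 0.544 (by norm_num) (by norm_num) (by norm_num) (by norm_num)) (ex_um 0.612 (by norm_num) (by norm_num) (by norm_num) (by norm_num))
    (by norm_num) (by norm_num), ?_⟩
  exact v5_M 1.72288 (ex_lp 0.544 (by linarith) (by norm_num) (by norm_num)) (by norm_num) (by norm_num)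

private theorem B5Go_C14 {β r t κ : ℝ} (hβ : 0 < β) (hr : 10 ≤ r) (hκ : κ = β * r) (hk1 : 0.8 ≤ κ) (hk2 : κ ≤ 0.9) (hta : (-1.1939) ≤ t + κ)
    (htb : t + κ ≤ (-1.0056)) : ‖F (cexp (I * β)) (r * cexp (I * ((t + β / 2 : ℝ) : ℂ)))‖ ≤
      1.0884 * Real.exp (r * (1.35911 - (-0.68) * (t + κ))) + 1.8135 * Real.exp (r * 0.0501) :=
  v5_HU (-0.68) 0.8 0.9 (-1.1939) (-1.0056) 1.35911 1.0884 2.96831 0.1197 0.8556 2.618 0 0.0501 0.00000136 1.8135 hβ hr hκ (by norm_num) hk1 hk2 hta htb (by norm_num) (by norm_num) (B5Go_G13 hk1 hk2).1 (B5Go_G13 hk1 hk2).2 (by norm_num) (by norm_num) (by norm_num)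
    (by norm_num) (by norm_num) (by norm_num) (by norm_num) (by norm_num) (by norm_num) (by norm_num)
    (by norm_num) (by norm_num) (by norm_num) (v5_hump 5.1711 11.111 3.3334 0.0000009316 0.00000136 hβ hr hκ hk1 hk2 (by norm_num) htb (by norm_num) (by norm_num) (by norm_num) (by norm_num) (by norm_num) (by norm_num) (by norm_num) (ex_un 13 0.9 (by norm_num) (by norm_num) (by norm_num) (by norm_num)) (by norm_num)) (by norm_num)

private theorem B5Go_K15 {β r t κ h : ℝ} (hβ : 0 < β) (hr : 10 ≤ r) (hκ : κ = β * r) (hk1 : 0.8 ≤ κ) (hk2 : κ ≤ 0.9)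
    (hh : h = 2 * Real.pi / 5) (hh1 : 1.25663 ≤ h) (hh2 : h ≤ 1.25664) (hta : 0.0628 ≤ t + κ) (htb : t + κ ≤ 0.251)
    (hY : 0.8247 * Real.exp (r * sE κ t) ≤ ‖Xf β r h t 1‖) (hV : 1.00455 - 0.0915 * (t + κ) ≤ sE κ t) :
    ‖Xf β r h t 0‖ ≤ 0.062 * ‖Xf β r h t 1‖ := by
  rw [v5_X 0 (-1) (by push_cast; ring)]
  exact v5_cmp 0.3063 0.04676 0.0618 0.9314 0.0000902 0.000199 0.062 hr (B5Go_C14 (t := t + (-1) * h) hβ hr hκ hk1 hk2 (by linarith only [hta, htb, hh1, hh2]) (by linarith only [hta, htb, hh1, hh2])) hY (by norm_num) (by norm_num) (by norm_num) (by norm_num) (by linarith only [hV, hta, htb, hh1, hh2]) (ex_un 3 0.0629 (by norm_num) (by norm_num) (by norm_num) (by norm_num)) (by norm_num) (by norm_num) (by linarith only [hV, hta, htb, hh1, hh2]) (ex_un 9 0.3139 (by norm_num) (by norm_num) (by norm_num) (by norm_num)) (by norm_num) (by norm_num)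

private theorem B5Go_O16 {β r t κ h : ℝ} (hβ : 0 < β) (hr : 10 ≤ r) (hκ : κ = β * r) (hk1 : 0.8 ≤ κ) (hk2 : κ ≤ 0.9)
    (hh : h = 2 * Real.pi / 5) (hta : 0.0628 ≤ t + κ) (htb : t + κ ≤ 0.251) :
    ‖Xf β r h t (-2)‖ + ‖Xf β r h t (-1)‖ + ‖Xf β r h t 2‖ < |‖Xf β r h t 1‖ - ‖Xf β r h t 0‖| := by
  obtain ⟨hh1, hh2⟩ := v5_h hh
  have hκ0 : 0 < κ := by linarith only [hk1]
  have hN : β * 11.111 ≤ 1 := v5_hN 0.9 11.111 hβ hr hκ hk2 (by norm_num) (by norm_num)
  have hD1 : DomR κ t := v5_dom hκ0 (by linarith only [hta, htb, hk1, hk2, hh1, hh2]) (Or.inr (by linarith only [hta, htb, hk1, hk2, hh1, hh2]))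
  have e1 : t = t + (((1 : ℤ) : ℝ) - 1) * h := by push_cast; ring
  have hY := B5Go_Y8 (h := h) hβ hκ hN hk1 hk2 e1 hD1 hta htb
  have hV := B5Go_V9 hD1 hk1 hk2 hta htb
  have cp2 := B5Go_K10 hβ hr hκ hk1 hk2 hh hh1 hh2 hta htb hY hV
  have cm1 := B5Go_K11 hβ hr hκ hk1 hk2 hh hh1 hh2 hta htb hY hV
  have cm2 := B5Go_K12 hβ hr hκ hk1 hk2 hh hh1 hh2 hta htb hY hV
  have cn0 := B5Go_K15 hβ hr hκ hk1 hk2 hh hh1 hh2 hta htb hY hV
  have hp : 0 < ‖Xf β r h t 1‖ := lt_of_lt_of_le (by positivity) hY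
  exact v5_out1 _ _ _ _ cm2 cm1 cp2 cn0 hp (by norm_num)

private theorem B5Go_B17 {κ t : ℝ} (h : DomR κ t) (hk1 : 0.8 ≤ κ) (hk2 : κ ≤ 0.9) (ht1 : 0.251 ≤ t + κ) (ht2 : t + κ ≤ 0.415) :
    (0.112 ≤ sy κ t ∧ sy κ t ≤ 0.182) ∧ (0.6415 ≤ sx κ t ∧ sx κ t ≤ 0.7969) ∧ κ * Real.exp (-sy κ t) ≤ 0.8047 ∧ 1.7355 ≤ sD κ t ∧ sD κ t ≤ 1.9269 := by
  have hy1 : 0.112 ≤ sy κ t := syR_ge h 0.8 0.9 0.251 0.112 1.11851 1.11852 0.13919 0.1566 hk1 hk2 (by linarith) (by norm_num) (by norm_num)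
    (expn_ge (by norm_num) (by norm_num)) (expn_le (by norm_num) (by norm_num) (by norm_num)) (by norm_num)
    (by norm_num) (by norm_num) (by norm_num) (by norm_num) (by norm_num) (by norm_num)
  have hy2 : sy κ t ≤ 0.182 := syR_le h 0.8 0.9 0.415 0.182 1.19961 0.2349 0.24258 0.27292 hk1 hk2 (by linarith) (by norm_num) (by norm_num)
    (expn_ge (by norm_num) (by norm_num)) (by norm_num) (by norm_num) (Or.inr ((mul_le_mul_of_nonneg_left (expn_le (E := 1.19962) (by norm_num) (by norm_num) (by norm_num)) (by norm_num)).trans (by norm_num))) (by norm_num) (by norm_num) (by norm_num)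
  have hy1' : 0.112 ≤ sy κ t := by linarith
  have hy2' : sy κ t ≤ 0.182 := by linarith
  have hx1 : 0.6415 ≤ sx κ t := sx_lo h 0.8 0.182 0.1821 0.8336 0.6415 hk1 (by norm_num) hy2' (abs_le.2 ⟨by linarith, by linarith⟩) (ex_lm 0.182 (by norm_num) (by norm_num) (by norm_num) (by norm_num) (by norm_num)) (by norm_num) (by norm_num)
  have hx2 : sx κ t ≤ 0.7969 := sx_hi h 0.9 0.112 0.112 0.89405 0.7969 hk2 hy1' (by norm_num) (le_trans (by linarith) (le_abs_self _)) (ex_um 0.112 (by norm_num) (by norm_num) (by norm_num) (by norm_num)) (by norm_num) (by norm_num)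
  refine ⟨⟨hy1', hy2'⟩, ⟨hx1, hx2⟩, v5_n h 0.9 0.112 0.89405 0.8047 hk2 hy1' (ex_um 0.112 (by norm_num) (by norm_num) (by norm_num) (by norm_num)) (by norm_num), ?_, ?_⟩
  · exact v5_Dlo h 0.8 0.112 0.182 0.112 0.89404 1.7355 (by norm_num) hk1 hy1' hy2' (ex_lm 0.112 (by norm_num) (by norm_num) (by norm_num) (by norm_num) (by norm_num)) (by norm_num) (by norm_num) (by norm_num) (by norm_num)
  · exact v5_Dup h 0.9 0.112 0.182 0.89405 0.83361 1.9269 hk2 hy1' hy2' (ex_um 0.112 (by norm_num) (by norm_num) (by norm_num) (by norm_num)) (ex_um 0.182 (by norm_num) (by norm_num) (by norm_num) (by norm_num)) (by norm_num) (by norm_num) (by norm_num)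

private theorem B5Go_T18_0_0 {β x y : ℝ} (hβ : 0 < β) (hN : β * 11.111 ≤ 1) (hx1 : 0.6414 ≤ x) (hx2 : x ≤ 0.769)
    (hy1 : -0 ≤ y) (hy2 : y ≤ 0.1821) : ‖HH β (x + y * I) - 1‖ ≤ 0.04 := by
  refine le_epsJ (C := 0.4442) (N0 := 11.111) (J_boxp 0.6414 0.769 0 0.1821 0.1821 1.1616 0.7903 1.4103 0.9486 0.4738 3.3334 11.111 0.6804 2.461 1.356 1.1243 0.5807 0.449 1.2278 3.6537 0.6479 1.3695 2.0724 2.9885 0.001578 0.006844 0.000001191 0.0000003101 0.0007481 0.0000003101 0.0000003101 0.0000003101 0.4442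
    hβ hN hx1 hx2 hy1 hy2 (by norm_num) (by norm_num) (by linarith) (by norm_num) (by norm_num) (by norm_num) (by norm_num) (by norm_num) (by norm_num) (by norm_num) (by norm_num) (by norm_num) (by norm_num) (by norm_num) (by norm_num) (by norm_num) (by norm_num) (by norm_num) (by norm_num) (by norm_num) (by norm_num) (by norm_num) (by norm_num) (by norm_num)
    (cube_sqrt_geJ (s := 0.8793) (by norm_num) (by norm_num) (by norm_num) (by norm_num))
    (cube_sqrt_geJ (s := 0.9574) (by norm_num) (by norm_num) (by norm_num) (by norm_num))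
    (by norm_num) (by norm_num) (by norm_num) (by norm_num) (by norm_num) (by norm_num) (by norm_num) (by norm_num) (by norm_num) (by norm_num) (by norm_num) (by norm_num) (by norm_num) (by norm_num) (by norm_num) (by norm_num) (by norm_num) (by norm_num)
    (exp_neg_leJ (r := 0.452) 6 (by norm_num) (by norm_num) (by norm_num) (by norm_num))
    (exp_neg_leJ (r := 0.988) 4 (by norm_num) (by norm_num) (by norm_num) (by norm_num))
    (exp_neg_leJ (r := 0.642) 13 (by norm_num) (by norm_num) (by norm_num) (by norm_num))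
    (exp_neg_leJ (r := 0.99) 14 (by norm_num) (by norm_num) (by norm_num) (by norm_num))
    (exp_neg_leJ (r := 0.198) 7 (by norm_num) (by norm_num) (by norm_num) (by norm_num))
    (exp_neg_leJ (r := 0.99) 14 (by norm_num) (by norm_num) (by norm_num) (by norm_num))
    (exp_neg_leJ (r := 0.99) 14 (by norm_num) (by norm_num) (by norm_num) (by norm_num))
    (exp_neg_leJ (r := 0.99) 14 (by norm_num) (by norm_num) (by norm_num) (by norm_num))
    (by norm_num)) (by norm_num) hN hβ.le (by norm_num)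

private theorem B5Go_T18_0_1 {β x y : ℝ} (hβ : 0 < β) (hN : β * 11.111 ≤ 1) (hx1 : 0.769 ≤ x) (hx2 : x ≤ 0.797)
    (hy1 : -0 ≤ y) (hy2 : y ≤ 0.1821) : ‖HH β (x + y * I) - 1‖ ≤ 0.04 := by
  refine le_epsJ (C := 0.3465) (N0 := 11.111) (J_boxp 0.769 0.797 0 0.1821 0.1821 1.2515 0.8176 1.4257 0.8529 0.4764 3.3334 11.111 0.6533 2.363 1.339 1.1135 0.6257 0.4894 1.2715 3.6377 0.7099 1.5461 2.3276 3.1695 0.0009596 0.004353 0.0000007324 0.0000003101 0.0003765 0.0000003101 0.0000003101 0.0000003101 0.3465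
    hβ hN hx1 hx2 hy1 hy2 (by norm_num) (by norm_num) (by linarith) (by norm_num) (by norm_num) (by norm_num) (by norm_num) (by norm_num) (by norm_num) (by norm_num) (by norm_num) (by norm_num) (by norm_num) (by norm_num) (by norm_num) (by norm_num) (by norm_num) (by norm_num) (by norm_num) (by norm_num) (by norm_num) (by norm_num) (by norm_num) (by norm_num)
    (cube_sqrt_geJ (s := 0.8844) (by norm_num) (by norm_num) (by norm_num) (by norm_num))
    (cube_sqrt_geJ (s := 0.9591) (by norm_num) (by norm_num) (by norm_num) (by norm_num))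
    (by norm_num) (by norm_num) (by norm_num) (by norm_num) (by norm_num) (by norm_num) (by norm_num) (by norm_num) (by norm_num) (by norm_num) (by norm_num) (by norm_num) (by norm_num) (by norm_num) (by norm_num) (by norm_num) (by norm_num) (by norm_num)
    (exp_neg_leJ (r := 0.952) 6 (by norm_num) (by norm_num) (by norm_num) (by norm_num))
    (exp_neg_leJ (r := 0.437) 5 (by norm_num) (by norm_num) (by norm_num) (by norm_num))
    (exp_neg_leJ (r := 0.127) 14 (by norm_num) (by norm_num) (by norm_num) (by norm_num))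
    (exp_neg_leJ (r := 0.99) 14 (by norm_num) (by norm_num) (by norm_num) (by norm_num))
    (exp_neg_leJ (r := 0.887) 7 (by norm_num) (by norm_num) (by norm_num) (by norm_num))
    (exp_neg_leJ (r := 0.99) 14 (by norm_num) (by norm_num) (by norm_num) (by norm_num))
    (exp_neg_leJ (r := 0.99) 14 (by norm_num) (by norm_num) (by norm_num) (by norm_num))
    (exp_neg_leJ (r := 0.99) 14 (by norm_num) (by norm_num) (by norm_num) (by norm_num))
    (by norm_num)) (by norm_num) hN hβ.le (by norm_num)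

private theorem B5Go_T18 {β x y : ℝ} (hβ : 0 < β) (hN : β * 11.111 ≤ 1) (hx1 : 0.6414 ≤ x) (hx2 : x ≤ 0.797)
    (hy1 : 0.1119 ≤ y) (hy2 : y ≤ 0.1821) : ‖HH β (x + y * I) - 1‖ ≤ 0.04 := by
  rcases le_total x 0.769 with hxx | hxx
  · exact B5Go_T18_0_0 hβ hN (by linarith) (by linarith) (by linarith) (by linarith)
  exact B5Go_T18_0_1 hβ hN (by linarith) (by linarith) (by linarith) (by linarith)

private theorem B5Go_G19 {κ : ℝ} (hk1 : 0.8 ≤ κ) (hk2 : κ ≤ 0.9) : gG κ 0.46 ≤ 1.24466 ∧ 0.43692 ≤ Real.exp (-(κ * 0.46)) ^ 2 := by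
  refine ⟨gG_le 0.46 0.8 0.9 1.24466 0.69212 0.66101 1.44485 1.51286 hk1 hk2 (by norm_num)
    (ex_um 0.368 (by norm_num) (by norm_num) (by norm_num) (by norm_num)) (ex_um 0.414 (by norm_num) (by norm_num) (by norm_num) (by norm_num))
    (ex_up 0.368 (by norm_num) (by norm_num) (by norm_num) (by norm_num)) (ex_up 0.414 (by norm_num) (by norm_num) (by norm_num) (by norm_num))
    (by norm_num) (by norm_num), ?_⟩
  exact v5_M 0.661 (ex_lm 0.414 (by linarith) (by norm_num) (by norm_num) (by norm_num) (by norm_num)) (by norm_num) (by norm_num)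

private theorem B5Go_C20 {β r t κ : ℝ} (hβ : 0 < β) (hr : 10 ≤ r) (hκ : κ = β * r) (hk1 : 0.8 ≤ κ) (hk2 : κ ≤ 0.9) (hta : 1.5076 ≤ t + κ)
    (htb : t + κ ≤ 1.6717) : ‖F (cexp (I * β)) (r * cexp (I * ((t + β / 2 : ℝ) : ℂ)))‖ ≤
      2.0457 * Real.exp (r * (1.24466 - 0.46 * (t + κ))) + 0.1747 * Real.exp (r * 0) :=
  v5_H 0.46 0.8 0.9 1.5076 1.6717 1.24466 1.9875 0.43692 0.1197 2.1782 0.6989 0.10809 0.3394 0.00000136 2.0457 0.1747 hβ hr hκ (by norm_num) hk1 hk2 hta htb (by norm_num) (B5Go_G19 hk1 hk2).1 (B5Go_G19 hk1 hk2).2 (by norm_num) (by norm_num) (by norm_num)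
    (by norm_num) (by norm_num) (by norm_num) (by norm_num) (by norm_num) (by norm_num) (by norm_num) (by norm_num) (ex_un 1 0.0808 (by norm_num) (by norm_num) (by norm_num) (by norm_num))
    (v5_hump 2.4938 11.111 3.3334 0.0000009316 0.00000136 hβ hr hκ hk1 hk2 (by norm_num) htb (by norm_num) (by norm_num) (by norm_num) (by norm_num) (by norm_num) (by norm_num) (by norm_num) (ex_un 13 0.9 (by norm_num) (by norm_num) (by norm_num) (by norm_num)) (by norm_num)) (by norm_num) (by norm_num)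

private theorem B5Go_G21 {κ : ℝ} (hk1 : 0.8 ≤ κ) (hk2 : κ ≤ 0.9) : gG κ (-0.71) ≤ 1.39041 ∧ 3.11423 ≤ Real.exp (-(κ * (-0.71))) ^ 2 := by
  refine ⟨gG_le (-0.71) 0.8 0.9 1.39041 1.76474 1.89459 0.56666 0.52783 hk1 hk2 (by norm_num)
    (ex_up 0.568 (by norm_num) (by norm_num) (by norm_num) (by norm_num)) (ex_up 0.639 (by norm_num) (by norm_num) (by norm_num) (by norm_num))
    (ex_um 0.568 (by norm_num) (by norm_num) (by norm_num) (by norm_num)) (ex_um 0.639 (by norm_num) (by norm_num) (by norm_num) (by norm_num))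
    (by norm_num) (by norm_num), ?_⟩
  exact v5_M 1.76472 (ex_lp 0.568 (by linarith) (by norm_num) (by norm_num)) (by norm_num) (by norm_num)

private theorem B5Go_C22 {β r t κ : ℝ} (hβ : 0 < β) (hr : 10 ≤ r) (hκ : κ = β * r) (hk1 : 0.8 ≤ κ) (hk2 : κ ≤ 0.9) (hta : (-2.2623) ≤ t + κ)
    (htb : t + κ ≤ (-2.0982)) : ‖F (cexp (I * β)) (r * cexp (I * ((t + β / 2 : ℝ) : ℂ)))‖ ≤
      1.0773 * Real.exp (r * (1.39041 - (-0.71) * (t + κ))) + 1.8681 * Real.exp (r * 0.0501) :=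
  v5_HU (-0.71) 0.8 0.9 (-2.2623) (-2.0982) 1.39041 1.0773 3.11423 0.1197 0.8556 1.5496 0 0.0501 0.00000136 1.8681 hβ hr hκ (by norm_num) hk1 hk2 hta htb (by norm_num) (by norm_num) (B5Go_G21 hk1 hk2).1 (B5Go_G21 hk1 hk2).2 (by norm_num) (by norm_num) (by norm_num)
    (by norm_num) (by norm_num) (by norm_num) (by norm_num) (by norm_num) (by norm_num) (by norm_num)
    (by norm_num) (by norm_num) (by norm_num) (v5_hump 6.2637 11.111 3.3334 0.0000009316 0.00000136 hβ hr hκ hk1 hk2 (by norm_num) htb (by norm_num) (by norm_num) (by norm_num) (by norm_num) (by norm_num) (by norm_num) (by norm_num) (ex_un 13 0.9 (by norm_num) (by norm_num) (by norm_num) (by norm_num)) (by norm_num)) (by norm_num)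

private theorem B5Go_C23 {β r t κ : ℝ} (hβ : 0 < β) (hr : 10 ≤ r) (hκ : κ = β * r) (hk1 : 0.8 ≤ κ) (hk2 : κ ≤ 0.9) (hta : 2.7642 ≤ t + κ)
    (htb : t + κ ≤ 2.9283) : ‖F (cexp (I * β)) (r * cexp (I * ((t + β / 2 : ℝ) : ℂ)))‖ ≤
      2.3967 * Real.exp (r * (0.01 + 1 / 20)) :=
  v5_UD 0.8 0.9 2.7642 2.9283 0.01 0.4461 0.01 1.2495 2.3967 hβ hr hκ (by norm_num) hk1 hk2 hta htb (by norm_num) (by norm_num) (by norm_num) (by norm_num) (by norm_num) (by norm_num) (by norm_num) (by norm_num) (by norm_num) (by norm_num) (by norm_num)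

private theorem B5Go_Y24 {β r t κ h t' : ℝ} (hβ : 0 < β) (hκ : κ = β * r) (hN : β * 11.111 ≤ 1) (hk1 : 0.8 ≤ κ) (hk2 : κ ≤ 0.9)
    (ht : t' = t + (((1 : ℤ) : ℝ) - 1) * h) (hD : DomR κ t') (hta : 0.251 ≤ t' + κ) (htb : t' + κ ≤ 0.415) :
    0.8148 * Real.exp (r * sE κ t') ≤ ‖Xf β r h t 1‖ := by
  obtain ⟨⟨ya, yb⟩, ⟨xa, xb⟩, n1, Da, Db⟩ := B5Go_B17 hD hk1 hk2 hta htb
  have J := B5Go_T18 (x := sx κ t') (y := sy κ t') hβ hN (by linarith only [xa, xb, ya, yb]) (by linarith only [xa, xb, ya, yb]) (by linarith only [xa, xb, ya, yb]) (by linarith only [xa, xb, ya, yb])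
  exact v5_Jlo hβ hκ (k := 1) ht hD 0.04 1.9269 0.8148 (by norm_num) J Db (by norm_num)

private theorem B5Go_V25 {κ t : ℝ} (hD : DomR κ t) (hk1 : 0.8 ≤ κ) (hk2 : κ ≤ 0.9) (hta : 0.251 ≤ t + κ) (htb : t + κ ≤ 0.415) :
    1.02865 - 0.1879 * (t + κ) ≤ sE κ t := by
  have hκ0 : 0 < κ := hD.1
  exact v5_V1 hD 0.8 0.9 0.251 0.415 0.07317 0.20031 0.31466 1.02865 0.1879 (by norm_num) hk1 hk2 (by norm_num) (by norm_num) hta htb (by norm_num) (clo5 0.8 0.9 0.31466 (by norm_num) hk1 hk2 (by norm_num) (by norm_num) (by norm_num))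
      ((cup1 0.9 hκ0.le hk2 (by norm_num)).trans (by norm_num)) (by norm_num) (by norm_num) (by norm_num) (by norm_num) (by norm_num) (by norm_num)

private theorem B5Go_K26 {β r t κ h : ℝ} (hβ : 0 < β) (hr : 10 ≤ r) (hκ : κ = β * r) (hk1 : 0.8 ≤ κ) (hk2 : κ ≤ 0.9)
    (hh : h = 2 * Real.pi / 5) (hh1 : 1.25663 ≤ h) (hh2 : h ≤ 1.25664) (hta : 0.251 ≤ t + κ) (htb : t + κ ≤ 0.415)
    (hY : 0.8148 * Real.exp (r * sE κ t) ≤ ‖Xf β r h t 1‖) (hV : 1.02865 - 0.1879 * (t + κ) ≤ sE κ t) :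
    ‖Xf β r h t 2‖ ≤ 0.0341 * ‖Xf β r h t 1‖ := by
  rw [v5_X 2 1 (by push_cast; ring)]
  exact v5_cmp 0.4303 0.01354 0.034 0.9506 0.00007455 0.000016 0.0341 hr (B5Go_C20 (t := t + 1 * h) hβ hr hκ hk1 hk2 (by linarith only [hta, htb, hh1, hh2]) (by linarith only [hta, htb, hh1, hh2])) hY (by norm_num) (by norm_num) (by norm_num) (by norm_num) (by linarith only [hV, hta, htb, hh1, hh2]) (ex_un 4 0.3029 (by norm_num) (by norm_num) (by norm_num) (by norm_num)) (by norm_num) (by norm_num) (by linarith only [hV, hta, htb, hh1, hh2]) (ex_un 9 0.5059 (by norm_num) (by norm_num) (by norm_num) (by norm_num)) (by norm_num) (by norm_num)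

private theorem B5Go_K27 {β r t κ h : ℝ} (hβ : 0 < β) (hr : 10 ≤ r) (hκ : κ = β * r) (hk1 : 0.8 ≤ κ) (hk2 : κ ≤ 0.9)
    (hh : h = 2 * Real.pi / 5) (hh1 : 1.25663 ≤ h) (hh2 : h ≤ 1.25664) (hta : 0.251 ≤ t + κ) (htb : t + κ ≤ 0.415)
    (hY : 0.8148 * Real.exp (r * sE κ t) ≤ ‖Xf β r h t 1‖) (hV : 1.02865 - 0.1879 * (t + κ) ≤ sE κ t) :
    ‖Xf β r h t (-1)‖ ≤ 0.000319 * ‖Xf β r h t 1‖ := by
  rw [v5_X (-1) (-2) (by push_cast; ring)]
  exact v5_cmp 1.05 0.00002759 0.0000365 0.9005 0.0001229 0.000282 0.000319 hr (B5Go_C22 (t := t + (-2) * h) hβ hr hκ hk1 hk2 (by linarith only [hta, htb, hh1, hh2]) (by linarith only [hta, htb, hh1, hh2])) hY (by norm_num) (by norm_num) (by norm_num) (by norm_num) (by linarith only [hV, hta, htb, hh1, hh2]) (ex_un 10 0.4999 (by norm_num) (by norm_num) (by norm_num) (by norm_num)) (by norm_num) (by norm_num) (by linarith only [hV, hta, htb, hh1, hh2]) (ex_un 9 0.0049 (by norm_num) (by norm_num)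 (by norm_num) (by norm_num)) (by norm_num) (by norm_num)

private theorem B5Go_K28 {β r t κ h : ℝ} (hβ : 0 < β) (hr : 10 ≤ r) (hκ : κ = β * r) (hk1 : 0.8 ≤ κ) (hk2 : κ ≤ 0.9)
    (hh : h = 2 * Real.pi / 5) (hh1 : 1.25663 ≤ h) (hh2 : h ≤ 1.25664) (hta : 0.251 ≤ t + κ) (htb : t + κ ≤ 0.415)
    (hY : 0.8148 * Real.exp (r * sE κ t) ≤ ‖Xf β r h t 1‖) (hV : 1.02865 - 0.1879 * (t + κ) ≤ sE κ t) :
    ‖Xf β r h t (-2)‖ ≤ 0.000405 * ‖Xf β r h t 1‖ := by
  rw [v5_Xm2 hh]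
  exact v5_cmp0 0.8906 0.0001375 0.000405 hr (B5Go_C23 (t := t + 2 * h) hβ hr hκ hk1 hk2 (by linarith only [hta, htb, hh1, hh2]) (by linarith only [hta, htb, hh1, hh2])) hY (by norm_num) (by norm_num) (by norm_num) (by linarith only [hV, hta, htb, hh1, hh2]) (ex_un 8 0.9059 (by norm_num) (by norm_num) (by norm_num) (by norm_num)) (by norm_num)

private theorem B5Go_G29 {κ : ℝ} (hk1 : 0.8 ≤ κ) (hk2 : κ ≤ 0.9) : gG κ (-0.56) ≤ 1.24707 ∧ 2.44975 ≤ Real.exp (-(κ * (-0.56))) ^ 2 := by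
  refine ⟨gG_le (-0.56) 0.8 0.9 1.24707 1.56518 1.65533 0.63891 0.60412 hk1 hk2 (by norm_num)
    (ex_up 0.448 (by norm_num) (by norm_num) (by norm_num) (by norm_num)) (ex_up 0.504 (by norm_num) (by norm_num) (by norm_num) (by norm_num))
    (ex_um 0.448 (by norm_num) (by norm_num) (by norm_num) (by norm_num)) (ex_um 0.504 (by norm_num) (by norm_num) (by norm_num) (by norm_num))
    (by norm_num) (by norm_num), ?_⟩
  exact v5_M 1.56517 (ex_lp 0.448 (by linarith) (by norm_num) (by norm_num)) (by norm_num) (by norm_num)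

private theorem B5Go_C30 {β r t κ : ℝ} (hβ : 0 < β) (hr : 10 ≤ r) (hκ : κ = β * r) (hk1 : 0.8 ≤ κ) (hk2 : κ ≤ 0.9) (hta : (-1.0057) ≤ t + κ)
    (htb : t + κ ≤ (-0.8416)) : ‖F (cexp (I * β)) (r * cexp (I * ((t + β / 2 : ℝ) : ℂ)))‖ ≤
      1.1327 * Real.exp (r * (1.24707 - (-0.56) * (t + κ))) + 1.718 * Real.exp (r * 0.0501) :=
  v5_HU (-0.56) 0.8 0.9 (-1.0057) (-0.8416) 1.24707 1.1327 2.44975 0.1197 0.8556 2.8062 0 0.0501 0.00000136 1.718 hβ hr hκ (by norm_num) hk1 hk2 hta htb (by norm_num) (by norm_num) (B5Go_G29 hk1 hk2).1 (B5Go_G29 hk1 hk2).2 (by norm_num) (by norm_num) (by norm_num)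
    (by norm_num) (by norm_num) (by norm_num) (by norm_num) (by norm_num) (by norm_num) (by norm_num)
    (by norm_num) (by norm_num) (by norm_num) (v5_hump 5.0071 11.111 3.3334 0.0000009316 0.00000136 hβ hr hκ hk1 hk2 (by norm_num) htb (by norm_num) (by norm_num) (by norm_num) (by norm_num) (by norm_num) (by norm_num) (by norm_num) (ex_un 13 0.9 (by norm_num) (by norm_num) (by norm_num) (by norm_num)) (by norm_num)) (by norm_num)

private theorem B5Go_K31 {β r t κ h : ℝ} (hβ : 0 < β) (hr : 10 ≤ r) (hκ : κ = β * r) (hk1 : 0.8 ≤ κ) (hk2 : κ ≤ 0.9)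
    (hh : h = 2 * Real.pi / 5) (hh1 : 1.25663 ≤ h) (hh2 : h ≤ 1.25664) (hta : 0.251 ≤ t + κ) (htb : t + κ ≤ 0.415)
    (hY : 0.8148 * Real.exp (r * sE κ t) ≤ ‖Xf β r h t 1‖) (hV : 1.02865 - 0.1879 * (t + κ) ≤ sE κ t) :
    ‖Xf β r h t 0‖ ≤ 0.245 * ‖Xf β r h t 1‖ := by
  rw [v5_X 0 (-1) (by push_cast; ring)]
  exact v5_cmp 0.1749 0.1753 0.244 0.9005 0.0001229 0.00026 0.245 hr (B5Go_C30 (t := t + (-1) * h) hβ hr hκ hk1 hk2 (by linarith only [hta, htb, hh1, hh2]) (by linarith only [hta, htb, hh1, hh2])) hY (by norm_num) (by norm_num) (by norm_num) (by norm_num) (by linarith only [hV, hta, htb, hh1, hh2]) (ex_un 1 0.7489 (by norm_num) (by norm_num) (by norm_num) (by norm_num)) (by norm_num) (by norm_num) (by linarith only [hV, hta, htb, hh1, hh2]) (ex_un 9 0.0049 (by norm_num) (by norm_num) (by norm_num) (by norm_num)) (by norm_num) (by norm_num)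

private theorem B5Go_O32 {β r t κ h : ℝ} (hβ : 0 < β) (hr : 10 ≤ r) (hκ : κ = β * r) (hk1 : 0.8 ≤ κ) (hk2 : κ ≤ 0.9)
    (hh : h = 2 * Real.pi / 5) (hta : 0.251 ≤ t + κ) (htb : t + κ ≤ 0.415) :
    ‖Xf β r h t (-2)‖ + ‖Xf β r h t (-1)‖ + ‖Xf β r h t 2‖ < |‖Xf β r h t 1‖ - ‖Xf β r h t 0‖| := by
  obtain ⟨hh1, hh2⟩ := v5_h hh
  have hκ0 : 0 < κ := by linarith only [hk1]
  have hN : β * 11.111 ≤ 1 := v5_hN 0.9 11.111 hβ hr hκ hk2 (by norm_num) (by norm_num)
  have hD1 : DomR κ t := v5_dom hκ0 (by linarith only [hta, htb, hk1, hk2, hh1, hh2]) (Or.inr (by linarith only [hta, htb, hk1, hk2, hh1, hh2]))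
  have e1 : t = t + (((1 : ℤ) : ℝ) - 1) * h := by push_cast; ring
  have hY := B5Go_Y24 (h := h) hβ hκ hN hk1 hk2 e1 hD1 hta htb
  have hV := B5Go_V25 hD1 hk1 hk2 hta htb
  have cp2 := B5Go_K26 hβ hr hκ hk1 hk2 hh hh1 hh2 hta htb hY hV
  have cm1 := B5Go_K27 hβ hr hκ hk1 hk2 hh hh1 hh2 hta htb hY hV
  have cm2 := B5Go_K28 hβ hr hκ hk1 hk2 hh hh1 hh2 hta htb hY hV
  have cn0 := B5Go_K31 hβ hr hκ hk1 hk2 hh hh1 hh2 hta htb hY hV
  have hp : 0 < ‖Xf β r h t 1‖ := lt_of_lt_of_le (by positivity) hY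
  exact v5_out1 _ _ _ _ cm2 cm1 cp2 cn0 hp (by norm_num)

private theorem B5Go_B33 {κ t : ℝ} (h : DomR κ t) (hk1 : 0.8 ≤ κ) (hk2 : κ ≤ 0.9) (ht1 : 0.415 ≤ t + κ) (ht2 : t + κ ≤ 0.5655) :
    (0.174 ≤ sy κ t ∧ sy κ t ≤ 0.236) ∧ (0.586 ≤ sx κ t ∧ sx κ t ≤ 0.736) ∧ κ * Real.exp (-sy κ t) ≤ 0.7563 ∧ 1.7998 ≤ sD κ t ∧ sD κ t ≤ 1.9773 := by
  have hy1 : 0.174 ≤ sy κ t := syR_ge h 0.8 0.9 0.415 0.174 1.19005 1.19006 0.23007 0.25884 hk1 hk2 (by linarith) (by norm_num) (by norm_num)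
    (expn_ge (by norm_num) (by norm_num)) (expn_le (by norm_num) (by norm_num) (by norm_num)) (by norm_num)
    (by norm_num) (by norm_num) (by norm_num) (by norm_num) (by norm_num) (by norm_num)
  have hy2 : sy κ t ≤ 0.236 := syR_le h 0.8 0.9 0.5655 0.236 1.26617 0.3216 0.33201 0.37353 hk1 hk2 (by linarith) (by norm_num) (by norm_num)
    (expn_ge (by norm_num) (by norm_num)) (by norm_num) (by norm_num) (Or.inr ((mul_le_mul_of_nonneg_left (expn_le (E := 1.26618) (by norm_num) (by norm_num) (by norm_num)) (by norm_num)).trans (by norm_num))) (by norm_num) (by norm_num) (by norm_num)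
  have hy1' : 0.174 ≤ sy κ t := by linarith
  have hy2' : sy κ t ≤ 0.236 := by linarith
  have hx1 : 0.586 ≤ sx κ t := sx_lo h 0.8 0.236 0.2361 0.78978 0.586 hk1 (by norm_num) hy2' (abs_le.2 ⟨by linarith, by linarith⟩) (ex_lm 0.236 (by norm_num) (by norm_num) (by norm_num) (by norm_num) (by norm_num)) (by norm_num) (by norm_num)
  have hx2 : sx κ t ≤ 0.736 := sx_hi h 0.9 0.174 0.174 0.8403 0.736 hk2 hy1' (by norm_num) (le_trans (by linarith) (le_abs_self _)) (ex_um 0.174 (by norm_num) (by norm_num) (by norm_num) (by norm_num)) (by norm_num) (by norm_num)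
  refine ⟨⟨hy1', hy2'⟩, ⟨hx1, hx2⟩, v5_n h 0.9 0.174 0.8403 0.7563 hk2 hy1' (ex_um 0.174 (by norm_num) (by norm_num) (by norm_num) (by norm_num)) (by norm_num), ?_, ?_⟩
  · exact v5_Dlo h 0.8 0.174 0.236 0.174 0.84029 1.7998 (by norm_num) hk1 hy1' hy2' (ex_lm 0.174 (by norm_num) (by norm_num) (by norm_num) (by norm_num) (by norm_num)) (by norm_num) (by norm_num) (by norm_num) (by norm_num)
  · exact v5_Dup h 0.9 0.174 0.236 0.8403 0.78979 1.9773 hk2 hy1' hy2' (ex_um 0.174 (by norm_num) (by norm_num) (by norm_num) (by norm_num)) (ex_um 0.236 (by norm_num) (by norm_num) (by norm_num) (by norm_num)) (by norm_num) (by norm_num) (by norm_num)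

private theorem B5Go_T34_0_0 {β x y : ℝ} (hβ : 0 < β) (hN : β * 11.111 ≤ 1) (hx1 : 0.5859 ≤ x) (hx2 : x ≤ 0.639)
    (hy1 : -0 ≤ y) (hy2 : y ≤ 0.2361) : ‖HH β (x + y * I) - 1‖ ≤ 0.035 := by
  refine le_epsJ (C := 0.3881) (N0 := 11.111) (J_boxp 0.5859 0.639 0 0.2361 0.2361 1.1226 0.6813 1.3915 0.9918 0.4706 3.3334 11.111 0.6069 2.206 1.311 1.1743 0.5612 0.4477 1.2088 3.7232 0.6155 1.2871 1.7298 2.9193 0.00196 0.006939 0.000001471 0.0000003101 0.001075 0.0000006161 0.0000003101 0.0000003101 0.3881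
    hβ hN hx1 hx2 hy1 hy2 (by norm_num) (by norm_num) (by linarith) (by norm_num) (by norm_num) (by norm_num) (by norm_num) (by norm_num) (by norm_num) (by norm_num) (by norm_num) (by norm_num) (by norm_num) (by norm_num) (by norm_num) (by norm_num) (by norm_num) (by norm_num) (by norm_num) (by norm_num) (by norm_num) (by norm_num) (by norm_num) (by norm_num)
    (cube_sqrt_geJ (s := 0.8931) (by norm_num) (by norm_num) (by norm_num) (by norm_num))
    (cube_sqrt_geJ (s := 0.9621) (by norm_num) (by norm_num) (by norm_num) (by norm_num))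
    (by norm_num) (by norm_num) (by norm_num) (by norm_num) (by norm_num) (by norm_num) (by norm_num) (by norm_num) (by norm_num) (by norm_num) (by norm_num) (by norm_num) (by norm_num) (by norm_num) (by norm_num) (by norm_num) (by norm_num) (by norm_num)
    (exp_neg_leJ (r := 0.235) 6 (by norm_num) (by norm_num) (by norm_num) (by norm_num))
    (exp_neg_leJ (r := 0.974) 4 (by norm_num) (by norm_num) (by norm_num) (by norm_num))
    (exp_neg_leJ (r := 0.43) 13 (by norm_num) (by norm_num) (by norm_num) (by norm_num))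
    (exp_neg_leJ (r := 0.99) 14 (by norm_num) (by norm_num) (by norm_num) (by norm_num))
    (exp_neg_leJ (r := 0.838) 6 (by norm_num) (by norm_num) (by norm_num) (by norm_num))
    (exp_neg_leJ (r := 0.3) 14 (by norm_num) (by norm_num) (by norm_num) (by norm_num))
    (exp_neg_leJ (r := 0.99) 14 (by norm_num) (by norm_num) (by norm_num) (by norm_num))
    (exp_neg_leJ (r := 0.99) 14 (by norm_num) (by norm_num) (by norm_num) (by norm_num))
    (by norm_num)) (by norm_num) hN hβ.le (by norm_num)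

private theorem B5Go_T34_0_1 {β x y : ℝ} (hβ : 0 < β) (hN : β * 11.111 ≤ 1) (hx1 : 0.639 ≤ x) (hx2 : x ≤ 0.694)
    (hy1 : -0 ≤ y) (hy2 : y ≤ 0.2361) : ‖HH β (x + y * I) - 1‖ ≤ 0.035 := by
  refine le_epsJ (C := 0.388) (N0 := 11.111) (J_boxp 0.639 0.694 0 0.2361 0.2361 1.16 0.7331 1.4176 0.953 0.475 3.3334 11.111 0.632 2.289 1.326 1.1531 0.5799 0.4578 1.227 3.6923 0.6413 1.3606 1.836 2.8847 0.001592 0.006183 0.000001201 0.0000003101 0.0008048 0.0000003101 0.0000003101 0.0000003101 0.388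
    hβ hN hx1 hx2 hy1 hy2 (by norm_num) (by norm_num) (by linarith) (by norm_num) (by norm_num) (by norm_num) (by norm_num) (by norm_num) (by norm_num) (by norm_num) (by norm_num) (by norm_num) (by norm_num) (by norm_num) (by norm_num) (by norm_num) (by norm_num) (by norm_num) (by norm_num) (by norm_num) (by norm_num) (by norm_num) (by norm_num) (by norm_num)
    (cube_sqrt_geJ (s := 0.8884) (by norm_num) (by norm_num) (by norm_num) (by norm_num))
    (cube_sqrt_geJ (s := 0.9605) (by norm_num) (by norm_num) (by norm_num) (by norm_num))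
    (by norm_num) (by norm_num) (by norm_num) (by norm_num) (by norm_num) (by norm_num) (by norm_num) (by norm_num) (by norm_num) (by norm_num) (by norm_num) (by norm_num) (by norm_num) (by norm_num) (by norm_num) (by norm_num) (by norm_num) (by norm_num)
    (exp_neg_leJ (r := 0.443) 6 (by norm_num) (by norm_num) (by norm_num) (by norm_num))
    (exp_neg_leJ (r := 0.086) 5 (by norm_num) (by norm_num) (by norm_num) (by norm_num))
    (exp_neg_leJ (r := 0.633) 13 (by norm_num) (by norm_num) (by norm_num) (by norm_num))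
    (exp_neg_leJ (r := 0.99) 14 (by norm_num) (by norm_num) (by norm_num) (by norm_num))
    (exp_neg_leJ (r := 0.125) 7 (by norm_num) (by norm_num) (by norm_num) (by norm_num))
    (exp_neg_leJ (r := 0.99) 14 (by norm_num) (by norm_num) (by norm_num) (by norm_num))
    (exp_neg_leJ (r := 0.99) 14 (by norm_num) (by norm_num) (by norm_num) (by norm_num))
    (exp_neg_leJ (r := 0.99) 14 (by norm_num) (by norm_num) (by norm_num) (by norm_num))
    (by norm_num)) (by norm_num) hN hβ.le (by norm_num)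

private theorem B5Go_T34_0_2 {β x y : ℝ} (hβ : 0 < β) (hN : β * 11.111 ≤ 1) (hx1 : 0.694 ≤ x) (hx2 : x ≤ 0.7361)
    (hy1 : -0 ≤ y) (hy2 : y ≤ 0.2361) : ‖HH β (x + y * I) - 1‖ ≤ 0.035 := by
  refine le_epsJ (C := 0.3755) (N0 := 11.111) (J_boxp 0.694 0.7361 0 0.2361 0.2361 1.1987 0.7731 1.4387 0.914 0.4786 3.3334 11.111 0.645 2.334 1.334 1.137 0.5993 0.4704 1.2458 3.6685 0.668 1.4368 1.946 2.886 0.001285 0.005376 0.0000009756 0.0000003101 0.0005981 0.0000003101 0.0000003101 0.0000003101 0.3755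
    hβ hN hx1 hx2 hy1 hy2 (by norm_num) (by norm_num) (by linarith) (by norm_num) (by norm_num) (by norm_num) (by norm_num) (by norm_num) (by norm_num) (by norm_num) (by norm_num) (by norm_num) (by norm_num) (by norm_num) (by norm_num) (by norm_num) (by norm_num) (by norm_num) (by norm_num) (by norm_num) (by norm_num) (by norm_num) (by norm_num) (by norm_num)
    (cube_sqrt_geJ (s := 0.886) (by norm_num) (by norm_num) (by norm_num) (by norm_num))
    (cube_sqrt_geJ (s := 0.9597) (by norm_num) (by norm_num) (by norm_num) (by norm_num))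
    (by norm_num) (by norm_num) (by norm_num) (by norm_num) (by norm_num) (by norm_num) (by norm_num) (by norm_num) (by norm_num) (by norm_num) (by norm_num) (by norm_num) (by norm_num) (by norm_num) (by norm_num) (by norm_num) (by norm_num) (by norm_num)
    (exp_neg_leJ (r := 0.658) 6 (by norm_num) (by norm_num) (by norm_num) (by norm_num))
    (exp_neg_leJ (r := 0.226) 5 (by norm_num) (by norm_num) (by norm_num) (by norm_num))
    (exp_neg_leJ (r := 0.842) 13 (by norm_num) (by norm_num) (by norm_num) (by norm_num))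
    (exp_neg_leJ (r := 0.99) 14 (by norm_num) (by norm_num) (by norm_num) (by norm_num))
    (exp_neg_leJ (r := 0.422) 7 (by norm_num) (by norm_num) (by norm_num) (by norm_num))
    (exp_neg_leJ (r := 0.99) 14 (by norm_num) (by norm_num) (by norm_num) (by norm_num))
    (exp_neg_leJ (r := 0.99) 14 (by norm_num) (by norm_num) (by norm_num) (by norm_num))
    (exp_neg_leJ (r := 0.99) 14 (by norm_num) (by norm_num) (by norm_num) (by norm_num))
    (by norm_num)) (by norm_num) hN hβ.le (by norm_num)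

private theorem B5Go_T34 {β x y : ℝ} (hβ : 0 < β) (hN : β * 11.111 ≤ 1) (hx1 : 0.5859 ≤ x) (hx2 : x ≤ 0.7361)
    (hy1 : 0.1739 ≤ y) (hy2 : y ≤ 0.2361) : ‖HH β (x + y * I) - 1‖ ≤ 0.035 := by
  rcases le_total x 0.639 with hxx | hxx
  · exact B5Go_T34_0_0 hβ hN (by linarith) (by linarith) (by linarith) (by linarith)
  rcases le_total x 0.694 with hxx | hxx
  · exact B5Go_T34_0_1 hβ hN (by linarith) (by linarith) (by linarith) (by linarith)
  exact B5Go_T34_0_2 hβ hN (by linarith) (by linarith) (by linarith) (by linarith)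

private theorem B5Go_G35 {κ : ℝ} (hk1 : 0.8 ≤ κ) (hk2 : κ ≤ 0.9) : gG κ 0.48 ≤ 1.27116 ∧ 0.42146 ≤ Real.exp (-(κ * 0.48)) ^ 2 := by
  refine ⟨gG_le 0.48 0.8 0.9 1.27116 0.68114 0.64921 1.46815 1.54034 hk1 hk2 (by norm_num)
    (ex_um 0.384 (by norm_num) (by norm_num) (by norm_num) (by norm_num)) (ex_um 0.432 (by norm_num) (by norm_num) (by norm_num) (by norm_num))
    (ex_up 0.384 (by norm_num) (by norm_num) (by norm_num) (by norm_num)) (ex_up 0.432 (by norm_num) (by norm_num) (by norm_num) (by norm_num))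
    (by norm_num) (by norm_num), ?_⟩
  exact v5_M 0.6492 (ex_lm 0.432 (by linarith) (by norm_num) (by norm_num) (by norm_num) (by norm_num)) (by norm_num) (by norm_num)

private theorem B5Go_C36 {β r t κ : ℝ} (hβ : 0 < β) (hr : 10 ≤ r) (hκ : κ = β * r) (hk1 : 0.8 ≤ κ) (hk2 : κ ≤ 0.9) (hta : 1.6716 ≤ t + κ)
    (htb : t + κ ≤ 1.8222) : ‖F (cexp (I * β)) (r * cexp (I * ((t + β / 2 : ℝ) : ℂ)))‖ ≤
      2.1655 * Real.exp (r * (1.27116 - 0.48 * (t + κ))) + 0.1709 * Real.exp (r * 0) :=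
  v5_H 0.48 0.8 0.9 1.6716 1.8222 1.27116 2.0712 0.42146 0.1197 2.3422 0.5484 0.08517 0.4316 0.00000136 2.1655 0.1709 hβ hr hκ (by norm_num) hk1 hk2 hta htb (by norm_num) (B5Go_G35 hk1 hk2).1 (B5Go_G35 hk1 hk2).2 (by norm_num) (by norm_num) (by norm_num)
    (by norm_num) (by norm_num) (by norm_num) (by norm_num) (by norm_num) (by norm_num) (by norm_num) (by norm_num) (ex_un 0 0.8516 (by norm_num) (by norm_num) (by norm_num) (by norm_num))
    (v5_hump 2.3433 11.111 3.3334 0.0000009316 0.00000136 hβ hr hκ hk1 hk2 (by norm_num) htb (by norm_num) (by norm_num) (by norm_num) (by norm_num) (by norm_num) (by norm_num) (by norm_num) (ex_un 13 0.9 (by norm_num) (by norm_num) (by norm_num) (by norm_num)) (by norm_num)) (by norm_num) (by norm_num)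

private theorem B5Go_C37 {β r t κ : ℝ} (hβ : 0 < β) (hr : 10 ≤ r) (hκ : κ = β * r) (hk1 : 0.8 ≤ κ) (hk2 : κ ≤ 0.9) (hta : (-2.0983) ≤ t + κ)
    (htb : t + κ ≤ (-1.9477)) : ‖F (cexp (I * β)) (r * cexp (I * ((t + β / 2 : ℝ) : ℂ)))‖ ≤
      1.0773 * Real.exp (r * (1.39041 - (-0.71) * (t + κ))) + 1.8607 * Real.exp (r * 0.0501) :=
  v5_HU (-0.71) 0.8 0.9 (-2.0983) (-1.9477) 1.39041 1.0773 3.11423 0.1197 0.8556 1.7136 0 0.0501 0.00000136 1.8607 hβ hr hκ (by norm_num) hk1 hk2 hta htb (by norm_num) (by norm_num) (B5Go_G21 hk1 hk2).1 (B5Go_G21 hk1 hk2).2 (by norm_num) (by norm_num) (by norm_num)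
    (by norm_num) (by norm_num) (by norm_num) (by norm_num) (by norm_num) (by norm_num) (by norm_num)
    (by norm_num) (by norm_num) (by norm_num) (v5_hump 6.1132 11.111 3.3334 0.0000009316 0.00000136 hβ hr hκ hk1 hk2 (by norm_num) htb (by norm_num) (by norm_num) (by norm_num) (by norm_num) (by norm_num) (by norm_num) (by norm_num) (ex_un 13 0.9 (by norm_num) (by norm_num) (by norm_num) (by norm_num)) (by norm_num)) (by norm_num)

private theorem B5Go_C38 {β r t κ : ℝ} (hβ : 0 < β) (hr : 10 ≤ r) (hκ : κ = β * r) (hk1 : 0.8 ≤ κ) (hk2 : κ ≤ 0.9) (hta : 2.9282 ≤ t + κ)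
    (htb : t + κ ≤ 3.0788) : ‖F (cexp (I * β)) (r * cexp (I * ((t + β / 2 : ℝ) : ℂ)))‖ ≤
      2.3077 * Real.exp (r * (0.01 + 1 / 20)) :=
  v5_UD 0.8 0.9 2.9282 3.0788 0.01 0.4461 0.01 1.2031 2.3077 hβ hr hκ (by norm_num) hk1 hk2 hta htb (by norm_num) (by norm_num) (by norm_num) (by norm_num) (by norm_num) (by norm_num) (by norm_num) (by norm_num) (by norm_num) (by norm_num) (by norm_num)

private theorem B5Go_Y39 {β r t κ h t' : ℝ} (hβ : 0 < β) (hκ : κ = β * r) (hN : β * 11.111 ≤ 1) (hk1 : 0.8 ≤ κ) (hk2 : κ ≤ 0.9)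
    (ht : t' = t + (((1 : ℤ) : ℝ) - 1) * h) (hD : DomR κ t') (hta : 0.415 ≤ t' + κ) (htb : t' + κ ≤ 0.5655) :
    0.8137 * Real.exp (r * sE κ t') ≤ ‖Xf β r h t 1‖ := by
  obtain ⟨⟨ya, yb⟩, ⟨xa, xb⟩, n1, Da, Db⟩ := B5Go_B33 hD hk1 hk2 hta htb
  have J := B5Go_T34 (x := sx κ t') (y := sy κ t') hβ hN (by linarith only [xa, xb, ya, yb]) (by linarith only [xa, xb, ya, yb]) (by linarith only [xa, xb, ya, yb]) (by linarith only [xa, xb, ya, yb])
  exact v5_Jlo hβ hκ (k := 1) ht hD 0.035 1.9773 0.8137 (by norm_num) J Db (by norm_num)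

private theorem B5Go_V40 {κ t : ℝ} (hD : DomR κ t) (hk1 : 0.8 ≤ κ) (hk2 : κ ≤ 0.9) (hta : 0.415 ≤ t + κ) (htb : t + κ ≤ 0.5655) :
    1.06245 - 0.2702 * (t + κ) ≤ sE κ t := by
  have hκ0 : 0 < κ := hD.1
  exact v5_V1 hD 0.8 0.9 0.415 0.5655 0.06488 0.20031 0.31466 1.06245 0.2702 (by norm_num) hk1 hk2 (by norm_num) (by norm_num) hta htb (by norm_num) (clo5 0.8 0.9 0.31466 (by norm_num) hk1 hk2 (by norm_num) (by norm_num) (by norm_num))
      ((cup1 0.9 hκ0.le hk2 (by norm_num)).trans (by norm_num)) (by norm_num) (by norm_num) (by norm_num) (by norm_num) (by norm_num) (by norm_num)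

private theorem B5Go_K41 {β r t κ h : ℝ} (hβ : 0 < β) (hr : 10 ≤ r) (hκ : κ = β * r) (hk1 : 0.8 ≤ κ) (hk2 : κ ≤ 0.9)
    (hh : h = 2 * Real.pi / 5) (hh1 : 1.25663 ≤ h) (hh2 : h ≤ 1.25664) (hta : 0.415 ≤ t + κ) (htb : t + κ ≤ 0.5655)
    (hY : 0.8137 * Real.exp (r * sE κ t) ≤ ‖Xf β r h t 1‖) (hV : 1.06245 - 0.2702 * (t + κ) ≤ sE κ t) :
    ‖Xf β r h t 2‖ ≤ 0.0219 * ‖Xf β r h t 1‖ := by
  rw [v5_X 2 1 (by push_cast; ring)]
  exact v5_cmp 0.4815 0.008188 0.0218 0.9096 0.0001122 0.0000236 0.0219 hr (B5Go_C36 (t := t + 1 * h) hβ hr hκ hk1 hk2 (by linarith only [hta, htb, hh1, hh2]) (by linarith only [hta, htb, hh1, hh2])) hY (by norm_num) (by norm_num) (by norm_num) (by norm_num) (by linarith only [hV, hta, htb, hh1, hh2]) (ex_un 4 0.8149 (by norm_num) (by norm_num) (by norm_num) (by norm_num)) (by norm_num) (by norm_num) (by linarith only [hV, hta, htb, hh1, hh2]) (ex_un 9 0.0959 (by norm_num) (by norm_num) (by norm_num) (by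 norm_num)) (by norm_num) (by norm_num)

private theorem B5Go_K42 {β r t κ h : ℝ} (hβ : 0 < β) (hr : 10 ≤ r) (hκ : κ = β * r) (hk1 : 0.8 ≤ κ) (hk2 : κ ≤ 0.9)
    (hh : h = 2 * Real.pi / 5) (hh1 : 1.25663 ≤ h) (hh2 : h ≤ 1.25664) (hta : 0.415 ≤ t + κ) (htb : t + κ ≤ 0.5655)
    (hY : 0.8137 * Real.exp (r * sE κ t) ≤ ‖Xf β r h t 1‖) (hV : 1.06245 - 0.2702 * (t + κ) ≤ sE κ t) :
    ‖Xf β r h t (-1)‖ ≤ 0.000587 * ‖Xf β r h t 1‖ := by
  rw [v5_X (-1) (-2) (by push_cast; ring)]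
  exact v5_cmp 0.9021 0.0001209 0.000161 0.8595 0.0001857 0.000425 0.000587 hr (B5Go_C37 (t := t + (-2) * h) hβ hr hκ hk1 hk2 (by linarith only [hta, htb, hh1, hh2]) (by linarith only [hta, htb, hh1, hh2])) hY (by norm_num) (by norm_num) (by norm_num) (by norm_num) (by linarith only [hV, hta, htb, hh1, hh2]) (ex_un 9 0.0209 (by norm_num) (by norm_num) (by norm_num) (by norm_num)) (by norm_num) (by norm_num) (by linarith only [hV, hta, htb, hh1, hh2]) (ex_un 8 0.5949 (by norm_num) (by norm_num) (by norm_num) (by norm_num)) (by norm_num) (by norm_num)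

private theorem B5Go_K43 {β r t κ h : ℝ} (hβ : 0 < β) (hr : 10 ≤ r) (hκ : κ = β * r) (hk1 : 0.8 ≤ κ) (hk2 : κ ≤ 0.9)
    (hh : h = 2 * Real.pi / 5) (hh1 : 1.25663 ≤ h) (hh2 : h ≤ 1.25664) (hta : 0.415 ≤ t + κ) (htb : t + κ ≤ 0.5655)
    (hY : 0.8137 * Real.exp (r * sE κ t) ≤ ‖Xf β r h t 1‖) (hV : 1.06245 - 0.2702 * (t + κ) ≤ sE κ t) :
    ‖Xf β r h t (-2)‖ ≤ 0.000581 * ‖Xf β r h t 1‖ := by
  rw [v5_Xm2 hh]
  exact v5_cmp0 0.8496 0.0002047 0.000581 hr (B5Go_C38 (t := t + 2 * h) hβ hr hκ hk1 hk2 (by linarith only [hta, htb, hh1, hh2]) (by linarith only [hta, htb, hh1, hh2])) hY (by norm_num) (by norm_num) (by norm_num) (by linarith only [hV, hta, htb, hh1, hh2]) (ex_un 8 0.4959 (by norm_num) (by norm_num) (by norm_num) (by norm_num)) (by norm_num)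

private theorem B5Go_G44 {κ : ℝ} (hk1 : 0.8 ≤ κ) (hk2 : κ ≤ 0.9) : gG κ (-0.47) ≤ 1.17652 ∧ 2.12121 ≤ Real.exp (-(κ * (-0.47))) ^ 2 := by
  refine ⟨gG_le (-0.47) 0.8 0.9 1.17652 1.45645 1.52654 0.68661 0.65508 hk1 hk2 (by norm_num)
    (ex_up 0.376 (by norm_num) (by norm_num) (by norm_num) (by norm_num)) (ex_up 0.423 (by norm_num) (by norm_num) (by norm_num) (by norm_num))
    (ex_um 0.376 (by norm_num) (by norm_num) (by norm_num) (by norm_num)) (ex_um 0.423 (by norm_num) (by norm_num) (by norm_num) (by norm_num))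
    (by norm_num) (by norm_num), ?_⟩
  exact v5_M 1.45644 (ex_lp 0.376 (by linarith) (by norm_num) (by norm_num)) (by norm_num) (by norm_num)

private theorem B5Go_C45 {β r t κ : ℝ} (hβ : 0 < β) (hr : 10 ≤ r) (hκ : κ = β * r) (hk1 : 0.8 ≤ κ) (hk2 : κ ≤ 0.9) (hta : (-0.8417) ≤ t + κ)
    (htb : t + κ ≤ (-0.6911)) : ‖F (cexp (I * β)) (r * cexp (I * ((t + β / 2 : ℝ) : ℂ)))‖ ≤
      1.1663 * Real.exp (r * (1.17652 - (-0.47) * (t + κ))) + 1.6464 * Real.exp (r * 0.0876) :=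
  v5_HU (-0.47) 0.8 0.9 (-0.8417) (-0.6911) 1.17652 1.1663 2.12121 0.1197 0.8556 2.9702 0.0798 0.0876 0.00000136 1.6464 hβ hr hκ (by norm_num) hk1 hk2 hta htb (by norm_num) (by norm_num) (B5Go_G44 hk1 hk2).1 (B5Go_G44 hk1 hk2).2 (by norm_num) (by norm_num) (by norm_num)
    (by norm_num) (by norm_num) (by norm_num) (by norm_num) (by norm_num) (by norm_num) (by norm_num)
    (by norm_num) (by norm_num) (by norm_num) (v5_hump 4.8566 11.111 3.3334 0.0000009316 0.00000136 hβ hr hκ hk1 hk2 (by norm_num) htb (by norm_num) (by norm_num) (by norm_num) (by norm_num) (by norm_num) (by norm_num) (by norm_num) (ex_un 13 0.9 (by norm_num) (by norm_num) (by norm_num) (by norm_num)) (by norm_num)) (by norm_num)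

private theorem B5Go_K46 {β r t κ h : ℝ} (hβ : 0 < β) (hr : 10 ≤ r) (hκ : κ = β * r) (hk1 : 0.8 ≤ κ) (hk2 : κ ≤ 0.9)
    (hh : h = 2 * Real.pi / 5) (hh1 : 1.25663 ≤ h) (hh2 : h ≤ 1.25664) (hta : 0.415 ≤ t + κ) (htb : t + κ ≤ 0.5655)
    (hY : 0.8137 * Real.exp (r * sE κ t) ≤ ‖Xf β r h t 1‖) (hV : 1.06245 - 0.2702 * (t + κ) ≤ sE κ t) :
    ‖Xf β r h t 0‖ ≤ 0.807 * ‖Xf β r h t 1‖ := by
  rw [v5_X 0 (-1) (by push_cast; ring)]
  exact v5_cmp 0.0579 0.5622 0.806 0.822 0.0002693 0.000545 0.807 hr (B5Go_C45 (t := t + (-1) * h) hβ hr hκ hk1 hk2 (by linarith only [hta, htb, hh1, hh2]) (by linarith only [hta, htb, hh1, hh2])) hY (by norm_num) (by norm_num) (by norm_num) (by norm_num) (by linarith only [hV, hta, htb, hh1, hh2]) (ex_un 0 0.5789 (by norm_num) (by norm_num) (by norm_num) (by norm_num)) (by norm_num) (by norm_num) (by linarith only [hV, hta, htb, hh1, hh2]) (ex_un 8 0.2199 (by norm_num) (by norm_num) (by norm_num) (by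 norm_num)) (by norm_num) (by norm_num)

private theorem B5Go_O47 {β r t κ h : ℝ} (hβ : 0 < β) (hr : 10 ≤ r) (hκ : κ = β * r) (hk1 : 0.8 ≤ κ) (hk2 : κ ≤ 0.9)
    (hh : h = 2 * Real.pi / 5) (hta : 0.415 ≤ t + κ) (htb : t + κ ≤ 0.5655) :
    ‖Xf β r h t (-2)‖ + ‖Xf β r h t (-1)‖ + ‖Xf β r h t 2‖ < |‖Xf β r h t 1‖ - ‖Xf β r h t 0‖| := by
  obtain ⟨hh1, hh2⟩ := v5_h hh
  have hκ0 : 0 < κ := by linarith only [hk1]
  have hN : β * 11.111 ≤ 1 := v5_hN 0.9 11.111 hβ hr hκ hk2 (by norm_num) (by norm_num)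
  have hD1 : DomR κ t := v5_dom hκ0 (by linarith only [hta, htb, hk1, hk2, hh1, hh2]) (Or.inr (by linarith only [hta, htb, hk1, hk2, hh1, hh2]))
  have e1 : t = t + (((1 : ℤ) : ℝ) - 1) * h := by push_cast; ring
  have hY := B5Go_Y39 (h := h) hβ hκ hN hk1 hk2 e1 hD1 hta htb
  have hV := B5Go_V40 hD1 hk1 hk2 hta htb
  have cp2 := B5Go_K41 hβ hr hκ hk1 hk2 hh hh1 hh2 hta htb hY hV
  have cm1 := B5Go_K42 hβ hr hκ hk1 hk2 hh hh1 hh2 hta htb hY hV
  have cm2 := B5Go_K43 hβ hr hκ hk1 hk2 hh hh1 hh2 hta htb hY hV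
  have cn0 := B5Go_K46 hβ hr hκ hk1 hk2 hh hh1 hh2 hta htb hY hV
  have hp : 0 < ‖Xf β r h t 1‖ := lt_of_lt_of_le (by positivity) hY
  exact v5_out1 _ _ _ _ cm2 cm1 cp2 cn0 hp (by norm_num)

private theorem B5Go_B48 {κ t : ℝ} (h : DomR κ t) (hk1 : 0.8 ≤ κ) (hk2 : κ ≤ 0.9) (ht1 : (-0.4902) ≤ t + κ) (ht2 : t + κ ≤ (-0.3766)) :
    ((-0.282) ≤ sy κ t ∧ sy κ t ≤ (-0.207)) ∧ (0.9426 ≤ sx κ t ∧ sx κ t ≤ 1.1752) ∧ κ * Real.exp (-sy κ t) ≤ 1.1933 ∧ 1.5534 ≤ sD κ t ∧ sD κ t ≤ 1.8598 := by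
  have hy1 : -0.282 ≤ sy κ t := syL_ge h 0.8 0.9 0.4902 0.282 0.75427 0.75428 0.2511 0.23633 0.26589 hk1 hk2 (by linarith) (by norm_num) (by norm_num) (by norm_num)
    (expm_ge (by norm_num) (by norm_num) (by norm_num) (by norm_num)) (expm_le (by norm_num) (by norm_num) (by norm_num)) (by norm_num)
    (by norm_num) (by norm_num) (by norm_num) (by norm_num) (by norm_num) (by norm_num)
  have hy2 : sy κ t ≤ -0.207 := syL_le h 0.8 0.9 0.3766 0.207 0.81301 0.81302 0.18699 0.21037 hk1 hk2 (by linarith) (by norm_num) (by norm_num) (by norm_num)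
    (expm_ge (by norm_num) (by norm_num) (by norm_num) (by norm_num)) (expm_le (by norm_num) (by norm_num) (by norm_num)) (by norm_num)
    (by norm_num) (by norm_num) (by norm_num) (by norm_num) (by norm_num) (by norm_num)
  have hy1' : (-0.282) ≤ sy κ t := by linarith
  have hy2' : sy κ t ≤ (-0.207) := by linarith
  have hx1 : 0.9426 ≤ sx κ t := sx_lo h 0.8 (-0.207) 0.2821 1.22998 0.9426 hk1 (by norm_num) hy2' (abs_le.2 ⟨by linarith, by linarith⟩) (ex_lp 0.207 (by norm_num) (by norm_num) (by norm_num)) (by norm_num) (by norm_num)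
  have hx2 : sx κ t ≤ 1.1752 := sx_hi h 0.9 (-0.282) 0.207 1.32578 1.1752 hk2 hy1' (by norm_num) (le_trans (by linarith) (neg_le_abs _)) (ex_up 0.282 (by norm_num) (by norm_num) (by norm_num) (by norm_num)) (by norm_num) (by norm_num)
  refine ⟨⟨hy1', hy2'⟩, ⟨hx1, hx2⟩, v5_n h 0.9 (-0.282) 1.32578 1.1933 hk2 hy1' (ex_up 0.282 (by norm_num) (by norm_num) (by norm_num) (by norm_num)) (by norm_num), ?_, ?_⟩
  · exact v5_Dlo h 0.8 (-0.282) (-0.207) (-0.222) 1.24857 1.5534 (by norm_num) hk1 hy1' hy2' (ex_lp 0.222 (by norm_num) (by norm_num) (by norm_num)) (by norm_num) (by norm_num) (by norm_num) (by norm_num)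
  · exact v5_Dup h 0.9 (-0.282) (-0.207) 1.32578 1.22999 1.8598 hk2 hy1' hy2' (ex_up 0.282 (by norm_num) (by norm_num) (by norm_num) (by norm_num)) (ex_up 0.207 (by norm_num) (by norm_num) (by norm_num) (by norm_num)) (by norm_num) (by norm_num) (by norm_num)

private theorem B5Go_T49_0_0 {β x y : ℝ} (hβ : 0 < β) (hN : β * 11.111 ≤ 1) (hx1 : 0.9425 ≤ x) (hx2 : x ≤ 1.022)
    (hy1 : -0.2821 ≤ y) (hy2 : y ≤ -0.2069) : ‖HH β (x + y * I) - 1‖ ≤ 0.07 := by
  refine le_epsJ (C := 0.7765) (N0 := 11.111) (J_boxp 0.9425 1.022 0.2821 0 (-0.2069) 1.1734 1.0603 1.2937 0.8949 0.4538 3.3334 11.111 0.9037 3.507 1.508 0.7666 0.5866 0.4099 0.8856 2.6175 0.6587 1.8049 2.6888 3.7148 0.001479 0.01053 0.00005343 0.0000003101 0.0006636 0.0000003101 0.0000003101 0.0000003101 0.7765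
    hβ hN hx1 hx2 hy1 hy2 (by norm_num) (by norm_num) (by linarith) (by norm_num) (by norm_num) (by norm_num) (by norm_num) (by norm_num) (by norm_num) (by norm_num) (by norm_num) (by norm_num) (by norm_num) (by norm_num) (by norm_num) (by norm_num) (by norm_num) (by norm_num) (by norm_num) (by norm_num) (by norm_num) (by norm_num) (by norm_num) (by norm_num)
    (cube_sqrt_geJ (s := 0.8359) (by norm_num) (by norm_num) (by norm_num) (by norm_num))
    (cube_sqrt_geJ (s := 0.943) (by norm_num) (by norm_num) (by norm_num) (by norm_num))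
    (by norm_num) (by norm_num) (by norm_num) (by norm_num) (by norm_num) (by norm_num) (by norm_num) (by norm_num) (by norm_num) (by norm_num) (by norm_num) (by norm_num) (by norm_num) (by norm_num) (by norm_num) (by norm_num) (by norm_num) (by norm_num)
    (exp_neg_leJ (r := 0.517) 6 (by norm_num) (by norm_num) (by norm_num) (by norm_num))
    (exp_neg_leJ (r := 0.554) 4 (by norm_num) (by norm_num) (by norm_num) (by norm_num))
    (exp_neg_leJ (r := 0.839) 9 (by norm_num) (by norm_num) (by norm_num) (by norm_num))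
    (exp_neg_leJ (r := 0.99) 14 (by norm_num) (by norm_num) (by norm_num) (by norm_num))
    (exp_neg_leJ (r := 0.318) 7 (by norm_num) (by norm_num) (by norm_num) (by norm_num))
    (exp_neg_leJ (r := 0.99) 14 (by norm_num) (by norm_num) (by norm_num) (by norm_num))
    (exp_neg_leJ (r := 0.99) 14 (by norm_num) (by norm_num) (by norm_num) (by norm_num))
    (exp_neg_leJ (r := 0.99) 14 (by norm_num) (by norm_num) (by norm_num) (by norm_num))
    (by norm_num)) (by norm_num) hN hβ.le (by norm_num)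

private theorem B5Go_T49_0_1 {β x y : ℝ} (hβ : 0 < β) (hN : β * 11.111 ≤ 1) (hx1 : 1.022 ≤ x) (hx2 : x ≤ 1.107)
    (hy1 : -0.2821 ≤ y) (hy2 : y ≤ -0.2069) : ‖HH β (x + y * I) - 1‖ ≤ 0.07 := by
  refine le_epsJ (C := 0.7766) (N0 := 11.111) (J_boxp 1.022 1.107 0.2821 0 (-0.2069) 1.2293 1.1424 1.3618 0.8562 0.4656 3.3334 11.111 0.9294 3.662 1.527 0.7339 0.6146 0.4242 0.9128 2.5691 0.6973 1.915 2.8478 3.6507 0.001085 0.008986 0.0000394 0.0000003101 0.0004325 0.0000003101 0.0000003101 0.0000003101 0.7766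
    hβ hN hx1 hx2 hy1 hy2 (by norm_num) (by norm_num) (by linarith) (by norm_num) (by norm_num) (by norm_num) (by norm_num) (by norm_num) (by norm_num) (by norm_num) (by norm_num) (by norm_num) (by norm_num) (by norm_num) (by norm_num) (by norm_num) (by norm_num) (by norm_num) (by norm_num) (by norm_num) (by norm_num) (by norm_num) (by norm_num) (by norm_num)
    (cube_sqrt_geJ (s := 0.8307) (by norm_num) (by norm_num) (by norm_num) (by norm_num))
    (cube_sqrt_geJ (s := 0.9413) (by norm_num) (by norm_num) (by norm_num) (by norm_num))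
    (by norm_num) (by norm_num) (by norm_num) (by norm_num) (by norm_num) (by norm_num) (by norm_num) (by norm_num) (by norm_num) (by norm_num) (by norm_num) (by norm_num) (by norm_num) (by norm_num) (by norm_num) (by norm_num) (by norm_num) (by norm_num)
    (exp_neg_leJ (r := 0.828) 6 (by norm_num) (by norm_num) (by norm_num) (by norm_num))
    (exp_neg_leJ (r := 0.713) 4 (by norm_num) (by norm_num) (by norm_num) (by norm_num))
    (exp_neg_leJ (r := 0.142) 10 (by norm_num) (by norm_num) (by norm_num) (by norm_num))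
    (exp_neg_leJ (r := 0.99) 14 (by norm_num) (by norm_num) (by norm_num) (by norm_num))
    (exp_neg_leJ (r := 0.747) 7 (by norm_num) (by norm_num) (by norm_num) (by norm_num))
    (exp_neg_leJ (r := 0.99) 14 (by norm_num) (by norm_num) (by norm_num) (by norm_num))
    (exp_neg_leJ (r := 0.99) 14 (by norm_num) (by norm_num) (by norm_num) (by norm_num))
    (exp_neg_leJ (r := 0.99) 14 (by norm_num) (by norm_num) (by norm_num) (by norm_num))
    (by norm_num)) (by norm_num) hN hβ.le (by norm_num)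

private theorem B5Go_T49_0_2 {β x y : ℝ} (hβ : 0 < β) (hN : β * 11.111 ≤ 1) (hx1 : 1.107 ≤ x) (hx2 : x ≤ 1.1753)
    (hy1 : -0.2821 ≤ y) (hy2 : y ≤ -0.2069) : ‖HH β (x + y * I) - 1‖ ≤ 0.07 := by
  refine le_epsJ (C := 0.7371) (N0 := 11.111) (J_boxp 1.107 1.1753 0.2821 0 (-0.2069) 1.2892 1.2087 1.4179 0.8135 0.4751 3.3334 11.111 0.9376 3.713 1.533 0.7076 0.6445 0.4431 0.9419 2.5301 0.7386 2.0327 3.0178 3.6404 0.0007763 0.007297 0.00002853 0.0000003101 0.0002731 0.0000003101 0.0000003101 0.0000003101 0.7371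
    hβ hN hx1 hx2 hy1 hy2 (by norm_num) (by norm_num) (by linarith) (by norm_num) (by norm_num) (by norm_num) (by norm_num) (by norm_num) (by norm_num) (by norm_num) (by norm_num) (by norm_num) (by norm_num) (by norm_num) (by norm_num) (by norm_num) (by norm_num) (by norm_num) (by norm_num) (by norm_num) (by norm_num) (by norm_num) (by norm_num) (by norm_num)
    (cube_sqrt_geJ (s := 0.8291) (by norm_num) (by norm_num) (by norm_num) (by norm_num))
    (cube_sqrt_geJ (s := 0.9408) (by norm_num) (by norm_num) (by norm_num) (by norm_num))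
    (by norm_num) (by norm_num) (by norm_num) (by norm_num) (by norm_num) (by norm_num) (by norm_num) (by norm_num) (by norm_num) (by norm_num) (by norm_num) (by norm_num) (by norm_num) (by norm_num) (by norm_num) (by norm_num) (by norm_num) (by norm_num)
    (exp_neg_leJ (r := 0.161) 7 (by norm_num) (by norm_num) (by norm_num) (by norm_num))
    (exp_neg_leJ (r := 0.923) 4 (by norm_num) (by norm_num) (by norm_num) (by norm_num))
    (exp_neg_leJ (r := 0.465) 10 (by norm_num) (by norm_num) (by norm_num) (by norm_num))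
    (exp_neg_leJ (r := 0.99) 14 (by norm_num) (by norm_num) (by norm_num) (by norm_num))
    (exp_neg_leJ (r := 0.206) 8 (by norm_num) (by norm_num) (by norm_num) (by norm_num))
    (exp_neg_leJ (r := 0.99) 14 (by norm_num) (by norm_num) (by norm_num) (by norm_num))
    (exp_neg_leJ (r := 0.99) 14 (by norm_num) (by norm_num) (by norm_num) (by norm_num))
    (exp_neg_leJ (r := 0.99) 14 (by norm_num) (by norm_num) (by norm_num) (by norm_num))
    (by norm_num)) (by norm_num) hN hβ.le (by norm_num)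

private theorem B5Go_T49 {β x y : ℝ} (hβ : 0 < β) (hN : β * 11.111 ≤ 1) (hx1 : 0.9425 ≤ x) (hx2 : x ≤ 1.1753)
    (hy1 : (-0.2821) ≤ y) (hy2 : y ≤ (-0.2069)) : ‖HH β (x + y * I) - 1‖ ≤ 0.07 := by
  rcases le_total x 1.022 with hxx | hxx
  · exact B5Go_T49_0_0 hβ hN (by linarith) (by linarith) (by linarith) (by linarith)
  rcases le_total x 1.107 with hxx | hxx
  · exact B5Go_T49_0_1 hβ hN (by linarith) (by linarith) (by linarith) (by linarith)
  exact B5Go_T49_0_2 hβ hN (by linarith) (by linarith) (by linarith) (by linarith)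

private theorem B5Go_G50 {κ : ℝ} (hk1 : 0.8 ≤ κ) (hk2 : κ ≤ 0.9) : gG κ 0.52 ≤ 1.33111 ∧ 0.39218 ≤ Real.exp (-(κ * 0.52)) ^ 2 := by
  refine ⟨gG_le 0.52 0.8 0.9 1.33111 0.65969 0.62626 1.51589 1.5968 hk1 hk2 (by norm_num)
    (ex_um 0.416 (by norm_num) (by norm_num) (by norm_num) (by norm_num)) (ex_um 0.468 (by norm_num) (by norm_num) (by norm_num) (by norm_num))
    (ex_up 0.416 (by norm_num) (by norm_num) (by norm_num) (by norm_num)) (ex_up 0.468 (by norm_num) (by norm_num) (by norm_num) (by norm_num))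
    (by norm_num) (by norm_num), ?_⟩
  exact v5_M 0.62625 (ex_lm 0.468 (by linarith) (by norm_num) (by norm_num) (by norm_num) (by norm_num)) (by norm_num) (by norm_num)

private theorem B5Go_C51 {β r t κ : ℝ} (hβ : 0 < β) (hr : 10 ≤ r) (hκ : κ = β * r) (hk1 : 0.8 ≤ κ) (hk2 : κ ≤ 0.9) (hta : 2.0231 ≤ t + κ)
    (htb : t + κ ≤ 2.1367) : ‖F (cexp (I * β)) (r * cexp (I * ((t + β / 2 : ℝ) : ℂ)))‖ ≤
      2.6407 * Real.exp (r * (1.33111 - 0.52 * (t + κ))) + 0.1642 * Real.exp (r * 0) :=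
  v5_H 0.52 0.8 0.9 2.0231 2.1367 1.33111 2.318 0.39218 0.1197 2.6937 0.2339 0.04629 0.6304 0.00000136 2.6407 0.1642 hβ hr hκ (by norm_num) hk1 hk2 hta htb (by norm_num) (B5Go_G50 hk1 hk2).1 (B5Go_G50 hk1 hk2).2 (by norm_num) (by norm_num) (by norm_num)
    (by norm_num) (by norm_num) (by norm_num) (by norm_num) (by norm_num) (by norm_num) (by norm_num) (by norm_num) (ex_un 0 0.4628 (by norm_num) (by norm_num) (by norm_num) (by norm_num))
    (v5_hump 2.0288 11.111 3.3334 0.0000009316 0.00000136 hβ hr hκ hk1 hk2 (by norm_num) htb (by norm_num) (by norm_num) (by norm_num) (by norm_num) (by norm_num) (by norm_num) (by norm_num) (ex_un 13 0.9 (by norm_num) (by norm_num) (by norm_num) (by norm_num)) (by norm_num)) (by norm_num) (by norm_num)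

private theorem B5Go_C52 {β r t κ : ℝ} (hβ : 0 < β) (hr : 10 ≤ r) (hκ : κ = β * r) (hk1 : 0.8 ≤ κ) (hk2 : κ ≤ 0.9) (hta : (-1.7468) ≤ t + κ)
    (htb : t + κ ≤ (-1.6332)) : ‖F (cexp (I * β)) (r * cexp (I * ((t + β / 2 : ℝ) : ℂ)))‖ ≤
      1.0773 * Real.exp (r * (1.39041 - (-0.71) * (t + κ))) + 1.8488 * Real.exp (r * 0.0501) :=
  v5_HU (-0.71) 0.8 0.9 (-1.7468) (-1.6332) 1.39041 1.0773 3.11423 0.1197 0.8556 2.0651 0 0.0501 0.00000136 1.8488 hβ hr hκ (by norm_num) hk1 hk2 hta htb (by norm_num) (by norm_num) (B5Go_G21 hk1 hk2).1 (B5Go_G21 hk1 hk2).2 (by norm_num) (by norm_num) (by norm_num)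
    (by norm_num) (by norm_num) (by norm_num) (by norm_num) (by norm_num) (by norm_num) (by norm_num)
    (by norm_num) (by norm_num) (by norm_num) (v5_hump 5.7987 11.111 3.3334 0.0000009316 0.00000136 hβ hr hκ hk1 hk2 (by norm_num) htb (by norm_num) (by norm_num) (by norm_num) (by norm_num) (by norm_num) (by norm_num) (by norm_num) (ex_un 13 0.9 (by norm_num) (by norm_num) (by norm_num) (by norm_num)) (by norm_num)) (by norm_num)

private theorem B5Go_C53 {β r t κ : ℝ} (hβ : 0 < β) (hr : 10 ≤ r) (hκ : κ = β * r) (hk1 : 0.8 ≤ κ) (hk2 : κ ≤ 0.9) (hta : 3.2797 ≤ t + κ)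
    (htb : t + κ ≤ 3.3933) : ‖F (cexp (I * β)) (r * cexp (I * ((t + β / 2 : ℝ) : ℂ)))‖ ≤
      2.2369 * Real.exp (r * (0.01 + 1 / 20)) :=
  v5_UD 0.8 0.9 3.2797 3.3933 0.01 0.4461 0.01 1.1662 2.2369 hβ hr hκ (by norm_num) hk1 hk2 hta htb (by norm_num) (by norm_num) (by norm_num) (by norm_num) (by norm_num) (by norm_num) (by norm_num) (by norm_num) (by norm_num) (by norm_num) (by norm_num)

private theorem B5Go_Y54 {β r t κ h t' : ℝ} (hβ : 0 < β) (hκ : κ = β * r) (hN : β * 11.111 ≤ 1) (hk1 : 0.8 ≤ κ) (hk2 : κ ≤ 0.9)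
    (ht : t' = t + (((0 : ℤ) : ℝ) - 1) * h) (hD : DomR κ t') (hta : (-0.4902) ≤ t' + κ) (htb : t' + κ ≤ (-0.3766)) :
    0.7963 * Real.exp (r * sE κ t') ≤ ‖Xf β r h t 0‖ := by
  obtain ⟨⟨ya, yb⟩, ⟨xa, xb⟩, n1, Da, Db⟩ := B5Go_B48 hD hk1 hk2 hta htb
  have J := B5Go_T49 (x := sx κ t') (y := sy κ t') hβ hN (by linarith only [xa, xb, ya, yb]) (by linarith only [xa, xb, ya, yb]) (by linarith only [xa, xb, ya, yb]) (by linarith only [xa, xb, ya, yb])
  exact v5_Jlo hβ hκ (k := 0) ht hD 0.07 1.8598 0.7963 (by norm_num) J Db (by norm_num)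

private theorem B5Go_V55 {κ t : ℝ} (hD : DomR κ t) (hk1 : 0.8 ≤ κ) (hk2 : κ ≤ 0.9) (hta : (-0.4902) ≤ t + κ) (htb : t + κ ≤ (-0.3766)) :
    1.06407 + 0.3009 * (t + κ) ≤ sE κ t := by
  have hκ0 : 0 < κ := hD.1
  exact v5_V0 hD 0.8 0.9 (-0.4902) (-0.3766) 0.4903 0.5694 0.12214 0.14875 0.22671 0.54879 1.06407 0.3009 (by norm_num) hk1 hk2 (by norm_num) hta htb (by norm_num) (by norm_num) (by norm_num) ((cup1 0.9 hκ0.le hk2 (by norm_num)).trans (by norm_num))
      (by norm_num) (by norm_num) (by norm_num) (by norm_num) (by norm_num) (by norm_num) (by norm_num) (by norm_num) (by norm_num) (by norm_num) (by norm_num) (by norm_num) (by norm_num)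

private theorem B5Go_K56 {β r t κ h : ℝ} (hβ : 0 < β) (hr : 10 ≤ r) (hκ : κ = β * r) (hk1 : 0.8 ≤ κ) (hk2 : κ ≤ 0.9)
    (hh : h = 2 * Real.pi / 5) (hh1 : 1.25663 ≤ h) (hh2 : h ≤ 1.25664) (hta : 0.7665 ≤ t + κ) (htb : t + κ ≤ 0.88)
    (hY : 0.7963 * Real.exp (r * sE κ (t - h)) ≤ ‖Xf β r h t 0‖) (hV : 1.06407 + 0.3009 * (t - h + κ) ≤ sE κ (t - h)) :
    ‖Xf β r h t 2‖ ≤ 0.00569 * ‖Xf β r h t 0‖ := by
  rw [v5_X 2 1 (by push_cast; ring)]
  exact v5_cmp 0.6375 0.001705 0.00566 0.9165 0.0001047 0.0000216 0.00569 hr (B5Go_C51 (t := t + 1 * h) hβ hr hκ hk1 hk2 (by linarith only [hta, htb, hh1, hh2]) (by linarith only [hta, htb, hh1, hh2])) hY (by norm_num) (by norm_num) (by norm_num) (by norm_num) (by linarith only [hV, hta, htb, hh1, hh2]) (ex_un 6 0.3749 (by norm_num) (by norm_num) (by norm_num) (by norm_num)) (by norm_num) (by norm_num) (by linarith only [hV, hta, htb, hh1, hh2]) (ex_un 9 0.1649 (by norm_num) (by norm_num)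 (by norm_num) (by norm_num)) (by norm_num) (by norm_num)

private theorem B5Go_K57 {β r t κ h : ℝ} (hβ : 0 < β) (hr : 10 ≤ r) (hκ : κ = β * r) (hk1 : 0.8 ≤ κ) (hk2 : κ ≤ 0.9)
    (hh : h = 2 * Real.pi / 5) (hh1 : 1.25663 ≤ h) (hh2 : h ≤ 1.25664) (hta : 0.7665 ≤ t + κ) (htb : t + κ ≤ 0.88)
    (hY : 0.7963 * Real.exp (r * sE κ (t - h)) ≤ ‖Xf β r h t 0‖) (hV : 1.06407 + 0.3009 * (t - h + κ) ≤ sE κ (t - h)) :
    ‖Xf β r h t (-1)‖ ≤ 0.00143 * ‖Xf β r h t 0‖ := by
  rw [v5_X (-1) (-2) (by push_cast; ring)]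
  exact v5_cmp 0.7199 0.0007475 0.00102 0.8664 0.0001736 0.000404 0.00143 hr (B5Go_C52 (t := t + (-2) * h) hβ hr hκ hk1 hk2 (by linarith only [hta, htb, hh1, hh2]) (by linarith only [hta, htb, hh1, hh2])) hY (by norm_num) (by norm_num) (by norm_num) (by norm_num) (by linarith only [hV, hta, htb, hh1, hh2]) (ex_un 7 0.1989 (by norm_num) (by norm_num) (by norm_num) (by norm_num)) (by norm_num) (by norm_num) (by linarith only [hV, hta, htb, hh1, hh2]) (ex_un 8 0.6639 (by norm_num) (by norm_num) (by norm_num) (by norm_num)) (by norm_num) (by norm_num)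

private theorem B5Go_K58 {β r t κ h : ℝ} (hβ : 0 < β) (hr : 10 ≤ r) (hκ : κ = β * r) (hk1 : 0.8 ≤ κ) (hk2 : κ ≤ 0.9)
    (hh : h = 2 * Real.pi / 5) (hh1 : 1.25663 ≤ h) (hh2 : h ≤ 1.25664) (hta : 0.7665 ≤ t + κ) (htb : t + κ ≤ 0.88)
    (hY : 0.7963 * Real.exp (r * sE κ (t - h)) ≤ ‖Xf β r h t 0‖) (hV : 1.06407 + 0.3009 * (t - h + κ) ≤ sE κ (t - h)) :
    ‖Xf β r h t (-2)‖ ≤ 0.000538 * ‖Xf β r h t 0‖ := by
  rw [v5_Xm2 hh]
  exact v5_cmp0 0.8565 0.0001913 0.000538 hr (B5Go_C53 (t := t + 2 * h) hβ hr hκ hk1 hk2 (by linarith only [hta, htb, hh1, hh2]) (by linarith only [hta, htb, hh1, hh2])) hY (by norm_num) (by norm_num) (by norm_num) (by linarith only [hV, hta, htb, hh1, hh2]) (ex_un 8 0.5649 (by norm_num) (by norm_num) (by norm_num) (by norm_num)) (by norm_num)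

private theorem B5Go_G59 {κ : ℝ} (hk1 : 0.8 ≤ κ) (hk2 : κ ≤ 0.9) : gG κ 0.33 ≤ 1.11478 ∧ 0.5521 ≤ Real.exp (-(κ * 0.33)) ^ 2 := by
  refine ⟨gG_le 0.33 0.8 0.9 1.11478 0.76798 0.74305 1.30213 1.34582 hk1 hk2 (by norm_num)
    (ex_um 0.264 (by norm_num) (by norm_num) (by norm_num) (by norm_num)) (ex_um 0.297 (by norm_num) (by norm_num) (by norm_num) (by norm_num))
    (ex_up 0.264 (by norm_num) (by norm_num) (by norm_num) (by norm_num)) (ex_up 0.297 (by norm_num) (by norm_num) (by norm_num) (by norm_num))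
    (by norm_num) (by norm_num), ?_⟩
  exact v5_M 0.74304 (ex_lm 0.297 (by linarith) (by norm_num) (by norm_num) (by norm_num) (by norm_num)) (by norm_num) (by norm_num)

private theorem B5Go_B60 {κ t : ℝ} (h : DomR κ t) (hk1 : 0.8 ≤ κ) (hk2 : κ ≤ 0.9) (ht1 : 0.7664 ≤ t + κ) (ht2 : t + κ ≤ 0.8801) :
    (0.284 ≤ sy κ t ∧ sy κ t ≤ 0.332) ∧ (0.4681 ≤ sx κ t ∧ sx κ t ≤ 0.6151) ∧ κ * Real.exp (-sy κ t) ≤ 0.6775 ∧ 1.9306 ≤ sD κ t ∧ sD κ t ≤ 2.081 := by
  have hy1 : 0.284 ≤ sy κ t := syR_ge h 0.8 0.9 0.7664 0.284 1.32843 1.32844 0.41919 0.4716 hk1 hk2 (by linarith) (by norm_num) (by norm_num)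
    (expn_ge (by norm_num) (by norm_num)) (expn_le (by norm_num) (by norm_num) (by norm_num)) (by norm_num)
    (by norm_num) (by norm_num) (by norm_num) (by norm_num) (by norm_num) (by norm_num)
  have hy2 : sy κ t ≤ 0.332 := syR_le h 0.8 0.9 0.8801 0.332 1.39375 0.498 0.51413 0.57842 hk1 hk2 (by linarith) (by norm_num) (by norm_num)
    (expn_ge (by norm_num) (by norm_num)) (by norm_num) (by norm_num) (Or.inr ((mul_le_mul_of_nonneg_left (expn_le (E := 1.39376) (by norm_num) (by norm_num) (by norm_num)) (by norm_num)).trans (by norm_num))) (by norm_num) (by norm_num) (by norm_num)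
  have hy1' : 0.284 ≤ sy κ t := by linarith
  have hy2' : sy κ t ≤ 0.332 := by linarith
  have hx1 : 0.4681 ≤ sx κ t := sx_lo h 0.8 0.332 0.3321 0.71748 0.4681 hk1 (by norm_num) hy2' (abs_le.2 ⟨by linarith, by linarith⟩) (ex_lm 0.332 (by norm_num) (by norm_num) (by norm_num) (by norm_num) (by norm_num)) (by norm_num) (by norm_num)
  have hx2 : sx κ t ≤ 0.6151 := sx_hi h 0.9 0.284 0.284 0.75277 0.6151 hk2 hy1' (by norm_num) (le_trans (by linarith) (le_abs_self _)) (ex_um 0.284 (by norm_num) (by norm_num) (by norm_num) (by norm_num)) (by norm_num) (by norm_num)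
  refine ⟨⟨hy1', hy2'⟩, ⟨hx1, hx2⟩, v5_n h 0.9 0.284 0.75277 0.6775 hk2 hy1' (ex_um 0.284 (by norm_num) (by norm_num) (by norm_num) (by norm_num)) (by norm_num), ?_, ?_⟩
  · exact v5_Dlo h 0.8 0.284 0.332 0.284 0.75276 1.9306 (by norm_num) hk1 hy1' hy2' (ex_lm 0.284 (by norm_num) (by norm_num) (by norm_num) (by norm_num) (by norm_num)) (by norm_num) (by norm_num) (by norm_num) (by norm_num)
  · exact v5_Dup h 0.9 0.284 0.332 0.75277 0.71749 2.081 hk2 hy1' hy2' (ex_um 0.284 (by norm_num) (by norm_num) (by norm_num) (by norm_num)) (ex_um 0.332 (by norm_num) (by norm_num) (by norm_num) (by norm_num)) (by norm_num) (by norm_num) (by norm_num)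

private theorem B5Go_T61_0_0 {β x y : ℝ} (hβ : 0 < β) (hN : β * 11.111 ≤ 1) (hx1 : 0.468 ≤ x) (hx2 : x ≤ 0.498)
    (hy1 : -0 ≤ y) (hy2 : y ≤ 0.3321) : ‖HH β (x + y * I) - 1‖ ≤ 0.04 := by
  refine le_epsJ (C := 0.4438) (N0 := 11.111) (J_boxp 0.468 0.498 0 0.3321 0.3321 1.0395 0.5986 1.4222 1.1253 0.4758 3.3334 11.111 0.5759 2.109 1.292 1.2285 0.5197 0.4199 1.1684 3.7889 0.5484 1.1141 1.0823 2.456 0.003112 0.009426 0.00000231 0.0000003101 0.002259 0.000004211 0.000005993 0.0000003101 0.4438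
    hβ hN hx1 hx2 hy1 hy2 (by norm_num) (by norm_num) (by linarith) (by norm_num) (by norm_num) (by norm_num) (by norm_num) (by norm_num) (by norm_num) (by norm_num) (by norm_num) (by norm_num) (by norm_num) (by norm_num) (by norm_num) (by norm_num) (by norm_num) (by norm_num) (by norm_num) (by norm_num) (by norm_num) (by norm_num) (by norm_num) (by norm_num)
    (cube_sqrt_geJ (s := 0.8989) (by norm_num) (by norm_num) (by norm_num) (by norm_num))
    (cube_sqrt_geJ (s := 0.964) (by norm_num) (by norm_num) (by norm_num) (by norm_num))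
    (by norm_num) (by norm_num) (by norm_num) (by norm_num) (by norm_num) (by norm_num) (by norm_num) (by norm_num) (by norm_num) (by norm_num) (by norm_num) (by norm_num) (by norm_num) (by norm_num) (by norm_num) (by norm_num) (by norm_num) (by norm_num)
    (exp_neg_leJ (r := 0.774) 5 (by norm_num) (by norm_num) (by norm_num) (by norm_num))
    (exp_neg_leJ (r := 0.665) 4 (by norm_num) (by norm_num) (by norm_num) (by norm_num))
    (exp_neg_leJ (r := 0.982) 12 (by norm_num) (by norm_num) (by norm_num) (by norm_num))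
    (exp_neg_leJ (r := 0.99) 14 (by norm_num) (by norm_num) (by norm_num) (by norm_num))
    (exp_neg_leJ (r := 0.093) 6 (by norm_num) (by norm_num) (by norm_num) (by norm_num))
    (exp_neg_leJ (r := 0.378) 12 (by norm_num) (by norm_num) (by norm_num) (by norm_num))
    (exp_neg_leJ (r := 0.025) 12 (by norm_num) (by norm_num) (by norm_num) (by norm_num))
    (exp_neg_leJ (r := 0.99) 14 (by norm_num) (by norm_num) (by norm_num) (by norm_num))
    (by norm_num)) (by norm_num) hN hβ.le (by norm_num)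

private theorem B5Go_T61_0_1 {β x y : ℝ} (hβ : 0 < β) (hN : β * 11.111 ≤ 1) (hx1 : 0.498 ≤ x) (hx2 : x ≤ 0.536)
    (hy1 : -0 ≤ y) (hy2 : y ≤ 0.3321) : ‖HH β (x + y * I) - 1‖ ≤ 0.04 := by
  refine le_epsJ (C := 0.444) (N0 := 11.111) (J_boxp 0.498 0.536 0 0.3321 0.3321 1.0607 0.6306 1.4359 1.097 0.4781 3.3334 11.111 0.5946 2.167 1.303 1.2139 0.5303 0.4252 1.1787 3.7686 0.563 1.1556 1.1423 2.429 0.002768 0.008888 0.000002054 0.0000003101 0.001921 0.00000266 0.000003078 0.0000003101 0.444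
    hβ hN hx1 hx2 hy1 hy2 (by norm_num) (by norm_num) (by linarith) (by norm_num) (by norm_num) (by norm_num) (by norm_num) (by norm_num) (by norm_num) (by norm_num) (by norm_num) (by norm_num) (by norm_num) (by norm_num) (by norm_num) (by norm_num) (by norm_num) (by norm_num) (by norm_num) (by norm_num) (by norm_num) (by norm_num) (by norm_num) (by norm_num)
    (cube_sqrt_geJ (s := 0.8954) (by norm_num) (by norm_num) (by norm_num) (by norm_num))
    (cube_sqrt_geJ (s := 0.9629) (by norm_num) (by norm_num) (by norm_num) (by norm_num))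
    (by norm_num) (by norm_num) (by norm_num) (by norm_num) (by norm_num) (by norm_num) (by norm_num) (by norm_num) (by norm_num) (by norm_num) (by norm_num) (by norm_num) (by norm_num) (by norm_num) (by norm_num) (by norm_num) (by norm_num) (by norm_num)
    (exp_neg_leJ (r := 0.892) 5 (by norm_num) (by norm_num) (by norm_num) (by norm_num))
    (exp_neg_leJ (r := 0.724) 4 (by norm_num) (by norm_num) (by norm_num) (by norm_num))
    (exp_neg_leJ (r := 0.096) 13 (by norm_num) (by norm_num) (by norm_num) (by norm_num))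
    (exp_neg_leJ (r := 0.99) 14 (by norm_num) (by norm_num) (by norm_num) (by norm_num))
    (exp_neg_leJ (r := 0.255) 6 (by norm_num) (by norm_num) (by norm_num) (by norm_num))
    (exp_neg_leJ (r := 0.839) 12 (by norm_num) (by norm_num) (by norm_num) (by norm_num))
    (exp_neg_leJ (r := 0.692) 12 (by norm_num) (by norm_num) (by norm_num) (by norm_num))
    (exp_neg_leJ (r := 0.99) 14 (by norm_num) (by norm_num) (by norm_num) (by norm_num))
    (by norm_num)) (by norm_num) hN hβ.le (by norm_num)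

private theorem B5Go_T61_0_2 {β x y : ℝ} (hβ : 0 < β) (hN : β * 11.111 ≤ 1) (hx1 : 0.536 ≤ x) (hx2 : x ≤ 0.582)
    (hy1 : -0 ≤ y) (hy2 : y ≤ 0.3321) : ‖HH β (x + y * I) - 1‖ ≤ 0.04 := by
  refine le_epsJ (C := 0.4444) (N0 := 11.111) (J_boxp 0.536 0.582 0 0.3321 0.3321 1.0874 0.6701 1.4537 1.0633 0.4811 3.3334 11.111 0.6163 2.237 1.317 1.1962 0.5436 0.432 1.1917 3.7438 0.5814 1.2082 1.2183 2.3976 0.002384 0.00825 0.000001779 0.0000003101 0.001567 0.00000148 0.000001323 0.0000003101 0.4444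
    hβ hN hx1 hx2 hy1 hy2 (by norm_num) (by norm_num) (by linarith) (by norm_num) (by norm_num) (by norm_num) (by norm_num) (by norm_num) (by norm_num) (by norm_num) (by norm_num) (by norm_num) (by norm_num) (by norm_num) (by norm_num) (by norm_num) (by norm_num) (by norm_num) (by norm_num) (by norm_num) (by norm_num) (by norm_num) (by norm_num) (by norm_num)
    (cube_sqrt_geJ (s := 0.8913) (by norm_num) (by norm_num) (by norm_num) (by norm_num))
    (cube_sqrt_geJ (s := 0.9615) (by norm_num) (by norm_num) (by norm_num) (by norm_num))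
    (by norm_num) (by norm_num) (by norm_num) (by norm_num) (by norm_num) (by norm_num) (by norm_num) (by norm_num) (by norm_num) (by norm_num) (by norm_num) (by norm_num) (by norm_num) (by norm_num) (by norm_num) (by norm_num) (by norm_num) (by norm_num)
    (exp_neg_leJ (r := 0.039) 6 (by norm_num) (by norm_num) (by norm_num) (by norm_num))
    (exp_neg_leJ (r := 0.799) 4 (by norm_num) (by norm_num) (by norm_num) (by norm_num))
    (exp_neg_leJ (r := 0.24) 13 (by norm_num) (by norm_num) (by norm_num) (by norm_num))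
    (exp_neg_leJ (r := 0.99) 14 (by norm_num) (by norm_num) (by norm_num) (by norm_num))
    (exp_neg_leJ (r := 0.459) 6 (by norm_num) (by norm_num) (by norm_num) (by norm_num))
    (exp_neg_leJ (r := 0.424) 13 (by norm_num) (by norm_num) (by norm_num) (by norm_num))
    (exp_neg_leJ (r := 0.536) 13 (by norm_num) (by norm_num) (by norm_num) (by norm_num))
    (exp_neg_leJ (r := 0.99) 14 (by norm_num) (by norm_num) (by norm_num) (by norm_num))
    (by norm_num)) (by norm_num) hN hβ.le (by norm_num)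

private theorem B5Go_T61_0_3 {β x y : ℝ} (hβ : 0 < β) (hN : β * 11.111 ≤ 1) (hx1 : 0.582 ≤ x) (hx2 : x ≤ 0.6152)
    (hy1 : -0 ≤ y) (hy2 : y ≤ 0.3321) : ‖HH β (x + y * I) - 1‖ ≤ 0.04 := by
  refine le_epsJ (C := 0.4234) (N0 := 11.111) (J_boxp 0.582 0.6152 0 0.3321 0.3321 1.1198 0.6992 1.4673 1.0223 0.4833 3.3334 11.111 0.6244 2.264 1.321 1.1835 0.5598 0.4433 1.2075 3.7257 0.6038 1.2719 1.3103 2.4105 0.001992 0.007282 0.000001492 0.0000003101 0.001223 0.0000007288 0.0000004761 0.0000003101 0.4234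
    hβ hN hx1 hx2 hy1 hy2 (by norm_num) (by norm_num) (by linarith) (by norm_num) (by norm_num) (by norm_num) (by norm_num) (by norm_num) (by norm_num) (by norm_num) (by norm_num) (by norm_num) (by norm_num) (by norm_num) (by norm_num) (by norm_num) (by norm_num) (by norm_num) (by norm_num) (by norm_num) (by norm_num) (by norm_num) (by norm_num) (by norm_num)
    (cube_sqrt_geJ (s := 0.8898) (by norm_num) (by norm_num) (by norm_num) (by norm_num))
    (cube_sqrt_geJ (s := 0.961) (by norm_num) (by norm_num) (by norm_num) (by norm_num))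
    (by norm_num) (by norm_num) (by norm_num) (by norm_num) (by norm_num) (by norm_num) (by norm_num) (by norm_num) (by norm_num) (by norm_num) (by norm_num) (by norm_num) (by norm_num) (by norm_num) (by norm_num) (by norm_num) (by norm_num) (by norm_num)
    (exp_neg_leJ (r := 0.219) 6 (by norm_num) (by norm_num) (by norm_num) (by norm_num))
    (exp_neg_leJ (r := 0.925) 4 (by norm_num) (by norm_num) (by norm_num) (by norm_num))
    (exp_neg_leJ (r := 0.416) 13 (by norm_num) (by norm_num) (by norm_num) (by norm_num))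
    (exp_neg_leJ (r := 0.99) 14 (by norm_num) (by norm_num) (by norm_num) (by norm_num))
    (exp_neg_leJ (r := 0.708) 6 (by norm_num) (by norm_num) (by norm_num) (by norm_num))
    (exp_neg_leJ (r := 0.132) 14 (by norm_num) (by norm_num) (by norm_num) (by norm_num))
    (exp_neg_leJ (r := 0.558) 14 (by norm_num) (by norm_num) (by norm_num) (by norm_num))
    (exp_neg_leJ (r := 0.99) 14 (by norm_num) (by norm_num) (by norm_num) (by norm_num))
    (by norm_num)) (by norm_num) hN hβ.le (by norm_num)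

private theorem B5Go_T61 {β x y : ℝ} (hβ : 0 < β) (hN : β * 11.111 ≤ 1) (hx1 : 0.468 ≤ x) (hx2 : x ≤ 0.6152)
    (hy1 : 0.2839 ≤ y) (hy2 : y ≤ 0.3321) : ‖HH β (x + y * I) - 1‖ ≤ 0.04 := by
  rcases le_total x 0.498 with hxx | hxx
  · exact B5Go_T61_0_0 hβ hN (by linarith) (by linarith) (by linarith) (by linarith)
  rcases le_total x 0.536 with hxx | hxx
  · exact B5Go_T61_0_1 hβ hN (by linarith) (by linarith) (by linarith) (by linarith)
  rcases le_total x 0.582 with hxx | hxx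
  · exact B5Go_T61_0_2 hβ hN (by linarith) (by linarith) (by linarith) (by linarith)
  exact B5Go_T61_0_3 hβ hN (by linarith) (by linarith) (by linarith) (by linarith)

private theorem B5Go_U62 {β r t κ h t' : ℝ} (hβ : 0 < β) (hκ : κ = β * r) (hN : β * 11.111 ≤ 1) (hk1 : 0.8 ≤ κ) (hk2 : κ ≤ 0.9)
    (ht : t' = t + (((1 : ℤ) : ℝ) - 1) * h) (hD : DomR κ t') (hta : 0.7664 ≤ t' + κ) (htb : t' + κ ≤ 0.8801) :
    ‖Xf β r h t 1‖ ≤ 0.8823 * Real.exp (r * sE κ t') := by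
  obtain ⟨⟨ya, yb⟩, ⟨xa, xb⟩, n1, Da, Db⟩ := B5Go_B60 hD hk1 hk2 hta htb
  have J := B5Go_T61 (x := sx κ t') (y := sy κ t') hβ hN (by linarith only [xa, xb, ya, yb]) (by linarith only [xa, xb, ya, yb]) (by linarith only [xa, xb, ya, yb]) (by linarith only [xa, xb, ya, yb])
  exact v5_Jup (h := h) (t := t) (k := 1) hβ hκ ht hD 0.04 1.9306 0.8823 J Da (by norm_num) (by norm_num)

private theorem B5Go_K63 {β r t κ h : ℝ} (hβ : 0 < β) (hr : 10 ≤ r) (hκ : κ = β * r) (hk1 : 0.8 ≤ κ) (hk2 : κ ≤ 0.9)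
    (hh : h = 2 * Real.pi / 5) (hh1 : 1.25663 ≤ h) (hh2 : h ≤ 1.25664) (hta : 0.7665 ≤ t + κ) (htb : t + κ ≤ 0.88) (hN : β * 11.111 ≤ 1)
    (hD : DomR κ t) (hY : 0.7963 * Real.exp (r * sE κ (t - h)) ≤ ‖Xf β r h t 0‖) (hV : 1.06407 + 0.3009 * (t - h + κ) ≤ sE κ (t - h)) :
    ‖Xf β r h t 1‖ ≤ 0.643 * ‖Xf β r h t 0‖ := by
  have hU := B5Go_U62 (h := h) (t := t) hβ hκ hN hk1 hk2 (by push_cast; ring) hD (by linarith only [hta, htb, hh1, hh2]) (by linarith only [hta, htb, hh1, hh2])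
  have hW := V_up hD 0.33 (B5Go_G59 hk1 hk2).1
  exact v5_cmpJ 0.0547 0.5802 0.643 hr hU hW hY (by norm_num) (by norm_num) (by norm_num) (by linarith only [hV, hta, htb, hh1, hh2]) (ex_un 0 0.5469 (by norm_num) (by norm_num) (by norm_num) (by norm_num)) (by norm_num)

private theorem B5Go_O64 {β r t κ h : ℝ} (hβ : 0 < β) (hr : 10 ≤ r) (hκ : κ = β * r) (hk1 : 0.8 ≤ κ) (hk2 : κ ≤ 0.9)
    (hh : h = 2 * Real.pi / 5) (hta : 0.7665 ≤ t + κ) (htb : t + κ ≤ 0.88) :
    ‖Xf β r h t (-2)‖ + ‖Xf β r h t (-1)‖ + ‖Xf β r h t 2‖ < |‖Xf β r h t 1‖ - ‖Xf β r h t 0‖| := by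
  obtain ⟨hh1, hh2⟩ := v5_h hh
  have hκ0 : 0 < κ := by linarith only [hk1]
  have hN : β * 11.111 ≤ 1 := v5_hN 0.9 11.111 hβ hr hκ hk2 (by norm_num) (by norm_num)
  have hD1 : DomR κ t := v5_dom hκ0 (by linarith only [hta, htb, hk1, hk2, hh1, hh2]) (Or.inr (by linarith only [hta, htb, hk1, hk2, hh1, hh2]))
  have hD0 : DomR κ (t - h) := v5_dom hκ0 (by linarith only [hta, htb, hk1, hk2, hh1, hh2]) (Or.inr (by linarith only [hta, htb, hk1, hk2, hh1, hh2]))
  have h0a : (-0.4902) ≤ t - h + κ := by linarith only [hta, htb, hh1, hh2]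
  have h0b : t - h + κ ≤ (-0.3766) := by linarith only [hta, htb, hh1, hh2]
  have e0 : t - h = t + (((0 : ℤ) : ℝ) - 1) * h := by push_cast; ring
  have hY := B5Go_Y54 (h := h) hβ hκ hN hk1 hk2 e0 hD0 h0a h0b
  have hV := B5Go_V55 hD0 hk1 hk2 h0a h0b
  have cp2 := B5Go_K56 hβ hr hκ hk1 hk2 hh hh1 hh2 hta htb hY hV
  have cm1 := B5Go_K57 hβ hr hκ hk1 hk2 hh hh1 hh2 hta htb hY hV
  have cm2 := B5Go_K58 hβ hr hκ hk1 hk2 hh hh1 hh2 hta htb hY hV
  have cn1 := B5Go_K63 hβ hr hκ hk1 hk2 hh hh1 hh2 hta htb hN hD1 hY hV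
  have hp : 0 < ‖Xf β r h t 0‖ := lt_of_lt_of_le (by positivity) hY
  exact v5_out0 _ _ _ _ cm2 cm1 cp2 cn1 hp (by norm_num)

private theorem B5Go_B65 {κ t : ℝ} (h : DomR κ t) (hk1 : 0.8 ≤ κ) (hk2 : κ ≤ 0.9) (ht1 : (-0.3767) ≤ t + κ) (ht2 : t + κ ≤ (-0.1886)) :
    ((-0.209) ≤ sy κ t ∧ sy κ t ≤ (-0.098)) ∧ (0.8572 ≤ sx κ t ∧ sx κ t ≤ 1.1049) ∧ κ * Real.exp (-sy κ t) ≤ 1.1093 ∧ 1.5541 ≤ sD κ t ∧ sD κ t ≤ 1.8124 := by
  have hy1 : -0.209 ≤ sy κ t := syL_ge h 0.8 0.9 0.3767 0.209 0.81139 0.8114 0.206 0.18842 0.21198 hk1 hk2 (by linarith) (by norm_num) (by norm_num) (by norm_num)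
    (expm_ge (by norm_num) (by norm_num) (by norm_num) (by norm_num)) (expm_le (by norm_num) (by norm_num) (by norm_num)) (by norm_num)
    (by norm_num) (by norm_num) (by norm_num) (by norm_num) (by norm_num) (by norm_num)
  have hy2 : sy κ t ≤ -0.098 := syL_le h 0.8 0.9 0.1886 0.098 0.90664 0.90665 0.09872 0.11107 hk1 hk2 (by linarith) (by norm_num) (by norm_num) (by norm_num)
    (expm_ge (by norm_num) (by norm_num) (by norm_num) (by norm_num)) (expm_le (by norm_num) (by norm_num) (by norm_num)) (by norm_num)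
    (by norm_num) (by norm_num) (by norm_num) (by norm_num) (by norm_num) (by norm_num)
  have hy1' : (-0.209) ≤ sy κ t := by linarith
  have hy2' : sy κ t ≤ (-0.098) := by linarith
  have hx1 : 0.8572 ≤ sx κ t := sx_lo h 0.8 (-0.098) 0.2091 1.10296 0.8572 hk1 (by norm_num) hy2' (abs_le.2 ⟨by linarith, by linarith⟩) (ex_lp 0.098 (by norm_num) (by norm_num) (by norm_num)) (by norm_num) (by norm_num)
  have hx2 : sx κ t ≤ 1.1049 := sx_hi h 0.9 (-0.209) 0.098 1.23245 1.1049 hk2 hy1' (by norm_num) (le_trans (by linarith) (neg_le_abs _)) (ex_up 0.209 (by norm_num) (by norm_num) (by norm_num) (by norm_num)) (by norm_num) (by norm_num)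
  refine ⟨⟨hy1', hy2'⟩, ⟨hx1, hx2⟩, v5_n h 0.9 (-0.209) 1.23245 1.1093 hk2 hy1' (ex_up 0.209 (by norm_num) (by norm_num) (by norm_num) (by norm_num)) (by norm_num), ?_, ?_⟩
  · exact v5_Dlo h 0.8 (-0.209) (-0.098) (-0.209) 1.23244 1.5541 (by norm_num) hk1 hy1' hy2' (ex_lp 0.209 (by norm_num) (by norm_num) (by norm_num)) (by norm_num) (by norm_num) (by norm_num) (by norm_num)
  · exact v5_Dup h 0.9 (-0.209) (-0.098) 1.23245 1.10297 1.8124 hk2 hy1' hy2' (ex_up 0.209 (by norm_num) (by norm_num) (by norm_num) (by norm_num)) (ex_up 0.098 (by norm_num) (by norm_num) (by norm_num) (by norm_num)) (by norm_num) (by norm_num) (by norm_num)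

private theorem B5Go_T66_0_0 {β x y : ℝ} (hβ : 0 < β) (hN : β * 11.111 ≤ 1) (hx1 : 0.8571 ≤ x) (hx2 : x ≤ 0.922)
    (hy1 : -0.2091 ≤ y) (hy2 : y ≤ -0.0979) : ‖HH β (x + y * I) - 1‖ ≤ 0.055 := by
  refine le_epsJ (C := 0.6108) (N0 := 11.111) (J_boxp 0.8571 0.922 0.2091 0 (-0.0979) 1.1651 0.9455 1.29 0.9032 0.4532 3.3334 11.111 0.8116 3.017 1.443 0.8724 0.5825 0.4249 0.9716 2.9084 0.6571 1.6867 2.7165 3.8561 0.001547 0.008915 0.00002054 0.0000003101 0.0006749 0.0000003101 0.0000003101 0.0000003101 0.6108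
    hβ hN hx1 hx2 hy1 hy2 (by norm_num) (by norm_num) (by linarith) (by norm_num) (by norm_num) (by norm_num) (by norm_num) (by norm_num) (by norm_num) (by norm_num) (by norm_num) (by norm_num) (by norm_num) (by norm_num) (by norm_num) (by norm_num) (by norm_num) (by norm_num) (by norm_num) (by norm_num) (by norm_num) (by norm_num) (by norm_num) (by norm_num)
    (cube_sqrt_geJ (s := 0.854) (by norm_num) (by norm_num) (by norm_num) (by norm_num))
    (cube_sqrt_geJ (s := 0.949) (by norm_num) (by norm_num) (by norm_num) (by norm_num))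
    (by norm_num) (by norm_num) (by norm_num) (by norm_num) (by norm_num) (by norm_num) (by norm_num) (by norm_num) (by norm_num) (by norm_num) (by norm_num) (by norm_num) (by norm_num) (by norm_num) (by norm_num) (by norm_num) (by norm_num) (by norm_num)
    (exp_neg_leJ (r := 0.472) 6 (by norm_num) (by norm_num) (by norm_num) (by norm_num))
    (exp_neg_leJ (r := 0.721) 4 (by norm_num) (by norm_num) (by norm_num) (by norm_num))
    (exp_neg_leJ (r := 0.795) 10 (by norm_num) (by norm_num) (by norm_num) (by norm_num))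
    (exp_neg_leJ (r := 0.99) 14 (by norm_num) (by norm_num) (by norm_num) (by norm_num))
    (exp_neg_leJ (r := 0.301) 7 (by norm_num) (by norm_num) (by norm_num) (by norm_num))
    (exp_neg_leJ (r := 0.99) 14 (by norm_num) (by norm_num) (by norm_num) (by norm_num))
    (exp_neg_leJ (r := 0.99) 14 (by norm_num) (by norm_num) (by norm_num) (by norm_num))
    (exp_neg_leJ (r := 0.99) 14 (by norm_num) (by norm_num) (by norm_num) (by norm_num))
    (by norm_num)) (by norm_num) hN hβ.le (by norm_num)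

private theorem B5Go_T66_0_1 {β x y : ℝ} (hβ : 0 < β) (hN : β * 11.111 ≤ 1) (hx1 : 0.922 ≤ x) (hx2 : x ≤ 0.988)
    (hy1 : -0.2091 ≤ y) (hy2 : y ≤ -0.0979) : ‖HH β (x + y * I) - 1‖ ≤ 0.055 := by
  refine le_epsJ (C := 0.6099) (N0 := 11.111) (J_boxp 0.922 0.988 0.2091 0 (-0.0979) 1.2108 1.0099 1.3379 0.8682 0.4615 3.3334 11.111 0.8341 3.128 1.459 0.8471 0.6053 0.437 0.9938 2.8707 0.6886 1.7766 2.8463 3.8108 0.001202 0.007805 0.00001602 0.0000003101 0.0004759 0.0000003101 0.0000003101 0.0000003101 0.6099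
    hβ hN hx1 hx2 hy1 hy2 (by norm_num) (by norm_num) (by linarith) (by norm_num) (by norm_num) (by norm_num) (by norm_num) (by norm_num) (by norm_num) (by norm_num) (by norm_num) (by norm_num) (by norm_num) (by norm_num) (by norm_num) (by norm_num) (by norm_num) (by norm_num) (by norm_num) (by norm_num) (by norm_num) (by norm_num) (by norm_num) (by norm_num)
    (cube_sqrt_geJ (s := 0.8496) (by norm_num) (by norm_num) (by norm_num) (by norm_num))
    (cube_sqrt_geJ (s := 0.9475) (by norm_num) (by norm_num) (by norm_num) (by norm_num))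
    (by norm_num) (by norm_num) (by norm_num) (by norm_num) (by norm_num) (by norm_num) (by norm_num) (by norm_num) (by norm_num) (by norm_num) (by norm_num) (by norm_num) (by norm_num) (by norm_num) (by norm_num) (by norm_num) (by norm_num) (by norm_num)
    (exp_neg_leJ (r := 0.725) 6 (by norm_num) (by norm_num) (by norm_num) (by norm_num))
    (exp_neg_leJ (r := 0.855) 4 (by norm_num) (by norm_num) (by norm_num) (by norm_num))
    (exp_neg_leJ (r := 0.042) 11 (by norm_num) (by norm_num) (by norm_num) (by norm_num))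
    (exp_neg_leJ (r := 0.99) 14 (by norm_num) (by norm_num) (by norm_num) (by norm_num))
    (exp_neg_leJ (r := 0.651) 7 (by norm_num) (by norm_num) (by norm_num) (by norm_num))
    (exp_neg_leJ (r := 0.99) 14 (by norm_num) (by norm_num) (by norm_num) (by norm_num))
    (exp_neg_leJ (r := 0.99) 14 (by norm_num) (by norm_num) (by norm_num) (by norm_num))
    (exp_neg_leJ (r := 0.99) 14 (by norm_num) (by norm_num) (by norm_num) (by norm_num))
    (by norm_num)) (by norm_num) hN hβ.le (by norm_num)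

private theorem B5Go_T66_0_2 {β x y : ℝ} (hβ : 0 < β) (hN : β * 11.111 ≤ 1) (hx1 : 0.988 ≤ x) (hx2 : x ≤ 1.055)
    (hy1 : -0.2091 ≤ y) (hy2 : y ≤ -0.0979) : ‖HH β (x + y * I) - 1‖ ≤ 0.055 := by
  refine le_epsJ (C := 0.6102) (N0 := 11.111) (J_boxp 0.988 1.055 0.2091 0 (-0.0979) 1.2572 1.0756 1.3881 0.8359 0.4701 3.3334 11.111 0.8556 3.239 1.474 0.8213 0.6285 0.4493 1.0164 2.8323 0.7206 1.8679 2.9783 3.7642 0.0009307 0.00683 0.00001247 0.0000003101 0.0003335 0.0000003101 0.0000003101 0.0000003101 0.6102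
    hβ hN hx1 hx2 hy1 hy2 (by norm_num) (by norm_num) (by linarith) (by norm_num) (by norm_num) (by norm_num) (by norm_num) (by norm_num) (by norm_num) (by norm_num) (by norm_num) (by norm_num) (by norm_num) (by norm_num) (by norm_num) (by norm_num) (by norm_num) (by norm_num) (by norm_num) (by norm_num) (by norm_num) (by norm_num) (by norm_num) (by norm_num)
    (cube_sqrt_geJ (s := 0.8454) (by norm_num) (by norm_num) (by norm_num) (by norm_num))
    (cube_sqrt_geJ (s := 0.9461) (by norm_num) (by norm_num) (by norm_num) (by norm_num))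
    (by norm_num) (by norm_num) (by norm_num) (by norm_num) (by norm_num) (by norm_num) (by norm_num) (by norm_num) (by norm_num) (by norm_num) (by norm_num) (by norm_num) (by norm_num) (by norm_num) (by norm_num) (by norm_num) (by norm_num) (by norm_num)
    (exp_neg_leJ (r := 0.983) 6 (by norm_num) (by norm_num) (by norm_num) (by norm_num))
    (exp_neg_leJ (r := 0.99) 4 (by norm_num) (by norm_num) (by norm_num) (by norm_num))
    (exp_neg_leJ (r := 0.293) 11 (by norm_num) (by norm_num) (by norm_num) (by norm_num))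
    (exp_neg_leJ (r := 0.99) 14 (by norm_num) (by norm_num) (by norm_num) (by norm_num))
    (exp_neg_leJ (r := 0.006) 8 (by norm_num) (by norm_num) (by norm_num) (by norm_num))
    (exp_neg_leJ (r := 0.99) 14 (by norm_num) (by norm_num) (by norm_num) (by norm_num))
    (exp_neg_leJ (r := 0.99) 14 (by norm_num) (by norm_num) (by norm_num) (by norm_num))
    (exp_neg_leJ (r := 0.99) 14 (by norm_num) (by norm_num) (by norm_num) (by norm_num))
    (by norm_num)) (by norm_num) hN hβ.le (by norm_num)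

private theorem B5Go_T66_0_3 {β x y : ℝ} (hβ : 0 < β) (hN : β * 11.111 ≤ 1) (hx1 : 1.055 ≤ x) (hx2 : x ≤ 1.105)
    (hy1 : -0.2091 ≤ y) (hy2 : y ≤ -0.0979) : ‖HH β (x + y * I) - 1‖ ≤ 0.055 := by
  refine le_epsJ (C := 0.5844) (N0 := 11.111) (J_boxp 1.055 1.105 0.2091 0 (-0.0979) 1.3044 1.1247 1.4265 0.8018 0.4765 3.3334 11.111 0.8623 3.275 1.478 0.8021 0.6521 0.4647 1.0393 2.8036 0.7532 1.9607 3.1123 3.7648 0.0007138 0.005725 0.000009668 0.0000003101 0.0002322 0.0000003101 0.0000003101 0.0000003101 0.5844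
    hβ hN hx1 hx2 hy1 hy2 (by norm_num) (by norm_num) (by linarith) (by norm_num) (by norm_num) (by norm_num) (by norm_num) (by norm_num) (by norm_num) (by norm_num) (by norm_num) (by norm_num) (by norm_num) (by norm_num) (by norm_num) (by norm_num) (by norm_num) (by norm_num) (by norm_num) (by norm_num) (by norm_num) (by norm_num) (by norm_num) (by norm_num)
    (cube_sqrt_geJ (s := 0.8441) (by norm_num) (by norm_num) (by norm_num) (by norm_num))
    (cube_sqrt_geJ (s := 0.9457) (by norm_num) (by norm_num) (by norm_num) (by norm_num))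
    (by norm_num) (by norm_num) (by norm_num) (by norm_num) (by norm_num) (by norm_num) (by norm_num) (by norm_num) (by norm_num) (by norm_num) (by norm_num) (by norm_num) (by norm_num) (by norm_num) (by norm_num) (by norm_num) (by norm_num) (by norm_num)
    (exp_neg_leJ (r := 0.245) 7 (by norm_num) (by norm_num) (by norm_num) (by norm_num))
    (exp_neg_leJ (r := 0.163) 5 (by norm_num) (by norm_num) (by norm_num) (by norm_num))
    (exp_neg_leJ (r := 0.547) 11 (by norm_num) (by norm_num) (by norm_num) (by norm_num))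
    (exp_neg_leJ (r := 0.99) 14 (by norm_num) (by norm_num) (by norm_num) (by norm_num))
    (exp_neg_leJ (r := 0.368) 8 (by norm_num) (by norm_num) (by norm_num) (by norm_num))
    (exp_neg_leJ (r := 0.99) 14 (by norm_num) (by norm_num) (by norm_num) (by norm_num))
    (exp_neg_leJ (r := 0.99) 14 (by norm_num) (by norm_num) (by norm_num) (by norm_num))
    (exp_neg_leJ (r := 0.99) 14 (by norm_num) (by norm_num) (by norm_num) (by norm_num))
    (by norm_num)) (by norm_num) hN hβ.le (by norm_num)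

private theorem B5Go_T66 {β x y : ℝ} (hβ : 0 < β) (hN : β * 11.111 ≤ 1) (hx1 : 0.8571 ≤ x) (hx2 : x ≤ 1.105)
    (hy1 : (-0.2091) ≤ y) (hy2 : y ≤ (-0.0979)) : ‖HH β (x + y * I) - 1‖ ≤ 0.055 := by
  rcases le_total x 0.922 with hxx | hxx
  · exact B5Go_T66_0_0 hβ hN (by linarith) (by linarith) (by linarith) (by linarith)
  rcases le_total x 0.988 with hxx | hxx
  · exact B5Go_T66_0_1 hβ hN (by linarith) (by linarith) (by linarith) (by linarith)
  rcases le_total x 1.055 with hxx | hxx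
  · exact B5Go_T66_0_2 hβ hN (by linarith) (by linarith) (by linarith) (by linarith)
  exact B5Go_T66_0_3 hβ hN (by linarith) (by linarith) (by linarith) (by linarith)

private theorem B5Go_G67 {κ : ℝ} (hk1 : 0.8 ≤ κ) (hk2 : κ ≤ 0.9) : gG κ 0.51 ≤ 1.31518 ∧ 0.39931 ≤ Real.exp (-(κ * 0.51)) ^ 2 := by
  refine ⟨gG_le 0.51 0.8 0.9 1.31518 0.66498 0.63192 1.50381 1.5825 hk1 hk2 (by norm_num)
    (ex_um 0.408 (by norm_num) (by norm_num) (by norm_num) (by norm_num)) (ex_um 0.459 (by norm_num) (by norm_num) (by norm_num) (by norm_num))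
    (ex_up 0.408 (by norm_num) (by norm_num) (by norm_num) (by norm_num)) (ex_up 0.459 (by norm_num) (by norm_num) (by norm_num) (by norm_num))
    (by norm_num) (by norm_num), ?_⟩
  exact v5_M 0.63191 (ex_lm 0.459 (by linarith) (by norm_num) (by norm_num) (by norm_num) (by norm_num)) (by norm_num) (by norm_num)

private theorem B5Go_C68 {β r t κ : ℝ} (hβ : 0 < β) (hr : 10 ≤ r) (hκ : κ = β * r) (hk1 : 0.8 ≤ κ) (hk2 : κ ≤ 0.9) (hta : 2.1366 ≤ t + κ)
    (htb : t + κ ≤ 2.3247) : ‖F (cexp (I * β)) (r * cexp (I * ((t + β / 2 : ℝ) : ℂ)))‖ ≤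
      3.7494 * Real.exp (r * (1.31518 - 0.51 * (t + κ))) + 0.1624 * Real.exp (r * 0) :=
  v5_H 0.51 0.8 0.9 2.1366 2.3247 1.31518 2.2418 0.39931 0.1197 2.8072 0.0459 0.05507 0.5781 0.00000136 3.7494 0.1624 hβ hr hκ (by norm_num) hk1 hk2 hta htb (by norm_num) (B5Go_G67 hk1 hk2).1 (B5Go_G67 hk1 hk2).2 (by norm_num) (by norm_num) (by norm_num)
    (by norm_num) (by norm_num) (by norm_num) (by norm_num) (by norm_num) (by norm_num) (by norm_num) (by norm_num) (ex_un 0 0.5506 (by norm_num) (by norm_num) (by norm_num) (by norm_num))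
    (v5_hump 1.8408 11.111 3.3334 0.0000009316 0.00000136 hβ hr hκ hk1 hk2 (by norm_num) htb (by norm_num) (by norm_num) (by norm_num) (by norm_num) (by norm_num) (by norm_num) (by norm_num) (ex_un 13 0.9 (by norm_num) (by norm_num) (by norm_num) (by norm_num)) (by norm_num)) (by norm_num) (by norm_num)

private theorem B5Go_C69 {β r t κ : ℝ} (hβ : 0 < β) (hr : 10 ≤ r) (hκ : κ = β * r) (hk1 : 0.8 ≤ κ) (hk2 : κ ≤ 0.9) (hta : (-1.6333) ≤ t + κ)
    (htb : t + κ ≤ (-1.4452)) : ‖F (cexp (I * β)) (r * cexp (I * ((t + β / 2 : ℝ) : ℂ)))‖ ≤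
      1.0773 * Real.exp (r * (1.39041 - (-0.71) * (t + κ))) + 1.8458 * Real.exp (r * 0.0501) :=
  v5_HU (-0.71) 0.8 0.9 (-1.6333) (-1.4452) 1.39041 1.0773 3.11423 0.1197 0.8556 2.1786 0 0.0501 0.00000136 1.8458 hβ hr hκ (by norm_num) hk1 hk2 hta htb (by norm_num) (by norm_num) (B5Go_G21 hk1 hk2).1 (B5Go_G21 hk1 hk2).2 (by norm_num) (by norm_num) (by norm_num)
    (by norm_num) (by norm_num) (by norm_num) (by norm_num) (by norm_num) (by norm_num) (by norm_num)
    (by norm_num) (by norm_num) (by norm_num) (v5_hump 5.6107 11.111 3.3334 0.0000009316 0.00000136 hβ hr hκ hk1 hk2 (by norm_num) htb (by norm_num) (by norm_num) (by norm_num) (by norm_num) (by norm_num) (by norm_num) (by norm_num) (ex_un 13 0.9 (by norm_num) (by norm_num) (by norm_num) (by norm_num)) (by norm_num)) (by norm_num)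

private theorem B5Go_C70 {β r t κ : ℝ} (hβ : 0 < β) (hr : 10 ≤ r) (hκ : κ = β * r) (hk1 : 0.8 ≤ κ) (hk2 : κ ≤ 0.9) (hta : 3.3932 ≤ t + κ)
    (htb : t + κ ≤ 3.5813) : ‖F (cexp (I * β)) (r * cexp (I * ((t + β / 2 : ℝ) : ℂ)))‖ ≤
      2.2254 * Real.exp (r * (0.01 + 1 / 20)) :=
  v5_UD 0.8 0.9 3.3932 3.5813 0.01 0.4461 0.01 1.1602 2.2254 hβ hr hκ (by norm_num) hk1 hk2 hta htb (by norm_num) (by norm_num) (by norm_num) (by norm_num) (by norm_num) (by norm_num) (by norm_num) (by norm_num) (by norm_num) (by norm_num) (by norm_num)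

private theorem B5Go_Y71 {β r t κ h t' : ℝ} (hβ : 0 < β) (hκ : κ = β * r) (hN : β * 11.111 ≤ 1) (hk1 : 0.8 ≤ κ) (hk2 : κ ≤ 0.9)
    (ht : t' = t + (((0 : ℤ) : ℝ) - 1) * h) (hD : DomR κ t') (hta : (-0.3767) ≤ t' + κ) (htb : t' + κ ≤ (-0.1886)) :
    0.8144 * Real.exp (r * sE κ t') ≤ ‖Xf β r h t 0‖ := by
  obtain ⟨⟨ya, yb⟩, ⟨xa, xb⟩, n1, Da, Db⟩ := B5Go_B65 hD hk1 hk2 hta htb
  have J := B5Go_T66 (x := sx κ t') (y := sy κ t') hβ hN (by linarith only [xa, xb, ya, yb]) (by linarith only [xa, xb, ya, yb]) (by linarith only [xa, xb, ya, yb]) (by linarith only [xa, xb, ya, yb])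
  exact v5_Jlo hβ hκ (k := 0) ht hD 0.055 1.8124 0.8144 (by norm_num) J Db (by norm_num)

private theorem B5Go_V72 {κ t : ℝ} (hD : DomR κ t) (hk1 : 0.8 ≤ κ) (hk2 : κ ≤ 0.9) (hta : (-0.3767) ≤ t + κ) (htb : t + κ ≤ (-0.1886)) :
    1.02387 + 0.19 * (t + κ) ≤ sE κ t := by
  have hκ0 : 0 < κ := hD.1
  exact v5_V0 hD 0.8 0.9 (-0.3767) (-0.1886) 0.3768 0.5513 0.12214 0.14875 0.22671 0.54879 1.02387 0.19 (by norm_num) hk1 hk2 (by norm_num) hta htb (by norm_num) (by norm_num) (by norm_num) ((cup1 0.9 hκ0.le hk2 (by norm_num)).trans (by norm_num))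
      (by norm_num) (by norm_num) (by norm_num) (by norm_num) (by norm_num) (by norm_num) (by norm_num) (by norm_num) (by norm_num) (by norm_num) (by norm_num) (by norm_num) (by norm_num)

private theorem B5Go_K73 {β r t κ h : ℝ} (hβ : 0 < β) (hr : 10 ≤ r) (hκ : κ = β * r) (hk1 : 0.8 ≤ κ) (hk2 : κ ≤ 0.9)
    (hh : h = 2 * Real.pi / 5) (hh1 : 1.25663 ≤ h) (hh2 : h ≤ 1.25664) (hta : 0.88 ≤ t + κ) (htb : t + κ ≤ 1.068)
    (hY : 0.8144 * Real.exp (r * sE κ (t - h)) ≤ ‖Xf β r h t 0‖) (hV : 1.02387 + 0.19 * (t - h + κ) ≤ sE κ (t - h)) :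
    ‖Xf β r h t 2‖ ≤ 0.00324 * ‖Xf β r h t 0‖ := by
  rw [v5_X 2 1 (by push_cast; ring)]
  exact v5_cmp 0.7268 0.0006977 0.00322 0.9523 0.00007331 0.0000147 0.00324 hr (B5Go_C68 (t := t + 1 * h) hβ hr hκ hk1 hk2 (by linarith only [hta, htb, hh1, hh2]) (by linarith only [hta, htb, hh1, hh2])) hY (by norm_num) (by norm_num) (by norm_num) (by norm_num) (by linarith only [hV, hta, htb, hh1, hh2]) (ex_un 7 0.2679 (by norm_num) (by norm_num) (by norm_num) (by norm_num)) (by norm_num) (by norm_num) (by linarith only [hV, hta, htb, hh1, hh2]) (ex_un 9 0.5229 (by norm_num) (by norm_num) (by norm_num) (by norm_num)) (by norm_num) (by norm_num)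

private theorem B5Go_K74 {β r t κ h : ℝ} (hβ : 0 < β) (hr : 10 ≤ r) (hκ : κ = β * r) (hk1 : 0.8 ≤ κ) (hk2 : κ ≤ 0.9)
    (hh : h = 2 * Real.pi / 5) (hh1 : 1.25663 ≤ h) (hh2 : h ≤ 1.25664) (hta : 0.88 ≤ t + κ) (htb : t + κ ≤ 1.068)
    (hY : 0.8144 * Real.exp (r * sE κ (t - h)) ≤ ‖Xf β r h t 0‖) (hV : 1.02387 + 0.19 * (t - h + κ) ≤ sE κ (t - h)) :
    ‖Xf β r h t (-1)‖ ≤ 0.00287 * ‖Xf β r h t 0‖ := by
  rw [v5_X (-1) (-2) (by push_cast; ring)]
  exact v5_cmp 0.6237 0.001957 0.00259 0.9022 0.0001208 0.000274 0.00287 hr (B5Go_C69 (t := t + (-2) * h) hβ hr hκ hk1 hk2 (by linarith only [hta, htb, hh1, hh2]) (by linarith only [hta, htb, hh1, hh2])) hY (by norm_num) (by norm_num) (by norm_num) (by norm_num) (by linarith only [hV, hta, htb, hh1, hh2]) (ex_un 6 0.2369 (by norm_num) (by norm_num) (by norm_num) (by norm_num)) (by norm_num) (by norm_num) (by linarith only [hV, hta, htb, hh1, hh2]) (ex_un 9 0.0219 (by norm_num) (by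 norm_num) (by norm_num) (by norm_num)) (by norm_num) (by norm_num)

private theorem B5Go_K75 {β r t κ h : ℝ} (hβ : 0 < β) (hr : 10 ≤ r) (hκ : κ = β * r) (hk1 : 0.8 ≤ κ) (hk2 : κ ≤ 0.9)
    (hh : h = 2 * Real.pi / 5) (hh1 : 1.25663 ≤ h) (hh2 : h ≤ 1.25664) (hta : 0.88 ≤ t + κ) (htb : t + κ ≤ 1.068)
    (hY : 0.8144 * Real.exp (r * sE κ (t - h)) ≤ ‖Xf β r h t 0‖) (hV : 1.02387 + 0.19 * (t - h + κ) ≤ sE κ (t - h)) :
    ‖Xf β r h t (-2)‖ ≤ 0.00037 * ‖Xf β r h t 0‖ := by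
  rw [v5_Xm2 hh]
  exact v5_cmp0 0.8923 0.0001353 0.00037 hr (B5Go_C70 (t := t + 2 * h) hβ hr hκ hk1 hk2 (by linarith only [hta, htb, hh1, hh2]) (by linarith only [hta, htb, hh1, hh2])) hY (by norm_num) (by norm_num) (by norm_num) (by linarith only [hV, hta, htb, hh1, hh2]) (ex_un 8 0.9229 (by norm_num) (by norm_num) (by norm_num) (by norm_num)) (by norm_num)

private theorem B5Go_C76 {β r t κ : ℝ} (hβ : 0 < β) (hr : 10 ≤ r) (hκ : κ = β * r) (hk1 : 0.8 ≤ κ) (hk2 : κ ≤ 0.9) (hta : 0.8799 ≤ t + κ)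
    (htb : t + κ ≤ 1.0681) : ‖F (cexp (I * β)) (r * cexp (I * ((t + β / 2 : ℝ) : ℂ)))‖ ≤
      1.683 * Real.exp (r * (1.11478 - 0.33 * (t + κ))) + 0.197 * Real.exp (r * 0) :=
  v5_H 0.33 0.8 0.9 0.8799 1.0681 1.11478 1.6783 0.5521 0.1197 1.5505 1.3025 0.29941 0.05104 0.00000136 1.683 0.197 hβ hr hκ (by norm_num) hk1 hk2 hta htb (by norm_num) (B5Go_G59 hk1 hk2).1 (B5Go_G59 hk1 hk2).2 (by norm_num) (by norm_num) (by norm_num)
    (by norm_num) (by norm_num) (by norm_num) (by norm_num) (by norm_num) (by norm_num) (by norm_num) (by norm_num) (ex_un 2 0.994 (by norm_num) (by norm_num) (by norm_num) (by norm_num))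
    (v5_hump 3.0974 11.111 3.3334 0.0000009316 0.00000136 hβ hr hκ hk1 hk2 (by norm_num) htb (by norm_num) (by norm_num) (by norm_num) (by norm_num) (by norm_num) (by norm_num) (by norm_num) (ex_un 13 0.9 (by norm_num) (by norm_num) (by norm_num) (by norm_num)) (by norm_num)) (by norm_num) (by norm_num)

private theorem B5Go_K77 {β r t κ h : ℝ} (hβ : 0 < β) (hr : 10 ≤ r) (hκ : κ = β * r) (hk1 : 0.8 ≤ κ) (hk2 : κ ≤ 0.9)
    (hh : h = 2 * Real.pi / 5) (hh1 : 1.25663 ≤ h) (hh2 : h ≤ 1.25664) (hta : 0.88 ≤ t + κ) (htb : t + κ ≤ 1.068)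
    (hY : 0.8144 * Real.exp (r * sE κ (t - h)) ≤ ‖Xf β r h t 0‖) (hV : 1.02387 + 0.19 * (t - h + κ) ≤ sE κ (t - h)) :
    ‖Xf β r h t 1‖ ≤ 0.577 * ‖Xf β r h t 0‖ := by
  rw [v5_X 1 0 (by push_cast; ring)]
  exact v5_cmp 0.1279 0.2784 0.576 0.9523 0.00007331 0.0000178 0.577 hr (B5Go_C76 (t := t + 0 * h) hβ hr hκ hk1 hk2 (by linarith only [hta, htb, hh1, hh2]) (by linarith only [hta, htb, hh1, hh2])) hY (by norm_num) (by norm_num) (by norm_num) (by norm_num) (by linarith only [hV, hta, htb, hh1, hh2]) (ex_un 1 0.2789 (by norm_num) (by norm_num) (by norm_num) (by norm_num)) (by norm_num) (by norm_num) (by linarith only [hV, hta, htb, hh1, hh2]) (ex_un 9 0.5229 (by norm_num) (by norm_num) (by norm_num) (by norm_num)) (by norm_num) (by norm_num)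

private theorem B5Go_O78 {β r t κ h : ℝ} (hβ : 0 < β) (hr : 10 ≤ r) (hκ : κ = β * r) (hk1 : 0.8 ≤ κ) (hk2 : κ ≤ 0.9)
    (hh : h = 2 * Real.pi / 5) (hta : 0.88 ≤ t + κ) (htb : t + κ ≤ 1.068) :
    ‖Xf β r h t (-2)‖ + ‖Xf β r h t (-1)‖ + ‖Xf β r h t 2‖ < |‖Xf β r h t 1‖ - ‖Xf β r h t 0‖| := by
  obtain ⟨hh1, hh2⟩ := v5_h hh
  have hκ0 : 0 < κ := by linarith only [hk1]
  have hN : β * 11.111 ≤ 1 := v5_hN 0.9 11.111 hβ hr hκ hk2 (by norm_num) (by norm_num)
  have hD1 : DomR κ t := v5_dom hκ0 (by linarith only [hta, htb, hk1, hk2, hh1, hh2]) (Or.inr (by linarith only [hta, htb, hk1, hk2, hh1, hh2]))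
  have hD0 : DomR κ (t - h) := v5_dom hκ0 (by linarith only [hta, htb, hk1, hk2, hh1, hh2]) (Or.inr (by linarith only [hta, htb, hk1, hk2, hh1, hh2]))
  have h0a : (-0.3767) ≤ t - h + κ := by linarith only [hta, htb, hh1, hh2]
  have h0b : t - h + κ ≤ (-0.1886) := by linarith only [hta, htb, hh1, hh2]
  have e0 : t - h = t + (((0 : ℤ) : ℝ) - 1) * h := by push_cast; ring
  have hY := B5Go_Y71 (h := h) hβ hκ hN hk1 hk2 e0 hD0 h0a h0b
  have hV := B5Go_V72 hD0 hk1 hk2 h0a h0b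
  have cp2 := B5Go_K73 hβ hr hκ hk1 hk2 hh hh1 hh2 hta htb hY hV
  have cm1 := B5Go_K74 hβ hr hκ hk1 hk2 hh hh1 hh2 hta htb hY hV
  have cm2 := B5Go_K75 hβ hr hκ hk1 hk2 hh hh1 hh2 hta htb hY hV
  have cn1 := B5Go_K77 hβ hr hκ hk1 hk2 hh hh1 hh2 hta htb hY hV
  have hp : 0 < ‖Xf β r h t 0‖ := lt_of_lt_of_le (by positivity) hY
  exact v5_out0 _ _ _ _ cm2 cm1 cp2 cn1 hp (by norm_num)

private theorem B5Go_B79 {κ t : ℝ} (h : DomR κ t) (hk1 : 0.8 ≤ κ) (hk2 : κ ≤ 0.9) (ht1 : (-0.1887) ≤ t + κ) (ht2 : t + κ ≤ 0.0629) :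
    ((-0.1) ≤ sy κ t ∧ sy κ t ≤ 0.031) ∧ (0.769 ≤ sx κ t ∧ sx κ t ≤ 0.9947) ∧ κ * Real.exp (-sy κ t) ≤ 0.9947 ∧ 1.5816 ≤ sD κ t ∧ sD κ t ≤ 1.8234 := by
  have hy1 : -0.1 ≤ sy κ t := syL_ge h 0.8 0.9 0.1887 0.1 0.90483 0.90484 0.0973 0.10053 0.11311 hk1 hk2 (by linarith) (by norm_num) (by norm_num) (by norm_num)
    (expm_ge (by norm_num) (by norm_num) (by norm_num) (by norm_num)) (expm_le (by norm_num) (by norm_num) (by norm_num)) (by norm_num)
    (by norm_num) (by norm_num) (by norm_num) (by norm_num) (by norm_num) (by norm_num)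
  have hy2 : sy κ t ≤ 0.031 := syR_le h 0.8 0.9 0.0629 0.031 1.03148 0.0344 0.03552 0.03998 hk1 hk2 (by linarith) (by norm_num) (by norm_num)
    (expn_ge (by norm_num) (by norm_num)) (by norm_num) (by norm_num) (Or.inr ((mul_le_mul_of_nonneg_left (expn_le (E := 1.03149) (by norm_num) (by norm_num) (by norm_num)) (by norm_num)).trans (by norm_num))) (by norm_num) (by norm_num) (by norm_num)
  have hy1' : (-0.1) ≤ sy κ t := by linarith
  have hy2' : sy κ t ≤ 0.031 := by linarith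
  have hx1 : 0.769 ≤ sx κ t := sx_lo h 0.8 0.031 0.1001 0.96947 0.769 hk1 (by norm_num) hy2' (abs_le.2 ⟨by linarith, by linarith⟩) (ex_lm 0.031 (by norm_num) (by norm_num) (by norm_num) (by norm_num) (by norm_num)) (by norm_num) (by norm_num)
  have hx2 : sx κ t ≤ 0.9947 := sx_hi h 0.9 (-0.1) 0 1.10518 0.9947 hk2 hy1' (by norm_num) (abs_nonneg _) (ex_up 0.1 (by norm_num) (by norm_num) (by norm_num) (by norm_num)) (by norm_num) (by norm_num)
  refine ⟨⟨hy1', hy2'⟩, ⟨hx1, hx2⟩, v5_n h 0.9 (-0.1) 1.10518 0.9947 hk2 hy1' (ex_up 0.1 (by norm_num) (by norm_num) (by norm_num) (by norm_num)) (by norm_num), ?_, ?_⟩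
  · exact v5_Dlo h 0.8 (-0.1) 0.031 (-0.1) 1.10517 1.5816 (by norm_num) hk1 hy1' hy2' (ex_lp 0.1 (by norm_num) (by norm_num) (by norm_num)) (by norm_num) (by norm_num) (by norm_num) (by norm_num)
  · exact v5_Dup h 0.9 (-0.1) 0.031 1.10518 0.96948 1.8234 hk2 hy1' hy2' (ex_up 0.1 (by norm_num) (by norm_num) (by norm_num) (by norm_num)) (ex_um 0.031 (by norm_num) (by norm_num) (by norm_num) (by norm_num)) (by norm_num) (by norm_num) (by norm_num)

private theorem B5Go_T80_0_0 {β x y : ℝ} (hβ : 0 < β) (hN : β * 11.111 ≤ 1) (hx1 : 0.7689 ≤ x) (hx2 : x ≤ 0.87)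
    (hy1 : -0.1001 ≤ y) (hy2 : y ≤ 0.0311) : ‖HH β (x + y * I) - 1‖ ≤ 0.045 := by
  refine le_epsJ (C := 0.4991) (N0 := 11.111) (J_boxp 0.7689 0.87 0.1001 0.0311 0.0311 1.1803 0.8758 1.3491 0.9059 0.4634 3.3334 11.111 0.7421 2.704 1.396 0.9931 0.5901 0.4441 1.1134 3.2853 0.6706 1.5614 2.703 3.7226 0.001422 0.007218 0.000004245 0.0000003101 0.000581 0.0000003101 0.0000003101 0.0000003101 0.4991
    hβ hN hx1 hx2 hy1 hy2 (by norm_num) (by norm_num) (by linarith) (by norm_num) (by norm_num) (by norm_num) (by norm_num) (by norm_num) (by norm_num) (by norm_num) (by norm_num) (by norm_num) (by norm_num) (by norm_num) (by norm_num) (by norm_num) (by norm_num) (by norm_num) (by norm_num) (by norm_num) (by norm_num) (by norm_num) (by norm_num) (by norm_num)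
    (cube_sqrt_geJ (s := 0.8675) (by norm_num) (by norm_num) (by norm_num) (by norm_num))
    (cube_sqrt_geJ (s := 0.9534) (by norm_num) (by norm_num) (by norm_num) (by norm_num))
    (by norm_num) (by norm_num) (by norm_num) (by norm_num) (by norm_num) (by norm_num) (by norm_num) (by norm_num) (by norm_num) (by norm_num) (by norm_num) (by norm_num) (by norm_num) (by norm_num) (by norm_num) (by norm_num) (by norm_num) (by norm_num)
    (exp_neg_leJ (r := 0.556) 6 (by norm_num) (by norm_num) (by norm_num) (by norm_num))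
    (exp_neg_leJ (r := 0.934) 4 (by norm_num) (by norm_num) (by norm_num) (by norm_num))
    (exp_neg_leJ (r := 0.37) 12 (by norm_num) (by norm_num) (by norm_num) (by norm_num))
    (exp_neg_leJ (r := 0.99) 14 (by norm_num) (by norm_num) (by norm_num) (by norm_num))
    (exp_neg_leJ (r := 0.451) 7 (by norm_num) (by norm_num) (by norm_num) (by norm_num))
    (exp_neg_leJ (r := 0.99) 14 (by norm_num) (by norm_num) (by norm_num) (by norm_num))
    (exp_neg_leJ (r := 0.99) 14 (by norm_num) (by norm_num) (by norm_num) (by norm_num))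
    (exp_neg_leJ (r := 0.99) 14 (by norm_num) (by norm_num) (by norm_num) (by norm_num))
    (by norm_num)) (by norm_num) hN hβ.le (by norm_num)

private theorem B5Go_T80_0_1 {β x y : ℝ} (hβ : 0 < β) (hN : β * 11.111 ≤ 1) (hx1 : 0.87 ≤ x) (hx2 : x ≤ 0.969)
    (hy1 : -0.1001 ≤ y) (hy2 : y ≤ 0.0311) : ‖HH β (x + y * I) - 1‖ ≤ 0.045 := by
  refine le_epsJ (C := 0.4991) (N0 := 11.111) (J_boxp 0.87 0.969 0.1001 0.0311 0.0311 1.2515 0.9742 1.415 0.8497 0.4746 3.3334 11.111 0.7785 2.863 1.42 0.955 0.6257 0.4633 1.148 3.2283 0.7197 1.7014 2.9052 3.6573 0.0009596 0.005817 0.000002892 0.0000003101 0.0003401 0.0000003101 0.0000003101 0.0000003101 0.4991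
    hβ hN hx1 hx2 hy1 hy2 (by norm_num) (by norm_num) (by linarith) (by norm_num) (by norm_num) (by norm_num) (by norm_num) (by norm_num) (by norm_num) (by norm_num) (by norm_num) (by norm_num) (by norm_num) (by norm_num) (by norm_num) (by norm_num) (by norm_num) (by norm_num) (by norm_num) (by norm_num) (by norm_num) (by norm_num) (by norm_num) (by norm_num)
    (cube_sqrt_geJ (s := 0.8605) (by norm_num) (by norm_num) (by norm_num) (by norm_num))
    (cube_sqrt_geJ (s := 0.9511) (by norm_num) (by norm_num) (by norm_num) (by norm_num))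
    (by norm_num) (by norm_num) (by norm_num) (by norm_num) (by norm_num) (by norm_num) (by norm_num) (by norm_num) (by norm_num) (by norm_num) (by norm_num) (by norm_num) (by norm_num) (by norm_num) (by norm_num) (by norm_num) (by norm_num) (by norm_num)
    (exp_neg_leJ (r := 0.952) 6 (by norm_num) (by norm_num) (by norm_num) (by norm_num))
    (exp_neg_leJ (r := 0.147) 5 (by norm_num) (by norm_num) (by norm_num) (by norm_num))
    (exp_neg_leJ (r := 0.755) 12 (by norm_num) (by norm_num) (by norm_num) (by norm_num))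
    (exp_neg_leJ (r := 0.99) 14 (by norm_num) (by norm_num) (by norm_num) (by norm_num))
    (exp_neg_leJ (r := 0.99) 7 (by norm_num) (by norm_num) (by norm_num) (by norm_num))
    (exp_neg_leJ (r := 0.99) 14 (by norm_num) (by norm_num) (by norm_num) (by norm_num))
    (exp_neg_leJ (r := 0.99) 14 (by norm_num) (by norm_num) (by norm_num) (by norm_num))
    (exp_neg_leJ (r := 0.99) 14 (by norm_num) (by norm_num) (by norm_num) (by norm_num))
    (by norm_num)) (by norm_num) hN hβ.le (by norm_num)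

private theorem B5Go_T80_0_2 {β x y : ℝ} (hβ : 0 < β) (hN : β * 11.111 ≤ 1) (hx1 : 0.969 ≤ x) (hx2 : x ≤ 0.9948)
    (hy1 : -0.1001 ≤ y) (hy2 : y ≤ 0.0311) : ‖HH β (x + y * I) - 1‖ ≤ 0.045 := by
  refine le_epsJ (C := 0.4209) (N0 := 11.111) (J_boxp 0.969 0.9948 0.1001 0.0311 0.0311 1.3212 0.9999 1.4328 0.7883 0.4776 3.3334 11.111 0.7569 2.767 1.406 0.9451 0.6605 0.4939 1.1819 3.2134 0.7678 1.8385 3.1032 3.7855 0.0006504 0.004141 0.000001981 0.0000003101 0.0001974 0.0000003101 0.0000003101 0.0000003101 0.4209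
    hβ hN hx1 hx2 hy1 hy2 (by norm_num) (by norm_num) (by linarith) (by norm_num) (by norm_num) (by norm_num) (by norm_num) (by norm_num) (by norm_num) (by norm_num) (by norm_num) (by norm_num) (by norm_num) (by norm_num) (by norm_num) (by norm_num) (by norm_num) (by norm_num) (by norm_num) (by norm_num) (by norm_num) (by norm_num) (by norm_num) (by norm_num)
    (cube_sqrt_geJ (s := 0.8646) (by norm_num) (by norm_num) (by norm_num) (by norm_num))
    (cube_sqrt_geJ (s := 0.9525) (by norm_num) (by norm_num) (by norm_num) (by norm_num))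
    (by norm_num) (by norm_num) (by norm_num) (by norm_num) (by norm_num) (by norm_num) (by norm_num) (by norm_num) (by norm_num) (by norm_num) (by norm_num) (by norm_num) (by norm_num) (by norm_num) (by norm_num) (by norm_num) (by norm_num) (by norm_num)
    (exp_neg_leJ (r := 0.338) 7 (by norm_num) (by norm_num) (by norm_num) (by norm_num))
    (exp_neg_leJ (r := 0.487) 5 (by norm_num) (by norm_num) (by norm_num) (by norm_num))
    (exp_neg_leJ (r := 0.132) 13 (by norm_num) (by norm_num) (by norm_num) (by norm_num))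
    (exp_neg_leJ (r := 0.99) 14 (by norm_num) (by norm_num) (by norm_num) (by norm_num))
    (exp_neg_leJ (r := 0.531) 8 (by norm_num) (by norm_num) (by norm_num) (by norm_num))
    (exp_neg_leJ (r := 0.99) 14 (by norm_num) (by norm_num) (by norm_num) (by norm_num))
    (exp_neg_leJ (r := 0.99) 14 (by norm_num) (by norm_num) (by norm_num) (by norm_num))
    (exp_neg_leJ (r := 0.99) 14 (by norm_num) (by norm_num) (by norm_num) (by norm_num))
    (by norm_num)) (by norm_num) hN hβ.le (by norm_num)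

private theorem B5Go_T80 {β x y : ℝ} (hβ : 0 < β) (hN : β * 11.111 ≤ 1) (hx1 : 0.7689 ≤ x) (hx2 : x ≤ 0.9948)
    (hy1 : (-0.1001) ≤ y) (hy2 : y ≤ 0.0311) : ‖HH β (x + y * I) - 1‖ ≤ 0.045 := by
  rcases le_total x 0.87 with hxx | hxx
  · exact B5Go_T80_0_0 hβ hN (by linarith) (by linarith) (by linarith) (by linarith)
  rcases le_total x 0.969 with hxx | hxx
  · exact B5Go_T80_0_1 hβ hN (by linarith) (by linarith) (by linarith) (by linarith)
  exact B5Go_T80_0_2 hβ hN (by linarith) (by linarith) (by linarith) (by linarith)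

private theorem B5Go_C81 {β r t κ : ℝ} (hβ : 0 < β) (hr : 10 ≤ r) (hκ : κ = β * r) (hk1 : 0.8 ≤ κ) (hk2 : κ ≤ 0.9) (hta : 2.3246 ≤ t + κ)
    (htb : t + κ ≤ 2.5762) : ‖F (cexp (I * β)) (r * cexp (I * ((t + β / 2 : ℝ) : ℂ)))‖ ≤
      4.0551 * Real.exp (r * (0.19 + 1 / 20)) :=
  v5_UD 0.8 0.9 2.3246 2.5762 0.19 0.4461 0.19 2.1141 4.0551 hβ hr hκ (by norm_num) hk1 hk2 hta htb (by norm_num) (by norm_num) (by norm_num) (by norm_num) (by norm_num) (by norm_num) (by norm_num) (by norm_num) (by norm_num) (by norm_num) (by norm_num)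

private theorem B5Go_C82 {β r t κ : ℝ} (hβ : 0 < β) (hr : 10 ≤ r) (hκ : κ = β * r) (hk1 : 0.8 ≤ κ) (hk2 : κ ≤ 0.9) (hta : (-1.4453) ≤ t + κ)
    (htb : t + κ ≤ (-1.1937)) : ‖F (cexp (I * β)) (r * cexp (I * ((t + β / 2 : ℝ) : ℂ)))‖ ≤
      1.0773 * Real.exp (r * (1.39041 - (-0.71) * (t + κ))) + 1.8415 * Real.exp (r * 0.0501) :=
  v5_HU (-0.71) 0.8 0.9 (-1.4453) (-1.1937) 1.39041 1.0773 3.11423 0.1197 0.8556 2.3666 0 0.0501 0.00000136 1.8415 hβ hr hκ (by norm_num) hk1 hk2 hta htb (by norm_num) (by norm_num) (B5Go_G21 hk1 hk2).1 (B5Go_G21 hk1 hk2).2 (by norm_num) (by norm_num) (by norm_num)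
    (by norm_num) (by norm_num) (by norm_num) (by norm_num) (by norm_num) (by norm_num) (by norm_num)
    (by norm_num) (by norm_num) (by norm_num) (v5_hump 5.3592 11.111 3.3334 0.0000009316 0.00000136 hβ hr hκ hk1 hk2 (by norm_num) htb (by norm_num) (by norm_num) (by norm_num) (by norm_num) (by norm_num) (by norm_num) (by norm_num) (ex_un 13 0.9 (by norm_num) (by norm_num) (by norm_num) (by norm_num)) (by norm_num)) (by norm_num)

private theorem B5Go_C83 {β r t κ : ℝ} (hβ : 0 < β) (hr : 10 ≤ r) (hκ : κ = β * r) (hk1 : 0.8 ≤ κ) (hk2 : κ ≤ 0.9) (hta : 3.5812 ≤ t + κ)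
    (htb : t + κ ≤ 3.8328) : ‖F (cexp (I * β)) (r * cexp (I * ((t + β / 2 : ℝ) : ℂ)))‖ ≤
      2.2116 * Real.exp (r * (0.01 + 1 / 20)) :=
  v5_UD 0.8 0.9 3.5812 3.8328 0.01 0.4461 0.01 1.153 2.2116 hβ hr hκ (by norm_num) hk1 hk2 hta htb (by norm_num) (by norm_num) (by norm_num) (by norm_num) (by norm_num) (by norm_num) (by norm_num) (by norm_num) (by norm_num) (by norm_num) (by norm_num)

private theorem B5Go_Y84 {β r t κ h t' : ℝ} (hβ : 0 < β) (hκ : κ = β * r) (hN : β * 11.111 ≤ 1) (hk1 : 0.8 ≤ κ) (hk2 : κ ≤ 0.9)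
    (ht : t' = t + (((0 : ℤ) : ℝ) - 1) * h) (hD : DomR κ t') (hta : (-0.1887) ≤ t' + κ) (htb : t' + κ ≤ 0.0629) :
    0.8218 * Real.exp (r * sE κ t') ≤ ‖Xf β r h t 0‖ := by
  obtain ⟨⟨ya, yb⟩, ⟨xa, xb⟩, n1, Da, Db⟩ := B5Go_B79 hD hk1 hk2 hta htb
  have J := B5Go_T80 (x := sx κ t') (y := sy κ t') hβ hN (by linarith only [xa, xb, ya, yb]) (by linarith only [xa, xb, ya, yb]) (by linarith only [xa, xb, ya, yb]) (by linarith only [xa, xb, ya, yb])
  exact v5_Jlo hβ hκ (k := 0) ht hD 0.045 1.8234 0.8218 (by norm_num) J Db (by norm_num)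

private theorem B5Go_V85 {κ t : ℝ} (hD : DomR κ t) (hk1 : 0.8 ≤ κ) (hk2 : κ ≤ 0.9) (hta : (-0.1887) ≤ t + κ) (htb : t + κ ≤ 0.0629) :
    0.9962 + 0.0402 * (t + κ) ≤ sE κ t := by
  have hκ0 : 0 < κ := hD.1
  exact v5_V0 hD 0.8 0.9 (-0.1887) 0.0629 0.1888 0.5243 0.12214 0.14875 0.22671 0.54879 0.9962 0.0402 (by norm_num) hk1 hk2 (by norm_num) hta htb (by norm_num) (by norm_num) (by norm_num) ((cup1 0.9 hκ0.le hk2 (by norm_num)).trans (by norm_num))
      (by norm_num) (by norm_num) (by norm_num) (by norm_num) (by norm_num) (by norm_num) (by norm_num) (by norm_num) (by norm_num) (by norm_num) (by norm_num) (by norm_num) (by norm_num)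

private theorem B5Go_K86 {β r t κ h : ℝ} (hβ : 0 < β) (hr : 10 ≤ r) (hκ : κ = β * r) (hk1 : 0.8 ≤ κ) (hk2 : κ ≤ 0.9)
    (hh : h = 2 * Real.pi / 5) (hh1 : 1.25663 ≤ h) (hh2 : h ≤ 1.25664) (hta : 1.068 ≤ t + κ) (htb : t + κ ≤ 1.3195)
    (hY : 0.8218 * Real.exp (r * sE κ (t - h)) ≤ ‖Xf β r h t 0‖) (hV : 0.9962 + 0.0402 * (t - h + κ) ≤ sE κ (t - h)) :
    ‖Xf β r h t 2‖ ≤ 0.00278 * ‖Xf β r h t 0‖ := by
  rw [v5_X 2 1 (by push_cast; ring)]
  exact v5_cmp0 0.7486 0.0005619 0.00278 hr (B5Go_C81 (t := t + 1 * h) hβ hr hκ hk1 hk2 (by linarith only [hta, htb, hh1, hh2]) (by linarith only [hta, htb, hh1, hh2])) hY (by norm_num) (by norm_num) (by norm_num) (by linarith only [hV, hta, htb, hh1, hh2]) (ex_un 7 0.4859 (by norm_num) (by norm_num) (by norm_num) (by norm_num)) (by norm_num)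

private theorem B5Go_K87 {β r t κ h : ℝ} (hβ : 0 < β) (hr : 10 ≤ r) (hκ : κ = β * r) (hk1 : 0.8 ≤ κ) (hk2 : κ ≤ 0.9)
    (hh : h = 2 * Real.pi / 5) (hh1 : 1.25663 ≤ h) (hh2 : h ≤ 1.25664) (hta : 1.068 ≤ t + κ) (htb : t + κ ≤ 1.3195)
    (hY : 0.8218 * Real.exp (r * sE κ (t - h)) ≤ ‖Xf β r h t 0‖) (hV : 0.9962 + 0.0402 * (t - h + κ) ≤ sE κ (t - h)) :
    ‖Xf β r h t (-1)‖ ≤ 0.014 * ‖Xf β r h t 0‖ := by
  rw [v5_X (-1) (-2) (by push_cast; ring)]
  exact v5_cmp 0.4558 0.01052 0.0138 0.9385 0.00008404 0.000189 0.014 hr (B5Go_C82 (t := t + (-2) * h) hβ hr hκ hk1 hk2 (by linarith only [hta, htb, hh1, hh2]) (by linarith only [hta, htb, hh1, hh2])) hY (by norm_num) (by norm_num) (by norm_num) (by norm_num) (by linarith only [hV, hta, htb, hh1, hh2]) (ex_un 4 0.5579 (by norm_num) (by norm_num) (by norm_num) (by norm_num)) (by norm_num) (by norm_num) (by linarith only [hV, hta, htb, hh1, hh2]) (ex_un 9 0.3849 (by norm_num) (by norm_num)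 (by norm_num) (by norm_num)) (by norm_num) (by norm_num)

private theorem B5Go_K88 {β r t κ h : ℝ} (hβ : 0 < β) (hr : 10 ≤ r) (hκ : κ = β * r) (hk1 : 0.8 ≤ κ) (hk2 : κ ≤ 0.9)
    (hh : h = 2 * Real.pi / 5) (hh1 : 1.25663 ≤ h) (hh2 : h ≤ 1.25664) (hta : 1.068 ≤ t + κ) (htb : t + κ ≤ 1.3195)
    (hY : 0.8218 * Real.exp (r * sE κ (t - h)) ≤ ‖Xf β r h t 0‖) (hV : 0.9962 + 0.0402 * (t - h + κ) ≤ sE κ (t - h)) :
    ‖Xf β r h t (-2)‖ ≤ 0.00025 * ‖Xf β r h t 0‖ := by
  rw [v5_Xm2 hh]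
  exact v5_cmp0 0.9286 0.00009275 0.00025 hr (B5Go_C83 (t := t + 2 * h) hβ hr hκ hk1 hk2 (by linarith only [hta, htb, hh1, hh2]) (by linarith only [hta, htb, hh1, hh2])) hY (by norm_num) (by norm_num) (by norm_num) (by linarith only [hV, hta, htb, hh1, hh2]) (ex_un 9 0.2859 (by norm_num) (by norm_num) (by norm_num) (by norm_num)) (by norm_num)

private theorem B5Go_G89 {κ : ℝ} (hk1 : 0.8 ≤ κ) (hk2 : κ ≤ 0.9) : gG κ 0.37 ≤ 1.14797 ∧ 0.51375 ≤ Real.exp (-(κ * 0.37)) ^ 2 := by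
  refine ⟨gG_le 0.37 0.8 0.9 1.14797 0.74379 0.71678 1.34448 1.39515 hk1 hk2 (by norm_num)
    (ex_um 0.296 (by norm_num) (by norm_num) (by norm_num) (by norm_num)) (ex_um 0.333 (by norm_num) (by norm_num) (by norm_num) (by norm_num))
    (ex_up 0.296 (by norm_num) (by norm_num) (by norm_num) (by norm_num)) (ex_up 0.333 (by norm_num) (by norm_num) (by norm_num) (by norm_num))
    (by norm_num) (by norm_num), ?_⟩
  exact v5_M 0.71677 (ex_lm 0.333 (by linarith) (by norm_num) (by norm_num) (by norm_num) (by norm_num)) (by norm_num) (by norm_num)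

private theorem B5Go_C90 {β r t κ : ℝ} (hβ : 0 < β) (hr : 10 ≤ r) (hκ : κ = β * r) (hk1 : 0.8 ≤ κ) (hk2 : κ ≤ 0.9) (hta : 1.0679 ≤ t + κ)
    (htb : t + κ ≤ 1.3196) : ‖F (cexp (I * β)) (r * cexp (I * ((t + β / 2 : ℝ) : ℂ)))‖ ≤
      1.7588 * Real.exp (r * (1.14797 - 0.37 * (t + κ))) + 0.1886 * Real.exp (r * 0) :=
  v5_H 0.37 0.8 0.9 1.0679 1.3196 1.14797 1.7477 0.51375 0.1197 1.7385 1.051 0.23377 0.0966 0.00000136 1.7588 0.1886 hβ hr hκ (by norm_num) hk1 hk2 hta htb (by norm_num) (B5Go_G89 hk1 hk2).1 (B5Go_G89 hk1 hk2).2 (by norm_num) (by norm_num) (by norm_num)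
    (by norm_num) (by norm_num) (by norm_num) (by norm_num) (by norm_num) (by norm_num) (by norm_num) (by norm_num) (ex_un 2 0.3376 (by norm_num) (by norm_num) (by norm_num) (by norm_num))
    (v5_hump 2.8459 11.111 3.3334 0.0000009316 0.00000136 hβ hr hκ hk1 hk2 (by norm_num) htb (by norm_num) (by norm_num) (by norm_num) (by norm_num) (by norm_num) (by norm_num) (by norm_num) (ex_un 13 0.9 (by norm_num) (by norm_num) (by norm_num) (by norm_num)) (by norm_num)) (by norm_num) (by norm_num)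

private theorem B5Go_K91 {β r t κ h : ℝ} (hβ : 0 < β) (hr : 10 ≤ r) (hκ : κ = β * r) (hk1 : 0.8 ≤ κ) (hk2 : κ ≤ 0.9)
    (hh : h = 2 * Real.pi / 5) (hh1 : 1.25663 ≤ h) (hh2 : h ≤ 1.25664) (hta : 1.068 ≤ t + κ) (htb : t + κ ≤ 1.3195)
    (hY : 0.8218 * Real.exp (r * sE κ (t - h)) ≤ ‖Xf β r h t 0‖) (hV : 0.9962 + 0.0402 * (t - h + κ) ≤ sE κ (t - h)) :
    ‖Xf β r h t 1‖ ≤ 0.204 * ‖Xf β r h t 0‖ := by
  rw [v5_X 1 0 (by push_cast; ring)]
  exact v5_cmp 0.2358 0.09467 0.203 0.9886 0.00005155 0.0000119 0.204 hr (B5Go_C90 (t := t + 0 * h) hβ hr hκ hk1 hk2 (by linarith only [hta, htb, hh1, hh2]) (by linarith only [hta, htb, hh1, hh2])) hY (by norm_num) (by norm_num) (by norm_num) (by norm_num) (by linarith only [hV, hta, htb, hh1, hh2]) (ex_un 2 0.3579 (by norm_num) (by norm_num) (by norm_num) (by norm_num)) (by norm_num) (by norm_num) (by linarith only [hV, hta, htb, hh1, hh2]) (ex_un 9 0.8859 (by norm_num) (by norm_num) (by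 norm_num) (by norm_num)) (by norm_num) (by norm_num)

private theorem B5Go_O92 {β r t κ h : ℝ} (hβ : 0 < β) (hr : 10 ≤ r) (hκ : κ = β * r) (hk1 : 0.8 ≤ κ) (hk2 : κ ≤ 0.9)
    (hh : h = 2 * Real.pi / 5) (hta : 1.068 ≤ t + κ) (htb : t + κ ≤ 1.3195) :
    ‖Xf β r h t (-2)‖ + ‖Xf β r h t (-1)‖ + ‖Xf β r h t 2‖ < |‖Xf β r h t 1‖ - ‖Xf β r h t 0‖| := by
  obtain ⟨hh1, hh2⟩ := v5_h hh
  have hκ0 : 0 < κ := by linarith only [hk1]
  have hN : β * 11.111 ≤ 1 := v5_hN 0.9 11.111 hβ hr hκ hk2 (by norm_num) (by norm_num)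
  have hD1 : DomR κ t := v5_dom hκ0 (by linarith only [hta, htb, hk1, hk2, hh1, hh2]) (Or.inr (by linarith only [hta, htb, hk1, hk2, hh1, hh2]))
  have hD0 : DomR κ (t - h) := v5_dom hκ0 (by linarith only [hta, htb, hk1, hk2, hh1, hh2]) (Or.inr (by linarith only [hta, htb, hk1, hk2, hh1, hh2]))
  have h0a : (-0.1887) ≤ t - h + κ := by linarith only [hta, htb, hh1, hh2]
  have h0b : t - h + κ ≤ 0.0629 := by linarith only [hta, htb, hh1, hh2]
  have e0 : t - h = t + (((0 : ℤ) : ℝ) - 1) * h := by push_cast; ring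
  have hY := B5Go_Y84 (h := h) hβ hκ hN hk1 hk2 e0 hD0 h0a h0b
  have hV := B5Go_V85 hD0 hk1 hk2 h0a h0b
  have cp2 := B5Go_K86 hβ hr hκ hk1 hk2 hh hh1 hh2 hta htb hY hV
  have cm1 := B5Go_K87 hβ hr hκ hk1 hk2 hh hh1 hh2 hta htb hY hV
  have cm2 := B5Go_K88 hβ hr hκ hk1 hk2 hh hh1 hh2 hta htb hY hV
  have cn1 := B5Go_K91 hβ hr hκ hk1 hk2 hh hh1 hh2 hta htb hY hV
  have hp : 0 < ‖Xf β r h t 0‖ := lt_of_lt_of_le (by positivity) hY
  exact v5_out0 _ _ _ _ cm2 cm1 cp2 cn1 hp (by norm_num)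

theorem R1_b5_G {p : ℤ} {β r : ℝ} (hp : IsCoprime (5 : ℤ) p) (hr : 10 ≤ r) (hβ : 0 < β) (hk1 : 0.8 ≤ β * r)
    (hk2 : β * r ≤ 0.9) : Circ (2 * Real.pi * p / 5 + β) r := by
  obtain ⟨h, hh⟩ : ∃ h : ℝ, h = 2 * Real.pi / 5 := ⟨_, rfl⟩
  obtain ⟨hh1, hh2⟩ := v5_h hh
  obtain ⟨κ, hκ⟩ : ∃ κ, κ = β * r := ⟨_, rfl⟩
  rw [← hκ] at hk1 hk2
  refine v5_circ (κ := κ) hp hr hh 0.45 0.61 1.03 0.0202 0.0166 0.00185 0.00168 0.0375 0.00884 0.0102 0.4125 ?_ ?_ (by norm_num) (by norm_num) (by norm_num) (by norm_num) (by norm_num) (by norm_num) (by norm_num) (by norm_num) (by norm_num) (by norm_num)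
  · intro t g1 g2
    rcases le_total (t + κ) 0.666 with g3 | g3
    · exact B5Gw_W22 hβ hr hκ hk1 hk2 hh (by linarith) (by linarith)
    exact B5Gw_W43 hβ hr hκ hk1 hk2 hh (by linarith) (by linarith)
  · intro t g1 g2 g3
    rcases g3 with g3 | g3
    · rcases le_total (t + κ) 0.251 with g4 | g4
      · exact B5Go_O16 hβ hr hκ hk1 hk2 hh (by linarith) (by linarith)
      rcases le_total (t + κ) 0.415 with g4 | g4
      · exact B5Go_O32 hβ hr hκ hk1 hk2 hh (by linarith) (by linarith)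
      exact B5Go_O47 hβ hr hκ hk1 hk2 hh (by linarith) (by linarith)
    · rcases le_total (t + κ) 0.88 with g4 | g4
      · exact B5Go_O64 hβ hr hκ hk1 hk2 hh (by linarith) (by linarith)
      rcases le_total (t + κ) 1.068 with g4 | g4
      · exact B5Go_O78 hβ hr hκ hk1 hk2 hh (by linarith) (by linarith)
      exact B5Go_O92 hβ hr hκ hk1 hk2 hh (by linarith) (by linarith)

end Sok
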