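import Pool.Agent.Lib.MP_816dec_an.R1b5WH

/-!
MP_816dec_an (A3, row R1), SINGLE CASE `b = 5`, `r ≥ 10`, `0.9 ≤ κ ≤ 1`: outside the window, assembly (generated file).
-/

set_option autoImplicit false
set_option linter.unusedVariables false

open Complex Set Filter Topology Metric

namespace Sok

private theorem B5Ho_B1 {κ t : ℝ} (h : DomR κ t) (hk1 : 0.9 ≤ κ) (hk2 : κ ≤ 1) (ht1 : 0.0628 ≤ t + κ) (ht2 : t + κ ≤ 0.251) :
    (0.03 ≤ sy κ t ∧ sy κ t ≤ 0.118) ∧ (0.791 ≤ sx κ t ∧ sx κ t ≤ 0.97) ∧ κ * Real.exp (-sy κ t) ≤ 0.9705 ∧ 1.8228 ≤ sD κ t ∧ sD κ t ≤ 2.0258 := by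
  have hy1 : 0.03 ≤ sy κ t := syR_ge h 0.9 1 0.0628 0.03 1.03045 1.03046 0.03091 0.03435 hk1 hk2 (by linarith) (by norm_num) (by norm_num)
    (expn_ge (by norm_num) (by norm_num)) (expn_le (by norm_num) (by norm_num) (by norm_num)) (by norm_num)
    (by norm_num) (by norm_num) (by norm_num) (by norm_num) (by norm_num) (by norm_num)
  have hy2 : sy κ t ≤ 0.118 := syR_le h 0.9 1 0.251 0.118 1.12524 0.129 0.13277 0.14754 hk1 hk2 (by linarith) (by norm_num) (by norm_num)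
    (expn_ge (by norm_num) (by norm_num)) (by norm_num) (by norm_num) (Or.inr ((mul_le_mul_of_nonneg_left (expn_le (E := 1.12525) (by norm_num) (by norm_num) (by norm_num)) (by norm_num)).trans (by norm_num))) (by norm_num) (by norm_num) (by norm_num)
  have hy1' : 0.03 ≤ sy κ t := by linarith
  have hy2' : sy κ t ≤ 0.118 := by linarith
  have hx1 : 0.791 ≤ sx κ t := sx_lo h 0.9 0.118 0.1181 0.88869 0.791 hk1 (by norm_num) hy2' (abs_le.2 ⟨by linarith, by linarith⟩) (ex_lm 0.118 (by norm_num) (by norm_num) (by norm_num) (by norm_num) (by norm_num)) (by norm_num) (by norm_num)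
  have hx2 : sx κ t ≤ 0.97 := sx_hi h 1 0.03 0.03 0.97045 0.97 hk2 hy1' (by norm_num) (le_trans (by linarith) (le_abs_self _)) (ex_um 0.03 (by norm_num) (by norm_num) (by norm_num) (by norm_num)) (by norm_num) (by norm_num)
  refine ⟨⟨hy1', hy2'⟩, ⟨hx1, hx2⟩, v5_n h 1 0.03 0.97045 0.9705 hk2 hy1' (ex_um 0.03 (by norm_num) (by norm_num) (by norm_num) (by norm_num)) (by norm_num), ?_, ?_⟩
  · exact v5_Dlo h 0.9 0.03 0.118 0.03 0.97044 1.8228 (by norm_num) hk1 hy1' hy2' (ex_lm 0.03 (by norm_num) (by norm_num) (by norm_num) (by norm_num) (by norm_num)) (by norm_num) (by norm_num) (by norm_num) (by norm_num)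
  · exact v5_Dup h 1 0.03 0.118 0.97045 0.8887 2.0258 hk2 hy1' hy2' (ex_um 0.03 (by norm_num) (by norm_num) (by norm_num) (by norm_num)) (ex_um 0.118 (by norm_num) (by norm_num) (by norm_num) (by norm_num)) (by norm_num) (by norm_num) (by norm_num)

private theorem B5Ho_T2_0_0 {β x y : ℝ} (hβ : 0 < β) (hN : β * 9.999 ≤ 1) (hx1 : 0.7909 ≤ x) (hx2 : x ≤ 0.859)
    (hy1 : -0 ≤ y) (hy2 : y ≤ 0.1181) : ‖HH β (x + y * I) - 1‖ ≤ 0.04 := by
  refine le_epsJ (C := 0.3992) (N0 := 9.999) (J_boxp 0.7909 0.859 0 0.1181 0.1181 1.2669 0.8671 1.41 0.8328 0.4738 3.1622 9.999 0.6845 2.476 1.359 1.0897 0.6334 0.4889 1.279 3.6052 0.7271 1.583 2.6459 3.3803 0.001777 0.007554 0.000002798 0.0000003101 0.0006962 0.0000003101 0.0000003101 0.0000003101 0.3992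
    hβ hN hx1 hx2 hy1 hy2 (by norm_num) (by norm_num) (by linarith) (by norm_num) (by norm_num) (by norm_num) (by norm_num) (by norm_num) (by norm_num) (by norm_num) (by norm_num) (by norm_num) (by norm_num) (by norm_num) (by norm_num) (by norm_num) (by norm_num) (by norm_num) (by norm_num) (by norm_num) (by norm_num) (by norm_num) (by norm_num) (by norm_num)
    (cube_sqrt_geJ (s := 0.8785) (by norm_num) (by norm_num) (by norm_num) (by norm_num))
    (cube_sqrt_geJ (s := 0.9571) (by norm_num) (by norm_num) (by norm_num) (by norm_num))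
    (by norm_num) (by norm_num) (by norm_num) (by norm_num) (by norm_num) (by norm_num) (by norm_num) (by norm_num) (by norm_num) (by norm_num) (by norm_num) (by norm_num) (by norm_num) (by norm_num) (by norm_num) (by norm_num) (by norm_num) (by norm_num)
    (exp_neg_leJ (r := 0.333) 6 (by norm_num) (by norm_num) (by norm_num) (by norm_num))
    (exp_neg_leJ (r := 0.888) 4 (by norm_num) (by norm_num) (by norm_num) (by norm_num))
    (exp_neg_leJ (r := 0.788) 12 (by norm_num) (by norm_num) (by norm_num) (by norm_num))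
    (exp_neg_leJ (r := 0.99) 14 (by norm_num) (by norm_num) (by norm_num) (by norm_num))
    (exp_neg_leJ (r := 0.27) 7 (by norm_num) (by norm_num) (by norm_num) (by norm_num))
    (exp_neg_leJ (r := 0.99) 14 (by norm_num) (by norm_num) (by norm_num) (by norm_num))
    (exp_neg_leJ (r := 0.99) 14 (by norm_num) (by norm_num) (by norm_num) (by norm_num))
    (exp_neg_leJ (r := 0.99) 14 (by norm_num) (by norm_num) (by norm_num) (by norm_num))
    (by norm_num)) (by norm_num) hN hβ.le (by norm_num)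

private theorem B5Ho_T2_0_1 {β x y : ℝ} (hβ : 0 < β) (hN : β * 9.999 ≤ 1) (hx1 : 0.859 ≤ x) (hx2 : x ≤ 0.926)
    (hy1 : -0 ≤ y) (hy2 : y ≤ 0.1181) : ‖HH β (x + y * I) - 1‖ ≤ 0.04 := by
  refine le_epsJ (C := 0.3999) (N0 := 9.999) (J_boxp 0.859 0.926 0 0.1181 0.1181 1.3149 0.9336 1.4518 0.7992 0.4807 3.1622 9.999 0.7101 2.574 1.375 1.0639 0.6574 0.5018 1.3023 3.5666 0.7602 1.6773 2.7821 3.3357 0.001399 0.006625 0.000002214 0.0000003101 0.0005002 0.0000003101 0.0000003101 0.0000003101 0.3999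
    hβ hN hx1 hx2 hy1 hy2 (by norm_num) (by norm_num) (by linarith) (by norm_num) (by norm_num) (by norm_num) (by norm_num) (by norm_num) (by norm_num) (by norm_num) (by norm_num) (by norm_num) (by norm_num) (by norm_num) (by norm_num) (by norm_num) (by norm_num) (by norm_num) (by norm_num) (by norm_num) (by norm_num) (by norm_num) (by norm_num) (by norm_num)
    (cube_sqrt_geJ (s := 0.8736) (by norm_num) (by norm_num) (by norm_num) (by norm_num))
    (cube_sqrt_geJ (s := 0.9555) (by norm_num) (by norm_num) (by norm_num) (by norm_num))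
    (by norm_num) (by norm_num) (by norm_num) (by norm_num) (by norm_num) (by norm_num) (by norm_num) (by norm_num) (by norm_num) (by norm_num) (by norm_num) (by norm_num) (by norm_num) (by norm_num) (by norm_num) (by norm_num) (by norm_num) (by norm_num)
    (exp_neg_leJ (r := 0.573) 6 (by norm_num) (by norm_num) (by norm_num) (by norm_num))
    (exp_neg_leJ (r := 0.017) 5 (by norm_num) (by norm_num) (by norm_num) (by norm_num))
    (exp_neg_leJ (r := 0.021) 13 (by norm_num) (by norm_num) (by norm_num) (by norm_num))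
    (exp_neg_leJ (r := 0.99) 14 (by norm_num) (by norm_num) (by norm_num) (by norm_num))
    (exp_neg_leJ (r := 0.601) 7 (by norm_num) (by norm_num) (by norm_num) (by norm_num))
    (exp_neg_leJ (r := 0.99) 14 (by norm_num) (by norm_num) (by norm_num) (by norm_num))
    (exp_neg_leJ (r := 0.99) 14 (by norm_num) (by norm_num) (by norm_num) (by norm_num))
    (exp_neg_leJ (r := 0.99) 14 (by norm_num) (by norm_num) (by norm_num) (by norm_num))
    (by norm_num)) (by norm_num) hN hβ.le (by norm_num)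

private theorem B5Ho_T2_0_2 {β x y : ℝ} (hβ : 0 < β) (hN : β * 9.999 ≤ 1) (hx1 : 0.926 ≤ x) (hx2 : x ≤ 0.9701)
    (hy1 : -0 ≤ y) (hy2 : y ≤ 0.1181) : ‖HH β (x + y * I) - 1‖ ≤ 0.04 := by
  refine le_epsJ (C := 0.3815) (N0 := 9.999) (J_boxp 0.926 0.9701 0 0.1181 0.1181 1.362 0.9773 1.4803 0.7655 0.4854 3.1622 9.999 0.7176 2.604 1.38 1.047 0.6809 0.5181 1.3252 3.5412 0.7927 1.7701 2.9161 3.351 0.001107 0.005629 0.000001761 0.0000003101 0.0003622 0.0000003101 0.0000003101 0.0000003101 0.3815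
    hβ hN hx1 hx2 hy1 hy2 (by norm_num) (by norm_num) (by linarith) (by norm_num) (by norm_num) (by norm_num) (by norm_num) (by norm_num) (by norm_num) (by norm_num) (by norm_num) (by norm_num) (by norm_num) (by norm_num) (by norm_num) (by norm_num) (by norm_num) (by norm_num) (by norm_num) (by norm_num) (by norm_num) (by norm_num) (by norm_num) (by norm_num)
    (cube_sqrt_geJ (s := 0.8722) (by norm_num) (by norm_num) (by norm_num) (by norm_num))
    (cube_sqrt_geJ (s := 0.955) (by norm_num) (by norm_num) (by norm_num) (by norm_num))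
    (by norm_num) (by norm_num) (by norm_num) (by norm_num) (by norm_num) (by norm_num) (by norm_num) (by norm_num) (by norm_num) (by norm_num) (by norm_num) (by norm_num) (by norm_num) (by norm_num) (by norm_num) (by norm_num) (by norm_num) (by norm_num)
    (exp_neg_leJ (r := 0.808) 6 (by norm_num) (by norm_num) (by norm_num) (by norm_num))
    (exp_neg_leJ (r := 0.18) 5 (by norm_num) (by norm_num) (by norm_num) (by norm_num))
    (exp_neg_leJ (r := 0.25) 13 (by norm_num) (by norm_num) (by norm_num) (by norm_num))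
    (exp_neg_leJ (r := 0.99) 14 (by norm_num) (by norm_num) (by norm_num) (by norm_num))
    (exp_neg_leJ (r := 0.926) 7 (by norm_num) (by norm_num) (by norm_num) (by norm_num))
    (exp_neg_leJ (r := 0.99) 14 (by norm_num) (by norm_num) (by norm_num) (by norm_num))
    (exp_neg_leJ (r := 0.99) 14 (by norm_num) (by norm_num) (by norm_num) (by norm_num))
    (exp_neg_leJ (r := 0.99) 14 (by norm_num) (by norm_num) (by norm_num) (by norm_num))
    (by norm_num)) (by norm_num) hN hβ.le (by norm_num)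

private theorem B5Ho_T2 {β x y : ℝ} (hβ : 0 < β) (hN : β * 9.999 ≤ 1) (hx1 : 0.7909 ≤ x) (hx2 : x ≤ 0.9701)
    (hy1 : 0.0299 ≤ y) (hy2 : y ≤ 0.1181) : ‖HH β (x + y * I) - 1‖ ≤ 0.04 := by
  rcases le_total x 0.859 with hxx | hxx
  · exact B5Ho_T2_0_0 hβ hN (by linarith) (by linarith) (by linarith) (by linarith)
  rcases le_total x 0.926 with hxx | hxx
  · exact B5Ho_T2_0_1 hβ hN (by linarith) (by linarith) (by linarith) (by linarith)
  exact B5Ho_T2_0_2 hβ hN (by linarith) (by linarith) (by linarith) (by linarith)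

private theorem B5Ho_G3 {κ : ℝ} (hk1 : 0.9 ≤ κ) (hk2 : κ ≤ 1) : gG κ 0.4 ≤ 1.19448 ∧ 0.44932 ≤ Real.exp (-(κ * 0.4)) ^ 2 := by
  refine ⟨gG_le 0.4 0.9 1 1.19448 0.69768 0.67033 1.43333 1.49183 hk1 hk2 (by norm_num)
    (ex_um 0.36 (by norm_num) (by norm_num) (by norm_num) (by norm_num)) (ex_um 0.4 (by norm_num) (by norm_num) (by norm_num) (by norm_num))
    (ex_up 0.36 (by norm_num) (by norm_num) (by norm_num) (by norm_num)) (ex_up 0.4 (by norm_num) (by norm_num) (by norm_num) (by norm_num))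
    (by norm_num) (by norm_num), ?_⟩
  exact v5_M 0.67032 (ex_lm 0.4 (by linarith) (by norm_num) (by norm_num) (by norm_num) (by norm_num)) (by norm_num) (by norm_num)

private theorem B5Ho_C4 {β r t κ : ℝ} (hβ : 0 < β) (hr : 10 ≤ r) (hκ : κ = β * r) (hk1 : 0.9 ≤ κ) (hk2 : κ ≤ 1) (hta : 1.3194 ≤ t + κ)
    (htb : t + κ ≤ 1.5077) : ‖F (cexp (I * β)) (r * cexp (I * ((t + β / 2 : ℝ) : ℂ)))‖ ≤
      1.7854 * Real.exp (r * (1.19448 - 0.4 * (t + κ))) + 0.193 * Real.exp (r * 0) :=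
  v5_H 0.4 0.9 1 1.3194 1.5077 1.19448 1.7603 0.44932 0.1262 1.89 0.9629 0.16615 0.1908 0.0000013 1.7854 0.193 hβ hr hκ (by norm_num) hk1 hk2 hta htb (by norm_num) (B5Ho_G3 hk1 hk2).1 (B5Ho_G3 hk1 hk2).2 (by norm_num) (by norm_num) (by norm_num)
    (by norm_num) (by norm_num) (by norm_num) (by norm_num) (by norm_num) (by norm_num) (by norm_num) (by norm_num) (ex_un 1 0.6614 (by norm_num) (by norm_num) (by norm_num) (by norm_num))
    (v5_hump 2.4859 9.999 3.1622 0.0000009316 0.0000013 hβ hr hκ hk1 hk2 (by norm_num) htb (by norm_num) (by norm_num) (by norm_num) (by norm_num) (by norm_num) (by norm_num) (by norm_num) (ex_un 13 0.9 (by norm_num) (by norm_num) (by norm_num) (by norm_num)) (by norm_num)) (by norm_num) (by norm_num)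

private theorem B5Ho_G5 {κ : ℝ} (hk1 : 0.9 ≤ κ) (hk2 : κ ≤ 1) : gG κ (-0.71) ≤ 1.44934 ∧ 3.58939 ≤ Real.exp (-(κ * (-0.71))) ^ 2 := by
  refine ⟨gG_le (-0.71) 0.9 1 1.44934 1.89459 2.034 0.52783 0.49165 hk1 hk2 (by norm_num)
    (ex_up 0.639 (by norm_num) (by norm_num) (by norm_num) (by norm_num)) (ex_up 0.71 (by norm_num) (by norm_num) (by norm_num) (by norm_num))
    (ex_um 0.639 (by norm_num) (by norm_num) (by norm_num) (by norm_num)) (ex_um 0.71 (by norm_num) (by norm_num) (by norm_num) (by norm_num))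
    (by norm_num) (by norm_num), ?_⟩
  exact v5_M 1.89457 (ex_lp 0.639 (by linarith) (by norm_num) (by norm_num)) (by norm_num) (by norm_num)

private theorem B5Ho_C6 {β r t κ : ℝ} (hβ : 0 < β) (hr : 10 ≤ r) (hκ : κ = β * r) (hk1 : 0.9 ≤ κ) (hk2 : κ ≤ 1) (hta : (-2.4505) ≤ t + κ)
    (htb : t + κ ≤ (-2.2622)) : ‖F (cexp (I * β)) (r * cexp (I * ((t + β / 2 : ℝ) : ℂ)))‖ ≤
      0.9741 * Real.exp (r * (1.44934 - (-0.71) * (t + κ))) + 1.8592 * Real.exp (r * 0.0501) :=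
  v5_HU (-0.71) 0.9 1 (-2.4505) (-2.2622) 1.44934 0.9741 3.58939 0.1262 0.8067 1.2614 0 0.0501 0.0000013 1.8592 hβ hr hκ (by norm_num) hk1 hk2 hta htb (by norm_num) (by norm_num) (B5Ho_G5 hk1 hk2).1 (B5Ho_G5 hk1 hk2).2 (by norm_num) (by norm_num) (by norm_num)
    (by norm_num) (by norm_num) (by norm_num) (by norm_num) (by norm_num) (by norm_num) (by norm_num)
    (by norm_num) (by norm_num) (by norm_num) (v5_hump 6.2558 9.999 3.1622 0.0000009316 0.0000013 hβ hr hκ hk1 hk2 (by norm_num) htb (by norm_num) (by norm_num) (by norm_num) (by norm_num) (by norm_num) (by norm_num) (by norm_num) (ex_un 13 0.9 (by norm_num) (by norm_num) (by norm_num) (by norm_num)) (by norm_num)) (by norm_num)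

private theorem B5Ho_C7 {β r t κ : ℝ} (hβ : 0 < β) (hr : 10 ≤ r) (hκ : κ = β * r) (hk1 : 0.9 ≤ κ) (hk2 : κ ≤ 1) (hta : 2.576 ≤ t + κ)
    (htb : t + κ ≤ 2.7643) : ‖F (cexp (I * β)) (r * cexp (I * ((t + β / 2 : ℝ) : ℂ)))‖ ≤
      3.8456 * Real.exp (r * (0.04 + 1 / 20)) :=
  v5_UD 0.9 1 2.576 2.7643 0.04 0.4206 0.04 2.0049 3.8456 hβ hr hκ (by norm_num) hk1 hk2 hta htb (by norm_num) (by norm_num) (by norm_num) (by norm_num) (by norm_num) (by norm_num) (by norm_num) (by norm_num) (by norm_num) (by norm_num) (by norm_num)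

private theorem B5Ho_Y8 {β r t κ h t' : ℝ} (hβ : 0 < β) (hκ : κ = β * r) (hN : β * 9.999 ≤ 1) (hk1 : 0.9 ≤ κ) (hk2 : κ ≤ 1)
    (ht : t' = t + (((1 : ℤ) : ℝ) - 1) * h) (hD : DomR κ t') (hta : 0.0628 ≤ t' + κ) (htb : t' + κ ≤ 0.251) :
    0.8046 * Real.exp (r * sE κ t') ≤ ‖Xf β r h t 1‖ := by
  obtain ⟨⟨ya, yb⟩, ⟨xa, xb⟩, n1, Da, Db⟩ := B5Ho_B1 hD hk1 hk2 hta htb
  have J := B5Ho_T2 (x := sx κ t') (y := sy κ t') hβ hN (by linarith only [xa, xb, ya, yb]) (by linarith only [xa, xb, ya, yb]) (by linarith only [xa, xb, ya, yb]) (by linarith only [xa, xb, ya, yb])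
  exact v5_Jlo hβ hκ (k := 1) ht hD 0.04 2.0258 0.8046 (by norm_num) J Db (by norm_num)

private theorem B5Ho_V9 {κ t : ℝ} (hD : DomR κ t) (hk1 : 0.9 ≤ κ) (hk2 : κ ≤ 1) (hta : 0.0628 ≤ t + κ) (htb : t + κ ≤ 0.251) :
    1.00415 - 0.0834 * (t + κ) ≤ sE κ t := by
  have hκ0 : 0 < κ := hD.1
  exact v5_V1 hD 0.9 1 0.0628 0.251 0.07254 0.18417 0.32849 1.00415 0.0834 (by norm_num) hk1 hk2 (by norm_num) (by norm_num) hta htb (by norm_num) (clo5 0.9 1 0.32849 (by norm_num) hk1 hk2 (by norm_num) (by norm_num) (by norm_num))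
      ((cup1 1 hκ0.le hk2 (by norm_num)).trans (by norm_num)) (by norm_num) (by norm_num) (by norm_num) (by norm_num) (by norm_num) (by norm_num)

private theorem B5Ho_K10 {β r t κ h : ℝ} (hβ : 0 < β) (hr : 10 ≤ r) (hκ : κ = β * r) (hk1 : 0.9 ≤ κ) (hk2 : κ ≤ 1)
    (hh : h = 2 * Real.pi / 5) (hh1 : 1.25663 ≤ h) (hh2 : h ≤ 1.25664) (hta : 0.0628 ≤ t + κ) (htb : t + κ ≤ 0.251)
    (hY : 0.8046 * Real.exp (r * sE κ t) ≤ ‖Xf β r h t 1‖) (hV : 1.00415 - 0.0834 * (t + κ) ≤ sE κ t) :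
    ‖Xf β r h t 2‖ ≤ 0.0803 * ‖Xf β r h t 1‖ := by
  rw [v5_X 2 1 (by push_cast; ring)]
  exact v5_cmp 0.3322 0.0361 0.0802 0.9832 0.00005428 0.0000131 0.0803 hr (B5Ho_C4 (t := t + 1 * h) hβ hr hκ hk1 hk2 (by linarith only [hta, htb, hh1, hh2]) (by linarith only [hta, htb, hh1, hh2])) hY (by norm_num) (by norm_num) (by norm_num) (by norm_num) (by linarith only [hV, hta, htb, hh1, hh2]) (ex_un 3 0.3219 (by norm_num) (by norm_num) (by norm_num) (by norm_num)) (by norm_num) (by norm_num) (by linarith only [hV, hta, htb, hh1, hh2]) (ex_un 9 0.8319 (by norm_num) (by norm_num) (by norm_num) (by norm_num)) (by norm_num) (by norm_num)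

private theorem B5Ho_K11 {β r t κ h : ℝ} (hβ : 0 < β) (hr : 10 ≤ r) (hκ : κ = β * r) (hk1 : 0.9 ≤ κ) (hk2 : κ ≤ 1)
    (hh : h = 2 * Real.pi / 5) (hh1 : 1.25663 ≤ h) (hh2 : h ≤ 1.25664) (hta : 0.0628 ≤ t + κ) (htb : t + κ ≤ 0.251)
    (hY : 0.8046 * Real.exp (r * sE κ t) ≤ ‖Xf β r h t 1‖) (hV : 1.00415 - 0.0834 * (t + κ) ≤ sE κ t) :
    ‖Xf β r h t (-1)‖ ≤ 0.000219 * ‖Xf β r h t 1‖ := by
  rw [v5_X (-1) (-2) (by push_cast; ring)]
  exact v5_cmp 1.14 0.00001121 0.0000136 0.9331 0.00008868 0.000205 0.000219 hr (B5Ho_C6 (t := t + (-2) * h) hβ hr hκ hk1 hk2 (by linarith only [hta, htb, hh1, hh2]) (by linarith only [hta, htb, hh1, hh2])) hY (by norm_num) (by norm_num) (by norm_num) (by norm_num) (by linarith only [hV, hta, htb, hh1, hh2]) (ex_un 11 0.3999 (by norm_num) (by norm_num) (by norm_num) (by norm_num)) (by norm_num) (by norm_num) (by linarith only [hV, hta, htb, hh1, hh2]) (ex_un 9 0.3309 (by norm_num) (by norm_num)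 (by norm_num) (by norm_num)) (by norm_num) (by norm_num)

private theorem B5Ho_K12 {β r t κ h : ℝ} (hβ : 0 < β) (hr : 10 ≤ r) (hκ : κ = β * r) (hk1 : 0.9 ≤ κ) (hk2 : κ ≤ 1)
    (hh : h = 2 * Real.pi / 5) (hh1 : 1.25663 ≤ h) (hh2 : h ≤ 1.25664) (hta : 0.0628 ≤ t + κ) (htb : t + κ ≤ 0.251)
    (hY : 0.8046 * Real.exp (r * sE κ t) ≤ ‖Xf β r h t 1‖) (hV : 1.00415 - 0.0834 * (t + κ) ≤ sE κ t) :
    ‖Xf β r h t (-2)‖ ≤ 0.000642 * ‖Xf β r h t 1‖ := by
  rw [v5_Xm2 hh]
  exact v5_cmp0 0.8932 0.0001342 0.000642 hr (B5Ho_C7 (t := t + 2 * h) hβ hr hκ hk1 hk2 (by linarith only [hta, htb, hh1, hh2]) (by linarith only [hta, htb, hh1, hh2])) hY (by norm_num) (by norm_num) (by norm_num) (by linarith only [hV, hta, htb, hh1, hh2]) (ex_un 8 0.9319 (by norm_num) (by norm_num) (by norm_num) (by norm_num)) (by norm_num)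

private theorem B5Ho_G13 {κ : ℝ} (hk1 : 0.9 ≤ κ) (hk2 : κ ≤ 1) : gG κ (-0.59) ≤ 1.31143 ∧ 2.8921 ≤ Real.exp (-(κ * (-0.59))) ^ 2 := by
  refine ⟨gG_le (-0.59) 0.9 1 1.31143 1.70064 1.80399 0.58802 0.55433 hk1 hk2 (by norm_num)
    (ex_up 0.531 (by norm_num) (by norm_num) (by norm_num) (by norm_num)) (ex_up 0.59 (by norm_num) (by norm_num) (by norm_num) (by norm_num))
    (ex_um 0.531 (by norm_num) (by norm_num) (by norm_num) (by norm_num)) (ex_um 0.59 (by norm_num) (by norm_num) (by norm_num) (by norm_num))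
    (by norm_num) (by norm_num), ?_⟩
  exact v5_M 1.70062 (ex_lp 0.531 (by linarith) (by norm_num) (by norm_num)) (by norm_num) (by norm_num)

private theorem B5Ho_C14 {β r t κ : ℝ} (hβ : 0 < β) (hr : 10 ≤ r) (hκ : κ = β * r) (hk1 : 0.9 ≤ κ) (hk2 : κ ≤ 1) (hta : (-1.1939) ≤ t + κ)
    (htb : t + κ ≤ (-1.0056)) : ‖F (cexp (I * β)) (r * cexp (I * ((t + β / 2 : ℝ) : ℂ)))‖ ≤
      1.0223 * Real.exp (r * (1.31143 - (-0.59) * (t + κ))) + 1.7125 * Real.exp (r * 0.0501) :=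
  v5_HU (-0.59) 0.9 1 (-1.1939) (-1.0056) 1.31143 1.0223 2.8921 0.1262 0.8067 2.518 0 0.0501 0.0000013 1.7125 hβ hr hκ (by norm_num) hk1 hk2 hta htb (by norm_num) (by norm_num) (B5Ho_G13 hk1 hk2).1 (B5Ho_G13 hk1 hk2).2 (by norm_num) (by norm_num) (by norm_num)
    (by norm_num) (by norm_num) (by norm_num) (by norm_num) (by norm_num) (by norm_num) (by norm_num)
    (by norm_num) (by norm_num) (by norm_num) (v5_hump 4.9992 9.999 3.1622 0.0000009316 0.0000013 hβ hr hκ hk1 hk2 (by norm_num) htb (by norm_num) (by norm_num) (by norm_num) (by norm_num) (by norm_num) (by norm_num) (by norm_num) (ex_un 13 0.9 (by norm_num) (by norm_num) (by norm_num) (by norm_num)) (by norm_num)) (by norm_num)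

private theorem B5Ho_K15 {β r t κ h : ℝ} (hβ : 0 < β) (hr : 10 ≤ r) (hκ : κ = β * r) (hk1 : 0.9 ≤ κ) (hk2 : κ ≤ 1)
    (hh : h = 2 * Real.pi / 5) (hh1 : 1.25663 ≤ h) (hh2 : h ≤ 1.25664) (hta : 0.0628 ≤ t + κ) (htb : t + κ ≤ 0.251)
    (hY : 0.8046 * Real.exp (r * sE κ t) ≤ ‖Xf β r h t 1‖) (hV : 1.00415 - 0.0834 * (t + κ) ≤ sE κ t) :
    ‖Xf β r h t 0‖ ≤ 0.0903 * ‖Xf β r h t 1‖ := by
  rw [v5_X 0 (-1) (by push_cast; ring)]
  exact v5_cmp 0.2651 0.07091 0.0901 0.9331 0.00008868 0.000189 0.0903 hr (B5Ho_C14 (t := t + (-1) * h) hβ hr hκ hk1 hk2 (by linarith only [hta, htb, hh1, hh2]) (by linarith only [hta, htb, hh1, hh2])) hY (by norm_num) (by norm_num) (by norm_num) (by norm_num) (by linarith only [hV, hta, htb, hh1, hh2]) (ex_un 2 0.6509 (by norm_num) (by norm_num) (by norm_num) (by norm_num)) (by norm_num) (by norm_num) (by linarith only [hV, hta, htb, hh1, hh2]) (ex_un 9 0.3309 (by norm_num) (by norm_num) (by norm_num)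 (by norm_num)) (by norm_num) (by norm_num)

private theorem B5Ho_O16 {β r t κ h : ℝ} (hβ : 0 < β) (hr : 10 ≤ r) (hκ : κ = β * r) (hk1 : 0.9 ≤ κ) (hk2 : κ ≤ 1)
    (hh : h = 2 * Real.pi / 5) (hta : 0.0628 ≤ t + κ) (htb : t + κ ≤ 0.251) :
    ‖Xf β r h t (-2)‖ + ‖Xf β r h t (-1)‖ + ‖Xf β r h t 2‖ < |‖Xf β r h t 1‖ - ‖Xf β r h t 0‖| := by
  obtain ⟨hh1, hh2⟩ := v5_h hh
  have hκ0 : 0 < κ := by linarith only [hk1]
  have hN : β * 9.999 ≤ 1 := v5_hN 1 9.999 hβ hr hκ hk2 (by norm_num) (by norm_num)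
  have hD1 : DomR κ t := v5_dom hκ0 (by linarith only [hta, htb, hk1, hk2, hh1, hh2]) (Or.inr (by linarith only [hta, htb, hk1, hk2, hh1, hh2]))
  have e1 : t = t + (((1 : ℤ) : ℝ) - 1) * h := by push_cast; ring
  have hY := B5Ho_Y8 (h := h) hβ hκ hN hk1 hk2 e1 hD1 hta htb
  have hV := B5Ho_V9 hD1 hk1 hk2 hta htb
  have cp2 := B5Ho_K10 hβ hr hκ hk1 hk2 hh hh1 hh2 hta htb hY hV
  have cm1 := B5Ho_K11 hβ hr hκ hk1 hk2 hh hh1 hh2 hta htb hY hV
  have cm2 := B5Ho_K12 hβ hr hκ hk1 hk2 hh hh1 hh2 hta htb hY hV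
  have cn0 := B5Ho_K15 hβ hr hκ hk1 hk2 hh hh1 hh2 hta htb hY hV
  have hp : 0 < ‖Xf β r h t 1‖ := lt_of_lt_of_le (by positivity) hY
  exact v5_out1 _ _ _ _ cm2 cm1 cp2 cn0 hp (by norm_num)

private theorem B5Ho_B17 {κ t : ℝ} (h : DomR κ t) (hk1 : 0.9 ≤ κ) (hk2 : κ ≤ 1) (ht1 : 0.251 ≤ t + κ) (ht2 : t + κ ≤ 0.415) :
    (0.115 ≤ sy κ t ∧ sy κ t ≤ 0.186) ∧ (0.7236 ≤ sx κ t ∧ sx κ t ≤ 0.884) ∧ κ * Real.exp (-sy κ t) ≤ 0.8914 ∧ 1.8735 ≤ sD κ t ∧ sD κ t ≤ 2.0614 := by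
  have hy1 : 0.115 ≤ sy κ t := syR_ge h 0.9 1 0.251 0.115 1.12187 1.12188 0.12901 0.14336 hk1 hk2 (by linarith) (by norm_num) (by norm_num)
    (expn_ge (by norm_num) (by norm_num)) (expn_le (by norm_num) (by norm_num) (by norm_num)) (by norm_num)
    (by norm_num) (by norm_num) (by norm_num) (by norm_num) (by norm_num) (by norm_num)
  have hy2 : sy κ t ≤ 0.186 := syR_le h 0.9 1 0.415 0.186 1.20442 0.2177 0.22402 0.24892 hk1 hk2 (by linarith) (by norm_num) (by norm_num)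
    (expn_ge (by norm_num) (by norm_num)) (by norm_num) (by norm_num) (Or.inr ((mul_le_mul_of_nonneg_left (expn_le (E := 1.20443) (by norm_num) (by norm_num) (by norm_num)) (by norm_num)).trans (by norm_num))) (by norm_num) (by norm_num) (by norm_num)
  have hy1' : 0.115 ≤ sy κ t := by linarith
  have hy2' : sy κ t ≤ 0.186 := by linarith
  have hx1 : 0.7236 ≤ sx κ t := sx_lo h 0.9 0.186 0.1861 0.83027 0.7236 hk1 (by norm_num) hy2' (abs_le.2 ⟨by linarith, by linarith⟩) (ex_lm 0.186 (by norm_num) (by norm_num) (by norm_num) (by norm_num) (by norm_num)) (by norm_num) (by norm_num)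
  have hx2 : sx κ t ≤ 0.884 := sx_hi h 1 0.115 0.115 0.89137 0.884 hk2 hy1' (by norm_num) (le_trans (by linarith) (le_abs_self _)) (ex_um 0.115 (by norm_num) (by norm_num) (by norm_num) (by norm_num)) (by norm_num) (by norm_num)
  refine ⟨⟨hy1', hy2'⟩, ⟨hx1, hx2⟩, v5_n h 1 0.115 0.89137 0.8914 hk2 hy1' (ex_um 0.115 (by norm_num) (by norm_num) (by norm_num) (by norm_num)) (by norm_num), ?_, ?_⟩
  · exact v5_Dlo h 0.9 0.115 0.186 0.115 0.89136 1.8735 (by norm_num) hk1 hy1' hy2' (ex_lm 0.115 (by norm_num) (by norm_num) (by norm_num) (by norm_num) (by norm_num)) (by norm_num) (by norm_num) (by norm_num) (by norm_num)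
  · exact v5_Dup h 1 0.115 0.186 0.89137 0.83028 2.0614 hk2 hy1' hy2' (ex_um 0.115 (by norm_num) (by norm_num) (by norm_num) (by norm_num)) (ex_um 0.186 (by norm_num) (by norm_num) (by norm_num) (by norm_num)) (by norm_num) (by norm_num) (by norm_num)

private theorem B5Ho_T18_0_0 {β x y : ℝ} (hβ : 0 < β) (hN : β * 9.999 ≤ 1) (hx1 : 0.7235 ≤ x) (hx2 : x ≤ 0.82)
    (hy1 : -0 ≤ y) (hy2 : y ≤ 0.1861) : ‖HH β (x + y * I) - 1‖ ≤ 0.045 := by
  refine le_epsJ (C := 0.4493) (N0 := 9.999) (J_boxp 0.7235 0.82 0 0.1861 0.1861 1.2195 0.8409 1.442 0.8917 0.4791 3.1622 9.999 0.6896 2.495 1.362 1.1047 0.6097 0.4695 1.2559 3.6243 0.6874 1.4827 2.2195 2.9963 0.002252 0.009158 0.000003522 0.0000003101 0.001038 0.000000365 0.0000003101 0.0000003101 0.4493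
    hβ hN hx1 hx2 hy1 hy2 (by norm_num) (by norm_num) (by linarith) (by norm_num) (by norm_num) (by norm_num) (by norm_num) (by norm_num) (by norm_num) (by norm_num) (by norm_num) (by norm_num) (by norm_num) (by norm_num) (by norm_num) (by norm_num) (by norm_num) (by norm_num) (by norm_num) (by norm_num) (by norm_num) (by norm_num) (by norm_num) (by norm_num)
    (cube_sqrt_geJ (s := 0.8775) (by norm_num) (by norm_num) (by norm_num) (by norm_num))
    (cube_sqrt_geJ (s := 0.9568) (by norm_num) (by norm_num) (by norm_num) (by norm_num))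
    (by norm_num) (by norm_num) (by norm_num) (by norm_num) (by norm_num) (by norm_num) (by norm_num) (by norm_num) (by norm_num) (by norm_num) (by norm_num) (by norm_num) (by norm_num) (by norm_num) (by norm_num) (by norm_num) (by norm_num) (by norm_num)
    (exp_neg_leJ (r := 0.096) 6 (by norm_num) (by norm_num) (by norm_num) (by norm_num))
    (exp_neg_leJ (r := 0.694) 4 (by norm_num) (by norm_num) (by norm_num) (by norm_num))
    (exp_neg_leJ (r := 0.557) 12 (by norm_num) (by norm_num) (by norm_num) (by norm_num))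
    (exp_neg_leJ (r := 0.99) 14 (by norm_num) (by norm_num) (by norm_num) (by norm_num))
    (exp_neg_leJ (r := 0.873) 6 (by norm_num) (by norm_num) (by norm_num) (by norm_num))
    (exp_neg_leJ (r := 0.825) 14 (by norm_num) (by norm_num) (by norm_num) (by norm_num))
    (exp_neg_leJ (r := 0.99) 14 (by norm_num) (by norm_num) (by norm_num) (by norm_num))
    (exp_neg_leJ (r := 0.99) 14 (by norm_num) (by norm_num) (by norm_num) (by norm_num))
    (by norm_num)) (by norm_num) hN hβ.le (by norm_num)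

private theorem B5Ho_T18_0_1 {β x y : ℝ} (hβ : 0 < β) (hN : β * 9.999 ≤ 1) (hx1 : 0.82 ≤ x) (hx2 : x ≤ 0.8841)
    (hy1 : -0 ≤ y) (hy2 : y ≤ 0.1861) : ‖HH β (x + y * I) - 1‖ ≤ 0.045 := by
  refine le_epsJ (C := 0.4146) (N0 := 9.999) (J_boxp 0.82 0.8841 0 0.1861 0.1861 1.2874 0.9035 1.4794 0.8327 0.4853 3.1622 9.999 0.7019 2.542 1.37 1.08 0.6436 0.493 1.2889 3.5877 0.7343 1.6164 2.4125 3.0191 0.001605 0.007254 0.000002537 0.0000003101 0.0006478 0.0000003101 0.0000003101 0.0000003101 0.4146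
    hβ hN hx1 hx2 hy1 hy2 (by norm_num) (by norm_num) (by linarith) (by norm_num) (by norm_num) (by norm_num) (by norm_num) (by norm_num) (by norm_num) (by norm_num) (by norm_num) (by norm_num) (by norm_num) (by norm_num) (by norm_num) (by norm_num) (by norm_num) (by norm_num) (by norm_num) (by norm_num) (by norm_num) (by norm_num) (by norm_num) (by norm_num)
    (cube_sqrt_geJ (s := 0.8752) (by norm_num) (by norm_num) (by norm_num) (by norm_num))
    (cube_sqrt_geJ (s := 0.956) (by norm_num) (by norm_num) (by norm_num) (by norm_num))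
    (by norm_num) (by norm_num) (by norm_num) (by norm_num) (by norm_num) (by norm_num) (by norm_num) (by norm_num) (by norm_num) (by norm_num) (by norm_num) (by norm_num) (by norm_num) (by norm_num) (by norm_num) (by norm_num) (by norm_num) (by norm_num)
    (exp_neg_leJ (r := 0.435) 6 (by norm_num) (by norm_num) (by norm_num) (by norm_num))
    (exp_neg_leJ (r := 0.929) 4 (by norm_num) (by norm_num) (by norm_num) (by norm_num))
    (exp_neg_leJ (r := 0.887) 12 (by norm_num) (by norm_num) (by norm_num) (by norm_num))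
    (exp_neg_leJ (r := 0.99) 14 (by norm_num) (by norm_num) (by norm_num) (by norm_num))
    (exp_neg_leJ (r := 0.342) 7 (by norm_num) (by norm_num) (by norm_num) (by norm_num))
    (exp_neg_leJ (r := 0.99) 14 (by norm_num) (by norm_num) (by norm_num) (by norm_num))
    (exp_neg_leJ (r := 0.99) 14 (by norm_num) (by norm_num) (by norm_num) (by norm_num))
    (exp_neg_leJ (r := 0.99) 14 (by norm_num) (by norm_num) (by norm_num) (by norm_num))
    (by norm_num)) (by norm_num) hN hβ.le (by norm_num)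

private theorem B5Ho_T18 {β x y : ℝ} (hβ : 0 < β) (hN : β * 9.999 ≤ 1) (hx1 : 0.7235 ≤ x) (hx2 : x ≤ 0.8841)
    (hy1 : 0.1149 ≤ y) (hy2 : y ≤ 0.1861) : ‖HH β (x + y * I) - 1‖ ≤ 0.045 := by
  rcases le_total x 0.82 with hxx | hxx
  · exact B5Ho_T18_0_0 hβ hN (by linarith) (by linarith) (by linarith) (by linarith)
  exact B5Ho_T18_0_1 hβ hN (by linarith) (by linarith) (by linarith) (by linarith)

private theorem B5Ho_G19 {κ : ℝ} (hk1 : 0.9 ≤ κ) (hk2 : κ ≤ 1) : gG κ 0.43 ≤ 1.23007 ∧ 0.42315 ≤ Real.exp (-(κ * 0.43)) ^ 2 := by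
  refine ⟨gG_le 0.43 0.9 1 1.23007 0.6791 0.65051 1.47256 1.53726 hk1 hk2 (by norm_num)
    (ex_um 0.387 (by norm_num) (by norm_num) (by norm_num) (by norm_num)) (ex_um 0.43 (by norm_num) (by norm_num) (by norm_num) (by norm_num))
    (ex_up 0.387 (by norm_num) (by norm_num) (by norm_num) (by norm_num)) (ex_up 0.43 (by norm_num) (by norm_num) (by norm_num) (by norm_num))
    (by norm_num) (by norm_num), ?_⟩
  exact v5_M 0.6505 (ex_lm 0.43 (by linarith) (by norm_num) (by norm_num) (by norm_num) (by norm_num)) (by norm_num) (by norm_num)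

private theorem B5Ho_C20 {β r t κ : ℝ} (hβ : 0 < β) (hr : 10 ≤ r) (hκ : κ = β * r) (hk1 : 0.9 ≤ κ) (hk2 : κ ≤ 1) (hta : 1.5076 ≤ t + κ)
    (htb : t + κ ≤ 1.6717) : ‖F (cexp (I * β)) (r * cexp (I * ((t + β / 2 : ℝ) : ℂ)))‖ ≤
      1.8934 * Real.exp (r * (1.23007 - 0.43 * (t + κ))) + 0.187 * Real.exp (r * 0) :=
  v5_H 0.43 0.9 1 1.5076 1.6717 1.23007 1.8479 0.42315 0.1262 2.0782 0.7989 0.12462 0.2877 0.0000013 1.8934 0.187 hβ hr hκ (by norm_num) hk1 hk2 hta htb (by norm_num) (B5Ho_G19 hk1 hk2).1 (B5Ho_G19 hk1 hk2).2 (by norm_num) (by norm_num) (by norm_num)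
    (by norm_num) (by norm_num) (by norm_num) (by norm_num) (by norm_num) (by norm_num) (by norm_num) (by norm_num) (ex_un 1 0.2461 (by norm_num) (by norm_num) (by norm_num) (by norm_num))
    (v5_hump 2.3219 9.999 3.1622 0.0000009316 0.0000013 hβ hr hκ hk1 hk2 (by norm_num) htb (by norm_num) (by norm_num) (by norm_num) (by norm_num) (by norm_num) (by norm_num) (by norm_num) (ex_un 13 0.9 (by norm_num) (by norm_num) (by norm_num) (by norm_num)) (by norm_num)) (by norm_num) (by norm_num)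

private theorem B5Ho_C21 {β r t κ : ℝ} (hβ : 0 < β) (hr : 10 ≤ r) (hκ : κ = β * r) (hk1 : 0.9 ≤ κ) (hk2 : κ ≤ 1) (hta : (-2.2623) ≤ t + κ)
    (htb : t + κ ≤ (-2.0982)) : ‖F (cexp (I * β)) (r * cexp (I * ((t + β / 2 : ℝ) : ℂ)))‖ ≤
      0.9741 * Real.exp (r * (1.44934 - (-0.71) * (t + κ))) + 1.8462 * Real.exp (r * 0.0501) :=
  v5_HU (-0.71) 0.9 1 (-2.2623) (-2.0982) 1.44934 0.9741 3.58939 0.1262 0.8067 1.4496 0 0.0501 0.0000013 1.8462 hβ hr hκ (by norm_num) hk1 hk2 hta htb (by norm_num) (by norm_num) (B5Ho_G5 hk1 hk2).1 (B5Ho_G5 hk1 hk2).2 (by norm_num) (by norm_num) (by norm_num)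
    (by norm_num) (by norm_num) (by norm_num) (by norm_num) (by norm_num) (by norm_num) (by norm_num)
    (by norm_num) (by norm_num) (by norm_num) (v5_hump 6.0918 9.999 3.1622 0.0000009316 0.0000013 hβ hr hκ hk1 hk2 (by norm_num) htb (by norm_num) (by norm_num) (by norm_num) (by norm_num) (by norm_num) (by norm_num) (by norm_num) (ex_un 13 0.9 (by norm_num) (by norm_num) (by norm_num) (by norm_num)) (by norm_num)) (by norm_num)

private theorem B5Ho_C22 {β r t κ : ℝ} (hβ : 0 < β) (hr : 10 ≤ r) (hκ : κ = β * r) (hk1 : 0.9 ≤ κ) (hk2 : κ ≤ 1) (hta : 2.7642 ≤ t + κ)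
    (htb : t + κ ≤ 2.9283) : ‖F (cexp (I * β)) (r * cexp (I * ((t + β / 2 : ℝ) : ℂ)))‖ ≤
      2.4332 * Real.exp (r * (0.01 + 1 / 20)) :=
  v5_UD 0.9 1 2.7642 2.9283 0.01 0.4206 0.01 1.2685 2.4332 hβ hr hκ (by norm_num) hk1 hk2 hta htb (by norm_num) (by norm_num) (by norm_num) (by norm_num) (by norm_num) (by norm_num) (by norm_num) (by norm_num) (by norm_num) (by norm_num) (by norm_num)

private theorem B5Ho_Y23 {β r t κ h t' : ℝ} (hβ : 0 < β) (hκ : κ = β * r) (hN : β * 9.999 ≤ 1) (hk1 : 0.9 ≤ κ) (hk2 : κ ≤ 1)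
    (ht : t' = t + (((1 : ℤ) : ℝ) - 1) * h) (hD : DomR κ t') (hta : 0.251 ≤ t' + κ) (htb : t' + κ ≤ 0.415) :
    0.797 * Real.exp (r * sE κ t') ≤ ‖Xf β r h t 1‖ := by
  obtain ⟨⟨ya, yb⟩, ⟨xa, xb⟩, n1, Da, Db⟩ := B5Ho_B17 hD hk1 hk2 hta htb
  have J := B5Ho_T18 (x := sx κ t') (y := sy κ t') hβ hN (by linarith only [xa, xb, ya, yb]) (by linarith only [xa, xb, ya, yb]) (by linarith only [xa, xb, ya, yb]) (by linarith only [xa, xb, ya, yb])
  exact v5_Jlo hβ hκ (k := 1) ht hD 0.045 2.0614 0.797 (by norm_num) J Db (by norm_num)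

private theorem B5Ho_V24 {κ t : ℝ} (hD : DomR κ t) (hk1 : 0.9 ≤ κ) (hk2 : κ ≤ 1) (hta : 0.251 ≤ t + κ) (htb : t + κ ≤ 0.415) :
    1.02621 - 0.1715 * (t + κ) ≤ sE κ t := by
  have hκ0 : 0 < κ := hD.1
  exact v5_V1 hD 0.9 1 0.251 0.415 0.06628 0.18417 0.32849 1.02621 0.1715 (by norm_num) hk1 hk2 (by norm_num) (by norm_num) hta htb (by norm_num) (clo5 0.9 1 0.32849 (by norm_num) hk1 hk2 (by norm_num) (by norm_num) (by norm_num))
      ((cup1 1 hκ0.le hk2 (by norm_num)).trans (by norm_num)) (by norm_num) (by norm_num) (by norm_num) (by norm_num) (by norm_num) (by norm_num)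

private theorem B5Ho_K25 {β r t κ h : ℝ} (hβ : 0 < β) (hr : 10 ≤ r) (hκ : κ = β * r) (hk1 : 0.9 ≤ κ) (hk2 : κ ≤ 1)
    (hh : h = 2 * Real.pi / 5) (hh1 : 1.25663 ≤ h) (hh2 : h ≤ 1.25664) (hta : 0.251 ≤ t + κ) (htb : t + κ ≤ 0.415)
    (hY : 0.797 * Real.exp (r * sE κ t) ≤ ‖Xf β r h t 1‖) (hV : 1.02621 - 0.1715 * (t + κ) ≤ sE κ t) :
    ‖Xf β r h t 2‖ ≤ 0.0431 * ‖Xf β r h t 1‖ := by
  rw [v5_X 2 1 (by push_cast; ring)]
  exact v5_cmp 0.4013 0.01809 0.043 0.955 0.00007139 0.0000168 0.0431 hr (B5Ho_C20 (t := t + 1 * h) hβ hr hκ hk1 hk2 (by linarith only [hta, htb, hh1, hh2]) (by linarith only [hta, htb, hh1, hh2])) hY (by norm_num) (by norm_num) (by norm_num) (by norm_num) (by linarith only [hV, hta, htb, hh1, hh2]) (ex_un 4 0.0129 (by norm_num) (by norm_num) (by norm_num) (by norm_num)) (by norm_num) (by norm_num) (by linarith only [hV, hta, htb, hh1, hh2]) (ex_un 9 0.5499 (by norm_num) (by norm_num) (by norm_num) (by norm_num))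 (by norm_num) (by norm_num)

private theorem B5Ho_K26 {β r t κ h : ℝ} (hβ : 0 < β) (hr : 10 ≤ r) (hκ : κ = β * r) (hk1 : 0.9 ≤ κ) (hk2 : κ ≤ 1)
    (hh : h = 2 * Real.pi / 5) (hh1 : 1.25663 ≤ h) (hh2 : h ≤ 1.25664) (hta : 0.251 ≤ t + κ) (htb : t + κ ≤ 0.415)
    (hY : 0.797 * Real.exp (r * sE κ t) ≤ ‖Xf β r h t 1‖) (hV : 1.02621 - 0.1715 * (t + κ) ≤ sE κ t) :
    ‖Xf β r h t (-1)‖ ≤ 0.000333 * ‖Xf β r h t 1‖ := by
  rw [v5_X (-1) (-2) (by push_cast; ring)]
  exact v5_cmp 0.9954 0.00004833 0.0000591 0.9049 0.0001176 0.000273 0.000333 hr (B5Ho_C21 (t := t + (-2) * h) hβ hr hκ hk1 hk2 (by linarith only [hta, htb, hh1, hh2]) (by linarith only [hta, htb, hh1, hh2])) hY (by norm_num) (by norm_num) (by norm_num) (by norm_num) (by linarith only [hV, hta, htb, hh1, hh2]) (ex_un 9 0.9539 (by norm_num) (by norm_num) (by norm_num) (by norm_num)) (by norm_num) (by norm_num) (by linarith only [hV, hta, htb, hh1, hh2]) (ex_un 9 0.0489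 (by norm_num) (by norm_num) (by norm_num) (by norm_num)) (by norm_num) (by norm_num)

private theorem B5Ho_K27 {β r t κ h : ℝ} (hβ : 0 < β) (hr : 10 ≤ r) (hκ : κ = β * r) (hk1 : 0.9 ≤ κ) (hk2 : κ ≤ 1)
    (hh : h = 2 * Real.pi / 5) (hh1 : 1.25663 ≤ h) (hh2 : h ≤ 1.25664) (hta : 0.251 ≤ t + κ) (htb : t + κ ≤ 0.415)
    (hY : 0.797 * Real.exp (r * sE κ t) ≤ ‖Xf β r h t 1‖) (hV : 1.02621 - 0.1715 * (t + κ) ≤ sE κ t) :
    ‖Xf β r h t (-2)‖ ≤ 0.000403 * ‖Xf β r h t 1‖ := by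
  rw [v5_Xm2 hh]
  exact v5_cmp0 0.895 0.0001319 0.000403 hr (B5Ho_C22 (t := t + 2 * h) hβ hr hκ hk1 hk2 (by linarith only [hta, htb, hh1, hh2]) (by linarith only [hta, htb, hh1, hh2])) hY (by norm_num) (by norm_num) (by norm_num) (by linarith only [hV, hta, htb, hh1, hh2]) (ex_un 8 0.9499 (by norm_num) (by norm_num) (by norm_num) (by norm_num)) (by norm_num)

private theorem B5Ho_G28 {κ : ℝ} (hk1 : 0.9 ≤ κ) (hk2 : κ ≤ 1) : gG κ (-0.49) ≤ 1.21647 ∧ 2.41572 ≤ Real.exp (-(κ * (-0.49))) ^ 2 := by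
  refine ⟨gG_le (-0.49) 0.9 1 1.21647 1.55427 1.63232 0.6434 0.61263 hk1 hk2 (by norm_num)
    (ex_up 0.441 (by norm_num) (by norm_num) (by norm_num) (by norm_num)) (ex_up 0.49 (by norm_num) (by norm_num) (by norm_num) (by norm_num))
    (ex_um 0.441 (by norm_num) (by norm_num) (by norm_num) (by norm_num)) (ex_um 0.49 (by norm_num) (by norm_num) (by norm_num) (by norm_num))
    (by norm_num) (by norm_num), ?_⟩
  exact v5_M 1.55426 (ex_lp 0.441 (by linarith) (by norm_num) (by norm_num)) (by norm_num) (by norm_num)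

private theorem B5Ho_C29 {β r t κ : ℝ} (hβ : 0 < β) (hr : 10 ≤ r) (hκ : κ = β * r) (hk1 : 0.9 ≤ κ) (hk2 : κ ≤ 1) (hta : (-1.0057) ≤ t + κ)
    (htb : t + κ ≤ (-0.8416)) : ‖F (cexp (I * β)) (r * cexp (I * ((t + β / 2 : ℝ) : ℂ)))‖ ≤
      1.063 * Real.exp (r * (1.21647 - (-0.49) * (t + κ))) + 1.6283 * Real.exp (r * 0.0501) :=
  v5_HU (-0.49) 0.9 1 (-1.0057) (-0.8416) 1.21647 1.063 2.41572 0.1262 0.8067 2.7062 0 0.0501 0.0000013 1.6283 hβ hr hκ (by norm_num) hk1 hk2 hta htb (by norm_num) (by norm_num) (B5Ho_G28 hk1 hk2).1 (B5Ho_G28 hk1 hk2).2 (by norm_num) (by norm_num) (by norm_num)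
    (by norm_num) (by norm_num) (by norm_num) (by norm_num) (by norm_num) (by norm_num) (by norm_num)
    (by norm_num) (by norm_num) (by norm_num) (v5_hump 4.8352 9.999 3.1622 0.0000009316 0.0000013 hβ hr hκ hk1 hk2 (by norm_num) htb (by norm_num) (by norm_num) (by norm_num) (by norm_num) (by norm_num) (by norm_num) (by norm_num) (ex_un 13 0.9 (by norm_num) (by norm_num) (by norm_num) (by norm_num)) (by norm_num)) (by norm_num)

private theorem B5Ho_K30 {β r t κ h : ℝ} (hβ : 0 < β) (hr : 10 ≤ r) (hκ : κ = β * r) (hk1 : 0.9 ≤ κ) (hk2 : κ ≤ 1)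
    (hh : h = 2 * Real.pi / 5) (hh1 : 1.25663 ≤ h) (hh2 : h ≤ 1.25664) (hta : 0.251 ≤ t + κ) (htb : t + κ ≤ 0.415)
    (hY : 0.797 * Real.exp (r * sE κ t) ≤ ‖Xf β r h t 1‖) (hV : 1.02621 - 0.1715 * (t + κ) ≤ sE κ t) :
    ‖Xf β r h t 0‖ ≤ 0.297 * ‖Xf β r h t 1‖ := by
  rw [v5_X 0 (-1) (by push_cast; ring)]
  exact v5_cmp 0.1509 0.2216 0.296 0.9049 0.0001176 0.000241 0.297 hr (B5Ho_C29 (t := t + (-1) * h) hβ hr hκ hk1 hk2 (by linarith only [hta, htb, hh1, hh2]) (by linarith only [hta, htb, hh1, hh2])) hY (by norm_num) (by norm_num) (by norm_num) (by norm_num) (by linarith only [hV, hta, htb, hh1, hh2]) (ex_un 1 0.5089 (by norm_num) (by norm_num) (by norm_num) (by norm_num)) (by norm_num) (by norm_num) (by linarith only [hV, hta, htb, hh1, hh2]) (ex_un 9 0.0489 (by norm_num) (by norm_num) (by norm_num) (by norm_num)) (by norm_num) (by norm_num)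

private theorem B5Ho_O31 {β r t κ h : ℝ} (hβ : 0 < β) (hr : 10 ≤ r) (hκ : κ = β * r) (hk1 : 0.9 ≤ κ) (hk2 : κ ≤ 1)
    (hh : h = 2 * Real.pi / 5) (hta : 0.251 ≤ t + κ) (htb : t + κ ≤ 0.415) :
    ‖Xf β r h t (-2)‖ + ‖Xf β r h t (-1)‖ + ‖Xf β r h t 2‖ < |‖Xf β r h t 1‖ - ‖Xf β r h t 0‖| := by
  obtain ⟨hh1, hh2⟩ := v5_h hh
  have hκ0 : 0 < κ := by linarith only [hk1]
  have hN : β * 9.999 ≤ 1 := v5_hN 1 9.999 hβ hr hκ hk2 (by norm_num) (by norm_num)
  have hD1 : DomR κ t := v5_dom hκ0 (by linarith only [hta, htb, hk1, hk2, hh1, hh2]) (Or.inr (by linarith only [hta, htb, hk1, hk2, hh1, hh2]))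
  have e1 : t = t + (((1 : ℤ) : ℝ) - 1) * h := by push_cast; ring
  have hY := B5Ho_Y23 (h := h) hβ hκ hN hk1 hk2 e1 hD1 hta htb
  have hV := B5Ho_V24 hD1 hk1 hk2 hta htb
  have cp2 := B5Ho_K25 hβ hr hκ hk1 hk2 hh hh1 hh2 hta htb hY hV
  have cm1 := B5Ho_K26 hβ hr hκ hk1 hk2 hh hh1 hh2 hta htb hY hV
  have cm2 := B5Ho_K27 hβ hr hκ hk1 hk2 hh hh1 hh2 hta htb hY hV
  have cn0 := B5Ho_K30 hβ hr hκ hk1 hk2 hh hh1 hh2 hta htb hY hV
  have hp : 0 < ‖Xf β r h t 1‖ := lt_of_lt_of_le (by positivity) hY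
  exact v5_out1 _ _ _ _ cm2 cm1 cp2 cn0 hp (by norm_num)

private theorem B5Ho_B32 {κ t : ℝ} (h : DomR κ t) (hk1 : 0.9 ≤ κ) (hk2 : κ ≤ 1) (ht1 : 0.415 ≤ t + κ) (ht2 : t + κ ≤ 0.5655) :
    (0.181 ≤ sy κ t ∧ sy κ t ≤ 0.242) ∧ (0.6637 ≤ sx κ t ∧ sx κ t ≤ 0.8146) ∧ κ * Real.exp (-sy κ t) ≤ 0.8345 ∧ 1.9259 ≤ sD κ t ∧ sD κ t ≤ 2.1004 := by
  have hy1 : 0.181 ≤ sy κ t := syR_ge h 0.9 1 0.415 0.181 1.19841 1.19842 0.21691 0.24102 hk1 hk2 (by linarith) (by norm_num) (by norm_num)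
    (expn_ge (by norm_num) (by norm_num)) (expn_le (by norm_num) (by norm_num) (by norm_num)) (by norm_num)
    (by norm_num) (by norm_num) (by norm_num) (by norm_num) (by norm_num) (by norm_num)
  have hy2 : sy κ t ≤ 0.242 := syR_le h 0.9 1 0.5655 0.242 1.27379 0.2996 0.30825 0.34252 hk1 hk2 (by linarith) (by norm_num) (by norm_num)
    (expn_ge (by norm_num) (by norm_num)) (by norm_num) (by norm_num) (Or.inr ((mul_le_mul_of_nonneg_left (expn_le (E := 1.2738) (by norm_num) (by norm_num) (by norm_num)) (by norm_num)).trans (by norm_num))) (by norm_num) (by norm_num) (by norm_num)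
  have hy1' : 0.181 ≤ sy κ t := by linarith
  have hy2' : sy κ t ≤ 0.242 := by linarith
  have hx1 : 0.6637 ≤ sx κ t := sx_lo h 0.9 0.242 0.2421 0.78505 0.6637 hk1 (by norm_num) hy2' (abs_le.2 ⟨by linarith, by linarith⟩) (ex_lm 0.242 (by norm_num) (by norm_num) (by norm_num) (by norm_num) (by norm_num)) (by norm_num) (by norm_num)
  have hx2 : sx κ t ≤ 0.8146 := sx_hi h 1 0.181 0.181 0.83444 0.8146 hk2 hy1' (by norm_num) (le_trans (by linarith) (le_abs_self _)) (ex_um 0.181 (by norm_num) (by norm_num) (by norm_num) (by norm_num)) (by norm_num) (by norm_num)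
  refine ⟨⟨hy1', hy2'⟩, ⟨hx1, hx2⟩, v5_n h 1 0.181 0.83444 0.8345 hk2 hy1' (ex_um 0.181 (by norm_num) (by norm_num) (by norm_num) (by norm_num)) (by norm_num), ?_, ?_⟩
  · exact v5_Dlo h 0.9 0.181 0.242 0.181 0.83443 1.9259 (by norm_num) hk1 hy1' hy2' (ex_lm 0.181 (by norm_num) (by norm_num) (by norm_num) (by norm_num) (by norm_num)) (by norm_num) (by norm_num) (by norm_num) (by norm_num)
  · exact v5_Dup h 1 0.181 0.242 0.83444 0.78506 2.1004 hk2 hy1' hy2' (ex_um 0.181 (by norm_num) (by norm_num) (by norm_num) (by norm_num)) (ex_um 0.242 (by norm_num) (by norm_num) (by norm_num) (by norm_num)) (by norm_num) (by norm_num) (by norm_num)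

private theorem B5Ho_T33_0_0 {β x y : ℝ} (hβ : 0 < β) (hN : β * 9.999 ≤ 1) (hx1 : 0.6636 ≤ x) (hx2 : x ≤ 0.779)
    (hy1 : -0 ≤ y) (hy2 : y ≤ 0.2421) : ‖HH β (x + y * I) - 1‖ ≤ 0.05 := by
  refine le_epsJ (C := 0.4993) (N0 := 9.999) (J_boxp 0.6636 0.779 0 0.2421 0.2421 1.1773 0.8158 1.4662 0.948 0.4831 3.1622 9.999 0.693 2.508 1.364 1.1205 0.5886 0.4526 1.2354 3.6437 0.6526 1.3941 1.8595 2.6809 0.002787 0.01084 0.000004322 0.0000003101 0.001467 0.0000008864 0.0000003101 0.0000003101 0.4993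
    hβ hN hx1 hx2 hy1 hy2 (by norm_num) (by norm_num) (by linarith) (by norm_num) (by norm_num) (by norm_num) (by norm_num) (by norm_num) (by norm_num) (by norm_num) (by norm_num) (by norm_num) (by norm_num) (by norm_num) (by norm_num) (by norm_num) (by norm_num) (by norm_num) (by norm_num) (by norm_num) (by norm_num) (by norm_num) (by norm_num) (by norm_num)
    (cube_sqrt_geJ (s := 0.8769) (by norm_num) (by norm_num) (by norm_num) (by norm_num))
    (cube_sqrt_geJ (s := 0.9566) (by norm_num) (by norm_num) (by norm_num) (by norm_num))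
    (by norm_num) (by norm_num) (by norm_num) (by norm_num) (by norm_num) (by norm_num) (by norm_num) (by norm_num) (by norm_num) (by norm_num) (by norm_num) (by norm_num) (by norm_num) (by norm_num) (by norm_num) (by norm_num) (by norm_num) (by norm_num)
    (exp_neg_leJ (r := 0.885) 5 (by norm_num) (by norm_num) (by norm_num) (by norm_num))
    (exp_neg_leJ (r := 0.525) 4 (by norm_num) (by norm_num) (by norm_num) (by norm_num))
    (exp_neg_leJ (r := 0.352) 12 (by norm_num) (by norm_num) (by norm_num) (by norm_num))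
    (exp_neg_leJ (r := 0.99) 14 (by norm_num) (by norm_num) (by norm_num) (by norm_num))
    (exp_neg_leJ (r := 0.525) 6 (by norm_num) (by norm_num) (by norm_num) (by norm_num))
    (exp_neg_leJ (r := 0.939) 13 (by norm_num) (by norm_num) (by norm_num) (by norm_num))
    (exp_neg_leJ (r := 0.99) 14 (by norm_num) (by norm_num) (by norm_num) (by norm_num))
    (exp_neg_leJ (r := 0.99) 14 (by norm_num) (by norm_num) (by norm_num) (by norm_num))
    (by norm_num)) (by norm_num) hN hβ.le (by norm_num)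

private theorem B5Ho_T33_0_1 {β x y : ℝ} (hβ : 0 < β) (hN : β * 9.999 ≤ 1) (hx1 : 0.779 ≤ x) (hx2 : x ≤ 0.8147)
    (hy1 : -0 ≤ y) (hy2 : y ≤ 0.2421) : ‖HH β (x + y * I) - 1‖ ≤ 0.05 := by
  refine le_epsJ (C := 0.4066) (N0 := 9.999) (J_boxp 0.779 0.8147 0 0.2421 0.2421 1.2585 0.85 1.4855 0.8633 0.4863 3.1622 9.999 0.6755 2.443 1.353 1.1067 0.6292 0.4875 1.2749 3.6235 0.7087 1.5539 2.0903 2.8187 0.001853 0.007659 0.000002915 0.0000003101 0.0008368 0.0000003101 0.0000003101 0.0000003101 0.4066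
    hβ hN hx1 hx2 hy1 hy2 (by norm_num) (by norm_num) (by linarith) (by norm_num) (by norm_num) (by norm_num) (by norm_num) (by norm_num) (by norm_num) (by norm_num) (by norm_num) (by norm_num) (by norm_num) (by norm_num) (by norm_num) (by norm_num) (by norm_num) (by norm_num) (by norm_num) (by norm_num) (by norm_num) (by norm_num) (by norm_num) (by norm_num)
    (cube_sqrt_geJ (s := 0.8802) (by norm_num) (by norm_num) (by norm_num) (by norm_num))
    (cube_sqrt_geJ (s := 0.9577) (by norm_num) (by norm_num) (by norm_num) (by norm_num))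
    (by norm_num) (by norm_num) (by norm_num) (by norm_num) (by norm_num) (by norm_num) (by norm_num) (by norm_num) (by norm_num) (by norm_num) (by norm_num) (by norm_num) (by norm_num) (by norm_num) (by norm_num) (by norm_num) (by norm_num) (by norm_num)
    (exp_neg_leJ (r := 0.291) 6 (by norm_num) (by norm_num) (by norm_num) (by norm_num))
    (exp_neg_leJ (r := 0.874) 4 (by norm_num) (by norm_num) (by norm_num) (by norm_num))
    (exp_neg_leJ (r := 0.747) 12 (by norm_num) (by norm_num) (by norm_num) (by norm_num))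
    (exp_neg_leJ (r := 0.99) 14 (by norm_num) (by norm_num) (by norm_num) (by norm_num))
    (exp_neg_leJ (r := 0.086) 7 (by norm_num) (by norm_num) (by norm_num) (by norm_num))
    (exp_neg_leJ (r := 0.99) 14 (by norm_num) (by norm_num) (by norm_num) (by norm_num))
    (exp_neg_leJ (r := 0.99) 14 (by norm_num) (by norm_num) (by norm_num) (by norm_num))
    (exp_neg_leJ (r := 0.99) 14 (by norm_num) (by norm_num) (by norm_num) (by norm_num))
    (by norm_num)) (by norm_num) hN hβ.le (by norm_num)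

private theorem B5Ho_T33 {β x y : ℝ} (hβ : 0 < β) (hN : β * 9.999 ≤ 1) (hx1 : 0.6636 ≤ x) (hx2 : x ≤ 0.8147)
    (hy1 : 0.1809 ≤ y) (hy2 : y ≤ 0.2421) : ‖HH β (x + y * I) - 1‖ ≤ 0.05 := by
  rcases le_total x 0.779 with hxx | hxx
  · exact B5Ho_T33_0_0 hβ hN (by linarith) (by linarith) (by linarith) (by linarith)
  exact B5Ho_T33_0_1 hβ hN (by linarith) (by linarith) (by linarith) (by linarith)

private theorem B5Ho_G34 {κ : ℝ} (hk1 : 0.9 ≤ κ) (hk2 : κ ≤ 1) : gG κ 0.46 ≤ 1.27024 ∧ 0.39851 ≤ Real.exp (-(κ * 0.46)) ^ 2 := by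
  refine ⟨gG_le 0.46 0.9 1 1.27024 0.66101 0.63129 1.51286 1.58408 hk1 hk2 (by norm_num)
    (ex_um 0.414 (by norm_num) (by norm_num) (by norm_num) (by norm_num)) (ex_um 0.46 (by norm_num) (by norm_num) (by norm_num) (by norm_num))
    (ex_up 0.414 (by norm_num) (by norm_num) (by norm_num) (by norm_num)) (ex_up 0.46 (by norm_num) (by norm_num) (by norm_num) (by norm_num))
    (by norm_num) (by norm_num), ?_⟩
  exact v5_M 0.63128 (ex_lm 0.46 (by linarith) (by norm_num) (by norm_num) (by norm_num) (by norm_num)) (by norm_num) (by norm_num)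

private theorem B5Ho_C35 {β r t κ : ℝ} (hβ : 0 < β) (hr : 10 ≤ r) (hκ : κ = β * r) (hk1 : 0.9 ≤ κ) (hk2 : κ ≤ 1) (hta : 1.6716 ≤ t + κ)
    (htb : t + κ ≤ 1.8222) : ‖F (cexp (I * β)) (r * cexp (I * ((t + β / 2 : ℝ) : ℂ)))‖ ≤
      2.0456 * Real.exp (r * (1.27024 - 0.46 * (t + κ))) + 0.1825 * Real.exp (r * 0) :=
  v5_H 0.46 0.9 1 1.6716 1.8222 1.27024 1.9635 0.39851 0.1262 2.2422 0.6484 0.08767 0.4214 0.0000013 2.0456 0.1825 hβ hr hκ (by norm_num) hk1 hk2 hta htb (by norm_num) (B5Ho_G34 hk1 hk2).1 (B5Ho_G34 hk1 hk2).2 (by norm_num) (by norm_num) (by norm_num)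
    (by norm_num) (by norm_num) (by norm_num) (by norm_num) (by norm_num) (by norm_num) (by norm_num) (by norm_num) (ex_un 0 0.8766 (by norm_num) (by norm_num) (by norm_num) (by norm_num))
    (v5_hump 2.1714 9.999 3.1622 0.0000009316 0.0000013 hβ hr hκ hk1 hk2 (by norm_num) htb (by norm_num) (by norm_num) (by norm_num) (by norm_num) (by norm_num) (by norm_num) (by norm_num) (ex_un 13 0.9 (by norm_num) (by norm_num) (by norm_num) (by norm_num)) (by norm_num)) (by norm_num) (by norm_num)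

private theorem B5Ho_C36 {β r t κ : ℝ} (hβ : 0 < β) (hr : 10 ≤ r) (hκ : κ = β * r) (hk1 : 0.9 ≤ κ) (hk2 : κ ≤ 1) (hta : (-2.0983) ≤ t + κ)
    (htb : t + κ ≤ (-1.9477)) : ‖F (cexp (I * β)) (r * cexp (I * ((t + β / 2 : ℝ) : ℂ)))‖ ≤
      0.9741 * Real.exp (r * (1.44934 - (-0.71) * (t + κ))) + 1.8374 * Real.exp (r * 0.0501) :=
  v5_HU (-0.71) 0.9 1 (-2.0983) (-1.9477) 1.44934 0.9741 3.58939 0.1262 0.8067 1.6136 0 0.0501 0.0000013 1.8374 hβ hr hκ (by norm_num) hk1 hk2 hta htb (by norm_num) (by norm_num) (B5Ho_G5 hk1 hk2).1 (B5Ho_G5 hk1 hk2).2 (by norm_num) (by norm_num) (by norm_num)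
    (by norm_num) (by norm_num) (by norm_num) (by norm_num) (by norm_num) (by norm_num) (by norm_num)
    (by norm_num) (by norm_num) (by norm_num) (v5_hump 5.9413 9.999 3.1622 0.0000009316 0.0000013 hβ hr hκ hk1 hk2 (by norm_num) htb (by norm_num) (by norm_num) (by norm_num) (by norm_num) (by norm_num) (by norm_num) (by norm_num) (ex_un 13 0.9 (by norm_num) (by norm_num) (by norm_num) (by norm_num)) (by norm_num)) (by norm_num)

private theorem B5Ho_C37 {β r t κ : ℝ} (hβ : 0 < β) (hr : 10 ≤ r) (hκ : κ = β * r) (hk1 : 0.9 ≤ κ) (hk2 : κ ≤ 1) (hta : 2.9282 ≤ t + κ)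
    (htb : t + κ ≤ 3.0788) : ‖F (cexp (I * β)) (r * cexp (I * ((t + β / 2 : ℝ) : ℂ)))‖ ≤
      2.2561 * Real.exp (r * (0.01 + 1 / 20)) :=
  v5_UD 0.9 1 2.9282 3.0788 0.01 0.4206 0.01 1.1762 2.2561 hβ hr hκ (by norm_num) hk1 hk2 hta htb (by norm_num) (by norm_num) (by norm_num) (by norm_num) (by norm_num) (by norm_num) (by norm_num) (by norm_num) (by norm_num) (by norm_num) (by norm_num)

private theorem B5Ho_Y38 {β r t κ h t' : ℝ} (hβ : 0 < β) (hκ : κ = β * r) (hN : β * 9.999 ≤ 1) (hk1 : 0.9 ≤ κ) (hk2 : κ ≤ 1)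
    (ht : t' = t + (((1 : ℤ) : ℝ) - 1) * h) (hD : DomR κ t') (hta : 0.415 ≤ t' + κ) (htb : t' + κ ≤ 0.5655) :
    0.7891 * Real.exp (r * sE κ t') ≤ ‖Xf β r h t 1‖ := by
  obtain ⟨⟨ya, yb⟩, ⟨xa, xb⟩, n1, Da, Db⟩ := B5Ho_B32 hD hk1 hk2 hta htb
  have J := B5Ho_T33 (x := sx κ t') (y := sy κ t') hβ hN (by linarith only [xa, xb, ya, yb]) (by linarith only [xa, xb, ya, yb]) (by linarith only [xa, xb, ya, yb]) (by linarith only [xa, xb, ya, yb])
  exact v5_Jlo hβ hκ (k := 1) ht hD 0.05 2.1004 0.7891 (by norm_num) J Db (by norm_num)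

private theorem B5Ho_V39 {κ t : ℝ} (hD : DomR κ t) (hk1 : 0.9 ≤ κ) (hk2 : κ ≤ 1) (hta : 0.415 ≤ t + κ) (htb : t + κ ≤ 0.5655) :
    1.05715 - 0.2466 * (t + κ) ≤ sE κ t := by
  have hκ0 : 0 < κ := hD.1
  exact v5_V1 hD 0.9 1 0.415 0.5655 0.06054 0.18417 0.32849 1.05715 0.2466 (by norm_num) hk1 hk2 (by norm_num) (by norm_num) hta htb (by norm_num) (clo5 0.9 1 0.32849 (by norm_num) hk1 hk2 (by norm_num) (by norm_num) (by norm_num))
      ((cup1 1 hκ0.le hk2 (by norm_num)).trans (by norm_num)) (by norm_num) (by norm_num) (by norm_num) (by norm_num) (by norm_num) (by norm_num)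

private theorem B5Ho_K40 {β r t κ h : ℝ} (hβ : 0 < β) (hr : 10 ≤ r) (hκ : κ = β * r) (hk1 : 0.9 ≤ κ) (hk2 : κ ≤ 1)
    (hh : h = 2 * Real.pi / 5) (hh1 : 1.25663 ≤ h) (hh2 : h ≤ 1.25664) (hta : 0.415 ≤ t + κ) (htb : t + κ ≤ 0.5655)
    (hY : 0.7891 * Real.exp (r * sE κ t) ≤ ‖Xf β r h t 1‖) (hV : 1.05715 - 0.2466 * (t + κ) ≤ sE κ t) :
    ‖Xf β r h t 2‖ ≤ 0.028 * ‖Xf β r h t 1‖ := by
  rw [v5_X 2 1 (by push_cast; ring)]
  exact v5_cmp 0.4535 0.01076 0.0279 0.9176 0.0001036 0.000024 0.028 hr (B5Ho_C35 (t := t + 1 * h) hβ hr hκ hk1 hk2 (by linarith only [hta, htb, hh1, hh2]) (by linarith only [hta, htb, hh1, hh2])) hY (by norm_num) (by norm_num) (by norm_num) (by norm_num) (by linarith only [hV, hta, htb, hh1, hh2]) (ex_un 4 0.5349 (by norm_num) (by norm_num) (by norm_num) (by norm_num)) (by norm_num) (by norm_num) (by linarith only [hV, hta, htb, hh1, hh2]) (ex_un 9 0.1759 (by norm_num) (by norm_num) (by norm_num) (by norm_num))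 (by norm_num) (by norm_num)

private theorem B5Ho_K41 {β r t κ h : ℝ} (hβ : 0 < β) (hr : 10 ≤ r) (hκ : κ = β * r) (hk1 : 0.9 ≤ κ) (hk2 : κ ≤ 1)
    (hh : h = 2 * Real.pi / 5) (hh1 : 1.25663 ≤ h) (hh2 : h ≤ 1.25664) (hta : 0.415 ≤ t + κ) (htb : t + κ ≤ 0.5655)
    (hY : 0.7891 * Real.exp (r * sE κ t) ≤ ‖Xf β r h t 1‖) (hV : 1.05715 - 0.2466 * (t + κ) ≤ sE κ t) :
    ‖Xf β r h t (-1)‖ ≤ 0.00065 * ‖Xf β r h t 1‖ := by
  rw [v5_X (-1) (-2) (by push_cast; ring)]
  exact v5_cmp 0.8512 0.0002015 0.000249 0.8675 0.0001717 0.0004 0.00065 hr (B5Ho_C36 (t := t + (-2) * h) hβ hr hκ hk1 hk2 (by linarith only [hta, htb, hh1, hh2]) (by linarith only [hta, htb, hh1, hh2])) hY (by norm_num) (by norm_num) (by norm_num) (by norm_num) (by linarith only [hV, hta, htb, hh1, hh2]) (ex_un 8 0.5119 (by norm_num) (by norm_num) (by norm_num) (by norm_num)) (by norm_num) (by norm_num) (by linarith only [hV, hta, htb, hh1, hh2]) (ex_un 8 0.6749 (by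 norm_num) (by norm_num) (by norm_num) (by norm_num)) (by norm_num) (by norm_num)

private theorem B5Ho_K42 {β r t κ h : ℝ} (hβ : 0 < β) (hr : 10 ≤ r) (hκ : κ = β * r) (hk1 : 0.9 ≤ κ) (hk2 : κ ≤ 1)
    (hh : h = 2 * Real.pi / 5) (hh1 : 1.25663 ≤ h) (hh2 : h ≤ 1.25664) (hta : 0.415 ≤ t + κ) (htb : t + κ ≤ 0.5655)
    (hY : 0.7891 * Real.exp (r * sE κ t) ≤ ‖Xf β r h t 1‖) (hV : 1.05715 - 0.2466 * (t + κ) ≤ sE κ t) :
    ‖Xf β r h t (-2)‖ ≤ 0.000541 * ‖Xf β r h t 1‖ := by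
  rw [v5_Xm2 hh]
  exact v5_cmp0 0.8576 0.0001892 0.000541 hr (B5Ho_C37 (t := t + 2 * h) hβ hr hκ hk1 hk2 (by linarith only [hta, htb, hh1, hh2]) (by linarith only [hta, htb, hh1, hh2])) hY (by norm_num) (by norm_num) (by norm_num) (by linarith only [hV, hta, htb, hh1, hh2]) (ex_un 8 0.5759 (by norm_num) (by norm_num) (by norm_num) (by norm_num)) (by norm_num)

private theorem B5Ho_G43 {κ : ℝ} (hk1 : 0.9 ≤ κ) (hk2 : κ ≤ 1) : gG κ (-0.4) ≤ 1.14581 ∧ 2.0544 ≤ Real.exp (-(κ * (-0.4))) ^ 2 := by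
  refine ⟨gG_le (-0.4) 0.9 1 1.14581 1.43333 1.49183 0.69768 0.67033 hk1 hk2 (by norm_num)
    (ex_up 0.36 (by norm_num) (by norm_num) (by norm_num) (by norm_num)) (ex_up 0.4 (by norm_num) (by norm_num) (by norm_num) (by norm_num))
    (ex_um 0.36 (by norm_num) (by norm_num) (by norm_num) (by norm_num)) (ex_um 0.4 (by norm_num) (by norm_num) (by norm_num) (by norm_num))
    (by norm_num) (by norm_num), ?_⟩
  exact v5_M 1.43332 (ex_lp 0.36 (by linarith) (by norm_num) (by norm_num)) (by norm_num) (by norm_num)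

private theorem B5Ho_C44 {β r t κ : ℝ} (hβ : 0 < β) (hr : 10 ≤ r) (hκ : κ = β * r) (hk1 : 0.9 ≤ κ) (hk2 : κ ≤ 1) (hta : (-0.8417) ≤ t + κ)
    (htb : t + κ ≤ (-0.6911)) : ‖F (cexp (I * β)) (r * cexp (I * ((t + β / 2 : ℝ) : ℂ)))‖ ≤
      1.1005 * Real.exp (r * (1.14581 - (-0.4) * (t + κ))) + 1.553 * Real.exp (r * 0.0501) :=
  v5_HU (-0.4) 0.9 1 (-0.8417) (-0.6911) 1.14581 1.1005 2.0544 0.1262 0.8067 2.8702 0 0.0501 0.0000013 1.553 hβ hr hκ (by norm_num) hk1 hk2 hta htb (by norm_num) (by norm_num) (B5Ho_G43 hk1 hk2).1 (B5Ho_G43 hk1 hk2).2 (by norm_num) (by norm_num) (by norm_num)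
    (by norm_num) (by norm_num) (by norm_num) (by norm_num) (by norm_num) (by norm_num) (by norm_num)
    (by norm_num) (by norm_num) (by norm_num) (v5_hump 4.6847 9.999 3.1622 0.0000009316 0.0000013 hβ hr hκ hk1 hk2 (by norm_num) htb (by norm_num) (by norm_num) (by norm_num) (by norm_num) (by norm_num) (by norm_num) (by norm_num) (ex_un 13 0.9 (by norm_num) (by norm_num) (by norm_num) (by norm_num)) (by norm_num)) (by norm_num)

private theorem B5Ho_K45 {β r t κ h : ℝ} (hβ : 0 < β) (hr : 10 ≤ r) (hκ : κ = β * r) (hk1 : 0.9 ≤ κ) (hk2 : κ ≤ 1)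
    (hh : h = 2 * Real.pi / 5) (hh1 : 1.25663 ≤ h) (hh2 : h ≤ 1.25664) (hta : 0.415 ≤ t + κ) (htb : t + κ ≤ 0.5655)
    (hY : 0.7891 * Real.exp (r * sE κ t) ≤ ‖Xf β r h t 1‖) (hV : 1.05715 - 0.2466 * (t + κ) ≤ sE κ t) :
    ‖Xf β r h t 0‖ ≤ 0.863 * ‖Xf β r h t 1‖ := by
  rw [v5_X 0 (-1) (by push_cast; ring)]
  exact v5_cmp 0.0483 0.618 0.862 0.8675 0.0001717 0.000338 0.863 hr (B5Ho_C44 (t := t + (-1) * h) hβ hr hκ hk1 hk2 (by linarith only [hta, htb, hh1, hh2]) (by linarith only [hta, htb, hh1, hh2])) hY (by norm_num) (by norm_num) (by norm_num) (by norm_num) (by linarith only [hV, hta, htb, hh1, hh2]) (ex_un 0 0.4829 (by norm_num) (by norm_num) (by norm_num) (by norm_num)) (by norm_num) (by norm_num) (by linarith only [hV, hta, htb, hh1, hh2]) (ex_un 8 0.6749 (by norm_num) (by norm_num) (by norm_num) (by norm_num)) (by norm_num) (by norm_num)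

private theorem B5Ho_O46 {β r t κ h : ℝ} (hβ : 0 < β) (hr : 10 ≤ r) (hκ : κ = β * r) (hk1 : 0.9 ≤ κ) (hk2 : κ ≤ 1)
    (hh : h = 2 * Real.pi / 5) (hta : 0.415 ≤ t + κ) (htb : t + κ ≤ 0.5655) :
    ‖Xf β r h t (-2)‖ + ‖Xf β r h t (-1)‖ + ‖Xf β r h t 2‖ < |‖Xf β r h t 1‖ - ‖Xf β r h t 0‖| := by
  obtain ⟨hh1, hh2⟩ := v5_h hh
  have hκ0 : 0 < κ := by linarith only [hk1]
  have hN : β * 9.999 ≤ 1 := v5_hN 1 9.999 hβ hr hκ hk2 (by norm_num) (by norm_num)
  have hD1 : DomR κ t := v5_dom hκ0 (by linarith only [hta, htb, hk1, hk2, hh1, hh2]) (Or.inr (by linarith only [hta, htb, hk1, hk2, hh1, hh2]))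
  have e1 : t = t + (((1 : ℤ) : ℝ) - 1) * h := by push_cast; ring
  have hY := B5Ho_Y38 (h := h) hβ hκ hN hk1 hk2 e1 hD1 hta htb
  have hV := B5Ho_V39 hD1 hk1 hk2 hta htb
  have cp2 := B5Ho_K40 hβ hr hκ hk1 hk2 hh hh1 hh2 hta htb hY hV
  have cm1 := B5Ho_K41 hβ hr hκ hk1 hk2 hh hh1 hh2 hta htb hY hV
  have cm2 := B5Ho_K42 hβ hr hκ hk1 hk2 hh hh1 hh2 hta htb hY hV
  have cn0 := B5Ho_K45 hβ hr hκ hk1 hk2 hh hh1 hh2 hta htb hY hV
  have hp : 0 < ‖Xf β r h t 1‖ := lt_of_lt_of_le (by positivity) hY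
  exact v5_out1 _ _ _ _ cm2 cm1 cp2 cn0 hp (by norm_num)

private theorem B5Ho_B47 {κ t : ℝ} (h : DomR κ t) (hk1 : 0.9 ≤ κ) (hk2 : κ ≤ 1) (ht1 : (-0.4902) ≤ t + κ) (ht2 : t + κ ≤ (-0.3766)) :
    ((-0.278) ≤ sy κ t ∧ sy κ t ≤ (-0.204)) ∧ (1.068 ≤ sx κ t ∧ sx κ t ≤ 1.3047) ∧ κ * Real.exp (-sy κ t) ≤ 1.3205 ∧ 1.81 ≤ sD κ t ∧ sD κ t ≤ 2.1877 := by
  have hy1 : -0.278 ≤ sy κ t := syL_ge h 0.9 1 0.4902 0.278 0.75729 0.7573 0.2183 0.21052 0.23393 hk1 hk2 (by linarith) (by norm_num) (by norm_num) (by norm_num)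
    (expm_ge (by norm_num) (by norm_num) (by norm_num) (by norm_num)) (expm_le (by norm_num) (by norm_num) (by norm_num)) (by norm_num)
    (by norm_num) (by norm_num) (by norm_num) (by norm_num) (by norm_num) (by norm_num)
  have hy2 : sy κ t ≤ -0.204 := syL_le h 0.9 1 0.3766 0.204 0.81546 0.81547 0.16635 0.18484 hk1 hk2 (by linarith) (by norm_num) (by norm_num) (by norm_num)
    (expm_ge (by norm_num) (by norm_num) (by norm_num) (by norm_num)) (expm_le (by norm_num) (by norm_num) (by norm_num)) (by norm_num)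
    (by norm_num) (by norm_num) (by norm_num) (by norm_num) (by norm_num) (by norm_num)
  have hy1' : (-0.278) ≤ sy κ t := by linarith
  have hy2' : sy κ t ≤ (-0.204) := by linarith
  have hx1 : 1.068 ≤ sx κ t := sx_lo h 0.9 (-0.204) 0.2781 1.22629 1.068 hk1 (by norm_num) hy2' (abs_le.2 ⟨by linarith, by linarith⟩) (ex_lp 0.204 (by norm_num) (by norm_num) (by norm_num)) (by norm_num) (by norm_num)
  have hx2 : sx κ t ≤ 1.3047 := sx_hi h 1 (-0.278) 0.204 1.32049 1.3047 hk2 hy1' (by norm_num) (le_trans (by linarith) (neg_le_abs _)) (ex_up 0.278 (by norm_num) (by norm_num) (by norm_num) (by norm_num)) (by norm_num) (by norm_num)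
  refine ⟨⟨hy1', hy2'⟩, ⟨hx1, hx2⟩, v5_n h 1 (-0.278) 1.32049 1.3205 hk2 hy1' (ex_up 0.278 (by norm_num) (by norm_num) (by norm_num) (by norm_num)) (by norm_num), ?_, ?_⟩
  · exact v5_Dlo h 0.9 (-0.278) (-0.204) (-0.204) 1.22629 1.81 (by norm_num) hk1 hy1' hy2' (ex_lp 0.204 (by norm_num) (by norm_num) (by norm_num)) (by norm_num) (by norm_num) (by norm_num) (by norm_num)
  · exact v5_Dup h 1 (-0.278) (-0.204) 1.32049 1.2263 2.1877 hk2 hy1' hy2' (ex_up 0.278 (by norm_num) (by norm_num) (by norm_num) (by norm_num)) (ex_up 0.204 (by norm_num) (by norm_num) (by norm_num) (by norm_num)) (by norm_num) (by norm_num) (by norm_num)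

private theorem B5Ho_T48_0_0 {β x y : ℝ} (hβ : 0 < β) (hN : β * 9.999 ≤ 1) (hx1 : 1.0679 ≤ x) (hx2 : x ≤ 1.122)
    (hy1 : -0.2781 ≤ y) (hy2 : y ≤ -0.2039) : ‖HH β (x + y * I) - 1‖ ≤ 0.075 := by
  refine le_epsJ (C := 0.749) (N0 := 9.999) (J_boxp 1.0679 1.122 0.2781 0 (-0.2039) 1.2645 1.156 1.3758 0.8249 0.468 3.1622 9.999 0.9142 3.569 1.516 0.7318 0.6322 0.4395 0.9348 2.5734 0.7217 1.9786 2.9505 3.7055 0.001799 0.01236 0.00008724 0.0000003101 0.0007348 0.0000003101 0.0000003101 0.0000003101 0.749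
    hβ hN hx1 hx2 hy1 hy2 (by norm_num) (by norm_num) (by linarith) (by norm_num) (by norm_num) (by norm_num) (by norm_num) (by norm_num) (by norm_num) (by norm_num) (by norm_num) (by norm_num) (by norm_num) (by norm_num) (by norm_num) (by norm_num) (by norm_num) (by norm_num) (by norm_num) (by norm_num) (by norm_num) (by norm_num) (by norm_num) (by norm_num)
    (cube_sqrt_geJ (s := 0.8338) (by norm_num) (by norm_num) (by norm_num) (by norm_num))
    (cube_sqrt_geJ (s := 0.9423) (by norm_num) (by norm_num) (by norm_num) (by norm_num))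
    (by norm_num) (by norm_num) (by norm_num) (by norm_num) (by norm_num) (by norm_num) (by norm_num) (by norm_num) (by norm_num) (by norm_num) (by norm_num) (by norm_num) (by norm_num) (by norm_num) (by norm_num) (by norm_num) (by norm_num) (by norm_num)
    (exp_neg_leJ (r := 0.321) 6 (by norm_num) (by norm_num) (by norm_num) (by norm_num))
    (exp_neg_leJ (r := 0.394) 4 (by norm_num) (by norm_num) (by norm_num) (by norm_num))
    (exp_neg_leJ (r := 0.347) 9 (by norm_num) (by norm_num) (by norm_num) (by norm_num))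
    (exp_neg_leJ (r := 0.99) 14 (by norm_num) (by norm_num) (by norm_num) (by norm_num))
    (exp_neg_leJ (r := 0.216) 7 (by norm_num) (by norm_num) (by norm_num) (by norm_num))
    (exp_neg_leJ (r := 0.99) 14 (by norm_num) (by norm_num) (by norm_num) (by norm_num))
    (exp_neg_leJ (r := 0.99) 14 (by norm_num) (by norm_num) (by norm_num) (by norm_num))
    (exp_neg_leJ (r := 0.99) 14 (by norm_num) (by norm_num) (by norm_num) (by norm_num))
    (by norm_num)) (by norm_num) hN hβ.le (by norm_num)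

private theorem B5Ho_T48_0_1 {β x y : ℝ} (hβ : 0 < β) (hN : β * 9.999 ≤ 1) (hx1 : 1.122 ≤ x) (hx2 : x ≤ 1.18)
    (hy1 : -0.2781 ≤ y) (hy2 : y ≤ -0.2039) : ‖HH β (x + y * I) - 1‖ ≤ 0.075 := by
  refine le_epsJ (C := 0.7491) (N0 := 9.999) (J_boxp 1.122 1.18 0.2781 0 (-0.2039) 1.3026 1.2124 1.4235 0.8026 0.476 3.1622 9.999 0.9308 3.67 1.528 0.7095 0.6512 0.4492 0.9533 2.5403 0.748 2.0535 3.0587 3.6604 0.001488 0.01122 0.00007252 0.0000003101 0.000565 0.0000003101 0.0000003101 0.0000003101 0.7491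
    hβ hN hx1 hx2 hy1 hy2 (by norm_num) (by norm_num) (by linarith) (by norm_num) (by norm_num) (by norm_num) (by norm_num) (by norm_num) (by norm_num) (by norm_num) (by norm_num) (by norm_num) (by norm_num) (by norm_num) (by norm_num) (by norm_num) (by norm_num) (by norm_num) (by norm_num) (by norm_num) (by norm_num) (by norm_num) (by norm_num) (by norm_num)
    (cube_sqrt_geJ (s := 0.8305) (by norm_num) (by norm_num) (by norm_num) (by norm_num))
    (cube_sqrt_geJ (s := 0.9412) (by norm_num) (by norm_num) (by norm_num) (by norm_num))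
    (by norm_num) (by norm_num) (by norm_num) (by norm_num) (by norm_num) (by norm_num) (by norm_num) (by norm_num) (by norm_num) (by norm_num) (by norm_num) (by norm_num) (by norm_num) (by norm_num) (by norm_num) (by norm_num) (by norm_num) (by norm_num)
    (exp_neg_leJ (r := 0.511) 6 (by norm_num) (by norm_num) (by norm_num) (by norm_num))
    (exp_neg_leJ (r := 0.491) 4 (by norm_num) (by norm_num) (by norm_num) (by norm_num))
    (exp_neg_leJ (r := 0.532) 9 (by norm_num) (by norm_num) (by norm_num) (by norm_num))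
    (exp_neg_leJ (r := 0.99) 14 (by norm_num) (by norm_num) (by norm_num) (by norm_num))
    (exp_neg_leJ (r := 0.479) 7 (by norm_num) (by norm_num) (by norm_num) (by norm_num))
    (exp_neg_leJ (r := 0.99) 14 (by norm_num) (by norm_num) (by norm_num) (by norm_num))
    (exp_neg_leJ (r := 0.99) 14 (by norm_num) (by norm_num) (by norm_num) (by norm_num))
    (exp_neg_leJ (r := 0.99) 14 (by norm_num) (by norm_num) (by norm_num) (by norm_num))
    (by norm_num)) (by norm_num) hN hβ.le (by norm_num)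

private theorem B5Ho_T48_0_2 {β x y : ℝ} (hβ : 0 < β) (hN : β * 9.999 ≤ 1) (hx1 : 1.18 ≤ x) (hx2 : x ≤ 1.242)
    (hy1 : -0.2781 ≤ y) (hy2 : y ≤ -0.2039) : ‖HH β (x + y * I) - 1‖ ≤ 0.075 := by
  refine le_epsJ (C := 0.7493) (N0 := 9.999) (J_boxp 1.18 1.242 0.2781 0 (-0.2039) 1.3434 1.2728 1.4753 0.7801 0.4846 3.1622 9.999 0.9475 3.776 1.54 0.6857 0.6716 0.4595 0.9732 2.5048 0.7762 2.1338 3.1747 3.6122 0.001214 0.01012 0.00005948 0.0000003101 0.0004266 0.0000003101 0.0000003101 0.0000003101 0.7493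
    hβ hN hx1 hx2 hy1 hy2 (by norm_num) (by norm_num) (by linarith) (by norm_num) (by norm_num) (by norm_num) (by norm_num) (by norm_num) (by norm_num) (by norm_num) (by norm_num) (by norm_num) (by norm_num) (by norm_num) (by norm_num) (by norm_num) (by norm_num) (by norm_num) (by norm_num) (by norm_num) (by norm_num) (by norm_num) (by norm_num) (by norm_num)
    (cube_sqrt_geJ (s := 0.8271) (by norm_num) (by norm_num) (by norm_num) (by norm_num))
    (cube_sqrt_geJ (s := 0.9402) (by norm_num) (by norm_num) (by norm_num) (by norm_num))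
    (by norm_num) (by norm_num) (by norm_num) (by norm_num) (by norm_num) (by norm_num) (by norm_num) (by norm_num) (by norm_num) (by norm_num) (by norm_num) (by norm_num) (by norm_num) (by norm_num) (by norm_num) (by norm_num) (by norm_num) (by norm_num)
    (exp_neg_leJ (r := 0.715) 6 (by norm_num) (by norm_num) (by norm_num) (by norm_num))
    (exp_neg_leJ (r := 0.594) 4 (by norm_num) (by norm_num) (by norm_num) (by norm_num))
    (exp_neg_leJ (r := 0.731) 9 (by norm_num) (by norm_num) (by norm_num) (by norm_num))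
    (exp_neg_leJ (r := 0.99) 14 (by norm_num) (by norm_num) (by norm_num) (by norm_num))
    (exp_neg_leJ (r := 0.761) 7 (by norm_num) (by norm_num) (by norm_num) (by norm_num))
    (exp_neg_leJ (r := 0.99) 14 (by norm_num) (by norm_num) (by norm_num) (by norm_num))
    (exp_neg_leJ (r := 0.99) 14 (by norm_num) (by norm_num) (by norm_num) (by norm_num))
    (exp_neg_leJ (r := 0.99) 14 (by norm_num) (by norm_num) (by norm_num) (by norm_num))
    (by norm_num)) (by norm_num) hN hβ.le (by norm_num)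

private theorem B5Ho_T48_0_3 {β x y : ℝ} (hβ : 0 < β) (hN : β * 9.999 ≤ 1) (hx1 : 1.242 ≤ x) (hx2 : x ≤ 1.3048)
    (hy1 : -0.2781 ≤ y) (hy2 : y ≤ -0.2039) : ‖HH β (x + y * I) - 1‖ ≤ 0.075 := by
  refine le_epsJ (C := 0.7442) (N0 := 9.999) (J_boxp 1.242 1.3048 0.2781 0 (-0.2039) 1.3871 1.3342 1.5285 0.7568 0.4933 3.1622 9.999 0.9619 3.87 1.551 0.6615 0.6935 0.4711 0.9944 2.4689 0.8063 2.2196 3.2987 3.5693 0.0009768 0.009013 0.00004821 0.0000003101 0.0003153 0.0000003101 0.0000003101 0.0000003101 0.7442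
    hβ hN hx1 hx2 hy1 hy2 (by norm_num) (by norm_num) (by linarith) (by norm_num) (by norm_num) (by norm_num) (by norm_num) (by norm_num) (by norm_num) (by norm_num) (by norm_num) (by norm_num) (by norm_num) (by norm_num) (by norm_num) (by norm_num) (by norm_num) (by norm_num) (by norm_num) (by norm_num) (by norm_num) (by norm_num) (by norm_num) (by norm_num)
    (cube_sqrt_geJ (s := 0.8242) (by norm_num) (by norm_num) (by norm_num) (by norm_num))
    (cube_sqrt_geJ (s := 0.9392) (by norm_num) (by norm_num) (by norm_num) (by norm_num))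
    (by norm_num) (by norm_num) (by norm_num) (by norm_num) (by norm_num) (by norm_num) (by norm_num) (by norm_num) (by norm_num) (by norm_num) (by norm_num) (by norm_num) (by norm_num) (by norm_num) (by norm_num) (by norm_num) (by norm_num) (by norm_num)
    (exp_neg_leJ (r := 0.934) 6 (by norm_num) (by norm_num) (by norm_num) (by norm_num))
    (exp_neg_leJ (r := 0.71) 4 (by norm_num) (by norm_num) (by norm_num) (by norm_num))
    (exp_neg_leJ (r := 0.943) 9 (by norm_num) (by norm_num) (by norm_num) (by norm_num))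
    (exp_neg_leJ (r := 0.99) 14 (by norm_num) (by norm_num) (by norm_num) (by norm_num))
    (exp_neg_leJ (r := 0.062) 8 (by norm_num) (by norm_num) (by norm_num) (by norm_num))
    (exp_neg_leJ (r := 0.99) 14 (by norm_num) (by norm_num) (by norm_num) (by norm_num))
    (exp_neg_leJ (r := 0.99) 14 (by norm_num) (by norm_num) (by norm_num) (by norm_num))
    (exp_neg_leJ (r := 0.99) 14 (by norm_num) (by norm_num) (by norm_num) (by norm_num))
    (by norm_num)) (by norm_num) hN hβ.le (by norm_num)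

private theorem B5Ho_T48 {β x y : ℝ} (hβ : 0 < β) (hN : β * 9.999 ≤ 1) (hx1 : 1.0679 ≤ x) (hx2 : x ≤ 1.3048)
    (hy1 : (-0.2781) ≤ y) (hy2 : y ≤ (-0.2039)) : ‖HH β (x + y * I) - 1‖ ≤ 0.075 := by
  rcases le_total x 1.122 with hxx | hxx
  · exact B5Ho_T48_0_0 hβ hN (by linarith) (by linarith) (by linarith) (by linarith)
  rcases le_total x 1.18 with hxx | hxx
  · exact B5Ho_T48_0_1 hβ hN (by linarith) (by linarith) (by linarith) (by linarith)
  rcases le_total x 1.242 with hxx | hxx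
  · exact B5Ho_T48_0_2 hβ hN (by linarith) (by linarith) (by linarith) (by linarith)
  exact B5Ho_T48_0_3 hβ hN (by linarith) (by linarith) (by linarith) (by linarith)

private theorem B5Ho_G49 {κ : ℝ} (hk1 : 0.9 ≤ κ) (hk2 : κ ≤ 1) : gG κ 0.49 ≤ 1.31573 ∧ 0.3753 ≤ Real.exp (-(κ * 0.49)) ^ 2 := by
  refine ⟨gG_le 0.49 0.9 1 1.31573 0.6434 0.61263 1.55427 1.63232 hk1 hk2 (by norm_num)
    (ex_um 0.441 (by norm_num) (by norm_num) (by norm_num) (by norm_num)) (ex_um 0.49 (by norm_num) (by norm_num) (by norm_num) (by norm_num))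
    (ex_up 0.441 (by norm_num) (by norm_num) (by norm_num) (by norm_num)) (ex_up 0.49 (by norm_num) (by norm_num) (by norm_num) (by norm_num))
    (by norm_num) (by norm_num), ?_⟩
  exact v5_M 0.61262 (ex_lm 0.49 (by linarith) (by norm_num) (by norm_num) (by norm_num) (by norm_num)) (by norm_num) (by norm_num)

private theorem B5Ho_C50 {β r t κ : ℝ} (hβ : 0 < β) (hr : 10 ≤ r) (hκ : κ = β * r) (hk1 : 0.9 ≤ κ) (hk2 : κ ≤ 1) (hta : 2.0231 ≤ t + κ)
    (htb : t + κ ≤ 2.1367) : ‖F (cexp (I * β)) (r * cexp (I * ((t + β / 2 : ℝ) : ℂ)))‖ ≤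
      2.3456 * Real.exp (r * (1.31573 - 0.49 * (t + κ))) + 0.1749 * Real.exp (r * 0) :=
  v5_H 0.49 0.9 1 2.0231 2.1367 1.31573 2.1291 0.3753 0.1262 2.5937 0.3339 0.05603 0.5727 0.0000013 2.3456 0.1749 hβ hr hκ (by norm_num) hk1 hk2 hta htb (by norm_num) (B5Ho_G49 hk1 hk2).1 (B5Ho_G49 hk1 hk2).2 (by norm_num) (by norm_num) (by norm_num)
    (by norm_num) (by norm_num) (by norm_num) (by norm_num) (by norm_num) (by norm_num) (by norm_num) (by norm_num) (ex_un 0 0.5602 (by norm_num) (by norm_num) (by norm_num) (by norm_num))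
    (v5_hump 1.8569 9.999 3.1622 0.0000009316 0.0000013 hβ hr hκ hk1 hk2 (by norm_num) htb (by norm_num) (by norm_num) (by norm_num) (by norm_num) (by norm_num) (by norm_num) (by norm_num) (ex_un 13 0.9 (by norm_num) (by norm_num) (by norm_num) (by norm_num)) (by norm_num)) (by norm_num) (by norm_num)

private theorem B5Ho_C51 {β r t κ : ℝ} (hβ : 0 < β) (hr : 10 ≤ r) (hκ : κ = β * r) (hk1 : 0.9 ≤ κ) (hk2 : κ ≤ 1) (hta : (-1.7468) ≤ t + κ)
    (htb : t + κ ≤ (-1.6332)) : ‖F (cexp (I * β)) (r * cexp (I * ((t + β / 2 : ℝ) : ℂ)))‖ ≤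
      0.9741 * Real.exp (r * (1.44934 - (-0.71) * (t + κ))) + 1.8234 * Real.exp (r * 0.0501) :=
  v5_HU (-0.71) 0.9 1 (-1.7468) (-1.6332) 1.44934 0.9741 3.58939 0.1262 0.8067 1.9651 0 0.0501 0.0000013 1.8234 hβ hr hκ (by norm_num) hk1 hk2 hta htb (by norm_num) (by norm_num) (B5Ho_G5 hk1 hk2).1 (B5Ho_G5 hk1 hk2).2 (by norm_num) (by norm_num) (by norm_num)
    (by norm_num) (by norm_num) (by norm_num) (by norm_num) (by norm_num) (by norm_num) (by norm_num)
    (by norm_num) (by norm_num) (by norm_num) (v5_hump 5.6268 9.999 3.1622 0.0000009316 0.0000013 hβ hr hκ hk1 hk2 (by norm_num) htb (by norm_num) (by norm_num) (by norm_num) (by norm_num) (by norm_num) (by norm_num) (by norm_num) (ex_un 13 0.9 (by norm_num) (by norm_num) (by norm_num) (by norm_num)) (by norm_num)) (by norm_num)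

private theorem B5Ho_C52 {β r t κ : ℝ} (hβ : 0 < β) (hr : 10 ≤ r) (hκ : κ = β * r) (hk1 : 0.9 ≤ κ) (hk2 : κ ≤ 1) (hta : 3.2797 ≤ t + κ)
    (htb : t + κ ≤ 3.3933) : ‖F (cexp (I * β)) (r * cexp (I * ((t + β / 2 : ℝ) : ℂ)))‖ ≤
      2.1487 * Real.exp (r * (0.01 + 1 / 20)) :=
  v5_UD 0.9 1 3.2797 3.3933 0.01 0.4206 0.01 1.1202 2.1487 hβ hr hκ (by norm_num) hk1 hk2 hta htb (by norm_num) (by norm_num) (by norm_num) (by norm_num) (by norm_num) (by norm_num) (by norm_num) (by norm_num) (by norm_num) (by norm_num) (by norm_num)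

private theorem B5Ho_Y53 {β r t κ h t' : ℝ} (hβ : 0 < β) (hκ : κ = β * r) (hN : β * 9.999 ≤ 1) (hk1 : 0.9 ≤ κ) (hk2 : κ ≤ 1)
    (ht : t' = t + (((0 : ℤ) : ℝ) - 1) * h) (hD : DomR κ t') (hta : (-0.4902) ≤ t' + κ) (htb : t' + κ ≤ (-0.3766)) :
    0.7605 * Real.exp (r * sE κ t') ≤ ‖Xf β r h t 0‖ := by
  obtain ⟨⟨ya, yb⟩, ⟨xa, xb⟩, n1, Da, Db⟩ := B5Ho_B47 hD hk1 hk2 hta htb
  have J := B5Ho_T48 (x := sx κ t') (y := sy κ t') hβ hN (by linarith only [xa, xb, ya, yb]) (by linarith only [xa, xb, ya, yb]) (by linarith only [xa, xb, ya, yb]) (by linarith only [xa, xb, ya, yb])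
  exact v5_Jlo hβ hκ (k := 0) ht hD 0.075 2.1877 0.7605 (by norm_num) J Db (by norm_num)

private theorem B5Ho_V54 {κ t : ℝ} (hD : DomR κ t) (hk1 : 0.9 ≤ κ) (hk2 : κ ≤ 1) (hta : (-0.4902) ≤ t + κ) (htb : t + κ ≤ (-0.3766)) :
    1.05693 + 0.2673 * (t + κ) ≤ sE κ t := by
  have hκ0 : 0 < κ := hD.1
  exact v5_V0 hD 0.9 1 (-0.4902) (-0.3766) 0.4903 0.5581 0.10175 0.16865 0.16865 0.55249 1.05693 0.2673 (by norm_num) hk1 hk2 (by norm_num) hta htb (by norm_num) (by norm_num) (by norm_num) ((cup1 1 hκ0.le hk2 (by norm_num)).trans (by norm_num))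
      (by norm_num) (by norm_num) (by norm_num) (by norm_num) (by norm_num) (by norm_num) (by norm_num) (by norm_num) (by norm_num) (by norm_num) (by norm_num) (by norm_num) (by norm_num)

private theorem B5Ho_K55 {β r t κ h : ℝ} (hβ : 0 < β) (hr : 10 ≤ r) (hκ : κ = β * r) (hk1 : 0.9 ≤ κ) (hk2 : κ ≤ 1)
    (hh : h = 2 * Real.pi / 5) (hh1 : 1.25663 ≤ h) (hh2 : h ≤ 1.25664) (hta : 0.7665 ≤ t + κ) (htb : t + κ ≤ 0.88)
    (hY : 0.7605 * Real.exp (r * sE κ (t - h)) ≤ ‖Xf β r h t 0‖) (hV : 1.05693 + 0.2673 * (t - h + κ) ≤ sE κ (t - h)) :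
    ‖Xf β r h t 2‖ ≤ 0.00757 * ‖Xf β r h t 0‖ := by
  rw [v5_X 2 1 (by push_cast; ring)]
  exact v5_cmp 0.6015 0.002443 0.00754 0.9259 0.00009528 0.000022 0.00757 hr (B5Ho_C50 (t := t + 1 * h) hβ hr hκ hk1 hk2 (by linarith only [hta, htb, hh1, hh2]) (by linarith only [hta, htb, hh1, hh2])) hY (by norm_num) (by norm_num) (by norm_num) (by norm_num) (by linarith only [hV, hta, htb, hh1, hh2]) (ex_un 6 0.0149 (by norm_num) (by norm_num) (by norm_num) (by norm_num)) (by norm_num) (by norm_num) (by linarith only [hV, hta, htb, hh1, hh2]) (ex_un 9 0.2589 (by norm_num) (by norm_num) (by norm_num) (by norm_num)) (by norm_num) (by norm_num)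

private theorem B5Ho_K56 {β r t κ h : ℝ} (hβ : 0 < β) (hr : 10 ≤ r) (hκ : κ = β * r) (hk1 : 0.9 ≤ κ) (hk2 : κ ≤ 1)
    (hh : h = 2 * Real.pi / 5) (hh1 : 1.25663 ≤ h) (hh2 : h ≤ 1.25664) (hta : 0.7665 ≤ t + κ) (htb : t + κ ≤ 0.88)
    (hY : 0.7605 * Real.exp (r * sE κ (t - h)) ≤ ‖Xf β r h t 0‖) (hV : 1.05693 + 0.2673 * (t - h + κ) ≤ sE κ (t - h)) :
    ‖Xf β r h t (-1)‖ ≤ 0.00204 * ‖Xf β r h t 0‖ := by
  rw [v5_X (-1) (-2) (by push_cast; ring)]
  exact v5_cmp 0.6665 0.001282 0.00165 0.8758 0.0001585 0.000381 0.00204 hr (B5Ho_C51 (t := t + (-2) * h) hβ hr hκ hk1 hk2 (by linarith only [hta, htb, hh1, hh2]) (by linarith only [hta, htb, hh1, hh2])) hY (by norm_num) (by norm_num) (by norm_num) (by norm_num) (by linarith only [hV, hta, htb, hh1, hh2]) (ex_un 6 0.6649 (by norm_num) (by norm_num) (by norm_num) (by norm_num)) (by norm_num) (by norm_num) (by linarith only [hV, hta, htb, hh1, hh2]) (ex_un 8 0.7579 (by norm_num) (by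 norm_num) (by norm_num) (by norm_num)) (by norm_num) (by norm_num)

private theorem B5Ho_K57 {β r t κ h : ℝ} (hβ : 0 < β) (hr : 10 ≤ r) (hκ : κ = β * r) (hk1 : 0.9 ≤ κ) (hk2 : κ ≤ 1)
    (hh : h = 2 * Real.pi / 5) (hh1 : 1.25663 ≤ h) (hh2 : h ≤ 1.25664) (hta : 0.7665 ≤ t + κ) (htb : t + κ ≤ 0.88)
    (hY : 0.7605 * Real.exp (r * sE κ (t - h)) ≤ ‖Xf β r h t 0‖) (hV : 1.05693 + 0.2673 * (t - h + κ) ≤ sE κ (t - h)) :
    ‖Xf β r h t (-2)‖ ≤ 0.000493 * ‖Xf β r h t 0‖ := by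
  rw [v5_Xm2 hh]
  exact v5_cmp0 0.8659 0.0001744 0.000493 hr (B5Ho_C52 (t := t + 2 * h) hβ hr hκ hk1 hk2 (by linarith only [hta, htb, hh1, hh2]) (by linarith only [hta, htb, hh1, hh2])) hY (by norm_num) (by norm_num) (by norm_num) (by linarith only [hV, hta, htb, hh1, hh2]) (ex_un 8 0.6589 (by norm_num) (by norm_num) (by norm_num) (by norm_num)) (by norm_num)

private theorem B5Ho_G58 {κ : ℝ} (hk1 : 0.9 ≤ κ) (hk2 : κ ≤ 1) : gG κ 0.31 ≤ 1.11012 ∧ 0.53793 ≤ Real.exp (-(κ * 0.31)) ^ 2 := by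
  refine ⟨gG_le 0.31 0.9 1 1.11012 0.75654 0.73345 1.32181 1.36343 hk1 hk2 (by norm_num)
    (ex_um 0.279 (by norm_num) (by norm_num) (by norm_num) (by norm_num)) (ex_um 0.31 (by norm_num) (by norm_num) (by norm_num) (by norm_num))
    (ex_up 0.279 (by norm_num) (by norm_num) (by norm_num) (by norm_num)) (ex_up 0.31 (by norm_num) (by norm_num) (by norm_num) (by norm_num))
    (by norm_num) (by norm_num), ?_⟩
  exact v5_M 0.73344 (ex_lm 0.31 (by linarith) (by norm_num) (by norm_num) (by norm_num) (by norm_num)) (by norm_num) (by norm_num)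

private theorem B5Ho_B59 {κ t : ℝ} (h : DomR κ t) (hk1 : 0.9 ≤ κ) (hk2 : κ ≤ 1) (ht1 : 0.7664 ≤ t + κ) (ht2 : t + κ ≤ 0.8801) :
    (0.297 ≤ sy κ t ∧ sy κ t ≤ 0.343) ∧ (0.5386 ≤ sx κ t ∧ sx κ t ≤ 0.6812) ∧ κ * Real.exp (-sy κ t) ≤ 0.7431 ∧ 2.0412 ≤ sD κ t ∧ sD κ t ≤ 2.1896 := by
  have hy1 : 0.297 ≤ sy κ t := syR_ge h 0.9 1 0.7664 0.297 1.34581 1.34582 0.3997 0.44413 hk1 hk2 (by linarith) (by norm_num) (by norm_num)
    (expn_ge (by norm_num) (by norm_num)) (expn_le (by norm_num) (by norm_num) (by norm_num)) (by norm_num)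
    (by norm_num) (by norm_num) (by norm_num) (by norm_num) (by norm_num) (by norm_num)
  have hy2 : sy κ t ≤ 0.343 := syR_le h 0.9 1 0.8801 0.343 1.40916 0.4788 0.48334 0.53706 hk1 hk2 (by linarith) (by norm_num) (by norm_num)
    (expn_ge (by norm_num) (by norm_num)) (by norm_num) (by norm_num) (Or.inr ((mul_le_mul_of_nonneg_left (expn_le (E := 1.40917) (by norm_num) (by norm_num) (by norm_num)) (by norm_num)).trans (by norm_num))) (by norm_num) (by norm_num) (by norm_num)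
  have hy1' : 0.297 ≤ sy κ t := by linarith
  have hy2' : sy κ t ≤ 0.343 := by linarith
  have hx1 : 0.5386 ≤ sx κ t := sx_lo h 0.9 0.343 0.3431 0.70963 0.5386 hk1 (by norm_num) hy2' (abs_le.2 ⟨by linarith, by linarith⟩) (ex_lm 0.343 (by norm_num) (by norm_num) (by norm_num) (by norm_num) (by norm_num)) (by norm_num) (by norm_num)
  have hx2 : sx κ t ≤ 0.6812 := sx_hi h 1 0.297 0.297 0.74305 0.6812 hk2 hy1' (by norm_num) (le_trans (by linarith) (le_abs_self _)) (ex_um 0.297 (by norm_num) (by norm_num) (by norm_num) (by norm_num)) (by norm_num) (by norm_num)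
  refine ⟨⟨hy1', hy2'⟩, ⟨hx1, hx2⟩, v5_n h 1 0.297 0.74305 0.7431 hk2 hy1' (ex_um 0.297 (by norm_num) (by norm_num) (by norm_num) (by norm_num)) (by norm_num), ?_, ?_⟩
  · exact v5_Dlo h 0.9 0.297 0.343 0.297 0.74304 2.0412 (by norm_num) hk1 hy1' hy2' (ex_lm 0.297 (by norm_num) (by norm_num) (by norm_num) (by norm_num) (by norm_num)) (by norm_num) (by norm_num) (by norm_num) (by norm_num)
  · exact v5_Dup h 1 0.297 0.343 0.74305 0.70964 2.1896 hk2 hy1' hy2' (ex_um 0.297 (by norm_num) (by norm_num) (by norm_num) (by norm_num)) (ex_um 0.343 (by norm_num) (by norm_num) (by norm_num) (by norm_num)) (by norm_num) (by norm_num) (by norm_num)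

private theorem B5Ho_T60_0_0 {β x y : ℝ} (hβ : 0 < β) (hN : β * 9.999 ≤ 1) (hx1 : 0.5385 ≤ x) (hx2 : x ≤ 0.576)
    (hy1 : -0 ≤ y) (hy2 : y ≤ 0.3431) : ‖HH β (x + y * I) - 1‖ ≤ 0.05 := by
  refine le_epsJ (C := 0.499) (N0 := 9.999) (J_boxp 0.5385 0.576 0 0.3431 0.3431 1.0892 0.6705 1.4615 1.0636 0.4823 3.1622 9.999 0.6156 2.235 1.316 1.1985 0.5445 0.4328 1.1926 3.7455 0.5815 1.2106 1.1761 2.3497 0.004323 0.01321 0.000006647 0.0000003101 0.002991 0.000005538 0.000007828 0.0000003101 0.499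
    hβ hN hx1 hx2 hy1 hy2 (by norm_num) (by norm_num) (by linarith) (by norm_num) (by norm_num) (by norm_num) (by norm_num) (by norm_num) (by norm_num) (by norm_num) (by norm_num) (by norm_num) (by norm_num) (by norm_num) (by norm_num) (by norm_num) (by norm_num) (by norm_num) (by norm_num) (by norm_num) (by norm_num) (by norm_num) (by norm_num) (by norm_num)
    (cube_sqrt_geJ (s := 0.8915) (by norm_num) (by norm_num) (by norm_num) (by norm_num))
    (cube_sqrt_geJ (s := 0.9615) (by norm_num) (by norm_num) (by norm_num) (by norm_num))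
    (by norm_num) (by norm_num) (by norm_num) (by norm_num) (by norm_num) (by norm_num) (by norm_num) (by norm_num) (by norm_num) (by norm_num) (by norm_num) (by norm_num) (by norm_num) (by norm_num) (by norm_num) (by norm_num) (by norm_num) (by norm_num)
    (exp_neg_leJ (r := 0.444) 5 (by norm_num) (by norm_num) (by norm_num) (by norm_num))
    (exp_neg_leJ (r := 0.327) 4 (by norm_num) (by norm_num) (by norm_num) (by norm_num))
    (exp_neg_leJ (r := 0.924) 11 (by norm_num) (by norm_num) (by norm_num) (by norm_num))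
    (exp_neg_leJ (r := 0.99) 14 (by norm_num) (by norm_num) (by norm_num) (by norm_num))
    (exp_neg_leJ (r := 0.814) 5 (by norm_num) (by norm_num) (by norm_num) (by norm_num))
    (exp_neg_leJ (r := 0.104) 12 (by norm_num) (by norm_num) (by norm_num) (by norm_num))
    (exp_neg_leJ (r := 0.759) 11 (by norm_num) (by norm_num) (by norm_num) (by norm_num))
    (exp_neg_leJ (r := 0.99) 14 (by norm_num) (by norm_num) (by norm_num) (by norm_num))
    (by norm_num)) (by norm_num) hN hβ.le (by norm_num)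

private theorem B5Ho_T60_0_1 {β x y : ℝ} (hβ : 0 < β) (hN : β * 9.999 ≤ 1) (hx1 : 0.576 ≤ x) (hx2 : x ≤ 0.624)
    (hy1 : -0 ≤ y) (hy2 : y ≤ 0.3431) : ‖HH β (x + y * I) - 1‖ ≤ 0.05 := by
  refine le_epsJ (C := 0.4999) (N0 := 9.999) (J_boxp 0.576 0.624 0 0.3431 0.3431 1.1156 0.7122 1.481 1.0328 0.4855 3.1622 9.999 0.6385 2.311 1.33 1.1801 0.5577 0.439 1.2054 3.7194 0.5998 1.2625 1.2511 2.3114 0.003789 0.01242 0.000005833 0.0000003101 0.002513 0.000003297 0.000003694 0.0000003101 0.4999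
    hβ hN hx1 hx2 hy1 hy2 (by norm_num) (by norm_num) (by linarith) (by norm_num) (by norm_num) (by norm_num) (by norm_num) (by norm_num) (by norm_num) (by norm_num) (by norm_num) (by norm_num) (by norm_num) (by norm_num) (by norm_num) (by norm_num) (by norm_num) (by norm_num) (by norm_num) (by norm_num) (by norm_num) (by norm_num) (by norm_num) (by norm_num)
    (cube_sqrt_geJ (s := 0.8872) (by norm_num) (by norm_num) (by norm_num) (by norm_num))
    (cube_sqrt_geJ (s := 0.9601) (by norm_num) (by norm_num) (by norm_num) (by norm_num))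
    (by norm_num) (by norm_num) (by norm_num) (by norm_num) (by norm_num) (by norm_num) (by norm_num) (by norm_num) (by norm_num) (by norm_num) (by norm_num) (by norm_num) (by norm_num) (by norm_num) (by norm_num) (by norm_num) (by norm_num) (by norm_num)
    (exp_neg_leJ (r := 0.576) 5 (by norm_num) (by norm_num) (by norm_num) (by norm_num))
    (exp_neg_leJ (r := 0.389) 4 (by norm_num) (by norm_num) (by norm_num) (by norm_num))
    (exp_neg_leJ (r := 0.052) 12 (by norm_num) (by norm_num) (by norm_num) (by norm_num))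
    (exp_neg_leJ (r := 0.99) 14 (by norm_num) (by norm_num) (by norm_num) (by norm_num))
    (exp_neg_leJ (r := 0.99) 5 (by norm_num) (by norm_num) (by norm_num) (by norm_num))
    (exp_neg_leJ (r := 0.623) 12 (by norm_num) (by norm_num) (by norm_num) (by norm_num))
    (exp_neg_leJ (r := 0.509) 12 (by norm_num) (by norm_num) (by norm_num) (by norm_num))
    (exp_neg_leJ (r := 0.99) 14 (by norm_num) (by norm_num) (by norm_num) (by norm_num))
    (by norm_num)) (by norm_num) hN hβ.le (by norm_num)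

private theorem B5Ho_T60_0_2 {β x y : ℝ} (hβ : 0 < β) (hN : β * 9.999 ≤ 1) (hx1 : 0.624 ≤ x) (hx2 : x ≤ 0.6813)
    (hy1 : -0 ≤ y) (hy2 : y ≤ 0.3431) : ‖HH β (x + y * I) - 1‖ ≤ 0.05 := by
  refine le_epsJ (C := 0.4984) (N0 := 9.999) (J_boxp 0.624 0.6813 0 0.3431 0.3431 1.1494 0.7629 1.5061 0.996 0.4896 3.1622 9.999 0.6638 2.4 1.346 1.158 0.5746 0.4475 1.2218 3.6881 0.6231 1.329 1.3471 2.2695 0.003203 0.01141 0.000004951 0.0000003101 0.00197 0.000001695 0.000001415 0.0000003101 0.4984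
    hβ hN hx1 hx2 hy1 hy2 (by norm_num) (by norm_num) (by linarith) (by norm_num) (by norm_num) (by norm_num) (by norm_num) (by norm_num) (by norm_num) (by norm_num) (by norm_num) (by norm_num) (by norm_num) (by norm_num) (by norm_num) (by norm_num) (by norm_num) (by norm_num) (by norm_num) (by norm_num) (by norm_num) (by norm_num) (by norm_num) (by norm_num)
    (cube_sqrt_geJ (s := 0.8824) (by norm_num) (by norm_num) (by norm_num) (by norm_num))
    (cube_sqrt_geJ (s := 0.9585) (by norm_num) (by norm_num) (by norm_num) (by norm_num))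
    (by norm_num) (by norm_num) (by norm_num) (by norm_num) (by norm_num) (by norm_num) (by norm_num) (by norm_num) (by norm_num) (by norm_num) (by norm_num) (by norm_num) (by norm_num) (by norm_num) (by norm_num) (by norm_num) (by norm_num) (by norm_num)
    (exp_neg_leJ (r := 0.745) 5 (by norm_num) (by norm_num) (by norm_num) (by norm_num))
    (exp_neg_leJ (r := 0.474) 4 (by norm_num) (by norm_num) (by norm_num) (by norm_num))
    (exp_neg_leJ (r := 0.216) 12 (by norm_num) (by norm_num) (by norm_num) (by norm_num))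
    (exp_neg_leJ (r := 0.99) 14 (by norm_num) (by norm_num) (by norm_num) (by norm_num))
    (exp_neg_leJ (r := 0.23) 6 (by norm_num) (by norm_num) (by norm_num) (by norm_num))
    (exp_neg_leJ (r := 0.288) 13 (by norm_num) (by norm_num) (by norm_num) (by norm_num))
    (exp_neg_leJ (r := 0.469) 13 (by norm_num) (by norm_num) (by norm_num) (by norm_num))
    (exp_neg_leJ (r := 0.99) 14 (by norm_num) (by norm_num) (by norm_num) (by norm_num))
    (by norm_num)) (by norm_num) hN hβ.le (by norm_num)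

private theorem B5Ho_T60 {β x y : ℝ} (hβ : 0 < β) (hN : β * 9.999 ≤ 1) (hx1 : 0.5385 ≤ x) (hx2 : x ≤ 0.6813)
    (hy1 : 0.2969 ≤ y) (hy2 : y ≤ 0.3431) : ‖HH β (x + y * I) - 1‖ ≤ 0.05 := by
  rcases le_total x 0.576 with hxx | hxx
  · exact B5Ho_T60_0_0 hβ hN (by linarith) (by linarith) (by linarith) (by linarith)
  rcases le_total x 0.624 with hxx | hxx
  · exact B5Ho_T60_0_1 hβ hN (by linarith) (by linarith) (by linarith) (by linarith)
  exact B5Ho_T60_0_2 hβ hN (by linarith) (by linarith) (by linarith) (by linarith)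

private theorem B5Ho_U61 {β r t κ h t' : ℝ} (hβ : 0 < β) (hκ : κ = β * r) (hN : β * 9.999 ≤ 1) (hk1 : 0.9 ≤ κ) (hk2 : κ ≤ 1)
    (ht : t' = t + (((1 : ℤ) : ℝ) - 1) * h) (hD : DomR κ t') (hta : 0.7664 ≤ t' + κ) (htb : t' + κ ≤ 0.8801) :
    ‖Xf β r h t 1‖ ≤ 0.8785 * Real.exp (r * sE κ t') := by
  obtain ⟨⟨ya, yb⟩, ⟨xa, xb⟩, n1, Da, Db⟩ := B5Ho_B59 hD hk1 hk2 hta htb
  have J := B5Ho_T60 (x := sx κ t') (y := sy κ t') hβ hN (by linarith only [xa, xb, ya, yb]) (by linarith only [xa, xb, ya, yb]) (by linarith only [xa, xb, ya, yb]) (by linarith only [xa, xb, ya, yb])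
  exact v5_Jup (h := h) (t := t) (k := 1) hβ hκ ht hD 0.05 2.0412 0.8785 J Da (by norm_num) (by norm_num)

private theorem B5Ho_K62 {β r t κ h : ℝ} (hβ : 0 < β) (hr : 10 ≤ r) (hκ : κ = β * r) (hk1 : 0.9 ≤ κ) (hk2 : κ ≤ 1)
    (hh : h = 2 * Real.pi / 5) (hh1 : 1.25663 ≤ h) (hh2 : h ≤ 1.25664) (hta : 0.7665 ≤ t + κ) (htb : t + κ ≤ 0.88) (hN : β * 9.999 ≤ 1)
    (hD : DomR κ t) (hY : 0.7605 * Real.exp (r * sE κ (t - h)) ≤ ‖Xf β r h t 0‖) (hV : 1.05693 + 0.2673 * (t - h + κ) ≤ sE κ (t - h)) :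
    ‖Xf β r h t 1‖ ≤ 0.679 * ‖Xf β r h t 0‖ := by
  have hU := B5Ho_U61 (h := h) (t := t) hβ hκ hN hk1 hk2 (by push_cast; ring) hD (by linarith only [hta, htb, hh1, hh2]) (by linarith only [hta, htb, hh1, hh2])
  have hW := V_up hD 0.31 (B5Ho_G58 hk1 hk2).1
  exact v5_cmpJ 0.0534 0.5877 0.679 hr hU hW hY (by norm_num) (by norm_num) (by norm_num) (by linarith only [hV, hta, htb, hh1, hh2]) (ex_un 0 0.5339 (by norm_num) (by norm_num) (by norm_num) (by norm_num)) (by norm_num)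

private theorem B5Ho_O63 {β r t κ h : ℝ} (hβ : 0 < β) (hr : 10 ≤ r) (hκ : κ = β * r) (hk1 : 0.9 ≤ κ) (hk2 : κ ≤ 1)
    (hh : h = 2 * Real.pi / 5) (hta : 0.7665 ≤ t + κ) (htb : t + κ ≤ 0.88) :
    ‖Xf β r h t (-2)‖ + ‖Xf β r h t (-1)‖ + ‖Xf β r h t 2‖ < |‖Xf β r h t 1‖ - ‖Xf β r h t 0‖| := by
  obtain ⟨hh1, hh2⟩ := v5_h hh
  have hκ0 : 0 < κ := by linarith only [hk1]
  have hN : β * 9.999 ≤ 1 := v5_hN 1 9.999 hβ hr hκ hk2 (by norm_num) (by norm_num)
  have hD1 : DomR κ t := v5_dom hκ0 (by linarith only [hta, htb, hk1, hk2, hh1, hh2]) (Or.inr (by linarith only [hta, htb, hk1, hk2, hh1, hh2]))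
  have hD0 : DomR κ (t - h) := v5_dom hκ0 (by linarith only [hta, htb, hk1, hk2, hh1, hh2]) (Or.inr (by linarith only [hta, htb, hk1, hk2, hh1, hh2]))
  have h0a : (-0.4902) ≤ t - h + κ := by linarith only [hta, htb, hh1, hh2]
  have h0b : t - h + κ ≤ (-0.3766) := by linarith only [hta, htb, hh1, hh2]
  have e0 : t - h = t + (((0 : ℤ) : ℝ) - 1) * h := by push_cast; ring
  have hY := B5Ho_Y53 (h := h) hβ hκ hN hk1 hk2 e0 hD0 h0a h0b
  have hV := B5Ho_V54 hD0 hk1 hk2 h0a h0b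
  have cp2 := B5Ho_K55 hβ hr hκ hk1 hk2 hh hh1 hh2 hta htb hY hV
  have cm1 := B5Ho_K56 hβ hr hκ hk1 hk2 hh hh1 hh2 hta htb hY hV
  have cm2 := B5Ho_K57 hβ hr hκ hk1 hk2 hh hh1 hh2 hta htb hY hV
  have cn1 := B5Ho_K62 hβ hr hκ hk1 hk2 hh hh1 hh2 hta htb hN hD1 hY hV
  have hp : 0 < ‖Xf β r h t 0‖ := lt_of_lt_of_le (by positivity) hY
  exact v5_out0 _ _ _ _ cm2 cm1 cp2 cn1 hp (by norm_num)

private theorem B5Ho_B64 {κ t : ℝ} (h : DomR κ t) (hk1 : 0.9 ≤ κ) (hk2 : κ ≤ 1) (ht1 : (-0.3767) ≤ t + κ) (ht2 : t + κ ≤ (-0.1886)) :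
    ((-0.208) ≤ sy κ t ∧ sy κ t ≤ (-0.098)) ∧ (0.9706 ≤ sx κ t ∧ sx κ t ≤ 1.2274) ∧ κ * Real.exp (-sy κ t) ≤ 1.2313 ∧ 1.7891 ≤ sD κ t ∧ sD κ t ≤ 2.1 := by
  have hy1 : -0.208 ≤ sy κ t := syL_ge h 0.9 1 0.3767 0.208 0.8122 0.81221 0.1798 0.16893 0.18772 hk1 hk2 (by linarith) (by norm_num) (by norm_num) (by norm_num)
    (expm_ge (by norm_num) (by norm_num) (by norm_num) (by norm_num)) (expm_le (by norm_num) (by norm_num) (by norm_num)) (by norm_num)
    (by norm_num) (by norm_num) (by norm_num) (by norm_num) (by norm_num) (by norm_num)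
  have hy2 : sy κ t ≤ -0.098 := syL_le h 0.9 1 0.1886 0.098 0.90664 0.90665 0.08885 0.09873 hk1 hk2 (by linarith) (by norm_num) (by norm_num) (by norm_num)
    (expm_ge (by norm_num) (by norm_num) (by norm_num) (by norm_num)) (expm_le (by norm_num) (by norm_num) (by norm_num)) (by norm_num)
    (by norm_num) (by norm_num) (by norm_num) (by norm_num) (by norm_num) (by norm_num)
  have hy1' : (-0.208) ≤ sy κ t := by linarith
  have hy2' : sy κ t ≤ (-0.098) := by linarith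
  have hx1 : 0.9706 ≤ sx κ t := sx_lo h 0.9 (-0.098) 0.2081 1.10296 0.9706 hk1 (by norm_num) hy2' (abs_le.2 ⟨by linarith, by linarith⟩) (ex_lp 0.098 (by norm_num) (by norm_num) (by norm_num)) (by norm_num) (by norm_num)
  have hx2 : sx κ t ≤ 1.2274 := sx_hi h 1 (-0.208) 0.098 1.23122 1.2274 hk2 hy1' (by norm_num) (le_trans (by linarith) (neg_le_abs _)) (ex_up 0.208 (by norm_num) (by norm_num) (by norm_num) (by norm_num)) (by norm_num) (by norm_num)
  refine ⟨⟨hy1', hy2'⟩, ⟨hx1, hx2⟩, v5_n h 1 (-0.208) 1.23122 1.2313 hk2 hy1' (ex_up 0.208 (by norm_num) (by norm_num) (by norm_num) (by norm_num)) (by norm_num), ?_, ?_⟩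
  · exact v5_Dlo h 0.9 (-0.208) (-0.098) (-0.109) 1.11516 1.7891 (by norm_num) hk1 hy1' hy2' (ex_lp 0.109 (by norm_num) (by norm_num) (by norm_num)) (by norm_num) (by norm_num) (by norm_num) (by norm_num)
  · exact v5_Dup h 1 (-0.208) (-0.098) 1.23122 1.10297 2.1 hk2 hy1' hy2' (ex_up 0.208 (by norm_num) (by norm_num) (by norm_num) (by norm_num)) (ex_up 0.098 (by norm_num) (by norm_num) (by norm_num) (by norm_num)) (by norm_num) (by norm_num) (by norm_num)

private theorem B5Ho_T65_0_0 {β x y : ℝ} (hβ : 0 < β) (hN : β * 9.999 ≤ 1) (hx1 : 0.9705 ≤ x) (hx2 : x ≤ 1.038)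
    (hy1 : -0.2081 ≤ y) (hy2 : y ≤ -0.0979) : ‖HH β (x + y * I) - 1‖ ≤ 0.065 := by
  refine le_epsJ (C := 0.6498) (N0 := 9.999) (J_boxp 0.9705 1.038 0.2081 0 (-0.0979) 1.2456 1.0587 1.3753 0.8436 0.4679 3.1622 9.999 0.85 3.21 1.47 0.8287 0.6227 0.4463 1.012 2.8452 0.7127 1.8437 2.946 3.7752 0.001978 0.01155 0.00004035 0.0000003101 0.000804 0.0000003101 0.0000003101 0.0000003101 0.6498
    hβ hN hx1 hx2 hy1 hy2 (by norm_num) (by norm_num) (by linarith) (by norm_num) (by norm_num) (by norm_num) (by norm_num) (by norm_num) (by norm_num) (by norm_num) (by norm_num) (by norm_num) (by norm_num) (by norm_num) (by norm_num) (by norm_num) (by norm_num) (by norm_num) (by norm_num) (by norm_num) (by norm_num) (by norm_num) (by norm_num) (by norm_num)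
    (cube_sqrt_geJ (s := 0.8465) (by norm_num) (by norm_num) (by norm_num) (by norm_num))
    (cube_sqrt_geJ (s := 0.9465) (by norm_num) (by norm_num) (by norm_num) (by norm_num))
    (by norm_num) (by norm_num) (by norm_num) (by norm_num) (by norm_num) (by norm_num) (by norm_num) (by norm_num) (by norm_num) (by norm_num) (by norm_num) (by norm_num) (by norm_num) (by norm_num) (by norm_num) (by norm_num) (by norm_num) (by norm_num)
    (exp_neg_leJ (r := 0.226) 6 (by norm_num) (by norm_num) (by norm_num) (by norm_num))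
    (exp_neg_leJ (r := 0.462) 4 (by norm_num) (by norm_num) (by norm_num) (by norm_num))
    (exp_neg_leJ (r := 0.118) 10 (by norm_num) (by norm_num) (by norm_num) (by norm_num))
    (exp_neg_leJ (r := 0.99) 14 (by norm_num) (by norm_num) (by norm_num) (by norm_num))
    (exp_neg_leJ (r := 0.126) 7 (by norm_num) (by norm_num) (by norm_num) (by norm_num))
    (exp_neg_leJ (r := 0.99) 14 (by norm_num) (by norm_num) (by norm_num) (by norm_num))
    (exp_neg_leJ (r := 0.99) 14 (by norm_num) (by norm_num) (by norm_num) (by norm_num))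
    (exp_neg_leJ (r := 0.99) 14 (by norm_num) (by norm_num) (by norm_num) (by norm_num))
    (by norm_num)) (by norm_num) hN hβ.le (by norm_num)

private theorem B5Ho_T65_0_1 {β x y : ℝ} (hβ : 0 < β) (hN : β * 9.999 ≤ 1) (hx1 : 1.038 ≤ x) (hx2 : x ≤ 1.108)
    (hy1 : -0.2081 ≤ y) (hy2 : y ≤ -0.0979) : ‖HH β (x + y * I) - 1‖ ≤ 0.065 := by
  refine le_epsJ (C := 0.6487) (N0 := 9.999) (J_boxp 1.038 1.108 0.2081 0 (-0.0979) 1.2931 1.1274 1.4288 0.813 0.4769 3.1622 9.999 0.8719 3.327 1.485 0.8018 0.6465 0.4586 1.0351 2.8051 0.7455 1.9372 3.081 3.7234 0.001559 0.01021 0.00003203 0.0000003101 0.0005792 0.0000003101 0.0000003101 0.0000003101 0.6487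
    hβ hN hx1 hx2 hy1 hy2 (by norm_num) (by norm_num) (by linarith) (by norm_num) (by norm_num) (by norm_num) (by norm_num) (by norm_num) (by norm_num) (by norm_num) (by norm_num) (by norm_num) (by norm_num) (by norm_num) (by norm_num) (by norm_num) (by norm_num) (by norm_num) (by norm_num) (by norm_num) (by norm_num) (by norm_num) (by norm_num) (by norm_num)
    (cube_sqrt_geJ (s := 0.8422) (by norm_num) (by norm_num) (by norm_num) (by norm_num))
    (cube_sqrt_geJ (s := 0.9451) (by norm_num) (by norm_num) (by norm_num) (by norm_num))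
    (by norm_num) (by norm_num) (by norm_num) (by norm_num) (by norm_num) (by norm_num) (by norm_num) (by norm_num) (by norm_num) (by norm_num) (by norm_num) (by norm_num) (by norm_num) (by norm_num) (by norm_num) (by norm_num) (by norm_num) (by norm_num)
    (exp_neg_leJ (r := 0.464) 6 (by norm_num) (by norm_num) (by norm_num) (by norm_num))
    (exp_neg_leJ (r := 0.585) 4 (by norm_num) (by norm_num) (by norm_num) (by norm_num))
    (exp_neg_leJ (r := 0.349) 10 (by norm_num) (by norm_num) (by norm_num) (by norm_num))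
    (exp_neg_leJ (r := 0.99) 14 (by norm_num) (by norm_num) (by norm_num) (by norm_num))
    (exp_neg_leJ (r := 0.454) 7 (by norm_num) (by norm_num) (by norm_num) (by norm_num))
    (exp_neg_leJ (r := 0.99) 14 (by norm_num) (by norm_num) (by norm_num) (by norm_num))
    (exp_neg_leJ (r := 0.99) 14 (by norm_num) (by norm_num) (by norm_num) (by norm_num))
    (exp_neg_leJ (r := 0.99) 14 (by norm_num) (by norm_num) (by norm_num) (by norm_num))
    (by norm_num)) (by norm_num) hN hβ.le (by norm_num)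

private theorem B5Ho_T65_0_2 {β x y : ℝ} (hβ : 0 < β) (hN : β * 9.999 ≤ 1) (hx1 : 1.108 ≤ x) (hx2 : x ≤ 1.181)
    (hy1 : -0.2081 ≤ y) (hy2 : y ≤ -0.0979) : ‖HH β (x + y * I) - 1‖ ≤ 0.065 := by
  refine le_epsJ (C := 0.6491) (N0 := 9.999) (J_boxp 1.108 1.181 0.2081 0 (-0.0979) 1.3424 1.1992 1.4862 0.7839 0.4864 3.1622 9.999 0.8934 3.447 1.501 0.7737 0.6711 0.4713 1.059 2.7632 0.7795 2.0341 3.221 3.6683 0.00122 0.008995 0.00002523 0.0000003101 0.0004128 0.0000003101 0.0000003101 0.0000003101 0.6491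
    hβ hN hx1 hx2 hy1 hy2 (by norm_num) (by norm_num) (by linarith) (by norm_num) (by norm_num) (by norm_num) (by norm_num) (by norm_num) (by norm_num) (by norm_num) (by norm_num) (by norm_num) (by norm_num) (by norm_num) (by norm_num) (by norm_num) (by norm_num) (by norm_num) (by norm_num) (by norm_num) (by norm_num) (by norm_num) (by norm_num) (by norm_num)
    (cube_sqrt_geJ (s := 0.8379) (by norm_num) (by norm_num) (by norm_num) (by norm_num))
    (cube_sqrt_geJ (s := 0.9437) (by norm_num) (by norm_num) (by norm_num) (by norm_num))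
    (by norm_num) (by norm_num) (by norm_num) (by norm_num) (by norm_num) (by norm_num) (by norm_num) (by norm_num) (by norm_num) (by norm_num) (by norm_num) (by norm_num) (by norm_num) (by norm_num) (by norm_num) (by norm_num) (by norm_num) (by norm_num)
    (exp_neg_leJ (r := 0.71) 6 (by norm_num) (by norm_num) (by norm_num) (by norm_num))
    (exp_neg_leJ (r := 0.712) 4 (by norm_num) (by norm_num) (by norm_num) (by norm_num))
    (exp_neg_leJ (r := 0.588) 10 (by norm_num) (by norm_num) (by norm_num) (by norm_num))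
    (exp_neg_leJ (r := 0.99) 14 (by norm_num) (by norm_num) (by norm_num) (by norm_num))
    (exp_neg_leJ (r := 0.794) 7 (by norm_num) (by norm_num) (by norm_num) (by norm_num))
    (exp_neg_leJ (r := 0.99) 14 (by norm_num) (by norm_num) (by norm_num) (by norm_num))
    (exp_neg_leJ (r := 0.99) 14 (by norm_num) (by norm_num) (by norm_num) (by norm_num))
    (exp_neg_leJ (r := 0.99) 14 (by norm_num) (by norm_num) (by norm_num) (by norm_num))
    (by norm_num)) (by norm_num) hN hβ.le (by norm_num)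

private theorem B5Ho_T65_0_3 {β x y : ℝ} (hβ : 0 < β) (hN : β * 9.999 ≤ 1) (hx1 : 1.181 ≤ x) (hx2 : x ≤ 1.2275)
    (hy1 : -0.2081 ≤ y) (hy2 : y ≤ -0.0979) : ‖HH β (x + y * I) - 1‖ ≤ 0.065 := by
  refine le_epsJ (C := 0.6088) (N0 := 9.999) (J_boxp 1.181 1.2275 0.2081 0 (-0.0979) 1.3938 1.2451 1.5234 0.7501 0.4924 3.1622 9.999 0.8934 3.447 1.501 0.7559 0.6968 0.4893 1.084 2.7365 0.8149 2.1352 3.367 3.6895 0.0009455 0.007524 0.00001968 0.0000003101 0.0002894 0.0000003101 0.0000003101 0.0000003101 0.6088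
    hβ hN hx1 hx2 hy1 hy2 (by norm_num) (by norm_num) (by linarith) (by norm_num) (by norm_num) (by norm_num) (by norm_num) (by norm_num) (by norm_num) (by norm_num) (by norm_num) (by norm_num) (by norm_num) (by norm_num) (by norm_num) (by norm_num) (by norm_num) (by norm_num) (by norm_num) (by norm_num) (by norm_num) (by norm_num) (by norm_num) (by norm_num)
    (cube_sqrt_geJ (s := 0.8379) (by norm_num) (by norm_num) (by norm_num) (by norm_num))
    (cube_sqrt_geJ (s := 0.9437) (by norm_num) (by norm_num) (by norm_num) (by norm_num))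
    (by norm_num) (by norm_num) (by norm_num) (by norm_num) (by norm_num) (by norm_num) (by norm_num) (by norm_num) (by norm_num) (by norm_num) (by norm_num) (by norm_num) (by norm_num) (by norm_num) (by norm_num) (by norm_num) (by norm_num) (by norm_num)
    (exp_neg_leJ (r := 0.967) 6 (by norm_num) (by norm_num) (by norm_num) (by norm_num))
    (exp_neg_leJ (r := 0.892) 4 (by norm_num) (by norm_num) (by norm_num) (by norm_num))
    (exp_neg_leJ (r := 0.838) 10 (by norm_num) (by norm_num) (by norm_num) (by norm_num))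
    (exp_neg_leJ (r := 0.99) 14 (by norm_num) (by norm_num) (by norm_num) (by norm_num))
    (exp_neg_leJ (r := 0.148) 8 (by norm_num) (by norm_num) (by norm_num) (by norm_num))
    (exp_neg_leJ (r := 0.99) 14 (by norm_num) (by norm_num) (by norm_num) (by norm_num))
    (exp_neg_leJ (r := 0.99) 14 (by norm_num) (by norm_num) (by norm_num) (by norm_num))
    (exp_neg_leJ (r := 0.99) 14 (by norm_num) (by norm_num) (by norm_num) (by norm_num))
    (by norm_num)) (by norm_num) hN hβ.le (by norm_num)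

private theorem B5Ho_T65 {β x y : ℝ} (hβ : 0 < β) (hN : β * 9.999 ≤ 1) (hx1 : 0.9705 ≤ x) (hx2 : x ≤ 1.2275)
    (hy1 : (-0.2081) ≤ y) (hy2 : y ≤ (-0.0979)) : ‖HH β (x + y * I) - 1‖ ≤ 0.065 := by
  rcases le_total x 1.038 with hxx | hxx
  · exact B5Ho_T65_0_0 hβ hN (by linarith) (by linarith) (by linarith) (by linarith)
  rcases le_total x 1.108 with hxx | hxx
  · exact B5Ho_T65_0_1 hβ hN (by linarith) (by linarith) (by linarith) (by linarith)
  rcases le_total x 1.181 with hxx | hxx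
  · exact B5Ho_T65_0_2 hβ hN (by linarith) (by linarith) (by linarith) (by linarith)
  exact B5Ho_T65_0_3 hβ hN (by linarith) (by linarith) (by linarith) (by linarith)

private theorem B5Ho_G66 {κ : ℝ} (hk1 : 0.9 ≤ κ) (hk2 : κ ≤ 1) : gG κ 0.5 ≤ 1.33224 ∧ 0.36787 ≤ Real.exp (-(κ * 0.5)) ^ 2 := by
  refine ⟨gG_le 0.5 0.9 1 1.33224 0.63763 0.60654 1.56832 1.64873 hk1 hk2 (by norm_num)
    (ex_um 0.45 (by norm_num) (by norm_num) (by norm_num) (by norm_num)) (ex_um 0.5 (by norm_num) (by norm_num) (by norm_num) (by norm_num))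
    (ex_up 0.45 (by norm_num) (by norm_num) (by norm_num) (by norm_num)) (ex_up 0.5 (by norm_num) (by norm_num) (by norm_num) (by norm_num))
    (by norm_num) (by norm_num), ?_⟩
  exact v5_M 0.60653 (ex_lm 0.5 (by linarith) (by norm_num) (by norm_num) (by norm_num) (by norm_num)) (by norm_num) (by norm_num)

private theorem B5Ho_C67 {β r t κ : ℝ} (hβ : 0 < β) (hr : 10 ≤ r) (hκ : κ = β * r) (hk1 : 0.9 ≤ κ) (hk2 : κ ≤ 1) (hta : 2.1366 ≤ t + κ)
    (htb : t + κ ≤ 2.3247) : ‖F (cexp (I * β)) (r * cexp (I * ((t + β / 2 : ℝ) : ℂ)))‖ ≤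
      2.7457 * Real.exp (r * (1.33224 - 0.5 * (t + κ))) + 0.1729 * Real.exp (r * 0) :=
  v5_H 0.5 0.9 1 2.1366 2.3247 1.33224 2.2033 0.36787 0.1262 2.7072 0.1459 0.04683 0.627 0.0000013 2.7457 0.1729 hβ hr hκ (by norm_num) hk1 hk2 hta htb (by norm_num) (B5Ho_G66 hk1 hk2).1 (B5Ho_G66 hk1 hk2).2 (by norm_num) (by norm_num) (by norm_num)
    (by norm_num) (by norm_num) (by norm_num) (by norm_num) (by norm_num) (by norm_num) (by norm_num) (by norm_num) (ex_un 0 0.4682 (by norm_num) (by norm_num) (by norm_num) (by norm_num))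
    (v5_hump 1.6689 9.999 3.1622 0.0000009316 0.0000013 hβ hr hκ hk1 hk2 (by norm_num) htb (by norm_num) (by norm_num) (by norm_num) (by norm_num) (by norm_num) (by norm_num) (by norm_num) (ex_un 13 0.9 (by norm_num) (by norm_num) (by norm_num) (by norm_num)) (by norm_num)) (by norm_num) (by norm_num)

private theorem B5Ho_C68 {β r t κ : ℝ} (hβ : 0 < β) (hr : 10 ≤ r) (hκ : κ = β * r) (hk1 : 0.9 ≤ κ) (hk2 : κ ≤ 1) (hta : (-1.6333) ≤ t + κ)
    (htb : t + κ ≤ (-1.4452)) : ‖F (cexp (I * β)) (r * cexp (I * ((t + β / 2 : ℝ) : ℂ)))‖ ≤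
      0.9741 * Real.exp (r * (1.44934 - (-0.71) * (t + κ))) + 1.8199 * Real.exp (r * 0.0501) :=
  v5_HU (-0.71) 0.9 1 (-1.6333) (-1.4452) 1.44934 0.9741 3.58939 0.1262 0.8067 2.0786 0 0.0501 0.0000013 1.8199 hβ hr hκ (by norm_num) hk1 hk2 hta htb (by norm_num) (by norm_num) (B5Ho_G5 hk1 hk2).1 (B5Ho_G5 hk1 hk2).2 (by norm_num) (by norm_num) (by norm_num)
    (by norm_num) (by norm_num) (by norm_num) (by norm_num) (by norm_num) (by norm_num) (by norm_num)
    (by norm_num) (by norm_num) (by norm_num) (v5_hump 5.4388 9.999 3.1622 0.0000009316 0.0000013 hβ hr hκ hk1 hk2 (by norm_num) htb (by norm_num) (by norm_num) (by norm_num) (by norm_num) (by norm_num) (by norm_num) (by norm_num) (ex_un 13 0.9 (by norm_num) (by norm_num) (by norm_num) (by norm_num)) (by norm_num)) (by norm_num)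

private theorem B5Ho_C69 {β r t κ : ℝ} (hβ : 0 < β) (hr : 10 ≤ r) (hκ : κ = β * r) (hk1 : 0.9 ≤ κ) (hk2 : κ ≤ 1) (hta : 3.3932 ≤ t + κ)
    (htb : t + κ ≤ 3.5813) : ‖F (cexp (I * β)) (r * cexp (I * ((t + β / 2 : ℝ) : ℂ)))‖ ≤
      2.1334 * Real.exp (r * (0.01 + 1 / 20)) :=
  v5_UD 0.9 1 3.3932 3.5813 0.01 0.4206 0.01 1.1122 2.1334 hβ hr hκ (by norm_num) hk1 hk2 hta htb (by norm_num) (by norm_num) (by norm_num) (by norm_num) (by norm_num) (by norm_num) (by norm_num) (by norm_num) (by norm_num) (by norm_num) (by norm_num)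

private theorem B5Ho_Y70 {β r t κ h t' : ℝ} (hβ : 0 < β) (hκ : κ = β * r) (hN : β * 9.999 ≤ 1) (hk1 : 0.9 ≤ κ) (hk2 : κ ≤ 1)
    (ht : t' = t + (((0 : ℤ) : ℝ) - 1) * h) (hD : DomR κ t') (hta : (-0.3767) ≤ t' + κ) (htb : t' + κ ≤ (-0.1886)) :
    0.7767 * Real.exp (r * sE κ t') ≤ ‖Xf β r h t 0‖ := by
  obtain ⟨⟨ya, yb⟩, ⟨xa, xb⟩, n1, Da, Db⟩ := B5Ho_B64 hD hk1 hk2 hta htb
  have J := B5Ho_T65 (x := sx κ t') (y := sy κ t') hβ hN (by linarith only [xa, xb, ya, yb]) (by linarith only [xa, xb, ya, yb]) (by linarith only [xa, xb, ya, yb]) (by linarith only [xa, xb, ya, yb])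
  exact v5_Jlo hβ hκ (k := 0) ht hD 0.065 2.1 0.7767 (by norm_num) J Db (by norm_num)

private theorem B5Ho_V71 {κ t : ℝ} (hD : DomR κ t) (hk1 : 0.9 ≤ κ) (hk2 : κ ≤ 1) (hta : (-0.3767) ≤ t + κ) (htb : t + κ ≤ (-0.1886)) :
    1.02131 + 0.1696 * (t + κ) ≤ sE κ t := by
  have hκ0 : 0 < κ := hD.1
  exact v5_V0 hD 0.9 1 (-0.3767) (-0.1886) 0.3768 0.543 0.10175 0.16865 0.16865 0.55249 1.02131 0.1696 (by norm_num) hk1 hk2 (by norm_num) hta htb (by norm_num) (by norm_num) (by norm_num) ((cup1 1 hκ0.le hk2 (by norm_num)).trans (by norm_num))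
      (by norm_num) (by norm_num) (by norm_num) (by norm_num) (by norm_num) (by norm_num) (by norm_num) (by norm_num) (by norm_num) (by norm_num) (by norm_num) (by norm_num) (by norm_num)

private theorem B5Ho_K72 {β r t κ h : ℝ} (hβ : 0 < β) (hr : 10 ≤ r) (hκ : κ = β * r) (hk1 : 0.9 ≤ κ) (hk2 : κ ≤ 1)
    (hh : h = 2 * Real.pi / 5) (hh1 : 1.25663 ≤ h) (hh2 : h ≤ 1.25664) (hta : 0.88 ≤ t + κ) (htb : t + κ ≤ 1.068)
    (hY : 0.7767 * Real.exp (r * sE κ (t - h)) ≤ ‖Xf β r h t 0‖) (hV : 1.02131 + 0.1696 * (t - h + κ) ≤ sE κ (t - h)) :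
    ‖Xf β r h t 2‖ ≤ 0.00352 * ‖Xf β r h t 0‖ := by
  rw [v5_X 2 1 (by push_cast; ring)]
  exact v5_cmp 0.6935 0.0009883 0.0035 0.9574 0.00006972 0.0000156 0.00352 hr (B5Ho_C67 (t := t + 1 * h) hβ hr hκ hk1 hk2 (by linarith only [hta, htb, hh1, hh2]) (by linarith only [hta, htb, hh1, hh2])) hY (by norm_num) (by norm_num) (by norm_num) (by norm_num) (by linarith only [hV, hta, htb, hh1, hh2]) (ex_un 6 0.9349 (by norm_num) (by norm_num) (by norm_num) (by norm_num)) (by norm_num) (by norm_num) (by linarith only [hV, hta, htb, hh1, hh2]) (ex_un 9 0.5739 (by norm_num) (by norm_num) (by norm_num) (by norm_num)) (by norm_num) (by norm_num)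

private theorem B5Ho_K73 {β r t κ h : ℝ} (hβ : 0 < β) (hr : 10 ≤ r) (hκ : κ = β * r) (hk1 : 0.9 ≤ κ) (hk2 : κ ≤ 1)
    (hh : h = 2 * Real.pi / 5) (hh1 : 1.25663 ≤ h) (hh2 : h ≤ 1.25664) (hta : 0.88 ≤ t + κ) (htb : t + κ ≤ 1.068)
    (hY : 0.7767 * Real.exp (r * sE κ (t - h)) ≤ ‖Xf β r h t 0‖) (hV : 1.02131 + 0.1696 * (t - h + κ) ≤ sE κ (t - h)) :
    ‖Xf β r h t (-1)‖ ≤ 0.00466 * ‖Xf β r h t 0‖ := by
  rw [v5_X (-1) (-2) (by push_cast; ring)]
  exact v5_cmp 0.5661 0.003496 0.00439 0.9073 0.0001148 0.000269 0.00466 hr (B5Ho_C68 (t := t + (-2) * h) hβ hr hκ hk1 hk2 (by linarith only [hta, htb, hh1, hh2]) (by linarith only [hta, htb, hh1, hh2])) hY (by norm_num) (by norm_num) (by norm_num) (by norm_num) (by linarith only [hV, hta, htb, hh1, hh2]) (ex_un 5 0.6609 (by norm_num) (by norm_num) (by norm_num) (by norm_num)) (by norm_num) (by norm_num) (by linarith only [hV, hta, htb, hh1, hh2]) (ex_un 9 0.0729 (by norm_num) (by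 norm_num) (by norm_num) (by norm_num)) (by norm_num) (by norm_num)

private theorem B5Ho_K74 {β r t κ h : ℝ} (hβ : 0 < β) (hr : 10 ≤ r) (hκ : κ = β * r) (hk1 : 0.9 ≤ κ) (hk2 : κ ≤ 1)
    (hh : h = 2 * Real.pi / 5) (hh1 : 1.25663 ≤ h) (hh2 : h ≤ 1.25664) (hta : 0.88 ≤ t + κ) (htb : t + κ ≤ 1.068)
    (hY : 0.7767 * Real.exp (r * sE κ (t - h)) ≤ ‖Xf β r h t 0‖) (hV : 1.02131 + 0.1696 * (t - h + κ) ≤ sE κ (t - h)) :
    ‖Xf β r h t (-2)‖ ≤ 0.000355 * ‖Xf β r h t 0‖ := by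
  rw [v5_Xm2 hh]
  exact v5_cmp0 0.8974 0.000129 0.000355 hr (B5Ho_C69 (t := t + 2 * h) hβ hr hκ hk1 hk2 (by linarith only [hta, htb, hh1, hh2]) (by linarith only [hta, htb, hh1, hh2])) hY (by norm_num) (by norm_num) (by norm_num) (by linarith only [hV, hta, htb, hh1, hh2]) (ex_un 8 0.9739 (by norm_num) (by norm_num) (by norm_num) (by norm_num)) (by norm_num)

private theorem B5Ho_C75 {β r t κ : ℝ} (hβ : 0 < β) (hr : 10 ≤ r) (hκ : κ = β * r) (hk1 : 0.9 ≤ κ) (hk2 : κ ≤ 1) (hta : 0.8799 ≤ t + κ)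
    (htb : t + κ ≤ 1.0681) : ‖F (cexp (I * β)) (r * cexp (I * ((t + β / 2 : ℝ) : ℂ)))‖ ≤
      1.5875 * Real.exp (r * (1.11012 - 0.31 * (t + κ))) + 0.2133 * Real.exp (r * 0) :=
  v5_H 0.31 0.9 1 0.8799 1.0681 1.11012 1.5835 0.53793 0.1262 1.4505 1.4025 0.31317 0.04365 0.0000013 1.5875 0.2133 hβ hr hκ (by norm_num) hk1 hk2 hta htb (by norm_num) (B5Ho_G58 hk1 hk2).1 (B5Ho_G58 hk1 hk2).2 (by norm_num) (by norm_num) (by norm_num)
    (by norm_num) (by norm_num) (by norm_num) (by norm_num) (by norm_num) (by norm_num) (by norm_num) (by norm_num) (ex_un 3 0.1316 (by norm_num) (by norm_num) (by norm_num) (by norm_num))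
    (v5_hump 2.9255 9.999 3.1622 0.0000009316 0.0000013 hβ hr hκ hk1 hk2 (by norm_num) htb (by norm_num) (by norm_num) (by norm_num) (by norm_num) (by norm_num) (by norm_num) (by norm_num) (ex_un 13 0.9 (by norm_num) (by norm_num) (by norm_num) (by norm_num)) (by norm_num)) (by norm_num) (by norm_num)

private theorem B5Ho_K76 {β r t κ h : ℝ} (hβ : 0 < β) (hr : 10 ≤ r) (hκ : κ = β * r) (hk1 : 0.9 ≤ κ) (hk2 : κ ≤ 1)
    (hh : h = 2 * Real.pi / 5) (hh1 : 1.25663 ≤ h) (hh2 : h ≤ 1.25664) (hta : 0.88 ≤ t + κ) (htb : t + κ ≤ 1.068)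
    (hY : 0.7767 * Real.exp (r * sE κ (t - h)) ≤ ‖Xf β r h t 0‖) (hV : 1.02131 + 0.1696 * (t - h + κ) ≤ sE κ (t - h)) :
    ‖Xf β r h t 1‖ ≤ 0.617 * ‖Xf β r h t 0‖ := by
  rw [v5_X 1 0 (by push_cast; ring)]
  exact v5_cmp 0.1201 0.301 0.616 0.9574 0.00006972 0.0000192 0.617 hr (B5Ho_C75 (t := t + 0 * h) hβ hr hκ hk1 hk2 (by linarith only [hta, htb, hh1, hh2]) (by linarith only [hta, htb, hh1, hh2])) hY (by norm_num) (by norm_num) (by norm_num) (by norm_num) (by linarith only [hV, hta, htb, hh1, hh2]) (ex_un 1 0.2009 (by norm_num) (by norm_num) (by norm_num) (by norm_num)) (by norm_num) (by norm_num) (by linarith only [hV, hta, htb, hh1, hh2]) (ex_un 9 0.5739 (by norm_num) (by norm_num) (by norm_num) (by norm_num)) (by norm_num) (by norm_num)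

private theorem B5Ho_O77 {β r t κ h : ℝ} (hβ : 0 < β) (hr : 10 ≤ r) (hκ : κ = β * r) (hk1 : 0.9 ≤ κ) (hk2 : κ ≤ 1)
    (hh : h = 2 * Real.pi / 5) (hta : 0.88 ≤ t + κ) (htb : t + κ ≤ 1.068) :
    ‖Xf β r h t (-2)‖ + ‖Xf β r h t (-1)‖ + ‖Xf β r h t 2‖ < |‖Xf β r h t 1‖ - ‖Xf β r h t 0‖| := by
  obtain ⟨hh1, hh2⟩ := v5_h hh
  have hκ0 : 0 < κ := by linarith only [hk1]
  have hN : β * 9.999 ≤ 1 := v5_hN 1 9.999 hβ hr hκ hk2 (by norm_num) (by norm_num)
  have hD1 : DomR κ t := v5_dom hκ0 (by linarith only [hta, htb, hk1, hk2, hh1, hh2]) (Or.inr (by linarith only [hta, htb, hk1, hk2, hh1, hh2]))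
  have hD0 : DomR κ (t - h) := v5_dom hκ0 (by linarith only [hta, htb, hk1, hk2, hh1, hh2]) (Or.inr (by linarith only [hta, htb, hk1, hk2, hh1, hh2]))
  have h0a : (-0.3767) ≤ t - h + κ := by linarith only [hta, htb, hh1, hh2]
  have h0b : t - h + κ ≤ (-0.1886) := by linarith only [hta, htb, hh1, hh2]
  have e0 : t - h = t + (((0 : ℤ) : ℝ) - 1) * h := by push_cast; ring
  have hY := B5Ho_Y70 (h := h) hβ hκ hN hk1 hk2 e0 hD0 h0a h0b
  have hV := B5Ho_V71 hD0 hk1 hk2 h0a h0b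
  have cp2 := B5Ho_K72 hβ hr hκ hk1 hk2 hh hh1 hh2 hta htb hY hV
  have cm1 := B5Ho_K73 hβ hr hκ hk1 hk2 hh hh1 hh2 hta htb hY hV
  have cm2 := B5Ho_K74 hβ hr hκ hk1 hk2 hh hh1 hh2 hta htb hY hV
  have cn1 := B5Ho_K76 hβ hr hκ hk1 hk2 hh hh1 hh2 hta htb hY hV
  have hp : 0 < ‖Xf β r h t 0‖ := lt_of_lt_of_le (by positivity) hY
  exact v5_out0 _ _ _ _ cm2 cm1 cp2 cn1 hp (by norm_num)

private theorem B5Ho_B78 {κ t : ℝ} (h : DomR κ t) (hk1 : 0.9 ≤ κ) (hk2 : κ ≤ 1) (ht1 : (-0.1887) ≤ t + κ) (ht2 : t + κ ≤ 0.0629) :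
    ((-0.1) ≤ sy κ t ∧ sy κ t ≤ 0.031) ∧ (0.8667 ≤ sx κ t ∧ sx κ t ≤ 1.1052) ∧ κ * Real.exp (-sy κ t) ≤ 1.1052 ∧ 1.7893 ≤ sD κ t ∧ sD κ t ≤ 2.0215 := by
  have hy1 : -0.1 ≤ sy κ t := syL_ge h 0.9 1 0.1887 0.1 0.90483 0.90484 0.0879 0.09048 0.10054 hk1 hk2 (by linarith) (by norm_num) (by norm_num) (by norm_num)
    (expm_ge (by norm_num) (by norm_num) (by norm_num) (by norm_num)) (expm_le (by norm_num) (by norm_num) (by norm_num)) (by norm_num)
    (by norm_num) (by norm_num) (by norm_num) (by norm_num) (by norm_num) (by norm_num)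
  have hy2 : sy κ t ≤ 0.031 := syR_le h 0.9 1 0.0629 0.031 1.03148 0.031 0.03197 0.03553 hk1 hk2 (by linarith) (by norm_num) (by norm_num)
    (expn_ge (by norm_num) (by norm_num)) (by norm_num) (by norm_num) (Or.inr ((mul_le_mul_of_nonneg_left (expn_le (E := 1.03149) (by norm_num) (by norm_num) (by norm_num)) (by norm_num)).trans (by norm_num))) (by norm_num) (by norm_num) (by norm_num)
  have hy1' : (-0.1) ≤ sy κ t := by linarith
  have hy2' : sy κ t ≤ 0.031 := by linarith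
  have hx1 : 0.8667 ≤ sx κ t := sx_lo h 0.9 0.031 0.1001 0.96947 0.8667 hk1 (by norm_num) hy2' (abs_le.2 ⟨by linarith, by linarith⟩) (ex_lm 0.031 (by norm_num) (by norm_num) (by norm_num) (by norm_num) (by norm_num)) (by norm_num) (by norm_num)
  have hx2 : sx κ t ≤ 1.1052 := sx_hi h 1 (-0.1) 0 1.10518 1.1052 hk2 hy1' (by norm_num) (abs_nonneg _) (ex_up 0.1 (by norm_num) (by norm_num) (by norm_num) (by norm_num)) (by norm_num) (by norm_num)
  refine ⟨⟨hy1', hy2'⟩, ⟨hx1, hx2⟩, v5_n h 1 (-0.1) 1.10518 1.1052 hk2 hy1' (ex_up 0.1 (by norm_num) (by norm_num) (by norm_num) (by norm_num)) (by norm_num), ?_, ?_⟩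
  · exact v5_Dlo h 0.9 (-0.1) 0.031 (-0.1) 1.10517 1.7893 (by norm_num) hk1 hy1' hy2' (ex_lp 0.1 (by norm_num) (by norm_num) (by norm_num)) (by norm_num) (by norm_num) (by norm_num) (by norm_num)
  · exact v5_Dup h 1 (-0.1) 0.031 1.10518 0.96948 2.0215 hk2 hy1' hy2' (ex_up 0.1 (by norm_num) (by norm_num) (by norm_num) (by norm_num)) (ex_um 0.031 (by norm_num) (by norm_num) (by norm_num) (by norm_num)) (by norm_num) (by norm_num) (by norm_num)

private theorem B5Ho_T79_0_0 {β x y : ℝ} (hβ : 0 < β) (hN : β * 9.999 ≤ 1) (hx1 : 0.8666 ≤ x) (hx2 : x ≤ 0.937)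
    (hy1 : -0.1001 ≤ y) (hy2 : y ≤ 0.0311) : ‖HH β (x + y * I) - 1‖ ≤ 0.05 := by
  refine le_epsJ (C := 0.4997) (N0 := 9.999) (J_boxp 0.8666 0.937 0.1001 0.0311 0.0311 1.2491 0.9424 1.3933 0.8456 0.471 3.1622 9.999 0.7545 2.757 1.405 0.9673 0.6245 0.4674 1.1469 3.2467 0.718 1.6967 2.8984 3.737 0.001943 0.009351 0.00001048 0.0000003101 0.0007625 0.0000003101 0.0000003101 0.0000003101 0.4997
    hβ hN hx1 hx2 hy1 hy2 (by norm_num) (by norm_num) (by linarith) (by norm_num) (by norm_num) (by norm_num) (by norm_num) (by norm_num) (by norm_num) (by norm_num) (by norm_num) (by norm_num) (by norm_num) (by norm_num) (by norm_num) (by norm_num) (by norm_num) (by norm_num) (by norm_num) (by norm_num) (by norm_num) (by norm_num) (by norm_num) (by norm_num)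
    (cube_sqrt_geJ (s := 0.8651) (by norm_num) (by norm_num) (by norm_num) (by norm_num))
    (cube_sqrt_geJ (s := 0.9526) (by norm_num) (by norm_num) (by norm_num) (by norm_num))
    (by norm_num) (by norm_num) (by norm_num) (by norm_num) (by norm_num) (by norm_num) (by norm_num) (by norm_num) (by norm_num) (by norm_num) (by norm_num) (by norm_num) (by norm_num) (by norm_num) (by norm_num) (by norm_num) (by norm_num) (by norm_num)
    (exp_neg_leJ (r := 0.244) 6 (by norm_num) (by norm_num) (by norm_num) (by norm_num))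
    (exp_neg_leJ (r := 0.673) 4 (by norm_num) (by norm_num) (by norm_num) (by norm_num))
    (exp_neg_leJ (r := 0.467) 11 (by norm_num) (by norm_num) (by norm_num) (by norm_num))
    (exp_neg_leJ (r := 0.99) 14 (by norm_num) (by norm_num) (by norm_num) (by norm_num))
    (exp_neg_leJ (r := 0.179) 7 (by norm_num) (by norm_num) (by norm_num) (by norm_num))
    (exp_neg_leJ (r := 0.99) 14 (by norm_num) (by norm_num) (by norm_num) (by norm_num))
    (exp_neg_leJ (r := 0.99) 14 (by norm_num) (by norm_num) (by norm_num) (by norm_num))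
    (exp_neg_leJ (r := 0.99) 14 (by norm_num) (by norm_num) (by norm_num) (by norm_num))
    (by norm_num)) (by norm_num) hN hβ.le (by norm_num)

private theorem B5Ho_T79_0_1 {β x y : ℝ} (hβ : 0 < β) (hN : β * 9.999 ≤ 1) (hx1 : 0.937 ≤ x) (hx2 : x ≤ 1.007)
    (hy1 : -0.1001 ≤ y) (hy2 : y ≤ 0.0311) : ‖HH β (x + y * I) - 1‖ ≤ 0.05 := by
  refine le_epsJ (C := 0.4992) (N0 := 9.999) (J_boxp 0.937 1.007 0.1001 0.0311 0.0311 1.2987 1.012 1.4413 0.8112 0.479 3.1622 9.999 0.7793 2.866 1.421 0.9404 0.6493 0.4806 1.171 3.2063 0.7522 1.7942 3.0392 3.6886 0.001516 0.008201 0.000008235 0.0000003101 0.0005418 0.0000003101 0.0000003101 0.0000003101 0.4992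
    hβ hN hx1 hx2 hy1 hy2 (by norm_num) (by norm_num) (by linarith) (by norm_num) (by norm_num) (by norm_num) (by norm_num) (by norm_num) (by norm_num) (by norm_num) (by norm_num) (by norm_num) (by norm_num) (by norm_num) (by norm_num) (by norm_num) (by norm_num) (by norm_num) (by norm_num) (by norm_num) (by norm_num) (by norm_num) (by norm_num) (by norm_num)
    (cube_sqrt_geJ (s := 0.8603) (by norm_num) (by norm_num) (by norm_num) (by norm_num))
    (cube_sqrt_geJ (s := 0.951) (by norm_num) (by norm_num) (by norm_num) (by norm_num))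
    (by norm_num) (by norm_num) (by norm_num) (by norm_num) (by norm_num) (by norm_num) (by norm_num) (by norm_num) (by norm_num) (by norm_num) (by norm_num) (by norm_num) (by norm_num) (by norm_num) (by norm_num) (by norm_num) (by norm_num) (by norm_num)
    (exp_neg_leJ (r := 0.492) 6 (by norm_num) (by norm_num) (by norm_num) (by norm_num))
    (exp_neg_leJ (r := 0.805) 4 (by norm_num) (by norm_num) (by norm_num) (by norm_num))
    (exp_neg_leJ (r := 0.708) 11 (by norm_num) (by norm_num) (by norm_num) (by norm_num))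
    (exp_neg_leJ (r := 0.99) 14 (by norm_num) (by norm_num) (by norm_num) (by norm_num))
    (exp_neg_leJ (r := 0.521) 7 (by norm_num) (by norm_num) (by norm_num) (by norm_num))
    (exp_neg_leJ (r := 0.99) 14 (by norm_num) (by norm_num) (by norm_num) (by norm_num))
    (exp_neg_leJ (r := 0.99) 14 (by norm_num) (by norm_num) (by norm_num) (by norm_num))
    (exp_neg_leJ (r := 0.99) 14 (by norm_num) (by norm_num) (by norm_num) (by norm_num))
    (by norm_num)) (by norm_num) hN hβ.le (by norm_num)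

private theorem B5Ho_T79_0_2 {β x y : ℝ} (hβ : 0 < β) (hN : β * 9.999 ≤ 1) (hx1 : 1.007 ≤ x) (hx2 : x ≤ 1.076)
    (hy1 : -0.1001 ≤ y) (hy2 : y ≤ 0.0311) : ‖HH β (x + y * I) - 1‖ ≤ 0.05 := by
  refine le_epsJ (C := 0.499) (N0 := 9.999) (J_boxp 1.007 1.076 0.1001 0.0311 0.0311 1.348 1.0807 1.4903 0.7801 0.4871 3.1622 9.999 0.8018 2.97 1.436 0.9138 0.6739 0.4938 1.1949 3.1665 0.7862 1.8911 3.1792 3.6418 0.001187 0.007197 0.000006498 0.0000003101 0.0003863 0.0000003101 0.0000003101 0.0000003101 0.499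
    hβ hN hx1 hx2 hy1 hy2 (by norm_num) (by norm_num) (by linarith) (by norm_num) (by norm_num) (by norm_num) (by norm_num) (by norm_num) (by norm_num) (by norm_num) (by norm_num) (by norm_num) (by norm_num) (by norm_num) (by norm_num) (by norm_num) (by norm_num) (by norm_num) (by norm_num) (by norm_num) (by norm_num) (by norm_num) (by norm_num) (by norm_num)
    (cube_sqrt_geJ (s := 0.8559) (by norm_num) (by norm_num) (by norm_num) (by norm_num))
    (cube_sqrt_geJ (s := 0.9496) (by norm_num) (by norm_num) (by norm_num) (by norm_num))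
    (by norm_num) (by norm_num) (by norm_num) (by norm_num) (by norm_num) (by norm_num) (by norm_num) (by norm_num) (by norm_num) (by norm_num) (by norm_num) (by norm_num) (by norm_num) (by norm_num) (by norm_num) (by norm_num) (by norm_num) (by norm_num)
    (exp_neg_leJ (r := 0.738) 6 (by norm_num) (by norm_num) (by norm_num) (by norm_num))
    (exp_neg_leJ (r := 0.937) 4 (by norm_num) (by norm_num) (by norm_num) (by norm_num))
    (exp_neg_leJ (r := 0.947) 11 (by norm_num) (by norm_num) (by norm_num) (by norm_num))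
    (exp_neg_leJ (r := 0.99) 14 (by norm_num) (by norm_num) (by norm_num) (by norm_num))
    (exp_neg_leJ (r := 0.861) 7 (by norm_num) (by norm_num) (by norm_num) (by norm_num))
    (exp_neg_leJ (r := 0.99) 14 (by norm_num) (by norm_num) (by norm_num) (by norm_num))
    (exp_neg_leJ (r := 0.99) 14 (by norm_num) (by norm_num) (by norm_num) (by norm_num))
    (exp_neg_leJ (r := 0.99) 14 (by norm_num) (by norm_num) (by norm_num) (by norm_num))
    (by norm_num)) (by norm_num) hN hβ.le (by norm_num)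

private theorem B5Ho_T79_0_3 {β x y : ℝ} (hβ : 0 < β) (hN : β * 9.999 ≤ 1) (hx1 : 1.076 ≤ x) (hx2 : x ≤ 1.1053)
    (hy1 : -0.1001 ≤ y) (hy2 : y ≤ 0.0311) : ‖HH β (x + y * I) - 1‖ ≤ 0.05 := by
  refine le_epsJ (C := 0.4569) (N0 := 9.999) (J_boxp 1.076 1.1053 0.1001 0.0311 0.0311 1.3966 1.1099 1.5116 0.745 0.4905 3.1622 9.999 0.7948 2.937 1.432 0.9026 0.6982 0.5132 1.2186 3.1496 0.8198 1.9866 3.3172 3.7005 0.0009326 0.005911 0.000005112 0.0000003101 0.0002755 0.0000003101 0.0000003101 0.0000003101 0.4569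
    hβ hN hx1 hx2 hy1 hy2 (by norm_num) (by norm_num) (by linarith) (by norm_num) (by norm_num) (by norm_num) (by norm_num) (by norm_num) (by norm_num) (by norm_num) (by norm_num) (by norm_num) (by norm_num) (by norm_num) (by norm_num) (by norm_num) (by norm_num) (by norm_num) (by norm_num) (by norm_num) (by norm_num) (by norm_num) (by norm_num) (by norm_num)
    (cube_sqrt_geJ (s := 0.8573) (by norm_num) (by norm_num) (by norm_num) (by norm_num))
    (cube_sqrt_geJ (s := 0.95) (by norm_num) (by norm_num) (by norm_num) (by norm_num))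
    (by norm_num) (by norm_num) (by norm_num) (by norm_num) (by norm_num) (by norm_num) (by norm_num) (by norm_num) (by norm_num) (by norm_num) (by norm_num) (by norm_num) (by norm_num) (by norm_num) (by norm_num) (by norm_num) (by norm_num) (by norm_num)
    (exp_neg_leJ (r := 0.981) 6 (by norm_num) (by norm_num) (by norm_num) (by norm_num))
    (exp_neg_leJ (r := 0.131) 5 (by norm_num) (by norm_num) (by norm_num) (by norm_num))
    (exp_neg_leJ (r := 0.184) 12 (by norm_num) (by norm_num) (by norm_num) (by norm_num))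
    (exp_neg_leJ (r := 0.99) 14 (by norm_num) (by norm_num) (by norm_num) (by norm_num))
    (exp_neg_leJ (r := 0.197) 8 (by norm_num) (by norm_num) (by norm_num) (by norm_num))
    (exp_neg_leJ (r := 0.99) 14 (by norm_num) (by norm_num) (by norm_num) (by norm_num))
    (exp_neg_leJ (r := 0.99) 14 (by norm_num) (by norm_num) (by norm_num) (by norm_num))
    (exp_neg_leJ (r := 0.99) 14 (by norm_num) (by norm_num) (by norm_num) (by norm_num))
    (by norm_num)) (by norm_num) hN hβ.le (by norm_num)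

private theorem B5Ho_T79 {β x y : ℝ} (hβ : 0 < β) (hN : β * 9.999 ≤ 1) (hx1 : 0.8666 ≤ x) (hx2 : x ≤ 1.1053)
    (hy1 : (-0.1001) ≤ y) (hy2 : y ≤ 0.0311) : ‖HH β (x + y * I) - 1‖ ≤ 0.05 := by
  rcases le_total x 0.937 with hxx | hxx
  · exact B5Ho_T79_0_0 hβ hN (by linarith) (by linarith) (by linarith) (by linarith)
  rcases le_total x 1.007 with hxx | hxx
  · exact B5Ho_T79_0_1 hβ hN (by linarith) (by linarith) (by linarith) (by linarith)
  rcases le_total x 1.076 with hxx | hxx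
  · exact B5Ho_T79_0_2 hβ hN (by linarith) (by linarith) (by linarith) (by linarith)
  exact B5Ho_T79_0_3 hβ hN (by linarith) (by linarith) (by linarith) (by linarith)

private theorem B5Ho_C80 {β r t κ : ℝ} (hβ : 0 < β) (hr : 10 ≤ r) (hκ : κ = β * r) (hk1 : 0.9 ≤ κ) (hk2 : κ ≤ 1) (hta : 2.3246 ≤ t + κ)
    (htb : t + κ ≤ 2.5762) : ‖F (cexp (I * β)) (r * cexp (I * ((t + β / 2 : ℝ) : ℂ)))‖ ≤
      4.1044 * Real.exp (r * (0.29 + 1 / 20)) :=
  v5_UD 0.9 1 2.3246 2.5762 0.29 0.4206 0.29 2.1398 4.1044 hβ hr hκ (by norm_num) hk1 hk2 hta htb (by norm_num) (by norm_num) (by norm_num) (by norm_num) (by norm_num) (by norm_num) (by norm_num) (by norm_num) (by norm_num) (by norm_num) (by norm_num)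

private theorem B5Ho_G81 {κ : ℝ} (hk1 : 0.9 ≤ κ) (hk2 : κ ≤ 1) : gG κ (-0.68) ≤ 1.41231 ∧ 3.4007 ≤ Real.exp (-(κ * (-0.68))) ^ 2 := by
  refine ⟨gG_le (-0.68) 0.9 1 1.41231 1.84412 1.97388 0.54227 0.50663 hk1 hk2 (by norm_num)
    (ex_up 0.612 (by norm_num) (by norm_num) (by norm_num) (by norm_num)) (ex_up 0.68 (by norm_num) (by norm_num) (by norm_num) (by norm_num))
    (ex_um 0.612 (by norm_num) (by norm_num) (by norm_num) (by norm_num)) (ex_um 0.68 (by norm_num) (by norm_num) (by norm_num) (by norm_num))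
    (by norm_num) (by norm_num), ?_⟩
  exact v5_M 1.8441 (ex_lp 0.612 (by linarith) (by norm_num) (by norm_num)) (by norm_num) (by norm_num)

private theorem B5Ho_C82 {β r t κ : ℝ} (hβ : 0 < β) (hr : 10 ≤ r) (hκ : κ = β * r) (hk1 : 0.9 ≤ κ) (hk2 : κ ≤ 1) (hta : (-1.4453) ≤ t + κ)
    (htb : t + κ ≤ (-1.1937)) : ‖F (cexp (I * β)) (r * cexp (I * ((t + β / 2 : ℝ) : ℂ)))‖ ≤
      0.9861 * Real.exp (r * (1.41231 - (-0.68) * (t + κ))) + 1.7906 * Real.exp (r * 0.0501) :=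
  v5_HU (-0.68) 0.9 1 (-1.4453) (-1.1937) 1.41231 0.9861 3.4007 0.1262 0.8067 2.2666 0 0.0501 0.0000013 1.7906 hβ hr hκ (by norm_num) hk1 hk2 hta htb (by norm_num) (by norm_num) (B5Ho_G81 hk1 hk2).1 (B5Ho_G81 hk1 hk2).2 (by norm_num) (by norm_num) (by norm_num)
    (by norm_num) (by norm_num) (by norm_num) (by norm_num) (by norm_num) (by norm_num) (by norm_num)
    (by norm_num) (by norm_num) (by norm_num) (v5_hump 5.1873 9.999 3.1622 0.0000009316 0.0000013 hβ hr hκ hk1 hk2 (by norm_num) htb (by norm_num) (by norm_num) (by norm_num) (by norm_num) (by norm_num) (by norm_num) (by norm_num) (ex_un 13 0.9 (by norm_num) (by norm_num) (by norm_num) (by norm_num)) (by norm_num)) (by norm_num)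

private theorem B5Ho_C83 {β r t κ : ℝ} (hβ : 0 < β) (hr : 10 ≤ r) (hκ : κ = β * r) (hk1 : 0.9 ≤ κ) (hk2 : κ ≤ 1) (hta : 3.5812 ≤ t + κ)
    (htb : t + κ ≤ 3.8328) : ‖F (cexp (I * β)) (r * cexp (I * ((t + β / 2 : ℝ) : ℂ)))‖ ≤
      2.1155 * Real.exp (r * (0.01 + 1 / 20)) :=
  v5_UD 0.9 1 3.5812 3.8328 0.01 0.4206 0.01 1.1029 2.1155 hβ hr hκ (by norm_num) hk1 hk2 hta htb (by norm_num) (by norm_num) (by norm_num) (by norm_num) (by norm_num) (by norm_num) (by norm_num) (by norm_num) (by norm_num) (by norm_num) (by norm_num)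

private theorem B5Ho_Y84 {β r t κ h t' : ℝ} (hβ : 0 < β) (hκ : κ = β * r) (hN : β * 9.999 ≤ 1) (hk1 : 0.9 ≤ κ) (hk2 : κ ≤ 1)
    (ht : t' = t + (((0 : ℤ) : ℝ) - 1) * h) (hD : DomR κ t') (hta : (-0.1887) ≤ t' + κ) (htb : t' + κ ≤ 0.0629) :
    0.7967 * Real.exp (r * sE κ t') ≤ ‖Xf β r h t 0‖ := by
  obtain ⟨⟨ya, yb⟩, ⟨xa, xb⟩, n1, Da, Db⟩ := B5Ho_B78 hD hk1 hk2 hta htb
  have J := B5Ho_T79 (x := sx κ t') (y := sy κ t') hβ hN (by linarith only [xa, xb, ya, yb]) (by linarith only [xa, xb, ya, yb]) (by linarith only [xa, xb, ya, yb]) (by linarith only [xa, xb, ya, yb])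
  exact v5_Jlo hβ hκ (k := 0) ht hD 0.05 2.0215 0.7967 (by norm_num) J Db (by norm_num)

private theorem B5Ho_V85 {κ t : ℝ} (hD : DomR κ t) (hk1 : 0.9 ≤ κ) (hk2 : κ ≤ 1) (hta : (-0.1887) ≤ t + κ) (htb : t + κ ≤ 0.0629) :
    0.99658 + 0.0362 * (t + κ) ≤ sE κ t := by
  have hκ0 : 0 < κ := hD.1
  exact v5_V0 hD 0.9 1 (-0.1887) 0.0629 0.1888 0.5203 0.10175 0.16865 0.16865 0.55249 0.99658 0.0362 (by norm_num) hk1 hk2 (by norm_num) hta htb (by norm_num) (by norm_num) (by norm_num) ((cup1 1 hκ0.le hk2 (by norm_num)).trans (by norm_num))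
      (by norm_num) (by norm_num) (by norm_num) (by norm_num) (by norm_num) (by norm_num) (by norm_num) (by norm_num) (by norm_num) (by norm_num) (by norm_num) (by norm_num) (by norm_num)

private theorem B5Ho_K86 {β r t κ h : ℝ} (hβ : 0 < β) (hr : 10 ≤ r) (hκ : κ = β * r) (hk1 : 0.9 ≤ κ) (hk2 : κ ≤ 1)
    (hh : h = 2 * Real.pi / 5) (hh1 : 1.25663 ≤ h) (hh2 : h ≤ 1.25664) (hta : 1.068 ≤ t + κ) (htb : t + κ ≤ 1.3195)
    (hY : 0.7967 * Real.exp (r * sE κ (t - h)) ≤ ‖Xf β r h t 0‖) (hV : 0.99658 + 0.0362 * (t - h + κ) ≤ sE κ (t - h)) :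
    ‖Xf β r h t 2‖ ≤ 0.00779 * ‖Xf β r h t 0‖ := by
  rw [v5_X 2 1 (by push_cast; ring)]
  exact v5_cmp0 0.6497 0.001511 0.00779 hr (B5Ho_C80 (t := t + 1 * h) hβ hr hκ hk1 hk2 (by linarith only [hta, htb, hh1, hh2]) (by linarith only [hta, htb, hh1, hh2])) hY (by norm_num) (by norm_num) (by norm_num) (by linarith only [hV, hta, htb, hh1, hh2]) (ex_un 6 0.4969 (by norm_num) (by norm_num) (by norm_num) (by norm_num)) (by norm_num)

private theorem B5Ho_K87 {β r t κ h : ℝ} (hβ : 0 < β) (hr : 10 ≤ r) (hκ : κ = β * r) (hk1 : 0.9 ≤ κ) (hk2 : κ ≤ 1)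
    (hh : h = 2 * Real.pi / 5) (hh1 : 1.25663 ≤ h) (hh2 : h ≤ 1.25664) (hta : 1.068 ≤ t + κ) (htb : t + κ ≤ 1.3195)
    (hY : 0.7967 * Real.exp (r * sE κ (t - h)) ≤ ‖Xf β r h t 0‖) (hV : 0.99658 + 0.0362 * (t - h + κ) ≤ sE κ (t - h)) :
    ‖Xf β r h t (-1)‖ ≤ 0.0237 * ‖Xf β r h t 0‖ := by
  rw [v5_X (-1) (-2) (by push_cast; ring)]
  exact v5_cmp 0.3983 0.01898 0.0235 0.9396 0.00008313 0.000187 0.0237 hr (B5Ho_C82 (t := t + (-2) * h) hβ hr hκ hk1 hk2 (by linarith only [hta, htb, hh1, hh2]) (by linarith only [hta, htb, hh1, hh2])) hY (by norm_num) (by norm_num) (by norm_num) (by norm_num) (by linarith only [hV, hta, htb, hh1, hh2]) (ex_un 3 0.9829 (by norm_num) (by norm_num) (by norm_num) (by norm_num)) (by norm_num) (by norm_num) (by linarith only [hV, hta, htb, hh1, hh2]) (ex_un 9 0.3959 (by norm_num) (by norm_num) (by norm_num) (by norm_num)) (by norm_num) (by norm_num)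

private theorem B5Ho_K88 {β r t κ h : ℝ} (hβ : 0 < β) (hr : 10 ≤ r) (hκ : κ = β * r) (hk1 : 0.9 ≤ κ) (hk2 : κ ≤ 1)
    (hh : h = 2 * Real.pi / 5) (hh1 : 1.25663 ≤ h) (hh2 : h ≤ 1.25664) (hta : 1.068 ≤ t + κ) (htb : t + κ ≤ 1.3195)
    (hY : 0.7967 * Real.exp (r * sE κ (t - h)) ≤ ‖Xf β r h t 0‖) (hV : 0.99658 + 0.0362 * (t - h + κ) ≤ sE κ (t - h)) :
    ‖Xf β r h t (-2)‖ ≤ 0.000244 * ‖Xf β r h t 0‖ := by
  rw [v5_Xm2 hh]
  exact v5_cmp0 0.9297 0.00009174 0.000244 hr (B5Ho_C83 (t := t + 2 * h) hβ hr hκ hk1 hk2 (by linarith only [hta, htb, hh1, hh2]) (by linarith only [hta, htb, hh1, hh2])) hY (by norm_num) (by norm_num) (by norm_num) (by linarith only [hV, hta, htb, hh1, hh2]) (ex_un 9 0.2969 (by norm_num) (by norm_num) (by norm_num) (by norm_num)) (by norm_num)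

private theorem B5Ho_G89 {κ : ℝ} (hk1 : 0.9 ≤ κ) (hk2 : κ ≤ 1) : gG κ 0.35 ≤ 1.14384 ∧ 0.49657 ≤ Real.exp (-(κ * 0.35)) ^ 2 := by
  refine ⟨gG_le 0.35 0.9 1 1.14384 0.72979 0.70469 1.37026 1.41907 hk1 hk2 (by norm_num)
    (ex_um 0.315 (by norm_num) (by norm_num) (by norm_num) (by norm_num)) (ex_um 0.35 (by norm_num) (by norm_num) (by norm_num) (by norm_num))
    (ex_up 0.315 (by norm_num) (by norm_num) (by norm_num) (by norm_num)) (ex_up 0.35 (by norm_num) (by norm_num) (by norm_num) (by norm_num))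
    (by norm_num) (by norm_num), ?_⟩
  exact v5_M 0.70468 (ex_lm 0.35 (by linarith) (by norm_num) (by norm_num) (by norm_num) (by norm_num)) (by norm_num) (by norm_num)

private theorem B5Ho_C90 {β r t κ : ℝ} (hβ : 0 < β) (hr : 10 ≤ r) (hκ : κ = β * r) (hk1 : 0.9 ≤ κ) (hk2 : κ ≤ 1) (hta : 1.0679 ≤ t + κ)
    (htb : t + κ ≤ 1.3196) : ‖F (cexp (I * β)) (r * cexp (I * ((t + β / 2 : ℝ) : ℂ)))‖ ≤
      1.6604 * Real.exp (r * (1.14384 - 0.35 * (t + κ))) + 0.2033 * Real.exp (r * 0) :=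
  v5_H 0.35 0.9 1 1.0679 1.3196 1.14384 1.6508 0.49657 0.1262 1.6385 1.151 0.24405 0.08723 0.0000013 1.6604 0.2033 hβ hr hκ (by norm_num) hk1 hk2 hta htb (by norm_num) (B5Ho_G89 hk1 hk2).1 (B5Ho_G89 hk1 hk2).2 (by norm_num) (by norm_num) (by norm_num)
    (by norm_num) (by norm_num) (by norm_num) (by norm_num) (by norm_num) (by norm_num) (by norm_num) (by norm_num) (ex_un 2 0.4404 (by norm_num) (by norm_num) (by norm_num) (by norm_num))
    (v5_hump 2.674 9.999 3.1622 0.0000009316 0.0000013 hβ hr hκ hk1 hk2 (by norm_num) htb (by norm_num) (by norm_num) (by norm_num) (by norm_num) (by norm_num) (by norm_num) (by norm_num) (ex_un 13 0.9 (by norm_num) (by norm_num) (by norm_num) (by norm_num)) (by norm_num)) (by norm_num) (by norm_num)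

private theorem B5Ho_K91 {β r t κ h : ℝ} (hβ : 0 < β) (hr : 10 ≤ r) (hκ : κ = β * r) (hk1 : 0.9 ≤ κ) (hk2 : κ ≤ 1)
    (hh : h = 2 * Real.pi / 5) (hh1 : 1.25663 ≤ h) (hh2 : h ≤ 1.25664) (hta : 1.068 ≤ t + κ) (htb : t + κ ≤ 1.3195)
    (hY : 0.7967 * Real.exp (r * sE κ (t - h)) ≤ ‖Xf β r h t 0‖) (hV : 0.99658 + 0.0362 * (t - h + κ) ≤ sE κ (t - h)) :
    ‖Xf β r h t 1‖ ≤ 0.233 * ‖Xf β r h t 0‖ := by
  rw [v5_X 1 0 (by push_cast; ring)]
  exact v5_cmp 0.2197 0.1112 0.232 0.9897 0.00005101 0.0000131 0.233 hr (B5Ho_C90 (t := t + 0 * h) hβ hr hκ hk1 hk2 (by linarith only [hta, htb, hh1, hh2]) (by linarith only [hta, htb, hh1, hh2])) hY (by norm_num) (by norm_num) (by norm_num) (by norm_num) (by linarith only [hV, hta, htb, hh1, hh2]) (ex_un 2 0.1969 (by norm_num) (by norm_num) (by norm_num) (by norm_num)) (by norm_num) (by norm_num) (by linarith only [hV, hta, htb, hh1, hh2]) (ex_un 9 0.8969 (by norm_num) (by norm_num) (by norm_num)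 (by norm_num)) (by norm_num) (by norm_num)

private theorem B5Ho_O92 {β r t κ h : ℝ} (hβ : 0 < β) (hr : 10 ≤ r) (hκ : κ = β * r) (hk1 : 0.9 ≤ κ) (hk2 : κ ≤ 1)
    (hh : h = 2 * Real.pi / 5) (hta : 1.068 ≤ t + κ) (htb : t + κ ≤ 1.3195) :
    ‖Xf β r h t (-2)‖ + ‖Xf β r h t (-1)‖ + ‖Xf β r h t 2‖ < |‖Xf β r h t 1‖ - ‖Xf β r h t 0‖| := by
  obtain ⟨hh1, hh2⟩ := v5_h hh
  have hκ0 : 0 < κ := by linarith only [hk1]
  have hN : β * 9.999 ≤ 1 := v5_hN 1 9.999 hβ hr hκ hk2 (by norm_num) (by norm_num)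
  have hD1 : DomR κ t := v5_dom hκ0 (by linarith only [hta, htb, hk1, hk2, hh1, hh2]) (Or.inr (by linarith only [hta, htb, hk1, hk2, hh1, hh2]))
  have hD0 : DomR κ (t - h) := v5_dom hκ0 (by linarith only [hta, htb, hk1, hk2, hh1, hh2]) (Or.inr (by linarith only [hta, htb, hk1, hk2, hh1, hh2]))
  have h0a : (-0.1887) ≤ t - h + κ := by linarith only [hta, htb, hh1, hh2]
  have h0b : t - h + κ ≤ 0.0629 := by linarith only [hta, htb, hh1, hh2]
  have e0 : t - h = t + (((0 : ℤ) : ℝ) - 1) * h := by push_cast; ring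
  have hY := B5Ho_Y84 (h := h) hβ hκ hN hk1 hk2 e0 hD0 h0a h0b
  have hV := B5Ho_V85 hD0 hk1 hk2 h0a h0b
  have cp2 := B5Ho_K86 hβ hr hκ hk1 hk2 hh hh1 hh2 hta htb hY hV
  have cm1 := B5Ho_K87 hβ hr hκ hk1 hk2 hh hh1 hh2 hta htb hY hV
  have cm2 := B5Ho_K88 hβ hr hκ hk1 hk2 hh hh1 hh2 hta htb hY hV
  have cn1 := B5Ho_K91 hβ hr hκ hk1 hk2 hh hh1 hh2 hta htb hY hV
  have hp : 0 < ‖Xf β r h t 0‖ := lt_of_lt_of_le (by positivity) hY
  exact v5_out0 _ _ _ _ cm2 cm1 cp2 cn1 hp (by norm_num)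

theorem R1_b5_H {p : ℤ} {β r : ℝ} (hp : IsCoprime (5 : ℤ) p) (hr : 10 ≤ r) (hβ : 0 < β) (hk1 : 0.9 ≤ β * r)
    (hk2 : β * r ≤ 1) : Circ (2 * Real.pi * p / 5 + β) r := by
  obtain ⟨h, hh⟩ : ∃ h : ℝ, h = 2 * Real.pi / 5 := ⟨_, rfl⟩
  obtain ⟨hh1, hh2⟩ := v5_h hh
  obtain ⟨κ, hκ⟩ : ∃ κ, κ = β * r := ⟨_, rfl⟩
  rw [← hκ] at hk1 hk2
  refine v5_circ (κ := κ) hp hr hh 0.45 0.61 1.03 0.0253 0.0219 0.00192 0.00139 0.0462 0.00925 0.00807 0.3424 ?_ ?_ (by norm_num) (by norm_num) (by norm_num) (by norm_num) (by norm_num) (by norm_num) (by norm_num) (by norm_num) (by norm_num) (by norm_num)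
  · intro t g1 g2
    rcases le_total (t + κ) 0.666 with g3 | g3
    · exact B5Hw_W22 hβ hr hκ hk1 hk2 hh (by linarith) (by linarith)
    exact B5Hw_W42 hβ hr hκ hk1 hk2 hh (by linarith) (by linarith)
  · intro t g1 g2 g3
    rcases g3 with g3 | g3
    · rcases le_total (t + κ) 0.251 with g4 | g4
      · exact B5Ho_O16 hβ hr hκ hk1 hk2 hh (by linarith) (by linarith)
      rcases le_total (t + κ) 0.415 with g4 | g4
      · exact B5Ho_O31 hβ hr hκ hk1 hk2 hh (by linarith) (by linarith)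
      exact B5Ho_O46 hβ hr hκ hk1 hk2 hh (by linarith) (by linarith)
    · rcases le_total (t + κ) 0.88 with g4 | g4
      · exact B5Ho_O63 hβ hr hκ hk1 hk2 hh (by linarith) (by linarith)
      rcases le_total (t + κ) 1.068 with g4 | g4
      · exact B5Ho_O77 hβ hr hκ hk1 hk2 hh (by linarith) (by linarith)
      exact B5Ho_O92 hβ hr hκ hk1 hk2 hh (by linarith) (by linarith)

end Sok
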