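import Pool.Agent.Lib.MP_816dec_an.R1b5WI

/-!
MP_816dec_an (A3, row R1), SINGLE CASE `b = 5`, `r ≥ 10`, `1 ≤ κ ≤ 1.15`: outside the window, assembly (generated file).
-/

set_option autoImplicit false
set_option linter.unusedVariables false

open Complex Set Filter Topology Metric

namespace Sok

private theorem B5Io_B1 {κ t : ℝ} (h : DomR κ t) (hk1 : 1 ≤ κ) (hk2 : κ ≤ 1.15) (ht1 : 0.0628 ≤ t + κ) (ht2 : t + κ ≤ 0.251) :
    (0.03 ≤ sy κ t ∧ sy κ t ≤ 0.119) ∧ (0.8797 ≤ sx κ t ∧ sx κ t ≤ 1.1157) ∧ κ * Real.exp (-sy κ t) ≤ 1.1161 ∧ 2.0017 ≤ sD κ t ∧ sD κ t ≤ 2.3055 := by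
  have hy1 : 0.03 ≤ sy κ t := syR_ge h 1 1.15 0.0628 0.03 1.03045 1.03046 0.02688 0.03092 hk1 hk2 (by linarith) (by norm_num) (by norm_num)
    (expn_ge (by norm_num) (by norm_num)) (expn_le (by norm_num) (by norm_num) (by norm_num)) (by norm_num)
    (by norm_num) (by norm_num) (by norm_num) (by norm_num) (by norm_num) (by norm_num)
  have hy2 : sy κ t ≤ 0.119 := syR_le h 1 1.15 0.251 0.119 1.12636 0.1136 0.11655 0.13404 hk1 hk2 (by linarith) (by norm_num) (by norm_num)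
    (expn_ge (by norm_num) (by norm_num)) (by norm_num) (by norm_num) (Or.inr ((mul_le_mul_of_nonneg_left (expn_le (E := 1.12637) (by norm_num) (by norm_num) (by norm_num)) (by norm_num)).trans (by norm_num))) (by norm_num) (by norm_num) (by norm_num)
  have hy1' : 0.03 ≤ sy κ t := by linarith
  have hy2' : sy κ t ≤ 0.119 := by linarith
  have hx1 : 0.8797 ≤ sx κ t := sx_lo h 1 0.119 0.1191 0.8878 0.8797 hk1 (by norm_num) hy2' (abs_le.2 ⟨by linarith, by linarith⟩) (ex_lm 0.119 (by norm_num) (by norm_num) (by norm_num) (by norm_num) (by norm_num)) (by norm_num) (by norm_num)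
  have hx2 : sx κ t ≤ 1.1157 := sx_hi h 1.15 0.03 0.03 0.97045 1.1157 hk2 hy1' (by norm_num) (le_trans (by linarith) (le_abs_self _)) (ex_um 0.03 (by norm_num) (by norm_num) (by norm_num) (by norm_num)) (by norm_num) (by norm_num)
  refine ⟨⟨hy1', hy2'⟩, ⟨hx1, hx2⟩, v5_n h 1.15 0.03 0.97045 1.1161 hk2 hy1' (ex_um 0.03 (by norm_num) (by norm_num) (by norm_num) (by norm_num)) (by norm_num), ?_, ?_⟩
  · exact v5_Dlo h 1 0.03 0.119 0.03 0.97044 2.0017 (by norm_num) hk1 hy1' hy2' (ex_lm 0.03 (by norm_num) (by norm_num) (by norm_num) (by norm_num) (by norm_num)) (by norm_num) (by norm_num) (by norm_num) (by norm_num)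
  · exact v5_Dup h 1.15 0.03 0.119 0.97045 0.88781 2.3055 hk2 hy1' hy2' (ex_um 0.03 (by norm_num) (by norm_num) (by norm_num) (by norm_num)) (ex_um 0.119 (by norm_num) (by norm_num) (by norm_num) (by norm_num)) (by norm_num) (by norm_num) (by norm_num)

private theorem B5Io_T2_0_0 {β x y : ℝ} (hβ : 0 < β) (hN : β * 8.695 ≤ 1) (hx1 : 0.8796 ≤ x) (hx2 : x ≤ 0.974)
    (hy1 : -0 ≤ y) (hy2 : y ≤ 0.1191) : ‖HH β (x + y * I) - 1‖ ≤ 0.055 := by
  refine le_epsJ (C := 0.4777) (N0 := 8.695) (J_boxp 0.8796 0.974 0 0.1191 0.1191 1.3294 0.9813 1.4836 0.7947 0.486 2.9488 8.695 0.7382 2.688 1.394 1.0455 0.6646 0.5011 1.3093 3.539 0.7701 1.7057 2.819 3.2426 0.003099 0.01282 0.00001138 0.0000003101 0.001237 0.0000003629 0.0000003101 0.0000003101 0.4777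
    hβ hN hx1 hx2 hy1 hy2 (by norm_num) (by norm_num) (by linarith) (by norm_num) (by norm_num) (by norm_num) (by norm_num) (by norm_num) (by norm_num) (by norm_num) (by norm_num) (by norm_num) (by norm_num) (by norm_num) (by norm_num) (by norm_num) (by norm_num) (by norm_num) (by norm_num) (by norm_num) (by norm_num) (by norm_num) (by norm_num) (by norm_num)
    (cube_sqrt_geJ (s := 0.8682) (by norm_num) (by norm_num) (by norm_num) (by norm_num))
    (cube_sqrt_geJ (s := 0.9537) (by norm_num) (by norm_num) (by norm_num) (by norm_num))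
    (by norm_num) (by norm_num) (by norm_num) (by norm_num) (by norm_num) (by norm_num) (by norm_num) (by norm_num) (by norm_num) (by norm_num) (by norm_num) (by norm_num) (by norm_num) (by norm_num) (by norm_num) (by norm_num) (by norm_num) (by norm_num)
    (exp_neg_leJ (r := 0.778) 5 (by norm_num) (by norm_num) (by norm_num) (by norm_num))
    (exp_neg_leJ (r := 0.357) 4 (by norm_num) (by norm_num) (by norm_num) (by norm_num))
    (exp_neg_leJ (r := 0.384) 11 (by norm_num) (by norm_num) (by norm_num) (by norm_num))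
    (exp_neg_leJ (r := 0.99) 14 (by norm_num) (by norm_num) (by norm_num) (by norm_num))
    (exp_neg_leJ (r := 0.696) 6 (by norm_num) (by norm_num) (by norm_num) (by norm_num))
    (exp_neg_leJ (r := 0.831) 14 (by norm_num) (by norm_num) (by norm_num) (by norm_num))
    (exp_neg_leJ (r := 0.99) 14 (by norm_num) (by norm_num) (by norm_num) (by norm_num))
    (exp_neg_leJ (r := 0.99) 14 (by norm_num) (by norm_num) (by norm_num) (by norm_num))
    (by norm_num)) (by norm_num) hN hβ.le (by norm_num)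

private theorem B5Io_T2_0_1 {β x y : ℝ} (hβ : 0 < β) (hN : β * 8.695 ≤ 1) (hx1 : 0.974 ≤ x) (hx2 : x ≤ 1.071)
    (hy1 : -0 ≤ y) (hy2 : y ≤ 0.1191) : ‖HH β (x + y * I) - 1‖ ≤ 0.055 := by
  refine le_epsJ (C := 0.4779) (N0 := 8.695) (J_boxp 0.974 1.071 0 0.1191 0.1191 1.3958 1.0777 1.5491 0.7548 0.4966 2.9488 8.695 0.7722 2.834 1.416 1.0081 0.6978 0.5182 1.3416 3.483 0.8159 1.8364 3.0078 3.1693 0.002319 0.01106 0.000008595 0.0000003101 0.0008301 0.0000003101 0.0000003101 0.0000003101 0.4779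
    hβ hN hx1 hx2 hy1 hy2 (by norm_num) (by norm_num) (by linarith) (by norm_num) (by norm_num) (by norm_num) (by norm_num) (by norm_num) (by norm_num) (by norm_num) (by norm_num) (by norm_num) (by norm_num) (by norm_num) (by norm_num) (by norm_num) (by norm_num) (by norm_num) (by norm_num) (by norm_num) (by norm_num) (by norm_num) (by norm_num) (by norm_num)
    (cube_sqrt_geJ (s := 0.8617) (by norm_num) (by norm_num) (by norm_num) (by norm_num))
    (cube_sqrt_geJ (s := 0.9515) (by norm_num) (by norm_num) (by norm_num) (by norm_num))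
    (by norm_num) (by norm_num) (by norm_num) (by norm_num) (by norm_num) (by norm_num) (by norm_num) (by norm_num) (by norm_num) (by norm_num) (by norm_num) (by norm_num) (by norm_num) (by norm_num) (by norm_num) (by norm_num) (by norm_num) (by norm_num)
    (exp_neg_leJ (r := 0.067) 6 (by norm_num) (by norm_num) (by norm_num) (by norm_num))
    (exp_neg_leJ (r := 0.505) 4 (by norm_num) (by norm_num) (by norm_num) (by norm_num))
    (exp_neg_leJ (r := 0.665) 11 (by norm_num) (by norm_num) (by norm_num) (by norm_num))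
    (exp_neg_leJ (r := 0.99) 14 (by norm_num) (by norm_num) (by norm_num) (by norm_num))
    (exp_neg_leJ (r := 0.094) 7 (by norm_num) (by norm_num) (by norm_num) (by norm_num))
    (exp_neg_leJ (r := 0.99) 14 (by norm_num) (by norm_num) (by norm_num) (by norm_num))
    (exp_neg_leJ (r := 0.99) 14 (by norm_num) (by norm_num) (by norm_num) (by norm_num))
    (exp_neg_leJ (r := 0.99) 14 (by norm_num) (by norm_num) (by norm_num) (by norm_num))
    (by norm_num)) (by norm_num) hN hβ.le (by norm_num)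

private theorem B5Io_T2_0_2 {β x y : ℝ} (hβ : 0 < β) (hN : β * 8.695 ≤ 1) (hx1 : 1.071 ≤ x) (hx2 : x ≤ 1.1158)
    (hy1 : -0 ≤ y) (hy2 : y ≤ 0.1191) : ‖HH β (x + y * I) - 1‖ ≤ 0.055 := by
  refine le_epsJ (C := 0.4265) (N0 := 8.695) (J_boxp 1.071 1.1158 0 0.1191 0.1191 1.4641 1.1222 1.5804 0.7097 0.5016 2.9488 8.695 0.7665 2.809 1.412 0.9909 0.732 0.545 1.3748 3.4572 0.863 1.9707 3.2018 3.2424 0.001723 0.008765 0.00000646 0.0000003101 0.0005516 0.0000003101 0.0000003101 0.0000003101 0.4265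
    hβ hN hx1 hx2 hy1 hy2 (by norm_num) (by norm_num) (by linarith) (by norm_num) (by norm_num) (by norm_num) (by norm_num) (by norm_num) (by norm_num) (by norm_num) (by norm_num) (by norm_num) (by norm_num) (by norm_num) (by norm_num) (by norm_num) (by norm_num) (by norm_num) (by norm_num) (by norm_num) (by norm_num) (by norm_num) (by norm_num) (by norm_num)
    (cube_sqrt_geJ (s := 0.8628) (by norm_num) (by norm_num) (by norm_num) (by norm_num))
    (cube_sqrt_geJ (s := 0.9519) (by norm_num) (by norm_num) (by norm_num) (by norm_num))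
    (by norm_num) (by norm_num) (by norm_num) (by norm_num) (by norm_num) (by norm_num) (by norm_num) (by norm_num) (by norm_num) (by norm_num) (by norm_num) (by norm_num) (by norm_num) (by norm_num) (by norm_num) (by norm_num) (by norm_num) (by norm_num)
    (exp_neg_leJ (r := 0.364) 6 (by norm_num) (by norm_num) (by norm_num) (by norm_num))
    (exp_neg_leJ (r := 0.738) 4 (by norm_num) (by norm_num) (by norm_num) (by norm_num))
    (exp_neg_leJ (r := 0.953) 11 (by norm_num) (by norm_num) (by norm_num) (by norm_num))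
    (exp_neg_leJ (r := 0.99) 14 (by norm_num) (by norm_num) (by norm_num) (by norm_num))
    (exp_neg_leJ (r := 0.503) 7 (by norm_num) (by norm_num) (by norm_num) (by norm_num))
    (exp_neg_leJ (r := 0.99) 14 (by norm_num) (by norm_num) (by norm_num) (by norm_num))
    (exp_neg_leJ (r := 0.99) 14 (by norm_num) (by norm_num) (by norm_num) (by norm_num))
    (exp_neg_leJ (r := 0.99) 14 (by norm_num) (by norm_num) (by norm_num) (by norm_num))
    (by norm_num)) (by norm_num) hN hβ.le (by norm_num)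

private theorem B5Io_T2 {β x y : ℝ} (hβ : 0 < β) (hN : β * 8.695 ≤ 1) (hx1 : 0.8796 ≤ x) (hx2 : x ≤ 1.1158)
    (hy1 : 0.0299 ≤ y) (hy2 : y ≤ 0.1191) : ‖HH β (x + y * I) - 1‖ ≤ 0.055 := by
  rcases le_total x 0.974 with hxx | hxx
  · exact B5Io_T2_0_0 hβ hN (by linarith) (by linarith) (by linarith) (by linarith)
  rcases le_total x 1.071 with hxx | hxx
  · exact B5Io_T2_0_1 hβ hN (by linarith) (by linarith) (by linarith) (by linarith)
  exact B5Io_T2_0_2 hβ hN (by linarith) (by linarith) (by linarith) (by linarith)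

private theorem B5Io_G3 {κ : ℝ} (hk1 : 1 ≤ κ) (hk2 : κ ≤ 1.15) : gG κ 0.38 ≤ 1.19909 ∧ 0.41727 ≤ Real.exp (-(κ * 0.38)) ^ 2 := by
  refine ⟨gG_le 0.38 1 1.15 1.19909 0.68387 0.64598 1.46229 1.54806 hk1 hk2 (by norm_num)
    (ex_um 0.38 (by norm_num) (by norm_num) (by norm_num) (by norm_num)) (ex_um 0.437 (by norm_num) (by norm_num) (by norm_num) (by norm_num))
    (ex_up 0.38 (by norm_num) (by norm_num) (by norm_num) (by norm_num)) (ex_up 0.437 (by norm_num) (by norm_num) (by norm_num) (by norm_num))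
    (by norm_num) (by norm_num), ?_⟩
  exact v5_M 0.64597 (ex_lm 0.437 (by linarith) (by norm_num) (by norm_num) (by norm_num) (by norm_num)) (by norm_num) (by norm_num)

private theorem B5Io_C4 {β r t κ : ℝ} (hβ : 0 < β) (hr : 10 ≤ r) (hκ : κ = β * r) (hk1 : 1 ≤ κ) (hk2 : κ ≤ 1.15) (hta : 1.3194 ≤ t + κ)
    (htb : t + κ ≤ 1.5077) : ‖F (cexp (I * β)) (r * cexp (I * ((t + β / 2 : ℝ) : ℂ)))‖ ≤
      1.7192 * Real.exp (r * (1.19909 - 0.38 * (t + κ))) + 0.2131 * Real.exp (r * 0) :=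
  v5_H 0.38 1 1.15 1.3194 1.5077 1.19909 1.6946 0.41727 0.1353 1.74 1.0629 0.16518 0.1926 0.00000123 1.7192 0.2131 hβ hr hκ (by norm_num) hk1 hk2 hta htb (by norm_num) (B5Io_G3 hk1 hk2).1 (B5Io_G3 hk1 hk2).2 (by norm_num) (by norm_num) (by norm_num)
    (by norm_num) (by norm_num) (by norm_num) (by norm_num) (by norm_num) (by norm_num) (by norm_num) (by norm_num) (ex_un 1 0.6517 (by norm_num) (by norm_num) (by norm_num) (by norm_num))
    (v5_hump 2.2282 8.695 2.9488 0.0000009316 0.00000123 hβ hr hκ hk1 hk2 (by norm_num) htb (by norm_num) (by norm_num) (by norm_num) (by norm_num) (by norm_num) (by norm_num) (by norm_num) (ex_un 13 0.9 (by norm_num) (by norm_num) (by norm_num) (by norm_num)) (by norm_num)) (by norm_num) (by norm_num)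

private theorem B5Io_G5 {κ : ℝ} (hk1 : 1 ≤ κ) (hk2 : κ ≤ 1.15) : gG κ (-0.71) ≤ 1.55848 ∧ 4.13703 ≤ Real.exp (-(κ * (-0.71))) ^ 2 := by
  refine ⟨gG_le (-0.71) 1 1.15 1.55848 2.034 2.26257 0.49165 0.44199 hk1 hk2 (by norm_num)
    (ex_up 0.71 (by norm_num) (by norm_num) (by norm_num) (by norm_num)) (ex_up 0.8165 (by norm_num) (by norm_num) (by norm_num) (by norm_num))
    (ex_um 0.71 (by norm_num) (by norm_num) (by norm_num) (by norm_num)) (ex_um 0.8165 (by norm_num) (by norm_num) (by norm_num) (by norm_num))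
    (by norm_num) (by norm_num), ?_⟩
  exact v5_M 2.03397 (ex_lp 0.71 (by linarith) (by norm_num) (by norm_num)) (by norm_num) (by norm_num)

private theorem B5Io_C6 {β r t κ : ℝ} (hβ : 0 < β) (hr : 10 ≤ r) (hκ : κ = β * r) (hk1 : 1 ≤ κ) (hk2 : κ ≤ 1.15) (hta : (-2.4505) ≤ t + κ)
    (htb : t + κ ≤ (-2.2622)) : ‖F (cexp (I * β)) (r * cexp (I * ((t + β / 2 : ℝ) : ℂ)))‖ ≤
      0.8872 * Real.exp (r * (1.55848 - (-0.71) * (t + κ))) + 1.8877 * Real.exp (r * 0.0501) :=
  v5_HU (-0.71) 1 1.15 (-2.4505) (-2.2622) 1.55848 0.8872 4.13703 0.1353 0.7653 1.1114 0 0.0501 0.00000123 1.8877 hβ hr hκ (by norm_num) hk1 hk2 hta htb (by norm_num) (by norm_num) (B5Io_G5 hk1 hk2).1 (B5Io_G5 hk1 hk2).2 (by norm_num) (by norm_num) (by norm_num)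
    (by norm_num) (by norm_num) (by norm_num) (by norm_num) (by norm_num) (by norm_num) (by norm_num)
    (by norm_num) (by norm_num) (by norm_num) (v5_hump 5.9981 8.695 2.9488 0.0000009316 0.00000123 hβ hr hκ hk1 hk2 (by norm_num) htb (by norm_num) (by norm_num) (by norm_num) (by norm_num) (by norm_num) (by norm_num) (by norm_num) (ex_un 13 0.9 (by norm_num) (by norm_num) (by norm_num) (by norm_num)) (by norm_num)) (by norm_num)

private theorem B5Io_C7 {β r t κ : ℝ} (hβ : 0 < β) (hr : 10 ≤ r) (hκ : κ = β * r) (hk1 : 1 ≤ κ) (hk2 : κ ≤ 1.15) (hta : 2.576 ≤ t + κ)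
    (htb : t + κ ≤ 2.7643) : ‖F (cexp (I * β)) (r * cexp (I * ((t + β / 2 : ℝ) : ℂ)))‖ ≤
      4.0398 * Real.exp (r * (0.19 + 1 / 20)) :=
  v5_UD 1 1.15 2.576 2.7643 0.19 0.399 0.19 2.1061 4.0398 hβ hr hκ (by norm_num) hk1 hk2 hta htb (by norm_num) (by norm_num) (by norm_num) (by norm_num) (by norm_num) (by norm_num) (by norm_num) (by norm_num) (by norm_num) (by norm_num) (by norm_num)

private theorem B5Io_Y8 {β r t κ h t' : ℝ} (hβ : 0 < β) (hκ : κ = β * r) (hN : β * 8.695 ≤ 1) (hk1 : 1 ≤ κ) (hk2 : κ ≤ 1.15)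
    (ht : t' = t + (((1 : ℤ) : ℝ) - 1) * h) (hD : DomR κ t') (hta : 0.0628 ≤ t' + κ) (htb : t' + κ ≤ 0.251) :
    0.7669 * Real.exp (r * sE κ t') ≤ ‖Xf β r h t 1‖ := by
  obtain ⟨⟨ya, yb⟩, ⟨xa, xb⟩, n1, Da, Db⟩ := B5Io_B1 hD hk1 hk2 hta htb
  have J := B5Io_T2 (x := sx κ t') (y := sy κ t') hβ hN (by linarith only [xa, xb, ya, yb]) (by linarith only [xa, xb, ya, yb]) (by linarith only [xa, xb, ya, yb]) (by linarith only [xa, xb, ya, yb])
  exact v5_Jlo hβ hκ (k := 1) ht hD 0.055 2.3055 0.7669 (by norm_num) J Db (by norm_num)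

private theorem B5Io_V9 {κ t : ℝ} (hD : DomR κ t) (hk1 : 1 ≤ κ) (hk2 : κ ≤ 1.15) (hta : 0.0628 ≤ t + κ) (htb : t + κ ≤ 0.251) :
    1.0038 - 0.0762 * (t + κ) ≤ sE κ t := by
  have hκ0 : 0 < κ := hD.1
  exact v5_V1 hD 1 1.15 0.0628 0.251 0.05379 0.16667 0.32152 1.0038 0.0762 (by norm_num) hk1 hk2 (by norm_num) (by norm_num) hta htb (by norm_num) (clo5 1 1.15 0.32152 (by norm_num) hk1 hk2 (by norm_num) (by norm_num) (by norm_num))
      ((cup2 1 (by norm_num) hk1).trans (by norm_num)) (by norm_num) (by norm_num) (by norm_num) (by norm_num) (by norm_num) (by norm_num)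

private theorem B5Io_K10 {β r t κ h : ℝ} (hβ : 0 < β) (hr : 10 ≤ r) (hκ : κ = β * r) (hk1 : 1 ≤ κ) (hk2 : κ ≤ 1.15)
    (hh : h = 2 * Real.pi / 5) (hh1 : 1.25663 ≤ h) (hh2 : h ≤ 1.25664) (hta : 0.0628 ≤ t + κ) (htb : t + κ ≤ 0.251)
    (hY : 0.7669 * Real.exp (r * sE κ t) ≤ ‖Xf β r h t 1‖) (hV : 1.0038 - 0.0762 * (t + κ) ≤ sE κ t) :
    ‖Xf β r h t 2‖ ≤ 0.112 * ‖Xf β r h t 1‖ := by
  rw [v5_X 2 1 (by push_cast; ring)]
  exact v5_cmp 0.3013 0.04915 0.111 0.9846 0.00005356 0.0000149 0.112 hr (B5Io_C4 (t := t + 1 * h) hβ hr hκ hk1 hk2 (by linarith only [hta, htb, hh1, hh2]) (by linarith only [hta, htb, hh1, hh2])) hY (by norm_num) (by norm_num) (by norm_num) (by norm_num) (by linarith only [hV, hta, htb, hh1, hh2]) (ex_un 3 0.0129 (by norm_num) (by norm_num) (by norm_num) (by norm_num)) (by norm_num) (by norm_num) (by linarith only [hV, hta, htb, hh1, hh2]) (ex_un 9 0.8459 (by norm_num) (by norm_num) (by norm_num) (by norm_num)) (by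 norm_num) (by norm_num)

private theorem B5Io_K11 {β r t κ h : ℝ} (hβ : 0 < β) (hr : 10 ≤ r) (hκ : κ = β * r) (hk1 : 1 ≤ κ) (hk2 : κ ≤ 1.15)
    (hh : h = 2 * Real.pi / 5) (hh1 : 1.25663 ≤ h) (hh2 : h ≤ 1.25664) (hta : 0.0628 ≤ t + κ) (htb : t + κ ≤ 0.251)
    (hY : 0.7669 * Real.exp (r * sE κ t) ≤ ‖Xf β r h t 1‖) (hV : 1.0038 - 0.0762 * (t + κ) ≤ sE κ t) :
    ‖Xf β r h t (-1)‖ ≤ 0.000255 * ‖Xf β r h t 1‖ := by
  rw [v5_X (-1) (-2) (by push_cast; ring)]
  exact v5_cmp 1.0323 0.00003289 0.0000381 0.9345 0.00008745 0.000216 0.000255 hr (B5Io_C6 (t := t + (-2) * h) hβ hr hκ hk1 hk2 (by linarith only [hta, htb, hh1, hh2]) (by linarith only [hta, htb, hh1, hh2])) hY (by norm_num) (by norm_num) (by norm_num) (by norm_num) (by linarith only [hV, hta, htb, hh1, hh2]) (ex_un 10 0.3229 (by norm_num) (by norm_num) (by norm_num) (by norm_num)) (by norm_num) (by norm_num) (by linarith only [hV, hta, htb, hh1, hh2]) (ex_un 9 0.3449 (by norm_num)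 (by norm_num) (by norm_num) (by norm_num)) (by norm_num) (by norm_num)

private theorem B5Io_K12 {β r t κ h : ℝ} (hβ : 0 < β) (hr : 10 ≤ r) (hκ : κ = β * r) (hk1 : 1 ≤ κ) (hk2 : κ ≤ 1.15)
    (hh : h = 2 * Real.pi / 5) (hh1 : 1.25663 ≤ h) (hh2 : h ≤ 1.25664) (hta : 0.0628 ≤ t + κ) (htb : t + κ ≤ 0.251)
    (hY : 0.7669 * Real.exp (r * sE κ t) ≤ ‖Xf β r h t 1‖) (hV : 1.0038 - 0.0762 * (t + κ) ≤ sE κ t) :
    ‖Xf β r h t (-2)‖ ≤ 0.00308 * ‖Xf β r h t 1‖ := by
  rw [v5_Xm2 hh]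
  exact v5_cmp0 0.7446 0.0005846 0.00308 hr (B5Io_C7 (t := t + 2 * h) hβ hr hκ hk1 hk2 (by linarith only [hta, htb, hh1, hh2]) (by linarith only [hta, htb, hh1, hh2])) hY (by norm_num) (by norm_num) (by norm_num) (by linarith only [hV, hta, htb, hh1, hh2]) (ex_un 7 0.4459 (by norm_num) (by norm_num) (by norm_num) (by norm_num)) (by norm_num)

private theorem B5Io_G13 {κ : ℝ} (hk1 : 1 ≤ κ) (hk2 : κ ≤ 1.15) : gG κ (-0.47) ≤ 1.24114 ∧ 2.55996 ≤ Real.exp (-(κ * (-0.47))) ^ 2 := by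
  refine ⟨gG_le (-0.47) 1 1.15 1.24114 1.6 1.71687 0.62501 0.58246 hk1 hk2 (by norm_num)
    (ex_up 0.47 (by norm_num) (by norm_num) (by norm_num) (by norm_num)) (ex_up 0.5405 (by norm_num) (by norm_num) (by norm_num) (by norm_num))
    (ex_um 0.47 (by norm_num) (by norm_num) (by norm_num) (by norm_num)) (ex_um 0.5405 (by norm_num) (by norm_num) (by norm_num) (by norm_num))
    (by norm_num) (by norm_num), ?_⟩
  exact v5_M 1.59999 (ex_lp 0.47 (by linarith) (by norm_num) (by norm_num)) (by norm_num) (by norm_num)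

private theorem B5Io_C14 {β r t κ : ℝ} (hβ : 0 < β) (hr : 10 ≤ r) (hκ : κ = β * r) (hk1 : 1 ≤ κ) (hk2 : κ ≤ 1.15) (hta : (-1.1939) ≤ t + κ)
    (htb : t + κ ≤ (-1.0056)) : ‖F (cexp (I * β)) (r * cexp (I * ((t + β / 2 : ℝ) : ℂ)))‖ ≤
      0.9904 * Real.exp (r * (1.24114 - (-0.47) * (t + κ))) + 1.6119 * Real.exp (r * 0.0501) :=
  v5_HU (-0.47) 1 1.15 (-1.1939) (-1.0056) 1.24114 0.9904 2.55996 0.1353 0.7653 2.368 0 0.0501 0.00000123 1.6119 hβ hr hκ (by norm_num) hk1 hk2 hta htb (by norm_num) (by norm_num) (B5Io_G13 hk1 hk2).1 (B5Io_G13 hk1 hk2).2 (by norm_num) (by norm_num) (by norm_num)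
    (by norm_num) (by norm_num) (by norm_num) (by norm_num) (by norm_num) (by norm_num) (by norm_num)
    (by norm_num) (by norm_num) (by norm_num) (v5_hump 4.7415 8.695 2.9488 0.0000009316 0.00000123 hβ hr hκ hk1 hk2 (by norm_num) htb (by norm_num) (by norm_num) (by norm_num) (by norm_num) (by norm_num) (by norm_num) (by norm_num) (ex_un 13 0.9 (by norm_num) (by norm_num) (by norm_num) (by norm_num)) (by norm_num)) (by norm_num)

private theorem B5Io_K15 {β r t κ h : ℝ} (hβ : 0 < β) (hr : 10 ≤ r) (hκ : κ = β * r) (hk1 : 1 ≤ κ) (hk2 : κ ≤ 1.15)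
    (hh : h = 2 * Real.pi / 5) (hh1 : 1.25663 ≤ h) (hh2 : h ≤ 1.25664) (hta : 0.0628 ≤ t + κ) (htb : t + κ ≤ 0.251)
    (hY : 0.7669 * Real.exp (r * sE κ t) ≤ ‖Xf β r h t 1‖) (hV : 1.0038 - 0.0762 * (t + κ) ≤ sE κ t) :
    ‖Xf β r h t 0‖ ≤ 0.15 * ‖Xf β r h t 1‖ := by
  rw [v5_X 0 (-1) (by push_cast; ring)]
  exact v5_cmp 0.2161 0.1153 0.149 0.9345 0.00008745 0.000184 0.15 hr (B5Io_C14 (t := t + (-1) * h) hβ hr hκ hk1 hk2 (by linarith only [hta, htb, hh1, hh2]) (by linarith only [hta, htb, hh1, hh2])) hY (by norm_num) (by norm_num) (by norm_num) (by norm_num) (by linarith only [hV, hta, htb, hh1, hh2]) (ex_un 2 0.1609 (by norm_num) (by norm_num) (by norm_num) (by norm_num)) (by norm_num) (by norm_num) (by linarith only [hV, hta, htb, hh1, hh2]) (ex_un 9 0.3449 (by norm_num) (by norm_num) (by norm_num) (by norm_num)) (by norm_num) (by norm_num)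

private theorem B5Io_O16 {β r t κ h : ℝ} (hβ : 0 < β) (hr : 10 ≤ r) (hκ : κ = β * r) (hk1 : 1 ≤ κ) (hk2 : κ ≤ 1.15)
    (hh : h = 2 * Real.pi / 5) (hta : 0.0628 ≤ t + κ) (htb : t + κ ≤ 0.251) :
    ‖Xf β r h t (-2)‖ + ‖Xf β r h t (-1)‖ + ‖Xf β r h t 2‖ < |‖Xf β r h t 1‖ - ‖Xf β r h t 0‖| := by
  obtain ⟨hh1, hh2⟩ := v5_h hh
  have hκ0 : 0 < κ := by linarith only [hk1]
  have hN : β * 8.695 ≤ 1 := v5_hN 1.15 8.695 hβ hr hκ hk2 (by norm_num) (by norm_num)
  have hD1 : DomR κ t := v5_dom hκ0 (by linarith only [hta, htb, hk1, hk2, hh1, hh2]) (Or.inr (by linarith only [hta, htb, hk1, hk2, hh1, hh2]))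
  have e1 : t = t + (((1 : ℤ) : ℝ) - 1) * h := by push_cast; ring
  have hY := B5Io_Y8 (h := h) hβ hκ hN hk1 hk2 e1 hD1 hta htb
  have hV := B5Io_V9 hD1 hk1 hk2 hta htb
  have cp2 := B5Io_K10 hβ hr hκ hk1 hk2 hh hh1 hh2 hta htb hY hV
  have cm1 := B5Io_K11 hβ hr hκ hk1 hk2 hh hh1 hh2 hta htb hY hV
  have cm2 := B5Io_K12 hβ hr hκ hk1 hk2 hh hh1 hh2 hta htb hY hV
  have cn0 := B5Io_K15 hβ hr hκ hk1 hk2 hh hh1 hh2 hta htb hY hV
  have hp : 0 < ‖Xf β r h t 1‖ := lt_of_lt_of_le (by positivity) hY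
  exact v5_out1 _ _ _ _ cm2 cm1 cp2 cn0 hp (by norm_num)

private theorem B5Io_B17 {κ t : ℝ} (h : DomR κ t) (hk1 : 1 ≤ κ) (hk2 : κ ≤ 1.15) (ht1 : 0.251 ≤ t + κ) (ht2 : t + κ ≤ 0.415) :
    (0.117 ≤ sy κ t ∧ sy κ t ≤ 0.189) ∧ (0.8058 ≤ sx κ t ∧ sx κ t ≤ 1.0164) ∧ κ * Real.exp (-sy κ t) ≤ 1.0231 ∧ 2.0253 ≤ sD κ t ∧ sD κ t ≤ 2.2843 := by
  have hy1 : 0.117 ≤ sy κ t := syR_ge h 1 1.15 0.251 0.117 1.12411 1.12412 0.11436 0.13153 hk1 hk2 (by linarith) (by norm_num) (by norm_num)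
    (expn_ge (by norm_num) (by norm_num)) (expn_le (by norm_num) (by norm_num) (by norm_num)) (by norm_num)
    (by norm_num) (by norm_num) (by norm_num) (by norm_num) (by norm_num) (by norm_num)
  have hy2 : sy κ t ≤ 0.189 := syR_le h 1 1.15 0.415 0.189 1.20804 0.191 0.19853 0.22833 hk1 hk2 (by linarith) (by norm_num) (by norm_num)
    (expn_ge (by norm_num) (by norm_num)) (by norm_num) (by norm_num) (Or.inr ((mul_le_mul_of_nonneg_left (expn_le (E := 1.20805) (by norm_num) (by norm_num) (by norm_num)) (by norm_num)).trans (by norm_num))) (by norm_num) (by norm_num) (by norm_num)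
  have hy1' : 0.117 ≤ sy κ t := by linarith
  have hy2' : sy κ t ≤ 0.189 := by linarith
  have hx1 : 0.8058 ≤ sx κ t := sx_lo h 1 0.189 0.1891 0.82778 0.8058 hk1 (by norm_num) hy2' (abs_le.2 ⟨by linarith, by linarith⟩) (ex_lm 0.189 (by norm_num) (by norm_num) (by norm_num) (by norm_num) (by norm_num)) (by norm_num) (by norm_num)
  have hx2 : sx κ t ≤ 1.0164 := sx_hi h 1.15 0.117 0.117 0.88959 1.0164 hk2 hy1' (by norm_num) (le_trans (by linarith) (le_abs_self _)) (ex_um 0.117 (by norm_num) (by norm_num) (by norm_num) (by norm_num)) (by norm_num) (by norm_num)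
  refine ⟨⟨hy1', hy2'⟩, ⟨hx1, hx2⟩, v5_n h 1.15 0.117 0.88959 1.0231 hk2 hy1' (ex_um 0.117 (by norm_num) (by norm_num) (by norm_num) (by norm_num)) (by norm_num), ?_, ?_⟩
  · exact v5_Dlo h 1 0.117 0.189 0.117 0.88958 2.0253 (by norm_num) hk1 hy1' hy2' (ex_lm 0.117 (by norm_num) (by norm_num) (by norm_num) (by norm_num) (by norm_num)) (by norm_num) (by norm_num) (by norm_num) (by norm_num)
  · exact v5_Dup h 1.15 0.117 0.189 0.88959 0.82779 2.2843 hk2 hy1' hy2' (ex_um 0.117 (by norm_num) (by norm_num) (by norm_num) (by norm_num)) (ex_um 0.189 (by norm_num) (by norm_num) (by norm_num) (by norm_num)) (by norm_num) (by norm_num) (by norm_num)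

private theorem B5Io_T18_0_0 {β x y : ℝ} (hβ : 0 < β) (hN : β * 8.695 ≤ 1) (hx1 : 0.8057 ≤ x) (hx2 : x ≤ 0.876)
    (hy1 : -0 ≤ y) (hy2 : y ≤ 0.1891) : ‖HH β (x + y * I) - 1‖ ≤ 0.055 := by
  refine le_epsJ (C := 0.4775) (N0 := 8.695) (J_boxp 0.8057 0.876 0 0.1891 0.1891 1.2773 0.8962 1.477 0.8419 0.4849 2.9488 8.695 0.7017 2.542 1.37 1.0831 0.6386 0.4892 1.284 3.5921 0.727 1.5962 2.371 2.9963 0.003881 0.01423 0.00001418 0.0000003101 0.001799 0.0000009415 0.0000003101 0.0000003101 0.4775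
    hβ hN hx1 hx2 hy1 hy2 (by norm_num) (by norm_num) (by linarith) (by norm_num) (by norm_num) (by norm_num) (by norm_num) (by norm_num) (by norm_num) (by norm_num) (by norm_num) (by norm_num) (by norm_num) (by norm_num) (by norm_num) (by norm_num) (by norm_num) (by norm_num) (by norm_num) (by norm_num) (by norm_num) (by norm_num) (by norm_num) (by norm_num)
    (cube_sqrt_geJ (s := 0.8752) (by norm_num) (by norm_num) (by norm_num) (by norm_num))
    (cube_sqrt_geJ (s := 0.956) (by norm_num) (by norm_num) (by norm_num) (by norm_num))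
    (by norm_num) (by norm_num) (by norm_num) (by norm_num) (by norm_num) (by norm_num) (by norm_num) (by norm_num) (by norm_num) (by norm_num) (by norm_num) (by norm_num) (by norm_num) (by norm_num) (by norm_num) (by norm_num) (by norm_num) (by norm_num)
    (exp_neg_leJ (r := 0.552) 5 (by norm_num) (by norm_num) (by norm_num) (by norm_num))
    (exp_neg_leJ (r := 0.253) 4 (by norm_num) (by norm_num) (by norm_num) (by norm_num))
    (exp_neg_leJ (r := 0.164) 11 (by norm_num) (by norm_num) (by norm_num) (by norm_num))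
    (exp_neg_leJ (r := 0.99) 14 (by norm_num) (by norm_num) (by norm_num) (by norm_num))
    (exp_neg_leJ (r := 0.321) 6 (by norm_num) (by norm_num) (by norm_num) (by norm_num))
    (exp_neg_leJ (r := 0.878) 13 (by norm_num) (by norm_num) (by norm_num) (by norm_num))
    (exp_neg_leJ (r := 0.99) 14 (by norm_num) (by norm_num) (by norm_num) (by norm_num))
    (exp_neg_leJ (r := 0.99) 14 (by norm_num) (by norm_num) (by norm_num) (by norm_num))
    (by norm_num)) (by norm_num) hN hβ.le (by norm_num)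

private theorem B5Io_T18_0_1 {β x y : ℝ} (hβ : 0 < β) (hN : β * 8.695 ≤ 1) (hx1 : 0.876 ≤ x) (hx2 : x ≤ 0.951)
    (hy1 : -0 ≤ y) (hy2 : y ≤ 0.1891) : ‖HH β (x + y * I) - 1‖ ≤ 0.055 := by
  refine le_epsJ (C := 0.4775) (N0 := 8.695) (J_boxp 0.876 0.951 0 0.1891 0.1891 1.3268 0.9697 1.5227 0.8075 0.4923 2.9488 8.695 0.7309 2.658 1.389 1.0543 0.6633 0.5017 1.3081 3.5492 0.7612 1.6936 2.5116 2.9371 0.003133 0.01276 0.00001151 0.0000003101 0.001337 0.0000004032 0.0000003101 0.0000003101 0.4775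
    hβ hN hx1 hx2 hy1 hy2 (by norm_num) (by norm_num) (by linarith) (by norm_num) (by norm_num) (by norm_num) (by norm_num) (by norm_num) (by norm_num) (by norm_num) (by norm_num) (by norm_num) (by norm_num) (by norm_num) (by norm_num) (by norm_num) (by norm_num) (by norm_num) (by norm_num) (by norm_num) (by norm_num) (by norm_num) (by norm_num) (by norm_num)
    (cube_sqrt_geJ (s := 0.8696) (by norm_num) (by norm_num) (by norm_num) (by norm_num))
    (cube_sqrt_geJ (s := 0.9542) (by norm_num) (by norm_num) (by norm_num) (by norm_num))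
    (by norm_num) (by norm_num) (by norm_num) (by norm_num) (by norm_num) (by norm_num) (by norm_num) (by norm_num) (by norm_num) (by norm_num) (by norm_num) (by norm_num) (by norm_num) (by norm_num) (by norm_num) (by norm_num) (by norm_num) (by norm_num)
    (exp_neg_leJ (r := 0.767) 5 (by norm_num) (by norm_num) (by norm_num) (by norm_num))
    (exp_neg_leJ (r := 0.362) 4 (by norm_num) (by norm_num) (by norm_num) (by norm_num))
    (exp_neg_leJ (r := 0.373) 11 (by norm_num) (by norm_num) (by norm_num) (by norm_num))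
    (exp_neg_leJ (r := 0.99) 14 (by norm_num) (by norm_num) (by norm_num) (by norm_num))
    (exp_neg_leJ (r := 0.618) 6 (by norm_num) (by norm_num) (by norm_num) (by norm_num))
    (exp_neg_leJ (r := 0.725) 14 (by norm_num) (by norm_num) (by norm_num) (by norm_num))
    (exp_neg_leJ (r := 0.99) 14 (by norm_num) (by norm_num) (by norm_num) (by norm_num))
    (exp_neg_leJ (r := 0.99) 14 (by norm_num) (by norm_num) (by norm_num) (by norm_num))
    (by norm_num)) (by norm_num) hN hβ.le (by norm_num)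

private theorem B5Io_T18_0_2 {β x y : ℝ} (hβ : 0 < β) (hN : β * 8.695 ≤ 1) (hx1 : 0.951 ≤ x) (hx2 : x ≤ 1.0165)
    (hy1 : -0 ≤ y) (hy2 : y ≤ 0.1891) : ‖HH β (x + y * I) - 1‖ ≤ 0.055 := by
  refine le_epsJ (C := 0.4642) (N0 := 8.695) (J_boxp 0.951 1.0165 0 0.1891 0.1891 1.3796 1.034 1.5644 0.7719 0.499 2.9488 8.695 0.7495 2.736 1.401 1.0291 0.6897 0.5174 1.3338 3.5116 0.7976 1.7974 2.6616 2.9123 0.002513 0.01114 0.000009198 0.0000003101 0.0009759 0.0000003101 0.0000003101 0.0000003101 0.4642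
    hβ hN hx1 hx2 hy1 hy2 (by norm_num) (by norm_num) (by linarith) (by norm_num) (by norm_num) (by norm_num) (by norm_num) (by norm_num) (by norm_num) (by norm_num) (by norm_num) (by norm_num) (by norm_num) (by norm_num) (by norm_num) (by norm_num) (by norm_num) (by norm_num) (by norm_num) (by norm_num) (by norm_num) (by norm_num) (by norm_num) (by norm_num)
    (cube_sqrt_geJ (s := 0.8661) (by norm_num) (by norm_num) (by norm_num) (by norm_num))
    (cube_sqrt_geJ (s := 0.953) (by norm_num) (by norm_num) (by norm_num) (by norm_num))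
    (by norm_num) (by norm_num) (by norm_num) (by norm_num) (by norm_num) (by norm_num) (by norm_num) (by norm_num) (by norm_num) (by norm_num) (by norm_num) (by norm_num) (by norm_num) (by norm_num) (by norm_num) (by norm_num) (by norm_num) (by norm_num)
    (exp_neg_leJ (r := 0.99) 5 (by norm_num) (by norm_num) (by norm_num) (by norm_num))
    (exp_neg_leJ (r := 0.498) 4 (by norm_num) (by norm_num) (by norm_num) (by norm_num))
    (exp_neg_leJ (r := 0.597) 11 (by norm_num) (by norm_num) (by norm_num) (by norm_num))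
    (exp_neg_leJ (r := 0.99) 14 (by norm_num) (by norm_num) (by norm_num) (by norm_num))
    (exp_neg_leJ (r := 0.935) 6 (by norm_num) (by norm_num) (by norm_num) (by norm_num))
    (exp_neg_leJ (r := 0.99) 14 (by norm_num) (by norm_num) (by norm_num) (by norm_num))
    (exp_neg_leJ (r := 0.99) 14 (by norm_num) (by norm_num) (by norm_num) (by norm_num))
    (exp_neg_leJ (r := 0.99) 14 (by norm_num) (by norm_num) (by norm_num) (by norm_num))
    (by norm_num)) (by norm_num) hN hβ.le (by norm_num)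

private theorem B5Io_T18 {β x y : ℝ} (hβ : 0 < β) (hN : β * 8.695 ≤ 1) (hx1 : 0.8057 ≤ x) (hx2 : x ≤ 1.0165)
    (hy1 : 0.1169 ≤ y) (hy2 : y ≤ 0.1891) : ‖HH β (x + y * I) - 1‖ ≤ 0.055 := by
  rcases le_total x 0.876 with hxx | hxx
  · exact B5Io_T18_0_0 hβ hN (by linarith) (by linarith) (by linarith) (by linarith)
  rcases le_total x 0.951 with hxx | hxx
  · exact B5Io_T18_0_1 hβ hN (by linarith) (by linarith) (by linarith) (by linarith)
  exact B5Io_T18_0_2 hβ hN (by linarith) (by linarith) (by linarith) (by linarith)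

private theorem B5Io_G19 {κ : ℝ} (hk1 : 1 ≤ κ) (hk2 : κ ≤ 1.15) : gG κ 0.4 ≤ 1.22396 ∧ 0.39851 ≤ Real.exp (-(κ * 0.4)) ^ 2 := by
  refine ⟨gG_le 0.4 1 1.15 1.22396 0.67033 0.63129 1.49183 1.58408 hk1 hk2 (by norm_num)
    (ex_um 0.4 (by norm_num) (by norm_num) (by norm_num) (by norm_num)) (ex_um 0.46 (by norm_num) (by norm_num) (by norm_num) (by norm_num))
    (ex_up 0.4 (by norm_num) (by norm_num) (by norm_num) (by norm_num)) (ex_up 0.46 (by norm_num) (by norm_num) (by norm_num) (by norm_num))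
    (by norm_num) (by norm_num), ?_⟩
  exact v5_M 0.63128 (ex_lm 0.46 (by linarith) (by norm_num) (by norm_num) (by norm_num) (by norm_num)) (by norm_num) (by norm_num)

private theorem B5Io_C20 {β r t κ : ℝ} (hβ : 0 < β) (hr : 10 ≤ r) (hκ : κ = β * r) (hk1 : 1 ≤ κ) (hk2 : κ ≤ 1.15) (hta : 1.5076 ≤ t + κ)
    (htb : t + κ ≤ 1.6717) : ‖F (cexp (I * β)) (r * cexp (I * ((t + β / 2 : ℝ) : ℂ)))‖ ≤
      1.7915 * Real.exp (r * (1.22396 - 0.4 * (t + κ))) + 0.2055 * Real.exp (r * 0) :=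
  v5_H 0.4 1 1.15 1.5076 1.6717 1.22396 1.7526 0.39851 0.1353 1.9282 0.8989 0.13563 0.2578 0.00000123 1.7915 0.2055 hβ hr hκ (by norm_num) hk1 hk2 hta htb (by norm_num) (B5Io_G19 hk1 hk2).1 (B5Io_G19 hk1 hk2).2 (by norm_num) (by norm_num) (by norm_num)
    (by norm_num) (by norm_num) (by norm_num) (by norm_num) (by norm_num) (by norm_num) (by norm_num) (by norm_num) (ex_un 1 0.3562 (by norm_num) (by norm_num) (by norm_num) (by norm_num))
    (v5_hump 2.0642 8.695 2.9488 0.0000009316 0.00000123 hβ hr hκ hk1 hk2 (by norm_num) htb (by norm_num) (by norm_num) (by norm_num) (by norm_num) (by norm_num) (by norm_num) (by norm_num) (ex_un 13 0.9 (by norm_num) (by norm_num) (by norm_num) (by norm_num)) (by norm_num)) (by norm_num) (by norm_num)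

private theorem B5Io_C21 {β r t κ : ℝ} (hβ : 0 < β) (hr : 10 ≤ r) (hκ : κ = β * r) (hk1 : 1 ≤ κ) (hk2 : κ ≤ 1.15) (hta : (-2.2623) ≤ t + κ)
    (htb : t + κ ≤ (-2.0982)) : ‖F (cexp (I * β)) (r * cexp (I * ((t + β / 2 : ℝ) : ℂ)))‖ ≤
      0.8872 * Real.exp (r * (1.55848 - (-0.71) * (t + κ))) + 1.8701 * Real.exp (r * 0.0501) :=
  v5_HU (-0.71) 1 1.15 (-2.2623) (-2.0982) 1.55848 0.8872 4.13703 0.1353 0.7653 1.2996 0 0.0501 0.00000123 1.8701 hβ hr hκ (by norm_num) hk1 hk2 hta htb (by norm_num) (by norm_num) (B5Io_G5 hk1 hk2).1 (B5Io_G5 hk1 hk2).2 (by norm_num) (by norm_num) (by norm_num)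
    (by norm_num) (by norm_num) (by norm_num) (by norm_num) (by norm_num) (by norm_num) (by norm_num)
    (by norm_num) (by norm_num) (by norm_num) (v5_hump 5.8341 8.695 2.9488 0.0000009316 0.00000123 hβ hr hκ hk1 hk2 (by norm_num) htb (by norm_num) (by norm_num) (by norm_num) (by norm_num) (by norm_num) (by norm_num) (by norm_num) (ex_un 13 0.9 (by norm_num) (by norm_num) (by norm_num) (by norm_num)) (by norm_num)) (by norm_num)

private theorem B5Io_C22 {β r t κ : ℝ} (hβ : 0 < β) (hr : 10 ≤ r) (hκ : κ = β * r) (hk1 : 1 ≤ κ) (hk2 : κ ≤ 1.15) (hta : 2.7642 ≤ t + κ)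
    (htb : t + κ ≤ 2.9283) : ‖F (cexp (I * β)) (r * cexp (I * ((t + β / 2 : ℝ) : ℂ)))‖ ≤
      3.603 * Real.exp (r * (0.01 + 1 / 20)) :=
  v5_UD 1 1.15 2.7642 2.9283 0.01 0.399 0.01 1.8784 3.603 hβ hr hκ (by norm_num) hk1 hk2 hta htb (by norm_num) (by norm_num) (by norm_num) (by norm_num) (by norm_num) (by norm_num) (by norm_num) (by norm_num) (by norm_num) (by norm_num) (by norm_num)

private theorem B5Io_Y23 {β r t κ h t' : ℝ} (hβ : 0 < β) (hκ : κ = β * r) (hN : β * 8.695 ≤ 1) (hk1 : 1 ≤ κ) (hk2 : κ ≤ 1.15)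
    (ht : t' = t + (((1 : ℤ) : ℝ) - 1) * h) (hD : DomR κ t') (hta : 0.251 ≤ t' + κ) (htb : t' + κ ≤ 0.415) :
    0.7686 * Real.exp (r * sE κ t') ≤ ‖Xf β r h t 1‖ := by
  obtain ⟨⟨ya, yb⟩, ⟨xa, xb⟩, n1, Da, Db⟩ := B5Io_B17 hD hk1 hk2 hta htb
  have J := B5Io_T18 (x := sx κ t') (y := sy κ t') hβ hN (by linarith only [xa, xb, ya, yb]) (by linarith only [xa, xb, ya, yb]) (by linarith only [xa, xb, ya, yb]) (by linarith only [xa, xb, ya, yb])
  exact v5_Jlo hβ hκ (k := 1) ht hD 0.055 2.2843 0.7686 (by norm_num) J Db (by norm_num)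

private theorem B5Io_V24 {κ t : ℝ} (hD : DomR κ t) (hk1 : 1 ≤ κ) (hk2 : κ ≤ 1.15) (hta : 0.251 ≤ t + κ) (htb : t + κ ≤ 0.415) :
    1.02429 - 0.158 * (t + κ) ≤ sE κ t := by
  have hκ0 : 0 < κ := hD.1
  exact v5_V1 hD 1 1.15 0.251 0.415 0.04998 0.16667 0.32152 1.02429 0.158 (by norm_num) hk1 hk2 (by norm_num) (by norm_num) hta htb (by norm_num) (clo5 1 1.15 0.32152 (by norm_num) hk1 hk2 (by norm_num) (by norm_num) (by norm_num))
      ((cup2 1 (by norm_num) hk1).trans (by norm_num)) (by norm_num) (by norm_num) (by norm_num) (by norm_num) (by norm_num) (by norm_num)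

private theorem B5Io_K25 {β r t κ h : ℝ} (hβ : 0 < β) (hr : 10 ≤ r) (hκ : κ = β * r) (hk1 : 1 ≤ κ) (hk2 : κ ≤ 1.15)
    (hh : h = 2 * Real.pi / 5) (hh1 : 1.25663 ≤ h) (hh2 : h ≤ 1.25664) (hta : 0.251 ≤ t + κ) (htb : t + κ ≤ 0.415)
    (hY : 0.7686 * Real.exp (r * sE κ t) ≤ ‖Xf β r h t 1‖) (hV : 1.02429 - 0.158 * (t + κ) ≤ sE κ t) :
    ‖Xf β r h t 2‖ ≤ 0.0618 * ‖Xf β r h t 1‖ := by
  rw [v5_X 2 1 (by push_cast; ring)]
  exact v5_cmp 0.3637 0.02645 0.0617 0.9587 0.00006884 0.0000185 0.0618 hr (B5Io_C20 (t := t + 1 * h) hβ hr hκ hk1 hk2 (by linarith only [hta, htb, hh1, hh2]) (by linarith only [hta, htb, hh1, hh2])) hY (by norm_num) (by norm_num) (by norm_num) (by norm_num) (by linarith only [hV, hta, htb, hh1, hh2]) (ex_un 3 0.6369 (by norm_num) (by norm_num) (by norm_num) (by norm_num)) (by norm_num) (by norm_num) (by linarith only [hV, hta, htb, hh1, hh2]) (ex_un 9 0.5869 (by norm_num) (by norm_num) (by norm_num) (by norm_num))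 (by norm_num) (by norm_num)

private theorem B5Io_K26 {β r t κ h : ℝ} (hβ : 0 < β) (hr : 10 ≤ r) (hκ : κ = β * r) (hk1 : 1 ≤ κ) (hk2 : κ ≤ 1.15)
    (hh : h = 2 * Real.pi / 5) (hh1 : 1.25663 ≤ h) (hh2 : h ≤ 1.25664) (hta : 0.251 ≤ t + κ) (htb : t + κ ≤ 0.415)
    (hY : 0.7686 * Real.exp (r * sE κ t) ≤ ‖Xf β r h t 1‖) (hV : 1.02429 - 0.158 * (t + κ) ≤ sE κ t) :
    ‖Xf β r h t (-1)‖ ≤ 0.000437 * ‖Xf β r h t 1‖ := by
  rw [v5_X (-1) (-2) (by push_cast; ring)]
  exact v5_cmp 0.89 0.0001383 0.00016 0.9086 0.0001133 0.000276 0.000437 hr (B5Io_C21 (t := t + (-2) * h) hβ hr hκ hk1 hk2 (by linarith only [hta, htb, hh1, hh2]) (by linarith only [hta, htb, hh1, hh2])) hY (by norm_num) (by norm_num) (by norm_num) (by norm_num) (by linarith only [hV, hta, htb, hh1, hh2]) (ex_un 8 0.8999 (by norm_num) (by norm_num) (by norm_num) (by norm_num)) (by norm_num) (by norm_num) (by linarith only [hV, hta, htb, hh1, hh2]) (ex_un 9 0.0859 (by norm_num)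 (by norm_num) (by norm_num) (by norm_num)) (by norm_num) (by norm_num)

private theorem B5Io_K27 {β r t κ h : ℝ} (hβ : 0 < β) (hr : 10 ≤ r) (hκ : κ = β * r) (hk1 : 1 ≤ κ) (hk2 : κ ≤ 1.15)
    (hh : h = 2 * Real.pi / 5) (hh1 : 1.25663 ≤ h) (hh2 : h ≤ 1.25664) (hta : 0.251 ≤ t + κ) (htb : t + κ ≤ 0.415)
    (hY : 0.7686 * Real.exp (r * sE κ t) ≤ ‖Xf β r h t 1‖) (hV : 1.02429 - 0.158 * (t + κ) ≤ sE κ t) :
    ‖Xf β r h t (-2)‖ ≤ 0.000598 * ‖Xf β r h t 1‖ := by
  rw [v5_Xm2 hh]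
  exact v5_cmp0 0.8987 0.0001274 0.000598 hr (B5Io_C22 (t := t + 2 * h) hβ hr hκ hk1 hk2 (by linarith only [hta, htb, hh1, hh2]) (by linarith only [hta, htb, hh1, hh2])) hY (by norm_num) (by norm_num) (by norm_num) (by linarith only [hV, hta, htb, hh1, hh2]) (ex_un 8 0.9869 (by norm_num) (by norm_num) (by norm_num) (by norm_num)) (by norm_num)

private theorem B5Io_G28 {κ : ℝ} (hk1 : 1 ≤ κ) (hk2 : κ ≤ 1.15) : gG κ (-0.4) ≤ 1.17487 ∧ 2.22552 ≤ Real.exp (-(κ * (-0.4))) ^ 2 := by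
  refine ⟨gG_le (-0.4) 1 1.15 1.17487 1.49183 1.58408 0.67033 0.63129 hk1 hk2 (by norm_num)
    (ex_up 0.4 (by norm_num) (by norm_num) (by norm_num) (by norm_num)) (ex_up 0.46 (by norm_num) (by norm_num) (by norm_num) (by norm_num))
    (ex_um 0.4 (by norm_num) (by norm_num) (by norm_num) (by norm_num)) (ex_um 0.46 (by norm_num) (by norm_num) (by norm_num) (by norm_num))
    (by norm_num) (by norm_num), ?_⟩
  exact v5_M 1.49182 (ex_lp 0.4 (by linarith) (by norm_num) (by norm_num)) (by norm_num) (by norm_num)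

private theorem B5Io_C29 {β r t κ : ℝ} (hβ : 0 < β) (hr : 10 ≤ r) (hκ : κ = β * r) (hk1 : 1 ≤ κ) (hk2 : κ ≤ 1.15) (hta : (-1.0057) ≤ t + κ)
    (htb : t + κ ≤ (-0.8416)) : ‖F (cexp (I * β)) (r * cexp (I * ((t + β / 2 : ℝ) : ℂ)))‖ ≤
      1.0217 * Real.exp (r * (1.17487 - (-0.4) * (t + κ))) + 1.546 * Real.exp (r * 0.0501) :=
  v5_HU (-0.4) 1 1.15 (-1.0057) (-0.8416) 1.17487 1.0217 2.22552 0.1353 0.7653 2.5562 0 0.0501 0.00000123 1.546 hβ hr hκ (by norm_num) hk1 hk2 hta htb (by norm_num) (by norm_num) (B5Io_G28 hk1 hk2).1 (B5Io_G28 hk1 hk2).2 (by norm_num) (by norm_num) (by norm_num)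
    (by norm_num) (by norm_num) (by norm_num) (by norm_num) (by norm_num) (by norm_num) (by norm_num)
    (by norm_num) (by norm_num) (by norm_num) (v5_hump 4.5775 8.695 2.9488 0.0000009316 0.00000123 hβ hr hκ hk1 hk2 (by norm_num) htb (by norm_num) (by norm_num) (by norm_num) (by norm_num) (by norm_num) (by norm_num) (by norm_num) (ex_un 13 0.9 (by norm_num) (by norm_num) (by norm_num) (by norm_num)) (by norm_num)) (by norm_num)

private theorem B5Io_K30 {β r t κ h : ℝ} (hβ : 0 < β) (hr : 10 ≤ r) (hκ : κ = β * r) (hk1 : 1 ≤ κ) (hk2 : κ ≤ 1.15)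
    (hh : h = 2 * Real.pi / 5) (hh1 : 1.25663 ≤ h) (hh2 : h ≤ 1.25664) (hta : 0.251 ≤ t + κ) (htb : t + κ ≤ 0.415)
    (hY : 0.7686 * Real.exp (r * sE κ t) ≤ ‖Xf β r h t 1‖) (hV : 1.02429 - 0.158 * (t + κ) ≤ sE κ t) :
    ‖Xf β r h t 0‖ ≤ 0.4 * ‖Xf β r h t 1‖ := by
  rw [v5_X 0 (-1) (by push_cast; ring)]
  exact v5_cmp 0.1205 0.2998 0.399 0.9086 0.0001133 0.000228 0.4 hr (B5Io_C29 (t := t + (-1) * h) hβ hr hκ hk1 hk2 (by linarith only [hta, htb, hh1, hh2]) (by linarith only [hta, htb, hh1, hh2])) hY (by norm_num) (by norm_num) (by norm_num) (by norm_num) (by linarith only [hV, hta, htb, hh1, hh2]) (ex_un 1 0.2049 (by norm_num) (by norm_num) (by norm_num) (by norm_num)) (by norm_num) (by norm_num) (by linarith only [hV, hta, htb, hh1, hh2]) (ex_un 9 0.0859 (by norm_num) (by norm_num) (by norm_num) (by norm_num)) (by norm_num) (by norm_num)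

private theorem B5Io_O31 {β r t κ h : ℝ} (hβ : 0 < β) (hr : 10 ≤ r) (hκ : κ = β * r) (hk1 : 1 ≤ κ) (hk2 : κ ≤ 1.15)
    (hh : h = 2 * Real.pi / 5) (hta : 0.251 ≤ t + κ) (htb : t + κ ≤ 0.415) :
    ‖Xf β r h t (-2)‖ + ‖Xf β r h t (-1)‖ + ‖Xf β r h t 2‖ < |‖Xf β r h t 1‖ - ‖Xf β r h t 0‖| := by
  obtain ⟨hh1, hh2⟩ := v5_h hh
  have hκ0 : 0 < κ := by linarith only [hk1]
  have hN : β * 8.695 ≤ 1 := v5_hN 1.15 8.695 hβ hr hκ hk2 (by norm_num) (by norm_num)
  have hD1 : DomR κ t := v5_dom hκ0 (by linarith only [hta, htb, hk1, hk2, hh1, hh2]) (Or.inr (by linarith only [hta, htb, hk1, hk2, hh1, hh2]))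
  have e1 : t = t + (((1 : ℤ) : ℝ) - 1) * h := by push_cast; ring
  have hY := B5Io_Y23 (h := h) hβ hκ hN hk1 hk2 e1 hD1 hta htb
  have hV := B5Io_V24 hD1 hk1 hk2 hta htb
  have cp2 := B5Io_K25 hβ hr hκ hk1 hk2 hh hh1 hh2 hta htb hY hV
  have cm1 := B5Io_K26 hβ hr hκ hk1 hk2 hh hh1 hh2 hta htb hY hV
  have cm2 := B5Io_K27 hβ hr hκ hk1 hk2 hh hh1 hh2 hta htb hY hV
  have cn0 := B5Io_K30 hβ hr hκ hk1 hk2 hh hh1 hh2 hta htb hY hV
  have hp : 0 < ‖Xf β r h t 1‖ := lt_of_lt_of_le (by positivity) hY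
  exact v5_out1 _ _ _ _ cm2 cm1 cp2 cn0 hp (by norm_num)

private theorem B5Io_B32 {κ t : ℝ} (h : DomR κ t) (hk1 : 1 ≤ κ) (hk2 : κ ≤ 1.15) (ht1 : 0.415 ≤ t + κ) (ht2 : t + κ ≤ 0.5655) :
    (0.185 ≤ sy κ t ∧ sy κ t ≤ 0.248) ∧ (0.7398 ≤ sx κ t ∧ sx κ t ≤ 0.9378) ∧ κ * Real.exp (-sy κ t) ≤ 0.9558 ∧ 2.0607 ≤ sD κ t ∧ sD κ t ≤ 2.3014 := by
  have hy1 : 0.185 ≤ sy κ t := syR_ge h 1 1.15 0.415 0.185 1.20321 1.20322 0.19355 0.2226 hk1 hk2 (by linarith) (by norm_num) (by norm_num)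
    (expn_ge (by norm_num) (by norm_num)) (expn_le (by norm_num) (by norm_num) (by norm_num)) (by norm_num)
    (by norm_num) (by norm_num) (by norm_num) (by norm_num) (by norm_num) (by norm_num)
  have hy2 : sy κ t ≤ 0.248 := syR_le h 1 1.15 0.5655 0.248 1.28145 0.2659 0.27634 0.31781 hk1 hk2 (by linarith) (by norm_num) (by norm_num)
    (expn_ge (by norm_num) (by norm_num)) (by norm_num) (by norm_num) (Or.inr ((mul_le_mul_of_nonneg_left (expn_le (E := 1.28146) (by norm_num) (by norm_num) (by norm_num)) (by norm_num)).trans (by norm_num))) (by norm_num) (by norm_num) (by norm_num)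
  have hy1' : 0.185 ≤ sy κ t := by linarith
  have hy2' : sy κ t ≤ 0.248 := by linarith
  have hx1 : 0.7398 ≤ sx κ t := sx_lo h 1 0.248 0.2481 0.78035 0.7398 hk1 (by norm_num) hy2' (abs_le.2 ⟨by linarith, by linarith⟩) (ex_lm 0.248 (by norm_num) (by norm_num) (by norm_num) (by norm_num) (by norm_num)) (by norm_num) (by norm_num)
  have hx2 : sx κ t ≤ 0.9378 := sx_hi h 1.15 0.185 0.185 0.83111 0.9378 hk2 hy1' (by norm_num) (le_trans (by linarith) (le_abs_self _)) (ex_um 0.185 (by norm_num) (by norm_num) (by norm_num) (by norm_num)) (by norm_num) (by norm_num)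
  refine ⟨⟨hy1', hy2'⟩, ⟨hx1, hx2⟩, v5_n h 1.15 0.185 0.83111 0.9558 hk2 hy1' (ex_um 0.185 (by norm_num) (by norm_num) (by norm_num) (by norm_num)) (by norm_num), ?_, ?_⟩
  · exact v5_Dlo h 1 0.185 0.248 0.185 0.8311 2.0607 (by norm_num) hk1 hy1' hy2' (ex_lm 0.185 (by norm_num) (by norm_num) (by norm_num) (by norm_num) (by norm_num)) (by norm_num) (by norm_num) (by norm_num) (by norm_num)
  · exact v5_Dup h 1.15 0.185 0.248 0.83111 0.78036 2.3014 hk2 hy1' hy2' (ex_um 0.185 (by norm_num) (by norm_num) (by norm_num) (by norm_num)) (ex_um 0.248 (by norm_num) (by norm_num) (by norm_num) (by norm_num)) (by norm_num) (by norm_num) (by norm_num)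

private theorem B5Io_T33_0_0 {β x y : ℝ} (hβ : 0 < β) (hN : β * 8.695 ≤ 1) (hx1 : 0.7397 ≤ x) (hx2 : x ≤ 0.82)
    (hy1 : -0 ≤ y) (hy2 : y ≤ 0.2481) : ‖HH β (x + y * I) - 1‖ ≤ 0.06 := by
  refine le_epsJ (C := 0.5205) (N0 := 8.695) (J_boxp 0.7397 0.82 0 0.2481 0.2481 1.2309 0.8568 1.4934 0.8949 0.4876 2.9488 8.695 0.6961 2.52 1.366 1.1047 0.6154 0.4726 1.2614 3.62 0.689 1.4988 1.9859 2.6933 0.004749 0.01643 0.00001732 0.0000003101 0.002513 0.00000219 0.0000003101 0.0000003101 0.5205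
    hβ hN hx1 hx2 hy1 hy2 (by norm_num) (by norm_num) (by linarith) (by norm_num) (by norm_num) (by norm_num) (by norm_num) (by norm_num) (by norm_num) (by norm_num) (by norm_num) (by norm_num) (by norm_num) (by norm_num) (by norm_num) (by norm_num) (by norm_num) (by norm_num) (by norm_num) (by norm_num) (by norm_num) (by norm_num) (by norm_num) (by norm_num)
    (cube_sqrt_geJ (s := 0.8763) (by norm_num) (by norm_num) (by norm_num) (by norm_num))
    (cube_sqrt_geJ (s := 0.9564) (by norm_num) (by norm_num) (by norm_num) (by norm_num))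
    (by norm_num) (by norm_num) (by norm_num) (by norm_num) (by norm_num) (by norm_num) (by norm_num) (by norm_num) (by norm_num) (by norm_num) (by norm_num) (by norm_num) (by norm_num) (by norm_num) (by norm_num) (by norm_num) (by norm_num) (by norm_num)
    (exp_neg_leJ (r := 0.35) 5 (by norm_num) (by norm_num) (by norm_num) (by norm_num))
    (exp_neg_leJ (r := 0.109) 4 (by norm_num) (by norm_num) (by norm_num) (by norm_num))
    (exp_neg_leJ (r := 0.967) 10 (by norm_num) (by norm_num) (by norm_num) (by norm_num))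
    (exp_neg_leJ (r := 0.99) 14 (by norm_num) (by norm_num) (by norm_num) (by norm_num))
    (exp_neg_leJ (r := 0.99) 5 (by norm_num) (by norm_num) (by norm_num) (by norm_num))
    (exp_neg_leJ (r := 0.032) 13 (by norm_num) (by norm_num) (by norm_num) (by norm_num))
    (exp_neg_leJ (r := 0.99) 14 (by norm_num) (by norm_num) (by norm_num) (by norm_num))
    (exp_neg_leJ (r := 0.99) 14 (by norm_num) (by norm_num) (by norm_num) (by norm_num))
    (by norm_num)) (by norm_num) hN hβ.le (by norm_num)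

private theorem B5Io_T33_0_1 {β x y : ℝ} (hβ : 0 < β) (hN : β * 8.695 ≤ 1) (hx1 : 0.82 ≤ x) (hx2 : x ≤ 0.91)
    (hy1 : -0 ≤ y) (hy2 : y ≤ 0.2481) : ‖HH β (x + y * I) - 1‖ ≤ 0.06 := by
  refine le_epsJ (C := 0.5207) (N0 := 8.695) (J_boxp 0.82 0.91 0 0.2481 0.2481 1.2874 0.9433 1.5447 0.8509 0.4959 2.9488 8.695 0.7328 2.666 1.39 1.0701 0.6436 0.4864 1.2889 3.5689 0.728 1.61 2.1465 2.6188 0.003715 0.01457 0.0000136 0.0000003101 0.001784 0.0000008429 0.0000003101 0.0000003101 0.5207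
    hβ hN hx1 hx2 hy1 hy2 (by norm_num) (by norm_num) (by linarith) (by norm_num) (by norm_num) (by norm_num) (by norm_num) (by norm_num) (by norm_num) (by norm_num) (by norm_num) (by norm_num) (by norm_num) (by norm_num) (by norm_num) (by norm_num) (by norm_num) (by norm_num) (by norm_num) (by norm_num) (by norm_num) (by norm_num) (by norm_num) (by norm_num)
    (cube_sqrt_geJ (s := 0.8693) (by norm_num) (by norm_num) (by norm_num) (by norm_num))
    (cube_sqrt_geJ (s := 0.954) (by norm_num) (by norm_num) (by norm_num) (by norm_num))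
    (by norm_num) (by norm_num) (by norm_num) (by norm_num) (by norm_num) (by norm_num) (by norm_num) (by norm_num) (by norm_num) (by norm_num) (by norm_num) (by norm_num) (by norm_num) (by norm_num) (by norm_num) (by norm_num) (by norm_num) (by norm_num)
    (exp_neg_leJ (r := 0.596) 5 (by norm_num) (by norm_num) (by norm_num) (by norm_num))
    (exp_neg_leJ (r := 0.229) 4 (by norm_num) (by norm_num) (by norm_num) (by norm_num))
    (exp_neg_leJ (r := 0.206) 11 (by norm_num) (by norm_num) (by norm_num) (by norm_num))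
    (exp_neg_leJ (r := 0.99) 14 (by norm_num) (by norm_num) (by norm_num) (by norm_num))
    (exp_neg_leJ (r := 0.329) 6 (by norm_num) (by norm_num) (by norm_num) (by norm_num))
    (exp_neg_leJ (r := 0.99) 13 (by norm_num) (by norm_num) (by norm_num) (by norm_num))
    (exp_neg_leJ (r := 0.99) 14 (by norm_num) (by norm_num) (by norm_num) (by norm_num))
    (exp_neg_leJ (r := 0.99) 14 (by norm_num) (by norm_num) (by norm_num) (by norm_num))
    (by norm_num)) (by norm_num) hN hβ.le (by norm_num)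

private theorem B5Io_T33_0_2 {β x y : ℝ} (hβ : 0 < β) (hN : β * 8.695 ≤ 1) (hx1 : 0.91 ≤ x) (hx2 : x ≤ 0.9379)
    (hy1 : -0 ≤ y) (hy2 : y ≤ 0.2481) : ‖HH β (x + y * I) - 1‖ ≤ 0.06 := by
  refine le_epsJ (C := 0.448) (N0 := 8.695) (J_boxp 0.91 0.9379 0 0.2481 0.2481 1.3508 0.9702 1.5613 0.7959 0.4985 2.9488 8.695 0.7183 2.607 1.381 1.0593 0.6753 0.5136 1.3197 3.5531 0.7717 1.7346 2.3265 2.7257 0.002826 0.01151 0.0000104 0.0000003101 0.001221 0.0000003101 0.0000003101 0.0000003101 0.448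
    hβ hN hx1 hx2 hy1 hy2 (by norm_num) (by norm_num) (by linarith) (by norm_num) (by norm_num) (by norm_num) (by norm_num) (by norm_num) (by norm_num) (by norm_num) (by norm_num) (by norm_num) (by norm_num) (by norm_num) (by norm_num) (by norm_num) (by norm_num) (by norm_num) (by norm_num) (by norm_num) (by norm_num) (by norm_num) (by norm_num) (by norm_num)
    (cube_sqrt_geJ (s := 0.8721) (by norm_num) (by norm_num) (by norm_num) (by norm_num))
    (cube_sqrt_geJ (s := 0.955) (by norm_num) (by norm_num) (by norm_num) (by norm_num))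
    (by norm_num) (by norm_num) (by norm_num) (by norm_num) (by norm_num) (by norm_num) (by norm_num) (by norm_num) (by norm_num) (by norm_num) (by norm_num) (by norm_num) (by norm_num) (by norm_num) (by norm_num) (by norm_num) (by norm_num) (by norm_num)
    (exp_neg_leJ (r := 0.871) 5 (by norm_num) (by norm_num) (by norm_num) (by norm_num))
    (exp_neg_leJ (r := 0.465) 4 (by norm_num) (by norm_num) (by norm_num) (by norm_num))
    (exp_neg_leJ (r := 0.474) 11 (by norm_num) (by norm_num) (by norm_num) (by norm_num))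
    (exp_neg_leJ (r := 0.99) 14 (by norm_num) (by norm_num) (by norm_num) (by norm_num))
    (exp_neg_leJ (r := 0.709) 6 (by norm_num) (by norm_num) (by norm_num) (by norm_num))
    (exp_neg_leJ (r := 0.99) 14 (by norm_num) (by norm_num) (by norm_num) (by norm_num))
    (exp_neg_leJ (r := 0.99) 14 (by norm_num) (by norm_num) (by norm_num) (by norm_num))
    (exp_neg_leJ (r := 0.99) 14 (by norm_num) (by norm_num) (by norm_num) (by norm_num))
    (by norm_num)) (by norm_num) hN hβ.le (by norm_num)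

private theorem B5Io_T33 {β x y : ℝ} (hβ : 0 < β) (hN : β * 8.695 ≤ 1) (hx1 : 0.7397 ≤ x) (hx2 : x ≤ 0.9379)
    (hy1 : 0.1849 ≤ y) (hy2 : y ≤ 0.2481) : ‖HH β (x + y * I) - 1‖ ≤ 0.06 := by
  rcases le_total x 0.82 with hxx | hxx
  · exact B5Io_T33_0_0 hβ hN (by linarith) (by linarith) (by linarith) (by linarith)
  rcases le_total x 0.91 with hxx | hxx
  · exact B5Io_T33_0_1 hβ hN (by linarith) (by linarith) (by linarith) (by linarith)
  exact B5Io_T33_0_2 hβ hN (by linarith) (by linarith) (by linarith) (by linarith)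

private theorem B5Io_G34 {κ : ℝ} (hk1 : 1 ≤ κ) (hk2 : κ ≤ 1.15) : gG κ 0.42 ≤ 1.25099 ∧ 0.38059 ≤ Real.exp (-(κ * 0.42)) ^ 2 := by
  refine ⟨gG_le 0.42 1 1.15 1.25099 0.65705 0.61694 1.52197 1.62093 hk1 hk2 (by norm_num)
    (ex_um 0.42 (by norm_num) (by norm_num) (by norm_num) (by norm_num)) (ex_um 0.483 (by norm_num) (by norm_num) (by norm_num) (by norm_num))
    (ex_up 0.42 (by norm_num) (by norm_num) (by norm_num) (by norm_num)) (ex_up 0.483 (by norm_num) (by norm_num) (by norm_num) (by norm_num))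
    (by norm_num) (by norm_num), ?_⟩
  exact v5_M 0.61692 (ex_lm 0.483 (by linarith) (by norm_num) (by norm_num) (by norm_num) (by norm_num)) (by norm_num) (by norm_num)

private theorem B5Io_C35 {β r t κ : ℝ} (hβ : 0 < β) (hr : 10 ≤ r) (hκ : κ = β * r) (hk1 : 1 ≤ κ) (hk2 : κ ≤ 1.15) (hta : 1.6716 ≤ t + κ)
    (htb : t + κ ≤ 1.8222) : ‖F (cexp (I * β)) (r * cexp (I * ((t + β / 2 : ℝ) : ℂ)))‖ ≤
      1.8833 * Real.exp (r * (1.25099 - 0.42 * (t + κ))) + 0.2 * Real.exp (r * 0) :=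
  v5_H 0.42 1 1.15 1.6716 1.8222 1.25099 1.822 0.38059 0.1353 2.0922 0.7484 0.10825 0.3388 0.00000123 1.8833 0.2 hβ hr hκ (by norm_num) hk1 hk2 hta htb (by norm_num) (B5Io_G34 hk1 hk2).1 (B5Io_G34 hk1 hk2).2 (by norm_num) (by norm_num) (by norm_num)
    (by norm_num) (by norm_num) (by norm_num) (by norm_num) (by norm_num) (by norm_num) (by norm_num) (by norm_num) (ex_un 1 0.0824 (by norm_num) (by norm_num) (by norm_num) (by norm_num))
    (v5_hump 1.9137 8.695 2.9488 0.0000009316 0.00000123 hβ hr hκ hk1 hk2 (by norm_num) htb (by norm_num) (by norm_num) (by norm_num) (by norm_num) (by norm_num) (by norm_num) (by norm_num) (ex_un 13 0.9 (by norm_num) (by norm_num) (by norm_num) (by norm_num)) (by norm_num)) (by norm_num) (by norm_num)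

private theorem B5Io_C36 {β r t κ : ℝ} (hβ : 0 < β) (hr : 10 ≤ r) (hκ : κ = β * r) (hk1 : 1 ≤ κ) (hk2 : κ ≤ 1.15) (hta : (-2.0983) ≤ t + κ)
    (htb : t + κ ≤ (-1.9477)) : ‖F (cexp (I * β)) (r * cexp (I * ((t + β / 2 : ℝ) : ℂ)))‖ ≤
      0.8872 * Real.exp (r * (1.55848 - (-0.71) * (t + κ))) + 1.8584 * Real.exp (r * 0.0501) :=
  v5_HU (-0.71) 1 1.15 (-2.0983) (-1.9477) 1.55848 0.8872 4.13703 0.1353 0.7653 1.4636 0 0.0501 0.00000123 1.8584 hβ hr hκ (by norm_num) hk1 hk2 hta htb (by norm_num) (by norm_num) (B5Io_G5 hk1 hk2).1 (B5Io_G5 hk1 hk2).2 (by norm_num) (by norm_num) (by norm_num)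
    (by norm_num) (by norm_num) (by norm_num) (by norm_num) (by norm_num) (by norm_num) (by norm_num)
    (by norm_num) (by norm_num) (by norm_num) (v5_hump 5.6836 8.695 2.9488 0.0000009316 0.00000123 hβ hr hκ hk1 hk2 (by norm_num) htb (by norm_num) (by norm_num) (by norm_num) (by norm_num) (by norm_num) (by norm_num) (by norm_num) (ex_un 13 0.9 (by norm_num) (by norm_num) (by norm_num) (by norm_num)) (by norm_num)) (by norm_num)

private theorem B5Io_C37 {β r t κ : ℝ} (hβ : 0 < β) (hr : 10 ≤ r) (hκ : κ = β * r) (hk1 : 1 ≤ κ) (hk2 : κ ≤ 1.15) (hta : 2.9282 ≤ t + κ)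
    (htb : t + κ ≤ 3.0788) : ‖F (cexp (I * β)) (r * cexp (I * ((t + β / 2 : ℝ) : ℂ)))‖ ≤
      2.3597 * Real.exp (r * (0.01 + 1 / 20)) :=
  v5_UD 1 1.15 2.9282 3.0788 0.01 0.399 0.01 1.2302 2.3597 hβ hr hκ (by norm_num) hk1 hk2 hta htb (by norm_num) (by norm_num) (by norm_num) (by norm_num) (by norm_num) (by norm_num) (by norm_num) (by norm_num) (by norm_num) (by norm_num) (by norm_num)

private theorem B5Io_Y38 {β r t κ h t' : ℝ} (hβ : 0 < β) (hκ : κ = β * r) (hN : β * 8.695 ≤ 1) (hk1 : 1 ≤ κ) (hk2 : κ ≤ 1.15)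
    (ht : t' = t + (((1 : ℤ) : ℝ) - 1) * h) (hD : DomR κ t') (hta : 0.415 ≤ t' + κ) (htb : t' + κ ≤ 0.5655) :
    0.7631 * Real.exp (r * sE κ t') ≤ ‖Xf β r h t 1‖ := by
  obtain ⟨⟨ya, yb⟩, ⟨xa, xb⟩, n1, Da, Db⟩ := B5Io_B32 hD hk1 hk2 hta htb
  have J := B5Io_T33 (x := sx κ t') (y := sy κ t') hβ hN (by linarith only [xa, xb, ya, yb]) (by linarith only [xa, xb, ya, yb]) (by linarith only [xa, xb, ya, yb]) (by linarith only [xa, xb, ya, yb])
  exact v5_Jlo hβ hκ (k := 1) ht hD 0.06 2.3014 0.7631 (by norm_num) J Db (by norm_num)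

private theorem B5Io_V39 {κ t : ℝ} (hD : DomR κ t) (hk1 : 1 ≤ κ) (hk2 : κ ≤ 1.15) (hta : 0.415 ≤ t + κ) (htb : t + κ ≤ 0.5655) :
    1.0533 - 0.2282 * (t + κ) ≤ sE κ t := by
  have hκ0 : 0 < κ := hD.1
  exact v5_V1 hD 1 1.15 0.415 0.5655 0.0465 0.16667 0.32152 1.0533 0.2282 (by norm_num) hk1 hk2 (by norm_num) (by norm_num) hta htb (by norm_num) (clo5 1 1.15 0.32152 (by norm_num) hk1 hk2 (by norm_num) (by norm_num) (by norm_num))
      ((cup2 1 (by norm_num) hk1).trans (by norm_num)) (by norm_num) (by norm_num) (by norm_num) (by norm_num) (by norm_num) (by norm_num)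

private theorem B5Io_K40 {β r t κ h : ℝ} (hβ : 0 < β) (hr : 10 ≤ r) (hκ : κ = β * r) (hk1 : 1 ≤ κ) (hk2 : κ ≤ 1.15)
    (hh : h = 2 * Real.pi / 5) (hh1 : 1.25663 ≤ h) (hh2 : h ≤ 1.25664) (hta : 0.415 ≤ t + κ) (htb : t + κ ≤ 0.5655)
    (hY : 0.7631 * Real.exp (r * sE κ t) ≤ ‖Xf β r h t 1‖) (hV : 1.0533 - 0.2282 * (t + κ) ≤ sE κ t) :
    ‖Xf β r h t 2‖ ≤ 0.0412 * ‖Xf β r h t 1‖ := by
  rw [v5_X 2 1 (by push_cast; ring)]
  exact v5_cmp 0.4096 0.01665 0.0411 0.9242 0.00009691 0.0000254 0.0412 hr (B5Io_C35 (t := t + 1 * h) hβ hr hκ hk1 hk2 (by linarith only [hta, htb, hh1, hh2]) (by linarith only [hta, htb, hh1, hh2])) hY (by norm_num) (by norm_num) (by norm_num) (by norm_num) (by linarith only [hV, hta, htb, hh1, hh2]) (ex_un 4 0.0959 (by norm_num) (by norm_num) (by norm_num) (by norm_num)) (by norm_num) (by norm_num) (by linarith only [hV, hta, htb, hh1, hh2]) (ex_un 9 0.2419 (by norm_num) (by norm_num) (by norm_num) (by norm_num))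 (by norm_num) (by norm_num)

private theorem B5Io_K41 {β r t κ h : ℝ} (hβ : 0 < β) (hr : 10 ≤ r) (hκ : κ = β * r) (hk1 : 1 ≤ κ) (hk2 : κ ≤ 1.15)
    (hh : h = 2 * Real.pi / 5) (hh1 : 1.25663 ≤ h) (hh2 : h ≤ 1.25664) (hta : 0.415 ≤ t + κ) (htb : t + κ ≤ 0.5655)
    (hY : 0.7631 * Real.exp (r * sE κ t) ≤ ‖Xf β r h t 1‖) (hV : 1.0533 - 0.2282 * (t + κ) ≤ sE κ t) :
    ‖Xf β r h t (-1)‖ ≤ 0.00105 * ‖Xf β r h t 1‖ := by
  rw [v5_X (-1) (-2) (by push_cast; ring)]
  exact v5_cmp 0.7486 0.0005619 0.000654 0.8741 0.0001611 0.000393 0.00105 hr (B5Io_C36 (t := t + (-2) * h) hβ hr hκ hk1 hk2 (by linarith only [hta, htb, hh1, hh2]) (by linarith only [hta, htb, hh1, hh2])) hY (by norm_num) (by norm_num) (by norm_num) (by norm_num) (by linarith only [hV, hta, htb, hh1, hh2]) (ex_un 7 0.4859 (by norm_num) (by norm_num) (by norm_num) (by norm_num)) (by norm_num) (by norm_num) (by linarith only [hV, hta, htb, hh1, hh2]) (ex_un 8 0.7409 (by norm_num)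 (by norm_num) (by norm_num) (by norm_num)) (by norm_num) (by norm_num)

private theorem B5Io_K42 {β r t κ h : ℝ} (hβ : 0 < β) (hr : 10 ≤ r) (hκ : κ = β * r) (hk1 : 1 ≤ κ) (hk2 : κ ≤ 1.15)
    (hh : h = 2 * Real.pi / 5) (hh1 : 1.25663 ≤ h) (hh2 : h ≤ 1.25664) (hta : 0.415 ≤ t + κ) (htb : t + κ ≤ 0.5655)
    (hY : 0.7631 * Real.exp (r * sE κ t) ≤ ‖Xf β r h t 1‖) (hV : 1.0533 - 0.2282 * (t + κ) ≤ sE κ t) :
    ‖Xf β r h t (-2)‖ ≤ 0.000549 * ‖Xf β r h t 1‖ := by
  rw [v5_Xm2 hh]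
  exact v5_cmp0 0.8642 0.0001774 0.000549 hr (B5Io_C37 (t := t + 2 * h) hβ hr hκ hk1 hk2 (by linarith only [hta, htb, hh1, hh2]) (by linarith only [hta, htb, hh1, hh2])) hY (by norm_num) (by norm_num) (by norm_num) (by linarith only [hV, hta, htb, hh1, hh2]) (ex_un 8 0.6419 (by norm_num) (by norm_num) (by norm_num) (by norm_num)) (by norm_num)

private theorem B5Io_G43 {κ : ℝ} (hk1 : 1 ≤ κ) (hk2 : κ ≤ 1.15) : gG κ (-0.32) ≤ 1.11244 ∧ 1.89645 ≤ Real.exp (-(κ * (-0.32))) ^ 2 := by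
  refine ⟨gG_le (-0.32) 1 1.15 1.11244 1.37713 1.44485 0.72615 0.69212 hk1 hk2 (by norm_num)
    (ex_up 0.32 (by norm_num) (by norm_num) (by norm_num) (by norm_num)) (ex_up 0.368 (by norm_num) (by norm_num) (by norm_num) (by norm_num))
    (ex_um 0.32 (by norm_num) (by norm_num) (by norm_num) (by norm_num)) (ex_um 0.368 (by norm_num) (by norm_num) (by norm_num) (by norm_num))
    (by norm_num) (by norm_num), ?_⟩
  exact v5_M 1.37712 (ex_lp 0.32 (by linarith) (by norm_num) (by norm_num)) (by norm_num) (by norm_num)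

private theorem B5Io_B44 {κ t : ℝ} (h : DomR κ t) (hk1 : 1 ≤ κ) (hk2 : κ ≤ 1.15) (ht1 : (-0.8417) ≤ t + κ) (ht2 : t + κ ≤ (-0.6911)) :
    ((-0.479) ≤ sy κ t ∧ sy κ t ≤ (-0.366)) ∧ (1.36 ≤ sx κ t ∧ sx κ t ≤ 1.8202) ∧ κ * Real.exp (-sy κ t) ≤ 1.8567 ∧ 2.3472 ≤ sD κ t ∧ sD κ t ≤ 3.4891 := by
  have hy1 : -0.479 ≤ sy κ t := syL_ge h 1 1.15 0.8417 0.479 0.6194 0.61941 0.2902 0.25799 0.2967 hk1 hk2 (by linarith) (by norm_num) (by norm_num) (by norm_num)
    (expm_ge (by norm_num) (by norm_num) (by norm_num) (by norm_num)) (expm_le (by norm_num) (by norm_num) (by norm_num)) (by norm_num)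
    (by norm_num) (by norm_num) (by norm_num) (by norm_num) (by norm_num) (by norm_num)
  have hy2 : sy κ t ≤ -0.366 := syL_le h 1 1.15 0.6911 0.366 0.6935 0.69351 0.22071 0.25383 hk1 hk2 (by linarith) (by norm_num) (by norm_num) (by norm_num)
    (expm_ge (by norm_num) (by norm_num) (by norm_num) (by norm_num)) (expm_le (by norm_num) (by norm_num) (by norm_num)) (by norm_num)
    (by norm_num) (by norm_num) (by norm_num) (by norm_num) (by norm_num) (by norm_num)
  have hy1' : (-0.479) ≤ sy κ t := by linarith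
  have hy2' : sy κ t ≤ (-0.366) := by linarith
  have hx1 : 1.36 ≤ sx κ t := sx_lo h 1 (-0.366) 0.4791 1.44195 1.36 hk1 (by norm_num) hy2' (abs_le.2 ⟨by linarith, by linarith⟩) (ex_lp 0.366 (by norm_num) (by norm_num) (by norm_num)) (by norm_num) (by norm_num)
  have hx2 : sx κ t ≤ 1.8202 := sx_hi h 1.15 (-0.479) 0.366 1.61446 1.8202 hk2 hy1' (by norm_num) (le_trans (by linarith) (neg_le_abs _)) (ex_up 0.479 (by norm_num) (by norm_num) (by norm_num) (by norm_num)) (by norm_num) (by norm_num)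
  refine ⟨⟨hy1', hy2'⟩, ⟨hx1, hx2⟩, v5_n h 1.15 (-0.479) 1.61446 1.8567 hk2 hy1' (ex_up 0.479 (by norm_num) (by norm_num) (by norm_num) (by norm_num)) (by norm_num), ?_, ?_⟩
  · exact v5_Dlo h 1 (-0.479) (-0.366) (-0.366) 1.44195 2.3472 (by norm_num) hk1 hy1' hy2' (ex_lp 0.366 (by norm_num) (by norm_num) (by norm_num)) (by norm_num) (by norm_num) (by norm_num) (by norm_num)
  · exact v5_Dup h 1.15 (-0.479) (-0.366) 1.61446 1.44196 3.4891 hk2 hy1' hy2' (ex_up 0.479 (by norm_num) (by norm_num) (by norm_num) (by norm_num)) (ex_up 0.366 (by norm_num) (by norm_num) (by norm_num) (by norm_num)) (by norm_num) (by norm_num) (by norm_num)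

private theorem B5Io_T45_0_0 {β x y : ℝ} (hβ : 0 < β) (hN : β * 8.695 ≤ 1) (hx1 : 1.3599 ≤ x) (hx2 : x ≤ 1.425)
    (hy1 : -0.4791 ≤ y) (hy2 : y ≤ -0.3659) : ‖HH β (x + y * I) - 1‖ ≤ 0.16 := by
  refine le_epsJ (C := 1.3895) (N0 := 8.695) (J_boxp 1.3599 1.425 0.4791 0 (-0.3659) 1.3274 1.5034 1.5598 0.8167 0.4983 2.9488 8.695 1.1326 5.256 1.687 0.4297 0.6636 0.4131 0.7175 1.7553 0.7538 2.3829 2.9881 3.3452 0.003124 0.02759 0.001954 0.0000003101 0.001425 0.0000003101 0.0000003101 0.0000003101 1.3895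
    hβ hN hx1 hx2 hy1 hy2 (by norm_num) (by norm_num) (by linarith) (by norm_num) (by norm_num) (by norm_num) (by norm_num) (by norm_num) (by norm_num) (by norm_num) (by norm_num) (by norm_num) (by norm_num) (by norm_num) (by norm_num) (by norm_num) (by norm_num) (by norm_num) (by norm_num) (by norm_num) (by norm_num) (by norm_num) (by norm_num) (by norm_num)
    (cube_sqrt_geJ (s := 0.7889) (by norm_num) (by norm_num) (by norm_num) (by norm_num))
    (cube_sqrt_geJ (s := 0.928) (by norm_num) (by norm_num) (by norm_num) (by norm_num))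
    (by norm_num) (by norm_num) (by norm_num) (by norm_num) (by norm_num) (by norm_num) (by norm_num) (by norm_num) (by norm_num) (by norm_num) (by norm_num) (by norm_num) (by norm_num) (by norm_num) (by norm_num) (by norm_num) (by norm_num) (by norm_num)
    (exp_neg_leJ (r := 0.77) 5 (by norm_num) (by norm_num) (by norm_num) (by norm_num))
    (exp_neg_leJ (r := 0.591) 3 (by norm_num) (by norm_num) (by norm_num) (by norm_num))
    (exp_neg_leJ (r := 0.238) 6 (by norm_num) (by norm_num) (by norm_num) (by norm_num))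
    (exp_neg_leJ (r := 0.99) 14 (by norm_num) (by norm_num) (by norm_num) (by norm_num))
    (exp_neg_leJ (r := 0.554) 6 (by norm_num) (by norm_num) (by norm_num) (by norm_num))
    (exp_neg_leJ (r := 0.99) 14 (by norm_num) (by norm_num) (by norm_num) (by norm_num))
    (exp_neg_leJ (r := 0.99) 14 (by norm_num) (by norm_num) (by norm_num) (by norm_num))
    (exp_neg_leJ (r := 0.99) 14 (by norm_num) (by norm_num) (by norm_num) (by norm_num))
    (by norm_num)) (by norm_num) hN hβ.le (by norm_num)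

private theorem B5Io_T45_0_1 {β x y : ℝ} (hβ : 0 < β) (hN : β * 8.695 ≤ 1) (hx1 : 1.425 ≤ x) (hx2 : x ≤ 1.504)
    (hy1 : -0.4791 ≤ y) (hy2 : y ≤ -0.3659) : ‖HH β (x + y * I) - 1‖ ≤ 0.16 := by
  refine le_epsJ (C := 1.3903) (N0 := 8.695) (J_boxp 1.425 1.504 0.4791 0 (-0.3659) 1.3732 1.5785 1.6323 0.794 0.5097 2.9488 8.695 1.1496 5.427 1.701 0.3994 0.6865 0.4234 0.7398 1.7107 0.7854 2.473 3.1183 3.2712 0.002566 0.02522 0.00161 0.0000003478 0.001084 0.0000003101 0.0000003101 0.0000003101 1.3903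
    hβ hN hx1 hx2 hy1 hy2 (by norm_num) (by norm_num) (by linarith) (by norm_num) (by norm_num) (by norm_num) (by norm_num) (by norm_num) (by norm_num) (by norm_num) (by norm_num) (by norm_num) (by norm_num) (by norm_num) (by norm_num) (by norm_num) (by norm_num) (by norm_num) (by norm_num) (by norm_num) (by norm_num) (by norm_num) (by norm_num) (by norm_num)
    (cube_sqrt_geJ (s := 0.7853) (by norm_num) (by norm_num) (by norm_num) (by norm_num))
    (cube_sqrt_geJ (s := 0.9269) (by norm_num) (by norm_num) (by norm_num) (by norm_num))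
    (by norm_num) (by norm_num) (by norm_num) (by norm_num) (by norm_num) (by norm_num) (by norm_num) (by norm_num) (by norm_num) (by norm_num) (by norm_num) (by norm_num) (by norm_num) (by norm_num) (by norm_num) (by norm_num) (by norm_num) (by norm_num)
    (exp_neg_leJ (r := 0.969) 5 (by norm_num) (by norm_num) (by norm_num) (by norm_num))
    (exp_neg_leJ (r := 0.681) 3 (by norm_num) (by norm_num) (by norm_num) (by norm_num))
    (exp_neg_leJ (r := 0.432) 6 (by norm_num) (by norm_num) (by norm_num) (by norm_num))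
    (exp_neg_leJ (r := 0.874) 14 (by norm_num) (by norm_num) (by norm_num) (by norm_num))
    (exp_neg_leJ (r := 0.829) 6 (by norm_num) (by norm_num) (by norm_num) (by norm_num))
    (exp_neg_leJ (r := 0.99) 14 (by norm_num) (by norm_num) (by norm_num) (by norm_num))
    (exp_neg_leJ (r := 0.99) 14 (by norm_num) (by norm_num) (by norm_num) (by norm_num))
    (exp_neg_leJ (r := 0.99) 14 (by norm_num) (by norm_num) (by norm_num) (by norm_num))
    (by norm_num)) (by norm_num) hN hβ.le (by norm_num)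

private theorem B5Io_T45_0_2 {β x y : ℝ} (hβ : 0 < β) (hN : β * 8.695 ≤ 1) (hx1 : 1.504 ≤ x) (hx2 : x ≤ 1.599)
    (hy1 : -0.4791 ≤ y) (hy2 : y ≤ -0.3659) : ‖HH β (x + y * I) - 1‖ ≤ 0.16 := by
  refine le_epsJ (C := 1.3895) (N0 := 8.695) (J_boxp 1.504 1.599 0.4791 0 (-0.3659) 1.4288 1.6693 1.7202 0.768 0.5233 2.9488 8.695 1.1684 5.625 1.717 0.3628 0.7143 0.4361 0.7668 1.6569 0.8238 2.5824 3.2763 3.1824 0.00201 0.02261 0.001274 0.0000005541 0.0007756 0.0000003101 0.0000003101 0.0000003101 1.3895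
    hβ hN hx1 hx2 hy1 hy2 (by norm_num) (by norm_num) (by linarith) (by norm_num) (by norm_num) (by norm_num) (by norm_num) (by norm_num) (by norm_num) (by norm_num) (by norm_num) (by norm_num) (by norm_num) (by norm_num) (by norm_num) (by norm_num) (by norm_num) (by norm_num) (by norm_num) (by norm_num) (by norm_num) (by norm_num) (by norm_num) (by norm_num)
    (cube_sqrt_geJ (s := 0.7813) (by norm_num) (by norm_num) (by norm_num) (by norm_num))
    (cube_sqrt_geJ (s := 0.9257) (by norm_num) (by norm_num) (by norm_num) (by norm_num))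
    (by norm_num) (by norm_num) (by norm_num) (by norm_num) (by norm_num) (by norm_num) (by norm_num) (by norm_num) (by norm_num) (by norm_num) (by norm_num) (by norm_num) (by norm_num) (by norm_num) (by norm_num) (by norm_num) (by norm_num) (by norm_num)
    (exp_neg_leJ (r := 0.21) 6 (by norm_num) (by norm_num) (by norm_num) (by norm_num))
    (exp_neg_leJ (r := 0.791) 3 (by norm_num) (by norm_num) (by norm_num) (by norm_num))
    (exp_neg_leJ (r := 0.667) 6 (by norm_num) (by norm_num) (by norm_num) (by norm_num))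
    (exp_neg_leJ (r := 0.406) 14 (by norm_num) (by norm_num) (by norm_num) (by norm_num))
    (exp_neg_leJ (r := 0.162) 7 (by norm_num) (by norm_num) (by norm_num) (by norm_num))
    (exp_neg_leJ (r := 0.99) 14 (by norm_num) (by norm_num) (by norm_num) (by norm_num))
    (exp_neg_leJ (r := 0.99) 14 (by norm_num) (by norm_num) (by norm_num) (by norm_num))
    (exp_neg_leJ (r := 0.99) 14 (by norm_num) (by norm_num) (by norm_num) (by norm_num))
    (by norm_num)) (by norm_num) hN hβ.le (by norm_num)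

private theorem B5Io_T45_0_3 {β x y : ℝ} (hβ : 0 < β) (hN : β * 8.695 ≤ 1) (hx1 : 1.599 ≤ x) (hx2 : x ≤ 1.714)
    (hy1 : -0.4791 ≤ y) (hy2 : y ≤ -0.3659) : ‖HH β (x + y * I) - 1‖ ≤ 0.16 := by
  refine le_epsJ (C := 1.391) (N0 := 8.695) (J_boxp 1.599 1.714 0.4791 0 (-0.3659) 1.4957 1.7798 1.8276 0.7391 0.5394 2.9488 8.695 1.19 5.863 1.736 0.3186 0.7478 0.4512 0.7993 1.5916 0.8699 2.7139 3.4663 3.072 0.001501 0.01984 0.0009625 0.0000009795 0.0005195 0.0000003101 0.0000003101 0.0000003101 1.391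
    hβ hN hx1 hx2 hy1 hy2 (by norm_num) (by norm_num) (by linarith) (by norm_num) (by norm_num) (by norm_num) (by norm_num) (by norm_num) (by norm_num) (by norm_num) (by norm_num) (by norm_num) (by norm_num) (by norm_num) (by norm_num) (by norm_num) (by norm_num) (by norm_num) (by norm_num) (by norm_num) (by norm_num) (by norm_num) (by norm_num) (by norm_num)
    (cube_sqrt_geJ (s := 0.7767) (by norm_num) (by norm_num) (by norm_num) (by norm_num))
    (cube_sqrt_geJ (s := 0.9242) (by norm_num) (by norm_num) (by norm_num) (by norm_num))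
    (by norm_num) (by norm_num) (by norm_num) (by norm_num) (by norm_num) (by norm_num) (by norm_num) (by norm_num) (by norm_num) (by norm_num) (by norm_num) (by norm_num) (by norm_num) (by norm_num) (by norm_num) (by norm_num) (by norm_num) (by norm_num)
    (exp_neg_leJ (r := 0.502) 6 (by norm_num) (by norm_num) (by norm_num) (by norm_num))
    (exp_neg_leJ (r := 0.923) 3 (by norm_num) (by norm_num) (by norm_num) (by norm_num))
    (exp_neg_leJ (r := 0.949) 6 (by norm_num) (by norm_num) (by norm_num) (by norm_num))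
    (exp_neg_leJ (r := 0.838) 13 (by norm_num) (by norm_num) (by norm_num) (by norm_num))
    (exp_neg_leJ (r := 0.563) 7 (by norm_num) (by norm_num) (by norm_num) (by norm_num))
    (exp_neg_leJ (r := 0.99) 14 (by norm_num) (by norm_num) (by norm_num) (by norm_num))
    (exp_neg_leJ (r := 0.99) 14 (by norm_num) (by norm_num) (by norm_num) (by norm_num))
    (exp_neg_leJ (r := 0.99) 14 (by norm_num) (by norm_num) (by norm_num) (by norm_num))
    (by norm_num)) (by norm_num) hN hβ.le (by norm_num)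

private theorem B5Io_T45_0_4 {β x y : ℝ} (hβ : 0 < β) (hN : β * 8.695 ≤ 1) (hx1 : 1.714 ≤ x) (hx2 : x ≤ 1.8203)
    (hy1 : -0.4791 ≤ y) (hy2 : y ≤ -0.3659) : ‖HH β (x + y * I) - 1‖ ≤ 0.16 := by
  refine le_epsJ (C := 1.3072) (N0 := 8.695) (J_boxp 1.714 1.8203 0.4791 0 (-0.3659) 1.5767 1.8823 1.9276 0.7013 0.5539 2.9488 8.695 1.1939 5.907 1.739 0.2777 0.7883 0.4746 0.8387 1.5312 0.9258 2.8732 3.6963 3.0234 0.001058 0.01615 0.000681 0.000001653 0.0003195 0.0000003101 0.0000003101 0.0000003101 1.3072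
    hβ hN hx1 hx2 hy1 hy2 (by norm_num) (by norm_num) (by linarith) (by norm_num) (by norm_num) (by norm_num) (by norm_num) (by norm_num) (by norm_num) (by norm_num) (by norm_num) (by norm_num) (by norm_num) (by norm_num) (by norm_num) (by norm_num) (by norm_num) (by norm_num) (by norm_num) (by norm_num) (by norm_num) (by norm_num) (by norm_num) (by norm_num)
    (cube_sqrt_geJ (s := 0.7759) (by norm_num) (by norm_num) (by norm_num) (by norm_num))
    (cube_sqrt_geJ (s := 0.924) (by norm_num) (by norm_num) (by norm_num) (by norm_num))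
    (by norm_num) (by norm_num) (by norm_num) (by norm_num) (by norm_num) (by norm_num) (by norm_num) (by norm_num) (by norm_num) (by norm_num) (by norm_num) (by norm_num) (by norm_num) (by norm_num) (by norm_num) (by norm_num) (by norm_num) (by norm_num)
    (exp_neg_leJ (r := 0.854) 6 (by norm_num) (by norm_num) (by norm_num) (by norm_num))
    (exp_neg_leJ (r := 0.126) 4 (by norm_num) (by norm_num) (by norm_num) (by norm_num))
    (exp_neg_leJ (r := 0.292) 7 (by norm_num) (by norm_num) (by norm_num) (by norm_num))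
    (exp_neg_leJ (r := 0.313) 13 (by norm_num) (by norm_num) (by norm_num) (by norm_num))
    (exp_neg_leJ (r := 0.049) 8 (by norm_num) (by norm_num) (by norm_num) (by norm_num))
    (exp_neg_leJ (r := 0.99) 14 (by norm_num) (by norm_num) (by norm_num) (by norm_num))
    (exp_neg_leJ (r := 0.99) 14 (by norm_num) (by norm_num) (by norm_num) (by norm_num))
    (exp_neg_leJ (r := 0.99) 14 (by norm_num) (by norm_num) (by norm_num) (by norm_num))
    (by norm_num)) (by norm_num) hN hβ.le (by norm_num)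

private theorem B5Io_T45 {β x y : ℝ} (hβ : 0 < β) (hN : β * 8.695 ≤ 1) (hx1 : 1.3599 ≤ x) (hx2 : x ≤ 1.8203)
    (hy1 : (-0.4791) ≤ y) (hy2 : y ≤ (-0.3659)) : ‖HH β (x + y * I) - 1‖ ≤ 0.16 := by
  rcases le_total x 1.425 with hxx | hxx
  · exact B5Io_T45_0_0 hβ hN (by linarith) (by linarith) (by linarith) (by linarith)
  rcases le_total x 1.504 with hxx | hxx
  · exact B5Io_T45_0_1 hβ hN (by linarith) (by linarith) (by linarith) (by linarith)
  rcases le_total x 1.599 with hxx | hxx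
  · exact B5Io_T45_0_2 hβ hN (by linarith) (by linarith) (by linarith) (by linarith)
  rcases le_total x 1.714 with hxx | hxx
  · exact B5Io_T45_0_3 hβ hN (by linarith) (by linarith) (by linarith) (by linarith)
  exact B5Io_T45_0_4 hβ hN (by linarith) (by linarith) (by linarith) (by linarith)

private theorem B5Io_U46 {β r t κ h t' : ℝ} (hβ : 0 < β) (hκ : κ = β * r) (hN : β * 8.695 ≤ 1) (hk1 : 1 ≤ κ) (hk2 : κ ≤ 1.15)
    (ht : t' = t + (((0 : ℤ) : ℝ) - 1) * h) (hD : DomR κ t') (hta : (-0.8417) ≤ t' + κ) (htb : t' + κ ≤ (-0.6911)) :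
    ‖Xf β r h t 0‖ ≤ 0.9372 * Real.exp (r * sE κ t') := by
  obtain ⟨⟨ya, yb⟩, ⟨xa, xb⟩, n1, Da, Db⟩ := B5Io_B44 hD hk1 hk2 hta htb
  have J := B5Io_T45 (x := sx κ t') (y := sy κ t') hβ hN (by linarith only [xa, xb, ya, yb]) (by linarith only [xa, xb, ya, yb]) (by linarith only [xa, xb, ya, yb]) (by linarith only [xa, xb, ya, yb])
  exact v5_Jup (h := h) (t := t) (k := 0) hβ hκ ht hD 0.16 2.3472 0.9372 J Da (by norm_num) (by norm_num)

private theorem B5Io_K47 {β r t κ h : ℝ} (hβ : 0 < β) (hr : 10 ≤ r) (hκ : κ = β * r) (hk1 : 1 ≤ κ) (hk2 : κ ≤ 1.15)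
    (hh : h = 2 * Real.pi / 5) (hh1 : 1.25663 ≤ h) (hh2 : h ≤ 1.25664) (hta : 0.415 ≤ t + κ) (htb : t + κ ≤ 0.5655) (hN : β * 8.695 ≤ 1)
    (hD : DomR κ (t - h)) (hY : 0.7631 * Real.exp (r * sE κ t) ≤ ‖Xf β r h t 1‖) (hV : 1.0533 - 0.2282 * (t + κ) ≤ sE κ t) :
    ‖Xf β r h t 0‖ ≤ 0.885 * ‖Xf β r h t 1‖ := by
  have hU := B5Io_U46 (h := h) (t := t) hβ hκ hN hk1 hk2 (by push_cast; ring) hD (by linarith only [hta, htb, hh1, hh2]) (by linarith only [hta, htb, hh1, hh2])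
  have hW := V_up hD (-0.32) (B5Io_G43 hk1 hk2).1
  exact v5_cmpJ 0.0329 0.72 0.885 hr hU hW hY (by norm_num) (by norm_num) (by norm_num) (by linarith only [hV, hta, htb, hh1, hh2]) (ex_un 0 0.3289 (by norm_num) (by norm_num) (by norm_num) (by norm_num)) (by norm_num)

private theorem B5Io_O48 {β r t κ h : ℝ} (hβ : 0 < β) (hr : 10 ≤ r) (hκ : κ = β * r) (hk1 : 1 ≤ κ) (hk2 : κ ≤ 1.15)
    (hh : h = 2 * Real.pi / 5) (hta : 0.415 ≤ t + κ) (htb : t + κ ≤ 0.5655) :
    ‖Xf β r h t (-2)‖ + ‖Xf β r h t (-1)‖ + ‖Xf β r h t 2‖ < |‖Xf β r h t 1‖ - ‖Xf β r h t 0‖| := by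
  obtain ⟨hh1, hh2⟩ := v5_h hh
  have hκ0 : 0 < κ := by linarith only [hk1]
  have hN : β * 8.695 ≤ 1 := v5_hN 1.15 8.695 hβ hr hκ hk2 (by norm_num) (by norm_num)
  have hD1 : DomR κ t := v5_dom hκ0 (by linarith only [hta, htb, hk1, hk2, hh1, hh2]) (Or.inr (by linarith only [hta, htb, hk1, hk2, hh1, hh2]))
  have e1 : t = t + (((1 : ℤ) : ℝ) - 1) * h := by push_cast; ring
  have hY := B5Io_Y38 (h := h) hβ hκ hN hk1 hk2 e1 hD1 hta htb
  have hV := B5Io_V39 hD1 hk1 hk2 hta htb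
  have hD0 : DomR κ (t - h) := v5_dom hκ0 (by linarith only [hta, htb, hk1, hk2, hh1, hh2]) (Or.inl (by linarith only [hk1]))
  have cp2 := B5Io_K40 hβ hr hκ hk1 hk2 hh hh1 hh2 hta htb hY hV
  have cm1 := B5Io_K41 hβ hr hκ hk1 hk2 hh hh1 hh2 hta htb hY hV
  have cm2 := B5Io_K42 hβ hr hκ hk1 hk2 hh hh1 hh2 hta htb hY hV
  have cn0 := B5Io_K47 hβ hr hκ hk1 hk2 hh hh1 hh2 hta htb hN hD0 hY hV
  have hp : 0 < ‖Xf β r h t 1‖ := lt_of_lt_of_le (by positivity) hY
  exact v5_out1 _ _ _ _ cm2 cm1 cp2 cn0 hp (by norm_num)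

private theorem B5Io_B49 {κ t : ℝ} (h : DomR κ t) (hk1 : 1 ≤ κ) (hk2 : κ ≤ 1.15) (ht1 : (-0.4902) ≤ t + κ) (ht2 : t + κ ≤ (-0.3766)) :
    ((-0.271) ≤ sy κ t ∧ sy κ t ≤ (-0.196)) ∧ (1.1859 ≤ sx κ t ∧ sx κ t ≤ 1.4952) ∧ κ * Real.exp (-sy κ t) ≤ 1.508 ∧ 2.0879 ≤ sD κ t ∧ sD κ t ≤ 2.732 := by
  have hy1 : -0.271 ≤ sy κ t := syL_ge h 1 1.15 0.4902 0.271 0.76261 0.76262 0.1954 0.17971 0.20668 hk1 hk2 (by linarith) (by norm_num) (by norm_num) (by norm_num)
    (expm_ge (by norm_num) (by norm_num) (by norm_num) (by norm_num)) (expm_le (by norm_num) (by norm_num) (by norm_num)) (by norm_num)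
    (by norm_num) (by norm_num) (by norm_num) (by norm_num) (by norm_num) (by norm_num)
  have hy2 : sy κ t ≤ -0.196 := syL_le h 1 1.15 0.3766 0.196 0.82201 0.82202 0.14009 0.16112 hk1 hk2 (by linarith) (by norm_num) (by norm_num) (by norm_num)
    (expm_ge (by norm_num) (by norm_num) (by norm_num) (by norm_num)) (expm_le (by norm_num) (by norm_num) (by norm_num)) (by norm_num)
    (by norm_num) (by norm_num) (by norm_num) (by norm_num) (by norm_num) (by norm_num)
  have hy1' : (-0.271) ≤ sy κ t := by linarith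
  have hy2' : sy κ t ≤ (-0.196) := by linarith
  have hx1 : 1.1859 ≤ sx κ t := sx_lo h 1 (-0.196) 0.2711 1.21652 1.1859 hk1 (by norm_num) hy2' (abs_le.2 ⟨by linarith, by linarith⟩) (ex_lp 0.196 (by norm_num) (by norm_num) (by norm_num)) (by norm_num) (by norm_num)
  have hx2 : sx κ t ≤ 1.4952 := sx_hi h 1.15 (-0.271) 0.196 1.31128 1.4952 hk2 hy1' (by norm_num) (le_trans (by linarith) (neg_le_abs _)) (ex_up 0.271 (by norm_num) (by norm_num) (by norm_num) (by norm_num)) (by norm_num) (by norm_num)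
  refine ⟨⟨hy1', hy2'⟩, ⟨hx1, hx2⟩, v5_n h 1.15 (-0.271) 1.31128 1.508 hk2 hy1' (ex_up 0.271 (by norm_num) (by norm_num) (by norm_num) (by norm_num)) (by norm_num), ?_, ?_⟩
  · exact v5_Dlo h 1 (-0.271) (-0.196) (-0.196) 1.21652 2.0879 (by norm_num) hk1 hy1' hy2' (ex_lp 0.196 (by norm_num) (by norm_num) (by norm_num)) (by norm_num) (by norm_num) (by norm_num) (by norm_num)
  · exact v5_Dup h 1.15 (-0.271) (-0.196) 1.31128 1.21653 2.732 hk2 hy1' hy2' (ex_up 0.271 (by norm_num) (by norm_num) (by norm_num) (by norm_num)) (ex_up 0.196 (by norm_num) (by norm_num) (by norm_num) (by norm_num)) (by norm_num) (by norm_num) (by norm_num)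

private theorem B5Io_T50_0_0 {β x y : ℝ} (hβ : 0 < β) (hN : β * 8.695 ≤ 1) (hx1 : 1.1858 ≤ x) (hx2 : x ≤ 1.265)
    (hy1 : -0.2711 ≤ y) (hy2 : y ≤ -0.1959) : ‖HH β (x + y * I) - 1‖ ≤ 0.095 := by
  refine le_epsJ (C := 0.825) (N0 := 8.695) (J_boxp 1.1858 1.265 0.2711 0 (-0.1959) 1.3525 1.2938 1.499 0.7784 0.4885 2.9488 8.695 0.9566 3.835 1.547 0.6833 0.6762 0.4606 0.9862 2.5141 0.7828 2.1418 3.2053 3.5667 0.002804 0.01825 0.0001889 0.0000003101 0.001109 0.0000003101 0.0000003101 0.0000003101 0.825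
    hβ hN hx1 hx2 hy1 hy2 (by norm_num) (by norm_num) (by linarith) (by norm_num) (by norm_num) (by norm_num) (by norm_num) (by norm_num) (by norm_num) (by norm_num) (by norm_num) (by norm_num) (by norm_num) (by norm_num) (by norm_num) (by norm_num) (by norm_num) (by norm_num) (by norm_num) (by norm_num) (by norm_num) (by norm_num) (by norm_num) (by norm_num)
    (cube_sqrt_geJ (s := 0.8253) (by norm_num) (by norm_num) (by norm_num) (by norm_num))
    (cube_sqrt_geJ (s := 0.9396) (by norm_num) (by norm_num) (by norm_num) (by norm_num))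
    (by norm_num) (by norm_num) (by norm_num) (by norm_num) (by norm_num) (by norm_num) (by norm_num) (by norm_num) (by norm_num) (by norm_num) (by norm_num) (by norm_num) (by norm_num) (by norm_num) (by norm_num) (by norm_num) (by norm_num) (by norm_num)
    (exp_neg_leJ (r := 0.879) 5 (by norm_num) (by norm_num) (by norm_num) (by norm_num))
    (exp_neg_leJ (r := 0.004) 4 (by norm_num) (by norm_num) (by norm_num) (by norm_num))
    (exp_neg_leJ (r := 0.575) 8 (by norm_num) (by norm_num) (by norm_num) (by norm_num))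
    (exp_neg_leJ (r := 0.99) 14 (by norm_num) (by norm_num) (by norm_num) (by norm_num))
    (exp_neg_leJ (r := 0.806) 6 (by norm_num) (by norm_num) (by norm_num) (by norm_num))
    (exp_neg_leJ (r := 0.99) 14 (by norm_num) (by norm_num) (by norm_num) (by norm_num))
    (exp_neg_leJ (r := 0.99) 14 (by norm_num) (by norm_num) (by norm_num) (by norm_num))
    (exp_neg_leJ (r := 0.99) 14 (by norm_num) (by norm_num) (by norm_num) (by norm_num))
    (by norm_num)) (by norm_num) hN hβ.le (by norm_num)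

private theorem B5Io_T50_0_1 {β x y : ℝ} (hβ : 0 < β) (hN : β * 8.695 ≤ 1) (hx1 : 1.265 ≤ x) (hx2 : x ≤ 1.352)
    (hy1 : -0.2711 ≤ y) (hy2 : y ≤ -0.1959) : ‖HH β (x + y * I) - 1‖ ≤ 0.095 := by
  refine le_epsJ (C := 0.8243) (N0 := 8.695) (J_boxp 1.265 1.352 0.2711 0 (-0.1959) 1.4083 1.379 1.5731 0.7505 0.5004 2.9488 8.695 0.9792 3.987 1.564 0.6498 0.7041 0.4743 1.0133 2.4642 0.8213 2.2515 3.3637 3.4935 0.002195 0.01618 0.0001495 0.0000003101 0.000792 0.0000003101 0.0000003101 0.0000003101 0.8243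
    hβ hN hx1 hx2 hy1 hy2 (by norm_num) (by norm_num) (by linarith) (by norm_num) (by norm_num) (by norm_num) (by norm_num) (by norm_num) (by norm_num) (by norm_num) (by norm_num) (by norm_num) (by norm_num) (by norm_num) (by norm_num) (by norm_num) (by norm_num) (by norm_num) (by norm_num) (by norm_num) (by norm_num) (by norm_num) (by norm_num) (by norm_num)
    (cube_sqrt_geJ (s := 0.8207) (by norm_num) (by norm_num) (by norm_num) (by norm_num))
    (cube_sqrt_geJ (s := 0.9381) (by norm_num) (by norm_num) (by norm_num) (by norm_num))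
    (by norm_num) (by norm_num) (by norm_num) (by norm_num) (by norm_num) (by norm_num) (by norm_num) (by norm_num) (by norm_num) (by norm_num) (by norm_num) (by norm_num) (by norm_num) (by norm_num) (by norm_num) (by norm_num) (by norm_num) (by norm_num)
    (exp_neg_leJ (r := 0.122) 6 (by norm_num) (by norm_num) (by norm_num) (by norm_num))
    (exp_neg_leJ (r := 0.124) 4 (by norm_num) (by norm_num) (by norm_num) (by norm_num))
    (exp_neg_leJ (r := 0.81) 8 (by norm_num) (by norm_num) (by norm_num) (by norm_num))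
    (exp_neg_leJ (r := 0.99) 14 (by norm_num) (by norm_num) (by norm_num) (by norm_num))
    (exp_neg_leJ (r := 0.141) 7 (by norm_num) (by norm_num) (by norm_num) (by norm_num))
    (exp_neg_leJ (r := 0.99) 14 (by norm_num) (by norm_num) (by norm_num) (by norm_num))
    (exp_neg_leJ (r := 0.99) 14 (by norm_num) (by norm_num) (by norm_num) (by norm_num))
    (exp_neg_leJ (r := 0.99) 14 (by norm_num) (by norm_num) (by norm_num) (by norm_num))
    (by norm_num)) (by norm_num) hN hβ.le (by norm_num)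

private theorem B5Io_T50_0_2 {β x y : ℝ} (hβ : 0 < β) (hN : β * 8.695 ≤ 1) (hx1 : 1.352 ≤ x) (hx2 : x ≤ 1.448)
    (hy1 : -0.2711 ≤ y) (hy2 : y ≤ -0.1959) : ‖HH β (x + y * I) - 1‖ ≤ 0.095 := by
  refine le_epsJ (C := 0.8259) (N0 := 8.695) (J_boxp 1.352 1.448 0.2711 0 (-0.1959) 1.4695 1.4732 1.6563 0.7225 0.5135 2.9488 8.695 1.0026 4.153 1.582 0.6129 0.7347 0.4891 1.0431 2.4092 0.8636 2.3719 3.5377 3.4115 0.001682 0.01424 0.0001152 0.0000003101 0.0005483 0.0000003101 0.0000003101 0.0000003101 0.8259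
    hβ hN hx1 hx2 hy1 hy2 (by norm_num) (by norm_num) (by linarith) (by norm_num) (by norm_num) (by norm_num) (by norm_num) (by norm_num) (by norm_num) (by norm_num) (by norm_num) (by norm_num) (by norm_num) (by norm_num) (by norm_num) (by norm_num) (by norm_num) (by norm_num) (by norm_num) (by norm_num) (by norm_num) (by norm_num) (by norm_num) (by norm_num)
    (cube_sqrt_geJ (s := 0.8159) (by norm_num) (by norm_num) (by norm_num) (by norm_num))
    (cube_sqrt_geJ (s := 0.9366) (by norm_num) (by norm_num) (by norm_num) (by norm_num))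
    (by norm_num) (by norm_num) (by norm_num) (by norm_num) (by norm_num) (by norm_num) (by norm_num) (by norm_num) (by norm_num) (by norm_num) (by norm_num) (by norm_num) (by norm_num) (by norm_num) (by norm_num) (by norm_num) (by norm_num) (by norm_num)
    (exp_neg_leJ (r := 0.388) 6 (by norm_num) (by norm_num) (by norm_num) (by norm_num))
    (exp_neg_leJ (r := 0.252) 4 (by norm_num) (by norm_num) (by norm_num) (by norm_num))
    (exp_neg_leJ (r := 0.069) 9 (by norm_num) (by norm_num) (by norm_num) (by norm_num))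
    (exp_neg_leJ (r := 0.99) 14 (by norm_num) (by norm_num) (by norm_num) (by norm_num))
    (exp_neg_leJ (r := 0.509) 7 (by norm_num) (by norm_num) (by norm_num) (by norm_num))
    (exp_neg_leJ (r := 0.99) 14 (by norm_num) (by norm_num) (by norm_num) (by norm_num))
    (exp_neg_leJ (r := 0.99) 14 (by norm_num) (by norm_num) (by norm_num) (by norm_num))
    (exp_neg_leJ (r := 0.99) 14 (by norm_num) (by norm_num) (by norm_num) (by norm_num))
    (by norm_num)) (by norm_num) hN hβ.le (by norm_num)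

private theorem B5Io_T50_0_3 {β x y : ℝ} (hβ : 0 < β) (hN : β * 8.695 ≤ 1) (hx1 : 1.448 ≤ x) (hx2 : x ≤ 1.4953)
    (hy1 : -0.2711 ≤ y) (hy2 : y ≤ -0.1959) : ‖HH β (x + y * I) - 1‖ ≤ 0.095 := by
  refine le_epsJ (C := 0.7361) (N0 := 8.695) (J_boxp 1.448 1.4953 0.2711 0 (-0.1959) 1.5371 1.5197 1.6978 0.6838 0.5199 2.9488 8.695 0.9887 4.054 1.571 0.5947 0.7685 0.5152 1.076 2.3821 0.9102 2.5049 3.7297 3.477 0.001255 0.01135 0.00008654 0.0000003101 0.0003666 0.0000003101 0.0000003101 0.0000003101 0.7361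
    hβ hN hx1 hx2 hy1 hy2 (by norm_num) (by norm_num) (by linarith) (by norm_num) (by norm_num) (by norm_num) (by norm_num) (by norm_num) (by norm_num) (by norm_num) (by norm_num) (by norm_num) (by norm_num) (by norm_num) (by norm_num) (by norm_num) (by norm_num) (by norm_num) (by norm_num) (by norm_num) (by norm_num) (by norm_num) (by norm_num) (by norm_num)
    (cube_sqrt_geJ (s := 0.8187) (by norm_num) (by norm_num) (by norm_num) (by norm_num))
    (cube_sqrt_geJ (s := 0.9375) (by norm_num) (by norm_num) (by norm_num) (by norm_num))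
    (by norm_num) (by norm_num) (by norm_num) (by norm_num) (by norm_num) (by norm_num) (by norm_num) (by norm_num) (by norm_num) (by norm_num) (by norm_num) (by norm_num) (by norm_num) (by norm_num) (by norm_num) (by norm_num) (by norm_num) (by norm_num)
    (exp_neg_leJ (r := 0.682) 6 (by norm_num) (by norm_num) (by norm_num) (by norm_num))
    (exp_neg_leJ (r := 0.479) 4 (by norm_num) (by norm_num) (by norm_num) (by norm_num))
    (exp_neg_leJ (r := 0.355) 9 (by norm_num) (by norm_num) (by norm_num) (by norm_num))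
    (exp_neg_leJ (r := 0.99) 14 (by norm_num) (by norm_num) (by norm_num) (by norm_num))
    (exp_neg_leJ (r := 0.914) 7 (by norm_num) (by norm_num) (by norm_num) (by norm_num))
    (exp_neg_leJ (r := 0.99) 14 (by norm_num) (by norm_num) (by norm_num) (by norm_num))
    (exp_neg_leJ (r := 0.99) 14 (by norm_num) (by norm_num) (by norm_num) (by norm_num))
    (exp_neg_leJ (r := 0.99) 14 (by norm_num) (by norm_num) (by norm_num) (by norm_num))
    (by norm_num)) (by norm_num) hN hβ.le (by norm_num)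

private theorem B5Io_T50 {β x y : ℝ} (hβ : 0 < β) (hN : β * 8.695 ≤ 1) (hx1 : 1.1858 ≤ x) (hx2 : x ≤ 1.4953)
    (hy1 : (-0.2711) ≤ y) (hy2 : y ≤ (-0.1959)) : ‖HH β (x + y * I) - 1‖ ≤ 0.095 := by
  rcases le_total x 1.265 with hxx | hxx
  · exact B5Io_T50_0_0 hβ hN (by linarith) (by linarith) (by linarith) (by linarith)
  rcases le_total x 1.352 with hxx | hxx
  · exact B5Io_T50_0_1 hβ hN (by linarith) (by linarith) (by linarith) (by linarith)
  rcases le_total x 1.448 with hxx | hxx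
  · exact B5Io_T50_0_2 hβ hN (by linarith) (by linarith) (by linarith) (by linarith)
  exact B5Io_T50_0_3 hβ hN (by linarith) (by linarith) (by linarith) (by linarith)

private theorem B5Io_G51 {κ : ℝ} (hk1 : 1 ≤ κ) (hk2 : κ ≤ 1.15) : gG κ 0.45 ≤ 1.29607 ∧ 0.35521 ≤ Real.exp (-(κ * 0.45)) ^ 2 := by
  refine ⟨gG_le 0.45 1 1.15 1.29607 0.63763 0.59601 1.56832 1.67783 hk1 hk2 (by norm_num)
    (ex_um 0.45 (by norm_num) (by norm_num) (by norm_num) (by norm_num)) (ex_um 0.5175 (by norm_num) (by norm_num) (by norm_num) (by norm_num))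
    (ex_up 0.45 (by norm_num) (by norm_num) (by norm_num) (by norm_num)) (ex_up 0.5175 (by norm_num) (by norm_num) (by norm_num) (by norm_num))
    (by norm_num) (by norm_num), ?_⟩
  exact v5_M 0.596 (ex_lm 0.5175 (by linarith) (by norm_num) (by norm_num) (by norm_num) (by norm_num)) (by norm_num) (by norm_num)

private theorem B5Io_C52 {β r t κ : ℝ} (hβ : 0 < β) (hr : 10 ≤ r) (hκ : κ = β * r) (hk1 : 1 ≤ κ) (hk2 : κ ≤ 1.15) (hta : 2.0231 ≤ t + κ)
    (htb : t + κ ≤ 2.1367) : ‖F (cexp (I * β)) (r * cexp (I * ((t + β / 2 : ℝ) : ℂ)))‖ ≤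
      2.1125 * Real.exp (r * (1.29607 - 0.45 * (t + κ))) + 0.1907 * Real.exp (r * 0) :=
  v5_H 0.45 1 1.15 2.0231 2.1367 1.29607 1.9592 0.35521 0.1353 2.4437 0.4339 0.0717 0.4914 0.00000122 2.1125 0.1907 hβ hr hκ (by norm_num) hk1 hk2 hta htb (by norm_num) (B5Io_G51 hk1 hk2).1 (B5Io_G51 hk1 hk2).2 (by norm_num) (by norm_num) (by norm_num)
    (by norm_num) (by norm_num) (by norm_num) (by norm_num) (by norm_num) (by norm_num) (by norm_num) (by norm_num) (ex_un 0 0.7169 (by norm_num) (by norm_num) (by norm_num) (by norm_num))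
    (v5_hump 1.5992 8.695 2.9488 0.0000009272 0.00000122 hβ hr hκ hk1 hk2 (by norm_num) htb (by norm_num) (by norm_num) (by norm_num) (by norm_num) (by norm_num) (by norm_num) (by norm_num) (ex_un 13 0.905 (by norm_num) (by norm_num) (by norm_num) (by norm_num)) (by norm_num)) (by norm_num) (by norm_num)

private theorem B5Io_C53 {β r t κ : ℝ} (hβ : 0 < β) (hr : 10 ≤ r) (hκ : κ = β * r) (hk1 : 1 ≤ κ) (hk2 : κ ≤ 1.15) (hta : (-1.7468) ≤ t + κ)
    (htb : t + κ ≤ (-1.6332)) : ‖F (cexp (I * β)) (r * cexp (I * ((t + β / 2 : ℝ) : ℂ)))‖ ≤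
      0.8872 * Real.exp (r * (1.55848 - (-0.71) * (t + κ))) + 1.8405 * Real.exp (r * 0.0501) :=
  v5_HU (-0.71) 1 1.15 (-1.7468) (-1.6332) 1.55848 0.8872 4.13703 0.1353 0.7653 1.8151 0 0.0501 0.00000123 1.8405 hβ hr hκ (by norm_num) hk1 hk2 hta htb (by norm_num) (by norm_num) (B5Io_G5 hk1 hk2).1 (B5Io_G5 hk1 hk2).2 (by norm_num) (by norm_num) (by norm_num)
    (by norm_num) (by norm_num) (by norm_num) (by norm_num) (by norm_num) (by norm_num) (by norm_num)
    (by norm_num) (by norm_num) (by norm_num) (v5_hump 5.3691 8.695 2.9488 0.0000009316 0.00000123 hβ hr hκ hk1 hk2 (by norm_num) htb (by norm_num) (by norm_num) (by norm_num) (by norm_num) (by norm_num) (by norm_num) (by norm_num) (ex_un 13 0.9 (by norm_num) (by norm_num) (by norm_num) (by norm_num)) (by norm_num)) (by norm_num)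

private theorem B5Io_C54 {β r t κ : ℝ} (hβ : 0 < β) (hr : 10 ≤ r) (hκ : κ = β * r) (hk1 : 1 ≤ κ) (hk2 : κ ≤ 1.15) (hta : 3.2797 ≤ t + κ)
    (htb : t + κ ≤ 3.3933) : ‖F (cexp (I * β)) (r * cexp (I * ((t + β / 2 : ℝ) : ℂ)))‖ ≤
      2.1096 * Real.exp (r * (0.01 + 1 / 20)) :=
  v5_UD 1 1.15 3.2797 3.3933 0.01 0.399 0.01 1.0998 2.1096 hβ hr hκ (by norm_num) hk1 hk2 hta htb (by norm_num) (by norm_num) (by norm_num) (by norm_num) (by norm_num) (by norm_num) (by norm_num) (by norm_num) (by norm_num) (by norm_num) (by norm_num)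

private theorem B5Io_Y55 {β r t κ h t' : ℝ} (hβ : 0 < β) (hκ : κ = β * r) (hN : β * 8.695 ≤ 1) (hk1 : 1 ≤ κ) (hk2 : κ ≤ 1.15)
    (ht : t' = t + (((0 : ℤ) : ℝ) - 1) * h) (hD : DomR κ t') (hta : (-0.4902) ≤ t' + κ) (htb : t' + κ ≤ (-0.3766)) :
    0.7039 * Real.exp (r * sE κ t') ≤ ‖Xf β r h t 0‖ := by
  obtain ⟨⟨ya, yb⟩, ⟨xa, xb⟩, n1, Da, Db⟩ := B5Io_B49 hD hk1 hk2 hta htb
  have J := B5Io_T50 (x := sx κ t') (y := sy κ t') hβ hN (by linarith only [xa, xb, ya, yb]) (by linarith only [xa, xb, ya, yb]) (by linarith only [xa, xb, ya, yb]) (by linarith only [xa, xb, ya, yb])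
  exact v5_Jlo hβ hκ (k := 0) ht hD 0.095 2.732 0.7039 (by norm_num) J Db (by norm_num)

private theorem B5Io_V56 {κ t : ℝ} (hD : DomR κ t) (hk1 : 1 ≤ κ) (hk2 : κ ≤ 1.15) (hta : (-0.4902) ≤ t + κ) (htb : t + κ ≤ (-0.3766)) :
    1.05066 + 0.2379 * (t + κ) ≤ sE κ t := by
  have hκ0 : 0 < κ := hD.1
  exact v5_V0 hD 1 1.15 (-0.4902) (-0.3766) 0.4903 0.5489 0.08334 0.21863 0.12501 0.57501 1.05066 0.2379 (by norm_num) hk1 hk2 (by norm_num) hta htb (by norm_num) (by norm_num) (by norm_num) ((cup2 1 (by norm_num) hk1).trans (by norm_num))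
      (by norm_num) (by norm_num) (by norm_num) (by norm_num) (by norm_num) (by norm_num) (by norm_num) (by norm_num) (by norm_num) (by norm_num) (by norm_num) (by norm_num) (by norm_num)

private theorem B5Io_K57 {β r t κ h : ℝ} (hβ : 0 < β) (hr : 10 ≤ r) (hκ : κ = β * r) (hk1 : 1 ≤ κ) (hk2 : κ ≤ 1.15)
    (hh : h = 2 * Real.pi / 5) (hh1 : 1.25663 ≤ h) (hh2 : h ≤ 1.25664) (hta : 0.7665 ≤ t + κ) (htb : t + κ ≤ 0.88)
    (hY : 0.7039 * Real.exp (r * sE κ (t - h)) ≤ ‖Xf β r h t 0‖) (hV : 1.05066 + 0.2379 * (t - h + κ) ≤ sE κ (t - h)) :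
    ‖Xf β r h t 2‖ ≤ 0.0126 * ‖Xf β r h t 0‖ := by
  rw [v5_X 2 1 (by push_cast; ring)]
  exact v5_cmp 0.5483 0.004164 0.0125 0.934 0.00008789 0.0000239 0.0126 hr (B5Io_C52 (t := t + 1 * h) hβ hr hκ hk1 hk2 (by linarith only [hta, htb, hh1, hh2]) (by linarith only [hta, htb, hh1, hh2])) hY (by norm_num) (by norm_num) (by norm_num) (by norm_num) (by linarith only [hV, hta, htb, hh1, hh2]) (ex_un 5 0.4829 (by norm_num) (by norm_num) (by norm_num) (by norm_num)) (by norm_num) (by norm_num) (by linarith only [hV, hta, htb, hh1, hh2]) (ex_un 9 0.3399 (by norm_num) (by norm_num) (by norm_num) (by norm_num)) (by norm_num) (by norm_num)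

private theorem B5Io_K58 {β r t κ h : ℝ} (hβ : 0 < β) (hr : 10 ≤ r) (hκ : κ = β * r) (hk1 : 1 ≤ κ) (hk2 : κ ≤ 1.15)
    (hh : h = 2 * Real.pi / 5) (hh1 : 1.25663 ≤ h) (hh2 : h ≤ 1.25664) (hta : 0.7665 ≤ t + κ) (htb : t + κ ≤ 0.88)
    (hY : 0.7039 * Real.exp (r * sE κ (t - h)) ≤ ‖Xf β r h t 0‖) (hV : 1.05066 + 0.2379 * (t - h + κ) ≤ sE κ (t - h)) :
    ‖Xf β r h t (-1)‖ ≤ 0.00498 * ‖Xf β r h t 0‖ := by
  rw [v5_X (-1) (-2) (by push_cast; ring)]
  exact v5_cmp 0.5621 0.003636 0.00459 0.8839 0.0001466 0.000384 0.00498 hr (B5Io_C53 (t := t + (-2) * h) hβ hr hκ hk1 hk2 (by linarith only [hta, htb, hh1, hh2]) (by linarith only [hta, htb, hh1, hh2])) hY (by norm_num) (by norm_num) (by norm_num) (by norm_num) (by linarith only [hV, hta, htb, hh1, hh2]) (ex_un 5 0.6209 (by norm_num) (by norm_num) (by norm_num) (by norm_num)) (by norm_num) (by norm_num) (by linarith only [hV, hta, htb, hh1, hh2]) (ex_un 8 0.8389 (by norm_num) (by norm_num)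 (by norm_num) (by norm_num)) (by norm_num) (by norm_num)

private theorem B5Io_K59 {β r t κ h : ℝ} (hβ : 0 < β) (hr : 10 ≤ r) (hκ : κ = β * r) (hk1 : 1 ≤ κ) (hk2 : κ ≤ 1.15)
    (hh : h = 2 * Real.pi / 5) (hh1 : 1.25663 ≤ h) (hh2 : h ≤ 1.25664) (hta : 0.7665 ≤ t + κ) (htb : t + κ ≤ 0.88)
    (hY : 0.7039 * Real.exp (r * sE κ (t - h)) ≤ ‖Xf β r h t 0‖) (hV : 1.05066 + 0.2379 * (t - h + κ) ≤ sE κ (t - h)) :
    ‖Xf β r h t (-2)‖ ≤ 0.000484 * ‖Xf β r h t 0‖ := by
  rw [v5_Xm2 hh]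
  exact v5_cmp0 0.874 0.0001612 0.000484 hr (B5Io_C54 (t := t + 2 * h) hβ hr hκ hk1 hk2 (by linarith only [hta, htb, hh1, hh2]) (by linarith only [hta, htb, hh1, hh2])) hY (by norm_num) (by norm_num) (by norm_num) (by linarith only [hV, hta, htb, hh1, hh2]) (ex_un 8 0.7399 (by norm_num) (by norm_num) (by norm_num) (by norm_num)) (by norm_num)

private theorem B5Io_G60 {κ : ℝ} (hk1 : 1 ≤ κ) (hk2 : κ ≤ 1.15) : gG κ 0.28 ≤ 1.10157 ∧ 0.52517 ≤ Real.exp (-(κ * 0.28)) ^ 2 := by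
  refine ⟨gG_le 0.28 1 1.15 1.10157 0.75579 0.7247 1.32313 1.37989 hk1 hk2 (by norm_num)
    (ex_um 0.28 (by norm_num) (by norm_num) (by norm_num) (by norm_num)) (ex_um 0.322 (by norm_num) (by norm_num) (by norm_num) (by norm_num))
    (ex_up 0.28 (by norm_num) (by norm_num) (by norm_num) (by norm_num)) (ex_up 0.322 (by norm_num) (by norm_num) (by norm_num) (by norm_num))
    (by norm_num) (by norm_num), ?_⟩
  exact v5_M 0.72469 (ex_lm 0.322 (by linarith) (by norm_num) (by norm_num) (by norm_num) (by norm_num)) (by norm_num) (by norm_num)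

private theorem B5Io_B61 {κ t : ℝ} (h : DomR κ t) (hk1 : 1 ≤ κ) (hk2 : κ ≤ 1.15) (ht1 : 0.7664 ≤ t + κ) (ht2 : t + κ ≤ 0.8801) :
    (0.307 ≤ sy κ t ∧ sy κ t ≤ 0.356) ∧ (0.6032 ≤ sx κ t ∧ sx κ t ≤ 0.7884) ∧ κ * Real.exp (-sy κ t) ≤ 0.8461 ∧ 2.1551 ≤ sD κ t ∧ sD κ t ≤ 2.361 := by
  have hy1 : 0.307 ≤ sy κ t := syR_ge h 1 1.15 0.7664 0.307 1.35934 1.35935 0.36288 0.41733 hk1 hk2 (by linarith) (by norm_num) (by norm_num)
    (expn_ge (by norm_num) (by norm_num)) (expn_le (by norm_num) (by norm_num) (by norm_num)) (by norm_num)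
    (by norm_num) (by norm_num) (by norm_num) (by norm_num) (by norm_num) (by norm_num)
  have hy2 : sy κ t ≤ 0.356 := syR_le h 1 1.15 0.8801 0.356 1.4276 0.4253 0.44193 0.50823 hk1 hk2 (by linarith) (by norm_num) (by norm_num)
    (expn_ge (by norm_num) (by norm_num)) (by norm_num) (by norm_num) (Or.inr ((mul_le_mul_of_nonneg_left (expn_le (E := 1.42761) (by norm_num) (by norm_num) (by norm_num)) (by norm_num)).trans (by norm_num))) (by norm_num) (by norm_num) (by norm_num)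
  have hy1' : 0.307 ≤ sy κ t := by linarith
  have hy2' : sy κ t ≤ 0.356 := by linarith
  have hx1 : 0.6032 ≤ sx κ t := sx_lo h 1 0.356 0.3561 0.70047 0.6032 hk1 (by norm_num) hy2' (abs_le.2 ⟨by linarith, by linarith⟩) (ex_lm 0.356 (by norm_num) (by norm_num) (by norm_num) (by norm_num) (by norm_num)) (by norm_num) (by norm_num)
  have hx2 : sx κ t ≤ 0.7884 := sx_hi h 1.15 0.307 0.307 0.73566 0.7884 hk2 hy1' (by norm_num) (le_trans (by linarith) (le_abs_self _)) (ex_um 0.307 (by norm_num) (by norm_num) (by norm_num) (by norm_num)) (by norm_num) (by norm_num)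
  refine ⟨⟨hy1', hy2'⟩, ⟨hx1, hx2⟩, v5_n h 1.15 0.307 0.73566 0.8461 hk2 hy1' (ex_um 0.307 (by norm_num) (by norm_num) (by norm_num) (by norm_num)) (by norm_num), ?_, ?_⟩
  · exact v5_Dlo h 1 0.307 0.356 0.307 0.73565 2.1551 (by norm_num) hk1 hy1' hy2' (ex_lm 0.307 (by norm_num) (by norm_num) (by norm_num) (by norm_num) (by norm_num)) (by norm_num) (by norm_num) (by norm_num) (by norm_num)
  · exact v5_Dup h 1.15 0.307 0.356 0.73566 0.70048 2.361 hk2 hy1' hy2' (ex_um 0.307 (by norm_num) (by norm_num) (by norm_num) (by norm_num)) (ex_um 0.356 (by norm_num) (by norm_num) (by norm_num) (by norm_num)) (by norm_num) (by norm_num) (by norm_num)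

private theorem B5Io_T62_0_0 {β x y : ℝ} (hβ : 0 < β) (hN : β * 8.695 ≤ 1) (hx1 : 0.6031 ≤ x) (hx2 : x ≤ 0.668)
    (hy1 : -0 ≤ y) (hy2 : y ≤ 0.3561) : ‖HH β (x + y * I) - 1‖ ≤ 0.07 := by
  refine le_epsJ (C := 0.6077) (N0 := 8.695) (J_boxp 0.6031 0.668 0 0.3561 0.3561 1.1347 0.757 1.5117 1.0173 0.4906 2.9488 8.695 0.6672 2.412 1.348 1.1631 0.5673 0.4411 1.2147 3.6938 0.6116 1.2987 1.2495 2.1825 0.007232 0.02164 0.00002592 0.0000003101 0.004908 0.00001248 0.00001918 0.0000003101 0.6077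
    hβ hN hx1 hx2 hy1 hy2 (by norm_num) (by norm_num) (by linarith) (by norm_num) (by norm_num) (by norm_num) (by norm_num) (by norm_num) (by norm_num) (by norm_num) (by norm_num) (by norm_num) (by norm_num) (by norm_num) (by norm_num) (by norm_num) (by norm_num) (by norm_num) (by norm_num) (by norm_num) (by norm_num) (by norm_num) (by norm_num) (by norm_num)
    (cube_sqrt_geJ (s := 0.8818) (by norm_num) (by norm_num) (by norm_num) (by norm_num))
    (cube_sqrt_geJ (s := 0.9582) (by norm_num) (by norm_num) (by norm_num) (by norm_num))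
    (by norm_num) (by norm_num) (by norm_num) (by norm_num) (by norm_num) (by norm_num) (by norm_num) (by norm_num) (by norm_num) (by norm_num) (by norm_num) (by norm_num) (by norm_num) (by norm_num) (by norm_num) (by norm_num) (by norm_num) (by norm_num)
    (exp_neg_leJ (r := 0.932) 4 (by norm_num) (by norm_num) (by norm_num) (by norm_num))
    (exp_neg_leJ (r := 0.835) 3 (by norm_num) (by norm_num) (by norm_num) (by norm_num))
    (exp_neg_leJ (r := 0.561) 10 (by norm_num) (by norm_num) (by norm_num) (by norm_num))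
    (exp_neg_leJ (r := 0.99) 14 (by norm_num) (by norm_num) (by norm_num) (by norm_num))
    (exp_neg_leJ (r := 0.317) 5 (by norm_num) (by norm_num) (by norm_num) (by norm_num))
    (exp_neg_leJ (r := 0.292) 11 (by norm_num) (by norm_num) (by norm_num) (by norm_num))
    (exp_neg_leJ (r := 0.864) 10 (by norm_num) (by norm_num) (by norm_num) (by norm_num))
    (exp_neg_leJ (r := 0.99) 14 (by norm_num) (by norm_num) (by norm_num) (by norm_num))
    (by norm_num)) (by norm_num) hN hβ.le (by norm_num)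

private theorem B5Io_T62_0_1 {β x y : ℝ} (hβ : 0 < β) (hN : β * 8.695 ≤ 1) (hx1 : 0.668 ≤ x) (hx2 : x ≤ 0.752)
    (hy1 : -0 ≤ y) (hy2 : y ≤ 0.3561) : ‖HH β (x + y * I) - 1‖ ≤ 0.07 := by
  refine le_epsJ (C := 0.6077) (N0 := 8.695) (J_boxp 0.668 0.752 0 0.3561 0.3561 1.1804 0.8321 1.5507 0.9711 0.4968 2.9488 8.695 0.705 2.554 1.372 1.1308 0.5901 0.4515 1.2369 3.6476 0.6431 1.3886 1.3793 2.1082 0.005917 0.0198 0.00002139 0.0000003101 0.003733 0.000005712 0.000006228 0.0000003101 0.6077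
    hβ hN hx1 hx2 hy1 hy2 (by norm_num) (by norm_num) (by linarith) (by norm_num) (by norm_num) (by norm_num) (by norm_num) (by norm_num) (by norm_num) (by norm_num) (by norm_num) (by norm_num) (by norm_num) (by norm_num) (by norm_num) (by norm_num) (by norm_num) (by norm_num) (by norm_num) (by norm_num) (by norm_num) (by norm_num) (by norm_num) (by norm_num)
    (cube_sqrt_geJ (s := 0.8746) (by norm_num) (by norm_num) (by norm_num) (by norm_num))
    (cube_sqrt_geJ (s := 0.9558) (by norm_num) (by norm_num) (by norm_num) (by norm_num))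
    (by norm_num) (by norm_num) (by norm_num) (by norm_num) (by norm_num) (by norm_num) (by norm_num) (by norm_num) (by norm_num) (by norm_num) (by norm_num) (by norm_num) (by norm_num) (by norm_num) (by norm_num) (by norm_num) (by norm_num) (by norm_num)
    (exp_neg_leJ (r := 0.13) 5 (by norm_num) (by norm_num) (by norm_num) (by norm_num))
    (exp_neg_leJ (r := 0.925) 3 (by norm_num) (by norm_num) (by norm_num) (by norm_num))
    (exp_neg_leJ (r := 0.754) 10 (by norm_num) (by norm_num) (by norm_num) (by norm_num))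
    (exp_neg_leJ (r := 0.99) 14 (by norm_num) (by norm_num) (by norm_num) (by norm_num))
    (exp_neg_leJ (r := 0.591) 5 (by norm_num) (by norm_num) (by norm_num) (by norm_num))
    (exp_neg_leJ (r := 0.073) 12 (by norm_num) (by norm_num) (by norm_num) (by norm_num))
    (exp_neg_leJ (r := 0.99) 11 (by norm_num) (by norm_num) (by norm_num) (by norm_num))
    (exp_neg_leJ (r := 0.99) 14 (by norm_num) (by norm_num) (by norm_num) (by norm_num))
    (by norm_num)) (by norm_num) hN hβ.le (by norm_num)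

private theorem B5Io_T62_0_2 {β x y : ℝ} (hβ : 0 < β) (hN : β * 8.695 ≤ 1) (hx1 : 0.752 ≤ x) (hx2 : x ≤ 0.7885)
    (hy1 : -0 ≤ y) (hy2 : y ≤ 0.3561) : ‖HH β (x + y * I) - 1‖ ≤ 0.07 := by
  refine le_epsJ (C := 0.5288) (N0 := 8.695) (J_boxp 0.752 0.7885 0 0.3561 0.3561 1.2395 0.8652 1.5687 0.9077 0.4997 2.9488 8.695 0.6981 2.528 1.368 1.1168 0.6197 0.4755 1.2656 3.6274 0.6839 1.5049 1.5473 2.1862 0.004572 0.01602 0.00001664 0.0000003101 0.002624 0.000002077 0.000001438 0.0000003101 0.5288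
    hβ hN hx1 hx2 hy1 hy2 (by norm_num) (by norm_num) (by linarith) (by norm_num) (by norm_num) (by norm_num) (by norm_num) (by norm_num) (by norm_num) (by norm_num) (by norm_num) (by norm_num) (by norm_num) (by norm_num) (by norm_num) (by norm_num) (by norm_num) (by norm_num) (by norm_num) (by norm_num) (by norm_num) (by norm_num) (by norm_num) (by norm_num)
    (cube_sqrt_geJ (s := 0.8759) (by norm_num) (by norm_num) (by norm_num) (by norm_num))
    (cube_sqrt_geJ (s := 0.9563) (by norm_num) (by norm_num) (by norm_num) (by norm_num))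
    (by norm_num) (by norm_num) (by norm_num) (by norm_num) (by norm_num) (by norm_num) (by norm_num) (by norm_num) (by norm_num) (by norm_num) (by norm_num) (by norm_num) (by norm_num) (by norm_num) (by norm_num) (by norm_num) (by norm_num) (by norm_num)
    (exp_neg_leJ (r := 0.388) 5 (by norm_num) (by norm_num) (by norm_num) (by norm_num))
    (exp_neg_leJ (r := 0.134) 4 (by norm_num) (by norm_num) (by norm_num) (by norm_num))
    (exp_neg_leJ (r := 0.004) 11 (by norm_num) (by norm_num) (by norm_num) (by norm_num))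
    (exp_neg_leJ (r := 0.99) 14 (by norm_num) (by norm_num) (by norm_num) (by norm_num))
    (exp_neg_leJ (r := 0.946) 5 (by norm_num) (by norm_num) (by norm_num) (by norm_num))
    (exp_neg_leJ (r := 0.085) 13 (by norm_num) (by norm_num) (by norm_num) (by norm_num))
    (exp_neg_leJ (r := 0.453) 13 (by norm_num) (by norm_num) (by norm_num) (by norm_num))
    (exp_neg_leJ (r := 0.99) 14 (by norm_num) (by norm_num) (by norm_num) (by norm_num))
    (by norm_num)) (by norm_num) hN hβ.le (by norm_num)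

private theorem B5Io_T62 {β x y : ℝ} (hβ : 0 < β) (hN : β * 8.695 ≤ 1) (hx1 : 0.6031 ≤ x) (hx2 : x ≤ 0.7885)
    (hy1 : 0.3069 ≤ y) (hy2 : y ≤ 0.3561) : ‖HH β (x + y * I) - 1‖ ≤ 0.07 := by
  rcases le_total x 0.668 with hxx | hxx
  · exact B5Io_T62_0_0 hβ hN (by linarith) (by linarith) (by linarith) (by linarith)
  rcases le_total x 0.752 with hxx | hxx
  · exact B5Io_T62_0_1 hβ hN (by linarith) (by linarith) (by linarith) (by linarith)
  exact B5Io_T62_0_2 hβ hN (by linarith) (by linarith) (by linarith) (by linarith)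

private theorem B5Io_U63 {β r t κ h t' : ℝ} (hβ : 0 < β) (hκ : κ = β * r) (hN : β * 8.695 ≤ 1) (hk1 : 1 ≤ κ) (hk2 : κ ≤ 1.15)
    (ht : t' = t + (((1 : ℤ) : ℝ) - 1) * h) (hD : DomR κ t') (hta : 0.7664 ≤ t' + κ) (htb : t' + κ ≤ 0.8801) :
    ‖Xf β r h t 1‖ ≤ 0.8832 * Real.exp (r * sE κ t') := by
  obtain ⟨⟨ya, yb⟩, ⟨xa, xb⟩, n1, Da, Db⟩ := B5Io_B61 hD hk1 hk2 hta htb
  have J := B5Io_T62 (x := sx κ t') (y := sy κ t') hβ hN (by linarith only [xa, xb, ya, yb]) (by linarith only [xa, xb, ya, yb]) (by linarith only [xa, xb, ya, yb]) (by linarith only [xa, xb, ya, yb])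
  exact v5_Jup (h := h) (t := t) (k := 1) hβ hκ ht hD 0.07 2.1551 0.8832 J Da (by norm_num) (by norm_num)

private theorem B5Io_K64 {β r t κ h : ℝ} (hβ : 0 < β) (hr : 10 ≤ r) (hκ : κ = β * r) (hk1 : 1 ≤ κ) (hk2 : κ ≤ 1.15)
    (hh : h = 2 * Real.pi / 5) (hh1 : 1.25663 ≤ h) (hh2 : h ≤ 1.25664) (hta : 0.7665 ≤ t + κ) (htb : t + κ ≤ 0.88) (hN : β * 8.695 ≤ 1)
    (hD : DomR κ t) (hY : 0.7039 * Real.exp (r * sE κ (t - h)) ≤ ‖Xf β r h t 0‖) (hV : 1.05066 + 0.2379 * (t - h + κ) ≤ sE κ (t - h)) :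
    ‖Xf β r h t 1‖ ≤ 0.785 * ‖Xf β r h t 0‖ := by
  have hU := B5Io_U63 (h := h) (t := t) hβ hκ hN hk1 hk2 (by push_cast; ring) hD (by linarith only [hta, htb, hh1, hh2]) (by linarith only [hta, htb, hh1, hh2])
  have hW := V_up hD 0.28 (B5Io_G60 hk1 hk2).1
  exact v5_cmpJ 0.0471 0.6254 0.785 hr hU hW hY (by norm_num) (by norm_num) (by norm_num) (by linarith only [hV, hta, htb, hh1, hh2]) (ex_un 0 0.4709 (by norm_num) (by norm_num) (by norm_num) (by norm_num)) (by norm_num)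

private theorem B5Io_O65 {β r t κ h : ℝ} (hβ : 0 < β) (hr : 10 ≤ r) (hκ : κ = β * r) (hk1 : 1 ≤ κ) (hk2 : κ ≤ 1.15)
    (hh : h = 2 * Real.pi / 5) (hta : 0.7665 ≤ t + κ) (htb : t + κ ≤ 0.88) :
    ‖Xf β r h t (-2)‖ + ‖Xf β r h t (-1)‖ + ‖Xf β r h t 2‖ < |‖Xf β r h t 1‖ - ‖Xf β r h t 0‖| := by
  obtain ⟨hh1, hh2⟩ := v5_h hh
  have hκ0 : 0 < κ := by linarith only [hk1]
  have hN : β * 8.695 ≤ 1 := v5_hN 1.15 8.695 hβ hr hκ hk2 (by norm_num) (by norm_num)
  have hD1 : DomR κ t := v5_dom hκ0 (by linarith only [hta, htb, hk1, hk2, hh1, hh2]) (Or.inr (by linarith only [hta, htb, hk1, hk2, hh1, hh2]))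
  have hD0 : DomR κ (t - h) := v5_dom hκ0 (by linarith only [hta, htb, hk1, hk2, hh1, hh2]) (Or.inl (by linarith only [hk1]))
  have h0a : (-0.4902) ≤ t - h + κ := by linarith only [hta, htb, hh1, hh2]
  have h0b : t - h + κ ≤ (-0.3766) := by linarith only [hta, htb, hh1, hh2]
  have e0 : t - h = t + (((0 : ℤ) : ℝ) - 1) * h := by push_cast; ring
  have hY := B5Io_Y55 (h := h) hβ hκ hN hk1 hk2 e0 hD0 h0a h0b
  have hV := B5Io_V56 hD0 hk1 hk2 h0a h0b
  have cp2 := B5Io_K57 hβ hr hκ hk1 hk2 hh hh1 hh2 hta htb hY hV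
  have cm1 := B5Io_K58 hβ hr hκ hk1 hk2 hh hh1 hh2 hta htb hY hV
  have cm2 := B5Io_K59 hβ hr hκ hk1 hk2 hh hh1 hh2 hta htb hY hV
  have cn1 := B5Io_K64 hβ hr hκ hk1 hk2 hh hh1 hh2 hta htb hN hD1 hY hV
  have hp : 0 < ‖Xf β r h t 0‖ := lt_of_lt_of_le (by positivity) hY
  exact v5_out0 _ _ _ _ cm2 cm1 cp2 cn1 hp (by norm_num)

private theorem B5Io_B66 {κ t : ℝ} (h : DomR κ t) (hk1 : 1 ≤ κ) (hk2 : κ ≤ 1.15) (ht1 : (-0.3767) ≤ t + κ) (ht2 : t + κ ≤ (-0.1886)) :
    ((-0.205) ≤ sy κ t ∧ sy κ t ≤ (-0.096)) ∧ (1.0814 ≤ sx κ t ∧ sx κ t ≤ 1.4084) ∧ κ * Real.exp (-sy κ t) ≤ 1.4117 ∧ 2.0196 ≤ sD κ t ∧ sD κ t ≤ 2.5828 := by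
  have hy1 : -0.205 ≤ sy κ t := syL_ge h 1 1.15 0.3767 0.205 0.81464 0.81465 0.1524 0.14521 0.16701 hk1 hk2 (by linarith) (by norm_num) (by norm_num) (by norm_num)
    (expm_ge (by norm_num) (by norm_num) (by norm_num) (by norm_num)) (expm_le (by norm_num) (by norm_num) (by norm_num)) (by norm_num)
    (by norm_num) (by norm_num) (by norm_num) (by norm_num) (by norm_num) (by norm_num)
  have hy2 : sy κ t ≤ -0.096 := syL_le h 1 1.15 0.1886 0.096 0.90846 0.90847 0.07583 0.08722 hk1 hk2 (by linarith) (by norm_num) (by norm_num) (by norm_num)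
    (expm_ge (by norm_num) (by norm_num) (by norm_num) (by norm_num)) (expm_le (by norm_num) (by norm_num) (by norm_num)) (by norm_num)
    (by norm_num) (by norm_num) (by norm_num) (by norm_num) (by norm_num) (by norm_num)
  have hy1' : (-0.205) ≤ sy κ t := by linarith
  have hy2' : sy κ t ≤ (-0.096) := by linarith
  have hx1 : 1.0814 ≤ sx κ t := sx_lo h 1 (-0.096) 0.2051 1.10075 1.0814 hk1 (by norm_num) hy2' (abs_le.2 ⟨by linarith, by linarith⟩) (ex_lp 0.096 (by norm_num) (by norm_num) (by norm_num)) (by norm_num) (by norm_num)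
  have hx2 : sx κ t ≤ 1.4084 := sx_hi h 1.15 (-0.205) 0.096 1.22753 1.4084 hk2 hy1' (by norm_num) (le_trans (by linarith) (neg_le_abs _)) (ex_up 0.205 (by norm_num) (by norm_num) (by norm_num) (by norm_num)) (by norm_num) (by norm_num)
  refine ⟨⟨hy1', hy2'⟩, ⟨hx1, hx2⟩, v5_n h 1.15 (-0.205) 1.22753 1.4117 hk2 hy1' (ex_up 0.205 (by norm_num) (by norm_num) (by norm_num) (by norm_num)) (by norm_num), ?_, ?_⟩
  · exact v5_Dlo h 1 (-0.205) (-0.096) (-0.096) 1.10075 2.0196 (by norm_num) hk1 hy1' hy2' (ex_lp 0.096 (by norm_num) (by norm_num) (by norm_num)) (by norm_num) (by norm_num) (by norm_num) (by norm_num)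
  · exact v5_Dup h 1.15 (-0.205) (-0.096) 1.22753 1.10076 2.5828 hk2 hy1' hy2' (ex_up 0.205 (by norm_num) (by norm_num) (by norm_num) (by norm_num)) (ex_up 0.096 (by norm_num) (by norm_num) (by norm_num) (by norm_num)) (by norm_num) (by norm_num) (by norm_num)

private theorem B5Io_T67_0_0 {β x y : ℝ} (hβ : 0 < β) (hN : β * 8.695 ≤ 1) (hx1 : 1.0813 ≤ x) (hx2 : x ≤ 1.175)
    (hy1 : -0.2051 ≤ y) (hy2 : y ≤ -0.0959) : ‖HH β (x + y * I) - 1‖ ≤ 0.085 := by
  refine le_epsJ (C := 0.7374) (N0 := 8.695) (J_boxp 1.0813 1.175 0.2051 0 (-0.0959) 1.3258 1.1928 1.4826 0.7977 0.4858 2.9488 8.695 0.8997 3.483 1.505 0.7788 0.6628 0.464 1.0546 2.7762 0.7681 1.9971 3.1757 3.6323 0.003146 0.01771 0.0001043 0.0000003101 0.00126 0.0000003101 0.0000003101 0.0000003101 0.7374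
    hβ hN hx1 hx2 hy1 hy2 (by norm_num) (by norm_num) (by linarith) (by norm_num) (by norm_num) (by norm_num) (by norm_num) (by norm_num) (by norm_num) (by norm_num) (by norm_num) (by norm_num) (by norm_num) (by norm_num) (by norm_num) (by norm_num) (by norm_num) (by norm_num) (by norm_num) (by norm_num) (by norm_num) (by norm_num) (by norm_num) (by norm_num)
    (cube_sqrt_geJ (s := 0.8367) (by norm_num) (by norm_num) (by norm_num) (by norm_num))
    (cube_sqrt_geJ (s := 0.9433) (by norm_num) (by norm_num) (by norm_num) (by norm_num))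
    (by norm_num) (by norm_num) (by norm_num) (by norm_num) (by norm_num) (by norm_num) (by norm_num) (by norm_num) (by norm_num) (by norm_num) (by norm_num) (by norm_num) (by norm_num) (by norm_num) (by norm_num) (by norm_num) (by norm_num) (by norm_num)
    (exp_neg_leJ (r := 0.763) 5 (by norm_num) (by norm_num) (by norm_num) (by norm_num))
    (exp_neg_leJ (r := 0.034) 4 (by norm_num) (by norm_num) (by norm_num) (by norm_num))
    (exp_neg_leJ (r := 0.169) 9 (by norm_num) (by norm_num) (by norm_num) (by norm_num))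
    (exp_neg_leJ (r := 0.99) 14 (by norm_num) (by norm_num) (by norm_num) (by norm_num))
    (exp_neg_leJ (r := 0.678) 6 (by norm_num) (by norm_num) (by norm_num) (by norm_num))
    (exp_neg_leJ (r := 0.99) 14 (by norm_num) (by norm_num) (by norm_num) (by norm_num))
    (exp_neg_leJ (r := 0.99) 14 (by norm_num) (by norm_num) (by norm_num) (by norm_num))
    (exp_neg_leJ (r := 0.99) 14 (by norm_num) (by norm_num) (by norm_num) (by norm_num))
    (by norm_num)) (by norm_num) hN hβ.le (by norm_num)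

private theorem B5Io_T67_0_1 {β x y : ℝ} (hβ : 0 < β) (hN : β * 8.695 ≤ 1) (hx1 : 1.175 ≤ x) (hx2 : x ≤ 1.277)
    (hy1 : -0.2051 ≤ y) (hy2 : y ≤ -0.0959) : ‖HH β (x + y * I) - 1‖ ≤ 0.085 := by
  refine le_epsJ (C := 0.7383) (N0 := 8.695) (J_boxp 1.175 1.277 0.2051 0 (-0.0959) 1.3917 1.2934 1.5647 0.7619 0.4991 2.9488 8.695 0.9294 3.662 1.527 0.7396 0.6958 0.4802 1.0867 2.7176 0.8136 2.1269 3.3631 3.5462 0.002361 0.01538 0.00007886 0.0000003101 0.0008469 0.0000003101 0.0000003101 0.0000003101 0.7383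
    hβ hN hx1 hx2 hy1 hy2 (by norm_num) (by norm_num) (by linarith) (by norm_num) (by norm_num) (by norm_num) (by norm_num) (by norm_num) (by norm_num) (by norm_num) (by norm_num) (by norm_num) (by norm_num) (by norm_num) (by norm_num) (by norm_num) (by norm_num) (by norm_num) (by norm_num) (by norm_num) (by norm_num) (by norm_num) (by norm_num) (by norm_num)
    (cube_sqrt_geJ (s := 0.8307) (by norm_num) (by norm_num) (by norm_num) (by norm_num))
    (cube_sqrt_geJ (s := 0.9413) (by norm_num) (by norm_num) (by norm_num) (by norm_num))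
    (by norm_num) (by norm_num) (by norm_num) (by norm_num) (by norm_num) (by norm_num) (by norm_num) (by norm_num) (by norm_num) (by norm_num) (by norm_num) (by norm_num) (by norm_num) (by norm_num) (by norm_num) (by norm_num) (by norm_num) (by norm_num)
    (exp_neg_leJ (r := 0.049) 6 (by norm_num) (by norm_num) (by norm_num) (by norm_num))
    (exp_neg_leJ (r := 0.175) 4 (by norm_num) (by norm_num) (by norm_num) (by norm_num))
    (exp_neg_leJ (r := 0.448) 9 (by norm_num) (by norm_num) (by norm_num) (by norm_num))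
    (exp_neg_leJ (r := 0.99) 14 (by norm_num) (by norm_num) (by norm_num) (by norm_num))
    (exp_neg_leJ (r := 0.074) 7 (by norm_num) (by norm_num) (by norm_num) (by norm_num))
    (exp_neg_leJ (r := 0.99) 14 (by norm_num) (by norm_num) (by norm_num) (by norm_num))
    (exp_neg_leJ (r := 0.99) 14 (by norm_num) (by norm_num) (by norm_num) (by norm_num))
    (exp_neg_leJ (r := 0.99) 14 (by norm_num) (by norm_num) (by norm_num) (by norm_num))
    (by norm_num)) (by norm_num) hN hβ.le (by norm_num)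

private theorem B5Io_T67_0_2 {β x y : ℝ} (hβ : 0 < β) (hN : β * 8.695 ≤ 1) (hx1 : 1.277 ≤ x) (hx2 : x ≤ 1.387)
    (hy1 : -0.2051 ≤ y) (hy2 : y ≤ -0.0959) : ‖HH β (x + y * I) - 1‖ ≤ 0.085 := by
  refine le_epsJ (C := 0.7383) (N0 := 8.695) (J_boxp 1.277 1.387 0.2051 0 (-0.0959) 1.4636 1.4021 1.6557 0.7268 0.5134 2.9488 8.695 0.958 3.844 1.548 0.6973 0.7317 0.4981 1.1216 2.6544 0.8632 2.2681 3.5671 3.4547 0.001726 0.01317 0.00005825 0.0000003101 0.0005505 0.0000003101 0.0000003101 0.0000003101 0.7383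
    hβ hN hx1 hx2 hy1 hy2 (by norm_num) (by norm_num) (by linarith) (by norm_num) (by norm_num) (by norm_num) (by norm_num) (by norm_num) (by norm_num) (by norm_num) (by norm_num) (by norm_num) (by norm_num) (by norm_num) (by norm_num) (by norm_num) (by norm_num) (by norm_num) (by norm_num) (by norm_num) (by norm_num) (by norm_num) (by norm_num) (by norm_num)
    (cube_sqrt_geJ (s := 0.825) (by norm_num) (by norm_num) (by norm_num) (by norm_num))
    (cube_sqrt_geJ (s := 0.9395) (by norm_num) (by norm_num) (by norm_num) (by norm_num))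
    (by norm_num) (by norm_num) (by norm_num) (by norm_num) (by norm_num) (by norm_num) (by norm_num) (by norm_num) (by norm_num) (by norm_num) (by norm_num) (by norm_num) (by norm_num) (by norm_num) (by norm_num) (by norm_num) (by norm_num) (by norm_num)
    (exp_neg_leJ (r := 0.362) 6 (by norm_num) (by norm_num) (by norm_num) (by norm_num))
    (exp_neg_leJ (r := 0.33) 4 (by norm_num) (by norm_num) (by norm_num) (by norm_num))
    (exp_neg_leJ (r := 0.752) 9 (by norm_num) (by norm_num) (by norm_num) (by norm_num))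
    (exp_neg_leJ (r := 0.99) 14 (by norm_num) (by norm_num) (by norm_num) (by norm_num))
    (exp_neg_leJ (r := 0.505) 7 (by norm_num) (by norm_num) (by norm_num) (by norm_num))
    (exp_neg_leJ (r := 0.99) 14 (by norm_num) (by norm_num) (by norm_num) (by norm_num))
    (exp_neg_leJ (r := 0.99) 14 (by norm_num) (by norm_num) (by norm_num) (by norm_num))
    (exp_neg_leJ (r := 0.99) 14 (by norm_num) (by norm_num) (by norm_num) (by norm_num))
    (by norm_num)) (by norm_num) hN hβ.le (by norm_num)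

private theorem B5Io_T67_0_3 {β x y : ℝ} (hβ : 0 < β) (hN : β * 8.695 ≤ 1) (hx1 : 1.387 ≤ x) (hx2 : x ≤ 1.4085)
    (hy1 : -0.2051 ≤ y) (hy2 : y ≤ -0.0959) : ‖HH β (x + y * I) - 1‖ ≤ 0.085 := by
  refine le_epsJ (C := 0.6087) (N0 := 8.695) (J_boxp 1.387 1.4085 0.2051 0 (-0.0959) 1.541 1.4234 1.6737 0.6763 0.5162 2.9488 8.695 0.9237 3.626 1.523 0.689 0.7704 0.5332 1.1593 2.642 0.9166 2.4204 3.7871 3.6168 0.001235 0.009702 0.00004191 0.0000003101 0.0003472 0.0000003101 0.0000003101 0.0000003101 0.6087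
    hβ hN hx1 hx2 hy1 hy2 (by norm_num) (by norm_num) (by linarith) (by norm_num) (by norm_num) (by norm_num) (by norm_num) (by norm_num) (by norm_num) (by norm_num) (by norm_num) (by norm_num) (by norm_num) (by norm_num) (by norm_num) (by norm_num) (by norm_num) (by norm_num) (by norm_num) (by norm_num) (by norm_num) (by norm_num) (by norm_num) (by norm_num)
    (cube_sqrt_geJ (s := 0.8319) (by norm_num) (by norm_num) (by norm_num) (by norm_num))
    (cube_sqrt_geJ (s := 0.9417) (by norm_num) (by norm_num) (by norm_num) (by norm_num))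
    (by norm_num) (by norm_num) (by norm_num) (by norm_num) (by norm_num) (by norm_num) (by norm_num) (by norm_num) (by norm_num) (by norm_num) (by norm_num) (by norm_num) (by norm_num) (by norm_num) (by norm_num) (by norm_num) (by norm_num) (by norm_num)
    (exp_neg_leJ (r := 0.698) 6 (by norm_num) (by norm_num) (by norm_num) (by norm_num))
    (exp_neg_leJ (r := 0.636) 4 (by norm_num) (by norm_num) (by norm_num) (by norm_num))
    (exp_neg_leJ (r := 0.08) 10 (by norm_num) (by norm_num) (by norm_num) (by norm_num))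
    (exp_neg_leJ (r := 0.99) 14 (by norm_num) (by norm_num) (by norm_num) (by norm_num))
    (exp_neg_leJ (r := 0.969) 7 (by norm_num) (by norm_num) (by norm_num) (by norm_num))
    (exp_neg_leJ (r := 0.99) 14 (by norm_num) (by norm_num) (by norm_num) (by norm_num))
    (exp_neg_leJ (r := 0.99) 14 (by norm_num) (by norm_num) (by norm_num) (by norm_num))
    (exp_neg_leJ (r := 0.99) 14 (by norm_num) (by norm_num) (by norm_num) (by norm_num))
    (by norm_num)) (by norm_num) hN hβ.le (by norm_num)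

private theorem B5Io_T67 {β x y : ℝ} (hβ : 0 < β) (hN : β * 8.695 ≤ 1) (hx1 : 1.0813 ≤ x) (hx2 : x ≤ 1.4085)
    (hy1 : (-0.2051) ≤ y) (hy2 : y ≤ (-0.0959)) : ‖HH β (x + y * I) - 1‖ ≤ 0.085 := by
  rcases le_total x 1.175 with hxx | hxx
  · exact B5Io_T67_0_0 hβ hN (by linarith) (by linarith) (by linarith) (by linarith)
  rcases le_total x 1.277 with hxx | hxx
  · exact B5Io_T67_0_1 hβ hN (by linarith) (by linarith) (by linarith) (by linarith)
  rcases le_total x 1.387 with hxx | hxx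
  · exact B5Io_T67_0_2 hβ hN (by linarith) (by linarith) (by linarith) (by linarith)
  exact B5Io_T67_0_3 hβ hN (by linarith) (by linarith) (by linarith) (by linarith)

private theorem B5Io_G68 {κ : ℝ} (hk1 : 1 ≤ κ) (hk2 : κ ≤ 1.15) : gG κ 0.46 ≤ 1.31245 ∧ 0.34714 ≤ Real.exp (-(κ * 0.46)) ^ 2 := by
  refine ⟨gG_le 0.46 1 1.15 1.31245 0.63129 0.5892 1.58408 1.69724 hk1 hk2 (by norm_num)
    (ex_um 0.46 (by norm_num) (by norm_num) (by norm_num) (by norm_num)) (ex_um 0.529 (by norm_num) (by norm_num) (by norm_num) (by norm_num))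
    (ex_up 0.46 (by norm_num) (by norm_num) (by norm_num) (by norm_num)) (ex_up 0.529 (by norm_num) (by norm_num) (by norm_num) (by norm_num))
    (by norm_num) (by norm_num), ?_⟩
  exact v5_M 0.58919 (ex_lm 0.529 (by linarith) (by norm_num) (by norm_num) (by norm_num) (by norm_num)) (by norm_num) (by norm_num)

private theorem B5Io_C69 {β r t κ : ℝ} (hβ : 0 < β) (hr : 10 ≤ r) (hκ : κ = β * r) (hk1 : 1 ≤ κ) (hk2 : κ ≤ 1.15) (hta : 2.1366 ≤ t + κ)
    (htb : t + κ ≤ 2.3247) : ‖F (cexp (I * β)) (r * cexp (I * ((t + β / 2 : ℝ) : ℂ)))‖ ≤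
      2.3191 * Real.exp (r * (1.31245 - 0.46 * (t + κ))) + 0.1883 * Real.exp (r * 0) :=
  v5_H 0.46 1 1.15 2.1366 2.3247 1.31245 2.0186 0.34714 0.1353 2.5572 0.2459 0.06088 0.546 0.00000616 2.3191 0.1883 hβ hr hκ (by norm_num) hk1 hk2 hta htb (by norm_num) (B5Io_G68 hk1 hk2).1 (B5Io_G68 hk1 hk2).2 (by norm_num) (by norm_num) (by norm_num)
    (by norm_num) (by norm_num) (by norm_num) (by norm_num) (by norm_num) (by norm_num) (by norm_num) (by norm_num) (ex_un 0 0.6087 (by norm_num) (by norm_num) (by norm_num) (by norm_num))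
    (v5_hump 1.4112 8.695 2.9488 0.00000469 0.00000616 hβ hr hκ hk1 hk2 (by norm_num) htb (by norm_num) (by norm_num) (by norm_num) (by norm_num) (by norm_num) (by norm_num) (by norm_num) (ex_un 12 0.2703 (by norm_num) (by norm_num) (by norm_num) (by norm_num)) (by norm_num)) (by norm_num) (by norm_num)

private theorem B5Io_G70 {κ : ℝ} (hk1 : 1 ≤ κ) (hk2 : κ ≤ 1.15) : gG κ (-0.65) ≤ 1.46513 ∧ 3.66925 ≤ Real.exp (-(κ * (-0.65))) ^ 2 := by
  refine ⟨gG_le (-0.65) 1 1.15 1.46513 1.91555 2.11172 0.52205 0.47356 hk1 hk2 (by norm_num)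
    (ex_up 0.65 (by norm_num) (by norm_num) (by norm_num) (by norm_num)) (ex_up 0.7475 (by norm_num) (by norm_num) (by norm_num) (by norm_num))
    (ex_um 0.65 (by norm_num) (by norm_num) (by norm_num) (by norm_num)) (ex_um 0.7475 (by norm_num) (by norm_num) (by norm_num) (by norm_num))
    (by norm_num) (by norm_num), ?_⟩
  exact v5_M 1.91553 (ex_lp 0.65 (by linarith) (by norm_num) (by norm_num)) (by norm_num) (by norm_num)

private theorem B5Io_C71 {β r t κ : ℝ} (hβ : 0 < β) (hr : 10 ≤ r) (hκ : κ = β * r) (hk1 : 1 ≤ κ) (hk2 : κ ≤ 1.15) (hta : (-1.6333) ≤ t + κ)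
    (htb : t + κ ≤ (-1.4452)) : ‖F (cexp (I * β)) (r * cexp (I * ((t + β / 2 : ℝ) : ℂ)))‖ ≤
      0.9124 * Real.exp (r * (1.46513 - (-0.65) * (t + κ))) + 1.7833 * Real.exp (r * 0.0501) :=
  v5_HU (-0.65) 1 1.15 (-1.6333) (-1.4452) 1.46513 0.9124 3.66925 0.1353 0.7653 1.9286 0 0.0501 0.00000123 1.7833 hβ hr hκ (by norm_num) hk1 hk2 hta htb (by norm_num) (by norm_num) (B5Io_G70 hk1 hk2).1 (B5Io_G70 hk1 hk2).2 (by norm_num) (by norm_num) (by norm_num)
    (by norm_num) (by norm_num) (by norm_num) (by norm_num) (by norm_num) (by norm_num) (by norm_num)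
    (by norm_num) (by norm_num) (by norm_num) (v5_hump 5.1811 8.695 2.9488 0.0000009316 0.00000123 hβ hr hκ hk1 hk2 (by norm_num) htb (by norm_num) (by norm_num) (by norm_num) (by norm_num) (by norm_num) (by norm_num) (by norm_num) (ex_un 13 0.9 (by norm_num) (by norm_num) (by norm_num) (by norm_num)) (by norm_num)) (by norm_num)

private theorem B5Io_C72 {β r t κ : ℝ} (hβ : 0 < β) (hr : 10 ≤ r) (hκ : κ = β * r) (hk1 : 1 ≤ κ) (hk2 : κ ≤ 1.15) (hta : 3.3932 ≤ t + κ)
    (htb : t + κ ≤ 3.5813) : ‖F (cexp (I * β)) (r * cexp (I * ((t + β / 2 : ℝ) : ℂ)))‖ ≤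
      2.0839 * Real.exp (r * (0.01 + 1 / 20)) :=
  v5_UD 1 1.15 3.3932 3.5813 0.01 0.399 0.01 1.0864 2.0839 hβ hr hκ (by norm_num) hk1 hk2 hta htb (by norm_num) (by norm_num) (by norm_num) (by norm_num) (by norm_num) (by norm_num) (by norm_num) (by norm_num) (by norm_num) (by norm_num) (by norm_num)

private theorem B5Io_Y73 {β r t κ h t' : ℝ} (hβ : 0 < β) (hκ : κ = β * r) (hN : β * 8.695 ≤ 1) (hk1 : 1 ≤ κ) (hk2 : κ ≤ 1.15)
    (ht : t' = t + (((0 : ℤ) : ℝ) - 1) * h) (hD : DomR κ t') (hta : (-0.3767) ≤ t' + κ) (htb : t' + κ ≤ (-0.1886)) :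
    0.7217 * Real.exp (r * sE κ t') ≤ ‖Xf β r h t 0‖ := by
  obtain ⟨⟨ya, yb⟩, ⟨xa, xb⟩, n1, Da, Db⟩ := B5Io_B66 hD hk1 hk2 hta htb
  have J := B5Io_T67 (x := sx κ t') (y := sy κ t') hβ hN (by linarith only [xa, xb, ya, yb]) (by linarith only [xa, xb, ya, yb]) (by linarith only [xa, xb, ya, yb]) (by linarith only [xa, xb, ya, yb])
  exact v5_Jlo hβ hκ (k := 0) ht hD 0.085 2.5828 0.7217 (by norm_num) J Db (by norm_num)

private theorem B5Io_V74 {κ t : ℝ} (hD : DomR κ t) (hk1 : 1 ≤ κ) (hk2 : κ ≤ 1.15) (hta : (-0.3767) ≤ t + κ) (htb : t + κ ≤ (-0.1886)) :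
    1.01904 + 0.1515 * (t + κ) ≤ sE κ t := by
  have hκ0 : 0 < κ := hD.1
  exact v5_V0 hD 1 1.15 (-0.3767) (-0.1886) 0.3768 0.536 0.08334 0.21863 0.12501 0.57501 1.01904 0.1515 (by norm_num) hk1 hk2 (by norm_num) hta htb (by norm_num) (by norm_num) (by norm_num) ((cup2 1 (by norm_num) hk1).trans (by norm_num))
      (by norm_num) (by norm_num) (by norm_num) (by norm_num) (by norm_num) (by norm_num) (by norm_num) (by norm_num) (by norm_num) (by norm_num) (by norm_num) (by norm_num) (by norm_num)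

private theorem B5Io_K75 {β r t κ h : ℝ} (hβ : 0 < β) (hr : 10 ≤ r) (hκ : κ = β * r) (hk1 : 1 ≤ κ) (hk2 : κ ≤ 1.15)
    (hh : h = 2 * Real.pi / 5) (hh1 : 1.25663 ≤ h) (hh2 : h ≤ 1.25664) (hta : 0.88 ≤ t + κ) (htb : t + κ ≤ 1.068)
    (hY : 0.7217 * Real.exp (r * sE κ (t - h)) ≤ ‖Xf β r h t 0‖) (hV : 1.01904 + 0.1515 * (t - h + κ) ≤ sE κ (t - h)) :
    ‖Xf β r h t 2‖ ≤ 0.0058 * ‖Xf β r h t 0‖ := by
  rw [v5_X 2 1 (by push_cast; ring)]
  exact v5_cmp 0.6323 0.001796 0.00578 0.9619 0.00006672 0.0000175 0.0058 hr (B5Io_C69 (t := t + 1 * h) hβ hr hκ hk1 hk2 (by linarith only [hta, htb, hh1, hh2]) (by linarith only [hta, htb, hh1, hh2])) hY (by norm_num) (by norm_num) (by norm_num) (by norm_num) (by linarith only [hV, hta, htb, hh1, hh2]) (ex_un 6 0.3229 (by norm_num) (by norm_num) (by norm_num) (by norm_num)) (by norm_num) (by norm_num) (by linarith only [hV, hta, htb, hh1, hh2]) (ex_un 9 0.6189 (by norm_num) (by norm_num) (by norm_num)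 (by norm_num)) (by norm_num) (by norm_num)

private theorem B5Io_K76 {β r t κ h : ℝ} (hβ : 0 < β) (hr : 10 ≤ r) (hκ : κ = β * r) (hk1 : 1 ≤ κ) (hk2 : κ ≤ 1.15)
    (hh : h = 2 * Real.pi / 5) (hh1 : 1.25663 ≤ h) (hh2 : h ≤ 1.25664) (hta : 0.88 ≤ t + κ) (htb : t + κ ≤ 1.068)
    (hY : 0.7217 * Real.exp (r * sE κ (t - h)) ≤ ‖Xf β r h t 0‖) (hV : 1.01904 + 0.1515 * (t - h + κ) ≤ sE κ (t - h)) :
    ‖Xf β r h t (-1)‖ ≤ 0.0125 * ‖Xf β r h t 0‖ := by
  rw [v5_X (-1) (-2) (by push_cast; ring)]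
  exact v5_cmp 0.4647 0.009634 0.0122 0.9118 0.0001097 0.000272 0.0125 hr (B5Io_C71 (t := t + (-2) * h) hβ hr hκ hk1 hk2 (by linarith only [hta, htb, hh1, hh2]) (by linarith only [hta, htb, hh1, hh2])) hY (by norm_num) (by norm_num) (by norm_num) (by norm_num) (by linarith only [hV, hta, htb, hh1, hh2]) (ex_un 4 0.6469 (by norm_num) (by norm_num) (by norm_num) (by norm_num)) (by norm_num) (by norm_num) (by linarith only [hV, hta, htb, hh1, hh2]) (ex_un 9 0.1179 (by norm_num) (by norm_num) (by norm_num) (by norm_num)) (by norm_num) (by norm_num)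

private theorem B5Io_K77 {β r t κ h : ℝ} (hβ : 0 < β) (hr : 10 ≤ r) (hκ : κ = β * r) (hk1 : 1 ≤ κ) (hk2 : κ ≤ 1.15)
    (hh : h = 2 * Real.pi / 5) (hh1 : 1.25663 ≤ h) (hh2 : h ≤ 1.25664) (hta : 0.88 ≤ t + κ) (htb : t + κ ≤ 1.068)
    (hY : 0.7217 * Real.exp (r * sE κ (t - h)) ≤ ‖Xf β r h t 0‖) (hV : 1.01904 + 0.1515 * (t - h + κ) ≤ sE κ (t - h)) :
    ‖Xf β r h t (-2)‖ ≤ 0.00035 * ‖Xf β r h t 0‖ := by
  rw [v5_Xm2 hh]
  exact v5_cmp0 0.9019 0.0001211 0.00035 hr (B5Io_C72 (t := t + 2 * h) hβ hr hκ hk1 hk2 (by linarith only [hta, htb, hh1, hh2]) (by linarith only [hta, htb, hh1, hh2])) hY (by norm_num) (by norm_num) (by norm_num) (by linarith only [hV, hta, htb, hh1, hh2]) (ex_un 9 0.0189 (by norm_num) (by norm_num) (by norm_num) (by norm_num)) (by norm_num)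

private theorem B5Io_C78 {β r t κ : ℝ} (hβ : 0 < β) (hr : 10 ≤ r) (hκ : κ = β * r) (hk1 : 1 ≤ κ) (hk2 : κ ≤ 1.15) (hta : 0.8799 ≤ t + κ)
    (htb : t + κ ≤ 1.0681) : ‖F (cexp (I * β)) (r * cexp (I * ((t + β / 2 : ℝ) : ℂ)))‖ ≤
      1.5012 * Real.exp (r * (1.10157 - 0.28 * (t + κ))) + 0.2394 * Real.exp (r * 0) :=
  v5_H 0.28 1 1.15 0.8799 1.0681 1.10157 1.4981 0.52517 0.1353 1.3005 1.5025 0.33974 0.03349 0.00000123 1.5012 0.2394 hβ hr hκ (by norm_num) hk1 hk2 hta htb (by norm_num) (B5Io_G60 hk1 hk2).1 (B5Io_G60 hk1 hk2).2 (by norm_num) (by norm_num) (by norm_num)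
    (by norm_num) (by norm_num) (by norm_num) (by norm_num) (by norm_num) (by norm_num) (by norm_num) (by norm_num) (ex_un 3 0.3973 (by norm_num) (by norm_num) (by norm_num) (by norm_num))
    (v5_hump 2.6678 8.695 2.9488 0.0000009316 0.00000123 hβ hr hκ hk1 hk2 (by norm_num) htb (by norm_num) (by norm_num) (by norm_num) (by norm_num) (by norm_num) (by norm_num) (by norm_num) (ex_un 13 0.9 (by norm_num) (by norm_num) (by norm_num) (by norm_num)) (by norm_num)) (by norm_num) (by norm_num)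

private theorem B5Io_K79 {β r t κ h : ℝ} (hβ : 0 < β) (hr : 10 ≤ r) (hκ : κ = β * r) (hk1 : 1 ≤ κ) (hk2 : κ ≤ 1.15)
    (hh : h = 2 * Real.pi / 5) (hh1 : 1.25663 ≤ h) (hh2 : h ≤ 1.25664) (hta : 0.88 ≤ t + κ) (htb : t + κ ≤ 1.068)
    (hY : 0.7217 * Real.exp (r * sE κ (t - h)) ≤ ‖Xf β r h t 0‖) (hV : 1.01904 + 0.1515 * (t - h + κ) ≤ sE κ (t - h)) :
    ‖Xf β r h t 1‖ ≤ 0.717 * ‖Xf β r h t 0‖ := by
  rw [v5_X 1 0 (by push_cast; ring)]
  exact v5_cmp 0.1068 0.3438 0.716 0.9619 0.00006672 0.0000222 0.717 hr (B5Io_C78 (t := t + 0 * h) hβ hr hκ hk1 hk2 (by linarith only [hta, htb, hh1, hh2]) (by linarith only [hta, htb, hh1, hh2])) hY (by norm_num) (by norm_num) (by norm_num) (by norm_num) (by linarith only [hV, hta, htb, hh1, hh2]) (ex_un 1 0.0679 (by norm_num) (by norm_num) (by norm_num) (by norm_num)) (by norm_num) (by norm_num) (by linarith only [hV, hta, htb, hh1, hh2]) (ex_un 9 0.6189 (by norm_num) (by norm_num) (by norm_num) (by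 norm_num)) (by norm_num) (by norm_num)

private theorem B5Io_O80 {β r t κ h : ℝ} (hβ : 0 < β) (hr : 10 ≤ r) (hκ : κ = β * r) (hk1 : 1 ≤ κ) (hk2 : κ ≤ 1.15)
    (hh : h = 2 * Real.pi / 5) (hta : 0.88 ≤ t + κ) (htb : t + κ ≤ 1.068) :
    ‖Xf β r h t (-2)‖ + ‖Xf β r h t (-1)‖ + ‖Xf β r h t 2‖ < |‖Xf β r h t 1‖ - ‖Xf β r h t 0‖| := by
  obtain ⟨hh1, hh2⟩ := v5_h hh
  have hκ0 : 0 < κ := by linarith only [hk1]
  have hN : β * 8.695 ≤ 1 := v5_hN 1.15 8.695 hβ hr hκ hk2 (by norm_num) (by norm_num)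
  have hD1 : DomR κ t := v5_dom hκ0 (by linarith only [hta, htb, hk1, hk2, hh1, hh2]) (Or.inr (by linarith only [hta, htb, hk1, hk2, hh1, hh2]))
  have hD0 : DomR κ (t - h) := v5_dom hκ0 (by linarith only [hta, htb, hk1, hk2, hh1, hh2]) (Or.inr (by linarith only [hta, htb, hk1, hk2, hh1, hh2]))
  have h0a : (-0.3767) ≤ t - h + κ := by linarith only [hta, htb, hh1, hh2]
  have h0b : t - h + κ ≤ (-0.1886) := by linarith only [hta, htb, hh1, hh2]
  have e0 : t - h = t + (((0 : ℤ) : ℝ) - 1) * h := by push_cast; ring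
  have hY := B5Io_Y73 (h := h) hβ hκ hN hk1 hk2 e0 hD0 h0a h0b
  have hV := B5Io_V74 hD0 hk1 hk2 h0a h0b
  have cp2 := B5Io_K75 hβ hr hκ hk1 hk2 hh hh1 hh2 hta htb hY hV
  have cm1 := B5Io_K76 hβ hr hκ hk1 hk2 hh hh1 hh2 hta htb hY hV
  have cm2 := B5Io_K77 hβ hr hκ hk1 hk2 hh hh1 hh2 hta htb hY hV
  have cn1 := B5Io_K79 hβ hr hκ hk1 hk2 hh hh1 hh2 hta htb hY hV
  have hp : 0 < ‖Xf β r h t 0‖ := lt_of_lt_of_le (by positivity) hY
  exact v5_out0 _ _ _ _ cm2 cm1 cp2 cn1 hp (by norm_num)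

private theorem B5Io_B81 {κ t : ℝ} (h : DomR κ t) (hk1 : 1 ≤ κ) (hk2 : κ ≤ 1.15) (ht1 : (-0.1887) ≤ t + κ) (ht2 : t + κ ≤ 0.0629) :
    ((-0.099) ≤ sy κ t ∧ sy κ t ≤ 0.031) ∧ (0.9643 ≤ sx κ t ∧ sx κ t ≤ 1.2697) ∧ κ * Real.exp (-sy κ t) ≤ 1.2697 ∧ 1.9988 ≤ sD κ t ∧ sD κ t ≤ 2.4141 := by
  have hy1 : -0.099 ≤ sy κ t := syL_ge h 1 1.15 0.1887 0.099 0.90574 0.90575 0.0818 0.07797 0.08967 hk1 hk2 (by linarith) (by norm_num) (by norm_num) (by norm_num)
    (expm_ge (by norm_num) (by norm_num) (by norm_num) (by norm_num)) (expm_le (by norm_num) (by norm_num) (by norm_num)) (by norm_num)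
    (by norm_num) (by norm_num) (by norm_num) (by norm_num) (by norm_num) (by norm_num)
  have hy2 : sy κ t ≤ 0.031 := syR_le h 1 1.15 0.0629 0.031 1.03148 0.0305 0.0278 0.03198 hk1 hk2 (by linarith) (by norm_num) (by norm_num)
    (expn_ge (by norm_num) (by norm_num)) (by norm_num) (by norm_num) (Or.inr ((mul_le_mul_of_nonneg_left (expn_le (E := 1.03149) (by norm_num) (by norm_num) (by norm_num)) (by norm_num)).trans (by norm_num))) (by norm_num) (by norm_num) (by norm_num)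
  have hy1' : (-0.099) ≤ sy κ t := by linarith
  have hy2' : sy κ t ≤ 0.031 := by linarith
  have hx1 : 0.9643 ≤ sx κ t := sx_lo h 1 0.031 0.0991 0.96947 0.9643 hk1 (by norm_num) hy2' (abs_le.2 ⟨by linarith, by linarith⟩) (ex_lm 0.031 (by norm_num) (by norm_num) (by norm_num) (by norm_num) (by norm_num)) (by norm_num) (by norm_num)
  have hx2 : sx κ t ≤ 1.2697 := sx_hi h 1.15 (-0.099) 0 1.10407 1.2697 hk2 hy1' (by norm_num) (abs_nonneg _) (ex_up 0.099 (by norm_num) (by norm_num) (by norm_num) (by norm_num)) (by norm_num) (by norm_num)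
  refine ⟨⟨hy1', hy2'⟩, ⟨hx1, hx2⟩, v5_n h 1.15 (-0.099) 1.10407 1.2697 hk2 hy1' (ex_up 0.099 (by norm_num) (by norm_num) (by norm_num) (by norm_num)) (by norm_num), ?_, ?_⟩
  · exact v5_Dlo h 1 (-0.099) 0.031 (-0.008) 1.00803 1.9988 (by norm_num) hk1 hy1' hy2' (ex_lp 0.008 (by norm_num) (by norm_num) (by norm_num)) (by norm_num) (by norm_num) (by norm_num) (by norm_num)
  · exact v5_Dup h 1.15 (-0.099) 0.031 1.10407 0.96948 2.4141 hk2 hy1' hy2' (ex_up 0.099 (by norm_num) (by norm_num) (by norm_num) (by norm_num)) (ex_um 0.031 (by norm_num) (by norm_num) (by norm_num) (by norm_num)) (by norm_num) (by norm_num) (by norm_num)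

private theorem B5Io_T82_0_0 {β x y : ℝ} (hβ : 0 < β) (hN : β * 8.695 ≤ 1) (hx1 : 0.9642 ≤ x) (hx2 : x ≤ 1.044)
    (hy1 : -0.0991 ≤ y) (hy2 : y ≤ 0.0311) : ‖HH β (x + y * I) - 1‖ ≤ 0.065 := by
  refine le_epsJ (C := 0.5642) (N0 := 8.695) (J_boxp 0.9642 1.044 0.0991 0.0311 0.0311 1.3186 1.0487 1.4674 0.8001 0.4833 2.9488 8.695 0.7954 2.94 1.432 0.9271 0.6592 0.4844 1.1819 3.1882 0.766 1.8318 3.0963 3.6432 0.003247 0.01484 0.00003446 0.0000003101 0.001282 0.0000003101 0.0000003101 0.0000003101 0.5642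
    hβ hN hx1 hx2 hy1 hy2 (by norm_num) (by norm_num) (by linarith) (by norm_num) (by norm_num) (by norm_num) (by norm_num) (by norm_num) (by norm_num) (by norm_num) (by norm_num) (by norm_num) (by norm_num) (by norm_num) (by norm_num) (by norm_num) (by norm_num) (by norm_num) (by norm_num) (by norm_num) (by norm_num) (by norm_num) (by norm_num) (by norm_num)
    (cube_sqrt_geJ (s := 0.8572) (by norm_num) (by norm_num) (by norm_num) (by norm_num))
    (cube_sqrt_geJ (s := 0.95) (by norm_num) (by norm_num) (by norm_num) (by norm_num))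
    (by norm_num) (by norm_num) (by norm_num) (by norm_num) (by norm_num) (by norm_num) (by norm_num) (by norm_num) (by norm_num) (by norm_num) (by norm_num) (by norm_num) (by norm_num) (by norm_num) (by norm_num) (by norm_num) (by norm_num) (by norm_num)
    (exp_neg_leJ (r := 0.731) 5 (by norm_num) (by norm_num) (by norm_num) (by norm_num))
    (exp_neg_leJ (r := 0.211) 4 (by norm_num) (by norm_num) (by norm_num) (by norm_num))
    (exp_neg_leJ (r := 0.276) 10 (by norm_num) (by norm_num) (by norm_num) (by norm_num))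
    (exp_neg_leJ (r := 0.99) 14 (by norm_num) (by norm_num) (by norm_num) (by norm_num))
    (exp_neg_leJ (r := 0.66) 6 (by norm_num) (by norm_num) (by norm_num) (by norm_num))
    (exp_neg_leJ (r := 0.99) 14 (by norm_num) (by norm_num) (by norm_num) (by norm_num))
    (exp_neg_leJ (r := 0.99) 14 (by norm_num) (by norm_num) (by norm_num) (by norm_num))
    (exp_neg_leJ (r := 0.99) 14 (by norm_num) (by norm_num) (by norm_num) (by norm_num))
    (by norm_num)) (by norm_num) hN hβ.le (by norm_num)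

private theorem B5Io_T82_0_1 {β x y : ℝ} (hβ : 0 < β) (hN : β * 8.695 ≤ 1) (hx1 : 1.044 ≤ x) (hx2 : x ≤ 1.128)
    (hy1 : -0.0991 ≤ y) (hy2 : y ≤ 0.0311) : ‖HH β (x + y * I) - 1‖ ≤ 0.065 := by
  refine le_epsJ (C := 0.5648) (N0 := 8.695) (J_boxp 1.044 1.128 0.0991 0.0311 0.0311 1.3748 1.1324 1.5283 0.767 0.4932 2.9488 8.695 0.8237 3.076 1.451 0.8947 0.6873 0.4986 1.2092 3.1397 0.8048 1.9423 3.2559 3.5753 0.002548 0.01311 0.00002719 0.0000003101 0.0009243 0.0000003101 0.0000003101 0.0000003101 0.5648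
    hβ hN hx1 hx2 hy1 hy2 (by norm_num) (by norm_num) (by linarith) (by norm_num) (by norm_num) (by norm_num) (by norm_num) (by norm_num) (by norm_num) (by norm_num) (by norm_num) (by norm_num) (by norm_num) (by norm_num) (by norm_num) (by norm_num) (by norm_num) (by norm_num) (by norm_num) (by norm_num) (by norm_num) (by norm_num) (by norm_num) (by norm_num)
    (cube_sqrt_geJ (s := 0.8517) (by norm_num) (by norm_num) (by norm_num) (by norm_num))
    (cube_sqrt_geJ (s := 0.9482) (by norm_num) (by norm_num) (by norm_num) (by norm_num))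
    (by norm_num) (by norm_num) (by norm_num) (by norm_num) (by norm_num) (by norm_num) (by norm_num) (by norm_num) (by norm_num) (by norm_num) (by norm_num) (by norm_num) (by norm_num) (by norm_num) (by norm_num) (by norm_num) (by norm_num) (by norm_num)
    (exp_neg_leJ (r := 0.976) 5 (by norm_num) (by norm_num) (by norm_num) (by norm_num))
    (exp_neg_leJ (r := 0.335) 4 (by norm_num) (by norm_num) (by norm_num) (by norm_num))
    (exp_neg_leJ (r := 0.513) 10 (by norm_num) (by norm_num) (by norm_num) (by norm_num))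
    (exp_neg_leJ (r := 0.99) 14 (by norm_num) (by norm_num) (by norm_num) (by norm_num))
    (exp_neg_leJ (r := 0.99) 6 (by norm_num) (by norm_num) (by norm_num) (by norm_num))
    (exp_neg_leJ (r := 0.99) 14 (by norm_num) (by norm_num) (by norm_num) (by norm_num))
    (exp_neg_leJ (r := 0.99) 14 (by norm_num) (by norm_num) (by norm_num) (by norm_num))
    (exp_neg_leJ (r := 0.99) 14 (by norm_num) (by norm_num) (by norm_num) (by norm_num))
    (by norm_num)) (by norm_num) hN hβ.le (by norm_num)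

private theorem B5Io_T82_0_2 {β x y : ℝ} (hβ : 0 < β) (hN : β * 8.695 ≤ 1) (hx1 : 1.128 ≤ x) (hx2 : x ≤ 1.215)
    (hy1 : -0.0991 ≤ y) (hy2 : y ≤ 0.0311) : ‖HH β (x + y * I) - 1‖ ≤ 0.065 := by
  refine le_epsJ (C := 0.5649) (N0 := 8.695) (J_boxp 1.128 1.215 0.0991 0.0311 0.0311 1.4339 1.2191 1.5936 0.7353 0.5037 2.9488 8.695 0.8502 3.211 1.47 0.8613 0.7169 0.5137 1.2379 3.0895 0.8456 2.0586 3.4239 3.5076 0.001964 0.0115 0.0000212 0.0000003101 0.0006414 0.0000003101 0.0000003101 0.0000003101 0.5649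
    hβ hN hx1 hx2 hy1 hy2 (by norm_num) (by norm_num) (by linarith) (by norm_num) (by norm_num) (by norm_num) (by norm_num) (by norm_num) (by norm_num) (by norm_num) (by norm_num) (by norm_num) (by norm_num) (by norm_num) (by norm_num) (by norm_num) (by norm_num) (by norm_num) (by norm_num) (by norm_num) (by norm_num) (by norm_num) (by norm_num) (by norm_num)
    (cube_sqrt_geJ (s := 0.8465) (by norm_num) (by norm_num) (by norm_num) (by norm_num))
    (cube_sqrt_geJ (s := 0.9465) (by norm_num) (by norm_num) (by norm_num) (by norm_num))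
    (by norm_num) (by norm_num) (by norm_num) (by norm_num) (by norm_num) (by norm_num) (by norm_num) (by norm_num) (by norm_num) (by norm_num) (by norm_num) (by norm_num) (by norm_num) (by norm_num) (by norm_num) (by norm_num) (by norm_num) (by norm_num)
    (exp_neg_leJ (r := 0.233) 6 (by norm_num) (by norm_num) (by norm_num) (by norm_num))
    (exp_neg_leJ (r := 0.466) 4 (by norm_num) (by norm_num) (by norm_num) (by norm_num))
    (exp_neg_leJ (r := 0.763) 10 (by norm_num) (by norm_num) (by norm_num) (by norm_num))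
    (exp_neg_leJ (r := 0.99) 14 (by norm_num) (by norm_num) (by norm_num) (by norm_num))
    (exp_neg_leJ (r := 0.352) 7 (by norm_num) (by norm_num) (by norm_num) (by norm_num))
    (exp_neg_leJ (r := 0.99) 14 (by norm_num) (by norm_num) (by norm_num) (by norm_num))
    (exp_neg_leJ (r := 0.99) 14 (by norm_num) (by norm_num) (by norm_num) (by norm_num))
    (exp_neg_leJ (r := 0.99) 14 (by norm_num) (by norm_num) (by norm_num) (by norm_num))
    (by norm_num)) (by norm_num) hN hβ.le (by norm_num)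

private theorem B5Io_T82_0_3 {β x y : ℝ} (hβ : 0 < β) (hN : β * 8.695 ≤ 1) (hx1 : 1.215 ≤ x) (hx2 : x ≤ 1.2698)
    (hy1 : -0.0991 ≤ y) (hy2 : y ≤ 0.0311) : ‖HH β (x + y * I) - 1‖ ≤ 0.065 := by
  refine le_epsJ (C := 0.5256) (N0 := 8.695) (J_boxp 1.215 1.2698 0.0991 0.0311 0.0311 1.4952 1.2737 1.6358 0.6996 0.5103 2.9488 8.695 0.8519 3.22 1.471 0.8402 0.7475 0.5353 1.2677 3.0578 0.8878 2.1791 3.5979 3.5332 0.001506 0.00953 0.00001634 0.0000003101 0.0004448 0.0000003101 0.0000003101 0.0000003101 0.5256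
    hβ hN hx1 hx2 hy1 hy2 (by norm_num) (by norm_num) (by linarith) (by norm_num) (by norm_num) (by norm_num) (by norm_num) (by norm_num) (by norm_num) (by norm_num) (by norm_num) (by norm_num) (by norm_num) (by norm_num) (by norm_num) (by norm_num) (by norm_num) (by norm_num) (by norm_num) (by norm_num) (by norm_num) (by norm_num) (by norm_num) (by norm_num)
    (cube_sqrt_geJ (s := 0.8461) (by norm_num) (by norm_num) (by norm_num) (by norm_num))
    (cube_sqrt_geJ (s := 0.9464) (by norm_num) (by norm_num) (by norm_num) (by norm_num))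
    (by norm_num) (by norm_num) (by norm_num) (by norm_num) (by norm_num) (by norm_num) (by norm_num) (by norm_num) (by norm_num) (by norm_num) (by norm_num) (by norm_num) (by norm_num) (by norm_num) (by norm_num) (by norm_num) (by norm_num) (by norm_num)
    (exp_neg_leJ (r := 0.499) 6 (by norm_num) (by norm_num) (by norm_num) (by norm_num))
    (exp_neg_leJ (r := 0.654) 4 (by norm_num) (by norm_num) (by norm_num) (by norm_num))
    (exp_neg_leJ (r := 0.022) 11 (by norm_num) (by norm_num) (by norm_num) (by norm_num))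
    (exp_neg_leJ (r := 0.99) 14 (by norm_num) (by norm_num) (by norm_num) (by norm_num))
    (exp_neg_leJ (r := 0.719) 7 (by norm_num) (by norm_num) (by norm_num) (by norm_num))
    (exp_neg_leJ (r := 0.99) 14 (by norm_num) (by norm_num) (by norm_num) (by norm_num))
    (exp_neg_leJ (r := 0.99) 14 (by norm_num) (by norm_num) (by norm_num) (by norm_num))
    (exp_neg_leJ (r := 0.99) 14 (by norm_num) (by norm_num) (by norm_num) (by norm_num))
    (by norm_num)) (by norm_num) hN hβ.le (by norm_num)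

private theorem B5Io_T82 {β x y : ℝ} (hβ : 0 < β) (hN : β * 8.695 ≤ 1) (hx1 : 0.9642 ≤ x) (hx2 : x ≤ 1.2698)
    (hy1 : (-0.0991) ≤ y) (hy2 : y ≤ 0.0311) : ‖HH β (x + y * I) - 1‖ ≤ 0.065 := by
  rcases le_total x 1.044 with hxx | hxx
  · exact B5Io_T82_0_0 hβ hN (by linarith) (by linarith) (by linarith) (by linarith)
  rcases le_total x 1.128 with hxx | hxx
  · exact B5Io_T82_0_1 hβ hN (by linarith) (by linarith) (by linarith) (by linarith)
  rcases le_total x 1.215 with hxx | hxx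
  · exact B5Io_T82_0_2 hβ hN (by linarith) (by linarith) (by linarith) (by linarith)
  exact B5Io_T82_0_3 hβ hN (by linarith) (by linarith) (by linarith) (by linarith)

private theorem B5Io_C83 {β r t κ : ℝ} (hβ : 0 < β) (hr : 10 ≤ r) (hκ : κ = β * r) (hk1 : 1 ≤ κ) (hk2 : κ ≤ 1.15) (hta : 2.3246 ≤ t + κ)
    (htb : t + κ ≤ 2.5762) : ‖F (cexp (I * β)) (r * cexp (I * ((t + β / 2 : ℝ) : ℂ)))‖ ≤
      4.2933 * Real.exp (r * (0.44 + 1 / 20)) :=
  v5_UD 1 1.15 2.3246 2.5762 0.44 0.399 0.44 2.2383 4.2933 hβ hr hκ (by norm_num) hk1 hk2 hta htb (by norm_num) (by norm_num) (by norm_num) (by norm_num) (by norm_num) (by norm_num) (by norm_num) (by norm_num) (by norm_num) (by norm_num) (by norm_num)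

private theorem B5Io_G84 {κ : ℝ} (hk1 : 1 ≤ κ) (hk2 : κ ≤ 1.15) : gG κ (-0.55) ≤ 1.3308 ∧ 3.00412 ≤ Real.exp (-(κ * (-0.55))) ^ 2 := by
  refine ⟨gG_le (-0.55) 1 1.15 1.3308 1.73326 1.88232 0.57696 0.53127 hk1 hk2 (by norm_num)
    (ex_up 0.55 (by norm_num) (by norm_num) (by norm_num) (by norm_num)) (ex_up 0.6325 (by norm_num) (by norm_num) (by norm_num) (by norm_num))
    (ex_um 0.55 (by norm_num) (by norm_num) (by norm_num) (by norm_num)) (ex_um 0.6325 (by norm_num) (by norm_num) (by norm_num) (by norm_num))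
    (by norm_num) (by norm_num), ?_⟩
  exact v5_M 1.73324 (ex_lp 0.55 (by linarith) (by norm_num) (by norm_num)) (by norm_num) (by norm_num)

private theorem B5Io_C85 {β r t κ : ℝ} (hβ : 0 < β) (hr : 10 ≤ r) (hκ : κ = β * r) (hk1 : 1 ≤ κ) (hk2 : κ ≤ 1.15) (hta : (-1.4453) ≤ t + κ)
    (htb : t + κ ≤ (-1.1937)) : ‖F (cexp (I * β)) (r * cexp (I * ((t + β / 2 : ℝ) : ℂ)))‖ ≤
      0.9553 * Real.exp (r * (1.3308 - (-0.55) * (t + κ))) + 1.6891 * Real.exp (r * 0.0501) :=
  v5_HU (-0.55) 1 1.15 (-1.4453) (-1.1937) 1.3308 0.9553 3.00412 0.1353 0.7653 2.1166 0 0.0501 0.00000123 1.6891 hβ hr hκ (by norm_num) hk1 hk2 hta htb (by norm_num) (by norm_num) (B5Io_G84 hk1 hk2).1 (B5Io_G84 hk1 hk2).2 (by norm_num) (by norm_num) (by norm_num)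
    (by norm_num) (by norm_num) (by norm_num) (by norm_num) (by norm_num) (by norm_num) (by norm_num)
    (by norm_num) (by norm_num) (by norm_num) (v5_hump 4.9296 8.695 2.9488 0.0000009316 0.00000123 hβ hr hκ hk1 hk2 (by norm_num) htb (by norm_num) (by norm_num) (by norm_num) (by norm_num) (by norm_num) (by norm_num) (by norm_num) (ex_un 13 0.9 (by norm_num) (by norm_num) (by norm_num) (by norm_num)) (by norm_num)) (by norm_num)

private theorem B5Io_C86 {β r t κ : ℝ} (hβ : 0 < β) (hr : 10 ≤ r) (hκ : κ = β * r) (hk1 : 1 ≤ κ) (hk2 : κ ≤ 1.15) (hta : 3.5812 ≤ t + κ)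
    (htb : t + κ ≤ 3.8328) : ‖F (cexp (I * β)) (r * cexp (I * ((t + β / 2 : ℝ) : ℂ)))‖ ≤
      2.0561 * Real.exp (r * (0.0843 + 1 / 20)) :=
  v5_UD 1 1.15 3.5812 3.8328 0.01 0.399 0.0843 1.0719 2.0561 hβ hr hκ (by norm_num) hk1 hk2 hta htb (by norm_num) (by norm_num) (by norm_num) (by norm_num) (by norm_num) (by norm_num) (by norm_num) (by norm_num) (by norm_num) (by norm_num) (by norm_num)

private theorem B5Io_Y87 {β r t κ h t' : ℝ} (hβ : 0 < β) (hκ : κ = β * r) (hN : β * 8.695 ≤ 1) (hk1 : 1 ≤ κ) (hk2 : κ ≤ 1.15)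
    (ht : t' = t + (((0 : ℤ) : ℝ) - 1) * h) (hD : DomR κ t') (hta : (-0.1887) ≤ t' + κ) (htb : t' + κ ≤ 0.0629) :
    0.7501 * Real.exp (r * sE κ t') ≤ ‖Xf β r h t 0‖ := by
  obtain ⟨⟨ya, yb⟩, ⟨xa, xb⟩, n1, Da, Db⟩ := B5Io_B81 hD hk1 hk2 hta htb
  have J := B5Io_T82 (x := sx κ t') (y := sy κ t') hβ hN (by linarith only [xa, xb, ya, yb]) (by linarith only [xa, xb, ya, yb]) (by linarith only [xa, xb, ya, yb]) (by linarith only [xa, xb, ya, yb])
  exact v5_Jlo hβ hκ (k := 0) ht hD 0.065 2.4141 0.7501 (by norm_num) J Db (by norm_num)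

private theorem B5Io_V88 {κ t : ℝ} (hD : DomR κ t) (hk1 : 1 ≤ κ) (hk2 : κ ≤ 1.15) (hta : (-0.1887) ≤ t + κ) (htb : t + κ ≤ 0.0629) :
    0.99692 + 0.0325 * (t + κ) ≤ sE κ t := by
  have hκ0 : 0 < κ := hD.1
  exact v5_V0 hD 1 1.15 (-0.1887) 0.0629 0.1888 0.5169 0.08334 0.21863 0.12501 0.57501 0.99692 0.0325 (by norm_num) hk1 hk2 (by norm_num) hta htb (by norm_num) (by norm_num) (by norm_num) ((cup2 1 (by norm_num) hk1).trans (by norm_num))
      (by norm_num) (by norm_num) (by norm_num) (by norm_num) (by norm_num) (by norm_num) (by norm_num) (by norm_num) (by norm_num) (by norm_num) (by norm_num) (by norm_num) (by norm_num)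

private theorem B5Io_K89 {β r t κ h : ℝ} (hβ : 0 < β) (hr : 10 ≤ r) (hκ : κ = β * r) (hk1 : 1 ≤ κ) (hk2 : κ ≤ 1.15)
    (hh : h = 2 * Real.pi / 5) (hh1 : 1.25663 ≤ h) (hh2 : h ≤ 1.25664) (hta : 1.068 ≤ t + κ) (htb : t + κ ≤ 1.3195)
    (hY : 0.7501 * Real.exp (r * sE κ (t - h)) ≤ ‖Xf β r h t 0‖) (hV : 0.99692 + 0.0325 * (t - h + κ) ≤ sE κ (t - h)) :
    ‖Xf β r h t 2‖ ≤ 0.0384 * ‖Xf β r h t 0‖ := by
  rw [v5_X 2 1 (by push_cast; ring)]
  exact v5_cmp0 0.5007 0.006692 0.0384 hr (B5Io_C83 (t := t + 1 * h) hβ hr hκ hk1 hk2 (by linarith only [hta, htb, hh1, hh2]) (by linarith only [hta, htb, hh1, hh2])) hY (by norm_num) (by norm_num) (by norm_num) (by linarith only [hV, hta, htb, hh1, hh2]) (ex_un 5 0.0069 (by norm_num) (by norm_num) (by norm_num) (by norm_num)) (by norm_num)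

private theorem B5Io_K90 {β r t κ h : ℝ} (hβ : 0 < β) (hr : 10 ≤ r) (hκ : κ = β * r) (hk1 : 1 ≤ κ) (hk2 : κ ≤ 1.15)
    (hh : h = 2 * Real.pi / 5) (hh1 : 1.25663 ≤ h) (hh2 : h ≤ 1.25664) (hta : 1.068 ≤ t + κ) (htb : t + κ ≤ 1.3195)
    (hY : 0.7501 * Real.exp (r * sE κ (t - h)) ≤ ‖Xf β r h t 0‖) (hV : 0.99692 + 0.0325 * (t - h + κ) ≤ sE κ (t - h)) :
    ‖Xf β r h t (-1)‖ ≤ 0.0498 * ‖Xf β r h t 0‖ := by
  rw [v5_X (-1) (-2) (by push_cast; ring)]
  exact v5_cmp 0.3247 0.0389 0.0496 0.9406 0.00008231 0.000186 0.0498 hr (B5Io_C85 (t := t + (-2) * h) hβ hr hκ hk1 hk2 (by linarith only [hta, htb, hh1, hh2]) (by linarith only [hta, htb, hh1, hh2])) hY (by norm_num) (by norm_num) (by norm_num) (by norm_num) (by linarith only [hV, hta, htb, hh1, hh2]) (ex_un 3 0.2469 (by norm_num) (by norm_num) (by norm_num) (by norm_num)) (by norm_num) (by norm_num) (by linarith only [hV, hta, htb, hh1, hh2]) (ex_un 9 0.4059 (by norm_num) (by norm_num) (by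 norm_num) (by norm_num)) (by norm_num) (by norm_num)

private theorem B5Io_K91 {β r t κ h : ℝ} (hβ : 0 < β) (hr : 10 ≤ r) (hκ : κ = β * r) (hk1 : 1 ≤ κ) (hk2 : κ ≤ 1.15)
    (hh : h = 2 * Real.pi / 5) (hh1 : 1.25663 ≤ h) (hh2 : h ≤ 1.25664) (hta : 1.068 ≤ t + κ) (htb : t + κ ≤ 1.3195)
    (hY : 0.7501 * Real.exp (r * sE κ (t - h)) ≤ ‖Xf β r h t 0‖) (hV : 0.99692 + 0.0325 * (t - h + κ) ≤ sE κ (t - h)) :
    ‖Xf β r h t (-2)‖ ≤ 0.000525 * ‖Xf β r h t 0‖ := by
  rw [v5_Xm2 hh]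
  exact v5_cmp0 0.8564 0.0001914 0.000525 hr (B5Io_C86 (t := t + 2 * h) hβ hr hκ hk1 hk2 (by linarith only [hta, htb, hh1, hh2]) (by linarith only [hta, htb, hh1, hh2])) hY (by norm_num) (by norm_num) (by norm_num) (by linarith only [hV, hta, htb, hh1, hh2]) (ex_un 8 0.5639 (by norm_num) (by norm_num) (by norm_num) (by norm_num)) (by norm_num)

private theorem B5Io_G92 {κ : ℝ} (hk1 : 1 ≤ κ) (hk2 : κ ≤ 1.15) : gG κ 0.32 ≤ 1.1357 ∧ 0.47901 ≤ Real.exp (-(κ * 0.32)) ^ 2 := by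
  refine ⟨gG_le 0.32 1 1.15 1.1357 0.72615 0.69212 1.37713 1.44485 hk1 hk2 (by norm_num)
    (ex_um 0.32 (by norm_num) (by norm_num) (by norm_num) (by norm_num)) (ex_um 0.368 (by norm_num) (by norm_num) (by norm_num) (by norm_num))
    (ex_up 0.32 (by norm_num) (by norm_num) (by norm_num) (by norm_num)) (ex_up 0.368 (by norm_num) (by norm_num) (by norm_num) (by norm_num))
    (by norm_num) (by norm_num), ?_⟩
  exact v5_M 0.69211 (ex_lm 0.368 (by linarith) (by norm_num) (by norm_num) (by norm_num) (by norm_num)) (by norm_num) (by norm_num)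

private theorem B5Io_C93 {β r t κ : ℝ} (hβ : 0 < β) (hr : 10 ≤ r) (hκ : κ = β * r) (hk1 : 1 ≤ κ) (hk2 : κ ≤ 1.15) (hta : 1.0679 ≤ t + κ)
    (htb : t + κ ≤ 1.3196) : ‖F (cexp (I * β)) (r * cexp (I * ((t + β / 2 : ℝ) : ℂ)))‖ ≤
      1.5712 * Real.exp (r * (1.1357 - 0.32 * (t + κ))) + 0.2262 * Real.exp (r * 0) :=
  v5_H 0.32 1 1.15 1.0679 1.3196 1.1357 1.5635 0.47901 0.1353 1.4885 1.251 0.26504 0.07095 0.00000123 1.5712 0.2262 hβ hr hκ (by norm_num) hk1 hk2 hta htb (by norm_num) (B5Io_G92 hk1 hk2).1 (B5Io_G92 hk1 hk2).2 (by norm_num) (by norm_num) (by norm_num)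
    (by norm_num) (by norm_num) (by norm_num) (by norm_num) (by norm_num) (by norm_num) (by norm_num) (by norm_num) (ex_un 2 0.6503 (by norm_num) (by norm_num) (by norm_num) (by norm_num))
    (v5_hump 2.4163 8.695 2.9488 0.0000009316 0.00000123 hβ hr hκ hk1 hk2 (by norm_num) htb (by norm_num) (by norm_num) (by norm_num) (by norm_num) (by norm_num) (by norm_num) (by norm_num) (ex_un 13 0.9 (by norm_num) (by norm_num) (by norm_num) (by norm_num)) (by norm_num)) (by norm_num) (by norm_num)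

private theorem B5Io_K94 {β r t κ h : ℝ} (hβ : 0 < β) (hr : 10 ≤ r) (hκ : κ = β * r) (hk1 : 1 ≤ κ) (hk2 : κ ≤ 1.15)
    (hh : h = 2 * Real.pi / 5) (hh1 : 1.25663 ≤ h) (hh2 : h ≤ 1.25664) (hta : 1.068 ≤ t + κ) (htb : t + κ ≤ 1.3195)
    (hY : 0.7501 * Real.exp (r * sE κ (t - h)) ≤ ‖Xf β r h t 0‖) (hV : 0.99692 + 0.0325 * (t - h + κ) ≤ sE κ (t - h)) :
    ‖Xf β r h t 1‖ ≤ 0.299 * ‖Xf β r h t 0‖ := by
  rw [v5_X 1 0 (by push_cast; ring)]
  exact v5_cmp 0.1968 0.1422 0.298 0.9907 0.00005053 0.0000153 0.299 hr (B5Io_C93 (t := t + 0 * h) hβ hr hκ hk1 hk2 (by linarith only [hta, htb, hh1, hh2]) (by linarith only [hta, htb, hh1, hh2])) hY (by norm_num) (by norm_num) (by norm_num) (by norm_num) (by linarith only [hV, hta, htb, hh1, hh2]) (ex_un 1 0.9679 (by norm_num) (by norm_num) (by norm_num) (by norm_num)) (by norm_num) (by norm_num) (by linarith only [hV, hta, htb, hh1, hh2]) (ex_un 9 0.9069 (by norm_num) (by norm_num) (by norm_num) (by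 norm_num)) (by norm_num) (by norm_num)

private theorem B5Io_O95 {β r t κ h : ℝ} (hβ : 0 < β) (hr : 10 ≤ r) (hκ : κ = β * r) (hk1 : 1 ≤ κ) (hk2 : κ ≤ 1.15)
    (hh : h = 2 * Real.pi / 5) (hta : 1.068 ≤ t + κ) (htb : t + κ ≤ 1.3195) :
    ‖Xf β r h t (-2)‖ + ‖Xf β r h t (-1)‖ + ‖Xf β r h t 2‖ < |‖Xf β r h t 1‖ - ‖Xf β r h t 0‖| := by
  obtain ⟨hh1, hh2⟩ := v5_h hh
  have hκ0 : 0 < κ := by linarith only [hk1]
  have hN : β * 8.695 ≤ 1 := v5_hN 1.15 8.695 hβ hr hκ hk2 (by norm_num) (by norm_num)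
  have hD1 : DomR κ t := v5_dom hκ0 (by linarith only [hta, htb, hk1, hk2, hh1, hh2]) (Or.inr (by linarith only [hta, htb, hk1, hk2, hh1, hh2]))
  have hD0 : DomR κ (t - h) := v5_dom hκ0 (by linarith only [hta, htb, hk1, hk2, hh1, hh2]) (Or.inr (by linarith only [hta, htb, hk1, hk2, hh1, hh2]))
  have h0a : (-0.1887) ≤ t - h + κ := by linarith only [hta, htb, hh1, hh2]
  have h0b : t - h + κ ≤ 0.0629 := by linarith only [hta, htb, hh1, hh2]
  have e0 : t - h = t + (((0 : ℤ) : ℝ) - 1) * h := by push_cast; ring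
  have hY := B5Io_Y87 (h := h) hβ hκ hN hk1 hk2 e0 hD0 h0a h0b
  have hV := B5Io_V88 hD0 hk1 hk2 h0a h0b
  have cp2 := B5Io_K89 hβ hr hκ hk1 hk2 hh hh1 hh2 hta htb hY hV
  have cm1 := B5Io_K90 hβ hr hκ hk1 hk2 hh hh1 hh2 hta htb hY hV
  have cm2 := B5Io_K91 hβ hr hκ hk1 hk2 hh hh1 hh2 hta htb hY hV
  have cn1 := B5Io_K94 hβ hr hκ hk1 hk2 hh hh1 hh2 hta htb hY hV
  have hp : 0 < ‖Xf β r h t 0‖ := lt_of_lt_of_le (by positivity) hY
  exact v5_out0 _ _ _ _ cm2 cm1 cp2 cn1 hp (by norm_num)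

theorem R1_b5_I {p : ℤ} {β r : ℝ} (hp : IsCoprime (5 : ℤ) p) (hr : 10 ≤ r) (hβ : 0 < β) (hk1 : 1 ≤ β * r)
    (hk2 : β * r ≤ 1.15) : Circ (2 * Real.pi * p / 5 + β) r := by
  obtain ⟨h, hh⟩ : ∃ h : ℝ, h = 2 * Real.pi / 5 := ⟨_, rfl⟩
  obtain ⟨hh1, hh2⟩ := v5_h hh
  obtain ⟨κ, hκ⟩ : ∃ κ, κ = β * r := ⟨_, rfl⟩
  rw [← hκ] at hk1 hk2
  refine v5_circ (κ := κ) hp hr hh 0.45 0.61 1.04 0.0373 0.0324 0.00361 0.00122 0.0664 0.0188 0.00714 0.2449 ?_ ?_ (by norm_num) (by norm_num) (by norm_num) (by norm_num) (by norm_num) (by norm_num) (by norm_num) (by norm_num) (by norm_num) (by norm_num)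
  · intro t g1 g2
    rcases le_total (t + κ) 0.666 with g3 | g3
    · exact B5Iw_W22 hβ hr hκ hk1 hk2 hh (by linarith) (by linarith)
    exact B5Iw_W43 hβ hr hκ hk1 hk2 hh (by linarith) (by linarith)
  · intro t g1 g2 g3
    rcases g3 with g3 | g3
    · rcases le_total (t + κ) 0.251 with g4 | g4
      · exact B5Io_O16 hβ hr hκ hk1 hk2 hh (by linarith) (by linarith)
      rcases le_total (t + κ) 0.415 with g4 | g4
      · exact B5Io_O31 hβ hr hκ hk1 hk2 hh (by linarith) (by linarith)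
      exact B5Io_O48 hβ hr hκ hk1 hk2 hh (by linarith) (by linarith)
    · rcases le_total (t + κ) 0.88 with g4 | g4
      · exact B5Io_O65 hβ hr hκ hk1 hk2 hh (by linarith) (by linarith)
      rcases le_total (t + κ) 1.068 with g4 | g4
      · exact B5Io_O80 hβ hr hκ hk1 hk2 hh (by linarith) (by linarith)
      exact B5Io_O95 hβ hr hκ hk1 hk2 hh (by linarith) (by linarith)

end Sok
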