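import Pool.Agent.Lib.MP_816dec_an.R1b5WK

/-!
MP_816dec_an (A3, row R1), SINGLE CASE `b = 5`, `r ≥ 10`, `1.25 ≤ κ ≤ 1.33`: outside the window, assembly (generated file).
-/

set_option autoImplicit false
set_option linter.unusedVariables false

open Complex Set Filter Topology Metric

namespace Sok

private theorem B5Ko_B1 {κ t : ℝ} (h : DomR κ t) (hk1 : 1.25 ≤ κ) (hk2 : κ ≤ 1.33) (ht1 : 0.0628 ≤ t + κ) (ht2 : t + κ ≤ 0.251) :
    (0.029 ≤ sy κ t ∧ sy κ t ≤ 0.118) ∧ (1.1045 ≤ sx κ t ∧ sx κ t ≤ 1.2917) ∧ κ * Real.exp (-sy κ t) ≤ 1.292 ∧ 2.47 ≤ sD κ t ∧ sD κ t ≤ 2.7273 := by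
  have hy1 : 0.029 ≤ sy κ t := syR_ge h 1.25 1.33 0.0628 0.029 1.02942 1.02943 0.02244 0.02389 hk1 hk2 (by linarith) (by norm_num) (by norm_num)
    (expn_ge (by norm_num) (by norm_num)) (expn_le (by norm_num) (by norm_num) (by norm_num)) (by norm_num)
    (by norm_num) (by norm_num) (by norm_num) (by norm_num) (by norm_num) (by norm_num)
  have hy2 : sy κ t ≤ 0.118 := syR_le h 1.25 1.33 0.251 0.118 1.12524 0.0982 0.09983 0.10623 hk1 hk2 (by linarith) (by norm_num) (by norm_num)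
    (expn_ge (by norm_num) (by norm_num)) (by norm_num) (by norm_num) (Or.inr ((mul_le_mul_of_nonneg_left (expn_le (E := 1.12525) (by norm_num) (by norm_num) (by norm_num)) (by norm_num)).trans (by norm_num))) (by norm_num) (by norm_num) (by norm_num)
  have hy1' : 0.029 ≤ sy κ t := by linarith
  have hy2' : sy κ t ≤ 0.118 := by linarith
  have hx1 : 1.1045 ≤ sx κ t := sx_lo h 1.25 0.118 0.1181 0.88869 1.1045 hk1 (by norm_num) hy2' (abs_le.2 ⟨by linarith, by linarith⟩) (ex_lm 0.118 (by norm_num) (by norm_num) (by norm_num) (by norm_num) (by norm_num)) (by norm_num) (by norm_num)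
  have hx2 : sx κ t ≤ 1.2917 := sx_hi h 1.33 0.029 0.029 0.97142 1.2917 hk2 hy1' (by norm_num) (le_trans (by linarith) (le_abs_self _)) (ex_um 0.029 (by norm_num) (by norm_num) (by norm_num) (by norm_num)) (by norm_num) (by norm_num)
  refine ⟨⟨hy1', hy2'⟩, ⟨hx1, hx2⟩, v5_n h 1.33 0.029 0.97142 1.292 hk2 hy1' (ex_um 0.029 (by norm_num) (by norm_num) (by norm_num) (by norm_num)) (by norm_num), ?_, ?_⟩
  · exact v5_Dlo h 1.25 0.029 0.118 0.118 0.88869 2.47 (by norm_num) hk1 hy1' hy2' (ex_lm 0.118 (by norm_num) (by norm_num) (by norm_num) (by norm_num) (by norm_num)) (by norm_num) (by norm_num) (by norm_num) (by norm_num)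
  · exact v5_Dup h 1.33 0.029 0.118 0.97142 0.8887 2.7273 hk2 hy1' hy2' (ex_um 0.029 (by norm_num) (by norm_num) (by norm_num) (by norm_num)) (ex_um 0.118 (by norm_num) (by norm_num) (by norm_num) (by norm_num)) (by norm_num) (by norm_num) (by norm_num)

private theorem B5Ko_T2_0_0 {β x y : ℝ} (hβ : 0 < β) (hN : β * 7.518 ≤ 1) (hx1 : 1.1044 ≤ x) (hx2 : x ≤ 1.199)
    (hy1 : -0 ≤ y) (hy2 : y ≤ 0.1181) : ‖HH β (x + y * I) - 1‖ ≤ 0.07 := by
  refine le_epsJ (C := 0.526) (N0 := 7.518) (J_boxp 1.1044 1.199 0 0.1181 0.1181 1.4877 1.2049 1.6395 0.7057 0.5109 2.7419 7.518 0.81 3.009 1.442 0.9589 0.7438 0.543 1.3863 3.4092 0.8794 2.0171 3.2729 3.0891 0.003733 0.01688 0.00002978 0.0000003101 0.001347 0.0000003101 0.0000003101 0.0000003101 0.526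
    hβ hN hx1 hx2 hy1 hy2 (by norm_num) (by norm_num) (by linarith) (by norm_num) (by norm_num) (by norm_num) (by norm_num) (by norm_num) (by norm_num) (by norm_num) (by norm_num) (by norm_num) (by norm_num) (by norm_num) (by norm_num) (by norm_num) (by norm_num) (by norm_num) (by norm_num) (by norm_num) (by norm_num) (by norm_num) (by norm_num) (by norm_num)
    (cube_sqrt_geJ (s := 0.8544) (by norm_num) (by norm_num) (by norm_num) (by norm_num))
    (cube_sqrt_geJ (s := 0.9491) (by norm_num) (by norm_num) (by norm_num) (by norm_num))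
    (by norm_num) (by norm_num) (by norm_num) (by norm_num) (by norm_num) (by norm_num) (by norm_num) (by norm_num) (by norm_num) (by norm_num) (by norm_num) (by norm_num) (by norm_num) (by norm_num) (by norm_num) (by norm_num) (by norm_num) (by norm_num)
    (exp_neg_leJ (r := 0.591) 5 (by norm_num) (by norm_num) (by norm_num) (by norm_num))
    (exp_neg_leJ (r := 0.082) 4 (by norm_num) (by norm_num) (by norm_num) (by norm_num))
    (exp_neg_leJ (r := 0.422) 10 (by norm_num) (by norm_num) (by norm_num) (by norm_num))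
    (exp_neg_leJ (r := 0.99) 14 (by norm_num) (by norm_num) (by norm_num) (by norm_num))
    (exp_neg_leJ (r := 0.611) 6 (by norm_num) (by norm_num) (by norm_num) (by norm_num))
    (exp_neg_leJ (r := 0.99) 14 (by norm_num) (by norm_num) (by norm_num) (by norm_num))
    (exp_neg_leJ (r := 0.99) 14 (by norm_num) (by norm_num) (by norm_num) (by norm_num))
    (exp_neg_leJ (r := 0.99) 14 (by norm_num) (by norm_num) (by norm_num) (by norm_num))
    (by norm_num)) (by norm_num) hN hβ.le (by norm_num)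

private theorem B5Ko_T2_0_1 {β x y : ℝ} (hβ : 0 < β) (hN : β * 7.518 ≤ 1) (hx1 : 1.199 ≤ x) (hx2 : x ≤ 1.2918)
    (hy1 : -0 ≤ y) (hy2 : y ≤ 0.1181) : ‖HH β (x + y * I) - 1‖ ≤ 0.07 := by
  refine le_epsJ (C := 0.5191) (N0 := 7.518) (J_boxp 1.199 1.2918 0 0.1181 0.1181 1.5543 1.2972 1.7085 0.6746 0.5215 2.7419 7.518 0.8346 3.131 1.459 0.9232 0.7771 0.5609 1.4187 3.3557 0.9253 2.1481 3.4621 3.0274 0.002909 0.01476 0.00002337 0.0000003101 0.0009559 0.0000003101 0.0000003101 0.0000003101 0.5191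
    hβ hN hx1 hx2 hy1 hy2 (by norm_num) (by norm_num) (by linarith) (by norm_num) (by norm_num) (by norm_num) (by norm_num) (by norm_num) (by norm_num) (by norm_num) (by norm_num) (by norm_num) (by norm_num) (by norm_num) (by norm_num) (by norm_num) (by norm_num) (by norm_num) (by norm_num) (by norm_num) (by norm_num) (by norm_num) (by norm_num) (by norm_num)
    (cube_sqrt_geJ (s := 0.8495) (by norm_num) (by norm_num) (by norm_num) (by norm_num))
    (cube_sqrt_geJ (s := 0.9475) (by norm_num) (by norm_num) (by norm_num) (by norm_num))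
    (by norm_num) (by norm_num) (by norm_num) (by norm_num) (by norm_num) (by norm_num) (by norm_num) (by norm_num) (by norm_num) (by norm_num) (by norm_num) (by norm_num) (by norm_num) (by norm_num) (by norm_num) (by norm_num) (by norm_num) (by norm_num)
    (exp_neg_leJ (r := 0.842) 5 (by norm_num) (by norm_num) (by norm_num) (by norm_num))
    (exp_neg_leJ (r := 0.216) 4 (by norm_num) (by norm_num) (by norm_num) (by norm_num))
    (exp_neg_leJ (r := 0.665) 10 (by norm_num) (by norm_num) (by norm_num) (by norm_num))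
    (exp_neg_leJ (r := 0.99) 14 (by norm_num) (by norm_num) (by norm_num) (by norm_num))
    (exp_neg_leJ (r := 0.956) 6 (by norm_num) (by norm_num) (by norm_num) (by norm_num))
    (exp_neg_leJ (r := 0.99) 14 (by norm_num) (by norm_num) (by norm_num) (by norm_num))
    (exp_neg_leJ (r := 0.99) 14 (by norm_num) (by norm_num) (by norm_num) (by norm_num))
    (exp_neg_leJ (r := 0.99) 14 (by norm_num) (by norm_num) (by norm_num) (by norm_num))
    (by norm_num)) (by norm_num) hN hβ.le (by norm_num)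

private theorem B5Ko_T2 {β x y : ℝ} (hβ : 0 < β) (hN : β * 7.518 ≤ 1) (hx1 : 1.1044 ≤ x) (hx2 : x ≤ 1.2918)
    (hy1 : 0.0289 ≤ y) (hy2 : y ≤ 0.1181) : ‖HH β (x + y * I) - 1‖ ≤ 0.07 := by
  rcases le_total x 1.199 with hxx | hxx
  · exact B5Ko_T2_0_0 hβ hN (by linarith) (by linarith) (by linarith) (by linarith)
  exact B5Ko_T2_0_1 hβ hN (by linarith) (by linarith) (by linarith) (by linarith)

private theorem B5Ko_G3 {κ : ℝ} (hk1 : 1.25 ≤ κ) (hk2 : κ ≤ 1.33) : gG κ 0.33 ≤ 1.17043 ∧ 0.41568 ≤ Real.exp (-(κ * 0.33)) ^ 2 := by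
  refine ⟨gG_le 0.33 1.25 1.33 1.17043 0.662 0.64475 1.51059 1.55101 hk1 hk2 (by norm_num)
    (ex_um 0.4125 (by norm_num) (by norm_num) (by norm_num) (by norm_num)) (ex_um 0.4389 (by norm_num) (by norm_num) (by norm_num) (by norm_num))
    (ex_up 0.4125 (by norm_num) (by norm_num) (by norm_num) (by norm_num)) (ex_up 0.4389 (by norm_num) (by norm_num) (by norm_num) (by norm_num))
    (by norm_num) (by norm_num), ?_⟩
  exact v5_M 0.64474 (ex_lm 0.4389 (by linarith) (by norm_num) (by norm_num) (by norm_num) (by norm_num)) (by norm_num) (by norm_num)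

private theorem B5Ko_C4 {β r t κ : ℝ} (hβ : 0 < β) (hr : 10 ≤ r) (hκ : κ = β * r) (hk1 : 1.25 ≤ κ) (hk2 : κ ≤ 1.33) (hta : 1.3194 ≤ t + κ)
    (htb : t + κ ≤ 1.5077) : ‖F (cexp (I * β)) (r * cexp (I * ((t + β / 2 : ℝ) : ℂ)))‖ ≤
      1.4852 * Real.exp (r * (1.17043 - 0.33 * (t + κ))) + 0.2388 * Real.exp (r * 0) :=
  v5_H 0.33 1.25 1.33 1.3194 1.5077 1.17043 1.472 0.41568 0.1455 1.56 1.3129 0.21316 0.1187 0.00000116 1.4852 0.2388 hβ hr hκ (by norm_num) hk1 hk2 hta htb (by norm_num) (B5Ko_G3 hk1 hk2).1 (B5Ko_G3 hk1 hk2).2 (by norm_num) (by norm_num) (by norm_num)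
    (by norm_num) (by norm_num) (by norm_num) (by norm_num) (by norm_num) (by norm_num) (by norm_num) (by norm_num) (ex_un 2 0.1315 (by norm_num) (by norm_num) (by norm_num) (by norm_num))
    (v5_hump 1.9189 7.518 2.7419 0.0000009316 0.00000116 hβ hr hκ hk1 hk2 (by norm_num) htb (by norm_num) (by norm_num) (by norm_num) (by norm_num) (by norm_num) (by norm_num) (by norm_num) (ex_un 13 0.9 (by norm_num) (by norm_num) (by norm_num) (by norm_num)) (by norm_num)) (by norm_num) (by norm_num)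

private theorem B5Ko_G5 {κ : ℝ} (hk1 : 1.25 ≤ κ) (hk2 : κ ≤ 1.33) : gG κ (-0.71) ≤ 1.72544 ∧ 5.89979 ≤ Real.exp (-(κ * (-0.71))) ^ 2 := by
  refine ⟨gG_le (-0.71) 1.25 1.33 1.72544 2.42905 2.57102 0.41171 0.38898 hk1 hk2 (by norm_num)
    (ex_up 0.8875 (by norm_num) (by norm_num) (by norm_num) (by norm_num)) (ex_up 0.9443 (by norm_num) (by norm_num) (by norm_num) (by norm_num))
    (ex_um 0.8875 (by norm_num) (by norm_num) (by norm_num) (by norm_num)) (ex_um 0.9443 (by norm_num) (by norm_num) (by norm_num) (by norm_num))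
    (by norm_num) (by norm_num), ?_⟩
  exact v5_M 2.42895 (ex_lp 0.8875 (by linarith) (by norm_num) (by norm_num)) (by norm_num) (by norm_num)

private theorem B5Ko_C6 {β r t κ : ℝ} (hβ : 0 < β) (hr : 10 ≤ r) (hκ : κ = β * r) (hk1 : 1.25 ≤ κ) (hk2 : κ ≤ 1.33) (hta : (-2.4505) ≤ t + κ)
    (htb : t + κ ≤ (-2.2622)) : ‖F (cexp (I * β)) (r * cexp (I * ((t + β / 2 : ℝ) : ℂ)))‖ ≤
      0.7188 * Real.exp (r * (1.72544 - (-0.71) * (t + κ))) + 1.8477 * Real.exp (r * 0.0501) :=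
  v5_HU (-0.71) 1.25 1.33 (-2.4505) (-2.2622) 1.72544 0.7188 5.89979 0.1455 0.6845 0.9314 0 0.0501 0.00000116 1.8477 hβ hr hκ (by norm_num) hk1 hk2 hta htb (by norm_num) (by norm_num) (B5Ko_G5 hk1 hk2).1 (B5Ko_G5 hk1 hk2).2 (by norm_num) (by norm_num) (by norm_num)
    (by norm_num) (by norm_num) (by norm_num) (by norm_num) (by norm_num) (by norm_num) (by norm_num)
    (by norm_num) (by norm_num) (by norm_num) (v5_hump 5.6888 7.518 2.7419 0.0000009316 0.00000116 hβ hr hκ hk1 hk2 (by norm_num) htb (by norm_num) (by norm_num) (by norm_num) (by norm_num) (by norm_num) (by norm_num) (by norm_num) (ex_un 13 0.9 (by norm_num) (by norm_num) (by norm_num) (by norm_num)) (by norm_num)) (by norm_num)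

private theorem B5Ko_C7 {β r t κ : ℝ} (hβ : 0 < β) (hr : 10 ≤ r) (hκ : κ = β * r) (hk1 : 1.25 ≤ κ) (hk2 : κ ≤ 1.33) (hta : 2.576 ≤ t + κ)
    (htb : t + κ ≤ 2.7643) : ‖F (cexp (I * β)) (r * cexp (I * ((t + β / 2 : ℝ) : ℂ)))‖ ≤
      4.034 * Real.exp (r * (0.37 + 1 / 20)) :=
  v5_UD 1.25 1.33 2.576 2.7643 0.37 0.3569 0.37 2.1031 4.034 hβ hr hκ (by norm_num) hk1 hk2 hta htb (by norm_num) (by norm_num) (by norm_num) (by norm_num) (by norm_num) (by norm_num) (by norm_num) (by norm_num) (by norm_num) (by norm_num) (by norm_num)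

private theorem B5Ko_Y8 {β r t κ h t' : ℝ} (hβ : 0 < β) (hκ : κ = β * r) (hN : β * 7.518 ≤ 1) (hk1 : 1.25 ≤ κ) (hk2 : κ ≤ 1.33)
    (ht : t' = t + (((1 : ℤ) : ℝ) - 1) * h) (hD : DomR κ t') (hta : 0.0628 ≤ t' + κ) (htb : t' + κ ≤ 0.251) :
    0.7236 * Real.exp (r * sE κ t') ≤ ‖Xf β r h t 1‖ := by
  obtain ⟨⟨ya, yb⟩, ⟨xa, xb⟩, n1, Da, Db⟩ := B5Ko_B1 hD hk1 hk2 hta htb
  have J := B5Ko_T2 (x := sx κ t') (y := sy κ t') hβ hN (by linarith only [xa, xb, ya, yb]) (by linarith only [xa, xb, ya, yb]) (by linarith only [xa, xb, ya, yb]) (by linarith only [xa, xb, ya, yb])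
  exact v5_Jlo hβ hκ (k := 1) ht hD 0.07 2.7273 0.7236 (by norm_num) J Db (by norm_num)

private theorem B5Ko_V9 {κ t : ℝ} (hD : DomR κ t) (hk1 : 1.25 ≤ κ) (hk2 : κ ≤ 1.33) (hta : 0.0628 ≤ t + κ) (htb : t + κ ≤ 0.251) :
    1.00299 - 0.0601 * (t + κ) ≤ sE κ t := by
  have hκ0 : 0 < κ := hD.1
  exact v5_V1 hD 1.25 1.33 0.0628 0.251 0.03358 0.11687 0.27289 1.00299 0.0601 (by norm_num) hk1 hk2 (by norm_num) (by norm_num) hta htb (by norm_num) (clo5 1.25 1.33 0.27289 (by norm_num) hk1 hk2 (by norm_num) (by norm_num) (by norm_num))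
      ((cup2 1.25 (by norm_num) hk1).trans (by norm_num)) (by norm_num) (by norm_num) (by norm_num) (by norm_num) (by norm_num) (by norm_num)

private theorem B5Ko_K10 {β r t κ h : ℝ} (hβ : 0 < β) (hr : 10 ≤ r) (hκ : κ = β * r) (hk1 : 1.25 ≤ κ) (hk2 : κ ≤ 1.33)
    (hh : h = 2 * Real.pi / 5) (hh1 : 1.25663 ≤ h) (hh2 : h ≤ 1.25664) (hta : 0.0628 ≤ t + κ) (htb : t + κ ≤ 0.251)
    (hY : 0.7236 * Real.exp (r * sE κ t) ≤ ‖Xf β r h t 1‖) (hV : 1.00299 - 0.0601 * (t + κ) ≤ sE κ t) :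
    ‖Xf β r h t 2‖ ≤ 0.148 * ‖Xf β r h t 1‖ := by
  rw [v5_X 2 1 (by push_cast; ring)]
  exact v5_cmp 0.2641 0.07161 0.147 0.9879 0.0000519 0.0000172 0.148 hr (B5Ko_C4 (t := t + 1 * h) hβ hr hκ hk1 hk2 (by linarith only [hta, htb, hh1, hh2]) (by linarith only [hta, htb, hh1, hh2])) hY (by norm_num) (by norm_num) (by norm_num) (by norm_num) (by linarith only [hV, hta, htb, hh1, hh2]) (ex_un 2 0.6409 (by norm_num) (by norm_num) (by norm_num) (by norm_num)) (by norm_num) (by norm_num) (by linarith only [hV, hta, htb, hh1, hh2]) (ex_un 9 0.8789 (by norm_num) (by norm_num) (by norm_num) (by norm_num)) (by norm_num) (by norm_num)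

private theorem B5Ko_K11 {β r t κ h : ℝ} (hβ : 0 < β) (hr : 10 ≤ r) (hκ : κ = β * r) (hk1 : 1.25 ≤ κ) (hk2 : κ ≤ 1.33)
    (hh : h = 2 * Real.pi / 5) (hh1 : 1.25663 ≤ h) (hh2 : h ≤ 1.25664) (hta : 0.0628 ≤ t + κ) (htb : t + κ ≤ 0.251)
    (hY : 0.7236 * Real.exp (r * sE κ t) ≤ ‖Xf β r h t 1‖) (hV : 1.00299 - 0.0601 * (t + κ) ≤ sE κ t) :
    ‖Xf β r h t (-1)‖ ≤ 0.000387 * ‖Xf β r h t 1‖ := by
  rw [v5_X (-1) (-2) (by push_cast; ring)]
  exact v5_cmp 0.8686 0.0001699 0.000169 0.9378 0.00008463 0.000217 0.000387 hr (B5Ko_C6 (t := t + (-2) * h) hβ hr hκ hk1 hk2 (by linarith only [hta, htb, hh1, hh2]) (by linarith only [hta, htb, hh1, hh2])) hY (by norm_num) (by norm_num) (by norm_num) (by norm_num) (by linarith only [hV, hta, htb, hh1, hh2]) (ex_un 8 0.6859 (by norm_num) (by norm_num) (by norm_num) (by norm_num)) (by norm_num) (by norm_num) (by linarith only [hV, hta, htb, hh1, hh2]) (ex_un 9 0.3779 (by norm_num) (by norm_num) (by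 norm_num) (by norm_num)) (by norm_num) (by norm_num)

private theorem B5Ko_K12 {β r t κ h : ℝ} (hβ : 0 < β) (hr : 10 ≤ r) (hκ : κ = β * r) (hk1 : 1.25 ≤ κ) (hk2 : κ ≤ 1.33)
    (hh : h = 2 * Real.pi / 5) (hh1 : 1.25663 ≤ h) (hh2 : h ≤ 1.25664) (hta : 0.0628 ≤ t + κ) (htb : t + κ ≤ 0.251)
    (hY : 0.7236 * Real.exp (r * sE κ t) ≤ ‖Xf β r h t 1‖) (hV : 1.00299 - 0.0601 * (t + κ) ≤ sE κ t) :
    ‖Xf β r h t (-2)‖ ≤ 0.0192 * ‖Xf β r h t 1‖ := by
  rw [v5_Xm2 hh]
  exact v5_cmp0 0.5679 0.003436 0.0192 hr (B5Ko_C7 (t := t + 2 * h) hβ hr hκ hk1 hk2 (by linarith only [hta, htb, hh1, hh2]) (by linarith only [hta, htb, hh1, hh2])) hY (by norm_num) (by norm_num) (by norm_num) (by linarith only [hV, hta, htb, hh1, hh2]) (ex_un 5 0.6789 (by norm_num) (by norm_num) (by norm_num) (by norm_num)) (by norm_num)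

private theorem B5Ko_G13 {κ : ℝ} (hk1 : 1.25 ≤ κ) (hk2 : κ ≤ 1.33) : gG κ (-0.38) ≤ 1.19601 ∧ 2.58569 ≤ Real.exp (-(κ * (-0.38))) ^ 2 := by
  refine ⟨gG_le (-0.38) 1.25 1.33 1.19601 1.60802 1.65765 0.62189 0.60327 hk1 hk2 (by norm_num)
    (ex_up 0.475 (by norm_num) (by norm_num) (by norm_num) (by norm_num)) (ex_up 0.5054 (by norm_num) (by norm_num) (by norm_num) (by norm_num))
    (ex_um 0.475 (by norm_num) (by norm_num) (by norm_num) (by norm_num)) (ex_um 0.5054 (by norm_num) (by norm_num) (by norm_num) (by norm_num))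
    (by norm_num) (by norm_num), ?_⟩
  exact v5_M 1.60801 (ex_lp 0.475 (by linarith) (by norm_num) (by norm_num)) (by norm_num) (by norm_num)

private theorem B5Ko_C14 {β r t κ : ℝ} (hβ : 0 < β) (hr : 10 ≤ r) (hκ : κ = β * r) (hk1 : 1.25 ≤ κ) (hk2 : κ ≤ 1.33) (hta : (-1.1939) ≤ t + κ)
    (htb : t + κ ≤ (-1.0056)) : ‖F (cexp (I * β)) (r * cexp (I * ((t + β / 2 : ℝ) : ℂ)))‖ ≤
      0.8764 * Real.exp (r * (1.19601 - (-0.38) * (t + κ))) + 1.4575 * Real.exp (r * 0.0501) :=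
  v5_HU (-0.38) 1.25 1.33 (-1.1939) (-1.0056) 1.19601 0.8764 2.58569 0.1455 0.6845 2.188 0 0.0501 0.00000116 1.4575 hβ hr hκ (by norm_num) hk1 hk2 hta htb (by norm_num) (by norm_num) (B5Ko_G13 hk1 hk2).1 (B5Ko_G13 hk1 hk2).2 (by norm_num) (by norm_num) (by norm_num)
    (by norm_num) (by norm_num) (by norm_num) (by norm_num) (by norm_num) (by norm_num) (by norm_num)
    (by norm_num) (by norm_num) (by norm_num) (v5_hump 4.4322 7.518 2.7419 0.0000009316 0.00000116 hβ hr hκ hk1 hk2 (by norm_num) htb (by norm_num) (by norm_num) (by norm_num) (by norm_num) (by norm_num) (by norm_num) (by norm_num) (ex_un 13 0.9 (by norm_num) (by norm_num) (by norm_num) (by norm_num)) (by norm_num)) (by norm_num)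

private theorem B5Ko_K15 {β r t κ h : ℝ} (hβ : 0 < β) (hr : 10 ≤ r) (hκ : κ = β * r) (hk1 : 1.25 ≤ κ) (hk2 : κ ≤ 1.33)
    (hh : h = 2 * Real.pi / 5) (hh1 : 1.25663 ≤ h) (hh2 : h ≤ 1.25664) (hta : 0.0628 ≤ t + κ) (htb : t + κ ≤ 0.251)
    (hY : 0.7236 * Real.exp (r * sE κ t) ≤ ‖Xf β r h t 1‖) (hV : 1.00299 - 0.0601 * (t + κ) ≤ sE κ t) :
    ‖Xf β r h t 0‖ ≤ 0.216 * ‖Xf β r h t 1‖ := by
  rw [v5_X 0 (-1) (by push_cast; ring)]
  exact v5_cmp 0.174 0.1768 0.215 0.9378 0.00008463 0.000171 0.216 hr (B5Ko_C14 (t := t + (-1) * h) hβ hr hκ hk1 hk2 (by linarith only [hta, htb, hh1, hh2]) (by linarith only [hta, htb, hh1, hh2])) hY (by norm_num) (by norm_num) (by norm_num) (by norm_num) (by linarith only [hV, hta, htb, hh1, hh2]) (ex_un 1 0.7399 (by norm_num) (by norm_num) (by norm_num) (by norm_num)) (by norm_num) (by norm_num) (by linarith only [hV, hta, htb, hh1, hh2]) (ex_un 9 0.3779 (by norm_num) (by norm_num) (by norm_num) (by norm_num))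 (by norm_num) (by norm_num)

private theorem B5Ko_O16 {β r t κ h : ℝ} (hβ : 0 < β) (hr : 10 ≤ r) (hκ : κ = β * r) (hk1 : 1.25 ≤ κ) (hk2 : κ ≤ 1.33)
    (hh : h = 2 * Real.pi / 5) (hta : 0.0628 ≤ t + κ) (htb : t + κ ≤ 0.251) :
    ‖Xf β r h t (-2)‖ + ‖Xf β r h t (-1)‖ + ‖Xf β r h t 2‖ < |‖Xf β r h t 1‖ - ‖Xf β r h t 0‖| := by
  obtain ⟨hh1, hh2⟩ := v5_h hh
  have hκ0 : 0 < κ := by linarith only [hk1]
  have hN : β * 7.518 ≤ 1 := v5_hN 1.33 7.518 hβ hr hκ hk2 (by norm_num) (by norm_num)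
  have hD1 : DomR κ t := v5_dom hκ0 (by linarith only [hta, htb, hk1, hk2, hh1, hh2]) (Or.inr (by linarith only [hta, htb, hk1, hk2, hh1, hh2]))
  have e1 : t = t + (((1 : ℤ) : ℝ) - 1) * h := by push_cast; ring
  have hY := B5Ko_Y8 (h := h) hβ hκ hN hk1 hk2 e1 hD1 hta htb
  have hV := B5Ko_V9 hD1 hk1 hk2 hta htb
  have cp2 := B5Ko_K10 hβ hr hκ hk1 hk2 hh hh1 hh2 hta htb hY hV
  have cm1 := B5Ko_K11 hβ hr hκ hk1 hk2 hh hh1 hh2 hta htb hY hV
  have cm2 := B5Ko_K12 hβ hr hκ hk1 hk2 hh hh1 hh2 hta htb hY hV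
  have cn0 := B5Ko_K15 hβ hr hκ hk1 hk2 hh hh1 hh2 hta htb hY hV
  have hp : 0 < ‖Xf β r h t 1‖ := lt_of_lt_of_le (by positivity) hY
  exact v5_out1 _ _ _ _ cm2 cm1 cp2 cn0 hp (by norm_num)

private theorem B5Ko_B17 {κ t : ℝ} (h : DomR κ t) (hk1 : 1.25 ≤ κ) (hk2 : κ ≤ 1.33) (ht1 : 0.251 ≤ t + κ) (ht2 : t + κ ≤ 0.415) :
    (0.116 ≤ sy κ t ∧ sy κ t ≤ 0.189) ∧ (1.0172 ≤ sx κ t ∧ sx κ t ≤ 1.1787) ∧ κ * Real.exp (-sy κ t) ≤ 1.1844 ∧ 2.4486 ≤ sD κ t ∧ sD κ t ≤ 2.6347 := by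
  have hy1 : 0.116 ≤ sy κ t := syR_ge h 1.25 1.33 0.251 0.116 1.12299 1.123 0.09794 0.10422 hk1 hk2 (by linarith) (by norm_num) (by norm_num)
    (expn_ge (by norm_num) (by norm_num)) (expn_le (by norm_num) (by norm_num) (by norm_num)) (by norm_num)
    (by norm_num) (by norm_num) (by norm_num) (by norm_num) (by norm_num) (by norm_num)
  have hy2 : sy κ t ≤ 0.189 := syR_le h 1.25 1.33 0.415 0.189 1.20804 0.1689 0.17166 0.18266 hk1 hk2 (by linarith) (by norm_num) (by norm_num)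
    (expn_ge (by norm_num) (by norm_num)) (by norm_num) (by norm_num) (Or.inr ((mul_le_mul_of_nonneg_left (expn_le (E := 1.20805) (by norm_num) (by norm_num) (by norm_num)) (by norm_num)).trans (by norm_num))) (by norm_num) (by norm_num) (by norm_num)
  have hy1' : 0.116 ≤ sy κ t := by linarith
  have hy2' : sy κ t ≤ 0.189 := by linarith
  have hx1 : 1.0172 ≤ sx κ t := sx_lo h 1.25 0.189 0.1891 0.82778 1.0172 hk1 (by norm_num) hy2' (abs_le.2 ⟨by linarith, by linarith⟩) (ex_lm 0.189 (by norm_num) (by norm_num) (by norm_num) (by norm_num) (by norm_num)) (by norm_num) (by norm_num)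
  have hx2 : sx κ t ≤ 1.1787 := sx_hi h 1.33 0.116 0.116 0.89048 1.1787 hk2 hy1' (by norm_num) (le_trans (by linarith) (le_abs_self _)) (ex_um 0.116 (by norm_num) (by norm_num) (by norm_num) (by norm_num)) (by norm_num) (by norm_num)
  refine ⟨⟨hy1', hy2'⟩, ⟨hx1, hx2⟩, v5_n h 1.33 0.116 0.89048 1.1844 hk2 hy1' (ex_um 0.116 (by norm_num) (by norm_num) (by norm_num) (by norm_num)) (by norm_num), ?_, ?_⟩
  · exact v5_Dlo h 1.25 0.116 0.189 0.189 0.82778 2.4486 (by norm_num) hk1 hy1' hy2' (ex_lm 0.189 (by norm_num) (by norm_num) (by norm_num) (by norm_num) (by norm_num)) (by norm_num) (by norm_num) (by norm_num) (by norm_num)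
  · exact v5_Dup h 1.33 0.116 0.189 0.89048 0.82779 2.6347 hk2 hy1' hy2' (ex_um 0.116 (by norm_num) (by norm_num) (by norm_num) (by norm_num)) (ex_um 0.189 (by norm_num) (by norm_num) (by norm_num) (by norm_num)) (by norm_num) (by norm_num) (by norm_num)

private theorem B5Ko_T18_0_0 {β x y : ℝ} (hβ : 0 < β) (hN : β * 7.518 ≤ 1) (hx1 : 1.0171 ≤ x) (hx2 : x ≤ 1.088)
    (hy1 : -0 ≤ y) (hy2 : y ≤ 0.1891) : ‖HH β (x + y * I) - 1‖ ≤ 0.07 := by
  refine le_epsJ (C := 0.526) (N0 := 7.518) (J_boxp 1.0171 1.088 0 0.1891 0.1891 1.4262 1.1044 1.6118 0.7454 0.5065 2.7419 7.518 0.7744 2.844 1.418 1.0016 0.713 0.529 1.3564 3.4706 0.8297 1.889 2.7938 2.8531 0.004702 0.01881 0.00003729 0.0000003101 0.001956 0.0000006802 0.0000003101 0.0000003101 0.526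
    hβ hN hx1 hx2 hy1 hy2 (by norm_num) (by norm_num) (by linarith) (by norm_num) (by norm_num) (by norm_num) (by norm_num) (by norm_num) (by norm_num) (by norm_num) (by norm_num) (by norm_num) (by norm_num) (by norm_num) (by norm_num) (by norm_num) (by norm_num) (by norm_num) (by norm_num) (by norm_num) (by norm_num) (by norm_num) (by norm_num) (by norm_num)
    (cube_sqrt_geJ (s := 0.8613) (by norm_num) (by norm_num) (by norm_num) (by norm_num))
    (cube_sqrt_geJ (s := 0.9514) (by norm_num) (by norm_num) (by norm_num) (by norm_num))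
    (by norm_num) (by norm_num) (by norm_num) (by norm_num) (by norm_num) (by norm_num) (by norm_num) (by norm_num) (by norm_num) (by norm_num) (by norm_num) (by norm_num) (by norm_num) (by norm_num) (by norm_num) (by norm_num) (by norm_num) (by norm_num)
    (exp_neg_leJ (r := 0.36) 5 (by norm_num) (by norm_num) (by norm_num) (by norm_num))
    (exp_neg_leJ (r := 0.977) 3 (by norm_num) (by norm_num) (by norm_num) (by norm_num))
    (exp_neg_leJ (r := 0.197) 10 (by norm_num) (by norm_num) (by norm_num) (by norm_num))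
    (exp_neg_leJ (r := 0.99) 14 (by norm_num) (by norm_num) (by norm_num) (by norm_num))
    (exp_neg_leJ (r := 0.237) 6 (by norm_num) (by norm_num) (by norm_num) (by norm_num))
    (exp_neg_leJ (r := 0.201) 14 (by norm_num) (by norm_num) (by norm_num) (by norm_num))
    (exp_neg_leJ (r := 0.99) 14 (by norm_num) (by norm_num) (by norm_num) (by norm_num))
    (exp_neg_leJ (r := 0.99) 14 (by norm_num) (by norm_num) (by norm_num) (by norm_num))
    (by norm_num)) (by norm_num) hN hβ.le (by norm_num)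

private theorem B5Ko_T18_0_1 {β x y : ℝ} (hβ : 0 < β) (hN : β * 7.518 ≤ 1) (hx1 : 1.088 ≤ x) (hx2 : x ≤ 1.165)
    (hy1 : -0 ≤ y) (hy2 : y ≤ 0.1891) : ‖HH β (x + y * I) - 1‖ ≤ 0.07 := by
  refine le_epsJ (C := 0.5259) (N0 := 7.518) (J_boxp 1.088 1.165 0 0.1891 0.1891 1.4761 1.1803 1.6647 0.7195 0.5148 2.7419 7.518 0.7997 2.96 1.435 0.972 0.738 0.5413 1.3807 3.4264 0.8641 1.9871 2.9356 2.7886 0.003897 0.0171 0.00003105 0.0000003101 0.00151 0.0000003261 0.0000003101 0.0000003101 0.5259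
    hβ hN hx1 hx2 hy1 hy2 (by norm_num) (by norm_num) (by linarith) (by norm_num) (by norm_num) (by norm_num) (by norm_num) (by norm_num) (by norm_num) (by norm_num) (by norm_num) (by norm_num) (by norm_num) (by norm_num) (by norm_num) (by norm_num) (by norm_num) (by norm_num) (by norm_num) (by norm_num) (by norm_num) (by norm_num) (by norm_num) (by norm_num)
    (cube_sqrt_geJ (s := 0.8564) (by norm_num) (by norm_num) (by norm_num) (by norm_num))
    (cube_sqrt_geJ (s := 0.9497) (by norm_num) (by norm_num) (by norm_num) (by norm_num))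
    (by norm_num) (by norm_num) (by norm_num) (by norm_num) (by norm_num) (by norm_num) (by norm_num) (by norm_num) (by norm_num) (by norm_num) (by norm_num) (by norm_num) (by norm_num) (by norm_num) (by norm_num) (by norm_num) (by norm_num) (by norm_num)
    (exp_neg_leJ (r := 0.548) 5 (by norm_num) (by norm_num) (by norm_num) (by norm_num))
    (exp_neg_leJ (r := 0.069) 4 (by norm_num) (by norm_num) (by norm_num) (by norm_num))
    (exp_neg_leJ (r := 0.38) 10 (by norm_num) (by norm_num) (by norm_num) (by norm_num))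
    (exp_neg_leJ (r := 0.99) 14 (by norm_num) (by norm_num) (by norm_num) (by norm_num))
    (exp_neg_leJ (r := 0.496) 6 (by norm_num) (by norm_num) (by norm_num) (by norm_num))
    (exp_neg_leJ (r := 0.939) 14 (by norm_num) (by norm_num) (by norm_num) (by norm_num))
    (exp_neg_leJ (r := 0.99) 14 (by norm_num) (by norm_num) (by norm_num) (by norm_num))
    (exp_neg_leJ (r := 0.99) 14 (by norm_num) (by norm_num) (by norm_num) (by norm_num))
    (by norm_num)) (by norm_num) hN hβ.le (by norm_num)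

private theorem B5Ko_T18_0_2 {β x y : ℝ} (hβ : 0 < β) (hN : β * 7.518 ≤ 1) (hx1 : 1.165 ≤ x) (hx2 : x ≤ 1.1788)
    (hy1 : -0 ≤ y) (hy2 : y ≤ 0.1891) : ‖HH β (x + y * I) - 1‖ ≤ 0.07 := by
  refine le_epsJ (C := 0.4609) (N0 := 7.518) (J_boxp 1.165 1.1788 0 0.1891 0.1891 1.5303 1.1939 1.6744 0.6836 0.5163 2.7419 7.518 0.7802 2.87 1.422 0.9667 0.7651 0.5661 1.407 3.4184 0.9015 2.0937 3.0896 2.9056 0.00318 0.0142 0.00002551 0.0000003101 0.001142 0.0000003101 0.0000003101 0.0000003101 0.4609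
    hβ hN hx1 hx2 hy1 hy2 (by norm_num) (by norm_num) (by linarith) (by norm_num) (by norm_num) (by norm_num) (by norm_num) (by norm_num) (by norm_num) (by norm_num) (by norm_num) (by norm_num) (by norm_num) (by norm_num) (by norm_num) (by norm_num) (by norm_num) (by norm_num) (by norm_num) (by norm_num) (by norm_num) (by norm_num) (by norm_num) (by norm_num)
    (cube_sqrt_geJ (s := 0.8601) (by norm_num) (by norm_num) (by norm_num) (by norm_num))
    (cube_sqrt_geJ (s := 0.951) (by norm_num) (by norm_num) (by norm_num) (by norm_num))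
    (by norm_num) (by norm_num) (by norm_num) (by norm_num) (by norm_num) (by norm_num) (by norm_num) (by norm_num) (by norm_num) (by norm_num) (by norm_num) (by norm_num) (by norm_num) (by norm_num) (by norm_num) (by norm_num) (by norm_num) (by norm_num)
    (exp_neg_leJ (r := 0.752) 5 (by norm_num) (by norm_num) (by norm_num) (by norm_num))
    (exp_neg_leJ (r := 0.255) 4 (by norm_num) (by norm_num) (by norm_num) (by norm_num))
    (exp_neg_leJ (r := 0.577) 10 (by norm_num) (by norm_num) (by norm_num) (by norm_num))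
    (exp_neg_leJ (r := 0.99) 14 (by norm_num) (by norm_num) (by norm_num) (by norm_num))
    (exp_neg_leJ (r := 0.777) 6 (by norm_num) (by norm_num) (by norm_num) (by norm_num))
    (exp_neg_leJ (r := 0.99) 14 (by norm_num) (by norm_num) (by norm_num) (by norm_num))
    (exp_neg_leJ (r := 0.99) 14 (by norm_num) (by norm_num) (by norm_num) (by norm_num))
    (exp_neg_leJ (r := 0.99) 14 (by norm_num) (by norm_num) (by norm_num) (by norm_num))
    (by norm_num)) (by norm_num) hN hβ.le (by norm_num)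

private theorem B5Ko_T18 {β x y : ℝ} (hβ : 0 < β) (hN : β * 7.518 ≤ 1) (hx1 : 1.0171 ≤ x) (hx2 : x ≤ 1.1788)
    (hy1 : 0.1159 ≤ y) (hy2 : y ≤ 0.1891) : ‖HH β (x + y * I) - 1‖ ≤ 0.07 := by
  rcases le_total x 1.088 with hxx | hxx
  · exact B5Ko_T18_0_0 hβ hN (by linarith) (by linarith) (by linarith) (by linarith)
  rcases le_total x 1.165 with hxx | hxx
  · exact B5Ko_T18_0_1 hβ hN (by linarith) (by linarith) (by linarith) (by linarith)
  exact B5Ko_T18_0_2 hβ hN (by linarith) (by linarith) (by linarith) (by linarith)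

private theorem B5Ko_G19 {κ : ℝ} (hk1 : 1.25 ≤ κ) (hk2 : κ ≤ 1.33) : gG κ 0.36 ≤ 1.20687 ∧ 0.3838 ≤ Real.exp (-(κ * 0.36)) ^ 2 := by
  refine ⟨gG_le 0.36 1.25 1.33 1.20687 0.63763 0.61953 1.56832 1.61414 hk1 hk2 (by norm_num)
    (ex_um 0.45 (by norm_num) (by norm_num) (by norm_num) (by norm_num)) (ex_um 0.4788 (by norm_num) (by norm_num) (by norm_num) (by norm_num))
    (ex_up 0.45 (by norm_num) (by norm_num) (by norm_num) (by norm_num)) (ex_up 0.4788 (by norm_num) (by norm_num) (by norm_num) (by norm_num))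
    (by norm_num) (by norm_num), ?_⟩
  exact v5_M 0.61952 (ex_lm 0.4788 (by linarith) (by norm_num) (by norm_num) (by norm_num) (by norm_num)) (by norm_num) (by norm_num)

private theorem B5Ko_C20 {β r t κ : ℝ} (hβ : 0 < β) (hr : 10 ≤ r) (hκ : κ = β * r) (hk1 : 1.25 ≤ κ) (hk2 : κ ≤ 1.33) (hta : 1.5076 ≤ t + κ)
    (htb : t + κ ≤ 1.6717) : ‖F (cexp (I * β)) (r * cexp (I * ((t + β / 2 : ℝ) : ℂ)))‖ ≤
      1.5679 * Real.exp (r * (1.20687 - 0.36 * (t + κ))) + 0.2288 * Real.exp (r * 0) :=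
  v5_H 0.36 1.25 1.33 1.5076 1.6717 1.20687 1.5428 0.3838 0.1455 1.7482 1.1489 0.16258 0.1976 0.00000232 1.5679 0.2288 hβ hr hκ (by norm_num) hk1 hk2 hta htb (by norm_num) (B5Ko_G19 hk1 hk2).1 (B5Ko_G19 hk1 hk2).2 (by norm_num) (by norm_num) (by norm_num)
    (by norm_num) (by norm_num) (by norm_num) (by norm_num) (by norm_num) (by norm_num) (by norm_num) (by norm_num) (ex_un 1 0.6257 (by norm_num) (by norm_num) (by norm_num) (by norm_num))
    (v5_hump 1.7549 7.518 2.7419 0.000001864 0.00000232 hβ hr hκ hk1 hk2 (by norm_num) htb (by norm_num) (by norm_num) (by norm_num) (by norm_num) (by norm_num) (by norm_num) (by norm_num) (ex_un 13 0.1933 (by norm_num) (by norm_num) (by norm_num) (by norm_num)) (by norm_num)) (by norm_num) (by norm_num)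

private theorem B5Ko_G21 {κ : ℝ} (hk1 : 1.25 ≤ κ) (hk2 : κ ≤ 1.33) : gG κ (-0.68) ≤ 1.66028 ∧ 5.47358 ≤ Real.exp (-(κ * (-0.68))) ^ 2 := by
  refine ⟨gG_le (-0.68) 1.25 1.33 1.66028 2.33965 2.47045 0.42743 0.40481 hk1 hk2 (by norm_num)
    (ex_up 0.85 (by norm_num) (by norm_num) (by norm_num) (by norm_num)) (ex_up 0.9044 (by norm_num) (by norm_num) (by norm_num) (by norm_num))
    (ex_um 0.85 (by norm_num) (by norm_num) (by norm_num) (by norm_num)) (ex_um 0.9044 (by norm_num) (by norm_num) (by norm_num) (by norm_num))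
    (by norm_num) (by norm_num), ?_⟩
  exact v5_M 2.33957 (ex_lp 0.85 (by linarith) (by norm_num) (by norm_num)) (by norm_num) (by norm_num)

private theorem B5Ko_C22 {β r t κ : ℝ} (hβ : 0 < β) (hr : 10 ≤ r) (hκ : κ = β * r) (hk1 : 1.25 ≤ κ) (hk2 : κ ≤ 1.33) (hta : (-2.2623) ≤ t + κ)
    (htb : t + κ ≤ (-2.0982)) : ‖F (cexp (I * β)) (r * cexp (I * ((t + β / 2 : ℝ) : ℂ)))‖ ≤
      0.7322 * Real.exp (r * (1.66028 - (-0.68) * (t + κ))) + 1.7941 * Real.exp (r * 0.0501) :=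
  v5_HU (-0.68) 1.25 1.33 (-2.2623) (-2.0982) 1.66028 0.7322 5.47358 0.1455 0.6845 1.1196 0 0.0501 0.00000116 1.7941 hβ hr hκ (by norm_num) hk1 hk2 hta htb (by norm_num) (by norm_num) (B5Ko_G21 hk1 hk2).1 (B5Ko_G21 hk1 hk2).2 (by norm_num) (by norm_num) (by norm_num)
    (by norm_num) (by norm_num) (by norm_num) (by norm_num) (by norm_num) (by norm_num) (by norm_num)
    (by norm_num) (by norm_num) (by norm_num) (v5_hump 5.5248 7.518 2.7419 0.0000009316 0.00000116 hβ hr hκ hk1 hk2 (by norm_num) htb (by norm_num) (by norm_num) (by norm_num) (by norm_num) (by norm_num) (by norm_num) (by norm_num) (ex_un 13 0.9 (by norm_num) (by norm_num) (by norm_num) (by norm_num)) (by norm_num)) (by norm_num)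

private theorem B5Ko_C23 {β r t κ : ℝ} (hβ : 0 < β) (hr : 10 ≤ r) (hκ : κ = β * r) (hk1 : 1.25 ≤ κ) (hk2 : κ ≤ 1.33) (hta : 2.7642 ≤ t + κ)
    (htb : t + κ ≤ 2.9283) : ‖F (cexp (I * β)) (r * cexp (I * ((t + β / 2 : ℝ) : ℂ)))‖ ≤
      3.6015 * Real.exp (r * (0.19 + 1 / 20)) :=
  v5_UD 1.25 1.33 2.7642 2.9283 0.19 0.3569 0.19 1.8776 3.6015 hβ hr hκ (by norm_num) hk1 hk2 hta htb (by norm_num) (by norm_num) (by norm_num) (by norm_num) (by norm_num) (by norm_num) (by norm_num) (by norm_num) (by norm_num) (by norm_num) (by norm_num)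

private theorem B5Ko_Y24 {β r t κ h t' : ℝ} (hβ : 0 < β) (hκ : κ = β * r) (hN : β * 7.518 ≤ 1) (hk1 : 1.25 ≤ κ) (hk2 : κ ≤ 1.33)
    (ht : t' = t + (((1 : ℤ) : ℝ) - 1) * h) (hD : DomR κ t') (hta : 0.251 ≤ t' + κ) (htb : t' + κ ≤ 0.415) :
    0.7299 * Real.exp (r * sE κ t') ≤ ‖Xf β r h t 1‖ := by
  obtain ⟨⟨ya, yb⟩, ⟨xa, xb⟩, n1, Da, Db⟩ := B5Ko_B17 hD hk1 hk2 hta htb
  have J := B5Ko_T18 (x := sx κ t') (y := sy κ t') hβ hN (by linarith only [xa, xb, ya, yb]) (by linarith only [xa, xb, ya, yb]) (by linarith only [xa, xb, ya, yb]) (by linarith only [xa, xb, ya, yb])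
  exact v5_Jlo hβ hκ (k := 1) ht hD 0.07 2.6347 0.7299 (by norm_num) J Db (by norm_num)

private theorem B5Ko_V25 {κ t : ℝ} (hD : DomR κ t) (hk1 : 1.25 ≤ κ) (hk2 : κ ≤ 1.33) (hta : 0.251 ≤ t + κ) (htb : t + κ ≤ 0.415) :
    1.01945 - 0.1257 * (t + κ) ≤ sE κ t := by
  have hκ0 : 0 < κ := hD.1
  exact v5_V1 hD 1.25 1.33 0.251 0.415 0.03226 0.11687 0.27289 1.01945 0.1257 (by norm_num) hk1 hk2 (by norm_num) (by norm_num) hta htb (by norm_num) (clo5 1.25 1.33 0.27289 (by norm_num) hk1 hk2 (by norm_num) (by norm_num) (by norm_num))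
      ((cup2 1.25 (by norm_num) hk1).trans (by norm_num)) (by norm_num) (by norm_num) (by norm_num) (by norm_num) (by norm_num) (by norm_num)

private theorem B5Ko_K26 {β r t κ h : ℝ} (hβ : 0 < β) (hr : 10 ≤ r) (hκ : κ = β * r) (hk1 : 1.25 ≤ κ) (hk2 : κ ≤ 1.33)
    (hh : h = 2 * Real.pi / 5) (hh1 : 1.25663 ≤ h) (hh2 : h ≤ 1.25664) (hta : 0.251 ≤ t + κ) (htb : t + κ ≤ 0.415)
    (hY : 0.7299 * Real.exp (r * sE κ t) ≤ ‖Xf β r h t 1‖) (hV : 1.01945 - 0.1257 * (t + κ) ≤ sE κ t) :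
    ‖Xf β r h t 2‖ ≤ 0.0845 * ‖Xf β r h t 1‖ := by
  rw [v5_X 2 1 (by push_cast; ring)]
  exact v5_cmp 0.3237 0.03929 0.0844 0.9672 0.00006335 0.0000199 0.0845 hr (B5Ko_C20 (t := t + 1 * h) hβ hr hκ hk1 hk2 (by linarith only [hta, htb, hh1, hh2]) (by linarith only [hta, htb, hh1, hh2])) hY (by norm_num) (by norm_num) (by norm_num) (by norm_num) (by linarith only [hV, hta, htb, hh1, hh2]) (ex_un 3 0.2369 (by norm_num) (by norm_num) (by norm_num) (by norm_num)) (by norm_num) (by norm_num) (by linarith only [hV, hta, htb, hh1, hh2]) (ex_un 9 0.6719 (by norm_num) (by norm_num) (by norm_num) (by norm_num)) (by norm_num) (by norm_num)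

private theorem B5Ko_K27 {β r t κ h : ℝ} (hβ : 0 < β) (hr : 10 ≤ r) (hκ : κ = β * r) (hk1 : 1.25 ≤ κ) (hk2 : κ ≤ 1.33)
    (hh : h = 2 * Real.pi / 5) (hh1 : 1.25663 ≤ h) (hh2 : h ≤ 1.25664) (hta : 0.251 ≤ t + κ) (htb : t + κ ≤ 0.415)
    (hY : 0.7299 * Real.exp (r * sE κ t) ≤ ‖Xf β r h t 1‖) (hV : 1.01945 - 0.1257 * (t + κ) ≤ sE κ t) :
    ‖Xf β r h t (-1)‖ ≤ 0.00091 * ‖Xf β r h t 1‖ := by
  rw [v5_X (-1) (-2) (by push_cast; ring)]
  exact v5_cmp 0.7338 0.0006507 0.000653 0.9171 0.0001041 0.000256 0.00091 hr (B5Ko_C22 (t := t + (-2) * h) hβ hr hκ hk1 hk2 (by linarith only [hta, htb, hh1, hh2]) (by linarith only [hta, htb, hh1, hh2])) hY (by norm_num) (by norm_num) (by norm_num) (by norm_num) (by linarith only [hV, hta, htb, hh1, hh2]) (ex_un 7 0.3379 (by norm_num) (by norm_num) (by norm_num) (by norm_num)) (by norm_num) (by norm_num) (by linarith only [hV, hta, htb, hh1, hh2]) (ex_un 9 0.1709 (by norm_num) (by norm_num) (by norm_num)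 (by norm_num)) (by norm_num) (by norm_num)

private theorem B5Ko_K28 {β r t κ h : ℝ} (hβ : 0 < β) (hr : 10 ≤ r) (hκ : κ = β * r) (hk1 : 1.25 ≤ κ) (hk2 : κ ≤ 1.33)
    (hh : h = 2 * Real.pi / 5) (hh1 : 1.25663 ≤ h) (hh2 : h ≤ 1.25664) (hta : 0.251 ≤ t + κ) (htb : t + κ ≤ 0.415)
    (hY : 0.7299 * Real.exp (r * sE κ t) ≤ ‖Xf β r h t 1‖) (hV : 1.01945 - 0.1257 * (t + κ) ≤ sE κ t) :
    ‖Xf β r h t (-2)‖ ≤ 0.00343 * ‖Xf β r h t 1‖ := by
  rw [v5_Xm2 hh]
  exact v5_cmp0 0.7272 0.000695 0.00343 hr (B5Ko_C23 (t := t + 2 * h) hβ hr hκ hk1 hk2 (by linarith only [hta, htb, hh1, hh2]) (by linarith only [hta, htb, hh1, hh2])) hY (by norm_num) (by norm_num) (by norm_num) (by linarith only [hV, hta, htb, hh1, hh2]) (ex_un 7 0.2719 (by norm_num) (by norm_num) (by norm_num) (by norm_num)) (by norm_num)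

private theorem B5Ko_G29 {κ : ℝ} (hk1 : 1.25 ≤ κ) (hk2 : κ ≤ 1.33) : gG κ (-0.32) ≤ 1.1385 ∧ 2.22552 ≤ Real.exp (-(κ * (-0.32))) ^ 2 := by
  refine ⟨gG_le (-0.32) 1.25 1.33 1.1385 1.49183 1.53051 0.67033 0.65338 hk1 hk2 (by norm_num)
    (ex_up 0.4 (by norm_num) (by norm_num) (by norm_num) (by norm_num)) (ex_up 0.4256 (by norm_num) (by norm_num) (by norm_num) (by norm_num))
    (ex_um 0.4 (by norm_num) (by norm_num) (by norm_num) (by norm_num)) (ex_um 0.4256 (by norm_num) (by norm_num) (by norm_num) (by norm_num))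
    (by norm_num) (by norm_num), ?_⟩
  exact v5_M 1.49182 (ex_lp 0.4 (by linarith) (by norm_num) (by norm_num)) (by norm_num) (by norm_num)

private theorem B5Ko_C30 {β r t κ : ℝ} (hβ : 0 < β) (hr : 10 ≤ r) (hκ : κ = β * r) (hk1 : 1.25 ≤ κ) (hk2 : κ ≤ 1.33) (hta : (-1.0057) ≤ t + κ)
    (htb : t + κ ≤ (-0.8416)) : ‖F (cexp (I * β)) (r * cexp (I * ((t + β / 2 : ℝ) : ℂ)))‖ ≤
      0.9076 * Real.exp (r * (1.1385 - (-0.32) * (t + κ))) + 1.3976 * Real.exp (r * 0.0501) :=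
  v5_HU (-0.32) 1.25 1.33 (-1.0057) (-0.8416) 1.1385 0.9076 2.22552 0.1455 0.6845 2.3762 0 0.0501 0.00000116 1.3976 hβ hr hκ (by norm_num) hk1 hk2 hta htb (by norm_num) (by norm_num) (B5Ko_G29 hk1 hk2).1 (B5Ko_G29 hk1 hk2).2 (by norm_num) (by norm_num) (by norm_num)
    (by norm_num) (by norm_num) (by norm_num) (by norm_num) (by norm_num) (by norm_num) (by norm_num)
    (by norm_num) (by norm_num) (by norm_num) (v5_hump 4.2682 7.518 2.7419 0.0000009316 0.00000116 hβ hr hκ hk1 hk2 (by norm_num) htb (by norm_num) (by norm_num) (by norm_num) (by norm_num) (by norm_num) (by norm_num) (by norm_num) (ex_un 13 0.9 (by norm_num) (by norm_num) (by norm_num) (by norm_num)) (by norm_num)) (by norm_num)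

private theorem B5Ko_K31 {β r t κ h : ℝ} (hβ : 0 < β) (hr : 10 ≤ r) (hκ : κ = β * r) (hk1 : 1.25 ≤ κ) (hk2 : κ ≤ 1.33)
    (hh : h = 2 * Real.pi / 5) (hh1 : 1.25663 ≤ h) (hh2 : h ≤ 1.25664) (hta : 0.251 ≤ t + κ) (htb : t + κ ≤ 0.415)
    (hY : 0.7299 * Real.exp (r * sE κ t) ≤ ‖Xf β r h t 1‖) (hV : 1.01945 - 0.1257 * (t + κ) ≤ sE κ t) :
    ‖Xf β r h t 0‖ ≤ 0.476 * ‖Xf β r h t 1‖ := by
  rw [v5_X 0 (-1) (by push_cast; ring)]
  exact v5_cmp 0.0981 0.3818 0.475 0.9171 0.0001041 0.0002 0.476 hr (B5Ko_C30 (t := t + (-1) * h) hβ hr hκ hk1 hk2 (by linarith only [hta, htb, hh1, hh2]) (by linarith only [hta, htb, hh1, hh2])) hY (by norm_num) (by norm_num) (by norm_num) (by norm_num) (by linarith only [hV, hta, htb, hh1, hh2]) (ex_un 0 0.9809 (by norm_num) (by norm_num) (by norm_num) (by norm_num)) (by norm_num) (by norm_num) (by linarith only [hV, hta, htb, hh1, hh2]) (ex_un 9 0.1709 (by norm_num) (by norm_num) (by norm_num) (by norm_num))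 (by norm_num) (by norm_num)

private theorem B5Ko_O32 {β r t κ h : ℝ} (hβ : 0 < β) (hr : 10 ≤ r) (hκ : κ = β * r) (hk1 : 1.25 ≤ κ) (hk2 : κ ≤ 1.33)
    (hh : h = 2 * Real.pi / 5) (hta : 0.251 ≤ t + κ) (htb : t + κ ≤ 0.415) :
    ‖Xf β r h t (-2)‖ + ‖Xf β r h t (-1)‖ + ‖Xf β r h t 2‖ < |‖Xf β r h t 1‖ - ‖Xf β r h t 0‖| := by
  obtain ⟨hh1, hh2⟩ := v5_h hh
  have hκ0 : 0 < κ := by linarith only [hk1]
  have hN : β * 7.518 ≤ 1 := v5_hN 1.33 7.518 hβ hr hκ hk2 (by norm_num) (by norm_num)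
  have hD1 : DomR κ t := v5_dom hκ0 (by linarith only [hta, htb, hk1, hk2, hh1, hh2]) (Or.inr (by linarith only [hta, htb, hk1, hk2, hh1, hh2]))
  have e1 : t = t + (((1 : ℤ) : ℝ) - 1) * h := by push_cast; ring
  have hY := B5Ko_Y24 (h := h) hβ hκ hN hk1 hk2 e1 hD1 hta htb
  have hV := B5Ko_V25 hD1 hk1 hk2 hta htb
  have cp2 := B5Ko_K26 hβ hr hκ hk1 hk2 hh hh1 hh2 hta htb hY hV
  have cm1 := B5Ko_K27 hβ hr hκ hk1 hk2 hh hh1 hh2 hta htb hY hV
  have cm2 := B5Ko_K28 hβ hr hκ hk1 hk2 hh hh1 hh2 hta htb hY hV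
  have cn0 := B5Ko_K31 hβ hr hκ hk1 hk2 hh hh1 hh2 hta htb hY hV
  have hp : 0 < ‖Xf β r h t 1‖ := lt_of_lt_of_le (by positivity) hY
  exact v5_out1 _ _ _ _ cm2 cm1 cp2 cn0 hp (by norm_num)

private theorem B5Ko_B33 {κ t : ℝ} (h : DomR κ t) (hk1 : 1.25 ≤ κ) (hk2 : κ ≤ 1.33) (ht1 : 0.415 ≤ t + κ) (ht2 : t + κ ≤ 0.5655) :
    (0.187 ≤ sy κ t ∧ sy κ t ≤ 0.249) ∧ (0.942 ≤ sx κ t ∧ sx κ t ≤ 1.0873) ∧ κ * Real.exp (-sy κ t) ≤ 1.1032 ∧ 2.4461 ≤ sD κ t ∧ sD κ t ≤ 2.591 := by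
  have hy1 : 0.187 ≤ sy κ t := syR_ge h 1.25 1.33 0.415 0.187 1.20562 1.20563 0.16951 0.18037 hk1 hk2 (by linarith) (by norm_num) (by norm_num)
    (expn_ge (by norm_num) (by norm_num)) (expn_le (by norm_num) (by norm_num) (by norm_num)) (by norm_num)
    (by norm_num) (by norm_num) (by norm_num) (by norm_num) (by norm_num) (by norm_num)
  have hy2 : sy κ t ≤ 0.249 := syR_le h 1.25 1.33 0.5655 0.249 1.28274 0.2439 0.24015 0.25553 hk1 hk2 (by linarith) (by norm_num) (by norm_num)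
    (expn_ge (by norm_num) (by norm_num)) (by norm_num) (by norm_num) (Or.inr ((mul_le_mul_of_nonneg_left (expn_le (E := 1.28275) (by norm_num) (by norm_num) (by norm_num)) (by norm_num)).trans (by norm_num))) (by norm_num) (by norm_num) (by norm_num)
  have hy1' : 0.187 ≤ sy κ t := by linarith
  have hy2' : sy κ t ≤ 0.249 := by linarith
  have hx1 : 0.942 ≤ sx κ t := sx_lo h 1.25 0.249 0.2491 0.77957 0.942 hk1 (by norm_num) hy2' (abs_le.2 ⟨by linarith, by linarith⟩) (ex_lm 0.249 (by norm_num) (by norm_num) (by norm_num) (by norm_num) (by norm_num)) (by norm_num) (by norm_num)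
  have hx2 : sx κ t ≤ 1.0873 := sx_hi h 1.33 0.187 0.187 0.82945 1.0873 hk2 hy1' (by norm_num) (le_trans (by linarith) (le_abs_self _)) (ex_um 0.187 (by norm_num) (by norm_num) (by norm_num) (by norm_num)) (by norm_num) (by norm_num)
  refine ⟨⟨hy1', hy2'⟩, ⟨hx1, hx2⟩, v5_n h 1.33 0.187 0.82945 1.1032 hk2 hy1' (ex_um 0.187 (by norm_num) (by norm_num) (by norm_num) (by norm_num)) (by norm_num), ?_, ?_⟩
  · exact v5_Dlo h 1.25 0.187 0.249 0.224 0.79931 2.4461 (by norm_num) hk1 hy1' hy2' (ex_lm 0.224 (by norm_num) (by norm_num) (by norm_num) (by norm_num) (by norm_num)) (by norm_num) (by norm_num) (by norm_num) (by norm_num)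
  · exact v5_Dup h 1.33 0.187 0.249 0.82945 0.77958 2.591 hk2 hy1' hy2' (ex_um 0.187 (by norm_num) (by norm_num) (by norm_num) (by norm_num)) (ex_um 0.249 (by norm_num) (by norm_num) (by norm_num) (by norm_num)) (by norm_num) (by norm_num) (by norm_num)

private theorem B5Ko_T34_0_0 {β x y : ℝ} (hβ : 0 < β) (hN : β * 7.518 ≤ 1) (hx1 : 0.9419 ≤ x) (hx2 : x ≤ 0.985)
    (hy1 : -0 ≤ y) (hy2 : y ≤ 0.2491) : ‖HH β (x + y * I) - 1‖ ≤ 0.07 := by
  refine le_epsJ (C := 0.5258) (N0 := 7.518) (J_boxp 0.9419 0.985 0 0.2491 0.2491 1.3732 1.0161 1.5908 0.7839 0.5032 2.7419 7.518 0.74 2.696 1.395 1.0412 0.6865 0.5172 1.3307 3.5262 0.7871 1.7787 2.3861 2.66 0.005737 0.02054 0.00004522 0.0000003101 0.002701 0.000001559 0.0000003101 0.0000003101 0.5258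
    hβ hN hx1 hx2 hy1 hy2 (by norm_num) (by norm_num) (by linarith) (by norm_num) (by norm_num) (by norm_num) (by norm_num) (by norm_num) (by norm_num) (by norm_num) (by norm_num) (by norm_num) (by norm_num) (by norm_num) (by norm_num) (by norm_num) (by norm_num) (by norm_num) (by norm_num) (by norm_num) (by norm_num) (by norm_num) (by norm_num) (by norm_num)
    (cube_sqrt_geJ (s := 0.8679) (by norm_num) (by norm_num) (by norm_num) (by norm_num))
    (cube_sqrt_geJ (s := 0.9536) (by norm_num) (by norm_num) (by norm_num) (by norm_num))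
    (by norm_num) (by norm_num) (by norm_num) (by norm_num) (by norm_num) (by norm_num) (by norm_num) (by norm_num) (by norm_num) (by norm_num) (by norm_num) (by norm_num) (by norm_num) (by norm_num) (by norm_num) (by norm_num) (by norm_num) (by norm_num)
    (exp_neg_leJ (r := 0.161) 5 (by norm_num) (by norm_num) (by norm_num) (by norm_num))
    (exp_neg_leJ (r := 0.888) 3 (by norm_num) (by norm_num) (by norm_num) (by norm_num))
    (exp_neg_leJ (r := 0.004) 10 (by norm_num) (by norm_num) (by norm_num) (by norm_num))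
    (exp_neg_leJ (r := 0.99) 14 (by norm_num) (by norm_num) (by norm_num) (by norm_num))
    (exp_neg_leJ (r := 0.917) 5 (by norm_num) (by norm_num) (by norm_num) (by norm_num))
    (exp_neg_leJ (r := 0.372) 13 (by norm_num) (by norm_num) (by norm_num) (by norm_num))
    (exp_neg_leJ (r := 0.99) 14 (by norm_num) (by norm_num) (by norm_num) (by norm_num))
    (exp_neg_leJ (r := 0.99) 14 (by norm_num) (by norm_num) (by norm_num) (by norm_num))
    (by norm_num)) (by norm_num) hN hβ.le (by norm_num)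

private theorem B5Ko_T34_0_1 {β x y : ℝ} (hβ : 0 < β) (hN : β * 7.518 ≤ 1) (hx1 : 0.985 ≤ x) (hx2 : x ≤ 1.034)
    (hy1 : -0 ≤ y) (hy2 : y ≤ 0.2491) : ‖HH β (x + y * I) - 1‖ ≤ 0.07 := by
  refine le_epsJ (C := 0.5262) (N0 := 7.518) (J_boxp 0.985 1.034 0 0.2491 0.2491 1.4036 1.0636 1.6216 0.7658 0.5081 2.7419 7.518 0.7578 2.771 1.407 1.0224 0.7017 0.5245 1.3454 3.4982 0.808 1.8384 2.4723 2.6171 0.005119 0.01945 0.00004051 0.0000003101 0.002302 0.0000009962 0.0000003101 0.0000003101 0.5262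
    hβ hN hx1 hx2 hy1 hy2 (by norm_num) (by norm_num) (by linarith) (by norm_num) (by norm_num) (by norm_num) (by norm_num) (by norm_num) (by norm_num) (by norm_num) (by norm_num) (by norm_num) (by norm_num) (by norm_num) (by norm_num) (by norm_num) (by norm_num) (by norm_num) (by norm_num) (by norm_num) (by norm_num) (by norm_num) (by norm_num) (by norm_num)
    (cube_sqrt_geJ (s := 0.8645) (by norm_num) (by norm_num) (by norm_num) (by norm_num))
    (cube_sqrt_geJ (s := 0.9524) (by norm_num) (by norm_num) (by norm_num) (by norm_num))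
    (by norm_num) (by norm_num) (by norm_num) (by norm_num) (by norm_num) (by norm_num) (by norm_num) (by norm_num) (by norm_num) (by norm_num) (by norm_num) (by norm_num) (by norm_num) (by norm_num) (by norm_num) (by norm_num) (by norm_num) (by norm_num)
    (exp_neg_leJ (r := 0.275) 5 (by norm_num) (by norm_num) (by norm_num) (by norm_num))
    (exp_neg_leJ (r := 0.943) 3 (by norm_num) (by norm_num) (by norm_num) (by norm_num))
    (exp_neg_leJ (r := 0.114) 10 (by norm_num) (by norm_num) (by norm_num) (by norm_num))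
    (exp_neg_leJ (r := 0.99) 14 (by norm_num) (by norm_num) (by norm_num) (by norm_num))
    (exp_neg_leJ (r := 0.074) 6 (by norm_num) (by norm_num) (by norm_num) (by norm_num))
    (exp_neg_leJ (r := 0.821) 13 (by norm_num) (by norm_num) (by norm_num) (by norm_num))
    (exp_neg_leJ (r := 0.99) 14 (by norm_num) (by norm_num) (by norm_num) (by norm_num))
    (exp_neg_leJ (r := 0.99) 14 (by norm_num) (by norm_num) (by norm_num) (by norm_num))
    (by norm_num)) (by norm_num) hN hβ.le (by norm_num)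

private theorem B5Ko_T34_0_2 {β x y : ℝ} (hβ : 0 < β) (hN : β * 7.518 ≤ 1) (hx1 : 1.034 ≤ x) (hx2 : x ≤ 1.0874)
    (hy1 : -0 ≤ y) (hy2 : y ≤ 0.2491) : ‖HH β (x + y * I) - 1‖ ≤ 0.07 := by
  refine le_epsJ (C := 0.5248) (N0 := 7.518) (J_boxp 1.034 1.0874 0 0.2491 0.2491 1.4381 1.1156 1.6562 0.7463 0.5135 2.7419 7.518 0.7758 2.85 1.419 1.0018 0.719 0.5331 1.3622 3.4677 0.8318 1.9062 2.5703 2.5737 0.004495 0.01819 0.00003568 0.0000003101 0.001925 0.0000005979 0.0000003101 0.0000003101 0.5248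
    hβ hN hx1 hx2 hy1 hy2 (by norm_num) (by norm_num) (by linarith) (by norm_num) (by norm_num) (by norm_num) (by norm_num) (by norm_num) (by norm_num) (by norm_num) (by norm_num) (by norm_num) (by norm_num) (by norm_num) (by norm_num) (by norm_num) (by norm_num) (by norm_num) (by norm_num) (by norm_num) (by norm_num) (by norm_num) (by norm_num) (by norm_num)
    (cube_sqrt_geJ (s := 0.861) (by norm_num) (by norm_num) (by norm_num) (by norm_num))
    (cube_sqrt_geJ (s := 0.9513) (by norm_num) (by norm_num) (by norm_num) (by norm_num))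
    (by norm_num) (by norm_num) (by norm_num) (by norm_num) (by norm_num) (by norm_num) (by norm_num) (by norm_num) (by norm_num) (by norm_num) (by norm_num) (by norm_num) (by norm_num) (by norm_num) (by norm_num) (by norm_num) (by norm_num) (by norm_num)
    (exp_neg_leJ (r := 0.405) 5 (by norm_num) (by norm_num) (by norm_num) (by norm_num))
    (exp_neg_leJ (r := 0.007) 4 (by norm_num) (by norm_num) (by norm_num) (by norm_num))
    (exp_neg_leJ (r := 0.241) 10 (by norm_num) (by norm_num) (by norm_num) (by norm_num))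
    (exp_neg_leJ (r := 0.99) 14 (by norm_num) (by norm_num) (by norm_num) (by norm_num))
    (exp_neg_leJ (r := 0.253) 6 (by norm_num) (by norm_num) (by norm_num) (by norm_num))
    (exp_neg_leJ (r := 0.33) 14 (by norm_num) (by norm_num) (by norm_num) (by norm_num))
    (exp_neg_leJ (r := 0.99) 14 (by norm_num) (by norm_num) (by norm_num) (by norm_num))
    (exp_neg_leJ (r := 0.99) 14 (by norm_num) (by norm_num) (by norm_num) (by norm_num))
    (by norm_num)) (by norm_num) hN hβ.le (by norm_num)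

private theorem B5Ko_T34 {β x y : ℝ} (hβ : 0 < β) (hN : β * 7.518 ≤ 1) (hx1 : 0.9419 ≤ x) (hx2 : x ≤ 1.0874)
    (hy1 : 0.1869 ≤ y) (hy2 : y ≤ 0.2491) : ‖HH β (x + y * I) - 1‖ ≤ 0.07 := by
  rcases le_total x 0.985 with hxx | hxx
  · exact B5Ko_T34_0_0 hβ hN (by linarith) (by linarith) (by linarith) (by linarith)
  rcases le_total x 1.034 with hxx | hxx
  · exact B5Ko_T34_0_1 hβ hN (by linarith) (by linarith) (by linarith) (by linarith)
  exact B5Ko_T34_0_2 hβ hN (by linarith) (by linarith) (by linarith) (by linarith)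

private theorem B5Ko_G35 {κ : ℝ} (hk1 : 1.25 ≤ κ) (hk2 : κ ≤ 1.33) : gG κ 0.38 ≤ 1.23388 ∧ 0.36392 ≤ Real.exp (-(κ * 0.38)) ^ 2 := by
  refine ⟨gG_le 0.38 1.25 1.33 1.23388 0.62189 0.60327 1.60802 1.65765 hk1 hk2 (by norm_num)
    (ex_um 0.475 (by norm_num) (by norm_num) (by norm_num) (by norm_num)) (ex_um 0.5054 (by norm_num) (by norm_num) (by norm_num) (by norm_num))
    (ex_up 0.475 (by norm_num) (by norm_num) (by norm_num) (by norm_num)) (ex_up 0.5054 (by norm_num) (by norm_num) (by norm_num) (by norm_num))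
    (by norm_num) (by norm_num), ?_⟩
  exact v5_M 0.60326 (ex_lm 0.5054 (by linarith) (by norm_num) (by norm_num) (by norm_num) (by norm_num)) (by norm_num) (by norm_num)

private theorem B5Ko_C36 {β r t κ : ℝ} (hβ : 0 < β) (hr : 10 ≤ r) (hκ : κ = β * r) (hk1 : 1.25 ≤ κ) (hk2 : κ ≤ 1.33) (hta : 1.6716 ≤ t + κ)
    (htb : t + κ ≤ 1.8222) : ‖F (cexp (I * β)) (r * cexp (I * ((t + β / 2 : ℝ) : ℂ)))‖ ≤
      1.6396 * Real.exp (r * (1.23388 - 0.38 * (t + κ))) + 0.2216 * Real.exp (r * 0) :=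
  v5_H 0.38 1.25 1.33 1.6716 1.8222 1.23388 1.6004 0.36392 0.1455 1.9122 0.9984 0.13157 0.2684 0.00000716 1.6396 0.2216 hβ hr hκ (by norm_num) hk1 hk2 hta htb (by norm_num) (B5Ko_G35 hk1 hk2).1 (B5Ko_G35 hk1 hk2).2 (by norm_num) (by norm_num) (by norm_num)
    (by norm_num) (by norm_num) (by norm_num) (by norm_num) (by norm_num) (by norm_num) (by norm_num) (by norm_num) (ex_un 1 0.3156 (by norm_num) (by norm_num) (by norm_num) (by norm_num))
    (v5_hump 1.6044 7.518 2.7419 0.000005776 0.00000716 hβ hr hκ hk1 hk2 (by norm_num) htb (by norm_num) (by norm_num) (by norm_num) (by norm_num) (by norm_num) (by norm_num) (by norm_num) (ex_un 12 0.0618 (by norm_num) (by norm_num) (by norm_num) (by norm_num)) (by norm_num)) (by norm_num) (by norm_num)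

private theorem B5Ko_G37 {κ : ℝ} (hk1 : 1.25 ≤ κ) (hk2 : κ ≤ 1.33) : gG κ (-0.65) ≤ 1.59892 ∧ 5.07817 ≤ Real.exp (-(κ * (-0.65))) ^ 2 := by
  refine ⟨gG_le (-0.65) 1.25 1.33 1.59892 2.25354 2.37382 0.44376 0.42128 hk1 hk2 (by norm_num)
    (ex_up 0.8125 (by norm_num) (by norm_num) (by norm_num) (by norm_num)) (ex_up 0.8645 (by norm_num) (by norm_num) (by norm_num) (by norm_num))
    (ex_um 0.8125 (by norm_num) (by norm_num) (by norm_num) (by norm_num)) (ex_um 0.8645 (by norm_num) (by norm_num) (by norm_num) (by norm_num))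
    (by norm_num) (by norm_num), ?_⟩
  exact v5_M 2.25348 (ex_lp 0.8125 (by linarith) (by norm_num) (by norm_num)) (by norm_num) (by norm_num)

private theorem B5Ko_C38 {β r t κ : ℝ} (hβ : 0 < β) (hr : 10 ≤ r) (hκ : κ = β * r) (hk1 : 1.25 ≤ κ) (hk2 : κ ≤ 1.33) (hta : (-2.0983) ≤ t + κ)
    (htb : t + κ ≤ (-1.9477)) : ‖F (cexp (I * β)) (r * cexp (I * ((t + β / 2 : ℝ) : ℂ)))‖ ≤
      0.7458 * Real.exp (r * (1.59892 - (-0.65) * (t + κ))) + 1.7502 * Real.exp (r * 0.0501) :=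
  v5_HU (-0.65) 1.25 1.33 (-2.0983) (-1.9477) 1.59892 0.7458 5.07817 0.1455 0.6845 1.2836 0 0.0501 0.00000116 1.7502 hβ hr hκ (by norm_num) hk1 hk2 hta htb (by norm_num) (by norm_num) (B5Ko_G37 hk1 hk2).1 (B5Ko_G37 hk1 hk2).2 (by norm_num) (by norm_num) (by norm_num)
    (by norm_num) (by norm_num) (by norm_num) (by norm_num) (by norm_num) (by norm_num) (by norm_num)
    (by norm_num) (by norm_num) (by norm_num) (v5_hump 5.3743 7.518 2.7419 0.0000009316 0.00000116 hβ hr hκ hk1 hk2 (by norm_num) htb (by norm_num) (by norm_num) (by norm_num) (by norm_num) (by norm_num) (by norm_num) (by norm_num) (ex_un 13 0.9 (by norm_num) (by norm_num) (by norm_num) (by norm_num)) (by norm_num)) (by norm_num)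

private theorem B5Ko_C39 {β r t κ : ℝ} (hβ : 0 < β) (hr : 10 ≤ r) (hκ : κ = β * r) (hk1 : 1.25 ≤ κ) (hk2 : κ ≤ 1.33) (hta : 2.9282 ≤ t + κ)
    (htb : t + κ ≤ 3.0788) : ‖F (cexp (I * β)) (r * cexp (I * ((t + β / 2 : ℝ) : ℂ)))‖ ≤
      3.701 * Real.exp (r * (0.02 + 1 / 20)) :=
  v5_UD 1.25 1.33 2.9282 3.0788 0.02 0.3569 0.02 1.9295 3.701 hβ hr hκ (by norm_num) hk1 hk2 hta htb (by norm_num) (by norm_num) (by norm_num) (by norm_num) (by norm_num) (by norm_num) (by norm_num) (by norm_num) (by norm_num) (by norm_num) (by norm_num)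

private theorem B5Ko_Y40 {β r t κ h t' : ℝ} (hβ : 0 < β) (hκ : κ = β * r) (hN : β * 7.518 ≤ 1) (hk1 : 1.25 ≤ κ) (hk2 : κ ≤ 1.33)
    (ht : t' = t + (((1 : ℤ) : ℝ) - 1) * h) (hD : DomR κ t') (hta : 0.415 ≤ t' + κ) (htb : t' + κ ≤ 0.5655) :
    0.733 * Real.exp (r * sE κ t') ≤ ‖Xf β r h t 1‖ := by
  obtain ⟨⟨ya, yb⟩, ⟨xa, xb⟩, n1, Da, Db⟩ := B5Ko_B33 hD hk1 hk2 hta htb
  have J := B5Ko_T34 (x := sx κ t') (y := sy κ t') hβ hN (by linarith only [xa, xb, ya, yb]) (by linarith only [xa, xb, ya, yb]) (by linarith only [xa, xb, ya, yb]) (by linarith only [xa, xb, ya, yb])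
  exact v5_Jlo hβ hκ (k := 1) ht hD 0.07 2.591 0.733 (by norm_num) J Db (by norm_num)

private theorem B5Ko_V41 {κ t : ℝ} (hD : DomR κ t) (hk1 : 1.25 ≤ κ) (hk2 : κ ≤ 1.33) (hta : 0.415 ≤ t + κ) (htb : t + κ ≤ 0.5655) :
    1.04299 - 0.1825 * (t + κ) ≤ sE κ t := by
  have hκ0 : 0 < κ := hD.1
  exact v5_V1 hD 1.25 1.33 0.415 0.5655 0.03106 0.11687 0.27289 1.04299 0.1825 (by norm_num) hk1 hk2 (by norm_num) (by norm_num) hta htb (by norm_num) (clo5 1.25 1.33 0.27289 (by norm_num) hk1 hk2 (by norm_num) (by norm_num) (by norm_num))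
      ((cup2 1.25 (by norm_num) hk1).trans (by norm_num)) (by norm_num) (by norm_num) (by norm_num) (by norm_num) (by norm_num) (by norm_num)

private theorem B5Ko_K42 {β r t κ h : ℝ} (hβ : 0 < β) (hr : 10 ≤ r) (hκ : κ = β * r) (hk1 : 1.25 ≤ κ) (hk2 : κ ≤ 1.33)
    (hh : h = 2 * Real.pi / 5) (hh1 : 1.25663 ≤ h) (hh2 : h ≤ 1.25664) (hta : 0.415 ≤ t + κ) (htb : t + κ ≤ 0.5655)
    (hY : 0.733 * Real.exp (r * sE κ t) ≤ ‖Xf β r h t 1‖) (hV : 1.04299 - 0.1825 * (t + κ) ≤ sE κ t) :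
    ‖Xf β r h t 2‖ ≤ 0.0566 * ‖Xf β r h t 1‖ := by
  rw [v5_X 2 1 (by push_cast; ring)]
  exact v5_cmp 0.3685 0.02524 0.0565 0.9397 0.00008305 0.0000252 0.0566 hr (B5Ko_C36 (t := t + 1 * h) hβ hr hκ hk1 hk2 (by linarith only [hta, htb, hh1, hh2]) (by linarith only [hta, htb, hh1, hh2])) hY (by norm_num) (by norm_num) (by norm_num) (by norm_num) (by linarith only [hV, hta, htb, hh1, hh2]) (ex_un 3 0.6849 (by norm_num) (by norm_num) (by norm_num) (by norm_num)) (by norm_num) (by norm_num) (by linarith only [hV, hta, htb, hh1, hh2]) (ex_un 9 0.3969 (by norm_num) (by norm_num) (by norm_num) (by norm_num)) (by norm_num) (by norm_num)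

private theorem B5Ko_K43 {β r t κ h : ℝ} (hβ : 0 < β) (hr : 10 ≤ r) (hκ : κ = β * r) (hk1 : 1.25 ≤ κ) (hk2 : κ ≤ 1.33)
    (hh : h = 2 * Real.pi / 5) (hh1 : 1.25663 ≤ h) (hh2 : h ≤ 1.25664) (hta : 0.415 ≤ t + κ) (htb : t + κ ≤ 0.5655)
    (hY : 0.733 * Real.exp (r * sE κ t) ≤ ‖Xf β r h t 1‖) (hV : 1.04299 - 0.1825 * (t + κ) ≤ sE κ t) :
    ‖Xf β r h t (-1)‖ ≤ 0.0027 * ‖Xf β r h t 1‖ := by
  rw [v5_X (-1) (-2) (by push_cast; ring)]
  exact v5_cmp 0.6069 0.002314 0.00236 0.8896 0.0001388 0.000332 0.0027 hr (B5Ko_C38 (t := t + (-2) * h) hβ hr hκ hk1 hk2 (by linarith only [hta, htb, hh1, hh2]) (by linarith only [hta, htb, hh1, hh2])) hY (by norm_num) (by norm_num) (by norm_num) (by norm_num) (by linarith only [hV, hta, htb, hh1, hh2]) (ex_un 6 0.0689 (by norm_num) (by norm_num) (by norm_num) (by norm_num)) (by norm_num) (by norm_num) (by linarith only [hV, hta, htb, hh1, hh2]) (ex_un 8 0.8959 (by norm_num) (by norm_num) (by norm_num)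 (by norm_num)) (by norm_num) (by norm_num)

private theorem B5Ko_K44 {β r t κ h : ℝ} (hβ : 0 < β) (hr : 10 ≤ r) (hκ : κ = β * r) (hk1 : 1.25 ≤ κ) (hk2 : κ ≤ 1.33)
    (hh : h = 2 * Real.pi / 5) (hh1 : 1.25663 ≤ h) (hh2 : h ≤ 1.25664) (hta : 0.415 ≤ t + κ) (htb : t + κ ≤ 0.5655)
    (hY : 0.733 * Real.exp (r * sE κ t) ≤ ‖Xf β r h t 1‖) (hV : 1.04299 - 0.1825 * (t + κ) ≤ sE κ t) :
    ‖Xf β r h t (-2)‖ ≤ 0.000849 * ‖Xf β r h t 1‖ := by
  rw [v5_Xm2 hh]
  exact v5_cmp0 0.8697 0.0001681 0.000849 hr (B5Ko_C39 (t := t + 2 * h) hβ hr hκ hk1 hk2 (by linarith only [hta, htb, hh1, hh2]) (by linarith only [hta, htb, hh1, hh2])) hY (by norm_num) (by norm_num) (by norm_num) (by linarith only [hV, hta, htb, hh1, hh2]) (ex_un 8 0.6969 (by norm_num) (by norm_num) (by norm_num) (by norm_num)) (by norm_num)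

private theorem B5Ko_G45 {κ : ℝ} (hk1 : 1.25 ≤ κ) (hk2 : κ ≤ 1.33) : gG κ (-0.25) ≤ 1.08443 ∧ 1.86822 ≤ Real.exp (-(κ * (-0.25))) ^ 2 := by
  refine ⟨gG_le (-0.25) 1.25 1.33 1.08443 1.36684 1.39445 0.73162 0.71713 hk1 hk2 (by norm_num)
    (ex_up 0.3125 (by norm_num) (by norm_num) (by norm_num) (by norm_num)) (ex_up 0.3325 (by norm_num) (by norm_num) (by norm_num) (by norm_num))
    (ex_um 0.3125 (by norm_num) (by norm_num) (by norm_num) (by norm_num)) (ex_um 0.3325 (by norm_num) (by norm_num) (by norm_num) (by norm_num))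
    (by norm_num) (by norm_num), ?_⟩
  exact v5_M 1.36683 (ex_lp 0.3125 (by linarith) (by norm_num) (by norm_num)) (by norm_num) (by norm_num)

private theorem B5Ko_B46 {κ t : ℝ} (h : DomR κ t) (hk1 : 1.25 ≤ κ) (hk2 : κ ≤ 1.33) (ht1 : (-0.8417) ≤ t + κ) (ht2 : t + κ ≤ (-0.6911)) :
    ((-0.427) ≤ sy κ t ∧ sy κ t ≤ (-0.34)) ∧ (1.7034 ≤ sx κ t ∧ sx κ t ≤ 2.0099) ∧ κ * Real.exp (-sy κ t) ≤ 2.0385 ∧ 3.4041 ≤ sD κ t ∧ sD κ t ≤ 4.3013 := by
  have hy1 : -0.427 ≤ sy κ t := syL_ge h 1.25 1.33 0.8417 0.427 0.65246 0.65247 0.215 0.20947 0.22289 hk1 hk2 (by linarith) (by norm_num) (by norm_num) (by norm_num)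
    (expm_ge (by norm_num) (by norm_num) (by norm_num) (by norm_num)) (expm_le (by norm_num) (by norm_num) (by norm_num)) (by norm_num)
    (by norm_num) (by norm_num) (by norm_num) (by norm_num) (by norm_num) (by norm_num)
  have hy2 : sy κ t ≤ -0.34 := syL_le h 1.25 1.33 0.6911 0.34 0.71177 0.71178 0.18195 0.19361 hk1 hk2 (by linarith) (by norm_num) (by norm_num) (by norm_num)
    (expm_ge (by norm_num) (by norm_num) (by norm_num) (by norm_num)) (expm_le (by norm_num) (by norm_num) (by norm_num)) (by norm_num)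
    (by norm_num) (by norm_num) (by norm_num) (by norm_num) (by norm_num) (by norm_num)
  have hy1' : (-0.427) ≤ sy κ t := by linarith
  have hy2' : sy κ t ≤ (-0.34) := by linarith
  have hx1 : 1.7034 ≤ sx κ t := sx_lo h 1.25 (-0.34) 0.4271 1.40494 1.7034 hk1 (by norm_num) hy2' (abs_le.2 ⟨by linarith, by linarith⟩) (ex_lp 0.34 (by norm_num) (by norm_num) (by norm_num)) (by norm_num) (by norm_num)
  have hx2 : sx κ t ≤ 2.0099 := sx_hi h 1.33 (-0.427) 0.34 1.53266 2.0099 hk2 hy1' (by norm_num) (le_trans (by linarith) (neg_le_abs _)) (ex_up 0.427 (by norm_num) (by norm_num) (by norm_num) (by norm_num)) (by norm_num) (by norm_num)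
  refine ⟨⟨hy1', hy2'⟩, ⟨hx1, hx2⟩, v5_n h 1.33 (-0.427) 1.53266 2.0385 hk2 hy1' (ex_up 0.427 (by norm_num) (by norm_num) (by norm_num) (by norm_num)) (by norm_num), ?_, ?_⟩
  · exact v5_Dlo h 1.25 (-0.427) (-0.34) (-0.34) 1.40494 3.4041 (by norm_num) hk1 hy1' hy2' (ex_lp 0.34 (by norm_num) (by norm_num) (by norm_num)) (by norm_num) (by norm_num) (by norm_num) (by norm_num)
  · exact v5_Dup h 1.33 (-0.427) (-0.34) 1.53266 1.40495 4.3013 hk2 hy1' hy2' (ex_up 0.427 (by norm_num) (by norm_num) (by norm_num) (by norm_num)) (ex_up 0.34 (by norm_num) (by norm_num) (by norm_num) (by norm_num)) (by norm_num) (by norm_num) (by norm_num)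

private theorem B5Ko_T47_0_0 {β x y : ℝ} (hβ : 0 < β) (hN : β * 7.518 ≤ 1) (hx1 : 1.7033 ≤ x) (hx2 : x ≤ 1.752)
    (hy1 : -0.4271 ≤ y) (hy2 : y ≤ -0.3399) : ‖HH β (x + y * I) - 1‖ ≤ 0.145 := by
  refine le_epsJ (C := 1.09) (N0 := 7.518) (J_boxp 1.7033 1.752 0.4271 0 (-0.3399) 1.6061 1.8034 1.8723 0.6723 0.5459 2.7419 7.518 1.1229 5.161 1.679 0.352 0.803 0.5024 0.9171 1.7368 0.949 2.8584 3.8163 3.2165 0.002392 0.02292 0.001017 0.000002136 0.0007976 0.0000003101 0.0000003101 0.0000003101 1.09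
    hβ hN hx1 hx2 hy1 hy2 (by norm_num) (by norm_num) (by linarith) (by norm_num) (by norm_num) (by norm_num) (by norm_num) (by norm_num) (by norm_num) (by norm_num) (by norm_num) (by norm_num) (by norm_num) (by norm_num) (by norm_num) (by norm_num) (by norm_num) (by norm_num) (by norm_num) (by norm_num) (by norm_num) (by norm_num) (by norm_num) (by norm_num)
    (cube_sqrt_geJ (s := 0.791) (by norm_num) (by norm_num) (by norm_num) (by norm_num))
    (cube_sqrt_geJ (s := 0.9287) (by norm_num) (by norm_num) (by norm_num) (by norm_num))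
    (by norm_num) (by norm_num) (by norm_num) (by norm_num) (by norm_num) (by norm_num) (by norm_num) (by norm_num) (by norm_num) (by norm_num) (by norm_num) (by norm_num) (by norm_num) (by norm_num) (by norm_num) (by norm_num) (by norm_num) (by norm_num)
    (exp_neg_leJ (r := 0.036) 6 (by norm_num) (by norm_num) (by norm_num) (by norm_num))
    (exp_neg_leJ (r := 0.777) 3 (by norm_num) (by norm_num) (by norm_num) (by norm_num))
    (exp_neg_leJ (r := 0.894) 6 (by norm_num) (by norm_num) (by norm_num) (by norm_num))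
    (exp_neg_leJ (r := 0.057) 13 (by norm_num) (by norm_num) (by norm_num) (by norm_num))
    (exp_neg_leJ (r := 0.134) 7 (by norm_num) (by norm_num) (by norm_num) (by norm_num))
    (exp_neg_leJ (r := 0.99) 14 (by norm_num) (by norm_num) (by norm_num) (by norm_num))
    (exp_neg_leJ (r := 0.99) 14 (by norm_num) (by norm_num) (by norm_num) (by norm_num))
    (exp_neg_leJ (r := 0.99) 14 (by norm_num) (by norm_num) (by norm_num) (by norm_num))
    (by norm_num)) (by norm_num) hN hβ.le (by norm_num)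

private theorem B5Ko_T47_0_1 {β x y : ℝ} (hβ : 0 < β) (hN : β * 7.518 ≤ 1) (hx1 : 1.752 ≤ x) (hx2 : x ≤ 1.808)
    (hy1 : -0.4271 ≤ y) (hy2 : y ≤ -0.3399) : ‖HH β (x + y * I) - 1‖ ≤ 0.145 := by
  refine le_epsJ (C := 1.0886) (N0 := 7.518) (J_boxp 1.752 1.808 0.4271 0 (-0.3399) 1.6404 1.8578 1.9248 0.6604 0.5535 2.7419 7.518 1.1326 5.256 1.687 0.3304 0.8201 0.5105 0.9338 1.7048 0.9726 2.9258 3.9137 3.166 0.002102 0.0216 0.0008939 0.000002722 0.0006676 0.0000003101 0.0000003101 0.0000003101 1.0886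
    hβ hN hx1 hx2 hy1 hy2 (by norm_num) (by norm_num) (by linarith) (by norm_num) (by norm_num) (by norm_num) (by norm_num) (by norm_num) (by norm_num) (by norm_num) (by norm_num) (by norm_num) (by norm_num) (by norm_num) (by norm_num) (by norm_num) (by norm_num) (by norm_num) (by norm_num) (by norm_num) (by norm_num) (by norm_num) (by norm_num) (by norm_num)
    (cube_sqrt_geJ (s := 0.7889) (by norm_num) (by norm_num) (by norm_num) (by norm_num))
    (cube_sqrt_geJ (s := 0.928) (by norm_num) (by norm_num) (by norm_num) (by norm_num))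
    (by norm_num) (by norm_num) (by norm_num) (by norm_num) (by norm_num) (by norm_num) (by norm_num) (by norm_num) (by norm_num) (by norm_num) (by norm_num) (by norm_num) (by norm_num) (by norm_num) (by norm_num) (by norm_num) (by norm_num) (by norm_num)
    (exp_neg_leJ (r := 0.165) 6 (by norm_num) (by norm_num) (by norm_num) (by norm_num))
    (exp_neg_leJ (r := 0.837) 3 (by norm_num) (by norm_num) (by norm_num) (by norm_num))
    (exp_neg_leJ (r := 0.02) 7 (by norm_num) (by norm_num) (by norm_num) (by norm_num))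
    (exp_neg_leJ (r := 0.816) 12 (by norm_num) (by norm_num) (by norm_num) (by norm_num))
    (exp_neg_leJ (r := 0.312) 7 (by norm_num) (by norm_num) (by norm_num) (by norm_num))
    (exp_neg_leJ (r := 0.99) 14 (by norm_num) (by norm_num) (by norm_num) (by norm_num))
    (exp_neg_leJ (r := 0.99) 14 (by norm_num) (by norm_num) (by norm_num) (by norm_num))
    (exp_neg_leJ (r := 0.99) 14 (by norm_num) (by norm_num) (by norm_num) (by norm_num))
    (by norm_num)) (by norm_num) hN hβ.le (by norm_num)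

private theorem B5Ko_T47_0_2 {β x y : ℝ} (hβ : 0 < β) (hN : β * 7.518 ≤ 1) (hx1 : 1.808 ≤ x) (hx2 : x ≤ 1.874)
    (hy1 : -0.4271 ≤ y) (hy2 : y ≤ -0.3399) : ‖HH β (x + y * I) - 1‖ ≤ 0.145 := by
  refine le_epsJ (C := 1.09) (N0 := 7.518) (J_boxp 1.808 1.874 0.4271 0 (-0.3399) 1.6798 1.9221 1.9869 0.6475 0.5624 2.7419 7.518 1.1443 5.373 1.697 0.3051 0.8398 0.5195 0.953 1.6671 0.9998 3.0033 4.0257 3.1032 0.001813 0.02019 0.000774 0.000003607 0.0005445 0.0000003101 0.0000003101 0.0000003101 1.09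
    hβ hN hx1 hx2 hy1 hy2 (by norm_num) (by norm_num) (by linarith) (by norm_num) (by norm_num) (by norm_num) (by norm_num) (by norm_num) (by norm_num) (by norm_num) (by norm_num) (by norm_num) (by norm_num) (by norm_num) (by norm_num) (by norm_num) (by norm_num) (by norm_num) (by norm_num) (by norm_num) (by norm_num) (by norm_num) (by norm_num) (by norm_num)
    (cube_sqrt_geJ (s := 0.7864) (by norm_num) (by norm_num) (by norm_num) (by norm_num))
    (cube_sqrt_geJ (s := 0.9273) (by norm_num) (by norm_num) (by norm_num) (by norm_num))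
    (by norm_num) (by norm_num) (by norm_num) (by norm_num) (by norm_num) (by norm_num) (by norm_num) (by norm_num) (by norm_num) (by norm_num) (by norm_num) (by norm_num) (by norm_num) (by norm_num) (by norm_num) (by norm_num) (by norm_num) (by norm_num)
    (exp_neg_leJ (r := 0.313) 6 (by norm_num) (by norm_num) (by norm_num) (by norm_num))
    (exp_neg_leJ (r := 0.905) 3 (by norm_num) (by norm_num) (by norm_num) (by norm_num))
    (exp_neg_leJ (r := 0.164) 7 (by norm_num) (by norm_num) (by norm_num) (by norm_num))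
    (exp_neg_leJ (r := 0.533) 12 (by norm_num) (by norm_num) (by norm_num) (by norm_num))
    (exp_neg_leJ (r := 0.516) 7 (by norm_num) (by norm_num) (by norm_num) (by norm_num))
    (exp_neg_leJ (r := 0.99) 14 (by norm_num) (by norm_num) (by norm_num) (by norm_num))
    (exp_neg_leJ (r := 0.99) 14 (by norm_num) (by norm_num) (by norm_num) (by norm_num))
    (exp_neg_leJ (r := 0.99) 14 (by norm_num) (by norm_num) (by norm_num) (by norm_num))
    (by norm_num)) (by norm_num) hN hβ.le (by norm_num)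

private theorem B5Ko_T47_0_3 {β x y : ℝ} (hβ : 0 < β) (hN : β * 7.518 ≤ 1) (hx1 : 1.874 ≤ x) (hx2 : x ≤ 1.951)
    (hy1 : -0.4271 ≤ y) (hy2 : y ≤ -0.3399) : ‖HH β (x + y * I) - 1‖ ≤ 0.145 := by
  refine le_epsJ (C := 1.0898) (N0 := 7.518) (J_boxp 1.874 1.951 0.4271 0 (-0.3399) 1.7263 1.9973 2.0597 0.6328 0.5726 2.7419 7.518 1.157 5.504 1.707 0.2754 0.8631 0.5302 0.9756 1.6231 1.0319 3.0947 4.1577 3.0308 0.001522 0.01864 0.000653 0.000005021 0.0004283 0.0000003101 0.0000003101 0.0000003101 1.0898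
    hβ hN hx1 hx2 hy1 hy2 (by norm_num) (by norm_num) (by linarith) (by norm_num) (by norm_num) (by norm_num) (by norm_num) (by norm_num) (by norm_num) (by norm_num) (by norm_num) (by norm_num) (by norm_num) (by norm_num) (by norm_num) (by norm_num) (by norm_num) (by norm_num) (by norm_num) (by norm_num) (by norm_num) (by norm_num) (by norm_num) (by norm_num)
    (cube_sqrt_geJ (s := 0.7837) (by norm_num) (by norm_num) (by norm_num) (by norm_num))
    (cube_sqrt_geJ (s := 0.9264) (by norm_num) (by norm_num) (by norm_num) (by norm_num))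
    (by norm_num) (by norm_num) (by norm_num) (by norm_num) (by norm_num) (by norm_num) (by norm_num) (by norm_num) (by norm_num) (by norm_num) (by norm_num) (by norm_num) (by norm_num) (by norm_num) (by norm_num) (by norm_num) (by norm_num) (by norm_num)
    (exp_neg_leJ (r := 0.488) 6 (by norm_num) (by norm_num) (by norm_num) (by norm_num))
    (exp_neg_leJ (r := 0.986) 3 (by norm_num) (by norm_num) (by norm_num) (by norm_num))
    (exp_neg_leJ (r := 0.334) 7 (by norm_num) (by norm_num) (by norm_num) (by norm_num))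
    (exp_neg_leJ (r := 0.202) 12 (by norm_num) (by norm_num) (by norm_num) (by norm_num))
    (exp_neg_leJ (r := 0.757) 7 (by norm_num) (by norm_num) (by norm_num) (by norm_num))
    (exp_neg_leJ (r := 0.99) 14 (by norm_num) (by norm_num) (by norm_num) (by norm_num))
    (exp_neg_leJ (r := 0.99) 14 (by norm_num) (by norm_num) (by norm_num) (by norm_num))
    (exp_neg_leJ (r := 0.99) 14 (by norm_num) (by norm_num) (by norm_num) (by norm_num))
    (by norm_num)) (by norm_num) hN hβ.le (by norm_num)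

private theorem B5Ko_T47_0_4 {β x y : ℝ} (hβ : 0 < β) (hN : β * 7.518 ≤ 1) (hx1 : 1.951 ≤ x) (hx2 : x ≤ 2.01)
    (hy1 : -0.4271 ≤ y) (hy2 : y ≤ -0.3399) : ‖HH β (x + y * I) - 1‖ ≤ 0.145 := by
  refine le_epsJ (C := 1.0336) (N0 := 7.518) (J_boxp 1.951 2.01 0.4271 0 (-0.3399) 1.7805 2.0549 2.1157 0.6123 0.5803 2.7419 7.518 1.1542 5.475 1.705 0.2527 0.8902 0.5477 1.0019 1.5893 1.0693 3.2013 4.3117 3.0282 0.001242 0.0163 0.0005358 0.000006492 0.000323 0.0000003101 0.0000003101 0.0000003101 1.0336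
    hβ hN hx1 hx2 hy1 hy2 (by norm_num) (by norm_num) (by linarith) (by norm_num) (by norm_num) (by norm_num) (by norm_num) (by norm_num) (by norm_num) (by norm_num) (by norm_num) (by norm_num) (by norm_num) (by norm_num) (by norm_num) (by norm_num) (by norm_num) (by norm_num) (by norm_num) (by norm_num) (by norm_num) (by norm_num) (by norm_num) (by norm_num)
    (cube_sqrt_geJ (s := 0.7843) (by norm_num) (by norm_num) (by norm_num) (by norm_num))
    (cube_sqrt_geJ (s := 0.9266) (by norm_num) (by norm_num) (by norm_num) (by norm_num))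
    (by norm_num) (by norm_num) (by norm_num) (by norm_num) (by norm_num) (by norm_num) (by norm_num) (by norm_num) (by norm_num) (by norm_num) (by norm_num) (by norm_num) (by norm_num) (by norm_num) (by norm_num) (by norm_num) (by norm_num) (by norm_num)
    (exp_neg_leJ (r := 0.692) 6 (by norm_num) (by norm_num) (by norm_num) (by norm_num))
    (exp_neg_leJ (r := 0.117) 4 (by norm_num) (by norm_num) (by norm_num) (by norm_num))
    (exp_neg_leJ (r := 0.532) 7 (by norm_num) (by norm_num) (by norm_num) (by norm_num))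
    (exp_neg_leJ (r := 0.948) 11 (by norm_num) (by norm_num) (by norm_num) (by norm_num))
    (exp_neg_leJ (r := 0.038) 8 (by norm_num) (by norm_num) (by norm_num) (by norm_num))
    (exp_neg_leJ (r := 0.99) 14 (by norm_num) (by norm_num) (by norm_num) (by norm_num))
    (exp_neg_leJ (r := 0.99) 14 (by norm_num) (by norm_num) (by norm_num) (by norm_num))
    (exp_neg_leJ (r := 0.99) 14 (by norm_num) (by norm_num) (by norm_num) (by norm_num))
    (by norm_num)) (by norm_num) hN hβ.le (by norm_num)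

private theorem B5Ko_T47 {β x y : ℝ} (hβ : 0 < β) (hN : β * 7.518 ≤ 1) (hx1 : 1.7033 ≤ x) (hx2 : x ≤ 2.01)
    (hy1 : (-0.4271) ≤ y) (hy2 : y ≤ (-0.3399)) : ‖HH β (x + y * I) - 1‖ ≤ 0.145 := by
  rcases le_total x 1.752 with hxx | hxx
  · exact B5Ko_T47_0_0 hβ hN (by linarith) (by linarith) (by linarith) (by linarith)
  rcases le_total x 1.808 with hxx | hxx
  · exact B5Ko_T47_0_1 hβ hN (by linarith) (by linarith) (by linarith) (by linarith)
  rcases le_total x 1.874 with hxx | hxx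
  · exact B5Ko_T47_0_2 hβ hN (by linarith) (by linarith) (by linarith) (by linarith)
  rcases le_total x 1.951 with hxx | hxx
  · exact B5Ko_T47_0_3 hβ hN (by linarith) (by linarith) (by linarith) (by linarith)
  exact B5Ko_T47_0_4 hβ hN (by linarith) (by linarith) (by linarith) (by linarith)

private theorem B5Ko_U48 {β r t κ h t' : ℝ} (hβ : 0 < β) (hκ : κ = β * r) (hN : β * 7.518 ≤ 1) (hk1 : 1.25 ≤ κ) (hk2 : κ ≤ 1.33)
    (ht : t' = t + (((0 : ℤ) : ℝ) - 1) * h) (hD : DomR κ t') (hta : (-0.8417) ≤ t' + κ) (htb : t' + κ ≤ (-0.6911)) :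
    ‖Xf β r h t 0‖ ≤ 0.843 * Real.exp (r * sE κ t') := by
  obtain ⟨⟨ya, yb⟩, ⟨xa, xb⟩, n1, Da, Db⟩ := B5Ko_B46 hD hk1 hk2 hta htb
  have J := B5Ko_T47 (x := sx κ t') (y := sy κ t') hβ hN (by linarith only [xa, xb, ya, yb]) (by linarith only [xa, xb, ya, yb]) (by linarith only [xa, xb, ya, yb]) (by linarith only [xa, xb, ya, yb])
  exact v5_Jup (h := h) (t := t) (k := 0) hβ hκ ht hD 0.145 3.4041 0.843 J Da (by norm_num) (by norm_num)

private theorem B5Ko_K49 {β r t κ h : ℝ} (hβ : 0 < β) (hr : 10 ≤ r) (hκ : κ = β * r) (hk1 : 1.25 ≤ κ) (hk2 : κ ≤ 1.33)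
    (hh : h = 2 * Real.pi / 5) (hh1 : 1.25663 ≤ h) (hh2 : h ≤ 1.25664) (hta : 0.415 ≤ t + κ) (htb : t + κ ≤ 0.5655) (hN : β * 7.518 ≤ 1)
    (hD : DomR κ (t - h)) (hY : 0.733 * Real.exp (r * sE κ t) ≤ ‖Xf β r h t 1‖) (hV : 1.04299 - 0.1825 * (t + κ) ≤ sE κ t) :
    ‖Xf β r h t 0‖ ≤ 0.869 * ‖Xf β r h t 1‖ := by
  have hU := B5Ko_U48 (h := h) (t := t) hβ hκ hN hk1 hk2 (by push_cast; ring) hD (by linarith only [hta, htb, hh1, hh2]) (by linarith only [hta, htb, hh1, hh2])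
  have hW := V_up hD (-0.25) (B5Ko_G45 hk1 hk2).1
  exact v5_cmpJ 0.0281 0.7553 0.869 hr hU hW hY (by norm_num) (by norm_num) (by norm_num) (by linarith only [hV, hta, htb, hh1, hh2]) (ex_un 0 0.2809 (by norm_num) (by norm_num) (by norm_num) (by norm_num)) (by norm_num)

private theorem B5Ko_O50 {β r t κ h : ℝ} (hβ : 0 < β) (hr : 10 ≤ r) (hκ : κ = β * r) (hk1 : 1.25 ≤ κ) (hk2 : κ ≤ 1.33)
    (hh : h = 2 * Real.pi / 5) (hta : 0.415 ≤ t + κ) (htb : t + κ ≤ 0.5655) :
    ‖Xf β r h t (-2)‖ + ‖Xf β r h t (-1)‖ + ‖Xf β r h t 2‖ < |‖Xf β r h t 1‖ - ‖Xf β r h t 0‖| := by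
  obtain ⟨hh1, hh2⟩ := v5_h hh
  have hκ0 : 0 < κ := by linarith only [hk1]
  have hN : β * 7.518 ≤ 1 := v5_hN 1.33 7.518 hβ hr hκ hk2 (by norm_num) (by norm_num)
  have hD1 : DomR κ t := v5_dom hκ0 (by linarith only [hta, htb, hk1, hk2, hh1, hh2]) (Or.inr (by linarith only [hta, htb, hk1, hk2, hh1, hh2]))
  have e1 : t = t + (((1 : ℤ) : ℝ) - 1) * h := by push_cast; ring
  have hY := B5Ko_Y40 (h := h) hβ hκ hN hk1 hk2 e1 hD1 hta htb
  have hV := B5Ko_V41 hD1 hk1 hk2 hta htb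
  have hD0 : DomR κ (t - h) := v5_dom hκ0 (by linarith only [hta, htb, hk1, hk2, hh1, hh2]) (Or.inl (by linarith only [hk1]))
  have cp2 := B5Ko_K42 hβ hr hκ hk1 hk2 hh hh1 hh2 hta htb hY hV
  have cm1 := B5Ko_K43 hβ hr hκ hk1 hk2 hh hh1 hh2 hta htb hY hV
  have cm2 := B5Ko_K44 hβ hr hκ hk1 hk2 hh hh1 hh2 hta htb hY hV
  have cn0 := B5Ko_K49 hβ hr hκ hk1 hk2 hh hh1 hh2 hta htb hN hD0 hY hV
  have hp : 0 < ‖Xf β r h t 1‖ := lt_of_lt_of_le (by positivity) hY
  exact v5_out1 _ _ _ _ cm2 cm1 cp2 cn0 hp (by norm_num)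

private theorem B5Ko_B51 {κ t : ℝ} (h : DomR κ t) (hk1 : 1.25 ≤ κ) (hk2 : κ ≤ 1.33) (ht1 : (-0.5028) ≤ t + κ) (ht2 : t + κ ≤ (-0.3766)) :
    ((-0.256) ≤ sy κ t ∧ sy κ t ≤ (-0.185)) ∧ (1.482 ≤ sx κ t ∧ sx κ t ≤ 1.7081) ∧ κ * Real.exp (-sy κ t) ≤ 1.7181 ∧ 2.892 ≤ sD κ t ∧ sD κ t ≤ 3.4397 := by
  have hy1 : -0.256 ≤ sy κ t := syL_ge h 1.25 1.33 0.5028 0.256 0.77414 0.77415 0.1489 0.149 0.15855 hk1 hk2 (by linarith) (by norm_num) (by norm_num) (by norm_num)
    (expm_ge (by norm_num) (by norm_num) (by norm_num) (by norm_num)) (expm_le (by norm_num) (by norm_num) (by norm_num)) (by norm_num)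
    (by norm_num) (by norm_num) (by norm_num) (by norm_num) (by norm_num) (by norm_num)
  have hy2 : sy κ t ≤ -0.185 := syL_le h 1.25 1.33 0.3766 0.185 0.8311 0.83111 0.1156 0.12301 hk1 hk2 (by linarith) (by norm_num) (by norm_num) (by norm_num)
    (expm_ge (by norm_num) (by norm_num) (by norm_num) (by norm_num)) (expm_le (by norm_num) (by norm_num) (by norm_num)) (by norm_num)
    (by norm_num) (by norm_num) (by norm_num) (by norm_num) (by norm_num) (by norm_num)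
  have hy1' : (-0.256) ≤ sy κ t := by linarith
  have hy2' : sy κ t ≤ (-0.185) := by linarith
  have hx1 : 1.482 ≤ sx κ t := sx_lo h 1.25 (-0.185) 0.2561 1.20321 1.482 hk1 (by norm_num) hy2' (abs_le.2 ⟨by linarith, by linarith⟩) (ex_lp 0.185 (by norm_num) (by norm_num) (by norm_num)) (by norm_num) (by norm_num)
  have hx2 : sx κ t ≤ 1.7081 := sx_hi h 1.33 (-0.256) 0.185 1.29176 1.7081 hk2 hy1' (by norm_num) (le_trans (by linarith) (neg_le_abs _)) (ex_up 0.256 (by norm_num) (by norm_num) (by norm_num) (by norm_num)) (by norm_num) (by norm_num)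
  refine ⟨⟨hy1', hy2'⟩, ⟨hx1, hx2⟩, v5_n h 1.33 (-0.256) 1.29176 1.7181 hk2 hy1' (ex_up 0.256 (by norm_num) (by norm_num) (by norm_num) (by norm_num)) (by norm_num), ?_, ?_⟩
  · exact v5_Dlo h 1.25 (-0.256) (-0.185) (-0.185) 1.20321 2.892 (by norm_num) hk1 hy1' hy2' (ex_lp 0.185 (by norm_num) (by norm_num) (by norm_num)) (by norm_num) (by norm_num) (by norm_num) (by norm_num)
  · exact v5_Dup h 1.33 (-0.256) (-0.185) 1.29176 1.20322 3.4397 hk2 hy1' hy2' (ex_up 0.256 (by norm_num) (by norm_num) (by norm_num) (by norm_num)) (ex_up 0.185 (by norm_num) (by norm_num) (by norm_num) (by norm_num)) (by norm_num) (by norm_num) (by norm_num)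

private theorem B5Ko_T52_0_0 {β x y : ℝ} (hβ : 0 < β) (hN : β * 7.518 ≤ 1) (hx1 : 1.4819 ≤ x) (hx2 : x ≤ 1.546)
    (hy1 : -0.2561 ≤ y) (hy2 : y ≤ -0.1849) : ‖HH β (x + y * I) - 1‖ ≤ 0.105 := by
  refine le_epsJ (C := 0.7881) (N0 := 7.518) (J_boxp 1.4819 1.546 0.2561 0 (-0.1849) 1.5716 1.5671 1.7478 0.6711 0.5275 2.7419 7.518 0.9972 4.114 1.578 0.5891 0.7857 0.5246 1.1113 2.4007 0.9349 2.5518 3.8383 3.416 0.00273 0.01945 0.0002355 0.0000003101 0.0008868 0.0000003101 0.0000003101 0.0000003101 0.7881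
    hβ hN hx1 hx2 hy1 hy2 (by norm_num) (by norm_num) (by linarith) (by norm_num) (by norm_num) (by norm_num) (by norm_num) (by norm_num) (by norm_num) (by norm_num) (by norm_num) (by norm_num) (by norm_num) (by norm_num) (by norm_num) (by norm_num) (by norm_num) (by norm_num) (by norm_num) (by norm_num) (by norm_num) (by norm_num) (by norm_num) (by norm_num)
    (cube_sqrt_geJ (s := 0.817) (by norm_num) (by norm_num) (by norm_num) (by norm_num))
    (cube_sqrt_geJ (s := 0.9369) (by norm_num) (by norm_num) (by norm_num) (by norm_num))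
    (by norm_num) (by norm_num) (by norm_num) (by norm_num) (by norm_num) (by norm_num) (by norm_num) (by norm_num) (by norm_num) (by norm_num) (by norm_num) (by norm_num) (by norm_num) (by norm_num) (by norm_num) (by norm_num) (by norm_num) (by norm_num)
    (exp_neg_leJ (r := 0.906) 5 (by norm_num) (by norm_num) (by norm_num) (by norm_num))
    (exp_neg_leJ (r := 0.943) 3 (by norm_num) (by norm_num) (by norm_num) (by norm_num))
    (exp_neg_leJ (r := 0.354) 8 (by norm_num) (by norm_num) (by norm_num) (by norm_num))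
    (exp_neg_leJ (r := 0.99) 14 (by norm_num) (by norm_num) (by norm_num) (by norm_num))
    (exp_neg_leJ (r := 0.028) 7 (by norm_num) (by norm_num) (by norm_num) (by norm_num))
    (exp_neg_leJ (r := 0.99) 14 (by norm_num) (by norm_num) (by norm_num) (by norm_num))
    (exp_neg_leJ (r := 0.99) 14 (by norm_num) (by norm_num) (by norm_num) (by norm_num))
    (exp_neg_leJ (r := 0.99) 14 (by norm_num) (by norm_num) (by norm_num) (by norm_num))
    (by norm_num)) (by norm_num) hN hβ.le (by norm_num)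

private theorem B5Ko_T52_0_1 {β x y : ℝ} (hβ : 0 < β) (hN : β * 7.518 ≤ 1) (hx1 : 1.546 ≤ x) (hx2 : x ≤ 1.617)
    (hy1 : -0.2561 ≤ y) (hy2 : y ≤ -0.1849) : ‖HH β (x + y * I) - 1‖ ≤ 0.105 := by
  refine le_epsJ (C := 0.7881) (N0 := 7.518) (J_boxp 1.546 1.617 0.2561 0 (-0.1849) 1.6168 1.6372 1.8109 0.6546 0.5369 2.7419 7.518 1.0127 4.227 1.59 0.5617 0.8083 0.5355 1.1332 2.3599 0.966 2.6406 3.9665 3.3536 0.002298 0.01787 0.0001997 0.0000003101 0.0007018 0.0000003101 0.0000003101 0.0000003101 0.7881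
    hβ hN hx1 hx2 hy1 hy2 (by norm_num) (by norm_num) (by linarith) (by norm_num) (by norm_num) (by norm_num) (by norm_num) (by norm_num) (by norm_num) (by norm_num) (by norm_num) (by norm_num) (by norm_num) (by norm_num) (by norm_num) (by norm_num) (by norm_num) (by norm_num) (by norm_num) (by norm_num) (by norm_num) (by norm_num) (by norm_num) (by norm_num)
    (cube_sqrt_geJ (s := 0.8139) (by norm_num) (by norm_num) (by norm_num) (by norm_num))
    (cube_sqrt_geJ (s := 0.9359) (by norm_num) (by norm_num) (by norm_num) (by norm_num))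
    (by norm_num) (by norm_num) (by norm_num) (by norm_num) (by norm_num) (by norm_num) (by norm_num) (by norm_num) (by norm_num) (by norm_num) (by norm_num) (by norm_num) (by norm_num) (by norm_num) (by norm_num) (by norm_num) (by norm_num) (by norm_num)
    (exp_neg_leJ (r := 0.076) 6 (by norm_num) (by norm_num) (by norm_num) (by norm_num))
    (exp_neg_leJ (r := 0.025) 4 (by norm_num) (by norm_num) (by norm_num) (by norm_num))
    (exp_neg_leJ (r := 0.519) 8 (by norm_num) (by norm_num) (by norm_num) (by norm_num))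
    (exp_neg_leJ (r := 0.99) 14 (by norm_num) (by norm_num) (by norm_num) (by norm_num))
    (exp_neg_leJ (r := 0.262) 7 (by norm_num) (by norm_num) (by norm_num) (by norm_num))
    (exp_neg_leJ (r := 0.99) 14 (by norm_num) (by norm_num) (by norm_num) (by norm_num))
    (exp_neg_leJ (r := 0.99) 14 (by norm_num) (by norm_num) (by norm_num) (by norm_num))
    (exp_neg_leJ (r := 0.99) 14 (by norm_num) (by norm_num) (by norm_num) (by norm_num))
    (by norm_num)) (by norm_num) hN hβ.le (by norm_num)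

private theorem B5Ko_T52_0_2 {β x y : ℝ} (hβ : 0 < β) (hN : β * 7.518 ≤ 1) (hx1 : 1.617 ≤ x) (hx2 : x ≤ 1.696)
    (hy1 : -0.2561 ≤ y) (hy2 : y ≤ -0.1849) : ‖HH β (x + y * I) - 1‖ ≤ 0.105 := by
  refine le_epsJ (C := 0.7892) (N0 := 7.518) (J_boxp 1.617 1.696 0.2561 0 (-0.1849) 1.6668 1.7153 1.8818 0.6375 0.5473 2.7419 7.518 1.0291 4.352 1.603 0.5314 0.8333 0.5475 1.1575 2.3145 1.0005 2.7389 4.1085 3.2834 0.001904 0.01631 0.0001664 0.0000003101 0.0005418 0.0000003101 0.0000003101 0.0000003101 0.7892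
    hβ hN hx1 hx2 hy1 hy2 (by norm_num) (by norm_num) (by linarith) (by norm_num) (by norm_num) (by norm_num) (by norm_num) (by norm_num) (by norm_num) (by norm_num) (by norm_num) (by norm_num) (by norm_num) (by norm_num) (by norm_num) (by norm_num) (by norm_num) (by norm_num) (by norm_num) (by norm_num) (by norm_num) (by norm_num) (by norm_num) (by norm_num)
    (cube_sqrt_geJ (s := 0.8105) (by norm_num) (by norm_num) (by norm_num) (by norm_num))
    (cube_sqrt_geJ (s := 0.9348) (by norm_num) (by norm_num) (by norm_num) (by norm_num))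
    (by norm_num) (by norm_num) (by norm_num) (by norm_num) (by norm_num) (by norm_num) (by norm_num) (by norm_num) (by norm_num) (by norm_num) (by norm_num) (by norm_num) (by norm_num) (by norm_num) (by norm_num) (by norm_num) (by norm_num) (by norm_num)
    (exp_neg_leJ (r := 0.264) 6 (by norm_num) (by norm_num) (by norm_num) (by norm_num))
    (exp_neg_leJ (r := 0.116) 4 (by norm_num) (by norm_num) (by norm_num) (by norm_num))
    (exp_neg_leJ (r := 0.702) 8 (by norm_num) (by norm_num) (by norm_num) (by norm_num))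
    (exp_neg_leJ (r := 0.99) 14 (by norm_num) (by norm_num) (by norm_num) (by norm_num))
    (exp_neg_leJ (r := 0.521) 7 (by norm_num) (by norm_num) (by norm_num) (by norm_num))
    (exp_neg_leJ (r := 0.99) 14 (by norm_num) (by norm_num) (by norm_num) (by norm_num))
    (exp_neg_leJ (r := 0.99) 14 (by norm_num) (by norm_num) (by norm_num) (by norm_num))
    (exp_neg_leJ (r := 0.99) 14 (by norm_num) (by norm_num) (by norm_num) (by norm_num))
    (by norm_num)) (by norm_num) hN hβ.le (by norm_num)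

private theorem B5Ko_T52_0_3 {β x y : ℝ} (hβ : 0 < β) (hN : β * 7.518 ≤ 1) (hx1 : 1.696 ≤ x) (hx2 : x ≤ 1.7082)
    (hy1 : -0.2561 ≤ y) (hy2 : y ≤ -0.1849) : ‖HH β (x + y * I) - 1‖ ≤ 0.105 := by
  refine le_epsJ (C := 0.6911) (N0 := 7.518) (J_boxp 1.696 1.7082 0.2561 0 (-0.1849) 1.7224 1.7273 1.8928 0.6087 0.5489 2.7419 7.518 1.0029 4.155 1.582 0.5267 0.8611 0.5733 1.1845 2.3075 1.0388 2.8483 4.2665 3.4087 0.001545 0.01344 0.0001361 0.0000003101 0.0004067 0.0000003101 0.0000003101 0.0000003101 0.6911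
    hβ hN hx1 hx2 hy1 hy2 (by norm_num) (by norm_num) (by linarith) (by norm_num) (by norm_num) (by norm_num) (by norm_num) (by norm_num) (by norm_num) (by norm_num) (by norm_num) (by norm_num) (by norm_num) (by norm_num) (by norm_num) (by norm_num) (by norm_num) (by norm_num) (by norm_num) (by norm_num) (by norm_num) (by norm_num) (by norm_num) (by norm_num)
    (cube_sqrt_geJ (s := 0.8159) (by norm_num) (by norm_num) (by norm_num) (by norm_num))
    (cube_sqrt_geJ (s := 0.9365) (by norm_num) (by norm_num) (by norm_num) (by norm_num))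
    (by norm_num) (by norm_num) (by norm_num) (by norm_num) (by norm_num) (by norm_num) (by norm_num) (by norm_num) (by norm_num) (by norm_num) (by norm_num) (by norm_num) (by norm_num) (by norm_num) (by norm_num) (by norm_num) (by norm_num) (by norm_num)
    (exp_neg_leJ (r := 0.473) 6 (by norm_num) (by norm_num) (by norm_num) (by norm_num))
    (exp_neg_leJ (r := 0.31) 4 (by norm_num) (by norm_num) (by norm_num) (by norm_num))
    (exp_neg_leJ (r := 0.905) 8 (by norm_num) (by norm_num) (by norm_num) (by norm_num))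
    (exp_neg_leJ (r := 0.99) 14 (by norm_num) (by norm_num) (by norm_num) (by norm_num))
    (exp_neg_leJ (r := 0.809) 7 (by norm_num) (by norm_num) (by norm_num) (by norm_num))
    (exp_neg_leJ (r := 0.99) 14 (by norm_num) (by norm_num) (by norm_num) (by norm_num))
    (exp_neg_leJ (r := 0.99) 14 (by norm_num) (by norm_num) (by norm_num) (by norm_num))
    (exp_neg_leJ (r := 0.99) 14 (by norm_num) (by norm_num) (by norm_num) (by norm_num))
    (by norm_num)) (by norm_num) hN hβ.le (by norm_num)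

private theorem B5Ko_T52 {β x y : ℝ} (hβ : 0 < β) (hN : β * 7.518 ≤ 1) (hx1 : 1.4819 ≤ x) (hx2 : x ≤ 1.7082)
    (hy1 : (-0.2561) ≤ y) (hy2 : y ≤ (-0.1849)) : ‖HH β (x + y * I) - 1‖ ≤ 0.105 := by
  rcases le_total x 1.546 with hxx | hxx
  · exact B5Ko_T52_0_0 hβ hN (by linarith) (by linarith) (by linarith) (by linarith)
  rcases le_total x 1.617 with hxx | hxx
  · exact B5Ko_T52_0_1 hβ hN (by linarith) (by linarith) (by linarith) (by linarith)
  rcases le_total x 1.696 with hxx | hxx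
  · exact B5Ko_T52_0_2 hβ hN (by linarith) (by linarith) (by linarith) (by linarith)
  exact B5Ko_T52_0_3 hβ hN (by linarith) (by linarith) (by linarith) (by linarith)

private theorem B5Ko_G53 {κ : ℝ} (hk1 : 1.25 ≤ κ) (hk2 : κ ≤ 1.33) : gG κ 0.41 ≤ 1.27904 ∧ 0.336 ≤ Real.exp (-(κ * 0.41)) ^ 2 := by
  refine ⟨gG_le 0.41 1.25 1.33 1.27904 0.599 0.57967 1.66946 1.72513 hk1 hk2 (by norm_num)
    (ex_um 0.5125 (by norm_num) (by norm_num) (by norm_num) (by norm_num)) (ex_um 0.5453 (by norm_num) (by norm_num) (by norm_num) (by norm_num))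
    (ex_up 0.5125 (by norm_num) (by norm_num) (by norm_num) (by norm_num)) (ex_up 0.5453 (by norm_num) (by norm_num) (by norm_num) (by norm_num))
    (by norm_num) (by norm_num), ?_⟩
  exact v5_M 0.57966 (ex_lm 0.5453 (by linarith) (by norm_num) (by norm_num) (by norm_num) (by norm_num)) (by norm_num) (by norm_num)

private theorem B5Ko_C54 {β r t κ : ℝ} (hβ : 0 < β) (hr : 10 ≤ r) (hκ : κ = β * r) (hk1 : 1.25 ≤ κ) (hk2 : κ ≤ 1.33) (hta : 2.0105 ≤ t + κ)
    (htb : t + κ ≤ 2.1367) : ‖F (cexp (I * β)) (r * cexp (I * ((t + β / 2 : ℝ) : ℂ)))‖ ≤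
      1.7994 * Real.exp (r * (1.27904 - 0.41 * (t + κ))) + 0.2103 * Real.exp (r * 0) :=
  v5_H 0.41 1.25 1.33 2.0105 2.1367 1.27904 1.7114 0.336 0.1455 2.2511 0.6839 0.08971 0.4133 0.0000766 1.7994 0.2103 hβ hr hκ (by norm_num) hk1 hk2 hta htb (by norm_num) (B5Ko_G53 hk1 hk2).1 (B5Ko_G53 hk1 hk2).2 (by norm_num) (by norm_num) (by norm_num)
    (by norm_num) (by norm_num) (by norm_num) (by norm_num) (by norm_num) (by norm_num) (by norm_num) (by norm_num) (ex_un 0 0.897 (by norm_num) (by norm_num) (by norm_num) (by norm_num))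
    (v5_hump 1.2899 7.518 2.7419 0.0000618 0.0000766 hβ hr hκ hk1 hk2 (by norm_num) htb (by norm_num) (by norm_num) (by norm_num) (by norm_num) (by norm_num) (by norm_num) (by norm_num) (ex_un 9 0.6974 (by norm_num) (by norm_num) (by norm_num) (by norm_num)) (by norm_num)) (by norm_num) (by norm_num)

private theorem B5Ko_G55 {κ : ℝ} (hk1 : 1.25 ≤ κ) (hk2 : κ ≤ 1.33) : gG κ (-0.56) ≤ 1.43616 ∧ 4.0551 ≤ Real.exp (-(κ * (-0.56))) ^ 2 := by
  refine ⟨gG_le (-0.56) 1.25 1.33 1.43616 2.01376 2.10603 0.49659 0.47484 hk1 hk2 (by norm_num)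
    (ex_up 0.7 (by norm_num) (by norm_num) (by norm_num) (by norm_num)) (ex_up 0.7448 (by norm_num) (by norm_num) (by norm_num) (by norm_num))
    (ex_um 0.7 (by norm_num) (by norm_num) (by norm_num) (by norm_num)) (ex_um 0.7448 (by norm_num) (by norm_num) (by norm_num) (by norm_num))
    (by norm_num) (by norm_num), ?_⟩
  exact v5_M 2.01373 (ex_lp 0.7 (by linarith) (by norm_num) (by norm_num)) (by norm_num) (by norm_num)

private theorem B5Ko_C56 {β r t κ : ℝ} (hβ : 0 < β) (hr : 10 ≤ r) (hκ : κ = β * r) (hk1 : 1.25 ≤ κ) (hk2 : κ ≤ 1.33) (hta : (-1.7594) ≤ t + κ)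
    (htb : t + κ ≤ (-1.6332)) : ‖F (cexp (I * β)) (r * cexp (I * ((t + β / 2 : ℝ) : ℂ)))‖ ≤
      0.7877 * Real.exp (r * (1.43616 - (-0.56) * (t + κ))) + 1.6446 * Real.exp (r * 0.0501) :=
  v5_HU (-0.56) 1.25 1.33 (-1.7594) (-1.6332) 1.43616 0.7877 4.0551 0.1455 0.6845 1.6225 0 0.0501 0.00000116 1.6446 hβ hr hκ (by norm_num) hk1 hk2 hta htb (by norm_num) (by norm_num) (B5Ko_G55 hk1 hk2).1 (B5Ko_G55 hk1 hk2).2 (by norm_num) (by norm_num) (by norm_num)
    (by norm_num) (by norm_num) (by norm_num) (by norm_num) (by norm_num) (by norm_num) (by norm_num)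
    (by norm_num) (by norm_num) (by norm_num) (v5_hump 5.0598 7.518 2.7419 0.0000009316 0.00000116 hβ hr hκ hk1 hk2 (by norm_num) htb (by norm_num) (by norm_num) (by norm_num) (by norm_num) (by norm_num) (by norm_num) (by norm_num) (ex_un 13 0.9 (by norm_num) (by norm_num) (by norm_num) (by norm_num)) (by norm_num)) (by norm_num)

private theorem B5Ko_C57 {β r t κ : ℝ} (hβ : 0 < β) (hr : 10 ≤ r) (hκ : κ = β * r) (hk1 : 1.25 ≤ κ) (hk2 : κ ≤ 1.33) (hta : 3.2671 ≤ t + κ)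
    (htb : t + κ ≤ 3.3933) : ‖F (cexp (I * β)) (r * cexp (I * ((t + β / 2 : ℝ) : ℂ)))‖ ≤
      2.0152 * Real.exp (r * (0.01 + 1 / 20)) :=
  v5_UD 1.25 1.33 3.2671 3.3933 0.01 0.3569 0.01 1.0506 2.0152 hβ hr hκ (by norm_num) hk1 hk2 hta htb (by norm_num) (by norm_num) (by norm_num) (by norm_num) (by norm_num) (by norm_num) (by norm_num) (by norm_num) (by norm_num) (by norm_num) (by norm_num)

private theorem B5Ko_Y58 {β r t κ h t' : ℝ} (hβ : 0 < β) (hκ : κ = β * r) (hN : β * 7.518 ≤ 1) (hk1 : 1.25 ≤ κ) (hk2 : κ ≤ 1.33)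
    (ht : t' = t + (((0 : ℤ) : ℝ) - 1) * h) (hD : DomR κ t') (hta : (-0.5028) ≤ t' + κ) (htb : t' + κ ≤ (-0.3766)) :
    0.6571 * Real.exp (r * sE κ t') ≤ ‖Xf β r h t 0‖ := by
  obtain ⟨⟨ya, yb⟩, ⟨xa, xb⟩, n1, Da, Db⟩ := B5Ko_B51 hD hk1 hk2 hta htb
  have J := B5Ko_T52 (x := sx κ t') (y := sy κ t') hβ hN (by linarith only [xa, xb, ya, yb]) (by linarith only [xa, xb, ya, yb]) (by linarith only [xa, xb, ya, yb]) (by linarith only [xa, xb, ya, yb])
  exact v5_Jlo hβ hκ (k := 0) ht hD 0.105 3.4397 0.6571 (by norm_num) J Db (by norm_num)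

private theorem B5Ko_V59 {κ t : ℝ} (hD : DomR κ t) (hk1 : 1.25 ≤ κ) (hk2 : κ ≤ 1.33) (hta : (-0.5028) ≤ t + κ) (htb : t + κ ≤ (-0.3766)) :
    1.03904 + 0.1814 * (t + κ) ≤ sE κ t := by
  have hκ0 : 0 < κ := hD.1
  exact v5_V0 hD 1.25 1.33 (-0.5028) (-0.3766) 0.5029 0.5287 0.04561 0.18596 0.05944 0.51903 1.03904 0.1814 (by norm_num) hk1 hk2 (by norm_num) hta htb (by norm_num) (by norm_num) (by norm_num) ((cup2 1.25 (by norm_num) hk1).trans (by norm_num))
      (by norm_num) (by norm_num) (by norm_num) (by norm_num) (by norm_num) (by norm_num) (by norm_num) (by norm_num) (by norm_num) (by norm_num) (by norm_num) (by norm_num) (by norm_num)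

private theorem B5Ko_K60 {β r t κ h : ℝ} (hβ : 0 < β) (hr : 10 ≤ r) (hκ : κ = β * r) (hk1 : 1.25 ≤ κ) (hk2 : κ ≤ 1.33)
    (hh : h = 2 * Real.pi / 5) (hh1 : 1.25663 ≤ h) (hh2 : h ≤ 1.25664) (hta : 0.7539 ≤ t + κ) (htb : t + κ ≤ 0.88)
    (hY : 0.6571 * Real.exp (r * sE κ (t - h)) ≤ ‖Xf β r h t 0‖) (hV : 1.03904 + 0.1814 * (t - h + κ) ≤ sE κ (t - h)) :
    ‖Xf β r h t 2‖ ≤ 0.0202 * ‖Xf β r h t 0‖ := by
  rw [v5_X 2 1 (by push_cast; ring)]
  exact v5_cmp 0.4931 0.007331 0.0201 0.9478 0.00007664 0.0000246 0.0202 hr (B5Ko_C54 (t := t + 1 * h) hβ hr hκ hk1 hk2 (by linarith only [hta, htb, hh1, hh2]) (by linarith only [hta, htb, hh1, hh2])) hY (by norm_num) (by norm_num) (by norm_num) (by norm_num) (by linarith only [hV, hta, htb, hh1, hh2]) (ex_un 4 0.9309 (by norm_num) (by norm_num) (by norm_num) (by norm_num)) (by norm_num) (by norm_num) (by linarith only [hV, hta, htb, hh1, hh2]) (ex_un 9 0.4779 (by norm_num) (by norm_num) (by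 norm_num) (by norm_num)) (by norm_num) (by norm_num)

private theorem B5Ko_K61 {β r t κ h : ℝ} (hβ : 0 < β) (hr : 10 ≤ r) (hκ : κ = β * r) (hk1 : 1.25 ≤ κ) (hk2 : κ ≤ 1.33)
    (hh : h = 2 * Real.pi / 5) (hh1 : 1.25663 ≤ h) (hh2 : h ≤ 1.25664) (hta : 0.7539 ≤ t + κ) (htb : t + κ ≤ 0.88)
    (hY : 0.6571 * Real.exp (r * sE κ (t - h)) ≤ ‖Xf β r h t 0‖) (hV : 1.03904 + 0.1814 * (t - h + κ) ≤ sE κ (t - h)) :
    ‖Xf β r h t (-1)‖ ≤ 0.0139 * ‖Xf β r h t 0‖ := by
  rw [v5_X (-1) (-2) (by push_cast; ring)]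
  exact v5_cmp 0.4491 0.01123 0.0135 0.8977 0.0001286 0.000322 0.0139 hr (B5Ko_C56 (t := t + (-2) * h) hβ hr hκ hk1 hk2 (by linarith only [hta, htb, hh1, hh2]) (by linarith only [hta, htb, hh1, hh2])) hY (by norm_num) (by norm_num) (by norm_num) (by norm_num) (by linarith only [hV, hta, htb, hh1, hh2]) (ex_un 4 0.4909 (by norm_num) (by norm_num) (by norm_num) (by norm_num)) (by norm_num) (by norm_num) (by linarith only [hV, hta, htb, hh1, hh2]) (ex_un 8 0.9769 (by norm_num) (by norm_num) (by norm_num) (by norm_num)) (by norm_num) (by norm_num)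

private theorem B5Ko_K62 {β r t κ h : ℝ} (hβ : 0 < β) (hr : 10 ≤ r) (hκ : κ = β * r) (hk1 : 1.25 ≤ κ) (hk2 : κ ≤ 1.33)
    (hh : h = 2 * Real.pi / 5) (hh1 : 1.25663 ≤ h) (hh2 : h ≤ 1.25664) (hta : 0.7539 ≤ t + κ) (htb : t + κ ≤ 0.88)
    (hY : 0.6571 * Real.exp (r * sE κ (t - h)) ≤ ‖Xf β r h t 0‖) (hV : 1.03904 + 0.1814 * (t - h + κ) ≤ sE κ (t - h)) :
    ‖Xf β r h t (-2)‖ ≤ 0.000434 * ‖Xf β r h t 0‖ := by
  rw [v5_Xm2 hh]
  exact v5_cmp0 0.8878 0.0001412 0.000434 hr (B5Ko_C57 (t := t + 2 * h) hβ hr hκ hk1 hk2 (by linarith only [hta, htb, hh1, hh2]) (by linarith only [hta, htb, hh1, hh2])) hY (by norm_num) (by norm_num) (by norm_num) (by linarith only [hV, hta, htb, hh1, hh2]) (ex_un 8 0.8779 (by norm_num) (by norm_num) (by norm_num) (by norm_num)) (by norm_num)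

private theorem B5Ko_G63 {κ : ℝ} (hk1 : 1.25 ≤ κ) (hk2 : κ ≤ 1.33) : gG κ 0.24 ≤ 1.08597 ∧ 0.52813 ≤ Real.exp (-(κ * 0.24)) ^ 2 := by
  refine ⟨gG_le 0.24 1.25 1.33 1.08597 0.74082 0.72674 1.34986 1.37603 hk1 hk2 (by norm_num)
    (ex_um 0.3 (by norm_num) (by norm_num) (by norm_num) (by norm_num)) (ex_um 0.3192 (by norm_num) (by norm_num) (by norm_num) (by norm_num))
    (ex_up 0.3 (by norm_num) (by norm_num) (by norm_num) (by norm_num)) (ex_up 0.3192 (by norm_num) (by norm_num) (by norm_num) (by norm_num))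
    (by norm_num) (by norm_num), ?_⟩
  exact v5_M 0.72673 (ex_lm 0.3192 (by linarith) (by norm_num) (by norm_num) (by norm_num) (by norm_num)) (by norm_num) (by norm_num)

private theorem B5Ko_B64 {κ t : ℝ} (h : DomR κ t) (hk1 : 1.25 ≤ κ) (hk2 : κ ≤ 1.33) (ht1 : 0.7538 ≤ t + κ) (ht2 : t + κ ≤ 0.8801) :
    (0.317 ≤ sy κ t ∧ sy κ t ≤ 0.363) ∧ (0.79 ≤ sx κ t ∧ sx κ t ≤ 0.9154) ∧ κ * Real.exp (-sy κ t) ≤ 0.9687 ∧ 2.4628 ≤ sD κ t ∧ sD κ t ≤ 2.5819 := by
  have hy1 : 0.317 ≤ sy κ t := syR_ge h 1.25 1.33 0.7538 0.317 1.373 1.37301 0.32724 0.3482 hk1 hk2 (by linarith) (by norm_num) (by norm_num)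
    (expn_ge (by norm_num) (by norm_num)) (expn_le (by norm_num) (by norm_num) (by norm_num)) (by norm_num)
    (by norm_num) (by norm_num) (by norm_num) (by norm_num) (by norm_num) (by norm_num)
  have hy2 : sy κ t ≤ 0.363 := syR_le h 1.25 1.33 0.8801 0.363 1.43763 0.386 0.39237 0.4175 hk1 hk2 (by linarith) (by norm_num) (by norm_num)
    (expn_ge (by norm_num) (by norm_num)) (by norm_num) (by norm_num) (Or.inr ((mul_le_mul_of_nonneg_left (expn_le (E := 1.43764) (by norm_num) (by norm_num) (by norm_num)) (by norm_num)).trans (by norm_num))) (by norm_num) (by norm_num) (by norm_num)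
  have hy1' : 0.317 ≤ sy κ t := by linarith
  have hy2' : sy κ t ≤ 0.363 := by linarith
  have hx1 : 0.79 ≤ sx κ t := sx_lo h 1.25 0.363 0.3631 0.69558 0.79 hk1 (by norm_num) hy2' (abs_le.2 ⟨by linarith, by linarith⟩) (ex_lm 0.363 (by norm_num) (by norm_num) (by norm_num) (by norm_num) (by norm_num)) (by norm_num) (by norm_num)
  have hx2 : sx κ t ≤ 0.9154 := sx_hi h 1.33 0.317 0.317 0.72834 0.9154 hk2 hy1' (by norm_num) (le_trans (by linarith) (le_abs_self _)) (ex_um 0.317 (by norm_num) (by norm_num) (by norm_num) (by norm_num)) (by norm_num) (by norm_num)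
  refine ⟨⟨hy1', hy2'⟩, ⟨hx1, hx2⟩, v5_n h 1.33 0.317 0.72834 0.9687 hk2 hy1' (ex_um 0.317 (by norm_num) (by norm_num) (by norm_num) (by norm_num)) (by norm_num), ?_, ?_⟩
  · exact v5_Dlo h 1.25 0.317 0.363 0.317 0.72833 2.4628 (by norm_num) hk1 hy1' hy2' (ex_lm 0.317 (by norm_num) (by norm_num) (by norm_num) (by norm_num) (by norm_num)) (by norm_num) (by norm_num) (by norm_num) (by norm_num)
  · exact v5_Dup h 1.33 0.317 0.363 0.72834 0.69559 2.5819 hk2 hy1' hy2' (ex_um 0.317 (by norm_num) (by norm_num) (by norm_num) (by norm_num)) (ex_um 0.363 (by norm_num) (by norm_num) (by norm_num) (by norm_num)) (by norm_num) (by norm_num) (by norm_num)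

private theorem B5Ko_T65_0_0 {β x y : ℝ} (hβ : 0 < β) (hN : β * 7.518 ≤ 1) (hx1 : 0.7899 ≤ x) (hx2 : x ≤ 0.853)
    (hy1 : -0 ≤ y) (hy2 : y ≤ 0.3631) : ‖HH β (x + y * I) - 1‖ ≤ 0.085 := by
  refine le_epsJ (C := 0.6387) (N0 := 7.518) (J_boxp 0.7899 0.853 0 0.3631 0.3631 1.2662 0.9271 1.608 0.89 0.5059 2.7419 7.518 0.7322 2.663 1.39 1.092 0.633 0.4785 1.2786 3.5908 0.7016 1.5566 1.5931 2.0608 0.008593 0.02742 0.00006696 0.0000003101 0.005124 0.000008284 0.000006315 0.0000003101 0.6387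
    hβ hN hx1 hx2 hy1 hy2 (by norm_num) (by norm_num) (by linarith) (by norm_num) (by norm_num) (by norm_num) (by norm_num) (by norm_num) (by norm_num) (by norm_num) (by norm_num) (by norm_num) (by norm_num) (by norm_num) (by norm_num) (by norm_num) (by norm_num) (by norm_num) (by norm_num) (by norm_num) (by norm_num) (by norm_num) (by norm_num) (by norm_num)
    (cube_sqrt_geJ (s := 0.8694) (by norm_num) (by norm_num) (by norm_num) (by norm_num))
    (cube_sqrt_geJ (s := 0.9541) (by norm_num) (by norm_num) (by norm_num) (by norm_num))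
    (by norm_num) (by norm_num) (by norm_num) (by norm_num) (by norm_num) (by norm_num) (by norm_num) (by norm_num) (by norm_num) (by norm_num) (by norm_num) (by norm_num) (by norm_num) (by norm_num) (by norm_num) (by norm_num) (by norm_num) (by norm_num)
    (exp_neg_leJ (r := 0.758) 4 (by norm_num) (by norm_num) (by norm_num) (by norm_num))
    (exp_neg_leJ (r := 0.597) 3 (by norm_num) (by norm_num) (by norm_num) (by norm_num))
    (exp_neg_leJ (r := 0.612) 9 (by norm_num) (by norm_num) (by norm_num) (by norm_num))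
    (exp_neg_leJ (r := 0.99) 14 (by norm_num) (by norm_num) (by norm_num) (by norm_num))
    (exp_neg_leJ (r := 0.274) 5 (by norm_num) (by norm_num) (by norm_num) (by norm_num))
    (exp_neg_leJ (r := 0.702) 11 (by norm_num) (by norm_num) (by norm_num) (by norm_num))
    (exp_neg_leJ (r := 0.976) 11 (by norm_num) (by norm_num) (by norm_num) (by norm_num))
    (exp_neg_leJ (r := 0.99) 14 (by norm_num) (by norm_num) (by norm_num) (by norm_num))
    (by norm_num)) (by norm_num) hN hβ.le (by norm_num)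

private theorem B5Ko_T65_0_1 {β x y : ℝ} (hβ : 0 < β) (hN : β * 7.518 ≤ 1) (hx1 : 0.853 ≤ x) (hx2 : x ≤ 0.9155)
    (hy1 : -0 ≤ y) (hy2 : y ≤ 0.3631) : ‖HH β (x + y * I) - 1‖ ≤ 0.085 := by
  refine le_epsJ (C := 0.6193) (N0 := 7.518) (J_boxp 0.853 0.9155 0 0.3631 0.3631 1.3106 0.9849 1.6421 0.8541 0.5113 2.7419 7.518 0.7515 2.744 1.403 1.068 0.6552 0.4911 1.3002 3.556 0.7323 1.644 1.7193 2.0298 0.007282 0.02495 0.00005699 0.0000003101 0.004068 0.000004292 0.000002443 0.0000003101 0.6193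
    hβ hN hx1 hx2 hy1 hy2 (by norm_num) (by norm_num) (by linarith) (by norm_num) (by norm_num) (by norm_num) (by norm_num) (by norm_num) (by norm_num) (by norm_num) (by norm_num) (by norm_num) (by norm_num) (by norm_num) (by norm_num) (by norm_num) (by norm_num) (by norm_num) (by norm_num) (by norm_num) (by norm_num) (by norm_num) (by norm_num) (by norm_num)
    (cube_sqrt_geJ (s := 0.8657) (by norm_num) (by norm_num) (by norm_num) (by norm_num))
    (cube_sqrt_geJ (s := 0.9528) (by norm_num) (by norm_num) (by norm_num) (by norm_num))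
    (by norm_num) (by norm_num) (by norm_num) (by norm_num) (by norm_num) (by norm_num) (by norm_num) (by norm_num) (by norm_num) (by norm_num) (by norm_num) (by norm_num) (by norm_num) (by norm_num) (by norm_num) (by norm_num) (by norm_num) (by norm_num)
    (exp_neg_leJ (r := 0.925) 4 (by norm_num) (by norm_num) (by norm_num) (by norm_num))
    (exp_neg_leJ (r := 0.692) 3 (by norm_num) (by norm_num) (by norm_num) (by norm_num))
    (exp_neg_leJ (r := 0.774) 9 (by norm_num) (by norm_num) (by norm_num) (by norm_num))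
    (exp_neg_leJ (r := 0.99) 14 (by norm_num) (by norm_num) (by norm_num) (by norm_num))
    (exp_neg_leJ (r := 0.505) 5 (by norm_num) (by norm_num) (by norm_num) (by norm_num))
    (exp_neg_leJ (r := 0.359) 12 (by norm_num) (by norm_num) (by norm_num) (by norm_num))
    (exp_neg_leJ (r := 0.925) 12 (by norm_num) (by norm_num) (by norm_num) (by norm_num))
    (exp_neg_leJ (r := 0.99) 14 (by norm_num) (by norm_num) (by norm_num) (by norm_num))
    (by norm_num)) (by norm_num) hN hβ.le (by norm_num)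

private theorem B5Ko_T65 {β x y : ℝ} (hβ : 0 < β) (hN : β * 7.518 ≤ 1) (hx1 : 0.7899 ≤ x) (hx2 : x ≤ 0.9155)
    (hy1 : 0.3169 ≤ y) (hy2 : y ≤ 0.3631) : ‖HH β (x + y * I) - 1‖ ≤ 0.085 := by
  rcases le_total x 0.853 with hxx | hxx
  · exact B5Ko_T65_0_0 hβ hN (by linarith) (by linarith) (by linarith) (by linarith)
  exact B5Ko_T65_0_1 hβ hN (by linarith) (by linarith) (by linarith) (by linarith)

private theorem B5Ko_U66 {β r t κ h t' : ℝ} (hβ : 0 < β) (hκ : κ = β * r) (hN : β * 7.518 ≤ 1) (hk1 : 1.25 ≤ κ) (hk2 : κ ≤ 1.33)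
    (ht : t' = t + (((1 : ℤ) : ℝ) - 1) * h) (hD : DomR κ t') (hta : 0.7538 ≤ t' + κ) (htb : t' + κ ≤ 0.8801) :
    ‖Xf β r h t 1‖ ≤ 0.8662 * Real.exp (r * sE κ t') := by
  obtain ⟨⟨ya, yb⟩, ⟨xa, xb⟩, n1, Da, Db⟩ := B5Ko_B64 hD hk1 hk2 hta htb
  have J := B5Ko_T65 (x := sx κ t') (y := sy κ t') hβ hN (by linarith only [xa, xb, ya, yb]) (by linarith only [xa, xb, ya, yb]) (by linarith only [xa, xb, ya, yb]) (by linarith only [xa, xb, ya, yb])
  exact v5_Jup (h := h) (t := t) (k := 1) hβ hκ ht hD 0.085 2.4628 0.8662 J Da (by norm_num) (by norm_num)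

private theorem B5Ko_K67 {β r t κ h : ℝ} (hβ : 0 < β) (hr : 10 ≤ r) (hκ : κ = β * r) (hk1 : 1.25 ≤ κ) (hk2 : κ ≤ 1.33)
    (hh : h = 2 * Real.pi / 5) (hh1 : 1.25663 ≤ h) (hh2 : h ≤ 1.25664) (hta : 0.7539 ≤ t + κ) (htb : t + κ ≤ 0.88) (hN : β * 7.518 ≤ 1)
    (hD : DomR κ t) (hY : 0.6571 * Real.exp (r * sE κ (t - h)) ≤ ‖Xf β r h t 0‖) (hV : 1.03904 + 0.1814 * (t - h + κ) ≤ sE κ (t - h)) :
    ‖Xf β r h t 1‖ ≤ 0.861 * ‖Xf β r h t 0‖ := by
  have hU := B5Ko_U66 (h := h) (t := t) hβ hκ hN hk1 hk2 (by push_cast; ring) hD (by linarith only [hta, htb, hh1, hh2]) (by linarith only [hta, htb, hh1, hh2])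
  have hW := V_up hD 0.24 (B5Ko_G63 hk1 hk2).1
  exact v5_cmpJ 0.0428 0.6526 0.861 hr hU hW hY (by norm_num) (by norm_num) (by norm_num) (by linarith only [hV, hta, htb, hh1, hh2]) (ex_un 0 0.4279 (by norm_num) (by norm_num) (by norm_num) (by norm_num)) (by norm_num)

private theorem B5Ko_O68 {β r t κ h : ℝ} (hβ : 0 < β) (hr : 10 ≤ r) (hκ : κ = β * r) (hk1 : 1.25 ≤ κ) (hk2 : κ ≤ 1.33)
    (hh : h = 2 * Real.pi / 5) (hta : 0.7539 ≤ t + κ) (htb : t + κ ≤ 0.88) :
    ‖Xf β r h t (-2)‖ + ‖Xf β r h t (-1)‖ + ‖Xf β r h t 2‖ < |‖Xf β r h t 1‖ - ‖Xf β r h t 0‖| := by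
  obtain ⟨hh1, hh2⟩ := v5_h hh
  have hκ0 : 0 < κ := by linarith only [hk1]
  have hN : β * 7.518 ≤ 1 := v5_hN 1.33 7.518 hβ hr hκ hk2 (by norm_num) (by norm_num)
  have hD1 : DomR κ t := v5_dom hκ0 (by linarith only [hta, htb, hk1, hk2, hh1, hh2]) (Or.inr (by linarith only [hta, htb, hk1, hk2, hh1, hh2]))
  have hD0 : DomR κ (t - h) := v5_dom hκ0 (by linarith only [hta, htb, hk1, hk2, hh1, hh2]) (Or.inl (by linarith only [hk1]))
  have h0a : (-0.5028) ≤ t - h + κ := by linarith only [hta, htb, hh1, hh2]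
  have h0b : t - h + κ ≤ (-0.3766) := by linarith only [hta, htb, hh1, hh2]
  have e0 : t - h = t + (((0 : ℤ) : ℝ) - 1) * h := by push_cast; ring
  have hY := B5Ko_Y58 (h := h) hβ hκ hN hk1 hk2 e0 hD0 h0a h0b
  have hV := B5Ko_V59 hD0 hk1 hk2 h0a h0b
  have cp2 := B5Ko_K60 hβ hr hκ hk1 hk2 hh hh1 hh2 hta htb hY hV
  have cm1 := B5Ko_K61 hβ hr hκ hk1 hk2 hh hh1 hh2 hta htb hY hV
  have cm2 := B5Ko_K62 hβ hr hκ hk1 hk2 hh hh1 hh2 hta htb hY hV
  have cn1 := B5Ko_K67 hβ hr hκ hk1 hk2 hh hh1 hh2 hta htb hN hD1 hY hV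
  have hp : 0 < ‖Xf β r h t 0‖ := lt_of_lt_of_le (by positivity) hY
  exact v5_out0 _ _ _ _ cm2 cm1 cp2 cn1 hp (by norm_num)

private theorem B5Ko_B69 {κ t : ℝ} (h : DomR κ t) (hk1 : 1.25 ≤ κ) (hk2 : κ ≤ 1.33) (ht1 : (-0.3767) ≤ t + κ) (ht2 : t + κ ≤ (-0.1886)) :
    ((-0.191) ≤ sy κ t ∧ sy κ t ≤ (-0.092)) ∧ (1.357 ≤ sx κ t ∧ sx κ t ≤ 1.6073) ∧ κ * Real.exp (-sy κ t) ≤ 1.61 ∧ 2.6941 ≤ sD κ t ∧ sD κ t ≤ 3.2099 := by
  have hy1 : -0.191 ≤ sy κ t := syL_ge h 1.25 1.33 0.3767 0.191 0.82613 0.82614 0.1167 0.11863 0.12624 hk1 hk2 (by linarith) (by norm_num) (by norm_num) (by norm_num)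
    (expm_ge (by norm_num) (by norm_num) (by norm_num) (by norm_num)) (expm_le (by norm_num) (by norm_num) (by norm_num)) (by norm_num)
    (by norm_num) (by norm_num) (by norm_num) (by norm_num) (by norm_num) (by norm_num)
  have hy2 : sy κ t ≤ -0.092 := syL_le h 1.25 1.33 0.1886 0.092 0.9121 0.91211 0.06309 0.06714 hk1 hk2 (by linarith) (by norm_num) (by norm_num) (by norm_num)
    (expm_ge (by norm_num) (by norm_num) (by norm_num) (by norm_num)) (expm_le (by norm_num) (by norm_num) (by norm_num)) (by norm_num)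
    (by norm_num) (by norm_num) (by norm_num) (by norm_num) (by norm_num) (by norm_num)
  have hy1' : (-0.191) ≤ sy κ t := by linarith
  have hy2' : sy κ t ≤ (-0.092) := by linarith
  have hx1 : 1.357 ≤ sx κ t := sx_lo h 1.25 (-0.092) 0.1911 1.09636 1.357 hk1 (by norm_num) hy2' (abs_le.2 ⟨by linarith, by linarith⟩) (ex_lp 0.092 (by norm_num) (by norm_num) (by norm_num)) (by norm_num) (by norm_num)
  have hx2 : sx κ t ≤ 1.6073 := sx_hi h 1.33 (-0.191) 0.092 1.21046 1.6073 hk2 hy1' (by norm_num) (le_trans (by linarith) (neg_le_abs _)) (ex_up 0.191 (by norm_num) (by norm_num) (by norm_num) (by norm_num)) (by norm_num) (by norm_num)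
  refine ⟨⟨hy1', hy2'⟩, ⟨hx1, hx2⟩, v5_n h 1.33 (-0.191) 1.21046 1.61 hk2 hy1' (ex_up 0.191 (by norm_num) (by norm_num) (by norm_num) (by norm_num)) (by norm_num), ?_, ?_⟩
  · exact v5_Dlo h 1.25 (-0.191) (-0.092) (-0.092) 1.09636 2.6941 (by norm_num) hk1 hy1' hy2' (ex_lp 0.092 (by norm_num) (by norm_num) (by norm_num)) (by norm_num) (by norm_num) (by norm_num) (by norm_num)
  · exact v5_Dup h 1.33 (-0.191) (-0.092) 1.21046 1.09637 3.2099 hk2 hy1' hy2' (ex_up 0.191 (by norm_num) (by norm_num) (by norm_num) (by norm_num)) (ex_up 0.092 (by norm_num) (by norm_num) (by norm_num) (by norm_num)) (by norm_num) (by norm_num) (by norm_num)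

private theorem B5Ko_T70_0_0 {β x y : ℝ} (hβ : 0 < β) (hN : β * 7.518 ≤ 1) (hx1 : 1.3569 ≤ x) (hx2 : x ≤ 1.431)
    (hy1 : -0.1911 ≤ y) (hy2 : y ≤ -0.0919) : ‖HH β (x + y * I) - 1‖ ≤ 0.095 := by
  refine le_epsJ (C := 0.7138) (N0 := 7.518) (J_boxp 1.3569 1.431 0.1911 0 (-0.0919) 1.5298 1.4438 1.6949 0.6881 0.5194 2.7419 7.518 0.9438 3.752 1.538 0.6933 0.7648 0.5242 1.1711 2.6735 0.9096 2.3787 3.765 3.5012 0.00319 0.01951 0.0001504 0.0000003101 0.001075 0.0000003101 0.0000003101 0.0000003101 0.7138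
    hβ hN hx1 hx2 hy1 hy2 (by norm_num) (by norm_num) (by linarith) (by norm_num) (by norm_num) (by norm_num) (by norm_num) (by norm_num) (by norm_num) (by norm_num) (by norm_num) (by norm_num) (by norm_num) (by norm_num) (by norm_num) (by norm_num) (by norm_num) (by norm_num) (by norm_num) (by norm_num) (by norm_num) (by norm_num) (by norm_num) (by norm_num)
    (cube_sqrt_geJ (s := 0.8278) (by norm_num) (by norm_num) (by norm_num) (by norm_num))
    (cube_sqrt_geJ (s := 0.9404) (by norm_num) (by norm_num) (by norm_num) (by norm_num))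
    (by norm_num) (by norm_num) (by norm_num) (by norm_num) (by norm_num) (by norm_num) (by norm_num) (by norm_num) (by norm_num) (by norm_num) (by norm_num) (by norm_num) (by norm_num) (by norm_num) (by norm_num) (by norm_num) (by norm_num) (by norm_num)
    (exp_neg_leJ (r := 0.749) 5 (by norm_num) (by norm_num) (by norm_num) (by norm_num))
    (exp_neg_leJ (r := 0.94) 3 (by norm_num) (by norm_num) (by norm_num) (by norm_num))
    (exp_neg_leJ (r := 0.804) 8 (by norm_num) (by norm_num) (by norm_num) (by norm_num))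
    (exp_neg_leJ (r := 0.99) 14 (by norm_num) (by norm_num) (by norm_num) (by norm_num))
    (exp_neg_leJ (r := 0.838) 6 (by norm_num) (by norm_num) (by norm_num) (by norm_num))
    (exp_neg_leJ (r := 0.99) 14 (by norm_num) (by norm_num) (by norm_num) (by norm_num))
    (exp_neg_leJ (r := 0.99) 14 (by norm_num) (by norm_num) (by norm_num) (by norm_num))
    (exp_neg_leJ (r := 0.99) 14 (by norm_num) (by norm_num) (by norm_num) (by norm_num))
    (by norm_num)) (by norm_num) hN hβ.le (by norm_num)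

private theorem B5Ko_T70_0_1 {β x y : ℝ} (hβ : 0 < β) (hN : β * 7.518 ≤ 1) (hx1 : 1.431 ≤ x) (hx2 : x ≤ 1.512)
    (hy1 : -0.1911 ≤ y) (hy2 : y ≤ -0.0919) : ‖HH β (x + y * I) - 1‖ ≤ 0.095 := by
  refine le_epsJ (C := 0.7141) (N0 := 7.518) (J_boxp 1.431 1.512 0.1911 0 (-0.0919) 1.5819 1.5241 1.7638 0.6676 0.5299 2.7419 7.518 0.9635 3.881 1.552 0.6621 0.7909 0.5369 1.1964 2.6268 0.9456 2.4813 3.9132 3.4311 0.002627 0.01767 0.0001251 0.0000003101 0.0008178 0.0000003101 0.0000003101 0.0000003101 0.7141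
    hβ hN hx1 hx2 hy1 hy2 (by norm_num) (by norm_num) (by linarith) (by norm_num) (by norm_num) (by norm_num) (by norm_num) (by norm_num) (by norm_num) (by norm_num) (by norm_num) (by norm_num) (by norm_num) (by norm_num) (by norm_num) (by norm_num) (by norm_num) (by norm_num) (by norm_num) (by norm_num) (by norm_num) (by norm_num) (by norm_num) (by norm_num)
    (cube_sqrt_geJ (s := 0.8239) (by norm_num) (by norm_num) (by norm_num) (by norm_num))
    (cube_sqrt_geJ (s := 0.9391) (by norm_num) (by norm_num) (by norm_num) (by norm_num))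
    (by norm_num) (by norm_num) (by norm_num) (by norm_num) (by norm_num) (by norm_num) (by norm_num) (by norm_num) (by norm_num) (by norm_num) (by norm_num) (by norm_num) (by norm_num) (by norm_num) (by norm_num) (by norm_num) (by norm_num) (by norm_num)
    (exp_neg_leJ (r := 0.945) 5 (by norm_num) (by norm_num) (by norm_num) (by norm_num))
    (exp_neg_leJ (r := 0.036) 4 (by norm_num) (by norm_num) (by norm_num) (by norm_num))
    (exp_neg_leJ (r := 0.99) 8 (by norm_num) (by norm_num) (by norm_num) (by norm_num))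
    (exp_neg_leJ (r := 0.99) 14 (by norm_num) (by norm_num) (by norm_num) (by norm_num))
    (exp_neg_leJ (r := 0.109) 7 (by norm_num) (by norm_num) (by norm_num) (by norm_num))
    (exp_neg_leJ (r := 0.99) 14 (by norm_num) (by norm_num) (by norm_num) (by norm_num))
    (exp_neg_leJ (r := 0.99) 14 (by norm_num) (by norm_num) (by norm_num) (by norm_num))
    (exp_neg_leJ (r := 0.99) 14 (by norm_num) (by norm_num) (by norm_num) (by norm_num))
    (by norm_num)) (by norm_num) hN hβ.le (by norm_num)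

private theorem B5Ko_T70_0_2 {β x y : ℝ} (hβ : 0 < β) (hN : β * 7.518 ≤ 1) (hx1 : 1.512 ≤ x) (hx2 : x ≤ 1.6)
    (hy1 : -0.1911 ≤ y) (hy2 : y ≤ -0.0919) : ‖HH β (x + y * I) - 1‖ ≤ 0.095 := by
  refine le_epsJ (C := 0.7142) (N0 := 7.518) (J_boxp 1.512 1.6 0.1911 0 (-0.0919) 1.639 1.6114 1.8398 0.6465 0.5412 2.7419 7.518 0.9832 4.015 1.567 0.6283 0.8194 0.5509 1.2242 2.5761 0.985 2.5935 4.0752 3.3558 0.002113 0.01591 0.0001008 0.0000003101 0.0006083 0.0000003101 0.0000003101 0.0000003101 0.7142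
    hβ hN hx1 hx2 hy1 hy2 (by norm_num) (by norm_num) (by linarith) (by norm_num) (by norm_num) (by norm_num) (by norm_num) (by norm_num) (by norm_num) (by norm_num) (by norm_num) (by norm_num) (by norm_num) (by norm_num) (by norm_num) (by norm_num) (by norm_num) (by norm_num) (by norm_num) (by norm_num) (by norm_num) (by norm_num) (by norm_num) (by norm_num)
    (cube_sqrt_geJ (s := 0.8199) (by norm_num) (by norm_num) (by norm_num) (by norm_num))
    (cube_sqrt_geJ (s := 0.9378) (by norm_num) (by norm_num) (by norm_num) (by norm_num))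
    (by norm_num) (by norm_num) (by norm_num) (by norm_num) (by norm_num) (by norm_num) (by norm_num) (by norm_num) (by norm_num) (by norm_num) (by norm_num) (by norm_num) (by norm_num) (by norm_num) (by norm_num) (by norm_num) (by norm_num) (by norm_num)
    (exp_neg_leJ (r := 0.16) 6 (by norm_num) (by norm_num) (by norm_num) (by norm_num))
    (exp_neg_leJ (r := 0.141) 4 (by norm_num) (by norm_num) (by norm_num) (by norm_num))
    (exp_neg_leJ (r := 0.203) 9 (by norm_num) (by norm_num) (by norm_num) (by norm_num))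
    (exp_neg_leJ (r := 0.99) 14 (by norm_num) (by norm_num) (by norm_num) (by norm_num))
    (exp_neg_leJ (r := 0.405) 7 (by norm_num) (by norm_num) (by norm_num) (by norm_num))
    (exp_neg_leJ (r := 0.99) 14 (by norm_num) (by norm_num) (by norm_num) (by norm_num))
    (exp_neg_leJ (r := 0.99) 14 (by norm_num) (by norm_num) (by norm_num) (by norm_num))
    (exp_neg_leJ (r := 0.99) 14 (by norm_num) (by norm_num) (by norm_num) (by norm_num))
    (by norm_num)) (by norm_num) hN hβ.le (by norm_num)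

private theorem B5Ko_T70_0_3 {β x y : ℝ} (hβ : 0 < β) (hN : β * 7.518 ≤ 1) (hx1 : 1.6 ≤ x) (hx2 : x ≤ 1.6074)
    (hy1 : -0.1911 ≤ y) (hy2 : y ≤ -0.0919) : ‖HH β (x + y * I) - 1‖ ≤ 0.095 := by
  refine le_epsJ (C := 0.6098) (N0 := 7.518) (J_boxp 1.6 1.6074 0.1911 0 (-0.0919) 1.7009 1.6188 1.8462 0.6126 0.5421 2.7419 7.518 0.9518 3.804 1.543 0.6254 0.8504 0.5806 1.2543 2.5719 1.0277 2.7153 4.2512 3.5117 0.001674 0.01273 0.00008037 0.0000003101 0.0004417 0.0000003101 0.0000003101 0.0000003101 0.6098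
    hβ hN hx1 hx2 hy1 hy2 (by norm_num) (by norm_num) (by linarith) (by norm_num) (by norm_num) (by norm_num) (by norm_num) (by norm_num) (by norm_num) (by norm_num) (by norm_num) (by norm_num) (by norm_num) (by norm_num) (by norm_num) (by norm_num) (by norm_num) (by norm_num) (by norm_num) (by norm_num) (by norm_num) (by norm_num) (by norm_num) (by norm_num)
    (cube_sqrt_geJ (s := 0.8262) (by norm_num) (by norm_num) (by norm_num) (by norm_num))
    (cube_sqrt_geJ (s := 0.9399) (by norm_num) (by norm_num) (by norm_num) (by norm_num))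
    (by norm_num) (by norm_num) (by norm_num) (by norm_num) (by norm_num) (by norm_num) (by norm_num) (by norm_num) (by norm_num) (by norm_num) (by norm_num) (by norm_num) (by norm_num) (by norm_num) (by norm_num) (by norm_num) (by norm_num) (by norm_num)
    (exp_neg_leJ (r := 0.393) 6 (by norm_num) (by norm_num) (by norm_num) (by norm_num))
    (exp_neg_leJ (r := 0.364) 4 (by norm_num) (by norm_num) (by norm_num) (by norm_num))
    (exp_neg_leJ (r := 0.429) 9 (by norm_num) (by norm_num) (by norm_num) (by norm_num))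
    (exp_neg_leJ (r := 0.99) 14 (by norm_num) (by norm_num) (by norm_num) (by norm_num))
    (exp_neg_leJ (r := 0.726) 7 (by norm_num) (by norm_num) (by norm_num) (by norm_num))
    (exp_neg_leJ (r := 0.99) 14 (by norm_num) (by norm_num) (by norm_num) (by norm_num))
    (exp_neg_leJ (r := 0.99) 14 (by norm_num) (by norm_num) (by norm_num) (by norm_num))
    (exp_neg_leJ (r := 0.99) 14 (by norm_num) (by norm_num) (by norm_num) (by norm_num))
    (by norm_num)) (by norm_num) hN hβ.le (by norm_num)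

private theorem B5Ko_T70 {β x y : ℝ} (hβ : 0 < β) (hN : β * 7.518 ≤ 1) (hx1 : 1.3569 ≤ x) (hx2 : x ≤ 1.6074)
    (hy1 : (-0.1911) ≤ y) (hy2 : y ≤ (-0.0919)) : ‖HH β (x + y * I) - 1‖ ≤ 0.095 := by
  rcases le_total x 1.431 with hxx | hxx
  · exact B5Ko_T70_0_0 hβ hN (by linarith) (by linarith) (by linarith) (by linarith)
  rcases le_total x 1.512 with hxx | hxx
  · exact B5Ko_T70_0_1 hβ hN (by linarith) (by linarith) (by linarith) (by linarith)
  rcases le_total x 1.6 with hxx | hxx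
  · exact B5Ko_T70_0_2 hβ hN (by linarith) (by linarith) (by linarith) (by linarith)
  exact B5Ko_T70_0_3 hβ hN (by linarith) (by linarith) (by linarith) (by linarith)

private theorem B5Ko_G71 {κ : ℝ} (hk1 : 1.25 ≤ κ) (hk2 : κ ≤ 1.33) : gG κ 0.43 ≤ 1.31267 ∧ 0.3186 ≤ Real.exp (-(κ * 0.43)) ^ 2 := by
  refine ⟨gG_le 0.43 1.25 1.33 1.31267 0.58421 0.56446 1.71173 1.77163 hk1 hk2 (by norm_num)
    (ex_um 0.5375 (by norm_num) (by norm_num) (by norm_num) (by norm_num)) (ex_um 0.5719 (by norm_num) (by norm_num) (by norm_num) (by norm_num))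
    (ex_up 0.5375 (by norm_num) (by norm_num) (by norm_num) (by norm_num)) (ex_up 0.5719 (by norm_num) (by norm_num) (by norm_num) (by norm_num))
    (by norm_num) (by norm_num), ?_⟩
  exact v5_M 0.56445 (ex_lm 0.5719 (by linarith) (by norm_num) (by norm_num) (by norm_num) (by norm_num)) (by norm_num) (by norm_num)

private theorem B5Ko_C72 {β r t κ : ℝ} (hβ : 0 < β) (hr : 10 ≤ r) (hκ : κ = β * r) (hk1 : 1.25 ≤ κ) (hk2 : κ ≤ 1.33) (hta : 2.1366 ≤ t + κ)
    (htb : t + κ ≤ 2.3247) : ‖F (cexp (I * β)) (r * cexp (I * ((t + β / 2 : ℝ) : ℂ)))‖ ≤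
      1.965 * Real.exp (r * (1.31267 - 0.43 * (t + κ))) + 0.2071 * Real.exp (r * 0) :=
  v5_H 0.43 1.25 1.33 2.1366 2.3247 1.31267 1.8116 0.3186 0.1455 2.3772 0.4959 0.06532 0.5228 0.000314 1.965 0.2071 hβ hr hκ (by norm_num) hk1 hk2 hta htb (by norm_num) (B5Ko_G71 hk1 hk2).1 (B5Ko_G71 hk1 hk2).2 (by norm_num) (by norm_num) (by norm_num)
    (by norm_num) (by norm_num) (by norm_num) (by norm_num) (by norm_num) (by norm_num) (by norm_num) (by norm_num) (ex_un 0 0.6531 (by norm_num) (by norm_num) (by norm_num) (by norm_num))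
    (v5_hump 1.1019 7.518 2.7419 0.0002526 0.000314 hβ hr hκ hk1 hk2 (by norm_num) htb (by norm_num) (by norm_num) (by norm_num) (by norm_num) (by norm_num) (by norm_num) (by norm_num) (ex_un 8 0.284 (by norm_num) (by norm_num) (by norm_num) (by norm_num)) (by norm_num)) (by norm_num) (by norm_num)

private theorem B5Ko_G73 {κ : ℝ} (hk1 : 1.25 ≤ κ) (hk2 : κ ≤ 1.33) : gG κ (-0.52) ≤ 1.37343 ∧ 3.66925 ≤ Real.exp (-(κ * (-0.52))) ^ 2 := by
  refine ⟨gG_le (-0.52) 1.25 1.33 1.37343 1.91555 1.99691 0.52205 0.50078 hk1 hk2 (by norm_num)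
    (ex_up 0.65 (by norm_num) (by norm_num) (by norm_num) (by norm_num)) (ex_up 0.6916 (by norm_num) (by norm_num) (by norm_num) (by norm_num))
    (ex_um 0.65 (by norm_num) (by norm_num) (by norm_num) (by norm_num)) (ex_um 0.6916 (by norm_num) (by norm_num) (by norm_num) (by norm_num))
    (by norm_num) (by norm_num), ?_⟩
  exact v5_M 1.91553 (ex_lp 0.65 (by linarith) (by norm_num) (by norm_num)) (by norm_num) (by norm_num)

private theorem B5Ko_C74 {β r t κ : ℝ} (hβ : 0 < β) (hr : 10 ≤ r) (hκ : κ = β * r) (hk1 : 1.25 ≤ κ) (hk2 : κ ≤ 1.33) (hta : (-1.6333) ≤ t + κ)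
    (htb : t + κ ≤ (-1.4452)) : ‖F (cexp (I * β)) (r * cexp (I * ((t + β / 2 : ℝ) : ℂ)))‖ ≤
      0.8068 * Real.exp (r * (1.37343 - (-0.52) * (t + κ))) + 1.6017 * Real.exp (r * 0.0501) :=
  v5_HU (-0.52) 1.25 1.33 (-1.6333) (-1.4452) 1.37343 0.8068 3.66925 0.1455 0.6845 1.7486 0 0.0501 0.00000116 1.6017 hβ hr hκ (by norm_num) hk1 hk2 hta htb (by norm_num) (by norm_num) (B5Ko_G73 hk1 hk2).1 (B5Ko_G73 hk1 hk2).2 (by norm_num) (by norm_num) (by norm_num)
    (by norm_num) (by norm_num) (by norm_num) (by norm_num) (by norm_num) (by norm_num) (by norm_num)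
    (by norm_num) (by norm_num) (by norm_num) (v5_hump 4.8718 7.518 2.7419 0.0000009316 0.00000116 hβ hr hκ hk1 hk2 (by norm_num) htb (by norm_num) (by norm_num) (by norm_num) (by norm_num) (by norm_num) (by norm_num) (by norm_num) (ex_un 13 0.9 (by norm_num) (by norm_num) (by norm_num) (by norm_num)) (by norm_num)) (by norm_num)

private theorem B5Ko_C75 {β r t κ : ℝ} (hβ : 0 < β) (hr : 10 ≤ r) (hκ : κ = β * r) (hk1 : 1.25 ≤ κ) (hk2 : κ ≤ 1.33) (hta : 3.3932 ≤ t + κ)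
    (htb : t + κ ≤ 3.5813) : ‖F (cexp (I * β)) (r * cexp (I * ((t + β / 2 : ℝ) : ℂ)))‖ ≤
      1.9546 * Real.exp (r * (0.1163 + 1 / 20)) :=
  v5_UD 1.25 1.33 3.3932 3.5813 0.01 0.3569 0.1163 1.019 1.9546 hβ hr hκ (by norm_num) hk1 hk2 hta htb (by norm_num) (by norm_num) (by norm_num) (by norm_num) (by norm_num) (by norm_num) (by norm_num) (by norm_num) (by norm_num) (by norm_num) (by norm_num)

private theorem B5Ko_Y76 {β r t κ h t' : ℝ} (hβ : 0 < β) (hκ : κ = β * r) (hN : β * 7.518 ≤ 1) (hk1 : 1.25 ≤ κ) (hk2 : κ ≤ 1.33)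
    (ht : t' = t + (((0 : ℤ) : ℝ) - 1) * h) (hD : DomR κ t') (hta : (-0.3767) ≤ t' + κ) (htb : t' + κ ≤ (-0.1886)) :
    0.6761 * Real.exp (r * sE κ t') ≤ ‖Xf β r h t 0‖ := by
  obtain ⟨⟨ya, yb⟩, ⟨xa, xb⟩, n1, Da, Db⟩ := B5Ko_B69 hD hk1 hk2 hta htb
  have J := B5Ko_T70 (x := sx κ t') (y := sy κ t') hβ hN (by linarith only [xa, xb, ya, yb]) (by linarith only [xa, xb, ya, yb]) (by linarith only [xa, xb, ya, yb]) (by linarith only [xa, xb, ya, yb])
  exact v5_Jlo hβ hκ (k := 0) ht hD 0.095 3.2099 0.6761 (by norm_num) J Db (by norm_num)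

private theorem B5Ko_V77 {κ t : ℝ} (hD : DomR κ t) (hk1 : 1.25 ≤ κ) (hk2 : κ ≤ 1.33) (hta : (-0.3767) ≤ t + κ) (htb : t + κ ≤ (-0.1886)) :
    1.01442 + 0.1148 * (t + κ) ≤ sE κ t := by
  have hκ0 : 0 < κ := hD.1
  exact v5_V0 hD 1.25 1.33 (-0.3767) (-0.1886) 0.3768 0.5203 0.04561 0.18596 0.05944 0.51903 1.01442 0.1148 (by norm_num) hk1 hk2 (by norm_num) hta htb (by norm_num) (by norm_num) (by norm_num) ((cup2 1.25 (by norm_num) hk1).trans (by norm_num))
      (by norm_num) (by norm_num) (by norm_num) (by norm_num) (by norm_num) (by norm_num) (by norm_num) (by norm_num) (by norm_num) (by norm_num) (by norm_num) (by norm_num) (by norm_num)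

private theorem B5Ko_K78 {β r t κ h : ℝ} (hβ : 0 < β) (hr : 10 ≤ r) (hκ : κ = β * r) (hk1 : 1.25 ≤ κ) (hk2 : κ ≤ 1.33)
    (hh : h = 2 * Real.pi / 5) (hh1 : 1.25663 ≤ h) (hh2 : h ≤ 1.25664) (hta : 0.88 ≤ t + κ) (htb : t + κ ≤ 1.068)
    (hY : 0.6761 * Real.exp (r * sE κ (t - h)) ≤ ‖Xf β r h t 0‖) (hV : 1.01442 + 0.1148 * (t - h + κ) ≤ sE κ (t - h)) :
    ‖Xf β r h t 2‖ ≤ 0.00915 * ‖Xf β r h t 0‖ := by
  rw [v5_X 2 1 (by push_cast; ring)]
  exact v5_cmp 0.5772 0.00314 0.00913 0.9711 0.00006099 0.0000187 0.00915 hr (B5Ko_C72 (t := t + 1 * h) hβ hr hκ hk1 hk2 (by linarith only [hta, htb, hh1, hh2]) (by linarith only [hta, htb, hh1, hh2])) hY (by norm_num) (by norm_num) (by norm_num) (by norm_num) (by linarith only [hV, hta, htb, hh1, hh2]) (ex_un 5 0.7719 (by norm_num) (by norm_num) (by norm_num) (by norm_num)) (by norm_num) (by norm_num) (by linarith only [hV, hta, htb, hh1, hh2]) (ex_un 9 0.7109 (by norm_num) (by norm_num) (by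 norm_num) (by norm_num)) (by norm_num) (by norm_num)

private theorem B5Ko_K79 {β r t κ h : ℝ} (hβ : 0 < β) (hr : 10 ≤ r) (hκ : κ = β * r) (hk1 : 1.25 ≤ κ) (hk2 : κ ≤ 1.33)
    (hh : h = 2 * Real.pi / 5) (hh1 : 1.25663 ≤ h) (hh2 : h ≤ 1.25664) (hta : 0.88 ≤ t + κ) (htb : t + κ ≤ 1.068)
    (hY : 0.6761 * Real.exp (r * sE κ (t - h)) ≤ ‖Xf β r h t 0‖) (hV : 1.01442 + 0.1148 * (t - h + κ) ≤ sE κ (t - h)) :
    ‖Xf β r h t (-1)‖ ≤ 0.0298 * ‖Xf β r h t 0‖ := by
  rw [v5_X (-1) (-2) (by push_cast; ring)]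
  exact v5_cmp 0.3708 0.02468 0.0295 0.921 0.0001001 0.000238 0.0298 hr (B5Ko_C74 (t := t + (-2) * h) hβ hr hκ hk1 hk2 (by linarith only [hta, htb, hh1, hh2]) (by linarith only [hta, htb, hh1, hh2])) hY (by norm_num) (by norm_num) (by norm_num) (by norm_num) (by linarith only [hV, hta, htb, hh1, hh2]) (ex_un 3 0.7079 (by norm_num) (by norm_num) (by norm_num) (by norm_num)) (by norm_num) (by norm_num) (by linarith only [hV, hta, htb, hh1, hh2]) (ex_un 9 0.2099 (by norm_num) (by norm_num) (by norm_num) (by norm_num)) (by norm_num) (by norm_num)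

private theorem B5Ko_K80 {β r t κ h : ℝ} (hβ : 0 < β) (hr : 10 ≤ r) (hκ : κ = β * r) (hk1 : 1.25 ≤ κ) (hk2 : κ ≤ 1.33)
    (hh : h = 2 * Real.pi / 5) (hh1 : 1.25663 ≤ h) (hh2 : h ≤ 1.25664) (hta : 0.88 ≤ t + κ) (htb : t + κ ≤ 1.068)
    (hY : 0.6761 * Real.exp (r * sE κ (t - h)) ≤ ‖Xf β r h t 0‖) (hV : 1.01442 + 0.1148 * (t - h + κ) ≤ sE κ (t - h)) :
    ‖Xf β r h t (-2)‖ ≤ 0.000925 * ‖Xf β r h t 0‖ := by
  rw [v5_Xm2 hh]
  exact v5_cmp0 0.8048 0.0003198 0.000925 hr (B5Ko_C75 (t := t + 2 * h) hβ hr hκ hk1 hk2 (by linarith only [hta, htb, hh1, hh2]) (by linarith only [hta, htb, hh1, hh2])) hY (by norm_num) (by norm_num) (by norm_num) (by linarith only [hV, hta, htb, hh1, hh2]) (ex_un 8 0.0479 (by norm_num) (by norm_num) (by norm_num) (by norm_num)) (by norm_num)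

private theorem B5Ko_C81 {β r t κ : ℝ} (hβ : 0 < β) (hr : 10 ≤ r) (hκ : κ = β * r) (hk1 : 1.25 ≤ κ) (hk2 : κ ≤ 1.33) (hta : 0.8799 ≤ t + κ)
    (htb : t + κ ≤ 1.0681) : ‖F (cexp (I * β)) (r * cexp (I * ((t + β / 2 : ℝ) : ℂ)))‖ ≤
      1.3245 * Real.exp (r * (1.08597 - 0.24 * (t + κ))) + 0.2754 * Real.exp (r * 0) :=
  v5_H 0.24 1.25 1.33 0.8799 1.0681 1.08597 1.3227 0.52813 0.1455 1.1205 1.7525 0.38977 0.02057 0.00000116 1.3245 0.2754 hβ hr hκ (by norm_num) hk1 hk2 hta htb (by norm_num) (B5Ko_G63 hk1 hk2).1 (B5Ko_G63 hk1 hk2).2 (by norm_num) (by norm_num) (by norm_num)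
    (by norm_num) (by norm_num) (by norm_num) (by norm_num) (by norm_num) (by norm_num) (by norm_num) (by norm_num) (ex_un 3 0.8976 (by norm_num) (by norm_num) (by norm_num) (by norm_num))
    (v5_hump 2.3585 7.518 2.7419 0.0000009316 0.00000116 hβ hr hκ hk1 hk2 (by norm_num) htb (by norm_num) (by norm_num) (by norm_num) (by norm_num) (by norm_num) (by norm_num) (by norm_num) (ex_un 13 0.9 (by norm_num) (by norm_num) (by norm_num) (by norm_num)) (by norm_num)) (by norm_num) (by norm_num)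

private theorem B5Ko_K82 {β r t κ h : ℝ} (hβ : 0 < β) (hr : 10 ≤ r) (hκ : κ = β * r) (hk1 : 1.25 ≤ κ) (hk2 : κ ≤ 1.33)
    (hh : h = 2 * Real.pi / 5) (hh1 : 1.25663 ≤ h) (hh2 : h ≤ 1.25664) (hta : 0.88 ≤ t + κ) (htb : t + κ ≤ 1.068)
    (hY : 0.6761 * Real.exp (r * sE κ (t - h)) ≤ ‖Xf β r h t 0‖) (hV : 1.01442 + 0.1148 * (t - h + κ) ≤ sE κ (t - h)) :
    ‖Xf β r h t 1‖ ≤ 0.762 * ‖Xf β r h t 0‖ := by
  rw [v5_X 1 0 (by push_cast; ring)]
  exact v5_cmp 0.0964 0.388 0.761 0.9711 0.00006099 0.0000249 0.762 hr (B5Ko_C81 (t := t + 0 * h) hβ hr hκ hk1 hk2 (by linarith only [hta, htb, hh1, hh2]) (by linarith only [hta, htb, hh1, hh2])) hY (by norm_num) (by norm_num) (by norm_num) (by norm_num) (by linarith only [hV, hta, htb, hh1, hh2]) (ex_un 0 0.9639 (by norm_num) (by norm_num) (by norm_num) (by norm_num)) (by norm_num) (by norm_num) (by linarith only [hV, hta, htb, hh1, hh2]) (ex_un 9 0.7109 (by norm_num) (by norm_num) (by norm_num)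 (by norm_num)) (by norm_num) (by norm_num)

private theorem B5Ko_O83 {β r t κ h : ℝ} (hβ : 0 < β) (hr : 10 ≤ r) (hκ : κ = β * r) (hk1 : 1.25 ≤ κ) (hk2 : κ ≤ 1.33)
    (hh : h = 2 * Real.pi / 5) (hta : 0.88 ≤ t + κ) (htb : t + κ ≤ 1.068) :
    ‖Xf β r h t (-2)‖ + ‖Xf β r h t (-1)‖ + ‖Xf β r h t 2‖ < |‖Xf β r h t 1‖ - ‖Xf β r h t 0‖| := by
  obtain ⟨hh1, hh2⟩ := v5_h hh
  have hκ0 : 0 < κ := by linarith only [hk1]
  have hN : β * 7.518 ≤ 1 := v5_hN 1.33 7.518 hβ hr hκ hk2 (by norm_num) (by norm_num)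
  have hD1 : DomR κ t := v5_dom hκ0 (by linarith only [hta, htb, hk1, hk2, hh1, hh2]) (Or.inr (by linarith only [hta, htb, hk1, hk2, hh1, hh2]))
  have hD0 : DomR κ (t - h) := v5_dom hκ0 (by linarith only [hta, htb, hk1, hk2, hh1, hh2]) (Or.inl (by linarith only [hk1]))
  have h0a : (-0.3767) ≤ t - h + κ := by linarith only [hta, htb, hh1, hh2]
  have h0b : t - h + κ ≤ (-0.1886) := by linarith only [hta, htb, hh1, hh2]
  have e0 : t - h = t + (((0 : ℤ) : ℝ) - 1) * h := by push_cast; ring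
  have hY := B5Ko_Y76 (h := h) hβ hκ hN hk1 hk2 e0 hD0 h0a h0b
  have hV := B5Ko_V77 hD0 hk1 hk2 h0a h0b
  have cp2 := B5Ko_K78 hβ hr hκ hk1 hk2 hh hh1 hh2 hta htb hY hV
  have cm1 := B5Ko_K79 hβ hr hκ hk1 hk2 hh hh1 hh2 hta htb hY hV
  have cm2 := B5Ko_K80 hβ hr hκ hk1 hk2 hh hh1 hh2 hta htb hY hV
  have cn1 := B5Ko_K82 hβ hr hκ hk1 hk2 hh hh1 hh2 hta htb hY hV
  have hp : 0 < ‖Xf β r h t 0‖ := lt_of_lt_of_le (by positivity) hY
  exact v5_out0 _ _ _ _ cm2 cm1 cp2 cn1 hp (by norm_num)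

private theorem B5Ko_B84 {κ t : ℝ} (h : DomR κ t) (hk1 : 1.25 ≤ κ) (hk2 : κ ≤ 1.33) (ht1 : (-0.1887) ≤ t + κ) (ht2 : t + κ ≤ 0.0629) :
    ((-0.095) ≤ sy κ t ∧ sy κ t ≤ 0.031) ∧ (1.2081 ≤ sx κ t ∧ sx κ t ≤ 1.4626) ∧ κ * Real.exp (-sy κ t) ≤ 1.4626 ∧ 2.5305 ≤ sD κ t ∧ sD κ t ≤ 2.9491 := by
  have hy1 : -0.095 ≤ sy κ t := syL_ge h 1.25 1.33 0.1887 0.095 0.90937 0.90938 0.0639 0.06495 0.06912 hk1 hk2 (by linarith) (by norm_num) (by norm_num) (by norm_num)
    (expm_ge (by norm_num) (by norm_num) (by norm_num) (by norm_num)) (expm_le (by norm_num) (by norm_num) (by norm_num)) (by norm_num)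
    (by norm_num) (by norm_num) (by norm_num) (by norm_num) (by norm_num) (by norm_num)
  have hy2 : sy κ t ≤ 0.031 := syR_le h 1.25 1.33 0.0629 0.031 1.03148 0.0236 0.02404 0.02559 hk1 hk2 (by linarith) (by norm_num) (by norm_num)
    (expn_ge (by norm_num) (by norm_num)) (by norm_num) (by norm_num) (Or.inr ((mul_le_mul_of_nonneg_left (expn_le (E := 1.03149) (by norm_num) (by norm_num) (by norm_num)) (by norm_num)).trans (by norm_num))) (by norm_num) (by norm_num) (by norm_num)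
  have hy1' : (-0.095) ≤ sy κ t := by linarith
  have hy2' : sy κ t ≤ 0.031 := by linarith
  have hx1 : 1.2081 ≤ sx κ t := sx_lo h 1.25 0.031 0.0951 0.96947 1.2081 hk1 (by norm_num) hy2' (abs_le.2 ⟨by linarith, by linarith⟩) (ex_lm 0.031 (by norm_num) (by norm_num) (by norm_num) (by norm_num) (by norm_num)) (by norm_num) (by norm_num)
  have hx2 : sx κ t ≤ 1.4626 := sx_hi h 1.33 (-0.095) 0 1.09966 1.4626 hk2 hy1' (by norm_num) (abs_nonneg _) (ex_up 0.095 (by norm_num) (by norm_num) (by norm_num) (by norm_num)) (by norm_num) (by norm_num)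
  refine ⟨⟨hy1', hy2'⟩, ⟨hx1, hx2⟩, v5_n h 1.33 (-0.095) 1.09966 1.4626 hk2 hy1' (ex_up 0.095 (by norm_num) (by norm_num) (by norm_num) (by norm_num)) (by norm_num), ?_, ?_⟩
  · exact v5_Dlo h 1.25 (-0.095) 0.031 0.031 0.96947 2.5305 (by norm_num) hk1 hy1' hy2' (ex_lm 0.031 (by norm_num) (by norm_num) (by norm_num) (by norm_num) (by norm_num)) (by norm_num) (by norm_num) (by norm_num) (by norm_num)
  · exact v5_Dup h 1.33 (-0.095) 0.031 1.09966 0.96948 2.9491 hk2 hy1' hy2' (ex_up 0.095 (by norm_num) (by norm_num) (by norm_num) (by norm_num)) (ex_um 0.031 (by norm_num) (by norm_num) (by norm_num) (by norm_num)) (by norm_num) (by norm_num) (by norm_num)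

private theorem B5Ko_T85_0_0 {β x y : ℝ} (hβ : 0 < β) (hN : β * 7.518 ≤ 1) (hx1 : 1.208 ≤ x) (hx2 : x ≤ 1.284)
    (hy1 : -0.0951 ≤ y) (hy2 : y ≤ 0.0311) : ‖HH β (x + y * I) - 1‖ ≤ 0.08 := by
  refine le_epsJ (C := 0.6009) (N0 := 7.518) (J_boxp 1.208 1.284 0.0951 0.0311 0.0311 1.4931 1.2876 1.6468 0.7034 0.512 2.7419 7.518 0.8624 3.275 1.478 0.8384 0.7465 0.5319 1.2716 3.0623 0.8866 2.1694 3.5948 3.4814 0.003656 0.01857 0.00007059 0.0000003101 0.001276 0.0000003101 0.0000003101 0.0000003101 0.6009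
    hβ hN hx1 hx2 hy1 hy2 (by norm_num) (by norm_num) (by linarith) (by norm_num) (by norm_num) (by norm_num) (by norm_num) (by norm_num) (by norm_num) (by norm_num) (by norm_num) (by norm_num) (by norm_num) (by norm_num) (by norm_num) (by norm_num) (by norm_num) (by norm_num) (by norm_num) (by norm_num) (by norm_num) (by norm_num) (by norm_num) (by norm_num)
    (cube_sqrt_geJ (s := 0.8441) (by norm_num) (by norm_num) (by norm_num) (by norm_num))
    (cube_sqrt_geJ (s := 0.9457) (by norm_num) (by norm_num) (by norm_num) (by norm_num))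
    (by norm_num) (by norm_num) (by norm_num) (by norm_num) (by norm_num) (by norm_num) (by norm_num) (by norm_num) (by norm_num) (by norm_num) (by norm_num) (by norm_num) (by norm_num) (by norm_num) (by norm_num) (by norm_num) (by norm_num) (by norm_num)
    (exp_neg_leJ (r := 0.612) 5 (by norm_num) (by norm_num) (by norm_num) (by norm_num))
    (exp_neg_leJ (r := 0.99) 3 (by norm_num) (by norm_num) (by norm_num) (by norm_num))
    (exp_neg_leJ (r := 0.559) 9 (by norm_num) (by norm_num) (by norm_num) (by norm_num))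
    (exp_neg_leJ (r := 0.99) 14 (by norm_num) (by norm_num) (by norm_num) (by norm_num))
    (exp_neg_leJ (r := 0.665) 6 (by norm_num) (by norm_num) (by norm_num) (by norm_num))
    (exp_neg_leJ (r := 0.99) 14 (by norm_num) (by norm_num) (by norm_num) (by norm_num))
    (exp_neg_leJ (r := 0.99) 14 (by norm_num) (by norm_num) (by norm_num) (by norm_num))
    (exp_neg_leJ (r := 0.99) 14 (by norm_num) (by norm_num) (by norm_num) (by norm_num))
    (by norm_num)) (by norm_num) hN hβ.le (by norm_num)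

private theorem B5Ko_T85_0_1 {β x y : ℝ} (hβ : 0 < β) (hN : β * 7.518 ≤ 1) (hx1 : 1.284 ≤ x) (hx2 : x ≤ 1.366)
    (hy1 : -0.0951 ≤ y) (hy2 : y ≤ 0.0311) : ‖HH β (x + y * I) - 1‖ ≤ 0.08 := by
  refine le_epsJ (C := 0.6008) (N0 := 7.518) (J_boxp 1.284 1.366 0.0951 0.0311 0.0311 1.5466 1.3694 1.7115 0.6802 0.522 2.7419 7.518 0.8855 3.402 1.495 0.8069 0.7732 0.545 1.2976 3.0149 0.9235 2.2746 3.7468 3.4111 0.002996 0.01663 0.00005807 0.0000003101 0.0009692 0.0000003101 0.0000003101 0.0000003101 0.6008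
    hβ hN hx1 hx2 hy1 hy2 (by norm_num) (by norm_num) (by linarith) (by norm_num) (by norm_num) (by norm_num) (by norm_num) (by norm_num) (by norm_num) (by norm_num) (by norm_num) (by norm_num) (by norm_num) (by norm_num) (by norm_num) (by norm_num) (by norm_num) (by norm_num) (by norm_num) (by norm_num) (by norm_num) (by norm_num) (by norm_num) (by norm_num)
    (cube_sqrt_geJ (s := 0.8395) (by norm_num) (by norm_num) (by norm_num) (by norm_num))
    (cube_sqrt_geJ (s := 0.9442) (by norm_num) (by norm_num) (by norm_num) (by norm_num))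
    (by norm_num) (by norm_num) (by norm_num) (by norm_num) (by norm_num) (by norm_num) (by norm_num) (by norm_num) (by norm_num) (by norm_num) (by norm_num) (by norm_num) (by norm_num) (by norm_num) (by norm_num) (by norm_num) (by norm_num) (by norm_num)
    (exp_neg_leJ (r := 0.812) 5 (by norm_num) (by norm_num) (by norm_num) (by norm_num))
    (exp_neg_leJ (r := 0.097) 4 (by norm_num) (by norm_num) (by norm_num) (by norm_num))
    (exp_neg_leJ (r := 0.755) 9 (by norm_num) (by norm_num) (by norm_num) (by norm_num))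
    (exp_neg_leJ (r := 0.99) 14 (by norm_num) (by norm_num) (by norm_num) (by norm_num))
    (exp_neg_leJ (r := 0.942) 6 (by norm_num) (by norm_num) (by norm_num) (by norm_num))
    (exp_neg_leJ (r := 0.99) 14 (by norm_num) (by norm_num) (by norm_num) (by norm_num))
    (exp_neg_leJ (r := 0.99) 14 (by norm_num) (by norm_num) (by norm_num) (by norm_num))
    (exp_neg_leJ (r := 0.99) 14 (by norm_num) (by norm_num) (by norm_num) (by norm_num))
    (by norm_num)) (by norm_num) hN hβ.le (by norm_num)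

private theorem B5Ko_T85_0_2 {β x y : ℝ} (hβ : 0 < β) (hN : β * 7.518 ≤ 1) (hx1 : 1.366 ≤ x) (hx2 : x ≤ 1.453)
    (hy1 : -0.0951 ≤ y) (hy2 : y ≤ 0.0311) : ‖HH β (x + y * I) - 1‖ ≤ 0.08 := by
  refine le_epsJ (C := 0.6009) (N0 := 7.518) (J_boxp 1.366 1.453 0.0951 0.0311 0.0311 1.6043 1.4562 1.7817 0.6569 0.5326 2.7419 7.518 0.9077 3.53 1.511 0.7734 0.8021 0.5594 1.3257 2.9646 0.9633 2.3882 3.9108 3.3391 0.002406 0.01493 0.00004712 0.0000003101 0.0007159 0.0000003101 0.0000003101 0.0000003101 0.6009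
    hβ hN hx1 hx2 hy1 hy2 (by norm_num) (by norm_num) (by linarith) (by norm_num) (by norm_num) (by norm_num) (by norm_num) (by norm_num) (by norm_num) (by norm_num) (by norm_num) (by norm_num) (by norm_num) (by norm_num) (by norm_num) (by norm_num) (by norm_num) (by norm_num) (by norm_num) (by norm_num) (by norm_num) (by norm_num) (by norm_num) (by norm_num)
    (cube_sqrt_geJ (s := 0.8351) (by norm_num) (by norm_num) (by norm_num) (by norm_num))
    (cube_sqrt_geJ (s := 0.9427) (by norm_num) (by norm_num) (by norm_num) (by norm_num))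
    (by norm_num) (by norm_num) (by norm_num) (by norm_num) (by norm_num) (by norm_num) (by norm_num) (by norm_num) (by norm_num) (by norm_num) (by norm_num) (by norm_num) (by norm_num) (by norm_num) (by norm_num) (by norm_num) (by norm_num) (by norm_num)
    (exp_neg_leJ (r := 0.03) 6 (by norm_num) (by norm_num) (by norm_num) (by norm_num))
    (exp_neg_leJ (r := 0.205) 4 (by norm_num) (by norm_num) (by norm_num) (by norm_num))
    (exp_neg_leJ (r := 0.966) 9 (by norm_num) (by norm_num) (by norm_num) (by norm_num))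
    (exp_neg_leJ (r := 0.99) 14 (by norm_num) (by norm_num) (by norm_num) (by norm_num))
    (exp_neg_leJ (r := 0.242) 7 (by norm_num) (by norm_num) (by norm_num) (by norm_num))
    (exp_neg_leJ (r := 0.99) 14 (by norm_num) (by norm_num) (by norm_num) (by norm_num))
    (exp_neg_leJ (r := 0.99) 14 (by norm_num) (by norm_num) (by norm_num) (by norm_num))
    (exp_neg_leJ (r := 0.99) 14 (by norm_num) (by norm_num) (by norm_num) (by norm_num))
    (by norm_num)) (by norm_num) hN hβ.le (by norm_num)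

private theorem B5Ko_T85_0_3 {β x y : ℝ} (hβ : 0 < β) (hN : β * 7.518 ≤ 1) (hx1 : 1.453 ≤ x) (hx2 : x ≤ 1.4627)
    (hy1 : -0.0951 ≤ y) (hy2 : y ≤ 0.0311) : ‖HH β (x + y * I) - 1‖ ≤ 0.08 := by
  refine le_epsJ (C := 0.5164) (N0 := 7.518) (J_boxp 1.453 1.4627 0.0951 0.0311 0.0311 1.6656 1.4658 1.7896 0.6224 0.5337 2.7419 7.518 0.8801 3.372 1.491 0.7697 0.8327 0.5884 1.3555 2.9591 1.0056 2.5086 4.0848 3.487 0.001912 0.012 0.00003755 0.0000003101 0.0005211 0.0000003101 0.0000003101 0.0000003101 0.5164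
    hβ hN hx1 hx2 hy1 hy2 (by norm_num) (by norm_num) (by linarith) (by norm_num) (by norm_num) (by norm_num) (by norm_num) (by norm_num) (by norm_num) (by norm_num) (by norm_num) (by norm_num) (by norm_num) (by norm_num) (by norm_num) (by norm_num) (by norm_num) (by norm_num) (by norm_num) (by norm_num) (by norm_num) (by norm_num) (by norm_num) (by norm_num)
    (cube_sqrt_geJ (s := 0.8406) (by norm_num) (by norm_num) (by norm_num) (by norm_num))
    (cube_sqrt_geJ (s := 0.9445) (by norm_num) (by norm_num) (by norm_num) (by norm_num))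
    (by norm_num) (by norm_num) (by norm_num) (by norm_num) (by norm_num) (by norm_num) (by norm_num) (by norm_num) (by norm_num) (by norm_num) (by norm_num) (by norm_num) (by norm_num) (by norm_num) (by norm_num) (by norm_num) (by norm_num) (by norm_num)
    (exp_neg_leJ (r := 0.26) 6 (by norm_num) (by norm_num) (by norm_num) (by norm_num))
    (exp_neg_leJ (r := 0.423) 4 (by norm_num) (by norm_num) (by norm_num) (by norm_num))
    (exp_neg_leJ (r := 0.19) 10 (by norm_num) (by norm_num) (by norm_num) (by norm_num))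
    (exp_neg_leJ (r := 0.99) 14 (by norm_num) (by norm_num) (by norm_num) (by norm_num))
    (exp_neg_leJ (r := 0.56) 7 (by norm_num) (by norm_num) (by norm_num) (by norm_num))
    (exp_neg_leJ (r := 0.99) 14 (by norm_num) (by norm_num) (by norm_num) (by norm_num))
    (exp_neg_leJ (r := 0.99) 14 (by norm_num) (by norm_num) (by norm_num) (by norm_num))
    (exp_neg_leJ (r := 0.99) 14 (by norm_num) (by norm_num) (by norm_num) (by norm_num))
    (by norm_num)) (by norm_num) hN hβ.le (by norm_num)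

private theorem B5Ko_T85 {β x y : ℝ} (hβ : 0 < β) (hN : β * 7.518 ≤ 1) (hx1 : 1.208 ≤ x) (hx2 : x ≤ 1.4627)
    (hy1 : (-0.0951) ≤ y) (hy2 : y ≤ 0.0311) : ‖HH β (x + y * I) - 1‖ ≤ 0.08 := by
  rcases le_total x 1.284 with hxx | hxx
  · exact B5Ko_T85_0_0 hβ hN (by linarith) (by linarith) (by linarith) (by linarith)
  rcases le_total x 1.366 with hxx | hxx
  · exact B5Ko_T85_0_1 hβ hN (by linarith) (by linarith) (by linarith) (by linarith)
  rcases le_total x 1.453 with hxx | hxx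
  · exact B5Ko_T85_0_2 hβ hN (by linarith) (by linarith) (by linarith) (by linarith)
  exact B5Ko_T85_0_3 hβ hN (by linarith) (by linarith) (by linarith) (by linarith)

private theorem B5Ko_G86 {κ : ℝ} (hk1 : 1.25 ≤ κ) (hk2 : κ ≤ 1.33) : gG κ 0.44 ≤ 1.33067 ∧ 0.31023 ≤ Real.exp (-(κ * 0.44)) ^ 2 := by
  refine ⟨gG_le 0.44 1.25 1.33 1.33067 0.57696 0.557 1.73326 1.79536 hk1 hk2 (by norm_num)
    (ex_um 0.55 (by norm_num) (by norm_num) (by norm_num) (by norm_num)) (ex_um 0.5852 (by norm_num) (by norm_num) (by norm_num) (by norm_num))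
    (ex_up 0.55 (by norm_num) (by norm_num) (by norm_num) (by norm_num)) (ex_up 0.5852 (by norm_num) (by norm_num) (by norm_num) (by norm_num))
    (by norm_num) (by norm_num), ?_⟩
  exact v5_M 0.55699 (ex_lm 0.5852 (by linarith) (by norm_num) (by norm_num) (by norm_num) (by norm_num)) (by norm_num) (by norm_num)

private theorem B5Ko_C87 {β r t κ : ℝ} (hβ : 0 < β) (hr : 10 ≤ r) (hκ : κ = β * r) (hk1 : 1.25 ≤ κ) (hk2 : κ ≤ 1.33) (hta : 2.3246 ≤ t + κ)
    (htb : t + κ ≤ 2.5762) : ‖F (cexp (I * β)) (r * cexp (I * ((t + β / 2 : ℝ) : ℂ)))‖ ≤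
      2.2214 * Real.exp (r * (1.33067 - 0.44 * (t + κ))) + 0.2044 * Real.exp (r * 0) :=
  v5_H 0.44 1.25 1.33 2.3246 2.5762 1.33067 1.8746 0.31023 0.1455 2.5652 0.2444 0.05431 0.5824 0.00208 2.2214 0.2044 hβ hr hκ (by norm_num) hk1 hk2 hta htb (by norm_num) (B5Ko_G86 hk1 hk2).1 (B5Ko_G86 hk1 hk2).2 (by norm_num) (by norm_num) (by norm_num)
    (by norm_num) (by norm_num) (by norm_num) (by norm_num) (by norm_num) (by norm_num) (by norm_num) (by norm_num) (ex_un 0 0.543 (by norm_num) (by norm_num) (by norm_num) (by norm_num))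
    (v5_hump 0.8504 7.518 2.7419 0.001674 0.00208 hβ hr hκ hk1 hk2 (by norm_num) htb (by norm_num) (by norm_num) (by norm_num) (by norm_num) (by norm_num) (by norm_num) (by norm_num) (ex_un 6 0.3933 (by norm_num) (by norm_num) (by norm_num) (by norm_num)) (by norm_num)) (by norm_num) (by norm_num)

private theorem B5Ko_G88 {κ : ℝ} (hk1 : 1.25 ≤ κ) (hk2 : κ ≤ 1.33) : gG κ (-0.45) ≤ 1.27685 ∧ 3.0802 ≤ Real.exp (-(κ * (-0.45))) ^ 2 := by
  refine ⟨gG_le (-0.45) 1.25 1.33 1.27685 1.75506 1.81939 0.56979 0.54964 hk1 hk2 (by norm_num)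
    (ex_up 0.5625 (by norm_num) (by norm_num) (by norm_num) (by norm_num)) (ex_up 0.5985 (by norm_num) (by norm_num) (by norm_num) (by norm_num))
    (ex_um 0.5625 (by norm_num) (by norm_num) (by norm_num) (by norm_num)) (ex_um 0.5985 (by norm_num) (by norm_num) (by norm_num) (by norm_num))
    (by norm_num) (by norm_num), ?_⟩
  exact v5_M 1.75505 (ex_lp 0.5625 (by linarith) (by norm_num) (by norm_num)) (by norm_num) (by norm_num)

private theorem B5Ko_C89 {β r t κ : ℝ} (hβ : 0 < β) (hr : 10 ≤ r) (hκ : κ = β * r) (hk1 : 1.25 ≤ κ) (hk2 : κ ≤ 1.33) (hta : (-1.4453) ≤ t + κ)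
    (htb : t + κ ≤ (-1.1937)) : ‖F (cexp (I * β)) (r * cexp (I * ((t + β / 2 : ℝ) : ℂ)))‖ ≤
      0.8411 * Real.exp (r * (1.27685 - (-0.45) * (t + κ))) + 1.5299 * Real.exp (r * 0.0501) :=
  v5_HU (-0.45) 1.25 1.33 (-1.4453) (-1.1937) 1.27685 0.8411 3.0802 0.1455 0.6845 1.9366 0 0.0501 0.00000116 1.5299 hβ hr hκ (by norm_num) hk1 hk2 hta htb (by norm_num) (by norm_num) (B5Ko_G88 hk1 hk2).1 (B5Ko_G88 hk1 hk2).2 (by norm_num) (by norm_num) (by norm_num)
    (by norm_num) (by norm_num) (by norm_num) (by norm_num) (by norm_num) (by norm_num) (by norm_num)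
    (by norm_num) (by norm_num) (by norm_num) (v5_hump 4.6203 7.518 2.7419 0.0000009316 0.00000116 hβ hr hκ hk1 hk2 (by norm_num) htb (by norm_num) (by norm_num) (by norm_num) (by norm_num) (by norm_num) (by norm_num) (by norm_num) (ex_un 13 0.9 (by norm_num) (by norm_num) (by norm_num) (by norm_num)) (by norm_num)) (by norm_num)

private theorem B5Ko_C90 {β r t κ : ℝ} (hβ : 0 < β) (hr : 10 ≤ r) (hκ : κ = β * r) (hk1 : 1.25 ≤ κ) (hk2 : κ ≤ 1.33) (hta : 3.5812 ≤ t + κ)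
    (htb : t + κ ≤ 3.8328) : ‖F (cexp (I * β)) (r * cexp (I * ((t + β / 2 : ℝ) : ℂ)))‖ ≤
      1.9051 * Real.exp (r * (0.3054 + 1 / 20)) :=
  v5_UD 1.25 1.33 3.5812 3.8328 0.01 0.3569 0.3054 0.9932 1.9051 hβ hr hκ (by norm_num) hk1 hk2 hta htb (by norm_num) (by norm_num) (by norm_num) (by norm_num) (by norm_num) (by norm_num) (by norm_num) (by norm_num) (by norm_num) (by norm_num) (by norm_num)

private theorem B5Ko_Y91 {β r t κ h t' : ℝ} (hβ : 0 < β) (hκ : κ = β * r) (hN : β * 7.518 ≤ 1) (hk1 : 1.25 ≤ κ) (hk2 : κ ≤ 1.33)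
    (ht : t' = t + (((0 : ℤ) : ℝ) - 1) * h) (hD : DomR κ t') (hta : (-0.1887) ≤ t' + κ) (htb : t' + κ ≤ 0.0629) :
    0.702 * Real.exp (r * sE κ t') ≤ ‖Xf β r h t 0‖ := by
  obtain ⟨⟨ya, yb⟩, ⟨xa, xb⟩, n1, Da, Db⟩ := B5Ko_B84 hD hk1 hk2 hta htb
  have J := B5Ko_T85 (x := sx κ t') (y := sy κ t') hβ hN (by linarith only [xa, xb, ya, yb]) (by linarith only [xa, xb, ya, yb]) (by linarith only [xa, xb, ya, yb]) (by linarith only [xa, xb, ya, yb])
  exact v5_Jlo hβ hκ (k := 0) ht hD 0.08 2.9491 0.702 (by norm_num) J Db (by norm_num)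

private theorem B5Ko_V92 {κ t : ℝ} (hD : DomR κ t) (hk1 : 1.25 ≤ κ) (hk2 : κ ≤ 1.33) (hta : (-0.1887) ≤ t + κ) (htb : t + κ ≤ 0.0629) :
    0.99763 + 0.025 * (t + κ) ≤ sE κ t := by
  have hκ0 : 0 < κ := hD.1
  exact v5_V0 hD 1.25 1.33 (-0.1887) 0.0629 0.1888 0.5094 0.04561 0.18596 0.05944 0.51903 0.99763 0.025 (by norm_num) hk1 hk2 (by norm_num) hta htb (by norm_num) (by norm_num) (by norm_num) ((cup2 1.25 (by norm_num) hk1).trans (by norm_num))
      (by norm_num) (by norm_num) (by norm_num) (by norm_num) (by norm_num) (by norm_num) (by norm_num) (by norm_num) (by norm_num) (by norm_num) (by norm_num) (by norm_num) (by norm_num)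

private theorem B5Ko_K93 {β r t κ h : ℝ} (hβ : 0 < β) (hr : 10 ≤ r) (hκ : κ = β * r) (hk1 : 1.25 ≤ κ) (hk2 : κ ≤ 1.33)
    (hh : h = 2 * Real.pi / 5) (hh1 : 1.25663 ≤ h) (hh2 : h ≤ 1.25664) (hta : 1.068 ≤ t + κ) (htb : t + κ ≤ 1.3195)
    (hY : 0.702 * Real.exp (r * sE κ (t - h)) ≤ ‖Xf β r h t 0‖) (hV : 0.99763 + 0.025 * (t - h + κ) ≤ sE κ (t - h)) :
    ‖Xf β r h t 2‖ ≤ 0.00342 * ‖Xf β r h t 0‖ := by
  rw [v5_X 2 1 (by push_cast; ring)]
  exact v5_cmp 0.685 0.001072 0.0034 0.9929 0.00004949 0.0000145 0.00342 hr (B5Ko_C87 (t := t + 1 * h) hβ hr hκ hk1 hk2 (by linarith only [hta, htb, hh1, hh2]) (by linarith only [hta, htb, hh1, hh2])) hY (by norm_num) (by norm_num) (by norm_num) (by norm_num) (by linarith only [hV, hta, htb, hh1, hh2]) (ex_un 6 0.8499 (by norm_num) (by norm_num) (by norm_num) (by norm_num)) (by norm_num) (by norm_num) (by linarith only [hV, hta, htb, hh1, hh2]) (ex_un 9 0.9289 (by norm_num) (by norm_num) (by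 norm_num) (by norm_num)) (by norm_num) (by norm_num)

private theorem B5Ko_K94 {β r t κ h : ℝ} (hβ : 0 < β) (hr : 10 ≤ r) (hκ : κ = β * r) (hk1 : 1.25 ≤ κ) (hk2 : κ ≤ 1.33)
    (hh : h = 2 * Real.pi / 5) (hh1 : 1.25663 ≤ h) (hh2 : h ≤ 1.25664) (hta : 1.068 ≤ t + κ) (htb : t + κ ≤ 1.3195)
    (hY : 0.702 * Real.exp (r * sE κ (t - h)) ≤ ‖Xf β r h t 0‖) (hV : 0.99763 + 0.025 * (t - h + κ) ≤ sE κ (t - h)) :
    ‖Xf β r h t (-1)‖ ≤ 0.09 * ‖Xf β r h t 0‖ := by
  rw [v5_X (-1) (-2) (by push_cast; ring)]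
  exact v5_cmp 0.2595 0.0749 0.0898 0.9428 0.00008053 0.000176 0.09 hr (B5Ko_C89 (t := t + (-2) * h) hβ hr hκ hk1 hk2 (by linarith only [hta, htb, hh1, hh2]) (by linarith only [hta, htb, hh1, hh2])) hY (by norm_num) (by norm_num) (by norm_num) (by norm_num) (by linarith only [hV, hta, htb, hh1, hh2]) (ex_un 2 0.5949 (by norm_num) (by norm_num) (by norm_num) (by norm_num)) (by norm_num) (by norm_num) (by linarith only [hV, hta, htb, hh1, hh2]) (ex_un 9 0.4279 (by norm_num) (by norm_num) (by norm_num) (by norm_num)) (by norm_num) (by norm_num)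

private theorem B5Ko_K95 {β r t κ h : ℝ} (hβ : 0 < β) (hr : 10 ≤ r) (hκ : κ = β * r) (hk1 : 1.25 ≤ κ) (hk2 : κ ≤ 1.33)
    (hh : h = 2 * Real.pi / 5) (hh1 : 1.25663 ≤ h) (hh2 : h ≤ 1.25664) (hta : 1.068 ≤ t + κ) (htb : t + κ ≤ 1.3195)
    (hY : 0.702 * Real.exp (r * sE κ (t - h)) ≤ ‖Xf β r h t 0‖) (hV : 0.99763 + 0.025 * (t - h + κ) ≤ sE κ (t - h)) :
    ‖Xf β r h t (-2)‖ ≤ 0.00463 * ‖Xf β r h t 0‖ := by
  rw [v5_Xm2 hh]
  exact v5_cmp0 0.6375 0.001705 0.00463 hr (B5Ko_C90 (t := t + 2 * h) hβ hr hκ hk1 hk2 (by linarith only [hta, htb, hh1, hh2]) (by linarith only [hta, htb, hh1, hh2])) hY (by norm_num) (by norm_num) (by norm_num) (by linarith only [hV, hta, htb, hh1, hh2]) (ex_un 6 0.3749 (by norm_num) (by norm_num) (by norm_num) (by norm_num)) (by norm_num)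

private theorem B5Ko_G96 {κ : ℝ} (hk1 : 1.25 ≤ κ) (hk2 : κ ≤ 1.33) : gG κ 0.28 ≤ 1.11928 ∧ 0.47481 ≤ Real.exp (-(κ * 0.28)) ^ 2 := by
  refine ⟨gG_le 0.28 1.25 1.33 1.11928 0.70469 0.68908 1.41907 1.45122 hk1 hk2 (by norm_num)
    (ex_um 0.35 (by norm_num) (by norm_num) (by norm_num) (by norm_num)) (ex_um 0.3724 (by norm_num) (by norm_num) (by norm_num) (by norm_num))
    (ex_up 0.35 (by norm_num) (by norm_num) (by norm_num) (by norm_num)) (ex_up 0.3724 (by norm_num) (by norm_num) (by norm_num) (by norm_num))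
    (by norm_num) (by norm_num), ?_⟩
  exact v5_M 0.68907 (ex_lm 0.3724 (by linarith) (by norm_num) (by norm_num) (by norm_num) (by norm_num)) (by norm_num) (by norm_num)

private theorem B5Ko_C97 {β r t κ : ℝ} (hβ : 0 < β) (hr : 10 ≤ r) (hκ : κ = β * r) (hk1 : 1.25 ≤ κ) (hk2 : κ ≤ 1.33) (hta : 1.0679 ≤ t + κ)
    (htb : t + κ ≤ 1.3196) : ‖F (cexp (I * β)) (r * cexp (I * ((t + β / 2 : ℝ) : ℂ)))‖ ≤
      1.3851 * Real.exp (r * (1.11928 - 0.28 * (t + κ))) + 0.2567 * Real.exp (r * 0) :=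
  v5_H 0.28 1.25 1.33 1.0679 1.3196 1.11928 1.3806 0.47481 0.1455 1.3085 1.501 0.30705 0.04641 0.00000116 1.3851 0.2567 hβ hr hκ (by norm_num) hk1 hk2 hta htb (by norm_num) (B5Ko_G96 hk1 hk2).1 (B5Ko_G96 hk1 hk2).2 (by norm_num) (by norm_num) (by norm_num)
    (by norm_num) (by norm_num) (by norm_num) (by norm_num) (by norm_num) (by norm_num) (by norm_num) (by norm_num) (ex_un 3 0.0704 (by norm_num) (by norm_num) (by norm_num) (by norm_num))
    (v5_hump 2.107 7.518 2.7419 0.0000009316 0.00000116 hβ hr hκ hk1 hk2 (by norm_num) htb (by norm_num) (by norm_num) (by norm_num) (by norm_num) (by norm_num) (by norm_num) (by norm_num) (ex_un 13 0.9 (by norm_num) (by norm_num) (by norm_num) (by norm_num)) (by norm_num)) (by norm_num) (by norm_num)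

private theorem B5Ko_K98 {β r t κ h : ℝ} (hβ : 0 < β) (hr : 10 ≤ r) (hκ : κ = β * r) (hk1 : 1.25 ≤ κ) (hk2 : κ ≤ 1.33)
    (hh : h = 2 * Real.pi / 5) (hh1 : 1.25663 ≤ h) (hh2 : h ≤ 1.25664) (hta : 1.068 ≤ t + κ) (htb : t + κ ≤ 1.3195)
    (hY : 0.702 * Real.exp (r * sE κ (t - h)) ≤ ‖Xf β r h t 0‖) (hV : 0.99763 + 0.025 * (t - h + κ) ≤ sE κ (t - h)) :
    ‖Xf β r h t 1‖ ≤ 0.355 * ‖Xf β r h t 0‖ := by
  rw [v5_X 1 0 (by push_cast; ring)]
  exact v5_cmp 0.1726 0.1792 0.354 0.9929 0.00004949 0.0000181 0.355 hr (B5Ko_C97 (t := t + 0 * h) hβ hr hκ hk1 hk2 (by linarith only [hta, htb, hh1, hh2]) (by linarith only [hta, htb, hh1, hh2])) hY (by norm_num) (by norm_num) (by norm_num) (by norm_num) (by linarith only [hV, hta, htb, hh1, hh2]) (ex_un 1 0.7259 (by norm_num) (by norm_num) (by norm_num) (by norm_num)) (by norm_num) (by norm_num) (by linarith only [hV, hta, htb, hh1, hh2]) (ex_un 9 0.9289 (by norm_num) (by norm_num) (by norm_num)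 (by norm_num)) (by norm_num) (by norm_num)

private theorem B5Ko_O99 {β r t κ h : ℝ} (hβ : 0 < β) (hr : 10 ≤ r) (hκ : κ = β * r) (hk1 : 1.25 ≤ κ) (hk2 : κ ≤ 1.33)
    (hh : h = 2 * Real.pi / 5) (hta : 1.068 ≤ t + κ) (htb : t + κ ≤ 1.3195) :
    ‖Xf β r h t (-2)‖ + ‖Xf β r h t (-1)‖ + ‖Xf β r h t 2‖ < |‖Xf β r h t 1‖ - ‖Xf β r h t 0‖| := by
  obtain ⟨hh1, hh2⟩ := v5_h hh
  have hκ0 : 0 < κ := by linarith only [hk1]
  have hN : β * 7.518 ≤ 1 := v5_hN 1.33 7.518 hβ hr hκ hk2 (by norm_num) (by norm_num)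
  have hD1 : DomR κ t := v5_dom hκ0 (by linarith only [hta, htb, hk1, hk2, hh1, hh2]) (Or.inr (by linarith only [hta, htb, hk1, hk2, hh1, hh2]))
  have hD0 : DomR κ (t - h) := v5_dom hκ0 (by linarith only [hta, htb, hk1, hk2, hh1, hh2]) (Or.inr (by linarith only [hta, htb, hk1, hk2, hh1, hh2]))
  have h0a : (-0.1887) ≤ t - h + κ := by linarith only [hta, htb, hh1, hh2]
  have h0b : t - h + κ ≤ 0.0629 := by linarith only [hta, htb, hh1, hh2]
  have e0 : t - h = t + (((0 : ℤ) : ℝ) - 1) * h := by push_cast; ring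
  have hY := B5Ko_Y91 (h := h) hβ hκ hN hk1 hk2 e0 hD0 h0a h0b
  have hV := B5Ko_V92 hD0 hk1 hk2 h0a h0b
  have cp2 := B5Ko_K93 hβ hr hκ hk1 hk2 hh hh1 hh2 hta htb hY hV
  have cm1 := B5Ko_K94 hβ hr hκ hk1 hk2 hh hh1 hh2 hta htb hY hV
  have cm2 := B5Ko_K95 hβ hr hκ hk1 hk2 hh hh1 hh2 hta htb hY hV
  have cn1 := B5Ko_K98 hβ hr hκ hk1 hk2 hh hh1 hh2 hta htb hY hV
  have hp : 0 < ‖Xf β r h t 0‖ := lt_of_lt_of_le (by positivity) hY
  exact v5_out0 _ _ _ _ cm2 cm1 cp2 cn1 hp (by norm_num)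

theorem R1_b5_K {p : ℤ} {β r : ℝ} (hp : IsCoprime (5 : ℤ) p) (hr : 10 ≤ r) (hβ : 0 < β) (hk1 : 1.25 ≤ β * r)
    (hk2 : β * r ≤ 1.33) : Circ (2 * Real.pi * p / 5 + β) r := by
  obtain ⟨h, hh⟩ : ∃ h : ℝ, h = 2 * Real.pi / 5 := ⟨_, rfl⟩
  obtain ⟨hh1, hh2⟩ := v5_h hh
  obtain ⟨κ, hκ⟩ : ∃ κ, κ = β * r := ⟨_, rfl⟩
  rw [← hκ] at hk1 hk2
  refine v5_circ (κ := κ) hp hr hh 0.45 0.6 1.06 0.0537 0.0433 0.00946 0.000893 0.0744 0.046 0.0045 0.2009 ?_ ?_ (by norm_num) (by norm_num) (by norm_num) (by norm_num) (by norm_num) (by norm_num) (by norm_num) (by norm_num) (by norm_num) (by norm_num)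
  · intro t g1 g2
    rcases le_total (t + κ) 0.6597 with g3 | g3
    · exact B5Kw_W22 hβ hr hκ hk1 hk2 hh (by linarith) (by linarith)
    exact B5Kw_W43 hβ hr hκ hk1 hk2 hh (by linarith) (by linarith)
  · intro t g1 g2 g3
    rcases g3 with g3 | g3
    · rcases le_total (t + κ) 0.251 with g4 | g4
      · exact B5Ko_O16 hβ hr hκ hk1 hk2 hh (by linarith) (by linarith)
      rcases le_total (t + κ) 0.415 with g4 | g4
      · exact B5Ko_O32 hβ hr hκ hk1 hk2 hh (by linarith) (by linarith)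
      exact B5Ko_O50 hβ hr hκ hk1 hk2 hh (by linarith) (by linarith)
    · rcases le_total (t + κ) 0.88 with g4 | g4
      · exact B5Ko_O68 hβ hr hκ hk1 hk2 hh (by linarith) (by linarith)
      rcases le_total (t + κ) 1.068 with g4 | g4
      · exact B5Ko_O83 hβ hr hκ hk1 hk2 hh (by linarith) (by linarith)
      exact B5Ko_O99 hβ hr hκ hk1 hk2 hh (by linarith) (by linarith)

end Sok
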