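import Pool.Agent.Lib.MP_816dec_an.R1b5WL

/-!
MP_816dec_an (A3, row R1), SINGLE CASE `b = 5`, `r ≥ 10`, `1.33 ≤ κ ≤ 1.36`: outside the window, assembly (generated file).
-/

set_option autoImplicit false
set_option linter.unusedVariables false

open Complex Set Filter Topology Metric

namespace Sok

private theorem B5Lo_B1 {κ t : ℝ} (h : DomR κ t) (hk1 : 1.33 ≤ κ) (hk2 : κ ≤ 1.36) (ht1 : 0.0628 ≤ t + κ) (ht2 : t + κ ≤ 0.251) :
    (0.029 ≤ sy κ t ∧ sy κ t ≤ 0.117) ∧ (1.1773 ≤ sx κ t ∧ sx κ t ≤ 1.3209) ∧ κ * Real.exp (-sy κ t) ≤ 1.3212 ∧ 2.6338 ≤ sD κ t ∧ sD κ t ≤ 2.8034 := by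
  have hy1 : 0.029 ≤ sy κ t := syR_ge h 1.33 1.36 0.0628 0.029 1.02942 1.02943 0.02195 0.02245 hk1 hk2 (by linarith) (by norm_num) (by norm_num)
    (expn_ge (by norm_num) (by norm_num)) (expn_le (by norm_num) (by norm_num) (by norm_num)) (by norm_num)
    (by norm_num) (by norm_num) (by norm_num) (by norm_num) (by norm_num) (by norm_num)
  have hy2 : sy κ t ≤ 0.117 := syR_le h 1.33 1.36 0.251 0.117 1.12411 0.0961 0.0967 0.09889 hk1 hk2 (by linarith) (by norm_num) (by norm_num)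
    (expn_ge (by norm_num) (by norm_num)) (by norm_num) (by norm_num) (Or.inr ((mul_le_mul_of_nonneg_left (expn_le (E := 1.12412) (by norm_num) (by norm_num) (by norm_num)) (by norm_num)).trans (by norm_num))) (by norm_num) (by norm_num) (by norm_num)
  have hy1' : 0.029 ≤ sy κ t := by linarith
  have hy2' : sy κ t ≤ 0.117 := by linarith
  have hx1 : 1.1773 ≤ sx κ t := sx_lo h 1.33 0.117 0.1171 0.88958 1.1773 hk1 (by norm_num) hy2' (abs_le.2 ⟨by linarith, by linarith⟩) (ex_lm 0.117 (by norm_num) (by norm_num) (by norm_num) (by norm_num) (by norm_num)) (by norm_num) (by norm_num)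
  have hx2 : sx κ t ≤ 1.3209 := sx_hi h 1.36 0.029 0.029 0.97142 1.3209 hk2 hy1' (by norm_num) (le_trans (by linarith) (le_abs_self _)) (ex_um 0.029 (by norm_num) (by norm_num) (by norm_num) (by norm_num)) (by norm_num) (by norm_num)
  refine ⟨⟨hy1', hy2'⟩, ⟨hx1, hx2⟩, v5_n h 1.36 0.029 0.97142 1.3212 hk2 hy1' (ex_um 0.029 (by norm_num) (by norm_num) (by norm_num) (by norm_num)) (by norm_num), ?_, ?_⟩
  · exact v5_Dlo h 1.33 0.029 0.117 0.117 0.88958 2.6338 (by norm_num) hk1 hy1' hy2' (ex_lm 0.117 (by norm_num) (by norm_num) (by norm_num) (by norm_num) (by norm_num)) (by norm_num) (by norm_num) (by norm_num) (by norm_num)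
  · exact v5_Dup h 1.36 0.029 0.117 0.97142 0.88959 2.8034 hk2 hy1' hy2' (ex_um 0.029 (by norm_num) (by norm_num) (by norm_num) (by norm_num)) (ex_um 0.117 (by norm_num) (by norm_num) (by norm_num) (by norm_num)) (by norm_num) (by norm_num) (by norm_num)

private theorem B5Lo_T2_0_0 {β x y : ℝ} (hβ : 0 < β) (hN : β * 7.352 ≤ 1) (hx1 : 1.1772 ≤ x) (hx2 : x ≤ 1.217)
    (hy1 : -0 ≤ y) (hy2 : y ≤ 0.1171) : ‖HH β (x + y * I) - 1‖ ≤ 0.065 := by
  refine le_epsJ (C := 0.4773) (N0 := 7.352) (J_boxp 1.1772 1.217 0 0.1171 0.1171 1.5389 1.2227 1.652 0.6733 0.5128 2.7115 7.352 0.7946 2.937 1.431 0.952 0.7694 0.5656 1.4112 3.3989 0.9148 2.118 3.4228 3.191 0.003499 0.01564 0.00003121 0.0000003101 0.001202 0.0000003101 0.0000003101 0.0000003101 0.4773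
    hβ hN hx1 hx2 hy1 hy2 (by norm_num) (by norm_num) (by linarith) (by norm_num) (by norm_num) (by norm_num) (by norm_num) (by norm_num) (by norm_num) (by norm_num) (by norm_num) (by norm_num) (by norm_num) (by norm_num) (by norm_num) (by norm_num) (by norm_num) (by norm_num) (by norm_num) (by norm_num) (by norm_num) (by norm_num) (by norm_num) (by norm_num)
    (cube_sqrt_geJ (s := 0.8573) (by norm_num) (by norm_num) (by norm_num) (by norm_num))
    (cube_sqrt_geJ (s := 0.9501) (by norm_num) (by norm_num) (by norm_num) (by norm_num))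
    (by norm_num) (by norm_num) (by norm_num) (by norm_num) (by norm_num) (by norm_num) (by norm_num) (by norm_num) (by norm_num) (by norm_num) (by norm_num) (by norm_num) (by norm_num) (by norm_num) (by norm_num) (by norm_num) (by norm_num) (by norm_num)
    (exp_neg_leJ (r := 0.656) 5 (by norm_num) (by norm_num) (by norm_num) (by norm_num))
    (exp_neg_leJ (r := 0.158) 4 (by norm_num) (by norm_num) (by norm_num) (by norm_num))
    (exp_neg_leJ (r := 0.375) 10 (by norm_num) (by norm_num) (by norm_num) (by norm_num))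
    (exp_neg_leJ (r := 0.99) 14 (by norm_num) (by norm_num) (by norm_num) (by norm_num))
    (exp_neg_leJ (r := 0.725) 6 (by norm_num) (by norm_num) (by norm_num) (by norm_num))
    (exp_neg_leJ (r := 0.99) 14 (by norm_num) (by norm_num) (by norm_num) (by norm_num))
    (exp_neg_leJ (r := 0.99) 14 (by norm_num) (by norm_num) (by norm_num) (by norm_num))
    (exp_neg_leJ (r := 0.99) 14 (by norm_num) (by norm_num) (by norm_num) (by norm_num))
    (by norm_num)) (by norm_num) hN hβ.le (by norm_num)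

private theorem B5Lo_T2_0_1 {β x y : ℝ} (hβ : 0 < β) (hN : β * 7.352 ≤ 1) (hx1 : 1.217 ≤ x) (hx2 : x ≤ 1.258)
    (hy1 : -0 ≤ y) (hy2 : y ≤ 0.1171) : ‖HH β (x + y * I) - 1‖ ≤ 0.065 := by
  refine le_epsJ (C := 0.4769) (N0 := 7.352) (J_boxp 1.217 1.258 0 0.1171 0.1171 1.5669 1.2635 1.6825 0.6614 0.5175 2.7115 7.352 0.8064 2.992 1.439 0.9362 0.7834 0.5728 1.4248 3.3752 0.9342 2.1731 3.5024 3.1597 0.003158 0.01484 0.00002824 0.0000003101 0.001043 0.0000003101 0.0000003101 0.0000003101 0.4769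
    hβ hN hx1 hx2 hy1 hy2 (by norm_num) (by norm_num) (by linarith) (by norm_num) (by norm_num) (by norm_num) (by norm_num) (by norm_num) (by norm_num) (by norm_num) (by norm_num) (by norm_num) (by norm_num) (by norm_num) (by norm_num) (by norm_num) (by norm_num) (by norm_num) (by norm_num) (by norm_num) (by norm_num) (by norm_num) (by norm_num) (by norm_num)
    (cube_sqrt_geJ (s := 0.8551) (by norm_num) (by norm_num) (by norm_num) (by norm_num))
    (cube_sqrt_geJ (s := 0.9493) (by norm_num) (by norm_num) (by norm_num) (by norm_num))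
    (by norm_num) (by norm_num) (by norm_num) (by norm_num) (by norm_num) (by norm_num) (by norm_num) (by norm_num) (by norm_num) (by norm_num) (by norm_num) (by norm_num) (by norm_num) (by norm_num) (by norm_num) (by norm_num) (by norm_num) (by norm_num)
    (exp_neg_leJ (r := 0.759) 5 (by norm_num) (by norm_num) (by norm_num) (by norm_num))
    (exp_neg_leJ (r := 0.211) 4 (by norm_num) (by norm_num) (by norm_num) (by norm_num))
    (exp_neg_leJ (r := 0.475) 10 (by norm_num) (by norm_num) (by norm_num) (by norm_num))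
    (exp_neg_leJ (r := 0.99) 14 (by norm_num) (by norm_num) (by norm_num) (by norm_num))
    (exp_neg_leJ (r := 0.868) 6 (by norm_num) (by norm_num) (by norm_num) (by norm_num))
    (exp_neg_leJ (r := 0.99) 14 (by norm_num) (by norm_num) (by norm_num) (by norm_num))
    (exp_neg_leJ (r := 0.99) 14 (by norm_num) (by norm_num) (by norm_num) (by norm_num))
    (exp_neg_leJ (r := 0.99) 14 (by norm_num) (by norm_num) (by norm_num) (by norm_num))
    (by norm_num)) (by norm_num) hN hβ.le (by norm_num)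

private theorem B5Lo_T2_0_2 {β x y : ℝ} (hβ : 0 < β) (hN : β * 7.352 ≤ 1) (hx1 : 1.258 ≤ x) (hx2 : x ≤ 1.301)
    (hy1 : -0 ≤ y) (hy2 : y ≤ 0.1171) : ‖HH β (x + y * I) - 1‖ ≤ 0.065 := by
  refine le_epsJ (C := 0.4774) (N0 := 7.352) (J_boxp 1.258 1.301 0 0.1171 0.1171 1.5958 1.3063 1.7148 0.6496 0.5225 2.7115 7.352 0.8186 3.051 1.448 0.9197 0.7978 0.5801 1.4389 3.3504 0.9541 2.2299 3.5844 3.1253 0.002843 0.01407 0.00002548 0.0000003101 0.0008993 0.0000003101 0.0000003101 0.0000003101 0.4774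
    hβ hN hx1 hx2 hy1 hy2 (by norm_num) (by norm_num) (by linarith) (by norm_num) (by norm_num) (by norm_num) (by norm_num) (by norm_num) (by norm_num) (by norm_num) (by norm_num) (by norm_num) (by norm_num) (by norm_num) (by norm_num) (by norm_num) (by norm_num) (by norm_num) (by norm_num) (by norm_num) (by norm_num) (by norm_num) (by norm_num) (by norm_num)
    (cube_sqrt_geJ (s := 0.8527) (by norm_num) (by norm_num) (by norm_num) (by norm_num))
    (cube_sqrt_geJ (s := 0.9485) (by norm_num) (by norm_num) (by norm_num) (by norm_num))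
    (by norm_num) (by norm_num) (by norm_num) (by norm_num) (by norm_num) (by norm_num) (by norm_num) (by norm_num) (by norm_num) (by norm_num) (by norm_num) (by norm_num) (by norm_num) (by norm_num) (by norm_num) (by norm_num) (by norm_num) (by norm_num)
    (exp_neg_leJ (r := 0.865) 5 (by norm_num) (by norm_num) (by norm_num) (by norm_num))
    (exp_neg_leJ (r := 0.264) 4 (by norm_num) (by norm_num) (by norm_num) (by norm_num))
    (exp_neg_leJ (r := 0.578) 10 (by norm_num) (by norm_num) (by norm_num) (by norm_num))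
    (exp_neg_leJ (r := 0.99) 14 (by norm_num) (by norm_num) (by norm_num) (by norm_num))
    (exp_neg_leJ (r := 0.014) 7 (by norm_num) (by norm_num) (by norm_num) (by norm_num))
    (exp_neg_leJ (r := 0.99) 14 (by norm_num) (by norm_num) (by norm_num) (by norm_num))
    (exp_neg_leJ (r := 0.99) 14 (by norm_num) (by norm_num) (by norm_num) (by norm_num))
    (exp_neg_leJ (r := 0.99) 14 (by norm_num) (by norm_num) (by norm_num) (by norm_num))
    (by norm_num)) (by norm_num) hN hβ.le (by norm_num)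

private theorem B5Lo_T2_0_3 {β x y : ℝ} (hβ : 0 < β) (hN : β * 7.352 ≤ 1) (hx1 : 1.301 ≤ x) (hx2 : x ≤ 1.321)
    (hy1 : -0 ≤ y) (hy2 : y ≤ 0.1171) : ‖HH β (x + y * I) - 1‖ ≤ 0.065 := by
  refine le_epsJ (C := 0.456) (N0 := 7.352) (J_boxp 1.301 1.321 0 0.1171 0.1171 1.6261 1.3262 1.7301 0.6344 0.5248 2.7115 7.352 0.8156 3.036 1.446 0.912 0.813 0.592 1.4536 3.3389 0.975 2.2894 3.6704 3.1573 0.002545 0.01289 0.00002288 0.0000003101 0.0007709 0.0000003101 0.0000003101 0.0000003101 0.456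
    hβ hN hx1 hx2 hy1 hy2 (by norm_num) (by norm_num) (by linarith) (by norm_num) (by norm_num) (by norm_num) (by norm_num) (by norm_num) (by norm_num) (by norm_num) (by norm_num) (by norm_num) (by norm_num) (by norm_num) (by norm_num) (by norm_num) (by norm_num) (by norm_num) (by norm_num) (by norm_num) (by norm_num) (by norm_num) (by norm_num) (by norm_num)
    (cube_sqrt_geJ (s := 0.8533) (by norm_num) (by norm_num) (by norm_num) (by norm_num))
    (cube_sqrt_geJ (s := 0.9487) (by norm_num) (by norm_num) (by norm_num) (by norm_num))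
    (by norm_num) (by norm_num) (by norm_num) (by norm_num) (by norm_num) (by norm_num) (by norm_num) (by norm_num) (by norm_num) (by norm_num) (by norm_num) (by norm_num) (by norm_num) (by norm_num) (by norm_num) (by norm_num) (by norm_num) (by norm_num)
    (exp_neg_leJ (r := 0.977) 5 (by norm_num) (by norm_num) (by norm_num) (by norm_num))
    (exp_neg_leJ (r := 0.352) 4 (by norm_num) (by norm_num) (by norm_num) (by norm_num))
    (exp_neg_leJ (r := 0.686) 10 (by norm_num) (by norm_num) (by norm_num) (by norm_num))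
    (exp_neg_leJ (r := 0.99) 14 (by norm_num) (by norm_num) (by norm_num) (by norm_num))
    (exp_neg_leJ (r := 0.168) 7 (by norm_num) (by norm_num) (by norm_num) (by norm_num))
    (exp_neg_leJ (r := 0.99) 14 (by norm_num) (by norm_num) (by norm_num) (by norm_num))
    (exp_neg_leJ (r := 0.99) 14 (by norm_num) (by norm_num) (by norm_num) (by norm_num))
    (exp_neg_leJ (r := 0.99) 14 (by norm_num) (by norm_num) (by norm_num) (by norm_num))
    (by norm_num)) (by norm_num) hN hβ.le (by norm_num)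

private theorem B5Lo_T2 {β x y : ℝ} (hβ : 0 < β) (hN : β * 7.352 ≤ 1) (hx1 : 1.1772 ≤ x) (hx2 : x ≤ 1.321)
    (hy1 : 0.0289 ≤ y) (hy2 : y ≤ 0.1171) : ‖HH β (x + y * I) - 1‖ ≤ 0.065 := by
  rcases le_total x 1.217 with hxx | hxx
  · exact B5Lo_T2_0_0 hβ hN (by linarith) (by linarith) (by linarith) (by linarith)
  rcases le_total x 1.258 with hxx | hxx
  · exact B5Lo_T2_0_1 hβ hN (by linarith) (by linarith) (by linarith) (by linarith)
  rcases le_total x 1.301 with hxx | hxx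
  · exact B5Lo_T2_0_2 hβ hN (by linarith) (by linarith) (by linarith) (by linarith)
  exact B5Lo_T2_0_3 hβ hN (by linarith) (by linarith) (by linarith) (by linarith)

private theorem B5Lo_G3 {κ : ℝ} (hk1 : 1.33 ≤ κ) (hk2 : κ ≤ 1.36) : gG κ 0.32 ≤ 1.16347 ∧ 0.41877 ≤ Real.exp (-(κ * 0.32)) ^ 2 := by
  refine ⟨gG_le 0.32 1.33 1.36 1.16347 0.65338 0.64714 1.53051 1.54528 hk1 hk2 (by norm_num)
    (ex_um 0.4256 (by norm_num) (by norm_num) (by norm_num) (by norm_num)) (ex_um 0.4352 (by norm_num) (by norm_num) (by norm_num) (by norm_num))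
    (ex_up 0.4256 (by norm_num) (by norm_num) (by norm_num) (by norm_num)) (ex_up 0.4352 (by norm_num) (by norm_num) (by norm_num) (by norm_num))
    (by norm_num) (by norm_num), ?_⟩
  exact v5_M 0.64713 (ex_lm 0.4352 (by linarith) (by norm_num) (by norm_num) (by norm_num) (by norm_num)) (by norm_num) (by norm_num)

private theorem B5Lo_C4 {β r t κ : ℝ} (hβ : 0 < β) (hr : 10 ≤ r) (hκ : κ = β * r) (hk1 : 1.33 ≤ κ) (hk2 : κ ≤ 1.36) (hta : 1.3194 ≤ t + κ)
    (htb : t + κ ≤ 1.5077) : ‖F (cexp (I * β)) (r * cexp (I * ((t + β / 2 : ℝ) : ℂ)))‖ ≤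
      1.4272 * Real.exp (r * (1.16347 - 0.32 * (t + κ))) + 0.2435 * Real.exp (r * 0) :=
  v5_H 0.32 1.33 1.36 1.3194 1.5077 1.16347 1.4161 0.41877 0.1472 1.53 1.3929 0.22561 0.1048 0.00000135 1.4272 0.2435 hβ hr hκ (by norm_num) hk1 hk2 hta htb (by norm_num) (B5Lo_G3 hk1 hk2).1 (B5Lo_G3 hk1 hk2).2 (by norm_num) (by norm_num) (by norm_num)
    (by norm_num) (by norm_num) (by norm_num) (by norm_num) (by norm_num) (by norm_num) (by norm_num) (by norm_num) (ex_un 2 0.256 (by norm_num) (by norm_num) (by norm_num) (by norm_num))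
    (v5_hump 1.8674 7.352 2.7115 0.000001098 0.00000135 hβ hr hκ hk1 hk2 (by norm_num) htb (by norm_num) (by norm_num) (by norm_num) (by norm_num) (by norm_num) (by norm_num) (by norm_num) (ex_un 13 0.7291 (by norm_num) (by norm_num) (by norm_num) (by norm_num)) (by norm_num)) (by norm_num) (by norm_num)

private theorem B5Lo_G5 {κ : ℝ} (hk1 : 1.33 ≤ κ) (hk2 : κ ≤ 1.36) : gG κ (-0.69) ≤ 1.71125 ∧ 6.26701 ≤ Real.exp (-(κ * (-0.69))) ^ 2 := by
  refine ⟨gG_le (-0.69) 1.33 1.36 1.71125 2.50353 2.55589 0.39946 0.39128 hk1 hk2 (by norm_num)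
    (ex_up 0.9177 (by norm_num) (by norm_num) (by norm_num) (by norm_num)) (ex_up 0.9384 (by norm_num) (by norm_num) (by norm_num) (by norm_num))
    (ex_um 0.9177 (by norm_num) (by norm_num) (by norm_num) (by norm_num)) (ex_um 0.9384 (by norm_num) (by norm_num) (by norm_num) (by norm_num))
    (by norm_num) (by norm_num), ?_⟩
  exact v5_M 2.5034 (ex_lp 0.9177 (by linarith) (by norm_num) (by norm_num)) (by norm_num) (by norm_num)

private theorem B5Lo_C6 {β r t κ : ℝ} (hβ : 0 < β) (hr : 10 ≤ r) (hκ : κ = β * r) (hk1 : 1.33 ≤ κ) (hk2 : κ ≤ 1.36) (hta : (-2.4505) ≤ t + κ)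
    (htb : t + κ ≤ (-2.2622)) : ‖F (cexp (I * β)) (r * cexp (I * ((t + β / 2 : ℝ) : ℂ)))‖ ≤
      0.6846 * Real.exp (r * (1.71125 - (-0.69) * (t + κ))) + 1.8054 * Real.exp (r * 0.0501) :=
  v5_HU (-0.69) 1.33 1.36 (-2.4505) (-2.2622) 1.71125 0.6846 6.26701 0.1472 0.6636 0.9014 0 0.0501 0.00000115 1.8054 hβ hr hκ (by norm_num) hk1 hk2 hta htb (by norm_num) (by norm_num) (B5Lo_G5 hk1 hk2).1 (B5Lo_G5 hk1 hk2).2 (by norm_num) (by norm_num) (by norm_num)
    (by norm_num) (by norm_num) (by norm_num) (by norm_num) (by norm_num) (by norm_num) (by norm_num)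
    (by norm_num) (by norm_num) (by norm_num) (v5_hump 5.6373 7.352 2.7115 0.0000009316 0.00000115 hβ hr hκ hk1 hk2 (by norm_num) htb (by norm_num) (by norm_num) (by norm_num) (by norm_num) (by norm_num) (by norm_num) (by norm_num) (ex_un 13 0.9 (by norm_num) (by norm_num) (by norm_num) (by norm_num)) (by norm_num)) (by norm_num)

private theorem B5Lo_C7 {β r t κ : ℝ} (hβ : 0 < β) (hr : 10 ≤ r) (hκ : κ = β * r) (hk1 : 1.33 ≤ κ) (hk2 : κ ≤ 1.36) (hta : 2.576 ≤ t + κ)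
    (htb : t + κ ≤ 2.7643) : ‖F (cexp (I * β)) (r * cexp (I * ((t + β / 2 : ℝ) : ℂ)))‖ ≤
      3.9788 * Real.exp (r * (0.4 + 1 / 20)) :=
  v5_UD 1.33 1.36 2.576 2.7643 0.4 0.346 0.4 2.0743 3.9788 hβ hr hκ (by norm_num) hk1 hk2 hta htb (by norm_num) (by norm_num) (by norm_num) (by norm_num) (by norm_num) (by norm_num) (by norm_num) (by norm_num) (by norm_num) (by norm_num) (by norm_num)

private theorem B5Lo_Y8 {β r t κ h t' : ℝ} (hβ : 0 < β) (hκ : κ = β * r) (hN : β * 7.352 ≤ 1) (hk1 : 1.33 ≤ κ) (hk2 : κ ≤ 1.36)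
    (ht : t' = t + (((1 : ℤ) : ℝ) - 1) * h) (hD : DomR κ t') (hta : 0.0628 ≤ t' + κ) (htb : t' + κ ≤ 0.251) :
    0.7225 * Real.exp (r * sE κ t') ≤ ‖Xf β r h t 1‖ := by
  obtain ⟨⟨ya, yb⟩, ⟨xa, xb⟩, n1, Da, Db⟩ := B5Lo_B1 hD hk1 hk2 hta htb
  have J := B5Lo_T2 (x := sx κ t') (y := sy κ t') hβ hN (by linarith only [xa, xb, ya, yb]) (by linarith only [xa, xb, ya, yb]) (by linarith only [xa, xb, ya, yb]) (by linarith only [xa, xb, ya, yb])
  exact v5_Jlo hβ hκ (k := 1) ht hD 0.065 2.8034 0.7225 (by norm_num) J Db (by norm_num)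

private theorem B5Lo_V9 {κ t : ℝ} (hD : DomR κ t) (hk1 : 1.33 ≤ κ) (hk2 : κ ≤ 1.36) (hta : 0.0628 ≤ t + κ) (htb : t + κ ≤ 0.251) :
    1.00277 - 0.0557 * (t + κ) ≤ sE κ t := by
  have hκ0 : 0 < κ := hD.1
  exact v5_V1 hD 1.33 1.36 0.0628 0.251 0.03075 0.09856 0.26075 1.00277 0.0557 (by norm_num) hk1 hk2 (by norm_num) (by norm_num) hta htb (by norm_num) (clo5 1.33 1.36 0.26075 (by norm_num) hk1 hk2 (by norm_num) (by norm_num) (by norm_num))
      ((cup2 1.33 (by norm_num) hk1).trans (by norm_num)) (by norm_num) (by norm_num) (by norm_num) (by norm_num) (by norm_num) (by norm_num)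

private theorem B5Lo_K10 {β r t κ h : ℝ} (hβ : 0 < β) (hr : 10 ≤ r) (hκ : κ = β * r) (hk1 : 1.33 ≤ κ) (hk2 : κ ≤ 1.36)
    (hh : h = 2 * Real.pi / 5) (hh1 : 1.25663 ≤ h) (hh2 : h ≤ 1.25664) (hta : 0.0628 ≤ t + κ) (htb : t + κ ≤ 0.251)
    (hY : 0.7225 * Real.exp (r * sE κ t) ≤ ‖Xf β r h t 1‖) (hV : 1.00277 - 0.0557 * (t + κ) ≤ sE κ t) :
    ‖Xf β r h t 2‖ ≤ 0.152 * ‖Xf β r h t 1‖ := by
  rw [v5_X 2 1 (by push_cast; ring)]
  exact v5_cmp 0.258 0.07601 0.151 0.9887 0.0000515 0.0000174 0.152 hr (B5Lo_C4 (t := t + 1 * h) hβ hr hκ hk1 hk2 (by linarith only [hta, htb, hh1, hh2]) (by linarith only [hta, htb, hh1, hh2])) hY (by norm_num) (by norm_num) (by norm_num) (by norm_num) (by linarith only [hV, hta, htb, hh1, hh2]) (ex_un 2 0.5799 (by norm_num) (by norm_num) (by norm_num) (by norm_num)) (by norm_num) (by norm_num) (by linarith only [hV, hta, htb, hh1, hh2]) (ex_un 9 0.8869 (by norm_num) (by norm_num) (by norm_num) (by norm_num))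 (by norm_num) (by norm_num)

private theorem B5Lo_K11 {β r t κ h : ℝ} (hβ : 0 < β) (hr : 10 ≤ r) (hκ : κ = β * r) (hk1 : 1.33 ≤ κ) (hk2 : κ ≤ 1.36)
    (hh : h = 2 * Real.pi / 5) (hh1 : 1.25663 ≤ h) (hh2 : h ≤ 1.25664) (hta : 0.0628 ≤ t + κ) (htb : t + κ ≤ 0.251)
    (hY : 0.7225 * Real.exp (r * sE κ t) ≤ ‖Xf β r h t 1‖) (hV : 1.00277 - 0.0557 * (t + κ) ≤ sE κ t) :
    ‖Xf β r h t (-1)‖ ≤ 0.000428 * ‖Xf β r h t 1‖ := by
  rw [v5_X (-1) (-2) (by push_cast; ring)]
  exact v5_cmp 0.8384 0.0002287 0.000217 0.9386 0.00008396 0.00021 0.000428 hr (B5Lo_C6 (t := t + (-2) * h) hβ hr hκ hk1 hk2 (by linarith only [hta, htb, hh1, hh2]) (by linarith only [hta, htb, hh1, hh2])) hY (by norm_num) (by norm_num) (by norm_num) (by norm_num) (by linarith only [hV, hta, htb, hh1, hh2]) (ex_un 8 0.3839 (by norm_num) (by norm_num) (by norm_num) (by norm_num)) (by norm_num) (by norm_num) (by linarith only [hV, hta, htb, hh1, hh2]) (ex_un 9 0.3859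 (by norm_num) (by norm_num) (by norm_num) (by norm_num)) (by norm_num) (by norm_num)

private theorem B5Lo_K12 {β r t κ h : ℝ} (hβ : 0 < β) (hr : 10 ≤ r) (hκ : κ = β * r) (hk1 : 1.33 ≤ κ) (hk2 : κ ≤ 1.36)
    (hh : h = 2 * Real.pi / 5) (hh1 : 1.25663 ≤ h) (hh2 : h ≤ 1.25664) (hta : 0.0628 ≤ t + κ) (htb : t + κ ≤ 0.251)
    (hY : 0.7225 * Real.exp (r * sE κ t) ≤ ‖Xf β r h t 1‖) (hV : 1.00277 - 0.0557 * (t + κ) ≤ sE κ t) :
    ‖Xf β r h t (-2)‖ ≤ 0.0253 * ‖Xf β r h t 1‖ := by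
  rw [v5_Xm2 hh]
  exact v5_cmp0 0.5387 0.00458 0.0253 hr (B5Lo_C7 (t := t + 2 * h) hβ hr hκ hk1 hk2 (by linarith only [hta, htb, hh1, hh2]) (by linarith only [hta, htb, hh1, hh2])) hY (by norm_num) (by norm_num) (by norm_num) (by linarith only [hV, hta, htb, hh1, hh2]) (ex_un 5 0.3869 (by norm_num) (by norm_num) (by norm_num) (by norm_num)) (by norm_num)

private theorem B5Lo_G13 {κ : ℝ} (hk1 : 1.33 ≤ κ) (hk2 : κ ≤ 1.36) : gG κ (-0.36) ≤ 1.18196 ∧ 2.60541 ≤ Real.exp (-(κ * (-0.36))) ^ 2 := by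
  refine ⟨gG_le (-0.36) 1.33 1.36 1.18196 1.61414 1.63167 0.61953 0.61288 hk1 hk2 (by norm_num)
    (ex_up 0.4788 (by norm_num) (by norm_num) (by norm_num) (by norm_num)) (ex_up 0.4896 (by norm_num) (by norm_num) (by norm_num) (by norm_num))
    (ex_um 0.4788 (by norm_num) (by norm_num) (by norm_num) (by norm_num)) (ex_um 0.4896 (by norm_num) (by norm_num) (by norm_num) (by norm_num))
    (by norm_num) (by norm_num), ?_⟩
  exact v5_M 1.61413 (ex_lp 0.4788 (by linarith) (by norm_num) (by norm_num)) (by norm_num) (by norm_num)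

private theorem B5Lo_C14 {β r t κ : ℝ} (hβ : 0 < β) (hr : 10 ≤ r) (hκ : κ = β * r) (hk1 : 1.33 ≤ κ) (hk2 : κ ≤ 1.36) (hta : (-1.1939) ≤ t + κ)
    (htb : t + κ ≤ (-1.0056)) : ‖F (cexp (I * β)) (r * cexp (I * ((t + β / 2 : ℝ) : ℂ)))‖ ≤
      0.8467 * Real.exp (r * (1.18196 - (-0.36) * (t + κ))) + 1.4124 * Real.exp (r * 0.0501) :=
  v5_HU (-0.36) 1.33 1.36 (-1.1939) (-1.0056) 1.18196 0.8467 2.60541 0.1472 0.6636 2.158 0 0.0501 0.00000115 1.4124 hβ hr hκ (by norm_num) hk1 hk2 hta htb (by norm_num) (by norm_num) (B5Lo_G13 hk1 hk2).1 (B5Lo_G13 hk1 hk2).2 (by norm_num) (by norm_num) (by norm_num)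
    (by norm_num) (by norm_num) (by norm_num) (by norm_num) (by norm_num) (by norm_num) (by norm_num)
    (by norm_num) (by norm_num) (by norm_num) (v5_hump 4.3807 7.352 2.7115 0.0000009316 0.00000115 hβ hr hκ hk1 hk2 (by norm_num) htb (by norm_num) (by norm_num) (by norm_num) (by norm_num) (by norm_num) (by norm_num) (by norm_num) (ex_un 13 0.9 (by norm_num) (by norm_num) (by norm_num) (by norm_num)) (by norm_num)) (by norm_num)

private theorem B5Lo_K15 {β r t κ h : ℝ} (hβ : 0 < β) (hr : 10 ≤ r) (hκ : κ = β * r) (hk1 : 1.33 ≤ κ) (hk2 : κ ≤ 1.36)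
    (hh : h = 2 * Real.pi / 5) (hh1 : 1.25663 ≤ h) (hh2 : h ≤ 1.25664) (hta : 0.0628 ≤ t + κ) (htb : t + κ ≤ 0.251)
    (hY : 0.7225 * Real.exp (r * sE κ t) ≤ ‖Xf β r h t 1‖) (hV : 1.00277 - 0.0557 * (t + κ) ≤ sE κ t) :
    ‖Xf β r h t 0‖ ≤ 0.219 * ‖Xf β r h t 1‖ := by
  rw [v5_X 0 (-1) (by push_cast; ring)]
  exact v5_cmp 0.1688 0.186 0.218 0.9386 0.00008396 0.000165 0.219 hr (B5Lo_C14 (t := t + (-1) * h) hβ hr hκ hk1 hk2 (by linarith only [hta, htb, hh1, hh2]) (by linarith only [hta, htb, hh1, hh2])) hY (by norm_num) (by norm_num) (by norm_num) (by norm_num) (by linarith only [hV, hta, htb, hh1, hh2]) (ex_un 1 0.6879 (by norm_num) (by norm_num) (by norm_num) (by norm_num)) (by norm_num) (by norm_num) (by linarith only [hV, hta, htb, hh1, hh2]) (ex_un 9 0.3859 (by norm_num) (by norm_num) (by norm_num) (by norm_num)) (by norm_num) (by norm_num)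

private theorem B5Lo_O16 {β r t κ h : ℝ} (hβ : 0 < β) (hr : 10 ≤ r) (hκ : κ = β * r) (hk1 : 1.33 ≤ κ) (hk2 : κ ≤ 1.36)
    (hh : h = 2 * Real.pi / 5) (hta : 0.0628 ≤ t + κ) (htb : t + κ ≤ 0.251) :
    ‖Xf β r h t (-2)‖ + ‖Xf β r h t (-1)‖ + ‖Xf β r h t 2‖ < |‖Xf β r h t 1‖ - ‖Xf β r h t 0‖| := by
  obtain ⟨hh1, hh2⟩ := v5_h hh
  have hκ0 : 0 < κ := by linarith only [hk1]
  have hN : β * 7.352 ≤ 1 := v5_hN 1.36 7.352 hβ hr hκ hk2 (by norm_num) (by norm_num)
  have hD1 : DomR κ t := v5_dom hκ0 (by linarith only [hta, htb, hk1, hk2, hh1, hh2]) (Or.inr (by linarith only [hta, htb, hk1, hk2, hh1, hh2]))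
  have e1 : t = t + (((1 : ℤ) : ℝ) - 1) * h := by push_cast; ring
  have hY := B5Lo_Y8 (h := h) hβ hκ hN hk1 hk2 e1 hD1 hta htb
  have hV := B5Lo_V9 hD1 hk1 hk2 hta htb
  have cp2 := B5Lo_K10 hβ hr hκ hk1 hk2 hh hh1 hh2 hta htb hY hV
  have cm1 := B5Lo_K11 hβ hr hκ hk1 hk2 hh hh1 hh2 hta htb hY hV
  have cm2 := B5Lo_K12 hβ hr hκ hk1 hk2 hh hh1 hh2 hta htb hY hV
  have cn0 := B5Lo_K15 hβ hr hκ hk1 hk2 hh hh1 hh2 hta htb hY hV
  have hp : 0 < ‖Xf β r h t 1‖ := lt_of_lt_of_le (by positivity) hY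
  exact v5_out1 _ _ _ _ cm2 cm1 cp2 cn0 hp (by norm_num)

private theorem B5Lo_B17 {κ t : ℝ} (h : DomR κ t) (hk1 : 1.33 ≤ κ) (hk2 : κ ≤ 1.36) (ht1 : 0.251 ≤ t + κ) (ht2 : t + κ ≤ 0.415) :
    (0.116 ≤ sy κ t ∧ sy κ t ≤ 0.188) ∧ (1.0858 ≤ sx κ t ∧ sx κ t ≤ 1.2055) ∧ κ * Real.exp (-sy κ t) ≤ 1.2111 ∧ 2.5905 ≤ sD κ t ∧ sD κ t ≤ 2.6987 := by
  have hy1 : 0.116 ≤ sy κ t := syR_ge h 1.33 1.36 0.251 0.116 1.12299 1.123 0.09578 0.09795 hk1 hk2 (by linarith) (by norm_num) (by norm_num)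
    (expn_ge (by norm_num) (by norm_num)) (expn_le (by norm_num) (by norm_num) (by norm_num)) (by norm_num)
    (by norm_num) (by norm_num) (by norm_num) (by norm_num) (by norm_num) (by norm_num)
  have hy2 : sy κ t ≤ 0.188 := syR_le h 1.33 1.36 0.415 0.188 1.20683 0.1658 0.16682 0.1706 hk1 hk2 (by linarith) (by norm_num) (by norm_num)
    (expn_ge (by norm_num) (by norm_num)) (by norm_num) (by norm_num) (Or.inr ((mul_le_mul_of_nonneg_left (expn_le (E := 1.20684) (by norm_num) (by norm_num) (by norm_num)) (by norm_num)).trans (by norm_num))) (by norm_num) (by norm_num) (by norm_num)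
  have hy1' : 0.116 ≤ sy κ t := by linarith
  have hy2' : sy κ t ≤ 0.188 := by linarith
  have hx1 : 1.0858 ≤ sx κ t := sx_lo h 1.33 0.188 0.1881 0.82861 1.0858 hk1 (by norm_num) hy2' (abs_le.2 ⟨by linarith, by linarith⟩) (ex_lm 0.188 (by norm_num) (by norm_num) (by norm_num) (by norm_num) (by norm_num)) (by norm_num) (by norm_num)
  have hx2 : sx κ t ≤ 1.2055 := sx_hi h 1.36 0.116 0.116 0.89048 1.2055 hk2 hy1' (by norm_num) (le_trans (by linarith) (le_abs_self _)) (ex_um 0.116 (by norm_num) (by norm_num) (by norm_num) (by norm_num)) (by norm_num) (by norm_num)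
  refine ⟨⟨hy1', hy2'⟩, ⟨hx1, hx2⟩, v5_n h 1.36 0.116 0.89048 1.2111 hk2 hy1' (ex_um 0.116 (by norm_num) (by norm_num) (by norm_num) (by norm_num)) (by norm_num), ?_, ?_⟩
  · exact v5_Dlo h 1.33 0.116 0.188 0.188 0.82861 2.5905 (by norm_num) hk1 hy1' hy2' (ex_lm 0.188 (by norm_num) (by norm_num) (by norm_num) (by norm_num) (by norm_num)) (by norm_num) (by norm_num) (by norm_num) (by norm_num)
  · exact v5_Dup h 1.36 0.116 0.188 0.89048 0.82862 2.6987 hk2 hy1' hy2' (ex_um 0.116 (by norm_num) (by norm_num) (by norm_num) (by norm_num)) (ex_um 0.188 (by norm_num) (by norm_num) (by norm_num) (by norm_num)) (by norm_num) (by norm_num) (by norm_num)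

private theorem B5Lo_T18_0_0 {β x y : ℝ} (hβ : 0 < β) (hN : β * 7.352 ≤ 1) (hx1 : 1.0857 ≤ x) (hx2 : x ≤ 1.177)
    (hy1 : -0 ≤ y) (hy2 : y ≤ 0.1881) : ‖HH β (x + y * I) - 1‖ ≤ 0.075 := by
  refine le_epsJ (C := 0.5508) (N0 := 7.352) (J_boxp 1.0857 1.177 0 0.1881 0.1881 1.4745 1.192 1.6724 0.7223 0.516 2.7115 7.352 0.8085 3.002 1.441 0.9674 0.7372 0.5385 1.3799 3.4195 0.8631 1.984 2.9353 2.7569 0.004432 0.01915 0.00003928 0.0000003101 0.001756 0.000000463 0.0000003101 0.0000003101 0.5508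
    hβ hN hx1 hx2 hy1 hy2 (by norm_num) (by norm_num) (by linarith) (by norm_num) (by norm_num) (by norm_num) (by norm_num) (by norm_num) (by norm_num) (by norm_num) (by norm_num) (by norm_num) (by norm_num) (by norm_num) (by norm_num) (by norm_num) (by norm_num) (by norm_num) (by norm_num) (by norm_num) (by norm_num) (by norm_num) (by norm_num) (by norm_num)
    (cube_sqrt_geJ (s := 0.8546) (by norm_num) (by norm_num) (by norm_num) (by norm_num))
    (cube_sqrt_geJ (s := 0.9492) (by norm_num) (by norm_num) (by norm_num) (by norm_num))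
    (by norm_num) (by norm_num) (by norm_num) (by norm_num) (by norm_num) (by norm_num) (by norm_num) (by norm_num) (by norm_num) (by norm_num) (by norm_num) (by norm_num) (by norm_num) (by norm_num) (by norm_num) (by norm_num) (by norm_num) (by norm_num)
    (exp_neg_leJ (r := 0.419) 5 (by norm_num) (by norm_num) (by norm_num) (by norm_num))
    (exp_neg_leJ (r := 0.959) 3 (by norm_num) (by norm_num) (by norm_num) (by norm_num))
    (exp_neg_leJ (r := 0.145) 10 (by norm_num) (by norm_num) (by norm_num) (by norm_num))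
    (exp_neg_leJ (r := 0.99) 14 (by norm_num) (by norm_num) (by norm_num) (by norm_num))
    (exp_neg_leJ (r := 0.345) 6 (by norm_num) (by norm_num) (by norm_num) (by norm_num))
    (exp_neg_leJ (r := 0.586) 14 (by norm_num) (by norm_num) (by norm_num) (by norm_num))
    (exp_neg_leJ (r := 0.99) 14 (by norm_num) (by norm_num) (by norm_num) (by norm_num))
    (exp_neg_leJ (r := 0.99) 14 (by norm_num) (by norm_num) (by norm_num) (by norm_num))
    (by norm_num)) (by norm_num) hN hβ.le (by norm_num)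

private theorem B5Lo_T18_0_1 {β x y : ℝ} (hβ : 0 < β) (hN : β * 7.352 ≤ 1) (hx1 : 1.177 ≤ x) (hx2 : x ≤ 1.2056)
    (hy1 : -0 ≤ y) (hy2 : y ≤ 0.1881) : ‖HH β (x + y * I) - 1‖ ≤ 0.075 := by
  refine le_epsJ (C := 0.4816) (N0 := 7.352) (J_boxp 1.177 1.2056 0 0.1881 0.1881 1.5388 1.2202 1.6927 0.6816 0.5191 2.7115 7.352 0.793 2.929 1.43 0.9564 0.7693 0.566 1.4111 3.4031 0.9075 2.1105 3.1179 2.8628 0.003503 0.0156 0.00003124 0.0000003101 0.001268 0.0000003101 0.0000003101 0.0000003101 0.4816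
    hβ hN hx1 hx2 hy1 hy2 (by norm_num) (by norm_num) (by linarith) (by norm_num) (by norm_num) (by norm_num) (by norm_num) (by norm_num) (by norm_num) (by norm_num) (by norm_num) (by norm_num) (by norm_num) (by norm_num) (by norm_num) (by norm_num) (by norm_num) (by norm_num) (by norm_num) (by norm_num) (by norm_num) (by norm_num) (by norm_num) (by norm_num)
    (cube_sqrt_geJ (s := 0.8577) (by norm_num) (by norm_num) (by norm_num) (by norm_num))
    (cube_sqrt_geJ (s := 0.9502) (by norm_num) (by norm_num) (by norm_num) (by norm_num))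
    (by norm_num) (by norm_num) (by norm_num) (by norm_num) (by norm_num) (by norm_num) (by norm_num) (by norm_num) (by norm_num) (by norm_num) (by norm_num) (by norm_num) (by norm_num) (by norm_num) (by norm_num) (by norm_num) (by norm_num) (by norm_num)
    (exp_neg_leJ (r := 0.655) 5 (by norm_num) (by norm_num) (by norm_num) (by norm_num))
    (exp_neg_leJ (r := 0.161) 4 (by norm_num) (by norm_num) (by norm_num) (by norm_num))
    (exp_neg_leJ (r := 0.374) 10 (by norm_num) (by norm_num) (by norm_num) (by norm_num))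
    (exp_neg_leJ (r := 0.99) 14 (by norm_num) (by norm_num) (by norm_num) (by norm_num))
    (exp_neg_leJ (r := 0.671) 6 (by norm_num) (by norm_num) (by norm_num) (by norm_num))
    (exp_neg_leJ (r := 0.99) 14 (by norm_num) (by norm_num) (by norm_num) (by norm_num))
    (exp_neg_leJ (r := 0.99) 14 (by norm_num) (by norm_num) (by norm_num) (by norm_num))
    (exp_neg_leJ (r := 0.99) 14 (by norm_num) (by norm_num) (by norm_num) (by norm_num))
    (by norm_num)) (by norm_num) hN hβ.le (by norm_num)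

private theorem B5Lo_T18 {β x y : ℝ} (hβ : 0 < β) (hN : β * 7.352 ≤ 1) (hx1 : 1.0857 ≤ x) (hx2 : x ≤ 1.2056)
    (hy1 : 0.1159 ≤ y) (hy2 : y ≤ 0.1881) : ‖HH β (x + y * I) - 1‖ ≤ 0.075 := by
  rcases le_total x 1.177 with hxx | hxx
  · exact B5Lo_T18_0_0 hβ hN (by linarith) (by linarith) (by linarith) (by linarith)
  exact B5Lo_T18_0_1 hβ hN (by linarith) (by linarith) (by linarith) (by linarith)

private theorem B5Lo_G19 {κ : ℝ} (hk1 : 1.33 ≤ κ) (hk2 : κ ≤ 1.36) : gG κ 0.36 ≤ 1.21231 ∧ 0.3756 ≤ Real.exp (-(κ * 0.36)) ^ 2 := by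
  refine ⟨gG_le 0.36 1.33 1.36 1.21231 0.61953 0.61288 1.61414 1.63167 hk1 hk2 (by norm_num)
    (ex_um 0.4788 (by norm_num) (by norm_num) (by norm_num) (by norm_num)) (ex_um 0.4896 (by norm_num) (by norm_num) (by norm_num) (by norm_num))
    (ex_up 0.4788 (by norm_num) (by norm_num) (by norm_num) (by norm_num)) (ex_up 0.4896 (by norm_num) (by norm_num) (by norm_num) (by norm_num))
    (by norm_num) (by norm_num), ?_⟩
  exact v5_M 0.61287 (ex_lm 0.4896 (by linarith) (by norm_num) (by norm_num) (by norm_num) (by norm_num)) (by norm_num) (by norm_num)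

private theorem B5Lo_C20 {β r t κ : ℝ} (hβ : 0 < β) (hr : 10 ≤ r) (hκ : κ = β * r) (hk1 : 1.33 ≤ κ) (hk2 : κ ≤ 1.36) (hta : 1.5076 ≤ t + κ)
    (htb : t + κ ≤ 1.6717) : ‖F (cexp (I * β)) (r * cexp (I * ((t + β / 2 : ℝ) : ℂ)))‖ ≤
      1.533 * Real.exp (r * (1.21231 - 0.36 * (t + κ))) + 0.2329 * Real.exp (r * 0) :=
  v5_H 0.36 1.33 1.36 1.5076 1.6717 1.21231 1.508 0.3756 0.1472 1.7182 1.2289 0.15722 0.2082 0.00000449 1.533 0.2329 hβ hr hκ (by norm_num) hk1 hk2 hta htb (by norm_num) (B5Lo_G19 hk1 hk2).1 (B5Lo_G19 hk1 hk2).2 (by norm_num) (by norm_num) (by norm_num)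
    (by norm_num) (by norm_num) (by norm_num) (by norm_num) (by norm_num) (by norm_num) (by norm_num) (by norm_num) (ex_un 1 0.5721 (by norm_num) (by norm_num) (by norm_num) (by norm_num))
    (v5_hump 1.7034 7.352 2.7115 0.000003649 0.00000449 hβ hr hκ hk1 hk2 (by norm_num) htb (by norm_num) (by norm_num) (by norm_num) (by norm_num) (by norm_num) (by norm_num) (by norm_num) (ex_un 12 0.5233 (by norm_num) (by norm_num) (by norm_num) (by norm_num)) (by norm_num)) (by norm_num) (by norm_num)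

private theorem B5Lo_G21 {κ : ℝ} (hk1 : 1.33 ≤ κ) (hk2 : κ ≤ 1.36) : gG κ (-0.65) ≤ 1.62442 ∧ 5.63459 ≤ Real.exp (-(κ * (-0.65))) ^ 2 := by
  refine ⟨gG_le (-0.65) 1.33 1.36 1.62442 2.37382 2.42057 0.42128 0.41315 hk1 hk2 (by norm_num)
    (ex_up 0.8645 (by norm_num) (by norm_num) (by norm_num) (by norm_num)) (ex_up 0.884 (by norm_num) (by norm_num) (by norm_num) (by norm_num))
    (ex_um 0.8645 (by norm_num) (by norm_num) (by norm_num) (by norm_num)) (ex_um 0.884 (by norm_num) (by norm_num) (by norm_num) (by norm_num))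
    (by norm_num) (by norm_num), ?_⟩
  exact v5_M 2.37373 (ex_lp 0.8645 (by linarith) (by norm_num) (by norm_num)) (by norm_num) (by norm_num)

private theorem B5Lo_C22 {β r t κ : ℝ} (hβ : 0 < β) (hr : 10 ≤ r) (hκ : κ = β * r) (hk1 : 1.33 ≤ κ) (hk2 : κ ≤ 1.36) (hta : (-2.2623) ≤ t + κ)
    (htb : t + κ ≤ (-2.0982)) : ‖F (cexp (I * β)) (r * cexp (I * ((t + β / 2 : ℝ) : ℂ)))‖ ≤
      0.7029 * Real.exp (r * (1.62442 - (-0.65) * (t + κ))) + 1.741 * Real.exp (r * 0.0501) :=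
  v5_HU (-0.65) 1.33 1.36 (-2.2623) (-2.0982) 1.62442 0.7029 5.63459 0.1472 0.6636 1.0896 0 0.0501 0.00000115 1.741 hβ hr hκ (by norm_num) hk1 hk2 hta htb (by norm_num) (by norm_num) (B5Lo_G21 hk1 hk2).1 (B5Lo_G21 hk1 hk2).2 (by norm_num) (by norm_num) (by norm_num)
    (by norm_num) (by norm_num) (by norm_num) (by norm_num) (by norm_num) (by norm_num) (by norm_num)
    (by norm_num) (by norm_num) (by norm_num) (v5_hump 5.4733 7.352 2.7115 0.0000009316 0.00000115 hβ hr hκ hk1 hk2 (by norm_num) htb (by norm_num) (by norm_num) (by norm_num) (by norm_num) (by norm_num) (by norm_num) (by norm_num) (ex_un 13 0.9 (by norm_num) (by norm_num) (by norm_num) (by norm_num)) (by norm_num)) (by norm_num)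

private theorem B5Lo_C23 {β r t κ : ℝ} (hβ : 0 < β) (hr : 10 ≤ r) (hκ : κ = β * r) (hk1 : 1.33 ≤ κ) (hk2 : κ ≤ 1.36) (hta : 2.7642 ≤ t + κ)
    (htb : t + κ ≤ 2.9283) : ‖F (cexp (I * β)) (r * cexp (I * ((t + β / 2 : ℝ) : ℂ)))‖ ≤
      3.9356 * Real.exp (r * (0.21 + 1 / 20)) :=
  v5_UD 1.33 1.36 2.7642 2.9283 0.21 0.346 0.21 2.0518 3.9356 hβ hr hκ (by norm_num) hk1 hk2 hta htb (by norm_num) (by norm_num) (by norm_num) (by norm_num) (by norm_num) (by norm_num) (by norm_num) (by norm_num) (by norm_num) (by norm_num) (by norm_num)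

private theorem B5Lo_Y24 {β r t κ h t' : ℝ} (hβ : 0 < β) (hκ : κ = β * r) (hN : β * 7.352 ≤ 1) (hk1 : 1.33 ≤ κ) (hk2 : κ ≤ 1.36)
    (ht : t' = t + (((1 : ℤ) : ℝ) - 1) * h) (hD : DomR κ t') (hta : 0.251 ≤ t' + κ) (htb : t' + κ ≤ 0.415) :
    0.7216 * Real.exp (r * sE κ t') ≤ ‖Xf β r h t 1‖ := by
  obtain ⟨⟨ya, yb⟩, ⟨xa, xb⟩, n1, Da, Db⟩ := B5Lo_B17 hD hk1 hk2 hta htb
  have J := B5Lo_T18 (x := sx κ t') (y := sy κ t') hβ hN (by linarith only [xa, xb, ya, yb]) (by linarith only [xa, xb, ya, yb]) (by linarith only [xa, xb, ya, yb]) (by linarith only [xa, xb, ya, yb])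
  exact v5_Jlo hβ hκ (k := 1) ht hD 0.075 2.6987 0.7216 (by norm_num) J Db (by norm_num)

private theorem B5Lo_V25 {κ t : ℝ} (hD : DomR κ t) (hk1 : 1.33 ≤ κ) (hk2 : κ ≤ 1.36) (hta : 0.251 ≤ t + κ) (htb : t + κ ≤ 0.415) :
    1.01806 - 0.1166 * (t + κ) ≤ sE κ t := by
  have hκ0 : 0 < κ := hD.1
  exact v5_V1 hD 1.33 1.36 0.251 0.415 0.02987 0.09856 0.26075 1.01806 0.1166 (by norm_num) hk1 hk2 (by norm_num) (by norm_num) hta htb (by norm_num) (clo5 1.33 1.36 0.26075 (by norm_num) hk1 hk2 (by norm_num) (by norm_num) (by norm_num))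
      ((cup2 1.33 (by norm_num) hk1).trans (by norm_num)) (by norm_num) (by norm_num) (by norm_num) (by norm_num) (by norm_num) (by norm_num)

private theorem B5Lo_K26 {β r t κ h : ℝ} (hβ : 0 < β) (hr : 10 ≤ r) (hκ : κ = β * r) (hk1 : 1.33 ≤ κ) (hk2 : κ ≤ 1.36)
    (hh : h = 2 * Real.pi / 5) (hh1 : 1.25663 ≤ h) (hh2 : h ≤ 1.25664) (hta : 0.251 ≤ t + κ) (htb : t + κ ≤ 0.415)
    (hY : 0.7216 * Real.exp (r * sE κ t) ≤ ‖Xf β r h t 1‖) (hV : 1.01806 - 0.1166 * (t + κ) ≤ sE κ t) :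
    ‖Xf β r h t 2‖ ≤ 0.0875 * ‖Xf β r h t 1‖ := by
  rw [v5_X 2 1 (by push_cast; ring)]
  exact v5_cmp 0.3192 0.0411 0.0874 0.9696 0.00006189 0.00002 0.0875 hr (B5Lo_C20 (t := t + 1 * h) hβ hr hκ hk1 hk2 (by linarith only [hta, htb, hh1, hh2]) (by linarith only [hta, htb, hh1, hh2])) hY (by norm_num) (by norm_num) (by norm_num) (by norm_num) (by linarith only [hV, hta, htb, hh1, hh2]) (ex_un 3 0.1919 (by norm_num) (by norm_num) (by norm_num) (by norm_num)) (by norm_num) (by norm_num) (by linarith only [hV, hta, htb, hh1, hh2]) (ex_un 9 0.6959 (by norm_num) (by norm_num) (by norm_num) (by norm_num)) (by norm_num) (by norm_num)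

private theorem B5Lo_K27 {β r t κ h : ℝ} (hβ : 0 < β) (hr : 10 ≤ r) (hκ : κ = β * r) (hk1 : 1.33 ≤ κ) (hk2 : κ ≤ 1.36)
    (hh : h = 2 * Real.pi / 5) (hh1 : 1.25663 ≤ h) (hh2 : h ≤ 1.25664) (hta : 0.251 ≤ t + κ) (htb : t + κ ≤ 0.415)
    (hY : 0.7216 * Real.exp (r * sE κ t) ≤ ‖Xf β r h t 1‖) (hV : 1.01806 - 0.1166 * (t + κ) ≤ sE κ t) :
    ‖Xf β r h t (-1)‖ ≤ 0.00106 * ‖Xf β r h t 1‖ := by
  rw [v5_X (-1) (-2) (by push_cast; ring)]
  exact v5_cmp 0.7091 0.0008327 0.000812 0.9195 0.0001016 0.000246 0.00106 hr (B5Lo_C22 (t := t + (-2) * h) hβ hr hκ hk1 hk2 (by linarith only [hta, htb, hh1, hh2]) (by linarith only [hta, htb, hh1, hh2])) hY (by norm_num) (by norm_num) (by norm_num) (by norm_num) (by linarith only [hV, hta, htb, hh1, hh2]) (ex_un 7 0.0909 (by norm_num) (by norm_num) (by norm_num) (by norm_num)) (by norm_num) (by norm_num) (by linarith only [hV, hta, htb, hh1, hh2]) (ex_un 9 0.1949 (by norm_num) (by norm_num) (by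 norm_num) (by norm_num)) (by norm_num) (by norm_num)

private theorem B5Lo_K28 {β r t κ h : ℝ} (hβ : 0 < β) (hr : 10 ≤ r) (hκ : κ = β * r) (hk1 : 1.33 ≤ κ) (hk2 : κ ≤ 1.36)
    (hh : h = 2 * Real.pi / 5) (hh1 : 1.25663 ≤ h) (hh2 : h ≤ 1.25664) (hta : 0.251 ≤ t + κ) (htb : t + κ ≤ 0.415)
    (hY : 0.7216 * Real.exp (r * sE κ t) ≤ ‖Xf β r h t 1‖) (hV : 1.01806 - 0.1166 * (t + κ) ≤ sE κ t) :
    ‖Xf β r h t (-2)‖ ≤ 0.00452 * ‖Xf β r h t 1‖ := by
  rw [v5_Xm2 hh]
  exact v5_cmp0 0.7096 0.0008285 0.00452 hr (B5Lo_C23 (t := t + 2 * h) hβ hr hκ hk1 hk2 (by linarith only [hta, htb, hh1, hh2]) (by linarith only [hta, htb, hh1, hh2])) hY (by norm_num) (by norm_num) (by norm_num) (by linarith only [hV, hta, htb, hh1, hh2]) (ex_un 7 0.0959 (by norm_num) (by norm_num) (by norm_num) (by norm_num)) (by norm_num)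

private theorem B5Lo_G29 {κ : ℝ} (hk1 : 1.33 ≤ κ) (hk2 : κ ≤ 1.36) : gG κ (-0.32) ≤ 1.14334 ∧ 2.34243 ≤ Real.exp (-(κ * (-0.32))) ^ 2 := by
  refine ⟨gG_le (-0.32) 1.33 1.36 1.14334 1.53051 1.54528 0.65338 0.64714 hk1 hk2 (by norm_num)
    (ex_up 0.4256 (by norm_num) (by norm_num) (by norm_num) (by norm_num)) (ex_up 0.4352 (by norm_num) (by norm_num) (by norm_num) (by norm_num))
    (ex_um 0.4256 (by norm_num) (by norm_num) (by norm_num) (by norm_num)) (ex_um 0.4352 (by norm_num) (by norm_num) (by norm_num) (by norm_num))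
    (by norm_num) (by norm_num), ?_⟩
  exact v5_M 1.5305 (ex_lp 0.4256 (by linarith) (by norm_num) (by norm_num)) (by norm_num) (by norm_num)

private theorem B5Lo_C30 {β r t κ : ℝ} (hβ : 0 < β) (hr : 10 ≤ r) (hκ : κ = β * r) (hk1 : 1.33 ≤ κ) (hk2 : κ ≤ 1.36) (hta : (-1.0057) ≤ t + κ)
    (htb : t + κ ≤ (-0.8416)) : ‖F (cexp (I * β)) (r * cexp (I * ((t + β / 2 : ℝ) : ℂ)))‖ ≤
      0.8681 * Real.exp (r * (1.14334 - (-0.32) * (t + κ))) + 1.3709 * Real.exp (r * 0.0501) :=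
  v5_HU (-0.32) 1.33 1.36 (-1.0057) (-0.8416) 1.14334 0.8681 2.34243 0.1472 0.6636 2.3462 0 0.0501 0.00000115 1.3709 hβ hr hκ (by norm_num) hk1 hk2 hta htb (by norm_num) (by norm_num) (B5Lo_G29 hk1 hk2).1 (B5Lo_G29 hk1 hk2).2 (by norm_num) (by norm_num) (by norm_num)
    (by norm_num) (by norm_num) (by norm_num) (by norm_num) (by norm_num) (by norm_num) (by norm_num)
    (by norm_num) (by norm_num) (by norm_num) (v5_hump 4.2167 7.352 2.7115 0.0000009316 0.00000115 hβ hr hκ hk1 hk2 (by norm_num) htb (by norm_num) (by norm_num) (by norm_num) (by norm_num) (by norm_num) (by norm_num) (by norm_num) (ex_un 13 0.9 (by norm_num) (by norm_num) (by norm_num) (by norm_num)) (by norm_num)) (by norm_num)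

private theorem B5Lo_K31 {β r t κ h : ℝ} (hβ : 0 < β) (hr : 10 ≤ r) (hκ : κ = β * r) (hk1 : 1.33 ≤ κ) (hk2 : κ ≤ 1.36)
    (hh : h = 2 * Real.pi / 5) (hh1 : 1.25663 ≤ h) (hh2 : h ≤ 1.25664) (hta : 0.251 ≤ t + κ) (htb : t + κ ≤ 0.415)
    (hY : 0.7216 * Real.exp (r * sE κ t) ≤ ‖Xf β r h t 1‖) (hV : 1.01806 - 0.1166 * (t + κ) ≤ sE κ t) :
    ‖Xf β r h t 0‖ ≤ 0.472 * ‖Xf β r h t 1‖ := by
  rw [v5_X 0 (-1) (by push_cast; ring)]
  exact v5_cmp 0.0956 0.3909 0.471 0.9195 0.0001016 0.000194 0.472 hr (B5Lo_C30 (t := t + (-1) * h) hβ hr hκ hk1 hk2 (by linarith only [hta, htb, hh1, hh2]) (by linarith only [hta, htb, hh1, hh2])) hY (by norm_num) (by norm_num) (by norm_num) (by norm_num) (by linarith only [hV, hta, htb, hh1, hh2]) (ex_un 0 0.9559 (by norm_num) (by norm_num) (by norm_num) (by norm_num)) (by norm_num) (by norm_num) (by linarith only [hV, hta, htb, hh1, hh2]) (ex_un 9 0.1949 (by norm_num) (by norm_num) (by norm_num) (by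 norm_num)) (by norm_num) (by norm_num)

private theorem B5Lo_O32 {β r t κ h : ℝ} (hβ : 0 < β) (hr : 10 ≤ r) (hκ : κ = β * r) (hk1 : 1.33 ≤ κ) (hk2 : κ ≤ 1.36)
    (hh : h = 2 * Real.pi / 5) (hta : 0.251 ≤ t + κ) (htb : t + κ ≤ 0.415) :
    ‖Xf β r h t (-2)‖ + ‖Xf β r h t (-1)‖ + ‖Xf β r h t 2‖ < |‖Xf β r h t 1‖ - ‖Xf β r h t 0‖| := by
  obtain ⟨hh1, hh2⟩ := v5_h hh
  have hκ0 : 0 < κ := by linarith only [hk1]
  have hN : β * 7.352 ≤ 1 := v5_hN 1.36 7.352 hβ hr hκ hk2 (by norm_num) (by norm_num)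
  have hD1 : DomR κ t := v5_dom hκ0 (by linarith only [hta, htb, hk1, hk2, hh1, hh2]) (Or.inr (by linarith only [hta, htb, hk1, hk2, hh1, hh2]))
  have e1 : t = t + (((1 : ℤ) : ℝ) - 1) * h := by push_cast; ring
  have hY := B5Lo_Y24 (h := h) hβ hκ hN hk1 hk2 e1 hD1 hta htb
  have hV := B5Lo_V25 hD1 hk1 hk2 hta htb
  have cp2 := B5Lo_K26 hβ hr hκ hk1 hk2 hh hh1 hh2 hta htb hY hV
  have cm1 := B5Lo_K27 hβ hr hκ hk1 hk2 hh hh1 hh2 hta htb hY hV
  have cm2 := B5Lo_K28 hβ hr hκ hk1 hk2 hh hh1 hh2 hta htb hY hV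
  have cn0 := B5Lo_K31 hβ hr hκ hk1 hk2 hh hh1 hh2 hta htb hY hV
  have hp : 0 < ‖Xf β r h t 1‖ := lt_of_lt_of_le (by positivity) hY
  exact v5_out1 _ _ _ _ cm2 cm1 cp2 cn0 hp (by norm_num)

private theorem B5Lo_B33 {κ t : ℝ} (h : DomR κ t) (hk1 : 1.33 ≤ κ) (hk2 : κ ≤ 1.36) (ht1 : 0.415 ≤ t + κ) (ht2 : t + κ ≤ 0.5655) :
    (0.187 ≤ sy κ t ∧ sy κ t ≤ 0.249) ∧ (1.0064 ≤ sx κ t ∧ sx κ t ≤ 1.1125) ∧ κ * Real.exp (-sy κ t) ≤ 1.1281 ∧ 2.573 ≤ sD κ t ∧ sD κ t ≤ 2.6466 := by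
  have hy1 : 0.187 ≤ sy κ t := syR_ge h 1.33 1.36 0.415 0.187 1.20562 1.20563 0.16577 0.16952 hk1 hk2 (by linarith) (by norm_num) (by norm_num)
    (expn_ge (by norm_num) (by norm_num)) (expn_le (by norm_num) (by norm_num) (by norm_num)) (by norm_num)
    (by norm_num) (by norm_num) (by norm_num) (by norm_num) (by norm_num) (by norm_num)
  have hy2 : sy κ t ≤ 0.249 := syR_le h 1.33 1.36 0.5655 0.249 1.28274 0.2335 0.23485 0.24016 hk1 hk2 (by linarith) (by norm_num) (by norm_num)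
    (expn_ge (by norm_num) (by norm_num)) (by norm_num) (by norm_num) (Or.inr ((mul_le_mul_of_nonneg_left (expn_le (E := 1.28275) (by norm_num) (by norm_num) (by norm_num)) (by norm_num)).trans (by norm_num))) (by norm_num) (by norm_num) (by norm_num)
  have hy1' : 0.187 ≤ sy κ t := by linarith
  have hy2' : sy κ t ≤ 0.249 := by linarith
  have hx1 : 1.0064 ≤ sx κ t := sx_lo h 1.33 0.249 0.2491 0.77957 1.0064 hk1 (by norm_num) hy2' (abs_le.2 ⟨by linarith, by linarith⟩) (ex_lm 0.249 (by norm_num) (by norm_num) (by norm_num) (by norm_num) (by norm_num)) (by norm_num) (by norm_num)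
  have hx2 : sx κ t ≤ 1.1125 := sx_hi h 1.36 0.187 0.187 0.82945 1.1125 hk2 hy1' (by norm_num) (le_trans (by linarith) (le_abs_self _)) (ex_um 0.187 (by norm_num) (by norm_num) (by norm_num) (by norm_num)) (by norm_num) (by norm_num)
  refine ⟨⟨hy1', hy2'⟩, ⟨hx1, hx2⟩, v5_n h 1.36 0.187 0.82945 1.1281 hk2 hy1' (ex_um 0.187 (by norm_num) (by norm_num) (by norm_num) (by norm_num)) (by norm_num), ?_, ?_⟩
  · exact v5_Dlo h 1.33 0.187 0.249 0.249 0.77957 2.573 (by norm_num) hk1 hy1' hy2' (ex_lm 0.249 (by norm_num) (by norm_num) (by norm_num) (by norm_num) (by norm_num)) (by norm_num) (by norm_num) (by norm_num) (by norm_num)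
  · exact v5_Dup h 1.36 0.187 0.249 0.82945 0.77958 2.6466 hk2 hy1' hy2' (ex_um 0.187 (by norm_num) (by norm_num) (by norm_num) (by norm_num)) (ex_um 0.249 (by norm_num) (by norm_num) (by norm_num) (by norm_num)) (by norm_num) (by norm_num) (by norm_num)

private theorem B5Lo_T34_0_0 {β x y : ℝ} (hβ : 0 < β) (hN : β * 7.352 ≤ 1) (hx1 : 1.0063 ≤ x) (hx2 : x ≤ 1.071)
    (hy1 : -0 ≤ y) (hy2 : y ≤ 0.2491) : ‖HH β (x + y * I) - 1‖ ≤ 0.075 := by
  refine le_epsJ (C := 0.5504) (N0 := 7.352) (J_boxp 1.0063 1.071 0 0.2491 0.2491 1.4186 1.0996 1.6454 0.7592 0.5118 2.7115 7.352 0.7752 2.848 1.418 1.0081 0.7092 0.526 1.3527 3.4771 0.8183 1.8679 2.5149 2.5618 0.00544 0.02097 0.00004811 0.0000003101 0.00244 0.000001089 0.0000003101 0.0000003101 0.5504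
    hβ hN hx1 hx2 hy1 hy2 (by norm_num) (by norm_num) (by linarith) (by norm_num) (by norm_num) (by norm_num) (by norm_num) (by norm_num) (by norm_num) (by norm_num) (by norm_num) (by norm_num) (by norm_num) (by norm_num) (by norm_num) (by norm_num) (by norm_num) (by norm_num) (by norm_num) (by norm_num) (by norm_num) (by norm_num) (by norm_num) (by norm_num)
    (cube_sqrt_geJ (s := 0.8611) (by norm_num) (by norm_num) (by norm_num) (by norm_num))
    (cube_sqrt_geJ (s := 0.9513) (by norm_num) (by norm_num) (by norm_num) (by norm_num))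
    (by norm_num) (by norm_num) (by norm_num) (by norm_num) (by norm_num) (by norm_num) (by norm_num) (by norm_num) (by norm_num) (by norm_num) (by norm_num) (by norm_num) (by norm_num) (by norm_num) (by norm_num) (by norm_num) (by norm_num) (by norm_num)
    (exp_neg_leJ (r := 0.214) 5 (by norm_num) (by norm_num) (by norm_num) (by norm_num))
    (exp_neg_leJ (r := 0.867) 3 (by norm_num) (by norm_num) (by norm_num) (by norm_num))
    (exp_neg_leJ (r := 0.945) 9 (by norm_num) (by norm_num) (by norm_num) (by norm_num))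
    (exp_neg_leJ (r := 0.99) 14 (by norm_num) (by norm_num) (by norm_num) (by norm_num))
    (exp_neg_leJ (r := 0.016) 6 (by norm_num) (by norm_num) (by norm_num) (by norm_num))
    (exp_neg_leJ (r := 0.732) 13 (by norm_num) (by norm_num) (by norm_num) (by norm_num))
    (exp_neg_leJ (r := 0.99) 14 (by norm_num) (by norm_num) (by norm_num) (by norm_num))
    (exp_neg_leJ (r := 0.99) 14 (by norm_num) (by norm_num) (by norm_num) (by norm_num))
    (by norm_num)) (by norm_num) hN hβ.le (by norm_num)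

private theorem B5Lo_T34_0_1 {β x y : ℝ} (hβ : 0 < β) (hN : β * 7.352 ≤ 1) (hx1 : 1.071 ≤ x) (hx2 : x ≤ 1.1126)
    (hy1 : -0 ≤ y) (hy2 : y ≤ 0.2491) : ‖HH β (x + y * I) - 1‖ ≤ 0.075 := by
  refine le_epsJ (C := 0.5196) (N0 := 7.352) (J_boxp 1.071 1.1126 0 0.2491 0.2491 1.4641 1.1402 1.6728 0.7301 0.516 2.7115 7.352 0.7788 2.864 1.421 0.9921 0.732 0.542 1.3748 3.4533 0.8498 1.9575 2.6443 2.5809 0.004604 0.01868 0.0000408 0.0000003101 0.001937 0.0000005625 0.0000003101 0.0000003101 0.5196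
    hβ hN hx1 hx2 hy1 hy2 (by norm_num) (by norm_num) (by linarith) (by norm_num) (by norm_num) (by norm_num) (by norm_num) (by norm_num) (by norm_num) (by norm_num) (by norm_num) (by norm_num) (by norm_num) (by norm_num) (by norm_num) (by norm_num) (by norm_num) (by norm_num) (by norm_num) (by norm_num) (by norm_num) (by norm_num) (by norm_num) (by norm_num)
    (cube_sqrt_geJ (s := 0.8604) (by norm_num) (by norm_num) (by norm_num) (by norm_num))
    (cube_sqrt_geJ (s := 0.9511) (by norm_num) (by norm_num) (by norm_num) (by norm_num))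
    (by norm_num) (by norm_num) (by norm_num) (by norm_num) (by norm_num) (by norm_num) (by norm_num) (by norm_num) (by norm_num) (by norm_num) (by norm_num) (by norm_num) (by norm_num) (by norm_num) (by norm_num) (by norm_num) (by norm_num) (by norm_num)
    (exp_neg_leJ (r := 0.381) 5 (by norm_num) (by norm_num) (by norm_num) (by norm_num))
    (exp_neg_leJ (r := 0.984) 3 (by norm_num) (by norm_num) (by norm_num) (by norm_num))
    (exp_neg_leJ (r := 0.107) 10 (by norm_num) (by norm_num) (by norm_num) (by norm_num))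
    (exp_neg_leJ (r := 0.99) 14 (by norm_num) (by norm_num) (by norm_num) (by norm_num))
    (exp_neg_leJ (r := 0.247) 6 (by norm_num) (by norm_num) (by norm_num) (by norm_num))
    (exp_neg_leJ (r := 0.391) 14 (by norm_num) (by norm_num) (by norm_num) (by norm_num))
    (exp_neg_leJ (r := 0.99) 14 (by norm_num) (by norm_num) (by norm_num) (by norm_num))
    (exp_neg_leJ (r := 0.99) 14 (by norm_num) (by norm_num) (by norm_num) (by norm_num))
    (by norm_num)) (by norm_num) hN hβ.le (by norm_num)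

private theorem B5Lo_T34 {β x y : ℝ} (hβ : 0 < β) (hN : β * 7.352 ≤ 1) (hx1 : 1.0063 ≤ x) (hx2 : x ≤ 1.1126)
    (hy1 : 0.1869 ≤ y) (hy2 : y ≤ 0.2491) : ‖HH β (x + y * I) - 1‖ ≤ 0.075 := by
  rcases le_total x 1.071 with hxx | hxx
  · exact B5Lo_T34_0_0 hβ hN (by linarith) (by linarith) (by linarith) (by linarith)
  exact B5Lo_T34_0_1 hβ hN (by linarith) (by linarith) (by linarith) (by linarith)

private theorem B5Lo_G35 {κ : ℝ} (hk1 : 1.33 ≤ κ) (hk2 : κ ≤ 1.36) : gG κ 0.38 ≤ 1.24005 ∧ 0.35571 ≤ Real.exp (-(κ * 0.38)) ^ 2 := by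
  refine ⟨gG_le 0.38 1.33 1.36 1.24005 0.60327 0.59643 1.65765 1.67666 hk1 hk2 (by norm_num)
    (ex_um 0.5054 (by norm_num) (by norm_num) (by norm_num) (by norm_num)) (ex_um 0.5168 (by norm_num) (by norm_num) (by norm_num) (by norm_num))
    (ex_up 0.5054 (by norm_num) (by norm_num) (by norm_num) (by norm_num)) (ex_up 0.5168 (by norm_num) (by norm_num) (by norm_num) (by norm_num))
    (by norm_num) (by norm_num), ?_⟩
  exact v5_M 0.59642 (ex_lm 0.5168 (by linarith) (by norm_num) (by norm_num) (by norm_num) (by norm_num)) (by norm_num) (by norm_num)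

private theorem B5Lo_C36 {β r t κ : ℝ} (hβ : 0 < β) (hr : 10 ≤ r) (hκ : κ = β * r) (hk1 : 1.33 ≤ κ) (hk2 : κ ≤ 1.36) (hta : 1.6716 ≤ t + κ)
    (htb : t + κ ≤ 1.8222) : ‖F (cexp (I * β)) (r * cexp (I * ((t + β / 2 : ℝ) : ℂ)))‖ ≤
      1.6051 * Real.exp (r * (1.24005 - 0.38 * (t + κ))) + 0.2255 * Real.exp (r * 0) :=
  v5_H 0.38 1.33 1.36 1.6716 1.8222 1.24005 1.5664 0.35571 0.1472 1.8822 1.0784 0.12634 0.2828 0.0000136 1.6051 0.2255 hβ hr hκ (by norm_num) hk1 hk2 hta htb (by norm_num) (B5Lo_G35 hk1 hk2).1 (B5Lo_G35 hk1 hk2).2 (by norm_num) (by norm_num) (by norm_num)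
    (by norm_num) (by norm_num) (by norm_num) (by norm_num) (by norm_num) (by norm_num) (by norm_num) (by norm_num) (ex_un 1 0.2633 (by norm_num) (by norm_num) (by norm_num) (by norm_num))
    (v5_hump 1.5529 7.352 2.7115 0.00001102 0.0000136 hβ hr hκ hk1 hk2 (by norm_num) htb (by norm_num) (by norm_num) (by norm_num) (by norm_num) (by norm_num) (by norm_num) (by norm_num) (ex_un 11 0.4169 (by norm_num) (by norm_num) (by norm_num) (by norm_num)) (by norm_num)) (by norm_num) (by norm_num)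

private theorem B5Lo_G37 {κ : ℝ} (hk1 : 1.33 ≤ κ) (hk2 : κ ≤ 1.36) : gG κ (-0.63) ≤ 1.58361 ∧ 5.34275 ≤ Real.exp (-(κ * (-0.63))) ^ 2 := by
  refine ⟨gG_le (-0.63) 1.33 1.36 1.58361 2.31151 2.35562 0.43264 0.42454 hk1 hk2 (by norm_num)
    (ex_up 0.8379 (by norm_num) (by norm_num) (by norm_num) (by norm_num)) (ex_up 0.8568 (by norm_num) (by norm_num) (by norm_num) (by norm_num))
    (ex_um 0.8379 (by norm_num) (by norm_num) (by norm_num) (by norm_num)) (ex_um 0.8568 (by norm_num) (by norm_num) (by norm_num) (by norm_num))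
    (by norm_num) (by norm_num), ?_⟩
  exact v5_M 2.31144 (ex_lp 0.8379 (by linarith) (by norm_num) (by norm_num)) (by norm_num) (by norm_num)

private theorem B5Lo_C38 {β r t κ : ℝ} (hβ : 0 < β) (hr : 10 ≤ r) (hκ : κ = β * r) (hk1 : 1.33 ≤ κ) (hk2 : κ ≤ 1.36) (hta : (-2.0983) ≤ t + κ)
    (htb : t + κ ≤ (-1.9477)) : ‖F (cexp (I * β)) (r * cexp (I * ((t + β / 2 : ℝ) : ℂ)))‖ ≤
      0.7122 * Real.exp (r * (1.58361 - (-0.63) * (t + κ))) + 1.7053 * Real.exp (r * 0.0501) :=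
  v5_HU (-0.63) 1.33 1.36 (-2.0983) (-1.9477) 1.58361 0.7122 5.34275 0.1472 0.6636 1.2536 0 0.0501 0.00000115 1.7053 hβ hr hκ (by norm_num) hk1 hk2 hta htb (by norm_num) (by norm_num) (B5Lo_G37 hk1 hk2).1 (B5Lo_G37 hk1 hk2).2 (by norm_num) (by norm_num) (by norm_num)
    (by norm_num) (by norm_num) (by norm_num) (by norm_num) (by norm_num) (by norm_num) (by norm_num)
    (by norm_num) (by norm_num) (by norm_num) (v5_hump 5.3228 7.352 2.7115 0.0000009316 0.00000115 hβ hr hκ hk1 hk2 (by norm_num) htb (by norm_num) (by norm_num) (by norm_num) (by norm_num) (by norm_num) (by norm_num) (by norm_num) (ex_un 13 0.9 (by norm_num) (by norm_num) (by norm_num) (by norm_num)) (by norm_num)) (by norm_num)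

private theorem B5Lo_C39 {β r t κ : ℝ} (hβ : 0 < β) (hr : 10 ≤ r) (hκ : κ = β * r) (hk1 : 1.33 ≤ κ) (hk2 : κ ≤ 1.36) (hta : 2.9282 ≤ t + κ)
    (htb : t + κ ≤ 3.0788) : ‖F (cexp (I * β)) (r * cexp (I * ((t + β / 2 : ℝ) : ℂ)))‖ ≤
      3.6538 * Real.exp (r * (0.05 + 1 / 20)) :=
  v5_UD 1.33 1.36 2.9282 3.0788 0.05 0.346 0.05 1.9049 3.6538 hβ hr hκ (by norm_num) hk1 hk2 hta htb (by norm_num) (by norm_num) (by norm_num) (by norm_num) (by norm_num) (by norm_num) (by norm_num) (by norm_num) (by norm_num) (by norm_num) (by norm_num)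

private theorem B5Lo_Y40 {β r t κ h t' : ℝ} (hβ : 0 < β) (hκ : κ = β * r) (hN : β * 7.352 ≤ 1) (hk1 : 1.33 ≤ κ) (hk2 : κ ≤ 1.36)
    (ht : t' = t + (((1 : ℤ) : ℝ) - 1) * h) (hD : DomR κ t') (hta : 0.415 ≤ t' + κ) (htb : t' + κ ≤ 0.5655) :
    0.7252 * Real.exp (r * sE κ t') ≤ ‖Xf β r h t 1‖ := by
  obtain ⟨⟨ya, yb⟩, ⟨xa, xb⟩, n1, Da, Db⟩ := B5Lo_B33 hD hk1 hk2 hta htb
  have J := B5Lo_T34 (x := sx κ t') (y := sy κ t') hβ hN (by linarith only [xa, xb, ya, yb]) (by linarith only [xa, xb, ya, yb]) (by linarith only [xa, xb, ya, yb]) (by linarith only [xa, xb, ya, yb])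
  exact v5_Jlo hβ hκ (k := 1) ht hD 0.075 2.6466 0.7252 (by norm_num) J Db (by norm_num)

private theorem B5Lo_V41 {κ t : ℝ} (hD : DomR κ t) (hk1 : 1.33 ≤ κ) (hk2 : κ ≤ 1.36) (hta : 0.415 ≤ t + κ) (htb : t + κ ≤ 0.5655) :
    1.03994 - 0.1694 * (t + κ) ≤ sE κ t := by
  have hκ0 : 0 < κ := hD.1
  exact v5_V1 hD 1.33 1.36 0.415 0.5655 0.02906 0.09856 0.26075 1.03994 0.1694 (by norm_num) hk1 hk2 (by norm_num) (by norm_num) hta htb (by norm_num) (clo5 1.33 1.36 0.26075 (by norm_num) hk1 hk2 (by norm_num) (by norm_num) (by norm_num))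
      ((cup2 1.33 (by norm_num) hk1).trans (by norm_num)) (by norm_num) (by norm_num) (by norm_num) (by norm_num) (by norm_num) (by norm_num)

private theorem B5Lo_K42 {β r t κ h : ℝ} (hβ : 0 < β) (hr : 10 ≤ r) (hκ : κ = β * r) (hk1 : 1.33 ≤ κ) (hk2 : κ ≤ 1.36)
    (hh : h = 2 * Real.pi / 5) (hh1 : 1.25663 ≤ h) (hh2 : h ≤ 1.25664) (hta : 0.415 ≤ t + κ) (htb : t + κ ≤ 0.5655)
    (hY : 0.7252 * Real.exp (r * sE κ t) ≤ ‖Xf β r h t 1‖) (hV : 1.03994 - 0.1694 * (t + κ) ≤ sE κ t) :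
    ‖Xf β r h t 2‖ ≤ 0.0581 * ‖Xf β r h t 1‖ := by
  rw [v5_X 2 1 (by push_cast; ring)]
  exact v5_cmp 0.3648 0.02617 0.058 0.9441 0.0000795 0.0000248 0.0581 hr (B5Lo_C36 (t := t + 1 * h) hβ hr hκ hk1 hk2 (by linarith only [hta, htb, hh1, hh2]) (by linarith only [hta, htb, hh1, hh2])) hY (by norm_num) (by norm_num) (by norm_num) (by norm_num) (by linarith only [hV, hta, htb, hh1, hh2]) (ex_un 3 0.6479 (by norm_num) (by norm_num) (by norm_num) (by norm_num)) (by norm_num) (by norm_num) (by linarith only [hV, hta, htb, hh1, hh2]) (ex_un 9 0.4409 (by norm_num) (by norm_num) (by norm_num) (by norm_num)) (by norm_num) (by norm_num)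

private theorem B5Lo_K43 {β r t κ h : ℝ} (hβ : 0 < β) (hr : 10 ≤ r) (hκ : κ = β * r) (hk1 : 1.33 ≤ κ) (hk2 : κ ≤ 1.36)
    (hh : h = 2 * Real.pi / 5) (hh1 : 1.25663 ≤ h) (hh2 : h ≤ 1.25664) (hta : 0.415 ≤ t + κ) (htb : t + κ ≤ 0.5655)
    (hY : 0.7252 * Real.exp (r * sE κ t) ≤ ‖Xf β r h t 1‖) (hV : 1.03994 - 0.1694 * (t + κ) ≤ sE κ t) :
    ‖Xf β r h t (-1)‖ ≤ 0.00312 * ‖Xf β r h t 1‖ := by
  rw [v5_X (-1) (-2) (by push_cast; ring)]
  exact v5_cmp 0.5876 0.002842 0.0028 0.894 0.0001332 0.000314 0.00312 hr (B5Lo_C38 (t := t + (-2) * h) hβ hr hκ hk1 hk2 (by linarith only [hta, htb, hh1, hh2]) (by linarith only [hta, htb, hh1, hh2])) hY (by norm_num) (by norm_num) (by norm_num) (by norm_num) (by linarith only [hV, hta, htb, hh1, hh2]) (ex_un 5 0.8759 (by norm_num) (by norm_num) (by norm_num) (by norm_num)) (by norm_num) (by norm_num) (by linarith only [hV, hta, htb, hh1, hh2]) (ex_un 8 0.9399 (by norm_num) (by norm_num) (by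 norm_num) (by norm_num)) (by norm_num) (by norm_num)

private theorem B5Lo_K44 {β r t κ h : ℝ} (hβ : 0 < β) (hr : 10 ≤ r) (hκ : κ = β * r) (hk1 : 1.33 ≤ κ) (hk2 : κ ≤ 1.36)
    (hh : h = 2 * Real.pi / 5) (hh1 : 1.25663 ≤ h) (hh2 : h ≤ 1.25664) (hta : 0.415 ≤ t + κ) (htb : t + κ ≤ 0.5655)
    (hY : 0.7252 * Real.exp (r * sE κ t) ≤ ‖Xf β r h t 1‖) (hV : 1.03994 - 0.1694 * (t + κ) ≤ sE κ t) :
    ‖Xf β r h t (-2)‖ ≤ 0.00109 * ‖Xf β r h t 1‖ := by
  rw [v5_Xm2 hh]
  exact v5_cmp0 0.8441 0.0002161 0.00109 hr (B5Lo_C39 (t := t + 2 * h) hβ hr hκ hk1 hk2 (by linarith only [hta, htb, hh1, hh2]) (by linarith only [hta, htb, hh1, hh2])) hY (by norm_num) (by norm_num) (by norm_num) (by linarith only [hV, hta, htb, hh1, hh2]) (ex_un 8 0.4409 (by norm_num) (by norm_num) (by norm_num) (by norm_num)) (by norm_num)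

private theorem B5Lo_G45 {κ : ℝ} (hk1 : 1.33 ≤ κ) (hk2 : κ ≤ 1.36) : gG κ (-0.24) ≤ 1.08041 ∧ 1.89343 ≤ Real.exp (-(κ * (-0.24))) ^ 2 := by
  refine ⟨gG_le (-0.24) 1.33 1.36 1.08041 1.37603 1.38597 0.72674 0.72152 hk1 hk2 (by norm_num)
    (ex_up 0.3192 (by norm_num) (by norm_num) (by norm_num) (by norm_num)) (ex_up 0.3264 (by norm_num) (by norm_num) (by norm_num) (by norm_num))
    (ex_um 0.3192 (by norm_num) (by norm_num) (by norm_num) (by norm_num)) (ex_um 0.3264 (by norm_num) (by norm_num) (by norm_num) (by norm_num))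
    (by norm_num) (by norm_num), ?_⟩
  exact v5_M 1.37602 (ex_lp 0.3192 (by linarith) (by norm_num) (by norm_num)) (by norm_num) (by norm_num)

private theorem B5Lo_B46 {κ t : ℝ} (h : DomR κ t) (hk1 : 1.33 ≤ κ) (hk2 : κ ≤ 1.36) (ht1 : (-0.8417) ≤ t + κ) (ht2 : t + κ ≤ (-0.6911)) :
    ((-0.413) ≤ sy κ t ∧ sy κ t ≤ (-0.336)) ∧ (1.8146 ≤ sx κ t ∧ sx κ t ≤ 2.0278) ∧ κ * Real.exp (-sy κ t) ≤ 2.0555 ∧ 3.7917 ≤ sD κ t ∧ sD κ t ≤ 4.3989 := by
  have hy1 : -0.413 ≤ sy κ t := syL_ge h 1.33 1.36 0.8417 0.413 0.66166 0.66167 0.1997 0.20093 0.20547 hk1 hk2 (by linarith) (by norm_num) (by norm_num) (by norm_num)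
    (expm_ge (by norm_num) (by norm_num) (by norm_num) (by norm_num)) (expm_le (by norm_num) (by norm_num) (by norm_num)) (by norm_num)
    (by norm_num) (by norm_num) (by norm_num) (by norm_num) (by norm_num) (by norm_num)
  have hy2 : sy κ t ≤ -0.336 := syL_le h 1.33 1.36 0.6911 0.336 0.71462 0.71463 0.17655 0.18054 hk1 hk2 (by linarith) (by norm_num) (by norm_num) (by norm_num)
    (expm_ge (by norm_num) (by norm_num) (by norm_num) (by norm_num)) (expm_le (by norm_num) (by norm_num) (by norm_num)) (by norm_num)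
    (by norm_num) (by norm_num) (by norm_num) (by norm_num) (by norm_num) (by norm_num)
  have hy1' : (-0.413) ≤ sy κ t := by linarith
  have hy2' : sy κ t ≤ (-0.336) := by linarith
  have hx1 : 1.8146 ≤ sx κ t := sx_lo h 1.33 (-0.336) 0.4131 1.39933 1.8146 hk1 (by norm_num) hy2' (abs_le.2 ⟨by linarith, by linarith⟩) (ex_lp 0.336 (by norm_num) (by norm_num) (by norm_num)) (by norm_num) (by norm_num)
  have hx2 : sx κ t ≤ 2.0278 := sx_hi h 1.36 (-0.413) 0.336 1.51135 2.0278 hk2 hy1' (by norm_num) (le_trans (by linarith) (neg_le_abs _)) (ex_up 0.413 (by norm_num) (by norm_num) (by norm_num) (by norm_num)) (by norm_num) (by norm_num)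
  refine ⟨⟨hy1', hy2'⟩, ⟨hx1, hx2⟩, v5_n h 1.36 (-0.413) 1.51135 2.0555 hk2 hy1' (ex_up 0.413 (by norm_num) (by norm_num) (by norm_num) (by norm_num)) (by norm_num), ?_, ?_⟩
  · exact v5_Dlo h 1.33 (-0.413) (-0.336) (-0.336) 1.39933 3.7917 (by norm_num) hk1 hy1' hy2' (ex_lp 0.336 (by norm_num) (by norm_num) (by norm_num)) (by norm_num) (by norm_num) (by norm_num) (by norm_num)
  · exact v5_Dup h 1.36 (-0.413) (-0.336) 1.51135 1.39934 4.3989 hk2 hy1' hy2' (ex_up 0.413 (by norm_num) (by norm_num) (by norm_num) (by norm_num)) (ex_up 0.336 (by norm_num) (by norm_num) (by norm_num) (by norm_num)) (by norm_num) (by norm_num) (by norm_num)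

private theorem B5Lo_T47_0_0 {β x y : ℝ} (hβ : 0 < β) (hN : β * 7.352 ≤ 1) (hx1 : 1.8145 ≤ x) (hx2 : x ≤ 1.862)
    (hy1 : -0.4131 ≤ y) (hy2 : y ≤ -0.3359) : ‖HH β (x + y * I) - 1‖ ≤ 0.14 := by
  refine le_epsJ (C := 1.0273) (N0 := 7.352) (J_boxp 1.8145 1.862 0.4131 0 (-0.3359) 1.6943 1.9073 1.9769 0.6376 0.561 2.7115 7.352 1.1258 5.189 1.681 0.3226 0.8471 0.5292 0.9773 1.7187 1.0106 3.0123 4.0767 3.1564 0.001976 0.0205 0.0007579 0.000003258 0.0005939 0.0000003101 0.0000003101 0.0000003101 1.0273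
    hβ hN hx1 hx2 hy1 hy2 (by norm_num) (by norm_num) (by linarith) (by norm_num) (by norm_num) (by norm_num) (by norm_num) (by norm_num) (by norm_num) (by norm_num) (by norm_num) (by norm_num) (by norm_num) (by norm_num) (by norm_num) (by norm_num) (by norm_num) (by norm_num) (by norm_num) (by norm_num) (by norm_num) (by norm_num) (by norm_num) (by norm_num)
    (cube_sqrt_geJ (s := 0.7904) (by norm_num) (by norm_num) (by norm_num) (by norm_num))
    (cube_sqrt_geJ (s := 0.9285) (by norm_num) (by norm_num) (by norm_num) (by norm_num))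
    (by norm_num) (by norm_num) (by norm_num) (by norm_num) (by norm_num) (by norm_num) (by norm_num) (by norm_num) (by norm_num) (by norm_num) (by norm_num) (by norm_num) (by norm_num) (by norm_num) (by norm_num) (by norm_num) (by norm_num) (by norm_num)
    (exp_neg_leJ (r := 0.227) 6 (by norm_num) (by norm_num) (by norm_num) (by norm_num))
    (exp_neg_leJ (r := 0.89) 3 (by norm_num) (by norm_num) (by norm_num) (by norm_num))
    (exp_neg_leJ (r := 0.185) 7 (by norm_num) (by norm_num) (by norm_num) (by norm_num))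
    (exp_neg_leJ (r := 0.635) 12 (by norm_num) (by norm_num) (by norm_num) (by norm_num))
    (exp_neg_leJ (r := 0.429) 7 (by norm_num) (by norm_num) (by norm_num) (by norm_num))
    (exp_neg_leJ (r := 0.99) 14 (by norm_num) (by norm_num) (by norm_num) (by norm_num))
    (exp_neg_leJ (r := 0.99) 14 (by norm_num) (by norm_num) (by norm_num) (by norm_num))
    (exp_neg_leJ (r := 0.99) 14 (by norm_num) (by norm_num) (by norm_num) (by norm_num))
    (by norm_num)) (by norm_num) hN hβ.le (by norm_num)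

private theorem B5Lo_T47_0_1 {β x y : ℝ} (hβ : 0 < β) (hN : β * 7.352 ≤ 1) (hx1 : 1.862 ≤ x) (hx2 : x ≤ 1.918)
    (hy1 : -0.4131 ≤ y) (hy2 : y ≤ -0.3359) : ‖HH β (x + y * I) - 1‖ ≤ 0.14 := by
  refine le_epsJ (C := 1.029) (N0 := 7.352) (J_boxp 1.862 1.918 0.4131 0 (-0.3359) 1.7278 1.962 2.0298 0.6274 0.5684 2.7115 7.352 1.1356 5.286 1.689 0.3011 0.8638 0.5368 0.9935 1.6867 1.0337 3.0781 4.1717 3.1027 0.001747 0.01939 0.0006729 0.000004119 0.0005012 0.0000003101 0.0000003101 0.0000003101 1.029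
    hβ hN hx1 hx2 hy1 hy2 (by norm_num) (by norm_num) (by linarith) (by norm_num) (by norm_num) (by norm_num) (by norm_num) (by norm_num) (by norm_num) (by norm_num) (by norm_num) (by norm_num) (by norm_num) (by norm_num) (by norm_num) (by norm_num) (by norm_num) (by norm_num) (by norm_num) (by norm_num) (by norm_num) (by norm_num) (by norm_num) (by norm_num)
    (cube_sqrt_geJ (s := 0.7883) (by norm_num) (by norm_num) (by norm_num) (by norm_num))
    (cube_sqrt_geJ (s := 0.9278) (by norm_num) (by norm_num) (by norm_num) (by norm_num))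
    (by norm_num) (by norm_num) (by norm_num) (by norm_num) (by norm_num) (by norm_num) (by norm_num) (by norm_num) (by norm_num) (by norm_num) (by norm_num) (by norm_num) (by norm_num) (by norm_num) (by norm_num) (by norm_num) (by norm_num) (by norm_num)
    (exp_neg_leJ (r := 0.35) 6 (by norm_num) (by norm_num) (by norm_num) (by norm_num))
    (exp_neg_leJ (r := 0.946) 3 (by norm_num) (by norm_num) (by norm_num) (by norm_num))
    (exp_neg_leJ (r := 0.304) 7 (by norm_num) (by norm_num) (by norm_num) (by norm_num))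
    (exp_neg_leJ (r := 0.4) 12 (by norm_num) (by norm_num) (by norm_num) (by norm_num))
    (exp_neg_leJ (r := 0.599) 7 (by norm_num) (by norm_num) (by norm_num) (by norm_num))
    (exp_neg_leJ (r := 0.99) 14 (by norm_num) (by norm_num) (by norm_num) (by norm_num))
    (exp_neg_leJ (r := 0.99) 14 (by norm_num) (by norm_num) (by norm_num) (by norm_num))
    (exp_neg_leJ (r := 0.99) 14 (by norm_num) (by norm_num) (by norm_num) (by norm_num))
    (by norm_num)) (by norm_num) hN hβ.le (by norm_num)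

private theorem B5Lo_T47_0_2 {β x y : ℝ} (hβ : 0 < β) (hN : β * 7.352 ≤ 1) (hx1 : 1.918 ≤ x) (hx2 : x ≤ 1.983)
    (hy1 : -0.4131 ≤ y) (hy2 : y ≤ -0.3359) : ‖HH β (x + y * I) - 1‖ ≤ 0.14 := by
  refine le_epsJ (C := 1.0289) (N0 := 7.352) (J_boxp 1.918 1.983 0.4131 0 (-0.3359) 1.7672 2.0256 2.0913 0.6156 0.577 2.7115 7.352 1.1463 5.393 1.698 0.2761 0.8835 0.5459 1.0127 1.6495 1.0609 3.1556 4.2837 3.0419 0.001512 0.01808 0.0005845 0.000005412 0.0004108 0.0000003101 0.0000003101 0.0000003101 1.0289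
    hβ hN hx1 hx2 hy1 hy2 (by norm_num) (by norm_num) (by linarith) (by norm_num) (by norm_num) (by norm_num) (by norm_num) (by norm_num) (by norm_num) (by norm_num) (by norm_num) (by norm_num) (by norm_num) (by norm_num) (by norm_num) (by norm_num) (by norm_num) (by norm_num) (by norm_num) (by norm_num) (by norm_num) (by norm_num) (by norm_num) (by norm_num)
    (cube_sqrt_geJ (s := 0.786) (by norm_num) (by norm_num) (by norm_num) (by norm_num))
    (cube_sqrt_geJ (s := 0.9271) (by norm_num) (by norm_num) (by norm_num) (by norm_num))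
    (by norm_num) (by norm_num) (by norm_num) (by norm_num) (by norm_num) (by norm_num) (by norm_num) (by norm_num) (by norm_num) (by norm_num) (by norm_num) (by norm_num) (by norm_num) (by norm_num) (by norm_num) (by norm_num) (by norm_num) (by norm_num)
    (exp_neg_leJ (r := 0.495) 6 (by norm_num) (by norm_num) (by norm_num) (by norm_num))
    (exp_neg_leJ (r := 0.013) 4 (by norm_num) (by norm_num) (by norm_num) (by norm_num))
    (exp_neg_leJ (r := 0.445) 7 (by norm_num) (by norm_num) (by norm_num) (by norm_num))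
    (exp_neg_leJ (r := 0.127) 12 (by norm_num) (by norm_num) (by norm_num) (by norm_num))
    (exp_neg_leJ (r := 0.799) 7 (by norm_num) (by norm_num) (by norm_num) (by norm_num))
    (exp_neg_leJ (r := 0.99) 14 (by norm_num) (by norm_num) (by norm_num) (by norm_num))
    (exp_neg_leJ (r := 0.99) 14 (by norm_num) (by norm_num) (by norm_num) (by norm_num))
    (exp_neg_leJ (r := 0.99) 14 (by norm_num) (by norm_num) (by norm_num) (by norm_num))
    (by norm_num)) (by norm_num) hN hβ.le (by norm_num)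

private theorem B5Lo_T47_0_3 {β x y : ℝ} (hβ : 0 < β) (hN : β * 7.352 ≤ 1) (hx1 : 1.983 ≤ x) (hx2 : x ≤ 2.0279)
    (hy1 : -0.4131 ≤ y) (hy2 : y ≤ -0.3359) : ‖HH β (x + y * I) - 1‖ ≤ 0.14 := by
  refine le_epsJ (C := 0.9775) (N0 := 7.352) (J_boxp 1.983 2.0279 0.4131 0 (-0.3359) 1.813 2.0696 2.1339 0.5984 0.5828 2.7115 7.352 1.1416 5.346 1.694 0.2588 0.9064 0.5615 1.035 1.6238 1.0925 3.2456 4.4137 3.0523 0.001279 0.01612 0.0004962 0.000006556 0.000325 0.0000003101 0.0000003101 0.0000003101 0.9775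
    hβ hN hx1 hx2 hy1 hy2 (by norm_num) (by norm_num) (by linarith) (by norm_num) (by norm_num) (by norm_num) (by norm_num) (by norm_num) (by norm_num) (by norm_num) (by norm_num) (by norm_num) (by norm_num) (by norm_num) (by norm_num) (by norm_num) (by norm_num) (by norm_num) (by norm_num) (by norm_num) (by norm_num) (by norm_num) (by norm_num) (by norm_num)
    (cube_sqrt_geJ (s := 0.787) (by norm_num) (by norm_num) (by norm_num) (by norm_num))
    (cube_sqrt_geJ (s := 0.9274) (by norm_num) (by norm_num) (by norm_num) (by norm_num))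
    (by norm_num) (by norm_num) (by norm_num) (by norm_num) (by norm_num) (by norm_num) (by norm_num) (by norm_num) (by norm_num) (by norm_num) (by norm_num) (by norm_num) (by norm_num) (by norm_num) (by norm_num) (by norm_num) (by norm_num) (by norm_num)
    (exp_neg_leJ (r := 0.663) 6 (by norm_num) (by norm_num) (by norm_num) (by norm_num))
    (exp_neg_leJ (r := 0.128) 4 (by norm_num) (by norm_num) (by norm_num) (by norm_num))
    (exp_neg_leJ (r := 0.609) 7 (by norm_num) (by norm_num) (by norm_num) (by norm_num))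
    (exp_neg_leJ (r := 0.938) 11 (by norm_num) (by norm_num) (by norm_num) (by norm_num))
    (exp_neg_leJ (r := 0.032) 8 (by norm_num) (by norm_num) (by norm_num) (by norm_num))
    (exp_neg_leJ (r := 0.99) 14 (by norm_num) (by norm_num) (by norm_num) (by norm_num))
    (exp_neg_leJ (r := 0.99) 14 (by norm_num) (by norm_num) (by norm_num) (by norm_num))
    (exp_neg_leJ (r := 0.99) 14 (by norm_num) (by norm_num) (by norm_num) (by norm_num))
    (by norm_num)) (by norm_num) hN hβ.le (by norm_num)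

private theorem B5Lo_T47 {β x y : ℝ} (hβ : 0 < β) (hN : β * 7.352 ≤ 1) (hx1 : 1.8145 ≤ x) (hx2 : x ≤ 2.0279)
    (hy1 : (-0.4131) ≤ y) (hy2 : y ≤ (-0.3359)) : ‖HH β (x + y * I) - 1‖ ≤ 0.14 := by
  rcases le_total x 1.862 with hxx | hxx
  · exact B5Lo_T47_0_0 hβ hN (by linarith) (by linarith) (by linarith) (by linarith)
  rcases le_total x 1.918 with hxx | hxx
  · exact B5Lo_T47_0_1 hβ hN (by linarith) (by linarith) (by linarith) (by linarith)
  rcases le_total x 1.983 with hxx | hxx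
  · exact B5Lo_T47_0_2 hβ hN (by linarith) (by linarith) (by linarith) (by linarith)
  exact B5Lo_T47_0_3 hβ hN (by linarith) (by linarith) (by linarith) (by linarith)

private theorem B5Lo_U48 {β r t κ h t' : ℝ} (hβ : 0 < β) (hκ : κ = β * r) (hN : β * 7.352 ≤ 1) (hk1 : 1.33 ≤ κ) (hk2 : κ ≤ 1.36)
    (ht : t' = t + (((0 : ℤ) : ℝ) - 1) * h) (hD : DomR κ t') (hta : (-0.8417) ≤ t' + κ) (htb : t' + κ ≤ (-0.6911)) :
    ‖Xf β r h t 0‖ ≤ 0.817 * Real.exp (r * sE κ t') := by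
  obtain ⟨⟨ya, yb⟩, ⟨xa, xb⟩, n1, Da, Db⟩ := B5Lo_B46 hD hk1 hk2 hta htb
  have J := B5Lo_T47 (x := sx κ t') (y := sy κ t') hβ hN (by linarith only [xa, xb, ya, yb]) (by linarith only [xa, xb, ya, yb]) (by linarith only [xa, xb, ya, yb]) (by linarith only [xa, xb, ya, yb])
  exact v5_Jup (h := h) (t := t) (k := 0) hβ hκ ht hD 0.14 3.7917 0.817 J Da (by norm_num) (by norm_num)

private theorem B5Lo_K49 {β r t κ h : ℝ} (hβ : 0 < β) (hr : 10 ≤ r) (hκ : κ = β * r) (hk1 : 1.33 ≤ κ) (hk2 : κ ≤ 1.36)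
    (hh : h = 2 * Real.pi / 5) (hh1 : 1.25663 ≤ h) (hh2 : h ≤ 1.25664) (hta : 0.415 ≤ t + κ) (htb : t + κ ≤ 0.5655) (hN : β * 7.352 ≤ 1)
    (hD : DomR κ (t - h)) (hY : 0.7252 * Real.exp (r * sE κ t) ≤ ‖Xf β r h t 1‖) (hV : 1.03994 - 0.1694 * (t + κ) ≤ sE κ t) :
    ‖Xf β r h t 0‖ ≤ 0.839 * ‖Xf β r h t 1‖ := by
  have hU := B5Lo_U48 (h := h) (t := t) hβ hκ hN hk1 hk2 (by push_cast; ring) hD (by linarith only [hta, htb, hh1, hh2]) (by linarith only [hta, htb, hh1, hh2])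
  have hW := V_up hD (-0.24) (B5Lo_G45 hk1 hk2).1
  exact v5_cmpJ 0.0296 0.7441 0.839 hr hU hW hY (by norm_num) (by norm_num) (by norm_num) (by linarith only [hV, hta, htb, hh1, hh2]) (ex_un 0 0.2959 (by norm_num) (by norm_num) (by norm_num) (by norm_num)) (by norm_num)

private theorem B5Lo_O50 {β r t κ h : ℝ} (hβ : 0 < β) (hr : 10 ≤ r) (hκ : κ = β * r) (hk1 : 1.33 ≤ κ) (hk2 : κ ≤ 1.36)
    (hh : h = 2 * Real.pi / 5) (hta : 0.415 ≤ t + κ) (htb : t + κ ≤ 0.5655) :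
    ‖Xf β r h t (-2)‖ + ‖Xf β r h t (-1)‖ + ‖Xf β r h t 2‖ < |‖Xf β r h t 1‖ - ‖Xf β r h t 0‖| := by
  obtain ⟨hh1, hh2⟩ := v5_h hh
  have hκ0 : 0 < κ := by linarith only [hk1]
  have hN : β * 7.352 ≤ 1 := v5_hN 1.36 7.352 hβ hr hκ hk2 (by norm_num) (by norm_num)
  have hD1 : DomR κ t := v5_dom hκ0 (by linarith only [hta, htb, hk1, hk2, hh1, hh2]) (Or.inr (by linarith only [hta, htb, hk1, hk2, hh1, hh2]))
  have e1 : t = t + (((1 : ℤ) : ℝ) - 1) * h := by push_cast; ring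
  have hY := B5Lo_Y40 (h := h) hβ hκ hN hk1 hk2 e1 hD1 hta htb
  have hV := B5Lo_V41 hD1 hk1 hk2 hta htb
  have hD0 : DomR κ (t - h) := v5_dom hκ0 (by linarith only [hta, htb, hk1, hk2, hh1, hh2]) (Or.inl (by linarith only [hk1]))
  have cp2 := B5Lo_K42 hβ hr hκ hk1 hk2 hh hh1 hh2 hta htb hY hV
  have cm1 := B5Lo_K43 hβ hr hκ hk1 hk2 hh hh1 hh2 hta htb hY hV
  have cm2 := B5Lo_K44 hβ hr hκ hk1 hk2 hh hh1 hh2 hta htb hY hV
  have cn0 := B5Lo_K49 hβ hr hκ hk1 hk2 hh hh1 hh2 hta htb hN hD0 hY hV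
  have hp : 0 < ‖Xf β r h t 1‖ := lt_of_lt_of_le (by positivity) hY
  exact v5_out1 _ _ _ _ cm2 cm1 cp2 cn0 hp (by norm_num)

private theorem B5Lo_B51 {κ t : ℝ} (h : DomR κ t) (hk1 : 1.33 ≤ κ) (hk2 : κ ≤ 1.36) (ht1 : (-0.5279) ≤ t + κ) (ht2 : t + κ ≤ (-0.3766)) :
    ((-0.261) ≤ sy κ t ∧ sy κ t ≤ (-0.183)) ∧ (1.5755 ≤ sx κ t ∧ sx κ t ≤ 1.7561) ∧ κ * Real.exp (-sy κ t) ≤ 1.7656 ∧ 3.1846 ≤ sD κ t ∧ sD κ t ≤ 3.5954 := by
  have hy1 : -0.261 ≤ sy κ t := syL_ge h 1.33 1.36 0.5279 0.261 0.77028 0.77029 0.1469 0.14782 0.15117 hk1 hk2 (by linarith) (by norm_num) (by norm_num) (by norm_num)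
    (expm_ge (by norm_num) (by norm_num) (by norm_num) (by norm_num)) (expm_le (by norm_num) (by norm_num) (by norm_num)) (by norm_num)
    (by norm_num) (by norm_num) (by norm_num) (by norm_num) (by norm_num) (by norm_num)
  have hy2 : sy κ t ≤ -0.183 := syL_le h 1.33 1.36 0.3766 0.183 0.83276 0.83277 0.11205 0.11459 hk1 hk2 (by linarith) (by norm_num) (by norm_num) (by norm_num)
    (expm_ge (by norm_num) (by norm_num) (by norm_num) (by norm_num)) (expm_le (by norm_num) (by norm_num) (by norm_num)) (by norm_num)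
    (by norm_num) (by norm_num) (by norm_num) (by norm_num) (by norm_num) (by norm_num)
  have hy1' : (-0.261) ≤ sy κ t := by linarith
  have hy2' : sy κ t ≤ (-0.183) := by linarith
  have hx1 : 1.5755 ≤ sx κ t := sx_lo h 1.33 (-0.183) 0.2611 1.20081 1.5755 hk1 (by norm_num) hy2' (abs_le.2 ⟨by linarith, by linarith⟩) (ex_lp 0.183 (by norm_num) (by norm_num) (by norm_num)) (by norm_num) (by norm_num)
  have hx2 : sx κ t ≤ 1.7561 := sx_hi h 1.36 (-0.261) 0.183 1.29823 1.7561 hk2 hy1' (by norm_num) (le_trans (by linarith) (neg_le_abs _)) (ex_up 0.261 (by norm_num) (by norm_num) (by norm_num) (by norm_num)) (by norm_num) (by norm_num)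
  refine ⟨⟨hy1', hy2'⟩, ⟨hx1, hx2⟩, v5_n h 1.36 (-0.261) 1.29823 1.7656 hk2 hy1' (ex_up 0.261 (by norm_num) (by norm_num) (by norm_num) (by norm_num)) (by norm_num), ?_, ?_⟩
  · exact v5_Dlo h 1.33 (-0.261) (-0.183) (-0.183) 1.20081 3.1846 (by norm_num) hk1 hy1' hy2' (ex_lp 0.183 (by norm_num) (by norm_num) (by norm_num)) (by norm_num) (by norm_num) (by norm_num) (by norm_num)
  · exact v5_Dup h 1.36 (-0.261) (-0.183) 1.29823 1.20082 3.5954 hk2 hy1' hy2' (ex_up 0.261 (by norm_num) (by norm_num) (by norm_num) (by norm_num)) (ex_up 0.183 (by norm_num) (by norm_num) (by norm_num) (by norm_num)) (by norm_num) (by norm_num) (by norm_num)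

private theorem B5Lo_T52_0_0 {β x y : ℝ} (hβ : 0 < β) (hN : β * 7.352 ≤ 1) (hx1 : 1.5754 ≤ x) (hx2 : x ≤ 1.624)
    (hy1 : -0.2611 ≤ y) (hy2 : y ≤ -0.1829) : ‖HH β (x + y * I) - 1‖ ≤ 0.105 := by
  refine le_epsJ (C := 0.7707) (N0 := 7.352) (J_boxp 1.5754 1.624 0.2611 0 (-0.1829) 1.6339 1.6449 1.818 0.6456 0.538 2.7115 7.352 1.0068 4.184 1.585 0.5544 0.8169 0.5427 1.1354 2.34 0.9775 2.6813 4.0117 3.3915 0.002467 0.01859 0.0002372 0.0000003101 0.0007572 0.0000003101 0.0000003101 0.0000003101 0.7707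
    hβ hN hx1 hx2 hy1 hy2 (by norm_num) (by norm_num) (by linarith) (by norm_num) (by norm_num) (by norm_num) (by norm_num) (by norm_num) (by norm_num) (by norm_num) (by norm_num) (by norm_num) (by norm_num) (by norm_num) (by norm_num) (by norm_num) (by norm_num) (by norm_num) (by norm_num) (by norm_num) (by norm_num) (by norm_num) (by norm_num) (by norm_num)
    (cube_sqrt_geJ (s := 0.8151) (by norm_num) (by norm_num) (by norm_num) (by norm_num))
    (cube_sqrt_geJ (s := 0.9363) (by norm_num) (by norm_num) (by norm_num) (by norm_num))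
    (by norm_num) (by norm_num) (by norm_num) (by norm_num) (by norm_num) (by norm_num) (by norm_num) (by norm_num) (by norm_num) (by norm_num) (by norm_num) (by norm_num) (by norm_num) (by norm_num) (by norm_num) (by norm_num) (by norm_num) (by norm_num)
    (exp_neg_leJ (r := 0.005) 6 (by norm_num) (by norm_num) (by norm_num) (by norm_num))
    (exp_neg_leJ (r := 0.989) 3 (by norm_num) (by norm_num) (by norm_num) (by norm_num))
    (exp_neg_leJ (r := 0.347) 8 (by norm_num) (by norm_num) (by norm_num) (by norm_num))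
    (exp_neg_leJ (r := 0.99) 14 (by norm_num) (by norm_num) (by norm_num) (by norm_num))
    (exp_neg_leJ (r := 0.186) 7 (by norm_num) (by norm_num) (by norm_num) (by norm_num))
    (exp_neg_leJ (r := 0.99) 14 (by norm_num) (by norm_num) (by norm_num) (by norm_num))
    (exp_neg_leJ (r := 0.99) 14 (by norm_num) (by norm_num) (by norm_num) (by norm_num))
    (exp_neg_leJ (r := 0.99) 14 (by norm_num) (by norm_num) (by norm_num) (by norm_num))
    (by norm_num)) (by norm_num) hN hβ.le (by norm_num)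

private theorem B5Lo_T52_0_1 {β x y : ℝ} (hβ : 0 < β) (hN : β * 7.352 ≤ 1) (hx1 : 1.624 ≤ x) (hx2 : x ≤ 1.678)
    (hy1 : -0.2611 ≤ y) (hy2 : y ≤ -0.1829) : ‖HH β (x + y * I) - 1‖ ≤ 0.105 := by
  refine le_epsJ (C := 0.771) (N0 := 7.352) (J_boxp 1.624 1.678 0.2611 0 (-0.1829) 1.6681 1.6982 1.8664 0.6342 0.5451 2.7115 7.352 1.0181 4.268 1.594 0.5337 0.834 0.551 1.152 2.309 1.0011 2.7486 4.1089 3.3438 0.002175 0.01743 0.00021 0.0000003101 0.0006363 0.0000003101 0.0000003101 0.0000003101 0.771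
    hβ hN hx1 hx2 hy1 hy2 (by norm_num) (by norm_num) (by linarith) (by norm_num) (by norm_num) (by norm_num) (by norm_num) (by norm_num) (by norm_num) (by norm_num) (by norm_num) (by norm_num) (by norm_num) (by norm_num) (by norm_num) (by norm_num) (by norm_num) (by norm_num) (by norm_num) (by norm_num) (by norm_num) (by norm_num) (by norm_num) (by norm_num)
    (cube_sqrt_geJ (s := 0.8127) (by norm_num) (by norm_num) (by norm_num) (by norm_num))
    (cube_sqrt_geJ (s := 0.9355) (by norm_num) (by norm_num) (by norm_num) (by norm_num))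
    (by norm_num) (by norm_num) (by norm_num) (by norm_num) (by norm_num) (by norm_num) (by norm_num) (by norm_num) (by norm_num) (by norm_num) (by norm_num) (by norm_num) (by norm_num) (by norm_num) (by norm_num) (by norm_num) (by norm_num) (by norm_num)
    (exp_neg_leJ (r := 0.131) 6 (by norm_num) (by norm_num) (by norm_num) (by norm_num))
    (exp_neg_leJ (r := 0.05) 4 (by norm_num) (by norm_num) (by norm_num) (by norm_num))
    (exp_neg_leJ (r := 0.469) 8 (by norm_num) (by norm_num) (by norm_num) (by norm_num))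
    (exp_neg_leJ (r := 0.99) 14 (by norm_num) (by norm_num) (by norm_num) (by norm_num))
    (exp_neg_leJ (r := 0.36) 7 (by norm_num) (by norm_num) (by norm_num) (by norm_num))
    (exp_neg_leJ (r := 0.99) 14 (by norm_num) (by norm_num) (by norm_num) (by norm_num))
    (exp_neg_leJ (r := 0.99) 14 (by norm_num) (by norm_num) (by norm_num) (by norm_num))
    (exp_neg_leJ (r := 0.99) 14 (by norm_num) (by norm_num) (by norm_num) (by norm_num))
    (by norm_num)) (by norm_num) hN hβ.le (by norm_num)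

private theorem B5Lo_T52_0_2 {β x y : ℝ} (hβ : 0 < β) (hN : β * 7.352 ≤ 1) (hx1 : 1.678 ≤ x) (hx2 : x ≤ 1.738)
    (hy1 : -0.2611 ≤ y) (hy2 : y ≤ -0.1829) : ‖HH β (x + y * I) - 1‖ ≤ 0.105 := by
  refine le_epsJ (C := 0.7719) (N0 := 7.352) (J_boxp 1.678 1.738 0.2611 0 (-0.1829) 1.7062 1.7576 1.9205 0.6219 0.5529 2.7115 7.352 1.0302 4.36 1.604 0.5106 0.853 0.5601 1.1705 2.2744 1.0274 2.8233 4.2169 3.2904 0.001891 0.0163 0.0001833 0.0000003101 0.0005247 0.0000003101 0.0000003101 0.0000003101 0.7719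
    hβ hN hx1 hx2 hy1 hy2 (by norm_num) (by norm_num) (by linarith) (by norm_num) (by norm_num) (by norm_num) (by norm_num) (by norm_num) (by norm_num) (by norm_num) (by norm_num) (by norm_num) (by norm_num) (by norm_num) (by norm_num) (by norm_num) (by norm_num) (by norm_num) (by norm_num) (by norm_num) (by norm_num) (by norm_num) (by norm_num) (by norm_num)
    (cube_sqrt_geJ (s := 0.8103) (by norm_num) (by norm_num) (by norm_num) (by norm_num))
    (cube_sqrt_geJ (s := 0.9348) (by norm_num) (by norm_num) (by norm_num) (by norm_num))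
    (by norm_num) (by norm_num) (by norm_num) (by norm_num) (by norm_num) (by norm_num) (by norm_num) (by norm_num) (by norm_num) (by norm_num) (by norm_num) (by norm_num) (by norm_num) (by norm_num) (by norm_num) (by norm_num) (by norm_num) (by norm_num)
    (exp_neg_leJ (r := 0.271) 6 (by norm_num) (by norm_num) (by norm_num) (by norm_num))
    (exp_neg_leJ (r := 0.117) 4 (by norm_num) (by norm_num) (by norm_num) (by norm_num))
    (exp_neg_leJ (r := 0.605) 8 (by norm_num) (by norm_num) (by norm_num) (by norm_num))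
    (exp_neg_leJ (r := 0.99) 14 (by norm_num) (by norm_num) (by norm_num) (by norm_num))
    (exp_neg_leJ (r := 0.553) 7 (by norm_num) (by norm_num) (by norm_num) (by norm_num))
    (exp_neg_leJ (r := 0.99) 14 (by norm_num) (by norm_num) (by norm_num) (by norm_num))
    (exp_neg_leJ (r := 0.99) 14 (by norm_num) (by norm_num) (by norm_num) (by norm_num))
    (exp_neg_leJ (r := 0.99) 14 (by norm_num) (by norm_num) (by norm_num) (by norm_num))
    (by norm_num)) (by norm_num) hN hβ.le (by norm_num)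

private theorem B5Lo_T52_0_3 {β x y : ℝ} (hβ : 0 < β) (hN : β * 7.352 ≤ 1) (hx1 : 1.738 ≤ x) (hx2 : x ≤ 1.7562)
    (hy1 : -0.2611 ≤ y) (hy2 : y ≤ -0.1829) : ‖HH β (x + y * I) - 1‖ ≤ 0.105 := by
  refine le_epsJ (C := 0.7101) (N0 := 7.352) (J_boxp 1.738 1.7562 0.2611 0 (-0.1829) 1.7484 1.7756 1.937 0.6021 0.5553 2.7115 7.352 1.0156 4.249 1.592 0.5036 0.8741 0.5782 1.191 2.264 1.0565 2.9064 4.3369 3.3614 0.00162 0.01427 0.0001577 0.0000003101 0.000424 0.0000003101 0.0000003101 0.0000003101 0.7101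
    hβ hN hx1 hx2 hy1 hy2 (by norm_num) (by norm_num) (by linarith) (by norm_num) (by norm_num) (by norm_num) (by norm_num) (by norm_num) (by norm_num) (by norm_num) (by norm_num) (by norm_num) (by norm_num) (by norm_num) (by norm_num) (by norm_num) (by norm_num) (by norm_num) (by norm_num) (by norm_num) (by norm_num) (by norm_num) (by norm_num) (by norm_num)
    (cube_sqrt_geJ (s := 0.8133) (by norm_num) (by norm_num) (by norm_num) (by norm_num))
    (cube_sqrt_geJ (s := 0.9357) (by norm_num) (by norm_num) (by norm_num) (by norm_num))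
    (by norm_num) (by norm_num) (by norm_num) (by norm_num) (by norm_num) (by norm_num) (by norm_num) (by norm_num) (by norm_num) (by norm_num) (by norm_num) (by norm_num) (by norm_num) (by norm_num) (by norm_num) (by norm_num) (by norm_num) (by norm_num)
    (exp_neg_leJ (r := 0.426) 6 (by norm_num) (by norm_num) (by norm_num) (by norm_num))
    (exp_neg_leJ (r := 0.25) 4 (by norm_num) (by norm_num) (by norm_num) (by norm_num))
    (exp_neg_leJ (r := 0.756) 8 (by norm_num) (by norm_num) (by norm_num) (by norm_num))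
    (exp_neg_leJ (r := 0.99) 14 (by norm_num) (by norm_num) (by norm_num) (by norm_num))
    (exp_neg_leJ (r := 0.767) 7 (by norm_num) (by norm_num) (by norm_num) (by norm_num))
    (exp_neg_leJ (r := 0.99) 14 (by norm_num) (by norm_num) (by norm_num) (by norm_num))
    (exp_neg_leJ (r := 0.99) 14 (by norm_num) (by norm_num) (by norm_num) (by norm_num))
    (exp_neg_leJ (r := 0.99) 14 (by norm_num) (by norm_num) (by norm_num) (by norm_num))
    (by norm_num)) (by norm_num) hN hβ.le (by norm_num)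

private theorem B5Lo_T52 {β x y : ℝ} (hβ : 0 < β) (hN : β * 7.352 ≤ 1) (hx1 : 1.5754 ≤ x) (hx2 : x ≤ 1.7562)
    (hy1 : (-0.2611) ≤ y) (hy2 : y ≤ (-0.1829)) : ‖HH β (x + y * I) - 1‖ ≤ 0.105 := by
  rcases le_total x 1.624 with hxx | hxx
  · exact B5Lo_T52_0_0 hβ hN (by linarith) (by linarith) (by linarith) (by linarith)
  rcases le_total x 1.678 with hxx | hxx
  · exact B5Lo_T52_0_1 hβ hN (by linarith) (by linarith) (by linarith) (by linarith)
  rcases le_total x 1.738 with hxx | hxx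
  · exact B5Lo_T52_0_2 hβ hN (by linarith) (by linarith) (by linarith) (by linarith)
  exact B5Lo_T52_0_3 hβ hN (by linarith) (by linarith) (by linarith) (by linarith)

private theorem B5Lo_G53 {κ : ℝ} (hk1 : 1.33 ≤ κ) (hk2 : κ ≤ 1.36) : gG κ 0.41 ≤ 1.28647 ∧ 0.32784 ≤ Real.exp (-(κ * 0.41)) ^ 2 := by
  refine ⟨gG_le 0.41 1.33 1.36 1.28647 0.57967 0.57259 1.72513 1.74648 hk1 hk2 (by norm_num)
    (ex_um 0.5453 (by norm_num) (by norm_num) (by norm_num) (by norm_num)) (ex_um 0.5576 (by norm_num) (by norm_num) (by norm_num) (by norm_num))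
    (ex_up 0.5453 (by norm_num) (by norm_num) (by norm_num) (by norm_num)) (ex_up 0.5576 (by norm_num) (by norm_num) (by norm_num) (by norm_num))
    (by norm_num) (by norm_num), ?_⟩
  exact v5_M 0.57258 (ex_lm 0.5576 (by linarith) (by norm_num) (by norm_num) (by norm_num) (by norm_num)) (by norm_num) (by norm_num)

private theorem B5Lo_C54 {β r t κ : ℝ} (hβ : 0 < β) (hr : 10 ≤ r) (hκ : κ = β * r) (hk1 : 1.33 ≤ κ) (hk2 : κ ≤ 1.36) (hta : 1.9854 ≤ t + κ)
    (htb : t + κ ≤ 2.1367) : ‖F (cexp (I * β)) (r * cexp (I * ((t + β / 2 : ℝ) : ℂ)))‖ ≤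
      1.7634 * Real.exp (r * (1.28647 - 0.41 * (t + κ))) + 0.2144 * Real.exp (r * 0) :=
  v5_H 0.41 1.33 1.36 1.9854 2.1367 1.28647 1.6799 0.32784 0.1472 2.196 0.7639 0.08484 0.433 0.000137 1.7634 0.2144 hβ hr hκ (by norm_num) hk1 hk2 hta htb (by norm_num) (B5Lo_G53 hk1 hk2).1 (B5Lo_G53 hk1 hk2).2 (by norm_num) (by norm_num) (by norm_num)
    (by norm_num) (by norm_num) (by norm_num) (by norm_num) (by norm_num) (by norm_num) (by norm_num) (by norm_num) (ex_un 0 0.8483 (by norm_num) (by norm_num) (by norm_num) (by norm_num))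
    (v5_hump 1.2384 7.352 2.7115 0.0001112 0.000137 hβ hr hκ hk1 hk2 (by norm_num) htb (by norm_num) (by norm_num) (by norm_num) (by norm_num) (by norm_num) (by norm_num) (by norm_num) (ex_un 9 0.1047 (by norm_num) (by norm_num) (by norm_num) (by norm_num)) (by norm_num)) (by norm_num) (by norm_num)

private theorem B5Lo_G55 {κ : ℝ} (hk1 : 1.33 ≤ κ) (hk2 : κ ≤ 1.36) : gG κ (-0.55) ≤ 1.43681 ∧ 4.31879 ≤ Real.exp (-(κ * (-0.55))) ^ 2 := by
  refine ⟨gG_le (-0.55) 1.33 1.36 1.43681 2.0782 2.11278 0.4812 0.47332 hk1 hk2 (by norm_num)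
    (ex_up 0.7315 (by norm_num) (by norm_num) (by norm_num) (by norm_num)) (ex_up 0.748 (by norm_num) (by norm_num) (by norm_num) (by norm_num))
    (ex_um 0.7315 (by norm_num) (by norm_num) (by norm_num) (by norm_num)) (ex_um 0.748 (by norm_num) (by norm_num) (by norm_num) (by norm_num))
    (by norm_num) (by norm_num), ?_⟩
  exact v5_M 2.07817 (ex_lp 0.7315 (by linarith) (by norm_num) (by norm_num)) (by norm_num) (by norm_num)

private theorem B5Lo_C56 {β r t κ : ℝ} (hβ : 0 < β) (hr : 10 ≤ r) (hκ : κ = β * r) (hk1 : 1.33 ≤ κ) (hk2 : κ ≤ 1.36) (hta : (-1.7845) ≤ t + κ)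
    (htb : t + κ ≤ (-1.6332)) : ‖F (cexp (I * β)) (r * cexp (I * ((t + β / 2 : ℝ) : ℂ)))‖ ≤
      0.7502 * Real.exp (r * (1.43681 - (-0.55) * (t + κ))) + 1.6096 * Real.exp (r * 0.0501) :=
  v5_HU (-0.55) 1.33 1.36 (-1.7845) (-1.6332) 1.43681 0.7502 4.31879 0.1472 0.6636 1.5674 0 0.0501 0.00000115 1.6096 hβ hr hκ (by norm_num) hk1 hk2 hta htb (by norm_num) (by norm_num) (B5Lo_G55 hk1 hk2).1 (B5Lo_G55 hk1 hk2).2 (by norm_num) (by norm_num) (by norm_num)
    (by norm_num) (by norm_num) (by norm_num) (by norm_num) (by norm_num) (by norm_num) (by norm_num)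
    (by norm_num) (by norm_num) (by norm_num) (v5_hump 5.0083 7.352 2.7115 0.0000009316 0.00000115 hβ hr hκ hk1 hk2 (by norm_num) htb (by norm_num) (by norm_num) (by norm_num) (by norm_num) (by norm_num) (by norm_num) (by norm_num) (ex_un 13 0.9 (by norm_num) (by norm_num) (by norm_num) (by norm_num)) (by norm_num)) (by norm_num)

private theorem B5Lo_C57 {β r t κ : ℝ} (hβ : 0 < β) (hr : 10 ≤ r) (hκ : κ = β * r) (hk1 : 1.33 ≤ κ) (hk2 : κ ≤ 1.36) (hta : 3.242 ≤ t + κ)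
    (htb : t + κ ≤ 3.3933) : ‖F (cexp (I * β)) (r * cexp (I * ((t + β / 2 : ℝ) : ℂ)))‖ ≤
      2.0041 * Real.exp (r * (0.0134 + 1 / 20)) :=
  v5_UD 1.33 1.36 3.242 3.3933 0.01 0.346 0.0134 1.0448 2.0041 hβ hr hκ (by norm_num) hk1 hk2 hta htb (by norm_num) (by norm_num) (by norm_num) (by norm_num) (by norm_num) (by norm_num) (by norm_num) (by norm_num) (by norm_num) (by norm_num) (by norm_num)

private theorem B5Lo_Y58 {β r t κ h t' : ℝ} (hβ : 0 < β) (hκ : κ = β * r) (hN : β * 7.352 ≤ 1) (hk1 : 1.33 ≤ κ) (hk2 : κ ≤ 1.36)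
    (ht : t' = t + (((0 : ℤ) : ℝ) - 1) * h) (hD : DomR κ t') (hta : (-0.5279) ≤ t' + κ) (htb : t' + κ ≤ (-0.3766)) :
    0.6499 * Real.exp (r * sE κ t') ≤ ‖Xf β r h t 0‖ := by
  obtain ⟨⟨ya, yb⟩, ⟨xa, xb⟩, n1, Da, Db⟩ := B5Lo_B51 hD hk1 hk2 hta htb
  have J := B5Lo_T52 (x := sx κ t') (y := sy κ t') hβ hN (by linarith only [xa, xb, ya, yb]) (by linarith only [xa, xb, ya, yb]) (by linarith only [xa, xb, ya, yb]) (by linarith only [xa, xb, ya, yb])
  exact v5_Jlo hβ hκ (k := 0) ht hD 0.105 3.5954 0.6499 (by norm_num) J Db (by norm_num)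

private theorem B5Lo_V59 {κ t : ℝ} (hD : DomR κ t) (hk1 : 1.33 ≤ κ) (hk2 : κ ≤ 1.36) (hta : (-0.5279) ≤ t + κ) (htb : t + κ ≤ (-0.3766)) :
    1.03761 + 0.1712 * (t + κ) ≤ sE κ t := by
  have hκ0 : 0 < κ := hD.1
  exact v5_V0 hD 1.33 1.36 (-0.5279) (-0.3766) 0.528 0.5242 0.0356 0.16116 0.04711 0.49117 1.03761 0.1712 (by norm_num) hk1 hk2 (by norm_num) hta htb (by norm_num) (by norm_num) (by norm_num) ((cup2 1.33 (by norm_num) hk1).trans (by norm_num))
      (by norm_num) (by norm_num) (by norm_num) (by norm_num) (by norm_num) (by norm_num) (by norm_num) (by norm_num) (by norm_num) (by norm_num) (by norm_num) (by norm_num) (by norm_num)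

private theorem B5Lo_K60 {β r t κ h : ℝ} (hβ : 0 < β) (hr : 10 ≤ r) (hκ : κ = β * r) (hk1 : 1.33 ≤ κ) (hk2 : κ ≤ 1.36)
    (hh : h = 2 * Real.pi / 5) (hh1 : 1.25663 ≤ h) (hh2 : h ≤ 1.25664) (hta : 0.7288 ≤ t + κ) (htb : t + κ ≤ 0.88)
    (hY : 0.6499 * Real.exp (r * sE κ (t - h)) ≤ ‖Xf β r h t 0‖) (hV : 1.03761 + 0.1712 * (t - h + κ) ≤ sE κ (t - h)) :
    ‖Xf β r h t 2‖ ≤ 0.0238 * ‖Xf β r h t 0‖ := by
  rw [v5_X 2 1 (by push_cast; ring)]
  exact v5_cmp 0.4748 0.008733 0.0237 0.9472 0.0000771 0.0000255 0.0238 hr (B5Lo_C54 (t := t + 1 * h) hβ hr hκ hk1 hk2 (by linarith only [hta, htb, hh1, hh2]) (by linarith only [hta, htb, hh1, hh2])) hY (by norm_num) (by norm_num) (by norm_num) (by norm_num) (by linarith only [hV, hta, htb, hh1, hh2]) (ex_un 4 0.7479 (by norm_num) (by norm_num) (by norm_num) (by norm_num)) (by norm_num) (by norm_num) (by linarith only [hV, hta, htb, hh1, hh2]) (ex_un 9 0.4719 (by norm_num) (by norm_num) (by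 norm_num) (by norm_num)) (by norm_num) (by norm_num)

private theorem B5Lo_K61 {β r t κ h : ℝ} (hβ : 0 < β) (hr : 10 ≤ r) (hκ : κ = β * r) (hk1 : 1.33 ≤ κ) (hk2 : κ ≤ 1.36)
    (hh : h = 2 * Real.pi / 5) (hh1 : 1.25663 ≤ h) (hh2 : h ≤ 1.25664) (hta : 0.7288 ≤ t + κ) (htb : t + κ ≤ 0.88)
    (hY : 0.6499 * Real.exp (r * sE κ (t - h)) ≤ ‖Xf β r h t 0‖) (hV : 1.03761 + 0.1712 * (t - h + κ) ≤ sE κ (t - h)) :
    ‖Xf β r h t (-1)‖ ≤ 0.0154 * ‖Xf β r h t 0‖ := by
  rw [v5_X (-1) (-2) (by push_cast; ring)]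
  exact v5_cmp 0.4346 0.01297 0.015 0.8971 0.0001293 0.000321 0.0154 hr (B5Lo_C56 (t := t + (-2) * h) hβ hr hκ hk1 hk2 (by linarith only [hta, htb, hh1, hh2]) (by linarith only [hta, htb, hh1, hh2])) hY (by norm_num) (by norm_num) (by norm_num) (by norm_num) (by linarith only [hV, hta, htb, hh1, hh2]) (ex_un 4 0.3459 (by norm_num) (by norm_num) (by norm_num) (by norm_num)) (by norm_num) (by norm_num) (by linarith only [hV, hta, htb, hh1, hh2]) (ex_un 8 0.9709 (by norm_num) (by norm_num) (by norm_num) (by norm_num)) (by norm_num) (by norm_num)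

private theorem B5Lo_K62 {β r t κ h : ℝ} (hβ : 0 < β) (hr : 10 ≤ r) (hκ : κ = β * r) (hk1 : 1.33 ≤ κ) (hk2 : κ ≤ 1.36)
    (hh : h = 2 * Real.pi / 5) (hh1 : 1.25663 ≤ h) (hh2 : h ≤ 1.25664) (hta : 0.7288 ≤ t + κ) (htb : t + κ ≤ 0.88)
    (hY : 0.6499 * Real.exp (r * sE κ (t - h)) ≤ ‖Xf β r h t 0‖) (hV : 1.03761 + 0.1712 * (t - h + κ) ≤ sE κ (t - h)) :
    ‖Xf β r h t (-2)‖ ≤ 0.000453 * ‖Xf β r h t 0‖ := by
  rw [v5_Xm2 hh]
  exact v5_cmp0 0.8838 0.0001467 0.000453 hr (B5Lo_C57 (t := t + 2 * h) hβ hr hκ hk1 hk2 (by linarith only [hta, htb, hh1, hh2]) (by linarith only [hta, htb, hh1, hh2])) hY (by norm_num) (by norm_num) (by norm_num) (by linarith only [hV, hta, htb, hh1, hh2]) (ex_un 8 0.8379 (by norm_num) (by norm_num) (by norm_num) (by norm_num)) (by norm_num)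

private theorem B5Lo_G63 {κ : ℝ} (hk1 : 1.33 ≤ κ) (hk2 : κ ≤ 1.36) : gG κ 0.23 ≤ 1.0807 ∧ 0.53493 ≤ Real.exp (-(κ * 0.23)) ^ 2 := by
  refine ⟨gG_le 0.23 1.33 1.36 1.0807 0.73647 0.7314 1.35785 1.36725 hk1 hk2 (by norm_num)
    (ex_um 0.3059 (by norm_num) (by norm_num) (by norm_num) (by norm_num)) (ex_um 0.3128 (by norm_num) (by norm_num) (by norm_num) (by norm_num))
    (ex_up 0.3059 (by norm_num) (by norm_num) (by norm_num) (by norm_num)) (ex_up 0.3128 (by norm_num) (by norm_num) (by norm_num) (by norm_num))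
    (by norm_num) (by norm_num), ?_⟩
  exact v5_M 0.73139 (ex_lm 0.3128 (by linarith) (by norm_num) (by norm_num) (by norm_num) (by norm_num)) (by norm_num) (by norm_num)

private theorem B5Lo_B64 {κ t : ℝ} (h : DomR κ t) (hk1 : 1.33 ≤ κ) (hk2 : κ ≤ 1.36) (ht1 : 0.7287 ≤ t + κ) (ht2 : t + κ ≤ 0.8801) :
    (0.309 ≤ sy κ t ∧ sy κ t ≤ 0.364) ∧ (0.8494 ≤ sx κ t ∧ sx κ t ≤ 0.9495) ∧ κ * Real.exp (-sy κ t) ≤ 0.9985 ∧ 2.5714 ≤ sD κ t ∧ sD κ t ≤ 2.6212 := by
  have hy1 : 0.309 ≤ sy κ t := syR_ge h 1.33 1.36 0.7287 0.309 1.36206 1.36207 0.30946 0.31646 hk1 hk2 (by linarith) (by norm_num) (by norm_num)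
    (expn_ge (by norm_num) (by norm_num)) (expn_le (by norm_num) (by norm_num) (by norm_num)) (by norm_num)
    (by norm_num) (by norm_num) (by norm_num) (by norm_num) (by norm_num) (by norm_num)
  have hy2 : sy κ t ≤ 0.364 := syR_le h 1.33 1.36 0.8801 0.364 1.43907 0.3829 0.38516 0.39386 hk1 hk2 (by linarith) (by norm_num) (by norm_num)
    (expn_ge (by norm_num) (by norm_num)) (by norm_num) (by norm_num) (Or.inr ((mul_le_mul_of_nonneg_left (expn_le (E := 1.43908) (by norm_num) (by norm_num) (by norm_num)) (by norm_num)).trans (by norm_num))) (by norm_num) (by norm_num) (by norm_num)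
  have hy1' : 0.309 ≤ sy κ t := by linarith
  have hy2' : sy κ t ≤ 0.364 := by linarith
  have hx1 : 0.8494 ≤ sx κ t := sx_lo h 1.33 0.364 0.3641 0.69489 0.8494 hk1 (by norm_num) hy2' (abs_le.2 ⟨by linarith, by linarith⟩) (ex_lm 0.364 (by norm_num) (by norm_num) (by norm_num) (by norm_num) (by norm_num)) (by norm_num) (by norm_num)
  have hx2 : sx κ t ≤ 0.9495 := sx_hi h 1.36 0.309 0.309 0.73419 0.9495 hk2 hy1' (by norm_num) (le_trans (by linarith) (le_abs_self _)) (ex_um 0.309 (by norm_num) (by norm_num) (by norm_num) (by norm_num)) (by norm_num) (by norm_num)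
  refine ⟨⟨hy1', hy2'⟩, ⟨hx1, hx2⟩, v5_n h 1.36 0.309 0.73419 0.9985 hk2 hy1' (ex_um 0.309 (by norm_num) (by norm_num) (by norm_num) (by norm_num)) (by norm_num), ?_, ?_⟩
  · exact v5_Dlo h 1.33 0.309 0.364 0.309 0.73418 2.5714 (by norm_num) hk1 hy1' hy2' (ex_lm 0.309 (by norm_num) (by norm_num) (by norm_num) (by norm_num) (by norm_num)) (by norm_num) (by norm_num) (by norm_num) (by norm_num)
  · exact v5_Dup h 1.36 0.309 0.364 0.73419 0.6949 2.6212 hk2 hy1' hy2' (ex_um 0.309 (by norm_num) (by norm_num) (by norm_num) (by norm_num)) (ex_um 0.364 (by norm_num) (by norm_num) (by norm_num) (by norm_num)) (by norm_num) (by norm_num) (by norm_num)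

private theorem B5Lo_T65_0_0 {β x y : ℝ} (hβ : 0 < β) (hN : β * 7.352 ≤ 1) (hx1 : 0.8493 ≤ x) (hx2 : x ≤ 0.903)
    (hy1 : -0 ≤ y) (hy2 : y ≤ 0.3641) : ‖HH β (x + y * I) - 1‖ ≤ 0.085 := by
  refine le_epsJ (C := 0.6242) (N0 := 7.352) (J_boxp 0.8493 0.903 0 0.3641 0.3641 1.308 0.9737 1.636 0.8551 0.5103 2.7115 7.352 0.7445 2.715 1.398 1.0728 0.6539 0.4916 1.299 3.5629 0.7304 1.6388 1.7076 2.0482 0.008185 0.02696 0.00007123 0.0000003101 0.00466 0.000005857 0.000003532 0.0000003101 0.6242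
    hβ hN hx1 hx2 hy1 hy2 (by norm_num) (by norm_num) (by linarith) (by norm_num) (by norm_num) (by norm_num) (by norm_num) (by norm_num) (by norm_num) (by norm_num) (by norm_num) (by norm_num) (by norm_num) (by norm_num) (by norm_num) (by norm_num) (by norm_num) (by norm_num) (by norm_num) (by norm_num) (by norm_num) (by norm_num) (by norm_num) (by norm_num)
    (cube_sqrt_geJ (s := 0.867) (by norm_num) (by norm_num) (by norm_num) (by norm_num))
    (cube_sqrt_geJ (s := 0.9533) (by norm_num) (by norm_num) (by norm_num) (by norm_num))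
    (by norm_num) (by norm_num) (by norm_num) (by norm_num) (by norm_num) (by norm_num) (by norm_num) (by norm_num) (by norm_num) (by norm_num) (by norm_num) (by norm_num) (by norm_num) (by norm_num) (by norm_num) (by norm_num) (by norm_num) (by norm_num)
    (exp_neg_leJ (r := 0.807) 4 (by norm_num) (by norm_num) (by norm_num) (by norm_num))
    (exp_neg_leJ (r := 0.614) 3 (by norm_num) (by norm_num) (by norm_num) (by norm_num))
    (exp_neg_leJ (r := 0.55) 9 (by norm_num) (by norm_num) (by norm_num) (by norm_num))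
    (exp_neg_leJ (r := 0.99) 14 (by norm_num) (by norm_num) (by norm_num) (by norm_num))
    (exp_neg_leJ (r := 0.369) 5 (by norm_num) (by norm_num) (by norm_num) (by norm_num))
    (exp_neg_leJ (r := 0.048) 12 (by norm_num) (by norm_num) (by norm_num) (by norm_num))
    (exp_neg_leJ (r := 0.554) 12 (by norm_num) (by norm_num) (by norm_num) (by norm_num))
    (exp_neg_leJ (r := 0.99) 14 (by norm_num) (by norm_num) (by norm_num) (by norm_num))
    (by norm_num)) (by norm_num) hN hβ.le (by norm_num)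

private theorem B5Lo_T65_0_1 {β x y : ℝ} (hβ : 0 < β) (hN : β * 7.352 ≤ 1) (hx1 : 0.903 ≤ x) (hx2 : x ≤ 0.9496)
    (hy1 : -0 ≤ y) (hy2 : y ≤ 0.3641) : ‖HH β (x + y * I) - 1‖ ≤ 0.085 := by
  refine le_epsJ (C := 0.6018) (N0 := 7.352) (J_boxp 0.903 0.9496 0 0.3641 0.3641 1.3458 1.0171 1.6621 0.8258 0.5144 2.7115 7.352 0.7558 2.762 1.405 1.0548 0.6728 0.5033 1.3173 3.5368 0.7564 1.7131 1.815 2.0376 0.007133 0.02475 0.00006232 0.0000003101 0.003847 0.000003394 0.000001605 0.0000003132 0.6018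
    hβ hN hx1 hx2 hy1 hy2 (by norm_num) (by norm_num) (by linarith) (by norm_num) (by norm_num) (by norm_num) (by norm_num) (by norm_num) (by norm_num) (by norm_num) (by norm_num) (by norm_num) (by norm_num) (by norm_num) (by norm_num) (by norm_num) (by norm_num) (by norm_num) (by norm_num) (by norm_num) (by norm_num) (by norm_num) (by norm_num) (by norm_num)
    (cube_sqrt_geJ (s := 0.8649) (by norm_num) (by norm_num) (by norm_num) (by norm_num))
    (cube_sqrt_geJ (s := 0.9526) (by norm_num) (by norm_num) (by norm_num) (by norm_num))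
    (by norm_num) (by norm_num) (by norm_num) (by norm_num) (by norm_num) (by norm_num) (by norm_num) (by norm_num) (by norm_num) (by norm_num) (by norm_num) (by norm_num) (by norm_num) (by norm_num) (by norm_num) (by norm_num) (by norm_num) (by norm_num)
    (exp_neg_leJ (r := 0.946) 4 (by norm_num) (by norm_num) (by norm_num) (by norm_num))
    (exp_neg_leJ (r := 0.7) 3 (by norm_num) (by norm_num) (by norm_num) (by norm_num))
    (exp_neg_leJ (r := 0.684) 9 (by norm_num) (by norm_num) (by norm_num) (by norm_num))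
    (exp_neg_leJ (r := 0.99) 14 (by norm_num) (by norm_num) (by norm_num) (by norm_num))
    (exp_neg_leJ (r := 0.561) 5 (by norm_num) (by norm_num) (by norm_num) (by norm_num))
    (exp_neg_leJ (r := 0.594) 12 (by norm_num) (by norm_num) (by norm_num) (by norm_num))
    (exp_neg_leJ (r := 0.343) 13 (by norm_num) (by norm_num) (by norm_num) (by norm_num))
    (exp_neg_leJ (r := 0.98) 14 (by norm_num) (by norm_num) (by norm_num) (by norm_num))
    (by norm_num)) (by norm_num) hN hβ.le (by norm_num)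

private theorem B5Lo_T65 {β x y : ℝ} (hβ : 0 < β) (hN : β * 7.352 ≤ 1) (hx1 : 0.8493 ≤ x) (hx2 : x ≤ 0.9496)
    (hy1 : 0.3089 ≤ y) (hy2 : y ≤ 0.3641) : ‖HH β (x + y * I) - 1‖ ≤ 0.085 := by
  rcases le_total x 0.903 with hxx | hxx
  · exact B5Lo_T65_0_0 hβ hN (by linarith) (by linarith) (by linarith) (by linarith)
  exact B5Lo_T65_0_1 hβ hN (by linarith) (by linarith) (by linarith) (by linarith)

private theorem B5Lo_U66 {β r t κ h t' : ℝ} (hβ : 0 < β) (hκ : κ = β * r) (hN : β * 7.352 ≤ 1) (hk1 : 1.33 ≤ κ) (hk2 : κ ≤ 1.36)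
    (ht : t' = t + (((1 : ℤ) : ℝ) - 1) * h) (hD : DomR κ t') (hta : 0.7287 ≤ t' + κ) (htb : t' + κ ≤ 0.8801) :
    ‖Xf β r h t 1‖ ≤ 0.8569 * Real.exp (r * sE κ t') := by
  obtain ⟨⟨ya, yb⟩, ⟨xa, xb⟩, n1, Da, Db⟩ := B5Lo_B64 hD hk1 hk2 hta htb
  have J := B5Lo_T65 (x := sx κ t') (y := sy κ t') hβ hN (by linarith only [xa, xb, ya, yb]) (by linarith only [xa, xb, ya, yb]) (by linarith only [xa, xb, ya, yb]) (by linarith only [xa, xb, ya, yb])
  exact v5_Jup (h := h) (t := t) (k := 1) hβ hκ ht hD 0.085 2.5714 0.8569 J Da (by norm_num) (by norm_num)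

private theorem B5Lo_K67 {β r t κ h : ℝ} (hβ : 0 < β) (hr : 10 ≤ r) (hκ : κ = β * r) (hk1 : 1.33 ≤ κ) (hk2 : κ ≤ 1.36)
    (hh : h = 2 * Real.pi / 5) (hh1 : 1.25663 ≤ h) (hh2 : h ≤ 1.25664) (hta : 0.7288 ≤ t + κ) (htb : t + κ ≤ 0.88) (hN : β * 7.352 ≤ 1)
    (hD : DomR κ t) (hY : 0.6499 * Real.exp (r * sE κ (t - h)) ≤ ‖Xf β r h t 0‖) (hV : 1.03761 + 0.1712 * (t - h + κ) ≤ sE κ (t - h)) :
    ‖Xf β r h t 1‖ ≤ 0.939 * ‖Xf β r h t 0‖ := by
  have hU := B5Lo_U66 (h := h) (t := t) hβ hκ hN hk1 hk2 (by push_cast; ring) hD (by linarith only [hta, htb, hh1, hh2]) (by linarith only [hta, htb, hh1, hh2])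
  have hW := V_up hD 0.23 (B5Lo_G63 hk1 hk2).1
  exact v5_cmpJ 0.0341 0.7115 0.939 hr hU hW hY (by norm_num) (by norm_num) (by norm_num) (by linarith only [hV, hta, htb, hh1, hh2]) (ex_un 0 0.3409 (by norm_num) (by norm_num) (by norm_num) (by norm_num)) (by norm_num)

private theorem B5Lo_O68 {β r t κ h : ℝ} (hβ : 0 < β) (hr : 10 ≤ r) (hκ : κ = β * r) (hk1 : 1.33 ≤ κ) (hk2 : κ ≤ 1.36)
    (hh : h = 2 * Real.pi / 5) (hta : 0.7288 ≤ t + κ) (htb : t + κ ≤ 0.88) :
    ‖Xf β r h t (-2)‖ + ‖Xf β r h t (-1)‖ + ‖Xf β r h t 2‖ < |‖Xf β r h t 1‖ - ‖Xf β r h t 0‖| := by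
  obtain ⟨hh1, hh2⟩ := v5_h hh
  have hκ0 : 0 < κ := by linarith only [hk1]
  have hN : β * 7.352 ≤ 1 := v5_hN 1.36 7.352 hβ hr hκ hk2 (by norm_num) (by norm_num)
  have hD1 : DomR κ t := v5_dom hκ0 (by linarith only [hta, htb, hk1, hk2, hh1, hh2]) (Or.inr (by linarith only [hta, htb, hk1, hk2, hh1, hh2]))
  have hD0 : DomR κ (t - h) := v5_dom hκ0 (by linarith only [hta, htb, hk1, hk2, hh1, hh2]) (Or.inl (by linarith only [hk1]))
  have h0a : (-0.5279) ≤ t - h + κ := by linarith only [hta, htb, hh1, hh2]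
  have h0b : t - h + κ ≤ (-0.3766) := by linarith only [hta, htb, hh1, hh2]
  have e0 : t - h = t + (((0 : ℤ) : ℝ) - 1) * h := by push_cast; ring
  have hY := B5Lo_Y58 (h := h) hβ hκ hN hk1 hk2 e0 hD0 h0a h0b
  have hV := B5Lo_V59 hD0 hk1 hk2 h0a h0b
  have cp2 := B5Lo_K60 hβ hr hκ hk1 hk2 hh hh1 hh2 hta htb hY hV
  have cm1 := B5Lo_K61 hβ hr hκ hk1 hk2 hh hh1 hh2 hta htb hY hV
  have cm2 := B5Lo_K62 hβ hr hκ hk1 hk2 hh hh1 hh2 hta htb hY hV
  have cn1 := B5Lo_K67 hβ hr hκ hk1 hk2 hh hh1 hh2 hta htb hN hD1 hY hV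
  have hp : 0 < ‖Xf β r h t 0‖ := lt_of_lt_of_le (by positivity) hY
  exact v5_out0 _ _ _ _ cm2 cm1 cp2 cn1 hp (by norm_num)

private theorem B5Lo_B69 {κ t : ℝ} (h : DomR κ t) (hk1 : 1.33 ≤ κ) (hk2 : κ ≤ 1.36) (ht1 : (-0.3767) ≤ t + κ) (ht2 : t + κ ≤ (-0.1886)) :
    ((-0.186) ≤ sy κ t ∧ sy κ t ≤ (-0.091)) ∧ (1.4447 ≤ sx κ t ∧ sx κ t ≤ 1.6355) ∧ κ * Real.exp (-sy κ t) ≤ 1.6381 ∧ 2.9399 ≤ sD κ t ∧ sD κ t ≤ 3.3112 := by
  have hy1 : -0.186 ≤ sy κ t := syL_ge h 1.33 1.36 0.3767 0.186 0.83027 0.83028 0.1129 0.11355 0.11612 hk1 hk2 (by linarith) (by norm_num) (by norm_num) (by norm_num)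
    (expm_ge (by norm_num) (by norm_num) (by norm_num) (by norm_num)) (expm_le (by norm_num) (by norm_num) (by norm_num)) (by norm_num)
    (by norm_num) (by norm_num) (by norm_num) (by norm_num) (by norm_num) (by norm_num)
  have hy2 : sy κ t ≤ -0.091 := syL_le h 1.33 1.36 0.1886 0.091 0.91301 0.91302 0.06109 0.06247 hk1 hk2 (by linarith) (by norm_num) (by norm_num) (by norm_num)
    (expm_ge (by norm_num) (by norm_num) (by norm_num) (by norm_num)) (expm_le (by norm_num) (by norm_num) (by norm_num)) (by norm_num)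
    (by norm_num) (by norm_num) (by norm_num) (by norm_num) (by norm_num) (by norm_num)
  have hy1' : (-0.186) ≤ sy κ t := by linarith
  have hy2' : sy κ t ≤ (-0.091) := by linarith
  have hx1 : 1.4447 ≤ sx κ t := sx_lo h 1.33 (-0.091) 0.1861 1.09526 1.4447 hk1 (by norm_num) hy2' (abs_le.2 ⟨by linarith, by linarith⟩) (ex_lp 0.091 (by norm_num) (by norm_num) (by norm_num)) (by norm_num) (by norm_num)
  have hx2 : sx κ t ≤ 1.6355 := sx_hi h 1.36 (-0.186) 0.091 1.20443 1.6355 hk2 hy1' (by norm_num) (le_trans (by linarith) (neg_le_abs _)) (ex_up 0.186 (by norm_num) (by norm_num) (by norm_num) (by norm_num)) (by norm_num) (by norm_num)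
  refine ⟨⟨hy1', hy2'⟩, ⟨hx1, hx2⟩, v5_n h 1.36 (-0.186) 1.20443 1.6381 hk2 hy1' (ex_up 0.186 (by norm_num) (by norm_num) (by norm_num) (by norm_num)) (by norm_num), ?_, ?_⟩
  · exact v5_Dlo h 1.33 (-0.186) (-0.091) (-0.091) 1.09526 2.9399 (by norm_num) hk1 hy1' hy2' (ex_lp 0.091 (by norm_num) (by norm_num) (by norm_num)) (by norm_num) (by norm_num) (by norm_num) (by norm_num)
  · exact v5_Dup h 1.36 (-0.186) (-0.091) 1.20443 1.09527 3.3112 hk2 hy1' hy2' (ex_up 0.186 (by norm_num) (by norm_num) (by norm_num) (by norm_num)) (ex_up 0.091 (by norm_num) (by norm_num) (by norm_num) (by norm_num)) (by norm_num) (by norm_num) (by norm_num)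

private theorem B5Lo_T70_0_0 {β x y : ℝ} (hβ : 0 < β) (hN : β * 7.352 ≤ 1) (hx1 : 1.4446 ≤ x) (hx2 : x ≤ 1.513)
    (hy1 : -0.1861 ≤ y) (hy2 : y ≤ -0.0909) : ‖HH β (x + y * I) - 1‖ ≤ 0.095 := by
  refine le_epsJ (C := 0.6982) (N0 := 7.352) (J_boxp 1.4446 1.513 0.1861 0 (-0.0909) 1.5951 1.5245 1.7652 0.6596 0.5301 2.7115 7.352 0.9558 3.83 1.547 0.6664 0.7975 0.5434 1.209 2.6421 0.955 2.5002 3.954 3.4572 0.002849 0.01857 0.0001384 0.0000003101 0.000893 0.0000003101 0.0000003101 0.0000003101 0.6982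
    hβ hN hx1 hx2 hy1 hy2 (by norm_num) (by norm_num) (by linarith) (by norm_num) (by norm_num) (by norm_num) (by norm_num) (by norm_num) (by norm_num) (by norm_num) (by norm_num) (by norm_num) (by norm_num) (by norm_num) (by norm_num) (by norm_num) (by norm_num) (by norm_num) (by norm_num) (by norm_num) (by norm_num) (by norm_num) (by norm_num) (by norm_num)
    (cube_sqrt_geJ (s := 0.8254) (by norm_num) (by norm_num) (by norm_num) (by norm_num))
    (cube_sqrt_geJ (s := 0.9396) (by norm_num) (by norm_num) (by norm_num) (by norm_num))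
    (by norm_num) (by norm_num) (by norm_num) (by norm_num) (by norm_num) (by norm_num) (by norm_num) (by norm_num) (by norm_num) (by norm_num) (by norm_num) (by norm_num) (by norm_num) (by norm_num) (by norm_num) (by norm_num) (by norm_num) (by norm_num)
    (exp_neg_leJ (r := 0.863) 5 (by norm_num) (by norm_num) (by norm_num) (by norm_num))
    (exp_neg_leJ (r := 0.99) 3 (by norm_num) (by norm_num) (by norm_num) (by norm_num))
    (exp_neg_leJ (r := 0.888) 8 (by norm_num) (by norm_num) (by norm_num) (by norm_num))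
    (exp_neg_leJ (r := 0.99) 14 (by norm_num) (by norm_num) (by norm_num) (by norm_num))
    (exp_neg_leJ (r := 0.021) 7 (by norm_num) (by norm_num) (by norm_num) (by norm_num))
    (exp_neg_leJ (r := 0.99) 14 (by norm_num) (by norm_num) (by norm_num) (by norm_num))
    (exp_neg_leJ (r := 0.99) 14 (by norm_num) (by norm_num) (by norm_num) (by norm_num))
    (exp_neg_leJ (r := 0.99) 14 (by norm_num) (by norm_num) (by norm_num) (by norm_num))
    (by norm_num)) (by norm_num) hN hβ.le (by norm_num)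

private theorem B5Lo_T70_0_1 {β x y : ℝ} (hβ : 0 < β) (hN : β * 7.352 ≤ 1) (hx1 : 1.513 ≤ x) (hx2 : x ≤ 1.588)
    (hy1 : -0.1861 ≤ y) (hy2 : y ≤ -0.0909) : ‖HH β (x + y * I) - 1‖ ≤ 0.095 := by
  refine le_epsJ (C := 0.6983) (N0 := 7.352) (J_boxp 1.513 1.588 0.1861 0 (-0.0909) 1.6432 1.5989 1.8299 0.6423 0.5397 2.7115 7.352 0.9731 3.946 1.56 0.6375 0.8215 0.5551 1.2324 2.5989 0.9882 2.5949 4.0908 3.3918 0.002384 0.0169 0.0001163 0.0000003101 0.0006997 0.0000003101 0.0000003101 0.0000003101 0.6983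
    hβ hN hx1 hx2 hy1 hy2 (by norm_num) (by norm_num) (by linarith) (by norm_num) (by norm_num) (by norm_num) (by norm_num) (by norm_num) (by norm_num) (by norm_num) (by norm_num) (by norm_num) (by norm_num) (by norm_num) (by norm_num) (by norm_num) (by norm_num) (by norm_num) (by norm_num) (by norm_num) (by norm_num) (by norm_num) (by norm_num) (by norm_num)
    (cube_sqrt_geJ (s := 0.8219) (by norm_num) (by norm_num) (by norm_num) (by norm_num))
    (cube_sqrt_geJ (s := 0.9385) (by norm_num) (by norm_num) (by norm_num) (by norm_num))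
    (by norm_num) (by norm_num) (by norm_num) (by norm_num) (by norm_num) (by norm_num) (by norm_num) (by norm_num) (by norm_num) (by norm_num) (by norm_num) (by norm_num) (by norm_num) (by norm_num) (by norm_num) (by norm_num) (by norm_num) (by norm_num)
    (exp_neg_leJ (r := 0.039) 6 (by norm_num) (by norm_num) (by norm_num) (by norm_num))
    (exp_neg_leJ (r := 0.081) 4 (by norm_num) (by norm_num) (by norm_num) (by norm_num))
    (exp_neg_leJ (r := 0.06) 9 (by norm_num) (by norm_num) (by norm_num) (by norm_num))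
    (exp_neg_leJ (r := 0.99) 14 (by norm_num) (by norm_num) (by norm_num) (by norm_num))
    (exp_neg_leJ (r := 0.265) 7 (by norm_num) (by norm_num) (by norm_num) (by norm_num))
    (exp_neg_leJ (r := 0.99) 14 (by norm_num) (by norm_num) (by norm_num) (by norm_num))
    (exp_neg_leJ (r := 0.99) 14 (by norm_num) (by norm_num) (by norm_num) (by norm_num))
    (exp_neg_leJ (r := 0.99) 14 (by norm_num) (by norm_num) (by norm_num) (by norm_num))
    (by norm_num)) (by norm_num) hN hβ.le (by norm_num)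

private theorem B5Lo_T70_0_2 {β x y : ℝ} (hβ : 0 < β) (hN : β * 7.352 ≤ 1) (hx1 : 1.588 ≤ x) (hx2 : x ≤ 1.6356)
    (hy1 : -0.1861 ≤ y) (hy2 : y ≤ -0.0909) : ‖HH β (x + y * I) - 1‖ ≤ 0.095 := by
  refine le_epsJ (C := 0.6575) (N0 := 7.352) (J_boxp 1.588 1.6356 0.1861 0 (-0.0909) 1.696 1.6462 1.8713 0.6194 0.5458 2.7115 7.352 0.9707 3.929 1.558 0.6192 0.8479 0.5736 1.2581 2.5715 1.0246 2.6987 4.2408 3.4132 0.001964 0.01475 0.00009621 0.0000003101 0.0005358 0.0000003101 0.0000003101 0.0000003101 0.6575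
    hβ hN hx1 hx2 hy1 hy2 (by norm_num) (by norm_num) (by linarith) (by norm_num) (by norm_num) (by norm_num) (by norm_num) (by norm_num) (by norm_num) (by norm_num) (by norm_num) (by norm_num) (by norm_num) (by norm_num) (by norm_num) (by norm_num) (by norm_num) (by norm_num) (by norm_num) (by norm_num) (by norm_num) (by norm_num) (by norm_num) (by norm_num)
    (cube_sqrt_geJ (s := 0.8224) (by norm_num) (by norm_num) (by norm_num) (by norm_num))
    (cube_sqrt_geJ (s := 0.9386) (by norm_num) (by norm_num) (by norm_num) (by norm_num))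
    (by norm_num) (by norm_num) (by norm_num) (by norm_num) (by norm_num) (by norm_num) (by norm_num) (by norm_num) (by norm_num) (by norm_num) (by norm_num) (by norm_num) (by norm_num) (by norm_num) (by norm_num) (by norm_num) (by norm_num) (by norm_num)
    (exp_neg_leJ (r := 0.233) 6 (by norm_num) (by norm_num) (by norm_num) (by norm_num))
    (exp_neg_leJ (r := 0.217) 4 (by norm_num) (by norm_num) (by norm_num) (by norm_num))
    (exp_neg_leJ (r := 0.249) 9 (by norm_num) (by norm_num) (by norm_num) (by norm_num))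
    (exp_neg_leJ (r := 0.99) 14 (by norm_num) (by norm_num) (by norm_num) (by norm_num))
    (exp_neg_leJ (r := 0.532) 7 (by norm_num) (by norm_num) (by norm_num) (by norm_num))
    (exp_neg_leJ (r := 0.99) 14 (by norm_num) (by norm_num) (by norm_num) (by norm_num))
    (exp_neg_leJ (r := 0.99) 14 (by norm_num) (by norm_num) (by norm_num) (by norm_num))
    (exp_neg_leJ (r := 0.99) 14 (by norm_num) (by norm_num) (by norm_num) (by norm_num))
    (by norm_num)) (by norm_num) hN hβ.le (by norm_num)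

private theorem B5Lo_T70 {β x y : ℝ} (hβ : 0 < β) (hN : β * 7.352 ≤ 1) (hx1 : 1.4446 ≤ x) (hx2 : x ≤ 1.6356)
    (hy1 : (-0.1861) ≤ y) (hy2 : y ≤ (-0.0909)) : ‖HH β (x + y * I) - 1‖ ≤ 0.095 := by
  rcases le_total x 1.513 with hxx | hxx
  · exact B5Lo_T70_0_0 hβ hN (by linarith) (by linarith) (by linarith) (by linarith)
  rcases le_total x 1.588 with hxx | hxx
  · exact B5Lo_T70_0_1 hβ hN (by linarith) (by linarith) (by linarith) (by linarith)
  exact B5Lo_T70_0_2 hβ hN (by linarith) (by linarith) (by linarith) (by linarith)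

private theorem B5Lo_G71 {κ : ℝ} (hk1 : 1.33 ≤ κ) (hk2 : κ ≤ 1.36) : gG κ 0.42 ≤ 1.30338 ∧ 0.31904 ≤ Real.exp (-(κ * 0.42)) ^ 2 := by
  refine ⟨gG_le 0.42 1.33 1.36 1.30338 0.57202 0.56485 1.74823 1.7704 hk1 hk2 (by norm_num)
    (ex_um 0.5586 (by norm_num) (by norm_num) (by norm_num) (by norm_num)) (ex_um 0.5712 (by norm_num) (by norm_num) (by norm_num) (by norm_num))
    (ex_up 0.5586 (by norm_num) (by norm_num) (by norm_num) (by norm_num)) (ex_up 0.5712 (by norm_num) (by norm_num) (by norm_num) (by norm_num))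
    (by norm_num) (by norm_num), ?_⟩
  exact v5_M 0.56484 (ex_lm 0.5712 (by linarith) (by norm_num) (by norm_num) (by norm_num) (by norm_num)) (by norm_num) (by norm_num)

private theorem B5Lo_C72 {β r t κ : ℝ} (hβ : 0 < β) (hr : 10 ≤ r) (hκ : κ = β * r) (hk1 : 1.33 ≤ κ) (hk2 : κ ≤ 1.36) (hta : 2.1366 ≤ t + κ)
    (htb : t + κ ≤ 2.3247) : ‖F (cexp (I * β)) (r * cexp (I * ((t + β / 2 : ℝ) : ℂ)))‖ ≤
      1.8529 * Real.exp (r * (1.30338 - 0.42 * (t + κ))) + 0.2105 * Real.exp (r * 0) :=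
  v5_H 0.42 1.33 1.36 2.1366 2.3247 1.30338 1.7281 0.31904 0.1472 2.3472 0.5759 0.07244 0.4879 0.000548 1.8529 0.2105 hβ hr hκ (by norm_num) hk1 hk2 hta htb (by norm_num) (B5Lo_G71 hk1 hk2).1 (B5Lo_G71 hk1 hk2).2 (by norm_num) (by norm_num) (by norm_num)
    (by norm_num) (by norm_num) (by norm_num) (by norm_num) (by norm_num) (by norm_num) (by norm_num) (by norm_num) (ex_un 0 0.7243 (by norm_num) (by norm_num) (by norm_num) (by norm_num))
    (v5_hump 1.0504 7.352 2.7115 0.0004457 0.000548 hβ hr hκ hk1 hk2 (by norm_num) htb (by norm_num) (by norm_num) (by norm_num) (by norm_num) (by norm_num) (by norm_num) (by norm_num) (ex_un 7 0.7225 (by norm_num) (by norm_num) (by norm_num) (by norm_num)) (by norm_num)) (by norm_num) (by norm_num)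

private theorem B5Lo_G73 {κ : ℝ} (hk1 : 1.33 ≤ κ) (hk2 : κ ≤ 1.36) : gG κ (-0.5) ≤ 1.35757 ∧ 3.78096 ≤ Real.exp (-(κ * (-0.5))) ^ 2 := by
  refine ⟨gG_le (-0.5) 1.33 1.36 1.35757 1.9445 1.97388 0.51428 0.50663 hk1 hk2 (by norm_num)
    (ex_up 0.665 (by norm_num) (by norm_num) (by norm_num) (by norm_num)) (ex_up 0.68 (by norm_num) (by norm_num) (by norm_num) (by norm_num))
    (ex_um 0.665 (by norm_num) (by norm_num) (by norm_num) (by norm_num)) (ex_um 0.68 (by norm_num) (by norm_num) (by norm_num) (by norm_num))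
    (by norm_num) (by norm_num), ?_⟩
  exact v5_M 1.94447 (ex_lp 0.665 (by linarith) (by norm_num) (by norm_num)) (by norm_num) (by norm_num)

private theorem B5Lo_C74 {β r t κ : ℝ} (hβ : 0 < β) (hr : 10 ≤ r) (hκ : κ = β * r) (hk1 : 1.33 ≤ κ) (hk2 : κ ≤ 1.36) (hta : (-1.6333) ≤ t + κ)
    (htb : t + κ ≤ (-1.4452)) : ‖F (cexp (I * β)) (r * cexp (I * ((t + β / 2 : ℝ) : ℂ)))‖ ≤
      0.7748 * Real.exp (r * (1.35757 - (-0.5) * (t + κ))) + 1.5562 * Real.exp (r * 0.0501) :=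
  v5_HU (-0.5) 1.33 1.36 (-1.6333) (-1.4452) 1.35757 0.7748 3.78096 0.1472 0.6636 1.7186 0 0.0501 0.00000115 1.5562 hβ hr hκ (by norm_num) hk1 hk2 hta htb (by norm_num) (by norm_num) (B5Lo_G73 hk1 hk2).1 (B5Lo_G73 hk1 hk2).2 (by norm_num) (by norm_num) (by norm_num)
    (by norm_num) (by norm_num) (by norm_num) (by norm_num) (by norm_num) (by norm_num) (by norm_num)
    (by norm_num) (by norm_num) (by norm_num) (v5_hump 4.8203 7.352 2.7115 0.0000009316 0.00000115 hβ hr hκ hk1 hk2 (by norm_num) htb (by norm_num) (by norm_num) (by norm_num) (by norm_num) (by norm_num) (by norm_num) (by norm_num) (ex_un 13 0.9 (by norm_num) (by norm_num) (by norm_num) (by norm_num)) (by norm_num)) (by norm_num)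

private theorem B5Lo_C75 {β r t κ : ℝ} (hβ : 0 < β) (hr : 10 ≤ r) (hκ : κ = β * r) (hk1 : 1.33 ≤ κ) (hk2 : κ ≤ 1.36) (hta : 3.3932 ≤ t + κ)
    (htb : t + κ ≤ 3.5813) : ‖F (cexp (I * β)) (r * cexp (I * ((t + β / 2 : ℝ) : ℂ)))‖ ≤
      1.9141 * Real.exp (r * (0.1517 + 1 / 20)) :=
  v5_UD 1.33 1.36 3.3932 3.5813 0.01 0.346 0.1517 0.9979 1.9141 hβ hr hκ (by norm_num) hk1 hk2 hta htb (by norm_num) (by norm_num) (by norm_num) (by norm_num) (by norm_num) (by norm_num) (by norm_num) (by norm_num) (by norm_num) (by norm_num) (by norm_num)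

private theorem B5Lo_Y76 {β r t κ h t' : ℝ} (hβ : 0 < β) (hκ : κ = β * r) (hN : β * 7.352 ≤ 1) (hk1 : 1.33 ≤ κ) (hk2 : κ ≤ 1.36)
    (ht : t' = t + (((0 : ℤ) : ℝ) - 1) * h) (hD : DomR κ t') (hta : (-0.3767) ≤ t' + κ) (htb : t' + κ ≤ (-0.1886)) :
    0.6708 * Real.exp (r * sE κ t') ≤ ‖Xf β r h t 0‖ := by
  obtain ⟨⟨ya, yb⟩, ⟨xa, xb⟩, n1, Da, Db⟩ := B5Lo_B69 hD hk1 hk2 hta htb
  have J := B5Lo_T70 (x := sx κ t') (y := sy κ t') hβ hN (by linarith only [xa, xb, ya, yb]) (by linarith only [xa, xb, ya, yb]) (by linarith only [xa, xb, ya, yb]) (by linarith only [xa, xb, ya, yb])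
  exact v5_Jlo hβ hκ (k := 0) ht hD 0.095 3.3112 0.6708 (by norm_num) J Db (by norm_num)

private theorem B5Lo_V77 {κ t : ℝ} (hD : DomR κ t) (hk1 : 1.33 ≤ κ) (hk2 : κ ≤ 1.36) (hta : (-0.3767) ≤ t + κ) (htb : t + κ ≤ (-0.1886)) :
    1.01324 + 0.1054 * (t + κ) ≤ sE κ t := by
  have hκ0 : 0 < κ := hD.1
  exact v5_V0 hD 1.33 1.36 (-0.3767) (-0.1886) 0.3768 0.5161 0.0356 0.16116 0.04711 0.49117 1.01324 0.1054 (by norm_num) hk1 hk2 (by norm_num) hta htb (by norm_num) (by norm_num) (by norm_num) ((cup2 1.33 (by norm_num) hk1).trans (by norm_num))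
      (by norm_num) (by norm_num) (by norm_num) (by norm_num) (by norm_num) (by norm_num) (by norm_num) (by norm_num) (by norm_num) (by norm_num) (by norm_num) (by norm_num) (by norm_num)

private theorem B5Lo_K78 {β r t κ h : ℝ} (hβ : 0 < β) (hr : 10 ≤ r) (hκ : κ = β * r) (hk1 : 1.33 ≤ κ) (hk2 : κ ≤ 1.36)
    (hh : h = 2 * Real.pi / 5) (hh1 : 1.25663 ≤ h) (hh2 : h ≤ 1.25664) (hta : 0.88 ≤ t + κ) (htb : t + κ ≤ 1.068)
    (hY : 0.6708 * Real.exp (r * sE κ (t - h)) ≤ ‖Xf β r h t 0‖) (hV : 1.01324 + 0.1054 * (t - h + κ) ≤ sE κ (t - h)) :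
    ‖Xf β r h t 2‖ ≤ 0.00955 * ‖Xf β r h t 0‖ := by
  rw [v5_X 2 1 (by push_cast; ring)]
  exact v5_cmp 0.5675 0.003449 0.00953 0.9735 0.00005959 0.0000187 0.00955 hr (B5Lo_C72 (t := t + 1 * h) hβ hr hκ hk1 hk2 (by linarith only [hta, htb, hh1, hh2]) (by linarith only [hta, htb, hh1, hh2])) hY (by norm_num) (by norm_num) (by norm_num) (by norm_num) (by linarith only [hV, hta, htb, hh1, hh2]) (ex_un 5 0.6749 (by norm_num) (by norm_num) (by norm_num) (by norm_num)) (by norm_num) (by norm_num) (by linarith only [hV, hta, htb, hh1, hh2]) (ex_un 9 0.7349 (by norm_num) (by norm_num) (by norm_num) (by norm_num)) (by norm_num) (by norm_num)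

private theorem B5Lo_K79 {β r t κ h : ℝ} (hβ : 0 < β) (hr : 10 ≤ r) (hκ : κ = β * r) (hk1 : 1.33 ≤ κ) (hk2 : κ ≤ 1.36)
    (hh : h = 2 * Real.pi / 5) (hh1 : 1.25663 ≤ h) (hh2 : h ≤ 1.25664) (hta : 0.88 ≤ t + κ) (htb : t + κ ≤ 1.068)
    (hY : 0.6708 * Real.exp (r * sE κ (t - h)) ≤ ‖Xf β r h t 0‖) (hV : 1.01324 + 0.1054 * (t - h + κ) ≤ sE κ (t - h)) :
    ‖Xf β r h t (-1)‖ ≤ 0.0325 * ‖Xf β r h t 0‖ := by
  rw [v5_X (-1) (-2) (by push_cast; ring)]
  exact v5_cmp 0.3584 0.02786 0.0322 0.9234 0.00009769 0.000227 0.0325 hr (B5Lo_C74 (t := t + (-2) * h) hβ hr hκ hk1 hk2 (by linarith only [hta, htb, hh1, hh2]) (by linarith only [hta, htb, hh1, hh2])) hY (by norm_num) (by norm_num) (by norm_num) (by norm_num) (by linarith only [hV, hta, htb, hh1, hh2]) (ex_un 3 0.5839 (by norm_num) (by norm_num) (by norm_num) (by norm_num)) (by norm_num) (by norm_num) (by linarith only [hV, hta, htb, hh1, hh2]) (ex_un 9 0.2339 (by norm_num) (by norm_num)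 (by norm_num) (by norm_num)) (by norm_num) (by norm_num)

private theorem B5Lo_K80 {β r t κ h : ℝ} (hβ : 0 < β) (hr : 10 ≤ r) (hκ : κ = β * r) (hk1 : 1.33 ≤ κ) (hk2 : κ ≤ 1.36)
    (hh : h = 2 * Real.pi / 5) (hh1 : 1.25663 ≤ h) (hh2 : h ≤ 1.25664) (hta : 0.88 ≤ t + κ) (htb : t + κ ≤ 1.068)
    (hY : 0.6708 * Real.exp (r * sE κ (t - h)) ≤ ‖Xf β r h t 0‖) (hV : 1.01324 + 0.1054 * (t - h + κ) ≤ sE κ (t - h)) :
    ‖Xf β r h t (-2)‖ ≤ 0.00128 * ‖Xf β r h t 0‖ := by
  rw [v5_Xm2 hh]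
  exact v5_cmp0 0.7718 0.0004477 0.00128 hr (B5Lo_C75 (t := t + 2 * h) hβ hr hκ hk1 hk2 (by linarith only [hta, htb, hh1, hh2]) (by linarith only [hta, htb, hh1, hh2])) hY (by norm_num) (by norm_num) (by norm_num) (by linarith only [hV, hta, htb, hh1, hh2]) (ex_un 7 0.7179 (by norm_num) (by norm_num) (by norm_num) (by norm_num)) (by norm_num)

private theorem B5Lo_G81 {κ : ℝ} (hk1 : 1.33 ≤ κ) (hk2 : κ ≤ 1.36) : gG κ 0.24 ≤ 1.08825 ∧ 0.52057 ≤ Real.exp (-(κ * 0.24)) ^ 2 := by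
  refine ⟨gG_le 0.24 1.33 1.36 1.08825 0.72674 0.72152 1.37603 1.38597 hk1 hk2 (by norm_num)
    (ex_um 0.3192 (by norm_num) (by norm_num) (by norm_num) (by norm_num)) (ex_um 0.3264 (by norm_num) (by norm_num) (by norm_num) (by norm_num))
    (ex_up 0.3192 (by norm_num) (by norm_num) (by norm_num) (by norm_num)) (ex_up 0.3264 (by norm_num) (by norm_num) (by norm_num) (by norm_num))
    (by norm_num) (by norm_num), ?_⟩
  exact v5_M 0.72151 (ex_lm 0.3264 (by linarith) (by norm_num) (by norm_num) (by norm_num) (by norm_num)) (by norm_num) (by norm_num)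

private theorem B5Lo_C82 {β r t κ : ℝ} (hβ : 0 < β) (hr : 10 ≤ r) (hκ : κ = β * r) (hk1 : 1.33 ≤ κ) (hk2 : κ ≤ 1.36) (hta : 0.8799 ≤ t + κ)
    (htb : t + κ ≤ 1.0681) : ‖F (cexp (I * β)) (r * cexp (I * ((t + β / 2 : ℝ) : ℂ)))‖ ≤
      1.2893 * Real.exp (r * (1.08825 - 0.24 * (t + κ))) + 0.2822 * Real.exp (r * 0) :=
  v5_H 0.24 1.33 1.36 0.8799 1.0681 1.08825 1.2875 0.52057 0.1472 1.0905 1.8325 0.38485 0.02156 0.00000115 1.2893 0.2822 hβ hr hκ (by norm_num) hk1 hk2 hta htb (by norm_num) (B5Lo_G81 hk1 hk2).1 (B5Lo_G81 hk1 hk2).2 (by norm_num) (by norm_num) (by norm_num)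
    (by norm_num) (by norm_num) (by norm_num) (by norm_num) (by norm_num) (by norm_num) (by norm_num) (by norm_num) (ex_un 3 0.8484 (by norm_num) (by norm_num) (by norm_num) (by norm_num))
    (v5_hump 2.307 7.352 2.7115 0.0000009316 0.00000115 hβ hr hκ hk1 hk2 (by norm_num) htb (by norm_num) (by norm_num) (by norm_num) (by norm_num) (by norm_num) (by norm_num) (by norm_num) (ex_un 13 0.9 (by norm_num) (by norm_num) (by norm_num) (by norm_num)) (by norm_num)) (by norm_num) (by norm_num)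

private theorem B5Lo_K83 {β r t κ h : ℝ} (hβ : 0 < β) (hr : 10 ≤ r) (hκ : κ = β * r) (hk1 : 1.33 ≤ κ) (hk2 : κ ≤ 1.36)
    (hh : h = 2 * Real.pi / 5) (hh1 : 1.25663 ≤ h) (hh2 : h ≤ 1.25664) (hta : 0.88 ≤ t + κ) (htb : t + κ ≤ 1.068)
    (hY : 0.6708 * Real.exp (r * sE κ (t - h)) ≤ ‖Xf β r h t 0‖) (hV : 1.01324 + 0.1054 * (t - h + κ) ≤ sE κ (t - h)) :
    ‖Xf β r h t 1‖ ≤ 0.747 * ‖Xf β r h t 0‖ := by
  rw [v5_X 1 0 (by push_cast; ring)]
  exact v5_cmp 0.0964 0.388 0.746 0.9735 0.00005959 0.0000251 0.747 hr (B5Lo_C82 (t := t + 0 * h) hβ hr hκ hk1 hk2 (by linarith only [hta, htb, hh1, hh2]) (by linarith only [hta, htb, hh1, hh2])) hY (by norm_num) (by norm_num) (by norm_num) (by norm_num) (by linarith only [hV, hta, htb, hh1, hh2]) (ex_un 0 0.9639 (by norm_num) (by norm_num) (by norm_num) (by norm_num)) (by norm_num) (by norm_num) (by linarith only [hV, hta, htb, hh1, hh2]) (ex_un 9 0.7349 (by norm_num) (by norm_num) (by norm_num)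 (by norm_num)) (by norm_num) (by norm_num)

private theorem B5Lo_O84 {β r t κ h : ℝ} (hβ : 0 < β) (hr : 10 ≤ r) (hκ : κ = β * r) (hk1 : 1.33 ≤ κ) (hk2 : κ ≤ 1.36)
    (hh : h = 2 * Real.pi / 5) (hta : 0.88 ≤ t + κ) (htb : t + κ ≤ 1.068) :
    ‖Xf β r h t (-2)‖ + ‖Xf β r h t (-1)‖ + ‖Xf β r h t 2‖ < |‖Xf β r h t 1‖ - ‖Xf β r h t 0‖| := by
  obtain ⟨hh1, hh2⟩ := v5_h hh
  have hκ0 : 0 < κ := by linarith only [hk1]
  have hN : β * 7.352 ≤ 1 := v5_hN 1.36 7.352 hβ hr hκ hk2 (by norm_num) (by norm_num)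
  have hD1 : DomR κ t := v5_dom hκ0 (by linarith only [hta, htb, hk1, hk2, hh1, hh2]) (Or.inr (by linarith only [hta, htb, hk1, hk2, hh1, hh2]))
  have hD0 : DomR κ (t - h) := v5_dom hκ0 (by linarith only [hta, htb, hk1, hk2, hh1, hh2]) (Or.inl (by linarith only [hk1]))
  have h0a : (-0.3767) ≤ t - h + κ := by linarith only [hta, htb, hh1, hh2]
  have h0b : t - h + κ ≤ (-0.1886) := by linarith only [hta, htb, hh1, hh2]
  have e0 : t - h = t + (((0 : ℤ) : ℝ) - 1) * h := by push_cast; ring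
  have hY := B5Lo_Y76 (h := h) hβ hκ hN hk1 hk2 e0 hD0 h0a h0b
  have hV := B5Lo_V77 hD0 hk1 hk2 h0a h0b
  have cp2 := B5Lo_K78 hβ hr hκ hk1 hk2 hh hh1 hh2 hta htb hY hV
  have cm1 := B5Lo_K79 hβ hr hκ hk1 hk2 hh hh1 hh2 hta htb hY hV
  have cm2 := B5Lo_K80 hβ hr hκ hk1 hk2 hh hh1 hh2 hta htb hY hV
  have cn1 := B5Lo_K83 hβ hr hκ hk1 hk2 hh hh1 hh2 hta htb hY hV
  have hp : 0 < ‖Xf β r h t 0‖ := lt_of_lt_of_le (by positivity) hY
  exact v5_out0 _ _ _ _ cm2 cm1 cp2 cn1 hp (by norm_num)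

private theorem B5Lo_B85 {κ t : ℝ} (h : DomR κ t) (hk1 : 1.33 ≤ κ) (hk2 : κ ≤ 1.36) (ht1 : (-0.1887) ≤ t + κ) (ht2 : t + κ ≤ 0.0629) :
    ((-0.093) ≤ sy κ t ∧ sy κ t ≤ 0.031) ∧ (1.286 ≤ sx κ t ∧ sx κ t ≤ 1.4926) ∧ κ * Real.exp (-sy κ t) ≤ 1.4926 ∧ 2.7245 ≤ sD κ t ∧ sD κ t ≤ 3.0418 := by
  have hy1 : -0.093 ≤ sy κ t := syL_ge h 1.33 1.36 0.1887 0.093 0.91119 0.9112 0.0619 0.0623 0.06372 hk1 hk2 (by linarith) (by norm_num) (by norm_num) (by norm_num)
    (expm_ge (by norm_num) (by norm_num) (by norm_num) (by norm_num)) (expm_le (by norm_num) (by norm_num) (by norm_num)) (by norm_num)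
    (by norm_num) (by norm_num) (by norm_num) (by norm_num) (by norm_num) (by norm_num)
  have hy2 : sy κ t ≤ 0.031 := syR_le h 1.33 1.36 0.0629 0.031 1.03148 0.0233 0.02351 0.02405 hk1 hk2 (by linarith) (by norm_num) (by norm_num)
    (expn_ge (by norm_num) (by norm_num)) (by norm_num) (by norm_num) (Or.inr ((mul_le_mul_of_nonneg_left (expn_le (E := 1.03149) (by norm_num) (by norm_num) (by norm_num)) (by norm_num)).trans (by norm_num))) (by norm_num) (by norm_num) (by norm_num)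
  have hy1' : (-0.093) ≤ sy κ t := by linarith
  have hy2' : sy κ t ≤ 0.031 := by linarith
  have hx1 : 1.286 ≤ sx κ t := sx_lo h 1.33 0.031 0.0931 0.96947 1.286 hk1 (by norm_num) hy2' (abs_le.2 ⟨by linarith, by linarith⟩) (ex_lm 0.031 (by norm_num) (by norm_num) (by norm_num) (by norm_num) (by norm_num)) (by norm_num) (by norm_num)
  have hx2 : sx κ t ≤ 1.4926 := sx_hi h 1.36 (-0.093) 0 1.09747 1.4926 hk2 hy1' (by norm_num) (abs_nonneg _) (ex_up 0.093 (by norm_num) (by norm_num) (by norm_num) (by norm_num)) (by norm_num) (by norm_num)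
  refine ⟨⟨hy1', hy2'⟩, ⟨hx1, hx2⟩, v5_n h 1.36 (-0.093) 1.09747 1.4926 hk2 hy1' (ex_up 0.093 (by norm_num) (by norm_num) (by norm_num) (by norm_num)) (by norm_num), ?_, ?_⟩
  · exact v5_Dlo h 1.33 (-0.093) 0.031 0.031 0.96947 2.7245 (by norm_num) hk1 hy1' hy2' (ex_lm 0.031 (by norm_num) (by norm_num) (by norm_num) (by norm_num) (by norm_num)) (by norm_num) (by norm_num) (by norm_num) (by norm_num)
  · exact v5_Dup h 1.36 (-0.093) 0.031 1.09747 0.96948 3.0418 hk2 hy1' hy2' (ex_up 0.093 (by norm_num) (by norm_num) (by norm_num) (by norm_num)) (ex_um 0.031 (by norm_num) (by norm_num) (by norm_num) (by norm_num)) (by norm_num) (by norm_num) (by norm_num)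

private theorem B5Lo_T86_0_0 {β x y : ℝ} (hβ : 0 < β) (hN : β * 7.352 ≤ 1) (hx1 : 1.2859 ≤ x) (hx2 : x ≤ 1.351)
    (hy1 : -0.0931 ≤ y) (hy2 : y ≤ 0.0311) : ‖HH β (x + y * I) - 1‖ ≤ 0.08 := by
  refine le_epsJ (C := 0.5875) (N0 := 7.352) (J_boxp 1.2859 1.351 0.0931 0.0311 0.0311 1.5494 1.3543 1.6996 0.676 0.5201 2.7115 7.352 0.8741 3.339 1.487 0.8145 0.7746 0.5489 1.3015 3.0299 0.9255 2.2773 3.756 3.4559 0.003369 0.01769 0.00006996 0.0000003101 0.001111 0.0000003101 0.0000003101 0.0000003101 0.5875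
    hβ hN hx1 hx2 hy1 hy2 (by norm_num) (by norm_num) (by linarith) (by norm_num) (by norm_num) (by norm_num) (by norm_num) (by norm_num) (by norm_num) (by norm_num) (by norm_num) (by norm_num) (by norm_num) (by norm_num) (by norm_num) (by norm_num) (by norm_num) (by norm_num) (by norm_num) (by norm_num) (by norm_num) (by norm_num) (by norm_num) (by norm_num)
    (cube_sqrt_geJ (s := 0.8418) (by norm_num) (by norm_num) (by norm_num) (by norm_num))
    (cube_sqrt_geJ (s := 0.9449) (by norm_num) (by norm_num) (by norm_num) (by norm_num))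
    (by norm_num) (by norm_num) (by norm_num) (by norm_num) (by norm_num) (by norm_num) (by norm_num) (by norm_num) (by norm_num) (by norm_num) (by norm_num) (by norm_num) (by norm_num) (by norm_num) (by norm_num) (by norm_num) (by norm_num) (by norm_num)
    (exp_neg_leJ (r := 0.694) 5 (by norm_num) (by norm_num) (by norm_num) (by norm_num))
    (exp_neg_leJ (r := 0.035) 4 (by norm_num) (by norm_num) (by norm_num) (by norm_num))
    (exp_neg_leJ (r := 0.568) 9 (by norm_num) (by norm_num) (by norm_num) (by norm_num))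
    (exp_neg_leJ (r := 0.99) 14 (by norm_num) (by norm_num) (by norm_num) (by norm_num))
    (exp_neg_leJ (r := 0.804) 6 (by norm_num) (by norm_num) (by norm_num) (by norm_num))
    (exp_neg_leJ (r := 0.99) 14 (by norm_num) (by norm_num) (by norm_num) (by norm_num))
    (exp_neg_leJ (r := 0.99) 14 (by norm_num) (by norm_num) (by norm_num) (by norm_num))
    (exp_neg_leJ (r := 0.99) 14 (by norm_num) (by norm_num) (by norm_num) (by norm_num))
    (by norm_num)) (by norm_num) hN hβ.le (by norm_num)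

private theorem B5Lo_T86_0_1 {β x y : ℝ} (hβ : 0 < β) (hN : β * 7.352 ≤ 1) (hx1 : 1.351 ≤ x) (hx2 : x ≤ 1.42)
    (hy1 : -0.0931 ≤ y) (hy2 : y ≤ 0.0311) : ‖HH β (x + y * I) - 1‖ ≤ 0.08 := by
  refine le_epsJ (C := 0.5877) (N0 := 7.352) (J_boxp 1.351 1.42 0.0931 0.0311 0.0311 1.5952 1.4231 1.7549 0.6576 0.5285 2.7115 7.352 0.8922 3.44 1.5 0.788 0.7975 0.5603 1.3237 2.99 0.9571 2.3674 3.8862 3.3991 0.002849 0.01627 0.00005948 0.0000003101 0.0008797 0.0000003101 0.0000003101 0.0000003101 0.5877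
    hβ hN hx1 hx2 hy1 hy2 (by norm_num) (by norm_num) (by linarith) (by norm_num) (by norm_num) (by norm_num) (by norm_num) (by norm_num) (by norm_num) (by norm_num) (by norm_num) (by norm_num) (by norm_num) (by norm_num) (by norm_num) (by norm_num) (by norm_num) (by norm_num) (by norm_num) (by norm_num) (by norm_num) (by norm_num) (by norm_num) (by norm_num)
    (cube_sqrt_geJ (s := 0.8382) (by norm_num) (by norm_num) (by norm_num) (by norm_num))
    (cube_sqrt_geJ (s := 0.9438) (by norm_num) (by norm_num) (by norm_num) (by norm_num))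
    (by norm_num) (by norm_num) (by norm_num) (by norm_num) (by norm_num) (by norm_num) (by norm_num) (by norm_num) (by norm_num) (by norm_num) (by norm_num) (by norm_num) (by norm_num) (by norm_num) (by norm_num) (by norm_num) (by norm_num) (by norm_num)
    (exp_neg_leJ (r := 0.863) 5 (by norm_num) (by norm_num) (by norm_num) (by norm_num))
    (exp_neg_leJ (r := 0.119) 4 (by norm_num) (by norm_num) (by norm_num) (by norm_num))
    (exp_neg_leJ (r := 0.731) 9 (by norm_num) (by norm_num) (by norm_num) (by norm_num))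
    (exp_neg_leJ (r := 0.99) 14 (by norm_num) (by norm_num) (by norm_num) (by norm_num))
    (exp_neg_leJ (r := 0.036) 7 (by norm_num) (by norm_num) (by norm_num) (by norm_num))
    (exp_neg_leJ (r := 0.99) 14 (by norm_num) (by norm_num) (by norm_num) (by norm_num))
    (exp_neg_leJ (r := 0.99) 14 (by norm_num) (by norm_num) (by norm_num) (by norm_num))
    (exp_neg_leJ (r := 0.99) 14 (by norm_num) (by norm_num) (by norm_num) (by norm_num))
    (by norm_num)) (by norm_num) hN hβ.le (by norm_num)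

private theorem B5Lo_T86_0_2 {β x y : ℝ} (hβ : 0 < β) (hN : β * 7.352 ≤ 1) (hx1 : 1.42 ≤ x) (hx2 : x ≤ 1.4927)
    (hy1 : -0.0931 ≤ y) (hy2 : y ≤ 0.0311) : ‖HH β (x + y * I) - 1‖ ≤ 0.08 := by
  refine le_epsJ (C := 0.5875) (N0 := 7.352) (J_boxp 1.42 1.4927 0.0931 0.0311 0.0311 1.6438 1.4957 1.8142 0.6392 0.5374 2.7115 7.352 0.91 3.544 1.513 0.76 0.8218 0.5725 1.3474 2.948 0.9907 2.4629 4.0242 3.3397 0.00238 0.01487 0.00005 0.0000003101 0.0006872 0.0000003101 0.0000003101 0.0000003101 0.5875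
    hβ hN hx1 hx2 hy1 hy2 (by norm_num) (by norm_num) (by linarith) (by norm_num) (by norm_num) (by norm_num) (by norm_num) (by norm_num) (by norm_num) (by norm_num) (by norm_num) (by norm_num) (by norm_num) (by norm_num) (by norm_num) (by norm_num) (by norm_num) (by norm_num) (by norm_num) (by norm_num) (by norm_num) (by norm_num) (by norm_num) (by norm_num)
    (cube_sqrt_geJ (s := 0.8346) (by norm_num) (by norm_num) (by norm_num) (by norm_num))
    (cube_sqrt_geJ (s := 0.9426) (by norm_num) (by norm_num) (by norm_num) (by norm_num))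
    (by norm_num) (by norm_num) (by norm_num) (by norm_num) (by norm_num) (by norm_num) (by norm_num) (by norm_num) (by norm_num) (by norm_num) (by norm_num) (by norm_num) (by norm_num) (by norm_num) (by norm_num) (by norm_num) (by norm_num) (by norm_num)
    (exp_neg_leJ (r := 0.041) 6 (by norm_num) (by norm_num) (by norm_num) (by norm_num))
    (exp_neg_leJ (r := 0.209) 4 (by norm_num) (by norm_num) (by norm_num) (by norm_num))
    (exp_neg_leJ (r := 0.906) 9 (by norm_num) (by norm_num) (by norm_num) (by norm_num))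
    (exp_neg_leJ (r := 0.99) 14 (by norm_num) (by norm_num) (by norm_num) (by norm_num))
    (exp_neg_leJ (r := 0.283) 7 (by norm_num) (by norm_num) (by norm_num) (by norm_num))
    (exp_neg_leJ (r := 0.99) 14 (by norm_num) (by norm_num) (by norm_num) (by norm_num))
    (exp_neg_leJ (r := 0.99) 14 (by norm_num) (by norm_num) (by norm_num) (by norm_num))
    (exp_neg_leJ (r := 0.99) 14 (by norm_num) (by norm_num) (by norm_num) (by norm_num))
    (by norm_num)) (by norm_num) hN hβ.le (by norm_num)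

private theorem B5Lo_T86 {β x y : ℝ} (hβ : 0 < β) (hN : β * 7.352 ≤ 1) (hx1 : 1.2859 ≤ x) (hx2 : x ≤ 1.4927)
    (hy1 : (-0.0931) ≤ y) (hy2 : y ≤ 0.0311) : ‖HH β (x + y * I) - 1‖ ≤ 0.08 := by
  rcases le_total x 1.351 with hxx | hxx
  · exact B5Lo_T86_0_0 hβ hN (by linarith) (by linarith) (by linarith) (by linarith)
  rcases le_total x 1.42 with hxx | hxx
  · exact B5Lo_T86_0_1 hβ hN (by linarith) (by linarith) (by linarith) (by linarith)
  exact B5Lo_T86_0_2 hβ hN (by linarith) (by linarith) (by linarith) (by linarith)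

private theorem B5Lo_G87 {κ : ℝ} (hk1 : 1.33 ≤ κ) (hk2 : κ ≤ 1.36) : gG κ 0.43 ≤ 1.32108 ∧ 0.31048 ≤ Real.exp (-(κ * 0.43)) ^ 2 := by
  refine ⟨gG_le 0.43 1.33 1.36 1.32108 0.56446 0.55722 1.77163 1.79464 hk1 hk2 (by norm_num)
    (ex_um 0.5719 (by norm_num) (by norm_num) (by norm_num) (by norm_num)) (ex_um 0.5848 (by norm_num) (by norm_num) (by norm_num) (by norm_num))
    (ex_up 0.5719 (by norm_num) (by norm_num) (by norm_num) (by norm_num)) (ex_up 0.5848 (by norm_num) (by norm_num) (by norm_num) (by norm_num))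
    (by norm_num) (by norm_num), ?_⟩
  exact v5_M 0.55721 (ex_lm 0.5848 (by linarith) (by norm_num) (by norm_num) (by norm_num) (by norm_num)) (by norm_num) (by norm_num)

private theorem B5Lo_C88 {β r t κ : ℝ} (hβ : 0 < β) (hr : 10 ≤ r) (hκ : κ = β * r) (hk1 : 1.33 ≤ κ) (hk2 : κ ≤ 1.36) (hta : 2.3246 ≤ t + κ)
    (htb : t + κ ≤ 2.5762) : ‖F (cexp (I * β)) (r * cexp (I * ((t + β / 2 : ℝ) : ℂ)))‖ ≤
      2.0319 * Real.exp (r * (1.32108 - 0.43 * (t + κ))) + 0.2088 * Real.exp (r * 0) :=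
  v5_H 0.43 1.33 1.36 2.3246 2.5762 1.32108 1.784 0.31048 0.1472 2.5352 0.3244 0.06083 0.5463 0.0035 2.0319 0.2088 hβ hr hκ (by norm_num) hk1 hk2 hta htb (by norm_num) (B5Lo_G87 hk1 hk2).1 (B5Lo_G87 hk1 hk2).2 (by norm_num) (by norm_num) (by norm_num)
    (by norm_num) (by norm_num) (by norm_num) (by norm_num) (by norm_num) (by norm_num) (by norm_num) (by norm_num) (ex_un 0 0.6082 (by norm_num) (by norm_num) (by norm_num) (by norm_num))
    (v5_hump 0.7989 7.352 2.7115 0.002848 0.0035 hβ hr hκ hk1 hk2 (by norm_num) htb (by norm_num) (by norm_num) (by norm_num) (by norm_num) (by norm_num) (by norm_num) (by norm_num) (ex_un 5 0.8735 (by norm_num) (by norm_num) (by norm_num) (by norm_num)) (by norm_num)) (by norm_num) (by norm_num)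

private theorem B5Lo_G89 {κ : ℝ} (hk1 : 1.33 ≤ κ) (hk2 : κ ≤ 1.36) : gG κ (-0.43) ≤ 1.26162 ∧ 3.13863 ≤ Real.exp (-(κ * (-0.43))) ^ 2 := by
  refine ⟨gG_le (-0.43) 1.33 1.36 1.26162 1.77163 1.79464 0.56446 0.55722 hk1 hk2 (by norm_num)
    (ex_up 0.5719 (by norm_num) (by norm_num) (by norm_num) (by norm_num)) (ex_up 0.5848 (by norm_num) (by norm_num) (by norm_num) (by norm_num))
    (ex_um 0.5719 (by norm_num) (by norm_num) (by norm_num) (by norm_num)) (ex_um 0.5848 (by norm_num) (by norm_num) (by norm_num) (by norm_num))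
    (by norm_num) (by norm_num), ?_⟩
  exact v5_M 1.77162 (ex_lp 0.5719 (by linarith) (by norm_num) (by norm_num)) (by norm_num) (by norm_num)

private theorem B5Lo_C90 {β r t κ : ℝ} (hβ : 0 < β) (hr : 10 ≤ r) (hκ : κ = β * r) (hk1 : 1.33 ≤ κ) (hk2 : κ ≤ 1.36) (hta : (-1.4453) ≤ t + κ)
    (htb : t + κ ≤ (-1.1937)) : ‖F (cexp (I * β)) (r * cexp (I * ((t + β / 2 : ℝ) : ℂ)))‖ ≤
      0.8101 * Real.exp (r * (1.26162 - (-0.43) * (t + κ))) + 1.4846 * Real.exp (r * 0.0501) :=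
  v5_HU (-0.43) 1.33 1.36 (-1.4453) (-1.1937) 1.26162 0.8101 3.13863 0.1472 0.6636 1.9066 0 0.0501 0.00000115 1.4846 hβ hr hκ (by norm_num) hk1 hk2 hta htb (by norm_num) (by norm_num) (B5Lo_G89 hk1 hk2).1 (B5Lo_G89 hk1 hk2).2 (by norm_num) (by norm_num) (by norm_num)
    (by norm_num) (by norm_num) (by norm_num) (by norm_num) (by norm_num) (by norm_num) (by norm_num)
    (by norm_num) (by norm_num) (by norm_num) (v5_hump 4.5688 7.352 2.7115 0.0000009316 0.00000115 hβ hr hκ hk1 hk2 (by norm_num) htb (by norm_num) (by norm_num) (by norm_num) (by norm_num) (by norm_num) (by norm_num) (by norm_num) (ex_un 13 0.9 (by norm_num) (by norm_num) (by norm_num) (by norm_num)) (by norm_num)) (by norm_num)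

private theorem B5Lo_C91 {β r t κ : ℝ} (hβ : 0 < β) (hr : 10 ≤ r) (hκ : κ = β * r) (hk1 : 1.33 ≤ κ) (hk2 : κ ≤ 1.36) (hta : 3.5812 ≤ t + κ)
    (htb : t + κ ≤ 3.8328) : ‖F (cexp (I * β)) (r * cexp (I * ((t + β / 2 : ℝ) : ℂ)))‖ ≤
      1.8598 * Real.exp (r * (0.3366 + 1 / 20)) :=
  v5_UD 1.33 1.36 3.5812 3.8328 0.01 0.346 0.3366 0.9696 1.8598 hβ hr hκ (by norm_num) hk1 hk2 hta htb (by norm_num) (by norm_num) (by norm_num) (by norm_num) (by norm_num) (by norm_num) (by norm_num) (by norm_num) (by norm_num) (by norm_num) (by norm_num)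

private theorem B5Lo_Y92 {β r t κ h t' : ℝ} (hβ : 0 < β) (hκ : κ = β * r) (hN : β * 7.352 ≤ 1) (hk1 : 1.33 ≤ κ) (hk2 : κ ≤ 1.36)
    (ht : t' = t + (((0 : ℤ) : ℝ) - 1) * h) (hD : DomR κ t') (hta : (-0.1887) ≤ t' + κ) (htb : t' + κ ≤ 0.0629) :
    0.6966 * Real.exp (r * sE κ t') ≤ ‖Xf β r h t 0‖ := by
  obtain ⟨⟨ya, yb⟩, ⟨xa, xb⟩, n1, Da, Db⟩ := B5Lo_B85 hD hk1 hk2 hta htb
  have J := B5Lo_T86 (x := sx κ t') (y := sy κ t') hβ hN (by linarith only [xa, xb, ya, yb]) (by linarith only [xa, xb, ya, yb]) (by linarith only [xa, xb, ya, yb]) (by linarith only [xa, xb, ya, yb])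
  exact v5_Jlo hβ hκ (k := 0) ht hD 0.08 3.0418 0.6966 (by norm_num) J Db (by norm_num)

private theorem B5Lo_V93 {κ t : ℝ} (hD : DomR κ t) (hk1 : 1.33 ≤ κ) (hk2 : κ ≤ 1.36) (hta : (-0.1887) ≤ t + κ) (htb : t + κ ≤ 0.0629) :
    0.99782 + 0.0231 * (t + κ) ≤ sE κ t := by
  have hκ0 : 0 < κ := hD.1
  exact v5_V0 hD 1.33 1.36 (-0.1887) 0.0629 0.1888 0.5074 0.0356 0.16116 0.04711 0.49117 0.99782 0.0231 (by norm_num) hk1 hk2 (by norm_num) hta htb (by norm_num) (by norm_num) (by norm_num) ((cup2 1.33 (by norm_num) hk1).trans (by norm_num))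
      (by norm_num) (by norm_num) (by norm_num) (by norm_num) (by norm_num) (by norm_num) (by norm_num) (by norm_num) (by norm_num) (by norm_num) (by norm_num) (by norm_num) (by norm_num)

private theorem B5Lo_K94 {β r t κ h : ℝ} (hβ : 0 < β) (hr : 10 ≤ r) (hκ : κ = β * r) (hk1 : 1.33 ≤ κ) (hk2 : κ ≤ 1.36)
    (hh : h = 2 * Real.pi / 5) (hh1 : 1.25663 ≤ h) (hh2 : h ≤ 1.25664) (hta : 1.068 ≤ t + κ) (htb : t + κ ≤ 1.3195)
    (hY : 0.6966 * Real.exp (r * sE κ (t - h)) ≤ ‖Xf β r h t 0‖) (hV : 0.99782 + 0.0231 * (t - h + κ) ≤ sE κ (t - h)) :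
    ‖Xf β r h t 2‖ ≤ 0.00357 * ‖Xf β r h t 0‖ := by
  rw [v5_X 2 1 (by push_cast; ring)]
  exact v5_cmp 0.6719 0.001216 0.00355 0.9934 0.00004926 0.0000148 0.00357 hr (B5Lo_C88 (t := t + 1 * h) hβ hr hκ hk1 hk2 (by linarith only [hta, htb, hh1, hh2]) (by linarith only [hta, htb, hh1, hh2])) hY (by norm_num) (by norm_num) (by norm_num) (by norm_num) (by linarith only [hV, hta, htb, hh1, hh2]) (ex_un 6 0.7189 (by norm_num) (by norm_num) (by norm_num) (by norm_num)) (by norm_num) (by norm_num) (by linarith only [hV, hta, htb, hh1, hh2]) (ex_un 9 0.9339 (by norm_num) (by norm_num) (by norm_num) (by norm_num)) (by norm_num) (by norm_num)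

private theorem B5Lo_K95 {β r t κ h : ℝ} (hβ : 0 < β) (hr : 10 ≤ r) (hκ : κ = β * r) (hk1 : 1.33 ≤ κ) (hk2 : κ ≤ 1.36)
    (hh : h = 2 * Real.pi / 5) (hh1 : 1.25663 ≤ h) (hh2 : h ≤ 1.25664) (hta : 1.068 ≤ t + κ) (htb : t + κ ≤ 1.3195)
    (hY : 0.6966 * Real.exp (r * sE κ (t - h)) ≤ ‖Xf β r h t 0‖) (hV : 0.99782 + 0.0231 * (t - h + κ) ≤ sE κ (t - h)) :
    ‖Xf β r h t (-1)‖ ≤ 0.095 * ‖Xf β r h t 0‖ := by
  rw [v5_X (-1) (-2) (by push_cast; ring)]
  exact v5_cmp 0.2509 0.08151 0.0948 0.9433 0.00008013 0.000171 0.095 hr (B5Lo_C90 (t := t + (-2) * h) hβ hr hκ hk1 hk2 (by linarith only [hta, htb, hh1, hh2]) (by linarith only [hta, htb, hh1, hh2])) hY (by norm_num) (by norm_num) (by norm_num) (by norm_num) (by linarith only [hV, hta, htb, hh1, hh2]) (ex_un 2 0.5089 (by norm_num) (by norm_num) (by norm_num) (by norm_num)) (by norm_num) (by norm_num) (by linarith only [hV, hta, htb, hh1, hh2]) (ex_un 9 0.4329 (by norm_num) (by norm_num)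 (by norm_num) (by norm_num)) (by norm_num) (by norm_num)

private theorem B5Lo_K96 {β r t κ h : ℝ} (hβ : 0 < β) (hr : 10 ≤ r) (hκ : κ = β * r) (hk1 : 1.33 ≤ κ) (hk2 : κ ≤ 1.36)
    (hh : h = 2 * Real.pi / 5) (hh1 : 1.25663 ≤ h) (hh2 : h ≤ 1.25664) (hta : 1.068 ≤ t + κ) (htb : t + κ ≤ 1.3195)
    (hY : 0.6966 * Real.exp (r * sE κ (t - h)) ≤ ‖Xf β r h t 0‖) (hV : 0.99782 + 0.0231 * (t - h + κ) ≤ sE κ (t - h)) :
    ‖Xf β r h t (-2)‖ ≤ 0.00619 * ‖Xf β r h t 0‖ := by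
  rw [v5_Xm2 hh]
  exact v5_cmp0 0.6068 0.002317 0.00619 hr (B5Lo_C91 (t := t + 2 * h) hβ hr hκ hk1 hk2 (by linarith only [hta, htb, hh1, hh2]) (by linarith only [hta, htb, hh1, hh2])) hY (by norm_num) (by norm_num) (by norm_num) (by linarith only [hV, hta, htb, hh1, hh2]) (ex_un 6 0.0679 (by norm_num) (by norm_num) (by norm_num) (by norm_num)) (by norm_num)

private theorem B5Lo_G97 {κ : ℝ} (hk1 : 1.33 ≤ κ) (hk2 : κ ≤ 1.36) : gG κ 0.28 ≤ 1.12243 ∧ 0.46691 ≤ Real.exp (-(κ * 0.28)) ^ 2 := by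
  refine ⟨gG_le 0.28 1.33 1.36 1.12243 0.68908 0.68332 1.45122 1.46346 hk1 hk2 (by norm_num)
    (ex_um 0.3724 (by norm_num) (by norm_num) (by norm_num) (by norm_num)) (ex_um 0.3808 (by norm_num) (by norm_num) (by norm_num) (by norm_num))
    (ex_up 0.3724 (by norm_num) (by norm_num) (by norm_num) (by norm_num)) (ex_up 0.3808 (by norm_num) (by norm_num) (by norm_num) (by norm_num))
    (by norm_num) (by norm_num), ?_⟩
  exact v5_M 0.68331 (ex_lm 0.3808 (by linarith) (by norm_num) (by norm_num) (by norm_num) (by norm_num)) (by norm_num) (by norm_num)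

private theorem B5Lo_C98 {β r t κ : ℝ} (hβ : 0 < β) (hr : 10 ≤ r) (hκ : κ = β * r) (hk1 : 1.33 ≤ κ) (hk2 : κ ≤ 1.36) (hta : 1.0679 ≤ t + κ)
    (htb : t + κ ≤ 1.3196) : ‖F (cexp (I * β)) (r * cexp (I * ((t + β / 2 : ℝ) : ℂ)))‖ ≤
      1.3498 * Real.exp (r * (1.12243 - 0.28 * (t + κ))) + 0.2624 * Real.exp (r * 0) :=
  v5_H 0.28 1.33 1.36 1.0679 1.3196 1.12243 1.3452 0.46691 0.1472 1.2785 1.581 0.3018 0.04891 0.00000115 1.3498 0.2624 hβ hr hκ (by norm_num) hk1 hk2 hta htb (by norm_num) (B5Lo_G97 hk1 hk2).1 (B5Lo_G97 hk1 hk2).2 (by norm_num) (by norm_num) (by norm_num)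
    (by norm_num) (by norm_num) (by norm_num) (by norm_num) (by norm_num) (by norm_num) (by norm_num) (by norm_num) (ex_un 3 0.0179 (by norm_num) (by norm_num) (by norm_num) (by norm_num))
    (v5_hump 2.0555 7.352 2.7115 0.0000009316 0.00000115 hβ hr hκ hk1 hk2 (by norm_num) htb (by norm_num) (by norm_num) (by norm_num) (by norm_num) (by norm_num) (by norm_num) (by norm_num) (ex_un 13 0.9 (by norm_num) (by norm_num) (by norm_num) (by norm_num)) (by norm_num)) (by norm_num) (by norm_num)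

private theorem B5Lo_K99 {β r t κ h : ℝ} (hβ : 0 < β) (hr : 10 ≤ r) (hκ : κ = β * r) (hk1 : 1.33 ≤ κ) (hk2 : κ ≤ 1.36)
    (hh : h = 2 * Real.pi / 5) (hh1 : 1.25663 ≤ h) (hh2 : h ≤ 1.25664) (hta : 1.068 ≤ t + κ) (htb : t + κ ≤ 1.3195)
    (hY : 0.6966 * Real.exp (r * sE κ (t - h)) ≤ ‖Xf β r h t 0‖) (hV : 0.99782 + 0.0231 * (t - h + κ) ≤ sE κ (t - h)) :
    ‖Xf β r h t 1‖ ≤ 0.358 * ‖Xf β r h t 0‖ := by
  rw [v5_X 1 0 (by push_cast; ring)]
  exact v5_cmp 0.17 0.1838 0.357 0.9934 0.00004926 0.0000186 0.358 hr (B5Lo_C98 (t := t + 0 * h) hβ hr hκ hk1 hk2 (by linarith only [hta, htb, hh1, hh2]) (by linarith only [hta, htb, hh1, hh2])) hY (by norm_num) (by norm_num) (by norm_num) (by norm_num) (by linarith only [hV, hta, htb, hh1, hh2]) (ex_un 1 0.6999 (by norm_num) (by norm_num) (by norm_num) (by norm_num)) (by norm_num) (by norm_num) (by linarith only [hV, hta, htb, hh1, hh2]) (ex_un 9 0.9339 (by norm_num) (by norm_num) (by norm_num)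 (by norm_num)) (by norm_num) (by norm_num)

private theorem B5Lo_O100 {β r t κ h : ℝ} (hβ : 0 < β) (hr : 10 ≤ r) (hκ : κ = β * r) (hk1 : 1.33 ≤ κ) (hk2 : κ ≤ 1.36)
    (hh : h = 2 * Real.pi / 5) (hta : 1.068 ≤ t + κ) (htb : t + κ ≤ 1.3195) :
    ‖Xf β r h t (-2)‖ + ‖Xf β r h t (-1)‖ + ‖Xf β r h t 2‖ < |‖Xf β r h t 1‖ - ‖Xf β r h t 0‖| := by
  obtain ⟨hh1, hh2⟩ := v5_h hh
  have hκ0 : 0 < κ := by linarith only [hk1]
  have hN : β * 7.352 ≤ 1 := v5_hN 1.36 7.352 hβ hr hκ hk2 (by norm_num) (by norm_num)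
  have hD1 : DomR κ t := v5_dom hκ0 (by linarith only [hta, htb, hk1, hk2, hh1, hh2]) (Or.inr (by linarith only [hta, htb, hk1, hk2, hh1, hh2]))
  have hD0 : DomR κ (t - h) := v5_dom hκ0 (by linarith only [hta, htb, hk1, hk2, hh1, hh2]) (Or.inr (by linarith only [hta, htb, hk1, hk2, hh1, hh2]))
  have h0a : (-0.1887) ≤ t - h + κ := by linarith only [hta, htb, hh1, hh2]
  have h0b : t - h + κ ≤ 0.0629 := by linarith only [hta, htb, hh1, hh2]
  have e0 : t - h = t + (((0 : ℤ) : ℝ) - 1) * h := by push_cast; ring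
  have hY := B5Lo_Y92 (h := h) hβ hκ hN hk1 hk2 e0 hD0 h0a h0b
  have hV := B5Lo_V93 hD0 hk1 hk2 h0a h0b
  have cp2 := B5Lo_K94 hβ hr hκ hk1 hk2 hh hh1 hh2 hta htb hY hV
  have cm1 := B5Lo_K95 hβ hr hκ hk1 hk2 hh hh1 hh2 hta htb hY hV
  have cm2 := B5Lo_K96 hβ hr hκ hk1 hk2 hh hh1 hh2 hta htb hY hV
  have cn1 := B5Lo_K99 hβ hr hκ hk1 hk2 hh hh1 hh2 hta htb hY hV
  have hp : 0 < ‖Xf β r h t 0‖ := lt_of_lt_of_le (by positivity) hY
  exact v5_out0 _ _ _ _ cm2 cm1 cp2 cn1 hp (by norm_num)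

theorem R1_b5_L {p : ℤ} {β r : ℝ} (hp : IsCoprime (5 : ℤ) p) (hr : 10 ≤ r) (hβ : 0 < β) (hk1 : 1.33 ≤ β * r)
    (hk2 : β * r ≤ 1.36) : Circ (2 * Real.pi * p / 5 + β) r := by
  obtain ⟨h, hh⟩ : ∃ h : ℝ, h = 2 * Real.pi / 5 := ⟨_, rfl⟩
  obtain ⟨hh1, hh2⟩ := v5_h hh
  obtain ⟨κ, hκ⟩ : ∃ κ, κ = β * r := ⟨_, rfl⟩
  rw [← hκ] at hk1 hk2
  refine v5_circ (κ := κ) hp hr hh 0.45 0.58 1.06 0.0533 0.0431 0.00933 0.00082 0.0676 0.0433 0.00381 0.2312 ?_ ?_ (by norm_num) (by norm_num) (by norm_num) (by norm_num) (by norm_num) (by norm_num) (by norm_num) (by norm_num) (by norm_num) (by norm_num)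
  · intro t g1 g2
    rcases le_total (t + κ) 0.6199 with g3 | g3
    · exact B5Lw_W22 hβ hr hκ hk1 hk2 hh (by linarith) (by linarith)
    rcases le_total (t + κ) 0.6744 with g3 | g3
    · exact B5Lw_W43 hβ hr hκ hk1 hk2 hh (by linarith) (by linarith)
    exact B5Lw_W64 hβ hr hκ hk1 hk2 hh (by linarith) (by linarith)
  · intro t g1 g2 g3
    rcases g3 with g3 | g3
    · rcases le_total (t + κ) 0.251 with g4 | g4
      · exact B5Lo_O16 hβ hr hκ hk1 hk2 hh (by linarith) (by linarith)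
      rcases le_total (t + κ) 0.415 with g4 | g4
      · exact B5Lo_O32 hβ hr hκ hk1 hk2 hh (by linarith) (by linarith)
      exact B5Lo_O50 hβ hr hκ hk1 hk2 hh (by linarith) (by linarith)
    · rcases le_total (t + κ) 0.88 with g4 | g4
      · exact B5Lo_O68 hβ hr hκ hk1 hk2 hh (by linarith) (by linarith)
      rcases le_total (t + κ) 1.068 with g4 | g4
      · exact B5Lo_O84 hβ hr hκ hk1 hk2 hh (by linarith) (by linarith)
      exact B5Lo_O100 hβ hr hκ hk1 hk2 hh (by linarith) (by linarith)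

end Sok
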