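import Pool.Agent.Lib.MP_816dec_an.R1b5WM

/-!
MP_816dec_an (A3, row R1), SINGLE CASE `b = 5`, `r ≥ 10`, `1.36 ≤ κ ≤ 1.39`: outside the window, assembly (generated file).
-/

set_option autoImplicit false
set_option linter.unusedVariables false

open Complex Set Filter Topology Metric

namespace Sok

private theorem B5Mo_B1 {κ t : ℝ} (h : DomR κ t) (hk1 : 1.36 ≤ κ) (hk2 : κ ≤ 1.39) (ht1 : 0.0628 ≤ t + κ) (ht2 : t + κ ≤ 0.251) :
    (0.029 ≤ sy κ t ∧ sy κ t ≤ 0.117) ∧ (1.2041 ≤ sx κ t ∧ sx κ t ≤ 1.35) ∧ κ * Real.exp (-sy κ t) ≤ 1.3503 ∧ 2.6976 ≤ sD κ t ∧ sD κ t ≤ 2.8813 := by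
  have hy1 : 0.029 ≤ sy κ t := syR_ge h 1.36 1.39 0.0628 0.029 1.02942 1.02943 0.02147 0.02196 hk1 hk2 (by linarith) (by norm_num) (by norm_num)
    (expn_ge (by norm_num) (by norm_num)) (expn_le (by norm_num) (by norm_num) (by norm_num)) (by norm_num)
    (by norm_num) (by norm_num) (by norm_num) (by norm_num) (by norm_num) (by norm_num)
  have hy2 : sy κ t ≤ 0.117 := syR_le h 1.36 1.39 0.251 0.117 1.12411 0.094 0.09461 0.09671 hk1 hk2 (by linarith) (by norm_num) (by norm_num)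
    (expn_ge (by norm_num) (by norm_num)) (by norm_num) (by norm_num) (Or.inr ((mul_le_mul_of_nonneg_left (expn_le (E := 1.12412) (by norm_num) (by norm_num) (by norm_num)) (by norm_num)).trans (by norm_num))) (by norm_num) (by norm_num) (by norm_num)
  have hy1' : 0.029 ≤ sy κ t := by linarith
  have hy2' : sy κ t ≤ 0.117 := by linarith
  have hx1 : 1.2041 ≤ sx κ t := sx_lo h 1.36 0.117 0.1171 0.88958 1.2041 hk1 (by norm_num) hy2' (abs_le.2 ⟨by linarith, by linarith⟩) (ex_lm 0.117 (by norm_num) (by norm_num) (by norm_num) (by norm_num) (by norm_num)) (by norm_num) (by norm_num)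
  have hx2 : sx κ t ≤ 1.35 := sx_hi h 1.39 0.029 0.029 0.97142 1.35 hk2 hy1' (by norm_num) (le_trans (by linarith) (le_abs_self _)) (ex_um 0.029 (by norm_num) (by norm_num) (by norm_num) (by norm_num)) (by norm_num) (by norm_num)
  refine ⟨⟨hy1', hy2'⟩, ⟨hx1, hx2⟩, v5_n h 1.39 0.029 0.97142 1.3503 hk2 hy1' (ex_um 0.029 (by norm_num) (by norm_num) (by norm_num) (by norm_num)) (by norm_num), ?_, ?_⟩
  · exact v5_Dlo h 1.36 0.029 0.117 0.117 0.88958 2.6976 (by norm_num) hk1 hy1' hy2' (ex_lm 0.117 (by norm_num) (by norm_num) (by norm_num) (by norm_num) (by norm_num)) (by norm_num) (by norm_num) (by norm_num) (by norm_num)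
  · exact v5_Dup h 1.39 0.029 0.117 0.97142 0.88959 2.8813 hk2 hy1' hy2' (ex_um 0.029 (by norm_num) (by norm_num) (by norm_num) (by norm_num)) (ex_um 0.117 (by norm_num) (by norm_num) (by norm_num) (by norm_num)) (by norm_num) (by norm_num) (by norm_num)

private theorem B5Mo_T2_0_0 {β x y : ℝ} (hβ : 0 < β) (hN : β * 7.194 ≤ 1) (hx1 : 1.204 ≤ x) (hx2 : x ≤ 1.264)
    (hy1 : -0 ≤ y) (hy2 : y ≤ 0.1171) : ‖HH β (x + y * I) - 1‖ ≤ 0.07 := by
  refine le_epsJ (C := 0.5034) (N0 := 7.194) (J_boxp 1.204 1.264 0 0.1171 0.1171 1.5578 1.2695 1.6869 0.6681 0.5182 2.6822 7.194 0.815 3.033 1.445 0.9339 0.7788 0.5672 1.4204 3.3718 0.9278 2.1551 3.4764 3.1174 0.003692 0.01691 0.00003651 0.0000003101 0.001265 0.0000003101 0.0000003101 0.0000003101 0.5034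
    hβ hN hx1 hx2 hy1 hy2 (by norm_num) (by norm_num) (by linarith) (by norm_num) (by norm_num) (by norm_num) (by norm_num) (by norm_num) (by norm_num) (by norm_num) (by norm_num) (by norm_num) (by norm_num) (by norm_num) (by norm_num) (by norm_num) (by norm_num) (by norm_num) (by norm_num) (by norm_num) (by norm_num) (by norm_num) (by norm_num) (by norm_num)
    (cube_sqrt_geJ (s := 0.8534) (by norm_num) (by norm_num) (by norm_num) (by norm_num))
    (cube_sqrt_geJ (s := 0.9487) (by norm_num) (by norm_num) (by norm_num) (by norm_num))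
    (by norm_num) (by norm_num) (by norm_num) (by norm_num) (by norm_num) (by norm_num) (by norm_num) (by norm_num) (by norm_num) (by norm_num) (by norm_num) (by norm_num) (by norm_num) (by norm_num) (by norm_num) (by norm_num) (by norm_num) (by norm_num)
    (exp_neg_leJ (r := 0.602) 5 (by norm_num) (by norm_num) (by norm_num) (by norm_num))
    (exp_neg_leJ (r := 0.08) 4 (by norm_num) (by norm_num) (by norm_num) (by norm_num))
    (exp_neg_leJ (r := 0.218) 10 (by norm_num) (by norm_num) (by norm_num) (by norm_num))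
    (exp_neg_leJ (r := 0.99) 14 (by norm_num) (by norm_num) (by norm_num) (by norm_num))
    (exp_neg_leJ (r := 0.674) 6 (by norm_num) (by norm_num) (by norm_num) (by norm_num))
    (exp_neg_leJ (r := 0.99) 14 (by norm_num) (by norm_num) (by norm_num) (by norm_num))
    (exp_neg_leJ (r := 0.99) 14 (by norm_num) (by norm_num) (by norm_num) (by norm_num))
    (exp_neg_leJ (r := 0.99) 14 (by norm_num) (by norm_num) (by norm_num) (by norm_num))
    (by norm_num)) (by norm_num) hN hβ.le (by norm_num)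

private theorem B5Mo_T2_0_1 {β x y : ℝ} (hβ : 0 < β) (hN : β * 7.194 ≤ 1) (hx1 : 1.264 ≤ x) (hx2 : x ≤ 1.327)
    (hy1 : -0 ≤ y) (hy2 : y ≤ 0.1171) : ‖HH β (x + y * I) - 1‖ ≤ 0.07 := by
  refine le_epsJ (C := 0.5035) (N0 := 7.194) (J_boxp 1.264 1.327 0 0.1171 0.1171 1.6 1.3322 1.7347 0.6508 0.5255 2.6822 7.194 0.8327 3.121 1.458 0.9097 0.7999 0.5779 1.4409 3.3354 0.957 2.2382 3.5964 3.0669 0.003174 0.01566 0.00003152 0.0000003101 0.001027 0.0000003101 0.0000003101 0.0000003101 0.5035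
    hβ hN hx1 hx2 hy1 hy2 (by norm_num) (by norm_num) (by linarith) (by norm_num) (by norm_num) (by norm_num) (by norm_num) (by norm_num) (by norm_num) (by norm_num) (by norm_num) (by norm_num) (by norm_num) (by norm_num) (by norm_num) (by norm_num) (by norm_num) (by norm_num) (by norm_num) (by norm_num) (by norm_num) (by norm_num) (by norm_num) (by norm_num)
    (cube_sqrt_geJ (s := 0.8499) (by norm_num) (by norm_num) (by norm_num) (by norm_num))
    (cube_sqrt_geJ (s := 0.9476) (by norm_num) (by norm_num) (by norm_num) (by norm_num))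
    (by norm_num) (by norm_num) (by norm_num) (by norm_num) (by norm_num) (by norm_num) (by norm_num) (by norm_num) (by norm_num) (by norm_num) (by norm_num) (by norm_num) (by norm_num) (by norm_num) (by norm_num) (by norm_num) (by norm_num) (by norm_num)
    (exp_neg_leJ (r := 0.754) 5 (by norm_num) (by norm_num) (by norm_num) (by norm_num))
    (exp_neg_leJ (r := 0.157) 4 (by norm_num) (by norm_num) (by norm_num) (by norm_num))
    (exp_neg_leJ (r := 0.365) 10 (by norm_num) (by norm_num) (by norm_num) (by norm_num))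
    (exp_neg_leJ (r := 0.99) 14 (by norm_num) (by norm_num) (by norm_num) (by norm_num))
    (exp_neg_leJ (r := 0.884) 6 (by norm_num) (by norm_num) (by norm_num) (by norm_num))
    (exp_neg_leJ (r := 0.99) 14 (by norm_num) (by norm_num) (by norm_num) (by norm_num))
    (exp_neg_leJ (r := 0.99) 14 (by norm_num) (by norm_num) (by norm_num) (by norm_num))
    (exp_neg_leJ (r := 0.99) 14 (by norm_num) (by norm_num) (by norm_num) (by norm_num))
    (by norm_num)) (by norm_num) hN hβ.le (by norm_num)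

private theorem B5Mo_T2_0_2 {β x y : ℝ} (hβ : 0 < β) (hN : β * 7.194 ≤ 1) (hx1 : 1.327 ≤ x) (hx2 : x ≤ 1.3501)
    (hy1 : -0 ≤ y) (hy2 : y ≤ 0.1171) : ‖HH β (x + y * I) - 1‖ ≤ 0.07 := by
  refine le_epsJ (C := 0.4653) (N0 := 7.194) (J_boxp 1.327 1.3501 0 0.1171 0.1171 1.6444 1.3552 1.7524 0.6278 0.5282 2.6822 7.194 0.8242 3.079 1.452 0.9008 0.8221 0.5963 1.4625 3.3221 0.9876 2.3254 3.7224 3.1304 0.002709 0.01372 0.00002698 0.0000003101 0.0008219 0.0000003101 0.0000003101 0.0000003101 0.4653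
    hβ hN hx1 hx2 hy1 hy2 (by norm_num) (by norm_num) (by linarith) (by norm_num) (by norm_num) (by norm_num) (by norm_num) (by norm_num) (by norm_num) (by norm_num) (by norm_num) (by norm_num) (by norm_num) (by norm_num) (by norm_num) (by norm_num) (by norm_num) (by norm_num) (by norm_num) (by norm_num) (by norm_num) (by norm_num) (by norm_num) (by norm_num)
    (cube_sqrt_geJ (s := 0.8516) (by norm_num) (by norm_num) (by norm_num) (by norm_num))
    (cube_sqrt_geJ (s := 0.9482) (by norm_num) (by norm_num) (by norm_num) (by norm_num))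
    (by norm_num) (by norm_num) (by norm_num) (by norm_num) (by norm_num) (by norm_num) (by norm_num) (by norm_num) (by norm_num) (by norm_num) (by norm_num) (by norm_num) (by norm_num) (by norm_num) (by norm_num) (by norm_num) (by norm_num) (by norm_num)
    (exp_neg_leJ (r := 0.914) 5 (by norm_num) (by norm_num) (by norm_num) (by norm_num))
    (exp_neg_leJ (r := 0.289) 4 (by norm_num) (by norm_num) (by norm_num) (by norm_num))
    (exp_neg_leJ (r := 0.521) 10 (by norm_num) (by norm_num) (by norm_num) (by norm_num))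
    (exp_neg_leJ (r := 0.99) 14 (by norm_num) (by norm_num) (by norm_num) (by norm_num))
    (exp_neg_leJ (r := 0.104) 7 (by norm_num) (by norm_num) (by norm_num) (by norm_num))
    (exp_neg_leJ (r := 0.99) 14 (by norm_num) (by norm_num) (by norm_num) (by norm_num))
    (exp_neg_leJ (r := 0.99) 14 (by norm_num) (by norm_num) (by norm_num) (by norm_num))
    (exp_neg_leJ (r := 0.99) 14 (by norm_num) (by norm_num) (by norm_num) (by norm_num))
    (by norm_num)) (by norm_num) hN hβ.le (by norm_num)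

private theorem B5Mo_T2 {β x y : ℝ} (hβ : 0 < β) (hN : β * 7.194 ≤ 1) (hx1 : 1.204 ≤ x) (hx2 : x ≤ 1.3501)
    (hy1 : 0.0289 ≤ y) (hy2 : y ≤ 0.1171) : ‖HH β (x + y * I) - 1‖ ≤ 0.07 := by
  rcases le_total x 1.264 with hxx | hxx
  · exact B5Mo_T2_0_0 hβ hN (by linarith) (by linarith) (by linarith) (by linarith)
  rcases le_total x 1.327 with hxx | hxx
  · exact B5Mo_T2_0_1 hβ hN (by linarith) (by linarith) (by linarith) (by linarith)
  exact B5Mo_T2_0_2 hβ hN (by linarith) (by linarith) (by linarith) (by linarith)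

private theorem B5Mo_G3 {κ : ℝ} (hk1 : 1.36 ≤ κ) (hk2 : κ ≤ 1.39) : gG κ 0.32 ≤ 1.16772 ∧ 0.41081 ≤ Real.exp (-(κ * 0.32)) ^ 2 := by
  refine ⟨gG_le 0.32 1.36 1.39 1.16772 0.64714 0.64096 1.54528 1.56018 hk1 hk2 (by norm_num)
    (ex_um 0.4352 (by norm_num) (by norm_num) (by norm_num) (by norm_num)) (ex_um 0.4448 (by norm_num) (by norm_num) (by norm_num) (by norm_num))
    (ex_up 0.4352 (by norm_num) (by norm_num) (by norm_num) (by norm_num)) (ex_up 0.4448 (by norm_num) (by norm_num) (by norm_num) (by norm_num))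
    (by norm_num) (by norm_num), ?_⟩
  exact v5_M 0.64095 (ex_lm 0.4448 (by linarith) (by norm_num) (by norm_num) (by norm_num) (by norm_num)) (by norm_num) (by norm_num)

private theorem B5Mo_C4 {β r t κ : ℝ} (hβ : 0 < β) (hr : 10 ≤ r) (hκ : κ = β * r) (hk1 : 1.36 ≤ κ) (hk2 : κ ≤ 1.39) (hta : 1.3194 ≤ t + κ)
    (htb : t + κ ≤ 1.5077) : ‖F (cexp (I * β)) (r * cexp (I * ((t + β / 2 : ℝ) : ℂ)))‖ ≤
      1.4209 * Real.exp (r * (1.16772 - 0.32 * (t + κ))) + 0.2481 * Real.exp (r * 0) :=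
  v5_H 0.32 1.36 1.39 1.3194 1.5077 1.16772 1.4093 0.41081 0.1488 1.5 1.4229 0.22026 0.1106 0.00000259 1.4209 0.2481 hβ hr hκ (by norm_num) hk1 hk2 hta htb (by norm_num) (B5Mo_G3 hk1 hk2).1 (B5Mo_G3 hk1 hk2).2 (by norm_num) (by norm_num) (by norm_num)
    (by norm_num) (by norm_num) (by norm_num) (by norm_num) (by norm_num) (by norm_num) (by norm_num) (by norm_num) (ex_un 2 0.2025 (by norm_num) (by norm_num) (by norm_num) (by norm_num))
    (v5_hump 1.8158 7.194 2.6822 0.000002123 0.00000259 hβ hr hκ hk1 hk2 (by norm_num) htb (by norm_num) (by norm_num) (by norm_num) (by norm_num) (by norm_num) (by norm_num) (by norm_num) (ex_un 13 0.0628 (by norm_num) (by norm_num) (by norm_num) (by norm_num)) (by norm_num)) (by norm_num) (by norm_num)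

private theorem B5Mo_G5 {κ : ℝ} (hk1 : 1.36 ≤ κ) (hk2 : κ ≤ 1.39) : gG κ (-0.66) ≤ 1.67295 ∧ 6.02015 ≤ Real.exp (-(κ * (-0.66))) ^ 2 := by
  refine ⟨gG_le (-0.66) 1.36 1.39 1.67295 2.45371 2.50278 0.40757 0.39958 hk1 hk2 (by norm_num)
    (ex_up 0.8976 (by norm_num) (by norm_num) (by norm_num) (by norm_num)) (ex_up 0.9174 (by norm_num) (by norm_num) (by norm_num) (by norm_num))
    (ex_um 0.8976 (by norm_num) (by norm_num) (by norm_num) (by norm_num)) (ex_um 0.9174 (by norm_num) (by norm_num) (by norm_num) (by norm_num))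
    (by norm_num) (by norm_num), ?_⟩
  exact v5_M 2.4536 (ex_lp 0.8976 (by linarith) (by norm_num) (by norm_num)) (by norm_num) (by norm_num)

private theorem B5Mo_C6 {β r t κ : ℝ} (hβ : 0 < β) (hr : 10 ≤ r) (hκ : κ = β * r) (hk1 : 1.36 ≤ κ) (hk2 : κ ≤ 1.39) (hta : (-2.4505) ≤ t + κ)
    (htb : t + κ ≤ (-2.2622)) : ‖F (cexp (I * β)) (r * cexp (I * ((t + β / 2 : ℝ) : ℂ)))‖ ≤
      0.6832 * Real.exp (r * (1.67295 - (-0.66) * (t + κ))) + 1.784 * Real.exp (r * 0.0501) :=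
  v5_HU (-0.66) 1.36 1.39 (-2.4505) (-2.2622) 1.67295 0.6832 6.02015 0.1488 0.6562 0.8714 0 0.0501 0.00000114 1.784 hβ hr hκ (by norm_num) hk1 hk2 hta htb (by norm_num) (by norm_num) (B5Mo_G5 hk1 hk2).1 (B5Mo_G5 hk1 hk2).2 (by norm_num) (by norm_num) (by norm_num)
    (by norm_num) (by norm_num) (by norm_num) (by norm_num) (by norm_num) (by norm_num) (by norm_num)
    (by norm_num) (by norm_num) (by norm_num) (v5_hump 5.5857 7.194 2.6822 0.0000009316 0.00000114 hβ hr hκ hk1 hk2 (by norm_num) htb (by norm_num) (by norm_num) (by norm_num) (by norm_num) (by norm_num) (by norm_num) (by norm_num) (ex_un 13 0.9 (by norm_num) (by norm_num) (by norm_num) (by norm_num)) (by norm_num)) (by norm_num)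

private theorem B5Mo_C7 {β r t κ : ℝ} (hβ : 0 < β) (hr : 10 ≤ r) (hκ : κ = β * r) (hk1 : 1.36 ≤ κ) (hk2 : κ ≤ 1.39) (hta : 2.576 ≤ t + κ)
    (htb : t + κ ≤ 2.7643) : ‖F (cexp (I * β)) (r * cexp (I * ((t + β / 2 : ℝ) : ℂ)))‖ ≤
      4.0012 * Real.exp (r * (0.43 + 1 / 20)) :=
  v5_UD 1.36 1.39 2.576 2.7643 0.43 0.3421 0.43 2.086 4.0012 hβ hr hκ (by norm_num) hk1 hk2 hta htb (by norm_num) (by norm_num) (by norm_num) (by norm_num) (by norm_num) (by norm_num) (by norm_num) (by norm_num) (by norm_num) (by norm_num) (by norm_num)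

private theorem B5Mo_Y8 {β r t κ h t' : ℝ} (hβ : 0 < β) (hκ : κ = β * r) (hN : β * 7.194 ≤ 1) (hk1 : 1.36 ≤ κ) (hk2 : κ ≤ 1.39)
    (ht : t' = t + (((1 : ℤ) : ℝ) - 1) * h) (hD : DomR κ t') (hta : 0.0628 ≤ t' + κ) (htb : t' + κ ≤ 0.251) :
    0.7138 * Real.exp (r * sE κ t') ≤ ‖Xf β r h t 1‖ := by
  obtain ⟨⟨ya, yb⟩, ⟨xa, xb⟩, n1, Da, Db⟩ := B5Mo_B1 hD hk1 hk2 hta htb
  have J := B5Mo_T2 (x := sx κ t') (y := sy κ t') hβ hN (by linarith only [xa, xb, ya, yb]) (by linarith only [xa, xb, ya, yb]) (by linarith only [xa, xb, ya, yb]) (by linarith only [xa, xb, ya, yb])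
  exact v5_Jlo hβ hκ (k := 1) ht hD 0.07 2.8813 0.7138 (by norm_num) J Db (by norm_num)

private theorem B5Mo_V9 {κ t : ℝ} (hD : DomR κ t) (hk1 : 1.36 ≤ κ) (hk2 : κ ≤ 1.39) (hta : 0.0628 ≤ t + κ) (htb : t + κ ≤ 0.251) :
    1.00272 - 0.0543 * (t + κ) ≤ sE κ t := by
  have hκ0 : 0 < κ := hD.1
  exact v5_V1 hD 1.36 1.39 0.0628 0.251 0.02767 0.09151 0.24739 1.00272 0.0543 (by norm_num) hk1 hk2 (by norm_num) (by norm_num) hta htb (by norm_num) (clo5 1.36 1.39 0.24739 (by norm_num) hk1 hk2 (by norm_num) (by norm_num) (by norm_num))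
      ((cup2 1.36 (by norm_num) hk1).trans (by norm_num)) (by norm_num) (by norm_num) (by norm_num) (by norm_num) (by norm_num) (by norm_num)

private theorem B5Mo_K10 {β r t κ h : ℝ} (hβ : 0 < β) (hr : 10 ≤ r) (hκ : κ = β * r) (hk1 : 1.36 ≤ κ) (hk2 : κ ≤ 1.39)
    (hh : h = 2 * Real.pi / 5) (hh1 : 1.25663 ≤ h) (hh2 : h ≤ 1.25664) (hta : 0.0628 ≤ t + κ) (htb : t + κ ≤ 0.251)
    (hY : 0.7138 * Real.exp (r * sE κ t) ≤ ‖Xf β r h t 1‖) (hV : 1.00272 - 0.0543 * (t + κ) ≤ sE κ t) :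
    ‖Xf β r h t 2‖ ≤ 0.159 * ‖Xf β r h t 1‖ := by
  rw [v5_X 2 1 (by push_cast; ring)]
  exact v5_cmp 0.2538 0.07922 0.158 0.989 0.00005135 0.0000179 0.159 hr (B5Mo_C4 (t := t + 1 * h) hβ hr hκ hk1 hk2 (by linarith only [hta, htb, hh1, hh2]) (by linarith only [hta, htb, hh1, hh2])) hY (by norm_num) (by norm_num) (by norm_num) (by norm_num) (by linarith only [hV, hta, htb, hh1, hh2]) (ex_un 2 0.5379 (by norm_num) (by norm_num) (by norm_num) (by norm_num)) (by norm_num) (by norm_num) (by linarith only [hV, hta, htb, hh1, hh2]) (ex_un 9 0.8899 (by norm_num) (by norm_num) (by norm_num) (by norm_num)) (by norm_num) (by norm_num)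

private theorem B5Mo_K11 {β r t κ h : ℝ} (hβ : 0 < β) (hr : 10 ≤ r) (hκ : κ = β * r) (hk1 : 1.36 ≤ κ) (hk2 : κ ≤ 1.39)
    (hh : h = 2 * Real.pi / 5) (hh1 : 1.25663 ≤ h) (hh2 : h ≤ 1.25664) (hta : 0.0628 ≤ t + κ) (htb : t + κ ≤ 0.251)
    (hY : 0.7138 * Real.exp (r * sE κ t) ≤ ‖Xf β r h t 1‖) (hV : 1.00272 - 0.0543 * (t + κ) ≤ sE κ t) :
    ‖Xf β r h t (-1)‖ ≤ 0.000504 * ‖Xf β r h t 1‖ := by
  rw [v5_X (-1) (-2) (by push_cast; ring)]
  exact v5_cmp 0.8092 0.0003061 0.000293 0.9389 0.00008371 0.00021 0.000504 hr (B5Mo_C6 (t := t + (-2) * h) hβ hr hκ hk1 hk2 (by linarith only [hta, htb, hh1, hh2]) (by linarith only [hta, htb, hh1, hh2])) hY (by norm_num) (by norm_num) (by norm_num) (by norm_num) (by linarith only [hV, hta, htb, hh1, hh2]) (ex_un 8 0.0919 (by norm_num) (by norm_num) (by norm_num) (by norm_num)) (by norm_num) (by norm_num) (by linarith only [hV, hta, htb, hh1, hh2]) (ex_un 9 0.3889 (by norm_num) (by norm_num) (by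 norm_num) (by norm_num)) (by norm_num) (by norm_num)

private theorem B5Mo_K12 {β r t κ h : ℝ} (hβ : 0 < β) (hr : 10 ≤ r) (hκ : κ = β * r) (hk1 : 1.36 ≤ κ) (hk2 : κ ≤ 1.39)
    (hh : h = 2 * Real.pi / 5) (hh1 : 1.25663 ≤ h) (hh2 : h ≤ 1.25664) (hta : 0.0628 ≤ t + κ) (htb : t + κ ≤ 0.251)
    (hY : 0.7138 * Real.exp (r * sE κ t) ≤ ‖Xf β r h t 1‖) (hV : 1.00272 - 0.0543 * (t + κ) ≤ sE κ t) :
    ‖Xf β r h t (-2)‖ ≤ 0.0346 * ‖Xf β r h t 1‖ := by
  rw [v5_Xm2 hh]
  exact v5_cmp0 0.509 0.006159 0.0346 hr (B5Mo_C7 (t := t + 2 * h) hβ hr hκ hk1 hk2 (by linarith only [hta, htb, hh1, hh2]) (by linarith only [hta, htb, hh1, hh2])) hY (by norm_num) (by norm_num) (by norm_num) (by linarith only [hV, hta, htb, hh1, hh2]) (ex_un 5 0.0899 (by norm_num) (by norm_num) (by norm_num) (by norm_num)) (by norm_num)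

private theorem B5Mo_G13 {κ : ℝ} (hk1 : 1.36 ≤ κ) (hk2 : κ ≤ 1.39) : gG κ (-0.35) ≤ 1.17793 ∧ 2.59087 ≤ Real.exp (-(κ * (-0.35))) ^ 2 := by
  refine ⟨gG_le (-0.35) 1.36 1.39 1.17793 1.60963 1.62662 0.62127 0.61478 hk1 hk2 (by norm_num)
    (ex_up 0.476 (by norm_num) (by norm_num) (by norm_num) (by norm_num)) (ex_up 0.4865 (by norm_num) (by norm_num) (by norm_num) (by norm_num))
    (ex_um 0.476 (by norm_num) (by norm_num) (by norm_num) (by norm_num)) (ex_um 0.4865 (by norm_num) (by norm_num) (by norm_num) (by norm_num))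
    (by norm_num) (by norm_num), ?_⟩
  exact v5_M 1.60962 (ex_lp 0.476 (by linarith) (by norm_num) (by norm_num)) (by norm_num) (by norm_num)

private theorem B5Mo_C14 {β r t κ : ℝ} (hβ : 0 < β) (hr : 10 ≤ r) (hκ : κ = β * r) (hk1 : 1.36 ≤ κ) (hk2 : κ ≤ 1.39) (hta : (-1.1939) ≤ t + κ)
    (htb : t + κ ≤ (-1.0056)) : ‖F (cexp (I * β)) (r * cexp (I * ((t + β / 2 : ℝ) : ℂ)))‖ ≤
      0.8379 * Real.exp (r * (1.17793 - (-0.35) * (t + κ))) + 1.4004 * Real.exp (r * 0.0501) :=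
  v5_HU (-0.35) 1.36 1.39 (-1.1939) (-1.0056) 1.17793 0.8379 2.59087 0.1488 0.6562 2.128 0 0.0501 0.00000114 1.4004 hβ hr hκ (by norm_num) hk1 hk2 hta htb (by norm_num) (by norm_num) (B5Mo_G13 hk1 hk2).1 (B5Mo_G13 hk1 hk2).2 (by norm_num) (by norm_num) (by norm_num)
    (by norm_num) (by norm_num) (by norm_num) (by norm_num) (by norm_num) (by norm_num) (by norm_num)
    (by norm_num) (by norm_num) (by norm_num) (v5_hump 4.3291 7.194 2.6822 0.0000009316 0.00000114 hβ hr hκ hk1 hk2 (by norm_num) htb (by norm_num) (by norm_num) (by norm_num) (by norm_num) (by norm_num) (by norm_num) (by norm_num) (ex_un 13 0.9 (by norm_num) (by norm_num) (by norm_num) (by norm_num)) (by norm_num)) (by norm_num)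

private theorem B5Mo_K15 {β r t κ h : ℝ} (hβ : 0 < β) (hr : 10 ≤ r) (hκ : κ = β * r) (hk1 : 1.36 ≤ κ) (hk2 : κ ≤ 1.39)
    (hh : h = 2 * Real.pi / 5) (hh1 : 1.25663 ≤ h) (hh2 : h ≤ 1.25664) (hta : 0.0628 ≤ t + κ) (htb : t + κ ≤ 0.251)
    (hY : 0.7138 * Real.exp (r * sE κ t) ≤ ‖Xf β r h t 1‖) (hV : 1.00272 - 0.0543 * (t + κ) ≤ sE κ t) :
    ‖Xf β r h t 0‖ ≤ 0.232 * ‖Xf β r h t 1‖ := by
  rw [v5_X 0 (-1) (by push_cast; ring)]
  exact v5_cmp 0.1631 0.1966 0.231 0.9389 0.00008371 0.000165 0.232 hr (B5Mo_C14 (t := t + (-1) * h) hβ hr hκ hk1 hk2 (by linarith only [hta, htb, hh1, hh2]) (by linarith only [hta, htb, hh1, hh2])) hY (by norm_num) (by norm_num) (by norm_num) (by norm_num) (by linarith only [hV, hta, htb, hh1, hh2]) (ex_un 1 0.6309 (by norm_num) (by norm_num) (by norm_num) (by norm_num)) (by norm_num) (by norm_num) (by linarith only [hV, hta, htb, hh1, hh2]) (ex_un 9 0.3889 (by norm_num) (by norm_num) (by norm_num) (by norm_num))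 (by norm_num) (by norm_num)

private theorem B5Mo_O16 {β r t κ h : ℝ} (hβ : 0 < β) (hr : 10 ≤ r) (hκ : κ = β * r) (hk1 : 1.36 ≤ κ) (hk2 : κ ≤ 1.39)
    (hh : h = 2 * Real.pi / 5) (hta : 0.0628 ≤ t + κ) (htb : t + κ ≤ 0.251) :
    ‖Xf β r h t (-2)‖ + ‖Xf β r h t (-1)‖ + ‖Xf β r h t 2‖ < |‖Xf β r h t 1‖ - ‖Xf β r h t 0‖| := by
  obtain ⟨hh1, hh2⟩ := v5_h hh
  have hκ0 : 0 < κ := by linarith only [hk1]
  have hN : β * 7.194 ≤ 1 := v5_hN 1.39 7.194 hβ hr hκ hk2 (by norm_num) (by norm_num)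
  have hD1 : DomR κ t := v5_dom hκ0 (by linarith only [hta, htb, hk1, hk2, hh1, hh2]) (Or.inr (by linarith only [hta, htb, hk1, hk2, hh1, hh2]))
  have e1 : t = t + (((1 : ℤ) : ℝ) - 1) * h := by push_cast; ring
  have hY := B5Mo_Y8 (h := h) hβ hκ hN hk1 hk2 e1 hD1 hta htb
  have hV := B5Mo_V9 hD1 hk1 hk2 hta htb
  have cp2 := B5Mo_K10 hβ hr hκ hk1 hk2 hh hh1 hh2 hta htb hY hV
  have cm1 := B5Mo_K11 hβ hr hκ hk1 hk2 hh hh1 hh2 hta htb hY hV
  have cm2 := B5Mo_K12 hβ hr hκ hk1 hk2 hh hh1 hh2 hta htb hY hV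
  have cn0 := B5Mo_K15 hβ hr hκ hk1 hk2 hh hh1 hh2 hta htb hY hV
  have hp : 0 < ‖Xf β r h t 1‖ := lt_of_lt_of_le (by positivity) hY
  exact v5_out1 _ _ _ _ cm2 cm1 cp2 cn0 hp (by norm_num)

private theorem B5Mo_B17 {κ t : ℝ} (h : DomR κ t) (hk1 : 1.36 ≤ κ) (hk2 : κ ≤ 1.39) (ht1 : 0.251 ≤ t + κ) (ht2 : t + κ ≤ 0.415) :
    (0.115 ≤ sy κ t ∧ sy κ t ≤ 0.188) ∧ (1.1111 ≤ sx κ t ∧ sx κ t ≤ 1.2337) ∧ κ * Real.exp (-sy κ t) ≤ 1.2391 ∧ 2.6459 ≤ sD κ t ∧ sD κ t ≤ 2.7652 := by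
  have hy1 : 0.115 ≤ sy κ t := syR_ge h 1.36 1.39 0.251 0.115 1.12187 1.12188 0.09281 0.09487 hk1 hk2 (by linarith) (by norm_num) (by norm_num)
    (expn_ge (by norm_num) (by norm_num)) (expn_le (by norm_num) (by norm_num) (by norm_num)) (by norm_num)
    (by norm_num) (by norm_num) (by norm_num) (by norm_num) (by norm_num) (by norm_num)
  have hy2 : sy κ t ≤ 0.188 := syR_le h 1.36 1.39 0.415 0.188 1.20683 0.1623 0.16322 0.16683 hk1 hk2 (by linarith) (by norm_num) (by norm_num)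
    (expn_ge (by norm_num) (by norm_num)) (by norm_num) (by norm_num) (Or.inr ((mul_le_mul_of_nonneg_left (expn_le (E := 1.20684) (by norm_num) (by norm_num) (by norm_num)) (by norm_num)).trans (by norm_num))) (by norm_num) (by norm_num) (by norm_num)
  have hy1' : 0.115 ≤ sy κ t := by linarith
  have hy2' : sy κ t ≤ 0.188 := by linarith
  have hx1 : 1.1111 ≤ sx κ t := sx_lo h 1.36 0.188 0.1881 0.82861 1.1111 hk1 (by norm_num) hy2' (abs_le.2 ⟨by linarith, by linarith⟩) (ex_lm 0.188 (by norm_num) (by norm_num) (by norm_num) (by norm_num) (by norm_num)) (by norm_num) (by norm_num)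
  have hx2 : sx κ t ≤ 1.2337 := sx_hi h 1.39 0.115 0.115 0.89137 1.2337 hk2 hy1' (by norm_num) (le_trans (by linarith) (le_abs_self _)) (ex_um 0.115 (by norm_num) (by norm_num) (by norm_num) (by norm_num)) (by norm_num) (by norm_num)
  refine ⟨⟨hy1', hy2'⟩, ⟨hx1, hx2⟩, v5_n h 1.39 0.115 0.89137 1.2391 hk2 hy1' (ex_um 0.115 (by norm_num) (by norm_num) (by norm_num) (by norm_num)) (by norm_num), ?_, ?_⟩
  · exact v5_Dlo h 1.36 0.115 0.188 0.188 0.82861 2.6459 (by norm_num) hk1 hy1' hy2' (ex_lm 0.188 (by norm_num) (by norm_num) (by norm_num) (by norm_num) (by norm_num)) (by norm_num) (by norm_num) (by norm_num) (by norm_num)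
  · exact v5_Dup h 1.39 0.115 0.188 0.89137 0.82862 2.7652 hk2 hy1' hy2' (ex_um 0.115 (by norm_num) (by norm_num) (by norm_num) (by norm_num)) (ex_um 0.188 (by norm_num) (by norm_num) (by norm_num) (by norm_num)) (by norm_num) (by norm_num) (by norm_num)

private theorem B5Mo_T18_0_0 {β x y : ℝ} (hβ : 0 < β) (hN : β * 7.194 ≤ 1) (hx1 : 1.111 ≤ x) (hx2 : x ≤ 1.184)
    (hy1 : -0 ≤ y) (hy2 : y ≤ 0.1881) : ‖HH β (x + y * I) - 1‖ ≤ 0.075 := by
  refine le_epsJ (C := 0.5387) (N0 := 7.194) (J_boxp 1.111 1.184 0 0.1881 0.1881 1.4923 1.1989 1.6774 0.7105 0.5167 2.6822 7.194 0.8034 2.978 1.437 0.9647 0.7461 0.5463 1.3885 3.4155 0.8754 2.0191 2.9859 2.7887 0.004669 0.0197 0.00004611 0.0000003101 0.001842 0.0000004921 0.0000003101 0.0000003101 0.5387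
    hβ hN hx1 hx2 hy1 hy2 (by norm_num) (by norm_num) (by linarith) (by norm_num) (by norm_num) (by norm_num) (by norm_num) (by norm_num) (by norm_num) (by norm_num) (by norm_num) (by norm_num) (by norm_num) (by norm_num) (by norm_num) (by norm_num) (by norm_num) (by norm_num) (by norm_num) (by norm_num) (by norm_num) (by norm_num) (by norm_num) (by norm_num)
    (cube_sqrt_geJ (s := 0.8556) (by norm_num) (by norm_num) (by norm_num) (by norm_num))
    (cube_sqrt_geJ (s := 0.9495) (by norm_num) (by norm_num) (by norm_num) (by norm_num))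
    (by norm_num) (by norm_num) (by norm_num) (by norm_num) (by norm_num) (by norm_num) (by norm_num) (by norm_num) (by norm_num) (by norm_num) (by norm_num) (by norm_num) (by norm_num) (by norm_num) (by norm_num) (by norm_num) (by norm_num) (by norm_num)
    (exp_neg_leJ (r := 0.367) 5 (by norm_num) (by norm_num) (by norm_num) (by norm_num))
    (exp_neg_leJ (r := 0.93) 3 (by norm_num) (by norm_num) (by norm_num) (by norm_num))
    (exp_neg_leJ (r := 0.988) 9 (by norm_num) (by norm_num) (by norm_num) (by norm_num))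
    (exp_neg_leJ (r := 0.99) 14 (by norm_num) (by norm_num) (by norm_num) (by norm_num))
    (exp_neg_leJ (r := 0.297) 6 (by norm_num) (by norm_num) (by norm_num) (by norm_num))
    (exp_neg_leJ (r := 0.525) 14 (by norm_num) (by norm_num) (by norm_num) (by norm_num))
    (exp_neg_leJ (r := 0.99) 14 (by norm_num) (by norm_num) (by norm_num) (by norm_num))
    (exp_neg_leJ (r := 0.99) 14 (by norm_num) (by norm_num) (by norm_num) (by norm_num))
    (by norm_num)) (by norm_num) hN hβ.le (by norm_num)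

private theorem B5Mo_T18_0_1 {β x y : ℝ} (hβ : 0 < β) (hN : β * 7.194 ≤ 1) (hx1 : 1.184 ≤ x) (hx2 : x ≤ 1.2338)
    (hy1 : -0 ≤ y) (hy2 : y ≤ 0.1881) : ‖HH β (x + y * I) - 1‖ ≤ 0.075 := by
  refine le_epsJ (C := 0.5098) (N0 := 7.194) (J_boxp 1.184 1.2338 0 0.1881 0.1881 1.5437 1.2481 1.7129 0.6824 0.5222 2.6822 7.194 0.8086 3.003 1.441 0.9455 0.7718 0.5638 1.4135 3.3869 0.9109 2.1201 3.1319 2.801 0.003881 0.01734 0.00003838 0.0000003101 0.001427 0.0000003101 0.0000003101 0.0000003101 0.5098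
    hβ hN hx1 hx2 hy1 hy2 (by norm_num) (by norm_num) (by linarith) (by norm_num) (by norm_num) (by norm_num) (by norm_num) (by norm_num) (by norm_num) (by norm_num) (by norm_num) (by norm_num) (by norm_num) (by norm_num) (by norm_num) (by norm_num) (by norm_num) (by norm_num) (by norm_num) (by norm_num) (by norm_num) (by norm_num) (by norm_num) (by norm_num)
    (cube_sqrt_geJ (s := 0.8546) (by norm_num) (by norm_num) (by norm_num) (by norm_num))
    (cube_sqrt_geJ (s := 0.9492) (by norm_num) (by norm_num) (by norm_num) (by norm_num))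
    (by norm_num) (by norm_num) (by norm_num) (by norm_num) (by norm_num) (by norm_num) (by norm_num) (by norm_num) (by norm_num) (by norm_num) (by norm_num) (by norm_num) (by norm_num) (by norm_num) (by norm_num) (by norm_num) (by norm_num) (by norm_num)
    (exp_neg_leJ (r := 0.552) 5 (by norm_num) (by norm_num) (by norm_num) (by norm_num))
    (exp_neg_leJ (r := 0.055) 4 (by norm_num) (by norm_num) (by norm_num) (by norm_num))
    (exp_neg_leJ (r := 0.168) 10 (by norm_num) (by norm_num) (by norm_num) (by norm_num))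
    (exp_neg_leJ (r := 0.99) 14 (by norm_num) (by norm_num) (by norm_num) (by norm_num))
    (exp_neg_leJ (r := 0.553) 6 (by norm_num) (by norm_num) (by norm_num) (by norm_num))
    (exp_neg_leJ (r := 0.99) 14 (by norm_num) (by norm_num) (by norm_num) (by norm_num))
    (exp_neg_leJ (r := 0.99) 14 (by norm_num) (by norm_num) (by norm_num) (by norm_num))
    (exp_neg_leJ (r := 0.99) 14 (by norm_num) (by norm_num) (by norm_num) (by norm_num))
    (by norm_num)) (by norm_num) hN hβ.le (by norm_num)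

private theorem B5Mo_T18 {β x y : ℝ} (hβ : 0 < β) (hN : β * 7.194 ≤ 1) (hx1 : 1.111 ≤ x) (hx2 : x ≤ 1.2338)
    (hy1 : 0.1149 ≤ y) (hy2 : y ≤ 0.1881) : ‖HH β (x + y * I) - 1‖ ≤ 0.075 := by
  rcases le_total x 1.184 with hxx | hxx
  · exact B5Mo_T18_0_0 hβ hN (by linarith) (by linarith) (by linarith) (by linarith)
  exact B5Mo_T18_0_1 hβ hN (by linarith) (by linarith) (by linarith) (by linarith)

private theorem B5Mo_G19 {κ : ℝ} (hk1 : 1.36 ≤ κ) (hk2 : κ ≤ 1.39) : gG κ 0.35 ≤ 1.20448 ∧ 0.37794 ≤ Real.exp (-(κ * 0.35)) ^ 2 := by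
  refine ⟨gG_le 0.35 1.36 1.39 1.20448 0.62127 0.61478 1.60963 1.62662 hk1 hk2 (by norm_num)
    (ex_um 0.476 (by norm_num) (by norm_num) (by norm_num) (by norm_num)) (ex_um 0.4865 (by norm_num) (by norm_num) (by norm_num) (by norm_num))
    (ex_up 0.476 (by norm_num) (by norm_num) (by norm_num) (by norm_num)) (ex_up 0.4865 (by norm_num) (by norm_num) (by norm_num) (by norm_num))
    (by norm_num) (by norm_num), ?_⟩
  exact v5_M 0.61477 (ex_lm 0.4865 (by linarith) (by norm_num) (by norm_num) (by norm_num) (by norm_num)) (by norm_num) (by norm_num)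

private theorem B5Mo_C20 {β r t κ : ℝ} (hβ : 0 < β) (hr : 10 ≤ r) (hκ : κ = β * r) (hk1 : 1.36 ≤ κ) (hk2 : κ ≤ 1.39) (hta : 1.5076 ≤ t + κ)
    (htb : t + κ ≤ 1.6717) : ‖F (cexp (I * β)) (r * cexp (I * ((t + β / 2 : ℝ) : ℂ)))‖ ≤
      1.4995 * Real.exp (r * (1.20448 - 0.35 * (t + κ))) + 0.237 * Real.exp (r * 0) :=
  v5_H 0.35 1.36 1.39 1.5076 1.6717 1.20448 1.4773 0.37794 0.1488 1.6882 1.2589 0.16819 0.1871 0.00000853 1.4995 0.237 hβ hr hκ (by norm_num) hk1 hk2 hta htb (by norm_num) (B5Mo_G19 hk1 hk2).1 (B5Mo_G19 hk1 hk2).2 (by norm_num) (by norm_num) (by norm_num)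
    (by norm_num) (by norm_num) (by norm_num) (by norm_num) (by norm_num) (by norm_num) (by norm_num) (by norm_num) (ex_un 1 0.6818 (by norm_num) (by norm_num) (by norm_num) (by norm_num))
    (v5_hump 1.6518 7.194 2.6822 0.000006996 0.00000853 hβ hr hκ hk1 hk2 (by norm_num) htb (by norm_num) (by norm_num) (by norm_num) (by norm_num) (by norm_num) (by norm_num) (by norm_num) (ex_un 11 0.883 (by norm_num) (by norm_num) (by norm_num) (by norm_num)) (by norm_num)) (by norm_num) (by norm_num)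

private theorem B5Mo_G21 {κ : ℝ} (hk1 : 1.36 ≤ κ) (hk2 : κ ≤ 1.39) : gG κ (-0.63) ≤ 1.60804 ∧ 5.54852 ≤ Real.exp (-(κ * (-0.63))) ^ 2 := by
  refine ⟨gG_le (-0.63) 1.36 1.39 1.60804 2.35562 2.40056 0.42454 0.41659 hk1 hk2 (by norm_num)
    (ex_up 0.8568 (by norm_num) (by norm_num) (by norm_num) (by norm_num)) (ex_up 0.8757 (by norm_num) (by norm_num) (by norm_num) (by norm_num))
    (ex_um 0.8568 (by norm_num) (by norm_num) (by norm_num) (by norm_num)) (ex_um 0.8757 (by norm_num) (by norm_num) (by norm_num) (by norm_num))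
    (by norm_num) (by norm_num), ?_⟩
  exact v5_M 2.35553 (ex_lp 0.8568 (by linarith) (by norm_num) (by norm_num)) (by norm_num) (by norm_num)

private theorem B5Mo_C22 {β r t κ : ℝ} (hβ : 0 < β) (hr : 10 ≤ r) (hκ : κ = β * r) (hk1 : 1.36 ≤ κ) (hk2 : κ ≤ 1.39) (hta : (-2.2623) ≤ t + κ)
    (htb : t + κ ≤ (-2.0982)) : ‖F (cexp (I * β)) (r * cexp (I * ((t + β / 2 : ℝ) : ℂ)))‖ ≤
      0.6971 * Real.exp (r * (1.60804 - (-0.63) * (t + κ))) + 1.7263 * Real.exp (r * 0.0501) :=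
  v5_HU (-0.63) 1.36 1.39 (-2.2623) (-2.0982) 1.60804 0.6971 5.54852 0.1488 0.6562 1.0596 0 0.0501 0.00000114 1.7263 hβ hr hκ (by norm_num) hk1 hk2 hta htb (by norm_num) (by norm_num) (B5Mo_G21 hk1 hk2).1 (B5Mo_G21 hk1 hk2).2 (by norm_num) (by norm_num) (by norm_num)
    (by norm_num) (by norm_num) (by norm_num) (by norm_num) (by norm_num) (by norm_num) (by norm_num)
    (by norm_num) (by norm_num) (by norm_num) (v5_hump 5.4217 7.194 2.6822 0.0000009316 0.00000114 hβ hr hκ hk1 hk2 (by norm_num) htb (by norm_num) (by norm_num) (by norm_num) (by norm_num) (by norm_num) (by norm_num) (by norm_num) (ex_un 13 0.9 (by norm_num) (by norm_num) (by norm_num) (by norm_num)) (by norm_num)) (by norm_num)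

private theorem B5Mo_C23 {β r t κ : ℝ} (hβ : 0 < β) (hr : 10 ≤ r) (hκ : κ = β * r) (hk1 : 1.36 ≤ κ) (hk2 : κ ≤ 1.39) (hta : 2.7642 ≤ t + κ)
    (htb : t + κ ≤ 2.9283) : ‖F (cexp (I * β)) (r * cexp (I * ((t + β / 2 : ℝ) : ℂ)))‖ ≤
      3.5731 * Real.exp (r * (0.25 + 1 / 20)) :=
  v5_UD 1.36 1.39 2.7642 2.9283 0.25 0.3421 0.25 1.8628 3.5731 hβ hr hκ (by norm_num) hk1 hk2 hta htb (by norm_num) (by norm_num) (by norm_num) (by norm_num) (by norm_num) (by norm_num) (by norm_num) (by norm_num) (by norm_num) (by norm_num) (by norm_num)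

private theorem B5Mo_Y24 {β r t κ h t' : ℝ} (hβ : 0 < β) (hκ : κ = β * r) (hN : β * 7.194 ≤ 1) (hk1 : 1.36 ≤ κ) (hk2 : κ ≤ 1.39)
    (ht : t' = t + (((1 : ℤ) : ℝ) - 1) * h) (hD : DomR κ t') (hta : 0.251 ≤ t' + κ) (htb : t' + κ ≤ 0.415) :
    0.7173 * Real.exp (r * sE κ t') ≤ ‖Xf β r h t 1‖ := by
  obtain ⟨⟨ya, yb⟩, ⟨xa, xb⟩, n1, Da, Db⟩ := B5Mo_B17 hD hk1 hk2 hta htb
  have J := B5Mo_T18 (x := sx κ t') (y := sy κ t') hβ hN (by linarith only [xa, xb, ya, yb]) (by linarith only [xa, xb, ya, yb]) (by linarith only [xa, xb, ya, yb]) (by linarith only [xa, xb, ya, yb])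
  exact v5_Jlo hβ hκ (k := 1) ht hD 0.075 2.7652 0.7173 (by norm_num) J Db (by norm_num)

private theorem B5Mo_V25 {κ t : ℝ} (hD : DomR κ t) (hk1 : 1.36 ≤ κ) (hk2 : κ ≤ 1.39) (hta : 0.251 ≤ t + κ) (htb : t + κ ≤ 0.415) :
    1.0176 - 0.1136 * (t + κ) ≤ sE κ t := by
  have hκ0 : 0 < κ := hD.1
  exact v5_V1 hD 1.36 1.39 0.251 0.415 0.02695 0.09151 0.24739 1.0176 0.1136 (by norm_num) hk1 hk2 (by norm_num) (by norm_num) hta htb (by norm_num) (clo5 1.36 1.39 0.24739 (by norm_num) hk1 hk2 (by norm_num) (by norm_num) (by norm_num))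
      ((cup2 1.36 (by norm_num) hk1).trans (by norm_num)) (by norm_num) (by norm_num) (by norm_num) (by norm_num) (by norm_num) (by norm_num)

private theorem B5Mo_K26 {β r t κ h : ℝ} (hβ : 0 < β) (hr : 10 ≤ r) (hκ : κ = β * r) (hk1 : 1.36 ≤ κ) (hk2 : κ ≤ 1.39)
    (hh : h = 2 * Real.pi / 5) (hh1 : 1.25663 ≤ h) (hh2 : h ≤ 1.25664) (hta : 0.251 ≤ t + κ) (htb : t + κ ≤ 0.415)
    (hY : 0.7173 * Real.exp (r * sE κ t) ≤ ‖Xf β r h t 1‖) (hV : 1.0176 - 0.1136 * (t + κ) ≤ sE κ t) :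
    ‖Xf β r h t 2‖ ≤ 0.0923 * ‖Xf β r h t 1‖ := by
  rw [v5_X 2 1 (by push_cast; ring)]
  exact v5_cmp 0.3122 0.04408 0.0922 0.9704 0.00006141 0.0000203 0.0923 hr (B5Mo_C20 (t := t + 1 * h) hβ hr hκ hk1 hk2 (by linarith only [hta, htb, hh1, hh2]) (by linarith only [hta, htb, hh1, hh2])) hY (by norm_num) (by norm_num) (by norm_num) (by norm_num) (by linarith only [hV, hta, htb, hh1, hh2]) (ex_un 3 0.1219 (by norm_num) (by norm_num) (by norm_num) (by norm_num)) (by norm_num) (by norm_num) (by linarith only [hV, hta, htb, hh1, hh2]) (ex_un 9 0.7039 (by norm_num) (by norm_num) (by norm_num) (by norm_num)) (by norm_num) (by norm_num)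

private theorem B5Mo_K27 {β r t κ h : ℝ} (hβ : 0 < β) (hr : 10 ≤ r) (hκ : κ = β * r) (hk1 : 1.36 ≤ κ) (hk2 : κ ≤ 1.39)
    (hh : h = 2 * Real.pi / 5) (hh1 : 1.25663 ≤ h) (hh2 : h ≤ 1.25664) (hta : 0.251 ≤ t + κ) (htb : t + κ ≤ 0.415)
    (hY : 0.7173 * Real.exp (r * sE κ t) ≤ ‖Xf β r h t 1‖) (hV : 1.0176 - 0.1136 * (t + κ) ≤ sE κ t) :
    ‖Xf β r h t (-1)‖ ≤ 0.0013 * ‖Xf β r h t 1‖ := by
  rw [v5_X (-1) (-2) (by push_cast; ring)]
  exact v5_cmp 0.6843 0.001079 0.00105 0.9203 0.0001008 0.000243 0.0013 hr (B5Mo_C22 (t := t + (-2) * h) hβ hr hκ hk1 hk2 (by linarith only [hta, htb, hh1, hh2]) (by linarith only [hta, htb, hh1, hh2])) hY (by norm_num) (by norm_num) (by norm_num) (by norm_num) (by linarith only [hV, hta, htb, hh1, hh2]) (ex_un 6 0.8429 (by norm_num) (by norm_num) (by norm_num) (by norm_num)) (by norm_num) (by norm_num) (by linarith only [hV, hta, htb, hh1, hh2]) (ex_un 9 0.2029 (by norm_num) (by norm_num) (by norm_num)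 (by norm_num)) (by norm_num) (by norm_num)

private theorem B5Mo_K28 {β r t κ h : ℝ} (hβ : 0 < β) (hr : 10 ≤ r) (hκ : κ = β * r) (hk1 : 1.36 ≤ κ) (hk2 : κ ≤ 1.39)
    (hh : h = 2 * Real.pi / 5) (hh1 : 1.25663 ≤ h) (hh2 : h ≤ 1.25664) (hta : 0.251 ≤ t + κ) (htb : t + κ ≤ 0.415)
    (hY : 0.7173 * Real.exp (r * sE κ t) ≤ ‖Xf β r h t 1‖) (hV : 1.0176 - 0.1136 * (t + κ) ≤ sE κ t) :
    ‖Xf β r h t (-2)‖ ≤ 0.00615 * ‖Xf β r h t 1‖ := by
  rw [v5_Xm2 hh]
  exact v5_cmp0 0.6704 0.001234 0.00615 hr (B5Mo_C23 (t := t + 2 * h) hβ hr hκ hk1 hk2 (by linarith only [hta, htb, hh1, hh2]) (by linarith only [hta, htb, hh1, hh2])) hY (by norm_num) (by norm_num) (by norm_num) (by linarith only [hV, hta, htb, hh1, hh2]) (ex_un 6 0.7039 (by norm_num) (by norm_num) (by norm_num) (by norm_num)) (by norm_num)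

private theorem B5Mo_G29 {κ : ℝ} (hk1 : 1.36 ≤ κ) (hk2 : κ ≤ 1.39) : gG κ (-0.31) ≤ 1.13909 ∧ 2.32376 ≤ Real.exp (-(κ * (-0.31))) ^ 2 := by
  refine ⟨gG_le (-0.31) 1.36 1.39 1.13909 1.5244 1.53865 0.656 0.64993 hk1 hk2 (by norm_num)
    (ex_up 0.4216 (by norm_num) (by norm_num) (by norm_num) (by norm_num)) (ex_up 0.4309 (by norm_num) (by norm_num) (by norm_num) (by norm_num))
    (ex_um 0.4216 (by norm_num) (by norm_num) (by norm_num) (by norm_num)) (ex_um 0.4309 (by norm_num) (by norm_num) (by norm_num) (by norm_num))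
    (by norm_num) (by norm_num), ?_⟩
  exact v5_M 1.52439 (ex_lp 0.4216 (by linarith) (by norm_num) (by norm_num)) (by norm_num) (by norm_num)

private theorem B5Mo_C30 {β r t κ : ℝ} (hβ : 0 < β) (hr : 10 ≤ r) (hκ : κ = β * r) (hk1 : 1.36 ≤ κ) (hk2 : κ ≤ 1.39) (hta : (-1.0057) ≤ t + κ)
    (htb : t + κ ≤ (-0.8416)) : ‖F (cexp (I * β)) (r * cexp (I * ((t + β / 2 : ℝ) : ℂ)))‖ ≤
      0.8597 * Real.exp (r * (1.13909 - (-0.31) * (t + κ))) + 1.3582 * Real.exp (r * 0.0501) :=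
  v5_HU (-0.31) 1.36 1.39 (-1.0057) (-0.8416) 1.13909 0.8597 2.32376 0.1488 0.6562 2.3162 0 0.0501 0.00000114 1.3582 hβ hr hκ (by norm_num) hk1 hk2 hta htb (by norm_num) (by norm_num) (B5Mo_G29 hk1 hk2).1 (B5Mo_G29 hk1 hk2).2 (by norm_num) (by norm_num) (by norm_num)
    (by norm_num) (by norm_num) (by norm_num) (by norm_num) (by norm_num) (by norm_num) (by norm_num)
    (by norm_num) (by norm_num) (by norm_num) (v5_hump 4.1651 7.194 2.6822 0.0000009316 0.00000114 hβ hr hκ hk1 hk2 (by norm_num) htb (by norm_num) (by norm_num) (by norm_num) (by norm_num) (by norm_num) (by norm_num) (by norm_num) (ex_un 13 0.9 (by norm_num) (by norm_num) (by norm_num) (by norm_num)) (by norm_num)) (by norm_num)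

private theorem B5Mo_K31 {β r t κ h : ℝ} (hβ : 0 < β) (hr : 10 ≤ r) (hκ : κ = β * r) (hk1 : 1.36 ≤ κ) (hk2 : κ ≤ 1.39)
    (hh : h = 2 * Real.pi / 5) (hh1 : 1.25663 ≤ h) (hh2 : h ≤ 1.25664) (hta : 0.251 ≤ t + κ) (htb : t + κ ≤ 0.415)
    (hY : 0.7173 * Real.exp (r * sE κ t) ≤ ‖Xf β r h t 1‖) (hV : 1.0176 - 0.1136 * (t + κ) ≤ sE κ t) :
    ‖Xf β r h t 0‖ ≤ 0.485 * ‖Xf β r h t 1‖ := by
  rw [v5_X 0 (-1) (by push_cast; ring)]
  exact v5_cmp 0.0922 0.4037 0.484 0.9203 0.0001008 0.000191 0.485 hr (B5Mo_C30 (t := t + (-1) * h) hβ hr hκ hk1 hk2 (by linarith only [hta, htb, hh1, hh2]) (by linarith only [hta, htb, hh1, hh2])) hY (by norm_num) (by norm_num) (by norm_num) (by norm_num) (by linarith only [hV, hta, htb, hh1, hh2]) (ex_un 0 0.9219 (by norm_num) (by norm_num) (by norm_num) (by norm_num)) (by norm_num) (by norm_num) (by linarith only [hV, hta, htb, hh1, hh2]) (ex_un 9 0.2029 (by norm_num) (by norm_num) (by norm_num) (by norm_num))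 (by norm_num) (by norm_num)

private theorem B5Mo_O32 {β r t κ h : ℝ} (hβ : 0 < β) (hr : 10 ≤ r) (hκ : κ = β * r) (hk1 : 1.36 ≤ κ) (hk2 : κ ≤ 1.39)
    (hh : h = 2 * Real.pi / 5) (hta : 0.251 ≤ t + κ) (htb : t + κ ≤ 0.415) :
    ‖Xf β r h t (-2)‖ + ‖Xf β r h t (-1)‖ + ‖Xf β r h t 2‖ < |‖Xf β r h t 1‖ - ‖Xf β r h t 0‖| := by
  obtain ⟨hh1, hh2⟩ := v5_h hh
  have hκ0 : 0 < κ := by linarith only [hk1]
  have hN : β * 7.194 ≤ 1 := v5_hN 1.39 7.194 hβ hr hκ hk2 (by norm_num) (by norm_num)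
  have hD1 : DomR κ t := v5_dom hκ0 (by linarith only [hta, htb, hk1, hk2, hh1, hh2]) (Or.inr (by linarith only [hta, htb, hk1, hk2, hh1, hh2]))
  have e1 : t = t + (((1 : ℤ) : ℝ) - 1) * h := by push_cast; ring
  have hY := B5Mo_Y24 (h := h) hβ hκ hN hk1 hk2 e1 hD1 hta htb
  have hV := B5Mo_V25 hD1 hk1 hk2 hta htb
  have cp2 := B5Mo_K26 hβ hr hκ hk1 hk2 hh hh1 hh2 hta htb hY hV
  have cm1 := B5Mo_K27 hβ hr hκ hk1 hk2 hh hh1 hh2 hta htb hY hV
  have cm2 := B5Mo_K28 hβ hr hκ hk1 hk2 hh hh1 hh2 hta htb hY hV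
  have cn0 := B5Mo_K31 hβ hr hκ hk1 hk2 hh hh1 hh2 hta htb hY hV
  have hp : 0 < ‖Xf β r h t 1‖ := lt_of_lt_of_le (by positivity) hY
  exact v5_out1 _ _ _ _ cm2 cm1 cp2 cn0 hp (by norm_num)

private theorem B5Mo_B33 {κ t : ℝ} (h : DomR κ t) (hk1 : 1.36 ≤ κ) (hk2 : κ ≤ 1.39) (ht1 : 0.415 ≤ t + κ) (ht2 : t + κ ≤ 0.5655) :
    (0.186 ≤ sy κ t ∧ sy κ t ≤ 0.249) ∧ (1.0305 ≤ sx κ t ∧ sx κ t ≤ 1.1391) ∧ κ * Real.exp (-sy κ t) ≤ 1.1541 ∧ 2.622 ≤ sD κ t ∧ sD κ t ≤ 2.704 := by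
  have hy1 : 0.186 ≤ sy κ t := syR_ge h 1.36 1.39 0.415 0.186 1.20442 1.20443 0.16116 0.16473 hk1 hk2 (by linarith) (by norm_num) (by norm_num)
    (expn_ge (by norm_num) (by norm_num)) (expn_le (by norm_num) (by norm_num) (by norm_num)) (by norm_num)
    (by norm_num) (by norm_num) (by norm_num) (by norm_num) (by norm_num) (by norm_num)
  have hy2 : sy κ t ≤ 0.249 := syR_le h 1.36 1.39 0.5655 0.249 1.28274 0.2285 0.22978 0.23486 hk1 hk2 (by linarith) (by norm_num) (by norm_num)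
    (expn_ge (by norm_num) (by norm_num)) (by norm_num) (by norm_num) (Or.inr ((mul_le_mul_of_nonneg_left (expn_le (E := 1.28275) (by norm_num) (by norm_num) (by norm_num)) (by norm_num)).trans (by norm_num))) (by norm_num) (by norm_num) (by norm_num)
  have hy1' : 0.186 ≤ sy κ t := by linarith
  have hy2' : sy κ t ≤ 0.249 := by linarith
  have hx1 : 1.0305 ≤ sx κ t := sx_lo h 1.36 0.249 0.2491 0.77957 1.0305 hk1 (by norm_num) hy2' (abs_le.2 ⟨by linarith, by linarith⟩) (ex_lm 0.249 (by norm_num) (by norm_num) (by norm_num) (by norm_num) (by norm_num)) (by norm_num) (by norm_num)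
  have hx2 : sx κ t ≤ 1.1391 := sx_hi h 1.39 0.186 0.186 0.83028 1.1391 hk2 hy1' (by norm_num) (le_trans (by linarith) (le_abs_self _)) (ex_um 0.186 (by norm_num) (by norm_num) (by norm_num) (by norm_num)) (by norm_num) (by norm_num)
  refine ⟨⟨hy1', hy2'⟩, ⟨hx1, hx2⟩, v5_n h 1.39 0.186 0.83028 1.1541 hk2 hy1' (ex_um 0.186 (by norm_num) (by norm_num) (by norm_num) (by norm_num)) (by norm_num), ?_, ?_⟩
  · exact v5_Dlo h 1.36 0.186 0.249 0.249 0.77957 2.622 (by norm_num) hk1 hy1' hy2' (ex_lm 0.249 (by norm_num) (by norm_num) (by norm_num) (by norm_num) (by norm_num)) (by norm_num) (by norm_num) (by norm_num) (by norm_num)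
  · exact v5_Dup h 1.39 0.186 0.249 0.83028 0.77958 2.704 hk2 hy1' hy2' (ex_um 0.186 (by norm_num) (by norm_num) (by norm_num) (by norm_num)) (ex_um 0.249 (by norm_num) (by norm_num) (by norm_num) (by norm_num)) (by norm_num) (by norm_num) (by norm_num)

private theorem B5Mo_T34_0_0 {β x y : ℝ} (hβ : 0 < β) (hN : β * 7.194 ≤ 1) (hx1 : 1.0304 ≤ x) (hx2 : x ≤ 1.111)
    (hy1 : -0 ≤ y) (hy2 : y ≤ 0.2491) : ‖HH β (x + y * I) - 1‖ ≤ 0.08 := by
  refine le_epsJ (C := 0.5748) (N0 := 7.194) (J_boxp 1.0304 1.111 0 0.2491 0.2491 1.4356 1.1386 1.6717 0.7517 0.5159 2.6822 7.194 0.7932 2.93 1.43 0.9928 0.7177 0.528 1.3609 3.4543 0.8301 1.9012 2.5631 2.504 0.005725 0.02245 0.00005609 0.0000003101 0.00256 0.00000115 0.0000003101 0.0000003101 0.5748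
    hβ hN hx1 hx2 hy1 hy2 (by norm_num) (by norm_num) (by linarith) (by norm_num) (by norm_num) (by norm_num) (by norm_num) (by norm_num) (by norm_num) (by norm_num) (by norm_num) (by norm_num) (by norm_num) (by norm_num) (by norm_num) (by norm_num) (by norm_num) (by norm_num) (by norm_num) (by norm_num) (by norm_num) (by norm_num) (by norm_num) (by norm_num)
    (cube_sqrt_geJ (s := 0.8576) (by norm_num) (by norm_num) (by norm_num) (by norm_num))
    (cube_sqrt_geJ (s := 0.9502) (by norm_num) (by norm_num) (by norm_num) (by norm_num))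
    (by norm_num) (by norm_num) (by norm_num) (by norm_num) (by norm_num) (by norm_num) (by norm_num) (by norm_num) (by norm_num) (by norm_num) (by norm_num) (by norm_num) (by norm_num) (by norm_num) (by norm_num) (by norm_num) (by norm_num) (by norm_num)
    (exp_neg_leJ (r := 0.163) 5 (by norm_num) (by norm_num) (by norm_num) (by norm_num))
    (exp_neg_leJ (r := 0.798) 3 (by norm_num) (by norm_num) (by norm_num) (by norm_num))
    (exp_neg_leJ (r := 0.79) 9 (by norm_num) (by norm_num) (by norm_num) (by norm_num))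
    (exp_neg_leJ (r := 0.99) 14 (by norm_num) (by norm_num) (by norm_num) (by norm_num))
    (exp_neg_leJ (r := 0.971) 5 (by norm_num) (by norm_num) (by norm_num) (by norm_num))
    (exp_neg_leJ (r := 0.677) 13 (by norm_num) (by norm_num) (by norm_num) (by norm_num))
    (exp_neg_leJ (r := 0.99) 14 (by norm_num) (by norm_num) (by norm_num) (by norm_num))
    (exp_neg_leJ (r := 0.99) 14 (by norm_num) (by norm_num) (by norm_num) (by norm_num))
    (by norm_num)) (by norm_num) hN hβ.le (by norm_num)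

private theorem B5Mo_T34_0_1 {β x y : ℝ} (hβ : 0 < β) (hN : β * 7.194 ≤ 1) (hx1 : 1.111 ≤ x) (hx2 : x ≤ 1.1392)
    (hy1 : -0 ≤ y) (hy2 : y ≤ 0.2491) : ‖HH β (x + y * I) - 1‖ ≤ 0.08 := by
  refine le_epsJ (C := 0.5121) (N0 := 7.194) (J_boxp 1.111 1.1392 0 0.2491 0.2491 1.4923 1.1662 1.6906 0.7133 0.5188 2.6822 7.194 0.7815 2.876 1.423 0.9819 0.7461 0.5517 1.3885 3.4381 0.8692 2.0128 2.7243 2.5902 0.004669 0.01898 0.00004611 0.0000003101 0.001925 0.0000005147 0.0000003101 0.0000003101 0.5121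
    hβ hN hx1 hx2 hy1 hy2 (by norm_num) (by norm_num) (by linarith) (by norm_num) (by norm_num) (by norm_num) (by norm_num) (by norm_num) (by norm_num) (by norm_num) (by norm_num) (by norm_num) (by norm_num) (by norm_num) (by norm_num) (by norm_num) (by norm_num) (by norm_num) (by norm_num) (by norm_num) (by norm_num) (by norm_num) (by norm_num) (by norm_num)
    (cube_sqrt_geJ (s := 0.8599) (by norm_num) (by norm_num) (by norm_num) (by norm_num))
    (cube_sqrt_geJ (s := 0.9509) (by norm_num) (by norm_num) (by norm_num) (by norm_num))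
    (by norm_num) (by norm_num) (by norm_num) (by norm_num) (by norm_num) (by norm_num) (by norm_num) (by norm_num) (by norm_num) (by norm_num) (by norm_num) (by norm_num) (by norm_num) (by norm_num) (by norm_num) (by norm_num) (by norm_num) (by norm_num)
    (exp_neg_leJ (r := 0.367) 5 (by norm_num) (by norm_num) (by norm_num) (by norm_num))
    (exp_neg_leJ (r := 0.968) 3 (by norm_num) (by norm_num) (by norm_num) (by norm_num))
    (exp_neg_leJ (r := 0.988) 9 (by norm_num) (by norm_num) (by norm_num) (by norm_num))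
    (exp_neg_leJ (r := 0.99) 14 (by norm_num) (by norm_num) (by norm_num) (by norm_num))
    (exp_neg_leJ (r := 0.253) 6 (by norm_num) (by norm_num) (by norm_num) (by norm_num))
    (exp_neg_leJ (r := 0.48) 14 (by norm_num) (by norm_num) (by norm_num) (by norm_num))
    (exp_neg_leJ (r := 0.99) 14 (by norm_num) (by norm_num) (by norm_num) (by norm_num))
    (exp_neg_leJ (r := 0.99) 14 (by norm_num) (by norm_num) (by norm_num) (by norm_num))
    (by norm_num)) (by norm_num) hN hβ.le (by norm_num)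

private theorem B5Mo_T34 {β x y : ℝ} (hβ : 0 < β) (hN : β * 7.194 ≤ 1) (hx1 : 1.0304 ≤ x) (hx2 : x ≤ 1.1392)
    (hy1 : 0.1859 ≤ y) (hy2 : y ≤ 0.2491) : ‖HH β (x + y * I) - 1‖ ≤ 0.08 := by
  rcases le_total x 1.111 with hxx | hxx
  · exact B5Mo_T34_0_0 hβ hN (by linarith) (by linarith) (by linarith) (by linarith)
  exact B5Mo_T34_0_1 hβ hN (by linarith) (by linarith) (by linarith) (by linarith)

private theorem B5Mo_G35 {κ : ℝ} (hk1 : 1.36 ≤ κ) (hk2 : κ ≤ 1.39) : gG κ 0.37 ≤ 1.23176 ∧ 0.35749 ≤ Real.exp (-(κ * 0.37)) ^ 2 := by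
  refine ⟨gG_le 0.37 1.36 1.39 1.23176 0.6046 0.59792 1.65401 1.67247 hk1 hk2 (by norm_num)
    (ex_um 0.5032 (by norm_num) (by norm_num) (by norm_num) (by norm_num)) (ex_um 0.5143 (by norm_num) (by norm_num) (by norm_num) (by norm_num))
    (ex_up 0.5032 (by norm_num) (by norm_num) (by norm_num) (by norm_num)) (ex_up 0.5143 (by norm_num) (by norm_num) (by norm_num) (by norm_num))
    (by norm_num) (by norm_num), ?_⟩
  exact v5_M 0.59791 (ex_lm 0.5143 (by linarith) (by norm_num) (by norm_num) (by norm_num) (by norm_num)) (by norm_num) (by norm_num)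

private theorem B5Mo_C36 {β r t κ : ℝ} (hβ : 0 < β) (hr : 10 ≤ r) (hκ : κ = β * r) (hk1 : 1.36 ≤ κ) (hk2 : κ ≤ 1.39) (hta : 1.6716 ≤ t + κ)
    (htb : t + κ ≤ 1.8222) : ‖F (cexp (I * β)) (r * cexp (I * ((t + β / 2 : ℝ) : ℂ)))‖ ≤
      1.5669 * Real.exp (r * (1.23176 - 0.37 * (t + κ))) + 0.2292 * Real.exp (r * 0) :=
  v5_H 0.37 1.36 1.39 1.6716 1.8222 1.23176 1.5325 0.35749 0.1488 1.8522 1.1084 0.13626 0.2562 0.0000251 1.5669 0.2292 hβ hr hκ (by norm_num) hk1 hk2 hta htb (by norm_num) (B5Mo_G35 hk1 hk2).1 (B5Mo_G35 hk1 hk2).2 (by norm_num) (by norm_num) (by norm_num)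
    (by norm_num) (by norm_num) (by norm_num) (by norm_num) (by norm_num) (by norm_num) (by norm_num) (by norm_num) (ex_un 1 0.3625 (by norm_num) (by norm_num) (by norm_num) (by norm_num))
    (v5_hump 1.5013 7.194 2.6822 0.00002059 0.0000251 hβ hr hκ hk1 hk2 (by norm_num) htb (by norm_num) (by norm_num) (by norm_num) (by norm_num) (by norm_num) (by norm_num) (by norm_num) (ex_un 10 0.8003 (by norm_num) (by norm_num) (by norm_num) (by norm_num)) (by norm_num)) (by norm_num) (by norm_num)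

private theorem B5Mo_G37 {κ : ℝ} (hk1 : 1.36 ≤ κ) (hk2 : κ ≤ 1.39) : gG κ (-0.6) ≤ 1.54718 ∧ 5.11383 ≤ Real.exp (-(κ * (-0.6))) ^ 2 := by
  refine ⟨gG_le (-0.6) 1.36 1.39 1.54718 2.26144 2.30252 0.44221 0.43433 hk1 hk2 (by norm_num)
    (ex_up 0.816 (by norm_num) (by norm_num) (by norm_num) (by norm_num)) (ex_up 0.834 (by norm_num) (by norm_num) (by norm_num) (by norm_num))
    (ex_um 0.816 (by norm_num) (by norm_num) (by norm_num) (by norm_num)) (ex_um 0.834 (by norm_num) (by norm_num) (by norm_num) (by norm_num))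
    (by norm_num) (by norm_num), ?_⟩
  exact v5_M 2.26138 (ex_lp 0.816 (by linarith) (by norm_num) (by norm_num)) (by norm_num) (by norm_num)

private theorem B5Mo_C38 {β r t κ : ℝ} (hβ : 0 < β) (hr : 10 ≤ r) (hκ : κ = β * r) (hk1 : 1.36 ≤ κ) (hk2 : κ ≤ 1.39) (hta : (-2.0983) ≤ t + κ)
    (htb : t + κ ≤ (-1.9477)) : ‖F (cexp (I * β)) (r * cexp (I * ((t + β / 2 : ℝ) : ℂ)))‖ ≤
      0.7113 * Real.exp (r * (1.54718 - (-0.6) * (t + κ))) + 1.6801 * Real.exp (r * 0.0501) :=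
  v5_HU (-0.6) 1.36 1.39 (-2.0983) (-1.9477) 1.54718 0.7113 5.11383 0.1488 0.6562 1.2236 0 0.0501 0.00000114 1.6801 hβ hr hκ (by norm_num) hk1 hk2 hta htb (by norm_num) (by norm_num) (B5Mo_G37 hk1 hk2).1 (B5Mo_G37 hk1 hk2).2 (by norm_num) (by norm_num) (by norm_num)
    (by norm_num) (by norm_num) (by norm_num) (by norm_num) (by norm_num) (by norm_num) (by norm_num)
    (by norm_num) (by norm_num) (by norm_num) (v5_hump 5.2712 7.194 2.6822 0.0000009316 0.00000114 hβ hr hκ hk1 hk2 (by norm_num) htb (by norm_num) (by norm_num) (by norm_num) (by norm_num) (by norm_num) (by norm_num) (by norm_num) (ex_un 13 0.9 (by norm_num) (by norm_num) (by norm_num) (by norm_num)) (by norm_num)) (by norm_num)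

private theorem B5Mo_C39 {β r t κ : ℝ} (hβ : 0 < β) (hr : 10 ≤ r) (hκ : κ = β * r) (hk1 : 1.36 ≤ κ) (hk2 : κ ≤ 1.39) (hta : 2.9282 ≤ t + κ)
    (htb : t + κ ≤ 3.0788) : ‖F (cexp (I * β)) (r * cexp (I * ((t + β / 2 : ℝ) : ℂ)))‖ ≤
      3.6778 * Real.exp (r * (0.08 + 1 / 20)) :=
  v5_UD 1.36 1.39 2.9282 3.0788 0.08 0.3421 0.08 1.9174 3.6778 hβ hr hκ (by norm_num) hk1 hk2 hta htb (by norm_num) (by norm_num) (by norm_num) (by norm_num) (by norm_num) (by norm_num) (by norm_num) (by norm_num) (by norm_num) (by norm_num) (by norm_num)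

private theorem B5Mo_Y40 {β r t κ h t' : ℝ} (hβ : 0 < β) (hκ : κ = β * r) (hN : β * 7.194 ≤ 1) (hk1 : 1.36 ≤ κ) (hk2 : κ ≤ 1.39)
    (ht : t' = t + (((1 : ℤ) : ℝ) - 1) * h) (hD : DomR κ t') (hta : 0.415 ≤ t' + κ) (htb : t' + κ ≤ 0.5655) :
    0.7174 * Real.exp (r * sE κ t') ≤ ‖Xf β r h t 1‖ := by
  obtain ⟨⟨ya, yb⟩, ⟨xa, xb⟩, n1, Da, Db⟩ := B5Mo_B33 hD hk1 hk2 hta htb
  have J := B5Mo_T34 (x := sx κ t') (y := sy κ t') hβ hN (by linarith only [xa, xb, ya, yb]) (by linarith only [xa, xb, ya, yb]) (by linarith only [xa, xb, ya, yb]) (by linarith only [xa, xb, ya, yb])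
  exact v5_Jlo hβ hκ (k := 1) ht hD 0.08 2.704 0.7174 (by norm_num) J Db (by norm_num)

private theorem B5Mo_V41 {κ t : ℝ} (hD : DomR κ t) (hk1 : 1.36 ≤ κ) (hk2 : κ ≤ 1.39) (hta : 0.415 ≤ t + κ) (htb : t + κ ≤ 0.5655) :
    1.03903 - 0.1653 * (t + κ) ≤ sE κ t := by
  have hκ0 : 0 < κ := hD.1
  exact v5_V1 hD 1.36 1.39 0.415 0.5655 0.02629 0.09151 0.24739 1.03903 0.1653 (by norm_num) hk1 hk2 (by norm_num) (by norm_num) hta htb (by norm_num) (clo5 1.36 1.39 0.24739 (by norm_num) hk1 hk2 (by norm_num) (by norm_num) (by norm_num))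
      ((cup2 1.36 (by norm_num) hk1).trans (by norm_num)) (by norm_num) (by norm_num) (by norm_num) (by norm_num) (by norm_num) (by norm_num)

private theorem B5Mo_K42 {β r t κ h : ℝ} (hβ : 0 < β) (hr : 10 ≤ r) (hκ : κ = β * r) (hk1 : 1.36 ≤ κ) (hk2 : κ ≤ 1.39)
    (hh : h = 2 * Real.pi / 5) (hh1 : 1.25663 ≤ h) (hh2 : h ≤ 1.25664) (hta : 0.415 ≤ t + κ) (htb : t + κ ≤ 0.5655)
    (hY : 0.7174 * Real.exp (r * sE κ t) ≤ ‖Xf β r h t 1‖) (hV : 1.03903 - 0.1653 * (t + κ) ≤ sE κ t) :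
    ‖Xf β r h t 2‖ ≤ 0.0618 * ‖Xf β r h t 1‖ := by
  rw [v5_X 2 1 (by push_cast; ring)]
  exact v5_cmp 0.3571 0.02821 0.0617 0.9455 0.00007841 0.0000251 0.0618 hr (B5Mo_C36 (t := t + 1 * h) hβ hr hκ hk1 hk2 (by linarith only [hta, htb, hh1, hh2]) (by linarith only [hta, htb, hh1, hh2])) hY (by norm_num) (by norm_num) (by norm_num) (by norm_num) (by linarith only [hV, hta, htb, hh1, hh2]) (ex_un 3 0.5709 (by norm_num) (by norm_num) (by norm_num) (by norm_num)) (by norm_num) (by norm_num) (by linarith only [hV, hta, htb, hh1, hh2]) (ex_un 9 0.4549 (by norm_num) (by norm_num) (by norm_num) (by norm_num)) (by norm_num) (by norm_num)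

private theorem B5Mo_K43 {β r t κ h : ℝ} (hβ : 0 < β) (hr : 10 ≤ r) (hκ : κ = β * r) (hk1 : 1.36 ≤ κ) (hk2 : κ ≤ 1.39)
    (hh : h = 2 * Real.pi / 5) (hh1 : 1.25663 ≤ h) (hh2 : h ≤ 1.25664) (hta : 0.415 ≤ t + κ) (htb : t + κ ≤ 0.5655)
    (hY : 0.7174 * Real.exp (r * sE κ t) ≤ ‖Xf β r h t 1‖) (hV : 1.03903 - 0.1653 * (t + κ) ≤ sE κ t) :
    ‖Xf β r h t (-1)‖ ≤ 0.00375 * ‖Xf β r h t 1‖ := by
  rw [v5_X (-1) (-2) (by push_cast; ring)]
  exact v5_cmp 0.567 0.003466 0.00344 0.8954 0.0001314 0.000308 0.00375 hr (B5Mo_C38 (t := t + (-2) * h) hβ hr hκ hk1 hk2 (by linarith only [hta, htb, hh1, hh2]) (by linarith only [hta, htb, hh1, hh2])) hY (by norm_num) (by norm_num) (by norm_num) (by norm_num) (by linarith only [hV, hta, htb, hh1, hh2]) (ex_un 5 0.6699 (by norm_num) (by norm_num) (by norm_num) (by norm_num)) (by norm_num) (by norm_num) (by linarith only [hV, hta, htb, hh1, hh2]) (ex_un 8 0.9539 (by norm_num) (by norm_num) (by norm_num)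 (by norm_num)) (by norm_num) (by norm_num)

private theorem B5Mo_K44 {β r t κ h : ℝ} (hβ : 0 < β) (hr : 10 ≤ r) (hκ : κ = β * r) (hk1 : 1.36 ≤ κ) (hk2 : κ ≤ 1.39)
    (hh : h = 2 * Real.pi / 5) (hh1 : 1.25663 ≤ h) (hh2 : h ≤ 1.25664) (hta : 0.415 ≤ t + κ) (htb : t + κ ≤ 0.5655)
    (hY : 0.7174 * Real.exp (r * sE κ t) ≤ ‖Xf β r h t 1‖) (hV : 1.03903 - 0.1653 * (t + κ) ≤ sE κ t) :
    ‖Xf β r h t (-2)‖ ≤ 0.00148 * ‖Xf β r h t 1‖ := by
  rw [v5_Xm2 hh]
  exact v5_cmp0 0.8155 0.0002874 0.00148 hr (B5Mo_C39 (t := t + 2 * h) hβ hr hκ hk1 hk2 (by linarith only [hta, htb, hh1, hh2]) (by linarith only [hta, htb, hh1, hh2])) hY (by norm_num) (by norm_num) (by norm_num) (by linarith only [hV, hta, htb, hh1, hh2]) (ex_un 8 0.1549 (by norm_num) (by norm_num) (by norm_num) (by norm_num)) (by norm_num)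

private theorem B5Mo_G45 {κ : ℝ} (hk1 : 1.36 ≤ κ) (hk2 : κ ≤ 1.39) : gG κ (-0.24) ≤ 1.08308 ∧ 1.92088 ≤ Real.exp (-(κ * (-0.24))) ^ 2 := by
  refine ⟨gG_le (-0.24) 1.36 1.39 1.08308 1.38597 1.39599 0.72152 0.71635 hk1 hk2 (by norm_num)
    (ex_up 0.3264 (by norm_num) (by norm_num) (by norm_num) (by norm_num)) (ex_up 0.3336 (by norm_num) (by norm_num) (by norm_num) (by norm_num))
    (ex_um 0.3264 (by norm_num) (by norm_num) (by norm_num) (by norm_num)) (ex_um 0.3336 (by norm_num) (by norm_num) (by norm_num) (by norm_num))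
    (by norm_num) (by norm_num), ?_⟩
  exact v5_M 1.38596 (ex_lp 0.3264 (by linarith) (by norm_num) (by norm_num)) (by norm_num) (by norm_num)

private theorem B5Mo_B46 {κ t : ℝ} (h : DomR κ t) (hk1 : 1.36 ≤ κ) (hk2 : κ ≤ 1.39) (ht1 : (-0.8417) ≤ t + κ) (ht2 : t + κ ≤ (-0.6911)) :
    ((-0.407) ≤ sy κ t ∧ sy κ t ≤ (-0.332)) ∧ (1.8512 ≤ sx κ t ∧ sx κ t ≤ 2.0617) ∧ κ * Real.exp (-sy κ t) ≤ 2.0883 ∧ 3.9289 ≤ sD κ t ∧ sD κ t ≤ 4.5467 := by
  have hy1 : -0.407 ≤ sy κ t := syL_ge h 1.36 1.39 0.8417 0.407 0.66564 0.66565 0.1938 0.1949 0.19921 hk1 hk2 (by linarith) (by norm_num) (by norm_num) (by norm_num)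
    (expm_ge (by norm_num) (by norm_num) (by norm_num) (by norm_num)) (expm_le (by norm_num) (by norm_num) (by norm_num)) (by norm_num)
    (by norm_num) (by norm_num) (by norm_num) (by norm_num) (by norm_num) (by norm_num)
  have hy2 : sy κ t ≤ -0.332 := syL_le h 1.36 1.39 0.6911 0.332 0.71748 0.71749 0.17136 0.17516 hk1 hk2 (by linarith) (by norm_num) (by norm_num) (by norm_num)
    (expm_ge (by norm_num) (by norm_num) (by norm_num) (by norm_num)) (expm_le (by norm_num) (by norm_num) (by norm_num)) (by norm_num)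
    (by norm_num) (by norm_num) (by norm_num) (by norm_num) (by norm_num) (by norm_num)
  have hy1' : (-0.407) ≤ sy κ t := by linarith
  have hy2' : sy κ t ≤ (-0.332) := by linarith
  have hx1 : 1.8512 ≤ sx κ t := sx_lo h 1.36 (-0.332) 0.4071 1.39375 1.8512 hk1 (by norm_num) hy2' (abs_le.2 ⟨by linarith, by linarith⟩) (ex_lp 0.332 (by norm_num) (by norm_num) (by norm_num)) (by norm_num) (by norm_num)
  have hx2 : sx κ t ≤ 2.0617 := sx_hi h 1.39 (-0.407) 0.332 1.50231 2.0617 hk2 hy1' (by norm_num) (le_trans (by linarith) (neg_le_abs _)) (ex_up 0.407 (by norm_num) (by norm_num) (by norm_num) (by norm_num)) (by norm_num) (by norm_num)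
  refine ⟨⟨hy1', hy2'⟩, ⟨hx1, hx2⟩, v5_n h 1.39 (-0.407) 1.50231 2.0883 hk2 hy1' (ex_up 0.407 (by norm_num) (by norm_num) (by norm_num) (by norm_num)) (by norm_num), ?_, ?_⟩
  · exact v5_Dlo h 1.36 (-0.407) (-0.332) (-0.332) 1.39375 3.9289 (by norm_num) hk1 hy1' hy2' (ex_lp 0.332 (by norm_num) (by norm_num) (by norm_num)) (by norm_num) (by norm_num) (by norm_num) (by norm_num)
  · exact v5_Dup h 1.39 (-0.407) (-0.332) 1.50231 1.39376 4.5467 hk2 hy1' hy2' (ex_up 0.407 (by norm_num) (by norm_num) (by norm_num) (by norm_num)) (ex_up 0.332 (by norm_num) (by norm_num) (by norm_num) (by norm_num)) (by norm_num) (by norm_num) (by norm_num)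

private theorem B5Mo_T47_0_0 {β x y : ℝ} (hβ : 0 < β) (hN : β * 7.194 ≤ 1) (hx1 : 1.8511 ≤ x) (hx2 : x ≤ 1.895)
    (hy1 : -0.4071 ≤ y) (hy2 : y ≤ -0.3319) : ‖HH β (x + y * I) - 1‖ ≤ 0.14 := by
  refine le_epsJ (C := 1.006) (N0 := 7.194) (J_boxp 1.8511 1.895 0.4071 0 (-0.3319) 1.7244 1.9383 2.0094 0.6261 0.5656 2.6822 7.194 1.1241 5.173 1.68 0.3154 0.8621 0.5391 0.9993 1.719 1.0317 3.063 4.1662 3.1454 0.002028 0.02074 0.0007557 0.000004262 0.0005981 0.0000003101 0.0000003101 0.0000003101 1.006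
    hβ hN hx1 hx2 hy1 hy2 (by norm_num) (by norm_num) (by linarith) (by norm_num) (by norm_num) (by norm_num) (by norm_num) (by norm_num) (by norm_num) (by norm_num) (by norm_num) (by norm_num) (by norm_num) (by norm_num) (by norm_num) (by norm_num) (by norm_num) (by norm_num) (by norm_num) (by norm_num) (by norm_num) (by norm_num) (by norm_num) (by norm_num)
    (cube_sqrt_geJ (s := 0.7907) (by norm_num) (by norm_num) (by norm_num) (by norm_num))
    (cube_sqrt_geJ (s := 0.9286) (by norm_num) (by norm_num) (by norm_num) (by norm_num))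
    (by norm_num) (by norm_num) (by norm_num) (by norm_num) (by norm_num) (by norm_num) (by norm_num) (by norm_num) (by norm_num) (by norm_num) (by norm_num) (by norm_num) (by norm_num) (by norm_num) (by norm_num) (by norm_num) (by norm_num) (by norm_num)
    (exp_neg_leJ (r := 0.201) 6 (by norm_num) (by norm_num) (by norm_num) (by norm_num))
    (exp_neg_leJ (r := 0.878) 3 (by norm_num) (by norm_num) (by norm_num) (by norm_num))
    (exp_neg_leJ (r := 0.188) 7 (by norm_num) (by norm_num) (by norm_num) (by norm_num))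
    (exp_neg_leJ (r := 0.366) 12 (by norm_num) (by norm_num) (by norm_num) (by norm_num))
    (exp_neg_leJ (r := 0.422) 7 (by norm_num) (by norm_num) (by norm_num) (by norm_num))
    (exp_neg_leJ (r := 0.99) 14 (by norm_num) (by norm_num) (by norm_num) (by norm_num))
    (exp_neg_leJ (r := 0.99) 14 (by norm_num) (by norm_num) (by norm_num) (by norm_num))
    (exp_neg_leJ (r := 0.99) 14 (by norm_num) (by norm_num) (by norm_num) (by norm_num))
    (by norm_num)) (by norm_num) hN hβ.le (by norm_num)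

private theorem B5Mo_T47_0_1 {β x y : ℝ} (hβ : 0 < β) (hN : β * 7.194 ≤ 1) (hx1 : 1.895 ≤ x) (hx2 : x ≤ 1.946)
    (hy1 : -0.4071 ≤ y) (hy2 : y ≤ -0.3319) : ‖HH β (x + y * I) - 1‖ ≤ 0.14 := by
  refine le_epsJ (C := 1.0064) (N0 := 7.194) (J_boxp 1.895 1.946 0.4071 0 (-0.3319) 1.7553 1.9882 2.0575 0.6168 0.5723 2.6822 7.194 1.1327 5.257 1.687 0.2958 0.8776 0.5462 1.0143 1.6898 1.053 3.1238 4.254 3.0975 0.001813 0.01972 0.0006783 0.000005257 0.0005133 0.0000003101 0.0000003101 0.0000003101 1.0064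
    hβ hN hx1 hx2 hy1 hy2 (by norm_num) (by norm_num) (by linarith) (by norm_num) (by norm_num) (by norm_num) (by norm_num) (by norm_num) (by norm_num) (by norm_num) (by norm_num) (by norm_num) (by norm_num) (by norm_num) (by norm_num) (by norm_num) (by norm_num) (by norm_num) (by norm_num) (by norm_num) (by norm_num) (by norm_num) (by norm_num) (by norm_num)
    (cube_sqrt_geJ (s := 0.7889) (by norm_num) (by norm_num) (by norm_num) (by norm_num))
    (cube_sqrt_geJ (s := 0.928) (by norm_num) (by norm_num) (by norm_num) (by norm_num))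
    (by norm_num) (by norm_num) (by norm_num) (by norm_num) (by norm_num) (by norm_num) (by norm_num) (by norm_num) (by norm_num) (by norm_num) (by norm_num) (by norm_num) (by norm_num) (by norm_num) (by norm_num) (by norm_num) (by norm_num) (by norm_num)
    (exp_neg_leJ (r := 0.313) 6 (by norm_num) (by norm_num) (by norm_num) (by norm_num))
    (exp_neg_leJ (r := 0.929) 3 (by norm_num) (by norm_num) (by norm_num) (by norm_num))
    (exp_neg_leJ (r := 0.296) 7 (by norm_num) (by norm_num) (by norm_num) (by norm_num))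
    (exp_neg_leJ (r := 0.156) 12 (by norm_num) (by norm_num) (by norm_num) (by norm_num))
    (exp_neg_leJ (r := 0.575) 7 (by norm_num) (by norm_num) (by norm_num) (by norm_num))
    (exp_neg_leJ (r := 0.99) 14 (by norm_num) (by norm_num) (by norm_num) (by norm_num))
    (exp_neg_leJ (r := 0.99) 14 (by norm_num) (by norm_num) (by norm_num) (by norm_num))
    (exp_neg_leJ (r := 0.99) 14 (by norm_num) (by norm_num) (by norm_num) (by norm_num))
    (by norm_num)) (by norm_num) hN hβ.le (by norm_num)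

private theorem B5Mo_T47_0_2 {β x y : ℝ} (hβ : 0 < β) (hN : β * 7.194 ≤ 1) (hx1 : 1.946 ≤ x) (hx2 : x ≤ 2.005)
    (hy1 : -0.4071 ≤ y) (hy2 : y ≤ -0.3319) : ‖HH β (x + y * I) - 1‖ ≤ 0.14 := by
  refine le_epsJ (C := 1.0069) (N0 := 7.194) (J_boxp 1.946 2.005 0.4071 0 (-0.3319) 1.7912 2.046 2.1134 0.6065 0.58 2.6822 7.194 1.1423 5.353 1.695 0.2731 0.8955 0.5545 1.0318 1.6561 1.0778 3.1944 4.356 3.0424 0.001594 0.01859 0.0005981 0.00000672 0.00043 0.0000003101 0.0000003101 0.0000003101 1.0069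
    hβ hN hx1 hx2 hy1 hy2 (by norm_num) (by norm_num) (by linarith) (by norm_num) (by norm_num) (by norm_num) (by norm_num) (by norm_num) (by norm_num) (by norm_num) (by norm_num) (by norm_num) (by norm_num) (by norm_num) (by norm_num) (by norm_num) (by norm_num) (by norm_num) (by norm_num) (by norm_num) (by norm_num) (by norm_num) (by norm_num) (by norm_num)
    (cube_sqrt_geJ (s := 0.7869) (by norm_num) (by norm_num) (by norm_num) (by norm_num))
    (cube_sqrt_geJ (s := 0.9274) (by norm_num) (by norm_num) (by norm_num) (by norm_num))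
    (by norm_num) (by norm_num) (by norm_num) (by norm_num) (by norm_num) (by norm_num) (by norm_num) (by norm_num) (by norm_num) (by norm_num) (by norm_num) (by norm_num) (by norm_num) (by norm_num) (by norm_num) (by norm_num) (by norm_num) (by norm_num)
    (exp_neg_leJ (r := 0.442) 6 (by norm_num) (by norm_num) (by norm_num) (by norm_num))
    (exp_neg_leJ (r := 0.989) 3 (by norm_num) (by norm_num) (by norm_num) (by norm_num))
    (exp_neg_leJ (r := 0.422) 7 (by norm_num) (by norm_num) (by norm_num) (by norm_num))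
    (exp_neg_leJ (r := 0.913) 11 (by norm_num) (by norm_num) (by norm_num) (by norm_num))
    (exp_neg_leJ (r := 0.753) 7 (by norm_num) (by norm_num) (by norm_num) (by norm_num))
    (exp_neg_leJ (r := 0.99) 14 (by norm_num) (by norm_num) (by norm_num) (by norm_num))
    (exp_neg_leJ (r := 0.99) 14 (by norm_num) (by norm_num) (by norm_num) (by norm_num))
    (exp_neg_leJ (r := 0.99) 14 (by norm_num) (by norm_num) (by norm_num) (by norm_num))
    (by norm_num)) (by norm_num) hN hβ.le (by norm_num)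

private theorem B5Mo_T47_0_3 {β x y : ℝ} (hβ : 0 < β) (hN : β * 7.194 ≤ 1) (hx1 : 2.005 ≤ x) (hx2 : x ≤ 2.0618)
    (hy1 : -0.4071 ≤ y) (hy2 : y ≤ -0.3319) : ‖HH β (x + y * I) - 1‖ ≤ 0.14 := by
  refine le_epsJ (C := 0.9876) (N0 := 7.194) (J_boxp 2.005 2.0618 0.4071 0 (-0.3319) 1.8327 2.1017 2.1674 0.5934 0.5874 2.6822 7.194 1.1468 5.398 1.699 0.2513 0.9163 0.566 1.052 1.6235 1.1064 3.2761 4.474 3.009 0.001374 0.01707 0.0005169 0.000008476 0.0003506 0.0000003101 0.0000003101 0.0000003101 0.9876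
    hβ hN hx1 hx2 hy1 hy2 (by norm_num) (by norm_num) (by linarith) (by norm_num) (by norm_num) (by norm_num) (by norm_num) (by norm_num) (by norm_num) (by norm_num) (by norm_num) (by norm_num) (by norm_num) (by norm_num) (by norm_num) (by norm_num) (by norm_num) (by norm_num) (by norm_num) (by norm_num) (by norm_num) (by norm_num) (by norm_num) (by norm_num)
    (cube_sqrt_geJ (s := 0.7859) (by norm_num) (by norm_num) (by norm_num) (by norm_num))
    (cube_sqrt_geJ (s := 0.9271) (by norm_num) (by norm_num) (by norm_num) (by norm_num))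
    (by norm_num) (by norm_num) (by norm_num) (by norm_num) (by norm_num) (by norm_num) (by norm_num) (by norm_num) (by norm_num) (by norm_num) (by norm_num) (by norm_num) (by norm_num) (by norm_num) (by norm_num) (by norm_num) (by norm_num) (by norm_num)
    (exp_neg_leJ (r := 0.591) 6 (by norm_num) (by norm_num) (by norm_num) (by norm_num))
    (exp_neg_leJ (r := 0.071) 4 (by norm_num) (by norm_num) (by norm_num) (by norm_num))
    (exp_neg_leJ (r := 0.568) 7 (by norm_num) (by norm_num) (by norm_num) (by norm_num))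
    (exp_neg_leJ (r := 0.679) 11 (by norm_num) (by norm_num) (by norm_num) (by norm_num))
    (exp_neg_leJ (r := 0.959) 7 (by norm_num) (by norm_num) (by norm_num) (by norm_num))
    (exp_neg_leJ (r := 0.99) 14 (by norm_num) (by norm_num) (by norm_num) (by norm_num))
    (exp_neg_leJ (r := 0.99) 14 (by norm_num) (by norm_num) (by norm_num) (by norm_num))
    (exp_neg_leJ (r := 0.99) 14 (by norm_num) (by norm_num) (by norm_num) (by norm_num))
    (by norm_num)) (by norm_num) hN hβ.le (by norm_num)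

private theorem B5Mo_T47 {β x y : ℝ} (hβ : 0 < β) (hN : β * 7.194 ≤ 1) (hx1 : 1.8511 ≤ x) (hx2 : x ≤ 2.0618)
    (hy1 : (-0.4071) ≤ y) (hy2 : y ≤ (-0.3319)) : ‖HH β (x + y * I) - 1‖ ≤ 0.14 := by
  rcases le_total x 1.895 with hxx | hxx
  · exact B5Mo_T47_0_0 hβ hN (by linarith) (by linarith) (by linarith) (by linarith)
  rcases le_total x 1.946 with hxx | hxx
  · exact B5Mo_T47_0_1 hβ hN (by linarith) (by linarith) (by linarith) (by linarith)
  rcases le_total x 2.005 with hxx | hxx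
  · exact B5Mo_T47_0_2 hβ hN (by linarith) (by linarith) (by linarith) (by linarith)
  exact B5Mo_T47_0_3 hβ hN (by linarith) (by linarith) (by linarith) (by linarith)

private theorem B5Mo_U48 {β r t κ h t' : ℝ} (hβ : 0 < β) (hκ : κ = β * r) (hN : β * 7.194 ≤ 1) (hk1 : 1.36 ≤ κ) (hk2 : κ ≤ 1.39)
    (ht : t' = t + (((0 : ℤ) : ℝ) - 1) * h) (hD : DomR κ t') (hta : (-0.8417) ≤ t' + κ) (htb : t' + κ ≤ (-0.6911)) :
    ‖Xf β r h t 0‖ ≤ 0.8098 * Real.exp (r * sE κ t') := by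
  obtain ⟨⟨ya, yb⟩, ⟨xa, xb⟩, n1, Da, Db⟩ := B5Mo_B46 hD hk1 hk2 hta htb
  have J := B5Mo_T47 (x := sx κ t') (y := sy κ t') hβ hN (by linarith only [xa, xb, ya, yb]) (by linarith only [xa, xb, ya, yb]) (by linarith only [xa, xb, ya, yb]) (by linarith only [xa, xb, ya, yb])
  exact v5_Jup (h := h) (t := t) (k := 0) hβ hκ ht hD 0.14 3.9289 0.8098 J Da (by norm_num) (by norm_num)

private theorem B5Mo_K49 {β r t κ h : ℝ} (hβ : 0 < β) (hr : 10 ≤ r) (hκ : κ = β * r) (hk1 : 1.36 ≤ κ) (hk2 : κ ≤ 1.39)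
    (hh : h = 2 * Real.pi / 5) (hh1 : 1.25663 ≤ h) (hh2 : h ≤ 1.25664) (hta : 0.415 ≤ t + κ) (htb : t + κ ≤ 0.5655) (hN : β * 7.194 ≤ 1)
    (hD : DomR κ (t - h)) (hY : 0.7174 * Real.exp (r * sE κ t) ≤ ‖Xf β r h t 1‖) (hV : 1.03903 - 0.1653 * (t + κ) ≤ sE κ t) :
    ‖Xf β r h t 0‖ ≤ 0.851 * ‖Xf β r h t 1‖ := by
  have hU := B5Mo_U48 (h := h) (t := t) hβ hκ hN hk1 hk2 (by push_cast; ring) hD (by linarith only [hta, htb, hh1, hh2]) (by linarith only [hta, htb, hh1, hh2])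
  have hW := V_up hD (-0.24) (B5Mo_G45 hk1 hk2).1
  exact v5_cmpJ 0.0283 0.7538 0.851 hr hU hW hY (by norm_num) (by norm_num) (by norm_num) (by linarith only [hV, hta, htb, hh1, hh2]) (ex_un 0 0.2829 (by norm_num) (by norm_num) (by norm_num) (by norm_num)) (by norm_num)

private theorem B5Mo_O50 {β r t κ h : ℝ} (hβ : 0 < β) (hr : 10 ≤ r) (hκ : κ = β * r) (hk1 : 1.36 ≤ κ) (hk2 : κ ≤ 1.39)
    (hh : h = 2 * Real.pi / 5) (hta : 0.415 ≤ t + κ) (htb : t + κ ≤ 0.5655) :
    ‖Xf β r h t (-2)‖ + ‖Xf β r h t (-1)‖ + ‖Xf β r h t 2‖ < |‖Xf β r h t 1‖ - ‖Xf β r h t 0‖| := by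
  obtain ⟨hh1, hh2⟩ := v5_h hh
  have hκ0 : 0 < κ := by linarith only [hk1]
  have hN : β * 7.194 ≤ 1 := v5_hN 1.39 7.194 hβ hr hκ hk2 (by norm_num) (by norm_num)
  have hD1 : DomR κ t := v5_dom hκ0 (by linarith only [hta, htb, hk1, hk2, hh1, hh2]) (Or.inr (by linarith only [hta, htb, hk1, hk2, hh1, hh2]))
  have e1 : t = t + (((1 : ℤ) : ℝ) - 1) * h := by push_cast; ring
  have hY := B5Mo_Y40 (h := h) hβ hκ hN hk1 hk2 e1 hD1 hta htb
  have hV := B5Mo_V41 hD1 hk1 hk2 hta htb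
  have hD0 : DomR κ (t - h) := v5_dom hκ0 (by linarith only [hta, htb, hk1, hk2, hh1, hh2]) (Or.inl (by linarith only [hk1]))
  have cp2 := B5Mo_K42 hβ hr hκ hk1 hk2 hh hh1 hh2 hta htb hY hV
  have cm1 := B5Mo_K43 hβ hr hκ hk1 hk2 hh hh1 hh2 hta htb hY hV
  have cm2 := B5Mo_K44 hβ hr hκ hk1 hk2 hh hh1 hh2 hta htb hY hV
  have cn0 := B5Mo_K49 hβ hr hκ hk1 hk2 hh hh1 hh2 hta htb hN hD0 hY hV
  have hp : 0 < ‖Xf β r h t 1‖ := lt_of_lt_of_le (by positivity) hY
  exact v5_out1 _ _ _ _ cm2 cm1 cp2 cn0 hp (by norm_num)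

private theorem B5Mo_B51 {κ t : ℝ} (h : DomR κ t) (hk1 : 1.36 ≤ κ) (hk2 : κ ≤ 1.39) (ht1 : (-0.5279) ≤ t + κ) (ht2 : t + κ ≤ (-0.4526)) :
    ((-0.258) ≤ sy κ t ∧ sy κ t ≤ (-0.218)) ∧ (1.6714 ≤ sx κ t ∧ sx κ t ≤ 1.7859) ∧ κ * Real.exp (-sy κ t) ≤ 1.7992 ∧ 3.4243 ≤ sD κ t ∧ sD κ t ≤ 3.7209 := by
  have hy1 : -0.258 ≤ sy κ t := syL_ge h 1.36 1.39 0.5279 0.258 0.77259 0.7726 0.1426 0.1434 0.14657 hk1 hk2 (by linarith) (by norm_num) (by norm_num) (by norm_num)
    (expm_ge (by norm_num) (by norm_num) (by norm_num) (by norm_num)) (expm_le (by norm_num) (by norm_num) (by norm_num)) (by norm_num)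
    (by norm_num) (by norm_num) (by norm_num) (by norm_num) (by norm_num) (by norm_num)
  have hy2 : sy κ t ≤ -0.218 := syL_le h 1.36 1.39 0.4526 0.218 0.80412 0.80413 0.12611 0.1289 hk1 hk2 (by linarith) (by norm_num) (by norm_num) (by norm_num)
    (expm_ge (by norm_num) (by norm_num) (by norm_num) (by norm_num)) (expm_le (by norm_num) (by norm_num) (by norm_num)) (by norm_num)
    (by norm_num) (by norm_num) (by norm_num) (by norm_num) (by norm_num) (by norm_num)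
  have hy1' : (-0.258) ≤ sy κ t := by linarith
  have hy2' : sy κ t ≤ (-0.218) := by linarith
  have hx1 : 1.6714 ≤ sx κ t := sx_lo h 1.36 (-0.218) 0.2581 1.24358 1.6714 hk1 (by norm_num) hy2' (abs_le.2 ⟨by linarith, by linarith⟩) (ex_lp 0.218 (by norm_num) (by norm_num) (by norm_num)) (by norm_num) (by norm_num)
  have hx2 : sx κ t ≤ 1.7859 := sx_hi h 1.39 (-0.258) 0.218 1.29434 1.7859 hk2 hy1' (by norm_num) (le_trans (by linarith) (neg_le_abs _)) (ex_up 0.258 (by norm_num) (by norm_num) (by norm_num) (by norm_num)) (by norm_num) (by norm_num)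
  refine ⟨⟨hy1', hy2'⟩, ⟨hx1, hx2⟩, v5_n h 1.39 (-0.258) 1.29434 1.7992 hk2 hy1' (ex_up 0.258 (by norm_num) (by norm_num) (by norm_num) (by norm_num)) (by norm_num), ?_, ?_⟩
  · exact v5_Dlo h 1.36 (-0.258) (-0.218) (-0.218) 1.24358 3.4243 (by norm_num) hk1 hy1' hy2' (ex_lp 0.218 (by norm_num) (by norm_num) (by norm_num)) (by norm_num) (by norm_num) (by norm_num) (by norm_num)
  · exact v5_Dup h 1.39 (-0.258) (-0.218) 1.29434 1.24359 3.7209 hk2 hy1' hy2' (ex_up 0.258 (by norm_num) (by norm_num) (by norm_num) (by norm_num)) (ex_up 0.218 (by norm_num) (by norm_num) (by norm_num) (by norm_num)) (by norm_num) (by norm_num) (by norm_num)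

private theorem B5Mo_T52_0_0 {β x y : ℝ} (hβ : 0 < β) (hN : β * 7.194 ≤ 1) (hx1 : 1.6713 ≤ x) (hx2 : x ≤ 1.718)
    (hy1 : -0.2581 ≤ y) (hy2 : y ≤ -0.2179) : ‖HH β (x + y * I) - 1‖ ≤ 0.105 := by
  refine le_epsJ (C := 0.7548) (N0 := 7.194) (J_boxp 1.6713 1.718 0.2581 0 (-0.2179) 1.7036 1.7373 1.8877 0.6179 0.5482 2.6822 7.194 1.0198 4.281 1.596 0.5211 0.8517 0.5622 1.1729 2.2955 1.0258 2.8141 4.2117 3.3321 0.002184 0.01753 0.0002168 0.0000003101 0.0006243 0.0000003101 0.0000003101 0.0000003101 0.7548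
    hβ hN hx1 hx2 hy1 hy2 (by norm_num) (by norm_num) (by linarith) (by norm_num) (by norm_num) (by norm_num) (by norm_num) (by norm_num) (by norm_num) (by norm_num) (by norm_num) (by norm_num) (by norm_num) (by norm_num) (by norm_num) (by norm_num) (by norm_num) (by norm_num) (by norm_num) (by norm_num) (by norm_num) (by norm_num) (by norm_num) (by norm_num)
    (cube_sqrt_geJ (s := 0.8124) (by norm_num) (by norm_num) (by norm_num) (by norm_num))
    (cube_sqrt_geJ (s := 0.9354) (by norm_num) (by norm_num) (by norm_num) (by norm_num))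
    (by norm_num) (by norm_num) (by norm_num) (by norm_num) (by norm_num) (by norm_num) (by norm_num) (by norm_num) (by norm_num) (by norm_num) (by norm_num) (by norm_num) (by norm_num) (by norm_num) (by norm_num) (by norm_num) (by norm_num) (by norm_num)
    (exp_neg_leJ (r := 0.127) 6 (by norm_num) (by norm_num) (by norm_num) (by norm_num))
    (exp_neg_leJ (r := 0.044) 4 (by norm_num) (by norm_num) (by norm_num) (by norm_num))
    (exp_neg_leJ (r := 0.437) 8 (by norm_num) (by norm_num) (by norm_num) (by norm_num))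
    (exp_neg_leJ (r := 0.99) 14 (by norm_num) (by norm_num) (by norm_num) (by norm_num))
    (exp_neg_leJ (r := 0.379) 7 (by norm_num) (by norm_num) (by norm_num) (by norm_num))
    (exp_neg_leJ (r := 0.99) 14 (by norm_num) (by norm_num) (by norm_num) (by norm_num))
    (exp_neg_leJ (r := 0.99) 14 (by norm_num) (by norm_num) (by norm_num) (by norm_num))
    (exp_neg_leJ (r := 0.99) 14 (by norm_num) (by norm_num) (by norm_num) (by norm_num))
    (by norm_num)) (by norm_num) hN hβ.le (by norm_num)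

private theorem B5Mo_T52_0_1 {β x y : ℝ} (hβ : 0 < β) (hN : β * 7.194 ≤ 1) (hx1 : 1.718 ≤ x) (hx2 : x ≤ 1.769)
    (hy1 : -0.2581 ≤ y) (hy2 : y ≤ -0.2179) : ‖HH β (x + y * I) - 1‖ ≤ 0.105 := by
  refine le_epsJ (C := 0.7545) (N0 := 7.194) (J_boxp 1.718 1.769 0.2581 0 (-0.2179) 1.7365 1.7878 1.9342 0.6078 0.5549 2.6822 7.194 1.0296 4.356 1.603 0.5014 0.8682 0.5702 1.1889 2.2661 1.0484 2.8787 4.3051 3.2883 0.001941 0.01654 0.0001933 0.0000003101 0.0005305 0.0000003101 0.0000003101 0.0000003101 0.7545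
    hβ hN hx1 hx2 hy1 hy2 (by norm_num) (by norm_num) (by linarith) (by norm_num) (by norm_num) (by norm_num) (by norm_num) (by norm_num) (by norm_num) (by norm_num) (by norm_num) (by norm_num) (by norm_num) (by norm_num) (by norm_num) (by norm_num) (by norm_num) (by norm_num) (by norm_num) (by norm_num) (by norm_num) (by norm_num) (by norm_num) (by norm_num)
    (cube_sqrt_geJ (s := 0.8104) (by norm_num) (by norm_num) (by norm_num) (by norm_num))
    (cube_sqrt_geJ (s := 0.9348) (by norm_num) (by norm_num) (by norm_num) (by norm_num))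
    (by norm_num) (by norm_num) (by norm_num) (by norm_num) (by norm_num) (by norm_num) (by norm_num) (by norm_num) (by norm_num) (by norm_num) (by norm_num) (by norm_num) (by norm_num) (by norm_num) (by norm_num) (by norm_num) (by norm_num) (by norm_num)
    (exp_neg_leJ (r := 0.245) 6 (by norm_num) (by norm_num) (by norm_num) (by norm_num))
    (exp_neg_leJ (r := 0.102) 4 (by norm_num) (by norm_num) (by norm_num) (by norm_num))
    (exp_neg_leJ (r := 0.552) 8 (by norm_num) (by norm_num) (by norm_num) (by norm_num))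
    (exp_neg_leJ (r := 0.99) 14 (by norm_num) (by norm_num) (by norm_num) (by norm_num))
    (exp_neg_leJ (r := 0.542) 7 (by norm_num) (by norm_num) (by norm_num) (by norm_num))
    (exp_neg_leJ (r := 0.99) 14 (by norm_num) (by norm_num) (by norm_num) (by norm_num))
    (exp_neg_leJ (r := 0.99) 14 (by norm_num) (by norm_num) (by norm_num) (by norm_num))
    (exp_neg_leJ (r := 0.99) 14 (by norm_num) (by norm_num) (by norm_num) (by norm_num))
    (by norm_num)) (by norm_num) hN hβ.le (by norm_num)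

private theorem B5Mo_T52_0_2 {β x y : ℝ} (hβ : 0 < β) (hN : β * 7.194 ≤ 1) (hx1 : 1.769 ≤ x) (hx2 : x ≤ 1.786)
    (hy1 : -0.2581 ≤ y) (hy2 : y ≤ -0.2179) : ‖HH β (x + y * I) - 1‖ ≤ 0.105 := by
  refine le_epsJ (C := 0.7055) (N0 := 7.194) (J_boxp 1.769 1.786 0.2581 0 (-0.2179) 1.7724 1.8046 1.9498 0.5918 0.5571 2.6822 7.194 1.0182 4.269 1.594 0.4949 0.8861 0.5854 1.2064 2.2564 1.0732 2.9493 4.4071 3.3446 0.001706 0.01484 0.0001705 0.0000003101 0.0004443 0.0000003101 0.0000003101 0.0000003101 0.7055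
    hβ hN hx1 hx2 hy1 hy2 (by norm_num) (by norm_num) (by linarith) (by norm_num) (by norm_num) (by norm_num) (by norm_num) (by norm_num) (by norm_num) (by norm_num) (by norm_num) (by norm_num) (by norm_num) (by norm_num) (by norm_num) (by norm_num) (by norm_num) (by norm_num) (by norm_num) (by norm_num) (by norm_num) (by norm_num) (by norm_num) (by norm_num)
    (cube_sqrt_geJ (s := 0.8127) (by norm_num) (by norm_num) (by norm_num) (by norm_num))
    (cube_sqrt_geJ (s := 0.9355) (by norm_num) (by norm_num) (by norm_num) (by norm_num))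
    (by norm_num) (by norm_num) (by norm_num) (by norm_num) (by norm_num) (by norm_num) (by norm_num) (by norm_num) (by norm_num) (by norm_num) (by norm_num) (by norm_num) (by norm_num) (by norm_num) (by norm_num) (by norm_num) (by norm_num) (by norm_num)
    (exp_neg_leJ (r := 0.374) 6 (by norm_num) (by norm_num) (by norm_num) (by norm_num))
    (exp_neg_leJ (r := 0.211) 4 (by norm_num) (by norm_num) (by norm_num) (by norm_num))
    (exp_neg_leJ (r := 0.678) 8 (by norm_num) (by norm_num) (by norm_num) (by norm_num))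
    (exp_neg_leJ (r := 0.99) 14 (by norm_num) (by norm_num) (by norm_num) (by norm_num))
    (exp_neg_leJ (r := 0.72) 7 (by norm_num) (by norm_num) (by norm_num) (by norm_num))
    (exp_neg_leJ (r := 0.99) 14 (by norm_num) (by norm_num) (by norm_num) (by norm_num))
    (exp_neg_leJ (r := 0.99) 14 (by norm_num) (by norm_num) (by norm_num) (by norm_num))
    (exp_neg_leJ (r := 0.99) 14 (by norm_num) (by norm_num) (by norm_num) (by norm_num))
    (by norm_num)) (by norm_num) hN hβ.le (by norm_num)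

private theorem B5Mo_T52 {β x y : ℝ} (hβ : 0 < β) (hN : β * 7.194 ≤ 1) (hx1 : 1.6713 ≤ x) (hx2 : x ≤ 1.786)
    (hy1 : (-0.2581) ≤ y) (hy2 : y ≤ (-0.2179)) : ‖HH β (x + y * I) - 1‖ ≤ 0.105 := by
  rcases le_total x 1.718 with hxx | hxx
  · exact B5Mo_T52_0_0 hβ hN (by linarith) (by linarith) (by linarith) (by linarith)
  rcases le_total x 1.769 with hxx | hxx
  · exact B5Mo_T52_0_1 hβ hN (by linarith) (by linarith) (by linarith) (by linarith)
  exact B5Mo_T52_0_2 hβ hN (by linarith) (by linarith) (by linarith) (by linarith)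

private theorem B5Mo_G53 {κ : ℝ} (hk1 : 1.36 ≤ κ) (hk2 : κ ≤ 1.39) : gG κ 0.4 ≤ 1.27741 ∧ 0.32889 ≤ Real.exp (-(κ * 0.4)) ^ 2 := by
  refine ⟨gG_le 0.4 1.36 1.39 1.27741 0.58043 0.5735 1.72289 1.74369 hk1 hk2 (by norm_num)
    (ex_um 0.544 (by norm_num) (by norm_num) (by norm_num) (by norm_num)) (ex_um 0.556 (by norm_num) (by norm_num) (by norm_num) (by norm_num))
    (ex_up 0.544 (by norm_num) (by norm_num) (by norm_num) (by norm_num)) (ex_up 0.556 (by norm_num) (by norm_num) (by norm_num) (by norm_num))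
    (by norm_num) (by norm_num), ?_⟩
  exact v5_M 0.57349 (ex_lm 0.556 (by linarith) (by norm_num) (by norm_num) (by norm_num) (by norm_num)) (by norm_num) (by norm_num)

private theorem B5Mo_C54 {β r t κ : ℝ} (hβ : 0 < β) (hr : 10 ≤ r) (hκ : κ = β * r) (hk1 : 1.36 ≤ κ) (hk2 : κ ≤ 1.39) (hta : 1.9854 ≤ t + κ)
    (htb : t + κ ≤ 2.0607) : ‖F (cexp (I * β)) (r * cexp (I * ((t + β / 2 : ℝ) : ℂ)))‖ ≤
      1.7068 * Real.exp (r * (1.27741 - 0.4 * (t + κ))) + 0.2177 * Real.exp (r * 0) :=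
  v5_H 0.4 1.36 1.39 1.9854 2.0607 1.27741 1.6383 0.32889 0.1488 2.166 0.8699 0.09308 0.4003 0.000139 1.7068 0.2177 hβ hr hκ (by norm_num) hk1 hk2 hta htb (by norm_num) (B5Mo_G53 hk1 hk2).1 (B5Mo_G53 hk1 hk2).2 (by norm_num) (by norm_num) (by norm_num)
    (by norm_num) (by norm_num) (by norm_num) (by norm_num) (by norm_num) (by norm_num) (by norm_num) (by norm_num) (ex_un 0 0.9307 (by norm_num) (by norm_num) (by norm_num) (by norm_num))
    (v5_hump 1.2628 7.194 2.6822 0.0001135 0.000139 hβ hr hκ hk1 hk2 (by norm_num) htb (by norm_num) (by norm_num) (by norm_num) (by norm_num) (by norm_num) (by norm_num) (by norm_num) (ex_un 9 0.0845 (by norm_num) (by norm_num) (by norm_num) (by norm_num)) (by norm_num)) (by norm_num) (by norm_num)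

private theorem B5Mo_G55 {κ : ℝ} (hk1 : 1.36 ≤ κ) (hk2 : κ ≤ 1.39) : gG κ (-0.54) ≤ 1.43691 ∧ 4.34388 ≤ Real.exp (-(κ * (-0.54))) ^ 2 := by
  refine ⟨gG_le (-0.54) 1.36 1.39 1.43691 2.08424 2.11828 0.4798 0.47209 hk1 hk2 (by norm_num)
    (ex_up 0.7344 (by norm_num) (by norm_num) (by norm_num) (by norm_num)) (ex_up 0.7506 (by norm_num) (by norm_num) (by norm_num) (by norm_num))
    (ex_um 0.7344 (by norm_num) (by norm_num) (by norm_num) (by norm_num)) (ex_um 0.7506 (by norm_num) (by norm_num) (by norm_num) (by norm_num))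
    (by norm_num) (by norm_num), ?_⟩
  exact v5_M 2.0842 (ex_lp 0.7344 (by linarith) (by norm_num) (by norm_num)) (by norm_num) (by norm_num)

private theorem B5Mo_C56 {β r t κ : ℝ} (hβ : 0 < β) (hr : 10 ≤ r) (hκ : κ = β * r) (hk1 : 1.36 ≤ κ) (hk2 : κ ≤ 1.39) (hta : (-1.7845) ≤ t + κ)
    (htb : t + κ ≤ (-1.7092)) : ‖F (cexp (I * β)) (r * cexp (I * ((t + β / 2 : ℝ) : ℂ)))‖ ≤
      0.7403 * Real.exp (r * (1.43691 - (-0.54) * (t + κ))) + 1.6005 * Real.exp (r * 0.0501) :=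
  v5_HU (-0.54) 1.36 1.39 (-1.7845) (-1.7092) 1.43691 0.7403 4.34388 0.1488 0.6562 1.5374 0 0.0501 0.00000114 1.6005 hβ hr hκ (by norm_num) hk1 hk2 hta htb (by norm_num) (by norm_num) (B5Mo_G55 hk1 hk2).1 (B5Mo_G55 hk1 hk2).2 (by norm_num) (by norm_num) (by norm_num)
    (by norm_num) (by norm_num) (by norm_num) (by norm_num) (by norm_num) (by norm_num) (by norm_num)
    (by norm_num) (by norm_num) (by norm_num) (v5_hump 5.0327 7.194 2.6822 0.0000009316 0.00000114 hβ hr hκ hk1 hk2 (by norm_num) htb (by norm_num) (by norm_num) (by norm_num) (by norm_num) (by norm_num) (by norm_num) (by norm_num) (ex_un 13 0.9 (by norm_num) (by norm_num) (by norm_num) (by norm_num)) (by norm_num)) (by norm_num)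

private theorem B5Mo_C57 {β r t κ : ℝ} (hβ : 0 < β) (hr : 10 ≤ r) (hκ : κ = β * r) (hk1 : 1.36 ≤ κ) (hk2 : κ ≤ 1.39) (hta : 3.242 ≤ t + κ)
    (htb : t + κ ≤ 3.3173) : ‖F (cexp (I * β)) (r * cexp (I * ((t + β / 2 : ℝ) : ℂ)))‖ ≤
      2.0208 * Real.exp (r * (0.01 + 1 / 20)) :=
  v5_UD 1.36 1.39 3.242 3.3173 0.01 0.3421 0.01 1.0535 2.0208 hβ hr hκ (by norm_num) hk1 hk2 hta htb (by norm_num) (by norm_num) (by norm_num) (by norm_num) (by norm_num) (by norm_num) (by norm_num) (by norm_num) (by norm_num) (by norm_num) (by norm_num)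

private theorem B5Mo_Y58 {β r t κ h t' : ℝ} (hβ : 0 < β) (hκ : κ = β * r) (hN : β * 7.194 ≤ 1) (hk1 : 1.36 ≤ κ) (hk2 : κ ≤ 1.39)
    (ht : t' = t + (((0 : ℤ) : ℝ) - 1) * h) (hD : DomR κ t') (hta : (-0.5279) ≤ t' + κ) (htb : t' + κ ≤ (-0.4526)) :
    0.6444 * Real.exp (r * sE κ t') ≤ ‖Xf β r h t 0‖ := by
  obtain ⟨⟨ya, yb⟩, ⟨xa, xb⟩, n1, Da, Db⟩ := B5Mo_B51 hD hk1 hk2 hta htb
  have J := B5Mo_T52 (x := sx κ t') (y := sy κ t') hβ hN (by linarith only [xa, xb, ya, yb]) (by linarith only [xa, xb, ya, yb]) (by linarith only [xa, xb, ya, yb]) (by linarith only [xa, xb, ya, yb])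
  exact v5_Jlo hβ hκ (k := 0) ht hD 0.105 3.7209 0.6444 (by norm_num) J Db (by norm_num)

private theorem B5Mo_V59 {κ t : ℝ} (hD : DomR κ t) (hk1 : 1.36 ≤ κ) (hk2 : κ ≤ 1.39) (hta : (-0.5279) ≤ t + κ) (htb : t + κ ≤ (-0.4526)) :
    1.04379 + 0.1797 * (t + κ) ≤ sE κ t := by
  have hκ0 : 0 < κ := hD.1
  exact v5_V0 hD 1.36 1.39 (-0.5279) (-0.4526) 0.528 0.5222 0.03212 0.16133 0.04322 0.48779 1.04379 0.1797 (by norm_num) hk1 hk2 (by norm_num) hta htb (by norm_num) (by norm_num) (by norm_num) ((cup2 1.36 (by norm_num) hk1).trans (by norm_num))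
      (by norm_num) (by norm_num) (by norm_num) (by norm_num) (by norm_num) (by norm_num) (by norm_num) (by norm_num) (by norm_num) (by norm_num) (by norm_num) (by norm_num) (by norm_num)

private theorem B5Mo_K60 {β r t κ h : ℝ} (hβ : 0 < β) (hr : 10 ≤ r) (hκ : κ = β * r) (hk1 : 1.36 ≤ κ) (hk2 : κ ≤ 1.39)
    (hh : h = 2 * Real.pi / 5) (hh1 : 1.25663 ≤ h) (hh2 : h ≤ 1.25664) (hta : 0.7288 ≤ t + κ) (htb : t + κ ≤ 0.804)
    (hY : 0.6444 * Real.exp (r * sE κ (t - h)) ≤ ‖Xf β r h t 0‖) (hV : 1.04379 + 0.1797 * (t - h + κ) ≤ sE κ (t - h)) :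
    ‖Xf β r h t 2‖ ≤ 0.0254 * ‖Xf β r h t 0‖ := by
  rw [v5_X 2 1 (by push_cast; ring)]
  exact v5_cmp 0.4656 0.00955 0.0253 0.9489 0.00007581 0.0000257 0.0254 hr (B5Mo_C54 (t := t + 1 * h) hβ hr hκ hk1 hk2 (by linarith only [hta, htb, hh1, hh2]) (by linarith only [hta, htb, hh1, hh2])) hY (by norm_num) (by norm_num) (by norm_num) (by norm_num) (by linarith only [hV, hta, htb, hh1, hh2]) (ex_un 4 0.6559 (by norm_num) (by norm_num) (by norm_num) (by norm_num)) (by norm_num) (by norm_num) (by linarith only [hV, hta, htb, hh1, hh2]) (ex_un 9 0.4889 (by norm_num) (by norm_num) (by norm_num) (by norm_num)) (by norm_num) (by norm_num)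

private theorem B5Mo_K61 {β r t κ h : ℝ} (hβ : 0 < β) (hr : 10 ≤ r) (hκ : κ = β * r) (hk1 : 1.36 ≤ κ) (hk2 : κ ≤ 1.39)
    (hh : h = 2 * Real.pi / 5) (hh1 : 1.25663 ≤ h) (hh2 : h ≤ 1.25664) (hta : 0.7288 ≤ t + κ) (htb : t + κ ≤ 0.804)
    (hY : 0.6444 * Real.exp (r * sE κ (t - h)) ≤ ‖Xf β r h t 0‖) (hV : 1.04379 + 0.1797 * (t - h + κ) ≤ sE κ (t - h)) :
    ‖Xf β r h t (-1)‖ ≤ 0.0134 * ‖Xf β r h t 0‖ := by
  rw [v5_X (-1) (-2) (by push_cast; ring)]
  exact v5_cmp 0.4485 0.0113 0.013 0.8988 0.0001273 0.000317 0.0134 hr (B5Mo_C56 (t := t + (-2) * h) hβ hr hκ hk1 hk2 (by linarith only [hta, htb, hh1, hh2]) (by linarith only [hta, htb, hh1, hh2])) hY (by norm_num) (by norm_num) (by norm_num) (by norm_num) (by linarith only [hV, hta, htb, hh1, hh2]) (ex_un 4 0.4849 (by norm_num) (by norm_num) (by norm_num) (by norm_num)) (by norm_num) (by norm_num) (by linarith only [hV, hta, htb, hh1, hh2]) (ex_un 8 0.9879 (by norm_num) (by norm_num)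 (by norm_num) (by norm_num)) (by norm_num) (by norm_num)

private theorem B5Mo_K62 {β r t κ h : ℝ} (hβ : 0 < β) (hr : 10 ≤ r) (hκ : κ = β * r) (hk1 : 1.36 ≤ κ) (hk2 : κ ≤ 1.39)
    (hh : h = 2 * Real.pi / 5) (hh1 : 1.25663 ≤ h) (hh2 : h ≤ 1.25664) (hta : 0.7288 ≤ t + κ) (htb : t + κ ≤ 0.804)
    (hY : 0.6444 * Real.exp (r * sE κ (t - h)) ≤ ‖Xf β r h t 0‖) (hV : 1.04379 + 0.1797 * (t - h + κ) ≤ sE κ (t - h)) :
    ‖Xf β r h t (-2)‖ ≤ 0.000439 * ‖Xf β r h t 0‖ := by
  rw [v5_Xm2 hh]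
  exact v5_cmp0 0.8889 0.0001398 0.000439 hr (B5Mo_C57 (t := t + 2 * h) hβ hr hκ hk1 hk2 (by linarith only [hta, htb, hh1, hh2]) (by linarith only [hta, htb, hh1, hh2])) hY (by norm_num) (by norm_num) (by norm_num) (by linarith only [hV, hta, htb, hh1, hh2]) (ex_un 8 0.8889 (by norm_num) (by norm_num) (by norm_num) (by norm_num)) (by norm_num)

private theorem B5Mo_G63 {κ : ℝ} (hk1 : 1.36 ≤ κ) (hk2 : κ ≤ 1.39) : gG κ 0.22 ≤ 1.07547 ∧ 0.54247 ≤ Real.exp (-(κ * 0.22)) ^ 2 := by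
  refine ⟨gG_le 0.22 1.36 1.39 1.07547 0.74142 0.73654 1.34878 1.35772 hk1 hk2 (by norm_num)
    (ex_um 0.2992 (by norm_num) (by norm_num) (by norm_num) (by norm_num)) (ex_um 0.3058 (by norm_num) (by norm_num) (by norm_num) (by norm_num))
    (ex_up 0.2992 (by norm_num) (by norm_num) (by norm_num) (by norm_num)) (ex_up 0.3058 (by norm_num) (by norm_num) (by norm_num) (by norm_num))
    (by norm_num) (by norm_num), ?_⟩
  exact v5_M 0.73653 (ex_lm 0.3058 (by linarith) (by norm_num) (by norm_num) (by norm_num) (by norm_num)) (by norm_num) (by norm_num)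

private theorem B5Mo_B64 {κ t : ℝ} (h : DomR κ t) (hk1 : 1.36 ≤ κ) (hk2 : κ ≤ 1.39) (ht1 : 0.7287 ≤ t + κ) (ht2 : t + κ ≤ 0.8041) :
    (0.309 ≤ sy κ t ∧ sy κ t ≤ 0.338) ∧ (0.9091 ≤ sx κ t ∧ sx κ t ≤ 0.9727) ∧ κ * Real.exp (-sy κ t) ≤ 1.0206 ∧ 2.6149 ≤ sD κ t ∧ sD κ t ≤ 2.6595 := by
  have hy1 : 0.309 ≤ sy κ t := syR_ge h 1.36 1.39 0.7287 0.309 1.36206 1.36207 0.30278 0.30948 hk1 hk2 (by linarith) (by norm_num) (by norm_num)
    (expn_ge (by norm_num) (by norm_num)) (expn_le (by norm_num) (by norm_num) (by norm_num)) (by norm_num)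
    (by norm_num) (by norm_num) (by norm_num) (by norm_num) (by norm_num) (by norm_num)
  have hy2 : sy κ t ≤ 0.338 := syR_le h 1.36 1.39 0.8041 0.338 1.40214 0.339 0.34095 0.34848 hk1 hk2 (by linarith) (by norm_num) (by norm_num)
    (expn_ge (by norm_num) (by norm_num)) (by norm_num) (by norm_num) (Or.inr ((mul_le_mul_of_nonneg_left (expn_le (E := 1.40215) (by norm_num) (by norm_num) (by norm_num)) (by norm_num)).trans (by norm_num))) (by norm_num) (by norm_num) (by norm_num)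
  have hy1' : 0.309 ≤ sy κ t := by linarith
  have hy2' : sy κ t ≤ 0.338 := by linarith
  have hx1 : 0.9091 ≤ sx κ t := sx_lo h 1.36 0.338 0.3381 0.71319 0.9091 hk1 (by norm_num) hy2' (abs_le.2 ⟨by linarith, by linarith⟩) (ex_lm 0.338 (by norm_num) (by norm_num) (by norm_num) (by norm_num) (by norm_num)) (by norm_num) (by norm_num)
  have hx2 : sx κ t ≤ 0.9727 := sx_hi h 1.39 0.309 0.309 0.73419 0.9727 hk2 hy1' (by norm_num) (le_trans (by linarith) (le_abs_self _)) (ex_um 0.309 (by norm_num) (by norm_num) (by norm_num) (by norm_num)) (by norm_num) (by norm_num)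
  refine ⟨⟨hy1', hy2'⟩, ⟨hx1, hx2⟩, v5_n h 1.39 0.309 0.73419 1.0206 hk2 hy1' (ex_um 0.309 (by norm_num) (by norm_num) (by norm_num) (by norm_num)) (by norm_num), ?_, ?_⟩
  · exact v5_Dlo h 1.36 0.309 0.338 0.309 0.73418 2.6149 (by norm_num) hk1 hy1' hy2' (ex_lm 0.309 (by norm_num) (by norm_num) (by norm_num) (by norm_num) (by norm_num)) (by norm_num) (by norm_num) (by norm_num) (by norm_num)
  · exact v5_Dup h 1.39 0.309 0.338 0.73419 0.7132 2.6595 hk2 hy1' hy2' (ex_um 0.309 (by norm_num) (by norm_num) (by norm_num) (by norm_num)) (ex_um 0.338 (by norm_num) (by norm_num) (by norm_num) (by norm_num)) (by norm_num) (by norm_num) (by norm_num)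

private theorem B5Mo_T65_0_0 {β x y : ℝ} (hβ : 0 < β) (hN : β * 7.194 ≤ 1) (hx1 : 0.909 ≤ x) (hx2 : x ≤ 0.938)
    (hy1 : -0 ≤ y) (hy2 : y ≤ 0.33) : ‖HH β (x + y * I) - 1‖ ≤ 0.08 := by
  refine le_epsJ (C := 0.5753) (N0 := 7.194) (J_boxp 0.909 0.938 0 0.33 0.33 1.3501 0.9944 1.6275 0.8133 0.509 2.6822 7.194 0.7366 2.681 1.393 1.0593 0.675 0.5093 1.3194 3.5465 0.7628 1.7249 1.9733 2.272 0.007805 0.02568 0.00007555 0.0000003101 0.004141 0.000004087 0.0000006843 0.0000003101 0.5753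
    hβ hN hx1 hx2 hy1 hy2 (by norm_num) (by norm_num) (by linarith) (by norm_num) (by norm_num) (by norm_num) (by norm_num) (by norm_num) (by norm_num) (by norm_num) (by norm_num) (by norm_num) (by norm_num) (by norm_num) (by norm_num) (by norm_num) (by norm_num) (by norm_num) (by norm_num) (by norm_num) (by norm_num) (by norm_num) (by norm_num) (by norm_num)
    (cube_sqrt_geJ (s := 0.8686) (by norm_num) (by norm_num) (by norm_num) (by norm_num))
    (cube_sqrt_geJ (s := 0.9538) (by norm_num) (by norm_num) (by norm_num) (by norm_num))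
    (by norm_num) (by norm_num) (by norm_num) (by norm_num) (by norm_num) (by norm_num) (by norm_num) (by norm_num) (by norm_num) (by norm_num) (by norm_num) (by norm_num) (by norm_num) (by norm_num) (by norm_num) (by norm_num) (by norm_num) (by norm_num)
    (exp_neg_leJ (r := 0.855) 4 (by norm_num) (by norm_num) (by norm_num) (by norm_num))
    (exp_neg_leJ (r := 0.663) 3 (by norm_num) (by norm_num) (by norm_num) (by norm_num))
    (exp_neg_leJ (r := 0.491) 9 (by norm_num) (by norm_num) (by norm_num) (by norm_num))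
    (exp_neg_leJ (r := 0.99) 14 (by norm_num) (by norm_num) (by norm_num) (by norm_num))
    (exp_neg_leJ (r := 0.487) 5 (by norm_num) (by norm_num) (by norm_num) (by norm_num))
    (exp_neg_leJ (r := 0.408) 12 (by norm_num) (by norm_num) (by norm_num) (by norm_num))
    (exp_neg_leJ (r := 0.195) 14 (by norm_num) (by norm_num) (by norm_num) (by norm_num))
    (exp_neg_leJ (r := 0.99) 14 (by norm_num) (by norm_num) (by norm_num) (by norm_num))
    (by norm_num)) (by norm_num) hN hβ.le (by norm_num)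

private theorem B5Mo_T65_0_1 {β x y : ℝ} (hβ : 0 < β) (hN : β * 7.194 ≤ 1) (hx1 : 0.938 ≤ x) (hx2 : x ≤ 0.9728)
    (hy1 : -0 ≤ y) (hy2 : y ≤ 0.33) : ‖HH β (x + y * I) - 1‖ ≤ 0.08 := by
  refine le_epsJ (C := 0.5751) (N0 := 7.194) (J_boxp 0.938 0.9728 0 0.33 0.33 1.3705 1.0273 1.6478 0.8001 0.5122 2.6822 7.194 0.7496 2.736 1.401 1.0459 0.6852 0.514 1.3293 3.5269 0.7769 1.7651 2.0313 2.2405 0.007254 0.02482 0.00007038 0.0000003101 0.003741 0.00000306 0.0000004507 0.0000003101 0.5751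
    hβ hN hx1 hx2 hy1 hy2 (by norm_num) (by norm_num) (by linarith) (by norm_num) (by norm_num) (by norm_num) (by norm_num) (by norm_num) (by norm_num) (by norm_num) (by norm_num) (by norm_num) (by norm_num) (by norm_num) (by norm_num) (by norm_num) (by norm_num) (by norm_num) (by norm_num) (by norm_num) (by norm_num) (by norm_num) (by norm_num) (by norm_num)
    (cube_sqrt_geJ (s := 0.8661) (by norm_num) (by norm_num) (by norm_num) (by norm_num))
    (cube_sqrt_geJ (s := 0.953) (by norm_num) (by norm_num) (by norm_num) (by norm_num))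
    (by norm_num) (by norm_num) (by norm_num) (by norm_num) (by norm_num) (by norm_num) (by norm_num) (by norm_num) (by norm_num) (by norm_num) (by norm_num) (by norm_num) (by norm_num) (by norm_num) (by norm_num) (by norm_num) (by norm_num) (by norm_num)
    (exp_neg_leJ (r := 0.929) 4 (by norm_num) (by norm_num) (by norm_num) (by norm_num))
    (exp_neg_leJ (r := 0.697) 3 (by norm_num) (by norm_num) (by norm_num) (by norm_num))
    (exp_neg_leJ (r := 0.562) 9 (by norm_num) (by norm_num) (by norm_num) (by norm_num))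
    (exp_neg_leJ (r := 0.99) 14 (by norm_num) (by norm_num) (by norm_num) (by norm_num))
    (exp_neg_leJ (r := 0.589) 5 (by norm_num) (by norm_num) (by norm_num) (by norm_num))
    (exp_neg_leJ (r := 0.698) 12 (by norm_num) (by norm_num) (by norm_num) (by norm_num))
    (exp_neg_leJ (r := 0.613) 14 (by norm_num) (by norm_num) (by norm_num) (by norm_num))
    (exp_neg_leJ (r := 0.99) 14 (by norm_num) (by norm_num) (by norm_num) (by norm_num))
    (by norm_num)) (by norm_num) hN hβ.le (by norm_num)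

private theorem B5Mo_T65_1_0 {β x y : ℝ} (hβ : 0 < β) (hN : β * 7.194 ≤ 1) (hx1 : 0.909 ≤ x) (hx2 : x ≤ 0.934)
    (hy1 : -0 ≤ y) (hy2 : y ≤ 0.3381) : ‖HH β (x + y * I) - 1‖ ≤ 0.08 := by
  refine le_epsJ (C := 0.5751) (N0 := 7.194) (J_boxp 0.909 0.934 0 0.3381 0.3381 1.3501 0.9934 1.6319 0.8144 0.5097 2.6822 7.194 0.7358 2.678 1.392 1.0608 0.675 0.5094 1.3194 3.548 0.762 1.7241 1.9385 2.2365 0.007805 0.02565 0.00007555 0.0000003101 0.004166 0.000004107 0.0000008811 0.0000003101 0.5751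
    hβ hN hx1 hx2 hy1 hy2 (by norm_num) (by norm_num) (by linarith) (by norm_num) (by norm_num) (by norm_num) (by norm_num) (by norm_num) (by norm_num) (by norm_num) (by norm_num) (by norm_num) (by norm_num) (by norm_num) (by norm_num) (by norm_num) (by norm_num) (by norm_num) (by norm_num) (by norm_num) (by norm_num) (by norm_num) (by norm_num) (by norm_num)
    (cube_sqrt_geJ (s := 0.8687) (by norm_num) (by norm_num) (by norm_num) (by norm_num))
    (cube_sqrt_geJ (s := 0.9538) (by norm_num) (by norm_num) (by norm_num) (by norm_num))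
    (by norm_num) (by norm_num) (by norm_num) (by norm_num) (by norm_num) (by norm_num) (by norm_num) (by norm_num) (by norm_num) (by norm_num) (by norm_num) (by norm_num) (by norm_num) (by norm_num) (by norm_num) (by norm_num) (by norm_num) (by norm_num)
    (exp_neg_leJ (r := 0.855) 4 (by norm_num) (by norm_num) (by norm_num) (by norm_num))
    (exp_neg_leJ (r := 0.664) 3 (by norm_num) (by norm_num) (by norm_num) (by norm_num))
    (exp_neg_leJ (r := 0.491) 9 (by norm_num) (by norm_num) (by norm_num) (by norm_num))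
    (exp_neg_leJ (r := 0.99) 14 (by norm_num) (by norm_num) (by norm_num) (by norm_num))
    (exp_neg_leJ (r := 0.481) 5 (by norm_num) (by norm_num) (by norm_num) (by norm_num))
    (exp_neg_leJ (r := 0.403) 12 (by norm_num) (by norm_num) (by norm_num) (by norm_num))
    (exp_neg_leJ (r := 0.945) 13 (by norm_num) (by norm_num) (by norm_num) (by norm_num))
    (exp_neg_leJ (r := 0.99) 14 (by norm_num) (by norm_num) (by norm_num) (by norm_num))
    (by norm_num)) (by norm_num) hN hβ.le (by norm_num)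

private theorem B5Mo_T65_1_1 {β x y : ℝ} (hβ : 0 < β) (hN : β * 7.194 ≤ 1) (hx1 : 0.934 ≤ x) (hx2 : x ≤ 0.964)
    (hy1 : -0 ≤ y) (hy2 : y ≤ 0.3381) : ‖HH β (x + y * I) - 1‖ ≤ 0.08 := by
  refine le_epsJ (C := 0.5749) (N0 := 7.194) (J_boxp 0.934 0.964 0 0.3381 0.3381 1.3677 1.0216 1.6492 0.8029 0.5124 2.6822 7.194 0.747 2.725 1.4 1.0493 0.6838 0.5135 1.3279 3.5311 0.7742 1.7587 1.9885 2.2099 0.007326 0.0249 0.00007108 0.0000003101 0.003816 0.000003204 0.000000613 0.0000003101 0.5749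
    hβ hN hx1 hx2 hy1 hy2 (by norm_num) (by norm_num) (by linarith) (by norm_num) (by norm_num) (by norm_num) (by norm_num) (by norm_num) (by norm_num) (by norm_num) (by norm_num) (by norm_num) (by norm_num) (by norm_num) (by norm_num) (by norm_num) (by norm_num) (by norm_num) (by norm_num) (by norm_num) (by norm_num) (by norm_num) (by norm_num) (by norm_num)
    (cube_sqrt_geJ (s := 0.8666) (by norm_num) (by norm_num) (by norm_num) (by norm_num))
    (cube_sqrt_geJ (s := 0.9531) (by norm_num) (by norm_num) (by norm_num) (by norm_num))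
    (by norm_num) (by norm_num) (by norm_num) (by norm_num) (by norm_num) (by norm_num) (by norm_num) (by norm_num) (by norm_num) (by norm_num) (by norm_num) (by norm_num) (by norm_num) (by norm_num) (by norm_num) (by norm_num) (by norm_num) (by norm_num)
    (exp_neg_leJ (r := 0.919) 4 (by norm_num) (by norm_num) (by norm_num) (by norm_num))
    (exp_neg_leJ (r := 0.694) 3 (by norm_num) (by norm_num) (by norm_num) (by norm_num))
    (exp_neg_leJ (r := 0.552) 9 (by norm_num) (by norm_num) (by norm_num) (by norm_num))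
    (exp_neg_leJ (r := 0.99) 14 (by norm_num) (by norm_num) (by norm_num) (by norm_num))
    (exp_neg_leJ (r := 0.569) 5 (by norm_num) (by norm_num) (by norm_num) (by norm_num))
    (exp_neg_leJ (r := 0.652) 12 (by norm_num) (by norm_num) (by norm_num) (by norm_num))
    (exp_neg_leJ (r := 0.305) 14 (by norm_num) (by norm_num) (by norm_num) (by norm_num))
    (exp_neg_leJ (r := 0.99) 14 (by norm_num) (by norm_num) (by norm_num) (by norm_num))
    (by norm_num)) (by norm_num) hN hβ.le (by norm_num)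

private theorem B5Mo_T65_1_2 {β x y : ℝ} (hβ : 0 < β) (hN : β * 7.194 ≤ 1) (hx1 : 0.964 ≤ x) (hx2 : x ≤ 0.9728)
    (hy1 : -0 ≤ y) (hy2 : y ≤ 0.3381) : ‖HH β (x + y * I) - 1‖ ≤ 0.08 := by
  refine le_epsJ (C := 0.547) (N0 := 7.194) (J_boxp 0.964 0.9728 0 0.3381 0.3381 1.3888 1.0299 1.6544 0.7859 0.5132 2.6822 7.194 0.7416 2.702 1.396 1.0459 0.6943 0.5227 1.3382 3.5262 0.7887 1.8002 2.0485 2.2473 0.00683 0.02332 0.00006596 0.0000003101 0.00344 0.000002384 0.0000003988 0.0000003101 0.547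
    hβ hN hx1 hx2 hy1 hy2 (by norm_num) (by norm_num) (by linarith) (by norm_num) (by norm_num) (by norm_num) (by norm_num) (by norm_num) (by norm_num) (by norm_num) (by norm_num) (by norm_num) (by norm_num) (by norm_num) (by norm_num) (by norm_num) (by norm_num) (by norm_num) (by norm_num) (by norm_num) (by norm_num) (by norm_num) (by norm_num) (by norm_num)
    (cube_sqrt_geJ (s := 0.8676) (by norm_num) (by norm_num) (by norm_num) (by norm_num))
    (cube_sqrt_geJ (s := 0.9535) (by norm_num) (by norm_num) (by norm_num) (by norm_num))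
    (by norm_num) (by norm_num) (by norm_num) (by norm_num) (by norm_num) (by norm_num) (by norm_num) (by norm_num) (by norm_num) (by norm_num) (by norm_num) (by norm_num) (by norm_num) (by norm_num) (by norm_num) (by norm_num) (by norm_num) (by norm_num)
    (exp_neg_leJ (r := 0.99) 4 (by norm_num) (by norm_num) (by norm_num) (by norm_num))
    (exp_neg_leJ (r := 0.76) 3 (by norm_num) (by norm_num) (by norm_num) (by norm_num))
    (exp_neg_leJ (r := 0.627) 9 (by norm_num) (by norm_num) (by norm_num) (by norm_num))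
    (exp_neg_leJ (r := 0.99) 14 (by norm_num) (by norm_num) (by norm_num) (by norm_num))
    (exp_neg_leJ (r := 0.673) 5 (by norm_num) (by norm_num) (by norm_num) (by norm_num))
    (exp_neg_leJ (r := 0.95) 12 (by norm_num) (by norm_num) (by norm_num) (by norm_num))
    (exp_neg_leJ (r := 0.736) 14 (by norm_num) (by norm_num) (by norm_num) (by norm_num))
    (exp_neg_leJ (r := 0.99) 14 (by norm_num) (by norm_num) (by norm_num) (by norm_num))
    (by norm_num)) (by norm_num) hN hβ.le (by norm_num)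

private theorem B5Mo_T65 {β x y : ℝ} (hβ : 0 < β) (hN : β * 7.194 ≤ 1) (hx1 : 0.909 ≤ x) (hx2 : x ≤ 0.9728)
    (hy1 : 0.3089 ≤ y) (hy2 : y ≤ 0.3381) : ‖HH β (x + y * I) - 1‖ ≤ 0.08 := by
  rcases le_total y 0.33 with hyy | hyy
  · rcases le_total x 0.938 with hxx | hxx
    · exact B5Mo_T65_0_0 hβ hN (by linarith) (by linarith) (by linarith) (by linarith)
    exact B5Mo_T65_0_1 hβ hN (by linarith) (by linarith) (by linarith) (by linarith)
  rcases le_total x 0.934 with hxx | hxx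
  · exact B5Mo_T65_1_0 hβ hN (by linarith) (by linarith) (by linarith) (by linarith)
  rcases le_total x 0.964 with hxx | hxx
  · exact B5Mo_T65_1_1 hβ hN (by linarith) (by linarith) (by linarith) (by linarith)
  exact B5Mo_T65_1_2 hβ hN (by linarith) (by linarith) (by linarith) (by linarith)

private theorem B5Mo_U66 {β r t κ h t' : ℝ} (hβ : 0 < β) (hκ : κ = β * r) (hN : β * 7.194 ≤ 1) (hk1 : 1.36 ≤ κ) (hk2 : κ ≤ 1.39)
    (ht : t' = t + (((1 : ℤ) : ℝ) - 1) * h) (hD : DomR κ t') (hta : 0.7287 ≤ t' + κ) (htb : t' + κ ≤ 0.8041) :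
    ‖Xf β r h t 1‖ ≤ 0.8493 * Real.exp (r * sE κ t') := by
  obtain ⟨⟨ya, yb⟩, ⟨xa, xb⟩, n1, Da, Db⟩ := B5Mo_B64 hD hk1 hk2 hta htb
  have J := B5Mo_T65 (x := sx κ t') (y := sy κ t') hβ hN (by linarith only [xa, xb, ya, yb]) (by linarith only [xa, xb, ya, yb]) (by linarith only [xa, xb, ya, yb]) (by linarith only [xa, xb, ya, yb])
  exact v5_Jup (h := h) (t := t) (k := 1) hβ hκ ht hD 0.08 2.6149 0.8493 J Da (by norm_num) (by norm_num)

private theorem B5Mo_K67 {β r t κ h : ℝ} (hβ : 0 < β) (hr : 10 ≤ r) (hκ : κ = β * r) (hk1 : 1.36 ≤ κ) (hk2 : κ ≤ 1.39)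
    (hh : h = 2 * Real.pi / 5) (hh1 : 1.25663 ≤ h) (hh2 : h ≤ 1.25664) (hta : 0.7288 ≤ t + κ) (htb : t + κ ≤ 0.804) (hN : β * 7.194 ≤ 1)
    (hD : DomR κ t) (hY : 0.6444 * Real.exp (r * sE κ (t - h)) ≤ ‖Xf β r h t 0‖) (hV : 1.04379 + 0.1797 * (t - h + κ) ≤ sE κ (t - h)) :
    ‖Xf β r h t 1‖ ≤ 0.941 * ‖Xf β r h t 0‖ := by
  have hU := B5Mo_U66 (h := h) (t := t) hβ hκ hN hk1 hk2 (by push_cast; ring) hD (by linarith only [hta, htb, hh1, hh2]) (by linarith only [hta, htb, hh1, hh2])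
  have hW := V_up hD 0.22 (B5Mo_G63 hk1 hk2).1
  exact v5_cmpJ 0.0338 0.7136 0.941 hr hU hW hY (by norm_num) (by norm_num) (by norm_num) (by linarith only [hV, hta, htb, hh1, hh2]) (ex_un 0 0.3379 (by norm_num) (by norm_num) (by norm_num) (by norm_num)) (by norm_num)

private theorem B5Mo_O68 {β r t κ h : ℝ} (hβ : 0 < β) (hr : 10 ≤ r) (hκ : κ = β * r) (hk1 : 1.36 ≤ κ) (hk2 : κ ≤ 1.39)
    (hh : h = 2 * Real.pi / 5) (hta : 0.7288 ≤ t + κ) (htb : t + κ ≤ 0.804) :
    ‖Xf β r h t (-2)‖ + ‖Xf β r h t (-1)‖ + ‖Xf β r h t 2‖ < |‖Xf β r h t 1‖ - ‖Xf β r h t 0‖| := by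
  obtain ⟨hh1, hh2⟩ := v5_h hh
  have hκ0 : 0 < κ := by linarith only [hk1]
  have hN : β * 7.194 ≤ 1 := v5_hN 1.39 7.194 hβ hr hκ hk2 (by norm_num) (by norm_num)
  have hD1 : DomR κ t := v5_dom hκ0 (by linarith only [hta, htb, hk1, hk2, hh1, hh2]) (Or.inr (by linarith only [hta, htb, hk1, hk2, hh1, hh2]))
  have hD0 : DomR κ (t - h) := v5_dom hκ0 (by linarith only [hta, htb, hk1, hk2, hh1, hh2]) (Or.inl (by linarith only [hk1]))
  have h0a : (-0.5279) ≤ t - h + κ := by linarith only [hta, htb, hh1, hh2]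
  have h0b : t - h + κ ≤ (-0.4526) := by linarith only [hta, htb, hh1, hh2]
  have e0 : t - h = t + (((0 : ℤ) : ℝ) - 1) * h := by push_cast; ring
  have hY := B5Mo_Y58 (h := h) hβ hκ hN hk1 hk2 e0 hD0 h0a h0b
  have hV := B5Mo_V59 hD0 hk1 hk2 h0a h0b
  have cp2 := B5Mo_K60 hβ hr hκ hk1 hk2 hh hh1 hh2 hta htb hY hV
  have cm1 := B5Mo_K61 hβ hr hκ hk1 hk2 hh hh1 hh2 hta htb hY hV
  have cm2 := B5Mo_K62 hβ hr hκ hk1 hk2 hh hh1 hh2 hta htb hY hV
  have cn1 := B5Mo_K67 hβ hr hκ hk1 hk2 hh hh1 hh2 hta htb hN hD1 hY hV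
  have hp : 0 < ‖Xf β r h t 0‖ := lt_of_lt_of_le (by positivity) hY
  exact v5_out0 _ _ _ _ cm2 cm1 cp2 cn1 hp (by norm_num)

private theorem B5Mo_B69 {κ t : ℝ} (h : DomR κ t) (hk1 : 1.36 ≤ κ) (hk2 : κ ≤ 1.39) (ht1 : (-0.4527) ≤ t + κ) (ht2 : t + κ ≤ (-0.3766)) :
    ((-0.222) ≤ sy κ t ∧ sy κ t ≤ (-0.181)) ∧ (1.6146 ≤ sx κ t ∧ sx κ t ≤ 1.7261) ∧ κ * Real.exp (-sy κ t) ≤ 1.7356 ∧ 3.2943 ≤ sD κ t ∧ sD κ t ≤ 3.5681 := by
  have hy1 : -0.222 ≤ sy κ t := syL_ge h 1.36 1.39 0.4527 0.222 0.80091 0.80092 0.1272 0.12791 0.13074 hk1 hk2 (by linarith) (by norm_num) (by norm_num) (by norm_num)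
    (expm_ge (by norm_num) (by norm_num) (by norm_num) (by norm_num)) (expm_le (by norm_num) (by norm_num) (by norm_num)) (by norm_num)
    (by norm_num) (by norm_num) (by norm_num) (by norm_num) (by norm_num) (by norm_num)
  have hy2 : sy κ t ≤ -0.181 := syL_le h 1.36 1.39 0.3766 0.181 0.83443 0.83444 0.10865 0.11106 hk1 hk2 (by linarith) (by norm_num) (by norm_num) (by norm_num)
    (expm_ge (by norm_num) (by norm_num) (by norm_num) (by norm_num)) (expm_le (by norm_num) (by norm_num) (by norm_num)) (by norm_num)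
    (by norm_num) (by norm_num) (by norm_num) (by norm_num) (by norm_num) (by norm_num)
  have hy1' : (-0.222) ≤ sy κ t := by linarith
  have hy2' : sy κ t ≤ (-0.181) := by linarith
  have hx1 : 1.6146 ≤ sx κ t := sx_lo h 1.36 (-0.181) 0.2221 1.19841 1.6146 hk1 (by norm_num) hy2' (abs_le.2 ⟨by linarith, by linarith⟩) (ex_lp 0.181 (by norm_num) (by norm_num) (by norm_num)) (by norm_num) (by norm_num)
  have hx2 : sx κ t ≤ 1.7261 := sx_hi h 1.39 (-0.222) 0.181 1.24858 1.7261 hk2 hy1' (by norm_num) (le_trans (by linarith) (neg_le_abs _)) (ex_up 0.222 (by norm_num) (by norm_num) (by norm_num) (by norm_num)) (by norm_num) (by norm_num)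
  refine ⟨⟨hy1', hy2'⟩, ⟨hx1, hx2⟩, v5_n h 1.39 (-0.222) 1.24858 1.7356 hk2 hy1' (ex_up 0.222 (by norm_num) (by norm_num) (by norm_num) (by norm_num)) (by norm_num), ?_, ?_⟩
  · exact v5_Dlo h 1.36 (-0.222) (-0.181) (-0.181) 1.19841 3.2943 (by norm_num) hk1 hy1' hy2' (ex_lp 0.181 (by norm_num) (by norm_num) (by norm_num)) (by norm_num) (by norm_num) (by norm_num) (by norm_num)
  · exact v5_Dup h 1.39 (-0.222) (-0.181) 1.24858 1.19842 3.5681 hk2 hy1' hy2' (ex_up 0.222 (by norm_num) (by norm_num) (by norm_num) (by norm_num)) (ex_up 0.181 (by norm_num) (by norm_num) (by norm_num) (by norm_num)) (by norm_num) (by norm_num) (by norm_num)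

private theorem B5Mo_T70_0_0 {β x y : ℝ} (hβ : 0 < β) (hN : β * 7.194 ≤ 1) (hx1 : 1.6145 ≤ x) (hx2 : x ≤ 1.642)
    (hy1 : -0.2221 ≤ y) (hy2 : y ≤ -0.1809) : ‖HH β (x + y * I) - 1‖ ≤ 0.095 := by
  refine le_epsJ (C := 0.6831) (N0 := 7.194) (J_boxp 1.6145 1.642 0.2221 0 (-0.1809) 1.6891 1.657 1.835 0.6171 0.5405 2.6822 7.194 0.981 4 1.566 0.5835 0.8445 0.5683 1.2103 2.4536 1.0178 2.7354 4.1959 3.4368 0.0023 0.01678 0.0001658 0.0000003101 0.0006609 0.0000003101 0.0000003101 0.0000003101 0.6831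
    hβ hN hx1 hx2 hy1 hy2 (by norm_num) (by norm_num) (by linarith) (by norm_num) (by norm_num) (by norm_num) (by norm_num) (by norm_num) (by norm_num) (by norm_num) (by norm_num) (by norm_num) (by norm_num) (by norm_num) (by norm_num) (by norm_num) (by norm_num) (by norm_num) (by norm_num) (by norm_num) (by norm_num) (by norm_num) (by norm_num) (by norm_num)
    (cube_sqrt_geJ (s := 0.8203) (by norm_num) (by norm_num) (by norm_num) (by norm_num))
    (cube_sqrt_geJ (s := 0.938) (by norm_num) (by norm_num) (by norm_num) (by norm_num))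
    (by norm_num) (by norm_num) (by norm_num) (by norm_num) (by norm_num) (by norm_num) (by norm_num) (by norm_num) (by norm_num) (by norm_num) (by norm_num) (by norm_num) (by norm_num) (by norm_num) (by norm_num) (by norm_num) (by norm_num) (by norm_num)
    (exp_neg_leJ (r := 0.075) 6 (by norm_num) (by norm_num) (by norm_num) (by norm_num))
    (exp_neg_leJ (r := 0.088) 4 (by norm_num) (by norm_num) (by norm_num) (by norm_num))
    (exp_neg_leJ (r := 0.706) 8 (by norm_num) (by norm_num) (by norm_num) (by norm_num))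
    (exp_neg_leJ (r := 0.99) 14 (by norm_num) (by norm_num) (by norm_num) (by norm_num))
    (exp_neg_leJ (r := 0.322) 7 (by norm_num) (by norm_num) (by norm_num) (by norm_num))
    (exp_neg_leJ (r := 0.99) 14 (by norm_num) (by norm_num) (by norm_num) (by norm_num))
    (exp_neg_leJ (r := 0.99) 14 (by norm_num) (by norm_num) (by norm_num) (by norm_num))
    (exp_neg_leJ (r := 0.99) 14 (by norm_num) (by norm_num) (by norm_num) (by norm_num))
    (by norm_num)) (by norm_num) hN hβ.le (by norm_num)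

private theorem B5Mo_T70_0_1 {β x y : ℝ} (hβ : 0 < β) (hN : β * 7.194 ≤ 1) (hx1 : 1.642 ≤ x) (hx2 : x ≤ 1.671)
    (hy1 : -0.2221 ≤ y) (hy2 : y ≤ -0.1809) : ‖HH β (x + y * I) - 1‖ ≤ 0.095 := by
  refine le_epsJ (C := 0.6822) (N0 := 7.194) (J_boxp 1.642 1.671 0.2221 0 (-0.1809) 1.7085 1.6857 1.861 0.6109 0.5443 2.6822 7.194 0.9867 4.039 1.57 0.5724 0.8542 0.5732 1.2197 2.4369 1.0312 2.7735 4.2509 3.4138 0.002145 0.0162 0.0001549 0.0000003101 0.0006004 0.0000003101 0.0000003101 0.0000003101 0.6822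
    hβ hN hx1 hx2 hy1 hy2 (by norm_num) (by norm_num) (by linarith) (by norm_num) (by norm_num) (by norm_num) (by norm_num) (by norm_num) (by norm_num) (by norm_num) (by norm_num) (by norm_num) (by norm_num) (by norm_num) (by norm_num) (by norm_num) (by norm_num) (by norm_num) (by norm_num) (by norm_num) (by norm_num) (by norm_num) (by norm_num) (by norm_num)
    (cube_sqrt_geJ (s := 0.8192) (by norm_num) (by norm_num) (by norm_num) (by norm_num))
    (cube_sqrt_geJ (s := 0.9376) (by norm_num) (by norm_num) (by norm_num) (by norm_num))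
    (by norm_num) (by norm_num) (by norm_num) (by norm_num) (by norm_num) (by norm_num) (by norm_num) (by norm_num) (by norm_num) (by norm_num) (by norm_num) (by norm_num) (by norm_num) (by norm_num) (by norm_num) (by norm_num) (by norm_num) (by norm_num)
    (exp_neg_leJ (r := 0.145) 6 (by norm_num) (by norm_num) (by norm_num) (by norm_num))
    (exp_neg_leJ (r := 0.123) 4 (by norm_num) (by norm_num) (by norm_num) (by norm_num))
    (exp_neg_leJ (r := 0.774) 8 (by norm_num) (by norm_num) (by norm_num) (by norm_num))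
    (exp_neg_leJ (r := 0.99) 14 (by norm_num) (by norm_num) (by norm_num) (by norm_num))
    (exp_neg_leJ (r := 0.418) 7 (by norm_num) (by norm_num) (by norm_num) (by norm_num))
    (exp_neg_leJ (r := 0.99) 14 (by norm_num) (by norm_num) (by norm_num) (by norm_num))
    (exp_neg_leJ (r := 0.99) 14 (by norm_num) (by norm_num) (by norm_num) (by norm_num))
    (exp_neg_leJ (r := 0.99) 14 (by norm_num) (by norm_num) (by norm_num) (by norm_num))
    (by norm_num)) (by norm_num) hN hβ.le (by norm_num)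

private theorem B5Mo_T70_0_2 {β x y : ℝ} (hβ : 0 < β) (hN : β * 7.194 ≤ 1) (hx1 : 1.671 ≤ x) (hx2 : x ≤ 1.703)
    (hy1 : -0.2221 ≤ y) (hy2 : y ≤ -0.1809) : ‖HH β (x + y * I) - 1‖ ≤ 0.095 := by
  refine le_epsJ (C := 0.6834) (N0 := 7.194) (J_boxp 1.671 1.703 0.2221 0 (-0.1809) 1.7289 1.7175 1.8898 0.6048 0.5485 2.6822 7.194 0.9935 4.087 1.575 0.5601 0.8644 0.5781 1.2297 2.4185 1.0453 2.8136 4.3089 3.3854 0.001994 0.01564 0.0001443 0.0000003101 0.0005428 0.0000003101 0.0000003101 0.0000003101 0.6834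
    hβ hN hx1 hx2 hy1 hy2 (by norm_num) (by norm_num) (by linarith) (by norm_num) (by norm_num) (by norm_num) (by norm_num) (by norm_num) (by norm_num) (by norm_num) (by norm_num) (by norm_num) (by norm_num) (by norm_num) (by norm_num) (by norm_num) (by norm_num) (by norm_num) (by norm_num) (by norm_num) (by norm_num) (by norm_num) (by norm_num) (by norm_num)
    (cube_sqrt_geJ (s := 0.8178) (by norm_num) (by norm_num) (by norm_num) (by norm_num))
    (cube_sqrt_geJ (s := 0.9372) (by norm_num) (by norm_num) (by norm_num) (by norm_num))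
    (by norm_num) (by norm_num) (by norm_num) (by norm_num) (by norm_num) (by norm_num) (by norm_num) (by norm_num) (by norm_num) (by norm_num) (by norm_num) (by norm_num) (by norm_num) (by norm_num) (by norm_num) (by norm_num) (by norm_num) (by norm_num)
    (exp_neg_leJ (r := 0.218) 6 (by norm_num) (by norm_num) (by norm_num) (by norm_num))
    (exp_neg_leJ (r := 0.158) 4 (by norm_num) (by norm_num) (by norm_num) (by norm_num))
    (exp_neg_leJ (r := 0.846) 8 (by norm_num) (by norm_num) (by norm_num) (by norm_num))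
    (exp_neg_leJ (r := 0.99) 14 (by norm_num) (by norm_num) (by norm_num) (by norm_num))
    (exp_neg_leJ (r := 0.519) 7 (by norm_num) (by norm_num) (by norm_num) (by norm_num))
    (exp_neg_leJ (r := 0.99) 14 (by norm_num) (by norm_num) (by norm_num) (by norm_num))
    (exp_neg_leJ (r := 0.99) 14 (by norm_num) (by norm_num) (by norm_num) (by norm_num))
    (exp_neg_leJ (r := 0.99) 14 (by norm_num) (by norm_num) (by norm_num) (by norm_num))
    (by norm_num)) (by norm_num) hN hβ.le (by norm_num)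

private theorem B5Mo_T70_0_3 {β x y : ℝ} (hβ : 0 < β) (hN : β * 7.194 ≤ 1) (hx1 : 1.703 ≤ x) (hx2 : x ≤ 1.7262)
    (hy1 : -0.2221 ≤ y) (hy2 : y ≤ -0.1809) : ‖HH β (x + y * I) - 1‖ ≤ 0.095 := by
  refine le_epsJ (C := 0.6699) (N0 := 7.194) (J_boxp 1.703 1.7262 0.2221 0 (-0.1809) 1.7515 1.7405 1.9107 0.5964 0.5515 2.6822 7.194 0.9938 4.09 1.575 0.5511 0.8757 0.5856 1.2406 2.4051 1.0608 2.8579 4.3729 3.3868 0.001839 0.01482 0.0001336 0.0000003101 0.0004855 0.0000003101 0.0000003101 0.0000003101 0.6699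
    hβ hN hx1 hx2 hy1 hy2 (by norm_num) (by norm_num) (by linarith) (by norm_num) (by norm_num) (by norm_num) (by norm_num) (by norm_num) (by norm_num) (by norm_num) (by norm_num) (by norm_num) (by norm_num) (by norm_num) (by norm_num) (by norm_num) (by norm_num) (by norm_num) (by norm_num) (by norm_num) (by norm_num) (by norm_num) (by norm_num) (by norm_num)
    (cube_sqrt_geJ (s := 0.8177) (by norm_num) (by norm_num) (by norm_num) (by norm_num))
    (cube_sqrt_geJ (s := 0.9371) (by norm_num) (by norm_num) (by norm_num) (by norm_num))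
    (by norm_num) (by norm_num) (by norm_num) (by norm_num) (by norm_num) (by norm_num) (by norm_num) (by norm_num) (by norm_num) (by norm_num) (by norm_num) (by norm_num) (by norm_num) (by norm_num) (by norm_num) (by norm_num) (by norm_num) (by norm_num)
    (exp_neg_leJ (r := 0.299) 6 (by norm_num) (by norm_num) (by norm_num) (by norm_num))
    (exp_neg_leJ (r := 0.212) 4 (by norm_num) (by norm_num) (by norm_num) (by norm_num))
    (exp_neg_leJ (r := 0.924) 8 (by norm_num) (by norm_num) (by norm_num) (by norm_num))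
    (exp_neg_leJ (r := 0.99) 14 (by norm_num) (by norm_num) (by norm_num) (by norm_num))
    (exp_neg_leJ (r := 0.631) 7 (by norm_num) (by norm_num) (by norm_num) (by norm_num))
    (exp_neg_leJ (r := 0.99) 14 (by norm_num) (by norm_num) (by norm_num) (by norm_num))
    (exp_neg_leJ (r := 0.99) 14 (by norm_num) (by norm_num) (by norm_num) (by norm_num))
    (exp_neg_leJ (r := 0.99) 14 (by norm_num) (by norm_num) (by norm_num) (by norm_num))
    (by norm_num)) (by norm_num) hN hβ.le (by norm_num)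

private theorem B5Mo_T70 {β x y : ℝ} (hβ : 0 < β) (hN : β * 7.194 ≤ 1) (hx1 : 1.6145 ≤ x) (hx2 : x ≤ 1.7262)
    (hy1 : (-0.2221) ≤ y) (hy2 : y ≤ (-0.1809)) : ‖HH β (x + y * I) - 1‖ ≤ 0.095 := by
  rcases le_total x 1.642 with hxx | hxx
  · exact B5Mo_T70_0_0 hβ hN (by linarith) (by linarith) (by linarith) (by linarith)
  rcases le_total x 1.671 with hxx | hxx
  · exact B5Mo_T70_0_1 hβ hN (by linarith) (by linarith) (by linarith) (by linarith)
  rcases le_total x 1.703 with hxx | hxx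
  · exact B5Mo_T70_0_2 hβ hN (by linarith) (by linarith) (by linarith) (by linarith)
  exact B5Mo_T70_0_3 hβ hN (by linarith) (by linarith) (by linarith) (by linarith)

private theorem B5Mo_G71 {κ : ℝ} (hk1 : 1.36 ≤ κ) (hk2 : κ ≤ 1.39) : gG κ 0.41 ≤ 1.29403 ∧ 0.31988 ≤ Real.exp (-(κ * 0.41)) ^ 2 := by
  refine ⟨gG_le 0.41 1.36 1.39 1.29403 0.57259 0.56559 1.74648 1.7681 hk1 hk2 (by norm_num)
    (ex_um 0.5576 (by norm_num) (by norm_num) (by norm_num) (by norm_num)) (ex_um 0.5699 (by norm_num) (by norm_num) (by norm_num) (by norm_num))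
    (ex_up 0.5576 (by norm_num) (by norm_num) (by norm_num) (by norm_num)) (ex_up 0.5699 (by norm_num) (by norm_num) (by norm_num) (by norm_num))
    (by norm_num) (by norm_num), ?_⟩
  exact v5_M 0.56558 (ex_lm 0.5699 (by linarith) (by norm_num) (by norm_num) (by norm_num) (by norm_num)) (by norm_num) (by norm_num)

private theorem B5Mo_C72 {β r t κ : ℝ} (hβ : 0 < β) (hr : 10 ≤ r) (hκ : κ = β * r) (hk1 : 1.36 ≤ κ) (hk2 : κ ≤ 1.39) (hta : 2.0606 ≤ t + κ)
    (htb : t + κ ≤ 2.1367) : ‖F (cexp (I * β)) (r * cexp (I * ((t + β / 2 : ℝ) : ℂ)))‖ ≤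
      1.7676 * Real.exp (r * (1.29403 - 0.41 * (t + κ))) + 0.2155 * Real.exp (r * 0) :=
  v5_H 0.41 1.36 1.39 2.0606 2.1367 1.29403 1.6826 0.31988 0.1488 2.2412 0.7939 0.0801 0.4531 0.00024 1.7676 0.2155 hβ hr hκ (by norm_num) hk1 hk2 hta htb (by norm_num) (B5Mo_G71 hk1 hk2).1 (B5Mo_G71 hk1 hk2).2 (by norm_num) (by norm_num) (by norm_num)
    (by norm_num) (by norm_num) (by norm_num) (by norm_num) (by norm_num) (by norm_num) (by norm_num) (by norm_num) (ex_un 0 0.8009 (by norm_num) (by norm_num) (by norm_num) (by norm_num))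
    (v5_hump 1.1868 7.194 2.6822 0.0001964 0.00024 hβ hr hκ hk1 hk2 (by norm_num) htb (by norm_num) (by norm_num) (by norm_num) (by norm_num) (by norm_num) (by norm_num) (by norm_num) (ex_un 8 0.5378 (by norm_num) (by norm_num) (by norm_num) (by norm_num)) (by norm_num)) (by norm_num) (by norm_num)

private theorem B5Mo_G73 {κ : ℝ} (hk1 : 1.36 ≤ κ) (hk2 : κ ≤ 1.39) : gG κ (-0.52) ≤ 1.4034 ∧ 4.11391 ≤ Real.exp (-(κ * (-0.52))) ^ 2 := by
  refine ⟨gG_le (-0.52) 1.36 1.39 1.4034 2.02831 2.0602 0.49303 0.4854 hk1 hk2 (by norm_num)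
    (ex_up 0.7072 (by norm_num) (by norm_num) (by norm_num) (by norm_num)) (ex_up 0.7228 (by norm_num) (by norm_num) (by norm_num) (by norm_num))
    (ex_um 0.7072 (by norm_num) (by norm_num) (by norm_num) (by norm_num)) (ex_um 0.7228 (by norm_num) (by norm_num) (by norm_num) (by norm_num))
    (by norm_num) (by norm_num), ?_⟩
  exact v5_M 2.02828 (ex_lp 0.7072 (by linarith) (by norm_num) (by norm_num)) (by norm_num) (by norm_num)

private theorem B5Mo_C74 {β r t κ : ℝ} (hβ : 0 < β) (hr : 10 ≤ r) (hκ : κ = β * r) (hk1 : 1.36 ≤ κ) (hk2 : κ ≤ 1.39) (hta : (-1.7093) ≤ t + κ)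
    (htb : t + κ ≤ (-1.6332)) : ‖F (cexp (I * β)) (r * cexp (I * ((t + β / 2 : ℝ) : ℂ)))‖ ≤
      0.7501 * Real.exp (r * (1.4034 - (-0.52) * (t + κ))) + 1.5778 * Real.exp (r * 0.0501) :=
  v5_HU (-0.52) 1.36 1.39 (-1.7093) (-1.6332) 1.4034 0.7501 4.11391 0.1488 0.6562 1.6126 0 0.0501 0.00000114 1.5778 hβ hr hκ (by norm_num) hk1 hk2 hta htb (by norm_num) (by norm_num) (B5Mo_G73 hk1 hk2).1 (B5Mo_G73 hk1 hk2).2 (by norm_num) (by norm_num) (by norm_num)
    (by norm_num) (by norm_num) (by norm_num) (by norm_num) (by norm_num) (by norm_num) (by norm_num)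
    (by norm_num) (by norm_num) (by norm_num) (v5_hump 4.9567 7.194 2.6822 0.0000009316 0.00000114 hβ hr hκ hk1 hk2 (by norm_num) htb (by norm_num) (by norm_num) (by norm_num) (by norm_num) (by norm_num) (by norm_num) (by norm_num) (ex_un 13 0.9 (by norm_num) (by norm_num) (by norm_num) (by norm_num)) (by norm_num)) (by norm_num)

private theorem B5Mo_C75 {β r t κ : ℝ} (hβ : 0 < β) (hr : 10 ≤ r) (hκ : κ = β * r) (hk1 : 1.36 ≤ κ) (hk2 : κ ≤ 1.39) (hta : 3.3172 ≤ t + κ)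
    (htb : t + κ ≤ 3.3933) : ‖F (cexp (I * β)) (r * cexp (I * ((t + β / 2 : ℝ) : ℂ)))‖ ≤
      1.9565 * Real.exp (r * (0.0502 + 1 / 20)) :=
  v5_UD 1.36 1.39 3.3172 3.3933 0.01 0.3421 0.0502 1.02 1.9565 hβ hr hκ (by norm_num) hk1 hk2 hta htb (by norm_num) (by norm_num) (by norm_num) (by norm_num) (by norm_num) (by norm_num) (by norm_num) (by norm_num) (by norm_num) (by norm_num) (by norm_num)

private theorem B5Mo_Y76 {β r t κ h t' : ℝ} (hβ : 0 < β) (hκ : κ = β * r) (hN : β * 7.194 ≤ 1) (hk1 : 1.36 ≤ κ) (hk2 : κ ≤ 1.39)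
    (ht : t' = t + (((0 : ℤ) : ℝ) - 1) * h) (hD : DomR κ t') (hta : (-0.4527) ≤ t' + κ) (htb : t' + κ ≤ (-0.3766)) :
    0.6584 * Real.exp (r * sE κ t') ≤ ‖Xf β r h t 0‖ := by
  obtain ⟨⟨ya, yb⟩, ⟨xa, xb⟩, n1, Da, Db⟩ := B5Mo_B69 hD hk1 hk2 hta htb
  have J := B5Mo_T70 (x := sx κ t') (y := sy κ t') hβ hN (by linarith only [xa, xb, ya, yb]) (by linarith only [xa, xb, ya, yb]) (by linarith only [xa, xb, ya, yb]) (by linarith only [xa, xb, ya, yb])
  exact v5_Jlo hβ hκ (k := 0) ht hD 0.095 3.5681 0.6584 (by norm_num) J Db (by norm_num)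

private theorem B5Mo_V77 {κ t : ℝ} (hD : DomR κ t) (hk1 : 1.36 ≤ κ) (hk2 : κ ≤ 1.39) (hta : (-0.4527) ≤ t + κ) (htb : t + κ ≤ (-0.3766)) :
    1.03099 + 0.1508 * (t + κ) ≤ sE κ t := by
  have hκ0 : 0 < κ := hD.1
  exact v5_V0 hD 1.36 1.39 (-0.4527) (-0.3766) 0.4528 0.5183 0.03212 0.16133 0.04322 0.48779 1.03099 0.1508 (by norm_num) hk1 hk2 (by norm_num) hta htb (by norm_num) (by norm_num) (by norm_num) ((cup2 1.36 (by norm_num) hk1).trans (by norm_num))
      (by norm_num) (by norm_num) (by norm_num) (by norm_num) (by norm_num) (by norm_num) (by norm_num) (by norm_num) (by norm_num) (by norm_num) (by norm_num) (by norm_num) (by norm_num)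

private theorem B5Mo_K78 {β r t κ h : ℝ} (hβ : 0 < β) (hr : 10 ≤ r) (hκ : κ = β * r) (hk1 : 1.36 ≤ κ) (hk2 : κ ≤ 1.39)
    (hh : h = 2 * Real.pi / 5) (hh1 : 1.25663 ≤ h) (hh2 : h ≤ 1.25664) (hta : 0.804 ≤ t + κ) (htb : t + κ ≤ 0.88)
    (hY : 0.6584 * Real.exp (r * sE κ (t - h)) ≤ ‖Xf β r h t 0‖) (hV : 1.03099 + 0.1508 * (t - h + κ) ≤ sE κ (t - h)) :
    ‖Xf β r h t 2‖ ≤ 0.016 * ‖Xf β r h t 0‖ := by
  rw [v5_X 2 1 (by push_cast; ring)]
  exact v5_cmp 0.5135 0.005888 0.0159 0.9627 0.0000662 0.0000217 0.016 hr (B5Mo_C72 (t := t + 1 * h) hβ hr hκ hk1 hk2 (by linarith only [hta, htb, hh1, hh2]) (by linarith only [hta, htb, hh1, hh2])) hY (by norm_num) (by norm_num) (by norm_num) (by norm_num) (by linarith only [hV, hta, htb, hh1, hh2]) (ex_un 5 0.1349 (by norm_num) (by norm_num) (by norm_num) (by norm_num)) (by norm_num) (by norm_num) (by linarith only [hV, hta, htb, hh1, hh2]) (ex_un 9 0.6269 (by norm_num) (by norm_num) (by norm_num)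 (by norm_num)) (by norm_num) (by norm_num)

private theorem B5Mo_K79 {β r t κ h : ℝ} (hβ : 0 < β) (hr : 10 ≤ r) (hκ : κ = β * r) (hk1 : 1.36 ≤ κ) (hk2 : κ ≤ 1.39)
    (hh : h = 2 * Real.pi / 5) (hh1 : 1.25663 ≤ h) (hh2 : h ≤ 1.25664) (hta : 0.804 ≤ t + κ) (htb : t + κ ≤ 0.88)
    (hY : 0.6584 * Real.exp (r * sE κ (t - h)) ≤ ‖Xf β r h t 0‖) (hV : 1.03099 + 0.1508 * (t - h + κ) ≤ sE κ (t - h)) :
    ‖Xf β r h t (-1)‖ ≤ 0.0174 * ‖Xf β r h t 0‖ := by
  rw [v5_X (-1) (-2) (by push_cast; ring)]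
  exact v5_cmp 0.42 0.015 0.0171 0.9126 0.0001089 0.000261 0.0174 hr (B5Mo_C74 (t := t + (-2) * h) hβ hr hκ hk1 hk2 (by linarith only [hta, htb, hh1, hh2]) (by linarith only [hta, htb, hh1, hh2])) hY (by norm_num) (by norm_num) (by norm_num) (by norm_num) (by linarith only [hV, hta, htb, hh1, hh2]) (ex_un 4 0.1999 (by norm_num) (by norm_num) (by norm_num) (by norm_num)) (by norm_num) (by norm_num) (by linarith only [hV, hta, htb, hh1, hh2]) (ex_un 9 0.1259 (by norm_num) (by norm_num) (by norm_num) (by norm_num)) (by norm_num) (by norm_num)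

private theorem B5Mo_K80 {β r t κ h : ℝ} (hβ : 0 < β) (hr : 10 ≤ r) (hκ : κ = β * r) (hk1 : 1.36 ≤ κ) (hk2 : κ ≤ 1.39)
    (hh : h = 2 * Real.pi / 5) (hh1 : 1.25663 ≤ h) (hh2 : h ≤ 1.25664) (hta : 0.804 ≤ t + κ) (htb : t + κ ≤ 0.88)
    (hY : 0.6584 * Real.exp (r * sE κ (t - h)) ≤ ‖Xf β r h t 0‖) (hV : 1.03099 + 0.1508 * (t - h + κ) ≤ sE κ (t - h)) :
    ‖Xf β r h t (-2)‖ ≤ 0.000536 * ‖Xf β r h t 0‖ := by
  rw [v5_Xm2 hh]
  exact v5_cmp0 0.8625 0.0001803 0.000536 hr (B5Mo_C75 (t := t + 2 * h) hβ hr hκ hk1 hk2 (by linarith only [hta, htb, hh1, hh2]) (by linarith only [hta, htb, hh1, hh2])) hY (by norm_num) (by norm_num) (by norm_num) (by linarith only [hV, hta, htb, hh1, hh2]) (ex_un 8 0.6249 (by norm_num) (by norm_num) (by norm_num) (by norm_num)) (by norm_num)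

private theorem B5Mo_G81 {κ : ℝ} (hk1 : 1.36 ≤ κ) (hk2 : κ ≤ 1.39) : gG κ 0.24 ≤ 1.09058 ∧ 0.51314 ≤ Real.exp (-(κ * 0.24)) ^ 2 := by
  refine ⟨gG_le 0.24 1.36 1.39 1.09058 0.72152 0.71635 1.38597 1.39599 hk1 hk2 (by norm_num)
    (ex_um 0.3264 (by norm_num) (by norm_num) (by norm_num) (by norm_num)) (ex_um 0.3336 (by norm_num) (by norm_num) (by norm_num) (by norm_num))
    (ex_up 0.3264 (by norm_num) (by norm_num) (by norm_num) (by norm_num)) (ex_up 0.3336 (by norm_num) (by norm_num) (by norm_num) (by norm_num))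
    (by norm_num) (by norm_num), ?_⟩
  exact v5_M 0.71634 (ex_lm 0.3336 (by linarith) (by norm_num) (by norm_num) (by norm_num) (by norm_num)) (by norm_num) (by norm_num)

private theorem B5Mo_B82 {κ t : ℝ} (h : DomR κ t) (hk1 : 1.36 ≤ κ) (hk2 : κ ≤ 1.39) (ht1 : 0.8039 ≤ t + κ) (ht2 : t + κ ≤ 0.8801) :
    (0.336 ≤ sy κ t ∧ sy κ t ≤ 0.364) ∧ (0.872 ≤ sx κ t ∧ sx κ t ≤ 0.9348) ∧ κ * Real.exp (-sy κ t) ≤ 0.9934 ∧ 2.6165 ≤ sD κ t ∧ sD κ t ≤ 2.661 := by
  have hy1 : 0.336 ≤ sy κ t := syR_ge h 1.36 1.39 0.8039 0.336 1.39933 1.39934 0.33825 0.34572 hk1 hk2 (by linarith) (by norm_num) (by norm_num)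
    (expn_ge (by norm_num) (by norm_num)) (expn_le (by norm_num) (by norm_num) (by norm_num)) (by norm_num)
    (by norm_num) (by norm_num) (by norm_num) (by norm_num) (by norm_num) (by norm_num)
  have hy2 : sy κ t ≤ 0.364 := syR_le h 1.36 1.39 0.8801 0.364 1.43907 0.3747 0.37684 0.38517 hk1 hk2 (by linarith) (by norm_num) (by norm_num)
    (expn_ge (by norm_num) (by norm_num)) (by norm_num) (by norm_num) (Or.inr ((mul_le_mul_of_nonneg_left (expn_le (E := 1.43908) (by norm_num) (by norm_num) (by norm_num)) (by norm_num)).trans (by norm_num))) (by norm_num) (by norm_num) (by norm_num)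
  have hy1' : 0.336 ≤ sy κ t := by linarith
  have hy2' : sy κ t ≤ 0.364 := by linarith
  have hx1 : 0.872 ≤ sx κ t := sx_lo h 1.36 0.364 0.3641 0.69489 0.872 hk1 (by norm_num) hy2' (abs_le.2 ⟨by linarith, by linarith⟩) (ex_lm 0.364 (by norm_num) (by norm_num) (by norm_num) (by norm_num) (by norm_num)) (by norm_num) (by norm_num)
  have hx2 : sx κ t ≤ 0.9348 := sx_hi h 1.39 0.336 0.336 0.71463 0.9348 hk2 hy1' (by norm_num) (le_trans (by linarith) (le_abs_self _)) (ex_um 0.336 (by norm_num) (by norm_num) (by norm_num) (by norm_num)) (by norm_num) (by norm_num)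
  refine ⟨⟨hy1', hy2'⟩, ⟨hx1, hx2⟩, v5_n h 1.39 0.336 0.71463 0.9934 hk2 hy1' (ex_um 0.336 (by norm_num) (by norm_num) (by norm_num) (by norm_num)) (by norm_num), ?_, ?_⟩
  · exact v5_Dlo h 1.36 0.336 0.364 0.336 0.71462 2.6165 (by norm_num) hk1 hy1' hy2' (ex_lm 0.336 (by norm_num) (by norm_num) (by norm_num) (by norm_num) (by norm_num)) (by norm_num) (by norm_num) (by norm_num) (by norm_num)
  · exact v5_Dup h 1.39 0.336 0.364 0.71463 0.6949 2.661 hk2 hy1' hy2' (ex_um 0.336 (by norm_num) (by norm_num) (by norm_num) (by norm_num)) (ex_um 0.364 (by norm_num) (by norm_num) (by norm_num) (by norm_num)) (by norm_num) (by norm_num) (by norm_num)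

private theorem B5Mo_T83_0_0 {β x y : ℝ} (hβ : 0 < β) (hN : β * 7.194 ≤ 1) (hx1 : 0.8719 ≤ x) (hx2 : x ≤ 0.908)
    (hy1 : -0 ≤ y) (hy2 : y ≤ 0.3641) : ‖HH β (x + y * I) - 1‖ ≤ 0.085 := by
  refine le_epsJ (C := 0.6104) (N0 := 7.194) (J_boxp 0.8719 0.908 0 0.3641 0.3641 1.324 0.9783 1.6387 0.8403 0.5107 2.6822 7.194 0.7389 2.691 1.394 1.0708 0.6619 0.4989 1.3067 3.5601 0.7413 1.6701 1.7528 2.0809 0.008567 0.02764 0.00008273 0.0000003101 0.004835 0.000006059 0.000003344 0.0000003166 0.6104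
    hβ hN hx1 hx2 hy1 hy2 (by norm_num) (by norm_num) (by linarith) (by norm_num) (by norm_num) (by norm_num) (by norm_num) (by norm_num) (by norm_num) (by norm_num) (by norm_num) (by norm_num) (by norm_num) (by norm_num) (by norm_num) (by norm_num) (by norm_num) (by norm_num) (by norm_num) (by norm_num) (by norm_num) (by norm_num) (by norm_num) (by norm_num)
    (cube_sqrt_geJ (s := 0.8681) (by norm_num) (by norm_num) (by norm_num) (by norm_num))
    (cube_sqrt_geJ (s := 0.9536) (by norm_num) (by norm_num) (by norm_num) (by norm_num))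
    (by norm_num) (by norm_num) (by norm_num) (by norm_num) (by norm_num) (by norm_num) (by norm_num) (by norm_num) (by norm_num) (by norm_num) (by norm_num) (by norm_num) (by norm_num) (by norm_num) (by norm_num) (by norm_num) (by norm_num) (by norm_num)
    (exp_neg_leJ (r := 0.761) 4 (by norm_num) (by norm_num) (by norm_num) (by norm_num))
    (exp_neg_leJ (r := 0.589) 3 (by norm_num) (by norm_num) (by norm_num) (by norm_num))
    (exp_neg_leJ (r := 0.4) 9 (by norm_num) (by norm_num) (by norm_num) (by norm_num))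
    (exp_neg_leJ (r := 0.99) 14 (by norm_num) (by norm_num) (by norm_num) (by norm_num))
    (exp_neg_leJ (r := 0.332) 5 (by norm_num) (by norm_num) (by norm_num) (by norm_num))
    (exp_neg_leJ (r := 0.014) 12 (by norm_num) (by norm_num) (by norm_num) (by norm_num))
    (exp_neg_leJ (r := 0.609) 12 (by norm_num) (by norm_num) (by norm_num) (by norm_num))
    (exp_neg_leJ (r := 0.969) 14 (by norm_num) (by norm_num) (by norm_num) (by norm_num))
    (by norm_num)) (by norm_num) hN hβ.le (by norm_num)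

private theorem B5Mo_T83_0_1 {β x y : ℝ} (hβ : 0 < β) (hN : β * 7.194 ≤ 1) (hx1 : 0.908 ≤ x) (hx2 : x ≤ 0.9349)
    (hy1 : -0 ≤ y) (hy2 : y ≤ 0.3641) : ‖HH β (x + y * I) - 1‖ ≤ 0.085 := by
  refine le_epsJ (C := 0.5911) (N0 := 7.194) (J_boxp 0.908 0.9349 0 0.3641 0.3641 1.3494 1.0033 1.6538 0.8205 0.5131 2.6822 7.194 0.7436 2.711 1.397 1.0605 0.6746 0.5074 1.319 3.545 0.7589 1.72 1.825 2.0851 0.00782 0.02601 0.00007577 0.0000003101 0.004259 0.000004232 0.000001987 0.0000003101 0.5911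
    hβ hN hx1 hx2 hy1 hy2 (by norm_num) (by norm_num) (by linarith) (by norm_num) (by norm_num) (by norm_num) (by norm_num) (by norm_num) (by norm_num) (by norm_num) (by norm_num) (by norm_num) (by norm_num) (by norm_num) (by norm_num) (by norm_num) (by norm_num) (by norm_num) (by norm_num) (by norm_num) (by norm_num) (by norm_num) (by norm_num) (by norm_num)
    (cube_sqrt_geJ (s := 0.8672) (by norm_num) (by norm_num) (by norm_num) (by norm_num))
    (cube_sqrt_geJ (s := 0.9533) (by norm_num) (by norm_num) (by norm_num) (by norm_num))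
    (by norm_num) (by norm_num) (by norm_num) (by norm_num) (by norm_num) (by norm_num) (by norm_num) (by norm_num) (by norm_num) (by norm_num) (by norm_num) (by norm_num) (by norm_num) (by norm_num) (by norm_num) (by norm_num) (by norm_num) (by norm_num)
    (exp_neg_leJ (r := 0.853) 4 (by norm_num) (by norm_num) (by norm_num) (by norm_num))
    (exp_neg_leJ (r := 0.65) 3 (by norm_num) (by norm_num) (by norm_num) (by norm_num))
    (exp_neg_leJ (r := 0.488) 9 (by norm_num) (by norm_num) (by norm_num) (by norm_num))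
    (exp_neg_leJ (r := 0.99) 14 (by norm_num) (by norm_num) (by norm_num) (by norm_num))
    (exp_neg_leJ (r := 0.459) 5 (by norm_num) (by norm_num) (by norm_num) (by norm_num))
    (exp_neg_leJ (r := 0.373) 12 (by norm_num) (by norm_num) (by norm_num) (by norm_num))
    (exp_neg_leJ (r := 0.129) 13 (by norm_num) (by norm_num) (by norm_num) (by norm_num))
    (exp_neg_leJ (r := 0.99) 14 (by norm_num) (by norm_num) (by norm_num) (by norm_num))
    (by norm_num)) (by norm_num) hN hβ.le (by norm_num)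

private theorem B5Mo_T83 {β x y : ℝ} (hβ : 0 < β) (hN : β * 7.194 ≤ 1) (hx1 : 0.8719 ≤ x) (hx2 : x ≤ 0.9349)
    (hy1 : 0.3359 ≤ y) (hy2 : y ≤ 0.3641) : ‖HH β (x + y * I) - 1‖ ≤ 0.085 := by
  rcases le_total x 0.908 with hxx | hxx
  · exact B5Mo_T83_0_0 hβ hN (by linarith) (by linarith) (by linarith) (by linarith)
  exact B5Mo_T83_0_1 hβ hN (by linarith) (by linarith) (by linarith) (by linarith)

private theorem B5Mo_U84 {β r t κ h t' : ℝ} (hβ : 0 < β) (hκ : κ = β * r) (hN : β * 7.194 ≤ 1) (hk1 : 1.36 ≤ κ) (hk2 : κ ≤ 1.39)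
    (ht : t' = t + (((1 : ℤ) : ℝ) - 1) * h) (hD : DomR κ t') (hta : 0.8039 ≤ t' + κ) (htb : t' + κ ≤ 0.8801) :
    ‖Xf β r h t 1‖ ≤ 0.8531 * Real.exp (r * sE κ t') := by
  obtain ⟨⟨ya, yb⟩, ⟨xa, xb⟩, n1, Da, Db⟩ := B5Mo_B82 hD hk1 hk2 hta htb
  have J := B5Mo_T83 (x := sx κ t') (y := sy κ t') hβ hN (by linarith only [xa, xb, ya, yb]) (by linarith only [xa, xb, ya, yb]) (by linarith only [xa, xb, ya, yb]) (by linarith only [xa, xb, ya, yb])
  exact v5_Jup (h := h) (t := t) (k := 1) hβ hκ ht hD 0.085 2.6165 0.8531 J Da (by norm_num) (by norm_num)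

private theorem B5Mo_K85 {β r t κ h : ℝ} (hβ : 0 < β) (hr : 10 ≤ r) (hκ : κ = β * r) (hk1 : 1.36 ≤ κ) (hk2 : κ ≤ 1.39)
    (hh : h = 2 * Real.pi / 5) (hh1 : 1.25663 ≤ h) (hh2 : h ≤ 1.25664) (hta : 0.804 ≤ t + κ) (htb : t + κ ≤ 0.88) (hN : β * 7.194 ≤ 1)
    (hD : DomR κ t) (hY : 0.6584 * Real.exp (r * sE κ (t - h)) ≤ ‖Xf β r h t 0‖) (hV : 1.03099 + 0.1508 * (t - h + κ) ≤ sE κ (t - h)) :
    ‖Xf β r h t 1‖ ≤ 0.679 * ‖Xf β r h t 0‖ := by
  have hU := B5Mo_U84 (h := h) (t := t) hβ hκ hN hk1 hk2 (by push_cast; ring) hD (by linarith only [hta, htb, hh1, hh2]) (by linarith only [hta, htb, hh1, hh2])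
  have hW := V_up hD 0.24 (B5Mo_G81 hk1 hk2).1
  exact v5_cmpJ 0.0651 0.524 0.679 hr hU hW hY (by norm_num) (by norm_num) (by norm_num) (by linarith only [hV, hta, htb, hh1, hh2]) (ex_un 0 0.6509 (by norm_num) (by norm_num) (by norm_num) (by norm_num)) (by norm_num)

private theorem B5Mo_O86 {β r t κ h : ℝ} (hβ : 0 < β) (hr : 10 ≤ r) (hκ : κ = β * r) (hk1 : 1.36 ≤ κ) (hk2 : κ ≤ 1.39)
    (hh : h = 2 * Real.pi / 5) (hta : 0.804 ≤ t + κ) (htb : t + κ ≤ 0.88) :
    ‖Xf β r h t (-2)‖ + ‖Xf β r h t (-1)‖ + ‖Xf β r h t 2‖ < |‖Xf β r h t 1‖ - ‖Xf β r h t 0‖| := by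
  obtain ⟨hh1, hh2⟩ := v5_h hh
  have hκ0 : 0 < κ := by linarith only [hk1]
  have hN : β * 7.194 ≤ 1 := v5_hN 1.39 7.194 hβ hr hκ hk2 (by norm_num) (by norm_num)
  have hD1 : DomR κ t := v5_dom hκ0 (by linarith only [hta, htb, hk1, hk2, hh1, hh2]) (Or.inr (by linarith only [hta, htb, hk1, hk2, hh1, hh2]))
  have hD0 : DomR κ (t - h) := v5_dom hκ0 (by linarith only [hta, htb, hk1, hk2, hh1, hh2]) (Or.inl (by linarith only [hk1]))
  have h0a : (-0.4527) ≤ t - h + κ := by linarith only [hta, htb, hh1, hh2]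
  have h0b : t - h + κ ≤ (-0.3766) := by linarith only [hta, htb, hh1, hh2]
  have e0 : t - h = t + (((0 : ℤ) : ℝ) - 1) * h := by push_cast; ring
  have hY := B5Mo_Y76 (h := h) hβ hκ hN hk1 hk2 e0 hD0 h0a h0b
  have hV := B5Mo_V77 hD0 hk1 hk2 h0a h0b
  have cp2 := B5Mo_K78 hβ hr hκ hk1 hk2 hh hh1 hh2 hta htb hY hV
  have cm1 := B5Mo_K79 hβ hr hκ hk1 hk2 hh hh1 hh2 hta htb hY hV
  have cm2 := B5Mo_K80 hβ hr hκ hk1 hk2 hh hh1 hh2 hta htb hY hV
  have cn1 := B5Mo_K85 hβ hr hκ hk1 hk2 hh hh1 hh2 hta htb hN hD1 hY hV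
  have hp : 0 < ‖Xf β r h t 0‖ := lt_of_lt_of_le (by positivity) hY
  exact v5_out0 _ _ _ _ cm2 cm1 cp2 cn1 hp (by norm_num)

private theorem B5Mo_B87 {κ t : ℝ} (h : DomR κ t) (hk1 : 1.36 ≤ κ) (hk2 : κ ≤ 1.39) (ht1 : (-0.3767) ≤ t + κ) (ht2 : t + κ ≤ (-0.1886)) :
    ((-0.184) ≤ sy κ t ∧ sy κ t ≤ (-0.09)) ∧ (1.4766 ≤ sx κ t ∧ sx κ t ≤ 1.6684) ∧ κ * Real.exp (-sy κ t) ≤ 1.6709 ∧ 3.0343 ≤ sD κ t ∧ sD κ t ≤ 3.4236 := by
  have hy1 : -0.184 ≤ sy κ t := syL_ge h 1.36 1.39 0.3767 0.184 0.83193 0.83194 0.1095 0.11012 0.11256 hk1 hk2 (by linarith) (by norm_num) (by norm_num) (by norm_num)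
    (expm_ge (by norm_num) (by norm_num) (by norm_num) (by norm_num)) (expm_le (by norm_num) (by norm_num) (by norm_num)) (by norm_num)
    (by norm_num) (by norm_num) (by norm_num) (by norm_num) (by norm_num) (by norm_num)
  have hy2 : sy κ t ≤ -0.09 := syL_le h 1.36 1.39 0.1886 0.09 0.91393 0.91394 0.05917 0.06049 hk1 hk2 (by linarith) (by norm_num) (by norm_num) (by norm_num)
    (expm_ge (by norm_num) (by norm_num) (by norm_num) (by norm_num)) (expm_le (by norm_num) (by norm_num) (by norm_num)) (by norm_num)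
    (by norm_num) (by norm_num) (by norm_num) (by norm_num) (by norm_num) (by norm_num)
  have hy1' : (-0.184) ≤ sy κ t := by linarith
  have hy2' : sy κ t ≤ (-0.09) := by linarith
  have hx1 : 1.4766 ≤ sx κ t := sx_lo h 1.36 (-0.09) 0.1841 1.09417 1.4766 hk1 (by norm_num) hy2' (abs_le.2 ⟨by linarith, by linarith⟩) (ex_lp 0.09 (by norm_num) (by norm_num) (by norm_num)) (by norm_num) (by norm_num)
  have hx2 : sx κ t ≤ 1.6684 := sx_hi h 1.39 (-0.184) 0.09 1.20202 1.6684 hk2 hy1' (by norm_num) (le_trans (by linarith) (neg_le_abs _)) (ex_up 0.184 (by norm_num) (by norm_num) (by norm_num) (by norm_num)) (by norm_num) (by norm_num)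
  refine ⟨⟨hy1', hy2'⟩, ⟨hx1, hx2⟩, v5_n h 1.39 (-0.184) 1.20202 1.6709 hk2 hy1' (ex_up 0.184 (by norm_num) (by norm_num) (by norm_num) (by norm_num)) (by norm_num), ?_, ?_⟩
  · exact v5_Dlo h 1.36 (-0.184) (-0.09) (-0.09) 1.09417 3.0343 (by norm_num) hk1 hy1' hy2' (ex_lp 0.09 (by norm_num) (by norm_num) (by norm_num)) (by norm_num) (by norm_num) (by norm_num) (by norm_num)
  · exact v5_Dup h 1.39 (-0.184) (-0.09) 1.20202 1.09418 3.4236 hk2 hy1' hy2' (ex_up 0.184 (by norm_num) (by norm_num) (by norm_num) (by norm_num)) (ex_up 0.09 (by norm_num) (by norm_num) (by norm_num) (by norm_num)) (by norm_num) (by norm_num) (by norm_num)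

private theorem B5Mo_T88_0_0 {β x y : ℝ} (hβ : 0 < β) (hN : β * 7.194 ≤ 1) (hx1 : 1.4765 ≤ x) (hx2 : x ≤ 1.531)
    (hy1 : -0.1841 ≤ y) (hy2 : y ≤ -0.0899) : ‖HH β (x + y * I) - 1‖ ≤ 0.095 := by
  refine le_epsJ (C := 0.6822) (N0 := 7.194) (J_boxp 1.4765 1.531 0.1841 0 (-0.0899) 1.619 1.5421 1.7811 0.6479 0.5325 2.6822 7.194 0.9526 3.809 1.544 0.6613 0.8094 0.5524 1.2231 2.6381 0.9716 2.5443 4.0232 3.4732 0.002967 0.01888 0.0001513 0.0000003101 0.0009253 0.0000003101 0.0000003101 0.0000003101 0.6822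
    hβ hN hx1 hx2 hy1 hy2 (by norm_num) (by norm_num) (by linarith) (by norm_num) (by norm_num) (by norm_num) (by norm_num) (by norm_num) (by norm_num) (by norm_num) (by norm_num) (by norm_num) (by norm_num) (by norm_num) (by norm_num) (by norm_num) (by norm_num) (by norm_num) (by norm_num) (by norm_num) (by norm_num) (by norm_num) (by norm_num) (by norm_num)
    (cube_sqrt_geJ (s := 0.8261) (by norm_num) (by norm_num) (by norm_num) (by norm_num))
    (cube_sqrt_geJ (s := 0.9398) (by norm_num) (by norm_num) (by norm_num) (by norm_num))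
    (by norm_num) (by norm_num) (by norm_num) (by norm_num) (by norm_num) (by norm_num) (by norm_num) (by norm_num) (by norm_num) (by norm_num) (by norm_num) (by norm_num) (by norm_num) (by norm_num) (by norm_num) (by norm_num) (by norm_num) (by norm_num)
    (exp_neg_leJ (r := 0.822) 5 (by norm_num) (by norm_num) (by norm_num) (by norm_num))
    (exp_neg_leJ (r := 0.973) 3 (by norm_num) (by norm_num) (by norm_num) (by norm_num))
    (exp_neg_leJ (r := 0.798) 8 (by norm_num) (by norm_num) (by norm_num) (by norm_num))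
    (exp_neg_leJ (r := 0.99) 14 (by norm_num) (by norm_num) (by norm_num) (by norm_num))
    (exp_neg_leJ (r := 0.989) 6 (by norm_num) (by norm_num) (by norm_num) (by norm_num))
    (exp_neg_leJ (r := 0.99) 14 (by norm_num) (by norm_num) (by norm_num) (by norm_num))
    (exp_neg_leJ (r := 0.99) 14 (by norm_num) (by norm_num) (by norm_num) (by norm_num))
    (exp_neg_leJ (r := 0.99) 14 (by norm_num) (by norm_num) (by norm_num) (by norm_num))
    (by norm_num)) (by norm_num) hN hβ.le (by norm_num)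

private theorem B5Mo_T88_0_1 {β x y : ℝ} (hβ : 0 < β) (hN : β * 7.194 ≤ 1) (hx1 : 1.531 ≤ x) (hx2 : x ≤ 1.591)
    (hy1 : -0.1841 ≤ y) (hy2 : y ≤ -0.0899) : ‖HH β (x + y * I) - 1‖ ≤ 0.095 := by
  refine le_epsJ (C := 0.6831) (N0 := 7.194) (J_boxp 1.531 1.591 0.1841 0 (-0.0899) 1.6573 1.6017 1.833 0.6346 0.5402 2.6822 7.194 0.9665 3.901 1.555 0.6382 0.8286 0.5616 1.2417 2.6035 0.998 2.6198 4.1322 3.4201 0.002588 0.0176 0.0001325 0.0000003101 0.0007625 0.0000003101 0.0000003101 0.0000003101 0.6831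
    hβ hN hx1 hx2 hy1 hy2 (by norm_num) (by norm_num) (by linarith) (by norm_num) (by norm_num) (by norm_num) (by norm_num) (by norm_num) (by norm_num) (by norm_num) (by norm_num) (by norm_num) (by norm_num) (by norm_num) (by norm_num) (by norm_num) (by norm_num) (by norm_num) (by norm_num) (by norm_num) (by norm_num) (by norm_num) (by norm_num) (by norm_num)
    (cube_sqrt_geJ (s := 0.8233) (by norm_num) (by norm_num) (by norm_num) (by norm_num))
    (cube_sqrt_geJ (s := 0.9389) (by norm_num) (by norm_num) (by norm_num) (by norm_num))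
    (by norm_num) (by norm_num) (by norm_num) (by norm_num) (by norm_num) (by norm_num) (by norm_num) (by norm_num) (by norm_num) (by norm_num) (by norm_num) (by norm_num) (by norm_num) (by norm_num) (by norm_num) (by norm_num) (by norm_num) (by norm_num)
    (exp_neg_leJ (r := 0.96) 5 (by norm_num) (by norm_num) (by norm_num) (by norm_num))
    (exp_neg_leJ (r := 0.04) 4 (by norm_num) (by norm_num) (by norm_num) (by norm_num))
    (exp_neg_leJ (r := 0.932) 8 (by norm_num) (by norm_num) (by norm_num) (by norm_num))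
    (exp_neg_leJ (r := 0.99) 14 (by norm_num) (by norm_num) (by norm_num) (by norm_num))
    (exp_neg_leJ (r := 0.179) 7 (by norm_num) (by norm_num) (by norm_num) (by norm_num))
    (exp_neg_leJ (r := 0.99) 14 (by norm_num) (by norm_num) (by norm_num) (by norm_num))
    (exp_neg_leJ (r := 0.99) 14 (by norm_num) (by norm_num) (by norm_num) (by norm_num))
    (exp_neg_leJ (r := 0.99) 14 (by norm_num) (by norm_num) (by norm_num) (by norm_num))
    (by norm_num)) (by norm_num) hN hβ.le (by norm_num)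

private theorem B5Mo_T88_0_2 {β x y : ℝ} (hβ : 0 < β) (hN : β * 7.194 ≤ 1) (hx1 : 1.591 ≤ x) (hx2 : x ≤ 1.656)
    (hy1 : -0.1841 ≤ y) (hy2 : y ≤ -0.0899) : ‖HH β (x + y * I) - 1‖ ≤ 0.095 := by
  refine le_epsJ (C := 0.6834) (N0 := 7.194) (J_boxp 1.591 1.656 0.1841 0 (-0.0899) 1.6996 1.6663 1.8897 0.6205 0.5485 2.6822 7.194 0.9805 3.996 1.565 0.6132 0.8497 0.572 1.2623 2.566 1.0272 2.7029 4.2522 3.3645 0.002217 0.01635 0.000114 0.0000003101 0.0006181 0.0000003101 0.0000003101 0.0000003101 0.6834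
    hβ hN hx1 hx2 hy1 hy2 (by norm_num) (by norm_num) (by linarith) (by norm_num) (by norm_num) (by norm_num) (by norm_num) (by norm_num) (by norm_num) (by norm_num) (by norm_num) (by norm_num) (by norm_num) (by norm_num) (by norm_num) (by norm_num) (by norm_num) (by norm_num) (by norm_num) (by norm_num) (by norm_num) (by norm_num) (by norm_num) (by norm_num)
    (cube_sqrt_geJ (s := 0.8204) (by norm_num) (by norm_num) (by norm_num) (by norm_num))
    (cube_sqrt_geJ (s := 0.938) (by norm_num) (by norm_num) (by norm_num) (by norm_num))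
    (by norm_num) (by norm_num) (by norm_num) (by norm_num) (by norm_num) (by norm_num) (by norm_num) (by norm_num) (by norm_num) (by norm_num) (by norm_num) (by norm_num) (by norm_num) (by norm_num) (by norm_num) (by norm_num) (by norm_num) (by norm_num)
    (exp_neg_leJ (r := 0.112) 6 (by norm_num) (by norm_num) (by norm_num) (by norm_num))
    (exp_neg_leJ (r := 0.114) 4 (by norm_num) (by norm_num) (by norm_num) (by norm_num))
    (exp_neg_leJ (r := 0.08) 9 (by norm_num) (by norm_num) (by norm_num) (by norm_num))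
    (exp_neg_leJ (r := 0.99) 14 (by norm_num) (by norm_num) (by norm_num) (by norm_num))
    (exp_neg_leJ (r := 0.389) 7 (by norm_num) (by norm_num) (by norm_num) (by norm_num))
    (exp_neg_leJ (r := 0.99) 14 (by norm_num) (by norm_num) (by norm_num) (by norm_num))
    (exp_neg_leJ (r := 0.99) 14 (by norm_num) (by norm_num) (by norm_num) (by norm_num))
    (exp_neg_leJ (r := 0.99) 14 (by norm_num) (by norm_num) (by norm_num) (by norm_num))
    (by norm_num)) (by norm_num) hN hβ.le (by norm_num)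

private theorem B5Mo_T88_0_3 {β x y : ℝ} (hβ : 0 < β) (hN : β * 7.194 ≤ 1) (hx1 : 1.656 ≤ x) (hx2 : x ≤ 1.6685)
    (hy1 : -0.1841 ≤ y) (hy2 : y ≤ -0.0899) : ‖HH β (x + y * I) - 1‖ ≤ 0.095 := by
  refine le_epsJ (C := 0.6177) (N0 := 7.194) (J_boxp 1.656 1.6685 0.1841 0 (-0.0899) 1.7453 1.6787 1.9006 0.598 0.55 2.6822 7.194 0.9619 3.87 1.551 0.6084 0.8726 0.5928 1.2845 2.5588 1.0588 2.7929 4.3822 3.4608 0.00188 0.01407 0.00009708 0.0000003101 0.0004923 0.0000003101 0.0000003101 0.0000003101 0.6177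
    hβ hN hx1 hx2 hy1 hy2 (by norm_num) (by norm_num) (by linarith) (by norm_num) (by norm_num) (by norm_num) (by norm_num) (by norm_num) (by norm_num) (by norm_num) (by norm_num) (by norm_num) (by norm_num) (by norm_num) (by norm_num) (by norm_num) (by norm_num) (by norm_num) (by norm_num) (by norm_num) (by norm_num) (by norm_num) (by norm_num) (by norm_num)
    (cube_sqrt_geJ (s := 0.8242) (by norm_num) (by norm_num) (by norm_num) (by norm_num))
    (cube_sqrt_geJ (s := 0.9392) (by norm_num) (by norm_num) (by norm_num) (by norm_num))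
    (by norm_num) (by norm_num) (by norm_num) (by norm_num) (by norm_num) (by norm_num) (by norm_num) (by norm_num) (by norm_num) (by norm_num) (by norm_num) (by norm_num) (by norm_num) (by norm_num) (by norm_num) (by norm_num) (by norm_num) (by norm_num)
    (exp_neg_leJ (r := 0.277) 6 (by norm_num) (by norm_num) (by norm_num) (by norm_num))
    (exp_neg_leJ (r := 0.264) 4 (by norm_num) (by norm_num) (by norm_num) (by norm_num))
    (exp_neg_leJ (r := 0.24) 9 (by norm_num) (by norm_num) (by norm_num) (by norm_num))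
    (exp_neg_leJ (r := 0.99) 14 (by norm_num) (by norm_num) (by norm_num) (by norm_num))
    (exp_neg_leJ (r := 0.617) 7 (by norm_num) (by norm_num) (by norm_num) (by norm_num))
    (exp_neg_leJ (r := 0.99) 14 (by norm_num) (by norm_num) (by norm_num) (by norm_num))
    (exp_neg_leJ (r := 0.99) 14 (by norm_num) (by norm_num) (by norm_num) (by norm_num))
    (exp_neg_leJ (r := 0.99) 14 (by norm_num) (by norm_num) (by norm_num) (by norm_num))
    (by norm_num)) (by norm_num) hN hβ.le (by norm_num)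

private theorem B5Mo_T88 {β x y : ℝ} (hβ : 0 < β) (hN : β * 7.194 ≤ 1) (hx1 : 1.4765 ≤ x) (hx2 : x ≤ 1.6685)
    (hy1 : (-0.1841) ≤ y) (hy2 : y ≤ (-0.0899)) : ‖HH β (x + y * I) - 1‖ ≤ 0.095 := by
  rcases le_total x 1.531 with hxx | hxx
  · exact B5Mo_T88_0_0 hβ hN (by linarith) (by linarith) (by linarith) (by linarith)
  rcases le_total x 1.591 with hxx | hxx
  · exact B5Mo_T88_0_1 hβ hN (by linarith) (by linarith) (by linarith) (by linarith)
  rcases le_total x 1.656 with hxx | hxx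
  · exact B5Mo_T88_0_2 hβ hN (by linarith) (by linarith) (by linarith) (by linarith)
  exact B5Mo_T88_0_3 hβ hN (by linarith) (by linarith) (by linarith) (by linarith)

private theorem B5Mo_C89 {β r t κ : ℝ} (hβ : 0 < β) (hr : 10 ≤ r) (hκ : κ = β * r) (hk1 : 1.36 ≤ κ) (hk2 : κ ≤ 1.39) (hta : 2.1366 ≤ t + κ)
    (htb : t + κ ≤ 2.3247) : ‖F (cexp (I * β)) (r * cexp (I * ((t + β / 2 : ℝ) : ℂ)))‖ ≤
      1.7939 * Real.exp (r * (1.29403 - 0.41 * (t + κ))) + 0.214 * Real.exp (r * 0) :=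
  v5_H 0.41 1.36 1.39 2.1366 2.3247 1.29403 1.6826 0.31988 0.1488 2.3172 0.6059 0.0801 0.4531 0.000924 1.7939 0.214 hβ hr hκ (by norm_num) hk1 hk2 hta htb (by norm_num) (B5Mo_G71 hk1 hk2).1 (B5Mo_G71 hk1 hk2).2 (by norm_num) (by norm_num) (by norm_num)
    (by norm_num) (by norm_num) (by norm_num) (by norm_num) (by norm_num) (by norm_num) (by norm_num) (by norm_num) (ex_un 0 0.8009 (by norm_num) (by norm_num) (by norm_num) (by norm_num))
    (v5_hump 0.9988 7.194 2.6822 0.0007577 0.000924 hβ hr hκ hk1 hk2 (by norm_num) htb (by norm_num) (by norm_num) (by norm_num) (by norm_num) (by norm_num) (by norm_num) (by norm_num) (ex_un 7 0.1853 (by norm_num) (by norm_num) (by norm_num) (by norm_num)) (by norm_num)) (by norm_num) (by norm_num)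

private theorem B5Mo_G90 {κ : ℝ} (hk1 : 1.36 ≤ κ) (hk2 : κ ≤ 1.39) : gG κ (-0.48) ≤ 1.34102 ∧ 3.68985 ≤ Real.exp (-(κ * (-0.48))) ^ 2 := by
  refine ⟨gG_le (-0.48) 1.36 1.39 1.34102 1.92092 1.94878 0.52059 0.51315 hk1 hk2 (by norm_num)
    (ex_up 0.6528 (by norm_num) (by norm_num) (by norm_num) (by norm_num)) (ex_up 0.6672 (by norm_num) (by norm_num) (by norm_num) (by norm_num))
    (ex_um 0.6528 (by norm_num) (by norm_num) (by norm_num) (by norm_num)) (ex_um 0.6672 (by norm_num) (by norm_num) (by norm_num) (by norm_num))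
    (by norm_num) (by norm_num), ?_⟩
  exact v5_M 1.9209 (ex_lp 0.6528 (by linarith) (by norm_num) (by norm_num)) (by norm_num) (by norm_num)

private theorem B5Mo_C91 {β r t κ : ℝ} (hβ : 0 < β) (hr : 10 ≤ r) (hκ : κ = β * r) (hk1 : 1.36 ≤ κ) (hk2 : κ ≤ 1.39) (hta : (-1.6333) ≤ t + κ)
    (htb : t + κ ≤ (-1.4452)) : ‖F (cexp (I * β)) (r * cexp (I * ((t + β / 2 : ℝ) : ℂ)))‖ ≤
      0.7701 * Real.exp (r * (1.34102 - (-0.48) * (t + κ))) + 1.5371 * Real.exp (r * 0.0501) :=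
  v5_HU (-0.48) 1.36 1.39 (-1.6333) (-1.4452) 1.34102 0.7701 3.68985 0.1488 0.6562 1.6886 0 0.0501 0.00000114 1.5371 hβ hr hκ (by norm_num) hk1 hk2 hta htb (by norm_num) (by norm_num) (B5Mo_G90 hk1 hk2).1 (B5Mo_G90 hk1 hk2).2 (by norm_num) (by norm_num) (by norm_num)
    (by norm_num) (by norm_num) (by norm_num) (by norm_num) (by norm_num) (by norm_num) (by norm_num)
    (by norm_num) (by norm_num) (by norm_num) (v5_hump 4.7687 7.194 2.6822 0.0000009316 0.00000114 hβ hr hκ hk1 hk2 (by norm_num) htb (by norm_num) (by norm_num) (by norm_num) (by norm_num) (by norm_num) (by norm_num) (by norm_num) (ex_un 13 0.9 (by norm_num) (by norm_num) (by norm_num) (by norm_num)) (by norm_num)) (by norm_num)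

private theorem B5Mo_C92 {β r t κ : ℝ} (hβ : 0 < β) (hr : 10 ≤ r) (hκ : κ = β * r) (hk1 : 1.36 ≤ κ) (hk2 : κ ≤ 1.39) (hta : 3.3932 ≤ t + κ)
    (htb : t + κ ≤ 3.5813) : ‖F (cexp (I * β)) (r * cexp (I * ((t + β / 2 : ℝ) : ℂ)))‖ ≤
      1.9137 * Real.exp (r * (0.1855 + 1 / 20)) :=
  v5_UD 1.36 1.39 3.3932 3.5813 0.01 0.3421 0.1855 0.9977 1.9137 hβ hr hκ (by norm_num) hk1 hk2 hta htb (by norm_num) (by norm_num) (by norm_num) (by norm_num) (by norm_num) (by norm_num) (by norm_num) (by norm_num) (by norm_num) (by norm_num) (by norm_num)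

private theorem B5Mo_Y93 {β r t κ h t' : ℝ} (hβ : 0 < β) (hκ : κ = β * r) (hN : β * 7.194 ≤ 1) (hk1 : 1.36 ≤ κ) (hk2 : κ ≤ 1.39)
    (ht : t' = t + (((0 : ℤ) : ℝ) - 1) * h) (hD : DomR κ t') (hta : (-0.3767) ≤ t' + κ) (htb : t' + κ ≤ (-0.1886)) :
    0.6653 * Real.exp (r * sE κ t') ≤ ‖Xf β r h t 0‖ := by
  obtain ⟨⟨ya, yb⟩, ⟨xa, xb⟩, n1, Da, Db⟩ := B5Mo_B87 hD hk1 hk2 hta htb
  have J := B5Mo_T88 (x := sx κ t') (y := sy κ t') hβ hN (by linarith only [xa, xb, ya, yb]) (by linarith only [xa, xb, ya, yb]) (by linarith only [xa, xb, ya, yb]) (by linarith only [xa, xb, ya, yb])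
  exact v5_Jlo hβ hκ (k := 0) ht hD 0.095 3.4236 0.6653 (by norm_num) J Db (by norm_num)

private theorem B5Mo_V94 {κ t : ℝ} (hD : DomR κ t) (hk1 : 1.36 ≤ κ) (hk2 : κ ≤ 1.39) (hta : (-0.3767) ≤ t + κ) (htb : t + κ ≤ (-0.1886)) :
    1.01283 + 0.1021 * (t + κ) ≤ sE κ t := by
  have hκ0 : 0 < κ := hD.1
  exact v5_V0 hD 1.36 1.39 (-0.3767) (-0.1886) 0.3768 0.5147 0.03212 0.16133 0.04322 0.48779 1.01283 0.1021 (by norm_num) hk1 hk2 (by norm_num) hta htb (by norm_num) (by norm_num) (by norm_num) ((cup2 1.36 (by norm_num) hk1).trans (by norm_num))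
      (by norm_num) (by norm_num) (by norm_num) (by norm_num) (by norm_num) (by norm_num) (by norm_num) (by norm_num) (by norm_num) (by norm_num) (by norm_num) (by norm_num) (by norm_num)

private theorem B5Mo_K95 {β r t κ h : ℝ} (hβ : 0 < β) (hr : 10 ≤ r) (hκ : κ = β * r) (hk1 : 1.36 ≤ κ) (hk2 : κ ≤ 1.39)
    (hh : h = 2 * Real.pi / 5) (hh1 : 1.25663 ≤ h) (hh2 : h ≤ 1.25664) (hta : 0.88 ≤ t + κ) (htb : t + κ ≤ 1.068)
    (hY : 0.6653 * Real.exp (r * sE κ (t - h)) ≤ ‖Xf β r h t 0‖) (hV : 1.01283 + 0.1021 * (t - h + κ) ≤ sE κ (t - h)) :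
    ‖Xf β r h t 2‖ ≤ 0.0105 * ‖Xf β r h t 0‖ := by
  rw [v5_X 2 1 (by push_cast; ring)]
  exact v5_cmp 0.5563 0.003848 0.0104 0.9743 0.00005913 0.0000191 0.0105 hr (B5Mo_C89 (t := t + 1 * h) hβ hr hκ hk1 hk2 (by linarith only [hta, htb, hh1, hh2]) (by linarith only [hta, htb, hh1, hh2])) hY (by norm_num) (by norm_num) (by norm_num) (by norm_num) (by linarith only [hV, hta, htb, hh1, hh2]) (ex_un 5 0.5629 (by norm_num) (by norm_num) (by norm_num) (by norm_num)) (by norm_num) (by norm_num) (by linarith only [hV, hta, htb, hh1, hh2]) (ex_un 9 0.7429 (by norm_num) (by norm_num) (by norm_num) (by norm_num)) (by norm_num) (by norm_num)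

private theorem B5Mo_K96 {β r t κ h : ℝ} (hβ : 0 < β) (hr : 10 ≤ r) (hκ : κ = β * r) (hk1 : 1.36 ≤ κ) (hk2 : κ ≤ 1.39)
    (hh : h = 2 * Real.pi / 5) (hh1 : 1.25663 ≤ h) (hh2 : h ≤ 1.25664) (hta : 0.88 ≤ t + κ) (htb : t + κ ≤ 1.068)
    (hY : 0.6653 * Real.exp (r * sE κ (t - h)) ≤ ‖Xf β r h t 0‖) (hV : 1.01283 + 0.1021 * (t - h + κ) ≤ sE κ (t - h)) :
    ‖Xf β r h t (-1)‖ ≤ 0.0367 * ‖Xf β r h t 0‖ := by
  rw [v5_X (-1) (-2) (by push_cast; ring)]
  exact v5_cmp 0.3462 0.03142 0.0364 0.9242 0.00009691 0.000224 0.0367 hr (B5Mo_C91 (t := t + (-2) * h) hβ hr hκ hk1 hk2 (by linarith only [hta, htb, hh1, hh2]) (by linarith only [hta, htb, hh1, hh2])) hY (by norm_num) (by norm_num) (by norm_num) (by norm_num) (by linarith only [hV, hta, htb, hh1, hh2]) (ex_un 3 0.4619 (by norm_num) (by norm_num) (by norm_num) (by norm_num)) (by norm_num) (by norm_num) (by linarith only [hV, hta, htb, hh1, hh2]) (ex_un 9 0.2419 (by norm_num) (by norm_num)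 (by norm_num) (by norm_num)) (by norm_num) (by norm_num)

private theorem B5Mo_K97 {β r t κ h : ℝ} (hβ : 0 < β) (hr : 10 ≤ r) (hκ : κ = β * r) (hk1 : 1.36 ≤ κ) (hk2 : κ ≤ 1.39)
    (hh : h = 2 * Real.pi / 5) (hh1 : 1.25663 ≤ h) (hh2 : h ≤ 1.25664) (hta : 0.88 ≤ t + κ) (htb : t + κ ≤ 1.068)
    (hY : 0.6653 * Real.exp (r * sE κ (t - h)) ≤ ‖Xf β r h t 0‖) (hV : 1.01283 + 0.1021 * (t - h + κ) ≤ sE κ (t - h)) :
    ‖Xf β r h t (-2)‖ ≤ 0.00179 * ‖Xf β r h t 0‖ := by
  rw [v5_Xm2 hh]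
  exact v5_cmp0 0.7388 0.0006192 0.00179 hr (B5Mo_C92 (t := t + 2 * h) hβ hr hκ hk1 hk2 (by linarith only [hta, htb, hh1, hh2]) (by linarith only [hta, htb, hh1, hh2])) hY (by norm_num) (by norm_num) (by norm_num) (by linarith only [hV, hta, htb, hh1, hh2]) (ex_un 7 0.3879 (by norm_num) (by norm_num) (by norm_num) (by norm_num)) (by norm_num)

private theorem B5Mo_G98 {κ : ℝ} (hk1 : 1.36 ≤ κ) (hk2 : κ ≤ 1.39) : gG κ 0.23 ≤ 1.08282 ∧ 0.52759 ≤ Real.exp (-(κ * 0.23)) ^ 2 := by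
  refine ⟨gG_le 0.23 1.36 1.39 1.08282 0.7314 0.72637 1.36725 1.37672 hk1 hk2 (by norm_num)
    (ex_um 0.3128 (by norm_num) (by norm_num) (by norm_num) (by norm_num)) (ex_um 0.3197 (by norm_num) (by norm_num) (by norm_num) (by norm_num))
    (ex_up 0.3128 (by norm_num) (by norm_num) (by norm_num) (by norm_num)) (ex_up 0.3197 (by norm_num) (by norm_num) (by norm_num) (by norm_num))
    (by norm_num) (by norm_num), ?_⟩
  exact v5_M 0.72636 (ex_lm 0.3197 (by linarith) (by norm_num) (by norm_num) (by norm_num) (by norm_num)) (by norm_num) (by norm_num)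

private theorem B5Mo_C99 {β r t κ : ℝ} (hβ : 0 < β) (hr : 10 ≤ r) (hκ : κ = β * r) (hk1 : 1.36 ≤ κ) (hk2 : κ ≤ 1.39) (hta : 0.8799 ≤ t + κ)
    (htb : t + κ ≤ 1.0681) : ‖F (cexp (I * β)) (r * cexp (I * ((t + β / 2 : ℝ) : ℂ)))‖ ≤
      1.2668 * Real.exp (r * (1.08282 - 0.23 * (t + κ))) + 0.2892 * Real.exp (r * 0) :=
  v5_H 0.23 1.36 1.39 0.8799 1.0681 1.08282 1.2653 0.52759 0.1488 1.0605 1.8625 0.40183 0.01799 0.00000114 1.2668 0.2892 hβ hr hκ (by norm_num) hk1 hk2 hta htb (by norm_num) (B5Mo_G98 hk1 hk2).1 (B5Mo_G98 hk1 hk2).2 (by norm_num) (by norm_num) (by norm_num)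
    (by norm_num) (by norm_num) (by norm_num) (by norm_num) (by norm_num) (by norm_num) (by norm_num) (by norm_num) (ex_un 4 0.0182 (by norm_num) (by norm_num) (by norm_num) (by norm_num))
    (v5_hump 2.2554 7.194 2.6822 0.0000009316 0.00000114 hβ hr hκ hk1 hk2 (by norm_num) htb (by norm_num) (by norm_num) (by norm_num) (by norm_num) (by norm_num) (by norm_num) (by norm_num) (ex_un 13 0.9 (by norm_num) (by norm_num) (by norm_num) (by norm_num)) (by norm_num)) (by norm_num) (by norm_num)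

private theorem B5Mo_K100 {β r t κ h : ℝ} (hβ : 0 < β) (hr : 10 ≤ r) (hκ : κ = β * r) (hk1 : 1.36 ≤ κ) (hk2 : κ ≤ 1.39)
    (hh : h = 2 * Real.pi / 5) (hh1 : 1.25663 ≤ h) (hh2 : h ≤ 1.25664) (hta : 0.88 ≤ t + κ) (htb : t + κ ≤ 1.068)
    (hY : 0.6653 * Real.exp (r * sE κ (t - h)) ≤ ‖Xf β r h t 0‖) (hV : 1.01283 + 0.1021 * (t - h + κ) ≤ sE κ (t - h)) :
    ‖Xf β r h t 1‖ ≤ 0.758 * ‖Xf β r h t 0‖ := by
  rw [v5_X 1 0 (by push_cast; ring)]
  exact v5_cmp 0.0939 0.3973 0.757 0.9743 0.00005913 0.0000258 0.758 hr (B5Mo_C99 (t := t + 0 * h) hβ hr hκ hk1 hk2 (by linarith only [hta, htb, hh1, hh2]) (by linarith only [hta, htb, hh1, hh2])) hY (by norm_num) (by norm_num) (by norm_num) (by norm_num) (by linarith only [hV, hta, htb, hh1, hh2]) (ex_un 0 0.9389 (by norm_num) (by norm_num) (by norm_num) (by norm_num)) (by norm_num) (by norm_num) (by linarith only [hV, hta, htb, hh1, hh2]) (ex_un 9 0.7429 (by norm_num) (by norm_num) (by norm_num)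 (by norm_num)) (by norm_num) (by norm_num)

private theorem B5Mo_O101 {β r t κ h : ℝ} (hβ : 0 < β) (hr : 10 ≤ r) (hκ : κ = β * r) (hk1 : 1.36 ≤ κ) (hk2 : κ ≤ 1.39)
    (hh : h = 2 * Real.pi / 5) (hta : 0.88 ≤ t + κ) (htb : t + κ ≤ 1.068) :
    ‖Xf β r h t (-2)‖ + ‖Xf β r h t (-1)‖ + ‖Xf β r h t 2‖ < |‖Xf β r h t 1‖ - ‖Xf β r h t 0‖| := by
  obtain ⟨hh1, hh2⟩ := v5_h hh
  have hκ0 : 0 < κ := by linarith only [hk1]
  have hN : β * 7.194 ≤ 1 := v5_hN 1.39 7.194 hβ hr hκ hk2 (by norm_num) (by norm_num)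
  have hD1 : DomR κ t := v5_dom hκ0 (by linarith only [hta, htb, hk1, hk2, hh1, hh2]) (Or.inr (by linarith only [hta, htb, hk1, hk2, hh1, hh2]))
  have hD0 : DomR κ (t - h) := v5_dom hκ0 (by linarith only [hta, htb, hk1, hk2, hh1, hh2]) (Or.inl (by linarith only [hk1]))
  have h0a : (-0.3767) ≤ t - h + κ := by linarith only [hta, htb, hh1, hh2]
  have h0b : t - h + κ ≤ (-0.1886) := by linarith only [hta, htb, hh1, hh2]
  have e0 : t - h = t + (((0 : ℤ) : ℝ) - 1) * h := by push_cast; ring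
  have hY := B5Mo_Y93 (h := h) hβ hκ hN hk1 hk2 e0 hD0 h0a h0b
  have hV := B5Mo_V94 hD0 hk1 hk2 h0a h0b
  have cp2 := B5Mo_K95 hβ hr hκ hk1 hk2 hh hh1 hh2 hta htb hY hV
  have cm1 := B5Mo_K96 hβ hr hκ hk1 hk2 hh hh1 hh2 hta htb hY hV
  have cm2 := B5Mo_K97 hβ hr hκ hk1 hk2 hh hh1 hh2 hta htb hY hV
  have cn1 := B5Mo_K100 hβ hr hκ hk1 hk2 hh hh1 hh2 hta htb hY hV
  have hp : 0 < ‖Xf β r h t 0‖ := lt_of_lt_of_le (by positivity) hY
  exact v5_out0 _ _ _ _ cm2 cm1 cp2 cn1 hp (by norm_num)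

private theorem B5Mo_B102 {κ t : ℝ} (h : DomR κ t) (hk1 : 1.36 ≤ κ) (hk2 : κ ≤ 1.39) (ht1 : (-0.1887) ≤ t + κ) (ht2 : t + κ ≤ 0.0629) :
    ((-0.092) ≤ sy κ t ∧ sy κ t ≤ 0.03) ∧ (1.3165 ≤ sx κ t ∧ sx κ t ≤ 1.524) ∧ κ * Real.exp (-sy κ t) ≤ 1.524 ∧ 2.8018 ≤ sD κ t ∧ sD κ t ≤ 3.1385 := by
  have hy1 : -0.092 ≤ sy κ t := syL_ge h 1.36 1.39 0.1887 0.092 0.9121 0.91211 0.06 0.06036 0.06171 hk1 hk2 (by linarith) (by norm_num) (by norm_num) (by norm_num)
    (expm_ge (by norm_num) (by norm_num) (by norm_num) (by norm_num)) (expm_le (by norm_num) (by norm_num) (by norm_num)) (by norm_num)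
    (by norm_num) (by norm_num) (by norm_num) (by norm_num) (by norm_num) (by norm_num)
  have hy2 : sy κ t ≤ 0.03 := syR_le h 1.36 1.39 0.0629 0.03 1.03045 0.0221 0.02223 0.02274 hk1 hk2 (by linarith) (by norm_num) (by norm_num)
    (expn_ge (by norm_num) (by norm_num)) (by norm_num) (by norm_num) (Or.inr ((mul_le_mul_of_nonneg_left (expn_le (E := 1.03046) (by norm_num) (by norm_num) (by norm_num)) (by norm_num)).trans (by norm_num))) (by norm_num) (by norm_num) (by norm_num)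
  have hy1' : (-0.092) ≤ sy κ t := by linarith
  have hy2' : sy κ t ≤ 0.03 := by linarith
  have hx1 : 1.3165 ≤ sx κ t := sx_lo h 1.36 0.03 0.0921 0.97044 1.3165 hk1 (by norm_num) hy2' (abs_le.2 ⟨by linarith, by linarith⟩) (ex_lm 0.03 (by norm_num) (by norm_num) (by norm_num) (by norm_num) (by norm_num)) (by norm_num) (by norm_num)
  have hx2 : sx κ t ≤ 1.524 := sx_hi h 1.39 (-0.092) 0 1.09637 1.524 hk2 hy1' (by norm_num) (abs_nonneg _) (ex_up 0.092 (by norm_num) (by norm_num) (by norm_num) (by norm_num)) (by norm_num) (by norm_num)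
  refine ⟨⟨hy1', hy2'⟩, ⟨hx1, hx2⟩, v5_n h 1.39 (-0.092) 1.09637 1.524 hk2 hy1' (ex_up 0.092 (by norm_num) (by norm_num) (by norm_num) (by norm_num)) (by norm_num), ?_, ?_⟩
  · exact v5_Dlo h 1.36 (-0.092) 0.03 0.03 0.97044 2.8018 (by norm_num) hk1 hy1' hy2' (ex_lm 0.03 (by norm_num) (by norm_num) (by norm_num) (by norm_num) (by norm_num)) (by norm_num) (by norm_num) (by norm_num) (by norm_num)
  · exact v5_Dup h 1.39 (-0.092) 0.03 1.09637 0.97045 3.1385 hk2 hy1' hy2' (ex_up 0.092 (by norm_num) (by norm_num) (by norm_num) (by norm_num)) (ex_um 0.03 (by norm_num) (by norm_num) (by norm_num) (by norm_num)) (by norm_num) (by norm_num) (by norm_num)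

private theorem B5Mo_T103_0_0 {β x y : ℝ} (hβ : 0 < β) (hN : β * 7.194 ≤ 1) (hx1 : 1.3164 ≤ x) (hx2 : x ≤ 1.365)
    (hy1 : -0.0921 ≤ y) (hy2 : y ≤ 0.0301) : ‖HH β (x + y * I) - 1‖ ≤ 0.08 := by
  refine le_epsJ (C := 0.5747) (N0 := 7.194) (J_boxp 1.3164 1.365 0.0921 0.0301 0.0301 1.5715 1.3682 1.7101 0.6639 0.5218 2.6822 7.194 0.8707 3.32 1.484 0.8101 0.7857 0.5576 1.3135 3.0249 0.941 2.3196 3.824 3.4838 0.003513 0.01812 0.00007878 0.0000003101 0.001151 0.0000003101 0.0000003101 0.0000003101 0.5747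
    hβ hN hx1 hx2 hy1 hy2 (by norm_num) (by norm_num) (by linarith) (by norm_num) (by norm_num) (by norm_num) (by norm_num) (by norm_num) (by norm_num) (by norm_num) (by norm_num) (by norm_num) (by norm_num) (by norm_num) (by norm_num) (by norm_num) (by norm_num) (by norm_num) (by norm_num) (by norm_num) (by norm_num) (by norm_num) (by norm_num) (by norm_num)
    (cube_sqrt_geJ (s := 0.8424) (by norm_num) (by norm_num) (by norm_num) (by norm_num))
    (cube_sqrt_geJ (s := 0.9451) (by norm_num) (by norm_num) (by norm_num) (by norm_num))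
    (by norm_num) (by norm_num) (by norm_num) (by norm_num) (by norm_num) (by norm_num) (by norm_num) (by norm_num) (by norm_num) (by norm_num) (by norm_num) (by norm_num) (by norm_num) (by norm_num) (by norm_num) (by norm_num) (by norm_num) (by norm_num)
    (exp_neg_leJ (r := 0.652) 5 (by norm_num) (by norm_num) (by norm_num) (by norm_num))
    (exp_neg_leJ (r := 0.011) 4 (by norm_num) (by norm_num) (by norm_num) (by norm_num))
    (exp_neg_leJ (r := 0.449) 9 (by norm_num) (by norm_num) (by norm_num) (by norm_num))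
    (exp_neg_leJ (r := 0.99) 14 (by norm_num) (by norm_num) (by norm_num) (by norm_num))
    (exp_neg_leJ (r := 0.769) 6 (by norm_num) (by norm_num) (by norm_num) (by norm_num))
    (exp_neg_leJ (r := 0.99) 14 (by norm_num) (by norm_num) (by norm_num) (by norm_num))
    (exp_neg_leJ (r := 0.99) 14 (by norm_num) (by norm_num) (by norm_num) (by norm_num))
    (exp_neg_leJ (r := 0.99) 14 (by norm_num) (by norm_num) (by norm_num) (by norm_num))
    (by norm_num)) (by norm_num) hN hβ.le (by norm_num)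

private theorem B5Mo_T103_0_1 {β x y : ℝ} (hβ : 0 < β) (hN : β * 7.194 ≤ 1) (hx1 : 1.365 ≤ x) (hx2 : x ≤ 1.417)
    (hy1 : -0.0921 ≤ y) (hy2 : y ≤ 0.0301) : ‖HH β (x + y * I) - 1‖ ≤ 0.08 := by
  refine le_epsJ (C := 0.5749) (N0 := 7.194) (J_boxp 1.365 1.417 0.0921 0.0301 0.0301 1.6058 1.42 1.7519 0.6505 0.5281 2.6822 7.194 0.8843 3.396 1.494 0.7901 0.8028 0.5662 1.3301 2.9949 0.9646 2.3869 3.9212 3.4402 0.003109 0.01703 0.00006996 0.0000003101 0.000972 0.0000003101 0.0000003101 0.0000003101 0.5749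
    hβ hN hx1 hx2 hy1 hy2 (by norm_num) (by norm_num) (by linarith) (by norm_num) (by norm_num) (by norm_num) (by norm_num) (by norm_num) (by norm_num) (by norm_num) (by norm_num) (by norm_num) (by norm_num) (by norm_num) (by norm_num) (by norm_num) (by norm_num) (by norm_num) (by norm_num) (by norm_num) (by norm_num) (by norm_num) (by norm_num) (by norm_num)
    (cube_sqrt_geJ (s := 0.8397) (by norm_num) (by norm_num) (by norm_num) (by norm_num))
    (cube_sqrt_geJ (s := 0.9443) (by norm_num) (by norm_num) (by norm_num) (by norm_num))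
    (by norm_num) (by norm_num) (by norm_num) (by norm_num) (by norm_num) (by norm_num) (by norm_num) (by norm_num) (by norm_num) (by norm_num) (by norm_num) (by norm_num) (by norm_num) (by norm_num) (by norm_num) (by norm_num) (by norm_num) (by norm_num)
    (exp_neg_leJ (r := 0.775) 5 (by norm_num) (by norm_num) (by norm_num) (by norm_num))
    (exp_neg_leJ (r := 0.073) 4 (by norm_num) (by norm_num) (by norm_num) (by norm_num))
    (exp_neg_leJ (r := 0.568) 9 (by norm_num) (by norm_num) (by norm_num) (by norm_num))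
    (exp_neg_leJ (r := 0.99) 14 (by norm_num) (by norm_num) (by norm_num) (by norm_num))
    (exp_neg_leJ (r := 0.939) 6 (by norm_num) (by norm_num) (by norm_num) (by norm_num))
    (exp_neg_leJ (r := 0.99) 14 (by norm_num) (by norm_num) (by norm_num) (by norm_num))
    (exp_neg_leJ (r := 0.99) 14 (by norm_num) (by norm_num) (by norm_num) (by norm_num))
    (exp_neg_leJ (r := 0.99) 14 (by norm_num) (by norm_num) (by norm_num) (by norm_num))
    (by norm_num)) (by norm_num) hN hβ.le (by norm_num)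

private theorem B5Mo_T103_0_2 {β x y : ℝ} (hβ : 0 < β) (hN : β * 7.194 ≤ 1) (hx1 : 1.417 ≤ x) (hx2 : x ≤ 1.472)
    (hy1 : -0.0921 ≤ y) (hy2 : y ≤ 0.0301) : ‖HH β (x + y * I) - 1‖ ≤ 0.08 := by
  refine le_epsJ (C := 0.5752) (N0 := 7.194) (J_boxp 1.417 1.472 0.0921 0.0301 0.0301 1.6424 1.4749 1.7967 0.6369 0.5348 2.6822 7.194 0.8981 3.474 1.504 0.7689 0.8211 0.5753 1.3479 2.9632 0.9899 2.4589 4.0252 3.395 0.00273 0.01596 0.00006158 0.0000003101 0.000808 0.0000003101 0.0000003101 0.0000003101 0.5752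
    hβ hN hx1 hx2 hy1 hy2 (by norm_num) (by norm_num) (by linarith) (by norm_num) (by norm_num) (by norm_num) (by norm_num) (by norm_num) (by norm_num) (by norm_num) (by norm_num) (by norm_num) (by norm_num) (by norm_num) (by norm_num) (by norm_num) (by norm_num) (by norm_num) (by norm_num) (by norm_num) (by norm_num) (by norm_num) (by norm_num) (by norm_num)
    (cube_sqrt_geJ (s := 0.837) (by norm_num) (by norm_num) (by norm_num) (by norm_num))
    (cube_sqrt_geJ (s := 0.9434) (by norm_num) (by norm_num) (by norm_num) (by norm_num))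
    (by norm_num) (by norm_num) (by norm_num) (by norm_num) (by norm_num) (by norm_num) (by norm_num) (by norm_num) (by norm_num) (by norm_num) (by norm_num) (by norm_num) (by norm_num) (by norm_num) (by norm_num) (by norm_num) (by norm_num) (by norm_num)
    (exp_neg_leJ (r := 0.906) 5 (by norm_num) (by norm_num) (by norm_num) (by norm_num))
    (exp_neg_leJ (r := 0.138) 4 (by norm_num) (by norm_num) (by norm_num) (by norm_num))
    (exp_neg_leJ (r := 0.696) 9 (by norm_num) (by norm_num) (by norm_num) (by norm_num))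
    (exp_neg_leJ (r := 0.99) 14 (by norm_num) (by norm_num) (by norm_num) (by norm_num))
    (exp_neg_leJ (r := 0.121) 7 (by norm_num) (by norm_num) (by norm_num) (by norm_num))
    (exp_neg_leJ (r := 0.99) 14 (by norm_num) (by norm_num) (by norm_num) (by norm_num))
    (exp_neg_leJ (r := 0.99) 14 (by norm_num) (by norm_num) (by norm_num) (by norm_num))
    (exp_neg_leJ (r := 0.99) 14 (by norm_num) (by norm_num) (by norm_num) (by norm_num))
    (by norm_num)) (by norm_num) hN hβ.le (by norm_num)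

private theorem B5Mo_T103_0_3 {β x y : ℝ} (hβ : 0 < β) (hN : β * 7.194 ≤ 1) (hx1 : 1.472 ≤ x) (hx2 : x ≤ 1.5241)
    (hy1 : -0.0921 ≤ y) (hy2 : y ≤ 0.0301) : ‖HH β (x + y * I) - 1‖ ≤ 0.08 := by
  refine le_epsJ (C := 0.569) (N0 := 7.194) (J_boxp 1.472 1.5241 0.0921 0.0301 0.0301 1.6811 1.5269 1.8396 0.6223 0.5411 2.6822 7.194 0.9083 3.534 1.511 0.7489 0.8405 0.586 1.3667 2.9331 1.0166 2.535 4.1352 3.3636 0.002368 0.01478 0.0000538 0.0000003101 0.0006669 0.0000003101 0.0000003101 0.0000003101 0.569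
    hβ hN hx1 hx2 hy1 hy2 (by norm_num) (by norm_num) (by linarith) (by norm_num) (by norm_num) (by norm_num) (by norm_num) (by norm_num) (by norm_num) (by norm_num) (by norm_num) (by norm_num) (by norm_num) (by norm_num) (by norm_num) (by norm_num) (by norm_num) (by norm_num) (by norm_num) (by norm_num) (by norm_num) (by norm_num) (by norm_num) (by norm_num)
    (cube_sqrt_geJ (s := 0.835) (by norm_num) (by norm_num) (by norm_num) (by norm_num))
    (cube_sqrt_geJ (s := 0.9427) (by norm_num) (by norm_num) (by norm_num) (by norm_num))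
    (by norm_num) (by norm_num) (by norm_num) (by norm_num) (by norm_num) (by norm_num) (by norm_num) (by norm_num) (by norm_num) (by norm_num) (by norm_num) (by norm_num) (by norm_num) (by norm_num) (by norm_num) (by norm_num) (by norm_num) (by norm_num)
    (exp_neg_leJ (r := 0.046) 6 (by norm_num) (by norm_num) (by norm_num) (by norm_num))
    (exp_neg_leJ (r := 0.215) 4 (by norm_num) (by norm_num) (by norm_num) (by norm_num))
    (exp_neg_leJ (r := 0.832) 9 (by norm_num) (by norm_num) (by norm_num) (by norm_num))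
    (exp_neg_leJ (r := 0.99) 14 (by norm_num) (by norm_num) (by norm_num) (by norm_num))
    (exp_neg_leJ (r := 0.313) 7 (by norm_num) (by norm_num) (by norm_num) (by norm_num))
    (exp_neg_leJ (r := 0.99) 14 (by norm_num) (by norm_num) (by norm_num) (by norm_num))
    (exp_neg_leJ (r := 0.99) 14 (by norm_num) (by norm_num) (by norm_num) (by norm_num))
    (exp_neg_leJ (r := 0.99) 14 (by norm_num) (by norm_num) (by norm_num) (by norm_num))
    (by norm_num)) (by norm_num) hN hβ.le (by norm_num)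

private theorem B5Mo_T103 {β x y : ℝ} (hβ : 0 < β) (hN : β * 7.194 ≤ 1) (hx1 : 1.3164 ≤ x) (hx2 : x ≤ 1.5241)
    (hy1 : (-0.0921) ≤ y) (hy2 : y ≤ 0.0301) : ‖HH β (x + y * I) - 1‖ ≤ 0.08 := by
  rcases le_total x 1.365 with hxx | hxx
  · exact B5Mo_T103_0_0 hβ hN (by linarith) (by linarith) (by linarith) (by linarith)
  rcases le_total x 1.417 with hxx | hxx
  · exact B5Mo_T103_0_1 hβ hN (by linarith) (by linarith) (by linarith) (by linarith)
  rcases le_total x 1.472 with hxx | hxx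
  · exact B5Mo_T103_0_2 hβ hN (by linarith) (by linarith) (by linarith) (by linarith)
  exact B5Mo_T103_0_3 hβ hN (by linarith) (by linarith) (by linarith) (by linarith)

private theorem B5Mo_G104 {κ : ℝ} (hk1 : 1.36 ≤ κ) (hk2 : κ ≤ 1.39) : gG κ 0.43 ≤ 1.32964 ∧ 0.30257 ≤ Real.exp (-(κ * 0.43)) ^ 2 := by
  refine ⟨gG_le 0.43 1.36 1.39 1.32964 0.55722 0.55008 1.79464 1.81794 hk1 hk2 (by norm_num)
    (ex_um 0.5848 (by norm_num) (by norm_num) (by norm_num) (by norm_num)) (ex_um 0.5977 (by norm_num) (by norm_num) (by norm_num) (by norm_num))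
    (ex_up 0.5848 (by norm_num) (by norm_num) (by norm_num) (by norm_num)) (ex_up 0.5977 (by norm_num) (by norm_num) (by norm_num) (by norm_num))
    (by norm_num) (by norm_num), ?_⟩
  exact v5_M 0.55007 (ex_lm 0.5977 (by linarith) (by norm_num) (by norm_num) (by norm_num) (by norm_num)) (by norm_num) (by norm_num)

private theorem B5Mo_C105 {β r t κ : ℝ} (hβ : 0 < β) (hr : 10 ≤ r) (hκ : κ = β * r) (hk1 : 1.36 ≤ κ) (hk2 : κ ≤ 1.39) (hta : 2.3246 ≤ t + κ)
    (htb : t + κ ≤ 2.5762) : ‖F (cexp (I * β)) (r * cexp (I * ((t + β / 2 : ℝ) : ℂ)))‖ ≤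
      2.0326 * Real.exp (r * (1.32964 - 0.43 * (t + κ))) + 0.2139 * Real.exp (r * 0) :=
  v5_H 0.43 1.36 1.39 2.3246 2.5762 1.32964 1.7932 0.30257 0.1488 2.5052 0.3544 0.05649 0.5701 0.00565 2.0326 0.2139 hβ hr hκ (by norm_num) hk1 hk2 hta htb (by norm_num) (B5Mo_G104 hk1 hk2).1 (B5Mo_G104 hk1 hk2).2 (by norm_num) (by norm_num) (by norm_num)
    (by norm_num) (by norm_num) (by norm_num) (by norm_num) (by norm_num) (by norm_num) (by norm_num) (by norm_num) (ex_un 0 0.5648 (by norm_num) (by norm_num) (by norm_num) (by norm_num))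
    (v5_hump 0.7473 7.194 2.6822 0.00463 0.00565 hβ hr hκ hk1 hk2 (by norm_num) htb (by norm_num) (by norm_num) (by norm_num) (by norm_num) (by norm_num) (by norm_num) (by norm_num) (ex_un 5 0.376 (by norm_num) (by norm_num) (by norm_num) (by norm_num)) (by norm_num)) (by norm_num) (by norm_num)

private theorem B5Mo_G106 {κ : ℝ} (hk1 : 1.36 ≤ κ) (hk2 : κ ≤ 1.39) : gG κ (-0.4) ≤ 1.23379 ∧ 2.96831 ≤ Real.exp (-(κ * (-0.4))) ^ 2 := by
  refine ⟨gG_le (-0.4) 1.36 1.39 1.23379 1.72289 1.74369 0.58043 0.5735 hk1 hk2 (by norm_num)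
    (ex_up 0.544 (by norm_num) (by norm_num) (by norm_num) (by norm_num)) (ex_up 0.556 (by norm_num) (by norm_num) (by norm_num) (by norm_num))
    (ex_um 0.544 (by norm_num) (by norm_num) (by norm_num) (by norm_num)) (ex_um 0.556 (by norm_num) (by norm_num) (by norm_num) (by norm_num))
    (by norm_num) (by norm_num), ?_⟩
  exact v5_M 1.72288 (ex_lp 0.544 (by linarith) (by norm_num) (by norm_num)) (by norm_num) (by norm_num)

private theorem B5Mo_C107 {β r t κ : ℝ} (hβ : 0 < β) (hr : 10 ≤ r) (hκ : κ = β * r) (hk1 : 1.36 ≤ κ) (hk2 : κ ≤ 1.39) (hta : (-1.4453) ≤ t + κ)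
    (htb : t + κ ≤ (-1.1937)) : ‖F (cexp (I * β)) (r * cexp (I * ((t + β / 2 : ℝ) : ℂ)))‖ ≤
      0.8113 * Real.exp (r * (1.23379 - (-0.4) * (t + κ))) + 1.4553 * Real.exp (r * 0.0501) :=
  v5_HU (-0.4) 1.36 1.39 (-1.4453) (-1.1937) 1.23379 0.8113 2.96831 0.1488 0.6562 1.8766 0 0.0501 0.00000114 1.4553 hβ hr hκ (by norm_num) hk1 hk2 hta htb (by norm_num) (by norm_num) (B5Mo_G106 hk1 hk2).1 (B5Mo_G106 hk1 hk2).2 (by norm_num) (by norm_num) (by norm_num)
    (by norm_num) (by norm_num) (by norm_num) (by norm_num) (by norm_num) (by norm_num) (by norm_num)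
    (by norm_num) (by norm_num) (by norm_num) (v5_hump 4.5172 7.194 2.6822 0.0000009316 0.00000114 hβ hr hκ hk1 hk2 (by norm_num) htb (by norm_num) (by norm_num) (by norm_num) (by norm_num) (by norm_num) (by norm_num) (by norm_num) (ex_un 13 0.9 (by norm_num) (by norm_num) (by norm_num) (by norm_num)) (by norm_num)) (by norm_num)

private theorem B5Mo_C108 {β r t κ : ℝ} (hβ : 0 < β) (hr : 10 ≤ r) (hκ : κ = β * r) (hk1 : 1.36 ≤ κ) (hk2 : κ ≤ 1.39) (hta : 3.5812 ≤ t + κ)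
    (htb : t + κ ≤ 3.8328) : ‖F (cexp (I * β)) (r * cexp (I * ((t + β / 2 : ℝ) : ℂ)))‖ ≤
      1.8524 * Real.exp (r * (0.3664 + 1 / 20)) :=
  v5_UD 1.36 1.39 3.5812 3.8328 0.01 0.3421 0.3664 0.9657 1.8524 hβ hr hκ (by norm_num) hk1 hk2 hta htb (by norm_num) (by norm_num) (by norm_num) (by norm_num) (by norm_num) (by norm_num) (by norm_num) (by norm_num) (by norm_num) (by norm_num) (by norm_num)

private theorem B5Mo_Y109 {β r t κ h t' : ℝ} (hβ : 0 < β) (hκ : κ = β * r) (hN : β * 7.194 ≤ 1) (hk1 : 1.36 ≤ κ) (hk2 : κ ≤ 1.39)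
    (ht : t' = t + (((0 : ℤ) : ℝ) - 1) * h) (hD : DomR κ t') (hta : (-0.1887) ≤ t' + κ) (htb : t' + κ ≤ 0.0629) :
    0.6912 * Real.exp (r * sE κ t') ≤ ‖Xf β r h t 0‖ := by
  obtain ⟨⟨ya, yb⟩, ⟨xa, xb⟩, n1, Da, Db⟩ := B5Mo_B102 hD hk1 hk2 hta htb
  have J := B5Mo_T103 (x := sx κ t') (y := sy κ t') hβ hN (by linarith only [xa, xb, ya, yb]) (by linarith only [xa, xb, ya, yb]) (by linarith only [xa, xb, ya, yb]) (by linarith only [xa, xb, ya, yb])
  exact v5_Jlo hβ hκ (k := 0) ht hD 0.08 3.1385 0.6912 (by norm_num) J Db (by norm_num)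

private theorem B5Mo_V110 {κ t : ℝ} (hD : DomR κ t) (hk1 : 1.36 ≤ κ) (hk2 : κ ≤ 1.39) (hta : (-0.1887) ≤ t + κ) (htb : t + κ ≤ 0.0629) :
    0.99788 + 0.0224 * (t + κ) ≤ sE κ t := by
  have hκ0 : 0 < κ := hD.1
  exact v5_V0 hD 1.36 1.39 (-0.1887) 0.0629 0.1888 0.5067 0.03212 0.16133 0.04322 0.48779 0.99788 0.0224 (by norm_num) hk1 hk2 (by norm_num) hta htb (by norm_num) (by norm_num) (by norm_num) ((cup2 1.36 (by norm_num) hk1).trans (by norm_num))
      (by norm_num) (by norm_num) (by norm_num) (by norm_num) (by norm_num) (by norm_num) (by norm_num) (by norm_num) (by norm_num) (by norm_num) (by norm_num) (by norm_num) (by norm_num)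

private theorem B5Mo_K111 {β r t κ h : ℝ} (hβ : 0 < β) (hr : 10 ≤ r) (hκ : κ = β * r) (hk1 : 1.36 ≤ κ) (hk2 : κ ≤ 1.39)
    (hh : h = 2 * Real.pi / 5) (hh1 : 1.25663 ≤ h) (hh2 : h ≤ 1.25664) (hta : 1.068 ≤ t + κ) (htb : t + κ ≤ 1.3195)
    (hY : 0.6912 * Real.exp (r * sE κ (t - h)) ≤ ‖Xf β r h t 0‖) (hV : 0.99788 + 0.0224 * (t - h + κ) ≤ sE κ (t - h)) :
    ‖Xf β r h t 2‖ ≤ 0.0039 * ‖Xf β r h t 0‖ := by
  rw [v5_X 2 1 (by push_cast; ring)]
  exact v5_cmp 0.6636 0.001318 0.00388 0.9936 0.00004916 0.0000153 0.0039 hr (B5Mo_C105 (t := t + 1 * h) hβ hr hκ hk1 hk2 (by linarith only [hta, htb, hh1, hh2]) (by linarith only [hta, htb, hh1, hh2])) hY (by norm_num) (by norm_num) (by norm_num) (by norm_num) (by linarith only [hV, hta, htb, hh1, hh2]) (ex_un 6 0.6359 (by norm_num) (by norm_num) (by norm_num) (by norm_num)) (by norm_num) (by norm_num) (by linarith only [hV, hta, htb, hh1, hh2]) (ex_un 9 0.9359 (by norm_num) (by norm_num) (by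 norm_num) (by norm_num)) (by norm_num) (by norm_num)

private theorem B5Mo_K112 {β r t κ h : ℝ} (hβ : 0 < β) (hr : 10 ≤ r) (hκ : κ = β * r) (hk1 : 1.36 ≤ κ) (hk2 : κ ≤ 1.39)
    (hh : h = 2 * Real.pi / 5) (hh1 : 1.25663 ≤ h) (hh2 : h ≤ 1.25664) (hta : 1.068 ≤ t + κ) (htb : t + κ ≤ 1.3195)
    (hY : 0.6912 * Real.exp (r * sE κ (t - h)) ≤ ‖Xf β r h t 0‖) (hV : 0.99788 + 0.0224 * (t - h + κ) ≤ sE κ (t - h)) :
    ‖Xf β r h t (-1)‖ ≤ 0.105 * ‖Xf β r h t 0‖ := by
  rw [v5_X (-1) (-2) (by push_cast; ring)]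
  exact v5_cmp 0.243 0.08814 0.104 0.9435 0.00007998 0.000169 0.105 hr (B5Mo_C107 (t := t + (-2) * h) hβ hr hκ hk1 hk2 (by linarith only [hta, htb, hh1, hh2]) (by linarith only [hta, htb, hh1, hh2])) hY (by norm_num) (by norm_num) (by norm_num) (by norm_num) (by linarith only [hV, hta, htb, hh1, hh2]) (ex_un 2 0.4299 (by norm_num) (by norm_num) (by norm_num) (by norm_num)) (by norm_num) (by norm_num) (by linarith only [hV, hta, htb, hh1, hh2]) (ex_un 9 0.4349 (by norm_num) (by norm_num) (by norm_num) (by norm_num)) (by norm_num) (by norm_num)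

private theorem B5Mo_K113 {β r t κ h : ℝ} (hβ : 0 < β) (hr : 10 ≤ r) (hκ : κ = β * r) (hk1 : 1.36 ≤ κ) (hk2 : κ ≤ 1.39)
    (hh : h = 2 * Real.pi / 5) (hh1 : 1.25663 ≤ h) (hh2 : h ≤ 1.25664) (hta : 1.068 ≤ t + κ) (htb : t + κ ≤ 1.3195)
    (hY : 0.6912 * Real.exp (r * sE κ (t - h)) ≤ ‖Xf β r h t 0‖) (hV : 0.99788 + 0.0224 * (t - h + κ) ≤ sE κ (t - h)) :
    ‖Xf β r h t (-2)‖ ≤ 0.00842 * ‖Xf β r h t 0‖ := by
  rw [v5_Xm2 hh]
  exact v5_cmp0 0.5772 0.00314 0.00842 hr (B5Mo_C108 (t := t + 2 * h) hβ hr hκ hk1 hk2 (by linarith only [hta, htb, hh1, hh2]) (by linarith only [hta, htb, hh1, hh2])) hY (by norm_num) (by norm_num) (by norm_num) (by linarith only [hV, hta, htb, hh1, hh2]) (ex_un 5 0.7719 (by norm_num) (by norm_num) (by norm_num) (by norm_num)) (by norm_num)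

private theorem B5Mo_G114 {κ : ℝ} (hk1 : 1.36 ≤ κ) (hk2 : κ ≤ 1.39) : gG κ 0.27 ≤ 1.11623 ∧ 0.47207 ≤ Real.exp (-(κ * 0.27)) ^ 2 := by
  refine ⟨gG_le 0.27 1.36 1.39 1.11623 0.69268 0.68709 1.44369 1.45543 hk1 hk2 (by norm_num)
    (ex_um 0.3672 (by norm_num) (by norm_num) (by norm_num) (by norm_num)) (ex_um 0.3753 (by norm_num) (by norm_num) (by norm_num) (by norm_num))
    (ex_up 0.3672 (by norm_num) (by norm_num) (by norm_num) (by norm_num)) (ex_up 0.3753 (by norm_num) (by norm_num) (by norm_num) (by norm_num))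
    (by norm_num) (by norm_num), ?_⟩
  exact v5_M 0.68708 (ex_lm 0.3753 (by linarith) (by norm_num) (by norm_num) (by norm_num) (by norm_num)) (by norm_num) (by norm_num)

private theorem B5Mo_C115 {β r t κ : ℝ} (hβ : 0 < β) (hr : 10 ≤ r) (hκ : κ = β * r) (hk1 : 1.36 ≤ κ) (hk2 : κ ≤ 1.39) (hta : 1.0679 ≤ t + κ)
    (htb : t + κ ≤ 1.3196) : ‖F (cexp (I * β)) (r * cexp (I * ((t + β / 2 : ℝ) : ℂ)))‖ ≤
      1.3252 * Real.exp (r * (1.11623 - 0.27 * (t + κ))) + 0.268 * Real.exp (r * 0) :=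
  v5_H 0.27 1.36 1.39 1.0679 1.3196 1.11623 1.3213 0.47207 0.1488 1.2485 1.611 0.31681 0.04209 0.00000114 1.3252 0.268 hβ hr hκ (by norm_num) hk1 hk2 hta htb (by norm_num) (B5Mo_G114 hk1 hk2).1 (B5Mo_G114 hk1 hk2).2 (by norm_num) (by norm_num) (by norm_num)
    (by norm_num) (by norm_num) (by norm_num) (by norm_num) (by norm_num) (by norm_num) (by norm_num) (by norm_num) (ex_un 3 0.168 (by norm_num) (by norm_num) (by norm_num) (by norm_num))
    (v5_hump 2.0039 7.194 2.6822 0.0000009316 0.00000114 hβ hr hκ hk1 hk2 (by norm_num) htb (by norm_num) (by norm_num) (by norm_num) (by norm_num) (by norm_num) (by norm_num) (by norm_num) (ex_un 13 0.9 (by norm_num) (by norm_num) (by norm_num) (by norm_num)) (by norm_num)) (by norm_num) (by norm_num)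

private theorem B5Mo_K116 {β r t κ h : ℝ} (hβ : 0 < β) (hr : 10 ≤ r) (hκ : κ = β * r) (hk1 : 1.36 ≤ κ) (hk2 : κ ≤ 1.39)
    (hh : h = 2 * Real.pi / 5) (hh1 : 1.25663 ≤ h) (hh2 : h ≤ 1.25664) (hta : 1.068 ≤ t + κ) (htb : t + κ ≤ 1.3195)
    (hY : 0.6912 * Real.exp (r * sE κ (t - h)) ≤ ‖Xf β r h t 0‖) (hV : 0.99788 + 0.0224 * (t - h + κ) ≤ sE κ (t - h)) :
    ‖Xf β r h t 1‖ ≤ 0.369 * ‖Xf β r h t 0‖ := by
  rw [v5_X 1 0 (by push_cast; ring)]
  exact v5_cmp 0.1657 0.1917 0.368 0.9936 0.00004916 0.0000191 0.369 hr (B5Mo_C115 (t := t + 0 * h) hβ hr hκ hk1 hk2 (by linarith only [hta, htb, hh1, hh2]) (by linarith only [hta, htb, hh1, hh2])) hY (by norm_num) (by norm_num) (by norm_num) (by norm_num) (by linarith only [hV, hta, htb, hh1, hh2]) (ex_un 1 0.6569 (by norm_num) (by norm_num) (by norm_num) (by norm_num)) (by norm_num) (by norm_num) (by linarith only [hV, hta, htb, hh1, hh2]) (ex_un 9 0.9359 (by norm_num) (by norm_num) (by norm_num)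 (by norm_num)) (by norm_num) (by norm_num)

private theorem B5Mo_O117 {β r t κ h : ℝ} (hβ : 0 < β) (hr : 10 ≤ r) (hκ : κ = β * r) (hk1 : 1.36 ≤ κ) (hk2 : κ ≤ 1.39)
    (hh : h = 2 * Real.pi / 5) (hta : 1.068 ≤ t + κ) (htb : t + κ ≤ 1.3195) :
    ‖Xf β r h t (-2)‖ + ‖Xf β r h t (-1)‖ + ‖Xf β r h t 2‖ < |‖Xf β r h t 1‖ - ‖Xf β r h t 0‖| := by
  obtain ⟨hh1, hh2⟩ := v5_h hh
  have hκ0 : 0 < κ := by linarith only [hk1]
  have hN : β * 7.194 ≤ 1 := v5_hN 1.39 7.194 hβ hr hκ hk2 (by norm_num) (by norm_num)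
  have hD1 : DomR κ t := v5_dom hκ0 (by linarith only [hta, htb, hk1, hk2, hh1, hh2]) (Or.inr (by linarith only [hta, htb, hk1, hk2, hh1, hh2]))
  have hD0 : DomR κ (t - h) := v5_dom hκ0 (by linarith only [hta, htb, hk1, hk2, hh1, hh2]) (Or.inl (by linarith only [hk1]))
  have h0a : (-0.1887) ≤ t - h + κ := by linarith only [hta, htb, hh1, hh2]
  have h0b : t - h + κ ≤ 0.0629 := by linarith only [hta, htb, hh1, hh2]
  have e0 : t - h = t + (((0 : ℤ) : ℝ) - 1) * h := by push_cast; ring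
  have hY := B5Mo_Y109 (h := h) hβ hκ hN hk1 hk2 e0 hD0 h0a h0b
  have hV := B5Mo_V110 hD0 hk1 hk2 h0a h0b
  have cp2 := B5Mo_K111 hβ hr hκ hk1 hk2 hh hh1 hh2 hta htb hY hV
  have cm1 := B5Mo_K112 hβ hr hκ hk1 hk2 hh hh1 hh2 hta htb hY hV
  have cm2 := B5Mo_K113 hβ hr hκ hk1 hk2 hh hh1 hh2 hta htb hY hV
  have cn1 := B5Mo_K116 hβ hr hκ hk1 hk2 hh hh1 hh2 hta htb hY hV
  have hp : 0 < ‖Xf β r h t 0‖ := lt_of_lt_of_le (by positivity) hY
  exact v5_out0 _ _ _ _ cm2 cm1 cp2 cn1 hp (by norm_num)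

theorem R1_b5_M {p : ℤ} {β r : ℝ} (hp : IsCoprime (5 : ℤ) p) (hr : 10 ≤ r) (hβ : 0 < β) (hk1 : 1.36 ≤ β * r)
    (hk2 : β * r ≤ 1.39) : Circ (2 * Real.pi * p / 5 + β) r := by
  obtain ⟨h, hh⟩ : ∃ h : ℝ, h = 2 * Real.pi / 5 := ⟨_, rfl⟩
  obtain ⟨hh1, hh2⟩ := v5_h hh
  obtain ⟨κ, hκ⟩ : ∃ κ, κ = β * r := ⟨_, rfl⟩
  rw [← hκ] at hk1 hk2
  refine v5_circ (κ := κ) hp hr hh 0.45 0.58 1.07 0.0587 0.0469 0.0109 0.000852 0.0735 0.0505 0.00395 0.2095 ?_ ?_ (by norm_num) (by norm_num) (by norm_num) (by norm_num) (by norm_num) (by norm_num) (by norm_num) (by norm_num) (by norm_num) (by norm_num)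
  · intro t g1 g2
    rcases le_total (t + κ) 0.6199 with g3 | g3
    · exact B5Mw_W22 hβ hr hκ hk1 hk2 hh (by linarith) (by linarith)
    rcases le_total (t + κ) 0.6744 with g3 | g3
    · exact B5Mw_W44 hβ hr hκ hk1 hk2 hh (by linarith) (by linarith)
    exact B5Mw_W66 hβ hr hκ hk1 hk2 hh (by linarith) (by linarith)
  · intro t g1 g2 g3
    rcases g3 with g3 | g3
    · rcases le_total (t + κ) 0.251 with g4 | g4
      · exact B5Mo_O16 hβ hr hκ hk1 hk2 hh (by linarith) (by linarith)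
      rcases le_total (t + κ) 0.415 with g4 | g4
      · exact B5Mo_O32 hβ hr hκ hk1 hk2 hh (by linarith) (by linarith)
      exact B5Mo_O50 hβ hr hκ hk1 hk2 hh (by linarith) (by linarith)
    · rcases le_total (t + κ) 0.804 with g4 | g4
      · exact B5Mo_O68 hβ hr hκ hk1 hk2 hh (by linarith) (by linarith)
      rcases le_total (t + κ) 0.88 with g4 | g4
      · exact B5Mo_O86 hβ hr hκ hk1 hk2 hh (by linarith) (by linarith)
      rcases le_total (t + κ) 1.068 with g4 | g4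
      · exact B5Mo_O101 hβ hr hκ hk1 hk2 hh (by linarith) (by linarith)
      exact B5Mo_O117 hβ hr hκ hk1 hk2 hh (by linarith) (by linarith)

end Sok
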