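import Pool.Agent.Lib.MP_816dec_an.R1KS

/-!
MP_816dec_an (A3, row R1), SINGLE CASE `b = 5`, `κ = β r ≤ 0.3`, `r ≥ 10`.
-/

set_option autoImplicit false

open Complex Set Filter Topology Metric

namespace Sok

private theorem far5s (f : ℤ → ℝ) : ∑ k ∈ far (-2) 5, f k = f (-2) + f (-1) + f 2 := by
  have h : far (-2) 5 = {-2, -1, 2} := by decide
  rw [h]
  simp [add_assoc]

private theorem far5s_mem {k : ℤ} (hk : k ∈ far (-2) 5) : k = -2 ∨ k = -1 ∨ k = 2 := by
  have h : far (-2) 5 = {-2, -1, 2} := by decide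
  rw [h] at hk
  simpa using hk

/-- relative derivatives, divided by `r` -/
private noncomputable def w5 (k : ℤ) : ℝ :=
  if k = -2 then 0.0395 else if k = -1 then 0.0263 else if k = 2 then 0.0237 else 0

/-! ### the linear upper bounds -/

private theorem g75 {κ : ℝ} (hk : 0 < κ) (hκ : κ ≤ 0.3) : gG κ 0.75 ≤ 1.4245 :=
  ks_g 0.75 1.4245 0.79852 1.25233 hk hκ
    (ex_um 0.225 (by norm_num) (by norm_num) (by norm_num) (by norm_num))
    (ex_up 0.225 (by norm_num) (by norm_num) (by norm_num) (by norm_num)) (by norm_num) (by norm_num)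

private theorem g70 {κ : ℝ} (hk : 0 < κ) (hκ : κ ≤ 0.3) : gG κ 0.7 ≤ 1.3558 :=
  ks_g 0.7 1.3558 0.81059 1.23368 hk hκ
    (ex_um 0.21 (by norm_num) (by norm_num) (by norm_num) (by norm_num))
    (ex_up 0.21 (by norm_num) (by norm_num) (by norm_num) (by norm_num)) (by norm_num) (by norm_num)

private theorem g69 {κ : ℝ} (hk : 0 < κ) (hκ : κ ≤ 0.3) : gG κ (-0.69) ≤ 1.252 :=
  ks_g (-0.69) 1.252 1.22999 0.81304 hk hκ
    (ex_up 0.207 (by norm_num) (by norm_num) (by norm_num) (by norm_num))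
    (ex_um 0.207 (by norm_num) (by norm_num) (by norm_num) (by norm_num)) (by norm_num) (by norm_num)

private theorem g90 {κ : ℝ} (hk : 0 < κ) (hκ : κ ≤ 0.3) : gG κ (-0.9) ≤ 1.4545 :=
  ks_g (-0.9) 1.4545 1.30997 0.76338 hk hκ
    (ex_up 0.27 (by norm_num) (by norm_num) (by norm_num) (by norm_num))
    (ex_um 0.27 (by norm_num) (by norm_num) (by norm_num) (by norm_num)) (by norm_num) (by norm_num)

/-- data of a point on the circle -/
private structure P5 (β r h t κ : ℝ) : Prop where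
  hβ : 0 < β
  hr : 10 ≤ r
  hκ : κ = β * r
  h3 : β * r ≤ 0.3
  h1 : 1.256636 ≤ h
  h2 : h ≤ 1.256638

private theorem P5.k0 {β r h t κ : ℝ} (H : P5 β r h t κ) : 0 < κ := by
  rw [H.hκ]; have := H.hβ; have := H.hr; positivity

private theorem P5.k3 {β r h t κ : ℝ} (H : P5 β r h t κ) : κ ≤ 0.3 := by rw [H.hκ]; exact H.h3

/-- window, copy 1 as reference: copy 2 -/
private theorem win1 {β r h t κ : ℝ} (H : P5 β r h t κ) (ha : 0.4 * h ≤ t + κ) (hb : t + κ ≤ 0.7 * h) {u : ℝ} (hu : 0 ≤ u)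
    (hu' : u ≤ β) : ‖Xf β r h (t + u) 2‖ ≤ 0.0051 * ‖Xf β r h t 1‖ := by
  have hk := H.k0
  have hk3 := H.k3
  obtain ⟨hβ, hr, hκ, h3, h1, h2⟩ := H
  have hb3 := ks_beta hβ hr h3
  have hpi := Real.pi_gt_d6
  have hpi' := Real.pi_lt_d6
  have t1 : -(Real.pi / 2) < t := by linarith
  have t2 : t < Real.pi / 2 := by linarith
  have hd := ks_dom hk t1 t2
  have hV := ks_Lr hd hk3 (by linarith)
  have hY : 0.7155 * Real.exp (r * sE κ t) ≤ ‖Xf β r h t 1‖ := by
    rw [hκ]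
    exact ks_lo hβ hr h3 (by push_cast; ring) t1 t2
  obtain ⟨τ, hτ⟩ : ∃ τ, τ = t + κ := ⟨_, rfl⟩
  rw [← hτ] at ha hb hV
  have q1 : 0 ≤ (τ - 0.50265) * (0.87966 - τ) := mul_nonneg (by linarith) (by linarith)
  have hV2 : 0.613 ≤ 1 - τ ^ 2 / 2 := by linarith
  refine ks_far hβ hr h3 (t' := t + u + h) (by push_cast; ring) 0.61 0.00225 0.0051 hY ?_ ?_ ?_ ?_ (by norm_num)
    (ex_un 6 0.1 (by norm_num) (by norm_num) (by norm_num) (by norm_num)) (by norm_num)
  · linarith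
  · linarith
  · intro g1 g2
    rw [← hκ]
    have g3 := V_up (ks_dom hk g1 g2) 0.7 (g70 hk hk3)
    have g4 : t + u + h + κ = τ + u + h := by rw [hτ]; ring
    rw [g4] at g3
    linarith
  · linarith

/-- window, copy 0 as reference: copies -1 and -2 -/
private theorem win0 {β r h t κ : ℝ} (H : P5 β r h t κ) (ha : 0.4 * h ≤ t + κ) (hb : t + κ ≤ 0.7 * h) {u : ℝ} (hu : 0 ≤ u)
    (hu' : u ≤ β) : ‖Xf β r h (t + u) (-1)‖ ≤ 0.0051 * ‖Xf β r h t 0‖ ∧
      ‖Xf β r h (t + u) (-2)‖ ≤ 0.0051 * ‖Xf β r h t 0‖ ∧ 0.6107 ≤ sE κ (t - h) := by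
  have hk := H.k0
  have hk3 := H.k3
  obtain ⟨hβ, hr, hκ, h3, h1, h2⟩ := H
  have hb3 := ks_beta hβ hr h3
  have hpi := Real.pi_gt_d6
  have hpi' := Real.pi_lt_d6
  have t1 : -(Real.pi / 2) < t - h := by linarith
  have t2 : t - h < Real.pi / 2 := by linarith
  have hd := ks_dom hk t1 t2
  have hV := ks_Ll 0.75399 0.6847 hd hk3 (by linarith) (by norm_num) (by norm_num) (by norm_num)
  have hY : 0.7155 * Real.exp (r * sE κ (t - h)) ≤ ‖Xf β r h t 0‖ := by
    rw [hκ]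
    exact ks_lo hβ hr h3 (by push_cast; ring) t1 t2
  obtain ⟨x, hx⟩ : ∃ x, x = t - h + κ := ⟨_, rfl⟩
  rw [← hx] at hV
  have q1 : 0 ≤ (x + 0.75399) * (-0.3769 - x) := mul_nonneg (by linarith) (by linarith)
  have hV2 : 0.6107 ≤ 1 - 0.6847 * x ^ 2 := by linarith
  refine ⟨?_, ?_, by linarith⟩
  · refine ks_far hβ hr h3 (t' := t + u - 2 * h) (by push_cast; ring) 0.61 0.00225 0.0051 hY ?_ ?_ ?_ ?_ (by norm_num)
      (ex_un 6 0.1 (by norm_num) (by norm_num) (by norm_num) (by norm_num)) (by norm_num)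
    · linarith
    · linarith
    · intro g1 g2
      linarith
    · linarith
  · refine ks_far hβ hr h3 (t' := t + u - 3 * h) (by push_cast; ring) 0.61 0.00225 0.0051 hY ?_ ?_ ?_ ?_ (by norm_num)
      (ex_un 6 0.1 (by norm_num) (by norm_num) (by norm_num) (by norm_num)) (by norm_num)
    · linarith
    · linarith
    · intro g1 g2
      linarith
    · linarith

/-- window: the logarithmic derivatives -/
private theorem slope5 {β r h t κ : ℝ} (H : P5 β r h t κ) (ha : 0.4 * h ≤ t + κ) (hb : t + κ ≤ 0.7 * h) :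
    Xf β r h t 0 ≠ 0 ∧ ‖Ld β r h t 1‖ ≤ 1.038 * r ∧ ‖Ld β r h t 0‖ ≤ 1.553 * r ∧
      0.25 * r ≤ (Ld β r h t 1 - Ld β r h t 0).im := by
  have hk := H.k0
  have hk3 := H.k3
  have hV0 := (win0 H ha hb (u := 0) le_rfl H.hβ.le).2.2
  obtain ⟨hβ, hr, hκ, h3, h1, h2⟩ := H
  have hb3 := ks_beta hβ hr h3
  have hpi := Real.pi_gt_d6
  have hpi' := Real.pi_lt_d6
  have t1 : -(Real.pi / 2) < t := by linarith
  have t2 : t < Real.pi / 2 := by linarith
  have s1 : -(Real.pi / 2) < t - h := by linarith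
  have s2 : t - h < Real.pi / 2 := by linarith
  have hd := ks_dom hk t1 t2
  have hd0 := ks_dom hk s1 s2
  have e33 : Real.exp 0.332 ≤ 1.3938 := ex_up 0.332 le_rfl (by norm_num) (by norm_num) (by norm_num)
  have hy := sy_nonneg hd (by linarith)
  have hey : Real.exp (-sy κ t) ≤ 1 := Real.exp_le_one_iff.2 (by linarith)
  have hρ1 : κ * Real.exp (-sy κ t) ≤ 0.3 := by
    calc κ * Real.exp (-sy κ t) ≤ 0.3 * 1 := mul_le_mul hk3 hey (Real.exp_pos _).le (by norm_num)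
      _ = 0.3 := by norm_num
  have hD1 : 1 ≤ sD κ t := by
    rw [sD_eq5 hd]
    have := sq_nonneg (κ * Real.exp (-sy κ t))
    linarith
  obtain ⟨r1, r2, r3⟩ := ks_rho (κ := κ) (t := t - h) 0.6107 0.792 0.332 1.3938 0.4182 hd0 hk3
    (by linarith) hV0 (by norm_num) (by norm_num) (by norm_num) (by norm_num)
    (by norm_num at e33 ⊢; linarith) e33 (by norm_num) (by norm_num)
  have hD0 : 0.512 ≤ sD κ (t - h) := le_trans (by norm_num) r2
  rw [hκ] at hρ1 hD1 r1 hD0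
  obtain ⟨-, -, c1, c2⟩ := ks_Ld (k := 1) (t' := t) (h := h) (t := t) 0.3 1 0.19 0.763 0.229 0.379 hβ hr h3
    (by push_cast; ring) t1 t2 hρ1 (by norm_num) hD1 (by norm_num) (by norm_num) (by norm_num) (by norm_num)
    (by norm_num) (by norm_num) (by norm_num)
  obtain ⟨d0, -, d1, d2⟩ := ks_Ld (k := 0) (t' := t - h) (h := h) (t := t) 0.4182 0.512 0.0718 2.019 1.181 1.59 hβ hr h3
    (by push_cast; ring) s1 s2 r1 (by norm_num) hD0 (by norm_num) (by norm_num) (by norm_num) (by norm_num)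
    (by norm_num) (by norm_num) (by norm_num)
  rw [← hκ] at c1 c2 d1 d2
  have hr0 : 0 < r := by linarith
  refine ⟨d0, ?_, ?_, ?_⟩
  · have := mul_le_mul_of_nonneg_left hey hr0.le
    linarith
  · have e1 : Real.exp (-sy κ (t - h)) ≤ 1.3938 := (Real.exp_le_exp.2 (by linarith)).trans e33
    have := mul_le_mul_of_nonneg_left e1 hr0.le
    linarith
  · have e192 : Real.exp (0.3 * 0.64) ≤ 1.2117 := ex_up 0.192 (by norm_num) (by norm_num) (by norm_num) (by norm_num)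
    have q1 := ks_Qr 0.64 1.2117 1.399 hd hk3 (by linarith) e192 (by norm_num) (by linarith)
    have q0 := ks_Ql 0.66 1.1522 hd0 hk3 (by linarith) (by norm_num) (by linarith)
      (by norm_num)
    have p1 := ks_sp_r hd (by linarith) q1
    have p0 := ks_sp_l hd0 (by linarith) q0
    have hs : 0.449 ≤ sp κ t - sp κ (t - h) := by norm_num at p1 p0 ⊢; linarith
    have hs2 := mul_le_mul_of_nonneg_left hs hr0.le
    rw [Complex.sub_im]
    have a1 := (abs_le.1 c1).1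
    have a2 := (abs_le.1 d1).2
    linarith

/-- outside the window, left part -/
private theorem out1 {β r h t κ : ℝ} (H : P5 β r h t κ) (ha : 0 ≤ t + κ) (hb : t + κ < 0.4 * h) :
    ‖Xf β r h t (-2)‖ + ‖Xf β r h t (-1)‖ + ‖Xf β r h t 2‖ < |‖Xf β r h t 1‖ - ‖Xf β r h t 0‖| := by
  have hk := H.k0
  have hk3 := H.k3
  obtain ⟨hβ, hr, hκ, h3, h1, h2⟩ := H
  have hb3 := ks_beta hβ hr h3
  have hpi := Real.pi_gt_d6
  have hpi' := Real.pi_lt_d6
  have t1 : -(Real.pi / 2) < t := by linarith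
  have t2 : t < Real.pi / 2 := by linarith
  have s1 : -(Real.pi / 2) < t - h := by linarith
  have s2 : t - h < Real.pi / 2 := by linarith
  have hd := ks_dom hk t1 t2
  have hd0 := ks_dom hk s1 s2
  have hV := ks_Lr hd hk3 ha
  have hY : 0.7155 * Real.exp (r * sE κ t) ≤ ‖Xf β r h t 1‖ := by
    rw [hκ]
    exact ks_lo hβ hr h3 (by push_cast; ring) t1 t2
  have hX0 : ‖Xf β r h t 0‖ ≤ 1.578 * Real.exp (r * sE κ (t - h)) := by
    rw [hκ]
    exact ks_up hβ hr h3 (by push_cast; ring) s1 s2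
  have hY0 : 0 < ‖Xf β r h t 1‖ := lt_of_lt_of_le (by positivity) hY
  obtain ⟨τ, hτ⟩ : ∃ τ, τ = t + κ := ⟨_, rfl⟩
  rw [← hτ] at ha hb hV
  have q1 : 0 ≤ τ * (0.50266 - τ) := mul_nonneg (by linarith) (by linarith)
  have hV2 : 0.8736 ≤ 1 - τ ^ 2 / 2 := by linarith
  have z0 : ‖Xf β r h t 0‖ ≤ 0.6 * ‖Xf β r h t 1‖ := by
    refine hX0.trans (v5_term 0.272 0.1305 hr (by norm_num) hY (by norm_num) ?_
      (ex_un 1 0.305 (by norm_num) (by norm_num) (by norm_num) (by norm_num)) (by norm_num) (by norm_num))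
    have g3 := V_up hd0 (-0.69) (g69 hk hk3)
    have g4 : t - h + κ = τ - h := by rw [hτ]; ring
    rw [g4] at g3
    linarith
  have z2 : ‖Xf β r h t 2‖ ≤ 0.0125 * ‖Xf β r h t 1‖ := by
    refine ks_far hβ hr h3 (t' := t + h) (by push_cast; ring) 0.52 0.00555 0.0125 hY ?_ ?_ ?_ ?_ (by norm_num)
      (ex_un 5 0.2 (by norm_num) (by norm_num) (by norm_num) (by norm_num)) (by norm_num)
    · linarith
    · linarith
    · intro g1 g2
      rw [← hκ]
      have g3 := V_up (ks_dom hk g1 g2) 0.7 (g70 hk hk3)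
      have g4 : t + h + κ = τ + h := by rw [hτ]; ring
      rw [g4] at g3
      linarith
    · linarith
  have zm1 : ‖Xf β r h t (-1)‖ ≤ 0.0005 * ‖Xf β r h t 1‖ := by
    refine ks_far hβ hr h3 (t' := t - 2 * h) (by push_cast; ring) 0.87 0.000172 0.0005 hY ?_ ?_ ?_ ?_ (by norm_num)
      (ex_un 8 0.7 (by norm_num) (by norm_num) (by norm_num) (by norm_num)) (by norm_num)
    · linarith
    · linarith
    · intro g1 g2
      linarith
    · linarith
  have zm2 : ‖Xf β r h t (-2)‖ ≤ 0.0005 * ‖Xf β r h t 1‖ := by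
    refine ks_far hβ hr h3 (t' := t - 3 * h) (by push_cast; ring) 0.87 0.000172 0.0005 hY ?_ ?_ ?_ ?_ (by norm_num)
      (ex_un 8 0.7 (by norm_num) (by norm_num) (by norm_num) (by norm_num)) (by norm_num)
    · linarith
    · linarith
    · intro g1 g2
      linarith
    · linarith
  refine lt_of_lt_of_le ?_ (le_abs_self _)
  linarith

/-- outside the window, right part -/
private theorem out0 {β r h t κ : ℝ} (H : P5 β r h t κ) (ha : 0.7 * h < t + κ) (hb : t + κ ≤ h) :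
    ‖Xf β r h t (-2)‖ + ‖Xf β r h t (-1)‖ + ‖Xf β r h t 2‖ < |‖Xf β r h t 1‖ - ‖Xf β r h t 0‖| := by
  have hk := H.k0
  have hk3 := H.k3
  obtain ⟨hβ, hr, hκ, h3, h1, h2⟩ := H
  have hb3 := ks_beta hβ hr h3
  have hpi := Real.pi_gt_d6
  have hpi' := Real.pi_lt_d6
  have t1 : -(Real.pi / 2) < t := by linarith
  have t2 : t < Real.pi / 2 := by linarith
  have s1 : -(Real.pi / 2) < t - h := by linarith
  have s2 : t - h < Real.pi / 2 := by linarith
  have hd := ks_dom hk t1 t2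
  have hd0 := ks_dom hk s1 s2
  have hV := ks_Ll 0.377 0.5691 hd0 hk3 (by linarith) (by norm_num) (by norm_num) (by norm_num)
  have hY : 0.7155 * Real.exp (r * sE κ (t - h)) ≤ ‖Xf β r h t 0‖ := by
    rw [hκ]
    exact ks_lo hβ hr h3 (by push_cast; ring) s1 s2
  have hX1 : ‖Xf β r h t 1‖ ≤ 1.578 * Real.exp (r * sE κ t) := by
    rw [hκ]
    exact ks_up hβ hr h3 (by push_cast; ring) t1 t2
  have hY0 : 0 < ‖Xf β r h t 0‖ := lt_of_lt_of_le (by positivity) hY
  obtain ⟨x, hx⟩ : ∃ x, x = t - h + κ := ⟨_, rfl⟩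
  rw [← hx] at hV
  have hxa : -0.377 ≤ x := by rw [hx]; linarith
  have hxb : x ≤ 0 := by rw [hx]; linarith
  have q1 : 0 ≤ -x * (x + 0.377) := mul_nonneg (by linarith) (by linarith)
  have hV2 : 0.919 ≤ 1 - 0.5691 * x ^ 2 := by linarith
  have z1 : ‖Xf β r h t 1‖ ≤ 0.6 * ‖Xf β r h t 0‖ := by
    refine hX1.trans (v5_term 0.272 0.1305 hr (by norm_num) hY (by norm_num) ?_
      (ex_un 1 0.305 (by norm_num) (by norm_num) (by norm_num) (by norm_num)) (by norm_num) (by norm_num))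
    have g3 := V_up hd 0.75 (g75 hk hk3)
    have g4 : t + κ = x + h := by rw [hx]; ring
    rw [g4] at g3
    linarith
  have z2 : ‖Xf β r h t 2‖ ≤ 0.0005 * ‖Xf β r h t 0‖ := by
    refine ks_far hβ hr h3 (t' := t + h) (by push_cast; ring) 0.87 0.000172 0.0005 hY ?_ ?_ ?_ ?_ (by norm_num)
      (ex_un 8 0.7 (by norm_num) (by norm_num) (by norm_num) (by norm_num)) (by norm_num)
    · linarith
    · linarith
    · intro g1 g2
      linarith
    · linarith
  have zm1 : ‖Xf β r h t (-1)‖ ≤ 0.003 * ‖Xf β r h t 0‖ := by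
    refine ks_far hβ hr h3 (t' := t - 2 * h) (by push_cast; ring) 0.67 0.00125 0.003 hY ?_ ?_ ?_ ?_ (by norm_num)
      (ex_un 6 0.7 (by norm_num) (by norm_num) (by norm_num) (by norm_num)) (by norm_num)
    · linarith
    · linarith
    · intro g1 g2
      rw [← hκ]
      have g3 := V_up (ks_dom hk g1 g2) (-0.9) (g90 hk hk3)
      have g4 : t - 2 * h + κ = x - h := by rw [hx]; ring
      rw [g4] at g3
      linarith
    · linarith
  have zm2 : ‖Xf β r h t (-2)‖ ≤ 0.0005 * ‖Xf β r h t 0‖ := by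
    refine ks_far hβ hr h3 (t' := t - 3 * h) (by push_cast; ring) 0.87 0.000172 0.0005 hY ?_ ?_ ?_ ?_ (by norm_num)
      (ex_un 8 0.7 (by norm_num) (by norm_num) (by norm_num) (by norm_num)) (by norm_num)
    · linarith
    · linarith
    · intro g1 g2
      linarith
    · linarith
  rw [abs_sub_comm]
  refine lt_of_lt_of_le ?_ (le_abs_self _)
  linarith

private theorem wterm {β r h t e w L : ℝ} {k : ℤ} {L0 L1 : ℂ} {c0 c1 : ℂ} {Y : ℝ} (hr : 0 < r) (hY : 0 ≤ Y)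
    (h1 : ‖Xf β r h (t + β) k‖ ≤ e * Y) (h2 : ‖Xf β r h t k‖ ≤ e * Y) (he : 0 ≤ e)
    (hL : ‖c0 * L0 - c1 * L1‖ ≤ L * r) (hw : e * (1 + L) ≤ w) :
    r * ‖Xf β r h (t + β) k‖ + ‖Xf β r h t k‖ * ‖c0 * L0 - c1 * L1‖ ≤ w * r * Y := by
  have a1 := mul_le_mul_of_nonneg_left h1 hr.le
  have a2 : ‖Xf β r h t k‖ * ‖c0 * L0 - c1 * L1‖ ≤ (e * Y) * (L * r) :=
    mul_le_mul h2 hL (norm_nonneg _) (mul_nonneg he hY)
  have a3 := mul_le_mul_of_nonneg_right hw (mul_nonneg hr.le hY)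
  linarith

private theorem comb {L0 L1 : ℂ} {r : ℝ} (c0 c1 : ℂ) (n0 n1 A0 A1 L : ℝ) (h0 : ‖L0‖ ≤ A0 * r) (h1 : ‖L1‖ ≤ A1 * r)
    (e0 : ‖c0‖ = n0) (e1 : ‖c1‖ = n1) (hr : 0 ≤ r) (hn0 : 0 ≤ n0) (hn1 : 0 ≤ n1) (hL : n0 * A0 + n1 * A1 ≤ L) :
    ‖c0 * L0 - c1 * L1‖ ≤ L * r := by
  refine (norm_sub_le _ _).trans ?_
  rw [norm_mul, norm_mul, e0, e1]
  have a0 := mul_le_mul_of_nonneg_left h0 hn0
  have a1 := mul_le_mul_of_nonneg_left h1 hn1
  have a2 := mul_le_mul_of_nonneg_right hL hr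
  linarith

/-- **row R1, `b = 5`, `κ ≤ 0.3`**, with the cast of `b` -/
theorem R1_b5_smallN {p : ℤ} {β r : ℝ} (hp : IsCoprime (5 : ℤ) p) (hr : 10 ≤ r) (hβ : 0 < β) (hκ : β * r ≤ 0.3) :
    Circ (2 * Real.pi * p / (5 : ℕ) + β) r := by
  have hpi := Real.pi_gt_d6
  have hpi' := Real.pi_lt_d6
  have hr0 : 0 < r := by linarith
  obtain ⟨h, hh⟩ : ∃ h : ℝ, h = 2 * Real.pi / (5 : ℕ) := ⟨_, rfl⟩
  have h1 : 1.256636 ≤ h := by rw [hh]; push_cast; norm_num at *; linarith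
  have h2 : h ≤ 1.256638 := by rw [hh]; push_cast; norm_num at *; linarith
  have H : ∀ t : ℝ, P5 β r h t (β * r) := fun t => ⟨hβ, hr, rfl, hκ, h1, h2⟩
  refine circ_LW (b := 5) (by norm_num) (by exact_mod_cast hp) (κ := β * r) hr0 hh (a0 := -2) (by norm_num) (by norm_num)
    (s0 := 0) (slo := 0.4) (shi := 0.7) (a := 1.02) (m := 0.25 * r) (η := 0.0153) (E := fun _ => 0.0051)
    (W := fun k => w5 k * r)
    (by norm_num) (by norm_num) (by positivity) (by norm_num) ?_ ?_ ?_ ?_ ?_ ?_ ?_ ?_ ?_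
  · intro t ta tb
    exact (slope5 (H t) ta tb).1
  · intro t ta tb k hk
    have a1 := win1 (H t) ta tb (u := 0) le_rfl hβ.le
    obtain ⟨b1, b2, -⟩ := win0 (H t) ta tb (u := 0) le_rfl hβ.le
    rw [add_zero] at a1 b1 b2
    rcases far5s_mem hk with rfl | rfl | rfl
    · norm_num [sd]; norm_num at b2; exact b2
    · norm_num [sd]; norm_num at b1; exact b1
    · norm_num [sd]; norm_num at a1; exact a1
  · intro t ta tb k hk
    have a1 := win1 (H t) ta tb (u := 0) le_rfl hβ.le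
    obtain ⟨b1, b2, -⟩ := win0 (H t) ta tb (u := 0) le_rfl hβ.le
    rw [add_zero] at a1 b1 b2
    have c1 := win1 (H t) ta tb (u := β) hβ.le le_rfl
    obtain ⟨d1, d2, -⟩ := win0 (H t) ta tb (u := β) hβ.le le_rfl
    obtain ⟨-, l1, l0, -⟩ := slope5 (H t) ta tb
    rcases far5s_mem hk with rfl | rfl | rfl
    · have hw : w5 (-2) = 0.0395 := by norm_num [w5]
      have hs : sd (-2) = 0 := by norm_num [sd]
      simp only [hw, hs]
      refine wterm hr0 (norm_nonneg _) d2 b2 (by norm_num) (L := 6.735) ?_ (by norm_num)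
      exact comb _ _ 3 2 1.553 1.038 6.735 l0 l1 (by norm_num) (by norm_num) hr0.le (by norm_num) (by norm_num) (by norm_num)
    · have hw : w5 (-1) = 0.0263 := by norm_num [w5]
      have hs : sd (-1) = 0 := by norm_num [sd]
      simp only [hw, hs]
      refine wterm hr0 (norm_nonneg _) d1 b1 (by norm_num) (L := 4.144) ?_ (by norm_num)
      exact comb _ _ 2 1 1.553 1.038 4.144 l0 l1 (by norm_num) (by norm_num) hr0.le (by norm_num) (by norm_num) (by norm_num)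
    · have hw : w5 2 = 0.0237 := by norm_num [w5]
      have hs : sd 2 = 1 := by norm_num [sd]
      simp only [hw, hs]
      refine wterm hr0 (norm_nonneg _) c1 a1 (by norm_num) (L := 3.629) ?_ (by norm_num)
      exact comb _ _ 1 2 1.553 1.038 3.629 l0 l1 (by norm_num) (by norm_num) hr0.le (by norm_num) (by norm_num) (by norm_num)
  · intro t ta tb
    exact (slope5 (H t) ta tb).2.2.2
  · rw [far5s]
    norm_num
  · intro t ta tb hor
    rw [far5s]
    rcases hor with ho | ho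
    · exact out1 (H t) (by linarith) ho
    · exact out0 (H t) ho (by linarith)
  · intro k
    norm_num
  · rw [far5s]
    norm_num [pv]
  · rw [far5s, far5s]
    norm_num [w5, pv]
    linarith

/-- **row R1, `b = 5`, `κ ≤ 0.3`** -/
theorem R1_b5_small {p : ℤ} {β r : ℝ} (hp : IsCoprime (5 : ℤ) p) (hr : 10 ≤ r) (hβ : 0 < β) (hκ : β * r ≤ 0.3) :
    Circ (2 * Real.pi * p / 5 + β) r := by
  have h := R1_b5_smallN hp hr hβ hκ
  rwa [Nat.cast_ofNat] at h

end Sok
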