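import Pool.Agent.Lib.MP_816dec_an.R1All
import Pool.Agent.Lib.MP_816dec_an.R1b5S
import Pool.Agent.Lib.MP_816dec_an.R1b5OA
import Pool.Agent.Lib.MP_816dec_an.R1b5OB
import Pool.Agent.Lib.MP_816dec_an.R1b5OC
import Pool.Agent.Lib.MP_816dec_an.R1b5OD
import Pool.Agent.Lib.MP_816dec_an.R1b5OE
import Pool.Agent.Lib.MP_816dec_an.R1b5OF
import Pool.Agent.Lib.MP_816dec_an.R1b5OG
import Pool.Agent.Lib.MP_816dec_an.R1b5OH
import Pool.Agent.Lib.MP_816dec_an.R1b5OI
import Pool.Agent.Lib.MP_816dec_an.R1b5OJ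
import Pool.Agent.Lib.MP_816dec_an.R1b5OK
import Pool.Agent.Lib.MP_816dec_an.R1b5OL
import Pool.Agent.Lib.MP_816dec_an.R1b5OM

/-!
MP_816dec_an (A3, row R1), SINGLE CASE `b = 5`: assembly.
-/

set_option autoImplicit false

namespace Sok

theorem R1_b5 : R1At 5 := by
  intro p β r hp hr hβ hκ _
  have hp' : IsCoprime (5 : ℤ) p := by exact_mod_cast hp
  have e : (2 * Real.pi * p / ((5 : ℕ) : ℝ) + β : ℝ) = 2 * Real.pi * p / 5 + β := by push_cast; ring
  rw [e]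
  rcases le_total (β * r) 0.3 with h1 | h1
  · exact R1_b5_small hp' hr hβ h1
  rcases le_total (β * r) 0.36 with h2 | h2
  · exact R1_b5_A hp' hr hβ h1 h2
  rcases le_total (β * r) 0.42 with h3 | h3
  · exact R1_b5_B hp' hr hβ h2 h3
  rcases le_total (β * r) 0.5 with h4 | h4
  · exact R1_b5_C hp' hr hβ h3 h4
  rcases le_total (β * r) 0.6 with h5 | h5
  · exact R1_b5_D hp' hr hβ h4 h5
  rcases le_total (β * r) 0.7 with h6 | h6
  · exact R1_b5_E hp' hr hβ h5 h6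
  rcases le_total (β * r) 0.8 with h7 | h7
  · exact R1_b5_F hp' hr hβ h6 h7
  rcases le_total (β * r) 0.9 with h8 | h8
  · exact R1_b5_G hp' hr hβ h7 h8
  rcases le_total (β * r) 1 with h9 | h9
  · exact R1_b5_H hp' hr hβ h8 h9
  rcases le_total (β * r) 1.15 with h10 | h10
  · exact R1_b5_I hp' hr hβ h9 h10
  rcases le_total (β * r) 1.25 with h11 | h11
  · exact R1_b5_J hp' hr hβ h10 h11
  rcases le_total (β * r) 1.33 with h12 | h12
  · exact R1_b5_K hp' hr hβ h11 h12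
  rcases le_total (β * r) 1.36 with h13 | h13
  · exact R1_b5_L hp' hr hβ h12 h13
  exact R1_b5_M hp' hr hβ h13 hκ

end Sok
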