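import Pool.Agent.Lib.MP_816dec_an.R1b6B
import Pool.Agent.Lib.MP_816dec_an.R1b6S
import Pool.Agent.Lib.MP_816dec_an.R1All

/-!
MP_816dec_an (A3, row R1-b6): the case `b = 6`.
-/

set_option autoImplicit false

namespace Sok

theorem R1_b6 : R1At 6 := by
  intro p β r hp hr hβ hκ hcov
  push_cast at hp hcov ⊢
  rcases le_total (β * r) 0.3 with h | h
  · exact R1_b6_small hp hr hβ h
  · exact R1_b6_big hp hr hβ h hκ hcov

end Sok
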