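import Pool.Agent.Lib.MP_816dec_an.R1b7C
import Pool.Agent.Lib.MP_816dec_an.JB7a
import Pool.Agent.Lib.MP_816dec_an.JB7b
import Pool.Agent.Lib.MP_816dec_an.T7S0a
import Pool.Agent.Lib.MP_816dec_an.T7S1a

/-!
MP_816dec_an (A3, row R1), b = 7: box 1
-/

set_option autoImplicit false
set_option maxHeartbeats 4000000

open Complex Set Filter Topology Metric

namespace Sok

private theorem b7_1_yL1 {κ t : ℝ} (h : DomR κ t) (hk1 : 0.27 ≤ κ) (hk2 : κ ≤ 0.36) (ht1 : 0 ≤ t + κ) (ht2 : t + κ ≤ 0.5296) :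
    0 ≤ sy κ t ∧ sy κ t ≤ 0.138 := by
  have hy1 : 0 ≤ sy κ t := sy_nonneg h (by linarith)
  have hy2 : sy κ t ≤ 0.138 := syR_le h 0.27 0.36 0.5296 0.138 1.14797 0.4155 0.44005 0.58675 hk1 hk2 (by linarith) (by norm_num) (by norm_num)
    (expn_ge (by norm_num) (by norm_num)) (by norm_num) (by norm_num) (Or.inr ((mul_le_mul_of_nonneg_left (expn_le (E := 1.14798) (by norm_num) (by norm_num) (by norm_num)) (by norm_num)).trans (by norm_num))) (by norm_num) (by norm_num) (by norm_num)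
  exact ⟨by linarith, by linarith⟩

theorem b7_1_L1 {β r h κ T t s : ℝ} (B : Bx 0.27 0.36 0.3187 0.2516 10 0.036 7.1324 β r h κ T) (hs : t + κ = s * h)
    (h1 : 0.05 ≤ s) (h2 : s ≤ 0.59) :
    eN r κ * (0.919 * Real.exp (-(T * (1 / 2 * s ^ 2)))) ≤ ‖Xf β r h t 1‖ := by
  have a1 : 0.0448 ≤ t + κ := by rw [hs]; exact mlo7 B.P h1 (by norm_num) (by norm_num)
  have a2 : t + κ ≤ 0.5296 := by rw [hs]; exact mhi7 B.P h2 (by norm_num) (by norm_num)
  have hk := B.hk1
  have hD : DomR κ t := dom7 B.P.κ0 (by linarith) (by linarith)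
  have hy := b7_1_yL1 hD B.hk1 B.hk2 (by linarith) a2
  have hJ := JB7_k1a hD B.P.hβ (by linarith) B.P.hκ1 (by linarith) (by linarith) B.P.βκ B.P.βR
  have hd := Dup7 hD (0.27 ^ 2) (0.36 ^ 2) 1.2409 0 0.138 1 0.75882 hy.1 hy.2 (pow_le_pow_left₀ (by norm_num) B.hk1 2) (pow_le_pow_left₀ B.P.κ0.le B.hk2 2)
      (by norm_num)
      (by rw [show (-2 * 0.138 : ℝ) = -0.276 by norm_num]; exact expm_le (by norm_num) (by norm_num) (by norm_num)) (by norm_num) (by norm_num) (by norm_num) (by norm_num)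
  have := loR7 (k := 1) 0 0.03 1.2409 0.919 B.P (by norm_num) (by ring : t = t + 0 * h) hs (by linarith) hD (by norm_num) hJ hd (by norm_num) (by norm_num)
  rw [add_zero] at this
  exact this

private theorem b7_1_yL0 {κ t : ℝ} (h : DomR κ t) (hk1 : 0.27 ≤ κ) (hk2 : κ ≤ 0.36) (ht1 : (-0.5117) ≤ t + κ) (ht2 : t + κ ≤ 0) :
    (-0.206) ≤ sy κ t ∧ sy κ t ≤ 0 := by
  have hy1 : -0.206 ≤ sy κ t := syL_ge h 0.27 0.36 0.5117 0.206 0.81383 0.81384 0.4527 0.46569 0.62093 hk1 hk2 (by linarith) (by norm_num) (by norm_num) (by norm_num)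
    (expm_ge (by norm_num) (by norm_num) (by norm_num) (by norm_num)) (expm_le (by norm_num) (by norm_num) (by norm_num)) (by norm_num)
    (by norm_num) (by norm_num) (by norm_num) (by norm_num) (by norm_num) (by norm_num)
  have hy2 : sy κ t ≤ 0 := sy_nonpos h (by linarith)
  exact ⟨by linarith, by linarith⟩

private theorem b7_1_yL00 {κ t : ℝ} (h : DomR κ t) (hk1 : 0.27 ≤ κ) (hk2 : κ ≤ 0.36) (ht1 : 0 ≤ t + κ) (ht2 : t + κ ≤ 0.05) :
    0 ≤ sy κ t ∧ sy κ t ≤ 0.016 := by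
  have hy1 : 0 ≤ sy κ t := sy_nonneg h (by linarith)
  have hy2 : sy κ t ≤ 0.016 := syR_le h 0.27 0.36 0.05 0.016 1.01612 0.0413 0.04516 0.06022 hk1 hk2 (by linarith) (by norm_num) (by norm_num)
    (expn_ge (by norm_num) (by norm_num)) (by norm_num) (by norm_num) (Or.inr ((mul_le_mul_of_nonneg_left (expn_le (E := 1.01613) (by norm_num) (by norm_num) (by norm_num)) (by norm_num)).trans (by norm_num))) (by norm_num) (by norm_num) (by norm_num)
  exact ⟨by linarith, by linarith⟩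

theorem b7_1_L0 {β r h κ T t s : ℝ} (B : Bx 0.27 0.36 0.3187 0.2516 10 0.036 7.1324 β r h κ T) (hs : t + κ = s * h)
    (h1 : 0.43 ≤ s) (h2 : s ≤ 1.05) :
    eN r κ * (0.9137 * Real.exp (-(T * (0.5977 * (1 - s) ^ 2)))) ≤ ‖Xf β r h t 0‖ := by
  obtain ⟨t', ht'⟩ : ∃ t', t' = t + (-1) * h := ⟨_, rfl⟩
  have hτ : t' + κ = (s + (-1)) * h := by rw [ht']; linear_combination hs
  have e : 0.5977 * (1 - s) ^ 2 = 0.5977 * (s + (-1)) ^ 2 := by ring
  rw [e]
  have b1 : -((s + (-1)) * h) ≤ 0.5117 := mhiN7 B.P (x2 := 0.57) (by linarith) (by norm_num) (by norm_num)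
  have b2 : (s + (-1)) * h ≤ 0.05 := mhi7 B.P (x2 := 0.05) (by linarith) (by norm_num) (by norm_num)
  have hk := B.hk1
  have hk' := B.P.hκ1
  rw [← hτ] at b1 b2
  have hD : DomR κ t' := dom7 B.P.κ0 (by linarith) (by linarith)
  have hJ := JB7_k0a hD B.P.hβ (by linarith) B.P.hκ1 (by linarith) (by linarith) B.P.βκ B.P.βR
  rcases le_total s 1 with hc | hc
  · have b3 : t' + κ ≤ 0 := by rw [hτ]; exact mul_nonpos_of_nonpos_of_nonneg (by linarith) B.P.h0.le
    have hy := b7_1_yL0 hD B.hk1 B.hk2 (by linarith) b3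
    have hd := Dup7 hD (0.27 ^ 2) (0.36 ^ 2) 1.0277 (-0.206) 0 1.50984 1 hy.1 hy.2 (pow_le_pow_left₀ (by norm_num) B.hk1 2) (pow_le_pow_left₀ B.P.κ0.le B.hk2 2)
      (by rw [show (-2 * (-0.206) : ℝ) = 0.412 by norm_num]; exact expn_le (by norm_num) (by norm_num) (by norm_num))
      (by norm_num) (by norm_num) (by norm_num) (by norm_num) (by norm_num)
    exact loLB7 (k := 0) (-1) 0.08 1.0277 0.9137 0.5977 0.5117 0.4548 0.1148 0.8097 B (by norm_num) ht' hs (by linarith) (by rw [← hτ]; exact b1) hD (by norm_num) hJ hd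
      (by norm_num) (by norm_num) (by norm_num) (by norm_num) (by norm_num) (by norm_num) (by norm_num) (by norm_num) (by norm_num) (by norm_num) (by norm_num) (by norm_num) (by norm_num)
  · have b3 : 0 ≤ t' + κ := by rw [hτ]; exact mul_nonneg (by linarith) B.P.h0.le
    have hy := b7_1_yL00 hD B.hk1 B.hk2 b3 b2
    have hd := Dup7 hD (0.27 ^ 2) (0.36 ^ 2) 1.0277 0 0.016 1 0.96851 hy.1 hy.2 (pow_le_pow_left₀ (by norm_num) B.hk1 2) (pow_le_pow_left₀ B.P.κ0.le B.hk2 2)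
      (by norm_num)
      (by rw [show (-2 * 0.016 : ℝ) = -0.032 by norm_num]; exact expm_le (by norm_num) (by norm_num) (by norm_num)) (by norm_num) (by norm_num) (by norm_num) (by norm_num)
    have := loR7 (k := 0) (-1) 0.08 1.0277 0.9137 B.P (by norm_num) ht' hs (by linarith) hD (by norm_num) hJ hd (by norm_num) (by norm_num)
    exact le_trans (weak7 (by have := B.P.T5; linarith) (by norm_num) (by norm_num)) this

private theorem b7_1_W2a_y {κ t : ℝ} (h : DomR κ t) (hk1 : 0.27 ≤ κ) (hk2 : κ ≤ 0.36) (ht1 : 1.2835 ≤ t + κ) (ht2 : t + κ ≤ 1.3981) :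
    0.18 ≤ sy κ t ∧ sy κ t ≤ 0.26 := by
  have hy1 : 0.18 ≤ sy κ t := syR_ge h 0.27 0.36 1.2835 0.18 1.19721 1.19722 0.5986 0.79815 hk1 hk2 (by linarith) (by norm_num) (by norm_num)
    (expn_ge (by norm_num) (by norm_num)) (expn_le (by norm_num) (by norm_num) (by norm_num)) (by norm_num)
    (by norm_num) (by norm_num) (by norm_num) (by norm_num) (by norm_num) (by norm_num)
  have hy2 : sy κ t ≤ 0.26 := syR_ang2 h 0.27 0.36 1.3981 1.21 0.3573 0.9364 0.26 0.77106 1.29693 hk1 hk2 (by linarith) (by norm_num) (by norm_num) (by norm_num)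
    (cos_le_num (by norm_num)) (sin_le_num (by norm_num) (by norm_num)) (expm_le (by norm_num) (by norm_num) (by norm_num))
    (expn_ge (by norm_num) (by norm_num)) (by norm_num) (by norm_num) (by norm_num) (by norm_num) (by norm_num)
  exact ⟨by linarith, by linarith⟩

theorem b7_1_W2a {β r h κ T t s u Y : ℝ} (B : Bx 0.27 0.36 0.3187 0.2516 10 0.036 7.1324 β r h κ T) (hs : t + κ = s * h)
    (h1 : 0.43 ≤ u) (h2 : u ≤ 0.475) (h3 : u ≤ s) (h4 : s ≤ u + 0.0826)
    (hY : eN r κ * (0.919 * Real.exp (-(T * (1 / 2 * u ^ 2)))) ≤ Y) :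
    ‖Xf β r h t 2‖ ≤ 0.01541 * Y := by
  obtain ⟨t', ht'⟩ : ∃ t', t' = t + 1 * h := ⟨_, rfl⟩
  have hτ : t' + κ = (s + 1) * h := by rw [ht']; linear_combination hs
  have a1 : 1.2835 ≤ t' + κ := by rw [hτ]; exact mlo7 B.P (x1 := 1.43) (by linarith) (by norm_num) (by norm_num)
  have a2 : t' + κ ≤ 1.3981 := by rw [hτ]; exact mhi7 B.P (x2 := 1.5576) (by linarith) (by norm_num) (by norm_num)
  have hk := B.hk1
  have hk' := B.P.hκ1
  have hD : DomR κ t' := dom7 B.P.κ0 (by linarith) (by linarith)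
  have hy := b7_1_W2a_y hD B.hk1 B.hk2 a1 a2
  have hJ : ‖HH β (sg κ t') - 1‖ ≤ 0.06 := JB7_k2a hD B.P.hβ (by linarith) B.P.hκ1 (by linarith) (by linarith) B.P.βκ B.P.βR
  have hd := Dlo7 hD (0.27 ^ 2) (0.36 ^ 2) 1.284 0.18 0.26 0.18 0.69767 hy.1 hy.2 (pow_le_pow_left₀ (by norm_num) B.hk1 2) (pow_le_pow_left₀ B.P.κ0.le B.hk2 2)
      (by rw [show (-2 * 0.18 : ℝ) = -0.36 by norm_num]; exact expm_ge (by norm_num) (by norm_num) (by norm_num) (by norm_num)) (by norm_num) (by norm_num) (by norm_num) (by norm_num) (by norm_num)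
  have hc : sE κ t' ≤ 1 - 0.3369 * (t' + κ) ^ 2 / (1 + κ ^ 2) := VR7 0.54 0.3369 1.2835 1.3981 _ _ _ _ _ B hD a1 a2 (by norm_num) (by norm_num) (by norm_num) (by norm_num) rfl rfl (by norm_num) rfl rfl rfl (by norm_num) (by norm_num)
  exact up7 1 0.06 0.3369 1.284 0.9958 0.919 0.5964 0.01422 0.01541 B (by norm_num) ht' hs hD (by norm_num) hJ hc hd (by norm_num) (by norm_num) (by norm_num) hY (by norm_num)
    (ch1 (a := 1) (by norm_num) (sqR h1 h3 (by norm_num)) (by norm_num) h1 h2 (by norm_num) (by norm_num)) (by norm_num)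
    (expn 4 0.2537 (by norm_num) (by norm_num) (by norm_num) (by norm_num)) (by norm_num) (by norm_num)

private theorem b7_1_W2b_y {κ t : ℝ} (h : DomR κ t) (hk1 : 0.27 ≤ κ) (hk2 : κ ≤ 0.36) (ht1 : 1.3239 ≤ t + κ) (ht2 : t + κ ≤ 1.5014) :
    0.18 ≤ sy κ t ∧ sy κ t ≤ 0.266 := by
  have hy1 : 0.18 ≤ sy κ t := syR_ge h 0.27 0.36 1.3239 0.18 1.19721 1.19722 0.5986 0.79815 hk1 hk2 (by linarith) (by norm_num) (by norm_num)
    (expn_ge (by norm_num) (by norm_num)) (expn_le (by norm_num) (by norm_num) (by norm_num)) (by norm_num)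
    (by norm_num) (by norm_num) (by norm_num) (by norm_num) (by norm_num) (by norm_num)
  have hy2 : sy κ t ≤ 0.266 := syR_ang2 h 0.27 0.36 1.5014 1.297 0.2769 0.964 0.266 0.76644 1.30473 hk1 hk2 (by linarith) (by norm_num) (by norm_num) (by norm_num)
    (cos_le_num (by norm_num)) (sin_le_num (by norm_num) (by norm_num)) (expm_le (by norm_num) (by norm_num) (by norm_num))
    (expn_ge (by norm_num) (by norm_num)) (by norm_num) (by norm_num) (by norm_num) (by norm_num) (by norm_num)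
  exact ⟨by linarith, by linarith⟩

theorem b7_1_W2b {β r h κ T t s u Y : ℝ} (B : Bx 0.27 0.36 0.3187 0.2516 10 0.036 7.1324 β r h κ T) (hs : t + κ = s * h)
    (h1 : 0.475 ≤ u) (h2 : u ≤ 0.59) (h3 : u ≤ s) (h4 : s ≤ u + 0.0826)
    (hY : eN r κ * (0.919 * Real.exp (-(T * (1 / 2 * u ^ 2)))) ≤ Y) :
    ‖Xf β r h t 2‖ ≤ 0.01631 * Y := by
  obtain ⟨t', ht'⟩ : ∃ t', t' = t + 1 * h := ⟨_, rfl⟩
  have hτ : t' + κ = (s + 1) * h := by rw [ht']; linear_combination hs
  have a1 : 1.3239 ≤ t' + κ := by rw [hτ]; exact mlo7 B.P (x1 := 1.475) (by linarith) (by norm_num) (by norm_num)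
  have a2 : t' + κ ≤ 1.5014 := by rw [hτ]; exact mhi7 B.P (x2 := 1.6726) (by linarith) (by norm_num) (by norm_num)
  have hk := B.hk1
  have hk' := B.P.hκ1
  have hD : DomR κ t' := dom7 B.P.κ0 (by linarith) (by linarith)
  have hy := b7_1_W2b_y hD B.hk1 B.hk2 a1 a2
  have hJ : ‖HH β (sg κ t') - 1‖ ≤ 0.15 := by
    rcases le_total (t' + κ) 1.39 with hc | hc
    · exact (JB7_k2a hD B.P.hβ (by linarith) B.P.hκ1 (by linarith) (by linarith) B.P.βκ B.P.βR).trans (by norm_num)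
    · exact JB7_k2b hD B.P.hβ (by linarith) B.P.hκ1 (by linarith) (by linarith) B.P.βκ B.P.βR
  have hd := Dlo7 hD (0.27 ^ 2) (0.36 ^ 2) 1.284 0.18 0.266 0.18 0.69767 hy.1 hy.2 (pow_le_pow_left₀ (by norm_num) B.hk1 2) (pow_le_pow_left₀ B.P.κ0.le B.hk2 2)
      (by rw [show (-2 * 0.18 : ℝ) = -0.36 by norm_num]; exact expm_ge (by norm_num) (by norm_num) (by norm_num) (by norm_num)) (by norm_num) (by norm_num) (by norm_num) (by norm_num) (by norm_num)
  have hc : sE κ t' ≤ 1 - 0.3276 * (t' + κ) ^ 2 / (1 + κ ^ 2) := VR7 0.52 0.3276 1.3239 1.5014 _ _ _ _ _ B hD a1 a2 (by norm_num) (by norm_num) (by norm_num) (by norm_num) rfl rfl (by norm_num) rfl rfl rfl (by norm_num) (by norm_num)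
  exact up7 1 0.15 0.3276 1.284 1.0804 0.919 0.5999 0.01387 0.01631 B (by norm_num) ht' hs hD (by norm_num) hJ hc hd (by norm_num) (by norm_num) (by norm_num) hY (by norm_num)
    (ch1 (a := 1) (by norm_num) (sqR h1 h3 (by norm_num)) (by norm_num) h1 h2 (by norm_num) (by norm_num)) (by norm_num)
    (expn 4 0.2787 (by norm_num) (by norm_num) (by norm_num) (by norm_num)) (by norm_num) (by norm_num)

theorem b7_1_W3U {β r h κ T t s u Y : ℝ} (B : Bx 0.27 0.36 0.3187 0.2516 10 0.036 7.1324 β r h κ T) (hs : t + κ = s * h)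
    (h1 : 0.43 ≤ u) (h2 : u ≤ 0.59) (h3 : u ≤ s) (h4 : s ≤ u + 0.0826)(htp : Real.pi / 2 ≤ t + 2 * h)
    (hY : eN r κ * (0.919 * Real.exp (-(T * (1 / 2 * u ^ 2)))) ≤ Y) :
    ‖Xf β r h t (3)‖ ≤ 0.002238 * Y := by
  refine cU7 0 (2) 1.5707 2.399 0.03 0.7678 0.03 2.7796 0.919 0.1741 0.8914 0.8692 3.1623 0.0002269 0.002238 B (by norm_num) hs
    (half7 hs htp (by norm_num)) (mhi7 B.P (x2 := 2.6726) (by push_cast; linarith) (by norm_num) (by norm_num)) hY g1_nn (g1_le (by linarith) h2 (by norm_num))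
    (by norm_num) (by norm_num) (by norm_num) (by norm_num) (by norm_num) (by norm_num) (by norm_num) (by norm_num) (by norm_num) (by norm_num) (by norm_num) (by norm_num) (by norm_num) (by norm_num) (by norm_num) (by norm_num) (by norm_num) (by norm_num) (by norm_num)
    (expn 8 0.392 (by norm_num) (by norm_num) (by norm_num) (by norm_num)) (by norm_num) (by norm_num)

theorem b7_1_W3 {β r h κ T t s u Y : ℝ} (B : Bx 0.27 0.36 0.3187 0.2516 10 0.036 7.1324 β r h κ T) (hs : t + κ = s * h)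
    (h1 : 0.43 ≤ u) (h2 : u ≤ 0.59) (h3 : u ≤ s) (h4 : s ≤ u + 0.0826)
    (hY : eN r κ * (0.919 * Real.exp (-(T * (1 / 2 * u ^ 2)))) ≤ Y) :
    ‖Xf β r h t 3‖ ≤ 0.002238 * Y := by
  have hp : Real.pi / 2 ≤ t + 2 * h := by
    have e : t + 2 * h = (s + 2) * h - κ := by linear_combination hs
    have := mlo7 B.P (x := s + 2) (x1 := 2.43) (by linarith) (by norm_num) (le_refl _)
    have := B.hk2
    have := Real.pi_lt_d6
    rw [e]
    norm_num at *
    linarith
  exact leE (b7_1_W3U B hs h1 h2 h3 h4 hp hY) (by norm_num) hY (by norm_num)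

theorem b7_1_Wm1 {β r h κ T t s u Y : ℝ} (B : Bx 0.27 0.36 0.3187 0.2516 10 0.036 7.1324 β r h κ T) (hs : t + κ = s * h)
    (h1 : 0.43 ≤ u) (h2 : u ≤ 0.59) (h3 : u ≤ s) (h4 : s ≤ u + 0)
    (hY : eN r κ * (0.9137 * Real.exp (-(T * (0.5977 * (1 - u) ^ 2)))) ≤ Y) :
    ‖Xf β r h t (-1)‖ ≤ 0.009904 * Y := by
  refine leE (cL7 (-2) 0.72 0.4908 1.2656 1.4093 _ _ _ _ _ 0.0094 4.0551 0.7678 0.0333 1.3028 0.9137 0.8752 0.001946 0.008637 0.1942 0.8862 0.8541 3.1623 0.0002725 0.001267 B (by norm_num) hs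
    (mloN7 B.P (x1 := 1.41) (by linarith) (by norm_num) (by norm_num)) (mhiN7 B.P (x2 := 1.57) (by linarith) (by norm_num) (by norm_num)) hY (g0_nn (by norm_num))
    (g0_le (by norm_num) h1 h2 (by norm_num) (by norm_num)) (ch0 (a := (-2)) (by norm_num) (sqL h2 h4 (by norm_num) (by norm_num)) (by norm_num) h1 h2 (by norm_num) (by norm_num))
    (by norm_num) (by norm_num) (by norm_num) (by norm_num) rfl rfl (by norm_num) rfl rfl rfl (by norm_num) (by norm_num) (by norm_num) (by norm_num) (by norm_num) (by norm_num) (by norm_num) (by norm_num) (by norm_num) (by norm_num) (by norm_num) (by norm_num) (by norm_num) (by norm_num) (by norm_num) (by norm_num) (by norm_num) (by norm_num)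
    (expn 6 0.2422 (by norm_num) (by norm_num) (by norm_num) (by norm_num)) (by norm_num) (by norm_num) (by norm_num) (by norm_num) (by norm_num) (by norm_num) (by norm_num) (by norm_num) (expn 8 0.208 (by norm_num) (by norm_num) (by norm_num) (by norm_num)) (by norm_num) (by norm_num)) (by norm_num) hY (by norm_num)

theorem b7_1_Wm1p {β r h κ T t s u Y : ℝ} (B : Bx 0.27 0.36 0.3187 0.2516 10 0.036 7.1324 β r h κ T) (hs : t + κ = s * h)
    (h1 : 0.43 ≤ u) (h2 : u ≤ 0.59) (h3 : u ≤ s) (h4 : s ≤ u + 0.0826)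
    (hY : eN r κ * (0.9137 * Real.exp (-(T * (0.5977 * (1 - u) ^ 2)))) ≤ Y) :
    ‖Xf β r h t (-1)‖ ≤ 0.023436 * Y := by
  refine leE (cL7 (-2) 0.7 0.4801 1.1914 1.4093 _ _ _ _ _ 0.011 3.8988 0.7678 0.1006 1.2959 0.9137 0.7454 0.004912 0.02096 0.1942 0.8862 0.8541 3.1623 0.0005353 0.002476 B (by norm_num) hs
    (mloN7 B.P (x1 := 1.3274) (by linarith) (by norm_num) (by norm_num)) (mhiN7 B.P (x2 := 1.57) (by linarith) (by norm_num) (by norm_num)) hY (g0_nn (by norm_num))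
    (g0_le (by norm_num) h1 h2 (by norm_num) (by norm_num)) (ch0 (a := (-1.9174)) (by norm_num) (sqL h2 h4 (by norm_num) (by norm_num)) (by norm_num) h1 h2 (by norm_num) (by norm_num))
    (by norm_num) (by norm_num) (by norm_num) (by norm_num) rfl rfl (by norm_num) rfl rfl rfl (by norm_num) (by norm_num) (by norm_num) (by norm_num) (by norm_num) (by norm_num) (by norm_num) (by norm_num) (by norm_num) (by norm_num) (by norm_num) (by norm_num) (by norm_num) (by norm_num) (by norm_num) (by norm_num) (by norm_num) (by norm_num)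
    (expn 5 0.3164 (by norm_num) (by norm_num) (by norm_num) (by norm_num)) (by norm_num) (by norm_num) (by norm_num) (by norm_num) (by norm_num) (by norm_num) (by norm_num) (by norm_num) (expn 7 0.535 (by norm_num) (by norm_num) (by norm_num) (by norm_num)) (by norm_num) (by norm_num)) (by norm_num) hY (by norm_num)

theorem b7_1_Wm2 {β r h κ T t s u Y : ℝ} (B : Bx 0.27 0.36 0.3187 0.2516 10 0.036 7.1324 β r h κ T) (hs : t + κ = s * h)
    (h1 : 0.43 ≤ u) (h2 : u ≤ 0.59) (h3 : u ≤ s) (h4 : s ≤ u + 0.0826)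
    (hY : eN r κ * (0.9137 * Real.exp (-(T * (0.5977 * (1 - u) ^ 2)))) ≤ Y) :
    ‖Xf β r h t (-2)‖ ≤ 0.001586 * Y := by
  refine cU7 1 (-3) 3.6163 4.1942 0.02 0.7678 0.02 1.8609 0.9137 0.1942 0.8862 0.8541 3.1623 0.0002387 0.001586 B (by norm_num) hs
    (full7 B.P B.hk2 (x1 := 4.43) (by push_cast; linarith) (by norm_num) (by norm_num)) (mhi7 B.P (x2 := 4.6726) (by push_cast; linarith) (by norm_num) (by norm_num)) hY (g0_nn (by norm_num)) (g0_le (by norm_num) h1 h2 (by norm_num) (by norm_num))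
    (by norm_num) (by norm_num) (by norm_num) (by norm_num) (by norm_num) (by norm_num) (by norm_num) (by norm_num) (by norm_num) (by norm_num) (by norm_num) (by norm_num) (by norm_num) (by norm_num) (by norm_num) (by norm_num) (by norm_num) (by norm_num) (by norm_num)
    (expn 8 0.341 (by norm_num) (by norm_num) (by norm_num) (by norm_num)) (by norm_num) (by norm_num)

theorem b7_1_Wm3 {β r h κ T t s u Y : ℝ} (B : Bx 0.27 0.36 0.3187 0.2516 10 0.036 7.1324 β r h κ T) (hs : t + κ = s * h)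
    (h1 : 0.43 ≤ u) (h2 : u ≤ 0.59) (h3 : u ≤ s) (h4 : s ≤ u + 0.0826)
    (hY : eN r κ * (0.9137 * Real.exp (-(T * (0.5977 * (1 - u) ^ 2)))) ≤ Y) :
    ‖Xf β r h t (-3)‖ ≤ 0.001594 * Y := by
  refine cU7 1 (-4) 2.7187 3.2966 0.02 0.7678 0.02 1.8712 0.9137 0.1942 0.8862 0.8541 3.1623 0.0002387 0.001594 B (by norm_num) hs
    (full7 B.P B.hk2 (x1 := 3.43) (by push_cast; linarith) (by norm_num) (by norm_num)) (mhi7 B.P (x2 := 3.6726) (by push_cast; linarith) (by norm_num) (by norm_num)) hY (g0_nn (by norm_num)) (g0_le (by norm_num) h1 h2 (by norm_num) (by norm_num))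
    (by norm_num) (by norm_num) (by norm_num) (by norm_num) (by norm_num) (by norm_num) (by norm_num) (by norm_num) (by norm_num) (by norm_num) (by norm_num) (by norm_num) (by norm_num) (by norm_num) (by norm_num) (by norm_num) (by norm_num) (by norm_num) (by norm_num)
    (expn 8 0.341 (by norm_num) (by norm_num) (by norm_num) (by norm_num)) (by norm_num) (by norm_num)

private theorem b7_1_Ao_y {κ t : ℝ} (h : DomR κ t) (hk1 : 0.27 ≤ κ) (hk2 : κ ≤ 0.36) (ht1 : (-0.8528) ≤ t + κ) (ht2 : t + κ ≤ (-0.5744)) :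
    (-0.411) ≤ sy κ t ∧ sy κ t ≤ (-0.173) := by
  have hy1 : -0.411 ≤ sy κ t := syL_ang2 h 0.27 0.36 0.8528 0.858 0.6539 0.7567 0.411 1.50832 0.66298 hk1 hk2 (by linarith) (by norm_num) (by norm_num) (by norm_num) (by norm_num)
    (cos_ge_num (by norm_num) (by norm_num)) (sin_le_num (by norm_num) (by norm_num))
    (expn_ge (by norm_num) (by norm_num)) (expm_ge (by norm_num) (by norm_num) (by norm_num) (by norm_num)) (by norm_num) (by norm_num) (by norm_num)
    (by norm_num) (by norm_num) (by norm_num)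
  have hy2 : sy κ t ≤ -0.173 := syL_le h 0.27 0.36 0.5744 0.173 0.84113 0.84114 0.4042 0.53896 hk1 hk2 (by linarith) (by norm_num) (by norm_num) (by norm_num)
    (expm_ge (by norm_num) (by norm_num) (by norm_num) (by norm_num)) (expm_le (by norm_num) (by norm_num) (by norm_num)) (by norm_num)
    (by norm_num) (by norm_num) (by norm_num) (by norm_num) (by norm_num) (by norm_num)
  exact ⟨by linarith, by linarith⟩

theorem b7_1_Ao {β r h κ T t s u Y : ℝ} (B : Bx 0.27 0.36 0.3187 0.2516 10 0.036 7.1324 β r h κ T) (hs : t + κ = s * h)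
    (h1 : 0.05 ≤ u) (h2 : u ≤ 0.36) (h3 : u ≤ s) (h4 : s ≤ u + 0)
    (hY : eN r κ * (0.919 * Real.exp (-(T * (1 / 2 * u ^ 2)))) ≤ Y) :
    ‖Xf β r h t 0‖ ≤ 0.6932 * Y := by
  obtain ⟨t', ht'⟩ : ∃ t', t' = t + (-1) * h := ⟨_, rfl⟩
  have hτ : t' + κ = (s + (-1)) * h := by rw [ht']; linear_combination hs
  have a1 : (-0.8528) ≤ t' + κ := by rw [hτ]; have := mhiN7 B.P (x := s + (-1)) (x2 := 0.95) (τ2 := 0.8528) (by linarith) (by norm_num) (by norm_num); linarith
  have a2 : t' + κ ≤ (-0.5744) := by rw [hτ]; have := mloN7 B.P (x := s + (-1)) (x1 := 0.64) (τ1 := 0.5744) (by linarith) (by norm_num) (by norm_num); linarith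
  have hk := B.hk1
  have hk' := B.P.hκ1
  have hD : DomR κ t' := dom7 B.P.κ0 (by linarith) (by linarith)
  have hy := b7_1_Ao_y hD B.hk1 B.hk2 a1 a2
  have hJ : ‖HH β (sg κ t') - 1‖ ≤ 0.15 := by
    rcases le_total (t' + κ) (-0.61) with hc | hc
    · exact JB7_k0b hD B.P.hβ (by linarith) B.P.hκ1 (by linarith) (by linarith) B.P.βκ B.P.βR
    · exact (JB7_k0a hD B.P.hβ (by linarith) B.P.hκ1 (by linarith) (by linarith) B.P.βκ B.P.βR).trans (by norm_num)
  have hd := Dlo7 hD (0.27 ^ 2) (0.36 ^ 2) 0.3204 (-0.411) (-0.173) (-0.411) 2.27498 hy.1 hy.2 (pow_le_pow_left₀ (by norm_num) B.hk1 2) (pow_le_pow_left₀ B.P.κ0.le B.hk2 2)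
      (by rw [show (-2 * (-0.411) : ℝ) = 0.822 by norm_num]; exact expn_ge (by norm_num) (by norm_num)) (by norm_num) (by norm_num) (by norm_num) (by norm_num) (by norm_num)
  have hc : sE κ t' ≤ 1 - 0.4625 * (t' + κ) ^ 2 / (1 + κ ^ 2) := VLA7 hD B.P.hκ1 (by linarith) (by linarith)
  exact up7 (-1) 0.15 0.4625 0.3204 1.5286 0.919 0.1246 0.4167 0.6932 B (by norm_num) ht' hs hD (by norm_num) hJ hc hd (by norm_num) (by norm_num) (by norm_num) hY (by norm_num)
    (ch1 (a := (-1)) (by norm_num) (sqL h2 h4 (by norm_num) (by norm_num)) (by norm_num) h1 h2 (by norm_num) (by norm_num)) (by norm_num)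
    (expn 0 0.8886 (by norm_num) (by norm_num) (by norm_num) (by norm_num)) (by norm_num) (by norm_num)

private theorem b7_1_A2_y {κ t : ℝ} (h : DomR κ t) (hk1 : 0.27 ≤ κ) (hk2 : κ ≤ 0.36) (ht1 : 0.9424 ≤ t + κ) (ht2 : t + κ ≤ 1.2208) :
    0.166 ≤ sy κ t ∧ sy κ t ≤ 0.246 := by
  have hy1 : 0.166 ≤ sy κ t := syR_ge h 0.27 0.36 0.9424 0.166 1.18057 1.18058 0.54437 0.72584 hk1 hk2 (by linarith) (by norm_num) (by norm_num)
    (expn_ge (by norm_num) (by norm_num)) (expn_le (by norm_num) (by norm_num) (by norm_num)) (by norm_num)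
    (by norm_num) (by norm_num) (by norm_num) (by norm_num) (by norm_num) (by norm_num)
  have hy2 : sy κ t ≤ 0.246 := syR_ang2 h 0.27 0.36 1.2208 1.062 0.4891 0.8737 0.246 0.78193 1.27889 hk1 hk2 (by linarith) (by norm_num) (by norm_num) (by norm_num)
    (cos_le_num (by norm_num)) (sin_le_num (by norm_num) (by norm_num)) (expm_le (by norm_num) (by norm_num) (by norm_num))
    (expn_ge (by norm_num) (by norm_num)) (by norm_num) (by norm_num) (by norm_num) (by norm_num) (by norm_num)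
  exact ⟨by linarith, by linarith⟩

theorem b7_1_A2 {β r h κ T t s u Y : ℝ} (B : Bx 0.27 0.36 0.3187 0.2516 10 0.036 7.1324 β r h κ T) (hs : t + κ = s * h)
    (h1 : 0.05 ≤ u) (h2 : u ≤ 0.36) (h3 : u ≤ s) (h4 : s ≤ u + 0)
    (hY : eN r κ * (0.919 * Real.exp (-(T * (1 / 2 * u ^ 2)))) ≤ Y) :
    ‖Xf β r h t 2‖ ≤ 0.06861 * Y := by
  obtain ⟨t', ht'⟩ : ∃ t', t' = t + 1 * h := ⟨_, rfl⟩
  have hτ : t' + κ = (s + 1) * h := by rw [ht']; linear_combination hs
  have a1 : 0.9424 ≤ t' + κ := by rw [hτ]; exact mlo7 B.P (x1 := 1.05) (by linarith) (by norm_num) (by norm_num)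
  have a2 : t' + κ ≤ 1.2208 := by rw [hτ]; exact mhi7 B.P (x2 := 1.36) (by linarith) (by norm_num) (by norm_num)
  have hk := B.hk1
  have hk' := B.P.hκ1
  have hD : DomR κ t' := dom7 B.P.κ0 (by linarith) (by linarith)
  have hy := b7_1_A2_y hD B.hk1 B.hk2 a1 a2
  have hJ : ‖HH β (sg κ t') - 1‖ ≤ 0.06 := JB7_k2a hD B.P.hβ (by linarith) B.P.hκ1 (by linarith) (by linarith) B.P.βκ B.P.βR
  have hd := Dlo7 hD (0.27 ^ 2) (0.36 ^ 2) 1.2614 0.166 0.246 0.166 0.71748 hy.1 hy.2 (pow_le_pow_left₀ (by norm_num) B.hk1 2) (pow_le_pow_left₀ B.P.κ0.le B.hk2 2)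
      (by rw [show (-2 * 0.166 : ℝ) = -0.332 by norm_num]; exact expm_ge (by norm_num) (by norm_num) (by norm_num) (by norm_num)) (by norm_num) (by norm_num) (by norm_num) (by norm_num) (by norm_num)
  have hc : sE κ t' ≤ 1 - 0.3537 * (t' + κ) ^ 2 / (1 + κ ^ 2) := VR7 0.58 0.3537 0.9424 1.2208 _ _ _ _ _ B hD a1 a2 (by norm_num) (by norm_num) (by norm_num) (by norm_num) rfl rfl (by norm_num) rfl rfl rfl (by norm_num) (by norm_num)
  exact up7 1 0.06 0.3537 1.2614 1.0003 0.919 0.3887 0.06303 0.06861 B (by norm_num) ht' hs hD (by norm_num) hJ hc hd (by norm_num) (by norm_num) (by norm_num) hY (by norm_num)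
    (ch1 (a := 1) (by norm_num) (sqR h1 h3 (by norm_num)) (by norm_num) h1 h2 (by norm_num) (by norm_num)) (by norm_num)
    (expn 2 0.7723 (by norm_num) (by norm_num) (by norm_num) (by norm_num)) (by norm_num) (by norm_num)

theorem b7_1_A3R {β r h κ T t s u Y : ℝ} (B : Bx 0.27 0.36 0.3187 0.2516 10 0.036 7.1324 β r h κ T) (hs : t + κ = s * h)
    (h1 : 0.05 ≤ u) (h2 : u ≤ 0.36) (h3 : u ≤ s) (h4 : s ≤ u + 0) (htp : t + 2 * h ≤ Real.pi / 2)
    (hY : eN r κ * (0.919 * Real.exp (-(T * (1 / 2 * u ^ 2)))) ≤ Y) :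
    ‖Xf β r h t 3‖ ≤ 0.0039409 * Y := by
  refine leE (cR7 2 0.3 0.2422 1.84 2.1184 _ _ _ _ _ 0.0075 4.2906 0.7678 0.0538 1.3654 0.919 1.0165 0.0007103 0.003317 0.0648 0.8914 0.9513 3.1623 0.0001288 0.0006239 B (by norm_num) hs htp
    (mlo7 B.P (x1 := 2.05) (by linarith) (by norm_num) (by norm_num)) (mhi7 B.P (x2 := 2.36) (by linarith) (by norm_num) (by norm_num)) hY g1_nn
    (g1_le (by linarith) h2 (by norm_num)) (ch1 (a := 2) (by norm_num) (sqR h1 h3 (by norm_num)) (by norm_num) h1 h2 (by norm_num) (by norm_num))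
    (by norm_num) (by norm_num) (by norm_num) (by norm_num) rfl rfl (by norm_num) rfl rfl rfl (by norm_num) (by norm_num) (by norm_num) (by norm_num) (by norm_num) (by norm_num) (by norm_num) (by norm_num) (by norm_num) (by norm_num) (by norm_num) (by norm_num) (by norm_num) (by norm_num) (by norm_num) (by norm_num) (by norm_num) (by norm_num) (by norm_num)
    (expn 7 0.25 (by norm_num) (by norm_num) (by norm_num) (by norm_num)) (by norm_num) (by norm_num) (by norm_num) (by norm_num) (by norm_num) (by norm_num) (by norm_num) (by norm_num) (expn 8 0.975 (by norm_num) (by norm_num) (by norm_num) (by norm_num)) (by norm_num) (by norm_num)) (by norm_num) hY (by norm_num)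

theorem b7_1_A3U {β r h κ T t s u Y : ℝ} (B : Bx 0.27 0.36 0.3187 0.2516 10 0.036 7.1324 β r h κ T) (hs : t + κ = s * h)
    (h1 : 0.05 ≤ u) (h2 : u ≤ 0.36) (h3 : u ≤ s) (h4 : s ≤ u + 0)(htp : Real.pi / 2 ≤ t + 2 * h)
    (hY : eN r κ * (0.919 * Real.exp (-(T * (1 / 2 * u ^ 2)))) ≤ Y) :
    ‖Xf β r h t (3)‖ ≤ 0.0009837 * Y := by
  refine cU7 0 (2) 1.5707 2.1184 0.03 0.7678 0.03 2.7796 0.919 0.0648 0.8914 0.9513 3.1623 0.00009975 0.0009837 B (by norm_num) hs
    (half7 hs htp (by norm_num)) (mhi7 B.P (x2 := 2.36) (by push_cast; linarith) (by norm_num) (by norm_num)) hY g1_nn (g1_le (by linarith) h2 (by norm_num))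
    (by norm_num) (by norm_num) (by norm_num) (by norm_num) (by norm_num) (by norm_num) (by norm_num) (by norm_num) (by norm_num) (by norm_num) (by norm_num) (by norm_num) (by norm_num) (by norm_num) (by norm_num) (by norm_num) (by norm_num) (by norm_num) (by norm_num)
    (expn 9 0.213 (by norm_num) (by norm_num) (by norm_num) (by norm_num)) (by norm_num) (by norm_num)

theorem b7_1_A3 {β r h κ T t s u Y : ℝ} (B : Bx 0.27 0.36 0.3187 0.2516 10 0.036 7.1324 β r h κ T) (hs : t + κ = s * h)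
    (h1 : 0.05 ≤ u) (h2 : u ≤ 0.36) (h3 : u ≤ s) (h4 : s ≤ u + 0)
    (hY : eN r κ * (0.919 * Real.exp (-(T * (1 / 2 * u ^ 2)))) ≤ Y) :
    ‖Xf β r h t 3‖ ≤ 0.0039409 * Y := by
  rcases le_total (t + 2 * h) (Real.pi / 2) with hp | hp
  · exact leE (b7_1_A3R B hs h1 h2 h3 h4 hp hY) (by norm_num) hY (by norm_num)
  · exact leE (b7_1_A3U B hs h1 h2 h3 h4 hp hY) (by norm_num) hY (by norm_num)

theorem b7_1_Am1 {β r h κ T t s u Y : ℝ} (B : Bx 0.27 0.36 0.3187 0.2516 10 0.036 7.1324 β r h κ T) (hs : t + κ = s * h)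
    (h1 : 0.05 ≤ u) (h2 : u ≤ 0.36) (h3 : u ≤ s) (h4 : s ≤ u + 0)
    (hY : eN r κ * (0.919 * Real.exp (-(T * (1 / 2 * u ^ 2)))) ≤ Y) :
    ‖Xf β r h t (-1)‖ ≤ 0.0038238 * Y := by
  refine leE (cL7 (-2) 0.6 0.4386 1.472 1.7504 _ _ _ _ _ 0.0004 8.9282 0.7678 0 1.3128 0.919 1.1148 0.0003581 0.003479 0.0648 0.8914 0.9513 3.1623 0.00007403 0.0003448 B (by norm_num) hs
    (mloN7 B.P (x1 := 1.64) (by linarith) (by norm_num) (by norm_num)) (mhiN7 B.P (x2 := 1.95) (by linarith) (by norm_num) (by norm_num)) hY g1_nn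
    (g1_le (by linarith) h2 (by norm_num)) (ch1 (a := (-2)) (by norm_num) (sqL h2 h4 (by norm_num) (by norm_num)) (by norm_num) h1 h2 (by norm_num) (by norm_num))
    (by norm_num) (by norm_num) (by norm_num) (by norm_num) rfl rfl (by norm_num) rfl rfl rfl (by norm_num) (by norm_num) (by norm_num) (by norm_num) (by norm_num) (by norm_num) (by norm_num) (by norm_num) (by norm_num) (by norm_num) (by norm_num) (by norm_num) (by norm_num) (by norm_num) (by norm_num) (by norm_num) (by norm_num) (by norm_num)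
    (expn 7 0.9511 (by norm_num) (by norm_num) (by norm_num) (by norm_num)) (by norm_num) (by norm_num) (by norm_num) (by norm_num) (by norm_num) (by norm_num) (by norm_num) (by norm_num) (expn 9 0.513 (by norm_num) (by norm_num) (by norm_num) (by norm_num)) (by norm_num) (by norm_num)) (by norm_num) hY (by norm_num)

theorem b7_1_Am2 {β r h κ T t s u Y : ℝ} (B : Bx 0.27 0.36 0.3187 0.2516 10 0.036 7.1324 β r h κ T) (hs : t + κ = s * h)
    (h1 : 0.05 ≤ u) (h2 : u ≤ 0.36) (h3 : u ≤ s) (h4 : s ≤ u + 0)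
    (hY : eN r κ * (0.919 * Real.exp (-(T * (1 / 2 * u ^ 2)))) ≤ Y) :
    ‖Xf β r h t (-2)‖ ≤ 0.0005969 * Y := by
  refine cU7 1 (-3) 3.2752 3.9136 0.02 0.7678 0.02 1.8635 0.919 0.0648 0.8914 0.9513 3.1623 0.00009028 0.0005969 B (by norm_num) hs
    (full7 B.P B.hk2 (x1 := 4.05) (by push_cast; linarith) (by norm_num) (by norm_num)) (mhi7 B.P (x2 := 4.36) (by push_cast; linarith) (by norm_num) (by norm_num)) hY g1_nn (g1_le (by linarith) h2 (by norm_num))
    (by norm_num) (by norm_num) (by norm_num) (by norm_num) (by norm_num) (by norm_num) (by norm_num) (by norm_num) (by norm_num) (by norm_num) (by norm_num) (by norm_num) (by norm_num) (by norm_num) (by norm_num) (by norm_num) (by norm_num) (by norm_num) (by norm_num)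
    (expn 9 0.313 (by norm_num) (by norm_num) (by norm_num) (by norm_num)) (by norm_num) (by norm_num)

theorem b7_1_Am3 {β r h κ T t s u Y : ℝ} (B : Bx 0.27 0.36 0.3187 0.2516 10 0.036 7.1324 β r h κ T) (hs : t + κ = s * h)
    (h1 : 0.05 ≤ u) (h2 : u ≤ 0.36) (h3 : u ≤ s) (h4 : s ≤ u + 0)
    (hY : eN r κ * (0.919 * Real.exp (-(T * (1 / 2 * u ^ 2)))) ≤ Y) :
    ‖Xf β r h t (-3)‖ ≤ 0.0006025 * Y := by
  refine cU7 1 (-4) 2.3776 3.016 0.02 0.7678 0.02 1.8809 0.919 0.0648 0.8914 0.9513 3.1623 0.00009028 0.0006025 B (by norm_num) hs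
    (full7 B.P B.hk2 (x1 := 3.05) (by push_cast; linarith) (by norm_num) (by norm_num)) (mhi7 B.P (x2 := 3.36) (by push_cast; linarith) (by norm_num) (by norm_num)) hY g1_nn (g1_le (by linarith) h2 (by norm_num))
    (by norm_num) (by norm_num) (by norm_num) (by norm_num) (by norm_num) (by norm_num) (by norm_num) (by norm_num) (by norm_num) (by norm_num) (by norm_num) (by norm_num) (by norm_num) (by norm_num) (by norm_num) (by norm_num) (by norm_num) (by norm_num) (by norm_num)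
    (expn 9 0.313 (by norm_num) (by norm_num) (by norm_num) (by norm_num)) (by norm_num) (by norm_num)

private theorem b7_1_Bo_y {κ t : ℝ} (h : DomR κ t) (hk1 : 0.27 ≤ κ) (hk2 : κ ≤ 0.36) (ht1 : (-0.5745) ≤ t + κ) (ht2 : t + κ ≤ (-0.5116)) :
    (-0.239) ≤ sy κ t ∧ sy κ t ≤ (-0.151) := by
  have hy1 : -0.239 ≤ sy κ t := syL_ge2 h 0.27 0.36 0.5745 0.239 0.78741 0.78742 0.5082 0.52275 0.69702 hk1 hk2 (by linarith) (by norm_num) (by norm_num) (by norm_num)
    (expm_ge (by norm_num) (by norm_num) (by norm_num) (by norm_num)) (expm_le (by norm_num) (by norm_num) (by norm_num)) (by norm_num)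
    (by norm_num) (by norm_num) (by norm_num) (by norm_num) (by norm_num) (by norm_num)
  have hy2 : sy κ t ≤ -0.151 := syL_le h 0.27 0.36 0.5116 0.151 0.85984 0.85985 0.36065 0.48088 hk1 hk2 (by linarith) (by norm_num) (by norm_num) (by norm_num)
    (expm_ge (by norm_num) (by norm_num) (by norm_num) (by norm_num)) (expm_le (by norm_num) (by norm_num) (by norm_num)) (by norm_num)
    (by norm_num) (by norm_num) (by norm_num) (by norm_num) (by norm_num) (by norm_num)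
  exact ⟨by linarith, by linarith⟩

theorem b7_1_Bo {β r h κ T t s u Y : ℝ} (B : Bx 0.27 0.36 0.3187 0.2516 10 0.036 7.1324 β r h κ T) (hs : t + κ = s * h)
    (h1 : 0.36 ≤ u) (h2 : u ≤ 0.43) (h3 : u ≤ s) (h4 : s ≤ u + 0)
    (hY : eN r κ * (0.919 * Real.exp (-(T * (1 / 2 * u ^ 2)))) ≤ Y) :
    ‖Xf β r h t 0‖ ≤ 0.845 * Y := by
  obtain ⟨t', ht'⟩ : ∃ t', t' = t + (-1) * h := ⟨_, rfl⟩
  have hτ : t' + κ = (s + (-1)) * h := by rw [ht']; linear_combination hs
  have a1 : (-0.5745) ≤ t' + κ := by rw [hτ]; have := mhiN7 B.P (x := s + (-1)) (x2 := 0.64) (τ2 := 0.5745) (by linarith) (by norm_num) (by norm_num); linarith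
  have a2 : t' + κ ≤ (-0.5116) := by rw [hτ]; have := mloN7 B.P (x := s + (-1)) (x1 := 0.57) (τ1 := 0.5116) (by linarith) (by norm_num) (by norm_num); linarith
  have hk := B.hk1
  have hk' := B.P.hκ1
  have hD : DomR κ t' := dom7 B.P.κ0 (by linarith) (by linarith)
  have hy := b7_1_Bo_y hD B.hk1 B.hk2 a1 a2
  have hJ : ‖HH β (sg κ t') - 1‖ ≤ 0.08 := JB7_k0a hD B.P.hβ (by linarith) B.P.hκ1 (by linarith) (by linarith) B.P.βκ B.P.βR
  have hd := Dlo7 hD (0.27 ^ 2) (0.36 ^ 2) 0.5961 (-0.239) (-0.151) (-0.239) 1.61284 hy.1 hy.2 (pow_le_pow_left₀ (by norm_num) B.hk1 2) (pow_le_pow_left₀ B.P.κ0.le B.hk2 2)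
      (by rw [show (-2 * (-0.239) : ℝ) = 0.478 by norm_num]; exact expn_ge (by norm_num) (by norm_num)) (by norm_num) (by norm_num) (by norm_num) (by norm_num) (by norm_num)
  have hc : sE κ t' ≤ 1 - 0.4835 * (t' + κ) ^ 2 / (1 + κ ^ 2) := VL_05_06 hD (by linarith) (by linarith) (by linarith)
  exact up7 (-1) 0.08 0.4835 0.5961 1.2292 0.919 0.0646 0.6317 0.845 B (by norm_num) ht' hs hD (by norm_num) hJ hc hd (by norm_num) (by norm_num) (by norm_num) hY (by norm_num)
    (ch1 (a := (-1)) (by norm_num) (sqL h2 h4 (by norm_num) (by norm_num)) (by norm_num) h1 h2 (by norm_num) (by norm_num)) (by norm_num)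
    (expn 0 0.4607 (by norm_num) (by norm_num) (by norm_num) (by norm_num)) (by norm_num) (by norm_num)

private theorem b7_1_B2_y {κ t : ℝ} (h : DomR κ t) (hk1 : 0.27 ≤ κ) (hk2 : κ ≤ 0.36) (ht1 : 1.2207 ≤ t + κ) (ht2 : t + κ ≤ 1.2836) :
    0.18 ≤ sy κ t ∧ sy κ t ≤ 0.251 := by
  have hy1 : 0.18 ≤ sy κ t := syR_ge h 0.27 0.36 1.2207 0.18 1.19721 1.19722 0.5986 0.79815 hk1 hk2 (by linarith) (by norm_num) (by norm_num)
    (expn_ge (by norm_num) (by norm_num)) (expn_le (by norm_num) (by norm_num) (by norm_num)) (by norm_num)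
    (by norm_num) (by norm_num) (by norm_num) (by norm_num) (by norm_num) (by norm_num)
  have hy2 : sy κ t ≤ 0.251 := syR_ang2 h 0.27 0.36 1.2836 1.109 0.4481 0.8957 0.251 0.77803 1.28531 hk1 hk2 (by linarith) (by norm_num) (by norm_num) (by norm_num)
    (cos_le_num (by norm_num)) (sin_le_num (by norm_num) (by norm_num)) (expm_le (by norm_num) (by norm_num) (by norm_num))
    (expn_ge (by norm_num) (by norm_num)) (by norm_num) (by norm_num) (by norm_num) (by norm_num) (by norm_num)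
  exact ⟨by linarith, by linarith⟩

theorem b7_1_B2 {β r h κ T t s u Y : ℝ} (B : Bx 0.27 0.36 0.3187 0.2516 10 0.036 7.1324 β r h κ T) (hs : t + κ = s * h)
    (h1 : 0.36 ≤ u) (h2 : u ≤ 0.43) (h3 : u ≤ s) (h4 : s ≤ u + 0)
    (hY : eN r κ * (0.919 * Real.exp (-(T * (1 / 2 * u ^ 2)))) ≤ Y) :
    ‖Xf β r h t 2‖ ≤ 0.01754 * Y := by
  obtain ⟨t', ht'⟩ : ∃ t', t' = t + 1 * h := ⟨_, rfl⟩
  have hτ : t' + κ = (s + 1) * h := by rw [ht']; linear_combination hs
  have a1 : 1.2207 ≤ t' + κ := by rw [hτ]; exact mlo7 B.P (x1 := 1.36) (by linarith) (by norm_num) (by norm_num)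
  have a2 : t' + κ ≤ 1.2836 := by rw [hτ]; exact mhi7 B.P (x2 := 1.43) (by linarith) (by norm_num) (by norm_num)
  have hk := B.hk1
  have hk' := B.P.hκ1
  have hD : DomR κ t' := dom7 B.P.κ0 (by linarith) (by linarith)
  have hy := b7_1_B2_y hD B.hk1 B.hk2 a1 a2
  have hJ : ‖HH β (sg κ t') - 1‖ ≤ 0.06 := JB7_k2a hD B.P.hβ (by linarith) B.P.hκ1 (by linarith) (by linarith) B.P.βκ B.P.βR
  have hd := Dlo7 hD (0.27 ^ 2) (0.36 ^ 2) 1.284 0.18 0.251 0.18 0.69767 hy.1 hy.2 (pow_le_pow_left₀ (by norm_num) B.hk1 2) (pow_le_pow_left₀ B.P.κ0.le B.hk2 2)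
      (by rw [show (-2 * 0.18 : ℝ) = -0.36 by norm_num]; exact expm_ge (by norm_num) (by norm_num) (by norm_num) (by norm_num)) (by norm_num) (by norm_num) (by norm_num) (by norm_num) (by norm_num)
  have hc : sE κ t' ≤ 1 - 0.3477 * (t' + κ) ^ 2 / (1 + κ ^ 2) := VR7 0.57 0.3477 1.2207 1.2836 _ _ _ _ _ B hD a1 a2 (by norm_num) (by norm_num) (by norm_num) (by norm_num) rfl rfl (by norm_num) rfl rfl rfl (by norm_num) (by norm_num)
  exact up7 1 0.06 0.3477 1.284 0.9958 0.919 0.5783 0.01618 0.01754 B (by norm_num) ht' hs hD (by norm_num) hJ hc hd (by norm_num) (by norm_num) (by norm_num) hY (by norm_num)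
    (ch1 (a := 1) (by norm_num) (sqR h1 h3 (by norm_num)) (by norm_num) h1 h2 (by norm_num) (by norm_num)) (by norm_num)
    (expn 4 0.1246 (by norm_num) (by norm_num) (by norm_num) (by norm_num)) (by norm_num) (by norm_num)

theorem b7_1_B3U {β r h κ T t s u Y : ℝ} (B : Bx 0.27 0.36 0.3187 0.2516 10 0.036 7.1324 β r h κ T) (hs : t + κ = s * h)
    (h1 : 0.36 ≤ u) (h2 : u ≤ 0.43) (h3 : u ≤ s) (h4 : s ≤ u + 0)(htp : Real.pi / 2 ≤ t + 2 * h)
    (hY : eN r κ * (0.919 * Real.exp (-(T * (1 / 2 * u ^ 2)))) ≤ Y) :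
    ‖Xf β r h t (3)‖ ≤ 0.001211 * Y := by
  refine cU7 0 (2) 1.5707 2.1812 0.03 0.7678 0.03 2.7796 0.919 0.0925 0.8914 0.9305 3.1623 0.0001228 0.001211 B (by norm_num) hs
    (half7 hs htp (by norm_num)) (mhi7 B.P (x2 := 2.43) (by push_cast; linarith) (by norm_num) (by norm_num)) hY g1_nn (g1_le (by linarith) h2 (by norm_num))
    (by norm_num) (by norm_num) (by norm_num) (by norm_num) (by norm_num) (by norm_num) (by norm_num) (by norm_num) (by norm_num) (by norm_num) (by norm_num) (by norm_num) (by norm_num) (by norm_num) (by norm_num) (by norm_num) (by norm_num) (by norm_num) (by norm_num)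
    (expn 9 0.005 (by norm_num) (by norm_num) (by norm_num) (by norm_num)) (by norm_num) (by norm_num)

theorem b7_1_B3 {β r h κ T t s u Y : ℝ} (B : Bx 0.27 0.36 0.3187 0.2516 10 0.036 7.1324 β r h κ T) (hs : t + κ = s * h)
    (h1 : 0.36 ≤ u) (h2 : u ≤ 0.43) (h3 : u ≤ s) (h4 : s ≤ u + 0)
    (hY : eN r κ * (0.919 * Real.exp (-(T * (1 / 2 * u ^ 2)))) ≤ Y) :
    ‖Xf β r h t 3‖ ≤ 0.001211 * Y := by
  have hp : Real.pi / 2 ≤ t + 2 * h := by
    have e : t + 2 * h = (s + 2) * h - κ := by linear_combination hs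
    have := mlo7 B.P (x := s + 2) (x1 := 2.36) (by linarith) (by norm_num) (le_refl _)
    have := B.hk2
    have := Real.pi_lt_d6
    rw [e]
    norm_num at *
    linarith
  exact leE (b7_1_B3U B hs h1 h2 h3 h4 hp hY) (by norm_num) hY (by norm_num)

theorem b7_1_Bm1 {β r h κ T t s u Y : ℝ} (B : Bx 0.27 0.36 0.3187 0.2516 10 0.036 7.1324 β r h κ T) (hs : t + κ = s * h)
    (h1 : 0.36 ≤ u) (h2 : u ≤ 0.43) (h3 : u ≤ s) (h4 : s ≤ u + 0)
    (hY : eN r κ * (0.919 * Real.exp (-(T * (1 / 2 * u ^ 2)))) ≤ Y) :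
    ‖Xf β r h t (-1)‖ ≤ 0.002047 * Y := by
  refine leE (cL7 (-2) 0.7 0.4869 1.4092 1.4721 _ _ _ _ _ 0.0102 3.9731 0.7678 0 1.3069 0.919 1.1077 0.0003757 0.001625 0.0925 0.8914 0.9305 3.1623 0.000091 0.000422 B (by norm_num) hs
    (mloN7 B.P (x1 := 1.57) (by linarith) (by norm_num) (by norm_num)) (mhiN7 B.P (x2 := 1.64) (by linarith) (by norm_num) (by norm_num)) hY g1_nn
    (g1_le (by linarith) h2 (by norm_num)) (ch1 (a := (-2)) (by norm_num) (sqL h2 h4 (by norm_num) (by norm_num)) (by norm_num) h1 h2 (by norm_num) (by norm_num))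
    (by norm_num) (by norm_num) (by norm_num) (by norm_num) rfl rfl (by norm_num) rfl rfl rfl (by norm_num) (by norm_num) (by norm_num) (by norm_num) (by norm_num) (by norm_num) (by norm_num) (by norm_num) (by norm_num) (by norm_num) (by norm_num) (by norm_num) (by norm_num) (by norm_num) (by norm_num) (by norm_num) (by norm_num) (by norm_num)
    (expn 7 0.9005 (by norm_num) (by norm_num) (by norm_num) (by norm_num)) (by norm_num) (by norm_num) (by norm_num) (by norm_num) (by norm_num) (by norm_num) (by norm_num) (by norm_num) (expn 9 0.305 (by norm_num) (by norm_num) (by norm_num) (by norm_num)) (by norm_num) (by norm_num)) (by norm_num) hY (by norm_num)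

theorem b7_1_Bm2 {β r h κ T t s u Y : ℝ} (B : Bx 0.27 0.36 0.3187 0.2516 10 0.036 7.1324 β r h κ T) (hs : t + κ = s * h)
    (h1 : 0.36 ≤ u) (h2 : u ≤ 0.43) (h3 : u ≤ s) (h4 : s ≤ u + 0)
    (hY : eN r κ * (0.919 * Real.exp (-(T * (1 / 2 * u ^ 2)))) ≤ Y) :
    ‖Xf β r h t (-2)‖ ≤ 0.0007343 * Y := by
  refine cU7 1 (-3) 3.5535 3.9764 0.02 0.7678 0.02 1.8613 0.919 0.0925 0.8914 0.9305 3.1623 0.0001112 0.0007343 B (by norm_num) hs
    (full7 B.P B.hk2 (x1 := 4.36) (by push_cast; linarith) (by norm_num) (by norm_num)) (mhi7 B.P (x2 := 4.43) (by push_cast; linarith) (by norm_num) (by norm_num)) hY g1_nn (g1_le (by linarith) h2 (by norm_num))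
    (by norm_num) (by norm_num) (by norm_num) (by norm_num) (by norm_num) (by norm_num) (by norm_num) (by norm_num) (by norm_num) (by norm_num) (by norm_num) (by norm_num) (by norm_num) (by norm_num) (by norm_num) (by norm_num) (by norm_num) (by norm_num) (by norm_num)
    (expn 9 0.105 (by norm_num) (by norm_num) (by norm_num) (by norm_num)) (by norm_num) (by norm_num)

theorem b7_1_Bm3 {β r h κ T t s u Y : ℝ} (B : Bx 0.27 0.36 0.3187 0.2516 10 0.036 7.1324 β r h κ T) (hs : t + κ = s * h)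
    (h1 : 0.36 ≤ u) (h2 : u ≤ 0.43) (h3 : u ≤ s) (h4 : s ≤ u + 0)
    (hY : eN r κ * (0.919 * Real.exp (-(T * (1 / 2 * u ^ 2)))) ≤ Y) :
    ‖Xf β r h t (-3)‖ ≤ 0.0007387 * Y := by
  refine cU7 1 (-4) 2.6559 3.0788 0.02 0.7678 0.02 1.8725 0.919 0.0925 0.8914 0.9305 3.1623 0.0001112 0.0007387 B (by norm_num) hs
    (full7 B.P B.hk2 (x1 := 3.36) (by push_cast; linarith) (by norm_num) (by norm_num)) (mhi7 B.P (x2 := 3.43) (by push_cast; linarith) (by norm_num) (by norm_num)) hY g1_nn (g1_le (by linarith) h2 (by norm_num))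
    (by norm_num) (by norm_num) (by norm_num) (by norm_num) (by norm_num) (by norm_num) (by norm_num) (by norm_num) (by norm_num) (by norm_num) (by norm_num) (by norm_num) (by norm_num) (by norm_num) (by norm_num) (by norm_num) (by norm_num) (by norm_num) (by norm_num)
    (expn 9 0.105 (by norm_num) (by norm_num) (by norm_num) (by norm_num)) (by norm_num) (by norm_num)

private theorem b7_1_Co_y {κ t : ℝ} (h : DomR κ t) (hk1 : 0.27 ≤ κ) (hk2 : κ ≤ 0.36) (ht1 : 0.5295 ≤ t + κ) (ht2 : t + κ ≤ 0.6732) :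
    0.11 ≤ sy κ t ∧ sy κ t ≤ 0.166 := by
  have hy1 : 0.11 ≤ sy κ t := syR_ge h 0.27 0.36 0.5295 0.11 1.11627 1.11628 0.34108 0.45479 hk1 hk2 (by linarith) (by norm_num) (by norm_num)
    (expn_ge (by norm_num) (by norm_num)) (expn_le (by norm_num) (by norm_num) (by norm_num)) (by norm_num)
    (by norm_num) (by norm_num) (by norm_num) (by norm_num) (by norm_num) (by norm_num)
  have hy2 : sy κ t ≤ 0.166 := syR_le h 0.27 0.36 0.6732 0.166 1.18057 0.5292 0.54437 0.72584 hk1 hk2 (by linarith) (by norm_num) (by norm_num)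
    (expn_ge (by norm_num) (by norm_num)) (by norm_num) (by norm_num) (Or.inr ((mul_le_mul_of_nonneg_left (expn_le (E := 1.18058) (by norm_num) (by norm_num) (by norm_num)) (by norm_num)).trans (by norm_num))) (by norm_num) (by norm_num) (by norm_num)
  exact ⟨by linarith, by linarith⟩

theorem b7_1_Co {β r h κ T t s u Y : ℝ} (B : Bx 0.27 0.36 0.3187 0.2516 10 0.036 7.1324 β r h κ T) (hs : t + κ = s * h)
    (h1 : 0.59 ≤ u) (h2 : u ≤ 0.75) (h3 : u ≤ s) (h4 : s ≤ u + 0)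
    (hY : eN r κ * (0.9137 * Real.exp (-(T * (0.5977 * (1 - u) ^ 2)))) ≤ Y) :
    ‖Xf β r h t 1‖ ≤ 0.7999 * Y := by
  obtain ⟨t', ht'⟩ : ∃ t', t' = t + 0 * h := ⟨_, rfl⟩
  have hτ : t' + κ = (s + 0) * h := by rw [ht']; linear_combination hs
  have a1 : 0.5295 ≤ t' + κ := by rw [hτ]; exact mlo7 B.P (x1 := 0.59) (by linarith) (by norm_num) (by norm_num)
  have a2 : t' + κ ≤ 0.6732 := by rw [hτ]; exact mhi7 B.P (x2 := 0.75) (by linarith) (by norm_num) (by norm_num)
  have hk := B.hk1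
  have hk' := B.P.hκ1
  have hD : DomR κ t' := dom7 B.P.κ0 (by linarith) (by linarith)
  have hy := b7_1_Co_y hD B.hk1 B.hk2 a1 a2
  have hJ : ‖HH β (sg κ t') - 1‖ ≤ 0.035 := by
    rcases le_total (t' + κ) 0.61 with hc | hc
    · exact (JB7_k1a hD B.P.hβ (by linarith) B.P.hκ1 (by linarith) (by linarith) B.P.βκ B.P.βR).trans (by norm_num)
    · exact JB7_k1b hD B.P.hβ (by linarith) B.P.hκ1 (by linarith) (by linarith) B.P.βκ B.P.βR
  have hd := Dlo7 hD (0.27 ^ 2) (0.36 ^ 2) 1.1721 0.11 0.166 0.11 0.80251 hy.1 hy.2 (pow_le_pow_left₀ (by norm_num) B.hk1 2) (pow_le_pow_left₀ B.P.κ0.le B.hk2 2)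
      (by rw [show (-2 * 0.11 : ℝ) = -0.22 by norm_num]; exact expm_ge (by norm_num) (by norm_num) (by norm_num) (by norm_num)) (by norm_num) (by norm_num) (by norm_num) (by norm_num) (by norm_num)
  have hc : sE κ t' ≤ 1 - 0.4133 * (t' + κ) ^ 2 / (1 + κ ^ 2) := VR7 0.75 0.4133 0.5295 0.6732 _ _ _ _ _ B hD a1 a2 (by norm_num) (by norm_num) (by norm_num) (by norm_num) rfl rfl (by norm_num) rfl rfl rfl (by norm_num) (by norm_num)
  exact up7 0 0.035 0.4133 1.1721 0.9948 0.9137 0.0433 0.7346 0.7999 B (by norm_num) ht' hs hD (by norm_num) hJ hc hd (by norm_num) (by norm_num) (by norm_num) hY (by norm_num)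
    (ch0 (a := 0) (by norm_num) (sqR h1 h3 (by norm_num)) (by norm_num) h1 h2 (by norm_num) (by norm_num)) (by norm_num)
    (expn 0 0.3088 (by norm_num) (by norm_num) (by norm_num) (by norm_num)) (by norm_num) (by norm_num)

theorem b7_1_C2R {β r h κ T t s u Y : ℝ} (B : Bx 0.27 0.36 0.3187 0.2516 10 0.036 7.1324 β r h κ T) (hs : t + κ = s * h)
    (h1 : 0.59 ≤ u) (h2 : u ≤ 0.75) (h3 : u ≤ s) (h4 : s ≤ u + 0) (htp : t + 1 * h ≤ Real.pi / 2)
    (hY : eN r κ * (0.9137 * Real.exp (-(T * (0.5977 * (1 - u) ^ 2)))) ≤ Y) :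
    ‖Xf β r h t 2‖ ≤ 0.052332 * Y := by
  refine leE (cR7 1 0.4 0.2978 1.4271 1.5708 _ _ _ _ _ 0.0087 4.1343 0.7678 0.295 1.3619 0.9137 0.6523 0.009582 0.04336 0.1005 0.8862 0.9245 3.1623 0.001846 0.008972 B (by norm_num) hs htp
    (mlo7 B.P (x1 := 1.59) (by linarith) (by norm_num) (by norm_num)) (mhi7 B.P (x2 := 1.75) (by linarith) (by norm_num) (by norm_num)) hY (g0_nn (by norm_num))
    (g0_le (by norm_num) h1 h2 (by norm_num) (by norm_num)) (ch0 (a := 1) (by norm_num) (sqR h1 h3 (by norm_num)) (by norm_num) h1 h2 (by norm_num) (by norm_num))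
    (by norm_num) (by norm_num) (by norm_num) (by norm_num) rfl rfl (by norm_num) rfl rfl rfl (by norm_num) (by norm_num) (by norm_num) (by norm_num) (by norm_num) (by norm_num) (by norm_num) (by norm_num) (by norm_num) (by norm_num) (by norm_num) (by norm_num) (by norm_num) (by norm_num) (by norm_num) (by norm_num) (by norm_num) (by norm_num) (by norm_num)
    (expn 4 0.6524 (by norm_num) (by norm_num) (by norm_num) (by norm_num)) (by norm_num) (by norm_num) (by norm_num) (by norm_num) (by norm_num) (by norm_num) (by norm_num) (by norm_num) (expn 6 0.295 (by norm_num) (by norm_num) (by norm_num) (by norm_num)) (by norm_num) (by norm_num)) (by norm_num) hY (by norm_num)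

theorem b7_1_C2 {β r h κ T t s u Y : ℝ} (B : Bx 0.27 0.36 0.3187 0.2516 10 0.036 7.1324 β r h κ T) (hs : t + κ = s * h)
    (h1 : 0.59 ≤ u) (h2 : u ≤ 0.75) (h3 : u ≤ s) (h4 : s ≤ u + 0)
    (hY : eN r κ * (0.9137 * Real.exp (-(T * (0.5977 * (1 - u) ^ 2)))) ≤ Y) :
    ‖Xf β r h t 2‖ ≤ 0.052332 * Y := by
  have hp : t + 1 * h ≤ Real.pi / 2 := by
    have e : t + 1 * h = (s + 1) * h - κ := by linear_combination hs
    have := mhi7 B.P (x := s + 1) (x2 := 1.75) (by linarith) (by norm_num) (le_refl _)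
    have := B.hk1
    have := Real.pi_gt_d6
    rw [e]
    norm_num at *
    linarith
  exact leE (b7_1_C2R B hs h1 h2 h3 h4 hp hY) (by norm_num) hY (by norm_num)

theorem b7_1_C3U {β r h κ T t s u Y : ℝ} (B : Bx 0.27 0.36 0.3187 0.2516 10 0.036 7.1324 β r h κ T) (hs : t + κ = s * h)
    (h1 : 0.59 ≤ u) (h2 : u ≤ 0.75) (h3 : u ≤ s) (h4 : s ≤ u + 0)(htp : Real.pi / 2 ≤ t + 2 * h)
    (hY : eN r κ * (0.9137 * Real.exp (-(T * (0.5977 * (1 - u) ^ 2)))) ≤ Y) :
    ‖Xf β r h t (3)‖ ≤ 0.001315 * Y := by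
  refine cU7 0 (2) 1.5707 2.4684 0.03 0.7678 0.03 2.7796 0.9137 0.1005 0.8862 0.9245 3.1623 0.0001325 0.001315 B (by norm_num) hs
    (half7 hs htp (by norm_num)) (mhi7 B.P (x2 := 2.75) (by push_cast; linarith) (by norm_num) (by norm_num)) hY (g0_nn (by norm_num)) (g0_le (by norm_num) h1 h2 (by norm_num) (by norm_num))
    (by norm_num) (by norm_num) (by norm_num) (by norm_num) (by norm_num) (by norm_num) (by norm_num) (by norm_num) (by norm_num) (by norm_num) (by norm_num) (by norm_num) (by norm_num) (by norm_num) (by norm_num) (by norm_num) (by norm_num) (by norm_num) (by norm_num)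
    (expn 8 0.945 (by norm_num) (by norm_num) (by norm_num) (by norm_num)) (by norm_num) (by norm_num)

theorem b7_1_C3 {β r h κ T t s u Y : ℝ} (B : Bx 0.27 0.36 0.3187 0.2516 10 0.036 7.1324 β r h κ T) (hs : t + κ = s * h)
    (h1 : 0.59 ≤ u) (h2 : u ≤ 0.75) (h3 : u ≤ s) (h4 : s ≤ u + 0)
    (hY : eN r κ * (0.9137 * Real.exp (-(T * (0.5977 * (1 - u) ^ 2)))) ≤ Y) :
    ‖Xf β r h t 3‖ ≤ 0.001315 * Y := by
  have hp : Real.pi / 2 ≤ t + 2 * h := by
    have e : t + 2 * h = (s + 2) * h - κ := by linear_combination hs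
    have := mlo7 B.P (x := s + 2) (x1 := 2.59) (by linarith) (by norm_num) (le_refl _)
    have := B.hk2
    have := Real.pi_lt_d6
    rw [e]
    norm_num at *
    linarith
  exact leE (b7_1_C3U B hs h1 h2 h3 h4 hp hY) (by norm_num) hY (by norm_num)

theorem b7_1_Cm1 {β r h κ T t s u Y : ℝ} (B : Bx 0.27 0.36 0.3187 0.2516 10 0.036 7.1324 β r h κ T) (hs : t + κ = s * h)
    (h1 : 0.59 ≤ u) (h2 : u ≤ 0.75) (h3 : u ≤ s) (h4 : s ≤ u + 0)
    (hY : eN r κ * (0.9137 * Real.exp (-(T * (0.5977 * (1 - u) ^ 2)))) ≤ Y) :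
    ‖Xf β r h t (-1)‖ ≤ 0.020557 * Y := by
  refine leE (cL7 (-2) 0.78 0.5098 1.1219 1.2657 _ _ _ _ _ 0.013 3.7394 0.7678 0.1647 1.2957 0.9137 0.7592 0.004454 0.01823 0.1005 0.8862 0.9245 3.1623 0.0005032 0.002327 B (by norm_num) hs
    (mloN7 B.P (x1 := 1.25) (by linarith) (by norm_num) (by norm_num)) (mhiN7 B.P (x2 := 1.41) (by linarith) (by norm_num) (by norm_num)) hY (g0_nn (by norm_num))
    (g0_le (by norm_num) h1 h2 (by norm_num) (by norm_num)) (ch0 (a := (-2)) (by norm_num) (sqL h2 h4 (by norm_num) (by norm_num)) (by norm_num) h1 h2 (by norm_num) (by norm_num))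
    (by norm_num) (by norm_num) (by norm_num) (by norm_num) rfl rfl (by norm_num) rfl rfl rfl (by norm_num) (by norm_num) (by norm_num) (by norm_num) (by norm_num) (by norm_num) (by norm_num) (by norm_num) (by norm_num) (by norm_num) (by norm_num) (by norm_num) (by norm_num) (by norm_num) (by norm_num) (by norm_num) (by norm_num) (by norm_num)
    (expn 5 0.4149 (by norm_num) (by norm_num) (by norm_num) (by norm_num)) (by norm_num) (by norm_num) (by norm_num) (by norm_num) (by norm_num) (by norm_num) (by norm_num) (by norm_num) (expn 7 0.598 (by norm_num) (by norm_num) (by norm_num) (by norm_num)) (by norm_num) (by norm_num)) (by norm_num) hY (by norm_num)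

theorem b7_1_Cm2 {β r h κ T t s u Y : ℝ} (B : Bx 0.27 0.36 0.3187 0.2516 10 0.036 7.1324 β r h κ T) (hs : t + κ = s * h)
    (h1 : 0.59 ≤ u) (h2 : u ≤ 0.75) (h3 : u ≤ s) (h4 : s ≤ u + 0)
    (hY : eN r κ * (0.9137 * Real.exp (-(T * (0.5977 * (1 - u) ^ 2)))) ≤ Y) :
    ‖Xf β r h t (-2)‖ ≤ 0.0007832 * Y := by
  refine cU7 1 (-3) 3.7599 4.2636 0.02 0.7678 0.02 1.86 0.9137 0.1005 0.8862 0.9245 3.1623 0.000118 0.0007832 B (by norm_num) hs
    (full7 B.P B.hk2 (x1 := 4.59) (by push_cast; linarith) (by norm_num) (by norm_num)) (mhi7 B.P (x2 := 4.75) (by push_cast; linarith) (by norm_num) (by norm_num)) hY (g0_nn (by norm_num)) (g0_le (by norm_num) h1 h2 (by norm_num) (by norm_num))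
    (by norm_num) (by norm_num) (by norm_num) (by norm_num) (by norm_num) (by norm_num) (by norm_num) (by norm_num) (by norm_num) (by norm_num) (by norm_num) (by norm_num) (by norm_num) (by norm_num) (by norm_num) (by norm_num) (by norm_num) (by norm_num) (by norm_num)
    (expn 9 0.045 (by norm_num) (by norm_num) (by norm_num) (by norm_num)) (by norm_num) (by norm_num)

theorem b7_1_Cm3 {β r h κ T t s u Y : ℝ} (B : Bx 0.27 0.36 0.3187 0.2516 10 0.036 7.1324 β r h κ T) (hs : t + κ = s * h)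
    (h1 : 0.59 ≤ u) (h2 : u ≤ 0.75) (h3 : u ≤ s) (h4 : s ≤ u + 0)
    (hY : eN r κ * (0.9137 * Real.exp (-(T * (0.5977 * (1 - u) ^ 2)))) ≤ Y) :
    ‖Xf β r h t (-3)‖ ≤ 0.0007869 * Y := by
  refine cU7 1 (-4) 2.8623 3.366 0.02 0.7678 0.02 1.8686 0.9137 0.1005 0.8862 0.9245 3.1623 0.000118 0.0007869 B (by norm_num) hs
    (full7 B.P B.hk2 (x1 := 3.59) (by push_cast; linarith) (by norm_num) (by norm_num)) (mhi7 B.P (x2 := 3.75) (by push_cast; linarith) (by norm_num) (by norm_num)) hY (g0_nn (by norm_num)) (g0_le (by norm_num) h1 h2 (by norm_num) (by norm_num))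
    (by norm_num) (by norm_num) (by norm_num) (by norm_num) (by norm_num) (by norm_num) (by norm_num) (by norm_num) (by norm_num) (by norm_num) (by norm_num) (by norm_num) (by norm_num) (by norm_num) (by norm_num) (by norm_num) (by norm_num) (by norm_num) (by norm_num)
    (expn 9 0.045 (by norm_num) (by norm_num) (by norm_num) (by norm_num)) (by norm_num) (by norm_num)

private theorem b7_1_Do_y {κ t : ℝ} (h : DomR κ t) (hk1 : 0.27 ≤ κ) (hk2 : κ ≤ 0.36) (ht1 : 0.6731 ≤ t + κ) (ht2 : t + κ ≤ 0.9425) :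
    0.132 ≤ sy κ t ∧ sy κ t ≤ 0.212 := by
  have hy1 : 0.132 ≤ sy κ t := syR_ge h 0.27 0.36 0.6731 0.132 1.1411 1.14111 0.4184 0.55788 hk1 hk2 (by linarith) (by norm_num) (by norm_num)
    (expn_ge (by norm_num) (by norm_num)) (expn_le (by norm_num) (by norm_num) (by norm_num)) (by norm_num)
    (by norm_num) (by norm_num) (by norm_num) (by norm_num) (by norm_num) (by norm_num)
  have hy2 : sy κ t ≤ 0.212 := syR_le h 0.27 0.36 0.9425 0.212 1.23614 0.6874 0.72794 0.97061 hk1 hk2 (by linarith) (by norm_num) (by norm_num)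
    (expn_ge (by norm_num) (by norm_num)) (by norm_num) (by norm_num) (Or.inr ((mul_le_mul_of_nonneg_left (expn_le (E := 1.23615) (by norm_num) (by norm_num) (by norm_num)) (by norm_num)).trans (by norm_num))) (by norm_num) (by norm_num) (by norm_num)
  exact ⟨by linarith, by linarith⟩

theorem b7_1_Do {β r h κ T t s u Y : ℝ} (B : Bx 0.27 0.36 0.3187 0.2516 10 0.036 7.1324 β r h κ T) (hs : t + κ = s * h)
    (h1 : 0.75 ≤ u) (h2 : u ≤ 1.05) (h3 : u ≤ s) (h4 : s ≤ u + 0)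
    (hY : eN r κ * (0.9137 * Real.exp (-(T * (0.5977 * (1 - u) ^ 2)))) ≤ Y) :
    ‖Xf β r h t 1‖ ≤ 0.3041 * Y := by
  obtain ⟨t', ht'⟩ : ∃ t', t' = t + 0 * h := ⟨_, rfl⟩
  have hτ : t' + κ = (s + 0) * h := by rw [ht']; linear_combination hs
  have a1 : 0.6731 ≤ t' + κ := by rw [hτ]; exact mlo7 B.P (x1 := 0.75) (by linarith) (by norm_num) (by norm_num)
  have a2 : t' + κ ≤ 0.9425 := by rw [hτ]; exact mhi7 B.P (x2 := 1.05) (by linarith) (by norm_num) (by norm_num)
  have hk := B.hk1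
  have hk' := B.P.hκ1
  have hD : DomR κ t' := dom7 B.P.κ0 (by linarith) (by linarith)
  have hy := b7_1_Do_y hD B.hk1 B.hk2 a1 a2
  have hJ : ‖HH β (sg κ t') - 1‖ ≤ 0.035 := JB7_k1b hD B.P.hβ (by linarith) B.P.hκ1 (by linarith) (by linarith) B.P.βκ B.P.βR
  have hd := Dlo7 hD (0.27 ^ 2) (0.36 ^ 2) 1.207 0.132 0.212 0.132 0.76797 hy.1 hy.2 (pow_le_pow_left₀ (by norm_num) B.hk1 2) (pow_le_pow_left₀ B.P.κ0.le B.hk2 2)
      (by rw [show (-2 * 0.132 : ℝ) = -0.264 by norm_num]; exact expm_ge (by norm_num) (by norm_num) (by norm_num) (by norm_num)) (by norm_num) (by norm_num) (by norm_num) (by norm_num) (by norm_num)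
  have hc : sE κ t' ≤ 1 - 0.3827 * (t' + κ) ^ 2 / (1 + κ ^ 2) := VR7 0.66 0.3827 0.6731 0.9425 _ _ _ _ _ B hD a1 a2 (by norm_num) (by norm_num) (by norm_num) (by norm_num) rfl rfl (by norm_num) rfl rfl rfl (by norm_num) (by norm_num)
  exact up7 0 0.035 0.3827 1.207 0.9875 0.9137 0.1779 0.2813 0.3041 B (by norm_num) ht' hs hD (by norm_num) hJ hc hd (by norm_num) (by norm_num) (by norm_num) hY (by norm_num)
    (ch0 (a := 0) (by norm_num) (sqR h1 h3 (by norm_num)) (by norm_num) h1 h2 (by norm_num) (by norm_num)) (by norm_num)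
    (expn 1 0.2688 (by norm_num) (by norm_num) (by norm_num) (by norm_num)) (by norm_num) (by norm_num)

theorem b7_1_D2R {β r h κ T t s u Y : ℝ} (B : Bx 0.27 0.36 0.3187 0.2516 10 0.036 7.1324 β r h κ T) (hs : t + κ = s * h)
    (h1 : 0.75 ≤ u) (h2 : u ≤ 1.05) (h3 : u ≤ s) (h4 : s ≤ u + 0) (htp : t + 1 * h ≤ Real.pi / 2)
    (hY : eN r κ * (0.9137 * Real.exp (-(T * (0.5977 * (1 - u) ^ 2)))) ≤ Y) :
    ‖Xf β r h t 2‖ ≤ 0.019883 * Y := by
  refine leE (cR7 1 0.34 0.2662 1.5707 1.8401 _ _ _ _ _ 0.0091 4.0881 0.7678 0.21 1.3605 0.9137 0.7778 0.003907 0.01749 0.0374 0.8862 0.9719 3.1623 0.0004929 0.002393 B (by norm_num) hs htp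
    (mlo7 B.P (x1 := 1.75) (by linarith) (by norm_num) (by norm_num)) (mhi7 B.P (x2 := 2.05) (by linarith) (by norm_num) (by norm_num)) hY (g0_nn (by norm_num))
    (g0_le (by norm_num) h1 h2 (by norm_num) (by norm_num)) (ch0 (a := 1) (by norm_num) (sqR h1 h3 (by norm_num)) (by norm_num) h1 h2 (by norm_num) (by norm_num))
    (by norm_num) (by norm_num) (by norm_num) (by norm_num) rfl rfl (by norm_num) rfl rfl rfl (by norm_num) (by norm_num) (by norm_num) (by norm_num) (by norm_num) (by norm_num) (by norm_num) (by norm_num) (by norm_num) (by norm_num) (by norm_num) (by norm_num) (by norm_num) (by norm_num) (by norm_num) (by norm_num) (by norm_num) (by norm_num) (by norm_num)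
    (expn 5 0.5475 (by norm_num) (by norm_num) (by norm_num) (by norm_num)) (by norm_num) (by norm_num) (by norm_num) (by norm_num) (by norm_num) (by norm_num) (by norm_num) (by norm_num) (expn 7 0.619 (by norm_num) (by norm_num) (by norm_num) (by norm_num)) (by norm_num) (by norm_num)) (by norm_num) hY (by norm_num)

theorem b7_1_D2 {β r h κ T t s u Y : ℝ} (B : Bx 0.27 0.36 0.3187 0.2516 10 0.036 7.1324 β r h κ T) (hs : t + κ = s * h)
    (h1 : 0.75 ≤ u) (h2 : u ≤ 1.05) (h3 : u ≤ s) (h4 : s ≤ u + 0)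
    (hY : eN r κ * (0.9137 * Real.exp (-(T * (0.5977 * (1 - u) ^ 2)))) ≤ Y) :
    ‖Xf β r h t 2‖ ≤ 0.019883 * Y := by
  have hp : t + 1 * h ≤ Real.pi / 2 := by
    have e : t + 1 * h = (s + 1) * h - κ := by linear_combination hs
    have := mhi7 B.P (x := s + 1) (x2 := 2.05) (by linarith) (by norm_num) (le_refl _)
    have := B.hk1
    have := Real.pi_gt_d6
    rw [e]
    norm_num at *
    linarith
  exact leE (b7_1_D2R B hs h1 h2 h3 h4 hp hY) (by norm_num) hY (by norm_num)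

theorem b7_1_D3U {β r h κ T t s u Y : ℝ} (B : Bx 0.27 0.36 0.3187 0.2516 10 0.036 7.1324 β r h κ T) (hs : t + κ = s * h)
    (h1 : 0.75 ≤ u) (h2 : u ≤ 1.05) (h3 : u ≤ s) (h4 : s ≤ u + 0)(htp : Real.pi / 2 ≤ t + 2 * h)
    (hY : eN r κ * (0.9137 * Real.exp (-(T * (0.5977 * (1 - u) ^ 2)))) ≤ Y) :
    ‖Xf β r h t (3)‖ ≤ 0.0008059 * Y := by
  refine cU7 0 (2) 1.5707 2.7377 0.03 0.7678 0.03 2.7796 0.9137 0.0374 0.8862 0.9719 3.1623 0.00008125 0.0008059 B (by norm_num) hs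
    (half7 hs htp (by norm_num)) (mhi7 B.P (x2 := 3.05) (by push_cast; linarith) (by norm_num) (by norm_num)) hY (g0_nn (by norm_num)) (g0_le (by norm_num) h1 h2 (by norm_num) (by norm_num))
    (by norm_num) (by norm_num) (by norm_num) (by norm_num) (by norm_num) (by norm_num) (by norm_num) (by norm_num) (by norm_num) (by norm_num) (by norm_num) (by norm_num) (by norm_num) (by norm_num) (by norm_num) (by norm_num) (by norm_num) (by norm_num) (by norm_num)
    (expn 9 0.419 (by norm_num) (by norm_num) (by norm_num) (by norm_num)) (by norm_num) (by norm_num)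

theorem b7_1_D3 {β r h κ T t s u Y : ℝ} (B : Bx 0.27 0.36 0.3187 0.2516 10 0.036 7.1324 β r h κ T) (hs : t + κ = s * h)
    (h1 : 0.75 ≤ u) (h2 : u ≤ 1.05) (h3 : u ≤ s) (h4 : s ≤ u + 0)
    (hY : eN r κ * (0.9137 * Real.exp (-(T * (0.5977 * (1 - u) ^ 2)))) ≤ Y) :
    ‖Xf β r h t 3‖ ≤ 0.0008059 * Y := by
  have hp : Real.pi / 2 ≤ t + 2 * h := by
    have e : t + 2 * h = (s + 2) * h - κ := by linear_combination hs
    have := mlo7 B.P (x := s + 2) (x1 := 2.75) (by linarith) (by norm_num) (le_refl _)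
    have := B.hk2
    have := Real.pi_lt_d6
    rw [e]
    norm_num at *
    linarith
  exact leE (b7_1_D3U B hs h1 h2 h3 h4 hp hY) (by norm_num) hY (by norm_num)

theorem b7_1_Dm1 {β r h κ T t s u Y : ℝ} (B : Bx 0.27 0.36 0.3187 0.2516 10 0.036 7.1324 β r h κ T) (hs : t + κ = s * h)
    (h1 : 0.75 ≤ u) (h2 : u ≤ 1.05) (h3 : u ≤ s) (h4 : s ≤ u + 0)
    (hY : eN r κ * (0.9137 * Real.exp (-(T * (0.5977 * (1 - u) ^ 2)))) ≤ Y) :
    ‖Xf β r h t (-1)‖ ≤ 0.15304 * Y := by
  refine leE (cL7 (-2) 0.78 0.5004 0.8527 1.122 _ _ _ _ _ 0.0235 3.2249 0.7678 0.3656 1.2679 0.9137 0.4501 0.04036 0.1425 0.0374 0.8862 0.9719 3.1623 0.002328 0.01054 B (by norm_num) hs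
    (mloN7 B.P (x1 := 0.95) (by linarith) (by norm_num) (by norm_num)) (mhiN7 B.P (x2 := 1.25) (by linarith) (by norm_num) (by norm_num)) hY (g0_nn (by norm_num))
    (g0_le (by norm_num) h1 h2 (by norm_num) (by norm_num)) (ch0 (a := (-2)) (by norm_num) (sqL h2 h4 (by norm_num) (by norm_num)) (by norm_num) h1 h2 (by norm_num) (by norm_num))
    (by norm_num) (by norm_num) (by norm_num) (by norm_num) rfl rfl (by norm_num) rfl rfl rfl (by norm_num) (by norm_num) (by norm_num) (by norm_num) (by norm_num) (by norm_num) (by norm_num) (by norm_num) (by norm_num) (by norm_num) (by norm_num) (by norm_num) (by norm_num) (by norm_num) (by norm_num) (by norm_num) (by norm_num) (by norm_num)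
    (expn 3 0.2102 (by norm_num) (by norm_num) (by norm_num) (by norm_num)) (by norm_num) (by norm_num) (by norm_num) (by norm_num) (by norm_num) (by norm_num) (by norm_num) (by norm_num) (expn 6 0.063 (by norm_num) (by norm_num) (by norm_num) (by norm_num)) (by norm_num) (by norm_num)) (by norm_num) hY (by norm_num)

theorem b7_1_Dm2 {β r h κ T t s u Y : ℝ} (B : Bx 0.27 0.36 0.3187 0.2516 10 0.036 7.1324 β r h κ T) (hs : t + κ = s * h)
    (h1 : 0.75 ≤ u) (h2 : u ≤ 1.05) (h3 : u ≤ s) (h4 : s ≤ u + 0)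
    (hY : eN r κ * (0.9137 * Real.exp (-(T * (0.5977 * (1 - u) ^ 2)))) ≤ Y) :
    ‖Xf β r h t (-2)‖ ≤ 0.0004883 * Y := by
  refine cU7 1 (-3) 3.9035 4.5329 0.02 0.7678 0.02 1.8592 0.9137 0.0374 0.8862 0.9719 3.1623 0.0000736 0.0004883 B (by norm_num) hs
    (full7 B.P B.hk2 (x1 := 4.75) (by push_cast; linarith) (by norm_num) (by norm_num)) (mhi7 B.P (x2 := 5.05) (by push_cast; linarith) (by norm_num) (by norm_num)) hY (g0_nn (by norm_num)) (g0_le (by norm_num) h1 h2 (by norm_num) (by norm_num))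
    (by norm_num) (by norm_num) (by norm_num) (by norm_num) (by norm_num) (by norm_num) (by norm_num) (by norm_num) (by norm_num) (by norm_num) (by norm_num) (by norm_num) (by norm_num) (by norm_num) (by norm_num) (by norm_num) (by norm_num) (by norm_num) (by norm_num)
    (expn 9 0.519 (by norm_num) (by norm_num) (by norm_num) (by norm_num)) (by norm_num) (by norm_num)

theorem b7_1_Dm3 {β r h κ T t s u Y : ℝ} (B : Bx 0.27 0.36 0.3187 0.2516 10 0.036 7.1324 β r h κ T) (hs : t + κ = s * h)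
    (h1 : 0.75 ≤ u) (h2 : u ≤ 1.05) (h3 : u ≤ s) (h4 : s ≤ u + 0)
    (hY : eN r κ * (0.9137 * Real.exp (-(T * (0.5977 * (1 - u) ^ 2)))) ≤ Y) :
    ‖Xf β r h t (-3)‖ ≤ 0.0004903 * Y := by
  refine cU7 1 (-4) 3.0059 3.6353 0.02 0.7678 0.02 1.8665 0.9137 0.0374 0.8862 0.9719 3.1623 0.0000736 0.0004903 B (by norm_num) hs
    (full7 B.P B.hk2 (x1 := 3.75) (by push_cast; linarith) (by norm_num) (by norm_num)) (mhi7 B.P (x2 := 4.05) (by push_cast; linarith) (by norm_num) (by norm_num)) hY (g0_nn (by norm_num)) (g0_le (by norm_num) h1 h2 (by norm_num) (by norm_num))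
    (by norm_num) (by norm_num) (by norm_num) (by norm_num) (by norm_num) (by norm_num) (by norm_num) (by norm_num) (by norm_num) (by norm_num) (by norm_num) (by norm_num) (by norm_num) (by norm_num) (by norm_num) (by norm_num) (by norm_num) (by norm_num) (by norm_num)
    (expn 9 0.519 (by norm_num) (by norm_num) (by norm_num) (by norm_num)) (by norm_num) (by norm_num)

private theorem b7_1_yS1 {κ t : ℝ} (h : DomR κ t) (hk1 : 0.27 ≤ κ) (hk2 : κ ≤ 0.36) (ht1 : 0.3859 ≤ t + κ) (ht2 : t + κ ≤ 0.5296) :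
    0.084 ≤ sy κ t ∧ sy κ t ≤ 0.138 := by
  have hy1 : 0.084 ≤ sy κ t := syR_ge h 0.27 0.36 0.3859 0.084 1.08762 1.08763 0.25377 0.33838 hk1 hk2 (by linarith) (by norm_num) (by norm_num)
    (expn_ge (by norm_num) (by norm_num)) (expn_le (by norm_num) (by norm_num) (by norm_num)) (by norm_num)
    (by norm_num) (by norm_num) (by norm_num) (by norm_num) (by norm_num) (by norm_num)
  have hy2 : sy κ t ≤ 0.138 := syR_le h 0.27 0.36 0.5296 0.138 1.14797 0.4155 0.44005 0.58675 hk1 hk2 (by linarith) (by norm_num) (by norm_num)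
    (expn_ge (by norm_num) (by norm_num)) (by norm_num) (by norm_num) (Or.inr ((mul_le_mul_of_nonneg_left (expn_le (E := 1.14798) (by norm_num) (by norm_num) (by norm_num)) (by norm_num)).trans (by norm_num))) (by norm_num) (by norm_num) (by norm_num)
  exact ⟨by linarith, by linarith⟩

private theorem b7_1_yS0 {κ t : ℝ} (h : DomR κ t) (hk1 : 0.27 ≤ κ) (hk2 : κ ≤ 0.36) (ht1 : (-0.5117) ≤ t + κ) (ht2 : t + κ ≤ (-0.368)) :
    (-0.206) ≤ sy κ t ∧ sy κ t ≤ (-0.104) := by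
  have hy1 : -0.206 ≤ sy κ t := syL_ge h 0.27 0.36 0.5117 0.206 0.81383 0.81384 0.4527 0.46569 0.62093 hk1 hk2 (by linarith) (by norm_num) (by norm_num) (by norm_num)
    (expm_ge (by norm_num) (by norm_num) (by norm_num) (by norm_num)) (expm_le (by norm_num) (by norm_num) (by norm_num)) (by norm_num)
    (by norm_num) (by norm_num) (by norm_num) (by norm_num) (by norm_num) (by norm_num)
  have hy2 : sy κ t ≤ -0.104 := syL_le h 0.27 0.36 0.368 0.104 0.90122 0.90123 0.26035 0.34715 hk1 hk2 (by linarith) (by norm_num) (by norm_num) (by norm_num)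
    (expm_ge (by norm_num) (by norm_num) (by norm_num) (by norm_num)) (expm_le (by norm_num) (by norm_num) (by norm_num)) (by norm_num)
    (by norm_num) (by norm_num) (by norm_num) (by norm_num) (by norm_num) (by norm_num)
  exact ⟨by linarith, by linarith⟩

theorem b7_1_S {β r h κ T t s : ℝ} (B : Bx 0.27 0.36 0.3187 0.2516 10 0.036 7.1324 β r h κ T) (hs : t + κ = s * h)
    (h1 : 0.43 ≤ s) (h2 : s ≤ 0.59) :
    ‖Ld β r h t 0‖ ≤ r * 1.22876 + 0.438 ∧ ‖Ld β r h t 1‖ ≤ r * 0.91944 + 0.2236 ∧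
      T * 0.9332 - (0.0906 + 0.1389 + 0 + 0.4209) ≤ (Ld β r h t 1 - Ld β r h t 0).im := by
  have a1 : 0.3859 ≤ t + κ := by rw [hs]; exact mlo7 B.P h1 (by norm_num) (by norm_num)
  have a2 : t + κ ≤ 0.5296 := by rw [hs]; exact mhi7 B.P h2 (by norm_num) (by norm_num)
  have hτ : t - h + κ = (s + (-1)) * h := by linear_combination hs
  have b1 : (-0.5117) ≤ t - h + κ := by rw [hτ]; have := mhiN7 B.P (x := s + (-1)) (x2 := 0.57) (τ2 := 0.5117) (by linarith) (by norm_num) (by norm_num); linarith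
  have b2 : t - h + κ ≤ (-0.368) := by rw [hτ]; have := mloN7 B.P (x := s + (-1)) (x1 := 0.41) (τ1 := 0.368) (by linarith) (by norm_num) (by norm_num); linarith
  have hk := B.hk1
  have hk2 := B.hk2
  have hk' := B.P.hκ1
  have hD1 : DomR κ t := dom7 B.P.κ0 (by linarith) (by linarith)
  have hD0 : DomR κ (t - h) := dom7 B.P.κ0 (by linarith) (by linarith)
  have hy1 := b7_1_yS1 hD1 B.hk1 B.hk2 a1 a2
  have hy0 := b7_1_yS0 hD0 B.hk1 B.hk2 b1 b2
  have hd1 := Dlo7 hD1 (0.27 ^ 2) (0.36 ^ 2) 1.1309 0.084 0.138 0.084 0.84535 hy1.1 hy1.2 (pow_le_pow_left₀ (by norm_num) B.hk1 2) (pow_le_pow_left₀ B.P.κ0.le B.hk2 2)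
      (by rw [show (-2 * 0.084 : ℝ) = -0.168 by norm_num]; exact expm_ge (by norm_num) (by norm_num) (by norm_num) (by norm_num)) (by norm_num) (by norm_num) (by norm_num) (by norm_num) (by norm_num)
  have hd0 := Dlo7 hD0 (0.27 ^ 2) (0.36 ^ 2) 0.6506 (-0.206) (-0.104) (-0.206) 1.50983 hy0.1 hy0.2 (pow_le_pow_left₀ (by norm_num) B.hk1 2) (pow_le_pow_left₀ B.P.κ0.le B.hk2 2)
      (by rw [show (-2 * (-0.206) : ℝ) = 0.412 by norm_num]; exact expn_ge (by norm_num) (by norm_num)) (by norm_num) (by norm_num) (by norm_num) (by norm_num) (by norm_num)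
  have hJ1 := T7S1a hD1 B.P.hβ (by linarith) (by linarith) (by linarith) (by linarith) B.P.βκ B.P.βR
  have hJ0 := T7S0_1 hD0 B.P.hβ (by linarith) (by linarith) (by linarith) (by linarith) B.P.βκ B.P.βR
  obtain ⟨m1, n1⟩ := copy7 (t := t) (t' := t) (k := 1) 0.27 0.36 1.1309 0.084 0.91944 0.8454 0.2929 0.9079 0.03 0.1 0.0906 0.2236 B.P (by push_cast; ring) hD1 B.hk1 B.hk2 (by norm_num) (by norm_num) (by norm_num) (by norm_num) hJ1
    hy1.1 (by norm_num) hd1 (by norm_num) (expm_le (by norm_num) (by norm_num) (by norm_num)) (by norm_num) (by norm_num) (by norm_num) (by norm_num) (by norm_num) (by norm_num) (by norm_num) (by norm_num)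
  obtain ⟨m0, n0⟩ := copy7 (t := t) (t' := t - h) (k := 0) 0.27 0.36 0.6506 (-0.206) 1.22876 1.5099 0.4997 1.197 0.04 0.15 0.1389 0.438 B.P (by push_cast; ring) hD0 B.hk1 B.hk2 (by norm_num) (by norm_num) (by norm_num) (by norm_num) hJ0
    hy0.1 (by norm_num) hd0 (by norm_num) (by rw [neg_neg]; exact expn_le (by norm_num) (by norm_num) (by norm_num)) (by norm_num) (by norm_num) (by norm_num) (by norm_num) (by norm_num) (by norm_num) (by norm_num) (by norm_num)
  refine ⟨m0, m1, ?_⟩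
  have q1 := corr1_ge hD1 0.27 0.36 1.1309 0 B.hk1 B.hk2 (by norm_num) (by linarith) hd1 (by norm_num) (by norm_num) (Or.inl (by norm_num))
  have q0 := corr0_le hD0 0.27 0.36 0.6506 1.22876 0.4209 B.hk1 B.hk2 (by norm_num) (by linarith) hd0 (by norm_num) (by norm_num)
    ((Real.exp_le_exp.2 (by linarith)).trans (show Real.exp (-(-0.206)) ≤ 1.22876 from (by rw [neg_neg]; exact expn_le (by norm_num) (by norm_num) (by norm_num)))) (Or.inr (by norm_num))
  exact slope7 0.77 0.935 0.9332 0.43 0.59 0.0906 0.1389 0 0.4209 B.P hs h1 h2 (pR_060 hD1 (by linarith) (by linarith) (by linarith)) (pL_060 hD0 hk' (by linarith) (by linarith)) n1 n0 q1 q0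
    (by norm_num) (by norm_num) (by norm_num)

theorem boxb7_1 {p : ℤ} (hp : IsCoprime (7 : ℤ) p) {β r h κ T : ℝ} (P : Q7 β r h κ T) (hk1 : 0.27 ≤ κ) (hk2 : κ ≤ 0.36) :
    Circ (2 * Real.pi * p / (7 : ℕ) + β) r := by
  have B : Bx 0.27 0.36 0.3187 0.2516 10 0.036 7.1324 β r h κ T :=
    { P := P, hk1 := hk1, hk2 := hk2, hψ := (psi_lo P.κ0.le hk2 (by norm_num)).trans (by norm_num), hψ1 := le_trans (by norm_num) (psi1_lo (k1 := 0.27) (by norm_num) hk1 (by linarith)), hR0 := P.hr.trans' (by norm_num), hβ0 := by have := P.βκ; linarith, hT0 := P.T8 hk2 (by norm_num) (by norm_num) }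
  have hT := B.hT0
  have hr := P.r_le (ν := 1.4021) hk2 (by norm_num)
  refine fin7 hp P (slo := 0.43) (shi := 0.59) (bb := 0.0826) (ℓ1 := 0.919) (ℓ0 := 0.9137) (C0 := 0.5977) (e2 := 0.01631) (e3 := 0.002238) (f1 := 0.009904) (g1 := 0.023436) (f2 := 0.001586) (f3 := 0.001594)
    (a := 1.06) (m := T * 0.9332 - (0.6504)) (η := 0.0317) (Λ0 := r * 1.22876 + 0.438) (Λ1 := r * 0.91944 + 0.2236) (S1 := 0.0784)
    (by norm_num) (by norm_num) (by linarith) (by norm_num) (by norm_num) (by norm_num) (by norm_num)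
    ?_ ?_ ?_ ?_ ?_ ?_ ?_ ?_ ?_ ?_ ?_ ?_ ?_ (by norm_num) (by norm_num) (by norm_num) ?_
  · intro t s hs h1 h2
    exact b7_1_L1 B hs (by linarith) h2
  · intro t s hs h1 h2
    exact b7_1_L0 B hs h1 (by linarith)
  · intro t s u Y hs h1 h2 h3 h4 hY
    have hY' : eN r κ * (0.919 * Real.exp (-(T * (1 / 2 * u ^ 2)))) ≤ Y := hY
    rcases le_total u 0.475 with hc | hc
    · exact leE (b7_1_W2a B hs h1 hc h3 h4 hY') (by norm_num) hY' (by norm_num)
    · exact leE (b7_1_W2b B hs hc h2 h3 h4 hY') (by norm_num) hY' (by norm_num)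
  · intro t s u Y hs h1 h2 h3 h4 hY
    exact b7_1_W3 B hs h1 h2 h3 h4 hY
  · intro t s u Y hs h1 h2 h3 h4 hY
    exact b7_1_Wm1 B hs h1 h2 h3 h4 hY
  · intro t s u Y hs h1 h2 h3 h4 hY
    exact b7_1_Wm1p B hs h1 h2 h3 h4 hY
  · intro t s u Y hs h1 h2 h3 h4 hY
    exact b7_1_Wm2 B hs h1 h2 h3 h4 hY
  · intro t s u Y hs h1 h2 h3 h4 hY
    exact b7_1_Wm3 B hs h1 h2 h3 h4 hY
  · intro t s hs h1 h2
    have hY := b7_1_L1 B hs (by linarith) (by linarith)
    have hYp := lt_of_lt_of_le (mul_pos (eN_pos r κ) (mul_pos (by norm_num : (0 : ℝ) < 0.919) (Real.exp_pos _))) hY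
    rcases le_total s 0.36 with hc | hc
    · have x0 := b7_1_Ao B hs h1 hc le_rfl (by linarith) hY
      have x2 := b7_1_A2 B hs h1 hc le_rfl (by linarith) hY
      have x3 := b7_1_A3 B hs h1 hc le_rfl (by linarith) hY
      have xm1 := b7_1_Am1 B hs h1 hc le_rfl (by linarith) hY
      have xm2 := b7_1_Am2 B hs h1 hc le_rfl (by linarith) hY
      have xm3 := b7_1_Am3 B hs h1 hc le_rfl (by linarith) hY
      linarith
    · have x0 := b7_1_Bo B hs hc h2 le_rfl (by linarith) hY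
      have x2 := b7_1_B2 B hs hc h2 le_rfl (by linarith) hY
      have x3 := b7_1_B3 B hs hc h2 le_rfl (by linarith) hY
      have xm1 := b7_1_Bm1 B hs hc h2 le_rfl (by linarith) hY
      have xm2 := b7_1_Bm2 B hs hc h2 le_rfl (by linarith) hY
      have xm3 := b7_1_Bm3 B hs hc h2 le_rfl (by linarith) hY
      linarith
  · intro t s hs h1 h2
    have hY := b7_1_L0 B hs (by linarith) (by linarith)
    have hYp := lt_of_lt_of_le (mul_pos (eN_pos r κ) (mul_pos (by norm_num : (0 : ℝ) < 0.9137) (Real.exp_pos _))) hY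
    rcases le_total s 0.75 with hc | hc
    · have x0 := b7_1_Co B hs h1 hc le_rfl (by linarith) hY
      have x2 := b7_1_C2 B hs h1 hc le_rfl (by linarith) hY
      have x3 := b7_1_C3 B hs h1 hc le_rfl (by linarith) hY
      have xm1 := b7_1_Cm1 B hs h1 hc le_rfl (by linarith) hY
      have xm2 := b7_1_Cm2 B hs h1 hc le_rfl (by linarith) hY
      have xm3 := b7_1_Cm3 B hs h1 hc le_rfl (by linarith) hY
      linarith
    · have x0 := b7_1_Do B hs hc h2 le_rfl (by linarith) hY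
      have x2 := b7_1_D2 B hs hc h2 le_rfl (by linarith) hY
      have x3 := b7_1_D3 B hs hc h2 le_rfl (by linarith) hY
      have xm1 := b7_1_Dm1 B hs hc h2 le_rfl (by linarith) hY
      have xm2 := b7_1_Dm2 B hs hc h2 le_rfl (by linarith) hY
      have xm3 := b7_1_Dm3 B hs hc h2 le_rfl (by linarith) hY
      linarith
  · intro t s hs h1 h2
    exact (b7_1_S B hs h1 h2).1
  · intro t s hs h1 h2
    exact (b7_1_S B hs h1 h2).2.1
  · intro t s hs h1 h2
    have := (b7_1_S B hs h1 h2).2.2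
    linarith
  · linarith

end Sok
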