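import Pool.Agent.Lib.MP_816dec_an.R1b7C
import Pool.Agent.Lib.MP_816dec_an.JB7a
import Pool.Agent.Lib.MP_816dec_an.JB7b
import Pool.Agent.Lib.MP_816dec_an.T7S0a
import Pool.Agent.Lib.MP_816dec_an.T7S1b

/-!
MP_816dec_an (A3, row R1), b = 7: box 2
-/

set_option autoImplicit false
set_option maxHeartbeats 4000000

open Complex Set Filter Topology Metric

namespace Sok

private theorem b7_2_yL1 {κ t : ℝ} (h : DomR κ t) (hk1 : 0.36 ≤ κ) (hk2 : κ ≤ 0.48) (ht1 : 0 ≤ t + κ) (ht2 : t + κ ≤ 0.5296) :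
    0 ≤ sy κ t ∧ sy κ t ≤ 0.167 := by
  have hy1 : 0 ≤ sy κ t := sy_nonneg h (by linarith)
  have hy2 : sy κ t ≤ 0.167 := syR_le h 0.36 0.48 0.5296 0.167 1.18175 0.3883 0.41115 0.54821 hk1 hk2 (by linarith) (by norm_num) (by norm_num)
    (expn_ge (by norm_num) (by norm_num)) (by norm_num) (by norm_num) (Or.inr ((mul_le_mul_of_nonneg_left (expn_le (E := 1.18176) (by norm_num) (by norm_num) (by norm_num)) (by norm_num)).trans (by norm_num))) (by norm_num) (by norm_num) (by norm_num)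
  exact ⟨by linarith, by linarith⟩

theorem b7_2_L1 {β r h κ T t s : ℝ} (B : Bx 0.36 0.48 0.3902 0.3186 10 0.048 6.5481 β r h κ T) (hs : t + κ = s * h)
    (h1 : 0.05 ≤ s) (h2 : s ≤ 0.59) :
    eN r κ * (0.9149 * Real.exp (-(T * (1 / 2 * s ^ 2)))) ≤ ‖Xf β r h t 1‖ := by
  have a1 : 0.0448 ≤ t + κ := by rw [hs]; exact mlo7 B.P h1 (by norm_num) (by norm_num)
  have a2 : t + κ ≤ 0.5296 := by rw [hs]; exact mhi7 B.P h2 (by norm_num) (by norm_num)
  have hk := B.hk1
  have hD : DomR κ t := dom7 B.P.κ0 (by linarith) (by linarith)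
  have hy := b7_2_yL1 hD B.hk1 B.hk2 (by linarith) a2
  have hJ := JB7_k1a hD B.P.hβ (by linarith) B.P.hκ1 (by linarith) (by linarith) B.P.βκ B.P.βR
  have hd := Dup7 hD (0.36 ^ 2) (0.48 ^ 2) 1.2632 0 0.167 1 0.71606 hy.1 hy.2 (pow_le_pow_left₀ (by norm_num) B.hk1 2) (pow_le_pow_left₀ B.P.κ0.le B.hk2 2)
      (by norm_num)
      (by rw [show (-2 * 0.167 : ℝ) = -0.334 by norm_num]; exact expm_le (by norm_num) (by norm_num) (by norm_num)) (by norm_num) (by norm_num) (by norm_num) (by norm_num)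
  have := loR7 (k := 1) 0 0.03 1.2632 0.9149 B.P (by norm_num) (by ring : t = t + 0 * h) hs (by linarith) hD (by norm_num) hJ hd (by norm_num) (by norm_num)
  rw [add_zero] at this
  exact this

private theorem b7_2_yL0 {κ t : ℝ} (h : DomR κ t) (hk1 : 0.36 ≤ κ) (hk2 : κ ≤ 0.48) (ht1 : (-0.5117) ≤ t + κ) (ht2 : t + κ ≤ 0) :
    (-0.259) ≤ sy κ t ∧ sy κ t ≤ 0 := by
  have hy1 : -0.259 ≤ sy κ t := syL_ge h 0.36 0.48 0.5117 0.259 0.77182 0.77183 0.4048 0.41646 0.55529 hk1 hk2 (by linarith) (by norm_num) (by norm_num) (by norm_num)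
    (expm_ge (by norm_num) (by norm_num) (by norm_num) (by norm_num)) (expm_le (by norm_num) (by norm_num) (by norm_num)) (by norm_num)
    (by norm_num) (by norm_num) (by norm_num) (by norm_num) (by norm_num) (by norm_num)
  have hy2 : sy κ t ≤ 0 := sy_nonpos h (by linarith)
  exact ⟨by linarith, by linarith⟩

private theorem b7_2_yL00 {κ t : ℝ} (h : DomR κ t) (hk1 : 0.36 ≤ κ) (hk2 : κ ≤ 0.48) (ht1 : 0 ≤ t + κ) (ht2 : t + κ ≤ 0.05) :
    0 ≤ sy κ t ∧ sy κ t ≤ 0.02 := by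
  have hy1 : 0 ≤ sy κ t := sy_nonneg h (by linarith)
  have hy2 : sy κ t ≤ 0.02 := syR_le h 0.36 0.48 0.05 0.02 1.0202 0.0389 0.0425 0.05668 hk1 hk2 (by linarith) (by norm_num) (by norm_num)
    (expn_ge (by norm_num) (by norm_num)) (by norm_num) (by norm_num) (Or.inr ((mul_le_mul_of_nonneg_left (expn_le (E := 1.02021) (by norm_num) (by norm_num) (by norm_num)) (by norm_num)).trans (by norm_num))) (by norm_num) (by norm_num) (by norm_num)
  exact ⟨by linarith, by linarith⟩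

theorem b7_2_L0 {β r h κ T t s : ℝ} (B : Bx 0.36 0.48 0.3902 0.3186 10 0.048 6.5481 β r h κ T) (hs : t + κ = s * h)
    (h1 : 0.43 ≤ s) (h2 : s ≤ 1.05) :
    eN r κ * (0.913 * Real.exp (-(T * (0.6058 * (1 - s) ^ 2)))) ≤ ‖Xf β r h t 0‖ := by
  obtain ⟨t', ht'⟩ : ∃ t', t' = t + (-1) * h := ⟨_, rfl⟩
  have hτ : t' + κ = (s + (-1)) * h := by rw [ht']; linear_combination hs
  have e : 0.6058 * (1 - s) ^ 2 = 0.6058 * (s + (-1)) ^ 2 := by ring
  rw [e]
  have b1 : -((s + (-1)) * h) ≤ 0.5117 := mhiN7 B.P (x2 := 0.57) (by linarith) (by norm_num) (by norm_num)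
  have b2 : (s + (-1)) * h ≤ 0.05 := mhi7 B.P (x2 := 0.05) (by linarith) (by norm_num) (by norm_num)
  have hk := B.hk1
  have hk' := B.P.hκ1
  rw [← hτ] at b1 b2
  have hD : DomR κ t' := dom7 B.P.κ0 (by linarith) (by linarith)
  have hJ := JB7_k0a hD B.P.hβ (by linarith) B.P.hκ1 (by linarith) (by linarith) B.P.βκ B.P.βR
  rcases le_total s 1 with hc | hc
  · have b3 : t' + κ ≤ 0 := by rw [hτ]; exact mul_nonpos_of_nonpos_of_nonneg (by linarith) B.P.h0.le
    have hy := b7_2_yL0 hD B.hk1 B.hk2 (by linarith) b3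
    have hd := Dup7 hD (0.36 ^ 2) (0.48 ^ 2) 1.031 (-0.259) 0 1.67867 1 hy.1 hy.2 (pow_le_pow_left₀ (by norm_num) B.hk1 2) (pow_le_pow_left₀ B.P.κ0.le B.hk2 2)
      (by rw [show (-2 * (-0.259) : ℝ) = 0.518 by norm_num]; exact expn_le (by norm_num) (by norm_num) (by norm_num))
      (by norm_num) (by norm_num) (by norm_num) (by norm_num) (by norm_num)
    exact loLB7 (k := 0) (-1) 0.08 1.031 0.913 0.6058 0.5117 0.4236 0.1873 0.6938 B (by norm_num) ht' hs (by linarith) (by rw [← hτ]; exact b1) hD (by norm_num) hJ hd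
      (by norm_num) (by norm_num) (by norm_num) (by norm_num) (by norm_num) (by norm_num) (by norm_num) (by norm_num) (by norm_num) (by norm_num) (by norm_num) (by norm_num) (by norm_num)
  · have b3 : 0 ≤ t' + κ := by rw [hτ]; exact mul_nonneg (by linarith) B.P.h0.le
    have hy := b7_2_yL00 hD B.hk1 B.hk2 b3 b2
    have hd := Dup7 hD (0.36 ^ 2) (0.48 ^ 2) 1.031 0 0.02 1 0.96079 hy.1 hy.2 (pow_le_pow_left₀ (by norm_num) B.hk1 2) (pow_le_pow_left₀ B.P.κ0.le B.hk2 2)
      (by norm_num)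
      (by rw [show (-2 * 0.02 : ℝ) = -0.04 by norm_num]; exact expm_le (by norm_num) (by norm_num) (by norm_num)) (by norm_num) (by norm_num) (by norm_num) (by norm_num)
    have := loR7 (k := 0) (-1) 0.08 1.031 0.913 B.P (by norm_num) ht' hs (by linarith) hD (by norm_num) hJ hd (by norm_num) (by norm_num)
    exact le_trans (weak7 (by have := B.P.T5; linarith) (by norm_num) (by norm_num)) this

private theorem b7_2_W2a_y {κ t : ℝ} (h : DomR κ t) (hk1 : 0.36 ≤ κ) (hk2 : κ ≤ 0.48) (ht1 : 1.2835 ≤ t + κ) (ht2 : t + κ ≤ 1.3981) :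
    0.229 ≤ sy κ t ∧ sy κ t ≤ 0.319 := by
  have hy1 : 0.229 ≤ sy κ t := syR_ge h 0.36 0.48 1.2835 0.229 1.25734 1.25735 0.59985 0.79982 hk1 hk2 (by linarith) (by norm_num) (by norm_num)
    (expn_ge (by norm_num) (by norm_num)) (expn_le (by norm_num) (by norm_num) (by norm_num)) (by norm_num)
    (by norm_num) (by norm_num) (by norm_num) (by norm_num) (by norm_num) (by norm_num)
  have hy2 : sy κ t ≤ 0.319 := syR_ang2 h 0.36 0.48 1.3981 1.152 0.4099 0.9142 0.319 0.72688 1.37575 hk1 hk2 (by linarith) (by norm_num) (by norm_num) (by norm_num)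
    (cos_le_num (by norm_num)) (sin_le_num (by norm_num) (by norm_num)) (expm_le (by norm_num) (by norm_num) (by norm_num))
    (expn_ge (by norm_num) (by norm_num)) (by norm_num) (by norm_num) (by norm_num) (by norm_num) (by norm_num)
  exact ⟨by linarith, by linarith⟩

theorem b7_2_W2a {β r h κ T t s u Y : ℝ} (B : Bx 0.36 0.48 0.3902 0.3186 10 0.048 6.5481 β r h κ T) (hs : t + κ = s * h)
    (h1 : 0.43 ≤ u) (h2 : u ≤ 0.475) (h3 : u ≤ s) (h4 : s ≤ u + 0.0826)
    (hY : eN r κ * (0.9149 * Real.exp (-(T * (1 / 2 * u ^ 2)))) ≤ Y) :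
    ‖Xf β r h t 2‖ ≤ 0.02415 * Y := by
  obtain ⟨t', ht'⟩ : ∃ t', t' = t + 1 * h := ⟨_, rfl⟩
  have hτ : t' + κ = (s + 1) * h := by rw [ht']; linear_combination hs
  have a1 : 1.2835 ≤ t' + κ := by rw [hτ]; exact mlo7 B.P (x1 := 1.43) (by linarith) (by norm_num) (by norm_num)
  have a2 : t' + κ ≤ 1.3981 := by rw [hτ]; exact mhi7 B.P (x2 := 1.5576) (by linarith) (by norm_num) (by norm_num)
  have hk := B.hk1
  have hk' := B.P.hκ1
  have hD : DomR κ t' := dom7 B.P.κ0 (by linarith) (by linarith)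
  have hy := b7_2_W2a_y hD B.hk1 B.hk2 a1 a2
  have hJ : ‖HH β (sg κ t') - 1‖ ≤ 0.06 := JB7_k2a hD B.P.hβ (by linarith) B.P.hκ1 (by linarith) (by linarith) B.P.βκ B.P.βR
  have hd := Dlo7 hD (0.36 ^ 2) (0.48 ^ 2) 1.3034 0.229 0.319 0.229 0.63254 hy.1 hy.2 (pow_le_pow_left₀ (by norm_num) B.hk1 2) (pow_le_pow_left₀ B.P.κ0.le B.hk2 2)
      (by rw [show (-2 * 0.229 : ℝ) = -0.458 by norm_num]; exact expm_ge (by norm_num) (by norm_num) (by norm_num) (by norm_num)) (by norm_num) (by norm_num) (by norm_num) (by norm_num) (by norm_num)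
  have hc : sE κ t' ≤ 1 - 0.3301 * (t' + κ) ^ 2 / (1 + κ ^ 2) := VR7 0.53 0.3301 1.2835 1.3981 _ _ _ _ _ B hD a1 a2 (by norm_num) (by norm_num) (by norm_num) (by norm_num) rfl rfl (by norm_num) rfl rfl rfl (by norm_num) (by norm_num)
  exact up7 1 0.06 0.3301 1.3034 0.9921 0.9149 0.5825 0.02227 0.02415 B (by norm_num) ht' hs hD (by norm_num) hJ hc hd (by norm_num) (by norm_num) (by norm_num) hY (by norm_num)
    (ch1 (a := 1) (by norm_num) (sqR h1 h3 (by norm_num)) (by norm_num) h1 h2 (by norm_num) (by norm_num)) (by norm_num)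
    (expn 3 0.8142 (by norm_num) (by norm_num) (by norm_num) (by norm_num)) (by norm_num) (by norm_num)

private theorem b7_2_W2b_y {κ t : ℝ} (h : DomR κ t) (hk1 : 0.36 ≤ κ) (hk2 : κ ≤ 0.48) (ht1 : 1.3239 ≤ t + κ) (ht2 : t + κ ≤ 1.5014) :
    0.229 ≤ sy κ t ∧ sy κ t ≤ 0.327 := by
  have hy1 : 0.229 ≤ sy κ t := syR_ge h 0.36 0.48 1.3239 0.229 1.25734 1.25735 0.59985 0.79982 hk1 hk2 (by linarith) (by norm_num) (by norm_num)
    (expn_ge (by norm_num) (by norm_num)) (expn_le (by norm_num) (by norm_num) (by norm_num)) (by norm_num)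
    (by norm_num) (by norm_num) (by norm_num) (by norm_num) (by norm_num) (by norm_num)
  have hy2 : sy κ t ≤ 0.327 := syR_ang2 h 0.36 0.48 1.5014 1.234 0.3353 0.9447 0.327 0.72109 1.3868 hk1 hk2 (by linarith) (by norm_num) (by norm_num) (by norm_num)
    (cos_le_num (by norm_num)) (sin_le_num (by norm_num) (by norm_num)) (expm_le (by norm_num) (by norm_num) (by norm_num))
    (expn_ge (by norm_num) (by norm_num)) (by norm_num) (by norm_num) (by norm_num) (by norm_num) (by norm_num)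
  exact ⟨by linarith, by linarith⟩

theorem b7_2_W2b {β r h κ T t s u Y : ℝ} (B : Bx 0.36 0.48 0.3902 0.3186 10 0.048 6.5481 β r h κ T) (hs : t + κ = s * h)
    (h1 : 0.475 ≤ u) (h2 : u ≤ 0.59) (h3 : u ≤ s) (h4 : s ≤ u + 0.0826)
    (hY : eN r κ * (0.9149 * Real.exp (-(T * (1 / 2 * u ^ 2)))) ≤ Y) :
    ‖Xf β r h t 2‖ ≤ 0.02576 * Y := by
  obtain ⟨t', ht'⟩ : ∃ t', t' = t + 1 * h := ⟨_, rfl⟩
  have hτ : t' + κ = (s + 1) * h := by rw [ht']; linear_combination hs
  have a1 : 1.3239 ≤ t' + κ := by rw [hτ]; exact mlo7 B.P (x1 := 1.475) (by linarith) (by norm_num) (by norm_num)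
  have a2 : t' + κ ≤ 1.5014 := by rw [hτ]; exact mhi7 B.P (x2 := 1.6726) (by linarith) (by norm_num) (by norm_num)
  have hk := B.hk1
  have hk' := B.P.hκ1
  have hD : DomR κ t' := dom7 B.P.κ0 (by linarith) (by linarith)
  have hy := b7_2_W2b_y hD B.hk1 B.hk2 a1 a2
  have hJ : ‖HH β (sg κ t') - 1‖ ≤ 0.15 := by
    rcases le_total (t' + κ) 1.39 with hc | hc
    · exact (JB7_k2a hD B.P.hβ (by linarith) B.P.hκ1 (by linarith) (by linarith) B.P.βκ B.P.βR).trans (by norm_num)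
    · exact JB7_k2b hD B.P.hβ (by linarith) B.P.hκ1 (by linarith) (by linarith) B.P.βκ B.P.βR
  have hd := Dlo7 hD (0.36 ^ 2) (0.48 ^ 2) 1.3034 0.229 0.327 0.229 0.63254 hy.1 hy.2 (pow_le_pow_left₀ (by norm_num) B.hk1 2) (pow_le_pow_left₀ B.P.κ0.le B.hk2 2)
      (by rw [show (-2 * 0.229 : ℝ) = -0.458 by norm_num]; exact expm_ge (by norm_num) (by norm_num) (by norm_num) (by norm_num)) (by norm_num) (by norm_num) (by norm_num) (by norm_num) (by norm_num)
  have hc : sE κ t' ≤ 1 - 0.3209 * (t' + κ) ^ 2 / (1 + κ ^ 2) := VR7 0.51 0.3209 1.3239 1.5014 _ _ _ _ _ B hD a1 a2 (by norm_num) (by norm_num) (by norm_num) (by norm_num) rfl rfl (by norm_num) rfl rfl rfl (by norm_num) (by norm_num)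
  exact up7 1 0.15 0.3209 1.3034 1.0763 0.9149 0.5853 0.02189 0.02576 B (by norm_num) ht' hs hD (by norm_num) hJ hc hd (by norm_num) (by norm_num) (by norm_num) hY (by norm_num)
    (ch1 (a := 1) (by norm_num) (sqR h1 h3 (by norm_num)) (by norm_num) h1 h2 (by norm_num) (by norm_num)) (by norm_num)
    (expn 3 0.8326 (by norm_num) (by norm_num) (by norm_num) (by norm_num)) (by norm_num) (by norm_num)

theorem b7_2_W3U {β r h κ T t s u Y : ℝ} (B : Bx 0.36 0.48 0.3902 0.3186 10 0.048 6.5481 β r h κ T) (hs : t + κ = s * h)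
    (h1 : 0.43 ≤ u) (h2 : u ≤ 0.59) (h3 : u ≤ s) (h4 : s ≤ u + 0.0826)(htp : Real.pi / 2 ≤ t + 2 * h)
    (hY : eN r κ * (0.9149 * Real.exp (-(T * (1 / 2 * u ^ 2)))) ≤ Y) :
    ‖Xf β r h t (3)‖ ≤ 0.002082 * Y := by
  refine cU7 0 (2) 1.5707 2.399 0.03 0.665 0.03 2.6903 0.9149 0.1741 0.8686 0.8758 3.1623 0.0002125 0.002082 B (by norm_num) hs
    (half7 hs htp (by norm_num)) (mhi7 B.P (x2 := 2.6726) (by push_cast; linarith) (by norm_num) (by norm_num)) hY g1_nn (g1_le (by linarith) h2 (by norm_num))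
    (by norm_num) (by norm_num) (by norm_num) (by norm_num) (by norm_num) (by norm_num) (by norm_num) (by norm_num) (by norm_num) (by norm_num) (by norm_num) (by norm_num) (by norm_num) (by norm_num) (by norm_num) (by norm_num) (by norm_num) (by norm_num) (by norm_num)
    (expn 8 0.458 (by norm_num) (by norm_num) (by norm_num) (by norm_num)) (by norm_num) (by norm_num)

theorem b7_2_W3 {β r h κ T t s u Y : ℝ} (B : Bx 0.36 0.48 0.3902 0.3186 10 0.048 6.5481 β r h κ T) (hs : t + κ = s * h)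
    (h1 : 0.43 ≤ u) (h2 : u ≤ 0.59) (h3 : u ≤ s) (h4 : s ≤ u + 0.0826)
    (hY : eN r κ * (0.9149 * Real.exp (-(T * (1 / 2 * u ^ 2)))) ≤ Y) :
    ‖Xf β r h t 3‖ ≤ 0.002082 * Y := by
  have hp : Real.pi / 2 ≤ t + 2 * h := by
    have e : t + 2 * h = (s + 2) * h - κ := by linear_combination hs
    have := mlo7 B.P (x := s + 2) (x1 := 2.43) (by linarith) (by norm_num) (le_refl _)
    have := B.hk2
    have := Real.pi_lt_d6
    rw [e]
    norm_num at *
    linarith
  exact leE (b7_2_W3U B hs h1 h2 h3 h4 hp hY) (by norm_num) hY (by norm_num)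

theorem b7_2_Wm1 {β r h κ T t s u Y : ℝ} (B : Bx 0.36 0.48 0.3902 0.3186 10 0.048 6.5481 β r h κ T) (hs : t + κ = s * h)
    (h1 : 0.43 ≤ u) (h2 : u ≤ 0.59) (h3 : u ≤ s) (h4 : s ≤ u + 0)
    (hY : eN r κ * (0.913 * Real.exp (-(T * (0.6058 * (1 - u) ^ 2)))) ≤ Y) :
    ‖Xf β r h t (-1)‖ ≤ 0.0061314 * Y := by
  refine leE (cL7 (-2) 0.88 0.5559 1.2656 1.4093 _ _ _ _ _ 0.02 3.4301 0.665 0 1.2463 0.913 1.0033 0.001407 0.005287 0.1969 0.8668 0.8595 3.1623 0.0001857 0.0008444 B (by norm_num) hs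
    (mloN7 B.P (x1 := 1.41) (by linarith) (by norm_num) (by norm_num)) (mhiN7 B.P (x2 := 1.57) (by linarith) (by norm_num) (by norm_num)) hY (g0_nn (by norm_num))
    (g0_le (by norm_num) h1 h2 (by norm_num) (by norm_num)) (ch0 (a := (-2)) (by norm_num) (sqL h2 h4 (by norm_num) (by norm_num)) (by norm_num) h1 h2 (by norm_num) (by norm_num))
    (by norm_num) (by norm_num) (by norm_num) (by norm_num) rfl rfl (by norm_num) rfl rfl rfl (by norm_num) (by norm_num) (by norm_num) (by norm_num) (by norm_num) (by norm_num) (by norm_num) (by norm_num) (by norm_num) (by norm_num) (by norm_num) (by norm_num) (by norm_num) (by norm_num) (by norm_num) (by norm_num) (by norm_num) (by norm_num)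
    (expn 6 0.5697 (by norm_num) (by norm_num) (by norm_num) (by norm_num)) (by norm_num) (by norm_num) (by norm_num) (by norm_num) (by norm_num) (by norm_num) (by norm_num) (by norm_num) (expn 8 0.595 (by norm_num) (by norm_num) (by norm_num) (by norm_num)) (by norm_num) (by norm_num)) (by norm_num) hY (by norm_num)

theorem b7_2_Wm1p {β r h κ T t s u Y : ℝ} (B : Bx 0.36 0.48 0.3902 0.3186 10 0.048 6.5481 β r h κ T) (hs : t + κ = s * h)
    (h1 : 0.43 ≤ u) (h2 : u ≤ 0.59) (h3 : u ≤ s) (h4 : s ≤ u + 0.0826)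
    (hY : eN r κ * (0.913 * Real.exp (-(T * (0.6058 * (1 - u) ^ 2)))) ≤ Y) :
    ‖Xf β r h t (-1)‖ ≤ 0.015011 * Y := by
  refine leE (cL7 (-2) 0.84 0.5378 1.1914 1.4093 _ _ _ _ _ 0.0252 3.2375 0.665 0.0204 1.2317 0.913 0.8457 0.003945 0.01399 0.1969 0.8668 0.8595 3.1623 0.0002271 0.001021 B (by norm_num) hs
    (mloN7 B.P (x1 := 1.3274) (by linarith) (by norm_num) (by norm_num)) (mhiN7 B.P (x2 := 1.57) (by linarith) (by norm_num) (by norm_num)) hY (g0_nn (by norm_num))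
    (g0_le (by norm_num) h1 h2 (by norm_num) (by norm_num)) (ch0 (a := (-1.9174)) (by norm_num) (sqL h2 h4 (by norm_num) (by norm_num)) (by norm_num) h1 h2 (by norm_num) (by norm_num))
    (by norm_num) (by norm_num) (by norm_num) (by norm_num) rfl rfl (by norm_num) rfl rfl rfl (by norm_num) (by norm_num) (by norm_num) (by norm_num) (by norm_num) (by norm_num) (by norm_num) (by norm_num) (by norm_num) (by norm_num) (by norm_num) (by norm_num) (by norm_num) (by norm_num) (by norm_num) (by norm_num) (by norm_num) (by norm_num)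
    (expn 5 0.5377 (by norm_num) (by norm_num) (by norm_num) (by norm_num)) (by norm_num) (by norm_num) (by norm_num) (by norm_num) (by norm_num) (by norm_num) (by norm_num) (by norm_num) (expn 8 0.391 (by norm_num) (by norm_num) (by norm_num) (by norm_num)) (by norm_num) (by norm_num)) (by norm_num) hY (by norm_num)

theorem b7_2_Wm2 {β r h κ T t s u Y : ℝ} (B : Bx 0.36 0.48 0.3902 0.3186 10 0.048 6.5481 β r h κ T) (hs : t + κ = s * h)
    (h1 : 0.43 ≤ u) (h2 : u ≤ 0.59) (h3 : u ≤ s) (h4 : s ≤ u + 0.0826)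
    (hY : eN r κ * (0.913 * Real.exp (-(T * (0.6058 * (1 - u) ^ 2)))) ≤ Y) :
    ‖Xf β r h t (-2)‖ ≤ 0.001348 * Y := by
  refine cU7 1 (-3) 3.4963 4.1942 0.02 0.665 0.02 1.6325 0.913 0.1969 0.8668 0.8595 3.1623 0.0002262 0.001348 B (by norm_num) hs
    (full7 B.P B.hk2 (x1 := 4.43) (by push_cast; linarith) (by norm_num) (by norm_num)) (mhi7 B.P (x2 := 4.6726) (by push_cast; linarith) (by norm_num) (by norm_num)) hY (g0_nn (by norm_num)) (g0_le (by norm_num) h1 h2 (by norm_num) (by norm_num))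
    (by norm_num) (by norm_num) (by norm_num) (by norm_num) (by norm_num) (by norm_num) (by norm_num) (by norm_num) (by norm_num) (by norm_num) (by norm_num) (by norm_num) (by norm_num) (by norm_num) (by norm_num) (by norm_num) (by norm_num) (by norm_num) (by norm_num)
    (expn 8 0.395 (by norm_num) (by norm_num) (by norm_num) (by norm_num)) (by norm_num) (by norm_num)

theorem b7_2_Wm3 {β r h κ T t s u Y : ℝ} (B : Bx 0.36 0.48 0.3902 0.3186 10 0.048 6.5481 β r h κ T) (hs : t + κ = s * h)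
    (h1 : 0.43 ≤ u) (h2 : u ≤ 0.59) (h3 : u ≤ s) (h4 : s ≤ u + 0.0826)
    (hY : eN r κ * (0.913 * Real.exp (-(T * (0.6058 * (1 - u) ^ 2)))) ≤ Y) :
    ‖Xf β r h t (-3)‖ ≤ 0.001359 * Y := by
  refine cU7 1 (-4) 2.5987 3.2966 0.02 0.665 0.02 1.6466 0.913 0.1969 0.8668 0.8595 3.1623 0.0002262 0.001359 B (by norm_num) hs
    (full7 B.P B.hk2 (x1 := 3.43) (by push_cast; linarith) (by norm_num) (by norm_num)) (mhi7 B.P (x2 := 3.6726) (by push_cast; linarith) (by norm_num) (by norm_num)) hY (g0_nn (by norm_num)) (g0_le (by norm_num) h1 h2 (by norm_num) (by norm_num))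
    (by norm_num) (by norm_num) (by norm_num) (by norm_num) (by norm_num) (by norm_num) (by norm_num) (by norm_num) (by norm_num) (by norm_num) (by norm_num) (by norm_num) (by norm_num) (by norm_num) (by norm_num) (by norm_num) (by norm_num) (by norm_num) (by norm_num)
    (expn 8 0.395 (by norm_num) (by norm_num) (by norm_num) (by norm_num)) (by norm_num) (by norm_num)

private theorem b7_2_Ao_y {κ t : ℝ} (h : DomR κ t) (hk1 : 0.36 ≤ κ) (hk2 : κ ≤ 0.48) (ht1 : (-0.8528) ≤ t + κ) (ht2 : t + κ ≤ (-0.5744)) :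
    (-0.555) ≤ sy κ t ∧ sy κ t ≤ (-0.234) := by
  have hy1 : -0.555 ≤ sy κ t := syL_ge2 h 0.36 0.48 0.8528 0.555 0.57407 0.57408 0.6453 0.66376 0.88505 hk1 hk2 (by linarith) (by norm_num) (by norm_num) (by norm_num)
    (expm_ge (by norm_num) (by norm_num) (by norm_num) (by norm_num)) (expm_le (by norm_num) (by norm_num) (by norm_num)) (by norm_num)
    (by norm_num) (by norm_num) (by norm_num) (by norm_num) (by norm_num) (by norm_num)
  have hy2 : sy κ t ≤ -0.234 := syL_le h 0.36 0.48 0.5744 0.234 0.79136 0.79137 0.38578 0.5144 hk1 hk2 (by linarith) (by norm_num) (by norm_num) (by norm_num)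
    (expm_ge (by norm_num) (by norm_num) (by norm_num) (by norm_num)) (expm_le (by norm_num) (by norm_num) (by norm_num)) (by norm_num)
    (by norm_num) (by norm_num) (by norm_num) (by norm_num) (by norm_num) (by norm_num)
  exact ⟨by linarith, by linarith⟩

theorem b7_2_Ao {β r h κ T t s u Y : ℝ} (B : Bx 0.36 0.48 0.3902 0.3186 10 0.048 6.5481 β r h κ T) (hs : t + κ = s * h)
    (h1 : 0.05 ≤ u) (h2 : u ≤ 0.36) (h3 : u ≤ s) (h4 : s ≤ u + 0)
    (hY : eN r κ * (0.9149 * Real.exp (-(T * (1 / 2 * u ^ 2)))) ≤ Y) :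
    ‖Xf β r h t 0‖ ≤ 0.7958 * Y := by
  obtain ⟨t', ht'⟩ : ∃ t', t' = t + (-1) * h := ⟨_, rfl⟩
  have hτ : t' + κ = (s + (-1)) * h := by rw [ht']; linear_combination hs
  have a1 : (-0.8528) ≤ t' + κ := by rw [hτ]; have := mhiN7 B.P (x := s + (-1)) (x2 := 0.95) (τ2 := 0.8528) (by linarith) (by norm_num) (by norm_num); linarith
  have a2 : t' + κ ≤ (-0.5744) := by rw [hτ]; have := mloN7 B.P (x := s + (-1)) (x1 := 0.64) (τ1 := 0.5744) (by linarith) (by norm_num) (by norm_num); linarith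
  have hk := B.hk1
  have hk' := B.P.hκ1
  have hD : DomR κ t' := dom7 B.P.κ0 (by linarith) (by linarith)
  have hy := b7_2_Ao_y hD B.hk1 B.hk2 a1 a2
  have hJ : ‖HH β (sg κ t') - 1‖ ≤ 0.15 := by
    rcases le_total (t' + κ) (-0.61) with hc | hc
    · exact JB7_k0b hD B.P.hβ (by linarith) B.P.hκ1 (by linarith) (by linarith) B.P.βκ B.P.βR
    · exact (JB7_k0a hD B.P.hβ (by linarith) B.P.hκ1 (by linarith) (by linarith) B.P.βκ B.P.βR).trans (by norm_num)
  have hd := Dlo7 hD (0.36 ^ 2) (0.48 ^ 2) 0.248 (-0.555) (-0.234) (-0.4908) 2.66852 hy.1 hy.2 (pow_le_pow_left₀ (by norm_num) B.hk1 2) (pow_le_pow_left₀ B.P.κ0.le B.hk2 2)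
      (by rw [show (-2 * (-0.4908) : ℝ) = 0.9816 by norm_num]; exact expn_ge (by norm_num) (by norm_num)) (by norm_num) (by norm_num) (by norm_num) (by norm_num) (by norm_num)
  have hc : sE κ t' ≤ 1 - 0.4625 * (t' + κ) ^ 2 / (1 + κ ^ 2) := VLA7 hD B.P.hκ1 (by linarith) (by linarith)
  exact up7 (-1) 0.15 0.4625 0.248 1.6297 0.9149 0.1246 0.4467 0.7958 B (by norm_num) ht' hs hD (by norm_num) hJ hc hd (by norm_num) (by norm_num) (by norm_num) hY (by norm_num)
    (ch1 (a := (-1)) (by norm_num) (sqL h2 h4 (by norm_num) (by norm_num)) (by norm_num) h1 h2 (by norm_num) (by norm_num)) (by norm_num)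
    (expn 0 0.8158 (by norm_num) (by norm_num) (by norm_num) (by norm_num)) (by norm_num) (by norm_num)

private theorem b7_2_A2_y {κ t : ℝ} (h : DomR κ t) (hk1 : 0.36 ≤ κ) (hk2 : κ ≤ 0.48) (ht1 : 0.9424 ≤ t + κ) (ht2 : t + κ ≤ 1.2208) :
    0.205 ≤ sy κ t ∧ sy κ t ≤ 0.301 := by
  have hy1 : 0.205 ≤ sy κ t := syR_ge h 0.36 0.48 0.9424 0.205 1.22752 1.22753 0.52425 0.69902 hk1 hk2 (by linarith) (by norm_num) (by norm_num)
    (expn_ge (by norm_num) (by norm_num)) (expn_le (by norm_num) (by norm_num) (by norm_num)) (by norm_num)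
    (by norm_num) (by norm_num) (by norm_num) (by norm_num) (by norm_num) (by norm_num)
  have hy2 : sy κ t ≤ 0.301 := syR_le h 0.36 0.48 1.2208 0.301 1.3512 0.8218 0.84731 1 hk1 hk2 (by linarith) (by norm_num) (by norm_num)
    (expn_ge (by norm_num) (by norm_num)) (by norm_num) (by norm_num) (Or.inl (by norm_num)) (by norm_num) (by norm_num) (by norm_num)
  exact ⟨by linarith, by linarith⟩

theorem b7_2_A2 {β r h κ T t s u Y : ℝ} (B : Bx 0.36 0.48 0.3902 0.3186 10 0.048 6.5481 β r h κ T) (hs : t + κ = s * h)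
    (h1 : 0.05 ≤ u) (h2 : u ≤ 0.36) (h3 : u ≤ s) (h4 : s ≤ u + 0)
    (hY : eN r κ * (0.9149 * Real.exp (-(T * (1 / 2 * u ^ 2)))) ≤ Y) :
    ‖Xf β r h t 2‖ ≤ 0.09033 * Y := by
  obtain ⟨t', ht'⟩ : ∃ t', t' = t + 1 * h := ⟨_, rfl⟩
  have hτ : t' + κ = (s + 1) * h := by rw [ht']; linear_combination hs
  have a1 : 0.9424 ≤ t' + κ := by rw [hτ]; exact mlo7 B.P (x1 := 1.05) (by linarith) (by norm_num) (by norm_num)
  have a2 : t' + κ ≤ 1.2208 := by rw [hτ]; exact mhi7 B.P (x2 := 1.36) (by linarith) (by norm_num) (by norm_num)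
  have hk := B.hk1
  have hk' := B.P.hκ1
  have hD : DomR κ t' := dom7 B.P.κ0 (by linarith) (by linarith)
  have hy := b7_2_A2_y hD B.hk1 B.hk2 a1 a2
  have hJ : ‖HH β (sg κ t') - 1‖ ≤ 0.06 := JB7_k2a hD B.P.hβ (by linarith) B.P.hκ1 (by linarith) (by linarith) B.P.βκ B.P.βR
  have hd := Dlo7 hD (0.36 ^ 2) (0.48 ^ 2) 1.2702 0.205 0.301 0.205 0.66365 hy.1 hy.2 (pow_le_pow_left₀ (by norm_num) B.hk1 2) (pow_le_pow_left₀ B.P.κ0.le B.hk2 2)
      (by rw [show (-2 * 0.205 : ℝ) = -0.41 by norm_num]; exact expm_ge (by norm_num) (by norm_num) (by norm_num) (by norm_num)) (by norm_num) (by norm_num) (by norm_num) (by norm_num) (by norm_num)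
  have hc : sE κ t' ≤ 1 - 0.3466 * (t' + κ) ^ 2 / (1 + κ ^ 2) := VR7 0.57 0.3466 0.9424 1.2208 _ _ _ _ _ B hD a1 a2 (by norm_num) (by norm_num) (by norm_num) (by norm_num) rfl rfl (by norm_num) rfl rfl rfl (by norm_num) (by norm_num)
  exact up7 1 0.06 0.3466 1.2702 0.9985 0.9149 0.3808 0.08276 0.09033 B (by norm_num) ht' hs hD (by norm_num) hJ hc hd (by norm_num) (by norm_num) (by norm_num) hY (by norm_num)
    (ch1 (a := 1) (by norm_num) (sqR h1 h3 (by norm_num)) (by norm_num) h1 h2 (by norm_num) (by norm_num)) (by norm_num)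
    (expn 2 0.4935 (by norm_num) (by norm_num) (by norm_num) (by norm_num)) (by norm_num) (by norm_num)

theorem b7_2_A3R {β r h κ T t s u Y : ℝ} (B : Bx 0.36 0.48 0.3902 0.3186 10 0.048 6.5481 β r h κ T) (hs : t + κ = s * h)
    (h1 : 0.05 ≤ u) (h2 : u ≤ 0.36) (h3 : u ≤ s) (h4 : s ≤ u + 0) (htp : t + 2 * h ≤ Real.pi / 2)
    (hY : eN r κ * (0.9149 * Real.exp (-(T * (1 / 2 * u ^ 2)))) ≤ Y) :
    ‖Xf β r h t 3‖ ≤ 0.006305 * Y := by
  refine leE (cR7 2 0.3 0.2407 1.84 2.1184 _ _ _ _ _ 0.0174 3.5516 0.665 0.1186 1.2537 0.9149 1.0102 0.001346 0.005226 0.0648 0.8686 0.9537 3.1623 0.0002363 0.001079 B (by norm_num) hs htp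
    (mlo7 B.P (x1 := 2.05) (by linarith) (by norm_num) (by norm_num)) (mhi7 B.P (x2 := 2.36) (by linarith) (by norm_num) (by norm_num)) hY g1_nn
    (g1_le (by linarith) h2 (by norm_num)) (ch1 (a := 2) (by norm_num) (sqR h1 h3 (by norm_num)) (by norm_num) h1 h2 (by norm_num) (by norm_num))
    (by norm_num) (by norm_num) (by norm_num) (by norm_num) rfl rfl (by norm_num) rfl rfl rfl (by norm_num) (by norm_num) (by norm_num) (by norm_num) (by norm_num) (by norm_num) (by norm_num) (by norm_num) (by norm_num) (by norm_num) (by norm_num) (by norm_num) (by norm_num) (by norm_num) (by norm_num) (by norm_num) (by norm_num) (by norm_num) (by norm_num)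
    (expn 6 0.6148 (by norm_num) (by norm_num) (by norm_num) (by norm_num)) (by norm_num) (by norm_num) (by norm_num) (by norm_num) (by norm_num) (by norm_num) (by norm_num) (by norm_num) (expn 8 0.351 (by norm_num) (by norm_num) (by norm_num) (by norm_num)) (by norm_num) (by norm_num)) (by norm_num) hY (by norm_num)

theorem b7_2_A3U {β r h κ T t s u Y : ℝ} (B : Bx 0.36 0.48 0.3902 0.3186 10 0.048 6.5481 β r h κ T) (hs : t + κ = s * h)
    (h1 : 0.05 ≤ u) (h2 : u ≤ 0.36) (h3 : u ≤ s) (h4 : s ≤ u + 0)(htp : Real.pi / 2 ≤ t + 2 * h)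
    (hY : eN r κ * (0.9149 * Real.exp (-(T * (1 / 2 * u ^ 2)))) ≤ Y) :
    ‖Xf β r h t (3)‖ ≤ 0.0009538 * Y := by
  refine cU7 0 (2) 1.5707 2.1184 0.03 0.665 0.03 2.6903 0.9149 0.0648 0.8686 0.9537 3.1623 0.00009738 0.0009538 B (by norm_num) hs
    (half7 hs htp (by norm_num)) (mhi7 B.P (x2 := 2.36) (by push_cast; linarith) (by norm_num) (by norm_num)) hY g1_nn (g1_le (by linarith) h2 (by norm_num))
    (by norm_num) (by norm_num) (by norm_num) (by norm_num) (by norm_num) (by norm_num) (by norm_num) (by norm_num) (by norm_num) (by norm_num) (by norm_num) (by norm_num) (by norm_num) (by norm_num) (by norm_num) (by norm_num) (by norm_num) (by norm_num) (by norm_num)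
    (expn 9 0.237 (by norm_num) (by norm_num) (by norm_num) (by norm_num)) (by norm_num) (by norm_num)

theorem b7_2_A3 {β r h κ T t s u Y : ℝ} (B : Bx 0.36 0.48 0.3902 0.3186 10 0.048 6.5481 β r h κ T) (hs : t + κ = s * h)
    (h1 : 0.05 ≤ u) (h2 : u ≤ 0.36) (h3 : u ≤ s) (h4 : s ≤ u + 0)
    (hY : eN r κ * (0.9149 * Real.exp (-(T * (1 / 2 * u ^ 2)))) ≤ Y) :
    ‖Xf β r h t 3‖ ≤ 0.006305 * Y := by
  rcases le_total (t + 2 * h) (Real.pi / 2) with hp | hp
  · exact leE (b7_2_A3R B hs h1 h2 h3 h4 hp hY) (by norm_num) hY (by norm_num)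
  · exact leE (b7_2_A3U B hs h1 h2 h3 h4 hp hY) (by norm_num) hY (by norm_num)

theorem b7_2_Am1 {β r h κ T t s u Y : ℝ} (B : Bx 0.36 0.48 0.3902 0.3186 10 0.048 6.5481 β r h κ T) (hs : t + κ = s * h)
    (h1 : 0.05 ≤ u) (h2 : u ≤ 0.36) (h3 : u ≤ s) (h4 : s ≤ u + 0)
    (hY : eN r κ * (0.9149 * Real.exp (-(T * (1 / 2 * u ^ 2)))) ≤ Y) :
    ‖Xf β r h t (-1)‖ ≤ 0.0014385 * Y := by
  refine leE (cL7 (-2) 0.7 0.4905 1.472 1.7504 _ _ _ _ _ 0.014 3.75 0.665 0 1.244 0.9149 1.2544 0.0002709 0.001111 0.0648 0.8686 0.9537 3.1623 0.0000723 0.0003275 B (by norm_num) hs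
    (mloN7 B.P (x1 := 1.64) (by linarith) (by norm_num) (by norm_num)) (mhiN7 B.P (x2 := 1.95) (by linarith) (by norm_num) (by norm_num)) hY g1_nn
    (g1_le (by linarith) h2 (by norm_num)) (ch1 (a := (-2)) (by norm_num) (sqL h2 h4 (by norm_num) (by norm_num)) (by norm_num) h1 h2 (by norm_num) (by norm_num))
    (by norm_num) (by norm_num) (by norm_num) (by norm_num) rfl rfl (by norm_num) rfl rfl rfl (by norm_num) (by norm_num) (by norm_num) (by norm_num) (by norm_num) (by norm_num) (by norm_num) (by norm_num) (by norm_num) (by norm_num) (by norm_num) (by norm_num) (by norm_num) (by norm_num) (by norm_num) (by norm_num) (by norm_num) (by norm_num)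
    (expn 8 0.2139 (by norm_num) (by norm_num) (by norm_num) (by norm_num)) (by norm_num) (by norm_num) (by norm_num) (by norm_num) (by norm_num) (by norm_num) (by norm_num) (by norm_num) (expn 9 0.537 (by norm_num) (by norm_num) (by norm_num) (by norm_num)) (by norm_num) (by norm_num)) (by norm_num) hY (by norm_num)

theorem b7_2_Am2 {β r h κ T t s u Y : ℝ} (B : Bx 0.36 0.48 0.3902 0.3186 10 0.048 6.5481 β r h κ T) (hs : t + κ = s * h)
    (h1 : 0.05 ≤ u) (h2 : u ≤ 0.36) (h3 : u ≤ s) (h4 : s ≤ u + 0)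
    (hY : eN r κ * (0.9149 * Real.exp (-(T * (1 / 2 * u ^ 2)))) ≤ Y) :
    ‖Xf β r h t (-2)‖ ≤ 0.000525 * Y := by
  refine cU7 1 (-3) 3.1552 3.9136 0.02 0.665 0.02 1.636 0.9149 0.0648 0.8686 0.9537 3.1623 0.00008814 0.000525 B (by norm_num) hs
    (full7 B.P B.hk2 (x1 := 4.05) (by push_cast; linarith) (by norm_num) (by norm_num)) (mhi7 B.P (x2 := 4.36) (by push_cast; linarith) (by norm_num) (by norm_num)) hY g1_nn (g1_le (by linarith) h2 (by norm_num))
    (by norm_num) (by norm_num) (by norm_num) (by norm_num) (by norm_num) (by norm_num) (by norm_num) (by norm_num) (by norm_num) (by norm_num) (by norm_num) (by norm_num) (by norm_num) (by norm_num) (by norm_num) (by norm_num) (by norm_num) (by norm_num) (by norm_num)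
    (expn 9 0.337 (by norm_num) (by norm_num) (by norm_num) (by norm_num)) (by norm_num) (by norm_num)

theorem b7_2_Am3 {β r h κ T t s u Y : ℝ} (B : Bx 0.36 0.48 0.3902 0.3186 10 0.048 6.5481 β r h κ T) (hs : t + κ = s * h)
    (h1 : 0.05 ≤ u) (h2 : u ≤ 0.36) (h3 : u ≤ s) (h4 : s ≤ u + 0)
    (hY : eN r κ * (0.9149 * Real.exp (-(T * (1 / 2 * u ^ 2)))) ≤ Y) :
    ‖Xf β r h t (-3)‖ ≤ 0.0005331 * Y := by
  refine cU7 1 (-4) 2.2576 3.016 0.02 0.665 0.02 1.6613 0.9149 0.0648 0.8686 0.9537 3.1623 0.00008814 0.0005331 B (by norm_num) hs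
    (full7 B.P B.hk2 (x1 := 3.05) (by push_cast; linarith) (by norm_num) (by norm_num)) (mhi7 B.P (x2 := 3.36) (by push_cast; linarith) (by norm_num) (by norm_num)) hY g1_nn (g1_le (by linarith) h2 (by norm_num))
    (by norm_num) (by norm_num) (by norm_num) (by norm_num) (by norm_num) (by norm_num) (by norm_num) (by norm_num) (by norm_num) (by norm_num) (by norm_num) (by norm_num) (by norm_num) (by norm_num) (by norm_num) (by norm_num) (by norm_num) (by norm_num) (by norm_num)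
    (expn 9 0.337 (by norm_num) (by norm_num) (by norm_num) (by norm_num)) (by norm_num) (by norm_num)

private theorem b7_2_Bo_y {κ t : ℝ} (h : DomR κ t) (hk1 : 0.36 ≤ κ) (hk2 : κ ≤ 0.48) (ht1 : (-0.5745) ≤ t + κ) (ht2 : t + κ ≤ (-0.5116)) :
    (-0.302) ≤ sy κ t ∧ sy κ t ≤ (-0.202) := by
  have hy1 : -0.302 ≤ sy κ t := syL_ge h 0.36 0.48 0.5745 0.302 0.73933 0.73934 0.4651 0.46516 0.62023 hk1 hk2 (by linarith) (by norm_num) (by norm_num) (by norm_num)
    (expm_ge (by norm_num) (by norm_num) (by norm_num) (by norm_num)) (expm_le (by norm_num) (by norm_num) (by norm_num)) (by norm_num)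
    (by norm_num) (by norm_num) (by norm_num) (by norm_num) (by norm_num) (by norm_num)
  have hy2 : sy κ t ≤ -0.202 := syL_le h 0.36 0.48 0.5116 0.202 0.81709 0.8171 0.34385 0.45849 hk1 hk2 (by linarith) (by norm_num) (by norm_num) (by norm_num)
    (expm_ge (by norm_num) (by norm_num) (by norm_num) (by norm_num)) (expm_le (by norm_num) (by norm_num) (by norm_num)) (by norm_num)
    (by norm_num) (by norm_num) (by norm_num) (by norm_num) (by norm_num) (by norm_num)
  exact ⟨by linarith, by linarith⟩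

theorem b7_2_Bo {β r h κ T t s u Y : ℝ} (B : Bx 0.36 0.48 0.3902 0.3186 10 0.048 6.5481 β r h κ T) (hs : t + κ = s * h)
    (h1 : 0.36 ≤ u) (h2 : u ≤ 0.43) (h3 : u ≤ s) (h4 : s ≤ u + 0)
    (hY : eN r κ * (0.9149 * Real.exp (-(T * (1 / 2 * u ^ 2)))) ≤ Y) :
    ‖Xf β r h t 0‖ ≤ 0.8948 * Y := by
  obtain ⟨t', ht'⟩ : ∃ t', t' = t + (-1) * h := ⟨_, rfl⟩
  have hτ : t' + κ = (s + (-1)) * h := by rw [ht']; linear_combination hs
  have a1 : (-0.5745) ≤ t' + κ := by rw [hτ]; have := mhiN7 B.P (x := s + (-1)) (x2 := 0.64) (τ2 := 0.5745) (by linarith) (by norm_num) (by norm_num); linarith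
  have a2 : t' + κ ≤ (-0.5116) := by rw [hτ]; have := mloN7 B.P (x := s + (-1)) (x1 := 0.57) (τ1 := 0.5116) (by linarith) (by norm_num) (by norm_num); linarith
  have hk := B.hk1
  have hk' := B.P.hκ1
  have hD : DomR κ t' := dom7 B.P.κ0 (by linarith) (by linarith)
  have hy := b7_2_Bo_y hD B.hk1 B.hk2 a1 a2
  have hJ : ‖HH β (sg κ t') - 1‖ ≤ 0.08 := JB7_k0a hD B.P.hβ (by linarith) B.P.hκ1 (by linarith) (by linarith) B.P.βκ B.P.βR
  have hd := Dlo7 hD (0.36 ^ 2) (0.48 ^ 2) 0.5604 (-0.302) (-0.202) (-0.302) 1.82941 hy.1 hy.2 (pow_le_pow_left₀ (by norm_num) B.hk1 2) (pow_le_pow_left₀ B.P.κ0.le B.hk2 2)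
      (by rw [show (-2 * (-0.302) : ℝ) = 0.604 by norm_num]; exact expn_ge (by norm_num) (by norm_num)) (by norm_num) (by norm_num) (by norm_num) (by norm_num) (by norm_num)
  have hc : sE κ t' ≤ 1 - 0.4835 * (t' + κ) ^ 2 / (1 + κ ^ 2) := VL_05_06 hD (by linarith) (by linarith) (by linarith)
  exact up7 (-1) 0.08 0.4835 0.5604 1.2483 0.9149 0.0646 0.6558 0.8948 B (by norm_num) ht' hs hD (by norm_num) hJ hc hd (by norm_num) (by norm_num) (by norm_num) hY (by norm_num)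
    (ch1 (a := (-1)) (by norm_num) (sqL h2 h4 (by norm_num) (by norm_num)) (by norm_num) h1 h2 (by norm_num) (by norm_num)) (by norm_num)
    (expn 0 0.423 (by norm_num) (by norm_num) (by norm_num) (by norm_num)) (by norm_num) (by norm_num)

private theorem b7_2_B2_y {κ t : ℝ} (h : DomR κ t) (hk1 : 0.36 ≤ κ) (hk2 : κ ≤ 0.48) (ht1 : 1.2207 ≤ t + κ) (ht2 : t + κ ≤ 1.2836) :
    0.229 ≤ sy κ t ∧ sy κ t ≤ 0.308 := by
  have hy1 : 0.229 ≤ sy κ t := syR_ge h 0.36 0.48 1.2207 0.229 1.25734 1.25735 0.59985 0.79982 hk1 hk2 (by linarith) (by norm_num) (by norm_num)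
    (expn_ge (by norm_num) (by norm_num)) (expn_le (by norm_num) (by norm_num) (by norm_num)) (by norm_num)
    (by norm_num) (by norm_num) (by norm_num) (by norm_num) (by norm_num) (by norm_num)
  have hy2 : sy κ t ≤ 0.308 := syR_ang2 h 0.36 0.48 1.2836 1.06 0.4909 0.8727 0.308 0.73492 1.3607 hk1 hk2 (by linarith) (by norm_num) (by norm_num) (by norm_num)
    (cos_le_num (by norm_num)) (sin_le_num (by norm_num) (by norm_num)) (expm_le (by norm_num) (by norm_num) (by norm_num))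
    (expn_ge (by norm_num) (by norm_num)) (by norm_num) (by norm_num) (by norm_num) (by norm_num) (by norm_num)
  exact ⟨by linarith, by linarith⟩

theorem b7_2_B2 {β r h κ T t s u Y : ℝ} (B : Bx 0.36 0.48 0.3902 0.3186 10 0.048 6.5481 β r h κ T) (hs : t + κ = s * h)
    (h1 : 0.36 ≤ u) (h2 : u ≤ 0.43) (h3 : u ≤ s) (h4 : s ≤ u + 0)
    (hY : eN r κ * (0.9149 * Real.exp (-(T * (1 / 2 * u ^ 2)))) ≤ Y) :
    ‖Xf β r h t 2‖ ≤ 0.0269 * Y := by
  obtain ⟨t', ht'⟩ : ∃ t', t' = t + 1 * h := ⟨_, rfl⟩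
  have hτ : t' + κ = (s + 1) * h := by rw [ht']; linear_combination hs
  have a1 : 1.2207 ≤ t' + κ := by rw [hτ]; exact mlo7 B.P (x1 := 1.36) (by linarith) (by norm_num) (by norm_num)
  have a2 : t' + κ ≤ 1.2836 := by rw [hτ]; exact mhi7 B.P (x2 := 1.43) (by linarith) (by norm_num) (by norm_num)
  have hk := B.hk1
  have hk' := B.P.hκ1
  have hD : DomR κ t' := dom7 B.P.κ0 (by linarith) (by linarith)
  have hy := b7_2_B2_y hD B.hk1 B.hk2 a1 a2
  have hJ : ‖HH β (sg κ t') - 1‖ ≤ 0.06 := JB7_k2a hD B.P.hβ (by linarith) B.P.hκ1 (by linarith) (by linarith) B.P.βκ B.P.βR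
  have hd := Dlo7 hD (0.36 ^ 2) (0.48 ^ 2) 1.3034 0.229 0.308 0.229 0.63254 hy.1 hy.2 (pow_le_pow_left₀ (by norm_num) B.hk1 2) (pow_le_pow_left₀ B.P.κ0.le B.hk2 2)
      (by rw [show (-2 * 0.229 : ℝ) = -0.458 by norm_num]; exact expm_ge (by norm_num) (by norm_num) (by norm_num) (by norm_num)) (by norm_num) (by norm_num) (by norm_num) (by norm_num) (by norm_num)
  have hc : sE κ t' ≤ 1 - 0.3408 * (t' + κ) ^ 2 / (1 + κ ^ 2) := VR7 0.56 0.3408 1.2207 1.2836 _ _ _ _ _ B hD a1 a2 (by norm_num) (by norm_num) (by norm_num) (by norm_num) rfl rfl (by norm_num) rfl rfl rfl (by norm_num) (by norm_num)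
  exact up7 1 0.06 0.3408 1.3034 0.9921 0.9149 0.5655 0.0248 0.0269 B (by norm_num) ht' hs hD (by norm_num) hJ hc hd (by norm_num) (by norm_num) (by norm_num) hY (by norm_num)
    (ch1 (a := 1) (by norm_num) (sqR h1 h3 (by norm_num)) (by norm_num) h1 h2 (by norm_num) (by norm_num)) (by norm_num)
    (expn 3 0.7029 (by norm_num) (by norm_num) (by norm_num) (by norm_num)) (by norm_num) (by norm_num)

theorem b7_2_B3U {β r h κ T t s u Y : ℝ} (B : Bx 0.36 0.48 0.3902 0.3186 10 0.048 6.5481 β r h κ T) (hs : t + κ = s * h)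
    (h1 : 0.36 ≤ u) (h2 : u ≤ 0.43) (h3 : u ≤ s) (h4 : s ≤ u + 0)(htp : Real.pi / 2 ≤ t + 2 * h)
    (hY : eN r κ * (0.9149 * Real.exp (-(T * (1 / 2 * u ^ 2)))) ≤ Y) :
    ‖Xf β r h t (3)‖ ≤ 0.001162 * Y := by
  refine cU7 0 (2) 1.5707 2.1812 0.03 0.665 0.03 2.6903 0.9149 0.0925 0.8686 0.934 3.1623 0.0001186 0.001162 B (by norm_num) hs
    (half7 hs htp (by norm_num)) (mhi7 B.P (x2 := 2.43) (by push_cast; linarith) (by norm_num) (by norm_num)) hY g1_nn (g1_le (by linarith) h2 (by norm_num))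
    (by norm_num) (by norm_num) (by norm_num) (by norm_num) (by norm_num) (by norm_num) (by norm_num) (by norm_num) (by norm_num) (by norm_num) (by norm_num) (by norm_num) (by norm_num) (by norm_num) (by norm_num) (by norm_num) (by norm_num) (by norm_num) (by norm_num)
    (expn 9 0.04 (by norm_num) (by norm_num) (by norm_num) (by norm_num)) (by norm_num) (by norm_num)

theorem b7_2_B3 {β r h κ T t s u Y : ℝ} (B : Bx 0.36 0.48 0.3902 0.3186 10 0.048 6.5481 β r h κ T) (hs : t + κ = s * h)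
    (h1 : 0.36 ≤ u) (h2 : u ≤ 0.43) (h3 : u ≤ s) (h4 : s ≤ u + 0)
    (hY : eN r κ * (0.9149 * Real.exp (-(T * (1 / 2 * u ^ 2)))) ≤ Y) :
    ‖Xf β r h t 3‖ ≤ 0.001162 * Y := by
  have hp : Real.pi / 2 ≤ t + 2 * h := by
    have e : t + 2 * h = (s + 2) * h - κ := by linear_combination hs
    have := mlo7 B.P (x := s + 2) (x1 := 2.36) (by linarith) (by norm_num) (le_refl _)
    have := B.hk2
    have := Real.pi_lt_d6
    rw [e]
    norm_num at *
    linarith
  exact leE (b7_2_B3U B hs h1 h2 h3 h4 hp hY) (by norm_num) hY (by norm_num)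

theorem b7_2_Bm1 {β r h κ T t s u Y : ℝ} (B : Bx 0.36 0.48 0.3902 0.3186 10 0.048 6.5481 β r h κ T) (hs : t + κ = s * h)
    (h1 : 0.36 ≤ u) (h2 : u ≤ 0.43) (h3 : u ≤ s) (h4 : s ≤ u + 0)
    (hY : eN r κ * (0.9149 * Real.exp (-(T * (1 / 2 * u ^ 2)))) ≤ Y) :
    ‖Xf β r h t (-1)‖ ≤ 0.0019599 * Y := by
  refine leE (cL7 (-2) 0.72 0.5 1.4092 1.4721 _ _ _ _ _ 0.0694 2.5132 0.665 0 1.1998 0.9149 1.14 0.0005737 0.001576 0.0925 0.8686 0.934 3.1623 0.00008788 0.0003839 B (by norm_num) hs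
    (mloN7 B.P (x1 := 1.57) (by linarith) (by norm_num) (by norm_num)) (mhiN7 B.P (x2 := 1.64) (by linarith) (by norm_num) (by norm_num)) hY g1_nn
    (g1_le (by linarith) h2 (by norm_num)) (ch1 (a := (-2)) (by norm_num) (sqL h2 h4 (by norm_num) (by norm_num)) (by norm_num) h1 h2 (by norm_num) (by norm_num))
    (by norm_num) (by norm_num) (by norm_num) (by norm_num) rfl rfl (by norm_num) rfl rfl rfl (by norm_num) (by norm_num) (by norm_num) (by norm_num) (by norm_num) (by norm_num) (by norm_num) (by norm_num) (by norm_num) (by norm_num) (by norm_num) (by norm_num) (by norm_num) (by norm_num) (by norm_num) (by norm_num) (by norm_num) (by norm_num)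
    (expn 7 0.4648 (by norm_num) (by norm_num) (by norm_num) (by norm_num)) (by norm_num) (by norm_num) (by norm_num) (by norm_num) (by norm_num) (by norm_num) (by norm_num) (by norm_num) (expn 9 0.34 (by norm_num) (by norm_num) (by norm_num) (by norm_num)) (by norm_num) (by norm_num)) (by norm_num) hY (by norm_num)

theorem b7_2_Bm2 {β r h κ T t s u Y : ℝ} (B : Bx 0.36 0.48 0.3902 0.3186 10 0.048 6.5481 β r h κ T) (hs : t + κ = s * h)
    (h1 : 0.36 ≤ u) (h2 : u ≤ 0.43) (h3 : u ≤ s) (h4 : s ≤ u + 0)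
    (hY : eN r κ * (0.9149 * Real.exp (-(T * (1 / 2 * u ^ 2)))) ≤ Y) :
    ‖Xf β r h t (-2)‖ ≤ 0.000638 * Y := by
  refine cU7 1 (-3) 3.4335 3.9764 0.02 0.665 0.02 1.6331 0.9149 0.0925 0.8686 0.934 3.1623 0.0001073 0.000638 B (by norm_num) hs
    (full7 B.P B.hk2 (x1 := 4.36) (by push_cast; linarith) (by norm_num) (by norm_num)) (mhi7 B.P (x2 := 4.43) (by push_cast; linarith) (by norm_num) (by norm_num)) hY g1_nn (g1_le (by linarith) h2 (by norm_num))
    (by norm_num) (by norm_num) (by norm_num) (by norm_num) (by norm_num) (by norm_num) (by norm_num) (by norm_num) (by norm_num) (by norm_num) (by norm_num) (by norm_num) (by norm_num) (by norm_num) (by norm_num) (by norm_num) (by norm_num) (by norm_num) (by norm_num)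
    (expn 9 0.14 (by norm_num) (by norm_num) (by norm_num) (by norm_num)) (by norm_num) (by norm_num)

theorem b7_2_Bm3 {β r h κ T t s u Y : ℝ} (B : Bx 0.36 0.48 0.3902 0.3186 10 0.048 6.5481 β r h κ T) (hs : t + κ = s * h)
    (h1 : 0.36 ≤ u) (h2 : u ≤ 0.43) (h3 : u ≤ s) (h4 : s ≤ u + 0)
    (hY : eN r κ * (0.9149 * Real.exp (-(T * (1 / 2 * u ^ 2)))) ≤ Y) :
    ‖Xf β r h t (-3)‖ ≤ 0.000644 * Y := by
  refine cU7 1 (-4) 2.5359 3.0788 0.02 0.665 0.02 1.6485 0.9149 0.0925 0.8686 0.934 3.1623 0.0001073 0.000644 B (by norm_num) hs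
    (full7 B.P B.hk2 (x1 := 3.36) (by push_cast; linarith) (by norm_num) (by norm_num)) (mhi7 B.P (x2 := 3.43) (by push_cast; linarith) (by norm_num) (by norm_num)) hY g1_nn (g1_le (by linarith) h2 (by norm_num))
    (by norm_num) (by norm_num) (by norm_num) (by norm_num) (by norm_num) (by norm_num) (by norm_num) (by norm_num) (by norm_num) (by norm_num) (by norm_num) (by norm_num) (by norm_num) (by norm_num) (by norm_num) (by norm_num) (by norm_num) (by norm_num) (by norm_num)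
    (expn 9 0.14 (by norm_num) (by norm_num) (by norm_num) (by norm_num)) (by norm_num) (by norm_num)

private theorem b7_2_Co_y {κ t : ℝ} (h : DomR κ t) (hk1 : 0.36 ≤ κ) (hk2 : κ ≤ 0.48) (ht1 : 0.5295 ≤ t + κ) (ht2 : t + κ ≤ 0.6732) :
    0.136 ≤ sy κ t ∧ sy κ t ≤ 0.201 := by
  have hy1 : 0.136 ≤ sy κ t := syR_ge h 0.36 0.48 0.5295 0.136 1.14568 1.14569 0.3246 0.43282 hk1 hk2 (by linarith) (by norm_num) (by norm_num)
    (expn_ge (by norm_num) (by norm_num)) (expn_le (by norm_num) (by norm_num) (by norm_num)) (by norm_num)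
    (by norm_num) (by norm_num) (by norm_num) (by norm_num) (by norm_num) (by norm_num)
  have hy2 : sy κ t ≤ 0.201 := syR_le h 0.36 0.48 0.6732 0.201 1.22262 0.4835 0.51197 0.68264 hk1 hk2 (by linarith) (by norm_num) (by norm_num)
    (expn_ge (by norm_num) (by norm_num)) (by norm_num) (by norm_num) (Or.inr ((mul_le_mul_of_nonneg_left (expn_le (E := 1.22263) (by norm_num) (by norm_num) (by norm_num)) (by norm_num)).trans (by norm_num))) (by norm_num) (by norm_num) (by norm_num)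
  exact ⟨by linarith, by linarith⟩

theorem b7_2_Co {β r h κ T t s u Y : ℝ} (B : Bx 0.36 0.48 0.3902 0.3186 10 0.048 6.5481 β r h κ T) (hs : t + κ = s * h)
    (h1 : 0.59 ≤ u) (h2 : u ≤ 0.75) (h3 : u ≤ s) (h4 : s ≤ u + 0)
    (hY : eN r κ * (0.913 * Real.exp (-(T * (0.6058 * (1 - u) ^ 2)))) ≤ Y) :
    ‖Xf β r h t 1‖ ≤ 0.8402 * Y := by
  obtain ⟨t', ht'⟩ : ∃ t', t' = t + 0 * h := ⟨_, rfl⟩
  have hτ : t' + κ = (s + 0) * h := by rw [ht']; linear_combination hs
  have a1 : 0.5295 ≤ t' + κ := by rw [hτ]; exact mlo7 B.P (x1 := 0.59) (by linarith) (by norm_num) (by norm_num)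
  have a2 : t' + κ ≤ 0.6732 := by rw [hτ]; exact mhi7 B.P (x2 := 0.75) (by linarith) (by norm_num) (by norm_num)
  have hk := B.hk1
  have hk' := B.P.hκ1
  have hD : DomR κ t' := dom7 B.P.κ0 (by linarith) (by linarith)
  have hy := b7_2_Co_y hD B.hk1 B.hk2 a1 a2
  have hJ : ‖HH β (sg κ t') - 1‖ ≤ 0.035 := by
    rcases le_total (t' + κ) 0.61 with hc | hc
    · exact (JB7_k1a hD B.P.hβ (by linarith) B.P.hκ1 (by linarith) (by linarith) B.P.βκ B.P.βR).trans (by norm_num)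
    · exact JB7_k1b hD B.P.hβ (by linarith) B.P.hκ1 (by linarith) (by linarith) B.P.βκ B.P.βR
  have hd := Dlo7 hD (0.36 ^ 2) (0.48 ^ 2) 1.1764 0.136 0.201 0.136 0.76185 hy.1 hy.2 (pow_le_pow_left₀ (by norm_num) B.hk1 2) (pow_le_pow_left₀ B.P.κ0.le B.hk2 2)
      (by rw [show (-2 * 0.136 : ℝ) = -0.272 by norm_num]; exact expm_ge (by norm_num) (by norm_num) (by norm_num) (by norm_num)) (by norm_num) (by norm_num) (by norm_num) (by norm_num) (by norm_num)
  have hc : sE κ t' ≤ 1 - 0.4064 * (t' + κ) ^ 2 / (1 + κ ^ 2) := VR7 0.73 0.4064 0.5295 0.6732 _ _ _ _ _ B hD a1 a2 (by norm_num) (by norm_num) (by norm_num) (by norm_num) rfl rfl (by norm_num) rfl rfl rfl (by norm_num) (by norm_num)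
  exact up7 0 0.035 0.4064 1.1764 0.9939 0.913 0.0396 0.7718 0.8402 B (by norm_num) ht' hs hD (by norm_num) hJ hc hd (by norm_num) (by norm_num) (by norm_num) hY (by norm_num)
    (ch0 (a := 0) (by norm_num) (sqR h1 h3 (by norm_num)) (by norm_num) h1 h2 (by norm_num) (by norm_num)) (by norm_num)
    (expn 0 0.2593 (by norm_num) (by norm_num) (by norm_num) (by norm_num)) (by norm_num) (by norm_num)

theorem b7_2_C2R {β r h κ T t s u Y : ℝ} (B : Bx 0.36 0.48 0.3902 0.3186 10 0.048 6.5481 β r h κ T) (hs : t + κ = s * h)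
    (h1 : 0.59 ≤ u) (h2 : u ≤ 0.75) (h3 : u ≤ s) (h4 : s ≤ u + 0) (htp : t + 1 * h ≤ Real.pi / 2)
    (hY : eN r κ * (0.913 * Real.exp (-(T * (0.6058 * (1 - u) ^ 2)))) ≤ Y) :
    ‖Xf β r h t 2‖ ≤ 0.06981 * Y := by
  refine leE (cR7 1 0.4 0.2951 1.4271 1.5708 _ _ _ _ _ 0.0192 3.4653 0.665 0.347 1.2499 0.913 0.6442 0.01473 0.05591 0.1019 0.8668 0.9273 3.1623 0.003047 0.0139 B (by norm_num) hs htp
    (mlo7 B.P (x1 := 1.59) (by linarith) (by norm_num) (by norm_num)) (mhi7 B.P (x2 := 1.75) (by linarith) (by norm_num) (by norm_num)) hY (g0_nn (by norm_num))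
    (g0_le (by norm_num) h1 h2 (by norm_num) (by norm_num)) (ch0 (a := 1) (by norm_num) (sqR h1 h3 (by norm_num)) (by norm_num) h1 h2 (by norm_num) (by norm_num))
    (by norm_num) (by norm_num) (by norm_num) (by norm_num) rfl rfl (by norm_num) rfl rfl rfl (by norm_num) (by norm_num) (by norm_num) (by norm_num) (by norm_num) (by norm_num) (by norm_num) (by norm_num) (by norm_num) (by norm_num) (by norm_num) (by norm_num) (by norm_num) (by norm_num) (by norm_num) (by norm_num) (by norm_num) (by norm_num) (by norm_num)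
    (expn 4 0.2182 (by norm_num) (by norm_num) (by norm_num) (by norm_num)) (by norm_num) (by norm_num) (by norm_num) (by norm_num) (by norm_num) (by norm_num) (by norm_num) (by norm_num) (expn 5 0.803 (by norm_num) (by norm_num) (by norm_num) (by norm_num)) (by norm_num) (by norm_num)) (by norm_num) hY (by norm_num)

theorem b7_2_C2 {β r h κ T t s u Y : ℝ} (B : Bx 0.36 0.48 0.3902 0.3186 10 0.048 6.5481 β r h κ T) (hs : t + κ = s * h)
    (h1 : 0.59 ≤ u) (h2 : u ≤ 0.75) (h3 : u ≤ s) (h4 : s ≤ u + 0)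
    (hY : eN r κ * (0.913 * Real.exp (-(T * (0.6058 * (1 - u) ^ 2)))) ≤ Y) :
    ‖Xf β r h t 2‖ ≤ 0.06981 * Y := by
  have hp : t + 1 * h ≤ Real.pi / 2 := by
    have e : t + 1 * h = (s + 1) * h - κ := by linear_combination hs
    have := mhi7 B.P (x := s + 1) (x2 := 1.75) (by linarith) (by norm_num) (le_refl _)
    have := B.hk1
    have := Real.pi_gt_d6
    rw [e]
    norm_num at *
    linarith
  exact leE (b7_2_C2R B hs h1 h2 h3 h4 hp hY) (by norm_num) hY (by norm_num)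

theorem b7_2_C3U {β r h κ T t s u Y : ℝ} (B : Bx 0.36 0.48 0.3902 0.3186 10 0.048 6.5481 β r h κ T) (hs : t + κ = s * h)
    (h1 : 0.59 ≤ u) (h2 : u ≤ 0.75) (h3 : u ≤ s) (h4 : s ≤ u + 0)(htp : Real.pi / 2 ≤ t + 2 * h)
    (hY : eN r κ * (0.913 * Real.exp (-(T * (0.6058 * (1 - u) ^ 2)))) ≤ Y) :
    ‖Xf β r h t (3)‖ ≤ 0.001268 * Y := by
  refine cU7 0 (2) 1.5707 2.4684 0.03 0.665 0.03 2.6903 0.913 0.1019 0.8668 0.9273 3.1623 0.0001291 0.001268 B (by norm_num) hs
    (half7 hs htp (by norm_num)) (mhi7 B.P (x2 := 2.75) (by push_cast; linarith) (by norm_num) (by norm_num)) hY (g0_nn (by norm_num)) (g0_le (by norm_num) h1 h2 (by norm_num) (by norm_num))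
    (by norm_num) (by norm_num) (by norm_num) (by norm_num) (by norm_num) (by norm_num) (by norm_num) (by norm_num) (by norm_num) (by norm_num) (by norm_num) (by norm_num) (by norm_num) (by norm_num) (by norm_num) (by norm_num) (by norm_num) (by norm_num) (by norm_num)
    (expn 8 0.973 (by norm_num) (by norm_num) (by norm_num) (by norm_num)) (by norm_num) (by norm_num)

theorem b7_2_C3 {β r h κ T t s u Y : ℝ} (B : Bx 0.36 0.48 0.3902 0.3186 10 0.048 6.5481 β r h κ T) (hs : t + κ = s * h)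
    (h1 : 0.59 ≤ u) (h2 : u ≤ 0.75) (h3 : u ≤ s) (h4 : s ≤ u + 0)
    (hY : eN r κ * (0.913 * Real.exp (-(T * (0.6058 * (1 - u) ^ 2)))) ≤ Y) :
    ‖Xf β r h t 3‖ ≤ 0.001268 * Y := by
  have hp : Real.pi / 2 ≤ t + 2 * h := by
    have e : t + 2 * h = (s + 2) * h - κ := by linear_combination hs
    have := mlo7 B.P (x := s + 2) (x1 := 2.59) (by linarith) (by norm_num) (le_refl _)
    have := B.hk2
    have := Real.pi_lt_d6
    rw [e]
    norm_num at *
    linarith
  exact leE (b7_2_C3U B hs h1 h2 h3 h4 hp hY) (by norm_num) hY (by norm_num)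

theorem b7_2_Cm1 {β r h κ T t s u Y : ℝ} (B : Bx 0.36 0.48 0.3902 0.3186 10 0.048 6.5481 β r h κ T) (hs : t + κ = s * h)
    (h1 : 0.59 ≤ u) (h2 : u ≤ 0.75) (h3 : u ≤ s) (h4 : s ≤ u + 0)
    (hY : eN r κ * (0.913 * Real.exp (-(T * (0.6058 * (1 - u) ^ 2)))) ≤ Y) :
    ‖Xf β r h t (-1)‖ ≤ 0.014249 * Y := by
  refine leE (cL7 (-2) 0.94 0.5669 1.1219 1.2657 _ _ _ _ _ 0.0304 3.0892 0.665 0.0937 1.2327 0.913 0.8479 0.00389 0.01317 0.1019 0.8668 0.9273 3.1623 0.0002399 0.001079 B (by norm_num) hs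
    (mloN7 B.P (x1 := 1.25) (by linarith) (by norm_num) (by norm_num)) (mhiN7 B.P (x2 := 1.41) (by linarith) (by norm_num) (by norm_num)) hY (g0_nn (by norm_num))
    (g0_le (by norm_num) h1 h2 (by norm_num) (by norm_num)) (ch0 (a := (-2)) (by norm_num) (sqL h2 h4 (by norm_num) (by norm_num)) (by norm_num) h1 h2 (by norm_num) (by norm_num))
    (by norm_num) (by norm_num) (by norm_num) (by norm_num) rfl rfl (by norm_num) rfl rfl rfl (by norm_num) (by norm_num) (by norm_num) (by norm_num) (by norm_num) (by norm_num) (by norm_num) (by norm_num) (by norm_num) (by norm_num) (by norm_num) (by norm_num) (by norm_num) (by norm_num) (by norm_num) (by norm_num) (by norm_num) (by norm_num)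
    (expn 5 0.5521 (by norm_num) (by norm_num) (by norm_num) (by norm_num)) (by norm_num) (by norm_num) (by norm_num) (by norm_num) (by norm_num) (by norm_num) (by norm_num) (by norm_num) (expn 8 0.336 (by norm_num) (by norm_num) (by norm_num) (by norm_num)) (by norm_num) (by norm_num)) (by norm_num) hY (by norm_num)

theorem b7_2_Cm2 {β r h κ T t s u Y : ℝ} (B : Bx 0.36 0.48 0.3902 0.3186 10 0.048 6.5481 β r h κ T) (hs : t + κ = s * h)
    (h1 : 0.59 ≤ u) (h2 : u ≤ 0.75) (h3 : u ≤ s) (h4 : s ≤ u + 0)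
    (hY : eN r κ * (0.913 * Real.exp (-(T * (0.6058 * (1 - u) ^ 2)))) ≤ Y) :
    ‖Xf β r h t (-2)‖ ≤ 0.000435525 * Y := by
  refine leE (cL7 (-3) 0.6 0.452 2.0195 2.1633 _ _ _ _ _ 0.0117 3.9221 0.665 0 1.2654 0.913 2.2503 0.0000004015 0.000001725 0.1019 0.8668 0.9273 3.1623 0.00009395 0.0004338 B (by norm_num) hs
    (mloN7 B.P (x1 := 2.25) (by linarith) (by norm_num) (by norm_num)) (mhiN7 B.P (x2 := 2.41) (by linarith) (by norm_num) (by norm_num)) hY (g0_nn (by norm_num))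
    (g0_le (by norm_num) h1 h2 (by norm_num) (by norm_num)) (ch0 (a := (-3)) (by norm_num) (sqL h2 h4 (by norm_num) (by norm_num)) (by norm_num) h1 h2 (by norm_num) (by norm_num))
    (by norm_num) (by norm_num) (by norm_num) (by norm_num) rfl rfl (by norm_num) rfl rfl rfl (by norm_num) (by norm_num) (by norm_num) (by norm_num) (by norm_num) (by norm_num) (by norm_num) (by norm_num) (by norm_num) (by norm_num) (by norm_num) (by norm_num) (by norm_num) (by norm_num) (by norm_num) (by norm_num) (by norm_num) (by norm_num)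
    (expn 14 0.7351 (by norm_num) (by norm_num) (by norm_num) (by norm_num)) (by norm_num) (by norm_num) (by norm_num) (by norm_num) (by norm_num) (by norm_num) (by norm_num) (by norm_num) (expn 9 0.273 (by norm_num) (by norm_num) (by norm_num) (by norm_num)) (by norm_num) (by norm_num)) (by norm_num) hY (by norm_num)

theorem b7_2_Cm3 {β r h κ T t s u Y : ℝ} (B : Bx 0.36 0.48 0.3902 0.3186 10 0.048 6.5481 β r h κ T) (hs : t + κ = s * h)
    (h1 : 0.59 ≤ u) (h2 : u ≤ 0.75) (h3 : u ≤ s) (h4 : s ≤ u + 0)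
    (hY : eN r κ * (0.913 * Real.exp (-(T * (0.6058 * (1 - u) ^ 2)))) ≤ Y) :
    ‖Xf β r h t (-3)‖ ≤ 0.0006881 * Y := by
  refine cU7 1 (-4) 2.7423 3.366 0.02 0.665 0.02 1.6429 0.913 0.1019 0.8668 0.9273 3.1623 0.0001148 0.0006881 B (by norm_num) hs
    (full7 B.P B.hk2 (x1 := 3.59) (by push_cast; linarith) (by norm_num) (by norm_num)) (mhi7 B.P (x2 := 3.75) (by push_cast; linarith) (by norm_num) (by norm_num)) hY (g0_nn (by norm_num)) (g0_le (by norm_num) h1 h2 (by norm_num) (by norm_num))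
    (by norm_num) (by norm_num) (by norm_num) (by norm_num) (by norm_num) (by norm_num) (by norm_num) (by norm_num) (by norm_num) (by norm_num) (by norm_num) (by norm_num) (by norm_num) (by norm_num) (by norm_num) (by norm_num) (by norm_num) (by norm_num) (by norm_num)
    (expn 9 0.073 (by norm_num) (by norm_num) (by norm_num) (by norm_num)) (by norm_num) (by norm_num)

private theorem b7_2_Do_y {κ t : ℝ} (h : DomR κ t) (hk1 : 0.36 ≤ κ) (hk2 : κ ≤ 0.48) (ht1 : 0.6731 ≤ t + κ) (ht2 : t + κ ≤ 0.9425) :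
    0.163 ≤ sy κ t ∧ sy κ t ≤ 0.255 := by
  have hy1 : 0.163 ≤ sy κ t := syR_ge h 0.36 0.48 0.6731 0.163 1.17703 1.17704 0.39969 0.53294 hk1 hk2 (by linarith) (by norm_num) (by norm_num)
    (expn_ge (by norm_num) (by norm_num)) (expn_le (by norm_num) (by norm_num) (by norm_num)) (by norm_num)
    (by norm_num) (by norm_num) (by norm_num) (by norm_num) (by norm_num) (by norm_num)
  have hy2 : sy κ t ≤ 0.255 := syR_le h 0.36 0.48 0.9425 0.255 1.29046 0.6665 0.68555 0.91409 hk1 hk2 (by linarith) (by norm_num) (by norm_num)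
    (expn_ge (by norm_num) (by norm_num)) (by norm_num) (by norm_num) (Or.inr ((mul_le_mul_of_nonneg_left (expn_le (E := 1.29047) (by norm_num) (by norm_num) (by norm_num)) (by norm_num)).trans (by norm_num))) (by norm_num) (by norm_num) (by norm_num)
  exact ⟨by linarith, by linarith⟩

theorem b7_2_Do {β r h κ T t s u Y : ℝ} (B : Bx 0.36 0.48 0.3902 0.3186 10 0.048 6.5481 β r h κ T) (hs : t + κ = s * h)
    (h1 : 0.75 ≤ u) (h2 : u ≤ 1.05) (h3 : u ≤ s) (h4 : s ≤ u + 0)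
    (hY : eN r κ * (0.913 * Real.exp (-(T * (0.6058 * (1 - u) ^ 2)))) ≤ Y) :
    ‖Xf β r h t 1‖ ≤ 0.3475 * Y := by
  obtain ⟨t', ht'⟩ : ∃ t', t' = t + 0 * h := ⟨_, rfl⟩
  have hτ : t' + κ = (s + 0) * h := by rw [ht']; linear_combination hs
  have a1 : 0.6731 ≤ t' + κ := by rw [hτ]; exact mlo7 B.P (x1 := 0.75) (by linarith) (by norm_num) (by norm_num)
  have a2 : t' + κ ≤ 0.9425 := by rw [hτ]; exact mhi7 B.P (x2 := 1.05) (by linarith) (by norm_num) (by norm_num)
  have hk := B.hk1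
  have hk' := B.P.hκ1
  have hD : DomR κ t' := dom7 B.P.κ0 (by linarith) (by linarith)
  have hy := b7_2_Do_y hD B.hk1 B.hk2 a1 a2
  have hJ : ‖HH β (sg κ t') - 1‖ ≤ 0.035 := JB7_k1b hD B.P.hβ (by linarith) B.P.hκ1 (by linarith) (by linarith) B.P.βκ B.P.βR
  have hd := Dlo7 hD (0.36 ^ 2) (0.48 ^ 2) 1.2128 0.163 0.255 0.163 0.7218 hy.1 hy.2 (pow_le_pow_left₀ (by norm_num) B.hk1 2) (pow_le_pow_left₀ B.P.κ0.le B.hk2 2)
      (by rw [show (-2 * 0.163 : ℝ) = -0.326 by norm_num]; exact expm_ge (by norm_num) (by norm_num) (by norm_num) (by norm_num)) (by norm_num) (by norm_num) (by norm_num) (by norm_num) (by norm_num)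
  have hc : sE κ t' ≤ 1 - 0.3754 * (t' + κ) ^ 2 / (1 + κ ^ 2) := VR7 0.65 0.3754 0.6731 0.9425 _ _ _ _ _ B hD a1 a2 (by norm_num) (by norm_num) (by norm_num) (by norm_num) rfl rfl (by norm_num) rfl rfl rfl (by norm_num) (by norm_num)
  exact up7 0 0.035 0.3754 1.2128 0.9863 0.913 0.1733 0.3216 0.3475 B (by norm_num) ht' hs hD (by norm_num) hJ hc hd (by norm_num) (by norm_num) (by norm_num) hY (by norm_num)
    (ch0 (a := 0) (by norm_num) (sqR h1 h3 (by norm_num)) (by norm_num) h1 h2 (by norm_num) (by norm_num)) (by norm_num)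
    (expn 1 0.1347 (by norm_num) (by norm_num) (by norm_num) (by norm_num)) (by norm_num) (by norm_num)

theorem b7_2_D2R {β r h κ T t s u Y : ℝ} (B : Bx 0.36 0.48 0.3902 0.3186 10 0.048 6.5481 β r h κ T) (hs : t + κ = s * h)
    (h1 : 0.75 ≤ u) (h2 : u ≤ 1.05) (h3 : u ≤ s) (h4 : s ≤ u + 0) (htp : t + 1 * h ≤ Real.pi / 2)
    (hY : eN r κ * (0.913 * Real.exp (-(T * (0.6058 * (1 - u) ^ 2)))) ≤ Y) :
    ‖Xf β r h t 2‖ ≤ 0.027947 * Y := by
  refine leE (cR7 1 0.34 0.2643 1.5707 1.8401 _ _ _ _ _ 0.0199 3.4344 0.665 0.266 1.2485 0.913 0.7715 0.006398 0.02407 0.0379 0.8668 0.9729 3.1623 0.0008511 0.003877 B (by norm_num) hs htp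
    (mlo7 B.P (x1 := 1.75) (by linarith) (by norm_num) (by norm_num)) (mhi7 B.P (x2 := 2.05) (by linarith) (by norm_num) (by norm_num)) hY (g0_nn (by norm_num))
    (g0_le (by norm_num) h1 h2 (by norm_num) (by norm_num)) (ch0 (a := 1) (by norm_num) (sqR h1 h3 (by norm_num)) (by norm_num) h1 h2 (by norm_num) (by norm_num))
    (by norm_num) (by norm_num) (by norm_num) (by norm_num) rfl rfl (by norm_num) rfl rfl rfl (by norm_num) (by norm_num) (by norm_num) (by norm_num) (by norm_num) (by norm_num) (by norm_num) (by norm_num) (by norm_num) (by norm_num) (by norm_num) (by norm_num) (by norm_num) (by norm_num) (by norm_num) (by norm_num) (by norm_num) (by norm_num) (by norm_num)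
    (expn 5 0.0518 (by norm_num) (by norm_num) (by norm_num) (by norm_num)) (by norm_num) (by norm_num) (by norm_num) (by norm_num) (by norm_num) (by norm_num) (by norm_num) (by norm_num) (expn 7 0.069 (by norm_num) (by norm_num) (by norm_num) (by norm_num)) (by norm_num) (by norm_num)) (by norm_num) hY (by norm_num)

theorem b7_2_D2 {β r h κ T t s u Y : ℝ} (B : Bx 0.36 0.48 0.3902 0.3186 10 0.048 6.5481 β r h κ T) (hs : t + κ = s * h)
    (h1 : 0.75 ≤ u) (h2 : u ≤ 1.05) (h3 : u ≤ s) (h4 : s ≤ u + 0)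
    (hY : eN r κ * (0.913 * Real.exp (-(T * (0.6058 * (1 - u) ^ 2)))) ≤ Y) :
    ‖Xf β r h t 2‖ ≤ 0.027947 * Y := by
  have hp : t + 1 * h ≤ Real.pi / 2 := by
    have e : t + 1 * h = (s + 1) * h - κ := by linear_combination hs
    have := mhi7 B.P (x := s + 1) (x2 := 2.05) (by linarith) (by norm_num) (le_refl _)
    have := B.hk1
    have := Real.pi_gt_d6
    rw [e]
    norm_num at *
    linarith
  exact leE (b7_2_D2R B hs h1 h2 h3 h4 hp hY) (by norm_num) hY (by norm_num)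

theorem b7_2_D3U {β r h κ T t s u Y : ℝ} (B : Bx 0.36 0.48 0.3902 0.3186 10 0.048 6.5481 β r h κ T) (hs : t + κ = s * h)
    (h1 : 0.75 ≤ u) (h2 : u ≤ 1.05) (h3 : u ≤ s) (h4 : s ≤ u + 0)(htp : Real.pi / 2 ≤ t + 2 * h)
    (hY : eN r κ * (0.913 * Real.exp (-(T * (0.6058 * (1 - u) ^ 2)))) ≤ Y) :
    ‖Xf β r h t (3)‖ ≤ 0.0007897 * Y := by
  refine cU7 0 (2) 1.5707 2.7377 0.03 0.665 0.03 2.6903 0.913 0.0379 0.8668 0.9729 3.1623 0.00008045 0.0007897 B (by norm_num) hs
    (half7 hs htp (by norm_num)) (mhi7 B.P (x2 := 3.05) (by push_cast; linarith) (by norm_num) (by norm_num)) hY (g0_nn (by norm_num)) (g0_le (by norm_num) h1 h2 (by norm_num) (by norm_num))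
    (by norm_num) (by norm_num) (by norm_num) (by norm_num) (by norm_num) (by norm_num) (by norm_num) (by norm_num) (by norm_num) (by norm_num) (by norm_num) (by norm_num) (by norm_num) (by norm_num) (by norm_num) (by norm_num) (by norm_num) (by norm_num) (by norm_num)
    (expn 9 0.429 (by norm_num) (by norm_num) (by norm_num) (by norm_num)) (by norm_num) (by norm_num)

theorem b7_2_D3 {β r h κ T t s u Y : ℝ} (B : Bx 0.36 0.48 0.3902 0.3186 10 0.048 6.5481 β r h κ T) (hs : t + κ = s * h)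
    (h1 : 0.75 ≤ u) (h2 : u ≤ 1.05) (h3 : u ≤ s) (h4 : s ≤ u + 0)
    (hY : eN r κ * (0.913 * Real.exp (-(T * (0.6058 * (1 - u) ^ 2)))) ≤ Y) :
    ‖Xf β r h t 3‖ ≤ 0.0007897 * Y := by
  have hp : Real.pi / 2 ≤ t + 2 * h := by
    have e : t + 2 * h = (s + 2) * h - κ := by linear_combination hs
    have := mlo7 B.P (x := s + 2) (x1 := 2.75) (by linarith) (by norm_num) (le_refl _)
    have := B.hk2
    have := Real.pi_lt_d6
    rw [e]
    norm_num at *
    linarith
  exact leE (b7_2_D3U B hs h1 h2 h3 h4 hp hY) (by norm_num) hY (by norm_num)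

theorem b7_2_Dm1 {β r h κ T t s u Y : ℝ} (B : Bx 0.36 0.48 0.3902 0.3186 10 0.048 6.5481 β r h κ T) (hs : t + κ = s * h)
    (h1 : 0.75 ≤ u) (h2 : u ≤ 1.05) (h3 : u ≤ s) (h4 : s ≤ u + 0)
    (hY : eN r κ * (0.913 * Real.exp (-(T * (0.6058 * (1 - u) ^ 2)))) ≤ Y) :
    ‖Xf β r h t (-1)‖ ≤ 0.129045 * Y := by
  refine leE (cL7 (-2) 0.9 0.5395 0.8527 1.122 _ _ _ _ _ 0.0532 2.6859 0.665 0.3202 1.1855 0.913 0.4853 0.04169 0.1227 0.0379 0.8668 0.9729 3.1623 0.001467 0.006345 B (by norm_num) hs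
    (mloN7 B.P (x1 := 0.95) (by linarith) (by norm_num) (by norm_num)) (mhiN7 B.P (x2 := 1.25) (by linarith) (by norm_num) (by norm_num)) hY (g0_nn (by norm_num))
    (g0_le (by norm_num) h1 h2 (by norm_num) (by norm_num)) (ch0 (a := (-2)) (by norm_num) (sqL h2 h4 (by norm_num) (by norm_num)) (by norm_num) h1 h2 (by norm_num) (by norm_num))
    (by norm_num) (by norm_num) (by norm_num) (by norm_num) rfl rfl (by norm_num) rfl rfl rfl (by norm_num) (by norm_num) (by norm_num) (by norm_num) (by norm_num) (by norm_num) (by norm_num) (by norm_num) (by norm_num) (by norm_num) (by norm_num) (by norm_num) (by norm_num) (by norm_num) (by norm_num) (by norm_num) (by norm_num) (by norm_num)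
    (expn 3 0.1777 (by norm_num) (by norm_num) (by norm_num) (by norm_num)) (by norm_num) (by norm_num) (by norm_num) (by norm_num) (by norm_num) (by norm_num) (by norm_num) (by norm_num) (expn 6 0.527 (by norm_num) (by norm_num) (by norm_num) (by norm_num)) (by norm_num) (by norm_num)) (by norm_num) hY (by norm_num)

theorem b7_2_Dm2 {β r h κ T t s u Y : ℝ} (B : Bx 0.36 0.48 0.3902 0.3186 10 0.048 6.5481 β r h κ T) (hs : t + κ = s * h)
    (h1 : 0.75 ≤ u) (h2 : u ≤ 1.05) (h3 : u ≤ s) (h4 : s ≤ u + 0)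
    (hY : eN r κ * (0.913 * Real.exp (-(T * (0.6058 * (1 - u) ^ 2)))) ≤ Y) :
    ‖Xf β r h t (-2)‖ ≤ 0.00032328 * Y := by
  refine leE (cL7 (-3) 0.62 0.4575 1.7503 2.0196 _ _ _ _ _ 0.0114 3.9476 0.665 0 1.2525 0.913 1.7381 0.00001142 0.00004938 0.0379 0.8668 0.9729 3.1623 0.00005993 0.0002739 B (by norm_num) hs
    (mloN7 B.P (x1 := 1.95) (by linarith) (by norm_num) (by norm_num)) (mhiN7 B.P (x2 := 2.25) (by linarith) (by norm_num) (by norm_num)) hY (g0_nn (by norm_num))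
    (g0_le (by norm_num) h1 h2 (by norm_num) (by norm_num)) (ch0 (a := (-3)) (by norm_num) (sqL h2 h4 (by norm_num) (by norm_num)) (by norm_num) h1 h2 (by norm_num) (by norm_num))
    (by norm_num) (by norm_num) (by norm_num) (by norm_num) rfl rfl (by norm_num) rfl rfl rfl (by norm_num) (by norm_num) (by norm_num) (by norm_num) (by norm_num) (by norm_num) (by norm_num) (by norm_num) (by norm_num) (by norm_num) (by norm_num) (by norm_num) (by norm_num) (by norm_num) (by norm_num) (by norm_num) (by norm_num) (by norm_num)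
    (expn 11 0.3812 (by norm_num) (by norm_num) (by norm_num) (by norm_num)) (by norm_num) (by norm_num) (by norm_num) (by norm_num) (by norm_num) (by norm_num) (by norm_num) (by norm_num) (expn 9 0.729 (by norm_num) (by norm_num) (by norm_num) (by norm_num)) (by norm_num) (by norm_num)) (by norm_num) hY (by norm_num)

theorem b7_2_Dm3 {β r h κ T t s u Y : ℝ} (B : Bx 0.36 0.48 0.3902 0.3186 10 0.048 6.5481 β r h κ T) (hs : t + κ = s * h)
    (h1 : 0.75 ≤ u) (h2 : u ≤ 1.05) (h3 : u ≤ s) (h4 : s ≤ u + 0)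
    (hY : eN r κ * (0.913 * Real.exp (-(T * (0.6058 * (1 - u) ^ 2)))) ≤ Y) :
    ‖Xf β r h t (-3)‖ ≤ 0.000436 * Y := by
  refine cU7 1 (-4) 2.8859 3.6353 0.02 0.665 0.02 1.64 0.913 0.0379 0.8668 0.9729 3.1623 0.00007287 0.000436 B (by norm_num) hs
    (full7 B.P B.hk2 (x1 := 3.75) (by push_cast; linarith) (by norm_num) (by norm_num)) (mhi7 B.P (x2 := 4.05) (by push_cast; linarith) (by norm_num) (by norm_num)) hY (g0_nn (by norm_num)) (g0_le (by norm_num) h1 h2 (by norm_num) (by norm_num))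
    (by norm_num) (by norm_num) (by norm_num) (by norm_num) (by norm_num) (by norm_num) (by norm_num) (by norm_num) (by norm_num) (by norm_num) (by norm_num) (by norm_num) (by norm_num) (by norm_num) (by norm_num) (by norm_num) (by norm_num) (by norm_num) (by norm_num)
    (expn 9 0.529 (by norm_num) (by norm_num) (by norm_num) (by norm_num)) (by norm_num) (by norm_num)

private theorem b7_2_yS1 {κ t : ℝ} (h : DomR κ t) (hk1 : 0.36 ≤ κ) (hk2 : κ ≤ 0.48) (ht1 : 0.3859 ≤ t + κ) (ht2 : t + κ ≤ 0.5296) :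
    0.105 ≤ sy κ t ∧ sy κ t ≤ 0.167 := by
  have hy1 : 0.105 ≤ sy κ t := syR_ge h 0.36 0.48 0.3859 0.105 1.11071 1.11072 0.24296 0.32397 hk1 hk2 (by linarith) (by norm_num) (by norm_num)
    (expn_ge (by norm_num) (by norm_num)) (expn_le (by norm_num) (by norm_num) (by norm_num)) (by norm_num)
    (by norm_num) (by norm_num) (by norm_num) (by norm_num) (by norm_num) (by norm_num)
  have hy2 : sy κ t ≤ 0.167 := syR_le h 0.36 0.48 0.5296 0.167 1.18175 0.3883 0.41115 0.54821 hk1 hk2 (by linarith) (by norm_num) (by norm_num)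
    (expn_ge (by norm_num) (by norm_num)) (by norm_num) (by norm_num) (Or.inr ((mul_le_mul_of_nonneg_left (expn_le (E := 1.18176) (by norm_num) (by norm_num) (by norm_num)) (by norm_num)).trans (by norm_num))) (by norm_num) (by norm_num) (by norm_num)
  exact ⟨by linarith, by linarith⟩

private theorem b7_2_yS0 {κ t : ℝ} (h : DomR κ t) (hk1 : 0.36 ≤ κ) (hk2 : κ ≤ 0.48) (ht1 : (-0.5117) ≤ t + κ) (ht2 : t + κ ≤ (-0.368)) :
    (-0.259) ≤ sy κ t ∧ sy κ t ≤ (-0.136) := by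
  have hy1 : -0.259 ≤ sy κ t := syL_ge h 0.36 0.48 0.5117 0.259 0.77182 0.77183 0.4048 0.41646 0.55529 hk1 hk2 (by linarith) (by norm_num) (by norm_num) (by norm_num)
    (expm_ge (by norm_num) (by norm_num) (by norm_num) (by norm_num)) (expm_le (by norm_num) (by norm_num) (by norm_num)) (by norm_num)
    (by norm_num) (by norm_num) (by norm_num) (by norm_num) (by norm_num) (by norm_num)
  have hy2 : sy κ t ≤ -0.136 := syL_le h 0.36 0.48 0.368 0.136 0.87284 0.87285 0.2473 0.32975 hk1 hk2 (by linarith) (by norm_num) (by norm_num) (by norm_num)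
    (expm_ge (by norm_num) (by norm_num) (by norm_num) (by norm_num)) (expm_le (by norm_num) (by norm_num) (by norm_num)) (by norm_num)
    (by norm_num) (by norm_num) (by norm_num) (by norm_num) (by norm_num) (by norm_num)
  exact ⟨by linarith, by linarith⟩

theorem b7_2_S {β r h κ T t s : ℝ} (B : Bx 0.36 0.48 0.3902 0.3186 10 0.048 6.5481 β r h κ T) (hs : t + κ = s * h)
    (h1 : 0.43 ≤ s) (h2 : s ≤ 0.59) :
    ‖Ld β r h t 0‖ ≤ r * 1.29564 + 0.7339 ∧ ‖Ld β r h t 1‖ ≤ r * 0.90033 + 0.2631 ∧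
      T * 0.9332 - (0.1016 + 0.3349 + 0 + 0.5533) ≤ (Ld β r h t 1 - Ld β r h t 0).im := by
  have a1 : 0.3859 ≤ t + κ := by rw [hs]; exact mlo7 B.P h1 (by norm_num) (by norm_num)
  have a2 : t + κ ≤ 0.5296 := by rw [hs]; exact mhi7 B.P h2 (by norm_num) (by norm_num)
  have hτ : t - h + κ = (s + (-1)) * h := by linear_combination hs
  have b1 : (-0.5117) ≤ t - h + κ := by rw [hτ]; have := mhiN7 B.P (x := s + (-1)) (x2 := 0.57) (τ2 := 0.5117) (by linarith) (by norm_num) (by norm_num); linarith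
  have b2 : t - h + κ ≤ (-0.368) := by rw [hτ]; have := mloN7 B.P (x := s + (-1)) (x1 := 0.41) (τ1 := 0.368) (by linarith) (by norm_num) (by norm_num); linarith
  have hk := B.hk1
  have hk2 := B.hk2
  have hk' := B.P.hκ1
  have hD1 : DomR κ t := dom7 B.P.κ0 (by linarith) (by linarith)
  have hD0 : DomR κ (t - h) := dom7 B.P.κ0 (by linarith) (by linarith)
  have hy1 := b7_2_yS1 hD1 B.hk1 B.hk2 a1 a2
  have hy0 := b7_2_yS0 hD0 B.hk1 B.hk2 b1 b2
  have hd1 := Dlo7 hD1 (0.36 ^ 2) (0.48 ^ 2) 1.1352 0.105 0.167 0.105 0.81058 hy1.1 hy1.2 (pow_le_pow_left₀ (by norm_num) B.hk1 2) (pow_le_pow_left₀ B.P.κ0.le B.hk2 2)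
      (by rw [show (-2 * 0.105 : ℝ) = -0.21 by norm_num]; exact expm_ge (by norm_num) (by norm_num) (by norm_num) (by norm_num)) (by norm_num) (by norm_num) (by norm_num) (by norm_num) (by norm_num)
  have hd0 := Dlo7 hD0 (0.36 ^ 2) (0.48 ^ 2) 0.6192 (-0.259) (-0.136) (-0.259) 1.67866 hy0.1 hy0.2 (pow_le_pow_left₀ (by norm_num) B.hk1 2) (pow_le_pow_left₀ B.P.κ0.le B.hk2 2)
      (by rw [show (-2 * (-0.259) : ℝ) = 0.518 by norm_num]; exact expn_ge (by norm_num) (by norm_num)) (by norm_num) (by norm_num) (by norm_num) (by norm_num) (by norm_num)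
  have hJ1 := T7S1b hD1 B.P.hβ (by linarith) (by linarith) (by linarith) (by linarith) B.P.βκ B.P.βR
  have hJ0 := T7S0_2 hD0 B.P.hβ (by linarith) (by linarith) (by linarith) (by linarith) B.P.βκ B.P.βR
  obtain ⟨m1, n1⟩ := copy7 (t := t) (t' := t) (k := 1) 0.36 0.48 1.1352 0.105 0.90033 0.8106 0.3657 0.8831 0.04 0.15 0.1016 0.2631 B.P (by push_cast; ring) hD1 B.hk1 B.hk2 (by norm_num) (by norm_num) (by norm_num) (by norm_num) hJ1
    hy1.1 (by norm_num) hd1 (by norm_num) (expm_le (by norm_num) (by norm_num) (by norm_num)) (by norm_num) (by norm_num) (by norm_num) (by norm_num) (by norm_num) (by norm_num) (by norm_num) (by norm_num)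
  obtain ⟨m0, n0⟩ := copy7 (t := t) (t' := t - h) (k := 0) 0.36 0.48 0.6192 (-0.259) 1.29564 1.6787 0.6673 1.1957 0.07 0.15 0.3349 0.7339 B.P (by push_cast; ring) hD0 B.hk1 B.hk2 (by norm_num) (by norm_num) (by norm_num) (by norm_num) hJ0
    hy0.1 (by norm_num) hd0 (by norm_num) (by rw [neg_neg]; exact expn_le (by norm_num) (by norm_num) (by norm_num)) (by norm_num) (by norm_num) (by norm_num) (by norm_num) (by norm_num) (by norm_num) (by norm_num) (by norm_num)
  refine ⟨m0, m1, ?_⟩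
  have q1 := corr1_ge hD1 0.36 0.48 1.1352 0 B.hk1 B.hk2 (by norm_num) (by linarith) hd1 (by norm_num) (by norm_num) (Or.inl (by norm_num))
  have q0 := corr0_le hD0 0.36 0.48 0.6192 1.29564 0.5533 B.hk1 B.hk2 (by norm_num) (by linarith) hd0 (by norm_num) (by norm_num)
    ((Real.exp_le_exp.2 (by linarith)).trans (show Real.exp (-(-0.259)) ≤ 1.29564 from (by rw [neg_neg]; exact expn_le (by norm_num) (by norm_num) (by norm_num)))) (Or.inr (by norm_num))
  exact slope7 0.77 0.935 0.9332 0.43 0.59 0.1016 0.3349 0 0.5533 B.P hs h1 h2 (pR_060 hD1 (by linarith) (by linarith) (by linarith)) (pL_060 hD0 hk' (by linarith) (by linarith)) n1 n0 q1 q0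
    (by norm_num) (by norm_num) (by norm_num)

theorem boxb7_2 {p : ℤ} (hp : IsCoprime (7 : ℤ) p) {β r h κ T : ℝ} (P : Q7 β r h κ T) (hk1 : 0.36 ≤ κ) (hk2 : κ ≤ 0.48) :
    Circ (2 * Real.pi * p / (7 : ℕ) + β) r := by
  have B : Bx 0.36 0.48 0.3902 0.3186 10 0.048 6.5481 β r h κ T :=
    { P := P, hk1 := hk1, hk2 := hk2, hψ := (psi_lo P.κ0.le hk2 (by norm_num)).trans (by norm_num), hψ1 := le_trans (by norm_num) (psi1_lo (k1 := 0.36) (by norm_num) hk1 (by linarith)), hR0 := P.hr.trans' (by norm_num), hβ0 := by have := P.βκ; linarith, hT0 := P.T8 hk2 (by norm_num) (by norm_num) }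
  have hT := B.hT0
  have hr := P.r_le (ν := 1.5272) hk2 (by norm_num)
  refine fin7 hp P (slo := 0.43) (shi := 0.59) (bb := 0.0826) (ℓ1 := 0.9149) (ℓ0 := 0.913) (C0 := 0.6058) (e2 := 0.02576) (e3 := 0.002082) (f1 := 0.0061314) (g1 := 0.015011) (f2 := 0.001348) (f3 := 0.001359)
    (a := 1.06) (m := T * 0.9332 - (0.9898)) (η := 0.0367) (Λ0 := r * 1.29564 + 0.7339) (Λ1 := r * 0.90033 + 0.2631) (S1 := 0.0965)
    (by norm_num) (by norm_num) (by linarith) (by norm_num) (by norm_num) (by norm_num) (by norm_num)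
    ?_ ?_ ?_ ?_ ?_ ?_ ?_ ?_ ?_ ?_ ?_ ?_ ?_ (by norm_num) (by norm_num) (by norm_num) ?_
  · intro t s hs h1 h2
    exact b7_2_L1 B hs (by linarith) h2
  · intro t s hs h1 h2
    exact b7_2_L0 B hs h1 (by linarith)
  · intro t s u Y hs h1 h2 h3 h4 hY
    have hY' : eN r κ * (0.9149 * Real.exp (-(T * (1 / 2 * u ^ 2)))) ≤ Y := hY
    rcases le_total u 0.475 with hc | hc
    · exact leE (b7_2_W2a B hs h1 hc h3 h4 hY') (by norm_num) hY' (by norm_num)
    · exact leE (b7_2_W2b B hs hc h2 h3 h4 hY') (by norm_num) hY' (by norm_num)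
  · intro t s u Y hs h1 h2 h3 h4 hY
    exact b7_2_W3 B hs h1 h2 h3 h4 hY
  · intro t s u Y hs h1 h2 h3 h4 hY
    exact b7_2_Wm1 B hs h1 h2 h3 h4 hY
  · intro t s u Y hs h1 h2 h3 h4 hY
    exact b7_2_Wm1p B hs h1 h2 h3 h4 hY
  · intro t s u Y hs h1 h2 h3 h4 hY
    exact b7_2_Wm2 B hs h1 h2 h3 h4 hY
  · intro t s u Y hs h1 h2 h3 h4 hY
    exact b7_2_Wm3 B hs h1 h2 h3 h4 hY
  · intro t s hs h1 h2
    have hY := b7_2_L1 B hs (by linarith) (by linarith)
    have hYp := lt_of_lt_of_le (mul_pos (eN_pos r κ) (mul_pos (by norm_num : (0 : ℝ) < 0.9149) (Real.exp_pos _))) hY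
    rcases le_total s 0.36 with hc | hc
    · have x0 := b7_2_Ao B hs h1 hc le_rfl (by linarith) hY
      have x2 := b7_2_A2 B hs h1 hc le_rfl (by linarith) hY
      have x3 := b7_2_A3 B hs h1 hc le_rfl (by linarith) hY
      have xm1 := b7_2_Am1 B hs h1 hc le_rfl (by linarith) hY
      have xm2 := b7_2_Am2 B hs h1 hc le_rfl (by linarith) hY
      have xm3 := b7_2_Am3 B hs h1 hc le_rfl (by linarith) hY
      linarith
    · have x0 := b7_2_Bo B hs hc h2 le_rfl (by linarith) hY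
      have x2 := b7_2_B2 B hs hc h2 le_rfl (by linarith) hY
      have x3 := b7_2_B3 B hs hc h2 le_rfl (by linarith) hY
      have xm1 := b7_2_Bm1 B hs hc h2 le_rfl (by linarith) hY
      have xm2 := b7_2_Bm2 B hs hc h2 le_rfl (by linarith) hY
      have xm3 := b7_2_Bm3 B hs hc h2 le_rfl (by linarith) hY
      linarith
  · intro t s hs h1 h2
    have hY := b7_2_L0 B hs (by linarith) (by linarith)
    have hYp := lt_of_lt_of_le (mul_pos (eN_pos r κ) (mul_pos (by norm_num : (0 : ℝ) < 0.913) (Real.exp_pos _))) hY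
    rcases le_total s 0.75 with hc | hc
    · have x0 := b7_2_Co B hs h1 hc le_rfl (by linarith) hY
      have x2 := b7_2_C2 B hs h1 hc le_rfl (by linarith) hY
      have x3 := b7_2_C3 B hs h1 hc le_rfl (by linarith) hY
      have xm1 := b7_2_Cm1 B hs h1 hc le_rfl (by linarith) hY
      have xm2 := b7_2_Cm2 B hs h1 hc le_rfl (by linarith) hY
      have xm3 := b7_2_Cm3 B hs h1 hc le_rfl (by linarith) hY
      linarith
    · have x0 := b7_2_Do B hs hc h2 le_rfl (by linarith) hY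
      have x2 := b7_2_D2 B hs hc h2 le_rfl (by linarith) hY
      have x3 := b7_2_D3 B hs hc h2 le_rfl (by linarith) hY
      have xm1 := b7_2_Dm1 B hs hc h2 le_rfl (by linarith) hY
      have xm2 := b7_2_Dm2 B hs hc h2 le_rfl (by linarith) hY
      have xm3 := b7_2_Dm3 B hs hc h2 le_rfl (by linarith) hY
      linarith
  · intro t s hs h1 h2
    exact (b7_2_S B hs h1 h2).1
  · intro t s hs h1 h2
    exact (b7_2_S B hs h1 h2).2.1
  · intro t s hs h1 h2
    have := (b7_2_S B hs h1 h2).2.2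
    linarith
  · linarith

end Sok
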