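import Pool.Agent.Lib.MP_816dec_an.R1b7C
import Pool.Agent.Lib.MP_816dec_an.JB7a
import Pool.Agent.Lib.MP_816dec_an.JB7b
import Pool.Agent.Lib.MP_816dec_an.T7S0a
import Pool.Agent.Lib.MP_816dec_an.T7S1b

/-!
MP_816dec_an (A3, row R1), b = 7: box 3
-/

set_option autoImplicit false
set_option maxHeartbeats 4000000

open Complex Set Filter Topology Metric

namespace Sok

private theorem b7_3_yL1 {κ t : ℝ} (h : DomR κ t) (hk1 : 0.48 ≤ κ) (hk2 : κ ≤ 0.58) (ht1 : 0 ≤ t + κ) (ht2 : t + κ ≤ 0.5296) :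
    0 ≤ sy κ t ∧ sy κ t ≤ 0.186 := by
  have hy1 : 0 ≤ sy κ t := sy_nonneg h (by linarith)
  have hy2 : sy κ t ≤ 0.186 := syR_le h 0.48 0.58 0.5296 0.186 1.20442 0.3661 0.38624 0.46672 hk1 hk2 (by linarith) (by norm_num) (by norm_num)
    (expn_ge (by norm_num) (by norm_num)) (by norm_num) (by norm_num) (Or.inr ((mul_le_mul_of_nonneg_left (expn_le (E := 1.20443) (by norm_num) (by norm_num) (by norm_num)) (by norm_num)).trans (by norm_num))) (by norm_num) (by norm_num) (by norm_num)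
  exact ⟨by linarith, by linarith⟩

theorem b7_3_L1 {β r h κ T t s : ℝ} (B : Bx 0.48 0.58 0.4341 0.3901 10 0.058 6.0287 β r h κ T) (hs : t + κ = s * h)
    (h1 : 0.05 ≤ s) (h2 : s ≤ 0.59) :
    eN r κ * (0.9184 * Real.exp (-(T * (1 / 2 * s ^ 2)))) ≤ ‖Xf β r h t 1‖ := by
  have a1 : 0.0448 ≤ t + κ := by rw [hs]; exact mlo7 B.P h1 (by norm_num) (by norm_num)
  have a2 : t + κ ≤ 0.5296 := by rw [hs]; exact mhi7 B.P h2 (by norm_num) (by norm_num)
  have hk := B.hk1
  have hD : DomR κ t := dom7 B.P.κ0 (by linarith) (by linarith)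
  have hy := b7_3_yL1 hD B.hk1 B.hk2 (by linarith) a2
  have hJ := JB7_k1a hD B.P.hβ (by linarith) B.P.hκ1 (by linarith) (by linarith) B.P.βκ B.P.βR
  have hd := Dup7 hD (0.48 ^ 2) (0.58 ^ 2) 1.2442 0 0.186 1 0.68936 hy.1 hy.2 (pow_le_pow_left₀ (by norm_num) B.hk1 2) (pow_le_pow_left₀ B.P.κ0.le B.hk2 2)
      (by norm_num)
      (by rw [show (-2 * 0.186 : ℝ) = -0.372 by norm_num]; exact expm_le (by norm_num) (by norm_num) (by norm_num)) (by norm_num) (by norm_num) (by norm_num) (by norm_num)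
  have := loR7 (k := 1) 0 0.03 1.2442 0.9184 B.P (by norm_num) (by ring : t = t + 0 * h) hs (by linarith) hD (by norm_num) hJ hd (by norm_num) (by norm_num)
  rw [add_zero] at this
  exact this

private theorem b7_3_yL0 {κ t : ℝ} (h : DomR κ t) (hk1 : 0.48 ≤ κ) (hk2 : κ ≤ 0.58) (ht1 : (-0.5117) ≤ t + κ) (ht2 : t + κ ≤ 0) :
    (-0.284) ≤ sy κ t ∧ sy κ t ≤ 0 := by
  have hy1 : -0.284 ≤ sy κ t := syL_ge h 0.48 0.58 0.5117 0.284 0.75276 0.75277 0.3557 0.36859 0.44539 hk1 hk2 (by linarith) (by norm_num) (by norm_num) (by norm_num)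
    (expm_ge (by norm_num) (by norm_num) (by norm_num) (by norm_num)) (expm_le (by norm_num) (by norm_num) (by norm_num)) (by norm_num)
    (by norm_num) (by norm_num) (by norm_num) (by norm_num) (by norm_num) (by norm_num)
  have hy2 : sy κ t ≤ 0 := sy_nonpos h (by linarith)
  exact ⟨by linarith, by linarith⟩

private theorem b7_3_yL00 {κ t : ℝ} (h : DomR κ t) (hk1 : 0.48 ≤ κ) (hk2 : κ ≤ 0.58) (ht1 : 0 ≤ t + κ) (ht2 : t + κ ≤ 0.05) :
    0 ≤ sy κ t ∧ sy κ t ≤ 0.022 := by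
  have hy1 : 0 ≤ sy κ t := sy_nonneg h (by linarith)
  have hy2 : sy κ t ≤ 0.022 := syR_le h 0.48 0.58 0.05 0.022 1.02224 0.0367 0.03877 0.04686 hk1 hk2 (by linarith) (by norm_num) (by norm_num)
    (expn_ge (by norm_num) (by norm_num)) (by norm_num) (by norm_num) (Or.inr ((mul_le_mul_of_nonneg_left (expn_le (E := 1.02225) (by norm_num) (by norm_num) (by norm_num)) (by norm_num)).trans (by norm_num))) (by norm_num) (by norm_num) (by norm_num)
  exact ⟨by linarith, by linarith⟩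

theorem b7_3_L0 {β r h κ T t s : ℝ} (B : Bx 0.48 0.58 0.4341 0.3901 10 0.058 6.0287 β r h κ T) (hs : t + κ = s * h)
    (h1 : 0.43 ≤ s) (h2 : s ≤ 1.05) :
    eN r κ * (0.9137 * Real.exp (-(T * (0.6006 * (1 - s) ^ 2)))) ≤ ‖Xf β r h t 0‖ := by
  obtain ⟨t', ht'⟩ : ∃ t', t' = t + (-1) * h := ⟨_, rfl⟩
  have hτ : t' + κ = (s + (-1)) * h := by rw [ht']; linear_combination hs
  have e : 0.6006 * (1 - s) ^ 2 = 0.6006 * (s + (-1)) ^ 2 := by ring
  rw [e]
  have b1 : -((s + (-1)) * h) ≤ 0.5117 := mhiN7 B.P (x2 := 0.57) (by linarith) (by norm_num) (by norm_num)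
  have b2 : (s + (-1)) * h ≤ 0.05 := mhi7 B.P (x2 := 0.05) (by linarith) (by norm_num) (by norm_num)
  have hk := B.hk1
  have hk' := B.P.hκ1
  rw [← hτ] at b1 b2
  have hD : DomR κ t' := dom7 B.P.κ0 (by linarith) (by linarith)
  have hJ := JB7_k0a hD B.P.hβ (by linarith) B.P.hκ1 (by linarith) (by linarith) B.P.βκ B.P.βR
  rcases le_total s 1 with hc | hc
  · have b3 : t' + κ ≤ 0 := by rw [hτ]; exact mul_nonpos_of_nonpos_of_nonneg (by linarith) B.P.h0.le
    have hy := b7_3_yL0 hD B.hk1 B.hk2 (by linarith) b3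
    have hd := Dup7 hD (0.48 ^ 2) (0.58 ^ 2) 1.0278 (-0.284) 0 1.76474 1 hy.1 hy.2 (pow_le_pow_left₀ (by norm_num) B.hk1 2) (pow_le_pow_left₀ B.P.κ0.le B.hk2 2)
      (by rw [show (-2 * (-0.284) : ℝ) = 0.568 by norm_num]; exact expn_le (by norm_num) (by norm_num) (by norm_num))
      (by norm_num) (by norm_num) (by norm_num) (by norm_num) (by norm_num)
    exact loLB7 (k := 0) (-1) 0.08 1.0278 0.9137 0.6006 0.5117 0.3752 0.2518 0.5369 B (by norm_num) ht' hs (by linarith) (by rw [← hτ]; exact b1) hD (by norm_num) hJ hd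
      (by norm_num) (by norm_num) (by norm_num) (by norm_num) (by norm_num) (by norm_num) (by norm_num) (by norm_num) (by norm_num) (by norm_num) (by norm_num) (by norm_num) (by norm_num)
  · have b3 : 0 ≤ t' + κ := by rw [hτ]; exact mul_nonneg (by linarith) B.P.h0.le
    have hy := b7_3_yL00 hD B.hk1 B.hk2 b3 b2
    have hd := Dup7 hD (0.48 ^ 2) (0.58 ^ 2) 1.0278 0 0.022 1 0.95696 hy.1 hy.2 (pow_le_pow_left₀ (by norm_num) B.hk1 2) (pow_le_pow_left₀ B.P.κ0.le B.hk2 2)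
      (by norm_num)
      (by rw [show (-2 * 0.022 : ℝ) = -0.044 by norm_num]; exact expm_le (by norm_num) (by norm_num) (by norm_num)) (by norm_num) (by norm_num) (by norm_num) (by norm_num)
    have := loR7 (k := 0) (-1) 0.08 1.0278 0.9137 B.P (by norm_num) ht' hs (by linarith) hD (by norm_num) hJ hd (by norm_num) (by norm_num)
    exact le_trans (weak7 (by have := B.P.T5; linarith) (by norm_num) (by norm_num)) this

private theorem b7_3_W2a_y {κ t : ℝ} (h : DomR κ t) (hk1 : 0.48 ≤ κ) (hk2 : κ ≤ 0.58) (ht1 : 1.2835 ≤ t + κ) (ht2 : t + κ ≤ 1.3981) :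
    0.287 ≤ sy κ t ∧ sy κ t ≤ 0.358 := by
  have hy1 : 0.287 ≤ sy κ t := syR_ge h 0.48 0.58 1.2835 0.287 1.33242 1.33243 0.65931 0.79669 hk1 hk2 (by linarith) (by norm_num) (by norm_num)
    (expn_ge (by norm_num) (by norm_num)) (expn_le (by norm_num) (by norm_num) (by norm_num)) (by norm_num)
    (by norm_num) (by norm_num) (by norm_num) (by norm_num) (by norm_num) (by norm_num)
  have hy2 : sy κ t ≤ 0.358 := syR_ang2 h 0.48 0.58 1.3981 1.081 0.4727 0.8828 0.358 0.69908 1.43046 hk1 hk2 (by linarith) (by norm_num) (by norm_num) (by norm_num)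
    (cos_le_num (by norm_num)) (sin_le_num (by norm_num) (by norm_num)) (expm_le (by norm_num) (by norm_num) (by norm_num))
    (expn_ge (by norm_num) (by norm_num)) (by norm_num) (by norm_num) (by norm_num) (by norm_num) (by norm_num)
  exact ⟨by linarith, by linarith⟩

theorem b7_3_W2a {β r h κ T t s u Y : ℝ} (B : Bx 0.48 0.58 0.4341 0.3901 10 0.058 6.0287 β r h κ T) (hs : t + κ = s * h)
    (h1 : 0.43 ≤ u) (h2 : u ≤ 0.475) (h3 : u ≤ s) (h4 : s ≤ u + 0.0826)
    (hY : eN r κ * (0.9184 * Real.exp (-(T * (1 / 2 * u ^ 2)))) ≤ Y) :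
    ‖Xf β r h t 2‖ ≤ 0.03101 * Y := by
  obtain ⟨t', ht'⟩ : ∃ t', t' = t + 1 * h := ⟨_, rfl⟩
  have hτ : t' + κ = (s + 1) * h := by rw [ht']; linear_combination hs
  have a1 : 1.2835 ≤ t' + κ := by rw [hτ]; exact mlo7 B.P (x1 := 1.43) (by linarith) (by norm_num) (by norm_num)
  have a2 : t' + κ ≤ 1.3981 := by rw [hτ]; exact mhi7 B.P (x2 := 1.5576) (by linarith) (by norm_num) (by norm_num)
  have hk := B.hk1
  have hk' := B.P.hκ1
  have hD : DomR κ t' := dom7 B.P.κ0 (by linarith) (by linarith)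
  have hy := b7_3_W2a_y hD B.hk1 B.hk2 a1 a2
  have hJ : ‖HH β (sg κ t') - 1‖ ≤ 0.06 := JB7_k2a hD B.P.hβ (by linarith) B.P.hκ1 (by linarith) (by linarith) B.P.βκ B.P.βR
  have hd := Dlo7 hD (0.48 ^ 2) (0.58 ^ 2) 1.3195 0.287 0.358 0.287 0.56326 hy.1 hy.2 (pow_le_pow_left₀ (by norm_num) B.hk1 2) (pow_le_pow_left₀ B.P.κ0.le B.hk2 2)
      (by rw [show (-2 * 0.287 : ℝ) = -0.574 by norm_num]; exact expm_ge (by norm_num) (by norm_num) (by norm_num) (by norm_num)) (by norm_num) (by norm_num) (by norm_num) (by norm_num) (by norm_num)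
  have hc : sE κ t' ≤ 1 - 0.3332 * (t' + κ) ^ 2 / (1 + κ ^ 2) := VR7 0.54 0.3332 1.2835 1.3981 _ _ _ _ _ B hD a1 a2 (by norm_num) (by norm_num) (by norm_num) (by norm_num) rfl rfl (by norm_num) rfl rfl rfl (by norm_num) (by norm_num)
  exact up7 1 0.06 0.3332 1.3195 0.9891 0.9184 0.5889 0.02879 0.03101 B (by norm_num) ht' hs hD (by norm_num) hJ hc hd (by norm_num) (by norm_num) (by norm_num) hY (by norm_num)
    (ch1 (a := 1) (by norm_num) (sqR h1 h3 (by norm_num)) (by norm_num) h1 h2 (by norm_num) (by norm_num)) (by norm_num)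
    (expn 3 0.5503 (by norm_num) (by norm_num) (by norm_num) (by norm_num)) (by norm_num) (by norm_num)

private theorem b7_3_W2b_y {κ t : ℝ} (h : DomR κ t) (hk1 : 0.48 ≤ κ) (hk2 : κ ≤ 0.58) (ht1 : 1.3239 ≤ t + κ) (ht2 : t + κ ≤ 1.5014) :
    0.287 ≤ sy κ t ∧ sy κ t ≤ 0.368 := by
  have hy1 : 0.287 ≤ sy κ t := syR_ge h 0.48 0.58 1.3239 0.287 1.33242 1.33243 0.65931 0.79669 hk1 hk2 (by linarith) (by norm_num) (by norm_num)
    (expn_ge (by norm_num) (by norm_num)) (expn_le (by norm_num) (by norm_num) (by norm_num)) (by norm_num)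
    (by norm_num) (by norm_num) (by norm_num) (by norm_num) (by norm_num) (by norm_num)
  have hy2 : sy κ t ≤ 0.368 := syR_ang2 h 0.48 0.58 1.5014 1.158 0.4045 0.9166 0.368 0.69212 1.44484 hk1 hk2 (by linarith) (by norm_num) (by norm_num) (by norm_num)
    (cos_le_num (by norm_num)) (sin_le_num (by norm_num) (by norm_num)) (expm_le (by norm_num) (by norm_num) (by norm_num))
    (expn_ge (by norm_num) (by norm_num)) (by norm_num) (by norm_num) (by norm_num) (by norm_num) (by norm_num)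
  exact ⟨by linarith, by linarith⟩

theorem b7_3_W2b {β r h κ T t s u Y : ℝ} (B : Bx 0.48 0.58 0.4341 0.3901 10 0.058 6.0287 β r h κ T) (hs : t + κ = s * h)
    (h1 : 0.475 ≤ u) (h2 : u ≤ 0.59) (h3 : u ≤ s) (h4 : s ≤ u + 0.0826)
    (hY : eN r κ * (0.9184 * Real.exp (-(T * (1 / 2 * u ^ 2)))) ≤ Y) :
    ‖Xf β r h t 2‖ ≤ 0.03298 * Y := by
  obtain ⟨t', ht'⟩ : ∃ t', t' = t + 1 * h := ⟨_, rfl⟩
  have hτ : t' + κ = (s + 1) * h := by rw [ht']; linear_combination hs
  have a1 : 1.3239 ≤ t' + κ := by rw [hτ]; exact mlo7 B.P (x1 := 1.475) (by linarith) (by norm_num) (by norm_num)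
  have a2 : t' + κ ≤ 1.5014 := by rw [hτ]; exact mhi7 B.P (x2 := 1.6726) (by linarith) (by norm_num) (by norm_num)
  have hk := B.hk1
  have hk' := B.P.hκ1
  have hD : DomR κ t' := dom7 B.P.κ0 (by linarith) (by linarith)
  have hy := b7_3_W2b_y hD B.hk1 B.hk2 a1 a2
  have hJ : ‖HH β (sg κ t') - 1‖ ≤ 0.15 := by
    rcases le_total (t' + κ) 1.39 with hc | hc
    · exact (JB7_k2a hD B.P.hβ (by linarith) B.P.hκ1 (by linarith) (by linarith) B.P.βκ B.P.βR).trans (by norm_num)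
    · exact JB7_k2b hD B.P.hβ (by linarith) B.P.hκ1 (by linarith) (by linarith) B.P.βκ B.P.βR
  have hd := Dlo7 hD (0.48 ^ 2) (0.58 ^ 2) 1.3195 0.287 0.368 0.287 0.56326 hy.1 hy.2 (pow_le_pow_left₀ (by norm_num) B.hk1 2) (pow_le_pow_left₀ B.P.κ0.le B.hk2 2)
      (by rw [show (-2 * 0.287 : ℝ) = -0.574 by norm_num]; exact expm_ge (by norm_num) (by norm_num) (by norm_num) (by norm_num)) (by norm_num) (by norm_num) (by norm_num) (by norm_num) (by norm_num)
  have hc : sE κ t' ≤ 1 - 0.3241 * (t' + κ) ^ 2 / (1 + κ ^ 2) := VR7 0.52 0.3241 1.3239 1.5014 _ _ _ _ _ B hD a1 a2 (by norm_num) (by norm_num) (by norm_num) (by norm_num) rfl rfl (by norm_num) rfl rfl rfl (by norm_num) (by norm_num)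
  exact up7 1 0.15 0.3241 1.3195 1.073 0.9184 0.5923 0.02822 0.03298 B (by norm_num) ht' hs hD (by norm_num) hJ hc hd (by norm_num) (by norm_num) (by norm_num) hY (by norm_num)
    (ch1 (a := 1) (by norm_num) (sqR h1 h3 (by norm_num)) (by norm_num) h1 h2 (by norm_num) (by norm_num)) (by norm_num)
    (expn 3 0.5707 (by norm_num) (by norm_num) (by norm_num) (by norm_num)) (by norm_num) (by norm_num)

theorem b7_3_W3U {β r h κ T t s u Y : ℝ} (B : Bx 0.48 0.58 0.4341 0.3901 10 0.058 6.0287 β r h κ T) (hs : t + κ = s * h)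
    (h1 : 0.43 ≤ u) (h2 : u ≤ 0.59) (h3 : u ≤ s) (h4 : s ≤ u + 0.0826)(htp : Real.pi / 2 ≤ t + 2 * h)
    (hY : eN r κ * (0.9184 * Real.exp (-(T * (1 / 2 * u ^ 2)))) ≤ Y) :
    ‖Xf β r h t (3)‖ ≤ 0.001806 * Y := by
  refine cU7 0 (2) 1.5707 2.399 0.03 0.5759 0.03 2.534 0.9184 0.1741 0.8541 0.8859 3.1623 0.0001924 0.001806 B (by norm_num) hs
    (half7 hs htp (by norm_num)) (mhi7 B.P (x2 := 2.6726) (by push_cast; linarith) (by norm_num) (by norm_num)) hY g1_nn (g1_le (by linarith) h2 (by norm_num))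
    (by norm_num) (by norm_num) (by norm_num) (by norm_num) (by norm_num) (by norm_num) (by norm_num) (by norm_num) (by norm_num) (by norm_num) (by norm_num) (by norm_num) (by norm_num) (by norm_num) (by norm_num) (by norm_num) (by norm_num) (by norm_num) (by norm_num)
    (expn 8 0.559 (by norm_num) (by norm_num) (by norm_num) (by norm_num)) (by norm_num) (by norm_num)

theorem b7_3_W3 {β r h κ T t s u Y : ℝ} (B : Bx 0.48 0.58 0.4341 0.3901 10 0.058 6.0287 β r h κ T) (hs : t + κ = s * h)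
    (h1 : 0.43 ≤ u) (h2 : u ≤ 0.59) (h3 : u ≤ s) (h4 : s ≤ u + 0.0826)
    (hY : eN r κ * (0.9184 * Real.exp (-(T * (1 / 2 * u ^ 2)))) ≤ Y) :
    ‖Xf β r h t 3‖ ≤ 0.001806 * Y := by
  have hp : Real.pi / 2 ≤ t + 2 * h := by
    have e : t + 2 * h = (s + 2) * h - κ := by linear_combination hs
    have := mlo7 B.P (x := s + 2) (x1 := 2.43) (by linarith) (by norm_num) (le_refl _)
    have := B.hk2
    have := Real.pi_lt_d6
    rw [e]
    norm_num at *
    linarith
  exact leE (b7_3_W3U B hs h1 h2 h3 h4 hp hY) (by norm_num) hY (by norm_num)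

theorem b7_3_Wm1 {β r h κ T t s u Y : ℝ} (B : Bx 0.48 0.58 0.4341 0.3901 10 0.058 6.0287 β r h κ T) (hs : t + κ = s * h)
    (h1 : 0.43 ≤ u) (h2 : u ≤ 0.59) (h3 : u ≤ s) (h4 : s ≤ u + 0)
    (hY : eN r κ * (0.9137 * Real.exp (-(T * (0.6006 * (1 - u) ^ 2)))) ≤ Y) :
    ‖Xf β r h t (-1)‖ ≤ 0.0036996 * Y := by
  refine leE (cL7 (-2) 1 0.6006 1.2656 1.4093 _ _ _ _ _ 0.1959 1.9794 0.5759 0 1.1612 0.9137 1.093 0.00138 0.00299 0.1952 0.8498 0.8721 3.1623 0.0001642 0.0007096 B (by norm_num) hs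
    (mloN7 B.P (x1 := 1.41) (by linarith) (by norm_num) (by norm_num)) (mhiN7 B.P (x2 := 1.57) (by linarith) (by norm_num) (by norm_num)) hY (g0_nn (by norm_num))
    (g0_le (by norm_num) h1 h2 (by norm_num) (by norm_num)) (ch0 (a := (-2)) (by norm_num) (sqL h2 h4 (by norm_num) (by norm_num)) (by norm_num) h1 h2 (by norm_num) (by norm_num))
    (by norm_num) (by norm_num) (by norm_num) (by norm_num) rfl rfl (by norm_num) rfl rfl rfl (by norm_num) (by norm_num) (by norm_num) (by norm_num) (by norm_num) (by norm_num) (by norm_num) (by norm_num) (by norm_num) (by norm_num) (by norm_num) (by norm_num) (by norm_num) (by norm_num) (by norm_num) (by norm_num) (by norm_num) (by norm_num)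
    (expn 6 0.5893 (by norm_num) (by norm_num) (by norm_num) (by norm_num)) (by norm_num) (by norm_num) (by norm_num) (by norm_num) (by norm_num) (by norm_num) (by norm_num) (by norm_num) (expn 8 0.721 (by norm_num) (by norm_num) (by norm_num) (by norm_num)) (by norm_num) (by norm_num)) (by norm_num) hY (by norm_num)

theorem b7_3_Wm1p {β r h κ T t s u Y : ℝ} (B : Bx 0.48 0.58 0.4341 0.3901 10 0.058 6.0287 β r h κ T) (hs : t + κ = s * h)
    (h1 : 0.43 ≤ u) (h2 : u ≤ 0.59) (h3 : u ≤ s) (h4 : s ≤ u + 0.0826)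
    (hY : eN r κ * (0.9137 * Real.exp (-(T * (0.6006 * (1 - u) ^ 2)))) ≤ Y) :
    ‖Xf β r h t (-1)‖ ≤ 0.0079302 * Y := by
  refine leE (cL7 (-2) 1.04 0.6006 1.1914 1.4093 _ _ _ _ _ 0.1559 2.0957 0.5759 0 1.1753 0.9137 0.9572 0.003144 0.007212 0.1952 0.8498 0.8721 3.1623 0.0001642 0.0007182 B (by norm_num) hs
    (mloN7 B.P (x1 := 1.3274) (by linarith) (by norm_num) (by norm_num)) (mhiN7 B.P (x2 := 1.57) (by linarith) (by norm_num) (by norm_num)) hY (g0_nn (by norm_num))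
    (g0_le (by norm_num) h1 h2 (by norm_num) (by norm_num)) (ch0 (a := (-1.9174)) (by norm_num) (sqL h2 h4 (by norm_num) (by norm_num)) (by norm_num) h1 h2 (by norm_num) (by norm_num))
    (by norm_num) (by norm_num) (by norm_num) (by norm_num) rfl rfl (by norm_num) rfl rfl rfl (by norm_num) (by norm_num) (by norm_num) (by norm_num) (by norm_num) (by norm_num) (by norm_num) (by norm_num) (by norm_num) (by norm_num) (by norm_num) (by norm_num) (by norm_num) (by norm_num) (by norm_num) (by norm_num) (by norm_num) (by norm_num)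
    (expn 5 0.7706 (by norm_num) (by norm_num) (by norm_num) (by norm_num)) (by norm_num) (by norm_num) (by norm_num) (by norm_num) (by norm_num) (by norm_num) (by norm_num) (by norm_num) (expn 8 0.721 (by norm_num) (by norm_num) (by norm_num) (by norm_num)) (by norm_num) (by norm_num)) (by norm_num) hY (by norm_num)

theorem b7_3_Wm2 {β r h κ T t s u Y : ℝ} (B : Bx 0.48 0.58 0.4341 0.3901 10 0.058 6.0287 β r h κ T) (hs : t + κ = s * h)
    (h1 : 0.43 ≤ u) (h2 : u ≤ 0.59) (h3 : u ≤ s) (h4 : s ≤ u + 0.0826)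
    (hY : eN r κ * (0.9137 * Real.exp (-(T * (0.6006 * (1 - u) ^ 2)))) ≤ Y) :
    ‖Xf β r h t (-2)‖ ≤ 0.000710727 * Y := by
  refine leE (cL7 (-3) 0.6 0.4564 2.089 2.3069 _ _ _ _ _ 0.2048 1.9575 0.5759 0 1.1609 0.9137 2.3712 0.0000006192 0.000001327 0.1952 0.8498 0.8721 3.1623 0.0001642 0.0007094 B (by norm_num) hs
    (mloN7 B.P (x1 := 2.3274) (by linarith) (by norm_num) (by norm_num)) (mhiN7 B.P (x2 := 2.57) (by linarith) (by norm_num) (by norm_num)) hY (g0_nn (by norm_num))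
    (g0_le (by norm_num) h1 h2 (by norm_num) (by norm_num)) (ch0 (a := (-2.9174)) (by norm_num) (sqL h2 h4 (by norm_num) (by norm_num)) (by norm_num) h1 h2 (by norm_num) (by norm_num))
    (by norm_num) (by norm_num) (by norm_num) (by norm_num) rfl rfl (by norm_num) rfl rfl rfl (by norm_num) (by norm_num) (by norm_num) (by norm_num) (by norm_num) (by norm_num) (by norm_num) (by norm_num) (by norm_num) (by norm_num) (by norm_num) (by norm_num) (by norm_num) (by norm_num) (by norm_num) (by norm_num) (by norm_num) (by norm_num)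
    (expn 14 0.2952 (by norm_num) (by norm_num) (by norm_num) (by norm_num)) (by norm_num) (by norm_num) (by norm_num) (by norm_num) (by norm_num) (by norm_num) (by norm_num) (by norm_num) (expn 8 0.721 (by norm_num) (by norm_num) (by norm_num) (by norm_num)) (by norm_num) (by norm_num)) (by norm_num) hY (by norm_num)

theorem b7_3_Wm3 {β r h κ T t s u Y : ℝ} (B : Bx 0.48 0.58 0.4341 0.3901 10 0.058 6.0287 β r h κ T) (hs : t + κ = s * h)
    (h1 : 0.43 ≤ u) (h2 : u ≤ 0.59) (h3 : u ≤ s) (h4 : s ≤ u + 0.0826)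
    (hY : eN r κ * (0.9137 * Real.exp (-(T * (0.6006 * (1 - u) ^ 2)))) ≤ Y) :
    ‖Xf β r h t (-3)‖ ≤ 0.001075 * Y := by
  refine cU7 1 (-4) 2.4987 3.2966 0.02 0.5759 0.02 1.4463 0.9137 0.1952 0.8498 0.8721 3.1623 0.0001997 0.001075 B (by norm_num) hs
    (full7 B.P B.hk2 (x1 := 3.43) (by push_cast; linarith) (by norm_num) (by norm_num)) (mhi7 B.P (x2 := 3.6726) (by push_cast; linarith) (by norm_num) (by norm_num)) hY (g0_nn (by norm_num)) (g0_le (by norm_num) h1 h2 (by norm_num) (by norm_num))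
    (by norm_num) (by norm_num) (by norm_num) (by norm_num) (by norm_num) (by norm_num) (by norm_num) (by norm_num) (by norm_num) (by norm_num) (by norm_num) (by norm_num) (by norm_num) (by norm_num) (by norm_num) (by norm_num) (by norm_num) (by norm_num) (by norm_num)
    (expn 8 0.521 (by norm_num) (by norm_num) (by norm_num) (by norm_num)) (by norm_num) (by norm_num)

private theorem b7_3_Ao_y {κ t : ℝ} (h : DomR κ t) (hk1 : 0.48 ≤ κ) (hk2 : κ ≤ 0.58) (ht1 : (-0.8528) ≤ t + κ) (ht2 : t + κ ≤ (-0.5744)) :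
    (-0.572) ≤ sy κ t ∧ sy κ t ≤ (-0.297) := by
  have hy1 : -0.572 ≤ sy κ t := syL_ge h 0.48 0.58 0.8528 0.572 0.56439 0.5644 0.5759 0.5566 0.67258 hk1 hk2 (by linarith) (by norm_num) (by norm_num) (by norm_num)
    (expm_ge (by norm_num) (by norm_num) (by norm_num) (by norm_num)) (expm_le (by norm_num) (by norm_num) (by norm_num)) (by norm_num)
    (by norm_num) (by norm_num) (by norm_num) (by norm_num) (by norm_num) (by norm_num)
  have hy2 : sy κ t ≤ -0.297 := syL_le h 0.48 0.58 0.5744 0.297 0.74304 0.74305 0.38048 0.45977 hk1 hk2 (by linarith) (by norm_num) (by norm_num) (by norm_num)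
    (expm_ge (by norm_num) (by norm_num) (by norm_num) (by norm_num)) (expm_le (by norm_num) (by norm_num) (by norm_num)) (by norm_num)
    (by norm_num) (by norm_num) (by norm_num) (by norm_num) (by norm_num) (by norm_num)
  exact ⟨by linarith, by linarith⟩

theorem b7_3_Ao {β r h κ T t s u Y : ℝ} (B : Bx 0.48 0.58 0.4341 0.3901 10 0.058 6.0287 β r h κ T) (hs : t + κ = s * h)
    (h1 : 0.05 ≤ u) (h2 : u ≤ 0.36) (h3 : u ≤ s) (h4 : s ≤ u + 0)
    (hY : eN r κ * (0.9184 * Real.exp (-(T * (1 / 2 * u ^ 2)))) ≤ Y) :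
    ‖Xf β r h t 0‖ ≤ 0.7215 * Y := by
  obtain ⟨t', ht'⟩ : ∃ t', t' = t + (-1) * h := ⟨_, rfl⟩
  have hτ : t' + κ = (s + (-1)) * h := by rw [ht']; linear_combination hs
  have a1 : (-0.8528) ≤ t' + κ := by rw [hτ]; have := mhiN7 B.P (x := s + (-1)) (x2 := 0.95) (τ2 := 0.8528) (by linarith) (by norm_num) (by norm_num); linarith
  have a2 : t' + κ ≤ (-0.5744) := by rw [hτ]; have := mloN7 B.P (x := s + (-1)) (x1 := 0.64) (τ1 := 0.5744) (by linarith) (by norm_num) (by norm_num); linarith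
  have hk := B.hk1
  have hk' := B.P.hκ1
  have hD : DomR κ t' := dom7 B.P.κ0 (by linarith) (by linarith)
  have hy := b7_3_Ao_y hD B.hk1 B.hk2 a1 a2
  have hJ : ‖HH β (sg κ t') - 1‖ ≤ 0.15 := by
    rcases le_total (t' + κ) (-0.61) with hc | hc
    · exact JB7_k0b hD B.P.hβ (by linarith) B.P.hκ1 (by linarith) (by linarith) B.P.βκ B.P.βR
    · exact (JB7_k0a hD B.P.hβ (by linarith) B.P.hκ1 (by linarith) (by linarith) B.P.βκ B.P.βR).trans (by norm_num)
  have hd := Dlo7 hD (0.48 ^ 2) (0.58 ^ 2) 0.4635 (-0.572) (-0.297) (-0.4895) 2.66159 hy.1 hy.2 (pow_le_pow_left₀ (by norm_num) B.hk1 2) (pow_le_pow_left₀ B.P.κ0.le B.hk2 2)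
      (by rw [show (-2 * (-0.4895) : ℝ) = 0.979 by norm_num]; exact expn_ge (by norm_num) (by norm_num)) (by norm_num) (by norm_num) (by norm_num) (by norm_num) (by norm_num)
  have hc : sE κ t' ≤ 1 - 0.4625 * (t' + κ) ^ 2 / (1 + κ ^ 2) := VLA7 hD B.P.hκ1 (by linarith) (by linarith)
  exact up7 (-1) 0.15 0.4625 0.4635 1.3938 0.9184 0.1246 0.4754 0.7215 B (by norm_num) ht' hs hD (by norm_num) hJ hc hd (by norm_num) (by norm_num) (by norm_num) hY (by norm_num)
    (ch1 (a := (-1)) (by norm_num) (sqL h2 h4 (by norm_num) (by norm_num)) (by norm_num) h1 h2 (by norm_num) (by norm_num)) (by norm_num)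
    (expn 0 0.7511 (by norm_num) (by norm_num) (by norm_num) (by norm_num)) (by norm_num) (by norm_num)

private theorem b7_3_A2_y {κ t : ℝ} (h : DomR κ t) (hk1 : 0.48 ≤ κ) (hk2 : κ ≤ 0.58) (ht1 : 0.9424 ≤ t + κ) (ht2 : t + κ ≤ 1.2208) :
    0.249 ≤ sy κ t ∧ sy κ t ≤ 0.336 := by
  have hy1 : 0.249 ≤ sy κ t := syR_ge h 0.48 0.58 0.9424 0.249 1.28274 1.28275 0.55069 0.66543 hk1 hk2 (by linarith) (by norm_num) (by norm_num)
    (expn_ge (by norm_num) (by norm_num)) (expn_le (by norm_num) (by norm_num) (by norm_num)) (by norm_num)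
    (by norm_num) (by norm_num) (by norm_num) (by norm_num) (by norm_num) (by norm_num)
  have hy2 : sy κ t ≤ 0.336 := syR_le h 0.48 0.58 1.2208 0.336 1.39933 0.7824 0.81064 0.97954 hk1 hk2 (by linarith) (by norm_num) (by norm_num)
    (expn_ge (by norm_num) (by norm_num)) (by norm_num) (by norm_num) (Or.inr ((mul_le_mul_of_nonneg_left (expn_le (E := 1.39934) (by norm_num) (by norm_num) (by norm_num)) (by norm_num)).trans (by norm_num))) (by norm_num) (by norm_num) (by norm_num)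
  exact ⟨by linarith, by linarith⟩

theorem b7_3_A2 {β r h κ T t s u Y : ℝ} (B : Bx 0.48 0.58 0.4341 0.3901 10 0.058 6.0287 β r h κ T) (hs : t + κ = s * h)
    (h1 : 0.05 ≤ u) (h2 : u ≤ 0.36) (h3 : u ≤ s) (h4 : s ≤ u + 0)
    (hY : eN r κ * (0.9184 * Real.exp (-(T * (1 / 2 * u ^ 2)))) ≤ Y) :
    ‖Xf β r h t 2‖ ≤ 0.1075 * Y := by
  obtain ⟨t', ht'⟩ : ∃ t', t' = t + 1 * h := ⟨_, rfl⟩
  have hτ : t' + κ = (s + 1) * h := by rw [ht']; linear_combination hs
  have a1 : 0.9424 ≤ t' + κ := by rw [hτ]; exact mlo7 B.P (x1 := 1.05) (by linarith) (by norm_num) (by norm_num)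
  have a2 : t' + κ ≤ 1.2208 := by rw [hτ]; exact mhi7 B.P (x2 := 1.36) (by linarith) (by norm_num) (by norm_num)
  have hk := B.hk1
  have hk' := B.P.hκ1
  have hD : DomR κ t' := dom7 B.P.κ0 (by linarith) (by linarith)
  have hy := b7_3_A2_y hD B.hk1 B.hk2 a1 a2
  have hJ : ‖HH β (sg κ t') - 1‖ ≤ 0.06 := JB7_k2a hD B.P.hβ (by linarith) B.P.hκ1 (by linarith) (by linarith) B.P.βκ B.P.βR
  have hd := Dlo7 hD (0.48 ^ 2) (0.58 ^ 2) 1.2739 0.249 0.336 0.249 0.60774 hy.1 hy.2 (pow_le_pow_left₀ (by norm_num) B.hk1 2) (pow_le_pow_left₀ B.P.κ0.le B.hk2 2)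
      (by rw [show (-2 * 0.249 : ℝ) = -0.498 by norm_num]; exact expm_ge (by norm_num) (by norm_num) (by norm_num) (by norm_num)) (by norm_num) (by norm_num) (by norm_num) (by norm_num) (by norm_num)
  have hc : sE κ t' ≤ 1 - 0.3493 * (t' + κ) ^ 2 / (1 + κ ^ 2) := VR7 0.58 0.3493 0.9424 1.2208 _ _ _ _ _ B hD a1 a2 (by norm_num) (by norm_num) (by norm_num) (by norm_num) rfl rfl (by norm_num) rfl rfl rfl (by norm_num) (by norm_num)
  exact up7 1 0.06 0.3493 1.2739 0.9978 0.9184 0.3838 0.09892 0.1075 B (by norm_num) ht' hs hD (by norm_num) hJ hc hd (by norm_num) (by norm_num) (by norm_num) hY (by norm_num)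
    (ch1 (a := 1) (by norm_num) (sqR h1 h3 (by norm_num)) (by norm_num) h1 h2 (by norm_num) (by norm_num)) (by norm_num)
    (expn 2 0.3138 (by norm_num) (by norm_num) (by norm_num) (by norm_num)) (by norm_num) (by norm_num)

theorem b7_3_A3R {β r h κ T t s u Y : ℝ} (B : Bx 0.48 0.58 0.4341 0.3901 10 0.058 6.0287 β r h κ T) (hs : t + κ = s * h)
    (h1 : 0.05 ≤ u) (h2 : u ≤ 0.36) (h3 : u ≤ s) (h4 : s ≤ u + 0) (htp : t + 2 * h ≤ Real.pi / 2)
    (hY : eN r κ * (0.9184 * Real.exp (-(T * (1 / 2 * u ^ 2)))) ≤ Y) :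
    ‖Xf β r h t 3‖ ≤ 0.006856 * Y := by
  refine leE (cR7 2 0.34 0.2601 1.84 2.1184 _ _ _ _ _ 0.0255 3.2953 0.5759 0.182 1.1679 0.9184 1.0918 0.00139 0.004988 0.0648 0.8541 0.9575 3.1623 0.0004319 0.001868 B (by norm_num) hs htp
    (mlo7 B.P (x1 := 2.05) (by linarith) (by norm_num) (by norm_num)) (mhi7 B.P (x2 := 2.36) (by linarith) (by norm_num) (by norm_num)) hY g1_nn
    (g1_le (by linarith) h2 (by norm_num)) (ch1 (a := 2) (by norm_num) (sqR h1 h3 (by norm_num)) (by norm_num) h1 h2 (by norm_num) (by norm_num))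
    (by norm_num) (by norm_num) (by norm_num) (by norm_num) rfl rfl (by norm_num) rfl rfl rfl (by norm_num) (by norm_num) (by norm_num) (by norm_num) (by norm_num) (by norm_num) (by norm_num) (by norm_num) (by norm_num) (by norm_num) (by norm_num) (by norm_num) (by norm_num) (by norm_num) (by norm_num) (by norm_num) (by norm_num) (by norm_num) (by norm_num)
    (expn 6 0.5821 (by norm_num) (by norm_num) (by norm_num) (by norm_num)) (by norm_num) (by norm_num) (by norm_num) (by norm_num) (by norm_num) (by norm_num) (by norm_num) (by norm_num) (expn 7 0.755 (by norm_num) (by norm_num) (by norm_num) (by norm_num)) (by norm_num) (by norm_num)) (by norm_num) hY (by norm_num)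

theorem b7_3_A3U {β r h κ T t s u Y : ℝ} (B : Bx 0.48 0.58 0.4341 0.3901 10 0.058 6.0287 β r h κ T) (hs : t + κ = s * h)
    (h1 : 0.05 ≤ u) (h2 : u ≤ 0.36) (h3 : u ≤ s) (h4 : s ≤ u + 0)(htp : Real.pi / 2 ≤ t + 2 * h)
    (hY : eN r κ * (0.9184 * Real.exp (-(T * (1 / 2 * u ^ 2)))) ≤ Y) :
    ‖Xf β r h t (3)‖ ≤ 0.0008797 * Y := by
  refine cU7 0 (2) 1.5707 2.1184 0.03 0.5759 0.03 2.534 0.9184 0.0648 0.8541 0.9575 3.1623 0.00009376 0.0008797 B (by norm_num) hs
    (half7 hs htp (by norm_num)) (mhi7 B.P (x2 := 2.36) (by push_cast; linarith) (by norm_num) (by norm_num)) hY g1_nn (g1_le (by linarith) h2 (by norm_num))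
    (by norm_num) (by norm_num) (by norm_num) (by norm_num) (by norm_num) (by norm_num) (by norm_num) (by norm_num) (by norm_num) (by norm_num) (by norm_num) (by norm_num) (by norm_num) (by norm_num) (by norm_num) (by norm_num) (by norm_num) (by norm_num) (by norm_num)
    (expn 9 0.275 (by norm_num) (by norm_num) (by norm_num) (by norm_num)) (by norm_num) (by norm_num)

theorem b7_3_A3 {β r h κ T t s u Y : ℝ} (B : Bx 0.48 0.58 0.4341 0.3901 10 0.058 6.0287 β r h κ T) (hs : t + κ = s * h)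
    (h1 : 0.05 ≤ u) (h2 : u ≤ 0.36) (h3 : u ≤ s) (h4 : s ≤ u + 0)
    (hY : eN r κ * (0.9184 * Real.exp (-(T * (1 / 2 * u ^ 2)))) ≤ Y) :
    ‖Xf β r h t 3‖ ≤ 0.006856 * Y := by
  rcases le_total (t + 2 * h) (Real.pi / 2) with hp | hp
  · exact leE (b7_3_A3R B hs h1 h2 h3 h4 hp hY) (by norm_num) hY (by norm_num)
  · exact leE (b7_3_A3U B hs h1 h2 h3 h4 hp hY) (by norm_num) hY (by norm_num)

theorem b7_3_Am1 {β r h κ T t s u Y : ℝ} (B : Bx 0.48 0.58 0.4341 0.3901 10 0.058 6.0287 β r h κ T) (hs : t + κ = s * h)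
    (h1 : 0.05 ≤ u) (h2 : u ≤ 0.36) (h3 : u ≤ s) (h4 : s ≤ u + 0)
    (hY : eN r κ * (0.9184 * Real.exp (-(T * (1 / 2 * u ^ 2)))) ≤ Y) :
    ‖Xf β r h t (-1)‖ ≤ 0.001251 * Y := by
  refine leE (cL7 (-2) 0.72 0.5 1.472 1.7504 _ _ _ _ _ 0.2003 1.9684 0.5759 0 1.1257 0.9184 1.28 0.0004482 0.0009607 0.0648 0.8541 0.9575 3.1623 0.00006965 0.0002903 B (by norm_num) hs
    (mloN7 B.P (x1 := 1.64) (by linarith) (by norm_num) (by norm_num)) (mhiN7 B.P (x2 := 1.95) (by linarith) (by norm_num) (by norm_num)) hY g1_nn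
    (g1_le (by linarith) h2 (by norm_num)) (ch1 (a := (-2)) (by norm_num) (sqL h2 h4 (by norm_num) (by norm_num)) (by norm_num) h1 h2 (by norm_num) (by norm_num))
    (by norm_num) (by norm_num) (by norm_num) (by norm_num) rfl rfl (by norm_num) rfl rfl rfl (by norm_num) (by norm_num) (by norm_num) (by norm_num) (by norm_num) (by norm_num) (by norm_num) (by norm_num) (by norm_num) (by norm_num) (by norm_num) (by norm_num) (by norm_num) (by norm_num) (by norm_num) (by norm_num) (by norm_num) (by norm_num)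
    (expn 7 0.7167 (by norm_num) (by norm_num) (by norm_num) (by norm_num)) (by norm_num) (by norm_num) (by norm_num) (by norm_num) (by norm_num) (by norm_num) (by norm_num) (by norm_num) (expn 9 0.575 (by norm_num) (by norm_num) (by norm_num) (by norm_num)) (by norm_num) (by norm_num)) (by norm_num) hY (by norm_num)

theorem b7_3_Am2 {β r h κ T t s u Y : ℝ} (B : Bx 0.48 0.58 0.4341 0.3901 10 0.058 6.0287 β r h κ T) (hs : t + κ = s * h)
    (h1 : 0.05 ≤ u) (h2 : u ≤ 0.36) (h3 : u ≤ s) (h4 : s ≤ u + 0)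
    (hY : eN r κ * (0.9184 * Real.exp (-(T * (1 / 2 * u ^ 2)))) ≤ Y) :
    ‖Xf β r h t (-2)‖ ≤ 0.00031376173 * Y := by
  refine leE (cL7 (-3) 0.6 0.459 2.3696 2.648 _ _ _ _ _ 0.152 2.109 0.5759 0 1.2163 0.9184 3.1342 0.00000002688 0.00000006173 0.0648 0.8541 0.9575 3.1623 0.00006965 0.0003137 B (by norm_num) hs
    (mloN7 B.P (x1 := 2.64) (by linarith) (by norm_num) (by norm_num)) (mhiN7 B.P (x2 := 2.95) (by linarith) (by norm_num) (by norm_num)) hY g1_nn
    (g1_le (by linarith) h2 (by norm_num)) (ch1 (a := (-3)) (by norm_num) (sqL h2 h4 (by norm_num) (by norm_num)) (by norm_num) h1 h2 (by norm_num) (by norm_num))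
    (by norm_num) (by norm_num) (by norm_num) (by norm_num) rfl rfl (by norm_num) rfl rfl rfl (by norm_num) (by norm_num) (by norm_num) (by norm_num) (by norm_num) (by norm_num) (by norm_num) (by norm_num) (by norm_num) (by norm_num) (by norm_num) (by norm_num) (by norm_num) (by norm_num) (by norm_num) (by norm_num) (by norm_num) (by norm_num)
    (expn 16 1.5 (by norm_num) (by norm_num) (by norm_num) (by norm_num)) (by norm_num) (by norm_num) (by norm_num) (by norm_num) (by norm_num) (by norm_num) (by norm_num) (by norm_num) (expn 9 0.575 (by norm_num) (by norm_num) (by norm_num) (by norm_num)) (by norm_num) (by norm_num)) (by norm_num) hY (by norm_num)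

theorem b7_3_Am3 {β r h κ T t s u Y : ℝ} (B : Bx 0.48 0.58 0.4341 0.3901 10 0.058 6.0287 β r h κ T) (hs : t + κ = s * h)
    (h1 : 0.05 ≤ u) (h2 : u ≤ 0.36) (h3 : u ≤ s) (h4 : s ≤ u + 0)
    (hY : eN r κ * (0.9184 * Real.exp (-(T * (1 / 2 * u ^ 2)))) ≤ Y) :
    ‖Xf β r h t (-3)‖ ≤ 0.0004608 * Y := by
  refine cU7 1 (-4) 2.1576 3.016 0.02 0.5759 0.02 1.4661 0.9184 0.0648 0.8541 0.9575 3.1623 0.00008488 0.0004608 B (by norm_num) hs
    (full7 B.P B.hk2 (x1 := 3.05) (by push_cast; linarith) (by norm_num) (by norm_num)) (mhi7 B.P (x2 := 3.36) (by push_cast; linarith) (by norm_num) (by norm_num)) hY g1_nn (g1_le (by linarith) h2 (by norm_num))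
    (by norm_num) (by norm_num) (by norm_num) (by norm_num) (by norm_num) (by norm_num) (by norm_num) (by norm_num) (by norm_num) (by norm_num) (by norm_num) (by norm_num) (by norm_num) (by norm_num) (by norm_num) (by norm_num) (by norm_num) (by norm_num) (by norm_num)
    (expn 9 0.375 (by norm_num) (by norm_num) (by norm_num) (by norm_num)) (by norm_num) (by norm_num)

private theorem b7_3_Bo_y {κ t : ℝ} (h : DomR κ t) (hk1 : 0.48 ≤ κ) (hk2 : κ ≤ 0.58) (ht1 : (-0.5745) ≤ t + κ) (ht2 : t + κ ≤ (-0.5116)) :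
    (-0.33) ≤ sy κ t ∧ sy κ t ≤ (-0.256) := by
  have hy1 : -0.33 ≤ sy κ t := syL_ge h 0.48 0.58 0.5745 0.33 0.71892 0.71893 0.3948 0.40904 0.49427 hk1 hk2 (by linarith) (by norm_num) (by norm_num) (by norm_num)
    (expm_ge (by norm_num) (by norm_num) (by norm_num) (by norm_num)) (expm_le (by norm_num) (by norm_num) (by norm_num)) (by norm_num)
    (by norm_num) (by norm_num) (by norm_num) (by norm_num) (by norm_num) (by norm_num)
  have hy2 : sy κ t ≤ -0.256 := syL_le h 0.48 0.58 0.5116 0.256 0.77414 0.77415 0.34168 0.41289 hk1 hk2 (by linarith) (by norm_num) (by norm_num) (by norm_num)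
    (expm_ge (by norm_num) (by norm_num) (by norm_num) (by norm_num)) (expm_le (by norm_num) (by norm_num) (by norm_num)) (by norm_num)
    (by norm_num) (by norm_num) (by norm_num) (by norm_num) (by norm_num) (by norm_num)
  exact ⟨by linarith, by linarith⟩

theorem b7_3_Bo {β r h κ T t s u Y : ℝ} (B : Bx 0.48 0.58 0.4341 0.3901 10 0.058 6.0287 β r h κ T) (hs : t + κ = s * h)
    (h1 : 0.36 ≤ u) (h2 : u ≤ 0.43) (h3 : u ≤ s) (h4 : s ≤ u + 0)
    (hY : eN r κ * (0.9184 * Real.exp (-(T * (1 / 2 * u ^ 2)))) ≤ Y) :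
    ‖Xf β r h t 0‖ ≤ 0.892 * Y := by
  obtain ⟨t', ht'⟩ : ∃ t', t' = t + (-1) * h := ⟨_, rfl⟩
  have hτ : t' + κ = (s + (-1)) * h := by rw [ht']; linear_combination hs
  have a1 : (-0.5745) ≤ t' + κ := by rw [hτ]; have := mhiN7 B.P (x := s + (-1)) (x2 := 0.64) (τ2 := 0.5745) (by linarith) (by norm_num) (by norm_num); linarith
  have a2 : t' + κ ≤ (-0.5116) := by rw [hτ]; have := mloN7 B.P (x := s + (-1)) (x1 := 0.57) (τ1 := 0.5116) (by linarith) (by norm_num) (by norm_num); linarith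
  have hk := B.hk1
  have hk' := B.P.hκ1
  have hD : DomR κ t' := dom7 B.P.κ0 (by linarith) (by linarith)
  have hy := b7_3_Bo_y hD B.hk1 B.hk2 a1 a2
  have hJ : ‖HH β (sg κ t') - 1‖ ≤ 0.08 := JB7_k0a hD B.P.hβ (by linarith) B.P.hκ1 (by linarith) (by linarith) B.P.βκ B.P.βR
  have hd := Dlo7 hD (0.48 ^ 2) (0.58 ^ 2) 0.6386 (-0.33) (-0.256) (-0.33) 1.93478 hy.1 hy.2 (pow_le_pow_left₀ (by norm_num) B.hk1 2) (pow_le_pow_left₀ B.P.κ0.le B.hk2 2)
      (by rw [show (-2 * (-0.33) : ℝ) = 0.66 by norm_num]; exact expn_ge (by norm_num) (by norm_num)) (by norm_num) (by norm_num) (by norm_num) (by norm_num) (by norm_num)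
  have hc : sE κ t' ≤ 1 - 0.4835 * (t' + κ) ^ 2 / (1 + κ ^ 2) := VL_05_06 hD (by linarith) (by linarith) (by linarith)
  exact up7 (-1) 0.08 0.4835 0.6386 1.2082 0.9184 0.0646 0.678 0.892 B (by norm_num) ht' hs hD (by norm_num) hJ hc hd (by norm_num) (by norm_num) (by norm_num) hY (by norm_num)
    (ch1 (a := (-1)) (by norm_num) (sqL h2 h4 (by norm_num) (by norm_num)) (by norm_num) h1 h2 (by norm_num) (by norm_num)) (by norm_num)
    (expn 0 0.3894 (by norm_num) (by norm_num) (by norm_num) (by norm_num)) (by norm_num) (by norm_num)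

private theorem b7_3_B2_y {κ t : ℝ} (h : DomR κ t) (hk1 : 0.48 ≤ κ) (hk2 : κ ≤ 0.58) (ht1 : 1.2207 ≤ t + κ) (ht2 : t + κ ≤ 1.2836) :
    0.287 ≤ sy κ t ∧ sy κ t ≤ 0.345 := by
  have hy1 : 0.287 ≤ sy κ t := syR_ge h 0.48 0.58 1.2207 0.287 1.33242 1.33243 0.65931 0.79669 hk1 hk2 (by linarith) (by norm_num) (by norm_num)
    (expn_ge (by norm_num) (by norm_num)) (expn_le (by norm_num) (by norm_num) (by norm_num)) (by norm_num)
    (by norm_num) (by norm_num) (by norm_num) (by norm_num) (by norm_num) (by norm_num)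
  have hy2 : sy κ t ≤ 0.345 := syR_ang2 h 0.48 0.58 1.2836 0.996 0.545 0.8395 0.345 0.70823 1.41198 hk1 hk2 (by linarith) (by norm_num) (by norm_num) (by norm_num)
    (cos_le_num (by norm_num)) (sin_le_num (by norm_num) (by norm_num)) (expm_le (by norm_num) (by norm_num) (by norm_num))
    (expn_ge (by norm_num) (by norm_num)) (by norm_num) (by norm_num) (by norm_num) (by norm_num) (by norm_num)
  exact ⟨by linarith, by linarith⟩

theorem b7_3_B2 {β r h κ T t s u Y : ℝ} (B : Bx 0.48 0.58 0.4341 0.3901 10 0.058 6.0287 β r h κ T) (hs : t + κ = s * h)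
    (h1 : 0.36 ≤ u) (h2 : u ≤ 0.43) (h3 : u ≤ s) (h4 : s ≤ u + 0)
    (hY : eN r κ * (0.9184 * Real.exp (-(T * (1 / 2 * u ^ 2)))) ≤ Y) :
    ‖Xf β r h t 2‖ ≤ 0.0345 * Y := by
  obtain ⟨t', ht'⟩ : ∃ t', t' = t + 1 * h := ⟨_, rfl⟩
  have hτ : t' + κ = (s + 1) * h := by rw [ht']; linear_combination hs
  have a1 : 1.2207 ≤ t' + κ := by rw [hτ]; exact mlo7 B.P (x1 := 1.36) (by linarith) (by norm_num) (by norm_num)
  have a2 : t' + κ ≤ 1.2836 := by rw [hτ]; exact mhi7 B.P (x2 := 1.43) (by linarith) (by norm_num) (by norm_num)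
  have hk := B.hk1
  have hk' := B.P.hκ1
  have hD : DomR κ t' := dom7 B.P.κ0 (by linarith) (by linarith)
  have hy := b7_3_B2_y hD B.hk1 B.hk2 a1 a2
  have hJ : ‖HH β (sg κ t') - 1‖ ≤ 0.06 := JB7_k2a hD B.P.hβ (by linarith) B.P.hκ1 (by linarith) (by linarith) B.P.βκ B.P.βR
  have hd := Dlo7 hD (0.48 ^ 2) (0.58 ^ 2) 1.3195 0.287 0.345 0.287 0.56326 hy.1 hy.2 (pow_le_pow_left₀ (by norm_num) B.hk1 2) (pow_le_pow_left₀ B.P.κ0.le B.hk2 2)
      (by rw [show (-2 * 0.287 : ℝ) = -0.574 by norm_num]; exact expm_ge (by norm_num) (by norm_num) (by norm_num) (by norm_num)) (by norm_num) (by norm_num) (by norm_num) (by norm_num) (by norm_num)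
  have hc : sE κ t' ≤ 1 - 0.3438 * (t' + κ) ^ 2 / (1 + κ ^ 2) := VR7 0.57 0.3438 1.2207 1.2836 _ _ _ _ _ B hD a1 a2 (by norm_num) (by norm_num) (by norm_num) (by norm_num) rfl rfl (by norm_num) rfl rfl rfl (by norm_num) (by norm_num)
  exact up7 1 0.06 0.3438 1.3195 0.9891 0.9184 0.571 0.03203 0.0345 B (by norm_num) ht' hs hD (by norm_num) hJ hc hd (by norm_num) (by norm_num) (by norm_num) hY (by norm_num)
    (ch1 (a := 1) (by norm_num) (sqR h1 h3 (by norm_num)) (by norm_num) h1 h2 (by norm_num) (by norm_num)) (by norm_num)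
    (expn 3 0.4423 (by norm_num) (by norm_num) (by norm_num) (by norm_num)) (by norm_num) (by norm_num)

theorem b7_3_B3R {β r h κ T t s u Y : ℝ} (B : Bx 0.48 0.58 0.4341 0.3901 10 0.058 6.0287 β r h κ T) (hs : t + κ = s * h)
    (h1 : 0.36 ≤ u) (h2 : u ≤ 0.43) (h3 : u ≤ s) (h4 : s ≤ u + 0) (htp : t + 2 * h ≤ Real.pi / 2)
    (hY : eN r κ * (0.9184 * Real.exp (-(T * (1 / 2 * u ^ 2)))) ≤ Y) :
    ‖Xf β r h t 3‖ ≤ 0.001423 * Y := by
  refine leE (cR7 2 0.34 0.2589 2.1183 2.1812 _ _ _ _ _ 0.0173 3.631 0.5759 0.0196 1.1785 0.9184 1.3771 0.0002481 0.0009809 0.0925 0.8541 0.9394 3.1623 0.0001013 0.0004421 B (by norm_num) hs htp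
    (mlo7 B.P (x1 := 2.36) (by linarith) (by norm_num) (by norm_num)) (mhi7 B.P (x2 := 2.43) (by linarith) (by norm_num) (by norm_num)) hY g1_nn
    (g1_le (by linarith) h2 (by norm_num)) (ch1 (a := 2) (by norm_num) (sqR h1 h3 (by norm_num)) (by norm_num) h1 h2 (by norm_num) (by norm_num))
    (by norm_num) (by norm_num) (by norm_num) (by norm_num) rfl rfl (by norm_num) rfl rfl rfl (by norm_num) (by norm_num) (by norm_num) (by norm_num) (by norm_num) (by norm_num) (by norm_num) (by norm_num) (by norm_num) (by norm_num) (by norm_num) (by norm_num) (by norm_num) (by norm_num) (by norm_num) (by norm_num) (by norm_num) (by norm_num) (by norm_num)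
    (expn 8 0.3021 (by norm_num) (by norm_num) (by norm_num) (by norm_num)) (by norm_num) (by norm_num) (by norm_num) (by norm_num) (by norm_num) (by norm_num) (by norm_num) (by norm_num) (expn 9 0.198 (by norm_num) (by norm_num) (by norm_num) (by norm_num)) (by norm_num) (by norm_num)) (by norm_num) hY (by norm_num)

theorem b7_3_B3U {β r h κ T t s u Y : ℝ} (B : Bx 0.48 0.58 0.4341 0.3901 10 0.058 6.0287 β r h κ T) (hs : t + κ = s * h)
    (h1 : 0.36 ≤ u) (h2 : u ≤ 0.43) (h3 : u ≤ s) (h4 : s ≤ u + 0)(htp : Real.pi / 2 ≤ t + 2 * h)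
    (hY : eN r κ * (0.9184 * Real.exp (-(T * (1 / 2 * u ^ 2)))) ≤ Y) :
    ‖Xf β r h t (3)‖ ≤ 0.001055 * Y := by
  refine cU7 0 (2) 1.5707 2.1812 0.03 0.5759 0.03 2.534 0.9184 0.0925 0.8541 0.9394 3.1623 0.0001124 0.001055 B (by norm_num) hs
    (half7 hs htp (by norm_num)) (mhi7 B.P (x2 := 2.43) (by push_cast; linarith) (by norm_num) (by norm_num)) hY g1_nn (g1_le (by linarith) h2 (by norm_num))
    (by norm_num) (by norm_num) (by norm_num) (by norm_num) (by norm_num) (by norm_num) (by norm_num) (by norm_num) (by norm_num) (by norm_num) (by norm_num) (by norm_num) (by norm_num) (by norm_num) (by norm_num) (by norm_num) (by norm_num) (by norm_num) (by norm_num)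
    (expn 9 0.094 (by norm_num) (by norm_num) (by norm_num) (by norm_num)) (by norm_num) (by norm_num)

theorem b7_3_B3 {β r h κ T t s u Y : ℝ} (B : Bx 0.48 0.58 0.4341 0.3901 10 0.058 6.0287 β r h κ T) (hs : t + κ = s * h)
    (h1 : 0.36 ≤ u) (h2 : u ≤ 0.43) (h3 : u ≤ s) (h4 : s ≤ u + 0)
    (hY : eN r κ * (0.9184 * Real.exp (-(T * (1 / 2 * u ^ 2)))) ≤ Y) :
    ‖Xf β r h t 3‖ ≤ 0.001423 * Y := by
  rcases le_total (t + 2 * h) (Real.pi / 2) with hp | hp
  · exact leE (b7_3_B3R B hs h1 h2 h3 h4 hp hY) (by norm_num) hY (by norm_num)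
  · exact leE (b7_3_B3U B hs h1 h2 h3 h4 hp hY) (by norm_num) hY (by norm_num)

theorem b7_3_Bm1 {β r h κ T t s u Y : ℝ} (B : Bx 0.48 0.58 0.4341 0.3901 10 0.058 6.0287 β r h κ T) (hs : t + κ = s * h)
    (h1 : 0.36 ≤ u) (h2 : u ≤ 0.43) (h3 : u ≤ s) (h4 : s ≤ u + 0)
    (hY : eN r κ * (0.9184 * Real.exp (-(T * (1 / 2 * u ^ 2)))) ≤ Y) :
    ‖Xf β r h t (-1)‖ ≤ 0.0024123 * Y := by
  refine leE (cL7 (-2) 0.72 0.5 1.4092 1.4721 _ _ _ _ _ 0.2732 1.8215 0.5759 0 1.0741 0.9184 1.14 0.001049 0.002081 0.0925 0.8541 0.9394 3.1623 0.00008329 0.0003313 B (by norm_num) hs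
    (mloN7 B.P (x1 := 1.57) (by linarith) (by norm_num) (by norm_num)) (mhiN7 B.P (x2 := 1.64) (by linarith) (by norm_num) (by norm_num)) hY g1_nn
    (g1_le (by linarith) h2 (by norm_num)) (ch1 (a := (-2)) (by norm_num) (sqL h2 h4 (by norm_num) (by norm_num)) (by norm_num) h1 h2 (by norm_num) (by norm_num))
    (by norm_num) (by norm_num) (by norm_num) (by norm_num) rfl rfl (by norm_num) rfl rfl rfl (by norm_num) (by norm_num) (by norm_num) (by norm_num) (by norm_num) (by norm_num) (by norm_num) (by norm_num) (by norm_num) (by norm_num) (by norm_num) (by norm_num) (by norm_num) (by norm_num) (by norm_num) (by norm_num) (by norm_num) (by norm_num)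
    (expn 6 0.8727 (by norm_num) (by norm_num) (by norm_num) (by norm_num)) (by norm_num) (by norm_num) (by norm_num) (by norm_num) (by norm_num) (by norm_num) (by norm_num) (by norm_num) (expn 9 0.394 (by norm_num) (by norm_num) (by norm_num) (by norm_num)) (by norm_num) (by norm_num)) (by norm_num) hY (by norm_num)

theorem b7_3_Bm2 {β r h κ T t s u Y : ℝ} (B : Bx 0.48 0.58 0.4341 0.3901 10 0.058 6.0287 β r h κ T) (hs : t + κ = s * h)
    (h1 : 0.36 ≤ u) (h2 : u ≤ 0.43) (h3 : u ≤ s) (h4 : s ≤ u + 0)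
    (hY : eN r κ * (0.9184 * Real.exp (-(T * (1 / 2 * u ^ 2)))) ≤ Y) :
    ‖Xf β r h t (-2)‖ ≤ 0.00036125551 * Y := by
  refine leE (cL7 (-3) 0.6 0.4606 2.3068 2.3697 _ _ _ _ _ 0.2325 1.8964 0.5759 0 1.171 0.9184 2.9497 0.00000002688 0.00000005551 0.0925 0.8541 0.9394 3.1623 0.00008329 0.0003612 B (by norm_num) hs
    (mloN7 B.P (x1 := 2.57) (by linarith) (by norm_num) (by norm_num)) (mhiN7 B.P (x2 := 2.64) (by linarith) (by norm_num) (by norm_num)) hY g1_nn
    (g1_le (by linarith) h2 (by norm_num)) (ch1 (a := (-3)) (by norm_num) (sqL h2 h4 (by norm_num) (by norm_num)) (by norm_num) h1 h2 (by norm_num) (by norm_num))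
    (by norm_num) (by norm_num) (by norm_num) (by norm_num) rfl rfl (by norm_num) rfl rfl rfl (by norm_num) (by norm_num) (by norm_num) (by norm_num) (by norm_num) (by norm_num) (by norm_num) (by norm_num) (by norm_num) (by norm_num) (by norm_num) (by norm_num) (by norm_num) (by norm_num) (by norm_num) (by norm_num) (by norm_num) (by norm_num)
    (expn 16 1.5 (by norm_num) (by norm_num) (by norm_num) (by norm_num)) (by norm_num) (by norm_num) (by norm_num) (by norm_num) (by norm_num) (by norm_num) (by norm_num) (by norm_num) (expn 9 0.394 (by norm_num) (by norm_num) (by norm_num) (by norm_num)) (by norm_num) (by norm_num)) (by norm_num) hY (by norm_num)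

theorem b7_3_Bm3 {β r h κ T t s u Y : ℝ} (B : Bx 0.48 0.58 0.4341 0.3901 10 0.058 6.0287 β r h κ T) (hs : t + κ = s * h)
    (h1 : 0.36 ≤ u) (h2 : u ≤ 0.43) (h3 : u ≤ s) (h4 : s ≤ u + 0)
    (hY : eN r κ * (0.9184 * Real.exp (-(T * (1 / 2 * u ^ 2)))) ≤ Y) :
    ‖Xf β r h t (-3)‖ ≤ 0.0005456 * Y := by
  refine cU7 1 (-4) 2.4359 3.0788 0.02 0.5759 0.02 1.4488 0.9184 0.0925 0.8541 0.9394 3.1623 0.0001017 0.0005456 B (by norm_num) hs
    (full7 B.P B.hk2 (x1 := 3.36) (by push_cast; linarith) (by norm_num) (by norm_num)) (mhi7 B.P (x2 := 3.43) (by push_cast; linarith) (by norm_num) (by norm_num)) hY g1_nn (g1_le (by linarith) h2 (by norm_num))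
    (by norm_num) (by norm_num) (by norm_num) (by norm_num) (by norm_num) (by norm_num) (by norm_num) (by norm_num) (by norm_num) (by norm_num) (by norm_num) (by norm_num) (by norm_num) (by norm_num) (by norm_num) (by norm_num) (by norm_num) (by norm_num) (by norm_num)
    (expn 9 0.194 (by norm_num) (by norm_num) (by norm_num) (by norm_num)) (by norm_num) (by norm_num)

private theorem b7_3_Co_y {κ t : ℝ} (h : DomR κ t) (hk1 : 0.48 ≤ κ) (hk2 : κ ≤ 0.58) (ht1 : 0.5295 ≤ t + κ) (ht2 : t + κ ≤ 0.6732) :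
    0.165 ≤ sy κ t ∧ sy κ t ≤ 0.224 := by
  have hy1 : 0.165 ≤ sy κ t := syR_ge h 0.48 0.58 0.5295 0.165 1.17939 1.1794 0.33551 0.40542 hk1 hk2 (by linarith) (by norm_num) (by norm_num)
    (expn_ge (by norm_num) (by norm_num)) (expn_le (by norm_num) (by norm_num) (by norm_num)) (by norm_num)
    (by norm_num) (by norm_num) (by norm_num) (by norm_num) (by norm_num) (by norm_num)
  have hy2 : sy κ t ≤ 0.224 := syR_le h 0.48 0.58 0.6732 0.224 1.25107 0.458 0.48317 0.58384 hk1 hk2 (by linarith) (by norm_num) (by norm_num)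
    (expn_ge (by norm_num) (by norm_num)) (by norm_num) (by norm_num) (Or.inr ((mul_le_mul_of_nonneg_left (expn_le (E := 1.25108) (by norm_num) (by norm_num) (by norm_num)) (by norm_num)).trans (by norm_num))) (by norm_num) (by norm_num) (by norm_num)
  exact ⟨by linarith, by linarith⟩

theorem b7_3_Co {β r h κ T t s u Y : ℝ} (B : Bx 0.48 0.58 0.4341 0.3901 10 0.058 6.0287 β r h κ T) (hs : t + κ = s * h)
    (h1 : 0.59 ≤ u) (h2 : u ≤ 0.75) (h3 : u ≤ s) (h4 : s ≤ u + 0)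
    (hY : eN r κ * (0.9137 * Real.exp (-(T * (0.6006 * (1 - u) ^ 2)))) ≤ Y) :
    ‖Xf β r h t 1‖ ≤ 0.8504 * Y := by
  obtain ⟨t', ht'⟩ : ∃ t', t' = t + 0 * h := ⟨_, rfl⟩
  have hτ : t' + κ = (s + 0) * h := by rw [ht']; linear_combination hs
  have a1 : 0.5295 ≤ t' + κ := by rw [hτ]; exact mlo7 B.P (x1 := 0.59) (by linarith) (by norm_num) (by norm_num)
  have a2 : t' + κ ≤ 0.6732 := by rw [hτ]; exact mhi7 B.P (x2 := 0.75) (by linarith) (by norm_num) (by norm_num)
  have hk := B.hk1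
  have hk' := B.P.hκ1
  have hD : DomR κ t' := dom7 B.P.κ0 (by linarith) (by linarith)
  have hy := b7_3_Co_y hD B.hk1 B.hk2 a1 a2
  have hJ : ‖HH β (sg κ t') - 1‖ ≤ 0.035 := by
    rcases le_total (t' + κ) 0.61 with hc | hc
    · exact (JB7_k1a hD B.P.hβ (by linarith) B.P.hκ1 (by linarith) (by linarith) B.P.βκ B.P.βR).trans (by norm_num)
    · exact JB7_k1b hD B.P.hβ (by linarith) B.P.hκ1 (by linarith) (by linarith) B.P.βκ B.P.βR
  have hd := Dlo7 hD (0.48 ^ 2) (0.58 ^ 2) 1.1761 0.165 0.224 0.165 0.71892 hy.1 hy.2 (pow_le_pow_left₀ (by norm_num) B.hk1 2) (pow_le_pow_left₀ B.P.κ0.le B.hk2 2)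
      (by rw [show (-2 * 0.165 : ℝ) = -0.33 by norm_num]; exact expm_ge (by norm_num) (by norm_num) (by norm_num) (by norm_num)) (by norm_num) (by norm_num) (by norm_num) (by norm_num) (by norm_num)
  have hc : sE κ t' ≤ 1 - 0.4076 * (t' + κ) ^ 2 / (1 + κ ^ 2) := VR7 0.73 0.4076 0.5295 0.6732 _ _ _ _ _ B hD a1 a2 (by norm_num) (by norm_num) (by norm_num) (by norm_num) rfl rfl (by norm_num) rfl rfl rfl (by norm_num) (by norm_num)
  exact up7 0 0.035 0.4076 1.1761 0.9939 0.9137 0.0409 0.7817 0.8504 B (by norm_num) ht' hs hD (by norm_num) hJ hc hd (by norm_num) (by norm_num) (by norm_num) hY (by norm_num)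
    (ch0 (a := 0) (by norm_num) (sqR h1 h3 (by norm_num)) (by norm_num) h1 h2 (by norm_num) (by norm_num)) (by norm_num)
    (expn 0 0.2465 (by norm_num) (by norm_num) (by norm_num) (by norm_num)) (by norm_num) (by norm_num)

theorem b7_3_C2R {β r h κ T t s u Y : ℝ} (B : Bx 0.48 0.58 0.4341 0.3901 10 0.058 6.0287 β r h κ T) (hs : t + κ = s * h)
    (h1 : 0.59 ≤ u) (h2 : u ≤ 0.75) (h3 : u ≤ s) (h4 : s ≤ u + 0) (htp : t + 1 * h ≤ Real.pi / 2)
    (hY : eN r κ * (0.9137 * Real.exp (-(T * (0.6006 * (1 - u) ^ 2)))) ≤ Y) :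
    ‖Xf β r h t 2‖ ≤ 0.07392 * Y := by
  refine leE (cR7 1 0.42 0.3031 1.4271 1.5708 _ _ _ _ _ 0.0479 2.8148 0.5759 0.3881 1.1376 0.9137 0.6653 0.01812 0.05583 0.101 0.8498 0.9338 3.1623 0.004272 0.01809 B (by norm_num) hs htp
    (mlo7 B.P (x1 := 1.59) (by linarith) (by norm_num) (by norm_num)) (mhi7 B.P (x2 := 1.75) (by linarith) (by norm_num) (by norm_num)) hY (g0_nn (by norm_num))
    (g0_le (by norm_num) h1 h2 (by norm_num) (by norm_num)) (ch0 (a := 1) (by norm_num) (sqR h1 h3 (by norm_num)) (by norm_num) h1 h2 (by norm_num) (by norm_num))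
    (by norm_num) (by norm_num) (by norm_num) (by norm_num) rfl rfl (by norm_num) rfl rfl rfl (by norm_num) (by norm_num) (by norm_num) (by norm_num) (by norm_num) (by norm_num) (by norm_num) (by norm_num) (by norm_num) (by norm_num) (by norm_num) (by norm_num) (by norm_num) (by norm_num) (by norm_num) (by norm_num) (by norm_num) (by norm_num) (by norm_num)
    (expn 4 0.0108 (by norm_num) (by norm_num) (by norm_num) (by norm_num)) (by norm_num) (by norm_num) (by norm_num) (by norm_num) (by norm_num) (by norm_num) (by norm_num) (by norm_num) (expn 5 0.457 (by norm_num) (by norm_num) (by norm_num) (by norm_num)) (by norm_num) (by norm_num)) (by norm_num) hY (by norm_num)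

theorem b7_3_C2 {β r h κ T t s u Y : ℝ} (B : Bx 0.48 0.58 0.4341 0.3901 10 0.058 6.0287 β r h κ T) (hs : t + κ = s * h)
    (h1 : 0.59 ≤ u) (h2 : u ≤ 0.75) (h3 : u ≤ s) (h4 : s ≤ u + 0)
    (hY : eN r κ * (0.9137 * Real.exp (-(T * (0.6006 * (1 - u) ^ 2)))) ≤ Y) :
    ‖Xf β r h t 2‖ ≤ 0.07392 * Y := by
  have hp : t + 1 * h ≤ Real.pi / 2 := by
    have e : t + 1 * h = (s + 1) * h - κ := by linear_combination hs
    have := mhi7 B.P (x := s + 1) (x2 := 1.75) (by linarith) (by norm_num) (le_refl _)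
    have := B.hk1
    have := Real.pi_gt_d6
    rw [e]
    norm_num at *
    linarith
  exact leE (b7_3_C2R B hs h1 h2 h3 h4 hp hY) (by norm_num) hY (by norm_num)

theorem b7_3_C3U {β r h κ T t s u Y : ℝ} (B : Bx 0.48 0.58 0.4341 0.3901 10 0.058 6.0287 β r h κ T) (hs : t + κ = s * h)
    (h1 : 0.59 ≤ u) (h2 : u ≤ 0.75) (h3 : u ≤ s) (h4 : s ≤ u + 0)(htp : Real.pi / 2 ≤ t + 2 * h)
    (hY : eN r κ * (0.9137 * Real.exp (-(T * (0.6006 * (1 - u) ^ 2)))) ≤ Y) :
    ‖Xf β r h t (3)‖ ≤ 0.001122 * Y := by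
  refine cU7 0 (2) 1.5707 2.4684 0.03 0.5759 0.03 2.534 0.9137 0.101 0.8498 0.9338 3.1623 0.0001189 0.001122 B (by norm_num) hs
    (half7 hs htp (by norm_num)) (mhi7 B.P (x2 := 2.75) (by push_cast; linarith) (by norm_num) (by norm_num)) hY (g0_nn (by norm_num)) (g0_le (by norm_num) h1 h2 (by norm_num) (by norm_num))
    (by norm_num) (by norm_num) (by norm_num) (by norm_num) (by norm_num) (by norm_num) (by norm_num) (by norm_num) (by norm_num) (by norm_num) (by norm_num) (by norm_num) (by norm_num) (by norm_num) (by norm_num) (by norm_num) (by norm_num) (by norm_num) (by norm_num)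
    (expn 9 0.038 (by norm_num) (by norm_num) (by norm_num) (by norm_num)) (by norm_num) (by norm_num)

theorem b7_3_C3 {β r h κ T t s u Y : ℝ} (B : Bx 0.48 0.58 0.4341 0.3901 10 0.058 6.0287 β r h κ T) (hs : t + κ = s * h)
    (h1 : 0.59 ≤ u) (h2 : u ≤ 0.75) (h3 : u ≤ s) (h4 : s ≤ u + 0)
    (hY : eN r κ * (0.9137 * Real.exp (-(T * (0.6006 * (1 - u) ^ 2)))) ≤ Y) :
    ‖Xf β r h t 3‖ ≤ 0.001122 * Y := by
  have hp : Real.pi / 2 ≤ t + 2 * h := by
    have e : t + 2 * h = (s + 2) * h - κ := by linear_combination hs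
    have := mlo7 B.P (x := s + 2) (x1 := 2.59) (by linarith) (by norm_num) (le_refl _)
    have := B.hk2
    have := Real.pi_lt_d6
    rw [e]
    norm_num at *
    linarith
  exact leE (b7_3_C3U B hs h1 h2 h3 h4 hp hY) (by norm_num) hY (by norm_num)

theorem b7_3_Cm1 {β r h κ T t s u Y : ℝ} (B : Bx 0.48 0.58 0.4341 0.3901 10 0.058 6.0287 β r h κ T) (hs : t + κ = s * h)
    (h1 : 0.59 ≤ u) (h2 : u ≤ 0.75) (h3 : u ≤ s) (h4 : s ≤ u + 0)
    (hY : eN r κ * (0.9137 * Real.exp (-(T * (0.6006 * (1 - u) ^ 2)))) ≤ Y) :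
    ‖Xf β r h t (-1)‖ ≤ 0.0097157 * Y := by
  refine leE (cL7 (-2) 1.04 0.6006 1.1219 1.2657 _ _ _ _ _ 0.209 1.9476 0.5759 0 1.1373 0.9137 0.9009 0.004383 0.009343 0.101 0.8498 0.9338 3.1623 0.00008806 0.0003727 B (by norm_num) hs
    (mloN7 B.P (x1 := 1.25) (by linarith) (by norm_num) (by norm_num)) (mhiN7 B.P (x2 := 1.41) (by linarith) (by norm_num) (by norm_num)) hY (g0_nn (by norm_num))
    (g0_le (by norm_num) h1 h2 (by norm_num) (by norm_num)) (ch0 (a := (-2)) (by norm_num) (sqL h2 h4 (by norm_num) (by norm_num)) (by norm_num) h1 h2 (by norm_num) (by norm_num))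
    (by norm_num) (by norm_num) (by norm_num) (by norm_num) rfl rfl (by norm_num) rfl rfl rfl (by norm_num) (by norm_num) (by norm_num) (by norm_num) (by norm_num) (by norm_num) (by norm_num) (by norm_num) (by norm_num) (by norm_num) (by norm_num) (by norm_num) (by norm_num) (by norm_num) (by norm_num) (by norm_num) (by norm_num) (by norm_num)
    (expn 5 0.4312 (by norm_num) (by norm_num) (by norm_num) (by norm_num)) (by norm_num) (by norm_num) (by norm_num) (by norm_num) (by norm_num) (by norm_num) (by norm_num) (by norm_num) (expn 9 0.338 (by norm_num) (by norm_num) (by norm_num) (by norm_num)) (by norm_num) (by norm_num)) (by norm_num) hY (by norm_num)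

theorem b7_3_Cm2 {β r h κ T t s u Y : ℝ} (B : Bx 0.48 0.58 0.4341 0.3901 10 0.058 6.0287 β r h κ T) (hs : t + κ = s * h)
    (h1 : 0.59 ≤ u) (h2 : u ≤ 0.75) (h3 : u ≤ s) (h4 : s ≤ u + 0)
    (hY : eN r κ * (0.9137 * Real.exp (-(T * (0.6006 * (1 - u) ^ 2)))) ≤ Y) :
    ‖Xf β r h t (-2)‖ ≤ 0.000375343 * Y := by
  refine leE (cL7 (-3) 0.6 0.4563 2.0195 2.1633 _ _ _ _ _ 0.2336 1.8942 0.5759 0 1.1381 0.9137 2.2724 0.00000113 0.000002343 0.101 0.8498 0.9338 3.1623 0.00008806 0.000373 B (by norm_num) hs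
    (mloN7 B.P (x1 := 2.25) (by linarith) (by norm_num) (by norm_num)) (mhiN7 B.P (x2 := 2.41) (by linarith) (by norm_num) (by norm_num)) hY (g0_nn (by norm_num))
    (g0_le (by norm_num) h1 h2 (by norm_num) (by norm_num)) (ch0 (a := (-3)) (by norm_num) (sqL h2 h4 (by norm_num) (by norm_num)) (by norm_num) h1 h2 (by norm_num) (by norm_num))
    (by norm_num) (by norm_num) (by norm_num) (by norm_num) rfl rfl (by norm_num) rfl rfl rfl (by norm_num) (by norm_num) (by norm_num) (by norm_num) (by norm_num) (by norm_num) (by norm_num) (by norm_num) (by norm_num) (by norm_num) (by norm_num) (by norm_num) (by norm_num) (by norm_num) (by norm_num) (by norm_num) (by norm_num) (by norm_num)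
    (expn 13 0.6996 (by norm_num) (by norm_num) (by norm_num) (by norm_num)) (by norm_num) (by norm_num) (by norm_num) (by norm_num) (by norm_num) (by norm_num) (by norm_num) (by norm_num) (expn 9 0.338 (by norm_num) (by norm_num) (by norm_num) (by norm_num)) (by norm_num) (by norm_num)) (by norm_num) hY (by norm_num)

theorem b7_3_Cm3 {β r h κ T t s u Y : ℝ} (B : Bx 0.48 0.58 0.4341 0.3901 10 0.058 6.0287 β r h κ T) (hs : t + κ = s * h)
    (h1 : 0.59 ≤ u) (h2 : u ≤ 0.75) (h3 : u ≤ s) (h4 : s ≤ u + 0)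
    (hY : eN r κ * (0.9137 * Real.exp (-(T * (0.6006 * (1 - u) ^ 2)))) ≤ Y) :
    ‖Xf β r h t (-3)‖ ≤ 0.0005773 * Y := by
  refine cU7 1 (-4) 2.6423 3.366 0.02 0.5759 0.02 1.4417 0.9137 0.101 0.8498 0.9338 3.1623 0.0001076 0.0005773 B (by norm_num) hs
    (full7 B.P B.hk2 (x1 := 3.59) (by push_cast; linarith) (by norm_num) (by norm_num)) (mhi7 B.P (x2 := 3.75) (by push_cast; linarith) (by norm_num) (by norm_num)) hY (g0_nn (by norm_num)) (g0_le (by norm_num) h1 h2 (by norm_num) (by norm_num))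
    (by norm_num) (by norm_num) (by norm_num) (by norm_num) (by norm_num) (by norm_num) (by norm_num) (by norm_num) (by norm_num) (by norm_num) (by norm_num) (by norm_num) (by norm_num) (by norm_num) (by norm_num) (by norm_num) (by norm_num) (by norm_num) (by norm_num)
    (expn 9 0.138 (by norm_num) (by norm_num) (by norm_num) (by norm_num)) (by norm_num) (by norm_num)

private theorem b7_3_Do_y {κ t : ℝ} (h : DomR κ t) (hk1 : 0.48 ≤ κ) (hk2 : κ ≤ 0.58) (ht1 : 0.6731 ≤ t + κ) (ht2 : t + κ ≤ 0.9425) :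
    0.198 ≤ sy κ t ∧ sy κ t ≤ 0.285 := by
  have hy1 : 0.198 ≤ sy κ t := syR_ge h 0.48 0.58 0.6731 0.198 1.21896 1.21897 0.41612 0.50283 hk1 hk2 (by linarith) (by norm_num) (by norm_num)
    (expn_ge (by norm_num) (by norm_num)) (expn_le (by norm_num) (by norm_num) (by norm_num)) (by norm_num)
    (by norm_num) (by norm_num) (by norm_num) (by norm_num) (by norm_num) (by norm_num)
  have hy2 : sy κ t ≤ 0.285 := syR_le h 0.48 0.58 0.9425 0.285 1.32976 0.6193 0.65341 0.78956 hk1 hk2 (by linarith) (by norm_num) (by norm_num)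
    (expn_ge (by norm_num) (by norm_num)) (by norm_num) (by norm_num) (Or.inr ((mul_le_mul_of_nonneg_left (expn_le (E := 1.32977) (by norm_num) (by norm_num) (by norm_num)) (by norm_num)).trans (by norm_num))) (by norm_num) (by norm_num) (by norm_num)
  exact ⟨by linarith, by linarith⟩

theorem b7_3_Do {β r h κ T t s u Y : ℝ} (B : Bx 0.48 0.58 0.4341 0.3901 10 0.058 6.0287 β r h κ T) (hs : t + κ = s * h)
    (h1 : 0.75 ≤ u) (h2 : u ≤ 1.05) (h3 : u ≤ s) (h4 : s ≤ u + 0)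
    (hY : eN r κ * (0.9137 * Real.exp (-(T * (0.6006 * (1 - u) ^ 2)))) ≤ Y) :
    ‖Xf β r h t 1‖ ≤ 0.3768 * Y := by
  obtain ⟨t', ht'⟩ : ∃ t', t' = t + 0 * h := ⟨_, rfl⟩
  have hτ : t' + κ = (s + 0) * h := by rw [ht']; linear_combination hs
  have a1 : 0.6731 ≤ t' + κ := by rw [hτ]; exact mlo7 B.P (x1 := 0.75) (by linarith) (by norm_num) (by norm_num)
  have a2 : t' + κ ≤ 0.9425 := by rw [hτ]; exact mhi7 B.P (x2 := 1.05) (by linarith) (by norm_num) (by norm_num)
  have hk := B.hk1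
  have hk' := B.P.hκ1
  have hD : DomR κ t' := dom7 B.P.κ0 (by linarith) (by linarith)
  have hy := b7_3_Do_y hD B.hk1 B.hk2 a1 a2
  have hJ : ‖HH β (sg κ t') - 1‖ ≤ 0.035 := JB7_k1b hD B.P.hβ (by linarith) B.P.hκ1 (by linarith) (by linarith) B.P.βκ B.P.βR
  have hd := Dlo7 hD (0.48 ^ 2) (0.58 ^ 2) 1.214 0.198 0.285 0.198 0.673 hy.1 hy.2 (pow_le_pow_left₀ (by norm_num) B.hk1 2) (pow_le_pow_left₀ B.P.κ0.le B.hk2 2)
      (by rw [show (-2 * 0.198 : ℝ) = -0.396 by norm_num]; exact expm_ge (by norm_num) (by norm_num) (by norm_num) (by norm_num)) (by norm_num) (by norm_num) (by norm_num) (by norm_num) (by norm_num)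
  have hc : sE κ t' ≤ 1 - 0.3773 * (t' + κ) ^ 2 / (1 + κ ^ 2) := VR7 0.65 0.3773 0.6731 0.9425 _ _ _ _ _ B hD a1 a2 (by norm_num) (by norm_num) (by norm_num) (by norm_num) rfl rfl (by norm_num) rfl rfl rfl (by norm_num) (by norm_num)
  exact up7 0 0.035 0.3773 1.214 0.9861 0.9137 0.1746 0.3491 0.3768 B (by norm_num) ht' hs hD (by norm_num) hJ hc hd (by norm_num) (by norm_num) (by norm_num) hY (by norm_num)
    (ch0 (a := 0) (by norm_num) (sqR h1 h3 (by norm_num)) (by norm_num) h1 h2 (by norm_num) (by norm_num)) (by norm_num)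
    (expn 1 0.0526 (by norm_num) (by norm_num) (by norm_num) (by norm_num)) (by norm_num) (by norm_num)

theorem b7_3_D2R {β r h κ T t s u Y : ℝ} (B : Bx 0.48 0.58 0.4341 0.3901 10 0.058 6.0287 β r h κ T) (hs : t + κ = s * h)
    (h1 : 0.75 ≤ u) (h2 : u ≤ 1.05) (h3 : u ≤ s) (h4 : s ≤ u + 0) (htp : t + 1 * h ≤ Real.pi / 2)
    (hY : eN r κ * (0.9137 * Real.exp (-(T * (0.6006 * (1 - u) ^ 2)))) ≤ Y) :
    ‖Xf β r h t 2‖ ≤ 0.03051 * Y := by
  refine leE (cR7 1 0.38 0.2817 1.5707 1.8401 _ _ _ _ _ 0.0334 3.0804 0.5759 0.3297 1.1574 0.9137 0.8251 0.007037 0.02373 0.0376 0.8498 0.9753 3.1623 0.001574 0.00678 B (by norm_num) hs htp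
    (mlo7 B.P (x1 := 1.75) (by linarith) (by norm_num) (by norm_num)) (mhi7 B.P (x2 := 2.05) (by linarith) (by norm_num) (by norm_num)) hY (g0_nn (by norm_num))
    (g0_le (by norm_num) h1 h2 (by norm_num) (by norm_num)) (ch0 (a := 1) (by norm_num) (sqR h1 h3 (by norm_num)) (by norm_num) h1 h2 (by norm_num) (by norm_num))
    (by norm_num) (by norm_num) (by norm_num) (by norm_num) rfl rfl (by norm_num) rfl rfl rfl (by norm_num) (by norm_num) (by norm_num) (by norm_num) (by norm_num) (by norm_num) (by norm_num) (by norm_num) (by norm_num) (by norm_num) (by norm_num) (by norm_num) (by norm_num) (by norm_num) (by norm_num) (by norm_num) (by norm_num) (by norm_num) (by norm_num)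
    (expn 4 0.9742 (by norm_num) (by norm_num) (by norm_num) (by norm_num)) (by norm_num) (by norm_num) (by norm_num) (by norm_num) (by norm_num) (by norm_num) (by norm_num) (by norm_num) (expn 6 0.456 (by norm_num) (by norm_num) (by norm_num) (by norm_num)) (by norm_num) (by norm_num)) (by norm_num) hY (by norm_num)

theorem b7_3_D2 {β r h κ T t s u Y : ℝ} (B : Bx 0.48 0.58 0.4341 0.3901 10 0.058 6.0287 β r h κ T) (hs : t + κ = s * h)
    (h1 : 0.75 ≤ u) (h2 : u ≤ 1.05) (h3 : u ≤ s) (h4 : s ≤ u + 0)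
    (hY : eN r κ * (0.9137 * Real.exp (-(T * (0.6006 * (1 - u) ^ 2)))) ≤ Y) :
    ‖Xf β r h t 2‖ ≤ 0.03051 * Y := by
  have hp : t + 1 * h ≤ Real.pi / 2 := by
    have e : t + 1 * h = (s + 1) * h - κ := by linear_combination hs
    have := mhi7 B.P (x := s + 1) (x2 := 2.05) (by linarith) (by norm_num) (le_refl _)
    have := B.hk1
    have := Real.pi_gt_d6
    rw [e]
    norm_num at *
    linarith
  exact leE (b7_3_D2R B hs h1 h2 h3 h4 hp hY) (by norm_num) hY (by norm_num)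

theorem b7_3_D3U {β r h κ T t s u Y : ℝ} (B : Bx 0.48 0.58 0.4341 0.3901 10 0.058 6.0287 β r h κ T) (hs : t + κ = s * h)
    (h1 : 0.75 ≤ u) (h2 : u ≤ 1.05) (h3 : u ≤ s) (h4 : s ≤ u + 0)(htp : Real.pi / 2 ≤ t + 2 * h)
    (hY : eN r κ * (0.9137 * Real.exp (-(T * (0.6006 * (1 - u) ^ 2)))) ≤ Y) :
    ‖Xf β r h t (3)‖ ≤ 0.0007408 * Y := by
  refine cU7 0 (2) 1.5707 2.7377 0.03 0.5759 0.03 2.534 0.9137 0.0376 0.8498 0.9753 3.1623 0.00007856 0.0007408 B (by norm_num) hs
    (half7 hs htp (by norm_num)) (mhi7 B.P (x2 := 3.05) (by push_cast; linarith) (by norm_num) (by norm_num)) hY (g0_nn (by norm_num)) (g0_le (by norm_num) h1 h2 (by norm_num) (by norm_num))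
    (by norm_num) (by norm_num) (by norm_num) (by norm_num) (by norm_num) (by norm_num) (by norm_num) (by norm_num) (by norm_num) (by norm_num) (by norm_num) (by norm_num) (by norm_num) (by norm_num) (by norm_num) (by norm_num) (by norm_num) (by norm_num) (by norm_num)
    (expn 9 0.453 (by norm_num) (by norm_num) (by norm_num) (by norm_num)) (by norm_num) (by norm_num)

theorem b7_3_D3 {β r h κ T t s u Y : ℝ} (B : Bx 0.48 0.58 0.4341 0.3901 10 0.058 6.0287 β r h κ T) (hs : t + κ = s * h)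
    (h1 : 0.75 ≤ u) (h2 : u ≤ 1.05) (h3 : u ≤ s) (h4 : s ≤ u + 0)
    (hY : eN r κ * (0.9137 * Real.exp (-(T * (0.6006 * (1 - u) ^ 2)))) ≤ Y) :
    ‖Xf β r h t 3‖ ≤ 0.0007408 * Y := by
  have hp : Real.pi / 2 ≤ t + 2 * h := by
    have e : t + 2 * h = (s + 2) * h - κ := by linear_combination hs
    have := mlo7 B.P (x := s + 2) (x1 := 2.75) (by linarith) (by norm_num) (le_refl _)
    have := B.hk2
    have := Real.pi_lt_d6
    rw [e]
    norm_num at *
    linarith
  exact leE (b7_3_D3U B hs h1 h2 h3 h4 hp hY) (by norm_num) hY (by norm_num)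

theorem b7_3_Dm1 {β r h κ T t s u Y : ℝ} (B : Bx 0.48 0.58 0.4341 0.3901 10 0.058 6.0287 β r h κ T) (hs : t + κ = s * h)
    (h1 : 0.75 ≤ u) (h2 : u ≤ 1.05) (h3 : u ≤ s) (h4 : s ≤ u + 0)
    (hY : eN r κ * (0.9137 * Real.exp (-(T * (0.6006 * (1 - u) ^ 2)))) ≤ Y) :
    ‖Xf β r h t (-1)‖ ≤ 0.096903 * Y := by
  refine leE (cL7 (-2) 1.12 0.5851 0.8527 1.122 _ _ _ _ _ 0.1684 2.0557 0.5759 0.2432 1.1219 0.9137 0.5265 0.04184 0.09414 0.0376 0.8498 0.9753 3.1623 0.0006618 0.002763 B (by norm_num) hs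
    (mloN7 B.P (x1 := 0.95) (by linarith) (by norm_num) (by norm_num)) (mhiN7 B.P (x2 := 1.25) (by linarith) (by norm_num) (by norm_num)) hY (g0_nn (by norm_num))
    (g0_le (by norm_num) h1 h2 (by norm_num) (by norm_num)) (ch0 (a := (-2)) (by norm_num) (sqL h2 h4 (by norm_num) (by norm_num)) (by norm_num) h1 h2 (by norm_num) (by norm_num))
    (by norm_num) (by norm_num) (by norm_num) (by norm_num) rfl rfl (by norm_num) rfl rfl rfl (by norm_num) (by norm_num) (by norm_num) (by norm_num) (by norm_num) (by norm_num) (by norm_num) (by norm_num) (by norm_num) (by norm_num) (by norm_num) (by norm_num) (by norm_num) (by norm_num) (by norm_num) (by norm_num) (by norm_num) (by norm_num)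
    (expn 3 0.1741 (by norm_num) (by norm_num) (by norm_num) (by norm_num)) (by norm_num) (by norm_num) (by norm_num) (by norm_num) (by norm_num) (by norm_num) (by norm_num) (by norm_num) (expn 7 0.321 (by norm_num) (by norm_num) (by norm_num) (by norm_num)) (by norm_num) (by norm_num)) (by norm_num) hY (by norm_num)

theorem b7_3_Dm2 {β r h κ T t s u Y : ℝ} (B : Bx 0.48 0.58 0.4341 0.3901 10 0.058 6.0287 β r h κ T) (hs : t + κ = s * h)
    (h1 : 0.75 ≤ u) (h2 : u ≤ 1.05) (h3 : u ≤ s) (h4 : s ≤ u + 0)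
    (hY : eN r κ * (0.9137 * Real.exp (-(T * (0.6006 * (1 - u) ^ 2)))) ≤ Y) :
    ‖Xf β r h t (-2)‖ ≤ 0.00027314 * Y := by
  refine leE (cL7 (-3) 0.76 0.5298 1.7503 2.0196 _ _ _ _ _ 0.1496 2.1174 0.5759 0 1.1961 0.9137 2.013 0.000005365 0.00001244 0.0376 0.8498 0.9753 3.1623 0.00005856 0.0002607 B (by norm_num) hs
    (mloN7 B.P (x1 := 1.95) (by linarith) (by norm_num) (by norm_num)) (mhiN7 B.P (x2 := 2.25) (by linarith) (by norm_num) (by norm_num)) hY (g0_nn (by norm_num))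
    (g0_le (by norm_num) h1 h2 (by norm_num) (by norm_num)) (ch0 (a := (-3)) (by norm_num) (sqL h2 h4 (by norm_num) (by norm_num)) (by norm_num) h1 h2 (by norm_num) (by norm_num))
    (by norm_num) (by norm_num) (by norm_num) (by norm_num) rfl rfl (by norm_num) rfl rfl rfl (by norm_num) (by norm_num) (by norm_num) (by norm_num) (by norm_num) (by norm_num) (by norm_num) (by norm_num) (by norm_num) (by norm_num) (by norm_num) (by norm_num) (by norm_num) (by norm_num) (by norm_num) (by norm_num) (by norm_num) (by norm_num)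
    (expn 12 0.1357 (by norm_num) (by norm_num) (by norm_num) (by norm_num)) (by norm_num) (by norm_num) (by norm_num) (by norm_num) (by norm_num) (by norm_num) (by norm_num) (by norm_num) (expn 9 0.753 (by norm_num) (by norm_num) (by norm_num) (by norm_num)) (by norm_num) (by norm_num)) (by norm_num) hY (by norm_num)

theorem b7_3_Dm3 {β r h κ T t s u Y : ℝ} (B : Bx 0.48 0.58 0.4341 0.3901 10 0.058 6.0287 β r h κ T) (hs : t + κ = s * h)
    (h1 : 0.75 ≤ u) (h2 : u ≤ 1.05) (h3 : u ≤ s) (h4 : s ≤ u + 0)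
    (hY : eN r κ * (0.9137 * Real.exp (-(T * (0.6006 * (1 - u) ^ 2)))) ≤ Y) :
    ‖Xf β r h t (-3)‖ ≤ 0.0003809 * Y := by
  refine cU7 1 (-4) 2.7859 3.6353 0.02 0.5759 0.02 1.4381 0.9137 0.0376 0.8498 0.9753 3.1623 0.00007117 0.0003809 B (by norm_num) hs
    (full7 B.P B.hk2 (x1 := 3.75) (by push_cast; linarith) (by norm_num) (by norm_num)) (mhi7 B.P (x2 := 4.05) (by push_cast; linarith) (by norm_num) (by norm_num)) hY (g0_nn (by norm_num)) (g0_le (by norm_num) h1 h2 (by norm_num) (by norm_num))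
    (by norm_num) (by norm_num) (by norm_num) (by norm_num) (by norm_num) (by norm_num) (by norm_num) (by norm_num) (by norm_num) (by norm_num) (by norm_num) (by norm_num) (by norm_num) (by norm_num) (by norm_num) (by norm_num) (by norm_num) (by norm_num) (by norm_num)
    (expn 9 0.553 (by norm_num) (by norm_num) (by norm_num) (by norm_num)) (by norm_num) (by norm_num)

private theorem b7_3_yS1 {κ t : ℝ} (h : DomR κ t) (hk1 : 0.48 ≤ κ) (hk2 : κ ≤ 0.58) (ht1 : 0.3859 ≤ t + κ) (ht2 : t + κ ≤ 0.5296) :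
    0.127 ≤ sy κ t ∧ sy κ t ≤ 0.186 := by
  have hy1 : 0.127 ≤ sy κ t := syR_ge h 0.48 0.58 0.3859 0.127 1.13541 1.13542 0.24861 0.30042 hk1 hk2 (by linarith) (by norm_num) (by norm_num)
    (expn_ge (by norm_num) (by norm_num)) (expn_le (by norm_num) (by norm_num) (by norm_num)) (by norm_num)
    (by norm_num) (by norm_num) (by norm_num) (by norm_num) (by norm_num) (by norm_num)
  have hy2 : sy κ t ≤ 0.186 := syR_le h 0.48 0.58 0.5296 0.186 1.20442 0.3661 0.38624 0.46672 hk1 hk2 (by linarith) (by norm_num) (by norm_num)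
    (expn_ge (by norm_num) (by norm_num)) (by norm_num) (by norm_num) (Or.inr ((mul_le_mul_of_nonneg_left (expn_le (E := 1.20443) (by norm_num) (by norm_num) (by norm_num)) (by norm_num)).trans (by norm_num))) (by norm_num) (by norm_num) (by norm_num)
  exact ⟨by linarith, by linarith⟩

private theorem b7_3_yS0 {κ t : ℝ} (h : DomR κ t) (hk1 : 0.48 ≤ κ) (hk2 : κ ≤ 0.58) (ht1 : (-0.5117) ≤ t + κ) (ht2 : t + κ ≤ (-0.368)) :
    (-0.284) ≤ sy κ t ∧ sy κ t ≤ (-0.17) := by
  have hy1 : -0.284 ≤ sy κ t := syL_ge h 0.48 0.58 0.5117 0.284 0.75276 0.75277 0.3557 0.36859 0.44539 hk1 hk2 (by linarith) (by norm_num) (by norm_num) (by norm_num)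
    (expm_ge (by norm_num) (by norm_num) (by norm_num) (by norm_num)) (expm_le (by norm_num) (by norm_num) (by norm_num)) (by norm_num)
    (by norm_num) (by norm_num) (by norm_num) (by norm_num) (by norm_num) (by norm_num)
  have hy2 : sy κ t ≤ -0.17 := syL_le h 0.48 0.58 0.368 0.17 0.84366 0.84367 0.24727 0.2988 hk1 hk2 (by linarith) (by norm_num) (by norm_num) (by norm_num)
    (expm_ge (by norm_num) (by norm_num) (by norm_num) (by norm_num)) (expm_le (by norm_num) (by norm_num) (by norm_num)) (by norm_num)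
    (by norm_num) (by norm_num) (by norm_num) (by norm_num) (by norm_num) (by norm_num)
  exact ⟨by linarith, by linarith⟩

theorem b7_3_S {β r h κ T t s : ℝ} (B : Bx 0.48 0.58 0.4341 0.3901 10 0.058 6.0287 β r h κ T) (hs : t + κ = s * h)
    (h1 : 0.43 ≤ s) (h2 : s ≤ 0.59) :
    ‖Ld β r h t 0‖ ≤ r * 1.32844 + 0.9172 ∧ ‖Ld β r h t 1‖ ≤ r * 0.88074 + 0.2912 ∧
      T * 0.9332 - (0.1154 + 0.5017 + 0 + 0.4217) ≤ (Ld β r h t 1 - Ld β r h t 0).im := by
  have a1 : 0.3859 ≤ t + κ := by rw [hs]; exact mlo7 B.P h1 (by norm_num) (by norm_num)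
  have a2 : t + κ ≤ 0.5296 := by rw [hs]; exact mhi7 B.P h2 (by norm_num) (by norm_num)
  have hτ : t - h + κ = (s + (-1)) * h := by linear_combination hs
  have b1 : (-0.5117) ≤ t - h + κ := by rw [hτ]; have := mhiN7 B.P (x := s + (-1)) (x2 := 0.57) (τ2 := 0.5117) (by linarith) (by norm_num) (by norm_num); linarith
  have b2 : t - h + κ ≤ (-0.368) := by rw [hτ]; have := mloN7 B.P (x := s + (-1)) (x1 := 0.41) (τ1 := 0.368) (by linarith) (by norm_num) (by norm_num); linarith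
  have hk := B.hk1
  have hk2 := B.hk2
  have hk' := B.P.hκ1
  have hD1 : DomR κ t := dom7 B.P.κ0 (by linarith) (by linarith)
  have hD0 : DomR κ (t - h) := dom7 B.P.κ0 (by linarith) (by linarith)
  have hy1 := b7_3_yS1 hD1 B.hk1 B.hk2 a1 a2
  have hy0 := b7_3_yS0 hD0 B.hk1 B.hk2 b1 b2
  have hd1 := Dlo7 hD1 (0.48 ^ 2) (0.58 ^ 2) 1.1335 0.127 0.186 0.127 0.77569 hy1.1 hy1.2 (pow_le_pow_left₀ (by norm_num) B.hk1 2) (pow_le_pow_left₀ B.P.κ0.le B.hk2 2)
      (by rw [show (-2 * 0.127 : ℝ) = -0.254 by norm_num]; exact expm_ge (by norm_num) (by norm_num) (by norm_num) (by norm_num)) (by norm_num) (by norm_num) (by norm_num) (by norm_num) (by norm_num)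
  have hd0 := Dlo7 hD0 (0.48 ^ 2) (0.58 ^ 2) 0.6815 (-0.284) (-0.17) (-0.284) 1.76472 hy0.1 hy0.2 (pow_le_pow_left₀ (by norm_num) B.hk1 2) (pow_le_pow_left₀ B.P.κ0.le B.hk2 2)
      (by rw [show (-2 * (-0.284) : ℝ) = 0.568 by norm_num]; exact expn_ge (by norm_num) (by norm_num)) (by norm_num) (by norm_num) (by norm_num) (by norm_num) (by norm_num)
  have hJ1 := T7S1b hD1 B.P.hβ (by linarith) (by linarith) (by linarith) (by linarith) B.P.βκ B.P.βR
  have hJ0 := T7S0_3 hD0 B.P.hβ (by linarith) (by linarith) (by linarith) (by linarith) B.P.βκ B.P.βR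
  obtain ⟨m1, n1⟩ := copy7 (t := t) (t' := t) (k := 1) 0.48 0.58 1.1335 0.127 0.88074 0.7758 0.4151 0.8468 0.04 0.15 0.1154 0.2912 B.P (by push_cast; ring) hD1 B.hk1 B.hk2 (by norm_num) (by norm_num) (by norm_num) (by norm_num) hJ1
    hy1.1 (by norm_num) hd1 (by norm_num) (expm_le (by norm_num) (by norm_num) (by norm_num)) (by norm_num) (by norm_num) (by norm_num) (by norm_num) (by norm_num) (by norm_num) (by norm_num) (by norm_num)
  obtain ⟨m0, n0⟩ := copy7 (t := t) (t' := t - h) (k := 0) 0.48 0.58 0.6815 (-0.284) 1.32844 1.7648 0.7608 1.0921 0.09 0.15 0.5017 0.9172 B.P (by push_cast; ring) hD0 B.hk1 B.hk2 (by norm_num) (by norm_num) (by norm_num) (by norm_num) hJ0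
    hy0.1 (by norm_num) hd0 (by norm_num) (by rw [neg_neg]; exact expn_le (by norm_num) (by norm_num) (by norm_num)) (by norm_num) (by norm_num) (by norm_num) (by norm_num) (by norm_num) (by norm_num) (by norm_num) (by norm_num)
  refine ⟨m0, m1, ?_⟩
  have q1 := corr1_ge hD1 0.48 0.58 1.1335 0 B.hk1 B.hk2 (by norm_num) (by linarith) hd1 (by norm_num) (by norm_num) (Or.inl (by norm_num))
  have q0 := corr0_le hD0 0.48 0.58 0.6815 1.32844 0.4217 B.hk1 B.hk2 (by norm_num) (by linarith) hd0 (by norm_num) (by norm_num)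
    ((Real.exp_le_exp.2 (by linarith)).trans (show Real.exp (-(-0.284)) ≤ 1.32844 from (by rw [neg_neg]; exact expn_le (by norm_num) (by norm_num) (by norm_num)))) (Or.inr (by norm_num))
  exact slope7 0.77 0.935 0.9332 0.43 0.59 0.1154 0.5017 0 0.4217 B.P hs h1 h2 (pR_060 hD1 (by linarith) (by linarith) (by linarith)) (pL_060 hD0 hk' (by linarith) (by linarith)) n1 n0 q1 q0
    (by norm_num) (by norm_num) (by norm_num)

theorem boxb7_3 {p : ℤ} (hp : IsCoprime (7 : ℤ) p) {β r h κ T : ℝ} (P : Q7 β r h κ T) (hk1 : 0.48 ≤ κ) (hk2 : κ ≤ 0.58) :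
    Circ (2 * Real.pi * p / (7 : ℕ) + β) r := by
  have B : Bx 0.48 0.58 0.4341 0.3901 10 0.058 6.0287 β r h κ T :=
    { P := P, hk1 := hk1, hk2 := hk2, hψ := (psi_lo P.κ0.le hk2 (by norm_num)).trans (by norm_num), hψ1 := le_trans (by norm_num) (psi1_lo (k1 := 0.48) (by norm_num) hk1 (by linarith)), hR0 := P.hr.trans' (by norm_num), hβ0 := by have := P.βκ; linarith, hT0 := P.T8 hk2 (by norm_num) (by norm_num) }
  have hT := B.hT0
  have hr := P.r_le (ν := 1.6588) hk2 (by norm_num)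
  refine fin7 hp P (slo := 0.43) (shi := 0.59) (bb := 0.0826) (ℓ1 := 0.9184) (ℓ0 := 0.9137) (C0 := 0.6006) (e2 := 0.03298) (e3 := 0.001806) (f1 := 0.0036996) (g1 := 0.0079302) (f2 := 0.000710727) (f3 := 0.001075)
    (a := 1.06) (m := T * 0.9332 - (1.0388)) (η := 0.0403) (Λ0 := r * 1.32844 + 0.9172) (Λ1 := r * 0.88074 + 0.2912) (S1 := 0.1083)
    (by norm_num) (by norm_num) (by linarith) (by norm_num) (by norm_num) (by norm_num) (by norm_num)
    ?_ ?_ ?_ ?_ ?_ ?_ ?_ ?_ ?_ ?_ ?_ ?_ ?_ (by norm_num) (by norm_num) (by norm_num) ?_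
  · intro t s hs h1 h2
    exact b7_3_L1 B hs (by linarith) h2
  · intro t s hs h1 h2
    exact b7_3_L0 B hs h1 (by linarith)
  · intro t s u Y hs h1 h2 h3 h4 hY
    have hY' : eN r κ * (0.9184 * Real.exp (-(T * (1 / 2 * u ^ 2)))) ≤ Y := hY
    rcases le_total u 0.475 with hc | hc
    · exact leE (b7_3_W2a B hs h1 hc h3 h4 hY') (by norm_num) hY' (by norm_num)
    · exact leE (b7_3_W2b B hs hc h2 h3 h4 hY') (by norm_num) hY' (by norm_num)
  · intro t s u Y hs h1 h2 h3 h4 hY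
    exact b7_3_W3 B hs h1 h2 h3 h4 hY
  · intro t s u Y hs h1 h2 h3 h4 hY
    exact b7_3_Wm1 B hs h1 h2 h3 h4 hY
  · intro t s u Y hs h1 h2 h3 h4 hY
    exact b7_3_Wm1p B hs h1 h2 h3 h4 hY
  · intro t s u Y hs h1 h2 h3 h4 hY
    exact b7_3_Wm2 B hs h1 h2 h3 h4 hY
  · intro t s u Y hs h1 h2 h3 h4 hY
    exact b7_3_Wm3 B hs h1 h2 h3 h4 hY
  · intro t s hs h1 h2
    have hY := b7_3_L1 B hs (by linarith) (by linarith)
    have hYp := lt_of_lt_of_le (mul_pos (eN_pos r κ) (mul_pos (by norm_num : (0 : ℝ) < 0.9184) (Real.exp_pos _))) hY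
    rcases le_total s 0.36 with hc | hc
    · have x0 := b7_3_Ao B hs h1 hc le_rfl (by linarith) hY
      have x2 := b7_3_A2 B hs h1 hc le_rfl (by linarith) hY
      have x3 := b7_3_A3 B hs h1 hc le_rfl (by linarith) hY
      have xm1 := b7_3_Am1 B hs h1 hc le_rfl (by linarith) hY
      have xm2 := b7_3_Am2 B hs h1 hc le_rfl (by linarith) hY
      have xm3 := b7_3_Am3 B hs h1 hc le_rfl (by linarith) hY
      linarith
    · have x0 := b7_3_Bo B hs hc h2 le_rfl (by linarith) hY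
      have x2 := b7_3_B2 B hs hc h2 le_rfl (by linarith) hY
      have x3 := b7_3_B3 B hs hc h2 le_rfl (by linarith) hY
      have xm1 := b7_3_Bm1 B hs hc h2 le_rfl (by linarith) hY
      have xm2 := b7_3_Bm2 B hs hc h2 le_rfl (by linarith) hY
      have xm3 := b7_3_Bm3 B hs hc h2 le_rfl (by linarith) hY
      linarith
  · intro t s hs h1 h2
    have hY := b7_3_L0 B hs (by linarith) (by linarith)
    have hYp := lt_of_lt_of_le (mul_pos (eN_pos r κ) (mul_pos (by norm_num : (0 : ℝ) < 0.9137) (Real.exp_pos _))) hY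
    rcases le_total s 0.75 with hc | hc
    · have x0 := b7_3_Co B hs h1 hc le_rfl (by linarith) hY
      have x2 := b7_3_C2 B hs h1 hc le_rfl (by linarith) hY
      have x3 := b7_3_C3 B hs h1 hc le_rfl (by linarith) hY
      have xm1 := b7_3_Cm1 B hs h1 hc le_rfl (by linarith) hY
      have xm2 := b7_3_Cm2 B hs h1 hc le_rfl (by linarith) hY
      have xm3 := b7_3_Cm3 B hs h1 hc le_rfl (by linarith) hY
      linarith
    · have x0 := b7_3_Do B hs hc h2 le_rfl (by linarith) hY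
      have x2 := b7_3_D2 B hs hc h2 le_rfl (by linarith) hY
      have x3 := b7_3_D3 B hs hc h2 le_rfl (by linarith) hY
      have xm1 := b7_3_Dm1 B hs hc h2 le_rfl (by linarith) hY
      have xm2 := b7_3_Dm2 B hs hc h2 le_rfl (by linarith) hY
      have xm3 := b7_3_Dm3 B hs hc h2 le_rfl (by linarith) hY
      linarith
  · intro t s hs h1 h2
    exact (b7_3_S B hs h1 h2).1
  · intro t s hs h1 h2
    exact (b7_3_S B hs h1 h2).2.1
  · intro t s hs h1 h2
    have := (b7_3_S B hs h1 h2).2.2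
    linarith
  · linarith

end Sok
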