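import Pool.Agent.Lib.MP_816dec_an.R1b7C
import Pool.Agent.Lib.MP_816dec_an.JB7a
import Pool.Agent.Lib.MP_816dec_an.JB7b
import Pool.Agent.Lib.MP_816dec_an.T7S0a
import Pool.Agent.Lib.MP_816dec_an.T7S1b

/-!
MP_816dec_an (A3, row R1), b = 7: box 4
-/

set_option autoImplicit false
set_option maxHeartbeats 4000000

open Complex Set Filter Topology Metric

namespace Sok

private theorem b7_4_yL1 {κ t : ℝ} (h : DomR κ t) (hk1 : 0.58 ≤ κ) (hk2 : κ ≤ 0.68) (ht1 : 0 ≤ t + κ) (ht2 : t + κ ≤ 0.5296) :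
    0 ≤ sy κ t ∧ sy κ t ≤ 0.201 := by
  have hy1 : 0 ≤ sy κ t := sy_nonneg h (by linarith)
  have hy2 : sy κ t ≤ 0.201 := syR_le h 0.58 0.68 0.5296 0.201 1.22262 0.3458 0.36139 0.42371 hk1 hk2 (by linarith) (by norm_num) (by norm_num)
    (expn_ge (by norm_num) (by norm_num)) (by norm_num) (by norm_num) (Or.inr ((mul_le_mul_of_nonneg_left (expn_le (E := 1.22263) (by norm_num) (by norm_num) (by norm_num)) (by norm_num)).trans (by norm_num))) (by norm_num) (by norm_num) (by norm_num)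
  exact ⟨by linarith, by linarith⟩

theorem b7_4_L1 {β r h κ T t s : ℝ} (B : Bx 0.58 0.68 0.465 0.434 10 0.068 5.5092 β r h κ T) (hs : t + κ = s * h)
    (h1 : 0.05 ≤ s) (h2 : s ≤ 0.59) :
    eN r κ * (0.9234 * Real.exp (-(T * (1 / 2 * s ^ 2)))) ≤ ‖Xf β r h t 1‖ := by
  have a1 : 0.0448 ≤ t + κ := by rw [hs]; exact mlo7 B.P h1 (by norm_num) (by norm_num)
  have a2 : t + κ ≤ 0.5296 := by rw [hs]; exact mhi7 B.P h2 (by norm_num) (by norm_num)
  have hk := B.hk1
  have hD : DomR κ t := dom7 B.P.κ0 (by linarith) (by linarith)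
  have hy := b7_4_yL1 hD B.hk1 B.hk2 (by linarith) a2
  have hJ := JB7_k1a hD B.P.hβ (by linarith) B.P.hκ1 (by linarith) (by linarith) B.P.βκ B.P.βR
  have hd := Dup7 hD (0.58 ^ 2) (0.68 ^ 2) 1.2175 0 0.201 1 0.66899 hy.1 hy.2 (pow_le_pow_left₀ (by norm_num) B.hk1 2) (pow_le_pow_left₀ B.P.κ0.le B.hk2 2)
      (by norm_num)
      (by rw [show (-2 * 0.201 : ℝ) = -0.402 by norm_num]; exact expm_le (by norm_num) (by norm_num) (by norm_num)) (by norm_num) (by norm_num) (by norm_num) (by norm_num)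
  have := loR7 (k := 1) 0 0.03 1.2175 0.9234 B.P (by norm_num) (by ring : t = t + 0 * h) hs (by linarith) hD (by norm_num) hJ hd (by norm_num) (by norm_num)
  rw [add_zero] at this
  exact this

private theorem b7_4_yL0 {κ t : ℝ} (h : DomR κ t) (hk1 : 0.58 ≤ κ) (hk2 : κ ≤ 0.68) (ht1 : (-0.5117) ≤ t + κ) (ht2 : t + κ ≤ 0) :
    (-0.295) ≤ sy κ t ∧ sy κ t ≤ 0 := by
  have hy1 : -0.295 ≤ sy κ t := syL_ge h 0.58 0.68 0.5117 0.295 0.74453 0.74454 0.309 0.32299 0.37869 hk1 hk2 (by linarith) (by norm_num) (by norm_num) (by norm_num)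
    (expm_ge (by norm_num) (by norm_num) (by norm_num) (by norm_num)) (expm_le (by norm_num) (by norm_num) (by norm_num)) (by norm_num)
    (by norm_num) (by norm_num) (by norm_num) (by norm_num) (by norm_num) (by norm_num)
  have hy2 : sy κ t ≤ 0 := sy_nonpos h (by linarith)
  exact ⟨by linarith, by linarith⟩

private theorem b7_4_yL00 {κ t : ℝ} (h : DomR κ t) (hk1 : 0.58 ≤ κ) (hk2 : κ ≤ 0.68) (ht1 : 0 ≤ t + κ) (ht2 : t + κ ≤ 0.05) :
    0 ≤ sy κ t ∧ sy κ t ≤ 0.023 := by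
  have hy1 : 0 ≤ sy κ t := sy_nonneg h (by linarith)
  have hy2 : sy κ t ≤ 0.023 := syR_le h 0.58 0.68 0.05 0.023 1.02326 0.0331 0.03461 0.04058 hk1 hk2 (by linarith) (by norm_num) (by norm_num)
    (expn_ge (by norm_num) (by norm_num)) (by norm_num) (by norm_num) (Or.inr ((mul_le_mul_of_nonneg_left (expn_le (E := 1.02327) (by norm_num) (by norm_num) (by norm_num)) (by norm_num)).trans (by norm_num))) (by norm_num) (by norm_num) (by norm_num)
  exact ⟨by linarith, by linarith⟩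

theorem b7_4_L0 {β r h κ T t s : ℝ} (B : Bx 0.58 0.68 0.465 0.434 10 0.068 5.5092 β r h κ T) (hs : t + κ = s * h)
    (h1 : 0.43 ≤ s) (h2 : s ≤ 1.05) :
    eN r κ * (0.9147 * Real.exp (-(T * (0.5934 * (1 - s) ^ 2)))) ≤ ‖Xf β r h t 0‖ := by
  obtain ⟨t', ht'⟩ : ∃ t', t' = t + (-1) * h := ⟨_, rfl⟩
  have hτ : t' + κ = (s + (-1)) * h := by rw [ht']; linear_combination hs
  have e : 0.5934 * (1 - s) ^ 2 = 0.5934 * (s + (-1)) ^ 2 := by ring
  rw [e]
  have b1 : -((s + (-1)) * h) ≤ 0.5117 := mhiN7 B.P (x2 := 0.57) (by linarith) (by norm_num) (by norm_num)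
  have b2 : (s + (-1)) * h ≤ 0.05 := mhi7 B.P (x2 := 0.05) (by linarith) (by norm_num) (by norm_num)
  have hk := B.hk1
  have hk' := B.P.hκ1
  rw [← hτ] at b1 b2
  have hD : DomR κ t' := dom7 B.P.κ0 (by linarith) (by linarith)
  have hJ := JB7_k0a hD B.P.hβ (by linarith) B.P.hκ1 (by linarith) (by linarith) B.P.βκ B.P.βR
  rcases le_total s 1 with hc | hc
  · have b3 : t' + κ ≤ 0 := by rw [hτ]; exact mul_nonpos_of_nonpos_of_nonneg (by linarith) B.P.h0.le
    have hy := b7_4_yL0 hD B.hk1 B.hk2 (by linarith) b3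
    have hd := Dup7 hD (0.58 ^ 2) (0.68 ^ 2) 1.0232 (-0.295) 0 1.80399 1 hy.1 hy.2 (pow_le_pow_left₀ (by norm_num) B.hk1 2) (pow_le_pow_left₀ B.P.κ0.le B.hk2 2)
      (by rw [show (-2 * (-0.295) : ℝ) = 0.59 by norm_num]; exact expn_le (by norm_num) (by norm_num) (by norm_num))
      (by norm_num) (by norm_num) (by norm_num) (by norm_num) (by norm_num)
    exact loLB7 (k := 0) (-1) 0.08 1.0232 0.9147 0.5934 0.5117 0.3322 0.3162 0.419 B (by norm_num) ht' hs (by linarith) (by rw [← hτ]; exact b1) hD (by norm_num) hJ hd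
      (by norm_num) (by norm_num) (by norm_num) (by norm_num) (by norm_num) (by norm_num) (by norm_num) (by norm_num) (by norm_num) (by norm_num) (by norm_num) (by norm_num) (by norm_num)
  · have b3 : 0 ≤ t' + κ := by rw [hτ]; exact mul_nonneg (by linarith) B.P.h0.le
    have hy := b7_4_yL00 hD B.hk1 B.hk2 b3 b2
    have hd := Dup7 hD (0.58 ^ 2) (0.68 ^ 2) 1.0232 0 0.023 1 0.95505 hy.1 hy.2 (pow_le_pow_left₀ (by norm_num) B.hk1 2) (pow_le_pow_left₀ B.P.κ0.le B.hk2 2)
      (by norm_num)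
      (by rw [show (-2 * 0.023 : ℝ) = -0.046 by norm_num]; exact expm_le (by norm_num) (by norm_num) (by norm_num)) (by norm_num) (by norm_num) (by norm_num) (by norm_num)
    have := loR7 (k := 0) (-1) 0.08 1.0232 0.9147 B.P (by norm_num) ht' hs (by linarith) hD (by norm_num) hJ hd (by norm_num) (by norm_num)
    exact le_trans (weak7 (by have := B.P.T5; linarith) (by norm_num) (by norm_num)) this

private theorem b7_4_W2a_y {κ t : ℝ} (h : DomR κ t) (hk1 : 0.58 ≤ κ) (hk2 : κ ≤ 0.68) (ht1 : 1.2835 ≤ t + κ) (ht2 : t + κ ≤ 1.3981) :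
    0.332 ≤ sy κ t ∧ sy κ t ≤ 0.393 := by
  have hy1 : 0.332 ≤ sy κ t := syR_ge h 0.58 0.68 1.2835 0.332 1.39375 1.39376 0.68047 0.79781 hk1 hk2 (by linarith) (by norm_num) (by norm_num)
    (expn_ge (by norm_num) (by norm_num)) (expn_le (by norm_num) (by norm_num) (by norm_num)) (by norm_num)
    (by norm_num) (by norm_num) (by norm_num) (by norm_num) (by norm_num) (by norm_num)
  have hy2 : sy κ t ≤ 0.393 := syR_ang2 h 0.58 0.68 1.3981 1.027 0.519 0.856 0.393 0.67503 1.48141 hk1 hk2 (by linarith) (by norm_num) (by norm_num) (by norm_num)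
    (cos_le_num (by norm_num)) (sin_le_num (by norm_num) (by norm_num)) (expm_le (by norm_num) (by norm_num) (by norm_num))
    (expn_ge (by norm_num) (by norm_num)) (by norm_num) (by norm_num) (by norm_num) (by norm_num) (by norm_num)
  exact ⟨by linarith, by linarith⟩

theorem b7_4_W2a {β r h κ T t s u Y : ℝ} (B : Bx 0.58 0.68 0.465 0.434 10 0.068 5.5092 β r h κ T) (hs : t + κ = s * h)
    (h1 : 0.43 ≤ u) (h2 : u ≤ 0.475) (h3 : u ≤ s) (h4 : s ≤ u + 0.0826)
    (hY : eN r κ * (0.9234 * Real.exp (-(T * (1 / 2 * u ^ 2)))) ≤ Y) :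
    ‖Xf β r h t 2‖ ≤ 0.03965 * Y := by
  obtain ⟨t', ht'⟩ : ∃ t', t' = t + 1 * h := ⟨_, rfl⟩
  have hτ : t' + κ = (s + 1) * h := by rw [ht']; linear_combination hs
  have a1 : 1.2835 ≤ t' + κ := by rw [hτ]; exact mlo7 B.P (x1 := 1.43) (by linarith) (by norm_num) (by norm_num)
  have a2 : t' + κ ≤ 1.3981 := by rw [hτ]; exact mhi7 B.P (x2 := 1.5576) (by linarith) (by norm_num) (by norm_num)
  have hk := B.hk1
  have hk' := B.P.hκ1
  have hD : DomR κ t' := dom7 B.P.κ0 (by linarith) (by linarith)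
  have hy := b7_4_W2a_y hD B.hk1 B.hk2 a1 a2
  have hJ : ‖HH β (sg κ t') - 1‖ ≤ 0.06 := JB7_k2a hD B.P.hβ (by linarith) B.P.hκ1 (by linarith) (by linarith) B.P.βκ B.P.βR
  have hd := Dlo7 hD (0.58 ^ 2) (0.68 ^ 2) 1.3006 0.332 0.393 0.332 0.51478 hy.1 hy.2 (pow_le_pow_left₀ (by norm_num) B.hk1 2) (pow_le_pow_left₀ B.P.κ0.le B.hk2 2)
      (by rw [show (-2 * 0.332 : ℝ) = -0.664 by norm_num]; exact expm_ge (by norm_num) (by norm_num) (by norm_num) (by norm_num)) (by norm_num) (by norm_num) (by norm_num) (by norm_num) (by norm_num)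
  have hc : sE κ t' ≤ 1 - 0.3382 * (t' + κ) ^ 2 / (1 + κ ^ 2) := VR7 0.55 0.3382 1.2835 1.3981 _ _ _ _ _ B hD a1 a2 (by norm_num) (by norm_num) (by norm_num) (by norm_num) rfl rfl (by norm_num) rfl rfl rfl (by norm_num) (by norm_num)
  exact up7 1 0.06 0.3382 1.3006 0.9926 0.9234 0.5991 0.03688 0.03965 B (by norm_num) ht' hs hD (by norm_num) hJ hc hd (by norm_num) (by norm_num) (by norm_num) hY (by norm_num)
    (ch1 (a := 1) (by norm_num) (sqR h1 h3 (by norm_num)) (by norm_num) h1 h2 (by norm_num) (by norm_num)) (by norm_num)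
    (expn 3 0.3005 (by norm_num) (by norm_num) (by norm_num) (by norm_num)) (by norm_num) (by norm_num)

private theorem b7_4_W2b_y {κ t : ℝ} (h : DomR κ t) (hk1 : 0.58 ≤ κ) (hk2 : κ ≤ 0.68) (ht1 : 1.3239 ≤ t + κ) (ht2 : t + κ ≤ 1.5014) :
    0.332 ≤ sy κ t ∧ sy κ t ≤ 0.405 := by
  have hy1 : 0.332 ≤ sy κ t := syR_ge h 0.58 0.68 1.3239 0.332 1.39375 1.39376 0.68047 0.79781 hk1 hk2 (by linarith) (by norm_num) (by norm_num)
    (expn_ge (by norm_num) (by norm_num)) (expn_le (by norm_num) (by norm_num) (by norm_num)) (by norm_num)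
    (by norm_num) (by norm_num) (by norm_num) (by norm_num) (by norm_num) (by norm_num)
  have hy2 : sy κ t ≤ 0.405 := syR_ang2 h 0.58 0.68 1.5014 1.102 0.4543 0.8925 0.405 0.66698 1.4993 hk1 hk2 (by linarith) (by norm_num) (by norm_num) (by norm_num)
    (cos_le_num (by norm_num)) (sin_le_num (by norm_num) (by norm_num)) (expm_le (by norm_num) (by norm_num) (by norm_num))
    (expn_ge (by norm_num) (by norm_num)) (by norm_num) (by norm_num) (by norm_num) (by norm_num) (by norm_num)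
  exact ⟨by linarith, by linarith⟩

theorem b7_4_W2b {β r h κ T t s u Y : ℝ} (B : Bx 0.58 0.68 0.465 0.434 10 0.068 5.5092 β r h κ T) (hs : t + κ = s * h)
    (h1 : 0.475 ≤ u) (h2 : u ≤ 0.59) (h3 : u ≤ s) (h4 : s ≤ u + 0.0826)
    (hY : eN r κ * (0.9234 * Real.exp (-(T * (1 / 2 * u ^ 2)))) ≤ Y) :
    ‖Xf β r h t 2‖ ≤ 0.04201 * Y := by
  obtain ⟨t', ht'⟩ : ∃ t', t' = t + 1 * h := ⟨_, rfl⟩
  have hτ : t' + κ = (s + 1) * h := by rw [ht']; linear_combination hs
  have a1 : 1.3239 ≤ t' + κ := by rw [hτ]; exact mlo7 B.P (x1 := 1.475) (by linarith) (by norm_num) (by norm_num)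
  have a2 : t' + κ ≤ 1.5014 := by rw [hτ]; exact mhi7 B.P (x2 := 1.6726) (by linarith) (by norm_num) (by norm_num)
  have hk := B.hk1
  have hk' := B.P.hκ1
  have hD : DomR κ t' := dom7 B.P.κ0 (by linarith) (by linarith)
  have hy := b7_4_W2b_y hD B.hk1 B.hk2 a1 a2
  have hJ : ‖HH β (sg κ t') - 1‖ ≤ 0.15 := by
    rcases le_total (t' + κ) 1.39 with hc | hc
    · exact (JB7_k2a hD B.P.hβ (by linarith) B.P.hκ1 (by linarith) (by linarith) B.P.βκ B.P.βR).trans (by norm_num)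
    · exact JB7_k2b hD B.P.hβ (by linarith) B.P.hκ1 (by linarith) (by linarith) B.P.βκ B.P.βR
  have hd := Dlo7 hD (0.58 ^ 2) (0.68 ^ 2) 1.3006 0.332 0.405 0.332 0.51478 hy.1 hy.2 (pow_le_pow_left₀ (by norm_num) B.hk1 2) (pow_le_pow_left₀ B.P.κ0.le B.hk2 2)
      (by rw [show (-2 * 0.332 : ℝ) = -0.664 by norm_num]; exact expm_ge (by norm_num) (by norm_num) (by norm_num) (by norm_num)) (by norm_num) (by norm_num) (by norm_num) (by norm_num) (by norm_num)
  have hc : sE κ t' ≤ 1 - 0.3292 * (t' + κ) ^ 2 / (1 + κ ^ 2) := VR7 0.53 0.3292 1.3239 1.5014 _ _ _ _ _ B hD a1 a2 (by norm_num) (by norm_num) (by norm_num) (by norm_num) rfl rfl (by norm_num) rfl rfl rfl (by norm_num) (by norm_num)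
  exact up7 1 0.15 0.3292 1.3006 1.0769 0.9234 0.6034 0.03602 0.04201 B (by norm_num) ht' hs hD (by norm_num) hJ hc hd (by norm_num) (by norm_num) (by norm_num) hY (by norm_num)
    (ch1 (a := 1) (by norm_num) (sqR h1 h3 (by norm_num)) (by norm_num) h1 h2 (by norm_num) (by norm_num)) (by norm_num)
    (expn 3 0.3242 (by norm_num) (by norm_num) (by norm_num) (by norm_num)) (by norm_num) (by norm_num)

theorem b7_4_W3R {β r h κ T t s u Y : ℝ} (B : Bx 0.58 0.68 0.465 0.434 10 0.068 5.5092 β r h κ T) (hs : t + κ = s * h)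
    (h1 : 0.43 ≤ u) (h2 : u ≤ 0.59) (h3 : u ≤ s) (h4 : s ≤ u + 0.0826) (htp : t + 2 * h ≤ Real.pi / 2)
    (hY : eN r κ * (0.9234 * Real.exp (-(T * (1 / 2 * u ^ 2)))) ≤ Y) :
    ‖Xf β r h t 3‖ ≤ 0.0025326 * Y := by
  refine leE (cR7 2 0.32 0.2484 2.1811 2.399 _ _ _ _ _ 0.0372 3.0668 0.5239 0.0401 1.1158 0.9234 1.3743 0.0005166 0.001716 0.1741 0.8396 0.895 3.1623 0.0001943 0.0008166 B (by norm_num) hs htp
    (mlo7 B.P (x1 := 2.43) (by linarith) (by norm_num) (by norm_num)) (mhi7 B.P (x2 := 2.6726) (by linarith) (by norm_num) (by norm_num)) hY g1_nn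
    (g1_le (by linarith) h2 (by norm_num)) (ch1 (a := 2) (by norm_num) (sqR h1 h3 (by norm_num)) (by norm_num) h1 h2 (by norm_num) (by norm_num))
    (by norm_num) (by norm_num) (by norm_num) (by norm_num) rfl rfl (by norm_num) rfl rfl rfl (by norm_num) (by norm_num) (by norm_num) (by norm_num) (by norm_num) (by norm_num) (by norm_num) (by norm_num) (by norm_num) (by norm_num) (by norm_num) (by norm_num) (by norm_num) (by norm_num) (by norm_num) (by norm_num) (by norm_num) (by norm_num) (by norm_num)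
    (expn 7 0.5712 (by norm_num) (by norm_num) (by norm_num) (by norm_num)) (by norm_num) (by norm_num) (by norm_num) (by norm_num) (by norm_num) (by norm_num) (by norm_num) (by norm_num) (expn 8 0.549 (by norm_num) (by norm_num) (by norm_num) (by norm_num)) (by norm_num) (by norm_num)) (by norm_num) hY (by norm_num)

theorem b7_4_W3U {β r h κ T t s u Y : ℝ} (B : Bx 0.58 0.68 0.465 0.434 10 0.068 5.5092 β r h κ T) (hs : t + κ = s * h)
    (h1 : 0.43 ≤ u) (h2 : u ≤ 0.59) (h3 : u ≤ s) (h4 : s ≤ u + 0.0826)(htp : Real.pi / 2 ≤ t + 2 * h)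
    (hY : eN r κ * (0.9234 * Real.exp (-(T * (1 / 2 * u ^ 2)))) ≤ Y) :
    ‖Xf β r h t (3)‖ ≤ 0.001633 * Y := by
  refine cU7 0 (2) 1.5707 2.399 0.05 0.5239 0.05 2.0238 0.9234 0.1741 0.8396 0.895 3.1623 0.0002142 0.001633 B (by norm_num) hs
    (half7 hs htp (by norm_num)) (mhi7 B.P (x2 := 2.6726) (by push_cast; linarith) (by norm_num) (by norm_num)) hY g1_nn (g1_le (by linarith) h2 (by norm_num))
    (by norm_num) (by norm_num) (by norm_num) (by norm_num) (by norm_num) (by norm_num) (by norm_num) (by norm_num) (by norm_num) (by norm_num) (by norm_num) (by norm_num) (by norm_num) (by norm_num) (by norm_num) (by norm_num) (by norm_num) (by norm_num) (by norm_num)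
    (expn 8 0.45 (by norm_num) (by norm_num) (by norm_num) (by norm_num)) (by norm_num) (by norm_num)

theorem b7_4_W3 {β r h κ T t s u Y : ℝ} (B : Bx 0.58 0.68 0.465 0.434 10 0.068 5.5092 β r h κ T) (hs : t + κ = s * h)
    (h1 : 0.43 ≤ u) (h2 : u ≤ 0.59) (h3 : u ≤ s) (h4 : s ≤ u + 0.0826)
    (hY : eN r κ * (0.9234 * Real.exp (-(T * (1 / 2 * u ^ 2)))) ≤ Y) :
    ‖Xf β r h t 3‖ ≤ 0.0025326 * Y := by
  rcases le_total (t + 2 * h) (Real.pi / 2) with hp | hp
  · exact leE (b7_4_W3R B hs h1 h2 h3 h4 hp hY) (by norm_num) hY (by norm_num)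
  · exact leE (b7_4_W3U B hs h1 h2 h3 h4 hp hY) (by norm_num) hY (by norm_num)

theorem b7_4_Wm1 {β r h κ T t s u Y : ℝ} (B : Bx 0.58 0.68 0.465 0.434 10 0.068 5.5092 β r h κ T) (hs : t + κ = s * h)
    (h1 : 0.43 ≤ u) (h2 : u ≤ 0.59) (h3 : u ≤ s) (h4 : s ≤ u + 0)
    (hY : eN r κ * (0.9147 * Real.exp (-(T * (0.5934 * (1 - u) ^ 2)))) ≤ Y) :
    ‖Xf β r h t (-1)‖ ≤ 0.0052991 * Y := by
  refine leE (cL7 (-2) 1 0.5934 1.2656 1.4093 _ _ _ _ _ 0.4794 1.6186 0.5239 0 1.0868 0.9147 1.0799 0.002651 0.004692 0.1928 0.8317 0.8837 3.1623 0.0001469 0.0006071 B (by norm_num) hs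
    (mloN7 B.P (x1 := 1.41) (by linarith) (by norm_num) (by norm_num)) (mhiN7 B.P (x2 := 1.57) (by linarith) (by norm_num) (by norm_num)) hY (g0_nn (by norm_num))
    (g0_le (by norm_num) h1 h2 (by norm_num) (by norm_num)) (ch0 (a := (-2)) (by norm_num) (sqL h2 h4 (by norm_num) (by norm_num)) (by norm_num) h1 h2 (by norm_num) (by norm_num))
    (by norm_num) (by norm_num) (by norm_num) (by norm_num) rfl rfl (by norm_num) rfl rfl rfl (by norm_num) (by norm_num) (by norm_num) (by norm_num) (by norm_num) (by norm_num) (by norm_num) (by norm_num) (by norm_num) (by norm_num) (by norm_num) (by norm_num) (by norm_num) (by norm_num) (by norm_num) (by norm_num) (by norm_num) (by norm_num)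
    (expn 5 0.9493 (by norm_num) (by norm_num) (by norm_num) (by norm_num)) (by norm_num) (by norm_num) (by norm_num) (by norm_num) (by norm_num) (by norm_num) (by norm_num) (by norm_num) (expn 8 0.837 (by norm_num) (by norm_num) (by norm_num) (by norm_num)) (by norm_num) (by norm_num)) (by norm_num) hY (by norm_num)

theorem b7_4_Wm1p {β r h κ T t s u Y : ℝ} (B : Bx 0.58 0.68 0.465 0.434 10 0.068 5.5092 β r h κ T) (hs : t + κ = s * h)
    (h1 : 0.43 ≤ u) (h2 : u ≤ 0.59) (h3 : u ≤ s) (h4 : s ≤ u + 0.0826)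
    (hY : eN r κ * (0.9147 * Real.exp (-(T * (0.5934 * (1 - u) ^ 2)))) ≤ Y) :
    ‖Xf β r h t (-1)‖ ≤ 0.0105518 * Y := by
  refine leE (cL7 (-2) 1.04 0.5934 1.1914 1.4093 _ _ _ _ _ 0.4282 1.665 0.5239 0 1.1006 0.9147 0.9458 0.005459 0.009937 0.1928 0.8317 0.8837 3.1623 0.0001469 0.0006148 B (by norm_num) hs
    (mloN7 B.P (x1 := 1.3274) (by linarith) (by norm_num) (by norm_num)) (mhiN7 B.P (x2 := 1.57) (by linarith) (by norm_num) (by norm_num)) hY (g0_nn (by norm_num))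
    (g0_le (by norm_num) h1 h2 (by norm_num) (by norm_num)) (ch0 (a := (-1.9174)) (by norm_num) (sqL h2 h4 (by norm_num) (by norm_num)) (by norm_num) h1 h2 (by norm_num) (by norm_num))
    (by norm_num) (by norm_num) (by norm_num) (by norm_num) rfl rfl (by norm_num) rfl rfl rfl (by norm_num) (by norm_num) (by norm_num) (by norm_num) (by norm_num) (by norm_num) (by norm_num) (by norm_num) (by norm_num) (by norm_num) (by norm_num) (by norm_num) (by norm_num) (by norm_num) (by norm_num) (by norm_num) (by norm_num) (by norm_num)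
    (expn 5 0.2106 (by norm_num) (by norm_num) (by norm_num) (by norm_num)) (by norm_num) (by norm_num) (by norm_num) (by norm_num) (by norm_num) (by norm_num) (by norm_num) (by norm_num) (expn 8 0.837 (by norm_num) (by norm_num) (by norm_num) (by norm_num)) (by norm_num) (by norm_num)) (by norm_num) hY (by norm_num)

theorem b7_4_Wm2 {β r h κ T t s u Y : ℝ} (B : Bx 0.58 0.68 0.465 0.434 10 0.068 5.5092 β r h κ T) (hs : t + κ = s * h)
    (h1 : 0.43 ≤ u) (h2 : u ≤ 0.59) (h3 : u ≤ s) (h4 : s ≤ u + 0.0826)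
    (hY : eN r κ * (0.9147 * Real.exp (-(T * (0.5934 * (1 - u) ^ 2)))) ≤ Y) :
    ‖Xf β r h t (-2)‖ ≤ 0.000611679 * Y := by
  refine leE (cL7 (-3) 0.6 0.4539 2.089 2.3069 _ _ _ _ _ 0.4872 1.6121 0.5239 0 1.0878 0.9147 2.3589 0.000002314 0.000004079 0.1928 0.8317 0.8837 3.1623 0.0001469 0.0006076 B (by norm_num) hs
    (mloN7 B.P (x1 := 2.3274) (by linarith) (by norm_num) (by norm_num)) (mhiN7 B.P (x2 := 2.57) (by linarith) (by norm_num) (by norm_num)) hY (g0_nn (by norm_num))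
    (g0_le (by norm_num) h1 h2 (by norm_num) (by norm_num)) (ch0 (a := (-2.9174)) (by norm_num) (sqL h2 h4 (by norm_num) (by norm_num)) (by norm_num) h1 h2 (by norm_num) (by norm_num))
    (by norm_num) (by norm_num) (by norm_num) (by norm_num) rfl rfl (by norm_num) rfl rfl rfl (by norm_num) (by norm_num) (by norm_num) (by norm_num) (by norm_num) (by norm_num) (by norm_num) (by norm_num) (by norm_num) (by norm_num) (by norm_num) (by norm_num) (by norm_num) (by norm_num) (by norm_num) (by norm_num) (by norm_num) (by norm_num)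
    (expn 12 0.9956 (by norm_num) (by norm_num) (by norm_num) (by norm_num)) (by norm_num) (by norm_num) (by norm_num) (by norm_num) (by norm_num) (by norm_num) (by norm_num) (by norm_num) (expn 8 0.837 (by norm_num) (by norm_num) (by norm_num) (by norm_num)) (by norm_num) (by norm_num)) (by norm_num) hY (by norm_num)

theorem b7_4_Wm3 {β r h κ T t s u Y : ℝ} (B : Bx 0.58 0.68 0.465 0.434 10 0.068 5.5092 β r h κ T) (hs : t + κ = s * h)
    (h1 : 0.43 ≤ u) (h2 : u ≤ 0.59) (h3 : u ≤ s) (h4 : s ≤ u + 0.0826)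
    (hY : eN r κ * (0.9147 * Real.exp (-(T * (0.5934 * (1 - u) ^ 2)))) ≤ Y) :
    ‖Xf β r h t (-3)‖ ≤ 0.0009054 * Y := by
  refine cU7 1 (-4) 2.3987 3.2966 0.02 0.5239 0.02 1.3362 0.9147 0.1928 0.8317 0.8837 3.1623 0.0001782 0.0009054 B (by norm_num) hs
    (full7 B.P B.hk2 (x1 := 3.43) (by push_cast; linarith) (by norm_num) (by norm_num)) (mhi7 B.P (x2 := 3.6726) (by push_cast; linarith) (by norm_num) (by norm_num)) hY (g0_nn (by norm_num)) (g0_le (by norm_num) h1 h2 (by norm_num) (by norm_num))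
    (by norm_num) (by norm_num) (by norm_num) (by norm_num) (by norm_num) (by norm_num) (by norm_num) (by norm_num) (by norm_num) (by norm_num) (by norm_num) (by norm_num) (by norm_num) (by norm_num) (by norm_num) (by norm_num) (by norm_num) (by norm_num) (by norm_num)
    (expn 8 0.637 (by norm_num) (by norm_num) (by norm_num) (by norm_num)) (by norm_num) (by norm_num)

private theorem b7_4_Ao_y {κ t : ℝ} (h : DomR κ t) (hk1 : 0.58 ≤ κ) (hk2 : κ ≤ 0.68) (ht1 : (-0.8528) ≤ t + κ) (ht2 : t + κ ≤ (-0.5744)) :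
    (-0.571) ≤ sy κ t ∧ sy κ t ≤ (-0.326) := by
  have hy1 : -0.571 ≤ sy κ t := syL_ge h 0.58 0.68 0.8528 0.571 0.56496 0.56497 0.5493 0.4744 0.55621 hk1 hk2 (by linarith) (by norm_num) (by norm_num) (by norm_num)
    (expm_ge (by norm_num) (by norm_num) (by norm_num) (by norm_num)) (expm_le (by norm_num) (by norm_num) (by norm_num)) (by norm_num)
    (by norm_num) (by norm_num) (by norm_num) (by norm_num) (by norm_num) (by norm_num)
  have hy2 : sy κ t ≤ -0.326 := syL_le h 0.58 0.68 0.5744 0.326 0.7218 0.72181 0.34603 0.40571 hk1 hk2 (by linarith) (by norm_num) (by norm_num) (by norm_num)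
    (expm_ge (by norm_num) (by norm_num) (by norm_num) (by norm_num)) (expm_le (by norm_num) (by norm_num) (by norm_num)) (by norm_num)
    (by norm_num) (by norm_num) (by norm_num) (by norm_num) (by norm_num) (by norm_num)
  exact ⟨by linarith, by linarith⟩

theorem b7_4_Ao {β r h κ T t s u Y : ℝ} (B : Bx 0.58 0.68 0.465 0.434 10 0.068 5.5092 β r h κ T) (hs : t + κ = s * h)
    (h1 : 0.05 ≤ u) (h2 : u ≤ 0.36) (h3 : u ≤ s) (h4 : s ≤ u + 0)
    (hY : eN r κ * (0.9234 * Real.exp (-(T * (1 / 2 * u ^ 2)))) ≤ Y) :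
    ‖Xf β r h t 0‖ ≤ 0.6957 * Y := by
  obtain ⟨t', ht'⟩ : ∃ t', t' = t + (-1) * h := ⟨_, rfl⟩
  have hτ : t' + κ = (s + (-1)) * h := by rw [ht']; linear_combination hs
  have a1 : (-0.8528) ≤ t' + κ := by rw [hτ]; have := mhiN7 B.P (x := s + (-1)) (x2 := 0.95) (τ2 := 0.8528) (by linarith) (by norm_num) (by norm_num); linarith
  have a2 : t' + κ ≤ (-0.5744) := by rw [hτ]; have := mloN7 B.P (x := s + (-1)) (x1 := 0.64) (τ1 := 0.5744) (by linarith) (by norm_num) (by norm_num); linarith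
  have hk := B.hk1
  have hk' := B.P.hκ1
  have hD : DomR κ t' := dom7 B.P.κ0 (by linarith) (by linarith)
  have hy := b7_4_Ao_y hD B.hk1 B.hk2 a1 a2
  have hJ : ‖HH β (sg κ t') - 1‖ ≤ 0.15 := by
    rcases le_total (t' + κ) (-0.61) with hc | hc
    · exact JB7_k0b hD B.P.hβ (by linarith) B.P.hκ1 (by linarith) (by linarith) B.P.βκ B.P.βR
    · exact (JB7_k0a hD B.P.hβ (by linarith) B.P.hκ1 (by linarith) (by linarith) B.P.βκ B.P.βR).trans (by norm_num)
  have hd := Dlo7 hD (0.58 ^ 2) (0.68 ^ 2) 0.6745 (-0.571) (-0.326) (-0.4975) 2.7045 hy.1 hy.2 (pow_le_pow_left₀ (by norm_num) B.hk1 2) (pow_le_pow_left₀ B.P.κ0.le B.hk2 2)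
      (by rw [show (-2 * (-0.4975) : ℝ) = 0.995 by norm_num]; exact expn_ge (by norm_num) (by norm_num)) (by norm_num) (by norm_num) (by norm_num) (by norm_num) (by norm_num)
  have hc : sE κ t' ≤ 1 - 0.4625 * (t' + κ) ^ 2 / (1 + κ ^ 2) := VLA7 hD B.P.hκ1 (by linarith) (by linarith)
  exact up7 (-1) 0.15 0.4625 0.6745 1.269 0.9234 0.1246 0.5062 0.6957 B (by norm_num) ht' hs hD (by norm_num) hJ hc hd (by norm_num) (by norm_num) (by norm_num) hY (by norm_num)
    (ch1 (a := (-1)) (by norm_num) (sqL h2 h4 (by norm_num) (by norm_num)) (by norm_num) h1 h2 (by norm_num) (by norm_num)) (by norm_num)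
    (expn 0 0.6864 (by norm_num) (by norm_num) (by norm_num) (by norm_num)) (by norm_num) (by norm_num)

private theorem b7_4_A2_y {κ t : ℝ} (h : DomR κ t) (hk1 : 0.58 ≤ κ) (hk2 : κ ≤ 0.68) (ht1 : 0.9424 ≤ t + κ) (ht2 : t + κ ≤ 1.2208) :
    0.279 ≤ sy κ t ∧ sy κ t ≤ 0.366 := by
  have hy1 : 0.279 ≤ sy κ t := syR_ge h 0.58 0.68 0.9424 0.279 1.3218 1.32181 0.54232 0.63584 hk1 hk2 (by linarith) (by norm_num) (by norm_num)
    (expn_ge (by norm_num) (by norm_num)) (expn_le (by norm_num) (by norm_num) (by norm_num)) (by norm_num)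
    (by norm_num) (by norm_num) (by norm_num) (by norm_num) (by norm_num) (by norm_num)
  have hy2 : sy κ t ≤ 0.366 := syR_le h 0.58 0.68 1.2208 0.366 1.44195 0.7426 0.7761 0.90993 hk1 hk2 (by linarith) (by norm_num) (by norm_num)
    (expn_ge (by norm_num) (by norm_num)) (by norm_num) (by norm_num) (Or.inr ((mul_le_mul_of_nonneg_left (expn_le (E := 1.44196) (by norm_num) (by norm_num) (by norm_num)) (by norm_num)).trans (by norm_num))) (by norm_num) (by norm_num) (by norm_num)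
  exact ⟨by linarith, by linarith⟩

theorem b7_4_A2 {β r h κ T t s u Y : ℝ} (B : Bx 0.58 0.68 0.465 0.434 10 0.068 5.5092 β r h κ T) (hs : t + κ = s * h)
    (h1 : 0.05 ≤ u) (h2 : u ≤ 0.36) (h3 : u ≤ s) (h4 : s ≤ u + 0)
    (hY : eN r κ * (0.9234 * Real.exp (-(T * (1 / 2 * u ^ 2)))) ≤ Y) :
    ‖Xf β r h t 2‖ ≤ 0.1277 * Y := by
  obtain ⟨t', ht'⟩ : ∃ t', t' = t + 1 * h := ⟨_, rfl⟩
  have hτ : t' + κ = (s + 1) * h := by rw [ht']; linear_combination hs
  have a1 : 0.9424 ≤ t' + κ := by rw [hτ]; exact mlo7 B.P (x1 := 1.05) (by linarith) (by norm_num) (by norm_num)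
  have a2 : t' + κ ≤ 1.2208 := by rw [hτ]; exact mhi7 B.P (x2 := 1.36) (by linarith) (by norm_num) (by norm_num)
  have hk := B.hk1
  have hk' := B.P.hκ1
  have hD : DomR κ t' := dom7 B.P.κ0 (by linarith) (by linarith)
  have hy := b7_4_A2_y hD B.hk1 B.hk2 a1 a2
  have hJ : ‖HH β (sg κ t') - 1‖ ≤ 0.06 := JB7_k2a hD B.P.hβ (by linarith) B.P.hκ1 (by linarith) (by linarith) B.P.βκ B.P.βR
  have hd := Dlo7 hD (0.58 ^ 2) (0.68 ^ 2) 1.2463 0.279 0.366 0.279 0.57235 hy.1 hy.2 (pow_le_pow_left₀ (by norm_num) B.hk1 2) (pow_le_pow_left₀ B.P.κ0.le B.hk2 2)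
      (by rw [show (-2 * 0.279 : ℝ) = -0.558 by norm_num]; exact expm_ge (by norm_num) (by norm_num) (by norm_num) (by norm_num)) (by norm_num) (by norm_num) (by norm_num) (by norm_num) (by norm_num)
  have hc : sE κ t' ≤ 1 - 0.3538 * (t' + κ) ^ 2 / (1 + κ ^ 2) := VR7 0.59 0.3538 0.9424 1.2208 _ _ _ _ _ B hD a1 a2 (by norm_num) (by norm_num) (by norm_num) (by norm_num) rfl rfl (by norm_num) rfl rfl rfl (by norm_num) (by norm_num)
  exact up7 1 0.06 0.3538 1.2463 1.0033 0.9234 0.3888 0.1175 0.1277 B (by norm_num) ht' hs hD (by norm_num) hJ hc hd (by norm_num) (by norm_num) (by norm_num) hY (by norm_num)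
    (ch1 (a := 1) (by norm_num) (sqR h1 h3 (by norm_num)) (by norm_num) h1 h2 (by norm_num) (by norm_num)) (by norm_num)
    (expn 2 0.1419 (by norm_num) (by norm_num) (by norm_num) (by norm_num)) (by norm_num) (by norm_num)

theorem b7_4_A3R {β r h κ T t s u Y : ℝ} (B : Bx 0.58 0.68 0.465 0.434 10 0.068 5.5092 β r h κ T) (hs : t + κ = s * h)
    (h1 : 0.05 ≤ u) (h2 : u ≤ 0.36) (h3 : u ≤ s) (h4 : s ≤ u + 0) (htp : t + 2 * h ≤ Real.pi / 2)
    (hY : eN r κ * (0.9234 * Real.exp (-(T * (1 / 2 * u ^ 2)))) ≤ Y) :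
    ‖Xf β r h t 3‖ ≤ 0.009346 * Y := by
  refine leE (cR7 2 0.36 0.2696 1.84 2.1184 _ _ _ _ _ 0.0397 3.0173 0.5239 0.2345 1.1134 0.9234 1.1317 0.001961 0.006408 0.0648 0.8396 0.9609 3.1623 0.0007005 0.002938 B (by norm_num) hs htp
    (mlo7 B.P (x1 := 2.05) (by linarith) (by norm_num) (by norm_num)) (mhi7 B.P (x2 := 2.36) (by linarith) (by norm_num) (by norm_num)) hY g1_nn
    (g1_le (by linarith) h2 (by norm_num)) (ch1 (a := 2) (by norm_num) (sqR h1 h3 (by norm_num)) (by norm_num) h1 h2 (by norm_num) (by norm_num))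
    (by norm_num) (by norm_num) (by norm_num) (by norm_num) rfl rfl (by norm_num) rfl rfl rfl (by norm_num) (by norm_num) (by norm_num) (by norm_num) (by norm_num) (by norm_num) (by norm_num) (by norm_num) (by norm_num) (by norm_num) (by norm_num) (by norm_num) (by norm_num) (by norm_num) (by norm_num) (by norm_num) (by norm_num) (by norm_num) (by norm_num)
    (expn 6 0.2347 (by norm_num) (by norm_num) (by norm_num) (by norm_num)) (by norm_num) (by norm_num) (by norm_num) (by norm_num) (by norm_num) (by norm_num) (by norm_num) (by norm_num) (expn 7 0.264 (by norm_num) (by norm_num) (by norm_num) (by norm_num)) (by norm_num) (by norm_num)) (by norm_num) hY (by norm_num)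

theorem b7_4_A3 {β r h κ T t s u Y : ℝ} (B : Bx 0.58 0.68 0.465 0.434 10 0.068 5.5092 β r h κ T) (hs : t + κ = s * h)
    (h1 : 0.05 ≤ u) (h2 : u ≤ 0.36) (h3 : u ≤ s) (h4 : s ≤ u + 0)
    (hY : eN r κ * (0.9234 * Real.exp (-(T * (1 / 2 * u ^ 2)))) ≤ Y) :
    ‖Xf β r h t 3‖ ≤ 0.009346 * Y := by
  have hp : t + 2 * h ≤ Real.pi / 2 := by
    have e : t + 2 * h = (s + 2) * h - κ := by linear_combination hs
    have := mhi7 B.P (x := s + 2) (x2 := 2.36) (by linarith) (by norm_num) (le_refl _)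
    have := B.hk1
    have := Real.pi_gt_d6
    rw [e]
    norm_num at *
    linarith
  exact leE (b7_4_A3R B hs h1 h2 h3 h4 hp hY) (by norm_num) hY (by norm_num)

theorem b7_4_Am1 {β r h κ T t s u Y : ℝ} (B : Bx 0.58 0.68 0.465 0.434 10 0.068 5.5092 β r h κ T) (hs : t + κ = s * h)
    (h1 : 0.05 ≤ u) (h2 : u ≤ 0.36) (h3 : u ≤ s) (h4 : s ≤ u + 0)
    (hY : eN r κ * (0.9234 * Real.exp (-(T * (1 / 2 * u ^ 2)))) ≤ Y) :
    ‖Xf β r h t (-1)‖ ≤ 0.0018141 * Y := by
  refine leE (cL7 (-2) 0.72 0.5 1.472 1.7504 _ _ _ _ _ 0.4447 1.6493 0.5239 0 1.0526 0.9234 1.28 0.000866 0.001547 0.0648 0.8396 0.9609 3.1623 0.00006737 0.0002671 B (by norm_num) hs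
    (mloN7 B.P (x1 := 1.64) (by linarith) (by norm_num) (by norm_num)) (mhiN7 B.P (x2 := 1.95) (by linarith) (by norm_num) (by norm_num)) hY g1_nn
    (g1_le (by linarith) h2 (by norm_num)) (ch1 (a := (-2)) (by norm_num) (sqL h2 h4 (by norm_num) (by norm_num)) (by norm_num) h1 h2 (by norm_num) (by norm_num))
    (by norm_num) (by norm_num) (by norm_num) (by norm_num) rfl rfl (by norm_num) rfl rfl rfl (by norm_num) (by norm_num) (by norm_num) (by norm_num) (by norm_num) (by norm_num) (by norm_num) (by norm_num) (by norm_num) (by norm_num) (by norm_num) (by norm_num) (by norm_num) (by norm_num) (by norm_num) (by norm_num) (by norm_num) (by norm_num)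
    (expn 7 0.0517 (by norm_num) (by norm_num) (by norm_num) (by norm_num)) (by norm_num) (by norm_num) (by norm_num) (by norm_num) (by norm_num) (by norm_num) (by norm_num) (by norm_num) (expn 9 0.609 (by norm_num) (by norm_num) (by norm_num) (by norm_num)) (by norm_num) (by norm_num)) (by norm_num) hY (by norm_num)

theorem b7_4_Am2 {β r h κ T t s u Y : ℝ} (B : Bx 0.58 0.68 0.465 0.434 10 0.068 5.5092 β r h κ T) (hs : t + κ = s * h)
    (h1 : 0.05 ≤ u) (h2 : u ≤ 0.36) (h3 : u ≤ s) (h4 : s ≤ u + 0)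
    (hY : eN r κ * (0.9234 * Real.exp (-(T * (1 / 2 * u ^ 2)))) ≤ Y) :
    ‖Xf β r h t (-2)‖ ≤ 0.00029006489 * Y := by
  refine leE (cL7 (-3) 0.6 0.456 2.3696 2.648 _ _ _ _ _ 0.4618 1.6338 0.5239 0 1.1427 0.9234 3.1133 0.00000003667 0.00000006489 0.0648 0.8396 0.9609 3.1623 0.00006737 0.00029 B (by norm_num) hs
    (mloN7 B.P (x1 := 2.64) (by linarith) (by norm_num) (by norm_num)) (mhiN7 B.P (x2 := 2.95) (by linarith) (by norm_num) (by norm_num)) hY g1_nn
    (g1_le (by linarith) h2 (by norm_num)) (ch1 (a := (-3)) (by norm_num) (sqL h2 h4 (by norm_num) (by norm_num)) (by norm_num) h1 h2 (by norm_num) (by norm_num))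
    (by norm_num) (by norm_num) (by norm_num) (by norm_num) rfl rfl (by norm_num) rfl rfl rfl (by norm_num) (by norm_num) (by norm_num) (by norm_num) (by norm_num) (by norm_num) (by norm_num) (by norm_num) (by norm_num) (by norm_num) (by norm_num) (by norm_num) (by norm_num) (by norm_num) (by norm_num) (by norm_num) (by norm_num) (by norm_num)
    (expn 16 1.1517 (by norm_num) (by norm_num) (by norm_num) (by norm_num)) (by norm_num) (by norm_num) (by norm_num) (by norm_num) (by norm_num) (by norm_num) (by norm_num) (by norm_num) (expn 9 0.609 (by norm_num) (by norm_num) (by norm_num) (by norm_num)) (by norm_num) (by norm_num)) (by norm_num) hY (by norm_num)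

theorem b7_4_Am3 {β r h κ T t s u Y : ℝ} (B : Bx 0.58 0.68 0.465 0.434 10 0.068 5.5092 β r h κ T) (hs : t + κ = s * h)
    (h1 : 0.05 ≤ u) (h2 : u ≤ 0.36) (h3 : u ≤ s) (h4 : s ≤ u + 0)
    (hY : eN r κ * (0.9234 * Real.exp (-(T * (1 / 2 * u ^ 2)))) ≤ Y) :
    ‖Xf β r h t (-3)‖ ≤ 0.0004218 * Y := by
  refine cU7 1 (-4) 2.0576 3.016 0.02 0.5239 0.02 1.3645 0.9234 0.0648 0.8396 0.9609 3.1623 0.00008206 0.0004218 B (by norm_num) hs
    (full7 B.P B.hk2 (x1 := 3.05) (by push_cast; linarith) (by norm_num) (by norm_num)) (mhi7 B.P (x2 := 3.36) (by push_cast; linarith) (by norm_num) (by norm_num)) hY g1_nn (g1_le (by linarith) h2 (by norm_num))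
    (by norm_num) (by norm_num) (by norm_num) (by norm_num) (by norm_num) (by norm_num) (by norm_num) (by norm_num) (by norm_num) (by norm_num) (by norm_num) (by norm_num) (by norm_num) (by norm_num) (by norm_num) (by norm_num) (by norm_num) (by norm_num) (by norm_num)
    (expn 9 0.409 (by norm_num) (by norm_num) (by norm_num) (by norm_num)) (by norm_num) (by norm_num)

private theorem b7_4_Bo_y {κ t : ℝ} (h : DomR κ t) (hk1 : 0.58 ≤ κ) (hk2 : κ ≤ 0.68) (ht1 : (-0.5745) ≤ t + κ) (ht2 : t + κ ≤ (-0.5116)) :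
    (-0.34) ≤ sy κ t ∧ sy κ t ≤ (-0.282) := by
  have hy1 : -0.34 ≤ sy κ t := syL_ge h 0.58 0.68 0.5745 0.34 0.71177 0.71178 0.3405 0.35588 0.41726 hk1 hk2 (by linarith) (by norm_num) (by norm_num) (by norm_num)
    (expm_ge (by norm_num) (by norm_num) (by norm_num) (by norm_num)) (expm_le (by norm_num) (by norm_num) (by norm_num)) (by norm_num)
    (by norm_num) (by norm_num) (by norm_num) (by norm_num) (by norm_num) (by norm_num)
  have hy2 : sy κ t ≤ -0.282 := syL_le h 0.58 0.68 0.5116 0.282 0.75427 0.75428 0.3128 0.36674 hk1 hk2 (by linarith) (by norm_num) (by norm_num) (by norm_num)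
    (expm_ge (by norm_num) (by norm_num) (by norm_num) (by norm_num)) (expm_le (by norm_num) (by norm_num) (by norm_num)) (by norm_num)
    (by norm_num) (by norm_num) (by norm_num) (by norm_num) (by norm_num) (by norm_num)
  exact ⟨by linarith, by linarith⟩

theorem b7_4_Bo {β r h κ T t s u Y : ℝ} (B : Bx 0.58 0.68 0.465 0.434 10 0.068 5.5092 β r h κ T) (hs : t + κ = s * h)
    (h1 : 0.36 ≤ u) (h2 : u ≤ 0.43) (h3 : u ≤ s) (h4 : s ≤ u + 0)
    (hY : eN r κ * (0.9234 * Real.exp (-(T * (1 / 2 * u ^ 2)))) ≤ Y) :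
    ‖Xf β r h t 0‖ ≤ 0.8851 * Y := by
  obtain ⟨t', ht'⟩ : ∃ t', t' = t + (-1) * h := ⟨_, rfl⟩
  have hτ : t' + κ = (s + (-1)) * h := by rw [ht']; linear_combination hs
  have a1 : (-0.5745) ≤ t' + κ := by rw [hτ]; have := mhiN7 B.P (x := s + (-1)) (x2 := 0.64) (τ2 := 0.5745) (by linarith) (by norm_num) (by norm_num); linarith
  have a2 : t' + κ ≤ (-0.5116) := by rw [hτ]; have := mloN7 B.P (x := s + (-1)) (x1 := 0.57) (τ1 := 0.5116) (by linarith) (by norm_num) (by norm_num); linarith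
  have hk := B.hk1
  have hk' := B.P.hκ1
  have hD : DomR κ t' := dom7 B.P.κ0 (by linarith) (by linarith)
  have hy := b7_4_Bo_y hD B.hk1 B.hk2 a1 a2
  have hJ : ‖HH β (sg κ t') - 1‖ ≤ 0.08 := JB7_k0a hD B.P.hβ (by linarith) B.P.hκ1 (by linarith) (by linarith) B.P.βκ B.P.βR
  have hd := Dlo7 hD (0.58 ^ 2) (0.68 ^ 2) 0.7363 (-0.34) (-0.282) (-0.34) 1.97386 hy.1 hy.2 (pow_le_pow_left₀ (by norm_num) B.hk1 2) (pow_le_pow_left₀ B.P.κ0.le B.hk2 2)
      (by rw [show (-2 * (-0.34) : ℝ) = 0.68 by norm_num]; exact expn_ge (by norm_num) (by norm_num)) (by norm_num) (by norm_num) (by norm_num) (by norm_num) (by norm_num)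
  have hc : sE κ t' ≤ 1 - 0.4835 * (t' + κ) ^ 2 / (1 + κ ^ 2) := VL_05_06 hD (by linarith) (by linarith) (by linarith)
  exact up7 (-1) 0.08 0.4835 0.7363 1.1659 0.9234 0.0646 0.701 0.8851 B (by norm_num) ht' hs hD (by norm_num) hJ hc hd (by norm_num) (by norm_num) (by norm_num) hY (by norm_num)
    (ch1 (a := (-1)) (by norm_num) (sqL h2 h4 (by norm_num) (by norm_num)) (by norm_num) h1 h2 (by norm_num) (by norm_num)) (by norm_num)
    (expn 0 0.3558 (by norm_num) (by norm_num) (by norm_num) (by norm_num)) (by norm_num) (by norm_num)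

private theorem b7_4_B2_y {κ t : ℝ} (h : DomR κ t) (hk1 : 0.58 ≤ κ) (hk2 : κ ≤ 0.68) (ht1 : 1.2207 ≤ t + κ) (ht2 : t + κ ≤ 1.2836) :
    0.325 ≤ sy κ t ∧ sy κ t ≤ 0.377 := by
  have hy1 : 0.325 ≤ sy κ t := syR_ge h 0.58 0.68 1.2207 0.325 1.38403 1.38404 0.66148 0.77554 hk1 hk2 (by linarith) (by norm_num) (by norm_num)
    (expn_ge (by norm_num) (by norm_num)) (expn_le (by norm_num) (by norm_num) (by norm_num)) (by norm_num)
    (by norm_num) (by norm_num) (by norm_num) (by norm_num) (by norm_num) (by norm_num)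
  have hy2 : sy κ t ≤ 0.377 := syR_le h 0.58 0.68 1.2836 0.377 1.4579 0.7734 0.80827 0.94765 hk1 hk2 (by linarith) (by norm_num) (by norm_num)
    (expn_ge (by norm_num) (by norm_num)) (by norm_num) (by norm_num) (Or.inr ((mul_le_mul_of_nonneg_left (expn_le (E := 1.45791) (by norm_num) (by norm_num) (by norm_num)) (by norm_num)).trans (by norm_num))) (by norm_num) (by norm_num) (by norm_num)
  exact ⟨by linarith, by linarith⟩

theorem b7_4_B2 {β r h κ T t s u Y : ℝ} (B : Bx 0.58 0.68 0.465 0.434 10 0.068 5.5092 β r h κ T) (hs : t + κ = s * h)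
    (h1 : 0.36 ≤ u) (h2 : u ≤ 0.43) (h3 : u ≤ s) (h4 : s ≤ u + 0)
    (hY : eN r κ * (0.9234 * Real.exp (-(T * (1 / 2 * u ^ 2)))) ≤ Y) :
    ‖Xf β r h t 2‖ ≤ 0.04408 * Y := by
  obtain ⟨t', ht'⟩ : ∃ t', t' = t + 1 * h := ⟨_, rfl⟩
  have hτ : t' + κ = (s + 1) * h := by rw [ht']; linear_combination hs
  have a1 : 1.2207 ≤ t' + κ := by rw [hτ]; exact mlo7 B.P (x1 := 1.36) (by linarith) (by norm_num) (by norm_num)
  have a2 : t' + κ ≤ 1.2836 := by rw [hτ]; exact mhi7 B.P (x2 := 1.43) (by linarith) (by norm_num) (by norm_num)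
  have hk := B.hk1
  have hk' := B.P.hκ1
  have hD : DomR κ t' := dom7 B.P.κ0 (by linarith) (by linarith)
  have hy := b7_4_B2_y hD B.hk1 B.hk2 a1 a2
  have hJ : ‖HH β (sg κ t') - 1‖ ≤ 0.06 := JB7_k2a hD B.P.hβ (by linarith) B.P.hκ1 (by linarith) (by linarith) B.P.βκ B.P.βR
  have hd := Dlo7 hD (0.58 ^ 2) (0.68 ^ 2) 1.2933 0.325 0.377 0.325 0.52204 hy.1 hy.2 (pow_le_pow_left₀ (by norm_num) B.hk1 2) (pow_le_pow_left₀ B.P.κ0.le B.hk2 2)
      (by rw [show (-2 * 0.325 : ℝ) = -0.65 by norm_num]; exact expm_ge (by norm_num) (by norm_num) (by norm_num) (by norm_num)) (by norm_num) (by norm_num) (by norm_num) (by norm_num) (by norm_num)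
  have hc : sE κ t' ≤ 1 - 0.3487 * (t' + κ) ^ 2 / (1 + κ ^ 2) := VR7 0.58 0.3487 1.2207 1.2836 _ _ _ _ _ B hD a1 a2 (by norm_num) (by norm_num) (by norm_num) (by norm_num) rfl rfl (by norm_num) rfl rfl rfl (by norm_num) (by norm_num)
  exact up7 1 0.06 0.3487 1.2933 0.994 0.9234 0.5801 0.04094 0.04408 B (by norm_num) ht' hs hD (by norm_num) hJ hc hd (by norm_num) (by norm_num) (by norm_num) hY (by norm_num)
    (ch1 (a := 1) (by norm_num) (sqR h1 h3 (by norm_num)) (by norm_num) h1 h2 (by norm_num) (by norm_num)) (by norm_num)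
    (expn 3 0.1958 (by norm_num) (by norm_num) (by norm_num) (by norm_num)) (by norm_num) (by norm_num)

theorem b7_4_B3R {β r h κ T t s u Y : ℝ} (B : Bx 0.58 0.68 0.465 0.434 10 0.068 5.5092 β r h κ T) (hs : t + κ = s * h)
    (h1 : 0.36 ≤ u) (h2 : u ≤ 0.43) (h3 : u ≤ s) (h4 : s ≤ u + 0) (htp : t + 2 * h ≤ Real.pi / 2)
    (hY : eN r κ * (0.9234 * Real.exp (-(T * (1 / 2 * u ^ 2)))) ≤ Y) :
    ‖Xf β r h t 3‖ ≤ 0.0020997 * Y := by
  refine leE (cR7 2 0.36 0.2683 2.1183 2.1812 _ _ _ _ _ 0.0287 3.2723 0.5239 0.0779 1.1244 0.9234 1.4295 0.0003848 0.001364 0.0925 0.8396 0.9442 3.1623 0.0001737 0.0007357 B (by norm_num) hs htp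
    (mlo7 B.P (x1 := 2.36) (by linarith) (by norm_num) (by norm_num)) (mhi7 B.P (x2 := 2.43) (by linarith) (by norm_num) (by norm_num)) hY g1_nn
    (g1_le (by linarith) h2 (by norm_num)) (ch1 (a := 2) (by norm_num) (sqR h1 h3 (by norm_num)) (by norm_num) h1 h2 (by norm_num) (by norm_num))
    (by norm_num) (by norm_num) (by norm_num) (by norm_num) rfl rfl (by norm_num) rfl rfl rfl (by norm_num) (by norm_num) (by norm_num) (by norm_num) (by norm_num) (by norm_num) (by norm_num) (by norm_num) (by norm_num) (by norm_num) (by norm_num) (by norm_num) (by norm_num) (by norm_num) (by norm_num) (by norm_num) (by norm_num) (by norm_num) (by norm_num)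
    (expn 7 0.8754 (by norm_num) (by norm_num) (by norm_num) (by norm_num)) (by norm_num) (by norm_num) (by norm_num) (by norm_num) (by norm_num) (by norm_num) (by norm_num) (by norm_num) (expn 8 0.663 (by norm_num) (by norm_num) (by norm_num) (by norm_num)) (by norm_num) (by norm_num)) (by norm_num) hY (by norm_num)

theorem b7_4_B3U {β r h κ T t s u Y : ℝ} (B : Bx 0.58 0.68 0.465 0.434 10 0.068 5.5092 β r h κ T) (hs : t + κ = s * h)
    (h1 : 0.36 ≤ u) (h2 : u ≤ 0.43) (h3 : u ≤ s) (h4 : s ≤ u + 0)(htp : Real.pi / 2 ≤ t + 2 * h)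
    (hY : eN r κ * (0.9234 * Real.exp (-(T * (1 / 2 * u ^ 2)))) ≤ Y) :
    ‖Xf β r h t (3)‖ ≤ 0.001005 * Y := by
  refine cU7 0 (2) 1.5707 2.1812 0.03 0.5239 0.03 2.4909 0.9234 0.0925 0.8396 0.9442 3.1623 0.0001071 0.001005 B (by norm_num) hs
    (half7 hs htp (by norm_num)) (mhi7 B.P (x2 := 2.43) (by push_cast; linarith) (by norm_num) (by norm_num)) hY g1_nn (g1_le (by linarith) h2 (by norm_num))
    (by norm_num) (by norm_num) (by norm_num) (by norm_num) (by norm_num) (by norm_num) (by norm_num) (by norm_num) (by norm_num) (by norm_num) (by norm_num) (by norm_num) (by norm_num) (by norm_num) (by norm_num) (by norm_num) (by norm_num) (by norm_num) (by norm_num)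
    (expn 9 0.142 (by norm_num) (by norm_num) (by norm_num) (by norm_num)) (by norm_num) (by norm_num)

theorem b7_4_B3 {β r h κ T t s u Y : ℝ} (B : Bx 0.58 0.68 0.465 0.434 10 0.068 5.5092 β r h κ T) (hs : t + κ = s * h)
    (h1 : 0.36 ≤ u) (h2 : u ≤ 0.43) (h3 : u ≤ s) (h4 : s ≤ u + 0)
    (hY : eN r κ * (0.9234 * Real.exp (-(T * (1 / 2 * u ^ 2)))) ≤ Y) :
    ‖Xf β r h t 3‖ ≤ 0.0020997 * Y := by
  rcases le_total (t + 2 * h) (Real.pi / 2) with hp | hp
  · exact leE (b7_4_B3R B hs h1 h2 h3 h4 hp hY) (by norm_num) hY (by norm_num)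
  · exact leE (b7_4_B3U B hs h1 h2 h3 h4 hp hY) (by norm_num) hY (by norm_num)

theorem b7_4_Bm1 {β r h κ T t s u Y : ℝ} (B : Bx 0.58 0.68 0.465 0.434 10 0.068 5.5092 β r h κ T) (hs : t + κ = s * h)
    (h1 : 0.36 ≤ u) (h2 : u ≤ 0.43) (h3 : u ≤ s) (h4 : s ≤ u + 0)
    (hY : eN r κ * (0.9234 * Real.exp (-(T * (1 / 2 * u ^ 2)))) ≤ Y) :
    ‖Xf β r h t (-1)‖ ≤ 0.0035172 * Y := by
  refine leE (cL7 (-2) 0.78 0.5 1.4092 1.4721 _ _ _ _ _ 0.5253 1.5821 0.5239 0 1.0236 0.9234 1.14 0.001874 0.003211 0.0925 0.8396 0.9442 3.1623 0.00007942 0.0003062 B (by norm_num) hs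
    (mloN7 B.P (x1 := 1.57) (by linarith) (by norm_num) (by norm_num)) (mhiN7 B.P (x2 := 1.64) (by linarith) (by norm_num) (by norm_num)) hY g1_nn
    (g1_le (by linarith) h2 (by norm_num)) (ch1 (a := (-2)) (by norm_num) (sqL h2 h4 (by norm_num) (by norm_num)) (by norm_num) h1 h2 (by norm_num) (by norm_num))
    (by norm_num) (by norm_num) (by norm_num) (by norm_num) rfl rfl (by norm_num) rfl rfl rfl (by norm_num) (by norm_num) (by norm_num) (by norm_num) (by norm_num) (by norm_num) (by norm_num) (by norm_num) (by norm_num) (by norm_num) (by norm_num) (by norm_num) (by norm_num) (by norm_num) (by norm_num) (by norm_num) (by norm_num) (by norm_num)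
    (expn 6 0.2804 (by norm_num) (by norm_num) (by norm_num) (by norm_num)) (by norm_num) (by norm_num) (by norm_num) (by norm_num) (by norm_num) (by norm_num) (by norm_num) (by norm_num) (expn 9 0.442 (by norm_num) (by norm_num) (by norm_num) (by norm_num)) (by norm_num) (by norm_num)) (by norm_num) hY (by norm_num)

theorem b7_4_Bm2 {β r h κ T t s u Y : ℝ} (B : Bx 0.58 0.68 0.465 0.434 10 0.068 5.5092 β r h κ T) (hs : t + κ = s * h)
    (h1 : 0.36 ≤ u) (h2 : u ≤ 0.43) (h3 : u ≤ s) (h4 : s ≤ u + 0)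
    (hY : eN r κ * (0.9234 * Real.exp (-(T * (1 / 2 * u ^ 2)))) ≤ Y) :
    ‖Xf β r h t (-2)‖ ≤ 0.0003285652 * Y := by
  refine leE (cL7 (-3) 0.6 0.4577 2.3068 2.3697 _ _ _ _ _ 0.5461 1.5668 0.5239 0 1.0977 0.9234 2.9306 0.00000009733 0.0000001652 0.0925 0.8396 0.9442 3.1623 0.00007942 0.0003284 B (by norm_num) hs
    (mloN7 B.P (x1 := 2.57) (by linarith) (by norm_num) (by norm_num)) (mhiN7 B.P (x2 := 2.64) (by linarith) (by norm_num) (by norm_num)) hY g1_nn
    (g1_le (by linarith) h2 (by norm_num)) (ch1 (a := (-3)) (by norm_num) (sqL h2 h4 (by norm_num) (by norm_num)) (by norm_num) h1 h2 (by norm_num) (by norm_num))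
    (by norm_num) (by norm_num) (by norm_num) (by norm_num) rfl rfl (by norm_num) rfl rfl rfl (by norm_num) (by norm_num) (by norm_num) (by norm_num) (by norm_num) (by norm_num) (by norm_num) (by norm_num) (by norm_num) (by norm_num) (by norm_num) (by norm_num) (by norm_num) (by norm_num) (by norm_num) (by norm_num) (by norm_num) (by norm_num)
    (expn 16 0.1452 (by norm_num) (by norm_num) (by norm_num) (by norm_num)) (by norm_num) (by norm_num) (by norm_num) (by norm_num) (by norm_num) (by norm_num) (by norm_num) (by norm_num) (expn 9 0.442 (by norm_num) (by norm_num) (by norm_num) (by norm_num)) (by norm_num) (by norm_num)) (by norm_num) hY (by norm_num)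

theorem b7_4_Bm3 {β r h κ T t s u Y : ℝ} (B : Bx 0.58 0.68 0.465 0.434 10 0.068 5.5092 β r h κ T) (hs : t + κ = s * h)
    (h1 : 0.36 ≤ u) (h2 : u ≤ 0.43) (h3 : u ≤ s) (h4 : s ≤ u + 0)
    (hY : eN r κ * (0.9234 * Real.exp (-(T * (1 / 2 * u ^ 2)))) ≤ Y) :
    ‖Xf β r h t (-3)‖ ≤ 0.0004889 * Y := by
  refine cU7 1 (-4) 2.3359 3.0788 0.02 0.5239 0.02 1.3395 0.9234 0.0925 0.8396 0.9442 3.1623 0.0000969 0.0004889 B (by norm_num) hs
    (full7 B.P B.hk2 (x1 := 3.36) (by push_cast; linarith) (by norm_num) (by norm_num)) (mhi7 B.P (x2 := 3.43) (by push_cast; linarith) (by norm_num) (by norm_num)) hY g1_nn (g1_le (by linarith) h2 (by norm_num))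
    (by norm_num) (by norm_num) (by norm_num) (by norm_num) (by norm_num) (by norm_num) (by norm_num) (by norm_num) (by norm_num) (by norm_num) (by norm_num) (by norm_num) (by norm_num) (by norm_num) (by norm_num) (by norm_num) (by norm_num) (by norm_num) (by norm_num)
    (expn 9 0.242 (by norm_num) (by norm_num) (by norm_num) (by norm_num)) (by norm_num) (by norm_num)

private theorem b7_4_Co_y {κ t : ℝ} (h : DomR κ t) (hk1 : 0.58 ≤ κ) (hk2 : κ ≤ 0.68) (ht1 : 0.5295 ≤ t + κ) (ht2 : t + κ ≤ 0.6732) :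
    0.184 ≤ sy κ t ∧ sy κ t ≤ 0.243 := by
  have hy1 : 0.184 ≤ sy κ t := syR_ge h 0.58 0.68 0.5295 0.184 1.20201 1.20202 0.32524 0.38134 hk1 hk2 (by linarith) (by norm_num) (by norm_num)
    (expn_ge (by norm_num) (by norm_num)) (expn_le (by norm_num) (by norm_num) (by norm_num)) (by norm_num)
    (by norm_num) (by norm_num) (by norm_num) (by norm_num) (by norm_num) (by norm_num)
  have hy2 : sy κ t ≤ 0.243 := syR_le h 0.58 0.68 0.6732 0.243 1.27506 0.4359 0.45564 0.53422 hk1 hk2 (by linarith) (by norm_num) (by norm_num)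
    (expn_ge (by norm_num) (by norm_num)) (by norm_num) (by norm_num) (Or.inr ((mul_le_mul_of_nonneg_left (expn_le (E := 1.27507) (by norm_num) (by norm_num) (by norm_num)) (by norm_num)).trans (by norm_num))) (by norm_num) (by norm_num) (by norm_num)
  exact ⟨by linarith, by linarith⟩

theorem b7_4_Co {β r h κ T t s u Y : ℝ} (B : Bx 0.58 0.68 0.465 0.434 10 0.068 5.5092 β r h κ T) (hs : t + κ = s * h)
    (h1 : 0.59 ≤ u) (h2 : u ≤ 0.75) (h3 : u ≤ s) (h4 : s ≤ u + 0)
    (hY : eN r κ * (0.9147 * Real.exp (-(T * (0.5934 * (1 - u) ^ 2)))) ≤ Y) :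
    ‖Xf β r h t 1‖ ≤ 0.8612 * Y := by
  obtain ⟨t', ht'⟩ : ∃ t', t' = t + 0 * h := ⟨_, rfl⟩
  have hτ : t' + κ = (s + 0) * h := by rw [ht']; linear_combination hs
  have a1 : 0.5295 ≤ t' + κ := by rw [hτ]; exact mlo7 B.P (x1 := 0.59) (by linarith) (by norm_num) (by norm_num)
  have a2 : t' + κ ≤ 0.6732 := by rw [hτ]; exact mhi7 B.P (x2 := 0.75) (by linarith) (by norm_num) (by norm_num)
  have hk := B.hk1
  have hk' := B.P.hκ1
  have hD : DomR κ t' := dom7 B.P.κ0 (by linarith) (by linarith)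
  have hy := b7_4_Co_y hD B.hk1 B.hk2 a1 a2
  have hJ : ‖HH β (sg κ t') - 1‖ ≤ 0.035 := by
    rcases le_total (t' + κ) 0.61 with hc | hc
    · exact (JB7_k1a hD B.P.hβ (by linarith) B.P.hκ1 (by linarith) (by linarith) B.P.βκ B.P.βR).trans (by norm_num)
    · exact JB7_k1b hD B.P.hβ (by linarith) B.P.hκ1 (by linarith) (by linarith) B.P.βκ B.P.βR
  have hd := Dlo7 hD (0.58 ^ 2) (0.68 ^ 2) 1.1542 0.184 0.243 0.184 0.69211 hy.1 hy.2 (pow_le_pow_left₀ (by norm_num) B.hk1 2) (pow_le_pow_left₀ B.P.κ0.le B.hk2 2)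
      (by rw [show (-2 * 0.184 : ℝ) = -0.368 by norm_num]; exact expm_ge (by norm_num) (by norm_num) (by norm_num) (by norm_num)) (by norm_num) (by norm_num) (by norm_num) (by norm_num) (by norm_num)
  have hc : sE κ t' ≤ 1 - 0.4106 * (t' + κ) ^ 2 / (1 + κ ^ 2) := VR7 0.74 0.4106 0.5295 0.6732 _ _ _ _ _ B hD a1 a2 (by norm_num) (by norm_num) (by norm_num) (by norm_num) rfl rfl (by norm_num) rfl rfl rfl (by norm_num) (by norm_num)
  exact up7 0 0.035 0.4106 1.1542 0.9986 0.9147 0.0431 0.7888 0.8612 B (by norm_num) ht' hs hD (by norm_num) hJ hc hd (by norm_num) (by norm_num) (by norm_num) hY (by norm_num)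
    (ch0 (a := 0) (by norm_num) (sqR h1 h3 (by norm_num)) (by norm_num) h1 h2 (by norm_num) (by norm_num)) (by norm_num)
    (expn 0 0.2374 (by norm_num) (by norm_num) (by norm_num) (by norm_num)) (by norm_num) (by norm_num)

theorem b7_4_C2R {β r h κ T t s u Y : ℝ} (B : Bx 0.58 0.68 0.465 0.434 10 0.068 5.5092 β r h κ T) (hs : t + κ = s * h)
    (h1 : 0.59 ≤ u) (h2 : u ≤ 0.75) (h3 : u ≤ s) (h4 : s ≤ u + 0) (htp : t + 1 * h ≤ Real.pi / 2)
    (hY : eN r κ * (0.9147 * Real.exp (-(T * (0.5934 * (1 - u) ^ 2)))) ≤ Y) :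
    ‖Xf β r h t 2‖ ≤ 0.08693 * Y := by
  refine leE (cR7 1 0.42 0.305 1.4271 1.5708 _ _ _ _ _ 0.088 2.4729 0.5239 0.4067 1.0632 0.9147 0.6713 0.02491 0.06735 0.0998 0.8317 0.9398 3.1623 0.004842 0.01958 B (by norm_num) hs htp
    (mlo7 B.P (x1 := 1.59) (by linarith) (by norm_num) (by norm_num)) (mhi7 B.P (x2 := 1.75) (by linarith) (by norm_num) (by norm_num)) hY (g0_nn (by norm_num))
    (g0_le (by norm_num) h1 h2 (by norm_num) (by norm_num)) (ch0 (a := 1) (by norm_num) (sqR h1 h3 (by norm_num)) (by norm_num) h1 h2 (by norm_num) (by norm_num))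
    (by norm_num) (by norm_num) (by norm_num) (by norm_num) rfl rfl (by norm_num) rfl rfl rfl (by norm_num) (by norm_num) (by norm_num) (by norm_num) (by norm_num) (by norm_num) (by norm_num) (by norm_num) (by norm_num) (by norm_num) (by norm_num) (by norm_num) (by norm_num) (by norm_num) (by norm_num) (by norm_num) (by norm_num) (by norm_num) (by norm_num)
    (expn 3 0.6983 (by norm_num) (by norm_num) (by norm_num) (by norm_num)) (by norm_num) (by norm_num) (by norm_num) (by norm_num) (by norm_num) (by norm_num) (by norm_num) (by norm_num) (expn 5 0.331 (by norm_num) (by norm_num) (by norm_num) (by norm_num)) (by norm_num) (by norm_num)) (by norm_num) hY (by norm_num)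

theorem b7_4_C2 {β r h κ T t s u Y : ℝ} (B : Bx 0.58 0.68 0.465 0.434 10 0.068 5.5092 β r h κ T) (hs : t + κ = s * h)
    (h1 : 0.59 ≤ u) (h2 : u ≤ 0.75) (h3 : u ≤ s) (h4 : s ≤ u + 0)
    (hY : eN r κ * (0.9147 * Real.exp (-(T * (0.5934 * (1 - u) ^ 2)))) ≤ Y) :
    ‖Xf β r h t 2‖ ≤ 0.08693 * Y := by
  have hp : t + 1 * h ≤ Real.pi / 2 := by
    have e : t + 1 * h = (s + 1) * h - κ := by linear_combination hs
    have := mhi7 B.P (x := s + 1) (x2 := 1.75) (by linarith) (by norm_num) (le_refl _)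
    have := B.hk1
    have := Real.pi_gt_d6
    rw [e]
    norm_num at *
    linarith
  exact leE (b7_4_C2R B hs h1 h2 h3 h4 hp hY) (by norm_num) hY (by norm_num)

theorem b7_4_C3U {β r h κ T t s u Y : ℝ} (B : Bx 0.58 0.68 0.465 0.434 10 0.068 5.5092 β r h κ T) (hs : t + κ = s * h)
    (h1 : 0.59 ≤ u) (h2 : u ≤ 0.75) (h3 : u ≤ s) (h4 : s ≤ u + 0)(htp : Real.pi / 2 ≤ t + 2 * h)
    (hY : eN r κ * (0.9147 * Real.exp (-(T * (0.5934 * (1 - u) ^ 2)))) ≤ Y) :
    ‖Xf β r h t (3)‖ ≤ 0.00106 * Y := by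
  refine cU7 0 (2) 1.5707 2.4684 0.03 0.5239 0.03 2.4909 0.9147 0.0998 0.8317 0.9398 3.1623 0.0001119 0.00106 B (by norm_num) hs
    (half7 hs htp (by norm_num)) (mhi7 B.P (x2 := 2.75) (by push_cast; linarith) (by norm_num) (by norm_num)) hY (g0_nn (by norm_num)) (g0_le (by norm_num) h1 h2 (by norm_num) (by norm_num))
    (by norm_num) (by norm_num) (by norm_num) (by norm_num) (by norm_num) (by norm_num) (by norm_num) (by norm_num) (by norm_num) (by norm_num) (by norm_num) (by norm_num) (by norm_num) (by norm_num) (by norm_num) (by norm_num) (by norm_num) (by norm_num) (by norm_num)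
    (expn 9 0.098 (by norm_num) (by norm_num) (by norm_num) (by norm_num)) (by norm_num) (by norm_num)

theorem b7_4_C3 {β r h κ T t s u Y : ℝ} (B : Bx 0.58 0.68 0.465 0.434 10 0.068 5.5092 β r h κ T) (hs : t + κ = s * h)
    (h1 : 0.59 ≤ u) (h2 : u ≤ 0.75) (h3 : u ≤ s) (h4 : s ≤ u + 0)
    (hY : eN r κ * (0.9147 * Real.exp (-(T * (0.5934 * (1 - u) ^ 2)))) ≤ Y) :
    ‖Xf β r h t 3‖ ≤ 0.00106 * Y := by
  have hp : Real.pi / 2 ≤ t + 2 * h := by
    have e : t + 2 * h = (s + 2) * h - κ := by linear_combination hs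
    have := mlo7 B.P (x := s + 2) (x1 := 2.59) (by linarith) (by norm_num) (le_refl _)
    have := B.hk2
    have := Real.pi_lt_d6
    rw [e]
    norm_num at *
    linarith
  exact leE (b7_4_C3U B hs h1 h2 h3 h4 hp hY) (by norm_num) hY (by norm_num)

theorem b7_4_Cm1 {β r h κ T t s u Y : ℝ} (B : Bx 0.58 0.68 0.465 0.434 10 0.068 5.5092 β r h κ T) (hs : t + κ = s * h)
    (h1 : 0.59 ≤ u) (h2 : u ≤ 0.75) (h3 : u ≤ s) (h4 : s ≤ u + 0)
    (hY : eN r κ * (0.9147 * Real.exp (-(T * (0.5934 * (1 - u) ^ 2)))) ≤ Y) :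
    ‖Xf β r h t (-1)‖ ≤ 0.0136855 * Y := by
  refine leE (cL7 (-2) 1.04 0.5934 1.1219 1.2657 _ _ _ _ _ 0.4749 1.6225 0.5239 0 1.0635 0.9147 0.8901 0.007522 0.01335 0.0998 0.8317 0.9398 3.1623 0.00008296 0.0003355 B (by norm_num) hs
    (mloN7 B.P (x1 := 1.25) (by linarith) (by norm_num) (by norm_num)) (mhiN7 B.P (x2 := 1.41) (by linarith) (by norm_num) (by norm_num)) hY (g0_nn (by norm_num))
    (g0_le (by norm_num) h1 h2 (by norm_num) (by norm_num)) (ch0 (a := (-2)) (by norm_num) (sqL h2 h4 (by norm_num) (by norm_num)) (by norm_num) h1 h2 (by norm_num) (by norm_num))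
    (by norm_num) (by norm_num) (by norm_num) (by norm_num) rfl rfl (by norm_num) rfl rfl rfl (by norm_num) (by norm_num) (by norm_num) (by norm_num) (by norm_num) (by norm_num) (by norm_num) (by norm_num) (by norm_num) (by norm_num) (by norm_num) (by norm_num) (by norm_num) (by norm_num) (by norm_num) (by norm_num) (by norm_num) (by norm_num)
    (expn 4 0.9037 (by norm_num) (by norm_num) (by norm_num) (by norm_num)) (by norm_num) (by norm_num) (by norm_num) (by norm_num) (by norm_num) (by norm_num) (by norm_num) (by norm_num) (expn 9 0.398 (by norm_num) (by norm_num) (by norm_num) (by norm_num)) (by norm_num) (by norm_num)) (by norm_num) hY (by norm_num)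

theorem b7_4_Cm2 {β r h κ T t s u Y : ℝ} (B : Bx 0.58 0.68 0.465 0.434 10 0.068 5.5092 β r h κ T) (hs : t + κ = s * h)
    (h1 : 0.59 ≤ u) (h2 : u ≤ 0.75) (h3 : u ≤ s) (h4 : s ≤ u + 0)
    (hY : eN r κ * (0.9147 * Real.exp (-(T * (0.5934 * (1 - u) ^ 2)))) ≤ Y) :
    ‖Xf β r h t (-2)‖ ≤ 0.000342779 * Y := by
  refine leE (cL7 (-3) 0.6 0.454 2.0195 2.1633 _ _ _ _ _ 0.5119 1.5923 0.5239 0 1.0652 0.9147 2.2612 0.000003894 0.000006779 0.0998 0.8317 0.9398 3.1623 0.00008296 0.000336 B (by norm_num) hs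
    (mloN7 B.P (x1 := 2.25) (by linarith) (by norm_num) (by norm_num)) (mhiN7 B.P (x2 := 2.41) (by linarith) (by norm_num) (by norm_num)) hY (g0_nn (by norm_num))
    (g0_le (by norm_num) h1 h2 (by norm_num) (by norm_num)) (ch0 (a := (-3)) (by norm_num) (sqL h2 h4 (by norm_num) (by norm_num)) (by norm_num) h1 h2 (by norm_num) (by norm_num))
    (by norm_num) (by norm_num) (by norm_num) (by norm_num) rfl rfl (by norm_num) rfl rfl rfl (by norm_num) (by norm_num) (by norm_num) (by norm_num) (by norm_num) (by norm_num) (by norm_num) (by norm_num) (by norm_num) (by norm_num) (by norm_num) (by norm_num) (by norm_num) (by norm_num) (by norm_num) (by norm_num) (by norm_num) (by norm_num)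
    (expn 12 0.4574 (by norm_num) (by norm_num) (by norm_num) (by norm_num)) (by norm_num) (by norm_num) (by norm_num) (by norm_num) (by norm_num) (by norm_num) (by norm_num) (by norm_num) (expn 9 0.398 (by norm_num) (by norm_num) (by norm_num) (by norm_num)) (by norm_num) (by norm_num)) (by norm_num) hY (by norm_num)

theorem b7_4_Cm3 {β r h κ T t s u Y : ℝ} (B : Bx 0.58 0.68 0.465 0.434 10 0.068 5.5092 β r h κ T) (hs : t + κ = s * h)
    (h1 : 0.59 ≤ u) (h2 : u ≤ 0.75) (h3 : u ≤ s) (h4 : s ≤ u + 0)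
    (hY : eN r κ * (0.9147 * Real.exp (-(T * (0.5934 * (1 - u) ^ 2)))) ≤ Y) :
    ‖Xf β r h t (-3)‖ ≤ 0.0005124 * Y := by
  refine cU7 1 (-4) 2.5423 3.366 0.02 0.5239 0.02 1.3301 0.9147 0.0998 0.8317 0.9398 3.1623 0.0001013 0.0005124 B (by norm_num) hs
    (full7 B.P B.hk2 (x1 := 3.59) (by push_cast; linarith) (by norm_num) (by norm_num)) (mhi7 B.P (x2 := 3.75) (by push_cast; linarith) (by norm_num) (by norm_num)) hY (g0_nn (by norm_num)) (g0_le (by norm_num) h1 h2 (by norm_num) (by norm_num))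
    (by norm_num) (by norm_num) (by norm_num) (by norm_num) (by norm_num) (by norm_num) (by norm_num) (by norm_num) (by norm_num) (by norm_num) (by norm_num) (by norm_num) (by norm_num) (by norm_num) (by norm_num) (by norm_num) (by norm_num) (by norm_num) (by norm_num)
    (expn 9 0.198 (by norm_num) (by norm_num) (by norm_num) (by norm_num)) (by norm_num) (by norm_num)

private theorem b7_4_Do_y {κ t : ℝ} (h : DomR κ t) (hk1 : 0.58 ≤ κ) (hk2 : κ ≤ 0.68) (ht1 : 0.6731 ≤ t + κ) (ht2 : t + κ ≤ 0.9425) :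
    0.221 ≤ sy κ t ∧ sy κ t ≤ 0.309 := by
  have hy1 : 0.221 ≤ sy κ t := syR_ge h 0.58 0.68 0.6731 0.221 1.24732 1.24733 0.40537 0.47528 hk1 hk2 (by linarith) (by norm_num) (by norm_num)
    (expn_ge (by norm_num) (by norm_num)) (expn_le (by norm_num) (by norm_num) (by norm_num)) (by norm_num)
    (by norm_num) (by norm_num) (by norm_num) (by norm_num) (by norm_num) (by norm_num)
  have hy2 : sy κ t ≤ 0.309 := syR_le h 0.58 0.68 0.9425 0.309 1.36206 0.6011 0.61893 0.72566 hk1 hk2 (by linarith) (by norm_num) (by norm_num)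
    (expn_ge (by norm_num) (by norm_num)) (by norm_num) (by norm_num) (Or.inr ((mul_le_mul_of_nonneg_left (expn_le (E := 1.36207) (by norm_num) (by norm_num) (by norm_num)) (by norm_num)).trans (by norm_num))) (by norm_num) (by norm_num) (by norm_num)
  exact ⟨by linarith, by linarith⟩

theorem b7_4_Do {β r h κ T t s u Y : ℝ} (B : Bx 0.58 0.68 0.465 0.434 10 0.068 5.5092 β r h κ T) (hs : t + κ = s * h)
    (h1 : 0.75 ≤ u) (h2 : u ≤ 1.05) (h3 : u ≤ s) (h4 : s ≤ u + 0)
    (hY : eN r κ * (0.9147 * Real.exp (-(T * (0.5934 * (1 - u) ^ 2)))) ≤ Y) :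
    ‖Xf β r h t 1‖ ≤ 0.4156 * Y := by
  obtain ⟨t', ht'⟩ : ∃ t', t' = t + 0 * h := ⟨_, rfl⟩
  have hτ : t' + κ = (s + 0) * h := by rw [ht']; linear_combination hs
  have a1 : 0.6731 ≤ t' + κ := by rw [hτ]; exact mlo7 B.P (x1 := 0.75) (by linarith) (by norm_num) (by norm_num)
  have a2 : t' + κ ≤ 0.9425 := by rw [hτ]; exact mhi7 B.P (x2 := 1.05) (by linarith) (by norm_num) (by norm_num)
  have hk := B.hk1
  have hk' := B.P.hκ1
  have hD : DomR κ t' := dom7 B.P.κ0 (by linarith) (by linarith)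
  have hy := b7_4_Do_y hD B.hk1 B.hk2 a1 a2
  have hJ : ‖HH β (sg κ t') - 1‖ ≤ 0.035 := JB7_k1b hD B.P.hβ (by linarith) B.P.hκ1 (by linarith) (by linarith) B.P.βκ B.P.βR
  have hd := Dlo7 hD (0.58 ^ 2) (0.68 ^ 2) 1.1892 0.221 0.309 0.221 0.64274 hy.1 hy.2 (pow_le_pow_left₀ (by norm_num) B.hk1 2) (pow_le_pow_left₀ B.P.κ0.le B.hk2 2)
      (by rw [show (-2 * 0.221 : ℝ) = -0.442 by norm_num]; exact expm_ge (by norm_num) (by norm_num) (by norm_num) (by norm_num)) (by norm_num) (by norm_num) (by norm_num) (by norm_num) (by norm_num)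
  have hc : sE κ t' ≤ 1 - 0.381 * (t' + κ) ^ 2 / (1 + κ ^ 2) := VR7 0.66 0.381 0.6731 0.9425 _ _ _ _ _ B hD a1 a2 (by norm_num) (by norm_num) (by norm_num) (by norm_num) rfl rfl (by norm_num) rfl rfl rfl (by norm_num) (by norm_num)
  exact up7 0 0.035 0.381 1.1892 0.9912 0.9147 0.1772 0.3835 0.4156 B (by norm_num) ht' hs hD (by norm_num) hJ hc hd (by norm_num) (by norm_num) (by norm_num) hY (by norm_num)
    (ch0 (a := 0) (by norm_num) (sqR h1 h3 (by norm_num)) (by norm_num) h1 h2 (by norm_num) (by norm_num)) (by norm_num)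
    (expn 0 0.9762 (by norm_num) (by norm_num) (by norm_num) (by norm_num)) (by norm_num) (by norm_num)

theorem b7_4_D2R {β r h κ T t s u Y : ℝ} (B : Bx 0.58 0.68 0.465 0.434 10 0.068 5.5092 β r h κ T) (hs : t + κ = s * h)
    (h1 : 0.75 ≤ u) (h2 : u ≤ 1.05) (h3 : u ≤ s) (h4 : s ≤ u + 0) (htp : t + 1 * h ≤ Real.pi / 2)
    (hY : eN r κ * (0.9147 * Real.exp (-(T * (0.5934 * (1 - u) ^ 2)))) ≤ Y) :
    ‖Xf β r h t 2‖ ≤ 0.037726 * Y := by
  refine leE (cR7 1 0.38 0.2835 1.5707 1.8401 _ _ _ _ _ 0.0698 2.6203 0.5239 0.3559 1.0825 0.9147 0.8311 0.0103 0.02951 0.0371 0.8317 0.9776 3.1623 0.001996 0.008216 B (by norm_num) hs htp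
    (mlo7 B.P (x1 := 1.75) (by linarith) (by norm_num) (by norm_num)) (mhi7 B.P (x2 := 2.05) (by linarith) (by norm_num) (by norm_num)) hY (g0_nn (by norm_num))
    (g0_le (by norm_num) h1 h2 (by norm_num) (by norm_num)) (ch0 (a := 1) (by norm_num) (sqR h1 h3 (by norm_num)) (by norm_num) h1 h2 (by norm_num) (by norm_num))
    (by norm_num) (by norm_num) (by norm_num) (by norm_num) rfl rfl (by norm_num) rfl rfl rfl (by norm_num) (by norm_num) (by norm_num) (by norm_num) (by norm_num) (by norm_num) (by norm_num) (by norm_num) (by norm_num) (by norm_num) (by norm_num) (by norm_num) (by norm_num) (by norm_num) (by norm_num) (by norm_num) (by norm_num) (by norm_num) (by norm_num)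
    (expn 4 0.5786 (by norm_num) (by norm_num) (by norm_num) (by norm_num)) (by norm_num) (by norm_num) (by norm_num) (by norm_num) (by norm_num) (by norm_num) (by norm_num) (by norm_num) (expn 6 0.217 (by norm_num) (by norm_num) (by norm_num) (by norm_num)) (by norm_num) (by norm_num)) (by norm_num) hY (by norm_num)

theorem b7_4_D2 {β r h κ T t s u Y : ℝ} (B : Bx 0.58 0.68 0.465 0.434 10 0.068 5.5092 β r h κ T) (hs : t + κ = s * h)
    (h1 : 0.75 ≤ u) (h2 : u ≤ 1.05) (h3 : u ≤ s) (h4 : s ≤ u + 0)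
    (hY : eN r κ * (0.9147 * Real.exp (-(T * (0.5934 * (1 - u) ^ 2)))) ≤ Y) :
    ‖Xf β r h t 2‖ ≤ 0.037726 * Y := by
  have hp : t + 1 * h ≤ Real.pi / 2 := by
    have e : t + 1 * h = (s + 1) * h - κ := by linear_combination hs
    have := mhi7 B.P (x := s + 1) (x2 := 2.05) (by linarith) (by norm_num) (le_refl _)
    have := B.hk1
    have := Real.pi_gt_d6
    rw [e]
    norm_num at *
    linarith
  exact leE (b7_4_D2R B hs h1 h2 h3 h4 hp hY) (by norm_num) hY (by norm_num)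

theorem b7_4_D3U {β r h κ T t s u Y : ℝ} (B : Bx 0.58 0.68 0.465 0.434 10 0.068 5.5092 β r h κ T) (hs : t + κ = s * h)
    (h1 : 0.75 ≤ u) (h2 : u ≤ 1.05) (h3 : u ≤ s) (h4 : s ≤ u + 0)(htp : Real.pi / 2 ≤ t + 2 * h)
    (hY : eN r κ * (0.9147 * Real.exp (-(T * (0.5934 * (1 - u) ^ 2)))) ≤ Y) :
    ‖Xf β r h t (3)‖ ≤ 0.0007208 * Y := by
  refine cU7 0 (2) 1.5707 2.7377 0.05 0.5239 0.05 2.0238 0.9147 0.0371 0.8317 0.9776 3.1623 0.00009367 0.0007208 B (by norm_num) hs
    (half7 hs htp (by norm_num)) (mhi7 B.P (x2 := 3.05) (by push_cast; linarith) (by norm_num) (by norm_num)) hY (g0_nn (by norm_num)) (g0_le (by norm_num) h1 h2 (by norm_num) (by norm_num))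
    (by norm_num) (by norm_num) (by norm_num) (by norm_num) (by norm_num) (by norm_num) (by norm_num) (by norm_num) (by norm_num) (by norm_num) (by norm_num) (by norm_num) (by norm_num) (by norm_num) (by norm_num) (by norm_num) (by norm_num) (by norm_num) (by norm_num)
    (expn 9 0.276 (by norm_num) (by norm_num) (by norm_num) (by norm_num)) (by norm_num) (by norm_num)

theorem b7_4_D3 {β r h κ T t s u Y : ℝ} (B : Bx 0.58 0.68 0.465 0.434 10 0.068 5.5092 β r h κ T) (hs : t + κ = s * h)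
    (h1 : 0.75 ≤ u) (h2 : u ≤ 1.05) (h3 : u ≤ s) (h4 : s ≤ u + 0)
    (hY : eN r κ * (0.9147 * Real.exp (-(T * (0.5934 * (1 - u) ^ 2)))) ≤ Y) :
    ‖Xf β r h t 3‖ ≤ 0.0007208 * Y := by
  have hp : Real.pi / 2 ≤ t + 2 * h := by
    have e : t + 2 * h = (s + 2) * h - κ := by linear_combination hs
    have := mlo7 B.P (x := s + 2) (x1 := 2.75) (by linarith) (by norm_num) (le_refl _)
    have := B.hk2
    have := Real.pi_lt_d6
    rw [e]
    norm_num at *
    linarith
  exact leE (b7_4_D3U B hs h1 h2 h3 h4 hp hY) (by norm_num) hY (by norm_num)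

theorem b7_4_Dm1 {β r h κ T t s u Y : ℝ} (B : Bx 0.58 0.68 0.465 0.434 10 0.068 5.5092 β r h κ T) (hs : t + κ = s * h)
    (h1 : 0.75 ≤ u) (h2 : u ≤ 1.05) (h3 : u ≤ s) (h4 : s ≤ u + 0)
    (hY : eN r κ * (0.9147 * Real.exp (-(T * (0.5934 * (1 - u) ^ 2)))) ≤ Y) :
    ‖Xf β r h t (-1)‖ ≤ 0.1064048 * Y := by
  refine leE (cL7 (-2) 1.18 0.5834 0.8527 1.122 _ _ _ _ _ 0.3794 1.7161 0.5239 0.1369 1.0647 0.9147 0.525 0.05619 0.1055 0.0371 0.8317 0.9776 3.1623 0.0002235 0.0009048 B (by norm_num) hs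
    (mloN7 B.P (x1 := 0.95) (by linarith) (by norm_num) (by norm_num)) (mhiN7 B.P (x2 := 1.25) (by linarith) (by norm_num) (by norm_num)) hY (g0_nn (by norm_num))
    (g0_le (by norm_num) h1 h2 (by norm_num) (by norm_num)) (ch0 (a := (-2)) (by norm_num) (sqL h2 h4 (by norm_num) (by norm_num)) (by norm_num) h1 h2 (by norm_num) (by norm_num))
    (by norm_num) (by norm_num) (by norm_num) (by norm_num) rfl rfl (by norm_num) rfl rfl rfl (by norm_num) (by norm_num) (by norm_num) (by norm_num) (by norm_num) (by norm_num) (by norm_num) (by norm_num) (by norm_num) (by norm_num) (by norm_num) (by norm_num) (by norm_num) (by norm_num) (by norm_num) (by norm_num) (by norm_num) (by norm_num)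
    (expn 2 0.8923 (by norm_num) (by norm_num) (by norm_num) (by norm_num)) (by norm_num) (by norm_num) (by norm_num) (by norm_num) (by norm_num) (by norm_num) (by norm_num) (by norm_num) (expn 8 0.407 (by norm_num) (by norm_num) (by norm_num) (by norm_num)) (by norm_num) (by norm_num)) (by norm_num) hY (by norm_num)

theorem b7_4_Dm2 {β r h κ T t s u Y : ℝ} (B : Bx 0.58 0.68 0.465 0.434 10 0.068 5.5092 β r h κ T) (hs : t + κ = s * h)
    (h1 : 0.75 ≤ u) (h2 : u ≤ 1.05) (h3 : u ≤ s) (h4 : s ≤ u + 0)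
    (hY : eN r κ * (0.9147 * Real.exp (-(T * (0.5934 * (1 - u) ^ 2)))) ≤ Y) :
    ‖Xf β r h t (-2)‖ ≤ 0.00026863 * Y := by
  refine leE (cL7 (-3) 0.84 0.5572 1.7503 2.0196 _ _ _ _ _ 0.4173 1.6758 0.5239 0 1.1609 0.9147 2.1172 0.00000864 0.00001583 0.0371 0.8317 0.9776 3.1623 0.00005727 0.0002528 B (by norm_num) hs
    (mloN7 B.P (x1 := 1.95) (by linarith) (by norm_num) (by norm_num)) (mhiN7 B.P (x2 := 2.25) (by linarith) (by norm_num) (by norm_num)) hY (g0_nn (by norm_num))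
    (g0_le (by norm_num) h1 h2 (by norm_num) (by norm_num)) (ch0 (a := (-3)) (by norm_num) (sqL h2 h4 (by norm_num) (by norm_num)) (by norm_num) h1 h2 (by norm_num) (by norm_num))
    (by norm_num) (by norm_num) (by norm_num) (by norm_num) rfl rfl (by norm_num) rfl rfl rfl (by norm_num) (by norm_num) (by norm_num) (by norm_num) (by norm_num) (by norm_num) (by norm_num) (by norm_num) (by norm_num) (by norm_num) (by norm_num) (by norm_num) (by norm_num) (by norm_num) (by norm_num) (by norm_num) (by norm_num) (by norm_num)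
    (expn 11 0.664 (by norm_num) (by norm_num) (by norm_num) (by norm_num)) (by norm_num) (by norm_num) (by norm_num) (by norm_num) (by norm_num) (by norm_num) (by norm_num) (by norm_num) (expn 9 0.776 (by norm_num) (by norm_num) (by norm_num) (by norm_num)) (by norm_num) (by norm_num)) (by norm_num) hY (by norm_num)

theorem b7_4_Dm3 {β r h κ T t s u Y : ℝ} (B : Bx 0.58 0.68 0.465 0.434 10 0.068 5.5092 β r h κ T) (hs : t + κ = s * h)
    (h1 : 0.75 ≤ u) (h2 : u ≤ 1.05) (h3 : u ≤ s) (h4 : s ≤ u + 0)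
    (hY : eN r κ * (0.9147 * Real.exp (-(T * (0.5934 * (1 - u) ^ 2)))) ≤ Y) :
    ‖Xf β r h t (-3)‖ ≤ 0.0003507 * Y := by
  refine cU7 1 (-4) 2.6859 3.6353 0.02 0.5239 0.02 1.3256 0.9147 0.0371 0.8317 0.9776 3.1623 0.00006958 0.0003507 B (by norm_num) hs
    (full7 B.P B.hk2 (x1 := 3.75) (by push_cast; linarith) (by norm_num) (by norm_num)) (mhi7 B.P (x2 := 4.05) (by push_cast; linarith) (by norm_num) (by norm_num)) hY (g0_nn (by norm_num)) (g0_le (by norm_num) h1 h2 (by norm_num) (by norm_num))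
    (by norm_num) (by norm_num) (by norm_num) (by norm_num) (by norm_num) (by norm_num) (by norm_num) (by norm_num) (by norm_num) (by norm_num) (by norm_num) (by norm_num) (by norm_num) (by norm_num) (by norm_num) (by norm_num) (by norm_num) (by norm_num) (by norm_num)
    (expn 9 0.576 (by norm_num) (by norm_num) (by norm_num) (by norm_num)) (by norm_num) (by norm_num)

private theorem b7_4_yS1 {κ t : ℝ} (h : DomR κ t) (hk1 : 0.58 ≤ κ) (hk2 : κ ≤ 0.68) (ht1 : 0.3859 ≤ t + κ) (ht2 : t + κ ≤ 0.5296) :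
    0.142 ≤ sy κ t ∧ sy κ t ≤ 0.201 := by
  have hy1 : 0.142 ≤ sy κ t := syR_ge h 0.58 0.68 0.3859 0.142 1.15257 1.15258 0.24068 0.28219 hk1 hk2 (by linarith) (by norm_num) (by norm_num)
    (expn_ge (by norm_num) (by norm_num)) (expn_le (by norm_num) (by norm_num) (by norm_num)) (by norm_num)
    (by norm_num) (by norm_num) (by norm_num) (by norm_num) (by norm_num) (by norm_num)
  have hy2 : sy κ t ≤ 0.201 := syR_le h 0.58 0.68 0.5296 0.201 1.22262 0.3458 0.36139 0.42371 hk1 hk2 (by linarith) (by norm_num) (by norm_num)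
    (expn_ge (by norm_num) (by norm_num)) (by norm_num) (by norm_num) (Or.inr ((mul_le_mul_of_nonneg_left (expn_le (E := 1.22263) (by norm_num) (by norm_num) (by norm_num)) (by norm_num)).trans (by norm_num))) (by norm_num) (by norm_num) (by norm_num)
  exact ⟨by linarith, by linarith⟩

private theorem b7_4_yS0 {κ t : ℝ} (h : DomR κ t) (hk1 : 0.58 ≤ κ) (hk2 : κ ≤ 0.68) (ht1 : (-0.5117) ≤ t + κ) (ht2 : t + κ ≤ (-0.368)) :
    (-0.295) ≤ sy κ t ∧ sy κ t ≤ (-0.189) := by
  have hy1 : -0.295 ≤ sy κ t := syL_ge h 0.58 0.68 0.5117 0.295 0.74453 0.74454 0.309 0.32299 0.37869 hk1 hk2 (by linarith) (by norm_num) (by norm_num) (by norm_num)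
    (expm_ge (by norm_num) (by norm_num) (by norm_num) (by norm_num)) (expm_le (by norm_num) (by norm_num) (by norm_num)) (by norm_num)
    (by norm_num) (by norm_num) (by norm_num) (by norm_num) (by norm_num) (by norm_num)
  have hy2 : sy κ t ≤ -0.189 := syL_le h 0.58 0.68 0.368 0.189 0.82778 0.82779 0.23007 0.26975 hk1 hk2 (by linarith) (by norm_num) (by norm_num) (by norm_num)
    (expm_ge (by norm_num) (by norm_num) (by norm_num) (by norm_num)) (expm_le (by norm_num) (by norm_num) (by norm_num)) (by norm_num)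
    (by norm_num) (by norm_num) (by norm_num) (by norm_num) (by norm_num) (by norm_num)
  exact ⟨by linarith, by linarith⟩

theorem b7_4_S {β r h κ T t s : ℝ} (B : Bx 0.58 0.68 0.465 0.434 10 0.068 5.5092 β r h κ T) (hs : t + κ = s * h)
    (h1 : 0.43 ≤ s) (h2 : s ≤ 0.59) :
    ‖Ld β r h t 0‖ ≤ r * 1.34313 + 0.9792 ∧ ‖Ld β r h t 1‖ ≤ r * 0.86763 + 0.3176 ∧
      T * 0.9332 - (0.1284 + 0.5731 + 0 + 0.2932) ≤ (Ld β r h t 1 - Ld β r h t 0).im := by
  have a1 : 0.3859 ≤ t + κ := by rw [hs]; exact mlo7 B.P h1 (by norm_num) (by norm_num)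
  have a2 : t + κ ≤ 0.5296 := by rw [hs]; exact mhi7 B.P h2 (by norm_num) (by norm_num)
  have hτ : t - h + κ = (s + (-1)) * h := by linear_combination hs
  have b1 : (-0.5117) ≤ t - h + κ := by rw [hτ]; have := mhiN7 B.P (x := s + (-1)) (x2 := 0.57) (τ2 := 0.5117) (by linarith) (by norm_num) (by norm_num); linarith
  have b2 : t - h + κ ≤ (-0.368) := by rw [hτ]; have := mloN7 B.P (x := s + (-1)) (x1 := 0.41) (τ1 := 0.368) (by linarith) (by norm_num) (by norm_num); linarith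
  have hk := B.hk1
  have hk2 := B.hk2
  have hk' := B.P.hκ1
  have hD1 : DomR κ t := dom7 B.P.κ0 (by linarith) (by linarith)
  have hD0 : DomR κ (t - h) := dom7 B.P.κ0 (by linarith) (by linarith)
  have hy1 := b7_4_yS1 hD1 B.hk1 B.hk2 a1 a2
  have hy0 := b7_4_yS0 hD0 B.hk1 B.hk2 b1 b2
  have hd1 := Dlo7 hD1 (0.58 ^ 2) (0.68 ^ 2) 1.116 0.142 0.201 0.142 0.75276 hy1.1 hy1.2 (pow_le_pow_left₀ (by norm_num) B.hk1 2) (pow_le_pow_left₀ B.P.κ0.le B.hk2 2)
      (by rw [show (-2 * 0.142 : ℝ) = -0.284 by norm_num]; exact expm_ge (by norm_num) (by norm_num) (by norm_num) (by norm_num)) (by norm_num) (by norm_num) (by norm_num) (by norm_num) (by norm_num)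
  have hd0 := Dlo7 hD0 (0.58 ^ 2) (0.68 ^ 2) 0.7608 (-0.295) (-0.189) (-0.295) 1.80398 hy0.1 hy0.2 (pow_le_pow_left₀ (by norm_num) B.hk1 2) (pow_le_pow_left₀ B.P.κ0.le B.hk2 2)
      (by rw [show (-2 * (-0.295) : ℝ) = 0.59 by norm_num]; exact expn_ge (by norm_num) (by norm_num)) (by norm_num) (by norm_num) (by norm_num) (by norm_num) (by norm_num)
  have hJ1 := T7S1b hD1 B.P.hβ (by linarith) (by linarith) (by linarith) (by linarith) B.P.βκ B.P.βR
  have hJ0 := T7S0_4 hD0 B.P.hβ (by linarith) (by linarith) (by linarith) (by linarith) B.P.βκ B.P.βR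
  obtain ⟨m1, n1⟩ := copy7 (t := t) (t' := t) (k := 1) 0.58 0.68 1.116 0.142 0.86763 0.7528 0.4619 0.8189 0.04 0.15 0.1284 0.3176 B.P (by push_cast; ring) hD1 B.hk1 B.hk2 (by norm_num) (by norm_num) (by norm_num) (by norm_num) hJ1
    hy1.1 (by norm_num) hd1 (by norm_num) (expm_le (by norm_num) (by norm_num) (by norm_num)) (by norm_num) (by norm_num) (by norm_num) (by norm_num) (by norm_num) (by norm_num) (by norm_num) (by norm_num)
  obtain ⟨m0, n0⟩ := copy7 (t := t) (t' := t - h) (k := 0) 0.58 0.68 0.7608 (-0.295) 1.34313 1.804 0.8189 0.9918 0.095 0.15 0.5731 0.9792 B.P (by push_cast; ring) hD0 B.hk1 B.hk2 (by norm_num) (by norm_num) (by norm_num) (by norm_num) hJ0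
    hy0.1 (by norm_num) hd0 (by norm_num) (by rw [neg_neg]; exact expn_le (by norm_num) (by norm_num) (by norm_num)) (by norm_num) (by norm_num) (by norm_num) (by norm_num) (by norm_num) (by norm_num) (by norm_num) (by norm_num)
  refine ⟨m0, m1, ?_⟩
  have q1 := corr1_ge hD1 0.58 0.68 1.116 0 B.hk1 B.hk2 (by norm_num) (by linarith) hd1 (by norm_num) (by norm_num) (Or.inl (by norm_num))
  have q0 := corr0_le hD0 0.58 0.68 0.7608 1.34313 0.2932 B.hk1 B.hk2 (by norm_num) (by linarith) hd0 (by norm_num) (by norm_num)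
    ((Real.exp_le_exp.2 (by linarith)).trans (show Real.exp (-(-0.295)) ≤ 1.34313 from (by rw [neg_neg]; exact expn_le (by norm_num) (by norm_num) (by norm_num)))) (Or.inr (by norm_num))
  exact slope7 0.77 0.935 0.9332 0.43 0.59 0.1284 0.5731 0 0.2932 B.P hs h1 h2 (pR_060 hD1 (by linarith) (by linarith) (by linarith)) (pL_060 hD0 hk' (by linarith) (by linarith)) n1 n0 q1 q0
    (by norm_num) (by norm_num) (by norm_num)

theorem boxb7_4 {p : ℤ} (hp : IsCoprime (7 : ℤ) p) {β r h κ T : ℝ} (P : Q7 β r h κ T) (hk1 : 0.58 ≤ κ) (hk2 : κ ≤ 0.68) :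
    Circ (2 * Real.pi * p / (7 : ℕ) + β) r := by
  have B : Bx 0.58 0.68 0.465 0.434 10 0.068 5.5092 β r h κ T :=
    { P := P, hk1 := hk1, hk2 := hk2, hψ := (psi_lo P.κ0.le hk2 (by norm_num)).trans (by norm_num), hψ1 := le_trans (by norm_num) (psi1_lo (k1 := 0.58) (by norm_num) hk1 (by linarith)), hR0 := P.hr.trans' (by norm_num), hβ0 := by have := P.βκ; linarith, hT0 := P.T8 hk2 (by norm_num) (by norm_num) }
  have hT := B.hT0
  have hr := P.r_le (ν := 1.8152) hk2 (by norm_num)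
  refine fin7 hp P (slo := 0.43) (shi := 0.59) (bb := 0.0826) (ℓ1 := 0.9234) (ℓ0 := 0.9147) (C0 := 0.5934) (e2 := 0.04201) (e3 := 0.0025326) (f1 := 0.0052991) (g1 := 0.0105518) (f2 := 0.000611679) (f3 := 0.0009054)
    (a := 1.06) (m := T * 0.9332 - (0.9947)) (η := 0.0514) (Λ0 := r * 1.34313 + 0.9792) (Λ1 := r * 0.86763 + 0.3176) (S1 := 0.1367)
    (by norm_num) (by norm_num) (by linarith) (by norm_num) (by norm_num) (by norm_num) (by norm_num)
    ?_ ?_ ?_ ?_ ?_ ?_ ?_ ?_ ?_ ?_ ?_ ?_ ?_ (by norm_num) (by norm_num) (by norm_num) ?_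
  · intro t s hs h1 h2
    exact b7_4_L1 B hs (by linarith) h2
  · intro t s hs h1 h2
    exact b7_4_L0 B hs h1 (by linarith)
  · intro t s u Y hs h1 h2 h3 h4 hY
    have hY' : eN r κ * (0.9234 * Real.exp (-(T * (1 / 2 * u ^ 2)))) ≤ Y := hY
    rcases le_total u 0.475 with hc | hc
    · exact leE (b7_4_W2a B hs h1 hc h3 h4 hY') (by norm_num) hY' (by norm_num)
    · exact leE (b7_4_W2b B hs hc h2 h3 h4 hY') (by norm_num) hY' (by norm_num)
  · intro t s u Y hs h1 h2 h3 h4 hY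
    exact b7_4_W3 B hs h1 h2 h3 h4 hY
  · intro t s u Y hs h1 h2 h3 h4 hY
    exact b7_4_Wm1 B hs h1 h2 h3 h4 hY
  · intro t s u Y hs h1 h2 h3 h4 hY
    exact b7_4_Wm1p B hs h1 h2 h3 h4 hY
  · intro t s u Y hs h1 h2 h3 h4 hY
    exact b7_4_Wm2 B hs h1 h2 h3 h4 hY
  · intro t s u Y hs h1 h2 h3 h4 hY
    exact b7_4_Wm3 B hs h1 h2 h3 h4 hY
  · intro t s hs h1 h2
    have hY := b7_4_L1 B hs (by linarith) (by linarith)
    have hYp := lt_of_lt_of_le (mul_pos (eN_pos r κ) (mul_pos (by norm_num : (0 : ℝ) < 0.9234) (Real.exp_pos _))) hY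
    rcases le_total s 0.36 with hc | hc
    · have x0 := b7_4_Ao B hs h1 hc le_rfl (by linarith) hY
      have x2 := b7_4_A2 B hs h1 hc le_rfl (by linarith) hY
      have x3 := b7_4_A3 B hs h1 hc le_rfl (by linarith) hY
      have xm1 := b7_4_Am1 B hs h1 hc le_rfl (by linarith) hY
      have xm2 := b7_4_Am2 B hs h1 hc le_rfl (by linarith) hY
      have xm3 := b7_4_Am3 B hs h1 hc le_rfl (by linarith) hY
      linarith
    · have x0 := b7_4_Bo B hs hc h2 le_rfl (by linarith) hY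
      have x2 := b7_4_B2 B hs hc h2 le_rfl (by linarith) hY
      have x3 := b7_4_B3 B hs hc h2 le_rfl (by linarith) hY
      have xm1 := b7_4_Bm1 B hs hc h2 le_rfl (by linarith) hY
      have xm2 := b7_4_Bm2 B hs hc h2 le_rfl (by linarith) hY
      have xm3 := b7_4_Bm3 B hs hc h2 le_rfl (by linarith) hY
      linarith
  · intro t s hs h1 h2
    have hY := b7_4_L0 B hs (by linarith) (by linarith)
    have hYp := lt_of_lt_of_le (mul_pos (eN_pos r κ) (mul_pos (by norm_num : (0 : ℝ) < 0.9147) (Real.exp_pos _))) hY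
    rcases le_total s 0.75 with hc | hc
    · have x0 := b7_4_Co B hs h1 hc le_rfl (by linarith) hY
      have x2 := b7_4_C2 B hs h1 hc le_rfl (by linarith) hY
      have x3 := b7_4_C3 B hs h1 hc le_rfl (by linarith) hY
      have xm1 := b7_4_Cm1 B hs h1 hc le_rfl (by linarith) hY
      have xm2 := b7_4_Cm2 B hs h1 hc le_rfl (by linarith) hY
      have xm3 := b7_4_Cm3 B hs h1 hc le_rfl (by linarith) hY
      linarith
    · have x0 := b7_4_Do B hs hc h2 le_rfl (by linarith) hY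
      have x2 := b7_4_D2 B hs hc h2 le_rfl (by linarith) hY
      have x3 := b7_4_D3 B hs hc h2 le_rfl (by linarith) hY
      have xm1 := b7_4_Dm1 B hs hc h2 le_rfl (by linarith) hY
      have xm2 := b7_4_Dm2 B hs hc h2 le_rfl (by linarith) hY
      have xm3 := b7_4_Dm3 B hs hc h2 le_rfl (by linarith) hY
      linarith
  · intro t s hs h1 h2
    exact (b7_4_S B hs h1 h2).1
  · intro t s hs h1 h2
    exact (b7_4_S B hs h1 h2).2.1
  · intro t s hs h1 h2
    have := (b7_4_S B hs h1 h2).2.2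
    linarith
  · linarith

end Sok
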