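import Pool.Agent.Lib.MP_816dec_an.R1b7G
import Pool.Agent.Lib.MP_816dec_an.R1All
import Pool.Agent.Lib.MP_816dec_an.R1b7x1
import Pool.Agent.Lib.MP_816dec_an.R1b7x2
import Pool.Agent.Lib.MP_816dec_an.R1b7x3
import Pool.Agent.Lib.MP_816dec_an.R1b7x4
import Pool.Agent.Lib.MP_816dec_an.R1b7x5
import Pool.Agent.Lib.MP_816dec_an.R1b7x6
import Pool.Agent.Lib.MP_816dec_an.R1b7x7
import Pool.Agent.Lib.MP_816dec_an.R1b7x8
import Pool.Agent.Lib.MP_816dec_an.R1b7x9
import Pool.Agent.Lib.MP_816dec_an.R1b7x10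

/-!
MP_816dec_an (A3), row R1-b7: the circle statement for `b = 7`.
-/

set_option autoImplicit false
set_option maxHeartbeats 4000000

open Complex Set Filter Topology Metric

namespace Sok

theorem circ_R1_b7 {p : ℤ} {β r : ℝ} (hp : IsCoprime (7 : ℤ) p) (hr : 10 ≤ r) (hβ : 0 < β) (hκ : β * r ≤ 1.39)
    (hcov : Real.sqrt 3 / 2 * 49 * (1 + (β * r) ^ 2) ≤ 2 * Real.pi * r) :
    Circ (2 * Real.pi * p / 7 + β) r := by
  have hpi := Real.pi_lt_d6
  have hpi0 := Real.pi_pos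
  have hs3 : 1.7320508 ≤ Real.sqrt 3 := Real.le_sqrt_of_sq_le (by norm_num)
  have hA : 0 < 1 + (β * r) ^ 2 := by positivity
  have hr0 : 0 < r := by linarith
  have hR : 6.7537 * (1 + (β * r) ^ 2) ≤ r := by
    have h1 : 1.7320508 / 2 * 49 * (1 + (β * r) ^ 2) ≤ Real.sqrt 3 / 2 * 49 * (1 + (β * r) ^ 2) := by
      apply mul_le_mul_of_nonneg_right _ hA.le
      linarith
    have h2 : 2 * Real.pi * r ≤ 2 * 3.141593 * r := by
      apply mul_le_mul_of_nonneg_right _ hr0.le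
      linarith
    have h3 := h1.trans (hcov.trans h2)
    norm_num at h3 ⊢
    linarith
  have P : Q7 β r (2 * Real.pi / 7) (β * r) (r * (2 * Real.pi / 7) ^ 2 / (1 + (β * r) ^ 2)) :=
    { hβ := hβ, hκ := rfl, hh := rfl, hr := hr, hR := hR, hT := rfl, hκ1 := hκ }
  have e : 2 * Real.pi * p / 7 + β = 2 * Real.pi * p / (7 : ℕ) + β := by norm_num
  rw [e]
  rcases le_total (β * r) 0.27 with h | a0
  · exact box_g7 hp P h
  rcases le_total (β * r) 0.36 with h | a1
  · exact boxb7_1 hp P a0 h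
  rcases le_total (β * r) 0.48 with h | a2
  · exact boxb7_2 hp P a1 h
  rcases le_total (β * r) 0.58 with h | a3
  · exact boxb7_3 hp P a2 h
  rcases le_total (β * r) 0.68 with h | a4
  · exact boxb7_4 hp P a3 h
  rcases le_total (β * r) 0.8 with h | a5
  · exact boxb7_5 hp P a4 h
  rcases le_total (β * r) 0.9 with h | a6
  · exact boxb7_6 hp P a5 h
  rcases le_total (β * r) 1 with h | a7
  · exact boxb7_7 hp P a6 h
  rcases le_total (β * r) 1.13 with h | a8
  · exact boxb7_8 hp P a7 h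
  rcases le_total (β * r) 1.26 with h | a9
  · exact boxb7_9 hp P a8 h
  · exact boxb7_10 hp P a9 (by linarith)

theorem R1At_7 : R1At 7 := by
  intro p β r hp hr hβ hκ hcov
  have h := circ_R1_b7 (p := p) (by exact_mod_cast hp) hr hβ hκ (by
    refine le_trans (le_of_eq ?_) hcov
    push_cast
    ring)
  have e : 2 * Real.pi * p / ((7 : ℕ) : ℝ) + β = 2 * Real.pi * p / 7 + β := by norm_num
  rw [e]
  exact h

end Sok
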