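import Pool.Agent.Lib.MP_816dec_an.R1b8D
import Pool.Agent.Lib.MP_816dec_an.JB8a
import Pool.Agent.Lib.MP_816dec_an.JB8b
import Pool.Agent.Lib.MP_816dec_an.JB8c
import Pool.Agent.Lib.MP_816dec_an.JB8w

/-!
MP_816dec_an (A3, row R1), b = 8: box 1
-/

set_option autoImplicit false
set_option maxHeartbeats 4000000

open Complex Set Filter Topology Metric

namespace Sok

private theorem b8_1_yL1 {κ t : ℝ} (h : DomR κ t) (hk1 : 0.3 ≤ κ) (hk2 : κ ≤ 0.33) (ht1 : 0 ≤ t + κ) (ht2 : t + κ ≤ 0.4634) :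
    0 ≤ sy κ t ∧ sy κ t ≤ 0.116 := by
  have hy1 : 0 ≤ sy κ t := sy_nonneg h (by linarith)
  have hy2 : sy κ t ≤ 0.116 := syR_le h 0.3 0.33 0.4634 0.116 1.12299 0.3848 0.39474 0.43423 hk1 hk2 (by linarith) (by norm_num) (by norm_num)
    (expn_ge (by norm_num) (by norm_num)) (by norm_num) (by norm_num) (Or.inr ((mul_le_mul_of_nonneg_left (expn_le (E := 1.123) (by norm_num) (by norm_num) (by norm_num)) (by norm_num)).trans (by norm_num))) (by norm_num) (by norm_num) (by norm_num)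
  exact ⟨by linarith, by linarith⟩

theorem b8_1_L1 {β r h κ T t s : ℝ} (B : By 0.3 0.33 0.2976 0.2752 10 0.033 5.5627 β r h κ T) (hs : t + κ = s * h)
    (h1 : 0.05 ≤ s) (h2 : s ≤ 0.59) :
    eN r κ * (0.9275 * Real.exp (-(T * (1 / 2 * s ^ 2)))) ≤ ‖Xf β r h t 1‖ := by
  have a1 : 0.0392 ≤ t + κ := by rw [hs]; exact mlo8 B.P h1 (by norm_num) (by norm_num)
  have a2 : t + κ ≤ 0.4634 := by rw [hs]; exact mhi8 B.P h2 (by norm_num) (by norm_num)
  have hk := B.hk1
  have hD : DomR κ t := dom7 B.P.κ0 (by linarith) (by linarith)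
  have hy := b8_1_yL1 hD B.hk1 B.hk2 (by linarith) a2
  have hJ := JB8_k1 hD B.P.hβ (by linarith) B.P.hκ1 (by linarith) (by linarith) B.P.βκ B.P.βR
  have hd := Dup7 hD (0.3 ^ 2) (0.33 ^ 2) 1.1958 0 0.116 1 0.79295 hy.1 hy.2 (pow_le_pow_left₀ (by norm_num) B.hk1 2) (pow_le_pow_left₀ B.P.κ0.le B.hk2 2)
      (by norm_num)
      (by rw [show (-2 * 0.116 : ℝ) = -0.232 by norm_num]; exact expm_le (by norm_num) (by norm_num) (by norm_num)) (by norm_num) (by norm_num) (by norm_num) (by norm_num)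
  have := loR8 (k := 1) 0 0.03 1.1958 0.9275 B.P (by norm_num) (by ring : t = t + 0 * h) hs (by linarith) hD (by norm_num) hJ hd (by norm_num) (by norm_num)
  rw [add_zero] at this
  exact this

private theorem b8_1_yL0 {κ t : ℝ} (h : DomR κ t) (hk1 : 0.3 ≤ κ) (hk2 : κ ≤ 0.33) (ht1 : (-0.4477) ≤ t + κ) (ht2 : t + κ ≤ 0) :
    (-0.161) ≤ sy κ t ∧ sy κ t ≤ 0 := by
  have hy1 : -0.161 ≤ sy κ t := syL_ge h 0.3 0.33 0.4477 0.161 0.85129 0.8513 0.4049 0.41532 0.45687 hk1 hk2 (by linarith) (by norm_num) (by norm_num) (by norm_num)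
    (expm_ge (by norm_num) (by norm_num) (by norm_num) (by norm_num)) (expm_le (by norm_num) (by norm_num) (by norm_num)) (by norm_num)
    (by norm_num) (by norm_num) (by norm_num) (by norm_num) (by norm_num) (by norm_num)
  have hy2 : sy κ t ≤ 0 := sy_nonpos h (by linarith)
  exact ⟨by linarith, by linarith⟩

private theorem b8_1_yL00 {κ t : ℝ} (h : DomR κ t) (hk1 : 0.3 ≤ κ) (hk2 : κ ≤ 0.33) (ht1 : 0 ≤ t + κ) (ht2 : t + κ ≤ 0.04) :
    0 ≤ sy κ t ∧ sy κ t ≤ 0.012 := by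
  have hy1 : 0 ≤ sy κ t := sy_nonneg h (by linarith)
  have hy2 : sy κ t ≤ 0.012 := syR_le h 0.3 0.33 0.04 0.012 1.01207 0.0358 0.0368 0.04049 hk1 hk2 (by linarith) (by norm_num) (by norm_num)
    (expn_ge (by norm_num) (by norm_num)) (by norm_num) (by norm_num) (Or.inr ((mul_le_mul_of_nonneg_left (expn_le (E := 1.01208) (by norm_num) (by norm_num) (by norm_num)) (by norm_num)).trans (by norm_num))) (by norm_num) (by norm_num) (by norm_num)
  exact ⟨by linarith, by linarith⟩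

theorem b8_1_L0 {β r h κ T t s : ℝ} (B : By 0.3 0.33 0.2976 0.2752 10 0.033 5.5627 β r h κ T) (hs : t + κ = s * h)
    (h1 : 0.43 ≤ s) (h2 : s ≤ 1.05) :
    eN r κ * (0.9253 * Real.exp (-(T * (0.5756 * (1 - s) ^ 2)))) ≤ ‖Xf β r h t 0‖ := by
  obtain ⟨t', ht'⟩ : ∃ t', t' = t + (-1) * h := ⟨_, rfl⟩
  have hτ : t' + κ = (s + (-1)) * h := by rw [ht']; linear_combination hs
  have e : 0.5756 * (1 - s) ^ 2 = 0.5756 * (s + (-1)) ^ 2 := by ring
  rw [e]
  have b1 : -((s + (-1)) * h) ≤ 0.4477 := mhiN8 B.P (x2 := 0.57) (by linarith) (by norm_num) (by norm_num)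
  have b2 : (s + (-1)) * h ≤ 0.04 := mhi8 B.P (x2 := 0.05) (by linarith) (by norm_num) (by norm_num)
  have hk := B.hk1
  have hk' := B.P.hκ1
  rw [← hτ] at b1 b2
  have hD : DomR κ t' := dom7 B.P.κ0 (by linarith) (by linarith)
  have hJ := JB8_k0 hD B.P.hβ (by linarith) B.P.hκ1 (by linarith) (by linarith) B.P.βκ B.P.βR
  rcases le_total s 1 with hc | hc
  · have b3 : t' + κ ≤ 0 := by rw [hτ]; exact mul_nonpos_of_nonpos_of_nonneg (by linarith) B.P.h0.le
    have hy := b8_1_yL0 hD B.hk1 B.hk2 (by linarith) b3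
    have hd := Dup7 hD (0.3 ^ 2) (0.33 ^ 2) 1.0201 (-0.161) 0 1.37989 1 hy.1 hy.2 (pow_le_pow_left₀ (by norm_num) B.hk1 2) (pow_le_pow_left₀ B.P.κ0.le B.hk2 2)
      (by rw [show (-2 * (-0.161) : ℝ) = 0.322 by norm_num]; exact expn_le (by norm_num) (by norm_num) (by norm_num))
      (by norm_num) (by norm_num) (by norm_num) (by norm_num) (by norm_num)
    exact loLB8 (k := 0) (-1) 0.07 1.0201 0.9253 0.5756 0.4477 0.445 0.0983 0.7722 B (by norm_num) ht' hs (by linarith) (by rw [← hτ]; exact b1) hD (by norm_num) hJ hd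
      (by norm_num) (by norm_num) (by norm_num) (by norm_num) (by norm_num) (by norm_num) (by norm_num) (by norm_num) (by norm_num) (by norm_num) (by norm_num) (by norm_num) (by norm_num)
  · have b3 : 0 ≤ t' + κ := by rw [hτ]; exact mul_nonneg (by linarith) B.P.h0.le
    have hy := b8_1_yL00 hD B.hk1 B.hk2 b3 b2
    have hd := Dup7 hD (0.3 ^ 2) (0.33 ^ 2) 1.0201 0 0.012 1 0.97629 hy.1 hy.2 (pow_le_pow_left₀ (by norm_num) B.hk1 2) (pow_le_pow_left₀ B.P.κ0.le B.hk2 2)
      (by norm_num)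
      (by rw [show (-2 * 0.012 : ℝ) = -0.024 by norm_num]; exact expm_le (by norm_num) (by norm_num) (by norm_num)) (by norm_num) (by norm_num) (by norm_num) (by norm_num)
    have := loR8 (k := 0) (-1) 0.07 1.0201 0.9253 B.P (by norm_num) ht' hs (by linarith) hD (by norm_num) hJ hd (by norm_num) (by norm_num)
    exact le_trans (weak7 (by have := B.P.T5; linarith) (by norm_num) (by norm_num)) this

private theorem b8_1_W2a_y {κ t : ℝ} (h : DomR κ t) (hk1 : 0.3 ≤ κ) (hk2 : κ ≤ 0.33) (ht1 : 1.1231 ≤ t + κ) (ht2 : t + κ ≤ 1.2112) :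
    0.197 ≤ sy κ t ∧ sy κ t ≤ 0.227 := by
  have hy1 : 0.197 ≤ sy κ t := syR_ge h 0.3 0.33 1.1231 0.197 1.21774 1.21775 0.72695 0.79966 hk1 hk2 (by linarith) (by norm_num) (by norm_num)
    (expn_ge (by norm_num) (by norm_num)) (expn_le (by norm_num) (by norm_num) (by norm_num)) (by norm_num)
    (by norm_num) (by norm_num) (by norm_num) (by norm_num) (by norm_num) (by norm_num)
  have hy2 : sy κ t ≤ 0.227 := syR_ang2 h 0.3 0.33 1.2112 1.04 0.508 0.8627 0.227 0.79693 1.25482 hk1 hk2 (by linarith) (by norm_num) (by norm_num) (by norm_num)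
    (cos_le_num (by norm_num)) (sin_le_num (by norm_num) (by norm_num)) (expm_le (by norm_num) (by norm_num) (by norm_num))
    (expn_ge (by norm_num) (by norm_num)) (by norm_num) (by norm_num) (by norm_num) (by norm_num) (by norm_num)
  exact ⟨by linarith, by linarith⟩

theorem b8_1_W2a {β r h κ T t s u Y : ℝ} (B : By 0.3 0.33 0.2976 0.2752 10 0.033 5.5627 β r h κ T) (hs : t + κ = s * h)
    (h1 : 0.43 ≤ u) (h2 : u ≤ 0.5) (h3 : u ≤ s) (h4 : s ≤ u + 0.0421)
    (hY : eN r κ * (0.9275 * Real.exp (-(T * (1 / 2 * u ^ 2)))) ≤ Y) :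
    ‖Xf β r h t 2‖ ≤ 0.02884 * Y := by
  obtain ⟨t', ht'⟩ : ∃ t', t' = t + 1 * h := ⟨_, rfl⟩
  have hτ : t' + κ = (s + 1) * h := by rw [ht']; linear_combination hs
  have a1 : 1.1231 ≤ t' + κ := by rw [hτ]; exact mlo8 B.P (x1 := 1.43) (by linarith) (by norm_num) (by norm_num)
  have a2 : t' + κ ≤ 1.2112 := by rw [hτ]; exact mhi8 B.P (x2 := 1.5421) (by linarith) (by norm_num) (by norm_num)
  have hk := B.hk1
  have hk' := B.P.hκ1
  have hD : DomR κ t' := dom7 B.P.κ0 (by linarith) (by linarith)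
  have hy := b8_1_W2a_y hD B.hk1 B.hk2 a1 a2
  have hJ : ‖HH β (sg κ t') - 1‖ ≤ 0.04 := JB8_k2 hD B.P.hβ (by linarith) B.P.hκ1 (by linarith) (by linarith) B.P.βκ B.P.βR
  have hd := Dlo7 hD (0.3 ^ 2) (0.33 ^ 2) 1.3233 0.197 0.227 0.197 0.67435 hy.1 hy.2 (pow_le_pow_left₀ (by norm_num) B.hk1 2) (pow_le_pow_left₀ B.P.κ0.le B.hk2 2)
      (by rw [show (-2 * 0.197 : ℝ) = -0.394 by norm_num]; exact expm_ge (by norm_num) (by norm_num) (by norm_num) (by norm_num)) (by norm_num) (by norm_num) (by norm_num) (by norm_num) (by norm_num)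
  have hc : sE κ t' ≤ 1 - 0.3612 * (t' + κ) ^ 2 / (1 + κ ^ 2) := VR8 0.6 0.3612 1.1231 1.2112 _ _ _ _ _ B hD a1 a2 (by norm_num) (by norm_num) (by norm_num) (by norm_num) rfl rfl (by norm_num) rfl rfl rfl (by norm_num) (by norm_num)
  exact up8 1 0.04 0.3612 1.3233 0.9697 0.9275 0.6461 0.02758 0.02884 B (by norm_num) ht' hs hD (by norm_num) hJ hc hd (by norm_num) (by norm_num) (by norm_num) hY (by norm_num)
    (ch1 (a := 1) (by norm_num) (sqR h1 h3 (by norm_num)) (by norm_num) h1 h2 (by norm_num) (by norm_num)) (by norm_num)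
    (expn 3 0.594 (by norm_num) (by norm_num) (by norm_num) (by norm_num)) (by norm_num) (by norm_num)

private theorem b8_1_W2b_y {κ t : ℝ} (h : DomR κ t) (hk1 : 0.3 ≤ κ) (hk2 : κ ≤ 0.33) (ht1 : 1.178 ≤ t + κ) (ht2 : t + κ ≤ 1.2819) :
    0.197 ≤ sy κ t ∧ sy κ t ≤ 0.233 := by
  have hy1 : 0.197 ≤ sy κ t := syR_ge h 0.3 0.33 1.178 0.197 1.21774 1.21775 0.72695 0.79966 hk1 hk2 (by linarith) (by norm_num) (by norm_num)
    (expn_ge (by norm_num) (by norm_num)) (expn_le (by norm_num) (by norm_num) (by norm_num)) (by norm_num)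
    (by norm_num) (by norm_num) (by norm_num) (by norm_num) (by norm_num) (by norm_num)
  have hy2 : sy κ t ≤ 0.233 := syR_ang2 h 0.3 0.33 1.2819 1.099 0.4569 0.8912 0.233 0.79216 1.26238 hk1 hk2 (by linarith) (by norm_num) (by norm_num) (by norm_num)
    (cos_le_num (by norm_num)) (sin_le_num (by norm_num) (by norm_num)) (expm_le (by norm_num) (by norm_num) (by norm_num))
    (expn_ge (by norm_num) (by norm_num)) (by norm_num) (by norm_num) (by norm_num) (by norm_num) (by norm_num)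
  exact ⟨by linarith, by linarith⟩

theorem b8_1_W2b {β r h κ T t s u Y : ℝ} (B : By 0.3 0.33 0.2976 0.2752 10 0.033 5.5627 β r h κ T) (hs : t + κ = s * h)
    (h1 : 0.5 ≤ u) (h2 : u ≤ 0.59) (h3 : u ≤ s) (h4 : s ≤ u + 0.0421)
    (hY : eN r κ * (0.9275 * Real.exp (-(T * (1 / 2 * u ^ 2)))) ≤ Y) :
    ‖Xf β r h t 2‖ ≤ 0.0253 * Y := by
  obtain ⟨t', ht'⟩ : ∃ t', t' = t + 1 * h := ⟨_, rfl⟩
  have hτ : t' + κ = (s + 1) * h := by rw [ht']; linear_combination hs
  have a1 : 1.178 ≤ t' + κ := by rw [hτ]; exact mlo8 B.P (x1 := 1.5) (by linarith) (by norm_num) (by norm_num)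
  have a2 : t' + κ ≤ 1.2819 := by rw [hτ]; exact mhi8 B.P (x2 := 1.6321) (by linarith) (by norm_num) (by norm_num)
  have hk := B.hk1
  have hk' := B.P.hκ1
  have hD : DomR κ t' := dom7 B.P.κ0 (by linarith) (by linarith)
  have hy := b8_1_W2b_y hD B.hk1 B.hk2 a1 a2
  have hJ : ‖HH β (sg κ t') - 1‖ ≤ 0.05 := by
    rcases le_total (t' + κ) 1.245 with hc | hc
    · exact (JB8_k2 hD B.P.hβ (by linarith) B.P.hκ1 (by linarith) (by linarith) B.P.βκ B.P.βR).trans (by norm_num)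
    · exact JB8_k2w hD B.P.hβ (by linarith) B.P.hκ1 (by linarith) (by linarith) B.P.βκ B.P.βR
  have hd := Dlo7 hD (0.3 ^ 2) (0.33 ^ 2) 1.3233 0.197 0.233 0.197 0.67435 hy.1 hy.2 (pow_le_pow_left₀ (by norm_num) B.hk1 2) (pow_le_pow_left₀ B.P.κ0.le B.hk2 2)
      (by rw [show (-2 * 0.197 : ℝ) = -0.394 by norm_num]; exact expm_ge (by norm_num) (by norm_num) (by norm_num) (by norm_num)) (by norm_num) (by norm_num) (by norm_num) (by norm_num) (by norm_num)
  have hc : sE κ t' ≤ 1 - 0.3543 * (t' + κ) ^ 2 / (1 + κ ^ 2) := VR8 0.58 0.3543 1.178 1.2819 _ _ _ _ _ B hD a1 a2 (by norm_num) (by norm_num) (by norm_num) (by norm_num) rfl rfl (by norm_num) rfl rfl rfl (by norm_num) (by norm_num)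
  exact up8 1 0.05 0.3543 1.3233 0.979 0.9275 0.6721 0.02396 0.0253 B (by norm_num) ht' hs hD (by norm_num) hJ hc hd (by norm_num) (by norm_num) (by norm_num) hY (by norm_num)
    (ch1 (a := 1) (by norm_num) (sqR h1 h3 (by norm_num)) (by norm_num) h1 h2 (by norm_num) (by norm_num)) (by norm_num)
    (expn 3 0.7386 (by norm_num) (by norm_num) (by norm_num) (by norm_num)) (by norm_num) (by norm_num)

theorem b8_1_W3U {β r h κ T t s u Y : ℝ} (B : By 0.3 0.33 0.2976 0.2752 10 0.033 5.5627 β r h κ T) (hs : t + κ = s * h)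
    (h1 : 0.43 ≤ u) (h2 : u ≤ 0.59) (h3 : u ≤ s) (h4 : s ≤ u + 0.0421)(htp : Real.pi / 2 ≤ t + 2 * h)
    (hY : eN r κ * (0.9275 * Real.exp (-(T * (1 / 2 * u ^ 2)))) ≤ Y) :
    ‖Xf β r h t (3)‖ ≤ 0.001481 * Y := by
  refine cU8 0 (2) 1.5707 2.0673 0.03 0.7284 0.03 2.5595 0.9275 0.1741 0.9038 0.9014 3.1623 0.0001653 0.001481 B (by norm_num) hs
    (half8 hs htp (by norm_num)) (mhi8 B.P (x2 := 2.6321) (by push_cast; linarith) (by norm_num) (by norm_num)) hY g1_nn (g1_le (by linarith) h2 (by norm_num))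
    (by norm_num) (by norm_num) (by norm_num) (by norm_num) (by norm_num) (by norm_num) (by norm_num) (by norm_num) (by norm_num) (by norm_num) (by norm_num) (by norm_num) (by norm_num) (by norm_num) (by norm_num) (by norm_num) (by norm_num) (by norm_num) (by norm_num)
    (expn 8 0.714 (by norm_num) (by norm_num) (by norm_num) (by norm_num)) (by norm_num) (by norm_num)

theorem b8_1_W3 {β r h κ T t s u Y : ℝ} (B : By 0.3 0.33 0.2976 0.2752 10 0.033 5.5627 β r h κ T) (hs : t + κ = s * h)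
    (h1 : 0.43 ≤ u) (h2 : u ≤ 0.59) (h3 : u ≤ s) (h4 : s ≤ u + 0.0421)
    (hY : eN r κ * (0.9275 * Real.exp (-(T * (1 / 2 * u ^ 2)))) ≤ Y) :
    ‖Xf β r h t 3‖ ≤ 0.001481 * Y := by
  have hp : Real.pi / 2 ≤ t + 2 * h := by
    have e : t + 2 * h = (s + 2) * h - κ := by linear_combination hs
    have := mlo8 B.P (x := s + 2) (x1 := 2.43) (by linarith) (by norm_num) (le_refl _)
    have := B.hk2
    have := Real.pi_lt_d6
    rw [e]
    norm_num at *
    linarith
  exact leE (b8_1_W3U B hs h1 h2 h3 h4 hp hY) (by norm_num) hY (by norm_num)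

theorem b8_1_W4 {β r h κ T t s u Y : ℝ} (B : By 0.3 0.33 0.2976 0.2752 10 0.033 5.5627 β r h κ T) (hs : t + κ = s * h)
    (h1 : 0.43 ≤ u) (h2 : u ≤ 0.59) (h3 : u ≤ s) (h4 : s ≤ u + 0.0421)
    (hY : eN r κ * (0.9275 * Real.exp (-(T * (1 / 2 * u ^ 2)))) ≤ Y) :
    ‖Xf β r h t (4)‖ ≤ 0.0009338 * Y := by
  refine cU8 0 (3) 2.3639 2.8527 0.02 0.7284 0.02 1.7779 0.9275 0.1741 0.9038 0.9014 3.1623 0.0001501 0.0009338 B (by norm_num) hs
    (fullz8 B.P B.hk2 (x1 := 3.43) (by push_cast; linarith) (by norm_num) (by norm_num)) (mhi8 B.P (x2 := 3.6321) (by push_cast; linarith) (by norm_num) (by norm_num)) hY g1_nn (g1_le (by linarith) h2 (by norm_num))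
    (by norm_num) (by norm_num) (by norm_num) (by norm_num) (by norm_num) (by norm_num) (by norm_num) (by norm_num) (by norm_num) (by norm_num) (by norm_num) (by norm_num) (by norm_num) (by norm_num) (by norm_num) (by norm_num) (by norm_num) (by norm_num) (by norm_num)
    (expn 8 0.814 (by norm_num) (by norm_num) (by norm_num) (by norm_num)) (by norm_num) (by norm_num)

theorem b8_1_Wm1 {β r h κ T t s u Y : ℝ} (B : By 0.3 0.33 0.2976 0.2752 10 0.033 5.5627 β r h κ T) (hs : t + κ = s * h)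
    (h1 : 0.43 ≤ u) (h2 : u ≤ 0.59) (h3 : u ≤ s) (h4 : s ≤ u + 0)
    (hY : eN r κ * (0.9253 * Real.exp (-(T * (0.5756 * (1 - u) ^ 2)))) ≤ Y) :
    ‖Xf β r h t (-1)‖ ≤ 0.013296 * Y := by
  refine leE (cL8 (-2) 0.98 0.5749 1.1074 1.2331 _ _ _ _ _ 0.0304 3.0099 0.7284 0.1812 1.2589 0.9253 1.0462 0.002999 0.009756 0.1871 0.9016 0.8941 3.1623 0.0008016 0.00354 B (by norm_num) hs
    (mloN8 B.P (x1 := 1.41) (by linarith) (by norm_num) (by norm_num)) (mhiN8 B.P (x2 := 1.57) (by linarith) (by norm_num) (by norm_num)) hY (g0_nn (by norm_num))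
    (g0_le (by norm_num) h1 h2 (by norm_num) (by norm_num)) (ch0 (a := (-2)) (by norm_num) (sqL h2 h4 (by norm_num) (by norm_num)) (by norm_num) h1 h2 (by norm_num) (by norm_num))
    (by norm_num) (by norm_num) (by norm_num) (by norm_num) rfl rfl (by norm_num) rfl rfl rfl (by norm_num) (by norm_num) (by norm_num) (by norm_num) (by norm_num) (by norm_num) (by norm_num) (by norm_num) (by norm_num) (by norm_num) (by norm_num) (by norm_num) (by norm_num) (by norm_num) (by norm_num) (by norm_num) (by norm_num) (by norm_num)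
    (expn 5 0.8196 (by norm_num) (by norm_num) (by norm_num) (by norm_num)) (by norm_num) (by norm_num) (by norm_num) (by norm_num) (by norm_num) (by norm_num) (by norm_num) (by norm_num) (expn 7 0.129 (by norm_num) (by norm_num) (by norm_num) (by norm_num)) (by norm_num) (by norm_num)) (by norm_num) hY (by norm_num)

theorem b8_1_Wm1p {β r h κ T t s u Y : ℝ} (B : By 0.3 0.33 0.2976 0.2752 10 0.033 5.5627 β r h κ T) (hs : t + κ = s * h)
    (h1 : 0.43 ≤ u) (h2 : u ≤ 0.59) (h3 : u ≤ s) (h4 : s ≤ u + 0.0421)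
    (hY : eN r κ * (0.9253 * Real.exp (-(T * (0.5756 * (1 - u) ^ 2)))) ≤ Y) :
    ‖Xf β r h t (-1)‖ ≤ 0.020076 * Y := by
  refine leE (cL8 (-2) 0.96 0.5668 1.0743 1.2331 _ _ _ _ _ 0.0314 2.9857 0.7284 0.2135 1.2536 0.9253 0.9638 0.004698 0.01516 0.1871 0.9016 0.8941 3.1623 0.001118 0.004916 B (by norm_num) hs
    (mloN8 B.P (x1 := 1.3679) (by linarith) (by norm_num) (by norm_num)) (mhiN8 B.P (x2 := 1.57) (by linarith) (by norm_num) (by norm_num)) hY (g0_nn (by norm_num))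
    (g0_le (by norm_num) h1 h2 (by norm_num) (by norm_num)) (ch0 (a := (-1.9579)) (by norm_num) (sqL h2 h4 (by norm_num) (by norm_num)) (by norm_num) h1 h2 (by norm_num) (by norm_num))
    (by norm_num) (by norm_num) (by norm_num) (by norm_num) rfl rfl (by norm_num) rfl rfl rfl (by norm_num) (by norm_num) (by norm_num) (by norm_num) (by norm_num) (by norm_num) (by norm_num) (by norm_num) (by norm_num) (by norm_num) (by norm_num) (by norm_num) (by norm_num) (by norm_num) (by norm_num) (by norm_num) (by norm_num) (by norm_num)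
    (expn 5 0.3613 (by norm_num) (by norm_num) (by norm_num) (by norm_num)) (by norm_num) (by norm_num) (by norm_num) (by norm_num) (by norm_num) (by norm_num) (by norm_num) (by norm_num) (expn 6 0.806 (by norm_num) (by norm_num) (by norm_num) (by norm_num)) (by norm_num) (by norm_num)) (by norm_num) hY (by norm_num)

theorem b8_1_Wm2 {β r h κ T t s u Y : ℝ} (B : By 0.3 0.33 0.2976 0.2752 10 0.033 5.5627 β r h κ T) (hs : t + κ = s * h)
    (h1 : 0.43 ≤ u) (h2 : u ≤ 0.59) (h3 : u ≤ s) (h4 : s ≤ u + 0.0421)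
    (hY : eN r κ * (0.9253 * Real.exp (-(T * (0.5756 * (1 - u) ^ 2)))) ≤ Y) :
    ‖Xf β r h t (-2)‖ ≤ 0.000593296 * Y := by
  refine leE (cL8 (-3) 0.6 0.4494 1.8597 2.0185 _ _ _ _ _ 0.0323 2.9647 0.7284 0 1.262 0.9253 2.423 0.000001403 0.000004496 0.1871 0.9016 0.8941 3.1623 0.000133 0.0005888 B (by norm_num) hs
    (mloN8 B.P (x1 := 2.3679) (by linarith) (by norm_num) (by norm_num)) (mhiN8 B.P (x2 := 2.57) (by linarith) (by norm_num) (by norm_num)) hY (g0_nn (by norm_num))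
    (g0_le (by norm_num) h1 h2 (by norm_num) (by norm_num)) (ch0 (a := (-2.9579)) (by norm_num) (sqL h2 h4 (by norm_num) (by norm_num)) (by norm_num) h1 h2 (by norm_num) (by norm_num))
    (by norm_num) (by norm_num) (by norm_num) (by norm_num) rfl rfl (by norm_num) rfl rfl rfl (by norm_num) (by norm_num) (by norm_num) (by norm_num) (by norm_num) (by norm_num) (by norm_num) (by norm_num) (by norm_num) (by norm_num) (by norm_num) (by norm_num) (by norm_num) (by norm_num) (by norm_num) (by norm_num) (by norm_num) (by norm_num)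
    (expn 13 0.4784 (by norm_num) (by norm_num) (by norm_num) (by norm_num)) (by norm_num) (by norm_num) (by norm_num) (by norm_num) (by norm_num) (by norm_num) (by norm_num) (by norm_num) (expn 8 0.941 (by norm_num) (by norm_num) (by norm_num) (by norm_num)) (by norm_num) (by norm_num)) (by norm_num) hY (by norm_num)

theorem b8_1_Wm3 {β r h κ T t s u Y : ℝ} (B : By 0.3 0.33 0.2976 0.2752 10 0.033 5.5627 β r h κ T) (hs : t + κ = s * h)
    (h1 : 0.43 ≤ u) (h2 : u ≤ 0.59) (h3 : u ≤ s) (h4 : s ≤ u + 0.0421)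
    (hY : eN r κ * (0.9253 * Real.exp (-(T * (0.5756 * (1 - u) ^ 2)))) ≤ Y) :
    ‖Xf β r h t (-3)‖ ≤ 0.0009965 * Y := by
  refine cU8 1 (-4) 3.1493 3.6381 0.02 0.7284 0.02 1.7634 0.9253 0.1871 0.9016 0.8941 3.1623 0.0001611 0.0009965 B (by norm_num) hs
    (full8 B.P B.hk2 (x1 := 4.43) (by push_cast; linarith) (by norm_num) (by norm_num)) (mhi8 B.P (x2 := 4.6321) (by push_cast; linarith) (by norm_num) (by norm_num)) hY (g0_nn (by norm_num)) (g0_le (by norm_num) h1 h2 (by norm_num) (by norm_num))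
    (by norm_num) (by norm_num) (by norm_num) (by norm_num) (by norm_num) (by norm_num) (by norm_num) (by norm_num) (by norm_num) (by norm_num) (by norm_num) (by norm_num) (by norm_num) (by norm_num) (by norm_num) (by norm_num) (by norm_num) (by norm_num) (by norm_num)
    (expn 8 0.741 (by norm_num) (by norm_num) (by norm_num) (by norm_num)) (by norm_num) (by norm_num)

private theorem b8_1_Ao_y {κ t : ℝ} (h : DomR κ t) (hk1 : 0.3 ≤ κ) (hk2 : κ ≤ 0.33) (ht1 : (-0.7462) ≤ t + κ) (ht2 : t + κ ≤ (-0.4948)) :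
    (-0.305) ≤ sy κ t ∧ sy κ t ≤ (-0.162) := by
  have hy1 : -0.305 ≤ sy κ t := syL_ang2 h 0.3 0.33 0.7462 0.749 0.7323 0.681 0.305 1.35662 0.73712 hk1 hk2 (by linarith) (by norm_num) (by norm_num) (by norm_num) (by norm_num)
    (cos_ge_num (by norm_num) (by norm_num)) (sin_le_num (by norm_num) (by norm_num))
    (expn_ge (by norm_num) (by norm_num)) (expm_ge (by norm_num) (by norm_num) (by norm_num) (by norm_num)) (by norm_num) (by norm_num) (by norm_num)
    (by norm_num) (by norm_num) (by norm_num)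
  have hy2 : sy κ t ≤ -0.162 := syL_le h 0.3 0.33 0.4948 0.162 0.85044 0.85045 0.41748 0.45925 hk1 hk2 (by linarith) (by norm_num) (by norm_num) (by norm_num)
    (expm_ge (by norm_num) (by norm_num) (by norm_num) (by norm_num)) (expm_le (by norm_num) (by norm_num) (by norm_num)) (by norm_num)
    (by norm_num) (by norm_num) (by norm_num) (by norm_num) (by norm_num) (by norm_num)
  exact ⟨by linarith, by linarith⟩

theorem b8_1_Ao {β r h κ T t s u Y : ℝ} (B : By 0.3 0.33 0.2976 0.2752 10 0.033 5.5627 β r h κ T) (hs : t + κ = s * h)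
    (h1 : 0.05 ≤ u) (h2 : u ≤ 0.37) (h3 : u ≤ s) (h4 : s ≤ u + 0)
    (hY : eN r κ * (0.9275 * Real.exp (-(T * (1 / 2 * u ^ 2)))) ≤ Y) :
    ‖Xf β r h t 0‖ ≤ 0.7117 * Y := by
  obtain ⟨t', ht'⟩ : ∃ t', t' = t + (-1) * h := ⟨_, rfl⟩
  have hτ : t' + κ = (s + (-1)) * h := by rw [ht']; linear_combination hs
  have a1 : (-0.7462) ≤ t' + κ := by rw [hτ]; have := mhiN8 B.P (x := s + (-1)) (x2 := 0.95) (τ2 := 0.7462) (by linarith) (by norm_num) (by norm_num); linarith
  have a2 : t' + κ ≤ (-0.4948) := by rw [hτ]; have := mloN8 B.P (x := s + (-1)) (x1 := 0.63) (τ1 := 0.4948) (by linarith) (by norm_num) (by norm_num); linarith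
  have hk := B.hk1
  have hk' := B.P.hκ1
  have hD : DomR κ t' := dom7 B.P.κ0 (by linarith) (by linarith)
  have hy := b8_1_Ao_y hD B.hk1 B.hk2 a1 a2
  have hJ : ‖HH β (sg κ t') - 1‖ ≤ 0.07 := JB8_k0 hD B.P.hβ (by linarith) B.P.hκ1 (by linarith) (by linarith) B.P.βκ B.P.βR
  have hd := Dlo7 hD (0.3 ^ 2) (0.33 ^ 2) 0.5097 (-0.305) (-0.162) (-0.305) 1.84042 hy.1 hy.2 (pow_le_pow_left₀ (by norm_num) B.hk1 2) (pow_le_pow_left₀ B.P.κ0.le B.hk2 2)
      (by rw [show (-2 * (-0.305) : ℝ) = 0.61 by norm_num]; exact expn_ge (by norm_num) (by norm_num)) (by norm_num) (by norm_num) (by norm_num) (by norm_num) (by norm_num)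
  have hc : sE κ t' ≤ 1 - 0.47 * (t' + κ) ^ 2 / (1 + κ ^ 2) := VLA8 hD B.P.hκ1 (by linarith) (by linarith)
  exact up8 (-1) 0.07 0.47 0.5097 1.2664 0.9275 0.118 0.5212 0.7117 B (by norm_num) ht' hs hD (by norm_num) hJ hc hd (by norm_num) (by norm_num) (by norm_num) hY (by norm_num)
    (ch1 (a := (-1)) (by norm_num) (sqL h2 h4 (by norm_num) (by norm_num)) (by norm_num) h1 h2 (by norm_num) (by norm_num)) (by norm_num)
    (expn 0 0.6563 (by norm_num) (by norm_num) (by norm_num) (by norm_num)) (by norm_num) (by norm_num)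

private theorem b8_1_A2_y {κ t : ℝ} (h : DomR κ t) (hk1 : 0.3 ≤ κ) (hk2 : κ ≤ 0.33) (ht1 : 0.8246 ≤ t + κ) (ht2 : t + κ ≤ 1.076) :
    0.165 ≤ sy κ t ∧ sy κ t ≤ 0.213 := by
  have hy1 : 0.165 ≤ sy κ t := syR_ge h 0.3 0.33 0.8246 0.165 1.17939 1.1794 0.58969 0.64868 hk1 hk2 (by linarith) (by norm_num) (by norm_num)
    (expn_ge (by norm_num) (by norm_num)) (expn_le (by norm_num) (by norm_num) (by norm_num)) (by norm_num)
    (by norm_num) (by norm_num) (by norm_num) (by norm_num) (by norm_num) (by norm_num)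
  have hy2 : sy κ t ≤ 0.213 := syR_ang2 h 0.3 0.33 1.076 0.924 0.6035 0.7982 0.213 0.80816 1.23738 hk1 hk2 (by linarith) (by norm_num) (by norm_num) (by norm_num)
    (cos_le_num (by norm_num)) (sin_le_num (by norm_num) (by norm_num)) (expm_le (by norm_num) (by norm_num) (by norm_num))
    (expn_ge (by norm_num) (by norm_num)) (by norm_num) (by norm_num) (by norm_num) (by norm_num) (by norm_num)
  exact ⟨by linarith, by linarith⟩

theorem b8_1_A2 {β r h κ T t s u Y : ℝ} (B : By 0.3 0.33 0.2976 0.2752 10 0.033 5.5627 β r h κ T) (hs : t + κ = s * h)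
    (h1 : 0.05 ≤ u) (h2 : u ≤ 0.37) (h3 : u ≤ s) (h4 : s ≤ u + 0)
    (hY : eN r κ * (0.9275 * Real.exp (-(T * (1 / 2 * u ^ 2)))) ≤ Y) :
    ‖Xf β r h t 2‖ ≤ 0.1071 * Y := by
  obtain ⟨t', ht'⟩ : ∃ t', t' = t + 1 * h := ⟨_, rfl⟩
  have hτ : t' + κ = (s + 1) * h := by rw [ht']; linear_combination hs
  have a1 : 0.8246 ≤ t' + κ := by rw [hτ]; exact mlo8 B.P (x1 := 1.05) (by linarith) (by norm_num) (by norm_num)
  have a2 : t' + κ ≤ 1.076 := by rw [hτ]; exact mhi8 B.P (x2 := 1.37) (by linarith) (by norm_num) (by norm_num)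
  have hk := B.hk1
  have hk' := B.P.hκ1
  have hD : DomR κ t' := dom7 B.P.κ0 (by linarith) (by linarith)
  have hy := b8_1_A2_y hD B.hk1 B.hk2 a1 a2
  have hJ : ‖HH β (sg κ t') - 1‖ ≤ 0.04 := JB8_k2 hD B.P.hβ (by linarith) B.P.hκ1 (by linarith) (by linarith) B.P.βκ B.P.βR
  have hd := Dlo7 hD (0.3 ^ 2) (0.33 ^ 2) 1.2699 0.165 0.213 0.165 0.71892 hy.1 hy.2 (pow_le_pow_left₀ (by norm_num) B.hk1 2) (pow_le_pow_left₀ B.P.κ0.le B.hk2 2)
      (by rw [show (-2 * 0.165 : ℝ) = -0.33 by norm_num]; exact expm_ge (by norm_num) (by norm_num) (by norm_num) (by norm_num)) (by norm_num) (by norm_num) (by norm_num) (by norm_num) (by norm_num)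
  have hc : sE κ t' ≤ 1 - 0.3746 * (t' + κ) ^ 2 / (1 + κ ^ 2) := VR8 0.64 0.3746 0.8246 1.076 _ _ _ _ _ B hD a1 a2 (by norm_num) (by norm_num) (by norm_num) (by norm_num) rfl rfl (by norm_num) rfl rfl rfl (by norm_num) (by norm_num)
  exact up8 1 0.04 0.3746 1.2699 0.9797 0.9275 0.4117 0.1013 0.1071 B (by norm_num) ht' hs hD (by norm_num) hJ hc hd (by norm_num) (by norm_num) (by norm_num) hY (by norm_num)
    (ch1 (a := 1) (by norm_num) (sqR h1 h3 (by norm_num)) (by norm_num) h1 h2 (by norm_num) (by norm_num)) (by norm_num)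
    (expn 2 0.2901 (by norm_num) (by norm_num) (by norm_num) (by norm_num)) (by norm_num) (by norm_num)

theorem b8_1_A3R {β r h κ T t s u Y : ℝ} (B : By 0.3 0.33 0.2976 0.2752 10 0.033 5.5627 β r h κ T) (hs : t + κ = s * h)
    (h1 : 0.05 ≤ u) (h2 : u ≤ 0.37) (h3 : u ≤ s) (h4 : s ≤ u + 0) (htp : t + 2 * h ≤ Real.pi / 2)
    (hY : eN r κ * (0.9275 * Real.exp (-(T * (1 / 2 * u ^ 2)))) ≤ Y) :
    ‖Xf β r h t 3‖ ≤ 0.007021 * Y := by
  refine leE (cR8 2 0.38 0.2854 1.61 1.8614 _ _ _ _ _ 0.0147 3.6095 0.7284 0.1888 1.304 0.9275 1.1981 0.001282 0.00499 0.0685 0.9038 0.9612 3.1623 0.000445 0.002031 B (by norm_num) hs htp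
    (mlo8 B.P (x1 := 2.05) (by linarith) (by norm_num) (by norm_num)) (mhi8 B.P (x2 := 2.37) (by linarith) (by norm_num) (by norm_num)) hY g1_nn
    (g1_le (by linarith) h2 (by norm_num)) (ch1 (a := 2) (by norm_num) (sqR h1 h3 (by norm_num)) (by norm_num) h1 h2 (by norm_num) (by norm_num))
    (by norm_num) (by norm_num) (by norm_num) (by norm_num) rfl rfl (by norm_num) rfl rfl rfl (by norm_num) (by norm_num) (by norm_num) (by norm_num) (by norm_num) (by norm_num) (by norm_num) (by norm_num) (by norm_num) (by norm_num) (by norm_num) (by norm_num) (by norm_num) (by norm_num) (by norm_num) (by norm_num) (by norm_num) (by norm_num) (by norm_num)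
    (expn 6 0.6646 (by norm_num) (by norm_num) (by norm_num) (by norm_num)) (by norm_num) (by norm_num) (by norm_num) (by norm_num) (by norm_num) (by norm_num) (by norm_num) (by norm_num) (expn 7 0.724 (by norm_num) (by norm_num) (by norm_num) (by norm_num)) (by norm_num) (by norm_num)) (by norm_num) hY (by norm_num)

theorem b8_1_A3 {β r h κ T t s u Y : ℝ} (B : By 0.3 0.33 0.2976 0.2752 10 0.033 5.5627 β r h κ T) (hs : t + κ = s * h)
    (h1 : 0.05 ≤ u) (h2 : u ≤ 0.37) (h3 : u ≤ s) (h4 : s ≤ u + 0)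
    (hY : eN r κ * (0.9275 * Real.exp (-(T * (1 / 2 * u ^ 2)))) ≤ Y) :
    ‖Xf β r h t 3‖ ≤ 0.007021 * Y := by
  have hp : t + 2 * h ≤ Real.pi / 2 := by
    have e : t + 2 * h = (s + 2) * h - κ := by linear_combination hs
    have := mhi8 B.P (x := s + 2) (x2 := 2.37) (by linarith) (by norm_num) (le_refl _)
    have := B.hk1
    have := Real.pi_gt_d6
    rw [e]
    norm_num at *
    linarith
  exact leE (b8_1_A3R B hs h1 h2 h3 h4 hp hY) (by norm_num) hY (by norm_num)

theorem b8_1_A4 {β r h κ T t s u Y : ℝ} (B : By 0.3 0.33 0.2976 0.2752 10 0.033 5.5627 β r h κ T) (hs : t + κ = s * h)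
    (h1 : 0.05 ≤ u) (h2 : u ≤ 0.37) (h3 : u ≤ s) (h4 : s ≤ u + 0)
    (hY : eN r κ * (0.9275 * Real.exp (-(T * (1 / 2 * u ^ 2)))) ≤ Y) :
    ‖Xf β r h t (4)‖ ≤ 0.0005139 * Y := by
  refine cU8 0 (3) 2.0654 2.6468 0.02 0.7284 0.02 1.795 0.9275 0.0685 0.9038 0.9612 3.1623 0.00008181 0.0005139 B (by norm_num) hs
    (fullz8 B.P B.hk2 (x1 := 3.05) (by push_cast; linarith) (by norm_num) (by norm_num)) (mhi8 B.P (x2 := 3.37) (by push_cast; linarith) (by norm_num) (by norm_num)) hY g1_nn (g1_le (by linarith) h2 (by norm_num))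
    (by norm_num) (by norm_num) (by norm_num) (by norm_num) (by norm_num) (by norm_num) (by norm_num) (by norm_num) (by norm_num) (by norm_num) (by norm_num) (by norm_num) (by norm_num) (by norm_num) (by norm_num) (by norm_num) (by norm_num) (by norm_num) (by norm_num)
    (expn 9 0.412 (by norm_num) (by norm_num) (by norm_num) (by norm_num)) (by norm_num) (by norm_num)

theorem b8_1_Am1 {β r h κ T t s u Y : ℝ} (B : By 0.3 0.33 0.2976 0.2752 10 0.033 5.5627 β r h κ T) (hs : t + κ = s * h)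
    (h1 : 0.05 ≤ u) (h2 : u ≤ 0.37) (h3 : u ≤ s) (h4 : s ≤ u + 0)
    (hY : eN r κ * (0.9275 * Real.exp (-(T * (1 / 2 * u ^ 2)))) ≤ Y) :
    ‖Xf β r h t (-1)‖ ≤ 0.0031183 * Y := by
  refine leE (cL8 (-2) 0.74 0.5 1.2801 1.5316 _ _ _ _ _ 0.0353 2.8996 0.7284 0 1.2435 0.9275 1.26 0.0009038 0.002826 0.0685 0.9038 0.9612 3.1623 0.00006717 0.0002923 B (by norm_num) hs
    (mloN8 B.P (x1 := 1.63) (by linarith) (by norm_num) (by norm_num)) (mhiN8 B.P (x2 := 1.95) (by linarith) (by norm_num) (by norm_num)) hY g1_nn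
    (g1_le (by linarith) h2 (by norm_num)) (ch1 (a := (-2)) (by norm_num) (sqL h2 h4 (by norm_num) (by norm_num)) (by norm_num) h1 h2 (by norm_num) (by norm_num))
    (by norm_num) (by norm_num) (by norm_num) (by norm_num) rfl rfl (by norm_num) rfl rfl rfl (by norm_num) (by norm_num) (by norm_num) (by norm_num) (by norm_num) (by norm_num) (by norm_num) (by norm_num) (by norm_num) (by norm_num) (by norm_num) (by norm_num) (by norm_num) (by norm_num) (by norm_num) (by norm_num) (by norm_num) (by norm_num)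
    (expn 7 0.009 (by norm_num) (by norm_num) (by norm_num) (by norm_num)) (by norm_num) (by norm_num) (by norm_num) (by norm_num) (by norm_num) (by norm_num) (by norm_num) (by norm_num) (expn 9 0.612 (by norm_num) (by norm_num) (by norm_num) (by norm_num)) (by norm_num) (by norm_num)) (by norm_num) hY (by norm_num)

theorem b8_1_Am2 {β r h κ T t s u Y : ℝ} (B : By 0.3 0.33 0.2976 0.2752 10 0.033 5.5627 β r h κ T) (hs : t + κ = s * h)
    (h1 : 0.05 ≤ u) (h2 : u ≤ 0.37) (h3 : u ≤ s) (h4 : s ≤ u + 0)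
    (hY : eN r κ * (0.9275 * Real.exp (-(T * (1 / 2 * u ^ 2)))) ≤ Y) :
    ‖Xf β r h t (-2)‖ ≤ 0.0003064382 * Y := by
  refine leE (cL8 (-3) 0.6 0.4497 2.0655 2.317 _ _ _ _ _ 0.0011 6.9012 0.7284 0 1.3023 0.9275 3.042 0.00000004544 0.0000003382 0.0685 0.9038 0.9612 3.1623 0.00006717 0.0003061 B (by norm_num) hs
    (mloN8 B.P (x1 := 2.63) (by linarith) (by norm_num) (by norm_num)) (mhiN8 B.P (x2 := 2.95) (by linarith) (by norm_num) (by norm_num)) hY g1_nn
    (g1_le (by linarith) h2 (by norm_num)) (ch1 (a := (-3)) (by norm_num) (sqL h2 h4 (by norm_num) (by norm_num)) (by norm_num) h1 h2 (by norm_num) (by norm_num))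
    (by norm_num) (by norm_num) (by norm_num) (by norm_num) rfl rfl (by norm_num) rfl rfl rfl (by norm_num) (by norm_num) (by norm_num) (by norm_num) (by norm_num) (by norm_num) (by norm_num) (by norm_num) (by norm_num) (by norm_num) (by norm_num) (by norm_num) (by norm_num) (by norm_num) (by norm_num) (by norm_num) (by norm_num) (by norm_num)
    (expn 16 0.9217 (by norm_num) (by norm_num) (by norm_num) (by norm_num)) (by norm_num) (by norm_num) (by norm_num) (by norm_num) (by norm_num) (by norm_num) (by norm_num) (by norm_num) (expn 9 0.612 (by norm_num) (by norm_num) (by norm_num) (by norm_num)) (by norm_num) (by norm_num)) (by norm_num) hY (by norm_num)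

theorem b8_1_Am3 {β r h κ T t s u Y : ℝ} (B : By 0.3 0.33 0.2976 0.2752 10 0.033 5.5627 β r h κ T) (hs : t + κ = s * h)
    (h1 : 0.05 ≤ u) (h2 : u ≤ 0.37) (h3 : u ≤ s) (h4 : s ≤ u + 0)
    (hY : eN r κ * (0.9275 * Real.exp (-(T * (1 / 2 * u ^ 2)))) ≤ Y) :
    ‖Xf β r h t (-3)‖ ≤ 0.0005058 * Y := by
  refine cU8 1 (-4) 2.8508 3.4322 0.02 0.7284 0.02 1.7668 0.9275 0.0685 0.9038 0.9612 3.1623 0.00008181 0.0005058 B (by norm_num) hs
    (full8 B.P B.hk2 (x1 := 4.05) (by push_cast; linarith) (by norm_num) (by norm_num)) (mhi8 B.P (x2 := 4.37) (by push_cast; linarith) (by norm_num) (by norm_num)) hY g1_nn (g1_le (by linarith) h2 (by norm_num))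
    (by norm_num) (by norm_num) (by norm_num) (by norm_num) (by norm_num) (by norm_num) (by norm_num) (by norm_num) (by norm_num) (by norm_num) (by norm_num) (by norm_num) (by norm_num) (by norm_num) (by norm_num) (by norm_num) (by norm_num) (by norm_num) (by norm_num)
    (expn 9 0.412 (by norm_num) (by norm_num) (by norm_num) (by norm_num)) (by norm_num) (by norm_num)

private theorem b8_1_Bo_y {κ t : ℝ} (h : DomR κ t) (hk1 : 0.3 ≤ κ) (hk2 : κ ≤ 0.33) (ht1 : (-0.4949) ≤ t + κ) (ht2 : t + κ ≤ (-0.4476)) :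
    (-0.182) ≤ sy κ t ∧ sy κ t ≤ (-0.144) := by
  have hy1 : -0.182 ≤ sy κ t := syL_ge h 0.3 0.33 0.4949 0.182 0.8336 0.83361 0.4482 0.45974 0.50573 hk1 hk2 (by linarith) (by norm_num) (by norm_num) (by norm_num)
    (expm_ge (by norm_num) (by norm_num) (by norm_num) (by norm_num)) (expm_le (by norm_num) (by norm_num) (by norm_num)) (by norm_num)
    (by norm_num) (by norm_num) (by norm_num) (by norm_num) (by norm_num) (by norm_num)
  have hy2 : sy κ t ≤ -0.144 := syL_le h 0.3 0.33 0.4476 0.144 0.86588 0.86589 0.37783 0.41563 hk1 hk2 (by linarith) (by norm_num) (by norm_num) (by norm_num)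
    (expm_ge (by norm_num) (by norm_num) (by norm_num) (by norm_num)) (expm_le (by norm_num) (by norm_num) (by norm_num)) (by norm_num)
    (by norm_num) (by norm_num) (by norm_num) (by norm_num) (by norm_num) (by norm_num)
  exact ⟨by linarith, by linarith⟩

theorem b8_1_Bo {β r h κ T t s u Y : ℝ} (B : By 0.3 0.33 0.2976 0.2752 10 0.033 5.5627 β r h κ T) (hs : t + κ = s * h)
    (h1 : 0.37 ≤ u) (h2 : u ≤ 0.43) (h3 : u ≤ s) (h4 : s ≤ u + 0)
    (hY : eN r κ * (0.9275 * Real.exp (-(T * (1 / 2 * u ^ 2)))) ≤ Y) :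
    ‖Xf β r h t 0‖ ≤ 0.8727 * Y := by
  obtain ⟨t', ht'⟩ : ∃ t', t' = t + (-1) * h := ⟨_, rfl⟩
  have hτ : t' + κ = (s + (-1)) * h := by rw [ht']; linear_combination hs
  have a1 : (-0.4949) ≤ t' + κ := by rw [hτ]; have := mhiN8 B.P (x := s + (-1)) (x2 := 0.63) (τ2 := 0.4949) (by linarith) (by norm_num) (by norm_num); linarith
  have a2 : t' + κ ≤ (-0.4476) := by rw [hτ]; have := mloN8 B.P (x := s + (-1)) (x1 := 0.57) (τ1 := 0.4476) (by linarith) (by norm_num) (by norm_num); linarith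
  have hk := B.hk1
  have hk' := B.P.hκ1
  have hD : DomR κ t' := dom7 B.P.κ0 (by linarith) (by linarith)
  have hy := b8_1_Bo_y hD B.hk1 B.hk2 a1 a2
  have hJ : ‖HH β (sg κ t') - 1‖ ≤ 0.07 := JB8_k0 hD B.P.hβ (by linarith) B.P.hκ1 (by linarith) (by linarith) B.P.βκ B.P.βR
  have hd := Dlo7 hD (0.3 ^ 2) (0.33 ^ 2) 0.7023 (-0.182) (-0.144) (-0.182) 1.43907 hy.1 hy.2 (pow_le_pow_left₀ (by norm_num) B.hk1 2) (pow_le_pow_left₀ B.P.κ0.le B.hk2 2)
      (by rw [show (-2 * (-0.182) : ℝ) = 0.364 by norm_num]; exact expn_ge (by norm_num) (by norm_num)) (by norm_num) (by norm_num) (by norm_num) (by norm_num) (by norm_num)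
  have hc : sE κ t' ≤ 1 - 0.4885 * (t' + κ) ^ 2 / (1 + κ ^ 2) := VL_04_05 hD (by linarith) (by linarith) (by linarith)
  exact up8 (-1) 0.07 0.4885 0.7023 1.1689 0.9275 0.0662 0.6924 0.8727 B (by norm_num) ht' hs hD (by norm_num) hJ hc hd (by norm_num) (by norm_num) (by norm_num) hY (by norm_num)
    (ch1 (a := (-1)) (by norm_num) (sqL h2 h4 (by norm_num) (by norm_num)) (by norm_num) h1 h2 (by norm_num) (by norm_num)) (by norm_num)
    (expn 0 0.3682 (by norm_num) (by norm_num) (by norm_num) (by norm_num)) (by norm_num) (by norm_num)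

private theorem b8_1_B2_y {κ t : ℝ} (h : DomR κ t) (hk1 : 0.3 ≤ κ) (hk2 : κ ≤ 0.33) (ht1 : 1.0759 ≤ t + κ) (ht2 : t + κ ≤ 1.1232) :
    0.195 ≤ sy κ t ∧ sy κ t ≤ 0.218 := by
  have hy1 : 0.195 ≤ sy κ t := syR_ge h 0.3 0.33 1.0759 0.195 1.21531 1.21532 0.71813 0.78996 hk1 hk2 (by linarith) (by norm_num) (by norm_num)
    (expn_ge (by norm_num) (by norm_num)) (expn_le (by norm_num) (by norm_num) (by norm_num)) (by norm_num)
    (by norm_num) (by norm_num) (by norm_num) (by norm_num) (by norm_num) (by norm_num)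
  have hy2 : sy κ t ≤ 0.218 := syR_ang2 h 0.3 0.33 1.1232 0.963 0.5722 0.8211 0.218 0.80413 1.24358 hk1 hk2 (by linarith) (by norm_num) (by norm_num) (by norm_num)
    (cos_le_num (by norm_num)) (sin_le_num (by norm_num) (by norm_num)) (expm_le (by norm_num) (by norm_num) (by norm_num))
    (expn_ge (by norm_num) (by norm_num)) (by norm_num) (by norm_num) (by norm_num) (by norm_num) (by norm_num)
  exact ⟨by linarith, by linarith⟩

theorem b8_1_B2 {β r h κ T t s u Y : ℝ} (B : By 0.3 0.33 0.2976 0.2752 10 0.033 5.5627 β r h κ T) (hs : t + κ = s * h)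
    (h1 : 0.37 ≤ u) (h2 : u ≤ 0.43) (h3 : u ≤ s) (h4 : s ≤ u + 0)
    (hY : eN r κ * (0.9275 * Real.exp (-(T * (1 / 2 * u ^ 2)))) ≤ Y) :
    ‖Xf β r h t 2‖ ≤ 0.03222 * Y := by
  obtain ⟨t', ht'⟩ : ∃ t', t' = t + 1 * h := ⟨_, rfl⟩
  have hτ : t' + κ = (s + 1) * h := by rw [ht']; linear_combination hs
  have a1 : 1.0759 ≤ t' + κ := by rw [hτ]; exact mlo8 B.P (x1 := 1.37) (by linarith) (by norm_num) (by norm_num)
  have a2 : t' + κ ≤ 1.1232 := by rw [hτ]; exact mhi8 B.P (x2 := 1.43) (by linarith) (by norm_num) (by norm_num)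
  have hk := B.hk1
  have hk' := B.P.hκ1
  have hD : DomR κ t' := dom7 B.P.κ0 (by linarith) (by linarith)
  have hy := b8_1_B2_y hD B.hk1 B.hk2 a1 a2
  have hJ : ‖HH β (sg κ t') - 1‖ ≤ 0.04 := JB8_k2 hD B.P.hβ (by linarith) B.P.hκ1 (by linarith) (by linarith) B.P.βκ B.P.βR
  have hd := Dlo7 hD (0.3 ^ 2) (0.33 ^ 2) 1.3199 0.195 0.218 0.195 0.67705 hy.1 hy.2 (pow_le_pow_left₀ (by norm_num) B.hk1 2) (pow_le_pow_left₀ B.P.κ0.le B.hk2 2)
      (by rw [show (-2 * 0.195 : ℝ) = -0.39 by norm_num]; exact expm_ge (by norm_num) (by norm_num) (by norm_num) (by norm_num)) (by norm_num) (by norm_num) (by norm_num) (by norm_num) (by norm_num)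
  have hc : sE κ t' ≤ 1 - 0.37 * (t' + κ) ^ 2 / (1 + κ ^ 2) := VR8 0.62 0.37 1.0759 1.1232 _ _ _ _ _ B hD a1 a2 (by norm_num) (by norm_num) (by norm_num) (by norm_num) rfl rfl (by norm_num) rfl rfl rfl (by norm_num) (by norm_num)
  exact up8 1 0.04 0.37 1.3199 0.9703 0.9275 0.626 0.03079 0.03222 B (by norm_num) ht' hs hD (by norm_num) hJ hc hd (by norm_num) (by norm_num) (by norm_num) hY (by norm_num)
    (ch1 (a := 1) (by norm_num) (sqR h1 h3 (by norm_num)) (by norm_num) h1 h2 (by norm_num) (by norm_num)) (by norm_num)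
    (expn 3 0.4822 (by norm_num) (by norm_num) (by norm_num) (by norm_num)) (by norm_num) (by norm_num)

theorem b8_1_B3R {β r h κ T t s u Y : ℝ} (B : By 0.3 0.33 0.2976 0.2752 10 0.033 5.5627 β r h κ T) (hs : t + κ = s * h)
    (h1 : 0.37 ≤ u) (h2 : u ≤ 0.43) (h3 : u ≤ s) (h4 : s ≤ u + 0) (htp : t + 2 * h ≤ Real.pi / 2)
    (hY : eN r κ * (0.9275 * Real.exp (-(T * (1 / 2 * u ^ 2)))) ≤ Y) :
    ‖Xf β r h t 3‖ ≤ 0.001293 * Y := by
  refine leE (cR8 2 0.4 0.2911 1.8613 1.9086 _ _ _ _ _ 0.0055 4.6151 0.7284 0.0277 1.3283 0.9275 1.5666 0.0001653 0.0008226 0.0925 0.9038 0.9476 3.1623 0.0001012 0.0004704 B (by norm_num) hs htp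
    (mlo8 B.P (x1 := 2.37) (by linarith) (by norm_num) (by norm_num)) (mhi8 B.P (x2 := 2.43) (by linarith) (by norm_num) (by norm_num)) hY g1_nn
    (g1_le (by linarith) h2 (by norm_num)) (ch1 (a := 2) (by norm_num) (sqR h1 h3 (by norm_num)) (by norm_num) h1 h2 (by norm_num) (by norm_num))
    (by norm_num) (by norm_num) (by norm_num) (by norm_num) rfl rfl (by norm_num) rfl rfl rfl (by norm_num) (by norm_num) (by norm_num) (by norm_num) (by norm_num) (by norm_num) (by norm_num) (by norm_num) (by norm_num) (by norm_num) (by norm_num) (by norm_num) (by norm_num) (by norm_num) (by norm_num) (by norm_num) (by norm_num) (by norm_num) (by norm_num)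
    (expn 8 0.7145 (by norm_num) (by norm_num) (by norm_num) (by norm_num)) (by norm_num) (by norm_num) (by norm_num) (by norm_num) (by norm_num) (by norm_num) (by norm_num) (by norm_num) (expn 9 0.199 (by norm_num) (by norm_num) (by norm_num) (by norm_num)) (by norm_num) (by norm_num)) (by norm_num) hY (by norm_num)

theorem b8_1_B3U {β r h κ T t s u Y : ℝ} (B : By 0.3 0.33 0.2976 0.2752 10 0.033 5.5627 β r h κ T) (hs : t + κ = s * h)
    (h1 : 0.37 ≤ u) (h2 : u ≤ 0.43) (h3 : u ≤ s) (h4 : s ≤ u + 0)(htp : Real.pi / 2 ≤ t + 2 * h)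
    (hY : eN r κ * (0.9275 * Real.exp (-(T * (1 / 2 * u ^ 2)))) ≤ Y) :
    ‖Xf β r h t (3)‖ ≤ 0.0009269 * Y := by
  refine cU8 0 (2) 1.5707 1.9086 0.03 0.7284 0.03 2.5595 0.9275 0.0925 0.9038 0.9476 3.1623 0.0001035 0.0009269 B (by norm_num) hs
    (half8 hs htp (by norm_num)) (mhi8 B.P (x2 := 2.43) (by push_cast; linarith) (by norm_num) (by norm_num)) hY g1_nn (g1_le (by linarith) h2 (by norm_num))
    (by norm_num) (by norm_num) (by norm_num) (by norm_num) (by norm_num) (by norm_num) (by norm_num) (by norm_num) (by norm_num) (by norm_num) (by norm_num) (by norm_num) (by norm_num) (by norm_num) (by norm_num) (by norm_num) (by norm_num) (by norm_num) (by norm_num)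
    (expn 9 0.176 (by norm_num) (by norm_num) (by norm_num) (by norm_num)) (by norm_num) (by norm_num)

theorem b8_1_B3 {β r h κ T t s u Y : ℝ} (B : By 0.3 0.33 0.2976 0.2752 10 0.033 5.5627 β r h κ T) (hs : t + κ = s * h)
    (h1 : 0.37 ≤ u) (h2 : u ≤ 0.43) (h3 : u ≤ s) (h4 : s ≤ u + 0)
    (hY : eN r κ * (0.9275 * Real.exp (-(T * (1 / 2 * u ^ 2)))) ≤ Y) :
    ‖Xf β r h t 3‖ ≤ 0.001293 * Y := by
  rcases le_total (t + 2 * h) (Real.pi / 2) with hp | hp
  · exact leE (b8_1_B3R B hs h1 h2 h3 h4 hp hY) (by norm_num) hY (by norm_num)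
  · exact leE (b8_1_B3U B hs h1 h2 h3 h4 hp hY) (by norm_num) hY (by norm_num)

theorem b8_1_B4 {β r h κ T t s u Y : ℝ} (B : By 0.3 0.33 0.2976 0.2752 10 0.033 5.5627 β r h κ T) (hs : t + κ = s * h)
    (h1 : 0.37 ≤ u) (h2 : u ≤ 0.43) (h3 : u ≤ s) (h4 : s ≤ u + 0)
    (hY : eN r κ * (0.9275 * Real.exp (-(T * (1 / 2 * u ^ 2)))) ≤ Y) :
    ‖Xf β r h t (4)‖ ≤ 0.0005833 * Y := by
  refine cU8 0 (3) 2.3167 2.694 0.02 0.7284 0.02 1.7797 0.9275 0.0925 0.9038 0.9476 3.1623 0.00009367 0.0005833 B (by norm_num) hs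
    (fullz8 B.P B.hk2 (x1 := 3.37) (by push_cast; linarith) (by norm_num) (by norm_num)) (mhi8 B.P (x2 := 3.43) (by push_cast; linarith) (by norm_num) (by norm_num)) hY g1_nn (g1_le (by linarith) h2 (by norm_num))
    (by norm_num) (by norm_num) (by norm_num) (by norm_num) (by norm_num) (by norm_num) (by norm_num) (by norm_num) (by norm_num) (by norm_num) (by norm_num) (by norm_num) (by norm_num) (by norm_num) (by norm_num) (by norm_num) (by norm_num) (by norm_num) (by norm_num)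
    (expn 9 0.276 (by norm_num) (by norm_num) (by norm_num) (by norm_num)) (by norm_num) (by norm_num)

theorem b8_1_Bm1 {β r h κ T t s u Y : ℝ} (B : By 0.3 0.33 0.2976 0.2752 10 0.033 5.5627 β r h κ T) (hs : t + κ = s * h)
    (h1 : 0.37 ≤ u) (h2 : u ≤ 0.43) (h3 : u ≤ s) (h4 : s ≤ u + 0)
    (hY : eN r κ * (0.9275 * Real.exp (-(T * (1 / 2 * u ^ 2)))) ≤ Y) :
    ‖Xf β r h t (-1)‖ ≤ 0.0051445 * Y := by
  refine leE (cL8 (-2) 0.74 0.5 1.233 1.2802 _ _ _ _ _ 0.067 2.4704 0.7284 0.0329 1.2024 0.9275 1.14 0.001763 0.004696 0.0925 0.9038 0.9476 3.1623 0.0001066 0.0004485 B (by norm_num) hs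
    (mloN8 B.P (x1 := 1.57) (by linarith) (by norm_num) (by norm_num)) (mhiN8 B.P (x2 := 1.63) (by linarith) (by norm_num) (by norm_num)) hY g1_nn
    (g1_le (by linarith) h2 (by norm_num)) (ch1 (a := (-2)) (by norm_num) (sqL h2 h4 (by norm_num) (by norm_num)) (by norm_num) h1 h2 (by norm_num) (by norm_num))
    (by norm_num) (by norm_num) (by norm_num) (by norm_num) rfl rfl (by norm_num) rfl rfl rfl (by norm_num) (by norm_num) (by norm_num) (by norm_num) (by norm_num) (by norm_num) (by norm_num) (by norm_num) (by norm_num) (by norm_num) (by norm_num) (by norm_num) (by norm_num) (by norm_num) (by norm_num) (by norm_num) (by norm_num) (by norm_num)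
    (expn 6 0.3414 (by norm_num) (by norm_num) (by norm_num) (by norm_num)) (by norm_num) (by norm_num) (by norm_num) (by norm_num) (by norm_num) (by norm_num) (by norm_num) (by norm_num) (expn 9 0.147 (by norm_num) (by norm_num) (by norm_num) (by norm_num)) (by norm_num) (by norm_num)) (by norm_num) hY (by norm_num)

theorem b8_1_Bm2 {β r h κ T t s u Y : ℝ} (B : By 0.3 0.33 0.2976 0.2752 10 0.033 5.5627 β r h κ T) (hs : t + κ = s * h)
    (h1 : 0.37 ≤ u) (h2 : u ≤ 0.43) (h3 : u ≤ s) (h4 : s ≤ u + 0)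
    (hY : eN r κ * (0.9275 * Real.exp (-(T * (1 / 2 * u ^ 2)))) ≤ Y) :
    ‖Xf β r h t (-2)‖ ≤ 0.0003411147 * Y := by
  refine leE (cL8 (-3) 0.6 0.4528 2.0184 2.0656 _ _ _ _ _ 0.0339 2.929 0.7284 0 1.2684 0.9275 2.8982 0.00000009964 0.0000003147 0.0925 0.9038 0.9476 3.1623 0.00007679 0.0003408 B (by norm_num) hs
    (mloN8 B.P (x1 := 2.57) (by linarith) (by norm_num) (by norm_num)) (mhiN8 B.P (x2 := 2.63) (by linarith) (by norm_num) (by norm_num)) hY g1_nn
    (g1_le (by linarith) h2 (by norm_num)) (ch1 (a := (-3)) (by norm_num) (sqL h2 h4 (by norm_num) (by norm_num)) (by norm_num) h1 h2 (by norm_num) (by norm_num))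
    (by norm_num) (by norm_num) (by norm_num) (by norm_num) rfl rfl (by norm_num) rfl rfl rfl (by norm_num) (by norm_num) (by norm_num) (by norm_num) (by norm_num) (by norm_num) (by norm_num) (by norm_num) (by norm_num) (by norm_num) (by norm_num) (by norm_num) (by norm_num) (by norm_num) (by norm_num) (by norm_num) (by norm_num) (by norm_num)
    (expn 16 0.1218 (by norm_num) (by norm_num) (by norm_num) (by norm_num)) (by norm_num) (by norm_num) (by norm_num) (by norm_num) (by norm_num) (by norm_num) (by norm_num) (by norm_num) (expn 9 0.476 (by norm_num) (by norm_num) (by norm_num) (by norm_num)) (by norm_num) (by norm_num)) (by norm_num) hY (by norm_num)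

theorem b8_1_Bm3 {β r h κ T t s u Y : ℝ} (B : By 0.3 0.33 0.2976 0.2752 10 0.033 5.5627 β r h κ T) (hs : t + κ = s * h)
    (h1 : 0.37 ≤ u) (h2 : u ≤ 0.43) (h3 : u ≤ s) (h4 : s ≤ u + 0)
    (hY : eN r κ * (0.9275 * Real.exp (-(T * (1 / 2 * u ^ 2)))) ≤ Y) :
    ‖Xf β r h t (-3)‖ ≤ 0.0005781 * Y := by
  refine cU8 1 (-4) 3.1021 3.4794 0.02 0.7284 0.02 1.7638 0.9275 0.0925 0.9038 0.9476 3.1623 0.00009367 0.0005781 B (by norm_num) hs
    (full8 B.P B.hk2 (x1 := 4.37) (by push_cast; linarith) (by norm_num) (by norm_num)) (mhi8 B.P (x2 := 4.43) (by push_cast; linarith) (by norm_num) (by norm_num)) hY g1_nn (g1_le (by linarith) h2 (by norm_num))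
    (by norm_num) (by norm_num) (by norm_num) (by norm_num) (by norm_num) (by norm_num) (by norm_num) (by norm_num) (by norm_num) (by norm_num) (by norm_num) (by norm_num) (by norm_num) (by norm_num) (by norm_num) (by norm_num) (by norm_num) (by norm_num) (by norm_num)
    (expn 9 0.276 (by norm_num) (by norm_num) (by norm_num) (by norm_num)) (by norm_num) (by norm_num)

private theorem b8_1_Co_y {κ t : ℝ} (h : DomR κ t) (hk1 : 0.3 ≤ κ) (hk2 : κ ≤ 0.33) (ht1 : 0.4633 ≤ t + κ) (ht2 : t + κ ≤ 0.5891) :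
    0.107 ≤ sy κ t ∧ sy κ t ≤ 0.141 := by
  have hy1 : 0.107 ≤ sy κ t := syR_ge h 0.3 0.33 0.4633 0.107 1.11293 1.11294 0.36085 0.39695 hk1 hk2 (by linarith) (by norm_num) (by norm_num)
    (expn_ge (by norm_num) (by norm_num)) (expn_le (by norm_num) (by norm_num) (by norm_num)) (by norm_num)
    (by norm_num) (by norm_num) (by norm_num) (by norm_num) (by norm_num) (by norm_num)
  have hy2 : sy κ t ≤ 0.141 := syR_le h 0.3 0.33 0.5891 0.141 1.15142 0.4796 0.49197 0.54118 hk1 hk2 (by linarith) (by norm_num) (by norm_num)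
    (expn_ge (by norm_num) (by norm_num)) (by norm_num) (by norm_num) (Or.inr ((mul_le_mul_of_nonneg_left (expn_le (E := 1.15143) (by norm_num) (by norm_num) (by norm_num)) (by norm_num)).trans (by norm_num))) (by norm_num) (by norm_num) (by norm_num)
  exact ⟨by linarith, by linarith⟩

theorem b8_1_Co {β r h κ T t s u Y : ℝ} (B : By 0.3 0.33 0.2976 0.2752 10 0.033 5.5627 β r h κ T) (hs : t + κ = s * h)
    (h1 : 0.59 ≤ u) (h2 : u ≤ 0.75) (h3 : u ≤ s) (h4 : s ≤ u + 0)
    (hY : eN r κ * (0.9253 * Real.exp (-(T * (0.5756 * (1 - u) ^ 2)))) ≤ Y) :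
    ‖Xf β r h t 1‖ ≤ 0.8004 * Y := by
  obtain ⟨t', ht'⟩ : ∃ t', t' = t + 0 * h := ⟨_, rfl⟩
  have hτ : t' + κ = (s + 0) * h := by rw [ht']; linear_combination hs
  have a1 : 0.4633 ≤ t' + κ := by rw [hτ]; exact mlo8 B.P (x1 := 0.59) (by linarith) (by norm_num) (by norm_num)
  have a2 : t' + κ ≤ 0.5891 := by rw [hτ]; exact mhi8 B.P (x2 := 0.75) (by linarith) (by norm_num) (by norm_num)
  have hk := B.hk1
  have hk' := B.P.hκ1
  have hD : DomR κ t' := dom7 B.P.κ0 (by linarith) (by linarith)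
  have hy := b8_1_Co_y hD B.hk1 B.hk2 a1 a2
  have hJ : ‖HH β (sg κ t') - 1‖ ≤ 0.03 := JB8_k1 hD B.P.hβ (by linarith) B.P.hκ1 (by linarith) (by linarith) B.P.βκ B.P.βR
  have hd := Dlo7 hD (0.3 ^ 2) (0.33 ^ 2) 1.174 0.107 0.141 0.107 0.80734 hy.1 hy.2 (pow_le_pow_left₀ (by norm_num) B.hk1 2) (pow_le_pow_left₀ B.P.κ0.le B.hk2 2)
      (by rw [show (-2 * 0.107 : ℝ) = -0.214 by norm_num]; exact expm_ge (by norm_num) (by norm_num) (by norm_num) (by norm_num)) (by norm_num) (by norm_num) (by norm_num) (by norm_num) (by norm_num)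
  have hc : sE κ t' ≤ 1 - 0.428 * (t' + κ) ^ 2 / (1 + κ ^ 2) := VR8 0.78 0.428 0.4633 0.5891 _ _ _ _ _ B hD a1 a2 (by norm_num) (by norm_num) (by norm_num) (by norm_num) rfl rfl (by norm_num) rfl rfl rfl (by norm_num) (by norm_num)
  exact up8 0 0.03 0.428 1.174 0.9896 0.9253 0.0522 0.7483 0.8004 B (by norm_num) ht' hs hD (by norm_num) hJ hc hd (by norm_num) (by norm_num) (by norm_num) hY (by norm_num)
    (ch0 (a := 0) (by norm_num) (sqR h1 h3 (by norm_num)) (by norm_num) h1 h2 (by norm_num) (by norm_num)) (by norm_num)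
    (expn 0 0.2903 (by norm_num) (by norm_num) (by norm_num) (by norm_num)) (by norm_num) (by norm_num)

theorem b8_1_C2R {β r h κ T t s u Y : ℝ} (B : By 0.3 0.33 0.2976 0.2752 10 0.033 5.5627 β r h κ T) (hs : t + κ = s * h)
    (h1 : 0.59 ≤ u) (h2 : u ≤ 0.75) (h3 : u ≤ s) (h4 : s ≤ u + 0) (htp : t + 1 * h ≤ Real.pi / 2)
    (hY : eN r κ * (0.9253 * Real.exp (-(T * (0.5756 * (1 - u) ^ 2)))) ≤ Y) :
    ‖Xf β r h t 2‖ ≤ 0.07336 * Y := by
  refine leE (cR8 1 0.46 0.3274 1.2487 1.3745 _ _ _ _ _ 0.0263 3.1209 0.7284 0.3783 1.2715 0.9253 0.7309 0.01716 0.05788 0.0968 0.9016 0.9452 3.1623 0.003469 0.01548 B (by norm_num) hs htp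
    (mlo8 B.P (x1 := 1.59) (by linarith) (by norm_num) (by norm_num)) (mhi8 B.P (x2 := 1.75) (by linarith) (by norm_num) (by norm_num)) hY (g0_nn (by norm_num))
    (g0_le (by norm_num) h1 h2 (by norm_num) (by norm_num)) (ch0 (a := 1) (by norm_num) (sqR h1 h3 (by norm_num)) (by norm_num) h1 h2 (by norm_num) (by norm_num))
    (by norm_num) (by norm_num) (by norm_num) (by norm_num) rfl rfl (by norm_num) rfl rfl rfl (by norm_num) (by norm_num) (by norm_num) (by norm_num) (by norm_num) (by norm_num) (by norm_num) (by norm_num) (by norm_num) (by norm_num) (by norm_num) (by norm_num) (by norm_num) (by norm_num) (by norm_num) (by norm_num) (by norm_num) (by norm_num) (by norm_num)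
    (expn 4 0.0657 (by norm_num) (by norm_num) (by norm_num) (by norm_num)) (by norm_num) (by norm_num) (by norm_num) (by norm_num) (by norm_num) (by norm_num) (by norm_num) (by norm_num) (expn 5 0.669 (by norm_num) (by norm_num) (by norm_num) (by norm_num)) (by norm_num) (by norm_num)) (by norm_num) hY (by norm_num)

theorem b8_1_C2 {β r h κ T t s u Y : ℝ} (B : By 0.3 0.33 0.2976 0.2752 10 0.033 5.5627 β r h κ T) (hs : t + κ = s * h)
    (h1 : 0.59 ≤ u) (h2 : u ≤ 0.75) (h3 : u ≤ s) (h4 : s ≤ u + 0)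
    (hY : eN r κ * (0.9253 * Real.exp (-(T * (0.5756 * (1 - u) ^ 2)))) ≤ Y) :
    ‖Xf β r h t 2‖ ≤ 0.07336 * Y := by
  have hp : t + 1 * h ≤ Real.pi / 2 := by
    have e : t + 1 * h = (s + 1) * h - κ := by linear_combination hs
    have := mhi8 B.P (x := s + 1) (x2 := 1.75) (by linarith) (by norm_num) (le_refl _)
    have := B.hk1
    have := Real.pi_gt_d6
    rw [e]
    norm_num at *
    linarith
  exact leE (b8_1_C2R B hs h1 h2 h3 h4 hp hY) (by norm_num) hY (by norm_num)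

theorem b8_1_C3U {β r h κ T t s u Y : ℝ} (B : By 0.3 0.33 0.2976 0.2752 10 0.033 5.5627 β r h κ T) (hs : t + κ = s * h)
    (h1 : 0.59 ≤ u) (h2 : u ≤ 0.75) (h3 : u ≤ s) (h4 : s ≤ u + 0)(htp : Real.pi / 2 ≤ t + 2 * h)
    (hY : eN r κ * (0.9253 * Real.exp (-(T * (0.5756 * (1 - u) ^ 2)))) ≤ Y) :
    ‖Xf β r h t (3)‖ ≤ 0.0009525 * Y := by
  refine cU8 0 (2) 1.5707 2.1599 0.03 0.7284 0.03 2.5595 0.9253 0.0968 0.9016 0.9452 3.1623 0.0001061 0.0009525 B (by norm_num) hs
    (half8 hs htp (by norm_num)) (mhi8 B.P (x2 := 2.75) (by push_cast; linarith) (by norm_num) (by norm_num)) hY (g0_nn (by norm_num)) (g0_le (by norm_num) h1 h2 (by norm_num) (by norm_num))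
    (by norm_num) (by norm_num) (by norm_num) (by norm_num) (by norm_num) (by norm_num) (by norm_num) (by norm_num) (by norm_num) (by norm_num) (by norm_num) (by norm_num) (by norm_num) (by norm_num) (by norm_num) (by norm_num) (by norm_num) (by norm_num) (by norm_num)
    (expn 9 0.152 (by norm_num) (by norm_num) (by norm_num) (by norm_num)) (by norm_num) (by norm_num)

theorem b8_1_C3 {β r h κ T t s u Y : ℝ} (B : By 0.3 0.33 0.2976 0.2752 10 0.033 5.5627 β r h κ T) (hs : t + κ = s * h)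
    (h1 : 0.59 ≤ u) (h2 : u ≤ 0.75) (h3 : u ≤ s) (h4 : s ≤ u + 0)
    (hY : eN r κ * (0.9253 * Real.exp (-(T * (0.5756 * (1 - u) ^ 2)))) ≤ Y) :
    ‖Xf β r h t 3‖ ≤ 0.0009525 * Y := by
  have hp : Real.pi / 2 ≤ t + 2 * h := by
    have e : t + 2 * h = (s + 2) * h - κ := by linear_combination hs
    have := mlo8 B.P (x := s + 2) (x1 := 2.59) (by linarith) (by norm_num) (le_refl _)
    have := B.hk2
    have := Real.pi_lt_d6
    rw [e]
    norm_num at *
    linarith
  exact leE (b8_1_C3U B hs h1 h2 h3 h4 hp hY) (by norm_num) hY (by norm_num)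

theorem b8_1_C4 {β r h κ T t s u Y : ℝ} (B : By 0.3 0.33 0.2976 0.2752 10 0.033 5.5627 β r h κ T) (hs : t + κ = s * h)
    (h1 : 0.59 ≤ u) (h2 : u ≤ 0.75) (h3 : u ≤ s) (h4 : s ≤ u + 0)
    (hY : eN r κ * (0.9253 * Real.exp (-(T * (0.5756 * (1 - u) ^ 2)))) ≤ Y) :
    ‖Xf β r h t (4)‖ ≤ 0.000597 * Y := by
  refine cU8 0 (3) 2.4895 2.9453 0.02 0.7284 0.02 1.7739 0.9253 0.0968 0.9016 0.9452 3.1623 0.00009594 0.000597 B (by norm_num) hs
    (fullz8 B.P B.hk2 (x1 := 3.59) (by push_cast; linarith) (by norm_num) (by norm_num)) (mhi8 B.P (x2 := 3.75) (by push_cast; linarith) (by norm_num) (by norm_num)) hY (g0_nn (by norm_num)) (g0_le (by norm_num) h1 h2 (by norm_num) (by norm_num))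
    (by norm_num) (by norm_num) (by norm_num) (by norm_num) (by norm_num) (by norm_num) (by norm_num) (by norm_num) (by norm_num) (by norm_num) (by norm_num) (by norm_num) (by norm_num) (by norm_num) (by norm_num) (by norm_num) (by norm_num) (by norm_num) (by norm_num)
    (expn 9 0.252 (by norm_num) (by norm_num) (by norm_num) (by norm_num)) (by norm_num) (by norm_num)

theorem b8_1_Cm1 {β r h κ T t s u Y : ℝ} (B : By 0.3 0.33 0.2976 0.2752 10 0.033 5.5627 β r h κ T) (hs : t + κ = s * h)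
    (h1 : 0.59 ≤ u) (h2 : u ≤ 0.75) (h3 : u ≤ s) (h4 : s ≤ u + 0)
    (hY : eN r κ * (0.9253 * Real.exp (-(T * (0.5756 * (1 - u) ^ 2)))) ≤ Y) :
    ‖Xf β r h t (-1)‖ ≤ 0.031676 * Y := by
  refine leE (cL8 (-2) 1 0.5731 0.9817 1.1075 _ _ _ _ _ 0.0431 2.7584 0.7284 0.2938 1.2367 0.9253 0.8594 0.008463 0.02523 0.0968 0.9016 0.9452 3.1623 0.001486 0.006446 B (by norm_num) hs
    (mloN8 B.P (x1 := 1.25) (by linarith) (by norm_num) (by norm_num)) (mhiN8 B.P (x2 := 1.41) (by linarith) (by norm_num) (by norm_num)) hY (g0_nn (by norm_num))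
    (g0_le (by norm_num) h1 h2 (by norm_num) (by norm_num)) (ch0 (a := (-2)) (by norm_num) (sqL h2 h4 (by norm_num) (by norm_num)) (by norm_num) h1 h2 (by norm_num) (by norm_num))
    (by norm_num) (by norm_num) (by norm_num) (by norm_num) rfl rfl (by norm_num) rfl rfl rfl (by norm_num) (by norm_num) (by norm_num) (by norm_num) (by norm_num) (by norm_num) (by norm_num) (by norm_num) (by norm_num) (by norm_num) (by norm_num) (by norm_num) (by norm_num) (by norm_num) (by norm_num) (by norm_num) (by norm_num) (by norm_num)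
    (expn 4 0.7805 (by norm_num) (by norm_num) (by norm_num) (by norm_num)) (by norm_num) (by norm_num) (by norm_num) (by norm_num) (by norm_num) (by norm_num) (by norm_num) (by norm_num) (expn 6 0.514 (by norm_num) (by norm_num) (by norm_num) (by norm_num)) (by norm_num) (by norm_num)) (by norm_num) hY (by norm_num)

theorem b8_1_Cm2 {β r h κ T t s u Y : ℝ} (B : By 0.3 0.33 0.2976 0.2752 10 0.033 5.5627 β r h κ T) (hs : t + κ = s * h)
    (h1 : 0.59 ≤ u) (h2 : u ≤ 0.75) (h3 : u ≤ s) (h4 : s ≤ u + 0)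
    (hY : eN r κ * (0.9253 * Real.exp (-(T * (0.5756 * (1 - u) ^ 2)))) ≤ Y) :
    ‖Xf β r h t (-2)‖ ≤ 0.000354799 * Y := by
  refine leE (cL8 (-3) 0.62 0.4593 1.7671 1.8929 _ _ _ _ _ 0.0386 2.8355 0.7284 0 1.2534 0.9253 2.2892 0.000002969 0.000009099 0.0968 0.9016 0.9452 3.1623 0.00007863 0.0003457 B (by norm_num) hs
    (mloN8 B.P (x1 := 2.25) (by linarith) (by norm_num) (by norm_num)) (mhiN8 B.P (x2 := 2.41) (by linarith) (by norm_num) (by norm_num)) hY (g0_nn (by norm_num))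
    (g0_le (by norm_num) h1 h2 (by norm_num) (by norm_num)) (ch0 (a := (-3)) (by norm_num) (sqL h2 h4 (by norm_num) (by norm_num)) (by norm_num) h1 h2 (by norm_num) (by norm_num))
    (by norm_num) (by norm_num) (by norm_num) (by norm_num) rfl rfl (by norm_num) rfl rfl rfl (by norm_num) (by norm_num) (by norm_num) (by norm_num) (by norm_num) (by norm_num) (by norm_num) (by norm_num) (by norm_num) (by norm_num) (by norm_num) (by norm_num) (by norm_num) (by norm_num) (by norm_num) (by norm_num) (by norm_num) (by norm_num)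
    (expn 12 0.7341 (by norm_num) (by norm_num) (by norm_num) (by norm_num)) (by norm_num) (by norm_num) (by norm_num) (by norm_num) (by norm_num) (by norm_num) (by norm_num) (by norm_num) (expn 9 0.452 (by norm_num) (by norm_num) (by norm_num) (by norm_num)) (by norm_num) (by norm_num)) (by norm_num) hY (by norm_num)

theorem b8_1_Cm3 {β r h κ T t s u Y : ℝ} (B : By 0.3 0.33 0.2976 0.2752 10 0.033 5.5627 β r h κ T) (hs : t + κ = s * h)
    (h1 : 0.59 ≤ u) (h2 : u ≤ 0.75) (h3 : u ≤ s) (h4 : s ≤ u + 0)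
    (hY : eN r κ * (0.9253 * Real.exp (-(T * (0.5756 * (1 - u) ^ 2)))) ≤ Y) :
    ‖Xf β r h t (-3)‖ ≤ 0.0005931 * Y := by
  refine cU8 1 (-4) 3.2749 3.7307 0.02 0.7284 0.02 1.7623 0.9253 0.0968 0.9016 0.9452 3.1623 0.00009594 0.0005931 B (by norm_num) hs
    (full8 B.P B.hk2 (x1 := 4.59) (by push_cast; linarith) (by norm_num) (by norm_num)) (mhi8 B.P (x2 := 4.75) (by push_cast; linarith) (by norm_num) (by norm_num)) hY (g0_nn (by norm_num)) (g0_le (by norm_num) h1 h2 (by norm_num) (by norm_num))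
    (by norm_num) (by norm_num) (by norm_num) (by norm_num) (by norm_num) (by norm_num) (by norm_num) (by norm_num) (by norm_num) (by norm_num) (by norm_num) (by norm_num) (by norm_num) (by norm_num) (by norm_num) (by norm_num) (by norm_num) (by norm_num) (by norm_num)
    (expn 9 0.252 (by norm_num) (by norm_num) (by norm_num) (by norm_num)) (by norm_num) (by norm_num)

private theorem b8_1_Do_y {κ t : ℝ} (h : DomR κ t) (hk1 : 0.3 ≤ κ) (hk2 : κ ≤ 0.33) (ht1 : 0.589 ≤ t + κ) (ht2 : t + κ ≤ 0.8247) :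
    0.129 ≤ sy κ t ∧ sy κ t ≤ 0.181 := by
  have hy1 : 0.129 ≤ sy κ t := syR_ge h 0.3 0.33 0.589 0.129 1.13769 1.1377 0.44473 0.48922 hk1 hk2 (by linarith) (by norm_num) (by norm_num)
    (expn_ge (by norm_num) (by norm_num)) (expn_le (by norm_num) (by norm_num) (by norm_num)) (by norm_num)
    (by norm_num) (by norm_num) (by norm_num) (by norm_num) (by norm_num) (by norm_num)
  have hy2 : sy κ t ≤ 0.181 := syR_le h 0.3 0.33 0.8247 0.181 1.19841 0.6463 0.6573 0.72305 hk1 hk2 (by linarith) (by norm_num) (by norm_num)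
    (expn_ge (by norm_num) (by norm_num)) (by norm_num) (by norm_num) (Or.inr ((mul_le_mul_of_nonneg_left (expn_le (E := 1.19842) (by norm_num) (by norm_num) (by norm_num)) (by norm_num)).trans (by norm_num))) (by norm_num) (by norm_num) (by norm_num)
  exact ⟨by linarith, by linarith⟩

theorem b8_1_Do {β r h κ T t s u Y : ℝ} (B : By 0.3 0.33 0.2976 0.2752 10 0.033 5.5627 β r h κ T) (hs : t + κ = s * h)
    (h1 : 0.75 ≤ u) (h2 : u ≤ 1.05) (h3 : u ≤ s) (h4 : s ≤ u + 0)
    (hY : eN r κ * (0.9253 * Real.exp (-(T * (0.5756 * (1 - u) ^ 2)))) ≤ Y) :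
    ‖Xf β r h t 1‖ ≤ 0.3694 * Y := by
  obtain ⟨t', ht'⟩ : ∃ t', t' = t + 0 * h := ⟨_, rfl⟩
  have hτ : t' + κ = (s + 0) * h := by rw [ht']; linear_combination hs
  have a1 : 0.589 ≤ t' + κ := by rw [hτ]; exact mlo8 B.P (x1 := 0.75) (by linarith) (by norm_num) (by norm_num)
  have a2 : t' + κ ≤ 0.8247 := by rw [hτ]; exact mhi8 B.P (x2 := 1.05) (by linarith) (by norm_num) (by norm_num)
  have hk := B.hk1
  have hk' := B.P.hκ1
  have hD : DomR κ t' := dom7 B.P.κ0 (by linarith) (by linarith)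
  have hy := b8_1_Do_y hD B.hk1 B.hk2 a1 a2
  have hJ : ‖HH β (sg κ t') - 1‖ ≤ 0.03 := JB8_k1 hD B.P.hβ (by linarith) B.P.hκ1 (by linarith) (by linarith) B.P.βκ B.P.βR
  have hd := Dlo7 hD (0.3 ^ 2) (0.33 ^ 2) 1.2103 0.129 0.181 0.129 0.77259 hy.1 hy.2 (pow_le_pow_left₀ (by norm_num) B.hk1 2) (pow_le_pow_left₀ B.P.κ0.le B.hk2 2)
      (by rw [show (-2 * 0.129 : ℝ) = -0.258 by norm_num]; exact expm_ge (by norm_num) (by norm_num) (by norm_num) (by norm_num)) (by norm_num) (by norm_num) (by norm_num) (by norm_num) (by norm_num)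
  have hc : sE κ t' ≤ 1 - 0.4014 * (t' + κ) ^ 2 / (1 + κ ^ 2) := VR8 0.71 0.4014 0.589 0.8247 _ _ _ _ _ B hD a1 a2 (by norm_num) (by norm_num) (by norm_num) (by norm_num) rfl rfl (by norm_num) rfl rfl rfl (by norm_num) (by norm_num)
  exact up8 0 0.03 0.4014 1.2103 0.9821 0.9253 0.1898 0.348 0.3694 B (by norm_num) ht' hs hD (by norm_num) hJ hc hd (by norm_num) (by norm_num) (by norm_num) hY (by norm_num)
    (ch0 (a := 0) (by norm_num) (sqR h1 h3 (by norm_num)) (by norm_num) h1 h2 (by norm_num) (by norm_num)) (by norm_num)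
    (expn 1 0.0558 (by norm_num) (by norm_num) (by norm_num) (by norm_num)) (by norm_num) (by norm_num)

theorem b8_1_D2R {β r h κ T t s u Y : ℝ} (B : By 0.3 0.33 0.2976 0.2752 10 0.033 5.5627 β r h κ T) (hs : t + κ = s * h)
    (h1 : 0.75 ≤ u) (h2 : u ≤ 1.05) (h3 : u ≤ s) (h4 : s ≤ u + 0) (htp : t + 1 * h ≤ Real.pi / 2)
    (hY : eN r κ * (0.9253 * Real.exp (-(T * (0.5756 * (1 - u) ^ 2)))) ≤ Y) :
    ‖Xf β r h t 2‖ ≤ 0.030543 * Y := by
  refine leE (cR8 1 0.42 0.3066 1.3744 1.6101 _ _ _ _ _ 0.0196 3.359 0.7284 0.3266 1.2905 0.9253 0.9029 0.006589 0.02392 0.036 0.9016 0.9796 3.1623 0.001463 0.006623 B (by norm_num) hs htp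
    (mlo8 B.P (x1 := 1.75) (by linarith) (by norm_num) (by norm_num)) (mhi8 B.P (x2 := 2.05) (by linarith) (by norm_num) (by norm_num)) hY (g0_nn (by norm_num))
    (g0_le (by norm_num) h1 h2 (by norm_num) (by norm_num)) (ch0 (a := 1) (by norm_num) (sqR h1 h3 (by norm_num)) (by norm_num) h1 h2 (by norm_num) (by norm_num))
    (by norm_num) (by norm_num) (by norm_num) (by norm_num) rfl rfl (by norm_num) rfl rfl rfl (by norm_num) (by norm_num) (by norm_num) (by norm_num) (by norm_num) (by norm_num) (by norm_num) (by norm_num) (by norm_num) (by norm_num) (by norm_num) (by norm_num) (by norm_num) (by norm_num) (by norm_num) (by norm_num) (by norm_num) (by norm_num) (by norm_num)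
    (expn 5 0.0225 (by norm_num) (by norm_num) (by norm_num) (by norm_num)) (by norm_num) (by norm_num) (by norm_num) (by norm_num) (by norm_num) (by norm_num) (by norm_num) (by norm_num) (expn 6 0.53 (by norm_num) (by norm_num) (by norm_num) (by norm_num)) (by norm_num) (by norm_num)) (by norm_num) hY (by norm_num)

theorem b8_1_D2 {β r h κ T t s u Y : ℝ} (B : By 0.3 0.33 0.2976 0.2752 10 0.033 5.5627 β r h κ T) (hs : t + κ = s * h)
    (h1 : 0.75 ≤ u) (h2 : u ≤ 1.05) (h3 : u ≤ s) (h4 : s ≤ u + 0)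
    (hY : eN r κ * (0.9253 * Real.exp (-(T * (0.5756 * (1 - u) ^ 2)))) ≤ Y) :
    ‖Xf β r h t 2‖ ≤ 0.030543 * Y := by
  have hp : t + 1 * h ≤ Real.pi / 2 := by
    have e : t + 1 * h = (s + 1) * h - κ := by linear_combination hs
    have := mhi8 B.P (x := s + 1) (x2 := 2.05) (by linarith) (by norm_num) (le_refl _)
    have := B.hk1
    have := Real.pi_gt_d6
    rw [e]
    norm_num at *
    linarith
  exact leE (b8_1_D2R B hs h1 h2 h3 h4 hp hY) (by norm_num) hY (by norm_num)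

theorem b8_1_D3U {β r h κ T t s u Y : ℝ} (B : By 0.3 0.33 0.2976 0.2752 10 0.033 5.5627 β r h κ T) (hs : t + κ = s * h)
    (h1 : 0.75 ≤ u) (h2 : u ≤ 1.05) (h3 : u ≤ s) (h4 : s ≤ u + 0)(htp : Real.pi / 2 ≤ t + 2 * h)
    (hY : eN r κ * (0.9253 * Real.exp (-(T * (0.5756 * (1 - u) ^ 2)))) ≤ Y) :
    ‖Xf β r h t (3)‖ ≤ 0.0006759 * Y := by
  refine cU8 0 (2) 1.5707 2.3955 0.03 0.7284 0.03 2.5595 0.9253 0.036 0.9016 0.9796 3.1623 0.00007528 0.0006759 B (by norm_num) hs
    (half8 hs htp (by norm_num)) (mhi8 B.P (x2 := 3.05) (by push_cast; linarith) (by norm_num) (by norm_num)) hY (g0_nn (by norm_num)) (g0_le (by norm_num) h1 h2 (by norm_num) (by norm_num))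
    (by norm_num) (by norm_num) (by norm_num) (by norm_num) (by norm_num) (by norm_num) (by norm_num) (by norm_num) (by norm_num) (by norm_num) (by norm_num) (by norm_num) (by norm_num) (by norm_num) (by norm_num) (by norm_num) (by norm_num) (by norm_num) (by norm_num)
    (expn 9 0.496 (by norm_num) (by norm_num) (by norm_num) (by norm_num)) (by norm_num) (by norm_num)

theorem b8_1_D3 {β r h κ T t s u Y : ℝ} (B : By 0.3 0.33 0.2976 0.2752 10 0.033 5.5627 β r h κ T) (hs : t + κ = s * h)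
    (h1 : 0.75 ≤ u) (h2 : u ≤ 1.05) (h3 : u ≤ s) (h4 : s ≤ u + 0)
    (hY : eN r κ * (0.9253 * Real.exp (-(T * (0.5756 * (1 - u) ^ 2)))) ≤ Y) :
    ‖Xf β r h t 3‖ ≤ 0.0006759 * Y := by
  have hp : Real.pi / 2 ≤ t + 2 * h := by
    have e : t + 2 * h = (s + 2) * h - κ := by linear_combination hs
    have := mlo8 B.P (x := s + 2) (x1 := 2.75) (by linarith) (by norm_num) (le_refl _)
    have := B.hk2
    have := Real.pi_lt_d6
    rw [e]
    norm_num at *
    linarith
  exact leE (b8_1_D3U B hs h1 h2 h3 h4 hp hY) (by norm_num) hY (by norm_num)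

theorem b8_1_D4 {β r h κ T t s u Y : ℝ} (B : By 0.3 0.33 0.2976 0.2752 10 0.033 5.5627 β r h κ T) (hs : t + κ = s * h)
    (h1 : 0.75 ≤ u) (h2 : u ≤ 1.05) (h3 : u ≤ s) (h4 : s ≤ u + 0)
    (hY : eN r κ * (0.9253 * Real.exp (-(T * (0.5756 * (1 - u) ^ 2)))) ≤ Y) :
    ‖Xf β r h t (4)‖ ≤ 0.0004238 * Y := by
  refine cU8 0 (3) 2.6152 3.1809 0.02 0.7284 0.02 1.7709 0.9253 0.036 0.9016 0.9796 3.1623 0.00006823 0.0004238 B (by norm_num) hs
    (fullz8 B.P B.hk2 (x1 := 3.75) (by push_cast; linarith) (by norm_num) (by norm_num)) (mhi8 B.P (x2 := 4.05) (by push_cast; linarith) (by norm_num) (by norm_num)) hY (g0_nn (by norm_num)) (g0_le (by norm_num) h1 h2 (by norm_num) (by norm_num))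
    (by norm_num) (by norm_num) (by norm_num) (by norm_num) (by norm_num) (by norm_num) (by norm_num) (by norm_num) (by norm_num) (by norm_num) (by norm_num) (by norm_num) (by norm_num) (by norm_num) (by norm_num) (by norm_num) (by norm_num) (by norm_num) (by norm_num)
    (expn 9 0.596 (by norm_num) (by norm_num) (by norm_num) (by norm_num)) (by norm_num) (by norm_num)

theorem b8_1_Dm1 {β r h κ T t s u Y : ℝ} (B : By 0.3 0.33 0.2976 0.2752 10 0.033 5.5627 β r h κ T) (hs : t + κ = s * h)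
    (h1 : 0.75 ≤ u) (h2 : u ≤ 1.05) (h3 : u ≤ s) (h4 : s ≤ u + 0)
    (hY : eN r κ * (0.9253 * Real.exp (-(T * (0.5756 * (1 - u) ^ 2)))) ≤ Y) :
    ‖Xf β r h t (-1)‖ ≤ 0.20455 * Y := by
  refine leE (cL8 (-2) 0.92 0.5402 0.7461 0.9818 _ _ _ _ _ 0.0581 2.56 0.7284 0.4349 1.1922 0.9253 0.486 0.06738 0.1865 0.036 0.9016 0.9796 3.1623 0.004315 0.01805 B (by norm_num) hs
    (mloN8 B.P (x1 := 0.95) (by linarith) (by norm_num) (by norm_num)) (mhiN8 B.P (x2 := 1.25) (by linarith) (by norm_num) (by norm_num)) hY (g0_nn (by norm_num))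
    (g0_le (by norm_num) h1 h2 (by norm_num) (by norm_num)) (ch0 (a := (-2)) (by norm_num) (sqL h2 h4 (by norm_num) (by norm_num)) (by norm_num) h1 h2 (by norm_num) (by norm_num))
    (by norm_num) (by norm_num) (by norm_num) (by norm_num) rfl rfl (by norm_num) rfl rfl rfl (by norm_num) (by norm_num) (by norm_num) (by norm_num) (by norm_num) (by norm_num) (by norm_num) (by norm_num) (by norm_num) (by norm_num) (by norm_num) (by norm_num) (by norm_num) (by norm_num) (by norm_num) (by norm_num) (by norm_num) (by norm_num)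
    (expn 2 0.7034 (by norm_num) (by norm_num) (by norm_num) (by norm_num)) (by norm_num) (by norm_num) (by norm_num) (by norm_num) (by norm_num) (by norm_num) (by norm_num) (by norm_num) (expn 5 0.447 (by norm_num) (by norm_num) (by norm_num) (by norm_num)) (by norm_num) (by norm_num)) (by norm_num) hY (by norm_num)

theorem b8_1_Dm2 {β r h κ T t s u Y : ℝ} (B : By 0.3 0.33 0.2976 0.2752 10 0.033 5.5627 β r h κ T) (hs : t + κ = s * h)
    (h1 : 0.75 ≤ u) (h2 : u ≤ 1.05) (h3 : u ≤ s) (h4 : s ≤ u + 0)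
    (hY : eN r κ * (0.9253 * Real.exp (-(T * (0.5756 * (1 - u) ^ 2)))) ≤ Y) :
    ‖Xf β r h t (-2)‖ ≤ 0.00034268 * Y := by
  refine leE (cL8 (-3) 0.74 0.5078 1.5315 1.7672 _ _ _ _ _ 0.0121 3.7895 0.7284 0 1.282 0.9253 1.9294 0.00002197 0.00008998 0.036 0.9016 0.9796 3.1623 0.00005618 0.0002527 B (by norm_num) hs
    (mloN8 B.P (x1 := 1.95) (by linarith) (by norm_num) (by norm_num)) (mhiN8 B.P (x2 := 2.25) (by linarith) (by norm_num) (by norm_num)) hY (g0_nn (by norm_num))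
    (g0_le (by norm_num) h1 h2 (by norm_num) (by norm_num)) (ch0 (a := (-3)) (by norm_num) (sqL h2 h4 (by norm_num) (by norm_num)) (by norm_num) h1 h2 (by norm_num) (by norm_num))
    (by norm_num) (by norm_num) (by norm_num) (by norm_num) rfl rfl (by norm_num) rfl rfl rfl (by norm_num) (by norm_num) (by norm_num) (by norm_num) (by norm_num) (by norm_num) (by norm_num) (by norm_num) (by norm_num) (by norm_num) (by norm_num) (by norm_num) (by norm_num) (by norm_num) (by norm_num) (by norm_num) (by norm_num) (by norm_num)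
    (expn 10 0.7326 (by norm_num) (by norm_num) (by norm_num) (by norm_num)) (by norm_num) (by norm_num) (by norm_num) (by norm_num) (by norm_num) (by norm_num) (by norm_num) (by norm_num) (expn 9 0.796 (by norm_num) (by norm_num) (by norm_num) (by norm_num)) (by norm_num) (by norm_num)) (by norm_num) hY (by norm_num)

theorem b8_1_Dm3 {β r h κ T t s u Y : ℝ} (B : By 0.3 0.33 0.2976 0.2752 10 0.033 5.5627 β r h κ T) (hs : t + κ = s * h)
    (h1 : 0.75 ≤ u) (h2 : u ≤ 1.05) (h3 : u ≤ s) (h4 : s ≤ u + 0)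
    (hY : eN r κ * (0.9253 * Real.exp (-(T * (0.5756 * (1 - u) ^ 2)))) ≤ Y) :
    ‖Xf β r h t (-3)‖ ≤ 0.0004216 * Y := by
  refine cU8 1 (-4) 3.4006 3.9663 0.02 0.7284 0.02 1.7613 0.9253 0.036 0.9016 0.9796 3.1623 0.00006823 0.0004216 B (by norm_num) hs
    (full8 B.P B.hk2 (x1 := 4.75) (by push_cast; linarith) (by norm_num) (by norm_num)) (mhi8 B.P (x2 := 5.05) (by push_cast; linarith) (by norm_num) (by norm_num)) hY (g0_nn (by norm_num)) (g0_le (by norm_num) h1 h2 (by norm_num) (by norm_num))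
    (by norm_num) (by norm_num) (by norm_num) (by norm_num) (by norm_num) (by norm_num) (by norm_num) (by norm_num) (by norm_num) (by norm_num) (by norm_num) (by norm_num) (by norm_num) (by norm_num) (by norm_num) (by norm_num) (by norm_num) (by norm_num) (by norm_num)
    (expn 9 0.596 (by norm_num) (by norm_num) (by norm_num) (by norm_num)) (by norm_num) (by norm_num)

private theorem b8_1_yS1 {κ t : ℝ} (h : DomR κ t) (hk1 : 0.3 ≤ κ) (hk2 : κ ≤ 0.33) (ht1 : 0.3377 ≤ t + κ) (ht2 : t + κ ≤ 0.4634) :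
    0.082 ≤ sy κ t ∧ sy κ t ≤ 0.116 := by
  have hy1 : 0.082 ≤ sy κ t := syR_ge h 0.3 0.33 0.3377 0.082 1.08545 1.08546 0.26971 0.2967 hk1 hk2 (by linarith) (by norm_num) (by norm_num)
    (expn_ge (by norm_num) (by norm_num)) (expn_le (by norm_num) (by norm_num) (by norm_num)) (by norm_num)
    (by norm_num) (by norm_num) (by norm_num) (by norm_num) (by norm_num) (by norm_num)
  have hy2 : sy κ t ≤ 0.116 := syR_le h 0.3 0.33 0.4634 0.116 1.12299 0.3848 0.39474 0.43423 hk1 hk2 (by linarith) (by norm_num) (by norm_num)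
    (expn_ge (by norm_num) (by norm_num)) (by norm_num) (by norm_num) (Or.inr ((mul_le_mul_of_nonneg_left (expn_le (E := 1.123) (by norm_num) (by norm_num) (by norm_num)) (by norm_num)).trans (by norm_num))) (by norm_num) (by norm_num) (by norm_num)
  exact ⟨by linarith, by linarith⟩

private theorem b8_1_yS0 {κ t : ℝ} (h : DomR κ t) (hk1 : 0.3 ≤ κ) (hk2 : κ ≤ 0.33) (ht1 : (-0.4477) ≤ t + κ) (ht2 : t + κ ≤ (-0.322)) :
    (-0.161) ≤ sy κ t ∧ sy κ t ≤ (-0.099) := by
  have hy1 : -0.161 ≤ sy κ t := syL_ge h 0.3 0.33 0.4477 0.161 0.85129 0.8513 0.4049 0.41532 0.45687 hk1 hk2 (by linarith) (by norm_num) (by norm_num) (by norm_num)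
    (expm_ge (by norm_num) (by norm_num) (by norm_num) (by norm_num)) (expm_le (by norm_num) (by norm_num) (by norm_num)) (by norm_num)
    (by norm_num) (by norm_num) (by norm_num) (by norm_num) (by norm_num) (by norm_num)
  have hy2 : sy κ t ≤ -0.099 := syL_le h 0.3 0.33 0.322 0.099 0.90574 0.90575 0.27172 0.2989 hk1 hk2 (by linarith) (by norm_num) (by norm_num) (by norm_num)
    (expm_ge (by norm_num) (by norm_num) (by norm_num) (by norm_num)) (expm_le (by norm_num) (by norm_num) (by norm_num)) (by norm_num)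
    (by norm_num) (by norm_num) (by norm_num) (by norm_num) (by norm_num) (by norm_num)
  exact ⟨by linarith, by linarith⟩

theorem b8_1_S {β r h κ T t s : ℝ} (B : By 0.3 0.33 0.2976 0.2752 10 0.033 5.5627 β r h κ T) (hs : t + κ = s * h)
    (h1 : 0.43 ≤ s) (h2 : s ≤ 0.59) :
    ‖Ld β r h t 0‖ ≤ r * 1.17469 + 0.7113 ∧ ‖Ld β r h t 1‖ ≤ r * 0.92128 + 0.2649 ∧
      T * 1.0972 - (0.1428 + 0.4734 + 0 + 0.2742) ≤ (Ld β r h t 1 - Ld β r h t 0).im := by
  have a1 : 0.3377 ≤ t + κ := by rw [hs]; exact mlo8 B.P h1 (by norm_num) (by norm_num)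
  have a2 : t + κ ≤ 0.4634 := by rw [hs]; exact mhi8 B.P h2 (by norm_num) (by norm_num)
  have hτ : t - h + κ = (s + (-1)) * h := by linear_combination hs
  have b1 : (-0.4477) ≤ t - h + κ := by rw [hτ]; have := mhiN8 B.P (x := s + (-1)) (x2 := 0.57) (τ2 := 0.4477) (by linarith) (by norm_num) (by norm_num); linarith
  have b2 : t - h + κ ≤ (-0.322) := by rw [hτ]; have := mloN8 B.P (x := s + (-1)) (x1 := 0.41) (τ1 := 0.322) (by linarith) (by norm_num) (by norm_num); linarith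
  have hk := B.hk1
  have hk2 := B.hk2
  have hk' := B.P.hκ1
  have hD1 : DomR κ t := dom7 B.P.κ0 (by linarith) (by linarith)
  have hD0 : DomR κ (t - h) := dom7 B.P.κ0 (by linarith) (by linarith)
  have hy1 := b8_1_yS1 hD1 B.hk1 B.hk2 a1 a2
  have hy0 := b8_1_yS0 hD0 B.hk1 B.hk2 b1 b2
  have hd1 := Dlo7 hD1 (0.3 ^ 2) (0.33 ^ 2) 1.133 0.082 0.116 0.082 0.84874 hy1.1 hy1.2 (pow_le_pow_left₀ (by norm_num) B.hk1 2) (pow_le_pow_left₀ B.P.κ0.le B.hk2 2)
      (by rw [show (-2 * 0.082 : ℝ) = -0.164 by norm_num]; exact expm_ge (by norm_num) (by norm_num) (by norm_num) (by norm_num)) (by norm_num) (by norm_num) (by norm_num) (by norm_num) (by norm_num)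
  have hd0 := Dlo7 hD0 (0.3 ^ 2) (0.33 ^ 2) 0.7359 (-0.161) (-0.099) (-0.161) 1.37988 hy0.1 hy0.2 (pow_le_pow_left₀ (by norm_num) B.hk1 2) (pow_le_pow_left₀ B.P.κ0.le B.hk2 2)
      (by rw [show (-2 * (-0.161) : ℝ) = 0.322 by norm_num]; exact expn_ge (by norm_num) (by norm_num)) (by norm_num) (by norm_num) (by norm_num) (by norm_num) (by norm_num)
  have hJ1 := JB8_S1 hD1 B.P.hβ (by linarith) (by linarith) (by linarith) (by linarith) B.P.βκ B.P.βR
  have hJ0 := JB8_S0 hD0 B.P.hβ (by linarith) (by linarith) (by linarith) (by linarith) B.P.βκ B.P.βR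
  obtain ⟨m1, n1⟩ := copy8 (t := t) (t' := t) (k := 1) 0.3 0.33 1.133 0.082 0.92128 0.8488 0.2713 0.8999 0.05 0.1 0.1428 0.2649 B.P (by push_cast; ring) hD1 B.hk1 B.hk2 (by norm_num) (by norm_num) (by norm_num) (by norm_num) hJ1
    hy1.1 (by norm_num) hd1 (by norm_num) (expm_le (by norm_num) (by norm_num) (by norm_num)) (by norm_num) (by norm_num) (by norm_num) (by norm_num) (by norm_num) (by norm_num) (by norm_num) (by norm_num)
  obtain ⟨m0, n0⟩ := copy8 (t := t) (t' := t - h) (k := 0) 0.3 0.33 0.7359 (-0.161) 1.17469 1.3799 0.426 1.1166 0.1 0.1 0.4734 0.7113 B.P (by push_cast; ring) hD0 B.hk1 B.hk2 (by norm_num) (by norm_num) (by norm_num) (by norm_num) hJ0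
    hy0.1 (by norm_num) hd0 (by norm_num) (by rw [neg_neg]; exact expn_le (by norm_num) (by norm_num) (by norm_num)) (by norm_num) (by norm_num) (by norm_num) (by norm_num) (by norm_num) (by norm_num) (by norm_num) (by norm_num)
  refine ⟨m0, m1, ?_⟩
  have q1 := corr1_ge hD1 0.3 0.33 1.133 0 B.hk1 B.hk2 (by norm_num) (by linarith) hd1 (by norm_num) (by norm_num) (Or.inl (by norm_num))
  have q0 := corr0_le hD0 0.3 0.33 0.7359 1.17469 0.2742 B.hk1 B.hk2 (by norm_num) (by linarith) hd0 (by norm_num) (by norm_num)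
    ((Real.exp_le_exp.2 (by linarith)).trans (show Real.exp (-(-0.161)) ≤ 1.17469 from (by rw [neg_neg]; exact expn_le (by norm_num) (by norm_num) (by norm_num)))) (Or.inr (by norm_num))
  exact slope8 0.797 0.955 1.0972 0.43 0.59 0.1428 0.4734 0 0.2742 B.P hs h1 h2 (pR_050 hD1 (by linarith) (by linarith) (by linarith)) (pL_050 hD0 (by linarith) (by linarith) (by linarith)) n1 n0 q1 q0
    (by norm_num) (by norm_num) (by norm_num)

theorem boxb8_1 {p : ℤ} (hp : IsCoprime (8 : ℤ) p) {β r h κ T : ℝ} (P : Q8 β r h κ T) (hk1 : 0.3 ≤ κ) (hk2 : κ ≤ 0.33) :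
    Circ (2 * Real.pi * p / (8 : ℕ) + β) r := by
  have B : By 0.3 0.33 0.2976 0.2752 10 0.033 5.5627 β r h κ T :=
    { P := P, hk1 := hk1, hk2 := hk2, hψ := (psi_lo P.κ0.le hk2 (by norm_num)).trans (by norm_num), hψ1 := le_trans (by norm_num) (psi1_lo (k1 := 0.3) (by norm_num) hk1 (by linarith)), hR0 := P.hr.trans' (by norm_num), hβ0 := by have := P.βκ; linarith, hT0 := P.T8 hk2 (by norm_num) (by norm_num) }
  have hT := B.hT0
  have hr := P.r_le (ν := 1.7977) hk2 (by norm_num)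
  have hbh : β ≤ 0.0421 * h := by
    have h1 := B.hβ0
    have h2 := mul_le_mul_of_nonneg_left P.hlo (by norm_num : (0 : ℝ) ≤ 0.0421)
    linarith
  refine fin8 hp P (slo := 0.43) (shi := 0.59) (bb := 0.0421) (ℓ1 := 0.9275) (ℓ0 := 0.9253) (C0 := 0.5756) (e2 := 0.02884) (e3 := 0.001481) (e4 := 0.0009338) (f1 := 0.013296) (g1 := 0.020076) (f2 := 0.000593296) (f3 := 0.0009965)
    (a := 1.05) (m := T * 1.0972 - (0.8904)) (η := 0.0462) (Λ0 := r * 1.17469 + 0.7113) (Λ1 := r * 0.92128 + 0.2649) (S1 := 0.1079)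
    (by norm_num) (by norm_num) (by linarith) (by norm_num) (by norm_num) hbh (by norm_num)
    ?_ ?_ ?_ ?_ ?_ ?_ ?_ ?_ ?_ ?_ ?_ ?_ ?_ ?_ (by norm_num) (by norm_num) (by norm_num) ?_
  · intro t s hs h1 h2
    exact b8_1_L1 B hs (by linarith) h2
  · intro t s hs h1 h2
    exact b8_1_L0 B hs h1 (by linarith)
  · intro t s u Y hs h1 h2 h3 h4 hY
    have hY' : eN r κ * (0.9275 * Real.exp (-(T * (1 / 2 * u ^ 2)))) ≤ Y := hY
    rcases le_total u 0.5 with hc | hc
    · exact leE (b8_1_W2a B hs h1 hc h3 h4 hY') (by norm_num) hY' (by norm_num)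
    · exact leE (b8_1_W2b B hs hc h2 h3 h4 hY') (by norm_num) hY' (by norm_num)
  · intro t s u Y hs h1 h2 h3 h4 hY
    exact b8_1_W3 B hs h1 h2 h3 h4 hY
  · intro t s u Y hs h1 h2 h3 h4 hY
    exact b8_1_W4 B hs h1 h2 h3 h4 hY
  · intro t s u Y hs h1 h2 h3 h4 hY
    exact b8_1_Wm1 B hs h1 h2 h3 h4 hY
  · intro t s u Y hs h1 h2 h3 h4 hY
    exact b8_1_Wm1p B hs h1 h2 h3 h4 hY
  · intro t s u Y hs h1 h2 h3 h4 hY
    exact b8_1_Wm2 B hs h1 h2 h3 h4 hY
  · intro t s u Y hs h1 h2 h3 h4 hY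
    exact b8_1_Wm3 B hs h1 h2 h3 h4 hY
  · intro t s hs h1 h2
    have hY := b8_1_L1 B hs (by linarith) (by linarith)
    have hYp := lt_of_lt_of_le (mul_pos (eN_pos r κ) (mul_pos (by norm_num : (0 : ℝ) < 0.9275) (Real.exp_pos _))) hY
    rcases le_total s 0.37 with hc | hc
    · have x0 := b8_1_Ao B hs h1 hc le_rfl (by linarith) hY
      have x2 := b8_1_A2 B hs h1 hc le_rfl (by linarith) hY
      have x3 := b8_1_A3 B hs h1 hc le_rfl (by linarith) hY
      have x4 := b8_1_A4 B hs h1 hc le_rfl (by linarith) hY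
      have xm1 := b8_1_Am1 B hs h1 hc le_rfl (by linarith) hY
      have xm2 := b8_1_Am2 B hs h1 hc le_rfl (by linarith) hY
      have xm3 := b8_1_Am3 B hs h1 hc le_rfl (by linarith) hY
      linarith
    · have x0 := b8_1_Bo B hs hc h2 le_rfl (by linarith) hY
      have x2 := b8_1_B2 B hs hc h2 le_rfl (by linarith) hY
      have x3 := b8_1_B3 B hs hc h2 le_rfl (by linarith) hY
      have x4 := b8_1_B4 B hs hc h2 le_rfl (by linarith) hY
      have xm1 := b8_1_Bm1 B hs hc h2 le_rfl (by linarith) hY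
      have xm2 := b8_1_Bm2 B hs hc h2 le_rfl (by linarith) hY
      have xm3 := b8_1_Bm3 B hs hc h2 le_rfl (by linarith) hY
      linarith
  · intro t s hs h1 h2
    have hY := b8_1_L0 B hs (by linarith) (by linarith)
    have hYp := lt_of_lt_of_le (mul_pos (eN_pos r κ) (mul_pos (by norm_num : (0 : ℝ) < 0.9253) (Real.exp_pos _))) hY
    rcases le_total s 0.75 with hc | hc
    · have x0 := b8_1_Co B hs h1 hc le_rfl (by linarith) hY
      have x2 := b8_1_C2 B hs h1 hc le_rfl (by linarith) hY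
      have x3 := b8_1_C3 B hs h1 hc le_rfl (by linarith) hY
      have x4 := b8_1_C4 B hs h1 hc le_rfl (by linarith) hY
      have xm1 := b8_1_Cm1 B hs h1 hc le_rfl (by linarith) hY
      have xm2 := b8_1_Cm2 B hs h1 hc le_rfl (by linarith) hY
      have xm3 := b8_1_Cm3 B hs h1 hc le_rfl (by linarith) hY
      linarith
    · have x0 := b8_1_Do B hs hc h2 le_rfl (by linarith) hY
      have x2 := b8_1_D2 B hs hc h2 le_rfl (by linarith) hY
      have x3 := b8_1_D3 B hs hc h2 le_rfl (by linarith) hY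
      have x4 := b8_1_D4 B hs hc h2 le_rfl (by linarith) hY
      have xm1 := b8_1_Dm1 B hs hc h2 le_rfl (by linarith) hY
      have xm2 := b8_1_Dm2 B hs hc h2 le_rfl (by linarith) hY
      have xm3 := b8_1_Dm3 B hs hc h2 le_rfl (by linarith) hY
      linarith
  · intro t s hs h1 h2
    exact (b8_1_S B hs h1 h2).1
  · intro t s hs h1 h2
    exact (b8_1_S B hs h1 h2).2.1
  · intro t s hs h1 h2
    have := (b8_1_S B hs h1 h2).2.2
    linarith
  · linarith

end Sok
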