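import Pool.Agent.Lib.MP_816dec_an.R1b8D
import Pool.Agent.Lib.MP_816dec_an.JB8a
import Pool.Agent.Lib.MP_816dec_an.JB8b
import Pool.Agent.Lib.MP_816dec_an.JB8c
import Pool.Agent.Lib.MP_816dec_an.JB8w

/-!
MP_816dec_an (A3, row R1), b = 8: box 11
-/

set_option autoImplicit false
set_option maxHeartbeats 4000000

open Complex Set Filter Topology Metric

namespace Sok

private theorem b8_11_yL1 {κ t : ℝ} (h : DomR κ t) (hk1 : 1.13 ≤ κ) (hk2 : κ ≤ 1.26) (ht1 : 0 ≤ t + κ) (ht2 : t + κ ≤ 0.4634) :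
    0 ≤ sy κ t ∧ sy κ t ≤ 0.209 := by
  have hy1 : 0 ≤ sy κ t := sy_nonneg h (by linarith)
  have hy2 : sy κ t ≤ 0.209 := syR_le h 1.13 1.26 0.4634 0.209 1.23244 0.2024 0.20442 0.22795 hk1 hk2 (by linarith) (by norm_num) (by norm_num)
    (expn_ge (by norm_num) (by norm_num)) (by norm_num) (by norm_num) (Or.inr ((mul_le_mul_of_nonneg_left (expn_le (E := 1.23245) (by norm_num) (by norm_num) (by norm_num)) (by norm_num)).trans (by norm_num))) (by norm_num) (by norm_num) (by norm_num)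
  exact ⟨by linarith, by linarith⟩

theorem b8_11_L1 {β r h κ T t s : ℝ} (B : By 1.13 1.26 0.4963 0.4869 20.0845 0.0567 5.441 β r h κ T) (hs : t + κ = s * h)
    (h1 : 0.05 ≤ s) (h2 : s ≤ 0.59) :
    eN r κ * (0.9699 * Real.exp (-(T * (1 / 2 * s ^ 2)))) ≤ ‖Xf β r h t 1‖ := by
  have a1 : 0.0392 ≤ t + κ := by rw [hs]; exact mlo8 B.P h1 (by norm_num) (by norm_num)
  have a2 : t + κ ≤ 0.4634 := by rw [hs]; exact mhi8 B.P h2 (by norm_num) (by norm_num)
  have hk := B.hk1
  have hD : DomR κ t := dom7 B.P.κ0 (by linarith) (by linarith)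
  have hy := b8_11_yL1 hD B.hk1 B.hk2 (by linarith) a2
  have hJ := JB8_k1 hD B.P.hβ (by linarith) B.P.hκ1 (by linarith) (by linarith) B.P.βκ B.P.βR
  have hd := Dup7 hD (1.13 ^ 2) (1.26 ^ 2) 1 0 0.209 1 0.65837 hy.1 hy.2 (pow_le_pow_left₀ (by norm_num) B.hk1 2) (pow_le_pow_left₀ B.P.κ0.le B.hk2 2)
      (by norm_num)
      (by rw [show (-2 * 0.209 : ℝ) = -0.418 by norm_num]; exact expm_le (by norm_num) (by norm_num) (by norm_num)) (by norm_num) (by norm_num) (by norm_num) (by norm_num)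
  have := loR8 (k := 1) 0 0.03 1 0.9699 B.P (by norm_num) (by ring : t = t + 0 * h) hs (by linarith) hD (by norm_num) hJ hd (by norm_num) (by norm_num)
  rw [add_zero] at this
  exact this

private theorem b8_11_yL0 {κ t : ℝ} (h : DomR κ t) (hk1 : 1.13 ≤ κ) (hk2 : κ ≤ 1.26) (ht1 : (-0.4477) ≤ t + κ) (ht2 : t + κ ≤ 0) :
    (-0.237) ≤ sy κ t ∧ sy κ t ≤ 0 := by
  have hy1 : -0.237 ≤ sy κ t := syL_ge h 1.13 1.26 0.4477 0.237 0.78899 0.789 0.154 0.1484 0.16549 hk1 hk2 (by linarith) (by norm_num) (by norm_num) (by norm_num)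
    (expm_ge (by norm_num) (by norm_num) (by norm_num) (by norm_num)) (expm_le (by norm_num) (by norm_num) (by norm_num)) (by norm_num)
    (by norm_num) (by norm_num) (by norm_num) (by norm_num) (by norm_num) (by norm_num)
  have hy2 : sy κ t ≤ 0 := sy_nonpos h (by linarith)
  exact ⟨by linarith, by linarith⟩

private theorem b8_11_yL00 {κ t : ℝ} (h : DomR κ t) (hk1 : 1.13 ≤ κ) (hk2 : κ ≤ 1.26) (ht1 : 0 ≤ t + κ) (ht2 : t + κ ≤ 0.04) :
    0 ≤ sy κ t ∧ sy κ t ≤ 0.02 := by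
  have hy1 : 0 ≤ sy κ t := sy_nonneg h (by linarith)
  have hy2 : sy κ t ≤ 0.02 := syR_le h 1.13 1.26 0.04 0.02 1.0202 0.0157 0.01619 0.01806 hk1 hk2 (by linarith) (by norm_num) (by norm_num)
    (expn_ge (by norm_num) (by norm_num)) (by norm_num) (by norm_num) (Or.inr ((mul_le_mul_of_nonneg_left (expn_le (E := 1.02021) (by norm_num) (by norm_num) (by norm_num)) (by norm_num)).trans (by norm_num))) (by norm_num) (by norm_num) (by norm_num)
  exact ⟨by linarith, by linarith⟩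

theorem b8_11_L0 {β r h κ T t s : ℝ} (B : By 1.13 1.26 0.4963 0.4869 20.0845 0.0567 5.441 β r h κ T) (hs : t + κ = s * h)
    (h1 : 0.43 ≤ s) (h2 : s ≤ 1.05) :
    eN r κ * (0.8906 * Real.exp (-(T * (0.5325 * (1 - s) ^ 2)))) ≤ ‖Xf β r h t 0‖ := by
  obtain ⟨t', ht'⟩ : ∃ t', t' = t + (-1) * h := ⟨_, rfl⟩
  have hτ : t' + κ = (s + (-1)) * h := by rw [ht']; linear_combination hs
  have e : 0.5325 * (1 - s) ^ 2 = 0.5325 * (s + (-1)) ^ 2 := by ring
  rw [e]
  have b1 : -((s + (-1)) * h) ≤ 0.4477 := mhiN8 B.P (x2 := 0.57) (by linarith) (by norm_num) (by norm_num)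
  have b2 : (s + (-1)) * h ≤ 0.04 := mhi8 B.P (x2 := 0.05) (by linarith) (by norm_num) (by norm_num)
  have hk := B.hk1
  have hk' := B.P.hκ1
  rw [← hτ] at b1 b2
  have hD : DomR κ t' := dom7 B.P.κ0 (by linarith) (by linarith)
  have hJ := JB8_k0 hD B.P.hβ (by linarith) B.P.hκ1 (by linarith) (by linarith) B.P.βκ B.P.βR
  rcases le_total s 1 with hc | hc
  · have b3 : t' + κ ≤ 0 := by rw [hτ]; exact mul_nonpos_of_nonpos_of_nonneg (by linarith) B.P.h0.le
    have hy := b8_11_yL0 hD B.hk1 B.hk2 (by linarith) b3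
    have hd := Dup7 hD (1.13 ^ 2) (1.26 ^ 2) 1.1889 (-0.237) 0 1.60641 1 hy.1 hy.2 (pow_le_pow_left₀ (by norm_num) B.hk1 2) (pow_le_pow_left₀ B.P.κ0.le B.hk2 2)
      (by rw [show (-2 * (-0.237) : ℝ) = 0.474 by norm_num]; exact expn_le (by norm_num) (by norm_num) (by norm_num))
      (by norm_num) (by norm_num) (by norm_num) (by norm_num) (by norm_num)
    exact loLB8 (k := 0) (-1) 0.07 1.1889 0.8906 0.5325 0.4477 0.1262 0.6136 0.0848 B (by norm_num) ht' hs (by linarith) (by rw [← hτ]; exact b1) hD (by norm_num) hJ hd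
      (by norm_num) (by norm_num) (by norm_num) (by norm_num) (by norm_num) (by norm_num) (by norm_num) (by norm_num) (by norm_num) (by norm_num) (by norm_num) (by norm_num) (by norm_num)
  · have b3 : 0 ≤ t' + κ := by rw [hτ]; exact mul_nonneg (by linarith) B.P.h0.le
    have hy := b8_11_yL00 hD B.hk1 B.hk2 b3 b2
    have hd := Dup7 hD (1.13 ^ 2) (1.26 ^ 2) 1.1889 0 0.02 1 0.96079 hy.1 hy.2 (pow_le_pow_left₀ (by norm_num) B.hk1 2) (pow_le_pow_left₀ B.P.κ0.le B.hk2 2)
      (by norm_num)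
      (by rw [show (-2 * 0.02 : ℝ) = -0.04 by norm_num]; exact expm_le (by norm_num) (by norm_num) (by norm_num)) (by norm_num) (by norm_num) (by norm_num) (by norm_num)
    have := loR8 (k := 0) (-1) 0.07 1.1889 0.8906 B.P (by norm_num) ht' hs (by linarith) hD (by norm_num) hJ hd (by norm_num) (by norm_num)
    exact le_trans (weak7 (by have := B.P.T5; linarith) (by norm_num) (by norm_num)) this

private theorem b8_11_W2a_y {κ t : ℝ} (h : DomR κ t) (hk1 : 1.13 ≤ κ) (hk2 : κ ≤ 1.26) (ht1 : 1.1231 ≤ t + κ) (ht2 : t + κ ≤ 1.2349) :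
    0.418 ≤ sy κ t ∧ sy κ t ≤ 0.465 := by
  have hy1 : 0.418 ≤ sy κ t := syR_ge h 1.13 1.26 1.1231 0.418 1.51892 1.51893 0.50389 0.56187 hk1 hk2 (by linarith) (by norm_num) (by norm_num)
    (expn_ge (by norm_num) (by norm_num)) (expn_le (by norm_num) (by norm_num) (by norm_num)) (by norm_num)
    (by norm_num) (by norm_num) (by norm_num) (by norm_num) (by norm_num) (by norm_num)
  have hy2 : sy κ t ≤ 0.465 := syR_le h 1.13 1.26 1.2349 0.465 1.59201 0.5706 0.58752 0.65513 hk1 hk2 (by linarith) (by norm_num) (by norm_num)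
    (expn_ge (by norm_num) (by norm_num)) (by norm_num) (by norm_num) (Or.inr ((mul_le_mul_of_nonneg_left (expn_le (E := 1.59202) (by norm_num) (by norm_num) (by norm_num)) (by norm_num)).trans (by norm_num))) (by norm_num) (by norm_num) (by norm_num)
  exact ⟨by linarith, by linarith⟩

theorem b8_11_W2a {β r h κ T t s u Y : ℝ} (B : By 1.13 1.26 0.4963 0.4869 20.0845 0.0567 5.441 β r h κ T) (hs : t + κ = s * h)
    (h1 : 0.43 ≤ u) (h2 : u ≤ 0.5) (h3 : u ≤ s) (h4 : s ≤ u + 0.0722)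
    (hY : eN r κ * (0.9699 * Real.exp (-(T * (1 / 2 * u ^ 2)))) ≤ Y) :
    ‖Xf β r h t 2‖ ≤ 0.01924 * Y := by
  obtain ⟨t', ht'⟩ : ∃ t', t' = t + 1 * h := ⟨_, rfl⟩
  have hτ : t' + κ = (s + 1) * h := by rw [ht']; linear_combination hs
  have a1 : 1.1231 ≤ t' + κ := by rw [hτ]; exact mlo8 B.P (x1 := 1.43) (by linarith) (by norm_num) (by norm_num)
  have a2 : t' + κ ≤ 1.2349 := by rw [hτ]; exact mhi8 B.P (x2 := 1.5722) (by linarith) (by norm_num) (by norm_num)
  have hk := B.hk1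
  have hk' := B.P.hκ1
  have hD : DomR κ t' := dom7 B.P.κ0 (by linarith) (by linarith)
  have hy := b8_11_W2a_y hD B.hk1 B.hk2 a1 a2
  have hJ : ‖HH β (sg κ t') - 1‖ ≤ 0.04 := JB8_k2 hD B.P.hβ (by linarith) B.P.hκ1 (by linarith) (by linarith) B.P.βκ B.P.βR
  have hd := Dlo7 hD (1.13 ^ 2) (1.26 ^ 2) 0.9754 0.418 0.465 0.418 0.43344 hy.1 hy.2 (pow_le_pow_left₀ (by norm_num) B.hk1 2) (pow_le_pow_left₀ B.P.κ0.le B.hk2 2)
      (by rw [show (-2 * 0.418 : ℝ) = -0.836 by norm_num]; exact expm_ge (by norm_num) (by norm_num) (by norm_num) (by norm_num)) (by norm_num) (by norm_num) (by norm_num) (by norm_num) (by norm_num)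
  have hc : sE κ t' ≤ 1 - 0.4072 * (t' + κ) ^ 2 / (1 + κ ^ 2) := VR8 0.72 0.4072 1.1231 1.2349 _ _ _ _ _ B hD a1 a2 (by norm_num) (by norm_num) (by norm_num) (by norm_num) rfl rfl (by norm_num) rfl rfl rfl (by norm_num) (by norm_num)
  exact up8 1 0.04 0.4072 0.9754 1.0465 0.9699 0.7402 0.01783 0.01924 B (by norm_num) ht' hs hD (by norm_num) hJ hc hd (by norm_num) (by norm_num) (by norm_num) hY (by norm_num)
    (ch1 (a := 1) (by norm_num) (sqR h1 h3 (by norm_num)) (by norm_num) h1 h2 (by norm_num) (by norm_num)) (by norm_num)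
    (expn 4 0.0274 (by norm_num) (by norm_num) (by norm_num) (by norm_num)) (by norm_num) (by norm_num)

private theorem b8_11_W2b_y {κ t : ℝ} (h : DomR κ t) (hk1 : 1.13 ≤ κ) (hk2 : κ ≤ 1.26) (ht1 : 1.178 ≤ t + κ) (ht2 : t + κ ≤ 1.3055) :
    0.432 ≤ sy κ t ∧ sy κ t ≤ 0.483 := by
  have hy1 : 0.432 ≤ sy κ t := syR_ge h 1.13 1.26 1.178 0.432 1.54033 1.54034 0.52811 0.58888 hk1 hk2 (by linarith) (by norm_num) (by norm_num)
    (expn_ge (by norm_num) (by norm_num)) (expn_le (by norm_num) (by norm_num) (by norm_num)) (by norm_num)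
    (by norm_num) (by norm_num) (by norm_num) (by norm_num) (by norm_num) (by norm_num)
  have hy2 : sy κ t ≤ 0.483 := syR_le h 1.13 1.26 1.3055 0.483 1.62092 0.6034 0.62135 0.69284 hk1 hk2 (by linarith) (by norm_num) (by norm_num)
    (expn_ge (by norm_num) (by norm_num)) (by norm_num) (by norm_num) (Or.inr ((mul_le_mul_of_nonneg_left (expn_le (E := 1.62093) (by norm_num) (by norm_num) (by norm_num)) (by norm_num)).trans (by norm_num))) (by norm_num) (by norm_num) (by norm_num)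
  exact ⟨by linarith, by linarith⟩

theorem b8_11_W2b {β r h κ T t s u Y : ℝ} (B : By 1.13 1.26 0.4963 0.4869 20.0845 0.0567 5.441 β r h κ T) (hs : t + κ = s * h)
    (h1 : 0.5 ≤ u) (h2 : u ≤ 0.59) (h3 : u ≤ s) (h4 : s ≤ u + 0.0722)
    (hY : eN r κ * (0.9699 * Real.exp (-(T * (1 / 2 * u ^ 2)))) ≤ Y) :
    ‖Xf β r h t 2‖ ≤ 0.01573 * Y := by
  obtain ⟨t', ht'⟩ : ∃ t', t' = t + 1 * h := ⟨_, rfl⟩
  have hτ : t' + κ = (s + 1) * h := by rw [ht']; linear_combination hs
  have a1 : 1.178 ≤ t' + κ := by rw [hτ]; exact mlo8 B.P (x1 := 1.5) (by linarith) (by norm_num) (by norm_num)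
  have a2 : t' + κ ≤ 1.3055 := by rw [hτ]; exact mhi8 B.P (x2 := 1.6622) (by linarith) (by norm_num) (by norm_num)
  have hk := B.hk1
  have hk' := B.P.hκ1
  have hD : DomR κ t' := dom7 B.P.κ0 (by linarith) (by linarith)
  have hy := b8_11_W2b_y hD B.hk1 B.hk2 a1 a2
  have hJ : ‖HH β (sg κ t') - 1‖ ≤ 0.05 := by
    rcases le_total (t' + κ) 1.245 with hc | hc
    · exact (JB8_k2 hD B.P.hβ (by linarith) B.P.hκ1 (by linarith) (by linarith) B.P.βκ B.P.βR).trans (by norm_num)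
    · exact JB8_k2w hD B.P.hβ (by linarith) B.P.hκ1 (by linarith) (by linarith) B.P.βκ B.P.βR
  have hd := Dlo7 hD (1.13 ^ 2) (1.26 ^ 2) 0.9789 0.432 0.483 0.432 0.42147 hy.1 hy.2 (pow_le_pow_left₀ (by norm_num) B.hk1 2) (pow_le_pow_left₀ B.P.κ0.le B.hk2 2)
      (by rw [show (-2 * 0.432 : ℝ) = -0.864 by norm_num]; exact expm_ge (by norm_num) (by norm_num) (by norm_num) (by norm_num)) (by norm_num) (by norm_num) (by norm_num) (by norm_num) (by norm_num)
  have hc : sE κ t' ≤ 1 - 0.4017 * (t' + κ) ^ 2 / (1 + κ ^ 2) := VR8 0.7 0.4017 1.178 1.3055 _ _ _ _ _ B hD a1 a2 (by norm_num) (by norm_num) (by norm_num) (by norm_num) rfl rfl (by norm_num) rfl rfl rfl (by norm_num) (by norm_num)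
  exact up8 1 0.05 0.4017 0.9789 1.0557 0.9699 0.7788 0.01445 0.01573 B (by norm_num) ht' hs hD (by norm_num) hJ hc hd (by norm_num) (by norm_num) (by norm_num) hY (by norm_num)
    (ch1 (a := 1) (by norm_num) (sqR h1 h3 (by norm_num)) (by norm_num) h1 h2 (by norm_num) (by norm_num)) (by norm_num)
    (expn 4 0.2374 (by norm_num) (by norm_num) (by norm_num) (by norm_num)) (by norm_num) (by norm_num)

theorem b8_11_W3R {β r h κ T t s u Y : ℝ} (B : By 1.13 1.26 0.4963 0.4869 20.0845 0.0567 5.441 β r h κ T) (hs : t + κ = s * h)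
    (h1 : 0.43 ≤ u) (h2 : u ≤ 0.59) (h3 : u ≤ s) (h4 : s ≤ u + 0.0722) (htp : t + 2 * h ≤ Real.pi / 2)
    (hY : eN r κ * (0.9699 * Real.exp (-(T * (1 / 2 * u ^ 2)))) ≤ Y) :
    ‖Xf β r h t 3‖ ≤ 0.00015422 * Y := by
  refine leE (cR8 2 0.46 0.329 1.9085 2.0909 _ _ _ _ _ 0.2634 2.1683 0.3753 0.3897 0.8249 0.9699 1.8502 0.00004247 0.00009495 0.1741 0.7647 0.9528 4.4816 0.00001226 0.00005927 B (by norm_num) hs htp
    (mlo8 B.P (x1 := 2.43) (by linarith) (by norm_num) (by norm_num)) (mhi8 B.P (x2 := 2.6622) (by linarith) (by norm_num) (by norm_num)) hY g1_nn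
    (g1_le (by linarith) h2 (by norm_num)) (ch1 (a := 2) (by norm_num) (sqR h1 h3 (by norm_num)) (by norm_num) h1 h2 (by norm_num) (by norm_num))
    (by norm_num) (by norm_num) (by norm_num) (by norm_num) rfl rfl (by norm_num) rfl rfl rfl (by norm_num) (by norm_num) (by norm_num) (by norm_num) (by norm_num) (by norm_num) (by norm_num) (by norm_num) (by norm_num) (by norm_num) (by norm_num) (by norm_num) (by norm_num) (by norm_num) (by norm_num) (by norm_num) (by norm_num) (by norm_num) (by norm_num)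
    (expn 10 0.0669 (by norm_num) (by norm_num) (by norm_num) (by norm_num)) (by norm_num) (by norm_num) (by norm_num) (by norm_num) (by norm_num) (by norm_num) (by norm_num) (by norm_num) (expn 11 0.3095 (by norm_num) (by norm_num) (by norm_num) (by norm_num)) (by norm_num) (by norm_num)) (by norm_num) hY (by norm_num)

theorem b8_11_W3 {β r h κ T t s u Y : ℝ} (B : By 1.13 1.26 0.4963 0.4869 20.0845 0.0567 5.441 β r h κ T) (hs : t + κ = s * h)
    (h1 : 0.43 ≤ u) (h2 : u ≤ 0.59) (h3 : u ≤ s) (h4 : s ≤ u + 0.0722)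
    (hY : eN r κ * (0.9699 * Real.exp (-(T * (1 / 2 * u ^ 2)))) ≤ Y) :
    ‖Xf β r h t 3‖ ≤ 0.00015422 * Y := by
  have hp : t + 2 * h ≤ Real.pi / 2 := by
    have e : t + 2 * h = (s + 2) * h - κ := by linear_combination hs
    have := mhi8 B.P (x := s + 2) (x2 := 2.6622) (by linarith) (by norm_num) (le_refl _)
    have := B.hk1
    have := Real.pi_gt_d6
    rw [e]
    norm_num at *
    linarith
  exact leE (b8_11_W3R B hs h1 h2 h3 h4 hp hY) (by norm_num) hY (by norm_num)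

theorem b8_11_W4 {β r h κ T t s u Y : ℝ} (B : By 1.13 1.26 0.4963 0.4869 20.0845 0.0567 5.441 β r h κ T) (hs : t + κ = s * h)
    (h1 : 0.43 ≤ u) (h2 : u ≤ 0.59) (h3 : u ≤ s) (h4 : s ≤ u + 0.0722)
    (hY : eN r κ * (0.9699 * Real.exp (-(T * (1 / 2 * u ^ 2)))) ≤ Y) :
    ‖Xf β r h t (4)‖ ≤ 0.000001476 * Y := by
  refine cU8 0 (3) 1.4339 2.8763 0.15 0.3753 0.15 2.5326 0.9699 0.1741 0.7647 0.9528 4.4816 0.00000009944 0.000001476 B (by norm_num) hs
    (fullz8 B.P B.hk2 (x1 := 3.43) (by push_cast; linarith) (by norm_num) (by norm_num)) (mhi8 B.P (x2 := 3.6622) (by push_cast; linarith) (by norm_num) (by norm_num)) hY g1_nn (g1_le (by linarith) h2 (by norm_num))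
    (by norm_num) (by norm_num) (by norm_num) (by norm_num) (by norm_num) (by norm_num) (by norm_num) (by norm_num) (by norm_num) (by norm_num) (by norm_num) (by norm_num) (by norm_num) (by norm_num) (by norm_num) (by norm_num) (by norm_num) (by norm_num) (by norm_num)
    (expn 16 0.1238 (by norm_num) (by norm_num) (by norm_num) (by norm_num)) (by norm_num) (by norm_num)

theorem b8_11_Wm1 {β r h κ T t s u Y : ℝ} (B : By 1.13 1.26 0.4963 0.4869 20.0845 0.0567 5.441 β r h κ T) (hs : t + κ = s * h)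
    (h1 : 0.43 ≤ u) (h2 : u ≤ 0.59) (h3 : u ≤ s) (h4 : s ≤ u + 0)
    (hY : eN r κ * (0.8906 * Real.exp (-(T * (0.5325 * (1 - u) ^ 2)))) ≤ Y) :
    ‖Xf β r h t (-1)‖ ≤ 0.0093311199 * Y := by
  refine leE (cL8 (-2) 1 0.5047 1.1074 1.2331 _ _ _ _ _ 3.0218 1.1782 0.3753 0 0.6987 0.8906 0.9138 0.007053 0.009331 0.1731 0.7021 0.9531 4.4816 0.00000002688 0.0000001199 B (by norm_num) hs
    (mloN8 B.P (x1 := 1.41) (by linarith) (by norm_num) (by norm_num)) (mhiN8 B.P (x2 := 1.57) (by linarith) (by norm_num) (by norm_num)) hY (g0_nn (by norm_num))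
    (g0_le (by norm_num) h1 h2 (by norm_num) (by norm_num)) (ch0 (a := (-2)) (by norm_num) (sqL h2 h4 (by norm_num) (by norm_num)) (by norm_num) h1 h2 (by norm_num) (by norm_num))
    (by norm_num) (by norm_num) (by norm_num) (by norm_num) rfl rfl (by norm_num) rfl rfl rfl (by norm_num) (by norm_num) (by norm_num) (by norm_num) (by norm_num) (by norm_num) (by norm_num) (by norm_num) (by norm_num) (by norm_num) (by norm_num) (by norm_num) (by norm_num) (by norm_num) (by norm_num) (by norm_num) (by norm_num) (by norm_num)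
    (expn 4 0.9719 (by norm_num) (by norm_num) (by norm_num) (by norm_num)) (by norm_num) (by norm_num) (by norm_num) (by norm_num) (by norm_num) (by norm_num) (by norm_num) (by norm_num) (expn 16 1.5 (by norm_num) (by norm_num) (by norm_num) (by norm_num)) (by norm_num) (by norm_num)) (by norm_num) hY (by norm_num)

theorem b8_11_Wm1p {β r h κ T t s u Y : ℝ} (B : By 1.13 1.26 0.4963 0.4869 20.0845 0.0567 5.441 β r h κ T) (hs : t + κ = s * h)
    (h1 : 0.43 ≤ u) (h2 : u ≤ 0.59) (h3 : u ≤ s) (h4 : s ≤ u + 0.0722)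
    (hY : eN r κ * (0.8906 * Real.exp (-(T * (0.5325 * (1 - u) ^ 2)))) ≤ Y) :
    ‖Xf β r h t (-1)‖ ≤ 0.0165301191 * Y := by
  refine leE (cL8 (-2) 0.98 0.5018 1.0507 1.2331 _ _ _ _ _ 2.8394 1.1967 0.3753 0 0.6941 0.8906 0.8085 0.0123 0.01653 0.1731 0.7021 0.9531 4.4816 0.00000002688 0.0000001191 B (by norm_num) hs
    (mloN8 B.P (x1 := 1.3378) (by linarith) (by norm_num) (by norm_num)) (mhiN8 B.P (x2 := 1.57) (by linarith) (by norm_num) (by norm_num)) hY (g0_nn (by norm_num))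
    (g0_le (by norm_num) h1 h2 (by norm_num) (by norm_num)) (ch0 (a := (-1.9278)) (by norm_num) (sqL h2 h4 (by norm_num) (by norm_num)) (by norm_num) h1 h2 (by norm_num) (by norm_num))
    (by norm_num) (by norm_num) (by norm_num) (by norm_num) rfl rfl (by norm_num) rfl rfl rfl (by norm_num) (by norm_num) (by norm_num) (by norm_num) (by norm_num) (by norm_num) (by norm_num) (by norm_num) (by norm_num) (by norm_num) (by norm_num) (by norm_num) (by norm_num) (by norm_num) (by norm_num) (by norm_num) (by norm_num) (by norm_num)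
    (expn 4 0.399 (by norm_num) (by norm_num) (by norm_num) (by norm_num)) (by norm_num) (by norm_num) (by norm_num) (by norm_num) (by norm_num) (by norm_num) (by norm_num) (by norm_num) (expn 16 1.5 (by norm_num) (by norm_num) (by norm_num) (by norm_num)) (by norm_num) (by norm_num)) (by norm_num) hY (by norm_num)

theorem b8_11_Wm2 {β r h κ T t s u Y : ℝ} (B : By 1.13 1.26 0.4963 0.4869 20.0845 0.0567 5.441 β r h κ T) (hs : t + κ = s * h)
    (h1 : 0.43 ≤ u) (h2 : u ≤ 0.59) (h3 : u ≤ s) (h4 : s ≤ u + 0.0722)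
    (hY : eN r κ * (0.8906 * Real.exp (-(T * (0.5325 * (1 - u) ^ 2)))) ≤ Y) :
    ‖Xf β r h t (-2)‖ ≤ 0.0000012615 * Y := by
  refine leE (cL8 (-3) 0.9 0.4843 1.8361 2.0185 _ _ _ _ _ 4.172 1.0869 0.3753 0 0.8127 0.8906 2.5573 0.0000009191 0.000001122 0.1731 0.7021 0.9531 4.4816 0.00000002688 0.0000001395 B (by norm_num) hs
    (mloN8 B.P (x1 := 2.3378) (by linarith) (by norm_num) (by norm_num)) (mhiN8 B.P (x2 := 2.57) (by linarith) (by norm_num) (by norm_num)) hY (g0_nn (by norm_num))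
    (g0_le (by norm_num) h1 h2 (by norm_num) (by norm_num)) (ch0 (a := (-2.9278)) (by norm_num) (sqL h2 h4 (by norm_num) (by norm_num)) (by norm_num) h1 h2 (by norm_num) (by norm_num))
    (by norm_num) (by norm_num) (by norm_num) (by norm_num) rfl rfl (by norm_num) rfl rfl rfl (by norm_num) (by norm_num) (by norm_num) (by norm_num) (by norm_num) (by norm_num) (by norm_num) (by norm_num) (by norm_num) (by norm_num) (by norm_num) (by norm_num) (by norm_num) (by norm_num) (by norm_num) (by norm_num) (by norm_num) (by norm_num)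
    (expn 13 0.9142 (by norm_num) (by norm_num) (by norm_num) (by norm_num)) (by norm_num) (by norm_num) (by norm_num) (by norm_num) (by norm_num) (by norm_num) (by norm_num) (by norm_num) (expn 16 1.5 (by norm_num) (by norm_num) (by norm_num) (by norm_num)) (by norm_num) (by norm_num)) (by norm_num) hY (by norm_num)

theorem b8_11_Wm3 {β r h κ T t s u Y : ℝ} (B : By 1.13 1.26 0.4963 0.4869 20.0845 0.0567 5.441 β r h κ T) (hs : t + κ = s * h)
    (h1 : 0.43 ≤ u) (h2 : u ≤ 0.59) (h3 : u ≤ s) (h4 : s ≤ u + 0.0722)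
    (hY : eN r κ * (0.8906 * Real.exp (-(T * (0.5325 * (1 - u) ^ 2)))) ≤ Y) :
    ‖Xf β r h t (-3)‖ ≤ 0.0000001803 * Y := by
  refine cU8 1 (-4) 2.2193 3.6617 0.02 0.3753 0.0911 0.8913 0.8906 0.1731 0.7021 0.9531 4.4816 0.00000003169 0.0000001803 B (by norm_num) hs
    (full8 B.P B.hk2 (x1 := 4.43) (by push_cast; linarith) (by norm_num) (by norm_num)) (mhi8 B.P (x2 := 4.6622) (by push_cast; linarith) (by norm_num) (by norm_num)) hY (g0_nn (by norm_num)) (g0_le (by norm_num) h1 h2 (by norm_num) (by norm_num))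
    (by norm_num) (by norm_num) (by norm_num) (by norm_num) (by norm_num) (by norm_num) (by norm_num) (by norm_num) (by norm_num) (by norm_num) (by norm_num) (by norm_num) (by norm_num) (by norm_num) (by norm_num) (by norm_num) (by norm_num) (by norm_num) (by norm_num)
    (expn 16 1.3128 (by norm_num) (by norm_num) (by norm_num) (by norm_num)) (by norm_num) (by norm_num)

private theorem b8_11_Ao_y {κ t : ℝ} (h : DomR κ t) (hk1 : 1.13 ≤ κ) (hk2 : κ ≤ 1.26) (ht1 : (-0.7462) ≤ t + κ) (ht2 : t + κ ≤ (-0.4948)) :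
    (-0.4) ≤ sy κ t ∧ sy κ t ≤ (-0.25) := by
  have hy1 : -0.4 ≤ sy κ t := syL_ge h 1.13 1.26 0.7462 0.4 0.67032 0.67033 0.227 0.21279 0.23729 hk1 hk2 (by linarith) (by norm_num) (by norm_num) (by norm_num)
    (expm_ge (by norm_num) (by norm_num) (by norm_num) (by norm_num)) (expm_le (by norm_num) (by norm_num) (by norm_num)) (by norm_num)
    (by norm_num) (by norm_num) (by norm_num) (by norm_num) (by norm_num) (by norm_num)
  have hy2 : sy κ t ≤ -0.25 := syL_le h 1.13 1.26 0.4948 0.25 0.7788 0.77881 0.15452 0.17231 hk1 hk2 (by linarith) (by norm_num) (by norm_num) (by norm_num)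
    (expm_ge (by norm_num) (by norm_num) (by norm_num) (by norm_num)) (expm_le (by norm_num) (by norm_num) (by norm_num)) (by norm_num)
    (by norm_num) (by norm_num) (by norm_num) (by norm_num) (by norm_num) (by norm_num)
  exact ⟨by linarith, by linarith⟩

theorem b8_11_Ao {β r h κ T t s u Y : ℝ} (B : By 1.13 1.26 0.4963 0.4869 20.0845 0.0567 5.441 β r h κ T) (hs : t + κ = s * h)
    (h1 : 0.05 ≤ u) (h2 : u ≤ 0.37) (h3 : u ≤ s) (h4 : s ≤ u + 0)
    (hY : eN r κ * (0.9699 * Real.exp (-(T * (1 / 2 * u ^ 2)))) ≤ Y) :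
    ‖Xf β r h t 0‖ ≤ 0.5638 * Y := by
  obtain ⟨t', ht'⟩ : ∃ t', t' = t + (-1) * h := ⟨_, rfl⟩
  have hτ : t' + κ = (s + (-1)) * h := by rw [ht']; linear_combination hs
  have a1 : (-0.7462) ≤ t' + κ := by rw [hτ]; have := mhiN8 B.P (x := s + (-1)) (x2 := 0.95) (τ2 := 0.7462) (by linarith) (by norm_num) (by norm_num); linarith
  have a2 : t' + κ ≤ (-0.4948) := by rw [hτ]; have := mloN8 B.P (x := s + (-1)) (x1 := 0.63) (τ1 := 0.4948) (by linarith) (by norm_num) (by norm_num); linarith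
  have hk := B.hk1
  have hk' := B.P.hκ1
  have hD : DomR κ t' := dom7 B.P.κ0 (by linarith) (by linarith)
  have hy := b8_11_Ao_y hD B.hk1 B.hk2 a1 a2
  have hJ : ‖HH β (sg κ t') - 1‖ ≤ 0.07 := JB8_k0 hD B.P.hβ (by linarith) B.P.hκ1 (by linarith) (by linarith) B.P.βκ B.P.βR
  have hd := Dlo7 hD (1.13 ^ 2) (1.26 ^ 2) 1.1442 (-0.4) (-0.25) (-0.25) 1.64871 hy.1 hy.2 (pow_le_pow_left₀ (by norm_num) B.hk1 2) (pow_le_pow_left₀ B.P.κ0.le B.hk2 2)
      (by rw [show (-2 * (-0.25) : ℝ) = 0.5 by norm_num]; exact expn_ge (by norm_num) (by norm_num)) (by norm_num) (by norm_num) (by norm_num) (by norm_num) (by norm_num)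
  have hc : sE κ t' ≤ 1 - 0.47 * (t' + κ) ^ 2 / (1 + κ ^ 2) := VLA8 hD B.P.hκ1 (by linarith) (by linarith)
  exact up8 (-1) 0.07 0.47 1.1442 1.0346 0.9699 0.118 0.5285 0.5638 B (by norm_num) ht' hs hD (by norm_num) hJ hc hd (by norm_num) (by norm_num) (by norm_num) hY (by norm_num)
    (ch1 (a := (-1)) (by norm_num) (sqL h2 h4 (by norm_num) (by norm_num)) (by norm_num) h1 h2 (by norm_num) (by norm_num)) (by norm_num)
    (expn 0 0.642 (by norm_num) (by norm_num) (by norm_num) (by norm_num)) (by norm_num) (by norm_num)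

private theorem b8_11_A2_y {κ t : ℝ} (h : DomR κ t) (hk1 : 1.13 ≤ κ) (hk2 : κ ≤ 1.26) (ht1 : 0.8246 ≤ t + κ) (ht2 : t + κ ≤ 1.076) :
    0.335 ≤ sy κ t ∧ sy κ t ≤ 0.421 := by
  have hy1 : 0.335 ≤ sy κ t := syR_ge h 1.13 1.26 0.8246 0.335 1.39794 1.39795 0.37167 0.41444 hk1 hk2 (by linarith) (by norm_num) (by norm_num)
    (expn_ge (by norm_num) (by norm_num)) (expn_le (by norm_num) (by norm_num) (by norm_num)) (by norm_num)
    (by norm_num) (by norm_num) (by norm_num) (by norm_num) (by norm_num) (by norm_num)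
  have hy2 : sy κ t ≤ 0.421 := syR_le h 1.13 1.26 1.076 0.421 1.52348 0.4943 0.50903 0.56761 hk1 hk2 (by linarith) (by norm_num) (by norm_num)
    (expn_ge (by norm_num) (by norm_num)) (by norm_num) (by norm_num) (Or.inr ((mul_le_mul_of_nonneg_left (expn_le (E := 1.52349) (by norm_num) (by norm_num) (by norm_num)) (by norm_num)).trans (by norm_num))) (by norm_num) (by norm_num) (by norm_num)
  exact ⟨by linarith, by linarith⟩

theorem b8_11_A2 {β r h κ T t s u Y : ℝ} (B : By 1.13 1.26 0.4963 0.4869 20.0845 0.0567 5.441 β r h κ T) (hs : t + κ = s * h)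
    (h1 : 0.05 ≤ u) (h2 : u ≤ 0.37) (h3 : u ≤ s) (h4 : s ≤ u + 0)
    (hY : eN r κ * (0.9699 * Real.exp (-(T * (1 / 2 * u ^ 2)))) ≤ Y) :
    ‖Xf β r h t 2‖ ≤ 0.08968 * Y := by
  obtain ⟨t', ht'⟩ : ∃ t', t' = t + 1 * h := ⟨_, rfl⟩
  have hτ : t' + κ = (s + 1) * h := by rw [ht']; linear_combination hs
  have a1 : 0.8246 ≤ t' + κ := by rw [hτ]; exact mlo8 B.P (x1 := 1.05) (by linarith) (by norm_num) (by norm_num)
  have a2 : t' + κ ≤ 1.076 := by rw [hτ]; exact mhi8 B.P (x2 := 1.37) (by linarith) (by norm_num) (by norm_num)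
  have hk := B.hk1
  have hk' := B.P.hκ1
  have hD : DomR κ t' := dom7 B.P.κ0 (by linarith) (by linarith)
  have hy := b8_11_A2_y hD B.hk1 B.hk2 a1 a2
  have hJ : ‖HH β (sg κ t') - 1‖ ≤ 0.04 := JB8_k2 hD B.P.hβ (by linarith) B.P.hκ1 (by linarith) (by linarith) B.P.βκ B.P.βR
  have hd := Dlo7 hD (1.13 ^ 2) (1.26 ^ 2) 0.9593 0.335 0.421 0.335 0.5117 hy.1 hy.2 (pow_le_pow_left₀ (by norm_num) B.hk1 2) (pow_le_pow_left₀ B.P.κ0.le B.hk2 2)
      (by rw [show (-2 * 0.335 : ℝ) = -0.67 by norm_num]; exact expm_ge (by norm_num) (by norm_num) (by norm_num) (by norm_num)) (by norm_num) (by norm_num) (by norm_num) (by norm_num) (by norm_num)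
  have hc : sE κ t' ≤ 1 - 0.4169 * (t' + κ) ^ 2 / (1 + κ ^ 2) := VR8 0.75 0.4169 0.8246 1.076 _ _ _ _ _ B hD a1 a2 (by norm_num) (by norm_num) (by norm_num) (by norm_num) rfl rfl (by norm_num) rfl rfl rfl (by norm_num) (by norm_num)
  exact up8 1 0.04 0.4169 0.9593 1.0509 0.9699 0.4583 0.08276 0.08968 B (by norm_num) ht' hs hD (by norm_num) hJ hc hd (by norm_num) (by norm_num) (by norm_num) hY (by norm_num)
    (ch1 (a := 1) (by norm_num) (sqR h1 h3 (by norm_num)) (by norm_num) h1 h2 (by norm_num) (by norm_num)) (by norm_num)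
    (expn 2 0.4936 (by norm_num) (by norm_num) (by norm_num) (by norm_num)) (by norm_num) (by norm_num)

theorem b8_11_A3R {β r h κ T t s u Y : ℝ} (B : By 1.13 1.26 0.4963 0.4869 20.0845 0.0567 5.441 β r h κ T) (hs : t + κ = s * h)
    (h1 : 0.05 ≤ u) (h2 : u ≤ 0.37) (h3 : u ≤ s) (h4 : s ≤ u + 0) (htp : t + 2 * h ≤ Real.pi / 2)
    (hY : eN r κ * (0.9699 * Real.exp (-(T * (1 / 2 * u ^ 2)))) ≤ Y) :
    ‖Xf β r h t 3‖ ≤ 0.0010871 * Y := by
  refine leE (cR8 2 0.48 0.3405 1.61 1.8614 _ _ _ _ _ 0.3292 2.0508 0.3753 0.4791 0.7994 0.9699 1.4297 0.000422 0.0008923 0.0685 0.7647 0.9814 4.4816 0.00004156 0.0001948 B (by norm_num) hs htp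
    (mlo8 B.P (x1 := 2.05) (by linarith) (by norm_num) (by norm_num)) (mhi8 B.P (x2 := 2.37) (by linarith) (by norm_num) (by norm_num)) hY g1_nn
    (g1_le (by linarith) h2 (by norm_num)) (ch1 (a := 2) (by norm_num) (sqR h1 h3 (by norm_num)) (by norm_num) h1 h2 (by norm_num) (by norm_num))
    (by norm_num) (by norm_num) (by norm_num) (by norm_num) rfl rfl (by norm_num) rfl rfl rfl (by norm_num) (by norm_num) (by norm_num) (by norm_num) (by norm_num) (by norm_num) (by norm_num) (by norm_num) (by norm_num) (by norm_num) (by norm_num) (by norm_num) (by norm_num) (by norm_num) (by norm_num) (by norm_num) (by norm_num) (by norm_num) (by norm_num)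
    (expn 7 0.7789 (by norm_num) (by norm_num) (by norm_num) (by norm_num)) (by norm_num) (by norm_num) (by norm_num) (by norm_num) (by norm_num) (by norm_num) (by norm_num) (by norm_num) (expn 10 0.0884 (by norm_num) (by norm_num) (by norm_num) (by norm_num)) (by norm_num) (by norm_num)) (by norm_num) hY (by norm_num)

theorem b8_11_A3 {β r h κ T t s u Y : ℝ} (B : By 1.13 1.26 0.4963 0.4869 20.0845 0.0567 5.441 β r h κ T) (hs : t + κ = s * h)
    (h1 : 0.05 ≤ u) (h2 : u ≤ 0.37) (h3 : u ≤ s) (h4 : s ≤ u + 0)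
    (hY : eN r κ * (0.9699 * Real.exp (-(T * (1 / 2 * u ^ 2)))) ≤ Y) :
    ‖Xf β r h t 3‖ ≤ 0.0010871 * Y := by
  have hp : t + 2 * h ≤ Real.pi / 2 := by
    have e : t + 2 * h = (s + 2) * h - κ := by linear_combination hs
    have := mhi8 B.P (x := s + 2) (x2 := 2.37) (by linarith) (by norm_num) (le_refl _)
    have := B.hk1
    have := Real.pi_gt_d6
    rw [e]
    norm_num at *
    linarith
  exact leE (b8_11_A3R B hs h1 h2 h3 h4 hp hY) (by norm_num) hY (by norm_num)

theorem b8_11_A4R {β r h κ T t s u Y : ℝ} (B : By 1.13 1.26 0.4963 0.4869 20.0845 0.0567 5.441 β r h κ T) (hs : t + κ = s * h)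
    (h1 : 0.05 ≤ u) (h2 : u ≤ 0.37) (h3 : u ≤ s) (h4 : s ≤ u + 0) (htp : t + 3 * h ≤ Real.pi / 2)
    (hY : eN r κ * (0.9699 * Real.exp (-(T * (1 / 2 * u ^ 2)))) ≤ Y) :
    ‖Xf β r h t 4‖ ≤ 0.0000015657 * Y := by
  refine leE (cR8 3 0.4 0.2968 2.3954 2.6468 _ _ _ _ _ 0.1701 2.4188 0.3753 0.2025 0.861 0.9699 2.7597 0.0000003012 0.0000007512 0.0685 0.7647 0.9814 4.4816 0.0000001614 0.0000008145 B (by norm_num) hs htp
    (mlo8 B.P (x1 := 3.05) (by linarith) (by norm_num) (by norm_num)) (mhi8 B.P (x2 := 3.37) (by linarith) (by norm_num) (by norm_num)) hY g1_nn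
    (g1_le (by linarith) h2 (by norm_num)) (ch1 (a := 3) (by norm_num) (sqR h1 h3 (by norm_num)) (by norm_num) h1 h2 (by norm_num) (by norm_num))
    (by norm_num) (by norm_num) (by norm_num) (by norm_num) rfl rfl (by norm_num) rfl rfl rfl (by norm_num) (by norm_num) (by norm_num) (by norm_num) (by norm_num) (by norm_num) (by norm_num) (by norm_num) (by norm_num) (by norm_num) (by norm_num) (by norm_num) (by norm_num) (by norm_num) (by norm_num) (by norm_num) (by norm_num) (by norm_num) (by norm_num)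
    (expn 15 0.0155 (by norm_num) (by norm_num) (by norm_num) (by norm_num)) (by norm_num) (by norm_num) (by norm_num) (by norm_num) (by norm_num) (by norm_num) (by norm_num) (by norm_num) (expn 15 0.6438 (by norm_num) (by norm_num) (by norm_num) (by norm_num)) (by norm_num) (by norm_num)) (by norm_num) hY (by norm_num)

theorem b8_11_A4 {β r h κ T t s u Y : ℝ} (B : By 1.13 1.26 0.4963 0.4869 20.0845 0.0567 5.441 β r h κ T) (hs : t + κ = s * h)
    (h1 : 0.05 ≤ u) (h2 : u ≤ 0.37) (h3 : u ≤ s) (h4 : s ≤ u + 0)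
    (hY : eN r κ * (0.9699 * Real.exp (-(T * (1 / 2 * u ^ 2)))) ≤ Y) :
    ‖Xf β r h t 4‖ ≤ 0.0000015657 * Y := by
  have hp : t + 3 * h ≤ Real.pi / 2 := by
    have e : t + 3 * h = (s + 3) * h - κ := by linear_combination hs
    have := mhi8 B.P (x := s + 3) (x2 := 3.37) (by linarith) (by norm_num) (le_refl _)
    have := B.hk1
    have := Real.pi_gt_d6
    rw [e]
    norm_num at *
    linarith
  exact leE (b8_11_A4R B hs h1 h2 h3 h4 hp hY) (by norm_num) hY (by norm_num)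

theorem b8_11_Am1 {β r h κ T t s u Y : ℝ} (B : By 1.13 1.26 0.4963 0.4869 20.0845 0.0567 5.441 β r h κ T) (hs : t + κ = s * h)
    (h1 : 0.05 ≤ u) (h2 : u ≤ 0.37) (h3 : u ≤ s) (h4 : s ≤ u + 0)
    (hY : eN r κ * (0.9699 * Real.exp (-(T * (1 / 2 * u ^ 2)))) ≤ Y) :
    ‖Xf β r h t (-1)‖ ≤ 0.0013991173 * Y := by
  refine leE (cL8 (-2) 0.96 0.4935 1.2801 1.5316 _ _ _ _ _ 3.1867 1.1627 0.3753 0 0.7444 0.9699 1.2427 0.001167 0.001399 0.0685 0.7647 0.9814 4.4816 0.00000002688 0.0000001173 B (by norm_num) hs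
    (mloN8 B.P (x1 := 1.63) (by linarith) (by norm_num) (by norm_num)) (mhiN8 B.P (x2 := 1.95) (by linarith) (by norm_num) (by norm_num)) hY g1_nn
    (g1_le (by linarith) h2 (by norm_num)) (ch1 (a := (-2)) (by norm_num) (sqL h2 h4 (by norm_num) (by norm_num)) (by norm_num) h1 h2 (by norm_num) (by norm_num))
    (by norm_num) (by norm_num) (by norm_num) (by norm_num) rfl rfl (by norm_num) rfl rfl rfl (by norm_num) (by norm_num) (by norm_num) (by norm_num) (by norm_num) (by norm_num) (by norm_num) (by norm_num) (by norm_num) (by norm_num) (by norm_num) (by norm_num) (by norm_num) (by norm_num) (by norm_num) (by norm_num) (by norm_num) (by norm_num)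
    (expn 6 0.7615 (by norm_num) (by norm_num) (by norm_num) (by norm_num)) (by norm_num) (by norm_num) (by norm_num) (by norm_num) (by norm_num) (by norm_num) (by norm_num) (by norm_num) (expn 16 1.5 (by norm_num) (by norm_num) (by norm_num) (by norm_num)) (by norm_num) (by norm_num)) (by norm_num) hY (by norm_num)

theorem b8_11_Am2 {β r h κ T t s u Y : ℝ} (B : By 1.13 1.26 0.4963 0.4869 20.0845 0.0567 5.441 β r h κ T) (hs : t + κ = s * h)
    (h1 : 0.05 ≤ u) (h2 : u ≤ 0.37) (h3 : u ≤ s) (h4 : s ≤ u + 0)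
    (hY : eN r κ * (0.9699 * Real.exp (-(T * (1 / 2 * u ^ 2)))) ≤ Y) :
    ‖Xf β r h t (-2)‖ ≤ 0.00000016449 * Y := by
  refine leE (cL8 (-3) 0.84 0.4728 2.0655 2.317 _ _ _ _ _ 4.3237 1.0773 0.3753 0 0.8407 0.9699 3.2018 0.0000000288 0.00000003199 0.0685 0.7647 0.9814 4.4816 0.00000002688 0.0000001325 B (by norm_num) hs
    (mloN8 B.P (x1 := 2.63) (by linarith) (by norm_num) (by norm_num)) (mhiN8 B.P (x2 := 2.95) (by linarith) (by norm_num) (by norm_num)) hY g1_nn
    (g1_le (by linarith) h2 (by norm_num)) (ch1 (a := (-3)) (by norm_num) (sqL h2 h4 (by norm_num) (by norm_num)) (by norm_num) h1 h2 (by norm_num) (by norm_num))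
    (by norm_num) (by norm_num) (by norm_num) (by norm_num) rfl rfl (by norm_num) rfl rfl rfl (by norm_num) (by norm_num) (by norm_num) (by norm_num) (by norm_num) (by norm_num) (by norm_num) (by norm_num) (by norm_num) (by norm_num) (by norm_num) (by norm_num) (by norm_num) (by norm_num) (by norm_num) (by norm_num) (by norm_num) (by norm_num)
    (expn 16 1.4209 (by norm_num) (by norm_num) (by norm_num) (by norm_num)) (by norm_num) (by norm_num) (by norm_num) (by norm_num) (by norm_num) (by norm_num) (by norm_num) (by norm_num) (expn 16 1.5 (by norm_num) (by norm_num) (by norm_num) (by norm_num)) (by norm_num) (by norm_num)) (by norm_num) hY (by norm_num)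

theorem b8_11_Am3 {β r h κ T t s u Y : ℝ} (B : By 1.13 1.26 0.4963 0.4869 20.0845 0.0567 5.441 β r h κ T) (hs : t + κ = s * h)
    (h1 : 0.05 ≤ u) (h2 : u ≤ 0.37) (h3 : u ≤ s) (h4 : s ≤ u + 0)
    (hY : eN r κ * (0.9699 * Real.exp (-(T * (1 / 2 * u ^ 2)))) ≤ Y) :
    ‖Xf β r h t (-3)‖ ≤ 0.0000001445 * Y := by
  refine cU8 1 (-4) 1.9208 3.4322 0.02 0.3753 0.02 0.9169 0.9699 0.0685 0.7647 0.9814 4.4816 0.00000002688 0.0000001445 B (by norm_num) hs
    (full8 B.P B.hk2 (x1 := 4.05) (by push_cast; linarith) (by norm_num) (by norm_num)) (mhi8 B.P (x2 := 4.37) (by push_cast; linarith) (by norm_num) (by norm_num)) hY g1_nn (g1_le (by linarith) h2 (by norm_num))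
    (by norm_num) (by norm_num) (by norm_num) (by norm_num) (by norm_num) (by norm_num) (by norm_num) (by norm_num) (by norm_num) (by norm_num) (by norm_num) (by norm_num) (by norm_num) (by norm_num) (by norm_num) (by norm_num) (by norm_num) (by norm_num) (by norm_num)
    (expn 16 1.5 (by norm_num) (by norm_num) (by norm_num) (by norm_num)) (by norm_num) (by norm_num)

private theorem b8_11_Bo_y {κ t : ℝ} (h : DomR κ t) (hk1 : 1.13 ≤ κ) (hk2 : κ ≤ 1.26) (ht1 : (-0.4949) ≤ t + κ) (ht2 : t + κ ≤ (-0.4476)) :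
    (-0.263) ≤ sy κ t ∧ sy κ t ≤ (-0.226) := by
  have hy1 : -0.263 ≤ sy κ t := syL_ge h 1.13 1.26 0.4949 0.263 0.76874 0.76875 0.165 0.16045 0.17893 hk1 hk2 (by linarith) (by norm_num) (by norm_num) (by norm_num)
    (expm_ge (by norm_num) (by norm_num) (by norm_num) (by norm_num)) (expm_le (by norm_num) (by norm_num) (by norm_num)) (by norm_num)
    (by norm_num) (by norm_num) (by norm_num) (by norm_num) (by norm_num) (by norm_num)
  have hy2 : sy κ t ≤ -0.226 := syL_le h 1.13 1.26 0.4476 0.226 0.79771 0.79772 0.14308 0.15955 hk1 hk2 (by linarith) (by norm_num) (by norm_num) (by norm_num)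
    (expm_ge (by norm_num) (by norm_num) (by norm_num) (by norm_num)) (expm_le (by norm_num) (by norm_num) (by norm_num)) (by norm_num)
    (by norm_num) (by norm_num) (by norm_num) (by norm_num) (by norm_num) (by norm_num)
  exact ⟨by linarith, by linarith⟩

theorem b8_11_Bo {β r h κ T t s u Y : ℝ} (B : By 1.13 1.26 0.4963 0.4869 20.0845 0.0567 5.441 β r h κ T) (hs : t + κ = s * h)
    (h1 : 0.37 ≤ u) (h2 : u ≤ 0.43) (h3 : u ≤ s) (h4 : s ≤ u + 0)
    (hY : eN r κ * (0.9699 * Real.exp (-(T * (1 / 2 * u ^ 2)))) ≤ Y) :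
    ‖Xf β r h t 0‖ ≤ 0.7483 * Y := by
  obtain ⟨t', ht'⟩ : ∃ t', t' = t + (-1) * h := ⟨_, rfl⟩
  have hτ : t' + κ = (s + (-1)) * h := by rw [ht']; linear_combination hs
  have a1 : (-0.4949) ≤ t' + κ := by rw [hτ]; have := mhiN8 B.P (x := s + (-1)) (x2 := 0.63) (τ2 := 0.4949) (by linarith) (by norm_num) (by norm_num); linarith
  have a2 : t' + κ ≤ (-0.4476) := by rw [hτ]; have := mloN8 B.P (x := s + (-1)) (x1 := 0.57) (τ1 := 0.4476) (by linarith) (by norm_num) (by norm_num); linarith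
  have hk := B.hk1
  have hk' := B.P.hκ1
  have hD : DomR κ t' := dom7 B.P.κ0 (by linarith) (by linarith)
  have hy := b8_11_Bo_y hD B.hk1 B.hk2 a1 a2
  have hJ : ‖HH β (sg κ t') - 1‖ ≤ 0.07 := JB8_k0 hD B.P.hβ (by linarith) B.P.hκ1 (by linarith) (by linarith) B.P.βκ B.P.βR
  have hd := Dlo7 hD (1.13 ^ 2) (1.26 ^ 2) 1.1219 (-0.263) (-0.226) (-0.2297) 1.58312 hy.1 hy.2 (pow_le_pow_left₀ (by norm_num) B.hk1 2) (pow_le_pow_left₀ B.P.κ0.le B.hk2 2)
      (by rw [show (-2 * (-0.2297) : ℝ) = 0.4594 by norm_num]; exact expn_ge (by norm_num) (by norm_num)) (by norm_num) (by norm_num) (by norm_num) (by norm_num) (by norm_num)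
  have hc : sE κ t' ≤ 1 - 0.4885 * (t' + κ) ^ 2 / (1 + κ ^ 2) := VL_04_05 hD (by linarith) (by linarith) (by linarith)
  exact up8 (-1) 0.07 0.4885 1.1219 1.0397 0.9699 0.0662 0.698 0.7483 B (by norm_num) ht' hs hD (by norm_num) hJ hc hd (by norm_num) (by norm_num) (by norm_num) hY (by norm_num)
    (ch1 (a := (-1)) (by norm_num) (sqL h2 h4 (by norm_num) (by norm_num)) (by norm_num) h1 h2 (by norm_num) (by norm_num)) (by norm_num)
    (expn 0 0.3601 (by norm_num) (by norm_num) (by norm_num) (by norm_num)) (by norm_num) (by norm_num)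

private theorem b8_11_B2_y {κ t : ℝ} (h : DomR κ t) (hk1 : 1.13 ≤ κ) (hk2 : κ ≤ 1.26) (ht1 : 1.0759 ≤ t + κ) (ht2 : t + κ ≤ 1.1232) :
    0.406 ≤ sy κ t ∧ sy κ t ≤ 0.434 := by
  have hy1 : 0.406 ≤ sy κ t := syR_ge h 1.13 1.26 1.0759 0.406 1.5008 1.50081 0.48359 0.53923 hk1 hk2 (by linarith) (by norm_num) (by norm_num)
    (expn_ge (by norm_num) (by norm_num)) (expn_le (by norm_num) (by norm_num) (by norm_num)) (by norm_num)
    (by norm_num) (by norm_num) (by norm_num) (by norm_num) (by norm_num) (by norm_num)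
  have hy2 : sy κ t ≤ 0.434 := syR_le h 1.13 1.26 1.1232 0.434 1.54341 0.5214 0.53161 0.59279 hk1 hk2 (by linarith) (by norm_num) (by norm_num)
    (expn_ge (by norm_num) (by norm_num)) (by norm_num) (by norm_num) (Or.inr ((mul_le_mul_of_nonneg_left (expn_le (E := 1.54342) (by norm_num) (by norm_num) (by norm_num)) (by norm_num)).trans (by norm_num))) (by norm_num) (by norm_num) (by norm_num)
  exact ⟨by linarith, by linarith⟩

theorem b8_11_B2 {β r h κ T t s u Y : ℝ} (B : By 1.13 1.26 0.4963 0.4869 20.0845 0.0567 5.441 β r h κ T) (hs : t + κ = s * h)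
    (h1 : 0.37 ≤ u) (h2 : u ≤ 0.43) (h3 : u ≤ s) (h4 : s ≤ u + 0)
    (hY : eN r κ * (0.9699 * Real.exp (-(T * (1 / 2 * u ^ 2)))) ≤ Y) :
    ‖Xf β r h t 2‖ ≤ 0.02256 * Y := by
  obtain ⟨t', ht'⟩ : ∃ t', t' = t + 1 * h := ⟨_, rfl⟩
  have hτ : t' + κ = (s + 1) * h := by rw [ht']; linear_combination hs
  have a1 : 1.0759 ≤ t' + κ := by rw [hτ]; exact mlo8 B.P (x1 := 1.37) (by linarith) (by norm_num) (by norm_num)
  have a2 : t' + κ ≤ 1.1232 := by rw [hτ]; exact mhi8 B.P (x2 := 1.43) (by linarith) (by norm_num) (by norm_num)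
  have hk := B.hk1
  have hk' := B.P.hκ1
  have hD : DomR κ t' := dom7 B.P.κ0 (by linarith) (by linarith)
  have hy := b8_11_B2_y hD B.hk1 B.hk2 a1 a2
  have hJ : ‖HH β (sg κ t') - 1‖ ≤ 0.04 := JB8_k2 hD B.P.hβ (by linarith) B.P.hκ1 (by linarith) (by linarith) B.P.βκ B.P.βR
  have hd := Dlo7 hD (1.13 ^ 2) (1.26 ^ 2) 0.9726 0.406 0.434 0.406 0.44396 hy.1 hy.2 (pow_le_pow_left₀ (by norm_num) B.hk1 2) (pow_le_pow_left₀ B.P.κ0.le B.hk2 2)
      (by rw [show (-2 * 0.406 : ℝ) = -0.812 by norm_num]; exact expm_ge (by norm_num) (by norm_num) (by norm_num) (by norm_num)) (by norm_num) (by norm_num) (by norm_num) (by norm_num) (by norm_num)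
  have hc : sE κ t' ≤ 1 - 0.4166 * (t' + κ) ^ 2 / (1 + κ ^ 2) := VR8 0.75 0.4166 1.0759 1.1232 _ _ _ _ _ B hD a1 a2 (by norm_num) (by norm_num) (by norm_num) (by norm_num) rfl rfl (by norm_num) rfl rfl rfl (by norm_num) (by norm_num)
  exact up8 1 0.04 0.4166 0.9726 1.0473 0.9699 0.7134 0.02089 0.02256 B (by norm_num) ht' hs hD (by norm_num) hJ hc hd (by norm_num) (by norm_num) (by norm_num) hY (by norm_num)
    (ch1 (a := 1) (by norm_num) (sqR h1 h3 (by norm_num)) (by norm_num) h1 h2 (by norm_num) (by norm_num)) (by norm_num)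
    (expn 3 0.8816 (by norm_num) (by norm_num) (by norm_num) (by norm_num)) (by norm_num) (by norm_num)

theorem b8_11_B3R {β r h κ T t s u Y : ℝ} (B : By 1.13 1.26 0.4963 0.4869 20.0845 0.0567 5.441 β r h κ T) (hs : t + κ = s * h)
    (h1 : 0.37 ≤ u) (h2 : u ≤ 0.43) (h3 : u ≤ s) (h4 : s ≤ u + 0) (htp : t + 2 * h ≤ Real.pi / 2)
    (hY : eN r κ * (0.9699 * Real.exp (-(T * (1 / 2 * u ^ 2)))) ≤ Y) :
    ‖Xf β r h t 3‖ ≤ 0.00013312 * Y := by
  refine leE (cR8 2 0.48 0.3402 1.8613 1.9086 _ _ _ _ _ 0.3073 2.0864 0.3753 0.3901 0.8078 0.9699 1.8424 0.00004431 0.00009532 0.0925 0.7647 0.9749 4.4816 0.000007983 0.0000378 B (by norm_num) hs htp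
    (mlo8 B.P (x1 := 2.37) (by linarith) (by norm_num) (by norm_num)) (mhi8 B.P (x2 := 2.43) (by linarith) (by norm_num) (by norm_num)) hY g1_nn
    (g1_le (by linarith) h2 (by norm_num)) (ch1 (a := 2) (by norm_num) (sqR h1 h3 (by norm_num)) (by norm_num) h1 h2 (by norm_num) (by norm_num))
    (by norm_num) (by norm_num) (by norm_num) (by norm_num) rfl rfl (by norm_num) rfl rfl rfl (by norm_num) (by norm_num) (by norm_num) (by norm_num) (by norm_num) (by norm_num) (by norm_num) (by norm_num) (by norm_num) (by norm_num) (by norm_num) (by norm_num) (by norm_num) (by norm_num) (by norm_num) (by norm_num) (by norm_num) (by norm_num) (by norm_num)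
    (expn 10 0.0244 (by norm_num) (by norm_num) (by norm_num) (by norm_num)) (by norm_num) (by norm_num) (by norm_num) (by norm_num) (by norm_num) (by norm_num) (by norm_num) (by norm_num) (expn 11 0.7454 (by norm_num) (by norm_num) (by norm_num) (by norm_num)) (by norm_num) (by norm_num)) (by norm_num) hY (by norm_num)

theorem b8_11_B3 {β r h κ T t s u Y : ℝ} (B : By 1.13 1.26 0.4963 0.4869 20.0845 0.0567 5.441 β r h κ T) (hs : t + κ = s * h)
    (h1 : 0.37 ≤ u) (h2 : u ≤ 0.43) (h3 : u ≤ s) (h4 : s ≤ u + 0)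
    (hY : eN r κ * (0.9699 * Real.exp (-(T * (1 / 2 * u ^ 2)))) ≤ Y) :
    ‖Xf β r h t 3‖ ≤ 0.00013312 * Y := by
  have hp : t + 2 * h ≤ Real.pi / 2 := by
    have e : t + 2 * h = (s + 2) * h - κ := by linear_combination hs
    have := mhi8 B.P (x := s + 2) (x2 := 2.43) (by linarith) (by norm_num) (le_refl _)
    have := B.hk1
    have := Real.pi_gt_d6
    rw [e]
    norm_num at *
    linarith
  exact leE (b8_11_B3R B hs h1 h2 h3 h4 hp hY) (by norm_num) hY (by norm_num)

theorem b8_11_B4 {β r h κ T t s u Y : ℝ} (B : By 1.13 1.26 0.4963 0.4869 20.0845 0.0567 5.441 β r h κ T) (hs : t + κ = s * h)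
    (h1 : 0.37 ≤ u) (h2 : u ≤ 0.43) (h3 : u ≤ s) (h4 : s ≤ u + 0)
    (hY : eN r κ * (0.9699 * Real.exp (-(T * (1 / 2 * u ^ 2)))) ≤ Y) :
    ‖Xf β r h t (4)‖ ≤ 0.00000232 * Y := by
  refine cU8 0 (3) 1.3867 2.694 0.2 0.3753 0.2 2.2653 0.9699 0.0925 0.7647 0.9749 4.4816 0.0000001747 0.00000232 B (by norm_num) hs
    (fullz8 B.P B.hk2 (x1 := 3.37) (by push_cast; linarith) (by norm_num) (by norm_num)) (mhi8 B.P (x2 := 3.43) (by push_cast; linarith) (by norm_num) (by norm_num)) hY g1_nn (g1_le (by linarith) h2 (by norm_num))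
    (by norm_num) (by norm_num) (by norm_num) (by norm_num) (by norm_num) (by norm_num) (by norm_num) (by norm_num) (by norm_num) (by norm_num) (by norm_num) (by norm_num) (by norm_num) (by norm_num) (by norm_num) (by norm_num) (by norm_num) (by norm_num) (by norm_num)
    (expn 15 0.5634 (by norm_num) (by norm_num) (by norm_num) (by norm_num)) (by norm_num) (by norm_num)

theorem b8_11_Bm1 {β r h κ T t s u Y : ℝ} (B : By 1.13 1.26 0.4963 0.4869 20.0845 0.0567 5.441 β r h κ T) (hs : t + κ = s * h)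
    (h1 : 0.37 ≤ u) (h2 : u ≤ 0.43) (h3 : u ≤ s) (h4 : s ≤ u + 0)
    (hY : eN r κ * (0.9699 * Real.exp (-(T * (1 / 2 * u ^ 2)))) ≤ Y) :
    ‖Xf β r h t (-1)‖ ≤ 0.0023571153 * Y := by
  refine leE (cL8 (-2) 1.1 0.5 1.233 1.2802 _ _ _ _ _ 3.5886 1.1286 0.3753 0 0.7316 0.9699 1.14 0.002025 0.002357 0.0925 0.7647 0.9749 4.4816 0.00000002688 0.0000001153 B (by norm_num) hs
    (mloN8 B.P (x1 := 1.57) (by linarith) (by norm_num) (by norm_num)) (mhiN8 B.P (x2 := 1.63) (by linarith) (by norm_num) (by norm_num)) hY g1_nn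
    (g1_le (by linarith) h2 (by norm_num)) (ch1 (a := (-2)) (by norm_num) (sqL h2 h4 (by norm_num) (by norm_num)) (by norm_num) h1 h2 (by norm_num) (by norm_num))
    (by norm_num) (by norm_num) (by norm_num) (by norm_num) rfl rfl (by norm_num) rfl rfl rfl (by norm_num) (by norm_num) (by norm_num) (by norm_num) (by norm_num) (by norm_num) (by norm_num) (by norm_num) (by norm_num) (by norm_num) (by norm_num) (by norm_num) (by norm_num) (by norm_num) (by norm_num) (by norm_num) (by norm_num) (by norm_num)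
    (expn 6 0.2027 (by norm_num) (by norm_num) (by norm_num) (by norm_num)) (by norm_num) (by norm_num) (by norm_num) (by norm_num) (by norm_num) (by norm_num) (by norm_num) (by norm_num) (expn 16 1.5 (by norm_num) (by norm_num) (by norm_num) (by norm_num)) (by norm_num) (by norm_num)) (by norm_num) hY (by norm_num)

theorem b8_11_Bm2 {β r h κ T t s u Y : ℝ} (B : By 1.13 1.26 0.4963 0.4869 20.0845 0.0567 5.441 β r h κ T) (hs : t + κ = s * h)
    (h1 : 0.37 ≤ u) (h2 : u ≤ 0.43) (h3 : u ≤ s) (h4 : s ≤ u + 0)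
    (hY : eN r κ * (0.9699 * Real.exp (-(T * (1 / 2 * u ^ 2)))) ≤ Y) :
    ‖Xf β r h t (-2)‖ ≤ 0.00000017544 * Y := by
  refine leE (cL8 (-3) 0.88 0.4864 2.0184 2.0656 _ _ _ _ _ 4.5817 1.0618 0.3753 0 0.8134 0.9699 3.1201 0.00000004315 0.00000004724 0.0925 0.7647 0.9749 4.4816 0.00000002688 0.0000001282 B (by norm_num) hs
    (mloN8 B.P (x1 := 2.57) (by linarith) (by norm_num) (by norm_num)) (mhiN8 B.P (x2 := 2.63) (by linarith) (by norm_num) (by norm_num)) hY g1_nn
    (g1_le (by linarith) h2 (by norm_num)) (ch1 (a := (-3)) (by norm_num) (sqL h2 h4 (by norm_num) (by norm_num)) (by norm_num) h1 h2 (by norm_num) (by norm_num))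
    (by norm_num) (by norm_num) (by norm_num) (by norm_num) rfl rfl (by norm_num) rfl rfl rfl (by norm_num) (by norm_num) (by norm_num) (by norm_num) (by norm_num) (by norm_num) (by norm_num) (by norm_num) (by norm_num) (by norm_num) (by norm_num) (by norm_num) (by norm_num) (by norm_num) (by norm_num) (by norm_num) (by norm_num) (by norm_num)
    (expn 16 0.9764 (by norm_num) (by norm_num) (by norm_num) (by norm_num)) (by norm_num) (by norm_num) (by norm_num) (by norm_num) (by norm_num) (by norm_num) (by norm_num) (by norm_num) (expn 16 1.5 (by norm_num) (by norm_num) (by norm_num) (by norm_num)) (by norm_num) (by norm_num)) (by norm_num) hY (by norm_num)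

theorem b8_11_Bm3 {β r h κ T t s u Y : ℝ} (B : By 1.13 1.26 0.4963 0.4869 20.0845 0.0567 5.441 β r h κ T) (hs : t + κ = s * h)
    (h1 : 0.37 ≤ u) (h2 : u ≤ 0.43) (h3 : u ≤ s) (h4 : s ≤ u + 0)
    (hY : eN r κ * (0.9699 * Real.exp (-(T * (1 / 2 * u ^ 2)))) ≤ Y) :
    ‖Xf β r h t (-3)‖ ≤ 0.0000001408 * Y := by
  refine cU8 1 (-4) 2.1721 3.4794 0.02 0.3753 0.02 0.8937 0.9699 0.0925 0.7647 0.9749 4.4816 0.00000002688 0.0000001408 B (by norm_num) hs
    (full8 B.P B.hk2 (x1 := 4.37) (by push_cast; linarith) (by norm_num) (by norm_num)) (mhi8 B.P (x2 := 4.43) (by push_cast; linarith) (by norm_num) (by norm_num)) hY g1_nn (g1_le (by linarith) h2 (by norm_num))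
    (by norm_num) (by norm_num) (by norm_num) (by norm_num) (by norm_num) (by norm_num) (by norm_num) (by norm_num) (by norm_num) (by norm_num) (by norm_num) (by norm_num) (by norm_num) (by norm_num) (by norm_num) (by norm_num) (by norm_num) (by norm_num) (by norm_num)
    (expn 16 1.5 (by norm_num) (by norm_num) (by norm_num) (by norm_num)) (by norm_num) (by norm_num)

private theorem b8_11_Co_y {κ t : ℝ} (h : DomR κ t) (hk1 : 1.13 ≤ κ) (hk2 : κ ≤ 1.26) (ht1 : 0.4633 ≤ t + κ) (ht2 : t + κ ≤ 0.5891) :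
    0.207 ≤ sy κ t ∧ sy κ t ≤ 0.258 := by
  have hy1 : 0.207 ≤ sy κ t := syR_ge h 1.13 1.26 0.4633 0.207 1.22998 1.22999 0.20206 0.22532 hk1 hk2 (by linarith) (by norm_num) (by norm_num)
    (expn_ge (by norm_num) (by norm_num)) (expn_le (by norm_num) (by norm_num) (by norm_num)) (by norm_num)
    (by norm_num) (by norm_num) (by norm_num) (by norm_num) (by norm_num) (by norm_num)
  have hy2 : sy κ t ≤ 0.258 := syR_le h 1.13 1.26 0.5891 0.258 1.29433 0.2573 0.26502 0.29553 hk1 hk2 (by linarith) (by norm_num) (by norm_num)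
    (expn_ge (by norm_num) (by norm_num)) (by norm_num) (by norm_num) (Or.inr ((mul_le_mul_of_nonneg_left (expn_le (E := 1.29434) (by norm_num) (by norm_num) (by norm_num)) (by norm_num)).trans (by norm_num))) (by norm_num) (by norm_num) (by norm_num)
  exact ⟨by linarith, by linarith⟩

theorem b8_11_Co {β r h κ T t s u Y : ℝ} (B : By 1.13 1.26 0.4963 0.4869 20.0845 0.0567 5.441 β r h κ T) (hs : t + κ = s * h)
    (h1 : 0.59 ≤ u) (h2 : u ≤ 0.75) (h3 : u ≤ s) (h4 : s ≤ u + 0)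
    (hY : eN r κ * (0.8906 * Real.exp (-(T * (0.5325 * (1 - u) ^ 2)))) ≤ Y) :
    ‖Xf β r h t 1‖ ≤ 0.806 * Y := by
  obtain ⟨t', ht'⟩ : ∃ t', t' = t + 0 * h := ⟨_, rfl⟩
  have hτ : t' + κ = (s + 0) * h := by rw [ht']; linear_combination hs
  have a1 : 0.4633 ≤ t' + κ := by rw [hτ]; exact mlo8 B.P (x1 := 0.59) (by linarith) (by norm_num) (by norm_num)
  have a2 : t' + κ ≤ 0.5891 := by rw [hτ]; exact mhi8 B.P (x2 := 0.75) (by linarith) (by norm_num) (by norm_num)
  have hk := B.hk1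
  have hk' := B.P.hκ1
  have hD : DomR κ t' := dom7 B.P.κ0 (by linarith) (by linarith)
  have hy := b8_11_Co_y hD B.hk1 B.hk2 a1 a2
  have hJ : ‖HH β (sg κ t') - 1‖ ≤ 0.03 := JB8_k1 hD B.P.hβ (by linarith) B.P.hκ1 (by linarith) (by linarith) B.P.βκ B.P.βR
  have hd := Dlo7 hD (1.13 ^ 2) (1.26 ^ 2) 0.9514 0.207 0.258 0.2325 0.62813 hy.1 hy.2 (pow_le_pow_left₀ (by norm_num) B.hk1 2) (pow_le_pow_left₀ B.P.κ0.le B.hk2 2)
      (by rw [show (-2 * 0.2325 : ℝ) = -0.465 by norm_num]; exact expm_ge (by norm_num) (by norm_num) (by norm_num) (by norm_num)) (by norm_num) (by norm_num) (by norm_num) (by norm_num) (by norm_num)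
  have hc : sE κ t' ≤ 1 - 0.4549 * (t' + κ) ^ 2 / (1 + κ ^ 2) := VR8 0.86 0.4549 0.4633 0.5891 _ _ _ _ _ B hD a1 a2 (by norm_num) (by norm_num) (by norm_num) (by norm_num) rfl rfl (by norm_num) rfl rfl rfl (by norm_num) (by norm_num)
  exact up8 0 0.03 0.4549 0.9514 1.043 0.8906 0.0688 0.6882 0.806 B (by norm_num) ht' hs hD (by norm_num) hJ hc hd (by norm_num) (by norm_num) (by norm_num) hY (by norm_num)
    (ch0 (a := 0) (by norm_num) (sqR h1 h3 (by norm_num)) (by norm_num) h1 h2 (by norm_num) (by norm_num)) (by norm_num)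
    (expn 0 0.3743 (by norm_num) (by norm_num) (by norm_num) (by norm_num)) (by norm_num) (by norm_num)

theorem b8_11_C2R {β r h κ T t s u Y : ℝ} (B : By 1.13 1.26 0.4963 0.4869 20.0845 0.0567 5.441 β r h κ T) (hs : t + κ = s * h)
    (h1 : 0.59 ≤ u) (h2 : u ≤ 0.75) (h3 : u ≤ s) (h4 : s ≤ u + 0) (htp : t + 1 * h ≤ Real.pi / 2)
    (hY : eN r κ * (0.8906 * Real.exp (-(T * (0.5325 * (1 - u) ^ 2)))) ≤ Y) :
    ‖Xf β r h t 2‖ ≤ 0.019101 * Y := by
  refine leE (cR8 1 0.6 0.3873 1.2487 1.3745 _ _ _ _ _ 0.3954 1.9589 0.3753 0.5731 0.7738 0.8906 0.8896 0.007991 0.01758 0.0896 0.7021 0.9757 4.4816 0.0003079 0.001521 B (by norm_num) hs htp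
    (mlo8 B.P (x1 := 1.59) (by linarith) (by norm_num) (by norm_num)) (mhi8 B.P (x2 := 1.75) (by linarith) (by norm_num) (by norm_num)) hY (g0_nn (by norm_num))
    (g0_le (by norm_num) h1 h2 (by norm_num) (by norm_num)) (ch0 (a := 1) (by norm_num) (sqR h1 h3 (by norm_num)) (by norm_num) h1 h2 (by norm_num) (by norm_num))
    (by norm_num) (by norm_num) (by norm_num) (by norm_num) rfl rfl (by norm_num) rfl rfl rfl (by norm_num) (by norm_num) (by norm_num) (by norm_num) (by norm_num) (by norm_num) (by norm_num) (by norm_num) (by norm_num) (by norm_num) (by norm_num) (by norm_num) (by norm_num) (by norm_num) (by norm_num) (by norm_num) (by norm_num) (by norm_num) (by norm_num)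
    (expn 4 0.8403 (by norm_num) (by norm_num) (by norm_num) (by norm_num)) (by norm_num) (by norm_num) (by norm_num) (by norm_num) (by norm_num) (by norm_num) (by norm_num) (by norm_num) (expn 8 0.086 (by norm_num) (by norm_num) (by norm_num) (by norm_num)) (by norm_num) (by norm_num)) (by norm_num) hY (by norm_num)

theorem b8_11_C2 {β r h κ T t s u Y : ℝ} (B : By 1.13 1.26 0.4963 0.4869 20.0845 0.0567 5.441 β r h κ T) (hs : t + κ = s * h)
    (h1 : 0.59 ≤ u) (h2 : u ≤ 0.75) (h3 : u ≤ s) (h4 : s ≤ u + 0)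
    (hY : eN r κ * (0.8906 * Real.exp (-(T * (0.5325 * (1 - u) ^ 2)))) ≤ Y) :
    ‖Xf β r h t 2‖ ≤ 0.019101 * Y := by
  have hp : t + 1 * h ≤ Real.pi / 2 := by
    have e : t + 1 * h = (s + 1) * h - κ := by linear_combination hs
    have := mhi8 B.P (x := s + 1) (x2 := 1.75) (by linarith) (by norm_num) (le_refl _)
    have := B.hk1
    have := Real.pi_gt_d6
    rw [e]
    norm_num at *
    linarith
  exact leE (b8_11_C2R B hs h1 h2 h3 h4 hp hY) (by norm_num) hY (by norm_num)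

theorem b8_11_C3R {β r h κ T t s u Y : ℝ} (B : By 1.13 1.26 0.4963 0.4869 20.0845 0.0567 5.441 β r h κ T) (hs : t + κ = s * h)
    (h1 : 0.59 ≤ u) (h2 : u ≤ 0.75) (h3 : u ≤ s) (h4 : s ≤ u + 0) (htp : t + 2 * h ≤ Real.pi / 2)
    (hY : eN r κ * (0.8906 * Real.exp (-(T * (0.5325 * (1 - u) ^ 2)))) ≤ Y) :
    ‖Xf β r h t 3‖ ≤ 0.00004412 * Y := by
  refine leE (cR8 2 0.46 0.3276 2.0341 2.1599 _ _ _ _ _ 0.2329 2.2361 0.3753 0.3477 0.8367 0.8906 2.108 0.00001046 0.00002627 0.0896 0.7021 0.9757 4.4816 0.000003341 0.00001785 B (by norm_num) hs htp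
    (mlo8 B.P (x1 := 2.59) (by linarith) (by norm_num) (by norm_num)) (mhi8 B.P (x2 := 2.75) (by linarith) (by norm_num) (by norm_num)) hY (g0_nn (by norm_num))
    (g0_le (by norm_num) h1 h2 (by norm_num) (by norm_num)) (ch0 (a := 2) (by norm_num) (sqR h1 h3 (by norm_num)) (by norm_num) h1 h2 (by norm_num) (by norm_num))
    (by norm_num) (by norm_num) (by norm_num) (by norm_num) rfl rfl (by norm_num) rfl rfl rfl (by norm_num) (by norm_num) (by norm_num) (by norm_num) (by norm_num) (by norm_num) (by norm_num) (by norm_num) (by norm_num) (by norm_num) (by norm_num) (by norm_num) (by norm_num) (by norm_num) (by norm_num) (by norm_num) (by norm_num) (by norm_num) (by norm_num)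
    (expn 11 0.4696 (by norm_num) (by norm_num) (by norm_num) (by norm_num)) (by norm_num) (by norm_num) (by norm_num) (by norm_num) (by norm_num) (by norm_num) (by norm_num) (by norm_num) (expn 12 0.613 (by norm_num) (by norm_num) (by norm_num) (by norm_num)) (by norm_num) (by norm_num)) (by norm_num) hY (by norm_num)

theorem b8_11_C3 {β r h κ T t s u Y : ℝ} (B : By 1.13 1.26 0.4963 0.4869 20.0845 0.0567 5.441 β r h κ T) (hs : t + κ = s * h)
    (h1 : 0.59 ≤ u) (h2 : u ≤ 0.75) (h3 : u ≤ s) (h4 : s ≤ u + 0)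
    (hY : eN r κ * (0.8906 * Real.exp (-(T * (0.5325 * (1 - u) ^ 2)))) ≤ Y) :
    ‖Xf β r h t 3‖ ≤ 0.00004412 * Y := by
  have hp : t + 2 * h ≤ Real.pi / 2 := by
    have e : t + 2 * h = (s + 2) * h - κ := by linear_combination hs
    have := mhi8 B.P (x := s + 2) (x2 := 2.75) (by linarith) (by norm_num) (le_refl _)
    have := B.hk1
    have := Real.pi_gt_d6
    rw [e]
    norm_num at *
    linarith
  exact leE (b8_11_C3R B hs h1 h2 h3 h4 hp hY) (by norm_num) hY (by norm_num)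

theorem b8_11_C4 {β r h κ T t s u Y : ℝ} (B : By 1.13 1.26 0.4963 0.4869 20.0845 0.0567 5.441 β r h κ T) (hs : t + κ = s * h)
    (h1 : 0.59 ≤ u) (h2 : u ≤ 0.75) (h3 : u ≤ s) (h4 : s ≤ u + 0)
    (hY : eN r κ * (0.8906 * Real.exp (-(T * (0.5325 * (1 - u) ^ 2)))) ≤ Y) :
    ‖Xf β r h t (4)‖ ≤ 0.0000001938 * Y := by
  refine cU8 0 (3) 1.5595 2.9453 0.1 0.3753 0.1 1.1293 0.8906 0.0896 0.7021 0.9757 4.4816 0.00000002688 0.0000001938 B (by norm_num) hs
    (fullz8 B.P B.hk2 (x1 := 3.59) (by push_cast; linarith) (by norm_num) (by norm_num)) (mhi8 B.P (x2 := 3.75) (by push_cast; linarith) (by norm_num) (by norm_num)) hY (g0_nn (by norm_num)) (g0_le (by norm_num) h1 h2 (by norm_num) (by norm_num))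
    (by norm_num) (by norm_num) (by norm_num) (by norm_num) (by norm_num) (by norm_num) (by norm_num) (by norm_num) (by norm_num) (by norm_num) (by norm_num) (by norm_num) (by norm_num) (by norm_num) (by norm_num) (by norm_num) (by norm_num) (by norm_num) (by norm_num)
    (expn 16 1.5 (by norm_num) (by norm_num) (by norm_num) (by norm_num)) (by norm_num) (by norm_num)

theorem b8_11_Cm1 {β r h κ T t s u Y : ℝ} (B : By 1.13 1.26 0.4963 0.4869 20.0845 0.0567 5.441 β r h κ T) (hs : t + κ = s * h)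
    (h1 : 0.59 ≤ u) (h2 : u ≤ 0.75) (h3 : u ≤ s) (h4 : s ≤ u + 0)
    (hY : eN r κ * (0.8906 * Real.exp (-(T * (0.5325 * (1 - u) ^ 2)))) ≤ Y) :
    ‖Xf β r h t (-1)‖ ≤ 0.0218701165 * Y := by
  refine leE (cL8 (-2) 1.02 0.506 0.9817 1.1075 _ _ _ _ _ 2.8147 1.1993 0.3753 0 0.6789 0.8906 0.7573 0.01624 0.02187 0.0896 0.7021 0.9757 4.4816 0.00000002688 0.0000001165 B (by norm_num) hs
    (mloN8 B.P (x1 := 1.25) (by linarith) (by norm_num) (by norm_num)) (mhiN8 B.P (x2 := 1.41) (by linarith) (by norm_num) (by norm_num)) hY (g0_nn (by norm_num))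
    (g0_le (by norm_num) h1 h2 (by norm_num) (by norm_num)) (ch0 (a := (-2)) (by norm_num) (sqL h2 h4 (by norm_num) (by norm_num)) (by norm_num) h1 h2 (by norm_num) (by norm_num))
    (by norm_num) (by norm_num) (by norm_num) (by norm_num) rfl rfl (by norm_num) rfl rfl rfl (by norm_num) (by norm_num) (by norm_num) (by norm_num) (by norm_num) (by norm_num) (by norm_num) (by norm_num) (by norm_num) (by norm_num) (by norm_num) (by norm_num) (by norm_num) (by norm_num) (by norm_num) (by norm_num) (by norm_num) (by norm_num)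
    (expn 4 0.1204 (by norm_num) (by norm_num) (by norm_num) (by norm_num)) (by norm_num) (by norm_num) (by norm_num) (by norm_num) (by norm_num) (by norm_num) (by norm_num) (by norm_num) (expn 16 1.5 (by norm_num) (by norm_num) (by norm_num) (by norm_num)) (by norm_num) (by norm_num)) (by norm_num) hY (by norm_num)

theorem b8_11_Cm2 {β r h κ T t s u Y : ℝ} (B : By 1.13 1.26 0.4963 0.4869 20.0845 0.0567 5.441 β r h κ T) (hs : t + κ = s * h)
    (h1 : 0.59 ≤ u) (h2 : u ≤ 0.75) (h3 : u ≤ s) (h4 : s ≤ u + 0)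
    (hY : eN r κ * (0.8906 * Real.exp (-(T * (0.5325 * (1 - u) ^ 2)))) ≤ Y) :
    ‖Xf β r h t (-2)‖ ≤ 0.0000021639 * Y := by
  refine leE (cL8 (-3) 0.92 0.4898 1.7671 1.8929 _ _ _ _ _ 4.1515 1.0883 0.3753 0 0.7975 0.8906 2.4463 0.000001658 0.000002027 0.0896 0.7021 0.9757 4.4816 0.00000002688 0.0000001369 B (by norm_num) hs
    (mloN8 B.P (x1 := 2.25) (by linarith) (by norm_num) (by norm_num)) (mhiN8 B.P (x2 := 2.41) (by linarith) (by norm_num) (by norm_num)) hY (g0_nn (by norm_num))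
    (g0_le (by norm_num) h1 h2 (by norm_num) (by norm_num)) (ch0 (a := (-3)) (by norm_num) (sqL h2 h4 (by norm_num) (by norm_num)) (by norm_num) h1 h2 (by norm_num) (by norm_num))
    (by norm_num) (by norm_num) (by norm_num) (by norm_num) rfl rfl (by norm_num) rfl rfl rfl (by norm_num) (by norm_num) (by norm_num) (by norm_num) (by norm_num) (by norm_num) (by norm_num) (by norm_num) (by norm_num) (by norm_num) (by norm_num) (by norm_num) (by norm_num) (by norm_num) (by norm_num) (by norm_num) (by norm_num) (by norm_num)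
    (expn 13 0.3103 (by norm_num) (by norm_num) (by norm_num) (by norm_num)) (by norm_num) (by norm_num) (by norm_num) (by norm_num) (by norm_num) (by norm_num) (by norm_num) (by norm_num) (expn 16 1.5 (by norm_num) (by norm_num) (by norm_num) (by norm_num)) (by norm_num) (by norm_num)) (by norm_num) hY (by norm_num)

theorem b8_11_Cm3 {β r h κ T t s u Y : ℝ} (B : By 1.13 1.26 0.4963 0.4869 20.0845 0.0567 5.441 β r h κ T) (hs : t + κ = s * h)
    (h1 : 0.59 ≤ u) (h2 : u ≤ 0.75) (h3 : u ≤ s) (h4 : s ≤ u + 0)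
    (hY : eN r κ * (0.8906 * Real.exp (-(T * (0.5325 * (1 - u) ^ 2)))) ≤ Y) :
    ‖Xf β r h t (-3)‖ ≤ 0.0000003287 * Y := by
  refine cU8 1 (-4) 2.3449 3.7307 0.02 0.3753 0.1459 0.8862 0.8906 0.0896 0.7021 0.9757 4.4816 0.0000000581 0.0000003287 B (by norm_num) hs
    (full8 B.P B.hk2 (x1 := 4.59) (by push_cast; linarith) (by norm_num) (by norm_num)) (mhi8 B.P (x2 := 4.75) (by push_cast; linarith) (by norm_num) (by norm_num)) hY (g0_nn (by norm_num)) (g0_le (by norm_num) h1 h2 (by norm_num) (by norm_num))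
    (by norm_num) (by norm_num) (by norm_num) (by norm_num) (by norm_num) (by norm_num) (by norm_num) (by norm_num) (by norm_num) (by norm_num) (by norm_num) (by norm_num) (by norm_num) (by norm_num) (by norm_num) (by norm_num) (by norm_num) (by norm_num) (by norm_num)
    (expn 16 0.6661 (by norm_num) (by norm_num) (by norm_num) (by norm_num)) (by norm_num) (by norm_num)

private theorem b8_11_Do_y {κ t : ℝ} (h : DomR κ t) (hk1 : 1.13 ≤ κ) (hk2 : κ ≤ 1.26) (ht1 : 0.589 ≤ t + κ) (ht2 : t + κ ≤ 0.8247) :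
    0.255 ≤ sy κ t ∧ sy κ t ≤ 0.343 := by
  have hy1 : 0.255 ≤ sy κ t := syR_ge h 1.13 1.26 0.589 0.255 1.29046 1.29047 0.26116 0.29122 hk1 hk2 (by linarith) (by norm_num) (by norm_num)
    (expn_ge (by norm_num) (by norm_num)) (expn_le (by norm_num) (by norm_num) (by norm_num)) (by norm_num)
    (by norm_num) (by norm_num) (by norm_num) (by norm_num) (by norm_num) (by norm_num)
  have hy2 : sy κ t ≤ 0.343 := syR_le h 1.13 1.26 0.8247 0.343 1.40916 0.3725 0.3836 0.42774 hk1 hk2 (by linarith) (by norm_num) (by norm_num)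
    (expn_ge (by norm_num) (by norm_num)) (by norm_num) (by norm_num) (Or.inr ((mul_le_mul_of_nonneg_left (expn_le (E := 1.40917) (by norm_num) (by norm_num) (by norm_num)) (by norm_num)).trans (by norm_num))) (by norm_num) (by norm_num) (by norm_num)
  exact ⟨by linarith, by linarith⟩

theorem b8_11_Do {β r h κ T t s u Y : ℝ} (B : By 1.13 1.26 0.4963 0.4869 20.0845 0.0567 5.441 β r h κ T) (hs : t + κ = s * h)
    (h1 : 0.75 ≤ u) (h2 : u ≤ 1.05) (h3 : u ≤ s) (h4 : s ≤ u + 0)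
    (hY : eN r κ * (0.8906 * Real.exp (-(T * (0.5325 * (1 - u) ^ 2)))) ≤ Y) :
    ‖Xf β r h t 1‖ ≤ 0.3706 * Y := by
  obtain ⟨t', ht'⟩ : ∃ t', t' = t + 0 * h := ⟨_, rfl⟩
  have hτ : t' + κ = (s + 0) * h := by rw [ht']; linear_combination hs
  have a1 : 0.589 ≤ t' + κ := by rw [hτ]; exact mlo8 B.P (x1 := 0.75) (by linarith) (by norm_num) (by norm_num)
  have a2 : t' + κ ≤ 0.8247 := by rw [hτ]; exact mhi8 B.P (x2 := 1.05) (by linarith) (by norm_num) (by norm_num)
  have hk := B.hk1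
  have hk' := B.P.hκ1
  have hD : DomR κ t' := dom7 B.P.κ0 (by linarith) (by linarith)
  have hy := b8_11_Do_y hD B.hk1 B.hk2 a1 a2
  have hJ : ‖HH β (sg κ t') - 1‖ ≤ 0.03 := JB8_k1 hD B.P.hβ (by linarith) B.P.hκ1 (by linarith) (by linarith) B.P.βκ B.P.βR
  have hd := Dlo7 hD (1.13 ^ 2) (1.26 ^ 2) 0.9519 0.255 0.343 0.255 0.60049 hy.1 hy.2 (pow_le_pow_left₀ (by norm_num) B.hk1 2) (pow_le_pow_left₀ B.P.κ0.le B.hk2 2)
      (by rw [show (-2 * 0.255 : ℝ) = -0.51 by norm_num]; exact expm_ge (by norm_num) (by norm_num) (by norm_num) (by norm_num)) (by norm_num) (by norm_num) (by norm_num) (by norm_num) (by norm_num)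
  have hc : sE κ t' ≤ 1 - 0.4353 * (t' + κ) ^ 2 / (1 + κ ^ 2) := VR8 0.8 0.4353 0.589 0.8247 _ _ _ _ _ B hD a1 a2 (by norm_num) (by norm_num) (by norm_num) (by norm_num) rfl rfl (by norm_num) rfl rfl rfl (by norm_num) (by norm_num)
  exact up8 0 0.03 0.4353 0.9519 1.0428 0.8906 0.2115 0.3165 0.3706 B (by norm_num) ht' hs hD (by norm_num) hJ hc hd (by norm_num) (by norm_num) (by norm_num) hY (by norm_num)
    (ch0 (a := 0) (by norm_num) (sqR h1 h3 (by norm_num)) (by norm_num) h1 h2 (by norm_num) (by norm_num)) (by norm_num)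
    (expn 1 0.1507 (by norm_num) (by norm_num) (by norm_num) (by norm_num)) (by norm_num) (by norm_num)

theorem b8_11_D2R {β r h κ T t s u Y : ℝ} (B : By 1.13 1.26 0.4963 0.4869 20.0845 0.0567 5.441 β r h κ T) (hs : t + κ = s * h)
    (h1 : 0.75 ≤ u) (h2 : u ≤ 1.05) (h3 : u ≤ s) (h4 : s ≤ u + 0) (htp : t + 1 * h ≤ Real.pi / 2)
    (hY : eN r κ * (0.8906 * Real.exp (-(T * (0.5325 * (1 - u) ^ 2)))) ≤ Y) :
    ‖Xf β r h t 2‖ ≤ 0.0071329 * Y := by
  refine leE (cR8 1 0.54 0.3647 1.3744 1.6101 _ _ _ _ _ 0.3523 2.0163 0.3753 0.5562 0.7904 0.8906 1.0836 0.002788 0.006312 0.0333 0.7021 0.9909 4.4816 0.0001627 0.0008209 B (by norm_num) hs htp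
    (mlo8 B.P (x1 := 1.75) (by linarith) (by norm_num) (by norm_num)) (mhi8 B.P (x2 := 2.05) (by linarith) (by norm_num) (by norm_num)) hY (g0_nn (by norm_num))
    (g0_le (by norm_num) h1 h2 (by norm_num) (by norm_num)) (ch0 (a := 1) (by norm_num) (sqR h1 h3 (by norm_num)) (by norm_num) h1 h2 (by norm_num) (by norm_num))
    (by norm_num) (by norm_num) (by norm_num) (by norm_num) rfl rfl (by norm_num) rfl rfl rfl (by norm_num) (by norm_num) (by norm_num) (by norm_num) (by norm_num) (by norm_num) (by norm_num) (by norm_num) (by norm_num) (by norm_num) (by norm_num) (by norm_num) (by norm_num) (by norm_num) (by norm_num) (by norm_num) (by norm_num) (by norm_num) (by norm_num)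
    (expn 5 0.8958 (by norm_num) (by norm_num) (by norm_num) (by norm_num)) (by norm_num) (by norm_num) (by norm_num) (by norm_num) (by norm_num) (by norm_num) (by norm_num) (by norm_num) (expn 8 0.7307 (by norm_num) (by norm_num) (by norm_num) (by norm_num)) (by norm_num) (by norm_num)) (by norm_num) hY (by norm_num)

theorem b8_11_D2 {β r h κ T t s u Y : ℝ} (B : By 1.13 1.26 0.4963 0.4869 20.0845 0.0567 5.441 β r h κ T) (hs : t + κ = s * h)
    (h1 : 0.75 ≤ u) (h2 : u ≤ 1.05) (h3 : u ≤ s) (h4 : s ≤ u + 0)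
    (hY : eN r κ * (0.8906 * Real.exp (-(T * (0.5325 * (1 - u) ^ 2)))) ≤ Y) :
    ‖Xf β r h t 2‖ ≤ 0.0071329 * Y := by
  have hp : t + 1 * h ≤ Real.pi / 2 := by
    have e : t + 1 * h = (s + 1) * h - κ := by linear_combination hs
    have := mhi8 B.P (x := s + 1) (x2 := 2.05) (by linarith) (by norm_num) (le_refl _)
    have := B.hk1
    have := Real.pi_gt_d6
    rw [e]
    norm_num at *
    linarith
  exact leE (b8_11_D2R B hs h1 h2 h3 h4 hp hY) (by norm_num) hY (by norm_num)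

theorem b8_11_D3R {β r h κ T t s u Y : ℝ} (B : By 1.13 1.26 0.4963 0.4869 20.0845 0.0567 5.441 β r h κ T) (hs : t + κ = s * h)
    (h1 : 0.75 ≤ u) (h2 : u ≤ 1.05) (h3 : u ≤ s) (h4 : s ≤ u + 0) (htp : t + 2 * h ≤ Real.pi / 2)
    (hY : eN r κ * (0.8906 * Real.exp (-(T * (0.5325 * (1 - u) ^ 2)))) ≤ Y) :
    ‖Xf β r h t 3‖ ≤ 0.000013979 * Y := by
  refine leE (cR8 2 0.44 0.3154 2.1598 2.3955 _ _ _ _ _ 0.1746 2.4031 0.3753 0.3107 0.8592 0.8906 2.3519 0.000002796 0.000007545 0.0333 0.7021 0.9909 4.4816 0.000001173 0.000006434 B (by norm_num) hs htp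
    (mlo8 B.P (x1 := 2.75) (by linarith) (by norm_num) (by norm_num)) (mhi8 B.P (x2 := 3.05) (by linarith) (by norm_num) (by norm_num)) hY (g0_nn (by norm_num))
    (g0_le (by norm_num) h1 h2 (by norm_num) (by norm_num)) (ch0 (a := 2) (by norm_num) (sqR h1 h3 (by norm_num)) (by norm_num) h1 h2 (by norm_num) (by norm_num))
    (by norm_num) (by norm_num) (by norm_num) (by norm_num) rfl rfl (by norm_num) rfl rfl rfl (by norm_num) (by norm_num) (by norm_num) (by norm_num) (by norm_num) (by norm_num) (by norm_num) (by norm_num) (by norm_num) (by norm_num) (by norm_num) (by norm_num) (by norm_num) (by norm_num) (by norm_num) (by norm_num) (by norm_num) (by norm_num) (by norm_num)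
    (expn 12 0.7966 (by norm_num) (by norm_num) (by norm_num) (by norm_num)) (by norm_num) (by norm_num) (by norm_num) (by norm_num) (by norm_num) (by norm_num) (by norm_num) (by norm_num) (expn 13 0.6614 (by norm_num) (by norm_num) (by norm_num) (by norm_num)) (by norm_num) (by norm_num)) (by norm_num) hY (by norm_num)

theorem b8_11_D3 {β r h κ T t s u Y : ℝ} (B : By 1.13 1.26 0.4963 0.4869 20.0845 0.0567 5.441 β r h κ T) (hs : t + κ = s * h)
    (h1 : 0.75 ≤ u) (h2 : u ≤ 1.05) (h3 : u ≤ s) (h4 : s ≤ u + 0)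
    (hY : eN r κ * (0.8906 * Real.exp (-(T * (0.5325 * (1 - u) ^ 2)))) ≤ Y) :
    ‖Xf β r h t 3‖ ≤ 0.000013979 * Y := by
  have hp : t + 2 * h ≤ Real.pi / 2 := by
    have e : t + 2 * h = (s + 2) * h - κ := by linear_combination hs
    have := mhi8 B.P (x := s + 2) (x2 := 3.05) (by linarith) (by norm_num) (le_refl _)
    have := B.hk1
    have := Real.pi_gt_d6
    rw [e]
    norm_num at *
    linarith
  exact leE (b8_11_D3R B hs h1 h2 h3 h4 hp hY) (by norm_num) hY (by norm_num)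

theorem b8_11_D4 {β r h κ T t s u Y : ℝ} (B : By 1.13 1.26 0.4963 0.4869 20.0845 0.0567 5.441 β r h κ T) (hs : t + κ = s * h)
    (h1 : 0.75 ≤ u) (h2 : u ≤ 1.05) (h3 : u ≤ s) (h4 : s ≤ u + 0)
    (hY : eN r κ * (0.8906 * Real.exp (-(T * (0.5325 * (1 - u) ^ 2)))) ≤ Y) :
    ‖Xf β r h t (4)‖ ≤ 0.0000001697 * Y := by
  refine cU8 0 (3) 1.6852 3.1809 0.1 0.3753 0.1 0.9887 0.8906 0.0333 0.7021 0.9909 4.4816 0.00000002688 0.0000001697 B (by norm_num) hs
    (fullz8 B.P B.hk2 (x1 := 3.75) (by push_cast; linarith) (by norm_num) (by norm_num)) (mhi8 B.P (x2 := 4.05) (by push_cast; linarith) (by norm_num) (by norm_num)) hY (g0_nn (by norm_num)) (g0_le (by norm_num) h1 h2 (by norm_num) (by norm_num))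
    (by norm_num) (by norm_num) (by norm_num) (by norm_num) (by norm_num) (by norm_num) (by norm_num) (by norm_num) (by norm_num) (by norm_num) (by norm_num) (by norm_num) (by norm_num) (by norm_num) (by norm_num) (by norm_num) (by norm_num) (by norm_num) (by norm_num)
    (expn 16 1.5 (by norm_num) (by norm_num) (by norm_num) (by norm_num)) (by norm_num) (by norm_num)

theorem b8_11_Dm1 {β r h κ T t s u Y : ℝ} (B : By 1.13 1.26 0.4963 0.4869 20.0845 0.0567 5.441 β r h κ T) (hs : t + κ = s * h)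
    (h1 : 0.75 ≤ u) (h2 : u ≤ 1.05) (h3 : u ≤ s) (h4 : s ≤ u + 0)
    (hY : eN r κ * (0.8906 * Real.exp (-(T * (0.5325 * (1 - u) ^ 2)))) ≤ Y) :
    ‖Xf β r h t (-1)‖ ≤ 0.1226001117 * Y := by
  refine leE (cL8 (-2) 1 0.5002 0.7461 0.9818 _ _ _ _ _ 2.3042 1.2608 0.3753 0 0.6509 0.8906 0.45 0.08654 0.1226 0.0333 0.7021 0.9909 4.4816 0.00000002688 0.0000001117 B (by norm_num) hs
    (mloN8 B.P (x1 := 0.95) (by linarith) (by norm_num) (by norm_num)) (mhiN8 B.P (x2 := 1.25) (by linarith) (by norm_num) (by norm_num)) hY (g0_nn (by norm_num))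
    (g0_le (by norm_num) h1 h2 (by norm_num) (by norm_num)) (ch0 (a := (-2)) (by norm_num) (sqL h2 h4 (by norm_num) (by norm_num)) (by norm_num) h1 h2 (by norm_num) (by norm_num))
    (by norm_num) (by norm_num) (by norm_num) (by norm_num) rfl rfl (by norm_num) rfl rfl rfl (by norm_num) (by norm_num) (by norm_num) (by norm_num) (by norm_num) (by norm_num) (by norm_num) (by norm_num) (by norm_num) (by norm_num) (by norm_num) (by norm_num) (by norm_num) (by norm_num) (by norm_num) (by norm_num) (by norm_num) (by norm_num)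
    (expn 2 0.4484 (by norm_num) (by norm_num) (by norm_num) (by norm_num)) (by norm_num) (by norm_num) (by norm_num) (by norm_num) (by norm_num) (by norm_num) (by norm_num) (by norm_num) (expn 16 1.5 (by norm_num) (by norm_num) (by norm_num) (by norm_num)) (by norm_num) (by norm_num)) (by norm_num) hY (by norm_num)

theorem b8_11_Dm2 {β r h κ T t s u Y : ℝ} (B : By 1.13 1.26 0.4963 0.4869 20.0845 0.0567 5.441 β r h κ T) (hs : t + κ = s * h)
    (h1 : 0.75 ≤ u) (h2 : u ≤ 1.05) (h3 : u ≤ s) (h4 : s ≤ u + 0)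
    (hY : eN r κ * (0.8906 * Real.exp (-(T * (0.5325 * (1 - u) ^ 2)))) ≤ Y) :
    ‖Xf β r h t (-2)‖ ≤ 0.0000515241 * Y := by
  refine leE (cL8 (-3) 0.94 0.489 1.5315 1.7672 _ _ _ _ _ 3.642 1.1245 0.3753 0 0.7815 0.8906 1.858 0.0000407 0.00005139 0.0333 0.7021 0.9909 4.4816 0.00000002688 0.0000001341 B (by norm_num) hs
    (mloN8 B.P (x1 := 1.95) (by linarith) (by norm_num) (by norm_num)) (mhiN8 B.P (x2 := 2.25) (by linarith) (by norm_num) (by norm_num)) hY (g0_nn (by norm_num))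
    (g0_le (by norm_num) h1 h2 (by norm_num) (by norm_num)) (ch0 (a := (-3)) (by norm_num) (sqL h2 h4 (by norm_num) (by norm_num)) (by norm_num) h1 h2 (by norm_num) (by norm_num))
    (by norm_num) (by norm_num) (by norm_num) (by norm_num) rfl rfl (by norm_num) rfl rfl rfl (by norm_num) (by norm_num) (by norm_num) (by norm_num) (by norm_num) (by norm_num) (by norm_num) (by norm_num) (by norm_num) (by norm_num) (by norm_num) (by norm_num) (by norm_num) (by norm_num) (by norm_num) (by norm_num) (by norm_num) (by norm_num)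
    (expn 10 0.1093 (by norm_num) (by norm_num) (by norm_num) (by norm_num)) (by norm_num) (by norm_num) (by norm_num) (by norm_num) (by norm_num) (by norm_num) (by norm_num) (by norm_num) (expn 16 1.5 (by norm_num) (by norm_num) (by norm_num) (by norm_num)) (by norm_num) (by norm_num)) (by norm_num) hY (by norm_num)

theorem b8_11_Dm3 {β r h κ T t s u Y : ℝ} (B : By 1.13 1.26 0.4963 0.4869 20.0845 0.0567 5.441 β r h κ T) (hs : t + κ = s * h)
    (h1 : 0.75 ≤ u) (h2 : u ≤ 1.05) (h3 : u ≤ s) (h4 : s ≤ u + 0)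
    (hY : eN r κ * (0.8906 * Real.exp (-(T * (0.5325 * (1 - u) ^ 2)))) ≤ Y) :
    ‖Xf β r h t (-3)‖ ≤ 0.00001028 * Y := by
  refine cU8 1 (-4) 2.4706 3.9663 0.02 0.3753 0.3329 0.8826 0.8906 0.0333 0.7021 0.9909 4.4816 0.000001823 0.00001028 B (by norm_num) hs
    (full8 B.P B.hk2 (x1 := 4.75) (by push_cast; linarith) (by norm_num) (by norm_num)) (mhi8 B.P (x2 := 5.05) (by push_cast; linarith) (by norm_num) (by norm_num)) hY (g0_nn (by norm_num)) (g0_le (by norm_num) h1 h2 (by norm_num) (by norm_num))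
    (by norm_num) (by norm_num) (by norm_num) (by norm_num) (by norm_num) (by norm_num) (by norm_num) (by norm_num) (by norm_num) (by norm_num) (by norm_num) (by norm_num) (by norm_num) (by norm_num) (by norm_num) (by norm_num) (by norm_num) (by norm_num) (by norm_num)
    (expn 13 0.2156 (by norm_num) (by norm_num) (by norm_num) (by norm_num)) (by norm_num) (by norm_num)

private theorem b8_11_yS1 {κ t : ℝ} (h : DomR κ t) (hk1 : 1.13 ≤ κ) (hk2 : κ ≤ 1.26) (ht1 : 0.3377 ≤ t + κ) (ht2 : t + κ ≤ 0.4634) :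
    0.155 ≤ sy κ t ∧ sy κ t ≤ 0.209 := by
  have hy1 : 0.155 ≤ sy κ t := syR_ge h 1.13 1.26 0.3377 0.155 1.16765 1.16766 0.14363 0.16017 hk1 hk2 (by linarith) (by norm_num) (by norm_num)
    (expn_ge (by norm_num) (by norm_num)) (expn_le (by norm_num) (by norm_num) (by norm_num)) (by norm_num)
    (by norm_num) (by norm_num) (by norm_num) (by norm_num) (by norm_num) (by norm_num)
  have hy2 : sy κ t ≤ 0.209 := syR_le h 1.13 1.26 0.4634 0.209 1.23244 0.2024 0.20442 0.22795 hk1 hk2 (by linarith) (by norm_num) (by norm_num)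
    (expn_ge (by norm_num) (by norm_num)) (by norm_num) (by norm_num) (Or.inr ((mul_le_mul_of_nonneg_left (expn_le (E := 1.23245) (by norm_num) (by norm_num) (by norm_num)) (by norm_num)).trans (by norm_num))) (by norm_num) (by norm_num) (by norm_num)
  exact ⟨by linarith, by linarith⟩

private theorem b8_11_yS0 {κ t : ℝ} (h : DomR κ t) (hk1 : 1.13 ≤ κ) (hk2 : κ ≤ 1.26) (ht1 : (-0.4477) ≤ t + κ) (ht2 : t + κ ≤ (-0.322)) :
    (-0.237) ≤ sy κ t ∧ sy κ t ≤ (-0.161) := by
  have hy1 : -0.237 ≤ sy κ t := syL_ge h 1.13 1.26 0.4477 0.237 0.78899 0.789 0.154 0.1484 0.16549 hk1 hk2 (by linarith) (by norm_num) (by norm_num) (by norm_num)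
    (expm_ge (by norm_num) (by norm_num) (by norm_num) (by norm_num)) (expm_le (by norm_num) (by norm_num) (by norm_num)) (by norm_num)
    (by norm_num) (by norm_num) (by norm_num) (by norm_num) (by norm_num) (by norm_num)
  have hy2 : sy κ t ≤ -0.161 := syL_le h 1.13 1.26 0.322 0.161 0.85129 0.8513 0.10877 0.1213 hk1 hk2 (by linarith) (by norm_num) (by norm_num) (by norm_num)
    (expm_ge (by norm_num) (by norm_num) (by norm_num) (by norm_num)) (expm_le (by norm_num) (by norm_num) (by norm_num)) (by norm_num)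
    (by norm_num) (by norm_num) (by norm_num) (by norm_num) (by norm_num) (by norm_num)
  exact ⟨by linarith, by linarith⟩

theorem b8_11_S {β r h κ T t s : ℝ} (B : By 1.13 1.26 0.4963 0.4869 20.0845 0.0567 5.441 β r h κ T) (hs : t + κ = s * h)
    (h1 : 0.43 ≤ s) (h2 : s ≤ 0.59) :
    ‖Ld β r h t 0‖ ≤ r * 1.26745 + 1.3033 ∧ ‖Ld β r h t 1‖ ≤ r * 0.85642 + 0.5943 ∧
      T * 1.0972 - (0.3612 + 1.0118 + 0.0789 + 0) ≤ (Ld β r h t 1 - Ld β r h t 0).im := by
  have a1 : 0.3377 ≤ t + κ := by rw [hs]; exact mlo8 B.P h1 (by norm_num) (by norm_num)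
  have a2 : t + κ ≤ 0.4634 := by rw [hs]; exact mhi8 B.P h2 (by norm_num) (by norm_num)
  have hτ : t - h + κ = (s + (-1)) * h := by linear_combination hs
  have b1 : (-0.4477) ≤ t - h + κ := by rw [hτ]; have := mhiN8 B.P (x := s + (-1)) (x2 := 0.57) (τ2 := 0.4477) (by linarith) (by norm_num) (by norm_num); linarith
  have b2 : t - h + κ ≤ (-0.322) := by rw [hτ]; have := mloN8 B.P (x := s + (-1)) (x1 := 0.41) (τ1 := 0.322) (by linarith) (by norm_num) (by norm_num); linarith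
  have hk := B.hk1
  have hk2 := B.hk2
  have hk' := B.P.hκ1
  have hD1 : DomR κ t := dom7 B.P.κ0 (by linarith) (by linarith)
  have hD0 : DomR κ (t - h) := dom7 B.P.κ0 (by linarith) (by linarith)
  have hy1 := b8_11_yS1 hD1 B.hk1 B.hk2 a1 a2
  have hy0 := b8_11_yS0 hD0 B.hk1 B.hk2 b1 b2
  have hd1 := Dlo7 hD1 (1.13 ^ 2) (1.26 ^ 2) 0.9519 0.155 0.209 0.2036 0.66551 hy1.1 hy1.2 (pow_le_pow_left₀ (by norm_num) B.hk1 2) (pow_le_pow_left₀ B.P.κ0.le B.hk2 2)
      (by rw [show (-2 * 0.2036 : ℝ) = -0.4072 by norm_num]; exact expm_ge (by norm_num) (by norm_num) (by norm_num) (by norm_num)) (by norm_num) (by norm_num) (by norm_num) (by norm_num) (by norm_num)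
  have hd0 := Dlo7 hD0 (1.13 ^ 2) (1.26 ^ 2) 1.0716 (-0.237) (-0.161) (-0.161) 1.37988 hy0.1 hy0.2 (pow_le_pow_left₀ (by norm_num) B.hk1 2) (pow_le_pow_left₀ B.P.κ0.le B.hk2 2)
      (by rw [show (-2 * (-0.161) : ℝ) = 0.322 by norm_num]; exact expn_ge (by norm_num) (by norm_num)) (by norm_num) (by norm_num) (by norm_num) (by norm_num) (by norm_num)
  have hJ1 := JB8_S1 hD1 B.P.hβ (by linarith) (by linarith) (by linarith) (by linarith) B.P.βκ B.P.βR
  have hJ0 := JB8_S0 hD0 B.P.hβ (by linarith) (by linarith) (by linarith) (by linarith) B.P.βκ B.P.βR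
  obtain ⟨m1, n1⟩ := copy8 (t := t) (t' := t) (k := 1) 1.13 1.26 0.9519 0.155 0.85642 0.7335 0.6861 0.6793 0.05 0.1 0.3612 0.5943 B.P (by push_cast; ring) hD1 B.hk1 B.hk2 (by norm_num) (by norm_num) (by norm_num) (by norm_num) hJ1
    hy1.1 (by norm_num) hd1 (by norm_num) (expm_le (by norm_num) (by norm_num) (by norm_num)) (by norm_num) (by norm_num) (by norm_num) (by norm_num) (by norm_num) (by norm_num) (by norm_num) (by norm_num)
  obtain ⟨m0, n0⟩ := copy8 (t := t) (t' := t - h) (k := 0) 1.13 1.26 1.0716 (-0.237) 1.26745 1.6065 0.9106 0.6402 0.1 0.1 1.0118 1.3033 B.P (by push_cast; ring) hD0 B.hk1 B.hk2 (by norm_num) (by norm_num) (by norm_num) (by norm_num) hJ0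
    hy0.1 (by norm_num) hd0 (by norm_num) (by rw [neg_neg]; exact expn_le (by norm_num) (by norm_num) (by norm_num)) (by norm_num) (by norm_num) (by norm_num) (by norm_num) (by norm_num) (by norm_num) (by norm_num) (by norm_num)
  refine ⟨m0, m1, ?_⟩
  have q1 := corr1_ge hD1 1.13 1.26 0.9519 0.0789 B.hk1 B.hk2 (by norm_num) (by linarith) hd1 (by norm_num) (by norm_num) (Or.inr (by norm_num))
  have q0 := corr0_le hD0 1.13 1.26 1.0716 1.26745 0 B.hk1 B.hk2 (by norm_num) (by linarith) hd0 (by norm_num) (by norm_num)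
    ((Real.exp_le_exp.2 (by linarith)).trans (show Real.exp (-(-0.237)) ≤ 1.26745 from (by rw [neg_neg]; exact expn_le (by norm_num) (by norm_num) (by norm_num)))) (Or.inl (by norm_num))
  exact slope8 0.797 0.955 1.0972 0.43 0.59 0.3612 1.0118 0.0789 0 B.P hs h1 h2 (pR_050 hD1 (by linarith) (by linarith) (by linarith)) (pL_050 hD0 (by linarith) (by linarith) (by linarith)) n1 n0 q1 q0
    (by norm_num) (by norm_num) (by norm_num)

theorem boxb8_11 {p : ℤ} (hp : IsCoprime (8 : ℤ) p) {β r h κ T : ℝ} (P : Q8 β r h κ T) (hk1 : 1.13 ≤ κ) (hk2 : κ ≤ 1.26) :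
    Circ (2 * Real.pi * p / (8 : ℕ) + β) r := by
  have B : By 1.13 1.26 0.4963 0.4869 20.0845 0.0567 5.441 β r h κ T :=
    { P := P, hk1 := hk1, hk2 := hk2, hψ := (psi_hi hk1 (by norm_num)).trans (by norm_num), hψ1 := le_trans (by norm_num) (psi1_hi hk2 (by linarith)), hR0 := P.Rge (k1 := 1.13) (by norm_num) hk1 (by norm_num), hβ0 := P.β56, hT0 := P.T5 }
  have hT := B.hT0
  have hr := P.r_le (ν := 4.1949) hk2 (by norm_num)
  have hbh : β ≤ 0.0722 * h := by
    have h1 := B.hβ0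
    have h2 := mul_le_mul_of_nonneg_left P.hlo (by norm_num : (0 : ℝ) ≤ 0.0722)
    linarith
  refine fin8 hp P (slo := 0.43) (shi := 0.59) (bb := 0.0722) (ℓ1 := 0.9699) (ℓ0 := 0.8906) (C0 := 0.5325) (e2 := 0.01924) (e3 := 0.00015422) (e4 := 0.000001476) (f1 := 0.0093311199) (g1 := 0.0165301191) (f2 := 0.0000012615) (f3 := 0.0000001803)
    (a := 1.04) (m := T * 1.0972 - (1.4519)) (η := 0.0288) (Λ0 := r * 1.26745 + 1.3033) (Λ1 := r * 0.85642 + 0.5943) (S1 := 0.0584)
    (by norm_num) (by norm_num) (by linarith) (by norm_num) (by norm_num) hbh (by norm_num)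
    ?_ ?_ ?_ ?_ ?_ ?_ ?_ ?_ ?_ ?_ ?_ ?_ ?_ ?_ (by norm_num) (by norm_num) (by norm_num) ?_
  · intro t s hs h1 h2
    exact b8_11_L1 B hs (by linarith) h2
  · intro t s hs h1 h2
    exact b8_11_L0 B hs h1 (by linarith)
  · intro t s u Y hs h1 h2 h3 h4 hY
    have hY' : eN r κ * (0.9699 * Real.exp (-(T * (1 / 2 * u ^ 2)))) ≤ Y := hY
    rcases le_total u 0.5 with hc | hc
    · exact leE (b8_11_W2a B hs h1 hc h3 h4 hY') (by norm_num) hY' (by norm_num)
    · exact leE (b8_11_W2b B hs hc h2 h3 h4 hY') (by norm_num) hY' (by norm_num)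
  · intro t s u Y hs h1 h2 h3 h4 hY
    exact b8_11_W3 B hs h1 h2 h3 h4 hY
  · intro t s u Y hs h1 h2 h3 h4 hY
    exact b8_11_W4 B hs h1 h2 h3 h4 hY
  · intro t s u Y hs h1 h2 h3 h4 hY
    exact b8_11_Wm1 B hs h1 h2 h3 h4 hY
  · intro t s u Y hs h1 h2 h3 h4 hY
    exact b8_11_Wm1p B hs h1 h2 h3 h4 hY
  · intro t s u Y hs h1 h2 h3 h4 hY
    exact b8_11_Wm2 B hs h1 h2 h3 h4 hY
  · intro t s u Y hs h1 h2 h3 h4 hY
    exact b8_11_Wm3 B hs h1 h2 h3 h4 hY
  · intro t s hs h1 h2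
    have hY := b8_11_L1 B hs (by linarith) (by linarith)
    have hYp := lt_of_lt_of_le (mul_pos (eN_pos r κ) (mul_pos (by norm_num : (0 : ℝ) < 0.9699) (Real.exp_pos _))) hY
    rcases le_total s 0.37 with hc | hc
    · have x0 := b8_11_Ao B hs h1 hc le_rfl (by linarith) hY
      have x2 := b8_11_A2 B hs h1 hc le_rfl (by linarith) hY
      have x3 := b8_11_A3 B hs h1 hc le_rfl (by linarith) hY
      have x4 := b8_11_A4 B hs h1 hc le_rfl (by linarith) hY
      have xm1 := b8_11_Am1 B hs h1 hc le_rfl (by linarith) hY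
      have xm2 := b8_11_Am2 B hs h1 hc le_rfl (by linarith) hY
      have xm3 := b8_11_Am3 B hs h1 hc le_rfl (by linarith) hY
      linarith
    · have x0 := b8_11_Bo B hs hc h2 le_rfl (by linarith) hY
      have x2 := b8_11_B2 B hs hc h2 le_rfl (by linarith) hY
      have x3 := b8_11_B3 B hs hc h2 le_rfl (by linarith) hY
      have x4 := b8_11_B4 B hs hc h2 le_rfl (by linarith) hY
      have xm1 := b8_11_Bm1 B hs hc h2 le_rfl (by linarith) hY
      have xm2 := b8_11_Bm2 B hs hc h2 le_rfl (by linarith) hY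
      have xm3 := b8_11_Bm3 B hs hc h2 le_rfl (by linarith) hY
      linarith
  · intro t s hs h1 h2
    have hY := b8_11_L0 B hs (by linarith) (by linarith)
    have hYp := lt_of_lt_of_le (mul_pos (eN_pos r κ) (mul_pos (by norm_num : (0 : ℝ) < 0.8906) (Real.exp_pos _))) hY
    rcases le_total s 0.75 with hc | hc
    · have x0 := b8_11_Co B hs h1 hc le_rfl (by linarith) hY
      have x2 := b8_11_C2 B hs h1 hc le_rfl (by linarith) hY
      have x3 := b8_11_C3 B hs h1 hc le_rfl (by linarith) hY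
      have x4 := b8_11_C4 B hs h1 hc le_rfl (by linarith) hY
      have xm1 := b8_11_Cm1 B hs h1 hc le_rfl (by linarith) hY
      have xm2 := b8_11_Cm2 B hs h1 hc le_rfl (by linarith) hY
      have xm3 := b8_11_Cm3 B hs h1 hc le_rfl (by linarith) hY
      linarith
    · have x0 := b8_11_Do B hs hc h2 le_rfl (by linarith) hY
      have x2 := b8_11_D2 B hs hc h2 le_rfl (by linarith) hY
      have x3 := b8_11_D3 B hs hc h2 le_rfl (by linarith) hY
      have x4 := b8_11_D4 B hs hc h2 le_rfl (by linarith) hY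
      have xm1 := b8_11_Dm1 B hs hc h2 le_rfl (by linarith) hY
      have xm2 := b8_11_Dm2 B hs hc h2 le_rfl (by linarith) hY
      have xm3 := b8_11_Dm3 B hs hc h2 le_rfl (by linarith) hY
      linarith
  · intro t s hs h1 h2
    exact (b8_11_S B hs h1 h2).1
  · intro t s hs h1 h2
    exact (b8_11_S B hs h1 h2).2.1
  · intro t s hs h1 h2
    have := (b8_11_S B hs h1 h2).2.2
    linarith
  · linarith

end Sok
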