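import Pool.Agent.Lib.MP_816dec_an.R1b8D
import Pool.Agent.Lib.MP_816dec_an.JB8a
import Pool.Agent.Lib.MP_816dec_an.JB8b
import Pool.Agent.Lib.MP_816dec_an.JB8c
import Pool.Agent.Lib.MP_816dec_an.JB8w

/-!
MP_816dec_an (A3, row R1), b = 8: box 12
-/

set_option autoImplicit false
set_option maxHeartbeats 4000000

open Complex Set Filter Topology Metric

namespace Sok

private theorem b8_12_yL1 {κ t : ℝ} (h : DomR κ t) (hk1 : 1.26 ≤ κ) (hk2 : κ ≤ 1.39) (ht1 : 0 ≤ t + κ) (ht2 : t + κ ≤ 0.4634) :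
    0 ≤ sy κ t ∧ sy κ t ≤ 0.209 := by
  have hy1 : 0 ≤ sy κ t := sy_nonneg h (by linarith)
  have hy2 : sy κ t ≤ 0.209 := syR_le h 1.26 1.39 0.4634 0.209 1.23244 0.1884 0.1853 0.20444 hk1 hk2 (by linarith) (by norm_num) (by norm_num)
    (expn_ge (by norm_num) (by norm_num)) (by norm_num) (by norm_num) (Or.inr ((mul_le_mul_of_nonneg_left (expn_le (E := 1.23245) (by norm_num) (by norm_num) (by norm_num)) (by norm_num)).trans (by norm_num))) (by norm_num) (by norm_num) (by norm_num)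
  exact ⟨by linarith, by linarith⟩

theorem b8_12_L1 {β r h κ T t s : ℝ} (B : By 1.26 1.39 0.487 0.474 22.8252 0.0567 5.441 β r h κ T) (hs : t + κ = s * h)
    (h1 : 0.05 ≤ s) (h2 : s ≤ 0.59) :
    eN r κ * (0.9699 * Real.exp (-(T * (1 / 2 * s ^ 2)))) ≤ ‖Xf β r h t 1‖ := by
  have a1 : 0.0392 ≤ t + κ := by rw [hs]; exact mlo8 B.P h1 (by norm_num) (by norm_num)
  have a2 : t + κ ≤ 0.4634 := by rw [hs]; exact mhi8 B.P h2 (by norm_num) (by norm_num)
  have hk := B.hk1
  have hD : DomR κ t := dom7 B.P.κ0 (by linarith) (by linarith)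
  have hy := b8_12_yL1 hD B.hk1 B.hk2 (by linarith) a2
  have hJ := JB8_k1 hD B.P.hβ (by linarith) B.P.hκ1 (by linarith) (by linarith) B.P.βκ B.P.βR
  have hd := Dup7 hD (1.26 ^ 2) (1.39 ^ 2) 1 0 0.209 1 0.65837 hy.1 hy.2 (pow_le_pow_left₀ (by norm_num) B.hk1 2) (pow_le_pow_left₀ B.P.κ0.le B.hk2 2)
      (by norm_num)
      (by rw [show (-2 * 0.209 : ℝ) = -0.418 by norm_num]; exact expm_le (by norm_num) (by norm_num) (by norm_num)) (by norm_num) (by norm_num) (by norm_num) (by norm_num)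
  have := loR8 (k := 1) 0 0.03 1 0.9699 B.P (by norm_num) (by ring : t = t + 0 * h) hs (by linarith) hD (by norm_num) hJ hd (by norm_num) (by norm_num)
  rw [add_zero] at this
  exact this

private theorem b8_12_yL0 {κ t : ℝ} (h : DomR κ t) (hk1 : 1.26 ≤ κ) (hk2 : κ ≤ 1.39) (ht1 : (-0.4477) ≤ t + κ) (ht2 : t + κ ≤ 0) :
    (-0.227) ≤ sy κ t ∧ sy κ t ≤ 0 := by
  have hy1 : -0.227 ≤ sy κ t := syL_ge h 1.26 1.39 0.4477 0.227 0.79692 0.79693 0.1312 0.13014 0.14358 hk1 hk2 (by linarith) (by norm_num) (by norm_num) (by norm_num)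
    (expm_ge (by norm_num) (by norm_num) (by norm_num) (by norm_num)) (expm_le (by norm_num) (by norm_num) (by norm_num)) (by norm_num)
    (by norm_num) (by norm_num) (by norm_num) (by norm_num) (by norm_num) (by norm_num)
  have hy2 : sy κ t ≤ 0 := sy_nonpos h (by linarith)
  exact ⟨by linarith, by linarith⟩

private theorem b8_12_yL00 {κ t : ℝ} (h : DomR κ t) (hk1 : 1.26 ≤ κ) (hk2 : κ ≤ 1.39) (ht1 : 0 ≤ t + κ) (ht2 : t + κ ≤ 0.04) :
    0 ≤ sy κ t ∧ sy κ t ≤ 0.02 := by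
  have hy1 : 0 ≤ sy κ t := sy_nonneg h (by linarith)
  have hy2 : sy κ t ≤ 0.02 := syR_le h 1.26 1.39 0.04 0.02 1.0202 0.0142 0.01467 0.0162 hk1 hk2 (by linarith) (by norm_num) (by norm_num)
    (expn_ge (by norm_num) (by norm_num)) (by norm_num) (by norm_num) (Or.inr ((mul_le_mul_of_nonneg_left (expn_le (E := 1.02021) (by norm_num) (by norm_num) (by norm_num)) (by norm_num)).trans (by norm_num))) (by norm_num) (by norm_num) (by norm_num)
  exact ⟨by linarith, by linarith⟩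

theorem b8_12_L0 {β r h κ T t s : ℝ} (B : By 1.26 1.39 0.487 0.474 22.8252 0.0567 5.441 β r h κ T) (hs : t + κ = s * h)
    (h1 : 0.43 ≤ s) (h2 : s ≤ 1.05) :
    eN r κ * (0.8842 * Real.exp (-(T * (0.5238 * (1 - s) ^ 2)))) ≤ ‖Xf β r h t 0‖ := by
  obtain ⟨t', ht'⟩ : ∃ t', t' = t + (-1) * h := ⟨_, rfl⟩
  have hτ : t' + κ = (s + (-1)) * h := by rw [ht']; linear_combination hs
  have e : 0.5238 * (1 - s) ^ 2 = 0.5238 * (s + (-1)) ^ 2 := by ring
  rw [e]
  have b1 : -((s + (-1)) * h) ≤ 0.4477 := mhiN8 B.P (x2 := 0.57) (by linarith) (by norm_num) (by norm_num)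
  have b2 : (s + (-1)) * h ≤ 0.04 := mhi8 B.P (x2 := 0.05) (by linarith) (by norm_num) (by norm_num)
  have hk := B.hk1
  have hk' := B.P.hκ1
  rw [← hτ] at b1 b2
  have hD : DomR κ t' := dom7 B.P.κ0 (by linarith) (by linarith)
  have hJ := JB8_k0 hD B.P.hβ (by linarith) B.P.hκ1 (by linarith) (by linarith) B.P.βκ B.P.βR
  rcases le_total s 1 with hc | hc
  · have b3 : t' + κ ≤ 0 := by rw [hτ]; exact mul_nonpos_of_nonpos_of_nonneg (by linarith) B.P.h0.le
    have hy := b8_12_yL0 hD B.hk1 B.hk2 (by linarith) b3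
    have hd := Dup7 hD (1.26 ^ 2) (1.39 ^ 2) 1.2238 (-0.227) 0 1.5746 1 hy.1 hy.2 (pow_le_pow_left₀ (by norm_num) B.hk1 2) (pow_le_pow_left₀ B.P.κ0.le B.hk2 2)
      (by rw [show (-2 * (-0.227) : ℝ) = 0.454 by norm_num]; exact expn_le (by norm_num) (by norm_num) (by norm_num))
      (by norm_num) (by norm_num) (by norm_num) (by norm_num) (by norm_num)
    exact loLB8 (k := 0) (-1) 0.07 1.2238 0.8842 0.5238 0.4477 0.091 0.659 0.0578 B (by norm_num) ht' hs (by linarith) (by rw [← hτ]; exact b1) hD (by norm_num) hJ hd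
      (by norm_num) (by norm_num) (by norm_num) (by norm_num) (by norm_num) (by norm_num) (by norm_num) (by norm_num) (by norm_num) (by norm_num) (by norm_num) (by norm_num) (by norm_num)
  · have b3 : 0 ≤ t' + κ := by rw [hτ]; exact mul_nonneg (by linarith) B.P.h0.le
    have hy := b8_12_yL00 hD B.hk1 B.hk2 b3 b2
    have hd := Dup7 hD (1.26 ^ 2) (1.39 ^ 2) 1.2238 0 0.02 1 0.96079 hy.1 hy.2 (pow_le_pow_left₀ (by norm_num) B.hk1 2) (pow_le_pow_left₀ B.P.κ0.le B.hk2 2)
      (by norm_num)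
      (by rw [show (-2 * 0.02 : ℝ) = -0.04 by norm_num]; exact expm_le (by norm_num) (by norm_num) (by norm_num)) (by norm_num) (by norm_num) (by norm_num) (by norm_num)
    have := loR8 (k := 0) (-1) 0.07 1.2238 0.8842 B.P (by norm_num) ht' hs (by linarith) hD (by norm_num) hJ hd (by norm_num) (by norm_num)
    exact le_trans (weak7 (by have := B.P.T5; linarith) (by norm_num) (by norm_num)) this

private theorem b8_12_W2a_y {κ t : ℝ} (h : DomR κ t) (hk1 : 1.26 ≤ κ) (hk2 : κ ≤ 1.39) (ht1 : 1.1231 ≤ t + κ) (ht2 : t + κ ≤ 1.2349) :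
    0.43 ≤ sy κ t ∧ sy κ t ≤ 0.473 := by
  have hy1 : 0.43 ≤ sy κ t := syR_ge h 1.26 1.39 1.1231 0.43 1.53725 1.53726 0.47555 0.52463 hk1 hk2 (by linarith) (by norm_num) (by norm_num)
    (expn_ge (by norm_num) (by norm_num)) (expn_le (by norm_num) (by norm_num) (by norm_num)) (by norm_num)
    (by norm_num) (by norm_num) (by norm_num) (by norm_num) (by norm_num) (by norm_num)
  have hy2 : sy κ t ≤ 0.473 := syR_le h 1.26 1.39 1.2349 0.473 1.6048 0.5319 0.54609 0.60245 hk1 hk2 (by linarith) (by norm_num) (by norm_num)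
    (expn_ge (by norm_num) (by norm_num)) (by norm_num) (by norm_num) (Or.inr ((mul_le_mul_of_nonneg_left (expn_le (E := 1.60481) (by norm_num) (by norm_num) (by norm_num)) (by norm_num)).trans (by norm_num))) (by norm_num) (by norm_num) (by norm_num)
  exact ⟨by linarith, by linarith⟩

theorem b8_12_W2a {β r h κ T t s u Y : ℝ} (B : By 1.26 1.39 0.487 0.474 22.8252 0.0567 5.441 β r h κ T) (hs : t + κ = s * h)
    (h1 : 0.43 ≤ u) (h2 : u ≤ 0.5) (h3 : u ≤ s) (h4 : s ≤ u + 0.0722)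
    (hY : eN r κ * (0.9699 * Real.exp (-(T * (1 / 2 * u ^ 2)))) ≤ Y) :
    ‖Xf β r h t 2‖ ≤ 0.0167 * Y := by
  obtain ⟨t', ht'⟩ : ∃ t', t' = t + 1 * h := ⟨_, rfl⟩
  have hτ : t' + κ = (s + 1) * h := by rw [ht']; linear_combination hs
  have a1 : 1.1231 ≤ t' + κ := by rw [hτ]; exact mlo8 B.P (x1 := 1.43) (by linarith) (by norm_num) (by norm_num)
  have a2 : t' + κ ≤ 1.2349 := by rw [hτ]; exact mhi8 B.P (x2 := 1.5722) (by linarith) (by norm_num) (by norm_num)
  have hk := B.hk1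
  have hk' := B.P.hκ1
  have hD : DomR κ t' := dom7 B.P.κ0 (by linarith) (by linarith)
  have hy := b8_12_W2a_y hD B.hk1 B.hk2 a1 a2
  have hJ : ‖HH β (sg κ t') - 1‖ ≤ 0.04 := JB8_k2 hD B.P.hβ (by linarith) B.P.hκ1 (by linarith) (by linarith) B.P.βκ B.P.βR
  have hd := Dlo7 hD (1.26 ^ 2) (1.39 ^ 2) 0.9131 0.43 0.473 0.43 0.42316 hy.1 hy.2 (pow_le_pow_left₀ (by norm_num) B.hk1 2) (pow_le_pow_left₀ B.P.κ0.le B.hk2 2)
      (by rw [show (-2 * 0.43 : ℝ) = -0.86 by norm_num]; exact expm_ge (by norm_num) (by norm_num) (by norm_num) (by norm_num)) (by norm_num) (by norm_num) (by norm_num) (by norm_num) (by norm_num)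
  have hc : sE κ t' ≤ 1 - 0.4214 * (t' + κ) ^ 2 / (1 + κ ^ 2) := VR8 0.75 0.4214 1.1231 1.2349 _ _ _ _ _ B hD a1 a2 (by norm_num) (by norm_num) (by norm_num) (by norm_num) rfl rfl (by norm_num) rfl rfl rfl (by norm_num) (by norm_num)
  exact up8 1 0.04 0.4214 0.9131 1.064 0.9699 0.7692 0.01522 0.0167 B (by norm_num) ht' hs hD (by norm_num) hJ hc hd (by norm_num) (by norm_num) (by norm_num) hY (by norm_num)
    (ch1 (a := 1) (by norm_num) (sqR h1 h3 (by norm_num)) (by norm_num) h1 h2 (by norm_num) (by norm_num)) (by norm_num)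
    (expn 4 0.1852 (by norm_num) (by norm_num) (by norm_num) (by norm_num)) (by norm_num) (by norm_num)

private theorem b8_12_W2b_y {κ t : ℝ} (h : DomR κ t) (hk1 : 1.26 ≤ κ) (hk2 : κ ≤ 1.39) (ht1 : 1.178 ≤ t + κ) (ht2 : t + κ ≤ 1.3055) :
    0.445 ≤ sy κ t ∧ sy κ t ≤ 0.492 := by
  have hy1 : 0.445 ≤ sy κ t := syR_ge h 1.26 1.39 1.178 0.445 1.56048 1.5605 0.49957 0.55113 hk1 hk2 (by linarith) (by norm_num) (by norm_num)
    (expn_ge (by norm_num) (by norm_num)) (expn_le (by norm_num) (by norm_num) (by norm_num)) (by norm_num)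
    (by norm_num) (by norm_num) (by norm_num) (by norm_num) (by norm_num) (by norm_num)
  have hy2 : sy κ t ≤ 0.492 := syR_le h 1.26 1.39 1.3055 0.492 1.63558 0.5739 0.57892 0.63866 hk1 hk2 (by linarith) (by norm_num) (by norm_num)
    (expn_ge (by norm_num) (by norm_num)) (by norm_num) (by norm_num) (Or.inr ((mul_le_mul_of_nonneg_left (expn_le (E := 1.63559) (by norm_num) (by norm_num) (by norm_num)) (by norm_num)).trans (by norm_num))) (by norm_num) (by norm_num) (by norm_num)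
  exact ⟨by linarith, by linarith⟩

theorem b8_12_W2b {β r h κ T t s u Y : ℝ} (B : By 1.26 1.39 0.487 0.474 22.8252 0.0567 5.441 β r h κ T) (hs : t + κ = s * h)
    (h1 : 0.5 ≤ u) (h2 : u ≤ 0.59) (h3 : u ≤ s) (h4 : s ≤ u + 0.0722)
    (hY : eN r κ * (0.9699 * Real.exp (-(T * (1 / 2 * u ^ 2)))) ≤ Y) :
    ‖Xf β r h t 2‖ ≤ 0.0134 * Y := by
  obtain ⟨t', ht'⟩ : ∃ t', t' = t + 1 * h := ⟨_, rfl⟩
  have hτ : t' + κ = (s + 1) * h := by rw [ht']; linear_combination hs
  have a1 : 1.178 ≤ t' + κ := by rw [hτ]; exact mlo8 B.P (x1 := 1.5) (by linarith) (by norm_num) (by norm_num)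
  have a2 : t' + κ ≤ 1.3055 := by rw [hτ]; exact mhi8 B.P (x2 := 1.6622) (by linarith) (by norm_num) (by norm_num)
  have hk := B.hk1
  have hk' := B.P.hκ1
  have hD : DomR κ t' := dom7 B.P.κ0 (by linarith) (by linarith)
  have hy := b8_12_W2b_y hD B.hk1 B.hk2 a1 a2
  have hJ : ‖HH β (sg κ t') - 1‖ ≤ 0.05 := by
    rcases le_total (t' + κ) 1.245 with hc | hc
    · exact (JB8_k2 hD B.P.hβ (by linarith) B.P.hκ1 (by linarith) (by linarith) B.P.βκ B.P.βR).trans (by norm_num)
    · exact JB8_k2w hD B.P.hβ (by linarith) B.P.hκ1 (by linarith) (by linarith) B.P.βκ B.P.βR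
  have hd := Dlo7 hD (1.26 ^ 2) (1.39 ^ 2) 0.9151 0.445 0.492 0.445 0.41065 hy.1 hy.2 (pow_le_pow_left₀ (by norm_num) B.hk1 2) (pow_le_pow_left₀ B.P.κ0.le B.hk2 2)
      (by rw [show (-2 * 0.445 : ℝ) = -0.89 by norm_num]; exact expm_ge (by norm_num) (by norm_num) (by norm_num) (by norm_num)) (by norm_num) (by norm_num) (by norm_num) (by norm_num) (by norm_num)
  have hc : sE κ t' ≤ 1 - 0.4163 * (t' + κ) ^ 2 / (1 + κ ^ 2) := VR8 0.74 0.4163 1.178 1.3055 _ _ _ _ _ B hD a1 a2 (by norm_num) (by norm_num) (by norm_num) (by norm_num) rfl rfl (by norm_num) rfl rfl rfl (by norm_num) (by norm_num)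
  exact up8 1 0.05 0.4163 0.9151 1.0736 0.9699 0.8116 0.0121 0.0134 B (by norm_num) ht' hs hD (by norm_num) hJ hc hd (by norm_num) (by norm_num) (by norm_num) hY (by norm_num)
    (ch1 (a := 1) (by norm_num) (sqR h1 h3 (by norm_num)) (by norm_num) h1 h2 (by norm_num) (by norm_num)) (by norm_num)
    (expn 4 0.4159 (by norm_num) (by norm_num) (by norm_num) (by norm_num)) (by norm_num) (by norm_num)

theorem b8_12_W3R {β r h κ T t s u Y : ℝ} (B : By 1.26 1.39 0.487 0.474 22.8252 0.0567 5.441 β r h κ T) (hs : t + κ = s * h)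
    (h1 : 0.43 ≤ u) (h2 : u ≤ 0.59) (h3 : u ≤ s) (h4 : s ≤ u + 0.0722) (htp : t + 2 * h ≤ Real.pi / 2)
    (hY : eN r κ * (0.9699 * Real.exp (-(T * (1 / 2 * u ^ 2)))) ≤ Y) :
    ‖Xf β r h t 3‖ ≤ 0.00007675 * Y := by
  refine leE (cR8 2 0.5 0.3487 1.9085 2.0909 _ _ _ _ _ 0.3139 2.1412 0.3555 0.4252 0.7973 0.9699 1.9665 0.00002269 0.0000501 0.1741 0.7411 0.9584 4.7776 0.000005183 0.00002665 B (by norm_num) hs htp
    (mlo8 B.P (x1 := 2.43) (by linarith) (by norm_num) (by norm_num)) (mhi8 B.P (x2 := 2.6622) (by linarith) (by norm_num) (by norm_num)) hY g1_nn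
    (g1_le (by linarith) h2 (by norm_num)) (ch1 (a := 2) (by norm_num) (sqR h1 h3 (by norm_num)) (by norm_num) h1 h2 (by norm_num) (by norm_num))
    (by norm_num) (by norm_num) (by norm_num) (by norm_num) rfl rfl (by norm_num) rfl rfl rfl (by norm_num) (by norm_num) (by norm_num) (by norm_num) (by norm_num) (by norm_num) (by norm_num) (by norm_num) (by norm_num) (by norm_num) (by norm_num) (by norm_num) (by norm_num) (by norm_num) (by norm_num) (by norm_num) (by norm_num) (by norm_num) (by norm_num)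
    (expn 10 0.6997 (by norm_num) (by norm_num) (by norm_num) (by norm_num)) (by norm_num) (by norm_num) (by norm_num) (by norm_num) (by norm_num) (by norm_num) (by norm_num) (by norm_num) (expn 12 0.1703 (by norm_num) (by norm_num) (by norm_num) (by norm_num)) (by norm_num) (by norm_num)) (by norm_num) hY (by norm_num)

theorem b8_12_W3 {β r h κ T t s u Y : ℝ} (B : By 1.26 1.39 0.487 0.474 22.8252 0.0567 5.441 β r h κ T) (hs : t + κ = s * h)
    (h1 : 0.43 ≤ u) (h2 : u ≤ 0.59) (h3 : u ≤ s) (h4 : s ≤ u + 0.0722)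
    (hY : eN r κ * (0.9699 * Real.exp (-(T * (1 / 2 * u ^ 2)))) ≤ Y) :
    ‖Xf β r h t 3‖ ≤ 0.00007675 * Y := by
  have hp : t + 2 * h ≤ Real.pi / 2 := by
    have e : t + 2 * h = (s + 2) * h - κ := by linear_combination hs
    have := mhi8 B.P (x := s + 2) (x2 := 2.6622) (by linarith) (by norm_num) (le_refl _)
    have := B.hk1
    have := Real.pi_gt_d6
    rw [e]
    norm_num at *
    linarith
  exact leE (b8_12_W3R B hs h1 h2 h3 h4 hp hY) (by norm_num) hY (by norm_num)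

theorem b8_12_W4 {β r h κ T t s u Y : ℝ} (B : By 1.26 1.39 0.487 0.474 22.8252 0.0567 5.441 β r h κ T) (hs : t + κ = s * h)
    (h1 : 0.43 ≤ u) (h2 : u ≤ 0.59) (h3 : u ≤ s) (h4 : s ≤ u + 0.0722)
    (hY : eN r κ * (0.9699 * Real.exp (-(T * (1 / 2 * u ^ 2)))) ≤ Y) :
    ‖Xf β r h t (4)‖ ≤ 0.000002908 * Y := by
  refine cU8 0 (3) 1.3039 2.8763 0.3 0.3555 0.3 1.5159 0.9699 0.1741 0.7411 0.9584 4.7776 0.0000002975 0.000002908 B (by norm_num) hs
    (fullz8 B.P B.hk2 (x1 := 3.43) (by push_cast; linarith) (by norm_num) (by norm_num)) (mhi8 B.P (x2 := 3.6622) (by push_cast; linarith) (by norm_num) (by norm_num)) hY g1_nn (g1_le (by linarith) h2 (by norm_num))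
    (by norm_num) (by norm_num) (by norm_num) (by norm_num) (by norm_num) (by norm_num) (by norm_num) (by norm_num) (by norm_num) (by norm_num) (by norm_num) (by norm_num) (by norm_num) (by norm_num) (by norm_num) (by norm_num) (by norm_num) (by norm_num) (by norm_num)
    (expn 15 0.0281 (by norm_num) (by norm_num) (by norm_num) (by norm_num)) (by norm_num) (by norm_num)

theorem b8_12_Wm1 {β r h κ T t s u Y : ℝ} (B : By 1.26 1.39 0.487 0.474 22.8252 0.0567 5.441 β r h κ T) (hs : t + κ = s * h)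
    (h1 : 0.43 ≤ u) (h2 : u ≤ 0.59) (h3 : u ≤ s) (h4 : s ≤ u + 0)
    (hY : eN r κ * (0.8842 * Real.exp (-(T * (0.5238 * (1 - u) ^ 2)))) ≤ Y) :
    ‖Xf β r h t (-1)‖ ≤ 0.0104901223 * Y := by
  refine leE (cL8 (-2) 0.96 0.4917 1.1074 1.2331 _ _ _ _ _ 3.6615 1.1586 0.3555 0 0.6431 0.8842 0.8894 0.007999 0.01049 0.1702 0.6757 0.9594 4.7776 0.00000002688 0.0000001223 B (by norm_num) hs
    (mloN8 B.P (x1 := 1.41) (by linarith) (by norm_num) (by norm_num)) (mhiN8 B.P (x2 := 1.57) (by linarith) (by norm_num) (by norm_num)) hY (g0_nn (by norm_num))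
    (g0_le (by norm_num) h1 h2 (by norm_num) (by norm_num)) (ch0 (a := (-2)) (by norm_num) (sqL h2 h4 (by norm_num) (by norm_num)) (by norm_num) h1 h2 (by norm_num) (by norm_num))
    (by norm_num) (by norm_num) (by norm_num) (by norm_num) rfl rfl (by norm_num) rfl rfl rfl (by norm_num) (by norm_num) (by norm_num) (by norm_num) (by norm_num) (by norm_num) (by norm_num) (by norm_num) (by norm_num) (by norm_num) (by norm_num) (by norm_num) (by norm_num) (by norm_num) (by norm_num) (by norm_num) (by norm_num) (by norm_num)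
    (expn 4 0.8392 (by norm_num) (by norm_num) (by norm_num) (by norm_num)) (by norm_num) (by norm_num) (by norm_num) (by norm_num) (by norm_num) (by norm_num) (by norm_num) (by norm_num) (expn 16 1.5 (by norm_num) (by norm_num) (by norm_num) (by norm_num)) (by norm_num) (by norm_num)) (by norm_num) hY (by norm_num)

theorem b8_12_Wm1p {β r h κ T t s u Y : ℝ} (B : By 1.26 1.39 0.487 0.474 22.8252 0.0567 5.441 β r h κ T) (hs : t + κ = s * h)
    (h1 : 0.43 ≤ u) (h2 : u ≤ 0.59) (h3 : u ≤ s) (h4 : s ≤ u + 0.0722)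
    (hY : eN r κ * (0.8842 * Real.exp (-(T * (0.5238 * (1 - u) ^ 2)))) ≤ Y) :
    ‖Xf β r h t (-1)‖ ≤ 0.0182801223 * Y := by
  refine leE (cL8 (-2) 0.96 0.4892 1.0507 1.2331 _ _ _ _ _ 3.4991 1.1718 0.3555 0 0.6431 0.8842 0.7874 0.01379 0.01828 0.1702 0.6757 0.9594 4.7776 0.00000002688 0.0000001223 B (by norm_num) hs
    (mloN8 B.P (x1 := 1.3378) (by linarith) (by norm_num) (by norm_num)) (mhiN8 B.P (x2 := 1.57) (by linarith) (by norm_num) (by norm_num)) hY (g0_nn (by norm_num))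
    (g0_le (by norm_num) h1 h2 (by norm_num) (by norm_num)) (ch0 (a := (-1.9278)) (by norm_num) (sqL h2 h4 (by norm_num) (by norm_num)) (by norm_num) h1 h2 (by norm_num) (by norm_num))
    (by norm_num) (by norm_num) (by norm_num) (by norm_num) rfl rfl (by norm_num) rfl rfl rfl (by norm_num) (by norm_num) (by norm_num) (by norm_num) (by norm_num) (by norm_num) (by norm_num) (by norm_num) (by norm_num) (by norm_num) (by norm_num) (by norm_num) (by norm_num) (by norm_num) (by norm_num) (by norm_num) (by norm_num) (by norm_num)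
    (expn 4 0.2842 (by norm_num) (by norm_num) (by norm_num) (by norm_num)) (by norm_num) (by norm_num) (by norm_num) (by norm_num) (by norm_num) (by norm_num) (by norm_num) (by norm_num) (expn 16 1.5 (by norm_num) (by norm_num) (by norm_num) (by norm_num)) (by norm_num) (by norm_num)) (by norm_num) hY (by norm_num)

theorem b8_12_Wm2 {β r h κ T t s u Y : ℝ} (B : By 1.26 1.39 0.487 0.474 22.8252 0.0567 5.441 β r h κ T) (hs : t + κ = s * h)
    (h1 : 0.43 ≤ u) (h2 : u ≤ 0.59) (h3 : u ≤ s) (h4 : s ≤ u + 0.0722)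
    (hY : eN r κ * (0.8842 * Real.exp (-(T * (0.5238 * (1 - u) ^ 2)))) ≤ Y) :
    ‖Xf β r h t (-2)‖ ≤ 0.0000018569 * Y := by
  refine leE (cL8 (-3) 0.88 0.4689 1.8361 2.0185 _ _ _ _ _ 5.1335 1.0648 0.3555 0 0.7515 0.8842 2.4746 0.000001423 0.000001714 0.1702 0.6757 0.9594 4.7776 0.00000002688 0.0000001429 B (by norm_num) hs
    (mloN8 B.P (x1 := 2.3378) (by linarith) (by norm_num) (by norm_num)) (mhiN8 B.P (x2 := 2.57) (by linarith) (by norm_num) (by norm_num)) hY (g0_nn (by norm_num))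
    (g0_le (by norm_num) h1 h2 (by norm_num) (by norm_num)) (ch0 (a := (-2.9278)) (by norm_num) (sqL h2 h4 (by norm_num) (by norm_num)) (by norm_num) h1 h2 (by norm_num) (by norm_num))
    (by norm_num) (by norm_num) (by norm_num) (by norm_num) rfl rfl (by norm_num) rfl rfl rfl (by norm_num) (by norm_num) (by norm_num) (by norm_num) (by norm_num) (by norm_num) (by norm_num) (by norm_num) (by norm_num) (by norm_num) (by norm_num) (by norm_num) (by norm_num) (by norm_num) (by norm_num) (by norm_num) (by norm_num) (by norm_num)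
    (expn 13 0.4642 (by norm_num) (by norm_num) (by norm_num) (by norm_num)) (by norm_num) (by norm_num) (by norm_num) (by norm_num) (by norm_num) (by norm_num) (by norm_num) (by norm_num) (expn 16 1.5 (by norm_num) (by norm_num) (by norm_num) (by norm_num)) (by norm_num) (by norm_num)) (by norm_num) hY (by norm_num)

theorem b8_12_Wm3 {β r h κ T t s u Y : ℝ} (B : By 1.26 1.39 0.487 0.474 22.8252 0.0567 5.441 β r h κ T) (hs : t + κ = s * h)
    (h1 : 0.43 ≤ u) (h2 : u ≤ 0.59) (h3 : u ≤ s) (h4 : s ≤ u + 0.0722)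
    (hY : eN r κ * (0.8842 * Real.exp (-(T * (0.5238 * (1 - u) ^ 2)))) ≤ Y) :
    ‖Xf β r h t (-3)‖ ≤ 0.0000004763 * Y := by
  refine cU8 1 (-4) 2.0893 3.6617 0.02 0.3555 0.2433 0.8448 0.8842 0.1702 0.6757 0.9594 4.7776 0.00000007973 0.0000004763 B (by norm_num) hs
    (full8 B.P B.hk2 (x1 := 4.43) (by push_cast; linarith) (by norm_num) (by norm_num)) (mhi8 B.P (x2 := 4.6622) (by push_cast; linarith) (by norm_num) (by norm_num)) hY (g0_nn (by norm_num)) (g0_le (by norm_num) h1 h2 (by norm_num) (by norm_num))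
    (by norm_num) (by norm_num) (by norm_num) (by norm_num) (by norm_num) (by norm_num) (by norm_num) (by norm_num) (by norm_num) (by norm_num) (by norm_num) (by norm_num) (by norm_num) (by norm_num) (by norm_num) (by norm_num) (by norm_num) (by norm_num) (by norm_num)
    (expn 16 0.3451 (by norm_num) (by norm_num) (by norm_num) (by norm_num)) (by norm_num) (by norm_num)

private theorem b8_12_Ao_y {κ t : ℝ} (h : DomR κ t) (hk1 : 1.26 ≤ κ) (hk2 : κ ≤ 1.39) (ht1 : (-0.7462) ≤ t + κ) (ht2 : t + κ ≤ (-0.4948)) :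
    (-0.378) ≤ sy κ t ∧ sy κ t ≤ (-0.238) := by
  have hy1 : -0.378 ≤ sy κ t := syL_ge h 1.26 1.39 0.7462 0.378 0.68523 0.68524 0.2023 0.18634 0.20558 hk1 hk2 (by linarith) (by norm_num) (by norm_num) (by norm_num)
    (expm_ge (by norm_num) (by norm_num) (by norm_num) (by norm_num)) (expm_le (by norm_num) (by norm_num) (by norm_num)) (by norm_num)
    (by norm_num) (by norm_num) (by norm_num) (by norm_num) (by norm_num) (by norm_num)
  have hy2 : sy κ t ≤ -0.238 := syL_le h 1.26 1.39 0.4948 0.238 0.7882 0.78821 0.13495 0.14889 hk1 hk2 (by linarith) (by norm_num) (by norm_num) (by norm_num)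
    (expm_ge (by norm_num) (by norm_num) (by norm_num) (by norm_num)) (expm_le (by norm_num) (by norm_num) (by norm_num)) (by norm_num)
    (by norm_num) (by norm_num) (by norm_num) (by norm_num) (by norm_num) (by norm_num)
  exact ⟨by linarith, by linarith⟩

theorem b8_12_Ao {β r h κ T t s u Y : ℝ} (B : By 1.26 1.39 0.487 0.474 22.8252 0.0567 5.441 β r h κ T) (hs : t + κ = s * h)
    (h1 : 0.05 ≤ u) (h2 : u ≤ 0.37) (h3 : u ≤ s) (h4 : s ≤ u + 0)
    (hY : eN r κ * (0.9699 * Real.exp (-(T * (1 / 2 * u ^ 2)))) ≤ Y) :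
    ‖Xf β r h t 0‖ ≤ 0.5583 * Y := by
  obtain ⟨t', ht'⟩ : ∃ t', t' = t + (-1) * h := ⟨_, rfl⟩
  have hτ : t' + κ = (s + (-1)) * h := by rw [ht']; linear_combination hs
  have a1 : (-0.7462) ≤ t' + κ := by rw [hτ]; have := mhiN8 B.P (x := s + (-1)) (x2 := 0.95) (τ2 := 0.7462) (by linarith) (by norm_num) (by norm_num); linarith
  have a2 : t' + κ ≤ (-0.4948) := by rw [hτ]; have := mloN8 B.P (x := s + (-1)) (x1 := 0.63) (τ1 := 0.4948) (by linarith) (by norm_num) (by norm_num); linarith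
  have hk := B.hk1
  have hk' := B.P.hκ1
  have hD : DomR κ t' := dom7 B.P.κ0 (by linarith) (by linarith)
  have hy := b8_12_Ao_y hD B.hk1 B.hk2 a1 a2
  have hJ : ‖HH β (sg κ t') - 1‖ ≤ 0.07 := JB8_k0 hD B.P.hβ (by linarith) B.P.hκ1 (by linarith) (by linarith) B.P.βκ B.P.βR
  have hd := Dlo7 hD (1.26 ^ 2) (1.39 ^ 2) 1.19 (-0.378) (-0.238) (-0.238) 1.60962 hy.1 hy.2 (pow_le_pow_left₀ (by norm_num) B.hk1 2) (pow_le_pow_left₀ B.P.κ0.le B.hk2 2)
      (by rw [show (-2 * (-0.238) : ℝ) = 0.476 by norm_num]; exact expn_ge (by norm_num) (by norm_num)) (by norm_num) (by norm_num) (by norm_num) (by norm_num) (by norm_num)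
  have hc : sE κ t' ≤ 1 - 0.47 * (t' + κ) ^ 2 / (1 + κ ^ 2) := VLA8 hD B.P.hκ1 (by linarith) (by linarith)
  exact up8 (-1) 0.07 0.47 1.19 1.0245 0.9699 0.118 0.5285 0.5583 B (by norm_num) ht' hs hD (by norm_num) hJ hc hd (by norm_num) (by norm_num) (by norm_num) hY (by norm_num)
    (ch1 (a := (-1)) (by norm_num) (sqL h2 h4 (by norm_num) (by norm_num)) (by norm_num) h1 h2 (by norm_num) (by norm_num)) (by norm_num)
    (expn 0 0.642 (by norm_num) (by norm_num) (by norm_num) (by norm_num)) (by norm_num) (by norm_num)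

private theorem b8_12_A2_y {κ t : ℝ} (h : DomR κ t) (hk1 : 1.26 ≤ κ) (hk2 : κ ≤ 1.39) (ht1 : 0.8246 ≤ t + κ) (ht2 : t + κ ≤ 1.076) :
    0.341 ≤ sy κ t ∧ sy κ t ≤ 0.427 := by
  have hy1 : 0.341 ≤ sy κ t := syR_ge h 1.26 1.39 0.8246 0.341 1.40635 1.40636 0.34501 0.38062 hk1 hk2 (by linarith) (by norm_num) (by norm_num)
    (expn_ge (by norm_num) (by norm_num)) (expn_le (by norm_num) (by norm_num) (by norm_num)) (by norm_num)
    (by norm_num) (by norm_num) (by norm_num) (by norm_num) (by norm_num) (by norm_num)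
  have hy2 : sy κ t ≤ 0.427 := syR_le h 1.26 1.39 1.076 0.427 1.53265 0.4586 0.47082 0.51941 hk1 hk2 (by linarith) (by norm_num) (by norm_num)
    (expn_ge (by norm_num) (by norm_num)) (by norm_num) (by norm_num) (Or.inr ((mul_le_mul_of_nonneg_left (expn_le (E := 1.53266) (by norm_num) (by norm_num) (by norm_num)) (by norm_num)).trans (by norm_num))) (by norm_num) (by norm_num) (by norm_num)
  exact ⟨by linarith, by linarith⟩

theorem b8_12_A2 {β r h κ T t s u Y : ℝ} (B : By 1.26 1.39 0.487 0.474 22.8252 0.0567 5.441 β r h κ T) (hs : t + κ = s * h)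
    (h1 : 0.05 ≤ u) (h2 : u ≤ 0.37) (h3 : u ≤ s) (h4 : s ≤ u + 0)
    (hY : eN r κ * (0.9699 * Real.exp (-(T * (1 / 2 * u ^ 2)))) ≤ Y) :
    ‖Xf β r h t 2‖ ≤ 0.08446 * Y := by
  obtain ⟨t', ht'⟩ : ∃ t', t' = t + 1 * h := ⟨_, rfl⟩
  have hτ : t' + κ = (s + 1) * h := by rw [ht']; linear_combination hs
  have a1 : 0.8246 ≤ t' + κ := by rw [hτ]; exact mlo8 B.P (x1 := 1.05) (by linarith) (by norm_num) (by norm_num)
  have a2 : t' + κ ≤ 1.076 := by rw [hτ]; exact mhi8 B.P (x2 := 1.37) (by linarith) (by norm_num) (by norm_num)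
  have hk := B.hk1
  have hk' := B.P.hκ1
  have hD : DomR κ t' := dom7 B.P.κ0 (by linarith) (by linarith)
  have hy := b8_12_A2_y hD B.hk1 B.hk2 a1 a2
  have hJ : ‖HH β (sg κ t') - 1‖ ≤ 0.04 := JB8_k2 hD B.P.hβ (by linarith) B.P.hκ1 (by linarith) (by linarith) B.P.βκ B.P.βR
  have hd := Dlo7 hD (1.26 ^ 2) (1.39 ^ 2) 0.9068 0.341 0.427 0.341 0.5056 hy.1 hy.2 (pow_le_pow_left₀ (by norm_num) B.hk1 2) (pow_le_pow_left₀ B.P.κ0.le B.hk2 2)
      (by rw [show (-2 * 0.341 : ℝ) = -0.682 by norm_num]; exact expm_ge (by norm_num) (by norm_num) (by norm_num) (by norm_num)) (by norm_num) (by norm_num) (by norm_num) (by norm_num) (by norm_num)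
  have hc : sE κ t' ≤ 1 - 0.4294 * (t' + κ) ^ 2 / (1 + κ ^ 2) := VR8 0.78 0.4294 0.8246 1.076 _ _ _ _ _ B hD a1 a2 (by norm_num) (by norm_num) (by norm_num) (by norm_num) rfl rfl (by norm_num) rfl rfl rfl (by norm_num) (by norm_num)
  exact up8 1 0.04 0.4294 0.9068 1.0658 0.9699 0.4721 0.07686 0.08446 B (by norm_num) ht' hs hD (by norm_num) hJ hc hd (by norm_num) (by norm_num) (by norm_num) hY (by norm_num)
    (ch1 (a := 1) (by norm_num) (sqR h1 h3 (by norm_num)) (by norm_num) h1 h2 (by norm_num) (by norm_num)) (by norm_num)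
    (expn 2 0.5686 (by norm_num) (by norm_num) (by norm_num) (by norm_num)) (by norm_num) (by norm_num)

theorem b8_12_A3R {β r h κ T t s u Y : ℝ} (B : By 1.26 1.39 0.487 0.474 22.8252 0.0567 5.441 β r h κ T) (hs : t + κ = s * h)
    (h1 : 0.05 ≤ u) (h2 : u ≤ 0.37) (h3 : u ≤ s) (h4 : s ≤ u + 0) (htp : t + 2 * h ≤ Real.pi / 2)
    (hY : eN r κ * (0.9699 * Real.exp (-(T * (1 / 2 * u ^ 2)))) ≤ Y) :
    ‖Xf β r h t 3‖ ≤ 0.0006512 * Y := by
  refine leE (cR8 2 0.54 0.3653 1.61 1.8614 _ _ _ _ _ 0.3565 2.0741 0.3555 0.5248 0.7833 0.9699 1.5339 0.0002375 0.0005079 0.0685 0.7411 0.9836 4.7776 0.00002836 0.0001433 B (by norm_num) hs htp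
    (mlo8 B.P (x1 := 2.05) (by linarith) (by norm_num) (by norm_num)) (mhi8 B.P (x2 := 2.37) (by linarith) (by norm_num) (by norm_num)) hY g1_nn
    (g1_le (by linarith) h2 (by norm_num)) (ch1 (a := 2) (by norm_num) (sqR h1 h3 (by norm_num)) (by norm_num) h1 h2 (by norm_num) (by norm_num))
    (by norm_num) (by norm_num) (by norm_num) (by norm_num) rfl rfl (by norm_num) rfl rfl rfl (by norm_num) (by norm_num) (by norm_num) (by norm_num) (by norm_num) (by norm_num) (by norm_num) (by norm_num) (by norm_num) (by norm_num) (by norm_num) (by norm_num) (by norm_num) (by norm_num) (by norm_num) (by norm_num) (by norm_num) (by norm_num) (by norm_num)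
    (expn 8 0.3459 (by norm_num) (by norm_num) (by norm_num) (by norm_num)) (by norm_num) (by norm_num) (by norm_num) (by norm_num) (by norm_num) (by norm_num) (by norm_num) (by norm_num) (expn 10 0.4722 (by norm_num) (by norm_num) (by norm_num) (by norm_num)) (by norm_num) (by norm_num)) (by norm_num) hY (by norm_num)

theorem b8_12_A3 {β r h κ T t s u Y : ℝ} (B : By 1.26 1.39 0.487 0.474 22.8252 0.0567 5.441 β r h κ T) (hs : t + κ = s * h)
    (h1 : 0.05 ≤ u) (h2 : u ≤ 0.37) (h3 : u ≤ s) (h4 : s ≤ u + 0)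
    (hY : eN r κ * (0.9699 * Real.exp (-(T * (1 / 2 * u ^ 2)))) ≤ Y) :
    ‖Xf β r h t 3‖ ≤ 0.0006512 * Y := by
  have hp : t + 2 * h ≤ Real.pi / 2 := by
    have e : t + 2 * h = (s + 2) * h - κ := by linear_combination hs
    have := mhi8 B.P (x := s + 2) (x2 := 2.37) (by linarith) (by norm_num) (le_refl _)
    have := B.hk1
    have := Real.pi_gt_d6
    rw [e]
    norm_num at *
    linarith
  exact leE (b8_12_A3R B hs h1 h2 h3 h4 hp hY) (by norm_num) hY (by norm_num)

theorem b8_12_A4R {β r h κ T t s u Y : ℝ} (B : By 1.26 1.39 0.487 0.474 22.8252 0.0567 5.441 β r h κ T) (hs : t + κ = s * h)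
    (h1 : 0.05 ≤ u) (h2 : u ≤ 0.37) (h3 : u ≤ s) (h4 : s ≤ u + 0) (htp : t + 3 * h ≤ Real.pi / 2)
    (hY : eN r κ * (0.9699 * Real.exp (-(T * (1 / 2 * u ^ 2)))) ≤ Y) :
    ‖Xf β r h t 4‖ ≤ 0.0000005854 * Y := by
  refine leE (cR8 3 0.44 0.3176 2.3954 2.6468 _ _ _ _ _ 0.1886 2.432 0.3555 0.2545 0.8385 0.9699 2.9532 0.0000001052 0.0000002638 0.0685 0.7411 0.9836 4.7776 0.00000005949 0.0000003216 B (by norm_num) hs htp
    (mlo8 B.P (x1 := 3.05) (by linarith) (by norm_num) (by norm_num)) (mhi8 B.P (x2 := 3.37) (by linarith) (by norm_num) (by norm_num)) hY g1_nn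
    (g1_le (by linarith) h2 (by norm_num)) (ch1 (a := 3) (by norm_num) (sqR h1 h3 (by norm_num)) (by norm_num) h1 h2 (by norm_num) (by norm_num))
    (by norm_num) (by norm_num) (by norm_num) (by norm_num) rfl rfl (by norm_num) rfl rfl rfl (by norm_num) (by norm_num) (by norm_num) (by norm_num) (by norm_num) (by norm_num) (by norm_num) (by norm_num) (by norm_num) (by norm_num) (by norm_num) (by norm_num) (by norm_num) (by norm_num) (by norm_num) (by norm_num) (by norm_num) (by norm_num) (by norm_num)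
    (expn 16 0.0683 (by norm_num) (by norm_num) (by norm_num) (by norm_num)) (by norm_num) (by norm_num) (by norm_num) (by norm_num) (by norm_num) (by norm_num) (by norm_num) (by norm_num) (expn 16 0.6418 (by norm_num) (by norm_num) (by norm_num) (by norm_num)) (by norm_num) (by norm_num)) (by norm_num) hY (by norm_num)

theorem b8_12_A4 {β r h κ T t s u Y : ℝ} (B : By 1.26 1.39 0.487 0.474 22.8252 0.0567 5.441 β r h κ T) (hs : t + κ = s * h)
    (h1 : 0.05 ≤ u) (h2 : u ≤ 0.37) (h3 : u ≤ s) (h4 : s ≤ u + 0)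
    (hY : eN r κ * (0.9699 * Real.exp (-(T * (1 / 2 * u ^ 2)))) ≤ Y) :
    ‖Xf β r h t 4‖ ≤ 0.0000005854 * Y := by
  have hp : t + 3 * h ≤ Real.pi / 2 := by
    have e : t + 3 * h = (s + 3) * h - κ := by linear_combination hs
    have := mhi8 B.P (x := s + 3) (x2 := 3.37) (by linarith) (by norm_num) (le_refl _)
    have := B.hk1
    have := Real.pi_gt_d6
    rw [e]
    norm_num at *
    linarith
  exact leE (b8_12_A4R B hs h1 h2 h3 h4 hp hY) (by norm_num) hY (by norm_num)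

theorem b8_12_Am1 {β r h κ T t s u Y : ℝ} (B : By 1.26 1.39 0.487 0.474 22.8252 0.0567 5.441 β r h κ T) (hs : t + κ = s * h)
    (h1 : 0.05 ≤ u) (h2 : u ≤ 0.37) (h3 : u ≤ s) (h4 : s ≤ u + 0)
    (hY : eN r κ * (0.9699 * Real.exp (-(T * (1 / 2 * u ^ 2)))) ≤ Y) :
    ‖Xf β r h t (-1)‖ ≤ 0.0016601185 * Y := by
  refine leE (cL8 (-2) 0.92 0.4801 1.2801 1.5316 _ _ _ _ _ 3.8786 1.1421 0.3555 0 0.6838 0.9699 1.2071 0.001409 0.00166 0.0685 0.7411 0.9836 4.7776 0.00000002688 0.0000001185 B (by norm_num) hs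
    (mloN8 B.P (x1 := 1.63) (by linarith) (by norm_num) (by norm_num)) (mhiN8 B.P (x2 := 1.95) (by linarith) (by norm_num) (by norm_num)) hY g1_nn
    (g1_le (by linarith) h2 (by norm_num)) (ch1 (a := (-2)) (by norm_num) (sqL h2 h4 (by norm_num) (by norm_num)) (by norm_num) h1 h2 (by norm_num) (by norm_num))
    (by norm_num) (by norm_num) (by norm_num) (by norm_num) rfl rfl (by norm_num) rfl rfl rfl (by norm_num) (by norm_num) (by norm_num) (by norm_num) (by norm_num) (by norm_num) (by norm_num) (by norm_num) (by norm_num) (by norm_num) (by norm_num) (by norm_num) (by norm_num) (by norm_num) (by norm_num) (by norm_num) (by norm_num) (by norm_num)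
    (expn 6 0.5678 (by norm_num) (by norm_num) (by norm_num) (by norm_num)) (by norm_num) (by norm_num) (by norm_num) (by norm_num) (by norm_num) (by norm_num) (by norm_num) (by norm_num) (expn 16 1.5 (by norm_num) (by norm_num) (by norm_num) (by norm_num)) (by norm_num) (by norm_num)) (by norm_num) hY (by norm_num)

theorem b8_12_Am2 {β r h κ T t s u Y : ℝ} (B : By 1.26 1.39 0.487 0.474 22.8252 0.0567 5.441 β r h κ T) (hs : t + κ = s * h)
    (h1 : 0.05 ≤ u) (h2 : u ≤ 0.37) (h3 : u ≤ s) (h4 : s ≤ u + 0)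
    (hY : eN r κ * (0.9699 * Real.exp (-(T * (1 / 2 * u ^ 2)))) ≤ Y) :
    ‖Xf β r h t (-2)‖ ≤ 0.00000018721 * Y := by
  refine leE (cL8 (-3) 0.82 0.4579 2.0655 2.317 _ _ _ _ _ 5.327 1.055 0.3555 0 0.7775 0.9699 3.0987 0.00000004818 0.00000005241 0.0685 0.7411 0.9836 4.7776 0.00000002688 0.0000001348 B (by norm_num) hs
    (mloN8 B.P (x1 := 2.63) (by linarith) (by norm_num) (by norm_num)) (mhiN8 B.P (x2 := 2.95) (by linarith) (by norm_num) (by norm_num)) hY g1_nn
    (g1_le (by linarith) h2 (by norm_num)) (ch1 (a := (-3)) (by norm_num) (sqL h2 h4 (by norm_num) (by norm_num)) (by norm_num) h1 h2 (by norm_num) (by norm_num))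
    (by norm_num) (by norm_num) (by norm_num) (by norm_num) rfl rfl (by norm_num) rfl rfl rfl (by norm_num) (by norm_num) (by norm_num) (by norm_num) (by norm_num) (by norm_num) (by norm_num) (by norm_num) (by norm_num) (by norm_num) (by norm_num) (by norm_num) (by norm_num) (by norm_num) (by norm_num) (by norm_num) (by norm_num) (by norm_num)
    (expn 16 0.86 (by norm_num) (by norm_num) (by norm_num) (by norm_num)) (by norm_num) (by norm_num) (by norm_num) (by norm_num) (by norm_num) (by norm_num) (by norm_num) (by norm_num) (expn 16 1.5 (by norm_num) (by norm_num) (by norm_num) (by norm_num)) (by norm_num) (by norm_num)) (by norm_num) hY (by norm_num)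

theorem b8_12_Am3 {β r h κ T t s u Y : ℝ} (B : By 1.26 1.39 0.487 0.474 22.8252 0.0567 5.441 β r h κ T) (hs : t + κ = s * h)
    (h1 : 0.05 ≤ u) (h2 : u ≤ 0.37) (h3 : u ≤ s) (h4 : s ≤ u + 0)
    (hY : eN r κ * (0.9699 * Real.exp (-(T * (1 / 2 * u ^ 2)))) ≤ Y) :
    ‖Xf β r h t (-3)‖ ≤ 0.0000001545 * Y := by
  refine cU8 1 (-4) 1.7908 3.4322 0.02 0.3555 0.0782 0.8914 0.9699 0.0685 0.7411 0.9836 4.7776 0.00000002688 0.0000001545 B (by norm_num) hs
    (full8 B.P B.hk2 (x1 := 4.05) (by push_cast; linarith) (by norm_num) (by norm_num)) (mhi8 B.P (x2 := 4.37) (by push_cast; linarith) (by norm_num) (by norm_num)) hY g1_nn (g1_le (by linarith) h2 (by norm_num))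
    (by norm_num) (by norm_num) (by norm_num) (by norm_num) (by norm_num) (by norm_num) (by norm_num) (by norm_num) (by norm_num) (by norm_num) (by norm_num) (by norm_num) (by norm_num) (by norm_num) (by norm_num) (by norm_num) (by norm_num) (by norm_num) (by norm_num)
    (expn 16 1.5 (by norm_num) (by norm_num) (by norm_num) (by norm_num)) (by norm_num) (by norm_num)

private theorem b8_12_Bo_y {κ t : ℝ} (h : DomR κ t) (hk1 : 1.26 ≤ κ) (hk2 : κ ≤ 1.39) (ht1 : (-0.4949) ≤ t + κ) (ht2 : t + κ ≤ (-0.4476)) :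
    (-0.251) ≤ sy κ t ∧ sy κ t ≤ (-0.216) := by
  have hy1 : -0.251 ≤ sy κ t := syL_ge h 1.26 1.39 0.4949 0.251 0.77802 0.77803 0.1453 0.14049 0.15499 hk1 hk2 (by linarith) (by norm_num) (by norm_num) (by norm_num)
    (expm_ge (by norm_num) (by norm_num) (by norm_num) (by norm_num)) (expm_le (by norm_num) (by norm_num) (by norm_num)) (by norm_num)
    (by norm_num) (by norm_num) (by norm_num) (by norm_num) (by norm_num) (by norm_num)
  have hy2 : sy κ t ≤ -0.216 := syL_le h 1.26 1.39 0.4476 0.216 0.80573 0.80574 0.1252 0.13813 hk1 hk2 (by linarith) (by norm_num) (by norm_num) (by norm_num)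
    (expm_ge (by norm_num) (by norm_num) (by norm_num) (by norm_num)) (expm_le (by norm_num) (by norm_num) (by norm_num)) (by norm_num)
    (by norm_num) (by norm_num) (by norm_num) (by norm_num) (by norm_num) (by norm_num)
  exact ⟨by linarith, by linarith⟩

theorem b8_12_Bo {β r h κ T t s u Y : ℝ} (B : By 1.26 1.39 0.487 0.474 22.8252 0.0567 5.441 β r h κ T) (hs : t + κ = s * h)
    (h1 : 0.37 ≤ u) (h2 : u ≤ 0.43) (h3 : u ≤ s) (h4 : s ≤ u + 0)
    (hY : eN r κ * (0.9699 * Real.exp (-(T * (1 / 2 * u ^ 2)))) ≤ Y) :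
    ‖Xf β r h t 0‖ ≤ 0.7414 * Y := by
  obtain ⟨t', ht'⟩ : ∃ t', t' = t + (-1) * h := ⟨_, rfl⟩
  have hτ : t' + κ = (s + (-1)) * h := by rw [ht']; linear_combination hs
  have a1 : (-0.4949) ≤ t' + κ := by rw [hτ]; have := mhiN8 B.P (x := s + (-1)) (x2 := 0.63) (τ2 := 0.4949) (by linarith) (by norm_num) (by norm_num); linarith
  have a2 : t' + κ ≤ (-0.4476) := by rw [hτ]; have := mloN8 B.P (x := s + (-1)) (x1 := 0.57) (τ1 := 0.4476) (by linarith) (by norm_num) (by norm_num); linarith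
  have hk := B.hk1
  have hk' := B.P.hκ1
  have hD : DomR κ t' := dom7 B.P.κ0 (by linarith) (by linarith)
  have hy := b8_12_Bo_y hD B.hk1 B.hk2 a1 a2
  have hJ : ‖HH β (sg κ t') - 1‖ ≤ 0.07 := JB8_k0 hD B.P.hβ (by linarith) B.P.hκ1 (by linarith) (by linarith) B.P.βκ B.P.βR
  have hd := Dlo7 hD (1.26 ^ 2) (1.39 ^ 2) 1.1645 (-0.251) (-0.216) (-0.2195) 1.55115 hy.1 hy.2 (pow_le_pow_left₀ (by norm_num) B.hk1 2) (pow_le_pow_left₀ B.P.κ0.le B.hk2 2)
      (by rw [show (-2 * (-0.2195) : ℝ) = 0.439 by norm_num]; exact expn_ge (by norm_num) (by norm_num)) (by norm_num) (by norm_num) (by norm_num) (by norm_num) (by norm_num)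
  have hc : sE κ t' ≤ 1 - 0.4885 * (t' + κ) ^ 2 / (1 + κ ^ 2) := VL_04_05 hD (by linarith) (by linarith) (by linarith)
  exact up8 (-1) 0.07 0.4885 1.1645 1.0301 0.9699 0.0662 0.698 0.7414 B (by norm_num) ht' hs hD (by norm_num) hJ hc hd (by norm_num) (by norm_num) (by norm_num) hY (by norm_num)
    (ch1 (a := (-1)) (by norm_num) (sqL h2 h4 (by norm_num) (by norm_num)) (by norm_num) h1 h2 (by norm_num) (by norm_num)) (by norm_num)
    (expn 0 0.3601 (by norm_num) (by norm_num) (by norm_num) (by norm_num)) (by norm_num) (by norm_num)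

private theorem b8_12_B2_y {κ t : ℝ} (h : DomR κ t) (hk1 : 1.26 ≤ κ) (hk2 : κ ≤ 1.39) (ht1 : 1.0759 ≤ t + κ) (ht2 : t + κ ≤ 1.1232) :
    0.417 ≤ sy κ t ∧ sy κ t ≤ 0.441 := by
  have hy1 : 0.417 ≤ sy κ t := syR_ge h 1.26 1.39 1.0759 0.417 1.5174 1.51741 0.45521 0.5022 hk1 hk2 (by linarith) (by norm_num) (by norm_num)
    (expn_ge (by norm_num) (by norm_num)) (expn_le (by norm_num) (by norm_num) (by norm_num)) (by norm_num)
    (by norm_num) (by norm_num) (by norm_num) (by norm_num) (by norm_num) (by norm_num)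
  have hy2 : sy κ t ≤ 0.441 := syR_le h 1.26 1.39 1.1232 0.441 1.55426 0.4803 0.49311 0.544 hk1 hk2 (by linarith) (by norm_num) (by norm_num)
    (expn_ge (by norm_num) (by norm_num)) (by norm_num) (by norm_num) (Or.inr ((mul_le_mul_of_nonneg_left (expn_le (E := 1.55427) (by norm_num) (by norm_num) (by norm_num)) (by norm_num)).trans (by norm_num))) (by norm_num) (by norm_num) (by norm_num)
  exact ⟨by linarith, by linarith⟩

theorem b8_12_B2 {β r h κ T t s u Y : ℝ} (B : By 1.26 1.39 0.487 0.474 22.8252 0.0567 5.441 β r h κ T) (hs : t + κ = s * h)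
    (h1 : 0.37 ≤ u) (h2 : u ≤ 0.43) (h3 : u ≤ s) (h4 : s ≤ u + 0)
    (hY : eN r κ * (0.9699 * Real.exp (-(T * (1 / 2 * u ^ 2)))) ≤ Y) :
    ‖Xf β r h t 2‖ ≤ 0.0197 * Y := by
  obtain ⟨t', ht'⟩ : ∃ t', t' = t + 1 * h := ⟨_, rfl⟩
  have hτ : t' + κ = (s + 1) * h := by rw [ht']; linear_combination hs
  have a1 : 1.0759 ≤ t' + κ := by rw [hτ]; exact mlo8 B.P (x1 := 1.37) (by linarith) (by norm_num) (by norm_num)
  have a2 : t' + κ ≤ 1.1232 := by rw [hτ]; exact mhi8 B.P (x2 := 1.43) (by linarith) (by norm_num) (by norm_num)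
  have hk := B.hk1
  have hk' := B.P.hκ1
  have hD : DomR κ t' := dom7 B.P.κ0 (by linarith) (by linarith)
  have hy := b8_12_B2_y hD B.hk1 B.hk2 a1 a2
  have hJ : ‖HH β (sg κ t') - 1‖ ≤ 0.04 := JB8_k2 hD B.P.hβ (by linarith) B.P.hκ1 (by linarith) (by linarith) B.P.βκ B.P.βR
  have hd := Dlo7 hD (1.26 ^ 2) (1.39 ^ 2) 0.9116 0.417 0.441 0.417 0.4343 hy.1 hy.2 (pow_le_pow_left₀ (by norm_num) B.hk1 2) (pow_le_pow_left₀ B.P.κ0.le B.hk2 2)
      (by rw [show (-2 * 0.417 : ℝ) = -0.834 by norm_num]; exact expm_ge (by norm_num) (by norm_num) (by norm_num) (by norm_num)) (by norm_num) (by norm_num) (by norm_num) (by norm_num) (by norm_num)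
  have hc : sE κ t' ≤ 1 - 0.4302 * (t' + κ) ^ 2 / (1 + κ ^ 2) := VR8 0.78 0.4302 1.0759 1.1232 _ _ _ _ _ B hD a1 a2 (by norm_num) (by norm_num) (by norm_num) (by norm_num) rfl rfl (by norm_num) rfl rfl rfl (by norm_num) (by norm_num)
  exact up8 1 0.04 0.4302 0.9116 1.0644 0.9699 0.7389 0.01795 0.0197 B (by norm_num) ht' hs hD (by norm_num) hJ hc hd (by norm_num) (by norm_num) (by norm_num) hY (by norm_num)
    (ch1 (a := 1) (by norm_num) (sqR h1 h3 (by norm_num)) (by norm_num) h1 h2 (by norm_num) (by norm_num)) (by norm_num)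
    (expn 4 0.0203 (by norm_num) (by norm_num) (by norm_num) (by norm_num)) (by norm_num) (by norm_num)

theorem b8_12_B3R {β r h κ T t s u Y : ℝ} (B : By 1.26 1.39 0.487 0.474 22.8252 0.0567 5.441 β r h κ T) (hs : t + κ = s * h)
    (h1 : 0.37 ≤ u) (h2 : u ≤ 0.43) (h3 : u ≤ s) (h4 : s ≤ u + 0) (htp : t + 2 * h ≤ Real.pi / 2)
    (hY : eN r κ * (0.9699 * Real.exp (-(T * (1 / 2 * u ^ 2)))) ≤ Y) :
    ‖Xf β r h t 3‖ ≤ 0.00006748 * Y := by
  refine leE (cR8 2 0.52 0.3597 1.8613 1.9086 _ _ _ _ _ 0.3699 2.0551 0.3555 0.4218 0.7789 0.9699 1.9519 0.00002452 0.00005196 0.0925 0.7411 0.9779 4.7776 0.00000309 0.00001552 B (by norm_num) hs htp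
    (mlo8 B.P (x1 := 2.37) (by linarith) (by norm_num) (by norm_num)) (mhi8 B.P (x2 := 2.43) (by linarith) (by norm_num) (by norm_num)) hY g1_nn
    (g1_le (by linarith) h2 (by norm_num)) (ch1 (a := 2) (by norm_num) (sqR h1 h3 (by norm_num)) (by norm_num) h1 h2 (by norm_num) (by norm_num))
    (by norm_num) (by norm_num) (by norm_num) (by norm_num) rfl rfl (by norm_num) rfl rfl rfl (by norm_num) (by norm_num) (by norm_num) (by norm_num) (by norm_num) (by norm_num) (by norm_num) (by norm_num) (by norm_num) (by norm_num) (by norm_num) (by norm_num) (by norm_num) (by norm_num) (by norm_num) (by norm_num) (by norm_num) (by norm_num) (by norm_num)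
    (expn 10 0.6202 (by norm_num) (by norm_num) (by norm_num) (by norm_num)) (by norm_num) (by norm_num) (by norm_num) (by norm_num) (by norm_num) (by norm_num) (by norm_num) (by norm_num) (expn 12 0.693 (by norm_num) (by norm_num) (by norm_num) (by norm_num)) (by norm_num) (by norm_num)) (by norm_num) hY (by norm_num)

theorem b8_12_B3 {β r h κ T t s u Y : ℝ} (B : By 1.26 1.39 0.487 0.474 22.8252 0.0567 5.441 β r h κ T) (hs : t + κ = s * h)
    (h1 : 0.37 ≤ u) (h2 : u ≤ 0.43) (h3 : u ≤ s) (h4 : s ≤ u + 0)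
    (hY : eN r κ * (0.9699 * Real.exp (-(T * (1 / 2 * u ^ 2)))) ≤ Y) :
    ‖Xf β r h t 3‖ ≤ 0.00006748 * Y := by
  have hp : t + 2 * h ≤ Real.pi / 2 := by
    have e : t + 2 * h = (s + 2) * h - κ := by linear_combination hs
    have := mhi8 B.P (x := s + 2) (x2 := 2.43) (by linarith) (by norm_num) (le_refl _)
    have := B.hk1
    have := Real.pi_gt_d6
    rw [e]
    norm_num at *
    linarith
  exact leE (b8_12_B3R B hs h1 h2 h3 h4 hp hY) (by norm_num) hY (by norm_num)

theorem b8_12_B4 {β r h κ T t s u Y : ℝ} (B : By 1.26 1.39 0.487 0.474 22.8252 0.0567 5.441 β r h κ T) (hs : t + κ = s * h)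
    (h1 : 0.37 ≤ u) (h2 : u ≤ 0.43) (h3 : u ≤ s) (h4 : s ≤ u + 0)
    (hY : eN r κ * (0.9699 * Real.exp (-(T * (1 / 2 * u ^ 2)))) ≤ Y) :
    ‖Xf β r h t (4)‖ ≤ 0.00001419 * Y := by
  refine cU8 0 (3) 1.2567 2.694 0.4 0.3555 0.4 1.1771 0.9699 0.0925 0.7411 0.9779 4.7776 0.000001869 0.00001419 B (by norm_num) hs
    (fullz8 B.P B.hk2 (x1 := 3.37) (by push_cast; linarith) (by norm_num) (by norm_num)) (mhi8 B.P (x2 := 3.43) (by push_cast; linarith) (by norm_num) (by norm_num)) hY g1_nn (g1_le (by linarith) h2 (by norm_num))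
    (by norm_num) (by norm_num) (by norm_num) (by norm_num) (by norm_num) (by norm_num) (by norm_num) (by norm_num) (by norm_num) (by norm_num) (by norm_num) (by norm_num) (by norm_num) (by norm_num) (by norm_num) (by norm_num) (by norm_num) (by norm_num) (by norm_num)
    (expn 13 0.1906 (by norm_num) (by norm_num) (by norm_num) (by norm_num)) (by norm_num) (by norm_num)

theorem b8_12_Bm1 {β r h κ T t s u Y : ℝ} (B : By 1.26 1.39 0.487 0.474 22.8252 0.0567 5.441 β r h κ T) (hs : t + κ = s * h)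
    (h1 : 0.37 ≤ u) (h2 : u ≤ 0.43) (h3 : u ≤ s) (h4 : s ≤ u + 0)
    (hY : eN r κ * (0.9699 * Real.exp (-(T * (1 / 2 * u ^ 2)))) ≤ Y) :
    ‖Xf β r h t (-1)‖ ≤ 0.0025661137 * Y := by
  refine leE (cL8 (-2) 0.98 0.4936 1.233 1.2802 _ _ _ _ _ 4.0745 1.1281 0.3555 0 0.6556 0.9699 1.1242 0.002206 0.002566 0.0925 0.7411 0.9779 4.7776 0.00000002688 0.0000001137 B (by norm_num) hs
    (mloN8 B.P (x1 := 1.57) (by linarith) (by norm_num) (by norm_num)) (mhiN8 B.P (x2 := 1.63) (by linarith) (by norm_num) (by norm_num)) hY g1_nn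
    (g1_le (by linarith) h2 (by norm_num)) (ch1 (a := (-2)) (by norm_num) (sqL h2 h4 (by norm_num) (by norm_num)) (by norm_num) h1 h2 (by norm_num) (by norm_num))
    (by norm_num) (by norm_num) (by norm_num) (by norm_num) rfl rfl (by norm_num) rfl rfl rfl (by norm_num) (by norm_num) (by norm_num) (by norm_num) (by norm_num) (by norm_num) (by norm_num) (by norm_num) (by norm_num) (by norm_num) (by norm_num) (by norm_num) (by norm_num) (by norm_num) (by norm_num) (by norm_num) (by norm_num) (by norm_num)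
    (expn 6 0.1167 (by norm_num) (by norm_num) (by norm_num) (by norm_num)) (by norm_num) (by norm_num) (by norm_num) (by norm_num) (by norm_num) (by norm_num) (by norm_num) (by norm_num) (expn 16 1.5 (by norm_num) (by norm_num) (by norm_num) (by norm_num)) (by norm_num) (by norm_num)) (by norm_num) hY (by norm_num)

theorem b8_12_Bm2 {β r h κ T t s u Y : ℝ} (B : By 1.26 1.39 0.487 0.474 22.8252 0.0567 5.441 β r h κ T) (hs : t + κ = s * h)
    (h1 : 0.37 ≤ u) (h2 : u ≤ 0.43) (h3 : u ≤ s) (h4 : s ≤ u + 0)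
    (hY : eN r κ * (0.9699 * Real.exp (-(T * (1 / 2 * u ^ 2)))) ≤ Y) :
    ‖Xf β r h t (-2)‖ ≤ 0.00000021078 * Y := by
  refine leE (cL8 (-3) 0.86 0.4706 2.0184 2.0656 _ _ _ _ _ 5.6011 1.0418 0.3555 0 0.7521 0.9699 3.0158 0.00000007483 0.00000008038 0.0925 0.7411 0.9779 4.7776 0.00000002688 0.0000001304 B (by norm_num) hs
    (mloN8 B.P (x1 := 2.57) (by linarith) (by norm_num) (by norm_num)) (mhiN8 B.P (x2 := 2.63) (by linarith) (by norm_num) (by norm_num)) hY g1_nn
    (g1_le (by linarith) h2 (by norm_num)) (ch1 (a := (-3)) (by norm_num) (sqL h2 h4 (by norm_num) (by norm_num)) (by norm_num) h1 h2 (by norm_num) (by norm_num))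
    (by norm_num) (by norm_num) (by norm_num) (by norm_num) rfl rfl (by norm_num) rfl rfl rfl (by norm_num) (by norm_num) (by norm_num) (by norm_num) (by norm_num) (by norm_num) (by norm_num) (by norm_num) (by norm_num) (by norm_num) (by norm_num) (by norm_num) (by norm_num) (by norm_num) (by norm_num) (by norm_num) (by norm_num) (by norm_num)
    (expn 16 0.4089 (by norm_num) (by norm_num) (by norm_num) (by norm_num)) (by norm_num) (by norm_num) (by norm_num) (by norm_num) (by norm_num) (by norm_num) (by norm_num) (by norm_num) (expn 16 1.5 (by norm_num) (by norm_num) (by norm_num) (by norm_num)) (by norm_num) (by norm_num)) (by norm_num) hY (by norm_num)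

theorem b8_12_Bm3 {β r h κ T t s u Y : ℝ} (B : By 1.26 1.39 0.487 0.474 22.8252 0.0567 5.441 β r h κ T) (hs : t + κ = s * h)
    (h1 : 0.37 ≤ u) (h2 : u ≤ 0.43) (h3 : u ≤ s) (h4 : s ≤ u + 0)
    (hY : eN r κ * (0.9699 * Real.exp (-(T * (1 / 2 * u ^ 2)))) ≤ Y) :
    ‖Xf β r h t (-3)‖ ≤ 0.0000001471 * Y := by
  refine cU8 1 (-4) 2.0421 3.4794 0.02 0.3555 0.1122 0.8484 0.9699 0.0925 0.7411 0.9779 4.7776 0.00000002688 0.0000001471 B (by norm_num) hs
    (full8 B.P B.hk2 (x1 := 4.37) (by push_cast; linarith) (by norm_num) (by norm_num)) (mhi8 B.P (x2 := 4.43) (by push_cast; linarith) (by norm_num) (by norm_num)) hY g1_nn (g1_le (by linarith) h2 (by norm_num))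
    (by norm_num) (by norm_num) (by norm_num) (by norm_num) (by norm_num) (by norm_num) (by norm_num) (by norm_num) (by norm_num) (by norm_num) (by norm_num) (by norm_num) (by norm_num) (by norm_num) (by norm_num) (by norm_num) (by norm_num) (by norm_num) (by norm_num)
    (expn 16 1.5 (by norm_num) (by norm_num) (by norm_num) (by norm_num)) (by norm_num) (by norm_num)

private theorem b8_12_Co_y {κ t : ℝ} (h : DomR κ t) (hk1 : 1.26 ≤ κ) (hk2 : κ ≤ 1.39) (ht1 : 0.4633 ≤ t + κ) (ht2 : t + κ ≤ 0.5891) :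
    0.206 ≤ sy κ t ∧ sy κ t ≤ 0.259 := by
  have hy1 : 0.206 ≤ sy κ t := syR_ge h 1.26 1.39 0.4633 0.206 1.22875 1.22876 0.1821 0.2009 hk1 hk2 (by linarith) (by norm_num) (by norm_num)
    (expn_ge (by norm_num) (by norm_num)) (expn_le (by norm_num) (by norm_num) (by norm_num)) (by norm_num)
    (by norm_num) (by norm_num) (by norm_num) (by norm_num) (by norm_num) (by norm_num)
  have hy2 : sy κ t ≤ 0.259 := syR_le h 1.26 1.39 0.5891 0.259 1.29563 0.2414 0.24141 0.26633 hk1 hk2 (by linarith) (by norm_num) (by norm_num)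
    (expn_ge (by norm_num) (by norm_num)) (by norm_num) (by norm_num) (Or.inr ((mul_le_mul_of_nonneg_left (expn_le (E := 1.29564) (by norm_num) (by norm_num) (by norm_num)) (by norm_num)).trans (by norm_num))) (by norm_num) (by norm_num) (by norm_num)
  exact ⟨by linarith, by linarith⟩

theorem b8_12_Co {β r h κ T t s u Y : ℝ} (B : By 1.26 1.39 0.487 0.474 22.8252 0.0567 5.441 β r h κ T) (hs : t + κ = s * h)
    (h1 : 0.59 ≤ u) (h2 : u ≤ 0.75) (h3 : u ≤ s) (h4 : s ≤ u + 0)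
    (hY : eN r κ * (0.8842 * Real.exp (-(T * (0.5238 * (1 - u) ^ 2)))) ≤ Y) :
    ‖Xf β r h t 1‖ ≤ 0.802 * Y := by
  obtain ⟨t', ht'⟩ : ∃ t', t' = t + 0 * h := ⟨_, rfl⟩
  have hτ : t' + κ = (s + 0) * h := by rw [ht']; linear_combination hs
  have a1 : 0.4633 ≤ t' + κ := by rw [hτ]; exact mlo8 B.P (x1 := 0.59) (by linarith) (by norm_num) (by norm_num)
  have a2 : t' + κ ≤ 0.5891 := by rw [hτ]; exact mhi8 B.P (x2 := 0.75) (by linarith) (by norm_num) (by norm_num)
  have hk := B.hk1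
  have hk' := B.P.hκ1
  have hD : DomR κ t' := dom7 B.P.κ0 (by linarith) (by linarith)
  have hy := b8_12_Co_y hD B.hk1 B.hk2 a1 a2
  have hJ : ‖HH β (sg κ t') - 1‖ ≤ 0.03 := JB8_k1 hD B.P.hβ (by linarith) B.P.hκ1 (by linarith) (by linarith) B.P.βκ B.P.βR
  have hd := Dlo7 hD (1.26 ^ 2) (1.39 ^ 2) 0.9102 0.206 0.259 0.2537 0.60205 hy.1 hy.2 (pow_le_pow_left₀ (by norm_num) B.hk1 2) (pow_le_pow_left₀ B.P.κ0.le B.hk2 2)
      (by rw [show (-2 * 0.2537 : ℝ) = -0.5074 by norm_num]; exact expm_ge (by norm_num) (by norm_num) (by norm_num) (by norm_num)) (by norm_num) (by norm_num) (by norm_num) (by norm_num) (by norm_num)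
  have hc : sE κ t' ≤ 1 - 0.4632 * (t' + κ) ^ 2 / (1 + κ ^ 2) := VR8 0.89 0.4632 0.4633 0.5891 _ _ _ _ _ B hD a1 a2 (by norm_num) (by norm_num) (by norm_num) (by norm_num) rfl rfl (by norm_num) rfl rfl rfl (by norm_num) (by norm_num)
  exact up8 0 0.03 0.4632 0.9102 1.0546 0.8842 0.0731 0.6724 0.802 B (by norm_num) ht' hs hD (by norm_num) hJ hc hd (by norm_num) (by norm_num) (by norm_num) hY (by norm_num)
    (ch0 (a := 0) (by norm_num) (sqR h1 h3 (by norm_num)) (by norm_num) h1 h2 (by norm_num) (by norm_num)) (by norm_num)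
    (expn 0 0.3977 (by norm_num) (by norm_num) (by norm_num) (by norm_num)) (by norm_num) (by norm_num)

theorem b8_12_C2R {β r h κ T t s u Y : ℝ} (B : By 1.26 1.39 0.487 0.474 22.8252 0.0567 5.441 β r h κ T) (hs : t + κ = s * h)
    (h1 : 0.59 ≤ u) (h2 : u ≤ 0.75) (h3 : u ≤ s) (h4 : s ≤ u + 0) (htp : t + 1 * h ≤ Real.pi / 2)
    (hY : eN r κ * (0.8842 * Real.exp (-(T * (0.5238 * (1 - u) ^ 2)))) ≤ Y) :
    ‖Xf β r h t 2‖ ≤ 0.01412 * Y := by
  refine leE (cR8 1 0.66 0.4069 1.2487 1.3745 _ _ _ _ _ 0.4607 1.9453 0.3555 0.6003 0.7494 0.8842 0.9406 0.00599 0.01318 0.0881 0.6757 0.9789 4.7776 0.0001774 0.00094 B (by norm_num) hs htp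
    (mlo8 B.P (x1 := 1.59) (by linarith) (by norm_num) (by norm_num)) (mhi8 B.P (x2 := 1.75) (by linarith) (by norm_num) (by norm_num)) hY (g0_nn (by norm_num))
    (g0_le (by norm_num) h1 h2 (by norm_num) (by norm_num)) (ch0 (a := 1) (by norm_num) (sqR h1 h3 (by norm_num)) (by norm_num) h1 h2 (by norm_num) (by norm_num))
    (by norm_num) (by norm_num) (by norm_num) (by norm_num) rfl rfl (by norm_num) rfl rfl rfl (by norm_num) (by norm_num) (by norm_num) (by norm_num) (by norm_num) (by norm_num) (by norm_num) (by norm_num) (by norm_num) (by norm_num) (by norm_num) (by norm_num) (by norm_num) (by norm_num) (by norm_num) (by norm_num) (by norm_num) (by norm_num) (by norm_num)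
    (expn 5 0.1178 (by norm_num) (by norm_num) (by norm_num) (by norm_num)) (by norm_num) (by norm_num) (by norm_num) (by norm_num) (by norm_num) (by norm_num) (by norm_num) (by norm_num) (expn 8 0.6416 (by norm_num) (by norm_num) (by norm_num) (by norm_num)) (by norm_num) (by norm_num)) (by norm_num) hY (by norm_num)

theorem b8_12_C2 {β r h κ T t s u Y : ℝ} (B : By 1.26 1.39 0.487 0.474 22.8252 0.0567 5.441 β r h κ T) (hs : t + κ = s * h)
    (h1 : 0.59 ≤ u) (h2 : u ≤ 0.75) (h3 : u ≤ s) (h4 : s ≤ u + 0)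
    (hY : eN r κ * (0.8842 * Real.exp (-(T * (0.5238 * (1 - u) ^ 2)))) ≤ Y) :
    ‖Xf β r h t 2‖ ≤ 0.01412 * Y := by
  have hp : t + 1 * h ≤ Real.pi / 2 := by
    have e : t + 1 * h = (s + 1) * h - κ := by linear_combination hs
    have := mhi8 B.P (x := s + 1) (x2 := 1.75) (by linarith) (by norm_num) (le_refl _)
    have := B.hk1
    have := Real.pi_gt_d6
    rw [e]
    norm_num at *
    linarith
  exact leE (b8_12_C2R B hs h1 h2 h3 h4 hp hY) (by norm_num) hY (by norm_num)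

theorem b8_12_C3R {β r h κ T t s u Y : ℝ} (B : By 1.26 1.39 0.487 0.474 22.8252 0.0567 5.441 β r h κ T) (hs : t + κ = s * h)
    (h1 : 0.59 ≤ u) (h2 : u ≤ 0.75) (h3 : u ≤ s) (h4 : s ≤ u + 0) (htp : t + 2 * h ≤ Real.pi / 2)
    (hY : eN r κ * (0.8842 * Real.exp (-(T * (0.5238 * (1 - u) ^ 2)))) ≤ Y) :
    ‖Xf β r h t 3‖ ≤ 0.000020407 * Y := by
  refine leE (cR8 2 0.5 0.3472 2.0341 2.1599 _ _ _ _ _ 0.2776 2.208 0.3555 0.3868 0.8092 0.8842 2.241 0.000005066 0.00001266 0.0881 0.6757 0.9789 4.7776 0.000001354 0.000007747 B (by norm_num) hs htp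
    (mlo8 B.P (x1 := 2.59) (by linarith) (by norm_num) (by norm_num)) (mhi8 B.P (x2 := 2.75) (by linarith) (by norm_num) (by norm_num)) hY (g0_nn (by norm_num))
    (g0_le (by norm_num) h1 h2 (by norm_num) (by norm_num)) (ch0 (a := 2) (by norm_num) (sqR h1 h3 (by norm_num)) (by norm_num) h1 h2 (by norm_num) (by norm_num))
    (by norm_num) (by norm_num) (by norm_num) (by norm_num) rfl rfl (by norm_num) rfl rfl rfl (by norm_num) (by norm_num) (by norm_num) (by norm_num) (by norm_num) (by norm_num) (by norm_num) (by norm_num) (by norm_num) (by norm_num) (by norm_num) (by norm_num) (by norm_num) (by norm_num) (by norm_num) (by norm_num) (by norm_num) (by norm_num) (by norm_num)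
    (expn 12 0.1932 (by norm_num) (by norm_num) (by norm_num) (by norm_num)) (by norm_num) (by norm_num) (by norm_num) (by norm_num) (by norm_num) (by norm_num) (by norm_num) (by norm_num) (expn 13 0.5148 (by norm_num) (by norm_num) (by norm_num) (by norm_num)) (by norm_num) (by norm_num)) (by norm_num) hY (by norm_num)

theorem b8_12_C3 {β r h κ T t s u Y : ℝ} (B : By 1.26 1.39 0.487 0.474 22.8252 0.0567 5.441 β r h κ T) (hs : t + κ = s * h)
    (h1 : 0.59 ≤ u) (h2 : u ≤ 0.75) (h3 : u ≤ s) (h4 : s ≤ u + 0)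
    (hY : eN r κ * (0.8842 * Real.exp (-(T * (0.5238 * (1 - u) ^ 2)))) ≤ Y) :
    ‖Xf β r h t 3‖ ≤ 0.000020407 * Y := by
  have hp : t + 2 * h ≤ Real.pi / 2 := by
    have e : t + 2 * h = (s + 2) * h - κ := by linear_combination hs
    have := mhi8 B.P (x := s + 2) (x2 := 2.75) (by linarith) (by norm_num) (le_refl _)
    have := B.hk1
    have := Real.pi_gt_d6
    rw [e]
    norm_num at *
    linarith
  exact leE (b8_12_C3R B hs h1 h2 h3 h4 hp hY) (by norm_num) hY (by norm_num)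

theorem b8_12_C4 {β r h κ T t s u Y : ℝ} (B : By 1.26 1.39 0.487 0.474 22.8252 0.0567 5.441 β r h κ T) (hs : t + κ = s * h)
    (h1 : 0.59 ≤ u) (h2 : u ≤ 0.75) (h3 : u ≤ s) (h4 : s ≤ u + 0)
    (hY : eN r κ * (0.8842 * Real.exp (-(T * (0.5238 * (1 - u) ^ 2)))) ≤ Y) :
    ‖Xf β r h t (4)‖ ≤ 0.0000002309 * Y := by
  refine cU8 0 (3) 1.4295 2.9453 0.2 0.3555 0.2 1.2148 0.8842 0.0881 0.6757 0.9789 4.7776 0.00000002688 0.0000002309 B (by norm_num) hs
    (fullz8 B.P B.hk2 (x1 := 3.59) (by push_cast; linarith) (by norm_num) (by norm_num)) (mhi8 B.P (x2 := 3.75) (by push_cast; linarith) (by norm_num) (by norm_num)) hY (g0_nn (by norm_num)) (g0_le (by norm_num) h1 h2 (by norm_num) (by norm_num))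
    (by norm_num) (by norm_num) (by norm_num) (by norm_num) (by norm_num) (by norm_num) (by norm_num) (by norm_num) (by norm_num) (by norm_num) (by norm_num) (by norm_num) (by norm_num) (by norm_num) (by norm_num) (by norm_num) (by norm_num) (by norm_num) (by norm_num)
    (expn 16 1.5 (by norm_num) (by norm_num) (by norm_num) (by norm_num)) (by norm_num) (by norm_num)

theorem b8_12_Cm1 {β r h κ T t s u Y : ℝ} (B : By 1.26 1.39 0.487 0.474 22.8252 0.0567 5.441 β r h κ T) (hs : t + κ = s * h)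
    (h1 : 0.59 ≤ u) (h2 : u ≤ 0.75) (h3 : u ≤ s) (h4 : s ≤ u + 0)
    (hY : eN r κ * (0.8842 * Real.exp (-(T * (0.5238 * (1 - u) ^ 2)))) ≤ Y) :
    ‖Xf β r h t (-1)‖ ≤ 0.023910119 * Y := by
  refine leE (cL8 (-2) 0.98 0.494 0.9817 1.1075 _ _ _ _ _ 3.4164 1.1789 0.3555 0 0.6256 0.8842 0.7391 0.01793 0.02391 0.0881 0.6757 0.9789 4.7776 0.00000002688 0.000000119 B (by norm_num) hs
    (mloN8 B.P (x1 := 1.25) (by linarith) (by norm_num) (by norm_num)) (mhiN8 B.P (x2 := 1.41) (by linarith) (by norm_num) (by norm_num)) hY (g0_nn (by norm_num))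
    (g0_le (by norm_num) h1 h2 (by norm_num) (by norm_num)) (ch0 (a := (-2)) (by norm_num) (sqL h2 h4 (by norm_num) (by norm_num)) (by norm_num) h1 h2 (by norm_num) (by norm_num))
    (by norm_num) (by norm_num) (by norm_num) (by norm_num) rfl rfl (by norm_num) rfl rfl rfl (by norm_num) (by norm_num) (by norm_num) (by norm_num) (by norm_num) (by norm_num) (by norm_num) (by norm_num) (by norm_num) (by norm_num) (by norm_num) (by norm_num) (by norm_num) (by norm_num) (by norm_num) (by norm_num) (by norm_num) (by norm_num)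
    (expn 4 0.0214 (by norm_num) (by norm_num) (by norm_num) (by norm_num)) (by norm_num) (by norm_num) (by norm_num) (by norm_num) (by norm_num) (by norm_num) (by norm_num) (by norm_num) (expn 16 1.5 (by norm_num) (by norm_num) (by norm_num) (by norm_num)) (by norm_num) (by norm_num)) (by norm_num) hY (by norm_num)

theorem b8_12_Cm2 {β r h κ T t s u Y : ℝ} (B : By 1.26 1.39 0.487 0.474 22.8252 0.0567 5.441 β r h κ T) (hs : t + κ = s * h)
    (h1 : 0.59 ≤ u) (h2 : u ≤ 0.75) (h3 : u ≤ s) (h4 : s ≤ u + 0)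
    (hY : eN r κ * (0.8842 * Real.exp (-(T * (0.5238 * (1 - u) ^ 2)))) ≤ Y) :
    ‖Xf β r h t (-2)‖ ≤ 0.0000032532 * Y := by
  refine leE (cL8 (-3) 0.9 0.4741 1.7671 1.8929 _ _ _ _ _ 5.0972 1.0667 0.3555 0 0.7376 0.8842 2.3673 0.00000258 0.000003113 0.0881 0.6757 0.9789 4.7776 0.00000002688 0.0000001402 B (by norm_num) hs
    (mloN8 B.P (x1 := 2.25) (by linarith) (by norm_num) (by norm_num)) (mhiN8 B.P (x2 := 2.41) (by linarith) (by norm_num) (by norm_num)) hY (g0_nn (by norm_num))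
    (g0_le (by norm_num) h1 h2 (by norm_num) (by norm_num)) (ch0 (a := (-3)) (by norm_num) (sqL h2 h4 (by norm_num) (by norm_num)) (by norm_num) h1 h2 (by norm_num) (by norm_num))
    (by norm_num) (by norm_num) (by norm_num) (by norm_num) rfl rfl (by norm_num) rfl rfl rfl (by norm_num) (by norm_num) (by norm_num) (by norm_num) (by norm_num) (by norm_num) (by norm_num) (by norm_num) (by norm_num) (by norm_num) (by norm_num) (by norm_num) (by norm_num) (by norm_num) (by norm_num) (by norm_num) (by norm_num) (by norm_num)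
    (expn 12 0.8804 (by norm_num) (by norm_num) (by norm_num) (by norm_num)) (by norm_num) (by norm_num) (by norm_num) (by norm_num) (by norm_num) (by norm_num) (by norm_num) (by norm_num) (expn 16 1.5 (by norm_num) (by norm_num) (by norm_num) (by norm_num)) (by norm_num) (by norm_num)) (by norm_num) hY (by norm_num)

theorem b8_12_Cm3 {β r h κ T t s u Y : ℝ} (B : By 1.26 1.39 0.487 0.474 22.8252 0.0567 5.441 β r h κ T) (hs : t + κ = s * h)
    (h1 : 0.59 ≤ u) (h2 : u ≤ 0.75) (h3 : u ≤ s) (h4 : s ≤ u + 0)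
    (hY : eN r κ * (0.8842 * Real.exp (-(T * (0.5238 * (1 - u) ^ 2)))) ≤ Y) :
    ‖Xf β r h t (-3)‖ ≤ 0.0000009455 * Y := by
  refine cU8 1 (-4) 2.2149 3.7307 0.02 0.3555 0.293 0.8378 0.8842 0.0881 0.6757 0.9789 4.7776 0.0000001596 0.0000009455 B (by norm_num) hs
    (full8 B.P B.hk2 (x1 := 4.59) (by push_cast; linarith) (by norm_num) (by norm_num)) (mhi8 B.P (x2 := 4.75) (by push_cast; linarith) (by norm_num) (by norm_num)) hY (g0_nn (by norm_num)) (g0_le (by norm_num) h1 h2 (by norm_num) (by norm_num))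
    (by norm_num) (by norm_num) (by norm_num) (by norm_num) (by norm_num) (by norm_num) (by norm_num) (by norm_num) (by norm_num) (by norm_num) (by norm_num) (by norm_num) (by norm_num) (by norm_num) (by norm_num) (by norm_num) (by norm_num) (by norm_num) (by norm_num)
    (expn 15 0.6558 (by norm_num) (by norm_num) (by norm_num) (by norm_num)) (by norm_num) (by norm_num)

private theorem b8_12_Do_y {κ t : ℝ} (h : DomR κ t) (hk1 : 1.26 ≤ κ) (hk2 : κ ≤ 1.39) (ht1 : 0.589 ≤ t + κ) (ht2 : t + κ ≤ 0.8247) :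
    0.257 ≤ sy κ t ∧ sy κ t ≤ 0.345 := by
  have hy1 : 0.257 ≤ sy κ t := syR_ge h 1.26 1.39 0.589 0.257 1.29304 1.29305 0.23907 0.26375 hk1 hk2 (by linarith) (by norm_num) (by norm_num)
    (expn_ge (by norm_num) (by norm_num)) (expn_le (by norm_num) (by norm_num) (by norm_num)) (by norm_num)
    (by norm_num) (by norm_num) (by norm_num) (by norm_num) (by norm_num) (by norm_num)
  have hy2 : sy κ t ≤ 0.345 := syR_le h 1.26 1.39 0.8247 0.345 1.41198 0.3414 0.35045 0.38662 hk1 hk2 (by linarith) (by norm_num) (by norm_num)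
    (expn_ge (by norm_num) (by norm_num)) (by norm_num) (by norm_num) (Or.inr ((mul_le_mul_of_nonneg_left (expn_le (E := 1.41199) (by norm_num) (by norm_num) (by norm_num)) (by norm_num)).trans (by norm_num))) (by norm_num) (by norm_num) (by norm_num)
  exact ⟨by linarith, by linarith⟩

theorem b8_12_Do {β r h κ T t s u Y : ℝ} (B : By 1.26 1.39 0.487 0.474 22.8252 0.0567 5.441 β r h κ T) (hs : t + κ = s * h)
    (h1 : 0.75 ≤ u) (h2 : u ≤ 1.05) (h3 : u ≤ s) (h4 : s ≤ u + 0)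
    (hY : eN r κ * (0.8842 * Real.exp (-(T * (0.5238 * (1 - u) ^ 2)))) ≤ Y) :
    ‖Xf β r h t 1‖ ≤ 0.365 * Y := by
  obtain ⟨t', ht'⟩ : ∃ t', t' = t + 0 * h := ⟨_, rfl⟩
  have hτ : t' + κ = (s + 0) * h := by rw [ht']; linear_combination hs
  have a1 : 0.589 ≤ t' + κ := by rw [hτ]; exact mlo8 B.P (x1 := 0.75) (by linarith) (by norm_num) (by norm_num)
  have a2 : t' + κ ≤ 0.8247 := by rw [hτ]; exact mhi8 B.P (x2 := 1.05) (by linarith) (by norm_num) (by norm_num)
  have hk := B.hk1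
  have hk' := B.P.hκ1
  have hD : DomR κ t' := dom7 B.P.κ0 (by linarith) (by linarith)
  have hy := b8_12_Do_y hD B.hk1 B.hk2 a1 a2
  have hJ : ‖HH β (sg κ t') - 1‖ ≤ 0.03 := JB8_k1 hD B.P.hβ (by linarith) B.P.hκ1 (by linarith) (by linarith) B.P.βκ B.P.βR
  have hd := Dlo7 hD (1.26 ^ 2) (1.39 ^ 2) 0.9066 0.257 0.345 0.3274 0.51954 hy.1 hy.2 (pow_le_pow_left₀ (by norm_num) B.hk1 2) (pow_le_pow_left₀ B.P.κ0.le B.hk2 2)
      (by rw [show (-2 * 0.3274 : ℝ) = -0.6548 by norm_num]; exact expm_ge (by norm_num) (by norm_num) (by norm_num) (by norm_num)) (by norm_num) (by norm_num) (by norm_num) (by norm_num) (by norm_num)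
  have hc : sE κ t' ≤ 1 - 0.4457 * (t' + κ) ^ 2 / (1 + κ ^ 2) := VR8 0.83 0.4457 0.589 0.8247 _ _ _ _ _ B hD a1 a2 (by norm_num) (by norm_num) (by norm_num) (by norm_num) rfl rfl (by norm_num) rfl rfl rfl (by norm_num) (by norm_num)
  exact up8 0 0.03 0.4457 0.9066 1.0556 0.8842 0.2179 0.3057 0.365 B (by norm_num) ht' hs hD (by norm_num) hJ hc hd (by norm_num) (by norm_num) (by norm_num) hY (by norm_num)
    (ch0 (a := 0) (by norm_num) (sqR h1 h3 (by norm_num)) (by norm_num) h1 h2 (by norm_num) (by norm_num)) (by norm_num)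
    (expn 1 0.1855 (by norm_num) (by norm_num) (by norm_num) (by norm_num)) (by norm_num) (by norm_num)

theorem b8_12_D2R {β r h κ T t s u Y : ℝ} (B : By 1.26 1.39 0.487 0.474 22.8252 0.0567 5.441 β r h κ T) (hs : t + κ = s * h)
    (h1 : 0.75 ≤ u) (h2 : u ≤ 1.05) (h3 : u ≤ s) (h4 : s ≤ u + 0) (htp : t + 1 * h ≤ Real.pi / 2)
    (hY : eN r κ * (0.8842 * Real.exp (-(T * (0.5238 * (1 - u) ^ 2)))) ≤ Y) :
    ‖Xf β r h t 2‖ ≤ 0.0049408 * Y := by
  refine leE (cR8 1 0.6 0.3866 1.3744 1.6101 _ _ _ _ _ 0.3979 2.0179 0.3555 0.5923 0.7698 0.8842 1.1512 0.001905 0.004348 0.0328 0.6757 0.9921 4.7776 0.0001089 0.0005928 B (by norm_num) hs htp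
    (mlo8 B.P (x1 := 1.75) (by linarith) (by norm_num) (by norm_num)) (mhi8 B.P (x2 := 2.05) (by linarith) (by norm_num) (by norm_num)) hY (g0_nn (by norm_num))
    (g0_le (by norm_num) h1 h2 (by norm_num) (by norm_num)) (ch0 (a := 1) (by norm_num) (sqR h1 h3 (by norm_num)) (by norm_num) h1 h2 (by norm_num) (by norm_num))
    (by norm_num) (by norm_num) (by norm_num) (by norm_num) rfl rfl (by norm_num) rfl rfl rfl (by norm_num) (by norm_num) (by norm_num) (by norm_num) (by norm_num) (by norm_num) (by norm_num) (by norm_num) (by norm_num) (by norm_num) (by norm_num) (by norm_num) (by norm_num) (by norm_num) (by norm_num) (by norm_num) (by norm_num) (by norm_num) (by norm_num)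
    (expn 6 0.2636 (by norm_num) (by norm_num) (by norm_num) (by norm_num)) (by norm_num) (by norm_num) (by norm_num) (by norm_num) (by norm_num) (by norm_num) (by norm_num) (by norm_num) (expn 9 0.1255 (by norm_num) (by norm_num) (by norm_num) (by norm_num)) (by norm_num) (by norm_num)) (by norm_num) hY (by norm_num)

theorem b8_12_D2 {β r h κ T t s u Y : ℝ} (B : By 1.26 1.39 0.487 0.474 22.8252 0.0567 5.441 β r h κ T) (hs : t + κ = s * h)
    (h1 : 0.75 ≤ u) (h2 : u ≤ 1.05) (h3 : u ≤ s) (h4 : s ≤ u + 0)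
    (hY : eN r κ * (0.8842 * Real.exp (-(T * (0.5238 * (1 - u) ^ 2)))) ≤ Y) :
    ‖Xf β r h t 2‖ ≤ 0.0049408 * Y := by
  have hp : t + 1 * h ≤ Real.pi / 2 := by
    have e : t + 1 * h = (s + 1) * h - κ := by linear_combination hs
    have := mhi8 B.P (x := s + 1) (x2 := 2.05) (by linarith) (by norm_num) (le_refl _)
    have := B.hk1
    have := Real.pi_gt_d6
    rw [e]
    norm_num at *
    linarith
  exact leE (b8_12_D2R B hs h1 h2 h3 h4 hp hY) (by norm_num) hY (by norm_num)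

theorem b8_12_D3R {β r h κ T t s u Y : ℝ} (B : By 1.26 1.39 0.487 0.474 22.8252 0.0567 5.441 β r h κ T) (hs : t + κ = s * h)
    (h1 : 0.75 ≤ u) (h2 : u ≤ 1.05) (h3 : u ≤ s) (h4 : s ≤ u + 0) (htp : t + 2 * h ≤ Real.pi / 2)
    (hY : eN r κ * (0.8842 * Real.exp (-(T * (0.5238 * (1 - u) ^ 2)))) ≤ Y) :
    ‖Xf β r h t 3‖ ≤ 0.000006048 * Y := by
  refine leE (cR8 2 0.46 0.3293 2.1598 2.3955 _ _ _ _ _ 0.2544 2.2567 0.3555 0.3412 0.8168 0.8842 2.4575 0.000001561 0.000003985 0.0328 0.6757 0.9921 4.7776 0.0000003571 0.000002063 B (by norm_num) hs htp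
    (mlo8 B.P (x1 := 2.75) (by linarith) (by norm_num) (by norm_num)) (mhi8 B.P (x2 := 3.05) (by linarith) (by norm_num) (by norm_num)) hY (g0_nn (by norm_num))
    (g0_le (by norm_num) h1 h2 (by norm_num) (by norm_num)) (ch0 (a := 2) (by norm_num) (sqR h1 h3 (by norm_num)) (by norm_num) h1 h2 (by norm_num) (by norm_num))
    (by norm_num) (by norm_num) (by norm_num) (by norm_num) rfl rfl (by norm_num) rfl rfl rfl (by norm_num) (by norm_num) (by norm_num) (by norm_num) (by norm_num) (by norm_num) (by norm_num) (by norm_num) (by norm_num) (by norm_num) (by norm_num) (by norm_num) (by norm_num) (by norm_num) (by norm_num) (by norm_num) (by norm_num) (by norm_num) (by norm_num)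
    (expn 13 0.3712 (by norm_num) (by norm_num) (by norm_num) (by norm_num)) (by norm_num) (by norm_num) (by norm_num) (by norm_num) (by norm_num) (by norm_num) (by norm_num) (by norm_num) (expn 14 0.8569 (by norm_num) (by norm_num) (by norm_num) (by norm_num)) (by norm_num) (by norm_num)) (by norm_num) hY (by norm_num)

theorem b8_12_D3 {β r h κ T t s u Y : ℝ} (B : By 1.26 1.39 0.487 0.474 22.8252 0.0567 5.441 β r h κ T) (hs : t + κ = s * h)
    (h1 : 0.75 ≤ u) (h2 : u ≤ 1.05) (h3 : u ≤ s) (h4 : s ≤ u + 0)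
    (hY : eN r κ * (0.8842 * Real.exp (-(T * (0.5238 * (1 - u) ^ 2)))) ≤ Y) :
    ‖Xf β r h t 3‖ ≤ 0.000006048 * Y := by
  have hp : t + 2 * h ≤ Real.pi / 2 := by
    have e : t + 2 * h = (s + 2) * h - κ := by linear_combination hs
    have := mhi8 B.P (x := s + 2) (x2 := 3.05) (by linarith) (by norm_num) (le_refl _)
    have := B.hk1
    have := Real.pi_gt_d6
    rw [e]
    norm_num at *
    linarith
  exact leE (b8_12_D3R B hs h1 h2 h3 h4 hp hY) (by norm_num) hY (by norm_num)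

theorem b8_12_D4 {β r h κ T t s u Y : ℝ} (B : By 1.26 1.39 0.487 0.474 22.8252 0.0567 5.441 β r h κ T) (hs : t + κ = s * h)
    (h1 : 0.75 ≤ u) (h2 : u ≤ 1.05) (h3 : u ≤ s) (h4 : s ≤ u + 0)
    (hY : eN r κ * (0.8842 * Real.exp (-(T * (0.5238 * (1 - u) ^ 2)))) ≤ Y) :
    ‖Xf β r h t (4)‖ ≤ 0.0000001864 * Y := by
  refine cU8 0 (3) 1.5552 3.1809 0.2 0.3555 0.2 0.9807 0.8842 0.0328 0.6757 0.9921 4.7776 0.00000002688 0.0000001864 B (by norm_num) hs
    (fullz8 B.P B.hk2 (x1 := 3.75) (by push_cast; linarith) (by norm_num) (by norm_num)) (mhi8 B.P (x2 := 4.05) (by push_cast; linarith) (by norm_num) (by norm_num)) hY (g0_nn (by norm_num)) (g0_le (by norm_num) h1 h2 (by norm_num) (by norm_num))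
    (by norm_num) (by norm_num) (by norm_num) (by norm_num) (by norm_num) (by norm_num) (by norm_num) (by norm_num) (by norm_num) (by norm_num) (by norm_num) (by norm_num) (by norm_num) (by norm_num) (by norm_num) (by norm_num) (by norm_num) (by norm_num) (by norm_num)
    (expn 16 1.5 (by norm_num) (by norm_num) (by norm_num) (by norm_num)) (by norm_num) (by norm_num)

theorem b8_12_Dm1 {β r h κ T t s u Y : ℝ} (B : By 1.26 1.39 0.487 0.474 22.8252 0.0567 5.441 β r h κ T) (hs : t + κ = s * h)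
    (h1 : 0.75 ≤ u) (h2 : u ≤ 1.05) (h3 : u ≤ s) (h4 : s ≤ u + 0)
    (hY : eN r κ * (0.8842 * Real.exp (-(T * (0.5238 * (1 - u) ^ 2)))) ≤ Y) :
    ‖Xf β r h t (-1)‖ ≤ 0.1267001148 * Y := by
  refine leE (cL8 (-2) 0.98 0.4903 0.7461 0.9818 _ _ _ _ _ 2.8498 1.2335 0.3555 0 0.6037 0.8842 0.4411 0.09079 0.1267 0.0328 0.6757 0.9921 4.7776 0.00000002688 0.0000001148 B (by norm_num) hs
    (mloN8 B.P (x1 := 0.95) (by linarith) (by norm_num) (by norm_num)) (mhiN8 B.P (x2 := 1.25) (by linarith) (by norm_num) (by norm_num)) hY (g0_nn (by norm_num))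
    (g0_le (by norm_num) h1 h2 (by norm_num) (by norm_num)) (ch0 (a := (-2)) (by norm_num) (sqL h2 h4 (by norm_num) (by norm_num)) (by norm_num) h1 h2 (by norm_num) (by norm_num))
    (by norm_num) (by norm_num) (by norm_num) (by norm_num) rfl rfl (by norm_num) rfl rfl rfl (by norm_num) (by norm_num) (by norm_num) (by norm_num) (by norm_num) (by norm_num) (by norm_num) (by norm_num) (by norm_num) (by norm_num) (by norm_num) (by norm_num) (by norm_num) (by norm_num) (by norm_num) (by norm_num) (by norm_num) (by norm_num)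
    (expn 2 0.4 (by norm_num) (by norm_num) (by norm_num) (by norm_num)) (by norm_num) (by norm_num) (by norm_num) (by norm_num) (by norm_num) (by norm_num) (by norm_num) (by norm_num) (expn 16 1.5 (by norm_num) (by norm_num) (by norm_num) (by norm_num)) (by norm_num) (by norm_num)) (by norm_num) hY (by norm_num)

theorem b8_12_Dm2 {β r h κ T t s u Y : ℝ} (B : By 1.26 1.39 0.487 0.474 22.8252 0.0567 5.441 β r h κ T) (hs : t + κ = s * h)
    (h1 : 0.75 ≤ u) (h2 : u ≤ 1.05) (h3 : u ≤ s) (h4 : s ≤ u + 0)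
    (hY : eN r κ * (0.8842 * Real.exp (-(T * (0.5238 * (1 - u) ^ 2)))) ≤ Y) :
    ‖Xf β r h t (-2)‖ ≤ 0.0000693363 * Y := by
  refine leE (cL8 (-3) 0.9 0.4746 1.5315 1.7672 _ _ _ _ _ 4.4174 1.1055 0.3555 0 0.7169 0.8842 1.8033 0.00005534 0.0000692 0.0328 0.6757 0.9921 4.7776 0.00000002688 0.0000001363 B (by norm_num) hs
    (mloN8 B.P (x1 := 1.95) (by linarith) (by norm_num) (by norm_num)) (mhiN8 B.P (x2 := 2.25) (by linarith) (by norm_num) (by norm_num)) hY (g0_nn (by norm_num))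
    (g0_le (by norm_num) h1 h2 (by norm_num) (by norm_num)) (ch0 (a := (-3)) (by norm_num) (sqL h2 h4 (by norm_num) (by norm_num)) (by norm_num) h1 h2 (by norm_num) (by norm_num))
    (by norm_num) (by norm_num) (by norm_num) (by norm_num) rfl rfl (by norm_num) rfl rfl rfl (by norm_num) (by norm_num) (by norm_num) (by norm_num) (by norm_num) (by norm_num) (by norm_num) (by norm_num) (by norm_num) (by norm_num) (by norm_num) (by norm_num) (by norm_num) (by norm_num) (by norm_num) (by norm_num) (by norm_num) (by norm_num)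
    (expn 9 0.8117 (by norm_num) (by norm_num) (by norm_num) (by norm_num)) (by norm_num) (by norm_num) (by norm_num) (by norm_num) (by norm_num) (by norm_num) (by norm_num) (by norm_num) (expn 16 1.5 (by norm_num) (by norm_num) (by norm_num) (by norm_num)) (by norm_num) (by norm_num)) (by norm_num) hY (by norm_num)

theorem b8_12_Dm3 {β r h κ T t s u Y : ℝ} (B : By 1.26 1.39 0.487 0.474 22.8252 0.0567 5.441 β r h κ T) (hs : t + κ = s * h)
    (h1 : 0.75 ≤ u) (h2 : u ≤ 1.05) (h3 : u ≤ s) (h4 : s ≤ u + 0)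
    (hY : eN r κ * (0.8842 * Real.exp (-(T * (0.5238 * (1 - u) ^ 2)))) ≤ Y) :
    ‖Xf β r h t (-3)‖ ≤ 0.00003314 * Y := by
  refine cU8 1 (-4) 2.3406 3.9663 0.02 0.3555 0.4625 0.8329 0.8842 0.0328 0.6757 0.9921 4.7776 0.000005626 0.00003314 B (by norm_num) hs
    (full8 B.P B.hk2 (x1 := 4.75) (by push_cast; linarith) (by norm_num) (by norm_num)) (mhi8 B.P (x2 := 5.05) (by push_cast; linarith) (by norm_num) (by norm_num)) hY (g0_nn (by norm_num)) (g0_le (by norm_num) h1 h2 (by norm_num) (by norm_num))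
    (by norm_num) (by norm_num) (by norm_num) (by norm_num) (by norm_num) (by norm_num) (by norm_num) (by norm_num) (by norm_num) (by norm_num) (by norm_num) (by norm_num) (by norm_num) (by norm_num) (by norm_num) (by norm_num) (by norm_num) (by norm_num) (by norm_num)
    (expn 12 0.0882 (by norm_num) (by norm_num) (by norm_num) (by norm_num)) (by norm_num) (by norm_num)

private theorem b8_12_yS1 {κ t : ℝ} (h : DomR κ t) (hk1 : 1.26 ≤ κ) (hk2 : κ ≤ 1.39) (ht1 : 0.3377 ≤ t + κ) (ht2 : t + κ ≤ 0.4634) :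
    0.153 ≤ sy κ t ∧ sy κ t ≤ 0.209 := by
  have hy1 : 0.153 ≤ sy κ t := syR_ge h 1.26 1.39 0.3377 0.153 1.16532 1.16533 0.12826 0.14151 hk1 hk2 (by linarith) (by norm_num) (by norm_num)
    (expn_ge (by norm_num) (by norm_num)) (expn_le (by norm_num) (by norm_num) (by norm_num)) (by norm_num)
    (by norm_num) (by norm_num) (by norm_num) (by norm_num) (by norm_num) (by norm_num)
  have hy2 : sy κ t ≤ 0.209 := syR_le h 1.26 1.39 0.4634 0.209 1.23244 0.1884 0.1853 0.20444 hk1 hk2 (by linarith) (by norm_num) (by norm_num)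
    (expn_ge (by norm_num) (by norm_num)) (by norm_num) (by norm_num) (Or.inr ((mul_le_mul_of_nonneg_left (expn_le (E := 1.23245) (by norm_num) (by norm_num) (by norm_num)) (by norm_num)).trans (by norm_num))) (by norm_num) (by norm_num) (by norm_num)
  exact ⟨by linarith, by linarith⟩

private theorem b8_12_yS0 {κ t : ℝ} (h : DomR κ t) (hk1 : 1.26 ≤ κ) (hk2 : κ ≤ 1.39) (ht1 : (-0.4477) ≤ t + κ) (ht2 : t + κ ≤ (-0.322)) :
    (-0.227) ≤ sy κ t ∧ sy κ t ≤ (-0.155) := by
  have hy1 : -0.227 ≤ sy κ t := syL_ge h 1.26 1.39 0.4477 0.227 0.79692 0.79693 0.1312 0.13014 0.14358 hk1 hk2 (by linarith) (by norm_num) (by norm_num) (by norm_num)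
    (expm_ge (by norm_num) (by norm_num) (by norm_num) (by norm_num)) (expm_le (by norm_num) (by norm_num) (by norm_num)) (by norm_num)
    (by norm_num) (by norm_num) (by norm_num) (by norm_num) (by norm_num) (by norm_num)
  have hy2 : sy κ t ≤ -0.155 := syL_le h 1.26 1.39 0.322 0.155 0.85641 0.85642 0.09549 0.10536 hk1 hk2 (by linarith) (by norm_num) (by norm_num) (by norm_num)
    (expm_ge (by norm_num) (by norm_num) (by norm_num) (by norm_num)) (expm_le (by norm_num) (by norm_num) (by norm_num)) (by norm_num)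
    (by norm_num) (by norm_num) (by norm_num) (by norm_num) (by norm_num) (by norm_num)
  exact ⟨by linarith, by linarith⟩

theorem b8_12_S {β r h κ T t s : ℝ} (B : By 1.26 1.39 0.487 0.474 22.8252 0.0567 5.441 β r h κ T) (hs : t + κ = s * h)
    (h1 : 0.43 ≤ s) (h2 : s ≤ 0.59) :
    ‖Ld β r h t 0‖ ≤ r * 1.25483 + 1.2958 ∧ ‖Ld β r h t 1‖ ≤ r * 0.85813 + 0.6145 ∧
      T * 1.0972 - (0.3801 + 1.0232 + 0.115 + 0) ≤ (Ld β r h t 1 - Ld β r h t 0).im := by
  have a1 : 0.3377 ≤ t + κ := by rw [hs]; exact mlo8 B.P h1 (by norm_num) (by norm_num)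
  have a2 : t + κ ≤ 0.4634 := by rw [hs]; exact mhi8 B.P h2 (by norm_num) (by norm_num)
  have hτ : t - h + κ = (s + (-1)) * h := by linear_combination hs
  have b1 : (-0.4477) ≤ t - h + κ := by rw [hτ]; have := mhiN8 B.P (x := s + (-1)) (x2 := 0.57) (τ2 := 0.4477) (by linarith) (by norm_num) (by norm_num); linarith
  have b2 : t - h + κ ≤ (-0.322) := by rw [hτ]; have := mloN8 B.P (x := s + (-1)) (x1 := 0.41) (τ1 := 0.322) (by linarith) (by norm_num) (by norm_num); linarith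
  have hk := B.hk1
  have hk2 := B.hk2
  have hk' := B.P.hκ1
  have hD1 : DomR κ t := dom7 B.P.κ0 (by linarith) (by linarith)
  have hD0 : DomR κ (t - h) := dom7 B.P.κ0 (by linarith) (by linarith)
  have hy1 := b8_12_yS1 hD1 B.hk1 B.hk2 a1 a2
  have hy0 := b8_12_yS0 hD0 B.hk1 B.hk2 b1 b2
  have hd1 := Dlo7 hD1 (1.26 ^ 2) (1.39 ^ 2) 0.9174 0.153 0.209 0.2034 0.66577 hy1.1 hy1.2 (pow_le_pow_left₀ (by norm_num) B.hk1 2) (pow_le_pow_left₀ B.P.κ0.le B.hk2 2)
      (by rw [show (-2 * 0.2034 : ℝ) = -0.4068 by norm_num]; exact expm_ge (by norm_num) (by norm_num) (by norm_num) (by norm_num)) (by norm_num) (by norm_num) (by norm_num) (by norm_num) (by norm_num)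
  have hd0 := Dlo7 hD0 (1.26 ^ 2) (1.39 ^ 2) 1.1031 (-0.227) (-0.155) (-0.155) 1.36342 hy0.1 hy0.2 (pow_le_pow_left₀ (by norm_num) B.hk1 2) (pow_le_pow_left₀ B.P.κ0.le B.hk2 2)
      (by rw [show (-2 * (-0.155) : ℝ) = 0.31 by norm_num]; exact expn_ge (by norm_num) (by norm_num)) (by norm_num) (by norm_num) (by norm_num) (by norm_num) (by norm_num)
  have hJ1 := JB8_S1 hD1 B.P.hβ (by linarith) (by linarith) (by linarith) (by linarith) B.P.βκ B.P.βR
  have hJ0 := JB8_S0 hD0 B.P.hβ (by linarith) (by linarith) (by linarith) (by linarith) B.P.βκ B.P.βR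
  obtain ⟨m1, n1⟩ := copy8 (t := t) (t' := t) (k := 1) 1.26 1.39 0.9174 0.153 0.85813 0.7364 0.7221 0.6491 0.05 0.1 0.3801 0.6145 B.P (by push_cast; ring) hD1 B.hk1 B.hk2 (by norm_num) (by norm_num) (by norm_num) (by norm_num) hJ1
    hy1.1 (by norm_num) hd1 (by norm_num) (expm_le (by norm_num) (by norm_num) (by norm_num)) (by norm_num) (by norm_num) (by norm_num) (by norm_num) (by norm_num) (by norm_num) (by norm_num) (by norm_num)
  obtain ⟨m0, n0⟩ := copy8 (t := t) (t' := t - h) (k := 0) 1.26 1.39 1.1031 (-0.227) 1.25483 1.5746 0.9208 0.5919 0.1 0.1 1.0232 1.2958 B.P (by push_cast; ring) hD0 B.hk1 B.hk2 (by norm_num) (by norm_num) (by norm_num) (by norm_num) hJ0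
    hy0.1 (by norm_num) hd0 (by norm_num) (by rw [neg_neg]; exact expn_le (by norm_num) (by norm_num) (by norm_num)) (by norm_num) (by norm_num) (by norm_num) (by norm_num) (by norm_num) (by norm_num) (by norm_num) (by norm_num)
  refine ⟨m0, m1, ?_⟩
  have q1 := corr1_ge hD1 1.26 1.39 0.9174 0.115 B.hk1 B.hk2 (by norm_num) (by linarith) hd1 (by norm_num) (by norm_num) (Or.inr (by norm_num))
  have q0 := corr0_le hD0 1.26 1.39 1.1031 1.25483 0 B.hk1 B.hk2 (by norm_num) (by linarith) hd0 (by norm_num) (by norm_num)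
    ((Real.exp_le_exp.2 (by linarith)).trans (show Real.exp (-(-0.227)) ≤ 1.25483 from (by rw [neg_neg]; exact expn_le (by norm_num) (by norm_num) (by norm_num)))) (Or.inl (by norm_num))
  exact slope8 0.797 0.955 1.0972 0.43 0.59 0.3801 1.0232 0.115 0 B.P hs h1 h2 (pR_050 hD1 (by linarith) (by linarith) (by linarith)) (pL_050 hD0 (by linarith) (by linarith) (by linarith)) n1 n0 q1 q0
    (by norm_num) (by norm_num) (by norm_num)

theorem boxb8_12 {p : ℤ} (hp : IsCoprime (8 : ℤ) p) {β r h κ T : ℝ} (P : Q8 β r h κ T) (hk1 : 1.26 ≤ κ) (hk2 : κ ≤ 1.39) :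
    Circ (2 * Real.pi * p / (8 : ℕ) + β) r := by
  have B : By 1.26 1.39 0.487 0.474 22.8252 0.0567 5.441 β r h κ T :=
    { P := P, hk1 := hk1, hk2 := hk2, hψ := (psi_hi hk1 (by norm_num)).trans (by norm_num), hψ1 := le_trans (by norm_num) (psi1_hi hk2 (by linarith)), hR0 := P.Rge (k1 := 1.26) (by norm_num) hk1 (by norm_num), hβ0 := P.β56, hT0 := P.T5 }
  have hT := B.hT0
  have hr := P.r_le (ν := 4.7534) hk2 (by norm_num)
  have hbh : β ≤ 0.0722 * h := by
    have h1 := B.hβ0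
    have h2 := mul_le_mul_of_nonneg_left P.hlo (by norm_num : (0 : ℝ) ≤ 0.0722)
    linarith
  refine fin8 hp P (slo := 0.43) (shi := 0.59) (bb := 0.0722) (ℓ1 := 0.9699) (ℓ0 := 0.8842) (C0 := 0.5238) (e2 := 0.0167) (e3 := 0.00007675) (e4 := 0.000002908) (f1 := 0.0104901223) (g1 := 0.0182801223) (f2 := 0.0000018569) (f3 := 0.0000004763)
    (a := 1.03) (m := T * 1.0972 - (1.5183)) (η := 0.0273) (Λ0 := r * 1.25483 + 1.2958) (Λ1 := r * 0.85813 + 0.6145) (S1 := 0.0509)
    (by norm_num) (by norm_num) (by linarith) (by norm_num) (by norm_num) hbh (by norm_num)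
    ?_ ?_ ?_ ?_ ?_ ?_ ?_ ?_ ?_ ?_ ?_ ?_ ?_ ?_ (by norm_num) (by norm_num) (by norm_num) ?_
  · intro t s hs h1 h2
    exact b8_12_L1 B hs (by linarith) h2
  · intro t s hs h1 h2
    exact b8_12_L0 B hs h1 (by linarith)
  · intro t s u Y hs h1 h2 h3 h4 hY
    have hY' : eN r κ * (0.9699 * Real.exp (-(T * (1 / 2 * u ^ 2)))) ≤ Y := hY
    rcases le_total u 0.5 with hc | hc
    · exact leE (b8_12_W2a B hs h1 hc h3 h4 hY') (by norm_num) hY' (by norm_num)
    · exact leE (b8_12_W2b B hs hc h2 h3 h4 hY') (by norm_num) hY' (by norm_num)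
  · intro t s u Y hs h1 h2 h3 h4 hY
    exact b8_12_W3 B hs h1 h2 h3 h4 hY
  · intro t s u Y hs h1 h2 h3 h4 hY
    exact b8_12_W4 B hs h1 h2 h3 h4 hY
  · intro t s u Y hs h1 h2 h3 h4 hY
    exact b8_12_Wm1 B hs h1 h2 h3 h4 hY
  · intro t s u Y hs h1 h2 h3 h4 hY
    exact b8_12_Wm1p B hs h1 h2 h3 h4 hY
  · intro t s u Y hs h1 h2 h3 h4 hY
    exact b8_12_Wm2 B hs h1 h2 h3 h4 hY
  · intro t s u Y hs h1 h2 h3 h4 hY
    exact b8_12_Wm3 B hs h1 h2 h3 h4 hY
  · intro t s hs h1 h2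
    have hY := b8_12_L1 B hs (by linarith) (by linarith)
    have hYp := lt_of_lt_of_le (mul_pos (eN_pos r κ) (mul_pos (by norm_num : (0 : ℝ) < 0.9699) (Real.exp_pos _))) hY
    rcases le_total s 0.37 with hc | hc
    · have x0 := b8_12_Ao B hs h1 hc le_rfl (by linarith) hY
      have x2 := b8_12_A2 B hs h1 hc le_rfl (by linarith) hY
      have x3 := b8_12_A3 B hs h1 hc le_rfl (by linarith) hY
      have x4 := b8_12_A4 B hs h1 hc le_rfl (by linarith) hY
      have xm1 := b8_12_Am1 B hs h1 hc le_rfl (by linarith) hY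
      have xm2 := b8_12_Am2 B hs h1 hc le_rfl (by linarith) hY
      have xm3 := b8_12_Am3 B hs h1 hc le_rfl (by linarith) hY
      linarith
    · have x0 := b8_12_Bo B hs hc h2 le_rfl (by linarith) hY
      have x2 := b8_12_B2 B hs hc h2 le_rfl (by linarith) hY
      have x3 := b8_12_B3 B hs hc h2 le_rfl (by linarith) hY
      have x4 := b8_12_B4 B hs hc h2 le_rfl (by linarith) hY
      have xm1 := b8_12_Bm1 B hs hc h2 le_rfl (by linarith) hY
      have xm2 := b8_12_Bm2 B hs hc h2 le_rfl (by linarith) hY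
      have xm3 := b8_12_Bm3 B hs hc h2 le_rfl (by linarith) hY
      linarith
  · intro t s hs h1 h2
    have hY := b8_12_L0 B hs (by linarith) (by linarith)
    have hYp := lt_of_lt_of_le (mul_pos (eN_pos r κ) (mul_pos (by norm_num : (0 : ℝ) < 0.8842) (Real.exp_pos _))) hY
    rcases le_total s 0.75 with hc | hc
    · have x0 := b8_12_Co B hs h1 hc le_rfl (by linarith) hY
      have x2 := b8_12_C2 B hs h1 hc le_rfl (by linarith) hY
      have x3 := b8_12_C3 B hs h1 hc le_rfl (by linarith) hY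
      have x4 := b8_12_C4 B hs h1 hc le_rfl (by linarith) hY
      have xm1 := b8_12_Cm1 B hs h1 hc le_rfl (by linarith) hY
      have xm2 := b8_12_Cm2 B hs h1 hc le_rfl (by linarith) hY
      have xm3 := b8_12_Cm3 B hs h1 hc le_rfl (by linarith) hY
      linarith
    · have x0 := b8_12_Do B hs hc h2 le_rfl (by linarith) hY
      have x2 := b8_12_D2 B hs hc h2 le_rfl (by linarith) hY
      have x3 := b8_12_D3 B hs hc h2 le_rfl (by linarith) hY
      have x4 := b8_12_D4 B hs hc h2 le_rfl (by linarith) hY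
      have xm1 := b8_12_Dm1 B hs hc h2 le_rfl (by linarith) hY
      have xm2 := b8_12_Dm2 B hs hc h2 le_rfl (by linarith) hY
      have xm3 := b8_12_Dm3 B hs hc h2 le_rfl (by linarith) hY
      linarith
  · intro t s hs h1 h2
    exact (b8_12_S B hs h1 h2).1
  · intro t s hs h1 h2
    exact (b8_12_S B hs h1 h2).2.1
  · intro t s hs h1 h2
    have := (b8_12_S B hs h1 h2).2.2
    linarith
  · linarith

end Sok
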