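import Pool.Agent.Lib.MP_816dec_an.R1b8D
import Pool.Agent.Lib.MP_816dec_an.JB8a
import Pool.Agent.Lib.MP_816dec_an.JB8b
import Pool.Agent.Lib.MP_816dec_an.JB8c
import Pool.Agent.Lib.MP_816dec_an.JB8w

/-!
MP_816dec_an (A3, row R1), b = 8: box 2
-/

set_option autoImplicit false
set_option maxHeartbeats 4000000

open Complex Set Filter Topology Metric

namespace Sok

private theorem b8_2_yL1 {κ t : ℝ} (h : DomR κ t) (hk1 : 0.33 ≤ κ) (hk2 : κ ≤ 0.36) (ht1 : 0 ≤ t + κ) (ht2 : t + κ ≤ 0.4634) :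
    0 ≤ sy κ t ∧ sy κ t ≤ 0.124 := by
  have hy1 : 0 ≤ sy κ t := sy_nonneg h (by linarith)
  have hy2 : sy κ t ≤ 0.124 := syR_le h 0.33 0.36 0.4634 0.124 1.13201 0.381 0.38991 0.42537 hk1 hk2 (by linarith) (by norm_num) (by norm_num)
    (expn_ge (by norm_num) (by norm_num)) (by norm_num) (by norm_num) (Or.inr ((mul_le_mul_of_nonneg_left (expn_le (E := 1.13202) (by norm_num) (by norm_num) (by norm_num)) (by norm_num)).trans (by norm_num))) (by norm_num) (by norm_num) (by norm_num)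
  exact ⟨by linarith, by linarith⟩

theorem b8_2_L1 {β r h κ T t s : ℝ} (B : By 0.33 0.36 0.3187 0.2975 10 0.036 5.4607 β r h κ T) (hs : t + κ = s * h)
    (h1 : 0.05 ≤ s) (h2 : s ≤ 0.59) :
    eN r κ * (0.9263 * Real.exp (-(T * (1 / 2 * s ^ 2)))) ≤ ‖Xf β r h t 1‖ := by
  have a1 : 0.0392 ≤ t + κ := by rw [hs]; exact mlo8 B.P h1 (by norm_num) (by norm_num)
  have a2 : t + κ ≤ 0.4634 := by rw [hs]; exact mhi8 B.P h2 (by norm_num) (by norm_num)
  have hk := B.hk1
  have hD : DomR κ t := dom7 B.P.κ0 (by linarith) (by linarith)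
  have hy := b8_2_yL1 hD B.hk1 B.hk2 (by linarith) a2
  have hJ := JB8_k1 hD B.P.hβ (by linarith) B.P.hκ1 (by linarith) (by linarith) B.P.βκ B.P.βR
  have hd := Dup7 hD (0.33 ^ 2) (0.36 ^ 2) 1.2021 0 0.124 1 0.78036 hy.1 hy.2 (pow_le_pow_left₀ (by norm_num) B.hk1 2) (pow_le_pow_left₀ B.P.κ0.le B.hk2 2)
      (by norm_num)
      (by rw [show (-2 * 0.124 : ℝ) = -0.248 by norm_num]; exact expm_le (by norm_num) (by norm_num) (by norm_num)) (by norm_num) (by norm_num) (by norm_num) (by norm_num)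
  have := loR8 (k := 1) 0 0.03 1.2021 0.9263 B.P (by norm_num) (by ring : t = t + 0 * h) hs (by linarith) hD (by norm_num) hJ hd (by norm_num) (by norm_num)
  rw [add_zero] at this
  exact this

private theorem b8_2_yL0 {κ t : ℝ} (h : DomR κ t) (hk1 : 0.33 ≤ κ) (hk2 : κ ≤ 0.36) (ht1 : (-0.4477) ≤ t + κ) (ht2 : t + κ ≤ 0) :
    (-0.174) ≤ sy κ t ∧ sy κ t ≤ 0 := by
  have hy1 : -0.174 ≤ sy κ t := syL_ge h 0.33 0.36 0.4477 0.174 0.84029 0.8403 0.3969 0.40614 0.44307 hk1 hk2 (by linarith) (by norm_num) (by norm_num) (by norm_num)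
    (expm_ge (by norm_num) (by norm_num) (by norm_num) (by norm_num)) (expm_le (by norm_num) (by norm_num) (by norm_num)) (by norm_num)
    (by norm_num) (by norm_num) (by norm_num) (by norm_num) (by norm_num) (by norm_num)
  have hy2 : sy κ t ≤ 0 := sy_nonpos h (by linarith)
  exact ⟨by linarith, by linarith⟩

private theorem b8_2_yL00 {κ t : ℝ} (h : DomR κ t) (hk1 : 0.33 ≤ κ) (hk2 : κ ≤ 0.36) (ht1 : 0 ≤ t + κ) (ht2 : t + κ ≤ 0.04) :
    0 ≤ sy κ t ∧ sy κ t ≤ 0.013 := by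
  have hy1 : 0 ≤ sy κ t := sy_nonneg h (by linarith)
  have hy2 : sy κ t ≤ 0.013 := syR_le h 0.33 0.36 0.04 0.013 1.01308 0.0357 0.03658 0.03991 hk1 hk2 (by linarith) (by norm_num) (by norm_num)
    (expn_ge (by norm_num) (by norm_num)) (by norm_num) (by norm_num) (Or.inr ((mul_le_mul_of_nonneg_left (expn_le (E := 1.01309) (by norm_num) (by norm_num) (by norm_num)) (by norm_num)).trans (by norm_num))) (by norm_num) (by norm_num) (by norm_num)
  exact ⟨by linarith, by linarith⟩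

theorem b8_2_L0 {β r h κ T t s : ℝ} (B : By 0.33 0.36 0.3187 0.2975 10 0.036 5.4607 β r h κ T) (hs : t + κ = s * h)
    (h1 : 0.43 ≤ s) (h2 : s ≤ 1.05) :
    eN r κ * (0.9251 * Real.exp (-(T * (0.5777 * (1 - s) ^ 2)))) ≤ ‖Xf β r h t 0‖ := by
  obtain ⟨t', ht'⟩ : ∃ t', t' = t + (-1) * h := ⟨_, rfl⟩
  have hτ : t' + κ = (s + (-1)) * h := by rw [ht']; linear_combination hs
  have e : 0.5777 * (1 - s) ^ 2 = 0.5777 * (s + (-1)) ^ 2 := by ring
  rw [e]
  have b1 : -((s + (-1)) * h) ≤ 0.4477 := mhiN8 B.P (x2 := 0.57) (by linarith) (by norm_num) (by norm_num)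
  have b2 : (s + (-1)) * h ≤ 0.04 := mhi8 B.P (x2 := 0.05) (by linarith) (by norm_num) (by norm_num)
  have hk := B.hk1
  have hk' := B.P.hκ1
  rw [← hτ] at b1 b2
  have hD : DomR κ t' := dom7 B.P.κ0 (by linarith) (by linarith)
  have hJ := JB8_k0 hD B.P.hβ (by linarith) B.P.hκ1 (by linarith) (by linarith) B.P.βκ B.P.βR
  rcases le_total s 1 with hc | hc
  · have b3 : t' + κ ≤ 0 := by rw [hτ]; exact mul_nonpos_of_nonpos_of_nonneg (by linarith) B.P.h0.le
    have hy := b8_2_yL0 hD B.hk1 B.hk2 (by linarith) b3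
    have hd := Dup7 hD (0.33 ^ 2) (0.36 ^ 2) 1.021 (-0.174) 0 1.41624 1 hy.1 hy.2 (pow_le_pow_left₀ (by norm_num) B.hk1 2) (pow_le_pow_left₀ B.P.κ0.le B.hk2 2)
      (by rw [show (-2 * (-0.174) : ℝ) = 0.348 by norm_num]; exact expn_le (by norm_num) (by norm_num) (by norm_num))
      (by norm_num) (by norm_num) (by norm_num) (by norm_num) (by norm_num)
    exact loLB8 (k := 0) (-1) 0.07 1.021 0.9251 0.5777 0.4477 0.4346 0.1148 0.7334 B (by norm_num) ht' hs (by linarith) (by rw [← hτ]; exact b1) hD (by norm_num) hJ hd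
      (by norm_num) (by norm_num) (by norm_num) (by norm_num) (by norm_num) (by norm_num) (by norm_num) (by norm_num) (by norm_num) (by norm_num) (by norm_num) (by norm_num) (by norm_num)
  · have b3 : 0 ≤ t' + κ := by rw [hτ]; exact mul_nonneg (by linarith) B.P.h0.le
    have hy := b8_2_yL00 hD B.hk1 B.hk2 b3 b2
    have hd := Dup7 hD (0.33 ^ 2) (0.36 ^ 2) 1.021 0 0.013 1 0.97434 hy.1 hy.2 (pow_le_pow_left₀ (by norm_num) B.hk1 2) (pow_le_pow_left₀ B.P.κ0.le B.hk2 2)
      (by norm_num)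
      (by rw [show (-2 * 0.013 : ℝ) = -0.026 by norm_num]; exact expm_le (by norm_num) (by norm_num) (by norm_num)) (by norm_num) (by norm_num) (by norm_num) (by norm_num)
    have := loR8 (k := 0) (-1) 0.07 1.021 0.9251 B.P (by norm_num) ht' hs (by linarith) hD (by norm_num) hJ hd (by norm_num) (by norm_num)
    exact le_trans (weak7 (by have := B.P.T5; linarith) (by norm_num) (by norm_num)) this

private theorem b8_2_W2a_y {κ t : ℝ} (h : DomR κ t) (hk1 : 0.33 ≤ κ) (hk2 : κ ≤ 0.36) (ht1 : 1.1231 ≤ t + κ) (ht2 : t + κ ≤ 1.2142) :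
    0.213 ≤ sy κ t ∧ sy κ t ≤ 0.242 := by
  have hy1 : 0.213 ≤ sy κ t := syR_ge h 0.33 0.36 1.1231 0.213 1.23738 1.23739 0.73211 0.79868 hk1 hk2 (by linarith) (by norm_num) (by norm_num)
    (expn_ge (by norm_num) (by norm_num)) (expn_le (by norm_num) (by norm_num) (by norm_num)) (by norm_num)
    (by norm_num) (by norm_num) (by norm_num) (by norm_num) (by norm_num) (by norm_num)
  have hy2 : sy κ t ≤ 0.242 := syR_ang2 h 0.33 0.36 1.2142 1.027 0.519 0.856 0.242 0.78506 1.27379 hk1 hk2 (by linarith) (by norm_num) (by norm_num) (by norm_num)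
    (cos_le_num (by norm_num)) (sin_le_num (by norm_num) (by norm_num)) (expm_le (by norm_num) (by norm_num) (by norm_num))
    (expn_ge (by norm_num) (by norm_num)) (by norm_num) (by norm_num) (by norm_num) (by norm_num) (by norm_num)
  exact ⟨by linarith, by linarith⟩

theorem b8_2_W2a {β r h κ T t s u Y : ℝ} (B : By 0.33 0.36 0.3187 0.2975 10 0.036 5.4607 β r h κ T) (hs : t + κ = s * h)
    (h1 : 0.43 ≤ u) (h2 : u ≤ 0.5) (h3 : u ≤ s) (h4 : s ≤ u + 0.0459)
    (hY : eN r κ * (0.9263 * Real.exp (-(T * (1 / 2 * u ^ 2)))) ≤ Y) :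
    ‖Xf β r h t 2‖ ≤ 0.03155 * Y := by
  obtain ⟨t', ht'⟩ : ∃ t', t' = t + 1 * h := ⟨_, rfl⟩
  have hτ : t' + κ = (s + 1) * h := by rw [ht']; linear_combination hs
  have a1 : 1.1231 ≤ t' + κ := by rw [hτ]; exact mlo8 B.P (x1 := 1.43) (by linarith) (by norm_num) (by norm_num)
  have a2 : t' + κ ≤ 1.2142 := by rw [hτ]; exact mhi8 B.P (x2 := 1.5459) (by linarith) (by norm_num) (by norm_num)
  have hk := B.hk1
  have hk' := B.P.hκ1
  have hD : DomR κ t' := dom7 B.P.κ0 (by linarith) (by linarith)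
  have hy := b8_2_W2a_y hD B.hk1 B.hk2 a1 a2
  have hJ : ‖HH β (sg κ t') - 1‖ ≤ 0.04 := JB8_k2 hD B.P.hβ (by linarith) B.P.hκ1 (by linarith) (by linarith) B.P.βκ B.P.βR
  have hd := Dlo7 hD (0.33 ^ 2) (0.36 ^ 2) 1.3373 0.213 0.242 0.213 0.65311 hy.1 hy.2 (pow_le_pow_left₀ (by norm_num) B.hk1 2) (pow_le_pow_left₀ B.P.κ0.le B.hk2 2)
      (by rw [show (-2 * 0.213 : ℝ) = -0.426 by norm_num]; exact expm_ge (by norm_num) (by norm_num) (by norm_num) (by norm_num)) (by norm_num) (by norm_num) (by norm_num) (by norm_num) (by norm_num)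
  have hc : sE κ t' ≤ 1 - 0.3588 * (t' + κ) ^ 2 / (1 + κ ^ 2) := VR8 0.6 0.3588 1.1231 1.2142 _ _ _ _ _ B hD a1 a2 (by norm_num) (by norm_num) (by norm_num) (by norm_num) rfl rfl (by norm_num) rfl rfl rfl (by norm_num) (by norm_num)
  exact up8 1 0.04 0.3588 1.3373 0.9672 0.9263 0.6412 0.03021 0.03155 B (by norm_num) ht' hs hD (by norm_num) hJ hc hd (by norm_num) (by norm_num) (by norm_num) hY (by norm_num)
    (ch1 (a := 1) (by norm_num) (sqR h1 h3 (by norm_num)) (by norm_num) h1 h2 (by norm_num) (by norm_num)) (by norm_num)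
    (expn 3 0.5014 (by norm_num) (by norm_num) (by norm_num) (by norm_num)) (by norm_num) (by norm_num)

private theorem b8_2_W2b_y {κ t : ℝ} (h : DomR κ t) (hk1 : 0.33 ≤ κ) (hk2 : κ ≤ 0.36) (ht1 : 1.178 ≤ t + κ) (ht2 : t + κ ≤ 1.2849) :
    0.213 ≤ sy κ t ∧ sy κ t ≤ 0.248 := by
  have hy1 : 0.213 ≤ sy κ t := syR_ge h 0.33 0.36 1.178 0.213 1.23738 1.23739 0.73211 0.79868 hk1 hk2 (by linarith) (by norm_num) (by norm_num)
    (expn_ge (by norm_num) (by norm_num)) (expn_le (by norm_num) (by norm_num) (by norm_num)) (by norm_num)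
    (by norm_num) (by norm_num) (by norm_num) (by norm_num) (by norm_num) (by norm_num)
  have hy2 : sy κ t ≤ 0.248 := syR_ang2 h 0.33 0.36 1.2849 1.08 0.4735 0.8823 0.248 0.78036 1.28145 hk1 hk2 (by linarith) (by norm_num) (by norm_num) (by norm_num)
    (cos_le_num (by norm_num)) (sin_le_num (by norm_num) (by norm_num)) (expm_le (by norm_num) (by norm_num) (by norm_num))
    (expn_ge (by norm_num) (by norm_num)) (by norm_num) (by norm_num) (by norm_num) (by norm_num) (by norm_num)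
  exact ⟨by linarith, by linarith⟩

theorem b8_2_W2b {β r h κ T t s u Y : ℝ} (B : By 0.33 0.36 0.3187 0.2975 10 0.036 5.4607 β r h κ T) (hs : t + κ = s * h)
    (h1 : 0.5 ≤ u) (h2 : u ≤ 0.59) (h3 : u ≤ s) (h4 : s ≤ u + 0.0459)
    (hY : eN r κ * (0.9263 * Real.exp (-(T * (1 / 2 * u ^ 2)))) ≤ Y) :
    ‖Xf β r h t 2‖ ≤ 0.02774 * Y := by
  obtain ⟨t', ht'⟩ : ∃ t', t' = t + 1 * h := ⟨_, rfl⟩
  have hτ : t' + κ = (s + 1) * h := by rw [ht']; linear_combination hs
  have a1 : 1.178 ≤ t' + κ := by rw [hτ]; exact mlo8 B.P (x1 := 1.5) (by linarith) (by norm_num) (by norm_num)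
  have a2 : t' + κ ≤ 1.2849 := by rw [hτ]; exact mhi8 B.P (x2 := 1.6359) (by linarith) (by norm_num) (by norm_num)
  have hk := B.hk1
  have hk' := B.P.hκ1
  have hD : DomR κ t' := dom7 B.P.κ0 (by linarith) (by linarith)
  have hy := b8_2_W2b_y hD B.hk1 B.hk2 a1 a2
  have hJ : ‖HH β (sg κ t') - 1‖ ≤ 0.05 := by
    rcases le_total (t' + κ) 1.245 with hc | hc
    · exact (JB8_k2 hD B.P.hβ (by linarith) B.P.hκ1 (by linarith) (by linarith) B.P.βκ B.P.βR).trans (by norm_num)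
    · exact JB8_k2w hD B.P.hβ (by linarith) B.P.hκ1 (by linarith) (by linarith) B.P.βκ B.P.βR
  have hd := Dlo7 hD (0.33 ^ 2) (0.36 ^ 2) 1.3373 0.213 0.248 0.213 0.65311 hy.1 hy.2 (pow_le_pow_left₀ (by norm_num) B.hk1 2) (pow_le_pow_left₀ B.P.κ0.le B.hk2 2)
      (by rw [show (-2 * 0.213 : ℝ) = -0.426 by norm_num]; exact expm_ge (by norm_num) (by norm_num) (by norm_num) (by norm_num)) (by norm_num) (by norm_num) (by norm_num) (by norm_num) (by norm_num)
  have hc : sE κ t' ≤ 1 - 0.352 * (t' + κ) ^ 2 / (1 + κ ^ 2) := VR8 0.58 0.352 1.178 1.2849 _ _ _ _ _ B hD a1 a2 (by norm_num) (by norm_num) (by norm_num) (by norm_num) rfl rfl (by norm_num) rfl rfl rfl (by norm_num) (by norm_num)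
  exact up8 1 0.05 0.352 1.3373 0.9765 0.9263 0.667 0.02631 0.02774 B (by norm_num) ht' hs hD (by norm_num) hJ hc hd (by norm_num) (by norm_num) (by norm_num) hY (by norm_num)
    (ch1 (a := 1) (by norm_num) (sqR h1 h3 (by norm_num)) (by norm_num) h1 h2 (by norm_num) (by norm_num)) (by norm_num)
    (expn 3 0.6422 (by norm_num) (by norm_num) (by norm_num) (by norm_num)) (by norm_num) (by norm_num)

theorem b8_2_W3R {β r h κ T t s u Y : ℝ} (B : By 0.33 0.36 0.3187 0.2975 10 0.036 5.4607 β r h κ T) (hs : t + κ = s * h)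
    (h1 : 0.43 ≤ u) (h2 : u ≤ 0.59) (h3 : u ≤ s) (h4 : s ≤ u + 0.0459) (htp : t + 2 * h ≤ Real.pi / 2)
    (hY : eN r κ * (0.9263 * Real.exp (-(T * (1 / 2 * u ^ 2)))) ≤ Y) :
    ‖Xf β r h t 3‖ ≤ 0.0017121 * Y := by
  refine leE (cR8 2 0.36 0.2721 1.9085 2.0703 _ _ _ _ _ 0.0112 3.8813 0.6945 0.015 1.2836 0.9263 1.5142 0.0002566 0.001076 0.1741 0.8985 0.9031 3.1623 0.0001408 0.0006361 B (by norm_num) hs htp
    (mlo8 B.P (x1 := 2.43) (by linarith) (by norm_num) (by norm_num)) (mhi8 B.P (x2 := 2.6359) (by linarith) (by norm_num) (by norm_num)) hY g1_nn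
    (g1_le (by linarith) h2 (by norm_num)) (ch1 (a := 2) (by norm_num) (sqR h1 h3 (by norm_num)) (by norm_num) h1 h2 (by norm_num) (by norm_num))
    (by norm_num) (by norm_num) (by norm_num) (by norm_num) rfl rfl (by norm_num) rfl rfl rfl (by norm_num) (by norm_num) (by norm_num) (by norm_num) (by norm_num) (by norm_num) (by norm_num) (by norm_num) (by norm_num) (by norm_num) (by norm_num) (by norm_num) (by norm_num) (by norm_num) (by norm_num) (by norm_num) (by norm_num) (by norm_num) (by norm_num)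
    (expn 8 0.2685 (by norm_num) (by norm_num) (by norm_num) (by norm_num)) (by norm_num) (by norm_num) (by norm_num) (by norm_num) (by norm_num) (by norm_num) (by norm_num) (by norm_num) (expn 8 0.881 (by norm_num) (by norm_num) (by norm_num) (by norm_num)) (by norm_num) (by norm_num)) (by norm_num) hY (by norm_num)

theorem b8_2_W3U {β r h κ T t s u Y : ℝ} (B : By 0.33 0.36 0.3187 0.2975 10 0.036 5.4607 β r h κ T) (hs : t + κ = s * h)
    (h1 : 0.43 ≤ u) (h2 : u ≤ 0.59) (h3 : u ≤ s) (h4 : s ≤ u + 0.0459)(htp : Real.pi / 2 ≤ t + 2 * h)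
    (hY : eN r κ * (0.9263 * Real.exp (-(T * (1 / 2 * u ^ 2)))) ≤ Y) :
    ‖Xf β r h t (3)‖ ≤ 0.001439 * Y := by
  refine cU8 0 (2) 1.5707 2.0703 0.03 0.6945 0.03 2.5143 0.9263 0.1741 0.8985 0.9031 3.1623 0.0001626 0.001439 B (by norm_num) hs
    (half8 hs htp (by norm_num)) (mhi8 B.P (x2 := 2.6359) (by push_cast; linarith) (by norm_num) (by norm_num)) hY g1_nn (g1_le (by linarith) h2 (by norm_num))
    (by norm_num) (by norm_num) (by norm_num) (by norm_num) (by norm_num) (by norm_num) (by norm_num) (by norm_num) (by norm_num) (by norm_num) (by norm_num) (by norm_num) (by norm_num) (by norm_num) (by norm_num) (by norm_num) (by norm_num) (by norm_num) (by norm_num)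
    (expn 8 0.731 (by norm_num) (by norm_num) (by norm_num) (by norm_num)) (by norm_num) (by norm_num)

theorem b8_2_W3 {β r h κ T t s u Y : ℝ} (B : By 0.33 0.36 0.3187 0.2975 10 0.036 5.4607 β r h κ T) (hs : t + κ = s * h)
    (h1 : 0.43 ≤ u) (h2 : u ≤ 0.59) (h3 : u ≤ s) (h4 : s ≤ u + 0.0459)
    (hY : eN r κ * (0.9263 * Real.exp (-(T * (1 / 2 * u ^ 2)))) ≤ Y) :
    ‖Xf β r h t 3‖ ≤ 0.0017121 * Y := by
  rcases le_total (t + 2 * h) (Real.pi / 2) with hp | hp
  · exact leE (b8_2_W3R B hs h1 h2 h3 h4 hp hY) (by norm_num) hY (by norm_num)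
  · exact leE (b8_2_W3U B hs h1 h2 h3 h4 hp hY) (by norm_num) hY (by norm_num)

theorem b8_2_W4 {β r h κ T t s u Y : ℝ} (B : By 0.33 0.36 0.3187 0.2975 10 0.036 5.4607 β r h κ T) (hs : t + κ = s * h)
    (h1 : 0.43 ≤ u) (h2 : u ≤ 0.59) (h3 : u ≤ s) (h4 : s ≤ u + 0.0459)
    (hY : eN r κ * (0.9263 * Real.exp (-(T * (1 / 2 * u ^ 2)))) ≤ Y) :
    ‖Xf β r h t (4)‖ ≤ 0.0008854 * Y := by
  refine cU8 0 (3) 2.3339 2.8557 0.02 0.6945 0.02 1.7031 0.9263 0.1741 0.8985 0.9031 3.1623 0.0001477 0.0008854 B (by norm_num) hs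
    (fullz8 B.P B.hk2 (x1 := 3.43) (by push_cast; linarith) (by norm_num) (by norm_num)) (mhi8 B.P (x2 := 3.6359) (by push_cast; linarith) (by norm_num) (by norm_num)) hY g1_nn (g1_le (by linarith) h2 (by norm_num))
    (by norm_num) (by norm_num) (by norm_num) (by norm_num) (by norm_num) (by norm_num) (by norm_num) (by norm_num) (by norm_num) (by norm_num) (by norm_num) (by norm_num) (by norm_num) (by norm_num) (by norm_num) (by norm_num) (by norm_num) (by norm_num) (by norm_num)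
    (expn 8 0.831 (by norm_num) (by norm_num) (by norm_num) (by norm_num)) (by norm_num) (by norm_num)

theorem b8_2_Wm1 {β r h κ T t s u Y : ℝ} (B : By 0.33 0.36 0.3187 0.2975 10 0.036 5.4607 β r h κ T) (hs : t + κ = s * h)
    (h1 : 0.43 ≤ u) (h2 : u ≤ 0.59) (h3 : u ≤ s) (h4 : s ≤ u + 0)
    (hY : eN r κ * (0.9251 * Real.exp (-(T * (0.5777 * (1 - u) ^ 2)))) ≤ Y) :
    ‖Xf β r h t (-1)‖ ≤ 0.011331 * Y := by
  refine leE (cL8 (-2) 0.96 0.5777 1.1074 1.2331 _ _ _ _ _ 0.0572 2.5819 0.6945 0.1425 1.2154 0.9251 1.0514 0.003234 0.009026 0.1877 0.8973 0.8955 3.1623 0.000538 0.002305 B (by norm_num) hs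
    (mloN8 B.P (x1 := 1.41) (by linarith) (by norm_num) (by norm_num)) (mhiN8 B.P (x2 := 1.57) (by linarith) (by norm_num) (by norm_num)) hY (g0_nn (by norm_num))
    (g0_le (by norm_num) h1 h2 (by norm_num) (by norm_num)) (ch0 (a := (-2)) (by norm_num) (sqL h2 h4 (by norm_num) (by norm_num)) (by norm_num) h1 h2 (by norm_num) (by norm_num))
    (by norm_num) (by norm_num) (by norm_num) (by norm_num) rfl rfl (by norm_num) rfl rfl rfl (by norm_num) (by norm_num) (by norm_num) (by norm_num) (by norm_num) (by norm_num) (by norm_num) (by norm_num) (by norm_num) (by norm_num) (by norm_num) (by norm_num) (by norm_num) (by norm_num) (by norm_num) (by norm_num) (by norm_num) (by norm_num)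
    (expn 5 0.7413 (by norm_num) (by norm_num) (by norm_num) (by norm_num)) (by norm_num) (by norm_num) (by norm_num) (by norm_num) (by norm_num) (by norm_num) (by norm_num) (by norm_num) (expn 7 0.53 (by norm_num) (by norm_num) (by norm_num) (by norm_num)) (by norm_num) (by norm_num)) (by norm_num) hY (by norm_num)

theorem b8_2_Wm1p {β r h κ T t s u Y : ℝ} (B : By 0.33 0.36 0.3187 0.2975 10 0.036 5.4607 β r h κ T) (hs : t + κ = s * h)
    (h1 : 0.43 ≤ u) (h2 : u ≤ 0.59) (h3 : u ≤ s) (h4 : s ≤ u + 0.0459)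
    (hY : eN r κ * (0.9251 * Real.exp (-(T * (0.5777 * (1 - u) ^ 2)))) ≤ Y) :
    ‖Xf β r h t (-1)‖ ≤ 0.017406 * Y := by
  refine leE (cL8 (-2) 0.98 0.5777 1.0713 1.2331 _ _ _ _ _ 0.0498 2.6729 0.6945 0.1848 1.2209 0.9251 0.9778 0.004801 0.01388 0.1877 0.8973 0.8955 3.1623 0.0008194 0.003526 B (by norm_num) hs
    (mloN8 B.P (x1 := 1.3641) (by linarith) (by norm_num) (by norm_num)) (mhiN8 B.P (x2 := 1.57) (by linarith) (by norm_num) (by norm_num)) hY (g0_nn (by norm_num))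
    (g0_le (by norm_num) h1 h2 (by norm_num) (by norm_num)) (ch0 (a := (-1.9541)) (by norm_num) (sqL h2 h4 (by norm_num) (by norm_num)) (by norm_num) h1 h2 (by norm_num) (by norm_num))
    (by norm_num) (by norm_num) (by norm_num) (by norm_num) rfl rfl (by norm_num) rfl rfl rfl (by norm_num) (by norm_num) (by norm_num) (by norm_num) (by norm_num) (by norm_num) (by norm_num) (by norm_num) (by norm_num) (by norm_num) (by norm_num) (by norm_num) (by norm_num) (by norm_num) (by norm_num) (by norm_num) (by norm_num) (by norm_num)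
    (expn 5 0.3394 (by norm_num) (by norm_num) (by norm_num) (by norm_num)) (by norm_num) (by norm_num) (by norm_num) (by norm_num) (by norm_num) (by norm_num) (by norm_num) (by norm_num) (expn 7 0.107 (by norm_num) (by norm_num) (by norm_num) (by norm_num)) (by norm_num) (by norm_num)) (by norm_num) hY (by norm_num)

theorem b8_2_Wm2 {β r h κ T t s u Y : ℝ} (B : By 0.33 0.36 0.3187 0.2975 10 0.036 5.4607 β r h κ T) (hs : t + κ = s * h)
    (h1 : 0.43 ≤ u) (h2 : u ≤ 0.59) (h3 : u ≤ s) (h4 : s ≤ u + 0.0459)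
    (hY : eN r κ * (0.9251 * Real.exp (-(T * (0.5777 * (1 - u) ^ 2)))) ≤ Y) :
    ‖Xf β r h t (-2)‖ ≤ 0.000571298 * Y := by
  refine leE (cL8 (-3) 0.6 0.4525 1.8567 2.0185 _ _ _ _ _ 0.056 2.5956 0.6945 0 1.2242 0.9251 2.4318 0.00000171 0.000004798 0.1877 0.8973 0.8955 3.1623 0.0001313 0.0005665 B (by norm_num) hs
    (mloN8 B.P (x1 := 2.3641) (by linarith) (by norm_num) (by norm_num)) (mhiN8 B.P (x2 := 2.57) (by linarith) (by norm_num) (by norm_num)) hY (g0_nn (by norm_num))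
    (g0_le (by norm_num) h1 h2 (by norm_num) (by norm_num)) (ch0 (a := (-2.9541)) (by norm_num) (sqL h2 h4 (by norm_num) (by norm_num)) (by norm_num) h1 h2 (by norm_num) (by norm_num))
    (by norm_num) (by norm_num) (by norm_num) (by norm_num) rfl rfl (by norm_num) rfl rfl rfl (by norm_num) (by norm_num) (by norm_num) (by norm_num) (by norm_num) (by norm_num) (by norm_num) (by norm_num) (by norm_num) (by norm_num) (by norm_num) (by norm_num) (by norm_num) (by norm_num) (by norm_num) (by norm_num) (by norm_num) (by norm_num)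
    (expn 13 0.2793 (by norm_num) (by norm_num) (by norm_num) (by norm_num)) (by norm_num) (by norm_num) (by norm_num) (by norm_num) (by norm_num) (by norm_num) (by norm_num) (by norm_num) (expn 8 0.955 (by norm_num) (by norm_num) (by norm_num) (by norm_num)) (by norm_num) (by norm_num)) (by norm_num) hY (by norm_num)

theorem b8_2_Wm3 {β r h κ T t s u Y : ℝ} (B : By 0.33 0.36 0.3187 0.2975 10 0.036 5.4607 β r h κ T) (hs : t + κ = s * h)
    (h1 : 0.43 ≤ u) (h2 : u ≤ 0.59) (h3 : u ≤ s) (h4 : s ≤ u + 0.0459)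
    (hY : eN r κ * (0.9251 * Real.exp (-(T * (0.5777 * (1 - u) ^ 2)))) ≤ Y) :
    ‖Xf β r h t (-3)‖ ≤ 0.0009448 * Y := by
  refine cU8 1 (-4) 3.1193 3.6411 0.02 0.6945 0.02 1.6871 0.9251 0.1877 0.8973 0.8955 3.1623 0.0001589 0.0009448 B (by norm_num) hs
    (full8 B.P B.hk2 (x1 := 4.43) (by push_cast; linarith) (by norm_num) (by norm_num)) (mhi8 B.P (x2 := 4.6359) (by push_cast; linarith) (by norm_num) (by norm_num)) hY (g0_nn (by norm_num)) (g0_le (by norm_num) h1 h2 (by norm_num) (by norm_num))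
    (by norm_num) (by norm_num) (by norm_num) (by norm_num) (by norm_num) (by norm_num) (by norm_num) (by norm_num) (by norm_num) (by norm_num) (by norm_num) (by norm_num) (by norm_num) (by norm_num) (by norm_num) (by norm_num) (by norm_num) (by norm_num) (by norm_num)
    (expn 8 0.755 (by norm_num) (by norm_num) (by norm_num) (by norm_num)) (by norm_num) (by norm_num)

private theorem b8_2_Ao_y {κ t : ℝ} (h : DomR κ t) (hk1 : 0.33 ≤ κ) (hk2 : κ ≤ 0.36) (ht1 : (-0.7462) ≤ t + κ) (ht2 : t + κ ≤ (-0.4948)) :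
    (-0.338) ≤ sy κ t ∧ sy κ t ≤ (-0.179) := by
  have hy1 : -0.338 ≤ sy κ t := syL_ang2 h 0.33 0.36 0.7462 0.733 0.7431 0.6692 0.338 1.40214 0.71319 hk1 hk2 (by linarith) (by norm_num) (by norm_num) (by norm_num) (by norm_num)
    (cos_ge_num (by norm_num) (by norm_num)) (sin_le_num (by norm_num) (by norm_num))
    (expn_ge (by norm_num) (by norm_num)) (expm_ge (by norm_num) (by norm_num) (by norm_num) (by norm_num)) (by norm_num) (by norm_num) (by norm_num)
    (by norm_num) (by norm_num) (by norm_num)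
  have hy2 : sy κ t ≤ -0.179 := syL_le h 0.33 0.36 0.4948 0.179 0.8361 0.83611 0.41572 0.45353 hk1 hk2 (by linarith) (by norm_num) (by norm_num) (by norm_num)
    (expm_ge (by norm_num) (by norm_num) (by norm_num) (by norm_num)) (expm_le (by norm_num) (by norm_num) (by norm_num)) (by norm_num)
    (by norm_num) (by norm_num) (by norm_num) (by norm_num) (by norm_num) (by norm_num)
  exact ⟨by linarith, by linarith⟩

theorem b8_2_Ao {β r h κ T t s u Y : ℝ} (B : By 0.33 0.36 0.3187 0.2975 10 0.036 5.4607 β r h κ T) (hs : t + κ = s * h)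
    (h1 : 0.05 ≤ u) (h2 : u ≤ 0.37) (h3 : u ≤ s) (h4 : s ≤ u + 0)
    (hY : eN r κ * (0.9263 * Real.exp (-(T * (1 / 2 * u ^ 2)))) ≤ Y) :
    ‖Xf β r h t 0‖ ≤ 0.73 * Y := by
  obtain ⟨t', ht'⟩ : ∃ t', t' = t + (-1) * h := ⟨_, rfl⟩
  have hτ : t' + κ = (s + (-1)) * h := by rw [ht']; linear_combination hs
  have a1 : (-0.7462) ≤ t' + κ := by rw [hτ]; have := mhiN8 B.P (x := s + (-1)) (x2 := 0.95) (τ2 := 0.7462) (by linarith) (by norm_num) (by norm_num); linarith
  have a2 : t' + κ ≤ (-0.4948) := by rw [hτ]; have := mloN8 B.P (x := s + (-1)) (x1 := 0.63) (τ1 := 0.4948) (by linarith) (by norm_num) (by norm_num); linarith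
  have hk := B.hk1
  have hk' := B.P.hκ1
  have hD : DomR κ t' := dom7 B.P.κ0 (by linarith) (by linarith)
  have hy := b8_2_Ao_y hD B.hk1 B.hk2 a1 a2
  have hJ : ‖HH β (sg κ t') - 1‖ ≤ 0.07 := JB8_k0 hD B.P.hβ (by linarith) B.P.hκ1 (by linarith) (by linarith) B.P.βκ B.P.βR
  have hd := Dlo7 hD (0.33 ^ 2) (0.36 ^ 2) 0.4852 (-0.338) (-0.179) (-0.338) 1.96598 hy.1 hy.2 (pow_le_pow_left₀ (by norm_num) B.hk1 2) (pow_le_pow_left₀ B.P.κ0.le B.hk2 2)
      (by rw [show (-2 * (-0.338) : ℝ) = 0.676 by norm_num]; exact expn_ge (by norm_num) (by norm_num)) (by norm_num) (by norm_num) (by norm_num) (by norm_num) (by norm_num)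
  have hc : sE κ t' ≤ 1 - 0.47 * (t' + κ) ^ 2 / (1 + κ ^ 2) := VLA8 hD B.P.hκ1 (by linarith) (by linarith)
  exact up8 (-1) 0.07 0.47 0.4852 1.2821 0.9263 0.118 0.5274 0.73 B (by norm_num) ht' hs hD (by norm_num) hJ hc hd (by norm_num) (by norm_num) (by norm_num) hY (by norm_num)
    (ch1 (a := (-1)) (by norm_num) (sqL h2 h4 (by norm_num) (by norm_num)) (by norm_num) h1 h2 (by norm_num) (by norm_num)) (by norm_num)
    (expn 0 0.6443 (by norm_num) (by norm_num) (by norm_num) (by norm_num)) (by norm_num) (by norm_num)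

private theorem b8_2_A2_y {κ t : ℝ} (h : DomR κ t) (hk1 : 0.33 ≤ κ) (hk2 : κ ≤ 0.36) (ht1 : 0.8246 ≤ t + κ) (ht2 : t + κ ≤ 1.076) :
    0.177 ≤ sy κ t ∧ sy κ t ≤ 0.227 := by
  have hy1 : 0.177 ≤ sy κ t := syR_ge h 0.33 0.36 0.8246 0.177 1.19363 1.19364 0.58686 0.64023 hk1 hk2 (by linarith) (by norm_num) (by norm_num)
    (expn_ge (by norm_num) (by norm_num)) (expn_le (by norm_num) (by norm_num) (by norm_num)) (by norm_num)
    (by norm_num) (by norm_num) (by norm_num) (by norm_num) (by norm_num) (by norm_num)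
  have hy2 : sy κ t ≤ 0.227 := syR_ang2 h 0.33 0.36 1.076 0.912 0.613 0.7909 0.227 0.79693 1.25482 hk1 hk2 (by linarith) (by norm_num) (by norm_num) (by norm_num)
    (cos_le_num (by norm_num)) (sin_le_num (by norm_num) (by norm_num)) (expm_le (by norm_num) (by norm_num) (by norm_num))
    (expn_ge (by norm_num) (by norm_num)) (by norm_num) (by norm_num) (by norm_num) (by norm_num) (by norm_num)
  exact ⟨by linarith, by linarith⟩

theorem b8_2_A2 {β r h κ T t s u Y : ℝ} (B : By 0.33 0.36 0.3187 0.2975 10 0.036 5.4607 β r h κ T) (hs : t + κ = s * h)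
    (h1 : 0.05 ≤ u) (h2 : u ≤ 0.37) (h3 : u ≤ s) (h4 : s ≤ u + 0)
    (hY : eN r κ * (0.9263 * Real.exp (-(T * (1 / 2 * u ^ 2)))) ≤ Y) :
    ‖Xf β r h t 2‖ ≤ 0.113 * Y := by
  obtain ⟨t', ht'⟩ : ∃ t', t' = t + 1 * h := ⟨_, rfl⟩
  have hτ : t' + κ = (s + 1) * h := by rw [ht']; linear_combination hs
  have a1 : 0.8246 ≤ t' + κ := by rw [hτ]; exact mlo8 B.P (x1 := 1.05) (by linarith) (by norm_num) (by norm_num)
  have a2 : t' + κ ≤ 1.076 := by rw [hτ]; exact mhi8 B.P (x2 := 1.37) (by linarith) (by norm_num) (by norm_num)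
  have hk := B.hk1
  have hk' := B.P.hκ1
  have hD : DomR κ t' := dom7 B.P.κ0 (by linarith) (by linarith)
  have hy := b8_2_A2_y hD B.hk1 B.hk2 a1 a2
  have hJ : ‖HH β (sg κ t') - 1‖ ≤ 0.04 := JB8_k2 hD B.P.hβ (by linarith) B.P.hκ1 (by linarith) (by linarith) B.P.βκ B.P.βR
  have hd := Dlo7 hD (0.33 ^ 2) (0.36 ^ 2) 1.2791 0.177 0.227 0.177 0.70187 hy.1 hy.2 (pow_le_pow_left₀ (by norm_num) B.hk1 2) (pow_le_pow_left₀ B.P.κ0.le B.hk2 2)
      (by rw [show (-2 * 0.177 : ℝ) = -0.354 by norm_num]; exact expm_ge (by norm_num) (by norm_num) (by norm_num) (by norm_num)) (by norm_num) (by norm_num) (by norm_num) (by norm_num) (by norm_num)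
  have hc : sE κ t' ≤ 1 - 0.3725 * (t' + κ) ^ 2 / (1 + κ ^ 2) := VR8 0.63 0.3725 0.8246 1.076 _ _ _ _ _ B hD a1 a2 (by norm_num) (by norm_num) (by norm_num) (by norm_num) rfl rfl (by norm_num) rfl rfl rfl (by norm_num) (by norm_num)
  exact up8 1 0.04 0.3725 1.2791 0.978 0.9263 0.4094 0.107 0.113 B (by norm_num) ht' hs hD (by norm_num) hJ hc hd (by norm_num) (by norm_num) (by norm_num) hY (by norm_num)
    (ch1 (a := 1) (by norm_num) (sqR h1 h3 (by norm_num)) (by norm_num) h1 h2 (by norm_num) (by norm_num)) (by norm_num)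
    (expn 2 0.2356 (by norm_num) (by norm_num) (by norm_num) (by norm_num)) (by norm_num) (by norm_num)

theorem b8_2_A3R {β r h κ T t s u Y : ℝ} (B : By 0.33 0.36 0.3187 0.2975 10 0.036 5.4607 β r h κ T) (hs : t + κ = s * h)
    (h1 : 0.05 ≤ u) (h2 : u ≤ 0.37) (h3 : u ≤ s) (h4 : s ≤ u + 0) (htp : t + 2 * h ≤ Real.pi / 2)
    (hY : eN r κ * (0.9263 * Real.exp (-(T * (1 / 2 * u ^ 2)))) ≤ Y) :
    ‖Xf β r h t 3‖ ≤ 0.007745 * Y := by
  refine leE (cR8 2 0.38 0.2846 1.61 1.8614 _ _ _ _ _ 0.0185 3.4237 0.6945 0.2047 1.2668 0.9263 1.1947 0.001472 0.005441 0.0685 0.8985 0.9618 3.1623 0.0005167 0.002304 B (by norm_num) hs htp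
    (mlo8 B.P (x1 := 2.05) (by linarith) (by norm_num) (by norm_num)) (mhi8 B.P (x2 := 2.37) (by linarith) (by norm_num) (by norm_num)) hY g1_nn
    (g1_le (by linarith) h2 (by norm_num)) (ch1 (a := 2) (by norm_num) (sqR h1 h3 (by norm_num)) (by norm_num) h1 h2 (by norm_num) (by norm_num))
    (by norm_num) (by norm_num) (by norm_num) (by norm_num) rfl rfl (by norm_num) rfl rfl rfl (by norm_num) (by norm_num) (by norm_num) (by norm_num) (by norm_num) (by norm_num) (by norm_num) (by norm_num) (by norm_num) (by norm_num) (by norm_num) (by norm_num) (by norm_num) (by norm_num) (by norm_num) (by norm_num) (by norm_num) (by norm_num) (by norm_num)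
    (expn 6 0.5238 (by norm_num) (by norm_num) (by norm_num) (by norm_num)) (by norm_num) (by norm_num) (by norm_num) (by norm_num) (by norm_num) (by norm_num) (by norm_num) (by norm_num) (expn 7 0.571 (by norm_num) (by norm_num) (by norm_num) (by norm_num)) (by norm_num) (by norm_num)) (by norm_num) hY (by norm_num)

theorem b8_2_A3 {β r h κ T t s u Y : ℝ} (B : By 0.33 0.36 0.3187 0.2975 10 0.036 5.4607 β r h κ T) (hs : t + κ = s * h)
    (h1 : 0.05 ≤ u) (h2 : u ≤ 0.37) (h3 : u ≤ s) (h4 : s ≤ u + 0)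
    (hY : eN r κ * (0.9263 * Real.exp (-(T * (1 / 2 * u ^ 2)))) ≤ Y) :
    ‖Xf β r h t 3‖ ≤ 0.007745 * Y := by
  have hp : t + 2 * h ≤ Real.pi / 2 := by
    have e : t + 2 * h = (s + 2) * h - κ := by linear_combination hs
    have := mhi8 B.P (x := s + 2) (x2 := 2.37) (by linarith) (by norm_num) (le_refl _)
    have := B.hk1
    have := Real.pi_gt_d6
    rw [e]
    norm_num at *
    linarith
  exact leE (b8_2_A3R B hs h1 h2 h3 h4 hp hY) (by norm_num) hY (by norm_num)

theorem b8_2_A4 {β r h κ T t s u Y : ℝ} (B : By 0.33 0.36 0.3187 0.2975 10 0.036 5.4607 β r h κ T) (hs : t + κ = s * h)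
    (h1 : 0.05 ≤ u) (h2 : u ≤ 0.37) (h3 : u ≤ s) (h4 : s ≤ u + 0)
    (hY : eN r κ * (0.9263 * Real.exp (-(T * (1 / 2 * u ^ 2)))) ≤ Y) :
    ‖Xf β r h t (4)‖ ≤ 0.0004932 * Y := by
  refine cU8 0 (3) 2.0354 2.6468 0.02 0.6945 0.02 1.7227 0.9263 0.0685 0.8985 0.9618 3.1623 0.00008133 0.0004932 B (by norm_num) hs
    (fullz8 B.P B.hk2 (x1 := 3.05) (by push_cast; linarith) (by norm_num) (by norm_num)) (mhi8 B.P (x2 := 3.37) (by push_cast; linarith) (by norm_num) (by norm_num)) hY g1_nn (g1_le (by linarith) h2 (by norm_num))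
    (by norm_num) (by norm_num) (by norm_num) (by norm_num) (by norm_num) (by norm_num) (by norm_num) (by norm_num) (by norm_num) (by norm_num) (by norm_num) (by norm_num) (by norm_num) (by norm_num) (by norm_num) (by norm_num) (by norm_num) (by norm_num) (by norm_num)
    (expn 9 0.418 (by norm_num) (by norm_num) (by norm_num) (by norm_num)) (by norm_num) (by norm_num)

theorem b8_2_Am1 {β r h κ T t s u Y : ℝ} (B : By 0.33 0.36 0.3187 0.2975 10 0.036 5.4607 β r h κ T) (hs : t + κ = s * h)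
    (h1 : 0.05 ≤ u) (h2 : u ≤ 0.37) (h3 : u ≤ s) (h4 : s ≤ u + 0)
    (hY : eN r κ * (0.9263 * Real.exp (-(T * (1 / 2 * u ^ 2)))) ≤ Y) :
    ‖Xf β r h t (-1)‖ ≤ 0.0031796 * Y := by
  refine leE (cL8 (-2) 0.72 0.4989 1.2801 1.5316 _ _ _ _ _ 0.0614 2.5365 0.6945 0 1.1983 0.9263 1.257 0.001058 0.002898 0.0685 0.8985 0.9618 3.1623 0.00006677 0.0002816 B (by norm_num) hs
    (mloN8 B.P (x1 := 1.63) (by linarith) (by norm_num) (by norm_num)) (mhiN8 B.P (x2 := 1.95) (by linarith) (by norm_num) (by norm_num)) hY g1_nn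
    (g1_le (by linarith) h2 (by norm_num)) (ch1 (a := (-2)) (by norm_num) (sqL h2 h4 (by norm_num) (by norm_num)) (by norm_num) h1 h2 (by norm_num) (by norm_num))
    (by norm_num) (by norm_num) (by norm_num) (by norm_num) rfl rfl (by norm_num) rfl rfl rfl (by norm_num) (by norm_num) (by norm_num) (by norm_num) (by norm_num) (by norm_num) (by norm_num) (by norm_num) (by norm_num) (by norm_num) (by norm_num) (by norm_num) (by norm_num) (by norm_num) (by norm_num) (by norm_num) (by norm_num) (by norm_num)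
    (expn 6 0.864 (by norm_num) (by norm_num) (by norm_num) (by norm_num)) (by norm_num) (by norm_num) (by norm_num) (by norm_num) (by norm_num) (by norm_num) (by norm_num) (by norm_num) (expn 9 0.618 (by norm_num) (by norm_num) (by norm_num) (by norm_num)) (by norm_num) (by norm_num)) (by norm_num) hY (by norm_num)

theorem b8_2_Am2 {β r h κ T t s u Y : ℝ} (B : By 0.33 0.36 0.3187 0.2975 10 0.036 5.4607 β r h κ T) (hs : t + κ = s * h)
    (h1 : 0.05 ≤ u) (h2 : u ≤ 0.37) (h3 : u ≤ s) (h4 : s ≤ u + 0)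
    (hY : eN r κ * (0.9263 * Real.exp (-(T * (1 / 2 * u ^ 2)))) ≤ Y) :
    ‖Xf β r h t (-2)‖ ≤ 0.0002975876 * Y := by
  refine leE (cL8 (-3) 0.6 0.4535 2.0655 2.317 _ _ _ _ _ 0.0225 3.2602 0.6945 0 1.2654 0.9263 3.0683 0.0000000533 0.0000001876 0.0685 0.8985 0.9618 3.1623 0.00006677 0.0002974 B (by norm_num) hs
    (mloN8 B.P (x1 := 2.63) (by linarith) (by norm_num) (by norm_num)) (mhiN8 B.P (x2 := 2.95) (by linarith) (by norm_num) (by norm_num)) hY g1_nn
    (g1_le (by linarith) h2 (by norm_num)) (ch1 (a := (-3)) (by norm_num) (sqL h2 h4 (by norm_num) (by norm_num)) (by norm_num) h1 h2 (by norm_num) (by norm_num))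
    (by norm_num) (by norm_num) (by norm_num) (by norm_num) rfl rfl (by norm_num) rfl rfl rfl (by norm_num) (by norm_num) (by norm_num) (by norm_num) (by norm_num) (by norm_num) (by norm_num) (by norm_num) (by norm_num) (by norm_num) (by norm_num) (by norm_num) (by norm_num) (by norm_num) (by norm_num) (by norm_num) (by norm_num) (by norm_num)
    (expn 16 0.755 (by norm_num) (by norm_num) (by norm_num) (by norm_num)) (by norm_num) (by norm_num) (by norm_num) (by norm_num) (by norm_num) (by norm_num) (by norm_num) (by norm_num) (expn 9 0.618 (by norm_num) (by norm_num) (by norm_num) (by norm_num)) (by norm_num) (by norm_num)) (by norm_num) hY (by norm_num)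

theorem b8_2_Am3 {β r h κ T t s u Y : ℝ} (B : By 0.33 0.36 0.3187 0.2975 10 0.036 5.4607 β r h κ T) (hs : t + κ = s * h)
    (h1 : 0.05 ≤ u) (h2 : u ≤ 0.37) (h3 : u ≤ s) (h4 : s ≤ u + 0)
    (hY : eN r κ * (0.9263 * Real.exp (-(T * (1 / 2 * u ^ 2)))) ≤ Y) :
    ‖Xf β r h t (-3)‖ ≤ 0.000484 * Y := by
  refine cU8 1 (-4) 2.8208 3.4322 0.02 0.6945 0.02 1.6908 0.9263 0.0685 0.8985 0.9618 3.1623 0.00008133 0.000484 B (by norm_num) hs
    (full8 B.P B.hk2 (x1 := 4.05) (by push_cast; linarith) (by norm_num) (by norm_num)) (mhi8 B.P (x2 := 4.37) (by push_cast; linarith) (by norm_num) (by norm_num)) hY g1_nn (g1_le (by linarith) h2 (by norm_num))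
    (by norm_num) (by norm_num) (by norm_num) (by norm_num) (by norm_num) (by norm_num) (by norm_num) (by norm_num) (by norm_num) (by norm_num) (by norm_num) (by norm_num) (by norm_num) (by norm_num) (by norm_num) (by norm_num) (by norm_num) (by norm_num) (by norm_num)
    (expn 9 0.418 (by norm_num) (by norm_num) (by norm_num) (by norm_num)) (by norm_num) (by norm_num)

private theorem b8_2_Bo_y {κ t : ℝ} (h : DomR κ t) (hk1 : 0.33 ≤ κ) (hk2 : κ ≤ 0.36) (ht1 : (-0.4949) ≤ t + κ) (ht2 : t + κ ≤ (-0.4476)) :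
    (-0.197) ≤ sy κ t ∧ sy κ t ≤ (-0.159) := by
  have hy1 : -0.197 ≤ sy κ t := syL_ge h 0.33 0.36 0.4949 0.197 0.82119 0.8212 0.4425 0.44937 0.49024 hk1 hk2 (by linarith) (by norm_num) (by norm_num) (by norm_num)
    (expm_ge (by norm_num) (by norm_num) (by norm_num) (by norm_num)) (expm_le (by norm_num) (by norm_num) (by norm_num)) (by norm_num)
    (by norm_num) (by norm_num) (by norm_num) (by norm_num) (by norm_num) (by norm_num)
  have hy2 : sy κ t ≤ -0.159 := syL_le h 0.33 0.36 0.4476 0.159 0.85299 0.853 0.37673 0.411 hk1 hk2 (by linarith) (by norm_num) (by norm_num) (by norm_num)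
    (expm_ge (by norm_num) (by norm_num) (by norm_num) (by norm_num)) (expm_le (by norm_num) (by norm_num) (by norm_num)) (by norm_num)
    (by norm_num) (by norm_num) (by norm_num) (by norm_num) (by norm_num) (by norm_num)
  exact ⟨by linarith, by linarith⟩

theorem b8_2_Bo {β r h κ T t s u Y : ℝ} (B : By 0.33 0.36 0.3187 0.2975 10 0.036 5.4607 β r h κ T) (hs : t + κ = s * h)
    (h1 : 0.37 ≤ u) (h2 : u ≤ 0.43) (h3 : u ≤ s) (h4 : s ≤ u + 0)
    (hY : eN r κ * (0.9263 * Real.exp (-(T * (1 / 2 * u ^ 2)))) ≤ Y) :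
    ‖Xf β r h t 0‖ ≤ 0.883 * Y := by
  obtain ⟨t', ht'⟩ : ∃ t', t' = t + (-1) * h := ⟨_, rfl⟩
  have hτ : t' + κ = (s + (-1)) * h := by rw [ht']; linear_combination hs
  have a1 : (-0.4949) ≤ t' + κ := by rw [hτ]; have := mhiN8 B.P (x := s + (-1)) (x2 := 0.63) (τ2 := 0.4949) (by linarith) (by norm_num) (by norm_num); linarith
  have a2 : t' + κ ≤ (-0.4476) := by rw [hτ]; have := mloN8 B.P (x := s + (-1)) (x1 := 0.57) (τ1 := 0.4476) (by linarith) (by norm_num) (by norm_num); linarith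
  have hk := B.hk1
  have hk' := B.P.hκ1
  have hD : DomR κ t' := dom7 B.P.κ0 (by linarith) (by linarith)
  have hy := b8_2_Bo_y hD B.hk1 B.hk2 a1 a2
  have hJ : ‖HH β (sg κ t') - 1‖ ≤ 0.07 := JB8_k0 hD B.P.hβ (by linarith) B.P.hκ1 (by linarith) (by linarith) B.P.βκ B.P.βR
  have hd := Dlo7 hD (0.33 ^ 2) (0.36 ^ 2) 0.6921 (-0.197) (-0.159) (-0.197) 1.4829 hy.1 hy.2 (pow_le_pow_left₀ (by norm_num) B.hk1 2) (pow_le_pow_left₀ B.P.κ0.le B.hk2 2)
      (by rw [show (-2 * (-0.197) : ℝ) = 0.394 by norm_num]; exact expn_ge (by norm_num) (by norm_num)) (by norm_num) (by norm_num) (by norm_num) (by norm_num) (by norm_num)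
  have hc : sE κ t' ≤ 1 - 0.4885 * (t' + κ) ^ 2 / (1 + κ ^ 2) := VL_04_05 hD (by linarith) (by linarith) (by linarith)
  exact up8 (-1) 0.07 0.4885 0.6921 1.1732 0.9263 0.0662 0.6971 0.883 B (by norm_num) ht' hs hD (by norm_num) hJ hc hd (by norm_num) (by norm_num) (by norm_num) hY (by norm_num)
    (ch1 (a := (-1)) (by norm_num) (sqL h2 h4 (by norm_num) (by norm_num)) (by norm_num) h1 h2 (by norm_num) (by norm_num)) (by norm_num)
    (expn 0 0.3614 (by norm_num) (by norm_num) (by norm_num) (by norm_num)) (by norm_num) (by norm_num)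

private theorem b8_2_B2_y {κ t : ℝ} (h : DomR κ t) (hk1 : 0.33 ≤ κ) (hk2 : κ ≤ 0.36) (ht1 : 1.0759 ≤ t + κ) (ht2 : t + κ ≤ 1.1232) :
    0.209 ≤ sy κ t ∧ sy κ t ≤ 0.232 := by
  have hy1 : 0.209 ≤ sy κ t := syR_ge h 0.33 0.36 1.0759 0.209 1.23244 1.23245 0.71549 0.78056 hk1 hk2 (by linarith) (by norm_num) (by norm_num)
    (expn_ge (by norm_num) (by norm_num)) (expn_le (by norm_num) (by norm_num) (by norm_num)) (by norm_num)
    (by norm_num) (by norm_num) (by norm_num) (by norm_num) (by norm_num) (by norm_num)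
  have hy2 : sy κ t ≤ 0.232 := syR_ang2 h 0.33 0.36 1.1232 0.948 0.5844 0.8124 0.232 0.79295 1.26111 hk1 hk2 (by linarith) (by norm_num) (by norm_num) (by norm_num)
    (cos_le_num (by norm_num)) (sin_le_num (by norm_num) (by norm_num)) (expm_le (by norm_num) (by norm_num) (by norm_num))
    (expn_ge (by norm_num) (by norm_num)) (by norm_num) (by norm_num) (by norm_num) (by norm_num) (by norm_num)
  exact ⟨by linarith, by linarith⟩

theorem b8_2_B2 {β r h κ T t s u Y : ℝ} (B : By 0.33 0.36 0.3187 0.2975 10 0.036 5.4607 β r h κ T) (hs : t + κ = s * h)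
    (h1 : 0.37 ≤ u) (h2 : u ≤ 0.43) (h3 : u ≤ s) (h4 : s ≤ u + 0)
    (hY : eN r κ * (0.9263 * Real.exp (-(T * (1 / 2 * u ^ 2)))) ≤ Y) :
    ‖Xf β r h t 2‖ ≤ 0.03504 * Y := by
  obtain ⟨t', ht'⟩ : ∃ t', t' = t + 1 * h := ⟨_, rfl⟩
  have hτ : t' + κ = (s + 1) * h := by rw [ht']; linear_combination hs
  have a1 : 1.0759 ≤ t' + κ := by rw [hτ]; exact mlo8 B.P (x1 := 1.37) (by linarith) (by norm_num) (by norm_num)
  have a2 : t' + κ ≤ 1.1232 := by rw [hτ]; exact mhi8 B.P (x2 := 1.43) (by linarith) (by norm_num) (by norm_num)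
  have hk := B.hk1
  have hk' := B.P.hκ1
  have hD : DomR κ t' := dom7 B.P.κ0 (by linarith) (by linarith)
  have hy := b8_2_B2_y hD B.hk1 B.hk2 a1 a2
  have hJ : ‖HH β (sg κ t') - 1‖ ≤ 0.04 := JB8_k2 hD B.P.hβ (by linarith) B.P.hκ1 (by linarith) (by linarith) B.P.βκ B.P.βR
  have hd := Dlo7 hD (0.33 ^ 2) (0.36 ^ 2) 1.3308 0.209 0.232 0.209 0.65836 hy.1 hy.2 (pow_le_pow_left₀ (by norm_num) B.hk1 2) (pow_le_pow_left₀ B.P.κ0.le B.hk2 2)
      (by rw [show (-2 * 0.209 : ℝ) = -0.418 by norm_num]; exact expm_ge (by norm_num) (by norm_num) (by norm_num) (by norm_num)) (by norm_num) (by norm_num) (by norm_num) (by norm_num) (by norm_num)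
  have hc : sE κ t' ≤ 1 - 0.3679 * (t' + κ) ^ 2 / (1 + κ ^ 2) := VR8 0.62 0.3679 1.0759 1.1232 _ _ _ _ _ B hD a1 a2 (by norm_num) (by norm_num) (by norm_num) (by norm_num) rfl rfl (by norm_num) rfl rfl rfl (by norm_num) (by norm_num)
  exact up8 1 0.04 0.3679 1.3308 0.9683 0.9263 0.622 0.03352 0.03504 B (by norm_num) ht' hs hD (by norm_num) hJ hc hd (by norm_num) (by norm_num) (by norm_num) hY (by norm_num)
    (ch1 (a := 1) (by norm_num) (sqR h1 h3 (by norm_num)) (by norm_num) h1 h2 (by norm_num) (by norm_num)) (by norm_num)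
    (expn 3 0.3965 (by norm_num) (by norm_num) (by norm_num) (by norm_num)) (by norm_num) (by norm_num)

theorem b8_2_B3R {β r h κ T t s u Y : ℝ} (B : By 0.33 0.36 0.3187 0.2975 10 0.036 5.4607 β r h κ T) (hs : t + κ = s * h)
    (h1 : 0.37 ≤ u) (h2 : u ≤ 0.43) (h3 : u ≤ s) (h4 : s ≤ u + 0) (htp : t + 2 * h ≤ Real.pi / 2)
    (hY : eN r κ * (0.9263 * Real.exp (-(T * (1 / 2 * u ^ 2)))) ≤ Y) :
    ‖Xf β r h t 3‖ ≤ 0.0014718 * Y := by
  refine leE (cR8 2 0.4 0.2902 1.8613 1.9086 _ _ _ _ _ 0.0077 4.2624 0.6945 0.0479 1.2917 0.9263 1.5615 0.0001986 0.0009139 0.0925 0.8985 0.9485 3.1623 0.0001227 0.0005579 B (by norm_num) hs htp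
    (mlo8 B.P (x1 := 2.37) (by linarith) (by norm_num) (by norm_num)) (mhi8 B.P (x2 := 2.43) (by linarith) (by norm_num) (by norm_num)) hY g1_nn
    (g1_le (by linarith) h2 (by norm_num)) (ch1 (a := 2) (by norm_num) (sqR h1 h3 (by norm_num)) (by norm_num) h1 h2 (by norm_num) (by norm_num))
    (by norm_num) (by norm_num) (by norm_num) (by norm_num) rfl rfl (by norm_num) rfl rfl rfl (by norm_num) (by norm_num) (by norm_num) (by norm_num) (by norm_num) (by norm_num) (by norm_num) (by norm_num) (by norm_num) (by norm_num) (by norm_num) (by norm_num) (by norm_num) (by norm_num) (by norm_num) (by norm_num) (by norm_num) (by norm_num) (by norm_num)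
    (expn 8 0.5268 (by norm_num) (by norm_num) (by norm_num) (by norm_num)) (by norm_num) (by norm_num) (by norm_num) (by norm_num) (by norm_num) (by norm_num) (by norm_num) (by norm_num) (expn 9 0.006 (by norm_num) (by norm_num) (by norm_num) (by norm_num)) (by norm_num) (by norm_num)) (by norm_num) hY (by norm_num)

theorem b8_2_B3U {β r h κ T t s u Y : ℝ} (B : By 0.33 0.36 0.3187 0.2975 10 0.036 5.4607 β r h κ T) (hs : t + κ = s * h)
    (h1 : 0.37 ≤ u) (h2 : u ≤ 0.43) (h3 : u ≤ s) (h4 : s ≤ u + 0)(htp : Real.pi / 2 ≤ t + 2 * h)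
    (hY : eN r κ * (0.9263 * Real.exp (-(T * (1 / 2 * u ^ 2)))) ≤ Y) :
    ‖Xf β r h t (3)‖ ≤ 0.000908 * Y := by
  refine cU8 0 (2) 1.5707 1.9086 0.03 0.6945 0.03 2.5143 0.9263 0.0925 0.8985 0.9485 3.1623 0.0001026 0.000908 B (by norm_num) hs
    (half8 hs htp (by norm_num)) (mhi8 B.P (x2 := 2.43) (by push_cast; linarith) (by norm_num) (by norm_num)) hY g1_nn (g1_le (by linarith) h2 (by norm_num))
    (by norm_num) (by norm_num) (by norm_num) (by norm_num) (by norm_num) (by norm_num) (by norm_num) (by norm_num) (by norm_num) (by norm_num) (by norm_num) (by norm_num) (by norm_num) (by norm_num) (by norm_num) (by norm_num) (by norm_num) (by norm_num) (by norm_num)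
    (expn 9 0.185 (by norm_num) (by norm_num) (by norm_num) (by norm_num)) (by norm_num) (by norm_num)

theorem b8_2_B3 {β r h κ T t s u Y : ℝ} (B : By 0.33 0.36 0.3187 0.2975 10 0.036 5.4607 β r h κ T) (hs : t + κ = s * h)
    (h1 : 0.37 ≤ u) (h2 : u ≤ 0.43) (h3 : u ≤ s) (h4 : s ≤ u + 0)
    (hY : eN r κ * (0.9263 * Real.exp (-(T * (1 / 2 * u ^ 2)))) ≤ Y) :
    ‖Xf β r h t 3‖ ≤ 0.0014718 * Y := by
  rcases le_total (t + 2 * h) (Real.pi / 2) with hp | hp
  · exact leE (b8_2_B3R B hs h1 h2 h3 h4 hp hY) (by norm_num) hY (by norm_num)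
  · exact leE (b8_2_B3U B hs h1 h2 h3 h4 hp hY) (by norm_num) hY (by norm_num)

theorem b8_2_B4 {β r h κ T t s u Y : ℝ} (B : By 0.33 0.36 0.3187 0.2975 10 0.036 5.4607 β r h κ T) (hs : t + κ = s * h)
    (h1 : 0.37 ≤ u) (h2 : u ≤ 0.43) (h3 : u ≤ s) (h4 : s ≤ u + 0)
    (hY : eN r κ * (0.9263 * Real.exp (-(T * (1 / 2 * u ^ 2)))) ≤ Y) :
    ‖Xf β r h t (4)‖ ≤ 0.0005571 * Y := by
  refine cU8 0 (3) 2.2867 2.694 0.02 0.6945 0.02 1.7051 0.9263 0.0925 0.8985 0.9485 3.1623 0.00009283 0.0005571 B (by norm_num) hs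
    (fullz8 B.P B.hk2 (x1 := 3.37) (by push_cast; linarith) (by norm_num) (by norm_num)) (mhi8 B.P (x2 := 3.43) (by push_cast; linarith) (by norm_num) (by norm_num)) hY g1_nn (g1_le (by linarith) h2 (by norm_num))
    (by norm_num) (by norm_num) (by norm_num) (by norm_num) (by norm_num) (by norm_num) (by norm_num) (by norm_num) (by norm_num) (by norm_num) (by norm_num) (by norm_num) (by norm_num) (by norm_num) (by norm_num) (by norm_num) (by norm_num) (by norm_num) (by norm_num)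
    (expn 9 0.285 (by norm_num) (by norm_num) (by norm_num) (by norm_num)) (by norm_num) (by norm_num)

theorem b8_2_Bm1 {β r h κ T t s u Y : ℝ} (B : By 0.33 0.36 0.3187 0.2975 10 0.036 5.4607 β r h κ T) (hs : t + κ = s * h)
    (h1 : 0.37 ≤ u) (h2 : u ≤ 0.43) (h3 : u ≤ s) (h4 : s ≤ u + 0)
    (hY : eN r κ * (0.9263 * Real.exp (-(T * (1 / 2 * u ^ 2)))) ≤ Y) :
    ‖Xf β r h t (-1)‖ ≤ 0.0051887 * Y := by
  refine leE (cL8 (-2) 0.72 0.5 1.233 1.2802 _ _ _ _ _ 0.0953 2.2725 0.6945 0.0065 1.1575 0.9263 1.14 0.00198 0.004858 0.0925 0.8985 0.9485 3.1623 0.00008117 0.0003307 B (by norm_num) hs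
    (mloN8 B.P (x1 := 1.57) (by linarith) (by norm_num) (by norm_num)) (mhiN8 B.P (x2 := 1.63) (by linarith) (by norm_num) (by norm_num)) hY g1_nn
    (g1_le (by linarith) h2 (by norm_num)) (ch1 (a := (-2)) (by norm_num) (sqL h2 h4 (by norm_num) (by norm_num)) (by norm_num) h1 h2 (by norm_num) (by norm_num))
    (by norm_num) (by norm_num) (by norm_num) (by norm_num) rfl rfl (by norm_num) rfl rfl rfl (by norm_num) (by norm_num) (by norm_num) (by norm_num) (by norm_num) (by norm_num) (by norm_num) (by norm_num) (by norm_num) (by norm_num) (by norm_num) (by norm_num) (by norm_num) (by norm_num) (by norm_num) (by norm_num) (by norm_num) (by norm_num)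
    (expn 6 0.2251 (by norm_num) (by norm_num) (by norm_num) (by norm_num)) (by norm_num) (by norm_num) (by norm_num) (by norm_num) (by norm_num) (by norm_num) (by norm_num) (by norm_num) (expn 9 0.42 (by norm_num) (by norm_num) (by norm_num) (by norm_num)) (by norm_num) (by norm_num)) (by norm_num) hY (by norm_num)

theorem b8_2_Bm2 {β r h κ T t s u Y : ℝ} (B : By 0.33 0.36 0.3187 0.2975 10 0.036 5.4607 β r h κ T) (hs : t + κ = s * h)
    (h1 : 0.37 ≤ u) (h2 : u ≤ 0.43) (h3 : u ≤ s) (h4 : s ≤ u + 0)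
    (hY : eN r κ * (0.9263 * Real.exp (-(T * (1 / 2 * u ^ 2)))) ≤ Y) :
    ‖Xf β r h t (-2)‖ ≤ 0.0003300347 * Y := by
  refine leE (cL8 (-3) 0.6 0.456 2.0184 2.0656 _ _ _ _ _ 0.0596 2.5555 0.6945 0 1.2306 0.9263 2.9193 0.0000001213 0.0000003347 0.0925 0.8985 0.9485 3.1623 0.00007611 0.0003297 B (by norm_num) hs
    (mloN8 B.P (x1 := 2.57) (by linarith) (by norm_num) (by norm_num)) (mhiN8 B.P (x2 := 2.63) (by linarith) (by norm_num) (by norm_num)) hY g1_nn
    (g1_le (by linarith) h2 (by norm_num)) (ch1 (a := (-3)) (by norm_num) (sqL h2 h4 (by norm_num) (by norm_num)) (by norm_num) h1 h2 (by norm_num) (by norm_num))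
    (by norm_num) (by norm_num) (by norm_num) (by norm_num) rfl rfl (by norm_num) rfl rfl rfl (by norm_num) (by norm_num) (by norm_num) (by norm_num) (by norm_num) (by norm_num) (by norm_num) (by norm_num) (by norm_num) (by norm_num) (by norm_num) (by norm_num) (by norm_num) (by norm_num) (by norm_num) (by norm_num) (by norm_num) (by norm_num)
    (expn 15 0.9414 (by norm_num) (by norm_num) (by norm_num) (by norm_num)) (by norm_num) (by norm_num) (by norm_num) (by norm_num) (by norm_num) (by norm_num) (by norm_num) (by norm_num) (expn 9 0.485 (by norm_num) (by norm_num) (by norm_num) (by norm_num)) (by norm_num) (by norm_num)) (by norm_num) hY (by norm_num)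

theorem b8_2_Bm3 {β r h κ T t s u Y : ℝ} (B : By 0.33 0.36 0.3187 0.2975 10 0.036 5.4607 β r h κ T) (hs : t + κ = s * h)
    (h1 : 0.37 ≤ u) (h2 : u ≤ 0.43) (h3 : u ≤ s) (h4 : s ≤ u + 0)
    (hY : eN r κ * (0.9263 * Real.exp (-(T * (1 / 2 * u ^ 2)))) ≤ Y) :
    ‖Xf β r h t (-3)‖ ≤ 0.0005514 * Y := by
  refine cU8 1 (-4) 3.0721 3.4794 0.02 0.6945 0.02 1.6876 0.9263 0.0925 0.8985 0.9485 3.1623 0.00009283 0.0005514 B (by norm_num) hs
    (full8 B.P B.hk2 (x1 := 4.37) (by push_cast; linarith) (by norm_num) (by norm_num)) (mhi8 B.P (x2 := 4.43) (by push_cast; linarith) (by norm_num) (by norm_num)) hY g1_nn (g1_le (by linarith) h2 (by norm_num))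
    (by norm_num) (by norm_num) (by norm_num) (by norm_num) (by norm_num) (by norm_num) (by norm_num) (by norm_num) (by norm_num) (by norm_num) (by norm_num) (by norm_num) (by norm_num) (by norm_num) (by norm_num) (by norm_num) (by norm_num) (by norm_num) (by norm_num)
    (expn 9 0.285 (by norm_num) (by norm_num) (by norm_num) (by norm_num)) (by norm_num) (by norm_num)

private theorem b8_2_Co_y {κ t : ℝ} (h : DomR κ t) (hk1 : 0.33 ≤ κ) (hk2 : κ ≤ 0.36) (ht1 : 0.4633 ≤ t + κ) (ht2 : t + κ ≤ 0.5891) :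
    0.115 ≤ sy κ t ∧ sy κ t ≤ 0.15 := by
  have hy1 : 0.115 ≤ sy κ t := syR_ge h 0.33 0.36 0.4633 0.115 1.12187 1.12188 0.35837 0.39096 hk1 hk2 (by linarith) (by norm_num) (by norm_num)
    (expn_ge (by norm_num) (by norm_num)) (expn_le (by norm_num) (by norm_num) (by norm_num)) (by norm_num)
    (by norm_num) (by norm_num) (by norm_num) (by norm_num) (by norm_num) (by norm_num)
  have hy2 : sy κ t ≤ 0.15 := syR_le h 0.33 0.36 0.5891 0.15 1.16183 0.473 0.48409 0.52811 hk1 hk2 (by linarith) (by norm_num) (by norm_num)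
    (expn_ge (by norm_num) (by norm_num)) (by norm_num) (by norm_num) (Or.inr ((mul_le_mul_of_nonneg_left (expn_le (E := 1.16184) (by norm_num) (by norm_num) (by norm_num)) (by norm_num)).trans (by norm_num))) (by norm_num) (by norm_num) (by norm_num)
  exact ⟨by linarith, by linarith⟩

theorem b8_2_Co {β r h κ T t s u Y : ℝ} (B : By 0.33 0.36 0.3187 0.2975 10 0.036 5.4607 β r h κ T) (hs : t + κ = s * h)
    (h1 : 0.59 ≤ u) (h2 : u ≤ 0.75) (h3 : u ≤ s) (h4 : s ≤ u + 0)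
    (hY : eN r κ * (0.9251 * Real.exp (-(T * (0.5777 * (1 - u) ^ 2)))) ≤ Y) :
    ‖Xf β r h t 1‖ ≤ 0.8084 * Y := by
  obtain ⟨t', ht'⟩ : ∃ t', t' = t + 0 * h := ⟨_, rfl⟩
  have hτ : t' + κ = (s + 0) * h := by rw [ht']; linear_combination hs
  have a1 : 0.4633 ≤ t' + κ := by rw [hτ]; exact mlo8 B.P (x1 := 0.59) (by linarith) (by norm_num) (by norm_num)
  have a2 : t' + κ ≤ 0.5891 := by rw [hτ]; exact mhi8 B.P (x2 := 0.75) (by linarith) (by norm_num) (by norm_num)
  have hk := B.hk1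
  have hk' := B.P.hκ1
  have hD : DomR κ t' := dom7 B.P.κ0 (by linarith) (by linarith)
  have hy := b8_2_Co_y hD B.hk1 B.hk2 a1 a2
  have hJ : ‖HH β (sg κ t') - 1‖ ≤ 0.03 := JB8_k1 hD B.P.hβ (by linarith) B.P.hκ1 (by linarith) (by linarith) B.P.βκ B.P.βR
  have hd := Dlo7 hD (0.33 ^ 2) (0.36 ^ 2) 1.18 0.115 0.15 0.115 0.79453 hy.1 hy.2 (pow_le_pow_left₀ (by norm_num) B.hk1 2) (pow_le_pow_left₀ B.P.κ0.le B.hk2 2)
      (by rw [show (-2 * 0.115 : ℝ) = -0.23 by norm_num]; exact expm_ge (by norm_num) (by norm_num) (by norm_num) (by norm_num)) (by norm_num) (by norm_num) (by norm_num) (by norm_num) (by norm_num)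
  have hc : sE κ t' ≤ 1 - 0.426 * (t' + κ) ^ 2 / (1 + κ ^ 2) := VR8 0.78 0.426 0.4633 0.5891 _ _ _ _ _ B hD a1 a2 (by norm_num) (by norm_num) (by norm_num) (by norm_num) rfl rfl (by norm_num) rfl rfl rfl (by norm_num) (by norm_num)
  exact up8 0 0.03 0.426 1.18 0.9883 0.9251 0.0511 0.7567 0.8084 B (by norm_num) ht' hs hD (by norm_num) hJ hc hd (by norm_num) (by norm_num) (by norm_num) hY (by norm_num)
    (ch0 (a := 0) (by norm_num) (sqR h1 h3 (by norm_num)) (by norm_num) h1 h2 (by norm_num) (by norm_num)) (by norm_num)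
    (expn 0 0.279 (by norm_num) (by norm_num) (by norm_num) (by norm_num)) (by norm_num) (by norm_num)

theorem b8_2_C2R {β r h κ T t s u Y : ℝ} (B : By 0.33 0.36 0.3187 0.2975 10 0.036 5.4607 β r h κ T) (hs : t + κ = s * h)
    (h1 : 0.59 ≤ u) (h2 : u ≤ 0.75) (h3 : u ≤ s) (h4 : s ≤ u + 0) (htp : t + 1 * h ≤ Real.pi / 2)
    (hY : eN r κ * (0.9251 * Real.exp (-(T * (0.5777 * (1 - u) ^ 2)))) ≤ Y) :
    ‖Xf β r h t 2‖ ≤ 0.07805 * Y := by
  refine leE (cR8 1 0.48 0.3322 1.2487 1.3745 _ _ _ _ _ 0.0273 3.1063 0.6945 0.4059 1.2458 0.9251 0.7427 0.01733 0.0582 0.0972 0.8973 0.9459 3.1623 0.004521 0.01985 B (by norm_num) hs htp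
    (mlo8 B.P (x1 := 1.59) (by linarith) (by norm_num) (by norm_num)) (mhi8 B.P (x2 := 1.75) (by linarith) (by norm_num) (by norm_num)) hY (g0_nn (by norm_num))
    (g0_le (by norm_num) h1 h2 (by norm_num) (by norm_num)) (ch0 (a := 1) (by norm_num) (sqR h1 h3 (by norm_num)) (by norm_num) h1 h2 (by norm_num) (by norm_num))
    (by norm_num) (by norm_num) (by norm_num) (by norm_num) rfl rfl (by norm_num) rfl rfl rfl (by norm_num) (by norm_num) (by norm_num) (by norm_num) (by norm_num) (by norm_num) (by norm_num) (by norm_num) (by norm_num) (by norm_num) (by norm_num) (by norm_num) (by norm_num) (by norm_num) (by norm_num) (by norm_num) (by norm_num) (by norm_num) (by norm_num)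
    (expn 4 0.0556 (by norm_num) (by norm_num) (by norm_num) (by norm_num)) (by norm_num) (by norm_num) (by norm_num) (by norm_num) (by norm_num) (by norm_num) (by norm_num) (by norm_num) (expn 5 0.4 (by norm_num) (by norm_num) (by norm_num) (by norm_num)) (by norm_num) (by norm_num)) (by norm_num) hY (by norm_num)

theorem b8_2_C2 {β r h κ T t s u Y : ℝ} (B : By 0.33 0.36 0.3187 0.2975 10 0.036 5.4607 β r h κ T) (hs : t + κ = s * h)
    (h1 : 0.59 ≤ u) (h2 : u ≤ 0.75) (h3 : u ≤ s) (h4 : s ≤ u + 0)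
    (hY : eN r κ * (0.9251 * Real.exp (-(T * (0.5777 * (1 - u) ^ 2)))) ≤ Y) :
    ‖Xf β r h t 2‖ ≤ 0.07805 * Y := by
  have hp : t + 1 * h ≤ Real.pi / 2 := by
    have e : t + 1 * h = (s + 1) * h - κ := by linear_combination hs
    have := mhi8 B.P (x := s + 1) (x2 := 1.75) (by linarith) (by norm_num) (le_refl _)
    have := B.hk1
    have := Real.pi_gt_d6
    rw [e]
    norm_num at *
    linarith
  exact leE (b8_2_C2R B hs h1 h2 h3 h4 hp hY) (by norm_num) hY (by norm_num)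

theorem b8_2_C3U {β r h κ T t s u Y : ℝ} (B : By 0.33 0.36 0.3187 0.2975 10 0.036 5.4607 β r h κ T) (hs : t + κ = s * h)
    (h1 : 0.59 ≤ u) (h2 : u ≤ 0.75) (h3 : u ≤ s) (h4 : s ≤ u + 0)(htp : Real.pi / 2 ≤ t + 2 * h)
    (hY : eN r κ * (0.9251 * Real.exp (-(T * (0.5777 * (1 - u) ^ 2)))) ≤ Y) :
    ‖Xf β r h t (3)‖ ≤ 0.0009331 * Y := by
  refine cU8 0 (2) 1.5707 2.1599 0.03 0.6945 0.03 2.5143 0.9251 0.0972 0.8973 0.9459 3.1623 0.0001053 0.0009331 B (by norm_num) hs
    (half8 hs htp (by norm_num)) (mhi8 B.P (x2 := 2.75) (by push_cast; linarith) (by norm_num) (by norm_num)) hY (g0_nn (by norm_num)) (g0_le (by norm_num) h1 h2 (by norm_num) (by norm_num))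
    (by norm_num) (by norm_num) (by norm_num) (by norm_num) (by norm_num) (by norm_num) (by norm_num) (by norm_num) (by norm_num) (by norm_num) (by norm_num) (by norm_num) (by norm_num) (by norm_num) (by norm_num) (by norm_num) (by norm_num) (by norm_num) (by norm_num)
    (expn 9 0.159 (by norm_num) (by norm_num) (by norm_num) (by norm_num)) (by norm_num) (by norm_num)

theorem b8_2_C3 {β r h κ T t s u Y : ℝ} (B : By 0.33 0.36 0.3187 0.2975 10 0.036 5.4607 β r h κ T) (hs : t + κ = s * h)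
    (h1 : 0.59 ≤ u) (h2 : u ≤ 0.75) (h3 : u ≤ s) (h4 : s ≤ u + 0)
    (hY : eN r κ * (0.9251 * Real.exp (-(T * (0.5777 * (1 - u) ^ 2)))) ≤ Y) :
    ‖Xf β r h t 3‖ ≤ 0.0009331 * Y := by
  have hp : Real.pi / 2 ≤ t + 2 * h := by
    have e : t + 2 * h = (s + 2) * h - κ := by linear_combination hs
    have := mlo8 B.P (x := s + 2) (x1 := 2.59) (by linarith) (by norm_num) (le_refl _)
    have := B.hk2
    have := Real.pi_lt_d6
    rw [e]
    norm_num at *
    linarith
  exact leE (b8_2_C3U B hs h1 h2 h3 h4 hp hY) (by norm_num) hY (by norm_num)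

theorem b8_2_C4 {β r h κ T t s u Y : ℝ} (B : By 0.33 0.36 0.3187 0.2975 10 0.036 5.4607 β r h κ T) (hs : t + κ = s * h)
    (h1 : 0.59 ≤ u) (h2 : u ≤ 0.75) (h3 : u ≤ s) (h4 : s ≤ u + 0)
    (hY : eN r κ * (0.9251 * Real.exp (-(T * (0.5777 * (1 - u) ^ 2)))) ≤ Y) :
    ‖Xf β r h t (4)‖ ≤ 0.0005704 * Y := by
  refine cU8 0 (3) 2.4595 2.9453 0.02 0.6945 0.02 1.6986 0.9251 0.0972 0.8973 0.9459 3.1623 0.00009527 0.0005704 B (by norm_num) hs
    (fullz8 B.P B.hk2 (x1 := 3.59) (by push_cast; linarith) (by norm_num) (by norm_num)) (mhi8 B.P (x2 := 3.75) (by push_cast; linarith) (by norm_num) (by norm_num)) hY (g0_nn (by norm_num)) (g0_le (by norm_num) h1 h2 (by norm_num) (by norm_num))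
    (by norm_num) (by norm_num) (by norm_num) (by norm_num) (by norm_num) (by norm_num) (by norm_num) (by norm_num) (by norm_num) (by norm_num) (by norm_num) (by norm_num) (by norm_num) (by norm_num) (by norm_num) (by norm_num) (by norm_num) (by norm_num) (by norm_num)
    (expn 9 0.259 (by norm_num) (by norm_num) (by norm_num) (by norm_num)) (by norm_num) (by norm_num)

theorem b8_2_Cm1 {β r h κ T t s u Y : ℝ} (B : By 0.33 0.36 0.3187 0.2975 10 0.036 5.4607 β r h κ T) (hs : t + κ = s * h)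
    (h1 : 0.59 ≤ u) (h2 : u ≤ 0.75) (h3 : u ≤ s) (h4 : s ≤ u + 0)
    (hY : eN r κ * (0.9251 * Real.exp (-(T * (0.5777 * (1 - u) ^ 2)))) ≤ Y) :
    ‖Xf β r h t (-1)‖ ≤ 0.028054 * Y := by
  refine leE (cL8 (-2) 0.98 0.5764 0.9817 1.1075 _ _ _ _ _ 0.0694 2.4601 0.6945 0.2536 1.1933 0.9251 0.8645 0.008966 0.02385 0.0972 0.8973 0.9459 3.1623 0.0009995 0.004204 B (by norm_num) hs
    (mloN8 B.P (x1 := 1.25) (by linarith) (by norm_num) (by norm_num)) (mhiN8 B.P (x2 := 1.41) (by linarith) (by norm_num) (by norm_num)) hY (g0_nn (by norm_num))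
    (g0_le (by norm_num) h1 h2 (by norm_num) (by norm_num)) (ch0 (a := (-2)) (by norm_num) (sqL h2 h4 (by norm_num) (by norm_num)) (by norm_num) h1 h2 (by norm_num) (by norm_num))
    (by norm_num) (by norm_num) (by norm_num) (by norm_num) rfl rfl (by norm_num) rfl rfl rfl (by norm_num) (by norm_num) (by norm_num) (by norm_num) (by norm_num) (by norm_num) (by norm_num) (by norm_num) (by norm_num) (by norm_num) (by norm_num) (by norm_num) (by norm_num) (by norm_num) (by norm_num) (by norm_num) (by norm_num) (by norm_num)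
    (expn 4 0.7207 (by norm_num) (by norm_num) (by norm_num) (by norm_num)) (by norm_num) (by norm_num) (by norm_num) (by norm_num) (by norm_num) (by norm_num) (by norm_num) (by norm_num) (expn 6 0.923 (by norm_num) (by norm_num) (by norm_num) (by norm_num)) (by norm_num) (by norm_num)) (by norm_num) hY (by norm_num)

theorem b8_2_Cm2 {β r h κ T t s u Y : ℝ} (B : By 0.33 0.36 0.3187 0.2975 10 0.036 5.4607 β r h κ T) (hs : t + κ = s * h)
    (h1 : 0.59 ≤ u) (h2 : u ≤ 0.75) (h3 : u ≤ s) (h4 : s ≤ u + 0)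
    (hY : eN r κ * (0.9251 * Real.exp (-(T * (0.5777 * (1 - u) ^ 2)))) ≤ Y) :
    ‖Xf β r h t (-2)‖ ≤ 0.00034382 * Y := by
  refine leE (cL8 (-3) 0.62 0.4625 1.7671 1.8929 _ _ _ _ _ 0.0631 2.5193 0.6945 0 1.2153 0.9251 2.3053 0.000003422 0.00000932 0.0972 0.8973 0.9459 3.1623 0.00007809 0.0003345 B (by norm_num) hs
    (mloN8 B.P (x1 := 2.25) (by linarith) (by norm_num) (by norm_num)) (mhiN8 B.P (x2 := 2.41) (by linarith) (by norm_num) (by norm_num)) hY (g0_nn (by norm_num))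
    (g0_le (by norm_num) h1 h2 (by norm_num) (by norm_num)) (ch0 (a := (-3)) (by norm_num) (sqL h2 h4 (by norm_num) (by norm_num)) (by norm_num) h1 h2 (by norm_num) (by norm_num))
    (by norm_num) (by norm_num) (by norm_num) (by norm_num) rfl rfl (by norm_num) rfl rfl rfl (by norm_num) (by norm_num) (by norm_num) (by norm_num) (by norm_num) (by norm_num) (by norm_num) (by norm_num) (by norm_num) (by norm_num) (by norm_num) (by norm_num) (by norm_num) (by norm_num) (by norm_num) (by norm_num) (by norm_num) (by norm_num)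
    (expn 12 0.5885 (by norm_num) (by norm_num) (by norm_num) (by norm_num)) (by norm_num) (by norm_num) (by norm_num) (by norm_num) (by norm_num) (by norm_num) (by norm_num) (by norm_num) (expn 9 0.459 (by norm_num) (by norm_num) (by norm_num) (by norm_num)) (by norm_num) (by norm_num)) (by norm_num) hY (by norm_num)

theorem b8_2_Cm3 {β r h κ T t s u Y : ℝ} (B : By 0.33 0.36 0.3187 0.2975 10 0.036 5.4607 β r h κ T) (hs : t + κ = s * h)
    (h1 : 0.59 ≤ u) (h2 : u ≤ 0.75) (h3 : u ≤ s) (h4 : s ≤ u + 0)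
    (hY : eN r κ * (0.9251 * Real.exp (-(T * (0.5777 * (1 - u) ^ 2)))) ≤ Y) :
    ‖Xf β r h t (-3)‖ ≤ 0.0005661 * Y := by
  refine cU8 1 (-4) 3.2449 3.7307 0.02 0.6945 0.02 1.6859 0.9251 0.0972 0.8973 0.9459 3.1623 0.00009527 0.0005661 B (by norm_num) hs
    (full8 B.P B.hk2 (x1 := 4.59) (by push_cast; linarith) (by norm_num) (by norm_num)) (mhi8 B.P (x2 := 4.75) (by push_cast; linarith) (by norm_num) (by norm_num)) hY (g0_nn (by norm_num)) (g0_le (by norm_num) h1 h2 (by norm_num) (by norm_num))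
    (by norm_num) (by norm_num) (by norm_num) (by norm_num) (by norm_num) (by norm_num) (by norm_num) (by norm_num) (by norm_num) (by norm_num) (by norm_num) (by norm_num) (by norm_num) (by norm_num) (by norm_num) (by norm_num) (by norm_num) (by norm_num) (by norm_num)
    (expn 9 0.259 (by norm_num) (by norm_num) (by norm_num) (by norm_num)) (by norm_num) (by norm_num)

private theorem b8_2_Do_y {κ t : ℝ} (h : DomR κ t) (hk1 : 0.33 ≤ κ) (hk2 : κ ≤ 0.36) (ht1 : 0.589 ≤ t + κ) (ht2 : t + κ ≤ 0.8247) :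
    0.139 ≤ sy κ t ∧ sy κ t ≤ 0.193 := by
  have hy1 : 0.139 ≤ sy κ t := syR_ge h 0.33 0.36 0.589 0.139 1.14912 1.14913 0.44368 0.48403 hk1 hk2 (by linarith) (by norm_num) (by norm_num)
    (expn_ge (by norm_num) (by norm_num)) (expn_le (by norm_num) (by norm_num) (by norm_num)) (by norm_num)
    (by norm_num) (by norm_num) (by norm_num) (by norm_num) (by norm_num) (by norm_num)
  have hy2 : sy κ t ≤ 0.193 := syR_le h 0.33 0.36 0.8247 0.193 1.21288 0.6354 0.65023 0.70936 hk1 hk2 (by linarith) (by norm_num) (by norm_num)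
    (expn_ge (by norm_num) (by norm_num)) (by norm_num) (by norm_num) (Or.inr ((mul_le_mul_of_nonneg_left (expn_le (E := 1.21289) (by norm_num) (by norm_num) (by norm_num)) (by norm_num)).trans (by norm_num))) (by norm_num) (by norm_num) (by norm_num)
  exact ⟨by linarith, by linarith⟩

theorem b8_2_Do {β r h κ T t s u Y : ℝ} (B : By 0.33 0.36 0.3187 0.2975 10 0.036 5.4607 β r h κ T) (hs : t + κ = s * h)
    (h1 : 0.75 ≤ u) (h2 : u ≤ 1.05) (h3 : u ≤ s) (h4 : s ≤ u + 0)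
    (hY : eN r κ * (0.9251 * Real.exp (-(T * (0.5777 * (1 - u) ^ 2)))) ≤ Y) :
    ‖Xf β r h t 1‖ ≤ 0.379 * Y := by
  obtain ⟨t', ht'⟩ : ∃ t', t' = t + 0 * h := ⟨_, rfl⟩
  have hτ : t' + κ = (s + 0) * h := by rw [ht']; linear_combination hs
  have a1 : 0.589 ≤ t' + κ := by rw [hτ]; exact mlo8 B.P (x1 := 0.75) (by linarith) (by norm_num) (by norm_num)
  have a2 : t' + κ ≤ 0.8247 := by rw [hτ]; exact mhi8 B.P (x2 := 1.05) (by linarith) (by norm_num) (by norm_num)
  have hk := B.hk1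
  have hk' := B.P.hκ1
  have hD : DomR κ t' := dom7 B.P.κ0 (by linarith) (by linarith)
  have hy := b8_2_Do_y hD B.hk1 B.hk2 a1 a2
  have hJ : ‖HH β (sg κ t') - 1‖ ≤ 0.03 := JB8_k1 hD B.P.hβ (by linarith) B.P.hκ1 (by linarith) (by linarith) B.P.βκ B.P.βR
  have hd := Dlo7 hD (0.33 ^ 2) (0.36 ^ 2) 1.2182 0.139 0.193 0.139 0.75729 hy.1 hy.2 (pow_le_pow_left₀ (by norm_num) B.hk1 2) (pow_le_pow_left₀ B.P.κ0.le B.hk2 2)
      (by rw [show (-2 * 0.139 : ℝ) = -0.278 by norm_num]; exact expm_ge (by norm_num) (by norm_num) (by norm_num) (by norm_num)) (by norm_num) (by norm_num) (by norm_num) (by norm_num) (by norm_num)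
  have hc : sE κ t' ≤ 1 - 0.3992 * (t' + κ) ^ 2 / (1 + κ ^ 2) := VR8 0.7 0.3992 0.589 0.8247 _ _ _ _ _ B hD a1 a2 (by norm_num) (by norm_num) (by norm_num) (by norm_num) rfl rfl (by norm_num) rfl rfl rfl (by norm_num) (by norm_num)
  exact up8 0 0.03 0.3992 1.2182 0.9805 0.9251 0.1884 0.3575 0.379 B (by norm_num) ht' hs hD (by norm_num) hJ hc hd (by norm_num) (by norm_num) (by norm_num) hY (by norm_num)
    (ch0 (a := 0) (by norm_num) (sqR h1 h3 (by norm_num)) (by norm_num) h1 h2 (by norm_num) (by norm_num)) (by norm_num)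
    (expn 1 0.0287 (by norm_num) (by norm_num) (by norm_num) (by norm_num)) (by norm_num) (by norm_num)

theorem b8_2_D2R {β r h κ T t s u Y : ℝ} (B : By 0.33 0.36 0.3187 0.2975 10 0.036 5.4607 β r h κ T) (hs : t + κ = s * h)
    (h1 : 0.75 ≤ u) (h2 : u ≤ 1.05) (h3 : u ≤ s) (h4 : s ≤ u + 0) (htp : t + 1 * h ≤ Real.pi / 2)
    (hY : eN r κ * (0.9251 * Real.exp (-(T * (0.5777 * (1 - u) ^ 2)))) ≤ Y) :
    ‖Xf β r h t 2‖ ≤ 0.033048 * Y := by
  refine leE (cR8 1 0.42 0.3057 1.3744 1.6101 _ _ _ _ _ 0.0243 3.198 0.6945 0.3394 1.2531 0.9251 0.9001 0.007441 0.02573 0.0362 0.8973 0.9798 3.1623 0.001657 0.007318 B (by norm_num) hs htp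
    (mlo8 B.P (x1 := 1.75) (by linarith) (by norm_num) (by norm_num)) (mhi8 B.P (x2 := 2.05) (by linarith) (by norm_num) (by norm_num)) hY (g0_nn (by norm_num))
    (g0_le (by norm_num) h1 h2 (by norm_num) (by norm_num)) (ch0 (a := 1) (by norm_num) (sqR h1 h3 (by norm_num)) (by norm_num) h1 h2 (by norm_num) (by norm_num))
    (by norm_num) (by norm_num) (by norm_num) (by norm_num) rfl rfl (by norm_num) rfl rfl rfl (by norm_num) (by norm_num) (by norm_num) (by norm_num) (by norm_num) (by norm_num) (by norm_num) (by norm_num) (by norm_num) (by norm_num) (by norm_num) (by norm_num) (by norm_num) (by norm_num) (by norm_num) (by norm_num) (by norm_num) (by norm_num) (by norm_num)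
    (expn 4 0.9151 (by norm_num) (by norm_num) (by norm_num) (by norm_num)) (by norm_num) (by norm_num) (by norm_num) (by norm_num) (by norm_num) (by norm_num) (by norm_num) (by norm_num) (expn 6 0.404 (by norm_num) (by norm_num) (by norm_num) (by norm_num)) (by norm_num) (by norm_num)) (by norm_num) hY (by norm_num)

theorem b8_2_D2 {β r h κ T t s u Y : ℝ} (B : By 0.33 0.36 0.3187 0.2975 10 0.036 5.4607 β r h κ T) (hs : t + κ = s * h)
    (h1 : 0.75 ≤ u) (h2 : u ≤ 1.05) (h3 : u ≤ s) (h4 : s ≤ u + 0)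
    (hY : eN r κ * (0.9251 * Real.exp (-(T * (0.5777 * (1 - u) ^ 2)))) ≤ Y) :
    ‖Xf β r h t 2‖ ≤ 0.033048 * Y := by
  have hp : t + 1 * h ≤ Real.pi / 2 := by
    have e : t + 1 * h = (s + 1) * h - κ := by linear_combination hs
    have := mhi8 B.P (x := s + 1) (x2 := 2.05) (by linarith) (by norm_num) (le_refl _)
    have := B.hk1
    have := Real.pi_gt_d6
    rw [e]
    norm_num at *
    linarith
  exact leE (b8_2_D2R B hs h1 h2 h3 h4 hp hY) (by norm_num) hY (by norm_num)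

theorem b8_2_D3U {β r h κ T t s u Y : ℝ} (B : By 0.33 0.36 0.3187 0.2975 10 0.036 5.4607 β r h κ T) (hs : t + κ = s * h)
    (h1 : 0.75 ≤ u) (h2 : u ≤ 1.05) (h3 : u ≤ s) (h4 : s ≤ u + 0)(htp : Real.pi / 2 ≤ t + 2 * h)
    (hY : eN r κ * (0.9251 * Real.exp (-(T * (0.5777 * (1 - u) ^ 2)))) ≤ Y) :
    ‖Xf β r h t (3)‖ ≤ 0.0006659 * Y := by
  refine cU8 0 (2) 1.5707 2.3955 0.03 0.6945 0.03 2.5143 0.9251 0.0362 0.8973 0.9798 3.1623 0.00007514 0.0006659 B (by norm_num) hs
    (half8 hs htp (by norm_num)) (mhi8 B.P (x2 := 3.05) (by push_cast; linarith) (by norm_num) (by norm_num)) hY (g0_nn (by norm_num)) (g0_le (by norm_num) h1 h2 (by norm_num) (by norm_num))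
    (by norm_num) (by norm_num) (by norm_num) (by norm_num) (by norm_num) (by norm_num) (by norm_num) (by norm_num) (by norm_num) (by norm_num) (by norm_num) (by norm_num) (by norm_num) (by norm_num) (by norm_num) (by norm_num) (by norm_num) (by norm_num) (by norm_num)
    (expn 9 0.498 (by norm_num) (by norm_num) (by norm_num) (by norm_num)) (by norm_num) (by norm_num)

theorem b8_2_D3 {β r h κ T t s u Y : ℝ} (B : By 0.33 0.36 0.3187 0.2975 10 0.036 5.4607 β r h κ T) (hs : t + κ = s * h)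
    (h1 : 0.75 ≤ u) (h2 : u ≤ 1.05) (h3 : u ≤ s) (h4 : s ≤ u + 0)
    (hY : eN r κ * (0.9251 * Real.exp (-(T * (0.5777 * (1 - u) ^ 2)))) ≤ Y) :
    ‖Xf β r h t 3‖ ≤ 0.0006659 * Y := by
  have hp : Real.pi / 2 ≤ t + 2 * h := by
    have e : t + 2 * h = (s + 2) * h - κ := by linear_combination hs
    have := mlo8 B.P (x := s + 2) (x1 := 2.75) (by linarith) (by norm_num) (le_refl _)
    have := B.hk2
    have := Real.pi_lt_d6
    rw [e]
    norm_num at *
    linarith
  exact leE (b8_2_D3U B hs h1 h2 h3 h4 hp hY) (by norm_num) hY (by norm_num)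

theorem b8_2_D4 {β r h κ T t s u Y : ℝ} (B : By 0.33 0.36 0.3187 0.2975 10 0.036 5.4607 β r h κ T) (hs : t + κ = s * h)
    (h1 : 0.75 ≤ u) (h2 : u ≤ 1.05) (h3 : u ≤ s) (h4 : s ≤ u + 0)
    (hY : eN r κ * (0.9251 * Real.exp (-(T * (0.5777 * (1 - u) ^ 2)))) ≤ Y) :
    ‖Xf β r h t (4)‖ ≤ 0.0004069 * Y := by
  refine cU8 0 (3) 2.5852 3.1809 0.02 0.6945 0.02 1.6953 0.9251 0.0362 0.8973 0.9798 3.1623 0.0000681 0.0004069 B (by norm_num) hs
    (fullz8 B.P B.hk2 (x1 := 3.75) (by push_cast; linarith) (by norm_num) (by norm_num)) (mhi8 B.P (x2 := 4.05) (by push_cast; linarith) (by norm_num) (by norm_num)) hY (g0_nn (by norm_num)) (g0_le (by norm_num) h1 h2 (by norm_num) (by norm_num))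
    (by norm_num) (by norm_num) (by norm_num) (by norm_num) (by norm_num) (by norm_num) (by norm_num) (by norm_num) (by norm_num) (by norm_num) (by norm_num) (by norm_num) (by norm_num) (by norm_num) (by norm_num) (by norm_num) (by norm_num) (by norm_num) (by norm_num)
    (expn 9 0.598 (by norm_num) (by norm_num) (by norm_num) (by norm_num)) (by norm_num) (by norm_num)

theorem b8_2_Dm1 {β r h κ T t s u Y : ℝ} (B : By 0.33 0.36 0.3187 0.2975 10 0.036 5.4607 β r h κ T) (hs : t + κ = s * h)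
    (h1 : 0.75 ≤ u) (h2 : u ≤ 1.05) (h3 : u ≤ s) (h4 : s ≤ u + 0)
    (hY : eN r κ * (0.9251 * Real.exp (-(T * (0.5777 * (1 - u) ^ 2)))) ≤ Y) :
    ‖Xf β r h t (-1)‖ ≤ 0.18914 * Y := by
  refine leE (cL8 (-2) 0.98 0.556 0.7461 0.9818 _ _ _ _ _ 0.0725 2.4333 0.6945 0.4293 1.1658 0.9251 0.5003 0.06554 0.1724 0.0362 0.8973 0.9798 3.1623 0.004074 0.01674 B (by norm_num) hs
    (mloN8 B.P (x1 := 0.95) (by linarith) (by norm_num) (by norm_num)) (mhiN8 B.P (x2 := 1.25) (by linarith) (by norm_num) (by norm_num)) hY (g0_nn (by norm_num))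
    (g0_le (by norm_num) h1 h2 (by norm_num) (by norm_num)) (ch0 (a := (-2)) (by norm_num) (sqL h2 h4 (by norm_num) (by norm_num)) (by norm_num) h1 h2 (by norm_num) (by norm_num))
    (by norm_num) (by norm_num) (by norm_num) (by norm_num) rfl rfl (by norm_num) rfl rfl rfl (by norm_num) (by norm_num) (by norm_num) (by norm_num) (by norm_num) (by norm_num) (by norm_num) (by norm_num) (by norm_num) (by norm_num) (by norm_num) (by norm_num) (by norm_num) (by norm_num) (by norm_num) (by norm_num) (by norm_num) (by norm_num)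
    (expn 2 0.7319 (by norm_num) (by norm_num) (by norm_num) (by norm_num)) (by norm_num) (by norm_num) (by norm_num) (by norm_num) (by norm_num) (by norm_num) (by norm_num) (by norm_num) (expn 5 0.505 (by norm_num) (by norm_num) (by norm_num) (by norm_num)) (by norm_num) (by norm_num)) (by norm_num) hY (by norm_num)

theorem b8_2_Dm2 {β r h κ T t s u Y : ℝ} (B : By 0.33 0.36 0.3187 0.2975 10 0.036 5.4607 β r h κ T) (hs : t + κ = s * h)
    (h1 : 0.75 ≤ u) (h2 : u ≤ 1.05) (h3 : u ≤ s) (h4 : s ≤ u + 0)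
    (hY : eN r κ * (0.9251 * Real.exp (-(T * (0.5777 * (1 - u) ^ 2)))) ≤ Y) :
    ‖Xf β r h t (-2)‖ ≤ 0.00030766 * Y := by
  refine leE (cL8 (-3) 0.8 0.5372 1.5315 1.7672 _ _ _ _ _ 0.0142 3.6577 0.6945 0 1.268 0.9251 2.0412 0.00001443 0.00005706 0.0362 0.8973 0.9798 3.1623 0.00005607 0.0002506 B (by norm_num) hs
    (mloN8 B.P (x1 := 1.95) (by linarith) (by norm_num) (by norm_num)) (mhiN8 B.P (x2 := 2.25) (by linarith) (by norm_num) (by norm_num)) hY (g0_nn (by norm_num))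
    (g0_le (by norm_num) h1 h2 (by norm_num) (by norm_num)) (ch0 (a := (-3)) (by norm_num) (sqL h2 h4 (by norm_num) (by norm_num)) (by norm_num) h1 h2 (by norm_num) (by norm_num))
    (by norm_num) (by norm_num) (by norm_num) (by norm_num) rfl rfl (by norm_num) rfl rfl rfl (by norm_num) (by norm_num) (by norm_num) (by norm_num) (by norm_num) (by norm_num) (by norm_num) (by norm_num) (by norm_num) (by norm_num) (by norm_num) (by norm_num) (by norm_num) (by norm_num) (by norm_num) (by norm_num) (by norm_num) (by norm_num)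
    (expn 11 0.1463 (by norm_num) (by norm_num) (by norm_num) (by norm_num)) (by norm_num) (by norm_num) (by norm_num) (by norm_num) (by norm_num) (by norm_num) (by norm_num) (by norm_num) (expn 9 0.798 (by norm_num) (by norm_num) (by norm_num) (by norm_num)) (by norm_num) (by norm_num)) (by norm_num) hY (by norm_num)

theorem b8_2_Dm3 {β r h κ T t s u Y : ℝ} (B : By 0.33 0.36 0.3187 0.2975 10 0.036 5.4607 β r h κ T) (hs : t + κ = s * h)
    (h1 : 0.75 ≤ u) (h2 : u ≤ 1.05) (h3 : u ≤ s) (h4 : s ≤ u + 0)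
    (hY : eN r κ * (0.9251 * Real.exp (-(T * (0.5777 * (1 - u) ^ 2)))) ≤ Y) :
    ‖Xf β r h t (-3)‖ ≤ 0.0004044 * Y := by
  refine cU8 1 (-4) 3.3706 3.9663 0.02 0.6945 0.02 1.6849 0.9251 0.0362 0.8973 0.9798 3.1623 0.0000681 0.0004044 B (by norm_num) hs
    (full8 B.P B.hk2 (x1 := 4.75) (by push_cast; linarith) (by norm_num) (by norm_num)) (mhi8 B.P (x2 := 5.05) (by push_cast; linarith) (by norm_num) (by norm_num)) hY (g0_nn (by norm_num)) (g0_le (by norm_num) h1 h2 (by norm_num) (by norm_num))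
    (by norm_num) (by norm_num) (by norm_num) (by norm_num) (by norm_num) (by norm_num) (by norm_num) (by norm_num) (by norm_num) (by norm_num) (by norm_num) (by norm_num) (by norm_num) (by norm_num) (by norm_num) (by norm_num) (by norm_num) (by norm_num) (by norm_num)
    (expn 9 0.598 (by norm_num) (by norm_num) (by norm_num) (by norm_num)) (by norm_num) (by norm_num)

private theorem b8_2_yS1 {κ t : ℝ} (h : DomR κ t) (hk1 : 0.33 ≤ κ) (hk2 : κ ≤ 0.36) (ht1 : 0.3377 ≤ t + κ) (ht2 : t + κ ≤ 0.4634) :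
    0.088 ≤ sy κ t ∧ sy κ t ≤ 0.124 := by
  have hy1 : 0.088 ≤ sy κ t := syR_ge h 0.33 0.36 0.3377 0.088 1.09198 1.09199 0.26692 0.2912 hk1 hk2 (by linarith) (by norm_num) (by norm_num)
    (expn_ge (by norm_num) (by norm_num)) (expn_le (by norm_num) (by norm_num) (by norm_num)) (by norm_num)
    (by norm_num) (by norm_num) (by norm_num) (by norm_num) (by norm_num) (by norm_num)
  have hy2 : sy κ t ≤ 0.124 := syR_le h 0.33 0.36 0.4634 0.124 1.13201 0.381 0.38991 0.42537 hk1 hk2 (by linarith) (by norm_num) (by norm_num)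
    (expn_ge (by norm_num) (by norm_num)) (by norm_num) (by norm_num) (Or.inr ((mul_le_mul_of_nonneg_left (expn_le (E := 1.13202) (by norm_num) (by norm_num) (by norm_num)) (by norm_num)).trans (by norm_num))) (by norm_num) (by norm_num) (by norm_num)
  exact ⟨by linarith, by linarith⟩

private theorem b8_2_yS0 {κ t : ℝ} (h : DomR κ t) (hk1 : 0.33 ≤ κ) (hk2 : κ ≤ 0.36) (ht1 : (-0.4477) ≤ t + κ) (ht2 : t + κ ≤ (-0.322)) :
    (-0.174) ≤ sy κ t ∧ sy κ t ≤ (-0.108) := by
  have hy1 : -0.174 ≤ sy κ t := syL_ge h 0.33 0.36 0.4477 0.174 0.84029 0.8403 0.3969 0.40614 0.44307 hk1 hk2 (by linarith) (by norm_num) (by norm_num) (by norm_num)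
    (expm_ge (by norm_num) (by norm_num) (by norm_num) (by norm_num)) (expm_le (by norm_num) (by norm_num) (by norm_num)) (by norm_num)
    (by norm_num) (by norm_num) (by norm_num) (by norm_num) (by norm_num) (by norm_num)
  have hy2 : sy κ t ≤ -0.108 := syL_le h 0.33 0.36 0.322 0.108 0.89762 0.89763 0.26928 0.29377 hk1 hk2 (by linarith) (by norm_num) (by norm_num) (by norm_num)
    (expm_ge (by norm_num) (by norm_num) (by norm_num) (by norm_num)) (expm_le (by norm_num) (by norm_num) (by norm_num)) (by norm_num)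
    (by norm_num) (by norm_num) (by norm_num) (by norm_num) (by norm_num) (by norm_num)
  exact ⟨by linarith, by linarith⟩

theorem b8_2_S {β r h κ T t s : ℝ} (B : By 0.33 0.36 0.3187 0.2975 10 0.036 5.4607 β r h κ T) (hs : t + κ = s * h)
    (h1 : 0.43 ≤ s) (h2 : s ≤ 0.59) :
    ‖Ld β r h t 0‖ ≤ r * 1.19006 + 0.7819 ∧ ‖Ld β r h t 1‖ ≤ r * 0.91577 + 0.2828 ∧
      T * 1.0972 - (0.1532 + 0.5208 + 0 + 0.2938) ≤ (Ld β r h t 1 - Ld β r h t 0).im := by
  have a1 : 0.3377 ≤ t + κ := by rw [hs]; exact mlo8 B.P h1 (by norm_num) (by norm_num)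
  have a2 : t + κ ≤ 0.4634 := by rw [hs]; exact mhi8 B.P h2 (by norm_num) (by norm_num)
  have hτ : t - h + κ = (s + (-1)) * h := by linear_combination hs
  have b1 : (-0.4477) ≤ t - h + κ := by rw [hτ]; have := mhiN8 B.P (x := s + (-1)) (x2 := 0.57) (τ2 := 0.4477) (by linarith) (by norm_num) (by norm_num); linarith
  have b2 : t - h + κ ≤ (-0.322) := by rw [hτ]; have := mloN8 B.P (x := s + (-1)) (x1 := 0.41) (τ1 := 0.322) (by linarith) (by norm_num) (by norm_num); linarith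
  have hk := B.hk1
  have hk2 := B.hk2
  have hk' := B.P.hκ1
  have hD1 : DomR κ t := dom7 B.P.κ0 (by linarith) (by linarith)
  have hD0 : DomR κ (t - h) := dom7 B.P.κ0 (by linarith) (by linarith)
  have hy1 := b8_2_yS1 hD1 B.hk1 B.hk2 a1 a2
  have hy0 := b8_2_yS0 hD0 B.hk1 B.hk2 b1 b2
  have hd1 := Dlo7 hD1 (0.33 ^ 2) (0.36 ^ 2) 1.1372 0.088 0.124 0.088 0.83861 hy1.1 hy1.2 (pow_le_pow_left₀ (by norm_num) B.hk1 2) (pow_le_pow_left₀ B.P.κ0.le B.hk2 2)
      (by rw [show (-2 * 0.088 : ℝ) = -0.176 by norm_num]; exact expm_ge (by norm_num) (by norm_num) (by norm_num) (by norm_num)) (by norm_num) (by norm_num) (by norm_num) (by norm_num) (by norm_num)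
  have hd0 := Dlo7 hD0 (0.33 ^ 2) (0.36 ^ 2) 0.727 (-0.174) (-0.108) (-0.174) 1.41623 hy0.1 hy0.2 (pow_le_pow_left₀ (by norm_num) B.hk1 2) (pow_le_pow_left₀ B.P.κ0.le B.hk2 2)
      (by rw [show (-2 * (-0.174) : ℝ) = 0.348 by norm_num]; exact expn_ge (by norm_num) (by norm_num)) (by norm_num) (by norm_num) (by norm_num) (by norm_num) (by norm_num)
  have hJ1 := JB8_S1 hD1 B.P.hβ (by linarith) (by linarith) (by linarith) (by linarith) B.P.βκ B.P.βR
  have hJ0 := JB8_S0 hD0 B.P.hβ (by linarith) (by linarith) (by linarith) (by linarith) B.P.βκ B.P.βR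
  obtain ⟨m1, n1⟩ := copy8 (t := t) (t' := t) (k := 1) 0.33 0.36 1.1372 0.088 0.91577 0.8387 0.2909 0.8906 0.05 0.1 0.1532 0.2828 B.P (by push_cast; ring) hD1 B.hk1 B.hk2 (by norm_num) (by norm_num) (by norm_num) (by norm_num) hJ1
    hy1.1 (by norm_num) hd1 (by norm_num) (expm_le (by norm_num) (by norm_num) (by norm_num)) (by norm_num) (by norm_num) (by norm_num) (by norm_num) (by norm_num) (by norm_num) (by norm_num) (by norm_num)
  obtain ⟨m0, n0⟩ := copy8 (t := t) (t' := t - h) (k := 0) 0.33 0.36 0.727 (-0.174) 1.19006 1.4163 0.4687 1.1138 0.1 0.1 0.5208 0.7819 B.P (by push_cast; ring) hD0 B.hk1 B.hk2 (by norm_num) (by norm_num) (by norm_num) (by norm_num) hJ0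
    hy0.1 (by norm_num) hd0 (by norm_num) (by rw [neg_neg]; exact expn_le (by norm_num) (by norm_num) (by norm_num)) (by norm_num) (by norm_num) (by norm_num) (by norm_num) (by norm_num) (by norm_num) (by norm_num) (by norm_num)
  refine ⟨m0, m1, ?_⟩
  have q1 := corr1_ge hD1 0.33 0.36 1.1372 0 B.hk1 B.hk2 (by norm_num) (by linarith) hd1 (by norm_num) (by norm_num) (Or.inl (by norm_num))
  have q0 := corr0_le hD0 0.33 0.36 0.727 1.19006 0.2938 B.hk1 B.hk2 (by norm_num) (by linarith) hd0 (by norm_num) (by norm_num)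
    ((Real.exp_le_exp.2 (by linarith)).trans (show Real.exp (-(-0.174)) ≤ 1.19006 from (by rw [neg_neg]; exact expn_le (by norm_num) (by norm_num) (by norm_num)))) (Or.inr (by norm_num))
  exact slope8 0.797 0.955 1.0972 0.43 0.59 0.1532 0.5208 0 0.2938 B.P hs h1 h2 (pR_050 hD1 (by linarith) (by linarith) (by linarith)) (pL_050 hD0 (by linarith) (by linarith) (by linarith)) n1 n0 q1 q0
    (by norm_num) (by norm_num) (by norm_num)

theorem boxb8_2 {p : ℤ} (hp : IsCoprime (8 : ℤ) p) {β r h κ T : ℝ} (P : Q8 β r h κ T) (hk1 : 0.33 ≤ κ) (hk2 : κ ≤ 0.36) :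
    Circ (2 * Real.pi * p / (8 : ℕ) + β) r := by
  have B : By 0.33 0.36 0.3187 0.2975 10 0.036 5.4607 β r h κ T :=
    { P := P, hk1 := hk1, hk2 := hk2, hψ := (psi_lo P.κ0.le hk2 (by norm_num)).trans (by norm_num), hψ1 := le_trans (by norm_num) (psi1_lo (k1 := 0.33) (by norm_num) hk1 (by linarith)), hR0 := P.hr.trans' (by norm_num), hβ0 := by have := P.βκ; linarith, hT0 := P.T8 hk2 (by norm_num) (by norm_num) }
  have hT := B.hT0
  have hr := P.r_le (ν := 1.8313) hk2 (by norm_num)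
  have hbh : β ≤ 0.0459 * h := by
    have h1 := B.hβ0
    have h2 := mul_le_mul_of_nonneg_left P.hlo (by norm_num : (0 : ℝ) ≤ 0.0459)
    linarith
  refine fin8 hp P (slo := 0.43) (shi := 0.59) (bb := 0.0459) (ℓ1 := 0.9263) (ℓ0 := 0.9251) (C0 := 0.5777) (e2 := 0.03155) (e3 := 0.0017121) (e4 := 0.0008854) (f1 := 0.011331) (g1 := 0.017406) (f2 := 0.000571298) (f3 := 0.0009448)
    (a := 1.05) (m := T * 1.0972 - (0.9678)) (η := 0.047) (Λ0 := r * 1.19006 + 0.7819) (Λ1 := r * 0.91577 + 0.2828) (S1 := 0.1128)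
    (by norm_num) (by norm_num) (by linarith) (by norm_num) (by norm_num) hbh (by norm_num)
    ?_ ?_ ?_ ?_ ?_ ?_ ?_ ?_ ?_ ?_ ?_ ?_ ?_ ?_ (by norm_num) (by norm_num) (by norm_num) ?_
  · intro t s hs h1 h2
    exact b8_2_L1 B hs (by linarith) h2
  · intro t s hs h1 h2
    exact b8_2_L0 B hs h1 (by linarith)
  · intro t s u Y hs h1 h2 h3 h4 hY
    have hY' : eN r κ * (0.9263 * Real.exp (-(T * (1 / 2 * u ^ 2)))) ≤ Y := hY
    rcases le_total u 0.5 with hc | hc
    · exact leE (b8_2_W2a B hs h1 hc h3 h4 hY') (by norm_num) hY' (by norm_num)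
    · exact leE (b8_2_W2b B hs hc h2 h3 h4 hY') (by norm_num) hY' (by norm_num)
  · intro t s u Y hs h1 h2 h3 h4 hY
    exact b8_2_W3 B hs h1 h2 h3 h4 hY
  · intro t s u Y hs h1 h2 h3 h4 hY
    exact b8_2_W4 B hs h1 h2 h3 h4 hY
  · intro t s u Y hs h1 h2 h3 h4 hY
    exact b8_2_Wm1 B hs h1 h2 h3 h4 hY
  · intro t s u Y hs h1 h2 h3 h4 hY
    exact b8_2_Wm1p B hs h1 h2 h3 h4 hY
  · intro t s u Y hs h1 h2 h3 h4 hY
    exact b8_2_Wm2 B hs h1 h2 h3 h4 hY
  · intro t s u Y hs h1 h2 h3 h4 hY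
    exact b8_2_Wm3 B hs h1 h2 h3 h4 hY
  · intro t s hs h1 h2
    have hY := b8_2_L1 B hs (by linarith) (by linarith)
    have hYp := lt_of_lt_of_le (mul_pos (eN_pos r κ) (mul_pos (by norm_num : (0 : ℝ) < 0.9263) (Real.exp_pos _))) hY
    rcases le_total s 0.37 with hc | hc
    · have x0 := b8_2_Ao B hs h1 hc le_rfl (by linarith) hY
      have x2 := b8_2_A2 B hs h1 hc le_rfl (by linarith) hY
      have x3 := b8_2_A3 B hs h1 hc le_rfl (by linarith) hY
      have x4 := b8_2_A4 B hs h1 hc le_rfl (by linarith) hY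
      have xm1 := b8_2_Am1 B hs h1 hc le_rfl (by linarith) hY
      have xm2 := b8_2_Am2 B hs h1 hc le_rfl (by linarith) hY
      have xm3 := b8_2_Am3 B hs h1 hc le_rfl (by linarith) hY
      linarith
    · have x0 := b8_2_Bo B hs hc h2 le_rfl (by linarith) hY
      have x2 := b8_2_B2 B hs hc h2 le_rfl (by linarith) hY
      have x3 := b8_2_B3 B hs hc h2 le_rfl (by linarith) hY
      have x4 := b8_2_B4 B hs hc h2 le_rfl (by linarith) hY
      have xm1 := b8_2_Bm1 B hs hc h2 le_rfl (by linarith) hY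
      have xm2 := b8_2_Bm2 B hs hc h2 le_rfl (by linarith) hY
      have xm3 := b8_2_Bm3 B hs hc h2 le_rfl (by linarith) hY
      linarith
  · intro t s hs h1 h2
    have hY := b8_2_L0 B hs (by linarith) (by linarith)
    have hYp := lt_of_lt_of_le (mul_pos (eN_pos r κ) (mul_pos (by norm_num : (0 : ℝ) < 0.9251) (Real.exp_pos _))) hY
    rcases le_total s 0.75 with hc | hc
    · have x0 := b8_2_Co B hs h1 hc le_rfl (by linarith) hY
      have x2 := b8_2_C2 B hs h1 hc le_rfl (by linarith) hY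
      have x3 := b8_2_C3 B hs h1 hc le_rfl (by linarith) hY
      have x4 := b8_2_C4 B hs h1 hc le_rfl (by linarith) hY
      have xm1 := b8_2_Cm1 B hs h1 hc le_rfl (by linarith) hY
      have xm2 := b8_2_Cm2 B hs h1 hc le_rfl (by linarith) hY
      have xm3 := b8_2_Cm3 B hs h1 hc le_rfl (by linarith) hY
      linarith
    · have x0 := b8_2_Do B hs hc h2 le_rfl (by linarith) hY
      have x2 := b8_2_D2 B hs hc h2 le_rfl (by linarith) hY
      have x3 := b8_2_D3 B hs hc h2 le_rfl (by linarith) hY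
      have x4 := b8_2_D4 B hs hc h2 le_rfl (by linarith) hY
      have xm1 := b8_2_Dm1 B hs hc h2 le_rfl (by linarith) hY
      have xm2 := b8_2_Dm2 B hs hc h2 le_rfl (by linarith) hY
      have xm3 := b8_2_Dm3 B hs hc h2 le_rfl (by linarith) hY
      linarith
  · intro t s hs h1 h2
    exact (b8_2_S B hs h1 h2).1
  · intro t s hs h1 h2
    exact (b8_2_S B hs h1 h2).2.1
  · intro t s hs h1 h2
    have := (b8_2_S B hs h1 h2).2.2
    linarith
  · linarith

end Sok
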