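import Pool.Agent.Lib.MP_816dec_an.R1All
import Pool.Agent.Lib.MP_816dec_an.R1b3All
import Pool.Agent.Lib.MP_816dec_an.R1b4
import Pool.Agent.Lib.MP_816dec_an.R1b5
import Pool.Agent.Lib.MP_816dec_an.R1b6
import Pool.Agent.Lib.MP_816dec_an.R1b7
import Pool.Agent.Lib.MP_816dec_an.R1b8
import Pool.Agent.Lib.MP_816dec_an.R1Big

/-!
MP_816dec_an, row R1: the circle statement for `b ≥ 3` and `β r ≤ 1.39`.
-/

set_option autoImplicit false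

namespace Sok

/-- Row R1. -/
theorem rowR1 (b : ℕ) (p : ℤ) (β r : ℝ) (hb : 3 ≤ b) (hp : IsCoprime (b : ℤ) p) (hr : 10 ≤ r)
    (hβ : 0 < β) (hκ : β * r ≤ 1.39)
    (hc : Real.sqrt 3 / 2 * ((b : ℝ) ^ 2 * (1 + (β * r) ^ 2)) ≤ 2 * Real.pi * r) :
    Circ (2 * Real.pi * p / b + β) r :=
  R1_all R1_b3 R1_b4 R1_b5 R1_b6 R1At_7 R1At_8 R1_big b p β r hb hp hr hβ hκ hc

end Sok
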