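import Pool.Agent.Lib.MP_816dec_an.R2SlQ
import Pool.Agent.Lib.MP_816dec_an.R2Cls

/-!
MP_816dec_an (R2, N2): slopes of the classes `b = 2, 3`: data and kernel tests.
-/

set_option autoImplicit false

open Set

namespace Sok.R2

def nr2_1_1 : NRQ where
  κ₁ := 3
  κ₂ := 7 / 2
  τ := 29207 / 15625
  τm := 337721 / 250000
  η := 2013 / 5000
  A := 191359 / 500000
  C₁ := 1078001 / 1000000
  C₂ := 539001 / 500000
  X := 3783 / 2500
  E := 121753 / 50000
  ρ := 285713 / 100000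
  u₁ := 5437201 / 10000000
  u₂ := 5437773 / 10000000
  l := 21617 / 5000
  s := 25991 / 12500
  e₀ := 1378547 / 10000000
  e₁ := 115157 / 625000
  e₂ := 1051737 / 10000000
  sγ := 88457 / 100000
  G := 903 / 2500
  g₂ := 13023 / 25000
  q := 3787 / 5000
  K := 35001 / 10000
  Y := 8387 / 10000
  ua := 4487 / 10000
  ub := 7871 / 10000
  v := 1
  L := 0
  e := 6957 / 10000
  p := 6959 / 10000
  g := 6687 / 5000
  W₁ := 4521983 / 5000000000000
  W₂ := 1555059 / 1000000000000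
  ℓ := 221 / 200000
  R := 1337 / 400
  m := 14741 / 25000
  C := 6599 / 5000
  gG := 78229 / 10000

theorem chkS2_1 : chkS c2_1 (1 / 10) (3) (7 / 2) (392699 / 125000) (3141593 / 1000000)
    [(nr2_1_1, 7 / 2, 421761 / 1000000)] (some (4681 / 10000)) [] = true := by decide +kernel

theorem slopeV2_1 {b : ℕ} {β r : ℝ} (hb : b = 2) (hβ : 0 < β) (hr : 10 ≤ r) (hT : c2_1.num.T0 ≤ TT b β r)
    (h1 : (3 : ℝ) ≤ β * r) (h2 : β * r ≤ 7 / 2)
    (hv : ∀ z ∈ Icc c2_1.num.qL c2_1.num.qR, ValH b β r (1 / 10) z) : SlopeH b β r (-2 * (b : ℤ) + 2) 2 c2_1.num := by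
  subst hb
  refine slopeH_of chkS2_1 (by norm_num) (by norm_num) (by norm_num) hβ hr hT (by push_cast; linarith)
    (by push_cast; linarith) (hh_lower (by norm_num) (by push_cast; norm_num))
    (hh_upper (by norm_num) (by push_cast; norm_num)) (by simpa using hv)

def nr2_2_1 : NRQ where
  κ₁ := 7 / 2
  κ₂ := 369 / 100
  τ := 486947 / 250000
  τm := 166897 / 125000
  η := 631 / 2000
  A := 76403 / 250000
  C₁ := 1048589 / 1000000
  C₂ := 104859 / 100000
  X := 743 / 400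
  E := 294607 / 100000
  ρ := 271001 / 100000
  u₁ := 1112941 / 2000000
  u₂ := 1113051 / 2000000
  l := 25169 / 5000
  s := 112181 / 50000
  e₀ := 9954393 / 100000000
  e₁ := 1297091 / 10000000
  e₂ := 486283 / 10000000
  sγ := 90083 / 100000
  G := 34199 / 100000
  g₂ := 12013 / 20000
  q := 751 / 1000
  K := 36901 / 10000
  Y := 3433 / 5000
  ua := 266 / 625
  ub := 5597 / 10000
  v := 1
  L := 0
  e := 7983 / 10000
  p := 6699 / 10000
  g := 14803 / 10000
  W₁ := 4204259 / 10000000000000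
  W₂ := 931279 / 2500000000000
  ℓ := 393 / 1000000
  R := 45369 / 10000
  m := 4923 / 10000
  C := 102277 / 100000
  gG := 43023 / 5000

def nr2_2_2 : NRQ where
  κ₁ := 369 / 100
  κ₂ := 39 / 10
  τ := 486947 / 250000
  τm := 166897 / 125000
  η := 281 / 1000
  A := 136967 / 500000
  C₁ := 103873 / 100000
  C₂ := 1038731 / 1000000
  X := 252 / 125
  E := 63161 / 20000
  ρ := 256409 / 100000
  u₁ := 1134977 / 2000000
  u₂ := 5675099 / 10000000
  l := 12923 / 2500
  s := 227359 / 100000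
  e₀ := 4677709 / 50000000
  e₁ := 1191797 / 10000000
  e₂ := 748871 / 20000000
  sγ := 90719 / 100000
  G := 6697 / 20000
  g₂ := 15887 / 25000
  q := 7599 / 10000
  K := 39001 / 10000
  Y := 33 / 50
  ua := 4027 / 10000
  ub := 4851 / 10000
  v := 1
  L := 0
  e := 8097 / 10000
  p := 6431 / 10000
  g := 7393 / 5000
  W₁ := 4904229 / 10000000000000
  W₂ := 757797 / 2000000000000
  ℓ := 437 / 1000000
  R := 51469 / 10000
  m := 22893 / 50000
  C := 48151 / 50000
  gG := 5568 / 625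

theorem chkS2_2 : chkS c2_2 (1 / 10) (7 / 2) (39 / 10) (392699 / 125000) (3141593 / 1000000)
    [(nr2_2_1, 369 / 100, 232623 / 500000), (nr2_2_2, 39 / 10, 515981 / 1000000)] (some (2081 / 5000)) [] = true := by decide +kernel

theorem slopeV2_2 {b : ℕ} {β r : ℝ} (hb : b = 2) (hβ : 0 < β) (hr : 10 ≤ r) (hT : c2_2.num.T0 ≤ TT b β r)
    (h1 : (7 / 2 : ℝ) ≤ β * r) (h2 : β * r ≤ 39 / 10)
    (hv : ∀ z ∈ Icc c2_2.num.qL c2_2.num.qR, ValH b β r (1 / 10) z) : SlopeH b β r (-2 * (b : ℤ) + 2) 2 c2_2.num := by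
  subst hb
  refine slopeH_of chkS2_2 (by norm_num) (by norm_num) (by norm_num) hβ hr hT (by push_cast; linarith)
    (by push_cast; linarith) (hh_lower (by norm_num) (by push_cast; norm_num))
    (hh_upper (by norm_num) (by push_cast; norm_num)) (by simpa using hv)

def nr2_3_1 : NRQ where
  κ₁ := 39 / 10
  κ₂ := 21 / 5
  τ := 494801 / 250000
  τm := 329867 / 250000
  η := 1277 / 5000
  A := 125027 / 500000
  C₁ := 1032099 / 1000000
  C₂ := 10321 / 10000
  X := 10853 / 5000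
  E := 337391 / 100000
  ρ := 30193 / 12500
  u₁ := 287199 / 500000
  u₂ := 5744327 / 10000000
  l := 52429 / 10000
  s := 114487 / 50000
  e₀ := 4522339 / 50000000
  e₁ := 1130619 / 10000000
  e₂ := 3099133 / 100000000
  sγ := 22797 / 25000
  G := 32971 / 100000
  g₂ := 33131 / 50000
  q := 7769 / 10000
  K := 19821 / 5000
  Y := 241 / 400
  ua := 1981 / 5000
  ub := 4193 / 10000
  v := 1
  L := 0
  e := 851 / 1000
  p := 6353 / 10000
  g := 14443 / 10000
  W₁ := 1754091 / 5000000000000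
  W₂ := 2669659 / 5000000000000
  ℓ := 141 / 500000
  R := 57949 / 10000
  m := 343 / 800
  C := 46423 / 50000
  gG := 92083 / 10000

theorem chkS2_3 : chkS c2_3 (1 / 10) (39 / 10) (21 / 5) (392699 / 125000) (3141593 / 1000000)
    [(nr2_3_1, 207 / 50, 577393 / 1000000)] (some (1917 / 5000)) [] = true := by decide +kernel

theorem slopeV2_3 {b : ℕ} {β r : ℝ} (hb : b = 2) (hβ : 0 < β) (hr : 10 ≤ r) (hT : c2_3.num.T0 ≤ TT b β r)
    (h1 : (39 / 10 : ℝ) ≤ β * r) (h2 : β * r ≤ 21 / 5)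
    (hv : ∀ z ∈ Icc c2_3.num.qL c2_3.num.qR, ValH b β r (1 / 10) z) : SlopeH b β r (-2 * (b : ℤ) + 2) 2 c2_3.num := by
  subst hb
  refine slopeH_of chkS2_3 (by norm_num) (by norm_num) (by norm_num) hβ hr hT (by push_cast; linarith)
    (by push_cast; linarith) (hh_lower (by norm_num) (by push_cast; norm_num))
    (hh_upper (by norm_num) (by push_cast; norm_num)) (by simpa using hv)

def nr2_4_1 : NRQ where
  κ₁ := 21 / 5
  κ₂ := 20
  τ := 245437 / 125000
  τm := 166897 / 125000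
  η := 1061 / 5000
  A := 104549 / 500000
  C₁ := 511133 / 500000
  C₂ := 1022267 / 1000000
  X := 24453 / 10000
  E := 185707 / 50000
  ρ := 122333 / 50000
  u₁ := 92991 / 156250
  u₂ := 2975893 / 5000000
  l := 14957 / 2500
  s := 122299 / 50000
  e₀ := 1610849 / 25000000
  e₁ := 7961739 / 100000000
  e₂ := 1420889 / 100000000
  sγ := 45987 / 50000
  G := 32133 / 100000
  g₂ := 35551 / 50000
  q := 4761 / 5000
  K := 4929 / 1250
  Y := 239 / 500
  ua := 3983 / 10000
  ub := 3983 / 10000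
  v := 1
  L := 0
  e := 9419 / 10000
  p := 3189 / 5000
  g := 11091 / 10000
  W₁ := 689321 / 5000000000000
  W₂ := 1524899 / 100000000000
  ℓ := 2243 / 1000000
  R := 70391 / 10000
  m := 38531 / 100000
  C := 81823 / 100000
  gG := 48307 / 5000

theorem chkS2_4 : chkS c2_4 (1 / 10) (21 / 5) (20) (392699 / 125000) (3141593 / 1000000)
    [(nr2_4_1, 21 / 5, 577393 / 1000000)] (some (1789 / 5000)) [] = true := by decide +kernel

theorem slopeV2_4 {b : ℕ} {β r : ℝ} (hb : b = 2) (hβ : 0 < β) (hr : 10 ≤ r) (hT : c2_4.num.T0 ≤ TT b β r)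
    (h1 : (21 / 5 : ℝ) ≤ β * r) (h2 : β * r ≤ 20)
    (hv : ∀ z ∈ Icc c2_4.num.qL c2_4.num.qR, ValH b β r (1 / 10) z) : SlopeH b β r (-2 * (b : ℤ) + 2) 2 c2_4.num := by
  subst hb
  refine slopeH_of chkS2_4 (by norm_num) (by norm_num) (by norm_num) hβ hr hT (by push_cast; linarith)
    (by push_cast; linarith) (hh_lower (by norm_num) (by push_cast; norm_num))
    (hh_upper (by norm_num) (by push_cast; norm_num)) (by simpa using hv)

def nr3_1_1 : NRQ where
  κ₁ := 139 / 100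
  κ₂ := 149 / 100
  τ := 591667 / 500000
  τm := 952949 / 1000000
  η := 76 / 125
  A := 54531 / 100000
  C₁ := 585163 / 500000
  C₂ := 1170327 / 1000000
  X := 7519 / 10000
  E := 109563 / 100000
  ρ := 671139 / 100000
  u₁ := 3165271 / 5000000
  u₂ := 3165407 / 5000000
  l := 25231 / 5000
  s := 112319 / 50000
  e₀ := 494899 / 5000000
  e₁ := 1650527 / 10000000
  e₂ := 388269 / 2500000
  sγ := 42249 / 50000
  G := 20719 / 50000
  g₂ := 18453 / 50000
  q := 5847 / 10000
  K := 14901 / 10000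
  Y := 6841 / 10000
  ua := 527 / 500
  ub := 5547 / 2500
  v := 2
  L := 6933 / 10000
  e := 919 / 1250
  p := 547 / 1250
  g := 14131 / 10000
  W₁ := 8064831 / 1000000000000
  W₂ := 3647167 / 5000000000000
  ℓ := 3739 / 500000
  R := 1541 / 1250
  m := 21081 / 20000
  C := 142393 / 100000
  gG := 26237 / 5000

def nr3_1_2 : NRQ where
  κ₁ := 149 / 100
  κ₂ := 8 / 5
  τ := 591667 / 500000
  τm := 952949 / 1000000
  η := 563 / 1000
  A := 512267 / 1000000
  C₁ := 143449 / 125000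
  C₂ := 1147593 / 1000000
  X := 2047 / 2500
  E := 957 / 800
  ρ := 624999 / 100000
  u₁ := 6306167 / 10000000
  u₂ := 3153309 / 5000000
  l := 25587 / 5000
  s := 226217 / 100000
  e₀ := 9580189 / 100000000
  e₁ := 774257 / 5000000
  e₂ := 1297167 / 10000000
  sγ := 85381 / 100000
  G := 20083 / 50000
  g₂ := 39911 / 100000
  q := 2941 / 5000
  K := 16001 / 10000
  Y := 6701 / 10000
  ua := 1227 / 1250
  ub := 10051 / 5000
  v := 2
  L := 6933 / 10000
  e := 1869 / 2500
  p := 6061 / 10000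
  g := 1829 / 1250
  W₁ := 264233 / 200000000000
  W₂ := 552477 / 1250000000000
  ℓ := 299 / 250000
  R := 13713 / 10000
  m := 97999 / 100000
  C := 4112 / 3125
  gG := 5483 / 1000

theorem chkS3_1 : chkS c3_1 (1 / 10) (139 / 100) (8 / 5) (392699 / 187500) (3141593 / 1500000)
    [(nr3_1_1, 149 / 100, 153749 / 1000000), (nr3_1_2, 8 / 5, 84989 / 500000)] none [149 / 100] = true := by decide +kernel

theorem slopeV3_1 {b : ℕ} {β r : ℝ} (hb : b = 3) (hβ : 0 < β) (hr : 10 ≤ r) (hT : c3_1.num.T0 ≤ TT b β r)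
    (h1 : (139 / 100 : ℝ) ≤ β * r) (h2 : β * r ≤ 8 / 5)
    (hv : ∀ z ∈ Icc c3_1.num.qL c3_1.num.qR, ValH b β r (1 / 10) z) : SlopeH b β r (-2 * (b : ℤ) + 2) 2 c3_1.num := by
  subst hb
  refine slopeH_of chkS3_1 (by norm_num) (by norm_num) (by norm_num) hβ hr hT (by push_cast; linarith)
    (by push_cast; linarith) (hh_lower (by norm_num) (by push_cast; norm_num))
    (hh_upper (by norm_num) (by push_cast; norm_num)) (by simpa using hv)

def nr3_2_1 : NRQ where
  κ₁ := 8 / 5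
  κ₂ := 87 / 50
  τ := 596903 / 500000
  τm := 942477 / 1000000
  η := 1049 / 2000
  A := 241391 / 500000
  C₁ := 1129203 / 1000000
  C₂ := 282301 / 250000
  X := 8889 / 10000
  E := 130333 / 100000
  ρ := 574711 / 100000
  u₁ := 3136703 / 5000000
  u₂ := 1254727 / 2000000
  l := 25543 / 5000
  s := 226023 / 100000
  e₀ := 9618907 / 100000000
  e₁ := 1503391 / 10000000
  e₂ := 1134767 / 10000000
  sγ := 86129 / 100000
  G := 4891 / 12500
  g₂ := 21299 / 50000
  q := 6027 / 10000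
  K := 17401 / 10000
  Y := 6719 / 10000
  ua := 4513 / 5000
  ub := 3637 / 2000
  v := 9 / 5
  L := 5879 / 10000
  e := 7489 / 10000
  p := 3653 / 5000
  g := 2967 / 2000
  W₁ := 3755037 / 10000000000000
  W₂ := 18039 / 50000000000
  ℓ := 171 / 500000
  R := 15241 / 10000
  m := 22867 / 25000
  C := 3928 / 3125
  gG := 3577 / 625

def nr3_2_2 : NRQ where
  κ₁ := 87 / 50
  κ₂ := 19 / 10
  τ := 596903 / 500000
  τm := 942477 / 1000000
  η := 2361 / 5000
  A := 441051 / 1000000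
  C₁ := 1105881 / 1000000
  C₂ := 552941 / 500000
  X := 9871 / 10000
  E := 144719 / 100000
  ρ := 263157 / 50000
  u₁ := 784247 / 1250000
  u₂ := 1254877 / 2000000
  l := 3247 / 625
  s := 22793 / 10000
  e₀ := 1848919 / 20000000
  e₁ := 1391409 / 10000000
  e₂ := 111821 / 1250000
  sγ := 17427 / 20000
  G := 9447 / 25000
  g₂ := 23233 / 50000
  q := 1529 / 2500
  K := 19001 / 10000
  Y := 131 / 200
  ua := 4133 / 5000
  ub := 1601 / 1000
  v := 8 / 5
  L := 2351 / 5000
  e := 476 / 625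
  p := 8373 / 10000
  g := 3041 / 2000
  W₁ := 1137803 / 10000000000000
  W₂ := 19469 / 78125000000
  ℓ := 51 / 500000
  R := 8723 / 5000
  m := 83727 / 100000
  C := 57991 / 50000
  gG := 15077 / 2500

theorem chkS3_2 : chkS c3_2 (1 / 10) (8 / 5) (19 / 10) (392699 / 187500) (3141593 / 1500000)
    [(nr3_2_1, 87 / 50, 12019 / 62500), (nr3_2_2, 19 / 10, 13757 / 62500)] (some (5423 / 10000)) [] = true := by decide +kernel

theorem slopeV3_2 {b : ℕ} {β r : ℝ} (hb : b = 3) (hβ : 0 < β) (hr : 10 ≤ r) (hT : c3_2.num.T0 ≤ TT b β r)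
    (h1 : (8 / 5 : ℝ) ≤ β * r) (h2 : β * r ≤ 19 / 10)
    (hv : ∀ z ∈ Icc c3_2.num.qL c3_2.num.qR, ValH b β r (1 / 10) z) : SlopeH b β r (-2 * (b : ℤ) + 2) 2 c3_2.num := by
  subst hb
  refine slopeH_of chkS3_2 (by norm_num) (by norm_num) (by norm_num) hβ hr hT (by push_cast; linarith)
    (by push_cast; linarith) (hh_lower (by norm_num) (by push_cast; norm_num))
    (hh_upper (by norm_num) (by push_cast; norm_num)) (by simpa using hv)

def nr3_3_1 : NRQ where
  κ₁ := 19 / 10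
  κ₂ := 2
  τ := 596903 / 500000
  τm := 186401 / 200000
  η := 2097 / 5000
  A := 198539 / 500000
  C₁ := 1084387 / 1000000
  C₂ := 271097 / 250000
  X := 11031 / 10000
  E := 161343 / 100000
  ρ := 499999 / 100000
  u₁ := 786969 / 1250000
  u₂ := 1259237 / 2000000
  l := 27577 / 5000
  s := 234849 / 100000
  e₀ := 1995683 / 25000000
  e₁ := 1173773 / 10000000
  e₂ := 1527731 / 25000000
  sγ := 4407 / 5000
  G := 36511 / 100000
  g₂ := 25339 / 50000
  q := 6101 / 10000
  K := 20001 / 10000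
  Y := 372 / 625
  ua := 7853 / 10000
  ub := 867 / 625
  v := 6 / 5
  L := 73 / 400
  e := 4033 / 5000
  p := 2283 / 2500
  g := 16129 / 10000
  W₁ := 53067 / 1562500000000
  W₂ := 989157 / 10000000000000
  ℓ := 7 / 250000
  R := 1263 / 625
  m := 76283 / 100000
  C := 103119 / 100000
  gG := 63677 / 10000

def nr3_3_2 : NRQ where
  κ₁ := 2
  κ₂ := 21 / 10
  τ := 596903 / 500000
  τm := 186401 / 200000
  η := 3897 / 10000
  A := 14863 / 40000
  C₁ := 4293 / 4000
  C₂ := 1073251 / 1000000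
  X := 736 / 625
  E := 171801 / 100000
  ρ := 476189 / 100000
  u₁ := 1263863 / 2000000
  u₂ := 631971 / 1000000
  l := 14019 / 2500
  s := 59201 / 25000
  e₀ := 7652423 / 100000000
  e₁ := 1101477 / 10000000
  e₂ := 5061997 / 100000000
  sγ := 88699 / 100000
  G := 1433 / 4000
  g₂ := 53203 / 100000
  q := 3081 / 5000
  K := 21001 / 10000
  Y := 5787 / 10000
  ua := 7479 / 10000
  ub := 12729 / 10000
  v := 1
  L := 0
  e := 409 / 500
  p := 4627 / 5000
  g := 16329 / 10000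
  W₁ := 2682323 / 100000000000000
  W₂ := 8098533 / 100000000000000
  ℓ := 11 / 500000
  R := 11039 / 5000
  m := 72231 / 100000
  C := 19687 / 20000
  gG := 65709 / 10000

theorem chkS3_3 : chkS c3_3 (1 / 10) (19 / 10) (21 / 10) (392699 / 187500) (3141593 / 1500000)
    [(nr3_3_1, 2, 238733 / 1000000), (nr3_3_2, 21 / 10, 258309 / 1000000)] (some (2387 / 5000)) [] = true := by decide +kernel

theorem slopeV3_3 {b : ℕ} {β r : ℝ} (hb : b = 3) (hβ : 0 < β) (hr : 10 ≤ r) (hT : c3_3.num.T0 ≤ TT b β r)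
    (h1 : (19 / 10 : ℝ) ≤ β * r) (h2 : β * r ≤ 21 / 10)
    (hv : ∀ z ∈ Icc c3_3.num.qL c3_3.num.qR, ValH b β r (1 / 10) z) : SlopeH b β r (-2 * (b : ℤ) + 2) 2 c3_3.num := by
  subst hb
  refine slopeH_of chkS3_3 (by norm_num) (by norm_num) (by norm_num) hβ hr hT (by push_cast; linarith)
    (by push_cast; linarith) (hh_lower (by norm_num) (by push_cast; norm_num))
    (hh_upper (by norm_num) (by push_cast; norm_num)) (by simpa using hv)

def nr3_4_1 : NRQ where
  κ₁ := 21 / 10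
  κ₂ := 23 / 10
  τ := 4859 / 4000
  τm := 921533 / 1000000
  η := 3717 / 10000
  A := 17793 / 50000
  C₁ := 533423 / 500000
  C₂ := 1066847 / 1000000
  X := 1241 / 1000
  E := 5667 / 3125
  ρ := 434781 / 100000
  u₁ := 6304519 / 10000000
  u₂ := 1576189 / 2500000
  l := 13489 / 2500
  s := 46457 / 20000
  e₀ := 8433307 / 100000000
  e₁ := 294513 / 2500000
  e₂ := 2600267 / 50000000
  sγ := 89037 / 100000
  G := 35419 / 100000
  g₂ := 54793 / 100000
  q := 3219 / 5000
  K := 23001 / 10000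
  Y := 1543 / 2500
  ua := 1707 / 2500
  ub := 11841 / 10000
  v := 1
  L := 0
  e := 1971 / 2500
  p := 562 / 625
  g := 15691 / 10000
  W₁ := 2343243 / 50000000000000
  W₂ := 383201 / 2500000000000
  ℓ := 1 / 25000
  R := 23791 / 10000
  m := 69167 / 100000
  C := 50137 / 50000
  gG := 67509 / 10000

theorem chkS3_4 : chkS c3_4 (1 / 10) (21 / 10) (23 / 10) (392699 / 187500) (3141593 / 1500000)
    [(nr3_4_1, 23 / 10, 150163 / 500000)] (some (2219 / 5000)) [] = true := by decide +kernel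

theorem slopeV3_4 {b : ℕ} {β r : ℝ} (hb : b = 3) (hβ : 0 < β) (hr : 10 ≤ r) (hT : c3_4.num.T0 ≤ TT b β r)
    (h1 : (21 / 10 : ℝ) ≤ β * r) (h2 : β * r ≤ 23 / 10)
    (hv : ∀ z ∈ Icc c3_4.num.qL c3_4.num.qR, ValH b β r (1 / 10) z) : SlopeH b β r (-2 * (b : ℤ) + 2) 2 c3_4.num := by
  subst hb
  refine slopeH_of chkS3_4 (by norm_num) (by norm_num) (by norm_num) hβ hr hT (by push_cast; linarith)
    (by push_cast; linarith) (hh_lower (by norm_num) (by push_cast; norm_num))
    (hh_upper (by norm_num) (by push_cast; norm_num)) (by simpa using hv)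

def nr3_5_1 : NRQ where
  κ₁ := 23 / 10
  κ₂ := 5 / 2
  τ := 617847 / 500000
  τm := 900589 / 1000000
  η := 3303 / 10000
  A := 319013 / 1000000
  C₁ := 1053137 / 1000000
  C₂ := 526569 / 500000
  X := 1383 / 1000
  E := 50369 / 25000
  ρ := 399999 / 100000
  u₁ := 3166193 / 5000000
  u₂ := 791629 / 1250000
  l := 55319 / 10000
  s := 294 / 125
  e₀ := 792259 / 10000000
  e₁ := 134287 / 1250000
  e₂ := 780701 / 20000000
  sγ := 89809 / 100000
  G := 34513 / 100000
  g₂ := 58629 / 100000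
  q := 661 / 1000
  K := 25001 / 10000
  Y := 2961 / 5000
  ua := 3141 / 5000
  ub := 253 / 250
  v := 1
  L := 0
  e := 4029 / 5000
  p := 1077 / 1250
  g := 3179 / 2000
  W₁ := 2867773 / 50000000000000
  W₂ := 156243 / 1250000000000
  ℓ := 23 / 500000
  R := 1389 / 500
  m := 31593 / 50000
  C := 94177 / 100000
  gG := 35579 / 5000

theorem chkS3_5 : chkS c3_5 (1 / 10) (23 / 10) (5 / 2) (392699 / 187500) (3141593 / 1500000)
    [(nr3_5_1, 5 / 2, 346163 / 1000000)] (some (4181 / 10000)) [] = true := by decide +kernel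

theorem slopeV3_5 {b : ℕ} {β r : ℝ} (hb : b = 3) (hβ : 0 < β) (hr : 10 ≤ r) (hT : c3_5.num.T0 ≤ TT b β r)
    (h1 : (23 / 10 : ℝ) ≤ β * r) (h2 : β * r ≤ 5 / 2)
    (hv : ∀ z ∈ Icc c3_5.num.qL c3_5.num.qR, ValH b β r (1 / 10) z) : SlopeH b β r (-2 * (b : ℤ) + 2) 2 c3_5.num := by
  subst hb
  refine slopeH_of chkS3_5 (by norm_num) (by norm_num) (by norm_num) hβ hr hT (by push_cast; linarith)
    (by push_cast; linarith) (hh_lower (by norm_num) (by push_cast; norm_num))
    (hh_upper (by norm_num) (by push_cast; norm_num)) (by simpa using hv)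

def nr3_6_1 : NRQ where
  κ₁ := 5 / 2
  κ₂ := 133 / 50
  τ := 126711 / 100000
  τm := 890117 / 1000000
  η := 2979 / 10000
  A := 289527 / 1000000
  C₁ := 1043429 / 1000000
  C₂ := 104343 / 100000
  X := 15223 / 10000
  E := 44253 / 20000
  ρ := 94073 / 25000
  u₁ := 79423 / 125000
  u₂ := 158851 / 250000
  l := 28641 / 5000
  s := 239337 / 100000
  e₀ := 3620457 / 50000000
  e₁ := 1924593 / 20000000
  e₂ := 724609 / 25000000
  sγ := 11301 / 12500
  G := 4229 / 12500
  g₂ := 61817 / 100000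
  q := 3363 / 5000
  K := 26601 / 10000
  Y := 5583 / 10000
  ua := 369 / 625
  ub := 8699 / 10000
  v := 1
  L := 0
  e := 8317 / 10000
  p := 8321 / 10000
  g := 8111 / 5000
  W₁ := 1486447 / 25000000000000
  W₂ := 1802627 / 20000000000000
  ℓ := 9 / 200000
  R := 801 / 250
  m := 29147 / 50000
  C := 44391 / 50000
  gG := 7457 / 1000

theorem chkS3_6 : chkS c3_6 (1 / 10) (5 / 2) (133 / 50) (392699 / 187500) (3141593 / 1500000)
    [(nr3_6_1, 1063 / 400, 384929 / 1000000)] (some (983 / 2500)) [] = true := by decide +kernel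

theorem slopeV3_6 {b : ℕ} {β r : ℝ} (hb : b = 3) (hβ : 0 < β) (hr : 10 ≤ r) (hT : c3_6.num.T0 ≤ TT b β r)
    (h1 : (5 / 2 : ℝ) ≤ β * r) (h2 : β * r ≤ 133 / 50)
    (hv : ∀ z ∈ Icc c3_6.num.qL c3_6.num.qR, ValH b β r (1 / 10) z) : SlopeH b β r (-2 * (b : ℤ) + 2) 2 c3_6.num := by
  subst hb
  refine slopeH_of chkS3_6 (by norm_num) (by norm_num) (by norm_num) hβ hr hT (by push_cast; linarith)
    (by push_cast; linarith) (hh_lower (by norm_num) (by push_cast; norm_num))
    (hh_upper (by norm_num) (by push_cast; norm_num)) (by simpa using hv)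

def nr3_7_1 : NRQ where
  κ₁ := 133 / 50
  κ₂ := 20
  τ := 644027 / 500000
  τm := 175929 / 200000
  η := 547 / 2000
  A := 26697 / 100000
  C₁ := 518363 / 500000
  C₂ := 1036727 / 1000000
  X := 4097 / 2500
  E := 59333 / 25000
  ρ := 11768 / 3125
  u₁ := 1277501 / 2000000
  u₂ := 6387687 / 10000000
  l := 61713 / 10000
  s := 124211 / 50000
  e₀ := 5910083 / 100000000
  e₁ := 1566009 / 20000000
  e₂ := 1887121 / 100000000
  sγ := 90857 / 100000
  G := 33333 / 100000
  g₂ := 16083 / 25000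
  q := 1187 / 1250
  K := 15623 / 5000
  Y := 1291 / 2000
  ua := 2513 / 5000
  ub := 7653 / 10000
  v := 1
  L := 0
  e := 1519 / 2000
  p := 1881 / 2500
  g := 11197 / 10000
  W₁ := 339479 / 1250000000000
  W₂ := 342883 / 25000000000
  ℓ := 1009 / 500000
  R := 448 / 125
  m := 54763 / 100000
  C := 42339 / 50000
  gG := 77231 / 10000

theorem chkS3_7 : chkS c3_7 (1 / 10) (133 / 50) (20) (392699 / 187500) (3141593 / 1500000)
    [(nr3_7_1, 133 / 50, 384929 / 1000000)] (some (1881 / 5000)) [] = true := by decide +kernel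

theorem slopeV3_7 {b : ℕ} {β r : ℝ} (hb : b = 3) (hβ : 0 < β) (hr : 10 ≤ r) (hT : c3_7.num.T0 ≤ TT b β r)
    (h1 : (133 / 50 : ℝ) ≤ β * r) (h2 : β * r ≤ 20)
    (hv : ∀ z ∈ Icc c3_7.num.qL c3_7.num.qR, ValH b β r (1 / 10) z) : SlopeH b β r (-2 * (b : ℤ) + 2) 2 c3_7.num := by
  subst hb
  refine slopeH_of chkS3_7 (by norm_num) (by norm_num) (by norm_num) hβ hr hT (by push_cast; linarith)
    (by push_cast; linarith) (hh_lower (by norm_num) (by push_cast; norm_num))
    (hh_upper (by norm_num) (by push_cast; norm_num)) (by simpa using hv)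

end Sok.R2
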