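import Pool.Agent.Lib.MP_816dec_an.R2SlQ
import Pool.Agent.Lib.MP_816dec_an.R2Cls

/-!
MP_816dec_an (R2, N2): slopes of the classes `b = 4`: data and kernel tests.
-/

set_option autoImplicit false

open Set

namespace Sok.R2

def nr4_1_1 : NRQ where
  κ₁ := 139 / 100
  κ₂ := 3 / 2
  τ := 179071 / 200000
  τm := 174751 / 250000
  η := 4151 / 10000
  A := 393419 / 1000000
  C₁ := 1082731 / 1000000
  C₂ := 270683 / 250000
  X := 8879 / 10000
  E := 24303 / 20000
  ρ := 133333 / 20000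
  u₁ := 6916791 / 10000000
  u₂ := 6917239 / 10000000
  l := 59193 / 10000
  s := 243297 / 100000
  e₀ := 6633681 / 100000000
  e₁ := 9990921 / 100000000
  e₂ := 2437547 / 50000000
  sγ := 88221 / 100000
  G := 36411 / 100000
  g₂ := 51037 / 100000
  q := 219 / 400
  K := 15001 / 10000
  Y := 2623 / 5000
  ua := 1047 / 1000
  ub := 20123 / 10000
  v := 2
  L := 6933 / 10000
  e := 81 / 100
  p := 3023 / 5000
  g := 1987 / 1250
  W₁ := 1437147 / 2000000000000
  W₂ := 249739 / 2000000000000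
  ℓ := 499 / 1000000
  R := 3621 / 2500
  m := 44983 / 50000
  C := 3819 / 4000
  gG := 27631 / 5000

theorem chkS4_1 : chkS c4_1 (1 / 10) (139 / 100) (3 / 2) (392699 / 250000) (3141593 / 2000000)
    [(nr4_1_1, 3 / 2, 103451 / 500000)] none [36 / 25] = true := by decide +kernel

theorem slopeV4_1 {b : ℕ} {β r : ℝ} (hb : b = 4) (hβ : 0 < β) (hr : 10 ≤ r) (hT : c4_1.num.T0 ≤ TT b β r)
    (h1 : (139 / 100 : ℝ) ≤ β * r) (h2 : β * r ≤ 3 / 2)
    (hv : ∀ z ∈ Icc c4_1.num.qL c4_1.num.qR, ValH b β r (1 / 10) z) : SlopeH b β r (-2 * (b : ℤ) + 2) 2 c4_1.num := by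
  subst hb
  refine slopeH_of chkS4_1 (by norm_num) (by norm_num) (by norm_num) hβ hr hT (by push_cast; linarith)
    (by push_cast; linarith) (hh_lower (by norm_num) (by push_cast; norm_num))
    (hh_upper (by norm_num) (by push_cast; norm_num)) (by simpa using hv)

def nr4_2_1 : NRQ where
  κ₁ := 3 / 2
  κ₂ := 8 / 5
  τ := 112901 / 125000
  τm := 13823 / 20000
  η := 241 / 625
  A := 92003 / 250000
  C₁ := 133971 / 125000
  C₂ := 1071769 / 1000000
  X := 9647 / 10000
  E := 26471 / 20000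
  ρ := 624999 / 100000
  u₁ := 3446681 / 5000000
  u₂ := 430851 / 625000
  l := 60293 / 10000
  s := 245547 / 100000
  e₀ := 1576881 / 25000000
  e₁ := 9292673 / 100000000
  e₂ := 1979159 / 50000000
  sγ := 11097 / 12500
  G := 35731 / 100000
  g₂ := 53561 / 100000
  q := 2791 / 5000
  K := 16001 / 10000
  Y := 2531 / 5000
  ua := 1227 / 1250
  ub := 9017 / 5000
  v := 9 / 5
  L := 5879 / 10000
  e := 8271 / 10000
  p := 1849 / 2500
  g := 1641 / 1000
  W₁ := 392509 / 2500000000000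
  W₂ := 58347 / 781250000000
  ℓ := 107 / 1000000
  R := 16179 / 10000
  m := 84261 / 100000
  C := 91417 / 100000
  gG := 28837 / 5000

theorem chkS4_2 : chkS c4_2 (1 / 10) (3 / 2) (8 / 5) (392699 / 250000) (3141593 / 2000000)
    [(nr4_2_1, 8 / 5, 226637 / 1000000)] (some (923 / 2000)) [] = true := by decide +kernel

theorem slopeV4_2 {b : ℕ} {β r : ℝ} (hb : b = 4) (hβ : 0 < β) (hr : 10 ≤ r) (hT : c4_2.num.T0 ≤ TT b β r)
    (h1 : (3 / 2 : ℝ) ≤ β * r) (h2 : β * r ≤ 8 / 5)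
    (hv : ∀ z ∈ Icc c4_2.num.qL c4_2.num.qR, ValH b β r (1 / 10) z) : SlopeH b β r (-2 * (b : ℤ) + 2) 2 c4_2.num := by
  subst hb
  refine slopeH_of chkS4_2 (by norm_num) (by norm_num) (by norm_num) hβ hr hT (by push_cast; linarith)
    (by push_cast; linarith) (hh_lower (by norm_num) (by push_cast; norm_num))
    (hh_upper (by norm_num) (by push_cast; norm_num)) (by simpa using hv)

def nr4_3_1 : NRQ where
  κ₁ := 8 / 5
  κ₂ := 433 / 250
  τ := 229729 / 250000
  τm := 21353 / 31250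
  η := 3653 / 10000
  A := 350227 / 1000000
  C₁ := 1064633 / 1000000
  C₂ := 532317 / 500000
  X := 10311 / 10000
  E := 141947 / 100000
  ρ := 288683 / 50000
  u₁ := 3430487 / 5000000
  u₂ := 171537 / 250000
  l := 14883 / 2500
  s := 30499 / 12500
  e₀ := 6531407 / 100000000
  e₁ := 2346157 / 25000000
  e₂ := 3702267 / 100000000
  sγ := 89157 / 100000
  G := 8819 / 25000
  g₂ := 55369 / 100000
  q := 2891 / 5000
  K := 17321 / 10000
  Y := 5189 / 10000
  ua := 2267 / 2500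
  ub := 8231 / 5000
  v := 8 / 5
  L := 2351 / 5000
  e := 1639 / 2000
  p := 1649 / 2000
  g := 2043 / 1250
  W₁ := 7247691 / 100000000000000
  W₂ := 3988981 / 50000000000000
  ℓ := 51 / 1000000
  R := 8867 / 5000
  m := 39973 / 50000
  C := 90759 / 100000
  gG := 59727 / 10000

theorem chkS4_3 : chkS c4_3 (1 / 10) (8 / 5) (433 / 250) (392699 / 250000) (3141593 / 2000000)
    [(nr4_3_1, 433 / 250, 254637 / 1000000)] (some (4413 / 10000)) [] = true := by decide +kernel

theorem slopeV4_3 {b : ℕ} {β r : ℝ} (hb : b = 4) (hβ : 0 < β) (hr : 10 ≤ r) (hT : c4_3.num.T0 ≤ TT b β r)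
    (h1 : (8 / 5 : ℝ) ≤ β * r) (h2 : β * r ≤ 433 / 250)
    (hv : ∀ z ∈ Icc c4_3.num.qL c4_3.num.qR, ValH b β r (1 / 10) z) : SlopeH b β r (-2 * (b : ℤ) + 2) 2 c4_3.num := by
  subst hb
  refine slopeH_of chkS4_3 (by norm_num) (by norm_num) (by norm_num) hβ hr hT (by push_cast; linarith)
    (by push_cast; linarith) (hh_lower (by norm_num) (by push_cast; norm_num))
    (hh_upper (by norm_num) (by push_cast; norm_num)) (by simpa using hv)

def nr4_4_1 : NRQ where
  κ₁ := 433 / 250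
  κ₂ := 91 / 50
  τ := 92677 / 100000
  τm := 337721 / 500000
  η := 3339 / 10000
  A := 64451 / 200000
  C₁ := 1054271 / 1000000
  C₂ := 16473 / 15625
  X := 5637 / 5000
  E := 155179 / 100000
  ρ := 549449 / 100000
  u₁ := 6862831 / 10000000
  u₂ := 6863003 / 10000000
  l := 7743 / 1250
  s := 124443 / 50000
  e₀ := 36549 / 625000
  e₁ := 4127383 / 50000000
  e₂ := 2704093 / 100000000
  sγ := 44871 / 50000
  G := 34591 / 100000
  g₂ := 11657 / 20000
  q := 2919 / 5000
  K := 18201 / 10000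
  Y := 4791 / 10000
  ua := 8629 / 10000
  ub := 7271 / 5000
  v := 7 / 5
  L := 1683 / 5000
  e := 341 / 400
  p := 9033 / 10000
  g := 341 / 200
  W₁ := 236951 / 10000000000000
  W₂ := 98451 / 2500000000000
  ℓ := 17 / 1000000
  R := 10029 / 5000
  m := 74441 / 100000
  C := 42781 / 50000
  gG := 62449 / 10000

theorem chkS4_4 : chkS c4_4 (1 / 10) (433 / 250) (91 / 50) (392699 / 250000) (3141593 / 2000000)
    [(nr4_4_1, 91 / 50, 34317 / 125000)] (some (521 / 1250)) [] = true := by decide +kernel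

theorem slopeV4_4 {b : ℕ} {β r : ℝ} (hb : b = 4) (hβ : 0 < β) (hr : 10 ≤ r) (hT : c4_4.num.T0 ≤ TT b β r)
    (h1 : (433 / 250 : ℝ) ≤ β * r) (h2 : β * r ≤ 91 / 50)
    (hv : ∀ z ∈ Icc c4_4.num.qL c4_4.num.qR, ValH b β r (1 / 10) z) : SlopeH b β r (-2 * (b : ℤ) + 2) 2 c4_4.num := by
  subst hb
  refine slopeH_of chkS4_4 (by norm_num) (by norm_num) (by norm_num) hβ hr hT (by push_cast; linarith)
    (by push_cast; linarith) (hh_lower (by norm_num) (by push_cast; norm_num))
    (hh_upper (by norm_num) (by push_cast; norm_num)) (by simpa using hv)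

def nr4_5_1 : NRQ where
  κ₁ := 91 / 50
  κ₂ := 19 / 10
  τ := 92677 / 100000
  τm := 337721 / 500000
  η := 3123 / 10000
  A := 302699 / 1000000
  C₁ := 1047631 / 1000000
  C₂ := 65477 / 62500
  X := 5979 / 5000
  E := 41059 / 25000
  ρ := 531857 / 100000
  u₁ := 6883303 / 10000000
  u₂ := 3441779 / 5000000
  l := 63599 / 10000
  s := 252189 / 100000
  e₀ := 677583 / 12500000
  e₁ := 7547761 / 100000000
  e₂ := 2149271 / 100000000
  sγ := 45071 / 50000
  G := 8533 / 25000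
  g₂ := 60379 / 100000
  q := 737 / 1250
  K := 19001 / 10000
  Y := 579 / 1250
  ua := 4133 / 5000
  ub := 3347 / 2500
  v := 6 / 5
  L := 73 / 400
  e := 8643 / 10000
  p := 583 / 625
  g := 17277 / 10000
  W₁ := 195977 / 12500000000000
  W₂ := 1569153 / 50000000000000
  ℓ := 11 / 1000000
  R := 1361 / 625
  m := 35497 / 50000
  C := 82453 / 100000
  gG := 32123 / 5000

theorem chkS4_5 : chkS c4_5 (1 / 10) (91 / 50) (19 / 10) (392699 / 250000) (3141593 / 2000000)
    [(nr4_5_1, 9401 / 5000, 288697 / 1000000)] (some (4001 / 10000)) [] = true := by decide +kernel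

theorem slopeV4_5 {b : ℕ} {β r : ℝ} (hb : b = 4) (hβ : 0 < β) (hr : 10 ≤ r) (hT : c4_5.num.T0 ≤ TT b β r)
    (h1 : (91 / 50 : ℝ) ≤ β * r) (h2 : β * r ≤ 19 / 10)
    (hv : ∀ z ∈ Icc c4_5.num.qL c4_5.num.qR, ValH b β r (1 / 10) z) : SlopeH b β r (-2 * (b : ℤ) + 2) 2 c4_5.num := by
  subst hb
  refine slopeH_of chkS4_5 (by norm_num) (by norm_num) (by norm_num) hβ hr hT (by push_cast; linarith)
    (by push_cast; linarith) (hh_lower (by norm_num) (by push_cast; norm_num))
    (hh_upper (by norm_num) (by push_cast; norm_num)) (by simpa using hv)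

def nr4_6_1 : NRQ where
  κ₁ := 19 / 10
  κ₂ := 23 / 10
  τ := 29207 / 31250
  τm := 166897 / 250000
  η := 2973 / 10000
  A := 18061 / 62500
  C₁ := 521629 / 500000
  C₂ := 1043259 / 1000000
  X := 12543 / 10000
  E := 172203 / 100000
  ρ := 267519 / 50000
  u₁ := 3443613 / 5000000
  u₂ := 688731 / 1000000
  l := 67109 / 10000
  s := 51811 / 20000
  e₀ := 923029 / 20000000
  e₁ := 25743 / 400000
  e₂ := 1572399 / 100000000
  sγ := 90419 / 100000
  G := 33819 / 100000
  g₂ := 30939 / 50000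
  q := 6399 / 10000
  K := 23001 / 10000
  Y := 1213 / 2000
  ua := 1707 / 2500
  ub := 12439 / 10000
  v := 1
  L := 0
  e := 3743 / 5000
  p := 562 / 625
  g := 7471 / 5000
  W₁ := 3488723 / 50000000000000
  W₂ := 3241701 / 10000000000000
  ℓ := 29 / 500000
  R := 933 / 400
  m := 6831 / 10000
  C := 78981 / 100000
  gG := 32893 / 5000

theorem chkS4_6 : chkS c4_6 (1 / 10) (19 / 10) (23 / 10) (392699 / 250000) (3141593 / 2000000)
    [(nr4_6_1, 19 / 10, 288697 / 1000000)] (some (389 / 1000)) [] = true := by decide +kernel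

theorem slopeV4_6 {b : ℕ} {β r : ℝ} (hb : b = 4) (hβ : 0 < β) (hr : 10 ≤ r) (hT : c4_6.num.T0 ≤ TT b β r)
    (h1 : (19 / 10 : ℝ) ≤ β * r) (h2 : β * r ≤ 23 / 10)
    (hv : ∀ z ∈ Icc c4_6.num.qL c4_6.num.qR, ValH b β r (1 / 10) z) : SlopeH b β r (-2 * (b : ℤ) + 2) 2 c4_6.num := by
  subst hb
  refine slopeH_of chkS4_6 (by norm_num) (by norm_num) (by norm_num) hβ hr hT (by push_cast; linarith)
    (by push_cast; linarith) (hh_lower (by norm_num) (by push_cast; norm_num))
    (hh_upper (by norm_num) (by push_cast; norm_num)) (by simpa using hv)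

def nr4_7_1 : NRQ where
  κ₁ := 23 / 10
  κ₂ := 20
  τ := 29207 / 31250
  τm := 166897 / 250000
  η := 2211 / 10000
  A := 217599 / 1000000
  C₁ := 20483 / 20000
  C₂ := 1024151 / 1000000
  X := 7913 / 5000
  E := 213637 / 100000
  ρ := 30153 / 5000
  u₁ := 3523463 / 5000000
  u₂ := 7047487 / 10000000
  l := 1193 / 125
  s := 154467 / 50000
  e₀ := 629829 / 50000000
  e₁ := 895287 / 50000000
  e₂ := 1245471 / 1000000000
  sγ := 91813 / 100000
  G := 16151 / 50000
  g₂ := 35039 / 50000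
  q := 9431 / 10000
  K := 13357 / 5000
  Y := 5237 / 10000
  ua := 5879 / 10000
  ub := 1689 / 2000
  v := 1
  L := 0
  e := 7997 / 10000
  p := 83 / 100
  g := 12573 / 10000
  W₁ := 8361877 / 100000000000000
  W₂ := 866077 / 250000000000
  ℓ := 511 / 1000000
  R := 32919 / 10000
  m := 56447 / 100000
  C := 64937 / 100000
  gG := 36637 / 5000

theorem chkS4_7 : chkS c4_7 (1 / 10) (23 / 10) (20) (392699 / 250000) (3141593 / 2000000)
    [(nr4_7_1, 23 / 10, 288697 / 1000000)] (some (3313 / 10000)) [] = true := by decide +kernel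

theorem slopeV4_7 {b : ℕ} {β r : ℝ} (hb : b = 4) (hβ : 0 < β) (hr : 10 ≤ r) (hT : c4_7.num.T0 ≤ TT b β r)
    (h1 : (23 / 10 : ℝ) ≤ β * r) (h2 : β * r ≤ 20)
    (hv : ∀ z ∈ Icc c4_7.num.qL c4_7.num.qR, ValH b β r (1 / 10) z) : SlopeH b β r (-2 * (b : ℤ) + 2) 2 c4_7.num := by
  subst hb
  refine slopeH_of chkS4_7 (by norm_num) (by norm_num) (by norm_num) hβ hr hT (by push_cast; linarith)
    (by push_cast; linarith) (hh_lower (by norm_num) (by push_cast; norm_num))
    (hh_upper (by norm_num) (by push_cast; norm_num)) (by simpa using hv)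

end Sok.R2
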