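import Pool.Agent.Lib.MP_816dec_an.R2SlQ
import Pool.Agent.Lib.MP_816dec_an.R2Cls

/-!
MP_816dec_an (R2, N2): slopes of the classes `b = 5, 6, 7, >= 8`: data and kernel tests.
-/

set_option autoImplicit false

open Set

namespace Sok.R2

def nr5_1_1 : NRQ where
  κ₁ := 139 / 100
  κ₂ := 71 / 50
  τ := 14577 / 20000
  τm := 282743 / 500000
  η := 1599 / 5000
  A := 309517 / 1000000
  C₁ := 1049891 / 1000000
  C₂ := 262473 / 250000
  X := 4853 / 5000
  E := 127187 / 100000
  ρ := 181703 / 25000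
  u₁ := 7331411 / 10000000
  u₂ := 916443 / 1250000
  l := 4409 / 625
  s := 132801 / 50000
  e₀ := 1971429 / 50000000
  e₁ := 5742561 / 100000000
  e₂ := 744159 / 50000000
  sγ := 90003 / 100000
  G := 3429 / 10000
  g₂ := 14911 / 25000
  q := 1027 / 2000
  K := 14201 / 10000
  Y := 3807 / 10000
  ua := 553 / 500
  ub := 4709 / 2500
  v := 9 / 5
  L := 5879 / 10000
  e := 2239 / 2500
  p := 3443 / 5000
  g := 17689 / 10000
  W₁ := 658989 / 5000000000000
  W₂ := 2078577 / 100000000000000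
  ℓ := 71 / 1000000
  R := 15827 / 10000
  m := 41727 / 50000
  C := 77149 / 100000
  gG := 56537 / 10000

theorem chkS5_1 : chkS c5_1 (1 / 10) (139 / 100) (71 / 50) (392699 / 312500) (3141593 / 2500000)
    [(nr5_1_1, 139 / 100, 115479 / 500000)] (some (4037 / 10000)) [] = true := by decide +kernel

theorem slopeV5_1 {b : ℕ} {β r : ℝ} (hb : b = 5) (hβ : 0 < β) (hr : 10 ≤ r) (hT : c5_1.num.T0 ≤ TT b β r)
    (h1 : (139 / 100 : ℝ) ≤ β * r) (h2 : β * r ≤ 71 / 50)
    (hv : ∀ z ∈ Icc c5_1.num.qL c5_1.num.qR, ValH b β r (1 / 10) z) : SlopeH b β r (-2 * (b : ℤ) + 2) 2 c5_1.num := by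
  subst hb
  refine slopeH_of chkS5_1 (by norm_num) (by norm_num) (by norm_num) hβ hr hT (by push_cast; linarith)
    (by push_cast; linarith) (hh_lower (by norm_num) (by push_cast; norm_num))
    (hh_upper (by norm_num) (by push_cast; norm_num)) (by simpa using hv)

def nr5_2_1 : NRQ where
  κ₁ := 71 / 50
  κ₂ := 37 / 25
  τ := 14577 / 20000
  τm := 282743 / 500000
  η := 3123 / 10000
  A := 302699 / 1000000
  C₁ := 1047631 / 1000000
  C₂ := 65477 / 62500
  X := 9937 / 10000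
  E := 130207 / 100000
  ρ := 91489 / 12500
  u₁ := 3665853 / 5000000
  u₂ := 7332023 / 10000000
  l := 7273 / 1000
  s := 134843 / 50000
  e₀ := 1783481 / 50000000
  e₁ := 2604203 / 50000000
  e₂ := 619193 / 50000000
  sγ := 45071 / 50000
  G := 8533 / 25000
  g₂ := 60379 / 100000
  q := 209 / 400
  K := 14801 / 10000
  Y := 1993 / 5000
  ua := 2653 / 2500
  ub := 911 / 500
  v := 9 / 5
  L := 5879 / 10000
  e := 8797 / 10000
  p := 1821 / 2500
  g := 17423 / 10000
  W₁ := 259449 / 2500000000000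
  W₂ := 338999 / 12500000000000
  ℓ := 29 / 500000
  R := 16341 / 10000
  m := 40977 / 50000
  C := 37741 / 50000
  gG := 14301 / 2500

theorem chkS5_2 : chkS c5_2 (1 / 10) (71 / 50) (37 / 25) (392699 / 312500) (3141593 / 2500000)
    [(nr5_2_1, 71 / 50, 115479 / 500000)] (some (1983 / 5000)) [] = true := by decide +kernel

theorem slopeV5_2 {b : ℕ} {β r : ℝ} (hb : b = 5) (hβ : 0 < β) (hr : 10 ≤ r) (hT : c5_2.num.T0 ≤ TT b β r)
    (h1 : (71 / 50 : ℝ) ≤ β * r) (h2 : β * r ≤ 37 / 25)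
    (hv : ∀ z ∈ Icc c5_2.num.qL c5_2.num.qR, ValH b β r (1 / 10) z) : SlopeH b β r (-2 * (b : ℤ) + 2) 2 c5_2.num := by
  subst hb
  refine slopeH_of chkS5_2 (by norm_num) (by norm_num) (by norm_num) hβ hr hT (by push_cast; linarith)
    (by push_cast; linarith) (hh_lower (by norm_num) (by push_cast; norm_num))
    (hh_upper (by norm_num) (by push_cast; norm_num)) (by simpa using hv)

def nr5_3_1 : NRQ where
  κ₁ := 37 / 25
  κ₂ := 79 / 50
  τ := 14577 / 20000
  τm := 282743 / 500000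
  η := 1489 / 5000
  A := 57887 / 200000
  C₁ := 5217 / 5000
  C₂ := 1043401 / 1000000
  X := 2601 / 2500
  E := 68137 / 50000
  ρ := 185687 / 25000
  u₁ := 183383 / 250000
  u₂ := 73357 / 100000
  l := 3091 / 400
  s := 8687 / 3125
  e₀ := 2896207 / 100000000
  e₁ := 4250103 / 100000000
  e₂ := 8415507 / 1000000000
  sγ := 9041 / 10000
  G := 33829 / 100000
  g₂ := 61827 / 100000
  q := 5357 / 10000
  K := 15801 / 10000
  Y := 209 / 500
  ua := 497 / 500
  ub := 17063 / 10000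
  v := 9 / 5
  L := 5879 / 10000
  e := 539 / 625
  p := 3959 / 5000
  g := 8577 / 5000
  W₁ := 6544879 / 100000000000000
  W₂ := 3549061 / 100000000000000
  ℓ := 39 / 1000000
  R := 17403 / 10000
  m := 39547 / 50000
  C := 18131 / 25000
  gG := 29261 / 5000

theorem chkS5_3 : chkS c5_3 (1 / 10) (37 / 25) (79 / 50) (392699 / 312500) (3141593 / 2500000)
    [(nr5_3_1, 37 / 25, 115479 / 500000)] (some (3833 / 10000)) [] = true := by decide +kernel

theorem slopeV5_3 {b : ℕ} {β r : ℝ} (hb : b = 5) (hβ : 0 < β) (hr : 10 ≤ r) (hT : c5_3.num.T0 ≤ TT b β r)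
    (h1 : (37 / 25 : ℝ) ≤ β * r) (h2 : β * r ≤ 79 / 50)
    (hv : ∀ z ∈ Icc c5_3.num.qL c5_3.num.qR, ValH b β r (1 / 10) z) : SlopeH b β r (-2 * (b : ℤ) + 2) 2 c5_3.num := by
  subst hb
  refine slopeH_of chkS5_3 (by norm_num) (by norm_num) (by norm_num) hβ hr hT (by push_cast; linarith)
    (by push_cast; linarith) (hh_lower (by norm_num) (by push_cast; norm_num))
    (hh_upper (by norm_num) (by push_cast; norm_num)) (by simpa using hv)

def nr5_4_1 : NRQ where
  κ₁ := 79 / 50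
  κ₂ := 433 / 250
  τ := 92677 / 125000
  τm := 540353 / 1000000
  η := 2811 / 10000
  A := 274027 / 1000000
  C₁ := 1038757 / 1000000
  C₂ := 519379 / 500000
  X := 89 / 80
  E := 3651 / 2500
  ρ := 762469 / 100000
  u₁ := 7314307 / 10000000
  u₂ := 457157 / 625000
  l := 10603 / 1250
  s := 145623 / 50000
  e₀ := 2049111 / 100000000
  e₁ := 1524489 / 50000000
  e₂ := 91281 / 20000000
  sγ := 90717 / 100000
  G := 33487 / 100000
  g₂ := 31769 / 50000
  q := 5599 / 10000
  K := 17321 / 10000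
  Y := 4429 / 10000
  ua := 2267 / 2500
  ub := 963 / 625
  v := 8 / 5
  L := 2351 / 5000
  e := 8431 / 10000
  p := 8731 / 10000
  g := 8419 / 5000
  W₁ := 1760391 / 50000000000000
  W₂ := 4867999 / 100000000000000
  ℓ := 11 / 500000
  R := 19143 / 10000
  m := 37539 / 50000
  C := 2158 / 3125
  gG := 30291 / 5000

theorem chkS5_4 : chkS c5_4 (1 / 10) (79 / 50) (433 / 250) (392699 / 312500) (3141593 / 2500000)
    [(nr5_4_1, 79 / 50, 115479 / 500000)] (some (3739 / 10000)) [] = true := by decide +kernel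

theorem slopeV5_4 {b : ℕ} {β r : ℝ} (hb : b = 5) (hβ : 0 < β) (hr : 10 ≤ r) (hT : c5_4.num.T0 ≤ TT b β r)
    (h1 : (79 / 50 : ℝ) ≤ β * r) (h2 : β * r ≤ 433 / 250)
    (hv : ∀ z ∈ Icc c5_4.num.qL c5_4.num.qR, ValH b β r (1 / 10) z) : SlopeH b β r (-2 * (b : ℤ) + 2) 2 c5_4.num := by
  subst hb
  refine slopeH_of chkS5_4 (by norm_num) (by norm_num) (by norm_num) hβ hr hT (by push_cast; linarith)
    (by push_cast; linarith) (hh_lower (by norm_num) (by push_cast; norm_num))
    (hh_upper (by norm_num) (by push_cast; norm_num)) (by simpa using hv)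

def nr5_5_1 : NRQ where
  κ₁ := 433 / 250
  κ₂ := 2
  τ := 735133 / 1000000
  τm := 546637 / 1000000
  η := 617 / 2500
  A := 60491 / 250000
  C₁ := 257501 / 250000
  C₂ := 206001 / 200000
  X := 6193 / 5000
  E := 80861 / 50000
  ρ := 795703 / 100000
  u₁ := 1841443 / 2500000
  u₂ := 7366167 / 10000000
  l := 19711 / 2000
  s := 62787 / 20000
  e₀ := 34127 / 3125000
  e₁ := 1637971 / 100000000
  e₂ := 1329579 / 1000000000
  sγ := 18269 / 20000
  G := 32801 / 100000
  g₂ := 84 / 125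
  q := 5867 / 10000
  K := 20001 / 10000
  Y := 2397 / 5000
  ua := 7853 / 10000
  ub := 1311 / 1000
  v := 6 / 5
  L := 73 / 400
  e := 1617 / 2000
  p := 2283 / 2500
  g := 16167 / 10000
  W₁ := 208273 / 6250000000000
  W₂ := 9522743 / 100000000000000
  ℓ := 23 / 1000000
  R := 22291 / 10000
  m := 68989 / 100000
  C := 64883 / 100000
  gG := 7969 / 1250

theorem chkS5_5 : chkS c5_5 (1 / 10) (433 / 250) (2) (392699 / 312500) (3141593 / 2500000)
    [(nr5_5_1, 433 / 250, 115479 / 500000)] (some (859 / 2500)) [] = true := by decide +kernel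

theorem slopeV5_5 {b : ℕ} {β r : ℝ} (hb : b = 5) (hβ : 0 < β) (hr : 10 ≤ r) (hT : c5_5.num.T0 ≤ TT b β r)
    (h1 : (433 / 250 : ℝ) ≤ β * r) (h2 : β * r ≤ 2)
    (hv : ∀ z ∈ Icc c5_5.num.qL c5_5.num.qR, ValH b β r (1 / 10) z) : SlopeH b β r (-2 * (b : ℤ) + 2) 2 c5_5.num := by
  subst hb
  refine slopeH_of chkS5_5 (by norm_num) (by norm_num) (by norm_num) hβ hr hT (by push_cast; linarith)
    (by push_cast; linarith) (hh_lower (by norm_num) (by push_cast; norm_num))
    (hh_upper (by norm_num) (by push_cast; norm_num)) (by simpa using hv)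

def nr5_6_1 : NRQ where
  κ₁ := 2
  κ₂ := 20
  τ := 735133 / 1000000
  τm := 540353 / 1000000
  η := 401 / 2000
  A := 49469 / 250000
  C₁ := 509951 / 500000
  C₂ := 1019903 / 1000000
  X := 117 / 80
  E := 37827 / 20000
  ρ := 861387 / 100000
  u₁ := 7458149 / 10000000
  u₂ := 932311 / 1250000
  l := 125977 / 10000
  s := 354933 / 100000
  e₀ := 3107479 / 1000000000
  e₁ := 1183517 / 250000000
  e₂ := 1084007 / 10000000000
  sγ := 46093 / 50000
  G := 3989 / 12500
  g₂ := 72471 / 100000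
  q := 4701 / 5000
  K := 12111 / 5000
  Y := 5047 / 10000
  ua := 1621 / 2500
  ub := 4983 / 5000
  v := 1
  L := 0
  e := 488 / 625
  p := 4381 / 5000
  g := 3327 / 2500
  W₁ := 1272833 / 20000000000000
  W₂ := 415289 / 250000000000
  ℓ := 123 / 500000
  R := 28551 / 10000
  m := 1509 / 2500
  C := 15361 / 25000
  gG := 4309 / 625

theorem chkS5_6 : chkS c5_6 (1 / 10) (2) (20) (392699 / 312500) (3141593 / 2500000)
    [(nr5_6_1, 2, 115479 / 500000)] (some (1531 / 5000)) [] = true := by decide +kernel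

theorem slopeV5_6 {b : ℕ} {β r : ℝ} (hb : b = 5) (hβ : 0 < β) (hr : 10 ≤ r) (hT : c5_6.num.T0 ≤ TT b β r)
    (h1 : (2 : ℝ) ≤ β * r) (h2 : β * r ≤ 20)
    (hv : ∀ z ∈ Icc c5_6.num.qL c5_6.num.qR, ValH b β r (1 / 10) z) : SlopeH b β r (-2 * (b : ℤ) + 2) 2 c5_6.num := by
  subst hb
  refine slopeH_of chkS5_6 (by norm_num) (by norm_num) (by norm_num) hβ hr hT (by push_cast; linarith)
    (by push_cast; linarith) (hh_lower (by norm_num) (by push_cast; norm_num))
    (hh_upper (by norm_num) (by push_cast; norm_num)) (by simpa using hv)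

def nr6_1_1 : NRQ where
  κ₁ := 139 / 100
  κ₂ := 31 / 20
  τ := 4859 / 8000
  τm := 45553 / 100000
  η := 1281 / 5000
  A := 62701 / 250000
  C₁ := 1032297 / 1000000
  C₂ := 516149 / 500000
  X := 10333 / 10000
  E := 32671 / 25000
  ρ := 104661 / 10000
  u₁ := 7673883 / 10000000
  u₂ := 59954 / 78125
  l := 54073 / 5000
  s := 41107 / 12500
  e₀ := 7036183 / 1000000000
  e₁ := 558287 / 50000000
  e₂ := 1949121 / 2500000000
  sγ := 91173 / 100000
  G := 32987 / 100000
  g₂ := 2068 / 3125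
  q := 2629 / 5000
  K := 15501 / 10000
  Y := 4057 / 10000
  ua := 2533 / 2500
  ub := 883 / 500
  v := 9 / 5
  L := 5879 / 10000
  e := 843 / 1000
  p := 761 / 1000
  g := 1044 / 625
  W₁ := 108123 / 1000000000000
  W₂ := 1113207 / 20000000000000
  ℓ := 61 / 1000000
  R := 27 / 16
  m := 79467 / 100000
  C := 63889 / 100000
  gG := 57309 / 10000

theorem chkS6_1 : chkS c6_1 (1 / 10) (139 / 100) (31 / 20) (392699 / 375000) (3141593 / 3000000)
    [(nr6_1_1, 139 / 100, 38493 / 200000)] (some (3547 / 10000)) [] = true := by decide +kernel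

theorem slopeV6_1 {b : ℕ} {β r : ℝ} (hb : b = 6) (hβ : 0 < β) (hr : 10 ≤ r) (hT : c6_1.num.T0 ≤ TT b β r)
    (h1 : (139 / 100 : ℝ) ≤ β * r) (h2 : β * r ≤ 31 / 20)
    (hv : ∀ z ∈ Icc c6_1.num.qL c6_1.num.qR, ValH b β r (1 / 10) z) : SlopeH b β r (-2 * (b : ℤ) + 2) 2 c6_1.num := by
  subst hb
  refine slopeH_of chkS6_1 (by norm_num) (by norm_num) (by norm_num) hβ hr hT (by push_cast; linarith)
    (by push_cast; linarith) (hh_lower (by norm_num) (by push_cast; norm_num))
    (hh_upper (by norm_num) (by push_cast; norm_num)) (by simpa using hv)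

def nr6_2_1 : NRQ where
  κ₁ := 31 / 20
  κ₂ := 433 / 250
  τ := 4859 / 8000
  τm := 45553 / 100000
  η := 9 / 40
  A := 110657 / 500000
  C₁ := 41 / 40
  C₂ := 41 / 40
  X := 5819 / 5000
  E := 73427 / 50000
  ρ := 1089149 / 100000
  u₁ := 3848001 / 5000000
  u₂ := 3848109 / 5000000
  l := 25351 / 2000
  s := 356027 / 100000
  e₀ := 93707 / 31250000
  e₁ := 4823427 / 1000000000
  e₂ := 733989 / 5000000000
  sγ := 45871 / 50000
  G := 32377 / 100000
  g₂ := 34817 / 50000
  q := 5451 / 10000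
  K := 17321 / 10000
  Y := 1989 / 5000
  ua := 2267 / 2500
  ub := 14781 / 10000
  v := 7 / 5
  L := 1683 / 5000
  e := 4239 / 5000
  p := 449 / 500
  g := 2117 / 1250
  W₁ := 1309357 / 50000000000000
  W₂ := 2206783 / 50000000000000
  ℓ := 1 / 62500
  R := 19977 / 10000
  m := 72521 / 100000
  C := 15471 / 25000
  gG := 60751 / 10000

theorem chkS6_2 : chkS c6_2 (1 / 10) (31 / 20) (433 / 250) (392699 / 375000) (3141593 / 3000000)
    [(nr6_2_1, 31 / 20, 38493 / 200000)] (some (1617 / 5000)) [] = true := by decide +kernel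

theorem slopeV6_2 {b : ℕ} {β r : ℝ} (hb : b = 6) (hβ : 0 < β) (hr : 10 ≤ r) (hT : c6_2.num.T0 ≤ TT b β r)
    (h1 : (31 / 20 : ℝ) ≤ β * r) (h2 : β * r ≤ 433 / 250)
    (hv : ∀ z ∈ Icc c6_2.num.qL c6_2.num.qR, ValH b β r (1 / 10) z) : SlopeH b β r (-2 * (b : ℤ) + 2) 2 c6_2.num := by
  subst hb
  refine slopeH_of chkS6_2 (by norm_num) (by norm_num) (by norm_num) hβ hr hT (by push_cast; linarith)
    (by push_cast; linarith) (hh_lower (by norm_num) (by push_cast; norm_num))
    (hh_upper (by norm_num) (by push_cast; norm_num)) (by simpa using hv)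

def nr6_3_1 : NRQ where
  κ₁ := 433 / 250
  κ₂ := 20
  τ := 612611 / 1000000
  τm := 225147 / 500000
  η := 491 / 2500
  A := 193931 / 1000000
  C₁ := 1019103 / 1000000
  C₂ := 31847 / 31250
  X := 13131 / 10000
  E := 165173 / 100000
  ρ := 1145813 / 100000
  u₁ := 7726463 / 10000000
  u₂ := 1931693 / 2500000
  l := 18807 / 1250
  s := 387887 / 100000
  e₀ := 1011929 / 1000000000
  e₁ := 165591 / 100000000
  e₂ := 53417 / 3125000000
  sγ := 4613 / 5000
  G := 6367 / 20000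
  g₂ := 72957 / 100000
  q := 939 / 1000
  K := 5677 / 2500
  Y := 5479 / 10000
  ua := 1729 / 2500
  ub := 12181 / 10000
  v := 1
  L := 0
  e := 7273 / 10000
  p := 9047 / 10000
  g := 3409 / 2500
  W₁ := 8171749 / 100000000000000
  W₂ := 239327 / 200000000000
  ℓ := 177 / 1000000
  R := 23877 / 10000
  m := 65953 / 100000
  C := 60697 / 100000
  gG := 64429 / 10000

theorem chkS6_3 : chkS c6_3 (1 / 10) (433 / 250) (20) (392699 / 375000) (3141593 / 3000000)
    [(nr6_3_1, 433 / 250, 38493 / 200000)] (some (1481 / 5000)) [] = true := by decide +kernel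

theorem slopeV6_3 {b : ℕ} {β r : ℝ} (hb : b = 6) (hβ : 0 < β) (hr : 10 ≤ r) (hT : c6_3.num.T0 ≤ TT b β r)
    (h1 : (433 / 250 : ℝ) ≤ β * r) (h2 : β * r ≤ 20)
    (hv : ∀ z ∈ Icc c6_3.num.qL c6_3.num.qR, ValH b β r (1 / 10) z) : SlopeH b β r (-2 * (b : ℤ) + 2) 2 c6_3.num := by
  subst hb
  refine slopeH_of chkS6_3 (by norm_num) (by norm_num) (by norm_num) hβ hr hT (by push_cast; linarith)
    (by push_cast; linarith) (hh_lower (by norm_num) (by push_cast; norm_num))
    (hh_upper (by norm_num) (by push_cast; norm_num)) (by simpa using hv)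

def nr7_1_1 : NRQ where
  κ₁ := 139 / 100
  κ₂ := 433 / 250
  τ := 520607 / 1000000
  τm := 78091 / 200000
  η := 427 / 2000
  A := 210341 / 1000000
  C₁ := 1022537 / 1000000
  C₂ := 511269 / 500000
  X := 2159 / 2000
  E := 132829 / 100000
  ρ := 1424553 / 100000
  u₁ := 7941197 / 10000000
  u₂ := 124087 / 156250
  l := 7689 / 500
  s := 98037 / 25000
  e₀ := 8689301 / 10000000000
  e₁ := 1501867 / 1000000000
  e₂ := 912819 / 50000000000
  sγ := 91951 / 100000
  G := 32157 / 100000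
  g₂ := 8869 / 12500
  q := 5473 / 10000
  K := 17321 / 10000
  Y := 473 / 1000
  ua := 2267 / 2500
  ub := 16853 / 10000
  v := 8 / 5
  L := 2351 / 5000
  e := 1917 / 2500
  p := 8029 / 10000
  g := 7609 / 5000
  W₁ := 304727 / 2000000000000
  W₂ := 491969 / 2000000000000
  ℓ := 97 / 1000000
  R := 1767 / 1000
  m := 19231 / 25000
  C := 30487 / 50000
  gG := 57777 / 10000

theorem chkS7_1 : chkS c7_1 (1 / 10) (139 / 100) (433 / 250) (392699 / 437500) (448799 / 500000)
    [(nr7_1_1, 139 / 100, 16497 / 100000)] (some (3111 / 10000)) [] = true := by decide +kernel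

theorem slopeV7_1 {b : ℕ} {β r : ℝ} (hb : b = 7) (hβ : 0 < β) (hr : 10 ≤ r) (hT : c7_1.num.T0 ≤ TT b β r)
    (h1 : (139 / 100 : ℝ) ≤ β * r) (h2 : β * r ≤ 433 / 250)
    (hv : ∀ z ∈ Icc c7_1.num.qL c7_1.num.qR, ValH b β r (1 / 10) z) : SlopeH b β r (-2 * (b : ℤ) + 2) 2 c7_1.num := by
  subst hb
  refine slopeH_of chkS7_1 (by norm_num) (by norm_num) (by norm_num) hβ hr hT (by push_cast; linarith)
    (by push_cast; linarith) (hh_lower (by norm_num) (by push_cast; norm_num))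
    (hh_upper (by norm_num) (by push_cast; norm_num)) (by simpa using hv)

def nr7_2_1 : NRQ where
  κ₁ := 433 / 250
  κ₂ := 20
  τ := 516119 / 1000000
  τm := 78091 / 200000
  η := 319 / 2000
  A := 158167 / 1000000
  C₁ := 6329 / 6250
  C₂ := 1012641 / 1000000
  X := 6869 / 5000
  E := 83741 / 50000
  ρ := 77979 / 5000
  u₁ := 1003993 / 1250000
  u₂ := 2008059 / 2500000
  l := 42851 / 2000
  s := 462877 / 100000
  e₀ := 2717629 / 50000000000
  e₁ := 9606769 / 100000000000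
  e₂ := 6189019 / 100000000000000
  sγ := 23231 / 25000
  G := 31157 / 100000
  g₂ := 19367 / 25000
  q := 2341 / 2500
  K := 2689 / 1250
  Y := 2243 / 5000
  ua := 7301 / 10000
  ub := 1149 / 1000
  v := 1
  L := 0
  e := 1557 / 2000
  p := 927 / 1000
  g := 14537 / 10000
  W₁ := 3918399 / 100000000000000
  W₂ := 4860289 / 10000000000000
  ℓ := 73 / 1000000
  R := 1577 / 625
  m := 51 / 80
  C := 59677 / 100000
  gG := 32439 / 5000

theorem chkS7_2 : chkS c7_2 (1 / 10) (433 / 250) (20) (392699 / 437500) (448799 / 500000)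
    [(nr7_2_1, 433 / 250, 16497 / 100000)] (some (2569 / 10000)) [] = true := by decide +kernel

theorem slopeV7_2 {b : ℕ} {β r : ℝ} (hb : b = 7) (hβ : 0 < β) (hr : 10 ≤ r) (hT : c7_2.num.T0 ≤ TT b β r)
    (h1 : (433 / 250 : ℝ) ≤ β * r) (h2 : β * r ≤ 20)
    (hv : ∀ z ∈ Icc c7_2.num.qL c7_2.num.qR, ValH b β r (1 / 10) z) : SlopeH b β r (-2 * (b : ℤ) + 2) 2 c7_2.num := by
  subst hb
  refine slopeH_of chkS7_2 (by norm_num) (by norm_num) (by norm_num) hβ hr hT (by push_cast; linarith)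
    (by push_cast; linarith) (hh_lower (by norm_num) (by push_cast; norm_num))
    (hh_upper (by norm_num) (by push_cast; norm_num)) (by simpa using hv)

def nr8_1_1 : NRQ where
  κ₁ := 139 / 100
  κ₂ := 433 / 250
  τ := 112901 / 250000
  τm := 0
  η := 181 / 1000
  A := 179061 / 1000000
  C₁ := 127031 / 125000
  C₂ := 1016249 / 1000000
  X := 11173 / 10000
  E := 5373 / 4000
  ρ := 1860641 / 100000
  u₁ := 1633769 / 2000000
  u₂ := 8169051 / 10000000
  l := 207889 / 10000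
  s := 455949 / 100000
  e₀ := 1819183 / 25000000000
  e₁ := 10899 / 80000000
  e₂ := 440451 / 2500000000000
  sγ := 46269 / 50000
  G := 31549 / 100000
  g₂ := 9351 / 12500
  q := 589 / 1000
  K := 17321 / 10000
  Y := 2193 / 5000
  ua := 2267 / 2500
  ub := 16239 / 10000
  v := 8 / 5
  L := 2351 / 5000
  e := 1551 / 2000
  p := 8359 / 10000
  g := 7703 / 5000
  W₁ := 251027 / 2500000000000
  W₂ := 254783 / 1250000000000
  ℓ := 61 / 1000000
  R := 18337 / 10000
  m := 9381 / 12500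
  C := 15019 / 25000
  gG := 29051 / 5000

theorem chkS8_1 : chkS c8_1 (1 / 10) (139 / 100) (433 / 250) (0) (3141593 / 4000000)
    [(nr8_1_1, 139 / 100, 144349 / 1000000)] (some (11 / 40)) [] = true := by decide +kernel

theorem slopeV8_1 {b : ℕ} {β r : ℝ} (hb : 8 ≤ b) (hβ : 0 < β) (hr : 10 ≤ r) (hT : c8_1.num.T0 ≤ TT b β r)
    (h1 : (139 / 100 : ℝ) ≤ β * r) (h2 : β * r ≤ 433 / 250)
    (hv : ∀ z ∈ Icc c8_1.num.qL c8_1.num.qR, ValH b β r (1 / 10) z) : SlopeH b β r (-2 * (b : ℤ) + 2) 2 c8_1.num := by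
  have hb8 : (8 : ℝ) ≤ b := by exact_mod_cast hb
  refine slopeH_of chkS8_1 (by omega) (by omega) (by push_cast; omega) hβ hr hT (by push_cast; linarith)
    (by push_cast; linarith) (by push_cast; exact (hh_pos' (by omega)).le)
    (hh_upper (by omega) (by push_cast; linarith)) (by simpa using hv)

def nr8_2_1 : NRQ where
  κ₁ := 433 / 250
  κ₂ := 20
  τ := 223839 / 500000
  τm := 0
  η := 1347 / 10000
  A := 66947 / 500000
  C₁ := 1009031 / 1000000
  C₂ := 126129 / 125000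
  X := 709 / 500
  E := 42221 / 25000
  ρ := 1018501 / 50000
  u₁ := 4130533 / 5000000
  u₂ := 8261279 / 10000000
  l := 144423 / 5000
  s := 134361 / 25000
  e₀ := 1780223 / 1000000000000
  e₁ := 1702419 / 500000000000
  e₂ := 7650273 / 100000000000000000
  sγ := 11671 / 12500
  G := 6143 / 20000
  g₂ := 20161 / 25000
  q := 9357 / 10000
  K := 20677 / 10000
  Y := 3773 / 10000
  ua := 1899 / 2500
  ub := 688 / 625
  v := 1
  L := 0
  e := 8167 / 10000
  p := 9421 / 10000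
  g := 15199 / 10000
  W₁ := 2299481 / 100000000000000
  W₂ := 2507029 / 10000000000000
  ℓ := 19 / 500000
  R := 13129 / 5000
  m := 6227 / 10000
  C := 59211 / 100000
  gG := 65149 / 10000

theorem chkS8_2 : chkS c8_2 (1 / 10) (433 / 250) (20) (0) (3141593 / 4000000)
    [(nr8_2_1, 433 / 250, 144349 / 1000000)] (some (2263 / 10000)) [] = true := by decide +kernel

theorem slopeV8_2 {b : ℕ} {β r : ℝ} (hb : 8 ≤ b) (hβ : 0 < β) (hr : 10 ≤ r) (hT : c8_2.num.T0 ≤ TT b β r)
    (h1 : (433 / 250 : ℝ) ≤ β * r) (h2 : β * r ≤ 20)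
    (hv : ∀ z ∈ Icc c8_2.num.qL c8_2.num.qR, ValH b β r (1 / 10) z) : SlopeH b β r (-2 * (b : ℤ) + 2) 2 c8_2.num := by
  have hb8 : (8 : ℝ) ≤ b := by exact_mod_cast hb
  refine slopeH_of chkS8_2 (by omega) (by omega) (by push_cast; omega) hβ hr hT (by push_cast; linarith)
    (by push_cast; linarith) (by push_cast; exact (hh_pos' (by omega)).le)
    (hh_upper (by omega) (by push_cast; linarith)) (by simpa using hv)

end Sok.R2
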