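import Pool.Agent.Lib.MP_816dec_an.R2Val0

/-!
MP_816dec_an (row R2): the value of the right main window, part C
-/

set_option autoImplicit false

open Complex Set Filter Topology

namespace Sok.R2

open Sok.Mid Sok.N1

theorem val4_1 {b : ℕ} {β r : ℝ} (hb : b = 4) (hβ : 0 < β) (hr : 10 ≤ r) (hT : c4_1.num.T0 ≤ TT b β r)
    (h1 : (139 / 100 : ℝ) ≤ β * r) (_h2 : β * r ≤ 3 / 2) : ∀ z ∈ Icc c4_1.num.qL c4_1.num.qR, ValH b β r (1 / 10) z := by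
  intro z hz
  exact val_b3 (n := 4) (by norm_num) (by omega) hβ hr (le_trans (by norm_num [c4_1, NumQ.num]) hT) (by norm_num at h1 ⊢; linarith)
    (by norm_num [c4_1, NumQ.num] at hz ⊢; linarith [hz.1]) (by norm_num [c4_1, NumQ.num] at hz ⊢; linarith [hz.2])

theorem val4_2 {b : ℕ} {β r : ℝ} (hb : b = 4) (hβ : 0 < β) (hr : 10 ≤ r) (hT : c4_2.num.T0 ≤ TT b β r)
    (h1 : (3 / 2 : ℝ) ≤ β * r) (_h2 : β * r ≤ 8 / 5) : ∀ z ∈ Icc c4_2.num.qL c4_2.num.qR, ValH b β r (1 / 10) z := by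
  intro z hz
  exact val_b3 (n := 4) (by norm_num) (by omega) hβ hr (le_trans (by norm_num [c4_2, NumQ.num]) hT) (by norm_num at h1 ⊢; linarith)
    (by norm_num [c4_2, NumQ.num] at hz ⊢; linarith [hz.1]) (by norm_num [c4_2, NumQ.num] at hz ⊢; linarith [hz.2])

theorem val4_3 {b : ℕ} {β r : ℝ} (hb : b = 4) (hβ : 0 < β) (hr : 10 ≤ r) (hT : c4_3.num.T0 ≤ TT b β r)
    (h1 : (8 / 5 : ℝ) ≤ β * r) (_h2 : β * r ≤ 433 / 250) : ∀ z ∈ Icc c4_3.num.qL c4_3.num.qR, ValH b β r (1 / 10) z := by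
  intro z hz
  exact val_b3 (n := 4) (by norm_num) (by omega) hβ hr (le_trans (by norm_num [c4_3, NumQ.num]) hT) (by norm_num at h1 ⊢; linarith)
    (by norm_num [c4_3, NumQ.num] at hz ⊢; linarith [hz.1]) (by norm_num [c4_3, NumQ.num] at hz ⊢; linarith [hz.2])

theorem val4_4 {b : ℕ} {β r : ℝ} (hb : b = 4) (hβ : 0 < β) (hr : 10 ≤ r) (hT : c4_4.num.T0 ≤ TT b β r)
    (h1 : (433 / 250 : ℝ) ≤ β * r) (_h2 : β * r ≤ 91 / 50) : ∀ z ∈ Icc c4_4.num.qL c4_4.num.qR, ValH b β r (1 / 10) z := by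
  intro z hz
  exact val_b3 (n := 4) (by norm_num) (by omega) hβ hr (le_trans (by norm_num [c4_4, NumQ.num]) hT) (by norm_num at h1 ⊢; linarith)
    (by norm_num [c4_4, NumQ.num] at hz ⊢; linarith [hz.1]) (by norm_num [c4_4, NumQ.num] at hz ⊢; linarith [hz.2])

theorem val4_5 {b : ℕ} {β r : ℝ} (hb : b = 4) (hβ : 0 < β) (hr : 10 ≤ r) (hT : c4_5.num.T0 ≤ TT b β r)
    (h1 : (91 / 50 : ℝ) ≤ β * r) (_h2 : β * r ≤ 19 / 10) : ∀ z ∈ Icc c4_5.num.qL c4_5.num.qR, ValH b β r (1 / 10) z := by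
  intro z hz
  exact val_b3 (n := 4) (by norm_num) (by omega) hβ hr (le_trans (by norm_num [c4_5, NumQ.num]) hT) (by norm_num at h1 ⊢; linarith)
    (by norm_num [c4_5, NumQ.num] at hz ⊢; linarith [hz.1]) (by norm_num [c4_5, NumQ.num] at hz ⊢; linarith [hz.2])

theorem val4_6 {b : ℕ} {β r : ℝ} (hb : b = 4) (hβ : 0 < β) (hr : 10 ≤ r) (hT : c4_6.num.T0 ≤ TT b β r)
    (h1 : (19 / 10 : ℝ) ≤ β * r) (_h2 : β * r ≤ 23 / 10) : ∀ z ∈ Icc c4_6.num.qL c4_6.num.qR, ValH b β r (1 / 10) z := by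
  intro z hz
  exact val_b3 (n := 4) (by norm_num) (by omega) hβ hr (le_trans (by norm_num [c4_6, NumQ.num]) hT) (by norm_num at h1 ⊢; linarith)
    (by norm_num [c4_6, NumQ.num] at hz ⊢; linarith [hz.1]) (by norm_num [c4_6, NumQ.num] at hz ⊢; linarith [hz.2])

theorem val4_7 {b : ℕ} {β r : ℝ} (hb : b = 4) (hβ : 0 < β) (hr : 10 ≤ r) (hT : c4_7.num.T0 ≤ TT b β r)
    (h1 : (23 / 10 : ℝ) ≤ β * r) (_h2 : β * r ≤ 20) : ∀ z ∈ Icc c4_7.num.qL c4_7.num.qR, ValH b β r (1 / 10) z := by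
  intro z hz
  exact val_b3 (n := 4) (by norm_num) (by omega) hβ hr (le_trans (by norm_num [c4_7, NumQ.num]) hT) (by norm_num at h1 ⊢; linarith)
    (by norm_num [c4_7, NumQ.num] at hz ⊢; linarith [hz.1]) (by norm_num [c4_7, NumQ.num] at hz ⊢; linarith [hz.2])

end Sok.R2
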