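import Pool.Agent.Lib.MP_816dec_an.R2Val0

/-!
MP_816dec_an (row R2): the value of the right main window, part D
-/

set_option autoImplicit false

open Complex Set Filter Topology

namespace Sok.R2

open Sok.Mid Sok.N1

theorem val5_1 {b : ℕ} {β r : ℝ} (hb : b = 5) (hβ : 0 < β) (hr : 10 ≤ r) (hT : c5_1.num.T0 ≤ TT b β r)
    (h1 : (139 / 100 : ℝ) ≤ β * r) (_h2 : β * r ≤ 71 / 50) : ∀ z ∈ Icc c5_1.num.qL c5_1.num.qR, ValH b β r (1 / 10) z := by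
  intro z hz
  exact val_b3 (n := 5) (by norm_num) (by omega) hβ hr (le_trans (by norm_num [c5_1, NumQ.num]) hT) (by norm_num at h1 ⊢; linarith)
    (by norm_num [c5_1, NumQ.num] at hz ⊢; linarith [hz.1]) (by norm_num [c5_1, NumQ.num] at hz ⊢; linarith [hz.2])

theorem val5_2 {b : ℕ} {β r : ℝ} (hb : b = 5) (hβ : 0 < β) (hr : 10 ≤ r) (hT : c5_2.num.T0 ≤ TT b β r)
    (h1 : (71 / 50 : ℝ) ≤ β * r) (_h2 : β * r ≤ 37 / 25) : ∀ z ∈ Icc c5_2.num.qL c5_2.num.qR, ValH b β r (1 / 10) z := by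
  intro z hz
  exact val_b3 (n := 5) (by norm_num) (by omega) hβ hr (le_trans (by norm_num [c5_2, NumQ.num]) hT) (by norm_num at h1 ⊢; linarith)
    (by norm_num [c5_2, NumQ.num] at hz ⊢; linarith [hz.1]) (by norm_num [c5_2, NumQ.num] at hz ⊢; linarith [hz.2])

theorem val5_3 {b : ℕ} {β r : ℝ} (hb : b = 5) (hβ : 0 < β) (hr : 10 ≤ r) (hT : c5_3.num.T0 ≤ TT b β r)
    (h1 : (37 / 25 : ℝ) ≤ β * r) (_h2 : β * r ≤ 79 / 50) : ∀ z ∈ Icc c5_3.num.qL c5_3.num.qR, ValH b β r (1 / 10) z := by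
  intro z hz
  exact val_b3 (n := 5) (by norm_num) (by omega) hβ hr (le_trans (by norm_num [c5_3, NumQ.num]) hT) (by norm_num at h1 ⊢; linarith)
    (by norm_num [c5_3, NumQ.num] at hz ⊢; linarith [hz.1]) (by norm_num [c5_3, NumQ.num] at hz ⊢; linarith [hz.2])

theorem val5_4 {b : ℕ} {β r : ℝ} (hb : b = 5) (hβ : 0 < β) (hr : 10 ≤ r) (hT : c5_4.num.T0 ≤ TT b β r)
    (h1 : (79 / 50 : ℝ) ≤ β * r) (_h2 : β * r ≤ 433 / 250) : ∀ z ∈ Icc c5_4.num.qL c5_4.num.qR, ValH b β r (1 / 10) z := by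
  intro z hz
  exact val_b3 (n := 5) (by norm_num) (by omega) hβ hr (le_trans (by norm_num [c5_4, NumQ.num]) hT) (by norm_num at h1 ⊢; linarith)
    (by norm_num [c5_4, NumQ.num] at hz ⊢; linarith [hz.1]) (by norm_num [c5_4, NumQ.num] at hz ⊢; linarith [hz.2])

theorem val5_5 {b : ℕ} {β r : ℝ} (hb : b = 5) (hβ : 0 < β) (hr : 10 ≤ r) (hT : c5_5.num.T0 ≤ TT b β r)
    (h1 : (433 / 250 : ℝ) ≤ β * r) (_h2 : β * r ≤ 2) : ∀ z ∈ Icc c5_5.num.qL c5_5.num.qR, ValH b β r (1 / 10) z := by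
  intro z hz
  exact val_b3 (n := 5) (by norm_num) (by omega) hβ hr (le_trans (by norm_num [c5_5, NumQ.num]) hT) (by norm_num at h1 ⊢; linarith)
    (by norm_num [c5_5, NumQ.num] at hz ⊢; linarith [hz.1]) (by norm_num [c5_5, NumQ.num] at hz ⊢; linarith [hz.2])

theorem val5_6 {b : ℕ} {β r : ℝ} (hb : b = 5) (hβ : 0 < β) (hr : 10 ≤ r) (hT : c5_6.num.T0 ≤ TT b β r)
    (h1 : (2 : ℝ) ≤ β * r) (_h2 : β * r ≤ 20) : ∀ z ∈ Icc c5_6.num.qL c5_6.num.qR, ValH b β r (1 / 10) z := by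
  intro z hz
  exact val_b3 (n := 5) (by norm_num) (by omega) hβ hr (le_trans (by norm_num [c5_6, NumQ.num]) hT) (by norm_num at h1 ⊢; linarith)
    (by norm_num [c5_6, NumQ.num] at hz ⊢; linarith [hz.1]) (by norm_num [c5_6, NumQ.num] at hz ⊢; linarith [hz.2])

theorem val6_1 {b : ℕ} {β r : ℝ} (hb : b = 6) (hβ : 0 < β) (hr : 10 ≤ r) (hT : c6_1.num.T0 ≤ TT b β r)
    (h1 : (139 / 100 : ℝ) ≤ β * r) (_h2 : β * r ≤ 31 / 20) : ∀ z ∈ Icc c6_1.num.qL c6_1.num.qR, ValH b β r (1 / 10) z := by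
  intro z hz
  exact val_b3 (n := 6) (by norm_num) (by omega) hβ hr (le_trans (by norm_num [c6_1, NumQ.num]) hT) (by norm_num at h1 ⊢; linarith)
    (by norm_num [c6_1, NumQ.num] at hz ⊢; linarith [hz.1]) (by norm_num [c6_1, NumQ.num] at hz ⊢; linarith [hz.2])

theorem val6_2 {b : ℕ} {β r : ℝ} (hb : b = 6) (hβ : 0 < β) (hr : 10 ≤ r) (hT : c6_2.num.T0 ≤ TT b β r)
    (h1 : (31 / 20 : ℝ) ≤ β * r) (_h2 : β * r ≤ 433 / 250) : ∀ z ∈ Icc c6_2.num.qL c6_2.num.qR, ValH b β r (1 / 10) z := by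
  intro z hz
  exact val_b3 (n := 6) (by norm_num) (by omega) hβ hr (le_trans (by norm_num [c6_2, NumQ.num]) hT) (by norm_num at h1 ⊢; linarith)
    (by norm_num [c6_2, NumQ.num] at hz ⊢; linarith [hz.1]) (by norm_num [c6_2, NumQ.num] at hz ⊢; linarith [hz.2])

theorem val6_3 {b : ℕ} {β r : ℝ} (hb : b = 6) (hβ : 0 < β) (hr : 10 ≤ r) (hT : c6_3.num.T0 ≤ TT b β r)
    (h1 : (433 / 250 : ℝ) ≤ β * r) (_h2 : β * r ≤ 20) : ∀ z ∈ Icc c6_3.num.qL c6_3.num.qR, ValH b β r (1 / 10) z := by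
  intro z hz
  exact val_b3 (n := 6) (by norm_num) (by omega) hβ hr (le_trans (by norm_num [c6_3, NumQ.num]) hT) (by norm_num at h1 ⊢; linarith)
    (by norm_num [c6_3, NumQ.num] at hz ⊢; linarith [hz.1]) (by norm_num [c6_3, NumQ.num] at hz ⊢; linarith [hz.2])

theorem val7_1 {b : ℕ} {β r : ℝ} (hb : b = 7) (hβ : 0 < β) (hr : 10 ≤ r) (hT : c7_1.num.T0 ≤ TT b β r)
    (h1 : (139 / 100 : ℝ) ≤ β * r) (_h2 : β * r ≤ 433 / 250) : ∀ z ∈ Icc c7_1.num.qL c7_1.num.qR, ValH b β r (1 / 10) z := by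
  intro z hz
  exact val_b3 (n := 7) (by norm_num) (by omega) hβ hr (le_trans (by norm_num [c7_1, NumQ.num]) hT) (by norm_num at h1 ⊢; linarith)
    (by norm_num [c7_1, NumQ.num] at hz ⊢; linarith [hz.1]) (by norm_num [c7_1, NumQ.num] at hz ⊢; linarith [hz.2])

theorem val7_2 {b : ℕ} {β r : ℝ} (hb : b = 7) (hβ : 0 < β) (hr : 10 ≤ r) (hT : c7_2.num.T0 ≤ TT b β r)
    (h1 : (433 / 250 : ℝ) ≤ β * r) (_h2 : β * r ≤ 20) : ∀ z ∈ Icc c7_2.num.qL c7_2.num.qR, ValH b β r (1 / 10) z := by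
  intro z hz
  exact val_b3 (n := 7) (by norm_num) (by omega) hβ hr (le_trans (by norm_num [c7_2, NumQ.num]) hT) (by norm_num at h1 ⊢; linarith)
    (by norm_num [c7_2, NumQ.num] at hz ⊢; linarith [hz.1]) (by norm_num [c7_2, NumQ.num] at hz ⊢; linarith [hz.2])

theorem val8_1 {b : ℕ} {β r : ℝ} (hb : 8 ≤ b) (hβ : 0 < β) (hr : 10 ≤ r) (hT : c8_1.num.T0 ≤ TT b β r)
    (h1 : (139 / 100 : ℝ) ≤ β * r) (_h2 : β * r ≤ 433 / 250) : ∀ z ∈ Icc c8_1.num.qL c8_1.num.qR, ValH b β r (1 / 10) z := by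
  intro z hz
  exact val_b3 (n := 8) (by norm_num) (by omega) hβ hr (le_trans (by norm_num [c8_1, NumQ.num]) hT) (by norm_num at h1 ⊢; linarith)
    (by norm_num [c8_1, NumQ.num] at hz ⊢; linarith [hz.1]) (by norm_num [c8_1, NumQ.num] at hz ⊢; linarith [hz.2])

theorem val8_2 {b : ℕ} {β r : ℝ} (hb : 8 ≤ b) (hβ : 0 < β) (hr : 10 ≤ r) (hT : c8_2.num.T0 ≤ TT b β r)
    (h1 : (433 / 250 : ℝ) ≤ β * r) (_h2 : β * r ≤ 20) : ∀ z ∈ Icc c8_2.num.qL c8_2.num.qR, ValH b β r (1 / 10) z := by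
  intro z hz
  exact val_b3 (n := 8) (by norm_num) (by omega) hβ hr (le_trans (by norm_num [c8_2, NumQ.num]) hT) (by norm_num at h1 ⊢; linarith)
    (by norm_num [c8_2, NumQ.num] at hz ⊢; linarith [hz.1]) (by norm_num [c8_2, NumQ.num] at hz ⊢; linarith [hz.2])

end Sok.R2
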