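import Pool.Agent.Lib.MP_816dec_an.R2ValA
import Pool.Agent.Lib.MP_816dec_an.R2ValB
import Pool.Agent.Lib.MP_816dec_an.R2ValC
import Pool.Agent.Lib.MP_816dec_an.R2ValD

/-!
MP_816dec_an (row R2): the value of the right main window (all parts)
-/
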