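import Pool.Agent.Lib.MP_816dec_an.R2SlC1
import Pool.Agent.Lib.MP_816dec_an.R2SlC3
import Pool.Agent.Lib.MP_816dec_an.R2SlC4
import Pool.Agent.Lib.MP_816dec_an.R2SlC5
import Pool.Agent.Lib.MP_816dec_an.R2Val

/-!
MP_816dec_an (row R2): the slopes of the two main windows
-/

set_option autoImplicit false

open Complex Set Filter Topology

namespace Sok.R2

theorem slope1_1 {b : ℕ} {β r : ℝ} (hb : b = 1) (hβ : 0 < β) (hr : 10 ≤ r) (hT : c1_1.num.T0 ≤ TT b β r)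
    (h1 : (47 / 10 : ℝ) ≤ β * r) (h2 : β * r ≤ 28 / 5) : SlopeH b β r (-1) 3 c1_1.num :=
  slopeV1_1 hb hβ hr hT h1 h2 (val1_1 hb hβ hr hT h1 h2)

theorem slope1_2 {b : ℕ} {β r : ℝ} (hb : b = 1) (hβ : 0 < β) (hr : 10 ≤ r) (hT : c1_2.num.T0 ≤ TT b β r)
    (h1 : (28 / 5 : ℝ) ≤ β * r) (h2 : β * r ≤ 69 / 10) : SlopeH b β r (-1) 3 c1_2.num :=
  slopeV1_2 hb hβ hr hT h1 h2 (val1_2 hb hβ hr hT h1 h2)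

theorem slope1_3 {b : ℕ} {β r : ℝ} (hb : b = 1) (hβ : 0 < β) (hr : 10 ≤ r) (hT : c1_3.num.T0 ≤ TT b β r)
    (h1 : (69 / 10 : ℝ) ≤ β * r) (h2 : β * r ≤ 77 / 10) : SlopeH b β r (-1) 3 c1_3.num :=
  slopeV1_3 hb hβ hr hT h1 h2 (val1_3 hb hβ hr hT h1 h2)

theorem slope1_4 {b : ℕ} {β r : ℝ} (hb : b = 1) (hβ : 0 < β) (hr : 10 ≤ r) (hT : c1_4.num.T0 ≤ TT b β r)
    (h1 : (77 / 10 : ℝ) ≤ β * r) (h2 : β * r ≤ 41 / 5) : SlopeH b β r (-1) 3 c1_4.num :=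
  slopeV1_4 hb hβ hr hT h1 h2 (val1_4 hb hβ hr hT h1 h2)

theorem slope1_5 {b : ℕ} {β r : ℝ} (hb : b = 1) (hβ : 0 < β) (hr : 10 ≤ r) (hT : c1_5.num.T0 ≤ TT b β r)
    (h1 : (41 / 5 : ℝ) ≤ β * r) (h2 : β * r ≤ 19 / 2) : SlopeH b β r (-1) 3 c1_5.num :=
  slopeV1_5 hb hβ hr hT h1 h2 (val1_5 hb hβ hr hT h1 h2)

theorem slope1_6 {b : ℕ} {β r : ℝ} (hb : b = 1) (hβ : 0 < β) (hr : 10 ≤ r) (hT : c1_6.num.T0 ≤ TT b β r)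
    (h1 : (19 / 2 : ℝ) ≤ β * r) (h2 : β * r ≤ 20) : SlopeH b β r (-1) 3 c1_6.num :=
  slopeV1_6 hb hβ hr hT h1 h2 (val1_6 hb hβ hr hT h1 h2)

theorem slope2_1 {b : ℕ} {β r : ℝ} (hb : b = 2) (hβ : 0 < β) (hr : 10 ≤ r) (hT : c2_1.num.T0 ≤ TT b β r)
    (h1 : (3 : ℝ) ≤ β * r) (h2 : β * r ≤ 7 / 2) : SlopeH b β r (-2 * (b : ℤ) + 2) 2 c2_1.num :=
  slopeV2_1 hb hβ hr hT h1 h2 (val2_1 hb hβ hr hT h1 h2)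

theorem slope2_2 {b : ℕ} {β r : ℝ} (hb : b = 2) (hβ : 0 < β) (hr : 10 ≤ r) (hT : c2_2.num.T0 ≤ TT b β r)
    (h1 : (7 / 2 : ℝ) ≤ β * r) (h2 : β * r ≤ 39 / 10) : SlopeH b β r (-2 * (b : ℤ) + 2) 2 c2_2.num :=
  slopeV2_2 hb hβ hr hT h1 h2 (val2_2 hb hβ hr hT h1 h2)

theorem slope2_3 {b : ℕ} {β r : ℝ} (hb : b = 2) (hβ : 0 < β) (hr : 10 ≤ r) (hT : c2_3.num.T0 ≤ TT b β r)
    (h1 : (39 / 10 : ℝ) ≤ β * r) (h2 : β * r ≤ 21 / 5) : SlopeH b β r (-2 * (b : ℤ) + 2) 2 c2_3.num :=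
  slopeV2_3 hb hβ hr hT h1 h2 (val2_3 hb hβ hr hT h1 h2)

theorem slope2_4 {b : ℕ} {β r : ℝ} (hb : b = 2) (hβ : 0 < β) (hr : 10 ≤ r) (hT : c2_4.num.T0 ≤ TT b β r)
    (h1 : (21 / 5 : ℝ) ≤ β * r) (h2 : β * r ≤ 20) : SlopeH b β r (-2 * (b : ℤ) + 2) 2 c2_4.num :=
  slopeV2_4 hb hβ hr hT h1 h2 (val2_4 hb hβ hr hT h1 h2)

theorem slope3_1 {b : ℕ} {β r : ℝ} (hb : b = 3) (hβ : 0 < β) (hr : 10 ≤ r) (hT : c3_1.num.T0 ≤ TT b β r)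
    (h1 : (139 / 100 : ℝ) ≤ β * r) (h2 : β * r ≤ 8 / 5) : SlopeH b β r (-2 * (b : ℤ) + 2) 2 c3_1.num :=
  slopeV3_1 hb hβ hr hT h1 h2 (val3_1 hb hβ hr hT h1 h2)

theorem slope3_2 {b : ℕ} {β r : ℝ} (hb : b = 3) (hβ : 0 < β) (hr : 10 ≤ r) (hT : c3_2.num.T0 ≤ TT b β r)
    (h1 : (8 / 5 : ℝ) ≤ β * r) (h2 : β * r ≤ 19 / 10) : SlopeH b β r (-2 * (b : ℤ) + 2) 2 c3_2.num :=
  slopeV3_2 hb hβ hr hT h1 h2 (val3_2 hb hβ hr hT h1 h2)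

theorem slope3_3 {b : ℕ} {β r : ℝ} (hb : b = 3) (hβ : 0 < β) (hr : 10 ≤ r) (hT : c3_3.num.T0 ≤ TT b β r)
    (h1 : (19 / 10 : ℝ) ≤ β * r) (h2 : β * r ≤ 21 / 10) : SlopeH b β r (-2 * (b : ℤ) + 2) 2 c3_3.num :=
  slopeV3_3 hb hβ hr hT h1 h2 (val3_3 hb hβ hr hT h1 h2)

theorem slope3_4 {b : ℕ} {β r : ℝ} (hb : b = 3) (hβ : 0 < β) (hr : 10 ≤ r) (hT : c3_4.num.T0 ≤ TT b β r)
    (h1 : (21 / 10 : ℝ) ≤ β * r) (h2 : β * r ≤ 23 / 10) : SlopeH b β r (-2 * (b : ℤ) + 2) 2 c3_4.num :=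
  slopeV3_4 hb hβ hr hT h1 h2 (val3_4 hb hβ hr hT h1 h2)

theorem slope3_5 {b : ℕ} {β r : ℝ} (hb : b = 3) (hβ : 0 < β) (hr : 10 ≤ r) (hT : c3_5.num.T0 ≤ TT b β r)
    (h1 : (23 / 10 : ℝ) ≤ β * r) (h2 : β * r ≤ 5 / 2) : SlopeH b β r (-2 * (b : ℤ) + 2) 2 c3_5.num :=
  slopeV3_5 hb hβ hr hT h1 h2 (val3_5 hb hβ hr hT h1 h2)

theorem slope3_6 {b : ℕ} {β r : ℝ} (hb : b = 3) (hβ : 0 < β) (hr : 10 ≤ r) (hT : c3_6.num.T0 ≤ TT b β r)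
    (h1 : (5 / 2 : ℝ) ≤ β * r) (h2 : β * r ≤ 133 / 50) : SlopeH b β r (-2 * (b : ℤ) + 2) 2 c3_6.num :=
  slopeV3_6 hb hβ hr hT h1 h2 (val3_6 hb hβ hr hT h1 h2)

theorem slope3_7 {b : ℕ} {β r : ℝ} (hb : b = 3) (hβ : 0 < β) (hr : 10 ≤ r) (hT : c3_7.num.T0 ≤ TT b β r)
    (h1 : (133 / 50 : ℝ) ≤ β * r) (h2 : β * r ≤ 20) : SlopeH b β r (-2 * (b : ℤ) + 2) 2 c3_7.num :=
  slopeV3_7 hb hβ hr hT h1 h2 (val3_7 hb hβ hr hT h1 h2)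

theorem slope4_1 {b : ℕ} {β r : ℝ} (hb : b = 4) (hβ : 0 < β) (hr : 10 ≤ r) (hT : c4_1.num.T0 ≤ TT b β r)
    (h1 : (139 / 100 : ℝ) ≤ β * r) (h2 : β * r ≤ 3 / 2) : SlopeH b β r (-2 * (b : ℤ) + 2) 2 c4_1.num :=
  slopeV4_1 hb hβ hr hT h1 h2 (val4_1 hb hβ hr hT h1 h2)

theorem slope4_2 {b : ℕ} {β r : ℝ} (hb : b = 4) (hβ : 0 < β) (hr : 10 ≤ r) (hT : c4_2.num.T0 ≤ TT b β r)
    (h1 : (3 / 2 : ℝ) ≤ β * r) (h2 : β * r ≤ 8 / 5) : SlopeH b β r (-2 * (b : ℤ) + 2) 2 c4_2.num :=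
  slopeV4_2 hb hβ hr hT h1 h2 (val4_2 hb hβ hr hT h1 h2)

theorem slope4_3 {b : ℕ} {β r : ℝ} (hb : b = 4) (hβ : 0 < β) (hr : 10 ≤ r) (hT : c4_3.num.T0 ≤ TT b β r)
    (h1 : (8 / 5 : ℝ) ≤ β * r) (h2 : β * r ≤ 433 / 250) : SlopeH b β r (-2 * (b : ℤ) + 2) 2 c4_3.num :=
  slopeV4_3 hb hβ hr hT h1 h2 (val4_3 hb hβ hr hT h1 h2)

theorem slope4_4 {b : ℕ} {β r : ℝ} (hb : b = 4) (hβ : 0 < β) (hr : 10 ≤ r) (hT : c4_4.num.T0 ≤ TT b β r)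
    (h1 : (433 / 250 : ℝ) ≤ β * r) (h2 : β * r ≤ 91 / 50) : SlopeH b β r (-2 * (b : ℤ) + 2) 2 c4_4.num :=
  slopeV4_4 hb hβ hr hT h1 h2 (val4_4 hb hβ hr hT h1 h2)

theorem slope4_5 {b : ℕ} {β r : ℝ} (hb : b = 4) (hβ : 0 < β) (hr : 10 ≤ r) (hT : c4_5.num.T0 ≤ TT b β r)
    (h1 : (91 / 50 : ℝ) ≤ β * r) (h2 : β * r ≤ 19 / 10) : SlopeH b β r (-2 * (b : ℤ) + 2) 2 c4_5.num :=
  slopeV4_5 hb hβ hr hT h1 h2 (val4_5 hb hβ hr hT h1 h2)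

theorem slope4_6 {b : ℕ} {β r : ℝ} (hb : b = 4) (hβ : 0 < β) (hr : 10 ≤ r) (hT : c4_6.num.T0 ≤ TT b β r)
    (h1 : (19 / 10 : ℝ) ≤ β * r) (h2 : β * r ≤ 23 / 10) : SlopeH b β r (-2 * (b : ℤ) + 2) 2 c4_6.num :=
  slopeV4_6 hb hβ hr hT h1 h2 (val4_6 hb hβ hr hT h1 h2)

theorem slope4_7 {b : ℕ} {β r : ℝ} (hb : b = 4) (hβ : 0 < β) (hr : 10 ≤ r) (hT : c4_7.num.T0 ≤ TT b β r)
    (h1 : (23 / 10 : ℝ) ≤ β * r) (h2 : β * r ≤ 20) : SlopeH b β r (-2 * (b : ℤ) + 2) 2 c4_7.num :=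
  slopeV4_7 hb hβ hr hT h1 h2 (val4_7 hb hβ hr hT h1 h2)

theorem slope5_1 {b : ℕ} {β r : ℝ} (hb : b = 5) (hβ : 0 < β) (hr : 10 ≤ r) (hT : c5_1.num.T0 ≤ TT b β r)
    (h1 : (139 / 100 : ℝ) ≤ β * r) (h2 : β * r ≤ 71 / 50) : SlopeH b β r (-2 * (b : ℤ) + 2) 2 c5_1.num :=
  slopeV5_1 hb hβ hr hT h1 h2 (val5_1 hb hβ hr hT h1 h2)

theorem slope5_2 {b : ℕ} {β r : ℝ} (hb : b = 5) (hβ : 0 < β) (hr : 10 ≤ r) (hT : c5_2.num.T0 ≤ TT b β r)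
    (h1 : (71 / 50 : ℝ) ≤ β * r) (h2 : β * r ≤ 37 / 25) : SlopeH b β r (-2 * (b : ℤ) + 2) 2 c5_2.num :=
  slopeV5_2 hb hβ hr hT h1 h2 (val5_2 hb hβ hr hT h1 h2)

theorem slope5_3 {b : ℕ} {β r : ℝ} (hb : b = 5) (hβ : 0 < β) (hr : 10 ≤ r) (hT : c5_3.num.T0 ≤ TT b β r)
    (h1 : (37 / 25 : ℝ) ≤ β * r) (h2 : β * r ≤ 79 / 50) : SlopeH b β r (-2 * (b : ℤ) + 2) 2 c5_3.num :=
  slopeV5_3 hb hβ hr hT h1 h2 (val5_3 hb hβ hr hT h1 h2)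

theorem slope5_4 {b : ℕ} {β r : ℝ} (hb : b = 5) (hβ : 0 < β) (hr : 10 ≤ r) (hT : c5_4.num.T0 ≤ TT b β r)
    (h1 : (79 / 50 : ℝ) ≤ β * r) (h2 : β * r ≤ 433 / 250) : SlopeH b β r (-2 * (b : ℤ) + 2) 2 c5_4.num :=
  slopeV5_4 hb hβ hr hT h1 h2 (val5_4 hb hβ hr hT h1 h2)

theorem slope5_5 {b : ℕ} {β r : ℝ} (hb : b = 5) (hβ : 0 < β) (hr : 10 ≤ r) (hT : c5_5.num.T0 ≤ TT b β r)
    (h1 : (433 / 250 : ℝ) ≤ β * r) (h2 : β * r ≤ 2) : SlopeH b β r (-2 * (b : ℤ) + 2) 2 c5_5.num :=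
  slopeV5_5 hb hβ hr hT h1 h2 (val5_5 hb hβ hr hT h1 h2)

theorem slope5_6 {b : ℕ} {β r : ℝ} (hb : b = 5) (hβ : 0 < β) (hr : 10 ≤ r) (hT : c5_6.num.T0 ≤ TT b β r)
    (h1 : (2 : ℝ) ≤ β * r) (h2 : β * r ≤ 20) : SlopeH b β r (-2 * (b : ℤ) + 2) 2 c5_6.num :=
  slopeV5_6 hb hβ hr hT h1 h2 (val5_6 hb hβ hr hT h1 h2)

theorem slope6_1 {b : ℕ} {β r : ℝ} (hb : b = 6) (hβ : 0 < β) (hr : 10 ≤ r) (hT : c6_1.num.T0 ≤ TT b β r)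
    (h1 : (139 / 100 : ℝ) ≤ β * r) (h2 : β * r ≤ 31 / 20) : SlopeH b β r (-2 * (b : ℤ) + 2) 2 c6_1.num :=
  slopeV6_1 hb hβ hr hT h1 h2 (val6_1 hb hβ hr hT h1 h2)

theorem slope6_2 {b : ℕ} {β r : ℝ} (hb : b = 6) (hβ : 0 < β) (hr : 10 ≤ r) (hT : c6_2.num.T0 ≤ TT b β r)
    (h1 : (31 / 20 : ℝ) ≤ β * r) (h2 : β * r ≤ 433 / 250) : SlopeH b β r (-2 * (b : ℤ) + 2) 2 c6_2.num :=
  slopeV6_2 hb hβ hr hT h1 h2 (val6_2 hb hβ hr hT h1 h2)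

theorem slope6_3 {b : ℕ} {β r : ℝ} (hb : b = 6) (hβ : 0 < β) (hr : 10 ≤ r) (hT : c6_3.num.T0 ≤ TT b β r)
    (h1 : (433 / 250 : ℝ) ≤ β * r) (h2 : β * r ≤ 20) : SlopeH b β r (-2 * (b : ℤ) + 2) 2 c6_3.num :=
  slopeV6_3 hb hβ hr hT h1 h2 (val6_3 hb hβ hr hT h1 h2)

theorem slope7_1 {b : ℕ} {β r : ℝ} (hb : b = 7) (hβ : 0 < β) (hr : 10 ≤ r) (hT : c7_1.num.T0 ≤ TT b β r)
    (h1 : (139 / 100 : ℝ) ≤ β * r) (h2 : β * r ≤ 433 / 250) : SlopeH b β r (-2 * (b : ℤ) + 2) 2 c7_1.num :=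
  slopeV7_1 hb hβ hr hT h1 h2 (val7_1 hb hβ hr hT h1 h2)

theorem slope7_2 {b : ℕ} {β r : ℝ} (hb : b = 7) (hβ : 0 < β) (hr : 10 ≤ r) (hT : c7_2.num.T0 ≤ TT b β r)
    (h1 : (433 / 250 : ℝ) ≤ β * r) (h2 : β * r ≤ 20) : SlopeH b β r (-2 * (b : ℤ) + 2) 2 c7_2.num :=
  slopeV7_2 hb hβ hr hT h1 h2 (val7_2 hb hβ hr hT h1 h2)

theorem slope8_1 {b : ℕ} {β r : ℝ} (hb : 8 ≤ b) (hβ : 0 < β) (hr : 10 ≤ r) (hT : c8_1.num.T0 ≤ TT b β r)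
    (h1 : (139 / 100 : ℝ) ≤ β * r) (h2 : β * r ≤ 433 / 250) : SlopeH b β r (-2 * (b : ℤ) + 2) 2 c8_1.num :=
  slopeV8_1 hb hβ hr hT h1 h2 (val8_1 hb hβ hr hT h1 h2)

theorem slope8_2 {b : ℕ} {β r : ℝ} (hb : 8 ≤ b) (hβ : 0 < β) (hr : 10 ≤ r) (hT : c8_2.num.T0 ≤ TT b β r)
    (h1 : (433 / 250 : ℝ) ≤ β * r) (h2 : β * r ≤ 20) : SlopeH b β r (-2 * (b : ℤ) + 2) 2 c8_2.num :=
  slopeV8_2 hb hβ hr hT h1 h2 (val8_2 hb hβ hr hT h1 h2)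

end Sok.R2
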