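import Pool.Agent.Lib.MP_816dec_an.R2K20J

/-!
MP_816dec_an (row R2): **the class `κ = β r ≥ 20`** is closed.
-/

set_option autoImplicit false

open Complex Set Filter Topology MeasureTheory

namespace Sok.R2.K20

open Big Sok.Mid Sok.N1

namespace Big

variable {b : ℕ} {β r : ℝ}

/-- `y = sn * H` -/
theorem sy_sn (B : Big b β r) (z : ℝ) : sy (β * r) (z * hh b - β * r) =
    sn b (β * r) z * ((β * r) * hh b / (1 + (β * r) ^ 2)) := by
  have h1 := B.u_sy z
  have h2 := B.u_v 1
  unfold vS at h2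
  rw [one_mul] at h2
  have hu := B.u_pos
  have h3 : uu b β r * sy (β * r) (z * hh b - β * r) * ((β * r) * hh b / (1 + (β * r) ^ 2)) =
      sy (β * r) (z * hh b - β * r) * (uu b β r * ((β * r) * hh b / (1 + (β * r) ^ 2))) := by ring
  rw [← h1, h3, h2, mul_one]

theorem sn_neg (B : Big b β r) {z : ℝ} (hz : z ≤ 0) : z ≤ sn b (β * r) z ∧ sn b (β * r) z ≤ 0 := by
  have hk := B.k1
  have hhp := B.hpos
  constructor
  · have h3 := (en_le_left (b := b) (κ := β * r) (z := -z) B.hb hk (by have := B.ksq; linarith) (by linarith)).2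
    rw [neg_neg] at h3
    linarith
  · have h0 : sy (β * r) (z * hh b - β * r) ≤ 0 := by
      apply sy_nonpos hk
      nlinarith
    unfold sn yv
    have h4 : (1 + (β * r) ^ 2) * sy (β * r) (z * hh b - β * r) / (β * r) ≤ 0 := by
      apply div_nonpos_of_nonpos_of_nonneg _ B.kpos.le
      exact mul_nonpos_of_nonneg_of_nonpos (by positivity) h0
    exact div_nonpos_of_nonpos_of_nonneg h4 hhp.le

theorem sn_pos (B : Big b β r) {z : ℝ} (hz : 0 ≤ z) (hz1 : z ≤ 68 / 100) :
    0 ≤ sn b (β * r) z ∧ sn b (β * r) z ≤ 9 / 10 := by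
  have hk := B.k1
  have hκ := B.hκ
  have hhp := B.hpos
  have hhl := B.h_le'
  have hpi := Real.pi_pos
  constructor
  · unfold sn yv
    have h0 : 0 ≤ sy (β * r) (z * hh b - β * r) := by
      apply sy_nonneg hk
      · nlinarith
      · nlinarith
    positivity
  · have h3 := (en_le_log (b := b) (κ := β * r) (H := 31416 / 100000) (z := z) B.hb hk B.H_le20 hz (by nlinarith)).2
    refine h3.trans ?_
    have h4 : -(28274 / 100000) ≤ Real.log (1 - z * (31416 / 100000)) := by
      have h5 : (7863 / 10000 : ℝ) ≤ 1 - z * (31416 / 100000) := by linarith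
      have h6 := Real.log_le_log (by norm_num) h5
      have h7 : -(28274 / 100000) ≤ Real.log (7863 / 10000 : ℝ) := by
        rw [Real.le_log_iff_exp_le (by norm_num)]
        have h10 := Real.quadratic_le_exp_of_nonneg (x := 28274 / 100000) (by norm_num)
        rw [Real.exp_neg]
        have h11 : (Real.exp (28274 / 100000))⁻¹ ≤ (1 + 28274 / 100000 + (28274 / 100000) ^ 2 / 2)⁻¹ :=
          inv_anti₀ (by norm_num) h10
        refine h11.trans ?_
        norm_num
      linarith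
    have e : -(Real.log (1 - z * (31416 / 100000)) / (31416 / 100000)) =
      -Real.log (1 - z * (31416 / 100000)) / (31416 / 100000) := by ring
    rw [e, div_le_iff₀ (by norm_num)]
    linarith

/-- the main window at the coordinate `ζ` -/
theorem nw (B : Big b β r) {ζ : ℝ} (h1 : -1 ≤ ζ) (h2 : ζ ≤ 68 / 100) :
    NW b β r (ζ * hh b - β * r) (sy (β * r) (ζ * hh b - β * r))
      (ζ * hh b - β * r + sx (β * r) (ζ * hh b - β * r)) := by
  have hk := B.k1
  have hκ := B.hκ
  have hhp := B.hpos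
  have hhl := B.h_le'
  have hpi := Real.pi_pos
  have hpi4 := Real.pi_lt_d4
  have hH := B.H_le
  have hHp := B.H_pos
  have ht : ζ * hh b - β * r ≤ -Real.pi := by nlinarith
  have hD : DomR (β * r) (ζ * hh b - β * r) := DomR_of hk (by linarith)
  obtain ⟨I, T⟩ := sy_spec hD
  have hsn := B.sy_sn ζ
  obtain ⟨t, htd⟩ : ∃ t, t = ζ * hh b - β * r := ⟨_, rfl⟩
  rw [← htd] at ht hD I T hsn ⊢
  obtain ⟨y, hy⟩ : ∃ y, y = sy (β * r) t := ⟨_, rfl⟩
  have hX : sx (β * r) t = Xk (β * r) y := by rw [hy]; rfl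
  rw [← hy] at I T hsn ⊢
  rw [hX]
  have ha : t + Xk (β * r) y = Real.arctan (y / Xk (β * r) y) := by
    unfold Tk at T; linarith
  have hms := Mv_spec I
  have hE : Real.exp (-y) * Real.exp y = 1 := by rw [← Real.exp_add]; simp
  refine ⟨B, ⟨B.hβ, B.hr, ?_, ?_⟩, I, by ring, ha, ?_, ?_, ht⟩
  · rw [ha]
    calc β * r * Real.exp (-y) * Real.cos (Real.arctan (y / Xk (β * r) y)) =
          Real.exp (-y) * (β * r * Real.cos (Real.arctan (y / Xk (β * r) y))) := by ring
      _ = Xk (β * r) y * (Real.exp (-y) * Real.exp y) := by rw [hms.2]; ring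
      _ = _ := by rw [hE, ← ha]; ring
  · rw [ha]
    calc β * r * Real.exp (-y) * Real.sin (Real.arctan (y / Xk (β * r) y)) =
          Real.exp (-y) * (β * r * Real.sin (Real.arctan (y / Xk (β * r) y))) := by ring
      _ = y * (Real.exp (-y) * Real.exp y) := by rw [hms.1]; ring
      _ = _ := by rw [hE]; ring
  · rcases le_total 0 ζ with h | h
    · have := (B.sn_pos h h2).1
      have : 0 ≤ y := by rw [hsn]; exact mul_nonneg this hHp.le
      linarith
    · have := (B.sn_neg h).1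
      have h3 : -1 ≤ sn b (β * r) ζ := by linarith
      rw [hsn]
      nlinarith
  · rcases le_total 0 ζ with h | h
    · have h3 := (B.sn_pos h h2).2
      rw [hsn]
      have := mul_le_mul h3 hH hHp.le (by norm_num)
      linarith
    · have := (B.sn_neg h).2
      have : y ≤ 0 := by rw [hsn]; exact mul_nonpos_of_nonpos_of_nonneg this hHp.le
      linarith

end Big

namespace NW

variable {b : ℕ} {β r : ℝ}

/-- the exponent of the saddle -/
theorem E_eq (B : Big b β r) (ζ : ℝ) :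
    Real.exp (((ζ * hh b - β * r + sx (β * r) (ζ * hh b - β * r)) - (ζ * hh b - β * r)) *
      (1 + sy (β * r) (ζ * hh b - β * r)) / β) = Real.exp (-(TT b β r * en b (β * r) ζ)) * Real.exp r := by
  have hβ := B.hβ
  have hr := B.hr
  have hhp := B.hpos
  have h0 : 0 < 1 + (β * r) ^ 2 := by positivity
  rw [← Real.exp_add]
  congr 1
  have e1 : TT b β r * en b (β * r) ζ = r * (1 - sE (β * r) (ζ * hh b - β * r)) := by
    unfold TT en ev
    field_simp
  rw [e1]
  unfold sE
  field_simp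
  ring

theorem dsq {t y a : ℝ} (D : NW b β r t y a) : (a - t) ^ 2 + (1 + y) ^ 2 =
    (β * r) ^ 2 * Real.exp (-2 * y) + 1 + 2 * y := by
  have h := D.I.xsq
  rw [← D.hx] at h
  unfold gk at h
  rw [h]; ring

theorem hi {t y a e p K : ℝ} (D : NW b β r t y a) (hE : Real.exp ((a - t) * (1 + y) / β) = e * Real.exp r)
    (he : 0 < e) (hp : 0 < p) (h : 1 + (β * r) ^ 2 ≤ (p ^ 2) ^ 2 * ((a - t) ^ 2 + (1 + y) ^ 2))
    (hK : 102 / 100 * p ≤ K) : ‖AA β r t‖ ≤ K * e * GN β r := by
  have h1 := (abs_le.1 D.val).2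
  have h0 : 0 < 1 + (β * r) ^ 2 := by positivity
  have hG : 0 < Real.sqrt (Real.sqrt (1 + (β * r) ^ 2)) := Real.sqrt_pos.2 (Real.sqrt_pos.2 h0)
  have hDp : 0 < nD (a - t) y := nD_pos (by linarith [D.hyl])
  have hsD : 0 < Real.sqrt (nD (a - t) y) := Real.sqrt_pos.2 hDp
  have h2 : Real.sqrt (Real.sqrt (1 + (β * r) ^ 2)) ≤ p * Real.sqrt (nD (a - t) y) := by
    apply sqrt_cmp hp.le
    unfold nD
    exact sqrt_cmp (by positivity) h
  have hr := Real.exp_pos r
  rw [Real.exp_neg, hE] at h1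
  have h3 : ‖AA β r t‖ * Real.sqrt (nD (a - t) y) ≤ 102 / 100 * (e * Real.exp r) := by
    have h4 : ‖AA β r t‖ * Real.sqrt (nD (a - t) y) * (e * Real.exp r)⁻¹ ≤ 102 / 100 := by linarith
    rwa [← div_eq_mul_inv, div_le_iff₀ (by positivity)] at h4
  have h5 : ‖AA β r t‖ * Real.sqrt (Real.sqrt (1 + (β * r) ^ 2)) ≤ K * (e * Real.exp r) := by
    calc ‖AA β r t‖ * Real.sqrt (Real.sqrt (1 + (β * r) ^ 2)) ≤ ‖AA β r t‖ * (p * Real.sqrt (nD (a - t) y)) :=
          mul_le_mul_of_nonneg_left h2 (norm_nonneg _)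
      _ = p * (‖AA β r t‖ * Real.sqrt (nD (a - t) y)) := by ring
      _ ≤ p * (102 / 100 * (e * Real.exp r)) := mul_le_mul_of_nonneg_left h3 hp.le
      _ = (102 / 100 * p) * (e * Real.exp r) := by ring
      _ ≤ _ := mul_le_mul_of_nonneg_right hK (by positivity)
  unfold GN
  rw [← le_div_iff₀ hG] at h5
  refine h5.trans (le_of_eq ?_)
  ring

theorem lo {t y a e q K : ℝ} (D : NW b β r t y a) (hE : Real.exp ((a - t) * (1 + y) / β) = e * Real.exp r)
    (he : 0 < e) (hq : 0 < q) (h : (a - t) ^ 2 + (1 + y) ^ 2 ≤ (q ^ 2) ^ 2 * (1 + (β * r) ^ 2))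
    (hK : K * q ≤ 98 / 100) : K * e * GN β r ≤ ‖AA β r t‖ := by
  have h1 := (abs_le.1 D.val).1
  have h0 : 0 < 1 + (β * r) ^ 2 := by positivity
  have hG : 0 < Real.sqrt (Real.sqrt (1 + (β * r) ^ 2)) := Real.sqrt_pos.2 (Real.sqrt_pos.2 h0)
  have h2 : Real.sqrt (nD (a - t) y) ≤ q * Real.sqrt (Real.sqrt (1 + (β * r) ^ 2)) := by
    apply sqrt_cmp hq.le
    unfold nD
    exact sqrt_cmp (by positivity) h
  have hr := Real.exp_pos r
  rw [Real.exp_neg, hE] at h1
  have h3 : 98 / 100 * (e * Real.exp r) ≤ ‖AA β r t‖ * Real.sqrt (nD (a - t) y) := by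
    have h4 : 98 / 100 ≤ ‖AA β r t‖ * Real.sqrt (nD (a - t) y) * (e * Real.exp r)⁻¹ := by linarith
    rwa [← div_eq_mul_inv, le_div_iff₀ (by positivity)] at h4
  have h4 : 98 / 100 * (e * Real.exp r) ≤ ‖AA β r t‖ * (q * Real.sqrt (Real.sqrt (1 + (β * r) ^ 2))) :=
    h3.trans (mul_le_mul_of_nonneg_left h2 (norm_nonneg _))
  have h5 : K * (e * Real.exp r) ≤ ‖AA β r t‖ * Real.sqrt (Real.sqrt (1 + (β * r) ^ 2)) := by
    have h6 : (K * q) * (e * Real.exp r) ≤ 98 / 100 * (e * Real.exp r) :=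
      mul_le_mul_of_nonneg_right hK (by positivity)
    have h7 : q * (K * (e * Real.exp r)) ≤ q * (‖AA β r t‖ * Real.sqrt (Real.sqrt (1 + (β * r) ^ 2))) := by
      linarith
    exact le_of_mul_le_mul_left h7 hq
  unfold GN
  rw [← div_le_iff₀ hG] at h5
  refine le_trans (le_of_eq ?_) h5
  ring

/-- the slope, in the units of the class -/
theorem slopeU {t y a : ℝ} (D : NW b β r t y a) (htβ : t + β ≤ -Real.pi) :
    hh b / TT b β r * ‖ew β r t * AA β r (t + β) / AA β r t - Lx t a y / β‖ ≤ 1 / 10 := by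
  have hβ := D.B.hβ
  have hx := D.xpos
  have hA := D.A_ge
  have hu := D.B.u_sq_gen D.X_ge
  have hu0 := D.B.u_pos
  have hc : 0 ≤ hh b / TT b β r := div_nonneg D.B.hpos.le D.B.Tpos.le
  have h1 := mul_le_mul_of_nonneg_left (D.slope htβ) hc
  refine h1.trans ?_
  have e : hh b / TT b β r * (61 / 100 * (1 / (a - t))) = 61 / 100 * (uu b β r / ((a - t) / β)) := by
    unfold uu
    field_simp
  rw [e]
  obtain ⟨A, hAd⟩ : ∃ A, A = (a - t) / β := ⟨_, rfl⟩
  rw [← hAd] at hA hu ⊢
  have hA0 : 0 < A := by linarith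
  have h2 : uu b β r ≤ 1 / 10 * A := by
    apply le_of_sq_le _ (by positivity)
    nlinarith
  have h3 : uu b β r / A ≤ 1 / 10 := by rw [div_le_iff₀ hA0]; exact h2
  linarith
where
  le_of_sq_le {x y : ℝ} (h : x ^ 2 ≤ y ^ 2) (hy : 0 ≤ y) : x ≤ y := (abs_le_of_sq_le_sq' h hy).2

end NW

namespace Sel

variable {b : ℕ} {β r : ℝ} {M : ℕ}

private theorem tk0 (z : ℝ) : tk b β r 0 z = z * hh b - β * r := by unfold tk; push_cast; ring
private theorem tk1 (z : ℝ) : tk b β r 1 z = (z + 1) * hh b - β * r := by unfold tk; push_cast; ring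

theorem X0_eq (S : Sel b β r M) (z : ℝ) :
    Xw b β (aM b M) (nM M) 0 (wz b β r z) = AA β r (z * hh b - β * r) ∧
    deriv (Xw b β (aM b M) (nM M) 0) (wz b β r z) =
      ew β r (z * hh b - β * r) * AA β r (z * hh b - β * r + β) := by
  have hMb := S.Mb_pos
  have hb := S.b_pos
  have e1 : aM b M + b ≤ 0 := by unfold aM; omega
  have e2 : 0 < aM b M + nM M * b := by rw [nMb]; unfold aM; omega
  rw [deriv_Xw S.B.hβ S.B.hr, (Xw_A S.B.hr e1 e2 z).1, (Xw_A S.B.hr e1 e2 z).2, tk0]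
  exact ⟨rfl, rfl⟩

theorem X1_eq (S : Sel b β r M) (z : ℝ) :
    Xw b β (aM b M) (nM M) 1 (wz b β r z) = AA β r ((z + 1) * hh b - β * r) ∧
    deriv (Xw b β (aM b M) (nM M) 1) (wz b β r z) =
      ew β r ((z + 1) * hh b - β * r) * AA β r ((z + 1) * hh b - β * r + β) := by
  have hMb := S.Mb_pos
  have hb := S.b_pos
  have e1 : aM b M + b ≤ 1 := by unfold aM; omega
  have e2 : 1 < aM b M + nM M * b := by rw [nMb]; unfold aM; omega
  rw [deriv_Xw S.B.hβ S.B.hr, (Xw_A S.B.hr e1 e2 z).1, (Xw_A S.B.hr e1 e2 z).2, tk1]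
  exact ⟨rfl, rfl⟩

/-- the main windows, values -/
theorem nearH (S : Sel b β r M) : NearH b β r (aM b M) (nM M) c20.num where
  h0hi := by
    intro z hz
    have e1 : c20.num.qL = -(58 / 100) := by norm_num [c20, NumQ.num]
    have e2 : c20.num.u0 = 105 / 100 := by norm_num [c20, NumQ.num]
    rw [e1] at hz
    rw [(S.X0_eq z).1, e2]
    have D := S.B.nw hz.1 (by linarith [hz.2])
    have hs := S.B.sy_sn z
    have hy : sy (β * r) (z * hh b - β * r) ≤ 0 := by
      rw [hs]; exact mul_nonpos_of_nonpos_of_nonneg (S.B.sn_neg (by linarith [hz.2])).2 S.B.H_pos.le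
    refine D.hi (NW.E_eq S.B z) (Real.exp_pos _) one_pos ?_ (by norm_num)
    rw [D.dsq]
    have h1 := Real.add_one_le_exp (-2 * sy (β * r) (z * hh b - β * r))
    have h2 := mul_le_mul_of_nonneg_left h1 (sq_nonneg (β * r))
    have h3 := S.B.ksq
    nlinarith
  h0lo := by
    intro z hz
    have e1 : c20.num.qL = -(58 / 100) := by norm_num [c20, NumQ.num]
    have e2 : c20.num.c0 = 866 / 1000 := by norm_num [c20, NumQ.num]
    rw [e1] at hz
    rw [(S.X0_eq z).1, e2]
    have D := S.B.nw (ζ := z) (by linarith [hz.1]) (by linarith [hz.2])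
    have hs := S.B.sy_sn z
    have hsn := S.B.sn_neg (z := z) hz.2
    have hH := S.B.H_le
    have hHp := S.B.H_pos
    have hy : -(1818 / 10000) ≤ sy (β * r) (z * hh b - β * r) := by
      rw [hs]
      have : -(58 / 100) ≤ sn b (β * r) z := by linarith [hz.1]
      nlinarith
    have hy0 : sy (β * r) (z * hh b - β * r) ≤ 0 := by
      rw [hs]; exact mul_nonpos_of_nonpos_of_nonneg hsn.2 hHp.le
    refine D.lo (q := 111 / 100) (NW.E_eq S.B z) (Real.exp_pos _) (by norm_num) ?_ (by norm_num)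
    rw [D.dsq]
    have h1 : Real.exp (-2 * sy (β * r) (z * hh b - β * r)) ≤ 3 / 2 := by
      have h4 := Real.exp_bound_div_one_sub_of_interval (x := 3636 / 10000) (by norm_num) (by norm_num)
      have h5 : Real.exp (3636 / 10000 : ℝ) ≤ 3 / 2 := by
        have h6 : Real.exp (3636 / 10000 : ℝ) = Real.exp (1818 / 10000) ^ 2 := by
          rw [← Real.exp_nat_mul]; norm_num
        have h7 := Real.exp_bound_div_one_sub_of_interval (x := 1818 / 10000) (by norm_num) (by norm_num)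
        rw [h6]
        refine (pow_le_pow_left₀ (Real.exp_pos _).le h7 2).trans ?_
        norm_num
      exact (Real.exp_le_exp.2 (by linarith)).trans h5
    have h2 := mul_le_mul_of_nonneg_left h1 (sq_nonneg (β * r))
    have h3 := S.B.ksq
    nlinarith
  h1lo := by
    intro z hz
    have e1 : c20.num.qR = -(405 / 1000) := by norm_num [c20, NumQ.num]
    have e2 : c20.num.l1 = 8 / 10 := by norm_num [c20, NumQ.num]
    rw [e1] at hz
    rw [(S.X1_eq z).1, e2]
    have hz0 : 0 ≤ z + 1 := by linarith [hz.1]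
    have D := S.B.nw (ζ := z + 1) (by linarith) (by linarith [hz.2])
    have hs := S.B.sy_sn (z + 1)
    have hy : 0 ≤ sy (β * r) ((z + 1) * hh b - β * r) := by
      rw [hs]; exact mul_nonneg (S.B.sn_pos hz0 (by linarith [hz.2])).1 S.B.H_pos.le
    have hyu := D.hyu
    refine D.lo (q := 1) (NW.E_eq S.B (z + 1)) (Real.exp_pos _) (by norm_num) ?_ (by norm_num)
    rw [D.dsq]
    obtain ⟨y, hyd⟩ : ∃ y, y = sy (β * r) ((z + 1) * hh b - β * r) := ⟨_, rfl⟩
    rw [← hyd] at hy hyu ⊢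
    have h1 : Real.exp (-2 * y) ≤ 1 - y := by
      -- `e^{-2y} ≤ 1/(1+2y) ≤ 1 - y` for `0 ≤ y ≤ 1/2`
      have h4 := Real.add_one_le_exp (2 * y)
      have h5 : Real.exp (-2 * y) * Real.exp (2 * y) = 1 := by rw [← Real.exp_add]; simp
      have h6 := Real.exp_pos (-2 * y)
      have h7 : Real.exp (-2 * y) * (1 + 2 * y) ≤ 1 := by
        rw [← h5]; exact mul_le_mul_of_nonneg_left (by linarith) h6.le
      by_contra hcon
      push Not at hcon
      have h8 : (1 - y) * (1 + 2 * y) < 1 := lt_of_lt_of_le (mul_lt_mul_of_pos_right hcon (by linarith)) h7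
      nlinarith
    have h2 := mul_le_mul_of_nonneg_left h1 (sq_nonneg (β * r))
    have h3 := S.B.ksq
    nlinarith
  h1hi := by
    intro z hz
    have e1 : c20.num.qR = -(405 / 1000) := by norm_num [c20, NumQ.num]
    have e3 : c20.num.z4 = -(32 / 100) := by norm_num [c20, NumQ.num]
    have e2 : c20.num.c1 = 1353 / 1000 := by norm_num [c20, NumQ.num]
    rw [e1, e3] at hz
    rw [(S.X1_eq z).1, e2]
    have D := S.B.nw (ζ := z + 1) (by linarith [hz.1]) (by linarith [hz.2])
    have hyu := D.hyu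
    have hs := S.B.sy_sn (z + 1)
    have hy : 0 ≤ sy (β * r) ((z + 1) * hh b - β * r) := by
      rw [hs]; exact mul_nonneg (S.B.sn_pos (by linarith [hz.1]) (by linarith [hz.2])).1 S.B.H_pos.le
    refine D.hi (p := 116 / 100) (NW.E_eq S.B (z + 1)) (Real.exp_pos _) (by norm_num) ?_ (by norm_num)
    rw [D.dsq]
    have h1 : Real.exp (-(5642 / 10000) : ℝ) ≤ Real.exp (-2 * sy (β * r) ((z + 1) * hh b - β * r)) := by
      apply Real.exp_le_exp.2
      linarith
    have h2 := mul_le_mul_of_nonneg_left (exp_lo.trans h1) (sq_nonneg (β * r))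
    have h3 := S.B.ksq
    nlinarith

/-- the main windows, slopes -/
theorem slopeH (S : Sel b β r M) : SlopeH b β r (aM b M) (nM M) c20.num where
  s0 := by
    intro z hz
    have e1 : c20.num.qL = -(58 / 100) := by norm_num [c20, NumQ.num]
    have e2 : c20.num.qR = -(405 / 1000) := by norm_num [c20, NumQ.num]
    have e3 : c20.num.δ0 = 1 / 10 := by norm_num [c20, NumQ.num]
    rw [e1, e2] at hz
    have D := S.B.nw (ζ := z) (by linarith [hz.1]) (by linarith [hz.2])
    have hβ := S.B.beta_le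
    have hκ := S.B.hκ
    have hhp := S.B.hpos
    have hpi := Real.pi_lt_d2
    have h := D.slopeU (by nlinarith [hz.2])
    rw [(S.X0_eq z).1, (S.X0_eq z).2, tk0, e3]
    have e4 : Lx (z * hh b - β * r) (z * hh b - β * r + sx (β * r) (z * hh b - β * r))
        (sy (β * r) (z * hh b - β * r)) = sig (β * r) (z * hh b - β * r) := by
      unfold Lx sig
      have : z * hh b - β * r + sx (β * r) (z * hh b - β * r) - (z * hh b - β * r) = sx (β * r) (z * hh b - β * r) := by
        ring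
      rw [this]
    rw [e4] at h
    exact h
  s1 := by
    intro z hz
    have e1 : c20.num.qL = -(58 / 100) := by norm_num [c20, NumQ.num]
    have e2 : c20.num.qR = -(405 / 1000) := by norm_num [c20, NumQ.num]
    have e3 : c20.num.δ1 = 15 / 100 := by norm_num [c20, NumQ.num]
    rw [e1, e2] at hz
    have D := S.B.nw (ζ := z + 1) (by linarith [hz.1]) (by linarith [hz.2])
    have hβ := S.B.beta_le
    have hκ := S.B.hκ
    have hhp := S.B.hpos
    have hhl := S.B.h_le'
    have hpi := Real.pi_lt_d2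
    have h := D.slopeU (by nlinarith [hz.1, hz.2])
    rw [(S.X1_eq z).1, (S.X1_eq z).2, tk1, e3]
    have e4 : Lx ((z + 1) * hh b - β * r) ((z + 1) * hh b - β * r + sx (β * r) ((z + 1) * hh b - β * r))
        (sy (β * r) ((z + 1) * hh b - β * r)) = sig (β * r) ((z + 1) * hh b - β * r) := by
      unfold Lx sig
      have : (z + 1) * hh b - β * r + sx (β * r) ((z + 1) * hh b - β * r) - ((z + 1) * hh b - β * r) =
        sx (β * r) ((z + 1) * hh b - β * r) := by ring
      rw [this]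
    rw [e4] at h
    exact h.trans (by norm_num)

theorem hyp (S : Sel b β r M) : Hyp b β r (aM b M) (nM M) c20.num :=
  Hyp.of (by have h := S.B.hT; norm_num [c20, NumQ.num] at h ⊢; exact h) S.B.geoU S.B.geoL S.B.f1R S.B.mu20
    S.nearH S.slopeH S.farH S.momH

end Sel

/-- the windows exist -/
theorem exists_sel {b : ℕ} {β r : ℝ} (B : Big b β r) : ∃ M : ℕ, Sel b β r M := by
  have hpi := Real.pi_pos
  have hpi4 := Real.pi_lt_d4
  have hκ := B.hκ
  obtain ⟨M, hM⟩ : ∃ M : ℕ, M = ⌊(β * r - Real.pi) / (2 * Real.pi)⌋₊ := ⟨_, rfl⟩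
  have h0 : 0 ≤ (β * r - Real.pi) / (2 * Real.pi) := div_nonneg (by linarith) (by positivity)
  have h1 : (M : ℝ) ≤ (β * r - Real.pi) / (2 * Real.pi) := by rw [hM]; exact Nat.floor_le h0
  have h2 : (β * r - Real.pi) / (2 * Real.pi) < M + 1 := by rw [hM]; exact Nat.lt_floor_add_one _
  rw [le_div_iff₀ (by positivity)] at h1
  rw [div_lt_iff₀ (by positivity)] at h2
  refine ⟨M, B, ?_, by linarith, by linarith⟩
  by_contra hcon
  push Not at hcon
  have h3 : (M : ℝ) ≤ 1 := by exact_mod_cast (by omega : M ≤ 1)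
  nlinarith

/-- **THE CLASS `κ ≥ 20`** -/
theorem circ20 {b : ℕ} {p : ℤ} {β r : ℝ} (hb : 1 ≤ b) (hp : IsCoprime (b : ℤ) p) (hβ : 0 < β) (hr : 0 < r)
    (hκ : 20 ≤ β * r) (hT : 5441 / 1000 ≤ TT b β r) : Circ (2 * Real.pi * p / b + β) r := by
  obtain ⟨M, S⟩ := exists_sel ⟨hb, hβ, hr, hκ, hT⟩
  have hMb := S.Mb_pos
  have hbp := S.b_pos
  exact close hb hp hβ hr (by unfold nM; omega) (by unfold aM; omega)
    (by rw [nMb]; unfold aM; omega) S.hyp ok20

end Sok.R2.K20

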