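import Pool.Agent.Lib.MP_816dec_an.R2LineN

/-!
MP_816dec_an, row R2 (5), (6): the right lines of the classes b = 1, 2 (numbers of `R2Cls`).
-/

set_option autoImplicit false

open Set Filter Topology Real

namespace Sok

namespace R2

private theorem e1_1_6 {κ τ : ℝ} (hκ : 47 / 10 ≤ κ) (h0 : 0 ≤ τ) (hm : τ ≤ 11781 / 3125) : 199 / 200 ≤ lv κ τ :=
  lv_ge_num (κ₀ := 47 / 10) (y := 24181 / 25000) (Fl := 2630673 / 1000000) (Fh := 1315337 / 500000) (xl := 75107 / 50000) (xh := 30043 / 20000) (τm := 11781 / 3125) (θ := 57207 / 100000)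
    (by norm_num) (by norm_num) (by norm_num)
    (exp_bds (by norm_num) (by norm_num) (by norm_num [Finset.sum_range_succ, Nat.factorial])
      (by norm_num [Finset.sum_range_succ, Nat.factorial]))
    (by norm_num) (by norm_num) (by norm_num) (by norm_num) (by norm_num) (by norm_num) (by norm_num) (by norm_num)
    (by norm_num) (by norm_num) (by norm_num) (by norm_num) hκ h0 hm

private theorem e1_1_7 {κ τ : ℝ} (hκ : 47 / 10 ≤ κ) (h0 : 0 ≤ τ) (hm : τ ≤ 27489 / 6250) : 19 / 20 ≤ lv κ τ :=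
  lv_ge_num (κ₀ := 47 / 10) (y := 110607 / 100000) (Fl := 377807 / 125000) (Fh := 3022457 / 1000000) (xl := 109303 / 100000) (xh := 13663 / 12500) (τm := 27489 / 6250) (θ := 19783 / 25000)
    (by norm_num) (by norm_num) (by norm_num)
    (exp_bds (by norm_num) (by norm_num) (by norm_num [Finset.sum_range_succ, Nat.factorial])
      (by norm_num [Finset.sum_range_succ, Nat.factorial]))
    (by norm_num) (by norm_num) (by norm_num) (by norm_num) (by norm_num) (by norm_num) (by norm_num) (by norm_num)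
    (by norm_num) (by norm_num) (by norm_num) (by norm_num) hκ h0 hm

/-- class 1_1: `b = 1`, `κ ≥ 47 / 10` -/
theorem ld1_1 {κ h : ℝ} (hκ : 47 / 10 ≤ κ) (h0 : 0 < h) (hh : h ≤ 2 * π / 1) :
    LineData κ h (7 / 10) (173 / 250) (241 / 1000) (173 / 250) (241 / 1000) (-29 / 50) (-41 / 100) (1729 / 10000) (169 / 200) := by
  have hk1 : 1 ≤ κ := by linarith
  have hp4 := Real.pi_lt_d4
  have hp3 := Real.pi_gt_d2
  have hhq : h ≤ 3927 / 625 := by
    refine hh.trans ?_
    rw [div_le_iff₀ (by norm_num)]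
    linarith
  have L1 : Line κ h (1 / 10) (199 / 2000) (199 / 40000) := Line.stepN (l := 199 / 200) (τm := 11781 / 3125) hk1 h0.le (Line.zero hk1) (by norm_num) (by norm_num)
    (fun τ a b => e1_1_6 hκ a b) (by linarith) (by linarith) (by norm_num) (by norm_num)
  have L2 : Line κ h (1 / 5) (199 / 1000) (199 / 10000) := Line.stepN (l := 199 / 200) (τm := 11781 / 3125) hk1 h0.le L1 (by norm_num) (by norm_num)
    (fun τ a b => e1_1_6 hκ a b) (by linarith) (by linarith) (by norm_num) (by norm_num)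
  have L3 : Line κ h (3 / 10) (597 / 2000) (1791 / 40000) := Line.stepN (l := 199 / 200) (τm := 11781 / 3125) hk1 h0.le L2 (by norm_num) (by norm_num)
    (fun τ a b => e1_1_6 hκ a b) (by linarith) (by linarith) (by norm_num) (by norm_num)
  have L4 : Line κ h (2 / 5) (199 / 500) (199 / 2500) := Line.stepN (l := 199 / 200) (τm := 11781 / 3125) hk1 h0.le L3 (by norm_num) (by norm_num)
    (fun τ a b => e1_1_6 hκ a b) (by linarith) (by linarith) (by norm_num) (by norm_num)
  have L5 : Line κ h (1 / 2) (199 / 400) (199 / 1600) := Line.stepN (l := 199 / 200) (τm := 11781 / 3125) hk1 h0.le L4 (by norm_num) (by norm_num)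
    (fun τ a b => e1_1_6 hκ a b) (by linarith) (by linarith) (by norm_num) (by norm_num)
  have L6 : Line κ h (3 / 5) (597 / 1000) (1791 / 10000) := Line.stepN (l := 199 / 200) (τm := 11781 / 3125) hk1 h0.le L5 (by norm_num) (by norm_num)
    (fun τ a b => e1_1_6 hκ a b) (by linarith) (by linarith) (by norm_num) (by norm_num)
  have L7 : Line κ h (7 / 10) (173 / 250) (4817 / 20000) := Line.stepN (l := 19 / 20) (τm := 27489 / 6250) hk1 h0.le L6 (by norm_num) (by norm_num)
    (fun τ a b => e1_1_7 hκ a b) (by linarith) (by linarith) (by norm_num) (by norm_num)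
  have m1 : ∀ z ∈ Icc (-29 / 50 : ℝ) (-1 / 2), 169 / 200 ≤ yv κ ((z + 1) * h) / h - yv κ (z * h) / h :=
    mu_piece (a := 2 / 5) (S := 199 / 500) (C := 199 / 2500) (l := 199 / 200) (τm := 11781 / 3125) (H₁ := 66843 / 50000) (mp := 214687 / 500000) (mq := 382899 / 1000000) hk1 h0 (by linarith)
      L4 (by norm_num) (by norm_num) (by norm_num) (fun τ a b => e1_1_6 hκ a b) (by linarith) (by linarith)
      (exp_le_bd (by norm_num) (by norm_num) (by norm_num [Finset.sum_range_succ, Nat.factorial])) (exp_le_bd (by norm_num) (by norm_num) (by norm_num [Finset.sum_range_succ, Nat.factorial]))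
      (by norm_num) (by norm_num)
  have m2 : ∀ z ∈ Icc (-1 / 2 : ℝ) (-41 / 100), 169 / 200 ≤ yv κ ((z + 1) * h) / h - yv κ (z * h) / h :=
    mu_piece (a := 1 / 2) (S := 199 / 400) (C := 199 / 1600) (l := 199 / 200) (τm := 11781 / 3125) (H₁ := 66843 / 50000) (mp := 382899 / 1000000) (mq := 5108 / 15625) hk1 h0 (by linarith)
      L5 (by norm_num) (by norm_num) (by norm_num) (fun τ a b => e1_1_6 hκ a b) (by linarith) (by linarith)
      (exp_le_bd (by norm_num) (by norm_num) (by norm_num [Finset.sum_range_succ, Nat.factorial])) (exp_le_bd (by norm_num) (by norm_num) (by norm_num [Finset.sum_range_succ, Nat.factorial]))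
      (by norm_num) (by norm_num)
  exact ⟨L7.weaken h0.le (by norm_num) (by norm_num), L7.weaken h0.le (by norm_num) (by norm_num),
    Line.f1R (τm := 370709 / 100000) hk1 h0 L6 (by norm_num) (by linarith) (by linarith) (by norm_num), mu_glue m1 m2⟩

/-- class 1_1: line at `1 + qL`, curvature up to `1 + qR` -/
theorem lr1_1 {κ h : ℝ} (hκ : 47 / 10 ≤ κ) (h0 : 0 < h) (hh : h ≤ 2 * π / 1) :
    Line κ h (1 + (-29 / 50)) (4179 / 10000) (87759 / 1000000) ∧ (∀ τ, 0 ≤ τ → τ ≤ 11781 / 3125 → 199 / 200 ≤ lv κ τ) ∧ (1 + (-41 / 100)) * h ≤ (11781 / 3125) ∧ (11781 / 3125) < κ + π / 2 := by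
  have hk1 : 1 ≤ κ := by linarith
  have hp4 := Real.pi_lt_d4
  have hp3 := Real.pi_gt_d2
  have hhq : h ≤ 3927 / 625 := by
    refine hh.trans ?_
    rw [div_le_iff₀ (by norm_num)]
    linarith
  have L1 : Line κ h (1 / 10) (199 / 2000) (199 / 40000) := Line.stepN (l := 199 / 200) (τm := 11781 / 3125) hk1 h0.le (Line.zero hk1) (by norm_num) (by norm_num)
    (fun τ a b => e1_1_6 hκ a b) (by linarith) (by linarith) (by norm_num) (by norm_num)
  have L2 : Line κ h (1 / 5) (199 / 1000) (199 / 10000) := Line.stepN (l := 199 / 200) (τm := 11781 / 3125) hk1 h0.le L1 (by norm_num) (by norm_num)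
    (fun τ a b => e1_1_6 hκ a b) (by linarith) (by linarith) (by norm_num) (by norm_num)
  have L3 : Line κ h (3 / 10) (597 / 2000) (1791 / 40000) := Line.stepN (l := 199 / 200) (τm := 11781 / 3125) hk1 h0.le L2 (by norm_num) (by norm_num)
    (fun τ a b => e1_1_6 hκ a b) (by linarith) (by linarith) (by norm_num) (by norm_num)
  have L4 : Line κ h (2 / 5) (199 / 500) (199 / 2500) := Line.stepN (l := 199 / 200) (τm := 11781 / 3125) hk1 h0.le L3 (by norm_num) (by norm_num)
    (fun τ a b => e1_1_6 hκ a b) (by linarith) (by linarith) (by norm_num) (by norm_num)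
  exact ⟨Line.stepN (l := 199 / 200) (τm := 11781 / 3125) hk1 h0.le L4 (by norm_num) (by norm_num)
    (fun τ a b => e1_1_6 hκ a b) (by linarith) (by linarith) (by norm_num) (by norm_num), fun τ a b => e1_1_6 hκ a b,
    by linarith, by linarith⟩

private theorem e1_2_8 {κ τ : ℝ} (hκ : 28 / 5 ≤ κ) (h0 : 0 ≤ τ) (hm : τ ≤ 15708 / 3125) : 199 / 200 ≤ lv κ τ :=
  lv_ge_num (κ₀ := 28 / 5) (y := 5823 / 5000) (Fl := 20029 / 6250) (Fh := 3204641 / 1000000) (xl := 65141 / 50000) (xh := 130283 / 100000) (τm := 15708 / 3125) (θ := 72943 / 100000)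
    (by norm_num) (by norm_num) (by norm_num)
    (exp_bds (by norm_num) (by norm_num) (by norm_num [Finset.sum_range_succ, Nat.factorial])
      (by norm_num [Finset.sum_range_succ, Nat.factorial]))
    (by norm_num) (by norm_num) (by norm_num) (by norm_num) (by norm_num) (by norm_num) (by norm_num) (by norm_num)
    (by norm_num) (by norm_num) (by norm_num) (by norm_num) hκ h0 hm

/-- class 1_2: `b = 1`, `κ ≥ 28 / 5` -/
theorem ld1_2 {κ h : ℝ} (hκ : 28 / 5 ≤ κ) (h0 : 0 < h) (hh : h ≤ 2 * π / 1) :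
    LineData κ h (4 / 5) (199 / 250) (637 / 2000) (1393 / 2000) (61 / 250) (-117 / 200) (-37 / 100) (123 / 625) (43 / 50) := by
  have hk1 : 1 ≤ κ := by linarith
  have hp4 := Real.pi_lt_d4
  have hp3 := Real.pi_gt_d2
  have hhq : h ≤ 3927 / 625 := by
    refine hh.trans ?_
    rw [div_le_iff₀ (by norm_num)]
    linarith
  have L1 : Line κ h (1 / 10) (199 / 2000) (199 / 40000) := Line.stepN (l := 199 / 200) (τm := 15708 / 3125) hk1 h0.le (Line.zero hk1) (by norm_num) (by norm_num)
    (fun τ a b => e1_2_8 hκ a b) (by linarith) (by linarith) (by norm_num) (by norm_num)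
  have L2 : Line κ h (1 / 5) (199 / 1000) (199 / 10000) := Line.stepN (l := 199 / 200) (τm := 15708 / 3125) hk1 h0.le L1 (by norm_num) (by norm_num)
    (fun τ a b => e1_2_8 hκ a b) (by linarith) (by linarith) (by norm_num) (by norm_num)
  have L3 : Line κ h (3 / 10) (597 / 2000) (1791 / 40000) := Line.stepN (l := 199 / 200) (τm := 15708 / 3125) hk1 h0.le L2 (by norm_num) (by norm_num)
    (fun τ a b => e1_2_8 hκ a b) (by linarith) (by linarith) (by norm_num) (by norm_num)
  have L4 : Line κ h (2 / 5) (199 / 500) (199 / 2500) := Line.stepN (l := 199 / 200) (τm := 15708 / 3125) hk1 h0.le L3 (by norm_num) (by norm_num)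
    (fun τ a b => e1_2_8 hκ a b) (by linarith) (by linarith) (by norm_num) (by norm_num)
  have L5 : Line κ h (1 / 2) (199 / 400) (199 / 1600) := Line.stepN (l := 199 / 200) (τm := 15708 / 3125) hk1 h0.le L4 (by norm_num) (by norm_num)
    (fun τ a b => e1_2_8 hκ a b) (by linarith) (by linarith) (by norm_num) (by norm_num)
  have L6 : Line κ h (3 / 5) (597 / 1000) (1791 / 10000) := Line.stepN (l := 199 / 200) (τm := 15708 / 3125) hk1 h0.le L5 (by norm_num) (by norm_num)
    (fun τ a b => e1_2_8 hκ a b) (by linarith) (by linarith) (by norm_num) (by norm_num)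
  have L7 : Line κ h (7 / 10) (1393 / 2000) (9751 / 40000) := Line.stepN (l := 199 / 200) (τm := 15708 / 3125) hk1 h0.le L6 (by norm_num) (by norm_num)
    (fun τ a b => e1_2_8 hκ a b) (by linarith) (by linarith) (by norm_num) (by norm_num)
  have L8 : Line κ h (4 / 5) (199 / 250) (199 / 625) := Line.stepN (l := 199 / 200) (τm := 15708 / 3125) hk1 h0.le L7 (by norm_num) (by norm_num)
    (fun τ a b => e1_2_8 hκ a b) (by linarith) (by linarith) (by norm_num) (by norm_num)
  have m1 : ∀ z ∈ Icc (-117 / 200 : ℝ) (-1 / 2), 43 / 50 ≤ yv κ ((z + 1) * h) / h - yv κ (z * h) / h :=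
    mu_piece (a := 2 / 5) (S := 199 / 500) (C := 199 / 2500) (l := 199 / 200) (τm := 15708 / 3125) (H₁ := 561 / 500) (mp := 449757 / 1000000) (mq := 49613 / 125000) hk1 h0 (by linarith)
      L4 (by norm_num) (by norm_num) (by norm_num) (fun τ a b => e1_2_8 hκ a b) (by linarith) (by linarith)
      (exp_le_bd (by norm_num) (by norm_num) (by norm_num [Finset.sum_range_succ, Nat.factorial])) (exp_le_bd (by norm_num) (by norm_num) (by norm_num [Finset.sum_range_succ, Nat.factorial]))
      (by norm_num) (by norm_num)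
  have m2 : ∀ z ∈ Icc (-1 / 2 : ℝ) (-2 / 5), 43 / 50 ≤ yv κ ((z + 1) * h) / h - yv κ (z * h) / h :=
    mu_piece (a := 1 / 2) (S := 199 / 400) (C := 199 / 1600) (l := 199 / 200) (τm := 15708 / 3125) (H₁ := 561 / 500) (mp := 49613 / 125000) (mq := 330423 / 1000000) hk1 h0 (by linarith)
      L5 (by norm_num) (by norm_num) (by norm_num) (fun τ a b => e1_2_8 hκ a b) (by linarith) (by linarith)
      (exp_le_bd (by norm_num) (by norm_num) (by norm_num [Finset.sum_range_succ, Nat.factorial])) (exp_le_bd (by norm_num) (by norm_num) (by norm_num [Finset.sum_range_succ, Nat.factorial]))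
      (by norm_num) (by norm_num)
  have m3 : ∀ z ∈ Icc (-2 / 5 : ℝ) (-37 / 100), 43 / 50 ≤ yv κ ((z + 1) * h) / h - yv κ (z * h) / h :=
    mu_piece (a := 3 / 5) (S := 597 / 1000) (C := 1791 / 10000) (l := 199 / 200) (τm := 15708 / 3125) (H₁ := 561 / 500) (mp := 330423 / 1000000) (mq := 9671 / 31250) hk1 h0 (by linarith)
      L6 (by norm_num) (by norm_num) (by norm_num) (fun τ a b => e1_2_8 hκ a b) (by linarith) (by linarith)
      (exp_le_bd (by norm_num) (by norm_num) (by norm_num [Finset.sum_range_succ, Nat.factorial])) (exp_le_bd (by norm_num) (by norm_num) (by norm_num [Finset.sum_range_succ, Nat.factorial]))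
      (by norm_num) (by norm_num)
  exact ⟨L8.weaken h0.le (by norm_num) (by norm_num), L7.weaken h0.le (by norm_num) (by norm_num),
    Line.f1R (τm := 197921 / 50000) hk1 h0 L6 (by norm_num) (by linarith) (by linarith) (by norm_num), mu_glue (mu_glue m1 m2) m3⟩

/-- class 1_2: line at `1 + qL`, curvature up to `1 + qR` -/
theorem lr1_2 {κ h : ℝ} (hκ : 28 / 5 ≤ κ) (h0 : 0 < h) (hh : h ≤ 2 * π / 1) :
    Line κ h (1 + (-117 / 200)) (16517 / 40000) (1370911 / 16000000) ∧ (∀ τ, 0 ≤ τ → τ ≤ 15708 / 3125 → 199 / 200 ≤ lv κ τ) ∧ (1 + (-37 / 100)) * h ≤ (15708 / 3125) ∧ (15708 / 3125) < κ + π / 2 := by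
  have hk1 : 1 ≤ κ := by linarith
  have hp4 := Real.pi_lt_d4
  have hp3 := Real.pi_gt_d2
  have hhq : h ≤ 3927 / 625 := by
    refine hh.trans ?_
    rw [div_le_iff₀ (by norm_num)]
    linarith
  have L1 : Line κ h (1 / 10) (199 / 2000) (199 / 40000) := Line.stepN (l := 199 / 200) (τm := 15708 / 3125) hk1 h0.le (Line.zero hk1) (by norm_num) (by norm_num)
    (fun τ a b => e1_2_8 hκ a b) (by linarith) (by linarith) (by norm_num) (by norm_num)
  have L2 : Line κ h (1 / 5) (199 / 1000) (199 / 10000) := Line.stepN (l := 199 / 200) (τm := 15708 / 3125) hk1 h0.le L1 (by norm_num) (by norm_num)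
    (fun τ a b => e1_2_8 hκ a b) (by linarith) (by linarith) (by norm_num) (by norm_num)
  have L3 : Line κ h (3 / 10) (597 / 2000) (1791 / 40000) := Line.stepN (l := 199 / 200) (τm := 15708 / 3125) hk1 h0.le L2 (by norm_num) (by norm_num)
    (fun τ a b => e1_2_8 hκ a b) (by linarith) (by linarith) (by norm_num) (by norm_num)
  have L4 : Line κ h (2 / 5) (199 / 500) (199 / 2500) := Line.stepN (l := 199 / 200) (τm := 15708 / 3125) hk1 h0.le L3 (by norm_num) (by norm_num)
    (fun τ a b => e1_2_8 hκ a b) (by linarith) (by linarith) (by norm_num) (by norm_num)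
  exact ⟨Line.stepN (l := 199 / 200) (τm := 15708 / 3125) hk1 h0.le L4 (by norm_num) (by norm_num)
    (fun τ a b => e1_2_8 hκ a b) (by linarith) (by linarith) (by norm_num) (by norm_num), fun τ a b => e1_2_8 hκ a b,
    by linarith, by linarith⟩

private theorem e1_3_8 {κ τ : ℝ} (hκ : 69 / 10 ≤ κ) (h0 : 0 ≤ τ) (hm : τ ≤ 15708 / 3125) : 199 / 200 ≤ lv κ τ :=
  lv_ge_num (κ₀ := 69 / 10) (y := 101351 / 100000) (Fl := 551051 / 200000) (Fh := 344407 / 125000) (xl := 45801 / 20000) (xh := 114503 / 50000) (τm := 15708 / 3125) (θ := 8333 / 20000)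
    (by norm_num) (by norm_num) (by norm_num)
    (exp_bds (by norm_num) (by norm_num) (by norm_num [Finset.sum_range_succ, Nat.factorial])
      (by norm_num [Finset.sum_range_succ, Nat.factorial]))
    (by norm_num) (by norm_num) (by norm_num) (by norm_num) (by norm_num) (by norm_num) (by norm_num) (by norm_num)
    (by norm_num) (by norm_num) (by norm_num) (by norm_num) hκ h0 hm

/-- class 1_3: `b = 1`, `κ ≥ 69 / 10` -/
theorem ld1_3 {κ h : ℝ} (hκ : 69 / 10 ≤ κ) (h0 : 0 < h) (hh : h ≤ 2 * π / 1) :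
    LineData κ h (4 / 5) (199 / 250) (637 / 2000) (1393 / 2000) (61 / 250) (-59 / 100) (-71 / 200) (2057 / 10000) (22 / 25) := by
  have hk1 : 1 ≤ κ := by linarith
  have hp4 := Real.pi_lt_d4
  have hp3 := Real.pi_gt_d2
  have hhq : h ≤ 3927 / 625 := by
    refine hh.trans ?_
    rw [div_le_iff₀ (by norm_num)]
    linarith
  have L1 : Line κ h (1 / 10) (199 / 2000) (199 / 40000) := Line.stepN (l := 199 / 200) (τm := 15708 / 3125) hk1 h0.le (Line.zero hk1) (by norm_num) (by norm_num)
    (fun τ a b => e1_3_8 hκ a b) (by linarith) (by linarith) (by norm_num) (by norm_num)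
  have L2 : Line κ h (1 / 5) (199 / 1000) (199 / 10000) := Line.stepN (l := 199 / 200) (τm := 15708 / 3125) hk1 h0.le L1 (by norm_num) (by norm_num)
    (fun τ a b => e1_3_8 hκ a b) (by linarith) (by linarith) (by norm_num) (by norm_num)
  have L3 : Line κ h (3 / 10) (597 / 2000) (1791 / 40000) := Line.stepN (l := 199 / 200) (τm := 15708 / 3125) hk1 h0.le L2 (by norm_num) (by norm_num)
    (fun τ a b => e1_3_8 hκ a b) (by linarith) (by linarith) (by norm_num) (by norm_num)
  have L4 : Line κ h (2 / 5) (199 / 500) (199 / 2500) := Line.stepN (l := 199 / 200) (τm := 15708 / 3125) hk1 h0.le L3 (by norm_num) (by norm_num)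
    (fun τ a b => e1_3_8 hκ a b) (by linarith) (by linarith) (by norm_num) (by norm_num)
  have L5 : Line κ h (1 / 2) (199 / 400) (199 / 1600) := Line.stepN (l := 199 / 200) (τm := 15708 / 3125) hk1 h0.le L4 (by norm_num) (by norm_num)
    (fun τ a b => e1_3_8 hκ a b) (by linarith) (by linarith) (by norm_num) (by norm_num)
  have L6 : Line κ h (3 / 5) (597 / 1000) (1791 / 10000) := Line.stepN (l := 199 / 200) (τm := 15708 / 3125) hk1 h0.le L5 (by norm_num) (by norm_num)
    (fun τ a b => e1_3_8 hκ a b) (by linarith) (by linarith) (by norm_num) (by norm_num)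
  have L7 : Line κ h (7 / 10) (1393 / 2000) (9751 / 40000) := Line.stepN (l := 199 / 200) (τm := 15708 / 3125) hk1 h0.le L6 (by norm_num) (by norm_num)
    (fun τ a b => e1_3_8 hκ a b) (by linarith) (by linarith) (by norm_num) (by norm_num)
  have L8 : Line κ h (4 / 5) (199 / 250) (199 / 625) := Line.stepN (l := 199 / 200) (τm := 15708 / 3125) hk1 h0.le L7 (by norm_num) (by norm_num)
    (fun τ a b => e1_3_8 hκ a b) (by linarith) (by linarith) (by norm_num) (by norm_num)
  have m1 : ∀ z ∈ Icc (-59 / 100 : ℝ) (-1 / 2), 22 / 25 ≤ yv κ ((z + 1) * h) / h - yv κ (z * h) / h :=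
    mu_piece (a := 2 / 5) (S := 199 / 500) (C := 199 / 2500) (l := 199 / 200) (τm := 15708 / 3125) (H₁ := 91061 / 100000) (mp := 118053 / 250000) (mq := 25753 / 62500) hk1 h0 (by linarith)
      L4 (by norm_num) (by norm_num) (by norm_num) (fun τ a b => e1_3_8 hκ a b) (by linarith) (by linarith)
      (exp_le_bd (by norm_num) (by norm_num) (by norm_num [Finset.sum_range_succ, Nat.factorial])) (exp_le_bd (by norm_num) (by norm_num) (by norm_num [Finset.sum_range_succ, Nat.factorial]))
      (by norm_num) (by norm_num)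
  have m2 : ∀ z ∈ Icc (-1 / 2 : ℝ) (-2 / 5), 22 / 25 ≤ yv κ ((z + 1) * h) / h - yv κ (z * h) / h :=
    mu_piece (a := 1 / 2) (S := 199 / 400) (C := 199 / 1600) (l := 199 / 200) (τm := 15708 / 3125) (H₁ := 91061 / 100000) (mp := 25753 / 62500) (mq := 34109 / 100000) hk1 h0 (by linarith)
      L5 (by norm_num) (by norm_num) (by norm_num) (fun τ a b => e1_3_8 hκ a b) (by linarith) (by linarith)
      (exp_le_bd (by norm_num) (by norm_num) (by norm_num [Finset.sum_range_succ, Nat.factorial])) (exp_le_bd (by norm_num) (by norm_num) (by norm_num [Finset.sum_range_succ, Nat.factorial]))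
      (by norm_num) (by norm_num)
  have m3 : ∀ z ∈ Icc (-2 / 5 : ℝ) (-71 / 200), 22 / 25 ≤ yv κ ((z + 1) * h) / h - yv κ (z * h) / h :=
    mu_piece (a := 3 / 5) (S := 597 / 1000) (C := 1791 / 10000) (l := 199 / 200) (τm := 15708 / 3125) (H₁ := 91061 / 100000) (mp := 34109 / 100000) (mq := 307599 / 1000000) hk1 h0 (by linarith)
      L6 (by norm_num) (by norm_num) (by norm_num) (fun τ a b => e1_3_8 hκ a b) (by linarith) (by linarith)
      (exp_le_bd (by norm_num) (by norm_num) (by norm_num [Finset.sum_range_succ, Nat.factorial])) (exp_le_bd (by norm_num) (by norm_num) (by norm_num [Finset.sum_range_succ, Nat.factorial]))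
      (by norm_num) (by norm_num)
  exact ⟨L8.weaken h0.le (by norm_num) (by norm_num), L7.weaken h0.le (by norm_num) (by norm_num),
    Line.f1R (τm := 405267 / 100000) hk1 h0 L6 (by norm_num) (by linarith) (by linarith) (by norm_num), mu_glue (mu_glue m1 m2) m3⟩

/-- class 1_3: line at `1 + qL`, curvature up to `1 + qR` -/
theorem lr1_3 {κ h : ℝ} (hκ : 69 / 10 ≤ κ) (h0 : 0 < h) (hh : h ≤ 2 * π / 1) :
    Line κ h (1 + (-59 / 100)) (8159 / 20000) (334519 / 4000000) ∧ (∀ τ, 0 ≤ τ → τ ≤ 15708 / 3125 → 199 / 200 ≤ lv κ τ) ∧ (1 + (-71 / 200)) * h ≤ (15708 / 3125) ∧ (15708 / 3125) < κ + π / 2 := by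
  have hk1 : 1 ≤ κ := by linarith
  have hp4 := Real.pi_lt_d4
  have hp3 := Real.pi_gt_d2
  have hhq : h ≤ 3927 / 625 := by
    refine hh.trans ?_
    rw [div_le_iff₀ (by norm_num)]
    linarith
  have L1 : Line κ h (1 / 10) (199 / 2000) (199 / 40000) := Line.stepN (l := 199 / 200) (τm := 15708 / 3125) hk1 h0.le (Line.zero hk1) (by norm_num) (by norm_num)
    (fun τ a b => e1_3_8 hκ a b) (by linarith) (by linarith) (by norm_num) (by norm_num)
  have L2 : Line κ h (1 / 5) (199 / 1000) (199 / 10000) := Line.stepN (l := 199 / 200) (τm := 15708 / 3125) hk1 h0.le L1 (by norm_num) (by norm_num)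
    (fun τ a b => e1_3_8 hκ a b) (by linarith) (by linarith) (by norm_num) (by norm_num)
  have L3 : Line κ h (3 / 10) (597 / 2000) (1791 / 40000) := Line.stepN (l := 199 / 200) (τm := 15708 / 3125) hk1 h0.le L2 (by norm_num) (by norm_num)
    (fun τ a b => e1_3_8 hκ a b) (by linarith) (by linarith) (by norm_num) (by norm_num)
  have L4 : Line κ h (2 / 5) (199 / 500) (199 / 2500) := Line.stepN (l := 199 / 200) (τm := 15708 / 3125) hk1 h0.le L3 (by norm_num) (by norm_num)
    (fun τ a b => e1_3_8 hκ a b) (by linarith) (by linarith) (by norm_num) (by norm_num)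
  exact ⟨Line.stepN (l := 199 / 200) (τm := 15708 / 3125) hk1 h0.le L4 (by norm_num) (by norm_num)
    (fun τ a b => e1_3_8 hκ a b) (by linarith) (by linarith) (by norm_num) (by norm_num), fun τ a b => e1_3_8 hκ a b,
    by linarith, by linarith⟩

private theorem e1_4_8 {κ τ : ℝ} (hκ : 77 / 10 ≤ κ) (h0 : 0 ≤ τ) (hm : τ ≤ 15708 / 3125) : 199 / 200 ≤ lv κ τ :=
  lv_ge_num (κ₀ := 77 / 10) (y := 22699 / 25000) (Fl := 2479259 / 1000000) (Fh := 123963 / 50000) (xl := 18563 / 6250) (xh := 297009 / 100000) (τm := 15708 / 3125) (θ := 29667 / 100000)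
    (by norm_num) (by norm_num) (by norm_num)
    (exp_bds (by norm_num) (by norm_num) (by norm_num [Finset.sum_range_succ, Nat.factorial])
      (by norm_num [Finset.sum_range_succ, Nat.factorial]))
    (by norm_num) (by norm_num) (by norm_num) (by norm_num) (by norm_num) (by norm_num) (by norm_num) (by norm_num)
    (by norm_num) (by norm_num) (by norm_num) (by norm_num) hκ h0 hm

/-- class 1_4: `b = 1`, `κ ≥ 77 / 10` -/
theorem ld1_4 {κ h : ℝ} (hκ : 77 / 10 ≤ κ) (h0 : 0 < h) (hh : h ≤ 2 * π / 1) :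
    LineData κ h (4 / 5) (199 / 250) (637 / 2000) (1393 / 2000) (61 / 250) (-119 / 200) (-17 / 50) (2157 / 10000) (177 / 200) := by
  have hk1 : 1 ≤ κ := by linarith
  have hp4 := Real.pi_lt_d4
  have hp3 := Real.pi_gt_d2
  have hhq : h ≤ 3927 / 625 := by
    refine hh.trans ?_
    rw [div_le_iff₀ (by norm_num)]
    linarith
  have L1 : Line κ h (1 / 10) (199 / 2000) (199 / 40000) := Line.stepN (l := 199 / 200) (τm := 15708 / 3125) hk1 h0.le (Line.zero hk1) (by norm_num) (by norm_num)
    (fun τ a b => e1_4_8 hκ a b) (by linarith) (by linarith) (by norm_num) (by norm_num)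
  have L2 : Line κ h (1 / 5) (199 / 1000) (199 / 10000) := Line.stepN (l := 199 / 200) (τm := 15708 / 3125) hk1 h0.le L1 (by norm_num) (by norm_num)
    (fun τ a b => e1_4_8 hκ a b) (by linarith) (by linarith) (by norm_num) (by norm_num)
  have L3 : Line κ h (3 / 10) (597 / 2000) (1791 / 40000) := Line.stepN (l := 199 / 200) (τm := 15708 / 3125) hk1 h0.le L2 (by norm_num) (by norm_num)
    (fun τ a b => e1_4_8 hκ a b) (by linarith) (by linarith) (by norm_num) (by norm_num)
  have L4 : Line κ h (2 / 5) (199 / 500) (199 / 2500) := Line.stepN (l := 199 / 200) (τm := 15708 / 3125) hk1 h0.le L3 (by norm_num) (by norm_num)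
    (fun τ a b => e1_4_8 hκ a b) (by linarith) (by linarith) (by norm_num) (by norm_num)
  have L5 : Line κ h (1 / 2) (199 / 400) (199 / 1600) := Line.stepN (l := 199 / 200) (τm := 15708 / 3125) hk1 h0.le L4 (by norm_num) (by norm_num)
    (fun τ a b => e1_4_8 hκ a b) (by linarith) (by linarith) (by norm_num) (by norm_num)
  have L6 : Line κ h (3 / 5) (597 / 1000) (1791 / 10000) := Line.stepN (l := 199 / 200) (τm := 15708 / 3125) hk1 h0.le L5 (by norm_num) (by norm_num)
    (fun τ a b => e1_4_8 hκ a b) (by linarith) (by linarith) (by norm_num) (by norm_num)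
  have L7 : Line κ h (7 / 10) (1393 / 2000) (9751 / 40000) := Line.stepN (l := 199 / 200) (τm := 15708 / 3125) hk1 h0.le L6 (by norm_num) (by norm_num)
    (fun τ a b => e1_4_8 hκ a b) (by linarith) (by linarith) (by norm_num) (by norm_num)
  have L8 : Line κ h (4 / 5) (199 / 250) (199 / 625) := Line.stepN (l := 199 / 200) (τm := 15708 / 3125) hk1 h0.le L7 (by norm_num) (by norm_num)
    (fun τ a b => e1_4_8 hκ a b) (by linarith) (by linarith) (by norm_num) (by norm_num)
  have m1 : ∀ z ∈ Icc (-119 / 200 : ℝ) (-1 / 2), 177 / 200 ≤ yv κ ((z + 1) * h) / h - yv κ (z * h) / h :=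
    mu_piece (a := 2 / 5) (S := 199 / 500) (C := 199 / 2500) (l := 199 / 200) (τm := 15708 / 3125) (H₁ := 102 / 125) (mp := 97001 / 200000) (mq := 209663 / 500000) hk1 h0 (by linarith)
      L4 (by norm_num) (by norm_num) (by norm_num) (fun τ a b => e1_4_8 hκ a b) (by linarith) (by linarith)
      (exp_le_bd (by norm_num) (by norm_num) (by norm_num [Finset.sum_range_succ, Nat.factorial])) (exp_le_bd (by norm_num) (by norm_num) (by norm_num [Finset.sum_range_succ, Nat.factorial]))
      (by norm_num) (by norm_num)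
  have m2 : ∀ z ∈ Icc (-1 / 2 : ℝ) (-2 / 5), 177 / 200 ≤ yv κ ((z + 1) * h) / h - yv κ (z * h) / h :=
    mu_piece (a := 1 / 2) (S := 199 / 400) (C := 199 / 1600) (l := 199 / 200) (τm := 15708 / 3125) (H₁ := 102 / 125) (mp := 209663 / 500000) (mq := 173081 / 500000) hk1 h0 (by linarith)
      L5 (by norm_num) (by norm_num) (by norm_num) (fun τ a b => e1_4_8 hκ a b) (by linarith) (by linarith)
      (exp_le_bd (by norm_num) (by norm_num) (by norm_num [Finset.sum_range_succ, Nat.factorial])) (exp_le_bd (by norm_num) (by norm_num) (by norm_num [Finset.sum_range_succ, Nat.factorial]))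
      (by norm_num) (by norm_num)
  have m3 : ∀ z ∈ Icc (-2 / 5 : ℝ) (-17 / 50), 177 / 200 ≤ yv κ ((z + 1) * h) / h - yv κ (z * h) / h :=
    mu_piece (a := 3 / 5) (S := 597 / 1000) (C := 1791 / 10000) (l := 199 / 200) (τm := 15708 / 3125) (H₁ := 102 / 125) (mp := 173081 / 500000) (mq := 300071 / 1000000) hk1 h0 (by linarith)
      L6 (by norm_num) (by norm_num) (by norm_num) (fun τ a b => e1_4_8 hκ a b) (by linarith) (by linarith)
      (exp_le_bd (by norm_num) (by norm_num) (by norm_num [Finset.sum_range_succ, Nat.factorial])) (exp_le_bd (by norm_num) (by norm_num) (by norm_num [Finset.sum_range_succ, Nat.factorial]))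
      (by norm_num) (by norm_num)
  exact ⟨L8.weaken h0.le (by norm_num) (by norm_num), L7.weaken h0.le (by norm_num) (by norm_num),
    Line.f1R (τm := 103673 / 25000) hk1 h0 L7 (by norm_num) (by linarith) (by linarith) (by norm_num), mu_glue (mu_glue m1 m2) m3⟩

/-- class 1_4: line at `1 + qL`, curvature up to `1 + qR` -/
theorem lr1_4 {κ h : ℝ} (hκ : 77 / 10 ≤ κ) (h0 : 0 < h) (hh : h ≤ 2 * π / 1) :
    Line κ h (1 + (-119 / 200)) (16119 / 40000) (1305639 / 16000000) ∧ (∀ τ, 0 ≤ τ → τ ≤ 15708 / 3125 → 199 / 200 ≤ lv κ τ) ∧ (1 + (-17 / 50)) * h ≤ (15708 / 3125) ∧ (15708 / 3125) < κ + π / 2 := by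
  have hk1 : 1 ≤ κ := by linarith
  have hp4 := Real.pi_lt_d4
  have hp3 := Real.pi_gt_d2
  have hhq : h ≤ 3927 / 625 := by
    refine hh.trans ?_
    rw [div_le_iff₀ (by norm_num)]
    linarith
  have L1 : Line κ h (1 / 10) (199 / 2000) (199 / 40000) := Line.stepN (l := 199 / 200) (τm := 15708 / 3125) hk1 h0.le (Line.zero hk1) (by norm_num) (by norm_num)
    (fun τ a b => e1_4_8 hκ a b) (by linarith) (by linarith) (by norm_num) (by norm_num)
  have L2 : Line κ h (1 / 5) (199 / 1000) (199 / 10000) := Line.stepN (l := 199 / 200) (τm := 15708 / 3125) hk1 h0.le L1 (by norm_num) (by norm_num)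
    (fun τ a b => e1_4_8 hκ a b) (by linarith) (by linarith) (by norm_num) (by norm_num)
  have L3 : Line κ h (3 / 10) (597 / 2000) (1791 / 40000) := Line.stepN (l := 199 / 200) (τm := 15708 / 3125) hk1 h0.le L2 (by norm_num) (by norm_num)
    (fun τ a b => e1_4_8 hκ a b) (by linarith) (by linarith) (by norm_num) (by norm_num)
  have L4 : Line κ h (2 / 5) (199 / 500) (199 / 2500) := Line.stepN (l := 199 / 200) (τm := 15708 / 3125) hk1 h0.le L3 (by norm_num) (by norm_num)
    (fun τ a b => e1_4_8 hκ a b) (by linarith) (by linarith) (by norm_num) (by norm_num)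
  exact ⟨Line.stepN (l := 199 / 200) (τm := 15708 / 3125) hk1 h0.le L4 (by norm_num) (by norm_num)
    (fun τ a b => e1_4_8 hκ a b) (by linarith) (by linarith) (by norm_num) (by norm_num), fun τ a b => e1_4_8 hκ a b,
    by linarith, by linarith⟩

private theorem e1_5_9 {κ τ : ℝ} (hκ : 41 / 5 ≤ κ) (h0 : 0 ≤ τ) (hm : τ ≤ 35343 / 6250) : 199 / 200 ≤ lv κ τ :=
  lv_ge_num (κ₀ := 41 / 5) (y := 24783 / 25000) (Fl := 2694789 / 1000000) (Fh := 269479 / 100000) (xl := 28769 / 10000) (xh := 287691 / 100000) (τm := 35343 / 6250) (θ := 33183 / 100000)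
    (by norm_num) (by norm_num) (by norm_num)
    (exp_bds (by norm_num) (by norm_num) (by norm_num [Finset.sum_range_succ, Nat.factorial])
      (by norm_num [Finset.sum_range_succ, Nat.factorial]))
    (by norm_num) (by norm_num) (by norm_num) (by norm_num) (by norm_num) (by norm_num) (by norm_num) (by norm_num)
    (by norm_num) (by norm_num) (by norm_num) (by norm_num) hκ h0 hm

/-- class 1_5: `b = 1`, `κ ≥ 41 / 5` -/
theorem ld1_5 {κ h : ℝ} (hκ : 41 / 5 ≤ κ) (h0 : 0 < h) (hh : h ≤ 2 * π / 1) :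
    LineData κ h (9 / 10) (1791 / 2000) (403 / 1000) (1393 / 2000) (61 / 250) (-3 / 5) (-67 / 200) (2191 / 10000) (89 / 100) := by
  have hk1 : 1 ≤ κ := by linarith
  have hp4 := Real.pi_lt_d4
  have hp3 := Real.pi_gt_d2
  have hhq : h ≤ 3927 / 625 := by
    refine hh.trans ?_
    rw [div_le_iff₀ (by norm_num)]
    linarith
  have L1 : Line κ h (1 / 10) (199 / 2000) (199 / 40000) := Line.stepN (l := 199 / 200) (τm := 35343 / 6250) hk1 h0.le (Line.zero hk1) (by norm_num) (by norm_num)
    (fun τ a b => e1_5_9 hκ a b) (by linarith) (by linarith) (by norm_num) (by norm_num)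
  have L2 : Line κ h (1 / 5) (199 / 1000) (199 / 10000) := Line.stepN (l := 199 / 200) (τm := 35343 / 6250) hk1 h0.le L1 (by norm_num) (by norm_num)
    (fun τ a b => e1_5_9 hκ a b) (by linarith) (by linarith) (by norm_num) (by norm_num)
  have L3 : Line κ h (3 / 10) (597 / 2000) (1791 / 40000) := Line.stepN (l := 199 / 200) (τm := 35343 / 6250) hk1 h0.le L2 (by norm_num) (by norm_num)
    (fun τ a b => e1_5_9 hκ a b) (by linarith) (by linarith) (by norm_num) (by norm_num)
  have L4 : Line κ h (2 / 5) (199 / 500) (199 / 2500) := Line.stepN (l := 199 / 200) (τm := 35343 / 6250) hk1 h0.le L3 (by norm_num) (by norm_num)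
    (fun τ a b => e1_5_9 hκ a b) (by linarith) (by linarith) (by norm_num) (by norm_num)
  have L5 : Line κ h (1 / 2) (199 / 400) (199 / 1600) := Line.stepN (l := 199 / 200) (τm := 35343 / 6250) hk1 h0.le L4 (by norm_num) (by norm_num)
    (fun τ a b => e1_5_9 hκ a b) (by linarith) (by linarith) (by norm_num) (by norm_num)
  have L6 : Line κ h (3 / 5) (597 / 1000) (1791 / 10000) := Line.stepN (l := 199 / 200) (τm := 35343 / 6250) hk1 h0.le L5 (by norm_num) (by norm_num)
    (fun τ a b => e1_5_9 hκ a b) (by linarith) (by linarith) (by norm_num) (by norm_num)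
  have L7 : Line κ h (7 / 10) (1393 / 2000) (9751 / 40000) := Line.stepN (l := 199 / 200) (τm := 35343 / 6250) hk1 h0.le L6 (by norm_num) (by norm_num)
    (fun τ a b => e1_5_9 hκ a b) (by linarith) (by linarith) (by norm_num) (by norm_num)
  have L8 : Line κ h (4 / 5) (199 / 250) (199 / 625) := Line.stepN (l := 199 / 200) (τm := 35343 / 6250) hk1 h0.le L7 (by norm_num) (by norm_num)
    (fun τ a b => e1_5_9 hκ a b) (by linarith) (by linarith) (by norm_num) (by norm_num)
  have L9 : Line κ h (9 / 10) (1791 / 2000) (16119 / 40000) := Line.stepN (l := 199 / 200) (τm := 35343 / 6250) hk1 h0.le L8 (by norm_num) (by norm_num)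
    (fun τ a b => e1_5_9 hκ a b) (by linarith) (by linarith) (by norm_num) (by norm_num)
  have m1 : ∀ z ∈ Icc (-3 / 5 : ℝ) (-1 / 2), 89 / 100 ≤ yv κ ((z + 1) * h) / h - yv κ (z * h) / h :=
    mu_piece (a := 2 / 5) (S := 199 / 500) (C := 199 / 2500) (l := 199 / 200) (τm := 35343 / 6250) (H₁ := 613 / 800) (mp := 493657 / 1000000) (mq := 423289 / 1000000) hk1 h0 (by linarith)
      L4 (by norm_num) (by norm_num) (by norm_num) (fun τ a b => e1_5_9 hκ a b) (by linarith) (by linarith)
      (exp_le_bd (by norm_num) (by norm_num) (by norm_num [Finset.sum_range_succ, Nat.factorial])) (exp_le_bd (by norm_num) (by norm_num) (by norm_num [Finset.sum_range_succ, Nat.factorial]))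
      (by norm_num) (by norm_num)
  have m2 : ∀ z ∈ Icc (-1 / 2 : ℝ) (-2 / 5), 89 / 100 ≤ yv κ ((z + 1) * h) / h - yv κ (z * h) / h :=
    mu_piece (a := 1 / 2) (S := 199 / 400) (C := 199 / 1600) (l := 199 / 200) (τm := 35343 / 6250) (H₁ := 613 / 800) (mp := 423289 / 1000000) (mq := 348909 / 1000000) hk1 h0 (by linarith)
      L5 (by norm_num) (by norm_num) (by norm_num) (fun τ a b => e1_5_9 hκ a b) (by linarith) (by linarith)
      (exp_le_bd (by norm_num) (by norm_num) (by norm_num [Finset.sum_range_succ, Nat.factorial])) (exp_le_bd (by norm_num) (by norm_num) (by norm_num [Finset.sum_range_succ, Nat.factorial]))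
      (by norm_num) (by norm_num)
  have m3 : ∀ z ∈ Icc (-2 / 5 : ℝ) (-67 / 200), 89 / 100 ≤ yv κ ((z + 1) * h) / h - yv κ (z * h) / h :=
    mu_piece (a := 3 / 5) (S := 597 / 1000) (C := 1791 / 10000) (l := 199 / 200) (τm := 35343 / 6250) (H₁ := 613 / 800) (mp := 348909 / 1000000) (mq := 59637 / 200000) hk1 h0 (by linarith)
      L6 (by norm_num) (by norm_num) (by norm_num) (fun τ a b => e1_5_9 hκ a b) (by linarith) (by linarith)
      (exp_le_bd (by norm_num) (by norm_num) (by norm_num [Finset.sum_range_succ, Nat.factorial])) (exp_le_bd (by norm_num) (by norm_num) (by norm_num [Finset.sum_range_succ, Nat.factorial]))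
      (by norm_num) (by norm_num)
  exact ⟨L9.weaken h0.le (by norm_num) (by norm_num), L7.weaken h0.le (by norm_num) (by norm_num),
    Line.f1R (τm := 417833 / 100000) hk1 h0 L7 (by norm_num) (by linarith) (by linarith) (by norm_num), mu_glue (mu_glue m1 m2) m3⟩

/-- class 1_5: line at `1 + qL`, curvature up to `1 + qR` -/
theorem lr1_5 {κ h : ℝ} (hκ : 41 / 5 ≤ κ) (h0 : 0 < h) (hh : h ≤ 2 * π / 1) :
    Line κ h (1 + (-3 / 5)) (199 / 500) (199 / 2500) ∧ (∀ τ, 0 ≤ τ → τ ≤ 35343 / 6250 → 199 / 200 ≤ lv κ τ) ∧ (1 + (-67 / 200)) * h ≤ (35343 / 6250) ∧ (35343 / 6250) < κ + π / 2 := by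
  have hk1 : 1 ≤ κ := by linarith
  have hp4 := Real.pi_lt_d4
  have hp3 := Real.pi_gt_d2
  have hhq : h ≤ 3927 / 625 := by
    refine hh.trans ?_
    rw [div_le_iff₀ (by norm_num)]
    linarith
  have L1 : Line κ h (1 / 10) (199 / 2000) (199 / 40000) := Line.stepN (l := 199 / 200) (τm := 35343 / 6250) hk1 h0.le (Line.zero hk1) (by norm_num) (by norm_num)
    (fun τ a b => e1_5_9 hκ a b) (by linarith) (by linarith) (by norm_num) (by norm_num)
  have L2 : Line κ h (1 / 5) (199 / 1000) (199 / 10000) := Line.stepN (l := 199 / 200) (τm := 35343 / 6250) hk1 h0.le L1 (by norm_num) (by norm_num)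
    (fun τ a b => e1_5_9 hκ a b) (by linarith) (by linarith) (by norm_num) (by norm_num)
  have L3 : Line κ h (3 / 10) (597 / 2000) (1791 / 40000) := Line.stepN (l := 199 / 200) (τm := 35343 / 6250) hk1 h0.le L2 (by norm_num) (by norm_num)
    (fun τ a b => e1_5_9 hκ a b) (by linarith) (by linarith) (by norm_num) (by norm_num)
  have L4 : Line κ h (2 / 5) (199 / 500) (199 / 2500) := Line.stepN (l := 199 / 200) (τm := 35343 / 6250) hk1 h0.le L3 (by norm_num) (by norm_num)
    (fun τ a b => e1_5_9 hκ a b) (by linarith) (by linarith) (by norm_num) (by norm_num)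
  exact ⟨Line.stepN (l := 199 / 200) (τm := 35343 / 6250) hk1 h0.le L4 (by norm_num) (by norm_num)
    (fun τ a b => e1_5_9 hκ a b) (by linarith) (by linarith) (by norm_num) (by norm_num), fun τ a b => e1_5_9 hκ a b,
    by linarith, by linarith⟩

private theorem e1_6_9 {κ τ : ℝ} (hκ : 19 / 2 ≤ κ) (h0 : 0 ≤ τ) (hm : τ ≤ 35343 / 6250) : 199 / 200 ≤ lv κ τ :=
  lv_ge_num (κ₀ := 19 / 2) (y := 83239 / 100000) (Fl := 1149403 / 500000) (Fh := 2298807 / 1000000) (xl := 404787 / 100000) (xh := 404789 / 100000) (τm := 35343 / 6250) (θ := 507 / 2500)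
    (by norm_num) (by norm_num) (by norm_num)
    (exp_bds (by norm_num) (by norm_num) (by norm_num [Finset.sum_range_succ, Nat.factorial])
      (by norm_num [Finset.sum_range_succ, Nat.factorial]))
    (by norm_num) (by norm_num) (by norm_num) (by norm_num) (by norm_num) (by norm_num) (by norm_num) (by norm_num)
    (by norm_num) (by norm_num) (by norm_num) (by norm_num) hκ h0 hm

/-- class 1_6: `b = 1`, `κ ≥ 19 / 2` -/
theorem ld1_6 {κ h : ℝ} (hκ : 19 / 2 ≤ κ) (h0 : 0 < h) (hh : h ≤ 2 * π / 1) :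
    LineData κ h (9 / 10) (1791 / 2000) (403 / 1000) (1393 / 2000) (61 / 250) (-119 / 200) (-7 / 20) (2087 / 10000) (9 / 10) := by
  have hk1 : 1 ≤ κ := by linarith
  have hp4 := Real.pi_lt_d4
  have hp3 := Real.pi_gt_d2
  have hhq : h ≤ 3927 / 625 := by
    refine hh.trans ?_
    rw [div_le_iff₀ (by norm_num)]
    linarith
  have L1 : Line κ h (1 / 10) (199 / 2000) (199 / 40000) := Line.stepN (l := 199 / 200) (τm := 35343 / 6250) hk1 h0.le (Line.zero hk1) (by norm_num) (by norm_num)
    (fun τ a b => e1_6_9 hκ a b) (by linarith) (by linarith) (by norm_num) (by norm_num)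
  have L2 : Line κ h (1 / 5) (199 / 1000) (199 / 10000) := Line.stepN (l := 199 / 200) (τm := 35343 / 6250) hk1 h0.le L1 (by norm_num) (by norm_num)
    (fun τ a b => e1_6_9 hκ a b) (by linarith) (by linarith) (by norm_num) (by norm_num)
  have L3 : Line κ h (3 / 10) (597 / 2000) (1791 / 40000) := Line.stepN (l := 199 / 200) (τm := 35343 / 6250) hk1 h0.le L2 (by norm_num) (by norm_num)
    (fun τ a b => e1_6_9 hκ a b) (by linarith) (by linarith) (by norm_num) (by norm_num)
  have L4 : Line κ h (2 / 5) (199 / 500) (199 / 2500) := Line.stepN (l := 199 / 200) (τm := 35343 / 6250) hk1 h0.le L3 (by norm_num) (by norm_num)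
    (fun τ a b => e1_6_9 hκ a b) (by linarith) (by linarith) (by norm_num) (by norm_num)
  have L5 : Line κ h (1 / 2) (199 / 400) (199 / 1600) := Line.stepN (l := 199 / 200) (τm := 35343 / 6250) hk1 h0.le L4 (by norm_num) (by norm_num)
    (fun τ a b => e1_6_9 hκ a b) (by linarith) (by linarith) (by norm_num) (by norm_num)
  have L6 : Line κ h (3 / 5) (597 / 1000) (1791 / 10000) := Line.stepN (l := 199 / 200) (τm := 35343 / 6250) hk1 h0.le L5 (by norm_num) (by norm_num)
    (fun τ a b => e1_6_9 hκ a b) (by linarith) (by linarith) (by norm_num) (by norm_num)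
  have L7 : Line κ h (7 / 10) (1393 / 2000) (9751 / 40000) := Line.stepN (l := 199 / 200) (τm := 35343 / 6250) hk1 h0.le L6 (by norm_num) (by norm_num)
    (fun τ a b => e1_6_9 hκ a b) (by linarith) (by linarith) (by norm_num) (by norm_num)
  have L8 : Line κ h (4 / 5) (199 / 250) (199 / 625) := Line.stepN (l := 199 / 200) (τm := 35343 / 6250) hk1 h0.le L7 (by norm_num) (by norm_num)
    (fun τ a b => e1_6_9 hκ a b) (by linarith) (by linarith) (by norm_num) (by norm_num)
  have L9 : Line κ h (9 / 10) (1791 / 2000) (16119 / 40000) := Line.stepN (l := 199 / 200) (τm := 35343 / 6250) hk1 h0.le L8 (by norm_num) (by norm_num)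
    (fun τ a b => e1_6_9 hκ a b) (by linarith) (by linarith) (by norm_num) (by norm_num)
  have m1 : ∀ z ∈ Icc (-119 / 200 : ℝ) (-1 / 2), 9 / 10 ≤ yv κ ((z + 1) * h) / h - yv κ (z * h) / h :=
    mu_piece (a := 2 / 5) (S := 199 / 500) (C := 199 / 2500) (l := 199 / 200) (τm := 35343 / 6250) (H₁ := 66139 / 100000) (mp := 15679 / 31250) (mq := 431971 / 1000000) hk1 h0 (by linarith)
      L4 (by norm_num) (by norm_num) (by norm_num) (fun τ a b => e1_6_9 hκ a b) (by linarith) (by linarith)
      (exp_le_bd (by norm_num) (by norm_num) (by norm_num [Finset.sum_range_succ, Nat.factorial])) (exp_le_bd (by norm_num) (by norm_num) (by norm_num [Finset.sum_range_succ, Nat.factorial]))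
      (by norm_num) (by norm_num)
  have m2 : ∀ z ∈ Icc (-1 / 2 : ℝ) (-2 / 5), 9 / 10 ≤ yv κ ((z + 1) * h) / h - yv κ (z * h) / h :=
    mu_piece (a := 1 / 2) (S := 199 / 400) (C := 199 / 1600) (l := 199 / 200) (τm := 35343 / 6250) (H₁ := 66139 / 100000) (mp := 431971 / 1000000) (mq := 35489 / 100000) hk1 h0 (by linarith)
      L5 (by norm_num) (by norm_num) (by norm_num) (fun τ a b => e1_6_9 hκ a b) (by linarith) (by linarith)
      (exp_le_bd (by norm_num) (by norm_num) (by norm_num [Finset.sum_range_succ, Nat.factorial])) (exp_le_bd (by norm_num) (by norm_num) (by norm_num [Finset.sum_range_succ, Nat.factorial]))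
      (by norm_num) (by norm_num)
  have m3 : ∀ z ∈ Icc (-2 / 5 : ℝ) (-7 / 20), 9 / 10 ≤ yv κ ((z + 1) * h) / h - yv κ (z * h) / h :=
    mu_piece (a := 3 / 5) (S := 597 / 1000) (C := 1791 / 10000) (l := 199 / 200) (τm := 35343 / 6250) (H₁ := 66139 / 100000) (mp := 35489 / 100000) (mq := 39353 / 125000) hk1 h0 (by linarith)
      L6 (by norm_num) (by norm_num) (by norm_num) (fun τ a b => e1_6_9 hκ a b) (by linarith) (by linarith)
      (exp_le_bd (by norm_num) (by norm_num) (by norm_num [Finset.sum_range_succ, Nat.factorial])) (exp_le_bd (by norm_num) (by norm_num) (by norm_num [Finset.sum_range_succ, Nat.factorial]))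
      (by norm_num) (by norm_num)
  exact ⟨L9.weaken h0.le (by norm_num) (by norm_num), L7.weaken h0.le (by norm_num) (by norm_num),
    Line.f1R (τm := 51051 / 12500) hk1 h0 L7 (by norm_num) (by linarith) (by linarith) (by norm_num), mu_glue (mu_glue m1 m2) m3⟩

/-- class 1_6: line at `1 + qL`, curvature up to `1 + qR` -/
theorem lr1_6 {κ h : ℝ} (hκ : 19 / 2 ≤ κ) (h0 : 0 < h) (hh : h ≤ 2 * π / 1) :
    Line κ h (1 + (-119 / 200)) (16119 / 40000) (1305639 / 16000000) ∧ (∀ τ, 0 ≤ τ → τ ≤ 35343 / 6250 → 199 / 200 ≤ lv κ τ) ∧ (1 + (-7 / 20)) * h ≤ (35343 / 6250) ∧ (35343 / 6250) < κ + π / 2 := by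
  have hk1 : 1 ≤ κ := by linarith
  have hp4 := Real.pi_lt_d4
  have hp3 := Real.pi_gt_d2
  have hhq : h ≤ 3927 / 625 := by
    refine hh.trans ?_
    rw [div_le_iff₀ (by norm_num)]
    linarith
  have L1 : Line κ h (1 / 10) (199 / 2000) (199 / 40000) := Line.stepN (l := 199 / 200) (τm := 35343 / 6250) hk1 h0.le (Line.zero hk1) (by norm_num) (by norm_num)
    (fun τ a b => e1_6_9 hκ a b) (by linarith) (by linarith) (by norm_num) (by norm_num)
  have L2 : Line κ h (1 / 5) (199 / 1000) (199 / 10000) := Line.stepN (l := 199 / 200) (τm := 35343 / 6250) hk1 h0.le L1 (by norm_num) (by norm_num)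
    (fun τ a b => e1_6_9 hκ a b) (by linarith) (by linarith) (by norm_num) (by norm_num)
  have L3 : Line κ h (3 / 10) (597 / 2000) (1791 / 40000) := Line.stepN (l := 199 / 200) (τm := 35343 / 6250) hk1 h0.le L2 (by norm_num) (by norm_num)
    (fun τ a b => e1_6_9 hκ a b) (by linarith) (by linarith) (by norm_num) (by norm_num)
  have L4 : Line κ h (2 / 5) (199 / 500) (199 / 2500) := Line.stepN (l := 199 / 200) (τm := 35343 / 6250) hk1 h0.le L3 (by norm_num) (by norm_num)
    (fun τ a b => e1_6_9 hκ a b) (by linarith) (by linarith) (by norm_num) (by norm_num)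
  exact ⟨Line.stepN (l := 199 / 200) (τm := 35343 / 6250) hk1 h0.le L4 (by norm_num) (by norm_num)
    (fun τ a b => e1_6_9 hκ a b) (by linarith) (by linarith) (by norm_num) (by norm_num), fun τ a b => e1_6_9 hκ a b,
    by linarith, by linarith⟩

private theorem e2_1_6 {κ τ : ℝ} (hκ : 3 ≤ κ) (h0 : 0 ≤ τ) (hm : τ ≤ 11781 / 6250) : 199 / 200 ≤ lv κ τ :=
  lv_ge_num (κ₀ := 3) (y := 15351 / 25000) (Fl := 1847881 / 1000000) (Fh := 923941 / 500000) (xl := 150287 / 100000) (xh := 9393 / 6250) (τm := 11781 / 6250) (θ := 38787 / 100000)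
    (by norm_num) (by norm_num) (by norm_num)
    (exp_bds (by norm_num) (by norm_num) (by norm_num [Finset.sum_range_succ, Nat.factorial])
      (by norm_num [Finset.sum_range_succ, Nat.factorial]))
    (by norm_num) (by norm_num) (by norm_num) (by norm_num) (by norm_num) (by norm_num) (by norm_num) (by norm_num)
    (by norm_num) (by norm_num) (by norm_num) (by norm_num) hκ h0 hm

private theorem e2_1_7 {κ τ : ℝ} (hκ : 3 ≤ κ) (h0 : 0 ≤ τ) (hm : τ ≤ 27489 / 12500) : 187 / 200 ≤ lv κ τ :=
  lv_ge_num (κ₀ := 3) (y := 7071 / 10000) (Fl := 2028101 / 1000000) (Fh := 1014051 / 500000) (xl := 64963 / 50000) (xh := 129927 / 100000) (τm := 27489 / 12500) (θ := 623 / 1250)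
    (by norm_num) (by norm_num) (by norm_num)
    (exp_bds (by norm_num) (by norm_num) (by norm_num [Finset.sum_range_succ, Nat.factorial])
      (by norm_num [Finset.sum_range_succ, Nat.factorial]))
    (by norm_num) (by norm_num) (by norm_num) (by norm_num) (by norm_num) (by norm_num) (by norm_num) (by norm_num)
    (by norm_num) (by norm_num) (by norm_num) (by norm_num) hκ h0 hm

private theorem e2_1_8 {κ τ : ℝ} (hκ : 3 ≤ κ) (h0 : 0 ≤ τ) (hm : τ ≤ 7854 / 3125) : 83 / 100 ≤ lv κ τ :=
  lv_ge_num (κ₀ := 3) (y := 1977 / 2500) (Fl := 2205159 / 1000000) (Fh := 55129 / 25000) (xl := 110699 / 100000) (xh := 1107 / 1000) (τm := 7854 / 3125) (θ := 62029 / 100000)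
    (by norm_num) (by norm_num) (by norm_num)
    (exp_bds (by norm_num) (by norm_num) (by norm_num [Finset.sum_range_succ, Nat.factorial])
      (by norm_num [Finset.sum_range_succ, Nat.factorial]))
    (by norm_num) (by norm_num) (by norm_num) (by norm_num) (by norm_num) (by norm_num) (by norm_num) (by norm_num)
    (by norm_num) (by norm_num) (by norm_num) (by norm_num) hκ h0 hm

/-- class 2_1: `b = 2`, `κ ≥ 3` -/
theorem ld2_1 {κ h : ℝ} (hκ : 3 ≤ κ) (h0 : 0 < h) (hh : h ≤ 2 * π / 2) :
    LineData κ h (4 / 5) (1547 / 2000) (121 / 400) (1381 / 2000) (6 / 25) (-57 / 100) (-81 / 200) (1759 / 10000) (87 / 100) := by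
  have hk1 : 1 ≤ κ := by linarith
  have hp4 := Real.pi_lt_d4
  have hp3 := Real.pi_gt_d2
  have hhq : h ≤ 3927 / 1250 := by
    refine hh.trans ?_
    rw [div_le_iff₀ (by norm_num)]
    linarith
  have L1 : Line κ h (1 / 10) (199 / 2000) (199 / 40000) := Line.stepN (l := 199 / 200) (τm := 11781 / 6250) hk1 h0.le (Line.zero hk1) (by norm_num) (by norm_num)
    (fun τ a b => e2_1_6 hκ a b) (by linarith) (by linarith) (by norm_num) (by norm_num)
  have L2 : Line κ h (1 / 5) (199 / 1000) (199 / 10000) := Line.stepN (l := 199 / 200) (τm := 11781 / 6250) hk1 h0.le L1 (by norm_num) (by norm_num)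
    (fun τ a b => e2_1_6 hκ a b) (by linarith) (by linarith) (by norm_num) (by norm_num)
  have L3 : Line κ h (3 / 10) (597 / 2000) (1791 / 40000) := Line.stepN (l := 199 / 200) (τm := 11781 / 6250) hk1 h0.le L2 (by norm_num) (by norm_num)
    (fun τ a b => e2_1_6 hκ a b) (by linarith) (by linarith) (by norm_num) (by norm_num)
  have L4 : Line κ h (2 / 5) (199 / 500) (199 / 2500) := Line.stepN (l := 199 / 200) (τm := 11781 / 6250) hk1 h0.le L3 (by norm_num) (by norm_num)
    (fun τ a b => e2_1_6 hκ a b) (by linarith) (by linarith) (by norm_num) (by norm_num)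
  have L5 : Line κ h (1 / 2) (199 / 400) (199 / 1600) := Line.stepN (l := 199 / 200) (τm := 11781 / 6250) hk1 h0.le L4 (by norm_num) (by norm_num)
    (fun τ a b => e2_1_6 hκ a b) (by linarith) (by linarith) (by norm_num) (by norm_num)
  have L6 : Line κ h (3 / 5) (597 / 1000) (1791 / 10000) := Line.stepN (l := 199 / 200) (τm := 11781 / 6250) hk1 h0.le L5 (by norm_num) (by norm_num)
    (fun τ a b => e2_1_6 hκ a b) (by linarith) (by linarith) (by norm_num) (by norm_num)
  have L7 : Line κ h (7 / 10) (1381 / 2000) (1919 / 8000) := Line.stepN (l := 187 / 200) (τm := 27489 / 12500) hk1 h0.le L6 (by norm_num) (by norm_num)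
    (fun τ a b => e2_1_7 hκ a b) (by linarith) (by linarith) (by norm_num) (by norm_num)
  have L8 : Line κ h (4 / 5) (1547 / 2000) (2417 / 8000) := Line.stepN (l := 83 / 100) (τm := 7854 / 3125) hk1 h0.le L7 (by norm_num) (by norm_num)
    (fun τ a b => e2_1_8 hκ a b) (by linarith) (by linarith) (by norm_num) (by norm_num)
  have m1 : ∀ z ∈ Icc (-57 / 100 : ℝ) (-1 / 2), 87 / 100 ≤ yv κ ((z + 1) * h) / h - yv κ (z * h) / h :=
    mu_piece (a := 2 / 5) (S := 199 / 500) (C := 199 / 2500) (l := 199 / 200) (τm := 11781 / 6250) (H₁ := 1309 / 1250) (mp := 446969 / 1000000) (mq := 25131 / 62500) hk1 h0 (by linarith)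
      L4 (by norm_num) (by norm_num) (by norm_num) (fun τ a b => e2_1_6 hκ a b) (by linarith) (by linarith)
      (exp_le_bd (by norm_num) (by norm_num) (by norm_num [Finset.sum_range_succ, Nat.factorial])) (exp_le_bd (by norm_num) (by norm_num) (by norm_num [Finset.sum_range_succ, Nat.factorial]))
      (by norm_num) (by norm_num)
  have m2 : ∀ z ∈ Icc (-1 / 2 : ℝ) (-81 / 200), 87 / 100 ≤ yv κ ((z + 1) * h) / h - yv κ (z * h) / h :=
    mu_piece (a := 1 / 2) (S := 199 / 400) (C := 199 / 1600) (l := 199 / 200) (τm := 11781 / 6250) (H₁ := 1309 / 1250) (mp := 25131 / 62500) (mq := 67523 / 200000) hk1 h0 (by linarith)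
      L5 (by norm_num) (by norm_num) (by norm_num) (fun τ a b => e2_1_6 hκ a b) (by linarith) (by linarith)
      (exp_le_bd (by norm_num) (by norm_num) (by norm_num [Finset.sum_range_succ, Nat.factorial])) (exp_le_bd (by norm_num) (by norm_num) (by norm_num [Finset.sum_range_succ, Nat.factorial]))
      (by norm_num) (by norm_num)
  exact ⟨L8.weaken h0.le (by norm_num) (by norm_num), L7.weaken h0.le (by norm_num) (by norm_num),
    Line.f1R (τm := 93463 / 50000) hk1 h0 L6 (by norm_num) (by linarith) (by linarith) (by norm_num), mu_glue m1 m2⟩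

/-- class 2_1: line at `1 + qL`, curvature up to `1 + qR` -/
theorem lr2_1 {κ h : ℝ} (hκ : 3 ≤ κ) (h0 : 0 < h) (hh : h ≤ 2 * π / 2) :
    Line κ h (1 + (-57 / 100)) (8557 / 20000) (367951 / 4000000) ∧ (∀ τ, 0 ≤ τ → τ ≤ 11781 / 6250 → 199 / 200 ≤ lv κ τ) ∧ (1 + (-81 / 200)) * h ≤ (11781 / 6250) ∧ (11781 / 6250) < κ + π / 2 := by
  have hk1 : 1 ≤ κ := by linarith
  have hp4 := Real.pi_lt_d4
  have hp3 := Real.pi_gt_d2
  have hhq : h ≤ 3927 / 1250 := by
    refine hh.trans ?_
    rw [div_le_iff₀ (by norm_num)]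
    linarith
  have L1 : Line κ h (1 / 10) (199 / 2000) (199 / 40000) := Line.stepN (l := 199 / 200) (τm := 11781 / 6250) hk1 h0.le (Line.zero hk1) (by norm_num) (by norm_num)
    (fun τ a b => e2_1_6 hκ a b) (by linarith) (by linarith) (by norm_num) (by norm_num)
  have L2 : Line κ h (1 / 5) (199 / 1000) (199 / 10000) := Line.stepN (l := 199 / 200) (τm := 11781 / 6250) hk1 h0.le L1 (by norm_num) (by norm_num)
    (fun τ a b => e2_1_6 hκ a b) (by linarith) (by linarith) (by norm_num) (by norm_num)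
  have L3 : Line κ h (3 / 10) (597 / 2000) (1791 / 40000) := Line.stepN (l := 199 / 200) (τm := 11781 / 6250) hk1 h0.le L2 (by norm_num) (by norm_num)
    (fun τ a b => e2_1_6 hκ a b) (by linarith) (by linarith) (by norm_num) (by norm_num)
  have L4 : Line κ h (2 / 5) (199 / 500) (199 / 2500) := Line.stepN (l := 199 / 200) (τm := 11781 / 6250) hk1 h0.le L3 (by norm_num) (by norm_num)
    (fun τ a b => e2_1_6 hκ a b) (by linarith) (by linarith) (by norm_num) (by norm_num)
  exact ⟨Line.stepN (l := 199 / 200) (τm := 11781 / 6250) hk1 h0.le L4 (by norm_num) (by norm_num)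
    (fun τ a b => e2_1_6 hκ a b) (by linarith) (by linarith) (by norm_num) (by norm_num), fun τ a b => e2_1_6 hκ a b,
    by linarith, by linarith⟩

private theorem e2_2_8 {κ τ : ℝ} (hκ : 7 / 2 ≤ κ) (h0 : 0 ≤ τ) (hm : τ ≤ 7854 / 3125) : 199 / 200 ≤ lv κ τ :=
  lv_ge_num (κ₀ := 7 / 2) (y := 15089 / 20000) (Fl := 2126441 / 1000000) (Fh := 1063221 / 500000) (xl := 36571 / 25000) (xh := 73143 / 50000) (τm := 7854 / 3125) (θ := 9523 / 20000)
    (by norm_num) (by norm_num) (by norm_num)
    (exp_bds (by norm_num) (by norm_num) (by norm_num [Finset.sum_range_succ, Nat.factorial])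
      (by norm_num [Finset.sum_range_succ, Nat.factorial]))
    (by norm_num) (by norm_num) (by norm_num) (by norm_num) (by norm_num) (by norm_num) (by norm_num) (by norm_num)
    (by norm_num) (by norm_num) (by norm_num) (by norm_num) hκ h0 hm

private theorem e2_2_9 {κ τ : ℝ} (hκ : 7 / 2 ≤ κ) (h0 : 0 ≤ τ) (hm : τ ≤ 35343 / 12500) : 191 / 200 ≤ lv κ τ :=
  lv_ge_num (κ₀ := 7 / 2) (y := 83847 / 100000) (Fl := 92513 / 40000) (Fh := 1156413 / 500000) (xl := 125977 / 100000) (xh := 125979 / 100000) (τm := 35343 / 12500) (θ := 58723 / 100000)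
    (by norm_num) (by norm_num) (by norm_num)
    (exp_bds (by norm_num) (by norm_num) (by norm_num [Finset.sum_range_succ, Nat.factorial])
      (by norm_num [Finset.sum_range_succ, Nat.factorial]))
    (by norm_num) (by norm_num) (by norm_num) (by norm_num) (by norm_num) (by norm_num) (by norm_num) (by norm_num)
    (by norm_num) (by norm_num) (by norm_num) (by norm_num) hκ h0 hm

/-- class 2_2: `b = 2`, `κ ≥ 7 / 2` -/
theorem ld2_2 {κ h : ℝ} (hκ : 7 / 2 ≤ κ) (h0 : 0 < h) (hh : h ≤ 2 * π / 2) :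
    LineData κ h (9 / 10) (1783 / 2000) (2 / 5) (1393 / 2000) (61 / 250) (-23 / 40) (-19 / 50) (477 / 2500) (177 / 200) := by
  have hk1 : 1 ≤ κ := by linarith
  have hp4 := Real.pi_lt_d4
  have hp3 := Real.pi_gt_d2
  have hhq : h ≤ 3927 / 1250 := by
    refine hh.trans ?_
    rw [div_le_iff₀ (by norm_num)]
    linarith
  have L1 : Line κ h (1 / 10) (199 / 2000) (199 / 40000) := Line.stepN (l := 199 / 200) (τm := 7854 / 3125) hk1 h0.le (Line.zero hk1) (by norm_num) (by norm_num)
    (fun τ a b => e2_2_8 hκ a b) (by linarith) (by linarith) (by norm_num) (by norm_num)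
  have L2 : Line κ h (1 / 5) (199 / 1000) (199 / 10000) := Line.stepN (l := 199 / 200) (τm := 7854 / 3125) hk1 h0.le L1 (by norm_num) (by norm_num)
    (fun τ a b => e2_2_8 hκ a b) (by linarith) (by linarith) (by norm_num) (by norm_num)
  have L3 : Line κ h (3 / 10) (597 / 2000) (1791 / 40000) := Line.stepN (l := 199 / 200) (τm := 7854 / 3125) hk1 h0.le L2 (by norm_num) (by norm_num)
    (fun τ a b => e2_2_8 hκ a b) (by linarith) (by linarith) (by norm_num) (by norm_num)
  have L4 : Line κ h (2 / 5) (199 / 500) (199 / 2500) := Line.stepN (l := 199 / 200) (τm := 7854 / 3125) hk1 h0.le L3 (by norm_num) (by norm_num)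
    (fun τ a b => e2_2_8 hκ a b) (by linarith) (by linarith) (by norm_num) (by norm_num)
  have L5 : Line κ h (1 / 2) (199 / 400) (199 / 1600) := Line.stepN (l := 199 / 200) (τm := 7854 / 3125) hk1 h0.le L4 (by norm_num) (by norm_num)
    (fun τ a b => e2_2_8 hκ a b) (by linarith) (by linarith) (by norm_num) (by norm_num)
  have L6 : Line κ h (3 / 5) (597 / 1000) (1791 / 10000) := Line.stepN (l := 199 / 200) (τm := 7854 / 3125) hk1 h0.le L5 (by norm_num) (by norm_num)
    (fun τ a b => e2_2_8 hκ a b) (by linarith) (by linarith) (by norm_num) (by norm_num)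
  have L7 : Line κ h (7 / 10) (1393 / 2000) (9751 / 40000) := Line.stepN (l := 199 / 200) (τm := 7854 / 3125) hk1 h0.le L6 (by norm_num) (by norm_num)
    (fun τ a b => e2_2_8 hκ a b) (by linarith) (by linarith) (by norm_num) (by norm_num)
  have L8 : Line κ h (4 / 5) (199 / 250) (199 / 625) := Line.stepN (l := 199 / 200) (τm := 7854 / 3125) hk1 h0.le L7 (by norm_num) (by norm_num)
    (fun τ a b => e2_2_8 hκ a b) (by linarith) (by linarith) (by norm_num) (by norm_num)
  have L9 : Line κ h (9 / 10) (1783 / 2000) (15983 / 40000) := Line.stepN (l := 191 / 200) (τm := 35343 / 12500) hk1 h0.le L8 (by norm_num) (by norm_num)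
    (fun τ a b => e2_2_9 hκ a b) (by linarith) (by linarith) (by norm_num) (by norm_num)
  have m1 : ∀ z ∈ Icc (-23 / 40 : ℝ) (-1 / 2), 177 / 200 ≤ yv κ ((z + 1) * h) / h - yv κ (z * h) / h :=
    mu_piece (a := 2 / 5) (S := 199 / 500) (C := 199 / 2500) (l := 199 / 200) (τm := 7854 / 3125) (H₁ := 561 / 625) (mp := 46363 / 100000) (mq := 413029 / 1000000) hk1 h0 (by linarith)
      L4 (by norm_num) (by norm_num) (by norm_num) (fun τ a b => e2_2_8 hκ a b) (by linarith) (by linarith)
      (exp_le_bd (by norm_num) (by norm_num) (by norm_num [Finset.sum_range_succ, Nat.factorial])) (exp_le_bd (by norm_num) (by norm_num) (by norm_num [Finset.sum_range_succ, Nat.factorial]))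
      (by norm_num) (by norm_num)
  have m2 : ∀ z ∈ Icc (-1 / 2 : ℝ) (-2 / 5), 177 / 200 ≤ yv κ ((z + 1) * h) / h - yv κ (z * h) / h :=
    mu_piece (a := 1 / 2) (S := 199 / 400) (C := 199 / 1600) (l := 199 / 200) (τm := 7854 / 3125) (H₁ := 561 / 625) (mp := 413029 / 1000000) (mq := 21361 / 62500) hk1 h0 (by linarith)
      L5 (by norm_num) (by norm_num) (by norm_num) (fun τ a b => e2_2_8 hκ a b) (by linarith) (by linarith)
      (exp_le_bd (by norm_num) (by norm_num) (by norm_num [Finset.sum_range_succ, Nat.factorial])) (exp_le_bd (by norm_num) (by norm_num) (by norm_num [Finset.sum_range_succ, Nat.factorial]))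
      (by norm_num) (by norm_num)
  have m3 : ∀ z ∈ Icc (-2 / 5 : ℝ) (-19 / 50), 177 / 200 ≤ yv κ ((z + 1) * h) / h - yv κ (z * h) / h :=
    mu_piece (a := 3 / 5) (S := 597 / 1000) (C := 1791 / 10000) (l := 199 / 200) (τm := 7854 / 3125) (H₁ := 561 / 625) (mp := 21361 / 62500) (mq := 163481 / 500000) hk1 h0 (by linarith)
      L6 (by norm_num) (by norm_num) (by norm_num) (fun τ a b => e2_2_8 hκ a b) (by linarith) (by linarith)
      (exp_le_bd (by norm_num) (by norm_num) (by norm_num [Finset.sum_range_succ, Nat.factorial])) (exp_le_bd (by norm_num) (by norm_num) (by norm_num [Finset.sum_range_succ, Nat.factorial]))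
      (by norm_num) (by norm_num)
  exact ⟨L9.weaken h0.le (by norm_num) (by norm_num), L7.weaken h0.le (by norm_num) (by norm_num),
    Line.f1R (τm := 9739 / 5000) hk1 h0 L6 (by norm_num) (by linarith) (by linarith) (by norm_num), mu_glue (mu_glue m1 m2) m3⟩

/-- class 2_2: line at `1 + qL`, curvature up to `1 + qR` -/
theorem lr2_2 {κ h : ℝ} (hκ : 7 / 2 ≤ κ) (h0 : 0 < h) (hh : h ≤ 2 * π / 2) :
    Line κ h (1 + (-23 / 40)) (3383 / 8000) (57511 / 640000) ∧ (∀ τ, 0 ≤ τ → τ ≤ 7854 / 3125 → 199 / 200 ≤ lv κ τ) ∧ (1 + (-19 / 50)) * h ≤ (7854 / 3125) ∧ (7854 / 3125) < κ + π / 2 := by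
  have hk1 : 1 ≤ κ := by linarith
  have hp4 := Real.pi_lt_d4
  have hp3 := Real.pi_gt_d2
  have hhq : h ≤ 3927 / 1250 := by
    refine hh.trans ?_
    rw [div_le_iff₀ (by norm_num)]
    linarith
  have L1 : Line κ h (1 / 10) (199 / 2000) (199 / 40000) := Line.stepN (l := 199 / 200) (τm := 7854 / 3125) hk1 h0.le (Line.zero hk1) (by norm_num) (by norm_num)
    (fun τ a b => e2_2_8 hκ a b) (by linarith) (by linarith) (by norm_num) (by norm_num)
  have L2 : Line κ h (1 / 5) (199 / 1000) (199 / 10000) := Line.stepN (l := 199 / 200) (τm := 7854 / 3125) hk1 h0.le L1 (by norm_num) (by norm_num)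
    (fun τ a b => e2_2_8 hκ a b) (by linarith) (by linarith) (by norm_num) (by norm_num)
  have L3 : Line κ h (3 / 10) (597 / 2000) (1791 / 40000) := Line.stepN (l := 199 / 200) (τm := 7854 / 3125) hk1 h0.le L2 (by norm_num) (by norm_num)
    (fun τ a b => e2_2_8 hκ a b) (by linarith) (by linarith) (by norm_num) (by norm_num)
  have L4 : Line κ h (2 / 5) (199 / 500) (199 / 2500) := Line.stepN (l := 199 / 200) (τm := 7854 / 3125) hk1 h0.le L3 (by norm_num) (by norm_num)
    (fun τ a b => e2_2_8 hκ a b) (by linarith) (by linarith) (by norm_num) (by norm_num)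
  exact ⟨Line.stepN (l := 199 / 200) (τm := 7854 / 3125) hk1 h0.le L4 (by norm_num) (by norm_num)
    (fun τ a b => e2_2_8 hκ a b) (by linarith) (by linarith) (by norm_num) (by norm_num), fun τ a b => e2_2_8 hκ a b,
    by linarith, by linarith⟩

private theorem e2_3_10 {κ τ : ℝ} (hκ : 39 / 10 ≤ κ) (h0 : 0 ≤ τ) (hm : τ ≤ 3927 / 1250) : 199 / 200 ≤ lv κ τ :=
  lv_ge_num (κ₀ := 39 / 10) (y := 44299 / 50000) (Fl := 30317 / 12500) (Fh := 2425361 / 1000000) (xl := 134191 / 100000) (xh := 8387 / 6250) (τm := 3927 / 1250) (θ := 58353 / 100000)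
    (by norm_num) (by norm_num) (by norm_num)
    (exp_bds (by norm_num) (by norm_num) (by norm_num [Finset.sum_range_succ, Nat.factorial])
      (by norm_num [Finset.sum_range_succ, Nat.factorial]))
    (by norm_num) (by norm_num) (by norm_num) (by norm_num) (by norm_num) (by norm_num) (by norm_num) (by norm_num)
    (by norm_num) (by norm_num) (by norm_num) (by norm_num) hκ h0 hm

/-- class 2_3: `b = 2`, `κ ≥ 39 / 10` -/
theorem ld2_3 {κ h : ℝ} (hκ : 39 / 10 ≤ κ) (h0 : 0 < h) (hh : h ≤ 2 * π / 2) :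
    LineData κ h 1 (199 / 200) (199 / 400) (1393 / 2000) (61 / 250) (-29 / 50) (-37 / 100) (123 / 625) (89 / 100) := by
  have hk1 : 1 ≤ κ := by linarith
  have hp4 := Real.pi_lt_d4
  have hp3 := Real.pi_gt_d2
  have hhq : h ≤ 3927 / 1250 := by
    refine hh.trans ?_
    rw [div_le_iff₀ (by norm_num)]
    linarith
  have L1 : Line κ h (1 / 10) (199 / 2000) (199 / 40000) := Line.stepN (l := 199 / 200) (τm := 3927 / 1250) hk1 h0.le (Line.zero hk1) (by norm_num) (by norm_num)
    (fun τ a b => e2_3_10 hκ a b) (by linarith) (by linarith) (by norm_num) (by norm_num)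
  have L2 : Line κ h (1 / 5) (199 / 1000) (199 / 10000) := Line.stepN (l := 199 / 200) (τm := 3927 / 1250) hk1 h0.le L1 (by norm_num) (by norm_num)
    (fun τ a b => e2_3_10 hκ a b) (by linarith) (by linarith) (by norm_num) (by norm_num)
  have L3 : Line κ h (3 / 10) (597 / 2000) (1791 / 40000) := Line.stepN (l := 199 / 200) (τm := 3927 / 1250) hk1 h0.le L2 (by norm_num) (by norm_num)
    (fun τ a b => e2_3_10 hκ a b) (by linarith) (by linarith) (by norm_num) (by norm_num)
  have L4 : Line κ h (2 / 5) (199 / 500) (199 / 2500) := Line.stepN (l := 199 / 200) (τm := 3927 / 1250) hk1 h0.le L3 (by norm_num) (by norm_num)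
    (fun τ a b => e2_3_10 hκ a b) (by linarith) (by linarith) (by norm_num) (by norm_num)
  have L5 : Line κ h (1 / 2) (199 / 400) (199 / 1600) := Line.stepN (l := 199 / 200) (τm := 3927 / 1250) hk1 h0.le L4 (by norm_num) (by norm_num)
    (fun τ a b => e2_3_10 hκ a b) (by linarith) (by linarith) (by norm_num) (by norm_num)
  have L6 : Line κ h (3 / 5) (597 / 1000) (1791 / 10000) := Line.stepN (l := 199 / 200) (τm := 3927 / 1250) hk1 h0.le L5 (by norm_num) (by norm_num)
    (fun τ a b => e2_3_10 hκ a b) (by linarith) (by linarith) (by norm_num) (by norm_num)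
  have L7 : Line κ h (7 / 10) (1393 / 2000) (9751 / 40000) := Line.stepN (l := 199 / 200) (τm := 3927 / 1250) hk1 h0.le L6 (by norm_num) (by norm_num)
    (fun τ a b => e2_3_10 hκ a b) (by linarith) (by linarith) (by norm_num) (by norm_num)
  have L8 : Line κ h (4 / 5) (199 / 250) (199 / 625) := Line.stepN (l := 199 / 200) (τm := 3927 / 1250) hk1 h0.le L7 (by norm_num) (by norm_num)
    (fun τ a b => e2_3_10 hκ a b) (by linarith) (by linarith) (by norm_num) (by norm_num)
  have L9 : Line κ h (9 / 10) (1791 / 2000) (16119 / 40000) := Line.stepN (l := 199 / 200) (τm := 3927 / 1250) hk1 h0.le L8 (by norm_num) (by norm_num)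
    (fun τ a b => e2_3_10 hκ a b) (by linarith) (by linarith) (by norm_num) (by norm_num)
  have L10 : Line κ h 1 (199 / 200) (199 / 400) := Line.stepN (l := 199 / 200) (τm := 3927 / 1250) hk1 h0.le L9 (by norm_num) (by norm_num)
    (fun τ a b => e2_3_10 hκ a b) (by linarith) (by linarith) (by norm_num) (by norm_num)
  have m1 : ∀ z ∈ Icc (-29 / 50 : ℝ) (-1 / 2), 89 / 100 ≤ yv κ ((z + 1) * h) / h - yv κ (z * h) / h :=
    mu_piece (a := 2 / 5) (S := 199 / 500) (C := 199 / 2500) (l := 199 / 200) (τm := 3927 / 1250) (H₁ := 40277 / 50000) (mp := 47591 / 100000) (mq := 420151 / 1000000) hk1 h0 (by linarith)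
      L4 (by norm_num) (by norm_num) (by norm_num) (fun τ a b => e2_3_10 hκ a b) (by linarith) (by linarith)
      (exp_le_bd (by norm_num) (by norm_num) (by norm_num [Finset.sum_range_succ, Nat.factorial])) (exp_le_bd (by norm_num) (by norm_num) (by norm_num [Finset.sum_range_succ, Nat.factorial]))
      (by norm_num) (by norm_num)
  have m2 : ∀ z ∈ Icc (-1 / 2 : ℝ) (-2 / 5), 89 / 100 ≤ yv κ ((z + 1) * h) / h - yv κ (z * h) / h :=
    mu_piece (a := 1 / 2) (S := 199 / 400) (C := 199 / 1600) (l := 199 / 200) (τm := 3927 / 1250) (H₁ := 40277 / 50000) (mp := 420151 / 1000000) (mq := 69347 / 200000) hk1 h0 (by linarith)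
      L5 (by norm_num) (by norm_num) (by norm_num) (fun τ a b => e2_3_10 hκ a b) (by linarith) (by linarith)
      (exp_le_bd (by norm_num) (by norm_num) (by norm_num [Finset.sum_range_succ, Nat.factorial])) (exp_le_bd (by norm_num) (by norm_num) (by norm_num [Finset.sum_range_succ, Nat.factorial]))
      (by norm_num) (by norm_num)
  have m3 : ∀ z ∈ Icc (-2 / 5 : ℝ) (-37 / 100), 89 / 100 ≤ yv κ ((z + 1) * h) / h - yv κ (z * h) / h :=
    mu_piece (a := 3 / 5) (S := 597 / 1000) (C := 1791 / 10000) (l := 199 / 200) (τm := 3927 / 1250) (H₁ := 40277 / 50000) (mp := 69347 / 200000) (mq := 80959 / 250000) hk1 h0 (by linarith)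
      L6 (by norm_num) (by norm_num) (by norm_num) (fun τ a b => e2_3_10 hκ a b) (by linarith) (by linarith)
      (exp_le_bd (by norm_num) (by norm_num) (by norm_num [Finset.sum_range_succ, Nat.factorial])) (exp_le_bd (by norm_num) (by norm_num) (by norm_num [Finset.sum_range_succ, Nat.factorial]))
      (by norm_num) (by norm_num)
  exact ⟨L10.weaken h0.le (by norm_num) (by norm_num), L7.weaken h0.le (by norm_num) (by norm_num),
    Line.f1R (τm := 197921 / 100000) hk1 h0 L6 (by norm_num) (by linarith) (by linarith) (by norm_num), mu_glue (mu_glue m1 m2) m3⟩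

/-- class 2_3: line at `1 + qL`, curvature up to `1 + qR` -/
theorem lr2_3 {κ h : ℝ} (hκ : 39 / 10 ≤ κ) (h0 : 0 < h) (hh : h ≤ 2 * π / 2) :
    Line κ h (1 + (-29 / 50)) (4179 / 10000) (87759 / 1000000) ∧ (∀ τ, 0 ≤ τ → τ ≤ 3927 / 1250 → 199 / 200 ≤ lv κ τ) ∧ (1 + (-37 / 100)) * h ≤ (3927 / 1250) ∧ (3927 / 1250) < κ + π / 2 := by
  have hk1 : 1 ≤ κ := by linarith
  have hp4 := Real.pi_lt_d4
  have hp3 := Real.pi_gt_d2
  have hhq : h ≤ 3927 / 1250 := by
    refine hh.trans ?_
    rw [div_le_iff₀ (by norm_num)]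
    linarith
  have L1 : Line κ h (1 / 10) (199 / 2000) (199 / 40000) := Line.stepN (l := 199 / 200) (τm := 3927 / 1250) hk1 h0.le (Line.zero hk1) (by norm_num) (by norm_num)
    (fun τ a b => e2_3_10 hκ a b) (by linarith) (by linarith) (by norm_num) (by norm_num)
  have L2 : Line κ h (1 / 5) (199 / 1000) (199 / 10000) := Line.stepN (l := 199 / 200) (τm := 3927 / 1250) hk1 h0.le L1 (by norm_num) (by norm_num)
    (fun τ a b => e2_3_10 hκ a b) (by linarith) (by linarith) (by norm_num) (by norm_num)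
  have L3 : Line κ h (3 / 10) (597 / 2000) (1791 / 40000) := Line.stepN (l := 199 / 200) (τm := 3927 / 1250) hk1 h0.le L2 (by norm_num) (by norm_num)
    (fun τ a b => e2_3_10 hκ a b) (by linarith) (by linarith) (by norm_num) (by norm_num)
  have L4 : Line κ h (2 / 5) (199 / 500) (199 / 2500) := Line.stepN (l := 199 / 200) (τm := 3927 / 1250) hk1 h0.le L3 (by norm_num) (by norm_num)
    (fun τ a b => e2_3_10 hκ a b) (by linarith) (by linarith) (by norm_num) (by norm_num)
  exact ⟨Line.stepN (l := 199 / 200) (τm := 3927 / 1250) hk1 h0.le L4 (by norm_num) (by norm_num)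
    (fun τ a b => e2_3_10 hκ a b) (by linarith) (by linarith) (by norm_num) (by norm_num), fun τ a b => e2_3_10 hκ a b,
    by linarith, by linarith⟩

private theorem e2_4_10 {κ τ : ℝ} (hκ : 21 / 5 ≤ κ) (h0 : 0 ≤ τ) (hm : τ ≤ 3927 / 1250) : 199 / 200 ≤ lv κ τ :=
  lv_ge_num (κ₀ := 21 / 5) (y := 17157 / 20000) (Fl := 471617 / 200000) (Fh := 1179043 / 500000) (xl := 15609 / 10000) (xh := 156091 / 100000) (τm := 3927 / 1250) (θ := 12563 / 25000)
    (by norm_num) (by norm_num) (by norm_num)
    (exp_bds (by norm_num) (by norm_num) (by norm_num [Finset.sum_range_succ, Nat.factorial])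
      (by norm_num [Finset.sum_range_succ, Nat.factorial]))
    (by norm_num) (by norm_num) (by norm_num) (by norm_num) (by norm_num) (by norm_num) (by norm_num) (by norm_num)
    (by norm_num) (by norm_num) (by norm_num) (by norm_num) hκ h0 hm

/-- class 2_4: `b = 2`, `κ ≥ 21 / 5` -/
theorem ld2_4 {κ h : ℝ} (hκ : 21 / 5 ≤ κ) (h0 : 0 < h) (hh : h ≤ 2 * π / 2) :
    LineData κ h 1 (199 / 200) (199 / 400) (1393 / 2000) (61 / 250) (-23 / 40) (-3 / 8) (969 / 5000) (9 / 10) := by
  have hk1 : 1 ≤ κ := by linarith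
  have hp4 := Real.pi_lt_d4
  have hp3 := Real.pi_gt_d2
  have hhq : h ≤ 3927 / 1250 := by
    refine hh.trans ?_
    rw [div_le_iff₀ (by norm_num)]
    linarith
  have L1 : Line κ h (1 / 10) (199 / 2000) (199 / 40000) := Line.stepN (l := 199 / 200) (τm := 3927 / 1250) hk1 h0.le (Line.zero hk1) (by norm_num) (by norm_num)
    (fun τ a b => e2_4_10 hκ a b) (by linarith) (by linarith) (by norm_num) (by norm_num)
  have L2 : Line κ h (1 / 5) (199 / 1000) (199 / 10000) := Line.stepN (l := 199 / 200) (τm := 3927 / 1250) hk1 h0.le L1 (by norm_num) (by norm_num)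
    (fun τ a b => e2_4_10 hκ a b) (by linarith) (by linarith) (by norm_num) (by norm_num)
  have L3 : Line κ h (3 / 10) (597 / 2000) (1791 / 40000) := Line.stepN (l := 199 / 200) (τm := 3927 / 1250) hk1 h0.le L2 (by norm_num) (by norm_num)
    (fun τ a b => e2_4_10 hκ a b) (by linarith) (by linarith) (by norm_num) (by norm_num)
  have L4 : Line κ h (2 / 5) (199 / 500) (199 / 2500) := Line.stepN (l := 199 / 200) (τm := 3927 / 1250) hk1 h0.le L3 (by norm_num) (by norm_num)
    (fun τ a b => e2_4_10 hκ a b) (by linarith) (by linarith) (by norm_num) (by norm_num)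
  have L5 : Line κ h (1 / 2) (199 / 400) (199 / 1600) := Line.stepN (l := 199 / 200) (τm := 3927 / 1250) hk1 h0.le L4 (by norm_num) (by norm_num)
    (fun τ a b => e2_4_10 hκ a b) (by linarith) (by linarith) (by norm_num) (by norm_num)
  have L6 : Line κ h (3 / 5) (597 / 1000) (1791 / 10000) := Line.stepN (l := 199 / 200) (τm := 3927 / 1250) hk1 h0.le L5 (by norm_num) (by norm_num)
    (fun τ a b => e2_4_10 hκ a b) (by linarith) (by linarith) (by norm_num) (by norm_num)
  have L7 : Line κ h (7 / 10) (1393 / 2000) (9751 / 40000) := Line.stepN (l := 199 / 200) (τm := 3927 / 1250) hk1 h0.le L6 (by norm_num) (by norm_num)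
    (fun τ a b => e2_4_10 hκ a b) (by linarith) (by linarith) (by norm_num) (by norm_num)
  have L8 : Line κ h (4 / 5) (199 / 250) (199 / 625) := Line.stepN (l := 199 / 200) (τm := 3927 / 1250) hk1 h0.le L7 (by norm_num) (by norm_num)
    (fun τ a b => e2_4_10 hκ a b) (by linarith) (by linarith) (by norm_num) (by norm_num)
  have L9 : Line κ h (9 / 10) (1791 / 2000) (16119 / 40000) := Line.stepN (l := 199 / 200) (τm := 3927 / 1250) hk1 h0.le L8 (by norm_num) (by norm_num)
    (fun τ a b => e2_4_10 hκ a b) (by linarith) (by linarith) (by norm_num) (by norm_num)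
  have L10 : Line κ h 1 (199 / 200) (199 / 400) := Line.stepN (l := 199 / 200) (τm := 3927 / 1250) hk1 h0.le L9 (by norm_num) (by norm_num)
    (fun τ a b => e2_4_10 hκ a b) (by linarith) (by linarith) (by norm_num) (by norm_num)
  have m1 : ∀ z ∈ Icc (-23 / 40 : ℝ) (-1 / 2), 9 / 10 ≤ yv κ ((z + 1) * h) / h - yv κ (z * h) / h :=
    mu_piece (a := 2 / 5) (S := 199 / 500) (C := 199 / 2500) (l := 199 / 200) (τm := 3927 / 1250) (H₁ := 187 / 250) (mp := 478267 / 1000000) (mq := 424767 / 1000000) hk1 h0 (by linarith)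
      L4 (by norm_num) (by norm_num) (by norm_num) (fun τ a b => e2_4_10 hκ a b) (by linarith) (by linarith)
      (exp_le_bd (by norm_num) (by norm_num) (by norm_num [Finset.sum_range_succ, Nat.factorial])) (exp_le_bd (by norm_num) (by norm_num) (by norm_num [Finset.sum_range_succ, Nat.factorial]))
      (by norm_num) (by norm_num)
  have m2 : ∀ z ∈ Icc (-1 / 2 : ℝ) (-2 / 5), 9 / 10 ≤ yv κ ((z + 1) * h) / h - yv κ (z * h) / h :=
    mu_piece (a := 1 / 2) (S := 199 / 400) (C := 199 / 1600) (l := 199 / 200) (τm := 3927 / 1250) (H₁ := 187 / 250) (mp := 424767 / 1000000) (mq := 349931 / 1000000) hk1 h0 (by linarith)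
      L5 (by norm_num) (by norm_num) (by norm_num) (fun τ a b => e2_4_10 hκ a b) (by linarith) (by linarith)
      (exp_le_bd (by norm_num) (by norm_num) (by norm_num [Finset.sum_range_succ, Nat.factorial])) (exp_le_bd (by norm_num) (by norm_num) (by norm_num [Finset.sum_range_succ, Nat.factorial]))
      (by norm_num) (by norm_num)
  have m3 : ∀ z ∈ Icc (-2 / 5 : ℝ) (-3 / 8), 9 / 10 ≤ yv κ ((z + 1) * h) / h - yv κ (z * h) / h :=
    mu_piece (a := 3 / 5) (S := 597 / 1000) (C := 1791 / 10000) (l := 199 / 200) (τm := 3927 / 1250) (H₁ := 187 / 250) (mp := 349931 / 1000000) (mq := 82637 / 250000) hk1 h0 (by linarith)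
      L6 (by norm_num) (by norm_num) (by norm_num) (fun τ a b => e2_4_10 hκ a b) (by linarith) (by linarith)
      (exp_le_bd (by norm_num) (by norm_num) (by norm_num [Finset.sum_range_succ, Nat.factorial])) (exp_le_bd (by norm_num) (by norm_num) (by norm_num [Finset.sum_range_succ, Nat.factorial]))
      (by norm_num) (by norm_num)
  exact ⟨L10.weaken h0.le (by norm_num) (by norm_num), L7.weaken h0.le (by norm_num) (by norm_num),
    Line.f1R (τm := 3927 / 2000) hk1 h0 L6 (by norm_num) (by linarith) (by linarith) (by norm_num), mu_glue (mu_glue m1 m2) m3⟩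

/-- class 2_4: line at `1 + qL`, curvature up to `1 + qR` -/
theorem lr2_4 {κ h : ℝ} (hκ : 21 / 5 ≤ κ) (h0 : 0 < h) (hh : h ≤ 2 * π / 2) :
    Line κ h (1 + (-23 / 40)) (3383 / 8000) (57511 / 640000) ∧ (∀ τ, 0 ≤ τ → τ ≤ 3927 / 1250 → 199 / 200 ≤ lv κ τ) ∧ (1 + (-3 / 8)) * h ≤ (3927 / 1250) ∧ (3927 / 1250) < κ + π / 2 := by
  have hk1 : 1 ≤ κ := by linarith
  have hp4 := Real.pi_lt_d4
  have hp3 := Real.pi_gt_d2
  have hhq : h ≤ 3927 / 1250 := by
    refine hh.trans ?_
    rw [div_le_iff₀ (by norm_num)]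
    linarith
  have L1 : Line κ h (1 / 10) (199 / 2000) (199 / 40000) := Line.stepN (l := 199 / 200) (τm := 3927 / 1250) hk1 h0.le (Line.zero hk1) (by norm_num) (by norm_num)
    (fun τ a b => e2_4_10 hκ a b) (by linarith) (by linarith) (by norm_num) (by norm_num)
  have L2 : Line κ h (1 / 5) (199 / 1000) (199 / 10000) := Line.stepN (l := 199 / 200) (τm := 3927 / 1250) hk1 h0.le L1 (by norm_num) (by norm_num)
    (fun τ a b => e2_4_10 hκ a b) (by linarith) (by linarith) (by norm_num) (by norm_num)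
  have L3 : Line κ h (3 / 10) (597 / 2000) (1791 / 40000) := Line.stepN (l := 199 / 200) (τm := 3927 / 1250) hk1 h0.le L2 (by norm_num) (by norm_num)
    (fun τ a b => e2_4_10 hκ a b) (by linarith) (by linarith) (by norm_num) (by norm_num)
  have L4 : Line κ h (2 / 5) (199 / 500) (199 / 2500) := Line.stepN (l := 199 / 200) (τm := 3927 / 1250) hk1 h0.le L3 (by norm_num) (by norm_num)
    (fun τ a b => e2_4_10 hκ a b) (by linarith) (by linarith) (by norm_num) (by norm_num)
  exact ⟨Line.stepN (l := 199 / 200) (τm := 3927 / 1250) hk1 h0.le L4 (by norm_num) (by norm_num)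
    (fun τ a b => e2_4_10 hκ a b) (by linarith) (by linarith) (by norm_num) (by norm_num), fun τ a b => e2_4_10 hκ a b,
    by linarith, by linarith⟩

end R2

end Sok
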