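import Pool.Agent.Lib.MP_816dec_an.R2LineN

/-!
MP_816dec_an, row R2 (5), (6): the right lines of the classes b = 3 (numbers of `R2Cls`).
-/

set_option autoImplicit false

open Set Filter Topology Real

namespace Sok

namespace R2

private theorem e3_1_1 {κ τ : ℝ} (hκ : 139 / 100 ≤ κ) (h0 : 0 ≤ τ) (hm : τ ≤ 1309 / 6250) : 19 / 20 ≤ lv κ τ :=
  lv_ge_num (κ₀ := 139 / 100) (y := 607 / 6250) (Fl := 137749 / 125000) (Fh := 1101993 / 1000000) (xl := 786 / 625) (xh := 125761 / 100000) (τm := 1309 / 6250) (θ := 7707 / 100000)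
    (by norm_num) (by norm_num) (by norm_num)
    (exp_bds (by norm_num) (by norm_num) (by norm_num [Finset.sum_range_succ, Nat.factorial])
      (by norm_num [Finset.sum_range_succ, Nat.factorial]))
    (by norm_num) (by norm_num) (by norm_num) (by norm_num) (by norm_num) (by norm_num) (by norm_num) (by norm_num)
    (by norm_num) (by norm_num) (by norm_num) (by norm_num) hκ h0 hm

private theorem e3_1_2 {κ τ : ℝ} (hκ : 139 / 100 ≤ κ) (h0 : 0 ≤ τ) (hm : τ ≤ 1309 / 3125) : 22 / 25 ≤ lv κ τ :=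
  lv_ge_num (κ₀ := 139 / 100) (y := 18853 / 100000) (Fl := 1207473 / 1000000) (Fh := 603737 / 500000) (xl := 56781 / 50000) (xh := 113563 / 100000) (τm := 1309 / 3125) (θ := 16451 / 100000)
    (by norm_num) (by norm_num) (by norm_num)
    (exp_bds (by norm_num) (by norm_num) (by norm_num [Finset.sum_range_succ, Nat.factorial])
      (by norm_num [Finset.sum_range_succ, Nat.factorial]))
    (by norm_num) (by norm_num) (by norm_num) (by norm_num) (by norm_num) (by norm_num) (by norm_num) (by norm_num)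
    (by norm_num) (by norm_num) (by norm_num) (by norm_num) hκ h0 hm

private theorem e3_1_3 {κ τ : ℝ} (hκ : 139 / 100 ≤ κ) (h0 : 0 ≤ τ) (hm : τ ≤ 3927 / 6250) : 161 / 200 ≤ lv κ τ :=
  lv_ge_num (κ₀ := 139 / 100) (y := 13639 / 50000) (Fl := 1313611 / 1000000) (Fh := 328403 / 250000) (xl := 51119 / 50000) (xh := 102239 / 100000) (τm := 3927 / 6250) (θ := 26073 / 100000)
    (by norm_num) (by norm_num) (by norm_num)
    (exp_bds (by norm_num) (by norm_num) (by norm_num [Finset.sum_range_succ, Nat.factorial])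
      (by norm_num [Finset.sum_range_succ, Nat.factorial]))
    (by norm_num) (by norm_num) (by norm_num) (by norm_num) (by norm_num) (by norm_num) (by norm_num) (by norm_num)
    (by norm_num) (by norm_num) (by norm_num) (by norm_num) hκ h0 hm

private theorem e3_1_4 {κ τ : ℝ} (hκ : 139 / 100 ≤ κ) (h0 : 0 ≤ τ) (hm : τ ≤ 2618 / 3125) : 18 / 25 ≤ lv κ τ :=
  lv_ge_num (κ₀ := 139 / 100) (y := 6981 / 20000) (Fl := 35443 / 25000) (Fh := 1417721 / 1000000) (xl := 4581 / 5000) (xh := 45811 / 50000) (τm := 2618 / 3125) (θ := 36399 / 100000)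
    (by norm_num) (by norm_num) (by norm_num)
    (exp_bds (by norm_num) (by norm_num) (by norm_num [Finset.sum_range_succ, Nat.factorial])
      (by norm_num [Finset.sum_range_succ, Nat.factorial]))
    (by norm_num) (by norm_num) (by norm_num) (by norm_num) (by norm_num) (by norm_num) (by norm_num) (by norm_num)
    (by norm_num) (by norm_num) (by norm_num) (by norm_num) hκ h0 hm

private theorem e3_1_5 {κ τ : ℝ} (hκ : 139 / 100 ≤ κ) (h0 : 0 ≤ τ) (hm : τ ≤ 1309 / 1250) : 16 / 25 ≤ lv κ τ :=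
  lv_ge_num (κ₀ := 139 / 100) (y := 41707 / 100000) (Fl := 379377 / 250000) (Fh := 1517509 / 1000000) (xl := 81551 / 100000) (xh := 5097 / 6250) (τm := 1309 / 1250) (θ := 47273 / 100000)
    (by norm_num) (by norm_num) (by norm_num)
    (exp_bds (by norm_num) (by norm_num) (by norm_num [Finset.sum_range_succ, Nat.factorial])
      (by norm_num [Finset.sum_range_succ, Nat.factorial]))
    (by norm_num) (by norm_num) (by norm_num) (by norm_num) (by norm_num) (by norm_num) (by norm_num) (by norm_num)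
    (by norm_num) (by norm_num) (by norm_num) (by norm_num) hκ h0 hm

private theorem e3_1_6 {κ τ : ℝ} (hκ : 139 / 100 ≤ κ) (h0 : 0 ≤ τ) (hm : τ ≤ 3927 / 3125) : 14 / 25 ≤ lv κ τ :=
  lv_ge_num (κ₀ := 139 / 100) (y := 4769 / 10000) (Fl := 25173 / 15625) (Fh := 1611073 / 1000000) (xl := 71899 / 100000) (xh := 719 / 1000) (τm := 3927 / 3125) (θ := 11713 / 20000)
    (by norm_num) (by norm_num) (by norm_num)
    (exp_bds (by norm_num) (by norm_num) (by norm_num [Finset.sum_range_succ, Nat.factorial])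
      (by norm_num [Finset.sum_range_succ, Nat.factorial]))
    (by norm_num) (by norm_num) (by norm_num) (by norm_num) (by norm_num) (by norm_num) (by norm_num) (by norm_num)
    (by norm_num) (by norm_num) (by norm_num) (by norm_num) hκ h0 hm

private theorem e3_1_7 {κ τ : ℝ} (hκ : 139 / 100 ≤ κ) (h0 : 0 ≤ τ) (hm : τ ≤ 9163 / 6250) : 12 / 25 ≤ lv κ τ :=
  lv_ge_num (κ₀ := 139 / 100) (y := 52879 / 100000) (Fl := 1696877 / 1000000) (Fh := 848439 / 500000) (xl := 62561 / 100000) (xh := 31281 / 50000) (τm := 9163 / 6250) (θ := 70171 / 100000)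
    (by norm_num) (by norm_num) (by norm_num)
    (exp_bds (by norm_num) (by norm_num) (by norm_num [Finset.sum_range_succ, Nat.factorial])
      (by norm_num [Finset.sum_range_succ, Nat.factorial]))
    (by norm_num) (by norm_num) (by norm_num) (by norm_num) (by norm_num) (by norm_num) (by norm_num) (by norm_num)
    (by norm_num) (by norm_num) (by norm_num) (by norm_num) hκ h0 hm

/-- class 3_1: `b = 3`, `κ ≥ 139 / 100` -/
theorem ld3_1 {κ h : ℝ} (hκ : 139 / 100 ≤ κ) (h0 : 0 < h) (hh : h ≤ 2 * π / 3) :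
    LineData κ h (7 / 10) (1007 / 2000) (309 / 2000) (1007 / 2000) (309 / 2000) (-109 / 200) (-87 / 200) (671 / 5000) (153 / 200) := by
  have hk1 : 1 ≤ κ := by linarith
  have hp4 := Real.pi_lt_d4
  have hp3 := Real.pi_gt_d2
  have hhq : h ≤ 1309 / 625 := by
    refine hh.trans ?_
    rw [div_le_iff₀ (by norm_num)]
    linarith
  have L1 : Line κ h (1 / 10) (19 / 200) (19 / 4000) := Line.stepN (l := 19 / 20) (τm := 1309 / 6250) hk1 h0.le (Line.zero hk1) (by norm_num) (by norm_num)
    (fun τ a b => e3_1_1 hκ a b) (by linarith) (by linarith) (by norm_num) (by norm_num)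
  have L2 : Line κ h (1 / 5) (183 / 1000) (359 / 20000) := Line.stepN (l := 22 / 25) (τm := 1309 / 3125) hk1 h0.le L1 (by norm_num) (by norm_num)
    (fun τ a b => e3_1_2 hκ a b) (by linarith) (by linarith) (by norm_num) (by norm_num)
  have L3 : Line κ h (3 / 10) (527 / 2000) (1523 / 40000) := Line.stepN (l := 161 / 200) (τm := 3927 / 6250) hk1 h0.le L2 (by norm_num) (by norm_num)
    (fun τ a b => e3_1_3 hκ a b) (by linarith) (by linarith) (by norm_num) (by norm_num)
  have L4 : Line κ h (2 / 5) (671 / 2000) (2531 / 40000) := Line.stepN (l := 18 / 25) (τm := 2618 / 3125) hk1 h0.le L3 (by norm_num) (by norm_num)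
    (fun τ a b => e3_1_4 hκ a b) (by linarith) (by linarith) (by norm_num) (by norm_num)
  have L5 : Line κ h (1 / 2) (799 / 2000) (3683 / 40000) := Line.stepN (l := 16 / 25) (τm := 1309 / 1250) hk1 h0.le L4 (by norm_num) (by norm_num)
    (fun τ a b => e3_1_5 hκ a b) (by linarith) (by linarith) (by norm_num) (by norm_num)
  have L6 : Line κ h (3 / 5) (911 / 2000) (983 / 8000) := Line.stepN (l := 14 / 25) (τm := 3927 / 3125) hk1 h0.le L5 (by norm_num) (by norm_num)
    (fun τ a b => e3_1_6 hκ a b) (by linarith) (by linarith) (by norm_num) (by norm_num)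
  have L7 : Line κ h (7 / 10) (1007 / 2000) (6163 / 40000) := Line.stepN (l := 12 / 25) (τm := 9163 / 6250) hk1 h0.le L6 (by norm_num) (by norm_num)
    (fun τ a b => e3_1_7 hκ a b) (by linarith) (by linarith) (by norm_num) (by norm_num)
  have m1 : ∀ z ∈ Icc (-109 / 200 : ℝ) (-1 / 2), 153 / 200 ≤ yv κ ((z + 1) * h) / h - yv κ (z * h) / h :=
    mu_piece (a := 2 / 5) (S := 671 / 2000) (C := 2531 / 40000) (l := 16 / 25) (τm := 1309 / 1250) (H₁ := 150677 / 100000) (mp := 49733 / 125000) (mq := 372683 / 1000000) hk1 h0 (by linarith)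
      L4 (by norm_num) (by norm_num) (by norm_num) (fun τ a b => e3_1_5 hκ a b) (by linarith) (by linarith)
      (exp_le_bd (by norm_num) (by norm_num) (by norm_num [Finset.sum_range_succ, Nat.factorial])) (exp_le_bd (by norm_num) (by norm_num) (by norm_num [Finset.sum_range_succ, Nat.factorial]))
      (by norm_num) (by norm_num)
  have m2 : ∀ z ∈ Icc (-1 / 2 : ℝ) (-87 / 200), 153 / 200 ≤ yv κ ((z + 1) * h) / h - yv κ (z * h) / h :=
    mu_piece (a := 1 / 2) (S := 799 / 2000) (C := 3683 / 40000) (l := 14 / 25) (τm := 3927 / 3125) (H₁ := 150677 / 100000) (mp := 372683 / 1000000) (mq := 41817 / 125000) hk1 h0 (by linarith)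
      L5 (by norm_num) (by norm_num) (by norm_num) (fun τ a b => e3_1_6 hκ a b) (by linarith) (by linarith)
      (exp_le_bd (by norm_num) (by norm_num) (by norm_num [Finset.sum_range_succ, Nat.factorial])) (exp_le_bd (by norm_num) (by norm_num) (by norm_num [Finset.sum_range_succ, Nat.factorial]))
      (by norm_num) (by norm_num)
  exact ⟨L7.weaken h0.le (by norm_num) (by norm_num), L7.weaken h0.le (by norm_num) (by norm_num),
    Line.f1R (τm := 59167 / 50000) hk1 h0 L6 (by norm_num) (by linarith) (by linarith) (by norm_num), mu_glue m1 m2⟩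

/-- class 3_1: line at `1 + qL`, curvature up to `1 + qR` -/
theorem lr3_1 {κ h : ℝ} (hκ : 139 / 100 ≤ κ) (h0 : 0 < h) (hh : h ≤ 2 * π / 3) :
    Line κ h (1 + (-109 / 200)) (3707 / 10000) (78323 / 1000000) ∧ (∀ τ, 0 ≤ τ → τ ≤ 3927 / 3125 → 14 / 25 ≤ lv κ τ) ∧ (1 + (-87 / 200)) * h ≤ (3927 / 3125) ∧ (3927 / 3125) < κ + π / 2 := by
  have hk1 : 1 ≤ κ := by linarith
  have hp4 := Real.pi_lt_d4
  have hp3 := Real.pi_gt_d2
  have hhq : h ≤ 1309 / 625 := by
    refine hh.trans ?_
    rw [div_le_iff₀ (by norm_num)]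
    linarith
  have L1 : Line κ h (1 / 10) (19 / 200) (19 / 4000) := Line.stepN (l := 19 / 20) (τm := 1309 / 6250) hk1 h0.le (Line.zero hk1) (by norm_num) (by norm_num)
    (fun τ a b => e3_1_1 hκ a b) (by linarith) (by linarith) (by norm_num) (by norm_num)
  have L2 : Line κ h (1 / 5) (183 / 1000) (359 / 20000) := Line.stepN (l := 22 / 25) (τm := 1309 / 3125) hk1 h0.le L1 (by norm_num) (by norm_num)
    (fun τ a b => e3_1_2 hκ a b) (by linarith) (by linarith) (by norm_num) (by norm_num)
  have L3 : Line κ h (3 / 10) (527 / 2000) (1523 / 40000) := Line.stepN (l := 161 / 200) (τm := 3927 / 6250) hk1 h0.le L2 (by norm_num) (by norm_num)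
    (fun τ a b => e3_1_3 hκ a b) (by linarith) (by linarith) (by norm_num) (by norm_num)
  have L4 : Line κ h (2 / 5) (671 / 2000) (2531 / 40000) := Line.stepN (l := 18 / 25) (τm := 2618 / 3125) hk1 h0.le L3 (by norm_num) (by norm_num)
    (fun τ a b => e3_1_4 hκ a b) (by linarith) (by linarith) (by norm_num) (by norm_num)
  exact ⟨Line.stepN (l := 16 / 25) (τm := 1309 / 1250) hk1 h0.le L4 (by norm_num) (by norm_num)
    (fun τ a b => e3_1_5 hκ a b) (by linarith) (by linarith) (by norm_num) (by norm_num), fun τ a b => e3_1_6 hκ a b,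
    by linarith, by linarith⟩

private theorem e3_2_1 {κ τ : ℝ} (hκ : 8 / 5 ≤ κ) (h0 : 0 ≤ τ) (hm : τ ≤ 1309 / 6250) : 39 / 40 ≤ lv κ τ :=
  lv_ge_num (κ₀ := 8 / 5) (y := 373 / 4000) (Fl := 137217 / 125000) (Fh := 1097737 / 1000000) (xl := 29091 / 20000) (xh := 9091 / 6250) (τm := 1309 / 6250) (θ := 3201 / 50000)
    (by norm_num) (by norm_num) (by norm_num)
    (exp_bds (by norm_num) (by norm_num) (by norm_num [Finset.sum_range_succ, Nat.factorial])
      (by norm_num [Finset.sum_range_succ, Nat.factorial]))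
    (by norm_num) (by norm_num) (by norm_num) (by norm_num) (by norm_num) (by norm_num) (by norm_num) (by norm_num)
    (by norm_num) (by norm_num) (by norm_num) (by norm_num) hκ h0 hm

private theorem e3_2_2 {κ τ : ℝ} (hκ : 8 / 5 ≤ κ) (h0 : 0 ≤ τ) (hm : τ ≤ 1309 / 3125) : 93 / 100 ≤ lv κ τ :=
  lv_ge_num (κ₀ := 8 / 5) (y := 18339 / 100000) (Fl := 600641 / 500000) (Fh := 1201283 / 1000000) (xl := 65961 / 50000) (xh := 131923 / 100000) (τm := 1309 / 3125) (θ := 3453 / 25000)
    (by norm_num) (by norm_num) (by norm_num)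
    (exp_bds (by norm_num) (by norm_num) (by norm_num [Finset.sum_range_succ, Nat.factorial])
      (by norm_num [Finset.sum_range_succ, Nat.factorial]))
    (by norm_num) (by norm_num) (by norm_num) (by norm_num) (by norm_num) (by norm_num) (by norm_num) (by norm_num)
    (by norm_num) (by norm_num) (by norm_num) (by norm_num) hκ h0 hm

private theorem e3_2_3 {κ τ : ℝ} (hκ : 8 / 5 ≤ κ) (h0 : 0 ≤ τ) (hm : τ ≤ 3927 / 6250) : 87 / 100 ≤ lv κ τ :=
  lv_ge_num (κ₀ := 8 / 5) (y := 26867 / 100000) (Fl := 1308223 / 1000000) (Fh := 20441 / 15625) (xl := 23863 / 20000) (xh := 29829 / 25000) (τm := 3927 / 6250) (θ := 5537 / 25000)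
    (by norm_num) (by norm_num) (by norm_num)
    (exp_bds (by norm_num) (by norm_num) (by norm_num [Finset.sum_range_succ, Nat.factorial])
      (by norm_num [Finset.sum_range_succ, Nat.factorial]))
    (by norm_num) (by norm_num) (by norm_num) (by norm_num) (by norm_num) (by norm_num) (by norm_num) (by norm_num)
    (by norm_num) (by norm_num) (by norm_num) (by norm_num) hκ h0 hm

private theorem e3_2_4 {κ τ : ℝ} (hκ : 8 / 5 ≤ κ) (h0 : 0 ≤ τ) (hm : τ ≤ 2618 / 3125) : 4 / 5 ≤ lv κ τ :=
  lv_ge_num (κ₀ := 8 / 5) (y := 34781 / 100000) (Fl := 1415963 / 1000000) (Fh := 353991 / 250000) (xl := 107511 / 100000) (xh := 13439 / 12500) (τm := 2618 / 3125) (θ := 3911 / 12500)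
    (by norm_num) (by norm_num) (by norm_num)
    (exp_bds (by norm_num) (by norm_num) (by norm_num [Finset.sum_range_succ, Nat.factorial])
      (by norm_num [Finset.sum_range_succ, Nat.factorial]))
    (by norm_num) (by norm_num) (by norm_num) (by norm_num) (by norm_num) (by norm_num) (by norm_num) (by norm_num)
    (by norm_num) (by norm_num) (by norm_num) (by norm_num) hκ h0 hm

private theorem e3_2_5 {κ τ : ℝ} (hκ : 8 / 5 ≤ κ) (h0 : 0 ≤ τ) (hm : τ ≤ 1309 / 1250) : 29 / 40 ≤ lv κ τ :=
  lv_ge_num (κ₀ := 8 / 5) (y := 41999 / 100000) (Fl := 760973 / 500000) (Fh := 1521947 / 1000000) (xl := 48187 / 50000) (xh := 771 / 800) (τm := 1309 / 1250) (θ := 41097 / 100000)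
    (by norm_num) (by norm_num) (by norm_num)
    (exp_bds (by norm_num) (by norm_num) (by norm_num [Finset.sum_range_succ, Nat.factorial])
      (by norm_num [Finset.sum_range_succ, Nat.factorial]))
    (by norm_num) (by norm_num) (by norm_num) (by norm_num) (by norm_num) (by norm_num) (by norm_num) (by norm_num)
    (by norm_num) (by norm_num) (by norm_num) (by norm_num) hκ h0 hm

private theorem e3_2_6 {κ τ : ℝ} (hκ : 8 / 5 ≤ κ) (h0 : 0 ≤ τ) (hm : τ ≤ 3927 / 3125) : 129 / 200 ≤ lv κ τ :=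
  lv_ge_num (κ₀ := 8 / 5) (y := 48481 / 100000) (Fl := 811933 / 500000) (Fh := 1623867 / 1000000) (xl := 85777 / 100000) (xh := 42889 / 50000) (τm := 3927 / 3125) (θ := 51443 / 100000)
    (by norm_num) (by norm_num) (by norm_num)
    (exp_bds (by norm_num) (by norm_num) (by norm_num [Finset.sum_range_succ, Nat.factorial])
      (by norm_num [Finset.sum_range_succ, Nat.factorial]))
    (by norm_num) (by norm_num) (by norm_num) (by norm_num) (by norm_num) (by norm_num) (by norm_num) (by norm_num)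
    (by norm_num) (by norm_num) (by norm_num) (by norm_num) hκ h0 hm

private theorem e3_2_7 {κ τ : ℝ} (hκ : 8 / 5 ≤ κ) (h0 : 0 ≤ τ) (hm : τ ≤ 9163 / 6250) : 113 / 200 ≤ lv κ τ :=
  lv_ge_num (κ₀ := 8 / 5) (y := 54219 / 100000) (Fl := 1719769 / 1000000) (Fh := 171977 / 100000) (xl := 75603 / 100000) (xh := 18901 / 25000) (τm := 9163 / 6250) (θ := 62213 / 100000)
    (by norm_num) (by norm_num) (by norm_num)
    (exp_bds (by norm_num) (by norm_num) (by norm_num [Finset.sum_range_succ, Nat.factorial])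
      (by norm_num [Finset.sum_range_succ, Nat.factorial]))
    (by norm_num) (by norm_num) (by norm_num) (by norm_num) (by norm_num) (by norm_num) (by norm_num) (by norm_num)
    (by norm_num) (by norm_num) (by norm_num) (by norm_num) hκ h0 hm

/-- class 3_2: `b = 3`, `κ ≥ 8 / 5` -/
theorem ld3_2 {κ h : ℝ} (hκ : 8 / 5 ≤ κ) (h0 : 0 < h) (hh : h ≤ 2 * π / 3) :
    LineData κ h (7 / 10) (551 / 1000) (347 / 2000) (551 / 1000) (347 / 2000) (-11 / 20) (-43 / 100) (1449 / 10000) (161 / 200) := by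
  have hk1 : 1 ≤ κ := by linarith
  have hp4 := Real.pi_lt_d4
  have hp3 := Real.pi_gt_d2
  have hhq : h ≤ 1309 / 625 := by
    refine hh.trans ?_
    rw [div_le_iff₀ (by norm_num)]
    linarith
  have L1 : Line κ h (1 / 10) (39 / 400) (39 / 8000) := Line.stepN (l := 39 / 40) (τm := 1309 / 6250) hk1 h0.le (Line.zero hk1) (by norm_num) (by norm_num)
    (fun τ a b => e3_2_1 hκ a b) (by linarith) (by linarith) (by norm_num) (by norm_num)
  have L2 : Line κ h (1 / 5) (381 / 2000) (753 / 40000) := Line.stepN (l := 93 / 100) (τm := 1309 / 3125) hk1 h0.le L1 (by norm_num) (by norm_num)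
    (fun τ a b => e3_2_2 hκ a b) (by linarith) (by linarith) (by norm_num) (by norm_num)
  have L3 : Line κ h (3 / 10) (111 / 400) (1623 / 40000) := Line.stepN (l := 87 / 100) (τm := 3927 / 6250) hk1 h0.le L2 (by norm_num) (by norm_num)
    (fun τ a b => e3_2_3 hκ a b) (by linarith) (by linarith) (by norm_num) (by norm_num)
  have L4 : Line κ h (2 / 5) (143 / 400) (2743 / 40000) := Line.stepN (l := 4 / 5) (τm := 2618 / 3125) hk1 h0.le L3 (by norm_num) (by norm_num)
    (fun τ a b => e3_2_4 hκ a b) (by linarith) (by linarith) (by norm_num) (by norm_num)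
  have L5 : Line κ h (1 / 2) (43 / 100) (253 / 2500) := Line.stepN (l := 29 / 40) (τm := 1309 / 1250) hk1 h0.le L4 (by norm_num) (by norm_num)
    (fun τ a b => e3_2_5 hκ a b) (by linarith) (by linarith) (by norm_num) (by norm_num)
  have L6 : Line κ h (3 / 5) (989 / 2000) (5467 / 40000) := Line.stepN (l := 129 / 200) (τm := 3927 / 3125) hk1 h0.le L5 (by norm_num) (by norm_num)
    (fun τ a b => e3_2_6 hκ a b) (by linarith) (by linarith) (by norm_num) (by norm_num)
  have L7 : Line κ h (7 / 10) (551 / 1000) (867 / 5000) := Line.stepN (l := 113 / 200) (τm := 9163 / 6250) hk1 h0.le L6 (by norm_num) (by norm_num)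
    (fun τ a b => e3_2_7 hκ a b) (by linarith) (by linarith) (by norm_num) (by norm_num)
  have m1 : ∀ z ∈ Icc (-11 / 20 : ℝ) (-1 / 2), 161 / 200 ≤ yv κ ((z + 1) * h) / h - yv κ (z * h) / h :=
    mu_piece (a := 2 / 5) (S := 143 / 400) (C := 2743 / 40000) (l := 29 / 40) (τm := 1309 / 1250) (H₁ := 1309 / 1000) (mp := 207141 / 500000) (mq := 384643 / 1000000) hk1 h0 (by linarith)
      L4 (by norm_num) (by norm_num) (by norm_num) (fun τ a b => e3_2_5 hκ a b) (by linarith) (by linarith)
      (exp_le_bd (by norm_num) (by norm_num) (by norm_num [Finset.sum_range_succ, Nat.factorial])) (exp_le_bd (by norm_num) (by norm_num) (by norm_num [Finset.sum_range_succ, Nat.factorial]))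
      (by norm_num) (by norm_num)
  have m2 : ∀ z ∈ Icc (-1 / 2 : ℝ) (-43 / 100), 161 / 200 ≤ yv κ ((z + 1) * h) / h - yv κ (z * h) / h :=
    mu_piece (a := 1 / 2) (S := 43 / 100) (C := 253 / 2500) (l := 129 / 200) (τm := 3927 / 3125) (H₁ := 1309 / 1000) (mp := 384643 / 1000000) (mq := 170559 / 500000) hk1 h0 (by linarith)
      L5 (by norm_num) (by norm_num) (by norm_num) (fun τ a b => e3_2_6 hκ a b) (by linarith) (by linarith)
      (exp_le_bd (by norm_num) (by norm_num) (by norm_num [Finset.sum_range_succ, Nat.factorial])) (exp_le_bd (by norm_num) (by norm_num) (by norm_num [Finset.sum_range_succ, Nat.factorial]))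
      (by norm_num) (by norm_num)
  exact ⟨L7.weaken h0.le (by norm_num) (by norm_num), L7.weaken h0.le (by norm_num) (by norm_num),
    Line.f1R (τm := 119381 / 100000) hk1 h0 L6 (by norm_num) (by linarith) (by linarith) (by norm_num), mu_glue m1 m2⟩

/-- class 3_2: line at `1 + qL`, curvature up to `1 + qR` -/
theorem lr3_2 {κ h : ℝ} (hκ : 8 / 5 ≤ κ) (h0 : 0 < h) (hh : h ≤ 2 * π / 3) :
    Line κ h (1 + (-11 / 20)) (63 / 160) (13437 / 160000) ∧ (∀ τ, 0 ≤ τ → τ ≤ 3927 / 3125 → 129 / 200 ≤ lv κ τ) ∧ (1 + (-43 / 100)) * h ≤ (3927 / 3125) ∧ (3927 / 3125) < κ + π / 2 := by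
  have hk1 : 1 ≤ κ := by linarith
  have hp4 := Real.pi_lt_d4
  have hp3 := Real.pi_gt_d2
  have hhq : h ≤ 1309 / 625 := by
    refine hh.trans ?_
    rw [div_le_iff₀ (by norm_num)]
    linarith
  have L1 : Line κ h (1 / 10) (39 / 400) (39 / 8000) := Line.stepN (l := 39 / 40) (τm := 1309 / 6250) hk1 h0.le (Line.zero hk1) (by norm_num) (by norm_num)
    (fun τ a b => e3_2_1 hκ a b) (by linarith) (by linarith) (by norm_num) (by norm_num)
  have L2 : Line κ h (1 / 5) (381 / 2000) (753 / 40000) := Line.stepN (l := 93 / 100) (τm := 1309 / 3125) hk1 h0.le L1 (by norm_num) (by norm_num)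
    (fun τ a b => e3_2_2 hκ a b) (by linarith) (by linarith) (by norm_num) (by norm_num)
  have L3 : Line κ h (3 / 10) (111 / 400) (1623 / 40000) := Line.stepN (l := 87 / 100) (τm := 3927 / 6250) hk1 h0.le L2 (by norm_num) (by norm_num)
    (fun τ a b => e3_2_3 hκ a b) (by linarith) (by linarith) (by norm_num) (by norm_num)
  have L4 : Line κ h (2 / 5) (143 / 400) (2743 / 40000) := Line.stepN (l := 4 / 5) (τm := 2618 / 3125) hk1 h0.le L3 (by norm_num) (by norm_num)
    (fun τ a b => e3_2_4 hκ a b) (by linarith) (by linarith) (by norm_num) (by norm_num)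
  exact ⟨Line.stepN (l := 29 / 40) (τm := 1309 / 1250) hk1 h0.le L4 (by norm_num) (by norm_num)
    (fun τ a b => e3_2_5 hκ a b) (by linarith) (by linarith) (by norm_num) (by norm_num), fun τ a b => e3_2_6 hκ a b,
    by linarith, by linarith⟩

private theorem e3_3_1 {κ τ : ℝ} (hκ : 19 / 10 ≤ κ) (h0 : 0 ≤ τ) (hm : τ ≤ 1309 / 6250) : 199 / 200 ≤ lv κ τ :=
  lv_ge_num (κ₀ := 19 / 10) (y := 8659 / 100000) (Fl := 1090449 / 1000000) (Fh := 21809 / 20000) (xl := 21753 / 12500) (xh := 6961 / 4000) (τm := 1309 / 6250) (θ := 4971 / 100000)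
    (by norm_num) (by norm_num) (by norm_num)
    (exp_bds (by norm_num) (by norm_num) (by norm_num [Finset.sum_range_succ, Nat.factorial])
      (by norm_num [Finset.sum_range_succ, Nat.factorial]))
    (by norm_num) (by norm_num) (by norm_num) (by norm_num) (by norm_num) (by norm_num) (by norm_num) (by norm_num)
    (by norm_num) (by norm_num) (by norm_num) (by norm_num) hκ h0 hm

private theorem e3_3_2 {κ τ : ℝ} (hκ : 19 / 10 ≤ κ) (h0 : 0 ≤ τ) (hm : τ ≤ 1309 / 3125) : 197 / 200 ≤ lv κ τ :=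
  lv_ge_num (κ₀ := 19 / 10) (y := 4317 / 25000) (Fl := 237697 / 200000) (Fh := 594243 / 500000) (xl := 158931 / 100000) (xh := 158933 / 100000) (τm := 1309 / 3125) (θ := 5411 / 50000)
    (by norm_num) (by norm_num) (by norm_num)
    (exp_bds (by norm_num) (by norm_num) (by norm_num [Finset.sum_range_succ, Nat.factorial])
      (by norm_num [Finset.sum_range_succ, Nat.factorial]))
    (by norm_num) (by norm_num) (by norm_num) (by norm_num) (by norm_num) (by norm_num) (by norm_num) (by norm_num)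
    (by norm_num) (by norm_num) (by norm_num) (by norm_num) hκ h0 hm

private theorem e3_3_3 {κ τ : ℝ} (hκ : 19 / 10 ≤ κ) (h0 : 0 ≤ τ) (hm : τ ≤ 3927 / 6250) : 19 / 20 ≤ lv κ τ :=
  lv_ge_num (κ₀ := 19 / 10) (y := 3209 / 12500) (Fl := 1292683 / 1000000) (Fh := 323171 / 250000) (xl := 144721 / 100000) (xh := 72361 / 50000) (τm := 3927 / 6250) (θ := 4389 / 25000)
    (by norm_num) (by norm_num) (by norm_num)
    (exp_bds (by norm_num) (by norm_num) (by norm_num [Finset.sum_range_succ, Nat.factorial])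
      (by norm_num [Finset.sum_range_succ, Nat.factorial]))
    (by norm_num) (by norm_num) (by norm_num) (by norm_num) (by norm_num) (by norm_num) (by norm_num) (by norm_num)
    (by norm_num) (by norm_num) (by norm_num) (by norm_num) hκ h0 hm

private theorem e3_3_4 {κ τ : ℝ} (hκ : 19 / 10 ≤ κ) (h0 : 0 ≤ τ) (hm : τ ≤ 2618 / 3125) : 181 / 200 ≤ lv κ τ :=
  lv_ge_num (κ₀ := 19 / 10) (y := 33723 / 100000) (Fl := 1401061 / 1000000) (Fh := 700531 / 500000) (xl := 131351 / 100000) (xh := 16419 / 12500) (τm := 2618 / 3125) (θ := 2513 / 10000)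
    (by norm_num) (by norm_num) (by norm_num)
    (exp_bds (by norm_num) (by norm_num) (by norm_num [Finset.sum_range_succ, Nat.factorial])
      (by norm_num [Finset.sum_range_succ, Nat.factorial]))
    (by norm_num) (by norm_num) (by norm_num) (by norm_num) (by norm_num) (by norm_num) (by norm_num) (by norm_num)
    (by norm_num) (by norm_num) (by norm_num) (by norm_num) hκ h0 hm

private theorem e3_3_5 {κ τ : ℝ} (hκ : 19 / 10 ≤ κ) (h0 : 0 ≤ τ) (hm : τ ≤ 1309 / 1250) : 21 / 25 ≤ lv κ τ :=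
  lv_ge_num (κ₀ := 19 / 10) (y := 8259 / 20000) (Fl := 1511269 / 1000000) (Fh := 151127 / 100000) (xl := 59373 / 50000) (xh := 118747 / 100000) (τm := 1309 / 1250) (θ := 33467 / 100000)
    (by norm_num) (by norm_num) (by norm_num)
    (exp_bds (by norm_num) (by norm_num) (by norm_num [Finset.sum_range_succ, Nat.factorial])
      (by norm_num [Finset.sum_range_succ, Nat.factorial]))
    (by norm_num) (by norm_num) (by norm_num) (by norm_num) (by norm_num) (by norm_num) (by norm_num) (by norm_num)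
    (by norm_num) (by norm_num) (by norm_num) (by norm_num) hκ h0 hm

private theorem e3_3_6 {κ τ : ℝ} (hκ : 19 / 10 ≤ κ) (h0 : 0 ≤ τ) (hm : τ ≤ 3927 / 3125) : 77 / 100 ≤ lv κ τ :=
  lv_ge_num (κ₀ := 19 / 10) (y := 48299 / 100000) (Fl := 1620913 / 1000000) (Fh := 810457 / 500000) (xl := 26701 / 25000) (xh := 21361 / 20000) (τm := 3927 / 3125) (θ := 42469 / 100000)
    (by norm_num) (by norm_num) (by norm_num)
    (exp_bds (by norm_num) (by norm_num) (by norm_num [Finset.sum_range_succ, Nat.factorial])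
      (by norm_num [Finset.sum_range_succ, Nat.factorial]))
    (by norm_num) (by norm_num) (by norm_num) (by norm_num) (by norm_num) (by norm_num) (by norm_num) (by norm_num)
    (by norm_num) (by norm_num) (by norm_num) (by norm_num) hκ h0 hm

private theorem e3_3_7 {κ τ : ℝ} (hκ : 19 / 10 ≤ κ) (h0 : 0 ≤ τ) (hm : τ ≤ 9163 / 6250) : 139 / 200 ≤ lv κ τ :=
  lv_ge_num (κ₀ := 19 / 10) (y := 13669 / 25000) (Fl := 863823 / 500000) (Fh := 1727647 / 1000000) (xl := 95421 / 100000) (xh := 47711 / 50000) (τm := 9163 / 6250) (θ := 1626 / 3125)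
    (by norm_num) (by norm_num) (by norm_num)
    (exp_bds (by norm_num) (by norm_num) (by norm_num [Finset.sum_range_succ, Nat.factorial])
      (by norm_num [Finset.sum_range_succ, Nat.factorial]))
    (by norm_num) (by norm_num) (by norm_num) (by norm_num) (by norm_num) (by norm_num) (by norm_num) (by norm_num)
    (by norm_num) (by norm_num) (by norm_num) (by norm_num) hκ h0 hm

private theorem e3_3_8 {κ τ : ℝ} (hκ : 19 / 10 ≤ κ) (h0 : 0 ≤ τ) (hm : τ ≤ 5236 / 3125) : 31 / 50 ≤ lv κ τ :=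
  lv_ge_num (κ₀ := 19 / 10) (y := 30197 / 50000) (Fl := 28583 / 15625) (Fh := 1829313 / 1000000) (xl := 169 / 200) (xh := 84501 / 100000) (τm := 5236 / 3125) (θ := 62053 / 100000)
    (by norm_num) (by norm_num) (by norm_num)
    (exp_bds (by norm_num) (by norm_num) (by norm_num [Finset.sum_range_succ, Nat.factorial])
      (by norm_num [Finset.sum_range_succ, Nat.factorial]))
    (by norm_num) (by norm_num) (by norm_num) (by norm_num) (by norm_num) (by norm_num) (by norm_num) (by norm_num)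
    (by norm_num) (by norm_num) (by norm_num) (by norm_num) hκ h0 hm

/-- class 3_3: `b = 3`, `κ ≥ 19 / 10` -/
theorem ld3_3 {κ h : ℝ} (hκ : 19 / 10 ≤ κ) (h0 : 0 < h) (hh : h ≤ 2 * π / 3) :
    LineData κ h (4 / 5) (169 / 250) (247 / 1000) (307 / 500) (401 / 2000) (-111 / 200) (-43 / 100) (387 / 2500) (17 / 20) := by
  have hk1 : 1 ≤ κ := by linarith
  have hp4 := Real.pi_lt_d4
  have hp3 := Real.pi_gt_d2
  have hhq : h ≤ 1309 / 625 := by
    refine hh.trans ?_
    rw [div_le_iff₀ (by norm_num)]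
    linarith
  have L1 : Line κ h (1 / 10) (199 / 2000) (199 / 40000) := Line.stepN (l := 199 / 200) (τm := 1309 / 6250) hk1 h0.le (Line.zero hk1) (by norm_num) (by norm_num)
    (fun τ a b => e3_3_1 hκ a b) (by linarith) (by linarith) (by norm_num) (by norm_num)
  have L2 : Line κ h (1 / 5) (99 / 500) (79 / 4000) := Line.stepN (l := 197 / 200) (τm := 1309 / 3125) hk1 h0.le L1 (by norm_num) (by norm_num)
    (fun τ a b => e3_3_2 hκ a b) (by linarith) (by linarith) (by norm_num) (by norm_num)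
  have L3 : Line κ h (3 / 10) (293 / 1000) (87 / 2000) := Line.stepN (l := 19 / 20) (τm := 3927 / 6250) hk1 h0.le L2 (by norm_num) (by norm_num)
    (fun τ a b => e3_3_3 hκ a b) (by linarith) (by linarith) (by norm_num) (by norm_num)
  have L4 : Line κ h (2 / 5) (767 / 2000) (3007 / 40000) := Line.stepN (l := 181 / 200) (τm := 2618 / 3125) hk1 h0.le L3 (by norm_num) (by norm_num)
    (fun τ a b => e3_3_4 hκ a b) (by linarith) (by linarith) (by norm_num) (by norm_num)
  have L5 : Line κ h (1 / 2) (187 / 400) (4519 / 40000) := Line.stepN (l := 21 / 25) (τm := 1309 / 1250) hk1 h0.le L4 (by norm_num) (by norm_num)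
    (fun τ a b => e3_3_5 hκ a b) (by linarith) (by linarith) (by norm_num) (by norm_num)
  have L6 : Line κ h (3 / 5) (1089 / 2000) (6213 / 40000) := Line.stepN (l := 77 / 100) (τm := 3927 / 3125) hk1 h0.le L5 (by norm_num) (by norm_num)
    (fun τ a b => e3_3_6 hκ a b) (by linarith) (by linarith) (by norm_num) (by norm_num)
  have L7 : Line κ h (7 / 10) (307 / 500) (401 / 2000) := Line.stepN (l := 139 / 200) (τm := 9163 / 6250) hk1 h0.le L6 (by norm_num) (by norm_num)
    (fun τ a b => e3_3_7 hκ a b) (by linarith) (by linarith) (by norm_num) (by norm_num)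
  have L8 : Line κ h (4 / 5) (169 / 250) (247 / 1000) := Line.stepN (l := 31 / 50) (τm := 5236 / 3125) hk1 h0.le L7 (by norm_num) (by norm_num)
    (fun τ a b => e3_3_8 hκ a b) (by linarith) (by linarith) (by norm_num) (by norm_num)
  have m1 : ∀ z ∈ Icc (-111 / 200 : ℝ) (-1 / 2), 17 / 20 ≤ yv κ ((z + 1) * h) / h - yv κ (z * h) / h :=
    mu_piece (a := 2 / 5) (S := 767 / 2000) (C := 3007 / 40000) (l := 21 / 25) (τm := 1309 / 1250) (H₁ := 13779 / 12500) (mp := 86607 / 200000) (mq := 398253 / 1000000) hk1 h0 (by linarith)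
      L4 (by norm_num) (by norm_num) (by norm_num) (fun τ a b => e3_3_5 hκ a b) (by linarith) (by linarith)
      (exp_le_bd (by norm_num) (by norm_num) (by norm_num [Finset.sum_range_succ, Nat.factorial])) (exp_le_bd (by norm_num) (by norm_num) (by norm_num [Finset.sum_range_succ, Nat.factorial]))
      (by norm_num) (by norm_num)
  have m2 : ∀ z ∈ Icc (-1 / 2 : ℝ) (-43 / 100), 17 / 20 ≤ yv κ ((z + 1) * h) / h - yv κ (z * h) / h :=
    mu_piece (a := 1 / 2) (S := 187 / 400) (C := 4519 / 40000) (l := 77 / 100) (τm := 3927 / 3125) (H₁ := 13779 / 12500) (mp := 398253 / 1000000) (mq := 70393 / 200000) hk1 h0 (by linarith)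
      L5 (by norm_num) (by norm_num) (by norm_num) (fun τ a b => e3_3_6 hκ a b) (by linarith) (by linarith)
      (exp_le_bd (by norm_num) (by norm_num) (by norm_num [Finset.sum_range_succ, Nat.factorial])) (exp_le_bd (by norm_num) (by norm_num) (by norm_num [Finset.sum_range_succ, Nat.factorial]))
      (by norm_num) (by norm_num)
  exact ⟨L8.weaken h0.le (by norm_num) (by norm_num), L7.weaken h0.le (by norm_num) (by norm_num),
    Line.f1R (τm := 119381 / 100000) hk1 h0 L6 (by norm_num) (by linarith) (by linarith) (by norm_num), mu_glue m1 m2⟩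

/-- class 3_3: line at `1 + qL`, curvature up to `1 + qR` -/
theorem lr3_3 {κ h : ℝ} (hκ : 19 / 10 ≤ κ) (h0 : 0 < h) (hh : h ≤ 2 * π / 3) :
    Line κ h (1 + (-111 / 200)) (4213 / 10000) (182291 / 2000000) ∧ (∀ τ, 0 ≤ τ → τ ≤ 3927 / 3125 → 77 / 100 ≤ lv κ τ) ∧ (1 + (-43 / 100)) * h ≤ (3927 / 3125) ∧ (3927 / 3125) < κ + π / 2 := by
  have hk1 : 1 ≤ κ := by linarith
  have hp4 := Real.pi_lt_d4
  have hp3 := Real.pi_gt_d2
  have hhq : h ≤ 1309 / 625 := by
    refine hh.trans ?_
    rw [div_le_iff₀ (by norm_num)]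
    linarith
  have L1 : Line κ h (1 / 10) (199 / 2000) (199 / 40000) := Line.stepN (l := 199 / 200) (τm := 1309 / 6250) hk1 h0.le (Line.zero hk1) (by norm_num) (by norm_num)
    (fun τ a b => e3_3_1 hκ a b) (by linarith) (by linarith) (by norm_num) (by norm_num)
  have L2 : Line κ h (1 / 5) (99 / 500) (79 / 4000) := Line.stepN (l := 197 / 200) (τm := 1309 / 3125) hk1 h0.le L1 (by norm_num) (by norm_num)
    (fun τ a b => e3_3_2 hκ a b) (by linarith) (by linarith) (by norm_num) (by norm_num)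
  have L3 : Line κ h (3 / 10) (293 / 1000) (87 / 2000) := Line.stepN (l := 19 / 20) (τm := 3927 / 6250) hk1 h0.le L2 (by norm_num) (by norm_num)
    (fun τ a b => e3_3_3 hκ a b) (by linarith) (by linarith) (by norm_num) (by norm_num)
  have L4 : Line κ h (2 / 5) (767 / 2000) (3007 / 40000) := Line.stepN (l := 181 / 200) (τm := 2618 / 3125) hk1 h0.le L3 (by norm_num) (by norm_num)
    (fun τ a b => e3_3_4 hκ a b) (by linarith) (by linarith) (by norm_num) (by norm_num)
  exact ⟨Line.stepN (l := 21 / 25) (τm := 1309 / 1250) hk1 h0.le L4 (by norm_num) (by norm_num)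
    (fun τ a b => e3_3_5 hκ a b) (by linarith) (by linarith) (by norm_num) (by norm_num), fun τ a b => e3_3_6 hκ a b,
    by linarith, by linarith⟩

private theorem e3_4_3 {κ τ : ℝ} (hκ : 21 / 10 ≤ κ) (h0 : 0 ≤ τ) (hm : τ ≤ 3927 / 6250) : 199 / 200 ≤ lv κ τ :=
  lv_ge_num (κ₀ := 21 / 10) (y := 24657 / 100000) (Fl := 319907 / 250000) (Fh := 1279629 / 1000000) (xl := 162247 / 100000) (xh := 20281 / 12500) (τm := 3927 / 6250) (θ := 15081 / 100000)
    (by norm_num) (by norm_num) (by norm_num)
    (exp_bds (by norm_num) (by norm_num) (by norm_num [Finset.sum_range_succ, Nat.factorial])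
      (by norm_num [Finset.sum_range_succ, Nat.factorial]))
    (by norm_num) (by norm_num) (by norm_num) (by norm_num) (by norm_num) (by norm_num) (by norm_num) (by norm_num)
    (by norm_num) (by norm_num) (by norm_num) (by norm_num) hκ h0 hm

private theorem e3_4_4 {κ τ : ℝ} (hκ : 21 / 10 ≤ κ) (h0 : 0 ≤ τ) (hm : τ ≤ 2618 / 3125) : 24 / 25 ≤ lv κ τ :=
  lv_ge_num (κ₀ := 21 / 10) (y := 653 / 2000) (Fl := 346527 / 250000) (Fh := 1386109 / 1000000) (xl := 147943 / 100000) (xh := 18493 / 12500) (τm := 2618 / 3125) (θ := 543 / 2500)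
    (by norm_num) (by norm_num) (by norm_num)
    (exp_bds (by norm_num) (by norm_num) (by norm_num [Finset.sum_range_succ, Nat.factorial])
      (by norm_num [Finset.sum_range_succ, Nat.factorial]))
    (by norm_num) (by norm_num) (by norm_num) (by norm_num) (by norm_num) (by norm_num) (by norm_num) (by norm_num)
    (by norm_num) (by norm_num) (by norm_num) (by norm_num) hκ h0 hm

private theorem e3_4_5 {κ τ : ℝ} (hκ : 21 / 10 ≤ κ) (h0 : 0 ≤ τ) (hm : τ ≤ 1309 / 1250) : 183 / 200 ≤ lv κ τ :=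
  lv_ge_num (κ₀ := 21 / 10) (y := 40311 / 100000) (Fl := 1496471 / 1000000) (Fh := 187059 / 125000) (xl := 26883 / 20000) (xh := 8401 / 6250) (τm := 1309 / 1250) (θ := 1821 / 6250)
    (by norm_num) (by norm_num) (by norm_num)
    (exp_bds (by norm_num) (by norm_num) (by norm_num [Finset.sum_range_succ, Nat.factorial])
      (by norm_num [Finset.sum_range_succ, Nat.factorial]))
    (by norm_num) (by norm_num) (by norm_num) (by norm_num) (by norm_num) (by norm_num) (by norm_num) (by norm_num)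
    (by norm_num) (by norm_num) (by norm_num) (by norm_num) hκ h0 hm

private theorem e3_4_6 {κ τ : ℝ} (hκ : 21 / 10 ≤ κ) (h0 : 0 ≤ τ) (hm : τ ≤ 3927 / 3125) : 171 / 200 ≤ lv κ τ :=
  lv_ge_num (κ₀ := 21 / 10) (y := 47531 / 100000) (Fl := 25133 / 15625) (Fh := 1608513 / 1000000) (xl := 24319 / 20000) (xh := 30399 / 25000) (τm := 3927 / 3125) (θ := 18631 / 50000)
    (by norm_num) (by norm_num) (by norm_num)
    (exp_bds (by norm_num) (by norm_num) (by norm_num [Finset.sum_range_succ, Nat.factorial])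
      (by norm_num [Finset.sum_range_succ, Nat.factorial]))
    (by norm_num) (by norm_num) (by norm_num) (by norm_num) (by norm_num) (by norm_num) (by norm_num) (by norm_num)
    (by norm_num) (by norm_num) (by norm_num) (by norm_num) hκ h0 hm

private theorem e3_4_7 {κ τ : ℝ} (hκ : 21 / 10 ≤ κ) (h0 : 0 ≤ τ) (hm : τ ≤ 9163 / 6250) : 157 / 200 ≤ lv κ τ :=
  lv_ge_num (κ₀ := 21 / 10) (y := 54223 / 100000) (Fl := 1719837 / 1000000) (Fh := 859919 / 500000) (xl := 27351 / 25000) (xh := 21881 / 20000) (τm := 9163 / 6250) (θ := 46013 / 100000)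
    (by norm_num) (by norm_num) (by norm_num)
    (exp_bds (by norm_num) (by norm_num) (by norm_num [Finset.sum_range_succ, Nat.factorial])
      (by norm_num [Finset.sum_range_succ, Nat.factorial]))
    (by norm_num) (by norm_num) (by norm_num) (by norm_num) (by norm_num) (by norm_num) (by norm_num) (by norm_num)
    (by norm_num) (by norm_num) (by norm_num) (by norm_num) hκ h0 hm

private theorem e3_4_8 {κ τ : ℝ} (hκ : 21 / 10 ≤ κ) (h0 : 0 ≤ τ) (hm : τ ≤ 5236 / 3125) : 71 / 100 ≤ lv κ τ :=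
  lv_ge_num (κ₀ := 21 / 10) (y := 60333 / 100000) (Fl := 457049 / 250000) (Fh := 1828197 / 1000000) (xl := 48873 / 50000) (xh := 97747 / 100000) (τm := 5236 / 3125) (θ := 55299 / 100000)
    (by norm_num) (by norm_num) (by norm_num)
    (exp_bds (by norm_num) (by norm_num) (by norm_num [Finset.sum_range_succ, Nat.factorial])
      (by norm_num [Finset.sum_range_succ, Nat.factorial]))
    (by norm_num) (by norm_num) (by norm_num) (by norm_num) (by norm_num) (by norm_num) (by norm_num) (by norm_num)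
    (by norm_num) (by norm_num) (by norm_num) (by norm_num) hκ h0 hm

private theorem e3_4_9 {κ τ : ℝ} (hκ : 21 / 10 ≤ κ) (h0 : 0 ≤ τ) (hm : τ ≤ 11781 / 6250) : 127 / 200 ≤ lv κ τ :=
  lv_ge_num (κ₀ := 21 / 10) (y := 65827 / 100000) (Fl := 241431 / 125000) (Fh := 1931449 / 1000000) (xl := 43267 / 50000) (xh := 17307 / 20000) (τm := 11781 / 6250) (θ := 65031 / 100000)
    (by norm_num) (by norm_num) (by norm_num)
    (exp_bds (by norm_num) (by norm_num) (by norm_num [Finset.sum_range_succ, Nat.factorial])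
      (by norm_num [Finset.sum_range_succ, Nat.factorial]))
    (by norm_num) (by norm_num) (by norm_num) (by norm_num) (by norm_num) (by norm_num) (by norm_num) (by norm_num)
    (by norm_num) (by norm_num) (by norm_num) (by norm_num) hκ h0 hm

/-- class 3_4: `b = 3`, `κ ≥ 21 / 10` -/
theorem ld3_4 {κ h : ℝ} (hκ : 21 / 10 ≤ κ) (h0 : 0 < h) (hh : h ≤ 2 * π / 3) :
    LineData κ h (9 / 10) (1569 / 2000) (13 / 40) (13 / 20) (109 / 500) (-14 / 25) (-21 / 50) (823 / 5000) (7 / 8) := by
  have hk1 : 1 ≤ κ := by linarith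
  have hp4 := Real.pi_lt_d4
  have hp3 := Real.pi_gt_d2
  have hhq : h ≤ 1309 / 625 := by
    refine hh.trans ?_
    rw [div_le_iff₀ (by norm_num)]
    linarith
  have L1 : Line κ h (1 / 10) (199 / 2000) (199 / 40000) := Line.stepN (l := 199 / 200) (τm := 3927 / 6250) hk1 h0.le (Line.zero hk1) (by norm_num) (by norm_num)
    (fun τ a b => e3_4_3 hκ a b) (by linarith) (by linarith) (by norm_num) (by norm_num)
  have L2 : Line κ h (1 / 5) (199 / 1000) (199 / 10000) := Line.stepN (l := 199 / 200) (τm := 3927 / 6250) hk1 h0.le L1 (by norm_num) (by norm_num)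
    (fun τ a b => e3_4_3 hκ a b) (by linarith) (by linarith) (by norm_num) (by norm_num)
  have L3 : Line κ h (3 / 10) (597 / 2000) (1791 / 40000) := Line.stepN (l := 199 / 200) (τm := 3927 / 6250) hk1 h0.le L2 (by norm_num) (by norm_num)
    (fun τ a b => e3_4_3 hκ a b) (by linarith) (by linarith) (by norm_num) (by norm_num)
  have L4 : Line κ h (2 / 5) (789 / 2000) (627 / 8000) := Line.stepN (l := 24 / 25) (τm := 2618 / 3125) hk1 h0.le L3 (by norm_num) (by norm_num)
    (fun τ a b => e3_4_4 hκ a b) (by linarith) (by linarith) (by norm_num) (by norm_num)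
  have L5 : Line κ h (1 / 2) (243 / 500) (2391 / 20000) := Line.stepN (l := 183 / 200) (τm := 1309 / 1250) hk1 h0.le L4 (by norm_num) (by norm_num)
    (fun τ a b => e3_4_5 hκ a b) (by linarith) (by linarith) (by norm_num) (by norm_num)
  have L6 : Line κ h (3 / 5) (1143 / 2000) (6663 / 40000) := Line.stepN (l := 171 / 200) (τm := 3927 / 3125) hk1 h0.le L5 (by norm_num) (by norm_num)
    (fun τ a b => e3_4_6 hκ a b) (by linarith) (by linarith) (by norm_num) (by norm_num)
  have L7 : Line κ h (7 / 10) (13 / 20) (136 / 625) := Line.stepN (l := 157 / 200) (τm := 9163 / 6250) hk1 h0.le L6 (by norm_num) (by norm_num)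
    (fun τ a b => e3_4_7 hκ a b) (by linarith) (by linarith) (by norm_num) (by norm_num)
  have L8 : Line κ h (4 / 5) (721 / 1000) (5417 / 20000) := Line.stepN (l := 71 / 100) (τm := 5236 / 3125) hk1 h0.le L7 (by norm_num) (by norm_num)
    (fun τ a b => e3_4_8 hκ a b) (by linarith) (by linarith) (by norm_num) (by norm_num)
  have L9 : Line κ h (9 / 10) (1569 / 2000) (12993 / 40000) := Line.stepN (l := 127 / 200) (τm := 11781 / 6250) hk1 h0.le L8 (by norm_num) (by norm_num)
    (fun τ a b => e3_4_9 hκ a b) (by linarith) (by linarith) (by norm_num) (by norm_num)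
  have m1 : ∀ z ∈ Icc (-14 / 25 : ℝ) (-1 / 2), 7 / 8 ≤ yv κ ((z + 1) * h) / h - yv κ (z * h) / h :=
    mu_piece (a := 2 / 5) (S := 789 / 2000) (C := 627 / 8000) (l := 183 / 200) (τm := 1309 / 1250) (H₁ := 49867 / 50000) (mp := 444913 / 1000000) (mq := 405657 / 1000000) hk1 h0 (by linarith)
      L4 (by norm_num) (by norm_num) (by norm_num) (fun τ a b => e3_4_5 hκ a b) (by linarith) (by linarith)
      (exp_le_bd (by norm_num) (by norm_num) (by norm_num [Finset.sum_range_succ, Nat.factorial])) (exp_le_bd (by norm_num) (by norm_num) (by norm_num [Finset.sum_range_succ, Nat.factorial]))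
      (by norm_num) (by norm_num)
  have m2 : ∀ z ∈ Icc (-1 / 2 : ℝ) (-21 / 50), 7 / 8 ≤ yv κ ((z + 1) * h) / h - yv κ (z * h) / h :=
    mu_piece (a := 1 / 2) (S := 243 / 500) (C := 2391 / 20000) (l := 171 / 200) (τm := 3927 / 3125) (H₁ := 49867 / 50000) (mp := 405657 / 1000000) (mq := 175401 / 500000) hk1 h0 (by linarith)
      L5 (by norm_num) (by norm_num) (by norm_num) (fun τ a b => e3_4_6 hκ a b) (by linarith) (by linarith)
      (exp_le_bd (by norm_num) (by norm_num) (by norm_num [Finset.sum_range_succ, Nat.factorial])) (exp_le_bd (by norm_num) (by norm_num) (by norm_num [Finset.sum_range_succ, Nat.factorial]))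
      (by norm_num) (by norm_num)
  exact ⟨L9.weaken h0.le (by norm_num) (by norm_num), L7.weaken h0.le (by norm_num) (by norm_num),
    Line.f1R (τm := 30369 / 25000) hk1 h0 L6 (by norm_num) (by linarith) (by linarith) (by norm_num), mu_glue m1 m2⟩

/-- class 3_4: line at `1 + qL`, curvature up to `1 + qR` -/
theorem lr3_4 {κ h : ℝ} (hκ : 21 / 10 ≤ κ) (h0 : 0 < h) (hh : h ≤ 2 * π / 3) :
    Line κ h (1 + (-14 / 25)) (4311 / 10000) (93747 / 1000000) ∧ (∀ τ, 0 ≤ τ → τ ≤ 3927 / 3125 → 171 / 200 ≤ lv κ τ) ∧ (1 + (-21 / 50)) * h ≤ (3927 / 3125) ∧ (3927 / 3125) < κ + π / 2 := by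
  have hk1 : 1 ≤ κ := by linarith
  have hp4 := Real.pi_lt_d4
  have hp3 := Real.pi_gt_d2
  have hhq : h ≤ 1309 / 625 := by
    refine hh.trans ?_
    rw [div_le_iff₀ (by norm_num)]
    linarith
  have L1 : Line κ h (1 / 10) (199 / 2000) (199 / 40000) := Line.stepN (l := 199 / 200) (τm := 3927 / 6250) hk1 h0.le (Line.zero hk1) (by norm_num) (by norm_num)
    (fun τ a b => e3_4_3 hκ a b) (by linarith) (by linarith) (by norm_num) (by norm_num)
  have L2 : Line κ h (1 / 5) (199 / 1000) (199 / 10000) := Line.stepN (l := 199 / 200) (τm := 3927 / 6250) hk1 h0.le L1 (by norm_num) (by norm_num)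
    (fun τ a b => e3_4_3 hκ a b) (by linarith) (by linarith) (by norm_num) (by norm_num)
  have L3 : Line κ h (3 / 10) (597 / 2000) (1791 / 40000) := Line.stepN (l := 199 / 200) (τm := 3927 / 6250) hk1 h0.le L2 (by norm_num) (by norm_num)
    (fun τ a b => e3_4_3 hκ a b) (by linarith) (by linarith) (by norm_num) (by norm_num)
  have L4 : Line κ h (2 / 5) (789 / 2000) (627 / 8000) := Line.stepN (l := 24 / 25) (τm := 2618 / 3125) hk1 h0.le L3 (by norm_num) (by norm_num)
    (fun τ a b => e3_4_4 hκ a b) (by linarith) (by linarith) (by norm_num) (by norm_num)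
  exact ⟨Line.stepN (l := 183 / 200) (τm := 1309 / 1250) hk1 h0.le L4 (by norm_num) (by norm_num)
    (fun τ a b => e3_4_5 hκ a b) (by linarith) (by linarith) (by norm_num) (by norm_num), fun τ a b => e3_4_6 hκ a b,
    by linarith, by linarith⟩

private theorem e3_5_4 {κ τ : ℝ} (hκ : 23 / 10 ≤ κ) (h0 : 0 ≤ τ) (hm : τ ≤ 2618 / 3125) : 199 / 200 ≤ lv κ τ :=
  lv_ge_num (κ₀ := 23 / 10) (y := 15707 / 50000) (Fl := 1369081 / 1000000) (Fh := 684541 / 500000) (xl := 20629 / 12500) (xh := 165033 / 100000) (τm := 2618 / 3125) (θ := 18809 / 100000)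
    (by norm_num) (by norm_num) (by norm_num)
    (exp_bds (by norm_num) (by norm_num) (by norm_num [Finset.sum_range_succ, Nat.factorial])
      (by norm_num [Finset.sum_range_succ, Nat.factorial]))
    (by norm_num) (by norm_num) (by norm_num) (by norm_num) (by norm_num) (by norm_num) (by norm_num) (by norm_num)
    (by norm_num) (by norm_num) (by norm_num) (by norm_num) hκ h0 hm

private theorem e3_5_5 {κ τ : ℝ} (hκ : 23 / 10 ≤ κ) (h0 : 0 ≤ τ) (hm : τ ≤ 1309 / 1250) : 39 / 40 ≤ lv κ τ :=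
  lv_ge_num (κ₀ := 23 / 10) (y := 1953 / 5000) (Fl := 1477867 / 1000000) (Fh := 369467 / 250000) (xl := 18831 / 12500) (xh := 150649 / 100000) (τm := 1309 / 1250) (θ := 25369 / 100000)
    (by norm_num) (by norm_num) (by norm_num)
    (exp_bds (by norm_num) (by norm_num) (by norm_num [Finset.sum_range_succ, Nat.factorial])
      (by norm_num [Finset.sum_range_succ, Nat.factorial]))
    (by norm_num) (by norm_num) (by norm_num) (by norm_num) (by norm_num) (by norm_num) (by norm_num) (by norm_num)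
    (by norm_num) (by norm_num) (by norm_num) (by norm_num) hκ h0 hm

private theorem e3_5_6 {κ τ : ℝ} (hκ : 23 / 10 ≤ κ) (h0 : 0 ≤ τ) (hm : τ ≤ 3927 / 3125) : 93 / 100 ≤ lv κ τ :=
  lv_ge_num (κ₀ := 23 / 10) (y := 46391 / 100000) (Fl := 1590279 / 1000000) (Fh := 39757 / 25000) (xl := 68493 / 50000) (xh := 136987 / 100000) (τm := 3927 / 3125) (θ := 8163 / 25000)
    (by norm_num) (by norm_num) (by norm_num)
    (exp_bds (by norm_num) (by norm_num) (by norm_num [Finset.sum_range_succ, Nat.factorial])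
      (by norm_num [Finset.sum_range_succ, Nat.factorial]))
    (by norm_num) (by norm_num) (by norm_num) (by norm_num) (by norm_num) (by norm_num) (by norm_num) (by norm_num)
    (by norm_num) (by norm_num) (by norm_num) (by norm_num) hκ h0 hm

private theorem e3_5_7 {κ τ : ℝ} (hκ : 23 / 10 ≤ κ) (h0 : 0 ≤ τ) (hm : τ ≤ 9163 / 6250) : 87 / 100 ≤ lv κ τ :=
  lv_ge_num (κ₀ := 23 / 10) (y := 26653 / 50000) (Fl := 1704139 / 1000000) (Fh := 85207 / 50000) (xl := 15499 / 12500) (xh := 123993 / 100000) (τm := 9163 / 6250) (θ := 20301 / 50000)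
    (by norm_num) (by norm_num) (by norm_num)
    (exp_bds (by norm_num) (by norm_num) (by norm_num [Finset.sum_range_succ, Nat.factorial])
      (by norm_num [Finset.sum_range_succ, Nat.factorial]))
    (by norm_num) (by norm_num) (by norm_num) (by norm_num) (by norm_num) (by norm_num) (by norm_num) (by norm_num)
    (by norm_num) (by norm_num) (by norm_num) (by norm_num) hκ h0 hm

private theorem e3_5_8 {κ τ : ℝ} (hκ : 23 / 10 ≤ κ) (h0 : 0 ≤ τ) (hm : τ ≤ 5236 / 3125) : 4 / 5 ≤ lv κ τ :=
  lv_ge_num (κ₀ := 23 / 10) (y := 59729 / 100000) (Fl := 1817187 / 1000000) (Fh := 454297 / 250000) (xl := 111589 / 100000) (xh := 11159 / 10000) (τm := 5236 / 3125) (θ := 9829 / 20000)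
    (by norm_num) (by norm_num) (by norm_num)
    (exp_bds (by norm_num) (by norm_num) (by norm_num [Finset.sum_range_succ, Nat.factorial])
      (by norm_num [Finset.sum_range_succ, Nat.factorial]))
    (by norm_num) (by norm_num) (by norm_num) (by norm_num) (by norm_num) (by norm_num) (by norm_num) (by norm_num)
    (by norm_num) (by norm_num) (by norm_num) (by norm_num) hκ h0 hm

private theorem e3_5_9 {κ τ : ℝ} (hκ : 23 / 10 ≤ κ) (h0 : 0 ≤ τ) (hm : τ ≤ 11781 / 6250) : 29 / 40 ≤ lv κ τ :=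
  lv_ge_num (κ₀ := 23 / 10) (y := 16401 / 25000) (Fl := 385429 / 200000) (Fh := 963573 / 500000) (xl := 99699 / 100000) (xh := 997 / 1000) (τm := 11781 / 6250) (θ := 29099 / 50000)
    (by norm_num) (by norm_num) (by norm_num)
    (exp_bds (by norm_num) (by norm_num) (by norm_num [Finset.sum_range_succ, Nat.factorial])
      (by norm_num [Finset.sum_range_succ, Nat.factorial]))
    (by norm_num) (by norm_num) (by norm_num) (by norm_num) (by norm_num) (by norm_num) (by norm_num) (by norm_num)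
    (by norm_num) (by norm_num) (by norm_num) (by norm_num) hκ h0 hm

/-- class 3_5: `b = 3`, `κ ≥ 23 / 10` -/
theorem ld3_5 {κ h : ℝ} (hκ : 23 / 10 ≤ κ) (h0 : 0 < h) (hh : h ≤ 2 * π / 3) :
    LineData κ h (9 / 10) (207 / 250) (353 / 1000) (1351 / 2000) (463 / 2000) (-57 / 100) (-41 / 100) (1723 / 10000) (177 / 200) := by
  have hk1 : 1 ≤ κ := by linarith
  have hp4 := Real.pi_lt_d4
  have hp3 := Real.pi_gt_d2
  have hhq : h ≤ 1309 / 625 := by
    refine hh.trans ?_
    rw [div_le_iff₀ (by norm_num)]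
    linarith
  have L1 : Line κ h (1 / 10) (199 / 2000) (199 / 40000) := Line.stepN (l := 199 / 200) (τm := 2618 / 3125) hk1 h0.le (Line.zero hk1) (by norm_num) (by norm_num)
    (fun τ a b => e3_5_4 hκ a b) (by linarith) (by linarith) (by norm_num) (by norm_num)
  have L2 : Line κ h (1 / 5) (199 / 1000) (199 / 10000) := Line.stepN (l := 199 / 200) (τm := 2618 / 3125) hk1 h0.le L1 (by norm_num) (by norm_num)
    (fun τ a b => e3_5_4 hκ a b) (by linarith) (by linarith) (by norm_num) (by norm_num)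
  have L3 : Line κ h (3 / 10) (597 / 2000) (1791 / 40000) := Line.stepN (l := 199 / 200) (τm := 2618 / 3125) hk1 h0.le L2 (by norm_num) (by norm_num)
    (fun τ a b => e3_5_4 hκ a b) (by linarith) (by linarith) (by norm_num) (by norm_num)
  have L4 : Line κ h (2 / 5) (199 / 500) (199 / 2500) := Line.stepN (l := 199 / 200) (τm := 2618 / 3125) hk1 h0.le L3 (by norm_num) (by norm_num)
    (fun τ a b => e3_5_4 hκ a b) (by linarith) (by linarith) (by norm_num) (by norm_num)
  have L5 : Line κ h (1 / 2) (991 / 2000) (4939 / 40000) := Line.stepN (l := 39 / 40) (τm := 1309 / 1250) hk1 h0.le L4 (by norm_num) (by norm_num)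
    (fun τ a b => e3_5_5 hκ a b) (by linarith) (by linarith) (by norm_num) (by norm_num)
  have L6 : Line κ h (3 / 5) (1177 / 2000) (1397 / 8000) := Line.stepN (l := 93 / 100) (τm := 3927 / 3125) hk1 h0.le L5 (by norm_num) (by norm_num)
    (fun τ a b => e3_5_6 hκ a b) (by linarith) (by linarith) (by norm_num) (by norm_num)
  have L7 : Line κ h (7 / 10) (1351 / 2000) (9247 / 40000) := Line.stepN (l := 87 / 100) (τm := 9163 / 6250) hk1 h0.le L6 (by norm_num) (by norm_num)
    (fun τ a b => e3_5_7 hκ a b) (by linarith) (by linarith) (by norm_num) (by norm_num)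
  have L8 : Line κ h (4 / 5) (1511 / 2000) (11647 / 40000) := Line.stepN (l := 4 / 5) (τm := 5236 / 3125) hk1 h0.le L7 (by norm_num) (by norm_num)
    (fun τ a b => e3_5_8 hκ a b) (by linarith) (by linarith) (by norm_num) (by norm_num)
  have L9 : Line κ h (9 / 10) (207 / 250) (441 / 1250) := Line.stepN (l := 29 / 40) (τm := 11781 / 6250) hk1 h0.le L8 (by norm_num) (by norm_num)
    (fun τ a b => e3_5_9 hκ a b) (by linarith) (by linarith) (by norm_num) (by norm_num)
  have m1 : ∀ z ∈ Icc (-57 / 100 : ℝ) (-1 / 2), 177 / 200 ≤ yv κ ((z + 1) * h) / h - yv κ (z * h) / h :=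
    mu_piece (a := 2 / 5) (S := 199 / 500) (C := 199 / 2500) (l := 39 / 40) (τm := 1309 / 1250) (H₁ := 91061 / 100000) (mp := 114781 / 250000) (mq := 25753 / 62500) hk1 h0 (by linarith)
      L4 (by norm_num) (by norm_num) (by norm_num) (fun τ a b => e3_5_5 hκ a b) (by linarith) (by linarith)
      (exp_le_bd (by norm_num) (by norm_num) (by norm_num [Finset.sum_range_succ, Nat.factorial])) (exp_le_bd (by norm_num) (by norm_num) (by norm_num [Finset.sum_range_succ, Nat.factorial]))
      (by norm_num) (by norm_num)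
  have m2 : ∀ z ∈ Icc (-1 / 2 : ℝ) (-41 / 100), 177 / 200 ≤ yv κ ((z + 1) * h) / h - yv κ (z * h) / h :=
    mu_piece (a := 1 / 2) (S := 991 / 2000) (C := 4939 / 40000) (l := 93 / 100) (τm := 3927 / 3125) (H₁ := 91061 / 100000) (mp := 25753 / 62500) (mq := 87099 / 250000) hk1 h0 (by linarith)
      L5 (by norm_num) (by norm_num) (by norm_num) (fun τ a b => e3_5_6 hκ a b) (by linarith) (by linarith)
      (exp_le_bd (by norm_num) (by norm_num) (by norm_num [Finset.sum_range_succ, Nat.factorial])) (exp_le_bd (by norm_num) (by norm_num) (by norm_num [Finset.sum_range_succ, Nat.factorial]))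
      (by norm_num) (by norm_num)
  exact ⟨L9.weaken h0.le (by norm_num) (by norm_num), L7.weaken h0.le (by norm_num) (by norm_num),
    Line.f1R (τm := 12357 / 10000) hk1 h0 L6 (by norm_num) (by linarith) (by linarith) (by norm_num), mu_glue m1 m2⟩

/-- class 3_5: line at `1 + qL`, curvature up to `1 + qR` -/
theorem lr3_5 {κ h : ℝ} (hκ : 23 / 10 ≤ κ) (h0 : 0 < h) (hh : h ≤ 2 * π / 3) :
    Line κ h (1 + (-57 / 100)) (1709 / 4000) (73391 / 800000) ∧ (∀ τ, 0 ≤ τ → τ ≤ 3927 / 3125 → 93 / 100 ≤ lv κ τ) ∧ (1 + (-41 / 100)) * h ≤ (3927 / 3125) ∧ (3927 / 3125) < κ + π / 2 := by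
  have hk1 : 1 ≤ κ := by linarith
  have hp4 := Real.pi_lt_d4
  have hp3 := Real.pi_gt_d2
  have hhq : h ≤ 1309 / 625 := by
    refine hh.trans ?_
    rw [div_le_iff₀ (by norm_num)]
    linarith
  have L1 : Line κ h (1 / 10) (199 / 2000) (199 / 40000) := Line.stepN (l := 199 / 200) (τm := 2618 / 3125) hk1 h0.le (Line.zero hk1) (by norm_num) (by norm_num)
    (fun τ a b => e3_5_4 hκ a b) (by linarith) (by linarith) (by norm_num) (by norm_num)
  have L2 : Line κ h (1 / 5) (199 / 1000) (199 / 10000) := Line.stepN (l := 199 / 200) (τm := 2618 / 3125) hk1 h0.le L1 (by norm_num) (by norm_num)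
    (fun τ a b => e3_5_4 hκ a b) (by linarith) (by linarith) (by norm_num) (by norm_num)
  have L3 : Line κ h (3 / 10) (597 / 2000) (1791 / 40000) := Line.stepN (l := 199 / 200) (τm := 2618 / 3125) hk1 h0.le L2 (by norm_num) (by norm_num)
    (fun τ a b => e3_5_4 hκ a b) (by linarith) (by linarith) (by norm_num) (by norm_num)
  have L4 : Line κ h (2 / 5) (199 / 500) (199 / 2500) := Line.stepN (l := 199 / 200) (τm := 2618 / 3125) hk1 h0.le L3 (by norm_num) (by norm_num)
    (fun τ a b => e3_5_4 hκ a b) (by linarith) (by linarith) (by norm_num) (by norm_num)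
  exact ⟨Line.stepN (l := 39 / 40) (τm := 1309 / 1250) hk1 h0.le L4 (by norm_num) (by norm_num)
    (fun τ a b => e3_5_5 hκ a b) (by linarith) (by linarith) (by norm_num) (by norm_num), fun τ a b => e3_5_6 hκ a b,
    by linarith, by linarith⟩

private theorem e3_6_6 {κ τ : ℝ} (hκ : 5 / 2 ≤ κ) (h0 : 0 ≤ τ) (hm : τ ≤ 3927 / 3125) : 199 / 200 ≤ lv κ τ :=
  lv_ge_num (κ₀ := 5 / 2) (y := 4499 / 10000) (Fl := 313631 / 200000) (Fh := 392039 / 250000) (xl := 152943 / 100000) (xh := 9559 / 6250) (τm := 3927 / 3125) (θ := 894 / 3125)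
    (by norm_num) (by norm_num) (by norm_num)
    (exp_bds (by norm_num) (by norm_num) (by norm_num [Finset.sum_range_succ, Nat.factorial])
      (by norm_num [Finset.sum_range_succ, Nat.factorial]))
    (by norm_num) (by norm_num) (by norm_num) (by norm_num) (by norm_num) (by norm_num) (by norm_num) (by norm_num)
    (by norm_num) (by norm_num) (by norm_num) (by norm_num) hκ h0 hm

private theorem e3_6_7 {κ τ : ℝ} (hκ : 5 / 2 ≤ κ) (h0 : 0 ≤ τ) (hm : τ ≤ 9163 / 6250) : 189 / 200 ≤ lv κ τ :=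
  lv_ge_num (κ₀ := 5 / 2) (y := 26017 / 50000) (Fl := 1682599 / 1000000) (Fh := 8413 / 5000) (xl := 13917 / 10000) (xh := 139171 / 100000) (τm := 9163 / 6250) (θ := 35779 / 100000)
    (by norm_num) (by norm_num) (by norm_num)
    (exp_bds (by norm_num) (by norm_num) (by norm_num [Finset.sum_range_succ, Nat.factorial])
      (by norm_num [Finset.sum_range_succ, Nat.factorial]))
    (by norm_num) (by norm_num) (by norm_num) (by norm_num) (by norm_num) (by norm_num) (by norm_num) (by norm_num)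
    (by norm_num) (by norm_num) (by norm_num) (by norm_num) hκ h0 hm

private theorem e3_6_8 {κ τ : ℝ} (hκ : 5 / 2 ≤ κ) (h0 : 0 ≤ τ) (hm : τ ≤ 5236 / 3125) : 177 / 200 ≤ lv κ τ :=
  lv_ge_num (κ₀ := 5 / 2) (y := 11737 / 20000) (Fl := 899157 / 500000) (Fh := 359663 / 200000) (xl := 5041 / 4000) (xh := 63013 / 50000) (τm := 5236 / 3125) (θ := 43579 / 100000)
    (by norm_num) (by norm_num) (by norm_num)
    (exp_bds (by norm_num) (by norm_num) (by norm_num [Finset.sum_range_succ, Nat.factorial])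
      (by norm_num [Finset.sum_range_succ, Nat.factorial]))
    (by norm_num) (by norm_num) (by norm_num) (by norm_num) (by norm_num) (by norm_num) (by norm_num) (by norm_num)
    (by norm_num) (by norm_num) (by norm_num) (by norm_num) hκ h0 hm

private theorem e3_6_9 {κ τ : ℝ} (hκ : 5 / 2 ≤ κ) (h0 : 0 ≤ τ) (hm : τ ≤ 11781 / 6250) : 163 / 200 ≤ lv κ τ :=
  lv_ge_num (κ₀ := 5 / 2) (y := 64869 / 100000) (Fl := 1913033 / 1000000) (Fh := 956517 / 500000) (xl := 22689 / 20000) (xh := 56723 / 50000) (τm := 11781 / 6250) (θ := 25971 / 50000)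
    (by norm_num) (by norm_num) (by norm_num)
    (exp_bds (by norm_num) (by norm_num) (by norm_num [Finset.sum_range_succ, Nat.factorial])
      (by norm_num [Finset.sum_range_succ, Nat.factorial]))
    (by norm_num) (by norm_num) (by norm_num) (by norm_num) (by norm_num) (by norm_num) (by norm_num) (by norm_num)
    (by norm_num) (by norm_num) (by norm_num) (by norm_num) hκ h0 hm

private theorem e3_6_10 {κ τ : ℝ} (hκ : 5 / 2 ≤ κ) (h0 : 0 ≤ τ) (hm : τ ≤ 1309 / 625) : 37 / 50 ≤ lv κ τ :=
  lv_ge_num (κ₀ := 5 / 2) (y := 14107 / 20000) (Fl := 404911 / 200000) (Fh := 506139 / 250000) (xl := 25339 / 25000) (xh := 101357 / 100000) (τm := 1309 / 625) (θ := 60797 / 100000)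
    (by norm_num) (by norm_num) (by norm_num)
    (exp_bds (by norm_num) (by norm_num) (by norm_num [Finset.sum_range_succ, Nat.factorial])
      (by norm_num [Finset.sum_range_succ, Nat.factorial]))
    (by norm_num) (by norm_num) (by norm_num) (by norm_num) (by norm_num) (by norm_num) (by norm_num) (by norm_num)
    (by norm_num) (by norm_num) (by norm_num) (by norm_num) hκ h0 hm

/-- class 3_6: `b = 3`, `κ ≥ 5 / 2` -/
theorem ld3_6 {κ h : ℝ} (hκ : 5 / 2 ≤ κ) (h0 : 0 < h) (hh : h ≤ 2 * π / 3) :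
    LineData κ h 1 (1871 / 2000) (893 / 2000) (1383 / 2000) (241 / 1000) (-23 / 40) (-79 / 200) (909 / 5000) (89 / 100) := by
  have hk1 : 1 ≤ κ := by linarith
  have hp4 := Real.pi_lt_d4
  have hp3 := Real.pi_gt_d2
  have hhq : h ≤ 1309 / 625 := by
    refine hh.trans ?_
    rw [div_le_iff₀ (by norm_num)]
    linarith
  have L1 : Line κ h (1 / 10) (199 / 2000) (199 / 40000) := Line.stepN (l := 199 / 200) (τm := 3927 / 3125) hk1 h0.le (Line.zero hk1) (by norm_num) (by norm_num)
    (fun τ a b => e3_6_6 hκ a b) (by linarith) (by linarith) (by norm_num) (by norm_num)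
  have L2 : Line κ h (1 / 5) (199 / 1000) (199 / 10000) := Line.stepN (l := 199 / 200) (τm := 3927 / 3125) hk1 h0.le L1 (by norm_num) (by norm_num)
    (fun τ a b => e3_6_6 hκ a b) (by linarith) (by linarith) (by norm_num) (by norm_num)
  have L3 : Line κ h (3 / 10) (597 / 2000) (1791 / 40000) := Line.stepN (l := 199 / 200) (τm := 3927 / 3125) hk1 h0.le L2 (by norm_num) (by norm_num)
    (fun τ a b => e3_6_6 hκ a b) (by linarith) (by linarith) (by norm_num) (by norm_num)
  have L4 : Line κ h (2 / 5) (199 / 500) (199 / 2500) := Line.stepN (l := 199 / 200) (τm := 3927 / 3125) hk1 h0.le L3 (by norm_num) (by norm_num)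
    (fun τ a b => e3_6_6 hκ a b) (by linarith) (by linarith) (by norm_num) (by norm_num)
  have L5 : Line κ h (1 / 2) (199 / 400) (199 / 1600) := Line.stepN (l := 199 / 200) (τm := 3927 / 3125) hk1 h0.le L4 (by norm_num) (by norm_num)
    (fun τ a b => e3_6_6 hκ a b) (by linarith) (by linarith) (by norm_num) (by norm_num)
  have L6 : Line κ h (3 / 5) (597 / 1000) (1791 / 10000) := Line.stepN (l := 199 / 200) (τm := 3927 / 3125) hk1 h0.le L5 (by norm_num) (by norm_num)
    (fun τ a b => e3_6_6 hκ a b) (by linarith) (by linarith) (by norm_num) (by norm_num)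
  have L7 : Line κ h (7 / 10) (1383 / 2000) (9621 / 40000) := Line.stepN (l := 189 / 200) (τm := 9163 / 6250) hk1 h0.le L6 (by norm_num) (by norm_num)
    (fun τ a b => e3_6_7 hκ a b) (by linarith) (by linarith) (by norm_num) (by norm_num)
  have L8 : Line κ h (4 / 5) (39 / 50) (3069 / 10000) := Line.stepN (l := 177 / 200) (τm := 5236 / 3125) hk1 h0.le L7 (by norm_num) (by norm_num)
    (fun τ a b => e3_6_8 hκ a b) (by linarith) (by linarith) (by norm_num) (by norm_num)
  have L9 : Line κ h (9 / 10) (1723 / 2000) (15047 / 40000) := Line.stepN (l := 163 / 200) (τm := 11781 / 6250) hk1 h0.le L8 (by norm_num) (by norm_num)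
    (fun τ a b => e3_6_9 hκ a b) (by linarith) (by linarith) (by norm_num) (by norm_num)
  have L10 : Line κ h 1 (1871 / 2000) (17859 / 40000) := Line.stepN (l := 37 / 50) (τm := 1309 / 625) hk1 h0.le L9 (by norm_num) (by norm_num)
    (fun τ a b => e3_6_10 hκ a b) (by linarith) (by linarith) (by norm_num) (by norm_num)
  have m1 : ∀ z ∈ Icc (-23 / 40 : ℝ) (-1 / 2), 89 / 100 ≤ yv κ ((z + 1) * h) / h - yv κ (z * h) / h :=
    mu_piece (a := 2 / 5) (S := 199 / 500) (C := 199 / 2500) (l := 199 / 200) (τm := 3927 / 3125) (H₁ := 2618 / 3125) (mp := 14667 / 31250) (mq := 208811 / 500000) hk1 h0 (by linarith)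
      L4 (by norm_num) (by norm_num) (by norm_num) (fun τ a b => e3_6_6 hκ a b) (by linarith) (by linarith)
      (exp_le_bd (by norm_num) (by norm_num) (by norm_num [Finset.sum_range_succ, Nat.factorial])) (exp_le_bd (by norm_num) (by norm_num) (by norm_num [Finset.sum_range_succ, Nat.factorial]))
      (by norm_num) (by norm_num)
  have m2 : ∀ z ∈ Icc (-1 / 2 : ℝ) (-2 / 5), 89 / 100 ≤ yv κ ((z + 1) * h) / h - yv κ (z * h) / h :=
    mu_piece (a := 1 / 2) (S := 199 / 400) (C := 199 / 1600) (l := 199 / 200) (τm := 3927 / 3125) (H₁ := 2618 / 3125) (mp := 208811 / 500000) (mq := 172489 / 500000) hk1 h0 (by linarith)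
      L5 (by norm_num) (by norm_num) (by norm_num) (fun τ a b => e3_6_6 hκ a b) (by linarith) (by linarith)
      (exp_le_bd (by norm_num) (by norm_num) (by norm_num [Finset.sum_range_succ, Nat.factorial])) (exp_le_bd (by norm_num) (by norm_num) (by norm_num [Finset.sum_range_succ, Nat.factorial]))
      (by norm_num) (by norm_num)
  have m3 : ∀ z ∈ Icc (-2 / 5 : ℝ) (-79 / 200), 89 / 100 ≤ yv κ ((z + 1) * h) / h - yv κ (z * h) / h :=
    mu_piece (a := 3 / 5) (S := 597 / 1000) (C := 1791 / 10000) (l := 189 / 200) (τm := 9163 / 6250) (H₁ := 2618 / 3125) (mp := 172489 / 500000) (mq := 341227 / 1000000) hk1 h0 (by linarith)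
      L6 (by norm_num) (by norm_num) (by norm_num) (fun τ a b => e3_6_7 hκ a b) (by linarith) (by linarith)
      (exp_le_bd (by norm_num) (by norm_num) (by norm_num [Finset.sum_range_succ, Nat.factorial])) (exp_le_bd (by norm_num) (by norm_num) (by norm_num [Finset.sum_range_succ, Nat.factorial]))
      (by norm_num) (by norm_num)
  exact ⟨L10.weaken h0.le (by norm_num) (by norm_num), L7.weaken h0.le (by norm_num) (by norm_num),
    Line.f1R (τm := 15839 / 12500) hk1 h0 L6 (by norm_num) (by linarith) (by linarith) (by norm_num), mu_glue (mu_glue m1 m2) m3⟩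

/-- class 3_6: line at `1 + qL`, curvature up to `1 + qR` -/
theorem lr3_6 {κ h : ℝ} (hκ : 5 / 2 ≤ κ) (h0 : 0 < h) (hh : h ≤ 2 * π / 3) :
    Line κ h (1 + (-23 / 40)) (3383 / 8000) (57511 / 640000) ∧ (∀ τ, 0 ≤ τ → τ ≤ 9163 / 6250 → 189 / 200 ≤ lv κ τ) ∧ (1 + (-79 / 200)) * h ≤ (9163 / 6250) ∧ (9163 / 6250) < κ + π / 2 := by
  have hk1 : 1 ≤ κ := by linarith
  have hp4 := Real.pi_lt_d4
  have hp3 := Real.pi_gt_d2
  have hhq : h ≤ 1309 / 625 := by
    refine hh.trans ?_
    rw [div_le_iff₀ (by norm_num)]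
    linarith
  have L1 : Line κ h (1 / 10) (199 / 2000) (199 / 40000) := Line.stepN (l := 199 / 200) (τm := 3927 / 3125) hk1 h0.le (Line.zero hk1) (by norm_num) (by norm_num)
    (fun τ a b => e3_6_6 hκ a b) (by linarith) (by linarith) (by norm_num) (by norm_num)
  have L2 : Line κ h (1 / 5) (199 / 1000) (199 / 10000) := Line.stepN (l := 199 / 200) (τm := 3927 / 3125) hk1 h0.le L1 (by norm_num) (by norm_num)
    (fun τ a b => e3_6_6 hκ a b) (by linarith) (by linarith) (by norm_num) (by norm_num)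
  have L3 : Line κ h (3 / 10) (597 / 2000) (1791 / 40000) := Line.stepN (l := 199 / 200) (τm := 3927 / 3125) hk1 h0.le L2 (by norm_num) (by norm_num)
    (fun τ a b => e3_6_6 hκ a b) (by linarith) (by linarith) (by norm_num) (by norm_num)
  have L4 : Line κ h (2 / 5) (199 / 500) (199 / 2500) := Line.stepN (l := 199 / 200) (τm := 3927 / 3125) hk1 h0.le L3 (by norm_num) (by norm_num)
    (fun τ a b => e3_6_6 hκ a b) (by linarith) (by linarith) (by norm_num) (by norm_num)
  exact ⟨Line.stepN (l := 199 / 200) (τm := 3927 / 3125) hk1 h0.le L4 (by norm_num) (by norm_num)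
    (fun τ a b => e3_6_6 hκ a b) (by linarith) (by linarith) (by norm_num) (by norm_num), fun τ a b => e3_6_7 hκ a b,
    by linarith, by linarith⟩

private theorem e3_7_7 {κ τ : ℝ} (hκ : 133 / 50 ≤ κ) (h0 : 0 ≤ τ) (hm : τ ≤ 9163 / 6250) : 199 / 200 ≤ lv κ τ :=
  lv_ge_num (κ₀ := 133 / 50) (y := 50829 / 100000) (Fl := 332489 / 200000) (Fh := 831223 / 500000) (xl := 151717 / 100000) (xh := 75859 / 50000) (τm := 9163 / 6250) (θ := 16163 / 50000)
    (by norm_num) (by norm_num) (by norm_num)
    (exp_bds (by norm_num) (by norm_num) (by norm_num [Finset.sum_range_succ, Nat.factorial])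
      (by norm_num [Finset.sum_range_succ, Nat.factorial]))
    (by norm_num) (by norm_num) (by norm_num) (by norm_num) (by norm_num) (by norm_num) (by norm_num) (by norm_num)
    (by norm_num) (by norm_num) (by norm_num) (by norm_num) hκ h0 hm

private theorem e3_7_8 {κ τ : ℝ} (hκ : 133 / 50 ≤ κ) (h0 : 0 ≤ τ) (hm : τ ≤ 5236 / 3125) : 19 / 20 ≤ lv κ τ :=
  lv_ge_num (κ₀ := 133 / 50) (y := 72 / 125) (Fl := 444727 / 250000) (Fh := 1778909 / 1000000) (xl := 13799 / 10000) (xh := 137991 / 100000) (τm := 5236 / 3125) (θ := 39543 / 100000)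
    (by norm_num) (by norm_num) (by norm_num)
    (exp_bds (by norm_num) (by norm_num) (by norm_num [Finset.sum_range_succ, Nat.factorial])
      (by norm_num [Finset.sum_range_succ, Nat.factorial]))
    (by norm_num) (by norm_num) (by norm_num) (by norm_num) (by norm_num) (by norm_num) (by norm_num) (by norm_num)
    (by norm_num) (by norm_num) (by norm_num) (by norm_num) hκ h0 hm

private theorem e3_7_9 {κ τ : ℝ} (hκ : 133 / 50 ≤ κ) (h0 : 0 ≤ τ) (hm : τ ≤ 11781 / 6250) : 89 / 100 ≤ lv κ τ :=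
  lv_ge_num (κ₀ := 133 / 50) (y := 63977 / 100000) (Fl := 474011 / 250000) (Fh := 379209 / 200000) (xl := 24971 / 20000) (xh := 15607 / 12500) (τm := 11781 / 6250) (θ := 5919 / 12500)
    (by norm_num) (by norm_num) (by norm_num)
    (exp_bds (by norm_num) (by norm_num) (by norm_num [Finset.sum_range_succ, Nat.factorial])
      (by norm_num [Finset.sum_range_succ, Nat.factorial]))
    (by norm_num) (by norm_num) (by norm_num) (by norm_num) (by norm_num) (by norm_num) (by norm_num) (by norm_num)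
    (by norm_num) (by norm_num) (by norm_num) (by norm_num) hκ h0 hm

private theorem e3_7_10 {κ τ : ℝ} (hκ : 133 / 50 ≤ κ) (h0 : 0 ≤ τ) (hm : τ ≤ 1309 / 625) : 163 / 200 ≤ lv κ τ :=
  lv_ge_num (κ₀ := 133 / 50) (y := 34947 / 50000) (Fl := 2011619 / 1000000) (Fh := 100581 / 50000) (xl := 112249 / 100000) (xh := 112251 / 100000) (τm := 1309 / 625) (θ := 55691 / 100000)
    (by norm_num) (by norm_num) (by norm_num)
    (exp_bds (by norm_num) (by norm_num) (by norm_num [Finset.sum_range_succ, Nat.factorial])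
      (by norm_num [Finset.sum_range_succ, Nat.factorial]))
    (by norm_num) (by norm_num) (by norm_num) (by norm_num) (by norm_num) (by norm_num) (by norm_num) (by norm_num)
    (by norm_num) (by norm_num) (by norm_num) (by norm_num) hκ h0 hm

/-- class 3_7: `b = 3`, `κ ≥ 133 / 50` -/
theorem ld3_7 {κ h : ℝ} (hκ : 133 / 50 ≤ κ) (h0 : 0 < h) (hh : h ≤ 2 * π / 3) :
    LineData κ h 1 (481 / 500) (937 / 2000) (1393 / 2000) (61 / 250) (-29 / 50) (-77 / 200) (939 / 5000) (179 / 200) := by
  have hk1 : 1 ≤ κ := by linarith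
  have hp4 := Real.pi_lt_d4
  have hp3 := Real.pi_gt_d2
  have hhq : h ≤ 1309 / 625 := by
    refine hh.trans ?_
    rw [div_le_iff₀ (by norm_num)]
    linarith
  have L1 : Line κ h (1 / 10) (199 / 2000) (199 / 40000) := Line.stepN (l := 199 / 200) (τm := 9163 / 6250) hk1 h0.le (Line.zero hk1) (by norm_num) (by norm_num)
    (fun τ a b => e3_7_7 hκ a b) (by linarith) (by linarith) (by norm_num) (by norm_num)
  have L2 : Line κ h (1 / 5) (199 / 1000) (199 / 10000) := Line.stepN (l := 199 / 200) (τm := 9163 / 6250) hk1 h0.le L1 (by norm_num) (by norm_num)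
    (fun τ a b => e3_7_7 hκ a b) (by linarith) (by linarith) (by norm_num) (by norm_num)
  have L3 : Line κ h (3 / 10) (597 / 2000) (1791 / 40000) := Line.stepN (l := 199 / 200) (τm := 9163 / 6250) hk1 h0.le L2 (by norm_num) (by norm_num)
    (fun τ a b => e3_7_7 hκ a b) (by linarith) (by linarith) (by norm_num) (by norm_num)
  have L4 : Line κ h (2 / 5) (199 / 500) (199 / 2500) := Line.stepN (l := 199 / 200) (τm := 9163 / 6250) hk1 h0.le L3 (by norm_num) (by norm_num)
    (fun τ a b => e3_7_7 hκ a b) (by linarith) (by linarith) (by norm_num) (by norm_num)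
  have L5 : Line κ h (1 / 2) (199 / 400) (199 / 1600) := Line.stepN (l := 199 / 200) (τm := 9163 / 6250) hk1 h0.le L4 (by norm_num) (by norm_num)
    (fun τ a b => e3_7_7 hκ a b) (by linarith) (by linarith) (by norm_num) (by norm_num)
  have L6 : Line κ h (3 / 5) (597 / 1000) (1791 / 10000) := Line.stepN (l := 199 / 200) (τm := 9163 / 6250) hk1 h0.le L5 (by norm_num) (by norm_num)
    (fun τ a b => e3_7_7 hκ a b) (by linarith) (by linarith) (by norm_num) (by norm_num)
  have L7 : Line κ h (7 / 10) (1393 / 2000) (9751 / 40000) := Line.stepN (l := 199 / 200) (τm := 9163 / 6250) hk1 h0.le L6 (by norm_num) (by norm_num)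
    (fun τ a b => e3_7_7 hκ a b) (by linarith) (by linarith) (by norm_num) (by norm_num)
  have L8 : Line κ h (4 / 5) (1583 / 2000) (12601 / 40000) := Line.stepN (l := 19 / 20) (τm := 5236 / 3125) hk1 h0.le L7 (by norm_num) (by norm_num)
    (fun τ a b => e3_7_8 hκ a b) (by linarith) (by linarith) (by norm_num) (by norm_num)
  have L9 : Line κ h (9 / 10) (1761 / 2000) (15627 / 40000) := Line.stepN (l := 89 / 100) (τm := 11781 / 6250) hk1 h0.le L8 (by norm_num) (by norm_num)
    (fun τ a b => e3_7_9 hκ a b) (by linarith) (by linarith) (by norm_num) (by norm_num)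
  have L10 : Line κ h 1 (481 / 500) (4681 / 10000) := Line.stepN (l := 163 / 200) (τm := 1309 / 625) hk1 h0.le L9 (by norm_num) (by norm_num)
    (fun τ a b => e3_7_10 hκ a b) (by linarith) (by linarith) (by norm_num) (by norm_num)
  have m1 : ∀ z ∈ Icc (-29 / 50 : ℝ) (-1 / 2), 179 / 200 ≤ yv κ ((z + 1) * h) / h - yv κ (z * h) / h :=
    mu_piece (a := 2 / 5) (S := 199 / 500) (C := 199 / 2500) (l := 199 / 200) (τm := 9163 / 6250) (H₁ := 78737 / 100000) (mp := 477737 / 1000000) (mq := 84319 / 200000) hk1 h0 (by linarith)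
      L4 (by norm_num) (by norm_num) (by norm_num) (fun τ a b => e3_7_7 hκ a b) (by linarith) (by linarith)
      (exp_le_bd (by norm_num) (by norm_num) (by norm_num [Finset.sum_range_succ, Nat.factorial])) (exp_le_bd (by norm_num) (by norm_num) (by norm_num [Finset.sum_range_succ, Nat.factorial]))
      (by norm_num) (by norm_num)
  have m2 : ∀ z ∈ Icc (-1 / 2 : ℝ) (-2 / 5), 179 / 200 ≤ yv κ ((z + 1) * h) / h - yv κ (z * h) / h :=
    mu_piece (a := 1 / 2) (S := 199 / 400) (C := 199 / 1600) (l := 199 / 200) (τm := 9163 / 6250) (H₁ := 78737 / 100000) (mp := 84319 / 200000) (mq := 43467 / 125000) hk1 h0 (by linarith)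
      L5 (by norm_num) (by norm_num) (by norm_num) (fun τ a b => e3_7_7 hκ a b) (by linarith) (by linarith)
      (exp_le_bd (by norm_num) (by norm_num) (by norm_num [Finset.sum_range_succ, Nat.factorial])) (exp_le_bd (by norm_num) (by norm_num) (by norm_num [Finset.sum_range_succ, Nat.factorial]))
      (by norm_num) (by norm_num)
  have m3 : ∀ z ∈ Icc (-2 / 5 : ℝ) (-77 / 200), 179 / 200 ≤ yv κ ((z + 1) * h) / h - yv κ (z * h) / h :=
    mu_piece (a := 3 / 5) (S := 597 / 1000) (C := 1791 / 10000) (l := 199 / 200) (τm := 9163 / 6250) (H₁ := 78737 / 100000) (mp := 43467 / 125000) (mq := 336277 / 1000000) hk1 h0 (by linarith)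
      L6 (by norm_num) (by norm_num) (by norm_num) (fun τ a b => e3_7_7 hκ a b) (by linarith) (by linarith)
      (exp_le_bd (by norm_num) (by norm_num) (by norm_num [Finset.sum_range_succ, Nat.factorial])) (exp_le_bd (by norm_num) (by norm_num) (by norm_num [Finset.sum_range_succ, Nat.factorial]))
      (by norm_num) (by norm_num)
  exact ⟨L10.weaken h0.le (by norm_num) (by norm_num), L7.weaken h0.le (by norm_num) (by norm_num),
    Line.f1R (τm := 64403 / 50000) hk1 h0 L6 (by norm_num) (by linarith) (by linarith) (by norm_num), mu_glue (mu_glue m1 m2) m3⟩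

/-- class 3_7: line at `1 + qL`, curvature up to `1 + qR` -/
theorem lr3_7 {κ h : ℝ} (hκ : 133 / 50 ≤ κ) (h0 : 0 < h) (hh : h ≤ 2 * π / 3) :
    Line κ h (1 + (-29 / 50)) (4179 / 10000) (87759 / 1000000) ∧ (∀ τ, 0 ≤ τ → τ ≤ 9163 / 6250 → 199 / 200 ≤ lv κ τ) ∧ (1 + (-77 / 200)) * h ≤ (9163 / 6250) ∧ (9163 / 6250) < κ + π / 2 := by
  have hk1 : 1 ≤ κ := by linarith
  have hp4 := Real.pi_lt_d4
  have hp3 := Real.pi_gt_d2
  have hhq : h ≤ 1309 / 625 := by
    refine hh.trans ?_
    rw [div_le_iff₀ (by norm_num)]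
    linarith
  have L1 : Line κ h (1 / 10) (199 / 2000) (199 / 40000) := Line.stepN (l := 199 / 200) (τm := 9163 / 6250) hk1 h0.le (Line.zero hk1) (by norm_num) (by norm_num)
    (fun τ a b => e3_7_7 hκ a b) (by linarith) (by linarith) (by norm_num) (by norm_num)
  have L2 : Line κ h (1 / 5) (199 / 1000) (199 / 10000) := Line.stepN (l := 199 / 200) (τm := 9163 / 6250) hk1 h0.le L1 (by norm_num) (by norm_num)
    (fun τ a b => e3_7_7 hκ a b) (by linarith) (by linarith) (by norm_num) (by norm_num)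
  have L3 : Line κ h (3 / 10) (597 / 2000) (1791 / 40000) := Line.stepN (l := 199 / 200) (τm := 9163 / 6250) hk1 h0.le L2 (by norm_num) (by norm_num)
    (fun τ a b => e3_7_7 hκ a b) (by linarith) (by linarith) (by norm_num) (by norm_num)
  have L4 : Line κ h (2 / 5) (199 / 500) (199 / 2500) := Line.stepN (l := 199 / 200) (τm := 9163 / 6250) hk1 h0.le L3 (by norm_num) (by norm_num)
    (fun τ a b => e3_7_7 hκ a b) (by linarith) (by linarith) (by norm_num) (by norm_num)
  exact ⟨Line.stepN (l := 199 / 200) (τm := 9163 / 6250) hk1 h0.le L4 (by norm_num) (by norm_num)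
    (fun τ a b => e3_7_7 hκ a b) (by linarith) (by linarith) (by norm_num) (by norm_num), fun τ a b => e3_7_7 hκ a b,
    by linarith, by linarith⟩

end R2

end Sok
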