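import Pool.Agent.Lib.MP_816dec_an.R2LineN

/-!
MP_816dec_an, row R2 (5), (6): the right lines of the classes b = 4 (numbers of `R2Cls`).
-/

set_option autoImplicit false

open Set Filter Topology Real

namespace Sok

namespace R2

private theorem e4_1_1 {κ τ : ℝ} (hκ : 139 / 100 ≤ κ) (h0 : 0 ≤ τ) (hm : τ ≤ 3927 / 25000) : 24 / 25 ≤ lv κ τ :=
  lv_ge_num (κ₀ := 139 / 100) (y := 733 / 10000) (Fl := 1076053 / 1000000) (Fh := 538027 / 500000) (xl := 128967 / 100000) (xh := 16121 / 12500) (τm := 3927 / 25000) (θ := 5677 / 100000)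
    (by norm_num) (by norm_num) (by norm_num)
    (exp_bds (by norm_num) (by norm_num) (by norm_num [Finset.sum_range_succ, Nat.factorial])
      (by norm_num [Finset.sum_range_succ, Nat.factorial]))
    (by norm_num) (by norm_num) (by norm_num) (by norm_num) (by norm_num) (by norm_num) (by norm_num) (by norm_num)
    (by norm_num) (by norm_num) (by norm_num) (by norm_num) hκ h0 hm

private theorem e4_1_2 {κ τ : ℝ} (hκ : 139 / 100 ≤ κ) (h0 : 0 ≤ τ) (hm : τ ≤ 3927 / 12500) : 183 / 200 ≤ lv κ τ :=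
  lv_ge_num (κ₀ := 139 / 100) (y := 3591 / 25000) (Fl := 288617 / 250000) (Fh := 1154469 / 1000000) (xl := 119541 / 100000) (xh := 59771 / 50000) (τm := 3927 / 12500) (θ := 5979 / 50000)
    (by norm_num) (by norm_num) (by norm_num)
    (exp_bds (by norm_num) (by norm_num) (by norm_num [Finset.sum_range_succ, Nat.factorial])
      (by norm_num [Finset.sum_range_succ, Nat.factorial]))
    (by norm_num) (by norm_num) (by norm_num) (by norm_num) (by norm_num) (by norm_num) (by norm_num) (by norm_num)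
    (by norm_num) (by norm_num) (by norm_num) (by norm_num) hκ h0 hm

private theorem e4_1_3 {κ τ : ℝ} (hκ : 139 / 100 ≤ κ) (h0 : 0 ≤ τ) (hm : τ ≤ 11781 / 25000) : 173 / 200 ≤ lv κ τ :=
  lv_ge_num (κ₀ := 139 / 100) (y := 21031 / 100000) (Fl := 61703 / 50000) (Fh := 1234061 / 1000000) (xl := 22131 / 20000) (xh := 3458 / 3125) (τm := 11781 / 25000) (θ := 18781 / 100000)
    (by norm_num) (by norm_num) (by norm_num)
    (exp_bds (by norm_num) (by norm_num) (by norm_num [Finset.sum_range_succ, Nat.factorial])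
      (by norm_num [Finset.sum_range_succ, Nat.factorial]))
    (by norm_num) (by norm_num) (by norm_num) (by norm_num) (by norm_num) (by norm_num) (by norm_num) (by norm_num)
    (by norm_num) (by norm_num) (by norm_num) (by norm_num) hκ h0 hm

private theorem e4_1_4 {κ τ : ℝ} (hκ : 139 / 100 ≤ κ) (h0 : 0 ≤ τ) (hm : τ ≤ 3927 / 6250) : 161 / 200 ≤ lv κ τ :=
  lv_ge_num (κ₀ := 139 / 100) (y := 13639 / 50000) (Fl := 1313611 / 1000000) (Fh := 328403 / 250000) (xl := 51119 / 50000) (xh := 102239 / 100000) (τm := 3927 / 6250) (θ := 26073 / 100000)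
    (by norm_num) (by norm_num) (by norm_num)
    (exp_bds (by norm_num) (by norm_num) (by norm_num [Finset.sum_range_succ, Nat.factorial])
      (by norm_num [Finset.sum_range_succ, Nat.factorial]))
    (by norm_num) (by norm_num) (by norm_num) (by norm_num) (by norm_num) (by norm_num) (by norm_num) (by norm_num)
    (by norm_num) (by norm_num) (by norm_num) (by norm_num) hκ h0 hm

private theorem e4_1_5 {κ τ : ℝ} (hκ : 139 / 100 ≤ κ) (h0 : 0 ≤ τ) (hm : τ ≤ 3927 / 5000) : 149 / 200 ≤ lv κ τ :=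
  lv_ge_num (κ₀ := 139 / 100) (y := 1323 / 4000) (Fl := 1392011 / 1000000) (Fh := 348003 / 250000) (xl := 47109 / 50000) (xh := 94219 / 100000) (τm := 3927 / 5000) (θ := 211 / 625)
    (by norm_num) (by norm_num) (by norm_num)
    (exp_bds (by norm_num) (by norm_num) (by norm_num [Finset.sum_range_succ, Nat.factorial])
      (by norm_num [Finset.sum_range_succ, Nat.factorial]))
    (by norm_num) (by norm_num) (by norm_num) (by norm_num) (by norm_num) (by norm_num) (by norm_num) (by norm_num)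
    (by norm_num) (by norm_num) (by norm_num) (by norm_num) hκ h0 hm

private theorem e4_1_6 {κ τ : ℝ} (hκ : 139 / 100 ≤ κ) (h0 : 0 ≤ τ) (hm : τ ≤ 11781 / 12500) : 17 / 25 ≤ lv κ τ :=
  lv_ge_num (κ₀ := 139 / 100) (y := 38409 / 100000) (Fl := 1468277 / 1000000) (Fh := 734139 / 500000) (xl := 43263 / 50000) (xh := 2704 / 3125) (τm := 11781 / 12500) (θ := 2611 / 6250)
    (by norm_num) (by norm_num) (by norm_num)
    (exp_bds (by norm_num) (by norm_num) (by norm_num [Finset.sum_range_succ, Nat.factorial])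
      (by norm_num [Finset.sum_range_succ, Nat.factorial]))
    (by norm_num) (by norm_num) (by norm_num) (by norm_num) (by norm_num) (by norm_num) (by norm_num) (by norm_num)
    (by norm_num) (by norm_num) (by norm_num) (by norm_num) hκ h0 hm

private theorem e4_1_7 {κ τ : ℝ} (hκ : 139 / 100 ≤ κ) (h0 : 0 ≤ τ) (hm : τ ≤ 27489 / 25000) : 31 / 50 ≤ lv κ τ :=
  lv_ge_num (κ₀ := 139 / 100) (y := 43279 / 100000) (Fl := 96347 / 62500) (Fh := 1541553 / 1000000) (xl := 79103 / 100000) (xh := 2472 / 3125) (τm := 27489 / 25000) (θ := 25031 / 50000)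
    (by norm_num) (by norm_num) (by norm_num)
    (exp_bds (by norm_num) (by norm_num) (by norm_num [Finset.sum_range_succ, Nat.factorial])
      (by norm_num [Finset.sum_range_succ, Nat.factorial]))
    (by norm_num) (by norm_num) (by norm_num) (by norm_num) (by norm_num) (by norm_num) (by norm_num) (by norm_num)
    (by norm_num) (by norm_num) (by norm_num) (by norm_num) hκ h0 hm

private theorem e4_1_8 {κ τ : ℝ} (hκ : 139 / 100 ≤ κ) (h0 : 0 ≤ τ) (hm : τ ≤ 3927 / 3125) : 14 / 25 ≤ lv κ τ :=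
  lv_ge_num (κ₀ := 139 / 100) (y := 4769 / 10000) (Fl := 25173 / 15625) (Fh := 1611073 / 1000000) (xl := 71899 / 100000) (xh := 719 / 1000) (τm := 3927 / 3125) (θ := 11713 / 20000)
    (by norm_num) (by norm_num) (by norm_num)
    (exp_bds (by norm_num) (by norm_num) (by norm_num [Finset.sum_range_succ, Nat.factorial])
      (by norm_num [Finset.sum_range_succ, Nat.factorial]))
    (by norm_num) (by norm_num) (by norm_num) (by norm_num) (by norm_num) (by norm_num) (by norm_num) (by norm_num)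
    (by norm_num) (by norm_num) (by norm_num) (by norm_num) hκ h0 hm

/-- class 4_1: `b = 4`, `κ ≥ 139 / 100` -/
theorem ld4_1 {κ h : ℝ} (hκ : 139 / 100 ≤ κ) (h0 : 0 < h) (hh : h ≤ 2 * π / 4) :
    LineData κ h (4 / 5) (123 / 200) (111 / 500) (559 / 1000) (9 / 50) (-111 / 200) (-43 / 100) (719 / 5000) (163 / 200) := by
  have hk1 : 1 ≤ κ := by linarith
  have hp4 := Real.pi_lt_d4
  have hp3 := Real.pi_gt_d2
  have hhq : h ≤ 3927 / 2500 := by
    refine hh.trans ?_
    rw [div_le_iff₀ (by norm_num)]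
    linarith
  have L1 : Line κ h (1 / 10) (12 / 125) (3 / 625) := Line.stepN (l := 24 / 25) (τm := 3927 / 25000) hk1 h0.le (Line.zero hk1) (by norm_num) (by norm_num)
    (fun τ a b => e4_1_1 hκ a b) (by linarith) (by linarith) (by norm_num) (by norm_num)
  have L2 : Line κ h (1 / 5) (3 / 16) (741 / 40000) := Line.stepN (l := 183 / 200) (τm := 3927 / 12500) hk1 h0.le L1 (by norm_num) (by norm_num)
    (fun τ a b => e4_1_2 hκ a b) (by linarith) (by linarith) (by norm_num) (by norm_num)
  have L3 : Line κ h (3 / 10) (137 / 500) (803 / 20000) := Line.stepN (l := 173 / 200) (τm := 11781 / 25000) hk1 h0.le L2 (by norm_num) (by norm_num)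
    (fun τ a b => e4_1_3 hκ a b) (by linarith) (by linarith) (by norm_num) (by norm_num)
  have L4 : Line κ h (2 / 5) (709 / 2000) (2733 / 40000) := Line.stepN (l := 161 / 200) (τm := 3927 / 6250) hk1 h0.le L3 (by norm_num) (by norm_num)
    (fun τ a b => e4_1_4 hκ a b) (by linarith) (by linarith) (by norm_num) (by norm_num)
  have L5 : Line κ h (1 / 2) (429 / 1000) (2037 / 20000) := Line.stepN (l := 149 / 200) (τm := 3927 / 5000) hk1 h0.le L4 (by norm_num) (by norm_num)
    (fun τ a b => e4_1_5 hκ a b) (by linarith) (by linarith) (by norm_num) (by norm_num)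
  have L6 : Line κ h (3 / 5) (497 / 1000) (557 / 4000) := Line.stepN (l := 17 / 25) (τm := 11781 / 12500) hk1 h0.le L5 (by norm_num) (by norm_num)
    (fun τ a b => e4_1_6 hκ a b) (by linarith) (by linarith) (by norm_num) (by norm_num)
  have L7 : Line κ h (7 / 10) (559 / 1000) (3591 / 20000) := Line.stepN (l := 31 / 50) (τm := 27489 / 25000) hk1 h0.le L6 (by norm_num) (by norm_num)
    (fun τ a b => e4_1_7 hκ a b) (by linarith) (by linarith) (by norm_num) (by norm_num)
  have L8 : Line κ h (4 / 5) (123 / 200) (4431 / 20000) := Line.stepN (l := 14 / 25) (τm := 3927 / 3125) hk1 h0.le L7 (by norm_num) (by norm_num)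
    (fun τ a b => e4_1_8 hκ a b) (by linarith) (by linarith) (by norm_num) (by norm_num)
  have m1 : ∀ z ∈ Icc (-111 / 200 : ℝ) (-1 / 2), 163 / 200 ≤ yv κ ((z + 1) * h) / h - yv κ (z * h) / h :=
    mu_piece (a := 2 / 5) (S := 709 / 2000) (C := 2733 / 40000) (l := 149 / 200) (τm := 3927 / 5000) (H₁ := 7063 / 6250) (mp := 13463 / 31250) (mq := 396353 / 1000000) hk1 h0 (by linarith)
      L4 (by norm_num) (by norm_num) (by norm_num) (fun τ a b => e4_1_5 hκ a b) (by linarith) (by linarith)
      (exp_le_bd (by norm_num) (by norm_num) (by norm_num [Finset.sum_range_succ, Nat.factorial])) (exp_le_bd (by norm_num) (by norm_num) (by norm_num [Finset.sum_range_succ, Nat.factorial]))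
      (by norm_num) (by norm_num)
  have m2 : ∀ z ∈ Icc (-1 / 2 : ℝ) (-43 / 100), 163 / 200 ≤ yv κ ((z + 1) * h) / h - yv κ (z * h) / h :=
    mu_piece (a := 1 / 2) (S := 429 / 1000) (C := 2037 / 20000) (l := 17 / 25) (τm := 11781 / 12500) (H₁ := 7063 / 6250) (mp := 396353 / 1000000) (mq := 43807 / 125000) hk1 h0 (by linarith)
      L5 (by norm_num) (by norm_num) (by norm_num) (fun τ a b => e4_1_6 hκ a b) (by linarith) (by linarith)
      (exp_le_bd (by norm_num) (by norm_num) (by norm_num [Finset.sum_range_succ, Nat.factorial])) (exp_le_bd (by norm_num) (by norm_num) (by norm_num [Finset.sum_range_succ, Nat.factorial]))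
      (by norm_num) (by norm_num)
  exact ⟨L8.weaken h0.le (by norm_num) (by norm_num), L7.weaken h0.le (by norm_num) (by norm_num),
    Line.f1R (τm := 2798 / 3125) hk1 h0 L6 (by norm_num) (by linarith) (by linarith) (by norm_num), mu_glue m1 m2⟩

/-- class 4_1: line at `1 + qL`, curvature up to `1 + qR` -/
theorem lr4_1 {κ h : ℝ} (hκ : 139 / 100 ≤ κ) (h0 : 0 < h) (hh : h ≤ 2 * π / 4) :
    Line κ h (1 + (-111 / 200)) (15521 / 40000) (1319829 / 16000000) ∧ (∀ τ, 0 ≤ τ → τ ≤ 11781 / 12500 → 17 / 25 ≤ lv κ τ) ∧ (1 + (-43 / 100)) * h ≤ (11781 / 12500) ∧ (11781 / 12500) < κ + π / 2 := by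
  have hk1 : 1 ≤ κ := by linarith
  have hp4 := Real.pi_lt_d4
  have hp3 := Real.pi_gt_d2
  have hhq : h ≤ 3927 / 2500 := by
    refine hh.trans ?_
    rw [div_le_iff₀ (by norm_num)]
    linarith
  have L1 : Line κ h (1 / 10) (12 / 125) (3 / 625) := Line.stepN (l := 24 / 25) (τm := 3927 / 25000) hk1 h0.le (Line.zero hk1) (by norm_num) (by norm_num)
    (fun τ a b => e4_1_1 hκ a b) (by linarith) (by linarith) (by norm_num) (by norm_num)
  have L2 : Line κ h (1 / 5) (3 / 16) (741 / 40000) := Line.stepN (l := 183 / 200) (τm := 3927 / 12500) hk1 h0.le L1 (by norm_num) (by norm_num)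
    (fun τ a b => e4_1_2 hκ a b) (by linarith) (by linarith) (by norm_num) (by norm_num)
  have L3 : Line κ h (3 / 10) (137 / 500) (803 / 20000) := Line.stepN (l := 173 / 200) (τm := 11781 / 25000) hk1 h0.le L2 (by norm_num) (by norm_num)
    (fun τ a b => e4_1_3 hκ a b) (by linarith) (by linarith) (by norm_num) (by norm_num)
  have L4 : Line κ h (2 / 5) (709 / 2000) (2733 / 40000) := Line.stepN (l := 161 / 200) (τm := 3927 / 6250) hk1 h0.le L3 (by norm_num) (by norm_num)
    (fun τ a b => e4_1_4 hκ a b) (by linarith) (by linarith) (by norm_num) (by norm_num)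
  exact ⟨Line.stepN (l := 149 / 200) (τm := 3927 / 5000) hk1 h0.le L4 (by norm_num) (by norm_num)
    (fun τ a b => e4_1_5 hκ a b) (by linarith) (by linarith) (by norm_num) (by norm_num), fun τ a b => e4_1_6 hκ a b,
    by linarith, by linarith⟩

private theorem e4_2_1 {κ τ : ℝ} (hκ : 3 / 2 ≤ κ) (h0 : 0 ≤ τ) (hm : τ ≤ 3927 / 25000) : 97 / 100 ≤ lv κ τ :=
  lv_ge_num (κ₀ := 3 / 2) (y := 3587 / 50000) (Fl := 1719 / 1600) (Fh := 134297 / 125000) (xl := 139431 / 100000) (xh := 17429 / 12500) (τm := 3927 / 25000) (θ := 257 / 5000)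
    (by norm_num) (by norm_num) (by norm_num)
    (exp_bds (by norm_num) (by norm_num) (by norm_num [Finset.sum_range_succ, Nat.factorial])
      (by norm_num [Finset.sum_range_succ, Nat.factorial]))
    (by norm_num) (by norm_num) (by norm_num) (by norm_num) (by norm_num) (by norm_num) (by norm_num) (by norm_num)
    (by norm_num) (by norm_num) (by norm_num) (by norm_num) hκ h0 hm

private theorem e4_2_2 {κ τ : ℝ} (hκ : 3 / 2 ≤ κ) (h0 : 0 ≤ τ) (hm : τ ≤ 3927 / 12500) : 187 / 200 ≤ lv κ τ :=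
  lv_ge_num (κ₀ := 3 / 2) (y := 2827 / 20000) (Fl := 1151827 / 1000000) (Fh := 287957 / 250000) (xl := 64729 / 50000) (xh := 129459 / 100000) (τm := 3927 / 12500) (θ := 87 / 800)
    (by norm_num) (by norm_num) (by norm_num)
    (exp_bds (by norm_num) (by norm_num) (by norm_num [Finset.sum_range_succ, Nat.factorial])
      (by norm_num [Finset.sum_range_succ, Nat.factorial]))
    (by norm_num) (by norm_num) (by norm_num) (by norm_num) (by norm_num) (by norm_num) (by norm_num) (by norm_num)
    (by norm_num) (by norm_num) (by norm_num) (by norm_num) hκ h0 hm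

private theorem e4_2_3 {κ τ : ℝ} (hκ : 3 / 2 ≤ κ) (h0 : 0 ≤ τ) (hm : τ ≤ 11781 / 25000) : 89 / 100 ≤ lv κ τ :=
  lv_ge_num (κ₀ := 3 / 2) (y := 4161 / 20000) (Fl := 615637 / 500000) (Fh := 49251 / 40000) (xl := 24007 / 20000) (xh := 30009 / 25000) (τm := 11781 / 25000) (θ := 17161 / 100000)
    (by norm_num) (by norm_num) (by norm_num)
    (exp_bds (by norm_num) (by norm_num) (by norm_num [Finset.sum_range_succ, Nat.factorial])
      (by norm_num [Finset.sum_range_succ, Nat.factorial]))
    (by norm_num) (by norm_num) (by norm_num) (by norm_num) (by norm_num) (by norm_num) (by norm_num) (by norm_num)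
    (by norm_num) (by norm_num) (by norm_num) (by norm_num) hκ h0 hm

private theorem e4_2_4 {κ τ : ℝ} (hκ : 3 / 2 ≤ κ) (h0 : 0 ≤ τ) (hm : τ ≤ 3927 / 6250) : 21 / 25 ≤ lv κ τ :=
  lv_ge_num (κ₀ := 3 / 2) (y := 339 / 1250) (Fl := 1311537 / 1000000) (Fh := 655769 / 500000) (xl := 111107 / 100000) (xh := 27777 / 25000) (τm := 3927 / 6250) (θ := 1197 / 5000)
    (by norm_num) (by norm_num) (by norm_num)
    (exp_bds (by norm_num) (by norm_num) (by norm_num [Finset.sum_range_succ, Nat.factorial])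
      (by norm_num [Finset.sum_range_succ, Nat.factorial]))
    (by norm_num) (by norm_num) (by norm_num) (by norm_num) (by norm_num) (by norm_num) (by norm_num) (by norm_num)
    (by norm_num) (by norm_num) (by norm_num) (by norm_num) hκ h0 hm

private theorem e4_2_5 {κ τ : ℝ} (hκ : 3 / 2 ≤ κ) (h0 : 0 ≤ τ) (hm : τ ≤ 3927 / 5000) : 157 / 200 ≤ lv κ τ :=
  lv_ge_num (κ₀ := 3 / 2) (y := 33039 / 100000) (Fl := 139151 / 100000) (Fh := 1391511 / 1000000) (xl := 6413 / 6250) (xh := 102609 / 100000) (τm := 3927 / 5000) (θ := 623 / 2000)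
    (by norm_num) (by norm_num) (by norm_num)
    (exp_bds (by norm_num) (by norm_num) (by norm_num [Finset.sum_range_succ, Nat.factorial])
      (by norm_num [Finset.sum_range_succ, Nat.factorial]))
    (by norm_num) (by norm_num) (by norm_num) (by norm_num) (by norm_num) (by norm_num) (by norm_num) (by norm_num)
    (by norm_num) (by norm_num) (by norm_num) (by norm_num) hκ h0 hm

private theorem e4_2_6 {κ τ : ℝ} (hκ : 3 / 2 ≤ κ) (h0 : 0 ≤ τ) (hm : τ ≤ 11781 / 12500) : 29 / 40 ≤ lv κ τ :=
  lv_ge_num (κ₀ := 3 / 2) (y := 19267 / 50000) (Fl := 735057 / 500000) (Fh := 294023 / 200000) (xl := 23619 / 25000) (xh := 94477 / 100000) (τm := 11781 / 12500) (θ := 19363 / 50000)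
    (by norm_num) (by norm_num) (by norm_num)
    (exp_bds (by norm_num) (by norm_num) (by norm_num [Finset.sum_range_succ, Nat.factorial])
      (by norm_num [Finset.sum_range_succ, Nat.factorial]))
    (by norm_num) (by norm_num) (by norm_num) (by norm_num) (by norm_num) (by norm_num) (by norm_num) (by norm_num)
    (by norm_num) (by norm_num) (by norm_num) (by norm_num) hκ h0 hm

private theorem e4_2_7 {κ τ : ℝ} (hκ : 3 / 2 ≤ κ) (h0 : 0 ≤ τ) (hm : τ ≤ 27489 / 25000) : 133 / 200 ≤ lv κ τ :=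
  lv_ge_num (κ₀ := 3 / 2) (y := 43593 / 100000) (Fl := 1933 / 1250) (Fh := 1546401 / 1000000) (xl := 86651 / 100000) (xh := 21663 / 25000) (τm := 27489 / 25000) (θ := 4661 / 10000)
    (by norm_num) (by norm_num) (by norm_num)
    (exp_bds (by norm_num) (by norm_num) (by norm_num [Finset.sum_range_succ, Nat.factorial])
      (by norm_num [Finset.sum_range_succ, Nat.factorial]))
    (by norm_num) (by norm_num) (by norm_num) (by norm_num) (by norm_num) (by norm_num) (by norm_num) (by norm_num)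
    (by norm_num) (by norm_num) (by norm_num) (by norm_num) hκ h0 hm

private theorem e4_2_8 {κ τ : ℝ} (hκ : 3 / 2 ≤ κ) (h0 : 0 ≤ τ) (hm : τ ≤ 3927 / 3125) : 121 / 200 ≤ lv κ τ :=
  lv_ge_num (κ₀ := 3 / 2) (y := 48213 / 100000) (Fl := 5061 / 3125) (Fh := 1619521 / 1000000) (xl := 39541 / 50000) (xh := 79083 / 100000) (τm := 3927 / 3125) (θ := 13687 / 25000)
    (by norm_num) (by norm_num) (by norm_num)
    (exp_bds (by norm_num) (by norm_num) (by norm_num [Finset.sum_range_succ, Nat.factorial])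
      (by norm_num [Finset.sum_range_succ, Nat.factorial]))
    (by norm_num) (by norm_num) (by norm_num) (by norm_num) (by norm_num) (by norm_num) (by norm_num) (by norm_num)
    (by norm_num) (by norm_num) (by norm_num) (by norm_num) hκ h0 hm

/-- class 4_2: `b = 4`, `κ ≥ 3 / 2` -/
theorem ld4_2 {κ h : ℝ} (hκ : 3 / 2 ≤ κ) (h0 : 0 < h) (hh : h ≤ 2 * π / 4) :
    LineData κ h (4 / 5) (1283 / 2000) (469 / 2000) (581 / 1000) (189 / 1000) (-14 / 25) (-17 / 40) (1499 / 10000) (167 / 200) := by
  have hk1 : 1 ≤ κ := by linarith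
  have hp4 := Real.pi_lt_d4
  have hp3 := Real.pi_gt_d2
  have hhq : h ≤ 3927 / 2500 := by
    refine hh.trans ?_
    rw [div_le_iff₀ (by norm_num)]
    linarith
  have L1 : Line κ h (1 / 10) (97 / 1000) (97 / 20000) := Line.stepN (l := 97 / 100) (τm := 3927 / 25000) hk1 h0.le (Line.zero hk1) (by norm_num) (by norm_num)
    (fun τ a b => e4_2_1 hκ a b) (by linarith) (by linarith) (by norm_num) (by norm_num)
  have L2 : Line κ h (1 / 5) (381 / 2000) (151 / 8000) := Line.stepN (l := 187 / 200) (τm := 3927 / 12500) hk1 h0.le L1 (by norm_num) (by norm_num)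
    (fun τ a b => e4_2_2 hκ a b) (by linarith) (by linarith) (by norm_num) (by norm_num)
  have L3 : Line κ h (3 / 10) (559 / 2000) (329 / 8000) := Line.stepN (l := 89 / 100) (τm := 11781 / 25000) hk1 h0.le L2 (by norm_num) (by norm_num)
    (fun τ a b => e4_2_3 hκ a b) (by linarith) (by linarith) (by norm_num) (by norm_num)
  have L4 : Line κ h (2 / 5) (727 / 2000) (2821 / 40000) := Line.stepN (l := 21 / 25) (τm := 3927 / 6250) hk1 h0.le L3 (by norm_num) (by norm_num)
    (fun τ a b => e4_2_4 hκ a b) (by linarith) (by linarith) (by norm_num) (by norm_num)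
  have L5 : Line κ h (1 / 2) (221 / 500) (2117 / 20000) := Line.stepN (l := 157 / 200) (τm := 3927 / 5000) hk1 h0.le L4 (by norm_num) (by norm_num)
    (fun τ a b => e4_2_5 hκ a b) (by linarith) (by linarith) (by norm_num) (by norm_num)
  have L6 : Line κ h (3 / 5) (1029 / 2000) (5829 / 40000) := Line.stepN (l := 29 / 40) (τm := 11781 / 12500) hk1 h0.le L5 (by norm_num) (by norm_num)
    (fun τ a b => e4_2_6 hκ a b) (by linarith) (by linarith) (by norm_num) (by norm_num)
  have L7 : Line κ h (7 / 10) (581 / 1000) (3779 / 20000) := Line.stepN (l := 133 / 200) (τm := 27489 / 25000) hk1 h0.le L6 (by norm_num) (by norm_num)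
    (fun τ a b => e4_2_7 hκ a b) (by linarith) (by linarith) (by norm_num) (by norm_num)
  have L8 : Line κ h (4 / 5) (1283 / 2000) (9373 / 40000) := Line.stepN (l := 121 / 200) (τm := 3927 / 3125) hk1 h0.le L7 (by norm_num) (by norm_num)
    (fun τ a b => e4_2_8 hκ a b) (by linarith) (by linarith) (by norm_num) (by norm_num)
  have m1 : ∀ z ∈ Icc (-14 / 25 : ℝ) (-1 / 2), 167 / 200 ≤ yv κ ((z + 1) * h) / h - yv κ (z * h) / h :=
    mu_piece (a := 2 / 5) (S := 727 / 2000) (C := 2821 / 40000) (l := 157 / 200) (τm := 3927 / 5000) (H₁ := 1309 / 1250) (mp := 440687 / 1000000) (mq := 25131 / 62500) hk1 h0 (by linarith)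
      L4 (by norm_num) (by norm_num) (by norm_num) (fun τ a b => e4_2_5 hκ a b) (by linarith) (by linarith)
      (exp_le_bd (by norm_num) (by norm_num) (by norm_num [Finset.sum_range_succ, Nat.factorial])) (exp_le_bd (by norm_num) (by norm_num) (by norm_num [Finset.sum_range_succ, Nat.factorial]))
      (by norm_num) (by norm_num)
  have m2 : ∀ z ∈ Icc (-1 / 2 : ℝ) (-17 / 40), 167 / 200 ≤ yv κ ((z + 1) * h) / h - yv κ (z * h) / h :=
    mu_piece (a := 1 / 2) (S := 221 / 500) (C := 2117 / 20000) (l := 29 / 40) (τm := 11781 / 12500) (H₁ := 1309 / 1250) (mp := 25131 / 62500) (mq := 351557 / 1000000) hk1 h0 (by linarith)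
      L5 (by norm_num) (by norm_num) (by norm_num) (fun τ a b => e4_2_6 hκ a b) (by linarith) (by linarith)
      (exp_le_bd (by norm_num) (by norm_num) (by norm_num [Finset.sum_range_succ, Nat.factorial])) (exp_le_bd (by norm_num) (by norm_num) (by norm_num [Finset.sum_range_succ, Nat.factorial]))
      (by norm_num) (by norm_num)
  exact ⟨L8.weaken h0.le (by norm_num) (by norm_num), L7.weaken h0.le (by norm_num) (by norm_num),
    Line.f1R (τm := 90321 / 100000) hk1 h0 L6 (by norm_num) (by linarith) (by linarith) (by norm_num), mu_glue m1 m2⟩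

/-- class 4_2: line at `1 + qL`, curvature up to `1 + qR` -/
theorem lr4_2 {κ h : ℝ} (hκ : 3 / 2 ≤ κ) (h0 : 0 < h) (hh : h ≤ 2 * π / 4) :
    Line κ h (1 + (-14 / 25)) (3949 / 10000) (83713 / 1000000) ∧ (∀ τ, 0 ≤ τ → τ ≤ 11781 / 12500 → 29 / 40 ≤ lv κ τ) ∧ (1 + (-17 / 40)) * h ≤ (11781 / 12500) ∧ (11781 / 12500) < κ + π / 2 := by
  have hk1 : 1 ≤ κ := by linarith
  have hp4 := Real.pi_lt_d4
  have hp3 := Real.pi_gt_d2
  have hhq : h ≤ 3927 / 2500 := by
    refine hh.trans ?_
    rw [div_le_iff₀ (by norm_num)]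
    linarith
  have L1 : Line κ h (1 / 10) (97 / 1000) (97 / 20000) := Line.stepN (l := 97 / 100) (τm := 3927 / 25000) hk1 h0.le (Line.zero hk1) (by norm_num) (by norm_num)
    (fun τ a b => e4_2_1 hκ a b) (by linarith) (by linarith) (by norm_num) (by norm_num)
  have L2 : Line κ h (1 / 5) (381 / 2000) (151 / 8000) := Line.stepN (l := 187 / 200) (τm := 3927 / 12500) hk1 h0.le L1 (by norm_num) (by norm_num)
    (fun τ a b => e4_2_2 hκ a b) (by linarith) (by linarith) (by norm_num) (by norm_num)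
  have L3 : Line κ h (3 / 10) (559 / 2000) (329 / 8000) := Line.stepN (l := 89 / 100) (τm := 11781 / 25000) hk1 h0.le L2 (by norm_num) (by norm_num)
    (fun τ a b => e4_2_3 hκ a b) (by linarith) (by linarith) (by norm_num) (by norm_num)
  have L4 : Line κ h (2 / 5) (727 / 2000) (2821 / 40000) := Line.stepN (l := 21 / 25) (τm := 3927 / 6250) hk1 h0.le L3 (by norm_num) (by norm_num)
    (fun τ a b => e4_2_4 hκ a b) (by linarith) (by linarith) (by norm_num) (by norm_num)
  exact ⟨Line.stepN (l := 157 / 200) (τm := 3927 / 5000) hk1 h0.le L4 (by norm_num) (by norm_num)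
    (fun τ a b => e4_2_5 hκ a b) (by linarith) (by linarith) (by norm_num) (by norm_num), fun τ a b => e4_2_6 hκ a b,
    by linarith, by linarith⟩

private theorem e4_3_1 {κ τ : ℝ} (hκ : 8 / 5 ≤ κ) (h0 : 0 ≤ τ) (hm : τ ≤ 3927 / 25000) : 49 / 50 ≤ lv κ τ :=
  lv_ge_num (κ₀ := 8 / 5) (y := 1403 / 20000) (Fl := 1072669 / 1000000) (Fh := 107267 / 100000) (xl := 29799 / 20000) (xh := 37249 / 25000) (τm := 3927 / 25000) (θ := 147 / 3125)
    (by norm_num) (by norm_num) (by norm_num)
    (exp_bds (by norm_num) (by norm_num) (by norm_num [Finset.sum_range_succ, Nat.factorial])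
      (by norm_num [Finset.sum_range_succ, Nat.factorial]))
    (by norm_num) (by norm_num) (by norm_num) (by norm_num) (by norm_num) (by norm_num) (by norm_num) (by norm_num)
    (by norm_num) (by norm_num) (by norm_num) (by norm_num) hκ h0 hm

private theorem e4_3_2 {κ τ : ℝ} (hκ : 8 / 5 ≤ κ) (h0 : 0 ≤ τ) (hm : τ ≤ 3927 / 12500) : 191 / 200 ≤ lv κ τ :=
  lv_ge_num (κ₀ := 8 / 5) (y := 6941 / 50000) (Fl := 1148917 / 1000000) (Fh := 574459 / 500000) (xl := 138567 / 100000) (xh := 17321 / 12500) (τm := 3927 / 12500) (θ := 312 / 3125)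
    (by norm_num) (by norm_num) (by norm_num)
    (exp_bds (by norm_num) (by norm_num) (by norm_num [Finset.sum_range_succ, Nat.factorial])
      (by norm_num [Finset.sum_range_succ, Nat.factorial]))
    (by norm_num) (by norm_num) (by norm_num) (by norm_num) (by norm_num) (by norm_num) (by norm_num) (by norm_num)
    (by norm_num) (by norm_num) (by norm_num) (by norm_num) hκ h0 hm

private theorem e4_3_3 {κ τ : ℝ} (hκ : 8 / 5 ≤ κ) (h0 : 0 ≤ τ) (hm : τ ≤ 11781 / 25000) : 183 / 200 ≤ lv κ τ :=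
  lv_ge_num (κ₀ := 8 / 5) (y := 10261 / 50000) (Fl := 245559 / 200000) (Fh := 306949 / 250000) (xl := 8043 / 6250) (xh := 128689 / 100000) (τm := 11781 / 25000) (θ := 15813 / 100000)
    (by norm_num) (by norm_num) (by norm_num)
    (exp_bds (by norm_num) (by norm_num) (by norm_num [Finset.sum_range_succ, Nat.factorial])
      (by norm_num [Finset.sum_range_succ, Nat.factorial]))
    (by norm_num) (by norm_num) (by norm_num) (by norm_num) (by norm_num) (by norm_num) (by norm_num) (by norm_num)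
    (by norm_num) (by norm_num) (by norm_num) (by norm_num) hκ h0 hm

private theorem e4_3_4 {κ τ : ℝ} (hκ : 8 / 5 ≤ κ) (h0 : 0 ≤ τ) (hm : τ ≤ 3927 / 6250) : 87 / 100 ≤ lv κ τ :=
  lv_ge_num (κ₀ := 8 / 5) (y := 26867 / 100000) (Fl := 1308223 / 1000000) (Fh := 20441 / 15625) (xl := 23863 / 20000) (xh := 29829 / 25000) (τm := 3927 / 6250) (θ := 5537 / 25000)
    (by norm_num) (by norm_num) (by norm_num)
    (exp_bds (by norm_num) (by norm_num) (by norm_num [Finset.sum_range_succ, Nat.factorial])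
      (by norm_num [Finset.sum_range_succ, Nat.factorial]))
    (by norm_num) (by norm_num) (by norm_num) (by norm_num) (by norm_num) (by norm_num) (by norm_num) (by norm_num)
    (by norm_num) (by norm_num) (by norm_num) (by norm_num) hκ h0 hm

private theorem e4_3_5 {κ τ : ℝ} (hκ : 8 / 5 ≤ κ) (h0 : 0 ≤ τ) (hm : τ ≤ 3927 / 5000) : 41 / 50 ≤ lv κ τ :=
  lv_ge_num (κ₀ := 8 / 5) (y := 16433 / 50000) (Fl := 277821 / 200000) (Fh := 694553 / 500000) (xl := 110393 / 100000) (xh := 55197 / 50000) (τm := 3927 / 5000) (θ := 5787 / 20000)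
    (by norm_num) (by norm_num) (by norm_num)
    (exp_bds (by norm_num) (by norm_num) (by norm_num [Finset.sum_range_succ, Nat.factorial])
      (by norm_num [Finset.sum_range_succ, Nat.factorial]))
    (by norm_num) (by norm_num) (by norm_num) (by norm_num) (by norm_num) (by norm_num) (by norm_num) (by norm_num)
    (by norm_num) (by norm_num) (by norm_num) (by norm_num) hκ h0 hm

private theorem e4_3_6 {κ τ : ℝ} (hκ : 8 / 5 ≤ κ) (h0 : 0 ≤ τ) (hm : τ ≤ 11781 / 12500) : 19 / 25 ≤ lv κ τ :=
  lv_ge_num (κ₀ := 8 / 5) (y := 38481 / 100000) (Fl := 293867 / 200000) (Fh := 183667 / 125000) (xl := 50933 / 50000) (xh := 101867 / 100000) (τm := 11781 / 12500) (θ := 18059 / 50000)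
    (by norm_num) (by norm_num) (by norm_num)
    (exp_bds (by norm_num) (by norm_num) (by norm_num [Finset.sum_range_succ, Nat.factorial])
      (by norm_num [Finset.sum_range_succ, Nat.factorial]))
    (by norm_num) (by norm_num) (by norm_num) (by norm_num) (by norm_num) (by norm_num) (by norm_num) (by norm_num)
    (by norm_num) (by norm_num) (by norm_num) (by norm_num) hκ h0 hm

private theorem e4_3_7 {κ τ : ℝ} (hκ : 8 / 5 ≤ κ) (h0 : 0 ≤ τ) (hm : τ ≤ 27489 / 25000) : 141 / 200 ≤ lv κ τ :=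
  lv_ge_num (κ₀ := 8 / 5) (y := 43689 / 100000) (Fl := 309577 / 200000) (Fh := 773943 / 500000) (xl := 1171 / 1250) (xh := 93681 / 100000) (τm := 27489 / 25000) (θ := 43637 / 100000)
    (by norm_num) (by norm_num) (by norm_num)
    (exp_bds (by norm_num) (by norm_num) (by norm_num [Finset.sum_range_succ, Nat.factorial])
      (by norm_num [Finset.sum_range_succ, Nat.factorial]))
    (by norm_num) (by norm_num) (by norm_num) (by norm_num) (by norm_num) (by norm_num) (by norm_num) (by norm_num)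
    (by norm_num) (by norm_num) (by norm_num) (by norm_num) hκ h0 hm

private theorem e4_3_8 {κ τ : ℝ} (hκ : 8 / 5 ≤ κ) (h0 : 0 ≤ τ) (hm : τ ≤ 3927 / 3125) : 129 / 200 ≤ lv κ τ :=
  lv_ge_num (κ₀ := 8 / 5) (y := 48481 / 100000) (Fl := 811933 / 500000) (Fh := 1623867 / 1000000) (xl := 85777 / 100000) (xh := 42889 / 50000) (τm := 3927 / 3125) (θ := 51443 / 100000)
    (by norm_num) (by norm_num) (by norm_num)
    (exp_bds (by norm_num) (by norm_num) (by norm_num [Finset.sum_range_succ, Nat.factorial])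
      (by norm_num [Finset.sum_range_succ, Nat.factorial]))
    (by norm_num) (by norm_num) (by norm_num) (by norm_num) (by norm_num) (by norm_num) (by norm_num) (by norm_num)
    (by norm_num) (by norm_num) (by norm_num) (by norm_num) hκ h0 hm

private theorem e4_3_9 {κ τ : ℝ} (hκ : 8 / 5 ≤ κ) (h0 : 0 ≤ τ) (hm : τ ≤ 35343 / 25000) : 117 / 200 ≤ lv κ τ :=
  lv_ge_num (κ₀ := 8 / 5) (y := 26427 / 50000) (Fl := 1696453 / 1000000) (Fh := 848227 / 500000) (xl := 78113 / 100000) (xh := 39057 / 50000) (τm := 35343 / 25000) (θ := 29743 / 50000)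
    (by norm_num) (by norm_num) (by norm_num)
    (exp_bds (by norm_num) (by norm_num) (by norm_num [Finset.sum_range_succ, Nat.factorial])
      (by norm_num [Finset.sum_range_succ, Nat.factorial]))
    (by norm_num) (by norm_num) (by norm_num) (by norm_num) (by norm_num) (by norm_num) (by norm_num) (by norm_num)
    (by norm_num) (by norm_num) (by norm_num) (by norm_num) hκ h0 hm

/-- class 4_3: `b = 4`, `κ ≥ 8 / 5` -/
theorem ld4_3 {κ h : ℝ} (hκ : 8 / 5 ≤ κ) (h0 : 0 < h) (hh : h ≤ 2 * π / 4) :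
    LineData κ h (9 / 10) (1447 / 2000) (591 / 2000) (1201 / 2000) (79 / 400) (-113 / 200) (-83 / 200) (793 / 5000) (17 / 20) := by
  have hk1 : 1 ≤ κ := by linarith
  have hp4 := Real.pi_lt_d4
  have hp3 := Real.pi_gt_d2
  have hhq : h ≤ 3927 / 2500 := by
    refine hh.trans ?_
    rw [div_le_iff₀ (by norm_num)]
    linarith
  have L1 : Line κ h (1 / 10) (49 / 500) (49 / 10000) := Line.stepN (l := 49 / 50) (τm := 3927 / 25000) hk1 h0.le (Line.zero hk1) (by norm_num) (by norm_num)
    (fun τ a b => e4_3_1 hκ a b) (by linarith) (by linarith) (by norm_num) (by norm_num)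
  have L2 : Line κ h (1 / 5) (387 / 2000) (769 / 40000) := Line.stepN (l := 191 / 200) (τm := 3927 / 12500) hk1 h0.le L1 (by norm_num) (by norm_num)
    (fun τ a b => e4_3_2 hκ a b) (by linarith) (by linarith) (by norm_num) (by norm_num)
  have L3 : Line κ h (3 / 10) (57 / 200) (421 / 10000) := Line.stepN (l := 183 / 200) (τm := 11781 / 25000) hk1 h0.le L2 (by norm_num) (by norm_num)
    (fun τ a b => e4_3_3 hκ a b) (by linarith) (by linarith) (by norm_num) (by norm_num)
  have L4 : Line κ h (2 / 5) (93 / 250) (1451 / 20000) := Line.stepN (l := 87 / 100) (τm := 3927 / 6250) hk1 h0.le L3 (by norm_num) (by norm_num)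
    (fun τ a b => e4_3_4 hκ a b) (by linarith) (by linarith) (by norm_num) (by norm_num)
  have L5 : Line κ h (1 / 2) (227 / 500) (2189 / 20000) := Line.stepN (l := 41 / 50) (τm := 3927 / 5000) hk1 h0.le L4 (by norm_num) (by norm_num)
    (fun τ a b => e4_3_5 hκ a b) (by linarith) (by linarith) (by norm_num) (by norm_num)
  have L6 : Line κ h (3 / 5) (53 / 100) (121 / 800) := Line.stepN (l := 19 / 25) (τm := 11781 / 12500) hk1 h0.le L5 (by norm_num) (by norm_num)
    (fun τ a b => e4_3_6 hκ a b) (by linarith) (by linarith) (by norm_num) (by norm_num)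
  have L7 : Line κ h (7 / 10) (1201 / 2000) (7883 / 40000) := Line.stepN (l := 141 / 200) (τm := 27489 / 25000) hk1 h0.le L6 (by norm_num) (by norm_num)
    (fun τ a b => e4_3_7 hκ a b) (by linarith) (by linarith) (by norm_num) (by norm_num)
  have L8 : Line κ h (4 / 5) (133 / 200) (4909 / 20000) := Line.stepN (l := 129 / 200) (τm := 3927 / 3125) hk1 h0.le L7 (by norm_num) (by norm_num)
    (fun τ a b => e4_3_8 hκ a b) (by linarith) (by linarith) (by norm_num) (by norm_num)
  have L9 : Line κ h (9 / 10) (1447 / 2000) (11807 / 40000) := Line.stepN (l := 117 / 200) (τm := 35343 / 25000) hk1 h0.le L8 (by norm_num) (by norm_num)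
    (fun τ a b => e4_3_9 hκ a b) (by linarith) (by linarith) (by norm_num) (by norm_num)
  have m1 : ∀ z ∈ Icc (-113 / 200 : ℝ) (-1 / 2), 17 / 20 ≤ yv κ ((z + 1) * h) / h - yv κ (z * h) / h :=
    mu_piece (a := 2 / 5) (S := 93 / 250) (C := 1451 / 20000) (l := 41 / 50) (τm := 3927 / 5000) (H₁ := 3927 / 4000) (mp := 224739 / 500000) (mq := 406787 / 1000000) hk1 h0 (by linarith)
      L4 (by norm_num) (by norm_num) (by norm_num) (fun τ a b => e4_3_5 hκ a b) (by linarith) (by linarith)
      (exp_le_bd (by norm_num) (by norm_num) (by norm_num [Finset.sum_range_succ, Nat.factorial])) (exp_le_bd (by norm_num) (by norm_num) (by norm_num [Finset.sum_range_succ, Nat.factorial]))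
      (by norm_num) (by norm_num)
  have m2 : ∀ z ∈ Icc (-1 / 2 : ℝ) (-83 / 200), 17 / 20 ≤ yv κ ((z + 1) * h) / h - yv κ (z * h) / h :=
    mu_piece (a := 1 / 2) (S := 227 / 500) (C := 2189 / 20000) (l := 19 / 25) (τm := 11781 / 12500) (H₁ := 3927 / 4000) (mp := 406787 / 1000000) (mq := 69623 / 200000) hk1 h0 (by linarith)
      L5 (by norm_num) (by norm_num) (by norm_num) (fun τ a b => e4_3_6 hκ a b) (by linarith) (by linarith)
      (exp_le_bd (by norm_num) (by norm_num) (by norm_num [Finset.sum_range_succ, Nat.factorial])) (exp_le_bd (by norm_num) (by norm_num) (by norm_num [Finset.sum_range_succ, Nat.factorial]))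
      (by norm_num) (by norm_num)
  exact ⟨L9.weaken h0.le (by norm_num) (by norm_num), L7.weaken h0.le (by norm_num) (by norm_num),
    Line.f1R (τm := 22973 / 25000) hk1 h0 L6 (by norm_num) (by linarith) (by linarith) (by norm_num), mu_glue m1 m2⟩

/-- class 4_3: line at `1 + qL`, curvature up to `1 + qR` -/
theorem lr4_3 {κ h : ℝ} (hκ : 8 / 5 ≤ κ) (h0 : 0 < h) (hh : h ≤ 2 * π / 4) :
    Line κ h (1 + (-113 / 200)) (4007 / 10000) (338129 / 4000000) ∧ (∀ τ, 0 ≤ τ → τ ≤ 11781 / 12500 → 19 / 25 ≤ lv κ τ) ∧ (1 + (-83 / 200)) * h ≤ (11781 / 12500) ∧ (11781 / 12500) < κ + π / 2 := by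
  have hk1 : 1 ≤ κ := by linarith
  have hp4 := Real.pi_lt_d4
  have hp3 := Real.pi_gt_d2
  have hhq : h ≤ 3927 / 2500 := by
    refine hh.trans ?_
    rw [div_le_iff₀ (by norm_num)]
    linarith
  have L1 : Line κ h (1 / 10) (49 / 500) (49 / 10000) := Line.stepN (l := 49 / 50) (τm := 3927 / 25000) hk1 h0.le (Line.zero hk1) (by norm_num) (by norm_num)
    (fun τ a b => e4_3_1 hκ a b) (by linarith) (by linarith) (by norm_num) (by norm_num)
  have L2 : Line κ h (1 / 5) (387 / 2000) (769 / 40000) := Line.stepN (l := 191 / 200) (τm := 3927 / 12500) hk1 h0.le L1 (by norm_num) (by norm_num)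
    (fun τ a b => e4_3_2 hκ a b) (by linarith) (by linarith) (by norm_num) (by norm_num)
  have L3 : Line κ h (3 / 10) (57 / 200) (421 / 10000) := Line.stepN (l := 183 / 200) (τm := 11781 / 25000) hk1 h0.le L2 (by norm_num) (by norm_num)
    (fun τ a b => e4_3_3 hκ a b) (by linarith) (by linarith) (by norm_num) (by norm_num)
  have L4 : Line κ h (2 / 5) (93 / 250) (1451 / 20000) := Line.stepN (l := 87 / 100) (τm := 3927 / 6250) hk1 h0.le L3 (by norm_num) (by norm_num)
    (fun τ a b => e4_3_4 hκ a b) (by linarith) (by linarith) (by norm_num) (by norm_num)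
  exact ⟨Line.stepN (l := 41 / 50) (τm := 3927 / 5000) hk1 h0.le L4 (by norm_num) (by norm_num)
    (fun τ a b => e4_3_5 hκ a b) (by linarith) (by linarith) (by norm_num) (by norm_num), fun τ a b => e4_3_6 hκ a b,
    by linarith, by linarith⟩

private theorem e4_4_1 {κ τ : ℝ} (hκ : 433 / 250 ≤ κ) (h0 : 0 ≤ τ) (hm : τ ≤ 3927 / 25000) : 99 / 100 ≤ lv κ τ :=
  lv_ge_num (κ₀ := 433 / 250) (y := 679 / 10000) (Fl := 535129 / 500000) (Fh := 1070259 / 1000000) (xl := 161687 / 100000) (xh := 20211 / 12500) (τm := 3927 / 25000) (θ := 1049 / 25000)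
    (by norm_num) (by norm_num) (by norm_num)
    (exp_bds (by norm_num) (by norm_num) (by norm_num [Finset.sum_range_succ, Nat.factorial])
      (by norm_num [Finset.sum_range_succ, Nat.factorial]))
    (by norm_num) (by norm_num) (by norm_num) (by norm_num) (by norm_num) (by norm_num) (by norm_num) (by norm_num)
    (by norm_num) (by norm_num) (by norm_num) (by norm_num) hκ h0 hm

private theorem e4_4_2 {κ τ : ℝ} (hκ : 433 / 250 ≤ κ) (h0 : 0 ≤ τ) (hm : τ ≤ 3927 / 12500) : 39 / 40 ≤ lv κ τ :=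
  lv_ge_num (κ₀ := 433 / 250) (y := 422 / 3125) (Fl := 572291 / 500000) (Fh := 1144583 / 1000000) (xl := 150717 / 100000) (xh := 75359 / 50000) (τm := 3927 / 12500) (θ := 1787 / 20000)
    (by norm_num) (by norm_num) (by norm_num)
    (exp_bds (by norm_num) (by norm_num) (by norm_num [Finset.sum_range_succ, Nat.factorial])
      (by norm_num [Finset.sum_range_succ, Nat.factorial]))
    (by norm_num) (by norm_num) (by norm_num) (by norm_num) (by norm_num) (by norm_num) (by norm_num) (by norm_num)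
    (by norm_num) (by norm_num) (by norm_num) (by norm_num) hκ h0 hm

private theorem e4_4_3 {κ τ : ℝ} (hκ : 433 / 250 ≤ κ) (h0 : 0 ≤ τ) (hm : τ ≤ 11781 / 25000) : 189 / 200 ≤ lv κ τ :=
  lv_ge_num (κ₀ := 433 / 250) (y := 10033 / 50000) (Fl := 1222209 / 1000000) (Fh := 122221 / 100000) (xl := 70141 / 50000) (xh := 140283 / 100000) (τm := 11781 / 25000) (θ := 14207 / 100000)
    (by norm_num) (by norm_num) (by norm_num)
    (exp_bds (by norm_num) (by norm_num) (by norm_num [Finset.sum_range_succ, Nat.factorial])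
      (by norm_num [Finset.sum_range_succ, Nat.factorial]))
    (by norm_num) (by norm_num) (by norm_num) (by norm_num) (by norm_num) (by norm_num) (by norm_num) (by norm_num)
    (by norm_num) (by norm_num) (by norm_num) (by norm_num) hκ h0 hm

private theorem e4_4_4 {κ τ : ℝ} (hκ : 433 / 250 ≤ κ) (h0 : 0 ≤ τ) (hm : τ ≤ 3927 / 6250) : 91 / 100 ≤ lv κ τ :=
  lv_ge_num (κ₀ := 433 / 250) (y := 3301 / 12500) (Fl := 162779 / 125000) (Fh := 1302233 / 1000000) (xl := 65177 / 50000) (xh := 26071 / 20000) (τm := 3927 / 6250) (θ := 19987 / 100000)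
    (by norm_num) (by norm_num) (by norm_num)
    (exp_bds (by norm_num) (by norm_num) (by norm_num [Finset.sum_range_succ, Nat.factorial])
      (by norm_num [Finset.sum_range_succ, Nat.factorial]))
    (by norm_num) (by norm_num) (by norm_num) (by norm_num) (by norm_num) (by norm_num) (by norm_num) (by norm_num)
    (by norm_num) (by norm_num) (by norm_num) (by norm_num) hκ h0 hm

private theorem e4_4_5 {κ τ : ℝ} (hκ : 433 / 250 ≤ κ) (h0 : 0 ≤ τ) (hm : τ ≤ 3927 / 5000) : 173 / 200 ≤ lv κ τ :=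
  lv_ge_num (κ₀ := 433 / 250) (y := 32469 / 100000) (Fl := 1383601 / 1000000) (Fh := 691801 / 500000) (xl := 3778 / 3125) (xh := 120897 / 100000) (τm := 3927 / 5000) (θ := 26237 / 100000)
    (by norm_num) (by norm_num) (by norm_num)
    (exp_bds (by norm_num) (by norm_num) (by norm_num [Finset.sum_range_succ, Nat.factorial])
      (by norm_num [Finset.sum_range_succ, Nat.factorial]))
    (by norm_num) (by norm_num) (by norm_num) (by norm_num) (by norm_num) (by norm_num) (by norm_num) (by norm_num)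
    (by norm_num) (by norm_num) (by norm_num) (by norm_num) hκ h0 hm

private theorem e4_4_6 {κ τ : ℝ} (hκ : 433 / 250 ≤ κ) (h0 : 0 ≤ τ) (hm : τ ≤ 11781 / 12500) : 163 / 200 ≤ lv κ τ :=
  lv_ge_num (κ₀ := 433 / 250) (y := 38203 / 100000) (Fl := 183157 / 125000) (Fh := 1465257 / 1000000) (xl := 5593 / 5000) (xh := 111861 / 100000) (τm := 11781 / 12500) (θ := 3291 / 10000)
    (by norm_num) (by norm_num) (by norm_num)
    (exp_bds (by norm_num) (by norm_num) (by norm_num [Finset.sum_range_succ, Nat.factorial])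
      (by norm_num [Finset.sum_range_succ, Nat.factorial]))
    (by norm_num) (by norm_num) (by norm_num) (by norm_num) (by norm_num) (by norm_num) (by norm_num) (by norm_num)
    (by norm_num) (by norm_num) (by norm_num) (by norm_num) hκ h0 hm

private theorem e4_4_7 {κ τ : ℝ} (hκ : 433 / 250 ≤ κ) (h0 : 0 ≤ τ) (hm : τ ≤ 27489 / 25000) : 19 / 25 ≤ lv κ τ :=
  lv_ge_num (κ₀ := 433 / 250) (y := 43577 / 100000) (Fl := 1546153 / 1000000) (Fh := 773077 / 500000) (xl := 25799 / 25000) (xh := 103197 / 100000) (τm := 27489 / 25000) (θ := 7991 / 20000)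
    (by norm_num) (by norm_num) (by norm_num)
    (exp_bds (by norm_num) (by norm_num) (by norm_num [Finset.sum_range_succ, Nat.factorial])
      (by norm_num [Finset.sum_range_succ, Nat.factorial]))
    (by norm_num) (by norm_num) (by norm_num) (by norm_num) (by norm_num) (by norm_num) (by norm_num) (by norm_num)
    (by norm_num) (by norm_num) (by norm_num) (by norm_num) hκ h0 hm

private theorem e4_4_8 {κ τ : ℝ} (hκ : 433 / 250 ≤ κ) (h0 : 0 ≤ τ) (hm : τ ≤ 3927 / 3125) : 7 / 10 ≤ lv κ τ :=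
  lv_ge_num (κ₀ := 433 / 250) (y := 6071 / 12500) (Fl := 1625279 / 1000000) (Fh := 5079 / 3125) (xl := 18971 / 20000) (xh := 11857 / 12500) (τm := 3927 / 3125) (θ := 47321 / 100000)
    (by norm_num) (by norm_num) (by norm_num)
    (exp_bds (by norm_num) (by norm_num) (by norm_num [Finset.sum_range_succ, Nat.factorial])
      (by norm_num [Finset.sum_range_succ, Nat.factorial]))
    (by norm_num) (by norm_num) (by norm_num) (by norm_num) (by norm_num) (by norm_num) (by norm_num) (by norm_num)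
    (by norm_num) (by norm_num) (by norm_num) (by norm_num) hκ h0 hm

private theorem e4_4_9 {κ τ : ℝ} (hκ : 433 / 250 ≤ κ) (h0 : 0 ≤ τ) (hm : τ ≤ 35343 / 25000) : 16 / 25 ≤ lv κ τ :=
  lv_ge_num (κ₀ := 433 / 250) (y := 10633 / 20000) (Fl := 1701737 / 1000000) (Fh := 850869 / 500000) (xl := 21697 / 25000) (xh := 86789 / 100000) (τm := 35343 / 25000) (θ := 54961 / 100000)
    (by norm_num) (by norm_num) (by norm_num)
    (exp_bds (by norm_num) (by norm_num) (by norm_num [Finset.sum_range_succ, Nat.factorial])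
      (by norm_num [Finset.sum_range_succ, Nat.factorial]))
    (by norm_num) (by norm_num) (by norm_num) (by norm_num) (by norm_num) (by norm_num) (by norm_num) (by norm_num)
    (by norm_num) (by norm_num) (by norm_num) (by norm_num) hκ h0 hm

/-- class 4_4: `b = 4`, `κ ≥ 433 / 250` -/
theorem ld4_4 {κ h : ℝ} (hκ : 433 / 250 ≤ κ) (h0 : 0 < h) (hh : h ≤ 2 * π / 4) :
    LineData κ h (9 / 10) (19 / 25) (631 / 2000) (313 / 500) (417 / 2000) (-57 / 100) (-41 / 100) (331 / 2000) (173 / 200) := by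
  have hk1 : 1 ≤ κ := by linarith
  have hp4 := Real.pi_lt_d4
  have hp3 := Real.pi_gt_d2
  have hhq : h ≤ 3927 / 2500 := by
    refine hh.trans ?_
    rw [div_le_iff₀ (by norm_num)]
    linarith
  have L1 : Line κ h (1 / 10) (99 / 1000) (99 / 20000) := Line.stepN (l := 99 / 100) (τm := 3927 / 25000) hk1 h0.le (Line.zero hk1) (by norm_num) (by norm_num)
    (fun τ a b => e4_4_1 hκ a b) (by linarith) (by linarith) (by norm_num) (by norm_num)
  have L2 : Line κ h (1 / 5) (393 / 2000) (783 / 40000) := Line.stepN (l := 39 / 40) (τm := 3927 / 12500) hk1 h0.le L1 (by norm_num) (by norm_num)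
    (fun τ a b => e4_4_2 hκ a b) (by linarith) (by linarith) (by norm_num) (by norm_num)
  have L3 : Line κ h (3 / 10) (291 / 1000) (27 / 625) := Line.stepN (l := 189 / 200) (τm := 11781 / 25000) hk1 h0.le L2 (by norm_num) (by norm_num)
    (fun τ a b => e4_4_3 hκ a b) (by linarith) (by linarith) (by norm_num) (by norm_num)
  have L4 : Line κ h (2 / 5) (191 / 500) (1501 / 20000) := Line.stepN (l := 91 / 100) (τm := 3927 / 6250) hk1 h0.le L3 (by norm_num) (by norm_num)
    (fun τ a b => e4_4_4 hκ a b) (by linarith) (by linarith) (by norm_num) (by norm_num)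
  have L5 : Line κ h (1 / 2) (937 / 2000) (4559 / 40000) := Line.stepN (l := 173 / 200) (τm := 3927 / 5000) hk1 h0.le L4 (by norm_num) (by norm_num)
    (fun τ a b => e4_4_5 hκ a b) (by linarith) (by linarith) (by norm_num) (by norm_num)
  have L6 : Line κ h (3 / 5) (11 / 20) (397 / 2500) := Line.stepN (l := 163 / 200) (τm := 11781 / 12500) hk1 h0.le L5 (by norm_num) (by norm_num)
    (fun τ a b => e4_4_6 hκ a b) (by linarith) (by linarith) (by norm_num) (by norm_num)
  have L7 : Line κ h (7 / 10) (313 / 500) (1041 / 5000) := Line.stepN (l := 19 / 25) (τm := 27489 / 25000) hk1 h0.le L6 (by norm_num) (by norm_num)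
    (fun τ a b => e4_4_7 hκ a b) (by linarith) (by linarith) (by norm_num) (by norm_num)
  have L8 : Line κ h (4 / 5) (87 / 125) (2607 / 10000) := Line.stepN (l := 7 / 10) (τm := 3927 / 3125) hk1 h0.le L7 (by norm_num) (by norm_num)
    (fun τ a b => e4_4_8 hκ a b) (by linarith) (by linarith) (by norm_num) (by norm_num)
  have L9 : Line κ h (9 / 10) (19 / 25) (3151 / 10000) := Line.stepN (l := 16 / 25) (τm := 35343 / 25000) hk1 h0.le L8 (by norm_num) (by norm_num)
    (fun τ a b => e4_4_9 hκ a b) (by linarith) (by linarith) (by norm_num) (by norm_num)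
  have m1 : ∀ z ∈ Icc (-57 / 100 : ℝ) (-1 / 2), 173 / 200 ≤ yv κ ((z + 1) * h) / h - yv κ (z * h) / h :=
    mu_piece (a := 2 / 5) (S := 191 / 500) (C := 1501 / 20000) (l := 173 / 200) (τm := 3927 / 5000) (H₁ := 90693 / 100000) (mp := 57433 / 125000) (mq := 16493 / 40000) hk1 h0 (by linarith)
      L4 (by norm_num) (by norm_num) (by norm_num) (fun τ a b => e4_4_5 hκ a b) (by linarith) (by linarith)
      (exp_le_bd (by norm_num) (by norm_num) (by norm_num [Finset.sum_range_succ, Nat.factorial])) (exp_le_bd (by norm_num) (by norm_num) (by norm_num [Finset.sum_range_succ, Nat.factorial]))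
      (by norm_num) (by norm_num)
  have m2 : ∀ z ∈ Icc (-1 / 2 : ℝ) (-41 / 100), 173 / 200 ≤ yv κ ((z + 1) * h) / h - yv κ (z * h) / h :=
    mu_piece (a := 1 / 2) (S := 937 / 2000) (C := 4559 / 40000) (l := 163 / 200) (τm := 11781 / 12500) (H₁ := 90693 / 100000) (mp := 16493 / 40000) (mq := 348597 / 1000000) hk1 h0 (by linarith)
      L5 (by norm_num) (by norm_num) (by norm_num) (fun τ a b => e4_4_6 hκ a b) (by linarith) (by linarith)
      (exp_le_bd (by norm_num) (by norm_num) (by norm_num [Finset.sum_range_succ, Nat.factorial])) (exp_le_bd (by norm_num) (by norm_num) (by norm_num [Finset.sum_range_succ, Nat.factorial]))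
      (by norm_num) (by norm_num)
  exact ⟨L9.weaken h0.le (by norm_num) (by norm_num), L7.weaken h0.le (by norm_num) (by norm_num),
    Line.f1R (τm := 46339 / 50000) hk1 h0 L6 (by norm_num) (by linarith) (by linarith) (by norm_num), mu_glue m1 m2⟩

/-- class 4_4: line at `1 + qL`, curvature up to `1 + qR` -/
theorem lr4_4 {κ h : ℝ} (hκ : 433 / 250 ≤ κ) (h0 : 0 < h) (hh : h ≤ 2 * π / 4) :
    Line κ h (1 + (-57 / 100)) (8159 / 20000) (343277 / 4000000) ∧ (∀ τ, 0 ≤ τ → τ ≤ 11781 / 12500 → 163 / 200 ≤ lv κ τ) ∧ (1 + (-41 / 100)) * h ≤ (11781 / 12500) ∧ (11781 / 12500) < κ + π / 2 := by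
  have hk1 : 1 ≤ κ := by linarith
  have hp4 := Real.pi_lt_d4
  have hp3 := Real.pi_gt_d2
  have hhq : h ≤ 3927 / 2500 := by
    refine hh.trans ?_
    rw [div_le_iff₀ (by norm_num)]
    linarith
  have L1 : Line κ h (1 / 10) (99 / 1000) (99 / 20000) := Line.stepN (l := 99 / 100) (τm := 3927 / 25000) hk1 h0.le (Line.zero hk1) (by norm_num) (by norm_num)
    (fun τ a b => e4_4_1 hκ a b) (by linarith) (by linarith) (by norm_num) (by norm_num)
  have L2 : Line κ h (1 / 5) (393 / 2000) (783 / 40000) := Line.stepN (l := 39 / 40) (τm := 3927 / 12500) hk1 h0.le L1 (by norm_num) (by norm_num)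
    (fun τ a b => e4_4_2 hκ a b) (by linarith) (by linarith) (by norm_num) (by norm_num)
  have L3 : Line κ h (3 / 10) (291 / 1000) (27 / 625) := Line.stepN (l := 189 / 200) (τm := 11781 / 25000) hk1 h0.le L2 (by norm_num) (by norm_num)
    (fun τ a b => e4_4_3 hκ a b) (by linarith) (by linarith) (by norm_num) (by norm_num)
  have L4 : Line κ h (2 / 5) (191 / 500) (1501 / 20000) := Line.stepN (l := 91 / 100) (τm := 3927 / 6250) hk1 h0.le L3 (by norm_num) (by norm_num)
    (fun τ a b => e4_4_4 hκ a b) (by linarith) (by linarith) (by norm_num) (by norm_num)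
  exact ⟨Line.stepN (l := 173 / 200) (τm := 3927 / 5000) hk1 h0.le L4 (by norm_num) (by norm_num)
    (fun τ a b => e4_4_5 hκ a b) (by linarith) (by linarith) (by norm_num) (by norm_num), fun τ a b => e4_4_6 hκ a b,
    by linarith, by linarith⟩

private theorem e4_5_1 {κ τ : ℝ} (hκ : 91 / 50 ≤ κ) (h0 : 0 ≤ τ) (hm : τ ≤ 3927 / 25000) : 199 / 200 ≤ lv κ τ :=
  lv_ge_num (κ₀ := 91 / 50) (y := 1327 / 20000) (Fl := 5343 / 5000) (Fh := 1068601 / 1000000) (xl := 85093 / 50000) (xh := 42547 / 25000) (τm := 3927 / 25000) (θ := 487 / 12500)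
    (by norm_num) (by norm_num) (by norm_num)
    (exp_bds (by norm_num) (by norm_num) (by norm_num [Finset.sum_range_succ, Nat.factorial])
      (by norm_num [Finset.sum_range_succ, Nat.factorial]))
    (by norm_num) (by norm_num) (by norm_num) (by norm_num) (by norm_num) (by norm_num) (by norm_num) (by norm_num)
    (by norm_num) (by norm_num) (by norm_num) (by norm_num) hκ h0 hm

private theorem e4_5_2 {κ τ : ℝ} (hκ : 91 / 50 ≤ κ) (h0 : 0 ≤ τ) (hm : τ ≤ 3927 / 12500) : 197 / 200 ≤ lv κ τ :=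
  lv_ge_num (κ₀ := 91 / 50) (y := 13233 / 100000) (Fl := 285371 / 250000) (Fh := 228297 / 200000) (xl := 158891 / 100000) (xh := 39723 / 25000) (τm := 3927 / 12500) (θ := 8309 / 100000)
    (by norm_num) (by norm_num) (by norm_num)
    (exp_bds (by norm_num) (by norm_num) (by norm_num [Finset.sum_range_succ, Nat.factorial])
      (by norm_num [Finset.sum_range_succ, Nat.factorial]))
    (by norm_num) (by norm_num) (by norm_num) (by norm_num) (by norm_num) (by norm_num) (by norm_num) (by norm_num)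
    (by norm_num) (by norm_num) (by norm_num) (by norm_num) hκ h0 hm

private theorem e4_5_3 {κ τ : ℝ} (hκ : 91 / 50 ≤ κ) (h0 : 0 ≤ τ) (hm : τ ≤ 11781 / 25000) : 193 / 200 ≤ lv κ τ :=
  lv_ge_num (κ₀ := 91 / 50) (y := 4931 / 25000) (Fl := 304509 / 250000) (Fh := 1218037 / 1000000) (xl := 148113 / 100000) (xh := 74057 / 50000) (τm := 11781 / 25000) (θ := 6619 / 50000)
    (by norm_num) (by norm_num) (by norm_num)
    (exp_bds (by norm_num) (by norm_num) (by norm_num [Finset.sum_range_succ, Nat.factorial])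
      (by norm_num [Finset.sum_range_succ, Nat.factorial]))
    (by norm_num) (by norm_num) (by norm_num) (by norm_num) (by norm_num) (by norm_num) (by norm_num) (by norm_num)
    (by norm_num) (by norm_num) (by norm_num) (by norm_num) hκ h0 hm

private theorem e4_5_4 {κ τ : ℝ} (hκ : 91 / 50 ≤ κ) (h0 : 0 ≤ τ) (hm : τ ≤ 3927 / 6250) : 93 / 100 ≤ lv κ τ :=
  lv_ge_num (κ₀ := 91 / 50) (y := 651 / 2500) (Fl := 162181 / 125000) (Fh := 1297449 / 1000000) (xl := 137837 / 100000) (xh := 68919 / 50000) (τm := 3927 / 6250) (θ := 18671 / 100000)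
    (by norm_num) (by norm_num) (by norm_num)
    (exp_bds (by norm_num) (by norm_num) (by norm_num [Finset.sum_range_succ, Nat.factorial])
      (by norm_num [Finset.sum_range_succ, Nat.factorial]))
    (by norm_num) (by norm_num) (by norm_num) (by norm_num) (by norm_num) (by norm_num) (by norm_num) (by norm_num)
    (by norm_num) (by norm_num) (by norm_num) (by norm_num) hκ h0 hm

private theorem e4_5_5 {κ τ : ℝ} (hκ : 91 / 50 ≤ κ) (h0 : 0 ≤ τ) (hm : τ ≤ 3927 / 5000) : 89 / 100 ≤ lv κ τ :=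
  lv_ge_num (κ₀ := 91 / 50) (y := 16059 / 50000) (Fl := 1378753 / 1000000) (Fh := 689377 / 500000) (xl := 32009 / 25000) (xh := 128037 / 100000) (τm := 3927 / 5000) (θ := 24577 / 100000)
    (by norm_num) (by norm_num) (by norm_num)
    (exp_bds (by norm_num) (by norm_num) (by norm_num [Finset.sum_range_succ, Nat.factorial])
      (by norm_num [Finset.sum_range_succ, Nat.factorial]))
    (by norm_num) (by norm_num) (by norm_num) (by norm_num) (by norm_num) (by norm_num) (by norm_num) (by norm_num)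
    (by norm_num) (by norm_num) (by norm_num) (by norm_num) hκ h0 hm

private theorem e4_5_6 {κ τ : ℝ} (hκ : 91 / 50 ≤ κ) (h0 : 0 ≤ τ) (hm : τ ≤ 11781 / 12500) : 169 / 200 ≤ lv κ τ :=
  lv_ge_num (κ₀ := 91 / 50) (y := 9477 / 25000) (Fl := 1460939 / 1000000) (Fh := 73047 / 50000) (xl := 118669 / 100000) (xh := 11867 / 10000) (τm := 11781 / 12500) (θ := 30919 / 100000)
    (by norm_num) (by norm_num) (by norm_num)
    (exp_bds (by norm_num) (by norm_num) (by norm_num [Finset.sum_range_succ, Nat.factorial])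
      (by norm_num [Finset.sum_range_succ, Nat.factorial]))
    (by norm_num) (by norm_num) (by norm_num) (by norm_num) (by norm_num) (by norm_num) (by norm_num) (by norm_num)
    (by norm_num) (by norm_num) (by norm_num) (by norm_num) hκ h0 hm

private theorem e4_5_7 {κ τ : ℝ} (hκ : 91 / 50 ≤ κ) (h0 : 0 ≤ τ) (hm : τ ≤ 27489 / 25000) : 159 / 200 ≤ lv κ τ :=
  lv_ge_num (κ₀ := 91 / 50) (y := 4337 / 10000) (Fl := 308591 / 200000) (Fh := 385739 / 250000) (xl := 27423 / 25000) (xh := 109693 / 100000) (τm := 27489 / 25000) (θ := 37651 / 100000)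
    (by norm_num) (by norm_num) (by norm_num)
    (exp_bds (by norm_num) (by norm_num) (by norm_num [Finset.sum_range_succ, Nat.factorial])
      (by norm_num [Finset.sum_range_succ, Nat.factorial]))
    (by norm_num) (by norm_num) (by norm_num) (by norm_num) (by norm_num) (by norm_num) (by norm_num) (by norm_num)
    (by norm_num) (by norm_num) (by norm_num) (by norm_num) hκ h0 hm

private theorem e4_5_8 {κ τ : ℝ} (hκ : 91 / 50 ≤ κ) (h0 : 0 ≤ τ) (hm : τ ≤ 3927 / 3125) : 37 / 50 ≤ lv κ τ :=
  lv_ge_num (κ₀ := 91 / 50) (y := 12119 / 25000) (Fl := 324757 / 200000) (Fh := 811893 / 500000) (xl := 50529 / 50000) (xh := 101059 / 100000) (τm := 3927 / 3125) (θ := 1789 / 4000)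
    (by norm_num) (by norm_num) (by norm_num)
    (exp_bds (by norm_num) (by norm_num) (by norm_num [Finset.sum_range_succ, Nat.factorial])
      (by norm_num [Finset.sum_range_succ, Nat.factorial]))
    (by norm_num) (by norm_num) (by norm_num) (by norm_num) (by norm_num) (by norm_num) (by norm_num) (by norm_num)
    (by norm_num) (by norm_num) (by norm_num) (by norm_num) hκ h0 hm

private theorem e4_5_9 {κ τ : ℝ} (hκ : 91 / 50 ≤ κ) (h0 : 0 ≤ τ) (hm : τ ≤ 35343 / 25000) : 17 / 25 ≤ lv κ τ :=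
  lv_ge_num (κ₀ := 91 / 50) (y := 6651 / 12500) (Fl := 1702469 / 1000000) (Fh := 170247 / 100000) (xl := 92721 / 100000) (xh := 46361 / 50000) (τm := 35343 / 25000) (θ := 1628 / 3125)
    (by norm_num) (by norm_num) (by norm_num)
    (exp_bds (by norm_num) (by norm_num) (by norm_num [Finset.sum_range_succ, Nat.factorial])
      (by norm_num [Finset.sum_range_succ, Nat.factorial]))
    (by norm_num) (by norm_num) (by norm_num) (by norm_num) (by norm_num) (by norm_num) (by norm_num) (by norm_num)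
    (by norm_num) (by norm_num) (by norm_num) (by norm_num) hκ h0 hm

/-- class 4_5: `b = 4`, `κ ≥ 91 / 50` -/
theorem ld4_5 {κ h : ℝ} (hκ : 91 / 50 ≤ κ) (h0 : 0 < h) (hh : h ≤ 2 * π / 4) :
    LineData κ h (9 / 10) (313 / 400) (41 / 125) (1281 / 2000) (43 / 200) (-57 / 100) (-41 / 100) (839 / 5000) (7 / 8) := by
  have hk1 : 1 ≤ κ := by linarith
  have hp4 := Real.pi_lt_d4
  have hp3 := Real.pi_gt_d2
  have hhq : h ≤ 3927 / 2500 := by
    refine hh.trans ?_
    rw [div_le_iff₀ (by norm_num)]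
    linarith
  have L1 : Line κ h (1 / 10) (199 / 2000) (199 / 40000) := Line.stepN (l := 199 / 200) (τm := 3927 / 25000) hk1 h0.le (Line.zero hk1) (by norm_num) (by norm_num)
    (fun τ a b => e4_5_1 hκ a b) (by linarith) (by linarith) (by norm_num) (by norm_num)
  have L2 : Line κ h (1 / 5) (99 / 500) (79 / 4000) := Line.stepN (l := 197 / 200) (τm := 3927 / 12500) hk1 h0.le L1 (by norm_num) (by norm_num)
    (fun τ a b => e4_5_2 hκ a b) (by linarith) (by linarith) (by norm_num) (by norm_num)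
  have L3 : Line κ h (3 / 10) (589 / 2000) (351 / 8000) := Line.stepN (l := 193 / 200) (τm := 11781 / 25000) hk1 h0.le L2 (by norm_num) (by norm_num)
    (fun τ a b => e4_5_3 hκ a b) (by linarith) (by linarith) (by norm_num) (by norm_num)
  have L4 : Line κ h (2 / 5) (31 / 80) (3057 / 40000) := Line.stepN (l := 93 / 100) (τm := 3927 / 6250) hk1 h0.le L3 (by norm_num) (by norm_num)
    (fun τ a b => e4_5_4 hκ a b) (by linarith) (by linarith) (by norm_num) (by norm_num)
  have L5 : Line κ h (1 / 2) (953 / 2000) (4659 / 40000) := Line.stepN (l := 89 / 100) (τm := 3927 / 5000) hk1 h0.le L4 (by norm_num) (by norm_num)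
    (fun τ a b => e4_5_5 hκ a b) (by linarith) (by linarith) (by norm_num) (by norm_num)
  have L6 : Line κ h (3 / 5) (561 / 1000) (3259 / 20000) := Line.stepN (l := 169 / 200) (τm := 11781 / 12500) hk1 h0.le L5 (by norm_num) (by norm_num)
    (fun τ a b => e4_5_6 hκ a b) (by linarith) (by linarith) (by norm_num) (by norm_num)
  have L7 : Line κ h (7 / 10) (1281 / 2000) (1717 / 8000) := Line.stepN (l := 159 / 200) (τm := 27489 / 25000) hk1 h0.le L6 (by norm_num) (by norm_num)
    (fun τ a b => e4_5_7 hκ a b) (by linarith) (by linarith) (by norm_num) (by norm_num)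
  have L8 : Line κ h (4 / 5) (1429 / 2000) (2161 / 8000) := Line.stepN (l := 37 / 50) (τm := 3927 / 3125) hk1 h0.le L7 (by norm_num) (by norm_num)
    (fun τ a b => e4_5_8 hκ a b) (by linarith) (by linarith) (by norm_num) (by norm_num)
  have L9 : Line κ h (9 / 10) (313 / 400) (13117 / 40000) := Line.stepN (l := 17 / 25) (τm := 35343 / 25000) hk1 h0.le L8 (by norm_num) (by norm_num)
    (fun τ a b => e4_5_9 hκ a b) (by linarith) (by linarith) (by norm_num) (by norm_num)
  have m1 : ∀ z ∈ Icc (-57 / 100 : ℝ) (-1 / 2), 7 / 8 ≤ yv κ ((z + 1) * h) / h - yv κ (z * h) / h :=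
    mu_piece (a := 2 / 5) (S := 31 / 80) (C := 3057 / 40000) (l := 89 / 100) (τm := 3927 / 5000) (H₁ := 21577 / 25000) (mp := 231779 / 500000) (mq := 415663 / 1000000) hk1 h0 (by linarith)
      L4 (by norm_num) (by norm_num) (by norm_num) (fun τ a b => e4_5_5 hκ a b) (by linarith) (by linarith)
      (exp_le_bd (by norm_num) (by norm_num) (by norm_num [Finset.sum_range_succ, Nat.factorial])) (exp_le_bd (by norm_num) (by norm_num) (by norm_num [Finset.sum_range_succ, Nat.factorial]))
      (by norm_num) (by norm_num)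
  have m2 : ∀ z ∈ Icc (-1 / 2 : ℝ) (-41 / 100), 7 / 8 ≤ yv κ ((z + 1) * h) / h - yv κ (z * h) / h :=
    mu_piece (a := 1 / 2) (S := 953 / 2000) (C := 4659 / 40000) (l := 169 / 200) (τm := 11781 / 12500) (H₁ := 21577 / 25000) (mp := 415663 / 1000000) (mq := 21939 / 62500) hk1 h0 (by linarith)
      L5 (by norm_num) (by norm_num) (by norm_num) (fun τ a b => e4_5_6 hκ a b) (by linarith) (by linarith)
      (exp_le_bd (by norm_num) (by norm_num) (by norm_num [Finset.sum_range_succ, Nat.factorial])) (exp_le_bd (by norm_num) (by norm_num) (by norm_num [Finset.sum_range_succ, Nat.factorial]))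
      (by norm_num) (by norm_num)
  exact ⟨L9.weaken h0.le (by norm_num) (by norm_num), L7.weaken h0.le (by norm_num) (by norm_num),
    Line.f1R (τm := 46339 / 50000) hk1 h0 L6 (by norm_num) (by linarith) (by linarith) (by norm_num), mu_glue m1 m2⟩

/-- class 4_5: line at `1 + qL`, curvature up to `1 + qR` -/
theorem lr4_5 {κ h : ℝ} (hκ : 91 / 50 ≤ κ) (h0 : 0 < h) (hh : h ≤ 2 * π / 4) :
    Line κ h (1 + (-57 / 100)) (2071 / 5000) (175011 / 2000000) ∧ (∀ τ, 0 ≤ τ → τ ≤ 11781 / 12500 → 169 / 200 ≤ lv κ τ) ∧ (1 + (-41 / 100)) * h ≤ (11781 / 12500) ∧ (11781 / 12500) < κ + π / 2 := by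
  have hk1 : 1 ≤ κ := by linarith
  have hp4 := Real.pi_lt_d4
  have hp3 := Real.pi_gt_d2
  have hhq : h ≤ 3927 / 2500 := by
    refine hh.trans ?_
    rw [div_le_iff₀ (by norm_num)]
    linarith
  have L1 : Line κ h (1 / 10) (199 / 2000) (199 / 40000) := Line.stepN (l := 199 / 200) (τm := 3927 / 25000) hk1 h0.le (Line.zero hk1) (by norm_num) (by norm_num)
    (fun τ a b => e4_5_1 hκ a b) (by linarith) (by linarith) (by norm_num) (by norm_num)
  have L2 : Line κ h (1 / 5) (99 / 500) (79 / 4000) := Line.stepN (l := 197 / 200) (τm := 3927 / 12500) hk1 h0.le L1 (by norm_num) (by norm_num)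
    (fun τ a b => e4_5_2 hκ a b) (by linarith) (by linarith) (by norm_num) (by norm_num)
  have L3 : Line κ h (3 / 10) (589 / 2000) (351 / 8000) := Line.stepN (l := 193 / 200) (τm := 11781 / 25000) hk1 h0.le L2 (by norm_num) (by norm_num)
    (fun τ a b => e4_5_3 hκ a b) (by linarith) (by linarith) (by norm_num) (by norm_num)
  have L4 : Line κ h (2 / 5) (31 / 80) (3057 / 40000) := Line.stepN (l := 93 / 100) (τm := 3927 / 6250) hk1 h0.le L3 (by norm_num) (by norm_num)
    (fun τ a b => e4_5_4 hκ a b) (by linarith) (by linarith) (by norm_num) (by norm_num)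
  exact ⟨Line.stepN (l := 89 / 100) (τm := 3927 / 5000) hk1 h0.le L4 (by norm_num) (by norm_num)
    (fun τ a b => e4_5_5 hκ a b) (by linarith) (by linarith) (by norm_num) (by norm_num), fun τ a b => e4_5_6 hκ a b,
    by linarith, by linarith⟩

private theorem e4_6_2 {κ τ : ℝ} (hκ : 19 / 10 ≤ κ) (h0 : 0 ≤ τ) (hm : τ ≤ 3927 / 12500) : 199 / 200 ≤ lv κ τ :=
  lv_ge_num (κ₀ := 19 / 10) (y := 12979 / 100000) (Fl := 1138589 / 1000000) (Fh := 113859 / 100000) (xl := 166367 / 100000) (xh := 5199 / 3125) (τm := 3927 / 12500) (θ := 1557 / 20000)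
    (by norm_num) (by norm_num) (by norm_num)
    (exp_bds (by norm_num) (by norm_num) (by norm_num [Finset.sum_range_succ, Nat.factorial])
      (by norm_num [Finset.sum_range_succ, Nat.factorial]))
    (by norm_num) (by norm_num) (by norm_num) (by norm_num) (by norm_num) (by norm_num) (by norm_num) (by norm_num)
    (by norm_num) (by norm_num) (by norm_num) (by norm_num) hκ h0 hm

private theorem e4_6_3 {κ τ : ℝ} (hκ : 19 / 10 ≤ κ) (h0 : 0 ≤ τ) (hm : τ ≤ 11781 / 25000) : 39 / 40 ≤ lv κ τ :=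
  lv_ge_num (κ₀ := 19 / 10) (y := 9697 / 50000) (Fl := 1214023 / 1000000) (Fh := 151753 / 125000) (xl := 77649 / 50000) (xh := 155299 / 100000) (τm := 11781 / 25000) (θ := 12423 / 100000)
    (by norm_num) (by norm_num) (by norm_num)
    (exp_bds (by norm_num) (by norm_num) (by norm_num [Finset.sum_range_succ, Nat.factorial])
      (by norm_num [Finset.sum_range_succ, Nat.factorial]))
    (by norm_num) (by norm_num) (by norm_num) (by norm_num) (by norm_num) (by norm_num) (by norm_num) (by norm_num)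
    (by norm_num) (by norm_num) (by norm_num) (by norm_num) hκ h0 hm

private theorem e4_6_4 {κ τ : ℝ} (hκ : 19 / 10 ≤ κ) (h0 : 0 ≤ τ) (hm : τ ≤ 3927 / 6250) : 19 / 20 ≤ lv κ τ :=
  lv_ge_num (κ₀ := 19 / 10) (y := 3209 / 12500) (Fl := 1292683 / 1000000) (Fh := 323171 / 250000) (xl := 144721 / 100000) (xh := 72361 / 50000) (τm := 3927 / 6250) (θ := 4389 / 25000)
    (by norm_num) (by norm_num) (by norm_num)
    (exp_bds (by norm_num) (by norm_num) (by norm_num [Finset.sum_range_succ, Nat.factorial])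
      (by norm_num [Finset.sum_range_succ, Nat.factorial]))
    (by norm_num) (by norm_num) (by norm_num) (by norm_num) (by norm_num) (by norm_num) (by norm_num) (by norm_num)
    (by norm_num) (by norm_num) (by norm_num) (by norm_num) hκ h0 hm

private theorem e4_6_5 {κ τ : ℝ} (hκ : 19 / 10 ≤ κ) (h0 : 0 ≤ τ) (hm : τ ≤ 3927 / 5000) : 183 / 200 ≤ lv κ τ :=
  lv_ge_num (κ₀ := 19 / 10) (y := 127 / 400) (Fl := 1373689 / 1000000) (Fh := 137369 / 100000) (xl := 6731 / 5000) (xh := 134621 / 100000) (τm := 3927 / 5000) (θ := 23161 / 100000)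
    (by norm_num) (by norm_num) (by norm_num)
    (exp_bds (by norm_num) (by norm_num) (by norm_num [Finset.sum_range_succ, Nat.factorial])
      (by norm_num [Finset.sum_range_succ, Nat.factorial]))
    (by norm_num) (by norm_num) (by norm_num) (by norm_num) (by norm_num) (by norm_num) (by norm_num) (by norm_num)
    (by norm_num) (by norm_num) (by norm_num) (by norm_num) hκ h0 hm

private theorem e4_6_6 {κ τ : ℝ} (hκ : 19 / 10 ≤ κ) (h0 : 0 ≤ τ) (hm : τ ≤ 11781 / 12500) : 7 / 8 ≤ lv κ τ :=
  lv_ge_num (κ₀ := 19 / 10) (y := 1503 / 4000) (Fl := 1456083 / 1000000) (Fh := 364021 / 250000) (xl := 124959 / 100000) (xh := 781 / 625) (τm := 11781 / 12500) (θ := 29209 / 100000)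
    (by norm_num) (by norm_num) (by norm_num)
    (exp_bds (by norm_num) (by norm_num) (by norm_num [Finset.sum_range_succ, Nat.factorial])
      (by norm_num [Finset.sum_range_succ, Nat.factorial]))
    (by norm_num) (by norm_num) (by norm_num) (by norm_num) (by norm_num) (by norm_num) (by norm_num) (by norm_num)
    (by norm_num) (by norm_num) (by norm_num) (by norm_num) hκ h0 hm

private theorem e4_6_7 {κ τ : ℝ} (hκ : 19 / 10 ≤ κ) (h0 : 0 ≤ τ) (hm : τ ≤ 27489 / 25000) : 33 / 40 ≤ lv κ τ :=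
  lv_ge_num (κ₀ := 19 / 10) (y := 43103 / 100000) (Fl := 1538841 / 1000000) (Fh := 769421 / 500000) (xl := 115701 / 100000) (xh := 57851 / 50000) (τm := 27489 / 25000) (θ := 1783 / 5000)
    (by norm_num) (by norm_num) (by norm_num)
    (exp_bds (by norm_num) (by norm_num) (by norm_num [Finset.sum_range_succ, Nat.factorial])
      (by norm_num [Finset.sum_range_succ, Nat.factorial]))
    (by norm_num) (by norm_num) (by norm_num) (by norm_num) (by norm_num) (by norm_num) (by norm_num) (by norm_num)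
    (by norm_num) (by norm_num) (by norm_num) (by norm_num) hκ h0 hm

private theorem e4_6_8 {κ τ : ℝ} (hκ : 19 / 10 ≤ κ) (h0 : 0 ≤ τ) (hm : τ ≤ 3927 / 3125) : 77 / 100 ≤ lv κ τ :=
  lv_ge_num (κ₀ := 19 / 10) (y := 48299 / 100000) (Fl := 1620913 / 1000000) (Fh := 810457 / 500000) (xl := 26701 / 25000) (xh := 21361 / 20000) (τm := 3927 / 3125) (θ := 42469 / 100000)
    (by norm_num) (by norm_num) (by norm_num)
    (exp_bds (by norm_num) (by norm_num) (by norm_num [Finset.sum_range_succ, Nat.factorial])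
      (by norm_num [Finset.sum_range_succ, Nat.factorial]))
    (by norm_num) (by norm_num) (by norm_num) (by norm_num) (by norm_num) (by norm_num) (by norm_num) (by norm_num)
    (by norm_num) (by norm_num) (by norm_num) (by norm_num) hκ h0 hm

private theorem e4_6_9 {κ τ : ℝ} (hκ : 19 / 10 ≤ κ) (h0 : 0 ≤ τ) (hm : τ ≤ 35343 / 25000) : 143 / 200 ≤ lv κ τ :=
  lv_ge_num (κ₀ := 19 / 10) (y := 53143 / 100000) (Fl := 1701363 / 1000000) (Fh := 425341 / 250000) (xl := 98219 / 100000) (xh := 4911 / 5000) (τm := 35343 / 25000) (θ := 9919 / 20000)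
    (by norm_num) (by norm_num) (by norm_num)
    (exp_bds (by norm_num) (by norm_num) (by norm_num [Finset.sum_range_succ, Nat.factorial])
      (by norm_num [Finset.sum_range_succ, Nat.factorial]))
    (by norm_num) (by norm_num) (by norm_num) (by norm_num) (by norm_num) (by norm_num) (by norm_num) (by norm_num)
    (by norm_num) (by norm_num) (by norm_num) (by norm_num) hκ h0 hm

private theorem e4_6_10 {κ τ : ℝ} (hκ : 19 / 10 ≤ κ) (h0 : 0 ≤ τ) (hm : τ ≤ 3927 / 2500) : 33 / 50 ≤ lv κ τ :=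
  lv_ge_num (κ₀ := 19 / 10) (y := 57619 / 100000) (Fl := 889623 / 500000) (Fh := 1779247 / 1000000) (xl := 22477 / 25000) (xh := 89909 / 100000) (τm := 3927 / 2500) (θ := 1781 / 3125)
    (by norm_num) (by norm_num) (by norm_num)
    (exp_bds (by norm_num) (by norm_num) (by norm_num [Finset.sum_range_succ, Nat.factorial])
      (by norm_num [Finset.sum_range_succ, Nat.factorial]))
    (by norm_num) (by norm_num) (by norm_num) (by norm_num) (by norm_num) (by norm_num) (by norm_num) (by norm_num)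
    (by norm_num) (by norm_num) (by norm_num) (by norm_num) hκ h0 hm

/-- class 4_6: `b = 4`, `κ ≥ 19 / 10` -/
theorem ld4_6 {κ h : ℝ} (hκ : 19 / 10 ≤ κ) (h0 : 0 < h) (hh : h ≤ 2 * π / 4) :
    LineData κ h 1 (347 / 400) (201 / 500) (653 / 1000) (441 / 2000) (-23 / 40) (-81 / 200) (431 / 2500) (22 / 25) := by
  have hk1 : 1 ≤ κ := by linarith
  have hp4 := Real.pi_lt_d4
  have hp3 := Real.pi_gt_d2
  have hhq : h ≤ 3927 / 2500 := by
    refine hh.trans ?_
    rw [div_le_iff₀ (by norm_num)]
    linarith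
  have L1 : Line κ h (1 / 10) (199 / 2000) (199 / 40000) := Line.stepN (l := 199 / 200) (τm := 3927 / 12500) hk1 h0.le (Line.zero hk1) (by norm_num) (by norm_num)
    (fun τ a b => e4_6_2 hκ a b) (by linarith) (by linarith) (by norm_num) (by norm_num)
  have L2 : Line κ h (1 / 5) (199 / 1000) (199 / 10000) := Line.stepN (l := 199 / 200) (τm := 3927 / 12500) hk1 h0.le L1 (by norm_num) (by norm_num)
    (fun τ a b => e4_6_2 hκ a b) (by linarith) (by linarith) (by norm_num) (by norm_num)
  have L3 : Line κ h (3 / 10) (593 / 2000) (1771 / 40000) := Line.stepN (l := 39 / 40) (τm := 11781 / 25000) hk1 h0.le L2 (by norm_num) (by norm_num)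
    (fun τ a b => e4_6_3 hκ a b) (by linarith) (by linarith) (by norm_num) (by norm_num)
  have L4 : Line κ h (2 / 5) (783 / 2000) (3101 / 40000) := Line.stepN (l := 19 / 20) (τm := 3927 / 6250) hk1 h0.le L3 (by norm_num) (by norm_num)
    (fun τ a b => e4_6_4 hκ a b) (by linarith) (by linarith) (by norm_num) (by norm_num)
  have L5 : Line κ h (1 / 2) (483 / 1000) (1187 / 10000) := Line.stepN (l := 183 / 200) (τm := 3927 / 5000) hk1 h0.le L4 (by norm_num) (by norm_num)
    (fun τ a b => e4_6_5 hκ a b) (by linarith) (by linarith) (by norm_num) (by norm_num)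
  have L6 : Line κ h (3 / 5) (1141 / 2000) (6673 / 40000) := Line.stepN (l := 7 / 8) (τm := 11781 / 12500) hk1 h0.le L5 (by norm_num) (by norm_num)
    (fun τ a b => e4_6_6 hκ a b) (by linarith) (by linarith) (by norm_num) (by norm_num)
  have L7 : Line κ h (7 / 10) (653 / 1000) (4409 / 20000) := Line.stepN (l := 33 / 40) (τm := 27489 / 25000) hk1 h0.le L6 (by norm_num) (by norm_num)
    (fun τ a b => e4_6_7 hκ a b) (by linarith) (by linarith) (by norm_num) (by norm_num)
  have L8 : Line κ h (4 / 5) (73 / 100) (1391 / 5000) := Line.stepN (l := 77 / 100) (τm := 3927 / 3125) hk1 h0.le L7 (by norm_num) (by norm_num)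
    (fun τ a b => e4_6_8 hκ a b) (by linarith) (by linarith) (by norm_num) (by norm_num)
  have L9 : Line κ h (9 / 10) (1603 / 2000) (13559 / 40000) := Line.stepN (l := 143 / 200) (τm := 35343 / 25000) hk1 h0.le L8 (by norm_num) (by norm_num)
    (fun τ a b => e4_6_9 hκ a b) (by linarith) (by linarith) (by norm_num) (by norm_num)
  have L10 : Line κ h 1 (347 / 400) (16067 / 40000) := Line.stepN (l := 33 / 50) (τm := 3927 / 2500) hk1 h0.le L9 (by norm_num) (by norm_num)
    (fun τ a b => e4_6_10 hκ a b) (by linarith) (by linarith) (by norm_num) (by norm_num)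
  have m1 : ∀ z ∈ Icc (-23 / 40 : ℝ) (-1 / 2), 22 / 25 ≤ yv κ ((z + 1) * h) / h - yv κ (z * h) / h :=
    mu_piece (a := 2 / 5) (S := 783 / 2000) (C := 3101 / 40000) (l := 183 / 200) (τm := 3927 / 5000) (H₁ := 41337 / 50000) (mp := 29401 / 62500) (mq := 418483 / 1000000) hk1 h0 (by linarith)
      L4 (by norm_num) (by norm_num) (by norm_num) (fun τ a b => e4_6_5 hκ a b) (by linarith) (by linarith)
      (exp_le_bd (by norm_num) (by norm_num) (by norm_num [Finset.sum_range_succ, Nat.factorial])) (exp_le_bd (by norm_num) (by norm_num) (by norm_num [Finset.sum_range_succ, Nat.factorial]))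
      (by norm_num) (by norm_num)
  have m2 : ∀ z ∈ Icc (-1 / 2 : ℝ) (-81 / 200), 22 / 25 ≤ yv κ ((z + 1) * h) / h - yv κ (z * h) / h :=
    mu_piece (a := 1 / 2) (S := 483 / 1000) (C := 1187 / 10000) (l := 7 / 8) (τm := 11781 / 12500) (H₁ := 41337 / 50000) (mp := 418483 / 1000000) (mq := 21833 / 62500) hk1 h0 (by linarith)
      L5 (by norm_num) (by norm_num) (by norm_num) (fun τ a b => e4_6_6 hκ a b) (by linarith) (by linarith)
      (exp_le_bd (by norm_num) (by norm_num) (by norm_num [Finset.sum_range_succ, Nat.factorial])) (exp_le_bd (by norm_num) (by norm_num) (by norm_num [Finset.sum_range_succ, Nat.factorial]))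
      (by norm_num) (by norm_num)
  exact ⟨L10.weaken h0.le (by norm_num) (by norm_num), L7.weaken h0.le (by norm_num) (by norm_num),
    Line.f1R (τm := 93463 / 100000) hk1 h0 L6 (by norm_num) (by linarith) (by linarith) (by norm_num), mu_glue m1 m2⟩

/-- class 4_6: line at `1 + qL`, curvature up to `1 + qR` -/
theorem lr4_6 {κ h : ℝ} (hκ : 19 / 10 ≤ κ) (h0 : 0 < h) (hh : h ≤ 2 * π / 4) :
    Line κ h (1 + (-23 / 40)) (663 / 1600) (11131 / 128000) ∧ (∀ τ, 0 ≤ τ → τ ≤ 11781 / 12500 → 7 / 8 ≤ lv κ τ) ∧ (1 + (-81 / 200)) * h ≤ (11781 / 12500) ∧ (11781 / 12500) < κ + π / 2 := by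
  have hk1 : 1 ≤ κ := by linarith
  have hp4 := Real.pi_lt_d4
  have hp3 := Real.pi_gt_d2
  have hhq : h ≤ 3927 / 2500 := by
    refine hh.trans ?_
    rw [div_le_iff₀ (by norm_num)]
    linarith
  have L1 : Line κ h (1 / 10) (199 / 2000) (199 / 40000) := Line.stepN (l := 199 / 200) (τm := 3927 / 12500) hk1 h0.le (Line.zero hk1) (by norm_num) (by norm_num)
    (fun τ a b => e4_6_2 hκ a b) (by linarith) (by linarith) (by norm_num) (by norm_num)
  have L2 : Line κ h (1 / 5) (199 / 1000) (199 / 10000) := Line.stepN (l := 199 / 200) (τm := 3927 / 12500) hk1 h0.le L1 (by norm_num) (by norm_num)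
    (fun τ a b => e4_6_2 hκ a b) (by linarith) (by linarith) (by norm_num) (by norm_num)
  have L3 : Line κ h (3 / 10) (593 / 2000) (1771 / 40000) := Line.stepN (l := 39 / 40) (τm := 11781 / 25000) hk1 h0.le L2 (by norm_num) (by norm_num)
    (fun τ a b => e4_6_3 hκ a b) (by linarith) (by linarith) (by norm_num) (by norm_num)
  have L4 : Line κ h (2 / 5) (783 / 2000) (3101 / 40000) := Line.stepN (l := 19 / 20) (τm := 3927 / 6250) hk1 h0.le L3 (by norm_num) (by norm_num)
    (fun τ a b => e4_6_4 hκ a b) (by linarith) (by linarith) (by norm_num) (by norm_num)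
  exact ⟨Line.stepN (l := 183 / 200) (τm := 3927 / 5000) hk1 h0.le L4 (by norm_num) (by norm_num)
    (fun τ a b => e4_6_5 hκ a b) (by linarith) (by linarith) (by norm_num) (by norm_num), fun τ a b => e4_6_6 hκ a b,
    by linarith, by linarith⟩

private theorem e4_7_6 {κ τ : ℝ} (hκ : 23 / 10 ≤ κ) (h0 : 0 ≤ τ) (hm : τ ≤ 11781 / 12500) : 199 / 200 ≤ lv κ τ :=
  lv_ge_num (κ₀ := 23 / 10) (y := 3527 / 10000) (Fl := 177863 / 125000) (Fh := 284581 / 200000) (xl := 78873 / 50000) (xh := 157747 / 100000) (τm := 11781 / 12500) (θ := 5499 / 25000)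
    (by norm_num) (by norm_num) (by norm_num)
    (exp_bds (by norm_num) (by norm_num) (by norm_num [Finset.sum_range_succ, Nat.factorial])
      (by norm_num [Finset.sum_range_succ, Nat.factorial]))
    (by norm_num) (by norm_num) (by norm_num) (by norm_num) (by norm_num) (by norm_num) (by norm_num) (by norm_num)
    (by norm_num) (by norm_num) (by norm_num) (by norm_num) hκ h0 hm

private theorem e4_7_7 {κ τ : ℝ} (hκ : 23 / 10 ≤ κ) (h0 : 0 ≤ τ) (hm : τ ≤ 27489 / 25000) : 193 / 200 ≤ lv κ τ :=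
  lv_ge_num (κ₀ := 23 / 10) (y := 40927 / 100000) (Fl := 752859 / 500000) (Fh := 1505719 / 1000000) (xl := 73583 / 50000) (xh := 147167 / 100000) (τm := 27489 / 25000) (θ := 6781 / 25000)
    (by norm_num) (by norm_num) (by norm_num)
    (exp_bds (by norm_num) (by norm_num) (by norm_num [Finset.sum_range_succ, Nat.factorial])
      (by norm_num [Finset.sum_range_succ, Nat.factorial]))
    (by norm_num) (by norm_num) (by norm_num) (by norm_num) (by norm_num) (by norm_num) (by norm_num) (by norm_num)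
    (by norm_num) (by norm_num) (by norm_num) (by norm_num) hκ h0 hm

private theorem e4_7_8 {κ τ : ℝ} (hκ : 23 / 10 ≤ κ) (h0 : 0 ≤ τ) (hm : τ ≤ 3927 / 3125) : 93 / 100 ≤ lv κ τ :=
  lv_ge_num (κ₀ := 23 / 10) (y := 46391 / 100000) (Fl := 1590279 / 1000000) (Fh := 39757 / 25000) (xl := 68493 / 50000) (xh := 136987 / 100000) (τm := 3927 / 3125) (θ := 8163 / 25000)
    (by norm_num) (by norm_num) (by norm_num)
    (exp_bds (by norm_num) (by norm_num) (by norm_num [Finset.sum_range_succ, Nat.factorial])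
      (by norm_num [Finset.sum_range_succ, Nat.factorial]))
    (by norm_num) (by norm_num) (by norm_num) (by norm_num) (by norm_num) (by norm_num) (by norm_num) (by norm_num)
    (by norm_num) (by norm_num) (by norm_num) (by norm_num) hκ h0 hm

private theorem e4_7_9 {κ τ : ℝ} (hκ : 23 / 10 ≤ κ) (h0 : 0 ≤ τ) (hm : τ ≤ 35343 / 25000) : 177 / 200 ≤ lv κ τ :=
  lv_ge_num (κ₀ := 23 / 10) (y := 51621 / 100000) (Fl := 104729 / 62500) (Fh := 335133 / 200000) (xl := 63591 / 50000) (xh := 127183 / 100000) (τm := 35343 / 25000) (θ := 9639 / 25000)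
    (by norm_num) (by norm_num) (by norm_num)
    (exp_bds (by norm_num) (by norm_num) (by norm_num [Finset.sum_range_succ, Nat.factorial])
      (by norm_num [Finset.sum_range_succ, Nat.factorial]))
    (by norm_num) (by norm_num) (by norm_num) (by norm_num) (by norm_num) (by norm_num) (by norm_num) (by norm_num)
    (by norm_num) (by norm_num) (by norm_num) (by norm_num) hκ h0 hm

private theorem e4_7_10 {κ τ : ℝ} (hκ : 23 / 10 ≤ κ) (h0 : 0 ≤ τ) (hm : τ ≤ 3927 / 2500) : 167 / 200 ≤ lv κ τ :=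
  lv_ge_num (κ₀ := 23 / 10) (y := 56583 / 100000) (Fl := 440227 / 250000) (Fh := 1760909 / 1000000) (xl := 58861 / 50000) (xh := 117723 / 100000) (τm := 3927 / 2500) (θ := 11201 / 25000)
    (by norm_num) (by norm_num) (by norm_num)
    (exp_bds (by norm_num) (by norm_num) (by norm_num [Finset.sum_range_succ, Nat.factorial])
      (by norm_num [Finset.sum_range_succ, Nat.factorial]))
    (by norm_num) (by norm_num) (by norm_num) (by norm_num) (by norm_num) (by norm_num) (by norm_num) (by norm_num)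
    (by norm_num) (by norm_num) (by norm_num) (by norm_num) hκ h0 hm

/-- class 4_7: `b = 4`, `κ ≥ 23 / 10` -/
theorem ld4_7 {κ h : ℝ} (hκ : 23 / 10 ≤ κ) (h0 : 0 < h) (hh : h ≤ 2 * π / 4) :
    LineData κ h 1 (1917 / 2000) (933 / 2000) (1387 / 2000) (121 / 500) (-23 / 40) (-81 / 200) (1759 / 10000) (181 / 200) := by
  have hk1 : 1 ≤ κ := by linarith
  have hp4 := Real.pi_lt_d4
  have hp3 := Real.pi_gt_d2
  have hhq : h ≤ 3927 / 2500 := by
    refine hh.trans ?_
    rw [div_le_iff₀ (by norm_num)]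
    linarith
  have L1 : Line κ h (1 / 10) (199 / 2000) (199 / 40000) := Line.stepN (l := 199 / 200) (τm := 11781 / 12500) hk1 h0.le (Line.zero hk1) (by norm_num) (by norm_num)
    (fun τ a b => e4_7_6 hκ a b) (by linarith) (by linarith) (by norm_num) (by norm_num)
  have L2 : Line κ h (1 / 5) (199 / 1000) (199 / 10000) := Line.stepN (l := 199 / 200) (τm := 11781 / 12500) hk1 h0.le L1 (by norm_num) (by norm_num)
    (fun τ a b => e4_7_6 hκ a b) (by linarith) (by linarith) (by norm_num) (by norm_num)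
  have L3 : Line κ h (3 / 10) (597 / 2000) (1791 / 40000) := Line.stepN (l := 199 / 200) (τm := 11781 / 12500) hk1 h0.le L2 (by norm_num) (by norm_num)
    (fun τ a b => e4_7_6 hκ a b) (by linarith) (by linarith) (by norm_num) (by norm_num)
  have L4 : Line κ h (2 / 5) (199 / 500) (199 / 2500) := Line.stepN (l := 199 / 200) (τm := 11781 / 12500) hk1 h0.le L3 (by norm_num) (by norm_num)
    (fun τ a b => e4_7_6 hκ a b) (by linarith) (by linarith) (by norm_num) (by norm_num)
  have L5 : Line κ h (1 / 2) (199 / 400) (199 / 1600) := Line.stepN (l := 199 / 200) (τm := 11781 / 12500) hk1 h0.le L4 (by norm_num) (by norm_num)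
    (fun τ a b => e4_7_6 hκ a b) (by linarith) (by linarith) (by norm_num) (by norm_num)
  have L6 : Line κ h (3 / 5) (597 / 1000) (1791 / 10000) := Line.stepN (l := 199 / 200) (τm := 11781 / 12500) hk1 h0.le L5 (by norm_num) (by norm_num)
    (fun τ a b => e4_7_6 hκ a b) (by linarith) (by linarith) (by norm_num) (by norm_num)
  have L7 : Line κ h (7 / 10) (1387 / 2000) (9673 / 40000) := Line.stepN (l := 193 / 200) (τm := 27489 / 25000) hk1 h0.le L6 (by norm_num) (by norm_num)
    (fun τ a b => e4_7_7 hκ a b) (by linarith) (by linarith) (by norm_num) (by norm_num)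
  have L8 : Line κ h (4 / 5) (1573 / 2000) (12463 / 40000) := Line.stepN (l := 93 / 100) (τm := 3927 / 3125) hk1 h0.le L7 (by norm_num) (by norm_num)
    (fun τ a b => e4_7_8 hκ a b) (by linarith) (by linarith) (by norm_num) (by norm_num)
  have L9 : Line κ h (9 / 10) (7 / 8) (967 / 2500) := Line.stepN (l := 177 / 200) (τm := 35343 / 25000) hk1 h0.le L8 (by norm_num) (by norm_num)
    (fun τ a b => e4_7_9 hκ a b) (by linarith) (by linarith) (by norm_num) (by norm_num)
  have L10 : Line κ h 1 (1917 / 2000) (3729 / 8000) := Line.stepN (l := 167 / 200) (τm := 3927 / 2500) hk1 h0.le L9 (by norm_num) (by norm_num)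
    (fun τ a b => e4_7_10 hκ a b) (by linarith) (by linarith) (by norm_num) (by norm_num)
  have m1 : ∀ z ∈ Icc (-23 / 40 : ℝ) (-1 / 2), 181 / 200 ≤ yv κ ((z + 1) * h) / h - yv κ (z * h) / h :=
    mu_piece (a := 2 / 5) (S := 199 / 500) (C := 199 / 2500) (l := 199 / 200) (τm := 11781 / 12500) (H₁ := 8537 / 12500) (mp := 242507 / 500000) (mq := 430147 / 1000000) hk1 h0 (by linarith)
      L4 (by norm_num) (by norm_num) (by norm_num) (fun τ a b => e4_7_6 hκ a b) (by linarith) (by linarith)
      (exp_le_bd (by norm_num) (by norm_num) (by norm_num [Finset.sum_range_succ, Nat.factorial])) (exp_le_bd (by norm_num) (by norm_num) (by norm_num [Finset.sum_range_succ, Nat.factorial]))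
      (by norm_num) (by norm_num)
  have m2 : ∀ z ∈ Icc (-1 / 2 : ℝ) (-81 / 200), 181 / 200 ≤ yv κ ((z + 1) * h) / h - yv κ (z * h) / h :=
    mu_piece (a := 1 / 2) (S := 199 / 400) (C := 199 / 1600) (l := 199 / 200) (τm := 11781 / 12500) (H₁ := 8537 / 12500) (mp := 430147 / 1000000) (mq := 8939 / 25000) hk1 h0 (by linarith)
      L5 (by norm_num) (by norm_num) (by norm_num) (fun τ a b => e4_7_6 hκ a b) (by linarith) (by linarith)
      (exp_le_bd (by norm_num) (by norm_num) (by norm_num [Finset.sum_range_succ, Nat.factorial])) (exp_le_bd (by norm_num) (by norm_num) (by norm_num [Finset.sum_range_succ, Nat.factorial]))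
      (by norm_num) (by norm_num)
  exact ⟨L10.weaken h0.le (by norm_num) (by norm_num), L7.weaken h0.le (by norm_num) (by norm_num),
    Line.f1R (τm := 93463 / 100000) hk1 h0 L6 (by norm_num) (by linarith) (by linarith) (by norm_num), mu_glue m1 m2⟩

/-- class 4_7: line at `1 + qL`, curvature up to `1 + qR` -/
theorem lr4_7 {κ h : ℝ} (hκ : 23 / 10 ≤ κ) (h0 : 0 < h) (hh : h ≤ 2 * π / 4) :
    Line κ h (1 + (-23 / 40)) (3383 / 8000) (57511 / 640000) ∧ (∀ τ, 0 ≤ τ → τ ≤ 11781 / 12500 → 199 / 200 ≤ lv κ τ) ∧ (1 + (-81 / 200)) * h ≤ (11781 / 12500) ∧ (11781 / 12500) < κ + π / 2 := by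
  have hk1 : 1 ≤ κ := by linarith
  have hp4 := Real.pi_lt_d4
  have hp3 := Real.pi_gt_d2
  have hhq : h ≤ 3927 / 2500 := by
    refine hh.trans ?_
    rw [div_le_iff₀ (by norm_num)]
    linarith
  have L1 : Line κ h (1 / 10) (199 / 2000) (199 / 40000) := Line.stepN (l := 199 / 200) (τm := 11781 / 12500) hk1 h0.le (Line.zero hk1) (by norm_num) (by norm_num)
    (fun τ a b => e4_7_6 hκ a b) (by linarith) (by linarith) (by norm_num) (by norm_num)
  have L2 : Line κ h (1 / 5) (199 / 1000) (199 / 10000) := Line.stepN (l := 199 / 200) (τm := 11781 / 12500) hk1 h0.le L1 (by norm_num) (by norm_num)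
    (fun τ a b => e4_7_6 hκ a b) (by linarith) (by linarith) (by norm_num) (by norm_num)
  have L3 : Line κ h (3 / 10) (597 / 2000) (1791 / 40000) := Line.stepN (l := 199 / 200) (τm := 11781 / 12500) hk1 h0.le L2 (by norm_num) (by norm_num)
    (fun τ a b => e4_7_6 hκ a b) (by linarith) (by linarith) (by norm_num) (by norm_num)
  have L4 : Line κ h (2 / 5) (199 / 500) (199 / 2500) := Line.stepN (l := 199 / 200) (τm := 11781 / 12500) hk1 h0.le L3 (by norm_num) (by norm_num)
    (fun τ a b => e4_7_6 hκ a b) (by linarith) (by linarith) (by norm_num) (by norm_num)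
  exact ⟨Line.stepN (l := 199 / 200) (τm := 11781 / 12500) hk1 h0.le L4 (by norm_num) (by norm_num)
    (fun τ a b => e4_7_6 hκ a b) (by linarith) (by linarith) (by norm_num) (by norm_num), fun τ a b => e4_7_6 hκ a b,
    by linarith, by linarith⟩

end R2

end Sok
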