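import Pool.Agent.Lib.MP_816dec_an.R2LineN

/-!
MP_816dec_an, row R2 (5), (6): the right lines of the classes b = 5, 6 (numbers of `R2Cls`).
-/

set_option autoImplicit false

open Set Filter Topology Real

namespace Sok

namespace R2

private theorem e5_1_1 {κ τ : ℝ} (hκ : 139 / 100 ≤ κ) (h0 : 0 ≤ τ) (hm : τ ≤ 12567 / 100000) : 97 / 100 ≤ lv κ τ :=
  lv_ge_num (κ₀ := 139 / 100) (y := 1177 / 20000) (Fl := 132577 / 125000) (Fh := 1060617 / 1000000) (xl := 130923 / 100000) (xh := 32731 / 25000) (τm := 12567 / 100000) (θ := 4491 / 100000)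
    (by norm_num) (by norm_num) (by norm_num)
    (exp_bds (by norm_num) (by norm_num) (by norm_num [Finset.sum_range_succ, Nat.factorial])
      (by norm_num [Finset.sum_range_succ, Nat.factorial]))
    (by norm_num) (by norm_num) (by norm_num) (by norm_num) (by norm_num) (by norm_num) (by norm_num) (by norm_num)
    (by norm_num) (by norm_num) (by norm_num) (by norm_num) hκ h0 hm

private theorem e5_1_2 {κ τ : ℝ} (hκ : 139 / 100 ≤ κ) (h0 : 0 ≤ τ) (hm : τ ≤ 25133 / 100000) : 187 / 200 ≤ lv κ τ :=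
  lv_ge_num (κ₀ := 139 / 100) (y := 11591 / 100000) (Fl := 561447 / 500000) (Fh := 224579 / 200000) (xl := 123243 / 100000) (xh := 30811 / 25000) (τm := 25133 / 100000) (θ := 9377 / 100000)
    (by norm_num) (by norm_num) (by norm_num)
    (exp_bds (by norm_num) (by norm_num) (by norm_num [Finset.sum_range_succ, Nat.factorial])
      (by norm_num [Finset.sum_range_succ, Nat.factorial]))
    (by norm_num) (by norm_num) (by norm_num) (by norm_num) (by norm_num) (by norm_num) (by norm_num) (by norm_num)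
    (by norm_num) (by norm_num) (by norm_num) (by norm_num) hκ h0 hm

private theorem e5_1_3 {κ τ : ℝ} (hκ : 139 / 100 ≤ κ) (h0 : 0 ≤ τ) (hm : τ ≤ 377 / 1000) : 179 / 200 ≤ lv κ τ :=
  lv_ge_num (κ₀ := 139 / 100) (y := 17079 / 100000) (Fl := 1186241 / 1000000) (Fh := 593121 / 500000) (xl := 4637 / 4000) (xh := 57963 / 50000) (τm := 377 / 1000) (θ := 14627 / 100000)
    (by norm_num) (by norm_num) (by norm_num)
    (exp_bds (by norm_num) (by norm_num) (by norm_num [Finset.sum_range_succ, Nat.factorial])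
      (by norm_num [Finset.sum_range_succ, Nat.factorial]))
    (by norm_num) (by norm_num) (by norm_num) (by norm_num) (by norm_num) (by norm_num) (by norm_num) (by norm_num)
    (by norm_num) (by norm_num) (by norm_num) (by norm_num) hκ h0 hm

private theorem e5_1_4 {κ τ : ℝ} (hκ : 139 / 100 ≤ κ) (h0 : 0 ≤ τ) (hm : τ ≤ 25133 / 50000) : 17 / 20 ≤ lv κ τ :=
  lv_ge_num (κ₀ := 139 / 100) (y := 4463 / 20000) (Fl := 156251 / 125000) (Fh := 1250009 / 1000000) (xl := 108937 / 100000) (xh := 54469 / 50000) (τm := 25133 / 50000) (θ := 5051 / 25000)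
    (by norm_num) (by norm_num) (by norm_num)
    (exp_bds (by norm_num) (by norm_num) (by norm_num [Finset.sum_range_succ, Nat.factorial])
      (by norm_num [Finset.sum_range_succ, Nat.factorial]))
    (by norm_num) (by norm_num) (by norm_num) (by norm_num) (by norm_num) (by norm_num) (by norm_num) (by norm_num)
    (by norm_num) (by norm_num) (by norm_num) (by norm_num) hκ h0 hm

private theorem e5_1_5 {κ τ : ℝ} (hκ : 139 / 100 ≤ κ) (h0 : 0 ≤ τ) (hm : τ ≤ 3927 / 6250) : 161 / 200 ≤ lv κ τ :=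
  lv_ge_num (κ₀ := 139 / 100) (y := 13639 / 50000) (Fl := 1313611 / 1000000) (Fh := 328403 / 250000) (xl := 51119 / 50000) (xh := 102239 / 100000) (τm := 3927 / 6250) (θ := 26073 / 100000)
    (by norm_num) (by norm_num) (by norm_num)
    (exp_bds (by norm_num) (by norm_num) (by norm_num [Finset.sum_range_succ, Nat.factorial])
      (by norm_num [Finset.sum_range_succ, Nat.factorial]))
    (by norm_num) (by norm_num) (by norm_num) (by norm_num) (by norm_num) (by norm_num) (by norm_num) (by norm_num)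
    (by norm_num) (by norm_num) (by norm_num) (by norm_num) hκ h0 hm

private theorem e5_1_6 {κ τ : ℝ} (hκ : 139 / 100 ≤ κ) (h0 : 0 ≤ τ) (hm : τ ≤ 75399 / 100000) : 151 / 200 ≤ lv κ τ :=
  lv_ge_num (κ₀ := 139 / 100) (y := 31953 / 100000) (Fl := 8603 / 6250) (Fh := 1376481 / 1000000) (xl := 95793 / 100000) (xh := 47897 / 50000) (τm := 75399 / 100000) (θ := 6439 / 20000)
    (by norm_num) (by norm_num) (by norm_num)
    (exp_bds (by norm_num) (by norm_num) (by norm_num [Finset.sum_range_succ, Nat.factorial])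
      (by norm_num [Finset.sum_range_succ, Nat.factorial]))
    (by norm_num) (by norm_num) (by norm_num) (by norm_num) (by norm_num) (by norm_num) (by norm_num) (by norm_num)
    (by norm_num) (by norm_num) (by norm_num) (by norm_num) hκ h0 hm

private theorem e5_1_7 {κ τ : ℝ} (hκ : 139 / 100 ≤ κ) (h0 : 0 ≤ τ) (hm : τ ≤ 17593 / 20000) : 141 / 200 ≤ lv κ τ :=
  lv_ge_num (κ₀ := 139 / 100) (y := 36331 / 100000) (Fl := 1438081 / 1000000) (Fh := 719041 / 500000) (xl := 2799 / 3125) (xh := 89569 / 100000) (τm := 17593 / 20000) (θ := 19267 / 50000)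
    (by norm_num) (by norm_num) (by norm_num)
    (exp_bds (by norm_num) (by norm_num) (by norm_num [Finset.sum_range_succ, Nat.factorial])
      (by norm_num [Finset.sum_range_succ, Nat.factorial]))
    (by norm_num) (by norm_num) (by norm_num) (by norm_num) (by norm_num) (by norm_num) (by norm_num) (by norm_num)
    (by norm_num) (by norm_num) (by norm_num) (by norm_num) hκ h0 hm

private theorem e5_1_8 {κ τ : ℝ} (hκ : 139 / 100 ≤ κ) (h0 : 0 ≤ τ) (hm : τ ≤ 25133 / 25000) : 131 / 200 ≤ lv κ τ :=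
  lv_ge_num (κ₀ := 139 / 100) (y := 40413 / 100000) (Fl := 748999 / 500000) (Fh := 1497999 / 1000000) (xl := 83527 / 100000) (xh := 10441 / 12500) (τm := 25133 / 25000) (θ := 22531 / 50000)
    (by norm_num) (by norm_num) (by norm_num)
    (exp_bds (by norm_num) (by norm_num) (by norm_num [Finset.sum_range_succ, Nat.factorial])
      (by norm_num [Finset.sum_range_succ, Nat.factorial]))
    (by norm_num) (by norm_num) (by norm_num) (by norm_num) (by norm_num) (by norm_num) (by norm_num) (by norm_num)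
    (by norm_num) (by norm_num) (by norm_num) (by norm_num) hκ h0 hm

private theorem e5_1_9 {κ τ : ℝ} (hκ : 139 / 100 ≤ κ) (h0 : 0 ≤ τ) (hm : τ ≤ 56549 / 50000) : 121 / 200 ≤ lv κ τ :=
  lv_ge_num (κ₀ := 139 / 100) (y := 44197 / 100000) (Fl := 1555769 / 1000000) (Fh := 155577 / 100000) (xl := 77647 / 100000) (xh := 4853 / 6250) (τm := 56549 / 50000) (θ := 25873 / 50000)
    (by norm_num) (by norm_num) (by norm_num)
    (exp_bds (by norm_num) (by norm_num) (by norm_num [Finset.sum_range_succ, Nat.factorial])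
      (by norm_num [Finset.sum_range_succ, Nat.factorial]))
    (by norm_num) (by norm_num) (by norm_num) (by norm_num) (by norm_num) (by norm_num) (by norm_num) (by norm_num)
    (by norm_num) (by norm_num) (by norm_num) (by norm_num) hκ h0 hm

private theorem e5_1_10 {κ τ : ℝ} (hκ : 139 / 100 ≤ κ) (h0 : 0 ≤ τ) (hm : τ ≤ 3927 / 3125) : 14 / 25 ≤ lv κ τ :=
  lv_ge_num (κ₀ := 139 / 100) (y := 4769 / 10000) (Fl := 25173 / 15625) (Fh := 1611073 / 1000000) (xl := 71899 / 100000) (xh := 719 / 1000) (τm := 3927 / 3125) (θ := 11713 / 20000)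
    (by norm_num) (by norm_num) (by norm_num)
    (exp_bds (by norm_num) (by norm_num) (by norm_num [Finset.sum_range_succ, Nat.factorial])
      (by norm_num [Finset.sum_range_succ, Nat.factorial]))
    (by norm_num) (by norm_num) (by norm_num) (by norm_num) (by norm_num) (by norm_num) (by norm_num) (by norm_num)
    (by norm_num) (by norm_num) (by norm_num) (by norm_num) hκ h0 hm

/-- class 5_1: `b = 5`, `κ ≥ 139 / 100` -/
theorem ld5_1 {κ h : ℝ} (hκ : 139 / 100 ≤ κ) (h0 : 0 < h) (hh : h ≤ 2 * π / 5) :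
    LineData κ h 1 (1547 / 2000) (697 / 2000) (1183 / 2000) (39 / 200) (-11 / 20) (-21 / 50) (383 / 2500) (17 / 20) := by
  have hk1 : 1 ≤ κ := by linarith
  have hp4 := Real.pi_lt_d4
  have hp3 := Real.pi_gt_d2
  have hhq : h ≤ 3927 / 3125 := by
    refine hh.trans ?_
    rw [div_le_iff₀ (by norm_num)]
    linarith
  have L1 : Line κ h (1 / 10) (97 / 1000) (97 / 20000) := Line.stepN (l := 97 / 100) (τm := 12567 / 100000) hk1 h0.le (Line.zero hk1) (by norm_num) (by norm_num)
    (fun τ a b => e5_1_1 hκ a b) (by linarith) (by linarith) (by norm_num) (by norm_num)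
  have L2 : Line κ h (1 / 5) (381 / 2000) (151 / 8000) := Line.stepN (l := 187 / 200) (τm := 25133 / 100000) hk1 h0.le L1 (by norm_num) (by norm_num)
    (fun τ a b => e5_1_2 hκ a b) (by linarith) (by linarith) (by norm_num) (by norm_num)
  have L3 : Line κ h (3 / 10) (7 / 25) (33 / 800) := Line.stepN (l := 179 / 200) (τm := 377 / 1000) hk1 h0.le L2 (by norm_num) (by norm_num)
    (fun τ a b => e5_1_3 hκ a b) (by linarith) (by linarith) (by norm_num) (by norm_num)
  have L4 : Line κ h (2 / 5) (73 / 200) (71 / 1000) := Line.stepN (l := 17 / 20) (τm := 25133 / 50000) hk1 h0.le L3 (by norm_num) (by norm_num)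
    (fun τ a b => e5_1_4 hκ a b) (by linarith) (by linarith) (by norm_num) (by norm_num)
  have L5 : Line κ h (1 / 2) (891 / 2000) (4289 / 40000) := Line.stepN (l := 161 / 200) (τm := 3927 / 6250) hk1 h0.le L4 (by norm_num) (by norm_num)
    (fun τ a b => e5_1_5 hκ a b) (by linarith) (by linarith) (by norm_num) (by norm_num)
  have L6 : Line κ h (3 / 5) (521 / 1000) (119 / 800) := Line.stepN (l := 151 / 200) (τm := 75399 / 100000) hk1 h0.le L5 (by norm_num) (by norm_num)
    (fun τ a b => e5_1_6 hκ a b) (by linarith) (by linarith) (by norm_num) (by norm_num)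
  have L7 : Line κ h (7 / 10) (1183 / 2000) (7783 / 40000) := Line.stepN (l := 141 / 200) (τm := 17593 / 20000) hk1 h0.le L6 (by norm_num) (by norm_num)
    (fun τ a b => e5_1_7 hκ a b) (by linarith) (by linarith) (by norm_num) (by norm_num)
  have L8 : Line κ h (4 / 5) (657 / 1000) (2437 / 10000) := Line.stepN (l := 131 / 200) (τm := 25133 / 25000) hk1 h0.le L7 (by norm_num) (by norm_num)
    (fun τ a b => e5_1_8 hκ a b) (by linarith) (by linarith) (by norm_num) (by norm_num)
  have L9 : Line κ h (9 / 10) (287 / 400) (2361 / 8000) := Line.stepN (l := 121 / 200) (τm := 56549 / 50000) hk1 h0.le L8 (by norm_num) (by norm_num)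
    (fun τ a b => e5_1_9 hκ a b) (by linarith) (by linarith) (by norm_num) (by norm_num)
  have L10 : Line κ h 1 (1547 / 2000) (13933 / 40000) := Line.stepN (l := 14 / 25) (τm := 3927 / 3125) hk1 h0.le L9 (by norm_num) (by norm_num)
    (fun τ a b => e5_1_10 hκ a b) (by linarith) (by linarith) (by norm_num) (by norm_num)
  have m1 : ∀ z ∈ Icc (-11 / 20 : ℝ) (-1 / 2), 17 / 20 ≤ yv κ ((z + 1) * h) / h - yv κ (z * h) / h :=
    mu_piece (a := 2 / 5) (S := 73 / 200) (C := 71 / 1000) (l := 161 / 200) (τm := 3927 / 6250) (H₁ := 45203 / 50000) (mp := 446451 / 1000000) (mq := 412541 / 1000000) hk1 h0 (by linarith)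
      L4 (by norm_num) (by norm_num) (by norm_num) (fun τ a b => e5_1_5 hκ a b) (by linarith) (by linarith)
      (exp_le_bd (by norm_num) (by norm_num) (by norm_num [Finset.sum_range_succ, Nat.factorial])) (exp_le_bd (by norm_num) (by norm_num) (by norm_num [Finset.sum_range_succ, Nat.factorial]))
      (by norm_num) (by norm_num)
  have m2 : ∀ z ∈ Icc (-1 / 2 : ℝ) (-21 / 50), 17 / 20 ≤ yv κ ((z + 1) * h) / h - yv κ (z * h) / h :=
    mu_piece (a := 1 / 2) (S := 891 / 2000) (C := 4289 / 40000) (l := 151 / 200) (τm := 75399 / 100000) (H₁ := 45203 / 50000) (mp := 412541 / 1000000) (mq := 356027 / 1000000) hk1 h0 (by linarith)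
      L5 (by norm_num) (by norm_num) (by norm_num) (fun τ a b => e5_1_6 hκ a b) (by linarith) (by linarith)
      (exp_le_bd (by norm_num) (by norm_num) (by norm_num [Finset.sum_range_succ, Nat.factorial])) (exp_le_bd (by norm_num) (by norm_num) (by norm_num [Finset.sum_range_succ, Nat.factorial]))
      (by norm_num) (by norm_num)
  exact ⟨L10.weaken h0.le (by norm_num) (by norm_num), L7.weaken h0.le (by norm_num) (by norm_num),
    Line.f1R (τm := 36443 / 50000) hk1 h0 L6 (by norm_num) (by linarith) (by linarith) (by norm_num), mu_glue m1 m2⟩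

/-- class 5_1: line at `1 + qL`, curvature up to `1 + qR` -/
theorem lr5_1 {κ h : ℝ} (hκ : 139 / 100 ≤ κ) (h0 : 0 < h) (hh : h ≤ 2 * π / 5) :
    Line κ h (1 + (-11 / 20)) (1621 / 4000) (14097 / 160000) ∧ (∀ τ, 0 ≤ τ → τ ≤ 75399 / 100000 → 151 / 200 ≤ lv κ τ) ∧ (1 + (-21 / 50)) * h ≤ (75399 / 100000) ∧ (75399 / 100000) < κ + π / 2 := by
  have hk1 : 1 ≤ κ := by linarith
  have hp4 := Real.pi_lt_d4
  have hp3 := Real.pi_gt_d2
  have hhq : h ≤ 3927 / 3125 := by
    refine hh.trans ?_
    rw [div_le_iff₀ (by norm_num)]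
    linarith
  have L1 : Line κ h (1 / 10) (97 / 1000) (97 / 20000) := Line.stepN (l := 97 / 100) (τm := 12567 / 100000) hk1 h0.le (Line.zero hk1) (by norm_num) (by norm_num)
    (fun τ a b => e5_1_1 hκ a b) (by linarith) (by linarith) (by norm_num) (by norm_num)
  have L2 : Line κ h (1 / 5) (381 / 2000) (151 / 8000) := Line.stepN (l := 187 / 200) (τm := 25133 / 100000) hk1 h0.le L1 (by norm_num) (by norm_num)
    (fun τ a b => e5_1_2 hκ a b) (by linarith) (by linarith) (by norm_num) (by norm_num)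
  have L3 : Line κ h (3 / 10) (7 / 25) (33 / 800) := Line.stepN (l := 179 / 200) (τm := 377 / 1000) hk1 h0.le L2 (by norm_num) (by norm_num)
    (fun τ a b => e5_1_3 hκ a b) (by linarith) (by linarith) (by norm_num) (by norm_num)
  have L4 : Line κ h (2 / 5) (73 / 200) (71 / 1000) := Line.stepN (l := 17 / 20) (τm := 25133 / 50000) hk1 h0.le L3 (by norm_num) (by norm_num)
    (fun τ a b => e5_1_4 hκ a b) (by linarith) (by linarith) (by norm_num) (by norm_num)
  exact ⟨Line.stepN (l := 161 / 200) (τm := 3927 / 6250) hk1 h0.le L4 (by norm_num) (by norm_num)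
    (fun τ a b => e5_1_5 hκ a b) (by linarith) (by linarith) (by norm_num) (by norm_num), fun τ a b => e5_1_6 hκ a b,
    by linarith, by linarith⟩

private theorem e5_2_1 {κ τ : ℝ} (hκ : 71 / 50 ≤ κ) (h0 : 0 ≤ τ) (hm : τ ≤ 12567 / 100000) : 97 / 100 ≤ lv κ τ :=
  lv_ge_num (κ₀ := 71 / 50) (y := 1463 / 25000) (Fl := 530133 / 500000) (Fh := 1060267 / 1000000) (xl := 669 / 500) (xh := 133801 / 100000) (τm := 12567 / 100000) (θ := 437 / 10000)
    (by norm_num) (by norm_num) (by norm_num)
    (exp_bds (by norm_num) (by norm_num) (by norm_num [Finset.sum_range_succ, Nat.factorial])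
      (by norm_num [Finset.sum_range_succ, Nat.factorial]))
    (by norm_num) (by norm_num) (by norm_num) (by norm_num) (by norm_num) (by norm_num) (by norm_num) (by norm_num)
    (by norm_num) (by norm_num) (by norm_num) (by norm_num) hκ h0 hm

private theorem e5_2_2 {κ τ : ℝ} (hκ : 71 / 50 ≤ κ) (h0 : 0 ≤ τ) (hm : τ ≤ 25133 / 100000) : 47 / 50 ≤ lv κ τ :=
  lv_ge_num (κ₀ := 71 / 50) (y := 11539 / 100000) (Fl := 1122311 / 1000000) (Fh := 140289 / 125000) (xl := 125997 / 100000) (xh := 62999 / 50000) (τm := 25133 / 100000) (θ := 2283 / 25000)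
    (by norm_num) (by norm_num) (by norm_num)
    (exp_bds (by norm_num) (by norm_num) (by norm_num [Finset.sum_range_succ, Nat.factorial])
      (by norm_num [Finset.sum_range_succ, Nat.factorial]))
    (by norm_num) (by norm_num) (by norm_num) (by norm_num) (by norm_num) (by norm_num) (by norm_num) (by norm_num)
    (by norm_num) (by norm_num) (by norm_num) (by norm_num) hκ h0 hm

private theorem e5_2_3 {κ τ : ℝ} (hκ : 71 / 50 ≤ κ) (h0 : 0 ≤ τ) (hm : τ ≤ 377 / 1000) : 181 / 200 ≤ lv κ τ :=
  lv_ge_num (κ₀ := 71 / 50) (y := 8511 / 50000) (Fl := 237113 / 200000) (Fh := 592783 / 500000) (xl := 59279 / 50000) (xh := 118559 / 100000) (τm := 377 / 1000) (θ := 14259 / 100000)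
    (by norm_num) (by norm_num) (by norm_num)
    (exp_bds (by norm_num) (by norm_num) (by norm_num [Finset.sum_range_succ, Nat.factorial])
      (by norm_num [Finset.sum_range_succ, Nat.factorial]))
    (by norm_num) (by norm_num) (by norm_num) (by norm_num) (by norm_num) (by norm_num) (by norm_num) (by norm_num)
    (by norm_num) (by norm_num) (by norm_num) (by norm_num) hκ h0 hm

private theorem e5_2_4 {κ τ : ℝ} (hκ : 71 / 50 ≤ κ) (h0 : 0 ≤ τ) (hm : τ ≤ 25133 / 50000) : 43 / 50 ≤ lv κ τ :=
  lv_ge_num (κ₀ := 71 / 50) (y := 22267 / 100000) (Fl := 19522 / 15625) (Fh := 1249409 / 1000000) (xl := 111451 / 100000) (xh := 27863 / 25000) (τm := 25133 / 50000) (θ := 19719 / 100000)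
    (by norm_num) (by norm_num) (by norm_num)
    (exp_bds (by norm_num) (by norm_num) (by norm_num [Finset.sum_range_succ, Nat.factorial])
      (by norm_num [Finset.sum_range_succ, Nat.factorial]))
    (by norm_num) (by norm_num) (by norm_num) (by norm_num) (by norm_num) (by norm_num) (by norm_num) (by norm_num)
    (by norm_num) (by norm_num) (by norm_num) (by norm_num) hκ h0 hm

private theorem e5_2_5 {κ τ : ℝ} (hκ : 71 / 50 ≤ κ) (h0 : 0 ≤ τ) (hm : τ ≤ 3927 / 6250) : 163 / 200 ≤ lv κ τ :=
  lv_ge_num (κ₀ := 71 / 50) (y := 27249 / 100000) (Fl := 131323 / 100000) (Fh := 1313231 / 1000000) (xl := 654 / 625) (xh := 104641 / 100000) (τm := 3927 / 6250) (θ := 12737 / 50000)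
    (by norm_num) (by norm_num) (by norm_num)
    (exp_bds (by norm_num) (by norm_num) (by norm_num [Finset.sum_range_succ, Nat.factorial])
      (by norm_num [Finset.sum_range_succ, Nat.factorial]))
    (by norm_num) (by norm_num) (by norm_num) (by norm_num) (by norm_num) (by norm_num) (by norm_num) (by norm_num)
    (by norm_num) (by norm_num) (by norm_num) (by norm_num) hκ h0 hm

private theorem e5_2_6 {κ τ : ℝ} (hκ : 71 / 50 ≤ κ) (h0 : 0 ≤ τ) (hm : τ ≤ 75399 / 100000) : 153 / 200 ≤ lv κ τ :=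
  lv_ge_num (κ₀ := 71 / 50) (y := 1997 / 6250) (Fl := 688233 / 500000) (Fh := 1376467 / 1000000) (xl := 98089 / 100000) (xh := 9809 / 10000) (τm := 75399 / 100000) (θ := 3149 / 10000)
    (by norm_num) (by norm_num) (by norm_num)
    (exp_bds (by norm_num) (by norm_num) (by norm_num [Finset.sum_range_succ, Nat.factorial])
      (by norm_num [Finset.sum_range_succ, Nat.factorial]))
    (by norm_num) (by norm_num) (by norm_num) (by norm_num) (by norm_num) (by norm_num) (by norm_num) (by norm_num)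
    (by norm_num) (by norm_num) (by norm_num) (by norm_num) hκ h0 hm

private theorem e5_2_7 {κ τ : ℝ} (hκ : 71 / 50 ≤ κ) (h0 : 0 ≤ τ) (hm : τ ≤ 17593 / 20000) : 143 / 200 ≤ lv κ τ :=
  lv_ge_num (κ₀ := 71 / 50) (y := 18183 / 50000) (Fl := 287717 / 200000) (Fh := 719293 / 500000) (xl := 22941 / 25000) (xh := 18353 / 20000) (τm := 17593 / 20000) (θ := 3773 / 10000)
    (by norm_num) (by norm_num) (by norm_num)
    (exp_bds (by norm_num) (by norm_num) (by norm_num [Finset.sum_range_succ, Nat.factorial])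
      (by norm_num [Finset.sum_range_succ, Nat.factorial]))
    (by norm_num) (by norm_num) (by norm_num) (by norm_num) (by norm_num) (by norm_num) (by norm_num) (by norm_num)
    (by norm_num) (by norm_num) (by norm_num) (by norm_num) hκ h0 hm

private theorem e5_2_8 {κ τ : ℝ} (hκ : 71 / 50 ≤ κ) (h0 : 0 ≤ τ) (hm : τ ≤ 25133 / 25000) : 133 / 200 ≤ lv κ τ :=
  lv_ge_num (κ₀ := 71 / 50) (y := 5061 / 12500) (Fl := 749561 / 500000) (Fh := 1499123 / 1000000) (xl := 2676 / 3125) (xh := 85633 / 100000) (τm := 25133 / 25000) (θ := 8833 / 20000)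
    (by norm_num) (by norm_num) (by norm_num)
    (exp_bds (by norm_num) (by norm_num) (by norm_num [Finset.sum_range_succ, Nat.factorial])
      (by norm_num [Finset.sum_range_succ, Nat.factorial]))
    (by norm_num) (by norm_num) (by norm_num) (by norm_num) (by norm_num) (by norm_num) (by norm_num) (by norm_num)
    (by norm_num) (by norm_num) (by norm_num) (by norm_num) hκ h0 hm

private theorem e5_2_9 {κ τ : ℝ} (hκ : 71 / 50 ≤ κ) (h0 : 0 ≤ τ) (hm : τ ≤ 56549 / 50000) : 31 / 50 ≤ lv κ τ :=
  lv_ge_num (κ₀ := 71 / 50) (y := 22159 / 50000) (Fl := 389413 / 250000) (Fh := 1557653 / 1000000) (xl := 15933 / 20000) (xh := 39833 / 50000) (τm := 56549 / 50000) (θ := 25383 / 50000)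
    (by norm_num) (by norm_num) (by norm_num)
    (exp_bds (by norm_num) (by norm_num) (by norm_num [Finset.sum_range_succ, Nat.factorial])
      (by norm_num [Finset.sum_range_succ, Nat.factorial]))
    (by norm_num) (by norm_num) (by norm_num) (by norm_num) (by norm_num) (by norm_num) (by norm_num) (by norm_num)
    (by norm_num) (by norm_num) (by norm_num) (by norm_num) hκ h0 hm

private theorem e5_2_10 {κ τ : ℝ} (hκ : 71 / 50 ≤ κ) (h0 : 0 ≤ τ) (hm : τ ≤ 3927 / 3125) : 57 / 100 ≤ lv κ τ :=
  lv_ge_num (κ₀ := 71 / 50) (y := 23929 / 50000) (Fl := 1613781 / 1000000) (Fh := 806891 / 500000) (xl := 73839 / 100000) (xh := 923 / 1250) (τm := 3927 / 3125) (θ := 11501 / 20000)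
    (by norm_num) (by norm_num) (by norm_num)
    (exp_bds (by norm_num) (by norm_num) (by norm_num [Finset.sum_range_succ, Nat.factorial])
      (by norm_num [Finset.sum_range_succ, Nat.factorial]))
    (by norm_num) (by norm_num) (by norm_num) (by norm_num) (by norm_num) (by norm_num) (by norm_num) (by norm_num)
    (by norm_num) (by norm_num) (by norm_num) (by norm_num) hκ h0 hm

/-- class 5_2: `b = 5`, `κ ≥ 71 / 50` -/
theorem ld5_2 {κ h : ℝ} (hκ : 71 / 50 ≤ κ) (h0 : 0 < h) (hh : h ≤ 2 * π / 5) :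
    LineData κ h 1 (313 / 400) (177 / 500) (597 / 1000) (197 / 1000) (-11 / 20) (-21 / 50) (1541 / 10000) (171 / 200) := by
  have hk1 : 1 ≤ κ := by linarith
  have hp4 := Real.pi_lt_d4
  have hp3 := Real.pi_gt_d2
  have hhq : h ≤ 3927 / 3125 := by
    refine hh.trans ?_
    rw [div_le_iff₀ (by norm_num)]
    linarith
  have L1 : Line κ h (1 / 10) (97 / 1000) (97 / 20000) := Line.stepN (l := 97 / 100) (τm := 12567 / 100000) hk1 h0.le (Line.zero hk1) (by norm_num) (by norm_num)
    (fun τ a b => e5_2_1 hκ a b) (by linarith) (by linarith) (by norm_num) (by norm_num)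
  have L2 : Line κ h (1 / 5) (191 / 1000) (379 / 20000) := Line.stepN (l := 47 / 50) (τm := 25133 / 100000) hk1 h0.le L1 (by norm_num) (by norm_num)
    (fun τ a b => e5_2_2 hκ a b) (by linarith) (by linarith) (by norm_num) (by norm_num)
  have L3 : Line κ h (3 / 10) (563 / 2000) (1663 / 40000) := Line.stepN (l := 181 / 200) (τm := 377 / 1000) hk1 h0.le L2 (by norm_num) (by norm_num)
    (fun τ a b => e5_2_3 hκ a b) (by linarith) (by linarith) (by norm_num) (by norm_num)
  have L4 : Line κ h (2 / 5) (147 / 400) (2867 / 40000) := Line.stepN (l := 43 / 50) (τm := 25133 / 50000) hk1 h0.le L3 (by norm_num) (by norm_num)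
    (fun τ a b => e5_2_4 hκ a b) (by linarith) (by linarith) (by norm_num) (by norm_num)
  have L5 : Line κ h (1 / 2) (449 / 1000) (2167 / 20000) := Line.stepN (l := 163 / 200) (τm := 3927 / 6250) hk1 h0.le L4 (by norm_num) (by norm_num)
    (fun τ a b => e5_2_5 hκ a b) (by linarith) (by linarith) (by norm_num) (by norm_num)
  have L6 : Line κ h (3 / 5) (1051 / 2000) (6017 / 40000) := Line.stepN (l := 153 / 200) (τm := 75399 / 100000) hk1 h0.le L5 (by norm_num) (by norm_num)
    (fun τ a b => e5_2_6 hκ a b) (by linarith) (by linarith) (by norm_num) (by norm_num)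
  have L7 : Line κ h (7 / 10) (597 / 1000) (1969 / 10000) := Line.stepN (l := 143 / 200) (τm := 17593 / 20000) hk1 h0.le L6 (by norm_num) (by norm_num)
    (fun τ a b => e5_2_7 hκ a b) (by linarith) (by linarith) (by norm_num) (by norm_num)
  have L8 : Line κ h (4 / 5) (1327 / 2000) (9871 / 40000) := Line.stepN (l := 133 / 200) (τm := 25133 / 25000) hk1 h0.le L7 (by norm_num) (by norm_num)
    (fun τ a b => e5_2_8 hκ a b) (by linarith) (by linarith) (by norm_num) (by norm_num)
  have L9 : Line κ h (9 / 10) (1451 / 2000) (11979 / 40000) := Line.stepN (l := 31 / 50) (τm := 56549 / 50000) hk1 h0.le L8 (by norm_num) (by norm_num)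
    (fun τ a b => e5_2_9 hκ a b) (by linarith) (by linarith) (by norm_num) (by norm_num)
  have L10 : Line κ h 1 (313 / 400) (2829 / 8000) := Line.stepN (l := 57 / 100) (τm := 3927 / 3125) hk1 h0.le L9 (by norm_num) (by norm_num)
    (fun τ a b => e5_2_10 hκ a b) (by linarith) (by linarith) (by norm_num) (by norm_num)
  have m1 : ∀ z ∈ Icc (-11 / 20 : ℝ) (-1 / 2), 171 / 200 ≤ yv κ ((z + 1) * h) / h - yv κ (z * h) / h :=
    mu_piece (a := 2 / 5) (S := 147 / 400) (C := 2867 / 40000) (l := 163 / 200) (τm := 3927 / 6250) (H₁ := 5531 / 6250) (mp := 44813 / 100000) (mq := 413989 / 1000000) hk1 h0 (by linarith)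
      L4 (by norm_num) (by norm_num) (by norm_num) (fun τ a b => e5_2_5 hκ a b) (by linarith) (by linarith)
      (exp_le_bd (by norm_num) (by norm_num) (by norm_num [Finset.sum_range_succ, Nat.factorial])) (exp_le_bd (by norm_num) (by norm_num) (by norm_num [Finset.sum_range_succ, Nat.factorial]))
      (by norm_num) (by norm_num)
  have m2 : ∀ z ∈ Icc (-1 / 2 : ℝ) (-21 / 50), 171 / 200 ≤ yv κ ((z + 1) * h) / h - yv κ (z * h) / h :=
    mu_piece (a := 1 / 2) (S := 449 / 1000) (C := 2167 / 20000) (l := 153 / 200) (τm := 75399 / 100000) (H₁ := 5531 / 6250) (mp := 413989 / 1000000) (mq := 357121 / 1000000) hk1 h0 (by linarith)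
      L5 (by norm_num) (by norm_num) (by norm_num) (fun τ a b => e5_2_6 hκ a b) (by linarith) (by linarith)
      (exp_le_bd (by norm_num) (by norm_num) (by norm_num [Finset.sum_range_succ, Nat.factorial])) (exp_le_bd (by norm_num) (by norm_num) (by norm_num [Finset.sum_range_succ, Nat.factorial]))
      (by norm_num) (by norm_num)
  exact ⟨L10.weaken h0.le (by norm_num) (by norm_num), L7.weaken h0.le (by norm_num) (by norm_num),
    Line.f1R (τm := 36443 / 50000) hk1 h0 L6 (by norm_num) (by linarith) (by linarith) (by norm_num), mu_glue m1 m2⟩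

/-- class 5_2: line at `1 + qL`, curvature up to `1 + qR` -/
theorem lr5_2 {κ h : ℝ} (hκ : 71 / 50 ≤ κ) (h0 : 0 < h) (hh : h ≤ 2 * π / 5) :
    Line κ h (1 + (-11 / 20)) (1633 / 4000) (14239 / 160000) ∧ (∀ τ, 0 ≤ τ → τ ≤ 75399 / 100000 → 153 / 200 ≤ lv κ τ) ∧ (1 + (-21 / 50)) * h ≤ (75399 / 100000) ∧ (75399 / 100000) < κ + π / 2 := by
  have hk1 : 1 ≤ κ := by linarith
  have hp4 := Real.pi_lt_d4
  have hp3 := Real.pi_gt_d2
  have hhq : h ≤ 3927 / 3125 := by
    refine hh.trans ?_
    rw [div_le_iff₀ (by norm_num)]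
    linarith
  have L1 : Line κ h (1 / 10) (97 / 1000) (97 / 20000) := Line.stepN (l := 97 / 100) (τm := 12567 / 100000) hk1 h0.le (Line.zero hk1) (by norm_num) (by norm_num)
    (fun τ a b => e5_2_1 hκ a b) (by linarith) (by linarith) (by norm_num) (by norm_num)
  have L2 : Line κ h (1 / 5) (191 / 1000) (379 / 20000) := Line.stepN (l := 47 / 50) (τm := 25133 / 100000) hk1 h0.le L1 (by norm_num) (by norm_num)
    (fun τ a b => e5_2_2 hκ a b) (by linarith) (by linarith) (by norm_num) (by norm_num)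
  have L3 : Line κ h (3 / 10) (563 / 2000) (1663 / 40000) := Line.stepN (l := 181 / 200) (τm := 377 / 1000) hk1 h0.le L2 (by norm_num) (by norm_num)
    (fun τ a b => e5_2_3 hκ a b) (by linarith) (by linarith) (by norm_num) (by norm_num)
  have L4 : Line κ h (2 / 5) (147 / 400) (2867 / 40000) := Line.stepN (l := 43 / 50) (τm := 25133 / 50000) hk1 h0.le L3 (by norm_num) (by norm_num)
    (fun τ a b => e5_2_4 hκ a b) (by linarith) (by linarith) (by norm_num) (by norm_num)
  exact ⟨Line.stepN (l := 163 / 200) (τm := 3927 / 6250) hk1 h0.le L4 (by norm_num) (by norm_num)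
    (fun τ a b => e5_2_5 hκ a b) (by linarith) (by linarith) (by norm_num) (by norm_num), fun τ a b => e5_2_6 hκ a b,
    by linarith, by linarith⟩

private theorem e5_3_1 {κ τ : ℝ} (hκ : 37 / 25 ≤ κ) (h0 : 0 ≤ τ) (hm : τ ≤ 12567 / 100000) : 39 / 40 ≤ lv κ τ :=
  lv_ge_num (κ₀ := 37 / 25) (y := 5779 / 100000) (Fl := 264873 / 250000) (Fh := 1059493 / 1000000) (xl := 139569 / 100000) (xh := 13957 / 10000) (τm := 12567 / 100000) (θ := 2069 / 50000)
    (by norm_num) (by norm_num) (by norm_num)
    (exp_bds (by norm_num) (by norm_num) (by norm_num [Finset.sum_range_succ, Nat.factorial])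
      (by norm_num [Finset.sum_range_succ, Nat.factorial]))
    (by norm_num) (by norm_num) (by norm_num) (by norm_num) (by norm_num) (by norm_num) (by norm_num) (by norm_num)
    (by norm_num) (by norm_num) (by norm_num) (by norm_num) hκ h0 hm

private theorem e5_3_2 {κ τ : ℝ} (hκ : 37 / 25 ≤ κ) (h0 : 0 ≤ τ) (hm : τ ≤ 25133 / 100000) : 19 / 20 ≤ lv κ τ :=
  lv_ge_num (κ₀ := 37 / 25) (y := 11423 / 100000) (Fl := 1121009 / 1000000) (Fh := 112101 / 100000) (xl := 16441 / 12500) (xh := 131529 / 100000) (τm := 25133 / 100000) (θ := 4331 / 50000)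
    (by norm_num) (by norm_num) (by norm_num)
    (exp_bds (by norm_num) (by norm_num) (by norm_num [Finset.sum_range_succ, Nat.factorial])
      (by norm_num [Finset.sum_range_succ, Nat.factorial]))
    (by norm_num) (by norm_num) (by norm_num) (by norm_num) (by norm_num) (by norm_num) (by norm_num) (by norm_num)
    (by norm_num) (by norm_num) (by norm_num) (by norm_num) hκ h0 hm

private theorem e5_3_3 {κ τ : ℝ} (hκ : 37 / 25 ≤ κ) (h0 : 0 ≤ τ) (hm : τ ≤ 377 / 1000) : 183 / 200 ≤ lv κ τ :=
  lv_ge_num (κ₀ := 37 / 25) (y := 16891 / 100000) (Fl := 1184013 / 1000000) (Fh := 592007 / 500000) (xl := 30963 / 25000) (xh := 123853 / 100000) (τm := 377 / 1000) (θ := 6777 / 50000)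
    (by norm_num) (by norm_num) (by norm_num)
    (exp_bds (by norm_num) (by norm_num) (by norm_num [Finset.sum_range_succ, Nat.factorial])
      (by norm_num [Finset.sum_range_succ, Nat.factorial]))
    (by norm_num) (by norm_num) (by norm_num) (by norm_num) (by norm_num) (by norm_num) (by norm_num) (by norm_num)
    (by norm_num) (by norm_num) (by norm_num) (by norm_num) hκ h0 hm

private theorem e5_3_4 {κ τ : ℝ} (hκ : 37 / 25 ≤ κ) (h0 : 0 ≤ τ) (hm : τ ≤ 25133 / 50000) : 7 / 8 ≤ lv κ τ :=
  lv_ge_num (κ₀ := 37 / 25) (y := 4429 / 20000) (Fl := 311971 / 250000) (Fh := 249577 / 200000) (xl := 58257 / 50000) (xh := 23303 / 20000) (τm := 25133 / 50000) (θ := 9391 / 50000)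
    (by norm_num) (by norm_num) (by norm_num)
    (exp_bds (by norm_num) (by norm_num) (by norm_num [Finset.sum_range_succ, Nat.factorial])
      (by norm_num [Finset.sum_range_succ, Nat.factorial]))
    (by norm_num) (by norm_num) (by norm_num) (by norm_num) (by norm_num) (by norm_num) (by norm_num) (by norm_num)
    (by norm_num) (by norm_num) (by norm_num) (by norm_num) hκ h0 hm

private theorem e5_3_5 {κ τ : ℝ} (hκ : 37 / 25 ≤ κ) (h0 : 0 ≤ τ) (hm : τ ≤ 3927 / 6250) : 167 / 200 ≤ lv κ τ :=
  lv_ge_num (κ₀ := 37 / 25) (y := 27159 / 100000) (Fl := 82003 / 62500) (Fh := 1312049 / 1000000) (xl := 54741 / 50000) (xh := 109483 / 100000) (τm := 3927 / 6250) (θ := 4863 / 20000)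
    (by norm_num) (by norm_num) (by norm_num)
    (exp_bds (by norm_num) (by norm_num) (by norm_num [Finset.sum_range_succ, Nat.factorial])
      (by norm_num [Finset.sum_range_succ, Nat.factorial]))
    (by norm_num) (by norm_num) (by norm_num) (by norm_num) (by norm_num) (by norm_num) (by norm_num) (by norm_num)
    (by norm_num) (by norm_num) (by norm_num) (by norm_num) hκ h0 hm

private theorem e5_3_6 {κ τ : ℝ} (hκ : 37 / 25 ≤ κ) (h0 : 0 ≤ τ) (hm : τ ≤ 75399 / 100000) : 79 / 100 ≤ lv κ τ :=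
  lv_ge_num (κ₀ := 37 / 25) (y := 3989 / 12500) (Fl := 343979 / 250000) (Fh := 1375917 / 1000000) (xl := 102721 / 100000) (xh := 51361 / 50000) (τm := 75399 / 100000) (θ := 30121 / 100000)
    (by norm_num) (by norm_num) (by norm_num)
    (exp_bds (by norm_num) (by norm_num) (by norm_num [Finset.sum_range_succ, Nat.factorial])
      (by norm_num [Finset.sum_range_succ, Nat.factorial]))
    (by norm_num) (by norm_num) (by norm_num) (by norm_num) (by norm_num) (by norm_num) (by norm_num) (by norm_num)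
    (by norm_num) (by norm_num) (by norm_num) (by norm_num) hκ h0 hm

private theorem e5_3_7 {κ τ : ℝ} (hκ : 37 / 25 ≤ κ) (h0 : 0 ≤ τ) (hm : τ ≤ 17593 / 20000) : 37 / 50 ≤ lv κ τ :=
  lv_ge_num (κ₀ := 37 / 25) (y := 4549 / 12500) (Fl := 1438959 / 1000000) (Fh := 17987 / 12500) (xl := 48099 / 50000) (xh := 96199 / 100000) (τm := 17593 / 20000) (θ := 7233 / 20000)
    (by norm_num) (by norm_num) (by norm_num)
    (exp_bds (by norm_num) (by norm_num) (by norm_num [Finset.sum_range_succ, Nat.factorial])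
      (by norm_num [Finset.sum_range_succ, Nat.factorial]))
    (by norm_num) (by norm_num) (by norm_num) (by norm_num) (by norm_num) (by norm_num) (by norm_num) (by norm_num)
    (by norm_num) (by norm_num) (by norm_num) (by norm_num) hκ h0 hm

private theorem e5_3_8 {κ τ : ℝ} (hκ : 37 / 25 ≤ κ) (h0 : 0 ≤ τ) (hm : τ ≤ 25133 / 25000) : 69 / 100 ≤ lv κ τ :=
  lv_ge_num (κ₀ := 37 / 25) (y := 4059 / 10000) (Fl := 375163 / 250000) (Fh := 1500653 / 1000000) (xl := 89883 / 100000) (xh := 22471 / 25000) (τm := 25133 / 25000) (θ := 2651 / 6250)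
    (by norm_num) (by norm_num) (by norm_num)
    (exp_bds (by norm_num) (by norm_num) (by norm_num [Finset.sum_range_succ, Nat.factorial])
      (by norm_num [Finset.sum_range_succ, Nat.factorial]))
    (by norm_num) (by norm_num) (by norm_num) (by norm_num) (by norm_num) (by norm_num) (by norm_num) (by norm_num)
    (by norm_num) (by norm_num) (by norm_num) (by norm_num) hκ h0 hm

private theorem e5_3_9 {κ τ : ℝ} (hκ : 37 / 25 ≤ κ) (h0 : 0 ≤ τ) (hm : τ ≤ 56549 / 50000) : 129 / 200 ≤ lv κ τ :=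
  lv_ge_num (κ₀ := 37 / 25) (y := 8901 / 20000) (Fl := 195071 / 125000) (Fh := 1560569 / 1000000) (xl := 41873 / 50000) (xh := 83747 / 100000) (τm := 56549 / 50000) (θ := 24423 / 50000)
    (by norm_num) (by norm_num) (by norm_num)
    (exp_bds (by norm_num) (by norm_num) (by norm_num [Finset.sum_range_succ, Nat.factorial])
      (by norm_num [Finset.sum_range_succ, Nat.factorial]))
    (by norm_num) (by norm_num) (by norm_num) (by norm_num) (by norm_num) (by norm_num) (by norm_num) (by norm_num)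
    (by norm_num) (by norm_num) (by norm_num) (by norm_num) hκ h0 hm

private theorem e5_3_10 {κ τ : ℝ} (hκ : 37 / 25 ≤ κ) (h0 : 0 ≤ τ) (hm : τ ≤ 3927 / 3125) : 119 / 200 ≤ lv κ τ :=
  lv_ge_num (κ₀ := 37 / 25) (y := 6017 / 12500) (Fl := 1618273 / 1000000) (Fh := 809137 / 500000) (xl := 38881 / 50000) (xh := 77763 / 100000) (τm := 3927 / 3125) (θ := 55427 / 100000)
    (by norm_num) (by norm_num) (by norm_num)
    (exp_bds (by norm_num) (by norm_num) (by norm_num [Finset.sum_range_succ, Nat.factorial])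
      (by norm_num [Finset.sum_range_succ, Nat.factorial]))
    (by norm_num) (by norm_num) (by norm_num) (by norm_num) (by norm_num) (by norm_num) (by norm_num) (by norm_num)
    (by norm_num) (by norm_num) (by norm_num) (by norm_num) hκ h0 hm

/-- class 5_3: `b = 5`, `κ ≥ 37 / 25` -/
theorem ld5_3 {κ h : ℝ} (hκ : 37 / 25 ≤ κ) (h0 : 0 < h) (hh : h ≤ 2 * π / 5) :
    LineData κ h 1 (801 / 1000) (73 / 200) (76 / 125) (101 / 500) (-11 / 20) (-21 / 50) (779 / 5000) (43 / 50) := by
  have hk1 : 1 ≤ κ := by linarith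
  have hp4 := Real.pi_lt_d4
  have hp3 := Real.pi_gt_d2
  have hhq : h ≤ 3927 / 3125 := by
    refine hh.trans ?_
    rw [div_le_iff₀ (by norm_num)]
    linarith
  have L1 : Line κ h (1 / 10) (39 / 400) (39 / 8000) := Line.stepN (l := 39 / 40) (τm := 12567 / 100000) hk1 h0.le (Line.zero hk1) (by norm_num) (by norm_num)
    (fun τ a b => e5_3_1 hκ a b) (by linarith) (by linarith) (by norm_num) (by norm_num)
  have L2 : Line κ h (1 / 5) (77 / 400) (153 / 8000) := Line.stepN (l := 19 / 20) (τm := 25133 / 100000) hk1 h0.le L1 (by norm_num) (by norm_num)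
    (fun τ a b => e5_3_2 hκ a b) (by linarith) (by linarith) (by norm_num) (by norm_num)
  have L3 : Line κ h (3 / 10) (71 / 250) (21 / 500) := Line.stepN (l := 183 / 200) (τm := 377 / 1000) hk1 h0.le L2 (by norm_num) (by norm_num)
    (fun τ a b => e5_3_3 hκ a b) (by linarith) (by linarith) (by norm_num) (by norm_num)
  have L4 : Line κ h (2 / 5) (743 / 2000) (581 / 8000) := Line.stepN (l := 7 / 8) (τm := 25133 / 50000) hk1 h0.le L3 (by norm_num) (by norm_num)
    (fun τ a b => e5_3_4 hκ a b) (by linarith) (by linarith) (by norm_num) (by norm_num)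
  have L5 : Line κ h (1 / 2) (91 / 200) (551 / 5000) := Line.stepN (l := 167 / 200) (τm := 3927 / 6250) hk1 h0.le L4 (by norm_num) (by norm_num)
    (fun τ a b => e5_3_5 hκ a b) (by linarith) (by linarith) (by norm_num) (by norm_num)
  have L6 : Line κ h (3 / 5) (267 / 500) (3073 / 20000) := Line.stepN (l := 79 / 100) (τm := 75399 / 100000) hk1 h0.le L5 (by norm_num) (by norm_num)
    (fun τ a b => e5_3_6 hκ a b) (by linarith) (by linarith) (by norm_num) (by norm_num)
  have L7 : Line κ h (7 / 10) (76 / 125) (807 / 4000) := Line.stepN (l := 37 / 50) (τm := 17593 / 20000) hk1 h0.le L6 (by norm_num) (by norm_num)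
    (fun τ a b => e5_3_7 hκ a b) (by linarith) (by linarith) (by norm_num) (by norm_num)
  have L8 : Line κ h (4 / 5) (677 / 1000) (507 / 2000) := Line.stepN (l := 69 / 100) (τm := 25133 / 25000) hk1 h0.le L7 (by norm_num) (by norm_num)
    (fun τ a b => e5_3_8 hκ a b) (by linarith) (by linarith) (by norm_num) (by norm_num)
  have L9 : Line κ h (9 / 10) (1483 / 2000) (12333 / 40000) := Line.stepN (l := 129 / 200) (τm := 56549 / 50000) hk1 h0.le L8 (by norm_num) (by norm_num)
    (fun τ a b => e5_3_9 hκ a b) (by linarith) (by linarith) (by norm_num) (by norm_num)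
  have L10 : Line κ h 1 (801 / 1000) (7297 / 20000) := Line.stepN (l := 119 / 200) (τm := 3927 / 3125) hk1 h0.le L9 (by norm_num) (by norm_num)
    (fun τ a b => e5_3_10 hκ a b) (by linarith) (by linarith) (by norm_num) (by norm_num)
  have m1 : ∀ z ∈ Icc (-11 / 20 : ℝ) (-1 / 2), 43 / 50 ≤ yv κ ((z + 1) * h) / h - yv κ (z * h) / h :=
    mu_piece (a := 2 / 5) (S := 743 / 2000) (C := 581 / 8000) (l := 167 / 200) (τm := 3927 / 6250) (H₁ := 84909 / 100000) (mp := 451329 / 1000000) (mq := 416743 / 1000000) hk1 h0 (by linarith)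
      L4 (by norm_num) (by norm_num) (by norm_num) (fun τ a b => e5_3_5 hκ a b) (by linarith) (by linarith)
      (exp_le_bd (by norm_num) (by norm_num) (by norm_num [Finset.sum_range_succ, Nat.factorial])) (exp_le_bd (by norm_num) (by norm_num) (by norm_num [Finset.sum_range_succ, Nat.factorial]))
      (by norm_num) (by norm_num)
  have m2 : ∀ z ∈ Icc (-1 / 2 : ℝ) (-21 / 50), 43 / 50 ≤ yv κ ((z + 1) * h) / h - yv κ (z * h) / h :=
    mu_piece (a := 1 / 2) (S := 91 / 200) (C := 551 / 5000) (l := 79 / 100) (τm := 75399 / 100000) (H₁ := 84909 / 100000) (mp := 416743 / 1000000) (mq := 359201 / 1000000) hk1 h0 (by linarith)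
      L5 (by norm_num) (by norm_num) (by norm_num) (fun τ a b => e5_3_6 hκ a b) (by linarith) (by linarith)
      (exp_le_bd (by norm_num) (by norm_num) (by norm_num [Finset.sum_range_succ, Nat.factorial])) (exp_le_bd (by norm_num) (by norm_num) (by norm_num [Finset.sum_range_succ, Nat.factorial]))
      (by norm_num) (by norm_num)
  exact ⟨L10.weaken h0.le (by norm_num) (by norm_num), L7.weaken h0.le (by norm_num) (by norm_num),
    Line.f1R (τm := 36443 / 50000) hk1 h0 L6 (by norm_num) (by linarith) (by linarith) (by norm_num), mu_glue m1 m2⟩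

/-- class 5_3: line at `1 + qL`, curvature up to `1 + qR` -/
theorem lr5_3 {κ h : ℝ} (hκ : 37 / 25 ≤ κ) (h0 : 0 < h) (hh : h ≤ 2 * π / 5) :
    Line κ h (1 + (-11 / 20)) (1653 / 4000) (14459 / 160000) ∧ (∀ τ, 0 ≤ τ → τ ≤ 75399 / 100000 → 79 / 100 ≤ lv κ τ) ∧ (1 + (-21 / 50)) * h ≤ (75399 / 100000) ∧ (75399 / 100000) < κ + π / 2 := by
  have hk1 : 1 ≤ κ := by linarith
  have hp4 := Real.pi_lt_d4
  have hp3 := Real.pi_gt_d2
  have hhq : h ≤ 3927 / 3125 := by
    refine hh.trans ?_
    rw [div_le_iff₀ (by norm_num)]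
    linarith
  have L1 : Line κ h (1 / 10) (39 / 400) (39 / 8000) := Line.stepN (l := 39 / 40) (τm := 12567 / 100000) hk1 h0.le (Line.zero hk1) (by norm_num) (by norm_num)
    (fun τ a b => e5_3_1 hκ a b) (by linarith) (by linarith) (by norm_num) (by norm_num)
  have L2 : Line κ h (1 / 5) (77 / 400) (153 / 8000) := Line.stepN (l := 19 / 20) (τm := 25133 / 100000) hk1 h0.le L1 (by norm_num) (by norm_num)
    (fun τ a b => e5_3_2 hκ a b) (by linarith) (by linarith) (by norm_num) (by norm_num)
  have L3 : Line κ h (3 / 10) (71 / 250) (21 / 500) := Line.stepN (l := 183 / 200) (τm := 377 / 1000) hk1 h0.le L2 (by norm_num) (by norm_num)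
    (fun τ a b => e5_3_3 hκ a b) (by linarith) (by linarith) (by norm_num) (by norm_num)
  have L4 : Line κ h (2 / 5) (743 / 2000) (581 / 8000) := Line.stepN (l := 7 / 8) (τm := 25133 / 50000) hk1 h0.le L3 (by norm_num) (by norm_num)
    (fun τ a b => e5_3_4 hκ a b) (by linarith) (by linarith) (by norm_num) (by norm_num)
  exact ⟨Line.stepN (l := 167 / 200) (τm := 3927 / 6250) hk1 h0.le L4 (by norm_num) (by norm_num)
    (fun τ a b => e5_3_5 hκ a b) (by linarith) (by linarith) (by norm_num) (by norm_num), fun τ a b => e5_3_6 hκ a b,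
    by linarith, by linarith⟩

private theorem e5_4_1 {κ τ : ℝ} (hκ : 79 / 50 ≤ κ) (h0 : 0 ≤ τ) (hm : τ ≤ 12567 / 100000) : 197 / 200 ≤ lv κ τ :=
  lv_ge_num (κ₀ := 79 / 50) (y := 5649 / 100000) (Fl := 264529 / 250000) (Fh := 1058117 / 1000000) (xl := 74607 / 50000) (xh := 4663 / 3125) (τm := 12567 / 100000) (θ := 3783 / 100000)
    (by norm_num) (by norm_num) (by norm_num)
    (exp_bds (by norm_num) (by norm_num) (by norm_num [Finset.sum_range_succ, Nat.factorial])
      (by norm_num [Finset.sum_range_succ, Nat.factorial]))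
    (by norm_num) (by norm_num) (by norm_num) (by norm_num) (by norm_num) (by norm_num) (by norm_num) (by norm_num)
    (by norm_num) (by norm_num) (by norm_num) (by norm_num) hκ h0 hm

private theorem e5_4_2 {κ τ : ℝ} (hκ : 79 / 50 ≤ κ) (h0 : 0 ≤ τ) (hm : τ ≤ 25133 / 100000) : 193 / 200 ≤ lv κ τ :=
  lv_ge_num (κ₀ := 79 / 50) (y := 2241 / 20000) (Fl := 139821 / 125000) (Fh := 1118569 / 1000000) (xl := 70403 / 50000) (xh := 140807 / 100000) (τm := 25133 / 100000) (θ := 397 / 5000)
    (by norm_num) (by norm_num) (by norm_num)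
    (exp_bds (by norm_num) (by norm_num) (by norm_num [Finset.sum_range_succ, Nat.factorial])
      (by norm_num [Finset.sum_range_succ, Nat.factorial]))
    (by norm_num) (by norm_num) (by norm_num) (by norm_num) (by norm_num) (by norm_num) (by norm_num) (by norm_num)
    (by norm_num) (by norm_num) (by norm_num) (by norm_num) hκ h0 hm

private theorem e5_4_3 {κ τ : ℝ} (hκ : 79 / 50 ≤ κ) (h0 : 0 ≤ τ) (hm : τ ≤ 377 / 1000) : 187 / 200 ≤ lv κ τ :=
  lv_ge_num (κ₀ := 79 / 50) (y := 4157 / 25000) (Fl := 1180903 / 1000000) (Fh := 147613 / 125000) (xl := 66379 / 50000) (xh := 132759 / 100000) (τm := 377 / 1000) (θ := 12459 / 100000)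
    (by norm_num) (by norm_num) (by norm_num)
    (exp_bds (by norm_num) (by norm_num) (by norm_num [Finset.sum_range_succ, Nat.factorial])
      (by norm_num [Finset.sum_range_succ, Nat.factorial]))
    (by norm_num) (by norm_num) (by norm_num) (by norm_num) (by norm_num) (by norm_num) (by norm_num) (by norm_num)
    (by norm_num) (by norm_num) (by norm_num) (by norm_num) hκ h0 hm

private theorem e5_4_4 {κ τ : ℝ} (hκ : 79 / 50 ≤ κ) (h0 : 0 ≤ τ) (hm : τ ≤ 25133 / 50000) : 181 / 200 ≤ lv κ τ :=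
  lv_ge_num (κ₀ := 79 / 50) (y := 21879 / 100000) (Fl := 1244569 / 1000000) (Fh := 124457 / 100000) (xl := 125051 / 100000) (xh := 125053 / 100000) (τm := 25133 / 50000) (θ := 433 / 2500)
    (by norm_num) (by norm_num) (by norm_num)
    (exp_bds (by norm_num) (by norm_num) (by norm_num [Finset.sum_range_succ, Nat.factorial])
      (by norm_num [Finset.sum_range_succ, Nat.factorial]))
    (by norm_num) (by norm_num) (by norm_num) (by norm_num) (by norm_num) (by norm_num) (by norm_num) (by norm_num)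
    (by norm_num) (by norm_num) (by norm_num) (by norm_num) hκ h0 hm

private theorem e5_4_5 {κ τ : ℝ} (hκ : 79 / 50 ≤ κ) (h0 : 0 ≤ τ) (hm : τ ≤ 3927 / 6250) : 173 / 200 ≤ lv κ τ :=
  lv_ge_num (κ₀ := 79 / 50) (y := 13463 / 50000) (Fl := 261799 / 200000) (Fh := 327249 / 250000) (xl := 117661 / 100000) (xh := 58831 / 50000) (τm := 3927 / 6250) (θ := 703 / 3125)
    (by norm_num) (by norm_num) (by norm_num)
    (exp_bds (by norm_num) (by norm_num) (by norm_num [Finset.sum_range_succ, Nat.factorial])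
      (by norm_num [Finset.sum_range_succ, Nat.factorial]))
    (by norm_num) (by norm_num) (by norm_num) (by norm_num) (by norm_num) (by norm_num) (by norm_num) (by norm_num)
    (by norm_num) (by norm_num) (by norm_num) (by norm_num) hκ h0 hm

private theorem e5_4_6 {κ τ : ℝ} (hκ : 79 / 50 ≤ κ) (h0 : 0 ≤ τ) (hm : τ ≤ 75399 / 100000) : 33 / 40 ≤ lv κ τ :=
  lv_ge_num (κ₀ := 79 / 50) (y := 992 / 3125) (Fl := 686803 / 500000) (Fh := 1373607 / 1000000) (xl := 55279 / 50000) (xh := 110559 / 100000) (τm := 75399 / 100000) (θ := 699 / 2500)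
    (by norm_num) (by norm_num) (by norm_num)
    (exp_bds (by norm_num) (by norm_num) (by norm_num [Finset.sum_range_succ, Nat.factorial])
      (by norm_num [Finset.sum_range_succ, Nat.factorial]))
    (by norm_num) (by norm_num) (by norm_num) (by norm_num) (by norm_num) (by norm_num) (by norm_num) (by norm_num)
    (by norm_num) (by norm_num) (by norm_num) (by norm_num) hκ h0 hm

private theorem e5_4_7 {κ τ : ℝ} (hκ : 79 / 50 ≤ κ) (h0 : 0 ≤ τ) (hm : τ ≤ 17593 / 20000) : 39 / 50 ≤ lv κ τ :=
  lv_ge_num (κ₀ := 79 / 50) (y := 18157 / 50000) (Fl := 1437837 / 1000000) (Fh := 718919 / 500000) (xl := 103713 / 100000) (xh := 51857 / 50000) (τm := 17593 / 20000) (θ := 33679 / 100000)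
    (by norm_num) (by norm_num) (by norm_num)
    (exp_bds (by norm_num) (by norm_num) (by norm_num [Finset.sum_range_succ, Nat.factorial])
      (by norm_num [Finset.sum_range_succ, Nat.factorial]))
    (by norm_num) (by norm_num) (by norm_num) (by norm_num) (by norm_num) (by norm_num) (by norm_num) (by norm_num)
    (by norm_num) (by norm_num) (by norm_num) (by norm_num) hκ h0 hm

private theorem e5_4_8 {κ τ : ℝ} (hκ : 79 / 50 ≤ κ) (h0 : 0 ≤ τ) (hm : τ ≤ 25133 / 25000) : 73 / 100 ≤ lv κ τ :=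
  lv_ge_num (κ₀ := 79 / 50) (y := 13 / 32) (Fl := 1501177 / 1000000) (Fh := 750589 / 500000) (xl := 48547 / 50000) (xh := 19419 / 20000) (τm := 25133 / 25000) (θ := 39627 / 100000)
    (by norm_num) (by norm_num) (by norm_num)
    (exp_bds (by norm_num) (by norm_num) (by norm_num [Finset.sum_range_succ, Nat.factorial])
      (by norm_num [Finset.sum_range_succ, Nat.factorial]))
    (by norm_num) (by norm_num) (by norm_num) (by norm_num) (by norm_num) (by norm_num) (by norm_num) (by norm_num)
    (by norm_num) (by norm_num) (by norm_num) (by norm_num) hκ h0 hm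

private theorem e5_4_9 {κ τ : ℝ} (hκ : 79 / 50 ≤ κ) (h0 : 0 ≤ τ) (hm : τ ≤ 56549 / 50000) : 137 / 200 ≤ lv κ τ :=
  lv_ge_num (κ₀ := 79 / 50) (y := 44669 / 100000) (Fl := 1563129 / 1000000) (Fh := 156313 / 100000) (xl := 90673 / 100000) (xh := 45337 / 50000) (τm := 56549 / 50000) (θ := 45773 / 100000)
    (by norm_num) (by norm_num) (by norm_num)
    (exp_bds (by norm_num) (by norm_num) (by norm_num [Finset.sum_range_succ, Nat.factorial])
      (by norm_num [Finset.sum_range_succ, Nat.factorial]))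
    (by norm_num) (by norm_num) (by norm_num) (by norm_num) (by norm_num) (by norm_num) (by norm_num) (by norm_num)
    (by norm_num) (by norm_num) (by norm_num) (by norm_num) hκ h0 hm

private theorem e5_4_10 {κ τ : ℝ} (hκ : 79 / 50 ≤ κ) (h0 : 0 ≤ τ) (hm : τ ≤ 3927 / 3125) : 127 / 200 ≤ lv κ τ :=
  lv_ge_num (κ₀ := 79 / 50) (y := 24221 / 50000) (Fl := 1623233 / 1000000) (Fh := 811617 / 500000) (xl := 42213 / 50000) (xh := 84427 / 100000) (τm := 3927 / 3125) (θ := 52091 / 100000)
    (by norm_num) (by norm_num) (by norm_num)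
    (exp_bds (by norm_num) (by norm_num) (by norm_num [Finset.sum_range_succ, Nat.factorial])
      (by norm_num [Finset.sum_range_succ, Nat.factorial]))
    (by norm_num) (by norm_num) (by norm_num) (by norm_num) (by norm_num) (by norm_num) (by norm_num) (by norm_num)
    (by norm_num) (by norm_num) (by norm_num) (by norm_num) hκ h0 hm

/-- class 5_4: `b = 5`, `κ ≥ 79 / 50` -/
theorem ld5_4 {κ h : ℝ} (hκ : 79 / 50 ≤ κ) (h0 : 0 < h) (hh : h ≤ 2 * π / 5) :
    LineData κ h 1 (831 / 1000) (383 / 1000) (313 / 500) (419 / 2000) (-57 / 100) (-41 / 100) (1643 / 10000) (7 / 8) := by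
  have hk1 : 1 ≤ κ := by linarith
  have hp4 := Real.pi_lt_d4
  have hp3 := Real.pi_gt_d2
  have hhq : h ≤ 3927 / 3125 := by
    refine hh.trans ?_
    rw [div_le_iff₀ (by norm_num)]
    linarith
  have L1 : Line κ h (1 / 10) (197 / 2000) (197 / 40000) := Line.stepN (l := 197 / 200) (τm := 12567 / 100000) hk1 h0.le (Line.zero hk1) (by norm_num) (by norm_num)
    (fun τ a b => e5_4_1 hκ a b) (by linarith) (by linarith) (by norm_num) (by norm_num)
  have L2 : Line κ h (1 / 5) (39 / 200) (97 / 5000) := Line.stepN (l := 193 / 200) (τm := 25133 / 100000) hk1 h0.le L1 (by norm_num) (by norm_num)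
    (fun τ a b => e5_4_2 hκ a b) (by linarith) (by linarith) (by norm_num) (by norm_num)
  have L3 : Line κ h (3 / 10) (577 / 2000) (1711 / 40000) := Line.stepN (l := 187 / 200) (τm := 377 / 1000) hk1 h0.le L2 (by norm_num) (by norm_num)
    (fun τ a b => e5_4_3 hκ a b) (by linarith) (by linarith) (by norm_num) (by norm_num)
  have L4 : Line κ h (2 / 5) (379 / 1000) (1489 / 20000) := Line.stepN (l := 181 / 200) (τm := 25133 / 50000) hk1 h0.le L3 (by norm_num) (by norm_num)
    (fun τ a b => e5_4_4 hκ a b) (by linarith) (by linarith) (by norm_num) (by norm_num)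
  have L5 : Line κ h (1 / 2) (931 / 2000) (907 / 8000) := Line.stepN (l := 173 / 200) (τm := 3927 / 6250) hk1 h0.le L4 (by norm_num) (by norm_num)
    (fun τ a b => e5_4_5 hκ a b) (by linarith) (by linarith) (by norm_num) (by norm_num)
  have L6 : Line κ h (3 / 5) (137 / 250) (127 / 800) := Line.stepN (l := 33 / 40) (τm := 75399 / 100000) hk1 h0.le L5 (by norm_num) (by norm_num)
    (fun τ a b => e5_4_6 hκ a b) (by linarith) (by linarith) (by norm_num) (by norm_num)
  have L7 : Line κ h (7 / 10) (313 / 500) (4189 / 20000) := Line.stepN (l := 39 / 50) (τm := 17593 / 20000) hk1 h0.le L6 (by norm_num) (by norm_num)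
    (fun τ a b => e5_4_7 hκ a b) (by linarith) (by linarith) (by norm_num) (by norm_num)
  have L8 : Line κ h (4 / 5) (699 / 1000) (1321 / 5000) := Line.stepN (l := 73 / 100) (τm := 25133 / 25000) hk1 h0.le L7 (by norm_num) (by norm_num)
    (fun τ a b => e5_4_8 hκ a b) (by linarith) (by linarith) (by norm_num) (by norm_num)
  have L9 : Line κ h (9 / 10) (307 / 400) (12897 / 40000) := Line.stepN (l := 137 / 200) (τm := 56549 / 50000) hk1 h0.le L8 (by norm_num) (by norm_num)
    (fun τ a b => e5_4_9 hκ a b) (by linarith) (by linarith) (by norm_num) (by norm_num)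
  have L10 : Line κ h 1 (831 / 1000) (1531 / 4000) := Line.stepN (l := 127 / 200) (τm := 3927 / 3125) hk1 h0.le L9 (by norm_num) (by norm_num)
    (fun τ a b => e5_4_10 hκ a b) (by linarith) (by linarith) (by norm_num) (by norm_num)
  have m1 : ∀ z ∈ Icc (-57 / 100 : ℝ) (-1 / 2), 7 / 8 ≤ yv κ ((z + 1) * h) / h - yv κ (z * h) / h :=
    mu_piece (a := 2 / 5) (S := 379 / 1000) (C := 1489 / 20000) (l := 173 / 200) (τm := 3927 / 6250) (H₁ := 15907 / 20000) (mp := 47007 / 100000) (mq := 420959 / 1000000) hk1 h0 (by linarith)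
      L4 (by norm_num) (by norm_num) (by norm_num) (fun τ a b => e5_4_5 hκ a b) (by linarith) (by linarith)
      (exp_le_bd (by norm_num) (by norm_num) (by norm_num [Finset.sum_range_succ, Nat.factorial])) (exp_le_bd (by norm_num) (by norm_num) (by norm_num [Finset.sum_range_succ, Nat.factorial]))
      (by norm_num) (by norm_num)
  have m2 : ∀ z ∈ Icc (-1 / 2 : ℝ) (-41 / 100), 7 / 8 ≤ yv κ ((z + 1) * h) / h - yv κ (z * h) / h :=
    mu_piece (a := 1 / 2) (S := 931 / 2000) (C := 907 / 8000) (l := 33 / 40) (τm := 75399 / 100000) (H₁ := 15907 / 20000) (mp := 420959 / 1000000) (mq := 354859 / 1000000) hk1 h0 (by linarith)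
      L5 (by norm_num) (by norm_num) (by norm_num) (fun τ a b => e5_4_6 hκ a b) (by linarith) (by linarith)
      (exp_le_bd (by norm_num) (by norm_num) (by norm_num [Finset.sum_range_succ, Nat.factorial])) (exp_le_bd (by norm_num) (by norm_num) (by norm_num [Finset.sum_range_succ, Nat.factorial]))
      (by norm_num) (by norm_num)
  exact ⟨L10.weaken h0.le (by norm_num) (by norm_num), L7.weaken h0.le (by norm_num) (by norm_num),
    Line.f1R (τm := 37071 / 50000) hk1 h0 L6 (by norm_num) (by linarith) (by linarith) (by norm_num), mu_glue m1 m2⟩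

/-- class 5_4: line at `1 + qL`, curvature up to `1 + qR` -/
theorem lr5_4 {κ h : ℝ} (hκ : 79 / 50 ≤ κ) (h0 : 0 < h) (hh : h ≤ 2 * π / 5) :
    Line κ h (1 + (-57 / 100)) (8099 / 20000) (340877 / 4000000) ∧ (∀ τ, 0 ≤ τ → τ ≤ 75399 / 100000 → 33 / 40 ≤ lv κ τ) ∧ (1 + (-41 / 100)) * h ≤ (75399 / 100000) ∧ (75399 / 100000) < κ + π / 2 := by
  have hk1 : 1 ≤ κ := by linarith
  have hp4 := Real.pi_lt_d4
  have hp3 := Real.pi_gt_d2
  have hhq : h ≤ 3927 / 3125 := by
    refine hh.trans ?_
    rw [div_le_iff₀ (by norm_num)]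
    linarith
  have L1 : Line κ h (1 / 10) (197 / 2000) (197 / 40000) := Line.stepN (l := 197 / 200) (τm := 12567 / 100000) hk1 h0.le (Line.zero hk1) (by norm_num) (by norm_num)
    (fun τ a b => e5_4_1 hκ a b) (by linarith) (by linarith) (by norm_num) (by norm_num)
  have L2 : Line κ h (1 / 5) (39 / 200) (97 / 5000) := Line.stepN (l := 193 / 200) (τm := 25133 / 100000) hk1 h0.le L1 (by norm_num) (by norm_num)
    (fun τ a b => e5_4_2 hκ a b) (by linarith) (by linarith) (by norm_num) (by norm_num)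
  have L3 : Line κ h (3 / 10) (577 / 2000) (1711 / 40000) := Line.stepN (l := 187 / 200) (τm := 377 / 1000) hk1 h0.le L2 (by norm_num) (by norm_num)
    (fun τ a b => e5_4_3 hκ a b) (by linarith) (by linarith) (by norm_num) (by norm_num)
  have L4 : Line κ h (2 / 5) (379 / 1000) (1489 / 20000) := Line.stepN (l := 181 / 200) (τm := 25133 / 50000) hk1 h0.le L3 (by norm_num) (by norm_num)
    (fun τ a b => e5_4_4 hκ a b) (by linarith) (by linarith) (by norm_num) (by norm_num)
  exact ⟨Line.stepN (l := 173 / 200) (τm := 3927 / 6250) hk1 h0.le L4 (by norm_num) (by norm_num)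
    (fun τ a b => e5_4_5 hκ a b) (by linarith) (by linarith) (by norm_num) (by norm_num), fun τ a b => e5_4_6 hκ a b,
    by linarith, by linarith⟩

private theorem e5_5_1 {κ τ : ℝ} (hκ : 433 / 250 ≤ κ) (h0 : 0 ≤ τ) (hm : τ ≤ 12567 / 100000) : 99 / 100 ≤ lv κ τ :=
  lv_ge_num (κ₀ := 433 / 250) (y := 1359 / 25000) (Fl := 131983 / 125000) (Fh := 211173 / 200000) (xl := 81973 / 50000) (xh := 163947 / 100000) (τm := 12567 / 100000) (θ := 1657 / 50000)
    (by norm_num) (by norm_num) (by norm_num)
    (exp_bds (by norm_num) (by norm_num) (by norm_num [Finset.sum_range_succ, Nat.factorial])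
      (by norm_num [Finset.sum_range_succ, Nat.factorial]))
    (by norm_num) (by norm_num) (by norm_num) (by norm_num) (by norm_num) (by norm_num) (by norm_num) (by norm_num)
    (by norm_num) (by norm_num) (by norm_num) (by norm_num) hκ h0 hm

private theorem e5_5_2 {κ τ : ℝ} (hκ : 433 / 250 ≤ κ) (h0 : 0 ≤ τ) (hm : τ ≤ 25133 / 100000) : 49 / 50 ≤ lv κ τ :=
  lv_ge_num (κ₀ := 433 / 250) (y := 677 / 6250) (Fl := 278601 / 250000) (Fh := 222881 / 200000) (xl := 155041 / 100000) (xh := 77521 / 50000) (τm := 25133 / 100000) (θ := 279 / 4000)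
    (by norm_num) (by norm_num) (by norm_num)
    (exp_bds (by norm_num) (by norm_num) (by norm_num [Finset.sum_range_succ, Nat.factorial])
      (by norm_num [Finset.sum_range_succ, Nat.factorial]))
    (by norm_num) (by norm_num) (by norm_num) (by norm_num) (by norm_num) (by norm_num) (by norm_num) (by norm_num)
    (by norm_num) (by norm_num) (by norm_num) (by norm_num) hκ h0 hm

private theorem e5_5_3 {κ τ : ℝ} (hκ : 433 / 250 ≤ κ) (h0 : 0 ≤ τ) (hm : τ ≤ 377 / 1000) : 193 / 200 ≤ lv κ τ :=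
  lv_ge_num (κ₀ := 433 / 250) (y := 16151 / 100000) (Fl := 293821 / 250000) (Fh := 235057 / 200000) (xl := 1831 / 1250) (xh := 146481 / 100000) (τm := 377 / 1000) (θ := 10981 / 100000)
    (by norm_num) (by norm_num) (by norm_num)
    (exp_bds (by norm_num) (by norm_num) (by norm_num [Finset.sum_range_succ, Nat.factorial])
      (by norm_num [Finset.sum_range_succ, Nat.factorial]))
    (by norm_num) (by norm_num) (by norm_num) (by norm_num) (by norm_num) (by norm_num) (by norm_num) (by norm_num)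
    (by norm_num) (by norm_num) (by norm_num) (by norm_num) hκ h0 hm

private theorem e5_5_4 {κ τ : ℝ} (hκ : 433 / 250 ≤ κ) (h0 : 0 ≤ τ) (hm : τ ≤ 25133 / 50000) : 47 / 50 ≤ lv κ τ :=
  lv_ge_num (κ₀ := 433 / 250) (y := 4271 / 20000) (Fl := 247613 / 200000) (Fh := 619033 / 500000) (xl := 8641 / 6250) (xh := 138257 / 100000) (τm := 25133 / 50000) (θ := 3831 / 25000)
    (by norm_num) (by norm_num) (by norm_num)
    (exp_bds (by norm_num) (by norm_num) (by norm_num [Finset.sum_range_succ, Nat.factorial])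
      (by norm_num [Finset.sum_range_succ, Nat.factorial]))
    (by norm_num) (by norm_num) (by norm_num) (by norm_num) (by norm_num) (by norm_num) (by norm_num) (by norm_num)
    (by norm_num) (by norm_num) (by norm_num) (by norm_num) hκ h0 hm

private theorem e5_5_5 {κ τ : ℝ} (hκ : 433 / 250 ≤ κ) (h0 : 0 ≤ τ) (hm : τ ≤ 3927 / 6250) : 91 / 100 ≤ lv κ τ :=
  lv_ge_num (κ₀ := 433 / 250) (y := 3301 / 12500) (Fl := 162779 / 125000) (Fh := 1302233 / 1000000) (xl := 65177 / 50000) (xh := 26071 / 20000) (τm := 3927 / 6250) (θ := 19987 / 100000)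
    (by norm_num) (by norm_num) (by norm_num)
    (exp_bds (by norm_num) (by norm_num) (by norm_num [Finset.sum_range_succ, Nat.factorial])
      (by norm_num [Finset.sum_range_succ, Nat.factorial]))
    (by norm_num) (by norm_num) (by norm_num) (by norm_num) (by norm_num) (by norm_num) (by norm_num) (by norm_num)
    (by norm_num) (by norm_num) (by norm_num) (by norm_num) hκ h0 hm

private theorem e5_5_6 {κ τ : ℝ} (hκ : 433 / 250 ≤ κ) (h0 : 0 ≤ τ) (hm : τ ≤ 75399 / 100000) : 7 / 8 ≤ lv κ τ :=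
  lv_ge_num (κ₀ := 433 / 250) (y := 15641 / 50000) (Fl := 54691 / 40000) (Fh := 341819 / 250000) (xl := 122751 / 100000) (xh := 122753 / 100000) (τm := 75399 / 100000) (θ := 3119 / 12500)
    (by norm_num) (by norm_num) (by norm_num)
    (exp_bds (by norm_num) (by norm_num) (by norm_num [Finset.sum_range_succ, Nat.factorial])
      (by norm_num [Finset.sum_range_succ, Nat.factorial]))
    (by norm_num) (by norm_num) (by norm_num) (by norm_num) (by norm_num) (by norm_num) (by norm_num) (by norm_num)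
    (by norm_num) (by norm_num) (by norm_num) (by norm_num) hκ h0 hm

private theorem e5_5_7 {κ τ : ℝ} (hκ : 433 / 250 ≤ κ) (h0 : 0 ≤ τ) (hm : τ ≤ 17593 / 20000) : 167 / 200 ≤ lv κ τ :=
  lv_ge_num (κ₀ := 433 / 250) (y := 35951 / 100000) (Fl := 1432627 / 1000000) (Fh := 358157 / 250000) (xl := 115427 / 100000) (xh := 28857 / 25000) (τm := 17593 / 20000) (θ := 30193 / 100000)
    (by norm_num) (by norm_num) (by norm_num)
    (exp_bds (by norm_num) (by norm_num) (by norm_num [Finset.sum_range_succ, Nat.factorial])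
      (by norm_num [Finset.sum_range_succ, Nat.factorial]))
    (by norm_num) (by norm_num) (by norm_num) (by norm_num) (by norm_num) (by norm_num) (by norm_num) (by norm_num)
    (by norm_num) (by norm_num) (by norm_num) (by norm_num) hκ h0 hm

private theorem e5_5_8 {κ τ : ℝ} (hκ : 433 / 250 ≤ κ) (h0 : 0 ≤ τ) (hm : τ ≤ 25133 / 25000) : 79 / 100 ≤ lv κ τ :=
  lv_ge_num (κ₀ := 433 / 250) (y := 40397 / 100000) (Fl := 1497759 / 1000000) (Fh := 9361 / 6250) (xl := 108353 / 100000) (xh := 54177 / 50000) (τm := 25133 / 25000) (θ := 17843 / 50000)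
    (by norm_num) (by norm_num) (by norm_num)
    (exp_bds (by norm_num) (by norm_num) (by norm_num [Finset.sum_range_succ, Nat.factorial])
      (by norm_num [Finset.sum_range_succ, Nat.factorial]))
    (by norm_num) (by norm_num) (by norm_num) (by norm_num) (by norm_num) (by norm_num) (by norm_num) (by norm_num)
    (by norm_num) (by norm_num) (by norm_num) (by norm_num) hκ h0 hm

private theorem e5_5_9 {κ τ : ℝ} (hκ : 433 / 250 ≤ κ) (h0 : 0 ≤ τ) (hm : τ ≤ 56549 / 50000) : 149 / 200 ≤ lv κ τ :=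
  lv_ge_num (κ₀ := 433 / 250) (y := 22303 / 50000) (Fl := 312429 / 200000) (Fh := 781073 / 500000) (xl := 3172 / 3125) (xh := 20301 / 20000) (τm := 56549 / 50000) (θ := 10351 / 25000)
    (by norm_num) (by norm_num) (by norm_num)
    (exp_bds (by norm_num) (by norm_num) (by norm_num [Finset.sum_range_succ, Nat.factorial])
      (by norm_num [Finset.sum_range_succ, Nat.factorial]))
    (by norm_num) (by norm_num) (by norm_num) (by norm_num) (by norm_num) (by norm_num) (by norm_num) (by norm_num)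
    (by norm_num) (by norm_num) (by norm_num) (by norm_num) hκ h0 hm

private theorem e5_5_10 {κ τ : ℝ} (hκ : 433 / 250 ≤ κ) (h0 : 0 ≤ τ) (hm : τ ≤ 3927 / 3125) : 7 / 10 ≤ lv κ τ :=
  lv_ge_num (κ₀ := 433 / 250) (y := 6071 / 12500) (Fl := 1625279 / 1000000) (Fh := 5079 / 3125) (xl := 18971 / 20000) (xh := 11857 / 12500) (τm := 3927 / 3125) (θ := 47321 / 100000)
    (by norm_num) (by norm_num) (by norm_num)
    (exp_bds (by norm_num) (by norm_num) (by norm_num [Finset.sum_range_succ, Nat.factorial])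
      (by norm_num [Finset.sum_range_succ, Nat.factorial]))
    (by norm_num) (by norm_num) (by norm_num) (by norm_num) (by norm_num) (by norm_num) (by norm_num) (by norm_num)
    (by norm_num) (by norm_num) (by norm_num) (by norm_num) hκ h0 hm

/-- class 5_5: `b = 5`, `κ ≥ 433 / 250` -/
theorem ld5_5 {κ h : ℝ} (hκ : 433 / 250 ≤ κ) (h0 : 0 < h) (hh : h ≤ 2 * π / 5) :
    LineData κ h 1 (873 / 1000) (819 / 2000) (1299 / 2000) (441 / 2000) (-113 / 200) (-83 / 200) (1651 / 10000) (89 / 100) := by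
  have hk1 : 1 ≤ κ := by linarith
  have hp4 := Real.pi_lt_d4
  have hp3 := Real.pi_gt_d2
  have hhq : h ≤ 3927 / 3125 := by
    refine hh.trans ?_
    rw [div_le_iff₀ (by norm_num)]
    linarith
  have L1 : Line κ h (1 / 10) (99 / 1000) (99 / 20000) := Line.stepN (l := 99 / 100) (τm := 12567 / 100000) hk1 h0.le (Line.zero hk1) (by norm_num) (by norm_num)
    (fun τ a b => e5_5_1 hκ a b) (by linarith) (by linarith) (by norm_num) (by norm_num)
  have L2 : Line κ h (1 / 5) (197 / 1000) (393 / 20000) := Line.stepN (l := 49 / 50) (τm := 25133 / 100000) hk1 h0.le L1 (by norm_num) (by norm_num)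
    (fun τ a b => e5_5_2 hκ a b) (by linarith) (by linarith) (by norm_num) (by norm_num)
  have L3 : Line κ h (3 / 10) (587 / 2000) (1751 / 40000) := Line.stepN (l := 193 / 200) (τm := 377 / 1000) hk1 h0.le L2 (by norm_num) (by norm_num)
    (fun τ a b => e5_5_3 hκ a b) (by linarith) (by linarith) (by norm_num) (by norm_num)
  have L4 : Line κ h (2 / 5) (31 / 80) (3067 / 40000) := Line.stepN (l := 47 / 50) (τm := 25133 / 50000) hk1 h0.le L3 (by norm_num) (by norm_num)
    (fun τ a b => e5_5_4 hκ a b) (by linarith) (by linarith) (by norm_num) (by norm_num)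
  have L5 : Line κ h (1 / 2) (957 / 2000) (941 / 8000) := Line.stepN (l := 91 / 100) (τm := 3927 / 6250) hk1 h0.le L4 (by norm_num) (by norm_num)
    (fun τ a b => e5_5_5 hκ a b) (by linarith) (by linarith) (by norm_num) (by norm_num)
  have L6 : Line κ h (3 / 5) (283 / 500) (663 / 4000) := Line.stepN (l := 7 / 8) (τm := 75399 / 100000) hk1 h0.le L5 (by norm_num) (by norm_num)
    (fun τ a b => e5_5_6 hκ a b) (by linarith) (by linarith) (by norm_num) (by norm_num)
  have L7 : Line κ h (7 / 10) (1299 / 2000) (8801 / 40000) := Line.stepN (l := 167 / 200) (τm := 17593 / 20000) hk1 h0.le L6 (by norm_num) (by norm_num)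
    (fun τ a b => e5_5_7 hκ a b) (by linarith) (by linarith) (by norm_num) (by norm_num)
  have L8 : Line κ h (4 / 5) (1457 / 2000) (11171 / 40000) := Line.stepN (l := 79 / 100) (τm := 25133 / 25000) hk1 h0.le L7 (by norm_num) (by norm_num)
    (fun τ a b => e5_5_8 hκ a b) (by linarith) (by linarith) (by norm_num) (by norm_num)
  have L9 : Line κ h (9 / 10) (803 / 1000) (1713 / 5000) := Line.stepN (l := 149 / 200) (τm := 56549 / 50000) hk1 h0.le L8 (by norm_num) (by norm_num)
    (fun τ a b => e5_5_9 hκ a b) (by linarith) (by linarith) (by norm_num) (by norm_num)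
  have L10 : Line κ h 1 (873 / 1000) (4091 / 10000) := Line.stepN (l := 7 / 10) (τm := 3927 / 3125) hk1 h0.le L9 (by norm_num) (by norm_num)
    (fun τ a b => e5_5_10 hκ a b) (by linarith) (by linarith) (by norm_num) (by norm_num)
  have m1 : ∀ z ∈ Icc (-113 / 200 : ℝ) (-1 / 2), 89 / 100 ≤ yv κ ((z + 1) * h) / h - yv κ (z * h) / h :=
    mu_piece (a := 2 / 5) (S := 31 / 80) (C := 3067 / 40000) (l := 91 / 100) (τm := 3927 / 6250) (H₁ := 14511 / 20000) (mp := 236747 / 500000) (mq := 106651 / 250000) hk1 h0 (by linarith)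
      L4 (by norm_num) (by norm_num) (by norm_num) (fun τ a b => e5_5_5 hκ a b) (by linarith) (by linarith)
      (exp_le_bd (by norm_num) (by norm_num) (by norm_num [Finset.sum_range_succ, Nat.factorial])) (exp_le_bd (by norm_num) (by norm_num) (by norm_num [Finset.sum_range_succ, Nat.factorial]))
      (by norm_num) (by norm_num)
  have m2 : ∀ z ∈ Icc (-1 / 2 : ℝ) (-83 / 200), 89 / 100 ≤ yv κ ((z + 1) * h) / h - yv κ (z * h) / h :=
    mu_piece (a := 1 / 2) (S := 957 / 2000) (C := 941 / 8000) (l := 7 / 8) (τm := 75399 / 100000) (H₁ := 14511 / 20000) (mp := 106651 / 250000) (mq := 45347 / 125000) hk1 h0 (by linarith)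
      L5 (by norm_num) (by norm_num) (by norm_num) (fun τ a b => e5_5_6 hκ a b) (by linarith) (by linarith)
      (exp_le_bd (by norm_num) (by norm_num) (by norm_num [Finset.sum_range_succ, Nat.factorial])) (exp_le_bd (by norm_num) (by norm_num) (by norm_num [Finset.sum_range_succ, Nat.factorial]))
      (by norm_num) (by norm_num)
  exact ⟨L10.weaken h0.le (by norm_num) (by norm_num), L7.weaken h0.le (by norm_num) (by norm_num),
    Line.f1R (τm := 36757 / 50000) hk1 h0 L6 (by norm_num) (by linarith) (by linarith) (by norm_num), mu_glue m1 m2⟩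

/-- class 5_5: line at `1 + qL`, curvature up to `1 + qR` -/
theorem lr5_5 {κ h : ℝ} (hκ : 433 / 250 ≤ κ) (h0 : 0 < h) (hh : h ≤ 2 * π / 5) :
    Line κ h (1 + (-113 / 200)) (8387 / 20000) (719779 / 8000000) ∧ (∀ τ, 0 ≤ τ → τ ≤ 75399 / 100000 → 7 / 8 ≤ lv κ τ) ∧ (1 + (-83 / 200)) * h ≤ (75399 / 100000) ∧ (75399 / 100000) < κ + π / 2 := by
  have hk1 : 1 ≤ κ := by linarith
  have hp4 := Real.pi_lt_d4
  have hp3 := Real.pi_gt_d2
  have hhq : h ≤ 3927 / 3125 := by
    refine hh.trans ?_
    rw [div_le_iff₀ (by norm_num)]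
    linarith
  have L1 : Line κ h (1 / 10) (99 / 1000) (99 / 20000) := Line.stepN (l := 99 / 100) (τm := 12567 / 100000) hk1 h0.le (Line.zero hk1) (by norm_num) (by norm_num)
    (fun τ a b => e5_5_1 hκ a b) (by linarith) (by linarith) (by norm_num) (by norm_num)
  have L2 : Line κ h (1 / 5) (197 / 1000) (393 / 20000) := Line.stepN (l := 49 / 50) (τm := 25133 / 100000) hk1 h0.le L1 (by norm_num) (by norm_num)
    (fun τ a b => e5_5_2 hκ a b) (by linarith) (by linarith) (by norm_num) (by norm_num)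
  have L3 : Line κ h (3 / 10) (587 / 2000) (1751 / 40000) := Line.stepN (l := 193 / 200) (τm := 377 / 1000) hk1 h0.le L2 (by norm_num) (by norm_num)
    (fun τ a b => e5_5_3 hκ a b) (by linarith) (by linarith) (by norm_num) (by norm_num)
  have L4 : Line κ h (2 / 5) (31 / 80) (3067 / 40000) := Line.stepN (l := 47 / 50) (τm := 25133 / 50000) hk1 h0.le L3 (by norm_num) (by norm_num)
    (fun τ a b => e5_5_4 hκ a b) (by linarith) (by linarith) (by norm_num) (by norm_num)
  exact ⟨Line.stepN (l := 91 / 100) (τm := 3927 / 6250) hk1 h0.le L4 (by norm_num) (by norm_num)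
    (fun τ a b => e5_5_5 hκ a b) (by linarith) (by linarith) (by norm_num) (by norm_num), fun τ a b => e5_5_6 hκ a b,
    by linarith, by linarith⟩

private theorem e5_6_3 {κ τ : ℝ} (hκ : 2 ≤ κ) (h0 : 0 ≤ τ) (hm : τ ≤ 377 / 1000) : 199 / 200 ≤ lv κ τ :=
  lv_ge_num (κ₀ := 2) (y := 15187 / 100000) (Fl := 145501 / 125000) (Fh := 1164009 / 1000000) (xl := 171147 / 100000) (xh := 42787 / 25000) (τm := 377 / 1000) (θ := 177 / 2000)
    (by norm_num) (by norm_num) (by norm_num)
    (exp_bds (by norm_num) (by norm_num) (by norm_num [Finset.sum_range_succ, Nat.factorial])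
      (by norm_num [Finset.sum_range_succ, Nat.factorial]))
    (by norm_num) (by norm_num) (by norm_num) (by norm_num) (by norm_num) (by norm_num) (by norm_num) (by norm_num)
    (by norm_num) (by norm_num) (by norm_num) (by norm_num) hκ h0 hm

private theorem e5_6_4 {κ τ : ℝ} (hκ : 2 ≤ κ) (h0 : 0 ≤ τ) (hm : τ ≤ 25133 / 50000) : 99 / 100 ≤ lv κ τ :=
  lv_ge_num (κ₀ := 2) (y := 2527 / 12500) (Fl := 1224043 / 1000000) (Fh := 306011 / 250000) (xl := 162137 / 100000) (xh := 81069 / 50000) (τm := 25133 / 50000) (θ := 3101 / 25000)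
    (by norm_num) (by norm_num) (by norm_num)
    (exp_bds (by norm_num) (by norm_num) (by norm_num [Finset.sum_range_succ, Nat.factorial])
      (by norm_num [Finset.sum_range_succ, Nat.factorial]))
    (by norm_num) (by norm_num) (by norm_num) (by norm_num) (by norm_num) (by norm_num) (by norm_num) (by norm_num)
    (by norm_num) (by norm_num) (by norm_num) (by norm_num) hκ h0 hm

private theorem e5_6_5 {κ τ : ℝ} (hκ : 2 ≤ κ) (h0 : 0 ≤ τ) (hm : τ ≤ 3927 / 6250) : 39 / 40 ≤ lv κ τ :=
  lv_ge_num (κ₀ := 2) (y := 12589 / 50000) (Fl := 1286313 / 1000000) (Fh := 643157 / 500000) (xl := 15343 / 10000) (xh := 19179 / 12500) (τm := 3927 / 6250) (θ := 2033 / 12500)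
    (by norm_num) (by norm_num) (by norm_num)
    (exp_bds (by norm_num) (by norm_num) (by norm_num [Finset.sum_range_succ, Nat.factorial])
      (by norm_num [Finset.sum_range_succ, Nat.factorial]))
    (by norm_num) (by norm_num) (by norm_num) (by norm_num) (by norm_num) (by norm_num) (by norm_num) (by norm_num)
    (by norm_num) (by norm_num) (by norm_num) (by norm_num) hκ h0 hm

private theorem e5_6_6 {κ τ : ℝ} (hκ : 2 ≤ κ) (h0 : 0 ≤ τ) (hm : τ ≤ 75399 / 100000) : 19 / 20 ≤ lv κ τ :=
  lv_ge_num (κ₀ := 2) (y := 30041 / 100000) (Fl := 337603 / 250000) (Fh := 1350413 / 1000000) (xl := 4532 / 3125) (xh := 5801 / 4000) (τm := 75399 / 100000) (θ := 817 / 4000)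
    (by norm_num) (by norm_num) (by norm_num)
    (exp_bds (by norm_num) (by norm_num) (by norm_num [Finset.sum_range_succ, Nat.factorial])
      (by norm_num [Finset.sum_range_succ, Nat.factorial]))
    (by norm_num) (by norm_num) (by norm_num) (by norm_num) (by norm_num) (by norm_num) (by norm_num) (by norm_num)
    (by norm_num) (by norm_num) (by norm_num) (by norm_num) hκ h0 hm

private theorem e5_6_7 {κ τ : ℝ} (hκ : 2 ≤ κ) (h0 : 0 ≤ τ) (hm : τ ≤ 17593 / 20000) : 37 / 40 ≤ lv κ τ :=
  lv_ge_num (κ₀ := 2) (y := 1391 / 4000) (Fl := 707939 / 500000) (Fh := 1415879 / 1000000) (xl := 136907 / 100000) (xh := 34227 / 25000) (τm := 17593 / 20000) (θ := 12437 / 50000)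
    (by norm_num) (by norm_num) (by norm_num)
    (exp_bds (by norm_num) (by norm_num) (by norm_num [Finset.sum_range_succ, Nat.factorial])
      (by norm_num [Finset.sum_range_succ, Nat.factorial]))
    (by norm_num) (by norm_num) (by norm_num) (by norm_num) (by norm_num) (by norm_num) (by norm_num) (by norm_num)
    (by norm_num) (by norm_num) (by norm_num) (by norm_num) hκ h0 hm

private theorem e5_6_8 {κ τ : ℝ} (hκ : 2 ≤ κ) (h0 : 0 ≤ τ) (hm : τ ≤ 25133 / 25000) : 89 / 100 ≤ lv κ τ :=
  lv_ge_num (κ₀ := 2) (y := 9839 / 25000) (Fl := 185281 / 125000) (Fh := 1482249 / 1000000) (xl := 64531 / 50000) (xh := 16133 / 12500) (τm := 25133 / 25000) (θ := 29597 / 100000)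
    (by norm_num) (by norm_num) (by norm_num)
    (exp_bds (by norm_num) (by norm_num) (by norm_num [Finset.sum_range_succ, Nat.factorial])
      (by norm_num [Finset.sum_range_succ, Nat.factorial]))
    (by norm_num) (by norm_num) (by norm_num) (by norm_num) (by norm_num) (by norm_num) (by norm_num) (by norm_num)
    (by norm_num) (by norm_num) (by norm_num) (by norm_num) hκ h0 hm

private theorem e5_6_9 {κ τ : ℝ} (hκ : 2 ≤ κ) (h0 : 0 ≤ τ) (hm : τ ≤ 56549 / 50000) : 171 / 200 ≤ lv κ τ :=
  lv_ge_num (κ₀ := 2) (y := 43759 / 100000) (Fl := 1548969 / 1000000) (Fh := 154897 / 100000) (xl := 30369 / 25000) (xh := 121477 / 100000) (τm := 56549 / 50000) (θ := 1383 / 4000)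
    (by norm_num) (by norm_num) (by norm_num)
    (exp_bds (by norm_num) (by norm_num) (by norm_num [Finset.sum_range_succ, Nat.factorial])
      (by norm_num [Finset.sum_range_succ, Nat.factorial]))
    (by norm_num) (by norm_num) (by norm_num) (by norm_num) (by norm_num) (by norm_num) (by norm_num) (by norm_num)
    (by norm_num) (by norm_num) (by norm_num) (by norm_num) hκ h0 hm

private theorem e5_6_10 {κ τ : ℝ} (hκ : 2 ≤ κ) (h0 : 0 ≤ τ) (hm : τ ≤ 3927 / 3125) : 163 / 200 ≤ lv κ τ :=
  lv_ge_num (κ₀ := 2) (y := 47969 / 100000) (Fl := 1615573 / 1000000) (Fh := 807787 / 500000) (xl := 114123 / 100000) (xh := 28531 / 25000) (τm := 3927 / 3125) (θ := 3979 / 10000)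
    (by norm_num) (by norm_num) (by norm_num)
    (exp_bds (by norm_num) (by norm_num) (by norm_num [Finset.sum_range_succ, Nat.factorial])
      (by norm_num [Finset.sum_range_succ, Nat.factorial]))
    (by norm_num) (by norm_num) (by norm_num) (by norm_num) (by norm_num) (by norm_num) (by norm_num) (by norm_num)
    (by norm_num) (by norm_num) (by norm_num) (by norm_num) hκ h0 hm

/-- class 5_6: `b = 5`, `κ ≥ 2` -/
theorem ld5_6 {κ h : ℝ} (hκ : 2 ≤ κ) (h0 : 0 < h) (hh : h ≤ 2 * π / 5) :
    LineData κ h 1 (1877 / 2000) (453 / 1000) (273 / 400) (59 / 250) (-57 / 100) (-83 / 200) (847 / 5000) (91 / 100) := by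
  have hk1 : 1 ≤ κ := by linarith
  have hp4 := Real.pi_lt_d4
  have hp3 := Real.pi_gt_d2
  have hhq : h ≤ 3927 / 3125 := by
    refine hh.trans ?_
    rw [div_le_iff₀ (by norm_num)]
    linarith
  have L1 : Line κ h (1 / 10) (199 / 2000) (199 / 40000) := Line.stepN (l := 199 / 200) (τm := 377 / 1000) hk1 h0.le (Line.zero hk1) (by norm_num) (by norm_num)
    (fun τ a b => e5_6_3 hκ a b) (by linarith) (by linarith) (by norm_num) (by norm_num)
  have L2 : Line κ h (1 / 5) (199 / 1000) (199 / 10000) := Line.stepN (l := 199 / 200) (τm := 377 / 1000) hk1 h0.le L1 (by norm_num) (by norm_num)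
    (fun τ a b => e5_6_3 hκ a b) (by linarith) (by linarith) (by norm_num) (by norm_num)
  have L3 : Line κ h (3 / 10) (597 / 2000) (1791 / 40000) := Line.stepN (l := 199 / 200) (τm := 377 / 1000) hk1 h0.le L2 (by norm_num) (by norm_num)
    (fun τ a b => e5_6_3 hκ a b) (by linarith) (by linarith) (by norm_num) (by norm_num)
  have L4 : Line κ h (2 / 5) (159 / 400) (3177 / 40000) := Line.stepN (l := 99 / 100) (τm := 25133 / 50000) hk1 h0.le L3 (by norm_num) (by norm_num)
    (fun τ a b => e5_6_4 hκ a b) (by linarith) (by linarith) (by norm_num) (by norm_num)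
  have L5 : Line κ h (1 / 2) (99 / 200) (1233 / 10000) := Line.stepN (l := 39 / 40) (τm := 3927 / 6250) hk1 h0.le L4 (by norm_num) (by norm_num)
    (fun τ a b => e5_6_5 hκ a b) (by linarith) (by linarith) (by norm_num) (by norm_num)
  have L6 : Line κ h (3 / 5) (59 / 100) (3511 / 20000) := Line.stepN (l := 19 / 20) (τm := 75399 / 100000) hk1 h0.le L5 (by norm_num) (by norm_num)
    (fun τ a b => e5_6_6 hκ a b) (by linarith) (by linarith) (by norm_num) (by norm_num)
  have L7 : Line κ h (7 / 10) (273 / 400) (9427 / 40000) := Line.stepN (l := 37 / 40) (τm := 17593 / 20000) hk1 h0.le L6 (by norm_num) (by norm_num)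
    (fun τ a b => e5_6_7 hκ a b) (by linarith) (by linarith) (by norm_num) (by norm_num)
  have L8 : Line κ h (4 / 5) (1543 / 2000) (12097 / 40000) := Line.stepN (l := 89 / 100) (τm := 25133 / 25000) hk1 h0.le L7 (by norm_num) (by norm_num)
    (fun τ a b => e5_6_8 hκ a b) (by linarith) (by linarith) (by norm_num) (by norm_num)
  have L9 : Line κ h (9 / 10) (857 / 1000) (3751 / 10000) := Line.stepN (l := 171 / 200) (τm := 56549 / 50000) hk1 h0.le L8 (by norm_num) (by norm_num)
    (fun τ a b => e5_6_9 hκ a b) (by linarith) (by linarith) (by norm_num) (by norm_num)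
  have L10 : Line κ h 1 (1877 / 2000) (18101 / 40000) := Line.stepN (l := 163 / 200) (τm := 3927 / 3125) hk1 h0.le L9 (by norm_num) (by norm_num)
    (fun τ a b => e5_6_10 hκ a b) (by linarith) (by linarith) (by norm_num) (by norm_num)
  have m1 : ∀ z ∈ Icc (-57 / 100 : ℝ) (-1 / 2), 91 / 100 ≤ yv κ ((z + 1) * h) / h - yv κ (z * h) / h :=
    mu_piece (a := 2 / 5) (S := 159 / 400) (C := 3177 / 40000) (l := 39 / 40) (τm := 3927 / 6250) (H₁ := 3927 / 6250) (mp := 609 / 1250) (mq := 217403 / 500000) hk1 h0 (by linarith)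
      L4 (by norm_num) (by norm_num) (by norm_num) (fun τ a b => e5_6_5 hκ a b) (by linarith) (by linarith)
      (exp_le_bd (by norm_num) (by norm_num) (by norm_num [Finset.sum_range_succ, Nat.factorial])) (exp_le_bd (by norm_num) (by norm_num) (by norm_num [Finset.sum_range_succ, Nat.factorial]))
      (by norm_num) (by norm_num)
  have m2 : ∀ z ∈ Icc (-1 / 2 : ℝ) (-83 / 200), 91 / 100 ≤ yv κ ((z + 1) * h) / h - yv κ (z * h) / h :=
    mu_piece (a := 1 / 2) (S := 99 / 200) (C := 1233 / 10000) (l := 19 / 20) (τm := 75399 / 100000) (H₁ := 3927 / 6250) (mp := 217403 / 500000) (mq := 14751 / 40000) hk1 h0 (by linarith)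
      L5 (by norm_num) (by norm_num) (by norm_num) (fun τ a b => e5_6_6 hκ a b) (by linarith) (by linarith)
      (exp_le_bd (by norm_num) (by norm_num) (by norm_num [Finset.sum_range_succ, Nat.factorial])) (exp_le_bd (by norm_num) (by norm_num) (by norm_num [Finset.sum_range_succ, Nat.factorial]))
      (by norm_num) (by norm_num)
  exact ⟨L10.weaken h0.le (by norm_num) (by norm_num), L7.weaken h0.le (by norm_num) (by norm_num),
    Line.f1R (τm := 36757 / 50000) hk1 h0 L6 (by norm_num) (by linarith) (by linarith) (by norm_num), mu_glue m1 m2⟩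

/-- class 5_6: line at `1 + qL`, curvature up to `1 + qR` -/
theorem lr5_6 {κ h : ℝ} (hκ : 2 ≤ κ) (h0 : 0 < h) (hh : h ≤ 2 * π / 5) :
    Line κ h (1 + (-57 / 100)) (1707 / 4000) (73251 / 800000) ∧ (∀ τ, 0 ≤ τ → τ ≤ 75399 / 100000 → 19 / 20 ≤ lv κ τ) ∧ (1 + (-83 / 200)) * h ≤ (75399 / 100000) ∧ (75399 / 100000) < κ + π / 2 := by
  have hk1 : 1 ≤ κ := by linarith
  have hp4 := Real.pi_lt_d4
  have hp3 := Real.pi_gt_d2
  have hhq : h ≤ 3927 / 3125 := by
    refine hh.trans ?_
    rw [div_le_iff₀ (by norm_num)]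
    linarith
  have L1 : Line κ h (1 / 10) (199 / 2000) (199 / 40000) := Line.stepN (l := 199 / 200) (τm := 377 / 1000) hk1 h0.le (Line.zero hk1) (by norm_num) (by norm_num)
    (fun τ a b => e5_6_3 hκ a b) (by linarith) (by linarith) (by norm_num) (by norm_num)
  have L2 : Line κ h (1 / 5) (199 / 1000) (199 / 10000) := Line.stepN (l := 199 / 200) (τm := 377 / 1000) hk1 h0.le L1 (by norm_num) (by norm_num)
    (fun τ a b => e5_6_3 hκ a b) (by linarith) (by linarith) (by norm_num) (by norm_num)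
  have L3 : Line κ h (3 / 10) (597 / 2000) (1791 / 40000) := Line.stepN (l := 199 / 200) (τm := 377 / 1000) hk1 h0.le L2 (by norm_num) (by norm_num)
    (fun τ a b => e5_6_3 hκ a b) (by linarith) (by linarith) (by norm_num) (by norm_num)
  have L4 : Line κ h (2 / 5) (159 / 400) (3177 / 40000) := Line.stepN (l := 99 / 100) (τm := 25133 / 50000) hk1 h0.le L3 (by norm_num) (by norm_num)
    (fun τ a b => e5_6_4 hκ a b) (by linarith) (by linarith) (by norm_num) (by norm_num)
  exact ⟨Line.stepN (l := 39 / 40) (τm := 3927 / 6250) hk1 h0.le L4 (by norm_num) (by norm_num)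
    (fun τ a b => e5_6_5 hκ a b) (by linarith) (by linarith) (by norm_num) (by norm_num), fun τ a b => e5_6_6 hκ a b,
    by linarith, by linarith⟩

private theorem e6_1_1 {κ τ : ℝ} (hκ : 139 / 100 ≤ κ) (h0 : 0 ≤ τ) (hm : τ ≤ 1309 / 12500) : 39 / 40 ≤ lv κ τ :=
  lv_ge_num (κ₀ := 139 / 100) (y := 1229 / 25000) (Fl := 262597 / 250000) (Fh := 1050389 / 1000000) (xl := 1653 / 1250) (xh := 132241 / 100000) (τm := 1309 / 12500) (θ := 743 / 20000)
    (by norm_num) (by norm_num) (by norm_num)
    (exp_bds (by norm_num) (by norm_num) (by norm_num [Finset.sum_range_succ, Nat.factorial])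
      (by norm_num [Finset.sum_range_succ, Nat.factorial]))
    (by norm_num) (by norm_num) (by norm_num) (by norm_num) (by norm_num) (by norm_num) (by norm_num) (by norm_num)
    (by norm_num) (by norm_num) (by norm_num) (by norm_num) hκ h0 hm

private theorem e6_1_2 {κ τ : ℝ} (hκ : 139 / 100 ≤ κ) (h0 : 0 ≤ τ) (hm : τ ≤ 1309 / 6250) : 19 / 20 ≤ lv κ τ :=
  lv_ge_num (κ₀ := 139 / 100) (y := 607 / 6250) (Fl := 137749 / 125000) (Fh := 1101993 / 1000000) (xl := 786 / 625) (xh := 125761 / 100000) (τm := 1309 / 6250) (θ := 7707 / 100000)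
    (by norm_num) (by norm_num) (by norm_num)
    (exp_bds (by norm_num) (by norm_num) (by norm_num [Finset.sum_range_succ, Nat.factorial])
      (by norm_num [Finset.sum_range_succ, Nat.factorial]))
    (by norm_num) (by norm_num) (by norm_num) (by norm_num) (by norm_num) (by norm_num) (by norm_num) (by norm_num)
    (by norm_num) (by norm_num) (by norm_num) (by norm_num) hκ h0 hm

private theorem e6_1_3 {κ τ : ℝ} (hκ : 139 / 100 ≤ κ) (h0 : 0 ≤ τ) (hm : τ ≤ 3927 / 12500) : 183 / 200 ≤ lv κ τ :=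
  lv_ge_num (κ₀ := 139 / 100) (y := 3591 / 25000) (Fl := 288617 / 250000) (Fh := 1154469 / 1000000) (xl := 119541 / 100000) (xh := 59771 / 50000) (τm := 3927 / 12500) (θ := 5979 / 50000)
    (by norm_num) (by norm_num) (by norm_num)
    (exp_bds (by norm_num) (by norm_num) (by norm_num [Finset.sum_range_succ, Nat.factorial])
      (by norm_num [Finset.sum_range_succ, Nat.factorial]))
    (by norm_num) (by norm_num) (by norm_num) (by norm_num) (by norm_num) (by norm_num) (by norm_num) (by norm_num)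
    (by norm_num) (by norm_num) (by norm_num) (by norm_num) hκ h0 hm

private theorem e6_1_4 {κ τ : ℝ} (hκ : 139 / 100 ≤ κ) (h0 : 0 ≤ τ) (hm : τ ≤ 1309 / 3125) : 22 / 25 ≤ lv κ τ :=
  lv_ge_num (κ₀ := 139 / 100) (y := 18853 / 100000) (Fl := 1207473 / 1000000) (Fh := 603737 / 500000) (xl := 56781 / 50000) (xh := 113563 / 100000) (τm := 1309 / 3125) (θ := 16451 / 100000)
    (by norm_num) (by norm_num) (by norm_num)
    (exp_bds (by norm_num) (by norm_num) (by norm_num [Finset.sum_range_succ, Nat.factorial])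
      (by norm_num [Finset.sum_range_succ, Nat.factorial]))
    (by norm_num) (by norm_num) (by norm_num) (by norm_num) (by norm_num) (by norm_num) (by norm_num) (by norm_num)
    (by norm_num) (by norm_num) (by norm_num) (by norm_num) hκ h0 hm

private theorem e6_1_5 {κ τ : ℝ} (hκ : 139 / 100 ≤ κ) (h0 : 0 ≤ τ) (hm : τ ≤ 1309 / 2500) : 169 / 200 ≤ lv κ τ :=
  lv_ge_num (κ₀ := 139 / 100) (y := 11581 / 50000) (Fl := 7879 / 6250) (Fh := 1260641 / 1000000) (xl := 107801 / 100000) (xh := 53901 / 50000) (τm := 1309 / 2500) (θ := 21163 / 100000)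
    (by norm_num) (by norm_num) (by norm_num)
    (exp_bds (by norm_num) (by norm_num) (by norm_num [Finset.sum_range_succ, Nat.factorial])
      (by norm_num [Finset.sum_range_succ, Nat.factorial]))
    (by norm_num) (by norm_num) (by norm_num) (by norm_num) (by norm_num) (by norm_num) (by norm_num) (by norm_num)
    (by norm_num) (by norm_num) (by norm_num) (by norm_num) hκ h0 hm

private theorem e6_1_6 {κ τ : ℝ} (hκ : 139 / 100 ≤ κ) (h0 : 0 ≤ τ) (hm : τ ≤ 3927 / 6250) : 161 / 200 ≤ lv κ τ :=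
  lv_ge_num (κ₀ := 139 / 100) (y := 13639 / 50000) (Fl := 1313611 / 1000000) (Fh := 328403 / 250000) (xl := 51119 / 50000) (xh := 102239 / 100000) (τm := 3927 / 6250) (θ := 26073 / 100000)
    (by norm_num) (by norm_num) (by norm_num)
    (exp_bds (by norm_num) (by norm_num) (by norm_num [Finset.sum_range_succ, Nat.factorial])
      (by norm_num [Finset.sum_range_succ, Nat.factorial]))
    (by norm_num) (by norm_num) (by norm_num) (by norm_num) (by norm_num) (by norm_num) (by norm_num) (by norm_num)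
    (by norm_num) (by norm_num) (by norm_num) (by norm_num) hκ h0 hm

private theorem e6_1_7 {κ τ : ℝ} (hκ : 139 / 100 ≤ κ) (h0 : 0 ≤ τ) (hm : τ ≤ 9163 / 12500) : 153 / 200 ≤ lv κ τ :=
  lv_ge_num (κ₀ := 139 / 100) (y := 15597 / 50000) (Fl := 170759 / 125000) (Fh := 1366073 / 1000000) (xl := 96851 / 100000) (xh := 96853 / 100000) (τm := 9163 / 12500) (θ := 15579 / 50000)
    (by norm_num) (by norm_num) (by norm_num)
    (exp_bds (by norm_num) (by norm_num) (by norm_num [Finset.sum_range_succ, Nat.factorial])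
      (by norm_num [Finset.sum_range_succ, Nat.factorial]))
    (by norm_num) (by norm_num) (by norm_num) (by norm_num) (by norm_num) (by norm_num) (by norm_num) (by norm_num)
    (by norm_num) (by norm_num) (by norm_num) (by norm_num) hκ h0 hm

private theorem e6_1_8 {κ τ : ℝ} (hκ : 139 / 100 ≤ κ) (h0 : 0 ≤ τ) (hm : τ ≤ 2618 / 3125) : 18 / 25 ≤ lv κ τ :=
  lv_ge_num (κ₀ := 139 / 100) (y := 6981 / 20000) (Fl := 35443 / 25000) (Fh := 1417721 / 1000000) (xl := 4581 / 5000) (xh := 45811 / 50000) (τm := 2618 / 3125) (θ := 36399 / 100000)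
    (by norm_num) (by norm_num) (by norm_num)
    (exp_bds (by norm_num) (by norm_num) (by norm_num [Finset.sum_range_succ, Nat.factorial])
      (by norm_num [Finset.sum_range_succ, Nat.factorial]))
    (by norm_num) (by norm_num) (by norm_num) (by norm_num) (by norm_num) (by norm_num) (by norm_num) (by norm_num)
    (by norm_num) (by norm_num) (by norm_num) (by norm_num) hκ h0 hm

private theorem e6_1_9 {κ τ : ℝ} (hκ : 139 / 100 ≤ κ) (h0 : 0 ≤ τ) (hm : τ ≤ 11781 / 12500) : 17 / 25 ≤ lv κ τ :=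
  lv_ge_num (κ₀ := 139 / 100) (y := 38409 / 100000) (Fl := 1468277 / 1000000) (Fh := 734139 / 500000) (xl := 43263 / 50000) (xh := 2704 / 3125) (τm := 11781 / 12500) (θ := 2611 / 6250)
    (by norm_num) (by norm_num) (by norm_num)
    (exp_bds (by norm_num) (by norm_num) (by norm_num [Finset.sum_range_succ, Nat.factorial])
      (by norm_num [Finset.sum_range_succ, Nat.factorial]))
    (by norm_num) (by norm_num) (by norm_num) (by norm_num) (by norm_num) (by norm_num) (by norm_num) (by norm_num)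
    (by norm_num) (by norm_num) (by norm_num) (by norm_num) hκ h0 hm

private theorem e6_1_10 {κ τ : ℝ} (hκ : 139 / 100 ≤ κ) (h0 : 0 ≤ τ) (hm : τ ≤ 1309 / 1250) : 16 / 25 ≤ lv κ τ :=
  lv_ge_num (κ₀ := 139 / 100) (y := 41707 / 100000) (Fl := 379377 / 250000) (Fh := 1517509 / 1000000) (xl := 81551 / 100000) (xh := 5097 / 6250) (τm := 1309 / 1250) (θ := 47273 / 100000)
    (by norm_num) (by norm_num) (by norm_num)
    (exp_bds (by norm_num) (by norm_num) (by norm_num [Finset.sum_range_succ, Nat.factorial])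
      (by norm_num [Finset.sum_range_succ, Nat.factorial]))
    (by norm_num) (by norm_num) (by norm_num) (by norm_num) (by norm_num) (by norm_num) (by norm_num) (by norm_num)
    (by norm_num) (by norm_num) (by norm_num) (by norm_num) hκ h0 hm

/-- class 6_1: `b = 6`, `κ ≥ 139 / 100` -/
theorem ld6_1 {κ h : ℝ} (hκ : 139 / 100 ≤ κ) (h0 : 0 < h) (hh : h ≤ 2 * π / 6) :
    LineData κ h 1 (327 / 400) (151 / 400) (1227 / 2000) (41 / 200) (-113 / 200) (-21 / 50) (1561 / 10000) (87 / 100) := by
  have hk1 : 1 ≤ κ := by linarith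
  have hp4 := Real.pi_lt_d4
  have hp3 := Real.pi_gt_d2
  have hhq : h ≤ 1309 / 1250 := by
    refine hh.trans ?_
    rw [div_le_iff₀ (by norm_num)]
    linarith
  have L1 : Line κ h (1 / 10) (39 / 400) (39 / 8000) := Line.stepN (l := 39 / 40) (τm := 1309 / 12500) hk1 h0.le (Line.zero hk1) (by norm_num) (by norm_num)
    (fun τ a b => e6_1_1 hκ a b) (by linarith) (by linarith) (by norm_num) (by norm_num)
  have L2 : Line κ h (1 / 5) (77 / 400) (153 / 8000) := Line.stepN (l := 19 / 20) (τm := 1309 / 6250) hk1 h0.le L1 (by norm_num) (by norm_num)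
    (fun τ a b => e6_1_2 hκ a b) (by linarith) (by linarith) (by norm_num) (by norm_num)
  have L3 : Line κ h (3 / 10) (71 / 250) (21 / 500) := Line.stepN (l := 183 / 200) (τm := 3927 / 12500) hk1 h0.le L2 (by norm_num) (by norm_num)
    (fun τ a b => e6_1_3 hκ a b) (by linarith) (by linarith) (by norm_num) (by norm_num)
  have L4 : Line κ h (2 / 5) (93 / 250) (91 / 1250) := Line.stepN (l := 22 / 25) (τm := 1309 / 3125) hk1 h0.le L3 (by norm_num) (by norm_num)
    (fun τ a b => e6_1_4 hκ a b) (by linarith) (by linarith) (by norm_num) (by norm_num)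
  have L5 : Line κ h (1 / 2) (913 / 2000) (4433 / 40000) := Line.stepN (l := 169 / 200) (τm := 1309 / 2500) hk1 h0.le L4 (by norm_num) (by norm_num)
    (fun τ a b => e6_1_5 hκ a b) (by linarith) (by linarith) (by norm_num) (by norm_num)
  have L6 : Line κ h (3 / 5) (537 / 1000) (1551 / 10000) := Line.stepN (l := 161 / 200) (τm := 3927 / 6250) hk1 h0.le L5 (by norm_num) (by norm_num)
    (fun τ a b => e6_1_6 hκ a b) (by linarith) (by linarith) (by norm_num) (by norm_num)
  have L7 : Line κ h (7 / 10) (1227 / 2000) (8193 / 40000) := Line.stepN (l := 153 / 200) (τm := 9163 / 12500) hk1 h0.le L6 (by norm_num) (by norm_num)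
    (fun τ a b => e6_1_7 hκ a b) (by linarith) (by linarith) (by norm_num) (by norm_num)
  have L8 : Line κ h (4 / 5) (1371 / 2000) (10353 / 40000) := Line.stepN (l := 18 / 25) (τm := 2618 / 3125) hk1 h0.le L7 (by norm_num) (by norm_num)
    (fun τ a b => e6_1_8 hκ a b) (by linarith) (by linarith) (by norm_num) (by norm_num)
  have L9 : Line κ h (9 / 10) (1507 / 2000) (2533 / 8000) := Line.stepN (l := 17 / 25) (τm := 11781 / 12500) hk1 h0.le L8 (by norm_num) (by norm_num)
    (fun τ a b => e6_1_9 hκ a b) (by linarith) (by linarith) (by norm_num) (by norm_num)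
  have L10 : Line κ h 1 (327 / 400) (15097 / 40000) := Line.stepN (l := 16 / 25) (τm := 1309 / 1250) hk1 h0.le L9 (by norm_num) (by norm_num)
    (fun τ a b => e6_1_10 hκ a b) (by linarith) (by linarith) (by norm_num) (by norm_num)
  have m1 : ∀ z ∈ Icc (-113 / 200 : ℝ) (-1 / 2), 87 / 100 ≤ yv κ ((z + 1) * h) / h - yv κ (z * h) / h :=
    mu_piece (a := 2 / 5) (S := 93 / 250) (C := 91 / 1250) (l := 169 / 200) (τm := 1309 / 2500) (H₁ := 75339 / 100000) (mp := 470723 / 1000000) (mq := 424329 / 1000000) hk1 h0 (by linarith)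
      L4 (by norm_num) (by norm_num) (by norm_num) (fun τ a b => e6_1_5 hκ a b) (by linarith) (by linarith)
      (exp_le_bd (by norm_num) (by norm_num) (by norm_num [Finset.sum_range_succ, Nat.factorial])) (exp_le_bd (by norm_num) (by norm_num) (by norm_num [Finset.sum_range_succ, Nat.factorial]))
      (by norm_num) (by norm_num)
  have m2 : ∀ z ∈ Icc (-1 / 2 : ℝ) (-21 / 50), 87 / 100 ≤ yv κ ((z + 1) * h) / h - yv κ (z * h) / h :=
    mu_piece (a := 1 / 2) (S := 913 / 2000) (C := 4433 / 40000) (l := 161 / 200) (τm := 3927 / 6250) (H₁ := 75339 / 100000) (mp := 424329 / 1000000) (mq := 364909 / 1000000) hk1 h0 (by linarith)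
      L5 (by norm_num) (by norm_num) (by norm_num) (fun τ a b => e6_1_6 hκ a b) (by linarith) (by linarith)
      (exp_le_bd (by norm_num) (by norm_num) (by norm_num [Finset.sum_range_succ, Nat.factorial])) (exp_le_bd (by norm_num) (by norm_num) (by norm_num [Finset.sum_range_succ, Nat.factorial]))
      (by norm_num) (by norm_num)
  exact ⟨L10.weaken h0.le (by norm_num) (by norm_num), L7.weaken h0.le (by norm_num) (by norm_num),
    Line.f1R (τm := 30369 / 50000) hk1 h0 L6 (by norm_num) (by linarith) (by linarith) (by norm_num), mu_glue m1 m2⟩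

/-- class 6_1: line at `1 + qL`, curvature up to `1 + qR` -/
theorem lr6_1 {κ h : ℝ} (hκ : 139 / 100 ≤ κ) (h0 : 0 < h) (hh : h ≤ 2 * π / 6) :
    Line κ h (1 + (-113 / 200)) (16063 / 40000) (1362361 / 16000000) ∧ (∀ τ, 0 ≤ τ → τ ≤ 3927 / 6250 → 161 / 200 ≤ lv κ τ) ∧ (1 + (-21 / 50)) * h ≤ (3927 / 6250) ∧ (3927 / 6250) < κ + π / 2 := by
  have hk1 : 1 ≤ κ := by linarith
  have hp4 := Real.pi_lt_d4
  have hp3 := Real.pi_gt_d2
  have hhq : h ≤ 1309 / 1250 := by
    refine hh.trans ?_
    rw [div_le_iff₀ (by norm_num)]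
    linarith
  have L1 : Line κ h (1 / 10) (39 / 400) (39 / 8000) := Line.stepN (l := 39 / 40) (τm := 1309 / 12500) hk1 h0.le (Line.zero hk1) (by norm_num) (by norm_num)
    (fun τ a b => e6_1_1 hκ a b) (by linarith) (by linarith) (by norm_num) (by norm_num)
  have L2 : Line κ h (1 / 5) (77 / 400) (153 / 8000) := Line.stepN (l := 19 / 20) (τm := 1309 / 6250) hk1 h0.le L1 (by norm_num) (by norm_num)
    (fun τ a b => e6_1_2 hκ a b) (by linarith) (by linarith) (by norm_num) (by norm_num)
  have L3 : Line κ h (3 / 10) (71 / 250) (21 / 500) := Line.stepN (l := 183 / 200) (τm := 3927 / 12500) hk1 h0.le L2 (by norm_num) (by norm_num)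
    (fun τ a b => e6_1_3 hκ a b) (by linarith) (by linarith) (by norm_num) (by norm_num)
  have L4 : Line κ h (2 / 5) (93 / 250) (91 / 1250) := Line.stepN (l := 22 / 25) (τm := 1309 / 3125) hk1 h0.le L3 (by norm_num) (by norm_num)
    (fun τ a b => e6_1_4 hκ a b) (by linarith) (by linarith) (by norm_num) (by norm_num)
  exact ⟨Line.stepN (l := 169 / 200) (τm := 1309 / 2500) hk1 h0.le L4 (by norm_num) (by norm_num)
    (fun τ a b => e6_1_5 hκ a b) (by linarith) (by linarith) (by norm_num) (by norm_num), fun τ a b => e6_1_6 hκ a b,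
    by linarith, by linarith⟩

private theorem e6_2_1 {κ τ : ℝ} (hκ : 31 / 20 ≤ κ) (h0 : 0 ≤ τ) (hm : τ ≤ 1309 / 12500) : 197 / 200 ≤ lv κ τ :=
  lv_ge_num (κ₀ := 31 / 20) (y := 4747 / 100000) (Fl := 524307 / 500000) (Fh := 209723 / 200000) (xl := 147737 / 100000) (xh := 73869 / 50000) (τm := 1309 / 12500) (θ := 3211 / 100000)
    (by norm_num) (by norm_num) (by norm_num)
    (exp_bds (by norm_num) (by norm_num) (by norm_num [Finset.sum_range_succ, Nat.factorial])
      (by norm_num [Finset.sum_range_succ, Nat.factorial]))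
    (by norm_num) (by norm_num) (by norm_num) (by norm_num) (by norm_num) (by norm_num) (by norm_num) (by norm_num)
    (by norm_num) (by norm_num) (by norm_num) (by norm_num) hκ h0 hm

private theorem e6_2_2 {κ τ : ℝ} (hκ : 31 / 20 ≤ κ) (h0 : 0 ≤ τ) (hm : τ ≤ 1309 / 6250) : 97 / 100 ≤ lv κ τ :=
  lv_ge_num (κ₀ := 31 / 20) (y := 4713 / 50000) (Fl := 219769 / 200000) (Fh := 549423 / 500000) (xl := 140741 / 100000) (xh := 70371 / 50000) (τm := 1309 / 6250) (θ := 6687 / 100000)
    (by norm_num) (by norm_num) (by norm_num)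
    (exp_bds (by norm_num) (by norm_num) (by norm_num [Finset.sum_range_succ, Nat.factorial])
      (by norm_num [Finset.sum_range_succ, Nat.factorial]))
    (by norm_num) (by norm_num) (by norm_num) (by norm_num) (by norm_num) (by norm_num) (by norm_num) (by norm_num)
    (by norm_num) (by norm_num) (by norm_num) (by norm_num) hκ h0 hm

private theorem e6_2_3 {κ τ : ℝ} (hκ : 31 / 20 ≤ κ) (h0 : 0 ≤ τ) (hm : τ ≤ 3927 / 12500) : 189 / 200 ≤ lv κ τ :=
  lv_ge_num (κ₀ := 31 / 20) (y := 14013 / 100000) (Fl := 1150423 / 1000000) (Fh := 143803 / 125000) (xl := 67001 / 50000) (xh := 134003 / 100000) (τm := 3927 / 12500) (θ := 10419 / 100000)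
    (by norm_num) (by norm_num) (by norm_num)
    (exp_bds (by norm_num) (by norm_num) (by norm_num [Finset.sum_range_succ, Nat.factorial])
      (by norm_num [Finset.sum_range_succ, Nat.factorial]))
    (by norm_num) (by norm_num) (by norm_num) (by norm_num) (by norm_num) (by norm_num) (by norm_num) (by norm_num)
    (by norm_num) (by norm_num) (by norm_num) (by norm_num) hκ h0 hm

private theorem e6_2_4 {κ τ : ℝ} (hκ : 31 / 20 ≤ κ) (h0 : 0 ≤ τ) (hm : τ ≤ 1309 / 3125) : 23 / 25 ≤ lv κ τ :=
  lv_ge_num (κ₀ := 31 / 20) (y := 3697 / 20000) (Fl := 1203037 / 1000000) (Fh := 601519 / 500000) (xl := 127507 / 100000) (xh := 31877 / 25000) (τm := 1309 / 3125) (θ := 3599 / 25000)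
    (by norm_num) (by norm_num) (by norm_num)
    (exp_bds (by norm_num) (by norm_num) (by norm_num [Finset.sum_range_succ, Nat.factorial])
      (by norm_num [Finset.sum_range_succ, Nat.factorial]))
    (by norm_num) (by norm_num) (by norm_num) (by norm_num) (by norm_num) (by norm_num) (by norm_num) (by norm_num)
    (by norm_num) (by norm_num) (by norm_num) (by norm_num) hκ h0 hm

private theorem e6_2_5 {κ τ : ℝ} (hκ : 31 / 20 ≤ κ) (h0 : 0 ≤ τ) (hm : τ ≤ 1309 / 2500) : 89 / 100 ≤ lv κ τ :=
  lv_ge_num (κ₀ := 31 / 20) (y := 11411 / 50000) (Fl := 1256361 / 1000000) (Fh := 628181 / 500000) (xl := 60621 / 50000) (xh := 121243 / 100000) (τm := 1309 / 2500) (θ := 3721 / 20000)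
    (by norm_num) (by norm_num) (by norm_num)
    (exp_bds (by norm_num) (by norm_num) (by norm_num [Finset.sum_range_succ, Nat.factorial])
      (by norm_num [Finset.sum_range_succ, Nat.factorial]))
    (by norm_num) (by norm_num) (by norm_num) (by norm_num) (by norm_num) (by norm_num) (by norm_num) (by norm_num)
    (by norm_num) (by norm_num) (by norm_num) (by norm_num) hκ h0 hm

private theorem e6_2_6 {κ τ : ℝ} (hκ : 31 / 20 ≤ κ) (h0 : 0 ≤ τ) (hm : τ ≤ 3927 / 6250) : 171 / 200 ≤ lv κ τ :=
  lv_ge_num (κ₀ := 31 / 20) (y := 13503 / 50000) (Fl := 1310043 / 1000000) (Fh := 327511 / 250000) (xl := 115193 / 100000) (xh := 57597 / 50000) (τm := 3927 / 6250) (θ := 23027 / 100000)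
    (by norm_num) (by norm_num) (by norm_num)
    (exp_bds (by norm_num) (by norm_num) (by norm_num [Finset.sum_range_succ, Nat.factorial])
      (by norm_num [Finset.sum_range_succ, Nat.factorial]))
    (by norm_num) (by norm_num) (by norm_num) (by norm_num) (by norm_num) (by norm_num) (by norm_num) (by norm_num)
    (by norm_num) (by norm_num) (by norm_num) (by norm_num) hκ h0 hm

private theorem e6_2_7 {κ τ : ℝ} (hκ : 31 / 20 ≤ κ) (h0 : 0 ≤ τ) (hm : τ ≤ 9163 / 12500) : 41 / 50 ≤ lv κ τ :=
  lv_ge_num (κ₀ := 31 / 20) (y := 1939 / 6250) (Fl := 170469 / 125000) (Fh := 1363753 / 1000000) (xl := 5467 / 5000) (xh := 109341 / 100000) (τm := 9163 / 12500) (θ := 13823 / 50000)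
    (by norm_num) (by norm_num) (by norm_num)
    (exp_bds (by norm_num) (by norm_num) (by norm_num [Finset.sum_range_succ, Nat.factorial])
      (by norm_num [Finset.sum_range_succ, Nat.factorial]))
    (by norm_num) (by norm_num) (by norm_num) (by norm_num) (by norm_num) (by norm_num) (by norm_num) (by norm_num)
    (by norm_num) (by norm_num) (by norm_num) (by norm_num) hκ h0 hm

private theorem e6_2_8 {κ τ : ℝ} (hκ : 31 / 20 ≤ κ) (h0 : 0 ≤ τ) (hm : τ ≤ 2618 / 3125) : 39 / 50 ≤ lv κ τ :=
  lv_ge_num (κ₀ := 31 / 20) (y := 17433 / 50000) (Fl := 1417167 / 1000000) (Fh := 88573 / 62500) (xl := 51833 / 50000) (xh := 103667 / 100000) (τm := 2618 / 3125) (θ := 8111 / 25000)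
    (by norm_num) (by norm_num) (by norm_num)
    (exp_bds (by norm_num) (by norm_num) (by norm_num [Finset.sum_range_succ, Nat.factorial])
      (by norm_num [Finset.sum_range_succ, Nat.factorial]))
    (by norm_num) (by norm_num) (by norm_num) (by norm_num) (by norm_num) (by norm_num) (by norm_num) (by norm_num)
    (by norm_num) (by norm_num) (by norm_num) (by norm_num) hκ h0 hm

private theorem e6_2_9 {κ τ : ℝ} (hκ : 31 / 20 ≤ κ) (h0 : 0 ≤ τ) (hm : τ ≤ 11781 / 12500) : 149 / 200 ≤ lv κ τ :=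
  lv_ge_num (κ₀ := 31 / 20) (y := 19263 / 50000) (Fl := 367499 / 250000) (Fh := 1469997 / 1000000) (xl := 12269 / 12500) (xh := 98153 / 100000) (τm := 11781 / 12500) (θ := 37403 / 100000)
    (by norm_num) (by norm_num) (by norm_num)
    (exp_bds (by norm_num) (by norm_num) (by norm_num [Finset.sum_range_succ, Nat.factorial])
      (by norm_num [Finset.sum_range_succ, Nat.factorial]))
    (by norm_num) (by norm_num) (by norm_num) (by norm_num) (by norm_num) (by norm_num) (by norm_num) (by norm_num)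
    (by norm_num) (by norm_num) (by norm_num) (by norm_num) hκ h0 hm

private theorem e6_2_10 {κ τ : ℝ} (hκ : 31 / 20 ≤ κ) (h0 : 0 ≤ τ) (hm : τ ≤ 1309 / 1250) : 141 / 200 ≤ lv κ τ :=
  lv_ge_num (κ₀ := 31 / 20) (y := 20999 / 50000) (Fl := 1521931 / 1000000) (Fh := 380483 / 250000) (xl := 92781 / 100000) (xh := 46391 / 50000) (τm := 1309 / 1250) (θ := 8501 / 20000)
    (by norm_num) (by norm_num) (by norm_num)
    (exp_bds (by norm_num) (by norm_num) (by norm_num [Finset.sum_range_succ, Nat.factorial])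
      (by norm_num [Finset.sum_range_succ, Nat.factorial]))
    (by norm_num) (by norm_num) (by norm_num) (by norm_num) (by norm_num) (by norm_num) (by norm_num) (by norm_num)
    (by norm_num) (by norm_num) (by norm_num) (by norm_num) hκ h0 hm

/-- class 6_2: `b = 6`, `κ ≥ 31 / 20` -/
theorem ld6_2 {κ h : ℝ} (hκ : 31 / 20 ≤ κ) (h0 : 0 < h) (hh : h ≤ 2 * π / 6) :
    LineData κ h 1 (1723 / 2000) (809 / 2000) (1277 / 2000) (27 / 125) (-113 / 200) (-21 / 50) (1601 / 10000) (89 / 100) := by
  have hk1 : 1 ≤ κ := by linarith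
  have hp4 := Real.pi_lt_d4
  have hp3 := Real.pi_gt_d2
  have hhq : h ≤ 1309 / 1250 := by
    refine hh.trans ?_
    rw [div_le_iff₀ (by norm_num)]
    linarith
  have L1 : Line κ h (1 / 10) (197 / 2000) (197 / 40000) := Line.stepN (l := 197 / 200) (τm := 1309 / 12500) hk1 h0.le (Line.zero hk1) (by norm_num) (by norm_num)
    (fun τ a b => e6_2_1 hκ a b) (by linarith) (by linarith) (by norm_num) (by norm_num)
  have L2 : Line κ h (1 / 5) (391 / 2000) (779 / 40000) := Line.stepN (l := 97 / 100) (τm := 1309 / 6250) hk1 h0.le L1 (by norm_num) (by norm_num)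
    (fun τ a b => e6_2_2 hκ a b) (by linarith) (by linarith) (by norm_num) (by norm_num)
  have L3 : Line κ h (3 / 10) (29 / 100) (431 / 10000) := Line.stepN (l := 189 / 200) (τm := 3927 / 12500) hk1 h0.le L2 (by norm_num) (by norm_num)
    (fun τ a b => e6_2_3 hκ a b) (by linarith) (by linarith) (by norm_num) (by norm_num)
  have L4 : Line κ h (2 / 5) (191 / 500) (753 / 10000) := Line.stepN (l := 23 / 25) (τm := 1309 / 3125) hk1 h0.le L3 (by norm_num) (by norm_num)
    (fun τ a b => e6_2_4 hκ a b) (by linarith) (by linarith) (by norm_num) (by norm_num)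
  have L5 : Line κ h (1 / 2) (471 / 1000) (2307 / 20000) := Line.stepN (l := 89 / 100) (τm := 1309 / 2500) hk1 h0.le L4 (by norm_num) (by norm_num)
    (fun τ a b => e6_2_5 hκ a b) (by linarith) (by linarith) (by norm_num) (by norm_num)
  have L6 : Line κ h (3 / 5) (1113 / 2000) (1299 / 8000) := Line.stepN (l := 171 / 200) (τm := 3927 / 6250) hk1 h0.le L5 (by norm_num) (by norm_num)
    (fun τ a b => e6_2_6 hκ a b) (by linarith) (by linarith) (by norm_num) (by norm_num)
  have L7 : Line κ h (7 / 10) (1277 / 2000) (8627 / 40000) := Line.stepN (l := 41 / 50) (τm := 9163 / 12500) hk1 h0.le L6 (by norm_num) (by norm_num)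
    (fun τ a b => e6_2_7 hκ a b) (by linarith) (by linarith) (by norm_num) (by norm_num)
  have L8 : Line κ h (4 / 5) (1433 / 2000) (10967 / 40000) := Line.stepN (l := 39 / 50) (τm := 2618 / 3125) hk1 h0.le L7 (by norm_num) (by norm_num)
    (fun τ a b => e6_2_8 hκ a b) (by linarith) (by linarith) (by norm_num) (by norm_num)
  have L9 : Line κ h (9 / 10) (791 / 1000) (27 / 80) := Line.stepN (l := 149 / 200) (τm := 11781 / 12500) hk1 h0.le L8 (by norm_num) (by norm_num)
    (fun τ a b => e6_2_9 hκ a b) (by linarith) (by linarith) (by norm_num) (by norm_num)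
  have L10 : Line κ h 1 (1723 / 2000) (16179 / 40000) := Line.stepN (l := 141 / 200) (τm := 1309 / 1250) hk1 h0.le L9 (by norm_num) (by norm_num)
    (fun τ a b => e6_2_10 hκ a b) (by linarith) (by linarith) (by norm_num) (by norm_num)
  have m1 : ∀ z ∈ Icc (-113 / 200 : ℝ) (-1 / 2), 89 / 100 ≤ yv κ ((z + 1) * h) / h - yv κ (z * h) / h :=
    mu_piece (a := 2 / 5) (S := 191 / 500) (C := 753 / 10000) (l := 89 / 100) (τm := 1309 / 2500) (H₁ := 33781 / 50000) (mp := 119643 / 250000) (mq := 86153 / 200000) hk1 h0 (by linarith)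
      L4 (by norm_num) (by norm_num) (by norm_num) (fun τ a b => e6_2_5 hκ a b) (by linarith) (by linarith)
      (exp_le_bd (by norm_num) (by norm_num) (by norm_num [Finset.sum_range_succ, Nat.factorial])) (exp_le_bd (by norm_num) (by norm_num) (by norm_num [Finset.sum_range_succ, Nat.factorial]))
      (by norm_num) (by norm_num)
  have m2 : ∀ z ∈ Icc (-1 / 2 : ℝ) (-21 / 50), 89 / 100 ≤ yv κ ((z + 1) * h) / h - yv κ (z * h) / h :=
    mu_piece (a := 1 / 2) (S := 471 / 1000) (C := 2307 / 20000) (l := 171 / 200) (τm := 3927 / 6250) (H₁ := 33781 / 50000) (mp := 86153 / 200000) (mq := 92431 / 250000) hk1 h0 (by linarith)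
      L5 (by norm_num) (by norm_num) (by norm_num) (fun τ a b => e6_2_6 hκ a b) (by linarith) (by linarith)
      (exp_le_bd (by norm_num) (by norm_num) (by norm_num [Finset.sum_range_succ, Nat.factorial])) (exp_le_bd (by norm_num) (by norm_num) (by norm_num [Finset.sum_range_succ, Nat.factorial]))
      (by norm_num) (by norm_num)
  exact ⟨L10.weaken h0.le (by norm_num) (by norm_num), L7.weaken h0.le (by norm_num) (by norm_num),
    Line.f1R (τm := 30369 / 50000) hk1 h0 L6 (by norm_num) (by linarith) (by linarith) (by norm_num), mu_glue m1 m2⟩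

/-- class 6_2: line at `1 + qL`, curvature up to `1 + qR` -/
theorem lr6_2 {κ h : ℝ} (hκ : 31 / 20 ≤ κ) (h0 : 0 < h) (hh : h ≤ 2 * π / 6) :
    Line κ h (1 + (-113 / 200)) (8263 / 20000) (706441 / 8000000) ∧ (∀ τ, 0 ≤ τ → τ ≤ 3927 / 6250 → 171 / 200 ≤ lv κ τ) ∧ (1 + (-21 / 50)) * h ≤ (3927 / 6250) ∧ (3927 / 6250) < κ + π / 2 := by
  have hk1 : 1 ≤ κ := by linarith
  have hp4 := Real.pi_lt_d4
  have hp3 := Real.pi_gt_d2
  have hhq : h ≤ 1309 / 1250 := by
    refine hh.trans ?_
    rw [div_le_iff₀ (by norm_num)]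
    linarith
  have L1 : Line κ h (1 / 10) (197 / 2000) (197 / 40000) := Line.stepN (l := 197 / 200) (τm := 1309 / 12500) hk1 h0.le (Line.zero hk1) (by norm_num) (by norm_num)
    (fun τ a b => e6_2_1 hκ a b) (by linarith) (by linarith) (by norm_num) (by norm_num)
  have L2 : Line κ h (1 / 5) (391 / 2000) (779 / 40000) := Line.stepN (l := 97 / 100) (τm := 1309 / 6250) hk1 h0.le L1 (by norm_num) (by norm_num)
    (fun τ a b => e6_2_2 hκ a b) (by linarith) (by linarith) (by norm_num) (by norm_num)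
  have L3 : Line κ h (3 / 10) (29 / 100) (431 / 10000) := Line.stepN (l := 189 / 200) (τm := 3927 / 12500) hk1 h0.le L2 (by norm_num) (by norm_num)
    (fun τ a b => e6_2_3 hκ a b) (by linarith) (by linarith) (by norm_num) (by norm_num)
  have L4 : Line κ h (2 / 5) (191 / 500) (753 / 10000) := Line.stepN (l := 23 / 25) (τm := 1309 / 3125) hk1 h0.le L3 (by norm_num) (by norm_num)
    (fun τ a b => e6_2_4 hκ a b) (by linarith) (by linarith) (by norm_num) (by norm_num)
  exact ⟨Line.stepN (l := 89 / 100) (τm := 1309 / 2500) hk1 h0.le L4 (by norm_num) (by norm_num)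
    (fun τ a b => e6_2_5 hκ a b) (by linarith) (by linarith) (by norm_num) (by norm_num), fun τ a b => e6_2_6 hκ a b,
    by linarith, by linarith⟩

private theorem e6_3_1 {κ τ : ℝ} (hκ : 433 / 250 ≤ κ) (h0 : 0 ≤ τ) (hm : τ ≤ 1309 / 12500) : 199 / 200 ≤ lv κ τ :=
  lv_ge_num (κ₀ := 433 / 250) (y := 1133 / 25000) (Fl := 523181 / 500000) (Fh := 1046363 / 1000000) (xl := 165463 / 100000) (xh := 20683 / 12500) (τm := 1309 / 12500) (θ := 1369 / 50000)
    (by norm_num) (by norm_num) (by norm_num)
    (exp_bds (by norm_num) (by norm_num) (by norm_num [Finset.sum_range_succ, Nat.factorial])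
      (by norm_num [Finset.sum_range_succ, Nat.factorial]))
    (by norm_num) (by norm_num) (by norm_num) (by norm_num) (by norm_num) (by norm_num) (by norm_num) (by norm_num)
    (by norm_num) (by norm_num) (by norm_num) (by norm_num) hκ h0 hm

private theorem e6_3_2 {κ τ : ℝ} (hκ : 433 / 250 ≤ κ) (h0 : 0 ≤ τ) (hm : τ ≤ 1309 / 6250) : 197 / 200 ≤ lv κ τ :=
  lv_ge_num (κ₀ := 433 / 250) (y := 113 / 1250) (Fl := 273653 / 250000) (Fh := 1094613 / 1000000) (xl := 15797 / 10000) (xh := 39493 / 25000) (τm := 1309 / 6250) (θ := 1429 / 25000)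
    (by norm_num) (by norm_num) (by norm_num)
    (exp_bds (by norm_num) (by norm_num) (by norm_num [Finset.sum_range_succ, Nat.factorial])
      (by norm_num [Finset.sum_range_succ, Nat.factorial]))
    (by norm_num) (by norm_num) (by norm_num) (by norm_num) (by norm_num) (by norm_num) (by norm_num) (by norm_num)
    (by norm_num) (by norm_num) (by norm_num) (by norm_num) hκ h0 hm

private theorem e6_3_3 {κ τ : ℝ} (hκ : 433 / 250 ≤ κ) (h0 : 0 ≤ τ) (hm : τ ≤ 3927 / 12500) : 39 / 40 ≤ lv κ τ :=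
  lv_ge_num (κ₀ := 433 / 250) (y := 422 / 3125) (Fl := 572291 / 500000) (Fh := 1144583 / 1000000) (xl := 150717 / 100000) (xh := 75359 / 50000) (τm := 3927 / 12500) (θ := 1787 / 20000)
    (by norm_num) (by norm_num) (by norm_num)
    (exp_bds (by norm_num) (by norm_num) (by norm_num [Finset.sum_range_succ, Nat.factorial])
      (by norm_num [Finset.sum_range_succ, Nat.factorial]))
    (by norm_num) (by norm_num) (by norm_num) (by norm_num) (by norm_num) (by norm_num) (by norm_num) (by norm_num)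
    (by norm_num) (by norm_num) (by norm_num) (by norm_num) hκ h0 hm

private theorem e6_3_4 {κ τ : ℝ} (hκ : 433 / 250 ≤ κ) (h0 : 0 ≤ τ) (hm : τ ≤ 1309 / 3125) : 191 / 200 ≤ lv κ τ :=
  lv_ge_num (κ₀ := 433 / 250) (y := 179 / 1000) (Fl := 59801 / 50000) (Fh := 1196021 / 1000000) (xl := 71851 / 50000) (xh := 17963 / 12500) (τm := 1309 / 3125) (θ := 1549 / 12500)
    (by norm_num) (by norm_num) (by norm_num)
    (exp_bds (by norm_num) (by norm_num) (by norm_num [Finset.sum_range_succ, Nat.factorial])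
      (by norm_num [Finset.sum_range_succ, Nat.factorial]))
    (by norm_num) (by norm_num) (by norm_num) (by norm_num) (by norm_num) (by norm_num) (by norm_num) (by norm_num)
    (by norm_num) (by norm_num) (by norm_num) (by norm_num) hκ h0 hm

private theorem e6_3_5 {κ τ : ℝ} (hκ : 433 / 250 ≤ κ) (h0 : 0 ≤ τ) (hm : τ ≤ 1309 / 2500) : 187 / 200 ≤ lv κ τ :=
  lv_ge_num (κ₀ := 433 / 250) (y := 694 / 3125) (Fl := 1248671 / 1000000) (Fh := 39021 / 31250) (xl := 136917 / 100000) (xh := 136919 / 100000) (τm := 1309 / 2500) (θ := 16079 / 100000)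
    (by norm_num) (by norm_num) (by norm_num)
    (exp_bds (by norm_num) (by norm_num) (by norm_num [Finset.sum_range_succ, Nat.factorial])
      (by norm_num [Finset.sum_range_succ, Nat.factorial]))
    (by norm_num) (by norm_num) (by norm_num) (by norm_num) (by norm_num) (by norm_num) (by norm_num) (by norm_num)
    (by norm_num) (by norm_num) (by norm_num) (by norm_num) hκ h0 hm

private theorem e6_3_6 {κ τ : ℝ} (hκ : 433 / 250 ≤ κ) (h0 : 0 ≤ τ) (hm : τ ≤ 3927 / 6250) : 91 / 100 ≤ lv κ τ :=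
  lv_ge_num (κ₀ := 433 / 250) (y := 3301 / 12500) (Fl := 162779 / 125000) (Fh := 1302233 / 1000000) (xl := 65177 / 50000) (xh := 26071 / 20000) (τm := 3927 / 6250) (θ := 19987 / 100000)
    (by norm_num) (by norm_num) (by norm_num)
    (exp_bds (by norm_num) (by norm_num) (by norm_num [Finset.sum_range_succ, Nat.factorial])
      (by norm_num [Finset.sum_range_succ, Nat.factorial]))
    (by norm_num) (by norm_num) (by norm_num) (by norm_num) (by norm_num) (by norm_num) (by norm_num) (by norm_num)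
    (by norm_num) (by norm_num) (by norm_num) (by norm_num) hκ h0 hm

private theorem e6_3_7 {κ τ : ℝ} (hκ : 433 / 250 ≤ κ) (h0 : 0 ≤ τ) (hm : τ ≤ 9163 / 12500) : 22 / 25 ≤ lv κ τ :=
  lv_ge_num (κ₀ := 433 / 250) (y := 30483 / 100000) (Fl := 678197 / 500000) (Fh := 271279 / 200000) (xl := 123999 / 100000) (xh := 31 / 25) (τm := 9163 / 12500) (θ := 3013 / 12500)
    (by norm_num) (by norm_num) (by norm_num)
    (exp_bds (by norm_num) (by norm_num) (by norm_num [Finset.sum_range_succ, Nat.factorial])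
      (by norm_num [Finset.sum_range_succ, Nat.factorial]))
    (by norm_num) (by norm_num) (by norm_num) (by norm_num) (by norm_num) (by norm_num) (by norm_num) (by norm_num)
    (by norm_num) (by norm_num) (by norm_num) (by norm_num) hκ h0 hm

private theorem e6_3_8 {κ τ : ℝ} (hκ : 433 / 250 ≤ κ) (h0 : 0 ≤ τ) (hm : τ ≤ 2618 / 3125) : 169 / 200 ≤ lv κ τ :=
  lv_ge_num (κ₀ := 433 / 250) (y := 34419 / 100000) (Fl := 705423 / 500000) (Fh := 1410847 / 1000000) (xl := 117839 / 100000) (xh := 1473 / 1250) (τm := 2618 / 3125) (θ := 28417 / 100000)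
    (by norm_num) (by norm_num) (by norm_num)
    (exp_bds (by norm_num) (by norm_num) (by norm_num [Finset.sum_range_succ, Nat.factorial])
      (by norm_num [Finset.sum_range_succ, Nat.factorial]))
    (by norm_num) (by norm_num) (by norm_num) (by norm_num) (by norm_num) (by norm_num) (by norm_num) (by norm_num)
    (by norm_num) (by norm_num) (by norm_num) (by norm_num) hκ h0 hm

private theorem e6_3_9 {κ τ : ℝ} (hκ : 433 / 250 ≤ κ) (h0 : 0 ≤ τ) (hm : τ ≤ 11781 / 12500) : 163 / 200 ≤ lv κ τ :=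
  lv_ge_num (κ₀ := 433 / 250) (y := 38203 / 100000) (Fl := 183157 / 125000) (Fh := 1465257 / 1000000) (xl := 5593 / 5000) (xh := 111861 / 100000) (τm := 11781 / 12500) (θ := 3291 / 10000)
    (by norm_num) (by norm_num) (by norm_num)
    (exp_bds (by norm_num) (by norm_num) (by norm_num [Finset.sum_range_succ, Nat.factorial])
      (by norm_num [Finset.sum_range_succ, Nat.factorial]))
    (by norm_num) (by norm_num) (by norm_num) (by norm_num) (by norm_num) (by norm_num) (by norm_num) (by norm_num)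
    (by norm_num) (by norm_num) (by norm_num) (by norm_num) hκ h0 hm

private theorem e6_3_10 {κ τ : ℝ} (hκ : 433 / 250 ≤ κ) (h0 : 0 ≤ τ) (hm : τ ≤ 1309 / 1250) : 31 / 40 ≤ lv κ τ :=
  lv_ge_num (κ₀ := 433 / 250) (y := 41827 / 100000) (Fl := 151933 / 100000) (Fh := 1519331 / 1000000) (xl := 53023 / 50000) (xh := 106047 / 100000) (τm := 1309 / 1250) (θ := 1174 / 3125)
    (by norm_num) (by norm_num) (by norm_num)
    (exp_bds (by norm_num) (by norm_num) (by norm_num [Finset.sum_range_succ, Nat.factorial])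
      (by norm_num [Finset.sum_range_succ, Nat.factorial]))
    (by norm_num) (by norm_num) (by norm_num) (by norm_num) (by norm_num) (by norm_num) (by norm_num) (by norm_num)
    (by norm_num) (by norm_num) (by norm_num) (by norm_num) hκ h0 hm

/-- class 6_3: `b = 6`, `κ ≥ 433 / 250` -/
theorem ld6_3 {κ h : ℝ} (hκ : 433 / 250 ≤ κ) (h0 : 0 < h) (hh : h ≤ 2 * π / 6) :
    LineData κ h 1 (907 / 1000) (867 / 2000) (1327 / 2000) (227 / 1000) (-57 / 100) (-83 / 200) (1667 / 10000) (181 / 200) := by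
  have hk1 : 1 ≤ κ := by linarith
  have hp4 := Real.pi_lt_d4
  have hp3 := Real.pi_gt_d2
  have hhq : h ≤ 1309 / 1250 := by
    refine hh.trans ?_
    rw [div_le_iff₀ (by norm_num)]
    linarith
  have L1 : Line κ h (1 / 10) (199 / 2000) (199 / 40000) := Line.stepN (l := 199 / 200) (τm := 1309 / 12500) hk1 h0.le (Line.zero hk1) (by norm_num) (by norm_num)
    (fun τ a b => e6_3_1 hκ a b) (by linarith) (by linarith) (by norm_num) (by norm_num)
  have L2 : Line κ h (1 / 5) (99 / 500) (79 / 4000) := Line.stepN (l := 197 / 200) (τm := 1309 / 6250) hk1 h0.le L1 (by norm_num) (by norm_num)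
    (fun τ a b => e6_3_2 hκ a b) (by linarith) (by linarith) (by norm_num) (by norm_num)
  have L3 : Line κ h (3 / 10) (591 / 2000) (353 / 8000) := Line.stepN (l := 39 / 40) (τm := 3927 / 12500) hk1 h0.le L2 (by norm_num) (by norm_num)
    (fun τ a b => e6_3_3 hκ a b) (by linarith) (by linarith) (by norm_num) (by norm_num)
  have L4 : Line κ h (2 / 5) (391 / 1000) (1551 / 20000) := Line.stepN (l := 191 / 200) (τm := 1309 / 3125) hk1 h0.le L3 (by norm_num) (by norm_num)
    (fun τ a b => e6_3_4 hκ a b) (by linarith) (by linarith) (by norm_num) (by norm_num)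
  have L5 : Line κ h (1 / 2) (969 / 2000) (957 / 8000) := Line.stepN (l := 187 / 200) (τm := 1309 / 2500) hk1 h0.le L4 (by norm_num) (by norm_num)
    (fun τ a b => e6_3_5 hκ a b) (by linarith) (by linarith) (by norm_num) (by norm_num)
  have L6 : Line κ h (3 / 5) (1151 / 2000) (6787 / 40000) := Line.stepN (l := 91 / 100) (τm := 3927 / 6250) hk1 h0.le L5 (by norm_num) (by norm_num)
    (fun τ a b => e6_3_6 hκ a b) (by linarith) (by linarith) (by norm_num) (by norm_num)
  have L7 : Line κ h (7 / 10) (1327 / 2000) (363 / 1600) := Line.stepN (l := 22 / 25) (τm := 9163 / 12500) hk1 h0.le L6 (by norm_num) (by norm_num)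
    (fun τ a b => e6_3_7 hκ a b) (by linarith) (by linarith) (by norm_num) (by norm_num)
  have L8 : Line κ h (4 / 5) (187 / 250) (1161 / 4000) := Line.stepN (l := 169 / 200) (τm := 2618 / 3125) hk1 h0.le L7 (by norm_num) (by norm_num)
    (fun τ a b => e6_3_8 hκ a b) (by linarith) (by linarith) (by norm_num) (by norm_num)
  have L9 : Line κ h (9 / 10) (1659 / 2000) (14381 / 40000) := Line.stepN (l := 163 / 200) (τm := 11781 / 12500) hk1 h0.le L8 (by norm_num) (by norm_num)
    (fun τ a b => e6_3_9 hκ a b) (by linarith) (by linarith) (by norm_num) (by norm_num)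
  have L10 : Line κ h 1 (907 / 1000) (8663 / 20000) := Line.stepN (l := 31 / 40) (τm := 1309 / 1250) hk1 h0.le L9 (by norm_num) (by norm_num)
    (fun τ a b => e6_3_10 hκ a b) (by linarith) (by linarith) (by norm_num) (by norm_num)
  have m1 : ∀ z ∈ Icc (-57 / 100 : ℝ) (-1 / 2), 181 / 200 ≤ yv κ ((z + 1) * h) / h - yv κ (z * h) / h :=
    mu_piece (a := 2 / 5) (S := 391 / 1000) (C := 1551 / 20000) (l := 187 / 200) (τm := 1309 / 2500) (H₁ := 30231 / 50000) (mp := 122441 / 250000) (mq := 109217 / 250000) hk1 h0 (by linarith)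
      L4 (by norm_num) (by norm_num) (by norm_num) (fun τ a b => e6_3_5 hκ a b) (by linarith) (by linarith)
      (exp_le_bd (by norm_num) (by norm_num) (by norm_num [Finset.sum_range_succ, Nat.factorial])) (exp_le_bd (by norm_num) (by norm_num) (by norm_num [Finset.sum_range_succ, Nat.factorial]))
      (by norm_num) (by norm_num)
  have m2 : ∀ z ∈ Icc (-1 / 2 : ℝ) (-83 / 200), 181 / 200 ≤ yv κ ((z + 1) * h) / h - yv κ (z * h) / h :=
    mu_piece (a := 1 / 2) (S := 969 / 2000) (C := 957 / 8000) (l := 91 / 100) (τm := 3927 / 6250) (H₁ := 30231 / 50000) (mp := 109217 / 250000) (mq := 370277 / 1000000) hk1 h0 (by linarith)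
      L5 (by norm_num) (by norm_num) (by norm_num) (fun τ a b => e6_3_6 hκ a b) (by linarith) (by linarith)
      (exp_le_bd (by norm_num) (by norm_num) (by norm_num [Finset.sum_range_succ, Nat.factorial])) (exp_le_bd (by norm_num) (by norm_num) (by norm_num [Finset.sum_range_succ, Nat.factorial]))
      (by norm_num) (by norm_num)
  exact ⟨L10.weaken h0.le (by norm_num) (by norm_num), L7.weaken h0.le (by norm_num) (by norm_num),
    Line.f1R (τm := 30631 / 50000) hk1 h0 L6 (by norm_num) (by linarith) (by linarith) (by norm_num), mu_glue m1 m2⟩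

/-- class 6_3: line at `1 + qL`, curvature up to `1 + qR` -/
theorem lr6_3 {κ h : ℝ} (hκ : 433 / 250 ≤ κ) (h0 : 0 < h) (hh : h ≤ 2 * π / 6) :
    Line κ h (1 + (-57 / 100)) (8381 / 20000) (356763 / 4000000) ∧ (∀ τ, 0 ≤ τ → τ ≤ 3927 / 6250 → 91 / 100 ≤ lv κ τ) ∧ (1 + (-83 / 200)) * h ≤ (3927 / 6250) ∧ (3927 / 6250) < κ + π / 2 := by
  have hk1 : 1 ≤ κ := by linarith
  have hp4 := Real.pi_lt_d4
  have hp3 := Real.pi_gt_d2
  have hhq : h ≤ 1309 / 1250 := by
    refine hh.trans ?_
    rw [div_le_iff₀ (by norm_num)]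
    linarith
  have L1 : Line κ h (1 / 10) (199 / 2000) (199 / 40000) := Line.stepN (l := 199 / 200) (τm := 1309 / 12500) hk1 h0.le (Line.zero hk1) (by norm_num) (by norm_num)
    (fun τ a b => e6_3_1 hκ a b) (by linarith) (by linarith) (by norm_num) (by norm_num)
  have L2 : Line κ h (1 / 5) (99 / 500) (79 / 4000) := Line.stepN (l := 197 / 200) (τm := 1309 / 6250) hk1 h0.le L1 (by norm_num) (by norm_num)
    (fun τ a b => e6_3_2 hκ a b) (by linarith) (by linarith) (by norm_num) (by norm_num)
  have L3 : Line κ h (3 / 10) (591 / 2000) (353 / 8000) := Line.stepN (l := 39 / 40) (τm := 3927 / 12500) hk1 h0.le L2 (by norm_num) (by norm_num)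
    (fun τ a b => e6_3_3 hκ a b) (by linarith) (by linarith) (by norm_num) (by norm_num)
  have L4 : Line κ h (2 / 5) (391 / 1000) (1551 / 20000) := Line.stepN (l := 191 / 200) (τm := 1309 / 3125) hk1 h0.le L3 (by norm_num) (by norm_num)
    (fun τ a b => e6_3_4 hκ a b) (by linarith) (by linarith) (by norm_num) (by norm_num)
  exact ⟨Line.stepN (l := 187 / 200) (τm := 1309 / 2500) hk1 h0.le L4 (by norm_num) (by norm_num)
    (fun τ a b => e6_3_5 hκ a b) (by linarith) (by linarith) (by norm_num) (by norm_num), fun τ a b => e6_3_6 hκ a b,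
    by linarith, by linarith⟩

end R2

end Sok
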