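import Pool.Agent.Lib.MP_816dec_an.R2LineN

/-!
MP_816dec_an, row R2 (5), (6): the right lines of the classes b = 7, 8 (numbers of `R2Cls`).
-/

set_option autoImplicit false

open Set Filter Topology Real

namespace Sok

namespace R2

private theorem e7_1_1 {κ τ : ℝ} (hκ : 139 / 100 ≤ κ) (h0 : 0 ≤ τ) (hm : τ ≤ 561 / 6250) : 49 / 50 ≤ lv κ τ :=
  lv_ge_num (κ₀ := 139 / 100) (y := 211 / 5000) (Fl := 1043103 / 1000000) (Fh := 32597 / 31250) (xl := 133189 / 100000) (xh := 13319 / 10000) (τm := 561 / 6250) (θ := 3167 / 100000)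
    (by norm_num) (by norm_num) (by norm_num)
    (exp_bds (by norm_num) (by norm_num) (by norm_num [Finset.sum_range_succ, Nat.factorial])
      (by norm_num [Finset.sum_range_succ, Nat.factorial]))
    (by norm_num) (by norm_num) (by norm_num) (by norm_num) (by norm_num) (by norm_num) (by norm_num) (by norm_num)
    (by norm_num) (by norm_num) (by norm_num) (by norm_num) hκ h0 hm

private theorem e7_1_2 {κ τ : ℝ} (hκ : 139 / 100 ≤ κ) (h0 : 0 ≤ τ) (hm : τ ≤ 561 / 3125) : 191 / 200 ≤ lv κ τ :=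
  lv_ge_num (κ₀ := 139 / 100) (y := 1671 / 20000) (Fl := 1087139 / 1000000) (Fh := 54357 / 50000) (xl := 25517 / 20000) (xh := 63793 / 50000) (τm := 561 / 3125) (θ := 6539 / 100000)
    (by norm_num) (by norm_num) (by norm_num)
    (exp_bds (by norm_num) (by norm_num) (by norm_num [Finset.sum_range_succ, Nat.factorial])
      (by norm_num [Finset.sum_range_succ, Nat.factorial]))
    (by norm_num) (by norm_num) (by norm_num) (by norm_num) (by norm_num) (by norm_num) (by norm_num) (by norm_num)
    (by norm_num) (by norm_num) (by norm_num) (by norm_num) hκ h0 hm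

private theorem e7_1_3 {κ τ : ℝ} (hκ : 139 / 100 ≤ κ) (h0 : 0 ≤ τ) (hm : τ ≤ 1683 / 6250) : 93 / 100 ≤ lv κ τ :=
  lv_ge_num (κ₀ := 139 / 100) (y := 12389 / 100000) (Fl := 1131891 / 1000000) (Fh := 282973 / 250000) (xl := 3818 / 3125) (xh := 122177 / 100000) (τm := 1683 / 6250) (θ := 2021 / 20000)
    (by norm_num) (by norm_num) (by norm_num)
    (exp_bds (by norm_num) (by norm_num) (by norm_num [Finset.sum_range_succ, Nat.factorial])
      (by norm_num [Finset.sum_range_succ, Nat.factorial]))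
    (by norm_num) (by norm_num) (by norm_num) (by norm_num) (by norm_num) (by norm_num) (by norm_num) (by norm_num)
    (by norm_num) (by norm_num) (by norm_num) (by norm_num) hκ h0 hm

private theorem e7_1_4 {κ τ : ℝ} (hκ : 139 / 100 ≤ κ) (h0 : 0 ≤ τ) (hm : τ ≤ 1122 / 3125) : 9 / 10 ≤ lv κ τ :=
  lv_ge_num (κ₀ := 139 / 100) (y := 16309 / 100000) (Fl := 588571 / 500000) (Fh := 1177143 / 1000000) (xl := 2339 / 2000) (xh := 116951 / 100000) (τm := 1122 / 3125) (θ := 2771 / 20000)
    (by norm_num) (by norm_num) (by norm_num)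
    (exp_bds (by norm_num) (by norm_num) (by norm_num [Finset.sum_range_succ, Nat.factorial])
      (by norm_num [Finset.sum_range_succ, Nat.factorial]))
    (by norm_num) (by norm_num) (by norm_num) (by norm_num) (by norm_num) (by norm_num) (by norm_num) (by norm_num)
    (by norm_num) (by norm_num) (by norm_num) (by norm_num) hκ h0 hm

private theorem e7_1_5 {κ τ : ℝ} (hκ : 139 / 100 ≤ κ) (h0 : 0 ≤ τ) (hm : τ ≤ 561 / 1250) : 87 / 100 ≤ lv κ τ :=
  lv_ge_num (κ₀ := 139 / 100) (y := 20103 / 100000) (Fl := 1222661 / 1000000) (Fh := 611331 / 500000) (xl := 55947 / 50000) (xh := 22379 / 20000) (τm := 561 / 1250) (θ := 1111 / 6250)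
    (by norm_num) (by norm_num) (by norm_num)
    (exp_bds (by norm_num) (by norm_num) (by norm_num [Finset.sum_range_succ, Nat.factorial])
      (by norm_num [Finset.sum_range_succ, Nat.factorial]))
    (by norm_num) (by norm_num) (by norm_num) (by norm_num) (by norm_num) (by norm_num) (by norm_num) (by norm_num)
    (by norm_num) (by norm_num) (by norm_num) (by norm_num) hκ h0 hm

private theorem e7_1_6 {κ τ : ℝ} (hκ : 139 / 100 ≤ κ) (h0 : 0 ≤ τ) (hm : τ ≤ 1683 / 3125) : 21 / 25 ≤ lv κ τ :=
  lv_ge_num (κ₀ := 139 / 100) (y := 11881 / 50000) (Fl := 1268227 / 1000000) (Fh := 317057 / 250000) (xl := 53497 / 50000) (xh := 21399 / 20000) (τm := 1683 / 3125) (θ := 21853 / 100000)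
    (by norm_num) (by norm_num) (by norm_num)
    (exp_bds (by norm_num) (by norm_num) (by norm_num [Finset.sum_range_succ, Nat.factorial])
      (by norm_num [Finset.sum_range_succ, Nat.factorial]))
    (by norm_num) (by norm_num) (by norm_num) (by norm_num) (by norm_num) (by norm_num) (by norm_num) (by norm_num)
    (by norm_num) (by norm_num) (by norm_num) (by norm_num) hκ h0 hm

private theorem e7_1_7 {κ τ : ℝ} (hκ : 139 / 100 ≤ κ) (h0 : 0 ≤ τ) (hm : τ ≤ 3927 / 6250) : 161 / 200 ≤ lv κ τ :=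
  lv_ge_num (κ₀ := 139 / 100) (y := 13639 / 50000) (Fl := 1313611 / 1000000) (Fh := 328403 / 250000) (xl := 51119 / 50000) (xh := 102239 / 100000) (τm := 3927 / 6250) (θ := 26073 / 100000)
    (by norm_num) (by norm_num) (by norm_num)
    (exp_bds (by norm_num) (by norm_num) (by norm_num [Finset.sum_range_succ, Nat.factorial])
      (by norm_num [Finset.sum_range_succ, Nat.factorial]))
    (by norm_num) (by norm_num) (by norm_num) (by norm_num) (by norm_num) (by norm_num) (by norm_num) (by norm_num)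
    (by norm_num) (by norm_num) (by norm_num) (by norm_num) hκ h0 hm

private theorem e7_1_8 {κ τ : ℝ} (hκ : 139 / 100 ≤ κ) (h0 : 0 ≤ τ) (hm : τ ≤ 2244 / 3125) : 77 / 100 ≤ lv κ τ :=
  lv_ge_num (κ₀ := 139 / 100) (y := 30647 / 100000) (Fl := 67931 / 50000) (Fh := 1358621 / 1000000) (xl := 97611 / 100000) (xh := 24403 / 25000) (τm := 2244 / 3125) (θ := 15211 / 50000)
    (by norm_num) (by norm_num) (by norm_num)
    (exp_bds (by norm_num) (by norm_num) (by norm_num [Finset.sum_range_succ, Nat.factorial])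
      (by norm_num [Finset.sum_range_succ, Nat.factorial]))
    (by norm_num) (by norm_num) (by norm_num) (by norm_num) (by norm_num) (by norm_num) (by norm_num) (by norm_num)
    (by norm_num) (by norm_num) (by norm_num) (by norm_num) hκ h0 hm

private theorem e7_1_9 {κ τ : ℝ} (hκ : 139 / 100 ≤ κ) (h0 : 0 ≤ τ) (hm : τ ≤ 5049 / 6250) : 147 / 200 ≤ lv κ τ :=
  lv_ge_num (κ₀ := 139 / 100) (y := 6773 / 20000) (Fl := 350763 / 250000) (Fh := 1403053 / 1000000) (xl := 93101 / 100000) (xh := 46551 / 50000) (τm := 5049 / 6250) (θ := 17443 / 50000)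
    (by norm_num) (by norm_num) (by norm_num)
    (exp_bds (by norm_num) (by norm_num) (by norm_num [Finset.sum_range_succ, Nat.factorial])
      (by norm_num [Finset.sum_range_succ, Nat.factorial]))
    (by norm_num) (by norm_num) (by norm_num) (by norm_num) (by norm_num) (by norm_num) (by norm_num) (by norm_num)
    (by norm_num) (by norm_num) (by norm_num) (by norm_num) hκ h0 hm

private theorem e7_1_10 {κ τ : ℝ} (hκ : 139 / 100 ≤ κ) (h0 : 0 ≤ τ) (hm : τ ≤ 561 / 625) : 7 / 10 ≤ lv κ τ :=
  lv_ge_num (κ₀ := 139 / 100) (y := 36933 / 100000) (Fl := 361691 / 250000) (Fh := 289353 / 200000) (xl := 44347 / 50000) (xh := 17739 / 20000) (τm := 561 / 625) (θ := 1233 / 3125)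
    (by norm_num) (by norm_num) (by norm_num)
    (exp_bds (by norm_num) (by norm_num) (by norm_num [Finset.sum_range_succ, Nat.factorial])
      (by norm_num [Finset.sum_range_succ, Nat.factorial]))
    (by norm_num) (by norm_num) (by norm_num) (by norm_num) (by norm_num) (by norm_num) (by norm_num) (by norm_num)
    (by norm_num) (by norm_num) (by norm_num) (by norm_num) hκ h0 hm

/-- class 7_1: `b = 7`, `κ ≥ 139 / 100` -/
theorem ld7_1 {κ h : ℝ} (hκ : 139 / 100 ≤ κ) (h0 : 0 < h) (hh : h ≤ 2 * π / 7) :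
    LineData κ h 1 (1697 / 2000) (797 / 2000) (157 / 250) (53 / 250) (-113 / 200) (-21 / 50) (79 / 500) (177 / 200) := by
  have hk1 : 1 ≤ κ := by linarith
  have hp4 := Real.pi_lt_d4
  have hp3 := Real.pi_gt_d2
  have hhq : h ≤ 561 / 625 := by
    refine hh.trans ?_
    rw [div_le_iff₀ (by norm_num)]
    linarith
  have L1 : Line κ h (1 / 10) (49 / 500) (49 / 10000) := Line.stepN (l := 49 / 50) (τm := 561 / 6250) hk1 h0.le (Line.zero hk1) (by norm_num) (by norm_num)
    (fun τ a b => e7_1_1 hκ a b) (by linarith) (by linarith) (by norm_num) (by norm_num)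
  have L2 : Line κ h (1 / 5) (387 / 2000) (769 / 40000) := Line.stepN (l := 191 / 200) (τm := 561 / 3125) hk1 h0.le L1 (by norm_num) (by norm_num)
    (fun τ a b => e7_1_2 hκ a b) (by linarith) (by linarith) (by norm_num) (by norm_num)
  have L3 : Line κ h (3 / 10) (573 / 2000) (1699 / 40000) := Line.stepN (l := 93 / 100) (τm := 1683 / 6250) hk1 h0.le L2 (by norm_num) (by norm_num)
    (fun τ a b => e7_1_3 hκ a b) (by linarith) (by linarith) (by norm_num) (by norm_num)
  have L4 : Line κ h (2 / 5) (753 / 2000) (2959 / 40000) := Line.stepN (l := 9 / 10) (τm := 1122 / 3125) hk1 h0.le L3 (by norm_num) (by norm_num)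
    (fun τ a b => e7_1_4 hκ a b) (by linarith) (by linarith) (by norm_num) (by norm_num)
  have L5 : Line κ h (1 / 2) (927 / 2000) (181 / 1600) := Line.stepN (l := 87 / 100) (τm := 561 / 1250) hk1 h0.le L4 (by norm_num) (by norm_num)
    (fun τ a b => e7_1_5 hκ a b) (by linarith) (by linarith) (by norm_num) (by norm_num)
  have L6 : Line κ h (3 / 5) (219 / 400) (6373 / 40000) := Line.stepN (l := 21 / 25) (τm := 1683 / 3125) hk1 h0.le L5 (by norm_num) (by norm_num)
    (fun τ a b => e7_1_6 hκ a b) (by linarith) (by linarith) (by norm_num) (by norm_num)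
  have L7 : Line κ h (7 / 10) (157 / 250) (4233 / 20000) := Line.stepN (l := 161 / 200) (τm := 3927 / 6250) hk1 h0.le L6 (by norm_num) (by norm_num)
    (fun τ a b => e7_1_7 hκ a b) (by linarith) (by linarith) (by norm_num) (by norm_num)
  have L8 : Line κ h (4 / 5) (141 / 200) (1347 / 5000) := Line.stepN (l := 77 / 100) (τm := 2244 / 3125) hk1 h0.le L7 (by norm_num) (by norm_num)
    (fun τ a b => e7_1_8 hκ a b) (by linarith) (by linarith) (by norm_num) (by norm_num)
  have L9 : Line κ h (9 / 10) (1557 / 2000) (531 / 1600) := Line.stepN (l := 147 / 200) (τm := 5049 / 6250) hk1 h0.le L8 (by norm_num) (by norm_num)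
    (fun τ a b => e7_1_9 hκ a b) (by linarith) (by linarith) (by norm_num) (by norm_num)
  have L10 : Line κ h 1 (1697 / 2000) (3187 / 8000) := Line.stepN (l := 7 / 10) (τm := 561 / 625) hk1 h0.le L9 (by norm_num) (by norm_num)
    (fun τ a b => e7_1_10 hκ a b) (by linarith) (by linarith) (by norm_num) (by norm_num)
  have m1 : ∀ z ∈ Icc (-113 / 200 : ℝ) (-1 / 2), 177 / 200 ≤ yv κ ((z + 1) * h) / h - yv κ (z * h) / h :=
    mu_piece (a := 2 / 5) (S := 753 / 2000) (C := 2959 / 40000) (l := 87 / 100) (τm := 561 / 1250) (H₁ := 2018 / 3125) (mp := 481677 / 1000000) (mq := 86661 / 200000) hk1 h0 (by linarith)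
      L4 (by norm_num) (by norm_num) (by norm_num) (fun τ a b => e7_1_5 hκ a b) (by linarith) (by linarith)
      (exp_le_bd (by norm_num) (by norm_num) (by norm_num [Finset.sum_range_succ, Nat.factorial])) (exp_le_bd (by norm_num) (by norm_num) (by norm_num [Finset.sum_range_succ, Nat.factorial]))
      (by norm_num) (by norm_num)
  have m2 : ∀ z ∈ Icc (-1 / 2 : ℝ) (-21 / 50), 177 / 200 ≤ yv κ ((z + 1) * h) / h - yv κ (z * h) / h :=
    mu_piece (a := 1 / 2) (S := 927 / 2000) (C := 181 / 1600) (l := 21 / 25) (τm := 1683 / 3125) (H₁ := 2018 / 3125) (mp := 86661 / 200000) (mq := 185809 / 500000) hk1 h0 (by linarith)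
      L5 (by norm_num) (by norm_num) (by norm_num) (fun τ a b => e7_1_6 hκ a b) (by linarith) (by linarith)
      (exp_le_bd (by norm_num) (by norm_num) (by norm_num [Finset.sum_range_succ, Nat.factorial])) (exp_le_bd (by norm_num) (by norm_num) (by norm_num [Finset.sum_range_succ, Nat.factorial]))
      (by norm_num) (by norm_num)
  exact ⟨L10.weaken h0.le (by norm_num) (by norm_num), L7.weaken h0.le (by norm_num) (by norm_num),
    Line.f1R (τm := 52061 / 100000) hk1 h0 L6 (by norm_num) (by linarith) (by linarith) (by norm_num), mu_glue m1 m2⟩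

/-- class 7_1: line at `1 + qL`, curvature up to `1 + qR` -/
theorem lr7_1 {κ h : ℝ} (hκ : 139 / 100 ≤ κ) (h0 : 0 < h) (hh : h ≤ 2 * π / 7) :
    Line κ h (1 + (-113 / 200)) (8139 / 20000) (693503 / 8000000) ∧ (∀ τ, 0 ≤ τ → τ ≤ 1683 / 3125 → 21 / 25 ≤ lv κ τ) ∧ (1 + (-21 / 50)) * h ≤ (1683 / 3125) ∧ (1683 / 3125) < κ + π / 2 := by
  have hk1 : 1 ≤ κ := by linarith
  have hp4 := Real.pi_lt_d4
  have hp3 := Real.pi_gt_d2
  have hhq : h ≤ 561 / 625 := by
    refine hh.trans ?_
    rw [div_le_iff₀ (by norm_num)]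
    linarith
  have L1 : Line κ h (1 / 10) (49 / 500) (49 / 10000) := Line.stepN (l := 49 / 50) (τm := 561 / 6250) hk1 h0.le (Line.zero hk1) (by norm_num) (by norm_num)
    (fun τ a b => e7_1_1 hκ a b) (by linarith) (by linarith) (by norm_num) (by norm_num)
  have L2 : Line κ h (1 / 5) (387 / 2000) (769 / 40000) := Line.stepN (l := 191 / 200) (τm := 561 / 3125) hk1 h0.le L1 (by norm_num) (by norm_num)
    (fun τ a b => e7_1_2 hκ a b) (by linarith) (by linarith) (by norm_num) (by norm_num)
  have L3 : Line κ h (3 / 10) (573 / 2000) (1699 / 40000) := Line.stepN (l := 93 / 100) (τm := 1683 / 6250) hk1 h0.le L2 (by norm_num) (by norm_num)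
    (fun τ a b => e7_1_3 hκ a b) (by linarith) (by linarith) (by norm_num) (by norm_num)
  have L4 : Line κ h (2 / 5) (753 / 2000) (2959 / 40000) := Line.stepN (l := 9 / 10) (τm := 1122 / 3125) hk1 h0.le L3 (by norm_num) (by norm_num)
    (fun τ a b => e7_1_4 hκ a b) (by linarith) (by linarith) (by norm_num) (by norm_num)
  exact ⟨Line.stepN (l := 87 / 100) (τm := 561 / 1250) hk1 h0.le L4 (by norm_num) (by norm_num)
    (fun τ a b => e7_1_5 hκ a b) (by linarith) (by linarith) (by norm_num) (by norm_num), fun τ a b => e7_1_6 hκ a b,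
    by linarith, by linarith⟩

private theorem e7_2_1 {κ τ : ℝ} (hκ : 433 / 250 ≤ κ) (h0 : 0 ≤ τ) (hm : τ ≤ 561 / 6250) : 199 / 200 ≤ lv κ τ :=
  lv_ge_num (κ₀ := 433 / 250) (y := 777 / 20000) (Fl := 519807 / 500000) (Fh := 207923 / 200000) (xl := 83277 / 50000) (xh := 33311 / 20000) (τm := 561 / 6250) (θ := 583 / 25000)
    (by norm_num) (by norm_num) (by norm_num)
    (exp_bds (by norm_num) (by norm_num) (by norm_num [Finset.sum_range_succ, Nat.factorial])
      (by norm_num [Finset.sum_range_succ, Nat.factorial]))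
    (by norm_num) (by norm_num) (by norm_num) (by norm_num) (by norm_num) (by norm_num) (by norm_num) (by norm_num)
    (by norm_num) (by norm_num) (by norm_num) (by norm_num) hκ h0 hm

private theorem e7_2_2 {κ τ : ℝ} (hκ : 433 / 250 ≤ κ) (h0 : 0 ≤ τ) (hm : τ ≤ 561 / 3125) : 99 / 100 ≤ lv κ τ :=
  lv_ge_num (κ₀ := 433 / 250) (y := 1939 / 25000) (Fl := 1080647 / 1000000) (Fh := 135081 / 125000) (xl := 80043 / 50000) (xh := 160087 / 100000) (τm := 561 / 3125) (θ := 121 / 2500)
    (by norm_num) (by norm_num) (by norm_num)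
    (exp_bds (by norm_num) (by norm_num) (by norm_num [Finset.sum_range_succ, Nat.factorial])
      (by norm_num [Finset.sum_range_succ, Nat.factorial]))
    (by norm_num) (by norm_num) (by norm_num) (by norm_num) (by norm_num) (by norm_num) (by norm_num) (by norm_num)
    (by norm_num) (by norm_num) (by norm_num) (by norm_num) hκ h0 hm

private theorem e7_2_3 {κ τ : ℝ} (hκ : 433 / 250 ≤ κ) (h0 : 0 ≤ τ) (hm : τ ≤ 1683 / 6250) : 49 / 50 ≤ lv κ τ :=
  lv_ge_num (κ₀ := 433 / 250) (y := 5799 / 50000) (Fl := 1122973 / 1000000) (Fh := 561487 / 500000) (xl := 38449 / 25000) (xh := 153797 / 100000) (τm := 1683 / 6250) (θ := 3763 / 50000)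
    (by norm_num) (by norm_num) (by norm_num)
    (exp_bds (by norm_num) (by norm_num) (by norm_num [Finset.sum_range_succ, Nat.factorial])
      (by norm_num [Finset.sum_range_succ, Nat.factorial]))
    (by norm_num) (by norm_num) (by norm_num) (by norm_num) (by norm_num) (by norm_num) (by norm_num) (by norm_num)
    (by norm_num) (by norm_num) (by norm_num) (by norm_num) hκ h0 hm

private theorem e7_2_4 {κ τ : ℝ} (hκ : 433 / 250 ≤ κ) (h0 : 0 ≤ τ) (hm : τ ≤ 1122 / 3125) : 193 / 200 ≤ lv κ τ :=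
  lv_ge_num (κ₀ := 433 / 250) (y := 15397 / 100000) (Fl := 233291 / 200000) (Fh := 145807 / 125000) (xl := 147683 / 100000) (xh := 36921 / 25000) (τm := 1122 / 3125) (θ := 2597 / 25000)
    (by norm_num) (by norm_num) (by norm_num)
    (exp_bds (by norm_num) (by norm_num) (by norm_num [Finset.sum_range_succ, Nat.factorial])
      (by norm_num [Finset.sum_range_succ, Nat.factorial]))
    (by norm_num) (by norm_num) (by norm_num) (by norm_num) (by norm_num) (by norm_num) (by norm_num) (by norm_num)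
    (by norm_num) (by norm_num) (by norm_num) (by norm_num) hκ h0 hm

private theorem e7_2_5 {κ τ : ℝ} (hκ : 433 / 250 ≤ κ) (h0 : 0 ≤ τ) (hm : τ ≤ 561 / 1250) : 19 / 20 ≤ lv κ τ :=
  lv_ge_num (κ₀ := 433 / 250) (y := 19141 / 100000) (Fl := 242191 / 200000) (Fh := 302739 / 250000) (xl := 7087 / 5000) (xh := 70871 / 50000) (τm := 561 / 1250) (θ := 6711 / 50000)
    (by norm_num) (by norm_num) (by norm_num)
    (exp_bds (by norm_num) (by norm_num) (by norm_num [Finset.sum_range_succ, Nat.factorial])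
      (by norm_num [Finset.sum_range_succ, Nat.factorial]))
    (by norm_num) (by norm_num) (by norm_num) (by norm_num) (by norm_num) (by norm_num) (by norm_num) (by norm_num)
    (by norm_num) (by norm_num) (by norm_num) (by norm_num) hκ h0 hm

private theorem e7_2_6 {κ τ : ℝ} (hκ : 433 / 250 ≤ κ) (h0 : 0 ≤ τ) (hm : τ ≤ 1683 / 3125) : 93 / 100 ≤ lv κ τ :=
  lv_ge_num (κ₀ := 433 / 250) (y := 4563 / 20000) (Fl := 1256273 / 1000000) (Fh := 628137 / 500000) (xl := 135967 / 100000) (xh := 4249 / 3125) (τm := 1683 / 3125) (θ := 1039 / 6250)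
    (by norm_num) (by norm_num) (by norm_num)
    (exp_bds (by norm_num) (by norm_num) (by norm_num [Finset.sum_range_succ, Nat.factorial])
      (by norm_num [Finset.sum_range_succ, Nat.factorial]))
    (by norm_num) (by norm_num) (by norm_num) (by norm_num) (by norm_num) (by norm_num) (by norm_num) (by norm_num)
    (by norm_num) (by norm_num) (by norm_num) (by norm_num) hκ h0 hm

private theorem e7_2_7 {κ τ : ℝ} (hκ : 433 / 250 ≤ κ) (h0 : 0 ≤ τ) (hm : τ ≤ 3927 / 6250) : 91 / 100 ≤ lv κ τ :=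
  lv_ge_num (κ₀ := 433 / 250) (y := 3301 / 12500) (Fl := 162779 / 125000) (Fh := 1302233 / 1000000) (xl := 65177 / 50000) (xh := 26071 / 20000) (τm := 3927 / 6250) (θ := 19987 / 100000)
    (by norm_num) (by norm_num) (by norm_num)
    (exp_bds (by norm_num) (by norm_num) (by norm_num [Finset.sum_range_succ, Nat.factorial])
      (by norm_num [Finset.sum_range_succ, Nat.factorial]))
    (by norm_num) (by norm_num) (by norm_num) (by norm_num) (by norm_num) (by norm_num) (by norm_num) (by norm_num)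
    (by norm_num) (by norm_num) (by norm_num) (by norm_num) hκ h0 hm

private theorem e7_2_8 {κ τ : ℝ} (hκ : 433 / 250 ≤ κ) (h0 : 0 ≤ τ) (hm : τ ≤ 2244 / 3125) : 177 / 200 ≤ lv κ τ :=
  lv_ge_num (κ₀ := 433 / 250) (y := 29909 / 100000) (Fl := 134863 / 100000) (Fh := 1348631 / 1000000) (xl := 24979 / 20000) (xh := 3903 / 3125) (τm := 2244 / 3125) (θ := 1469 / 6250)
    (by norm_num) (by norm_num) (by norm_num)
    (exp_bds (by norm_num) (by norm_num) (by norm_num [Finset.sum_range_succ, Nat.factorial])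
      (by norm_num [Finset.sum_range_succ, Nat.factorial]))
    (by norm_num) (by norm_num) (by norm_num) (by norm_num) (by norm_num) (by norm_num) (by norm_num) (by norm_num)
    (by norm_num) (by norm_num) (by norm_num) (by norm_num) hκ h0 hm

private theorem e7_2_9 {κ τ : ℝ} (hκ : 433 / 250 ≤ κ) (h0 : 0 ≤ τ) (hm : τ ≤ 5049 / 6250) : 171 / 200 ≤ lv κ τ :=
  lv_ge_num (κ₀ := 433 / 250) (y := 3331 / 10000) (Fl := 697643 / 500000) (Fh := 1395287 / 1000000) (xl := 119579 / 100000) (xh := 5979 / 5000) (τm := 5049 / 6250) (θ := 27167 / 100000)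
    (by norm_num) (by norm_num) (by norm_num)
    (exp_bds (by norm_num) (by norm_num) (by norm_num [Finset.sum_range_succ, Nat.factorial])
      (by norm_num [Finset.sum_range_succ, Nat.factorial]))
    (by norm_num) (by norm_num) (by norm_num) (by norm_num) (by norm_num) (by norm_num) (by norm_num) (by norm_num)
    (by norm_num) (by norm_num) (by norm_num) (by norm_num) hκ h0 hm

private theorem e7_2_10 {κ τ : ℝ} (hκ : 433 / 250 ≤ κ) (h0 : 0 ≤ τ) (hm : τ ≤ 561 / 625) : 83 / 100 ≤ lv κ τ :=
  lv_ge_num (κ₀ := 433 / 250) (y := 183 / 500) (Fl := 288391 / 200000) (Fh := 360489 / 250000) (xl := 57201 / 50000) (xh := 114403 / 100000) (τm := 561 / 625) (θ := 30963 / 100000)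
    (by norm_num) (by norm_num) (by norm_num)
    (exp_bds (by norm_num) (by norm_num) (by norm_num [Finset.sum_range_succ, Nat.factorial])
      (by norm_num [Finset.sum_range_succ, Nat.factorial]))
    (by norm_num) (by norm_num) (by norm_num) (by norm_num) (by norm_num) (by norm_num) (by norm_num) (by norm_num)
    (by norm_num) (by norm_num) (by norm_num) (by norm_num) hκ h0 hm

/-- class 7_2: `b = 7`, `κ ≥ 433 / 250` -/
theorem ld7_2 {κ h : ℝ} (hκ : 433 / 250 ≤ κ) (h0 : 0 < h) (hh : h ≤ 2 * π / 7) :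
    LineData κ h 1 (929 / 1000) (899 / 2000) (84 / 125) (463 / 2000) (-113 / 200) (-17 / 40) (809 / 5000) (23 / 25) := by
  have hk1 : 1 ≤ κ := by linarith
  have hp4 := Real.pi_lt_d4
  have hp3 := Real.pi_gt_d2
  have hhq : h ≤ 561 / 625 := by
    refine hh.trans ?_
    rw [div_le_iff₀ (by norm_num)]
    linarith
  have L1 : Line κ h (1 / 10) (199 / 2000) (199 / 40000) := Line.stepN (l := 199 / 200) (τm := 561 / 6250) hk1 h0.le (Line.zero hk1) (by norm_num) (by norm_num)
    (fun τ a b => e7_2_1 hκ a b) (by linarith) (by linarith) (by norm_num) (by norm_num)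
  have L2 : Line κ h (1 / 5) (397 / 2000) (793 / 40000) := Line.stepN (l := 99 / 100) (τm := 561 / 3125) hk1 h0.le L1 (by norm_num) (by norm_num)
    (fun τ a b => e7_2_2 hκ a b) (by linarith) (by linarith) (by norm_num) (by norm_num)
  have L3 : Line κ h (3 / 10) (593 / 2000) (1773 / 40000) := Line.stepN (l := 49 / 50) (τm := 1683 / 6250) hk1 h0.le L2 (by norm_num) (by norm_num)
    (fun τ a b => e7_2_3 hκ a b) (by linarith) (by linarith) (by norm_num) (by norm_num)
  have L4 : Line κ h (2 / 5) (393 / 1000) (781 / 10000) := Line.stepN (l := 193 / 200) (τm := 1122 / 3125) hk1 h0.le L3 (by norm_num) (by norm_num)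
    (fun τ a b => e7_2_4 hκ a b) (by linarith) (by linarith) (by norm_num) (by norm_num)
  have L5 : Line κ h (1 / 2) (61 / 125) (2417 / 20000) := Line.stepN (l := 19 / 20) (τm := 561 / 1250) hk1 h0.le L4 (by norm_num) (by norm_num)
    (fun τ a b => e7_2_5 hκ a b) (by linarith) (by linarith) (by norm_num) (by norm_num)
  have L6 : Line κ h (3 / 5) (581 / 1000) (43 / 250) := Line.stepN (l := 93 / 100) (τm := 1683 / 3125) hk1 h0.le L5 (by norm_num) (by norm_num)
    (fun τ a b => e7_2_6 hκ a b) (by linarith) (by linarith) (by norm_num) (by norm_num)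
  have L7 : Line κ h (7 / 10) (84 / 125) (4623 / 20000) := Line.stepN (l := 91 / 100) (τm := 3927 / 6250) hk1 h0.le L6 (by norm_num) (by norm_num)
    (fun τ a b => e7_2_7 hκ a b) (by linarith) (by linarith) (by norm_num) (by norm_num)
  have L8 : Line κ h (4 / 5) (1521 / 2000) (11901 / 40000) := Line.stepN (l := 177 / 200) (τm := 2244 / 3125) hk1 h0.le L7 (by norm_num) (by norm_num)
    (fun τ a b => e7_2_8 hκ a b) (by linarith) (by linarith) (by norm_num) (by norm_num)
  have L9 : Line κ h (9 / 10) (423 / 500) (1851 / 5000) := Line.stepN (l := 171 / 200) (τm := 5049 / 6250) hk1 h0.le L8 (by norm_num) (by norm_num)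
    (fun τ a b => e7_2_9 hκ a b) (by linarith) (by linarith) (by norm_num) (by norm_num)
  have L10 : Line κ h 1 (929 / 1000) (8981 / 20000) := Line.stepN (l := 83 / 100) (τm := 561 / 625) hk1 h0.le L9 (by norm_num) (by norm_num)
    (fun τ a b => e7_2_10 hκ a b) (by linarith) (by linarith) (by norm_num) (by norm_num)
  have m1 : ∀ z ∈ Icc (-113 / 200 : ℝ) (-1 / 2), 23 / 25 ≤ yv κ ((z + 1) * h) / h - yv κ (z * h) / h :=
    mu_piece (a := 2 / 5) (S := 393 / 1000) (C := 781 / 10000) (l := 19 / 20) (τm := 561 / 1250) (H₁ := 2073 / 4000) (mp := 9911 / 20000) (mq := 88921 / 200000) hk1 h0 (by linarith)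
      L4 (by norm_num) (by norm_num) (by norm_num) (fun τ a b => e7_2_5 hκ a b) (by linarith) (by linarith)
      (exp_le_bd (by norm_num) (by norm_num) (by norm_num [Finset.sum_range_succ, Nat.factorial])) (exp_le_bd (by norm_num) (by norm_num) (by norm_num [Finset.sum_range_succ, Nat.factorial]))
      (by norm_num) (by norm_num)
  have m2 : ∀ z ∈ Icc (-1 / 2 : ℝ) (-17 / 40), 23 / 25 ≤ yv κ ((z + 1) * h) / h - yv κ (z * h) / h :=
    mu_piece (a := 1 / 2) (S := 61 / 125) (C := 2417 / 20000) (l := 93 / 100) (τm := 1683 / 3125) (H₁ := 2073 / 4000) (mp := 88921 / 200000) (mq := 192051 / 500000) hk1 h0 (by linarith)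
      L5 (by norm_num) (by norm_num) (by norm_num) (fun τ a b => e7_2_6 hκ a b) (by linarith) (by linarith)
      (exp_le_bd (by norm_num) (by norm_num) (by norm_num [Finset.sum_range_succ, Nat.factorial])) (exp_le_bd (by norm_num) (by norm_num) (by norm_num [Finset.sum_range_succ, Nat.factorial]))
      (by norm_num) (by norm_num)
  exact ⟨L10.weaken h0.le (by norm_num) (by norm_num), L7.weaken h0.le (by norm_num) (by norm_num),
    Line.f1R (τm := 12903 / 25000) hk1 h0 L6 (by norm_num) (by linarith) (by linarith) (by norm_num), mu_glue m1 m2⟩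

/-- class 7_2: line at `1 + qL`, curvature up to `1 + qR` -/
theorem lr7_2 {κ h : ℝ} (hκ : 433 / 250 ≤ κ) (h0 : 0 < h) (hh : h ≤ 2 * π / 7) :
    Line κ h (1 + (-113 / 200)) (341 / 800) (147171 / 1600000) ∧ (∀ τ, 0 ≤ τ → τ ≤ 1683 / 3125 → 93 / 100 ≤ lv κ τ) ∧ (1 + (-17 / 40)) * h ≤ (1683 / 3125) ∧ (1683 / 3125) < κ + π / 2 := by
  have hk1 : 1 ≤ κ := by linarith
  have hp4 := Real.pi_lt_d4
  have hp3 := Real.pi_gt_d2
  have hhq : h ≤ 561 / 625 := by
    refine hh.trans ?_
    rw [div_le_iff₀ (by norm_num)]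
    linarith
  have L1 : Line κ h (1 / 10) (199 / 2000) (199 / 40000) := Line.stepN (l := 199 / 200) (τm := 561 / 6250) hk1 h0.le (Line.zero hk1) (by norm_num) (by norm_num)
    (fun τ a b => e7_2_1 hκ a b) (by linarith) (by linarith) (by norm_num) (by norm_num)
  have L2 : Line κ h (1 / 5) (397 / 2000) (793 / 40000) := Line.stepN (l := 99 / 100) (τm := 561 / 3125) hk1 h0.le L1 (by norm_num) (by norm_num)
    (fun τ a b => e7_2_2 hκ a b) (by linarith) (by linarith) (by norm_num) (by norm_num)
  have L3 : Line κ h (3 / 10) (593 / 2000) (1773 / 40000) := Line.stepN (l := 49 / 50) (τm := 1683 / 6250) hk1 h0.le L2 (by norm_num) (by norm_num)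
    (fun τ a b => e7_2_3 hκ a b) (by linarith) (by linarith) (by norm_num) (by norm_num)
  have L4 : Line κ h (2 / 5) (393 / 1000) (781 / 10000) := Line.stepN (l := 193 / 200) (τm := 1122 / 3125) hk1 h0.le L3 (by norm_num) (by norm_num)
    (fun τ a b => e7_2_4 hκ a b) (by linarith) (by linarith) (by norm_num) (by norm_num)
  exact ⟨Line.stepN (l := 19 / 20) (τm := 561 / 1250) hk1 h0.le L4 (by norm_num) (by norm_num)
    (fun τ a b => e7_2_5 hκ a b) (by linarith) (by linarith) (by norm_num) (by norm_num), fun τ a b => e7_2_6 hκ a b,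
    by linarith, by linarith⟩

private theorem e8_1_1 {κ τ : ℝ} (hκ : 139 / 100 ≤ κ) (h0 : 0 ≤ τ) (hm : τ ≤ 3927 / 50000) : 49 / 50 ≤ lv κ τ :=
  lv_ge_num (κ₀ := 139 / 100) (y := 3697 / 100000) (Fl := 1037661 / 1000000) (Fh := 518831 / 500000) (xl := 133903 / 100000) (xh := 26781 / 20000) (τm := 3927 / 50000) (θ := 69 / 2500)
    (by norm_num) (by norm_num) (by norm_num)
    (exp_bds (by norm_num) (by norm_num) (by norm_num [Finset.sum_range_succ, Nat.factorial])
      (by norm_num [Finset.sum_range_succ, Nat.factorial]))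
    (by norm_num) (by norm_num) (by norm_num) (by norm_num) (by norm_num) (by norm_num) (by norm_num) (by norm_num)
    (by norm_num) (by norm_num) (by norm_num) (by norm_num) hκ h0 hm

private theorem e8_1_2 {κ τ : ℝ} (hκ : 139 / 100 ≤ κ) (h0 : 0 ≤ τ) (hm : τ ≤ 3927 / 25000) : 24 / 25 ≤ lv κ τ :=
  lv_ge_num (κ₀ := 139 / 100) (y := 733 / 10000) (Fl := 1076053 / 1000000) (Fh := 538027 / 500000) (xl := 128967 / 100000) (xh := 16121 / 12500) (τm := 3927 / 25000) (θ := 5677 / 100000)
    (by norm_num) (by norm_num) (by norm_num)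
    (exp_bds (by norm_num) (by norm_num) (by norm_num [Finset.sum_range_succ, Nat.factorial])
      (by norm_num [Finset.sum_range_succ, Nat.factorial]))
    (by norm_num) (by norm_num) (by norm_num) (by norm_num) (by norm_num) (by norm_num) (by norm_num) (by norm_num)
    (by norm_num) (by norm_num) (by norm_num) (by norm_num) hκ h0 hm

private theorem e8_1_3 {κ τ : ℝ} (hκ : 139 / 100 ≤ κ) (h0 : 0 ≤ τ) (hm : τ ≤ 11781 / 50000) : 47 / 50 ≤ lv κ τ :=
  lv_ge_num (κ₀ := 139 / 100) (y := 10889 / 100000) (Fl := 1115039 / 1000000) (Fh := 6969 / 6250) (xl := 62091 / 50000) (xh := 124183 / 100000) (τm := 11781 / 50000) (θ := 4373 / 50000)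
    (by norm_num) (by norm_num) (by norm_num)
    (exp_bds (by norm_num) (by norm_num) (by norm_num [Finset.sum_range_succ, Nat.factorial])
      (by norm_num [Finset.sum_range_succ, Nat.factorial]))
    (by norm_num) (by norm_num) (by norm_num) (by norm_num) (by norm_num) (by norm_num) (by norm_num) (by norm_num)
    (by norm_num) (by norm_num) (by norm_num) (by norm_num) hκ h0 hm

private theorem e8_1_4 {κ τ : ℝ} (hκ : 139 / 100 ≤ κ) (h0 : 0 ≤ τ) (hm : τ ≤ 3927 / 12500) : 183 / 200 ≤ lv κ τ :=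
  lv_ge_num (κ₀ := 139 / 100) (y := 3591 / 25000) (Fl := 288617 / 250000) (Fh := 1154469 / 1000000) (xl := 119541 / 100000) (xh := 59771 / 50000) (τm := 3927 / 12500) (θ := 5979 / 50000)
    (by norm_num) (by norm_num) (by norm_num)
    (exp_bds (by norm_num) (by norm_num) (by norm_num [Finset.sum_range_succ, Nat.factorial])
      (by norm_num [Finset.sum_range_succ, Nat.factorial]))
    (by norm_num) (by norm_num) (by norm_num) (by norm_num) (by norm_num) (by norm_num) (by norm_num) (by norm_num)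
    (by norm_num) (by norm_num) (by norm_num) (by norm_num) hκ h0 hm

private theorem e8_1_5 {κ τ : ℝ} (hκ : 139 / 100 ≤ κ) (h0 : 0 ≤ τ) (hm : τ ≤ 3927 / 10000) : 89 / 100 ≤ lv κ τ :=
  lv_ge_num (κ₀ := 139 / 100) (y := 17747 / 100000) (Fl := 74637 / 62500) (Fh := 1194193 / 1000000) (xl := 23007 / 20000) (xh := 28759 / 25000) (τm := 3927 / 10000) (θ := 7653 / 50000)
    (by norm_num) (by norm_num) (by norm_num)
    (exp_bds (by norm_num) (by norm_num) (by norm_num [Finset.sum_range_succ, Nat.factorial])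
      (by norm_num [Finset.sum_range_succ, Nat.factorial]))
    (by norm_num) (by norm_num) (by norm_num) (by norm_num) (by norm_num) (by norm_num) (by norm_num) (by norm_num)
    (by norm_num) (by norm_num) (by norm_num) (by norm_num) hκ h0 hm

private theorem e8_1_6 {κ τ : ℝ} (hκ : 139 / 100 ≤ κ) (h0 : 0 ≤ τ) (hm : τ ≤ 11781 / 25000) : 173 / 200 ≤ lv κ τ :=
  lv_ge_num (κ₀ := 139 / 100) (y := 21031 / 100000) (Fl := 61703 / 50000) (Fh := 1234061 / 1000000) (xl := 22131 / 20000) (xh := 3458 / 3125) (τm := 11781 / 25000) (θ := 18781 / 100000)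
    (by norm_num) (by norm_num) (by norm_num)
    (exp_bds (by norm_num) (by norm_num) (by norm_num [Finset.sum_range_succ, Nat.factorial])
      (by norm_num [Finset.sum_range_succ, Nat.factorial]))
    (by norm_num) (by norm_num) (by norm_num) (by norm_num) (by norm_num) (by norm_num) (by norm_num) (by norm_num)
    (by norm_num) (by norm_num) (by norm_num) (by norm_num) hκ h0 hm

private theorem e8_1_7 {κ τ : ℝ} (hκ : 139 / 100 ≤ κ) (h0 : 0 ≤ τ) (hm : τ ≤ 27489 / 50000) : 167 / 200 ≤ lv κ τ :=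
  lv_ge_num (κ₀ := 139 / 100) (y := 24209 / 100000) (Fl := 318477 / 250000) (Fh := 1273909 / 1000000) (xl := 106393 / 100000) (xh := 53197 / 50000) (τm := 27489 / 50000) (θ := 22373 / 100000)
    (by norm_num) (by norm_num) (by norm_num)
    (exp_bds (by norm_num) (by norm_num) (by norm_num [Finset.sum_range_succ, Nat.factorial])
      (by norm_num [Finset.sum_range_succ, Nat.factorial]))
    (by norm_num) (by norm_num) (by norm_num) (by norm_num) (by norm_num) (by norm_num) (by norm_num) (by norm_num)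
    (by norm_num) (by norm_num) (by norm_num) (by norm_num) hκ h0 hm

private theorem e8_1_8 {κ τ : ℝ} (hκ : 139 / 100 ≤ κ) (h0 : 0 ≤ τ) (hm : τ ≤ 3927 / 6250) : 161 / 200 ≤ lv κ τ :=
  lv_ge_num (κ₀ := 139 / 100) (y := 13639 / 50000) (Fl := 1313611 / 1000000) (Fh := 328403 / 250000) (xl := 51119 / 50000) (xh := 102239 / 100000) (τm := 3927 / 6250) (θ := 26073 / 100000)
    (by norm_num) (by norm_num) (by norm_num)
    (exp_bds (by norm_num) (by norm_num) (by norm_num [Finset.sum_range_succ, Nat.factorial])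
      (by norm_num [Finset.sum_range_succ, Nat.factorial]))
    (by norm_num) (by norm_num) (by norm_num) (by norm_num) (by norm_num) (by norm_num) (by norm_num) (by norm_num)
    (by norm_num) (by norm_num) (by norm_num) (by norm_num) hκ h0 hm

private theorem e8_1_9 {κ τ : ℝ} (hκ : 139 / 100 ≤ κ) (h0 : 0 ≤ τ) (hm : τ ≤ 35343 / 50000) : 31 / 40 ≤ lv κ τ :=
  lv_ge_num (κ₀ := 139 / 100) (y := 15117 / 50000) (Fl := 1353021 / 1000000) (Fh := 676511 / 500000) (xl := 98183 / 100000) (xh := 12273 / 12500) (τm := 35343 / 50000) (θ := 29871 / 100000)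
    (by norm_num) (by norm_num) (by norm_num)
    (exp_bds (by norm_num) (by norm_num) (by norm_num [Finset.sum_range_succ, Nat.factorial])
      (by norm_num [Finset.sum_range_succ, Nat.factorial]))
    (by norm_num) (by norm_num) (by norm_num) (by norm_num) (by norm_num) (by norm_num) (by norm_num) (by norm_num)
    (by norm_num) (by norm_num) (by norm_num) (by norm_num) hκ h0 hm

private theorem e8_1_10 {κ τ : ℝ} (hκ : 139 / 100 ≤ κ) (h0 : 0 ≤ τ) (hm : τ ≤ 3927 / 5000) : 149 / 200 ≤ lv κ τ :=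
  lv_ge_num (κ₀ := 139 / 100) (y := 1323 / 4000) (Fl := 1392011 / 1000000) (Fh := 348003 / 250000) (xl := 47109 / 50000) (xh := 94219 / 100000) (τm := 3927 / 5000) (θ := 211 / 625)
    (by norm_num) (by norm_num) (by norm_num)
    (exp_bds (by norm_num) (by norm_num) (by norm_num [Finset.sum_range_succ, Nat.factorial])
      (by norm_num [Finset.sum_range_succ, Nat.factorial]))
    (by norm_num) (by norm_num) (by norm_num) (by norm_num) (by norm_num) (by norm_num) (by norm_num) (by norm_num)
    (by norm_num) (by norm_num) (by norm_num) (by norm_num) hκ h0 hm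

/-- class 8_1: `b = 8`, `κ ≥ 139 / 100` -/
theorem ld8_1 {κ h : ℝ} (hκ : 139 / 100 ≤ κ) (h0 : 0 < h) (hh : h ≤ 2 * π / 8) :
    LineData κ h 1 (871 / 1000) (207 / 500) (1277 / 2000) (217 / 1000) (-14 / 25) (-17 / 40) (391 / 2500) (9 / 10) := by
  have hk1 : 1 ≤ κ := by linarith
  have hp4 := Real.pi_lt_d4
  have hp3 := Real.pi_gt_d2
  have hhq : h ≤ 3927 / 5000 := by
    refine hh.trans ?_
    rw [div_le_iff₀ (by norm_num)]
    linarith
  have L1 : Line κ h (1 / 10) (49 / 500) (49 / 10000) := Line.stepN (l := 49 / 50) (τm := 3927 / 50000) hk1 h0.le (Line.zero hk1) (by norm_num) (by norm_num)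
    (fun τ a b => e8_1_1 hκ a b) (by linarith) (by linarith) (by norm_num) (by norm_num)
  have L2 : Line κ h (1 / 5) (97 / 500) (193 / 10000) := Line.stepN (l := 24 / 25) (τm := 3927 / 25000) hk1 h0.le L1 (by norm_num) (by norm_num)
    (fun τ a b => e8_1_2 hκ a b) (by linarith) (by linarith) (by norm_num) (by norm_num)
  have L3 : Line κ h (3 / 10) (36 / 125) (107 / 2500) := Line.stepN (l := 47 / 50) (τm := 11781 / 50000) hk1 h0.le L2 (by norm_num) (by norm_num)
    (fun τ a b => e8_1_3 hκ a b) (by linarith) (by linarith) (by norm_num) (by norm_num)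
  have L4 : Line κ h (2 / 5) (759 / 2000) (2993 / 40000) := Line.stepN (l := 183 / 200) (τm := 3927 / 12500) hk1 h0.le L3 (by norm_num) (by norm_num)
    (fun τ a b => e8_1_4 hκ a b) (by linarith) (by linarith) (by norm_num) (by norm_num)
  have L5 : Line κ h (1 / 2) (937 / 2000) (919 / 8000) := Line.stepN (l := 89 / 100) (τm := 3927 / 10000) hk1 h0.le L4 (by norm_num) (by norm_num)
    (fun τ a b => e8_1_5 hκ a b) (by linarith) (by linarith) (by norm_num) (by norm_num)
  have L6 : Line κ h (3 / 5) (111 / 200) (3249 / 20000) := Line.stepN (l := 173 / 200) (τm := 11781 / 25000) hk1 h0.le L5 (by norm_num) (by norm_num)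
    (fun τ a b => e8_1_6 hκ a b) (by linarith) (by linarith) (by norm_num) (by norm_num)
  have L7 : Line κ h (7 / 10) (1277 / 2000) (8669 / 40000) := Line.stepN (l := 167 / 200) (τm := 27489 / 50000) hk1 h0.le L6 (by norm_num) (by norm_num)
    (fun τ a b => e8_1_7 hκ a b) (by linarith) (by linarith) (by norm_num) (by norm_num)
  have L8 : Line κ h (4 / 5) (719 / 1000) (2771 / 10000) := Line.stepN (l := 161 / 200) (τm := 3927 / 6250) hk1 h0.le L7 (by norm_num) (by norm_num)
    (fun τ a b => e8_1_8 hκ a b) (by linarith) (by linarith) (by norm_num) (by norm_num)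
  have L9 : Line κ h (9 / 10) (1593 / 2000) (13719 / 40000) := Line.stepN (l := 31 / 40) (τm := 35343 / 50000) hk1 h0.le L8 (by norm_num) (by norm_num)
    (fun τ a b => e8_1_9 hκ a b) (by linarith) (by linarith) (by norm_num) (by norm_num)
  have L10 : Line κ h 1 (871 / 1000) (331 / 800) := Line.stepN (l := 149 / 200) (τm := 3927 / 5000) hk1 h0.le L9 (by norm_num) (by norm_num)
    (fun τ a b => e8_1_10 hκ a b) (by linarith) (by linarith) (by norm_num) (by norm_num)
  have m1 : ∀ z ∈ Icc (-14 / 25 : ℝ) (-1 / 2), 9 / 10 ≤ yv κ ((z + 1) * h) / h - yv κ (z * h) / h :=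
    mu_piece (a := 2 / 5) (S := 759 / 2000) (C := 2993 / 40000) (l := 89 / 100) (τm := 3927 / 10000) (H₁ := 7063 / 12500) (mp := 97309 / 200000) (mq := 44037 / 100000) hk1 h0 (by linarith)
      L4 (by norm_num) (by norm_num) (by norm_num) (fun τ a b => e8_1_5 hκ a b) (by linarith) (by linarith)
      (exp_le_bd (by norm_num) (by norm_num) (by norm_num [Finset.sum_range_succ, Nat.factorial])) (exp_le_bd (by norm_num) (by norm_num) (by norm_num [Finset.sum_range_succ, Nat.factorial]))
      (by norm_num) (by norm_num)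
  have m2 : ∀ z ∈ Icc (-1 / 2 : ℝ) (-17 / 40), 9 / 10 ≤ yv κ ((z + 1) * h) / h - yv κ (z * h) / h :=
    mu_piece (a := 1 / 2) (S := 937 / 2000) (C := 919 / 8000) (l := 173 / 200) (τm := 11781 / 25000) (H₁ := 7063 / 12500) (mp := 44037 / 100000) (mq := 380903 / 1000000) hk1 h0 (by linarith)
      L5 (by norm_num) (by norm_num) (by norm_num) (fun τ a b => e8_1_6 hκ a b) (by linarith) (by linarith)
      (exp_le_bd (by norm_num) (by norm_num) (by norm_num [Finset.sum_range_succ, Nat.factorial])) (exp_le_bd (by norm_num) (by norm_num) (by norm_num [Finset.sum_range_succ, Nat.factorial]))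
      (by norm_num) (by norm_num)
  exact ⟨L10.weaken h0.le (by norm_num) (by norm_num), L7.weaken h0.le (by norm_num) (by norm_num),
    Line.f1R (τm := 45161 / 100000) hk1 h0 L6 (by norm_num) (by linarith) (by linarith) (by norm_num), mu_glue m1 m2⟩

/-- class 8_1: line at `1 + qL`, curvature up to `1 + qR` -/
theorem lr8_1 {κ h : ℝ} (hκ : 139 / 100 ≤ κ) (h0 : 0 < h) (hh : h ≤ 2 * π / 8) :
    Line κ h (1 + (-14 / 25)) (4151 / 10000) (89777 / 1000000) ∧ (∀ τ, 0 ≤ τ → τ ≤ 11781 / 25000 → 173 / 200 ≤ lv κ τ) ∧ (1 + (-17 / 40)) * h ≤ (11781 / 25000) ∧ (11781 / 25000) < κ + π / 2 := by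
  have hk1 : 1 ≤ κ := by linarith
  have hp4 := Real.pi_lt_d4
  have hp3 := Real.pi_gt_d2
  have hhq : h ≤ 3927 / 5000 := by
    refine hh.trans ?_
    rw [div_le_iff₀ (by norm_num)]
    linarith
  have L1 : Line κ h (1 / 10) (49 / 500) (49 / 10000) := Line.stepN (l := 49 / 50) (τm := 3927 / 50000) hk1 h0.le (Line.zero hk1) (by norm_num) (by norm_num)
    (fun τ a b => e8_1_1 hκ a b) (by linarith) (by linarith) (by norm_num) (by norm_num)
  have L2 : Line κ h (1 / 5) (97 / 500) (193 / 10000) := Line.stepN (l := 24 / 25) (τm := 3927 / 25000) hk1 h0.le L1 (by norm_num) (by norm_num)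
    (fun τ a b => e8_1_2 hκ a b) (by linarith) (by linarith) (by norm_num) (by norm_num)
  have L3 : Line κ h (3 / 10) (36 / 125) (107 / 2500) := Line.stepN (l := 47 / 50) (τm := 11781 / 50000) hk1 h0.le L2 (by norm_num) (by norm_num)
    (fun τ a b => e8_1_3 hκ a b) (by linarith) (by linarith) (by norm_num) (by norm_num)
  have L4 : Line κ h (2 / 5) (759 / 2000) (2993 / 40000) := Line.stepN (l := 183 / 200) (τm := 3927 / 12500) hk1 h0.le L3 (by norm_num) (by norm_num)
    (fun τ a b => e8_1_4 hκ a b) (by linarith) (by linarith) (by norm_num) (by norm_num)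
  exact ⟨Line.stepN (l := 89 / 100) (τm := 3927 / 10000) hk1 h0.le L4 (by norm_num) (by norm_num)
    (fun τ a b => e8_1_5 hκ a b) (by linarith) (by linarith) (by norm_num) (by norm_num), fun τ a b => e8_1_6 hκ a b,
    by linarith, by linarith⟩

private theorem e8_2_1 {κ τ : ℝ} (hκ : 433 / 250 ≤ κ) (h0 : 0 ≤ τ) (hm : τ ≤ 3927 / 50000) : 199 / 200 ≤ lv κ τ :=
  lv_ge_num (κ₀ := 433 / 250) (y := 17 / 500) (Fl := 129323 / 125000) (Fh := 206917 / 200000) (xl := 1339 / 800) (xh := 10461 / 6250) (τm := 3927 / 50000) (θ := 203 / 10000)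
    (by norm_num) (by norm_num) (by norm_num)
    (exp_bds (by norm_num) (by norm_num) (by norm_num [Finset.sum_range_succ, Nat.factorial])
      (by norm_num [Finset.sum_range_succ, Nat.factorial]))
    (by norm_num) (by norm_num) (by norm_num) (by norm_num) (by norm_num) (by norm_num) (by norm_num) (by norm_num)
    (by norm_num) (by norm_num) (by norm_num) (by norm_num) hκ h0 hm

private theorem e8_2_2 {κ τ : ℝ} (hκ : 433 / 250 ≤ κ) (h0 : 0 ≤ τ) (hm : τ ≤ 3927 / 25000) : 99 / 100 ≤ lv κ τ :=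
  lv_ge_num (κ₀ := 433 / 250) (y := 679 / 10000) (Fl := 535129 / 500000) (Fh := 1070259 / 1000000) (xl := 161687 / 100000) (xh := 20211 / 12500) (τm := 3927 / 25000) (θ := 1049 / 25000)
    (by norm_num) (by norm_num) (by norm_num)
    (exp_bds (by norm_num) (by norm_num) (by norm_num [Finset.sum_range_succ, Nat.factorial])
      (by norm_num [Finset.sum_range_succ, Nat.factorial]))
    (by norm_num) (by norm_num) (by norm_num) (by norm_num) (by norm_num) (by norm_num) (by norm_num) (by norm_num)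
    (by norm_num) (by norm_num) (by norm_num) (by norm_num) hκ h0 hm

private theorem e8_2_3 {κ τ : ℝ} (hκ : 433 / 250 ≤ κ) (h0 : 0 ≤ τ) (hm : τ ≤ 11781 / 50000) : 197 / 200 ≤ lv κ τ :=
  lv_ge_num (κ₀ := 433 / 250) (y := 10161 / 100000) (Fl := 1106951 / 1000000) (Fh := 138369 / 125000) (xl := 31227 / 20000) (xh := 19517 / 12500) (τm := 11781 / 50000) (θ := 3249 / 50000)
    (by norm_num) (by norm_num) (by norm_num)
    (exp_bds (by norm_num) (by norm_num) (by norm_num [Finset.sum_range_succ, Nat.factorial])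
      (by norm_num [Finset.sum_range_succ, Nat.factorial]))
    (by norm_num) (by norm_num) (by norm_num) (by norm_num) (by norm_num) (by norm_num) (by norm_num) (by norm_num)
    (by norm_num) (by norm_num) (by norm_num) (by norm_num) hκ h0 hm

private theorem e8_2_4 {κ τ : ℝ} (hκ : 433 / 250 ≤ κ) (h0 : 0 ≤ τ) (hm : τ ≤ 3927 / 12500) : 39 / 40 ≤ lv κ τ :=
  lv_ge_num (κ₀ := 433 / 250) (y := 422 / 3125) (Fl := 572291 / 500000) (Fh := 1144583 / 1000000) (xl := 150717 / 100000) (xh := 75359 / 50000) (τm := 3927 / 12500) (θ := 1787 / 20000)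
    (by norm_num) (by norm_num) (by norm_num)
    (exp_bds (by norm_num) (by norm_num) (by norm_num [Finset.sum_range_succ, Nat.factorial])
      (by norm_num [Finset.sum_range_succ, Nat.factorial]))
    (by norm_num) (by norm_num) (by norm_num) (by norm_num) (by norm_num) (by norm_num) (by norm_num) (by norm_num)
    (by norm_num) (by norm_num) (by norm_num) (by norm_num) hκ h0 hm

private theorem e8_2_5 {κ τ : ℝ} (hκ : 433 / 250 ≤ κ) (h0 : 0 ≤ τ) (hm : τ ≤ 3927 / 10000) : 24 / 25 ≤ lv κ τ :=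
  lv_ge_num (κ₀ := 433 / 250) (y := 16809 / 100000) (Fl := 1183043 / 1000000) (Fh := 295761 / 250000) (xl := 145433 / 100000) (xh := 72717 / 50000) (τm := 3927 / 10000) (θ := 5753 / 50000)
    (by norm_num) (by norm_num) (by norm_num)
    (exp_bds (by norm_num) (by norm_num) (by norm_num [Finset.sum_range_succ, Nat.factorial])
      (by norm_num [Finset.sum_range_succ, Nat.factorial]))
    (by norm_num) (by norm_num) (by norm_num) (by norm_num) (by norm_num) (by norm_num) (by norm_num) (by norm_num)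
    (by norm_num) (by norm_num) (by norm_num) (by norm_num) hκ h0 hm

private theorem e8_2_6 {κ τ : ℝ} (hκ : 433 / 250 ≤ κ) (h0 : 0 ≤ τ) (hm : τ ≤ 11781 / 25000) : 189 / 200 ≤ lv κ τ :=
  lv_ge_num (κ₀ := 433 / 250) (y := 10033 / 50000) (Fl := 1222209 / 1000000) (Fh := 122221 / 100000) (xl := 70141 / 50000) (xh := 140283 / 100000) (τm := 11781 / 25000) (θ := 14207 / 100000)
    (by norm_num) (by norm_num) (by norm_num)
    (exp_bds (by norm_num) (by norm_num) (by norm_num [Finset.sum_range_succ, Nat.factorial])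
      (by norm_num [Finset.sum_range_succ, Nat.factorial]))
    (by norm_num) (by norm_num) (by norm_num) (by norm_num) (by norm_num) (by norm_num) (by norm_num) (by norm_num)
    (by norm_num) (by norm_num) (by norm_num) (by norm_num) hκ h0 hm

private theorem e8_2_7 {κ τ : ℝ} (hκ : 433 / 250 ≤ κ) (h0 : 0 ≤ τ) (hm : τ ≤ 27489 / 50000) : 93 / 100 ≤ lv κ τ :=
  lv_ge_num (κ₀ := 433 / 250) (y := 23269 / 100000) (Fl := 126199 / 100000) (Fh := 1261991 / 1000000) (xl := 16907 / 12500) (xh := 135257 / 100000) (τm := 27489 / 50000) (θ := 4259 / 25000)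
    (by norm_num) (by norm_num) (by norm_num)
    (exp_bds (by norm_num) (by norm_num) (by norm_num [Finset.sum_range_succ, Nat.factorial])
      (by norm_num [Finset.sum_range_succ, Nat.factorial]))
    (by norm_num) (by norm_num) (by norm_num) (by norm_num) (by norm_num) (by norm_num) (by norm_num) (by norm_num)
    (by norm_num) (by norm_num) (by norm_num) (by norm_num) hκ h0 hm

private theorem e8_2_8 {κ τ : ℝ} (hκ : 433 / 250 ≤ κ) (h0 : 0 ≤ τ) (hm : τ ≤ 3927 / 6250) : 91 / 100 ≤ lv κ τ :=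
  lv_ge_num (κ₀ := 433 / 250) (y := 3301 / 12500) (Fl := 162779 / 125000) (Fh := 1302233 / 1000000) (xl := 65177 / 50000) (xh := 26071 / 20000) (τm := 3927 / 6250) (θ := 19987 / 100000)
    (by norm_num) (by norm_num) (by norm_num)
    (exp_bds (by norm_num) (by norm_num) (by norm_num [Finset.sum_range_succ, Nat.factorial])
      (by norm_num [Finset.sum_range_succ, Nat.factorial]))
    (by norm_num) (by norm_num) (by norm_num) (by norm_num) (by norm_num) (by norm_num) (by norm_num) (by norm_num)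
    (by norm_num) (by norm_num) (by norm_num) (by norm_num) hκ h0 hm

private theorem e8_2_9 {κ τ : ℝ} (hκ : 433 / 250 ≤ κ) (h0 : 0 ≤ τ) (hm : τ ≤ 35343 / 50000) : 177 / 200 ≤ lv κ τ :=
  lv_ge_num (κ₀ := 433 / 250) (y := 29477 / 100000) (Fl := 1342817 / 1000000) (Fh := 671409 / 500000) (xl := 125569 / 100000) (xh := 12557 / 10000) (τm := 35343 / 50000) (θ := 1441 / 6250)
    (by norm_num) (by norm_num) (by norm_num)
    (exp_bds (by norm_num) (by norm_num) (by norm_num [Finset.sum_range_succ, Nat.factorial])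
      (by norm_num [Finset.sum_range_succ, Nat.factorial]))
    (by norm_num) (by norm_num) (by norm_num) (by norm_num) (by norm_num) (by norm_num) (by norm_num) (by norm_num)
    (by norm_num) (by norm_num) (by norm_num) (by norm_num) hκ h0 hm

private theorem e8_2_10 {κ τ : ℝ} (hκ : 433 / 250 ≤ κ) (h0 : 0 ≤ τ) (hm : τ ≤ 3927 / 5000) : 173 / 200 ≤ lv κ τ :=
  lv_ge_num (κ₀ := 433 / 250) (y := 32469 / 100000) (Fl := 1383601 / 1000000) (Fh := 691801 / 500000) (xl := 3778 / 3125) (xh := 120897 / 100000) (τm := 3927 / 5000) (θ := 26237 / 100000)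
    (by norm_num) (by norm_num) (by norm_num)
    (exp_bds (by norm_num) (by norm_num) (by norm_num [Finset.sum_range_succ, Nat.factorial])
      (by norm_num [Finset.sum_range_succ, Nat.factorial]))
    (by norm_num) (by norm_num) (by norm_num) (by norm_num) (by norm_num) (by norm_num) (by norm_num) (by norm_num)
    (by norm_num) (by norm_num) (by norm_num) (by norm_num) hκ h0 hm

/-- class 8_2: `b = 8`, `κ ≥ 433 / 250` -/
theorem ld8_2 {κ h : ℝ} (hκ : 433 / 250 ≤ κ) (h0 : 0 < h) (hh : h ≤ 2 * π / 8) :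
    LineData κ h 1 (118 / 125) (23 / 50) (339 / 500) (469 / 2000) (-14 / 25) (-43 / 100) (319 / 2000) (93 / 100) := by
  have hk1 : 1 ≤ κ := by linarith
  have hp4 := Real.pi_lt_d4
  have hp3 := Real.pi_gt_d2
  have hhq : h ≤ 3927 / 5000 := by
    refine hh.trans ?_
    rw [div_le_iff₀ (by norm_num)]
    linarith
  have L1 : Line κ h (1 / 10) (199 / 2000) (199 / 40000) := Line.stepN (l := 199 / 200) (τm := 3927 / 50000) hk1 h0.le (Line.zero hk1) (by norm_num) (by norm_num)
    (fun τ a b => e8_2_1 hκ a b) (by linarith) (by linarith) (by norm_num) (by norm_num)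
  have L2 : Line κ h (1 / 5) (397 / 2000) (793 / 40000) := Line.stepN (l := 99 / 100) (τm := 3927 / 25000) hk1 h0.le L1 (by norm_num) (by norm_num)
    (fun τ a b => e8_2_2 hκ a b) (by linarith) (by linarith) (by norm_num) (by norm_num)
  have L3 : Line κ h (3 / 10) (297 / 1000) (889 / 20000) := Line.stepN (l := 197 / 200) (τm := 11781 / 50000) hk1 h0.le L2 (by norm_num) (by norm_num)
    (fun τ a b => e8_2_3 hκ a b) (by linarith) (by linarith) (by norm_num) (by norm_num)
  have L4 : Line κ h (2 / 5) (789 / 2000) (3143 / 40000) := Line.stepN (l := 39 / 40) (τm := 3927 / 12500) hk1 h0.le L3 (by norm_num) (by norm_num)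
    (fun τ a b => e8_2_4 hκ a b) (by linarith) (by linarith) (by norm_num) (by norm_num)
  have L5 : Line κ h (1 / 2) (981 / 2000) (4871 / 40000) := Line.stepN (l := 24 / 25) (τm := 3927 / 10000) hk1 h0.le L4 (by norm_num) (by norm_num)
    (fun τ a b => e8_2_5 hκ a b) (by linarith) (by linarith) (by norm_num) (by norm_num)
  have L6 : Line κ h (3 / 5) (117 / 200) (139 / 800) := Line.stepN (l := 189 / 200) (τm := 11781 / 25000) hk1 h0.le L5 (by norm_num) (by norm_num)
    (fun τ a b => e8_2_6 hκ a b) (by linarith) (by linarith) (by norm_num) (by norm_num)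
  have L7 : Line κ h (7 / 10) (339 / 500) (1171 / 5000) := Line.stepN (l := 93 / 100) (τm := 27489 / 50000) hk1 h0.le L6 (by norm_num) (by norm_num)
    (fun τ a b => e8_2_7 hκ a b) (by linarith) (by linarith) (by norm_num) (by norm_num)
  have L8 : Line κ h (4 / 5) (769 / 1000) (6049 / 20000) := Line.stepN (l := 91 / 100) (τm := 3927 / 6250) hk1 h0.le L7 (by norm_num) (by norm_num)
    (fun τ a b => e8_2_8 hκ a b) (by linarith) (by linarith) (by norm_num) (by norm_num)
  have L9 : Line κ h (9 / 10) (343 / 400) (15107 / 40000) := Line.stepN (l := 177 / 200) (τm := 35343 / 50000) hk1 h0.le L8 (by norm_num) (by norm_num)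
    (fun τ a b => e8_2_9 hκ a b) (by linarith) (by linarith) (by norm_num) (by norm_num)
  have L10 : Line κ h 1 (118 / 125) (9197 / 20000) := Line.stepN (l := 173 / 200) (τm := 3927 / 5000) hk1 h0.le L9 (by norm_num) (by norm_num)
    (fun τ a b => e8_2_10 hκ a b) (by linarith) (by linarith) (by norm_num) (by norm_num)
  have m1 : ∀ z ∈ Icc (-14 / 25 : ℝ) (-1 / 2), 93 / 100 ≤ yv κ ((z + 1) * h) / h - yv κ (z * h) / h :=
    mu_piece (a := 2 / 5) (S := 789 / 2000) (C := 3143 / 40000) (l := 24 / 25) (τm := 3927 / 10000) (H₁ := 45347 / 100000) (mp := 19961 / 40000) (mq := 450649 / 1000000) hk1 h0 (by linarith)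
      L4 (by norm_num) (by norm_num) (by norm_num) (fun τ a b => e8_2_5 hκ a b) (by linarith) (by linarith)
      (exp_le_bd (by norm_num) (by norm_num) (by norm_num [Finset.sum_range_succ, Nat.factorial])) (exp_le_bd (by norm_num) (by norm_num) (by norm_num [Finset.sum_range_succ, Nat.factorial]))
      (by norm_num) (by norm_num)
  have m2 : ∀ z ∈ Icc (-1 / 2 : ℝ) (-43 / 100), 93 / 100 ≤ yv κ ((z + 1) * h) / h - yv κ (z * h) / h :=
    mu_piece (a := 1 / 2) (S := 981 / 2000) (C := 4871 / 40000) (l := 189 / 200) (τm := 11781 / 25000) (H₁ := 45347 / 100000) (mp := 450649 / 1000000) (mq := 98209 / 250000) hk1 h0 (by linarith)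
      L5 (by norm_num) (by norm_num) (by norm_num) (fun τ a b => e8_2_6 hκ a b) (by linarith) (by linarith)
      (exp_le_bd (by norm_num) (by norm_num) (by norm_num [Finset.sum_range_succ, Nat.factorial])) (exp_le_bd (by norm_num) (by norm_num) (by norm_num [Finset.sum_range_succ, Nat.factorial]))
      (by norm_num) (by norm_num)
  exact ⟨L10.weaken h0.le (by norm_num) (by norm_num), L7.weaken h0.le (by norm_num) (by norm_num),
    Line.f1R (τm := 1399 / 3125) hk1 h0 L6 (by norm_num) (by linarith) (by linarith) (by norm_num), mu_glue m1 m2⟩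

/-- class 8_2: line at `1 + qL`, curvature up to `1 + qR` -/
theorem lr8_2 {κ h : ℝ} (hκ : 433 / 250 ≤ κ) (h0 : 0 < h) (hh : h ≤ 2 * π / 8) :
    Line κ h (1 + (-14 / 25)) (4329 / 10000) (94703 / 1000000) ∧ (∀ τ, 0 ≤ τ → τ ≤ 11781 / 25000 → 189 / 200 ≤ lv κ τ) ∧ (1 + (-43 / 100)) * h ≤ (11781 / 25000) ∧ (11781 / 25000) < κ + π / 2 := by
  have hk1 : 1 ≤ κ := by linarith
  have hp4 := Real.pi_lt_d4
  have hp3 := Real.pi_gt_d2
  have hhq : h ≤ 3927 / 5000 := by
    refine hh.trans ?_
    rw [div_le_iff₀ (by norm_num)]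
    linarith
  have L1 : Line κ h (1 / 10) (199 / 2000) (199 / 40000) := Line.stepN (l := 199 / 200) (τm := 3927 / 50000) hk1 h0.le (Line.zero hk1) (by norm_num) (by norm_num)
    (fun τ a b => e8_2_1 hκ a b) (by linarith) (by linarith) (by norm_num) (by norm_num)
  have L2 : Line κ h (1 / 5) (397 / 2000) (793 / 40000) := Line.stepN (l := 99 / 100) (τm := 3927 / 25000) hk1 h0.le L1 (by norm_num) (by norm_num)
    (fun τ a b => e8_2_2 hκ a b) (by linarith) (by linarith) (by norm_num) (by norm_num)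
  have L3 : Line κ h (3 / 10) (297 / 1000) (889 / 20000) := Line.stepN (l := 197 / 200) (τm := 11781 / 50000) hk1 h0.le L2 (by norm_num) (by norm_num)
    (fun τ a b => e8_2_3 hκ a b) (by linarith) (by linarith) (by norm_num) (by norm_num)
  have L4 : Line κ h (2 / 5) (789 / 2000) (3143 / 40000) := Line.stepN (l := 39 / 40) (τm := 3927 / 12500) hk1 h0.le L3 (by norm_num) (by norm_num)
    (fun τ a b => e8_2_4 hκ a b) (by linarith) (by linarith) (by norm_num) (by norm_num)
  exact ⟨Line.stepN (l := 24 / 25) (τm := 3927 / 10000) hk1 h0.le L4 (by norm_num) (by norm_num)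
    (fun τ a b => e8_2_5 hκ a b) (by linarith) (by linarith) (by norm_num) (by norm_num), fun τ a b => e8_2_6 hκ a b,
    by linarith, by linarith⟩

end R2

end Sok
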