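import Pool.Agent.Lib.MP_816dec_an.R2Cls
import Pool.Agent.Lib.MP_816dec_an.R2TabA
import Pool.Agent.Lib.MP_816dec_an.R2TabB
import Pool.Agent.Lib.MP_816dec_an.R2TabC
import Pool.Agent.Lib.MP_816dec_an.R2TabD
import Pool.Agent.Lib.MP_816dec_an.R2TabE

/-!
MP_816dec_an, row R2 (5), (6): right lines, `f1R` and `mu` of the 37 classes at the numbers of `R2Cls`.
-/

set_option autoImplicit false

open Set Filter Topology Real

namespace Sok

namespace R2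

/-- `LineData` at the numbers of a class -/
def LineN (κ h th : ℝ) (N : Num) : Prop := LineData κ h th N.S N.C N.Sr N.Cr N.qL N.qR N.f1R N.μ

private theorem LineN_of {κ h th S C Sr Cr qL qR f1R μ : ℝ} {N : Num}
    (D : LineData κ h th S C Sr Cr qL qR f1R μ) (hS : N.S = S) (hC : N.C = C) (hSr : N.Sr = Sr) (hCr : N.Cr = Cr)
    (hqL : N.qL = qL) (hqR : N.qR = qR) (hf : N.f1R = f1R) (hm : N.μ = μ) : LineN κ h th N := by
  subst hS hC hSr hCr hqL hqR hf hm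
  exact D

private theorem hpos {b₀ b : ℕ} (h0 : 0 < b₀) (h : b₀ ≤ b) : 0 < hh b := by
  unfold hh
  have : (0 : ℝ) < b := by exact_mod_cast lt_of_lt_of_le h0 h
  positivity

private theorem hle {b₀ b : ℕ} (h0 : 0 < b₀) (h : b₀ ≤ b) : hh b ≤ 2 * π / b₀ := by
  unfold hh
  have h1 : (0 : ℝ) < b₀ := by exact_mod_cast h0
  have h2 : (b₀ : ℝ) ≤ b := by exact_mod_cast h
  exact div_le_div_of_nonneg_left (by positivity) h1 h2

theorem line1_1 {b : ℕ} {κ : ℝ} (hb : 1 ≤ b) (h1 : 47 / 10 ≤ κ) : LineN κ (hh b) (7 / 10) c1_1.num :=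
  LineN_of (ld1_1 h1 (hpos (b₀ := 1) (by norm_num) hb) (by simpa using hle (b₀ := 1) (by norm_num) hb))
    (by norm_num [NumQ.num, c1_1]) (by norm_num [NumQ.num, c1_1]) (by norm_num [NumQ.num, c1_1])
    (by norm_num [NumQ.num, c1_1]) (by norm_num [NumQ.num, c1_1]) (by norm_num [NumQ.num, c1_1])
    (by norm_num [NumQ.num, c1_1]) (by norm_num [NumQ.num, c1_1])

theorem line1_2 {b : ℕ} {κ : ℝ} (hb : 1 ≤ b) (h1 : 28 / 5 ≤ κ) : LineN κ (hh b) (4 / 5) c1_2.num :=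
  LineN_of (ld1_2 h1 (hpos (b₀ := 1) (by norm_num) hb) (by simpa using hle (b₀ := 1) (by norm_num) hb))
    (by norm_num [NumQ.num, c1_2]) (by norm_num [NumQ.num, c1_2]) (by norm_num [NumQ.num, c1_2])
    (by norm_num [NumQ.num, c1_2]) (by norm_num [NumQ.num, c1_2]) (by norm_num [NumQ.num, c1_2])
    (by norm_num [NumQ.num, c1_2]) (by norm_num [NumQ.num, c1_2])

theorem line1_3 {b : ℕ} {κ : ℝ} (hb : 1 ≤ b) (h1 : 69 / 10 ≤ κ) : LineN κ (hh b) (4 / 5) c1_3.num :=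
  LineN_of (ld1_3 h1 (hpos (b₀ := 1) (by norm_num) hb) (by simpa using hle (b₀ := 1) (by norm_num) hb))
    (by norm_num [NumQ.num, c1_3]) (by norm_num [NumQ.num, c1_3]) (by norm_num [NumQ.num, c1_3])
    (by norm_num [NumQ.num, c1_3]) (by norm_num [NumQ.num, c1_3]) (by norm_num [NumQ.num, c1_3])
    (by norm_num [NumQ.num, c1_3]) (by norm_num [NumQ.num, c1_3])

theorem line1_4 {b : ℕ} {κ : ℝ} (hb : 1 ≤ b) (h1 : 77 / 10 ≤ κ) : LineN κ (hh b) (4 / 5) c1_4.num :=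
  LineN_of (ld1_4 h1 (hpos (b₀ := 1) (by norm_num) hb) (by simpa using hle (b₀ := 1) (by norm_num) hb))
    (by norm_num [NumQ.num, c1_4]) (by norm_num [NumQ.num, c1_4]) (by norm_num [NumQ.num, c1_4])
    (by norm_num [NumQ.num, c1_4]) (by norm_num [NumQ.num, c1_4]) (by norm_num [NumQ.num, c1_4])
    (by norm_num [NumQ.num, c1_4]) (by norm_num [NumQ.num, c1_4])

theorem line1_5 {b : ℕ} {κ : ℝ} (hb : 1 ≤ b) (h1 : 41 / 5 ≤ κ) : LineN κ (hh b) (9 / 10) c1_5.num :=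
  LineN_of (ld1_5 h1 (hpos (b₀ := 1) (by norm_num) hb) (by simpa using hle (b₀ := 1) (by norm_num) hb))
    (by norm_num [NumQ.num, c1_5]) (by norm_num [NumQ.num, c1_5]) (by norm_num [NumQ.num, c1_5])
    (by norm_num [NumQ.num, c1_5]) (by norm_num [NumQ.num, c1_5]) (by norm_num [NumQ.num, c1_5])
    (by norm_num [NumQ.num, c1_5]) (by norm_num [NumQ.num, c1_5])

theorem line1_6 {b : ℕ} {κ : ℝ} (hb : 1 ≤ b) (h1 : 19 / 2 ≤ κ) : LineN κ (hh b) (9 / 10) c1_6.num :=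
  LineN_of (ld1_6 h1 (hpos (b₀ := 1) (by norm_num) hb) (by simpa using hle (b₀ := 1) (by norm_num) hb))
    (by norm_num [NumQ.num, c1_6]) (by norm_num [NumQ.num, c1_6]) (by norm_num [NumQ.num, c1_6])
    (by norm_num [NumQ.num, c1_6]) (by norm_num [NumQ.num, c1_6]) (by norm_num [NumQ.num, c1_6])
    (by norm_num [NumQ.num, c1_6]) (by norm_num [NumQ.num, c1_6])

theorem line2_1 {b : ℕ} {κ : ℝ} (hb : 2 ≤ b) (h1 : 3 ≤ κ) : LineN κ (hh b) (4 / 5) c2_1.num :=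
  LineN_of (ld2_1 h1 (hpos (b₀ := 2) (by norm_num) hb) (by simpa using hle (b₀ := 2) (by norm_num) hb))
    (by norm_num [NumQ.num, c2_1]) (by norm_num [NumQ.num, c2_1]) (by norm_num [NumQ.num, c2_1])
    (by norm_num [NumQ.num, c2_1]) (by norm_num [NumQ.num, c2_1]) (by norm_num [NumQ.num, c2_1])
    (by norm_num [NumQ.num, c2_1]) (by norm_num [NumQ.num, c2_1])

theorem line2_2 {b : ℕ} {κ : ℝ} (hb : 2 ≤ b) (h1 : 7 / 2 ≤ κ) : LineN κ (hh b) (9 / 10) c2_2.num :=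
  LineN_of (ld2_2 h1 (hpos (b₀ := 2) (by norm_num) hb) (by simpa using hle (b₀ := 2) (by norm_num) hb))
    (by norm_num [NumQ.num, c2_2]) (by norm_num [NumQ.num, c2_2]) (by norm_num [NumQ.num, c2_2])
    (by norm_num [NumQ.num, c2_2]) (by norm_num [NumQ.num, c2_2]) (by norm_num [NumQ.num, c2_2])
    (by norm_num [NumQ.num, c2_2]) (by norm_num [NumQ.num, c2_2])

theorem line2_3 {b : ℕ} {κ : ℝ} (hb : 2 ≤ b) (h1 : 39 / 10 ≤ κ) : LineN κ (hh b) 1 c2_3.num :=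
  LineN_of (ld2_3 h1 (hpos (b₀ := 2) (by norm_num) hb) (by simpa using hle (b₀ := 2) (by norm_num) hb))
    (by norm_num [NumQ.num, c2_3]) (by norm_num [NumQ.num, c2_3]) (by norm_num [NumQ.num, c2_3])
    (by norm_num [NumQ.num, c2_3]) (by norm_num [NumQ.num, c2_3]) (by norm_num [NumQ.num, c2_3])
    (by norm_num [NumQ.num, c2_3]) (by norm_num [NumQ.num, c2_3])

theorem line2_4 {b : ℕ} {κ : ℝ} (hb : 2 ≤ b) (h1 : 21 / 5 ≤ κ) : LineN κ (hh b) 1 c2_4.num :=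
  LineN_of (ld2_4 h1 (hpos (b₀ := 2) (by norm_num) hb) (by simpa using hle (b₀ := 2) (by norm_num) hb))
    (by norm_num [NumQ.num, c2_4]) (by norm_num [NumQ.num, c2_4]) (by norm_num [NumQ.num, c2_4])
    (by norm_num [NumQ.num, c2_4]) (by norm_num [NumQ.num, c2_4]) (by norm_num [NumQ.num, c2_4])
    (by norm_num [NumQ.num, c2_4]) (by norm_num [NumQ.num, c2_4])

theorem line3_1 {b : ℕ} {κ : ℝ} (hb : 3 ≤ b) (h1 : 139 / 100 ≤ κ) : LineN κ (hh b) (7 / 10) c3_1.num :=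
  LineN_of (ld3_1 h1 (hpos (b₀ := 3) (by norm_num) hb) (by simpa using hle (b₀ := 3) (by norm_num) hb))
    (by norm_num [NumQ.num, c3_1]) (by norm_num [NumQ.num, c3_1]) (by norm_num [NumQ.num, c3_1])
    (by norm_num [NumQ.num, c3_1]) (by norm_num [NumQ.num, c3_1]) (by norm_num [NumQ.num, c3_1])
    (by norm_num [NumQ.num, c3_1]) (by norm_num [NumQ.num, c3_1])

theorem line3_2 {b : ℕ} {κ : ℝ} (hb : 3 ≤ b) (h1 : 8 / 5 ≤ κ) : LineN κ (hh b) (7 / 10) c3_2.num :=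
  LineN_of (ld3_2 h1 (hpos (b₀ := 3) (by norm_num) hb) (by simpa using hle (b₀ := 3) (by norm_num) hb))
    (by norm_num [NumQ.num, c3_2]) (by norm_num [NumQ.num, c3_2]) (by norm_num [NumQ.num, c3_2])
    (by norm_num [NumQ.num, c3_2]) (by norm_num [NumQ.num, c3_2]) (by norm_num [NumQ.num, c3_2])
    (by norm_num [NumQ.num, c3_2]) (by norm_num [NumQ.num, c3_2])

theorem line3_3 {b : ℕ} {κ : ℝ} (hb : 3 ≤ b) (h1 : 19 / 10 ≤ κ) : LineN κ (hh b) (4 / 5) c3_3.num :=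
  LineN_of (ld3_3 h1 (hpos (b₀ := 3) (by norm_num) hb) (by simpa using hle (b₀ := 3) (by norm_num) hb))
    (by norm_num [NumQ.num, c3_3]) (by norm_num [NumQ.num, c3_3]) (by norm_num [NumQ.num, c3_3])
    (by norm_num [NumQ.num, c3_3]) (by norm_num [NumQ.num, c3_3]) (by norm_num [NumQ.num, c3_3])
    (by norm_num [NumQ.num, c3_3]) (by norm_num [NumQ.num, c3_3])

theorem line3_4 {b : ℕ} {κ : ℝ} (hb : 3 ≤ b) (h1 : 21 / 10 ≤ κ) : LineN κ (hh b) (9 / 10) c3_4.num :=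
  LineN_of (ld3_4 h1 (hpos (b₀ := 3) (by norm_num) hb) (by simpa using hle (b₀ := 3) (by norm_num) hb))
    (by norm_num [NumQ.num, c3_4]) (by norm_num [NumQ.num, c3_4]) (by norm_num [NumQ.num, c3_4])
    (by norm_num [NumQ.num, c3_4]) (by norm_num [NumQ.num, c3_4]) (by norm_num [NumQ.num, c3_4])
    (by norm_num [NumQ.num, c3_4]) (by norm_num [NumQ.num, c3_4])

theorem line3_5 {b : ℕ} {κ : ℝ} (hb : 3 ≤ b) (h1 : 23 / 10 ≤ κ) : LineN κ (hh b) (9 / 10) c3_5.num :=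
  LineN_of (ld3_5 h1 (hpos (b₀ := 3) (by norm_num) hb) (by simpa using hle (b₀ := 3) (by norm_num) hb))
    (by norm_num [NumQ.num, c3_5]) (by norm_num [NumQ.num, c3_5]) (by norm_num [NumQ.num, c3_5])
    (by norm_num [NumQ.num, c3_5]) (by norm_num [NumQ.num, c3_5]) (by norm_num [NumQ.num, c3_5])
    (by norm_num [NumQ.num, c3_5]) (by norm_num [NumQ.num, c3_5])

theorem line3_6 {b : ℕ} {κ : ℝ} (hb : 3 ≤ b) (h1 : 5 / 2 ≤ κ) : LineN κ (hh b) 1 c3_6.num :=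
  LineN_of (ld3_6 h1 (hpos (b₀ := 3) (by norm_num) hb) (by simpa using hle (b₀ := 3) (by norm_num) hb))
    (by norm_num [NumQ.num, c3_6]) (by norm_num [NumQ.num, c3_6]) (by norm_num [NumQ.num, c3_6])
    (by norm_num [NumQ.num, c3_6]) (by norm_num [NumQ.num, c3_6]) (by norm_num [NumQ.num, c3_6])
    (by norm_num [NumQ.num, c3_6]) (by norm_num [NumQ.num, c3_6])

theorem line3_7 {b : ℕ} {κ : ℝ} (hb : 3 ≤ b) (h1 : 133 / 50 ≤ κ) : LineN κ (hh b) 1 c3_7.num :=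
  LineN_of (ld3_7 h1 (hpos (b₀ := 3) (by norm_num) hb) (by simpa using hle (b₀ := 3) (by norm_num) hb))
    (by norm_num [NumQ.num, c3_7]) (by norm_num [NumQ.num, c3_7]) (by norm_num [NumQ.num, c3_7])
    (by norm_num [NumQ.num, c3_7]) (by norm_num [NumQ.num, c3_7]) (by norm_num [NumQ.num, c3_7])
    (by norm_num [NumQ.num, c3_7]) (by norm_num [NumQ.num, c3_7])

theorem line4_1 {b : ℕ} {κ : ℝ} (hb : 4 ≤ b) (h1 : 139 / 100 ≤ κ) : LineN κ (hh b) (4 / 5) c4_1.num :=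
  LineN_of (ld4_1 h1 (hpos (b₀ := 4) (by norm_num) hb) (by simpa using hle (b₀ := 4) (by norm_num) hb))
    (by norm_num [NumQ.num, c4_1]) (by norm_num [NumQ.num, c4_1]) (by norm_num [NumQ.num, c4_1])
    (by norm_num [NumQ.num, c4_1]) (by norm_num [NumQ.num, c4_1]) (by norm_num [NumQ.num, c4_1])
    (by norm_num [NumQ.num, c4_1]) (by norm_num [NumQ.num, c4_1])

theorem line4_2 {b : ℕ} {κ : ℝ} (hb : 4 ≤ b) (h1 : 3 / 2 ≤ κ) : LineN κ (hh b) (4 / 5) c4_2.num :=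
  LineN_of (ld4_2 h1 (hpos (b₀ := 4) (by norm_num) hb) (by simpa using hle (b₀ := 4) (by norm_num) hb))
    (by norm_num [NumQ.num, c4_2]) (by norm_num [NumQ.num, c4_2]) (by norm_num [NumQ.num, c4_2])
    (by norm_num [NumQ.num, c4_2]) (by norm_num [NumQ.num, c4_2]) (by norm_num [NumQ.num, c4_2])
    (by norm_num [NumQ.num, c4_2]) (by norm_num [NumQ.num, c4_2])

theorem line4_3 {b : ℕ} {κ : ℝ} (hb : 4 ≤ b) (h1 : 8 / 5 ≤ κ) : LineN κ (hh b) (9 / 10) c4_3.num :=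
  LineN_of (ld4_3 h1 (hpos (b₀ := 4) (by norm_num) hb) (by simpa using hle (b₀ := 4) (by norm_num) hb))
    (by norm_num [NumQ.num, c4_3]) (by norm_num [NumQ.num, c4_3]) (by norm_num [NumQ.num, c4_3])
    (by norm_num [NumQ.num, c4_3]) (by norm_num [NumQ.num, c4_3]) (by norm_num [NumQ.num, c4_3])
    (by norm_num [NumQ.num, c4_3]) (by norm_num [NumQ.num, c4_3])

theorem line4_4 {b : ℕ} {κ : ℝ} (hb : 4 ≤ b) (h1 : 433 / 250 ≤ κ) : LineN κ (hh b) (9 / 10) c4_4.num :=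
  LineN_of (ld4_4 h1 (hpos (b₀ := 4) (by norm_num) hb) (by simpa using hle (b₀ := 4) (by norm_num) hb))
    (by norm_num [NumQ.num, c4_4]) (by norm_num [NumQ.num, c4_4]) (by norm_num [NumQ.num, c4_4])
    (by norm_num [NumQ.num, c4_4]) (by norm_num [NumQ.num, c4_4]) (by norm_num [NumQ.num, c4_4])
    (by norm_num [NumQ.num, c4_4]) (by norm_num [NumQ.num, c4_4])

theorem line4_5 {b : ℕ} {κ : ℝ} (hb : 4 ≤ b) (h1 : 91 / 50 ≤ κ) : LineN κ (hh b) (9 / 10) c4_5.num :=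
  LineN_of (ld4_5 h1 (hpos (b₀ := 4) (by norm_num) hb) (by simpa using hle (b₀ := 4) (by norm_num) hb))
    (by norm_num [NumQ.num, c4_5]) (by norm_num [NumQ.num, c4_5]) (by norm_num [NumQ.num, c4_5])
    (by norm_num [NumQ.num, c4_5]) (by norm_num [NumQ.num, c4_5]) (by norm_num [NumQ.num, c4_5])
    (by norm_num [NumQ.num, c4_5]) (by norm_num [NumQ.num, c4_5])

theorem line4_6 {b : ℕ} {κ : ℝ} (hb : 4 ≤ b) (h1 : 19 / 10 ≤ κ) : LineN κ (hh b) 1 c4_6.num :=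
  LineN_of (ld4_6 h1 (hpos (b₀ := 4) (by norm_num) hb) (by simpa using hle (b₀ := 4) (by norm_num) hb))
    (by norm_num [NumQ.num, c4_6]) (by norm_num [NumQ.num, c4_6]) (by norm_num [NumQ.num, c4_6])
    (by norm_num [NumQ.num, c4_6]) (by norm_num [NumQ.num, c4_6]) (by norm_num [NumQ.num, c4_6])
    (by norm_num [NumQ.num, c4_6]) (by norm_num [NumQ.num, c4_6])

theorem line4_7 {b : ℕ} {κ : ℝ} (hb : 4 ≤ b) (h1 : 23 / 10 ≤ κ) : LineN κ (hh b) 1 c4_7.num :=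
  LineN_of (ld4_7 h1 (hpos (b₀ := 4) (by norm_num) hb) (by simpa using hle (b₀ := 4) (by norm_num) hb))
    (by norm_num [NumQ.num, c4_7]) (by norm_num [NumQ.num, c4_7]) (by norm_num [NumQ.num, c4_7])
    (by norm_num [NumQ.num, c4_7]) (by norm_num [NumQ.num, c4_7]) (by norm_num [NumQ.num, c4_7])
    (by norm_num [NumQ.num, c4_7]) (by norm_num [NumQ.num, c4_7])

theorem line5_1 {b : ℕ} {κ : ℝ} (hb : 5 ≤ b) (h1 : 139 / 100 ≤ κ) : LineN κ (hh b) 1 c5_1.num :=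
  LineN_of (ld5_1 h1 (hpos (b₀ := 5) (by norm_num) hb) (by simpa using hle (b₀ := 5) (by norm_num) hb))
    (by norm_num [NumQ.num, c5_1]) (by norm_num [NumQ.num, c5_1]) (by norm_num [NumQ.num, c5_1])
    (by norm_num [NumQ.num, c5_1]) (by norm_num [NumQ.num, c5_1]) (by norm_num [NumQ.num, c5_1])
    (by norm_num [NumQ.num, c5_1]) (by norm_num [NumQ.num, c5_1])

theorem line5_2 {b : ℕ} {κ : ℝ} (hb : 5 ≤ b) (h1 : 71 / 50 ≤ κ) : LineN κ (hh b) 1 c5_2.num :=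
  LineN_of (ld5_2 h1 (hpos (b₀ := 5) (by norm_num) hb) (by simpa using hle (b₀ := 5) (by norm_num) hb))
    (by norm_num [NumQ.num, c5_2]) (by norm_num [NumQ.num, c5_2]) (by norm_num [NumQ.num, c5_2])
    (by norm_num [NumQ.num, c5_2]) (by norm_num [NumQ.num, c5_2]) (by norm_num [NumQ.num, c5_2])
    (by norm_num [NumQ.num, c5_2]) (by norm_num [NumQ.num, c5_2])

theorem line5_3 {b : ℕ} {κ : ℝ} (hb : 5 ≤ b) (h1 : 37 / 25 ≤ κ) : LineN κ (hh b) 1 c5_3.num :=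
  LineN_of (ld5_3 h1 (hpos (b₀ := 5) (by norm_num) hb) (by simpa using hle (b₀ := 5) (by norm_num) hb))
    (by norm_num [NumQ.num, c5_3]) (by norm_num [NumQ.num, c5_3]) (by norm_num [NumQ.num, c5_3])
    (by norm_num [NumQ.num, c5_3]) (by norm_num [NumQ.num, c5_3]) (by norm_num [NumQ.num, c5_3])
    (by norm_num [NumQ.num, c5_3]) (by norm_num [NumQ.num, c5_3])

theorem line5_4 {b : ℕ} {κ : ℝ} (hb : 5 ≤ b) (h1 : 79 / 50 ≤ κ) : LineN κ (hh b) 1 c5_4.num :=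
  LineN_of (ld5_4 h1 (hpos (b₀ := 5) (by norm_num) hb) (by simpa using hle (b₀ := 5) (by norm_num) hb))
    (by norm_num [NumQ.num, c5_4]) (by norm_num [NumQ.num, c5_4]) (by norm_num [NumQ.num, c5_4])
    (by norm_num [NumQ.num, c5_4]) (by norm_num [NumQ.num, c5_4]) (by norm_num [NumQ.num, c5_4])
    (by norm_num [NumQ.num, c5_4]) (by norm_num [NumQ.num, c5_4])

theorem line5_5 {b : ℕ} {κ : ℝ} (hb : 5 ≤ b) (h1 : 433 / 250 ≤ κ) : LineN κ (hh b) 1 c5_5.num :=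
  LineN_of (ld5_5 h1 (hpos (b₀ := 5) (by norm_num) hb) (by simpa using hle (b₀ := 5) (by norm_num) hb))
    (by norm_num [NumQ.num, c5_5]) (by norm_num [NumQ.num, c5_5]) (by norm_num [NumQ.num, c5_5])
    (by norm_num [NumQ.num, c5_5]) (by norm_num [NumQ.num, c5_5]) (by norm_num [NumQ.num, c5_5])
    (by norm_num [NumQ.num, c5_5]) (by norm_num [NumQ.num, c5_5])

theorem line5_6 {b : ℕ} {κ : ℝ} (hb : 5 ≤ b) (h1 : 2 ≤ κ) : LineN κ (hh b) 1 c5_6.num :=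
  LineN_of (ld5_6 h1 (hpos (b₀ := 5) (by norm_num) hb) (by simpa using hle (b₀ := 5) (by norm_num) hb))
    (by norm_num [NumQ.num, c5_6]) (by norm_num [NumQ.num, c5_6]) (by norm_num [NumQ.num, c5_6])
    (by norm_num [NumQ.num, c5_6]) (by norm_num [NumQ.num, c5_6]) (by norm_num [NumQ.num, c5_6])
    (by norm_num [NumQ.num, c5_6]) (by norm_num [NumQ.num, c5_6])

theorem line6_1 {b : ℕ} {κ : ℝ} (hb : 6 ≤ b) (h1 : 139 / 100 ≤ κ) : LineN κ (hh b) 1 c6_1.num :=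
  LineN_of (ld6_1 h1 (hpos (b₀ := 6) (by norm_num) hb) (by simpa using hle (b₀ := 6) (by norm_num) hb))
    (by norm_num [NumQ.num, c6_1]) (by norm_num [NumQ.num, c6_1]) (by norm_num [NumQ.num, c6_1])
    (by norm_num [NumQ.num, c6_1]) (by norm_num [NumQ.num, c6_1]) (by norm_num [NumQ.num, c6_1])
    (by norm_num [NumQ.num, c6_1]) (by norm_num [NumQ.num, c6_1])

theorem line6_2 {b : ℕ} {κ : ℝ} (hb : 6 ≤ b) (h1 : 31 / 20 ≤ κ) : LineN κ (hh b) 1 c6_2.num :=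
  LineN_of (ld6_2 h1 (hpos (b₀ := 6) (by norm_num) hb) (by simpa using hle (b₀ := 6) (by norm_num) hb))
    (by norm_num [NumQ.num, c6_2]) (by norm_num [NumQ.num, c6_2]) (by norm_num [NumQ.num, c6_2])
    (by norm_num [NumQ.num, c6_2]) (by norm_num [NumQ.num, c6_2]) (by norm_num [NumQ.num, c6_2])
    (by norm_num [NumQ.num, c6_2]) (by norm_num [NumQ.num, c6_2])

theorem line6_3 {b : ℕ} {κ : ℝ} (hb : 6 ≤ b) (h1 : 433 / 250 ≤ κ) : LineN κ (hh b) 1 c6_3.num :=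
  LineN_of (ld6_3 h1 (hpos (b₀ := 6) (by norm_num) hb) (by simpa using hle (b₀ := 6) (by norm_num) hb))
    (by norm_num [NumQ.num, c6_3]) (by norm_num [NumQ.num, c6_3]) (by norm_num [NumQ.num, c6_3])
    (by norm_num [NumQ.num, c6_3]) (by norm_num [NumQ.num, c6_3]) (by norm_num [NumQ.num, c6_3])
    (by norm_num [NumQ.num, c6_3]) (by norm_num [NumQ.num, c6_3])

theorem line7_1 {b : ℕ} {κ : ℝ} (hb : 7 ≤ b) (h1 : 139 / 100 ≤ κ) : LineN κ (hh b) 1 c7_1.num :=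
  LineN_of (ld7_1 h1 (hpos (b₀ := 7) (by norm_num) hb) (by simpa using hle (b₀ := 7) (by norm_num) hb))
    (by norm_num [NumQ.num, c7_1]) (by norm_num [NumQ.num, c7_1]) (by norm_num [NumQ.num, c7_1])
    (by norm_num [NumQ.num, c7_1]) (by norm_num [NumQ.num, c7_1]) (by norm_num [NumQ.num, c7_1])
    (by norm_num [NumQ.num, c7_1]) (by norm_num [NumQ.num, c7_1])

theorem line7_2 {b : ℕ} {κ : ℝ} (hb : 7 ≤ b) (h1 : 433 / 250 ≤ κ) : LineN κ (hh b) 1 c7_2.num :=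
  LineN_of (ld7_2 h1 (hpos (b₀ := 7) (by norm_num) hb) (by simpa using hle (b₀ := 7) (by norm_num) hb))
    (by norm_num [NumQ.num, c7_2]) (by norm_num [NumQ.num, c7_2]) (by norm_num [NumQ.num, c7_2])
    (by norm_num [NumQ.num, c7_2]) (by norm_num [NumQ.num, c7_2]) (by norm_num [NumQ.num, c7_2])
    (by norm_num [NumQ.num, c7_2]) (by norm_num [NumQ.num, c7_2])

theorem line8_1 {b : ℕ} {κ : ℝ} (hb : 8 ≤ b) (h1 : 139 / 100 ≤ κ) : LineN κ (hh b) 1 c8_1.num :=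
  LineN_of (ld8_1 h1 (hpos (b₀ := 8) (by norm_num) hb) (by simpa using hle (b₀ := 8) (by norm_num) hb))
    (by norm_num [NumQ.num, c8_1]) (by norm_num [NumQ.num, c8_1]) (by norm_num [NumQ.num, c8_1])
    (by norm_num [NumQ.num, c8_1]) (by norm_num [NumQ.num, c8_1]) (by norm_num [NumQ.num, c8_1])
    (by norm_num [NumQ.num, c8_1]) (by norm_num [NumQ.num, c8_1])

theorem line8_2 {b : ℕ} {κ : ℝ} (hb : 8 ≤ b) (h1 : 433 / 250 ≤ κ) : LineN κ (hh b) 1 c8_2.num :=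
  LineN_of (ld8_2 h1 (hpos (b₀ := 8) (by norm_num) hb) (by simpa using hle (b₀ := 8) (by norm_num) hb))
    (by norm_num [NumQ.num, c8_2]) (by norm_num [NumQ.num, c8_2]) (by norm_num [NumQ.num, c8_2])
    (by norm_num [NumQ.num, c8_2]) (by norm_num [NumQ.num, c8_2]) (by norm_num [NumQ.num, c8_2])
    (by norm_num [NumQ.num, c8_2]) (by norm_num [NumQ.num, c8_2])

end R2

end Sok
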