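import Pool.Agent.Lib.MP_816dec_an.R2N5
import Pool.Agent.Lib.MP_816dec_an.R2Cls

/-!
MP_816dec_an (rows N1, R2): `NearH` for the classes near1_3, near1_4 (helper40; split by helper24).
-/

set_option autoImplicit false

open Complex Set Filter Topology

namespace Sok.R2

open Sok.Mid Sok.N1

theorem near1_3 {b : ℕ} {β r : ℝ} (hb : b = 1) (hβ : 0 < β) (hr : 10 ≤ r) (hT : c1_3.num.T0 ≤ TT b β r)
    (h1 : (69 / 10 : ℝ) ≤ β * r) (h2 : β * r ≤ 77 / 10) : NearH b β r (-1) 3 c1_3.num := by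
  subst hb
  have hb1 : (1 : ℕ) ≤ 1 := by norm_num
  have hT1 : (5.441 : ℝ) ≤ TT 1 β r := le_trans (by norm_num [c1_3, NumQ.num]) hT
  have hr0 : 0 < r := by linarith
  replace h1 : 6.9 ≤ β * r := by norm_num at h1 ⊢; linarith
  replace h2 : β * r ≤ 7.7 := by norm_num at h2 ⊢; linarith
  have hrc : 0.1378 * (1 + (β * r) ^ 2) ≤ r := by
    have h := rc_of hb1 hT1
    norm_num at h ⊢
    linarith
  have hl : 6.28299 ≤ hh 1 := by
    have h := (hh_bds hb1).1
    norm_num at h ⊢
    linarith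
  have hu : hh 1 ≤ 6.2832 := by
    have h := (hh_bds hb1).2
    norm_num at h ⊢
    linarith
  have e_u0 : c1_3.num.u0 = 21 / 20 := by norm_num [c1_3, NumQ.num]
  have e_c0 : c1_3.num.c0 = 0.734 := by norm_num [c1_3, NumQ.num]
  have e_l1 : c1_3.num.l1 = 1 - 0.2 := by norm_num [c1_3, NumQ.num]
  have e_c1 : c1_3.num.c1 = 1.779 := by norm_num [c1_3, NumQ.num]
  have e_qL : c1_3.num.qL = -0.59 := by norm_num [c1_3, NumQ.num]
  have e_qR : c1_3.num.qR = -0.355 := by norm_num [c1_3, NumQ.num]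
  have e_z4 : c1_3.num.z4 = -0.32 := by norm_num [c1_3, NumQ.num]
  refine ⟨?_, ?_, ?_, ?_⟩
  · rw [e_qL, e_u0]
    refine f_hi0 (h0 := 6.28299) (h1 := 6.2832) (δq := 3.7069) hb1 hβ hr (by norm_num) (by norm_num) (by linarith) hl hu (by norm_num) (by norm_num)
      (by norm_num) (by linarith) ?_ rfl
    exact Or.inr ⟨by norm_num, alt2 (k1 := 6.9) (k2 := 7.7) (by linarith) h2 (by norm_num) (by norm_num)⟩
  · rw [e_qL, e_c0]
    refine f_lo0 (h1 := 6.2832) (δ := 3.707088) hb1 hr (by norm_num) (by norm_num) hu (by norm_num) (by norm_num) ?_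
    intro t ht ht'
    exact left_lo_big (ka := 6.9) (r0 := 10) (δ := 3.707088) (e0 := 0.06711) hβ hr hr (by norm_num) h1 ht ht' (by
      norm_num) (by norm_num) (by norm_num) (by norm_num) (by norm_num) (by norm_num) (by norm_num)
  · rw [e_qR, e_l1]
    refine f_lo1 (h1 := 6.2832) (τ := 4.2726) hb1 hr (by norm_num) (by norm_num) hu (by norm_num) (by norm_num) ?_
    intro t ht ht'
    have hv := rv1f hβ hr hrc (by linarith) ht (by linarith)
    exact right_lo hβ hr0 (by linarith) ht (by linarith [Real.pi_gt_d2]) hv (by norm_num)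
      (ylo_big hβ hr0 (by linarith) ht (by linarith [Real.pi_gt_d2]))
  · rw [e_qR, e_z4, e_c1]
    refine f_hi1 (h1 := 6.2832) (τ := 4.2726) hb1 hr (by norm_num) (by norm_num) hu (by norm_num) (by norm_num) (by norm_num) ?_
    intro t ht ht'
    have htt : t < Real.pi / 2 := by linarith [Real.pi_gt_d2]
    have hv := rv1f hβ hr hrc (by linarith) ht (by linarith)
    exact right_hi_M4N (ka := 6.9) (kb := 7.7) (τ := 4.2726) (Y := 0.8278) (E1 := 0.43701) (E2 := 2.288278) (E2' :=
      2.288279) (E3 := 0.190977) hβ hr0 ht h1 h2 ht' hv (exp_neg_le_of 9 (by norm_num) (by norm_num) (by norm_num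
      [Finset.sum_range_succ, Nat.factorial])) (exp_ge_of 9 (by norm_num) (by norm_num [Finset.sum_range_succ,
      Nat.factorial])) (exp_le_of 8 (by norm_num) (by norm_num) (by norm_num) (by norm_num [Finset.sum_range_succ,
      Nat.factorial])) (by norm_num) (by norm_num) (by norm_num) (by norm_num) (by norm_num) (by norm_num) (by
      norm_num) (by norm_num) (by norm_num) (by norm_num) (by norm_num)

theorem near1_4 {b : ℕ} {β r : ℝ} (hb : b = 1) (hβ : 0 < β) (hr : 10 ≤ r) (hT : c1_4.num.T0 ≤ TT b β r)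
    (h1 : (77 / 10 : ℝ) ≤ β * r) (h2 : β * r ≤ 41 / 5) : NearH b β r (-1) 3 c1_4.num := by
  subst hb
  have hb1 : (1 : ℕ) ≤ 1 := by norm_num
  have hT1 : (5.441 : ℝ) ≤ TT 1 β r := le_trans (by norm_num [c1_4, NumQ.num]) hT
  have hr0 : 0 < r := by linarith
  replace h1 : 7.7 ≤ β * r := by norm_num at h1 ⊢; linarith
  replace h2 : β * r ≤ 8.2 := by norm_num at h2 ⊢; linarith
  have hrc : 0.1378 * (1 + (β * r) ^ 2) ≤ r := by
    have h := rc_of hb1 hT1
    norm_num at h ⊢
    linarith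
  have hl : 6.28299 ≤ hh 1 := by
    have h := (hh_bds hb1).1
    norm_num at h ⊢
    linarith
  have hu : hh 1 ≤ 6.2832 := by
    have h := (hh_bds hb1).2
    norm_num at h ⊢
    linarith
  have e_u0 : c1_4.num.u0 = 21 / 20 := by norm_num [c1_4, NumQ.num]
  have e_c0 : c1_4.num.c0 = 0.751 := by norm_num [c1_4, NumQ.num]
  have e_l1 : c1_4.num.l1 = 1 - 0.2 := by norm_num [c1_4, NumQ.num]
  have e_c1 : c1_4.num.c1 = 1.709 := by norm_num [c1_4, NumQ.num]
  have e_qL : c1_4.num.qL = -0.595 := by norm_num [c1_4, NumQ.num]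
  have e_qR : c1_4.num.qR = -0.34 := by norm_num [c1_4, NumQ.num]
  have e_z4 : c1_4.num.z4 = -0.32 := by norm_num [c1_4, NumQ.num]
  refine ⟨?_, ?_, ?_, ?_⟩
  · rw [e_qL, e_u0]
    refine f_hi0 (h0 := 6.28299) (h1 := 6.2832) (δq := 3.7383) hb1 hβ hr (by norm_num) (by norm_num) (by linarith) hl hu (by norm_num) (by norm_num)
      (by norm_num) (by linarith) ?_ rfl
    exact Or.inr ⟨by norm_num, alt2 (k1 := 7.7) (k2 := 8.2) (by linarith) h2 (by norm_num) (by norm_num)⟩
  · rw [e_qL, e_c0]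
    refine f_lo0 (h1 := 6.2832) (δ := 3.738504) hb1 hr (by norm_num) (by norm_num) hu (by norm_num) (by norm_num) ?_
    intro t ht ht'
    exact left_lo_big (ka := 7.7) (r0 := 10) (δ := 3.738504) (e0 := 0.06711) hβ hr hr (by norm_num) h1 ht ht' (by
      norm_num) (by norm_num) (by norm_num) (by norm_num) (by norm_num) (by norm_num) (by norm_num)
  · rw [e_qR, e_l1]
    refine f_lo1 (h1 := 6.2832) (τ := 4.2726) hb1 hr (by norm_num) (by norm_num) hu (by norm_num) (by norm_num) ?_
    intro t ht ht'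
    have hv := rv1f hβ hr hrc (by linarith) ht (by linarith)
    exact right_lo hβ hr0 (by linarith) ht (by linarith [Real.pi_gt_d2]) hv (by norm_num)
      (ylo_big hβ hr0 (by linarith) ht (by linarith [Real.pi_gt_d2]))
  · rw [e_qR, e_z4, e_c1]
    refine f_hi1 (h1 := 6.2832) (τ := 4.2726) hb1 hr (by norm_num) (by norm_num) hu (by norm_num) (by norm_num) (by norm_num) ?_
    intro t ht ht'
    have htt : t < Real.pi / 2 := by linarith [Real.pi_gt_d2]
    have hv := rv1f hβ hr hrc (by linarith) ht (by linarith)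
    exact right_hi_M4N (ka := 7.7) (kb := 8.2) (τ := 4.2726) (Y := 0.7334) (E1 := 0.480274) (E2 := 2.082147) (E2'
      := 2.082148) (E3 := 0.230662) hβ hr0 ht h1 h2 ht' hv (exp_neg_le_of 8 (by norm_num) (by norm_num) (by
      norm_num [Finset.sum_range_succ, Nat.factorial])) (exp_ge_of 9 (by norm_num) (by norm_num
      [Finset.sum_range_succ, Nat.factorial])) (exp_le_of 7 (by norm_num) (by norm_num) (by norm_num) (by norm_num
      [Finset.sum_range_succ, Nat.factorial])) (by norm_num) (by norm_num) (by norm_num) (by norm_num) (by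
      norm_num) (by norm_num) (by norm_num) (by norm_num) (by norm_num) (by norm_num) (by norm_num)

end Sok.R2
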