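import Pool.Agent.Lib.MP_816dec_an.R2N5
import Pool.Agent.Lib.MP_816dec_an.R2Cls

/-!
MP_816dec_an (rows N1, R2): `NearH` for the classes near2_3, near2_4 (helper40; split by helper24).
-/

set_option autoImplicit false

open Complex Set Filter Topology

namespace Sok.R2

open Sok.Mid Sok.N1

theorem near2_3 {b : ℕ} {β r : ℝ} (hb : b = 2) (hβ : 0 < β) (hr : 10 ≤ r) (hT : c2_3.num.T0 ≤ TT b β r)
    (h1 : (39 / 10 : ℝ) ≤ β * r) (h2 : β * r ≤ 21 / 5) : NearH b β r (-2 * (b : ℤ) + 2) 2 c2_3.num := by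
  subst hb
  have hb1 : (1 : ℕ) ≤ 2 := by norm_num
  have hT1 : (5.441 : ℝ) ≤ TT 2 β r := le_trans (by norm_num [c2_3, NumQ.num]) hT
  have hr0 : 0 < r := by linarith
  replace h1 : 3.9 ≤ β * r := by norm_num at h1 ⊢; linarith
  replace h2 : β * r ≤ 4.2 := by norm_num at h2 ⊢; linarith
  have hrc : 0.5512 * (1 + (β * r) ^ 2) ≤ r := by
    have h := rc_of hb1 hT1
    norm_num at h ⊢
    linarith
  have hl : 3.14149 ≤ hh 2 := by
    have h := (hh_bds hb1).1
    norm_num at h ⊢
    linarith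
  have hu : hh 2 ≤ 3.1416 := by
    have h := (hh_bds hb1).2
    norm_num at h ⊢
    linarith
  have e_u0 : c2_3.num.u0 = 21 / 20 := by norm_num [c2_3, NumQ.num]
  have e_c0 : c2_3.num.c0 = 0.774 := by norm_num [c2_3, NumQ.num]
  have e_l1 : c2_3.num.l1 = 1 - 0.1 := by norm_num [c2_3, NumQ.num]
  have e_c1 : c2_3.num.c1 = 1.418 := by norm_num [c2_3, NumQ.num]
  have e_qL : c2_3.num.qL = -0.58 := by norm_num [c2_3, NumQ.num]
  have e_qR : c2_3.num.qR = -0.37 := by norm_num [c2_3, NumQ.num]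
  have e_z4 : c2_3.num.z4 = -0.32 := by norm_num [c2_3, NumQ.num]
  refine ⟨?_, ?_, ?_, ?_⟩
  · rw [e_qL, e_u0]
    refine f_hi0 (h0 := 3.14149) (h1 := 3.1416) (δq := 1.822) hb1 hβ hr (by norm_num) (by norm_num) (by linarith) hl hu (by norm_num) (by norm_num)
      (by norm_num) (by linarith) ?_ rfl
    exact Or.inr ⟨by norm_num, alt2 (k1 := 3.9) (k2 := 4.2) (by linarith) h2 (by norm_num) (by norm_num)⟩
  · rw [e_qL, e_c0]
    refine f_lo0 (h1 := 3.1416) (δ := 1.822128) hb1 hr (by norm_num) (by norm_num) hu (by norm_num) (by norm_num) ?_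
    intro t ht ht'
    exact left_lo_big (ka := 3.9) (r0 := 10) (δ := 1.822128) (e0 := 0.06711) hβ hr hr (by norm_num) h1 ht ht' (by
      norm_num) (by norm_num) (by norm_num) (by norm_num) (by norm_num) (by norm_num) (by norm_num)
  · rw [e_qR, e_l1]
    refine f_lo1 (h1 := 3.1416) (τ := 2.1363) hb1 hr (by norm_num) (by norm_num) hu (by norm_num) (by norm_num) ?_
    intro t ht ht'
    have hv := rv2 hβ hr hrc (by linarith) ht (by linarith)
    exact right_lo hβ hr0 (by linarith) ht (by linarith [Real.pi_gt_d2]) hv (by norm_num)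
      (ylo_big hβ hr0 (by linarith) ht (by linarith [Real.pi_gt_d2]))
  · rw [e_qR, e_z4, e_c1]
    refine f_hi1 (h1 := 3.1416) (τ := 2.1363) hb1 hr (by norm_num) (by norm_num) hu (by norm_num) (by norm_num) (by norm_num) ?_
    intro t ht ht'
    have htt : t < Real.pi / 2 := by linarith [Real.pi_gt_d2]
    have hv := rv2 hβ hr hrc (by linarith) ht (by linarith)
    exact right_hi_M4N (ka := 3.9) (kb := 4.2) (τ := 2.1363) (Y := 0.6038) (E1 := 0.546731) (E2 := 1.829056) (E2'
      := 1.829057) (E3 := 0.298913) hβ hr0 ht h1 h2 ht' hv (exp_neg_le_of 8 (by norm_num) (by norm_num) (by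
      norm_num [Finset.sum_range_succ, Nat.factorial])) (exp_ge_of 10 (by norm_num) (by norm_num
      [Finset.sum_range_succ, Nat.factorial])) (exp_le_of 6 (by norm_num) (by norm_num) (by norm_num) (by norm_num
      [Finset.sum_range_succ, Nat.factorial])) (by norm_num) (by norm_num) (by norm_num) (by norm_num) (by
      norm_num) (by norm_num) (by norm_num) (by norm_num) (by norm_num) (by norm_num) (by norm_num)

theorem near2_4 {b : ℕ} {β r : ℝ} (hb : b = 2) (hβ : 0 < β) (hr : 10 ≤ r) (hT : c2_4.num.T0 ≤ TT b β r)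
    (h1 : (21 / 5 : ℝ) ≤ β * r) (h2 : β * r ≤ 20) : NearH b β r (-2 * (b : ℤ) + 2) 2 c2_4.num := by
  subst hb
  have hb1 : (1 : ℕ) ≤ 2 := by norm_num
  have hT1 : (5.441 : ℝ) ≤ TT 2 β r := le_trans (by norm_num [c2_4, NumQ.num]) hT
  have hr0 : 0 < r := by linarith
  replace h1 : 4.2 ≤ β * r := by norm_num at h1 ⊢; linarith
  replace h2 : β * r ≤ 20 := by norm_num at h2 ⊢; linarith
  have hrc : 0.5512 * (1 + (β * r) ^ 2) ≤ r := by
    have h := rc_of hb1 hT1
    norm_num at h ⊢
    linarith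
  have hl : 3.14149 ≤ hh 2 := by
    have h := (hh_bds hb1).1
    norm_num at h ⊢
    linarith
  have hu : hh 2 ≤ 3.1416 := by
    have h := (hh_bds hb1).2
    norm_num at h ⊢
    linarith
  have e_u0 : c2_4.num.u0 = 21 / 20 := by norm_num [c2_4, NumQ.num]
  have e_c0 : c2_4.num.c0 = 0.784 := by norm_num [c2_4, NumQ.num]
  have e_l1 : c2_4.num.l1 = 1 - 0.1 := by norm_num [c2_4, NumQ.num]
  have e_c1 : c2_4.num.c1 = 1.409 := by norm_num [c2_4, NumQ.num]
  have e_qL : c2_4.num.qL = -0.575 := by norm_num [c2_4, NumQ.num]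
  have e_qR : c2_4.num.qR = -0.375 := by norm_num [c2_4, NumQ.num]
  have e_z4 : c2_4.num.z4 = -0.32 := by norm_num [c2_4, NumQ.num]
  refine ⟨?_, ?_, ?_, ?_⟩
  · rw [e_qL, e_u0]
    refine f_hi0 (h0 := 3.14149) (h1 := 3.1416) (δq := 1.8063) hb1 hβ hr (by norm_num) (by norm_num) (by linarith) hl hu (by norm_num) (by norm_num)
      (by norm_num) (by linarith) ?_ rfl
    exact Or.inr ⟨by norm_num, alt2 (k1 := 4.2) (k2 := 20) (by linarith) h2 (by norm_num) (by norm_num)⟩
  · rw [e_qL, e_c0]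
    refine f_lo0 (h1 := 3.1416) (δ := 1.80642) hb1 hr (by norm_num) (by norm_num) hu (by norm_num) (by norm_num) ?_
    intro t ht ht'
    exact left_lo_big (ka := 4.2) (r0 := 10.27) (δ := 1.80642) (e0 := 0.06534) hβ hr (r0_of hrc h1 (by norm_num)
      (by norm_num) (by norm_num)) (by norm_num) h1 ht ht' (by norm_num) (by norm_num) (by norm_num) (by norm_num)
      (by norm_num) (by norm_num) (by norm_num)
  · rw [e_qR, e_l1]
    refine f_lo1 (h1 := 3.1416) (τ := 2.1363) hb1 hr (by norm_num) (by norm_num) hu (by norm_num) (by norm_num) ?_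
    intro t ht ht'
    have hv := rv2 hβ hr hrc (by linarith) ht (by linarith)
    exact right_lo hβ hr0 (by linarith) ht (by linarith [Real.pi_gt_d2]) hv (by norm_num)
      (ylo_big hβ hr0 (by linarith) ht (by linarith [Real.pi_gt_d2]))
  · rw [e_qR, e_z4, e_c1]
    refine f_hi1 (h1 := 3.1416) (τ := 2.1363) hb1 hr (by norm_num) (by norm_num) hu (by norm_num) (by norm_num) (by norm_num) ?_
    intro t ht ht'
    have htt : t < Real.pi / 2 := by linarith [Real.pi_gt_d2]
    have hv := rv2 hβ hr hrc (by linarith) ht (by linarith)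
    rcases le_total (β * r) 5.22 with c0 | c0
    · exact right_hi_M4N (ka := 4.2) (kb := 5.22) (τ := 2.1363) (Y := 0.571) (E1 := 0.564961) (E2 := 1.770036) (E2'
        := 1.770037) (E3 := 0.319179) hβ hr0 ht h1 c0 ht' hv (exp_neg_le_of 8 (by norm_num) (by norm_num) (by
        norm_num [Finset.sum_range_succ, Nat.factorial])) (exp_ge_of 9 (by norm_num) (by norm_num
        [Finset.sum_range_succ, Nat.factorial])) (exp_le_of 6 (by norm_num) (by norm_num) (by norm_num) (by
        norm_num [Finset.sum_range_succ, Nat.factorial])) (by norm_num) (by norm_num) (by norm_num) (by norm_num)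
        (by norm_num) (by norm_num) (by norm_num) (by norm_num) (by norm_num) (by norm_num) (by norm_num)
    exact right_hi_M3 (ka := 5.22) (τ := 2.1363) hβ hr0 ht htt (by norm_num) c0 ht' (by norm_num) (by norm_num) hv
      (by norm_num) (by norm_num) (by norm_num)

end Sok.R2
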