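import Pool.Agent.Lib.MP_816dec_an.R2N5
import Pool.Agent.Lib.MP_816dec_an.R2Cls

/-!
MP_816dec_an (rows N1, R2): `NearH` for the classes near3_1, near3_2 (helper40; split by helper24).
-/

set_option autoImplicit false

open Complex Set Filter Topology

namespace Sok.R2

open Sok.Mid Sok.N1

theorem near3_1 {b : ℕ} {β r : ℝ} (hb : b = 3) (hβ : 0 < β) (hr : 10 ≤ r) (hT : c3_1.num.T0 ≤ TT b β r)
    (h1 : (139 / 100 : ℝ) ≤ β * r) (h2 : β * r ≤ 8 / 5) : NearH b β r (-2 * (b : ℤ) + 2) 2 c3_1.num := by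
  subst hb
  have hb1 : (1 : ℕ) ≤ 3 := by norm_num
  have hT1 : (5.441 : ℝ) ≤ TT 3 β r := le_trans (by norm_num [c3_1, NumQ.num]) hT
  have hr0 : 0 < r := by linarith
  replace h1 : 1.39 ≤ β * r := by norm_num at h1 ⊢; linarith
  replace h2 : β * r ≤ 1.6 := by norm_num at h2 ⊢; linarith
  have hrc : 1.2402 * (1 + (β * r) ^ 2) ≤ r := by
    have h := rc_of hb1 hT1
    norm_num at h ⊢
    linarith
  have hl : 2.09433 ≤ hh 3 := by
    have h := (hh_bds hb1).1
    norm_num at h ⊢
    linarith
  have hu : hh 3 ≤ 2.0944 := by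
    have h := (hh_bds hb1).2
    norm_num at h ⊢
    linarith
  have e_u0 : c3_1.num.u0 = 21 / 20 := by norm_num [c3_1, NumQ.num]
  have e_c0 : c3_1.num.c0 = 0.793 := by norm_num [c3_1, NumQ.num]
  have e_l1 : c3_1.num.l1 = 1 - 0.1 := by norm_num [c3_1, NumQ.num]
  have e_c1 : c3_1.num.c1 = 1.154 := by norm_num [c3_1, NumQ.num]
  have e_qL : c3_1.num.qL = -0.545 := by norm_num [c3_1, NumQ.num]
  have e_qR : c3_1.num.qR = -0.435 := by norm_num [c3_1, NumQ.num]
  have e_z4 : c3_1.num.z4 = -0.32 := by norm_num [c3_1, NumQ.num]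
  refine ⟨?_, ?_, ?_, ?_⟩
  · rw [e_qL, e_u0]
    refine f_hi0 (h0 := 2.09433) (h1 := 2.0944) (δq := 1.1414) hb1 hβ hr (by norm_num) (by norm_num) (by linarith) hl hu (by norm_num) (by norm_num)
      (by norm_num) (by linarith) ?_ rfl
    exact Or.inr ⟨by norm_num, alt2 (k1 := 1.39) (k2 := 1.6) (by linarith) h2 (by norm_num) (by norm_num)⟩
  · rw [e_qL, e_c0]
    refine f_lo0 (h1 := 2.0944) (δ := 1.141448) hb1 hr (by norm_num) (by norm_num) hu (by norm_num) (by norm_num) ?_
    intro t ht ht'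
    exact left_loN (ka := 1.39) (kb := 1.6) (r0 := 10) (δ := 1.141448) (S := 0.5327) (X := 1.65985) (σ := 0.3127)
      (s' := 0.33) (X' := 1.3705) (EL := 2.90199) (E1 := 1.70353) (ES := 2.902) (EL' := 1.93479) (Es' := 1.9348)
      (e0 := 0.06711) (e1 := 0.04897) hβ hr hr h1 h2 ht ht' (exp_ge_of 9 (by norm_num) (by norm_num
      [Finset.sum_range_succ, Nat.factorial])) (exp_le_of 8 (by norm_num) (by norm_num) (by norm_num) (by norm_num
      [Finset.sum_range_succ, Nat.factorial])) (exp_le_of 6 (by norm_num) (by norm_num) (by norm_num) (by norm_num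
      [Finset.sum_range_succ, Nat.factorial])) (exp_ge_of 8 (by norm_num) (by norm_num [Finset.sum_range_succ,
      Nat.factorial])) (exp_le_of 6 (by norm_num) (by norm_num) (by norm_num) (by norm_num [Finset.sum_range_succ,
      Nat.factorial])) (by norm_num) (by norm_num) (by norm_num) (by norm_num) (by norm_num) (by norm_num) (by
      norm_num) (by norm_num) (by norm_num) (by norm_num) (by norm_num) (by norm_num) (by norm_num) (by norm_num)
      (by norm_num) (by norm_num) (by norm_num) (by norm_num) (by norm_num) (by norm_num) (by norm_num) (by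
      norm_num)
  · rw [e_qR, e_l1]
    refine f_lo1 (h1 := 2.0944) (τ := 1.4242) hb1 hr (by norm_num) (by norm_num) hu (by norm_num) (by norm_num) ?_
    intro t ht ht'
    have hv := rv3 hβ hr hrc (by linarith) ht (by linarith)
    exact right_lo hβ hr0 (by linarith) ht (by linarith [Real.pi_gt_d2]) hv (by norm_num)
      (ylo_b3 hβ hr0 (by linarith) ht (by linarith))
  · rw [e_qR, e_z4, e_c1]
    refine f_hi1 (h1 := 2.0944) (τ := 1.4242) hb1 hr (by norm_num) (by norm_num) hu (by norm_num) (by norm_num) (by norm_num) ?_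
    intro t ht ht'
    have htt : t < Real.pi / 2 := by linarith [Real.pi_gt_d2]
    have hv := rv3 hβ hr hrc (by linarith) ht (by linarith)
    exact right_hi_M1N (ka := 1.39) (kb := 1.6) (L := 0.47) hβ hr0 htt h1 h2 hv (exp_le_of 5 (by norm_num) (by
      norm_num) (by norm_num) (by norm_num [Finset.sum_range_succ, Nat.factorial])) (by norm_num) (by norm_num) (by
      norm_num) (by norm_num)

theorem near3_2 {b : ℕ} {β r : ℝ} (hb : b = 3) (hβ : 0 < β) (hr : 10 ≤ r) (hT : c3_2.num.T0 ≤ TT b β r)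
    (h1 : (8 / 5 : ℝ) ≤ β * r) (h2 : β * r ≤ 19 / 10) : NearH b β r (-2 * (b : ℤ) + 2) 2 c3_2.num := by
  subst hb
  have hb1 : (1 : ℕ) ≤ 3 := by norm_num
  have hT1 : (5.441 : ℝ) ≤ TT 3 β r := le_trans (by norm_num [c3_2, NumQ.num]) hT
  have hr0 : 0 < r := by linarith
  replace h1 : 1.6 ≤ β * r := by norm_num at h1 ⊢; linarith
  replace h2 : β * r ≤ 1.9 := by norm_num at h2 ⊢; linarith
  have hrc : 1.2402 * (1 + (β * r) ^ 2) ≤ r := by
    have h := rc_of hb1 hT1
    norm_num at h ⊢
    linarith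
  have hl : 2.09433 ≤ hh 3 := by
    have h := (hh_bds hb1).1
    norm_num at h ⊢
    linarith
  have hu : hh 3 ≤ 2.0944 := by
    have h := (hh_bds hb1).2
    norm_num at h ⊢
    linarith
  have e_u0 : c3_2.num.u0 = 21 / 20 := by norm_num [c3_2, NumQ.num]
  have e_c0 : c3_2.num.c0 = 0.789 := by norm_num [c3_2, NumQ.num]
  have e_l1 : c3_2.num.l1 = 1 - 0.1 := by norm_num [c3_2, NumQ.num]
  have e_c1 : c3_2.num.c1 = 1.197 := by norm_num [c3_2, NumQ.num]
  have e_qL : c3_2.num.qL = -0.55 := by norm_num [c3_2, NumQ.num]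
  have e_qR : c3_2.num.qR = -0.43 := by norm_num [c3_2, NumQ.num]
  have e_z4 : c3_2.num.z4 = -0.32 := by norm_num [c3_2, NumQ.num]
  refine ⟨?_, ?_, ?_, ?_⟩
  · rw [e_qL, e_u0]
    refine f_hi0 (h0 := 2.09433) (h1 := 2.0944) (δq := 1.1518) hb1 hβ hr (by norm_num) (by norm_num) (by linarith) hl hu (by norm_num) (by norm_num)
      (by norm_num) (by linarith) ?_ rfl
    exact Or.inr ⟨by norm_num, alt2 (k1 := 1.6) (k2 := 1.9) (by linarith) h2 (by norm_num) (by norm_num)⟩
  · rw [e_qL, e_c0]
    refine f_lo0 (h1 := 2.0944) (δ := 1.15192) hb1 hr (by norm_num) (by norm_num) hu (by norm_num) (by norm_num) ?_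
    intro t ht ht'
    exact left_loN (ka := 1.6) (kb := 1.9) (r0 := 10) (δ := 1.15192) (S := 0.49) (X := 1.60332) (σ := 0.30018) (s'
      := 0.28) (X' := 1.3115) (EL := 2.66445) (E1 := 1.63232) (ES := 2.66446) (EL' := 1.75067) (Es' := 1.75068) (e0
      := 0.06711) (e1 := 0.05117) hβ hr hr h1 h2 ht ht' (exp_ge_of 9 (by norm_num) (by norm_num
      [Finset.sum_range_succ, Nat.factorial])) (exp_le_of 7 (by norm_num) (by norm_num) (by norm_num) (by norm_num
      [Finset.sum_range_succ, Nat.factorial])) (exp_le_of 5 (by norm_num) (by norm_num) (by norm_num) (by norm_num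
      [Finset.sum_range_succ, Nat.factorial])) (exp_ge_of 8 (by norm_num) (by norm_num [Finset.sum_range_succ,
      Nat.factorial])) (exp_le_of 5 (by norm_num) (by norm_num) (by norm_num) (by norm_num [Finset.sum_range_succ,
      Nat.factorial])) (by norm_num) (by norm_num) (by norm_num) (by norm_num) (by norm_num) (by norm_num) (by
      norm_num) (by norm_num) (by norm_num) (by norm_num) (by norm_num) (by norm_num) (by norm_num) (by norm_num)
      (by norm_num) (by norm_num) (by norm_num) (by norm_num) (by norm_num) (by norm_num) (by norm_num) (by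
      norm_num)
  · rw [e_qR, e_l1]
    refine f_lo1 (h1 := 2.0944) (τ := 1.4242) hb1 hr (by norm_num) (by norm_num) hu (by norm_num) (by norm_num) ?_
    intro t ht ht'
    have hv := rv3 hβ hr hrc (by linarith) ht (by linarith)
    exact right_lo hβ hr0 (by linarith) ht (by linarith [Real.pi_gt_d2]) hv (by norm_num)
      (ylo_b3 hβ hr0 (by linarith) ht (by linarith))
  · rw [e_qR, e_z4, e_c1]
    refine f_hi1 (h1 := 2.0944) (τ := 1.4242) hb1 hr (by norm_num) (by norm_num) hu (by norm_num) (by norm_num) (by norm_num) ?_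
    intro t ht ht'
    have htt : t < Real.pi / 2 := by linarith [Real.pi_gt_d2]
    have hv := rv3 hβ hr hrc (by linarith) ht (by linarith)
    rcases le_total (β * r) 1.89 with c0 | c0
    · exact right_hi_M1N (ka := 1.6) (kb := 1.89) (L := 0.63657) hβ hr0 htt h1 c0 hv (exp_le_of 5 (by norm_num) (by
        norm_num) (by norm_num) (by norm_num [Finset.sum_range_succ, Nat.factorial])) (by norm_num) (by norm_num)
        (by norm_num) (by norm_num)
    exact right_hi_M4N (ka := 1.89) (kb := 1.9) (τ := 1.4242) (Y := 0.5442) (E1 := 0.580306) (E2 := 1.723229) (E2'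
      := 1.72323) (E3 := 0.336754) hβ hr0 ht c0 h2 ht' hv (exp_neg_le_of 8 (by norm_num) (by norm_num) (by norm_num
      [Finset.sum_range_succ, Nat.factorial])) (exp_ge_of 8 (by norm_num) (by norm_num [Finset.sum_range_succ,
      Nat.factorial])) (exp_le_of 6 (by norm_num) (by norm_num) (by norm_num) (by norm_num [Finset.sum_range_succ,
      Nat.factorial])) (by norm_num) (by norm_num) (by norm_num) (by norm_num) (by norm_num) (by norm_num) (by
      norm_num) (by norm_num) (by norm_num) (by norm_num) (by norm_num)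

end Sok.R2
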