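import Pool.Agent.Lib.MP_816dec_an.R2N5
import Pool.Agent.Lib.MP_816dec_an.R2Cls

/-!
MP_816dec_an (rows N1, R2): `NearH` for the classes near3_3, near3_4 (helper40; split by helper24).
-/

set_option autoImplicit false

open Complex Set Filter Topology

namespace Sok.R2

open Sok.Mid Sok.N1

theorem near3_3 {b : ℕ} {β r : ℝ} (hb : b = 3) (hβ : 0 < β) (hr : 10 ≤ r) (hT : c3_3.num.T0 ≤ TT b β r)
    (h1 : (19 / 10 : ℝ) ≤ β * r) (h2 : β * r ≤ 21 / 10) : NearH b β r (-2 * (b : ℤ) + 2) 2 c3_3.num := by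
  subst hb
  have hb1 : (1 : ℕ) ≤ 3 := by norm_num
  have hT1 : (5.441 : ℝ) ≤ TT 3 β r := le_trans (by norm_num [c3_3, NumQ.num]) hT
  have hr0 : 0 < r := by linarith
  replace h1 : 1.9 ≤ β * r := by norm_num at h1 ⊢; linarith
  replace h2 : β * r ≤ 2.1 := by norm_num at h2 ⊢; linarith
  have hrc : 1.2402 * (1 + (β * r) ^ 2) ≤ r := by
    have h := rc_of hb1 hT1
    norm_num at h ⊢
    linarith
  have hl : 2.09433 ≤ hh 3 := by
    have h := (hh_bds hb1).1
    norm_num at h ⊢
    linarith
  have hu : hh 3 ≤ 2.0944 := by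
    have h := (hh_bds hb1).2
    norm_num at h ⊢
    linarith
  have e_u0 : c3_3.num.u0 = 21 / 20 := by norm_num [c3_3, NumQ.num]
  have e_c0 : c3_3.num.c0 = 0.793 := by norm_num [c3_3, NumQ.num]
  have e_l1 : c3_3.num.l1 = 1 - 0.1 := by norm_num [c3_3, NumQ.num]
  have e_c1 : c3_3.num.c1 = 1.222 := by norm_num [c3_3, NumQ.num]
  have e_qL : c3_3.num.qL = -0.555 := by norm_num [c3_3, NumQ.num]
  have e_qR : c3_3.num.qR = -0.43 := by norm_num [c3_3, NumQ.num]
  have e_z4 : c3_3.num.z4 = -0.32 := by norm_num [c3_3, NumQ.num]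
  refine ⟨?_, ?_, ?_, ?_⟩
  · rw [e_qL, e_u0]
    refine f_hi0 (h0 := 2.09433) (h1 := 2.0944) (δq := 1.1623) hb1 hβ hr (by norm_num) (by norm_num) (by linarith) hl hu (by norm_num) (by norm_num)
      (by norm_num) (by linarith) ?_ rfl
    exact Or.inr ⟨by norm_num, alt2 (k1 := 1.9) (k2 := 2.1) (by linarith) h2 (by norm_num) (by norm_num)⟩
  · rw [e_qL, e_c0]
    refine f_lo0 (h1 := 2.0944) (δ := 1.162392) hb1 hr (by norm_num) (by norm_num) hu (by norm_num) (by norm_num) ?_
    intro t ht ht'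
    exact left_loN (ka := 1.9) (kb := 2.1) (r0 := 10) (δ := 1.162392) (S := 0.4391) (X := 1.53399) (σ := 0.28304)
      (s' := 0.14) (X' := 1.1479) (EL := 2.40656) (E1 := 1.55132) (ES := 2.40657) (EL' := 1.32312) (Es' := 1.32313)
      (e0 := 0.06711) (e1 := 0.05846) hβ hr hr h1 h2 ht ht' (exp_ge_of 9 (by norm_num) (by norm_num
      [Finset.sum_range_succ, Nat.factorial])) (exp_le_of 6 (by norm_num) (by norm_num) (by norm_num) (by norm_num
      [Finset.sum_range_succ, Nat.factorial])) (exp_le_of 5 (by norm_num) (by norm_num) (by norm_num) (by norm_num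
      [Finset.sum_range_succ, Nat.factorial])) (exp_ge_of 6 (by norm_num) (by norm_num [Finset.sum_range_succ,
      Nat.factorial])) (exp_le_of 5 (by norm_num) (by norm_num) (by norm_num) (by norm_num [Finset.sum_range_succ,
      Nat.factorial])) (by norm_num) (by norm_num) (by norm_num) (by norm_num) (by norm_num) (by norm_num) (by
      norm_num) (by norm_num) (by norm_num) (by norm_num) (by norm_num) (by norm_num) (by norm_num) (by norm_num)
      (by norm_num) (by norm_num) (by norm_num) (by norm_num) (by norm_num) (by norm_num) (by norm_num) (by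
      norm_num)
  · rw [e_qR, e_l1]
    refine f_lo1 (h1 := 2.0944) (τ := 1.4242) hb1 hr (by norm_num) (by norm_num) hu (by norm_num) (by norm_num) ?_
    intro t ht ht'
    have hv := rv3 hβ hr hrc (by linarith) ht (by linarith)
    exact right_lo hβ hr0 (by linarith) ht (by linarith [Real.pi_gt_d2]) hv (by norm_num)
      (ylo_b3 hβ hr0 (by linarith) ht (by linarith))
  · rw [e_qR, e_z4, e_c1]
    refine f_hi1 (h1 := 2.0944) (τ := 1.4242) hb1 hr (by norm_num) (by norm_num) hu (by norm_num) (by norm_num) (by norm_num) ?_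
    intro t ht ht'
    have htt : t < Real.pi / 2 := by linarith [Real.pi_gt_d2]
    have hv := rv3 hβ hr hrc (by linarith) ht (by linarith)
    exact right_hi_M4N (ka := 1.9) (kb := 2.1) (τ := 1.4242) (Y := 0.5439) (E1 := 0.58048) (E2 := 1.722712) (E2' :=
      1.722713) (E3 := 0.336956) hβ hr0 ht h1 h2 ht' hv (exp_neg_le_of 9 (by norm_num) (by norm_num) (by norm_num
      [Finset.sum_range_succ, Nat.factorial])) (exp_ge_of 8 (by norm_num) (by norm_num [Finset.sum_range_succ,
      Nat.factorial])) (exp_le_of 6 (by norm_num) (by norm_num) (by norm_num) (by norm_num [Finset.sum_range_succ,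
      Nat.factorial])) (by norm_num) (by norm_num) (by norm_num) (by norm_num) (by norm_num) (by norm_num) (by
      norm_num) (by norm_num) (by norm_num) (by norm_num) (by norm_num)

theorem near3_4 {b : ℕ} {β r : ℝ} (hb : b = 3) (hβ : 0 < β) (hr : 10 ≤ r) (hT : c3_4.num.T0 ≤ TT b β r)
    (h1 : (21 / 10 : ℝ) ≤ β * r) (h2 : β * r ≤ 23 / 10) : NearH b β r (-2 * (b : ℤ) + 2) 2 c3_4.num := by
  subst hb
  have hb1 : (1 : ℕ) ≤ 3 := by norm_num
  have hT1 : (5.441 : ℝ) ≤ TT 3 β r := le_trans (by norm_num [c3_4, NumQ.num]) hT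
  have hr0 : 0 < r := by linarith
  replace h1 : 2.1 ≤ β * r := by norm_num at h1 ⊢; linarith
  replace h2 : β * r ≤ 2.3 := by norm_num at h2 ⊢; linarith
  have hrc : 1.2402 * (1 + (β * r) ^ 2) ≤ r := by
    have h := rc_of hb1 hT1
    norm_num at h ⊢
    linarith
  have hl : 2.09433 ≤ hh 3 := by
    have h := (hh_bds hb1).1
    norm_num at h ⊢
    linarith
  have hu : hh 3 ≤ 2.0944 := by
    have h := (hh_bds hb1).2
    norm_num at h ⊢
    linarith
  have e_u0 : c3_4.num.u0 = 21 / 20 := by norm_num [c3_4, NumQ.num]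
  have e_c0 : c3_4.num.c0 = 0.794 := by norm_num [c3_4, NumQ.num]
  have e_l1 : c3_4.num.l1 = 1 - 0.1 := by norm_num [c3_4, NumQ.num]
  have e_c1 : c3_4.num.c1 = 1.242 := by norm_num [c3_4, NumQ.num]
  have e_qL : c3_4.num.qL = -0.56 := by norm_num [c3_4, NumQ.num]
  have e_qR : c3_4.num.qR = -0.42 := by norm_num [c3_4, NumQ.num]
  have e_z4 : c3_4.num.z4 = -0.32 := by norm_num [c3_4, NumQ.num]
  refine ⟨?_, ?_, ?_, ?_⟩
  · rw [e_qL, e_u0]
    refine f_hi0 (h0 := 2.09433) (h1 := 2.0944) (δq := 1.1728) hb1 hβ hr (by norm_num) (by norm_num) (by linarith) hl hu (by norm_num) (by norm_num)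
      (by norm_num) (by linarith) ?_ rfl
    exact Or.inr ⟨by norm_num, alt2 (k1 := 2.1) (k2 := 2.3) (by linarith) h2 (by norm_num) (by norm_num)⟩
  · rw [e_qL, e_c0]
    refine f_lo0 (h1 := 2.0944) (δ := 1.172864) hb1 hr (by norm_num) (by norm_num) hu (by norm_num) (by norm_num) ?_
    intro t ht ht'
    exact left_loN (ka := 2.1) (kb := 2.3) (r0 := 10) (δ := 1.172864) (S := 0.4121) (X := 1.49717) (σ := 0.27291)
      (s' := 0.08) (X' := 1.0826) (EL := 2.28005) (E1 := 1.50999) (ES := 2.28006) (EL' := 1.17351) (Es' := 1.17352)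
      (e0 := 0.06711) (e1 := 0.06199) hβ hr hr h1 h2 ht ht' (exp_ge_of 8 (by norm_num) (by norm_num
      [Finset.sum_range_succ, Nat.factorial])) (exp_le_of 6 (by norm_num) (by norm_num) (by norm_num) (by norm_num
      [Finset.sum_range_succ, Nat.factorial])) (exp_le_of 5 (by norm_num) (by norm_num) (by norm_num) (by norm_num
      [Finset.sum_range_succ, Nat.factorial])) (exp_ge_of 6 (by norm_num) (by norm_num [Finset.sum_range_succ,
      Nat.factorial])) (exp_le_of 4 (by norm_num) (by norm_num) (by norm_num) (by norm_num [Finset.sum_range_succ,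
      Nat.factorial])) (by norm_num) (by norm_num) (by norm_num) (by norm_num) (by norm_num) (by norm_num) (by
      norm_num) (by norm_num) (by norm_num) (by norm_num) (by norm_num) (by norm_num) (by norm_num) (by norm_num)
      (by norm_num) (by norm_num) (by norm_num) (by norm_num) (by norm_num) (by norm_num) (by norm_num) (by
      norm_num)
  · rw [e_qR, e_l1]
    refine f_lo1 (h1 := 2.0944) (τ := 1.4242) hb1 hr (by norm_num) (by norm_num) hu (by norm_num) (by norm_num) ?_
    intro t ht ht'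
    have hv := rv3 hβ hr hrc (by linarith) ht (by linarith)
    exact right_lo hβ hr0 (by linarith) ht (by linarith [Real.pi_gt_d2]) hv (by norm_num)
      (ylo_b3 hβ hr0 (by linarith) ht (by linarith))
  · rw [e_qR, e_z4, e_c1]
    refine f_hi1 (h1 := 2.0944) (τ := 1.4242) hb1 hr (by norm_num) (by norm_num) hu (by norm_num) (by norm_num) (by norm_num) ?_
    intro t ht ht'
    have htt : t < Real.pi / 2 := by linarith [Real.pi_gt_d2]
    have hv := rv3 hβ hr hrc (by linarith) ht (by linarith)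
    exact right_hi_M4N (ka := 2.1) (kb := 2.3) (τ := 1.4242) (Y := 0.536) (E1 := 0.585084) (E2 := 1.709156) (E2' :=
      1.709157) (E3 := 0.342323) hβ hr0 ht h1 h2 ht' hv (exp_neg_le_of 8 (by norm_num) (by norm_num) (by norm_num
      [Finset.sum_range_succ, Nat.factorial])) (exp_ge_of 8 (by norm_num) (by norm_num [Finset.sum_range_succ,
      Nat.factorial])) (exp_le_of 6 (by norm_num) (by norm_num) (by norm_num) (by norm_num [Finset.sum_range_succ,
      Nat.factorial])) (by norm_num) (by norm_num) (by norm_num) (by norm_num) (by norm_num) (by norm_num) (by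
      norm_num) (by norm_num) (by norm_num) (by norm_num) (by norm_num)

end Sok.R2
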