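import Pool.Agent.Lib.MP_816dec_an.R2N5
import Pool.Agent.Lib.MP_816dec_an.R2Cls

/-!
MP_816dec_an (rows N1, R2): `NearH` for the classes near3_5, near3_6 (helper40; split by helper24).
-/

set_option autoImplicit false

open Complex Set Filter Topology

namespace Sok.R2

open Sok.Mid Sok.N1

theorem near3_5 {b : ℕ} {β r : ℝ} (hb : b = 3) (hβ : 0 < β) (hr : 10 ≤ r) (hT : c3_5.num.T0 ≤ TT b β r)
    (h1 : (23 / 10 : ℝ) ≤ β * r) (h2 : β * r ≤ 5 / 2) : NearH b β r (-2 * (b : ℤ) + 2) 2 c3_5.num := by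
  subst hb
  have hb1 : (1 : ℕ) ≤ 3 := by norm_num
  have hT1 : (5.441 : ℝ) ≤ TT 3 β r := le_trans (by norm_num [c3_5, NumQ.num]) hT
  have hr0 : 0 < r := by linarith
  replace h1 : 2.3 ≤ β * r := by norm_num at h1 ⊢; linarith
  replace h2 : β * r ≤ 2.5 := by norm_num at h2 ⊢; linarith
  have hrc : 1.2402 * (1 + (β * r) ^ 2) ≤ r := by
    have h := rc_of hb1 hT1
    norm_num at h ⊢
    linarith
  have hl : 2.09433 ≤ hh 3 := by
    have h := (hh_bds hb1).1
    norm_num at h ⊢
    linarith
  have hu : hh 3 ≤ 2.0944 := by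
    have h := (hh_bds hb1).2
    norm_num at h ⊢
    linarith
  have e_u0 : c3_5.num.u0 = 21 / 20 := by norm_num [c3_5, NumQ.num]
  have e_c0 : c3_5.num.c0 = 0.795 := by norm_num [c3_5, NumQ.num]
  have e_l1 : c3_5.num.l1 = 1 - 0.1 := by norm_num [c3_5, NumQ.num]
  have e_c1 : c3_5.num.c1 = 1.26 := by norm_num [c3_5, NumQ.num]
  have e_qL : c3_5.num.qL = -0.57 := by norm_num [c3_5, NumQ.num]
  have e_qR : c3_5.num.qR = -0.41 := by norm_num [c3_5, NumQ.num]
  have e_z4 : c3_5.num.z4 = -0.32 := by norm_num [c3_5, NumQ.num]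
  refine ⟨?_, ?_, ?_, ?_⟩
  · rw [e_qL, e_u0]
    refine f_hi0 (h0 := 2.09433) (h1 := 2.0944) (δq := 1.1937) hb1 hβ hr (by norm_num) (by norm_num) (by linarith) hl hu (by norm_num) (by norm_num)
      (by norm_num) (by linarith) ?_ rfl
    exact Or.inr ⟨by norm_num, alt2 (k1 := 2.3) (k2 := 2.5) (by linarith) h2 (by norm_num) (by norm_num)⟩
  · rw [e_qL, e_c0]
    refine f_lo0 (h1 := 2.0944) (δ := 1.193808) hb1 hr (by norm_num) (by norm_num) hu (by norm_num) (by norm_num) ?_
    intro t ht ht'
    exact left_loN (ka := 2.3) (kb := 2.5) (r0 := 10) (δ := 1.193808) (S := 0.3916) (X := 1.46951) (σ := 0.26471)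
      (s' := 0.04) (X' := 1.0406) (EL := 2.18846) (E1 := 1.47935) (ES := 2.18847) (EL' := 1.08328) (Es' := 1.08329)
      (e0 := 0.06711) (e1 := 0.06449) hβ hr hr h1 h2 ht ht' (exp_ge_of 8 (by norm_num) (by norm_num
      [Finset.sum_range_succ, Nat.factorial])) (exp_le_of 6 (by norm_num) (by norm_num) (by norm_num) (by norm_num
      [Finset.sum_range_succ, Nat.factorial])) (exp_le_of 5 (by norm_num) (by norm_num) (by norm_num) (by norm_num
      [Finset.sum_range_succ, Nat.factorial])) (exp_ge_of 4 (by norm_num) (by norm_num [Finset.sum_range_succ,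
      Nat.factorial])) (exp_le_of 4 (by norm_num) (by norm_num) (by norm_num) (by norm_num [Finset.sum_range_succ,
      Nat.factorial])) (by norm_num) (by norm_num) (by norm_num) (by norm_num) (by norm_num) (by norm_num) (by
      norm_num) (by norm_num) (by norm_num) (by norm_num) (by norm_num) (by norm_num) (by norm_num) (by norm_num)
      (by norm_num) (by norm_num) (by norm_num) (by norm_num) (by norm_num) (by norm_num) (by norm_num) (by
      norm_num)
  · rw [e_qR, e_l1]
    refine f_lo1 (h1 := 2.0944) (τ := 1.4242) hb1 hr (by norm_num) (by norm_num) hu (by norm_num) (by norm_num) ?_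
    intro t ht ht'
    have hv := rv3 hβ hr hrc (by linarith) ht (by linarith)
    exact right_lo hβ hr0 (by linarith) ht (by linarith [Real.pi_gt_d2]) hv (by norm_num)
      (ylo_b3 hβ hr0 (by linarith) ht (by linarith))
  · rw [e_qR, e_z4, e_c1]
    refine f_hi1 (h1 := 2.0944) (τ := 1.4242) hb1 hr (by norm_num) (by norm_num) hu (by norm_num) (by norm_num) (by norm_num) ?_
    intro t ht ht'
    have htt : t < Real.pi / 2 := by linarith [Real.pi_gt_d2]
    have hv := rv3 hβ hr hrc (by linarith) ht (by linarith)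
    exact right_hi_M4N (ka := 2.3) (kb := 2.5) (τ := 1.4242) (Y := 0.5243) (E1 := 0.59197) (E2 := 1.689275) (E2' :=
      1.689276) (E3 := 0.350427) hβ hr0 ht h1 h2 ht' hv (exp_neg_le_of 8 (by norm_num) (by norm_num) (by norm_num
      [Finset.sum_range_succ, Nat.factorial])) (exp_ge_of 8 (by norm_num) (by norm_num [Finset.sum_range_succ,
      Nat.factorial])) (exp_le_of 7 (by norm_num) (by norm_num) (by norm_num) (by norm_num [Finset.sum_range_succ,
      Nat.factorial])) (by norm_num) (by norm_num) (by norm_num) (by norm_num) (by norm_num) (by norm_num) (by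
      norm_num) (by norm_num) (by norm_num) (by norm_num) (by norm_num)

theorem near3_6 {b : ℕ} {β r : ℝ} (hb : b = 3) (hβ : 0 < β) (hr : 10 ≤ r) (hT : c3_6.num.T0 ≤ TT b β r)
    (h1 : (5 / 2 : ℝ) ≤ β * r) (h2 : β * r ≤ 133 / 50) : NearH b β r (-2 * (b : ℤ) + 2) 2 c3_6.num := by
  subst hb
  have hb1 : (1 : ℕ) ≤ 3 := by norm_num
  have hT1 : (5.441 : ℝ) ≤ TT 3 β r := le_trans (by norm_num [c3_6, NumQ.num]) hT
  have hr0 : 0 < r := by linarith
  replace h1 : 2.5 ≤ β * r := by norm_num at h1 ⊢; linarith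
  replace h2 : β * r ≤ 2.66 := by norm_num at h2 ⊢; linarith
  have hrc : 1.2402 * (1 + (β * r) ^ 2) ≤ r := by
    have h := rc_of hb1 hT1
    norm_num at h ⊢
    linarith
  have hl : 2.09433 ≤ hh 3 := by
    have h := (hh_bds hb1).1
    norm_num at h ⊢
    linarith
  have hu : hh 3 ≤ 2.0944 := by
    have h := (hh_bds hb1).2
    norm_num at h ⊢
    linarith
  have e_u0 : c3_6.num.u0 = 21 / 20 := by norm_num [c3_6, NumQ.num]
  have e_c0 : c3_6.num.c0 = 0.798 := by norm_num [c3_6, NumQ.num]
  have e_l1 : c3_6.num.l1 = 1 - 0.1 := by norm_num [c3_6, NumQ.num]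
  have e_c1 : c3_6.num.c1 = 1.268 := by norm_num [c3_6, NumQ.num]
  have e_qL : c3_6.num.qL = -0.575 := by norm_num [c3_6, NumQ.num]
  have e_qR : c3_6.num.qR = -0.395 := by norm_num [c3_6, NumQ.num]
  have e_z4 : c3_6.num.z4 = -0.32 := by norm_num [c3_6, NumQ.num]
  refine ⟨?_, ?_, ?_, ?_⟩
  · rw [e_qL, e_u0]
    refine f_hi0 (h0 := 2.09433) (h1 := 2.0944) (δq := 1.2042) hb1 hβ hr (by norm_num) (by norm_num) (by linarith) hl hu (by norm_num) (by norm_num)
      (by norm_num) (by linarith) ?_ rfl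
    exact Or.inr ⟨by norm_num, alt2 (k1 := 2.5) (k2 := 2.66) (by linarith) h2 (by norm_num) (by norm_num)⟩
  · rw [e_qL, e_c0]
    refine f_lo0 (h1 := 2.0944) (δ := 1.20428) hb1 hr (by norm_num) (by norm_num) hu (by norm_num) (by norm_num) ?_
    intro t ht ht'
    exact left_loN (ka := 2.5) (kb := 2.66) (r0 := 10) (δ := 1.20428) (S := 0.3708) (X := 1.44128) (σ := 0.25591)
      (s' := 0.01) (X' := 1.01) (EL := 2.09929) (E1 := 1.4489) (ES := 2.0993) (EL' := 1.0202) (Es' := 1.02021) (e0
      := 0.06711) (e1 := 0.06644) hβ hr hr h1 h2 ht ht' (exp_ge_of 9 (by norm_num) (by norm_num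
      [Finset.sum_range_succ, Nat.factorial])) (exp_le_of 6 (by norm_num) (by norm_num) (by norm_num) (by norm_num
      [Finset.sum_range_succ, Nat.factorial])) (exp_le_of 5 (by norm_num) (by norm_num) (by norm_num) (by norm_num
      [Finset.sum_range_succ, Nat.factorial])) (exp_ge_of 3 (by norm_num) (by norm_num [Finset.sum_range_succ,
      Nat.factorial])) (exp_le_of 3 (by norm_num) (by norm_num) (by norm_num) (by norm_num [Finset.sum_range_succ,
      Nat.factorial])) (by norm_num) (by norm_num) (by norm_num) (by norm_num) (by norm_num) (by norm_num) (by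
      norm_num) (by norm_num) (by norm_num) (by norm_num) (by norm_num) (by norm_num) (by norm_num) (by norm_num)
      (by norm_num) (by norm_num) (by norm_num) (by norm_num) (by norm_num) (by norm_num) (by norm_num) (by
      norm_num)
  · rw [e_qR, e_l1]
    refine f_lo1 (h1 := 2.0944) (τ := 1.4242) hb1 hr (by norm_num) (by norm_num) hu (by norm_num) (by norm_num) ?_
    intro t ht ht'
    have hv := rv3 hβ hr hrc (by linarith) ht (by linarith)
    exact right_lo hβ hr0 (by linarith) ht (by linarith [Real.pi_gt_d2]) hv (by norm_num)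
      (ylo_big hβ hr0 (by linarith) ht (by linarith [Real.pi_gt_d2]))
  · rw [e_qR, e_z4, e_c1]
    refine f_hi1 (h1 := 2.0944) (τ := 1.4242) hb1 hr (by norm_num) (by norm_num) hu (by norm_num) (by norm_num) (by norm_num) ?_
    intro t ht ht'
    have htt : t < Real.pi / 2 := by linarith [Real.pi_gt_d2]
    have hv := rv3 hβ hr hrc (by linarith) ht (by linarith)
    rcases le_total (β * r) 2.65 with c0 | c0
    · exact right_hi_M4N (ka := 2.5) (kb := 2.65) (τ := 1.4242) (Y := 0.5098) (E1 := 0.600616) (E2 := 1.664958)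
        (E2' := 1.664959) (E3 := 0.360738) hβ hr0 ht h1 c0 ht' hv (exp_neg_le_of 8 (by norm_num) (by norm_num) (by
        norm_num [Finset.sum_range_succ, Nat.factorial])) (exp_ge_of 8 (by norm_num) (by norm_num
        [Finset.sum_range_succ, Nat.factorial])) (exp_le_of 6 (by norm_num) (by norm_num) (by norm_num) (by
        norm_num [Finset.sum_range_succ, Nat.factorial])) (by norm_num) (by norm_num) (by norm_num) (by norm_num)
        (by norm_num) (by norm_num) (by norm_num) (by norm_num) (by norm_num) (by norm_num) (by norm_num)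
    exact right_hi_M4N (ka := 2.65) (kb := 2.66) (τ := 1.4242) (Y := 0.4976) (E1 := 0.607989) (E2 := 1.644769) (E2'
      := 1.64477) (E3 := 0.369649) hβ hr0 ht c0 h2 ht' hv (exp_neg_le_of 7 (by norm_num) (by norm_num) (by norm_num
      [Finset.sum_range_succ, Nat.factorial])) (exp_ge_of 9 (by norm_num) (by norm_num [Finset.sum_range_succ,
      Nat.factorial])) (exp_le_of 6 (by norm_num) (by norm_num) (by norm_num) (by norm_num [Finset.sum_range_succ,
      Nat.factorial])) (by norm_num) (by norm_num) (by norm_num) (by norm_num) (by norm_num) (by norm_num) (by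
      norm_num) (by norm_num) (by norm_num) (by norm_num) (by norm_num)

end Sok.R2
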