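import Pool.Agent.Lib.MP_816dec_an.R2N5
import Pool.Agent.Lib.MP_816dec_an.R2Cls

/-!
MP_816dec_an (rows N1, R2): `NearH` for the classes near3_7 (helper40; split by helper24).
-/

set_option autoImplicit false

open Complex Set Filter Topology

namespace Sok.R2

open Sok.Mid Sok.N1

theorem near3_7 {b : ℕ} {β r : ℝ} (hb : b = 3) (hβ : 0 < β) (hr : 10 ≤ r) (hT : c3_7.num.T0 ≤ TT b β r)
    (h1 : (133 / 50 : ℝ) ≤ β * r) (h2 : β * r ≤ 20) : NearH b β r (-2 * (b : ℤ) + 2) 2 c3_7.num := by
  subst hb
  have hb1 : (1 : ℕ) ≤ 3 := by norm_num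
  have hT1 : (5.441 : ℝ) ≤ TT 3 β r := le_trans (by norm_num [c3_7, NumQ.num]) hT
  have hr0 : 0 < r := by linarith
  replace h1 : 2.66 ≤ β * r := by norm_num at h1 ⊢; linarith
  replace h2 : β * r ≤ 20 := by norm_num at h2 ⊢; linarith
  have hrc : 1.2402 * (1 + (β * r) ^ 2) ≤ r := by
    have h := rc_of hb1 hT1
    norm_num at h ⊢
    linarith
  have hl : 2.09433 ≤ hh 3 := by
    have h := (hh_bds hb1).1
    norm_num at h ⊢
    linarith
  have hu : hh 3 ≤ 2.0944 := by
    have h := (hh_bds hb1).2
    norm_num at h ⊢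
    linarith
  have e_u0 : c3_7.num.u0 = 21 / 20 := by norm_num [c3_7, NumQ.num]
  have e_c0 : c3_7.num.c0 = 0.801 := by norm_num [c3_7, NumQ.num]
  have e_l1 : c3_7.num.l1 = 1 - 0.1 := by norm_num [c3_7, NumQ.num]
  have e_c1 : c3_7.num.c1 = 1.328 := by norm_num [c3_7, NumQ.num]
  have e_qL : c3_7.num.qL = -0.58 := by norm_num [c3_7, NumQ.num]
  have e_qR : c3_7.num.qR = -0.385 := by norm_num [c3_7, NumQ.num]
  have e_z4 : c3_7.num.z4 = -0.32 := by norm_num [c3_7, NumQ.num]
  refine ⟨?_, ?_, ?_, ?_⟩
  · rw [e_qL, e_u0]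
    refine f_hi0 (h0 := 2.09433) (h1 := 2.0944) (δq := 1.2147) hb1 hβ hr (by norm_num) (by norm_num) (by linarith) hl hu (by norm_num) (by norm_num)
      (by norm_num) (by linarith) ?_ rfl
    exact Or.inr ⟨by norm_num, alt2 (k1 := 2.66) (k2 := 20) (by linarith) h2 (by norm_num) (by norm_num)⟩
  · rw [e_qL, e_c0]
    refine f_lo0 (h1 := 2.0944) (δ := 1.214752) hb1 hr (by norm_num) (by norm_num) hu (by norm_num) (by norm_num) ?_
    intro t ht ht'
    rcases le_total (β * r) 2.89 with c0 | c0
    · exact left_loN (ka := 2.66) (kb := 2.89) (r0 := 10.01) (δ := 1.214752) (S := 0.3564) (X := 1.42187) (σ :=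
        0.24954) (s' := 0.03) (X' := 1.0303) (EL := 2.03969) (E1 := 1.42818) (ES := 2.0397) (EL' := 1.06183) (Es'
        := 1.06184) (e0 := 0.06704) (e1 := 0.06507) hβ hr (r0_of hrc h1 (by norm_num) (by norm_num) (by norm_num))
        h1 c0 ht ht' (exp_ge_of 8 (by norm_num) (by norm_num [Finset.sum_range_succ, Nat.factorial])) (exp_le_of 6
        (by norm_num) (by norm_num) (by norm_num) (by norm_num [Finset.sum_range_succ, Nat.factorial])) (exp_le_of
        5 (by norm_num) (by norm_num) (by norm_num) (by norm_num [Finset.sum_range_succ, Nat.factorial]))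
        (exp_ge_of 4 (by norm_num) (by norm_num [Finset.sum_range_succ, Nat.factorial])) (exp_le_of 3 (by norm_num)
        (by norm_num) (by norm_num) (by norm_num [Finset.sum_range_succ, Nat.factorial])) (by norm_num) (by
        norm_num) (by norm_num) (by norm_num) (by norm_num) (by norm_num) (by norm_num) (by norm_num) (by norm_num)
        (by norm_num) (by norm_num) (by norm_num) (by norm_num) (by norm_num) (by norm_num) (by norm_num) (by
        norm_num) (by norm_num) (by norm_num) (by norm_num) (by norm_num) (by norm_num)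
    exact left_lo_big (ka := 2.89) (r0 := 11.59) (δ := 1.214752) (e0 := 0.0579) hβ hr (r0_of hrc c0 (by norm_num)
      (by norm_num) (by norm_num)) (by norm_num) c0 ht ht' (by norm_num) (by norm_num) (by norm_num) (by norm_num)
      (by norm_num) (by norm_num) (by norm_num)
  · rw [e_qR, e_l1]
    refine f_lo1 (h1 := 2.0944) (τ := 1.4242) hb1 hr (by norm_num) (by norm_num) hu (by norm_num) (by norm_num) ?_
    intro t ht ht'
    have hv := rv3 hβ hr hrc (by linarith) ht (by linarith)
    exact right_lo hβ hr0 (by linarith) ht (by linarith [Real.pi_gt_d2]) hv (by norm_num)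
      (ylo_big hβ hr0 (by linarith) ht (by linarith [Real.pi_gt_d2]))
  · rw [e_qR, e_z4, e_c1]
    refine f_hi1 (h1 := 2.0944) (τ := 1.4242) hb1 hr (by norm_num) (by norm_num) hu (by norm_num) (by norm_num) (by norm_num) ?_
    intro t ht ht'
    have htt : t < Real.pi / 2 := by linarith [Real.pi_gt_d2]
    have hv := rv3 hβ hr hrc (by linarith) ht (by linarith)
    rcases le_total (β * r) 3.89 with c0 | c0
    · exact right_hi_M4N (ka := 2.66) (kb := 3.89) (τ := 1.4242) (Y := 0.4967) (E1 := 0.608536) (E2 := 1.643289)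
        (E2' := 1.64329) (E3 := 0.370315) hβ hr0 ht h1 c0 ht' hv (exp_neg_le_of 8 (by norm_num) (by norm_num) (by
        norm_num [Finset.sum_range_succ, Nat.factorial])) (exp_ge_of 8 (by norm_num) (by norm_num
        [Finset.sum_range_succ, Nat.factorial])) (exp_le_of 6 (by norm_num) (by norm_num) (by norm_num) (by
        norm_num [Finset.sum_range_succ, Nat.factorial])) (by norm_num) (by norm_num) (by norm_num) (by norm_num)
        (by norm_num) (by norm_num) (by norm_num) (by norm_num) (by norm_num) (by norm_num) (by norm_num)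
    rcases le_total (β * r) 4.25 with c1 | c1
    · exact right_hi_M4N (ka := 3.89) (kb := 4.25) (τ := 1.4242) (Y := 0.3874) (E1 := 0.67882) (E2 := 1.473145)
        (E2' := 1.473146) (E3 := 0.460795) hβ hr0 ht c0 c1 ht' hv (exp_neg_le_of 7 (by norm_num) (by norm_num) (by
        norm_num [Finset.sum_range_succ, Nat.factorial])) (exp_ge_of 7 (by norm_num) (by norm_num
        [Finset.sum_range_succ, Nat.factorial])) (exp_le_of 6 (by norm_num) (by norm_num) (by norm_num) (by
        norm_num [Finset.sum_range_succ, Nat.factorial])) (by norm_num) (by norm_num) (by norm_num) (by norm_num)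
        (by norm_num) (by norm_num) (by norm_num) (by norm_num) (by norm_num) (by norm_num) (by norm_num)
    exact right_hi_M3 (ka := 4.25) (τ := 1.4242) hβ hr0 ht htt (by norm_num) c1 ht' (by norm_num) (by norm_num) hv
      (by norm_num) (by norm_num) (by norm_num)

end Sok.R2
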