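import Pool.Agent.Lib.MP_816dec_an.R2NearA1
import Pool.Agent.Lib.MP_816dec_an.R2NearA2
import Pool.Agent.Lib.MP_816dec_an.R2NearA3
import Pool.Agent.Lib.MP_816dec_an.R2NearA4
import Pool.Agent.Lib.MP_816dec_an.R2NearA5
import Pool.Agent.Lib.MP_816dec_an.R2NearA6
import Pool.Agent.Lib.MP_816dec_an.R2NearA7
import Pool.Agent.Lib.MP_816dec_an.R2NearA8
import Pool.Agent.Lib.MP_816dec_an.R2NearA9

/-!
MP_816dec_an (rows N1, R2): `NearH` for the classes (b = 1, 2, 3): collection of the parts.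
-/
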