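import Pool.Agent.Lib.MP_816dec_an.R2N5
import Pool.Agent.Lib.MP_816dec_an.R2Cls

/-!
MP_816dec_an (rows N1, R2): `NearH` for the classes near4_3, near4_4 (helper40; split by helper24).
-/

set_option autoImplicit false

open Complex Set Filter Topology

namespace Sok.R2

open Sok.Mid Sok.N1

theorem near4_3 {b : ℕ} {β r : ℝ} (hb : b = 4) (hβ : 0 < β) (hr : 10 ≤ r) (hT : c4_3.num.T0 ≤ TT b β r)
    (h1 : (8 / 5 : ℝ) ≤ β * r) (h2 : β * r ≤ 433 / 250) : NearH b β r (-2 * (b : ℤ) + 2) 2 c4_3.num := by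
  subst hb
  have hb1 : (1 : ℕ) ≤ 4 := by norm_num
  have hT1 : (5.441 : ℝ) ≤ TT 4 β r := le_trans (by norm_num [c4_3, NumQ.num]) hT
  have hr0 : 0 < r := by linarith
  replace h1 : 1.6 ≤ β * r := by norm_num at h1 ⊢; linarith
  replace h2 : β * r ≤ 1.732 := by norm_num at h2 ⊢; linarith
  have hrc : 2.2048 * (1 + (β * r) ^ 2) ≤ r := by
    have h := rc_of hb1 hT1
    norm_num at h ⊢
    linarith
  have hl : 1.57074 ≤ hh 4 := by
    have h := (hh_bds hb1).1
    norm_num at h ⊢
    linarith
  have hu : hh 4 ≤ 1.5708 := by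
    have h := (hh_bds hb1).2
    norm_num at h ⊢
    linarith
  have hrc3 : 1.2402 * (1 + (β * r) ^ 2) ≤ r := by nlinarith [sq_nonneg (β * r)]
  have e_u0 : c4_3.num.u0 = 21 / 20 := by norm_num [c4_3, NumQ.num]
  have e_c0 : c4_3.num.c0 = 0.83 := by norm_num [c4_3, NumQ.num]
  have e_l1 : c4_3.num.l1 = 1 - 0.1 := by norm_num [c4_3, NumQ.num]
  have e_c1 : c4_3.num.c1 = 1.171 := by norm_num [c4_3, NumQ.num]
  have e_qL : c4_3.num.qL = -0.565 := by norm_num [c4_3, NumQ.num]
  have e_qR : c4_3.num.qR = -0.415 := by norm_num [c4_3, NumQ.num]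
  have e_z4 : c4_3.num.z4 = -0.32 := by norm_num [c4_3, NumQ.num]
  refine ⟨?_, ?_, ?_, ?_⟩
  · rw [e_qL, e_u0]
    refine f_hi0 (h0 := 1.57074) (h1 := 1.5708) (δq := 0.8874) hb1 hβ hr (by norm_num) (by norm_num) (by linarith) hl hu (by norm_num) (by norm_num)
      (by norm_num) (by linarith) ?_ rfl
    exact Or.inr ⟨by norm_num, alt2 (k1 := 1.6) (k2 := 1.732) (by linarith) h2 (by norm_num) (by norm_num)⟩
  · rw [e_qL, e_c0]
    refine f_lo0 (h1 := 1.5708) (δ := 0.887502) hb1 hr (by norm_num) (by norm_num) hu (by norm_num) (by norm_num) ?_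
    intro t ht ht'
    exact left_loN (ka := 1.6) (kb := 1.732) (r0 := 10) (δ := 0.887502) (S := 0.387) (X := 1.45255) (σ := 0.2628)
      (s' := 0.22) (X' := 1.2384) (EL := 2.16842) (E1 := 1.47256) (ES := 2.16843) (EL' := 1.5527) (Es' := 1.55271)
      (e0 := 0.06711) (e1 := 0.05419) hβ hr hr h1 h2 ht ht' (exp_ge_of 9 (by norm_num) (by norm_num
      [Finset.sum_range_succ, Nat.factorial])) (exp_le_of 6 (by norm_num) (by norm_num) (by norm_num) (by norm_num
      [Finset.sum_range_succ, Nat.factorial])) (exp_le_of 5 (by norm_num) (by norm_num) (by norm_num) (by norm_num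
      [Finset.sum_range_succ, Nat.factorial])) (exp_ge_of 7 (by norm_num) (by norm_num [Finset.sum_range_succ,
      Nat.factorial])) (exp_le_of 5 (by norm_num) (by norm_num) (by norm_num) (by norm_num [Finset.sum_range_succ,
      Nat.factorial])) (by norm_num) (by norm_num) (by norm_num) (by norm_num) (by norm_num) (by norm_num) (by
      norm_num) (by norm_num) (by norm_num) (by norm_num) (by norm_num) (by norm_num) (by norm_num) (by norm_num)
      (by norm_num) (by norm_num) (by norm_num) (by norm_num) (by norm_num) (by norm_num) (by norm_num) (by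
      norm_num)
  · rw [e_qR, e_l1]
    refine f_lo1 (h1 := 1.5708) (τ := 1.0682) hb1 hr (by norm_num) (by norm_num) hu (by norm_num) (by norm_num) ?_
    intro t ht ht'
    have hv := rv3 hβ hr hrc3 (by linarith) ht (by linarith)
    exact right_lo hβ hr0 (by linarith) ht (by linarith [Real.pi_gt_d2]) hv (by norm_num)
      (ylo_b3 hβ hr0 (by linarith) ht (by linarith))
  · rw [e_qR, e_z4, e_c1]
    refine f_hi1 (h1 := 1.5708) (τ := 1.0682) hb1 hr (by norm_num) (by norm_num) hu (by norm_num) (by norm_num) (by norm_num) ?_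
    intro t ht ht'
    have htt : t < Real.pi / 2 := by linarith [Real.pi_gt_d2]
    have hv := rv3 hβ hr hrc3 (by linarith) ht (by linarith)
    exact right_hi_M4N (ka := 1.6) (kb := 1.732) (τ := 1.0682) (Y := 0.4325) (E1 := 0.648885) (E2 := 1.541105) (E2'
      := 1.541106) (E3 := 0.421051) hβ hr0 ht h1 h2 ht' hv (exp_neg_le_of 8 (by norm_num) (by norm_num) (by
      norm_num [Finset.sum_range_succ, Nat.factorial])) (exp_ge_of 8 (by norm_num) (by norm_num
      [Finset.sum_range_succ, Nat.factorial])) (exp_le_of 6 (by norm_num) (by norm_num) (by norm_num) (by norm_num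
      [Finset.sum_range_succ, Nat.factorial])) (by norm_num) (by norm_num) (by norm_num) (by norm_num) (by
      norm_num) (by norm_num) (by norm_num) (by norm_num) (by norm_num) (by norm_num) (by norm_num)

theorem near4_4 {b : ℕ} {β r : ℝ} (hb : b = 4) (hβ : 0 < β) (hr : 10 ≤ r) (hT : c4_4.num.T0 ≤ TT b β r)
    (h1 : (433 / 250 : ℝ) ≤ β * r) (h2 : β * r ≤ 91 / 50) : NearH b β r (-2 * (b : ℤ) + 2) 2 c4_4.num := by
  subst hb
  have hb1 : (1 : ℕ) ≤ 4 := by norm_num
  have hT1 : (5.441 : ℝ) ≤ TT 4 β r := le_trans (by norm_num [c4_4, NumQ.num]) hT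
  have hr0 : 0 < r := by linarith
  replace h1 : 1.732 ≤ β * r := by norm_num at h1 ⊢; linarith
  replace h2 : β * r ≤ 1.82 := by norm_num at h2 ⊢; linarith
  have hrc : 2.2048 * (1 + (β * r) ^ 2) ≤ r := by
    have h := rc_of hb1 hT1
    norm_num at h ⊢
    linarith
  have hl : 1.57074 ≤ hh 4 := by
    have h := (hh_bds hb1).1
    norm_num at h ⊢
    linarith
  have hu : hh 4 ≤ 1.5708 := by
    have h := (hh_bds hb1).2
    norm_num at h ⊢
    linarith
  have hrc3 : 1.2402 * (1 + (β * r) ^ 2) ≤ r := by nlinarith [sq_nonneg (β * r)]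
  have e_u0 : c4_4.num.u0 = 21 / 20 := by norm_num [c4_4, NumQ.num]
  have e_c0 : c4_4.num.c0 = 0.828 := by norm_num [c4_4, NumQ.num]
  have e_l1 : c4_4.num.l1 = 1 - 0.1 := by norm_num [c4_4, NumQ.num]
  have e_c1 : c4_4.num.c1 = 1.182 := by norm_num [c4_4, NumQ.num]
  have e_qL : c4_4.num.qL = -0.57 := by norm_num [c4_4, NumQ.num]
  have e_qR : c4_4.num.qR = -0.41 := by norm_num [c4_4, NumQ.num]
  have e_z4 : c4_4.num.z4 = -0.32 := by norm_num [c4_4, NumQ.num]
  refine ⟨?_, ?_, ?_, ?_⟩
  · rw [e_qL, e_u0]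
    refine f_hi0 (h0 := 1.57074) (h1 := 1.5708) (δq := 0.8953) hb1 hβ hr (by norm_num) (by norm_num) (by linarith) hl hu (by norm_num) (by norm_num)
      (by norm_num) (by linarith) ?_ rfl
    exact Or.inr ⟨by norm_num, alt2 (k1 := 1.732) (k2 := 1.82) (by linarith) h2 (by norm_num) (by norm_num)⟩
  · rw [e_qL, e_c0]
    refine f_lo0 (h1 := 1.5708) (δ := 0.895356) hb1 hr (by norm_num) (by norm_num) hu (by norm_num) (by norm_num) ?_
    intro t ht ht'
    exact left_loN (ka := 1.732) (kb := 1.82) (r0 := 10) (δ := 0.895356) (S := 0.3703) (X := 1.43229) (σ := 0.2557)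
      (s' := 0.14) (X' := 1.1474) (EL := 2.09719) (E1 := 1.44817) (ES := 2.0972) (EL' := 1.32312) (Es' := 1.32313)
      (e0 := 0.06711) (e1 := 0.05849) hβ hr hr h1 h2 ht ht' (exp_ge_of 8 (by norm_num) (by norm_num
      [Finset.sum_range_succ, Nat.factorial])) (exp_le_of 6 (by norm_num) (by norm_num) (by norm_num) (by norm_num
      [Finset.sum_range_succ, Nat.factorial])) (exp_le_of 5 (by norm_num) (by norm_num) (by norm_num) (by norm_num
      [Finset.sum_range_succ, Nat.factorial])) (exp_ge_of 6 (by norm_num) (by norm_num [Finset.sum_range_succ,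
      Nat.factorial])) (exp_le_of 5 (by norm_num) (by norm_num) (by norm_num) (by norm_num [Finset.sum_range_succ,
      Nat.factorial])) (by norm_num) (by norm_num) (by norm_num) (by norm_num) (by norm_num) (by norm_num) (by
      norm_num) (by norm_num) (by norm_num) (by norm_num) (by norm_num) (by norm_num) (by norm_num) (by norm_num)
      (by norm_num) (by norm_num) (by norm_num) (by norm_num) (by norm_num) (by norm_num) (by norm_num) (by
      norm_num)
  · rw [e_qR, e_l1]
    refine f_lo1 (h1 := 1.5708) (τ := 1.0682) hb1 hr (by norm_num) (by norm_num) hu (by norm_num) (by norm_num) ?_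
    intro t ht ht'
    have hv := rv3 hβ hr hrc3 (by linarith) ht (by linarith)
    exact right_lo hβ hr0 (by linarith) ht (by linarith [Real.pi_gt_d2]) hv (by norm_num)
      (ylo_b3 hβ hr0 (by linarith) ht (by linarith))
  · rw [e_qR, e_z4, e_c1]
    refine f_hi1 (h1 := 1.5708) (τ := 1.0682) hb1 hr (by norm_num) (by norm_num) hu (by norm_num) (by norm_num) (by norm_num) ?_
    intro t ht ht'
    have htt : t < Real.pi / 2 := by linarith [Real.pi_gt_d2]
    have hv := rv3 hβ hr hrc3 (by linarith) ht (by linarith)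
    exact right_hi_M4N (ka := 1.732) (kb := 1.82) (τ := 1.0682) (Y := 0.4298) (E1 := 0.65064) (E2 := 1.53695) (E2'
      := 1.536951) (E3 := 0.42333) hβ hr0 ht h1 h2 ht' hv (exp_neg_le_of 7 (by norm_num) (by norm_num) (by norm_num
      [Finset.sum_range_succ, Nat.factorial])) (exp_ge_of 8 (by norm_num) (by norm_num [Finset.sum_range_succ,
      Nat.factorial])) (exp_le_of 6 (by norm_num) (by norm_num) (by norm_num) (by norm_num [Finset.sum_range_succ,
      Nat.factorial])) (by norm_num) (by norm_num) (by norm_num) (by norm_num) (by norm_num) (by norm_num) (by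
      norm_num) (by norm_num) (by norm_num) (by norm_num) (by norm_num)

end Sok.R2
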