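import Pool.Agent.Lib.MP_816dec_an.R2N5
import Pool.Agent.Lib.MP_816dec_an.R2Cls

/-!
MP_816dec_an (rows N1, R2): `NearH` for the classes near4_5, near4_6 (helper40; split by helper24).
-/

set_option autoImplicit false

open Complex Set Filter Topology

namespace Sok.R2

open Sok.Mid Sok.N1

theorem near4_5 {b : ℕ} {β r : ℝ} (hb : b = 4) (hβ : 0 < β) (hr : 10 ≤ r) (hT : c4_5.num.T0 ≤ TT b β r)
    (h1 : (91 / 50 : ℝ) ≤ β * r) (h2 : β * r ≤ 19 / 10) : NearH b β r (-2 * (b : ℤ) + 2) 2 c4_5.num := by
  subst hb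
  have hb1 : (1 : ℕ) ≤ 4 := by norm_num
  have hT1 : (5.441 : ℝ) ≤ TT 4 β r := le_trans (by norm_num [c4_5, NumQ.num]) hT
  have hr0 : 0 < r := by linarith
  replace h1 : 1.82 ≤ β * r := by norm_num at h1 ⊢; linarith
  replace h2 : β * r ≤ 1.9 := by norm_num at h2 ⊢; linarith
  have hrc : 2.2048 * (1 + (β * r) ^ 2) ≤ r := by
    have h := rc_of hb1 hT1
    norm_num at h ⊢
    linarith
  have hl : 1.57074 ≤ hh 4 := by
    have h := (hh_bds hb1).1
    norm_num at h ⊢
    linarith
  have hu : hh 4 ≤ 1.5708 := by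
    have h := (hh_bds hb1).2
    norm_num at h ⊢
    linarith
  have hrc3 : 1.2402 * (1 + (β * r) ^ 2) ≤ r := by nlinarith [sq_nonneg (β * r)]
  have e_u0 : c4_5.num.u0 = 21 / 20 := by norm_num [c4_5, NumQ.num]
  have e_c0 : c4_5.num.c0 = 0.832 := by norm_num [c4_5, NumQ.num]
  have e_l1 : c4_5.num.l1 = 1 - 0.1 := by norm_num [c4_5, NumQ.num]
  have e_c1 : c4_5.num.c1 = 1.19 := by norm_num [c4_5, NumQ.num]
  have e_qL : c4_5.num.qL = -0.57 := by norm_num [c4_5, NumQ.num]
  have e_qR : c4_5.num.qR = -0.41 := by norm_num [c4_5, NumQ.num]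
  have e_z4 : c4_5.num.z4 = -0.32 := by norm_num [c4_5, NumQ.num]
  refine ⟨?_, ?_, ?_, ?_⟩
  · rw [e_qL, e_u0]
    refine f_hi0 (h0 := 1.57074) (h1 := 1.5708) (δq := 0.8953) hb1 hβ hr (by norm_num) (by norm_num) (by linarith) hl hu (by norm_num) (by norm_num)
      (by norm_num) (by linarith) ?_ rfl
    exact Or.inr ⟨by norm_num, alt2 (k1 := 1.82) (k2 := 1.9) (by linarith) h2 (by norm_num) (by norm_num)⟩
  · rw [e_qL, e_c0]
    refine f_lo0 (h1 := 1.5708) (δ := 0.895356) hb1 hr (by norm_num) (by norm_num) hu (by norm_num) (by norm_num) ?_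
    intro t ht ht'
    exact left_loN (ka := 1.82) (kb := 1.9) (r0 := 10) (δ := 0.895356) (S := 0.358) (X := 1.41687) (σ := 0.25026)
      (s' := 0.21) (X' := 1.2282) (EL := 2.04623) (E1 := 1.43047) (ES := 2.04624) (EL' := 1.52196) (Es' := 1.52197)
      (e0 := 0.06711) (e1 := 0.05464) hβ hr hr h1 h2 ht ht' (exp_ge_of 8 (by norm_num) (by norm_num
      [Finset.sum_range_succ, Nat.factorial])) (exp_le_of 6 (by norm_num) (by norm_num) (by norm_num) (by norm_num
      [Finset.sum_range_succ, Nat.factorial])) (exp_le_of 5 (by norm_num) (by norm_num) (by norm_num) (by norm_num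
      [Finset.sum_range_succ, Nat.factorial])) (exp_ge_of 7 (by norm_num) (by norm_num [Finset.sum_range_succ,
      Nat.factorial])) (exp_le_of 5 (by norm_num) (by norm_num) (by norm_num) (by norm_num [Finset.sum_range_succ,
      Nat.factorial])) (by norm_num) (by norm_num) (by norm_num) (by norm_num) (by norm_num) (by norm_num) (by
      norm_num) (by norm_num) (by norm_num) (by norm_num) (by norm_num) (by norm_num) (by norm_num) (by norm_num)
      (by norm_num) (by norm_num) (by norm_num) (by norm_num) (by norm_num) (by norm_num) (by norm_num) (by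
      norm_num)
  · rw [e_qR, e_l1]
    refine f_lo1 (h1 := 1.5708) (τ := 1.0682) hb1 hr (by norm_num) (by norm_num) hu (by norm_num) (by norm_num) ?_
    intro t ht ht'
    have hv := rv3 hβ hr hrc3 (by linarith) ht (by linarith)
    exact right_lo hβ hr0 (by linarith) ht (by linarith [Real.pi_gt_d2]) hv (by norm_num)
      (ylo_b3 hβ hr0 (by linarith) ht (by linarith))
  · rw [e_qR, e_z4, e_c1]
    refine f_hi1 (h1 := 1.5708) (τ := 1.0682) hb1 hr (by norm_num) (by norm_num) hu (by norm_num) (by norm_num) (by norm_num) ?_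
    intro t ht ht'
    have htt : t < Real.pi / 2 := by linarith [Real.pi_gt_d2]
    have hv := rv3 hβ hr hrc3 (by linarith) ht (by linarith)
    exact right_hi_M4N (ka := 1.82) (kb := 1.9) (τ := 1.0682) (Y := 0.4268) (E1 := 0.652595) (E2 := 1.532346) (E2'
      := 1.532347) (E3 := 0.425878) hβ hr0 ht h1 h2 ht' hv (exp_neg_le_of 7 (by norm_num) (by norm_num) (by
      norm_num [Finset.sum_range_succ, Nat.factorial])) (exp_ge_of 8 (by norm_num) (by norm_num
      [Finset.sum_range_succ, Nat.factorial])) (exp_le_of 6 (by norm_num) (by norm_num) (by norm_num) (by norm_num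
      [Finset.sum_range_succ, Nat.factorial])) (by norm_num) (by norm_num) (by norm_num) (by norm_num) (by
      norm_num) (by norm_num) (by norm_num) (by norm_num) (by norm_num) (by norm_num) (by norm_num)

theorem near4_6 {b : ℕ} {β r : ℝ} (hb : b = 4) (hβ : 0 < β) (hr : 10 ≤ r) (hT : c4_6.num.T0 ≤ TT b β r)
    (h1 : (19 / 10 : ℝ) ≤ β * r) (h2 : β * r ≤ 23 / 10) : NearH b β r (-2 * (b : ℤ) + 2) 2 c4_6.num := by
  subst hb
  have hb1 : (1 : ℕ) ≤ 4 := by norm_num
  have hT1 : (5.441 : ℝ) ≤ TT 4 β r := le_trans (by norm_num [c4_6, NumQ.num]) hT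
  have hr0 : 0 < r := by linarith
  replace h1 : 1.9 ≤ β * r := by norm_num at h1 ⊢; linarith
  replace h2 : β * r ≤ 2.3 := by norm_num at h2 ⊢; linarith
  have hrc : 2.2048 * (1 + (β * r) ^ 2) ≤ r := by
    have h := rc_of hb1 hT1
    norm_num at h ⊢
    linarith
  have hl : 1.57074 ≤ hh 4 := by
    have h := (hh_bds hb1).1
    norm_num at h ⊢
    linarith
  have hu : hh 4 ≤ 1.5708 := by
    have h := (hh_bds hb1).2
    norm_num at h ⊢
    linarith
  have hrc3 : 1.2402 * (1 + (β * r) ^ 2) ≤ r := by nlinarith [sq_nonneg (β * r)]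
  have e_u0 : c4_6.num.u0 = 21 / 20 := by norm_num [c4_6, NumQ.num]
  have e_c0 : c4_6.num.c0 = 0.831 := by norm_num [c4_6, NumQ.num]
  have e_l1 : c4_6.num.l1 = 1 - 0.1 := by norm_num [c4_6, NumQ.num]
  have e_c1 : c4_6.num.c1 = 1.22 := by norm_num [c4_6, NumQ.num]
  have e_qL : c4_6.num.qL = -0.575 := by norm_num [c4_6, NumQ.num]
  have e_qR : c4_6.num.qR = -0.405 := by norm_num [c4_6, NumQ.num]
  have e_z4 : c4_6.num.z4 = -0.32 := by norm_num [c4_6, NumQ.num]
  refine ⟨?_, ?_, ?_, ?_⟩
  · rw [e_qL, e_u0]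
    refine f_hi0 (h0 := 1.57074) (h1 := 1.5708) (δq := 0.9031) hb1 hβ hr (by norm_num) (by norm_num) (by linarith) hl hu (by norm_num) (by norm_num)
      (by norm_num) (by linarith) ?_ rfl
    exact Or.inr ⟨by norm_num, alt2 (k1 := 1.9) (k2 := 2.3) (by linarith) h2 (by norm_num) (by norm_num)⟩
  · rw [e_qL, e_c0]
    refine f_lo0 (h1 := 1.5708) (δ := 0.90321) hb1 hr (by norm_num) (by norm_num) hu (by norm_num) (by norm_num) ?_
    intro t ht ht'
    rcases le_total (β * r) 2.16 with c0 | c0
    · exact left_loN (ka := 1.9) (kb := 2.16) (r0 := 10.16) (δ := 0.90321) (S := 0.3503) (X := 1.40746) (σ :=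
        0.24677) (s' := 0.3) (X' := 1.3405) (EL := 2.01496) (E1 := 1.4195) (ES := 2.01497) (EL' := 1.82211) (Es' :=
        1.82212) (e0 := 0.06605) (e1 := 0.04927) hβ hr (r0_of hrc h1 (by norm_num) (by norm_num) (by norm_num)) h1
        c0 ht ht' (exp_ge_of 9 (by norm_num) (by norm_num [Finset.sum_range_succ, Nat.factorial])) (exp_le_of 6 (by
        norm_num) (by norm_num) (by norm_num) (by norm_num [Finset.sum_range_succ, Nat.factorial])) (exp_le_of 5
        (by norm_num) (by norm_num) (by norm_num) (by norm_num [Finset.sum_range_succ, Nat.factorial])) (exp_ge_of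
        7 (by norm_num) (by norm_num [Finset.sum_range_succ, Nat.factorial])) (exp_le_of 6 (by norm_num) (by
        norm_num) (by norm_num) (by norm_num [Finset.sum_range_succ, Nat.factorial])) (by norm_num) (by norm_num)
        (by norm_num) (by norm_num) (by norm_num) (by norm_num) (by norm_num) (by norm_num) (by norm_num) (by
        norm_num) (by norm_num) (by norm_num) (by norm_num) (by norm_num) (by norm_num) (by norm_num) (by norm_num)
        (by norm_num) (by norm_num) (by norm_num) (by norm_num) (by norm_num)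
    exact left_loN (ka := 2.16) (kb := 2.3) (r0 := 12.49) (δ := 0.90321) (S := 0.3198) (X := 1.36886) (σ :=
      0.23226) (s' := 0.01) (X' := 1.01) (EL := 1.89572) (E1 := 1.37686) (ES := 1.89573) (EL' := 1.0202) (Es' :=
      1.02021) (e0 := 0.05373) (e1 := 0.0532) hβ hr (r0_of hrc c0 (by norm_num) (by norm_num) (by norm_num)) c0 h2
      ht ht' (exp_ge_of 8 (by norm_num) (by norm_num [Finset.sum_range_succ, Nat.factorial])) (exp_le_of 6 (by
      norm_num) (by norm_num) (by norm_num) (by norm_num [Finset.sum_range_succ, Nat.factorial])) (exp_le_of 5 (by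
      norm_num) (by norm_num) (by norm_num) (by norm_num [Finset.sum_range_succ, Nat.factorial])) (exp_ge_of 3 (by
      norm_num) (by norm_num [Finset.sum_range_succ, Nat.factorial])) (exp_le_of 3 (by norm_num) (by norm_num) (by
      norm_num) (by norm_num [Finset.sum_range_succ, Nat.factorial])) (by norm_num) (by norm_num) (by norm_num) (by
      norm_num) (by norm_num) (by norm_num) (by norm_num) (by norm_num) (by norm_num) (by norm_num) (by norm_num)
      (by norm_num) (by norm_num) (by norm_num) (by norm_num) (by norm_num) (by norm_num) (by norm_num) (by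
      norm_num) (by norm_num) (by norm_num) (by norm_num)
  · rw [e_qR, e_l1]
    refine f_lo1 (h1 := 1.5708) (τ := 1.0682) hb1 hr (by norm_num) (by norm_num) hu (by norm_num) (by norm_num) ?_
    intro t ht ht'
    have hv := rv3 hβ hr hrc3 (by linarith) ht (by linarith)
    exact right_lo hβ hr0 (by linarith) ht (by linarith [Real.pi_gt_d2]) hv (by norm_num)
      (ylo_b3 hβ hr0 (by linarith) ht (by linarith))
  · rw [e_qR, e_z4, e_c1]
    refine f_hi1 (h1 := 1.5708) (τ := 1.0682) hb1 hr (by norm_num) (by norm_num) hu (by norm_num) (by norm_num) (by norm_num) ?_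
    intro t ht ht'
    have htt : t < Real.pi / 2 := by linarith [Real.pi_gt_d2]
    have hv := rv3 hβ hr hrc3 (by linarith) ht (by linarith)
    rcases le_total (β * r) 2.26 with c0 | c0
    · exact right_hi_M4N (ka := 1.9) (kb := 2.26) (τ := 1.0682) (Y := 0.4235) (E1 := 0.654752) (E2 := 1.527297)
        (E2' := 1.527298) (E3 := 0.428698) hβ hr0 ht h1 c0 ht' hv (exp_neg_le_of 7 (by norm_num) (by norm_num) (by
        norm_num [Finset.sum_range_succ, Nat.factorial])) (exp_ge_of 7 (by norm_num) (by norm_num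
        [Finset.sum_range_succ, Nat.factorial])) (exp_le_of 6 (by norm_num) (by norm_num) (by norm_num) (by
        norm_num [Finset.sum_range_succ, Nat.factorial])) (by norm_num) (by norm_num) (by norm_num) (by norm_num)
        (by norm_num) (by norm_num) (by norm_num) (by norm_num) (by norm_num) (by norm_num) (by norm_num)
    exact right_hi_M4N (ka := 2.26) (kb := 2.3) (τ := 1.0682) (Y := 0.4023) (E1 := 0.668781) (E2 := 1.495259) (E2'
      := 1.49526) (E3 := 0.447266) hβ hr0 ht c0 h2 ht' hv (exp_neg_le_of 7 (by norm_num) (by norm_num) (by norm_num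
      [Finset.sum_range_succ, Nat.factorial])) (exp_ge_of 7 (by norm_num) (by norm_num [Finset.sum_range_succ,
      Nat.factorial])) (exp_le_of 6 (by norm_num) (by norm_num) (by norm_num) (by norm_num [Finset.sum_range_succ,
      Nat.factorial])) (by norm_num) (by norm_num) (by norm_num) (by norm_num) (by norm_num) (by norm_num) (by
      norm_num) (by norm_num) (by norm_num) (by norm_num) (by norm_num)

end Sok.R2
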