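import Pool.Agent.Lib.MP_816dec_an.R2NearB1
import Pool.Agent.Lib.MP_816dec_an.R2NearB2
import Pool.Agent.Lib.MP_816dec_an.R2NearB3
import Pool.Agent.Lib.MP_816dec_an.R2NearB4
import Pool.Agent.Lib.MP_816dec_an.R2NearB5
import Pool.Agent.Lib.MP_816dec_an.R2NearB6
import Pool.Agent.Lib.MP_816dec_an.R2NearB7

/-!
MP_816dec_an (rows N1, R2): `NearH` for the classes (b = 4, 5): collection of the parts.
-/
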