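import Pool.Agent.Lib.MP_816dec_an.R2N5
import Pool.Agent.Lib.MP_816dec_an.R2Cls

/-!
MP_816dec_an (rows N1, R2): `NearH` for the classes near6_3 (helper40; split by helper24).
-/

set_option autoImplicit false

open Complex Set Filter Topology

namespace Sok.R2

open Sok.Mid Sok.N1

theorem near6_3 {b : ℕ} {β r : ℝ} (hb : b = 6) (hβ : 0 < β) (hr : 10 ≤ r) (hT : c6_3.num.T0 ≤ TT b β r)
    (h1 : (433 / 250 : ℝ) ≤ β * r) (h2 : β * r ≤ 20) : NearH b β r (-2 * (b : ℤ) + 2) 2 c6_3.num := by
  subst hb
  have hb1 : (1 : ℕ) ≤ 6 := by norm_num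
  have hT1 : (5.441 : ℝ) ≤ TT 6 β r := le_trans (by norm_num [c6_3, NumQ.num]) hT
  have hr0 : 0 < r := by linarith
  replace h1 : 1.732 ≤ β * r := by norm_num at h1 ⊢; linarith
  replace h2 : β * r ≤ 20 := by norm_num at h2 ⊢; linarith
  have hrc : 4.9608 * (1 + (β * r) ^ 2) ≤ r := by
    have h := rc_of hb1 hT1
    norm_num at h ⊢
    linarith
  have hl : 1.04716 ≤ hh 6 := by
    have h := (hh_bds hb1).1
    norm_num at h ⊢
    linarith
  have hu : hh 6 ≤ 1.0472 := by
    have h := (hh_bds hb1).2
    norm_num at h ⊢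
    linarith
  have hrc3 : 1.2402 * (1 + (β * r) ^ 2) ≤ r := by nlinarith [sq_nonneg (β * r)]
  have e_u0 : c6_3.num.u0 = 21 / 20 := by norm_num [c6_3, NumQ.num]
  have e_c0 : c6_3.num.c0 = 0.871 := by norm_num [c6_3, NumQ.num]
  have e_l1 : c6_3.num.l1 = 1 - 0.1 := by norm_num [c6_3, NumQ.num]
  have e_c1 : c6_3.num.c1 = 1.215 := by norm_num [c6_3, NumQ.num]
  have e_qL : c6_3.num.qL = -0.57 := by norm_num [c6_3, NumQ.num]
  have e_qR : c6_3.num.qR = -0.415 := by norm_num [c6_3, NumQ.num]
  have e_z4 : c6_3.num.z4 = -0.32 := by norm_num [c6_3, NumQ.num]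
  refine ⟨?_, ?_, ?_, ?_⟩
  · rw [e_qL, e_u0]
    refine f_hi0 (h0 := 1.04716) (h1 := 1.0472) (δq := 0.5968) hb1 hβ hr (by norm_num) (by norm_num) (by linarith) hl hu (by norm_num) (by norm_num)
      (by norm_num) (by linarith) ?_ rfl
    exact Or.inl (r0_of hrc h1 (by norm_num) (by norm_num) (by norm_num))
  · rw [e_qL, e_c0]
    refine f_lo0 (h1 := 1.0472) (δ := 0.596904) hb1 hr (by norm_num) (by norm_num) hu (by norm_num) (by norm_num) ?_
    intro t ht ht'
    rcases le_total (β * r) 1.98 with c0 | c0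
    · exact left_loN (ka := 1.732) (kb := 1.98) (r0 := 19.84) (δ := 0.596904) (S := 0.2531) (X := 1.27969) (σ :=
        0.1965) (s' := 0.01) (X' := 1.01) (EL := 1.65897) (E1 := 1.28802) (ES := 1.65898) (EL' := 1.0202) (Es' :=
        1.02021) (e0 := 0.03383) (e1 := 0.03349) hβ hr (r0_of hrc h1 (by norm_num) (by norm_num) (by norm_num)) h1
        c0 ht ht' (exp_ge_of 7 (by norm_num) (by norm_num [Finset.sum_range_succ, Nat.factorial])) (exp_le_of 5 (by
        norm_num) (by norm_num) (by norm_num) (by norm_num [Finset.sum_range_succ, Nat.factorial])) (exp_le_of 4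
        (by norm_num) (by norm_num) (by norm_num) (by norm_num [Finset.sum_range_succ, Nat.factorial])) (exp_ge_of
        3 (by norm_num) (by norm_num [Finset.sum_range_succ, Nat.factorial])) (exp_le_of 3 (by norm_num) (by
        norm_num) (by norm_num) (by norm_num [Finset.sum_range_succ, Nat.factorial])) (by norm_num) (by norm_num)
        (by norm_num) (by norm_num) (by norm_num) (by norm_num) (by norm_num) (by norm_num) (by norm_num) (by
        norm_num) (by norm_num) (by norm_num) (by norm_num) (by norm_num) (by norm_num) (by norm_num) (by norm_num)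
        (by norm_num) (by norm_num) (by norm_num) (by norm_num) (by norm_num)
    exact left_lo_big (ka := 1.98) (r0 := 24.4) (δ := 0.596904) (e0 := 0.02751) hβ hr (r0_of hrc c0 (by norm_num)
      (by norm_num) (by norm_num)) (by norm_num) c0 ht ht' (by norm_num) (by norm_num) (by norm_num) (by norm_num)
      (by norm_num) (by norm_num) (by norm_num)
  · rw [e_qR, e_l1]
    refine f_lo1 (h1 := 1.0472) (τ := 0.7121) hb1 hr (by norm_num) (by norm_num) hu (by norm_num) (by norm_num) ?_
    intro t ht ht'
    have hv := rv3 hβ hr hrc3 (by linarith) ht (by linarith)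
    exact right_lo hβ hr0 (by linarith) ht (by linarith [Real.pi_gt_d2]) hv (by norm_num)
      (ylo_b3 hβ hr0 (by linarith) ht (by linarith))
  · rw [e_qR, e_z4, e_c1]
    refine f_hi1 (h1 := 1.0472) (τ := 0.7121) hb1 hr (by norm_num) (by norm_num) hu (by norm_num) (by norm_num) (by norm_num) ?_
    intro t ht ht'
    have htt : t < Real.pi / 2 := by linarith [Real.pi_gt_d2]
    have hv := rv3 hβ hr hrc3 (by linarith) ht (by linarith)
    rcases le_total (β * r) 2.76 with c0 | c0
    · exact right_hi_M4N (ka := 1.732) (kb := 2.76) (τ := 0.7121) (Y := 0.2979) (E1 := 0.742376) (E2 := 1.347027)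
        (E2' := 1.347028) (E3 := 0.55112) hβ hr0 ht h1 c0 ht' hv (exp_neg_le_of 7 (by norm_num) (by norm_num) (by
        norm_num [Finset.sum_range_succ, Nat.factorial])) (exp_ge_of 7 (by norm_num) (by norm_num
        [Finset.sum_range_succ, Nat.factorial])) (exp_le_of 5 (by norm_num) (by norm_num) (by norm_num) (by
        norm_num [Finset.sum_range_succ, Nat.factorial])) (by norm_num) (by norm_num) (by norm_num) (by norm_num)
        (by norm_num) (by norm_num) (by norm_num) (by norm_num) (by norm_num) (by norm_num) (by norm_num)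
    rcases le_total (β * r) 3.65 with c1 | c1
    · exact right_hi_M4N (ka := 2.76) (kb := 3.65) (τ := 0.7121) (Y := 0.2399) (E1 := 0.786707) (E2 := 1.271122)
        (E2' := 1.271123) (E3 := 0.618906) hβ hr0 ht c0 c1 ht' hv (exp_neg_le_of 6 (by norm_num) (by norm_num) (by
        norm_num [Finset.sum_range_succ, Nat.factorial])) (exp_ge_of 7 (by norm_num) (by norm_num
        [Finset.sum_range_succ, Nat.factorial])) (exp_le_of 5 (by norm_num) (by norm_num) (by norm_num) (by
        norm_num [Finset.sum_range_succ, Nat.factorial])) (by norm_num) (by norm_num) (by norm_num) (by norm_num)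
        (by norm_num) (by norm_num) (by norm_num) (by norm_num) (by norm_num) (by norm_num) (by norm_num)
    exact right_hi_M3 (ka := 3.65) (τ := 0.7121) hβ hr0 ht htt (by norm_num) c1 ht' (by norm_num) (by norm_num) hv
      (by norm_num) (by norm_num) (by norm_num)

end Sok.R2
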