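import Pool.Agent.Lib.MP_816dec_an.R2N5
import Pool.Agent.Lib.MP_816dec_an.R2Cls

/-!
MP_816dec_an (rows N1, R2): `NearH` for the classes near7_2 (helper40; split by helper24).
-/

set_option autoImplicit false

open Complex Set Filter Topology

namespace Sok.R2

open Sok.Mid Sok.N1

theorem near7_2 {b : ℕ} {β r : ℝ} (hb : b = 7) (hβ : 0 < β) (hr : 10 ≤ r) (hT : c7_2.num.T0 ≤ TT b β r)
    (h1 : (433 / 250 : ℝ) ≤ β * r) (h2 : β * r ≤ 20) : NearH b β r (-2 * (b : ℤ) + 2) 2 c7_2.num := by
  subst hb
  have hb1 : (1 : ℕ) ≤ 7 := by norm_num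
  have hT1 : (5.441 : ℝ) ≤ TT 7 β r := le_trans (by norm_num [c7_2, NumQ.num]) hT
  have hr0 : 0 < r := by linarith
  replace h1 : 1.732 ≤ β * r := by norm_num at h1 ⊢; linarith
  replace h2 : β * r ≤ 20 := by norm_num at h2 ⊢; linarith
  have hrc : 6.7522 * (1 + (β * r) ^ 2) ≤ r := by
    have h := rc_of hb1 hT1
    norm_num at h ⊢
    linarith
  have hl : 0.89757 ≤ hh 7 := by
    have h := (hh_bds hb1).1
    norm_num at h ⊢
    linarith
  have hu : hh 7 ≤ 0.8976 := by
    have h := (hh_bds hb1).2
    norm_num at h ⊢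
    linarith
  have hrc3 : 1.2402 * (1 + (β * r) ^ 2) ≤ r := by nlinarith [sq_nonneg (β * r)]
  have e_u0 : c7_2.num.u0 = 21 / 20 := by norm_num [c7_2, NumQ.num]
  have e_c0 : c7_2.num.c0 = 0.884 := by norm_num [c7_2, NumQ.num]
  have e_l1 : c7_2.num.l1 = 1 - 0.1 := by norm_num [c7_2, NumQ.num]
  have e_c1 : c7_2.num.c1 = 1.196 := by norm_num [c7_2, NumQ.num]
  have e_qL : c7_2.num.qL = -0.565 := by norm_num [c7_2, NumQ.num]
  have e_qR : c7_2.num.qR = -0.425 := by norm_num [c7_2, NumQ.num]
  have e_z4 : c7_2.num.z4 = -0.32 := by norm_num [c7_2, NumQ.num]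
  refine ⟨?_, ?_, ?_, ?_⟩
  · rw [e_qL, e_u0]
    refine f_hi0 (h0 := 0.89757) (h1 := 0.8976) (δq := 0.5071) hb1 hβ hr (by norm_num) (by norm_num) (by linarith) hl hu (by norm_num) (by norm_num)
      (by norm_num) (by linarith) ?_ rfl
    exact Or.inl (r0_of hrc h1 (by norm_num) (by norm_num) (by norm_num))
  · rw [e_qL, e_c0]
    refine f_lo0 (h1 := 0.8976) (δ := 0.507144) hb1 hr (by norm_num) (by norm_num) hu (by norm_num) (by norm_num) ?_
    intro t ht ht'
    rcases le_total (β * r) 1.81 with c0 | c0
    · exact left_loN (ka := 1.732) (kb := 1.81) (r0 := 27) (δ := 0.507144) (S := 0.2163) (X := 1.23517) (σ :=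
        0.17422) (s' := 0.01) (X' := 1.01) (EL := 1.54125) (E1 := 1.24148) (ES := 1.54126) (EL' := 1.0202) (Es' :=
        1.02021) (e0 := 0.02486) (e1 := 0.02461) hβ hr (r0_of hrc h1 (by norm_num) (by norm_num) (by norm_num)) h1
        c0 ht ht' (exp_ge_of 7 (by norm_num) (by norm_num [Finset.sum_range_succ, Nat.factorial])) (exp_le_of 6 (by
        norm_num) (by norm_num) (by norm_num) (by norm_num [Finset.sum_range_succ, Nat.factorial])) (exp_le_of 4
        (by norm_num) (by norm_num) (by norm_num) (by norm_num [Finset.sum_range_succ, Nat.factorial])) (exp_ge_of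
        3 (by norm_num) (by norm_num [Finset.sum_range_succ, Nat.factorial])) (exp_le_of 3 (by norm_num) (by
        norm_num) (by norm_num) (by norm_num [Finset.sum_range_succ, Nat.factorial])) (by norm_num) (by norm_num)
        (by norm_num) (by norm_num) (by norm_num) (by norm_num) (by norm_num) (by norm_num) (by norm_num) (by
        norm_num) (by norm_num) (by norm_num) (by norm_num) (by norm_num) (by norm_num) (by norm_num) (by norm_num)
        (by norm_num) (by norm_num) (by norm_num) (by norm_num) (by norm_num)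
    exact left_lo_big (ka := 1.81) (r0 := 28.87) (δ := 0.507144) (e0 := 0.02325) hβ hr (r0_of hrc c0 (by norm_num)
      (by norm_num) (by norm_num)) (by norm_num) c0 ht ht' (by norm_num) (by norm_num) (by norm_num) (by norm_num)
      (by norm_num) (by norm_num) (by norm_num)
  · rw [e_qR, e_l1]
    refine f_lo1 (h1 := 0.8976) (τ := 0.6104) hb1 hr (by norm_num) (by norm_num) hu (by norm_num) (by norm_num) ?_
    intro t ht ht'
    have hv := rv3 hβ hr hrc3 (by linarith) ht (by linarith)
    exact right_lo hβ hr0 (by linarith) ht (by linarith [Real.pi_gt_d2]) hv (by norm_num)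
      (ylo_b3 hβ hr0 (by linarith) ht (by linarith))
  · rw [e_qR, e_z4, e_c1]
    refine f_hi1 (h1 := 0.8976) (τ := 0.6104) hb1 hr (by norm_num) (by norm_num) hu (by norm_num) (by norm_num) (by norm_num) ?_
    intro t ht ht'
    have htt : t < Real.pi / 2 := by linarith [Real.pi_gt_d2]
    have hv := rv3 hβ hr hrc3 (by linarith) ht (by linarith)
    rcases le_total (β * r) 2.6 with c0 | c0
    · exact right_hi_M4N (ka := 1.732) (kb := 2.6) (τ := 0.6104) (Y := 0.2576) (E1 := 0.772905) (E2 := 1.293821)
        (E2' := 1.293822) (E3 := 0.59738) hβ hr0 ht h1 c0 ht' hv (exp_neg_le_of 6 (by norm_num) (by norm_num) (by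
        norm_num [Finset.sum_range_succ, Nat.factorial])) (exp_ge_of 7 (by norm_num) (by norm_num
        [Finset.sum_range_succ, Nat.factorial])) (exp_le_of 5 (by norm_num) (by norm_num) (by norm_num) (by
        norm_num [Finset.sum_range_succ, Nat.factorial])) (by norm_num) (by norm_num) (by norm_num) (by norm_num)
        (by norm_num) (by norm_num) (by norm_num) (by norm_num) (by norm_num) (by norm_num) (by norm_num)
    rcases le_total (β * r) 3.37 with c1 | c1
    · exact right_hi_M4N (ka := 2.6) (kb := 3.37) (τ := 0.6104) (Y := 0.2129) (E1 := 0.808237) (E2 := 1.23726) (E2'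
        := 1.237261) (E3 := 0.653246) hβ hr0 ht c0 c1 ht' hv (exp_neg_le_of 7 (by norm_num) (by norm_num) (by
        norm_num [Finset.sum_range_succ, Nat.factorial])) (exp_ge_of 6 (by norm_num) (by norm_num
        [Finset.sum_range_succ, Nat.factorial])) (exp_le_of 5 (by norm_num) (by norm_num) (by norm_num) (by
        norm_num [Finset.sum_range_succ, Nat.factorial])) (by norm_num) (by norm_num) (by norm_num) (by norm_num)
        (by norm_num) (by norm_num) (by norm_num) (by norm_num) (by norm_num) (by norm_num) (by norm_num)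
    rcases le_total (β * r) 3.67 with c2 | c2
    · exact right_hi_M4N (ka := 3.37) (kb := 3.67) (τ := 0.6104) (Y := 0.1757) (E1 := 0.83887) (E2 := 1.19208) (E2'
        := 1.192081) (E3 := 0.703701) hβ hr0 ht c1 c2 ht' hv (exp_neg_le_of 6 (by norm_num) (by norm_num) (by
        norm_num [Finset.sum_range_succ, Nat.factorial])) (exp_ge_of 6 (by norm_num) (by norm_num
        [Finset.sum_range_succ, Nat.factorial])) (exp_le_of 5 (by norm_num) (by norm_num) (by norm_num) (by
        norm_num [Finset.sum_range_succ, Nat.factorial])) (by norm_num) (by norm_num) (by norm_num) (by norm_num)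
        (by norm_num) (by norm_num) (by norm_num) (by norm_num) (by norm_num) (by norm_num) (by norm_num)
    exact right_hi_M3 (ka := 3.67) (τ := 0.6104) hβ hr0 ht htt (by norm_num) c2 ht' (by norm_num) (by norm_num) hv
      (by norm_num) (by norm_num) (by norm_num)

end Sok.R2
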