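import Pool.Agent.Lib.MP_816dec_an.R2N5
import Pool.Agent.Lib.MP_816dec_an.R2Cls

/-!
MP_816dec_an (rows N1, R2): `NearH` for the classes near8_1 (helper40; split by helper24).
-/

set_option autoImplicit false

open Complex Set Filter Topology

namespace Sok.R2

open Sok.Mid Sok.N1

theorem near8_1 {b : ℕ} {β r : ℝ} (hb : 8 ≤ b) (hβ : 0 < β) (hr : 10 ≤ r) (hT : c8_1.num.T0 ≤ TT b β r)
    (h1 : (139 / 100 : ℝ) ≤ β * r) (h2 : β * r ≤ 433 / 250) : NearH b β r (-2 * (b : ℤ) + 2) 2 c8_1.num := by
  have hb1 : (1 : ℕ) ≤ b := by omega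
  have hT1 : (5.441 : ℝ) ≤ TT b β r := le_trans (by norm_num [c8_1, NumQ.num]) hT
  have hr0 : 0 < r := by linarith
  replace h1 : 1.39 ≤ β * r := by norm_num at h1 ⊢; linarith
  replace h2 : β * r ≤ 1.732 := by norm_num at h2 ⊢; linarith
  have hb8 : (8 : ℝ) ≤ b := by exact_mod_cast hb
  have hrc : 8.8192 * (1 + (β * r) ^ 2) ≤ r := by
    have h := rc_of hb1 hT1
    have h3 : (64 : ℝ) ≤ (b : ℝ) ^ 2 := by nlinarith
    have h4 : 64 * (1 + (β * r) ^ 2) ≤ (b : ℝ) ^ 2 * (1 + (β * r) ^ 2) := mul_le_mul_of_nonneg_right h3 (by positivity)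
    linarith
  have hl : 0 ≤ hh b := (hh_pos hb1).le
  have hu : hh b ≤ 0.7854 := by
    refine (hh_bds hb1).2.trans ?_
    rw [div_le_iff₀ (by linarith)]
    linarith
  have hrc3 : 1.2402 * (1 + (β * r) ^ 2) ≤ r := by nlinarith [sq_nonneg (β * r)]
  have e_u0 : c8_1.num.u0 = 21 / 20 := by norm_num [c8_1, NumQ.num]
  have e_c0 : c8_1.num.c0 = 0.896 := by norm_num [c8_1, NumQ.num]
  have e_l1 : c8_1.num.l1 = 1 - 0.1 := by norm_num [c8_1, NumQ.num]
  have e_c1 : c8_1.num.c1 = 1.15 := by norm_num [c8_1, NumQ.num]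
  have e_qL : c8_1.num.qL = -0.56 := by norm_num [c8_1, NumQ.num]
  have e_qR : c8_1.num.qR = -0.425 := by norm_num [c8_1, NumQ.num]
  have e_z4 : c8_1.num.z4 = -0.32 := by norm_num [c8_1, NumQ.num]
  refine ⟨?_, ?_, ?_, ?_⟩
  · rw [e_qL, e_u0]
    refine f_hi0 (h0 := 0) (h1 := 0.7854) (δq := 0) hb1 hβ hr (by omega) (by push_cast; omega) (by linarith) hl hu (by norm_num) (by norm_num)
      (by norm_num) (by linarith) ?_ rfl
    exact Or.inl (r0_of hrc h1 (by norm_num) (by norm_num) (by norm_num))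
  · rw [e_qL, e_c0]
    refine f_lo0 (h1 := 0.7854) (δ := 0.439824) hb1 hr (by omega) (by push_cast; omega) hu (by norm_num) (by norm_num) ?_
    intro t ht ht'
    exact left_loN (ka := 1.39) (kb := 1.732) (r0 := 25.85) (δ := 0.439824) (S := 0.213) (X := 1.22785) (σ :=
      0.17213) (s' := 0.01) (X' := 1.01) (EL := 1.53112) (E1 := 1.23739) (ES := 1.53113) (EL' := 1.0202) (Es' :=
      1.02021) (e0 := 0.02596) (e1 := 0.02571) hβ hr (r0_of hrc h1 (by norm_num) (by norm_num) (by norm_num)) h1 h2
      ht ht' (exp_ge_of 7 (by norm_num) (by norm_num [Finset.sum_range_succ, Nat.factorial])) (exp_le_of 5 (by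
      norm_num) (by norm_num) (by norm_num) (by norm_num [Finset.sum_range_succ, Nat.factorial])) (exp_le_of 4 (by
      norm_num) (by norm_num) (by norm_num) (by norm_num [Finset.sum_range_succ, Nat.factorial])) (exp_ge_of 3 (by
      norm_num) (by norm_num [Finset.sum_range_succ, Nat.factorial])) (exp_le_of 3 (by norm_num) (by norm_num) (by
      norm_num) (by norm_num [Finset.sum_range_succ, Nat.factorial])) (by norm_num) (by norm_num) (by norm_num) (by
      norm_num) (by norm_num) (by norm_num) (by norm_num) (by norm_num) (by norm_num) (by norm_num) (by norm_num)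
      (by norm_num) (by norm_num) (by norm_num) (by norm_num) (by norm_num) (by norm_num) (by norm_num) (by
      norm_num) (by norm_num) (by norm_num) (by norm_num)
  · rw [e_qR, e_l1]
    refine f_lo1 (h1 := 0.7854) (τ := 0.5341) hb1 hr (by omega) (by push_cast; omega) hu (by norm_num) (by norm_num) ?_
    intro t ht ht'
    have hv := rv3 hβ hr hrc3 (by linarith) ht (by linarith)
    exact right_lo hβ hr0 (by linarith) ht (by linarith [Real.pi_gt_d2]) hv (by norm_num)
      (ylo_b3 hβ hr0 (by linarith) ht (by linarith))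
  · rw [e_qR, e_z4, e_c1]
    refine f_hi1 (h1 := 0.7854) (τ := 0.5341) hb1 hr (by omega) (by push_cast; omega) hu (by norm_num) (by norm_num) (by norm_num) ?_
    intro t ht ht'
    have htt : t < Real.pi / 2 := by linarith [Real.pi_gt_d2]
    have hv := rv3 hβ hr hrc3 (by linarith) ht (by linarith)
    rcases le_total (β * r) 1.72 with c0 | c0
    · exact right_hi_M4N (ka := 1.39) (kb := 1.72) (τ := 0.5341) (Y := 0.2367) (E1 := 0.789229) (E2 := 1.26706)
        (E2' := 1.267061) (E3 := 0.62288) hβ hr0 ht h1 c0 ht' hv (exp_neg_le_of 6 (by norm_num) (by norm_num) (by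
        norm_num [Finset.sum_range_succ, Nat.factorial])) (exp_ge_of 6 (by norm_num) (by norm_num
        [Finset.sum_range_succ, Nat.factorial])) (exp_le_of 6 (by norm_num) (by norm_num) (by norm_num) (by
        norm_num [Finset.sum_range_succ, Nat.factorial])) (by norm_num) (by norm_num) (by norm_num) (by norm_num)
        (by norm_num) (by norm_num) (by norm_num) (by norm_num) (by norm_num) (by norm_num) (by norm_num)
    exact right_hi_M4N (ka := 1.72) (kb := 1.732) (τ := 0.5341) (Y := 0.2272) (E1 := 0.796762) (E2 := 1.25508) (E2'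
      := 1.255081) (E3 := 0.634828) hβ hr0 ht c0 h2 ht' hv (exp_neg_le_of 6 (by norm_num) (by norm_num) (by
      norm_num [Finset.sum_range_succ, Nat.factorial])) (exp_ge_of 6 (by norm_num) (by norm_num
      [Finset.sum_range_succ, Nat.factorial])) (exp_le_of 5 (by norm_num) (by norm_num) (by norm_num) (by norm_num
      [Finset.sum_range_succ, Nat.factorial])) (by norm_num) (by norm_num) (by norm_num) (by norm_num) (by
      norm_num) (by norm_num) (by norm_num) (by norm_num) (by norm_num) (by norm_num) (by norm_num)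

end Sok.R2
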