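import Pool.Agent.Lib.MP_816dec_an.R2NearC1
import Pool.Agent.Lib.MP_816dec_an.R2NearC2
import Pool.Agent.Lib.MP_816dec_an.R2NearC3
import Pool.Agent.Lib.MP_816dec_an.R2NearC4
import Pool.Agent.Lib.MP_816dec_an.R2NearC5
import Pool.Agent.Lib.MP_816dec_an.R2NearC6
import Pool.Agent.Lib.MP_816dec_an.R2NearC7

/-!
MP_816dec_an (rows N1, R2): `NearH` for the classes (b = 6, 7, 8): collection of the parts.
-/
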