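import Pool.Agent.Lib.MP_816dec_an.R2Gap

/-!
MP_816dec_an, row R2-D: the line lemma.

`Line κ h a S C`: on `[0, a h]` the drop `ev κ (z h)` is at least `h² (S z - C)`, and `yv κ (a h) ≥ h S`. It is built by
`Line.zero` and `Line.step` from a table of lower bounds of `lv`, and gives the same line for all `z ≥ 0` (`Line.ev_ge`)
and the bound of the tangent of height `v` (`Line.tangent`). The left side is in closed form (`ev_neg_ge`, `yv_neg_le`,
`tangent_neg`).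
-/

set_option autoImplicit false

open Set Filter Topology Real

namespace Sok

namespace R2

/-- the height of the tangent of slope `-v/κ`, at `t = 0` -/
noncomputable def Mv (κ v : ℝ) : ℝ := (Xk κ v + v * arctan (v / Xk κ v)) / κ

theorem lv_pos {κ τ : ℝ} (hκ : 1 ≤ κ) (hτ : τ < κ + π / 2) : 0 < lv κ τ :=
  Lk_pos (sy_spec (DomR_of hκ (by linarith : τ - κ < π / 2))).1

/-- Taylor lower bounds to the right of a point `τ0` -/
theorem taylor_right {κ τ0 τ l : ℝ} (hκ : 1 ≤ κ) (h0 : τ0 ≤ τ) (hp : τ < κ + π / 2)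
    (hl : ∀ σ, τ0 ≤ σ → σ ≤ τ → l ≤ lv κ σ) :
    yv κ τ0 + l * (τ - τ0) ≤ yv κ τ ∧ ev κ τ0 + yv κ τ0 * (τ - τ0) + l * (τ - τ0) ^ 2 / 2 ≤ ev κ τ := by
  have h5 : ∀ σ, σ < κ + π / 2 → HasDerivAt (fun τ => yv κ τ - l * (τ - τ0)) (lv κ σ - l * 1) σ := fun σ hσ =>
    (hasDerivAt_yv hκ hσ).sub (((hasDerivAt_id σ).sub_const τ0).const_mul l)
  have hm : MonotoneOn (fun τ => yv κ τ - l * (τ - τ0)) (Icc τ0 τ) := by
    apply monotoneOn_of_deriv_nonneg (convex_Icc _ _)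
    · intro σ hσ
      exact (h5 σ (lt_of_le_of_lt hσ.2 hp)).continuousAt.continuousWithinAt
    · intro σ hσ
      rw [interior_Icc] at hσ
      exact (h5 σ (hσ.2.trans hp)).differentiableAt.differentiableWithinAt
    · intro σ hσ
      rw [interior_Icc] at hσ
      rw [(h5 σ (hσ.2.trans hp)).deriv]
      have := hl σ hσ.1.le hσ.2.le
      linarith
  have hy : ∀ σ ∈ Icc τ0 τ, yv κ τ0 + l * (σ - τ0) ≤ yv κ σ := by
    intro σ hσ
    have h6 := hm (left_mem_Icc.2 h0) hσ hσ.1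
    simp only at h6
    rw [sub_self, mul_zero, sub_zero] at h6
    linarith
  have h6 : ∀ σ, σ < κ + π / 2 → HasDerivAt (fun τ => ev κ τ - yv κ τ0 * (τ - τ0) - l * (τ - τ0) ^ 2 / 2)
      (yv κ σ - yv κ τ0 - l * (σ - τ0)) σ := by
    intro σ hσ
    have h7 : HasDerivAt (fun τ : ℝ => l * (τ - τ0) ^ 2 / 2) (l * (σ - τ0)) σ := by
      have := (((((hasDerivAt_id σ).sub_const τ0)).pow 2).const_mul l).div_const 2
      refine this.congr_deriv ?_
      simp only [Nat.cast_ofNat, Nat.add_one_sub_one, pow_one, id_eq]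
      ring
    have h8 : HasDerivAt (fun τ : ℝ => yv κ τ0 * (τ - τ0)) (yv κ τ0 * 1) σ :=
      ((hasDerivAt_id σ).sub_const τ0).const_mul _
    refine (((hasDerivAt_ev hκ hσ).sub h8).sub h7).congr_deriv ?_
    ring
  have hm2 : MonotoneOn (fun τ => ev κ τ - yv κ τ0 * (τ - τ0) - l * (τ - τ0) ^ 2 / 2) (Icc τ0 τ) := by
    apply monotoneOn_of_deriv_nonneg (convex_Icc _ _)
    · intro σ hσ
      exact (h6 σ (lt_of_le_of_lt hσ.2 hp)).continuousAt.continuousWithinAt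
    · intro σ hσ
      rw [interior_Icc] at hσ
      exact (h6 σ (hσ.2.trans hp)).differentiableAt.differentiableWithinAt
    · intro σ hσ
      rw [interior_Icc] at hσ
      rw [(h6 σ (hσ.2.trans hp)).deriv]
      have := hy σ ⟨hσ.1.le, hσ.2.le⟩
      linarith
  have h7 := hm2 (left_mem_Icc.2 h0) (right_mem_Icc.2 h0) h0
  simp only [sub_self, mul_zero, sub_zero] at h7
  refine ⟨hy τ ⟨h0, le_rfl⟩, ?_⟩
  have e0 : l * (0:ℝ) ^ 2 / 2 = 0 := by ring
  rw [e0, sub_zero] at h7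
  linarith

/-- the lower line on `[0, a h]` -/
structure Line (κ h a S C : ℝ) : Prop where
  a0 : 0 ≤ a
  dom : a * h < κ + π / 2
  y : h * S ≤ yv κ (a * h)
  e : ∀ z, 0 ≤ z → z ≤ a → h ^ 2 * (S * z - C) ≤ ev κ (z * h)

theorem Line.zero {κ h : ℝ} (hκ : 1 ≤ κ) : Line κ h 0 0 0 where
  a0 := le_rfl
  dom := by rw [zero_mul]; linarith [pi_pos]
  y := by rw [zero_mul, yv_zero hκ]; simp
  e := by
    intro z h1 h2
    have : z = 0 := le_antisymm h2 h1
    have e : (z * h) = 0 := by rw [this, zero_mul]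
    rw [e, ev_zero hκ]
    simp

theorem Line.step {κ h a b S C l : ℝ} (hκ : 1 ≤ κ) (hh : 0 ≤ h) (L : Line κ h a S C) (hab : a ≤ b)
    (hb : b * h < κ + π / 2) (hl0 : 0 ≤ l) (hl : ∀ τ, a * h ≤ τ → τ ≤ b * h → l ≤ lv κ τ) :
    Line κ h b (S + l * (b - a)) (C + l * (b ^ 2 - a ^ 2) / 2) where
  a0 := L.a0.trans hab
  dom := hb
  y := by
    have h1 := (taylor_right hκ (mul_le_mul_of_nonneg_right hab hh) hb hl).1
    have h2 := L.y
    have e : h * (S + l * (b - a)) = h * S + l * (b * h - a * h) := by ring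
    rw [e]
    linarith
  e := by
    intro z h1 h2
    rcases le_total z a with h3 | h3
    · have h4 := L.e z h1 h3
      refine le_trans ?_ h4
      apply mul_le_mul_of_nonneg_left _ (sq_nonneg h)
      have h5 : 0 ≤ l * ((b - a) * ((a - z) + (b - z))) :=
        mul_nonneg hl0 (mul_nonneg (by linarith) (by linarith))
      nlinarith
    · have h4 := (taylor_right (l := l) hκ (mul_le_mul_of_nonneg_right h3 hh)
        (lt_of_le_of_lt (mul_le_mul_of_nonneg_right h2 hh) hb)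
        (fun σ hσ1 hσ2 => hl σ hσ1 (hσ2.trans (mul_le_mul_of_nonneg_right h2 hh)))).2
      have h5 := L.e a L.a0 le_rfl
      have h6 := mul_le_mul_of_nonneg_right L.y (by nlinarith : 0 ≤ z * h - a * h)
      refine le_trans ?_ h4
      have h7 : 0 ≤ h ^ 2 * (l * (b - z) ^ 2 / 2) := by positivity
      nlinarith

theorem Line.ev_ge {κ h a S C z : ℝ} (hκ : 1 ≤ κ) (hh : 0 ≤ h) (L : Line κ h a S C) (hz : 0 ≤ z)
    (hd : z * h < κ + π / 2) : h ^ 2 * (S * z - C) ≤ ev κ (z * h) := by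
  rcases le_total z a with h3 | h3
  · exact L.e z hz h3
  · have h4 := (taylor_right (l := 0) hκ (mul_le_mul_of_nonneg_right h3 hh) hd
      (fun σ _ hσ2 => (lv_pos hκ (lt_of_le_of_lt hσ2 hd)).le)).2
    have h5 := L.e a L.a0 le_rfl
    have h6 := mul_le_mul_of_nonneg_right L.y (by nlinarith : 0 ≤ z * h - a * h)
    nlinarith

theorem Line.yv_ge {κ h a S C z : ℝ} (hκ : 1 ≤ κ) (hh : 0 ≤ h) (L : Line κ h a S C) (hz : a ≤ z)
    (hd : z * h < κ + π / 2) : h * S ≤ yv κ (z * h) := by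
  have h4 := (taylor_right (l := 0) hκ (mul_le_mul_of_nonneg_right hz hh) hd
      (fun σ _ hσ2 => (lv_pos hκ (lt_of_le_of_lt hσ2 hd)).le)).1
  have := L.y
  linarith

/-- `(b, l) :: L` : `lv ≥ l` up to `b h`, then `L` -/
noncomputable def lS : ℝ → List (ℝ × ℝ) → ℝ
  | _, [] => 0
  | a, p :: L => p.2 * (p.1 - a) + lS p.1 L

noncomputable def lC : ℝ → List (ℝ × ℝ) → ℝ
  | _, [] => 0
  | a, p :: L => p.2 * (p.1 ^ 2 - a ^ 2) / 2 + lC p.1 L

noncomputable def lEnd : ℝ → List (ℝ × ℝ) → ℝ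
  | a, [] => a
  | _, p :: L => lEnd p.1 L

def lOK (κ h : ℝ) : ℝ → List (ℝ × ℝ) → Prop
  | _, [] => True
  | a, p :: L => a ≤ p.1 ∧ p.1 * h < κ + π / 2 ∧ 0 ≤ p.2 ∧ (∀ τ, a * h ≤ τ → τ ≤ p.1 * h → p.2 ≤ lv κ τ) ∧ lOK κ h p.1 L

theorem Line.list {κ h : ℝ} (hκ : 1 ≤ κ) (hh : 0 ≤ h) (P : List (ℝ × ℝ)) :
    ∀ {a S C : ℝ}, Line κ h a S C → lOK κ h a P → Line κ h (lEnd a P) (S + lS a P) (C + lC a P) := by
  induction P with
  | nil =>
    intro a S C L _
    simpa [lEnd, lS, lC] using L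
  | cons p P ih =>
    intro a S C L hP
    obtain ⟨h1, h2, h3, h4, h5⟩ := hP
    have := ih (L.step hκ hh h1 h2 h3 h4) h5
    simp only [lEnd, lS, lC]
    have e1 : S + (p.2 * (p.1 - a) + lS p.1 P) = S + p.2 * (p.1 - a) + lS p.1 P := by ring
    have e2 : C + (p.2 * (p.1 ^ 2 - a ^ 2) / 2 + lC p.1 P) = C + p.2 * (p.1 ^ 2 - a ^ 2) / 2 + lC p.1 P := by ring
    rw [e1, e2]
    exact this

/-- the height `v` of the line is admissible -/
theorem Line.Iy {κ h a S C v : ℝ} (hκ : 1 ≤ κ) (L : Line κ h a S C) (hv0 : 0 ≤ v)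
    (hv : (1 + κ ^ 2) * v ≤ κ * (h * S)) : Iy κ v := by
  have hk : 0 < κ := by linarith
  have h1 := (sy_spec (DomR_of hκ (by linarith [L.dom] : a * h - κ < π / 2))).1
  refine Iy.between (Iy.zero hk) h1 hv0 ?_
  have h2 := L.y
  unfold yv at h2
  rw [le_div_iff₀ hk] at h2
  have h3 : (1 + κ ^ 2) * v ≤ (1 + κ ^ 2) * sy κ (a * h - κ) := by linarith
  exact le_of_mul_le_mul_left h3 (by positivity)

/-- Legendre transform of `ev` at the height `v` -/
theorem legendre {κ v : ℝ} (hκ : 1 ≤ κ) (hI : Iy κ v) :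
    (1 + κ ^ 2) * (Mv κ v + v - 1) = (1 + κ ^ 2) * v / κ * (Tk κ v + κ) - ev κ (Tk κ v + κ) := by
  have hk : κ ≠ 0 := by linarith
  unfold ev sE sx
  rw [add_sub_cancel_right, sy_eq hI]
  unfold Mv Tk
  field_simp
  ring

/-- the tangent of height `v` -/
theorem Line.tangent {κ h a S C v : ℝ} (hκ : 1 ≤ κ) (hh : 0 < h) (L : Line κ h a S C) (hv0 : 0 ≤ v)
    (hv : (1 + κ ^ 2) * v = κ * (h * S)) : (1 + κ ^ 2) * (Mv κ v + v - 1) ≤ h ^ 2 * C := by
  have hk : 0 < κ := by linarith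
  have hI := L.Iy hκ hv0 hv.le
  rw [legendre hκ hI, hv]
  have h1 : Tk κ v < π / 2 := by
    unfold Tk
    have := arctan_lt_pi_div_two (v / Xk κ v)
    have := hI.xpos
    linarith
  have h2 : 0 ≤ Tk κ v + κ := by
    rcases eq_or_lt_of_le hv0 with h3 | h3
    · have h4 := sy_eq hI
      have h5 : Tk κ 0 = -κ := by
        have := (sy_spec (DomR_of hκ (by linarith [pi_pos] : -κ < π / 2))).2
        rwa [(sy_zero hκ).1] at this
      rw [← h3, h5]
      linarith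
    · have h5 : Tk κ 0 = -κ := by
        have := (sy_spec (DomR_of hκ (by linarith [pi_pos] : -κ < π / 2))).2
        rwa [(sy_zero hκ).1] at this
      have := Tk_strictMono (Iy.zero hk) hI h3
      linarith
  have h3 := L.ev_ge hκ hh.le (z := (Tk κ v + κ) / h) (div_nonneg h2 hh.le) (by
    rw [div_mul_cancel₀ _ hh.ne']; linarith)
  rw [div_mul_cancel₀ _ hh.ne'] at h3
  have e1 : κ * (h * S) / κ * (Tk κ v + κ) = h ^ 2 * (S * ((Tk κ v + κ) / h)) := by
    field_simp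
  rw [e1]
  linarith

/-! ### the left side -/

/-- `lv ≥ κ / (κ + σ)` on the left -/
theorem lv_neg_ge {κ σ : ℝ} (hκ : 1 ≤ κ) (hσ : 0 ≤ σ) : κ / (κ + σ) ≤ lv κ (-σ) := by
  have h1 := L_neg hκ (by linarith : -σ - κ ≤ -κ)
  have e : -(-σ - κ) = κ + σ := by ring
  rw [e] at h1
  exact h1

/-- the left side in closed form -/
theorem neg_side {κ σ : ℝ} (hκ : 1 ≤ κ) (hσ : 0 ≤ σ) :
    yv κ (-σ) ≤ -(κ * log (1 + σ / κ)) ∧
      κ ^ 2 * ((1 + σ / κ) * log (1 + σ / κ) - σ / κ) ≤ ev κ (-σ) := by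
  have hk : 0 < κ := by linarith
  have hp : ∀ τ : ℝ, 0 ≤ τ → -τ < κ + π / 2 := fun τ hτ => by linarith [pi_pos]
  have hu : ∀ s : ℝ, 0 ≤ s → HasDerivAt (fun s : ℝ => 1 + s / κ) (1 / κ) s := fun s _ =>
    ((hasDerivAt_id s).div_const κ).const_add 1
  have hpos : ∀ s : ℝ, 0 ≤ s → 0 < 1 + s / κ := fun s hs => by positivity
  have h5 : ∀ s : ℝ, 0 ≤ s → HasDerivAt (fun s => -yv κ (-s) - κ * log (1 + s / κ)) (lv κ (-s) - κ / (κ + s)) s := by
    intro s hs
    have h1 := ((hasDerivAt_yv hκ (hp s hs)).comp s (hasDerivAt_neg s)).neg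
    have h2 := ((hu s hs).log (hpos s hs).ne').const_mul κ
    refine (h1.sub h2).congr_deriv ?_
    have := hpos s hs
    field_simp
  have hm : MonotoneOn (fun s => -yv κ (-s) - κ * log (1 + s / κ)) (Icc 0 σ) := by
    apply monotoneOn_of_deriv_nonneg (convex_Icc _ _)
    · intro s hs
      exact (h5 s hs.1).continuousAt.continuousWithinAt
    · intro s hs
      rw [interior_Icc] at hs
      exact (h5 s hs.1.le).differentiableAt.differentiableWithinAt
    · intro s hs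
      rw [interior_Icc] at hs
      rw [(h5 s hs.1.le).deriv]
      have := lv_neg_ge hκ hs.1.le
      linarith
  have hy : ∀ s ∈ Icc 0 σ, yv κ (-s) ≤ -(κ * log (1 + s / κ)) := by
    intro s hs
    have h6 := hm (left_mem_Icc.2 hσ) hs hs.1
    simp only at h6
    rw [neg_zero, yv_zero hκ, zero_div, add_zero, log_one] at h6
    linarith
  have h6 : ∀ s : ℝ, 0 ≤ s → HasDerivAt (fun s => ev κ (-s) - κ ^ 2 * ((1 + s / κ) * log (1 + s / κ) - s / κ))
      (-yv κ (-s) - κ * log (1 + s / κ)) s := by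
    intro s hs
    have h1 := (hasDerivAt_ev hκ (hp s hs)).comp s (hasDerivAt_neg s)
    have h2 := (((hu s hs).mul ((hu s hs).log (hpos s hs).ne')).sub ((hasDerivAt_id s).div_const κ)).const_mul (κ ^ 2)
    refine (h1.sub h2).congr_deriv ?_
    have := hpos s hs
    field_simp
    ring
  have hm2 : MonotoneOn (fun s => ev κ (-s) - κ ^ 2 * ((1 + s / κ) * log (1 + s / κ) - s / κ)) (Icc 0 σ) := by
    apply monotoneOn_of_deriv_nonneg (convex_Icc _ _)
    · intro s hs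
      exact (h6 s hs.1).continuousAt.continuousWithinAt
    · intro s hs
      rw [interior_Icc] at hs
      exact (h6 s hs.1.le).differentiableAt.differentiableWithinAt
    · intro s hs
      rw [interior_Icc] at hs
      rw [(h6 s hs.1.le).deriv]
      have := hy s ⟨hs.1.le, hs.2.le⟩
      linarith
  have h7 := hm2 (left_mem_Icc.2 hσ) (right_mem_Icc.2 hσ) hσ
  simp only at h7
  rw [neg_zero, ev_zero hκ, zero_div, add_zero, log_one] at h7
  refine ⟨hy σ ⟨hσ, le_rfl⟩, ?_⟩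
  linarith

/-- the left side in units of `h`, `H = h / κ` -/
theorem ev_neg_ge {κ h z : ℝ} (hκ : 1 ≤ κ) (hh : 0 ≤ h) (hz : 0 ≤ z) :
    κ ^ 2 * ((1 + z * (h / κ)) * log (1 + z * (h / κ)) - z * (h / κ)) ≤ ev κ (-(z * h)) := by
  have := (neg_side hκ (mul_nonneg hz hh)).2
  rwa [mul_div_assoc] at this

theorem yv_neg_le {κ h z : ℝ} (hκ : 1 ≤ κ) (hh : 0 ≤ h) (hz : 0 ≤ z) :
    yv κ (-(z * h)) ≤ -(κ * log (1 + z * (h / κ))) := by
  have := (neg_side hκ (mul_nonneg hz hh)).1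
  rwa [mul_div_assoc] at this

/-- the Legendre bound `(1 + u) log (1 + u) - u ≥ g u - (e^g - 1 - g)` -/
theorem leg_log {u g : ℝ} (hu : 0 ≤ u) : g * u - (exp g - 1 - g) ≤ (1 + u) * log (1 + u) - u := by
  have h1 : 0 < 1 + u := by linarith
  have h2 : g - log (1 + u) + 1 ≤ exp (g - log (1 + u)) := add_one_le_exp _
  rw [exp_sub, exp_log h1] at h2
  have h3 := mul_le_mul_of_nonneg_right h2 h1.le
  rw [div_mul_cancel₀ _ h1.ne'] at h3
  nlinarith

/-- a line on the left, of any slope -/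
theorem ev_neg_line {κ h z S : ℝ} (hκ : 1 ≤ κ) (hh : 0 ≤ h) (hz : 0 ≤ z) :
    h ^ 2 * (S * z) - κ ^ 2 * (exp (S * (h / κ)) - 1 - S * (h / κ)) ≤ ev κ (-(z * h)) := by
  have hk : κ ≠ 0 := by linarith
  have h1 := ev_neg_ge hκ hh hz
  have h2 := mul_le_mul_of_nonneg_left (leg_log (u := z * (h / κ)) (g := S * (h / κ))
    (mul_nonneg hz (div_nonneg hh (by linarith)))) (sq_nonneg κ)
  have e : κ ^ 2 * (S * (h / κ) * (z * (h / κ)) - (exp (S * (h / κ)) - 1 - S * (h / κ))) =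
      h ^ 2 * (S * z) - κ ^ 2 * (exp (S * (h / κ)) - 1 - S * (h / κ)) := by
    field_simp
  rw [e] at h2
  exact h2.trans h1

theorem Iy_neg {κ v : ℝ} (hκ : 1 ≤ κ) (hv : v ≤ 0) : Iy κ v := by
  have h1 : exp (-1 : ℝ) < 1 := by rw [exp_lt_one_iff]; norm_num
  refine ⟨?_, Or.inl (by linarith)⟩
  have h2 := mul_exp_neg_le (-v)
  rw [neg_neg] at h2
  rw [abs_of_nonpos hv]
  linarith

/-- the tangent of height `v ≤ 0` -/
theorem tangent_neg {κ v : ℝ} (hκ : 1 ≤ κ) (hv : v ≤ 0) :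
    (1 + κ ^ 2) * (Mv κ v + v - 1) ≤
      κ ^ 2 * (exp ((1 + κ ^ 2) * (-v) / κ ^ 2) - 1 - (1 + κ ^ 2) * (-v) / κ ^ 2) := by
  have hk : 0 < κ := by linarith
  have hI := Iy_neg hκ hv
  have h2 : Tk κ v + κ ≤ 0 := by
    have h5 : Tk κ 0 = -κ := by
      have := (sy_spec (DomR_of hκ (by linarith [pi_pos] : -κ < π / 2))).2
      rwa [(sy_zero hκ).1] at this
    rcases eq_or_lt_of_le hv with h3 | h3
    · rw [h3, h5]
      linarith
    · have := Tk_strictMono hI (Iy.zero hk) h3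
      linarith
  rw [legendre hκ hI]
  have h3 := (neg_side hκ (by linarith : 0 ≤ -(Tk κ v + κ))).2
  rw [neg_neg] at h3
  have h4 := mul_le_mul_of_nonneg_left (leg_log (u := -(Tk κ v + κ) / κ) (g := (1 + κ ^ 2) * (-v) / κ ^ 2)
    (div_nonneg (by linarith) hk.le)) (sq_nonneg κ)
  have e : κ ^ 2 * ((1 + κ ^ 2) * (-v) / κ ^ 2 * (-(Tk κ v + κ) / κ) -
      (exp ((1 + κ ^ 2) * (-v) / κ ^ 2) - 1 - (1 + κ ^ 2) * (-v) / κ ^ 2)) =
      (1 + κ ^ 2) * v / κ * (Tk κ v + κ) -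
        κ ^ 2 * (exp ((1 + κ ^ 2) * (-v) / κ ^ 2) - 1 - (1 + κ ^ 2) * (-v) / κ ^ 2) := by
    field_simp
  rw [e] at h4
  linarith

/-- the same in units: `(1 + κ²)(-v) = κ h S` -/
theorem tangent_neg' {κ h S v : ℝ} (hκ : 1 ≤ κ) (hv : v ≤ 0) (hS : (1 + κ ^ 2) * (-v) = κ * (h * S)) :
    (1 + κ ^ 2) * (Mv κ v + v - 1) ≤ κ ^ 2 * (exp (S * (h / κ)) - 1 - S * (h / κ)) := by
  have h1 := tangent_neg hκ hv
  have hk : κ ≠ 0 := by linarith
  have e : (1 + κ ^ 2) * (-v) / κ ^ 2 = S * (h / κ) := by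
    rw [hS]
    field_simp
  rwa [e] at h1

/-- `Mv` through the angle: `κ sin w = v e^v`, `x = κ e^{-v} cos w` -/
theorem Mv_spec {κ v : ℝ} (hI : Iy κ v) :
    κ * sin (arctan (v / Xk κ v)) = v * exp v ∧ κ * cos (arctan (v / Xk κ v)) = Xk κ v * exp v := by
  have hx := hI.xpos
  have hk := hI.kpos
  have h1 : sqrt (1 + (v / Xk κ v) ^ 2) = κ * exp (-v) / Xk κ v := by
    rw [sqrt_eq_iff_mul_self_eq (by positivity) (by positivity)]
    have h2 := x_sq_add hI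
    have h3 : exp (-2 * v) = exp (-v) ^ 2 := by rw [← exp_nat_mul]; norm_num
    rw [h3] at h2
    field_simp
    linarith
  have h4 : exp (-v) * exp v = 1 := by rw [← exp_add]; simp
  rw [sin_arctan, cos_arctan, h1]
  have he := exp_pos (-v)
  constructor
  · have e : κ * (v / Xk κ v / (κ * exp (-v) / Xk κ v)) = v / exp (-v) := by field_simp
    rw [e, div_eq_iff he.ne', mul_assoc, mul_comm (exp v), h4, mul_one]
  · have e : κ * (1 / (κ * exp (-v) / Xk κ v)) = Xk κ v / exp (-v) := by field_simp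
    rw [e, div_eq_iff he.ne', mul_assoc, mul_comm (exp v), h4, mul_one]

end R2

end Sok
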