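import Pool.Agent.Lib.MP_816dec_an.R2Sharp
import Pool.Agent.Lib.MP_816dec_an.R2Line

/-!
MP_816dec_an, row R2 (5), (6): numeric form of the lower lines and of the slope difference `μ`.
-/

set_option autoImplicit false

open Set Filter Topology Real

namespace Sok

namespace R2

theorem Line.weaken {κ h a S C S' C' : ℝ} (hh : 0 ≤ h) (L : Line κ h a S C) (hS : S' ≤ S) (hC : C ≤ C') :
    Line κ h a S' C' where
  a0 := L.a0
  dom := L.dom
  y := (mul_le_mul_of_nonneg_left hS hh).trans L.y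
  e := by
    intro z h1 h2
    refine le_trans ?_ (L.e z h1 h2)
    apply mul_le_mul_of_nonneg_left _ (sq_nonneg h)
    nlinarith

/-- one step with rational data: `lv ≥ l` on `[0, τm]`, `b h ≤ τm` -/
theorem Line.stepN {κ h a b S C l τm S' C' : ℝ} (hκ : 1 ≤ κ) (hh : 0 ≤ h) (L : Line κ h a S C) (hab : a ≤ b)
    (hl0 : 0 ≤ l) (hl : ∀ τ, 0 ≤ τ → τ ≤ τm → l ≤ lv κ τ) (hb : b * h ≤ τm) (hd : τm < κ + π / 2)
    (hS : S' ≤ S + l * (b - a)) (hC : C + l * (b ^ 2 - a ^ 2) / 2 ≤ C') : Line κ h b S' C' :=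
  (L.step hκ hh hab (lt_of_le_of_lt hb hd) hl0 (fun τ h1 h2 => hl τ ((mul_nonneg L.a0 hh).trans h1) (h2.trans hb))).weaken
    hh hS hC

theorem exp_le_bd {y Fh : ℝ} (hy : 0 ≤ y) (hy2 : y ≤ 2)
    (h2 : (∑ i ∈ Finset.range 8, (y / 2) ^ i / (i.factorial : ℝ) +
      (y / 2) ^ 8 * (8 + 1) / ((Nat.factorial 8 : ℝ) * 8)) ^ 2 ≤ Fh) : exp y ≤ Fh := by
  refine (exp_bds (Fl := 0) hy hy2 ?_ h2).2
  exact Finset.sum_nonneg fun i _ => by positivity

/-- `log (1 + w H) ≥ m H` for `0 < H ≤ H₁` from the value at `H₁` -/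
theorem log_ge_of {w m H H₁ : ℝ} (hw : 0 ≤ w) (hH : 0 < H) (hH1 : H ≤ H₁) (h : exp (m * H₁) ≤ 1 + w * H₁) :
    m * H ≤ log (1 + w * H) := by
  have hH1p : 0 < H₁ := by linarith
  have h1 : m * H₁ ≤ log (1 + w * H₁) := by
    rw [le_log_iff_exp_le (by positivity)]
    exact h
  have h2 := rpow_one_add_le_one_add_mul_self (s := w * H₁) (by nlinarith [mul_nonneg hw hH1p.le])
    (p := H / H₁) (by positivity) (by rw [div_le_one hH1p]; exact hH1)
  have e : H / H₁ * (w * H₁) = w * H := by field_simp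
  rw [e] at h2
  have h3 : log ((1 + w * H₁) ^ (H / H₁)) ≤ log (1 + w * H) :=
    log_le_log (rpow_pos_of_pos (by positivity) _) h2
  rw [log_rpow (by positivity)] at h3
  have h4 : H / H₁ * (m * H₁) ≤ H / H₁ * log (1 + w * H₁) := mul_le_mul_of_nonneg_left h1 (by positivity)
  have e2 : H / H₁ * (m * H₁) = m * H := by field_simp
  rw [e2] at h4
  linarith

/-- the slope difference on one piece -/
theorem mu_piece {κ h a p q S C l τm H₁ mp mq μ : ℝ} (hκ : 1 ≤ κ) (hh : 0 < h) (hH : h ≤ H₁ * κ)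
    (L : Line κ h a S C) (hap : a ≤ 1 + p) (hpq : p < q) (hq : q ≤ 0)
    (hl : ∀ τ, 0 ≤ τ → τ ≤ τm → l ≤ lv κ τ) (hb : (1 + q) * h ≤ τm) (hd : τm < κ + π / 2)
    (hp : exp (mp * H₁) ≤ 1 + -p * H₁) (hq' : exp (mq * H₁) ≤ 1 + -q * H₁)
    (h1 : μ ≤ S + l * (1 + p - a) + mp) (h2 : μ ≤ S + l * (1 + q - a) + mq) :
    ∀ z ∈ Icc p q, μ ≤ yv κ ((z + 1) * h) / h - yv κ (z * h) / h := by
  intro z hz
  have hk : 0 < κ := by linarith
  obtain ⟨H, hHd⟩ : ∃ H, H = h / κ := ⟨_, rfl⟩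
  have hH0 : 0 < H := by rw [hHd]; positivity
  have hHle : H ≤ H₁ := by rw [hHd, div_le_iff₀ hk]; exact hH
  have hp0 : 0 ≤ -p := by linarith
  have hq0 : 0 ≤ -q := by linarith
  have hz0 : 0 ≤ -z := by linarith [hz.2]
  have l1 := log_ge_of hp0 hH0 hHle hp
  have l2 := log_ge_of hq0 hH0 hHle hq'
  -- interpolation
  obtain ⟨s, hs⟩ : ∃ s, s = (z - p) / (q - p) := ⟨_, rfl⟩
  have hqp : 0 < q - p := by linarith
  have hs0 : 0 ≤ s := by rw [hs]; exact div_nonneg (by linarith [hz.1]) hqp.le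
  have hs1 : s ≤ 1 := by rw [hs, div_le_one hqp]; linarith [hz.2]
  have hzs : z = (1 - s) * p + s * q := by rw [hs]; field_simp; ring
  have l3 : (1 - s) * log (1 + -p * H) + s * log (1 + -q * H) ≤ log (1 + -z * H) := by
    have := strictConcaveOn_log_Ioi.concaveOn.2 (x := 1 + -p * H) (by simp only [mem_Ioi]; positivity)
      (y := 1 + -q * H) (by simp only [mem_Ioi]; positivity) (by linarith : 0 ≤ 1 - s) hs0 (by ring)
    simp only [smul_eq_mul] at this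
    refine this.trans (le_of_eq ?_)
    congr 1
    rw [hzs]; ring
  -- the left part
  have h3 := yv_neg_le (z := -z) hκ hh.le hz0
  rw [← hHd] at h3
  have e3 : -(-z * h) = z * h := by ring
  rw [e3] at h3
  have h4 : (1 - s) * mp + s * mq ≤ -(yv κ (z * h) / h) := by
    have h5 : (1 - s) * (mp * H) + s * (mq * H) ≤ log (1 + -z * H) := by
      refine le_trans (add_le_add (mul_le_mul_of_nonneg_left l1 (by linarith)) (mul_le_mul_of_nonneg_left l2 hs0)) l3
    have h6 : κ * ((1 - s) * (mp * H) + s * (mq * H)) ≤ -yv κ (z * h) := by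
      have := mul_le_mul_of_nonneg_left h5 hk.le
      linarith
    rw [← neg_div, le_div_iff₀ hh]
    refine le_trans (le_of_eq ?_) h6
    rw [hHd]; field_simp
  -- the right part
  have h5 : S + l * (1 + z - a) ≤ yv κ ((z + 1) * h) / h := by
    have hz1 : (z + 1) * h ≤ τm := le_trans (mul_le_mul_of_nonneg_right (by linarith [hz.2]) hh.le) hb
    have h6 := (taylor_right (l := l) (τ0 := a * h) (τ := (z + 1) * h) hκ
      (mul_le_mul_of_nonneg_right (by linarith [hz.1]) hh.le) (lt_of_le_of_lt hz1 hd)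
      (fun σ hσ1 hσ2 => hl σ ((mul_nonneg L.a0 hh.le).trans hσ1) (hσ2.trans hz1))).1
    rw [le_div_iff₀ hh]
    have h7 := L.y
    nlinarith
  have h6 : μ ≤ (1 - s) * (S + l * (1 + p - a) + mp) + s * (S + l * (1 + q - a) + mq) := by
    have h8 := mul_le_mul_of_nonneg_left h1 (by linarith : 0 ≤ 1 - s)
    have h9 := mul_le_mul_of_nonneg_left h2 hs0
    linarith
  have h7 : (1 - s) * (S + l * (1 + p - a) + mp) + s * (S + l * (1 + q - a) + mq) =
      (S + l * (1 + z - a)) + ((1 - s) * mp + s * mq) := by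
    rw [hzs]; ring
  linarith

/-- gluing of two pieces -/
theorem mu_glue {κ h p q r μ : ℝ} (h1 : ∀ z ∈ Icc p q, μ ≤ yv κ ((z + 1) * h) / h - yv κ (z * h) / h)
    (h2 : ∀ z ∈ Icc q r, μ ≤ yv κ ((z + 1) * h) / h - yv κ (z * h) / h) :
    ∀ z ∈ Icc p r, μ ≤ yv κ ((z + 1) * h) / h - yv κ (z * h) / h := by
  intro z hz
  rcases le_total z q with h | h
  · exact h1 z ⟨hz.1, h⟩
  · exact h2 z ⟨h, hz.2⟩

/-- the data of the right lines of a class -/
structure LineData (κ h th S C Sr Cr qL qR f1R μ : ℝ) : Prop where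
  L : Line κ h th S C
  Lr : Line κ h (7 / 10) Sr Cr
  f1R : f1R ≤ ev κ ((qR + 1) * h) / h ^ 2
  mu : ∀ z ∈ Icc qL qR, μ ≤ yv κ ((z + 1) * h) / h - yv κ (z * h) / h

theorem Line.f1R {κ h a S C z f τm : ℝ} (hκ : 1 ≤ κ) (hh : 0 < h) (L : Line κ h a S C) (hz : 0 ≤ z)
    (hb : z * h ≤ τm) (hd : τm < κ + π / 2) (hf : f ≤ S * z - C) : f ≤ ev κ (z * h) / h ^ 2 := by
  rw [le_div_iff₀ (by positivity)]
  have h1 := L.ev_ge hκ hh.le hz (lt_of_le_of_lt hb hd)
  have h2 := mul_le_mul_of_nonneg_right hf (sq_nonneg h)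
  linarith

end R2

end Sok
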