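import Pool.Agent.Lib.MP_816dec_an.R2Gap

/-!
MP_816dec_an, row R2, item (5): upper bounds of the curvature `lv`.
-/

set_option autoImplicit false

open Set Filter Topology Real

namespace Sok

namespace R2

/-- reduction of `Lk κ y ≤ c` to a polynomial inequality in `K = κ²`, `G = e^{-2y}` -/
theorem Lk_le_of {κ y c : ℝ} (h : Iy κ y) (hc : 0 ≤ c)
    (hp : (1 + κ ^ 2) ^ 2 * (κ ^ 2 * exp (-2 * y) - y ^ 2) ≤ c ^ 2 * κ ^ 2 * (κ ^ 2 * exp (-2 * y) + (1 + 2 * y)) ^ 2) :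
    Lk κ y ≤ c := by
  have hx := h.xpos
  have hk := h.kpos
  have hD := D_pos h
  have hA := x_sq_add h
  have hx2 : Xk κ y ^ 2 = κ ^ 2 * exp (-2 * y) - y ^ 2 := by linarith
  have hD2 : Xk κ y ^ 2 + (1 + y) ^ 2 = κ ^ 2 * exp (-2 * y) + (1 + 2 * y) := by rw [hx2]; ring
  unfold Lk
  rw [div_le_iff₀ (by positivity)]
  rw [← hx2, ← hD2] at hp
  have h1 : ((1 + κ ^ 2) * Xk κ y) ^ 2 ≤ (c * (κ * (Xk κ y ^ 2 + (1 + y) ^ 2))) ^ 2 := by
    calc ((1 + κ ^ 2) * Xk κ y) ^ 2 = (1 + κ ^ 2) ^ 2 * Xk κ y ^ 2 := by ring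
      _ ≤ _ := hp
      _ = _ := by ring
  exact le_of_sq_le_sq h1 (by positivity) where
    le_of_sq_le_sq {a b : ℝ} (h : a ^ 2 ≤ b ^ 2) (hb : 0 ≤ b) : a ≤ b := by
      by_contra hcon
      push Not at hcon
      nlinarith

/-- left side, `κ ≥ √3` -/
theorem Lk_le_neg {κ y : ℝ} (hκ : 3 ≤ κ ^ 2) (h : Iy κ y) (hy : y ≤ 0) : Lk κ y ≤ 1 := by
  apply Lk_le_of h zero_le_one
  obtain ⟨u, hu⟩ : ∃ u, u = -y := ⟨_, rfl⟩
  have hu0 : 0 ≤ u := by linarith
  have hyu : y = -u := by linarith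
  obtain ⟨K, hK⟩ : ∃ K, K = κ ^ 2 := ⟨_, rfl⟩
  rw [← hK] at hκ ⊢
  obtain ⟨s, hs⟩ : ∃ s, s = exp (2 * u) - (1 + 2 * u + 2 * u ^ 2) := ⟨_, rfl⟩
  have hs0 : 0 ≤ s := by
    have := quadratic_le_exp_of_nonneg (x := 2 * u) (by linarith)
    rw [hs]; linarith
  have hG : exp (-2 * y) = 1 + 2 * u + 2 * u ^ 2 + s := by
    rw [hs, hyu]
    have : -2 * -u = 2 * u := by ring
    rw [this]; ring
  rw [hG, hyu]
  have e : 1 ^ 2 * K * (K * (1 + 2 * u + 2 * u ^ 2 + s) + (1 + 2 * -u)) ^ 2 -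
      (1 + K) ^ 2 * (K * (1 + 2 * u + 2 * u ^ 2 + s) - (-u) ^ 2) =
      2 * K * (K + 1) * (K - 3) * u + (6 * K ^ 3 - 7 * K ^ 2 + 4 * K + 1) * u ^ 2 + 8 * K ^ 2 * (K - 1) * u ^ 3 +
        4 * K ^ 3 * u ^ 4 + s * (K * ((K + 1) * (K - 1) + 4 * K * u * (K - 1) + 4 * K ^ 2 * u ^ 2)) + K ^ 3 * s ^ 2 := by
    ring
  have hK3 : 0 ≤ K - 3 := by linarith
  have hK1 : 0 ≤ K - 1 := by linarith
  have hK0 : 0 ≤ K := by linarith
  have hq : 0 ≤ 6 * K ^ 3 - 7 * K ^ 2 + 4 * K + 1 := by nlinarith [mul_nonneg (sq_nonneg K) hK3]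
  have hpos : 0 ≤ 2 * K * (K + 1) * (K - 3) * u + (6 * K ^ 3 - 7 * K ^ 2 + 4 * K + 1) * u ^ 2 + 8 * K ^ 2 * (K - 1) * u ^ 3 +
        4 * K ^ 3 * u ^ 4 + s * (K * ((K + 1) * (K - 1) + 4 * K * u * (K - 1) + 4 * K ^ 2 * u ^ 2)) + K ^ 3 * s ^ 2 := by
    positivity
  linarith

/-- left side, `κ ≥ 1.39` -/
theorem Lk_le_neg' {κ y : ℝ} (hκ : 139 / 100 ≤ κ) (h : Iy κ y) (hy : y ≤ 0) : Lk κ y ≤ 103 / 100 := by
  apply Lk_le_of h (by norm_num)
  obtain ⟨u, hu⟩ : ∃ u, u = -y := ⟨_, rfl⟩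
  have hu0 : 0 ≤ u := by linarith
  have hyu : y = -u := by linarith
  obtain ⟨K, hK⟩ : ∃ K, K = κ ^ 2 := ⟨_, rfl⟩
  have hKκ : 19321 / 10000 ≤ K := by rw [hK]; nlinarith
  rw [← hK]
  obtain ⟨s, hs⟩ : ∃ s, s = exp (2 * u) - (1 + 2 * u + 2 * u ^ 2) := ⟨_, rfl⟩
  have hs0 : 0 ≤ s := by
    have := quadratic_le_exp_of_nonneg (x := 2 * u) (by linarith)
    rw [hs]; linarith
  have hG : exp (-2 * y) = 1 + 2 * u + 2 * u ^ 2 + s := by
    rw [hs, hyu]
    have : -2 * -u = 2 * u := by ring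
    rw [this]; ring
  rw [hG, hyu]
  have e : (103 / 100) ^ 2 * K * (K * (1 + 2 * u + 2 * u ^ 2 + s) + (1 + 2 * -u)) ^ 2 -
      (1 + K) ^ 2 * (K * (1 + 2 * u + 2 * u ^ 2 + s) - (-u) ^ 2) =
      (609 / 10000 * K * (K + 1) ^ 2 + 2 * K * (K + 1) * (2 * (10609 / 10000) * (K - 1) - (K + 1)) * u +
        (4 * (10609 / 10000) * K * (2 * K ^ 2 - K + 1) - (K + 1) ^ 2 * (2 * K - 1)) * u ^ 2) +
        8 * (10609 / 10000) * K ^ 2 * (K - 1) * u ^ 3 +
        4 * (10609 / 10000) * K ^ 3 * u ^ 4 +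
        s * (K * (2 * (10609 / 10000) * K * (K + 1) - (K + 1) ^ 2 + 2 * (10609 / 10000) * K * (2 * u * (K - 1) + 2 * K * u ^ 2))) +
        10609 / 10000 * K ^ 3 * s ^ 2 := by
    ring
  have hK1 : 0 ≤ K - 1 := by linarith
  have hK0 : 0 ≤ K := by linarith
  have h1 : 0 ≤ 2 * (10609 / 10000) * K * (K + 1) - (K + 1) ^ 2 := by nlinarith
  -- the quadratic part
  have h2 : 0 ≤ 609 / 10000 * K * (K + 1) ^ 2 + 2 * K * (K + 1) * (2 * (10609 / 10000) * (K - 1) - (K + 1)) * u +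
        (4 * (10609 / 10000) * K * (2 * K ^ 2 - K + 1) - (K + 1) ^ 2 * (2 * K - 1)) * u ^ 2 := by
    obtain ⟨w, hw⟩ : ∃ w, w = K - 19321 / 10000 := ⟨_, rfl⟩
    have hw0 : 0 ≤ w := by linarith
    have hKw : K = w + 19321 / 10000 := by linarith
    -- `a₂ ≥ 4.01 K³`, `a₁ ≥ -.9884 K² (K+1)`
    have h3 : 2 * (10609 / 10000) * (K - 1) - (K + 1) ≥ -(4940 / 10000 * K) := by
      rw [hKw]; nlinarith
    have h4 : 401 / 100 * K ^ 3 ≤ 4 * (10609 / 10000) * K * (2 * K ^ 2 - K + 1) - (K + 1) ^ 2 * (2 * K - 1) := by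
      rw [hKw]; nlinarith [mul_nonneg hw0 (sq_nonneg w), sq_nonneg w]
    have h5 : -(9880 / 10000 * K ^ 2 * (K + 1) * u) ≤ 2 * K * (K + 1) * (2 * (10609 / 10000) * (K - 1) - (K + 1)) * u := by
      have h6 : 0 ≤ 2 * K * (K + 1) * u := by positivity
      nlinarith [mul_le_mul_of_nonneg_left h3 h6]
    have h7 : 401 / 100 * K ^ 3 * u ^ 2 ≤ (4 * (10609 / 10000) * K * (2 * K ^ 2 - K + 1) - (K + 1) ^ 2 * (2 * K - 1)) * u ^ 2 :=
      mul_le_mul_of_nonneg_right h4 (sq_nonneg u)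
    have h8 : 0 ≤ 609 / 10000 * K * (K + 1) ^ 2 - 9880 / 10000 * K ^ 2 * (K + 1) * u + 401 / 100 * K ^ 3 * u ^ 2 := by
      have : 609 / 10000 * K * (K + 1) ^ 2 - 9880 / 10000 * K ^ 2 * (K + 1) * u + 401 / 100 * K ^ 3 * u ^ 2 =
        K * (609 / 10000 * (K + 1) ^ 2 - 9880 / 10000 * (K + 1) * (K * u) + 401 / 100 * (K * u) ^ 2) := by ring
      rw [this]
      apply mul_nonneg hK0
      nlinarith [sq_nonneg (609 * (K + 1) - 4940 * (K * u)), sq_nonneg (K * u)]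
    linarith
  have h3 : 0 ≤ 8 * (10609 / 10000) * K ^ 2 * (K - 1) * u ^ 3 := by positivity
  have h4 : 0 ≤ 4 * (10609 / 10000) * K ^ 3 * u ^ 4 := by positivity
  have h5 : 0 ≤ s * (K * (2 * (10609 / 10000) * K * (K + 1) - (K + 1) ^ 2 + 2 * (10609 / 10000) * K * (2 * u * (K - 1) + 2 * K * u ^ 2))) := by
    positivity
  have h6 : 0 ≤ 10609 / 10000 * K ^ 3 * s ^ 2 := by positivity
  linarith

/-- right side, `κ ≤ √3` -/
theorem Lk_le_pos {κ y : ℝ} (hκ : κ ^ 2 ≤ 3) (h : Iy κ y) (hy : 0 ≤ y) : Lk κ y ≤ 1 := by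
  have hk := h.kpos
  have hI0 : Iy κ 0 := Iy.zero hk
  obtain ⟨q, hq⟩ : ∃ q, q = 1 / κ ^ 2 := ⟨_, rfl⟩
  have hq0 : 0 < q := by rw [hq]; positivity
  have hq3 : 1 / 3 ≤ q := by rw [hq]; exact one_div_le_one_div_of_le (by positivity) hκ
  obtain ⟨R, hR⟩ : ∃ R : ℝ → ℝ, R = fun y => (exp (-2 * y) - q * y ^ 2) / (exp (-2 * y) + q * (1 + 2 * y)) ^ 2 := ⟨_, rfl⟩
  have hLR : ∀ z, Iy κ z → Lk κ z = (1 + q) * sqrt (R z) := by
    intro z hz
    rw [Lk_q hz, hR, hq]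
  have hder : ∀ z, 0 ≤ z → HasDerivAt R (2 * exp (-2 * z) ^ 2 *
      (1 - q * ((3 + 3 * z + 2 * z ^ 2) * exp (2 * z)) - q ^ 2 * (z * exp (4 * z))) /
      (exp (-2 * z) + q * (1 + 2 * z)) ^ 3) z := by
    intro z hz
    have hg : HasDerivAt (fun z : ℝ => exp (-2 * z)) (exp (-2 * z) * (-2)) z := by
      have := ((hasDerivAt_id z).const_mul (-2 : ℝ)).exp
      simpa using this
    have hN : HasDerivAt (fun z : ℝ => exp (-2 * z) - q * z ^ 2) (exp (-2 * z) * (-2) - q * (2 * z)) z := by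
      have h2 : HasDerivAt (fun z : ℝ => z ^ 2) (2 * z) z := by simpa using hasDerivAt_pow 2 z
      exact hg.sub (h2.const_mul q)
    have hQ : HasDerivAt (fun z : ℝ => exp (-2 * z) + q * (1 + 2 * z)) (exp (-2 * z) * (-2) + q * 2) z := by
      have h2 : HasDerivAt (fun z : ℝ => 1 + 2 * z) 2 z := by
        simpa using ((hasDerivAt_id z).const_mul (2 : ℝ)).const_add 1
      exact hg.add (h2.const_mul q)
    have hQp : 0 < exp (-2 * z) + q * (1 + 2 * z) := by have := exp_pos (-2 * z); positivity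
    have h3 := hN.div (hQ.fun_pow 2) (by positivity)
    rw [hR]
    refine h3.congr_deriv ?_
    have e2 : exp (2 * z) = (exp (-2 * z))⁻¹ := by rw [← exp_neg]; congr 1; ring
    have e4 : exp (4 * z) = ((exp (-2 * z))⁻¹) ^ 2 := by
      rw [← exp_neg, ← exp_nat_mul]; congr 1; push_cast; ring
    rw [e2, e4]
    have hgp := exp_pos (-2 * z)
    obtain ⟨g, hgd⟩ : ∃ g, g = exp (-2 * z) := ⟨_, rfl⟩
    rw [← hgd] at hgp hQp ⊢
    simp only [Nat.cast_ofNat, Nat.add_one_sub_one, pow_one]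
    field_simp
    ring
  have hR0 : (1 + q) * sqrt (R 0) = 1 := by
    rw [hR]
    simp only [mul_zero, exp_zero, add_zero, mul_one]
    have : (1 - q * 0 ^ 2) / (1 + q) ^ 2 = (1 / (1 + q)) ^ 2 := by field_simp; ring
    rw [this, sqrt_sq (by positivity)]
    field_simp
  have h1 : AntitoneOn R (Icc 0 y) := by
    apply antitoneOn_of_deriv_nonpos (convex_Icc _ _)
    · intro z hz
      exact (hder z hz.1).continuousAt.continuousWithinAt
    · intro z hz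
      rw [interior_Icc] at hz
      exact (hder z hz.1.le).differentiableAt.differentiableWithinAt
    · intro z hz
      rw [interior_Icc] at hz
      have hz0 := hz.1
      rw [(hder z hz.1.le).deriv]
      have hQp : 0 < exp (-2 * z) + q * (1 + 2 * z) := by have := exp_pos (-2 * z); positivity
      apply div_nonpos_of_nonpos_of_nonneg _ (by positivity)
      apply mul_nonpos_of_nonneg_of_nonpos (by positivity)
      have h2 : 1 ≤ exp (2 * z) := one_le_exp (by linarith)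
      have h3 : 3 ≤ (3 + 3 * z + 2 * z ^ 2) * exp (2 * z) := by nlinarith [sq_nonneg z]
      have h4 : 0 ≤ q ^ 2 * (z * exp (4 * z)) := by positivity
      nlinarith
  have h2 := h1 (left_mem_Icc.2 hy) (right_mem_Icc.2 hy) hy
  rw [hLR y h]
  calc (1 + q) * sqrt (R y) ≤ (1 + q) * sqrt (R 0) := mul_le_mul_of_nonneg_left (sqrt_le_sqrt h2) (by positivity)
    _ = 1 := hR0

/-! ### the forms with `lv` -/

theorem lv_le_left {κ τ : ℝ} (h1 : 1 ≤ κ) (hκ : 3 ≤ κ ^ 2) (hτ : τ ≤ 0) : lv κ τ ≤ 1 := by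
  have hd := DomR_of h1 (by linarith [pi_pos] : τ - κ < π / 2)
  exact Lk_le_neg hκ (sy_spec hd).1 (sy_nonpos h1 (by linarith))

theorem lv_le_left' {κ τ : ℝ} (hκ : 139 / 100 ≤ κ) (hτ : τ ≤ 0) : lv κ τ ≤ 103 / 100 := by
  have h1 : 1 ≤ κ := by linarith
  have hd := DomR_of h1 (by linarith [pi_pos] : τ - κ < π / 2)
  exact Lk_le_neg' hκ (sy_spec hd).1 (sy_nonpos h1 (by linarith))

theorem lv_le_right {κ τ : ℝ} (h1 : 1 ≤ κ) (hκ : κ ^ 2 ≤ 3) (hτ : 0 ≤ τ) (hp : τ < κ + π / 2) : lv κ τ ≤ 1 := by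
  have hd := DomR_of h1 (by linarith : τ - κ < π / 2)
  exact Lk_le_pos hκ (sy_spec hd).1 (sy_nonneg h1 (by linarith) (by linarith))

/-! ### integrated forms -/

/-- `-yv ≤ c (-τ)`, `ev ≤ c τ² / 2` on the left, if `lv ≤ c` there -/
theorem ev_le_of_left {κ c τ : ℝ} (h1 : 1 ≤ κ) (hτ : τ ≤ 0) (hc : ∀ s, s ≤ 0 → lv κ s ≤ c) :
    c * τ ≤ yv κ τ ∧ ev κ τ ≤ c * τ ^ 2 / 2 := by
  have hpi := pi_pos
  have hy : ∀ s, s ≤ 0 → c * s ≤ yv κ s := by
    intro s hs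
    obtain ⟨f, hf⟩ : ∃ f : ℝ → ℝ, f = fun s => yv κ s - c * s := ⟨_, rfl⟩
    have hder : ∀ z, z ≤ 0 → HasDerivAt f (lv κ z - c) z := by
      intro z hz
      rw [hf]
      have h2 : HasDerivAt (fun s : ℝ => c * s) c z := by simpa using (hasDerivAt_id z).const_mul c
      exact (hasDerivAt_yv h1 (by linarith)).sub h2
    have h2 : AntitoneOn f (Iic 0) := by
      apply antitoneOn_of_deriv_nonpos (convex_Iic _)
      · intro z hz
        exact (hder z hz).continuousAt.continuousWithinAt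
      · intro z hz
        rw [interior_Iic] at hz
        exact (hder z (le_of_lt hz)).differentiableAt.differentiableWithinAt
      · intro z hz
        rw [interior_Iic] at hz
        rw [(hder z (le_of_lt hz)).deriv]
        linarith [hc z (le_of_lt hz)]
    have h3 := h2 (mem_Iic.2 hs) (mem_Iic.2 le_rfl) hs
    rw [hf] at h3
    simp only [mul_zero, yv_zero h1, sub_zero] at h3
    linarith
  refine ⟨hy τ hτ, ?_⟩
  obtain ⟨f, hf⟩ : ∃ f : ℝ → ℝ, f = fun s => ev κ s - c * s ^ 2 / 2 := ⟨_, rfl⟩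
  have hder : ∀ z, z ≤ 0 → HasDerivAt f (yv κ z - c * z) z := by
    intro z hz
    rw [hf]
    have h2 : HasDerivAt (fun s : ℝ => c * s ^ 2 / 2) (c * z) z := by
      have h3 : HasDerivAt (fun z : ℝ => z ^ 2) (2 * z) z := by simpa using hasDerivAt_pow 2 z
      refine ((h3.const_mul c).div_const 2).congr_deriv ?_
      ring
    exact (hasDerivAt_ev h1 (by linarith)).sub h2
  have h2 : MonotoneOn f (Iic 0) := by
    apply monotoneOn_of_deriv_nonneg (convex_Iic _)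
    · intro z hz
      exact (hder z hz).continuousAt.continuousWithinAt
    · intro z hz
      rw [interior_Iic] at hz
      exact (hder z (le_of_lt hz)).differentiableAt.differentiableWithinAt
    · intro z hz
      rw [interior_Iic] at hz
      rw [(hder z (le_of_lt hz)).deriv]
      linarith [hy z (le_of_lt hz)]
  have h3 := h2 (mem_Iic.2 hτ) (mem_Iic.2 le_rfl) hτ
  rw [hf] at h3
  have h4 : c * 0 ^ 2 / 2 = 0 := by ring
  simp only [h4, ev_zero h1, sub_zero] at h3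
  linarith

/-- `yv ≤ c τ`, `ev ≤ c τ² / 2` on `[0, τ]`, if `lv ≤ c` there -/
theorem ev_le_of_right {κ c τ : ℝ} (h1 : 1 ≤ κ) (h0 : 0 ≤ τ) (hp : τ < κ + π / 2)
    (hc : ∀ s, 0 ≤ s → s ≤ τ → lv κ s ≤ c) : yv κ τ ≤ c * τ ∧ ev κ τ ≤ c * τ ^ 2 / 2 := by
  have hpi := pi_pos
  have hy : ∀ s, 0 ≤ s → s ≤ τ → yv κ s ≤ c * s := by
    intro s hs hs'
    obtain ⟨f, hf⟩ : ∃ f : ℝ → ℝ, f = fun s => yv κ s - c * s := ⟨_, rfl⟩
    have hder : ∀ z, z ≤ τ → HasDerivAt f (lv κ z - c) z := by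
      intro z hz
      rw [hf]
      have h2 : HasDerivAt (fun s : ℝ => c * s) c z := by simpa using (hasDerivAt_id z).const_mul c
      exact (hasDerivAt_yv h1 (by linarith)).sub h2
    have h2 : AntitoneOn f (Icc 0 τ) := by
      apply antitoneOn_of_deriv_nonpos (convex_Icc _ _)
      · intro z hz
        exact (hder z hz.2).continuousAt.continuousWithinAt
      · intro z hz
        rw [interior_Icc] at hz
        exact (hder z hz.2.le).differentiableAt.differentiableWithinAt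
      · intro z hz
        rw [interior_Icc] at hz
        rw [(hder z hz.2.le).deriv]
        linarith [hc z hz.1.le hz.2.le]
    have h3 := h2 (left_mem_Icc.2 h0) (mem_Icc.2 ⟨hs, hs'⟩) hs
    rw [hf] at h3
    simp only [mul_zero, yv_zero h1, sub_zero] at h3
    linarith
  refine ⟨hy τ h0 le_rfl, ?_⟩
  obtain ⟨f, hf⟩ : ∃ f : ℝ → ℝ, f = fun s => ev κ s - c * s ^ 2 / 2 := ⟨_, rfl⟩
  have hder : ∀ z, z ≤ τ → HasDerivAt f (yv κ z - c * z) z := by
    intro z hz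
    rw [hf]
    have h2 : HasDerivAt (fun s : ℝ => c * s ^ 2 / 2) (c * z) z := by
      have h3 : HasDerivAt (fun z : ℝ => z ^ 2) (2 * z) z := by simpa using hasDerivAt_pow 2 z
      refine ((h3.const_mul c).div_const 2).congr_deriv ?_
      ring
    exact (hasDerivAt_ev h1 (by linarith)).sub h2
  have h2 : AntitoneOn f (Icc 0 τ) := by
    apply antitoneOn_of_deriv_nonpos (convex_Icc _ _)
    · intro z hz
      exact (hder z hz.2).continuousAt.continuousWithinAt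
    · intro z hz
      rw [interior_Icc] at hz
      exact (hder z hz.2.le).differentiableAt.differentiableWithinAt
    · intro z hz
      rw [interior_Icc] at hz
      rw [(hder z hz.2.le).deriv]
      linarith [hy z hz.1.le hz.2.le]
  have h3 := h2 (left_mem_Icc.2 h0) (right_mem_Icc.2 h0) h0
  rw [hf] at h3
  have h4 : c * 0 ^ 2 / 2 = 0 := by ring
  simp only [h4, ev_zero h1, sub_zero] at h3
  linarith

end R2

end Sok
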