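import Pool.Agent.Lib.MP_816dec_an.R2Defs
import Pool.Agent.Lib.MP_816dec_an.R2Up

/-!
MP_816dec_an, row R2, item (6): the numbers `e..`, `f0.` of the classes.
Bounds of `en`, `sn`: on the left `U z²/2` and the logarithmic form, on the right `UR z²/2` and the logarithmic form.
-/

set_option autoImplicit false

open Set Filter Topology Real

namespace Sok

namespace R2

/-- comparison on the left: `lv ≥ L = D' = E''` gives `yv ≤ D`, `ev ≥ E` -/
theorem cmp_left {κ m : ℝ} {E D L : ℝ → ℝ} (h1 : 1 ≤ κ) (hm : m ≤ 0) (hE0 : E 0 = 0) (hD0 : D 0 = 0)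
    (hE : ∀ s, m ≤ s → s ≤ 0 → HasDerivAt E (D s) s) (hD : ∀ s, m ≤ s → s ≤ 0 → HasDerivAt D (L s) s)
    (hL : ∀ s, m ≤ s → s ≤ 0 → L s ≤ lv κ s) : yv κ m ≤ D m ∧ E m ≤ ev κ m := by
  have hpi := pi_pos
  have hy : ∀ s, m ≤ s → s ≤ 0 → yv κ s ≤ D s := by
    intro s hs hs0
    obtain ⟨f, hf⟩ : ∃ f : ℝ → ℝ, f = fun s => yv κ s - D s := ⟨_, rfl⟩
    have hder : ∀ z, m ≤ z → z ≤ 0 → HasDerivAt f (lv κ z - L z) z := by
      intro z hz hz0
      rw [hf]
      exact (hasDerivAt_yv h1 (by linarith)).sub (hD z hz hz0)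
    have h2 : MonotoneOn f (Icc m 0) := by
      apply monotoneOn_of_deriv_nonneg (convex_Icc _ _)
      · intro z hz
        exact (hder z hz.1 hz.2).continuousAt.continuousWithinAt
      · intro z hz
        rw [interior_Icc] at hz
        exact (hder z hz.1.le hz.2.le).differentiableAt.differentiableWithinAt
      · intro z hz
        rw [interior_Icc] at hz
        rw [(hder z hz.1.le hz.2.le).deriv]
        linarith [hL z hz.1.le hz.2.le]
    have h3 := h2 (mem_Icc.2 ⟨hs, hs0⟩) (right_mem_Icc.2 hm) hs0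
    rw [hf] at h3
    simp only [hD0, yv_zero h1, sub_zero] at h3
    linarith
  refine ⟨hy m le_rfl hm, ?_⟩
  obtain ⟨f, hf⟩ : ∃ f : ℝ → ℝ, f = fun s => ev κ s - E s := ⟨_, rfl⟩
  have hder : ∀ z, m ≤ z → z ≤ 0 → HasDerivAt f (yv κ z - D z) z := by
    intro z hz hz0
    rw [hf]
    exact (hasDerivAt_ev h1 (by linarith)).sub (hE z hz hz0)
  have h2 : AntitoneOn f (Icc m 0) := by
    apply antitoneOn_of_deriv_nonpos (convex_Icc _ _)
    · intro z hz
      exact (hder z hz.1 hz.2).continuousAt.continuousWithinAt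
    · intro z hz
      rw [interior_Icc] at hz
      exact (hder z hz.1.le hz.2.le).differentiableAt.differentiableWithinAt
    · intro z hz
      rw [interior_Icc] at hz
      rw [(hder z hz.1.le hz.2.le).deriv]
      linarith [hy z hz.1.le hz.2.le]
  have h3 := h2 (left_mem_Icc.2 hm) (right_mem_Icc.2 hm) hm
  rw [hf] at h3
  simp only [hE0, ev_zero h1, sub_zero] at h3
  linarith

/-- comparison on the right: `lv ≤ L = D' = E''` gives `yv ≤ D`, `ev ≤ E` -/
theorem cmp_right {κ m : ℝ} {E D L : ℝ → ℝ} (h1 : 1 ≤ κ) (hm : 0 ≤ m) (hp : m < κ + π / 2) (hE0 : E 0 = 0)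
    (hD0 : D 0 = 0)
    (hE : ∀ s, 0 ≤ s → s ≤ m → HasDerivAt E (D s) s) (hD : ∀ s, 0 ≤ s → s ≤ m → HasDerivAt D (L s) s)
    (hL : ∀ s, 0 ≤ s → s ≤ m → lv κ s ≤ L s) : yv κ m ≤ D m ∧ ev κ m ≤ E m := by
  have hpi := pi_pos
  have hy : ∀ s, 0 ≤ s → s ≤ m → yv κ s ≤ D s := by
    intro s hs0 hs
    obtain ⟨f, hf⟩ : ∃ f : ℝ → ℝ, f = fun s => yv κ s - D s := ⟨_, rfl⟩
    have hder : ∀ z, 0 ≤ z → z ≤ m → HasDerivAt f (lv κ z - L z) z := by
      intro z hz hz0
      rw [hf]
      exact (hasDerivAt_yv h1 (by linarith)).sub (hD z hz hz0)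
    have h2 : AntitoneOn f (Icc 0 m) := by
      apply antitoneOn_of_deriv_nonpos (convex_Icc _ _)
      · intro z hz
        exact (hder z hz.1 hz.2).continuousAt.continuousWithinAt
      · intro z hz
        rw [interior_Icc] at hz
        exact (hder z hz.1.le hz.2.le).differentiableAt.differentiableWithinAt
      · intro z hz
        rw [interior_Icc] at hz
        rw [(hder z hz.1.le hz.2.le).deriv]
        linarith [hL z hz.1.le hz.2.le]
    have h3 := h2 (left_mem_Icc.2 hm) (mem_Icc.2 ⟨hs0, hs⟩) hs0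
    rw [hf] at h3
    simp only [hD0, yv_zero h1, sub_zero] at h3
    linarith
  refine ⟨hy m hm le_rfl, ?_⟩
  obtain ⟨f, hf⟩ : ∃ f : ℝ → ℝ, f = fun s => ev κ s - E s := ⟨_, rfl⟩
  have hder : ∀ z, 0 ≤ z → z ≤ m → HasDerivAt f (yv κ z - D z) z := by
    intro z hz hz0
    rw [hf]
    exact (hasDerivAt_ev h1 (by linarith)).sub (hE z hz hz0)
  have h2 : AntitoneOn f (Icc 0 m) := by
    apply antitoneOn_of_deriv_nonpos (convex_Icc _ _)
    · intro z hz
      exact (hder z hz.1 hz.2).continuousAt.continuousWithinAt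
    · intro z hz
      rw [interior_Icc] at hz
      exact (hder z hz.1.le hz.2.le).differentiableAt.differentiableWithinAt
    · intro z hz
      rw [interior_Icc] at hz
      rw [(hder z hz.1.le hz.2.le).deriv]
      linarith [hy z hz.1.le hz.2.le]
  have h3 := h2 (left_mem_Icc.2 hm) (right_mem_Icc.2 hm) hm
  rw [hf] at h3
  simp only [hE0, ev_zero h1, sub_zero] at h3
  linarith

/-- `D = -log (1 - a s) / a` -/
private theorem hasDerivAt_D {a s : ℝ} (ha : 0 < a) (h : 0 < 1 - a * s) :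
    HasDerivAt (fun s : ℝ => -(log (1 - a * s) / a)) (1 / (1 - a * s)) s := by
  have h1 : HasDerivAt (fun s : ℝ => 1 - a * s) (-a) s := by
    have := ((hasDerivAt_id s).const_mul a).const_sub 1
    simpa using this
  have h2 := ((h1.log h.ne').div_const a).neg
  refine h2.congr_deriv ?_
  have := ha.ne'
  have h3 := h.ne'
  field_simp

/-- `E = ((1 - a s) log (1 - a s) + a s) / a²` -/
private theorem hasDerivAt_E {a s : ℝ} (ha : 0 < a) (h : 0 < 1 - a * s) :
    HasDerivAt (fun s : ℝ => ((1 - a * s) * log (1 - a * s) + a * s) / a ^ 2) (-(log (1 - a * s) / a)) s := by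
  have h1 : HasDerivAt (fun s : ℝ => 1 - a * s) (-a) s := by
    have := ((hasDerivAt_id s).const_mul a).const_sub 1
    simpa using this
  have h0 : HasDerivAt (fun s : ℝ => a * s) a s := by
    have := (hasDerivAt_id s).const_mul a
    simpa using this
  have h2 := ((h1.mul (h1.log h.ne')).add h0).div_const (a ^ 2)
  refine h2.congr_deriv ?_
  have := ha.ne'
  have h3 := h.ne'
  field_simp
  ring

/-- logarithmic form on the left -/
theorem ev_ge_log {κ a τ : ℝ} (h1 : 1 ≤ κ) (hτ : τ ≤ 0) (ha : 0 < a) (hak : 1 ≤ a * κ) :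
    yv κ τ ≤ -(log (1 - a * τ) / a) ∧ ((1 - a * τ) * log (1 - a * τ) + a * τ) / a ^ 2 ≤ ev κ τ := by
  have hpos : ∀ s, s ≤ 0 → 0 < 1 - a * s := by
    intro s hs
    have : 0 ≤ a * (-s) := mul_nonneg ha.le (by linarith)
    nlinarith
  refine cmp_left (E := fun s : ℝ => ((1 - a * s) * log (1 - a * s) + a * s) / a ^ 2)
    (D := fun s : ℝ => -(log (1 - a * s) / a)) (L := fun s => 1 / (1 - a * s)) h1 hτ (by simp) (by simp)
    (fun s _ hs => hasDerivAt_E ha (hpos s hs)) (fun s _ hs => hasDerivAt_D ha (hpos s hs)) ?_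
  intro s _ hs
  have h2 := L_neg h1 (by linarith : s - κ ≤ -κ)
  refine le_trans ?_ h2
  have e : -(s - κ) = κ - s := by ring
  rw [e, div_le_div_iff₀ (hpos s hs) (by linarith)]
  nlinarith [mul_nonneg (by linarith : 0 ≤ a * κ - 1) (by linarith : 0 ≤ -s)]

/-- logarithmic form on the right -/
theorem ev_le_log {κ a τ : ℝ} (h1 : 1 ≤ κ) (hτ : 0 ≤ τ) (ha : 0 < a) (hak : 1 ≤ a * κ) (h : a * τ < 1) :
    yv κ τ ≤ -(log (1 - a * τ) / a) ∧ ev κ τ ≤ ((1 - a * τ) * log (1 - a * τ) + a * τ) / a ^ 2 := by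
  have hpi := pi_pos
  have hk0 : 0 < κ := by linarith
  have hτκ : τ < κ := by
    by_contra hcon
    push Not at hcon
    have := mul_le_mul_of_nonneg_left hcon ha.le
    linarith
  have hpos : ∀ s, s ≤ τ → 0 < 1 - a * s := by
    intro s hs
    have := mul_le_mul_of_nonneg_left hs ha.le
    linarith
  refine cmp_right (E := fun s : ℝ => ((1 - a * s) * log (1 - a * s) + a * s) / a ^ 2)
    (D := fun s : ℝ => -(log (1 - a * s) / a)) (L := fun s => 1 / (1 - a * s)) h1 hτ (by linarith) (by simp) (by simp)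
    (fun s _ hs => hasDerivAt_E ha (hpos s hs)) (fun s _ hs => hasDerivAt_D ha (hpos s hs)) ?_
  intro s hs0 hs
  have h2 := L_pos h1 (by linarith : -κ ≤ s - κ) (by linarith)
  refine le_trans h2 ?_
  have e : -(s - κ) = κ - s := by ring
  rw [e, div_le_div_iff₀ (by linarith) (hpos s hs)]
  nlinarith [mul_nonneg (by linarith : 0 ≤ a * κ - 1) hs0]

theorem hh_pos {b : ℕ} (hb : 1 ≤ b) : 0 < hh b := by
  unfold hh
  have : (0 : ℝ) < b := by exact_mod_cast hb
  have := pi_pos
  positivity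

/-! ### forms for `en`, `sn`: `H` is an upper bound of `h / κ` -/

/-- left, logarithmic -/
theorem en_ge {b : ℕ} {κ H z : ℝ} (hb : 1 ≤ b) (h1 : 1 ≤ κ) (hH : hh b ≤ H * κ) (hz : 0 ≤ z) :
    ((1 + z * H) * log (1 + z * H) - z * H) / H ^ 2 ≤ en b κ (-z) := by
  have hh0 := hh_pos hb
  have hk0 : 0 < κ := by linarith
  have hH0 : 0 < H := by
    by_contra hcon
    push Not at hcon
    nlinarith
  have h2 := (ev_ge_log (κ := κ) (a := H / hh b) (τ := -z * hh b) h1 (by nlinarith) (by positivity)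
    (by rw [div_mul_eq_mul_div, le_div_iff₀ hh0]; linarith)).2
  have e1 : H / hh b * (-z * hh b) = -(z * H) := by field_simp
  rw [e1] at h2
  unfold en
  rw [le_div_iff₀ (by positivity)]
  refine le_trans (le_of_eq ?_) h2
  have e2 : 1 - -(z * H) = 1 + z * H := by ring
  rw [e2]
  field_simp
  ring

/-- left slope, logarithmic -/
theorem sn_le_log {b : ℕ} {κ H z : ℝ} (hb : 1 ≤ b) (h1 : 1 ≤ κ) (hH : hh b ≤ H * κ) (hz : 0 ≤ z) :
    sn b κ (-z) ≤ -(log (1 + z * H) / H) := by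
  have hh0 := hh_pos hb
  have hk0 : 0 < κ := by linarith
  have hH0 : 0 < H := by
    by_contra hcon
    push Not at hcon
    nlinarith
  have h2 := (ev_ge_log (κ := κ) (a := H / hh b) (τ := -z * hh b) h1 (by nlinarith) (by positivity)
    (by rw [div_mul_eq_mul_div, le_div_iff₀ hh0]; linarith)).1
  have e1 : H / hh b * (-z * hh b) = -(z * H) := by field_simp
  rw [e1] at h2
  unfold sn
  rw [div_le_iff₀ (by positivity)]
  refine le_trans h2 (le_of_eq ?_)
  have e2 : 1 - -(z * H) = 1 + z * H := by ring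
  rw [e2]
  field_simp

/-- right, logarithmic -/
theorem en_le_log {b : ℕ} {κ H z : ℝ} (hb : 1 ≤ b) (h1 : 1 ≤ κ) (hH : hh b ≤ H * κ) (hz : 0 ≤ z) (hz1 : z * H < 1) :
    en b κ z ≤ ((1 - z * H) * log (1 - z * H) + z * H) / H ^ 2 ∧ sn b κ z ≤ -(log (1 - z * H) / H) := by
  have hh0 := hh_pos hb
  have hk0 : 0 < κ := by linarith
  have hH0 : 0 < H := by
    by_contra hcon
    push Not at hcon
    nlinarith
  have e1 : H / hh b * (z * hh b) = z * H := by field_simp
  have h2 := ev_le_log (κ := κ) (a := H / hh b) (τ := z * hh b) h1 (by positivity) (by positivity)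
    (by rw [div_mul_eq_mul_div, le_div_iff₀ hh0]; linarith) (by rw [e1]; exact hz1)
  rw [e1] at h2
  unfold en sn
  rw [div_le_iff₀ (by positivity), div_le_iff₀ (by positivity)]
  refine ⟨le_trans h2.2 (le_of_eq ?_), le_trans h2.1 (le_of_eq ?_)⟩
  · field_simp
  · field_simp

/-- left, upper bound, constant `c` -/
theorem en_le_of_left {b : ℕ} {κ c z : ℝ} (hb : 1 ≤ b) (h1 : 1 ≤ κ) (hz : 0 ≤ z) (hc : ∀ s, s ≤ 0 → lv κ s ≤ c) :
    en b κ (-z) ≤ c * z ^ 2 / 2 ∧ -(c * z) ≤ sn b κ (-z) := by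
  have hh0 := hh_pos hb
  have h2 := ev_le_of_left (κ := κ) (c := c) (τ := -z * hh b) h1 (by nlinarith) hc
  unfold en sn
  rw [div_le_iff₀ (by positivity), le_div_iff₀ (by positivity)]
  refine ⟨le_trans h2.2 (le_of_eq (by ring)), le_trans (le_of_eq (by ring)) h2.1⟩

/-- left, upper bound, `κ ≥ √3` -/
theorem en_le_left {b : ℕ} {κ z : ℝ} (hb : 1 ≤ b) (h1 : 1 ≤ κ) (h3 : 3 ≤ κ ^ 2) (hz : 0 ≤ z) :
    en b κ (-z) ≤ z ^ 2 / 2 ∧ -z ≤ sn b κ (-z) := by
  have h := en_le_of_left (b := b) (c := 1) hb h1 hz (fun s hs => lv_le_left h1 h3 hs)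
  refine ⟨le_trans h.1 (le_of_eq (by ring)), le_trans (le_of_eq (by ring)) h.2⟩

/-- left, upper bound, `κ ≥ 1.39` -/
theorem en_le_left' {b : ℕ} {κ z : ℝ} (hb : 1 ≤ b) (h1 : 139 / 100 ≤ κ) (hz : 0 ≤ z) :
    en b κ (-z) ≤ 103 / 100 * z ^ 2 / 2 ∧ -(103 / 100 * z) ≤ sn b κ (-z) :=
  en_le_of_left (b := b) (c := 103 / 100) hb (by linarith) hz (fun s hs => lv_le_left' h1 hs)

/-- right, upper bound, constant `c` -/
theorem en_le_of_right {b : ℕ} {κ c z : ℝ} (hb : 1 ≤ b) (h1 : 1 ≤ κ) (hz : 0 ≤ z) (hp : z * hh b < κ + π / 2)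
    (hc : ∀ s, 0 ≤ s → s < κ + π / 2 → lv κ s ≤ c) :
    en b κ z ≤ c * z ^ 2 / 2 ∧ sn b κ z ≤ c * z := by
  have hh0 := hh_pos hb
  have h2 := ev_le_of_right (κ := κ) (c := c) (τ := z * hh b) h1 (by positivity) hp
    (fun s hs hs' => hc s hs (by linarith))
  unfold en sn
  rw [div_le_iff₀ (by positivity), div_le_iff₀ (by positivity)]
  refine ⟨le_trans h2.2 (le_of_eq (by ring)), le_trans h2.1 (le_of_eq (by ring))⟩

/-! ### Taylor bound of `exp (-2y)` -/

private theorem nonneg_of_hasDerivAt {f g : ℝ → ℝ} (hf : ∀ x, 0 ≤ x → HasDerivAt f (g x) x)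
    (hg : ∀ x, 0 ≤ x → 0 ≤ g x) (h0 : f 0 = 0) {x : ℝ} (hx : 0 ≤ x) : 0 ≤ f x := by
  have h2 : MonotoneOn f (Ici 0) := by
    apply monotoneOn_of_deriv_nonneg (convex_Ici _)
    · intro z hz
      exact (hf z hz).continuousAt.continuousWithinAt
    · intro z hz
      rw [interior_Ici] at hz
      exact (hf z (le_of_lt hz)).differentiableAt.differentiableWithinAt
    · intro z hz
      rw [interior_Ici] at hz
      rw [(hf z (le_of_lt hz)).deriv]
      exact hg z (le_of_lt hz)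
  have h3 := h2 (mem_Ici.2 le_rfl) (mem_Ici.2 hx) hx
  rwa [h0] at h3

/-- the Taylor polynomial of degree `5` of `exp (-2y)` -/
private noncomputable def gT (y : ℝ) : ℝ := 1 - 2 * y + 2 * y ^ 2 - 4 / 3 * y ^ 3 + 2 / 3 * y ^ 4 - 4 / 15 * y ^ 5

private theorem gT_le {y : ℝ} (hy : 0 ≤ y) : gT y ≤ exp (-2 * y) := by
  have hE : ∀ z : ℝ, HasDerivAt (fun z : ℝ => exp (-2 * z)) (exp (-2 * z) * (-2)) z := by
    intro z
    have := ((hasDerivAt_id z).const_mul (-2 : ℝ)).exp
    simpa using this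
  have hp : ∀ (n : ℕ) (z : ℝ), HasDerivAt (fun z : ℝ => z ^ n) (n * z ^ (n - 1)) z := fun n z => by
    simpa using hasDerivAt_pow n z
  have a1 : ∀ z : ℝ, 0 ≤ z → 0 ≤ exp (-2 * z) - (1 - 2 * z) := by
    intro z _
    have := add_one_le_exp (-2 * z)
    linarith
  have a2 : ∀ z : ℝ, 0 ≤ z → 0 ≤ (1 - 2 * z + 2 * z ^ 2) - exp (-2 * z) := by
    intro z hz
    refine nonneg_of_hasDerivAt (f := fun z : ℝ => (1 - 2 * z + 2 * z ^ 2) - exp (-2 * z))
      (g := fun z => 2 * (exp (-2 * z) - (1 - 2 * z))) ?_ (fun w hw => by linarith [a1 w hw]) (by simp) hz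
    intro w _
    have h := (((hp 1 w).const_mul 2).const_sub 1).add ((hp 2 w).const_mul 2) |>.sub (hE w)
    simp only [pow_one] at h
    refine h.congr_deriv ?_
    push_cast; ring
  have a3 : ∀ z : ℝ, 0 ≤ z → 0 ≤ exp (-2 * z) - (1 - 2 * z + 2 * z ^ 2 - 4 / 3 * z ^ 3) := by
    intro z hz
    refine nonneg_of_hasDerivAt (f := fun z : ℝ => exp (-2 * z) - (1 - 2 * z + 2 * z ^ 2 - 4 / 3 * z ^ 3))
      (g := fun z => 2 * ((1 - 2 * z + 2 * z ^ 2) - exp (-2 * z))) ?_ (fun w hw => by linarith [a2 w hw]) (by simp) hz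
    intro w _
    have h := (hE w).sub (((((hp 1 w).const_mul 2).const_sub 1).add ((hp 2 w).const_mul 2)).sub ((hp 3 w).const_mul (4 / 3)))
    simp only [pow_one] at h
    refine h.congr_deriv ?_
    push_cast; ring
  have a4 : ∀ z : ℝ, 0 ≤ z → 0 ≤ (1 - 2 * z + 2 * z ^ 2 - 4 / 3 * z ^ 3 + 2 / 3 * z ^ 4) - exp (-2 * z) := by
    intro z hz
    refine nonneg_of_hasDerivAt (f := fun z : ℝ => (1 - 2 * z + 2 * z ^ 2 - 4 / 3 * z ^ 3 + 2 / 3 * z ^ 4) - exp (-2 * z))
      (g := fun z => 2 * (exp (-2 * z) - (1 - 2 * z + 2 * z ^ 2 - 4 / 3 * z ^ 3))) ?_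
      (fun w hw => by linarith [a3 w hw]) (by simp) hz
    intro w _
    have h := ((((((hp 1 w).const_mul 2).const_sub 1).add ((hp 2 w).const_mul 2)).sub ((hp 3 w).const_mul (4 / 3))).add
      ((hp 4 w).const_mul (2 / 3))).sub (hE w)
    simp only [pow_one] at h
    refine h.congr_deriv ?_
    push_cast; ring
  have a5 : 0 ≤ exp (-2 * y) - (1 - 2 * y + 2 * y ^ 2 - 4 / 3 * y ^ 3 + 2 / 3 * y ^ 4 - 4 / 15 * y ^ 5) := by
    refine nonneg_of_hasDerivAt
      (f := fun z : ℝ => exp (-2 * z) - (1 - 2 * z + 2 * z ^ 2 - 4 / 3 * z ^ 3 + 2 / 3 * z ^ 4 - 4 / 15 * z ^ 5))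
      (g := fun z => 2 * ((1 - 2 * z + 2 * z ^ 2 - 4 / 3 * z ^ 3 + 2 / 3 * z ^ 4) - exp (-2 * z))) ?_
      (fun w hw => by linarith [a4 w hw]) (by simp) hy
    intro w _
    have h := (hE w).sub ((((((((hp 1 w).const_mul 2).const_sub 1).add ((hp 2 w).const_mul 2)).sub
      ((hp 3 w).const_mul (4 / 3))).add ((hp 4 w).const_mul (2 / 3)))).sub ((hp 5 w).const_mul (4 / 15)))
    simp only [pow_one] at h
    refine h.congr_deriv ?_
    push_cast; ring
  unfold gT
  linarith

/-! ### the polynomial inequalities -/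

private theorem poly19_0 {y : ℝ} (ha : 0 ≤ y) (hb : y ≤ 1 / 10) :
    (1 + 361 / 100) ^ 2 * (361 / 100 * gT y - y ^ 2) ≤ (201 / 200) ^ 2 * (361 / 100) * (361 / 100 * gT y + (1 + 2 * y)) ^ 2 := by
  have hs : 0 ≤ y := by linarith
  have ht : 0 ≤ 1 / 10 - y := by linarith
  have key : (201 / 200) ^ 2 * (361 / 100) * (361 / 100 * gT y + (1 + 2 * y)) ^ 2 - (1 + 361 / 100) ^ 2 * (361 / 100 * gT y - y ^ 2) =
      30764752481 / 4 * (1 / 10 - y) ^ 10 +
      274333701872 / 5 * y ^ 1 * (1 / 10 - y) ^ 9 +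
      16868578190297 / 100 * y ^ 2 * (1 / 10 - y) ^ 8 +
      110205970768529 / 375 * y ^ 3 * (1 / 10 - y) ^ 7 +
      2460269772916097 / 7500 * y ^ 4 * (1 / 10 - y) ^ 6 +
      25126843746690763 / 93750 * y ^ 5 * (1 / 10 - y) ^ 5 +
      488767298604556079 / 2500000 * y ^ 6 * (1 / 10 - y) ^ 4 +
      428749485061289777 / 3125000 * y ^ 7 * (1 / 10 - y) ^ 3 +
      113470159202876907031 / 1500000000 * y ^ 8 * (1 / 10 - y) ^ 2 +
      5919973772693395783 / 234375000 * y ^ 9 * (1 / 10 - y) ^ 1 +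
      2681216102946100867 / 732421875 * y ^ 10 := by
    unfold gT
    ring
  have h0 : 0 ≤ 30764752481 / 4 * (1 / 10 - y) ^ 10 +
      274333701872 / 5 * y ^ 1 * (1 / 10 - y) ^ 9 +
      16868578190297 / 100 * y ^ 2 * (1 / 10 - y) ^ 8 +
      110205970768529 / 375 * y ^ 3 * (1 / 10 - y) ^ 7 +
      2460269772916097 / 7500 * y ^ 4 * (1 / 10 - y) ^ 6 +
      25126843746690763 / 93750 * y ^ 5 * (1 / 10 - y) ^ 5 +
      488767298604556079 / 2500000 * y ^ 6 * (1 / 10 - y) ^ 4 +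
      428749485061289777 / 3125000 * y ^ 7 * (1 / 10 - y) ^ 3 +
      113470159202876907031 / 1500000000 * y ^ 8 * (1 / 10 - y) ^ 2 +
      5919973772693395783 / 234375000 * y ^ 9 * (1 / 10 - y) ^ 1 +
      2681216102946100867 / 732421875 * y ^ 10 := by
    positivity
  linarith

private theorem poly19_1 {y : ℝ} (ha : 1 / 10 ≤ y) (hb : y ≤ 21 / 100) :
    (1 + 361 / 100) ^ 2 * (361 / 100 * gT y - y ^ 2) ≤ (201 / 200) ^ 2 * (361 / 100) * (361 / 100 * gT y + (1 + 2 * y)) ^ 2 := by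
  have hs : 0 ≤ y - 1 / 10 := by linarith
  have ht : 0 ≤ 21 / 100 - y := by linarith
  have key : (201 / 200) ^ 2 * (361 / 100) * (361 / 100 * gT y + (1 + 2 * y)) ^ 2 - (1 + 361 / 100) ^ 2 * (361 / 100 * gT y - y ^ 2) =
      2745565289416807287808 / 1945306845075 * (21 / 100 - y) ^ 10 +
      36818563397872199887808 / 1945306845075 * (y - 1 / 10) ^ 1 * (21 / 100 - y) ^ 9 +
      1098314314263798501839143 / 9726534225375 * (y - 1 / 10) ^ 2 * (21 / 100 - y) ^ 8 +
      6327190440057336505941908 / 16210890375625 * (y - 1 / 10) ^ 3 * (21 / 100 - y) ^ 7 +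
      70031377517596421925851257 / 81054451878125 * (y - 1 / 10) ^ 4 * (21 / 100 - y) ^ 6 +
      7793231259742522206041785363 / 6079083890859375 * (y - 1 / 10) ^ 5 * (21 / 100 - y) ^ 5 +
      62956151433171155610035763617 / 48632671126875000 * (y - 1 / 10) ^ 6 * (21 / 100 - y) ^ 4 +
      107083390360117368832908184381 / 121581677817187500 * (y - 1 / 10) ^ 7 * (21 / 100 - y) ^ 3 +
      313936715900140132141219697389 / 810544518781250000 * (y - 1 / 10) ^ 8 * (21 / 100 - y) ^ 2 +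
      403703313617665536934806613771 / 4052722593906250000 * (y - 1 / 10) ^ 9 * (21 / 100 - y) ^ 1 +
      18476326313014256199127735571609 / 1621089037562500000000 * (y - 1 / 10) ^ 10 := by
    unfold gT
    ring
  have h0 : 0 ≤ 2745565289416807287808 / 1945306845075 * (21 / 100 - y) ^ 10 +
      36818563397872199887808 / 1945306845075 * (y - 1 / 10) ^ 1 * (21 / 100 - y) ^ 9 +
      1098314314263798501839143 / 9726534225375 * (y - 1 / 10) ^ 2 * (21 / 100 - y) ^ 8 +
      6327190440057336505941908 / 16210890375625 * (y - 1 / 10) ^ 3 * (21 / 100 - y) ^ 7 +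
      70031377517596421925851257 / 81054451878125 * (y - 1 / 10) ^ 4 * (21 / 100 - y) ^ 6 +
      7793231259742522206041785363 / 6079083890859375 * (y - 1 / 10) ^ 5 * (21 / 100 - y) ^ 5 +
      62956151433171155610035763617 / 48632671126875000 * (y - 1 / 10) ^ 6 * (21 / 100 - y) ^ 4 +
      107083390360117368832908184381 / 121581677817187500 * (y - 1 / 10) ^ 7 * (21 / 100 - y) ^ 3 +
      313936715900140132141219697389 / 810544518781250000 * (y - 1 / 10) ^ 8 * (21 / 100 - y) ^ 2 +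
      403703313617665536934806613771 / 4052722593906250000 * (y - 1 / 10) ^ 9 * (21 / 100 - y) ^ 1 +
      18476326313014256199127735571609 / 1621089037562500000000 * (y - 1 / 10) ^ 10 := by
    positivity
  linarith

private theorem poly21_0 {y : ℝ} (ha : 0 ≤ y) (hb : y ≤ 263 / 1000) :
    (1 + 441 / 100) ^ 2 * (441 / 100 * gT y - y ^ 2) ≤ (51 / 50) ^ 2 * (441 / 100) * (441 / 100 * gT y + (1 + 2 * y)) ^ 2 := by
  have hs : 0 ≤ y := by linarith
  have ht : 0 ≤ 263 / 1000 - y := by linarith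
  have key : (51 / 50) ^ 2 * (441 / 100) * (441 / 100 * gT y + (1 + 2 * y)) ^ 2 - (1 + 441 / 100) ^ 2 * (441 / 100 * gT y - y ^ 2) =
      5214521768400000000000000000000 / 1583279121786431447236849 * (263 / 1000 - y) ^ 10 +
      30992919010603200000000000000000 / 1583279121786431447236849 * y ^ 1 * (263 / 1000 - y) ^ 9 +
      73499049414395276800000000000000 / 1583279121786431447236849 * y ^ 2 * (263 / 1000 - y) ^ 8 +
      85769126268558029868800000000000 / 1583279121786431447236849 * y ^ 3 * (263 / 1000 - y) ^ 7 +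
      54520954345844286490825600000000 / 1583279121786431447236849 * y ^ 4 * (263 / 1000 - y) ^ 6 +
      50012049573945857070143125760000 / 1583279121786431447236849 * y ^ 5 * (263 / 1000 - y) ^ 5 +
      99445713000480234967685953248640 / 1583279121786431447236849 * y ^ 6 * (263 / 1000 - y) ^ 4 +
      3110602897293007593915558384518912 / 39581978044660786180921225 * y ^ 7 * (263 / 1000 - y) ^ 3 +
      259926510271407293984086309203216437 / 4947747255582598272615153125 * y ^ 8 * (263 / 1000 - y) ^ 2 +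
      22457981354034887987365448357681431813 / 1236936813895649568153788281250 * y ^ 9 * (263 / 1000 - y) ^ 1 +
      15967637142326930091608909283050933713681 / 6184684069478247840768941406250000 * y ^ 10 := by
    unfold gT
    ring
  have h0 : 0 ≤ 5214521768400000000000000000000 / 1583279121786431447236849 * (263 / 1000 - y) ^ 10 +
      30992919010603200000000000000000 / 1583279121786431447236849 * y ^ 1 * (263 / 1000 - y) ^ 9 +
      73499049414395276800000000000000 / 1583279121786431447236849 * y ^ 2 * (263 / 1000 - y) ^ 8 +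
      85769126268558029868800000000000 / 1583279121786431447236849 * y ^ 3 * (263 / 1000 - y) ^ 7 +
      54520954345844286490825600000000 / 1583279121786431447236849 * y ^ 4 * (263 / 1000 - y) ^ 6 +
      50012049573945857070143125760000 / 1583279121786431447236849 * y ^ 5 * (263 / 1000 - y) ^ 5 +
      99445713000480234967685953248640 / 1583279121786431447236849 * y ^ 6 * (263 / 1000 - y) ^ 4 +
      3110602897293007593915558384518912 / 39581978044660786180921225 * y ^ 7 * (263 / 1000 - y) ^ 3 +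
      259926510271407293984086309203216437 / 4947747255582598272615153125 * y ^ 8 * (263 / 1000 - y) ^ 2 +
      22457981354034887987365448357681431813 / 1236936813895649568153788281250 * y ^ 9 * (263 / 1000 - y) ^ 1 +
      15967637142326930091608909283050933713681 / 6184684069478247840768941406250000 * y ^ 10 := by
    positivity
  linarith

private theorem poly23_0 {y : ℝ} (ha : 0 ≤ y) (hb : y ≤ 63 / 200) :
    (1 + 529 / 100) ^ 2 * (529 / 100 * gT y - y ^ 2) ≤ (26 / 25) ^ 2 * (529 / 100) * (529 / 100 * gT y + (1 + 2 * y)) ^ 2 := by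
  have hs : 0 ≤ y := by linarith
  have ht : 0 ≤ 63 / 200 - y := by linarith
  have key : (26 / 25) ^ 2 * (529 / 100) * (529 / 100 * gT y + (1 + 2 * y)) ^ 2 - (1 + 529 / 100) ^ 2 * (529 / 100 * gT y - y ^ 2) =
      582942640209920000000000 / 328310097293930283 * (63 / 200 - y) ^ 10 +
      3689911338003660800000000 / 328310097293930283 * y ^ 1 * (63 / 200 - y) ^ 9 +
      1077652959073951744000000 / 36478899699325587 * y ^ 2 * (63 / 200 - y) ^ 8 +
      4451719789582704066560000 / 109436699097976761 * y ^ 3 * (63 / 200 - y) ^ 7 +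
      473264385970209515724800 / 15633814156853823 * y ^ 4 * (63 / 200 - y) ^ 6 +
      329434858056058130089984 / 26056356928089705 * y ^ 5 * (63 / 200 - y) ^ 5 +
      16217563198721496599535616 / 1954226769606727875 * y ^ 6 * (63 / 200 - y) ^ 4 +
      4023694212409209244734619648 / 341989684681177378125 * y ^ 7 * (63 / 200 - y) ^ 3 +
      27484798347604457140195592816 / 2849914039009811484375 * y ^ 8 * (63 / 200 - y) ^ 2 +
      2430546383644310072948465612728 / 641230658777207583984375 * y ^ 9 * (63 / 200 - y) ^ 1 +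
      46867452259837972040624900262467 / 80153832347150947998046875 * y ^ 10 := by
    unfold gT
    ring
  have h0 : 0 ≤ 582942640209920000000000 / 328310097293930283 * (63 / 200 - y) ^ 10 +
      3689911338003660800000000 / 328310097293930283 * y ^ 1 * (63 / 200 - y) ^ 9 +
      1077652959073951744000000 / 36478899699325587 * y ^ 2 * (63 / 200 - y) ^ 8 +
      4451719789582704066560000 / 109436699097976761 * y ^ 3 * (63 / 200 - y) ^ 7 +
      473264385970209515724800 / 15633814156853823 * y ^ 4 * (63 / 200 - y) ^ 6 +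
      329434858056058130089984 / 26056356928089705 * y ^ 5 * (63 / 200 - y) ^ 5 +
      16217563198721496599535616 / 1954226769606727875 * y ^ 6 * (63 / 200 - y) ^ 4 +
      4023694212409209244734619648 / 341989684681177378125 * y ^ 7 * (63 / 200 - y) ^ 3 +
      27484798347604457140195592816 / 2849914039009811484375 * y ^ 8 * (63 / 200 - y) ^ 2 +
      2430546383644310072948465612728 / 641230658777207583984375 * y ^ 9 * (63 / 200 - y) ^ 1 +
      46867452259837972040624900262467 / 80153832347150947998046875 * y ^ 10 := by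
    positivity
  linarith

private theorem poly266_0 {y : ℝ} (ha : 0 ≤ y) (hb : y ≤ 1 / 4) :
    (1 + 17689 / 2500) ^ 2 * (17689 / 2500 * gT y - y ^ 2) ≤ (27 / 25) ^ 2 * (17689 / 2500) * (17689 / 2500 * gT y + (1 + 2 * y)) ^ 2 := by
  have hs : 0 ≤ y := by linarith
  have ht : 0 ≤ 1 / 4 - y := by linarith
  have key : (27 / 25) ^ 2 * (17689 / 2500) * (17689 / 2500 * gT y + (1 + 2 * y)) ^ 2 - (1 + 17689 / 2500) ^ 2 * (17689 / 2500 * gT y - y ^ 2) =
      12285311610257014784 / 152587890625 * (1 / 4 - y) ^ 10 +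
      94980090142105133056 / 152587890625 * y ^ 1 * (1 / 4 - y) ^ 9 +
      324453770873001199616 / 152587890625 * y ^ 2 * (1 / 4 - y) ^ 8 +
      1925648860735166915584 / 457763671875 * y ^ 3 * (1 / 4 - y) ^ 7 +
      2427910478120241344384 / 457763671875 * y ^ 4 * (1 / 4 - y) ^ 6 +
      10103775827582196273472 / 2288818359375 * y ^ 5 * (1 / 4 - y) ^ 5 +
      1850873670495014925088 / 762939453125 * y ^ 6 * (1 / 4 - y) ^ 4 +
      130324376577543438976 / 152587890625 * y ^ 7 * (1 / 4 - y) ^ 3 +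
      412570728980154233167 / 2288818359375 * y ^ 8 * (1 / 4 - y) ^ 2 +
      46689370010045475283 / 2288818359375 * y ^ 9 * (1 / 4 - y) ^ 1 +
      48924019931426681947 / 45776367187500 * y ^ 10 := by
    unfold gT
    ring
  have h0 : 0 ≤ 12285311610257014784 / 152587890625 * (1 / 4 - y) ^ 10 +
      94980090142105133056 / 152587890625 * y ^ 1 * (1 / 4 - y) ^ 9 +
      324453770873001199616 / 152587890625 * y ^ 2 * (1 / 4 - y) ^ 8 +
      1925648860735166915584 / 457763671875 * y ^ 3 * (1 / 4 - y) ^ 7 +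
      2427910478120241344384 / 457763671875 * y ^ 4 * (1 / 4 - y) ^ 6 +
      10103775827582196273472 / 2288818359375 * y ^ 5 * (1 / 4 - y) ^ 5 +
      1850873670495014925088 / 762939453125 * y ^ 6 * (1 / 4 - y) ^ 4 +
      130324376577543438976 / 152587890625 * y ^ 7 * (1 / 4 - y) ^ 3 +
      412570728980154233167 / 2288818359375 * y ^ 8 * (1 / 4 - y) ^ 2 +
      46689370010045475283 / 2288818359375 * y ^ 9 * (1 / 4 - y) ^ 1 +
      48924019931426681947 / 45776367187500 * y ^ 10 := by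
    positivity
  linarith

private theorem poly266_1 {y : ℝ} (ha : 1 / 4 ≤ y) (hb : y ≤ 203 / 500) :
    (1 + 17689 / 2500) ^ 2 * (17689 / 2500 * gT y - y ^ 2) ≤ (27 / 25) ^ 2 * (17689 / 2500) * (17689 / 2500 * gT y + (1 + 2 * y)) ^ 2 := by
  have hs : 0 ≤ y - 1 / 4 := by linarith
  have ht : 0 ≤ 203 / 500 - y := by linarith
  have key : (27 / 25) ^ 2 * (17689 / 2500) * (17689 / 2500 * gT y + (1 + 2 * y)) ^ 2 - (1 + 17689 / 2500) ^ 2 * (17689 / 2500 * gT y - y ^ 2) =
      11944340803570967272216796875 / 100029309974834393088 * (203 / 500 - y) ^ 10 +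
      25859710200317600498955078125 / 50014654987417196544 * (y - 1 / 4) ^ 1 * (203 / 500 - y) ^ 9 +
      13639316371895231274484609375 / 11114367774981599232 * (y - 1 / 4) ^ 2 * (203 / 500 - y) ^ 8 +
      21005464340323151310879753125 / 4167887915618099712 * (y - 1 / 4) ^ 3 * (203 / 500 - y) ^ 7 +
      322843855202696026057715683505 / 16671551662472398848 * (y - 1 / 4) ^ 4 * (203 / 500 - y) ^ 6 +
      15284467185022634584423775431507 / 347323992968174976000 * (y - 1 / 4) ^ 5 * (203 / 500 - y) ^ 5 +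
      3132281893978515921552666160443613 / 52098598945226246400000 * (y - 1 / 4) ^ 6 * (203 / 500 - y) ^ 4 +
      82949609402280113549077038983540789 / 1628081217038320200000000 * (y - 1 / 4) ^ 7 * (203 / 500 - y) ^ 3 +
      573514356464392990731214155638877203 / 21707749560510936000000000 * (y - 1 / 4) ^ 8 * (203 / 500 - y) ^ 2 +
      2355922356260902751967266030884411827989 / 305265228194685037500000000000 * (y - 1 / 4) ^ 9 * (203 / 500 - y) ^ 1 +
      372669394592710513931173564858375801687483 / 381581535243356296875000000000000 * (y - 1 / 4) ^ 10 := by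
    unfold gT
    ring
  have h0 : 0 ≤ 11944340803570967272216796875 / 100029309974834393088 * (203 / 500 - y) ^ 10 +
      25859710200317600498955078125 / 50014654987417196544 * (y - 1 / 4) ^ 1 * (203 / 500 - y) ^ 9 +
      13639316371895231274484609375 / 11114367774981599232 * (y - 1 / 4) ^ 2 * (203 / 500 - y) ^ 8 +
      21005464340323151310879753125 / 4167887915618099712 * (y - 1 / 4) ^ 3 * (203 / 500 - y) ^ 7 +
      322843855202696026057715683505 / 16671551662472398848 * (y - 1 / 4) ^ 4 * (203 / 500 - y) ^ 6 +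
      15284467185022634584423775431507 / 347323992968174976000 * (y - 1 / 4) ^ 5 * (203 / 500 - y) ^ 5 +
      3132281893978515921552666160443613 / 52098598945226246400000 * (y - 1 / 4) ^ 6 * (203 / 500 - y) ^ 4 +
      82949609402280113549077038983540789 / 1628081217038320200000000 * (y - 1 / 4) ^ 7 * (203 / 500 - y) ^ 3 +
      573514356464392990731214155638877203 / 21707749560510936000000000 * (y - 1 / 4) ^ 8 * (203 / 500 - y) ^ 2 +
      2355922356260902751967266030884411827989 / 305265228194685037500000000000 * (y - 1 / 4) ^ 9 * (203 / 500 - y) ^ 1 +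
      372669394592710513931173564858375801687483 / 381581535243356296875000000000000 * (y - 1 / 4) ^ 10 := by
    positivity
  linarith

/-- the two parts -/
private theorem Lk_le_gen {κ₁ c y₀ y : ℝ} (hκ : 1 ≤ κ₁) (hc : 0 < c) (h : Iy κ₁ y) (hy : 0 ≤ y)
    (hy₀ : y₀ ≤ y → (1 + κ₁ ^ 2) ^ 2 ≤ 4 * c ^ 2 * κ₁ ^ 2 * (1 + y) ^ 2)
    (hp : y ≤ y₀ → (1 + κ₁ ^ 2) ^ 2 * (κ₁ ^ 2 * gT y - y ^ 2) ≤
      c ^ 2 * κ₁ ^ 2 * (κ₁ ^ 2 * gT y + (1 + 2 * y)) ^ 2)
    (hm : y ≤ y₀ → (1 + κ₁ ^ 2) ^ 2 ≤ 2 * (c ^ 2 * κ₁ ^ 2) * (κ₁ ^ 2 * gT y + (1 + 2 * y))) : Lk κ₁ y ≤ c := by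
  apply Lk_le_of h hc.le
  obtain ⟨K, hK⟩ : ∃ K, K = κ₁ ^ 2 := ⟨_, rfl⟩
  obtain ⟨G, hG⟩ : ∃ G, G = exp (-2 * y) := ⟨_, rfl⟩
  have hK1 : 1 ≤ K := by rw [hK]; nlinarith
  rw [← hK] at hy₀ hp hm ⊢
  rw [← hG]
  obtain ⟨A, hA⟩ : ∃ A, A = c ^ 2 * K := ⟨_, rfl⟩
  have hA0 : 0 < A := by rw [hA]; positivity
  rcases le_total y₀ y with hle | hle
  · have h1 := hy₀ hle
    -- `A W² - B W + B (1+y)² ≥ 0`
    have h2 : 0 ≤ (2 * A * (K * G + 1 + 2 * y) - (1 + K) ^ 2) ^ 2 := sq_nonneg _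
    have h3 : 0 ≤ (1 + K) ^ 2 * (4 * c ^ 2 * K * (1 + y) ^ 2 - (1 + K) ^ 2) :=
      mul_nonneg (by positivity) (by linarith)
    have h4 : 4 * A * (A * (K * G + (1 + 2 * y)) ^ 2 - (1 + K) ^ 2 * (K * G - y ^ 2)) =
        (2 * A * (K * G + 1 + 2 * y) - (1 + K) ^ 2) ^ 2 + (1 + K) ^ 2 * (4 * c ^ 2 * K * (1 + y) ^ 2 - (1 + K) ^ 2) := by
      rw [hA]; ring
    have h5 : 0 ≤ 4 * A * (A * (K * G + (1 + 2 * y)) ^ 2 - (1 + K) ^ 2 * (K * G - y ^ 2)) := by
      rw [h4]; linarith
    have h6 := nonneg_of_mul_nonneg_right h5 (by positivity)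
    rw [← hA]
    linarith
  · have h1 := hp hle
    have h2 := hm hle
    have h3 := gT_le hy
    rw [← hG] at h3
    rw [← hA] at h1 h2 ⊢
    have h4 : A * (K * G + (1 + 2 * y)) ^ 2 - (1 + K) ^ 2 * (K * G - y ^ 2) =
        (A * (K * gT y + (1 + 2 * y)) ^ 2 - (1 + K) ^ 2 * (K * gT y - y ^ 2)) +
          K * (G - gT y) * ((2 * A * (K * gT y + (1 + 2 * y)) - (1 + K) ^ 2) + A * K * (G - gT y)) := by ring
    have h5 : 0 ≤ K * (G - gT y) * ((2 * A * (K * gT y + (1 + 2 * y)) - (1 + K) ^ 2) + A * K * (G - gT y)) := by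
      have h6 : 0 ≤ G - gT y := by linarith
      have h7 : 0 ≤ 2 * A * (K * gT y + (1 + 2 * y)) - (1 + K) ^ 2 := by linarith
      positivity
    linarith

private theorem lv_le_gen {κ κ₁ c τ : ℝ} (h1 : 1 ≤ κ) (hκ : κ ≤ κ₁) (h : ∀ y, 0 ≤ y → Iy κ₁ y → Lk κ₁ y ≤ c)
    (hτ : 0 ≤ τ) (hp : τ < κ + π / 2) : lv κ τ ≤ c := by
  have hd := DomR_of h1 (by linarith : τ - κ < π / 2)
  have hI := (sy_spec hd).1
  have hy := sy_nonneg h1 (by linarith : -κ ≤ τ - κ) (by linarith)
  have hk : 0 < κ := by linarith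
  have hI' : Iy κ₁ (sy κ (τ - κ)) := ⟨lt_of_lt_of_le hI.1 hκ, Or.inr (by linarith)⟩
  exact le_trans (Lk_mono_kappa hκ hy hI) (h _ hy hI')

private theorem gT_low {y : ℝ} (hy1 : y ≤ 1) : 1 - 2 * y + 2 * y ^ 2 - 4 / 3 * y ^ 3 ≤ gT y := by
  unfold gT
  have : 0 ≤ y ^ 4 * (2 / 3 - 4 / 15 * y) := mul_nonneg (by positivity) (by linarith)
  nlinarith

/-- right side, `κ ≤ 19 / 10` -/
theorem lv_le_right19 {κ τ : ℝ} (h1 : 1 ≤ κ) (hκ : κ ≤ 19 / 10) (hτ : 0 ≤ τ) (hp : τ < κ + π / 2) :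
    lv κ τ ≤ 1005 / 1000 := by
  refine lv_le_gen h1 hκ ?_ hτ hp
  intro y hy hI
  refine Lk_le_gen (y₀ := 21 / 100) (by norm_num) (by norm_num) hI hy ?_ ?_ ?_
  · intro h
    nlinarith
  · intro h
    rcases le_total y (1 / 10) with h2 | h2
    · have := poly19_0 hy h2
      norm_num at this ⊢
      linarith
    · have := poly19_1 h2 (le_trans h (by norm_num))
      norm_num at this ⊢
      linarith
  · intro h
    have h2 := gT_low (by linarith)
    nlinarith [mul_nonneg hy (by linarith : 0 ≤ 21 / 100 - y), pow_nonneg hy 3]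

/-- right side, `κ ≤ 21 / 10` -/
theorem lv_le_right21 {κ τ : ℝ} (h1 : 1 ≤ κ) (hκ : κ ≤ 21 / 10) (hτ : 0 ≤ τ) (hp : τ < κ + π / 2) :
    lv κ τ ≤ 102 / 100 := by
  refine lv_le_gen h1 hκ ?_ hτ hp
  intro y hy hI
  refine Lk_le_gen (y₀ := 263 / 1000) (by norm_num) (by norm_num) hI hy ?_ ?_ ?_
  · intro h
    nlinarith
  · intro h
    have := poly21_0 hy (le_trans h (by norm_num))
    norm_num at this ⊢
    linarith
  · intro h
    have h2 := gT_low (by linarith)
    nlinarith [mul_nonneg hy (by linarith : 0 ≤ 263 / 1000 - y), pow_nonneg hy 3]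

/-- right side, `κ ≤ 23 / 10` -/
theorem lv_le_right23 {κ τ : ℝ} (h1 : 1 ≤ κ) (hκ : κ ≤ 23 / 10) (hτ : 0 ≤ τ) (hp : τ < κ + π / 2) :
    lv κ τ ≤ 104 / 100 := by
  refine lv_le_gen h1 hκ ?_ hτ hp
  intro y hy hI
  refine Lk_le_gen (y₀ := 315 / 1000) (by norm_num) (by norm_num) hI hy ?_ ?_ ?_
  · intro h
    nlinarith
  · intro h
    have := poly23_0 hy (le_trans h (by norm_num))
    norm_num at this ⊢
    linarith
  · intro h
    have h2 := gT_low (by linarith)
    nlinarith [mul_nonneg hy (by linarith : 0 ≤ 315 / 1000 - y), pow_nonneg hy 3]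

/-- right side, `κ ≤ 266 / 100` -/
theorem lv_le_right266 {κ τ : ℝ} (h1 : 1 ≤ κ) (hκ : κ ≤ 266 / 100) (hτ : 0 ≤ τ) (hp : τ < κ + π / 2) :
    lv κ τ ≤ 108 / 100 := by
  refine lv_le_gen h1 hκ ?_ hτ hp
  intro y hy hI
  refine Lk_le_gen (y₀ := 406 / 1000) (by norm_num) (by norm_num) hI hy ?_ ?_ ?_
  · intro h
    nlinarith
  · intro h
    rcases le_total y (1 / 4) with h2 | h2
    · have := poly266_0 hy h2
      norm_num at this ⊢
      linarith
    · have := poly266_1 h2 (le_trans h (by norm_num))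
      norm_num at this ⊢
      linarith
  · intro h
    have h2 := gT_low (by linarith)
    nlinarith [mul_nonneg hy (by linarith : 0 ≤ 406 / 1000 - y), pow_nonneg hy 3]

end R2

end Sok
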