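import Pool.Agent.Lib.MP_816dec_an.R2SecDefs
import Pool.Agent.Lib.MP_816dec_an.R2Num6
import Pool.Agent.Lib.MP_816dec_an.R2LineN

/-!
MP_816dec_an, row R2 (4): bounds of the slopes `sn` on `[qL, qR]`, general lemmas for `SecY`.
-/

set_option autoImplicit false

open Set Filter Topology Real

namespace Sok.R2

/-- lower linear bound of `yv` on the window, and its consequence for upper bounds -/
structure LineLo (κ h qL qR B l : ℝ) : Prop where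
  lo : ∀ z ∈ Icc qL qR, B + l * (z - qL) ≤ yv κ ((z + 1) * h) / h
  up : ∀ z ∈ Icc qL qR, yv κ ((z + 1) * h) / h ≤ yv κ ((qR + 1) * h) / h - l * (qR - z)

theorem LineLo.of {κ h qL qR B C l τm : ℝ} (hκ : 1 ≤ κ) (hh : 0 < h) (L : Line κ h (1 + qL) B C) (hL0 : 0 ≤ 1 + qL)
    (hl : ∀ τ, 0 ≤ τ → τ ≤ τm → l ≤ lv κ τ) (hb : (1 + qR) * h ≤ τm) (hd : τm < κ + π / 2) :
    LineLo κ h qL qR B l where
  lo := by
    intro z hz
    have hz1 : (z + 1) * h ≤ τm := le_trans (mul_le_mul_of_nonneg_right (by linarith [hz.2]) hh.le) hb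
    have h6 := (taylor_right (l := l) (τ0 := (1 + qL) * h) (τ := (z + 1) * h) hκ
      (mul_le_mul_of_nonneg_right (by linarith [hz.1]) hh.le) (lt_of_le_of_lt hz1 hd)
      (fun σ hσ1 hσ2 => hl σ ((mul_nonneg hL0 hh.le).trans hσ1) (hσ2.trans hz1))).1
    rw [le_div_iff₀ hh]
    have h7 := L.y
    nlinarith
  up := by
    intro z hz
    have hz1 : (qR + 1) * h ≤ τm := le_trans (le_of_eq (by ring)) hb
    have hz0 : 0 ≤ z + 1 := by linarith [hz.1]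
    have h6 := (taylor_right (l := l) (τ0 := (z + 1) * h) (τ := (qR + 1) * h) hκ
      (mul_le_mul_of_nonneg_right (by linarith [hz.2]) hh.le) (lt_of_le_of_lt hz1 hd)
      (fun σ hσ1 hσ2 => hl σ ((mul_nonneg hz0 hh.le).trans hσ1) (hσ2.trans hz1))).1
    rw [div_le_iff₀ hh, sub_mul, div_mul_cancel₀ _ hh.ne']
    nlinarith

/-- the left slope from below: interpolation of the logarithm -/
theorem log_interp {b : ℕ} {κ p q H₁ mp mq t : ℝ} (hb : 1 ≤ b) (hκ : 1 ≤ κ) (hH : hh b ≤ H₁ * κ) (hp0 : p ≤ 0)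
    (hq0 : q ≤ 0) (ht : t ∈ Icc (0 : ℝ) 1)
    (hp : exp (mp * H₁) ≤ 1 + -p * H₁) (hq' : exp (mq * H₁) ≤ 1 + -q * H₁) :
    (1 - t) * mp + t * mq ≤ -sn b κ ((1 - t) * p + t * q) := by
  have hbp := hh_pos hb
  have hk : 0 < κ := by linarith
  obtain ⟨H, hHd⟩ : ∃ H, H = hh b / κ := ⟨_, rfl⟩
  have hH0 : 0 < H := by rw [hHd]; positivity
  have hHle : H ≤ H₁ := by rw [hHd, div_le_iff₀ hk]; exact hH
  have hp1 : 0 ≤ -p := by linarith
  have hq1 : 0 ≤ -q := by linarith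
  have l1 := log_ge_of hp1 hH0 hHle hp
  have l2 := log_ge_of hq1 hH0 hHle hq'
  have ht0 := ht.1
  have ht1 : 0 ≤ 1 - t := by linarith [ht.2]
  obtain ⟨z, hz⟩ : ∃ z, z = (1 - t) * p + t * q := ⟨_, rfl⟩
  have hz0 : 0 ≤ -z := by rw [hz]; nlinarith
  have l3 : (1 - t) * log (1 + -p * H) + t * log (1 + -q * H) ≤ log (1 + -z * H) := by
    have := strictConcaveOn_log_Ioi.concaveOn.2 (x := 1 + -p * H) (by simp only [mem_Ioi]; positivity)
      (y := 1 + -q * H) (by simp only [mem_Ioi]; positivity) ht1 ht0 (by ring)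
    simp only [smul_eq_mul] at this
    refine this.trans (le_of_eq ?_)
    congr 1
    rw [hz]; ring
  have h3 := sn_le_log (b := b) (κ := κ) (H := H) (z := -z) hb hκ (by rw [hHd]; field_simp; rfl) hz0
  rw [neg_neg] at h3
  rw [← hz]
  have h4 : (1 - t) * mp + t * mq ≤ log (1 + -z * H) / H := by
    rw [le_div_iff₀ hH0]
    refine le_trans (le_of_eq ?_) (le_trans (add_le_add (mul_le_mul_of_nonneg_left l1 ht1)
      (mul_le_mul_of_nonneg_left l2 ht0)) l3)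
    ring
  linarith

/-! ### upper bounds of `sn` at one point -/

theorem exp_ge_bd {y F : ℝ} (hy : 0 ≤ y) (h1 : F ≤ ∑ i ∈ Finset.range 14, y ^ i / (i.factorial : ℝ)) : F ≤ exp y :=
  h1.trans (Real.sum_le_exp_of_nonneg hy 14)

/-- constant bound of the curvature -/
theorem snU {b : ℕ} {κ c z τm : ℝ} (hb : 1 ≤ b) (h1 : 1 ≤ κ) (hz : 0 ≤ z) (hp : z * hh b ≤ τm) (hp' : τm < κ + π / 2)
    (hc : ∀ s, 0 ≤ s → s < κ + π / 2 → lv κ s ≤ c) : sn b κ z ≤ c * z :=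
  (en_le_of_right hb h1 hz (lt_of_le_of_lt hp hp') hc).2

/-- logarithmic bound -/
theorem snL {b : ℕ} {κ H z v F : ℝ} (hb : 1 ≤ b) (h1 : 1 ≤ κ) (hH : hh b ≤ H * κ) (hH0 : 0 < H) (hz : 0 ≤ z)
    (hz1 : z * H < 1) (hF : F ≤ exp (v * H)) (h : 1 ≤ (1 - z * H) * F) : sn b κ z ≤ v := by
  refine (en_le_log hb h1 hH hz hz1).2.trans ?_
  have h2 : 0 < 1 - z * H := by linarith
  have h3 : -(v * H) ≤ log (1 - z * H) := by
    rw [le_log_iff_exp_le h2, exp_neg, inv_le_comm₀ (exp_pos _) h2]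
    refine le_trans ?_ hF
    rw [inv_le_iff_one_le_mul₀ h2, mul_comm]
    exact h
  rw [← neg_div, div_le_iff₀ hH0]
  linarith

/-- upper bound of `sy` for all `κ ≥ κ₀` (criterion of `L_ge`) -/
theorem sy_le_of {κ₀ y Fl Fh a c τm : ℝ} (h1 : 1 ≤ κ₀) (hy : 0 ≤ y) (hFl0 : 0 < Fl)
    (hF : Fl ≤ exp y ∧ exp y ≤ Fh) (hI : y * Fh < κ₀)
    (ha : a * Fl ≤ Fl - 1) (ha0 : 0 < a) (hc : c ≤ (2 * y - 1) * Fl + 1) (hc' : c ≤ (2 * y - 1) * Fh + 1)
    (hτ : τm ^ 2 ≤ 4 * a * c ∨ (τm ≤ 2 * a * κ₀ ∧ τm * κ₀ ≤ a * κ₀ ^ 2 + c))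
    (hτ0 : τm ≤ κ₀ + 157 / 100) {κ τ : ℝ} (hκ : κ₀ ≤ κ) (h0 : 0 ≤ τ) (hm : τ ≤ τm) : sy κ (τ - κ) ≤ y := by
  have hk0 : 0 < κ₀ := by linarith
  have hk : 0 < κ := by linarith
  obtain ⟨hF1, hF2⟩ := hF
  have hE := exp_pos y
  have hI' : Iy κ₀ y := by
    refine ⟨?_, Or.inr (by linarith)⟩
    rw [abs_of_nonneg hy]
    exact lt_of_le_of_lt (mul_le_mul_of_nonneg_left hF2 hy) hI
  have hp := Real.pi_gt_d2
  have hEn : exp (-y) = 1 / exp y := by rw [exp_neg, one_div]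
  have hLp := Lk_pos hI'
  refine (L_ge (κ₀ := κ₀) (y' := y) (l := 0) (τm := τm) (t := τ - κ) hκ (by linarith) hy hI' (by norm_num) hLp.le ?_
    (by linarith) (by linarith) (by linarith)).2
  have ha' : a ≤ 1 - exp (-y) := by
    rw [hEn]
    have h4 : 1 / exp y ≤ 1 / Fl := one_div_le_one_div_of_le hFl0 hF1
    have h5 : a ≤ 1 - 1 / Fl := by
      rw [show 1 - 1 / Fl = (Fl - 1) / Fl by field_simp, le_div_iff₀ hFl0]
      exact ha
    linarith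
  have hc'' : c ≤ (2 * y - 1) * exp y + 1 := by
    rcases le_total 0 (2 * y - 1) with h | h
    · have := mul_le_mul_of_nonneg_left hF1 h
      linarith
    · have := mul_le_mul_of_nonpos_left hF2 h
      linarith
  have h6 : τm ≤ κ * a + c / κ := by
    rw [show κ * a + c / κ = (a * κ ^ 2 + c) / κ by field_simp, le_div_iff₀ hk]
    rcases hτ with h | ⟨h, h'⟩
    · have h7 : 0 ≤ (2 * a * κ - τm) ^ 2 := sq_nonneg _
      have h8 : 0 ≤ 4 * a * (a * κ ^ 2 + c - τm * κ) := by nlinarith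
      have h9 : 0 ≤ a * κ ^ 2 + c - τm * κ := by
        by_contra hcon
        push Not at hcon
        have := mul_neg_of_pos_of_neg (by linarith : 0 < 4 * a) hcon
        linarith
      linarith
    · have h7 : 0 ≤ (κ - κ₀) * (2 * a * κ₀ - τm) := mul_nonneg (by linarith) (by linarith)
      have h8 : 0 ≤ a * (κ - κ₀) ^ 2 := by positivity
      nlinarith
  have h10 : κ * a ≤ κ * (1 - exp (-y)) := mul_le_mul_of_nonneg_left ha' hk.le
  have h11 : c / κ ≤ ((2 * y - 1) * exp y + 1) / κ := by gcongr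
  linarith

/-- bound of `sn` from a bound of `sy` on `[κa, κb]` -/
theorem snY {b : ℕ} {κ κb y z v hl : ℝ} (hb : 1 ≤ b) (h1 : 1 ≤ κ) (h2 : κ ≤ κb) (hl0 : 0 < hl) (hh' : hl ≤ hh b)
    (hy0 : 0 ≤ y) (hy : sy κ (z * hh b - κ) ≤ y) (h : (1 + κb ^ 2) * y ≤ v * (κb * hl)) : sn b κ z ≤ v := by
  have hbp := hh_pos hb
  have hk : 0 < κ := by linarith
  have hkb : 0 < κb := by linarith
  have hv : 0 ≤ v := by
    by_contra hcon
    push Not at hcon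
    have h3 : v * (κb * hl) < 0 := mul_neg_of_neg_of_pos hcon (by positivity)
    have h4 : 0 ≤ (1 + κb ^ 2) * y := by positivity
    linarith
  unfold sn yv
  rw [div_div, div_le_iff₀ (by positivity)]
  have h3 : (1 + κ ^ 2) * sy κ (z * hh b - κ) ≤ (1 + κ ^ 2) * y := mul_le_mul_of_nonneg_left hy (by positivity)
  refine h3.trans ?_
  -- `(1 + κ²) y / κ ≤ (1 + κb²) y / κb`
  have h4 : (1 + κ ^ 2) * κb ≤ (1 + κb ^ 2) * κ := by
    have h5 : 0 ≤ (κb - κ) * (κ * κb - 1) := mul_nonneg (by linarith) (by nlinarith)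
    nlinarith
  have h6 : ((1 + κ ^ 2) * y) * κb ≤ (v * (κ * hh b)) * κb := by
    calc ((1 + κ ^ 2) * y) * κb = ((1 + κ ^ 2) * κb) * y := by ring
      _ ≤ ((1 + κb ^ 2) * κ) * y := mul_le_mul_of_nonneg_right h4 hy0
      _ = κ * ((1 + κb ^ 2) * y) := by ring
      _ ≤ κ * (v * (κb * hl)) := mul_le_mul_of_nonneg_left h hk.le
      _ ≤ κ * (v * (κb * hh b)) := by gcongr
      _ = (v * (κ * hh b)) * κb := by ring
  exact le_of_mul_le_mul_right h6 hkb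

/-! ### assembly -/

private theorem conv_le {t x y M : ℝ} (ht : t ∈ Icc (0 : ℝ) 1) (hx : x ≤ M) (hy : y ≤ M) : (1 - t) * x + t * y ≤ M := by
  have h1 := mul_le_mul_of_nonneg_left hx (by linarith [ht.2] : 0 ≤ 1 - t)
  have h2 := mul_le_mul_of_nonneg_left hy ht.1
  linarith

theorem secY_of {b : ℕ} {κ : ℝ} {N : Num} {qL qR S Sm U AL AR BL BR mL mR a1 a0 b1 dI2 dIm Sig : ℝ}
    (eL : N.qL = qL) (eR : N.qR = qR) (eS : N.S = S) (eSm : N.Sm = Sm) (hq : qL < qR)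
    (hA : ∀ t ∈ Icc (0 : ℝ) 1, sn b κ ((1 - t) * qL + t * qR + 1) ≤ (1 - t) * AL + t * AR)
    (hB : ∀ t ∈ Icc (0 : ℝ) 1, (1 - t) * BL + t * BR ≤ sn b κ ((1 - t) * qL + t * qR + 1))
    (hU : ∀ t ∈ Icc (0 : ℝ) 1, -sn b κ ((1 - t) * qL + t * qR) ≤ -(U * ((1 - t) * qL + t * qR)))
    (hm : ∀ t ∈ Icc (0 : ℝ) 1, (1 - t) * mL + t * mR ≤ -sn b κ ((1 - t) * qL + t * qR))
    (c1 : AL ≤ a1 ∧ AR ≤ a1) (c2 : b1 ≤ BL ∧ b1 ≤ BR) (c3 : -(U * qL) ≤ a0 ∧ -(U * qR) ≤ a0)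
    (c4 : 2 * AL - U * qL ≤ S + dI2 ∧ 2 * AR - U * qR ≤ S + dI2)
    (c5 : S - dI2 ≤ 2 * BL + mL ∧ S - dI2 ≤ 2 * BR + mR)
    (c6 : AL - 2 * (U * qL) ≤ Sm + dIm ∧ AR - 2 * (U * qR) ≤ Sm + dIm)
    (c7 : Sm - dIm ≤ BL + 2 * mL ∧ Sm - dIm ≤ BR + 2 * mR)
    (c8 : AL - U * qL ≤ Sig ∧ AR - U * qR ≤ Sig) : SecY b κ N a1 a0 b1 dI2 dIm Sig := by
  subst eL eR eS eSm
  have key : ∀ z ∈ Icc N.qL N.qR, ∃ t ∈ Icc (0 : ℝ) 1, z = (1 - t) * N.qL + t * N.qR := by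
    intro z hz
    have hqp : 0 < N.qR - N.qL := by linarith
    refine ⟨(z - N.qL) / (N.qR - N.qL), ⟨div_nonneg (by linarith [hz.1]) hqp.le, ?_⟩, ?_⟩
    · rw [div_le_one hqp]; linarith [hz.2]
    · field_simp; ring
  refine ⟨?_, ?_, ?_, ?_, ?_, ?_⟩
  all_goals
    intro z hz
    obtain ⟨t, ht, rfl⟩ := key z hz
    have hA' := hA t ht
    have hB' := hB t ht
    have hU' := hU t ht
    have hm' := hm t ht
  · exact hA'.trans (conv_le ht c1.1 c1.2)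
  · have := conv_le ht (neg_le_neg c2.1) (neg_le_neg c2.2)
    linarith
  · have := conv_le ht c3.1 c3.2
    linarith
  · have h1 := conv_le ht c4.1 c4.2
    have h2 := conv_le ht (neg_le_neg c5.1) (neg_le_neg c5.2)
    rw [abs_le]
    constructor <;> linarith
  · have h1 := conv_le ht c6.1 c6.2
    have h2 := conv_le ht (neg_le_neg c7.1) (neg_le_neg c7.2)
    rw [abs_le]
    constructor <;> linarith
  · have h1 := conv_le ht c8.1 c8.2
    linarith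

/-- type U: the curvature is at most `c` -/
theorem hA_U {b : ℕ} {κ c qL qR t τm : ℝ} (hb : 1 ≤ b) (h1 : 1 ≤ κ) (hL : 0 ≤ 1 + qL) (hq : qL ≤ qR)
    (hp : (1 + qR) * hh b ≤ τm) (hp' : τm < κ + π / 2)
    (hc : ∀ s, 0 ≤ s → s < κ + π / 2 → lv κ s ≤ c) (ht : t ∈ Icc (0 : ℝ) 1) :
    sn b κ ((1 - t) * qL + t * qR + 1) ≤ (1 - t) * (c * (1 + qL)) + t * (c * (1 + qR)) := by
  have hbp := hh_pos hb
  have ht0 := ht.1
  have ht1 : 0 ≤ 1 - t := by linarith [ht.2]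
  have hz : (1 - t) * qL + t * qR + 1 ≤ 1 + qR := by nlinarith
  have hz0 : 0 ≤ (1 - t) * qL + t * qR + 1 := by nlinarith
  refine (snU (τm := τm) hb h1 hz0 ((mul_le_mul_of_nonneg_right hz hbp.le).trans hp) hp' hc).trans (le_of_eq ?_)
  ring

/-- type R: bound at `qR`, lower bound of the curvature -/
theorem hA_R {b : ℕ} {κ qL qR B l a t : ℝ} (L : LineLo κ (hh b) qL qR B l) (hq : qL ≤ qR) (ha : sn b κ (qR + 1) ≤ a)
    (ht : t ∈ Icc (0 : ℝ) 1) :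
    sn b κ ((1 - t) * qL + t * qR + 1) ≤ (1 - t) * (a - l * (qR - qL)) + t * a := by
  have ht0 := ht.1
  have ht1 : 0 ≤ 1 - t := by linarith [ht.2]
  have h1 := L.up ((1 - t) * qL + t * qR) ⟨by nlinarith, by nlinarith⟩
  have h2 : sn b κ ((1 - t) * qL + t * qR + 1) ≤ sn b κ (qR + 1) - l * (qR - ((1 - t) * qL + t * qR)) := h1
  refine h2.trans ?_
  nlinarith

theorem hB_of {b : ℕ} {κ qL qR B l t : ℝ} (L : LineLo κ (hh b) qL qR B l) (hq : qL ≤ qR) (ht : t ∈ Icc (0 : ℝ) 1) :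
    (1 - t) * B + t * (B + l * (qR - qL)) ≤ sn b κ ((1 - t) * qL + t * qR + 1) := by
  have ht0 := ht.1
  have ht1 : 0 ≤ 1 - t := by linarith [ht.2]
  have h1 := L.lo ((1 - t) * qL + t * qR) ⟨by nlinarith, by nlinarith⟩
  have h2 : B + l * (((1 - t) * qL + t * qR) - qL) ≤ sn b κ ((1 - t) * qL + t * qR + 1) := h1
  refine le_trans (le_of_eq ?_) h2
  ring

theorem hU_of {b : ℕ} {κ U qL qR t : ℝ} (hb : 1 ≤ b) (h1 : 139 / 100 ≤ κ) (hU : U = 103 / 100 ∨ (U = 1 ∧ 3 ≤ κ ^ 2))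
    (hL : qL ≤ 0) (hR : qR ≤ 0) (ht : t ∈ Icc (0 : ℝ) 1) :
    -sn b κ ((1 - t) * qL + t * qR) ≤ -(U * ((1 - t) * qL + t * qR)) := by
  have ht0 := ht.1
  have ht1 : 0 ≤ 1 - t := by linarith [ht.2]
  obtain ⟨z, hz⟩ : ∃ z, z = -((1 - t) * qL + t * qR) := ⟨_, rfl⟩
  have hz0 : 0 ≤ z := by rw [hz]; nlinarith
  have e : (1 - t) * qL + t * qR = -z := by rw [hz]; ring
  rw [e]
  rcases hU with h | ⟨h, h3⟩
  · have := (en_le_left' (b := b) hb h1 hz0).2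
    rw [h]; linarith
  · have := (en_le_left (b := b) hb (by linarith) h3 hz0).2
    rw [h]; linarith

end Sok.R2
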