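import Pool.Agent.Lib.MP_816dec_an.R2Cls
import Pool.Agent.Lib.MP_816dec_an.R2SecY0
import Pool.Agent.Lib.MP_816dec_an.R2TabA

/-!
MP_816dec_an, row R2 (4): `SecY` for the classes b = 1, 2.
-/

set_option autoImplicit false

open Set Filter Topology Real

namespace Sok.R2

theorem secY1_1 {b : ℕ} {κ : ℝ} (hb : b = 1) (h1 : 47 / 10 ≤ κ) (h2 : κ ≤ 28 / 5) :
    SecY b κ c1_1.num (41 / 50) (29 / 50) (417 / 1000) (679 / 500) (1181 / 1000) (1231 / 1000) := by
  have hb1 : 1 ≤ b := by omega
  have hk1 : 1 ≤ κ := by linarith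
  have hh0 := hh_pos hb1
  have hp4 := Real.pi_lt_d4
  have hp3 := Real.pi_gt_d4
  have hheq : hh b = 2 * π / 1 := by rw [hb]; unfold hh; norm_num
  have hhle : hh b ≤ 2 * π / 1 := hheq.le
  have hhq : hh b ≤ 3927 / 625 := by
    refine hhle.trans ?_
    rw [div_le_iff₀ (by norm_num)]
    linarith
  obtain ⟨L, hl, hbl, hd⟩ := lr1_1 h1 hh0 hhle
  have LL : LineLo κ (hh b) (-29 / 50) (-41 / 100) (4179 / 10000) (199 / 200) := LineLo.of hk1 hh0 L (by norm_num) hl hbl hd
  have ha : sn b κ ((-41 / 100) + 1) ≤ 41 / 50 := by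
    rcases le_total κ (503 / 100) with k0 | j0
    · exact snY (κb := 503 / 100) (y := 9841 / 10000) (hl := 6283 / 1000) hb1 hk1 k0 (by norm_num) (by rw [hheq]; linarith) (by norm_num)
          (sy_le_of (κ₀ := 47 / 10) (Fl := 1337701 / 500000) (Fh := 2675403 / 1000000) (a := 39139 / 62500) (c := 897581 / 250000) (τm := 370709 / 100000) (by norm_num) (by norm_num) (by norm_num)
            (exp_bds (by norm_num) (by norm_num) (by norm_num [Finset.sum_range_succ, Nat.factorial]) (by norm_num [Finset.sum_range_succ, Nat.factorial]))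
            (by norm_num) (by norm_num) (by norm_num) (by norm_num) (by norm_num) (Or.inr ⟨by norm_num, by norm_num⟩) (by norm_num) h1
            (by linarith) (by linarith)) (by norm_num)
    rcases le_total κ (529 / 100) with k1 | j1
    · exact snY (κb := 529 / 100) (y := 9387 / 10000) (hl := 6283 / 1000) hb1 hk1 k1 (by norm_num) (by rw [hheq]; linarith) (by norm_num)
          (sy_le_of (κ₀ := 503 / 100) (Fl := 511331 / 200000) (Fh := 159791 / 62500) (a := 608863 / 1000000) (c := 3243209 / 1000000) (τm := 370709 / 100000) (by norm_num) (by norm_num) (by norm_num)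
            (exp_bds (by norm_num) (by norm_num) (by norm_num [Finset.sum_range_succ, Nat.factorial]) (by norm_num [Finset.sum_range_succ, Nat.factorial]))
            (by norm_num) (by norm_num) (by norm_num) (by norm_num) (by norm_num) (Or.inr ⟨by norm_num, by norm_num⟩) (by norm_num) j0
            (by linarith) (by linarith)) (by norm_num)
    rcases le_total κ (553 / 100) with k2 | j2
    · exact snY (κb := 553 / 100) (y := 451 / 500) (hl := 6283 / 1000) hb1 hk1 k2 (by norm_num) (by rw [hheq]; linarith) (by norm_num)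
          (sy_le_of (κ₀ := 529 / 100) (Fl := 2464527 / 1000000) (Fh := 154033 / 62500) (a := 297121 / 500000) (c := 2981479 / 1000000) (τm := 370709 / 100000) (by norm_num) (by norm_num) (by norm_num)
            (exp_bds (by norm_num) (by norm_num) (by norm_num [Finset.sum_range_succ, Nat.factorial]) (by norm_num [Finset.sum_range_succ, Nat.factorial]))
            (by norm_num) (by norm_num) (by norm_num) (by norm_num) (by norm_num) (Or.inr ⟨by norm_num, by norm_num⟩) (by norm_num) j1
            (by linarith) (by linarith)) (by norm_num)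
    exact snY (κb := 28 / 5) (y := 8683 / 10000) (hl := 6283 / 1000) hb1 hk1 h2 (by norm_num) (by rw [hheq]; linarith) (by norm_num)
          (sy_le_of (κ₀ := 553 / 100) (Fl := 297857 / 125000) (Fh := 2382857 / 1000000) (a := 116067 / 200000) (c := 2755211 / 1000000) (τm := 370709 / 100000) (by norm_num) (by norm_num) (by norm_num)
            (exp_bds (by norm_num) (by norm_num) (by norm_num [Finset.sum_range_succ, Nat.factorial]) (by norm_num [Finset.sum_range_succ, Nat.factorial]))
            (by norm_num) (by norm_num) (by norm_num) (by norm_num) (by norm_num) (Or.inr ⟨by norm_num, by norm_num⟩) (by norm_num) j2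
            (by linarith) (by linarith)) (by norm_num)
  have hA : ∀ t ∈ Icc (0 : ℝ) 1, sn b κ ((1 - t) * (-29 / 50) + t * (-41 / 100) + 1) ≤
      (1 - t) * ((41 / 50) - (199 / 200) * ((-41 / 100) - (-29 / 50))) + t * (41 / 50) :=
    fun t ht => hA_R LL (by norm_num) ha ht
  exact secY_of (qL := -29 / 50) (qR := -41 / 100) (S := 173 / 250) (Sm := 63 / 100) (U := 1) (AL := (41 / 50) - (199 / 200) * ((-41 / 100) - (-29 / 50))) (AR := 41 / 50)
    (BL := (4179 / 10000)) (BR := (4179 / 10000) + (199 / 200) * ((-41 / 100) - (-29 / 50))) (mL := 214687 / 500000) (mR := 5108 / 15625)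
    (by norm_num [NumQ.num, c1_1]) (by norm_num [NumQ.num, c1_1]) (by norm_num [NumQ.num, c1_1]) (by norm_num [NumQ.num, c1_1])
    (by norm_num) hA (fun t ht => hB_of LL (by norm_num) ht)
    (fun t ht => hU_of hb1 (by linarith) (Or.inr ⟨rfl, by nlinarith⟩) (by norm_num) (by norm_num) ht)
    (fun t ht => log_interp (H₁ := 66843 / 50000) hb1 hk1 (by linarith) (by norm_num) (by norm_num) ht
      (exp_le_bd (by norm_num) (by norm_num) (by norm_num [Finset.sum_range_succ, Nat.factorial])) (exp_le_bd (by norm_num) (by norm_num) (by norm_num [Finset.sum_range_succ, Nat.factorial])))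
    ⟨by norm_num, by norm_num⟩ ⟨by norm_num, by norm_num⟩ ⟨by norm_num, by norm_num⟩ ⟨by norm_num, by norm_num⟩
    ⟨by norm_num, by norm_num⟩ ⟨by norm_num, by norm_num⟩ ⟨by norm_num, by norm_num⟩ ⟨by norm_num, by norm_num⟩

theorem secY1_2 {b : ℕ} {κ : ℝ} (hb : b = 1) (h1 : 28 / 5 ≤ κ) (h2 : κ ≤ 69 / 10) :
    SecY b κ c1_2.num (891 / 1000) (117 / 200) (103 / 250) (339 / 250) (589 / 500) (1263 / 1000) := by
  have hb1 : 1 ≤ b := by omega
  have hk1 : 1 ≤ κ := by linarith
  have hh0 := hh_pos hb1
  have hp4 := Real.pi_lt_d4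
  have hp3 := Real.pi_gt_d4
  have hheq : hh b = 2 * π / 1 := by rw [hb]; unfold hh; norm_num
  have hhle : hh b ≤ 2 * π / 1 := hheq.le
  have hhq : hh b ≤ 3927 / 625 := by
    refine hhle.trans ?_
    rw [div_le_iff₀ (by norm_num)]
    linarith
  obtain ⟨L, hl, hbl, hd⟩ := lr1_2 h1 hh0 hhle
  have LL : LineLo κ (hh b) (-117 / 200) (-37 / 100) (16517 / 40000) (199 / 200) := LineLo.of hk1 hh0 L (by norm_num) hl hbl hd
  have ha : sn b κ ((-37 / 100) + 1) ≤ 891 / 1000 := by
    rcases le_total κ (146 / 25) with k0 | j0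
    · exact snY (κb := 146 / 25) (y := 9301 / 10000) (hl := 6283 / 1000) hb1 hk1 k0 (by norm_num) (by rw [hheq]; linarith) (by norm_num)
          (sy_le_of (κ₀ := 28 / 5) (Fl := 1267381 / 500000) (Fh := 2534763 / 1000000) (a := 121097 / 200000) (c := 1590201 / 500000) (τm := 197921 / 50000) (by norm_num) (by norm_num) (by norm_num)
            (exp_bds (by norm_num) (by norm_num) (by norm_num [Finset.sum_range_succ, Nat.factorial]) (by norm_num [Finset.sum_range_succ, Nat.factorial]))
            (by norm_num) (by norm_num) (by norm_num) (by norm_num) (by norm_num) (Or.inr ⟨by norm_num, by norm_num⟩) (by norm_num) h1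
            (by linarith) (by linarith)) (by norm_num)
    rcases le_total κ (607 / 100) with k1 | j1
    · exact snY (κb := 607 / 100) (y := 8957 / 10000) (hl := 6283 / 1000) hb1 hk1 k1 (by norm_num) (by rw [hheq]; linarith) (by norm_num)
          (sy_le_of (κ₀ := 146 / 25) (Fl := 2449049 / 1000000) (Fh := 48981 / 20000) (a := 295839 / 500000) (c := 2938177 / 1000000) (τm := 197921 / 50000) (by norm_num) (by norm_num) (by norm_num)
            (exp_bds (by norm_num) (by norm_num) (by norm_num [Finset.sum_range_succ, Nat.factorial]) (by norm_num [Finset.sum_range_succ, Nat.factorial]))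
            (by norm_num) (by norm_num) (by norm_num) (by norm_num) (by norm_num) (Or.inr ⟨by norm_num, by norm_num⟩) (by norm_num) j0
            (by linarith) (by linarith)) (by norm_num)
    rcases le_total κ (631 / 100) with k2 | j2
    · exact snY (κb := 631 / 100) (y := 4317 / 5000) (hl := 6283 / 1000) hb1 hk1 k2 (by norm_num) (by rw [hheq]; linarith) (by norm_num)
          (sy_le_of (κ₀ := 607 / 100) (Fl := 2371209 / 1000000) (Fh := 237121 / 100000) (a := 289137 / 500000) (c := 1361697 / 500000) (τm := 197921 / 50000) (by norm_num) (by norm_num) (by norm_num)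
            (exp_bds (by norm_num) (by norm_num) (by norm_num [Finset.sum_range_succ, Nat.factorial]) (by norm_num [Finset.sum_range_succ, Nat.factorial]))
            (by norm_num) (by norm_num) (by norm_num) (by norm_num) (by norm_num) (Or.inr ⟨by norm_num, by norm_num⟩) (by norm_num) j1
            (by linarith) (by linarith)) (by norm_num)
    rcases le_total κ (329 / 50) with k3 | j3
    · exact snY (κb := 329 / 50) (y := 1661 / 2000) (hl := 6283 / 1000) hb1 hk1 k3 (by norm_num) (by rw [hheq]; linarith) (by norm_num)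
          (sy_le_of (κ₀ := 631 / 100) (Fl := 458893 / 200000) (Fh := 1147233 / 500000) (a := 70521 / 125000) (c := 2516641 / 1000000) (τm := 197921 / 50000) (by norm_num) (by norm_num) (by norm_num)
            (exp_bds (by norm_num) (by norm_num) (by norm_num [Finset.sum_range_succ, Nat.factorial]) (by norm_num [Finset.sum_range_succ, Nat.factorial]))
            (by norm_num) (by norm_num) (by norm_num) (by norm_num) (by norm_num) (Or.inr ⟨by norm_num, by norm_num⟩) (by norm_num) j2
            (by linarith) (by linarith)) (by norm_num)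
    rcases le_total κ (172 / 25) with k4 | j4
    · exact snY (κb := 172 / 25) (y := 7949 / 10000) (hl := 6283 / 1000) hb1 hk1 k4 (by norm_num) (by rw [hheq]; linarith) (by norm_num)
          (sy_le_of (κ₀ := 329 / 50) (Fl := 2214219 / 1000000) (Fh := 110711 / 50000) (a := 548373 / 1000000) (c := 1152973 / 500000) (τm := 197921 / 50000) (by norm_num) (by norm_num) (by norm_num)
            (exp_bds (by norm_num) (by norm_num) (by norm_num [Finset.sum_range_succ, Nat.factorial]) (by norm_num [Finset.sum_range_succ, Nat.factorial]))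
            (by norm_num) (by norm_num) (by norm_num) (by norm_num) (by norm_num) (Or.inr ⟨by norm_num, by norm_num⟩) (by norm_num) j3
            (by linarith) (by linarith)) (by norm_num)
    exact snY (κb := 69 / 10) (y := 7573 / 10000) (hl := 6283 / 1000) hb1 hk1 h2 (by norm_num) (by rw [hheq]; linarith) (by norm_num)
          (sy_le_of (κ₀ := 172 / 25) (Fl := 213251 / 100000) (Fh := 2132511 / 1000000) (a := 531069 / 1000000) (c := 2097389 / 1000000) (τm := 197921 / 50000) (by norm_num) (by norm_num) (by norm_num)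
            (exp_bds (by norm_num) (by norm_num) (by norm_num [Finset.sum_range_succ, Nat.factorial]) (by norm_num [Finset.sum_range_succ, Nat.factorial]))
            (by norm_num) (by norm_num) (by norm_num) (by norm_num) (by norm_num) (Or.inr ⟨by norm_num, by norm_num⟩) (by norm_num) j4
            (by linarith) (by linarith)) (by norm_num)
  have hA : ∀ t ∈ Icc (0 : ℝ) 1, sn b κ ((1 - t) * (-117 / 200) + t * (-37 / 100) + 1) ≤
      (1 - t) * ((891 / 1000) - (199 / 200) * ((-37 / 100) - (-117 / 200))) + t * (891 / 1000) :=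
    fun t ht => hA_R LL (by norm_num) ha ht
  exact secY_of (qL := -117 / 200) (qR := -37 / 100) (S := 199 / 250) (Sm := 67 / 100) (U := 1) (AL := (891 / 1000) - (199 / 200) * ((-37 / 100) - (-117 / 200))) (AR := 891 / 1000)
    (BL := (16517 / 40000)) (BR := (16517 / 40000) + (199 / 200) * ((-37 / 100) - (-117 / 200))) (mL := 449757 / 1000000) (mR := 9671 / 31250)
    (by norm_num [NumQ.num, c1_2]) (by norm_num [NumQ.num, c1_2]) (by norm_num [NumQ.num, c1_2]) (by norm_num [NumQ.num, c1_2])
    (by norm_num) hA (fun t ht => hB_of LL (by norm_num) ht)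
    (fun t ht => hU_of hb1 (by linarith) (Or.inr ⟨rfl, by nlinarith⟩) (by norm_num) (by norm_num) ht)
    (fun t ht => log_interp (H₁ := 561 / 500) hb1 hk1 (by linarith) (by norm_num) (by norm_num) ht
      (exp_le_bd (by norm_num) (by norm_num) (by norm_num [Finset.sum_range_succ, Nat.factorial])) (exp_le_bd (by norm_num) (by norm_num) (by norm_num [Finset.sum_range_succ, Nat.factorial])))
    ⟨by norm_num, by norm_num⟩ ⟨by norm_num, by norm_num⟩ ⟨by norm_num, by norm_num⟩ ⟨by norm_num, by norm_num⟩
    ⟨by norm_num, by norm_num⟩ ⟨by norm_num, by norm_num⟩ ⟨by norm_num, by norm_num⟩ ⟨by norm_num, by norm_num⟩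

theorem secY1_3 {b : ℕ} {κ : ℝ} (hb : b = 1) (h1 : 69 / 10 ≤ κ) (h2 : κ ≤ 77 / 10) :
    SecY b κ c1_3.num (453 / 500) (59 / 100) (407 / 1000) (1371 / 1000) (1143 / 1000) (1263 / 1000) := by
  have hb1 : 1 ≤ b := by omega
  have hk1 : 1 ≤ κ := by linarith
  have hh0 := hh_pos hb1
  have hp4 := Real.pi_lt_d4
  have hp3 := Real.pi_gt_d4
  have hheq : hh b = 2 * π / 1 := by rw [hb]; unfold hh; norm_num
  have hhle : hh b ≤ 2 * π / 1 := hheq.le
  have hhq : hh b ≤ 3927 / 625 := by
    refine hhle.trans ?_
    rw [div_le_iff₀ (by norm_num)]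
    linarith
  obtain ⟨L, hl, hbl, hd⟩ := lr1_3 h1 hh0 hhle
  have LL : LineLo κ (hh b) (-59 / 100) (-71 / 200) (8159 / 20000) (199 / 200) := LineLo.of hk1 hh0 L (by norm_num) hl hbl hd
  have ha : sn b κ ((-71 / 200) + 1) ≤ 453 / 500 := by
    rcases le_total κ (179 / 25) with k0 | j0
    · exact snY (κb := 179 / 25) (y := 1557 / 2000) (hl := 6283 / 1000) hb1 hk1 k0 (by norm_num) (by rw [hheq]; linarith) (by norm_num)
          (sy_le_of (κ₀ := 69 / 10) (Fl := 1089101 / 500000) (Fh := 2178203 / 1000000) (a := 108181 / 200000) (c := 1106629 / 500000) (τm := 405267 / 100000) (by norm_num) (by norm_num) (by norm_num)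
            (exp_bds (by norm_num) (by norm_num) (by norm_num [Finset.sum_range_succ, Nat.factorial]) (by norm_num [Finset.sum_range_succ, Nat.factorial]))
            (by norm_num) (by norm_num) (by norm_num) (by norm_num) (by norm_num) (Or.inr ⟨by norm_num, by norm_num⟩) (by norm_num) h1
            (by linarith) (by linarith)) (by norm_num)
    rcases le_total κ (747 / 100) with k1 | j1
    · exact snY (κb := 747 / 100) (y := 747 / 1000) (hl := 6283 / 1000) hb1 hk1 k1 (by norm_num) (by rw [hheq]; linarith) (by norm_num)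
          (sy_le_of (κ₀ := 179 / 25) (Fl := 1055329 / 500000) (Fh := 2110659 / 1000000) (a := 263107 / 500000) (c := 408533 / 200000) (τm := 405267 / 100000) (by norm_num) (by norm_num) (by norm_num)
            (exp_bds (by norm_num) (by norm_num) (by norm_num [Finset.sum_range_succ, Nat.factorial]) (by norm_num [Finset.sum_range_succ, Nat.factorial]))
            (by norm_num) (by norm_num) (by norm_num) (by norm_num) (by norm_num) (Or.inr ⟨by norm_num, by norm_num⟩) (by norm_num) j0
            (by linarith) (by linarith)) (by norm_num)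
    exact snY (κb := 77 / 10) (y := 7117 / 10000) (hl := 6283 / 1000) hb1 hk1 h2 (by norm_num) (by rw [hheq]; linarith) (by norm_num)
          (sy_le_of (κ₀ := 747 / 100) (Fl := 2037451 / 1000000) (Fh := 509363 / 250000) (a := 50919 / 100000) (c := 29104 / 15625) (τm := 405267 / 100000) (by norm_num) (by norm_num) (by norm_num)
            (exp_bds (by norm_num) (by norm_num) (by norm_num [Finset.sum_range_succ, Nat.factorial]) (by norm_num [Finset.sum_range_succ, Nat.factorial]))
            (by norm_num) (by norm_num) (by norm_num) (by norm_num) (by norm_num) (Or.inr ⟨by norm_num, by norm_num⟩) (by norm_num) j1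
            (by linarith) (by linarith)) (by norm_num)
  have hA : ∀ t ∈ Icc (0 : ℝ) 1, sn b κ ((1 - t) * (-59 / 100) + t * (-71 / 200) + 1) ≤
      (1 - t) * ((453 / 500) - (199 / 200) * ((-71 / 200) - (-59 / 100))) + t * (453 / 500) :=
    fun t ht => hA_R LL (by norm_num) ha ht
  exact secY_of (qL := -59 / 100) (qR := -71 / 200) (S := 199 / 250) (Sm := 71 / 100) (U := 1) (AL := (453 / 500) - (199 / 200) * ((-71 / 200) - (-59 / 100))) (AR := 453 / 500)
    (BL := (8159 / 20000)) (BR := (8159 / 20000) + (199 / 200) * ((-71 / 200) - (-59 / 100))) (mL := 118053 / 250000) (mR := 307599 / 1000000)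
    (by norm_num [NumQ.num, c1_3]) (by norm_num [NumQ.num, c1_3]) (by norm_num [NumQ.num, c1_3]) (by norm_num [NumQ.num, c1_3])
    (by norm_num) hA (fun t ht => hB_of LL (by norm_num) ht)
    (fun t ht => hU_of hb1 (by linarith) (Or.inr ⟨rfl, by nlinarith⟩) (by norm_num) (by norm_num) ht)
    (fun t ht => log_interp (H₁ := 91061 / 100000) hb1 hk1 (by linarith) (by norm_num) (by norm_num) ht
      (exp_le_bd (by norm_num) (by norm_num) (by norm_num [Finset.sum_range_succ, Nat.factorial])) (exp_le_bd (by norm_num) (by norm_num) (by norm_num [Finset.sum_range_succ, Nat.factorial])))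
    ⟨by norm_num, by norm_num⟩ ⟨by norm_num, by norm_num⟩ ⟨by norm_num, by norm_num⟩ ⟨by norm_num, by norm_num⟩
    ⟨by norm_num, by norm_num⟩ ⟨by norm_num, by norm_num⟩ ⟨by norm_num, by norm_num⟩ ⟨by norm_num, by norm_num⟩

theorem secY1_4 {b : ℕ} {κ : ℝ} (hb : b = 1) (h1 : 77 / 10 ≤ κ) (h2 : κ ≤ 41 / 5) :
    SecY b κ c1_4.num (913 / 1000) (119 / 200) (201 / 500) (137 / 100) (28 / 25) (251 / 200) := by
  have hb1 : 1 ≤ b := by omega
  have hk1 : 1 ≤ κ := by linarith
  have hh0 := hh_pos hb1
  have hp4 := Real.pi_lt_d4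
  have hp3 := Real.pi_gt_d4
  have hheq : hh b = 2 * π / 1 := by rw [hb]; unfold hh; norm_num
  have hhle : hh b ≤ 2 * π / 1 := hheq.le
  have hhq : hh b ≤ 3927 / 625 := by
    refine hhle.trans ?_
    rw [div_le_iff₀ (by norm_num)]
    linarith
  obtain ⟨L, hl, hbl, hd⟩ := lr1_4 h1 hh0 hhle
  have LL : LineLo κ (hh b) (-119 / 200) (-17 / 50) (16119 / 40000) (199 / 200) := LineLo.of hk1 hh0 L (by norm_num) hl hbl hd
  have ha : sn b κ ((-17 / 50) + 1) ≤ 913 / 1000 := by
    rcases le_total κ (199 / 25) with k0 | j0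
    · exact snY (κb := 199 / 25) (y := 3541 / 5000) (hl := 6283 / 1000) hb1 hk1 k0 (by norm_num) (by rw [hheq]; linarith) (by norm_num)
          (sy_le_of (κ₀ := 77 / 10) (Fl := 2030333 / 1000000) (Fh := 1015167 / 500000) (a := 507469 / 1000000) (c := 184543 / 100000) (τm := 103673 / 25000) (by norm_num) (by norm_num) (by norm_num)
            (exp_bds (by norm_num) (by norm_num) (by norm_num [Finset.sum_range_succ, Nat.factorial]) (by norm_num [Finset.sum_range_succ, Nat.factorial]))
            (by norm_num) (by norm_num) (by norm_num) (by norm_num) (by norm_num) (Or.inr ⟨by norm_num, by norm_num⟩) (by norm_num) h1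
            (by linarith) (by linarith)) (by norm_num)
    exact snY (κb := 41 / 5) (y := 6811 / 10000) (hl := 6283 / 1000) hb1 hk1 h2 (by norm_num) (by rw [hheq]; linarith) (by norm_num)
          (sy_le_of (κ₀ := 199 / 25) (Fl := 39521 / 20000) (Fh := 1976051 / 1000000) (a := 493939 / 1000000) (c := 68629 / 40000) (τm := 103673 / 25000) (by norm_num) (by norm_num) (by norm_num)
            (exp_bds (by norm_num) (by norm_num) (by norm_num [Finset.sum_range_succ, Nat.factorial]) (by norm_num [Finset.sum_range_succ, Nat.factorial]))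
            (by norm_num) (by norm_num) (by norm_num) (by norm_num) (by norm_num) (Or.inr ⟨by norm_num, by norm_num⟩) (by norm_num) j0
            (by linarith) (by linarith)) (by norm_num)
  have hA : ∀ t ∈ Icc (0 : ℝ) 1, sn b κ ((1 - t) * (-119 / 200) + t * (-17 / 50) + 1) ≤
      (1 - t) * ((913 / 1000) - (199 / 200) * ((-17 / 50) - (-119 / 200))) + t * (913 / 1000) :=
    fun t ht => hA_R LL (by norm_num) ha ht
  exact secY_of (qL := -119 / 200) (qR := -17 / 50) (S := 199 / 250) (Sm := 73 / 100) (U := 1) (AL := (913 / 1000) - (199 / 200) * ((-17 / 50) - (-119 / 200))) (AR := 913 / 1000)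
    (BL := (16119 / 40000)) (BR := (16119 / 40000) + (199 / 200) * ((-17 / 50) - (-119 / 200))) (mL := 97001 / 200000) (mR := 300071 / 1000000)
    (by norm_num [NumQ.num, c1_4]) (by norm_num [NumQ.num, c1_4]) (by norm_num [NumQ.num, c1_4]) (by norm_num [NumQ.num, c1_4])
    (by norm_num) hA (fun t ht => hB_of LL (by norm_num) ht)
    (fun t ht => hU_of hb1 (by linarith) (Or.inr ⟨rfl, by nlinarith⟩) (by norm_num) (by norm_num) ht)
    (fun t ht => log_interp (H₁ := 102 / 125) hb1 hk1 (by linarith) (by norm_num) (by norm_num) ht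
      (exp_le_bd (by norm_num) (by norm_num) (by norm_num [Finset.sum_range_succ, Nat.factorial])) (exp_le_bd (by norm_num) (by norm_num) (by norm_num [Finset.sum_range_succ, Nat.factorial])))
    ⟨by norm_num, by norm_num⟩ ⟨by norm_num, by norm_num⟩ ⟨by norm_num, by norm_num⟩ ⟨by norm_num, by norm_num⟩
    ⟨by norm_num, by norm_num⟩ ⟨by norm_num, by norm_num⟩ ⟨by norm_num, by norm_num⟩ ⟨by norm_num, by norm_num⟩

theorem secY1_5 {b : ℕ} {κ : ℝ} (hb : b = 1) (h1 : 41 / 5 ≤ κ) (_h2 : κ ≤ 19 / 2) :
    SecY b κ c1_5.num (91 / 100) (3 / 5) (199 / 500) (63 / 50) (1107 / 1000) (1247 / 1000) := by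
  have hb1 : 1 ≤ b := by omega
  have hk1 : 1 ≤ κ := by linarith
  have hh0 := hh_pos hb1
  have hp4 := Real.pi_lt_d4
  have hp3 := Real.pi_gt_d4
  have hheq : hh b = 2 * π / 1 := by rw [hb]; unfold hh; norm_num
  have hhle : hh b ≤ 2 * π / 1 := hheq.le
  have hhq : hh b ≤ 3927 / 625 := by
    refine hhle.trans ?_
    rw [div_le_iff₀ (by norm_num)]
    linarith
  obtain ⟨L, hl, hbl, hd⟩ := lr1_5 h1 hh0 hhle
  have LL : LineLo κ (hh b) (-3 / 5) (-67 / 200) (199 / 500) (199 / 200) := LineLo.of hk1 hh0 L (by norm_num) hl hbl hd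
  have ha : sn b κ ((-67 / 200) + 1) ≤ 91 / 100 := by
    rcases le_total κ (212 / 25) with k0 | j0
    · exact snY (κb := 212 / 25) (y := 6641 / 10000) (hl := 6283 / 1000) hb1 hk1 k0 (by norm_num) (by rw [hheq]; linarith) (by norm_num)
          (sy_le_of (κ₀ := 41 / 5) (Fl := 1942741 / 1000000) (Fh := 971371 / 500000) (a := 485263 / 1000000) (c := 1637607 / 1000000) (τm := 417833 / 100000) (by norm_num) (by norm_num) (by norm_num)
            (exp_bds (by norm_num) (by norm_num) (by norm_num [Finset.sum_range_succ, Nat.factorial]) (by norm_num [Finset.sum_range_succ, Nat.factorial]))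
            (by norm_num) (by norm_num) (by norm_num) (by norm_num) (by norm_num) (Or.inr ⟨by norm_num, by norm_num⟩) (by norm_num) h1
            (by linarith) (by linarith)) (by norm_num)
    rcases le_total κ (883 / 100) with k1 | j1
    · exact snY (κb := 883 / 100) (y := 6379 / 10000) (hl := 6283 / 1000) hb1 hk1 k1 (by norm_num) (by rw [hheq]; linarith) (by norm_num)
          (sy_le_of (κ₀ := 212 / 25) (Fl := 946251 / 500000) (Fh := 1892503 / 1000000) (a := 235799 / 500000) (c := 47561 / 31250) (τm := 417833 / 100000) (by norm_num) (by norm_num) (by norm_num)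
            (exp_bds (by norm_num) (by norm_num) (by norm_num [Finset.sum_range_succ, Nat.factorial]) (by norm_num [Finset.sum_range_succ, Nat.factorial]))
            (by norm_num) (by norm_num) (by norm_num) (by norm_num) (by norm_num) (Or.inr ⟨by norm_num, by norm_num⟩) (by norm_num) j0
            (by linarith) (by linarith)) (by norm_num)
    exact (snL (H := 35579 / 50000) (v := 91 / 100) (F := 191083 / 100000) hb1 hk1 (by linarith) (by norm_num) (by norm_num) (by norm_num)
          (exp_ge_bd (by norm_num) (by norm_num [Finset.sum_range_succ, Nat.factorial])) (by norm_num)).trans (by norm_num)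
  have hA : ∀ t ∈ Icc (0 : ℝ) 1, sn b κ ((1 - t) * (-3 / 5) + t * (-67 / 200) + 1) ≤
      (1 - t) * ((91 / 100) - (199 / 200) * ((-67 / 200) - (-3 / 5))) + t * (91 / 100) :=
    fun t ht => hA_R LL (by norm_num) ha ht
  exact secY_of (qL := -3 / 5) (qR := -67 / 200) (S := 1791 / 2000) (Sm := 37 / 50) (U := 1) (AL := (91 / 100) - (199 / 200) * ((-67 / 200) - (-3 / 5))) (AR := 91 / 100)
    (BL := (199 / 500)) (BR := (199 / 500) + (199 / 200) * ((-67 / 200) - (-3 / 5))) (mL := 493657 / 1000000) (mR := 59637 / 200000)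
    (by norm_num [NumQ.num, c1_5]) (by norm_num [NumQ.num, c1_5]) (by norm_num [NumQ.num, c1_5]) (by norm_num [NumQ.num, c1_5])
    (by norm_num) hA (fun t ht => hB_of LL (by norm_num) ht)
    (fun t ht => hU_of hb1 (by linarith) (Or.inr ⟨rfl, by nlinarith⟩) (by norm_num) (by norm_num) ht)
    (fun t ht => log_interp (H₁ := 613 / 800) hb1 hk1 (by linarith) (by norm_num) (by norm_num) ht
      (exp_le_bd (by norm_num) (by norm_num) (by norm_num [Finset.sum_range_succ, Nat.factorial])) (exp_le_bd (by norm_num) (by norm_num) (by norm_num [Finset.sum_range_succ, Nat.factorial])))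
    ⟨by norm_num, by norm_num⟩ ⟨by norm_num, by norm_num⟩ ⟨by norm_num, by norm_num⟩ ⟨by norm_num, by norm_num⟩
    ⟨by norm_num, by norm_num⟩ ⟨by norm_num, by norm_num⟩ ⟨by norm_num, by norm_num⟩ ⟨by norm_num, by norm_num⟩

theorem secY1_6 {b : ℕ} {κ : ℝ} (hb : b = 1) (h1 : 19 / 2 ≤ κ) (_h2 : κ ≤ 20) :
    SecY b κ c1_6.num (17 / 20) (119 / 200) (201 / 500) (231 / 200) (129 / 125) (601 / 500) := by
  have hb1 : 1 ≤ b := by omega
  have hk1 : 1 ≤ κ := by linarith
  have hh0 := hh_pos hb1
  have hp4 := Real.pi_lt_d4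
  have hp3 := Real.pi_gt_d4
  have hheq : hh b = 2 * π / 1 := by rw [hb]; unfold hh; norm_num
  have hhle : hh b ≤ 2 * π / 1 := hheq.le
  have hhq : hh b ≤ 3927 / 625 := by
    refine hhle.trans ?_
    rw [div_le_iff₀ (by norm_num)]
    linarith
  obtain ⟨L, hl, hbl, hd⟩ := lr1_6 h1 hh0 hhle
  have LL : LineLo κ (hh b) (-119 / 200) (-7 / 20) (16119 / 40000) (199 / 200) := LineLo.of hk1 hh0 L (by norm_num) hl hbl hd
  have ha : sn b κ ((-7 / 20) + 1) ≤ 17 / 20 := by
    exact (snL (H := 66139 / 100000) (v := 17 / 20) (F := 350899 / 200000) hb1 hk1 (by linarith) (by norm_num) (by norm_num) (by norm_num)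
          (exp_ge_bd (by norm_num) (by norm_num [Finset.sum_range_succ, Nat.factorial])) (by norm_num)).trans (by norm_num)
  have hA : ∀ t ∈ Icc (0 : ℝ) 1, sn b κ ((1 - t) * (-119 / 200) + t * (-7 / 20) + 1) ≤
      (1 - t) * ((17 / 20) - (199 / 200) * ((-7 / 20) - (-119 / 200))) + t * (17 / 20) :=
    fun t ht => hA_R LL (by norm_num) ha ht
  exact secY_of (qL := -119 / 200) (qR := -7 / 20) (S := 1791 / 2000) (Sm := 153 / 200) (U := 1) (AL := (17 / 20) - (199 / 200) * ((-7 / 20) - (-119 / 200))) (AR := 17 / 20)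
    (BL := (16119 / 40000)) (BR := (16119 / 40000) + (199 / 200) * ((-7 / 20) - (-119 / 200))) (mL := 15679 / 31250) (mR := 39353 / 125000)
    (by norm_num [NumQ.num, c1_6]) (by norm_num [NumQ.num, c1_6]) (by norm_num [NumQ.num, c1_6]) (by norm_num [NumQ.num, c1_6])
    (by norm_num) hA (fun t ht => hB_of LL (by norm_num) ht)
    (fun t ht => hU_of hb1 (by linarith) (Or.inr ⟨rfl, by nlinarith⟩) (by norm_num) (by norm_num) ht)
    (fun t ht => log_interp (H₁ := 66139 / 100000) hb1 hk1 (by linarith) (by norm_num) (by norm_num) ht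
      (exp_le_bd (by norm_num) (by norm_num) (by norm_num [Finset.sum_range_succ, Nat.factorial])) (exp_le_bd (by norm_num) (by norm_num) (by norm_num [Finset.sum_range_succ, Nat.factorial])))
    ⟨by norm_num, by norm_num⟩ ⟨by norm_num, by norm_num⟩ ⟨by norm_num, by norm_num⟩ ⟨by norm_num, by norm_num⟩
    ⟨by norm_num, by norm_num⟩ ⟨by norm_num, by norm_num⟩ ⟨by norm_num, by norm_num⟩ ⟨by norm_num, by norm_num⟩

theorem secY2_1 {b : ℕ} {κ : ℝ} (hb : b = 2) (h1 : 3 ≤ κ) (h2 : κ ≤ 7 / 2) :
    SecY b κ c2_1.num (143 / 200) (57 / 100) (427 / 1000) (531 / 500) (1011 / 1000) (1121 / 1000) := by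
  have hb1 : 1 ≤ b := by omega
  have hk1 : 1 ≤ κ := by linarith
  have hh0 := hh_pos hb1
  have hp4 := Real.pi_lt_d4
  have hp3 := Real.pi_gt_d4
  have hheq : hh b = 2 * π / 2 := by rw [hb]; unfold hh; norm_num
  have hhle : hh b ≤ 2 * π / 2 := hheq.le
  have hhq : hh b ≤ 3927 / 1250 := by
    refine hhle.trans ?_
    rw [div_le_iff₀ (by norm_num)]
    linarith
  obtain ⟨L, hl, hbl, hd⟩ := lr2_1 h1 hh0 hhle
  have LL : LineLo κ (hh b) (-57 / 100) (-81 / 200) (8557 / 20000) (199 / 200) := LineLo.of hk1 hh0 L (by norm_num) hl hbl hd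
  have ha : sn b κ ((-81 / 200) + 1) ≤ 143 / 200 := by
    rcases le_total κ (331 / 100) with k0 | j0
    · exact snY (κb := 331 / 100) (y := 1551 / 2500) (hl := 6283 / 2000) hb1 hk1 k0 (by norm_num) (by rw [hheq]; linarith) (by norm_num)
          (sy_le_of (κ₀ := 3) (Fl := 1859671 / 1000000) (Fh := 232459 / 125000) (a := 46227 / 100000) (c := 22622 / 15625) (τm := 93463 / 50000) (by norm_num) (by norm_num) (by norm_num)
            (exp_bds (by norm_num) (by norm_num) (by norm_num [Finset.sum_range_succ, Nat.factorial]) (by norm_num [Finset.sum_range_succ, Nat.factorial]))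
            (by norm_num) (by norm_num) (by norm_num) (by norm_num) (by norm_num) (Or.inr ⟨by norm_num, by norm_num⟩) (by norm_num) h1
            (by linarith) (by linarith)) (by norm_num)
    exact snY (κb := 7 / 2) (y := 147 / 250) (hl := 6283 / 2000) hb1 hk1 h2 (by norm_num) (by rw [hheq]; linarith) (by norm_num)
          (sy_le_of (κ₀ := 331 / 100) (Fl := 28131 / 15625) (Fh := 360077 / 200000) (a := 222281 / 500000) (c := 1316867 / 1000000) (τm := 93463 / 50000) (by norm_num) (by norm_num) (by norm_num)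
            (exp_bds (by norm_num) (by norm_num) (by norm_num [Finset.sum_range_succ, Nat.factorial]) (by norm_num [Finset.sum_range_succ, Nat.factorial]))
            (by norm_num) (by norm_num) (by norm_num) (by norm_num) (by norm_num) (Or.inr ⟨by norm_num, by norm_num⟩) (by norm_num) j0
            (by linarith) (by linarith)) (by norm_num)
  have hA : ∀ t ∈ Icc (0 : ℝ) 1, sn b κ ((1 - t) * (-57 / 100) + t * (-81 / 200) + 1) ≤
      (1 - t) * ((143 / 200) - (199 / 200) * ((-81 / 200) - (-57 / 100))) + t * (143 / 200) :=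
    fun t ht => hA_R LL (by norm_num) ha ht
  exact secY_of (qL := -57 / 100) (qR := -81 / 200) (S := 1547 / 2000) (Sm := 17 / 25) (U := 1) (AL := (143 / 200) - (199 / 200) * ((-81 / 200) - (-57 / 100))) (AR := 143 / 200)
    (BL := (8557 / 20000)) (BR := (8557 / 20000) + (199 / 200) * ((-81 / 200) - (-57 / 100))) (mL := 446969 / 1000000) (mR := 67523 / 200000)
    (by norm_num [NumQ.num, c2_1]) (by norm_num [NumQ.num, c2_1]) (by norm_num [NumQ.num, c2_1]) (by norm_num [NumQ.num, c2_1])
    (by norm_num) hA (fun t ht => hB_of LL (by norm_num) ht)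
    (fun t ht => hU_of hb1 (by linarith) (Or.inr ⟨rfl, by nlinarith⟩) (by norm_num) (by norm_num) ht)
    (fun t ht => log_interp (H₁ := 1309 / 1250) hb1 hk1 (by linarith) (by norm_num) (by norm_num) ht
      (exp_le_bd (by norm_num) (by norm_num) (by norm_num [Finset.sum_range_succ, Nat.factorial])) (exp_le_bd (by norm_num) (by norm_num) (by norm_num [Finset.sum_range_succ, Nat.factorial])))
    ⟨by norm_num, by norm_num⟩ ⟨by norm_num, by norm_num⟩ ⟨by norm_num, by norm_num⟩ ⟨by norm_num, by norm_num⟩
    ⟨by norm_num, by norm_num⟩ ⟨by norm_num, by norm_num⟩ ⟨by norm_num, by norm_num⟩ ⟨by norm_num, by norm_num⟩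

theorem secY2_2 {b : ℕ} {κ : ℝ} (hb : b = 2) (h1 : 7 / 2 ≤ κ) (h2 : κ ≤ 39 / 10) :
    SecY b κ c2_2.num (761 / 1000) (23 / 40) (211 / 500) (1011 / 1000) (1007 / 1000) (571 / 500) := by
  have hb1 : 1 ≤ b := by omega
  have hk1 : 1 ≤ κ := by linarith
  have hh0 := hh_pos hb1
  have hp4 := Real.pi_lt_d4
  have hp3 := Real.pi_gt_d4
  have hheq : hh b = 2 * π / 2 := by rw [hb]; unfold hh; norm_num
  have hhle : hh b ≤ 2 * π / 2 := hheq.le
  have hhq : hh b ≤ 3927 / 1250 := by
    refine hhle.trans ?_
    rw [div_le_iff₀ (by norm_num)]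
    linarith
  obtain ⟨L, hl, hbl, hd⟩ := lr2_2 h1 hh0 hhle
  have LL : LineLo κ (hh b) (-23 / 40) (-19 / 50) (3383 / 8000) (199 / 200) := LineLo.of hk1 hh0 L (by norm_num) hl hbl hd
  have ha : sn b κ ((-19 / 50) + 1) ≤ 761 / 1000 := by
    rcases le_total κ (15 / 4) with k0 | j0
    · exact snY (κb := 15 / 4) (y := 1483 / 2500) (hl := 6283 / 2000) hb1 hk1 k0 (by norm_num) (by rw [hheq]; linarith) (by norm_num)
          (sy_le_of (κ₀ := 7 / 2) (Fl := 180977 / 100000) (Fh := 1809771 / 1000000) (a := 447443 / 1000000) (c := 1337341 / 1000000) (τm := 9739 / 5000) (by norm_num) (by norm_num) (by norm_num)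
            (exp_bds (by norm_num) (by norm_num) (by norm_num [Finset.sum_range_succ, Nat.factorial]) (by norm_num [Finset.sum_range_succ, Nat.factorial]))
            (by norm_num) (by norm_num) (by norm_num) (by norm_num) (by norm_num) (Or.inr ⟨by norm_num, by norm_num⟩) (by norm_num) h1
            (by linarith) (by linarith)) (by norm_num)
    exact snY (κb := 39 / 10) (y := 1131 / 2000) (hl := 6283 / 2000) hb1 hk1 h2 (by norm_num) (by rw [hheq]; linarith) (by norm_num)
          (sy_le_of (κ₀ := 15 / 4) (Fl := 1760327 / 1000000) (Fh := 220041 / 125000) (a := 431923 / 1000000) (c := 615301 / 500000) (τm := 9739 / 5000) (by norm_num) (by norm_num) (by norm_num)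
            (exp_bds (by norm_num) (by norm_num) (by norm_num [Finset.sum_range_succ, Nat.factorial]) (by norm_num [Finset.sum_range_succ, Nat.factorial]))
            (by norm_num) (by norm_num) (by norm_num) (by norm_num) (by norm_num) (Or.inr ⟨by norm_num, by norm_num⟩) (by norm_num) j0
            (by linarith) (by linarith)) (by norm_num)
  have hA : ∀ t ∈ Icc (0 : ℝ) 1, sn b κ ((1 - t) * (-23 / 40) + t * (-19 / 50) + 1) ≤
      (1 - t) * ((761 / 1000) - (199 / 200) * ((-19 / 50) - (-23 / 40))) + t * (761 / 1000) :=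
    fun t ht => hA_R LL (by norm_num) ha ht
  exact secY_of (qL := -23 / 40) (qR := -19 / 50) (S := 1783 / 2000) (Sm := 71 / 100) (U := 1) (AL := (761 / 1000) - (199 / 200) * ((-19 / 50) - (-23 / 40))) (AR := 761 / 1000)
    (BL := (3383 / 8000)) (BR := (3383 / 8000) + (199 / 200) * ((-19 / 50) - (-23 / 40))) (mL := 46363 / 100000) (mR := 163481 / 500000)
    (by norm_num [NumQ.num, c2_2]) (by norm_num [NumQ.num, c2_2]) (by norm_num [NumQ.num, c2_2]) (by norm_num [NumQ.num, c2_2])
    (by norm_num) hA (fun t ht => hB_of LL (by norm_num) ht)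
    (fun t ht => hU_of hb1 (by linarith) (Or.inr ⟨rfl, by nlinarith⟩) (by norm_num) (by norm_num) ht)
    (fun t ht => log_interp (H₁ := 561 / 625) hb1 hk1 (by linarith) (by norm_num) (by norm_num) ht
      (exp_le_bd (by norm_num) (by norm_num) (by norm_num [Finset.sum_range_succ, Nat.factorial])) (exp_le_bd (by norm_num) (by norm_num) (by norm_num [Finset.sum_range_succ, Nat.factorial])))
    ⟨by norm_num, by norm_num⟩ ⟨by norm_num, by norm_num⟩ ⟨by norm_num, by norm_num⟩ ⟨by norm_num, by norm_num⟩
    ⟨by norm_num, by norm_num⟩ ⟨by norm_num, by norm_num⟩ ⟨by norm_num, by norm_num⟩ ⟨by norm_num, by norm_num⟩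

theorem secY2_3 {b : ℕ} {κ : ℝ} (hb : b = 2) (h1 : 39 / 10 ≤ κ) (h2 : κ ≤ 21 / 5) :
    SecY b κ c2_3.num (771 / 1000) (29 / 50) (417 / 1000) (917 / 1000) (993 / 1000) (1143 / 1000) := by
  have hb1 : 1 ≤ b := by omega
  have hk1 : 1 ≤ κ := by linarith
  have hh0 := hh_pos hb1
  have hp4 := Real.pi_lt_d4
  have hp3 := Real.pi_gt_d4
  have hheq : hh b = 2 * π / 2 := by rw [hb]; unfold hh; norm_num
  have hhle : hh b ≤ 2 * π / 2 := hheq.le
  have hhq : hh b ≤ 3927 / 1250 := by
    refine hhle.trans ?_
    rw [div_le_iff₀ (by norm_num)]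
    linarith
  obtain ⟨L, hl, hbl, hd⟩ := lr2_3 h1 hh0 hhle
  have LL : LineLo κ (hh b) (-29 / 50) (-37 / 100) (4179 / 10000) (199 / 200) := LineLo.of hk1 hh0 L (by norm_num) hl hbl hd
  have ha : sn b κ ((-37 / 100) + 1) ≤ 771 / 1000 := by
    rcases le_total κ (102 / 25) with k0 | j0
    · exact snY (κb := 102 / 25) (y := 559 / 1000) (hl := 6283 / 2000) hb1 hk1 k0 (by norm_num) (by rw [hheq]; linarith) (by norm_num)
          (sy_le_of (κ₀ := 39 / 10) (Fl := 874461 / 500000) (Fh := 1748923 / 1000000) (a := 428219 / 1000000) (c := 301593 / 250000) (τm := 197921 / 100000) (by norm_num) (by norm_num) (by norm_num)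
            (exp_bds (by norm_num) (by norm_num) (by norm_num [Finset.sum_range_succ, Nat.factorial]) (by norm_num [Finset.sum_range_succ, Nat.factorial]))
            (by norm_num) (by norm_num) (by norm_num) (by norm_num) (by norm_num) (Or.inr ⟨by norm_num, by norm_num⟩) (by norm_num) h1
            (by linarith) (by linarith)) (by norm_num)
    exact snY (κb := 21 / 5) (y := 1079 / 2000) (hl := 6283 / 2000) hb1 hk1 h2 (by norm_num) (by rw [hheq]; linarith) (by norm_num)
          (sy_le_of (κ₀ := 102 / 25) (Fl := 1715149 / 1000000) (Fh := 34303 / 20000) (a := 1303 / 3125) (c := 141937 / 125000) (τm := 197921 / 100000) (by norm_num) (by norm_num) (by norm_num)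
            (exp_bds (by norm_num) (by norm_num) (by norm_num [Finset.sum_range_succ, Nat.factorial]) (by norm_num [Finset.sum_range_succ, Nat.factorial]))
            (by norm_num) (by norm_num) (by norm_num) (by norm_num) (by norm_num) (Or.inr ⟨by norm_num, by norm_num⟩) (by norm_num) j0
            (by linarith) (by linarith)) (by norm_num)
  have hA : ∀ t ∈ Icc (0 : ℝ) 1, sn b κ ((1 - t) * (-29 / 50) + t * (-37 / 100) + 1) ≤
      (1 - t) * ((771 / 1000) - (199 / 200) * ((-37 / 100) - (-29 / 50))) + t * (771 / 1000) :=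
    fun t ht => hA_R LL (by norm_num) ha ht
  exact secY_of (qL := -29 / 50) (qR := -37 / 100) (S := 199 / 200) (Sm := 73 / 100) (U := 1) (AL := (771 / 1000) - (199 / 200) * ((-37 / 100) - (-29 / 50))) (AR := 771 / 1000)
    (BL := (4179 / 10000)) (BR := (4179 / 10000) + (199 / 200) * ((-37 / 100) - (-29 / 50))) (mL := 47591 / 100000) (mR := 80959 / 250000)
    (by norm_num [NumQ.num, c2_3]) (by norm_num [NumQ.num, c2_3]) (by norm_num [NumQ.num, c2_3]) (by norm_num [NumQ.num, c2_3])
    (by norm_num) hA (fun t ht => hB_of LL (by norm_num) ht)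
    (fun t ht => hU_of hb1 (by linarith) (Or.inr ⟨rfl, by nlinarith⟩) (by norm_num) (by norm_num) ht)
    (fun t ht => log_interp (H₁ := 40277 / 50000) hb1 hk1 (by linarith) (by norm_num) (by norm_num) ht
      (exp_le_bd (by norm_num) (by norm_num) (by norm_num [Finset.sum_range_succ, Nat.factorial])) (exp_le_bd (by norm_num) (by norm_num) (by norm_num [Finset.sum_range_succ, Nat.factorial])))
    ⟨by norm_num, by norm_num⟩ ⟨by norm_num, by norm_num⟩ ⟨by norm_num, by norm_num⟩ ⟨by norm_num, by norm_num⟩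
    ⟨by norm_num, by norm_num⟩ ⟨by norm_num, by norm_num⟩ ⟨by norm_num, by norm_num⟩ ⟨by norm_num, by norm_num⟩

theorem secY2_4 {b : ℕ} {κ : ℝ} (hb : b = 2) (h1 : 21 / 5 ≤ κ) (_h2 : κ ≤ 20) :
    SecY b κ c2_4.num (393 / 500) (23 / 40) (211 / 500) (119 / 125) (124 / 125) (581 / 500) := by
  have hb1 : 1 ≤ b := by omega
  have hk1 : 1 ≤ κ := by linarith
  have hh0 := hh_pos hb1
  have hp4 := Real.pi_lt_d4
  have hp3 := Real.pi_gt_d4
  have hheq : hh b = 2 * π / 2 := by rw [hb]; unfold hh; norm_num
  have hhle : hh b ≤ 2 * π / 2 := hheq.le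
  have hhq : hh b ≤ 3927 / 1250 := by
    refine hhle.trans ?_
    rw [div_le_iff₀ (by norm_num)]
    linarith
  obtain ⟨L, hl, hbl, hd⟩ := lr2_4 h1 hh0 hhle
  have LL : LineLo κ (hh b) (-23 / 40) (-3 / 8) (3383 / 8000) (199 / 200) := LineLo.of hk1 hh0 L (by norm_num) hl hbl hd
  have ha : sn b κ ((-3 / 8) + 1) ≤ 393 / 500 := by
    rcases le_total κ (9 / 2) with k0 | j0
    · exact snY (κb := 9 / 2) (y := 261 / 500) (hl := 6283 / 2000) hb1 hk1 k0 (by norm_num) (by rw [hheq]; linarith) (by norm_num)
          (sy_le_of (κ₀ := 21 / 5) (Fl := 337079 / 200000) (Fh := 421349 / 250000) (a := 406667 / 1000000) (c := 1074157 / 1000000) (τm := 3927 / 2000) (by norm_num) (by norm_num) (by norm_num)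
            (exp_bds (by norm_num) (by norm_num) (by norm_num [Finset.sum_range_succ, Nat.factorial]) (by norm_num [Finset.sum_range_succ, Nat.factorial]))
            (by norm_num) (by norm_num) (by norm_num) (by norm_num) (by norm_num) (Or.inr ⟨by norm_num, by norm_num⟩) (by norm_num) h1
            (by linarith) (by linarith)) (by norm_num)
    rcases le_total κ (24 / 5) with k1 | j1
    · exact snY (κb := 24 / 5) (y := 1229 / 2500) (hl := 6283 / 2000) hb1 hk1 k1 (by norm_num) (by rw [hheq]; linarith) (by norm_num)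
          (sy_le_of (κ₀ := 9 / 2) (Fl := 163493 / 100000) (Fh := 1634931 / 1000000) (a := 388353 / 1000000) (c := 972533 / 1000000) (τm := 3927 / 2000) (by norm_num) (by norm_num) (by norm_num)
            (exp_bds (by norm_num) (by norm_num) (by norm_num [Finset.sum_range_succ, Nat.factorial]) (by norm_num [Finset.sum_range_succ, Nat.factorial]))
            (by norm_num) (by norm_num) (by norm_num) (by norm_num) (by norm_num) (Or.inr ⟨by norm_num, by norm_num⟩) (by norm_num) j0
            (by linarith) (by linarith)) (by norm_num)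
    rcases le_total κ (128 / 25) with k2 | j2
    · exact snY (κb := 128 / 25) (y := 4633 / 10000) (hl := 6283 / 2000) hb1 hk1 k2 (by norm_num) (by rw [hheq]; linarith) (by norm_num)
          (sy_le_of (κ₀ := 24 / 5) (Fl := 158931 / 100000) (Fh := 1589311 / 1000000) (a := 92699 / 250000) (c := 55209 / 62500) (τm := 3927 / 2000) (by norm_num) (by norm_num) (by norm_num)
            (exp_bds (by norm_num) (by norm_num) (by norm_num [Finset.sum_range_succ, Nat.factorial]) (by norm_num [Finset.sum_range_succ, Nat.factorial]))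
            (by norm_num) (by norm_num) (by norm_num) (by norm_num) (by norm_num) (Or.inr ⟨by norm_num, by norm_num⟩) (by norm_num) j1
            (by linarith) (by linarith)) (by norm_num)
    rcases le_total κ (137 / 25) with k3 | j3
    · exact snY (κb := 137 / 25) (y := 2177 / 5000) (hl := 6283 / 2000) hb1 hk1 k3 (by norm_num) (by rw [hheq]; linarith) (by norm_num)
          (sy_le_of (κ₀ := 128 / 25) (Fl := 1545581 / 1000000) (Fh := 772791 / 500000) (a := 176497 / 500000) (c := 80031 / 100000) (τm := 3927 / 2000) (by norm_num) (by norm_num) (by norm_num)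
            (exp_bds (by norm_num) (by norm_num) (by norm_num [Finset.sum_range_succ, Nat.factorial]) (by norm_num [Finset.sum_range_succ, Nat.factorial]))
            (by norm_num) (by norm_num) (by norm_num) (by norm_num) (by norm_num) (Or.inr ⟨by norm_num, by norm_num⟩) (by norm_num) j2
            (by linarith) (by linarith)) (by norm_num)
    exact (snL (H := 57329 / 100000) (v := 393 / 500) (F := 784631 / 500000) hb1 hk1 (by linarith) (by norm_num) (by norm_num) (by norm_num)
          (exp_ge_bd (by norm_num) (by norm_num [Finset.sum_range_succ, Nat.factorial])) (by norm_num)).trans (by norm_num)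
  have hA : ∀ t ∈ Icc (0 : ℝ) 1, sn b κ ((1 - t) * (-23 / 40) + t * (-3 / 8) + 1) ≤
      (1 - t) * ((393 / 500) - (199 / 200) * ((-3 / 8) - (-23 / 40))) + t * (393 / 500) :=
    fun t ht => hA_R LL (by norm_num) ha ht
  exact secY_of (qL := -23 / 40) (qR := -3 / 8) (S := 199 / 200) (Sm := 149 / 200) (U := 1) (AL := (393 / 500) - (199 / 200) * ((-3 / 8) - (-23 / 40))) (AR := 393 / 500)
    (BL := (3383 / 8000)) (BR := (3383 / 8000) + (199 / 200) * ((-3 / 8) - (-23 / 40))) (mL := 478267 / 1000000) (mR := 82637 / 250000)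
    (by norm_num [NumQ.num, c2_4]) (by norm_num [NumQ.num, c2_4]) (by norm_num [NumQ.num, c2_4]) (by norm_num [NumQ.num, c2_4])
    (by norm_num) hA (fun t ht => hB_of LL (by norm_num) ht)
    (fun t ht => hU_of hb1 (by linarith) (Or.inr ⟨rfl, by nlinarith⟩) (by norm_num) (by norm_num) ht)
    (fun t ht => log_interp (H₁ := 187 / 250) hb1 hk1 (by linarith) (by norm_num) (by norm_num) ht
      (exp_le_bd (by norm_num) (by norm_num) (by norm_num [Finset.sum_range_succ, Nat.factorial])) (exp_le_bd (by norm_num) (by norm_num) (by norm_num [Finset.sum_range_succ, Nat.factorial])))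
    ⟨by norm_num, by norm_num⟩ ⟨by norm_num, by norm_num⟩ ⟨by norm_num, by norm_num⟩ ⟨by norm_num, by norm_num⟩
    ⟨by norm_num, by norm_num⟩ ⟨by norm_num, by norm_num⟩ ⟨by norm_num, by norm_num⟩ ⟨by norm_num, by norm_num⟩

end Sok.R2
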