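import Pool.Agent.Lib.MP_816dec_an.R2Cls
import Pool.Agent.Lib.MP_816dec_an.R2SecY0
import Pool.Agent.Lib.MP_816dec_an.R2TabB
import Pool.Agent.Lib.MP_816dec_an.R2TabC

/-!
MP_816dec_an, row R2 (4): `SecY` for the classes b = 3, 4.
-/

set_option autoImplicit false

open Set Filter Topology Real

namespace Sok.R2

theorem secY3_1 {b : ℕ} {κ : ℝ} (hb : b = 3) (h1 : 139 / 100 ≤ κ) (h2 : κ ≤ 8 / 5) :
    SecY b κ c3_1.num (113 / 200) (11227 / 20000) (37 / 100) (43 / 40) (973 / 1000) (1017 / 1000) := by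
  have hb1 : 1 ≤ b := by omega
  have hk1 : 1 ≤ κ := by linarith
  have hh0 := hh_pos hb1
  have hp4 := Real.pi_lt_d4
  have hp3 := Real.pi_gt_d4
  have hheq : hh b = 2 * π / 3 := by rw [hb]; unfold hh; norm_num
  have hhle : hh b ≤ 2 * π / 3 := hheq.le
  have hhq : hh b ≤ 1309 / 625 := by
    refine hhle.trans ?_
    rw [div_le_iff₀ (by norm_num)]
    linarith
  obtain ⟨L, hl, hbl, hd⟩ := lr3_1 h1 hh0 hhle
  have LL : LineLo κ (hh b) (-109 / 200) (-87 / 200) (3707 / 10000) (14 / 25) := LineLo.of hk1 hh0 L (by norm_num) hl hbl hd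
  have hA : ∀ t ∈ Icc (0 : ℝ) 1, sn b κ ((1 - t) * (-109 / 200) + t * (-87 / 200) + 1) ≤ (1 - t) * (1 * (1 + (-109 / 200))) + t * (1 * (1 + (-87 / 200))) :=
    fun t ht => hA_U (c := 1) (τm := 59167 / 50000) hb1 hk1 (by norm_num) (by norm_num) (by linarith) (by linarith)
      (fun s hs hs' => lv_le_right hk1 (by nlinarith) hs hs') ht
  exact secY_of (qL := -109 / 200) (qR := -87 / 200) (S := 1007 / 2000) (Sm := 121 / 200) (U := (103 / 100)) (AL := 1 * (1 + (-109 / 200))) (AR := 1 * (1 + (-87 / 200)))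
    (BL := (3707 / 10000)) (BR := (3707 / 10000) + (14 / 25) * ((-87 / 200) - (-109 / 200))) (mL := 49733 / 125000) (mR := 41817 / 125000)
    (by norm_num [NumQ.num, c3_1]) (by norm_num [NumQ.num, c3_1]) (by norm_num [NumQ.num, c3_1]) (by norm_num [NumQ.num, c3_1])
    (by norm_num) hA (fun t ht => hB_of LL (by norm_num) ht)
    (fun t ht => hU_of hb1 (by linarith) (Or.inl rfl) (by norm_num) (by norm_num) ht)
    (fun t ht => log_interp (H₁ := 150677 / 100000) hb1 hk1 (by linarith) (by norm_num) (by norm_num) ht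
      (exp_le_bd (by norm_num) (by norm_num) (by norm_num [Finset.sum_range_succ, Nat.factorial])) (exp_le_bd (by norm_num) (by norm_num) (by norm_num [Finset.sum_range_succ, Nat.factorial])))
    ⟨by norm_num, by norm_num⟩ ⟨by norm_num, by norm_num⟩ ⟨by norm_num, by norm_num⟩ ⟨by norm_num, by norm_num⟩
    ⟨by norm_num, by norm_num⟩ ⟨by norm_num, by norm_num⟩ ⟨by norm_num, by norm_num⟩ ⟨by norm_num, by norm_num⟩

theorem secY3_2 {b : ℕ} {κ : ℝ} (hb : b = 3) (h1 : 8 / 5 ≤ κ) (h2 : κ ≤ 19 / 10) :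
    SecY b κ c3_2.num (11457 / 20000) (1133 / 2000) (393 / 1000) (519 / 500) (951 / 1000) (1019 / 1000) := by
  have hb1 : 1 ≤ b := by omega
  have hk1 : 1 ≤ κ := by linarith
  have hh0 := hh_pos hb1
  have hp4 := Real.pi_lt_d4
  have hp3 := Real.pi_gt_d4
  have hheq : hh b = 2 * π / 3 := by rw [hb]; unfold hh; norm_num
  have hhle : hh b ≤ 2 * π / 3 := hheq.le
  have hhq : hh b ≤ 1309 / 625 := by
    refine hhle.trans ?_
    rw [div_le_iff₀ (by norm_num)]
    linarith
  obtain ⟨L, hl, hbl, hd⟩ := lr3_2 h1 hh0 hhle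
  have LL : LineLo κ (hh b) (-11 / 20) (-43 / 100) (63 / 160) (129 / 200) := LineLo.of hk1 hh0 L (by norm_num) hl hbl hd
  have hA : ∀ t ∈ Icc (0 : ℝ) 1, sn b κ ((1 - t) * (-11 / 20) + t * (-43 / 100) + 1) ≤ (1 - t) * ((1005 / 1000) * (1 + (-11 / 20))) + t * ((1005 / 1000) * (1 + (-43 / 100))) :=
    fun t ht => hA_U (c := (1005 / 1000)) (τm := 119381 / 100000) hb1 hk1 (by norm_num) (by norm_num) (by linarith) (by linarith)
      (fun s hs hs' => lv_le_right19 hk1 (by linarith) hs hs') ht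
  exact secY_of (qL := -11 / 20) (qR := -43 / 100) (S := 551 / 1000) (Sm := 127 / 200) (U := (103 / 100)) (AL := (1005 / 1000) * (1 + (-11 / 20))) (AR := (1005 / 1000) * (1 + (-43 / 100)))
    (BL := (63 / 160)) (BR := (63 / 160) + (129 / 200) * ((-43 / 100) - (-11 / 20))) (mL := 207141 / 500000) (mR := 170559 / 500000)
    (by norm_num [NumQ.num, c3_2]) (by norm_num [NumQ.num, c3_2]) (by norm_num [NumQ.num, c3_2]) (by norm_num [NumQ.num, c3_2])
    (by norm_num) hA (fun t ht => hB_of LL (by norm_num) ht)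
    (fun t ht => hU_of hb1 (by linarith) (Or.inl rfl) (by norm_num) (by norm_num) ht)
    (fun t ht => log_interp (H₁ := 1309 / 1000) hb1 hk1 (by linarith) (by norm_num) (by norm_num) ht
      (exp_le_bd (by norm_num) (by norm_num) (by norm_num [Finset.sum_range_succ, Nat.factorial])) (exp_le_bd (by norm_num) (by norm_num) (by norm_num [Finset.sum_range_succ, Nat.factorial])))
    ⟨by norm_num, by norm_num⟩ ⟨by norm_num, by norm_num⟩ ⟨by norm_num, by norm_num⟩ ⟨by norm_num, by norm_num⟩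
    ⟨by norm_num, by norm_num⟩ ⟨by norm_num, by norm_num⟩ ⟨by norm_num, by norm_num⟩ ⟨by norm_num, by norm_num⟩

theorem secY3_3 {b : ℕ} {κ : ℝ} (hb : b = 3) (h1 : 19 / 10 ≤ κ) (h2 : κ ≤ 21 / 10) :
    SecY b κ c3_3.num (2907 / 5000) (111 / 200) (421 / 1000) (917 / 1000) (447 / 500) (253 / 250) := by
  have hb1 : 1 ≤ b := by omega
  have hk1 : 1 ≤ κ := by linarith
  have hh0 := hh_pos hb1
  have hp4 := Real.pi_lt_d4
  have hp3 := Real.pi_gt_d4
  have hheq : hh b = 2 * π / 3 := by rw [hb]; unfold hh; norm_num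
  have hhle : hh b ≤ 2 * π / 3 := hheq.le
  have hhq : hh b ≤ 1309 / 625 := by
    refine hhle.trans ?_
    rw [div_le_iff₀ (by norm_num)]
    linarith
  obtain ⟨L, hl, hbl, hd⟩ := lr3_3 h1 hh0 hhle
  have LL : LineLo κ (hh b) (-111 / 200) (-43 / 100) (4213 / 10000) (77 / 100) := LineLo.of hk1 hh0 L (by norm_num) hl hbl hd
  have hA : ∀ t ∈ Icc (0 : ℝ) 1, sn b κ ((1 - t) * (-111 / 200) + t * (-43 / 100) + 1) ≤ (1 - t) * ((102 / 100) * (1 + (-111 / 200))) + t * ((102 / 100) * (1 + (-43 / 100))) :=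
    fun t ht => hA_U (c := (102 / 100)) (τm := 119381 / 100000) hb1 hk1 (by norm_num) (by norm_num) (by linarith) (by linarith)
      (fun s hs hs' => lv_le_right21 hk1 (by linarith) hs hs') ht
  exact secY_of (qL := -111 / 200) (qR := -43 / 100) (S := 169 / 250) (Sm := 67 / 100) (U := 1) (AL := (102 / 100) * (1 + (-111 / 200))) (AR := (102 / 100) * (1 + (-43 / 100)))
    (BL := (4213 / 10000)) (BR := (4213 / 10000) + (77 / 100) * ((-43 / 100) - (-111 / 200))) (mL := 86607 / 200000) (mR := 70393 / 200000)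
    (by norm_num [NumQ.num, c3_3]) (by norm_num [NumQ.num, c3_3]) (by norm_num [NumQ.num, c3_3]) (by norm_num [NumQ.num, c3_3])
    (by norm_num) hA (fun t ht => hB_of LL (by norm_num) ht)
    (fun t ht => hU_of hb1 (by linarith) (Or.inr ⟨rfl, by nlinarith⟩) (by norm_num) (by norm_num) ht)
    (fun t ht => log_interp (H₁ := 13779 / 12500) hb1 hk1 (by linarith) (by norm_num) (by norm_num) ht
      (exp_le_bd (by norm_num) (by norm_num) (by norm_num [Finset.sum_range_succ, Nat.factorial])) (exp_le_bd (by norm_num) (by norm_num) (by norm_num [Finset.sum_range_succ, Nat.factorial])))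
    ⟨by norm_num, by norm_num⟩ ⟨by norm_num, by norm_num⟩ ⟨by norm_num, by norm_num⟩ ⟨by norm_num, by norm_num⟩
    ⟨by norm_num, by norm_num⟩ ⟨by norm_num, by norm_num⟩ ⟨by norm_num, by norm_num⟩ ⟨by norm_num, by norm_num⟩

theorem secY3_4 {b : ℕ} {κ : ℝ} (hb : b = 3) (h1 : 21 / 10 ≤ κ) (h2 : κ ≤ 23 / 10) :
    SecY b κ c3_4.num (377 / 625) (14 / 25) (431 / 1000) (421 / 500) (111 / 125) (128 / 125) := by
  have hb1 : 1 ≤ b := by omega
  have hk1 : 1 ≤ κ := by linarith
  have hh0 := hh_pos hb1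
  have hp4 := Real.pi_lt_d4
  have hp3 := Real.pi_gt_d4
  have hheq : hh b = 2 * π / 3 := by rw [hb]; unfold hh; norm_num
  have hhle : hh b ≤ 2 * π / 3 := hheq.le
  have hhq : hh b ≤ 1309 / 625 := by
    refine hhle.trans ?_
    rw [div_le_iff₀ (by norm_num)]
    linarith
  obtain ⟨L, hl, hbl, hd⟩ := lr3_4 h1 hh0 hhle
  have LL : LineLo κ (hh b) (-14 / 25) (-21 / 50) (4311 / 10000) (171 / 200) := LineLo.of hk1 hh0 L (by norm_num) hl hbl hd
  have hA : ∀ t ∈ Icc (0 : ℝ) 1, sn b κ ((1 - t) * (-14 / 25) + t * (-21 / 50) + 1) ≤ (1 - t) * ((104 / 100) * (1 + (-14 / 25))) + t * ((104 / 100) * (1 + (-21 / 50))) :=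
    fun t ht => hA_U (c := (104 / 100)) (τm := 30369 / 25000) hb1 hk1 (by norm_num) (by norm_num) (by linarith) (by linarith)
      (fun s hs hs' => lv_le_right23 hk1 (by linarith) hs hs') ht
  exact secY_of (qL := -14 / 25) (qR := -21 / 50) (S := 1569 / 2000) (Sm := 69 / 100) (U := 1) (AL := (104 / 100) * (1 + (-14 / 25))) (AR := (104 / 100) * (1 + (-21 / 50)))
    (BL := (4311 / 10000)) (BR := (4311 / 10000) + (171 / 200) * ((-21 / 50) - (-14 / 25))) (mL := 444913 / 1000000) (mR := 175401 / 500000)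
    (by norm_num [NumQ.num, c3_4]) (by norm_num [NumQ.num, c3_4]) (by norm_num [NumQ.num, c3_4]) (by norm_num [NumQ.num, c3_4])
    (by norm_num) hA (fun t ht => hB_of LL (by norm_num) ht)
    (fun t ht => hU_of hb1 (by linarith) (Or.inr ⟨rfl, by nlinarith⟩) (by norm_num) (by norm_num) ht)
    (fun t ht => log_interp (H₁ := 49867 / 50000) hb1 hk1 (by linarith) (by norm_num) (by norm_num) ht
      (exp_le_bd (by norm_num) (by norm_num) (by norm_num [Finset.sum_range_succ, Nat.factorial])) (exp_le_bd (by norm_num) (by norm_num) (by norm_num [Finset.sum_range_succ, Nat.factorial])))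
    ⟨by norm_num, by norm_num⟩ ⟨by norm_num, by norm_num⟩ ⟨by norm_num, by norm_num⟩ ⟨by norm_num, by norm_num⟩
    ⟨by norm_num, by norm_num⟩ ⟨by norm_num, by norm_num⟩ ⟨by norm_num, by norm_num⟩ ⟨by norm_num, by norm_num⟩

theorem secY3_5 {b : ℕ} {κ : ℝ} (hb : b = 3) (h1 : 23 / 10 ≤ κ) (h2 : κ ≤ 5 / 2) :
    SecY b κ c3_5.num (1593 / 2500) (57 / 100) (427 / 1000) (857 / 1000) (179 / 200) (131 / 125) := by
  have hb1 : 1 ≤ b := by omega
  have hk1 : 1 ≤ κ := by linarith
  have hh0 := hh_pos hb1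
  have hp4 := Real.pi_lt_d4
  have hp3 := Real.pi_gt_d4
  have hheq : hh b = 2 * π / 3 := by rw [hb]; unfold hh; norm_num
  have hhle : hh b ≤ 2 * π / 3 := hheq.le
  have hhq : hh b ≤ 1309 / 625 := by
    refine hhle.trans ?_
    rw [div_le_iff₀ (by norm_num)]
    linarith
  obtain ⟨L, hl, hbl, hd⟩ := lr3_5 h1 hh0 hhle
  have LL : LineLo κ (hh b) (-57 / 100) (-41 / 100) (1709 / 4000) (93 / 100) := LineLo.of hk1 hh0 L (by norm_num) hl hbl hd
  have hA : ∀ t ∈ Icc (0 : ℝ) 1, sn b κ ((1 - t) * (-57 / 100) + t * (-41 / 100) + 1) ≤ (1 - t) * ((108 / 100) * (1 + (-57 / 100))) + t * ((108 / 100) * (1 + (-41 / 100))) :=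
    fun t ht => hA_U (c := (108 / 100)) (τm := 12357 / 10000) hb1 hk1 (by norm_num) (by norm_num) (by linarith) (by linarith)
      (fun s hs hs' => lv_le_right266 hk1 (by linarith) hs hs') ht
  exact secY_of (qL := -57 / 100) (qR := -41 / 100) (S := 207 / 250) (Sm := 71 / 100) (U := 1) (AL := (108 / 100) * (1 + (-57 / 100))) (AR := (108 / 100) * (1 + (-41 / 100)))
    (BL := (1709 / 4000)) (BR := (1709 / 4000) + (93 / 100) * ((-41 / 100) - (-57 / 100))) (mL := 114781 / 250000) (mR := 87099 / 250000)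
    (by norm_num [NumQ.num, c3_5]) (by norm_num [NumQ.num, c3_5]) (by norm_num [NumQ.num, c3_5]) (by norm_num [NumQ.num, c3_5])
    (by norm_num) hA (fun t ht => hB_of LL (by norm_num) ht)
    (fun t ht => hU_of hb1 (by linarith) (Or.inr ⟨rfl, by nlinarith⟩) (by norm_num) (by norm_num) ht)
    (fun t ht => log_interp (H₁ := 91061 / 100000) hb1 hk1 (by linarith) (by norm_num) (by norm_num) ht
      (exp_le_bd (by norm_num) (by norm_num) (by norm_num [Finset.sum_range_succ, Nat.factorial])) (exp_le_bd (by norm_num) (by norm_num) (by norm_num [Finset.sum_range_succ, Nat.factorial])))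
    ⟨by norm_num, by norm_num⟩ ⟨by norm_num, by norm_num⟩ ⟨by norm_num, by norm_num⟩ ⟨by norm_num, by norm_num⟩
    ⟨by norm_num, by norm_num⟩ ⟨by norm_num, by norm_num⟩ ⟨by norm_num, by norm_num⟩ ⟨by norm_num, by norm_num⟩

theorem secY3_6 {b : ℕ} {κ : ℝ} (hb : b = 3) (h1 : 5 / 2 ≤ κ) (h2 : κ ≤ 133 / 50) :
    SecY b κ c3_6.num (3267 / 5000) (23 / 40) (211 / 500) (767 / 1000) (221 / 250) (1049 / 1000) := by
  have hb1 : 1 ≤ b := by omega
  have hk1 : 1 ≤ κ := by linarith
  have hh0 := hh_pos hb1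
  have hp4 := Real.pi_lt_d4
  have hp3 := Real.pi_gt_d4
  have hheq : hh b = 2 * π / 3 := by rw [hb]; unfold hh; norm_num
  have hhle : hh b ≤ 2 * π / 3 := hheq.le
  have hhq : hh b ≤ 1309 / 625 := by
    refine hhle.trans ?_
    rw [div_le_iff₀ (by norm_num)]
    linarith
  obtain ⟨L, hl, hbl, hd⟩ := lr3_6 h1 hh0 hhle
  have LL : LineLo κ (hh b) (-23 / 40) (-79 / 200) (3383 / 8000) (189 / 200) := LineLo.of hk1 hh0 L (by norm_num) hl hbl hd
  have hA : ∀ t ∈ Icc (0 : ℝ) 1, sn b κ ((1 - t) * (-23 / 40) + t * (-79 / 200) + 1) ≤ (1 - t) * ((108 / 100) * (1 + (-23 / 40))) + t * ((108 / 100) * (1 + (-79 / 200))) :=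
    fun t ht => hA_U (c := (108 / 100)) (τm := 15839 / 12500) hb1 hk1 (by norm_num) (by norm_num) (by linarith) (by linarith)
      (fun s hs hs' => lv_le_right266 hk1 (by linarith) hs hs') ht
  exact secY_of (qL := -23 / 40) (qR := -79 / 200) (S := 1871 / 2000) (Sm := 29 / 40) (U := 1) (AL := (108 / 100) * (1 + (-23 / 40))) (AR := (108 / 100) * (1 + (-79 / 200)))
    (BL := (3383 / 8000)) (BR := (3383 / 8000) + (189 / 200) * ((-79 / 200) - (-23 / 40))) (mL := 14667 / 31250) (mR := 341227 / 1000000)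
    (by norm_num [NumQ.num, c3_6]) (by norm_num [NumQ.num, c3_6]) (by norm_num [NumQ.num, c3_6]) (by norm_num [NumQ.num, c3_6])
    (by norm_num) hA (fun t ht => hB_of LL (by norm_num) ht)
    (fun t ht => hU_of hb1 (by linarith) (Or.inr ⟨rfl, by nlinarith⟩) (by norm_num) (by norm_num) ht)
    (fun t ht => log_interp (H₁ := 2618 / 3125) hb1 hk1 (by linarith) (by norm_num) (by norm_num) ht
      (exp_le_bd (by norm_num) (by norm_num) (by norm_num [Finset.sum_range_succ, Nat.factorial])) (exp_le_bd (by norm_num) (by norm_num) (by norm_num [Finset.sum_range_succ, Nat.factorial])))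
    ⟨by norm_num, by norm_num⟩ ⟨by norm_num, by norm_num⟩ ⟨by norm_num, by norm_num⟩ ⟨by norm_num, by norm_num⟩
    ⟨by norm_num, by norm_num⟩ ⟨by norm_num, by norm_num⟩ ⟨by norm_num, by norm_num⟩ ⟨by norm_num, by norm_num⟩

theorem secY3_7 {b : ℕ} {κ : ℝ} (hb : b = 3) (h1 : 133 / 50 ≤ κ) (_h2 : κ ≤ 20) :
    SecY b κ c3_7.num (37 / 50) (29 / 50) (417 / 1000) (903 / 1000) (971 / 1000) (563 / 500) := by
  have hb1 : 1 ≤ b := by omega
  have hk1 : 1 ≤ κ := by linarith
  have hh0 := hh_pos hb1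
  have hp4 := Real.pi_lt_d4
  have hp3 := Real.pi_gt_d4
  have hheq : hh b = 2 * π / 3 := by rw [hb]; unfold hh; norm_num
  have hhle : hh b ≤ 2 * π / 3 := hheq.le
  have hhq : hh b ≤ 1309 / 625 := by
    refine hhle.trans ?_
    rw [div_le_iff₀ (by norm_num)]
    linarith
  obtain ⟨L, hl, hbl, hd⟩ := lr3_7 h1 hh0 hhle
  have LL : LineLo κ (hh b) (-29 / 50) (-77 / 200) (4179 / 10000) (199 / 200) := LineLo.of hk1 hh0 L (by norm_num) hl hbl hd
  have ha : sn b κ ((-77 / 200) + 1) ≤ 37 / 50 := by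
    rcases le_total κ (31 / 10) with k0 | j0
    · exact snY (κb := 31 / 10) (y := 2263 / 5000) (hl := 6283 / 3000) hb1 hk1 k0 (by norm_num) (by rw [hheq]; linarith) (by norm_num)
          (sy_le_of (κ₀ := 133 / 50) (Fl := 314479 / 200000) (Fh := 393099 / 250000) (a := 364027 / 1000000) (c := 106367 / 125000) (τm := 64403 / 50000) (by norm_num) (by norm_num) (by norm_num)
            (exp_bds (by norm_num) (by norm_num) (by norm_num [Finset.sum_range_succ, Nat.factorial]) (by norm_num [Finset.sum_range_succ, Nat.factorial]))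
            (by norm_num) (by norm_num) (by norm_num) (by norm_num) (by norm_num) (Or.inr ⟨by norm_num, by norm_num⟩) (by norm_num) h1
            (by linarith) (by linarith)) (by norm_num)
    rcases le_total κ (69 / 20) with k1 | j1
    · exact snY (κb := 69 / 20) (y := 517 / 1250) (hl := 6283 / 3000) hb1 hk1 k1 (by norm_num) (by rw [hheq]; linarith) (by norm_num)
          (sy_le_of (κ₀ := 31 / 10) (Fl := 378063 / 250000) (Fh := 1512253 / 1000000) (a := 169367 / 500000) (c := 369341 / 500000) (τm := 64403 / 50000) (by norm_num) (by norm_num) (by norm_num)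
            (exp_bds (by norm_num) (by norm_num) (by norm_num [Finset.sum_range_succ, Nat.factorial]) (by norm_num [Finset.sum_range_succ, Nat.factorial]))
            (by norm_num) (by norm_num) (by norm_num) (by norm_num) (by norm_num) (Or.inr ⟨by norm_num, by norm_num⟩) (by norm_num) j0
            (by linarith) (by linarith)) (by norm_num)
    rcases le_total κ (189 / 50) with k2 | j2
    · exact snY (κb := 189 / 50) (y := 383 / 1000) (hl := 6283 / 3000) hb1 hk1 k2 (by norm_num) (by rw [hheq]; linarith) (by norm_num)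
          (sy_le_of (κ₀ := 69 / 20) (Fl := 733339 / 500000) (Fh := 1466679 / 1000000) (a := 318187 / 1000000) (c := 656797 / 1000000) (τm := 64403 / 50000) (by norm_num) (by norm_num) (by norm_num)
            (exp_bds (by norm_num) (by norm_num) (by norm_num [Finset.sum_range_succ, Nat.factorial]) (by norm_num [Finset.sum_range_succ, Nat.factorial]))
            (by norm_num) (by norm_num) (by norm_num) (by norm_num) (by norm_num) (Or.inr ⟨by norm_num, by norm_num⟩) (by norm_num) j1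
            (by linarith) (by linarith)) (by norm_num)
    rcases le_total κ (41 / 10) with k3 | j3
    · exact snY (κb := 41 / 10) (y := 3561 / 10000) (hl := 6283 / 3000) hb1 hk1 k3 (by norm_num) (by rw [hheq]; linarith) (by norm_num)
          (sy_le_of (κ₀ := 189 / 50) (Fl := 5711 / 4000) (Fh := 1427751 / 1000000) (a := 299597 / 1000000) (c := 589093 / 1000000) (τm := 64403 / 50000) (by norm_num) (by norm_num) (by norm_num)
            (exp_bds (by norm_num) (by norm_num) (by norm_num [Finset.sum_range_succ, Nat.factorial]) (by norm_num [Finset.sum_range_succ, Nat.factorial]))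
            (by norm_num) (by norm_num) (by norm_num) (by norm_num) (by norm_num) (Or.inr ⟨by norm_num, by norm_num⟩) (by norm_num) j2
            (by linarith) (by linarith)) (by norm_num)
    exact (snL (H := 51083 / 100000) (v := 37 / 50) (F := 1459383 / 1000000) hb1 hk1 (by linarith) (by norm_num) (by norm_num) (by norm_num)
          (exp_ge_bd (by norm_num) (by norm_num [Finset.sum_range_succ, Nat.factorial])) (by norm_num)).trans (by norm_num)
  have hA : ∀ t ∈ Icc (0 : ℝ) 1, sn b κ ((1 - t) * (-29 / 50) + t * (-77 / 200) + 1) ≤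
      (1 - t) * ((37 / 50) - (199 / 200) * ((-77 / 200) - (-29 / 50))) + t * (37 / 50) :=
    fun t ht => hA_R LL (by norm_num) ha ht
  exact secY_of (qL := -29 / 50) (qR := -77 / 200) (S := 481 / 500) (Sm := 147 / 200) (U := 1) (AL := (37 / 50) - (199 / 200) * ((-77 / 200) - (-29 / 50))) (AR := 37 / 50)
    (BL := (4179 / 10000)) (BR := (4179 / 10000) + (199 / 200) * ((-77 / 200) - (-29 / 50))) (mL := 477737 / 1000000) (mR := 336277 / 1000000)
    (by norm_num [NumQ.num, c3_7]) (by norm_num [NumQ.num, c3_7]) (by norm_num [NumQ.num, c3_7]) (by norm_num [NumQ.num, c3_7])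
    (by norm_num) hA (fun t ht => hB_of LL (by norm_num) ht)
    (fun t ht => hU_of hb1 (by linarith) (Or.inr ⟨rfl, by nlinarith⟩) (by norm_num) (by norm_num) ht)
    (fun t ht => log_interp (H₁ := 78737 / 100000) hb1 hk1 (by linarith) (by norm_num) (by norm_num) ht
      (exp_le_bd (by norm_num) (by norm_num) (by norm_num [Finset.sum_range_succ, Nat.factorial])) (exp_le_bd (by norm_num) (by norm_num) (by norm_num [Finset.sum_range_succ, Nat.factorial])))
    ⟨by norm_num, by norm_num⟩ ⟨by norm_num, by norm_num⟩ ⟨by norm_num, by norm_num⟩ ⟨by norm_num, by norm_num⟩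
    ⟨by norm_num, by norm_num⟩ ⟨by norm_num, by norm_num⟩ ⟨by norm_num, by norm_num⟩ ⟨by norm_num, by norm_num⟩

theorem secY4_1 {b : ℕ} {κ : ℝ} (hb : b = 4) (h1 : 139 / 100 ≤ κ) (h2 : κ ≤ 3 / 2) :
    SecY b κ c4_1.num (57 / 100) (11433 / 20000) (97 / 250) (121 / 125) (231 / 250) (1017 / 1000) := by
  have hb1 : 1 ≤ b := by omega
  have hk1 : 1 ≤ κ := by linarith
  have hh0 := hh_pos hb1
  have hp4 := Real.pi_lt_d4
  have hp3 := Real.pi_gt_d4
  have hheq : hh b = 2 * π / 4 := by rw [hb]; unfold hh; norm_num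
  have hhle : hh b ≤ 2 * π / 4 := hheq.le
  have hhq : hh b ≤ 3927 / 2500 := by
    refine hhle.trans ?_
    rw [div_le_iff₀ (by norm_num)]
    linarith
  obtain ⟨L, hl, hbl, hd⟩ := lr4_1 h1 hh0 hhle
  have LL : LineLo κ (hh b) (-111 / 200) (-43 / 100) (15521 / 40000) (17 / 25) := LineLo.of hk1 hh0 L (by norm_num) hl hbl hd
  have hA : ∀ t ∈ Icc (0 : ℝ) 1, sn b κ ((1 - t) * (-111 / 200) + t * (-43 / 100) + 1) ≤ (1 - t) * (1 * (1 + (-111 / 200))) + t * (1 * (1 + (-43 / 100))) :=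
    fun t ht => hA_U (c := 1) (τm := 2798 / 3125) hb1 hk1 (by norm_num) (by norm_num) (by linarith) (by linarith)
      (fun s hs hs' => lv_le_right hk1 (by nlinarith) hs hs') ht
  exact secY_of (qL := -111 / 200) (qR := -43 / 100) (S := 123 / 200) (Sm := 133 / 200) (U := (103 / 100)) (AL := 1 * (1 + (-111 / 200))) (AR := 1 * (1 + (-43 / 100)))
    (BL := (15521 / 40000)) (BR := (15521 / 40000) + (17 / 25) * ((-43 / 100) - (-111 / 200))) (mL := 13463 / 31250) (mR := 43807 / 125000)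
    (by norm_num [NumQ.num, c4_1]) (by norm_num [NumQ.num, c4_1]) (by norm_num [NumQ.num, c4_1]) (by norm_num [NumQ.num, c4_1])
    (by norm_num) hA (fun t ht => hB_of LL (by norm_num) ht)
    (fun t ht => hU_of hb1 (by linarith) (Or.inl rfl) (by norm_num) (by norm_num) ht)
    (fun t ht => log_interp (H₁ := 7063 / 6250) hb1 hk1 (by linarith) (by norm_num) (by norm_num) ht
      (exp_le_bd (by norm_num) (by norm_num) (by norm_num [Finset.sum_range_succ, Nat.factorial])) (exp_le_bd (by norm_num) (by norm_num) (by norm_num [Finset.sum_range_succ, Nat.factorial])))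
    ⟨by norm_num, by norm_num⟩ ⟨by norm_num, by norm_num⟩ ⟨by norm_num, by norm_num⟩ ⟨by norm_num, by norm_num⟩
    ⟨by norm_num, by norm_num⟩ ⟨by norm_num, by norm_num⟩ ⟨by norm_num, by norm_num⟩ ⟨by norm_num, by norm_num⟩

theorem secY4_2 {b : ℕ} {κ : ℝ} (hb : b = 4) (h1 : 3 / 2 ≤ κ) (h2 : κ ≤ 8 / 5) :
    SecY b κ c4_2.num (23 / 40) (721 / 1250) (197 / 500) (947 / 1000) (457 / 500) (1017 / 1000) := by
  have hb1 : 1 ≤ b := by omega
  have hk1 : 1 ≤ κ := by linarith
  have hh0 := hh_pos hb1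
  have hp4 := Real.pi_lt_d4
  have hp3 := Real.pi_gt_d4
  have hheq : hh b = 2 * π / 4 := by rw [hb]; unfold hh; norm_num
  have hhle : hh b ≤ 2 * π / 4 := hheq.le
  have hhq : hh b ≤ 3927 / 2500 := by
    refine hhle.trans ?_
    rw [div_le_iff₀ (by norm_num)]
    linarith
  obtain ⟨L, hl, hbl, hd⟩ := lr4_2 h1 hh0 hhle
  have LL : LineLo κ (hh b) (-14 / 25) (-17 / 40) (3949 / 10000) (29 / 40) := LineLo.of hk1 hh0 L (by norm_num) hl hbl hd
  have hA : ∀ t ∈ Icc (0 : ℝ) 1, sn b κ ((1 - t) * (-14 / 25) + t * (-17 / 40) + 1) ≤ (1 - t) * (1 * (1 + (-14 / 25))) + t * (1 * (1 + (-17 / 40))) :=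
    fun t ht => hA_U (c := 1) (τm := 90321 / 100000) hb1 hk1 (by norm_num) (by norm_num) (by linarith) (by linarith)
      (fun s hs hs' => lv_le_right hk1 (by nlinarith) hs hs') ht
  exact secY_of (qL := -14 / 25) (qR := -17 / 40) (S := 1283 / 2000) (Sm := 17 / 25) (U := (103 / 100)) (AL := 1 * (1 + (-14 / 25))) (AR := 1 * (1 + (-17 / 40)))
    (BL := (3949 / 10000)) (BR := (3949 / 10000) + (29 / 40) * ((-17 / 40) - (-14 / 25))) (mL := 440687 / 1000000) (mR := 351557 / 1000000)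
    (by norm_num [NumQ.num, c4_2]) (by norm_num [NumQ.num, c4_2]) (by norm_num [NumQ.num, c4_2]) (by norm_num [NumQ.num, c4_2])
    (by norm_num) hA (fun t ht => hB_of LL (by norm_num) ht)
    (fun t ht => hU_of hb1 (by linarith) (Or.inl rfl) (by norm_num) (by norm_num) ht)
    (fun t ht => log_interp (H₁ := 1309 / 1250) hb1 hk1 (by linarith) (by norm_num) (by norm_num) ht
      (exp_le_bd (by norm_num) (by norm_num) (by norm_num [Finset.sum_range_succ, Nat.factorial])) (exp_le_bd (by norm_num) (by norm_num) (by norm_num [Finset.sum_range_succ, Nat.factorial])))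
    ⟨by norm_num, by norm_num⟩ ⟨by norm_num, by norm_num⟩ ⟨by norm_num, by norm_num⟩ ⟨by norm_num, by norm_num⟩
    ⟨by norm_num, by norm_num⟩ ⟨by norm_num, by norm_num⟩ ⟨by norm_num, by norm_num⟩ ⟨by norm_num, by norm_num⟩

theorem secY4_3 {b : ℕ} {κ : ℝ} (hb : b = 4) (h1 : 8 / 5 ≤ κ) (h2 : κ ≤ 433 / 250) :
    SecY b κ c4_3.num (117 / 200) (11639 / 20000) (2 / 5) (437 / 500) (113 / 125) (1017 / 1000) := by
  have hb1 : 1 ≤ b := by omega
  have hk1 : 1 ≤ κ := by linarith
  have hh0 := hh_pos hb1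
  have hp4 := Real.pi_lt_d4
  have hp3 := Real.pi_gt_d4
  have hheq : hh b = 2 * π / 4 := by rw [hb]; unfold hh; norm_num
  have hhle : hh b ≤ 2 * π / 4 := hheq.le
  have hhq : hh b ≤ 3927 / 2500 := by
    refine hhle.trans ?_
    rw [div_le_iff₀ (by norm_num)]
    linarith
  obtain ⟨L, hl, hbl, hd⟩ := lr4_3 h1 hh0 hhle
  have LL : LineLo κ (hh b) (-113 / 200) (-83 / 200) (4007 / 10000) (19 / 25) := LineLo.of hk1 hh0 L (by norm_num) hl hbl hd
  have hA : ∀ t ∈ Icc (0 : ℝ) 1, sn b κ ((1 - t) * (-113 / 200) + t * (-83 / 200) + 1) ≤ (1 - t) * (1 * (1 + (-113 / 200))) + t * (1 * (1 + (-83 / 200))) :=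
    fun t ht => hA_U (c := 1) (τm := 22973 / 25000) hb1 hk1 (by norm_num) (by norm_num) (by linarith) (by linarith)
      (fun s hs hs' => lv_le_right hk1 (by nlinarith) hs hs') ht
  exact secY_of (qL := -113 / 200) (qR := -83 / 200) (S := 1447 / 2000) (Sm := 139 / 200) (U := (103 / 100)) (AL := 1 * (1 + (-113 / 200))) (AR := 1 * (1 + (-83 / 200)))
    (BL := (4007 / 10000)) (BR := (4007 / 10000) + (19 / 25) * ((-83 / 200) - (-113 / 200))) (mL := 224739 / 500000) (mR := 69623 / 200000)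
    (by norm_num [NumQ.num, c4_3]) (by norm_num [NumQ.num, c4_3]) (by norm_num [NumQ.num, c4_3]) (by norm_num [NumQ.num, c4_3])
    (by norm_num) hA (fun t ht => hB_of LL (by norm_num) ht)
    (fun t ht => hU_of hb1 (by linarith) (Or.inl rfl) (by norm_num) (by norm_num) ht)
    (fun t ht => log_interp (H₁ := 3927 / 4000) hb1 hk1 (by linarith) (by norm_num) (by norm_num) ht
      (exp_le_bd (by norm_num) (by norm_num) (by norm_num [Finset.sum_range_succ, Nat.factorial])) (exp_le_bd (by norm_num) (by norm_num) (by norm_num [Finset.sum_range_succ, Nat.factorial])))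
    ⟨by norm_num, by norm_num⟩ ⟨by norm_num, by norm_num⟩ ⟨by norm_num, by norm_num⟩ ⟨by norm_num, by norm_num⟩
    ⟨by norm_num, by norm_num⟩ ⟨by norm_num, by norm_num⟩ ⟨by norm_num, by norm_num⟩ ⟨by norm_num, by norm_num⟩

theorem secY4_4 {b : ℕ} {κ : ℝ} (hb : b = 4) (h1 : 433 / 250 ≤ κ) (h2 : κ ≤ 91 / 50) :
    SecY b κ c4_4.num (11859 / 20000) (5871 / 10000) (407 / 1000) (849 / 1000) (897 / 1000) (51 / 50) := by
  have hb1 : 1 ≤ b := by omega
  have hk1 : 1 ≤ κ := by linarith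
  have hh0 := hh_pos hb1
  have hp4 := Real.pi_lt_d4
  have hp3 := Real.pi_gt_d4
  have hheq : hh b = 2 * π / 4 := by rw [hb]; unfold hh; norm_num
  have hhle : hh b ≤ 2 * π / 4 := hheq.le
  have hhq : hh b ≤ 3927 / 2500 := by
    refine hhle.trans ?_
    rw [div_le_iff₀ (by norm_num)]
    linarith
  obtain ⟨L, hl, hbl, hd⟩ := lr4_4 h1 hh0 hhle
  have LL : LineLo κ (hh b) (-57 / 100) (-41 / 100) (8159 / 20000) (163 / 200) := LineLo.of hk1 hh0 L (by norm_num) hl hbl hd
  have hA : ∀ t ∈ Icc (0 : ℝ) 1, sn b κ ((1 - t) * (-57 / 100) + t * (-41 / 100) + 1) ≤ (1 - t) * ((1005 / 1000) * (1 + (-57 / 100))) + t * ((1005 / 1000) * (1 + (-41 / 100))) :=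
    fun t ht => hA_U (c := (1005 / 1000)) (τm := 46339 / 50000) hb1 hk1 (by norm_num) (by norm_num) (by linarith) (by linarith)
      (fun s hs hs' => lv_le_right19 hk1 (by linarith) hs hs') ht
  exact secY_of (qL := -57 / 100) (qR := -41 / 100) (S := 19 / 25) (Sm := 71 / 100) (U := (103 / 100)) (AL := (1005 / 1000) * (1 + (-57 / 100))) (AR := (1005 / 1000) * (1 + (-41 / 100)))
    (BL := (8159 / 20000)) (BR := (8159 / 20000) + (163 / 200) * ((-41 / 100) - (-57 / 100))) (mL := 57433 / 125000) (mR := 348597 / 1000000)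
    (by norm_num [NumQ.num, c4_4]) (by norm_num [NumQ.num, c4_4]) (by norm_num [NumQ.num, c4_4]) (by norm_num [NumQ.num, c4_4])
    (by norm_num) hA (fun t ht => hB_of LL (by norm_num) ht)
    (fun t ht => hU_of hb1 (by linarith) (Or.inl rfl) (by norm_num) (by norm_num) ht)
    (fun t ht => log_interp (H₁ := 90693 / 100000) hb1 hk1 (by linarith) (by norm_num) (by norm_num) ht
      (exp_le_bd (by norm_num) (by norm_num) (by norm_num [Finset.sum_range_succ, Nat.factorial])) (exp_le_bd (by norm_num) (by norm_num) (by norm_num [Finset.sum_range_succ, Nat.factorial])))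
    ⟨by norm_num, by norm_num⟩ ⟨by norm_num, by norm_num⟩ ⟨by norm_num, by norm_num⟩ ⟨by norm_num, by norm_num⟩
    ⟨by norm_num, by norm_num⟩ ⟨by norm_num, by norm_num⟩ ⟨by norm_num, by norm_num⟩ ⟨by norm_num, by norm_num⟩

theorem secY4_5 {b : ℕ} {κ : ℝ} (hb : b = 4) (h1 : 91 / 50 ≤ κ) (h2 : κ ≤ 19 / 10) :
    SecY b κ c4_5.num (11859 / 20000) (57 / 100) (207 / 500) (407 / 500) (853 / 1000) (1003 / 1000) := by
  have hb1 : 1 ≤ b := by omega
  have hk1 : 1 ≤ κ := by linarith
  have hh0 := hh_pos hb1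
  have hp4 := Real.pi_lt_d4
  have hp3 := Real.pi_gt_d4
  have hheq : hh b = 2 * π / 4 := by rw [hb]; unfold hh; norm_num
  have hhle : hh b ≤ 2 * π / 4 := hheq.le
  have hhq : hh b ≤ 3927 / 2500 := by
    refine hhle.trans ?_
    rw [div_le_iff₀ (by norm_num)]
    linarith
  obtain ⟨L, hl, hbl, hd⟩ := lr4_5 h1 hh0 hhle
  have LL : LineLo κ (hh b) (-57 / 100) (-41 / 100) (2071 / 5000) (169 / 200) := LineLo.of hk1 hh0 L (by norm_num) hl hbl hd
  have hA : ∀ t ∈ Icc (0 : ℝ) 1, sn b κ ((1 - t) * (-57 / 100) + t * (-41 / 100) + 1) ≤ (1 - t) * ((1005 / 1000) * (1 + (-57 / 100))) + t * ((1005 / 1000) * (1 + (-41 / 100))) :=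
    fun t ht => hA_U (c := (1005 / 1000)) (τm := 46339 / 50000) hb1 hk1 (by norm_num) (by norm_num) (by linarith) (by linarith)
      (fun s hs hs' => lv_le_right19 hk1 (by linarith) hs hs') ht
  exact secY_of (qL := -57 / 100) (qR := -41 / 100) (S := 313 / 400) (Sm := 18 / 25) (U := 1) (AL := (1005 / 1000) * (1 + (-57 / 100))) (AR := (1005 / 1000) * (1 + (-41 / 100)))
    (BL := (2071 / 5000)) (BR := (2071 / 5000) + (169 / 200) * ((-41 / 100) - (-57 / 100))) (mL := 231779 / 500000) (mR := 21939 / 62500)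
    (by norm_num [NumQ.num, c4_5]) (by norm_num [NumQ.num, c4_5]) (by norm_num [NumQ.num, c4_5]) (by norm_num [NumQ.num, c4_5])
    (by norm_num) hA (fun t ht => hB_of LL (by norm_num) ht)
    (fun t ht => hU_of hb1 (by linarith) (Or.inr ⟨rfl, by nlinarith⟩) (by norm_num) (by norm_num) ht)
    (fun t ht => log_interp (H₁ := 21577 / 25000) hb1 hk1 (by linarith) (by norm_num) (by norm_num) ht
      (exp_le_bd (by norm_num) (by norm_num) (by norm_num [Finset.sum_range_succ, Nat.factorial])) (exp_le_bd (by norm_num) (by norm_num) (by norm_num [Finset.sum_range_succ, Nat.factorial])))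
    ⟨by norm_num, by norm_num⟩ ⟨by norm_num, by norm_num⟩ ⟨by norm_num, by norm_num⟩ ⟨by norm_num, by norm_num⟩
    ⟨by norm_num, by norm_num⟩ ⟨by norm_num, by norm_num⟩ ⟨by norm_num, by norm_num⟩ ⟨by norm_num, by norm_num⟩

theorem secY4_6 {b : ℕ} {κ : ℝ} (hb : b = 4) (h1 : 19 / 10 ≤ κ) (h2 : κ ≤ 23 / 10) :
    SecY b κ c4_6.num (1547 / 2500) (23 / 40) (207 / 500) (97 / 125) (867 / 1000) (128 / 125) := by
  have hb1 : 1 ≤ b := by omega
  have hk1 : 1 ≤ κ := by linarith
  have hh0 := hh_pos hb1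
  have hp4 := Real.pi_lt_d4
  have hp3 := Real.pi_gt_d4
  have hheq : hh b = 2 * π / 4 := by rw [hb]; unfold hh; norm_num
  have hhle : hh b ≤ 2 * π / 4 := hheq.le
  have hhq : hh b ≤ 3927 / 2500 := by
    refine hhle.trans ?_
    rw [div_le_iff₀ (by norm_num)]
    linarith
  obtain ⟨L, hl, hbl, hd⟩ := lr4_6 h1 hh0 hhle
  have LL : LineLo κ (hh b) (-23 / 40) (-81 / 200) (663 / 1600) (7 / 8) := LineLo.of hk1 hh0 L (by norm_num) hl hbl hd
  have hA : ∀ t ∈ Icc (0 : ℝ) 1, sn b κ ((1 - t) * (-23 / 40) + t * (-81 / 200) + 1) ≤ (1 - t) * ((104 / 100) * (1 + (-23 / 40))) + t * ((104 / 100) * (1 + (-81 / 200))) :=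
    fun t ht => hA_U (c := (104 / 100)) (τm := 93463 / 100000) hb1 hk1 (by norm_num) (by norm_num) (by linarith) (by linarith)
      (fun s hs hs' => lv_le_right23 hk1 (by linarith) hs hs') ht
  exact secY_of (qL := -23 / 40) (qR := -81 / 200) (S := 347 / 400) (Sm := 29 / 40) (U := 1) (AL := (104 / 100) * (1 + (-23 / 40))) (AR := (104 / 100) * (1 + (-81 / 200)))
    (BL := (663 / 1600)) (BR := (663 / 1600) + (7 / 8) * ((-81 / 200) - (-23 / 40))) (mL := 29401 / 62500) (mR := 21833 / 62500)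
    (by norm_num [NumQ.num, c4_6]) (by norm_num [NumQ.num, c4_6]) (by norm_num [NumQ.num, c4_6]) (by norm_num [NumQ.num, c4_6])
    (by norm_num) hA (fun t ht => hB_of LL (by norm_num) ht)
    (fun t ht => hU_of hb1 (by linarith) (Or.inr ⟨rfl, by nlinarith⟩) (by norm_num) (by norm_num) ht)
    (fun t ht => log_interp (H₁ := 41337 / 50000) hb1 hk1 (by linarith) (by norm_num) (by norm_num) ht
      (exp_le_bd (by norm_num) (by norm_num) (by norm_num [Finset.sum_range_succ, Nat.factorial])) (exp_le_bd (by norm_num) (by norm_num) (by norm_num [Finset.sum_range_succ, Nat.factorial])))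
    ⟨by norm_num, by norm_num⟩ ⟨by norm_num, by norm_num⟩ ⟨by norm_num, by norm_num⟩ ⟨by norm_num, by norm_num⟩
    ⟨by norm_num, by norm_num⟩ ⟨by norm_num, by norm_num⟩ ⟨by norm_num, by norm_num⟩ ⟨by norm_num, by norm_num⟩

theorem secY4_7 {b : ℕ} {κ : ℝ} (hb : b = 4) (h1 : 23 / 10 ≤ κ) (_h2 : κ ≤ 20) :
    SecY b κ c4_7.num (367 / 500) (23 / 40) (211 / 500) (183 / 200) (191 / 200) (57 / 50) := by
  have hb1 : 1 ≤ b := by omega
  have hk1 : 1 ≤ κ := by linarith
  have hh0 := hh_pos hb1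
  have hp4 := Real.pi_lt_d4
  have hp3 := Real.pi_gt_d4
  have hheq : hh b = 2 * π / 4 := by rw [hb]; unfold hh; norm_num
  have hhle : hh b ≤ 2 * π / 4 := hheq.le
  have hhq : hh b ≤ 3927 / 2500 := by
    refine hhle.trans ?_
    rw [div_le_iff₀ (by norm_num)]
    linarith
  obtain ⟨L, hl, hbl, hd⟩ := lr4_7 h1 hh0 hhle
  have LL : LineLo κ (hh b) (-23 / 40) (-81 / 200) (3383 / 8000) (199 / 200) := LineLo.of hk1 hh0 L (by norm_num) hl hbl hd
  have ha : sn b κ ((-81 / 200) + 1) ≤ 367 / 500 := by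
    rcases le_total κ (133 / 50) with k0 | j0
    · exact (snU (c := (108 / 100)) (τm := 93463 / 100000) hb1 hk1 (by norm_num) (by linarith) (by linarith)
          (fun s hs hs' => lv_le_right266 hk1 (by linarith) hs hs')).trans (by norm_num)
    exact (snL (H := 59053 / 100000) (v := 367 / 500) (F := 192821 / 125000) hb1 hk1 (by linarith) (by norm_num) (by norm_num) (by norm_num)
          (exp_ge_bd (by norm_num) (by norm_num [Finset.sum_range_succ, Nat.factorial])) (by norm_num)).trans (by norm_num)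
  have hA : ∀ t ∈ Icc (0 : ℝ) 1, sn b κ ((1 - t) * (-23 / 40) + t * (-81 / 200) + 1) ≤
      (1 - t) * ((367 / 500) - (199 / 200) * ((-81 / 200) - (-23 / 40))) + t * (367 / 500) :=
    fun t ht => hA_R LL (by norm_num) ha ht
  exact secY_of (qL := -23 / 40) (qR := -81 / 200) (S := 1917 / 2000) (Sm := 19 / 25) (U := 1) (AL := (367 / 500) - (199 / 200) * ((-81 / 200) - (-23 / 40))) (AR := 367 / 500)
    (BL := (3383 / 8000)) (BR := (3383 / 8000) + (199 / 200) * ((-81 / 200) - (-23 / 40))) (mL := 242507 / 500000) (mR := 8939 / 25000)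
    (by norm_num [NumQ.num, c4_7]) (by norm_num [NumQ.num, c4_7]) (by norm_num [NumQ.num, c4_7]) (by norm_num [NumQ.num, c4_7])
    (by norm_num) hA (fun t ht => hB_of LL (by norm_num) ht)
    (fun t ht => hU_of hb1 (by linarith) (Or.inr ⟨rfl, by nlinarith⟩) (by norm_num) (by norm_num) ht)
    (fun t ht => log_interp (H₁ := 8537 / 12500) hb1 hk1 (by linarith) (by norm_num) (by norm_num) ht
      (exp_le_bd (by norm_num) (by norm_num) (by norm_num [Finset.sum_range_succ, Nat.factorial])) (exp_le_bd (by norm_num) (by norm_num) (by norm_num [Finset.sum_range_succ, Nat.factorial])))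
    ⟨by norm_num, by norm_num⟩ ⟨by norm_num, by norm_num⟩ ⟨by norm_num, by norm_num⟩ ⟨by norm_num, by norm_num⟩
    ⟨by norm_num, by norm_num⟩ ⟨by norm_num, by norm_num⟩ ⟨by norm_num, by norm_num⟩ ⟨by norm_num, by norm_num⟩

end Sok.R2
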