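import Pool.Agent.Lib.MP_816dec_an.R2Cls
import Pool.Agent.Lib.MP_816dec_an.R2SecY0
import Pool.Agent.Lib.MP_816dec_an.R2TabD
import Pool.Agent.Lib.MP_816dec_an.R2TabE

/-!
MP_816dec_an, row R2 (4): `SecY` for the classes b = 5, 6, 7, 8.
-/

set_option autoImplicit false

open Set Filter Topology Real

namespace Sok.R2

theorem secY5_1 {b : ℕ} {κ : ℝ} (hb : b = 5) (h1 : 139 / 100 ≤ κ) (h2 : κ ≤ 71 / 50) :
    SecY b κ c5_1.num (29 / 50) (1133 / 2000) (81 / 200) (41 / 50) (613 / 1000) (1017 / 1000) := by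
  have hb1 : 1 ≤ b := by omega
  have hk1 : 1 ≤ κ := by linarith
  have hh0 := hh_pos hb1
  have hp4 := Real.pi_lt_d4
  have hp3 := Real.pi_gt_d4
  have hheq : hh b = 2 * π / 5 := by rw [hb]; unfold hh; norm_num
  have hhle : hh b ≤ 2 * π / 5 := hheq.le
  have hhq : hh b ≤ 3927 / 3125 := by
    refine hhle.trans ?_
    rw [div_le_iff₀ (by norm_num)]
    linarith
  obtain ⟨L, hl, hbl, hd⟩ := lr5_1 h1 hh0 hhle
  have LL : LineLo κ (hh b) (-11 / 20) (-21 / 50) (1621 / 4000) (151 / 200) := LineLo.of hk1 hh0 L (by norm_num) hl hbl hd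
  have hA : ∀ t ∈ Icc (0 : ℝ) 1, sn b κ ((1 - t) * (-11 / 20) + t * (-21 / 50) + 1) ≤ (1 - t) * (1 * (1 + (-11 / 20))) + t * (1 * (1 + (-21 / 50))) :=
    fun t ht => hA_U (c := 1) (τm := 36443 / 50000) hb1 hk1 (by norm_num) (by norm_num) (by linarith) (by linarith)
      (fun s hs hs' => lv_le_right hk1 (by nlinarith) hs hs') ht
  exact secY_of (qL := -11 / 20) (qR := -21 / 50) (S := 1547 / 2000) (Sm := 97 / 100) (U := (103 / 100)) (AL := 1 * (1 + (-11 / 20))) (AR := 1 * (1 + (-21 / 50)))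
    (BL := (1621 / 4000)) (BR := (1621 / 4000) + (151 / 200) * ((-21 / 50) - (-11 / 20))) (mL := 446451 / 1000000) (mR := 356027 / 1000000)
    (by norm_num [NumQ.num, c5_1]) (by norm_num [NumQ.num, c5_1]) (by norm_num [NumQ.num, c5_1]) (by norm_num [NumQ.num, c5_1])
    (by norm_num) hA (fun t ht => hB_of LL (by norm_num) ht)
    (fun t ht => hU_of hb1 (by linarith) (Or.inl rfl) (by norm_num) (by norm_num) ht)
    (fun t ht => log_interp (H₁ := 45203 / 50000) hb1 hk1 (by linarith) (by norm_num) (by norm_num) ht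
      (exp_le_bd (by norm_num) (by norm_num) (by norm_num [Finset.sum_range_succ, Nat.factorial])) (exp_le_bd (by norm_num) (by norm_num) (by norm_num [Finset.sum_range_succ, Nat.factorial])))
    ⟨by norm_num, by norm_num⟩ ⟨by norm_num, by norm_num⟩ ⟨by norm_num, by norm_num⟩ ⟨by norm_num, by norm_num⟩
    ⟨by norm_num, by norm_num⟩ ⟨by norm_num, by norm_num⟩ ⟨by norm_num, by norm_num⟩ ⟨by norm_num, by norm_num⟩

theorem secY5_2 {b : ℕ} {κ : ℝ} (hb : b = 5) (h1 : 71 / 50 ≤ κ) (h2 : κ ≤ 37 / 25) :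
    SecY b κ c5_2.num (29 / 50) (1133 / 2000) (51 / 125) (811 / 1000) (309 / 500) (1017 / 1000) := by
  have hb1 : 1 ≤ b := by omega
  have hk1 : 1 ≤ κ := by linarith
  have hh0 := hh_pos hb1
  have hp4 := Real.pi_lt_d4
  have hp3 := Real.pi_gt_d4
  have hheq : hh b = 2 * π / 5 := by rw [hb]; unfold hh; norm_num
  have hhle : hh b ≤ 2 * π / 5 := hheq.le
  have hhq : hh b ≤ 3927 / 3125 := by
    refine hhle.trans ?_
    rw [div_le_iff₀ (by norm_num)]
    linarith
  obtain ⟨L, hl, hbl, hd⟩ := lr5_2 h1 hh0 hhle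
  have LL : LineLo κ (hh b) (-11 / 20) (-21 / 50) (1633 / 4000) (153 / 200) := LineLo.of hk1 hh0 L (by norm_num) hl hbl hd
  have hA : ∀ t ∈ Icc (0 : ℝ) 1, sn b κ ((1 - t) * (-11 / 20) + t * (-21 / 50) + 1) ≤ (1 - t) * (1 * (1 + (-11 / 20))) + t * (1 * (1 + (-21 / 50))) :=
    fun t ht => hA_U (c := 1) (τm := 36443 / 50000) hb1 hk1 (by norm_num) (by norm_num) (by linarith) (by linarith)
      (fun s hs hs' => lv_le_right hk1 (by nlinarith) hs hs') ht
  exact secY_of (qL := -11 / 20) (qR := -21 / 50) (S := 313 / 400) (Sm := 193 / 200) (U := (103 / 100)) (AL := 1 * (1 + (-11 / 20))) (AR := 1 * (1 + (-21 / 50)))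
    (BL := (1633 / 4000)) (BR := (1633 / 4000) + (153 / 200) * ((-21 / 50) - (-11 / 20))) (mL := 44813 / 100000) (mR := 357121 / 1000000)
    (by norm_num [NumQ.num, c5_2]) (by norm_num [NumQ.num, c5_2]) (by norm_num [NumQ.num, c5_2]) (by norm_num [NumQ.num, c5_2])
    (by norm_num) hA (fun t ht => hB_of LL (by norm_num) ht)
    (fun t ht => hU_of hb1 (by linarith) (Or.inl rfl) (by norm_num) (by norm_num) ht)
    (fun t ht => log_interp (H₁ := 5531 / 6250) hb1 hk1 (by linarith) (by norm_num) (by norm_num) ht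
      (exp_le_bd (by norm_num) (by norm_num) (by norm_num [Finset.sum_range_succ, Nat.factorial])) (exp_le_bd (by norm_num) (by norm_num) (by norm_num [Finset.sum_range_succ, Nat.factorial])))
    ⟨by norm_num, by norm_num⟩ ⟨by norm_num, by norm_num⟩ ⟨by norm_num, by norm_num⟩ ⟨by norm_num, by norm_num⟩
    ⟨by norm_num, by norm_num⟩ ⟨by norm_num, by norm_num⟩ ⟨by norm_num, by norm_num⟩ ⟨by norm_num, by norm_num⟩

theorem secY5_3 {b : ℕ} {κ : ℝ} (hb : b = 5) (h1 : 37 / 25 ≤ κ) (h2 : κ ≤ 79 / 50) :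
    SecY b κ c5_3.num (29 / 50) (1133 / 2000) (413 / 1000) (99 / 125) (633 / 1000) (1017 / 1000) := by
  have hb1 : 1 ≤ b := by omega
  have hk1 : 1 ≤ κ := by linarith
  have hh0 := hh_pos hb1
  have hp4 := Real.pi_lt_d4
  have hp3 := Real.pi_gt_d4
  have hheq : hh b = 2 * π / 5 := by rw [hb]; unfold hh; norm_num
  have hhle : hh b ≤ 2 * π / 5 := hheq.le
  have hhq : hh b ≤ 3927 / 3125 := by
    refine hhle.trans ?_
    rw [div_le_iff₀ (by norm_num)]
    linarith
  obtain ⟨L, hl, hbl, hd⟩ := lr5_3 h1 hh0 hhle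
  have LL : LineLo κ (hh b) (-11 / 20) (-21 / 50) (1653 / 4000) (79 / 100) := LineLo.of hk1 hh0 L (by norm_num) hl hbl hd
  have hA : ∀ t ∈ Icc (0 : ℝ) 1, sn b κ ((1 - t) * (-11 / 20) + t * (-21 / 50) + 1) ≤ (1 - t) * (1 * (1 + (-11 / 20))) + t * (1 * (1 + (-21 / 50))) :=
    fun t ht => hA_U (c := 1) (τm := 36443 / 50000) hb1 hk1 (by norm_num) (by norm_num) (by linarith) (by linarith)
      (fun s hs hs' => lv_le_right hk1 (by nlinarith) hs hs') ht
  exact secY_of (qL := -11 / 20) (qR := -21 / 50) (S := 801 / 1000) (Sm := 19 / 20) (U := (103 / 100)) (AL := 1 * (1 + (-11 / 20))) (AR := 1 * (1 + (-21 / 50)))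
    (BL := (1653 / 4000)) (BR := (1653 / 4000) + (79 / 100) * ((-21 / 50) - (-11 / 20))) (mL := 451329 / 1000000) (mR := 359201 / 1000000)
    (by norm_num [NumQ.num, c5_3]) (by norm_num [NumQ.num, c5_3]) (by norm_num [NumQ.num, c5_3]) (by norm_num [NumQ.num, c5_3])
    (by norm_num) hA (fun t ht => hB_of LL (by norm_num) ht)
    (fun t ht => hU_of hb1 (by linarith) (Or.inl rfl) (by norm_num) (by norm_num) ht)
    (fun t ht => log_interp (H₁ := 84909 / 100000) hb1 hk1 (by linarith) (by norm_num) (by norm_num) ht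
      (exp_le_bd (by norm_num) (by norm_num) (by norm_num [Finset.sum_range_succ, Nat.factorial])) (exp_le_bd (by norm_num) (by norm_num) (by norm_num [Finset.sum_range_succ, Nat.factorial])))
    ⟨by norm_num, by norm_num⟩ ⟨by norm_num, by norm_num⟩ ⟨by norm_num, by norm_num⟩ ⟨by norm_num, by norm_num⟩
    ⟨by norm_num, by norm_num⟩ ⟨by norm_num, by norm_num⟩ ⟨by norm_num, by norm_num⟩ ⟨by norm_num, by norm_num⟩

theorem secY5_4 {b : ℕ} {κ : ℝ} (hb : b = 5) (h1 : 79 / 50 ≤ κ) (h2 : κ ≤ 433 / 250) :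
    SecY b κ c5_4.num (59 / 100) (5871 / 10000) (101 / 250) (193 / 250) (87 / 100) (509 / 500) := by
  have hb1 : 1 ≤ b := by omega
  have hk1 : 1 ≤ κ := by linarith
  have hh0 := hh_pos hb1
  have hp4 := Real.pi_lt_d4
  have hp3 := Real.pi_gt_d4
  have hheq : hh b = 2 * π / 5 := by rw [hb]; unfold hh; norm_num
  have hhle : hh b ≤ 2 * π / 5 := hheq.le
  have hhq : hh b ≤ 3927 / 3125 := by
    refine hhle.trans ?_
    rw [div_le_iff₀ (by norm_num)]
    linarith
  obtain ⟨L, hl, hbl, hd⟩ := lr5_4 h1 hh0 hhle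
  have LL : LineLo κ (hh b) (-57 / 100) (-41 / 100) (8099 / 20000) (33 / 40) := LineLo.of hk1 hh0 L (by norm_num) hl hbl hd
  have hA : ∀ t ∈ Icc (0 : ℝ) 1, sn b κ ((1 - t) * (-57 / 100) + t * (-41 / 100) + 1) ≤ (1 - t) * (1 * (1 + (-57 / 100))) + t * (1 * (1 + (-41 / 100))) :=
    fun t ht => hA_U (c := 1) (τm := 37071 / 50000) hb1 hk1 (by norm_num) (by norm_num) (by linarith) (by linarith)
      (fun s hs hs' => lv_le_right hk1 (by nlinarith) hs hs') ht
  exact secY_of (qL := -57 / 100) (qR := -41 / 100) (S := 831 / 1000) (Sm := 147 / 200) (U := (103 / 100)) (AL := 1 * (1 + (-57 / 100))) (AR := 1 * (1 + (-41 / 100)))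
    (BL := (8099 / 20000)) (BR := (8099 / 20000) + (33 / 40) * ((-41 / 100) - (-57 / 100))) (mL := 47007 / 100000) (mR := 354859 / 1000000)
    (by norm_num [NumQ.num, c5_4]) (by norm_num [NumQ.num, c5_4]) (by norm_num [NumQ.num, c5_4]) (by norm_num [NumQ.num, c5_4])
    (by norm_num) hA (fun t ht => hB_of LL (by norm_num) ht)
    (fun t ht => hU_of hb1 (by linarith) (Or.inl rfl) (by norm_num) (by norm_num) ht)
    (fun t ht => log_interp (H₁ := 15907 / 20000) hb1 hk1 (by linarith) (by norm_num) (by norm_num) ht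
      (exp_le_bd (by norm_num) (by norm_num) (by norm_num [Finset.sum_range_succ, Nat.factorial])) (exp_le_bd (by norm_num) (by norm_num) (by norm_num [Finset.sum_range_succ, Nat.factorial])))
    ⟨by norm_num, by norm_num⟩ ⟨by norm_num, by norm_num⟩ ⟨by norm_num, by norm_num⟩ ⟨by norm_num, by norm_num⟩
    ⟨by norm_num, by norm_num⟩ ⟨by norm_num, by norm_num⟩ ⟨by norm_num, by norm_num⟩ ⟨by norm_num, by norm_num⟩

theorem secY5_5 {b : ℕ} {κ : ℝ} (hb : b = 5) (h1 : 433 / 250 ≤ κ) (h2 : κ ≤ 2) :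
    SecY b κ c5_5.num (5967 / 10000) (11639 / 20000) (419 / 1000) (187 / 250) (429 / 500) (513 / 500) := by
  have hb1 : 1 ≤ b := by omega
  have hk1 : 1 ≤ κ := by linarith
  have hh0 := hh_pos hb1
  have hp4 := Real.pi_lt_d4
  have hp3 := Real.pi_gt_d4
  have hheq : hh b = 2 * π / 5 := by rw [hb]; unfold hh; norm_num
  have hhle : hh b ≤ 2 * π / 5 := hheq.le
  have hhq : hh b ≤ 3927 / 3125 := by
    refine hhle.trans ?_
    rw [div_le_iff₀ (by norm_num)]
    linarith
  obtain ⟨L, hl, hbl, hd⟩ := lr5_5 h1 hh0 hhle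
  have LL : LineLo κ (hh b) (-113 / 200) (-83 / 200) (8387 / 20000) (7 / 8) := LineLo.of hk1 hh0 L (by norm_num) hl hbl hd
  have hA : ∀ t ∈ Icc (0 : ℝ) 1, sn b κ ((1 - t) * (-113 / 200) + t * (-83 / 200) + 1) ≤ (1 - t) * ((102 / 100) * (1 + (-113 / 200))) + t * ((102 / 100) * (1 + (-83 / 200))) :=
    fun t ht => hA_U (c := (102 / 100)) (τm := 36757 / 50000) hb1 hk1 (by norm_num) (by norm_num) (by linarith) (by linarith)
      (fun s hs hs' => lv_le_right21 hk1 (by linarith) hs hs') ht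
  exact secY_of (qL := -113 / 200) (qR := -83 / 200) (S := 873 / 1000) (Sm := 3 / 4) (U := (103 / 100)) (AL := (102 / 100) * (1 + (-113 / 200))) (AR := (102 / 100) * (1 + (-83 / 200)))
    (BL := (8387 / 20000)) (BR := (8387 / 20000) + (7 / 8) * ((-83 / 200) - (-113 / 200))) (mL := 236747 / 500000) (mR := 45347 / 125000)
    (by norm_num [NumQ.num, c5_5]) (by norm_num [NumQ.num, c5_5]) (by norm_num [NumQ.num, c5_5]) (by norm_num [NumQ.num, c5_5])
    (by norm_num) hA (fun t ht => hB_of LL (by norm_num) ht)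
    (fun t ht => hU_of hb1 (by linarith) (Or.inl rfl) (by norm_num) (by norm_num) ht)
    (fun t ht => log_interp (H₁ := 14511 / 20000) hb1 hk1 (by linarith) (by norm_num) (by norm_num) ht
      (exp_le_bd (by norm_num) (by norm_num) (by norm_num [Finset.sum_range_succ, Nat.factorial])) (exp_le_bd (by norm_num) (by norm_num) (by norm_num [Finset.sum_range_succ, Nat.factorial])))
    ⟨by norm_num, by norm_num⟩ ⟨by norm_num, by norm_num⟩ ⟨by norm_num, by norm_num⟩ ⟨by norm_num, by norm_num⟩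
    ⟨by norm_num, by norm_num⟩ ⟨by norm_num, by norm_num⟩ ⟨by norm_num, by norm_num⟩ ⟨by norm_num, by norm_num⟩

theorem secY5_6 {b : ℕ} {κ : ℝ} (hb : b = 5) (h1 : 2 ≤ κ) (_h2 : κ ≤ 20) :
    SecY b κ c5_6.num (137 / 200) (57 / 100) (213 / 500) (847 / 1000) (903 / 1000) (277 / 250) := by
  have hb1 : 1 ≤ b := by omega
  have hk1 : 1 ≤ κ := by linarith
  have hh0 := hh_pos hb1
  have hp4 := Real.pi_lt_d4
  have hp3 := Real.pi_gt_d4
  have hheq : hh b = 2 * π / 5 := by rw [hb]; unfold hh; norm_num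
  have hhle : hh b ≤ 2 * π / 5 := hheq.le
  have hhq : hh b ≤ 3927 / 3125 := by
    refine hhle.trans ?_
    rw [div_le_iff₀ (by norm_num)]
    linarith
  obtain ⟨L, hl, hbl, hd⟩ := lr5_6 h1 hh0 hhle
  have LL : LineLo κ (hh b) (-57 / 100) (-83 / 200) (1707 / 4000) (19 / 20) := LineLo.of hk1 hh0 L (by norm_num) hl hbl hd
  have ha : sn b κ ((-83 / 200) + 1) ≤ 137 / 200 := by
    rcases le_total κ (133 / 50) with k0 | j0
    · exact (snU (c := (108 / 100)) (τm := 36757 / 50000) hb1 hk1 (by norm_num) (by linarith) (by linarith)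
          (fun s hs hs' => lv_le_right266 hk1 (by linarith) hs hs')).trans (by norm_num)
    exact (snL (H := 47243 / 100000) (v := 137 / 200) (F := 691057 / 500000) hb1 hk1 (by linarith) (by norm_num) (by norm_num) (by norm_num)
          (exp_ge_bd (by norm_num) (by norm_num [Finset.sum_range_succ, Nat.factorial])) (by norm_num)).trans (by norm_num)
  have hA : ∀ t ∈ Icc (0 : ℝ) 1, sn b κ ((1 - t) * (-57 / 100) + t * (-83 / 200) + 1) ≤
      (1 - t) * ((137 / 200) - (19 / 20) * ((-83 / 200) - (-57 / 100))) + t * (137 / 200) :=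
    fun t ht => hA_R LL (by norm_num) ha ht
  exact secY_of (qL := -57 / 100) (qR := -83 / 200) (S := 1877 / 2000) (Sm := 31 / 40) (U := 1) (AL := (137 / 200) - (19 / 20) * ((-83 / 200) - (-57 / 100))) (AR := 137 / 200)
    (BL := (1707 / 4000)) (BR := (1707 / 4000) + (19 / 20) * ((-83 / 200) - (-57 / 100))) (mL := 609 / 1250) (mR := 14751 / 40000)
    (by norm_num [NumQ.num, c5_6]) (by norm_num [NumQ.num, c5_6]) (by norm_num [NumQ.num, c5_6]) (by norm_num [NumQ.num, c5_6])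
    (by norm_num) hA (fun t ht => hB_of LL (by norm_num) ht)
    (fun t ht => hU_of hb1 (by linarith) (Or.inr ⟨rfl, by nlinarith⟩) (by norm_num) (by norm_num) ht)
    (fun t ht => log_interp (H₁ := 3927 / 6250) hb1 hk1 (by linarith) (by norm_num) (by norm_num) ht
      (exp_le_bd (by norm_num) (by norm_num) (by norm_num [Finset.sum_range_succ, Nat.factorial])) (exp_le_bd (by norm_num) (by norm_num) (by norm_num [Finset.sum_range_succ, Nat.factorial])))
    ⟨by norm_num, by norm_num⟩ ⟨by norm_num, by norm_num⟩ ⟨by norm_num, by norm_num⟩ ⟨by norm_num, by norm_num⟩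
    ⟨by norm_num, by norm_num⟩ ⟨by norm_num, by norm_num⟩ ⟨by norm_num, by norm_num⟩ ⟨by norm_num, by norm_num⟩

theorem secY6_1 {b : ℕ} {κ : ℝ} (hb : b = 6) (h1 : 139 / 100 ≤ κ) (h2 : κ ≤ 31 / 20) :
    SecY b κ c6_1.num (29 / 50) (11639 / 20000) (401 / 1000) (97 / 125) (427 / 500) (1017 / 1000) := by
  have hb1 : 1 ≤ b := by omega
  have hk1 : 1 ≤ κ := by linarith
  have hh0 := hh_pos hb1
  have hp4 := Real.pi_lt_d4
  have hp3 := Real.pi_gt_d4
  have hheq : hh b = 2 * π / 6 := by rw [hb]; unfold hh; norm_num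
  have hhle : hh b ≤ 2 * π / 6 := hheq.le
  have hhq : hh b ≤ 1309 / 1250 := by
    refine hhle.trans ?_
    rw [div_le_iff₀ (by norm_num)]
    linarith
  obtain ⟨L, hl, hbl, hd⟩ := lr6_1 h1 hh0 hhle
  have LL : LineLo κ (hh b) (-113 / 200) (-21 / 50) (16063 / 40000) (161 / 200) := LineLo.of hk1 hh0 L (by norm_num) hl hbl hd
  have hA : ∀ t ∈ Icc (0 : ℝ) 1, sn b κ ((1 - t) * (-113 / 200) + t * (-21 / 50) + 1) ≤ (1 - t) * (1 * (1 + (-113 / 200))) + t * (1 * (1 + (-21 / 50))) :=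
    fun t ht => hA_U (c := 1) (τm := 30369 / 50000) hb1 hk1 (by norm_num) (by norm_num) (by linarith) (by linarith)
      (fun s hs hs' => lv_le_right hk1 (by nlinarith) hs hs') ht
  exact secY_of (qL := -113 / 200) (qR := -21 / 50) (S := 327 / 400) (Sm := 149 / 200) (U := (103 / 100)) (AL := 1 * (1 + (-113 / 200))) (AR := 1 * (1 + (-21 / 50)))
    (BL := (16063 / 40000)) (BR := (16063 / 40000) + (161 / 200) * ((-21 / 50) - (-113 / 200))) (mL := 470723 / 1000000) (mR := 364909 / 1000000)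
    (by norm_num [NumQ.num, c6_1]) (by norm_num [NumQ.num, c6_1]) (by norm_num [NumQ.num, c6_1]) (by norm_num [NumQ.num, c6_1])
    (by norm_num) hA (fun t ht => hB_of LL (by norm_num) ht)
    (fun t ht => hU_of hb1 (by linarith) (Or.inl rfl) (by norm_num) (by norm_num) ht)
    (fun t ht => log_interp (H₁ := 75339 / 100000) hb1 hk1 (by linarith) (by norm_num) (by norm_num) ht
      (exp_le_bd (by norm_num) (by norm_num) (by norm_num [Finset.sum_range_succ, Nat.factorial])) (exp_le_bd (by norm_num) (by norm_num) (by norm_num [Finset.sum_range_succ, Nat.factorial])))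
    ⟨by norm_num, by norm_num⟩ ⟨by norm_num, by norm_num⟩ ⟨by norm_num, by norm_num⟩ ⟨by norm_num, by norm_num⟩
    ⟨by norm_num, by norm_num⟩ ⟨by norm_num, by norm_num⟩ ⟨by norm_num, by norm_num⟩ ⟨by norm_num, by norm_num⟩

theorem secY6_2 {b : ℕ} {κ : ℝ} (hb : b = 6) (h1 : 31 / 20 ≤ κ) (h2 : κ ≤ 433 / 250) :
    SecY b κ c6_2.num (29 / 50) (11639 / 20000) (413 / 1000) (183 / 250) (839 / 1000) (1017 / 1000) := by
  have hb1 : 1 ≤ b := by omega
  have hk1 : 1 ≤ κ := by linarith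
  have hh0 := hh_pos hb1
  have hp4 := Real.pi_lt_d4
  have hp3 := Real.pi_gt_d4
  have hheq : hh b = 2 * π / 6 := by rw [hb]; unfold hh; norm_num
  have hhle : hh b ≤ 2 * π / 6 := hheq.le
  have hhq : hh b ≤ 1309 / 1250 := by
    refine hhle.trans ?_
    rw [div_le_iff₀ (by norm_num)]
    linarith
  obtain ⟨L, hl, hbl, hd⟩ := lr6_2 h1 hh0 hhle
  have LL : LineLo κ (hh b) (-113 / 200) (-21 / 50) (8263 / 20000) (171 / 200) := LineLo.of hk1 hh0 L (by norm_num) hl hbl hd
  have hA : ∀ t ∈ Icc (0 : ℝ) 1, sn b κ ((1 - t) * (-113 / 200) + t * (-21 / 50) + 1) ≤ (1 - t) * (1 * (1 + (-113 / 200))) + t * (1 * (1 + (-21 / 50))) :=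
    fun t ht => hA_U (c := 1) (τm := 30369 / 50000) hb1 hk1 (by norm_num) (by norm_num) (by linarith) (by linarith)
      (fun s hs hs' => lv_le_right hk1 (by nlinarith) hs hs') ht
  exact secY_of (qL := -113 / 200) (qR := -21 / 50) (S := 1723 / 2000) (Sm := 19 / 25) (U := (103 / 100)) (AL := 1 * (1 + (-113 / 200))) (AR := 1 * (1 + (-21 / 50)))
    (BL := (8263 / 20000)) (BR := (8263 / 20000) + (171 / 200) * ((-21 / 50) - (-113 / 200))) (mL := 119643 / 250000) (mR := 92431 / 250000)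
    (by norm_num [NumQ.num, c6_2]) (by norm_num [NumQ.num, c6_2]) (by norm_num [NumQ.num, c6_2]) (by norm_num [NumQ.num, c6_2])
    (by norm_num) hA (fun t ht => hB_of LL (by norm_num) ht)
    (fun t ht => hU_of hb1 (by linarith) (Or.inl rfl) (by norm_num) (by norm_num) ht)
    (fun t ht => log_interp (H₁ := 33781 / 50000) hb1 hk1 (by linarith) (by norm_num) (by norm_num) ht
      (exp_le_bd (by norm_num) (by norm_num) (by norm_num [Finset.sum_range_succ, Nat.factorial])) (exp_le_bd (by norm_num) (by norm_num) (by norm_num [Finset.sum_range_succ, Nat.factorial])))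
    ⟨by norm_num, by norm_num⟩ ⟨by norm_num, by norm_num⟩ ⟨by norm_num, by norm_num⟩ ⟨by norm_num, by norm_num⟩
    ⟨by norm_num, by norm_num⟩ ⟨by norm_num, by norm_num⟩ ⟨by norm_num, by norm_num⟩ ⟨by norm_num, by norm_num⟩

theorem secY6_3 {b : ℕ} {κ : ℝ} (hb : b = 6) (h1 : 433 / 250 ≤ κ) (_h2 : κ ≤ 20) :
    SecY b κ c6_3.num (333 / 500) (5871 / 10000) (419 / 1000) (853 / 1000) (23 / 25) (1113 / 1000) := by
  have hb1 : 1 ≤ b := by omega
  have hk1 : 1 ≤ κ := by linarith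
  have hh0 := hh_pos hb1
  have hp4 := Real.pi_lt_d4
  have hp3 := Real.pi_gt_d4
  have hheq : hh b = 2 * π / 6 := by rw [hb]; unfold hh; norm_num
  have hhle : hh b ≤ 2 * π / 6 := hheq.le
  have hhq : hh b ≤ 1309 / 1250 := by
    refine hhle.trans ?_
    rw [div_le_iff₀ (by norm_num)]
    linarith
  obtain ⟨L, hl, hbl, hd⟩ := lr6_3 h1 hh0 hhle
  have LL : LineLo κ (hh b) (-57 / 100) (-83 / 200) (8381 / 20000) (91 / 100) := LineLo.of hk1 hh0 L (by norm_num) hl hbl hd
  have ha : sn b κ ((-83 / 200) + 1) ≤ 333 / 500 := by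
    rcases le_total κ (133 / 50) with k0 | j0
    · exact (snU (c := (108 / 100)) (τm := 30631 / 50000) hb1 hk1 (by norm_num) (by linarith) (by linarith)
          (fun s hs hs' => lv_le_right266 hk1 (by linarith) hs hs')).trans (by norm_num)
    exact (snL (H := 39369 / 100000) (v := 333 / 500) (F := 1299783 / 1000000) hb1 hk1 (by linarith) (by norm_num) (by norm_num) (by norm_num)
          (exp_ge_bd (by norm_num) (by norm_num [Finset.sum_range_succ, Nat.factorial])) (by norm_num)).trans (by norm_num)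
  have hA : ∀ t ∈ Icc (0 : ℝ) 1, sn b κ ((1 - t) * (-57 / 100) + t * (-83 / 200) + 1) ≤
      (1 - t) * ((333 / 500) - (91 / 100) * ((-83 / 200) - (-57 / 100))) + t * (333 / 500) :=
    fun t ht => hA_R LL (by norm_num) ha ht
  exact secY_of (qL := -57 / 100) (qR := -83 / 200) (S := 907 / 1000) (Sm := 39 / 50) (U := (103 / 100)) (AL := (333 / 500) - (91 / 100) * ((-83 / 200) - (-57 / 100))) (AR := 333 / 500)
    (BL := (8381 / 20000)) (BR := (8381 / 20000) + (91 / 100) * ((-83 / 200) - (-57 / 100))) (mL := 122441 / 250000) (mR := 370277 / 1000000)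
    (by norm_num [NumQ.num, c6_3]) (by norm_num [NumQ.num, c6_3]) (by norm_num [NumQ.num, c6_3]) (by norm_num [NumQ.num, c6_3])
    (by norm_num) hA (fun t ht => hB_of LL (by norm_num) ht)
    (fun t ht => hU_of hb1 (by linarith) (Or.inl rfl) (by norm_num) (by norm_num) ht)
    (fun t ht => log_interp (H₁ := 30231 / 50000) hb1 hk1 (by linarith) (by norm_num) (by norm_num) ht
      (exp_le_bd (by norm_num) (by norm_num) (by norm_num [Finset.sum_range_succ, Nat.factorial])) (exp_le_bd (by norm_num) (by norm_num) (by norm_num [Finset.sum_range_succ, Nat.factorial])))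
    ⟨by norm_num, by norm_num⟩ ⟨by norm_num, by norm_num⟩ ⟨by norm_num, by norm_num⟩ ⟨by norm_num, by norm_num⟩
    ⟨by norm_num, by norm_num⟩ ⟨by norm_num, by norm_num⟩ ⟨by norm_num, by norm_num⟩ ⟨by norm_num, by norm_num⟩

theorem secY7_1 {b : ℕ} {κ : ℝ} (hb : b = 7) (h1 : 139 / 100 ≤ κ) (h2 : κ ≤ 433 / 250) :
    SecY b κ c7_1.num (29 / 50) (11639 / 20000) (203 / 500) (149 / 200) (829 / 1000) (1017 / 1000) := by
  have hb1 : 1 ≤ b := by omega
  have hk1 : 1 ≤ κ := by linarith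
  have hh0 := hh_pos hb1
  have hp4 := Real.pi_lt_d4
  have hp3 := Real.pi_gt_d4
  have hheq : hh b = 2 * π / 7 := by rw [hb]; unfold hh; norm_num
  have hhle : hh b ≤ 2 * π / 7 := hheq.le
  have hhq : hh b ≤ 561 / 625 := by
    refine hhle.trans ?_
    rw [div_le_iff₀ (by norm_num)]
    linarith
  obtain ⟨L, hl, hbl, hd⟩ := lr7_1 h1 hh0 hhle
  have LL : LineLo κ (hh b) (-113 / 200) (-21 / 50) (8139 / 20000) (21 / 25) := LineLo.of hk1 hh0 L (by norm_num) hl hbl hd
  have hA : ∀ t ∈ Icc (0 : ℝ) 1, sn b κ ((1 - t) * (-113 / 200) + t * (-21 / 50) + 1) ≤ (1 - t) * (1 * (1 + (-113 / 200))) + t * (1 * (1 + (-21 / 50))) :=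
    fun t ht => hA_U (c := 1) (τm := 52061 / 100000) hb1 hk1 (by norm_num) (by norm_num) (by linarith) (by linarith)
      (fun s hs hs' => lv_le_right hk1 (by nlinarith) hs hs') ht
  exact secY_of (qL := -113 / 200) (qR := -21 / 50) (S := 1697 / 2000) (Sm := 77 / 100) (U := (103 / 100)) (AL := 1 * (1 + (-113 / 200))) (AR := 1 * (1 + (-21 / 50)))
    (BL := (8139 / 20000)) (BR := (8139 / 20000) + (21 / 25) * ((-21 / 50) - (-113 / 200))) (mL := 481677 / 1000000) (mR := 185809 / 500000)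
    (by norm_num [NumQ.num, c7_1]) (by norm_num [NumQ.num, c7_1]) (by norm_num [NumQ.num, c7_1]) (by norm_num [NumQ.num, c7_1])
    (by norm_num) hA (fun t ht => hB_of LL (by norm_num) ht)
    (fun t ht => hU_of hb1 (by linarith) (Or.inl rfl) (by norm_num) (by norm_num) ht)
    (fun t ht => log_interp (H₁ := 2018 / 3125) hb1 hk1 (by linarith) (by norm_num) (by norm_num) ht
      (exp_le_bd (by norm_num) (by norm_num) (by norm_num [Finset.sum_range_succ, Nat.factorial])) (exp_le_bd (by norm_num) (by norm_num) (by norm_num [Finset.sum_range_succ, Nat.factorial])))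
    ⟨by norm_num, by norm_num⟩ ⟨by norm_num, by norm_num⟩ ⟨by norm_num, by norm_num⟩ ⟨by norm_num, by norm_num⟩
    ⟨by norm_num, by norm_num⟩ ⟨by norm_num, by norm_num⟩ ⟨by norm_num, by norm_num⟩ ⟨by norm_num, by norm_num⟩

theorem secY7_2 {b : ℕ} {κ : ℝ} (hb : b = 7) (h1 : 433 / 250 ≤ κ) (_h2 : κ ≤ 20) :
    SecY b κ c7_2.num (16 / 25) (11639 / 20000) (213 / 500) (789 / 1000) (869 / 1000) (273 / 250) := by
  have hb1 : 1 ≤ b := by omega
  have hk1 : 1 ≤ κ := by linarith
  have hh0 := hh_pos hb1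
  have hp4 := Real.pi_lt_d4
  have hp3 := Real.pi_gt_d4
  have hheq : hh b = 2 * π / 7 := by rw [hb]; unfold hh; norm_num
  have hhle : hh b ≤ 2 * π / 7 := hheq.le
  have hhq : hh b ≤ 561 / 625 := by
    refine hhle.trans ?_
    rw [div_le_iff₀ (by norm_num)]
    linarith
  obtain ⟨L, hl, hbl, hd⟩ := lr7_2 h1 hh0 hhle
  have LL : LineLo κ (hh b) (-113 / 200) (-17 / 40) (341 / 800) (93 / 100) := LineLo.of hk1 hh0 L (by norm_num) hl hbl hd
  have ha : sn b κ ((-17 / 40) + 1) ≤ 16 / 25 := by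
    rcases le_total κ (133 / 50) with k0 | j0
    · exact (snU (c := (108 / 100)) (τm := 12903 / 25000) hb1 hk1 (by norm_num) (by linarith) (by linarith)
          (fun s hs hs' => lv_le_right266 hk1 (by linarith) hs hs')).trans (by norm_num)
    exact (snL (H := 6749 / 20000) (v := 16 / 25) (F := 620531 / 500000) hb1 hk1 (by linarith) (by norm_num) (by norm_num) (by norm_num)
          (exp_ge_bd (by norm_num) (by norm_num [Finset.sum_range_succ, Nat.factorial])) (by norm_num)).trans (by norm_num)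
  have hA : ∀ t ∈ Icc (0 : ℝ) 1, sn b κ ((1 - t) * (-113 / 200) + t * (-17 / 40) + 1) ≤
      (1 - t) * ((16 / 25) - (93 / 100) * ((-17 / 40) - (-113 / 200))) + t * (16 / 25) :=
    fun t ht => hA_R LL (by norm_num) ha ht
  exact secY_of (qL := -113 / 200) (qR := -17 / 40) (S := 929 / 1000) (Sm := 161 / 200) (U := (103 / 100)) (AL := (16 / 25) - (93 / 100) * ((-17 / 40) - (-113 / 200))) (AR := 16 / 25)
    (BL := (341 / 800)) (BR := (341 / 800) + (93 / 100) * ((-17 / 40) - (-113 / 200))) (mL := 9911 / 20000) (mR := 192051 / 500000)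
    (by norm_num [NumQ.num, c7_2]) (by norm_num [NumQ.num, c7_2]) (by norm_num [NumQ.num, c7_2]) (by norm_num [NumQ.num, c7_2])
    (by norm_num) hA (fun t ht => hB_of LL (by norm_num) ht)
    (fun t ht => hU_of hb1 (by linarith) (Or.inl rfl) (by norm_num) (by norm_num) ht)
    (fun t ht => log_interp (H₁ := 2073 / 4000) hb1 hk1 (by linarith) (by norm_num) (by norm_num) ht
      (exp_le_bd (by norm_num) (by norm_num) (by norm_num [Finset.sum_range_succ, Nat.factorial])) (exp_le_bd (by norm_num) (by norm_num) (by norm_num [Finset.sum_range_succ, Nat.factorial])))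
    ⟨by norm_num, by norm_num⟩ ⟨by norm_num, by norm_num⟩ ⟨by norm_num, by norm_num⟩ ⟨by norm_num, by norm_num⟩
    ⟨by norm_num, by norm_num⟩ ⟨by norm_num, by norm_num⟩ ⟨by norm_num, by norm_num⟩ ⟨by norm_num, by norm_num⟩

theorem secY8_1 {b : ℕ} {κ : ℝ} (hb : 8 ≤ b) (h1 : 139 / 100 ≤ κ) (h2 : κ ≤ 433 / 250) :
    SecY b κ c8_1.num (23 / 40) (721 / 1250) (83 / 200) (717 / 1000) (201 / 250) (1017 / 1000) := by
  have hb1 : 1 ≤ b := by omega
  have hk1 : 1 ≤ κ := by linarith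
  have hh0 := hh_pos hb1
  have hp4 := Real.pi_lt_d4
  have hp3 := Real.pi_gt_d4
  have hhle : hh b ≤ 2 * π / 8 := by
    have h8 : (8 : ℝ) ≤ b := by exact_mod_cast hb
    unfold hh
    exact div_le_div_of_nonneg_left (by linarith) (by norm_num) h8
  have hhq : hh b ≤ 3927 / 5000 := by
    refine hhle.trans ?_
    rw [div_le_iff₀ (by norm_num)]
    linarith
  obtain ⟨L, hl, hbl, hd⟩ := lr8_1 h1 hh0 hhle
  have LL : LineLo κ (hh b) (-14 / 25) (-17 / 40) (4151 / 10000) (173 / 200) := LineLo.of hk1 hh0 L (by norm_num) hl hbl hd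
  have hA : ∀ t ∈ Icc (0 : ℝ) 1, sn b κ ((1 - t) * (-14 / 25) + t * (-17 / 40) + 1) ≤ (1 - t) * (1 * (1 + (-14 / 25))) + t * (1 * (1 + (-17 / 40))) :=
    fun t ht => hA_U (c := 1) (τm := 45161 / 100000) hb1 hk1 (by norm_num) (by norm_num) (by linarith) (by linarith)
      (fun s hs hs' => lv_le_right hk1 (by nlinarith) hs hs') ht
  exact secY_of (qL := -14 / 25) (qR := -17 / 40) (S := 871 / 1000) (Sm := 79 / 100) (U := (103 / 100)) (AL := 1 * (1 + (-14 / 25))) (AR := 1 * (1 + (-17 / 40)))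
    (BL := (4151 / 10000)) (BR := (4151 / 10000) + (173 / 200) * ((-17 / 40) - (-14 / 25))) (mL := 97309 / 200000) (mR := 380903 / 1000000)
    (by norm_num [NumQ.num, c8_1]) (by norm_num [NumQ.num, c8_1]) (by norm_num [NumQ.num, c8_1]) (by norm_num [NumQ.num, c8_1])
    (by norm_num) hA (fun t ht => hB_of LL (by norm_num) ht)
    (fun t ht => hU_of hb1 (by linarith) (Or.inl rfl) (by norm_num) (by norm_num) ht)
    (fun t ht => log_interp (H₁ := 7063 / 12500) hb1 hk1 (by linarith) (by norm_num) (by norm_num) ht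
      (exp_le_bd (by norm_num) (by norm_num) (by norm_num [Finset.sum_range_succ, Nat.factorial])) (exp_le_bd (by norm_num) (by norm_num) (by norm_num [Finset.sum_range_succ, Nat.factorial])))
    ⟨by norm_num, by norm_num⟩ ⟨by norm_num, by norm_num⟩ ⟨by norm_num, by norm_num⟩ ⟨by norm_num, by norm_num⟩
    ⟨by norm_num, by norm_num⟩ ⟨by norm_num, by norm_num⟩ ⟨by norm_num, by norm_num⟩ ⟨by norm_num, by norm_num⟩

theorem secY8_2 {b : ℕ} {κ : ℝ} (hb : 8 ≤ b) (h1 : 433 / 250 ≤ κ) (_h2 : κ ≤ 20) :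
    SecY b κ c8_2.num (5 / 8) (721 / 1250) (54 / 125) (749 / 1000) (209 / 250) (1079 / 1000) := by
  have hb1 : 1 ≤ b := by omega
  have hk1 : 1 ≤ κ := by linarith
  have hh0 := hh_pos hb1
  have hp4 := Real.pi_lt_d4
  have hp3 := Real.pi_gt_d4
  have hhle : hh b ≤ 2 * π / 8 := by
    have h8 : (8 : ℝ) ≤ b := by exact_mod_cast hb
    unfold hh
    exact div_le_div_of_nonneg_left (by linarith) (by norm_num) h8
  have hhq : hh b ≤ 3927 / 5000 := by
    refine hhle.trans ?_
    rw [div_le_iff₀ (by norm_num)]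
    linarith
  obtain ⟨L, hl, hbl, hd⟩ := lr8_2 h1 hh0 hhle
  have LL : LineLo κ (hh b) (-14 / 25) (-43 / 100) (4329 / 10000) (189 / 200) := LineLo.of hk1 hh0 L (by norm_num) hl hbl hd
  have ha : sn b κ ((-43 / 100) + 1) ≤ 5 / 8 := by
    rcases le_total κ (133 / 50) with k0 | j0
    · exact (snU (c := (108 / 100)) (τm := 1399 / 3125) hb1 hk1 (by norm_num) (by linarith) (by linarith)
          (fun s hs hs' => lv_le_right266 hk1 (by linarith) hs hs')).trans (by norm_num)
    exact (snL (H := 29527 / 100000) (v := 5 / 8) (F := 1202669 / 1000000) hb1 hk1 (by linarith) (by norm_num) (by norm_num) (by norm_num)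
          (exp_ge_bd (by norm_num) (by norm_num [Finset.sum_range_succ, Nat.factorial])) (by norm_num)).trans (by norm_num)
  have hA : ∀ t ∈ Icc (0 : ℝ) 1, sn b κ ((1 - t) * (-14 / 25) + t * (-43 / 100) + 1) ≤
      (1 - t) * ((5 / 8) - (189 / 200) * ((-43 / 100) - (-14 / 25))) + t * (5 / 8) :=
    fun t ht => hA_R LL (by norm_num) ha ht
  exact secY_of (qL := -14 / 25) (qR := -43 / 100) (S := 118 / 125) (Sm := 41 / 50) (U := (103 / 100)) (AL := (5 / 8) - (189 / 200) * ((-43 / 100) - (-14 / 25))) (AR := 5 / 8)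
    (BL := (4329 / 10000)) (BR := (4329 / 10000) + (189 / 200) * ((-43 / 100) - (-14 / 25))) (mL := 19961 / 40000) (mR := 98209 / 250000)
    (by norm_num [NumQ.num, c8_2]) (by norm_num [NumQ.num, c8_2]) (by norm_num [NumQ.num, c8_2]) (by norm_num [NumQ.num, c8_2])
    (by norm_num) hA (fun t ht => hB_of LL (by norm_num) ht)
    (fun t ht => hU_of hb1 (by linarith) (Or.inl rfl) (by norm_num) (by norm_num) ht)
    (fun t ht => log_interp (H₁ := 45347 / 100000) hb1 hk1 (by linarith) (by norm_num) (by norm_num) ht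
      (exp_le_bd (by norm_num) (by norm_num) (by norm_num [Finset.sum_range_succ, Nat.factorial])) (exp_le_bd (by norm_num) (by norm_num) (by norm_num [Finset.sum_range_succ, Nat.factorial])))
    ⟨by norm_num, by norm_num⟩ ⟨by norm_num, by norm_num⟩ ⟨by norm_num, by norm_num⟩ ⟨by norm_num, by norm_num⟩
    ⟨by norm_num, by norm_num⟩ ⟨by norm_num, by norm_num⟩ ⟨by norm_num, by norm_num⟩ ⟨by norm_num, by norm_num⟩

end Sok.R2
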