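import Pool.Agent.Lib.MP_816dec_an.R2SecPN
import Pool.Agent.Lib.MP_816dec_an.R2SecYA
import Pool.Agent.Lib.MP_816dec_an.R2SecYB
import Pool.Agent.Lib.MP_816dec_an.R2SecYC

/-!
MP_816dec_an, row R2 (4): `SecD` for the 37 classes, final form.
-/

set_option autoImplicit false

open Set Filter Topology Real

namespace Sok.R2

theorem secF1_1 {b : ℕ} {κ : ℝ} (hb : b = 1) (h1 : 47 / 10 ≤ κ) (h2 : κ ≤ 28 / 5) :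
    SecD b κ c1_1.num (49 / 20) (189 / 100) (97 / 50) :=
  secD1_1 hb h1 h2 (secY1_1 hb h1 h2)

theorem secF1_2 {b : ℕ} {κ : ℝ} (hb : b = 1) (h1 : 28 / 5 ≤ κ) (h2 : κ ≤ 69 / 10) :
    SecD b κ c1_2.num (53 / 25) (171 / 100) (179 / 100) :=
  secD1_2 hb h1 h2 (secY1_2 hb h1 h2)

theorem secF1_3 {b : ℕ} {κ : ℝ} (hb : b = 1) (h1 : 69 / 10 ≤ κ) (h2 : κ ≤ 77 / 10) :
    SecD b κ c1_3.num (46 / 25) (3 / 2) (81 / 50) :=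
  secD1_3 hb h1 h2 (secY1_3 hb h1 h2)

theorem secF1_4 {b : ℕ} {κ : ℝ} (hb : b = 1) (h1 : 77 / 10 ≤ κ) (h2 : κ ≤ 41 / 5) :
    SecD b κ c1_4.num (7 / 4) (71 / 50) (39 / 25) :=
  secD1_4 hb h1 h2 (secY1_4 hb h1 h2)

theorem secF1_5 {b : ℕ} {κ : ℝ} (hb : b = 1) (h1 : 41 / 5 ≤ κ) (h2 : κ ≤ 19 / 2) :
    SecD b κ c1_5.num (159 / 100) (69 / 50) (38 / 25) :=
  secD1_5 hb h1 h2 (secY1_5 hb h1 h2)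

theorem secF1_6 {b : ℕ} {κ : ℝ} (hb : b = 1) (h1 : 19 / 2 ≤ κ) (h2 : κ ≤ 20) :
    SecD b κ c1_6.num (73 / 50) (5 / 4) (141 / 100) :=
  secD1_6 hb h1 h2 (secY1_6 hb h1 h2)

theorem secF2_1 {b : ℕ} {κ : ℝ} (hb : b = 2) (h1 : 3 ≤ κ) (h2 : κ ≤ 7 / 2) :
    SecD b κ c2_1.num (9 / 5) (33 / 20) (44 / 25) :=
  secD2_1 hb h1 h2 (secY2_1 hb h1 h2)

theorem secF2_2 {b : ℕ} {κ : ℝ} (hb : b = 2) (h1 : 7 / 2 ≤ κ) (h2 : κ ≤ 39 / 10) :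
    SecD b κ c2_2.num (77 / 50) (31 / 20) (42 / 25) :=
  secD2_2 hb h1 h2 (secY2_2 hb h1 h2)

theorem secF2_3 {b : ℕ} {κ : ℝ} (hb : b = 2) (h1 : 39 / 10 ≤ κ) (h2 : κ ≤ 21 / 5) :
    SecD b κ c2_3.num (33 / 25) (29 / 20) (161 / 100) :=
  secD2_3 hb h1 h2 (secY2_3 hb h1 h2)

theorem secF2_4 {b : ℕ} {κ : ℝ} (hb : b = 2) (h1 : 21 / 5 ≤ κ) (h2 : κ ≤ 20) :
    SecD b κ c2_4.num (83 / 50) (37 / 25) (159 / 100) :=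
  secD2_4 hb h1 h2 (secY2_4 hb h1 h2)

theorem secF3_1 {b : ℕ} {κ : ℝ} (hb : b = 3) (h1 : 139 / 100 ≤ κ) (h2 : κ ≤ 8 / 5) :
    SecD b κ c3_1.num (283 / 100) (9 / 4) (227 / 100) :=
  secD3_1 hb h1 h2 (secY3_1 hb h1 h2)

theorem secF3_2 {b : ℕ} {κ : ℝ} (hb : b = 3) (h1 : 8 / 5 ≤ κ) (h2 : κ ≤ 19 / 10) :
    SecD b κ c3_2.num (229 / 100) (97 / 50) (199 / 100) :=
  secD3_2 hb h1 h2 (secY3_2 hb h1 h2)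

theorem secF3_3 {b : ℕ} {κ : ℝ} (hb : b = 3) (h1 : 19 / 10 ≤ κ) (h2 : κ ≤ 21 / 10) :
    SecD b κ c3_3.num (167 / 100) (41 / 25) (44 / 25) :=
  secD3_3 hb h1 h2 (secY3_3 hb h1 h2)

theorem secF3_4 {b : ℕ} {κ : ℝ} (hb : b = 3) (h1 : 21 / 10 ≤ κ) (h2 : κ ≤ 23 / 10) :
    SecD b κ c3_4.num (141 / 100) (157 / 100) (171 / 100) :=
  secD3_4 hb h1 h2 (secY3_4 hb h1 h2)

theorem secF3_5 {b : ℕ} {κ : ℝ} (hb : b = 3) (h1 : 23 / 10 ≤ κ) (h2 : κ ≤ 5 / 2) :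
    SecD b κ c3_5.num (69 / 50) (153 / 100) (17 / 10) :=
  secD3_5 hb h1 h2 (secY3_5 hb h1 h2)

theorem secF3_6 {b : ℕ} {κ : ℝ} (hb : b = 3) (h1 : 5 / 2 ≤ κ) (h2 : κ ≤ 133 / 50) :
    SecD b κ c3_6.num (33 / 25) (147 / 100) (33 / 20) :=
  secD3_6 hb h1 h2 (secY3_6 hb h1 h2)

theorem secF3_7 {b : ℕ} {κ : ℝ} (hb : b = 3) (h1 : 133 / 50 ≤ κ) (h2 : κ ≤ 20) :
    SecD b κ c3_7.num (99 / 50) (43 / 25) (177 / 100) :=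
  secD3_7 hb h1 h2 (secY3_7 hb h1 h2)

theorem secF4_1 {b : ℕ} {κ : ℝ} (hb : b = 4) (h1 : 139 / 100 ≤ κ) (h2 : κ ≤ 3 / 2) :
    SecD b κ c4_1.num (101 / 50) (191 / 100) (201 / 100) :=
  secD4_1 hb h1 h2 (secY4_1 hb h1 h2)

theorem secF4_2 {b : ℕ} {κ : ℝ} (hb : b = 4) (h1 : 3 / 2 ≤ κ) (h2 : κ ≤ 8 / 5) :
    SecD b κ c4_2.num (93 / 50) (181 / 100) (48 / 25) :=
  secD4_2 hb h1 h2 (secY4_2 hb h1 h2)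

theorem secF4_3 {b : ℕ} {κ : ℝ} (hb : b = 4) (h1 : 8 / 5 ≤ κ) (h2 : κ ≤ 433 / 250) :
    SecD b κ c4_3.num (41 / 25) (7 / 4) (187 / 100) :=
  secD4_3 hb h1 h2 (secY4_3 hb h1 h2)

theorem secF4_4 {b : ℕ} {κ : ℝ} (hb : b = 4) (h1 : 433 / 250 ≤ κ) (h2 : κ ≤ 91 / 50) :
    SecD b κ c4_4.num (149 / 100) (167 / 100) (9 / 5) :=
  secD4_4 hb h1 h2 (secY4_4 hb h1 h2)

theorem secF4_5 {b : ℕ} {κ : ℝ} (hb : b = 4) (h1 : 91 / 50 ≤ κ) (h2 : κ ≤ 19 / 10) :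
    SecD b κ c4_5.num (137 / 100) (39 / 25) (173 / 100) :=
  secD4_5 hb h1 h2 (secY4_5 hb h1 h2)

theorem secF4_6 {b : ℕ} {κ : ℝ} (hb : b = 4) (h1 : 19 / 10 ≤ κ) (h2 : κ ≤ 23 / 10) :
    SecD b κ c4_6.num (7 / 5) (8 / 5) (7 / 4) :=
  secD4_6 hb h1 h2 (secY4_6 hb h1 h2)

theorem secF4_7 {b : ℕ} {κ : ℝ} (hb : b = 4) (h1 : 23 / 10 ≤ κ) (h2 : κ ≤ 20) :
    SecD b κ c4_7.num (103 / 50) (179 / 100) (183 / 100) :=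
  secD4_7 hb h1 h2 (secY4_7 hb h1 h2)

theorem secF5_1 {b : ℕ} {κ : ℝ} (hb : b = 5) (h1 : 139 / 100 ≤ κ) (h2 : κ ≤ 71 / 50) :
    SecD b κ c5_1.num (38 / 25) (29 / 20) (39 / 20) :=
  secD5_1 hb h1 h2 (secY5_1 hb h1 h2)

theorem secF5_2 {b : ℕ} {κ : ℝ} (hb : b = 5) (h1 : 71 / 50 ≤ κ) (h2 : κ ≤ 37 / 25) :
    SecD b κ c5_2.num (3 / 2) (36 / 25) (48 / 25) :=
  secD5_2 hb h1 h2 (secY5_2 hb h1 h2)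

theorem secF5_3 {b : ℕ} {κ : ℝ} (hb : b = 5) (h1 : 37 / 25 ≤ κ) (h2 : κ ≤ 79 / 50) :
    SecD b κ c5_3.num (36 / 25) (143 / 100) (47 / 25) :=
  secD5_3 hb h1 h2 (secY5_3 hb h1 h2)

theorem secF5_4 {b : ℕ} {κ : ℝ} (hb : b = 5) (h1 : 79 / 50 ≤ κ) (h2 : κ ≤ 433 / 250) :
    SecD b κ c5_4.num (139 / 100) (42 / 25) (46 / 25) :=
  secD5_4 hb h1 h2 (secY5_4 hb h1 h2)

theorem secF5_5 {b : ℕ} {κ : ℝ} (hb : b = 5) (h1 : 433 / 250 ≤ κ) (h2 : κ ≤ 2) :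
    SecD b κ c5_5.num (131 / 100) (159 / 100) (177 / 100) :=
  secD5_5 hb h1 h2 (secY5_5 hb h1 h2)

theorem secF5_6 {b : ℕ} {κ : ℝ} (hb : b = 5) (h1 : 2 ≤ κ) (h2 : κ ≤ 20) :
    SecD b κ c5_6.num (201 / 100) (9 / 5) (183 / 100) :=
  secD5_6 hb h1 h2 (secY5_6 hb h1 h2)

theorem secF6_1 {b : ℕ} {κ : ℝ} (hb : b = 6) (h1 : 139 / 100 ≤ κ) (h2 : κ ≤ 31 / 20) :
    SecD b κ c6_1.num (37 / 25) (87 / 50) (48 / 25) :=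
  secD6_1 hb h1 h2 (secY6_1 hb h1 h2)

theorem secF6_2 {b : ℕ} {κ : ℝ} (hb : b = 6) (h1 : 31 / 20 ≤ κ) (h2 : κ ≤ 433 / 250) :
    SecD b κ c6_2.num (13 / 10) (81 / 50) (91 / 50) :=
  secD6_2 hb h1 h2 (secY6_2 hb h1 h2)

theorem secF6_3 {b : ℕ} {κ : ℝ} (hb : b = 6) (h1 : 433 / 250 ≤ κ) (h2 : κ ≤ 20) :
    SecD b κ c6_3.num (107 / 50) (39 / 20) (191 / 100) :=
  secD6_3 hb h1 h2 (secY6_3 hb h1 h2)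

theorem secF7_1 {b : ℕ} {κ : ℝ} (hb : b = 7) (h1 : 139 / 100 ≤ κ) (h2 : κ ≤ 433 / 250) :
    SecD b κ c7_1.num (3 / 2) (171 / 100) (19 / 10) :=
  secD7_1 hb h1 h2 (secY7_1 hb h1 h2)

theorem secF7_2 {b : ℕ} {κ : ℝ} (hb : b = 7) (h1 : 433 / 250 ≤ κ) (h2 : κ ≤ 20) :
    SecD b κ c7_2.num (99 / 50) (93 / 50) (37 / 20) :=
  secD7_2 hb h1 h2 (secY7_2 hb h1 h2)

theorem secF8_1 {b : ℕ} {κ : ℝ} (hb : 8 ≤ b) (h1 : 139 / 100 ≤ κ) (h2 : κ ≤ 433 / 250) :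
    SecD b κ c8_1.num (42 / 25) (91 / 50) (49 / 25) :=
  secD8_1 hb h1 h2 (secY8_1 hb h1 h2)

theorem secF8_2 {b : ℕ} {κ : ℝ} (hb : 8 ≤ b) (h1 : 433 / 250 ≤ κ) (h2 : κ ≤ 20) :
    SecD b κ c8_2.num (39 / 20) (48 / 25) (187 / 100) :=
  secD8_2 hb h1 h2 (secY8_2 hb h1 h2)

end Sok.R2
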