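import Pool.Agent.Lib.MP_816dec_an.R2WPt

/-!
MP_816dec_an (row R2, far windows): helper lemmas of the instances.
-/

set_option autoImplicit false

open Complex Set Filter Topology

namespace Sok.R2

theorem lt_of {b : ℕ} {κ : ℝ} {N : Num} {W : WC} {H1 X3 : ℝ} (O : W.Ok N) (T : W.OkT N H1 X3) (hb : 1 ≤ b)
    (hb1 : W.R.b1 ≤ b) (hk : W.R.k1 ≤ κ) : ∀ V : ℝ, 0 < V → (1 + κ ^ 2) * V = κ * (hh b * N.Sm) →
      (1 + κ ^ 2) * (Mv κ (-V) + -V - 1) ≤ hh b ^ 2 * N.Cm := by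
  intro V hV hv
  have hS : 0 < N.Sm := by rw [← O.kS.2.1]; exact O.L.S
  exact left_tan hb hb1 (WP.hb1p O) O.R.k1 hk hS T.h1.1 T.h1.2 T.x3 T.C V hV hv

theorem b1_8 {b : ℕ} {x : ℝ} (hb : 8 ≤ b) (hx : x ≤ 8) : x ≤ b := by
  have : ((8 : ℕ) : ℝ) ≤ b := by exact_mod_cast hb
  push_cast at this
  linarith

end Sok.R2
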