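import Pool.Agent.Lib.MP_816dec_an.R2Geo

/-!
MP_816dec_an, row R2-D2: gap lemmas (second differences with a tangent at the far end).

`ev κ τ = (1 + κ²) (1 - sE κ (τ - κ))` is the drop from the peak, `yv κ τ = (1 + κ²) sy κ (τ - κ) / κ` its
derivative, `lv κ τ = Lk κ (sy κ (τ - κ))` the derivative of `yv`.
-/

set_option autoImplicit false

open Set Filter Topology Real

namespace Sok

namespace R2

/-- the drop from the peak, times `1 + κ²` -/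
noncomputable def ev (κ τ : ℝ) : ℝ := (1 + κ ^ 2) * (1 - sE κ (τ - κ))

/-- its derivative -/
noncomputable def yv (κ τ : ℝ) : ℝ := (1 + κ ^ 2) * sy κ (τ - κ) / κ

/-- the second derivative -/
noncomputable def lv (κ τ : ℝ) : ℝ := Lk κ (sy κ (τ - κ))

theorem ev_zero {κ : ℝ} (hκ : 1 ≤ κ) : ev κ 0 = 0 := by
  unfold ev
  rw [zero_sub, sE_zero hκ]; ring

theorem yv_zero {κ : ℝ} (hκ : 1 ≤ κ) : yv κ 0 = 0 := by
  unfold yv
  rw [zero_sub, (sy_zero hκ).1]; ring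

theorem hasDerivAt_ev {κ τ : ℝ} (hκ : 1 ≤ κ) (hτ : τ < κ + π / 2) : HasDerivAt (ev κ) (yv κ τ) τ := by
  have hd := DomR_of hκ (by linarith : τ - κ < π / 2)
  have h1 := (hasStrictDerivAt_sE hd).hasDerivAt
  have h2 : HasDerivAt (fun τ : ℝ => τ - κ) 1 τ := (hasDerivAt_id τ).sub_const κ
  have h3 := h1.comp τ h2
  have h4 := (h3.const_sub 1).const_mul (1 + κ ^ 2)
  refine h4.congr_deriv ?_
  unfold yv
  ring

theorem hasDerivAt_yv {κ τ : ℝ} (hκ : 1 ≤ κ) (hτ : τ < κ + π / 2) : HasDerivAt (yv κ) (lv κ τ) τ := by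
  have hd := DomR_of hκ (by linarith : τ - κ < π / 2)
  have h1 := hasDerivAt_sy hd
  have h2 : HasDerivAt (fun τ : ℝ => τ - κ) 1 τ := (hasDerivAt_id τ).sub_const κ
  have h3 := h1.comp τ h2
  have h4 := (h3.const_mul (1 + κ ^ 2)).div_const κ
  refine h4.congr_deriv ?_
  unfold lv
  have hk : κ ≠ 0 := by linarith
  have hk2 : 1 + κ ^ 2 ≠ 0 := by positivity
  field_simp

/-- an abstract gap lemma for a convex function vanishing to second order at `0`, right side -/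
private theorem gap_aux {d δ : ℝ → ℝ} {k s τ1 τs τk : ℝ} (hk : 1 ≤ k) (h1 : 0 ≤ τ1) (h2 : τ1 ≤ τs) (h3 : τs ≤ τk)
    (hs : τ1 ≤ s) (h4 : τk - τ1 = (k - 1) * s) (hd0 : d 0 = 0) (hδ0 : δ 0 = 0)
    (hd : ∀ τ ∈ Icc 0 τs, HasDerivAt d (δ τ) τ) (hδ : MonotoneOn δ (Icc 0 τs)) :
    0 ≤ -(k * d τ1) + d τs + δ τs * (τk - τs) := by
  have hm0 : (0 : ℝ) ∈ Icc 0 τs := ⟨le_rfl, h1.trans h2⟩
  have hm1 : τ1 ∈ Icc 0 τs := ⟨h1, h2⟩
  have hms : τs ∈ Icc 0 τs := ⟨h1.trans h2, le_rfl⟩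
  have hcd : ContinuousOn d (Icc 0 τs) := fun τ hτ => (hd τ hτ).continuousAt.continuousWithinAt
  -- mean value bounds
  have a1 : d τ1 ≤ δ τ1 * τ1 := by
    rcases eq_or_lt_of_le h1 with h | h
    · rw [← h, hd0]; simp
    · obtain ⟨c, hc, hce⟩ := exists_hasDerivAt_eq_slope d δ h (hcd.mono (Icc_subset_Icc le_rfl h2))
        (fun x hx => hd x ⟨hx.1.le, hx.2.le.trans h2⟩)
      have h5 : δ c ≤ δ τ1 := hδ ⟨hc.1.le, hc.2.le.trans h2⟩ hm1 hc.2.le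
      rw [hce, hd0, sub_zero, sub_zero, div_le_iff₀ h] at h5
      exact h5
  have a2 : δ τ1 * (τs - τ1) ≤ d τs - d τ1 := by
    rcases eq_or_lt_of_le h2 with h | h
    · rw [h]; simp
    · obtain ⟨c, hc, hce⟩ := exists_hasDerivAt_eq_slope d δ h (hcd.mono (Icc_subset_Icc h1 le_rfl))
        (fun x hx => hd x ⟨h1.trans hx.1.le, hx.2.le⟩)
      have h5 : δ τ1 ≤ δ c := hδ hm1 ⟨h1.trans hc.1.le, hc.2.le⟩ hc.1.le
      rw [hce, le_div_iff₀ (by linarith)] at h5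
      exact h5
  have a3 : δ τ1 ≤ δ τs := hδ hm1 hms h2
  have a4 : 0 ≤ δ τ1 := by
    have := hδ hm0 hm1 h1
    rwa [hδ0] at this
  have a5 : δ τ1 * (τk - τs) ≤ δ τs * (τk - τs) := mul_le_mul_of_nonneg_right a3 (by linarith)
  have a6 : (k - 1) * d τ1 ≤ (k - 1) * (δ τ1 * τ1) := mul_le_mul_of_nonneg_left a1 (by linarith)
  have a7 : 0 ≤ δ τ1 * ((k - 1) * (s - τ1)) := mul_nonneg a4 (mul_nonneg (by linarith) (by linarith))
  have e : δ τ1 * (τs - τ1) + δ τ1 * (τk - τs) = δ τ1 * ((k - 1) * s) := by rw [← h4]; ring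
  nlinarith

/-- **right far windows** -/
theorem gap_right {κ k s τ1 τs τk l : ℝ} (hκ : 1 ≤ κ) (hk : 1 ≤ k) (h1 : 0 ≤ τ1) (h2 : τ1 ≤ τs) (h3 : τs ≤ τk)
    (hs : τ1 ≤ s) (h4 : τk - τ1 = (k - 1) * s) (hp : τs < κ + π / 2) (hl : ∀ τ, 0 ≤ τ → τ ≤ τs → l ≤ lv κ τ) :
    l * (-(k * τ1 ^ 2 / 2) + τs ^ 2 / 2 + τs * (τk - τs)) ≤ -(k * ev κ τ1) + ev κ τs + yv κ τs * (τk - τs) := by
  have h := gap_aux (d := fun τ => ev κ τ - l * τ ^ 2 / 2) (δ := fun τ => yv κ τ - l * τ) hk h1 h2 h3 hs h4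
    (by rw [ev_zero hκ]; ring) (by rw [yv_zero hκ]; ring)
    (by
      intro τ hτ
      have h5 : HasDerivAt (fun τ : ℝ => l * τ ^ 2 / 2) (l * τ) τ := by
        have := ((hasDerivAt_pow 2 τ).const_mul l).div_const 2
        refine this.congr_deriv ?_
        simp only [Nat.cast_ofNat, Nat.add_one_sub_one, pow_one]
        ring
      exact (hasDerivAt_ev hκ (lt_of_le_of_lt hτ.2 hp)).sub h5)
    (by
      apply monotoneOn_of_deriv_nonneg (convex_Icc _ _)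
      · intro τ hτ
        exact ((hasDerivAt_yv hκ (lt_of_le_of_lt hτ.2 hp)).sub ((hasDerivAt_id τ).const_mul l)).continuousAt.continuousWithinAt
      · intro τ hτ
        rw [interior_Icc] at hτ
        exact ((hasDerivAt_yv hκ (hτ.2.trans hp)).sub
          ((hasDerivAt_id τ).const_mul l)).differentiableAt.differentiableWithinAt
      · intro τ hτ
        rw [interior_Icc] at hτ
        have h5 : HasDerivAt (fun τ => yv κ τ - l * τ) (lv κ τ - l * 1) τ :=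
          (hasDerivAt_yv hκ (hτ.2.trans hp)).sub ((hasDerivAt_id τ).const_mul l)
        rw [h5.deriv]
        have := hl τ hτ.1.le hτ.2.le
        linarith)
  nlinarith

/-- the comparison function on the left side -/
noncomputable def fv (κ τ : ℝ) : ℝ := τ ^ 2 / 2 + τ ^ 3 / (6 * κ)
/-- its derivative -/
noncomputable def fv' (κ τ : ℝ) : ℝ := τ + τ ^ 2 / (2 * κ)

theorem hasDerivAt_fv {κ : ℝ} (hκ : 1 ≤ κ) (τ : ℝ) : HasDerivAt (fv κ) (fv' κ τ) τ := by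
  have h1 := ((hasDerivAt_pow 2 τ).div_const 2).add ((hasDerivAt_pow 3 τ).div_const (6 * κ))
  refine h1.congr_deriv ?_
  unfold fv'
  have hk : κ ≠ 0 := by linarith
  simp only [Nat.cast_ofNat, Nat.add_one_sub_one, pow_one]
  field_simp
  ring

theorem hasDerivAt_fv' {κ : ℝ} (τ : ℝ) : HasDerivAt (fv' κ) (1 + τ / κ) τ := by
  have h1 := (hasDerivAt_id τ).add ((hasDerivAt_pow 2 τ).div_const (2 * κ))
  refine h1.congr_deriv ?_
  simp only [Nat.cast_ofNat, Nat.add_one_sub_one, pow_one]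
  ring

/-- `lv ≥ 1 + τ/κ` on the left -/
theorem lv_left {κ τ : ℝ} (hκ : 1 ≤ κ) (hτ : τ ≤ 0) : 1 + τ / κ ≤ lv κ τ := by
  have hk : 0 < κ := by linarith
  have h1 := L_neg hκ (by linarith : τ - κ ≤ -κ)
  refine le_trans ?_ h1
  have e : -(τ - κ) = κ - τ := by ring
  rw [e, le_div_iff₀ (by linarith)]
  have e2 : (1 + τ / κ) * (κ - τ) = κ - τ ^ 2 / κ := by field_simp; ring
  rw [e2]
  have : 0 ≤ τ ^ 2 / κ := by positivity
  linarith

/-- **left far windows** (`j ≥ 0` real) -/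
theorem gap_left {κ j s τ0 τs τj : ℝ} (hκ : 1 ≤ κ) (hj : 0 ≤ j) (h1 : τ0 ≤ 0) (h2 : τs ≤ τ0) (h3 : τj ≤ τs)
    (hs : -τ0 ≤ s) (h4 : τ0 - τj = j * s) :
    -((j + 1) * fv κ τ0) + fv κ τs + fv' κ τs * (τj - τs) ≤
      -((j + 1) * ev κ τ0) + ev κ τs + yv κ τs * (τj - τs) := by
  have hp : ∀ τ : ℝ, τ ≤ 0 → τ < κ + π / 2 := fun τ hτ => by linarith [pi_pos]
  have h := gap_aux (d := fun τ => ev κ (-τ) - fv κ (-τ)) (δ := fun τ => -(yv κ (-τ) - fv' κ (-τ)))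
    (k := j + 1) (s := s) (τ1 := -τ0) (τs := -τs) (τk := -τj) (by linarith) (by linarith) (by linarith) (by linarith) hs
    (by linarith) (by simp only [neg_zero]; rw [ev_zero hκ]; unfold fv; simp)
    (by simp only [neg_zero]; rw [yv_zero hκ]; unfold fv'; simp)
    (by
      intro τ hτ
      have h5 := (hasDerivAt_ev hκ (hp (-τ) (by linarith [hτ.1]))).sub (hasDerivAt_fv hκ (-τ))
      have h6 := h5.comp τ (hasDerivAt_neg τ)
      refine h6.congr_deriv ?_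
      ring)
    (by
      have hder : ∀ τ, 0 ≤ τ → HasDerivAt (fun τ => -(yv κ (-τ) - fv' κ (-τ))) (lv κ (-τ) - (1 + -τ / κ)) τ := by
        intro τ hτ
        have h5 := (hasDerivAt_yv hκ (hp (-τ) (by linarith))).sub (hasDerivAt_fv' (κ := κ) (-τ))
        have h6 := (h5.comp τ (hasDerivAt_neg τ)).neg
        refine h6.congr_deriv ?_
        ring
      apply monotoneOn_of_deriv_nonneg (convex_Icc _ _)
      · intro τ hτ
        exact (hder τ hτ.1).continuousAt.continuousWithinAt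
      · intro τ hτ
        rw [interior_Icc] at hτ
        exact (hder τ hτ.1.le).differentiableAt.differentiableWithinAt
      · intro τ hτ
        rw [interior_Icc] at hτ
        rw [(hder τ hτ.1.le).deriv]
        have := lv_left hκ (by linarith [hτ.1] : -τ ≤ 0)
        linarith)
  simp only [neg_neg] at h
  nlinarith

/-- value bound on the right -/
theorem ev_right {κ τ l : ℝ} (hκ : 1 ≤ κ) (h0 : 0 ≤ τ) (hp : τ < κ + π / 2)
    (hl : ∀ σ, 0 ≤ σ → σ ≤ τ → l ≤ lv κ σ) : l * τ ^ 2 / 2 ≤ ev κ τ ∧ l * τ ≤ yv κ τ := by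
  have h5 : ∀ σ, σ < κ + π / 2 → HasDerivAt (fun τ => yv κ τ - l * τ) (lv κ σ - l * 1) σ := fun σ hσ =>
    (hasDerivAt_yv hκ hσ).sub ((hasDerivAt_id σ).const_mul l)
  have hm : MonotoneOn (fun τ => yv κ τ - l * τ) (Icc 0 τ) := by
    apply monotoneOn_of_deriv_nonneg (convex_Icc _ _)
    · intro σ hσ
      exact (h5 σ (lt_of_le_of_lt hσ.2 hp)).continuousAt.continuousWithinAt
    · intro σ hσ
      rw [interior_Icc] at hσ
      exact (h5 σ (hσ.2.trans hp)).differentiableAt.differentiableWithinAt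
    · intro σ hσ
      rw [interior_Icc] at hσ
      rw [(h5 σ (hσ.2.trans hp)).deriv]
      have := hl σ hσ.1.le hσ.2.le
      linarith
  have hy : ∀ σ ∈ Icc 0 τ, l * σ ≤ yv κ σ := by
    intro σ hσ
    have h6 := hm (left_mem_Icc.2 h0) hσ hσ.1
    simp only at h6
    rw [yv_zero hκ] at h6
    linarith
  have h6 : ∀ σ, σ < κ + π / 2 → HasDerivAt (fun τ => ev κ τ - l * τ ^ 2 / 2) (yv κ σ - l * σ) σ := by
    intro σ hσ
    have h7 : HasDerivAt (fun τ : ℝ => l * τ ^ 2 / 2) (l * σ) σ := by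
      have := ((hasDerivAt_pow 2 σ).const_mul l).div_const 2
      refine this.congr_deriv ?_
      simp only [Nat.cast_ofNat, Nat.add_one_sub_one, pow_one]
      ring
    exact (hasDerivAt_ev hκ hσ).sub h7
  have hm2 : MonotoneOn (fun τ => ev κ τ - l * τ ^ 2 / 2) (Icc 0 τ) := by
    apply monotoneOn_of_deriv_nonneg (convex_Icc _ _)
    · intro σ hσ
      exact (h6 σ (lt_of_le_of_lt hσ.2 hp)).continuousAt.continuousWithinAt
    · intro σ hσ
      rw [interior_Icc] at hσ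
      exact (h6 σ (hσ.2.trans hp)).differentiableAt.differentiableWithinAt
    · intro σ hσ
      rw [interior_Icc] at hσ
      rw [(h6 σ (hσ.2.trans hp)).deriv]
      have := hy σ ⟨hσ.1.le, hσ.2.le⟩
      linarith
  have h7 := hm2 (left_mem_Icc.2 h0) (right_mem_Icc.2 h0) h0
  simp only at h7
  rw [ev_zero hκ] at h7
  exact ⟨by linarith, hy τ ⟨h0, le_rfl⟩⟩

/-- value bound on the left -/
theorem ev_left {κ τ : ℝ} (hκ : 1 ≤ κ) (h0 : τ ≤ 0) : fv κ τ ≤ ev κ τ ∧ yv κ τ ≤ fv' κ τ := by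
  have hp : ∀ τ : ℝ, τ ≤ 0 → τ < κ + π / 2 := fun τ hτ => by linarith [pi_pos]
  have h5 : ∀ σ, σ ≤ 0 → HasDerivAt (fun τ => yv κ τ - fv' κ τ) (lv κ σ - (1 + σ / κ)) σ := fun σ hσ =>
    (hasDerivAt_yv hκ (hp σ hσ)).sub (hasDerivAt_fv' σ)
  have hm : MonotoneOn (fun τ => yv κ τ - fv' κ τ) (Icc τ 0) := by
    apply monotoneOn_of_deriv_nonneg (convex_Icc _ _)
    · intro σ hσ
      exact (h5 σ hσ.2).continuousAt.continuousWithinAt
    · intro σ hσ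
      rw [interior_Icc] at hσ
      exact (h5 σ hσ.2.le).differentiableAt.differentiableWithinAt
    · intro σ hσ
      rw [interior_Icc] at hσ
      rw [(h5 σ hσ.2.le).deriv]
      have := lv_left hκ hσ.2.le
      linarith
  have hy : ∀ σ ∈ Icc τ 0, yv κ σ ≤ fv' κ σ := by
    intro σ hσ
    have h6 := hm hσ (right_mem_Icc.2 h0) hσ.2
    simp only at h6
    rw [yv_zero hκ] at h6
    unfold fv' at h6 ⊢
    simp at h6
    linarith
  have h6 : ∀ σ, σ ≤ 0 → HasDerivAt (fun τ => ev κ τ - fv κ τ) (yv κ σ - fv' κ σ) σ := fun σ hσ =>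
    (hasDerivAt_ev hκ (hp σ hσ)).sub (hasDerivAt_fv hκ σ)
  have hm2 : AntitoneOn (fun τ => ev κ τ - fv κ τ) (Icc τ 0) := by
    apply antitoneOn_of_deriv_nonpos (convex_Icc _ _)
    · intro σ hσ
      exact (h6 σ hσ.2).continuousAt.continuousWithinAt
    · intro σ hσ
      rw [interior_Icc] at hσ
      exact (h6 σ hσ.2.le).differentiableAt.differentiableWithinAt
    · intro σ hσ
      rw [interior_Icc] at hσ
      rw [(h6 σ hσ.2.le).deriv]
      have := hy σ ⟨hσ.1.le, hσ.2.le⟩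
      linarith
  have h7 := hm2 (left_mem_Icc.2 h0) (right_mem_Icc.2 h0) h0
  simp only at h7
  rw [ev_zero hκ] at h7
  unfold fv at h7 ⊢
  simp at h7
  exact ⟨by linarith, hy τ ⟨le_rfl, h0⟩⟩

/-- exponent of the far window `k ≥ 2`, in units: `τ0 = -p s`, `τ1 = (1-p) s`, `τk = (k-p) s`, `τs = θ s` -/
theorem Q_right {κ k s p θ l : ℝ} (hκ : 1 ≤ κ) (hk : 1 ≤ k) (hs : 0 ≤ s) (hp0 : 0 ≤ p) (hp1 : p ≤ 1)
    (hθ1 : 1 - p ≤ θ) (hθ2 : θ ≤ k - p) (hpi : θ * s < κ + π / 2) (hl : ∀ τ, 0 ≤ τ → τ ≤ θ * s → l ≤ lv κ τ) :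
    s ^ 2 * (l * (-(k * (1 - p) ^ 2 / 2) + θ ^ 2 / 2 + θ * (k - p - θ)) + (k - 1) * (p ^ 2 / 2 - p ^ 3 * s / (6 * κ))) ≤
      -(k * ev κ ((1 - p) * s)) + (k - 1) * ev κ (-(p * s)) + ev κ (θ * s) + yv κ (θ * s) * ((k - p) * s - θ * s) := by
  have h1 := gap_right (κ := κ) (k := k) (s := s) (τ1 := (1 - p) * s) (τs := θ * s) (τk := (k - p) * s) (l := l) hκ hk
    (mul_nonneg (by linarith) hs) (mul_le_mul_of_nonneg_right hθ1 hs) (mul_le_mul_of_nonneg_right hθ2 hs)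
    (by nlinarith) (by ring) hpi hl
  have h2 := (ev_left hκ (τ := -(p * s)) (by nlinarith)).1
  have h3 := mul_le_mul_of_nonneg_left h2 (by linarith : 0 ≤ k - 1)
  unfold fv at h3
  have hk0 : κ ≠ 0 := by linarith
  have e1 : (k - 1) * ((-(p * s)) ^ 2 / 2 + (-(p * s)) ^ 3 / (6 * κ)) =
      s ^ 2 * ((k - 1) * (p ^ 2 / 2 - p ^ 3 * s / (6 * κ))) := by
    field_simp
    ring
  rw [e1] at h3
  have e2 : l * (-(k * ((1 - p) * s) ^ 2 / 2) + (θ * s) ^ 2 / 2 + θ * s * ((k - p) * s - θ * s)) =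
      s ^ 2 * (l * (-(k * (1 - p) ^ 2 / 2) + θ ^ 2 / 2 + θ * (k - p - θ))) := by ring
  rw [e2] at h1
  linarith

/-- exponent of the far window `-j`, `j ≥ 1`: `τ0 = -p s`, `τ1 = (1-p) s`, `τ_{-j} = -(p+j) s`, `τs = -θ s` -/
theorem Q_left {κ j s p θ l : ℝ} (hκ : 1 ≤ κ) (hj : 0 ≤ j) (hs : 0 ≤ s) (hp0 : 0 ≤ p) (hp1 : p ≤ 1)
    (hθ1 : p ≤ θ) (hθ2 : θ ≤ j + p) (hpi : (1 - p) * s < κ + π / 2)
    (hl : ∀ τ, 0 ≤ τ → τ ≤ (1 - p) * s → l ≤ lv κ τ) :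
    s ^ 2 * (-((j + 1) * (p ^ 2 / 2 - p ^ 3 * s / (6 * κ))) + (θ ^ 2 / 2 - θ ^ 3 * s / (6 * κ)) +
      (θ - θ ^ 2 * s / (2 * κ)) * (j + p - θ) + j * (l * (1 - p) ^ 2 / 2)) ≤
      -((j + 1) * ev κ (-(p * s))) + j * ev κ ((1 - p) * s) + ev κ (-(θ * s)) +
        yv κ (-(θ * s)) * (-((p + j) * s) + θ * s) := by
  have h1 := gap_left (κ := κ) (j := j) (s := s) (τ0 := -(p * s)) (τs := -(θ * s)) (τj := -((p + j) * s)) hκ hj
    (by nlinarith) (by nlinarith) (by nlinarith) (by nlinarith) (by ring)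
  have h2 := (ev_right hκ (τ := (1 - p) * s) (mul_nonneg (by linarith) hs) hpi hl).1
  have h3 := mul_le_mul_of_nonneg_left h2 hj
  unfold fv fv' at h1
  have hk0 : κ ≠ 0 := by linarith
  have e1 : -((j + 1) * ((-(p * s)) ^ 2 / 2 + (-(p * s)) ^ 3 / (6 * κ))) + ((-(θ * s)) ^ 2 / 2 + (-(θ * s)) ^ 3 / (6 * κ)) +
      (-(θ * s) + (-(θ * s)) ^ 2 / (2 * κ)) * (-((p + j) * s) - -(θ * s)) =
      s ^ 2 * (-((j + 1) * (p ^ 2 / 2 - p ^ 3 * s / (6 * κ))) + (θ ^ 2 / 2 - θ ^ 3 * s / (6 * κ)) +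
      (θ - θ ^ 2 * s / (2 * κ)) * (j + p - θ)) := by
    field_simp
    ring
  have e2 : j * (l * ((1 - p) * s) ^ 2 / 2) = s ^ 2 * (j * (l * (1 - p) ^ 2 / 2)) := by ring
  have e3 : -((p + j) * s) - -(θ * s) = -((p + j) * s) + θ * s := by ring
  rw [e1, e3] at h1
  rw [e2] at h3
  linarith

end R2

end Sok
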