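import Pool.Agent.Lib.MP_816dec_an.TwoTerm

/-!
MP_816dec_an (A3, R2): two dominant terms on a circle, version with derivative bounds on the segment
(no discs); everything except `X_0 ≠ 0` is needed only where `a⁻¹ ≤ |X_1/X_0| ≤ a`.
-/

set_option autoImplicit false

open Complex Set Filter Topology Metric

namespace Sok

/-- the annulus condition at `w` -/
def Ann (X : ℤ → ℂ → ℂ) (a : ℝ) (w : ℂ) : Prop := a⁻¹ ≤ ‖X 1 w / X 0 w‖ ∧ ‖X 1 w / X 0 w‖ ≤ a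

/-- hypotheses of the two-term theorem on a vertical segment; the bounds of `B_k = X_k X_0^(k-1) X_1^(-k)`, of its
derivative and of the slope are needed only where `a⁻¹ ≤ |X_1/X_0| ≤ a` -/
structure TwoTermL (X : ℤ → ℂ → ℂ) (s : Finset ℤ) (x u v a m : ℝ) (M NN : ℤ → ℝ) : Prop where
  diff : ∀ k, Differentiable ℂ (X k)
  one_lt : 1 < a
  m_pos : 0 < m
  nz0 : ∀ w ∈ vseg x u v, X 0 w ≠ 0
  bound : ∀ w ∈ vseg x u v, Ann X a w → ∀ k ∈ s,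
    ‖X k w‖ * ‖X 0 w‖ ^ (k - 1) * ‖X 1 w‖ ^ (-k) ≤ M k
  dbound : ∀ w ∈ vseg x u v, Ann X a w → ∀ k ∈ s,
    ‖deriv (X k) w + X k w * ((k - 1) * (deriv (X 0) w / X 0 w) - k * (deriv (X 1) w / X 1 w))‖ *
      ‖X 0 w‖ ^ (k - 1) * ‖X 1 w‖ ^ (-k) ≤ NN k
  slope : ∀ w ∈ vseg x u v, Ann X a w → m ≤ (deriv (X 1) w / X 1 w - deriv (X 0) w / X 0 w).im
  small1 : ∑ k ∈ s, (k.natAbs : ℝ) * M k * a ^ (k.natAbs + 1) < 1
  small2 : a * (∑ k ∈ s, NN k * a ^ k.natAbs) < m * (1 - ∑ k ∈ s, (k.natAbs : ℝ) * M k * a ^ (k.natAbs + 1))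

variable {X : ℤ → ℂ → ℂ} {s : Finset ℤ} {x u v a m : ℝ} {M NN : ℤ → ℝ}

theorem TwoTermL.a_pos (H : TwoTermL X s x u v a m M NN) : 0 < a := by linarith [H.one_lt]

theorem TwoTermL.nz1 (H : TwoTermL X s x u v a m M NN) {w : ℂ} (hA : Ann X a w) : X 1 w ≠ 0 := by
  intro h0
  have h1 := hA.1
  rw [h0, zero_div, norm_zero] at h1
  linarith [inv_pos.2 H.a_pos]

/-- derivative of the squared modulus of the quotient -/
theorem TwoTermL.hasDerivAt_sq (H : TwoTermL X s x u v a m M NN) {θ : ℝ} (hθ : θ ∈ Icc u v) :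
    HasDerivAt (fun θ : ℝ => Complex.normSq (X 1 ((x : ℂ) + (θ : ℂ) * I) / X 0 ((x : ℂ) + (θ : ℂ) * I)))
      (2 * ((starRingEnd ℂ) (X 1 ((x : ℂ) + (θ : ℂ) * I) / X 0 ((x : ℂ) + (θ : ℂ) * I)) *
        ((deriv (X 1) ((x : ℂ) + (θ : ℂ) * I) * X 0 ((x : ℂ) + (θ : ℂ) * I) -
          X 1 ((x : ℂ) + (θ : ℂ) * I) * deriv (X 0) ((x : ℂ) + (θ : ℂ) * I)) /
            X 0 ((x : ℂ) + (θ : ℂ) * I) ^ 2 * I)).re) θ := by
  obtain ⟨w, hw⟩ : ∃ w : ℂ, w = (x : ℂ) + (θ : ℂ) * I := ⟨_, rfl⟩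
  have hws : w ∈ vseg x u v := by
    rw [hw]
    exact ⟨by simp, by simpa using hθ.1, by simpa using hθ.2⟩
  have hn0 := H.nz0 w hws
  have hd1 : HasDerivAt (X 1) (deriv (X 1) w) w := (H.diff 1 w).hasDerivAt
  have hd0 : HasDerivAt (X 0) (deriv (X 0) w) w := (H.diff 0 w).hasDerivAt
  have hq : HasDerivAt (fun w => X 1 w / X 0 w)
      ((deriv (X 1) w * X 0 w - X 1 w * deriv (X 0) w) / X 0 w ^ 2) w := hd1.div hd0 hn0
  have hl : HasDerivAt (fun θ : ℝ => (x : ℂ) + (θ : ℂ) * I) I θ := by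
    have := ((hasDerivAt_id (θ : ℂ)).mul_const I).const_add (x : ℂ)
    simpa using this.comp_ofReal
  have hc : HasDerivAt (fun θ : ℝ => X 1 ((x : ℂ) + (θ : ℂ) * I) / X 0 ((x : ℂ) + (θ : ℂ) * I))
      ((deriv (X 1) w * X 0 w - X 1 w * deriv (X 0) w) / X 0 w ^ 2 * I) θ := by
    have := HasDerivAt.comp (h := fun θ : ℝ => (x : ℂ) + (θ : ℂ) * I) (h₂ := fun w => X 1 w / X 0 w) θ
      (by rw [← hw]; exact hq) hl
    exact this
  obtain ⟨Q, hQ⟩ : ∃ Q : ℝ → ℂ, Q = fun θ : ℝ => X 1 ((x : ℂ) + (θ : ℂ) * I) / X 0 ((x : ℂ) + (θ : ℂ) * I) := ⟨_, rfl⟩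
  have hQw : Q θ = X 1 w / X 0 w := by rw [hQ, hw]
  rw [← hQ] at hc
  have hre : HasDerivAt (fun θ => (Q θ).re) (((deriv (X 1) w * X 0 w - X 1 w * deriv (X 0) w) / X 0 w ^ 2 * I).re) θ :=
    Complex.reCLM.hasFDerivAt.comp_hasDerivAt θ hc
  have him : HasDerivAt (fun θ => (Q θ).im) (((deriv (X 1) w * X 0 w - X 1 w * deriv (X 0) w) / X 0 w ^ 2 * I).im) θ :=
    Complex.imCLM.hasFDerivAt.comp_hasDerivAt θ hc
  have h3 := (hre.mul hre).add (him.mul him)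
  refine (h3.congr_of_eventuallyEq ?_).congr_deriv ?_
  · filter_upwards with t
    rw [Complex.normSq_apply, hQ]; rfl
  · rw [← hw, ← hQw]
    generalize (deriv (X 1) w * X 0 w - X 1 w * deriv (X 0) w) / X 0 w ^ 2 * I = Z
    rw [Complex.mul_re, Complex.conj_re, Complex.conj_im]
    ring

/-- in the annulus the derivative of the squared modulus is `-2 slope * |Q|²` -/
theorem TwoTermL.sq_deriv_eq (H : TwoTermL X s x u v a m M NN) {w : ℂ} (hw : w ∈ vseg x u v) (hA : Ann X a w) :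
    2 * ((starRingEnd ℂ) (X 1 w / X 0 w) *
        ((deriv (X 1) w * X 0 w - X 1 w * deriv (X 0) w) / X 0 w ^ 2 * I)).re =
      -2 * (deriv (X 1) w / X 1 w - deriv (X 0) w / X 0 w).im * Complex.normSq (X 1 w / X 0 w) := by
  have hn0 := H.nz0 w hw
  have hn1 := H.nz1 hA
  obtain ⟨D, hD⟩ : ∃ D : ℂ, D = deriv (X 1) w / X 1 w - deriv (X 0) w / X 0 w := ⟨_, rfl⟩
  have e2 : (deriv (X 1) w * X 0 w - X 1 w * deriv (X 0) w) / X 0 w ^ 2 * I = (X 1 w / X 0 w) * (D * I) := by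
    rw [hD]; field_simp
  rw [e2, ← hD, ← mul_assoc, mul_comm ((starRingEnd ℂ) _) (X 1 w / X 0 w), Complex.mul_conj, Complex.re_ofReal_mul]
  simp only [Complex.mul_re, Complex.I_re, Complex.I_im]
  ring

theorem TwoTermL.between (H : TwoTermL X s x u v a m M NN) {w1 w2 w : ℂ} (h1 : w1 ∈ vseg x u v) (h2 : w2 ∈ vseg x u v)
    (hw : w ∈ vseg x u v) (h1w : w1.im ≤ w.im) (hw2 : w.im ≤ w2.im) (a1 : Ann X a w1) (a2 : Ann X a w2) :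
    Ann X a w := by
  have ha0 := H.a_pos
  have ha1 := H.one_lt
  have hai : a⁻¹ < 1 := inv_lt_one_of_one_lt₀ ha1
  have hai0 : 0 < a⁻¹ := inv_pos.2 ha0
  have ew : ∀ w ∈ vseg x u v, (x : ℂ) + (w.im : ℂ) * I = w := by
    intro w hw
    rw [← hw.1]; exact Complex.re_add_im w
  obtain ⟨f, hf⟩ : ∃ f : ℝ → ℝ, f = fun θ : ℝ =>
      Complex.normSq (X 1 ((x : ℂ) + (θ : ℂ) * I) / X 0 ((x : ℂ) + (θ : ℂ) * I)) := ⟨_, rfl⟩
  obtain ⟨f', hf'⟩ : ∃ f' : ℝ → ℝ, f' = fun θ : ℝ =>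
      2 * ((starRingEnd ℂ) (X 1 ((x : ℂ) + (θ : ℂ) * I) / X 0 ((x : ℂ) + (θ : ℂ) * I)) *
        ((deriv (X 1) ((x : ℂ) + (θ : ℂ) * I) * X 0 ((x : ℂ) + (θ : ℂ) * I) -
          X 1 ((x : ℂ) + (θ : ℂ) * I) * deriv (X 0) ((x : ℂ) + (θ : ℂ) * I)) /
            X 0 ((x : ℂ) + (θ : ℂ) * I) ^ 2 * I)).re := ⟨_, rfl⟩
  have hder : ∀ θ ∈ Icc u v, HasDerivAt f (f' θ) θ := by
    intro θ hθ
    rw [hf, hf']
    exact H.hasDerivAt_sq hθ
  have hval : ∀ w ∈ vseg x u v, f w.im = ‖X 1 w / X 0 w‖ ^ 2 := by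
    intro w hw
    rw [hf]
    simp only
    rw [ew w hw, Complex.normSq_eq_norm_sq]
  have hmem : ∀ θ ∈ Icc u v, ((x : ℂ) + (θ : ℂ) * I) ∈ vseg x u v := by
    intro θ hθ
    refine ⟨by simp, by simpa using hθ.1, by simpa using hθ.2⟩
  have hneg : ∀ θ ∈ Icc u v, (f θ = a ^ 2 ∨ f θ = (a⁻¹) ^ 2) → f' θ < 0 := by
    intro θ hθ hcase
    obtain ⟨z, hz⟩ : ∃ z : ℂ, z = (x : ℂ) + (θ : ℂ) * I := ⟨_, rfl⟩
    have hzs : z ∈ vseg x u v := by rw [hz]; exact hmem θ hθ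
    have hfz : f θ = ‖X 1 z / X 0 z‖ ^ 2 := by
      rw [← hval z hzs]
      congr 1
      rw [hz]; simp
    have hn : 0 ≤ ‖X 1 z / X 0 z‖ := norm_nonneg _
    have hA : Ann X a z := by
      rcases hcase with h | h
      · rw [hfz] at h
        have h5 : ‖X 1 z / X 0 z‖ = a := by nlinarith
        exact ⟨by rw [h5]; linarith, h5.le⟩
      · rw [hfz] at h
        have h5 : ‖X 1 z / X 0 z‖ = a⁻¹ := by nlinarith
        exact ⟨h5.ge, by rw [h5]; linarith⟩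
    have h6 := H.sq_deriv_eq hzs hA
    have h7 := H.slope z hzs hA
    have h8 : f' θ = -2 * (deriv (X 1) z / X 1 z - deriv (X 0) z / X 0 z).im * Complex.normSq (X 1 z / X 0 z) := by
      rw [hf']
      simp only
      rw [← hz]
      exact h6
    rw [h8]
    have h9 : 0 < Complex.normSq (X 1 z / X 0 z) :=
      Complex.normSq_pos.2 (div_ne_zero (H.nz1 hA) (H.nz0 z hzs))
    have h10 := H.m_pos
    nlinarith
  have hIcc : Icc w1.im w2.im ⊆ Icc u v := Icc_subset_Icc h1.2.1 h2.2.2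
  have hcont : ContinuousOn f (Icc u v) := fun θ hθ => (hder θ hθ).continuousAt.continuousWithinAt
  constructor
  · -- lower bound, backwards from `w2`
    obtain ⟨g, hg⟩ : ∃ g : ℝ → ℝ, g = fun τ : ℝ => -f (w2.im - τ) := ⟨_, rfl⟩
    have hgd : ∀ τ : ℝ, w2.im - τ ∈ Icc u v → HasDerivAt g (f' (w2.im - τ)) τ := by
      intro τ hτ
      have h5 : HasDerivAt (fun τ : ℝ => w2.im - τ) (-1) τ := by
        simpa using (hasDerivAt_id τ).const_sub w2.im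
      have h6 := ((hder _ hτ).comp τ h5).neg
      rw [hg]
      refine h6.congr_deriv ?_
      ring
    have key := image_le_of_deriv_right_lt_deriv_boundary (f := g) (f' := fun τ => f' (w2.im - τ)) (a := 0)
      (b := w2.im - w1.im) (B := fun _ => -(a⁻¹) ^ 2) (B' := fun _ => 0) ?_ ?_ ?_ (fun _ => hasDerivAt_const _ _) ?_
      (x := w2.im - w.im) ⟨by linarith, by linarith⟩
    · have h5 : -f w.im ≤ -(a⁻¹) ^ 2 := by
        have := key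
        rw [hg] at this
        simp only [sub_sub_cancel] at this
        exact this
      rw [hval w hw] at h5
      have hn : 0 ≤ ‖X 1 w / X 0 w‖ := norm_nonneg _
      nlinarith
    · intro τ hτ
      exact (hgd τ ⟨by linarith [hτ.2, h1.2.1], by linarith [hτ.1, h2.2.2]⟩).continuousAt.continuousWithinAt
    · intro τ hτ
      exact (hgd τ ⟨by linarith [hτ.2, h1.2.1], by linarith [hτ.1, h2.2.2]⟩).hasDerivWithinAt
    · rw [hg]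
      simp only [sub_zero]
      rw [hval w2 h2]
      have := a2.1
      have h6 : (a⁻¹) ^ 2 ≤ ‖X 1 w2 / X 0 w2‖ ^ 2 := pow_le_pow_left₀ hai0.le this 2
      linarith
    · intro τ hτ hτe
      apply hneg (w2.im - τ) ⟨by linarith [hτ.2, h1.2.1], by linarith [hτ.1, h2.2.2]⟩
      right
      rw [hg] at hτe
      linarith
  · -- upper bound, forwards from `w1`
    have key := image_le_of_deriv_right_lt_deriv_boundary (f := f) (f' := f') (a := w1.im)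
      (b := w2.im) (B := fun _ => a ^ 2) (B' := fun _ => 0) (hcont.mono hIcc)
      (fun τ hτ => (hder τ (hIcc (Ico_subset_Icc_self hτ))).hasDerivWithinAt) ?_ (fun _ => hasDerivAt_const _ _)
      (fun τ hτ hτe => hneg τ (hIcc (Ico_subset_Icc_self hτ)) (Or.inl hτe)) (x := w.im) ⟨h1w, hw2⟩
    · rw [hval w hw] at key
      have hn : 0 ≤ ‖X 1 w / X 0 w‖ := norm_nonneg _
      nlinarith
    · rw [hval w1 h1]
      exact pow_le_pow_left₀ (norm_nonneg _) a1.2 2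

/-- log of the quotient decreases -/
theorem TwoTermL.mono (H : TwoTermL X s x u v a m M NN) {w1 w2 : ℂ} (h1 : w1 ∈ vseg x u v) (h2 : w2 ∈ vseg x u v)
    (h12 : w1.im ≤ w2.im) (a1 : Ann X a w1) (a2 : Ann X a w2) :
    m * (w2.im - w1.im) ≤ Real.log ‖X 1 w1 / X 0 w1‖ - Real.log ‖X 1 w2 / X 0 w2‖ := by
  have hIcc : Icc w1.im w2.im ⊆ Icc u v := Icc_subset_Icc h1.2.1 h2.2.2
  have hmem : ∀ θ ∈ Icc u v, ((x : ℂ) + (θ : ℂ) * I) ∈ vseg x u v := by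
    intro θ hθ
    refine ⟨by simp, by simpa using hθ.1, by simpa using hθ.2⟩
  have hA : ∀ θ ∈ Icc w1.im w2.im, Ann X a ((x : ℂ) + (θ : ℂ) * I) := by
    intro θ hθ
    exact H.between h1 h2 (hmem θ (hIcc hθ)) (by simpa using hθ.1) (by simpa using hθ.2) a1 a2
  have hder : ∀ θ ∈ Icc w1.im w2.im,
      HasDerivAt (fun θ : ℝ => Real.log ‖X 1 ((x : ℂ) + (θ : ℂ) * I) / X 0 ((x : ℂ) + (θ : ℂ) * I)‖)
      (-(deriv (X 1) ((x : ℂ) + (θ : ℂ) * I) / X 1 ((x : ℂ) + (θ : ℂ) * I) -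
        deriv (X 0) ((x : ℂ) + (θ : ℂ) * I) / X 0 ((x : ℂ) + (θ : ℂ) * I)).im) θ := by
    intro θ hθ
    have hws := hmem θ (hIcc hθ)
    have hAθ := hA θ hθ
    have hne : Complex.normSq (X 1 ((x : ℂ) + (θ : ℂ) * I) / X 0 ((x : ℂ) + (θ : ℂ) * I)) ≠ 0 :=
      (Complex.normSq_pos.2 (div_ne_zero (H.nz1 hAθ) (H.nz0 _ hws))).ne'
    have hlog := ((H.hasDerivAt_sq (hIcc hθ)).log hne).const_mul (1 / 2 : ℝ)
    have e1 : (fun θ : ℝ => Real.log ‖X 1 ((x : ℂ) + (θ : ℂ) * I) / X 0 ((x : ℂ) + (θ : ℂ) * I)‖) =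
        fun θ : ℝ => 1 / 2 * Real.log (Complex.normSq (X 1 ((x : ℂ) + (θ : ℂ) * I) / X 0 ((x : ℂ) + (θ : ℂ) * I))) := by
      funext t
      rw [Complex.normSq_eq_norm_sq, Real.log_pow]
      push_cast; ring
    rw [e1]
    refine hlog.congr_deriv ?_
    rw [H.sq_deriv_eq hws hAθ, mul_div_assoc, div_self hne]
    ring
  have key := Convex.mul_sub_le_image_sub_of_le_deriv (D := Icc w1.im w2.im)
    (f := fun θ : ℝ => -Real.log ‖X 1 ((x : ℂ) + (θ : ℂ) * I) / X 0 ((x : ℂ) + (θ : ℂ) * I)‖) (C := m)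
    (convex_Icc _ _) ?_ ?_ ?_ w1.im ⟨le_rfl, h12⟩ w2.im ⟨h12, le_rfl⟩ h12
  · have e1 : (x : ℂ) + (w1.im : ℂ) * I = w1 := by
      rw [← h1.1]; exact Complex.re_add_im w1
    have e2 : (x : ℂ) + (w2.im : ℂ) * I = w2 := by
      rw [← h2.1]; exact Complex.re_add_im w2
    rw [e1, e2] at key
    linarith
  · intro θ hθ
    exact (hder θ hθ).neg.continuousAt.continuousWithinAt
  · intro θ hθ
    rw [interior_Icc] at hθ
    exact (hder θ (Ioo_subset_Icc_self hθ)).neg.differentiableAt.differentiableWithinAt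
  · intro θ hθ
    rw [interior_Icc] at hθ
    have hn : HasDerivAt (fun θ : ℝ => -Real.log ‖X 1 ((x : ℂ) + (θ : ℂ) * I) / X 0 ((x : ℂ) + (θ : ℂ) * I)‖) _ θ :=
      (hder θ (Ioo_subset_Icc_self hθ)).neg
    rw [hn.deriv, neg_neg]
    exact H.slope _ (hmem θ (hIcc (Ioo_subset_Icc_self hθ))) (hA θ (Ioo_subset_Icc_self hθ))

theorem TwoTermL.BB_norm (H : TwoTermL X s x u v a m M NN) {ε : ℤ → ℂ} (hε : ∀ k, ‖ε k‖ = 1) {w : ℂ}
    (hw : w ∈ vseg x u v) (hA : Ann X a w) {k : ℤ} (hk : k ∈ s) : ‖BB X ε w k‖ ≤ M k := by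
  unfold BB
  rw [norm_mul, hε, one_mul, norm_mul, norm_mul, norm_zpow, norm_zpow]
  exact H.bound w hw hA k hk

theorem TwoTermL.BB_hasDerivAt (H : TwoTermL X s x u v a m M NN) (ε : ℤ → ℂ) {w : ℂ} (hw : w ∈ vseg x u v)
    (hA : Ann X a w) (k : ℤ) :
    HasDerivAt (fun w => BB X ε w k) (ε k * ((deriv (X k) w +
      X k w * ((k - 1) * (deriv (X 0) w / X 0 w) - k * (deriv (X 1) w / X 1 w))) *
      X 0 w ^ (k - 1) * X 1 w ^ (-k))) w := by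
  have h0 := H.nz0 w hw
  have h1 := H.nz1 hA
  have hk := (H.diff k w).hasDerivAt
  have hd0 := (H.diff 0 w).hasDerivAt
  have hd1 := (H.diff 1 w).hasDerivAt
  have p0 : HasDerivAt (fun w => X 0 w ^ (k - 1)) (((k - 1 : ℤ) : ℂ) * X 0 w ^ (k - 1 - 1) * deriv (X 0) w) w :=
    (hasDerivAt_zpow (k - 1) (X 0 w) (Or.inl h0)).comp w hd0
  have p1 : HasDerivAt (fun w => X 1 w ^ (-k)) (((-k : ℤ) : ℂ) * X 1 w ^ (-k - 1) * deriv (X 1) w) w :=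
    (hasDerivAt_zpow (-k) (X 1 w) (Or.inl h1)).comp w hd1
  have key := ((hk.mul p0).mul p1).const_mul (ε k)
  unfold BB
  refine key.congr_deriv ?_
  have e0 : X 0 w ^ (k - 1 - 1) = X 0 w ^ (k - 1) / X 0 w := by rw [zpow_sub₀ h0 (k - 1) 1, zpow_one]
  have e1 : X 1 w ^ (-k - 1) = X 1 w ^ (-k) / X 1 w := by rw [zpow_sub₀ h1 (-k) 1, zpow_one]
  have e2 : (X k * fun w => X 0 w ^ (k - 1)) w = X k w * X 0 w ^ (k - 1) := rfl
  rw [e0, e1, e2]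
  push_cast
  field_simp
  ring

theorem TwoTermL.lip (H : TwoTermL X s x u v a m M NN) {ε : ℤ → ℂ} (hε : ∀ k, ‖ε k‖ = 1) {w1 w2 : ℂ}
    (h1 : w1 ∈ vseg x u v) (h2 : w2 ∈ vseg x u v) (h12 : w1.im ≤ w2.im)
    (a1 : Ann X a w1) (a2 : Ann X a w2) {k : ℤ} (hk : k ∈ s) :
    ‖BB X ε w2 k - BB X ε w1 k‖ ≤ NN k * ‖w2 - w1‖ := by
  have hsub : vseg x w1.im w2.im ⊆ vseg x u v := fun w hw => ⟨hw.1, h1.2.1.trans hw.2.1, hw.2.2.trans h2.2.2⟩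
  have hA : ∀ w ∈ vseg x w1.im w2.im, Ann X a w := fun w hw => H.between h1 h2 (hsub hw) hw.2.1 hw.2.2 a1 a2
  apply Convex.norm_image_sub_le_of_norm_hasDerivWithin_le (s := vseg x w1.im w2.im)
    (f := fun w => BB X ε w k) (fun w hw => (H.BB_hasDerivAt ε (hsub hw) (hA w hw) k).hasDerivWithinAt) _
    (convex_vseg x w1.im w2.im) ⟨h1.1, le_rfl, h12⟩ ⟨h2.1, h12, le_rfl⟩
  intro w hw
  rw [norm_mul, hε, one_mul, norm_mul, norm_mul, norm_zpow, norm_zpow]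
  exact H.dbound w (hsub hw) (hA w hw) k hk

theorem ann_of {w d : ℂ} (hd : ‖d‖ = 1) (h : ‖d * (X 1 w / X 0 w)‖ ≤ a) (h' : a⁻¹ ≤ ‖d * (X 1 w / X 0 w)‖) :
    Ann X a w := by
  rw [norm_mul, hd, one_mul] at h h'
  exact ⟨h', h⟩

theorem TwoTermL.core1 (H : TwoTermL X s x u v a m M NN) {ε : ℤ → ℂ} (hε : ∀ k, ‖ε k‖ = 1) {w1 w2 d1 d2 : ℂ}
    (hd1 : ‖d1‖ = 1) (hd2 : ‖d2‖ = 1) (h1 : w1 ∈ vseg x u v) (h2 : w2 ∈ vseg x u v)
    (a1 : ‖d1 * (X 1 w1 / X 0 w1)‖ ≤ a) (a1' : a⁻¹ ≤ ‖d1 * (X 1 w1 / X 0 w1)‖)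
    (a2 : ‖d2 * (X 1 w2 / X 0 w2)‖ ≤ a) (a2' : a⁻¹ ≤ ‖d2 * (X 1 w2 / X 0 w2)‖) :
    ‖d1 * (X 1 w1 / X 0 w1) - d2 * (X 1 w2 / X 0 w2)‖ *
        (1 - ∑ k ∈ s, (k.natAbs : ℝ) * M k * a ^ (k.natAbs + 1)) ≤
      ‖w1 - w2‖ * (∑ k ∈ s, NN k * a ^ k.natAbs) + ‖resid s (BB X ε w1) (d1 * (X 1 w1 / X 0 w1))‖ +
        ‖resid s (BB X ε w2) (d2 * (X 1 w2 / X 0 w2))‖ := by
  have b1 := ann_of hd1 a1 a1'
  have b2 := ann_of hd2 a2 a2'
  apply two_point H.one_lt.le a1 a1' a2 a2'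
  · intro k hk
    exact H.BB_norm hε h1 b1 hk
  · intro k hk
    rcases le_total w1.im w2.im with h | h
    · have := H.lip hε h1 h2 h b1 b2 hk
      rwa [norm_sub_rev, norm_sub_rev w2 w1] at this
    · exact H.lip hε h2 h1 h b2 b1 hk

theorem TwoTermL.core2 (H : TwoTermL X s x u v a m M NN) {w1 w2 d1 d2 : ℂ} (hd1 : ‖d1‖ = 1) (hd2 : ‖d2‖ = 1)
    (h1 : w1 ∈ vseg x u v) (h2 : w2 ∈ vseg x u v)
    (a1 : ‖d1 * (X 1 w1 / X 0 w1)‖ ≤ a) (a1' : a⁻¹ ≤ ‖d1 * (X 1 w1 / X 0 w1)‖)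
    (a2 : ‖d2 * (X 1 w2 / X 0 w2)‖ ≤ a) (a2' : a⁻¹ ≤ ‖d2 * (X 1 w2 / X 0 w2)‖) :
    m * ‖w1 - w2‖ ≤ a * ‖d1 * (X 1 w1 / X 0 w1) - d2 * (X 1 w2 / X 0 w2)‖ := by
  have ha0 := H.a_pos
  have b1 := ann_of hd1 a1 a1'
  have b2 := ann_of hd2 a2 a2'
  refine le_trans ?_ (log_norm_lip ha0 a1' a2')
  rw [norm_mul, norm_mul, hd1, hd2, one_mul, one_mul, vseg_norm_sub h1 h2]
  rcases le_total w1.im w2.im with h | h
  · have := H.mono h1 h2 h b1 b2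
    rw [abs_sub_comm, abs_of_nonneg (by linarith : 0 ≤ w2.im - w1.im)]
    exact this.trans (le_abs_self _)
  · have := H.mono h2 h1 h b2 b1
    rw [abs_sub_comm (Real.log _), abs_of_nonneg (by linarith : 0 ≤ w1.im - w2.im)]
    exact this.trans (le_abs_self _)

/-- the main inequality: the residual grows linearly -/
theorem TwoTermL.core (H : TwoTermL X s x u v a m M NN) : ∃ c₀ : ℝ, 0 < c₀ ∧ ∀ {ε : ℤ → ℂ}, (∀ k, ‖ε k‖ = 1) →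
    ∀ {w1 w2 d1 d2 : ℂ}, ‖d1‖ = 1 → ‖d2‖ = 1 → w1 ∈ vseg x u v → w2 ∈ vseg x u v →
    ‖d1 * (X 1 w1 / X 0 w1)‖ ≤ a → a⁻¹ ≤ ‖d1 * (X 1 w1 / X 0 w1)‖ →
    ‖d2 * (X 1 w2 / X 0 w2)‖ ≤ a → a⁻¹ ≤ ‖d2 * (X 1 w2 / X 0 w2)‖ →
    c₀ * ‖w1 - w2‖ ≤ ‖resid s (BB X ε w1) (d1 * (X 1 w1 / X 0 w1))‖ +
      ‖resid s (BB X ε w2) (d2 * (X 1 w2 / X 0 w2))‖ := by
  obtain ⟨lam, hlam⟩ : ∃ lam : ℝ, lam = ∑ k ∈ s, (k.natAbs : ℝ) * M k * a ^ (k.natAbs + 1) := ⟨_, rfl⟩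
  obtain ⟨mu, hmu⟩ : ∃ mu : ℝ, mu = ∑ k ∈ s, NN k * a ^ k.natAbs := ⟨_, rfl⟩
  have ha0 := H.a_pos
  have hs1 := H.small1
  have hs2 := H.small2
  rw [← hlam] at hs1
  rw [← hlam, ← hmu] at hs2
  refine ⟨(m * (1 - lam) - a * mu) / a, div_pos (by linarith) ha0, ?_⟩
  intro ε hε w1 w2 d1 d2 hd1 hd2 h1 h2 a1 a1' a2 a2'
  have k1 := H.core1 hε hd1 hd2 h1 h2 a1 a1' a2 a2'
  have k2 := H.core2 hd1 hd2 h1 h2 a1 a1' a2 a2'
  rw [← hlam, ← hmu] at k1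
  rw [div_mul_eq_mul_div, div_le_iff₀ ha0]
  have k3 := mul_le_mul_of_nonneg_right k2 (show 0 ≤ 1 - lam by linarith)
  have k4 := mul_le_mul_of_nonneg_left k1 ha0.le
  nlinarith

end Sok
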