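import Pool.Agent.Lib.MP_816dec_an.Valley
import Pool.Agent.Lib.MP_816dec_an.TwoTermL

/-!
MP_816dec_an (A3, R2): simplicity and uniqueness on a circle from two-term dominance, without discs.
-/

set_option autoImplicit false

open Complex Set Filter Topology Metric

namespace Sok

/-- MAIN: two-term dominance implies simplicity and distinct moduli on the circle `|z| = e^x`.
`hin`: on the segment `[u, v]` (inside the window) the others are small against the larger one;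
`hout`: on the rest of the window one of the two terms dominates everything else. -/
theorem valley_uniqueL {p p' : ℤ} {b : ℕ} (hb : 0 < b) (hp : (b : ℤ) ∣ p * p' - 1) {q c : ℂ} (hq : ‖q‖ ≤ 1)
    (hc : c ≠ 0) {X : ℤ → ℂ → ℂ} {s : Finset ℤ}
    (hF : ∀ w j, F q (pt p b w j) = c * tot p p' b X s w j)
    {x θ0 u v a m η : ℝ} {M NN : ℤ → ℝ} (huv : u < v) (H : TwoTermL X s x u v a m M NN)
    (hη : 1 < a * (1 - η))
    (hin : ∀ w ∈ vseg x u v, ∑ k ∈ s, ‖X k w‖ ≤ η * max ‖X 0 w‖ ‖X 1 w‖)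
    (hout : ∀ w ∈ vseg x θ0 (θ0 + 2 * Real.pi / b), w ∉ vseg x u v →
      ∑ k ∈ s, ‖X k w‖ < |‖X 1 w‖ - ‖X 0 w‖|) :
    (∀ z, ‖z‖ = Real.exp x → F q z = 0 → deriv (F q) z ≠ 0) ∧
    (∀ z z', ‖z‖ = Real.exp x → ‖z'‖ = Real.exp x → F q z = 0 → F q z' = 0 → z = z') := by
  have ha0 : 0 < a := by linarith [H.one_lt]
  -- a zero gives a point of the inner segment with the ratio strictly inside the annulus
  have hzero : ∀ w ∈ vseg x θ0 (θ0 + 2 * Real.pi / b), ∀ j, tot p p' b X s w j = 0 →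
      w ∈ vseg x u v ∧ X 0 w ≠ 0 ∧ X 1 w ≠ 0 ∧ ‖X 1 w / X 0 w‖ < a ∧ a⁻¹ < ‖X 1 w / X 0 w‖ := by
    intro w hw j hj
    have hg : ∀ k, ‖gam p p' b k‖ = 1 := norm_gam p p' b
    have h3' : ‖∑ k ∈ s, gam p p' b (j + k) * X k w‖ ≤ ∑ k ∈ s, ‖X k w‖ := by
      refine le_trans (norm_sum_le _ _) (le_of_eq ?_)
      apply Finset.sum_congr rfl
      intro k _
      rw [norm_mul, hg, one_mul]
    have h4' : ‖X 0 w‖ ≤ ‖X 1 w‖ + ∑ k ∈ s, ‖X k w‖ := by
      have e : gam p p' b j * X 0 w = -(gam p p' b (j + 1) * X 1 w + ∑ k ∈ s, gam p p' b (j + k) * X k w) := by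
        unfold tot at hj
        linear_combination hj
      have := congrArg norm e
      rw [norm_mul, hg, one_mul, norm_neg] at this
      have h4a := norm_add_le (gam p p' b (j + 1) * X 1 w) (∑ k ∈ s, gam p p' b (j + k) * X k w)
      rw [norm_mul, hg, one_mul] at h4a
      linarith
    have h5' : ‖X 1 w‖ ≤ ‖X 0 w‖ + ∑ k ∈ s, ‖X k w‖ := by
      have e : gam p p' b (j + 1) * X 1 w = -(gam p p' b j * X 0 w + ∑ k ∈ s, gam p p' b (j + k) * X k w) := by
        unfold tot at hj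
        linear_combination hj
      have := congrArg norm e
      rw [norm_mul, hg, one_mul, norm_neg] at this
      have h4a := norm_add_le (gam p p' b j * X 0 w) (∑ k ∈ s, gam p p' b (j + k) * X k w)
      rw [norm_mul, hg, one_mul] at h4a
      linarith
    have hwin : w ∈ vseg x u v := by
      by_contra hcon
      have h6 := hout w hw hcon
      have h7 : |‖X 1 w‖ - ‖X 0 w‖| ≤ ∑ k ∈ s, ‖X k w‖ := by
        rw [abs_le]
        constructor <;> linarith
      linarith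
    have hsum := hin w hwin
    have h4 : ‖X 0 w‖ ≤ ‖X 1 w‖ + η * max ‖X 0 w‖ ‖X 1 w‖ := by linarith
    have h5 : ‖X 1 w‖ ≤ ‖X 0 w‖ + η * max ‖X 0 w‖ ‖X 1 w‖ := by linarith
    have hmax : 0 < max ‖X 0 w‖ ‖X 1 w‖ :=
      lt_of_lt_of_le (norm_pos_iff.2 (H.nz0 w hwin)) (le_max_left _ _)
    -- (1 - η) max ≤ min
    have h6 : (1 - η) * max ‖X 0 w‖ ‖X 1 w‖ ≤ ‖X 0 w‖ ∧ (1 - η) * max ‖X 0 w‖ ‖X 1 w‖ ≤ ‖X 1 w‖ := by
      rcases le_total ‖X 0 w‖ ‖X 1 w‖ with h | h
      · rw [max_eq_right h] at h5 h4 ⊢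
        constructor
        · linarith
        · nlinarith [norm_nonneg (X 1 w), norm_nonneg (X 0 w)]
      · rw [max_eq_left h] at h5 h4 ⊢
        constructor
        · nlinarith [norm_nonneg (X 1 w), norm_nonneg (X 0 w)]
        · linarith
    have h1η : 0 < 1 - η := by
      by_contra hcon
      push Not at hcon
      nlinarith
    have hX0 : 0 < ‖X 0 w‖ := lt_of_lt_of_le (mul_pos h1η hmax) h6.1
    have hX1 : 0 < ‖X 1 w‖ := lt_of_lt_of_le (mul_pos h1η hmax) h6.2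
    have hlt1 : ‖X 1 w / X 0 w‖ < a := by
      rw [norm_div, div_lt_iff₀ hX0]
      have := le_max_right ‖X 0 w‖ ‖X 1 w‖
      have h7 : a * ((1 - η) * max ‖X 0 w‖ ‖X 1 w‖) ≤ a * ‖X 0 w‖ := by gcongr; exact h6.1
      nlinarith
    have hlt2 : a⁻¹ < ‖X 1 w / X 0 w‖ := by
      rw [norm_div, lt_div_iff₀ hX0, inv_mul_lt_iff₀ ha0]
      have := le_max_left ‖X 0 w‖ ‖X 1 w‖
      have h7 : a * ((1 - η) * max ‖X 0 w‖ ‖X 1 w‖) ≤ a * ‖X 1 w‖ := by gcongr; exact h6.2
      nlinarith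
    exact ⟨hwin, norm_pos_iff.1 hX0, norm_pos_iff.1 hX1, hlt1, hlt2⟩
  obtain ⟨c₀, hc₀, hcore⟩ := H.core
  have hd : ∀ j, ‖gam p p' b (j + 1) / gam p p' b j‖ = 1 := by
    intro j; rw [norm_div, norm_gam, norm_gam, div_one]
  have hnd : ∀ j w, ‖gam p p' b (j + 1) / gam p p' b j * (X 1 w / X 0 w)‖ = ‖X 1 w / X 0 w‖ := by
    intro j w; rw [norm_mul, hd, one_mul]
  constructor
  · intro z hz hz0 hder
    obtain ⟨j, w, hw, rfl⟩ := exists_pt p hb x θ0 hz
    have htot : tot p p' b X s w j = 0 := by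
      rw [hF] at hz0
      exact (mul_eq_zero.1 hz0).resolve_left hc
    obtain ⟨hwin, hX0, hX1, hlt1, hlt2⟩ := hzero w hw j htot
    have hR : resid s (BB X (epsk p p' b) w) (gam p p' b (j + 1) / gam p p' b j * (X 1 w / X 0 w)) = 0 := by
      rw [tot_eq j hX0 hX1] at htot
      exact (mul_eq_zero.1 htot).resolve_left (mul_ne_zero (gam_ne_zero _ _ _ _) hX0)
    -- derivative zero
    have hfd : HasDerivAt (fun w => F q (pt p b w j)) 0 w := by
      have h1 := (hasDerivAt_F hq (pt p b w j)).comp w (hasDerivAt_pt p b j w)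
      rw [deriv_F hq] at hder
      rw [hder, zero_mul] at h1
      exact h1
    have hlo := hfd.isLittleO
    obtain ⟨K, hK⟩ : ∃ K : ℝ, K = ‖c‖ * (‖X 0 w‖ / 2) * c₀ := ⟨_, rfl⟩
    have hK0 : 0 < K := by rw [hK]; have := norm_pos_iff.2 hc; have := norm_pos_iff.2 hX0; positivity
    have e1 : ∀ᶠ w' in 𝓝 w, ‖F q (pt p b w' j)‖ ≤ K / 2 * ‖w' - w‖ := by
      have := hlo.def (half_pos hK0)
      filter_upwards [this] with w' hw'
      rw [hz0, smul_zero, sub_zero, sub_zero] at hw'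
      exact hw'
    have e2 : ∀ᶠ w' in 𝓝 w, ‖X 0 w‖ / 2 < ‖X 0 w'‖ := by
      have : ContinuousAt (fun w' => ‖X 0 w'‖) w := (H.diff 0 w).continuousAt.norm
      exact this.eventually (lt_mem_nhds (by have := norm_pos_iff.2 hX0; show ‖X 0 w‖ / 2 < ‖X 0 w‖; linarith))
    have e3 : ContinuousAt (fun w' => ‖X 1 w' / X 0 w'‖) w :=
      ((H.diff 1 w).continuousAt.div (H.diff 0 w).continuousAt hX0).norm
    have e4 : ∀ᶠ w' in 𝓝 w, ‖X 1 w' / X 0 w'‖ < a := e3.eventually (gt_mem_nhds hlt1)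
    have e5 : ∀ᶠ w' in 𝓝 w, a⁻¹ < ‖X 1 w' / X 0 w'‖ := e3.eventually (lt_mem_nhds hlt2)
    obtain ⟨δ, hδ, hball⟩ := Metric.eventually_nhds_iff.1 (e1.and (e2.and (e4.and e5)))
    -- choose a neighbour
    obtain ⟨t, ht0, htδ, htmem⟩ : ∃ t : ℝ, t ≠ 0 ∧ |t| < δ ∧ u ≤ w.im + t ∧ w.im + t ≤ v := by
      obtain ⟨τ, hτ⟩ : ∃ τ : ℝ, τ = min (δ / 2) ((v - u) / 2) := ⟨_, rfl⟩
      have hτ0 : 0 < τ := by rw [hτ]; exact lt_min (by linarith) (by linarith)
      have hτ1 : τ ≤ δ / 2 := by rw [hτ]; exact min_le_left _ _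
      have hτ2 : τ ≤ (v - u) / 2 := by rw [hτ]; exact min_le_right _ _
      rcases le_total (w.im) ((u + v) / 2) with h | h
      · exact ⟨τ, hτ0.ne', by rw [abs_of_pos hτ0]; linarith, by linarith [hwin.2.1], by linarith⟩
      · exact ⟨-τ, neg_ne_zero.2 hτ0.ne',
          by rw [abs_neg, abs_of_pos hτ0]; linarith, by linarith, by linarith [hwin.2.2]⟩
    obtain ⟨w', hw'⟩ : ∃ w' : ℂ, w' = w + (t : ℂ) * I := ⟨_, rfl⟩
    have hw'im : w'.im = w.im + t := by rw [hw']; simp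
    have hw'mem : w' ∈ vseg x u v := by
      refine ⟨?_, ?_, ?_⟩
      · rw [hw']; simp [hwin.1]
      · rw [hw'im]; exact htmem.1
      · rw [hw'im]; exact htmem.2
    have hnorm : ‖w' - w‖ = |t| := by
      rw [hw']; simp
    have hdist : dist w' w < δ := by rw [dist_eq_norm, hnorm]; exact htδ
    obtain ⟨f1, f2, f4, f5⟩ := hball hdist
    have hX0' : X 0 w' ≠ 0 := by
      intro h0
      rw [h0, norm_zero] at f2
      linarith [norm_nonneg (X 0 w)]
    have hX1' : X 1 w' ≠ 0 := by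
      intro h0
      rw [h0, zero_div, norm_zero] at f5
      linarith [inv_pos.2 ha0]
    have k1 := hcore (norm_epsk p p' b) (hd j) (hd j) hwin hw'mem (by rw [hnd]; exact hlt1.le)
      (by rw [hnd]; exact hlt2.le) (by rw [hnd]; exact f4.le) (by rw [hnd]; exact f5.le)
    rw [hR, norm_zero, zero_add, norm_sub_rev] at k1
    have k2 : ‖F q (pt p b w' j)‖ = ‖c‖ * (‖X 0 w'‖ * ‖resid s (BB X (epsk p p' b) w')
        (gam p p' b (j + 1) / gam p p' b j * (X 1 w' / X 0 w'))‖) := by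
      rw [hF, tot_eq j hX0' hX1', norm_mul, norm_mul, norm_mul, norm_gam, one_mul]
    have k3 : K * ‖w' - w‖ ≤ ‖F q (pt p b w' j)‖ := by
      rw [k2, hK]
      calc ‖c‖ * (‖X 0 w‖ / 2) * c₀ * ‖w' - w‖ = ‖c‖ * ((‖X 0 w‖ / 2) * (c₀ * ‖w' - w‖)) := by ring
        _ ≤ _ := by gcongr
    have k4 : 0 < ‖w' - w‖ := by rw [hnorm]; exact abs_pos.2 ht0
    nlinarith
  · intro z z' hz hz' hz0 hz0'
    obtain ⟨j, w, hw, rfl⟩ := exists_pt p hb x θ0 hz
    obtain ⟨j', w', hw', rfl⟩ := exists_pt p hb x θ0 hz'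
    have htot : tot p p' b X s w j = 0 := by
      rw [hF] at hz0
      exact (mul_eq_zero.1 hz0).resolve_left hc
    have htot' : tot p p' b X s w' j' = 0 := by
      rw [hF] at hz0'
      exact (mul_eq_zero.1 hz0').resolve_left hc
    obtain ⟨hwin, hX0, hX1, hlt1, hlt2⟩ := hzero w hw j htot
    obtain ⟨hwin', hX0', hX1', hlt1', hlt2'⟩ := hzero w' hw' j' htot'
    have hR : resid s (BB X (epsk p p' b) w) (gam p p' b (j + 1) / gam p p' b j * (X 1 w / X 0 w)) = 0 := by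
      rw [tot_eq j hX0 hX1] at htot
      exact (mul_eq_zero.1 htot).resolve_left (mul_ne_zero (gam_ne_zero _ _ _ _) hX0)
    have hR' : resid s (BB X (epsk p p' b) w') (gam p p' b (j' + 1) / gam p p' b j' * (X 1 w' / X 0 w')) = 0 := by
      rw [tot_eq j' hX0' hX1'] at htot'
      exact (mul_eq_zero.1 htot').resolve_left (mul_ne_zero (gam_ne_zero _ _ _ _) hX0')
    have k1 := hcore (norm_epsk p p' b) (hd j) (hd j') hwin hwin' (by rw [hnd]; exact hlt1.le)
      (by rw [hnd]; exact hlt2.le) (by rw [hnd]; exact hlt1'.le) (by rw [hnd]; exact hlt2'.le)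
    rw [hR, hR', norm_zero, add_zero] at k1
    have hww : w = w' := by
      have h1 : ‖w - w'‖ ≤ 0 := by
        by_contra hcon
        push Not at hcon
        nlinarith [mul_pos hc₀ hcon]
      exact sub_eq_zero.1 (norm_le_zero_iff.1 h1)
    subst hww
    -- equality of the ratios
    have k2 := H.core1 (norm_epsk p p' b) (hd j) (hd j') hwin hwin
      (by rw [hnd]; exact hlt1.le)
      (by rw [hnd]; exact hlt2.le) (by rw [hnd]; exact hlt1'.le) (by rw [hnd]; exact hlt2'.le)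
    rw [hR, hR', norm_zero, add_zero, add_zero, sub_self, norm_zero, zero_mul] at k2
    have hs1 := H.small1
    have k3 : ‖gam p p' b (j + 1) / gam p p' b j * (X 1 w / X 0 w) -
        gam p p' b (j' + 1) / gam p p' b j' * (X 1 w / X 0 w)‖ ≤ 0 := by
      by_contra hcon
      push Not at hcon
      nlinarith [mul_pos hcon (show 0 < 1 - ∑ k ∈ s, (k.natAbs : ℝ) * M k * a ^ (k.natAbs + 1) by linarith)]
    have k4 := sub_eq_zero.1 (norm_le_zero_iff.1 k3)
    have k5 := mul_right_cancel₀ (div_ne_zero hX1 hX0) k4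
    exact pt_eq hb w (gam_ratio_inj hb hp k5)

end Sok
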