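import Pool.Agent.Lib.MP_816dec_an.A0Win
import Pool.Agent.Lib.MP_816dec_an.A0MomB
import Pool.Agent.Lib.MP_816dec_an.ValleyL
import Pool.Agent.Lib.MP_816dec_an.R2Gap
import Pool.Agent.Lib.MP_816dec_an.Cover

/-!
MP_816dec_an (row R2): definitions and interface of the class theorem.
Everything is at ONE point `(b, β, r)`; `κ = β r`; the coordinate on the circle is `z ∈ [-1, 0]`:
`t_k = -κ + (k + z) h`, `h = 2π/b`; window `0` is on the left, window `1` on the right.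
-/

set_option autoImplicit false

open Complex Set Filter Topology

namespace Sok.R2

/-- spacing of the windows -/
noncomputable def hh (b : ℕ) : ℝ := 2 * Real.pi / b

/-- the parameter `T` -/
noncomputable def TT (b : ℕ) (β r : ℝ) : ℝ := r * hh b ^ 2 / (1 + (β * r) ^ 2)

/-- the normalisation `e^r / (1+κ²)^{1/4}` -/
noncomputable def GN (β r : ℝ) : ℝ := Real.exp r / Real.sqrt (Real.sqrt (1 + (β * r) ^ 2))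

/-- the angle of window `k` -/
noncomputable def tk (b : ℕ) (β r : ℝ) (k : ℤ) (z : ℝ) : ℝ := -(β * r) + (k + z) * hh b

/-- the point of the circle -/
noncomputable def wz (b : ℕ) (β r z : ℝ) : ℂ :=
  ((Real.log r : ℝ) : ℂ) + ((-(β * r) + z * hh b + β / 2 : ℝ) : ℂ) * I

/-- the normalised exponent: `T * en` is the loss of the exponent; `z ≤ 0` left, `z ≥ 0` right -/
noncomputable def en (b : ℕ) (κ z : ℝ) : ℝ := ev κ (z * hh b) / hh b ^ 2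

/-- the normalised slope -/
noncomputable def sn (b : ℕ) (κ z : ℝ) : ℝ := yv κ (z * hh b) / hh b

/-- the windows -/
noncomputable def Xw (b : ℕ) (β : ℝ) (aw : ℤ) (n : ℕ) : ℤ → ℂ → ℂ := XW β b aw (aw + n * b)

/-- the index set of the far windows -/
noncomputable def sw (b : ℕ) (aw : ℤ) (n : ℕ) : Finset ℤ := ((Finset.Ico aw (aw + n * b + b)).erase 0).erase 1

/-- the saddle at the angle `t` -/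
noncomputable def sig (κ t : ℝ) : ℂ := (sx κ t : ℂ) + (sy κ t : ℂ) * I

/-- the numbers of a class -/
structure Num where
  (a T0 z2 qL qR z4 : ℝ)
  (u0 l1 c0 c1 : ℝ)
  (S C K2 K3 τ τ6 : ℝ)
  (Sm Cm Km Km2 τm : ℝ)
  (Sr Cr Kr : ℝ)
  (δ0 δ1 μ : ℝ)
  (P2 P3 P4 Pm Pm2 Pm3 : ℝ)
  (f02 f0L f1R e12 e1L e1R e0L e0R e04 : ℝ)

/-- weights of the far windows -/
noncomputable def Num.W2 (N : Num) (T z : ℝ) : ℝ :=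
  Real.exp (-(T * (N.S * (2 + z) - N.C))) + (if z ≤ N.qR then N.τ else N.τ6) * Real.exp (-(T / 2))
noncomputable def Num.W3 (N : Num) (T z : ℝ) : ℝ :=
  Real.exp (-(T * (N.S * (3 + z) - N.C))) + (if z ≤ N.qR then N.τ else N.τ6) * Real.exp (-(T / 2))
noncomputable def Num.Wm (N : Num) (T z : ℝ) : ℝ :=
  Real.exp (-(T * (N.Sm * (1 - z) - N.Cm))) + N.τm * Real.exp (-(T / 2))
noncomputable def Num.Wm2 (N : Num) (T z : ℝ) : ℝ :=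
  Real.exp (-(T * (N.Sm * (2 - z) - N.Cm))) + N.τm * Real.exp (-(T / 2))

/-- the analytic hypotheses at the point `(b, β, r)`, windows `aw, n` -/
structure Hyp (b : ℕ) (β r : ℝ) (aw : ℤ) (n : ℕ) (N : Num) : Prop where
  hκ : 1 ≤ β * r
  dom : (N.z4 + 1) * hh b < β * r + Real.pi / 2
  hT : N.T0 ≤ TT b β r
  -- geometry: numbers at the grid points (L: lower `f`, upper `e`)
  f02 : N.f02 ≤ en b (β * r) N.z2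
  f0L : N.f0L ≤ en b (β * r) N.qL
  e0L : en b (β * r) N.qL ≤ N.e0L
  e0R : en b (β * r) N.qR ≤ N.e0R
  e04 : en b (β * r) N.z4 ≤ N.e04
  e12 : en b (β * r) (N.z2 + 1) ≤ N.e12
  e1L : en b (β * r) (N.qL + 1) ≤ N.e1L
  e1R : en b (β * r) (N.qR + 1) ≤ N.e1R
  f1R : N.f1R ≤ en b (β * r) (N.qR + 1)
  mu : ∀ z ∈ Icc N.qL N.qR, N.μ ≤ sn b (β * r) (z + 1) - sn b (β * r) z
  -- the two main windows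
  h0hi : ∀ z ∈ Icc (-1 : ℝ) N.qL,
    ‖Xw b β aw n 0 (wz b β r z)‖ ≤ N.u0 * Real.exp (-(TT b β r * en b (β * r) z)) * GN β r
  h0lo : ∀ z ∈ Icc N.qL (0 : ℝ),
    N.c0 * Real.exp (-(TT b β r * en b (β * r) z)) * GN β r ≤ ‖Xw b β aw n 0 (wz b β r z)‖
  h1lo : ∀ z ∈ Icc (-1 : ℝ) N.qR,
    N.l1 * Real.exp (-(TT b β r * en b (β * r) (z + 1))) * GN β r ≤ ‖Xw b β aw n 1 (wz b β r z)‖
  h1hi : ∀ z ∈ Icc N.qR N.z4,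
    ‖Xw b β aw n 1 (wz b β r z)‖ ≤ N.c1 * Real.exp (-(TT b β r * en b (β * r) (z + 1))) * GN β r
  h1far : ∀ z ∈ Icc N.z4 (0 : ℝ),
    ‖Xw b β aw n 1 (wz b β r z)‖ ≤ N.Kr * Real.exp (-(TT b β r * (N.Sr * (1 + z) - N.Cr))) * GN β r
  s0 : ∀ z ∈ Icc N.qL N.qR, hh b / TT b β r *
    ‖deriv (Xw b β aw n 0) (wz b β r z) / Xw b β aw n 0 (wz b β r z) - sig (β * r) (tk b β r 0 z) / β‖ ≤ N.δ0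
  s1 : ∀ z ∈ Icc N.qL N.qR, hh b / TT b β r *
    ‖deriv (Xw b β aw n 1) (wz b β r z) / Xw b β aw n 1 (wz b β r z) - sig (β * r) (tk b β r 1 z) / β‖ ≤ N.δ1
  -- the far windows on the right
  h2 : (2 : ℤ) ∈ sw b aw n → ∀ z ∈ Icc (-1 : ℝ) 0,
    ‖Xw b β aw n 2 (wz b β r z)‖ ≤ N.K2 * N.W2 (TT b β r) z * GN β r
  h3 : ∀ i : ℕ, (3 + i : ℤ) ∈ sw b aw n → ∀ z ∈ Icc (-1 : ℝ) 0,
    ‖Xw b β aw n (3 + i) (wz b β r z)‖ ≤ (1 / 5) ^ i * N.K3 * N.W3 (TT b β r) z * GN β r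
  m2 : (2 : ℤ) ∈ sw b aw n → ∀ z ∈ Icc N.qL N.qR, hh b / TT b β r *
    ‖deriv (Xw b β aw n 2) (wz b β r z) -
      (2 * sig (β * r) (tk b β r 1 z) - sig (β * r) (tk b β r 0 z)) / β * Xw b β aw n 2 (wz b β r z)‖ ≤
      N.P2 * N.W2 (TT b β r) z * GN β r
  m3 : ∀ i : ℕ, (3 + i : ℤ) ∈ sw b aw n → ∀ z ∈ Icc N.qL N.qR, hh b / TT b β r *
    ‖deriv (Xw b β aw n (3 + i)) (wz b β r z) -
      ((3 + i) * sig (β * r) (tk b β r 1 z) - (2 + i) * sig (β * r) (tk b β r 0 z)) / β *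
        Xw b β aw n (3 + i) (wz b β r z)‖ ≤
      (1 / 5) ^ i * (N.P3 + i * N.P4) * N.W3 (TT b β r) z * GN β r
  -- the far windows on the left
  hm : (-1 : ℤ) ∈ sw b aw n → ∀ z ∈ Icc (-1 : ℝ) 0,
    ‖Xw b β aw n (-1) (wz b β r z)‖ ≤ N.Km * N.Wm (TT b β r) z * GN β r
  hm2 : ∀ i : ℕ, (-2 - i : ℤ) ∈ sw b aw n → ∀ z ∈ Icc (-1 : ℝ) 0,
    ‖Xw b β aw n (-2 - i) (wz b β r z)‖ ≤ (1 / 5) ^ i * N.Km2 * N.Wm2 (TT b β r) z * GN β r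
  mm : (-1 : ℤ) ∈ sw b aw n → ∀ z ∈ Icc N.qL N.qR, hh b / TT b β r *
    ‖deriv (Xw b β aw n (-1)) (wz b β r z) -
      (2 * sig (β * r) (tk b β r 0 z) - sig (β * r) (tk b β r 1 z)) / β * Xw b β aw n (-1) (wz b β r z)‖ ≤
      N.Pm * N.Wm (TT b β r) z * GN β r
  mm2 : ∀ i : ℕ, (-2 - i : ℤ) ∈ sw b aw n → ∀ z ∈ Icc N.qL N.qR, hh b / TT b β r *
    ‖deriv (Xw b β aw n (-2 - i)) (wz b β r z) -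
      ((3 + i) * sig (β * r) (tk b β r 0 z) - (2 + i) * sig (β * r) (tk b β r 1 z)) / β *
        Xw b β aw n (-2 - i) (wz b β r z)‖ ≤
      (1 / 5) ^ i * (N.Pm2 + i * N.Pm3) * N.Wm2 (TT b β r) z * GN β r

/-- upper bound `X` of `exp (-(T0 g))` with `g ≥ 0` -/
def EB (T0 g X : ℝ) : Prop := 0 ≤ g ∧ Real.exp (-(T0 * g)) ≤ X

/-- upper bounds of the exponentials, and the constants of the two-term theorem -/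
structure Aux where
  (η ρ ρm : ℝ)
  (A1 A2 A3 A4 : ℝ)
  (B1 B2 B3 B4 : ℝ)
  (X2 Y1 Xm Y0 : ℝ)
  (D1 D2 D3 D4 : ℝ)
  (F1 F2 F3 F4 : ℝ)
  (M2 M3 Mm Mm2 Q2 Q3 Q4 Qm Qm2 Qm3 S1 S2 : ℝ)

/-- the numeric conditions -/
structure Ok (N : Num) (A : Aux) : Prop where
  ord : 0 < N.T0 ∧ 1 < N.a ∧ N.a ^ 2 < 5 ∧ -1 ≤ N.z2 ∧ N.z2 ≤ N.qL ∧ N.qL < N.qR ∧ N.qR ≤ N.z4 ∧ N.z4 ≤ 0
  pos : 0 < N.u0 ∧ 0 < N.l1 ∧ 0 < N.c0 ∧ 0 < N.c1 ∧ 0 ≤ N.K2 ∧ 0 ≤ N.K3 ∧ 0 ≤ N.Km ∧ 0 ≤ N.Km2 ∧ 0 ≤ N.Kr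
  pos2 : 0 ≤ N.τ ∧ N.τ ≤ N.τ6 ∧ 0 ≤ N.τm ∧ 0 ≤ N.S ∧ 0 ≤ N.Sm ∧ 0 ≤ N.Sr
  pos3 : 0 ≤ N.δ0 ∧ 0 ≤ N.δ1 ∧ 0 ≤ N.P2 ∧ 0 ≤ N.P3 ∧ 0 ≤ N.P4 ∧ 0 ≤ N.Pm ∧ 0 ≤ N.Pm2 ∧ 0 ≤ N.Pm3
  ρ : EB N.T0 N.S A.ρ
  ρm : EB N.T0 N.Sm A.ρm
  -- region 1: `z ∈ [-1, z2]`
  A1 : EB N.T0 (N.f02 - N.e12) A.A1
  A2 : EB N.T0 (N.S - N.C) A.A2 ∧ EB N.T0 (N.S * (2 + N.z2) - N.C - N.e12) A.A2
  A3 : EB N.T0 (N.Sm * (1 - N.z2) - N.Cm - N.e12) A.A3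
  A4 : EB N.T0 (1 / 2 - N.e12) A.A4
  r1 : N.u0 * A.A1 + N.K2 * (A.A2 + N.τ * A.A4) + 5 / 4 * (N.K3 * (A.A2 * A.ρ + N.τ * A.A4)) +
    N.Km * (A.A3 + N.τm * A.A4) + 5 / 4 * (N.Km2 * (A.A3 * A.ρm + N.τm * A.A4)) < N.l1
  -- region 2: `z ∈ [z2, qL]`
  B1 : EB N.T0 (N.f0L - N.e1L) A.B1
  B2 : EB N.T0 (N.S * (2 + N.z2) - N.C - N.e12) A.B2 ∧ EB N.T0 (N.S * (2 + N.qL) - N.C - N.e1L) A.B2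
  B3 : EB N.T0 (N.Sm * (1 - N.qL) - N.Cm - N.e1L) A.B3
  B4 : EB N.T0 (1 / 2 - N.e1L) A.B4
  r2 : N.u0 * A.B1 + N.K2 * (A.B2 + N.τ * A.B4) + 5 / 4 * (N.K3 * (A.B2 * A.ρ + N.τ * A.B4)) +
    N.Km * (A.B3 + N.τm * A.B4) + 5 / 4 * (N.Km2 * (A.B3 * A.ρm + N.τm * A.B4)) < N.l1
  -- region 3: `z ∈ [qL, qR]`
  X2 : EB N.T0 (N.S * (2 + N.qL) - N.C - N.e1L) A.X2 ∧ EB N.T0 (N.S * (2 + N.qR) - N.C - N.e1R) A.X2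
  Y1 : EB N.T0 (1 / 2 - N.e1R) A.Y1
  Xm : EB N.T0 (N.Sm * (1 - N.qR) - N.Cm - N.e0R) A.Xm ∧ EB N.T0 (N.Sm * (1 - N.qL) - N.Cm - N.e0L) A.Xm
  Y0 : EB N.T0 (1 / 2 - N.e0L) A.Y0
  r3 : (N.K2 * (A.X2 + N.τ * A.Y1) + 5 / 4 * (N.K3 * (A.X2 * A.ρ + N.τ * A.Y1))) / N.l1 +
    (N.Km * (A.Xm + N.τm * A.Y0) + 5 / 4 * (N.Km2 * (A.Xm * A.ρm + N.τm * A.Y0))) / N.c0 ≤ A.η
  hη : 1 < N.a * (1 - A.η)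
  -- region 4: `z ∈ [qR, z4]`
  D1 : EB N.T0 (N.f1R - N.e0R) A.D1
  D2 : EB N.T0 (N.S * (2 + N.qR) - N.C - N.e0R) A.D2
  D3 : EB N.T0 (N.Sm * (1 - N.qR) - N.Cm - N.e0R) A.D3 ∧ EB N.T0 (N.Sm * (1 - N.z4) - N.Cm - N.e04) A.D3
  D4 : EB N.T0 (1 / 2 - N.e0R) A.D4
  r4 : N.c1 * A.D1 + N.K2 * (A.D2 + N.τ6 * A.D4) + 5 / 4 * (N.K3 * (A.D2 * A.ρ + N.τ6 * A.D4)) +
    N.Km * (A.D3 + N.τm * A.D4) + 5 / 4 * (N.Km2 * (A.D3 * A.ρm + N.τm * A.D4)) < N.c0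
  -- region 5: `z ∈ [z4, 0]`
  F1 : EB N.T0 (N.Sr * (1 + N.z4) - N.Cr - N.e04) A.F1
  F2 : EB N.T0 (N.S * (2 + N.z4) - N.C - N.e04) A.F2
  F3 : EB N.T0 (N.Sm * (1 - N.z4) - N.Cm - N.e04) A.F3 ∧ EB N.T0 (N.Sm - N.Cm) A.F3
  F4 : EB N.T0 (1 / 2 - N.e04) A.F4
  r5 : N.Kr * A.F1 + N.K2 * (A.F2 + N.τ6 * A.F4) + 5 / 4 * (N.K3 * (A.F2 * A.ρ + N.τ6 * A.F4)) +
    N.Km * (A.F3 + N.τm * A.F4) + 5 / 4 * (N.Km2 * (A.F3 * A.ρm + N.τm * A.F4)) < N.c0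
  -- constants of the two-term theorem
  M2 : N.a * N.K2 * (A.X2 + N.τ * A.Y1) ≤ A.M2 * N.l1
  M3 : N.a ^ 2 * N.K3 * (A.X2 * A.ρ + N.τ * A.Y1) ≤ A.M3 * N.l1
  Mm : N.a * N.Km * (A.Xm + N.τm * A.Y0) ≤ A.Mm * N.c0
  Mm2 : N.a ^ 2 * N.Km2 * (A.Xm * A.ρm + N.τm * A.Y0) ≤ A.Mm2 * N.c0
  Q2 : N.a * N.P2 * (A.X2 + N.τ * A.Y1) ≤ (A.Q2 - A.M2 * (N.δ0 + 2 * N.δ1)) * N.l1
  Q3 : N.a ^ 2 * N.P3 * (A.X2 * A.ρ + N.τ * A.Y1) ≤ (A.Q3 - A.M3 * (2 * N.δ0 + 3 * N.δ1)) * N.l1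
  Q4 : N.a ^ 2 * N.P4 * (A.X2 * A.ρ + N.τ * A.Y1) ≤ (A.Q4 - A.M3 * (N.δ0 + N.δ1)) * N.l1
  Qm : N.a * N.Pm * (A.Xm + N.τm * A.Y0) ≤ (A.Qm - A.Mm * (2 * N.δ0 + N.δ1)) * N.c0
  Qm2 : N.a ^ 2 * N.Pm2 * (A.Xm * A.ρm + N.τm * A.Y0) ≤ (A.Qm2 - A.Mm2 * (3 * N.δ0 + 2 * N.δ1)) * N.c0
  Qm3 : N.a ^ 2 * N.Pm3 * (A.Xm * A.ρm + N.τm * A.Y0) ≤ (A.Qm3 - A.Mm2 * (N.δ0 + N.δ1)) * N.c0
  S1 : 2 * A.M2 * N.a ^ 3 + N.a ^ 4 * A.M3 * (3 / (1 - N.a ^ 2 / 5) + (N.a ^ 2 / 5) / (1 - N.a ^ 2 / 5) ^ 2) +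
    A.Mm * N.a ^ 2 + N.a ^ 3 * A.Mm2 * (2 / (1 - N.a ^ 2 / 5) + (N.a ^ 2 / 5) / (1 - N.a ^ 2 / 5) ^ 2) ≤ A.S1
  S1' : A.S1 < 1
  S2 : A.Q2 * N.a ^ 2 + N.a ^ 3 * (A.Q3 / (1 - N.a ^ 2 / 5) + A.Q4 * (N.a ^ 2 / 5) / (1 - N.a ^ 2 / 5) ^ 2) +
    A.Qm * N.a + N.a ^ 2 * (A.Qm2 / (1 - N.a ^ 2 / 5) + A.Qm3 * (N.a ^ 2 / 5) / (1 - N.a ^ 2 / 5) ^ 2) ≤ A.S2
  fin : N.a * A.S2 < (N.μ - N.δ0 - N.δ1) * (1 - A.S1)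

end Sok.R2
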