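import Pool.Agent.Lib.MP_816dec_an.R2Line
import Pool.Agent.Lib.MP_816dec_an.R2Defs

/-!
MP_816dec_an, row R2 (6): the left side for `κ ≤ √3`, in closed form.

`C (κ, S) = (1 + κ²) (Mv κ v + v - 1) / h²`, `(1 + κ²) (-v) = κ h S`, is bounded by a rational expression
(`CB.le`), and `en b κ (-z) ≥ S z - C (κ, S)` for every `S ≥ 0` (tangent lines of the concave `sE`).
Numbers of the three classes `b = 5`, `κ ∈ [1.39, 1.42], [1.42, 1.48], [1.48, 1.58]`.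
-/

set_option autoImplicit false

open Set Filter Topology Real

namespace Sok

namespace R2

/-- tangent lines of `ev` are below `ev` -/
theorem tangent_le_ev {κ τ τ0 : ℝ} (hκ : 1 ≤ κ) (h0 : τ0 < κ + π / 2) (h : τ < κ + π / 2) :
    ev κ τ0 + yv κ τ0 * (τ - τ0) ≤ ev κ τ := by
  rcases le_total τ0 τ with h1 | h1
  · have := (taylor_right (l := 0) hκ h1 h
      (fun σ _ hσ2 => (lv_pos hκ (lt_of_le_of_lt hσ2 h)).le)).2
    linarith
  · rcases eq_or_lt_of_le h1 with h2 | h2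
    · rw [h2]; simp
    have hd : ∀ σ, σ ≤ τ0 → σ < κ + π / 2 := fun σ hσ => lt_of_le_of_lt hσ h0
    obtain ⟨c, hc, hce⟩ := exists_hasDerivAt_eq_slope (ev κ) (yv κ) h2
      (fun σ hσ => (hasDerivAt_ev hκ (hd σ hσ.2)).continuousAt.continuousWithinAt)
      (fun σ hσ => hasDerivAt_ev hκ (hd σ hσ.2.le))
    have h3 := (taylor_right (l := 0) hκ hc.2.le h0
      (fun σ _ hσ2 => (lv_pos hκ (lt_of_le_of_lt hσ2 h0)).le)).1
    have h4 : yv κ c ≤ yv κ τ0 := by linarith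
    rw [hce, div_le_iff₀ (by linarith)] at h4
    linarith

/-- the tangent of height `v ≤ 0` at the angle `-κ - σ` -/
theorem ev_ge_tangent {κ v σ : ℝ} (hκ : 1 ≤ κ) (hv : v ≤ 0) (hσ : 0 ≤ σ) :
    (1 + κ ^ 2) * (-v) / κ * σ - (1 + κ ^ 2) * (Mv κ v + v - 1) ≤ ev κ (-σ) := by
  have hk : 0 < κ := by linarith
  have hI := Iy_neg hκ hv
  have h1 : Tk κ v < π / 2 := by
    unfold Tk
    have := arctan_lt_pi_div_two (v / Xk κ v)
    have := hI.xpos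
    linarith
  have h2 := tangent_le_ev (τ0 := Tk κ v + κ) (τ := -σ) hκ (by linarith) (by linarith [pi_pos])
  have h3 : yv κ (Tk κ v + κ) = (1 + κ ^ 2) * v / κ := by
    unfold yv
    rw [add_sub_cancel_right, sy_eq hI]
  rw [h3] at h2
  have h4 := legendre hκ hI
  refine le_trans (le_of_eq ?_) h2
  rw [h4]
  ring

private theorem sin_aux {W : ℝ} (h0 : 0 ≤ W) (h1 : W ≤ 1 / 2) : W ≤ sin W + sin W ^ 3 / 5 := by
  have h2 := sin_ge_sub_cube h0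
  have h3 : 23 / 24 * W ≤ sin W := by nlinarith [mul_nonneg h0 h0, mul_nonneg (mul_nonneg h0 h0) h0]
  have h4 : (23 / 24 * W) ^ 3 ≤ sin W ^ 3 := pow_le_pow_left₀ (by positivity) h3 3
  have h5 : 0 ≤ W ^ 3 := by positivity
  nlinarith

private theorem csw {W : ℝ} (h0 : 0 ≤ W) (h1 : W ≤ 1 / 2) :
    cos W + W * sin W ≤ 1 + sin W ^ 2 / 2 + sin W ^ 4 / 20 := by
  have hd : ∀ x : ℝ, HasDerivAt (fun W : ℝ => 1 + sin W ^ 2 / 2 + sin W ^ 4 / 20 - cos W - W * sin W)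
      (cos x * (sin x + sin x ^ 3 / 5 - x)) x := by
    intro x
    have h2 := (((hasDerivAt_sin x).pow 2).div_const 2).const_add 1
    have h3 := ((hasDerivAt_sin x).pow 4).div_const 20
    have h4 := ((h2.add h3).sub (hasDerivAt_cos x)).sub ((hasDerivAt_id x).mul (hasDerivAt_sin x))
    refine h4.congr_deriv ?_
    simp only [Nat.cast_ofNat, id_eq, Nat.add_one_sub_one, pow_one]
    ring
  have hm : MonotoneOn (fun W : ℝ => 1 + sin W ^ 2 / 2 + sin W ^ 4 / 20 - cos W - W * sin W)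
      (Icc 0 (1 / 2)) := by
    apply monotoneOn_of_deriv_nonneg (convex_Icc _ _)
    · intro x _
      exact (hd x).continuousAt.continuousWithinAt
    · intro x _
      exact (hd x).differentiableAt.differentiableWithinAt
    · intro x hx
      rw [interior_Icc] at hx
      rw [(hd x).deriv]
      have h5 := sin_aux hx.1.le hx.2.le
      have h6 : 0 ≤ cos x := by
        apply cos_nonneg_of_neg_pi_div_two_le_of_le
        · linarith [pi_pos, hx.1]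
        · linarith [pi_gt_three, hx.2]
      exact mul_nonneg h6 (by linarith)
  have h2 := hm (left_mem_Icc.2 (by norm_num)) ⟨h0, h1⟩ h0
  simp only [sin_zero, cos_zero] at h2
  linarith

/-- `Mv` for `v ≤ 0` -/
theorem Mv_neg_le {κ V : ℝ} (hκ : 1 ≤ κ) (hV : 0 ≤ V) :
    Mv κ (-V) ≤ exp V + V ^ 2 * exp (-V) / (2 * κ ^ 2) + V ^ 4 * exp (-V) ^ 3 / (20 * κ ^ 4) := by
  have hk : 0 < κ := by linarith
  have hI := Iy_neg hκ (by linarith : -V ≤ 0)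
  have hx := hI.xpos
  obtain ⟨W, hW⟩ : ∃ W, W = -arctan (-V / Xk κ (-V)) := ⟨_, rfl⟩
  have hWa : arctan (-V / Xk κ (-V)) = -W := by rw [hW, neg_neg]
  obtain ⟨hs, hc⟩ := Mv_spec hI
  rw [hWa, sin_neg] at hs
  rw [hWa, cos_neg] at hc
  have hE : exp (-V) * exp V = 1 := by rw [← exp_add]; simp
  have hEp := exp_pos (-V)
  have hEp' := exp_pos V
  have hs' : κ * sin W = V * exp (-V) := by linarith
  have hW0 : 0 ≤ W := by
    rw [hW, neg_div, arctan_neg, neg_neg]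
    exact arctan_nonneg.2 (div_nonneg hV hx.le)
  have hWpi : W < π / 2 := by
    rw [hW, neg_div, arctan_neg, neg_neg]
    exact arctan_lt_pi_div_two _
  have hsin : sin W ≤ 2 / 5 := by
    have h1 := mul_exp_neg_le V
    have h2 : exp (-1 : ℝ) ≤ 2 / 5 := by
      have h3 : (5 / 2 : ℝ) ≤ exp 1 := by linarith [exp_one_gt_d9]
      rw [exp_neg]
      rw [inv_le_comm₀ (exp_pos 1) (by norm_num)]
      linarith
    have h4 : sin W ≤ κ * sin W := by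
      have : 0 ≤ sin W := sin_nonneg_of_nonneg_of_le_pi hW0 (by linarith [pi_pos])
      nlinarith
    linarith
  have hW1 : W ≤ 1 / 2 := by
    by_contra h1
    push Not at h1
    have h2 : sin (1 / 2) < sin W := by
      apply sin_lt_sin_of_lt_of_le_pi_div_two _ hWpi.le h1
      linarith [pi_pos]
    have h3 := sin_ge_sub_cube (by norm_num : (0:ℝ) ≤ 1 / 2)
    norm_num at h3
    linarith
  have hMv : Mv κ (-V) = exp V * (cos W + W * sin W) := by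
    unfold Mv
    rw [hWa]
    have h1 : Xk κ (-V) = κ * cos W * exp V := by
      rw [hc, mul_assoc, hE, mul_one]
    have h2 : V = κ * sin W * exp V := by
      rw [hs', mul_assoc, hE, mul_one]
    rw [div_eq_iff hk.ne', h1]
    have h4 : V * W = κ * sin W * exp V * W := congrArg (· * W) h2
    linear_combination h4
  rw [hMv]
  have h1 := mul_le_mul_of_nonneg_left (csw hW0 hW1) hEp'.le
  refine h1.trans (le_of_eq ?_)
  have hsW : sin W = V * exp (-V) / κ := by rw [eq_div_iff hk.ne']; linarith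
  rw [hsW]
  have e1 : exp V * (exp (-V)) = 1 := by rw [mul_comm]; exact hE
  have e2 : exp V * (1 + (V * exp (-V) / κ) ^ 2 / 2 + (V * exp (-V) / κ) ^ 4 / 20) =
      exp V + V ^ 2 * exp (-V) * (exp V * exp (-V)) / (2 * κ ^ 2) +
        V ^ 4 * exp (-V) ^ 3 * (exp V * exp (-V)) / (20 * κ ^ 4) := by
    field_simp
  rw [e2, e1]
  ring

private theorem exp_tail {V V1 : ℝ} (h0 : 0 ≤ V) (h1 : V ≤ V1) (h2 : V1 ≤ 1) :
    exp V - 1 - V - V ^ 2 / 2 ≤ V ^ 3 * (1 / 6 + V1 / 24 + V1 ^ 2 / 120 + 7 * V1 ^ 3 / 4320) := by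
  have h3 := exp_bound' h0 (h1.trans h2) (n := 6) (by norm_num)
  simp only [Finset.sum_range_succ, Finset.sum_range_zero, Nat.factorial] at h3
  norm_num at h3
  have h4 : V ^ 3 * (1 / 6 + V / 24 + V ^ 2 / 120 + 7 * V ^ 3 / 4320) ≤
      V ^ 3 * (1 / 6 + V1 / 24 + V1 ^ 2 / 120 + 7 * V1 ^ 3 / 4320) := by
    apply mul_le_mul_of_nonneg_left _ (by positivity)
    have h5 : V ^ 2 ≤ V1 ^ 2 := pow_le_pow_left₀ h0 h1 2
    have h6 : V ^ 3 ≤ V1 ^ 3 := pow_le_pow_left₀ h0 h1 3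
    linarith
  refine le_trans ?_ h4
  nlinarith

/-- upper bound of `exp (-V)` -/
theorem exp_neg_le_of {V E : ℝ} (h0 : 0 ≤ V) (hE : 0 < E)
    (h : 1 ≤ E * (1 + V + V ^ 2 / 2 + V ^ 3 / 6 + V ^ 4 / 24 + V ^ 5 / 120)) : exp (-V) ≤ E := by
  have h1 := sum_le_exp_of_nonneg h0 6
  simp only [Finset.sum_range_succ, Finset.sum_range_zero, Nat.factorial] at h1
  norm_num at h1
  have h2 : 1 ≤ E * exp V := by
    refine h.trans ?_
    apply mul_le_mul_of_nonneg_left _ hE.le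
    linarith
  have h3 : exp (-V) * exp V = 1 := by rw [← exp_add]; simp
  have h4 := exp_pos (-V)
  have h5 := exp_pos V
  by_contra h6
  push Not at h6
  nlinarith

private theorem combine {A M V e B D R T1 T2 T3 h : ℝ} (hA : 0 ≤ A) (hM : M ≤ e + B + D)
    (hT : e - 1 - V - V ^ 2 / 2 ≤ R) (h1 : A * (V ^ 2 / 2) + A * B ≤ h ^ 2 * T1) (h2 : A * R ≤ h ^ 2 * T2)
    (h3 : A * D ≤ h ^ 2 * T3) : A * (M + -V - 1) ≤ h ^ 2 * (T1 + T2 + T3) := by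
  have h4 := mul_le_mul_of_nonneg_left hM hA
  have h5 := mul_le_mul_of_nonneg_left hT hA
  linarith

private theorem dec_aux {a c : ℝ} (ha : 1 ≤ a) (hac : a ≤ c) : c * (1 + a ^ 2) ≤ a * (1 + c ^ 2) := by
  have h1 : 0 ≤ a * c - 1 := by nlinarith
  have h2 := mul_nonneg (sub_nonneg.2 hac) h1
  have e : (c - a) * (a * c - 1) = a * (1 + c ^ 2) - c * (1 + a ^ 2) := by ring
  linarith

private theorem inc_aux {κ k2 : ℝ} (hk : 0 < κ) (hκ2 : κ ≤ k2) (hk2 : k2 ^ 2 ≤ 3) :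
    κ ^ 3 / (1 + κ ^ 2) ^ 2 ≤ k2 ^ 3 / (1 + k2 ^ 2) ^ 2 := by
  rw [div_le_div_iff₀ (by positivity) (by positivity)]
  have h3 : κ * k2 ≤ 3 := by
    have : κ * k2 ≤ k2 * k2 := mul_le_mul_of_nonneg_right hκ2 (by linarith)
    have e : k2 ^ 2 = k2 * k2 := by ring
    linarith
  have h5 : 3 * (κ * k2) ≤ k2 ^ 2 + κ * k2 + κ ^ 2 := by
    have h8 := sq_nonneg (k2 - κ)
    have e : (k2 - κ) ^ 2 = k2 ^ 2 - 2 * (κ * k2) + κ ^ 2 := by ring
    linarith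
  obtain ⟨p, hp⟩ : ∃ p, p = κ * k2 := ⟨_, rfl⟩
  have h6 : 0 ≤ p := by rw [hp]; exact mul_nonneg hk.le (by linarith)
  rw [← hp] at h3 h5
  have h7 : 0 ≤ p * ((3 - p) * (1 + p)) :=
    mul_nonneg h6 (mul_nonneg (by linarith) (by linarith))
  have h8 : 0 ≤ (k2 ^ 2 + p + κ ^ 2) + 2 * p ^ 2 - p ^ 3 := by
    have e : p * ((3 - p) * (1 + p)) = 3 * p + 2 * p ^ 2 - p ^ 3 := by ring
    linarith
  have h4 := mul_nonneg (sub_nonneg.2 hκ2) h8
  have e : (k2 - κ) * ((k2 ^ 2 + p + κ ^ 2) + 2 * p ^ 2 - p ^ 3) =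
      k2 ^ 3 * (1 + κ ^ 2) ^ 2 - κ ^ 3 * (1 + k2 ^ 2) ^ 2 := by rw [hp]; ring
  linarith

private theorem term1 {κ k2 h S V E F : ℝ} (hk : 0 < κ) (hκ2 : κ ≤ k2) (hF1 : F ≤ 1) (hFE : F ≤ E)
    (hv : (1 + κ ^ 2) * V = κ * (h * S)) :
    (1 + κ ^ 2) * (V ^ 2 / 2) + (1 + κ ^ 2) * (V ^ 2 * F / (2 * κ ^ 2)) ≤
      h ^ 2 * (S ^ 2 / 2 * (1 - (1 - E) / (1 + k2 ^ 2))) := by
  have hA : 0 < 1 + κ ^ 2 := by positivity
  have hk2p : 0 < 1 + k2 ^ 2 := by positivity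
  have e1 : (1 + κ ^ 2) * (V ^ 2 / 2) + (1 + κ ^ 2) * (V ^ 2 * F / (2 * κ ^ 2)) =
      h ^ 2 * (S ^ 2 / 2 * (1 - (1 - F) / (1 + κ ^ 2))) := by
    have e2 : (1 + κ ^ 2) * (V ^ 2 / 2) + (1 + κ ^ 2) * (V ^ 2 * F / (2 * κ ^ 2)) =
        ((1 + κ ^ 2) * V) ^ 2 * (κ ^ 2 + F) / (2 * κ ^ 2 * (1 + κ ^ 2)) := by
      field_simp
    rw [e2, hv]
    field_simp
    ring
  rw [e1]
  apply mul_le_mul_of_nonneg_left _ (sq_nonneg h)
  apply mul_le_mul_of_nonneg_left _ (by positivity)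
  have h2 : (1 - E) / (1 + k2 ^ 2) ≤ (1 - F) / (1 + κ ^ 2) := by
    have h4 : (1 - E) / (1 + k2 ^ 2) ≤ (1 - F) / (1 + k2 ^ 2) :=
      div_le_div_of_nonneg_right (by linarith) hk2p.le
    refine h4.trans ?_
    apply div_le_div_of_nonneg_left (by linarith) hA
    have := pow_le_pow_left₀ hk.le hκ2 2
    linarith
  linarith

private theorem term2 {κ k2 h S V R : ℝ} (hk : 0 < κ) (hκ2 : κ ≤ k2) (hk2 : k2 ^ 2 ≤ 3) (hh : 0 < h)
    (hS : 0 ≤ S) (hR : 0 ≤ R) (hv : (1 + κ ^ 2) * V = κ * (h * S)) :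
    (1 + κ ^ 2) * (V ^ 3 * R) ≤ h ^ 2 * (h * S ^ 3 * (k2 ^ 3 / (1 + k2 ^ 2) ^ 2) * R) := by
  have hA : 0 < 1 + κ ^ 2 := by positivity
  have e1 : (1 + κ ^ 2) * (V ^ 3 * R) = h ^ 2 * (h * S ^ 3 * (κ ^ 3 / (1 + κ ^ 2) ^ 2) * R) := by
    have e2 : (1 + κ ^ 2) * V ^ 3 = ((1 + κ ^ 2) * V) ^ 3 / (1 + κ ^ 2) ^ 2 := by
      field_simp
    rw [← mul_assoc, e2, hv]
    field_simp
  rw [e1]
  apply mul_le_mul_of_nonneg_left _ (sq_nonneg h)
  apply mul_le_mul_of_nonneg_right _ hR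
  exact mul_le_mul_of_nonneg_left (inc_aux hk hκ2 hk2) (by positivity)

private theorem term3 {κ k1 h S V E F : ℝ} (hk1 : 0 < k1) (hκ1 : k1 ≤ κ) (hF0 : 0 ≤ F) (hFE : F ≤ E)
    (hv : (1 + κ ^ 2) * V = κ * (h * S)) :
    (1 + κ ^ 2) * (V ^ 4 * F ^ 3 / (20 * κ ^ 4)) ≤
      h ^ 2 * (h ^ 2 * S ^ 4 * E ^ 3 / (20 * (1 + k1 ^ 2) ^ 3)) := by
  have hk : 0 < κ := by linarith
  have hA : 0 < 1 + κ ^ 2 := by positivity
  have e1 : (1 + κ ^ 2) * (V ^ 4 * F ^ 3 / (20 * κ ^ 4)) =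
      h ^ 2 * (h ^ 2 * S ^ 4 * F ^ 3 / (20 * (1 + κ ^ 2) ^ 3)) := by
    have e2 : (1 + κ ^ 2) * (V ^ 4 * F ^ 3 / (20 * κ ^ 4)) =
        ((1 + κ ^ 2) * V) ^ 4 * F ^ 3 / (20 * κ ^ 4 * (1 + κ ^ 2) ^ 3) := by
      field_simp
    rw [e2, hv]
    field_simp
  rw [e1]
  apply mul_le_mul_of_nonneg_left _ (sq_nonneg h)
  have hk1p : 0 < 1 + k1 ^ 2 := by positivity
  have h2 : F ^ 3 ≤ E ^ 3 := pow_le_pow_left₀ hF0 hFE 3
  have h5 := pow_le_pow_left₀ hk1.le hκ1 2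
  have h3 : (1 + k1 ^ 2) ^ 3 ≤ (1 + κ ^ 2) ^ 3 := pow_le_pow_left₀ hk1p.le (by linarith) 3
  have hE3 : 0 ≤ E ^ 3 := (pow_nonneg hF0 3).trans h2
  apply div_le_div₀ (by positivity) _ (by positivity) (by linarith)
  exact mul_le_mul_of_nonneg_left h2 (by positivity)

/-- **the constant of the tangent of slope `S` on the left**, `k1 ≤ κ ≤ k2 ≤ √3` -/
theorem left_C {κ k1 k2 h S V1 V2 E v : ℝ} (h1 : 1 ≤ k1) (hκ1 : k1 ≤ κ) (hκ2 : κ ≤ k2) (hk2 : k2 ^ 2 ≤ 3)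
    (hh : 0 < h) (hS : 0 ≤ S) (hV1 : k1 * (h * S) ≤ V1 * (1 + k1 ^ 2)) (hV11 : V1 ≤ 1)
    (hV20 : 0 ≤ V2) (hV2 : V2 * (1 + k2 ^ 2) ≤ k2 * (h * S)) (hE : 0 < E)
    (hE' : 1 ≤ E * (1 + V2 + V2 ^ 2 / 2 + V2 ^ 3 / 6 + V2 ^ 4 / 24 + V2 ^ 5 / 120))
    (hv : (1 + κ ^ 2) * (-v) = κ * (h * S)) :
    (1 + κ ^ 2) * (Mv κ v + v - 1) ≤ h ^ 2 * (S ^ 2 / 2 * (1 - (1 - E) / (1 + k2 ^ 2)) +
      h * S ^ 3 * (k2 ^ 3 / (1 + k2 ^ 2) ^ 2) * (1 / 6 + V1 / 24 + V1 ^ 2 / 120 + 7 * V1 ^ 3 / 4320) +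
      h ^ 2 * S ^ 4 * E ^ 3 / (20 * (1 + k1 ^ 2) ^ 3)) := by
  have hκ : 1 ≤ κ := h1.trans hκ1
  have hk : 0 < κ := by linarith
  have hhS : 0 ≤ h * S := mul_nonneg hh.le hS
  obtain ⟨V, hVd⟩ : ∃ V, V = -v := ⟨_, rfl⟩
  have hv' : v = -V := by rw [hVd]; ring
  subst hv'
  rw [neg_neg] at hv
  have hA : 0 < 1 + κ ^ 2 := by positivity
  have hVe : V = κ * (h * S) / (1 + κ ^ 2) := by rw [eq_div_iff hA.ne']; linarith
  have hV0 : 0 ≤ V := by rw [hVe]; positivity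
  have hVV1 : V ≤ V1 := by
    have h4 : 0 < 1 + k1 ^ 2 := by positivity
    rw [hVe, div_le_iff₀ hA]
    have h2 := mul_le_mul_of_nonneg_right (dec_aux h1 hκ1) hhS
    have h3 := mul_le_mul_of_nonneg_right hV1 hA.le
    refine le_of_mul_le_mul_right ?_ h4
    linarith
  have hVV2 : V2 ≤ V := by
    have h4 : 0 < 1 + k2 ^ 2 := by positivity
    rw [hVe, le_div_iff₀ hA]
    have h2 := mul_le_mul_of_nonneg_right (dec_aux hκ hκ2) hhS
    have h3 := mul_le_mul_of_nonneg_right hV2 hA.le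
    refine le_of_mul_le_mul_right ?_ h4
    linarith
  have hEV : exp (-V) ≤ E := (exp_le_exp.2 (by linarith)).trans (exp_neg_le_of hV20 hE hE')
  have hE0 := exp_pos (-V)
  have hF1 : exp (-V) ≤ 1 := exp_le_one_iff.2 (by linarith)
  have hV1n : 0 ≤ V1 := hV0.trans hVV1
  exact combine hA.le (Mv_neg_le hκ hV0) (exp_tail hV0 hVV1 hV11) (term1 hk hκ2 hF1 hEV hv)
    (term2 hk hκ2 hk2 hh hS (by positivity) hv) (term3 (by linarith) hκ1 hE0.le hEV hv)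

/-- the same with a rational upper bound `H` of `h` and a rational bound `C` -/
theorem left_C' {κ k1 k2 h H S V1 V2 E C v : ℝ} (h1 : 1 ≤ k1) (hκ1 : k1 ≤ κ) (hκ2 : κ ≤ k2)
    (hk2 : k2 ^ 2 ≤ 3) (hh : 0 < h) (hH : h ≤ H) (hS : 0 ≤ S) (hV1 : k1 * (H * S) ≤ V1 * (1 + k1 ^ 2))
    (hV10 : 0 ≤ V1) (hV11 : V1 ≤ 1) (hV20 : 0 ≤ V2) (hV2 : V2 * (1 + k2 ^ 2) ≤ k2 * (h * S)) (hE : 0 < E)
    (hE' : 1 ≤ E * (1 + V2 + V2 ^ 2 / 2 + V2 ^ 3 / 6 + V2 ^ 4 / 24 + V2 ^ 5 / 120))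
    (hC : S ^ 2 / 2 * (1 - (1 - E) / (1 + k2 ^ 2)) +
      H * S ^ 3 * (k2 ^ 3 / (1 + k2 ^ 2) ^ 2) * (1 / 6 + V1 / 24 + V1 ^ 2 / 120 + 7 * V1 ^ 3 / 4320) +
      H ^ 2 * S ^ 4 * E ^ 3 / (20 * (1 + k1 ^ 2) ^ 3) ≤ C)
    (hv : (1 + κ ^ 2) * (-v) = κ * (h * S)) :
    (1 + κ ^ 2) * (Mv κ v + v - 1) ≤ h ^ 2 * C := by
  have hk1 : 0 ≤ k1 := by linarith
  have hk20 : 0 ≤ k2 := by linarith
  have hV1' : k1 * (h * S) ≤ V1 * (1 + k1 ^ 2) :=
    (mul_le_mul_of_nonneg_left (mul_le_mul_of_nonneg_right hH hS) hk1).trans hV1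
  have h2 := left_C h1 hκ1 hκ2 hk2 hh hS hV1' hV11 hV20 hV2 hE hE' hv
  refine h2.trans (mul_le_mul_of_nonneg_left (le_trans ?_ hC) (sq_nonneg h))
  have hh2 : h ^ 2 ≤ H ^ 2 := pow_le_pow_left₀ hh.le hH 2
  have a1 : h * S ^ 3 * (k2 ^ 3 / (1 + k2 ^ 2) ^ 2) * (1 / 6 + V1 / 24 + V1 ^ 2 / 120 + 7 * V1 ^ 3 / 4320) ≤
      H * S ^ 3 * (k2 ^ 3 / (1 + k2 ^ 2) ^ 2) * (1 / 6 + V1 / 24 + V1 ^ 2 / 120 + 7 * V1 ^ 3 / 4320) := by
    apply mul_le_mul_of_nonneg_right _ (by positivity)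
    apply mul_le_mul_of_nonneg_right _ (by positivity)
    exact mul_le_mul_of_nonneg_right hH (by positivity)
  have a2 : h ^ 2 * S ^ 4 * E ^ 3 / (20 * (1 + k1 ^ 2) ^ 3) ≤ H ^ 2 * S ^ 4 * E ^ 3 / (20 * (1 + k1 ^ 2) ^ 3) := by
    apply div_le_div_of_nonneg_right _ (by positivity)
    apply mul_le_mul_of_nonneg_right _ (by positivity)
    exact mul_le_mul_of_nonneg_right hh2 (by positivity)
  linarith

/-- the tangent of slope `S` as a lower bound of `en` -/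
theorem en_ge_of_tangent {b : ℕ} {κ S C z : ℝ} (hb : 1 ≤ b) (hκ : 1 ≤ κ) (hS : 0 ≤ S) (hz : 0 ≤ z)
    (hC : ∀ v : ℝ, (1 + κ ^ 2) * (-v) = κ * (hh b * S) → (1 + κ ^ 2) * (Mv κ v + v - 1) ≤ hh b ^ 2 * C) :
    S * z - C ≤ en b κ (-z) := by
  have hh0 : 0 < hh b := by
    unfold hh
    have : (0 : ℝ) < b := by exact_mod_cast hb
    positivity
  have hk : 0 < κ := by linarith
  have hA : 0 < 1 + κ ^ 2 := by positivity
  have h1 : (1 + κ ^ 2) * (-(-(κ * (hh b * S) / (1 + κ ^ 2)))) = κ * (hh b * S) := by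
    rw [neg_neg, mul_div_cancel₀ _ hA.ne']
  have h2 := hC _ h1
  have h3 := ev_ge_tangent (v := -(κ * (hh b * S) / (1 + κ ^ 2))) (σ := z * hh b) hκ
    (by have : 0 ≤ κ * (hh b * S) / (1 + κ ^ 2) := by positivity
        linarith) (mul_nonneg hz hh0.le)
  rw [h1] at h3
  have e1 : κ * (hh b * S) / κ * (z * hh b) = hh b ^ 2 * (S * z) := by
    field_simp
  rw [e1] at h3
  unfold en
  rw [le_div_iff₀ (by positivity), neg_mul]
  linarith

private theorem hh5 : (125663 / 100000 : ℝ) ≤ hh 5 ∧ hh 5 ≤ 125664 / 100000 := by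
  unfold hh
  have h1 := Real.pi_gt_d6
  have h2 := Real.pi_lt_d6
  push_cast
  constructor
  · rw [le_div_iff₀ (by norm_num)]
    linarith
  · rw [div_le_iff₀ (by norm_num)]
    linarith

/-- numeric instances for `b = 5` -/
private theorem num5 {κ k1 k2 S V1 V2 E C v : ℝ} (h1 : 1 ≤ k1) (hκ1 : k1 ≤ κ) (hκ2 : κ ≤ k2)
    (hk2 : k2 ^ 2 ≤ 3) (hS : 0 ≤ S) (hV1 : k1 * (125664 / 100000 * S) ≤ V1 * (1 + k1 ^ 2))
    (hV10 : 0 ≤ V1) (hV11 : V1 ≤ 1) (hV20 : 0 ≤ V2)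
    (hV2 : V2 * (1 + k2 ^ 2) ≤ k2 * (125663 / 100000 * S)) (hE : 0 < E)
    (hE' : 1 ≤ E * (1 + V2 + V2 ^ 2 / 2 + V2 ^ 3 / 6 + V2 ^ 4 / 24 + V2 ^ 5 / 120))
    (hC : S ^ 2 / 2 * (1 - (1 - E) / (1 + k2 ^ 2)) +
      125664 / 100000 * S ^ 3 * (k2 ^ 3 / (1 + k2 ^ 2) ^ 2) *
        (1 / 6 + V1 / 24 + V1 ^ 2 / 120 + 7 * V1 ^ 3 / 4320) +
      (125664 / 100000) ^ 2 * S ^ 4 * E ^ 3 / (20 * (1 + k1 ^ 2) ^ 3) ≤ C)
    (hv : (1 + κ ^ 2) * (-v) = κ * (hh 5 * S)) :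
    (1 + κ ^ 2) * (Mv κ v + v - 1) ≤ hh 5 ^ 2 * C := by
  refine left_C' h1 hκ1 hκ2 hk2 (by linarith [hh5.1]) hh5.2 hS hV1 hV10 hV11 hV20 (hV2.trans ?_) hE hE' hC hv
  exact mul_le_mul_of_nonneg_left (mul_le_mul_of_nonneg_right hh5.1 hS) (by linarith)

/-- class `5_1`: the left tangent -/
theorem tan5_1 {κ v : ℝ} (h1 : (139/100 : ℝ) ≤ κ) (h2 : κ ≤ 71/50)
    (hv : (1 + κ ^ 2) * (-v) = κ * (hh 5 * (97/100))) :
    (1 + κ ^ 2) * (Mv κ v + v - 1) ≤ hh 5 ^ 2 * (237/500) :=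
  num5 (k1 := 139/100) (k2 := 71/50) (V1 := 5779/10000) (V2 := 5738/10000) (E := 5634/10000)
    (by norm_num) h1 h2 (by norm_num) (by norm_num) (by norm_num) (by norm_num) (by norm_num) (by norm_num)
    (by norm_num) (by norm_num) (by norm_num) (by norm_num) hv

theorem f025_1 {κ : ℝ} (h1 : (139/100 : ℝ) ≤ κ) (h2 : κ ≤ 71/50) :
    (493/2000 : ℝ) ≤ en 5 κ (-(7/10)) := by
  have h3 := en_ge_of_tangent (b := 5) (κ := κ) (S := 698/1000) (C := 698/1000 * (7/10) - 493/2000) (z := 7/10)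
    (by norm_num) (by linarith) (by norm_num) (by norm_num) (fun v hv =>
      num5 (k1 := 139/100) (k2 := 71/50) (V1 := 4159/10000) (V2 := 4129/10000) (E := 66174/100000)
        (by norm_num) h1 h2 (by norm_num) (by norm_num) (by norm_num) (by norm_num) (by norm_num) (by norm_num)
        (by norm_num) (by norm_num) (by norm_num) (by norm_num) hv)
  refine le_trans (le_of_eq ?_) h3
  ring

theorem f0L5_1 {κ : ℝ} (h1 : (139/100 : ℝ) ≤ κ) (h2 : κ ≤ 71/50) :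
    (381/2500 : ℝ) ≤ en 5 κ (-(11/20)) := by
  have h3 := en_ge_of_tangent (b := 5) (κ := κ) (S := 555/1000) (C := 555/1000 * (11/20) - 381/2500) (z := 11/20)
    (by norm_num) (by linarith) (by norm_num) (by norm_num) (fun v hv =>
      num5 (k1 := 139/100) (k2 := 71/50) (V1 := 3307/10000) (V2 := 3283/10000) (E := 72015/100000)
        (by norm_num) h1 h2 (by norm_num) (by norm_num) (by norm_num) (by norm_num) (by norm_num) (by norm_num)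
        (by norm_num) (by norm_num) (by norm_num) (by norm_num) hv)
  refine le_trans (le_of_eq ?_) h3
  ring

/-- class `5_2`: the left tangent -/
theorem tan5_2 {κ v : ℝ} (h1 : (71/50 : ℝ) ≤ κ) (h2 : κ ≤ 37/25)
    (hv : (1 + κ ^ 2) * (-v) = κ * (hh 5 * (193/200))) :
    (1 + κ ^ 2) * (Mv κ v + v - 1) ≤ hh 5 ^ 2 * (237/500) :=
  num5 (k1 := 71/50) (k2 := 37/25) (V1 := 5709/10000) (V2 := 5625/10000) (E := 5698/10000)
    (by norm_num) h1 h2 (by norm_num) (by norm_num) (by norm_num) (by norm_num) (by norm_num) (by norm_num)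
    (by norm_num) (by norm_num) (by norm_num) (by norm_num) hv

theorem f025_2 {κ : ℝ} (h1 : (71/50 : ℝ) ≤ κ) (h2 : κ ≤ 37/25) :
    (489/2000 : ℝ) ≤ en 5 κ (-(7/10)) := by
  have h3 := en_ge_of_tangent (b := 5) (κ := κ) (S := 691/1000) (C := 691/1000 * (7/10) - 489/2000) (z := 7/10)
    (by norm_num) (by linarith) (by norm_num) (by norm_num) (fun v hv =>
      num5 (k1 := 71/50) (k2 := 37/25) (V1 := 4088/10000) (V2 := 4028/10000) (E := 66845/100000)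
        (by norm_num) h1 h2 (by norm_num) (by norm_num) (by norm_num) (by norm_num) (by norm_num) (by norm_num)
        (by norm_num) (by norm_num) (by norm_num) (by norm_num) hv)
  refine le_trans (le_of_eq ?_) h3
  ring

theorem f0L5_2 {κ : ℝ} (h1 : (71/50 : ℝ) ≤ κ) (h2 : κ ≤ 37/25) :
    (757/5000 : ℝ) ≤ en 5 κ (-(11/20)) := by
  have h3 := en_ge_of_tangent (b := 5) (κ := κ) (S := 549/1000) (C := 549/1000 * (11/20) - 757/5000) (z := 11/20)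
    (by norm_num) (by linarith) (by norm_num) (by norm_num) (fun v hv =>
      num5 (k1 := 71/50) (k2 := 37/25) (V1 := 3248/10000) (V2 := 3200/10000) (E := 72615/100000)
        (by norm_num) h1 h2 (by norm_num) (by norm_num) (by norm_num) (by norm_num) (by norm_num) (by norm_num)
        (by norm_num) (by norm_num) (by norm_num) (by norm_num) hv)
  refine le_trans (le_of_eq ?_) h3
  ring

/-- class `5_3`: the left tangent -/
theorem tan5_3 {κ v : ℝ} (h1 : (37/25 : ℝ) ≤ κ) (h2 : κ ≤ 79/50)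
    (hv : (1 + κ ^ 2) * (-v) = κ * (hh 5 * (19/20))) :
    (1 + κ ^ 2) * (Mv κ v + v - 1) ≤ hh 5 ^ 2 * (233/500) :=
  num5 (k1 := 37/25) (k2 := 79/50) (V1 := 5538/10000) (V2 := 5394/10000) (E := 58312/100000)
    (by norm_num) h1 h2 (by norm_num) (by norm_num) (by norm_num) (by norm_num) (by norm_num) (by norm_num)
    (by norm_num) (by norm_num) (by norm_num) (by norm_num) hv

theorem f025_3 {κ : ℝ} (h1 : (37/25 : ℝ) ≤ κ) (h2 : κ ≤ 79/50) :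
    (2417/10000 : ℝ) ≤ en 5 κ (-(7/10)) := by
  have h3 := en_ge_of_tangent (b := 5) (κ := κ) (S := 680/1000) (C := 680/1000 * (7/10) - 2417/10000) (z := 7/10)
    (by norm_num) (by linarith) (by norm_num) (by norm_num) (fun v hv =>
      num5 (k1 := 37/25) (k2 := 79/50) (V1 := 3965/10000) (V2 := 3861/10000) (E := 67971/100000)
        (by norm_num) h1 h2 (by norm_num) (by norm_num) (by norm_num) (by norm_num) (by norm_num) (by norm_num)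
        (by norm_num) (by norm_num) (by norm_num) (by norm_num) hv)
  refine le_trans (le_of_eq ?_) h3
  ring

theorem f0L5_3 {κ : ℝ} (h1 : (37/25 : ℝ) ≤ κ) (h2 : κ ≤ 79/50) :
    (1499/10000 : ℝ) ≤ en 5 κ (-(11/20)) := by
  have h3 := en_ge_of_tangent (b := 5) (κ := κ) (S := 542/1000) (C := 542/1000 * (11/20) - 1499/10000) (z := 11/20)
    (by norm_num) (by linarith) (by norm_num) (by norm_num) (fun v hv =>
      num5 (k1 := 37/25) (k2 := 79/50) (V1 := 3160/10000) (V2 := 3077/10000) (E := 73514/100000)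
        (by norm_num) h1 h2 (by norm_num) (by norm_num) (by norm_num) (by norm_num) (by norm_num) (by norm_num)
        (by norm_num) (by norm_num) (by norm_num) (by norm_num) hv)
  refine le_trans (le_of_eq ?_) h3
  ring

end R2

end Sok
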