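import Pool.Agent.Lib.MP_816dec_an.R2Six
import Pool.Agent.Lib.MP_816dec_an.R2X5

/-!
MP_816dec_an, row R2 (6): the left numbers of the classes `c5_1`, `c5_2`, `c5_3` (`b = 5`, `κ ∈ [1.39, 1.58]`).
-/

set_option autoImplicit false

open Set Filter Topology Real

namespace Sok

namespace R2

theorem geoL5_1 {κ : ℝ} (h1 : (139 / 100 : ℝ) ≤ κ) (h2 : κ ≤ 71 / 50) : GeoL 5 κ c5_1.num where
  f02 := by
    have h := f025_1 h1 h2
    have e1 : c5_1.num.f02 = 493 / 2000 := by norm_num [c5_1, NumQ.num]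
    have e2 : c5_1.num.z2 = -(7 / 10) := by norm_num [c5_1, NumQ.num]
    rw [e1, e2]; exact h
  f0L := by
    have h := f0L5_1 h1 h2
    have e1 : c5_1.num.f0L = 381 / 2500 := by norm_num [c5_1, NumQ.num]
    have e2 : c5_1.num.qL = -(11 / 20) := by norm_num [c5_1, NumQ.num]
    rw [e1, e2]; exact h

theorem geoL5_2 {κ : ℝ} (h1 : (71 / 50 : ℝ) ≤ κ) (h2 : κ ≤ 37 / 25) : GeoL 5 κ c5_2.num where
  f02 := by
    have h := f025_2 h1 h2
    have e1 : c5_2.num.f02 = 489 / 2000 := by norm_num [c5_2, NumQ.num]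
    have e2 : c5_2.num.z2 = -(7 / 10) := by norm_num [c5_2, NumQ.num]
    rw [e1, e2]; exact h
  f0L := by
    have h := f0L5_2 h1 h2
    have e1 : c5_2.num.f0L = 757 / 5000 := by norm_num [c5_2, NumQ.num]
    have e2 : c5_2.num.qL = -(11 / 20) := by norm_num [c5_2, NumQ.num]
    rw [e1, e2]; exact h

theorem geoL5_3 {κ : ℝ} (h1 : (37 / 25 : ℝ) ≤ κ) (h2 : κ ≤ 79 / 50) : GeoL 5 κ c5_3.num where
  f02 := by
    have h := f025_3 h1 h2
    have e1 : c5_3.num.f02 = 2417 / 10000 := by norm_num [c5_3, NumQ.num]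
    have e2 : c5_3.num.z2 = -(7 / 10) := by norm_num [c5_3, NumQ.num]
    rw [e1, e2]; exact h
  f0L := by
    have h := f0L5_3 h1 h2
    have e1 : c5_3.num.f0L = 1499 / 10000 := by norm_num [c5_3, NumQ.num]
    have e2 : c5_3.num.qL = -(11 / 20) := by norm_num [c5_3, NumQ.num]
    rw [e1, e2]; exact h

/-- the left tangents, at the numbers of the class -/
theorem tanN5_1 {κ v : ℝ} (h1 : (139 / 100 : ℝ) ≤ κ) (h2 : κ ≤ 71 / 50)
    (hv : (1 + κ ^ 2) * (-v) = κ * (hh 5 * c5_1.num.Sm)) :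
    (1 + κ ^ 2) * (Mv κ v + v - 1) ≤ hh 5 ^ 2 * c5_1.num.Cm := by
  have e1 : c5_1.num.Sm = 97 / 100 := by norm_num [c5_1, NumQ.num]
  have e2 : c5_1.num.Cm = 237 / 500 := by norm_num [c5_1, NumQ.num]
  rw [e1] at hv
  rw [e2]
  exact tan5_1 h1 h2 hv

theorem tanN5_2 {κ v : ℝ} (h1 : (71 / 50 : ℝ) ≤ κ) (h2 : κ ≤ 37 / 25)
    (hv : (1 + κ ^ 2) * (-v) = κ * (hh 5 * c5_2.num.Sm)) :
    (1 + κ ^ 2) * (Mv κ v + v - 1) ≤ hh 5 ^ 2 * c5_2.num.Cm := by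
  have e1 : c5_2.num.Sm = 193 / 200 := by norm_num [c5_2, NumQ.num]
  have e2 : c5_2.num.Cm = 237 / 500 := by norm_num [c5_2, NumQ.num]
  rw [e1] at hv
  rw [e2]
  exact tan5_2 h1 h2 hv

theorem tanN5_3 {κ v : ℝ} (h1 : (37 / 25 : ℝ) ≤ κ) (h2 : κ ≤ 79 / 50)
    (hv : (1 + κ ^ 2) * (-v) = κ * (hh 5 * c5_3.num.Sm)) :
    (1 + κ ^ 2) * (Mv κ v + v - 1) ≤ hh 5 ^ 2 * c5_3.num.Cm := by
  have e1 : c5_3.num.Sm = 19 / 20 := by norm_num [c5_3, NumQ.num]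
  have e2 : c5_3.num.Cm = 233 / 500 := by norm_num [c5_3, NumQ.num]
  rw [e1] at hv
  rw [e2]
  exact tan5_3 h1 h2 hv

end R2

end Sok
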