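import Pool.Agent.Lib.MP_816dec_an.R2WWA
import Pool.Agent.Lib.MP_816dec_an.R2WEnd0
import Pool.Agent.Lib.MP_816dec_an.R2Lin
import Pool.Agent.Lib.MP_816dec_an.R2X5N
import Pool.Agent.Lib.MP_816dec_an.R2SecF

/-!
MP_816dec_an (row R2, far windows): `FarH` and `MomH` of the classes.
-/

set_option autoImplicit false

open Complex Set Filter Topology

namespace Sok.R2

private theorem wp1_1 {b : ℕ} {β r : ℝ} (hb : b = 1) (hβ : 0 < β) (hr : 10 ≤ r) (hT : c1_1.num.T0 ≤ TT b β r)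
    (h1 : (47 / 10 : ℝ) ≤ β * r) (h2 : β * r ≤ 28 / 5) : WP b β r (-1) 3 c1_1.num w1_1.wc := by
  have LD := line1_1 (b := b) (κ := β * r) (by omega) h1
  exact WP.of1 okW1_1 okP1_1 hb (by rw [hb]; norm_num [w1_1, WCQ.wc, FCQ.fc]) (Or.inr (by rw [hb]; norm_num [w1_1, WCQ.wc, FCQ.fc])) hβ hr hT
    (le_trans (by norm_num [w1_1, WCQ.wc, FCQ.fc]) h1) (le_trans h2 (by norm_num [w1_1, WCQ.wc, FCQ.fc])) ⟨_, LD.L⟩ ⟨_, LD.Lr⟩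
    (lt_of okW1_1 okT1_1 (by omega) (by rw [hb]; norm_num [w1_1, WCQ.wc, FCQ.fc]) (le_trans (by norm_num [w1_1, WCQ.wc, FCQ.fc]) h1))

theorem far1_1 {b : ℕ} {β r : ℝ} (hb : b = 1) (hβ : 0 < β) (hr : 10 ≤ r) (hT : c1_1.num.T0 ≤ TT b β r)
    (h1 : (47 / 10 : ℝ) ≤ β * r) (h2 : β * r ≤ 28 / 5) : FarH b β r (-1) 3 c1_1.num :=
  (wp1_1 hb hβ hr hT h1 h2).farH okW1_1 (fun h => absurd h (by omega))

theorem mom1_1 {b : ℕ} {β r : ℝ} (hb : b = 1) (hβ : 0 < β) (hr : 10 ≤ r) (hT : c1_1.num.T0 ≤ TT b β r)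
    (h1 : (47 / 10 : ℝ) ≤ β * r) (h2 : β * r ≤ 28 / 5) : MomH b β r (-1) 3 c1_1.num :=
  (wp1_1 hb hβ hr hT h1 h2).momH okW1_1 okM1_1 (Sg := (97 / 50)) (fun h => absurd h (by omega))
    (secF1_1 hb h1 h2)

private theorem wp1_2 {b : ℕ} {β r : ℝ} (hb : b = 1) (hβ : 0 < β) (hr : 10 ≤ r) (hT : c1_2.num.T0 ≤ TT b β r)
    (h1 : (28 / 5 : ℝ) ≤ β * r) (h2 : β * r ≤ 69 / 10) : WP b β r (-1) 3 c1_2.num w1_2.wc := by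
  have LD := line1_2 (b := b) (κ := β * r) (by omega) h1
  exact WP.of1 okW1_2 okP1_2 hb (by rw [hb]; norm_num [w1_2, WCQ.wc, FCQ.fc]) (Or.inr (by rw [hb]; norm_num [w1_2, WCQ.wc, FCQ.fc])) hβ hr hT
    (le_trans (by norm_num [w1_2, WCQ.wc, FCQ.fc]) h1) (le_trans h2 (by norm_num [w1_2, WCQ.wc, FCQ.fc])) ⟨_, LD.L⟩ ⟨_, LD.Lr⟩
    (lt_of okW1_2 okT1_2 (by omega) (by rw [hb]; norm_num [w1_2, WCQ.wc, FCQ.fc]) (le_trans (by norm_num [w1_2, WCQ.wc, FCQ.fc]) h1))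

theorem far1_2 {b : ℕ} {β r : ℝ} (hb : b = 1) (hβ : 0 < β) (hr : 10 ≤ r) (hT : c1_2.num.T0 ≤ TT b β r)
    (h1 : (28 / 5 : ℝ) ≤ β * r) (h2 : β * r ≤ 69 / 10) : FarH b β r (-1) 3 c1_2.num :=
  (wp1_2 hb hβ hr hT h1 h2).farH okW1_2 (fun h => absurd h (by omega))

theorem mom1_2 {b : ℕ} {β r : ℝ} (hb : b = 1) (hβ : 0 < β) (hr : 10 ≤ r) (hT : c1_2.num.T0 ≤ TT b β r)
    (h1 : (28 / 5 : ℝ) ≤ β * r) (h2 : β * r ≤ 69 / 10) : MomH b β r (-1) 3 c1_2.num :=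
  (wp1_2 hb hβ hr hT h1 h2).momH okW1_2 okM1_2 (Sg := (179 / 100)) (fun h => absurd h (by omega))
    (secF1_2 hb h1 h2)

private theorem wp1_3 {b : ℕ} {β r : ℝ} (hb : b = 1) (hβ : 0 < β) (hr : 10 ≤ r) (hT : c1_3.num.T0 ≤ TT b β r)
    (h1 : (69 / 10 : ℝ) ≤ β * r) (h2 : β * r ≤ 77 / 10) : WP b β r (-1) 3 c1_3.num w1_3.wc := by
  have LD := line1_3 (b := b) (κ := β * r) (by omega) h1
  exact WP.of1 okW1_3 okP1_3 hb (by rw [hb]; norm_num [w1_3, WCQ.wc, FCQ.fc]) (Or.inr (by rw [hb]; norm_num [w1_3, WCQ.wc, FCQ.fc])) hβ hr hT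
    (le_trans (by norm_num [w1_3, WCQ.wc, FCQ.fc]) h1) (le_trans h2 (by norm_num [w1_3, WCQ.wc, FCQ.fc])) ⟨_, LD.L⟩ ⟨_, LD.Lr⟩
    (lt_of okW1_3 okT1_3 (by omega) (by rw [hb]; norm_num [w1_3, WCQ.wc, FCQ.fc]) (le_trans (by norm_num [w1_3, WCQ.wc, FCQ.fc]) h1))

theorem far1_3 {b : ℕ} {β r : ℝ} (hb : b = 1) (hβ : 0 < β) (hr : 10 ≤ r) (hT : c1_3.num.T0 ≤ TT b β r)
    (h1 : (69 / 10 : ℝ) ≤ β * r) (h2 : β * r ≤ 77 / 10) : FarH b β r (-1) 3 c1_3.num :=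
  (wp1_3 hb hβ hr hT h1 h2).farH okW1_3 (fun h => absurd h (by omega))

theorem mom1_3 {b : ℕ} {β r : ℝ} (hb : b = 1) (hβ : 0 < β) (hr : 10 ≤ r) (hT : c1_3.num.T0 ≤ TT b β r)
    (h1 : (69 / 10 : ℝ) ≤ β * r) (h2 : β * r ≤ 77 / 10) : MomH b β r (-1) 3 c1_3.num :=
  (wp1_3 hb hβ hr hT h1 h2).momH okW1_3 okM1_3 (Sg := (81 / 50)) (fun h => absurd h (by omega))
    (secF1_3 hb h1 h2)

private theorem wp1_4 {b : ℕ} {β r : ℝ} (hb : b = 1) (hβ : 0 < β) (hr : 10 ≤ r) (hT : c1_4.num.T0 ≤ TT b β r)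
    (h1 : (77 / 10 : ℝ) ≤ β * r) (h2 : β * r ≤ 41 / 5) : WP b β r (-1) 3 c1_4.num w1_4.wc := by
  have LD := line1_4 (b := b) (κ := β * r) (by omega) h1
  exact WP.of1 okW1_4 okP1_4 hb (by rw [hb]; norm_num [w1_4, WCQ.wc, FCQ.fc]) (Or.inr (by rw [hb]; norm_num [w1_4, WCQ.wc, FCQ.fc])) hβ hr hT
    (le_trans (by norm_num [w1_4, WCQ.wc, FCQ.fc]) h1) (le_trans h2 (by norm_num [w1_4, WCQ.wc, FCQ.fc])) ⟨_, LD.L⟩ ⟨_, LD.Lr⟩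
    (lt_of okW1_4 okT1_4 (by omega) (by rw [hb]; norm_num [w1_4, WCQ.wc, FCQ.fc]) (le_trans (by norm_num [w1_4, WCQ.wc, FCQ.fc]) h1))

theorem far1_4 {b : ℕ} {β r : ℝ} (hb : b = 1) (hβ : 0 < β) (hr : 10 ≤ r) (hT : c1_4.num.T0 ≤ TT b β r)
    (h1 : (77 / 10 : ℝ) ≤ β * r) (h2 : β * r ≤ 41 / 5) : FarH b β r (-1) 3 c1_4.num :=
  (wp1_4 hb hβ hr hT h1 h2).farH okW1_4 (fun h => absurd h (by omega))

theorem mom1_4 {b : ℕ} {β r : ℝ} (hb : b = 1) (hβ : 0 < β) (hr : 10 ≤ r) (hT : c1_4.num.T0 ≤ TT b β r)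
    (h1 : (77 / 10 : ℝ) ≤ β * r) (h2 : β * r ≤ 41 / 5) : MomH b β r (-1) 3 c1_4.num :=
  (wp1_4 hb hβ hr hT h1 h2).momH okW1_4 okM1_4 (Sg := (39 / 25)) (fun h => absurd h (by omega))
    (secF1_4 hb h1 h2)

private theorem wp1_5 {b : ℕ} {β r : ℝ} (hb : b = 1) (hβ : 0 < β) (hr : 10 ≤ r) (hT : c1_5.num.T0 ≤ TT b β r)
    (h1 : (41 / 5 : ℝ) ≤ β * r) (h2 : β * r ≤ 19 / 2) : WP b β r (-1) 3 c1_5.num w1_5.wc := by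
  have LD := line1_5 (b := b) (κ := β * r) (by omega) h1
  exact WP.of1 okW1_5 okP1_5 hb (by rw [hb]; norm_num [w1_5, WCQ.wc, FCQ.fc]) (Or.inr (by rw [hb]; norm_num [w1_5, WCQ.wc, FCQ.fc])) hβ hr hT
    (le_trans (by norm_num [w1_5, WCQ.wc, FCQ.fc]) h1) (le_trans h2 (by norm_num [w1_5, WCQ.wc, FCQ.fc])) ⟨_, LD.L⟩ ⟨_, LD.Lr⟩
    (lt_of okW1_5 okT1_5 (by omega) (by rw [hb]; norm_num [w1_5, WCQ.wc, FCQ.fc]) (le_trans (by norm_num [w1_5, WCQ.wc, FCQ.fc]) h1))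

theorem far1_5 {b : ℕ} {β r : ℝ} (hb : b = 1) (hβ : 0 < β) (hr : 10 ≤ r) (hT : c1_5.num.T0 ≤ TT b β r)
    (h1 : (41 / 5 : ℝ) ≤ β * r) (h2 : β * r ≤ 19 / 2) : FarH b β r (-1) 3 c1_5.num :=
  (wp1_5 hb hβ hr hT h1 h2).farH okW1_5 (fun h => absurd h (by omega))

theorem mom1_5 {b : ℕ} {β r : ℝ} (hb : b = 1) (hβ : 0 < β) (hr : 10 ≤ r) (hT : c1_5.num.T0 ≤ TT b β r)
    (h1 : (41 / 5 : ℝ) ≤ β * r) (h2 : β * r ≤ 19 / 2) : MomH b β r (-1) 3 c1_5.num :=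
  (wp1_5 hb hβ hr hT h1 h2).momH okW1_5 okM1_5 (Sg := (38 / 25)) (fun h => absurd h (by omega))
    (secF1_5 hb h1 h2)

private theorem wp1_6 {b : ℕ} {β r : ℝ} (hb : b = 1) (hβ : 0 < β) (hr : 10 ≤ r) (hT : c1_6.num.T0 ≤ TT b β r)
    (h1 : (19 / 2 : ℝ) ≤ β * r) (h2 : β * r ≤ 20) : WP b β r (-1) 3 c1_6.num w1_6.wc := by
  have LD := line1_6 (b := b) (κ := β * r) (by omega) h1
  exact WP.of1 okW1_6 okP1_6 hb (by rw [hb]; norm_num [w1_6, WCQ.wc, FCQ.fc]) (Or.inr (by rw [hb]; norm_num [w1_6, WCQ.wc, FCQ.fc])) hβ hr hT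
    (le_trans (by norm_num [w1_6, WCQ.wc, FCQ.fc]) h1) (le_trans h2 (by norm_num [w1_6, WCQ.wc, FCQ.fc])) ⟨_, LD.L⟩ ⟨_, LD.Lr⟩
    (lt_of okW1_6 okT1_6 (by omega) (by rw [hb]; norm_num [w1_6, WCQ.wc, FCQ.fc]) (le_trans (by norm_num [w1_6, WCQ.wc, FCQ.fc]) h1))

theorem far1_6 {b : ℕ} {β r : ℝ} (hb : b = 1) (hβ : 0 < β) (hr : 10 ≤ r) (hT : c1_6.num.T0 ≤ TT b β r)
    (h1 : (19 / 2 : ℝ) ≤ β * r) (h2 : β * r ≤ 20) : FarH b β r (-1) 3 c1_6.num :=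
  (wp1_6 hb hβ hr hT h1 h2).farH okW1_6 (fun h => absurd h (by omega))

theorem mom1_6 {b : ℕ} {β r : ℝ} (hb : b = 1) (hβ : 0 < β) (hr : 10 ≤ r) (hT : c1_6.num.T0 ≤ TT b β r)
    (h1 : (19 / 2 : ℝ) ≤ β * r) (h2 : β * r ≤ 20) : MomH b β r (-1) 3 c1_6.num :=
  (wp1_6 hb hβ hr hT h1 h2).momH okW1_6 okM1_6 (Sg := (141 / 100)) (fun h => absurd h (by omega))
    (secF1_6 hb h1 h2)

private theorem wp2_1 {b : ℕ} {β r : ℝ} (hb : b = 2) (hβ : 0 < β) (hr : 10 ≤ r) (hT : c2_1.num.T0 ≤ TT b β r)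
    (h1 : (3 : ℝ) ≤ β * r) (h2 : β * r ≤ 7 / 2) : WP b β r (-2 * (b : ℤ) + 2) 2 c2_1.num w2_1.wc := by
  have LD := line2_1 (b := b) (κ := β * r) (by omega) h1
  exact WP.of2 okW2_1 okP2_1 (fun h => absurd h (by omega)) (by omega) (by rw [hb]; norm_num [w2_1, WCQ.wc, FCQ.fc]) (Or.inr (by rw [hb]; norm_num [w2_1, WCQ.wc, FCQ.fc])) (fun h _ => absurd h (by omega)) (fun h => absurd (by norm_num [w2_1, WCQ.wc, FCQ.fc]) h) hβ hr hT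
    (le_trans (by norm_num [w2_1, WCQ.wc, FCQ.fc]) h1) (le_trans h2 (by norm_num [w2_1, WCQ.wc, FCQ.fc])) ⟨_, LD.L⟩ ⟨_, LD.Lr⟩
    (lt_of okW2_1 okT2_1 (by omega) (by rw [hb]; norm_num [w2_1, WCQ.wc, FCQ.fc]) (le_trans (by norm_num [w2_1, WCQ.wc, FCQ.fc]) h1))

theorem far2_1 {b : ℕ} {β r : ℝ} (hb : b = 2) (hβ : 0 < β) (hr : 10 ≤ r) (hT : c2_1.num.T0 ≤ TT b β r)
    (h1 : (3 : ℝ) ≤ β * r) (h2 : β * r ≤ 7 / 2) : FarH b β r (-2 * (b : ℤ) + 2) 2 c2_1.num :=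
  (wp2_1 hb hβ hr hT h1 h2).farH okW2_1 (fun _ => okV2_1)

theorem mom2_1 {b : ℕ} {β r : ℝ} (hb : b = 2) (hβ : 0 < β) (hr : 10 ≤ r) (hT : c2_1.num.T0 ≤ TT b β r)
    (h1 : (3 : ℝ) ≤ β * r) (h2 : β * r ≤ 7 / 2) : MomH b β r (-2 * (b : ℤ) + 2) 2 c2_1.num :=
  (wp2_1 hb hβ hr hT h1 h2).momH okW2_1 okM2_1 (Sg := (44 / 25)) (fun _ => okN2_1)
    (secF2_1 hb h1 h2)

private theorem wp2_2 {b : ℕ} {β r : ℝ} (hb : b = 2) (hβ : 0 < β) (hr : 10 ≤ r) (hT : c2_2.num.T0 ≤ TT b β r)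
    (h1 : (7 / 2 : ℝ) ≤ β * r) (h2 : β * r ≤ 39 / 10) : WP b β r (-2 * (b : ℤ) + 2) 2 c2_2.num w2_2.wc := by
  have LD := line2_2 (b := b) (κ := β * r) (by omega) h1
  exact WP.of2 okW2_2 okP2_2 (fun h => absurd h (by omega)) (by omega) (by rw [hb]; norm_num [w2_2, WCQ.wc, FCQ.fc]) (Or.inr (by rw [hb]; norm_num [w2_2, WCQ.wc, FCQ.fc])) (fun h _ => absurd h (by omega)) (fun h => absurd (by norm_num [w2_2, WCQ.wc, FCQ.fc]) h) hβ hr hT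
    (le_trans (by norm_num [w2_2, WCQ.wc, FCQ.fc]) h1) (le_trans h2 (by norm_num [w2_2, WCQ.wc, FCQ.fc])) ⟨_, LD.L⟩ ⟨_, LD.Lr⟩
    (lt_of okW2_2 okT2_2 (by omega) (by rw [hb]; norm_num [w2_2, WCQ.wc, FCQ.fc]) (le_trans (by norm_num [w2_2, WCQ.wc, FCQ.fc]) h1))

theorem far2_2 {b : ℕ} {β r : ℝ} (hb : b = 2) (hβ : 0 < β) (hr : 10 ≤ r) (hT : c2_2.num.T0 ≤ TT b β r)
    (h1 : (7 / 2 : ℝ) ≤ β * r) (h2 : β * r ≤ 39 / 10) : FarH b β r (-2 * (b : ℤ) + 2) 2 c2_2.num :=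
  (wp2_2 hb hβ hr hT h1 h2).farH okW2_2 (fun _ => okV2_2)

theorem mom2_2 {b : ℕ} {β r : ℝ} (hb : b = 2) (hβ : 0 < β) (hr : 10 ≤ r) (hT : c2_2.num.T0 ≤ TT b β r)
    (h1 : (7 / 2 : ℝ) ≤ β * r) (h2 : β * r ≤ 39 / 10) : MomH b β r (-2 * (b : ℤ) + 2) 2 c2_2.num :=
  (wp2_2 hb hβ hr hT h1 h2).momH okW2_2 okM2_2 (Sg := (42 / 25)) (fun _ => okN2_2)
    (secF2_2 hb h1 h2)

private theorem wp2_3 {b : ℕ} {β r : ℝ} (hb : b = 2) (hβ : 0 < β) (hr : 10 ≤ r) (hT : c2_3.num.T0 ≤ TT b β r)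
    (h1 : (39 / 10 : ℝ) ≤ β * r) (h2 : β * r ≤ 21 / 5) : WP b β r (-2 * (b : ℤ) + 2) 2 c2_3.num w2_3.wc := by
  have LD := line2_3 (b := b) (κ := β * r) (by omega) h1
  exact WP.of2 okW2_3 okP2_3 (fun h => absurd h (by omega)) (by omega) (by rw [hb]; norm_num [w2_3, WCQ.wc, FCQ.fc]) (Or.inr (by rw [hb]; norm_num [w2_3, WCQ.wc, FCQ.fc])) (fun h _ => absurd h (by omega)) (fun h => absurd (by norm_num [w2_3, WCQ.wc, FCQ.fc]) h) hβ hr hT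
    (le_trans (by norm_num [w2_3, WCQ.wc, FCQ.fc]) h1) (le_trans h2 (by norm_num [w2_3, WCQ.wc, FCQ.fc])) ⟨_, LD.L⟩ ⟨_, LD.Lr⟩
    (lt_of okW2_3 okT2_3 (by omega) (by rw [hb]; norm_num [w2_3, WCQ.wc, FCQ.fc]) (le_trans (by norm_num [w2_3, WCQ.wc, FCQ.fc]) h1))

theorem far2_3 {b : ℕ} {β r : ℝ} (hb : b = 2) (hβ : 0 < β) (hr : 10 ≤ r) (hT : c2_3.num.T0 ≤ TT b β r)
    (h1 : (39 / 10 : ℝ) ≤ β * r) (h2 : β * r ≤ 21 / 5) : FarH b β r (-2 * (b : ℤ) + 2) 2 c2_3.num :=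
  (wp2_3 hb hβ hr hT h1 h2).farH okW2_3 (fun _ => okV2_3)

theorem mom2_3 {b : ℕ} {β r : ℝ} (hb : b = 2) (hβ : 0 < β) (hr : 10 ≤ r) (hT : c2_3.num.T0 ≤ TT b β r)
    (h1 : (39 / 10 : ℝ) ≤ β * r) (h2 : β * r ≤ 21 / 5) : MomH b β r (-2 * (b : ℤ) + 2) 2 c2_3.num :=
  (wp2_3 hb hβ hr hT h1 h2).momH okW2_3 okM2_3 (Sg := (161 / 100)) (fun _ => okN2_3)
    (secF2_3 hb h1 h2)

private theorem wp2_4 {b : ℕ} {β r : ℝ} (hb : b = 2) (hβ : 0 < β) (hr : 10 ≤ r) (hT : c2_4.num.T0 ≤ TT b β r)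
    (h1 : (21 / 5 : ℝ) ≤ β * r) (h2 : β * r ≤ 20) : WP b β r (-2 * (b : ℤ) + 2) 2 c2_4.num w2_4.wc := by
  have LD := line2_4 (b := b) (κ := β * r) (by omega) h1
  exact WP.of2 okW2_4 okP2_4 (fun h => absurd h (by omega)) (by omega) (by rw [hb]; norm_num [w2_4, WCQ.wc, FCQ.fc]) (Or.inr (by rw [hb]; norm_num [w2_4, WCQ.wc, FCQ.fc])) (fun h _ => absurd h (by omega)) (fun h => absurd (by norm_num [w2_4, WCQ.wc, FCQ.fc]) h) hβ hr hT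
    (le_trans (by norm_num [w2_4, WCQ.wc, FCQ.fc]) h1) (le_trans h2 (by norm_num [w2_4, WCQ.wc, FCQ.fc])) ⟨_, LD.L⟩ ⟨_, LD.Lr⟩
    (lt_of okW2_4 okT2_4 (by omega) (by rw [hb]; norm_num [w2_4, WCQ.wc, FCQ.fc]) (le_trans (by norm_num [w2_4, WCQ.wc, FCQ.fc]) h1))

theorem far2_4 {b : ℕ} {β r : ℝ} (hb : b = 2) (hβ : 0 < β) (hr : 10 ≤ r) (hT : c2_4.num.T0 ≤ TT b β r)
    (h1 : (21 / 5 : ℝ) ≤ β * r) (h2 : β * r ≤ 20) : FarH b β r (-2 * (b : ℤ) + 2) 2 c2_4.num :=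
  (wp2_4 hb hβ hr hT h1 h2).farH okW2_4 (fun _ => okV2_4)

theorem mom2_4 {b : ℕ} {β r : ℝ} (hb : b = 2) (hβ : 0 < β) (hr : 10 ≤ r) (hT : c2_4.num.T0 ≤ TT b β r)
    (h1 : (21 / 5 : ℝ) ≤ β * r) (h2 : β * r ≤ 20) : MomH b β r (-2 * (b : ℤ) + 2) 2 c2_4.num :=
  (wp2_4 hb hβ hr hT h1 h2).momH okW2_4 okM2_4 (Sg := (159 / 100)) (fun _ => okN2_4)
    (secF2_4 hb h1 h2)

end Sok.R2
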