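import Pool.Agent.Lib.MP_816dec_an.R2WQ
import Pool.Agent.Lib.MP_816dec_an.R2Cls

/-!
MP_816dec_an (row R2, far windows): the numbers of the far windows, `b = 4, 5`; each condition by one kernel computation.
-/

set_option autoImplicit false

namespace Sok.R2

/-- far numbers of `c4_1` -/
def w4_1 : WCQ where
  R := {
    k1 := 139 / 100, k2 := 3 / 2, T0 := 949 / 125, R0 := 10, b1 := 4, S := 123 / 200,
    A := 111 / 100, J1 := 1981 / 10000, sR := 1577 / 1250, E := 253 / 400, η1 := 659 / 2000, ξ := 2699 / 5000,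
    x0 := 11 / 20, α := 507 / 2500, x1 := 11 / 20, α' := 3177 / 10000, s1 := 8059 / 10000, s2 := 7109 / 10000,
    X1 := 1411 / 10000, X2 := 8367 / 100000, zE := 1791 / 1000000, oE := 329 / 2500, lE := 1043 / 25000, Q := 1937 / 250000000000,
    UQ := 1 / 50000000 }
  L := {
    k1 := 139 / 100, k2 := 3 / 2, T0 := 949 / 125, R0 := 10, b1 := 4, S := 133 / 200,
    A := 111 / 100, J1 := 1981 / 10000, sR := 1577 / 1250, E := 16193 / 10000, η1 := 3563 / 10000, ξ := 3949 / 2500,
    x0 := 11 / 50, α := 10989 / 10000, x1 := 11 / 50, α' := 10793 / 5000, s1 := 4337 / 10000, s2 := 1039 / 2500,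
    X1 := 6187 / 5000000, X2 := 7033 / 10000000, zE := 9279 / 100000000000, oE := 16887 / 1000000000, lE := 4241 / 10000000000000, Q := 3399 / 2000000000000,
    UQ := 1 / 100000000 }
  Q := {
    k1 := 139 / 100, k2 := 3 / 2, T0 := 949 / 125, R0 := 10, b1 := 4, S := 559 / 1000,
    A := 111 / 100, J1 := 1981 / 10000, sR := 1577 / 1250, E := 3297 / 5000, η1 := 599 / 2000, ξ := 2937 / 5000,
    x0 := 47 / 100, α := 1291 / 5000, x1 := 47 / 100, α' := 4471 / 10000, s1 := 151 / 200, s2 := 3407 / 5000,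
    X1 := 10811 / 100000, X2 := 6723 / 100000, zE := 6843 / 5000000, oE := 7563 / 100000, lE := 2859 / 250000, Q := 4243 / 100000000000,
    UQ := 3 / 50000000 }
  h0 := 15707 / 10000
  v1 := 229 / 500
  vr := 4163 / 10000
  V0 := 241 / 500
  U := 2391 / 1000
  Uq := 381 / 200
  χ6 := 613 / 2000
  χq := 1693 / 2500
  χr := 613 / 2000
  P5 := 1
  θ := 1 / 2
  Tr := 263 / 625
  g6 := 3857 / 10000
  gq := 1891 / 2500
  gr := 79 / 80
  gm := 1149 / 1250
  e6 := 1057 / 50000
  eq := 1297 / 2500000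
  er := 1029 / 20000000
  em := 5093 / 50000000
  qm := 3399 / 2000000000000
  um := 3927 / 62500000000

theorem okW4_1 : w4_1.wc.Ok c4_1.num :=
  wokB_ok (W := w4_1) (N := c4_1) (by decide +kernel) (fokB_ok (N := w4_1.R) (by decide +kernel))
    (fokB_ok (N := w4_1.L) (by decide +kernel)) (fokB_ok (N := w4_1.Q) (by decide +kernel))

theorem okV4_1 : w4_1.wc.Ok3 c4_1.num := wok3B_ok (W := w4_1) (N := c4_1) (by decide +kernel)

theorem okM4_1 : w4_1.wc.OkM c4_1.num (101 / 50) (191 / 100) := by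
  have h := wokMB_ok (W := w4_1) (N := c4_1) (D2 := 101 / 50) (Dm := 191 / 100) (by decide +kernel)
  push_cast at h
  exact h

theorem okN4_1 : w4_1.wc.OkM3 c4_1.num (101 / 50) (191 / 100) (201 / 100) := by
  have h := wokM3B_ok (W := w4_1) (N := c4_1) (D2 := 101 / 50) (Dm := 191 / 100) (Sg := 201 / 100) (by decide +kernel)
  push_cast at h
  exact h

theorem okP4_1 : w4_1.wc.OkP c4_1.num := wokPB_ok (W := w4_1) (N := c4_1) (by decide +kernel)

theorem okR4_1 : w4_1.wc.OkR := wokRB_ok (W := w4_1) (by decide +kernel)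

theorem okT4_1 : w4_1.wc.OkT c4_1.num (113007 / 100000) (10600853 / 5000000) := by
  have h := wokTB_ok (W := w4_1) (N := c4_1) (H1 := 113007 / 100000) (X3 := 10600853 / 5000000) (by decide +kernel)
  push_cast at h
  exact h

/-- far numbers of `c4_2` -/
def w4_2 : WCQ where
  R := {
    k1 := 3 / 2, k2 := 8 / 5, T0 := 693 / 100, R0 := 10, b1 := 4, S := 1283 / 2000,
    A := 10963 / 10000, J1 := 1997 / 10000, sR := 1577 / 1250, E := 157 / 250, η1 := 3101 / 10000, ξ := 273 / 500,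
    x0 := 13 / 25, α := 2191 / 10000, x1 := 13 / 25, α' := 9 / 25, s1 := 1587 / 2000, s2 := 1767 / 2500,
    X1 := 6649 / 50000, X2 := 2033 / 25000, zE := 3747 / 2000000, oE := 11181 / 100000, lE := 2733 / 100000, Q := 18937 / 1000000000000,
    UQ := 3 / 100000000 }
  L := {
    k1 := 3 / 2, k2 := 8 / 5, T0 := 693 / 100, R0 := 10, b1 := 4, S := 17 / 25,
    A := 10963 / 10000, J1 := 1997 / 10000, sR := 1577 / 1250, E := 202 / 125, η1 := 3287 / 10000, ξ := 7911 / 5000,
    x0 := 1 / 5, α := 2833 / 2500, x1 := 1 / 5, α' := 2791 / 1250, s1 := 4319 / 10000, s2 := 519 / 1250,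
    X1 := 1463 / 1250000, X2 := 6949 / 10000000, zE := 959 / 10000000000, oE := 749 / 62500000, lE := 1013 / 5000000000000, Q := 1629 / 250000000000,
    UQ := 1 / 100000000 }
  Q := {
    k1 := 3 / 2, k2 := 8 / 5, T0 := 693 / 100, R0 := 10, b1 := 4, S := 581 / 1000,
    A := 10963 / 10000, J1 := 1997 / 10000, sR := 1577 / 1250, E := 6561 / 10000, η1 := 2809 / 10000, ξ := 5929 / 10000,
    x0 := 11 / 25, α := 2759 / 10000, x1 := 11 / 25, α' := 1227 / 2500, s1 := 1491 / 2000, s2 := 6783 / 10000,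
    X1 := 5117 / 50000, X2 := 1311 / 20000, zE := 2829 / 2000000, oE := 198 / 3125, lE := 1847 / 250000, Q := 10129 / 100000000000,
    UQ := 3 / 20000000 }
  h0 := 15707 / 10000
  v1 := 4651 / 10000
  vr := 4213 / 10000
  V0 := 12 / 25
  U := 1071 / 500
  Uq := 1697 / 1000
  χ6 := 2551 / 5000
  χq := 847 / 1250
  χr := 2551 / 5000
  P5 := 1
  θ := 1 / 2
  Tr := 3797 / 10000
  g6 := 1261 / 2000
  gq := 7979 / 10000
  gr := 97 / 80
  gm := 9603 / 10000
  e6 := 571 / 312500
  eq := 1713 / 5000000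
  er := 5423 / 1000000000
  em := 6753 / 100000000
  qm := 1629 / 250000000000
  um := 3927 / 62500000000

theorem okW4_2 : w4_2.wc.Ok c4_2.num :=
  wokB_ok (W := w4_2) (N := c4_2) (by decide +kernel) (fokB_ok (N := w4_2.R) (by decide +kernel))
    (fokB_ok (N := w4_2.L) (by decide +kernel)) (fokB_ok (N := w4_2.Q) (by decide +kernel))

theorem okV4_2 : w4_2.wc.Ok3 c4_2.num := wok3B_ok (W := w4_2) (N := c4_2) (by decide +kernel)

theorem okM4_2 : w4_2.wc.OkM c4_2.num (93 / 50) (181 / 100) := by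
  have h := wokMB_ok (W := w4_2) (N := c4_2) (D2 := 93 / 50) (Dm := 181 / 100) (by decide +kernel)
  push_cast at h
  exact h

theorem okN4_2 : w4_2.wc.OkM3 c4_2.num (93 / 50) (181 / 100) (48 / 25) := by
  have h := wokM3B_ok (W := w4_2) (N := c4_2) (D2 := 93 / 50) (Dm := 181 / 100) (Sg := 48 / 25) (by decide +kernel)
  push_cast at h
  exact h

theorem okP4_2 : w4_2.wc.OkP c4_2.num := wokPB_ok (W := w4_2) (N := c4_2) (by decide +kernel)

theorem okR4_2 : w4_2.wc.OkR := wokRB_ok (W := w4_2) (by decide +kernel)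

theorem okT4_2 : w4_2.wc.OkT c4_2.num (523599 / 500000) (20382563 / 10000000) := by
  have h := wokTB_ok (W := w4_2) (N := c4_2) (H1 := 523599 / 500000) (X3 := 20382563 / 10000000) (by decide +kernel)
  push_cast at h
  exact h

/-- far numbers of `c4_3` -/
def w4_3 : WCQ where
  R := {
    k1 := 8 / 5, k2 := 433 / 250, T0 := 771 / 125, R0 := 10, b1 := 4, S := 1447 / 2000,
    A := 543 / 500, J1 := 1029 / 5000, sR := 1577 / 1250, E := 3 / 5, η1 := 3193 / 10000, ξ := 5079 / 10000,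
    x0 := 14 / 25, α := 116 / 625, x1 := 14 / 25, α' := 71 / 250, s1 := 1043 / 1250, s2 := 458 / 625,
    X1 := 4019 / 25000, X2 := 1211 / 12500, zE := 2479 / 1000000, oE := 1563 / 10000, lE := 5843 / 100000, Q := 553 / 31250000000,
    UQ := 3 / 100000000 }
  L := {
    k1 := 8 / 5, k2 := 433 / 250, T0 := 771 / 125, R0 := 10, b1 := 4, S := 139 / 200,
    A := 543 / 500, J1 := 1029 / 5000, sR := 1577 / 1250, E := 16041 / 10000, η1 := 3067 / 10000, ξ := 3149 / 2000,
    x0 := 19 / 100, α := 11517 / 10000, x1 := 19 / 100, α' := 1137 / 500, s1 := 2159 / 5000, s2 := 2081 / 5000,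
    X1 := 1171 / 1000000, X2 := 7199 / 10000000, zE := 5401 / 50000000000, oE := 249 / 25000000, lE := 2689 / 20000000000000, Q := 143 / 4000000000,
    UQ := 3 / 50000000 }
  Q := {
    k1 := 8 / 5, k2 := 433 / 250, T0 := 771 / 125, R0 := 10, b1 := 4, S := 1201 / 2000,
    A := 543 / 500, J1 := 1029 / 5000, sR := 1577 / 1250, E := 409 / 625, η1 := 53 / 200, ξ := 5983 / 10000,
    x0 := 21 / 50, α := 117 / 400, x1 := 21 / 50, α' := 5307 / 10000, s1 := 1843 / 2500, s2 := 422 / 625,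
    X1 := 1947 / 20000, X2 := 1279 / 20000, zE := 3597 / 2500000, oE := 5367 / 100000, lE := 4957 / 1000000, Q := 3679 / 10000000000,
    UQ := 11 / 20000000 }
  h0 := 15707 / 10000
  v1 := 1277 / 2500
  vr := 53 / 125
  V0 := 2363 / 5000
  U := 973 / 500
  Uq := 769 / 500
  χ6 := 6503 / 10000
  χq := 6611 / 10000
  χr := 6503 / 10000
  P5 := 1
  θ := 1 / 2
  Tr := 1733 / 5000
  g6 := 8037 / 10000
  gq := 1629 / 2000
  gr := 13709 / 10000
  gm := 4967 / 5000
  e6 := 3233 / 10000000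
  eq := 1451 / 5000000
  er := 2781 / 2500000000
  em := 97 / 2000000
  qm := 143 / 4000000000
  um := 11781 / 31250000000

theorem okW4_3 : w4_3.wc.Ok c4_3.num :=
  wokB_ok (W := w4_3) (N := c4_3) (by decide +kernel) (fokB_ok (N := w4_3.R) (by decide +kernel))
    (fokB_ok (N := w4_3.L) (by decide +kernel)) (fokB_ok (N := w4_3.Q) (by decide +kernel))

theorem okV4_3 : w4_3.wc.Ok3 c4_3.num := wok3B_ok (W := w4_3) (N := c4_3) (by decide +kernel)

theorem okM4_3 : w4_3.wc.OkM c4_3.num (41 / 25) (7 / 4) := by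
  have h := wokMB_ok (W := w4_3) (N := c4_3) (D2 := 41 / 25) (Dm := 7 / 4) (by decide +kernel)
  push_cast at h
  exact h

theorem okN4_3 : w4_3.wc.OkM3 c4_3.num (41 / 25) (7 / 4) (187 / 100) := by
  have h := wokM3B_ok (W := w4_3) (N := c4_3) (D2 := 41 / 25) (Dm := 7 / 4) (Sg := 187 / 100) (by decide +kernel)
  push_cast at h
  exact h

theorem okP4_3 : w4_3.wc.OkP c4_3.num := wokPB_ok (W := w4_3) (N := c4_3) (by decide +kernel)

theorem okR4_3 : w4_3.wc.OkR := wokRB_ok (W := w4_3) (by decide +kernel)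

theorem okT4_3 : w4_3.wc.OkT c4_3.num (245437 / 250000) (19784523 / 10000000) := by
  have h := wokTB_ok (W := w4_3) (N := c4_3) (H1 := 245437 / 250000) (X3 := 19784523 / 10000000) (by decide +kernel)
  push_cast at h
  exact h

/-- far numbers of `c4_4` -/
def w4_4 : WCQ where
  R := {
    k1 := 433 / 250, k2 := 91 / 50, T0 := 5721 / 1000, R0 := 10, b1 := 4, S := 19 / 25,
    A := 5373 / 5000, J1 := 207 / 1000, sR := 1577 / 1250, E := 5963 / 10000, η1 := 597 / 2000, ξ := 2581 / 5000,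
    x0 := 13 / 25, α := 1019 / 5000, x1 := 13 / 25, α' := 207 / 625, s1 := 409 / 500, s2 := 7269 / 10000,
    X1 := 3743 / 25000, X2 := 4663 / 50000, zE := 2573 / 1000000, oE := 13029 / 100000, lE := 729 / 20000, Q := 2799 / 100000000000,
    UQ := 1 / 20000000 }
  L := {
    k1 := 433 / 250, k2 := 91 / 50, T0 := 5721 / 1000, R0 := 10, b1 := 4, S := 71 / 100,
    A := 5373 / 5000, J1 := 207 / 1000, sR := 1577 / 1250, E := 16009 / 10000, η1 := 2789 / 10000, ξ := 3941 / 2500,
    x0 := 9 / 50, α := 11871 / 10000, x1 := 9 / 50, α' := 23499 / 10000, s1 := 4301 / 10000, s2 := 52 / 125,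
    X1 := 11107 / 10000000, X2 := 7137 / 10000000, zE := 11153 / 100000000000, oE := 6991 / 1000000000, lE := 633 / 10000000000000, Q := 4393 / 50000000000,
    UQ := 7 / 50000000 }
  Q := {
    k1 := 433 / 250, k2 := 91 / 50, T0 := 5721 / 1000, R0 := 10, b1 := 4, S := 313 / 500,
    A := 5373 / 5000, J1 := 207 / 1000, sR := 1577 / 1250, E := 1633 / 2500, η1 := 2459 / 10000, ξ := 6051 / 10000,
    x0 := 39 / 100, α := 3137 / 10000, x1 := 39 / 100, α' := 5807 / 10000, s1 := 7273 / 10000, s2 := 3357 / 5000,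
    X1 := 4577 / 50000, X2 := 3099 / 50000, zE := 14561 / 10000000, oE := 2171 / 50000, lE := 3007 / 1000000, Q := 3003 / 5000000000,
    UQ := 91 / 100000000 }
  h0 := 15707 / 10000
  v1 := 517 / 1000
  vr := 2129 / 5000
  V0 := 2353 / 5000
  U := 1721 / 1000
  Uq := 1349 / 1000
  χ6 := 6589 / 10000
  χq := 6589 / 10000
  χr := 173 / 250
  P5 := 1
  θ := 1 / 2
  Tr := 617 / 2000
  g6 := 1063 / 1250
  gq := 1063 / 1250
  gr := 1793 / 1250
  gm := 2063 / 2000
  e6 := 2027 / 10000000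
  eq := 2027 / 10000000
  er := 1179 / 2000000000
  em := 1657 / 50000000
  qm := 4393 / 50000000000
  um := 27489 / 31250000000

theorem okW4_4 : w4_4.wc.Ok c4_4.num :=
  wokB_ok (W := w4_4) (N := c4_4) (by decide +kernel) (fokB_ok (N := w4_4.R) (by decide +kernel))
    (fokB_ok (N := w4_4.L) (by decide +kernel)) (fokB_ok (N := w4_4.Q) (by decide +kernel))

theorem okV4_4 : w4_4.wc.Ok3 c4_4.num := wok3B_ok (W := w4_4) (N := c4_4) (by decide +kernel)

theorem okM4_4 : w4_4.wc.OkM c4_4.num (149 / 100) (167 / 100) := by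
  have h := wokMB_ok (W := w4_4) (N := c4_4) (D2 := 149 / 100) (Dm := 167 / 100) (by decide +kernel)
  push_cast at h
  exact h

theorem okN4_4 : w4_4.wc.OkM3 c4_4.num (149 / 100) (167 / 100) (9 / 5) := by
  have h := wokM3B_ok (W := w4_4) (N := c4_4) (D2 := 149 / 100) (Dm := 167 / 100) (Sg := 9 / 5) (by decide +kernel)
  push_cast at h
  exact h

theorem okP4_4 : w4_4.wc.OkP c4_4.num := wokPB_ok (W := w4_4) (N := c4_4) (by decide +kernel)

theorem okR4_4 : w4_4.wc.OkR := wokRB_ok (W := w4_4) (by decide +kernel)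

theorem okT4_4 : w4_4.wc.OkT c4_4.num (906927 / 1000000) (9519631 / 5000000) := by
  have h := wokTB_ok (W := w4_4) (N := c4_4) (H1 := 906927 / 1000000) (X3 := 9519631 / 5000000) (by decide +kernel)
  push_cast at h
  exact h

/-- far numbers of `c4_5` -/
def w4_5 : WCQ where
  R := {
    k1 := 91 / 50, k2 := 19 / 10, T0 := 5441 / 1000, R0 := 10, b1 := 4, S := 313 / 400,
    A := 5341 / 5000, J1 := 417 / 2000, sR := 1577 / 1250, E := 372 / 625, η1 := 2851 / 10000, ξ := 653 / 1250,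
    x0 := 1 / 2, α := 217 / 1000, x1 := 1 / 2, α' := 911 / 2500, s1 := 8071 / 10000, s2 := 3613 / 5000,
    X1 := 2849 / 20000, X2 := 1133 / 12500, zE := 2601 / 1000000, oE := 5709 / 50000, lE := 523 / 20000, Q := 4017 / 100000000000,
    UQ := 7 / 100000000 }
  L := {
    k1 := 91 / 50, k2 := 19 / 10, T0 := 5441 / 1000, R0 := 10, b1 := 4, S := 18 / 25,
    A := 5341 / 5000, J1 := 417 / 2000, sR := 1577 / 1250, E := 996 / 625, η1 := 2623 / 10000, ξ := 7859 / 5000,
    x0 := 17 / 100, α := 12031 / 10000, x1 := 17 / 100, α' := 23847 / 10000, s1 := 2149 / 5000, s2 := 2083 / 5000,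
    X1 := 221 / 200000, X2 := 7289 / 10000000, zE := 5999 / 50000000000, oE := 5957 / 1000000000, lE := 897 / 20000000000000, Q := 15653 / 100000000000,
    UQ := 1 / 4000000 }
  Q := {
    k1 := 91 / 50, k2 := 19 / 10, T0 := 5441 / 1000, R0 := 10, b1 := 4, S := 1281 / 2000,
    A := 5341 / 5000, J1 := 417 / 2000, sR := 1577 / 1250, E := 6539 / 10000, η1 := 1167 / 5000, ξ := 1527 / 2500,
    x0 := 9 / 25, α := 3293 / 10000, x1 := 9 / 25, α' := 3083 / 5000, s1 := 3601 / 5000, s2 := 6683 / 10000,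
    X1 := 4371 / 50000, X2 := 3019 / 50000, zE := 723 / 500000, oE := 743 / 20000, lE := 21 / 10000, Q := 8831 / 10000000000,
    UQ := 137 / 100000000 }
  h0 := 15707 / 10000
  v1 := 1297 / 2500
  vr := 4247 / 10000
  V0 := 233 / 500
  U := 159 / 100
  Uq := 309 / 250
  χ6 := 3291 / 5000
  χq := 3291 / 5000
  χr := 6923 / 10000
  P5 := 1
  θ := 1 / 2
  Tr := 2861 / 10000
  g6 := 8721 / 10000
  gq := 8721 / 10000
  gr := 1811 / 1250
  gm := 10539 / 10000
  e6 := 16313 / 100000000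
  eq := 16313 / 100000000
  er := 1021 / 2000000000
  em := 2649 / 100000000
  qm := 15653 / 100000000000
  um := 3927 / 2500000000

theorem okW4_5 : w4_5.wc.Ok c4_5.num :=
  wokB_ok (W := w4_5) (N := c4_5) (by decide +kernel) (fokB_ok (N := w4_5.R) (by decide +kernel))
    (fokB_ok (N := w4_5.L) (by decide +kernel)) (fokB_ok (N := w4_5.Q) (by decide +kernel))

theorem okV4_5 : w4_5.wc.Ok3 c4_5.num := wok3B_ok (W := w4_5) (N := c4_5) (by decide +kernel)

theorem okM4_5 : w4_5.wc.OkM c4_5.num (137 / 100) (39 / 25) := by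
  have h := wokMB_ok (W := w4_5) (N := c4_5) (D2 := 137 / 100) (Dm := 39 / 25) (by decide +kernel)
  push_cast at h
  exact h

theorem okN4_5 : w4_5.wc.OkM3 c4_5.num (137 / 100) (39 / 25) (173 / 100) := by
  have h := wokM3B_ok (W := w4_5) (N := c4_5) (D2 := 137 / 100) (Dm := 39 / 25) (Sg := 173 / 100) (by decide +kernel)
  push_cast at h
  exact h

theorem okP4_5 : w4_5.wc.OkP c4_5.num := wokPB_ok (W := w4_5) (N := c4_5) (by decide +kernel)

theorem okR4_5 : w4_5.wc.OkR := wokRB_ok (W := w4_5) (by decide +kernel)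

theorem okT4_5 : w4_5.wc.OkT c4_5.num (34523 / 40000) (3723117 / 2000000) := by
  have h := wokTB_ok (W := w4_5) (N := c4_5) (H1 := 34523 / 40000) (X3 := 3723117 / 2000000) (by decide +kernel)
  push_cast at h
  exact h

/-- far numbers of `c4_6` -/
def w4_6 : WCQ where
  R := {
    k1 := 19 / 10, k2 := 23 / 10, T0 := 5441 / 1000, R0 := 254 / 25, b1 := 4, S := 347 / 400,
    A := 10631 / 10000, J1 := 411 / 2000, sR := 12717 / 10000, E := 2851 / 5000, η1 := 739 / 2500, ξ := 39 / 80,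
    x0 := 27 / 50, α := 1843 / 10000, x1 := 27 / 50, α' := 1451 / 5000, s1 := 1059 / 1250, s2 := 187 / 250,
    X1 := 16529 / 100000, X2 := 5133 / 50000, zE := 3049 / 1000000, oE := 123 / 800, lE := 5243 / 100000, Q := 79 / 12500000000,
    UQ := 1 / 50000000 }
  L := {
    k1 := 19 / 10, k2 := 23 / 10, T0 := 5441 / 1000, R0 := 254 / 25, b1 := 4, S := 29 / 40,
    A := 10631 / 10000, J1 := 411 / 2000, sR := 12717 / 10000, E := 15163 / 10000, η1 := 2471 / 10000, ξ := 187 / 125,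
    x0 := 4 / 25, α := 11483 / 10000, x1 := 4 / 25, α' := 5691 / 2500, s1 := 881 / 2000, s2 := 427 / 1000,
    X1 := 861 / 625000, X2 := 9251 / 10000000, zE := 51 / 250000000, oE := 343 / 40000000, lE := 1143 / 12500000000000, Q := 14039 / 100000000000,
    UQ := 1 / 4000000 }
  Q := {
    k1 := 19 / 10, k2 := 23 / 10, T0 := 5441 / 1000, R0 := 254 / 25, b1 := 4, S := 653 / 1000,
    A := 10631 / 10000, J1 := 411 / 2000, sR := 12717 / 10000, E := 819 / 1250, η1 := 1113 / 5000, ξ := 3081 / 5000,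
    x0 := 7 / 20, α := 3437 / 10000, x1 := 7 / 20, α' := 1623 / 2500, s1 := 7139 / 10000, s2 := 6653 / 10000,
    X1 := 8057 / 100000, X2 := 5629 / 100000, zE := 12853 / 10000000, oE := 609 / 20000, lE := 683 / 500000, Q := 841 / 1250000000,
    UQ := 59 / 50000000 }
  h0 := 15707 / 10000
  v1 := 5617 / 10000
  vr := 1057 / 2500
  V0 := 4163 / 10000
  U := 1481 / 1000
  Uq := 573 / 500
  χ6 := 1607 / 2500
  χq := 1607 / 2500
  χr := 6931 / 10000
  P5 := 1
  θ := 1 / 2
  Tr := 2677 / 10000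
  g6 := 8751 / 10000
  gq := 8751 / 10000
  gr := 2923 / 2000
  gm := 10723 / 10000
  e6 := 6881 / 50000000
  eq := 6881 / 50000000
  er := 3559 / 10000000000
  em := 18559 / 1000000000
  qm := 14039 / 100000000000
  um := 3927 / 2500000000

theorem okW4_6 : w4_6.wc.Ok c4_6.num :=
  wokB_ok (W := w4_6) (N := c4_6) (by decide +kernel) (fokB_ok (N := w4_6.R) (by decide +kernel))
    (fokB_ok (N := w4_6.L) (by decide +kernel)) (fokB_ok (N := w4_6.Q) (by decide +kernel))

theorem okV4_6 : w4_6.wc.Ok3 c4_6.num := wok3B_ok (W := w4_6) (N := c4_6) (by decide +kernel)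

theorem okM4_6 : w4_6.wc.OkM c4_6.num (7 / 5) (8 / 5) := by
  have h := wokMB_ok (W := w4_6) (N := c4_6) (D2 := 7 / 5) (Dm := 8 / 5) (by decide +kernel)
  push_cast at h
  exact h

theorem okN4_6 : w4_6.wc.OkM3 c4_6.num (7 / 5) (8 / 5) (7 / 4) := by
  have h := wokM3B_ok (W := w4_6) (N := c4_6) (D2 := 7 / 5) (Dm := 8 / 5) (Sg := 7 / 4) (by decide +kernel)
  push_cast at h
  exact h

theorem okP4_6 : w4_6.wc.OkP c4_6.num := wokPB_ok (W := w4_6) (N := c4_6) (by decide +kernel)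

theorem okR4_6 : w4_6.wc.OkR := wokRB_ok (W := w4_6) (by decide +kernel)

theorem okT4_6 : w4_6.wc.OkT c4_6.num (165347 / 200000) (18209947 / 10000000) := by
  have h := wokTB_ok (W := w4_6) (N := c4_6) (H1 := 165347 / 200000) (X3 := 18209947 / 10000000) (by decide +kernel)
  push_cast at h
  exact h

/-- far numbers of `c4_7` -/
def w4_7 : WCQ where
  R := {
    k1 := 23 / 10, k2 := 20, T0 := 5441 / 1000, R0 := 1387 / 100, b1 := 4, S := 1917 / 2000,
    A := 10443 / 10000, J1 := 487 / 2500, sR := 7429 / 5000, E := 2883 / 5000, η1 := 1197 / 5000, ξ := 1049 / 2000,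
    x0 := 43 / 100, α := 251 / 1000, x1 := 43 / 100, α' := 903 / 2000, s1 := 987 / 1250, s2 := 7211 / 10000,
    X1 := 299 / 5000, X2 := 883 / 25000, zE := 841 / 2500000, oE := 3077 / 100000, lE := 19069 / 10000000, Q := 8741 / 10000000000000,
    UQ := 1 / 50000000 }
  L := {
    k1 := 23 / 10, k2 := 20, T0 := 5441 / 1000, R0 := 1387 / 100, b1 := 4, S := 19 / 25,
    A := 10443 / 10000, J1 := 487 / 2500, sR := 7429 / 5000, E := 10613 / 10000, η1 := 949 / 5000, ξ := 10441 / 10000,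
    x0 := 9 / 50, α := 7801 / 10000, x1 := 9 / 50, α' := 15433 / 10000, s1 := 5289 / 10000, s2 := 5111 / 10000,
    X1 := 19533 / 10000000, X2 := 6433 / 5000000, zE := 4047 / 10000000000, oE := 4999 / 250000000, lE := 5077 / 10000000000000, Q := 1311 / 20000000000,
    UQ := 21 / 25000000 }
  Q := {
    k1 := 23 / 10, k2 := 20, T0 := 5441 / 1000, R0 := 1387 / 100, b1 := 4, S := 1387 / 2000,
    A := 10443 / 10000, J1 := 487 / 2500, sR := 7429 / 5000, E := 6713 / 10000, η1 := 433 / 2500, ξ := 1297 / 2000,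
    x0 := 13 / 50, α := 4217 / 10000, x1 := 13 / 50, α' := 8209 / 10000, s1 := 273 / 400, s2 := 1297 / 2000,
    X1 := 469 / 20000, X2 := 801 / 50000, zE := 2261 / 25000000, oE := 2883 / 1000000, lE := 2271 / 200000000, Q := 2787 / 10000000000,
    UQ := 89 / 25000000 }
  h0 := 15707 / 10000
  v1 := 2753 / 5000
  vr := 249 / 625
  V0 := 119 / 2000
  U := 1049 / 1000
  Uq := 1
  χ6 := 1617 / 2500
  χq := 1617 / 2500
  χr := 7019 / 10000
  P5 := 1
  θ := 1 / 2
  Tr := 981 / 5000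
  g6 := 4753 / 5000
  gq := 4753 / 5000
  gr := 15247 / 10000
  gm := 5719 / 5000
  e6 := 1879 / 1000000000
  eq := 1879 / 1000000000
  er := 3283 / 5000000000000
  em := 12887 / 100000000000
  qm := 1311 / 20000000000
  um := 82467 / 15625000000

theorem okW4_7 : w4_7.wc.Ok c4_7.num :=
  wokB_ok (W := w4_7) (N := c4_7) (by decide +kernel) (fokB_ok (N := w4_7.R) (by decide +kernel))
    (fokB_ok (N := w4_7.L) (by decide +kernel)) (fokB_ok (N := w4_7.Q) (by decide +kernel))

theorem okV4_7 : w4_7.wc.Ok3 c4_7.num := wok3B_ok (W := w4_7) (N := c4_7) (by decide +kernel)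

theorem okM4_7 : w4_7.wc.OkM c4_7.num (103 / 50) (179 / 100) := by
  have h := wokMB_ok (W := w4_7) (N := c4_7) (D2 := 103 / 50) (Dm := 179 / 100) (by decide +kernel)
  push_cast at h
  exact h

theorem okN4_7 : w4_7.wc.OkM3 c4_7.num (103 / 50) (179 / 100) (183 / 100) := by
  have h := wokM3B_ok (W := w4_7) (N := c4_7) (D2 := 103 / 50) (Dm := 179 / 100) (Sg := 183 / 100) (by decide +kernel)
  push_cast at h
  exact h

theorem okP4_7 : w4_7.wc.OkP c4_7.num := wokPB_ok (W := w4_7) (N := c4_7) (by decide +kernel)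

theorem okR4_7 : w4_7.wc.OkR := wokRB_ok (W := w4_7) (by decide +kernel)

theorem okT4_7 : w4_7.wc.OkT c4_7.num (136591 / 200000) (3360847 / 2000000) := by
  have h := wokTB_ok (W := w4_7) (N := c4_7) (H1 := 136591 / 200000) (X3 := 3360847 / 2000000) (by decide +kernel)
  push_cast at h
  exact h

/-- far numbers of `c5_1` -/
def w5_1 : WCQ where
  R := {
    k1 := 139 / 100, k2 := 71 / 50, T0 := 5441 / 1000, R0 := 101 / 10, b1 := 5, S := 1547 / 2000,
    A := 111 / 100, J1 := 117 / 500, sR := 12679 / 10000, E := 6307 / 10000, η1 := 829 / 2500, ξ := 1341 / 2500,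
    x0 := 11 / 20, α := 1991 / 10000, x1 := 11 / 20, α' := 309 / 1000, s1 := 8099 / 10000, s2 := 7131 / 10000,
    X1 := 1763 / 12500, X2 := 2073 / 25000, zE := 17121 / 10000000, oE := 13387 / 100000, lE := 1103 / 25000, Q := 7287 / 10000000000000,
    UQ := 1 / 100000000 }
  L := {
    k1 := 139 / 100, k2 := 71 / 50, T0 := 5441 / 1000, R0 := 101 / 10, b1 := 5, S := 97 / 100,
    A := 111 / 100, J1 := 117 / 500, sR := 12679 / 10000, E := 17749 / 10000, η1 := 2079 / 5000, ξ := 3451 / 2000,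
    x0 := 6 / 25, α := 5853 / 5000, x1 := 6 / 25, α' := 5731 / 2500, s1 := 4163 / 10000, s2 := 497 / 1250,
    X1 := 6467 / 10000000, X2 := 3323 / 10000000, zE := 4099 / 250000000000, oE := 3667 / 500000000, lE := 223 / 2500000000000, Q := 3693 / 1000000000000000,
    UQ := 1 / 100000000 }
  Q := {
    k1 := 139 / 100, k2 := 71 / 50, T0 := 5441 / 1000, R0 := 101 / 10, b1 := 5, S := 1183 / 2000,
    A := 111 / 100, J1 := 117 / 500, sR := 12679 / 10000, E := 7029 / 10000, η1 := 317 / 1250, ξ := 1311 / 2000,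
    x0 := 37 / 100, α := 877 / 2500, x1 := 37 / 100, α' := 6553 / 10000, s1 := 6959 / 10000, s2 := 6451 / 10000,
    X1 := 7161 / 100000, X2 := 4771 / 100000, zE := 8257 / 10000000, oE := 2893 / 100000, lE := 6677 / 5000000, Q := 2567 / 25000000000,
    UQ := 9 / 50000000 }
  h0 := 6283 / 5000
  v1 := 288 / 625
  vr := 881 / 2500
  V0 := 2869 / 5000
  U := 433 / 200
  Uq := 357 / 200
  χ6 := 197 / 400
  χq := 849 / 1250
  χr := 197 / 400
  P5 := 1
  θ := 1 / 2
  Tr := 2693 / 10000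
  g6 := 452 / 625
  gq := 9099 / 10000
  gr := 12789 / 10000
  gm := 10707 / 10000
  e6 := 6727 / 10000000
  eq := 5103 / 50000000
  er := 2457 / 1000000000
  em := 503 / 25000000
  qm := 3693 / 1000000000000000
  um := 3927 / 62500000000

theorem okW5_1 : w5_1.wc.Ok c5_1.num :=
  wokB_ok (W := w5_1) (N := c5_1) (by decide +kernel) (fokB_ok (N := w5_1.R) (by decide +kernel))
    (fokB_ok (N := w5_1.L) (by decide +kernel)) (fokB_ok (N := w5_1.Q) (by decide +kernel))

theorem okV5_1 : w5_1.wc.Ok3 c5_1.num := wok3B_ok (W := w5_1) (N := c5_1) (by decide +kernel)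

theorem okM5_1 : w5_1.wc.OkM c5_1.num (38 / 25) (29 / 20) := by
  have h := wokMB_ok (W := w5_1) (N := c5_1) (D2 := 38 / 25) (Dm := 29 / 20) (by decide +kernel)
  push_cast at h
  exact h

theorem okN5_1 : w5_1.wc.OkM3 c5_1.num (38 / 25) (29 / 20) (39 / 20) := by
  have h := wokM3B_ok (W := w5_1) (N := c5_1) (D2 := 38 / 25) (Dm := 29 / 20) (Sg := 39 / 20) (by decide +kernel)
  push_cast at h
  exact h

theorem okP5_1 : w5_1.wc.OkP c5_1.num := wokPB_ok (W := w5_1) (N := c5_1) (by decide +kernel)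

theorem okR5_1 : w5_1.wc.OkR := wokRB_ok (W := w5_1) (by decide +kernel)

/-- far numbers of `c5_2` -/
def w5_2 : WCQ where
  R := {
    k1 := 71 / 50, k2 := 37 / 25, T0 := 5441 / 1000, R0 := 1039 / 100, b1 := 5, S := 313 / 400,
    A := 553 / 500, J1 := 1157 / 5000, sR := 643 / 500, E := 6293 / 10000, η1 := 163 / 500, ξ := 2691 / 5000,
    x0 := 27 / 50, α := 2037 / 10000, x1 := 27 / 50, α' := 3209 / 10000, s1 := 4031 / 5000, s2 := 7119 / 10000,
    X1 := 13097 / 100000, X2 := 3827 / 50000, zE := 3617 / 2500000, oE := 6023 / 50000, lE := 713 / 20000, Q := 5709 / 10000000000000,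
    UQ := 1 / 100000000 }
  L := {
    k1 := 71 / 50, k2 := 37 / 25, T0 := 5441 / 1000, R0 := 1039 / 100, b1 := 5, S := 193 / 200,
    A := 553 / 500, J1 := 1157 / 5000, sR := 643 / 500, E := 351 / 200, η1 := 4021 / 10000, ξ := 17083 / 10000,
    x0 := 23 / 100, α := 731 / 625, x1 := 23 / 100, α' := 2293 / 1000, s1 := 4179 / 10000, s2 := 999 / 2500,
    X1 := 5559 / 10000000, X2 := 1433 / 5000000, zE := 12051 / 1000000000000, oE := 2639 / 500000000, lE := 4587 / 100000000000000, Q := 527 / 125000000000000,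
    UQ := 1 / 100000000 }
  Q := {
    k1 := 71 / 50, k2 := 37 / 25, T0 := 5441 / 1000, R0 := 1039 / 100, b1 := 5, S := 597 / 1000,
    A := 553 / 500, J1 := 1157 / 5000, sR := 643 / 500, E := 439 / 625, η1 := 311 / 1250, ξ := 821 / 1250,
    x0 := 9 / 25, α := 3561 / 10000, x1 := 9 / 25, α' := 6677 / 10000, s1 := 347 / 500, s2 := 1611 / 2500,
    X1 := 3273 / 50000, X2 := 543 / 12500, zE := 677 / 1000000, oE := 2473 / 100000, lE := 2427 / 2500000, Q := 8841 / 100000000000,
    UQ := 1 / 6250000 }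
  h0 := 6283 / 5000
  v1 := 463 / 1000
  vr := 883 / 2500
  V0 := 9 / 16
  U := 1049 / 500
  Uq := 863 / 500
  χ6 := 5433 / 10000
  χq := 6783 / 10000
  χr := 5433 / 10000
  P5 := 1
  θ := 1 / 2
  Tr := 1309 / 5000
  g6 := 1563 / 2000
  gq := 1833 / 2000
  gr := 6669 / 5000
  gm := 5391 / 5000
  e6 := 93 / 312500
  eq := 183 / 2500000
  er := 9583 / 10000000000
  em := 13641 / 1000000000
  qm := 527 / 125000000000000
  um := 3927 / 62500000000

theorem okW5_2 : w5_2.wc.Ok c5_2.num :=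
  wokB_ok (W := w5_2) (N := c5_2) (by decide +kernel) (fokB_ok (N := w5_2.R) (by decide +kernel))
    (fokB_ok (N := w5_2.L) (by decide +kernel)) (fokB_ok (N := w5_2.Q) (by decide +kernel))

theorem okV5_2 : w5_2.wc.Ok3 c5_2.num := wok3B_ok (W := w5_2) (N := c5_2) (by decide +kernel)

theorem okM5_2 : w5_2.wc.OkM c5_2.num (3 / 2) (36 / 25) := by
  have h := wokMB_ok (W := w5_2) (N := c5_2) (D2 := 3 / 2) (Dm := 36 / 25) (by decide +kernel)
  push_cast at h
  exact h

theorem okN5_2 : w5_2.wc.OkM3 c5_2.num (3 / 2) (36 / 25) (48 / 25) := by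
  have h := wokM3B_ok (W := w5_2) (N := c5_2) (D2 := 3 / 2) (Dm := 36 / 25) (Sg := 48 / 25) (by decide +kernel)
  push_cast at h
  exact h

theorem okP5_2 : w5_2.wc.OkP c5_2.num := wokPB_ok (W := w5_2) (N := c5_2) (by decide +kernel)

theorem okR5_2 : w5_2.wc.OkR := wokRB_ok (W := w5_2) (by decide +kernel)

/-- far numbers of `c5_3` -/
def w5_3 : WCQ where
  R := {
    k1 := 37 / 25, k2 := 79 / 50, T0 := 5441 / 1000, R0 := 1099 / 100, b1 := 5, S := 801 / 1000,
    A := 5493 / 5000, J1 := 567 / 2500, sR := 6613 / 5000, E := 1567 / 2500, η1 := 631 / 2000, ξ := 677 / 1250,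
    x0 := 53 / 100, α := 531 / 2500, x1 := 53 / 100, α' := 859 / 2500, s1 := 3997 / 5000, s2 := 7097 / 10000,
    X1 := 281 / 2500, X2 := 3243 / 50000, zE := 2039 / 2000000, oE := 9689 / 100000, lE := 573 / 25000, Q := 3457 / 10000000000000,
    UQ := 1 / 100000000 }
  L := {
    k1 := 37 / 25, k2 := 79 / 50, T0 := 5441 / 1000, R0 := 1099 / 100, b1 := 5, S := 19 / 20,
    A := 5493 / 5000, J1 := 567 / 2500, sR := 6613 / 5000, E := 17149 / 10000, η1 := 1871 / 5000, ξ := 3347 / 2000,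
    x0 := 11 / 50, α := 146 / 125, x1 := 11 / 50, α' := 2869 / 1250, s1 := 1053 / 2500, s2 := 4037 / 10000,
    X1 := 819 / 2000000, X2 := 2133 / 10000000, zE := 1307 / 200000000000, oE := 2663 / 1000000000, lE := 2883 / 250000000000000, Q := 3139 / 500000000000000,
    UQ := 1 / 100000000 }
  Q := {
    k1 := 37 / 25, k2 := 79 / 50, T0 := 5441 / 1000, R0 := 1099 / 100, b1 := 5, S := 76 / 125,
    A := 5493 / 5000, J1 := 567 / 2500, sR := 6613 / 5000, E := 1403 / 2000, η1 := 479 / 2000, ξ := 6593 / 10000,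
    x0 := 7 / 20, α := 733 / 2000, x1 := 7 / 20, α' := 3459 / 5000, s1 := 863 / 1250, s2 := 402 / 625,
    X1 := 2717 / 50000, X2 := 3579 / 100000, zE := 2243 / 5000000, oE := 17813 / 1000000, lE := 4991 / 10000000, Q := 1311 / 20000000000,
    UQ := 3 / 25000000 }
  h0 := 6283 / 5000
  v1 := 467 / 1000
  vr := 709 / 2000
  V0 := 2697 / 5000
  U := 493 / 250
  Uq := 202 / 125
  χ6 := 791 / 1250
  χq := 6769 / 10000
  χr := 791 / 1250
  P5 := 1
  θ := 1 / 2
  Tr := 99 / 400
  g6 := 8853 / 10000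
  gq := 4647 / 5000
  gr := 7159 / 5000
  gm := 437 / 400
  e6 := 5951 / 100000000
  eq := 733 / 20000000
  er := 7331 / 50000000000
  em := 763 / 125000000
  qm := 3139 / 500000000000000
  um := 3927 / 62500000000

theorem okW5_3 : w5_3.wc.Ok c5_3.num :=
  wokB_ok (W := w5_3) (N := c5_3) (by decide +kernel) (fokB_ok (N := w5_3.R) (by decide +kernel))
    (fokB_ok (N := w5_3.L) (by decide +kernel)) (fokB_ok (N := w5_3.Q) (by decide +kernel))

theorem okV5_3 : w5_3.wc.Ok3 c5_3.num := wok3B_ok (W := w5_3) (N := c5_3) (by decide +kernel)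

theorem okM5_3 : w5_3.wc.OkM c5_3.num (36 / 25) (143 / 100) := by
  have h := wokMB_ok (W := w5_3) (N := c5_3) (D2 := 36 / 25) (Dm := 143 / 100) (by decide +kernel)
  push_cast at h
  exact h

theorem okN5_3 : w5_3.wc.OkM3 c5_3.num (36 / 25) (143 / 100) (47 / 25) := by
  have h := wokM3B_ok (W := w5_3) (N := c5_3) (D2 := 36 / 25) (Dm := 143 / 100) (Sg := 47 / 25) (by decide +kernel)
  push_cast at h
  exact h

theorem okP5_3 : w5_3.wc.OkP c5_3.num := wokPB_ok (W := w5_3) (N := c5_3) (by decide +kernel)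

theorem okR5_3 : w5_3.wc.OkR := wokRB_ok (W := w5_3) (by decide +kernel)

/-- far numbers of `c5_4` -/
def w5_4 : WCQ where
  R := {
    k1 := 79 / 50, k2 := 433 / 250, T0 := 5441 / 1000, R0 := 301 / 25, b1 := 5, S := 831 / 1000,
    A := 10879 / 10000, J1 := 2203 / 10000, sR := 13843 / 10000, E := 3119 / 5000, η1 := 2987 / 10000, ξ := 1369 / 2500,
    x0 := 1 / 2, α := 91 / 400, x1 := 1 / 2, α' := 3821 / 10000, s1 := 7883 / 10000, s2 := 3529 / 5000,
    X1 := 4273 / 50000, X2 := 4831 / 100000, zE := 5473 / 10000000, oE := 6463 / 100000, lE := 10047 / 1000000, Q := 767 / 5000000000000,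
    UQ := 1 / 100000000 }
  L := {
    k1 := 79 / 50, k2 := 433 / 250, T0 := 5441 / 1000, R0 := 301 / 25, b1 := 5, S := 147 / 200,
    A := 10879 / 10000, J1 := 2203 / 10000, sR := 13843 / 10000, E := 3729 / 2500, η1 := 1321 / 5000, ξ := 367 / 250,
    x0 := 9 / 50, α := 11 / 10, x1 := 9 / 50, α' := 10883 / 5000, s1 := 4459 / 10000, s2 := 4311 / 10000,
    X1 := 307 / 625000, X2 := 1483 / 5000000, zE := 7937 / 500000000000, oE := 1771 / 1000000000, lE := 4411 / 1000000000000000, Q := 1037 / 500000000000,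
    UQ := 1 / 100000000 }
  Q := {
    k1 := 79 / 50, k2 := 433 / 250, T0 := 5441 / 1000, R0 := 301 / 25, b1 := 5, S := 313 / 500,
    A := 10879 / 10000, J1 := 2203 / 10000, sR := 13843 / 10000, E := 438 / 625, η1 := 9 / 40, ξ := 1659 / 2500,
    x0 := 33 / 100, α := 1919 / 5000, x1 := 33 / 100, α' := 7311 / 10000, s1 := 6847 / 10000, s2 := 6411 / 10000,
    X1 := 3907 / 100000, X2 := 2543 / 100000, zE := 1083 / 5000000, oE := 2461 / 250000, lE := 15037 / 100000000, Q := 4017 / 100000000000,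
    UQ := 1 / 12500000 }
  h0 := 6283 / 5000
  v1 := 4719 / 10000
  vr := 711 / 2000
  V0 := 3999 / 10000
  U := 223 / 125
  Uq := 729 / 500
  χ6 := 422 / 625
  χq := 422 / 625
  χr := 7177 / 10000
  P5 := 1
  θ := 1 / 2
  Tr := 2259 / 10000
  g6 := 9493 / 10000
  gq := 9493 / 10000
  gr := 3059 / 2000
  gm := 11141 / 10000
  e6 := 1087 / 100000000
  eq := 1087 / 100000000
  er := 10059 / 1000000000000
  em := 2989 / 2000000000
  qm := 1037 / 500000000000
  um := 3927 / 62500000000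

theorem okW5_4 : w5_4.wc.Ok c5_4.num :=
  wokB_ok (W := w5_4) (N := c5_4) (by decide +kernel) (fokB_ok (N := w5_4.R) (by decide +kernel))
    (fokB_ok (N := w5_4.L) (by decide +kernel)) (fokB_ok (N := w5_4.Q) (by decide +kernel))

theorem okV5_4 : w5_4.wc.Ok3 c5_4.num := wok3B_ok (W := w5_4) (N := c5_4) (by decide +kernel)

theorem okM5_4 : w5_4.wc.OkM c5_4.num (139 / 100) (42 / 25) := by
  have h := wokMB_ok (W := w5_4) (N := c5_4) (D2 := 139 / 100) (Dm := 42 / 25) (by decide +kernel)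
  push_cast at h
  exact h

theorem okN5_4 : w5_4.wc.OkM3 c5_4.num (139 / 100) (42 / 25) (46 / 25) := by
  have h := wokM3B_ok (W := w5_4) (N := c5_4) (D2 := 139 / 100) (Dm := 42 / 25) (Sg := 46 / 25) (by decide +kernel)
  push_cast at h
  exact h

theorem okP5_4 : w5_4.wc.OkP c5_4.num := wokPB_ok (W := w5_4) (N := c5_4) (by decide +kernel)

theorem okR5_4 : w5_4.wc.OkR := wokRB_ok (W := w5_4) (by decide +kernel)

theorem okT5_4 : w5_4.wc.OkT c5_4.num (39767 / 50000) (17942281 / 10000000) := by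
  have h := wokTB_ok (W := w5_4) (N := c5_4) (H1 := 39767 / 50000) (X3 := 17942281 / 10000000) (by decide +kernel)
  push_cast at h
  exact h

/-- far numbers of `c5_5` -/
def w5_5 : WCQ where
  R := {
    k1 := 433 / 250, k2 := 2, T0 := 5441 / 1000, R0 := 689 / 50, b1 := 5, S := 873 / 1000,
    A := 5373 / 5000, J1 := 2123 / 10000, sR := 1481 / 1000, E := 3109 / 5000, η1 := 2743 / 10000, ξ := 279 / 500,
    x0 := 23 / 50, α := 631 / 2500, x1 := 23 / 50, α' := 2217 / 5000, s1 := 1543 / 2000, s2 := 437 / 625,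
    X1 := 1329 / 25000, X2 := 2919 / 100000, zE := 9501 / 50000000, oE := 3087 / 100000, lE := 2221 / 1000000, Q := 4937 / 100000000000000,
    UQ := 1 / 100000000 }
  L := {
    k1 := 433 / 250, k2 := 2, T0 := 5441 / 1000, R0 := 689 / 50, b1 := 5, S := 3 / 4,
    A := 5373 / 5000, J1 := 2123 / 10000, sR := 1481 / 1000, E := 14577 / 10000, η1 := 2357 / 10000, ξ := 2877 / 2000,
    x0 := 4 / 25, α := 2213 / 2000, x1 := 4 / 25, α' := 1097 / 500, s1 := 4491 / 10000, s2 := 871 / 2000,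
    X1 := 9249 / 50000000, X2 := 11051 / 100000000, zE := 18923 / 10000000000000, oE := 2389 / 10000000000, lE := 9443 / 100000000000000000, Q := 13793 / 10000000000000,
    UQ := 1 / 100000000 }
  Q := {
    k1 := 433 / 250, k2 := 2, T0 := 5441 / 1000, R0 := 689 / 50, b1 := 5, S := 1299 / 2000,
    A := 5373 / 5000, J1 := 2123 / 10000, sR := 1481 / 1000, E := 3511 / 5000, η1 := 2041 / 10000, ξ := 3359 / 5000,
    x0 := 29 / 100, α := 2057 / 5000, x1 := 29 / 100, α' := 793 / 1000, s1 := 1689 / 2500, s2 := 1593 / 2500,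
    X1 := 1109 / 50000, X2 := 7099 / 500000, zE := 1569 / 25000000, oE := 3451 / 1000000, lE := 17957 / 1000000000, Q := 53 / 2500000000,
    UQ := 1 / 20000000 }
  h0 := 6283 / 5000
  v1 := 4751 / 10000
  vr := 707 / 2000
  V0 := 3769 / 10000
  U := 77 / 50
  Uq := 1239 / 1000
  χ6 := 337 / 500
  χq := 337 / 500
  χr := 1437 / 2000
  P5 := 1
  θ := 1 / 2
  Tr := 79 / 400
  g6 := 1953 / 2000
  gq := 1953 / 2000
  gr := 1549 / 1000
  gm := 457 / 400
  e6 := 3581 / 2500000000
  eq := 3581 / 2500000000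
  er := 5391 / 10000000000000
  em := 14543 / 100000000000
  qm := 13793 / 10000000000000
  um := 3927 / 62500000000

theorem okW5_5 : w5_5.wc.Ok c5_5.num :=
  wokB_ok (W := w5_5) (N := c5_5) (by decide +kernel) (fokB_ok (N := w5_5.R) (by decide +kernel))
    (fokB_ok (N := w5_5.L) (by decide +kernel)) (fokB_ok (N := w5_5.Q) (by decide +kernel))

theorem okV5_5 : w5_5.wc.Ok3 c5_5.num := wok3B_ok (W := w5_5) (N := c5_5) (by decide +kernel)

theorem okM5_5 : w5_5.wc.OkM c5_5.num (131 / 100) (159 / 100) := by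
  have h := wokMB_ok (W := w5_5) (N := c5_5) (D2 := 131 / 100) (Dm := 159 / 100) (by decide +kernel)
  push_cast at h
  exact h

theorem okN5_5 : w5_5.wc.OkM3 c5_5.num (131 / 100) (159 / 100) (177 / 100) := by
  have h := wokM3B_ok (W := w5_5) (N := c5_5) (D2 := 131 / 100) (Dm := 159 / 100) (Sg := 177 / 100) (by decide +kernel)
  push_cast at h
  exact h

theorem okP5_5 : w5_5.wc.OkP c5_5.num := wokPB_ok (W := w5_5) (N := c5_5) (by decide +kernel)

theorem okR5_5 : w5_5.wc.OkR := wokRB_ok (W := w5_5) (by decide +kernel)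

theorem okT5_5 : w5_5.wc.OkT c5_5.num (362771 / 500000) (17231543 / 10000000) := by
  have h := wokTB_ok (W := w5_5) (N := c5_5) (H1 := 362771 / 500000) (X3 := 17231543 / 10000000) (by decide +kernel)
  push_cast at h
  exact h

/-- far numbers of `c5_6` -/
def w5_6 : WCQ where
  R := {
    k1 := 2, k2 := 20, T0 := 5441 / 1000, R0 := 861 / 50, b1 := 5, S := 1877 / 2000,
    A := 5287 / 5000, J1 := 2023 / 10000, sR := 4139 / 2500, E := 3119 / 5000, η1 := 2359 / 10000, ξ := 2887 / 5000,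
    x0 := 39 / 100, α := 373 / 1250, x1 := 39 / 100, α' := 1379 / 2500, s1 := 7449 / 10000, s2 := 6873 / 10000,
    X1 := 9867 / 500000, X2 := 10361 / 1000000, zE := 2163 / 100000000, oE := 5867 / 1000000, lE := 7497 / 100000000, Q := 533 / 62500000000000,
    UQ := 1 / 100000000 }
  L := {
    k1 := 2, k2 := 20, T0 := 5441 / 1000, R0 := 861 / 50, b1 := 5, S := 31 / 40,
    A := 5287 / 5000, J1 := 2023 / 10000, sR := 4139 / 2500, E := 656 / 625, η1 := 487 / 2500, ξ := 10313 / 10000,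
    x0 := 19 / 100, α := 7617 / 10000, x1 := 19 / 100, α' := 15053 / 10000, s1 := 5329 / 10000, s2 := 5143 / 10000,
    X1 := 4857 / 10000000, X2 := 2853 / 10000000, zE := 7073 / 500000000000, oE := 503 / 250000000, lE := 2913 / 500000000000000, Q := 6997 / 10000000000000,
    UQ := 1 / 50000000 }
  Q := {
    k1 := 2, k2 := 20, T0 := 5441 / 1000, R0 := 861 / 50, b1 := 5, S := 273 / 400,
    A := 5287 / 5000, J1 := 2023 / 10000, sR := 4139 / 2500, E := 1419 / 2000, η1 := 429 / 2500, ξ := 1721 / 2500,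
    x0 := 6 / 25, α := 4607 / 10000, x1 := 6 / 25, α' := 9007 / 10000, s1 := 6601 / 10000, s2 := 1259 / 2000,
    X1 := 3439 / 500000, X2 := 269 / 62500, zE := 4943 / 1000000000, oE := 3587 / 10000000, lE := 18369 / 100000000000, Q := 8639 / 1000000000000,
    UQ := 7 / 50000000 }
  h0 := 6283 / 5000
  v1 := 2359 / 5000
  vr := 3431 / 10000
  V0 := 97 / 2000
  U := 6 / 5
  Uq := 1
  χ6 := 422 / 625
  χq := 422 / 625
  χr := 7223 / 10000
  P5 := 1
  θ := 1 / 2
  Tr := 79 / 500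
  g6 := 2543 / 2500
  gq := 2543 / 2500
  gr := 3953 / 2500
  gm := 591 / 500
  e6 := 309 / 12500000000
  eq := 309 / 12500000000
  er := 409 / 250000000000000
  em := 2899 / 2000000000000
  qm := 6997 / 10000000000000
  um := 3927 / 31250000000

theorem okW5_6 : w5_6.wc.Ok c5_6.num :=
  wokB_ok (W := w5_6) (N := c5_6) (by decide +kernel) (fokB_ok (N := w5_6.R) (by decide +kernel))
    (fokB_ok (N := w5_6.L) (by decide +kernel)) (fokB_ok (N := w5_6.Q) (by decide +kernel))

theorem okV5_6 : w5_6.wc.Ok3 c5_6.num := wok3B_ok (W := w5_6) (N := c5_6) (by decide +kernel)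

theorem okM5_6 : w5_6.wc.OkM c5_6.num (201 / 100) (9 / 5) := by
  have h := wokMB_ok (W := w5_6) (N := c5_6) (D2 := 201 / 100) (Dm := 9 / 5) (by decide +kernel)
  push_cast at h
  exact h

theorem okN5_6 : w5_6.wc.OkM3 c5_6.num (201 / 100) (9 / 5) (183 / 100) := by
  have h := wokM3B_ok (W := w5_6) (N := c5_6) (D2 := 201 / 100) (Dm := 9 / 5) (Sg := 183 / 100) (by decide +kernel)
  push_cast at h
  exact h

theorem okP5_6 : w5_6.wc.OkP c5_6.num := wokPB_ok (W := w5_6) (N := c5_6) (by decide +kernel)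

theorem okR5_6 : w5_6.wc.OkR := wokRB_ok (W := w5_6) (by decide +kernel)

theorem okT5_6 : w5_6.wc.OkT c5_6.num (628319 / 1000000) (127136 / 78125) := by
  have h := wokTB_ok (W := w5_6) (N := c5_6) (H1 := 628319 / 1000000) (X3 := 127136 / 78125) (by decide +kernel)
  push_cast at h
  exact h

end Sok.R2
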