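import Pool.Agent.Lib.MP_816dec_an.R2WWA
import Pool.Agent.Lib.MP_816dec_an.R2WWB
import Pool.Agent.Lib.MP_816dec_an.R2WEnd0
import Pool.Agent.Lib.MP_816dec_an.R2Lin
import Pool.Agent.Lib.MP_816dec_an.R2X5N
import Pool.Agent.Lib.MP_816dec_an.R2SecF

/-!
MP_816dec_an (row R2, far windows): `FarH` and `MomH` of the classes.
-/

set_option autoImplicit false

open Complex Set Filter Topology

namespace Sok.R2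

private theorem wp3_1 {b : ℕ} {β r : ℝ} (hb : b = 3) (hβ : 0 < β) (hr : 10 ≤ r) (hT : c3_1.num.T0 ≤ TT b β r)
    (h1 : (139 / 100 : ℝ) ≤ β * r) (h2 : β * r ≤ 8 / 5) : WP b β r (-2 * (b : ℤ) + 2) 2 c3_1.num w3_1.wc := by
  have LD := line3_1 (b := b) (κ := β * r) (by omega) h1
  exact WP.of2 okW3_1 okP3_1 (fun _ => okR3_1) (by omega) (by rw [hb]; norm_num [w3_1, WCQ.wc, FCQ.fc]) (Or.inr (by rw [hb]; norm_num [w3_1, WCQ.wc, FCQ.fc])) (fun _ _ => ⟨hb, by norm_num [w3_1, WCQ.wc, FCQ.fc]⟩) (fun h => absurd (by norm_num [w3_1, WCQ.wc, FCQ.fc]) h) hβ hr hT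
    (le_trans (by norm_num [w3_1, WCQ.wc, FCQ.fc]) h1) (le_trans h2 (by norm_num [w3_1, WCQ.wc, FCQ.fc])) ⟨_, LD.L⟩ ⟨_, LD.Lr⟩
    (lt_of okW3_1 okT3_1 (by omega) (by rw [hb]; norm_num [w3_1, WCQ.wc, FCQ.fc]) (le_trans (by norm_num [w3_1, WCQ.wc, FCQ.fc]) h1))

theorem far3_1 {b : ℕ} {β r : ℝ} (hb : b = 3) (hβ : 0 < β) (hr : 10 ≤ r) (hT : c3_1.num.T0 ≤ TT b β r)
    (h1 : (139 / 100 : ℝ) ≤ β * r) (h2 : β * r ≤ 8 / 5) : FarH b β r (-2 * (b : ℤ) + 2) 2 c3_1.num :=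
  (wp3_1 hb hβ hr hT h1 h2).farH okW3_1 (fun _ => okV3_1)

theorem mom3_1 {b : ℕ} {β r : ℝ} (hb : b = 3) (hβ : 0 < β) (hr : 10 ≤ r) (hT : c3_1.num.T0 ≤ TT b β r)
    (h1 : (139 / 100 : ℝ) ≤ β * r) (h2 : β * r ≤ 8 / 5) : MomH b β r (-2 * (b : ℤ) + 2) 2 c3_1.num :=
  (wp3_1 hb hβ hr hT h1 h2).momH okW3_1 okM3_1 (Sg := (227 / 100)) (fun _ => okN3_1)
    (secF3_1 hb h1 h2)

private theorem wp3_2 {b : ℕ} {β r : ℝ} (hb : b = 3) (hβ : 0 < β) (hr : 10 ≤ r) (hT : c3_2.num.T0 ≤ TT b β r)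
    (h1 : (8 / 5 : ℝ) ≤ β * r) (h2 : β * r ≤ 19 / 10) : WP b β r (-2 * (b : ℤ) + 2) 2 c3_2.num w3_2.wc := by
  have LD := line3_2 (b := b) (κ := β * r) (by omega) h1
  exact WP.of2 okW3_2 okP3_2 (fun _ => okR3_2) (by omega) (by rw [hb]; norm_num [w3_2, WCQ.wc, FCQ.fc]) (Or.inr (by rw [hb]; norm_num [w3_2, WCQ.wc, FCQ.fc])) (fun _ _ => ⟨hb, by norm_num [w3_2, WCQ.wc, FCQ.fc]⟩) (fun h => absurd (by norm_num [w3_2, WCQ.wc, FCQ.fc]) h) hβ hr hT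
    (le_trans (by norm_num [w3_2, WCQ.wc, FCQ.fc]) h1) (le_trans h2 (by norm_num [w3_2, WCQ.wc, FCQ.fc])) ⟨_, LD.L⟩ ⟨_, LD.Lr⟩
    (lt_of okW3_2 okT3_2 (by omega) (by rw [hb]; norm_num [w3_2, WCQ.wc, FCQ.fc]) (le_trans (by norm_num [w3_2, WCQ.wc, FCQ.fc]) h1))

theorem far3_2 {b : ℕ} {β r : ℝ} (hb : b = 3) (hβ : 0 < β) (hr : 10 ≤ r) (hT : c3_2.num.T0 ≤ TT b β r)
    (h1 : (8 / 5 : ℝ) ≤ β * r) (h2 : β * r ≤ 19 / 10) : FarH b β r (-2 * (b : ℤ) + 2) 2 c3_2.num :=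
  (wp3_2 hb hβ hr hT h1 h2).farH okW3_2 (fun _ => okV3_2)

theorem mom3_2 {b : ℕ} {β r : ℝ} (hb : b = 3) (hβ : 0 < β) (hr : 10 ≤ r) (hT : c3_2.num.T0 ≤ TT b β r)
    (h1 : (8 / 5 : ℝ) ≤ β * r) (h2 : β * r ≤ 19 / 10) : MomH b β r (-2 * (b : ℤ) + 2) 2 c3_2.num :=
  (wp3_2 hb hβ hr hT h1 h2).momH okW3_2 okM3_2 (Sg := (199 / 100)) (fun _ => okN3_2)
    (secF3_2 hb h1 h2)

private theorem wp3_3 {b : ℕ} {β r : ℝ} (hb : b = 3) (hβ : 0 < β) (hr : 10 ≤ r) (hT : c3_3.num.T0 ≤ TT b β r)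
    (h1 : (19 / 10 : ℝ) ≤ β * r) (h2 : β * r ≤ 21 / 10) : WP b β r (-2 * (b : ℤ) + 2) 2 c3_3.num w3_3.wc := by
  have LD := line3_3 (b := b) (κ := β * r) (by omega) h1
  exact WP.of2 okW3_3 okP3_3 (fun _ => okR3_3) (by omega) (by rw [hb]; norm_num [w3_3, WCQ.wc, FCQ.fc]) (Or.inr (by rw [hb]; norm_num [w3_3, WCQ.wc, FCQ.fc])) (fun _ _ => ⟨hb, by norm_num [w3_3, WCQ.wc, FCQ.fc]⟩) (fun h => absurd (by norm_num [w3_3, WCQ.wc, FCQ.fc]) h) hβ hr hT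
    (le_trans (by norm_num [w3_3, WCQ.wc, FCQ.fc]) h1) (le_trans h2 (by norm_num [w3_3, WCQ.wc, FCQ.fc])) ⟨_, LD.L⟩ ⟨_, LD.Lr⟩
    (lt_of okW3_3 okT3_3 (by omega) (by rw [hb]; norm_num [w3_3, WCQ.wc, FCQ.fc]) (le_trans (by norm_num [w3_3, WCQ.wc, FCQ.fc]) h1))

theorem far3_3 {b : ℕ} {β r : ℝ} (hb : b = 3) (hβ : 0 < β) (hr : 10 ≤ r) (hT : c3_3.num.T0 ≤ TT b β r)
    (h1 : (19 / 10 : ℝ) ≤ β * r) (h2 : β * r ≤ 21 / 10) : FarH b β r (-2 * (b : ℤ) + 2) 2 c3_3.num :=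
  (wp3_3 hb hβ hr hT h1 h2).farH okW3_3 (fun _ => okV3_3)

theorem mom3_3 {b : ℕ} {β r : ℝ} (hb : b = 3) (hβ : 0 < β) (hr : 10 ≤ r) (hT : c3_3.num.T0 ≤ TT b β r)
    (h1 : (19 / 10 : ℝ) ≤ β * r) (h2 : β * r ≤ 21 / 10) : MomH b β r (-2 * (b : ℤ) + 2) 2 c3_3.num :=
  (wp3_3 hb hβ hr hT h1 h2).momH okW3_3 okM3_3 (Sg := (44 / 25)) (fun _ => okN3_3)
    (secF3_3 hb h1 h2)

private theorem wp3_4 {b : ℕ} {β r : ℝ} (hb : b = 3) (hβ : 0 < β) (hr : 10 ≤ r) (hT : c3_4.num.T0 ≤ TT b β r)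
    (h1 : (21 / 10 : ℝ) ≤ β * r) (h2 : β * r ≤ 23 / 10) : WP b β r (-2 * (b : ℤ) + 2) 2 c3_4.num w3_4.wc := by
  have LD := line3_4 (b := b) (κ := β * r) (by omega) h1
  exact WP.of2 okW3_4 okP3_4 (fun _ => okR3_4) (by omega) (by rw [hb]; norm_num [w3_4, WCQ.wc, FCQ.fc]) (Or.inr (by rw [hb]; norm_num [w3_4, WCQ.wc, FCQ.fc])) (fun _ _ => ⟨hb, by norm_num [w3_4, WCQ.wc, FCQ.fc]⟩) (fun h => absurd (by norm_num [w3_4, WCQ.wc, FCQ.fc]) h) hβ hr hT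
    (le_trans (by norm_num [w3_4, WCQ.wc, FCQ.fc]) h1) (le_trans h2 (by norm_num [w3_4, WCQ.wc, FCQ.fc])) ⟨_, LD.L⟩ ⟨_, LD.Lr⟩
    (lt_of okW3_4 okT3_4 (by omega) (by rw [hb]; norm_num [w3_4, WCQ.wc, FCQ.fc]) (le_trans (by norm_num [w3_4, WCQ.wc, FCQ.fc]) h1))

theorem far3_4 {b : ℕ} {β r : ℝ} (hb : b = 3) (hβ : 0 < β) (hr : 10 ≤ r) (hT : c3_4.num.T0 ≤ TT b β r)
    (h1 : (21 / 10 : ℝ) ≤ β * r) (h2 : β * r ≤ 23 / 10) : FarH b β r (-2 * (b : ℤ) + 2) 2 c3_4.num :=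
  (wp3_4 hb hβ hr hT h1 h2).farH okW3_4 (fun _ => okV3_4)

theorem mom3_4 {b : ℕ} {β r : ℝ} (hb : b = 3) (hβ : 0 < β) (hr : 10 ≤ r) (hT : c3_4.num.T0 ≤ TT b β r)
    (h1 : (21 / 10 : ℝ) ≤ β * r) (h2 : β * r ≤ 23 / 10) : MomH b β r (-2 * (b : ℤ) + 2) 2 c3_4.num :=
  (wp3_4 hb hβ hr hT h1 h2).momH okW3_4 okM3_4 (Sg := (171 / 100)) (fun _ => okN3_4)
    (secF3_4 hb h1 h2)

private theorem wp3_5 {b : ℕ} {β r : ℝ} (hb : b = 3) (hβ : 0 < β) (hr : 10 ≤ r) (hT : c3_5.num.T0 ≤ TT b β r)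
    (h1 : (23 / 10 : ℝ) ≤ β * r) (h2 : β * r ≤ 5 / 2) : WP b β r (-2 * (b : ℤ) + 2) 2 c3_5.num w3_5.wc := by
  have LD := line3_5 (b := b) (κ := β * r) (by omega) h1
  exact WP.of2 okW3_5 okP3_5 (fun _ => okR3_5) (by omega) (by rw [hb]; norm_num [w3_5, WCQ.wc, FCQ.fc]) (Or.inr (by rw [hb]; norm_num [w3_5, WCQ.wc, FCQ.fc])) (fun _ _ => ⟨hb, by norm_num [w3_5, WCQ.wc, FCQ.fc]⟩) (fun h => absurd (by norm_num [w3_5, WCQ.wc, FCQ.fc]) h) hβ hr hT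
    (le_trans (by norm_num [w3_5, WCQ.wc, FCQ.fc]) h1) (le_trans h2 (by norm_num [w3_5, WCQ.wc, FCQ.fc])) ⟨_, LD.L⟩ ⟨_, LD.Lr⟩
    (lt_of okW3_5 okT3_5 (by omega) (by rw [hb]; norm_num [w3_5, WCQ.wc, FCQ.fc]) (le_trans (by norm_num [w3_5, WCQ.wc, FCQ.fc]) h1))

theorem far3_5 {b : ℕ} {β r : ℝ} (hb : b = 3) (hβ : 0 < β) (hr : 10 ≤ r) (hT : c3_5.num.T0 ≤ TT b β r)
    (h1 : (23 / 10 : ℝ) ≤ β * r) (h2 : β * r ≤ 5 / 2) : FarH b β r (-2 * (b : ℤ) + 2) 2 c3_5.num :=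
  (wp3_5 hb hβ hr hT h1 h2).farH okW3_5 (fun _ => okV3_5)

theorem mom3_5 {b : ℕ} {β r : ℝ} (hb : b = 3) (hβ : 0 < β) (hr : 10 ≤ r) (hT : c3_5.num.T0 ≤ TT b β r)
    (h1 : (23 / 10 : ℝ) ≤ β * r) (h2 : β * r ≤ 5 / 2) : MomH b β r (-2 * (b : ℤ) + 2) 2 c3_5.num :=
  (wp3_5 hb hβ hr hT h1 h2).momH okW3_5 okM3_5 (Sg := (17 / 10)) (fun _ => okN3_5)
    (secF3_5 hb h1 h2)

private theorem wp3_6 {b : ℕ} {β r : ℝ} (hb : b = 3) (hβ : 0 < β) (hr : 10 ≤ r) (hT : c3_6.num.T0 ≤ TT b β r)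
    (h1 : (5 / 2 : ℝ) ≤ β * r) (h2 : β * r ≤ 133 / 50) : WP b β r (-2 * (b : ℤ) + 2) 2 c3_6.num w3_6.wc := by
  have LD := line3_6 (b := b) (κ := β * r) (by omega) h1
  exact WP.of2 okW3_6 okP3_6 (fun _ => okR3_6) (by omega) (by rw [hb]; norm_num [w3_6, WCQ.wc, FCQ.fc]) (Or.inr (by rw [hb]; norm_num [w3_6, WCQ.wc, FCQ.fc])) (fun _ _ => ⟨hb, by norm_num [w3_6, WCQ.wc, FCQ.fc]⟩) (fun h => absurd (by norm_num [w3_6, WCQ.wc, FCQ.fc]) h) hβ hr hT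
    (le_trans (by norm_num [w3_6, WCQ.wc, FCQ.fc]) h1) (le_trans h2 (by norm_num [w3_6, WCQ.wc, FCQ.fc])) ⟨_, LD.L⟩ ⟨_, LD.Lr⟩
    (lt_of okW3_6 okT3_6 (by omega) (by rw [hb]; norm_num [w3_6, WCQ.wc, FCQ.fc]) (le_trans (by norm_num [w3_6, WCQ.wc, FCQ.fc]) h1))

theorem far3_6 {b : ℕ} {β r : ℝ} (hb : b = 3) (hβ : 0 < β) (hr : 10 ≤ r) (hT : c3_6.num.T0 ≤ TT b β r)
    (h1 : (5 / 2 : ℝ) ≤ β * r) (h2 : β * r ≤ 133 / 50) : FarH b β r (-2 * (b : ℤ) + 2) 2 c3_6.num :=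
  (wp3_6 hb hβ hr hT h1 h2).farH okW3_6 (fun _ => okV3_6)

theorem mom3_6 {b : ℕ} {β r : ℝ} (hb : b = 3) (hβ : 0 < β) (hr : 10 ≤ r) (hT : c3_6.num.T0 ≤ TT b β r)
    (h1 : (5 / 2 : ℝ) ≤ β * r) (h2 : β * r ≤ 133 / 50) : MomH b β r (-2 * (b : ℤ) + 2) 2 c3_6.num :=
  (wp3_6 hb hβ hr hT h1 h2).momH okW3_6 okM3_6 (Sg := (33 / 20)) (fun _ => okN3_6)
    (secF3_6 hb h1 h2)

private theorem wp3_7 {b : ℕ} {β r : ℝ} (hb : b = 3) (hβ : 0 < β) (hr : 10 ≤ r) (hT : c3_7.num.T0 ≤ TT b β r)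
    (h1 : (133 / 50 : ℝ) ≤ β * r) (h2 : β * r ≤ 20) : WP b β r (-2 * (b : ℤ) + 2) 2 c3_7.num w3_7.wc := by
  have LD := line3_7 (b := b) (κ := β * r) (by omega) h1
  exact WP.of2 okW3_7 okP3_7 (fun _ => okR3_7) (by omega) (by rw [hb]; norm_num [w3_7, WCQ.wc, FCQ.fc]) (Or.inr (by rw [hb]; norm_num [w3_7, WCQ.wc, FCQ.fc])) (fun _ _ => ⟨hb, by norm_num [w3_7, WCQ.wc, FCQ.fc]⟩) (fun h => absurd (by norm_num [w3_7, WCQ.wc, FCQ.fc]) h) hβ hr hT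
    (le_trans (by norm_num [w3_7, WCQ.wc, FCQ.fc]) h1) (le_trans h2 (by norm_num [w3_7, WCQ.wc, FCQ.fc])) ⟨_, LD.L⟩ ⟨_, LD.Lr⟩
    (lt_of okW3_7 okT3_7 (by omega) (by rw [hb]; norm_num [w3_7, WCQ.wc, FCQ.fc]) (le_trans (by norm_num [w3_7, WCQ.wc, FCQ.fc]) h1))

theorem far3_7 {b : ℕ} {β r : ℝ} (hb : b = 3) (hβ : 0 < β) (hr : 10 ≤ r) (hT : c3_7.num.T0 ≤ TT b β r)
    (h1 : (133 / 50 : ℝ) ≤ β * r) (h2 : β * r ≤ 20) : FarH b β r (-2 * (b : ℤ) + 2) 2 c3_7.num :=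
  (wp3_7 hb hβ hr hT h1 h2).farH okW3_7 (fun _ => okV3_7)

theorem mom3_7 {b : ℕ} {β r : ℝ} (hb : b = 3) (hβ : 0 < β) (hr : 10 ≤ r) (hT : c3_7.num.T0 ≤ TT b β r)
    (h1 : (133 / 50 : ℝ) ≤ β * r) (h2 : β * r ≤ 20) : MomH b β r (-2 * (b : ℤ) + 2) 2 c3_7.num :=
  (wp3_7 hb hβ hr hT h1 h2).momH okW3_7 okM3_7 (Sg := (177 / 100)) (fun _ => okN3_7)
    (secF3_7 hb h1 h2)

private theorem wp4_1 {b : ℕ} {β r : ℝ} (hb : b = 4) (hβ : 0 < β) (hr : 10 ≤ r) (hT : c4_1.num.T0 ≤ TT b β r)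
    (h1 : (139 / 100 : ℝ) ≤ β * r) (h2 : β * r ≤ 3 / 2) : WP b β r (-2 * (b : ℤ) + 2) 2 c4_1.num w4_1.wc := by
  have LD := line4_1 (b := b) (κ := β * r) (by omega) h1
  exact WP.of2 okW4_1 okP4_1 (fun _ => okR4_1) (by omega) (by rw [hb]; norm_num [w4_1, WCQ.wc, FCQ.fc]) (Or.inr (by rw [hb]; norm_num [w4_1, WCQ.wc, FCQ.fc])) (fun _ h => absurd h (by norm_num [w4_1, WCQ.wc, FCQ.fc])) (fun _ => ⟨by norm_num [w4_1, WCQ.wc, FCQ.fc], by omega⟩) hβ hr hT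
    (le_trans (by norm_num [w4_1, WCQ.wc, FCQ.fc]) h1) (le_trans h2 (by norm_num [w4_1, WCQ.wc, FCQ.fc])) ⟨_, LD.L⟩ ⟨_, LD.Lr⟩
    (lt_of okW4_1 okT4_1 (by omega) (by rw [hb]; norm_num [w4_1, WCQ.wc, FCQ.fc]) (le_trans (by norm_num [w4_1, WCQ.wc, FCQ.fc]) h1))

theorem far4_1 {b : ℕ} {β r : ℝ} (hb : b = 4) (hβ : 0 < β) (hr : 10 ≤ r) (hT : c4_1.num.T0 ≤ TT b β r)
    (h1 : (139 / 100 : ℝ) ≤ β * r) (h2 : β * r ≤ 3 / 2) : FarH b β r (-2 * (b : ℤ) + 2) 2 c4_1.num :=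
  (wp4_1 hb hβ hr hT h1 h2).farH okW4_1 (fun _ => okV4_1)

theorem mom4_1 {b : ℕ} {β r : ℝ} (hb : b = 4) (hβ : 0 < β) (hr : 10 ≤ r) (hT : c4_1.num.T0 ≤ TT b β r)
    (h1 : (139 / 100 : ℝ) ≤ β * r) (h2 : β * r ≤ 3 / 2) : MomH b β r (-2 * (b : ℤ) + 2) 2 c4_1.num :=
  (wp4_1 hb hβ hr hT h1 h2).momH okW4_1 okM4_1 (Sg := (201 / 100)) (fun _ => okN4_1)
    (secF4_1 hb h1 h2)

private theorem wp4_2 {b : ℕ} {β r : ℝ} (hb : b = 4) (hβ : 0 < β) (hr : 10 ≤ r) (hT : c4_2.num.T0 ≤ TT b β r)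
    (h1 : (3 / 2 : ℝ) ≤ β * r) (h2 : β * r ≤ 8 / 5) : WP b β r (-2 * (b : ℤ) + 2) 2 c4_2.num w4_2.wc := by
  have LD := line4_2 (b := b) (κ := β * r) (by omega) h1
  exact WP.of2 okW4_2 okP4_2 (fun _ => okR4_2) (by omega) (by rw [hb]; norm_num [w4_2, WCQ.wc, FCQ.fc]) (Or.inr (by rw [hb]; norm_num [w4_2, WCQ.wc, FCQ.fc])) (fun _ h => absurd h (by norm_num [w4_2, WCQ.wc, FCQ.fc])) (fun _ => ⟨by norm_num [w4_2, WCQ.wc, FCQ.fc], by omega⟩) hβ hr hT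
    (le_trans (by norm_num [w4_2, WCQ.wc, FCQ.fc]) h1) (le_trans h2 (by norm_num [w4_2, WCQ.wc, FCQ.fc])) ⟨_, LD.L⟩ ⟨_, LD.Lr⟩
    (lt_of okW4_2 okT4_2 (by omega) (by rw [hb]; norm_num [w4_2, WCQ.wc, FCQ.fc]) (le_trans (by norm_num [w4_2, WCQ.wc, FCQ.fc]) h1))

theorem far4_2 {b : ℕ} {β r : ℝ} (hb : b = 4) (hβ : 0 < β) (hr : 10 ≤ r) (hT : c4_2.num.T0 ≤ TT b β r)
    (h1 : (3 / 2 : ℝ) ≤ β * r) (h2 : β * r ≤ 8 / 5) : FarH b β r (-2 * (b : ℤ) + 2) 2 c4_2.num :=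
  (wp4_2 hb hβ hr hT h1 h2).farH okW4_2 (fun _ => okV4_2)

theorem mom4_2 {b : ℕ} {β r : ℝ} (hb : b = 4) (hβ : 0 < β) (hr : 10 ≤ r) (hT : c4_2.num.T0 ≤ TT b β r)
    (h1 : (3 / 2 : ℝ) ≤ β * r) (h2 : β * r ≤ 8 / 5) : MomH b β r (-2 * (b : ℤ) + 2) 2 c4_2.num :=
  (wp4_2 hb hβ hr hT h1 h2).momH okW4_2 okM4_2 (Sg := (48 / 25)) (fun _ => okN4_2)
    (secF4_2 hb h1 h2)

private theorem wp4_3 {b : ℕ} {β r : ℝ} (hb : b = 4) (hβ : 0 < β) (hr : 10 ≤ r) (hT : c4_3.num.T0 ≤ TT b β r)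
    (h1 : (8 / 5 : ℝ) ≤ β * r) (h2 : β * r ≤ 433 / 250) : WP b β r (-2 * (b : ℤ) + 2) 2 c4_3.num w4_3.wc := by
  have LD := line4_3 (b := b) (κ := β * r) (by omega) h1
  exact WP.of2 okW4_3 okP4_3 (fun _ => okR4_3) (by omega) (by rw [hb]; norm_num [w4_3, WCQ.wc, FCQ.fc]) (Or.inr (by rw [hb]; norm_num [w4_3, WCQ.wc, FCQ.fc])) (fun _ h => absurd h (by norm_num [w4_3, WCQ.wc, FCQ.fc])) (fun _ => ⟨by norm_num [w4_3, WCQ.wc, FCQ.fc], by omega⟩) hβ hr hT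
    (le_trans (by norm_num [w4_3, WCQ.wc, FCQ.fc]) h1) (le_trans h2 (by norm_num [w4_3, WCQ.wc, FCQ.fc])) ⟨_, LD.L⟩ ⟨_, LD.Lr⟩
    (lt_of okW4_3 okT4_3 (by omega) (by rw [hb]; norm_num [w4_3, WCQ.wc, FCQ.fc]) (le_trans (by norm_num [w4_3, WCQ.wc, FCQ.fc]) h1))

theorem far4_3 {b : ℕ} {β r : ℝ} (hb : b = 4) (hβ : 0 < β) (hr : 10 ≤ r) (hT : c4_3.num.T0 ≤ TT b β r)
    (h1 : (8 / 5 : ℝ) ≤ β * r) (h2 : β * r ≤ 433 / 250) : FarH b β r (-2 * (b : ℤ) + 2) 2 c4_3.num :=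
  (wp4_3 hb hβ hr hT h1 h2).farH okW4_3 (fun _ => okV4_3)

theorem mom4_3 {b : ℕ} {β r : ℝ} (hb : b = 4) (hβ : 0 < β) (hr : 10 ≤ r) (hT : c4_3.num.T0 ≤ TT b β r)
    (h1 : (8 / 5 : ℝ) ≤ β * r) (h2 : β * r ≤ 433 / 250) : MomH b β r (-2 * (b : ℤ) + 2) 2 c4_3.num :=
  (wp4_3 hb hβ hr hT h1 h2).momH okW4_3 okM4_3 (Sg := (187 / 100)) (fun _ => okN4_3)
    (secF4_3 hb h1 h2)

private theorem wp4_4 {b : ℕ} {β r : ℝ} (hb : b = 4) (hβ : 0 < β) (hr : 10 ≤ r) (hT : c4_4.num.T0 ≤ TT b β r)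
    (h1 : (433 / 250 : ℝ) ≤ β * r) (h2 : β * r ≤ 91 / 50) : WP b β r (-2 * (b : ℤ) + 2) 2 c4_4.num w4_4.wc := by
  have LD := line4_4 (b := b) (κ := β * r) (by omega) h1
  exact WP.of2 okW4_4 okP4_4 (fun _ => okR4_4) (by omega) (by rw [hb]; norm_num [w4_4, WCQ.wc, FCQ.fc]) (Or.inr (by rw [hb]; norm_num [w4_4, WCQ.wc, FCQ.fc])) (fun _ h => absurd h (by norm_num [w4_4, WCQ.wc, FCQ.fc])) (fun _ => ⟨by norm_num [w4_4, WCQ.wc, FCQ.fc], by omega⟩) hβ hr hT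
    (le_trans (by norm_num [w4_4, WCQ.wc, FCQ.fc]) h1) (le_trans h2 (by norm_num [w4_4, WCQ.wc, FCQ.fc])) ⟨_, LD.L⟩ ⟨_, LD.Lr⟩
    (lt_of okW4_4 okT4_4 (by omega) (by rw [hb]; norm_num [w4_4, WCQ.wc, FCQ.fc]) (le_trans (by norm_num [w4_4, WCQ.wc, FCQ.fc]) h1))

theorem far4_4 {b : ℕ} {β r : ℝ} (hb : b = 4) (hβ : 0 < β) (hr : 10 ≤ r) (hT : c4_4.num.T0 ≤ TT b β r)
    (h1 : (433 / 250 : ℝ) ≤ β * r) (h2 : β * r ≤ 91 / 50) : FarH b β r (-2 * (b : ℤ) + 2) 2 c4_4.num :=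
  (wp4_4 hb hβ hr hT h1 h2).farH okW4_4 (fun _ => okV4_4)

theorem mom4_4 {b : ℕ} {β r : ℝ} (hb : b = 4) (hβ : 0 < β) (hr : 10 ≤ r) (hT : c4_4.num.T0 ≤ TT b β r)
    (h1 : (433 / 250 : ℝ) ≤ β * r) (h2 : β * r ≤ 91 / 50) : MomH b β r (-2 * (b : ℤ) + 2) 2 c4_4.num :=
  (wp4_4 hb hβ hr hT h1 h2).momH okW4_4 okM4_4 (Sg := (9 / 5)) (fun _ => okN4_4)
    (secF4_4 hb h1 h2)

private theorem wp4_5 {b : ℕ} {β r : ℝ} (hb : b = 4) (hβ : 0 < β) (hr : 10 ≤ r) (hT : c4_5.num.T0 ≤ TT b β r)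
    (h1 : (91 / 50 : ℝ) ≤ β * r) (h2 : β * r ≤ 19 / 10) : WP b β r (-2 * (b : ℤ) + 2) 2 c4_5.num w4_5.wc := by
  have LD := line4_5 (b := b) (κ := β * r) (by omega) h1
  exact WP.of2 okW4_5 okP4_5 (fun _ => okR4_5) (by omega) (by rw [hb]; norm_num [w4_5, WCQ.wc, FCQ.fc]) (Or.inr (by rw [hb]; norm_num [w4_5, WCQ.wc, FCQ.fc])) (fun _ h => absurd h (by norm_num [w4_5, WCQ.wc, FCQ.fc])) (fun _ => ⟨by norm_num [w4_5, WCQ.wc, FCQ.fc], by omega⟩) hβ hr hT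
    (le_trans (by norm_num [w4_5, WCQ.wc, FCQ.fc]) h1) (le_trans h2 (by norm_num [w4_5, WCQ.wc, FCQ.fc])) ⟨_, LD.L⟩ ⟨_, LD.Lr⟩
    (lt_of okW4_5 okT4_5 (by omega) (by rw [hb]; norm_num [w4_5, WCQ.wc, FCQ.fc]) (le_trans (by norm_num [w4_5, WCQ.wc, FCQ.fc]) h1))

theorem far4_5 {b : ℕ} {β r : ℝ} (hb : b = 4) (hβ : 0 < β) (hr : 10 ≤ r) (hT : c4_5.num.T0 ≤ TT b β r)
    (h1 : (91 / 50 : ℝ) ≤ β * r) (h2 : β * r ≤ 19 / 10) : FarH b β r (-2 * (b : ℤ) + 2) 2 c4_5.num :=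
  (wp4_5 hb hβ hr hT h1 h2).farH okW4_5 (fun _ => okV4_5)

theorem mom4_5 {b : ℕ} {β r : ℝ} (hb : b = 4) (hβ : 0 < β) (hr : 10 ≤ r) (hT : c4_5.num.T0 ≤ TT b β r)
    (h1 : (91 / 50 : ℝ) ≤ β * r) (h2 : β * r ≤ 19 / 10) : MomH b β r (-2 * (b : ℤ) + 2) 2 c4_5.num :=
  (wp4_5 hb hβ hr hT h1 h2).momH okW4_5 okM4_5 (Sg := (173 / 100)) (fun _ => okN4_5)
    (secF4_5 hb h1 h2)

private theorem wp4_6 {b : ℕ} {β r : ℝ} (hb : b = 4) (hβ : 0 < β) (hr : 10 ≤ r) (hT : c4_6.num.T0 ≤ TT b β r)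
    (h1 : (19 / 10 : ℝ) ≤ β * r) (h2 : β * r ≤ 23 / 10) : WP b β r (-2 * (b : ℤ) + 2) 2 c4_6.num w4_6.wc := by
  have LD := line4_6 (b := b) (κ := β * r) (by omega) h1
  exact WP.of2 okW4_6 okP4_6 (fun _ => okR4_6) (by omega) (by rw [hb]; norm_num [w4_6, WCQ.wc, FCQ.fc]) (Or.inr (by rw [hb]; norm_num [w4_6, WCQ.wc, FCQ.fc])) (fun _ h => absurd h (by norm_num [w4_6, WCQ.wc, FCQ.fc])) (fun _ => ⟨by norm_num [w4_6, WCQ.wc, FCQ.fc], by omega⟩) hβ hr hT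
    (le_trans (by norm_num [w4_6, WCQ.wc, FCQ.fc]) h1) (le_trans h2 (by norm_num [w4_6, WCQ.wc, FCQ.fc])) ⟨_, LD.L⟩ ⟨_, LD.Lr⟩
    (lt_of okW4_6 okT4_6 (by omega) (by rw [hb]; norm_num [w4_6, WCQ.wc, FCQ.fc]) (le_trans (by norm_num [w4_6, WCQ.wc, FCQ.fc]) h1))

theorem far4_6 {b : ℕ} {β r : ℝ} (hb : b = 4) (hβ : 0 < β) (hr : 10 ≤ r) (hT : c4_6.num.T0 ≤ TT b β r)
    (h1 : (19 / 10 : ℝ) ≤ β * r) (h2 : β * r ≤ 23 / 10) : FarH b β r (-2 * (b : ℤ) + 2) 2 c4_6.num :=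
  (wp4_6 hb hβ hr hT h1 h2).farH okW4_6 (fun _ => okV4_6)

theorem mom4_6 {b : ℕ} {β r : ℝ} (hb : b = 4) (hβ : 0 < β) (hr : 10 ≤ r) (hT : c4_6.num.T0 ≤ TT b β r)
    (h1 : (19 / 10 : ℝ) ≤ β * r) (h2 : β * r ≤ 23 / 10) : MomH b β r (-2 * (b : ℤ) + 2) 2 c4_6.num :=
  (wp4_6 hb hβ hr hT h1 h2).momH okW4_6 okM4_6 (Sg := (7 / 4)) (fun _ => okN4_6)
    (secF4_6 hb h1 h2)

private theorem wp4_7 {b : ℕ} {β r : ℝ} (hb : b = 4) (hβ : 0 < β) (hr : 10 ≤ r) (hT : c4_7.num.T0 ≤ TT b β r)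
    (h1 : (23 / 10 : ℝ) ≤ β * r) (h2 : β * r ≤ 20) : WP b β r (-2 * (b : ℤ) + 2) 2 c4_7.num w4_7.wc := by
  have LD := line4_7 (b := b) (κ := β * r) (by omega) h1
  exact WP.of2 okW4_7 okP4_7 (fun _ => okR4_7) (by omega) (by rw [hb]; norm_num [w4_7, WCQ.wc, FCQ.fc]) (Or.inr (by rw [hb]; norm_num [w4_7, WCQ.wc, FCQ.fc])) (fun _ h => absurd h (by norm_num [w4_7, WCQ.wc, FCQ.fc])) (fun _ => ⟨by norm_num [w4_7, WCQ.wc, FCQ.fc], by omega⟩) hβ hr hT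
    (le_trans (by norm_num [w4_7, WCQ.wc, FCQ.fc]) h1) (le_trans h2 (by norm_num [w4_7, WCQ.wc, FCQ.fc])) ⟨_, LD.L⟩ ⟨_, LD.Lr⟩
    (lt_of okW4_7 okT4_7 (by omega) (by rw [hb]; norm_num [w4_7, WCQ.wc, FCQ.fc]) (le_trans (by norm_num [w4_7, WCQ.wc, FCQ.fc]) h1))

theorem far4_7 {b : ℕ} {β r : ℝ} (hb : b = 4) (hβ : 0 < β) (hr : 10 ≤ r) (hT : c4_7.num.T0 ≤ TT b β r)
    (h1 : (23 / 10 : ℝ) ≤ β * r) (h2 : β * r ≤ 20) : FarH b β r (-2 * (b : ℤ) + 2) 2 c4_7.num :=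
  (wp4_7 hb hβ hr hT h1 h2).farH okW4_7 (fun _ => okV4_7)

theorem mom4_7 {b : ℕ} {β r : ℝ} (hb : b = 4) (hβ : 0 < β) (hr : 10 ≤ r) (hT : c4_7.num.T0 ≤ TT b β r)
    (h1 : (23 / 10 : ℝ) ≤ β * r) (h2 : β * r ≤ 20) : MomH b β r (-2 * (b : ℤ) + 2) 2 c4_7.num :=
  (wp4_7 hb hβ hr hT h1 h2).momH okW4_7 okM4_7 (Sg := (183 / 100)) (fun _ => okN4_7)
    (secF4_7 hb h1 h2)

end Sok.R2
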