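import Pool.Agent.Lib.MP_816dec_an.R2Asm
import Pool.Agent.Lib.MP_816dec_an.R2X5N
import Pool.Agent.Lib.MP_816dec_an.R2K20
import Pool.Agent.Lib.MP_816dec_an.R2Lin
import Pool.Agent.Lib.MP_816dec_an.R2FinS
import Pool.Agent.Lib.MP_816dec_an.R2NearA
import Pool.Agent.Lib.MP_816dec_an.R2NearB
import Pool.Agent.Lib.MP_816dec_an.R2NearC
import Pool.Agent.Lib.MP_816dec_an.R2WEndA
import Pool.Agent.Lib.MP_816dec_an.R2WEndB
import Pool.Agent.Lib.MP_816dec_an.R2WEndC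

/-!
MP_816dec_an (row R2): the final theorem
-/

set_option autoImplicit false

open Complex Set Filter Topology

namespace Sok.R2

theorem circ1_1 {b : ℕ} {p : ℤ} {β r : ℝ} (hb : b = 1) (hp : IsCoprime (b : ℤ) p) (hβ : 0 < β) (hr : 10 ≤ r)
    (hC : Real.sqrt 3 / 2 * ((b : ℝ) ^ 2 * (1 + (β * r) ^ 2)) ≤ 2 * Real.pi * r)
    (h1 : (47 / 10 : ℝ) ≤ β * r) (h2 : β * r ≤ 28 / 5) : Circ (2 * Real.pi * p / b + β) r := by
  have hT : c1_1.num.T0 ≤ TT b β r := hT_of (by omega) hr hC (by linarith) h2 (Or.inr (by rw [hb]; unfold c1_1 NumQ.num; norm_num))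
  have l := line1_1 (b := b) (by omega) h1
  exact close (aw := (-1)) (n := 3) (by omega) hp hβ (by linarith) (by norm_num) (by norm_num) (by subst hb; norm_num)
    (Hyp.of hT (geoU1_1 (by omega) h1 h2) (geoL1_1 (by omega) h1) (LineData.f1R l) (LineData.mu l) (near1_1 hb hβ hr hT h1 h2)
      (slope1_1 hb hβ hr hT h1 h2) (far1_1 hb hβ hr hT h1 h2) (mom1_1 hb hβ hr hT h1 h2)) ok1_1

theorem circ1_2 {b : ℕ} {p : ℤ} {β r : ℝ} (hb : b = 1) (hp : IsCoprime (b : ℤ) p) (hβ : 0 < β) (hr : 10 ≤ r)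
    (hC : Real.sqrt 3 / 2 * ((b : ℝ) ^ 2 * (1 + (β * r) ^ 2)) ≤ 2 * Real.pi * r)
    (h1 : (28 / 5 : ℝ) ≤ β * r) (h2 : β * r ≤ 69 / 10) : Circ (2 * Real.pi * p / b + β) r := by
  have hT : c1_2.num.T0 ≤ TT b β r := hT_of (by omega) hr hC (by linarith) h2 (Or.inr (by rw [hb]; unfold c1_2 NumQ.num; norm_num))
  have l := line1_2 (b := b) (by omega) h1
  exact close (aw := (-1)) (n := 3) (by omega) hp hβ (by linarith) (by norm_num) (by norm_num) (by subst hb; norm_num)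
    (Hyp.of hT (geoU1_2 (by omega) h1 h2) (geoL1_2 (by omega) h1) (LineData.f1R l) (LineData.mu l) (near1_2 hb hβ hr hT h1 h2)
      (slope1_2 hb hβ hr hT h1 h2) (far1_2 hb hβ hr hT h1 h2) (mom1_2 hb hβ hr hT h1 h2)) ok1_2

theorem circ1_3 {b : ℕ} {p : ℤ} {β r : ℝ} (hb : b = 1) (hp : IsCoprime (b : ℤ) p) (hβ : 0 < β) (hr : 10 ≤ r)
    (hC : Real.sqrt 3 / 2 * ((b : ℝ) ^ 2 * (1 + (β * r) ^ 2)) ≤ 2 * Real.pi * r)
    (h1 : (69 / 10 : ℝ) ≤ β * r) (h2 : β * r ≤ 77 / 10) : Circ (2 * Real.pi * p / b + β) r := by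
  have hT : c1_3.num.T0 ≤ TT b β r := hT_of (by omega) hr hC (by linarith) h2 (Or.inr (by rw [hb]; unfold c1_3 NumQ.num; norm_num))
  have l := line1_3 (b := b) (by omega) h1
  exact close (aw := (-1)) (n := 3) (by omega) hp hβ (by linarith) (by norm_num) (by norm_num) (by subst hb; norm_num)
    (Hyp.of hT (geoU1_3 (by omega) h1 h2) (geoL1_3 (by omega) h1) (LineData.f1R l) (LineData.mu l) (near1_3 hb hβ hr hT h1 h2)
      (slope1_3 hb hβ hr hT h1 h2) (far1_3 hb hβ hr hT h1 h2) (mom1_3 hb hβ hr hT h1 h2)) ok1_3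

theorem circ1_4 {b : ℕ} {p : ℤ} {β r : ℝ} (hb : b = 1) (hp : IsCoprime (b : ℤ) p) (hβ : 0 < β) (hr : 10 ≤ r)
    (hC : Real.sqrt 3 / 2 * ((b : ℝ) ^ 2 * (1 + (β * r) ^ 2)) ≤ 2 * Real.pi * r)
    (h1 : (77 / 10 : ℝ) ≤ β * r) (h2 : β * r ≤ 41 / 5) : Circ (2 * Real.pi * p / b + β) r := by
  have hT : c1_4.num.T0 ≤ TT b β r := hT_of (by omega) hr hC (by linarith) h2 (Or.inr (by rw [hb]; unfold c1_4 NumQ.num; norm_num))
  have l := line1_4 (b := b) (by omega) h1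
  exact close (aw := (-1)) (n := 3) (by omega) hp hβ (by linarith) (by norm_num) (by norm_num) (by subst hb; norm_num)
    (Hyp.of hT (geoU1_4 (by omega) h1 h2) (geoL1_4 (by omega) h1) (LineData.f1R l) (LineData.mu l) (near1_4 hb hβ hr hT h1 h2)
      (slope1_4 hb hβ hr hT h1 h2) (far1_4 hb hβ hr hT h1 h2) (mom1_4 hb hβ hr hT h1 h2)) ok1_4

theorem circ1_5 {b : ℕ} {p : ℤ} {β r : ℝ} (hb : b = 1) (hp : IsCoprime (b : ℤ) p) (hβ : 0 < β) (hr : 10 ≤ r)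
    (hC : Real.sqrt 3 / 2 * ((b : ℝ) ^ 2 * (1 + (β * r) ^ 2)) ≤ 2 * Real.pi * r)
    (h1 : (41 / 5 : ℝ) ≤ β * r) (h2 : β * r ≤ 19 / 2) : Circ (2 * Real.pi * p / b + β) r := by
  have hT : c1_5.num.T0 ≤ TT b β r := hT_of (by omega) hr hC (by linarith) h2 (Or.inl (by unfold c1_5 NumQ.num; norm_num))
  have l := line1_5 (b := b) (by omega) h1
  exact close (aw := (-1)) (n := 3) (by omega) hp hβ (by linarith) (by norm_num) (by norm_num) (by subst hb; norm_num)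
    (Hyp.of hT (geoU1_5 (by omega) h1 h2) (geoL1_5 (by omega) h1) (LineData.f1R l) (LineData.mu l) (near1_5 hb hβ hr hT h1 h2)
      (slope1_5 hb hβ hr hT h1 h2) (far1_5 hb hβ hr hT h1 h2) (mom1_5 hb hβ hr hT h1 h2)) ok1_5

theorem circ1_6 {b : ℕ} {p : ℤ} {β r : ℝ} (hb : b = 1) (hp : IsCoprime (b : ℤ) p) (hβ : 0 < β) (hr : 10 ≤ r)
    (hC : Real.sqrt 3 / 2 * ((b : ℝ) ^ 2 * (1 + (β * r) ^ 2)) ≤ 2 * Real.pi * r)
    (h1 : (19 / 2 : ℝ) ≤ β * r) (h2 : β * r ≤ 20) : Circ (2 * Real.pi * p / b + β) r := by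
  have hT : c1_6.num.T0 ≤ TT b β r := hT_of (by omega) hr hC (by linarith) h2 (Or.inl (by unfold c1_6 NumQ.num; norm_num))
  have l := line1_6 (b := b) (by omega) h1
  exact close (aw := (-1)) (n := 3) (by omega) hp hβ (by linarith) (by norm_num) (by norm_num) (by subst hb; norm_num)
    (Hyp.of hT (geoU1_6 (by omega) h1 h2) (geoL1_6 (by omega) h1) (LineData.f1R l) (LineData.mu l) (near1_6 hb hβ hr hT h1 h2)
      (slope1_6 hb hβ hr hT h1 h2) (far1_6 hb hβ hr hT h1 h2) (mom1_6 hb hβ hr hT h1 h2)) ok1_6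

theorem circ2_1 {b : ℕ} {p : ℤ} {β r : ℝ} (hb : b = 2) (hp : IsCoprime (b : ℤ) p) (hβ : 0 < β) (hr : 10 ≤ r)
    (hC : Real.sqrt 3 / 2 * ((b : ℝ) ^ 2 * (1 + (β * r) ^ 2)) ≤ 2 * Real.pi * r)
    (h1 : (3 : ℝ) ≤ β * r) (h2 : β * r ≤ 7 / 2) : Circ (2 * Real.pi * p / b + β) r := by
  have hT : c2_1.num.T0 ≤ TT b β r := hT_of (by omega) hr hC (by linarith) h2 (Or.inr (by rw [hb]; unfold c2_1 NumQ.num; norm_num))
  have l := line2_1 (b := b) (by omega) h1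
  exact close (aw := (-2 * (b : ℤ) + 2)) (n := 2) (by omega) hp hβ (by linarith) (by norm_num) (by omega) (by push_cast; omega)
    (Hyp.of hT (geoU2_1 (by omega) h1 h2) (geoL2_1 (by omega) h1) (LineData.f1R l) (LineData.mu l) (near2_1 hb hβ hr hT h1 h2)
      (slope2_1 hb hβ hr hT h1 h2) (far2_1 hb hβ hr hT h1 h2) (mom2_1 hb hβ hr hT h1 h2)) ok2_1

theorem circ2_2 {b : ℕ} {p : ℤ} {β r : ℝ} (hb : b = 2) (hp : IsCoprime (b : ℤ) p) (hβ : 0 < β) (hr : 10 ≤ r)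
    (hC : Real.sqrt 3 / 2 * ((b : ℝ) ^ 2 * (1 + (β * r) ^ 2)) ≤ 2 * Real.pi * r)
    (h1 : (7 / 2 : ℝ) ≤ β * r) (h2 : β * r ≤ 39 / 10) : Circ (2 * Real.pi * p / b + β) r := by
  have hT : c2_2.num.T0 ≤ TT b β r := hT_of (by omega) hr hC (by linarith) h2 (Or.inr (by rw [hb]; unfold c2_2 NumQ.num; norm_num))
  have l := line2_2 (b := b) (by omega) h1
  exact close (aw := (-2 * (b : ℤ) + 2)) (n := 2) (by omega) hp hβ (by linarith) (by norm_num) (by omega) (by push_cast; omega)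
    (Hyp.of hT (geoU2_2 (by omega) h1 h2) (geoL2_2 (by omega) h1) (LineData.f1R l) (LineData.mu l) (near2_2 hb hβ hr hT h1 h2)
      (slope2_2 hb hβ hr hT h1 h2) (far2_2 hb hβ hr hT h1 h2) (mom2_2 hb hβ hr hT h1 h2)) ok2_2

theorem circ2_3 {b : ℕ} {p : ℤ} {β r : ℝ} (hb : b = 2) (hp : IsCoprime (b : ℤ) p) (hβ : 0 < β) (hr : 10 ≤ r)
    (hC : Real.sqrt 3 / 2 * ((b : ℝ) ^ 2 * (1 + (β * r) ^ 2)) ≤ 2 * Real.pi * r)
    (h1 : (39 / 10 : ℝ) ≤ β * r) (h2 : β * r ≤ 21 / 5) : Circ (2 * Real.pi * p / b + β) r := by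
  have hT : c2_3.num.T0 ≤ TT b β r := hT_of (by omega) hr hC (by linarith) h2 (Or.inl (by unfold c2_3 NumQ.num; norm_num))
  have l := line2_3 (b := b) (by omega) h1
  exact close (aw := (-2 * (b : ℤ) + 2)) (n := 2) (by omega) hp hβ (by linarith) (by norm_num) (by omega) (by push_cast; omega)
    (Hyp.of hT (geoU2_3 (by omega) h1 h2) (geoL2_3 (by omega) h1) (LineData.f1R l) (LineData.mu l) (near2_3 hb hβ hr hT h1 h2)
      (slope2_3 hb hβ hr hT h1 h2) (far2_3 hb hβ hr hT h1 h2) (mom2_3 hb hβ hr hT h1 h2)) ok2_3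

theorem circ2_4 {b : ℕ} {p : ℤ} {β r : ℝ} (hb : b = 2) (hp : IsCoprime (b : ℤ) p) (hβ : 0 < β) (hr : 10 ≤ r)
    (hC : Real.sqrt 3 / 2 * ((b : ℝ) ^ 2 * (1 + (β * r) ^ 2)) ≤ 2 * Real.pi * r)
    (h1 : (21 / 5 : ℝ) ≤ β * r) (h2 : β * r ≤ 20) : Circ (2 * Real.pi * p / b + β) r := by
  have hT : c2_4.num.T0 ≤ TT b β r := hT_of (by omega) hr hC (by linarith) h2 (Or.inl (by unfold c2_4 NumQ.num; norm_num))
  have l := line2_4 (b := b) (by omega) h1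
  exact close (aw := (-2 * (b : ℤ) + 2)) (n := 2) (by omega) hp hβ (by linarith) (by norm_num) (by omega) (by push_cast; omega)
    (Hyp.of hT (geoU2_4 (by omega) h1 h2) (geoL2_4 (by omega) h1) (LineData.f1R l) (LineData.mu l) (near2_4 hb hβ hr hT h1 h2)
      (slope2_4 hb hβ hr hT h1 h2) (far2_4 hb hβ hr hT h1 h2) (mom2_4 hb hβ hr hT h1 h2)) ok2_4

theorem circ3_1 {b : ℕ} {p : ℤ} {β r : ℝ} (hb : b = 3) (hp : IsCoprime (b : ℤ) p) (hβ : 0 < β) (hr : 10 ≤ r)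
    (hC : Real.sqrt 3 / 2 * ((b : ℝ) ^ 2 * (1 + (β * r) ^ 2)) ≤ 2 * Real.pi * r)
    (h1 : (139 / 100 : ℝ) ≤ β * r) (h2 : β * r ≤ 8 / 5) : Circ (2 * Real.pi * p / b + β) r := by
  have hT : c3_1.num.T0 ≤ TT b β r := hT_of (by omega) hr hC (by linarith) h2 (Or.inr (by rw [hb]; unfold c3_1 NumQ.num; norm_num))
  have l := line3_1 (b := b) (by omega) h1
  exact close (aw := (-2 * (b : ℤ) + 2)) (n := 2) (by omega) hp hβ (by linarith) (by norm_num) (by omega) (by push_cast; omega)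
    (Hyp.of hT (geoU3_1 (by omega) h1 h2) (geoL3_1 (by omega) h1) (LineData.f1R l) (LineData.mu l) (near3_1 hb hβ hr hT h1 h2)
      (slope3_1 hb hβ hr hT h1 h2) (far3_1 hb hβ hr hT h1 h2) (mom3_1 hb hβ hr hT h1 h2)) ok3_1

theorem circ3_2 {b : ℕ} {p : ℤ} {β r : ℝ} (hb : b = 3) (hp : IsCoprime (b : ℤ) p) (hβ : 0 < β) (hr : 10 ≤ r)
    (hC : Real.sqrt 3 / 2 * ((b : ℝ) ^ 2 * (1 + (β * r) ^ 2)) ≤ 2 * Real.pi * r)
    (h1 : (8 / 5 : ℝ) ≤ β * r) (h2 : β * r ≤ 19 / 10) : Circ (2 * Real.pi * p / b + β) r := by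
  have hT : c3_2.num.T0 ≤ TT b β r := hT_of (by omega) hr hC (by linarith) h2 (Or.inr (by rw [hb]; unfold c3_2 NumQ.num; norm_num))
  have l := line3_2 (b := b) (by omega) h1
  exact close (aw := (-2 * (b : ℤ) + 2)) (n := 2) (by omega) hp hβ (by linarith) (by norm_num) (by omega) (by push_cast; omega)
    (Hyp.of hT (geoU3_2 (by omega) h1 h2) (geoL3_2 (by omega) h1) (LineData.f1R l) (LineData.mu l) (near3_2 hb hβ hr hT h1 h2)
      (slope3_2 hb hβ hr hT h1 h2) (far3_2 hb hβ hr hT h1 h2) (mom3_2 hb hβ hr hT h1 h2)) ok3_2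

theorem circ3_3 {b : ℕ} {p : ℤ} {β r : ℝ} (hb : b = 3) (hp : IsCoprime (b : ℤ) p) (hβ : 0 < β) (hr : 10 ≤ r)
    (hC : Real.sqrt 3 / 2 * ((b : ℝ) ^ 2 * (1 + (β * r) ^ 2)) ≤ 2 * Real.pi * r)
    (h1 : (19 / 10 : ℝ) ≤ β * r) (h2 : β * r ≤ 21 / 10) : Circ (2 * Real.pi * p / b + β) r := by
  have hT : c3_3.num.T0 ≤ TT b β r := hT_of (by omega) hr hC (by linarith) h2 (Or.inr (by rw [hb]; unfold c3_3 NumQ.num; norm_num))
  have l := line3_3 (b := b) (by omega) h1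
  exact close (aw := (-2 * (b : ℤ) + 2)) (n := 2) (by omega) hp hβ (by linarith) (by norm_num) (by omega) (by push_cast; omega)
    (Hyp.of hT (geoU3_3 (by omega) h1 h2) (geoL3_3 (by omega) h1) (LineData.f1R l) (LineData.mu l) (near3_3 hb hβ hr hT h1 h2)
      (slope3_3 hb hβ hr hT h1 h2) (far3_3 hb hβ hr hT h1 h2) (mom3_3 hb hβ hr hT h1 h2)) ok3_3

theorem circ3_4 {b : ℕ} {p : ℤ} {β r : ℝ} (hb : b = 3) (hp : IsCoprime (b : ℤ) p) (hβ : 0 < β) (hr : 10 ≤ r)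
    (hC : Real.sqrt 3 / 2 * ((b : ℝ) ^ 2 * (1 + (β * r) ^ 2)) ≤ 2 * Real.pi * r)
    (h1 : (21 / 10 : ℝ) ≤ β * r) (h2 : β * r ≤ 23 / 10) : Circ (2 * Real.pi * p / b + β) r := by
  have hT : c3_4.num.T0 ≤ TT b β r := hT_of (by omega) hr hC (by linarith) h2 (Or.inr (by rw [hb]; unfold c3_4 NumQ.num; norm_num))
  have l := line3_4 (b := b) (by omega) h1
  exact close (aw := (-2 * (b : ℤ) + 2)) (n := 2) (by omega) hp hβ (by linarith) (by norm_num) (by omega) (by push_cast; omega)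
    (Hyp.of hT (geoU3_4 (by omega) h1 h2) (geoL3_4 (by omega) h1) (LineData.f1R l) (LineData.mu l) (near3_4 hb hβ hr hT h1 h2)
      (slope3_4 hb hβ hr hT h1 h2) (far3_4 hb hβ hr hT h1 h2) (mom3_4 hb hβ hr hT h1 h2)) ok3_4

theorem circ3_5 {b : ℕ} {p : ℤ} {β r : ℝ} (hb : b = 3) (hp : IsCoprime (b : ℤ) p) (hβ : 0 < β) (hr : 10 ≤ r)
    (hC : Real.sqrt 3 / 2 * ((b : ℝ) ^ 2 * (1 + (β * r) ^ 2)) ≤ 2 * Real.pi * r)
    (h1 : (23 / 10 : ℝ) ≤ β * r) (h2 : β * r ≤ 5 / 2) : Circ (2 * Real.pi * p / b + β) r := by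
  have hT : c3_5.num.T0 ≤ TT b β r := hT_of (by omega) hr hC (by linarith) h2 (Or.inr (by rw [hb]; unfold c3_5 NumQ.num; norm_num))
  have l := line3_5 (b := b) (by omega) h1
  exact close (aw := (-2 * (b : ℤ) + 2)) (n := 2) (by omega) hp hβ (by linarith) (by norm_num) (by omega) (by push_cast; omega)
    (Hyp.of hT (geoU3_5 (by omega) h1 h2) (geoL3_5 (by omega) h1) (LineData.f1R l) (LineData.mu l) (near3_5 hb hβ hr hT h1 h2)
      (slope3_5 hb hβ hr hT h1 h2) (far3_5 hb hβ hr hT h1 h2) (mom3_5 hb hβ hr hT h1 h2)) ok3_5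

theorem circ3_6 {b : ℕ} {p : ℤ} {β r : ℝ} (hb : b = 3) (hp : IsCoprime (b : ℤ) p) (hβ : 0 < β) (hr : 10 ≤ r)
    (hC : Real.sqrt 3 / 2 * ((b : ℝ) ^ 2 * (1 + (β * r) ^ 2)) ≤ 2 * Real.pi * r)
    (h1 : (5 / 2 : ℝ) ≤ β * r) (h2 : β * r ≤ 133 / 50) : Circ (2 * Real.pi * p / b + β) r := by
  have hT : c3_6.num.T0 ≤ TT b β r := hT_of (by omega) hr hC (by linarith) h2 (Or.inl (by unfold c3_6 NumQ.num; norm_num))
  have l := line3_6 (b := b) (by omega) h1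
  exact close (aw := (-2 * (b : ℤ) + 2)) (n := 2) (by omega) hp hβ (by linarith) (by norm_num) (by omega) (by push_cast; omega)
    (Hyp.of hT (geoU3_6 (by omega) h1 h2) (geoL3_6 (by omega) h1) (LineData.f1R l) (LineData.mu l) (near3_6 hb hβ hr hT h1 h2)
      (slope3_6 hb hβ hr hT h1 h2) (far3_6 hb hβ hr hT h1 h2) (mom3_6 hb hβ hr hT h1 h2)) ok3_6

theorem circ3_7 {b : ℕ} {p : ℤ} {β r : ℝ} (hb : b = 3) (hp : IsCoprime (b : ℤ) p) (hβ : 0 < β) (hr : 10 ≤ r)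
    (hC : Real.sqrt 3 / 2 * ((b : ℝ) ^ 2 * (1 + (β * r) ^ 2)) ≤ 2 * Real.pi * r)
    (h1 : (133 / 50 : ℝ) ≤ β * r) (h2 : β * r ≤ 20) : Circ (2 * Real.pi * p / b + β) r := by
  have hT : c3_7.num.T0 ≤ TT b β r := hT_of (by omega) hr hC (by linarith) h2 (Or.inl (by unfold c3_7 NumQ.num; norm_num))
  have l := line3_7 (b := b) (by omega) h1
  exact close (aw := (-2 * (b : ℤ) + 2)) (n := 2) (by omega) hp hβ (by linarith) (by norm_num) (by omega) (by push_cast; omega)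
    (Hyp.of hT (geoU3_7 (by omega) h1 h2) (geoL3_7 (by omega) h1) (LineData.f1R l) (LineData.mu l) (near3_7 hb hβ hr hT h1 h2)
      (slope3_7 hb hβ hr hT h1 h2) (far3_7 hb hβ hr hT h1 h2) (mom3_7 hb hβ hr hT h1 h2)) ok3_7

theorem circ4_1 {b : ℕ} {p : ℤ} {β r : ℝ} (hb : b = 4) (hp : IsCoprime (b : ℤ) p) (hβ : 0 < β) (hr : 10 ≤ r)
    (hC : Real.sqrt 3 / 2 * ((b : ℝ) ^ 2 * (1 + (β * r) ^ 2)) ≤ 2 * Real.pi * r)
    (h1 : (139 / 100 : ℝ) ≤ β * r) (h2 : β * r ≤ 3 / 2) : Circ (2 * Real.pi * p / b + β) r := by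
  have hT : c4_1.num.T0 ≤ TT b β r := hT_of (by omega) hr hC (by linarith) h2 (Or.inr (by rw [hb]; unfold c4_1 NumQ.num; norm_num))
  have l := line4_1 (b := b) (by omega) h1
  exact close (aw := (-2 * (b : ℤ) + 2)) (n := 2) (by omega) hp hβ (by linarith) (by norm_num) (by omega) (by push_cast; omega)
    (Hyp.of hT (geoU4_1 (by omega) h1 h2) (geoL4_1 (by omega) h1) (LineData.f1R l) (LineData.mu l) (near4_1 hb hβ hr hT h1 h2)
      (slope4_1 hb hβ hr hT h1 h2) (far4_1 hb hβ hr hT h1 h2) (mom4_1 hb hβ hr hT h1 h2)) ok4_1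

theorem circ4_2 {b : ℕ} {p : ℤ} {β r : ℝ} (hb : b = 4) (hp : IsCoprime (b : ℤ) p) (hβ : 0 < β) (hr : 10 ≤ r)
    (hC : Real.sqrt 3 / 2 * ((b : ℝ) ^ 2 * (1 + (β * r) ^ 2)) ≤ 2 * Real.pi * r)
    (h1 : (3 / 2 : ℝ) ≤ β * r) (h2 : β * r ≤ 8 / 5) : Circ (2 * Real.pi * p / b + β) r := by
  have hT : c4_2.num.T0 ≤ TT b β r := hT_of (by omega) hr hC (by linarith) h2 (Or.inr (by rw [hb]; unfold c4_2 NumQ.num; norm_num))
  have l := line4_2 (b := b) (by omega) h1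
  exact close (aw := (-2 * (b : ℤ) + 2)) (n := 2) (by omega) hp hβ (by linarith) (by norm_num) (by omega) (by push_cast; omega)
    (Hyp.of hT (geoU4_2 (by omega) h1 h2) (geoL4_2 (by omega) h1) (LineData.f1R l) (LineData.mu l) (near4_2 hb hβ hr hT h1 h2)
      (slope4_2 hb hβ hr hT h1 h2) (far4_2 hb hβ hr hT h1 h2) (mom4_2 hb hβ hr hT h1 h2)) ok4_2

theorem circ4_3 {b : ℕ} {p : ℤ} {β r : ℝ} (hb : b = 4) (hp : IsCoprime (b : ℤ) p) (hβ : 0 < β) (hr : 10 ≤ r)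
    (hC : Real.sqrt 3 / 2 * ((b : ℝ) ^ 2 * (1 + (β * r) ^ 2)) ≤ 2 * Real.pi * r)
    (h1 : (8 / 5 : ℝ) ≤ β * r) (h2 : β * r ≤ 433 / 250) : Circ (2 * Real.pi * p / b + β) r := by
  have hT : c4_3.num.T0 ≤ TT b β r := hT_of (by omega) hr hC (by linarith) h2 (Or.inr (by rw [hb]; unfold c4_3 NumQ.num; norm_num))
  have l := line4_3 (b := b) (by omega) h1
  exact close (aw := (-2 * (b : ℤ) + 2)) (n := 2) (by omega) hp hβ (by linarith) (by norm_num) (by omega) (by push_cast; omega)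
    (Hyp.of hT (geoU4_3 (by omega) h1 h2) (geoL4_3 (by omega) h1) (LineData.f1R l) (LineData.mu l) (near4_3 hb hβ hr hT h1 h2)
      (slope4_3 hb hβ hr hT h1 h2) (far4_3 hb hβ hr hT h1 h2) (mom4_3 hb hβ hr hT h1 h2)) ok4_3

theorem circ4_4 {b : ℕ} {p : ℤ} {β r : ℝ} (hb : b = 4) (hp : IsCoprime (b : ℤ) p) (hβ : 0 < β) (hr : 10 ≤ r)
    (hC : Real.sqrt 3 / 2 * ((b : ℝ) ^ 2 * (1 + (β * r) ^ 2)) ≤ 2 * Real.pi * r)
    (h1 : (433 / 250 : ℝ) ≤ β * r) (h2 : β * r ≤ 91 / 50) : Circ (2 * Real.pi * p / b + β) r := by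
  have hT : c4_4.num.T0 ≤ TT b β r := hT_of (by omega) hr hC (by linarith) h2 (Or.inr (by rw [hb]; unfold c4_4 NumQ.num; norm_num))
  have l := line4_4 (b := b) (by omega) h1
  exact close (aw := (-2 * (b : ℤ) + 2)) (n := 2) (by omega) hp hβ (by linarith) (by norm_num) (by omega) (by push_cast; omega)
    (Hyp.of hT (geoU4_4 (by omega) h1 h2) (geoL4_4 (by omega) h1) (LineData.f1R l) (LineData.mu l) (near4_4 hb hβ hr hT h1 h2)
      (slope4_4 hb hβ hr hT h1 h2) (far4_4 hb hβ hr hT h1 h2) (mom4_4 hb hβ hr hT h1 h2)) ok4_4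

theorem circ4_5 {b : ℕ} {p : ℤ} {β r : ℝ} (hb : b = 4) (hp : IsCoprime (b : ℤ) p) (hβ : 0 < β) (hr : 10 ≤ r)
    (hC : Real.sqrt 3 / 2 * ((b : ℝ) ^ 2 * (1 + (β * r) ^ 2)) ≤ 2 * Real.pi * r)
    (h1 : (91 / 50 : ℝ) ≤ β * r) (h2 : β * r ≤ 19 / 10) : Circ (2 * Real.pi * p / b + β) r := by
  have hT : c4_5.num.T0 ≤ TT b β r := hT_of (by omega) hr hC (by linarith) h2 (Or.inl (by unfold c4_5 NumQ.num; norm_num))
  have l := line4_5 (b := b) (by omega) h1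
  exact close (aw := (-2 * (b : ℤ) + 2)) (n := 2) (by omega) hp hβ (by linarith) (by norm_num) (by omega) (by push_cast; omega)
    (Hyp.of hT (geoU4_5 (by omega) h1 h2) (geoL4_5 (by omega) h1) (LineData.f1R l) (LineData.mu l) (near4_5 hb hβ hr hT h1 h2)
      (slope4_5 hb hβ hr hT h1 h2) (far4_5 hb hβ hr hT h1 h2) (mom4_5 hb hβ hr hT h1 h2)) ok4_5

theorem circ4_6 {b : ℕ} {p : ℤ} {β r : ℝ} (hb : b = 4) (hp : IsCoprime (b : ℤ) p) (hβ : 0 < β) (hr : 10 ≤ r)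
    (hC : Real.sqrt 3 / 2 * ((b : ℝ) ^ 2 * (1 + (β * r) ^ 2)) ≤ 2 * Real.pi * r)
    (h1 : (19 / 10 : ℝ) ≤ β * r) (h2 : β * r ≤ 23 / 10) : Circ (2 * Real.pi * p / b + β) r := by
  have hT : c4_6.num.T0 ≤ TT b β r := hT_of (by omega) hr hC (by linarith) h2 (Or.inl (by unfold c4_6 NumQ.num; norm_num))
  have l := line4_6 (b := b) (by omega) h1
  exact close (aw := (-2 * (b : ℤ) + 2)) (n := 2) (by omega) hp hβ (by linarith) (by norm_num) (by omega) (by push_cast; omega)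
    (Hyp.of hT (geoU4_6 (by omega) h1 h2) (geoL4_6 (by omega) h1) (LineData.f1R l) (LineData.mu l) (near4_6 hb hβ hr hT h1 h2)
      (slope4_6 hb hβ hr hT h1 h2) (far4_6 hb hβ hr hT h1 h2) (mom4_6 hb hβ hr hT h1 h2)) ok4_6

theorem circ4_7 {b : ℕ} {p : ℤ} {β r : ℝ} (hb : b = 4) (hp : IsCoprime (b : ℤ) p) (hβ : 0 < β) (hr : 10 ≤ r)
    (hC : Real.sqrt 3 / 2 * ((b : ℝ) ^ 2 * (1 + (β * r) ^ 2)) ≤ 2 * Real.pi * r)
    (h1 : (23 / 10 : ℝ) ≤ β * r) (h2 : β * r ≤ 20) : Circ (2 * Real.pi * p / b + β) r := by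
  have hT : c4_7.num.T0 ≤ TT b β r := hT_of (by omega) hr hC (by linarith) h2 (Or.inl (by unfold c4_7 NumQ.num; norm_num))
  have l := line4_7 (b := b) (by omega) h1
  exact close (aw := (-2 * (b : ℤ) + 2)) (n := 2) (by omega) hp hβ (by linarith) (by norm_num) (by omega) (by push_cast; omega)
    (Hyp.of hT (geoU4_7 (by omega) h1 h2) (geoL4_7 (by omega) h1) (LineData.f1R l) (LineData.mu l) (near4_7 hb hβ hr hT h1 h2)
      (slope4_7 hb hβ hr hT h1 h2) (far4_7 hb hβ hr hT h1 h2) (mom4_7 hb hβ hr hT h1 h2)) ok4_7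

theorem circ5_1 {b : ℕ} {p : ℤ} {β r : ℝ} (hb : b = 5) (hp : IsCoprime (b : ℤ) p) (hβ : 0 < β) (hr : 10 ≤ r)
    (hC : Real.sqrt 3 / 2 * ((b : ℝ) ^ 2 * (1 + (β * r) ^ 2)) ≤ 2 * Real.pi * r)
    (h1 : (139 / 100 : ℝ) ≤ β * r) (h2 : β * r ≤ 71 / 50) : Circ (2 * Real.pi * p / b + β) r := by
  have hT : c5_1.num.T0 ≤ TT b β r := hT_of (by omega) hr hC (by linarith) h2 (Or.inl (by unfold c5_1 NumQ.num; norm_num))
  have l := line5_1 (b := b) (by omega) h1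
  exact close (aw := (-2 * (b : ℤ) + 2)) (n := 2) (by omega) hp hβ (by linarith) (by norm_num) (by omega) (by push_cast; omega)
    (Hyp.of hT (geoU5_1 (by omega) h1 h2) (by subst hb; exact geoL5_1 h1 h2) (LineData.f1R l) (LineData.mu l) (near5_1 hb hβ hr hT h1 h2)
      (slope5_1 hb hβ hr hT h1 h2) (far5_1 hb hβ hr hT h1 h2) (mom5_1 hb hβ hr hT h1 h2)) ok5_1

theorem circ5_2 {b : ℕ} {p : ℤ} {β r : ℝ} (hb : b = 5) (hp : IsCoprime (b : ℤ) p) (hβ : 0 < β) (hr : 10 ≤ r)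
    (hC : Real.sqrt 3 / 2 * ((b : ℝ) ^ 2 * (1 + (β * r) ^ 2)) ≤ 2 * Real.pi * r)
    (h1 : (71 / 50 : ℝ) ≤ β * r) (h2 : β * r ≤ 37 / 25) : Circ (2 * Real.pi * p / b + β) r := by
  have hT : c5_2.num.T0 ≤ TT b β r := hT_of (by omega) hr hC (by linarith) h2 (Or.inl (by unfold c5_2 NumQ.num; norm_num))
  have l := line5_2 (b := b) (by omega) h1
  exact close (aw := (-2 * (b : ℤ) + 2)) (n := 2) (by omega) hp hβ (by linarith) (by norm_num) (by omega) (by push_cast; omega)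
    (Hyp.of hT (geoU5_2 (by omega) h1 h2) (by subst hb; exact geoL5_2 h1 h2) (LineData.f1R l) (LineData.mu l) (near5_2 hb hβ hr hT h1 h2)
      (slope5_2 hb hβ hr hT h1 h2) (far5_2 hb hβ hr hT h1 h2) (mom5_2 hb hβ hr hT h1 h2)) ok5_2

theorem circ5_3 {b : ℕ} {p : ℤ} {β r : ℝ} (hb : b = 5) (hp : IsCoprime (b : ℤ) p) (hβ : 0 < β) (hr : 10 ≤ r)
    (hC : Real.sqrt 3 / 2 * ((b : ℝ) ^ 2 * (1 + (β * r) ^ 2)) ≤ 2 * Real.pi * r)
    (h1 : (37 / 25 : ℝ) ≤ β * r) (h2 : β * r ≤ 79 / 50) : Circ (2 * Real.pi * p / b + β) r := by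
  have hT : c5_3.num.T0 ≤ TT b β r := hT_of (by omega) hr hC (by linarith) h2 (Or.inl (by unfold c5_3 NumQ.num; norm_num))
  have l := line5_3 (b := b) (by omega) h1
  exact close (aw := (-2 * (b : ℤ) + 2)) (n := 2) (by omega) hp hβ (by linarith) (by norm_num) (by omega) (by push_cast; omega)
    (Hyp.of hT (geoU5_3 (by omega) h1 h2) (by subst hb; exact geoL5_3 h1 h2) (LineData.f1R l) (LineData.mu l) (near5_3 hb hβ hr hT h1 h2)
      (slope5_3 hb hβ hr hT h1 h2) (far5_3 hb hβ hr hT h1 h2) (mom5_3 hb hβ hr hT h1 h2)) ok5_3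

theorem circ5_4 {b : ℕ} {p : ℤ} {β r : ℝ} (hb : b = 5) (hp : IsCoprime (b : ℤ) p) (hβ : 0 < β) (hr : 10 ≤ r)
    (hC : Real.sqrt 3 / 2 * ((b : ℝ) ^ 2 * (1 + (β * r) ^ 2)) ≤ 2 * Real.pi * r)
    (h1 : (79 / 50 : ℝ) ≤ β * r) (h2 : β * r ≤ 433 / 250) : Circ (2 * Real.pi * p / b + β) r := by
  have hT : c5_4.num.T0 ≤ TT b β r := hT_of (by omega) hr hC (by linarith) h2 (Or.inl (by unfold c5_4 NumQ.num; norm_num))
  have l := line5_4 (b := b) (by omega) h1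
  exact close (aw := (-2 * (b : ℤ) + 2)) (n := 2) (by omega) hp hβ (by linarith) (by norm_num) (by omega) (by push_cast; omega)
    (Hyp.of hT (geoU5_4 (by omega) h1 h2) (geoL5_4 (by omega) h1) (LineData.f1R l) (LineData.mu l) (near5_4 hb hβ hr hT h1 h2)
      (slope5_4 hb hβ hr hT h1 h2) (far5_4 hb hβ hr hT h1 h2) (mom5_4 hb hβ hr hT h1 h2)) ok5_4

theorem circ5_5 {b : ℕ} {p : ℤ} {β r : ℝ} (hb : b = 5) (hp : IsCoprime (b : ℤ) p) (hβ : 0 < β) (hr : 10 ≤ r)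
    (hC : Real.sqrt 3 / 2 * ((b : ℝ) ^ 2 * (1 + (β * r) ^ 2)) ≤ 2 * Real.pi * r)
    (h1 : (433 / 250 : ℝ) ≤ β * r) (h2 : β * r ≤ 2) : Circ (2 * Real.pi * p / b + β) r := by
  have hT : c5_5.num.T0 ≤ TT b β r := hT_of (by omega) hr hC (by linarith) h2 (Or.inl (by unfold c5_5 NumQ.num; norm_num))
  have l := line5_5 (b := b) (by omega) h1
  exact close (aw := (-2 * (b : ℤ) + 2)) (n := 2) (by omega) hp hβ (by linarith) (by norm_num) (by omega) (by push_cast; omega)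
    (Hyp.of hT (geoU5_5 (by omega) h1 h2) (geoL5_5 (by omega) h1) (LineData.f1R l) (LineData.mu l) (near5_5 hb hβ hr hT h1 h2)
      (slope5_5 hb hβ hr hT h1 h2) (far5_5 hb hβ hr hT h1 h2) (mom5_5 hb hβ hr hT h1 h2)) ok5_5

theorem circ5_6 {b : ℕ} {p : ℤ} {β r : ℝ} (hb : b = 5) (hp : IsCoprime (b : ℤ) p) (hβ : 0 < β) (hr : 10 ≤ r)
    (hC : Real.sqrt 3 / 2 * ((b : ℝ) ^ 2 * (1 + (β * r) ^ 2)) ≤ 2 * Real.pi * r)
    (h1 : (2 : ℝ) ≤ β * r) (h2 : β * r ≤ 20) : Circ (2 * Real.pi * p / b + β) r := by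
  have hT : c5_6.num.T0 ≤ TT b β r := hT_of (by omega) hr hC (by linarith) h2 (Or.inl (by unfold c5_6 NumQ.num; norm_num))
  have l := line5_6 (b := b) (by omega) h1
  exact close (aw := (-2 * (b : ℤ) + 2)) (n := 2) (by omega) hp hβ (by linarith) (by norm_num) (by omega) (by push_cast; omega)
    (Hyp.of hT (geoU5_6 (by omega) h1 h2) (geoL5_6 (by omega) h1) (LineData.f1R l) (LineData.mu l) (near5_6 hb hβ hr hT h1 h2)
      (slope5_6 hb hβ hr hT h1 h2) (far5_6 hb hβ hr hT h1 h2) (mom5_6 hb hβ hr hT h1 h2)) ok5_6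

theorem circ6_1 {b : ℕ} {p : ℤ} {β r : ℝ} (hb : b = 6) (hp : IsCoprime (b : ℤ) p) (hβ : 0 < β) (hr : 10 ≤ r)
    (hC : Real.sqrt 3 / 2 * ((b : ℝ) ^ 2 * (1 + (β * r) ^ 2)) ≤ 2 * Real.pi * r)
    (h1 : (139 / 100 : ℝ) ≤ β * r) (h2 : β * r ≤ 31 / 20) : Circ (2 * Real.pi * p / b + β) r := by
  have hT : c6_1.num.T0 ≤ TT b β r := hT_of (by omega) hr hC (by linarith) h2 (Or.inl (by unfold c6_1 NumQ.num; norm_num))
  have l := line6_1 (b := b) (by omega) h1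
  exact close (aw := (-2 * (b : ℤ) + 2)) (n := 2) (by omega) hp hβ (by linarith) (by norm_num) (by omega) (by push_cast; omega)
    (Hyp.of hT (geoU6_1 (by omega) h1 h2) (geoL6_1 (by omega) h1) (LineData.f1R l) (LineData.mu l) (near6_1 hb hβ hr hT h1 h2)
      (slope6_1 hb hβ hr hT h1 h2) (far6_1 hb hβ hr hT h1 h2) (mom6_1 hb hβ hr hT h1 h2)) ok6_1

theorem circ6_2 {b : ℕ} {p : ℤ} {β r : ℝ} (hb : b = 6) (hp : IsCoprime (b : ℤ) p) (hβ : 0 < β) (hr : 10 ≤ r)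
    (hC : Real.sqrt 3 / 2 * ((b : ℝ) ^ 2 * (1 + (β * r) ^ 2)) ≤ 2 * Real.pi * r)
    (h1 : (31 / 20 : ℝ) ≤ β * r) (h2 : β * r ≤ 433 / 250) : Circ (2 * Real.pi * p / b + β) r := by
  have hT : c6_2.num.T0 ≤ TT b β r := hT_of (by omega) hr hC (by linarith) h2 (Or.inl (by unfold c6_2 NumQ.num; norm_num))
  have l := line6_2 (b := b) (by omega) h1
  exact close (aw := (-2 * (b : ℤ) + 2)) (n := 2) (by omega) hp hβ (by linarith) (by norm_num) (by omega) (by push_cast; omega)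
    (Hyp.of hT (geoU6_2 (by omega) h1 h2) (geoL6_2 (by omega) h1) (LineData.f1R l) (LineData.mu l) (near6_2 hb hβ hr hT h1 h2)
      (slope6_2 hb hβ hr hT h1 h2) (far6_2 hb hβ hr hT h1 h2) (mom6_2 hb hβ hr hT h1 h2)) ok6_2

theorem circ6_3 {b : ℕ} {p : ℤ} {β r : ℝ} (hb : b = 6) (hp : IsCoprime (b : ℤ) p) (hβ : 0 < β) (hr : 10 ≤ r)
    (hC : Real.sqrt 3 / 2 * ((b : ℝ) ^ 2 * (1 + (β * r) ^ 2)) ≤ 2 * Real.pi * r)
    (h1 : (433 / 250 : ℝ) ≤ β * r) (h2 : β * r ≤ 20) : Circ (2 * Real.pi * p / b + β) r := by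
  have hT : c6_3.num.T0 ≤ TT b β r := hT_of (by omega) hr hC (by linarith) h2 (Or.inl (by unfold c6_3 NumQ.num; norm_num))
  have l := line6_3 (b := b) (by omega) h1
  exact close (aw := (-2 * (b : ℤ) + 2)) (n := 2) (by omega) hp hβ (by linarith) (by norm_num) (by omega) (by push_cast; omega)
    (Hyp.of hT (geoU6_3 (by omega) h1 h2) (geoL6_3 (by omega) h1) (LineData.f1R l) (LineData.mu l) (near6_3 hb hβ hr hT h1 h2)
      (slope6_3 hb hβ hr hT h1 h2) (far6_3 hb hβ hr hT h1 h2) (mom6_3 hb hβ hr hT h1 h2)) ok6_3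

theorem circ7_1 {b : ℕ} {p : ℤ} {β r : ℝ} (hb : b = 7) (hp : IsCoprime (b : ℤ) p) (hβ : 0 < β) (hr : 10 ≤ r)
    (hC : Real.sqrt 3 / 2 * ((b : ℝ) ^ 2 * (1 + (β * r) ^ 2)) ≤ 2 * Real.pi * r)
    (h1 : (139 / 100 : ℝ) ≤ β * r) (h2 : β * r ≤ 433 / 250) : Circ (2 * Real.pi * p / b + β) r := by
  have hT : c7_1.num.T0 ≤ TT b β r := hT_of (by omega) hr hC (by linarith) h2 (Or.inl (by unfold c7_1 NumQ.num; norm_num))
  have l := line7_1 (b := b) (by omega) h1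
  exact close (aw := (-2 * (b : ℤ) + 2)) (n := 2) (by omega) hp hβ (by linarith) (by norm_num) (by omega) (by push_cast; omega)
    (Hyp.of hT (geoU7_1 (by omega) h1 h2) (geoL7_1 (by omega) h1) (LineData.f1R l) (LineData.mu l) (near7_1 hb hβ hr hT h1 h2)
      (slope7_1 hb hβ hr hT h1 h2) (far7_1 hb hβ hr hT h1 h2) (mom7_1 hb hβ hr hT h1 h2)) ok7_1

theorem circ7_2 {b : ℕ} {p : ℤ} {β r : ℝ} (hb : b = 7) (hp : IsCoprime (b : ℤ) p) (hβ : 0 < β) (hr : 10 ≤ r)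
    (hC : Real.sqrt 3 / 2 * ((b : ℝ) ^ 2 * (1 + (β * r) ^ 2)) ≤ 2 * Real.pi * r)
    (h1 : (433 / 250 : ℝ) ≤ β * r) (h2 : β * r ≤ 20) : Circ (2 * Real.pi * p / b + β) r := by
  have hT : c7_2.num.T0 ≤ TT b β r := hT_of (by omega) hr hC (by linarith) h2 (Or.inl (by unfold c7_2 NumQ.num; norm_num))
  have l := line7_2 (b := b) (by omega) h1
  exact close (aw := (-2 * (b : ℤ) + 2)) (n := 2) (by omega) hp hβ (by linarith) (by norm_num) (by omega) (by push_cast; omega)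
    (Hyp.of hT (geoU7_2 (by omega) h1 h2) (geoL7_2 (by omega) h1) (LineData.f1R l) (LineData.mu l) (near7_2 hb hβ hr hT h1 h2)
      (slope7_2 hb hβ hr hT h1 h2) (far7_2 hb hβ hr hT h1 h2) (mom7_2 hb hβ hr hT h1 h2)) ok7_2

theorem circ8_1 {b : ℕ} {p : ℤ} {β r : ℝ} (hb : 8 ≤ b) (hp : IsCoprime (b : ℤ) p) (hβ : 0 < β) (hr : 10 ≤ r)
    (hC : Real.sqrt 3 / 2 * ((b : ℝ) ^ 2 * (1 + (β * r) ^ 2)) ≤ 2 * Real.pi * r)
    (h1 : (139 / 100 : ℝ) ≤ β * r) (h2 : β * r ≤ 433 / 250) : Circ (2 * Real.pi * p / b + β) r := by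
  have hT : c8_1.num.T0 ≤ TT b β r := hT_of (by omega) hr hC (by linarith) h2 (Or.inl (by unfold c8_1 NumQ.num; norm_num))
  have l := line8_1 (b := b) (by omega) h1
  exact close (aw := (-2 * (b : ℤ) + 2)) (n := 2) (by omega) hp hβ (by linarith) (by norm_num) (by omega) (by push_cast; omega)
    (Hyp.of hT (geoU8_1 (by omega) h1 h2) (geoL8_1 (by omega) h1) (LineData.f1R l) (LineData.mu l) (near8_1 hb hβ hr hT h1 h2)
      (slope8_1 hb hβ hr hT h1 h2) (far8_1 hb hβ hr hT h1 h2) (mom8_1 hb hβ hr hT h1 h2)) ok8_1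

theorem circ8_2 {b : ℕ} {p : ℤ} {β r : ℝ} (hb : 8 ≤ b) (hp : IsCoprime (b : ℤ) p) (hβ : 0 < β) (hr : 10 ≤ r)
    (hC : Real.sqrt 3 / 2 * ((b : ℝ) ^ 2 * (1 + (β * r) ^ 2)) ≤ 2 * Real.pi * r)
    (h1 : (433 / 250 : ℝ) ≤ β * r) (h2 : β * r ≤ 20) : Circ (2 * Real.pi * p / b + β) r := by
  have hT : c8_2.num.T0 ≤ TT b β r := hT_of (by omega) hr hC (by linarith) h2 (Or.inl (by unfold c8_2 NumQ.num; norm_num))
  have l := line8_2 (b := b) (by omega) h1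
  exact close (aw := (-2 * (b : ℤ) + 2)) (n := 2) (by omega) hp hβ (by linarith) (by norm_num) (by omega) (by push_cast; omega)
    (Hyp.of hT (geoU8_2 (by omega) h1 h2) (geoL8_2 (by omega) h1) (LineData.f1R l) (LineData.mu l) (near8_2 hb hβ hr hT h1 h2)
      (slope8_2 hb hβ hr hT h1 h2) (far8_2 hb hβ hr hT h1 h2) (mom8_2 hb hβ hr hT h1 h2)) ok8_2

theorem circ20h {b : ℕ} {p : ℤ} {β r : ℝ} (hb : 1 ≤ b) (hp : IsCoprime (b : ℤ) p) (hβ : 0 < β) (hr : 10 ≤ r)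
    (hC : Real.sqrt 3 / 2 * ((b : ℝ) ^ 2 * (1 + (β * r) ^ 2)) ≤ 2 * Real.pi * r)
    (h1 : 20 ≤ β * r) : Circ (2 * Real.pi * p / b + β) r :=
  K20.circ20 hb hp hβ (by linarith) h1 (hT_of hb hr hC (by linarith) le_rfl (Or.inl le_rfl))

theorem circb1 {b : ℕ} {p : ℤ} {β r : ℝ} (hb : b = 1) (hp : IsCoprime (b : ℤ) p) (hβ : 0 < β) (hr : 10 ≤ r)
    (hC : Real.sqrt 3 / 2 * ((b : ℝ) ^ 2 * (1 + (β * r) ^ 2)) ≤ 2 * Real.pi * r)
    (h0 : (47 / 10 : ℝ) ≤ β * r) : Circ (2 * Real.pi * p / b + β) r := by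
  rcases le_total (β * r) (28 / 5) with h | h
  · exact circ1_1 hb hp hβ hr hC (by linarith) h
  rcases le_total (β * r) (69 / 10) with h | h
  · exact circ1_2 hb hp hβ hr hC (by linarith) h
  rcases le_total (β * r) (77 / 10) with h | h
  · exact circ1_3 hb hp hβ hr hC (by linarith) h
  rcases le_total (β * r) (41 / 5) with h | h
  · exact circ1_4 hb hp hβ hr hC (by linarith) h
  rcases le_total (β * r) (19 / 2) with h | h
  · exact circ1_5 hb hp hβ hr hC (by linarith) h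
  rcases le_total (β * r) (20) with h | h
  · exact circ1_6 hb hp hβ hr hC (by linarith) h
  exact circ20h (by omega) hp hβ hr hC h

theorem circb2 {b : ℕ} {p : ℤ} {β r : ℝ} (hb : b = 2) (hp : IsCoprime (b : ℤ) p) (hβ : 0 < β) (hr : 10 ≤ r)
    (hC : Real.sqrt 3 / 2 * ((b : ℝ) ^ 2 * (1 + (β * r) ^ 2)) ≤ 2 * Real.pi * r)
    (h0 : (3 : ℝ) ≤ β * r) : Circ (2 * Real.pi * p / b + β) r := by
  rcases le_total (β * r) (7 / 2) with h | h
  · exact circ2_1 hb hp hβ hr hC (by linarith) h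
  rcases le_total (β * r) (39 / 10) with h | h
  · exact circ2_2 hb hp hβ hr hC (by linarith) h
  rcases le_total (β * r) (21 / 5) with h | h
  · exact circ2_3 hb hp hβ hr hC (by linarith) h
  rcases le_total (β * r) (20) with h | h
  · exact circ2_4 hb hp hβ hr hC (by linarith) h
  exact circ20h (by omega) hp hβ hr hC h

theorem circb3 {b : ℕ} {p : ℤ} {β r : ℝ} (hb : b = 3) (hp : IsCoprime (b : ℤ) p) (hβ : 0 < β) (hr : 10 ≤ r)
    (hC : Real.sqrt 3 / 2 * ((b : ℝ) ^ 2 * (1 + (β * r) ^ 2)) ≤ 2 * Real.pi * r)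
    (h0 : (139 / 100 : ℝ) ≤ β * r) : Circ (2 * Real.pi * p / b + β) r := by
  rcases le_total (β * r) (8 / 5) with h | h
  · exact circ3_1 hb hp hβ hr hC (by linarith) h
  rcases le_total (β * r) (19 / 10) with h | h
  · exact circ3_2 hb hp hβ hr hC (by linarith) h
  rcases le_total (β * r) (21 / 10) with h | h
  · exact circ3_3 hb hp hβ hr hC (by linarith) h
  rcases le_total (β * r) (23 / 10) with h | h
  · exact circ3_4 hb hp hβ hr hC (by linarith) h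
  rcases le_total (β * r) (5 / 2) with h | h
  · exact circ3_5 hb hp hβ hr hC (by linarith) h
  rcases le_total (β * r) (133 / 50) with h | h
  · exact circ3_6 hb hp hβ hr hC (by linarith) h
  rcases le_total (β * r) (20) with h | h
  · exact circ3_7 hb hp hβ hr hC (by linarith) h
  exact circ20h (by omega) hp hβ hr hC h

theorem circb4 {b : ℕ} {p : ℤ} {β r : ℝ} (hb : b = 4) (hp : IsCoprime (b : ℤ) p) (hβ : 0 < β) (hr : 10 ≤ r)
    (hC : Real.sqrt 3 / 2 * ((b : ℝ) ^ 2 * (1 + (β * r) ^ 2)) ≤ 2 * Real.pi * r)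
    (h0 : (139 / 100 : ℝ) ≤ β * r) : Circ (2 * Real.pi * p / b + β) r := by
  rcases le_total (β * r) (3 / 2) with h | h
  · exact circ4_1 hb hp hβ hr hC (by linarith) h
  rcases le_total (β * r) (8 / 5) with h | h
  · exact circ4_2 hb hp hβ hr hC (by linarith) h
  rcases le_total (β * r) (433 / 250) with h | h
  · exact circ4_3 hb hp hβ hr hC (by linarith) h
  rcases le_total (β * r) (91 / 50) with h | h
  · exact circ4_4 hb hp hβ hr hC (by linarith) h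
  rcases le_total (β * r) (19 / 10) with h | h
  · exact circ4_5 hb hp hβ hr hC (by linarith) h
  rcases le_total (β * r) (23 / 10) with h | h
  · exact circ4_6 hb hp hβ hr hC (by linarith) h
  rcases le_total (β * r) (20) with h | h
  · exact circ4_7 hb hp hβ hr hC (by linarith) h
  exact circ20h (by omega) hp hβ hr hC h

theorem circb5 {b : ℕ} {p : ℤ} {β r : ℝ} (hb : b = 5) (hp : IsCoprime (b : ℤ) p) (hβ : 0 < β) (hr : 10 ≤ r)
    (hC : Real.sqrt 3 / 2 * ((b : ℝ) ^ 2 * (1 + (β * r) ^ 2)) ≤ 2 * Real.pi * r)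
    (h0 : (139 / 100 : ℝ) ≤ β * r) : Circ (2 * Real.pi * p / b + β) r := by
  rcases le_total (β * r) (71 / 50) with h | h
  · exact circ5_1 hb hp hβ hr hC (by linarith) h
  rcases le_total (β * r) (37 / 25) with h | h
  · exact circ5_2 hb hp hβ hr hC (by linarith) h
  rcases le_total (β * r) (79 / 50) with h | h
  · exact circ5_3 hb hp hβ hr hC (by linarith) h
  rcases le_total (β * r) (433 / 250) with h | h
  · exact circ5_4 hb hp hβ hr hC (by linarith) h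
  rcases le_total (β * r) (2) with h | h
  · exact circ5_5 hb hp hβ hr hC (by linarith) h
  rcases le_total (β * r) (20) with h | h
  · exact circ5_6 hb hp hβ hr hC (by linarith) h
  exact circ20h (by omega) hp hβ hr hC h

theorem circb6 {b : ℕ} {p : ℤ} {β r : ℝ} (hb : b = 6) (hp : IsCoprime (b : ℤ) p) (hβ : 0 < β) (hr : 10 ≤ r)
    (hC : Real.sqrt 3 / 2 * ((b : ℝ) ^ 2 * (1 + (β * r) ^ 2)) ≤ 2 * Real.pi * r)
    (h0 : (139 / 100 : ℝ) ≤ β * r) : Circ (2 * Real.pi * p / b + β) r := by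
  rcases le_total (β * r) (31 / 20) with h | h
  · exact circ6_1 hb hp hβ hr hC (by linarith) h
  rcases le_total (β * r) (433 / 250) with h | h
  · exact circ6_2 hb hp hβ hr hC (by linarith) h
  rcases le_total (β * r) (20) with h | h
  · exact circ6_3 hb hp hβ hr hC (by linarith) h
  exact circ20h (by omega) hp hβ hr hC h

theorem circb7 {b : ℕ} {p : ℤ} {β r : ℝ} (hb : b = 7) (hp : IsCoprime (b : ℤ) p) (hβ : 0 < β) (hr : 10 ≤ r)
    (hC : Real.sqrt 3 / 2 * ((b : ℝ) ^ 2 * (1 + (β * r) ^ 2)) ≤ 2 * Real.pi * r)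
    (h0 : (139 / 100 : ℝ) ≤ β * r) : Circ (2 * Real.pi * p / b + β) r := by
  rcases le_total (β * r) (433 / 250) with h | h
  · exact circ7_1 hb hp hβ hr hC (by linarith) h
  rcases le_total (β * r) (20) with h | h
  · exact circ7_2 hb hp hβ hr hC (by linarith) h
  exact circ20h (by omega) hp hβ hr hC h

theorem circb8 {b : ℕ} {p : ℤ} {β r : ℝ} (hb : 8 ≤ b) (hp : IsCoprime (b : ℤ) p) (hβ : 0 < β) (hr : 10 ≤ r)
    (hC : Real.sqrt 3 / 2 * ((b : ℝ) ^ 2 * (1 + (β * r) ^ 2)) ≤ 2 * Real.pi * r)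
    (h0 : (139 / 100 : ℝ) ≤ β * r) : Circ (2 * Real.pi * p / b + β) r := by
  rcases le_total (β * r) (433 / 250) with h | h
  · exact circ8_1 hb hp hβ hr hC (by linarith) h
  rcases le_total (β * r) (20) with h | h
  · exact circ8_2 hb hp hβ hr hC (by linarith) h
  exact circ20h (by omega) hp hβ hr hC h

/-- row R2 -/
theorem rowR2 (b : ℕ) (p : ℤ) (β r : ℝ) (hb : 1 ≤ b) (hp : IsCoprime (b : ℤ) p) (hr : 10 ≤ r) (hβ : 0 < β)
    (hκ : (if b = 1 then 4.7 else if b = 2 then 3 else 1.39) ≤ β * r)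
    (hC : Real.sqrt 3 / 2 * ((b : ℝ) ^ 2 * (1 + (β * r) ^ 2)) ≤ 2 * Real.pi * r) :
    Circ (2 * Real.pi * p / b + β) r := by
  rcases (by omega : b = 1 ∨ b = 2 ∨ b = 3 ∨ b = 4 ∨ b = 5 ∨ b = 6 ∨ b = 7 ∨ 8 ≤ b) with h | h | h | h | h | h | h | h
  · rw [if_pos h] at hκ
    exact circb1 h hp hβ hr hC (by norm_num at hκ ⊢; linarith)
  · rw [if_neg (by omega), if_pos h] at hκ
    exact circb2 h hp hβ hr hC (by norm_num at hκ ⊢; linarith)
  · rw [if_neg (by omega), if_neg (by omega)] at hκ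
    exact circb3 h hp hβ hr hC (by norm_num at hκ ⊢; linarith)
  · rw [if_neg (by omega), if_neg (by omega)] at hκ
    exact circb4 h hp hβ hr hC (by norm_num at hκ ⊢; linarith)
  · rw [if_neg (by omega), if_neg (by omega)] at hκ
    exact circb5 h hp hβ hr hC (by norm_num at hκ ⊢; linarith)
  · rw [if_neg (by omega), if_neg (by omega)] at hκ
    exact circb6 h hp hβ hr hC (by norm_num at hκ ⊢; linarith)
  · rw [if_neg (by omega), if_neg (by omega)] at hκ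
    exact circb7 h hp hβ hr hC (by norm_num at hκ ⊢; linarith)
  · rw [if_neg (by omega), if_neg (by omega)] at hκ
    exact circb8 h hp hβ hr hC (by norm_num at hκ ⊢; linarith)

end Sok.R2
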