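import Pool.Agent.Lib.MP_816dec_an.PTop3
import Pool.Agent.Lib.MP_816dec_an.R1Fin
import Pool.Agent.Lib.MP_816dec_an.R2Fin

/-!
MP_816dec_an: the frozen statement, all rows plugged in.
-/

set_option autoImplicit false

open Complex Set Filter Topology

namespace SokC

open Sok

theorem top4 : ∀ q : ℂ, 0 < ‖q‖ → ‖q‖ ≤ 1 →
    (∀ z : ℂ, (∑' k : ℕ, q ^ (k * (k - 1) / 2) * z ^ k / (k.factorial : ℂ)) = 0 →
      deriv (fun w : ℂ => ∑' k : ℕ, q ^ (k * (k - 1) / 2) * w ^ k / (k.factorial : ℂ)) z ≠ 0) ∧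
    (∀ z w : ℂ, (∑' k : ℕ, q ^ (k * (k - 1) / 2) * z ^ k / (k.factorial : ℂ)) = 0 →
      (∑' k : ℕ, q ^ (k * (k - 1) / 2) * w ^ k / (k.factorial : ℂ)) = 0 →
      ‖z‖ = ‖w‖ → z = w) :=
  top3 (fun b p β r hb hp hr hβ hκ hc => Sok.rowR1 b p β r hb hp hr hβ hκ hc)
    (fun b p β r hb hp hr hβ hκ hc => Sok.R2.rowR2 b p β r hb hp hr hβ hκ hc)

end SokC
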