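import Pool.Agent.Lib.MP_816dec_an.R1B4G

/-!
MP_816dec_an (A3, row R1, b = 4): composite cells.
-/

set_option autoImplicit false

open Complex Set Filter Topology

namespace Sok.B4

theorem V_ge {κ τ : ℝ} (k1 c T v0 : ℝ) (hk0 : 0 < k1) (hk1 : k1 ≤ κ) (hc : 0 ≤ c) (hT1 : -T ≤ τ) (hT2 : τ ≤ T)
    (h : c * T ^ 2 ≤ (1 - v0) * (1 + k1 ^ 2)) : v0 ≤ 1 - c * τ ^ 2 / (1 + κ ^ 2) := by
  have hA : 0 < 1 + κ ^ 2 := by positivity
  have hkk : k1 ^ 2 ≤ κ ^ 2 := pow_le_pow_left₀ hk0.le hk1 2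
  have h1 : c * τ ^ 2 / (1 + κ ^ 2) ≤ 1 - v0 := by
    rw [div_le_iff₀ hA]
    have h2 : τ ^ 2 ≤ T ^ 2 := sq_le_sq' hT1 hT2
    have h3 := mul_le_mul_of_nonneg_left h2 hc
    have h4 : 0 ≤ 1 - v0 := by
      by_contra hcon
      push Not at hcon
      have : (1 - v0) * (1 + k1 ^ 2) < 0 := mul_neg_of_neg_of_pos hcon (by positivity)
      nlinarith [mul_nonneg hc (sq_nonneg T)]
    nlinarith [mul_nonneg h4 (by linarith : 0 ≤ κ ^ 2 - k1 ^ 2)]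
  linarith

end Sok.B4
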