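import Pool.Agent.Lib.MP_816dec_an.R1B4G
import Pool.Agent.Lib.MP_816dec_an.R1B4Cb

/-!
MP_816dec_an (A3, row R1, b = 4): composite cells.
-/

set_option autoImplicit false

open Complex Set Filter Topology

namespace Sok.B4

/-- positive height, `-π/2 ≤ t' ≤ π/2` -/
theorem cellHU {β r κ t' τ Y : ℝ} (k1 k2 v Ev el eu B c q1 hm z ez a0 a1 a2 a3 c1 u0 α γ τ1 τ2 T s ℓ g w v0 eg ew ev S
    ρ : ℝ)
    (hβ : 0 < β) (hr : 10 ≤ r) (hκ : κ = β * r) (hκ1 : k1 ≤ κ) (hκ2 : κ ≤ k2)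
    (hτ1 : τ1 ≤ τ) (hτ2 : τ ≤ τ2) (hs : τ + s ≤ t' + κ)
    (ht : -(Real.pi / 2) ≤ t') (ht' : t' ≤ Real.pi / 2)
    (hY : ℓ * Real.exp (r * (1 - c1 * τ ^ 2 / (1 + κ ^ 2))) ≤ Y)
    (hEv : Real.exp v ≤ Ev) (hel : el ≤ Real.exp (-v)) (heu : Real.exp (-v) ≤ eu) (hez : Real.exp (-z) ≤ ez)
    (heg : Real.exp (-(10 * g)) ≤ eg) (hew : Real.exp (-(10 * w)) ≤ ew) (hev : Real.exp (-(10 * v0)) ≤ ev)
    (hq1 : β ≤ q1 * (3 * Real.pi / 2 + t'))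
    (hk1 : 0 < k1) (h12 : k1 < k2) (hv : 0 < v) (hB : 0 < B) (he0 : 0 < el) (hc0 : 0 ≤ c)
    (hc : c ^ 2 + (v * Ev) ^ 2 ≤ k1 ^ 2) (hvk : v * Ev < k1) (hnum : 3 ≤ 2 * B ^ 2 * (el * c))
    (ha0 : eu + v ≤ a0) (ha1 : v ^ 2 * Ev / 2 ≤ a1) (ha2 : v ^ 4 * Ev ^ 3 / 24 ≤ a2) (ha3 : v ^ 6 * Ev ^ 5 / 24 ≤ a3)
    (hz0 : z * (k2 / 10) ≤ 3.14159) (hz : z * (k2 / 10) ≤ 4.14159 - 2.7182818286 * k2) (hzz : 0 ≤ z)
    (hm1 : (1 + k2 / 10) * ez ≤ hm) (hq0 : 0 ≤ q1)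
    (hc1 : 0 ≤ c1) (hu0 : 0 < u0) (hu : k2 ≤ u0 ^ 2 * k2 + 2 * u0)
    (hα : u0 ^ 2 / (1 + u0 ^ 2) - γ * u0 ≤ α) (hγ : γ = 2 * u0 / (1 + u0 ^ 2) ^ 2) (hα1 : 0 ≤ α + γ * (1 / k2))
    (g11 : g ≤ 1 - c1 * τ1 ^ 2 * (α + γ * (1 / k2)) - a0 - a1 * (1 / k2) ^ 2 - a2 * (1 / k2) ^ 4 - a3 * (1 / k2) ^ 6 +
      v * (τ1 + s) * (1 / k2))
    (g12 : g ≤ 1 - c1 * τ2 ^ 2 * (α + γ * (1 / k2)) - a0 - a1 * (1 / k2) ^ 2 - a2 * (1 / k2) ^ 4 - a3 * (1 / k2) ^ 6 +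
      v * (τ2 + s) * (1 / k2))
    (g21 : g ≤ 1 - c1 * τ1 ^ 2 * (α + γ * (1 / k1)) - a0 - a1 * (1 / k1) ^ 2 - a2 * (1 / k1) ^ 4 - a3 * (1 / k1) ^ 6 +
      v * (τ1 + s) * (1 / k1))
    (g22 : g ≤ 1 - c1 * τ2 ^ 2 * (α + γ * (1 / k1)) - a0 - a1 * (1 / k1) ^ 2 - a2 * (1 / k1) ^ 4 - a3 * (1 / k1) ^ 6 +
      v * (τ2 + s) * (1 / k1))
    (w11 : w ≤ 1 - c1 * τ1 ^ 2 * (α + γ * (1 / k2)) - v + v * (τ1 + (s - 1.5708)) * (1 / k2))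
    (w12 : w ≤ 1 - c1 * τ2 ^ 2 * (α + γ * (1 / k2)) - v + v * (τ2 + (s - 1.5708)) * (1 / k2))
    (w21 : w ≤ 1 - c1 * τ1 ^ 2 * (α + γ * (1 / k1)) - v + v * (τ1 + (s - 1.5708)) * (1 / k1))
    (w22 : w ≤ 1 - c1 * τ2 ^ 2 * (α + γ * (1 / k1)) - v + v * (τ2 + (s - 1.5708)) * (1 / k1))
    (hT1 : -T ≤ τ1) (hT2 : τ2 ≤ T) (hv0 : c1 * T ^ 2 ≤ (1 - v0) * (1 + k1 ^ 2))
    (hg0 : 0 ≤ g) (hw0 : 0.05 ≤ w) (hv00 : 0.05 ≤ v0) (hS0 : 0 < S) (hS : 10 ≤ S ^ 2 * (6.28318 * k1)) (hρ0 : 0 ≤ ρ)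
    (hfin : B * eg + S * ((q1 + 0.3142 + v + k2 / 10 + hm) * ev + (1 + v) * ew) ≤ ρ * ℓ) :
    ‖Pb β r t'‖ ≤ ρ * Y := by
  have hpi2 := Real.pi_lt_d6
  have hκ0 : 0 < κ := by linarith
  have hEv0 : 0 < Ev := (Real.exp_pos v).trans_le hEv
  have hveE : v * Real.exp v ≤ v * Ev := mul_le_mul_of_nonneg_left hEv hv.le
  have hve0 : 0 < v * Real.exp v := by positivity
  have hez0 : 0 < ez := (Real.exp_pos _).trans_le hez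
  have hX := ub_HU (β := β) (r := r) (κ := κ) (t := t') (v := v) (k1 := k1) (k2 := k2) (B := B) (e := el) (c := c)
    (q1 := q1) (hm := hm) (z := z) (a0 := a0) (a1 := a1) (a2 := a2) (a3 := a3) hβ hr hκ hk1 hκ1 hκ2 hv ht ht' hB he0 hel hc0
    (by have := pow_le_pow_left₀ hve0.le hveE 2; linarith) (lt_of_le_of_lt hveE hvk) hnum (by linarith)
    (by have := mul_le_mul_of_nonneg_left hEv (by positivity : 0 ≤ v ^ 2); linarith)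
    (by have := mul_le_mul_of_nonneg_left (pow_le_pow_left₀ (Real.exp_pos v).le hEv 3) (by positivity : 0 ≤ v ^ 4)
        linarith)
    (by have := mul_le_mul_of_nonneg_left (pow_le_pow_left₀ (Real.exp_pos v).le hEv 5) (by positivity : 0 ≤ v ^ 6)
        linarith) hq1 hz0 hz hzz
    (by
      have hk20 : 0 ≤ 1 + k2 / 10 := by linarith
      exact (mul_le_mul_of_nonneg_left hez hk20).trans hm1)
  have hk20 : 0 < k2 := by linarith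
  have ha1' : 0 ≤ a1 := le_trans (by positivity) ha1
  have ha2' : 0 ≤ a2 := le_trans (by positivity) ha2
  have ha3' : 0 ≤ a3 := le_trans (by positivity) ha3
  have G := gap4 (κ := κ) (τ := τ) k1 k2 u0 τ1 τ2 c1 a0 a1 a2 a3 v s α γ g hk1 hκ1 hκ2 h12 hτ1 hτ2 hc1 ha1' ha2' ha3' hu0
    hu hα hγ hα1 g11 g12 g21 g22
  have W := gap4 (κ := κ) (τ := τ) k1 k2 u0 τ1 τ2 c1 v 0 0 0 v (s - 1.5708) α γ w hk1 hκ1 hκ2 h12 hτ1 hτ2 hc1 le_rfl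
    le_rfl le_rfl hu0 hu hα hγ hα1 (by linarith) (by linarith) (by linarith) (by linarith)
  have V := V_ge (κ := κ) (τ := τ) k1 c1 T v0 hk1 hκ1 hc1 (by linarith) (by linarith) hv0
  have hinv : 0 < 1 / κ := by positivity
  have hk1' : κ * (1 / κ) = 1 := by field_simp
  have hm0 : 0 ≤ hm := le_trans (by positivity) hm1
  refine ratio_main (κ := κ) (k1 := k1) (B := B) (E := a0 + a1 * (1 / κ) ^ 2 + a2 * (1 / κ) ^ 4 + a3 * (1 / κ) ^ 6 -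
      v * (t' + κ) * (1 / κ)) (R0 := q1 + 0.3142 + v + k2 / 10 + hm) (R1 := 1 + v) (W := v * (Real.pi / 2 - t') * (1 / κ))
    (ℓ := ℓ) (V := 1 - c1 * τ ^ 2 / (1 + κ ^ 2)) (g := g) (w := w) (v := v0) (eg := eg) (ew := ew) (ev := ev) (S := S)
    hβ hr hκ hk1 hκ1 hX hY hB.le (by positivity) (by positivity) hρ0 ?_ ?_ V hg0 hw0 hv00 heg hew hev hS0 hS hfin
  · have h1 : v * (τ + s) * (1 / κ) ≤ v * (t' + κ) * (1 / κ) :=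
      mul_le_mul_of_nonneg_right (mul_le_mul_of_nonneg_left hs hv.le) hinv.le
    linarith
  · have h1 : v * (Real.pi / 2 - t') * (1 / κ) ≤ v * (1.5708 - (τ + s) + κ) * (1 / κ) :=
      mul_le_mul_of_nonneg_right (mul_le_mul_of_nonneg_left (by linarith) hv.le) hinv.le
    have h2 : v * (1.5708 - (τ + s) + κ) * (1 / κ) = v - v * (τ + (s - 1.5708)) * (1 / κ) := by
      have : v * (1.5708 - (τ + s) + κ) * (1 / κ) = -(v * (τ + (s - 1.5708)) * (1 / κ)) + v * (κ * (1 / κ)) := by ring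
      rw [this, hk1']
      ring
    linarith

end Sok.B4
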