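import Pool.Agent.Lib.MP_816dec_an.R1B4G
import Pool.Agent.Lib.MP_816dec_an.R1B4Cb

/-!
MP_816dec_an (A3, row R1, b = 4): composite cells.
-/

set_option autoImplicit false

open Complex Set Filter Topology

namespace Sok.B4

/-- negative height `-ν`; `j` copies of `β` as a shift -/
theorem cellN {β r κ t' τ Y : ℝ} (k1 k2 ν En eu el B c q1 a0 a1 a2 a3 c1 u0 α γ τ1 τ2 T s j K ℓ g w v0 eg ew ev S ρ : ℝ)
    (hβ : 0 < β) (hr : 10 ≤ r) (hκ : κ = β * r) (hκ1 : k1 ≤ κ) (hκ2 : κ ≤ k2) (hκ3 : k2 ≤ 1.39)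
    (hτ1 : τ1 ≤ τ) (hτ2 : τ ≤ τ2) (hs : t' + κ ≤ τ - s + j * β)
    (ht : -(3 * Real.pi / 2) < t') (ht' : t' ≤ -0.75 - κ)
    (hY : ℓ * Real.exp (r * (1 - c1 * τ ^ 2 / (1 + κ ^ 2))) ≤ Y)
    (hEn : Real.exp (-ν) ≤ En) (hel : el ≤ Real.exp ν) (heu : Real.exp ν ≤ eu) (hK : Real.exp (ν * j) ≤ K)
    (heg : Real.exp (-(10 * g)) ≤ eg) (hew : Real.exp (-(10 * w)) ≤ ew) (hev : Real.exp (-(10 * v0)) ≤ ev)
    (hq1 : β ≤ q1 * (3 * Real.pi / 2 + t'))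
    (hk1 : 0 < k1) (h12 : k1 < k2) (hv : 0 < ν) (hν1 : ν < 1) (hν7 : 7 * k2 ≤ 10 * (ν * (2.32 + k1)))
    (hB : 0 < B) (he0 : 0 < el) (hc0 : 0 ≤ c)
    (hc : c ^ 2 + (ν * En) ^ 2 ≤ k1 ^ 2) (hvk : ν * En < k1) (hnum : 3 ≤ 2 * B ^ 2 * (el * c))
    (ha0 : eu - ν ≤ a0) (ha1 : ν ^ 2 * En / 2 ≤ a1) (ha2 : ν ^ 4 * En ^ 3 / 24 ≤ a2) (ha3 : ν ^ 6 * En ^ 5 / 24 ≤ a3)
    (hq0 : 0 ≤ q1)
    (hc1 : 0 ≤ c1) (hu0 : 0 < u0) (hu : k2 ≤ u0 ^ 2 * k2 + 2 * u0)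
    (hα : u0 ^ 2 / (1 + u0 ^ 2) - γ * u0 ≤ α) (hγ : γ = 2 * u0 / (1 + u0 ^ 2) ^ 2) (hα1 : 0 ≤ α + γ * (1 / k2))
    (g11 : g ≤ 1 - c1 * τ1 ^ 2 * (α + γ * (1 / k2)) - a0 - a1 * (1 / k2) ^ 2 - a2 * (1 / k2) ^ 4 - a3 * (1 / k2) ^ 6 -
      ν * (τ1 - s) * (1 / k2))
    (g12 : g ≤ 1 - c1 * τ2 ^ 2 * (α + γ * (1 / k2)) - a0 - a1 * (1 / k2) ^ 2 - a2 * (1 / k2) ^ 4 - a3 * (1 / k2) ^ 6 -
      ν * (τ2 - s) * (1 / k2))
    (g21 : g ≤ 1 - c1 * τ1 ^ 2 * (α + γ * (1 / k1)) - a0 - a1 * (1 / k1) ^ 2 - a2 * (1 / k1) ^ 4 - a3 * (1 / k1) ^ 6 -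
      ν * (τ1 - s) * (1 / k1))
    (g22 : g ≤ 1 - c1 * τ2 ^ 2 * (α + γ * (1 / k1)) - a0 - a1 * (1 / k1) ^ 2 - a2 * (1 / k1) ^ 4 - a3 * (1 / k1) ^ 6 -
      ν * (τ2 - s) * (1 / k1))
    (w11 : w ≤ 1 - c1 * τ1 ^ 2 * (α + γ * (1 / k2)) + ν - ν * (τ1 + (1.5708 - s)) * (1 / k2))
    (w12 : w ≤ 1 - c1 * τ2 ^ 2 * (α + γ * (1 / k2)) + ν - ν * (τ2 + (1.5708 - s)) * (1 / k2))
    (w21 : w ≤ 1 - c1 * τ1 ^ 2 * (α + γ * (1 / k1)) + ν - ν * (τ1 + (1.5708 - s)) * (1 / k1))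
    (w22 : w ≤ 1 - c1 * τ2 ^ 2 * (α + γ * (1 / k1)) + ν - ν * (τ2 + (1.5708 - s)) * (1 / k1))
    (hT1 : -T ≤ τ1) (hT2 : τ2 ≤ T) (hv0 : c1 * T ^ 2 ≤ (1 - v0) * (1 + k1 ^ 2))
    (hg0 : 0 ≤ g) (hw0 : 0.05 ≤ w) (hv00 : 0.05 ≤ v0) (hS0 : 0 < S) (hS : 10 ≤ S ^ 2 * (6.28318 * k1)) (hρ0 : 0 ≤ ρ)
    (hfin : B * K * eg + S * ((q1 + ν + 0.318) * ev + ν * K * ew) ≤ ρ * ℓ) :
    ‖Pb β r t'‖ ≤ ρ * Y := by
  have hpi := Real.pi_gt_d6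
  have hpi2 := Real.pi_lt_d6
  have hκ0 : 0 < κ := by linarith
  have hr0 : 0 < r := by linarith
  have hEn0 : 0 < En := (Real.exp_pos _).trans_le hEn
  have hK0 : 0 < K := (Real.exp_pos _).trans_le hK
  have hveE : ν * Real.exp (-ν) ≤ ν * En := mul_le_mul_of_nonneg_left hEn hv.le
  have hve0 : 0 < ν * Real.exp (-ν) := by positivity
  have hX := ub_neg (β := β) (r := r) (κ := κ) (t := t') (ν := ν) (k1 := k1) (B := B) (e := el) (c := c)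
    (q1 := q1) (a0 := a0) (a1 := a1) (a2 := a2) (a3 := a3) hβ hr hκ hk1 hκ1 (by linarith) hv hν1 ht ht'
    (by nlinarith) hB he0 (by rw [neg_neg]; exact hel) hc0
    (by
      have := pow_le_pow_left₀ hve0.le hveE 2
      have e : (-ν * Real.exp (-ν)) ^ 2 = (ν * Real.exp (-ν)) ^ 2 := by ring
      rw [e]; linarith) (lt_of_le_of_lt hveE hvk) hnum (by rw [neg_neg]; linarith)
    (by
      have := mul_le_mul_of_nonneg_left hEn (by positivity : 0 ≤ ν ^ 2)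
      have e : (-ν) ^ 2 = ν ^ 2 := by ring
      rw [e]; linarith)
    (by
      have := mul_le_mul_of_nonneg_left (pow_le_pow_left₀ (Real.exp_pos (-ν)).le hEn 3) (by positivity : 0 ≤ ν ^ 4)
      have e : (-ν) ^ 4 = ν ^ 4 := by ring
      rw [e]; linarith)
    (by
      have := mul_le_mul_of_nonneg_left (pow_le_pow_left₀ (Real.exp_pos (-ν)).le hEn 5) (by positivity : 0 ≤ ν ^ 6)
      have e : (-ν) ^ 6 = ν ^ 6 := by ring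
      rw [e]; linarith) hq1
  have hk20 : 0 < k2 := by linarith
  have ha1' : 0 ≤ a1 := le_trans (by positivity) ha1
  have ha2' : 0 ≤ a2 := le_trans (by positivity) ha2
  have ha3' : 0 ≤ a3 := le_trans (by positivity) ha3
  have G := gap4 (κ := κ) (τ := τ) k1 k2 u0 τ1 τ2 c1 a0 a1 a2 a3 (-ν) (-s) α γ g hk1 hκ1 hκ2 h12 hτ1 hτ2 hc1 ha1' ha2' ha3'
    hu0 hu hα hγ hα1 (by linarith) (by linarith) (by linarith) (by linarith)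
  have W := gap4 (κ := κ) (τ := τ) k1 k2 u0 τ1 τ2 c1 (-ν) 0 0 0 (-ν) (1.5708 - s) α γ w hk1 hκ1 hκ2 h12 hτ1 hτ2 hc1 le_rfl
    le_rfl le_rfl hu0 hu hα hγ hα1 (by linarith) (by linarith) (by linarith) (by linarith)
  have V := V_ge (κ := κ) (τ := τ) k1 c1 T v0 hk1 hκ1 hc1 (by linarith) (by linarith) hv0
  have hinv : 0 < 1 / κ := by positivity
  have hk1' : κ * (1 / κ) = 1 := by field_simp
  have hbr : r * (β * (1 / κ)) = 1 := by rw [hκ]; field_simp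
  obtain ⟨E, hE⟩ : ∃ E, E = a0 + a1 * (1 / κ) ^ 2 + a2 * (1 / κ) ^ 4 + a3 * (1 / κ) ^ 6 + ν * (τ - s) * (1 / κ) :=
    ⟨_, rfl⟩
  obtain ⟨W', hW'⟩ : ∃ W', W' = ν * (τ + (1.5708 - s)) * (1 / κ) - ν := ⟨_, rfl⟩
  have x1 : Real.exp (r * (a0 + a1 * (1 / κ) ^ 2 + a2 * (1 / κ) ^ 4 + a3 * (1 / κ) ^ 6 + ν * (t' + κ) * (1 / κ))) ≤
      K * Real.exp (r * E) := by
    refine le_trans ?_ (mul_le_mul_of_nonneg_right hK (Real.exp_pos _).le)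
    rw [← Real.exp_add]
    apply Real.exp_le_exp.2
    have h1 : ν * (t' + κ) * (1 / κ) ≤ ν * (τ - s + j * β) * (1 / κ) :=
      mul_le_mul_of_nonneg_right (mul_le_mul_of_nonneg_left hs hv.le) hinv.le
    have h2 := mul_le_mul_of_nonneg_left h1 hr0.le
    have h3 : r * (ν * (τ - s + j * β) * (1 / κ)) = r * (ν * (τ - s) * (1 / κ)) + ν * j := by
      have : r * (ν * (τ - s + j * β) * (1 / κ)) = r * (ν * (τ - s) * (1 / κ)) + ν * j * (r * (β * (1 / κ))) := by ring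
      rw [this, hbr, mul_one]
    rw [hE]
    linarith
  have x2 : Real.exp (r * (ν * (Real.pi / 2 + t') * (1 / κ))) ≤ K * Real.exp (r * W') := by
    refine le_trans ?_ (mul_le_mul_of_nonneg_right hK (Real.exp_pos _).le)
    rw [← Real.exp_add]
    apply Real.exp_le_exp.2
    have h1 : ν * (Real.pi / 2 + t') * (1 / κ) ≤ ν * (1.5708 + (τ - s + j * β) - κ) * (1 / κ) :=
      mul_le_mul_of_nonneg_right (mul_le_mul_of_nonneg_left (by linarith) hv.le) hinv.le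
    have h2 := mul_le_mul_of_nonneg_left h1 hr0.le
    have h3 : r * (ν * (1.5708 + (τ - s + j * β) - κ) * (1 / κ)) = r * W' + ν * j := by
      have : r * (ν * (1.5708 + (τ - s + j * β) - κ) * (1 / κ)) = r * (ν * (τ + (1.5708 - s)) * (1 / κ)) +
          ν * j * (r * (β * (1 / κ))) - r * ν * (κ * (1 / κ)) := by ring
      rw [this, hbr, hk1', hW']
      ring
    linarith
  have hX' : ‖Pb β r t'‖ ≤ B * K * Real.exp (r * E) + C0 β * ((q1 + ν + 0.318) + ν * K * Real.exp (r * W')) := by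
    have hC := C0_pos hβ
    have y1 := mul_le_mul_of_nonneg_left x1 hB.le
    have y2 := mul_le_mul_of_nonneg_left x2 hv.le
    have y3 := mul_le_mul_of_nonneg_left (by linarith : (q1 + ν + 0.318) + ν * Real.exp (r * (ν * (Real.pi / 2 + t') *
      (1 / κ))) ≤ (q1 + ν + 0.318) + ν * K * Real.exp (r * W')) hC.le
    linarith
  refine ratio_main (κ := κ) (k1 := k1) (B := B * K) (E := E) (R0 := q1 + ν + 0.318) (R1 := ν * K) (W := W')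
    (ℓ := ℓ) (V := 1 - c1 * τ ^ 2 / (1 + κ ^ 2)) (g := g) (w := w) (v := v0) (eg := eg) (ew := ew) (ev := ev) (S := S)
    hβ hr hκ hk1 hκ1 hX' hY (by positivity) (by positivity) (by positivity) hρ0 ?_ ?_ V hg0 hw0 hv00 heg hew hev hS0 hS
    hfin
  · rw [hE]; linarith
  · rw [hW']; linarith

end Sok.B4
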