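import Pool.Agent.Lib.MP_816dec_an.R1B4G
import Pool.Agent.Lib.MP_816dec_an.R1B4Cb

/-!
MP_816dec_an (A3, row R1, b = 4): composite cells.
-/

set_option autoImplicit false

open Complex Set Filter Topology

namespace Sok.B4

/-- left half plane -/
theorem cellUD {β r κ t' τ Y : ℝ} (k1 k2 c1 T ℓ v0 ew ev S ρ : ℝ)
    (hβ : 0 < β) (hr : 10 ≤ r) (hκ : κ = β * r) (hκ1 : k1 ≤ κ) (hκ2 : κ ≤ k2) (hκ3 : k2 ≤ 1.39)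
    (hT1 : -T ≤ τ) (hT2 : τ ≤ T) (ht : Real.pi / 2 ≤ t') (ht' : t' ≤ 3.2202 - κ)
    (hY : ℓ * Real.exp (r * (1 - c1 * τ ^ 2 / (1 + κ ^ 2))) ≤ Y)
    (hew : Real.exp (-(10 * (v0 - 0.1))) ≤ ew) (hev : Real.exp (-(10 * v0)) ≤ ev)
    (hk1 : 0 < k1) (hc1 : 0 ≤ c1) (hv0 : c1 * T ^ 2 ≤ (1 - v0) * (1 + k1 ^ 2)) (hv00 : 0.15 ≤ v0)
    (hS0 : 0 < S) (hS : 10 ≤ S ^ 2 * (6.28318 * k1)) (hρ0 : 0 ≤ ρ)
    (hfin : S * ((2.3142 + 2 * (k2 / 10)) * ev + (k2 + 0.1) * ew) ≤ ρ * ℓ) :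
    ‖Pb β r t'‖ ≤ ρ * Y := by
  have hX := ub_UD (β := β) (r := r) (κ := κ) (t := t') (k2 := k2) hβ hr hκ hκ2 hκ3 ht ht'
  have V := V_ge (κ := κ) (τ := τ) k1 c1 T v0 hk1 hκ1 hc1 hT1 hT2 hv0
  have hk20 : 0 < k2 := by linarith
  refine ratio_main (κ := κ) (k1 := k1) (B := 0) (E := 0) (R0 := 2.3142 + 2 * (k2 / 10)) (R1 := k2 + 0.1) (W := 0.1)
    (ℓ := ℓ) (V := 1 - c1 * τ ^ 2 / (1 + κ ^ 2)) (g := 0) (w := v0 - 0.1) (v := v0) (eg := 1) (ew := ew) (ev := ev)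
    (S := S) hβ hr hκ hk1 hκ1 (by rw [zero_mul, zero_add]; exact hX) hY le_rfl (by positivity) (by positivity) hρ0 ?_ ?_ V
    le_rfl (by linarith) (by linarith) (by norm_num) hew hev hS0 hS (by linarith)
  · linarith
  · linarith

end Sok.B4
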