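import Pool.Agent.Lib.MP_816dec_an.R1B4G
import Pool.Agent.Lib.MP_816dec_an.R1B4Cb
import Pool.Agent.Lib.MP_816dec_an.R1B4Cp1
import Pool.Agent.Lib.MP_816dec_an.R1B4Cp2
import Pool.Agent.Lib.MP_816dec_an.R1B4Cp3
import Pool.Agent.Lib.MP_816dec_an.R1B4Cp4

/-!
MP_816dec_an (A3, row R1, b = 4): composite cells.
-/

set_option autoImplicit false

open Complex Set Filter Topology

namespace Sok.B4

end Sok.B4
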