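import Pool.Agent.Lib.MP_816dec_an.JBG2

/-!
MP_816dec_an (A3, row R1, b = 4): monotone bounds of `sx` for the two dimensional covers.
-/

set_option autoImplicit false

open Complex Set

namespace Sok.B4

theorem sxm_lo {κ t : ℝ} (h : DomR κ t) (k1 u E x1 y0 : ℝ) (hk1 : k1 ≤ κ) (hu : sy κ t ≤ u)
    (hy0 : y0 ≤ sy κ t) (hE : E ≤ Real.exp (-u)) (hk10 : 0 ≤ k1) (hE0 : 0 ≤ E) (hm : -(y0 + u) ≤ 2 * (k1 * E) ^ 2)
    (hx1 : x1 ^ 2 + u ^ 2 ≤ (k1 * E) ^ 2) : x1 ≤ sx κ t := by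
  have hx := sx_pos h
  have hsq := s_sq h
  obtain ⟨y, hy⟩ : ∃ y, y = sy κ t := ⟨_, rfl⟩
  rw [← hy] at hu hy0 hsq
  have h1 : Real.exp (-2 * y) = Real.exp (-u) ^ 2 * Real.exp (2 * (u - y)) := by
    rw [← Real.exp_nat_mul, ← Real.exp_add]
    congr 1
    push_cast
    ring
  have h2 := Real.add_one_le_exp (2 * (u - y))
  have h3 : (k1 * E) ^ 2 ≤ κ ^ 2 * Real.exp (-u) ^ 2 := by
    rw [← mul_pow]
    exact pow_le_pow_left₀ (by positivity) (mul_le_mul hk1 hE hE0 h.1.le) 2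
  have h4 : (k1 * E) ^ 2 * (1 + 2 * (u - y)) ≤ κ ^ 2 * Real.exp (-2 * y) := by
    rw [h1, ← mul_assoc]
    exact mul_le_mul h3 (by linarith) (by linarith) (by positivity)
  have h5 : 0 ≤ (u - y) * (u + y + 2 * (k1 * E) ^ 2) := mul_nonneg (by linarith) (by linarith)
  have h6 : x1 ^ 2 ≤ sx κ t ^ 2 := by nlinarith
  exact abs_le_of_sq_le_sq' h6 hx.le |>.2

theorem sxm_hi {κ t : ℝ} (h : DomR κ t) (k1 k2 l E x2 : ℝ) (hk1 : k1 ≤ κ) (hk2 : κ ≤ k2) (hl : l ≤ sy κ t)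
    (hc : 0 ≤ l ∨ (sy κ t ≤ 0 ∧ -l ≤ k1 ^ 2)) (hE : Real.exp (-l) ≤ E) (hk10 : 0 ≤ k1) (hx20 : 0 ≤ x2)
    (hx2 : (k2 * E) ^ 2 ≤ x2 ^ 2 + l ^ 2) : sx κ t ≤ x2 := by
  have hx := sx_pos h
  have hsq := s_sq h
  have hk := h.1
  obtain ⟨y, hy⟩ : ∃ y, y = sy κ t := ⟨_, rfl⟩
  rw [← hy] at hl hc hsq
  have h1 : Real.exp (-l) ^ 2 = Real.exp (-2 * y) * Real.exp (2 * (y - l)) := by
    rw [← Real.exp_nat_mul, ← Real.exp_add]
    congr 1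
    push_cast
    ring
  have h2 := Real.add_one_le_exp (2 * (y - l))
  have h3 : κ ^ 2 * Real.exp (-l) ^ 2 ≤ (k2 * E) ^ 2 := by
    rw [← mul_pow]
    exact pow_le_pow_left₀ (by positivity) (mul_le_mul hk2 hE (Real.exp_pos _).le (by linarith)) 2
  have h4 : κ ^ 2 * Real.exp (-2 * y) * (1 + 2 * (y - l)) ≤ κ ^ 2 * Real.exp (-l) ^ 2 := by
    rw [h1, ← mul_assoc]
    exact mul_le_mul_of_nonneg_left (by linarith) (by positivity)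
  have h5 : 0 ≤ (y - l) * (2 * (κ ^ 2 * Real.exp (-2 * y)) + (l + y)) := by
    apply mul_nonneg (by linarith)
    rcases hc with hc | ⟨hc1, hc2⟩
    · have : 0 ≤ κ ^ 2 * Real.exp (-2 * y) := by positivity
      linarith
    · have h6 : 1 ≤ Real.exp (-2 * y) := by
        have := Real.add_one_le_exp (-2 * y)
        linarith
      have h7 : k1 ^ 2 ≤ κ ^ 2 := pow_le_pow_left₀ hk10 hk1 2
      have h8 : κ ^ 2 ≤ κ ^ 2 * Real.exp (-2 * y) := by nlinarith [sq_nonneg κ]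
      linarith
  have h6 : sx κ t ^ 2 ≤ x2 ^ 2 := by nlinarith
  exact abs_le_of_sq_le_sq' h6 hx20 |>.2

end Sok.B4
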