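import Pool.Agent.Lib.MP_816dec_an.R1Br

/-!
MP_816dec_an (A3, row R1, `b ≥ 9`): definitions shared by the rows of the uniform case.
-/

set_option autoImplicit false

open Complex Set Filter Topology Metric

namespace Sok

/-- half width of the range of `τ₁ / h` on the discs -/
noncomputable def sgm (κ : ℝ) : ℝ := Real.sqrt (1 + 1.15 * κ ^ 2) / 10

/-- a point of a disc: `κ = β R`, `t` is the angle of the copy `1`, the copy `k` has the angle
`t + (k - 1) h` -/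
structure DP (b : ℕ) (h κ R t : ℝ) : Prop where
  hb : 9 ≤ b
  hh : h = 2 * Real.pi / b
  k0 : 0 < κ
  k1 : κ ≤ 1.5
  R1 : 10.4 ≤ R
  T1 : 5.07 * (1 + κ ^ 2) ≤ R * h ^ 2
  lo : (0.42 - sgm κ) * h ≤ t + κ
  hi : t + κ ≤ (0.6 + sgm κ) * h

/-- a point of the outer segment (no disc) -/
structure OP (b : ℕ) (h κ R t : ℝ) : Prop where
  hb : 9 ≤ b
  hh : h = 2 * Real.pi / b
  k0 : 0 < κ
  k1 : κ ≤ 1.39
  R1 : 11.1 ≤ R
  T1 : 5.44 * (1 + κ ^ 2) ≤ R * h ^ 2
  lo : 0.03 * h ≤ t + κ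
  hi : t + κ ≤ 1.03 * h

/-- first index of the window -/
def aw (b : ℕ) : ℤ := 1 - ((b / 2 : ℕ) : ℤ)

/-- majorants of the far terms (`k ≥ 3`, `k ≤ -2`) -/
noncomputable def Mfar (k : ℤ) : ℝ :=
  if k = 3 then 1 / 100 else if k = 4 then 3 / 1000 else if k = 5 then 11 / 2000 else
  if k = -2 then 1 / 500 else if k = -3 then 3 / 500 else if k = -4 then 1 / 500 else
  1 / 2000 * (1 / 4) ^ (k.natAbs - 5)

/-- the majorants -/
noncomputable def MM (k : ℤ) : ℝ := if k = 2 then 7 / 100 else if k = -1 then 7 / 250 else Mfar k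

/-- the copy `k` at the point with data `(κ, t)` -/
noncomputable def Xf (β R h t : ℝ) (k : ℤ) : ℂ :=
  F (cexp (I * β)) (R * cexp (I * ((t + (k - 1) * h + β / 2 : ℝ) : ℂ)))

end Sok
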