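import Pool.Agent.Lib.MP_816dec_an.R1B4U
import Pool.Agent.Lib.MP_816dec_an.R1L
import Pool.Agent.Lib.MP_816dec_an.JBG2

/-!
MP_816dec_an (A3, row R1, b = 4): generic lemmas (gaps, lower bounds, composite cells, interface).
-/

set_option autoImplicit false

open Complex Set Filter Topology

namespace Sok.B4

/-! ### gaps -/

theorem h3pow (u u1 u2 : ℝ) : (u2 - u) * u1 ^ 4 + (u - u1) * u2 ^ 4 - (u2 - u1) * u ^ 4 =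
    (u2 - u1) * (u - u1) * (u2 - u) * (u1 ^ 2 + u2 ^ 2 + u ^ 2 + u1 * u2 + u1 * u + u * u2) := by ring

theorem h5pow (u u1 u2 : ℝ) : (u2 - u) * u1 ^ 6 + (u - u1) * u2 ^ 6 - (u2 - u1) * u ^ 6 =
    (u2 - u1) * (u - u1) * (u2 - u) * (u1 ^ 4 + u2 ^ 4 + u ^ 4 + u1 ^ 3 * u2 + u1 ^ 3 * u + u2 ^ 3 * u1 +
      u2 ^ 3 * u + u ^ 3 * u1 + u ^ 3 * u2 + u1 ^ 2 * u2 ^ 2 + u1 ^ 2 * u ^ 2 + u2 ^ 2 * u ^ 2 +
      u1 ^ 2 * u2 * u + u2 ^ 2 * u1 * u + u ^ 2 * u1 * u2) := by ring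

theorem conc_u {u u1 u2 A B a1 a2 a3 g : ℝ} (h0 : 0 ≤ u1) (h1 : u1 ≤ u) (h2 : u ≤ u2) (h12 : u1 < u2)
    (ha1 : 0 ≤ a1) (ha2 : 0 ≤ a2) (ha3 : 0 ≤ a3)
    (e1 : g ≤ A + B * u1 - a1 * u1 ^ 2 - a2 * u1 ^ 4 - a3 * u1 ^ 6)
    (e2 : g ≤ A + B * u2 - a1 * u2 ^ 2 - a2 * u2 ^ 4 - a3 * u2 ^ 6) :
    g ≤ A + B * u - a1 * u ^ 2 - a2 * u ^ 4 - a3 * u ^ 6 := by
  have hd : 0 < u2 - u1 := by linarith
  have d1 : 0 ≤ u - u1 := by linarith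
  have d2 : 0 ≤ u2 - u := by linarith
  have hu : 0 ≤ u := by linarith
  have hu2 : 0 ≤ u2 := by linarith
  have f1 := mul_le_mul_of_nonneg_left e1 d2
  have f2 := mul_le_mul_of_nonneg_left e2 d1
  have p2 : 0 ≤ (u2 - u1) * (u - u1) * (u2 - u) := by positivity
  have q2 : (u2 - u) * u1 ^ 2 + (u - u1) * u2 ^ 2 - (u2 - u1) * u ^ 2 = (u2 - u1) * (u - u1) * (u2 - u) := by ring
  have q4 := h3pow u u1 u2
  have q6 := h5pow u u1 u2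
  have p4 : 0 ≤ (u2 - u1) * (u - u1) * (u2 - u) * (u1 ^ 2 + u2 ^ 2 + u ^ 2 + u1 * u2 + u1 * u + u * u2) := by
    positivity
  have p6 : 0 ≤ (u2 - u1) * (u - u1) * (u2 - u) * (u1 ^ 4 + u2 ^ 4 + u ^ 4 + u1 ^ 3 * u2 + u1 ^ 3 * u + u2 ^ 3 * u1 +
      u2 ^ 3 * u + u ^ 3 * u1 + u ^ 3 * u2 + u1 ^ 2 * u2 ^ 2 + u1 ^ 2 * u ^ 2 + u2 ^ 2 * u ^ 2 +
      u1 ^ 2 * u2 * u + u2 ^ 2 * u1 * u + u ^ 2 * u1 * u2) := by positivity
  rw [← q2] at p2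
  rw [← q4] at p4
  rw [← q6] at p6
  have g2 := mul_nonneg ha1 p2
  have g4 := mul_nonneg ha2 p4
  have g6 := mul_nonneg ha3 p6
  refine le_of_mul_le_mul_left ?_ hd
  linarith

theorem conc_t {τ τ1 τ2 A B C g : ℝ} (h1 : τ1 ≤ τ) (h2 : τ ≤ τ2) (hC : 0 ≤ C)
    (e1 : g ≤ A + B * τ1 - C * τ1 ^ 2) (e2 : g ≤ A + B * τ2 - C * τ2 ^ 2) : g ≤ A + B * τ - C * τ ^ 2 := by
  rcases eq_or_lt_of_le (h1.trans h2) with h12 | h12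
  · have : τ = τ1 := by linarith
    rw [this]; exact e1
  have hd : 0 < τ2 - τ1 := by linarith
  have d1 : 0 ≤ τ - τ1 := by linarith
  have d2 : 0 ≤ τ2 - τ := by linarith
  have f1 := mul_le_mul_of_nonneg_left e1 d2
  have f2 := mul_le_mul_of_nonneg_left e2 d1
  have p2 : 0 ≤ C * ((τ2 - τ1) * (τ - τ1) * (τ2 - τ)) := by positivity
  refine le_of_mul_le_mul_left ?_ hd
  linarith

/-- the exponent gap from four corners -/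
theorem gap4 {κ τ : ℝ} (k1 k2 u0 τ1 τ2 c a0 a1 a2 a3 v s α γ g : ℝ) (hk0 : 0 < k1) (hk1 : k1 ≤ κ) (hk2 : κ ≤ k2)
    (h12 : k1 < k2) (hτ1 : τ1 ≤ τ) (hτ2 : τ ≤ τ2) (hc : 0 ≤ c) (ha1 : 0 ≤ a1) (ha2 : 0 ≤ a2) (ha3 : 0 ≤ a3)
    (hu0 : 0 < u0) (hu : k2 ≤ u0 ^ 2 * k2 + 2 * u0)
    (hα : u0 ^ 2 / (1 + u0 ^ 2) - γ * u0 ≤ α) (hγ : γ = 2 * u0 / (1 + u0 ^ 2) ^ 2)
    (hα1 : 0 ≤ α + γ * (1 / k2))
    (e11 : g ≤ 1 - c * τ1 ^ 2 * (α + γ * (1 / k2)) - a0 - a1 * (1 / k2) ^ 2 - a2 * (1 / k2) ^ 4 - a3 * (1 / k2) ^ 6 +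
      v * (τ1 + s) * (1 / k2))
    (e12 : g ≤ 1 - c * τ2 ^ 2 * (α + γ * (1 / k2)) - a0 - a1 * (1 / k2) ^ 2 - a2 * (1 / k2) ^ 4 - a3 * (1 / k2) ^ 6 +
      v * (τ2 + s) * (1 / k2))
    (e21 : g ≤ 1 - c * τ1 ^ 2 * (α + γ * (1 / k1)) - a0 - a1 * (1 / k1) ^ 2 - a2 * (1 / k1) ^ 4 - a3 * (1 / k1) ^ 6 +
      v * (τ1 + s) * (1 / k1))
    (e22 : g ≤ 1 - c * τ2 ^ 2 * (α + γ * (1 / k1)) - a0 - a1 * (1 / k1) ^ 2 - a2 * (1 / k1) ^ 4 - a3 * (1 / k1) ^ 6 +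
      v * (τ2 + s) * (1 / k1)) :
    g ≤ (1 - c * τ ^ 2 / (1 + κ ^ 2)) - (a0 + a1 * (1 / κ) ^ 2 + a2 * (1 / κ) ^ 4 + a3 * (1 / κ) ^ 6 -
      v * (τ + s) * (1 / κ)) := by
  have hκ : 0 < κ := by linarith
  have hk20 : 0 < k2 := by linarith
  have hB : 0 < 1 + u0 ^ 2 := by positivity
  have hγ0 : 0 ≤ γ := by rw [hγ]; positivity
  have hu1 : 1 / k2 ≤ 1 / κ := one_div_le_one_div_of_le hκ hk2
  have hu2 : 1 / κ ≤ 1 / k1 := one_div_le_one_div_of_le hk0 hk1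
  have hu12 : 1 / k2 < 1 / k1 := one_div_lt_one_div_of_lt hk0 h12
  have hu10 : 0 < 1 / k2 := by positivity
  obtain ⟨u, hud⟩ : ∃ u, u = 1 / κ := ⟨_, rfl⟩
  have hφ : 1 / (1 + κ ^ 2) ≤ α + γ * u := by
    have e0 : 1 / (1 + κ ^ 2) = u ^ 2 / (1 + u ^ 2) := by
      rw [hud]; field_simp; ring
    have huu : 1 ≤ u0 ^ 2 + 2 * u0 * u := by
      have h1 : 1 ≤ u0 ^ 2 + 2 * u0 * (1 / k2) := by
        have h2 : k2 / k2 ≤ (u0 ^ 2 * k2 + 2 * u0) / k2 := div_le_div_of_nonneg_right hu hk20.le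
        rw [div_self hk20.ne'] at h2
        have h3 : (u0 ^ 2 * k2 + 2 * u0) / k2 = u0 ^ 2 + 2 * u0 * (1 / k2) := by field_simp
        linarith
      rw [hud]
      nlinarith
    have hA : 0 < 1 + u ^ 2 := by positivity
    have h5 : u ^ 2 / (1 + u ^ 2) ≤ u0 ^ 2 / (1 + u0 ^ 2) - γ * u0 + γ * u := by
      rw [hγ]
      have e1 : u0 ^ 2 / (1 + u0 ^ 2) - 2 * u0 / (1 + u0 ^ 2) ^ 2 * u0 + 2 * u0 / (1 + u0 ^ 2) ^ 2 * u -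
          u ^ 2 / (1 + u ^ 2) = (u - u0) ^ 2 * (u0 ^ 2 + 2 * u0 * u - 1) / ((1 + u0 ^ 2) ^ 2 * (1 + u ^ 2)) := by
        field_simp
        ring
      have h6 : 0 ≤ (u - u0) ^ 2 * (u0 ^ 2 + 2 * u0 * u - 1) / ((1 + u0 ^ 2) ^ 2 * (1 + u ^ 2)) := by
        apply div_nonneg _ (by positivity)
        exact mul_nonneg (sq_nonneg _) (by linarith)
      linarith
    rw [e0]
    linarith
  have hα2 : 0 ≤ α + γ * (1 / k1) := by nlinarith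
  have t1 := conc_t (A := 1 - a0 - a1 * (1 / k2) ^ 2 - a2 * (1 / k2) ^ 4 - a3 * (1 / k2) ^ 6 + v * s * (1 / k2))
    (B := v * (1 / k2)) (C := c * (α + γ * (1 / k2))) (g := g) hτ1 hτ2 (mul_nonneg hc hα1) (by linarith) (by linarith)
  have t2 := conc_t (A := 1 - a0 - a1 * (1 / k1) ^ 2 - a2 * (1 / k1) ^ 4 - a3 * (1 / k1) ^ 6 + v * s * (1 / k1))
    (B := v * (1 / k1)) (C := c * (α + γ * (1 / k1))) (g := g) hτ1 hτ2 (mul_nonneg hc hα2) (by linarith) (by linarith)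
  have t3 := conc_u (u := u) (u1 := 1 / k2) (u2 := 1 / k1) (A := 1 - a0 - c * τ ^ 2 * α)
    (B := v * (τ + s) - c * τ ^ 2 * γ) (a1 := a1) (a2 := a2) (a3 := a3) (g := g) hu10.le (by rw [hud]; exact hu1)
    (by rw [hud]; exact hu2) hu12 ha1 ha2 ha3 (by linarith) (by linarith)
  rw [← hud]
  have h7 : c * τ ^ 2 / (1 + κ ^ 2) ≤ c * τ ^ 2 * (α + γ * u) := by
    have := mul_le_mul_of_nonneg_left hφ (by positivity : 0 ≤ c * τ ^ 2)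
    rwa [mul_one_div] at this
  linarith

/-! ### lower bounds -/

theorem Xf_Pb (β r h t : ℝ) (k : ℤ) : Xf β r h t k = Pb β r (t + (k - 1) * h) := rfl

theorem q4' {x : ℝ} (hx : 0 ≤ x) : Real.sqrt (Real.sqrt x) ^ 4 = x := by
  rw [show Real.sqrt (Real.sqrt x) ^ 4 = (Real.sqrt (Real.sqrt x) ^ 2) ^ 2 by ring,
    Real.sq_sqrt (Real.sqrt_nonneg _), Real.sq_sqrt hx]

theorem norm_Pb {β r κ t : ℝ} (hβ : 0 < β) (hκ : κ = β * r) (hD : DomR κ t) :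
    ‖Pb β r t‖ = ‖HH β (sg κ t)‖ * (Real.exp (r * sE κ t) / Real.sqrt (Real.sqrt (sD κ t))) := by
  have h1 := norm_Xf_eq (β := β) (R := r) (h := 0) (t := t) (k := 1) (t' := t) hβ (by ring) (by rw [← hκ]; exact hD)
  rw [Xf_Pb, ← hκ] at h1
  have e : t + (((1 : ℤ) : ℝ) - 1) * 0 = t := by ring
  rw [e] at h1
  rw [h1]
  unfold sQ
  have e2 : κ / β = r := by rw [hκ]; field_simp
  rw [e2]

/-- lower bound of a near copy -/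
theorem near_lo {β r κ t ε c d ℓ : ℝ} (hβ : 0 < β) (hr : 0 ≤ r) (hκ : κ = β * r) (hD : DomR κ t)
    (hJ : ‖HH β (sg κ t) - 1‖ ≤ ε) (hE : 1 - c * (t + κ) ^ 2 / (1 + κ ^ 2) ≤ sE κ t) (hd : sD κ t ≤ d)
    (hε : ε ≤ 1) (hℓ : ℓ ^ 4 * d ≤ (1 - ε) ^ 4) :
    ℓ * Real.exp (r * (1 - c * (t + κ) ^ 2 / (1 + κ ^ 2))) ≤ ‖Pb β r t‖ := by
  rw [norm_Pb hβ hκ hD]
  have hH : 1 - ε ≤ ‖HH β (sg κ t)‖ := by
    have h1 := norm_sub_norm_le 1 (1 - HH β (sg κ t))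
    rw [norm_one, norm_sub_rev 1] at h1
    have h2 : (1 : ℂ) - (1 - HH β (sg κ t)) = HH β (sg κ t) := by ring
    rw [h2] at h1
    linarith
  have hs := sD_pos hD
  have hS : 0 < Real.sqrt (Real.sqrt (sD κ t)) := Real.sqrt_pos.2 (Real.sqrt_pos.2 hs)
  have h1ε : 0 ≤ 1 - ε := by linarith
  have key : ℓ * Real.sqrt (Real.sqrt (sD κ t)) ≤ 1 - ε := by
    by_contra hcon
    push Not at hcon
    have h3 := pow_lt_pow_left₀ hcon h1ε (n := 4) (by norm_num)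
    rw [mul_pow, q4' hs.le] at h3
    have h5 := mul_le_mul_of_nonneg_left hd (by positivity : 0 ≤ ℓ ^ 4)
    linarith
  have hE' : Real.exp (r * (1 - c * (t + κ) ^ 2 / (1 + κ ^ 2))) ≤ Real.exp (r * sE κ t) :=
    Real.exp_le_exp.2 (mul_le_mul_of_nonneg_left hE hr)
  have h7 : (1 - ε) * (Real.exp (r * (1 - c * (t + κ) ^ 2 / (1 + κ ^ 2))) / Real.sqrt (Real.sqrt (sD κ t))) ≤
      ‖HH β (sg κ t)‖ * (Real.exp (r * sE κ t) / Real.sqrt (Real.sqrt (sD κ t))) :=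
    mul_le_mul hH (div_le_div_of_nonneg_right hE' hS.le) (by positivity) (norm_nonneg _)
  refine le_trans ?_ h7
  rw [mul_div_assoc', le_div_iff₀ hS]
  have := mul_le_mul_of_nonneg_right key (Real.exp_pos (r * (1 - c * (t + κ) ^ 2 / (1 + κ ^ 2)))).le
  linarith

/-- upper bound of `sD` from a `y`-range (convexity) -/
theorem sD_le {κ t : ℝ} (h : DomR κ t) (k2 y0 y1 e0 e1 d : ℝ) (hk2 : κ ≤ k2) (h0 : y0 ≤ sy κ t) (h1 : sy κ t ≤ y1)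
    (he0 : Real.exp (-2 * y0) ≤ e0) (he1 : Real.exp (-2 * y1) ≤ e1)
    (hd0 : k2 ^ 2 * e0 + 1 + 2 * y0 ≤ d) (hd1 : k2 ^ 2 * e1 + 1 + 2 * y1 ≤ d) : sD κ t ≤ d := by
  have e2 : sD κ t = κ ^ 2 * Real.exp (-2 * sy κ t) + 1 + 2 * sy κ t := sD_eq' h
  rw [e2]
  have hk := h.1
  obtain ⟨y, hy⟩ : ∃ y, y = sy κ t := ⟨_, rfl⟩
  rw [← hy] at h0 h1 ⊢
  have hkk : κ ^ 2 ≤ k2 ^ 2 := pow_le_pow_left₀ hk.le hk2 2
  have hk0 : 0 ≤ k2 ^ 2 := by positivity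
  have hstep : κ ^ 2 * Real.exp (-2 * y) ≤ k2 ^ 2 * Real.exp (-2 * y) :=
    mul_le_mul_of_nonneg_right hkk (Real.exp_pos _).le
  rcases eq_or_lt_of_le (h0.trans h1) with h01 | h01
  · have hyy : y = y0 := by linarith
    rw [hyy] at hstep ⊢
    have := mul_le_mul_of_nonneg_left he0 hk0
    linarith
  have hne : y1 - y0 ≠ 0 := by linarith
  obtain ⟨l, hl⟩ : ∃ l, l = (y1 - y) / (y1 - y0) := ⟨_, rfl⟩
  obtain ⟨m, hm⟩ : ∃ m, m = (y - y0) / (y1 - y0) := ⟨_, rfl⟩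
  have hl0 : 0 ≤ l := by rw [hl]; exact div_nonneg (by linarith) (by linarith)
  have hm0 : 0 ≤ m := by rw [hm]; exact div_nonneg (by linarith) (by linarith)
  have hlm : l + m = 1 := by
    rw [hl, hm, ← add_div, div_eq_one_iff_eq hne]; ring
  have hyl : y = l * y0 + m * y1 := by
    rw [hl, hm]
    field_simp
    ring
  have hcv : Real.exp (-2 * y) ≤ l * Real.exp (-2 * y0) + m * Real.exp (-2 * y1) := by
    have h5 := convexOn_exp.2 (mem_univ (-2 * y0)) (mem_univ (-2 * y1)) hl0 hm0 hlm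
    simp only [smul_eq_mul] at h5
    have e3 : l * (-2 * y0) + m * (-2 * y1) = -2 * y := by
      rw [hyl]; ring
    rwa [e3] at h5
  have c1 := mul_le_mul_of_nonneg_left he0 hl0
  have c2 := mul_le_mul_of_nonneg_left he1 hm0
  have c3 : Real.exp (-2 * y) ≤ l * e0 + m * e1 := by linarith
  have c4 := mul_le_mul_of_nonneg_left c3 hk0
  have c5 := mul_le_mul_of_nonneg_left hd0 hl0
  have c6 := mul_le_mul_of_nonneg_left hd1 hm0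
  have c7 : l * d + m * d = d := by rw [← add_mul, hlm, one_mul]
  nlinarith

end Sok.B4
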