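import Pool.Agent.Lib.MP_816dec_an.R1B4C

/-!
MP_816dec_an (A3, row R1, b = 4): interface.
-/

set_option autoImplicit false

open Complex Set Filter Topology

namespace Sok.B4

/-- the logarithmic derivative of a copy -/
noncomputable def LD (β r t : ℝ) : ℂ := (r * cexp (I * ((t + β / 2 : ℝ) : ℂ)) * Pb β r (t + β)) / Pb β r t

theorem far4 : far (-1) 4 = {-1, 2} := by
  unfold far
  decide

/-- data of the window -/
structure Win (β r : ℝ) (E2 Em F2 Fm l0 l1 m t : ℝ) : Prop where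
  ne0 : Pb β r (t - Real.pi / 2) ≠ 0
  e2 : ‖Pb β r (t + Real.pi / 2)‖ ≤ E2 * max ‖Pb β r (t - Real.pi / 2)‖ ‖Pb β r t‖
  em : ‖Pb β r (t - Real.pi)‖ ≤ Em * max ‖Pb β r (t - Real.pi / 2)‖ ‖Pb β r t‖
  f2 : ‖Pb β r (t + Real.pi / 2 + β)‖ ≤ F2 * max ‖Pb β r (t - Real.pi / 2)‖ ‖Pb β r t‖
  fm : ‖Pb β r (t - Real.pi + β)‖ ≤ Fm * max ‖Pb β r (t - Real.pi / 2)‖ ‖Pb β r t‖
  L0 : ‖LD β r (t - Real.pi / 2)‖ ≤ r * l0
  L1 : ‖LD β r t‖ ≤ r * l1
  S : r * m ≤ (LD β r t - LD β r (t - Real.pi / 2)).im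

theorem circ4 {p : ℤ} {β r κ : ℝ} (hp : IsCoprime (4 : ℤ) p) (hr : 0 < r)
    {s0 slo shi a m E2 Em F2 Fm l0 l1 : ℝ} (huv : slo < shi) (ha : 1 < a) (hm : 0 < m)
    (hη : 1 < a * (1 - (Em + E2)))
    (hw : ∀ t, slo * (Real.pi / 2) ≤ t + κ → t + κ ≤ shi * (Real.pi / 2) → Win β r E2 Em F2 Fm l0 l1 m t)
    (hout : ∀ t, s0 * (Real.pi / 2) ≤ t + κ → t + κ ≤ (s0 + 1) * (Real.pi / 2) →
      (t + κ < slo * (Real.pi / 2) ∨ shi * (Real.pi / 2) < t + κ) →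
      ‖Pb β r (t - Real.pi)‖ + ‖Pb β r (t + Real.pi / 2)‖ < |‖Pb β r t‖ - ‖Pb β r (t - Real.pi / 2)‖|)
    (small1 : a ^ 4 * Em + 2 * a ^ 5 * E2 < 1)
    (small2 : a ^ 4 * (Fm + Em * (2 * l0 + l1)) + a ^ 5 * (F2 + E2 * (l0 + 2 * l1)) <
      m * (1 - (a ^ 4 * Em + 2 * a ^ 5 * E2))) :
    Circ (2 * Real.pi * p / 4 + β) r := by
  have hh : Real.pi / 2 = 2 * Real.pi / ((4 : ℕ) : ℝ) := by push_cast; ring
  have ek : ∀ t : ℝ, Xf β r (Real.pi / 2) t 0 = Pb β r (t - Real.pi / 2) ∧ Xf β r (Real.pi / 2) t 1 = Pb β r t ∧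
      Xf β r (Real.pi / 2) t 2 = Pb β r (t + Real.pi / 2) ∧ Xf β r (Real.pi / 2) t (-1) = Pb β r (t - Real.pi) := by
    intro t
    refine ⟨?_, ?_, ?_, ?_⟩
    · rw [Xf_Pb]; congr 1; push_cast; ring
    · rw [Xf_Pb]; congr 1; push_cast; ring
    · rw [Xf_Pb]; congr 1; push_cast; ring
    · rw [Xf_Pb]; congr 1; push_cast; ring
  have el : ∀ t : ℝ, Ld β r (Real.pi / 2) t 0 = LD β r (t - Real.pi / 2) ∧ Ld β r (Real.pi / 2) t 1 = LD β r t := by
    intro t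
    unfold Ld LD
    rw [(ek t).1, (ek t).2.1, (ek (t + β)).1, (ek (t + β)).2.1]
    constructor
    · have e1 : t + β - Real.pi / 2 = t - Real.pi / 2 + β := by ring
      have e2 : t + (((0 : ℤ) : ℝ) - 1) * (Real.pi / 2) + β / 2 = t - Real.pi / 2 + β / 2 := by push_cast; ring
      rw [e1, e2]
    · have e2 : t + (((1 : ℤ) : ℝ) - 1) * (Real.pi / 2) + β / 2 = t + β / 2 := by push_cast; ring
      rw [e2]
  have p2 : pw 2 = 2 := by decide
  have pm : pw (-1) = 2 := by decide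
  have hne : (-1 : ℤ) ≠ 2 := by decide
  have hsum : ∀ f : ℤ → ℝ, ∑ k ∈ far (-1) 4, f k = f (-1) + f 2 := by
    intro f
    rw [far4, Finset.sum_pair hne]
  have key := circ_L (p := p) (b := 4) (by norm_num) (by exact_mod_cast hp) (β := β) (r := r) (h := Real.pi / 2) (κ := κ)
    hr hh (a0 := -1) (by norm_num) (by norm_num) (s0 := s0) (slo := slo) (shi := shi) (a := a) (m := r * m)
    (η := Em + E2) (Λ0 := r * l0) (Λ1 := r * l1) (E := fun k => if k = 2 then E2 else Em)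
    (D := fun k => if k = 2 then r * F2 else r * Fm) huv ha (mul_pos hr hm) hη
    (fun t h1 h2 => by rw [(ek t).1]; exact (hw t h1 h2).ne0)
    ?_ ?_ (fun t h1 h2 => by rw [(el t).1]; exact (hw t h1 h2).L0) (fun t h1 h2 => by rw [(el t).2]; exact (hw t h1 h2).L1)
    (fun t h1 h2 => by rw [(el t).1, (el t).2]; exact (hw t h1 h2).S) ?_ ?_ ?_ ?_
  · have e : (2 * Real.pi * p / ((4 : ℕ) : ℝ) + β) = 2 * Real.pi * p / 4 + β := by push_cast; ring
    rwa [e] at key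
  · intro t h1 h2 k hk
    rw [far4] at hk
    rw [(ek t).1, (ek t).2.1]
    simp only [Finset.mem_insert, Finset.mem_singleton] at hk
    rcases hk with rfl | rfl
    · rw [(ek t).2.2.2, if_neg (by norm_num)]
      exact (hw t h1 h2).em
    · rw [(ek t).2.2.1, if_pos rfl]
      exact (hw t h1 h2).e2
  · intro t h1 h2 k hk
    rw [far4] at hk
    rw [(ek t).1, (ek t).2.1]
    simp only [Finset.mem_insert, Finset.mem_singleton] at hk
    rcases hk with rfl | rfl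
    · rw [(ek (t + β)).2.2.2, if_neg (by norm_num)]
      have := mul_le_mul_of_nonneg_left (hw t h1 h2).fm hr.le
      have e1 : t + β - Real.pi = t - Real.pi + β := by ring
      rw [e1]
      linarith
    · rw [(ek (t + β)).2.2.1, if_pos rfl]
      have := mul_le_mul_of_nonneg_left (hw t h1 h2).f2 hr.le
      have e1 : t + β + Real.pi / 2 = t + Real.pi / 2 + β := by ring
      rw [e1]
      linarith
  · rw [hsum]
    norm_num
  · intro t h1 h2 h3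
    rw [hsum, (ek t).1, (ek t).2.1, (ek t).2.2.1, (ek t).2.2.2]
    exact hout t h1 h2 h3
  · rw [hsum, p2, pm]
    norm_num
    linarith
  · rw [hsum, hsum, p2, pm]
    norm_num
    have := mul_lt_mul_of_pos_left small2 hr
    linarith

theorem out_left {A B C D ρ0 ρ1 ρ2 : ℝ} (hY : 0 < B) (h0 : A ≤ ρ0 * B) (h1 : C ≤ ρ1 * B) (h2 : D ≤ ρ2 * B)
    (hs : ρ0 + ρ1 + ρ2 < 1) : C + D < |B - A| := by
  refine lt_of_lt_of_le ?_ (le_abs_self _)
  nlinarith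

theorem out_right {A B C D ρ0 ρ1 ρ2 : ℝ} (hY : 0 < A) (h0 : B ≤ ρ0 * A) (h1 : C ≤ ρ1 * A) (h2 : D ≤ ρ2 * A)
    (hs : ρ0 + ρ1 + ρ2 < 1) : C + D < |B - A| := by
  rw [abs_sub_comm]
  refine lt_of_lt_of_le ?_ (le_abs_self _)
  nlinarith

end Sok.B4
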