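import Pool.Agent.Lib.MP_816dec_an.JBG2

/-!
MP_816dec_an (A3, row R1, b = 4): outer left, no disc.
-/

set_option autoImplicit false
set_option maxHeartbeats 4000000

open Complex Set

namespace Sok.B4

private theorem jo0_b0_0 {β x y : ℝ} (hβ : 0 < β) (hN : β * 27.777 ≤ 1) (hx1 : 0.2916 ≤ x) (hx2 : x ≤ 0.404)
    (hy1 : -0.217 ≤ y) (hy2 : y ≤ -0.192) : ‖HH β (x + y * I) - 1‖ ≤ 0.015 := by
  refine le_epsJ (C := 0.4139) (N0 := 27.777) (J_boxp 0.2916 0.404 0.217 0 (-0.192) 0.7613 0.4586 0.9034 1.4309 0.3792 5.2704 27.777 0.6024 2.192 1.308 1.0644 0.3806 0.3042 0.7655 3.1747 0.3781 0.9037 1.564 4.0486 0.00002566 0.0002142 0.0000003101 0.0000003101 0.00002749 0.0000003101 0.0000003101 0.0000003101 0.4139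
    hβ hN hx1 hx2 hy1 hy2 (by norm_num) (by norm_num) (by linarith) (by norm_num) (by norm_num) (by norm_num) (by norm_num) (by norm_num) (by norm_num) (by norm_num) (by norm_num) (by norm_num) (by norm_num) (by norm_num) (by norm_num) (by norm_num) (by norm_num) (by norm_num) (by norm_num) (by norm_num) (by norm_num) (by norm_num) (by norm_num) (by norm_num)
    (cube_sqrt_geJ (s := 0.8939) (by norm_num) (by norm_num) (by norm_num) (by norm_num))
    (cube_sqrt_geJ (s := 0.9624) (by norm_num) (by norm_num) (by norm_num) (by norm_num))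
    (by norm_num) (by norm_num) (by norm_num) (by norm_num) (by norm_num) (by norm_num) (by norm_num) (by norm_num) (by norm_num) (by norm_num) (by norm_num) (by norm_num) (by norm_num) (by norm_num) (by norm_num) (by norm_num) (by norm_num) (by norm_num)
    (exp_neg_leJ (r := 0.571) 10 (by norm_num) (by norm_num) (by norm_num) (by norm_num))
    (exp_neg_leJ (r := 0.449) 8 (by norm_num) (by norm_num) (by norm_num) (by norm_num))
    (exp_neg_leJ (r := 0.99) 14 (by norm_num) (by norm_num) (by norm_num) (by norm_num))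
    (exp_neg_leJ (r := 0.99) 14 (by norm_num) (by norm_num) (by norm_num) (by norm_num))
    (exp_neg_leJ (r := 0.502) 10 (by norm_num) (by norm_num) (by norm_num) (by norm_num))
    (exp_neg_leJ (r := 0.99) 14 (by norm_num) (by norm_num) (by norm_num) (by norm_num))
    (exp_neg_leJ (r := 0.99) 14 (by norm_num) (by norm_num) (by norm_num) (by norm_num))
    (exp_neg_leJ (r := 0.99) 14 (by norm_num) (by norm_num) (by norm_num) (by norm_num))
    (by norm_num)) (by norm_num) hN hβ.le (by norm_num)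

private theorem jo0_b0_1 {β x y : ℝ} (hβ : 0 < β) (hN : β * 27.777 ≤ 1) (hx1 : 0.2792 ≤ x) (hx2 : x ≤ 0.4188)
    (hy1 : -0.192 ≤ y) (hy2 : y ≤ -0.122) : ‖HH β (x + y * I) - 1‖ ≤ 0.015 := by
  refine le_epsJ (C := 0.4154) (N0 := 27.777) (J_boxp 0.2792 0.4188 0.192 0 (-0.122) 0.7703 0.4608 0.9728 1.4589 0.3935 5.2704 27.777 0.5983 2.179 1.306 1.0818 0.3851 0.3083 0.8007 3.248 0.3857 0.8865 1.6071 4.0179 0.00002266 0.0001912 0.0000003101 0.0000003101 0.00002228 0.0000003101 0.0000003101 0.0000003101 0.4154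
    hβ hN hx1 hx2 hy1 hy2 (by norm_num) (by norm_num) (by linarith) (by norm_num) (by norm_num) (by norm_num) (by norm_num) (by norm_num) (by norm_num) (by norm_num) (by norm_num) (by norm_num) (by norm_num) (by norm_num) (by norm_num) (by norm_num) (by norm_num) (by norm_num) (by norm_num) (by norm_num) (by norm_num) (by norm_num) (by norm_num) (by norm_num)
    (cube_sqrt_geJ (s := 0.8947) (by norm_num) (by norm_num) (by norm_num) (by norm_num))
    (cube_sqrt_geJ (s := 0.9626) (by norm_num) (by norm_num) (by norm_num) (by norm_num))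
    (by norm_num) (by norm_num) (by norm_num) (by norm_num) (by norm_num) (by norm_num) (by norm_num) (by norm_num) (by norm_num) (by norm_num) (by norm_num) (by norm_num) (by norm_num) (by norm_num) (by norm_num) (by norm_num) (by norm_num) (by norm_num)
    (exp_neg_leJ (r := 0.696) 10 (by norm_num) (by norm_num) (by norm_num) (by norm_num))
    (exp_neg_leJ (r := 0.563) 8 (by norm_num) (by norm_num) (by norm_num) (by norm_num))
    (exp_neg_leJ (r := 0.99) 14 (by norm_num) (by norm_num) (by norm_num) (by norm_num))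
    (exp_neg_leJ (r := 0.99) 14 (by norm_num) (by norm_num) (by norm_num) (by norm_num))
    (exp_neg_leJ (r := 0.713) 10 (by norm_num) (by norm_num) (by norm_num) (by norm_num))
    (exp_neg_leJ (r := 0.99) 14 (by norm_num) (by norm_num) (by norm_num) (by norm_num))
    (exp_neg_leJ (r := 0.99) 14 (by norm_num) (by norm_num) (by norm_num) (by norm_num))
    (exp_neg_leJ (r := 0.99) 14 (by norm_num) (by norm_num) (by norm_num) (by norm_num))
    (by norm_num)) (by norm_num) hN hβ.le (by norm_num)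

private theorem jo0_b0_2 {β x y : ℝ} (hβ : 0 < β) (hN : β * 27.777 ≤ 1) (hx1 : 0.2659 ≤ x) (hx2 : x ≤ 0.4068)
    (hy1 : -0.122 ≤ y) (hy2 : y ≤ 0.025) : ‖HH β (x + y * I) - 1‖ ≤ 0.015 := by
  refine le_epsJ (C := 0.3138) (N0 := 27.777) (J_boxp 0.2659 0.4068 0.122 0.025 0.025 0.8106 0.4248 1.1028 1.439 0.419 5.2704 27.777 0.5241 1.959 1.262 1.151 0.4052 0.3344 0.9067 3.4811 0.4149 0.8656 1.6636 3.9713 0.00001295 0.00009254 0.0000003101 0.0000003101 0.000009893 0.0000003101 0.0000003101 0.0000003101 0.3138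
    hβ hN hx1 hx2 hy1 hy2 (by norm_num) (by norm_num) (by linarith) (by norm_num) (by norm_num) (by norm_num) (by norm_num) (by norm_num) (by norm_num) (by norm_num) (by norm_num) (by norm_num) (by norm_num) (by norm_num) (by norm_num) (by norm_num) (by norm_num) (by norm_num) (by norm_num) (by norm_num) (by norm_num) (by norm_num) (by norm_num) (by norm_num)
    (cube_sqrt_geJ (s := 0.9084) (by norm_num) (by norm_num) (by norm_num) (by norm_num))
    (cube_sqrt_geJ (s := 0.9673) (by norm_num) (by norm_num) (by norm_num) (by norm_num))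
    (by norm_num) (by norm_num) (by norm_num) (by norm_num) (by norm_num) (by norm_num) (by norm_num) (by norm_num) (by norm_num) (by norm_num) (by norm_num) (by norm_num) (by norm_num) (by norm_num) (by norm_num) (by norm_num) (by norm_num) (by norm_num)
    (exp_neg_leJ (r := 0.255) 11 (by norm_num) (by norm_num) (by norm_num) (by norm_num))
    (exp_neg_leJ (r := 0.288) 9 (by norm_num) (by norm_num) (by norm_num) (by norm_num))
    (exp_neg_leJ (r := 0.99) 14 (by norm_num) (by norm_num) (by norm_num) (by norm_num))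
    (exp_neg_leJ (r := 0.99) 14 (by norm_num) (by norm_num) (by norm_num) (by norm_num))
    (exp_neg_leJ (r := 0.524) 11 (by norm_num) (by norm_num) (by norm_num) (by norm_num))
    (exp_neg_leJ (r := 0.99) 14 (by norm_num) (by norm_num) (by norm_num) (by norm_num))
    (exp_neg_leJ (r := 0.99) 14 (by norm_num) (by norm_num) (by norm_num) (by norm_num))
    (exp_neg_leJ (r := 0.99) 14 (by norm_num) (by norm_num) (by norm_num) (by norm_num))
    (by norm_num)) (by norm_num) hN hβ.le (by norm_num)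

private theorem jo0_c0 {κ t β : ℝ} (h : DomR κ t) (hβ : 0 < β) (hk1 : 0.3 ≤ κ) (hk2 : κ ≤ 0.36)
    (ht1 : -0.5341 ≤ t + κ) (ht2 : t + κ ≤ 0.0786) (hR0 : β * 10 ≤ κ) (hR : β * (3.3 * (1 + κ ^ 2)) ≤ κ) :
    ‖HH β (sg κ t) - 1‖ ≤ 0.015 := by
  have hN : β * 27.777 ≤ 1 := bNR hβ h.1 hk2 hR0 (by norm_num)
  have hy1 : -0.217 ≤ sy κ t := syL_ge2 h 0.3 0.36 0.5341 0.217 0.80492 0.80493 0.477 0.48518 0.58224 hk1 hk2 (by linarith) (by norm_num) (by norm_num) (by norm_num)
    (expm_ge (by norm_num) (by norm_num) (by norm_num) (by norm_num)) (expm_le (by norm_num) (by norm_num) (by norm_num)) (by norm_num)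
    (by norm_num) (by norm_num) (by norm_num) (by norm_num) (by norm_num) (by norm_num)
  have hy2 : sy κ t ≤ 0.025 := syR_le h 0.3 0.36 0.0786 0.025 1.02531 0.0676 0.0712 0.08545 hk1 hk2 (by linarith) (by norm_num) (by norm_num)
    (expn_ge (by norm_num) (by norm_num)) (by norm_num) (by norm_num) (Or.inr ((mul_le_mul_of_nonneg_left (expn_le (E := 1.02532) (by norm_num) (by norm_num) (by norm_num)) (by norm_num)).trans (by norm_num))) (by norm_num) (by norm_num) (by norm_num)
  rcases le_total (sy κ t) (-0.192) with f0 | g0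
  · have hx1 : 0.2916 ≤ sx κ t := sx_lo h 0.3 (-0.192) 0.217 1.21167 0.2916 hk1 (by norm_num) f0 (abs_le.2 ⟨by linarith, by linarith⟩) (by rw [neg_neg]; exact expn_ge (by norm_num) (by norm_num)) (by norm_num) (by norm_num)
    have hx2 : sx κ t ≤ 0.404 := sx_hi h 0.36 (-0.217) 0.192 1.24235 0.404 hk2 hy1 (by norm_num) (by rw [abs_of_nonpos (by linarith)]; linarith) (by rw [neg_neg]; exact expn_le (by norm_num) (by norm_num) (by norm_num)) (by norm_num) (by norm_num)
    exact jo0_b0_0 hβ hN hx1 hx2 (by linarith) (by linarith)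
  rcases le_total (sy κ t) (-0.122) with f1 | g1
  · have hx1 : 0.2792 ≤ sx κ t := sx_lo h 0.3 (-0.122) 0.192 1.12975 0.2792 hk1 (by norm_num) f1 (abs_le.2 ⟨by linarith, by linarith⟩) (by rw [neg_neg]; exact expn_ge (by norm_num) (by norm_num)) (by norm_num) (by norm_num)
    have hx2 : sx κ t ≤ 0.4188 := sx_hi h 0.36 (-0.192) 0.122 1.21168 0.4188 hk2 g0 (by norm_num) (by rw [abs_of_nonpos (by linarith)]; linarith) (by rw [neg_neg]; exact expn_le (by norm_num) (by norm_num) (by norm_num)) (by norm_num) (by norm_num)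
    exact jo0_b0_1 hβ hN hx1 hx2 (by linarith) (by linarith)
  have hx1 : 0.2659 ≤ sx κ t := sx_lo h 0.3 0.025 0.122 0.9753 0.2659 hk1 (by norm_num) hy2 (abs_le.2 ⟨by linarith, by linarith⟩) (expm_ge (by norm_num) (by norm_num) (by norm_num) (by norm_num)) (by norm_num) (by norm_num)
  have hx2 : sx κ t ≤ 0.4068 := sx_hi h 0.36 (-0.122) 0 1.12976 0.4068 hk2 g1 (by norm_num) (abs_nonneg _) (by rw [neg_neg]; exact expn_le (by norm_num) (by norm_num) (by norm_num)) (by norm_num) (by norm_num)
  exact jo0_b0_2 hβ hN hx1 hx2 (by linarith) (by linarith)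

theorem jo0 {κ t β : ℝ} (h : DomR κ t) (hβ : 0 < β) (hk1 : 0.3 ≤ κ) (hk2 : κ ≤ 0.36)
    (ht1 : -0.5341 ≤ t + κ) (ht2 : t + κ ≤ 0.0786) (hR0 : β * 10 ≤ κ) (hR : β * (3.3 * (1 + κ ^ 2)) ≤ κ) :
    ‖HH β (sg κ t) - 1‖ ≤ 0.015 := by
  exact jo0_c0 h hβ hk1 hk2 ht1 ht2 hR0 hR

private theorem jo1_b0_0 {β x y : ℝ} (hβ : 0 < β) (hN : β * 24.39 ≤ 1) (hx1 : 0.3758 ≤ x) (hx2 : x ≤ 0.4753)
    (hy1 : -0.244 ≤ y) (hy2 : y ≤ -0.219) : ‖HH β (x + y * I) - 1‖ ≤ 0.02 := by
  refine le_epsJ (C := 0.4839) (N0 := 24.39) (J_boxp 0.3758 0.4753 0.244 0 (-0.219) 0.8014 0.5343 0.9143 1.3329 0.3815 4.9387 24.39 0.6668 2.411 1.348 1.012 0.4006 0.3116 0.7517 3.0475 0.4042 1.0203 1.659 4.0113 0.00005721 0.0005012 0.0000003101 0.0000003101 0.00005243 0.0000003101 0.0000003101 0.0000003101 0.4839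
    hβ hN hx1 hx2 hy1 hy2 (by norm_num) (by norm_num) (by linarith) (by norm_num) (by norm_num) (by norm_num) (by norm_num) (by norm_num) (by norm_num) (by norm_num) (by norm_num) (by norm_num) (by norm_num) (by norm_num) (by norm_num) (by norm_num) (by norm_num) (by norm_num) (by norm_num) (by norm_num) (by norm_num) (by norm_num) (by norm_num) (by norm_num)
    (cube_sqrt_geJ (s := 0.8818) (by norm_num) (by norm_num) (by norm_num) (by norm_num))
    (cube_sqrt_geJ (s := 0.9583) (by norm_num) (by norm_num) (by norm_num) (by norm_num))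
    (by norm_num) (by norm_num) (by norm_num) (by norm_num) (by norm_num) (by norm_num) (by norm_num) (by norm_num) (by norm_num) (by norm_num) (by norm_num) (by norm_num) (by norm_num) (by norm_num) (by norm_num) (by norm_num) (by norm_num) (by norm_num)
    (exp_neg_leJ (r := 0.77) 9 (by norm_num) (by norm_num) (by norm_num) (by norm_num))
    (exp_neg_leJ (r := 0.599) 7 (by norm_num) (by norm_num) (by norm_num) (by norm_num))
    (exp_neg_leJ (r := 0.99) 14 (by norm_num) (by norm_num) (by norm_num) (by norm_num))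
    (exp_neg_leJ (r := 0.99) 14 (by norm_num) (by norm_num) (by norm_num) (by norm_num))
    (exp_neg_leJ (r := 0.858) 9 (by norm_num) (by norm_num) (by norm_num) (by norm_num))
    (exp_neg_leJ (r := 0.99) 14 (by norm_num) (by norm_num) (by norm_num) (by norm_num))
    (exp_neg_leJ (r := 0.99) 14 (by norm_num) (by norm_num) (by norm_num) (by norm_num))
    (exp_neg_leJ (r := 0.99) 14 (by norm_num) (by norm_num) (by norm_num) (by norm_num))
    (by norm_num)) (by norm_num) hN hβ.le (by norm_num)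

private theorem jo1_b0_1 {β x y : ℝ} (hβ : 0 < β) (hN : β * 24.39 ≤ 1) (hx1 : 0.3583 ≤ x) (hx2 : x ≤ 0.4866)
    (hy1 : -0.219 ≤ y) (hy2 : y ≤ -0.154) : ‖HH β (x + y * I) - 1‖ ≤ 0.02 := by
  refine le_epsJ (C := 0.4859) (N0 := 24.39) (J_boxp 0.3583 0.4866 0.219 0 (-0.154) 0.8068 0.5337 0.976 1.3633 0.3942 4.9387 24.39 0.6616 2.392 1.345 1.0308 0.4033 0.3144 0.7852 3.1227 0.4094 0.9961 1.6919 3.9779 0.00005359 0.0004679 0.0000003101 0.0000003101 0.00004625 0.0000003101 0.0000003101 0.0000003101 0.4859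
    hβ hN hx1 hx2 hy1 hy2 (by norm_num) (by norm_num) (by linarith) (by norm_num) (by norm_num) (by norm_num) (by norm_num) (by norm_num) (by norm_num) (by norm_num) (by norm_num) (by norm_num) (by norm_num) (by norm_num) (by norm_num) (by norm_num) (by norm_num) (by norm_num) (by norm_num) (by norm_num) (by norm_num) (by norm_num) (by norm_num) (by norm_num)
    (cube_sqrt_geJ (s := 0.8828) (by norm_num) (by norm_num) (by norm_num) (by norm_num))
    (cube_sqrt_geJ (s := 0.9586) (by norm_num) (by norm_num) (by norm_num) (by norm_num))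
    (by norm_num) (by norm_num) (by norm_num) (by norm_num) (by norm_num) (by norm_num) (by norm_num) (by norm_num) (by norm_num) (by norm_num) (by norm_num) (by norm_num) (by norm_num) (by norm_num) (by norm_num) (by norm_num) (by norm_num) (by norm_num)
    (exp_neg_leJ (r := 0.836) 9 (by norm_num) (by norm_num) (by norm_num) (by norm_num))
    (exp_neg_leJ (r := 0.668) 7 (by norm_num) (by norm_num) (by norm_num) (by norm_num))
    (exp_neg_leJ (r := 0.99) 14 (by norm_num) (by norm_num) (by norm_num) (by norm_num))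
    (exp_neg_leJ (r := 0.99) 14 (by norm_num) (by norm_num) (by norm_num) (by norm_num))
    (exp_neg_leJ (r := 0.985) 9 (by norm_num) (by norm_num) (by norm_num) (by norm_num))
    (exp_neg_leJ (r := 0.99) 14 (by norm_num) (by norm_num) (by norm_num) (by norm_num))
    (exp_neg_leJ (r := 0.99) 14 (by norm_num) (by norm_num) (by norm_num) (by norm_num))
    (exp_neg_leJ (r := 0.99) 14 (by norm_num) (by norm_num) (by norm_num) (by norm_num))
    (by norm_num)) (by norm_num) hN hβ.le (by norm_num)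

private theorem jo1_b0_2 {β x y : ℝ} (hβ : 0 < β) (hN : β * 24.39 ≤ 1) (hx1 : 0.3147 ≤ x) (hx2 : x ≤ 0.4783)
    (hy1 : -0.154 ≤ y) (hy2 : y ≤ 0.027) : ‖HH β (x + y * I) - 1‖ ≤ 0.02 := by
  refine le_epsJ (C := 0.4292) (N0 := 24.39) (J_boxp 0.3147 0.4783 0.154 0.027 0.027 0.8223 0.5025 1.133 1.4275 0.4247 4.9387 24.39 0.6111 2.22 1.313 1.094 0.4111 0.3273 0.8729 3.3377 0.421 0.9329 1.6656 3.8483 0.00004424 0.0003428 0.0000003101 0.0000003101 0.00003473 0.0000003101 0.0000003101 0.0000003101 0.4292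
    hβ hN hx1 hx2 hy1 hy2 (by norm_num) (by norm_num) (by linarith) (by norm_num) (by norm_num) (by norm_num) (by norm_num) (by norm_num) (by norm_num) (by norm_num) (by norm_num) (by norm_num) (by norm_num) (by norm_num) (by norm_num) (by norm_num) (by norm_num) (by norm_num) (by norm_num) (by norm_num) (by norm_num) (by norm_num) (by norm_num) (by norm_num)
    (cube_sqrt_geJ (s := 0.8923) (by norm_num) (by norm_num) (by norm_num) (by norm_num))
    (cube_sqrt_geJ (s := 0.9618) (by norm_num) (by norm_num) (by norm_num) (by norm_num))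
    (by norm_num) (by norm_num) (by norm_num) (by norm_num) (by norm_num) (by norm_num) (by norm_num) (by norm_num) (by norm_num) (by norm_num) (by norm_num) (by norm_num) (by norm_num) (by norm_num) (by norm_num) (by norm_num) (by norm_num) (by norm_num)
    (exp_neg_leJ (r := 0.026) 10 (by norm_num) (by norm_num) (by norm_num) (by norm_num))
    (exp_neg_leJ (r := 0.982) 7 (by norm_num) (by norm_num) (by norm_num) (by norm_num))
    (exp_neg_leJ (r := 0.99) 14 (by norm_num) (by norm_num) (by norm_num) (by norm_num))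
    (exp_neg_leJ (r := 0.99) 14 (by norm_num) (by norm_num) (by norm_num) (by norm_num))
    (exp_neg_leJ (r := 0.268) 10 (by norm_num) (by norm_num) (by norm_num) (by norm_num))
    (exp_neg_leJ (r := 0.99) 14 (by norm_num) (by norm_num) (by norm_num) (by norm_num))
    (exp_neg_leJ (r := 0.99) 14 (by norm_num) (by norm_num) (by norm_num) (by norm_num))
    (exp_neg_leJ (r := 0.99) 14 (by norm_num) (by norm_num) (by norm_num) (by norm_num))
    (by norm_num)) (by norm_num) hN hβ.le (by norm_num)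

private theorem jo1_c0 {κ t β : ℝ} (h : DomR κ t) (hβ : 0 < β) (hk1 : 0.36 ≤ κ) (hk2 : κ ≤ 0.41)
    (ht1 : -0.5341 ≤ t + κ) (ht2 : t + κ ≤ 0.0786) (hR0 : β * 10 ≤ κ) (hR : β * (3.3 * (1 + κ ^ 2)) ≤ κ) :
    ‖HH β (sg κ t) - 1‖ ≤ 0.02 := by
  have hN : β * 24.39 ≤ 1 := bNR hβ h.1 hk2 hR0 (by norm_num)
  have hy1 : -0.244 ≤ sy κ t := syL_ge h 0.36 0.41 0.5341 0.244 0.78348 0.78349 0.4554 0.46626 0.53104 hk1 hk2 (by linarith) (by norm_num) (by norm_num) (by norm_num)
    (expm_ge (by norm_num) (by norm_num) (by norm_num) (by norm_num)) (expm_le (by norm_num) (by norm_num) (by norm_num)) (by norm_num)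
    (by norm_num) (by norm_num) (by norm_num) (by norm_num) (by norm_num) (by norm_num)
  have hy2 : sy κ t ≤ 0.027 := syR_le h 0.36 0.41 0.0786 0.027 1.02736 0.0652 0.06765 0.07706 hk1 hk2 (by linarith) (by norm_num) (by norm_num)
    (expn_ge (by norm_num) (by norm_num)) (by norm_num) (by norm_num) (Or.inr ((mul_le_mul_of_nonneg_left (expn_le (E := 1.02737) (by norm_num) (by norm_num) (by norm_num)) (by norm_num)).trans (by norm_num))) (by norm_num) (by norm_num) (by norm_num)
  rcases le_total (sy κ t) (-0.219) with f0 | g0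
  · have hx1 : 0.3758 ≤ sx κ t := sx_lo h 0.36 (-0.219) 0.244 1.24483 0.3758 hk1 (by norm_num) f0 (abs_le.2 ⟨by linarith, by linarith⟩) (by rw [neg_neg]; exact expn_ge (by norm_num) (by norm_num)) (by norm_num) (by norm_num)
    have hx2 : sx κ t ≤ 0.4753 := sx_hi h 0.41 (-0.244) 0.219 1.27635 0.4753 hk2 hy1 (by norm_num) (by rw [abs_of_nonpos (by linarith)]; linarith) (by rw [neg_neg]; exact expn_le (by norm_num) (by norm_num) (by norm_num)) (by norm_num) (by norm_num)
    exact jo1_b0_0 hβ hN hx1 hx2 (by linarith) (by linarith)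
  rcases le_total (sy κ t) (-0.154) with f1 | g1
  · have hx1 : 0.3583 ≤ sx κ t := sx_lo h 0.36 (-0.154) 0.219 1.16649 0.3583 hk1 (by norm_num) f1 (abs_le.2 ⟨by linarith, by linarith⟩) (by rw [neg_neg]; exact expn_ge (by norm_num) (by norm_num)) (by norm_num) (by norm_num)
    have hx2 : sx κ t ≤ 0.4866 := sx_hi h 0.41 (-0.219) 0.154 1.24484 0.4866 hk2 g0 (by norm_num) (by rw [abs_of_nonpos (by linarith)]; linarith) (by rw [neg_neg]; exact expn_le (by norm_num) (by norm_num) (by norm_num)) (by norm_num) (by norm_num)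
    exact jo1_b0_1 hβ hN hx1 hx2 (by linarith) (by linarith)
  have hx1 : 0.3147 ≤ sx κ t := sx_lo h 0.36 0.027 0.154 0.97336 0.3147 hk1 (by norm_num) hy2 (abs_le.2 ⟨by linarith, by linarith⟩) (expm_ge (by norm_num) (by norm_num) (by norm_num) (by norm_num)) (by norm_num) (by norm_num)
  have hx2 : sx κ t ≤ 0.4783 := sx_hi h 0.41 (-0.154) 0 1.1665 0.4783 hk2 g1 (by norm_num) (abs_nonneg _) (by rw [neg_neg]; exact expn_le (by norm_num) (by norm_num) (by norm_num)) (by norm_num) (by norm_num)
  exact jo1_b0_2 hβ hN hx1 hx2 (by linarith) (by linarith)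

private theorem jo1_b1_0 {β x y : ℝ} (hβ : 0 < β) (hN : β * 23.809 ≤ 1) (hx1 : 0.4281 ≤ x) (hx2 : x ≤ 0.5044)
    (hy1 : -0.248 ≤ y) (hy2 : y ≤ -0.188) : ‖HH β (x + y * I) - 1‖ ≤ 0.02 := by
  refine le_epsJ (C := 0.472) (N0 := 23.809) (J_boxp 0.4281 0.5044 0.248 0 (-0.188) 0.8354 0.5621 0.956 1.2806 0.3901 4.8795 23.809 0.6729 2.433 1.352 0.9971 0.4176 0.324 0.7633 3.0185 0.4274 1.0927 1.7527 4.0403 0.00004825 0.000447 0.0000003101 0.0000003101 0.00003812 0.0000003101 0.0000003101 0.0000003101 0.472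
    hβ hN hx1 hx2 hy1 hy2 (by norm_num) (by norm_num) (by linarith) (by norm_num) (by norm_num) (by norm_num) (by norm_num) (by norm_num) (by norm_num) (by norm_num) (by norm_num) (by norm_num) (by norm_num) (by norm_num) (by norm_num) (by norm_num) (by norm_num) (by norm_num) (by norm_num) (by norm_num) (by norm_num) (by norm_num) (by norm_num) (by norm_num)
    (cube_sqrt_geJ (s := 0.8807) (by norm_num) (by norm_num) (by norm_num) (by norm_num))
    (cube_sqrt_geJ (s := 0.9579) (by norm_num) (by norm_num) (by norm_num) (by norm_num))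
    (by norm_num) (by norm_num) (by norm_num) (by norm_num) (by norm_num) (by norm_num) (by norm_num) (by norm_num) (by norm_num) (by norm_num) (by norm_num) (by norm_num) (by norm_num) (by norm_num) (by norm_num) (by norm_num) (by norm_num) (by norm_num)
    (exp_neg_leJ (r := 0.942) 9 (by norm_num) (by norm_num) (by norm_num) (by norm_num))
    (exp_neg_leJ (r := 0.714) 7 (by norm_num) (by norm_num) (by norm_num) (by norm_num))
    (exp_neg_leJ (r := 0.99) 14 (by norm_num) (by norm_num) (by norm_num) (by norm_num))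
    (exp_neg_leJ (r := 0.99) 14 (by norm_num) (by norm_num) (by norm_num) (by norm_num))
    (exp_neg_leJ (r := 0.175) 10 (by norm_num) (by norm_num) (by norm_num) (by norm_num))
    (exp_neg_leJ (r := 0.99) 14 (by norm_num) (by norm_num) (by norm_num) (by norm_num))
    (exp_neg_leJ (r := 0.99) 14 (by norm_num) (by norm_num) (by norm_num) (by norm_num))
    (exp_neg_leJ (r := 0.99) 14 (by norm_num) (by norm_num) (by norm_num) (by norm_num))
    (by norm_num)) (by norm_num) hN hβ.le (by norm_num)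

private theorem jo1_b1_1 {β x y : ℝ} (hβ : 0 < β) (hN : β * 23.809 ≤ 1) (hx1 : 0.3643 ≤ x) (hx2 : x ≤ 0.5069)
    (hy1 : -0.188 ≤ y) (hy2 : y ≤ 0) : ‖HH β (x + y * I) - 1‖ ≤ 0.02 := by
  refine le_epsJ (C := 0.4757) (N0 := 23.809) (J_boxp 0.3643 0.5069 0.188 0 0 0.833 0.5407 1.1212 1.3928 0.4225 4.8795 23.809 0.6491 2.348 1.337 1.0516 0.4164 0.3263 0.8362 3.2118 0.4292 1.0044 1.7882 3.9709 0.00004961 0.0004236 0.0000003101 0.0000003101 0.00003651 0.0000003101 0.0000003101 0.0000003101 0.4757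
    hβ hN hx1 hx2 hy1 hy2 (by norm_num) (by norm_num) (by linarith) (by norm_num) (by norm_num) (by norm_num) (by norm_num) (by norm_num) (by norm_num) (by norm_num) (by norm_num) (by norm_num) (by norm_num) (by norm_num) (by norm_num) (by norm_num) (by norm_num) (by norm_num) (by norm_num) (by norm_num) (by norm_num) (by norm_num) (by norm_num) (by norm_num)
    (cube_sqrt_geJ (s := 0.8852) (by norm_num) (by norm_num) (by norm_num) (by norm_num))
    (cube_sqrt_geJ (s := 0.9594) (by norm_num) (by norm_num) (by norm_num) (by norm_num))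
    (by norm_num) (by norm_num) (by norm_num) (by norm_num) (by norm_num) (by norm_num) (by norm_num) (by norm_num) (by norm_num) (by norm_num) (by norm_num) (by norm_num) (by norm_num) (by norm_num) (by norm_num) (by norm_num) (by norm_num) (by norm_num)
    (exp_neg_leJ (r := 0.914) 9 (by norm_num) (by norm_num) (by norm_num) (by norm_num))
    (exp_neg_leJ (r := 0.768) 7 (by norm_num) (by norm_num) (by norm_num) (by norm_num))
    (exp_neg_leJ (r := 0.99) 14 (by norm_num) (by norm_num) (by norm_num) (by norm_num))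
    (exp_neg_leJ (r := 0.99) 14 (by norm_num) (by norm_num) (by norm_num) (by norm_num))
    (exp_neg_leJ (r := 0.218) 10 (by norm_num) (by norm_num) (by norm_num) (by norm_num))
    (exp_neg_leJ (r := 0.99) 14 (by norm_num) (by norm_num) (by norm_num) (by norm_num))
    (exp_neg_leJ (r := 0.99) 14 (by norm_num) (by norm_num) (by norm_num) (by norm_num))
    (exp_neg_leJ (r := 0.99) 14 (by norm_num) (by norm_num) (by norm_num) (by norm_num))
    (by norm_num)) (by norm_num) hN hβ.le (by norm_num)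

private theorem jo1_b1_2 {β x y : ℝ} (hβ : 0 < β) (hN : β * 23.809 ≤ 1) (hx1 : 0.3976 ≤ x) (hx2 : x ≤ 0.4201)
    (hy1 : -0 ≤ y) (hy2 : y ≤ 0.028) : ‖HH β (x + y * I) - 1‖ ≤ 0.02 := by
  refine le_epsJ (C := 0.1588) (N0 := 23.809) (J_boxp 0.3976 0.4201 0 0.028 0.028 0.99 0.4211 1.1106 1.0699 0.4205 4.8795 23.809 0.4254 1.708 1.206 1.2585 0.4949 0.4248 1.1443 3.8609 0.5452 1.0476 2.2458 4.2306 0.000007644 0.00004051 0.0000003101 0.0000003101 0.000002314 0.0000003101 0.0000003101 0.0000003101 0.1588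
    hβ hN hx1 hx2 hy1 hy2 (by norm_num) (by norm_num) (by linarith) (by norm_num) (by norm_num) (by norm_num) (by norm_num) (by norm_num) (by norm_num) (by norm_num) (by norm_num) (by norm_num) (by norm_num) (by norm_num) (by norm_num) (by norm_num) (by norm_num) (by norm_num) (by norm_num) (by norm_num) (by norm_num) (by norm_num) (by norm_num) (by norm_num)
    (cube_sqrt_geJ (s := 0.9263) (by norm_num) (by norm_num) (by norm_num) (by norm_num))
    (cube_sqrt_geJ (s := 0.9736) (by norm_num) (by norm_num) (by norm_num) (by norm_num))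
    (by norm_num) (by norm_num) (by norm_num) (by norm_num) (by norm_num) (by norm_num) (by norm_num) (by norm_num) (by norm_num) (by norm_num) (by norm_num) (by norm_num) (by norm_num) (by norm_num) (by norm_num) (by norm_num) (by norm_num) (by norm_num)
    (exp_neg_leJ (r := 0.783) 11 (by norm_num) (by norm_num) (by norm_num) (by norm_num))
    (exp_neg_leJ (r := 0.114) 10 (by norm_num) (by norm_num) (by norm_num) (by norm_num))
    (exp_neg_leJ (r := 0.99) 14 (by norm_num) (by norm_num) (by norm_num) (by norm_num))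
    (exp_neg_leJ (r := 0.99) 14 (by norm_num) (by norm_num) (by norm_num) (by norm_num))
    (exp_neg_leJ (r := 0.98) 12 (by norm_num) (by norm_num) (by norm_num) (by norm_num))
    (exp_neg_leJ (r := 0.99) 14 (by norm_num) (by norm_num) (by norm_num) (by norm_num))
    (exp_neg_leJ (r := 0.99) 14 (by norm_num) (by norm_num) (by norm_num) (by norm_num))
    (exp_neg_leJ (r := 0.99) 14 (by norm_num) (by norm_num) (by norm_num) (by norm_num))
    (by norm_num)) (by norm_num) hN hβ.le (by norm_num)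

private theorem jo1_c1 {κ t β : ℝ} (h : DomR κ t) (hβ : 0 < β) (hk1 : 0.41 ≤ κ) (hk2 : κ ≤ 0.42)
    (ht1 : -0.5341 ≤ t + κ) (ht2 : t + κ ≤ 0.0786) (hR0 : β * 10 ≤ κ) (hR : β * (3.3 * (1 + κ ^ 2)) ≤ κ) :
    ‖HH β (sg κ t) - 1‖ ≤ 0.02 := by
  have hN : β * 23.809 ≤ 1 := bNR hβ h.1 hk2 hR0 (by norm_num)
  have hy1 : -0.248 ≤ sy κ t := syL_ang2 h 0.41 0.42 0.5341 0.478 0.8879 0.4601 0.248 1.28145 0.78035 hk1 hk2 (by linarith) (by norm_num) (by norm_num) (by norm_num) (by norm_num)
    (cos_ge_num (by norm_num) (by norm_num)) (sin_le_num (by norm_num) (by norm_num))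
    (expn_ge (by norm_num) (by norm_num)) (expm_ge (by norm_num) (by norm_num) (by norm_num) (by norm_num)) (by norm_num) (by norm_num) (by norm_num)
    (by norm_num) (by norm_num) (by norm_num)
  have hy2 : sy κ t ≤ 0.028 := syR_le h 0.41 0.42 0.0786 0.028 1.02839 0.0681 0.06855 0.07024 hk1 hk2 (by linarith) (by norm_num) (by norm_num)
    (expn_ge (by norm_num) (by norm_num)) (by norm_num) (by norm_num) (Or.inr ((mul_le_mul_of_nonneg_left (expn_le (E := 1.0284) (by norm_num) (by norm_num) (by norm_num)) (by norm_num)).trans (by norm_num))) (by norm_num) (by norm_num) (by norm_num)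
  rcases le_total (sy κ t) (-0.188) with f0 | g0
  · have hx1 : 0.4281 ≤ sx κ t := sx_lo h 0.41 (-0.188) 0.248 1.20683 0.4281 hk1 (by norm_num) f0 (abs_le.2 ⟨by linarith, by linarith⟩) (by rw [neg_neg]; exact expn_ge (by norm_num) (by norm_num)) (by norm_num) (by norm_num)
    have hx2 : sx κ t ≤ 0.5044 := sx_hi h 0.42 (-0.248) 0.188 1.28146 0.5044 hk2 hy1 (by norm_num) (by rw [abs_of_nonpos (by linarith)]; linarith) (by rw [neg_neg]; exact expn_le (by norm_num) (by norm_num) (by norm_num)) (by norm_num) (by norm_num)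
    exact jo1_b1_0 hβ hN hx1 hx2 (by linarith) (by linarith)
  rcases le_total (sy κ t) 0 with f1 | g1
  · have hx1 : 0.3643 ≤ sx κ t := sx_lo h 0.41 0 0.188 1 0.3643 hk1 (by norm_num) f1 (abs_le.2 ⟨by linarith, by linarith⟩) (by simp) (by norm_num) (by norm_num)
    have hx2 : sx κ t ≤ 0.5069 := sx_hi h 0.42 (-0.188) 0 1.20684 0.5069 hk2 g0 (by norm_num) (abs_nonneg _) (by rw [neg_neg]; exact expn_le (by norm_num) (by norm_num) (by norm_num)) (by norm_num) (by norm_num)
    exact jo1_b1_1 hβ hN hx1 hx2 (by linarith) (by linarith)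
  have hx1 : 0.3976 ≤ sx κ t := sx_lo h 0.41 0.028 0.028 0.97238 0.3976 hk1 (by norm_num) hy2 (abs_le.2 ⟨by linarith, by linarith⟩) (expm_ge (by norm_num) (by norm_num) (by norm_num) (by norm_num)) (by norm_num) (by norm_num)
  have hx2 : sx κ t ≤ 0.4201 := sx_hi h 0.42 0 0 1 0.4201 hk2 g1 (by norm_num) (abs_nonneg _) (by simp) (by norm_num) (by norm_num)
  exact jo1_b1_2 hβ hN hx1 hx2 (by linarith) (by linarith)

theorem jo1 {κ t β : ℝ} (h : DomR κ t) (hβ : 0 < β) (hk1 : 0.36 ≤ κ) (hk2 : κ ≤ 0.42)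
    (ht1 : -0.5341 ≤ t + κ) (ht2 : t + κ ≤ 0.0786) (hR0 : β * 10 ≤ κ) (hR : β * (3.3 * (1 + κ ^ 2)) ≤ κ) :
    ‖HH β (sg κ t) - 1‖ ≤ 0.02 := by
  rcases le_total κ 0.41 with f0 | g0
  · exact jo1_c0 h hβ hk1 f0 ht1 ht2 hR0 hR
  exact jo1_c1 h hβ g0 hk2 ht1 ht2 hR0 hR

private theorem jo2_b0_0 {β x y : ℝ} (hβ : 0 < β) (hN : β * 21.276 ≤ 1) (hx1 : 0.4064 ≤ x) (hx2 : x ≤ 0.5972)
    (hy1 : -0.27 ≤ y) (hy2 : y ≤ -0.15) : ‖HH β (x + y * I) - 1‖ ≤ 0.04 := by
  refine le_epsJ (C := 0.8397) (N0 := 21.276) (J_boxp 0.4064 0.5972 0.27 0 (-0.15) 0.8045 0.6554 1.0389 1.4126 0.4067 4.6126 21.276 0.8147 3.032 1.445 0.9411 0.4022 0.293 0.7212 2.8957 0.4049 1.0627 1.6495 3.7433 0.0001923 0.001964 0.0000003101 0.0000003101 0.0001817 0.0000003101 0.0000003101 0.0000003101 0.8397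
    hβ hN hx1 hx2 hy1 hy2 (by norm_num) (by norm_num) (by linarith) (by norm_num) (by norm_num) (by norm_num) (by norm_num) (by norm_num) (by norm_num) (by norm_num) (by norm_num) (by norm_num) (by norm_num) (by norm_num) (by norm_num) (by norm_num) (by norm_num) (by norm_num) (by norm_num) (by norm_num) (by norm_num) (by norm_num) (by norm_num) (by norm_num)
    (cube_sqrt_geJ (s := 0.8534) (by norm_num) (by norm_num) (by norm_num) (by norm_num))
    (cube_sqrt_geJ (s := 0.9488) (by norm_num) (by norm_num) (by norm_num) (by norm_num))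
    (by norm_num) (by norm_num) (by norm_num) (by norm_num) (by norm_num) (by norm_num) (by norm_num) (by norm_num) (by norm_num) (by norm_num) (by norm_num) (by norm_num) (by norm_num) (by norm_num) (by norm_num) (by norm_num) (by norm_num) (by norm_num)
    (exp_neg_leJ (r := 0.557) 8 (by norm_num) (by norm_num) (by norm_num) (by norm_num))
    (exp_neg_leJ (r := 0.233) 6 (by norm_num) (by norm_num) (by norm_num) (by norm_num))
    (exp_neg_leJ (r := 0.99) 14 (by norm_num) (by norm_num) (by norm_num) (by norm_num))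
    (exp_neg_leJ (r := 0.99) 14 (by norm_num) (by norm_num) (by norm_num) (by norm_num))
    (exp_neg_leJ (r := 0.614) 8 (by norm_num) (by norm_num) (by norm_num) (by norm_num))
    (exp_neg_leJ (r := 0.99) 14 (by norm_num) (by norm_num) (by norm_num) (by norm_num))
    (exp_neg_leJ (r := 0.99) 14 (by norm_num) (by norm_num) (by norm_num) (by norm_num))
    (exp_neg_leJ (r := 0.99) 14 (by norm_num) (by norm_num) (by norm_num) (by norm_num))
    (by norm_num)) (by norm_num) hN hβ.le (by norm_num)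

private theorem jo2_b0_1 {β x y : ℝ} (hβ : 0 < β) (hN : β * 21.276 ≤ 1) (hx1 : 0.3789 ≤ x) (hx2 : x ≤ 0.5461)
    (hy1 : -0.15 ≤ y) (hy2 : y ≤ 0.03) : ‖HH β (x + y * I) - 1‖ ≤ 0.04 := by
  refine le_epsJ (C := 0.465) (N0 := 21.276) (J_boxp 0.3789 0.5461 0.15 0.03 0.03 0.8703 0.5664 1.1659 1.33 0.4308 4.6126 21.276 0.6509 2.355 1.338 1.0716 0.4351 0.3407 0.9012 3.3121 0.454 1.0215 1.792 3.7888 0.00009545 0.0007117 0.0000003101 0.0000003101 0.00006389 0.0000003101 0.0000003101 0.0000003101 0.465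
    hβ hN hx1 hx2 hy1 hy2 (by norm_num) (by norm_num) (by linarith) (by norm_num) (by norm_num) (by norm_num) (by norm_num) (by norm_num) (by norm_num) (by norm_num) (by norm_num) (by norm_num) (by norm_num) (by norm_num) (by norm_num) (by norm_num) (by norm_num) (by norm_num) (by norm_num) (by norm_num) (by norm_num) (by norm_num) (by norm_num) (by norm_num)
    (cube_sqrt_geJ (s := 0.8848) (by norm_num) (by norm_num) (by norm_num) (by norm_num))
    (cube_sqrt_geJ (s := 0.9593) (by norm_num) (by norm_num) (by norm_num) (by norm_num))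
    (by norm_num) (by norm_num) (by norm_num) (by norm_num) (by norm_num) (by norm_num) (by norm_num) (by norm_num) (by norm_num) (by norm_num) (by norm_num) (by norm_num) (by norm_num) (by norm_num) (by norm_num) (by norm_num) (by norm_num) (by norm_num)
    (exp_neg_leJ (r := 0.257) 9 (by norm_num) (by norm_num) (by norm_num) (by norm_num))
    (exp_neg_leJ (r := 0.248) 7 (by norm_num) (by norm_num) (by norm_num) (by norm_num))
    (exp_neg_leJ (r := 0.99) 14 (by norm_num) (by norm_num) (by norm_num) (by norm_num))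
    (exp_neg_leJ (r := 0.99) 14 (by norm_num) (by norm_num) (by norm_num) (by norm_num))
    (exp_neg_leJ (r := 0.659) 9 (by norm_num) (by norm_num) (by norm_num) (by norm_num))
    (exp_neg_leJ (r := 0.99) 14 (by norm_num) (by norm_num) (by norm_num) (by norm_num))
    (exp_neg_leJ (r := 0.99) 14 (by norm_num) (by norm_num) (by norm_num) (by norm_num))
    (exp_neg_leJ (r := 0.99) 14 (by norm_num) (by norm_num) (by norm_num) (by norm_num))
    (by norm_num)) (by norm_num) hN hβ.le (by norm_num)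

private theorem jo2_c0 {κ t β : ℝ} (h : DomR κ t) (hβ : 0 < β) (hk1 : 0.42 ≤ κ) (hk2 : κ ≤ 0.47)
    (ht1 : -0.5341 ≤ t + κ) (ht2 : t + κ ≤ 0.0786) (hR0 : β * 10 ≤ κ) (hR : β * (3.3 * (1 + κ ^ 2)) ≤ κ) :
    ‖HH β (sg κ t) - 1‖ ≤ 0.04 := by
  have hN : β * 21.276 ≤ 1 := bNR hβ h.1 hk2 hR0 (by norm_num)
  have hy1 : -0.27 ≤ sy κ t := syL_ge h 0.42 0.47 0.5341 0.27 0.76337 0.76338 0.4254 0.43853 0.49075 hk1 hk2 (by linarith) (by norm_num) (by norm_num) (by norm_num)
    (expm_ge (by norm_num) (by norm_num) (by norm_num) (by norm_num)) (expm_le (by norm_num) (by norm_num) (by norm_num)) (by norm_num)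
    (by norm_num) (by norm_num) (by norm_num) (by norm_num) (by norm_num) (by norm_num)
  have hy2 : sy κ t ≤ 0.03 := syR_le h 0.42 0.47 0.0786 0.03 1.03045 0.0638 0.06577 0.07361 hk1 hk2 (by linarith) (by norm_num) (by norm_num)
    (expn_ge (by norm_num) (by norm_num)) (by norm_num) (by norm_num) (Or.inr ((mul_le_mul_of_nonneg_left (expn_le (E := 1.03046) (by norm_num) (by norm_num) (by norm_num)) (by norm_num)).trans (by norm_num))) (by norm_num) (by norm_num) (by norm_num)
  rcases le_total (sy κ t) (-0.15) with f0 | g0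
  · have hx1 : 0.4064 ≤ sx κ t := sx_lo h 0.42 (-0.15) 0.27 1.16183 0.4064 hk1 (by norm_num) f0 (abs_le.2 ⟨by linarith, by linarith⟩) (by rw [neg_neg]; exact expn_ge (by norm_num) (by norm_num)) (by norm_num) (by norm_num)
    have hx2 : sx κ t ≤ 0.5972 := sx_hi h 0.47 (-0.27) 0.15 1.30997 0.5972 hk2 hy1 (by norm_num) (by rw [abs_of_nonpos (by linarith)]; linarith) (by rw [neg_neg]; exact expn_le (by norm_num) (by norm_num) (by norm_num)) (by norm_num) (by norm_num)
    exact jo2_b0_0 hβ hN hx1 hx2 (by linarith) (by linarith)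
  have hx1 : 0.3789 ≤ sx κ t := sx_lo h 0.42 0.03 0.15 0.97044 0.3789 hk1 (by norm_num) hy2 (abs_le.2 ⟨by linarith, by linarith⟩) (expm_ge (by norm_num) (by norm_num) (by norm_num) (by norm_num)) (by norm_num) (by norm_num)
  have hx2 : sx κ t ≤ 0.5461 := sx_hi h 0.47 (-0.15) 0 1.16184 0.5461 hk2 g0 (by norm_num) (abs_nonneg _) (by rw [neg_neg]; exact expn_le (by norm_num) (by norm_num) (by norm_num)) (by norm_num) (by norm_num)
  exact jo2_b0_1 hβ hN hx1 hx2 (by linarith) (by linarith)

private theorem jo2_b1_0 {β x y : ℝ} (hβ : 0 < β) (hN : β * 19.23 ≤ 1) (hx1 : 0.5152 ≤ x) (hx2 : x ≤ 0.6547)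
    (hy1 : -0.287 ≤ y) (hy2 : y ≤ -0.227) : ‖HH β (x + y * I) - 1‖ ≤ 0.04 := by
  refine le_epsJ (C := 0.7621) (N0 := 19.23) (J_boxp 0.5152 0.6547 0.287 0 (-0.227) 0.869 0.7149 1.013 1.2425 0.4016 4.3853 19.23 0.8227 3.071 1.451 0.9033 0.4344 0.3153 0.7316 2.8085 0.4484 1.2133 1.8209 3.7991 0.0002357 0.002328 0.0000007769 0.0000003101 0.0001802 0.0000003101 0.0000003101 0.0000003101 0.7621
    hβ hN hx1 hx2 hy1 hy2 (by norm_num) (by norm_num) (by linarith) (by norm_num) (by norm_num) (by norm_num) (by norm_num) (by norm_num) (by norm_num) (by norm_num) (by norm_num) (by norm_num) (by norm_num) (by norm_num) (by norm_num) (by norm_num) (by norm_num) (by norm_num) (by norm_num) (by norm_num) (by norm_num) (by norm_num) (by norm_num) (by norm_num)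
    (cube_sqrt_geJ (s := 0.8519) (by norm_num) (by norm_num) (by norm_num) (by norm_num))
    (cube_sqrt_geJ (s := 0.9482) (by norm_num) (by norm_num) (by norm_num) (by norm_num))
    (by norm_num) (by norm_num) (by norm_num) (by norm_num) (by norm_num) (by norm_num) (by norm_num) (by norm_num) (by norm_num) (by norm_num) (by norm_num) (by norm_num) (by norm_num) (by norm_num) (by norm_num) (by norm_num) (by norm_num) (by norm_num)
    (exp_neg_leJ (r := 0.353) 8 (by norm_num) (by norm_num) (by norm_num) (by norm_num))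
    (exp_neg_leJ (r := 0.063) 6 (by norm_num) (by norm_num) (by norm_num) (by norm_num))
    (exp_neg_leJ (r := 0.068) 14 (by norm_num) (by norm_num) (by norm_num) (by norm_num))
    (exp_neg_leJ (r := 0.99) 14 (by norm_num) (by norm_num) (by norm_num) (by norm_num))
    (exp_neg_leJ (r := 0.622) 8 (by norm_num) (by norm_num) (by norm_num) (by norm_num))
    (exp_neg_leJ (r := 0.99) 14 (by norm_num) (by norm_num) (by norm_num) (by norm_num))
    (exp_neg_leJ (r := 0.99) 14 (by norm_num) (by norm_num) (by norm_num) (by norm_num))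
    (exp_neg_leJ (r := 0.99) 14 (by norm_num) (by norm_num) (by norm_num) (by norm_num))
    (by norm_num)) (by norm_num) hN hβ.le (by norm_num)

private theorem jo2_b1_1 {β x y : ℝ} (hβ : 0 < β) (hN : β * 19.23 ≤ 1) (hx1 : 0.4455 ≤ x) (hx2 : x ≤ 0.6496)
    (hy1 : -0.227 ≤ y) (hy2 : y ≤ -0.062) : ‖HH β (x + y * I) - 1‖ ≤ 0.04 := by
  refine le_epsJ (C := 0.7627) (N0 := 19.23) (J_boxp 0.4455 0.6496 0.227 0 (-0.062) 0.8625 0.6882 1.141 1.3336 0.4262 4.3853 19.23 0.798 2.952 1.434 0.9607 0.4312 0.3165 0.8024 3.0056 0.4474 1.1168 1.8446 3.7323 0.0002508 0.002275 0.0000003101 0.0000003101 0.0001837 0.0000003101 0.0000003101 0.0000003101 0.7627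
    hβ hN hx1 hx2 hy1 hy2 (by norm_num) (by norm_num) (by linarith) (by norm_num) (by norm_num) (by norm_num) (by norm_num) (by norm_num) (by norm_num) (by norm_num) (by norm_num) (by norm_num) (by norm_num) (by norm_num) (by norm_num) (by norm_num) (by norm_num) (by norm_num) (by norm_num) (by norm_num) (by norm_num) (by norm_num) (by norm_num) (by norm_num)
    (cube_sqrt_geJ (s := 0.8567) (by norm_num) (by norm_num) (by norm_num) (by norm_num))
    (cube_sqrt_geJ (s := 0.9498) (by norm_num) (by norm_num) (by norm_num) (by norm_num))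
    (by norm_num) (by norm_num) (by norm_num) (by norm_num) (by norm_num) (by norm_num) (by norm_num) (by norm_num) (by norm_num) (by norm_num) (by norm_num) (by norm_num) (by norm_num) (by norm_num) (by norm_num) (by norm_num) (by norm_num) (by norm_num)
    (exp_neg_leJ (r := 0.291) 8 (by norm_num) (by norm_num) (by norm_num) (by norm_num))
    (exp_neg_leJ (r := 0.086) 6 (by norm_num) (by norm_num) (by norm_num) (by norm_num))
    (exp_neg_leJ (r := 0.99) 14 (by norm_num) (by norm_num) (by norm_num) (by norm_num))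
    (exp_neg_leJ (r := 0.99) 14 (by norm_num) (by norm_num) (by norm_num) (by norm_num))
    (exp_neg_leJ (r := 0.603) 8 (by norm_num) (by norm_num) (by norm_num) (by norm_num))
    (exp_neg_leJ (r := 0.99) 14 (by norm_num) (by norm_num) (by norm_num) (by norm_num))
    (exp_neg_leJ (r := 0.99) 14 (by norm_num) (by norm_num) (by norm_num) (by norm_num))
    (exp_neg_leJ (r := 0.99) 14 (by norm_num) (by norm_num) (by norm_num) (by norm_num))
    (by norm_num)) (by norm_num) hN hβ.le (by norm_num)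

private theorem jo2_b1_2 {β x y : ℝ} (hβ : 0 < β) (hN : β * 19.23 ≤ 1) (hx1 : 0.4509 ≤ x) (hx2 : x ≤ 0.5533)
    (hy1 : -0.062 ≤ y) (hy2 : y ≤ 0.032) : ‖HH β (x + y * I) - 1‖ ≤ 0.04 := by
  refine le_epsJ (C := 0.2901) (N0 := 19.23) (J_boxp 0.4509 0.5533 0.062 0.032 0.032 0.9835 0.5568 1.171 1.1095 0.4318 4.3853 19.23 0.5662 2.08 1.286 1.15 0.4917 0.3989 1.0647 3.5886 0.5369 1.121 2.1667 3.9495 0.00007831 0.000467 0.0000003101 0.0000003101 0.00003284 0.0000003101 0.0000003101 0.0000003101 0.2901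
    hβ hN hx1 hx2 hy1 hy2 (by norm_num) (by norm_num) (by linarith) (by norm_num) (by norm_num) (by norm_num) (by norm_num) (by norm_num) (by norm_num) (by norm_num) (by norm_num) (by norm_num) (by norm_num) (by norm_num) (by norm_num) (by norm_num) (by norm_num) (by norm_num) (by norm_num) (by norm_num) (by norm_num) (by norm_num) (by norm_num) (by norm_num)
    (cube_sqrt_geJ (s := 0.9007) (by norm_num) (by norm_num) (by norm_num) (by norm_num))
    (cube_sqrt_geJ (s := 0.9647) (by norm_num) (by norm_num) (by norm_num) (by norm_num))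
    (by norm_num) (by norm_num) (by norm_num) (by norm_num) (by norm_num) (by norm_num) (by norm_num) (by norm_num) (by norm_num) (by norm_num) (by norm_num) (by norm_num) (by norm_num) (by norm_num) (by norm_num) (by norm_num) (by norm_num) (by norm_num)
    (exp_neg_leJ (r := 0.455) 9 (by norm_num) (by norm_num) (by norm_num) (by norm_num))
    (exp_neg_leJ (r := 0.67) 7 (by norm_num) (by norm_num) (by norm_num) (by norm_num))
    (exp_neg_leJ (r := 0.99) 14 (by norm_num) (by norm_num) (by norm_num) (by norm_num))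
    (exp_neg_leJ (r := 0.99) 14 (by norm_num) (by norm_num) (by norm_num) (by norm_num))
    (exp_neg_leJ (r := 0.324) 10 (by norm_num) (by norm_num) (by norm_num) (by norm_num))
    (exp_neg_leJ (r := 0.99) 14 (by norm_num) (by norm_num) (by norm_num) (by norm_num))
    (exp_neg_leJ (r := 0.99) 14 (by norm_num) (by norm_num) (by norm_num) (by norm_num))
    (exp_neg_leJ (r := 0.99) 14 (by norm_num) (by norm_num) (by norm_num) (by norm_num))
    (by norm_num)) (by norm_num) hN hβ.le (by norm_num)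

private theorem jo2_c1 {κ t β : ℝ} (h : DomR κ t) (hβ : 0 < β) (hk1 : 0.47 ≤ κ) (hk2 : κ ≤ 0.52)
    (ht1 : -0.5341 ≤ t + κ) (ht2 : t + κ ≤ 0.0786) (hR0 : β * 10 ≤ κ) (hR : β * (3.3 * (1 + κ ^ 2)) ≤ κ) :
    ‖HH β (sg κ t) - 1‖ ≤ 0.04 := by
  have hN : β * 19.23 ≤ 1 := bNR hβ h.1 hk2 hR0 (by norm_num)
  have hy1 : -0.287 ≤ sy κ t := syL_ge h 0.47 0.52 0.5341 0.287 0.75051 0.75052 0.4031 0.41422 0.4583 hk1 hk2 (by linarith) (by norm_num) (by norm_num) (by norm_num)
    (expm_ge (by norm_num) (by norm_num) (by norm_num) (by norm_num)) (expm_le (by norm_num) (by norm_num) (by norm_num)) (by norm_num)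
    (by norm_num) (by norm_num) (by norm_num) (by norm_num) (by norm_num) (by norm_num)
  have hy2 : sy κ t ≤ 0.032 := syR_le h 0.47 0.52 0.0786 0.032 1.03251 0.0618 0.06353 0.0703 hk1 hk2 (by linarith) (by norm_num) (by norm_num)
    (expn_ge (by norm_num) (by norm_num)) (by norm_num) (by norm_num) (Or.inr ((mul_le_mul_of_nonneg_left (expn_le (E := 1.03252) (by norm_num) (by norm_num) (by norm_num)) (by norm_num)).trans (by norm_num))) (by norm_num) (by norm_num) (by norm_num)
  rcases le_total (sy κ t) (-0.227) with f0 | g0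
  · have hx1 : 0.5152 ≤ sx κ t := sx_lo h 0.47 (-0.227) 0.287 1.25482 0.5152 hk1 (by norm_num) f0 (abs_le.2 ⟨by linarith, by linarith⟩) (by rw [neg_neg]; exact expn_ge (by norm_num) (by norm_num)) (by norm_num) (by norm_num)
    have hx2 : sx κ t ≤ 0.6547 := sx_hi h 0.52 (-0.287) 0.227 1.33243 0.6547 hk2 hy1 (by norm_num) (by rw [abs_of_nonpos (by linarith)]; linarith) (by rw [neg_neg]; exact expn_le (by norm_num) (by norm_num) (by norm_num)) (by norm_num) (by norm_num)
    exact jo2_b1_0 hβ hN hx1 hx2 (by linarith) (by linarith)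
  rcases le_total (sy κ t) (-0.062) with f1 | g1
  · have hx1 : 0.4455 ≤ sx κ t := sx_lo h 0.47 (-0.062) 0.227 1.06396 0.4455 hk1 (by norm_num) f1 (abs_le.2 ⟨by linarith, by linarith⟩) (by rw [neg_neg]; exact expn_ge (by norm_num) (by norm_num)) (by norm_num) (by norm_num)
    have hx2 : sx κ t ≤ 0.6496 := sx_hi h 0.52 (-0.227) 0.062 1.25483 0.6496 hk2 g0 (by norm_num) (by rw [abs_of_nonpos (by linarith)]; linarith) (by rw [neg_neg]; exact expn_le (by norm_num) (by norm_num) (by norm_num)) (by norm_num) (by norm_num)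
    exact jo2_b1_1 hβ hN hx1 hx2 (by linarith) (by linarith)
  have hx1 : 0.4509 ≤ sx κ t := sx_lo h 0.47 0.032 0.062 0.9685 0.4509 hk1 (by norm_num) hy2 (abs_le.2 ⟨by linarith, by linarith⟩) (expm_ge (by norm_num) (by norm_num) (by norm_num) (by norm_num)) (by norm_num) (by norm_num)
  have hx2 : sx κ t ≤ 0.5533 := sx_hi h 0.52 (-0.062) 0 1.06397 0.5533 hk2 g1 (by norm_num) (abs_nonneg _) (by rw [neg_neg]; exact expn_le (by norm_num) (by norm_num) (by norm_num)) (by norm_num) (by norm_num)
  exact jo2_b1_2 hβ hN hx1 hx2 (by linarith) (by linarith)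

private theorem jo2_b2_0 {β x y : ℝ} (hβ : 0 < β) (hN : β * 17.543 ≤ 1) (hx1 : 0.6224 ≤ x) (hx2 : x ≤ 0.7139)
    (hy1 : -0.298 ≤ y) (hy2 : y ≤ -0.283) : ‖HH β (x + y * I) - 1‖ ≤ 0.04 := by
  refine le_epsJ (C := 0.6913) (N0 := 17.543) (J_boxp 0.6224 0.7139 0.298 0 (-0.283) 0.9367 0.7737 1.0119 1.1097 0.4014 4.1885 17.543 0.826 3.088 1.453 0.8704 0.4683 0.3393 0.7509 2.7399 0.4945 1.3617 2.0054 3.8537 0.0002706 0.002609 0.000001902 0.0000003101 0.000171 0.0000003101 0.0000003101 0.0000003101 0.6913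
    hβ hN hx1 hx2 hy1 hy2 (by norm_num) (by norm_num) (by linarith) (by norm_num) (by norm_num) (by norm_num) (by norm_num) (by norm_num) (by norm_num) (by norm_num) (by norm_num) (by norm_num) (by norm_num) (by norm_num) (by norm_num) (by norm_num) (by norm_num) (by norm_num) (by norm_num) (by norm_num) (by norm_num) (by norm_num) (by norm_num) (by norm_num)
    (cube_sqrt_geJ (s := 0.8512) (by norm_num) (by norm_num) (by norm_num) (by norm_num))
    (cube_sqrt_geJ (s := 0.948) (by norm_num) (by norm_num) (by norm_num) (by norm_num))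
    (by norm_num) (by norm_num) (by norm_num) (by norm_num) (by norm_num) (by norm_num) (by norm_num) (by norm_num) (by norm_num) (by norm_num) (by norm_num) (by norm_num) (by norm_num) (by norm_num) (by norm_num) (by norm_num) (by norm_num) (by norm_num)
    (exp_neg_leJ (r := 0.215) 8 (by norm_num) (by norm_num) (by norm_num) (by norm_num))
    (exp_neg_leJ (r := 0.952) 5 (by norm_num) (by norm_num) (by norm_num) (by norm_num))
    (exp_neg_leJ (r := 0.173) 13 (by norm_num) (by norm_num) (by norm_num) (by norm_num))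
    (exp_neg_leJ (r := 0.99) 14 (by norm_num) (by norm_num) (by norm_num) (by norm_num))
    (exp_neg_leJ (r := 0.675) 8 (by norm_num) (by norm_num) (by norm_num) (by norm_num))
    (exp_neg_leJ (r := 0.99) 14 (by norm_num) (by norm_num) (by norm_num) (by norm_num))
    (exp_neg_leJ (r := 0.99) 14 (by norm_num) (by norm_num) (by norm_num) (by norm_num))
    (exp_neg_leJ (r := 0.99) 14 (by norm_num) (by norm_num) (by norm_num) (by norm_num))
    (by norm_num)) (by norm_num) hN hβ.le (by norm_num)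

private theorem jo2_b2_1 {β x y : ℝ} (hβ : 0 < β) (hN : β * 17.543 ≤ 1) (hx1 : 0.6032 ≤ x) (hx2 : x ≤ 0.7147)
    (hy1 : -0.283 ≤ y) (hy2 : y ≤ -0.248) : ‖HH β (x + y * I) - 1‖ ≤ 0.04 := by
  refine le_epsJ (C := 0.6983) (N0 := 17.543) (J_boxp 0.6032 0.7147 0.283 0 (-0.248) 0.9338 0.7687 1.0375 1.1288 0.4064 4.1885 17.543 0.8232 3.074 1.451 0.884 0.4668 0.3387 0.768 2.7881 0.4934 1.3351 2.0078 3.8289 0.0002777 0.002637 0.000001409 0.0000003101 0.0001744 0.0000003101 0.0000003101 0.0000003101 0.6983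
    hβ hN hx1 hx2 hy1 hy2 (by norm_num) (by norm_num) (by linarith) (by norm_num) (by norm_num) (by norm_num) (by norm_num) (by norm_num) (by norm_num) (by norm_num) (by norm_num) (by norm_num) (by norm_num) (by norm_num) (by norm_num) (by norm_num) (by norm_num) (by norm_num) (by norm_num) (by norm_num) (by norm_num) (by norm_num) (by norm_num) (by norm_num)
    (cube_sqrt_geJ (s := 0.8518) (by norm_num) (by norm_num) (by norm_num) (by norm_num))
    (cube_sqrt_geJ (s := 0.9482) (by norm_num) (by norm_num) (by norm_num) (by norm_num))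
    (by norm_num) (by norm_num) (by norm_num) (by norm_num) (by norm_num) (by norm_num) (by norm_num) (by norm_num) (by norm_num) (by norm_num) (by norm_num) (by norm_num) (by norm_num) (by norm_num) (by norm_num) (by norm_num) (by norm_num) (by norm_num)
    (exp_neg_leJ (r := 0.189) 8 (by norm_num) (by norm_num) (by norm_num) (by norm_num))
    (exp_neg_leJ (r := 0.941) 5 (by norm_num) (by norm_num) (by norm_num) (by norm_num))
    (exp_neg_leJ (r := 0.473) 13 (by norm_num) (by norm_num) (by norm_num) (by norm_num))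
    (exp_neg_leJ (r := 0.99) 14 (by norm_num) (by norm_num) (by norm_num) (by norm_num))
    (exp_neg_leJ (r := 0.655) 8 (by norm_num) (by norm_num) (by norm_num) (by norm_num))
    (exp_neg_leJ (r := 0.99) 14 (by norm_num) (by norm_num) (by norm_num) (by norm_num))
    (exp_neg_leJ (r := 0.99) 14 (by norm_num) (by norm_num) (by norm_num) (by norm_num))
    (exp_neg_leJ (r := 0.99) 14 (by norm_num) (by norm_num) (by norm_num) (by norm_num))
    (by norm_num)) (by norm_num) hN hβ.le (by norm_num)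

private theorem jo2_b2_2 {β x y : ℝ} (hβ : 0 < β) (hN : β * 17.543 ≤ 1) (hx1 : 0.5629 ≤ x) (hx2 : x ≤ 0.7109)
    (hy1 : -0.248 ≤ y) (hy2 : y ≤ -0.168) : ‖HH β (x + y * I) - 1‖ ≤ 0.04 := by
  refine le_epsJ (C := 0.6938) (N0 := 17.543) (J_boxp 0.5629 0.7109 0.248 0 (-0.168) 0.9303 0.753 1.0944 1.1659 0.4174 4.1885 17.543 0.8095 3.007 1.442 0.9177 0.4651 0.3396 0.8095 2.9033 0.4929 1.2793 2.0223 3.791 0.0002862 0.002596 0.0000006802 0.0000003101 0.000176 0.0000003101 0.0000003101 0.0000003101 0.6938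
    hβ hN hx1 hx2 hy1 hy2 (by norm_num) (by norm_num) (by linarith) (by norm_num) (by norm_num) (by norm_num) (by norm_num) (by norm_num) (by norm_num) (by norm_num) (by norm_num) (by norm_num) (by norm_num) (by norm_num) (by norm_num) (by norm_num) (by norm_num) (by norm_num) (by norm_num) (by norm_num) (by norm_num) (by norm_num) (by norm_num) (by norm_num)
    (cube_sqrt_geJ (s := 0.8544) (by norm_num) (by norm_num) (by norm_num) (by norm_num))
    (cube_sqrt_geJ (s := 0.9491) (by norm_num) (by norm_num) (by norm_num) (by norm_num))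
    (by norm_num) (by norm_num) (by norm_num) (by norm_num) (by norm_num) (by norm_num) (by norm_num) (by norm_num) (by norm_num) (by norm_num) (by norm_num) (by norm_num) (by norm_num) (by norm_num) (by norm_num) (by norm_num) (by norm_num) (by norm_num)
    (exp_neg_leJ (r := 0.159) 8 (by norm_num) (by norm_num) (by norm_num) (by norm_num))
    (exp_neg_leJ (r := 0.957) 5 (by norm_num) (by norm_num) (by norm_num) (by norm_num))
    (exp_neg_leJ (r := 0.201) 14 (by norm_num) (by norm_num) (by norm_num) (by norm_num))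
    (exp_neg_leJ (r := 0.99) 14 (by norm_num) (by norm_num) (by norm_num) (by norm_num))
    (exp_neg_leJ (r := 0.646) 8 (by norm_num) (by norm_num) (by norm_num) (by norm_num))
    (exp_neg_leJ (r := 0.99) 14 (by norm_num) (by norm_num) (by norm_num) (by norm_num))
    (exp_neg_leJ (r := 0.99) 14 (by norm_num) (by norm_num) (by norm_num) (by norm_num))
    (exp_neg_leJ (r := 0.99) 14 (by norm_num) (by norm_num) (by norm_num) (by norm_num))
    (by norm_num)) (by norm_num) hN hβ.le (by norm_num)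

private theorem jo2_b2_3 {β x y : ℝ} (hβ : 0 < β) (hN : β * 17.543 ≤ 1) (hx1 : 0.4742 ≤ x) (hx2 : x ≤ 0.6743)
    (hy1 : -0.168 ≤ y) (hy2 : y ≤ 0.033) : ‖HH β (x + y * I) - 1‖ ≤ 0.04 := by
  refine le_epsJ (C := 0.6278) (N0 := 17.543) (J_boxp 0.4742 0.6743 0.168 0.033 0.033 0.9246 0.695 1.2337 1.2494 0.4432 4.1885 17.543 0.7517 2.745 1.403 1.0056 0.4622 0.3464 0.9054 3.1814 0.4902 1.1532 1.9208 3.6157 0.0003012 0.002298 0.0000003101 0.0000003101 0.0001844 0.0000003101 0.0000003101 0.0000003101 0.6278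
    hβ hN hx1 hx2 hy1 hy2 (by norm_num) (by norm_num) (by linarith) (by norm_num) (by norm_num) (by norm_num) (by norm_num) (by norm_num) (by norm_num) (by norm_num) (by norm_num) (by norm_num) (by norm_num) (by norm_num) (by norm_num) (by norm_num) (by norm_num) (by norm_num) (by norm_num) (by norm_num) (by norm_num) (by norm_num) (by norm_num) (by norm_num)
    (cube_sqrt_geJ (s := 0.8656) (by norm_num) (by norm_num) (by norm_num) (by norm_num))
    (cube_sqrt_geJ (s := 0.9528) (by norm_num) (by norm_num) (by norm_num) (by norm_num))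
    (by norm_num) (by norm_num) (by norm_num) (by norm_num) (by norm_num) (by norm_num) (by norm_num) (by norm_num) (by norm_num) (by norm_num) (by norm_num) (by norm_num) (by norm_num) (by norm_num) (by norm_num) (by norm_num) (by norm_num) (by norm_num)
    (exp_neg_leJ (r := 0.108) 8 (by norm_num) (by norm_num) (by norm_num) (by norm_num))
    (exp_neg_leJ (r := 0.076) 6 (by norm_num) (by norm_num) (by norm_num) (by norm_num))
    (exp_neg_leJ (r := 0.99) 14 (by norm_num) (by norm_num) (by norm_num) (by norm_num))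
    (exp_neg_leJ (r := 0.99) 14 (by norm_num) (by norm_num) (by norm_num) (by norm_num))
    (exp_neg_leJ (r := 0.599) 8 (by norm_num) (by norm_num) (by norm_num) (by norm_num))
    (exp_neg_leJ (r := 0.99) 14 (by norm_num) (by norm_num) (by norm_num) (by norm_num))
    (exp_neg_leJ (r := 0.99) 14 (by norm_num) (by norm_num) (by norm_num) (by norm_num))
    (exp_neg_leJ (r := 0.99) 14 (by norm_num) (by norm_num) (by norm_num) (by norm_num))
    (by norm_num)) (by norm_num) hN hβ.le (by norm_num)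

private theorem jo2_c2 {κ t β : ℝ} (h : DomR κ t) (hβ : 0 < β) (hk1 : 0.52 ≤ κ) (hk2 : κ ≤ 0.57)
    (ht1 : -0.5341 ≤ t + κ) (ht2 : t + κ ≤ 0.0786) (hR0 : β * 10 ≤ κ) (hR : β * (3.3 * (1 + κ ^ 2)) ≤ κ) :
    ‖HH β (sg κ t) - 1‖ ≤ 0.04 := by
  have hN : β * 17.543 ≤ 1 := bNR hβ h.1 hk2 hR0 (by norm_num)
  have hy1 : -0.298 ≤ sy κ t := syL_ge h 0.52 0.57 0.5341 0.298 0.7423 0.74231 0.3787 0.38807 0.42541 hk1 hk2 (by linarith) (by norm_num) (by norm_num) (by norm_num)
    (expm_ge (by norm_num) (by norm_num) (by norm_num) (by norm_num)) (expm_le (by norm_num) (by norm_num) (by norm_num)) (by norm_num)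
    (by norm_num) (by norm_num) (by norm_num) (by norm_num) (by norm_num) (by norm_num)
  have hy2 : sy κ t ≤ 0.033 := syR_le h 0.52 0.57 0.0786 0.033 1.03355 0.0583 0.05983 0.0656 hk1 hk2 (by linarith) (by norm_num) (by norm_num)
    (expn_ge (by norm_num) (by norm_num)) (by norm_num) (by norm_num) (Or.inr ((mul_le_mul_of_nonneg_left (expn_le (E := 1.03356) (by norm_num) (by norm_num) (by norm_num)) (by norm_num)).trans (by norm_num))) (by norm_num) (by norm_num) (by norm_num)
  rcases le_total (sy κ t) (-0.283) with f0 | g0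
  · have hx1 : 0.6224 ≤ sx κ t := sx_lo h 0.52 (-0.283) 0.298 1.3271 0.6224 hk1 (by norm_num) f0 (abs_le.2 ⟨by linarith, by linarith⟩) (by rw [neg_neg]; exact expn_ge (by norm_num) (by norm_num)) (by norm_num) (by norm_num)
    have hx2 : sx κ t ≤ 0.7139 := sx_hi h 0.57 (-0.298) 0.283 1.34717 0.7139 hk2 hy1 (by norm_num) (by rw [abs_of_nonpos (by linarith)]; linarith) (by rw [neg_neg]; exact expn_le (by norm_num) (by norm_num) (by norm_num)) (by norm_num) (by norm_num)
    exact jo2_b2_0 hβ hN hx1 hx2 (by linarith) (by linarith)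
  rcases le_total (sy κ t) (-0.248) with f1 | g1
  · have hx1 : 0.6032 ≤ sx κ t := sx_lo h 0.52 (-0.248) 0.283 1.28145 0.6032 hk1 (by norm_num) f1 (abs_le.2 ⟨by linarith, by linarith⟩) (by rw [neg_neg]; exact expn_ge (by norm_num) (by norm_num)) (by norm_num) (by norm_num)
    have hx2 : sx κ t ≤ 0.7147 := sx_hi h 0.57 (-0.283) 0.248 1.32711 0.7147 hk2 g0 (by norm_num) (by rw [abs_of_nonpos (by linarith)]; linarith) (by rw [neg_neg]; exact expn_le (by norm_num) (by norm_num) (by norm_num)) (by norm_num) (by norm_num)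
    exact jo2_b2_1 hβ hN hx1 hx2 (by linarith) (by linarith)
  rcases le_total (sy κ t) (-0.168) with f2 | g2
  · have hx1 : 0.5629 ≤ sx κ t := sx_lo h 0.52 (-0.168) 0.248 1.18293 0.5629 hk1 (by norm_num) f2 (abs_le.2 ⟨by linarith, by linarith⟩) (by rw [neg_neg]; exact expn_ge (by norm_num) (by norm_num)) (by norm_num) (by norm_num)
    have hx2 : sx κ t ≤ 0.7109 := sx_hi h 0.57 (-0.248) 0.168 1.28146 0.7109 hk2 g1 (by norm_num) (by rw [abs_of_nonpos (by linarith)]; linarith) (by rw [neg_neg]; exact expn_le (by norm_num) (by norm_num) (by norm_num)) (by norm_num) (by norm_num)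
    exact jo2_b2_2 hβ hN hx1 hx2 (by linarith) (by linarith)
  have hx1 : 0.4742 ≤ sx κ t := sx_lo h 0.52 0.033 0.168 0.96753 0.4742 hk1 (by norm_num) hy2 (abs_le.2 ⟨by linarith, by linarith⟩) (expm_ge (by norm_num) (by norm_num) (by norm_num) (by norm_num)) (by norm_num) (by norm_num)
  have hx2 : sx κ t ≤ 0.6743 := sx_hi h 0.57 (-0.168) 0 1.18294 0.6743 hk2 g2 (by norm_num) (abs_nonneg _) (by rw [neg_neg]; exact expn_le (by norm_num) (by norm_num) (by norm_num)) (by norm_num) (by norm_num)
  exact jo2_b2_3 hβ hN hx1 hx2 (by linarith) (by linarith)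

private theorem jo2_b3_0 {β x y : ℝ} (hβ : 0 < β) (hN : β * 16.666 ≤ 1) (hx1 : 0.6972 ≤ x) (hx2 : x ≤ 0.7596)
    (hy1 : -0.303 ≤ y) (hy2 : y ≤ -0.288) : ‖HH β (x + y * I) - 1‖ ≤ 0.04 := by
  refine le_epsJ (C := 0.6561) (N0 := 16.666) (J_boxp 0.6972 0.7596 0.303 0 (-0.288) 0.9858 0.8179 1.0412 1.0426 0.4071 4.0825 16.666 0.8297 3.106 1.455 0.8482 0.4928 0.3565 0.7686 2.6982 0.5281 1.4653 2.1414 3.8832 0.0002712 0.002637 0.000002741 0.0000003101 0.0001508 0.0000003101 0.0000003101 0.0000003101 0.6561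
    hβ hN hx1 hx2 hy1 hy2 (by norm_num) (by norm_num) (by linarith) (by norm_num) (by norm_num) (by norm_num) (by norm_num) (by norm_num) (by norm_num) (by norm_num) (by norm_num) (by norm_num) (by norm_num) (by norm_num) (by norm_num) (by norm_num) (by norm_num) (by norm_num) (by norm_num) (by norm_num) (by norm_num) (by norm_num) (by norm_num) (by norm_num)
    (cube_sqrt_geJ (s := 0.8505) (by norm_num) (by norm_num) (by norm_num) (by norm_num))
    (cube_sqrt_geJ (s := 0.9478) (by norm_num) (by norm_num) (by norm_num) (by norm_num))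
    (by norm_num) (by norm_num) (by norm_num) (by norm_num) (by norm_num) (by norm_num) (by norm_num) (by norm_num) (by norm_num) (by norm_num) (by norm_num) (by norm_num) (by norm_num) (by norm_num) (by norm_num) (by norm_num) (by norm_num) (by norm_num)
    (exp_neg_leJ (r := 0.213) 8 (by norm_num) (by norm_num) (by norm_num) (by norm_num))
    (exp_neg_leJ (r := 0.941) 5 (by norm_num) (by norm_num) (by norm_num) (by norm_num))
    (exp_neg_leJ (r := 0.809) 12 (by norm_num) (by norm_num) (by norm_num) (by norm_num))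
    (exp_neg_leJ (r := 0.99) 14 (by norm_num) (by norm_num) (by norm_num) (by norm_num))
    (exp_neg_leJ (r := 0.801) 8 (by norm_num) (by norm_num) (by norm_num) (by norm_num))
    (exp_neg_leJ (r := 0.99) 14 (by norm_num) (by norm_num) (by norm_num) (by norm_num))
    (exp_neg_leJ (r := 0.99) 14 (by norm_num) (by norm_num) (by norm_num) (by norm_num))
    (exp_neg_leJ (r := 0.99) 14 (by norm_num) (by norm_num) (by norm_num) (by norm_num))
    (by norm_num)) (by norm_num) hN hβ.le (by norm_num)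

private theorem jo2_b3_1 {β x y : ℝ} (hβ : 0 < β) (hN : β * 16.666 ≤ 1) (hx1 : 0.6752 ≤ x) (hx2 : x ≤ 0.7593)
    (hy1 : -0.288 ≤ y) (hy2 : y ≤ -0.253) : ‖HH β (x + y * I) - 1‖ ≤ 0.04 := by
  refine le_epsJ (C := 0.6666) (N0 := 16.666) (J_boxp 0.6752 0.7593 0.288 0 (-0.253) 0.9809 0.8121 1.0652 1.0624 0.4118 4.0825 16.666 0.828 3.098 1.454 0.8622 0.4904 0.355 0.7848 2.7469 0.5256 1.4348 2.1382 3.8549 0.0002822 0.002703 0.000002089 0.0000003101 0.0001573 0.0000003101 0.0000003101 0.0000003101 0.6666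
    hβ hN hx1 hx2 hy1 hy2 (by norm_num) (by norm_num) (by linarith) (by norm_num) (by norm_num) (by norm_num) (by norm_num) (by norm_num) (by norm_num) (by norm_num) (by norm_num) (by norm_num) (by norm_num) (by norm_num) (by norm_num) (by norm_num) (by norm_num) (by norm_num) (by norm_num) (by norm_num) (by norm_num) (by norm_num) (by norm_num) (by norm_num)
    (cube_sqrt_geJ (s := 0.8508) (by norm_num) (by norm_num) (by norm_num) (by norm_num))
    (cube_sqrt_geJ (s := 0.9479) (by norm_num) (by norm_num) (by norm_num) (by norm_num))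
    (by norm_num) (by norm_num) (by norm_num) (by norm_num) (by norm_num) (by norm_num) (by norm_num) (by norm_num) (by norm_num) (by norm_num) (by norm_num) (by norm_num) (by norm_num) (by norm_num) (by norm_num) (by norm_num) (by norm_num) (by norm_num)
    (exp_neg_leJ (r := 0.173) 8 (by norm_num) (by norm_num) (by norm_num) (by norm_num))
    (exp_neg_leJ (r := 0.916) 5 (by norm_num) (by norm_num) (by norm_num) (by norm_num))
    (exp_neg_leJ (r := 0.079) 13 (by norm_num) (by norm_num) (by norm_num) (by norm_num))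
    (exp_neg_leJ (r := 0.99) 14 (by norm_num) (by norm_num) (by norm_num) (by norm_num))
    (exp_neg_leJ (r := 0.759) 8 (by norm_num) (by norm_num) (by norm_num) (by norm_num))
    (exp_neg_leJ (r := 0.99) 14 (by norm_num) (by norm_num) (by norm_num) (by norm_num))
    (exp_neg_leJ (r := 0.99) 14 (by norm_num) (by norm_num) (by norm_num) (by norm_num))
    (exp_neg_leJ (r := 0.99) 14 (by norm_num) (by norm_num) (by norm_num) (by norm_num))
    (by norm_num)) (by norm_num) hN hβ.le (by norm_num)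

private theorem jo2_b3_2 {β x y : ℝ} (hβ : 0 < β) (hN : β * 16.666 ≤ 1) (hx1 : 0.6323 ≤ x) (hx2 : x ≤ 0.752)
    (hy1 : -0.253 ≤ y) (hy2 : y ≤ -0.178) : ‖HH β (x + y * I) - 1‖ ≤ 0.04 := by
  refine le_epsJ (C := 0.6599) (N0 := 16.666) (J_boxp 0.6323 0.752 0.253 0 (-0.178) 0.9756 0.7935 1.1141 1.0954 0.4211 4.0825 16.666 0.8134 3.026 1.444 0.8973 0.4877 0.3555 0.8253 2.864 0.5239 1.3754 2.1475 3.8197 0.0002952 0.002682 0.000001065 0.0000003101 0.0001617 0.0000003101 0.0000003101 0.0000003101 0.6599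
    hβ hN hx1 hx2 hy1 hy2 (by norm_num) (by norm_num) (by linarith) (by norm_num) (by norm_num) (by norm_num) (by norm_num) (by norm_num) (by norm_num) (by norm_num) (by norm_num) (by norm_num) (by norm_num) (by norm_num) (by norm_num) (by norm_num) (by norm_num) (by norm_num) (by norm_num) (by norm_num) (by norm_num) (by norm_num) (by norm_num) (by norm_num)
    (cube_sqrt_geJ (s := 0.8537) (by norm_num) (by norm_num) (by norm_num) (by norm_num))
    (cube_sqrt_geJ (s := 0.9488) (by norm_num) (by norm_num) (by norm_num) (by norm_num))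
    (by norm_num) (by norm_num) (by norm_num) (by norm_num) (by norm_num) (by norm_num) (by norm_num) (by norm_num) (by norm_num) (by norm_num) (by norm_num) (by norm_num) (by norm_num) (by norm_num) (by norm_num) (by norm_num) (by norm_num) (by norm_num)
    (exp_neg_leJ (r := 0.128) 8 (by norm_num) (by norm_num) (by norm_num) (by norm_num))
    (exp_neg_leJ (r := 0.924) 5 (by norm_num) (by norm_num) (by norm_num) (by norm_num))
    (exp_neg_leJ (r := 0.754) 13 (by norm_num) (by norm_num) (by norm_num) (by norm_num))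
    (exp_neg_leJ (r := 0.99) 14 (by norm_num) (by norm_num) (by norm_num) (by norm_num))
    (exp_neg_leJ (r := 0.731) 8 (by norm_num) (by norm_num) (by norm_num) (by norm_num))
    (exp_neg_leJ (r := 0.99) 14 (by norm_num) (by norm_num) (by norm_num) (by norm_num))
    (exp_neg_leJ (r := 0.99) 14 (by norm_num) (by norm_num) (by norm_num) (by norm_num))
    (exp_neg_leJ (r := 0.99) 14 (by norm_num) (by norm_num) (by norm_num) (by norm_num))
    (by norm_num)) (by norm_num) hN hβ.le (by norm_num)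

private theorem jo2_b3_3 {β x y : ℝ} (hβ : 0 < β) (hN : β * 16.666 ≤ 1) (hx1 : 0.5213 ≤ x) (hx2 : x ≤ 0.7169)
    (hy1 : -0.178 ≤ y) (hy2 : y ≤ 0.034) : ‖HH β (x + y * I) - 1‖ ≤ 0.04 := by
  refine le_epsJ (C := 0.6628) (N0 := 16.666) (J_boxp 0.5213 0.7169 0.178 0.034 0.034 0.9507 0.7387 1.2583 1.2102 0.4476 4.0825 16.666 0.7771 2.856 1.42 0.98 0.4753 0.3522 0.9057 3.125 0.5075 1.2183 1.9836 3.5864 0.000364 0.002832 0.0000003101 0.0000003101 0.0002125 0.0000003101 0.0000003101 0.0000003101 0.6628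
    hβ hN hx1 hx2 hy1 hy2 (by norm_num) (by norm_num) (by linarith) (by norm_num) (by norm_num) (by norm_num) (by norm_num) (by norm_num) (by norm_num) (by norm_num) (by norm_num) (by norm_num) (by norm_num) (by norm_num) (by norm_num) (by norm_num) (by norm_num) (by norm_num) (by norm_num) (by norm_num) (by norm_num) (by norm_num) (by norm_num) (by norm_num)
    (cube_sqrt_geJ (s := 0.8607) (by norm_num) (by norm_num) (by norm_num) (by norm_num))
    (cube_sqrt_geJ (s := 0.9512) (by norm_num) (by norm_num) (by norm_num) (by norm_num))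
    (by norm_num) (by norm_num) (by norm_num) (by norm_num) (by norm_num) (by norm_num) (by norm_num) (by norm_num) (by norm_num) (by norm_num) (by norm_num) (by norm_num) (by norm_num) (by norm_num) (by norm_num) (by norm_num) (by norm_num) (by norm_num)
    (exp_neg_leJ (r := 0.921) 7 (by norm_num) (by norm_num) (by norm_num) (by norm_num))
    (exp_neg_leJ (r := 0.869) 5 (by norm_num) (by norm_num) (by norm_num) (by norm_num))
    (exp_neg_leJ (r := 0.99) 14 (by norm_num) (by norm_num) (by norm_num) (by norm_num))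
    (exp_neg_leJ (r := 0.99) 14 (by norm_num) (by norm_num) (by norm_num) (by norm_num))
    (exp_neg_leJ (r := 0.457) 8 (by norm_num) (by norm_num) (by norm_num) (by norm_num))
    (exp_neg_leJ (r := 0.99) 14 (by norm_num) (by norm_num) (by norm_num) (by norm_num))
    (exp_neg_leJ (r := 0.99) 14 (by norm_num) (by norm_num) (by norm_num) (by norm_num))
    (exp_neg_leJ (r := 0.99) 14 (by norm_num) (by norm_num) (by norm_num) (by norm_num))
    (by norm_num)) (by norm_num) hN hβ.le (by norm_num)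

private theorem jo2_c3 {κ t β : ℝ} (h : DomR κ t) (hβ : 0 < β) (hk1 : 0.57 ≤ κ) (hk2 : κ ≤ 0.6)
    (ht1 : -0.5341 ≤ t + κ) (ht2 : t + κ ≤ 0.0786) (hR0 : β * 10 ≤ κ) (hR : β * (3.3 * (1 + κ ^ 2)) ≤ κ) :
    ‖HH β (sg κ t) - 1‖ ≤ 0.04 := by
  have hN : β * 16.666 ≤ 1 := bNR hβ h.1 hk2 hR0 (by norm_num)
  have hy1 : -0.303 ≤ sy κ t := syL_ge h 0.57 0.6 0.5341 0.303 0.73859 0.7386 0.368 0.37298 0.39263 hk1 hk2 (by linarith) (by norm_num) (by norm_num) (by norm_num)
    (expm_ge (by norm_num) (by norm_num) (by norm_num) (by norm_num)) (expm_le (by norm_num) (by norm_num) (by norm_num)) (by norm_num)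
    (by norm_num) (by norm_num) (by norm_num) (by norm_num) (by norm_num) (by norm_num)
  have hy2 : sy κ t ≤ 0.034 := syR_le h 0.57 0.6 0.0786 0.034 1.03458 0.0578 0.05862 0.06172 hk1 hk2 (by linarith) (by norm_num) (by norm_num)
    (expn_ge (by norm_num) (by norm_num)) (by norm_num) (by norm_num) (Or.inr ((mul_le_mul_of_nonneg_left (expn_le (E := 1.03459) (by norm_num) (by norm_num) (by norm_num)) (by norm_num)).trans (by norm_num))) (by norm_num) (by norm_num) (by norm_num)
  rcases le_total (sy κ t) (-0.288) with f0 | g0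
  · have hx1 : 0.6972 ≤ sx κ t := sx_lo h 0.57 (-0.288) 0.303 1.33375 0.6972 hk1 (by norm_num) f0 (abs_le.2 ⟨by linarith, by linarith⟩) (by rw [neg_neg]; exact expn_ge (by norm_num) (by norm_num)) (by norm_num) (by norm_num)
    have hx2 : sx κ t ≤ 0.7596 := sx_hi h 0.6 (-0.303) 0.288 1.35392 0.7596 hk2 hy1 (by norm_num) (by rw [abs_of_nonpos (by linarith)]; linarith) (by rw [neg_neg]; exact expn_le (by norm_num) (by norm_num) (by norm_num)) (by norm_num) (by norm_num)
    exact jo2_b3_0 hβ hN hx1 hx2 (by linarith) (by linarith)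
  rcases le_total (sy κ t) (-0.253) with f1 | g1
  · have hx1 : 0.6752 ≤ sx κ t := sx_lo h 0.57 (-0.253) 0.288 1.28788 0.6752 hk1 (by norm_num) f1 (abs_le.2 ⟨by linarith, by linarith⟩) (by rw [neg_neg]; exact expn_ge (by norm_num) (by norm_num)) (by norm_num) (by norm_num)
    have hx2 : sx κ t ≤ 0.7593 := sx_hi h 0.6 (-0.288) 0.253 1.33376 0.7593 hk2 g0 (by norm_num) (by rw [abs_of_nonpos (by linarith)]; linarith) (by rw [neg_neg]; exact expn_le (by norm_num) (by norm_num) (by norm_num)) (by norm_num) (by norm_num)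
    exact jo2_b3_1 hβ hN hx1 hx2 (by linarith) (by linarith)
  rcases le_total (sy κ t) (-0.178) with f2 | g2
  · have hx1 : 0.6323 ≤ sx κ t := sx_lo h 0.57 (-0.178) 0.253 1.19482 0.6323 hk1 (by norm_num) f2 (abs_le.2 ⟨by linarith, by linarith⟩) (by rw [neg_neg]; exact expn_ge (by norm_num) (by norm_num)) (by norm_num) (by norm_num)
    have hx2 : sx κ t ≤ 0.752 := sx_hi h 0.6 (-0.253) 0.178 1.28789 0.752 hk2 g1 (by norm_num) (by rw [abs_of_nonpos (by linarith)]; linarith) (by rw [neg_neg]; exact expn_le (by norm_num) (by norm_num) (by norm_num)) (by norm_num) (by norm_num)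
    exact jo2_b3_2 hβ hN hx1 hx2 (by linarith) (by linarith)
  have hx1 : 0.5213 ≤ sx κ t := sx_lo h 0.57 0.034 0.178 0.96657 0.5213 hk1 (by norm_num) hy2 (abs_le.2 ⟨by linarith, by linarith⟩) (expm_ge (by norm_num) (by norm_num) (by norm_num) (by norm_num)) (by norm_num) (by norm_num)
  have hx2 : sx κ t ≤ 0.7169 := sx_hi h 0.6 (-0.178) 0 1.19483 0.7169 hk2 g2 (by norm_num) (abs_nonneg _) (by rw [neg_neg]; exact expn_le (by norm_num) (by norm_num) (by norm_num)) (by norm_num) (by norm_num)
  exact jo2_b3_3 hβ hN hx1 hx2 (by linarith) (by linarith)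

theorem jo2 {κ t β : ℝ} (h : DomR κ t) (hβ : 0 < β) (hk1 : 0.42 ≤ κ) (hk2 : κ ≤ 0.6)
    (ht1 : -0.5341 ≤ t + κ) (ht2 : t + κ ≤ 0.0786) (hR0 : β * 10 ≤ κ) (hR : β * (3.3 * (1 + κ ^ 2)) ≤ κ) :
    ‖HH β (sg κ t) - 1‖ ≤ 0.04 := by
  rcases le_total κ 0.47 with f0 | g0
  · exact jo2_c0 h hβ hk1 f0 ht1 ht2 hR0 hR
  rcases le_total κ 0.52 with f1 | g1
  · exact jo2_c1 h hβ g0 f1 ht1 ht2 hR0 hR
  rcases le_total κ 0.57 with f2 | g2
  · exact jo2_c2 h hβ g1 f2 ht1 ht2 hR0 hR
  exact jo2_c3 h hβ g2 hk2 ht1 ht2 hR0 hR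

private theorem jo3_b0_0 {β x y : ℝ} (hβ : 0 < β) (hN : β * 14.285 ≤ 1) (hx1 : 0.7447 ≤ x) (hx2 : x ≤ 0.9091)
    (hy1 : -0.312 ≤ y) (hy2 : y ≤ -0.297) : ‖HH β (x + y * I) - 1‖ ≤ 0.07 := by
  refine le_epsJ (C := 0.9817) (N0 := 14.285) (J_boxp 0.7447 0.9091 0.312 0 (-0.297) 1.0128 0.9612 1.1493 1.0518 0.4277 3.7796 14.285 0.9491 3.786 1.541 0.7824 0.5063 0.3461 0.7707 2.5852 0.5462 1.5311 2.2119 3.5886 0.0007231 0.007147 0.00001656 0.0000003101 0.0004096 0.0000003101 0.0000003101 0.0000003101 0.9817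
    hβ hN hx1 hx2 hy1 hy2 (by norm_num) (by norm_num) (by linarith) (by norm_num) (by norm_num) (by norm_num) (by norm_num) (by norm_num) (by norm_num) (by norm_num) (by norm_num) (by norm_num) (by norm_num) (by norm_num) (by norm_num) (by norm_num) (by norm_num) (by norm_num) (by norm_num) (by norm_num) (by norm_num) (by norm_num) (by norm_num) (by norm_num)
    (cube_sqrt_geJ (s := 0.8268) (by norm_num) (by norm_num) (by norm_num) (by norm_num))
    (cube_sqrt_geJ (s := 0.9401) (by norm_num) (by norm_num) (by norm_num) (by norm_num))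
    (by norm_num) (by norm_num) (by norm_num) (by norm_num) (by norm_num) (by norm_num) (by norm_num) (by norm_num) (by norm_num) (by norm_num) (by norm_num) (by norm_num) (by norm_num) (by norm_num) (by norm_num) (by norm_num) (by norm_num) (by norm_num)
    (exp_neg_leJ (r := 0.232) 7 (by norm_num) (by norm_num) (by norm_num) (by norm_num))
    (exp_neg_leJ (r := 0.944) 4 (by norm_num) (by norm_num) (by norm_num) (by norm_num))
    (exp_neg_leJ (r := 0.009) 11 (by norm_num) (by norm_num) (by norm_num) (by norm_num))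
    (exp_neg_leJ (r := 0.99) 14 (by norm_num) (by norm_num) (by norm_num) (by norm_num))
    (exp_neg_leJ (r := 0.802) 7 (by norm_num) (by norm_num) (by norm_num) (by norm_num))
    (exp_neg_leJ (r := 0.99) 14 (by norm_num) (by norm_num) (by norm_num) (by norm_num))
    (exp_neg_leJ (r := 0.99) 14 (by norm_num) (by norm_num) (by norm_num) (by norm_num))
    (exp_neg_leJ (r := 0.99) 14 (by norm_num) (by norm_num) (by norm_num) (by norm_num))
    (by norm_num)) (by norm_num) hN hβ.le (by norm_num)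

private theorem jo3_b0_1 {β x y : ℝ} (hβ : 0 < β) (hN : β * 14.285 ≤ 1) (hx1 : 0.7209 ≤ x) (hx2 : x ≤ 0.905)
    (hy1 : -0.297 ≤ y) (hy2 : y ≤ -0.262) : ‖HH β (x + y * I) - 1‖ ≤ 0.07 := by
  refine le_epsJ (C := 0.9934) (N0 := 14.285) (J_boxp 0.7209 0.905 0.297 0 (-0.262) 1.0067 0.9525 1.1678 1.0699 0.4312 3.7796 14.285 0.9462 3.767 1.539 0.7978 0.5033 0.3445 0.7862 2.6359 0.5429 1.4981 2.2051 3.5647 0.0007549 0.007311 0.00001328 0.0000003101 0.0004291 0.0000003101 0.0000003101 0.0000003101 0.9934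
    hβ hN hx1 hx2 hy1 hy2 (by norm_num) (by norm_num) (by linarith) (by norm_num) (by norm_num) (by norm_num) (by norm_num) (by norm_num) (by norm_num) (by norm_num) (by norm_num) (by norm_num) (by norm_num) (by norm_num) (by norm_num) (by norm_num) (by norm_num) (by norm_num) (by norm_num) (by norm_num) (by norm_num) (by norm_num) (by norm_num) (by norm_num)
    (cube_sqrt_geJ (s := 0.8274) (by norm_num) (by norm_num) (by norm_num) (by norm_num))
    (cube_sqrt_geJ (s := 0.9402) (by norm_num) (by norm_num) (by norm_num) (by norm_num))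
    (by norm_num) (by norm_num) (by norm_num) (by norm_num) (by norm_num) (by norm_num) (by norm_num) (by norm_num) (by norm_num) (by norm_num) (by norm_num) (by norm_num) (by norm_num) (by norm_num) (by norm_num) (by norm_num) (by norm_num) (by norm_num)
    (exp_neg_leJ (r := 0.189) 7 (by norm_num) (by norm_num) (by norm_num) (by norm_num))
    (exp_neg_leJ (r := 0.921) 4 (by norm_num) (by norm_num) (by norm_num) (by norm_num))
    (exp_neg_leJ (r := 0.23) 11 (by norm_num) (by norm_num) (by norm_num) (by norm_num))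
    (exp_neg_leJ (r := 0.99) 14 (by norm_num) (by norm_num) (by norm_num) (by norm_num))
    (exp_neg_leJ (r := 0.755) 7 (by norm_num) (by norm_num) (by norm_num) (by norm_num))
    (exp_neg_leJ (r := 0.99) 14 (by norm_num) (by norm_num) (by norm_num) (by norm_num))
    (exp_neg_leJ (r := 0.99) 14 (by norm_num) (by norm_num) (by norm_num) (by norm_num))
    (exp_neg_leJ (r := 0.99) 14 (by norm_num) (by norm_num) (by norm_num) (by norm_num))
    (by norm_num)) (by norm_num) hN hβ.le (by norm_num)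

private theorem jo3_b0_2 {β x y : ℝ} (hβ : 0 < β) (hN : β * 14.285 ≤ 1) (hx1 : 0.6703 ≤ x) (hx2 : x ≤ 0.8913)
    (hy1 : -0.262 ≤ y) (hy2 : y ≤ -0.182) : ‖HH β (x + y * I) - 1‖ ≤ 0.07 := by
  refine le_epsJ (C := 0.9953) (N0 := 14.285) (J_boxp 0.6703 0.8913 0.262 0 (-0.182) 0.996 0.9291 1.2098 1.1066 0.4389 3.7796 14.285 0.9329 3.683 1.529 0.8354 0.4979 0.3431 0.8241 2.7562 0.5374 1.4281 2.1991 3.5271 0.0008153 0.007457 0.000007728 0.0000003101 0.0004642 0.0000003101 0.0000003101 0.0000003101 0.9953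
    hβ hN hx1 hx2 hy1 hy2 (by norm_num) (by norm_num) (by linarith) (by norm_num) (by norm_num) (by norm_num) (by norm_num) (by norm_num) (by norm_num) (by norm_num) (by norm_num) (by norm_num) (by norm_num) (by norm_num) (by norm_num) (by norm_num) (by norm_num) (by norm_num) (by norm_num) (by norm_num) (by norm_num) (by norm_num) (by norm_num) (by norm_num)
    (cube_sqrt_geJ (s := 0.83) (by norm_num) (by norm_num) (by norm_num) (by norm_num))
    (cube_sqrt_geJ (s := 0.9411) (by norm_num) (by norm_num) (by norm_num) (by norm_num))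
    (by norm_num) (by norm_num) (by norm_num) (by norm_num) (by norm_num) (by norm_num) (by norm_num) (by norm_num) (by norm_num) (by norm_num) (by norm_num) (by norm_num) (by norm_num) (by norm_num) (by norm_num) (by norm_num) (by norm_num) (by norm_num)
    (exp_neg_leJ (r := 0.112) 7 (by norm_num) (by norm_num) (by norm_num) (by norm_num))
    (exp_neg_leJ (r := 0.901) 4 (by norm_num) (by norm_num) (by norm_num) (by norm_num))
    (exp_neg_leJ (r := 0.772) 11 (by norm_num) (by norm_num) (by norm_num) (by norm_num))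
    (exp_neg_leJ (r := 0.99) 14 (by norm_num) (by norm_num) (by norm_num) (by norm_num))
    (exp_neg_leJ (r := 0.676) 7 (by norm_num) (by norm_num) (by norm_num) (by norm_num))
    (exp_neg_leJ (r := 0.99) 14 (by norm_num) (by norm_num) (by norm_num) (by norm_num))
    (exp_neg_leJ (r := 0.99) 14 (by norm_num) (by norm_num) (by norm_num) (by norm_num))
    (exp_neg_leJ (r := 0.99) 14 (by norm_num) (by norm_num) (by norm_num) (by norm_num))
    (by norm_num)) (by norm_num) hN hβ.le (by norm_num)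

private theorem jo3_b0_3 {β x y : ℝ} (hβ : 0 < β) (hN : β * 14.285 ≤ 1) (hx1 : 0.5494 ≤ x) (hx2 : x ≤ 0.8398)
    (hy1 : -0.182 ≤ y) (hy2 : y ≤ 0.036) : ‖HH β (x + y * I) - 1‖ ≤ 0.07 := by
  refine le_epsJ (C := 0.9792) (N0 := 14.285) (J_boxp 0.5494 0.8398 0.182 0.036 0.036 0.9676 0.8593 1.3337 1.2134 0.4608 3.7796 14.285 0.8881 3.417 1.497 0.9291 0.4837 0.3405 0.909 3.0421 0.5187 1.257 2.0203 3.3054 0.001002 0.007735 0.000002303 0.0000003101 0.0006059 0.0000003101 0.0000003101 0.0000003101 0.9792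
    hβ hN hx1 hx2 hy1 hy2 (by norm_num) (by norm_num) (by linarith) (by norm_num) (by norm_num) (by norm_num) (by norm_num) (by norm_num) (by norm_num) (by norm_num) (by norm_num) (by norm_num) (by norm_num) (by norm_num) (by norm_num) (by norm_num) (by norm_num) (by norm_num) (by norm_num) (by norm_num) (by norm_num) (by norm_num) (by norm_num) (by norm_num)
    (cube_sqrt_geJ (s := 0.839) (by norm_num) (by norm_num) (by norm_num) (by norm_num))
    (cube_sqrt_geJ (s := 0.944) (by norm_num) (by norm_num) (by norm_num) (by norm_num))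
    (by norm_num) (by norm_num) (by norm_num) (by norm_num) (by norm_num) (by norm_num) (by norm_num) (by norm_num) (by norm_num) (by norm_num) (by norm_num) (by norm_num) (by norm_num) (by norm_num) (by norm_num) (by norm_num) (by norm_num) (by norm_num)
    (exp_neg_leJ (r := 0.909) 6 (by norm_num) (by norm_num) (by norm_num) (by norm_num))
    (exp_neg_leJ (r := 0.864) 4 (by norm_num) (by norm_num) (by norm_num) (by norm_num))
    (exp_neg_leJ (r := 0.985) 12 (by norm_num) (by norm_num) (by norm_num) (by norm_num))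
    (exp_neg_leJ (r := 0.99) 14 (by norm_num) (by norm_num) (by norm_num) (by norm_num))
    (exp_neg_leJ (r := 0.409) 7 (by norm_num) (by norm_num) (by norm_num) (by norm_num))
    (exp_neg_leJ (r := 0.99) 14 (by norm_num) (by norm_num) (by norm_num) (by norm_num))
    (exp_neg_leJ (r := 0.99) 14 (by norm_num) (by norm_num) (by norm_num) (by norm_num))
    (exp_neg_leJ (r := 0.99) 14 (by norm_num) (by norm_num) (by norm_num) (by norm_num))
    (by norm_num)) (by norm_num) hN hβ.le (by norm_num)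

private theorem jo3_c0 {κ t β : ℝ} (h : DomR κ t) (hβ : 0 < β) (hk1 : 0.6 ≤ κ) (hk2 : κ ≤ 0.7)
    (ht1 : -0.5341 ≤ t + κ) (ht2 : t + κ ≤ 0.0786) (hR0 : β * 10 ≤ κ) (hR : β * (3.3 * (1 + κ ^ 2)) ≤ κ) :
    ‖HH β (sg κ t) - 1‖ ≤ 0.07 := by
  have hN : β * 14.285 ≤ 1 := bNR hβ h.1 hk2 hR0 (by norm_num)
  have hy1 : -0.312 ≤ sy κ t := syL_ge h 0.6 0.7 0.5341 0.312 0.73198 0.73199 0.3126 0.32625 0.38064 hk1 hk2 (by linarith) (by norm_num) (by norm_num) (by norm_num)
    (expm_ge (by norm_num) (by norm_num) (by norm_num) (by norm_num)) (expm_le (by norm_num) (by norm_num) (by norm_num)) (by norm_num)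
    (by norm_num) (by norm_num) (by norm_num) (by norm_num) (by norm_num) (by norm_num)
  have hy2 : sy κ t ≤ 0.036 := syR_le h 0.6 0.7 0.0786 0.036 1.03665 0.051 0.05331 0.0622 hk1 hk2 (by linarith) (by norm_num) (by norm_num)
    (expn_ge (by norm_num) (by norm_num)) (by norm_num) (by norm_num) (Or.inr ((mul_le_mul_of_nonneg_left (expn_le (E := 1.03666) (by norm_num) (by norm_num) (by norm_num)) (by norm_num)).trans (by norm_num))) (by norm_num) (by norm_num) (by norm_num)
  rcases le_total (sy κ t) (-0.297) with f0 | g0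
  · have hx1 : 0.7447 ≤ sx κ t := sx_lo h 0.6 (-0.297) 0.312 1.34581 0.7447 hk1 (by norm_num) f0 (abs_le.2 ⟨by linarith, by linarith⟩) (by rw [neg_neg]; exact expn_ge (by norm_num) (by norm_num)) (by norm_num) (by norm_num)
    have hx2 : sx κ t ≤ 0.9091 := sx_hi h 0.7 (-0.312) 0.297 1.36616 0.9091 hk2 hy1 (by norm_num) (by rw [abs_of_nonpos (by linarith)]; linarith) (by rw [neg_neg]; exact expn_le (by norm_num) (by norm_num) (by norm_num)) (by norm_num) (by norm_num)
    exact jo3_b0_0 hβ hN hx1 hx2 (by linarith) (by linarith)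
  rcases le_total (sy κ t) (-0.262) with f1 | g1
  · have hx1 : 0.7209 ≤ sx κ t := sx_lo h 0.6 (-0.262) 0.297 1.29952 0.7209 hk1 (by norm_num) f1 (abs_le.2 ⟨by linarith, by linarith⟩) (by rw [neg_neg]; exact expn_ge (by norm_num) (by norm_num)) (by norm_num) (by norm_num)
    have hx2 : sx κ t ≤ 0.905 := sx_hi h 0.7 (-0.297) 0.262 1.34582 0.905 hk2 g0 (by norm_num) (by rw [abs_of_nonpos (by linarith)]; linarith) (by rw [neg_neg]; exact expn_le (by norm_num) (by norm_num) (by norm_num)) (by norm_num) (by norm_num)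
    exact jo3_b0_1 hβ hN hx1 hx2 (by linarith) (by linarith)
  rcases le_total (sy κ t) (-0.182) with f2 | g2
  · have hx1 : 0.6703 ≤ sx κ t := sx_lo h 0.6 (-0.182) 0.262 1.19961 0.6703 hk1 (by norm_num) f2 (abs_le.2 ⟨by linarith, by linarith⟩) (by rw [neg_neg]; exact expn_ge (by norm_num) (by norm_num)) (by norm_num) (by norm_num)
    have hx2 : sx κ t ≤ 0.8913 := sx_hi h 0.7 (-0.262) 0.182 1.29953 0.8913 hk2 g1 (by norm_num) (by rw [abs_of_nonpos (by linarith)]; linarith) (by rw [neg_neg]; exact expn_le (by norm_num) (by norm_num) (by norm_num)) (by norm_num) (by norm_num)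
    exact jo3_b0_2 hβ hN hx1 hx2 (by linarith) (by linarith)
  have hx1 : 0.5494 ≤ sx κ t := sx_lo h 0.6 0.036 0.182 0.96464 0.5494 hk1 (by norm_num) hy2 (abs_le.2 ⟨by linarith, by linarith⟩) (expm_ge (by norm_num) (by norm_num) (by norm_num) (by norm_num)) (by norm_num) (by norm_num)
  have hx2 : sx κ t ≤ 0.8398 := sx_hi h 0.7 (-0.182) 0 1.19962 0.8398 hk2 g2 (by norm_num) (abs_nonneg _) (by rw [neg_neg]; exact expn_le (by norm_num) (by norm_num) (by norm_num)) (by norm_num) (by norm_num)
  exact jo3_b0_3 hβ hN hx1 hx2 (by linarith) (by linarith)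

private theorem jo3_b1_0 {β x y : ℝ} (hβ : 0 < β) (hN : β * 13.333 ≤ 1) (hx1 : 0.8544 ≤ x) (hx2 : x ≤ 0.9906)
    (hy1 : -0.312 ≤ y) (hy2 : y ≤ -0.262) : ‖HH β (x + y * I) - 1‖ ≤ 0.07 := by
  refine le_epsJ (C := 0.9183) (N0 := 13.333) (J_boxp 0.8544 0.9906 0.312 0 (-0.262) 1.0901 1.0386 1.2353 0.9766 0.4435 3.6515 13.333 0.9528 3.81 1.544 0.7511 0.545 0.3719 0.8082 2.5392 0.5995 1.683 2.4313 3.5976 0.000699 0.007049 0.00002095 0.0000003101 0.0003401 0.0000003101 0.0000003101 0.0000003101 0.9183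
    hβ hN hx1 hx2 hy1 hy2 (by norm_num) (by norm_num) (by linarith) (by norm_num) (by norm_num) (by norm_num) (by norm_num) (by norm_num) (by norm_num) (by norm_num) (by norm_num) (by norm_num) (by norm_num) (by norm_num) (by norm_num) (by norm_num) (by norm_num) (by norm_num) (by norm_num) (by norm_num) (by norm_num) (by norm_num) (by norm_num) (by norm_num)
    (cube_sqrt_geJ (s := 0.826) (by norm_num) (by norm_num) (by norm_num) (by norm_num))
    (cube_sqrt_geJ (s := 0.9398) (by norm_num) (by norm_num) (by norm_num) (by norm_num))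
    (by norm_num) (by norm_num) (by norm_num) (by norm_num) (by norm_num) (by norm_num) (by norm_num) (by norm_num) (by norm_num) (by norm_num) (by norm_num) (by norm_num) (by norm_num) (by norm_num) (by norm_num) (by norm_num) (by norm_num) (by norm_num)
    (exp_neg_leJ (r := 0.266) 7 (by norm_num) (by norm_num) (by norm_num) (by norm_num))
    (exp_neg_leJ (r := 0.958) 4 (by norm_num) (by norm_num) (by norm_num) (by norm_num))
    (exp_neg_leJ (r := 0.775) 10 (by norm_num) (by norm_num) (by norm_num) (by norm_num))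
    (exp_neg_leJ (r := 0.99) 14 (by norm_num) (by norm_num) (by norm_num) (by norm_num))
    (exp_neg_leJ (r := 0.99) 7 (by norm_num) (by norm_num) (by norm_num) (by norm_num))
    (exp_neg_leJ (r := 0.99) 14 (by norm_num) (by norm_num) (by norm_num) (by norm_num))
    (exp_neg_leJ (r := 0.99) 14 (by norm_num) (by norm_num) (by norm_num) (by norm_num))
    (exp_neg_leJ (r := 0.99) 14 (by norm_num) (by norm_num) (by norm_num) (by norm_num))
    (by norm_num)) (by norm_num) hN hβ.le (by norm_num)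

private theorem jo3_b1_1 {β x y : ℝ} (hβ : 0 < β) (hN : β * 13.333 ≤ 1) (hx1 : 0.7716 ≤ x) (hx2 : x ≤ 0.9628)
    (hy1 : -0.262 ≤ y) (hy2 : y ≤ -0.152) : ‖HH β (x + y * I) - 1‖ ≤ 0.07 := by
  refine le_epsJ (C := 0.9285) (N0 := 13.333) (J_boxp 0.7716 0.9628 0.262 0 (-0.152) 1.0673 0.9979 1.283 1.0273 0.4519 3.6515 13.333 0.935 3.697 1.531 0.8079 0.5336 0.3673 0.8588 2.7156 0.5866 1.5683 2.4017 3.5427 0.0008137 0.007487 0.00001066 0.0000003101 0.0004019 0.0000003101 0.0000003101 0.0000003101 0.9285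
    hβ hN hx1 hx2 hy1 hy2 (by norm_num) (by norm_num) (by linarith) (by norm_num) (by norm_num) (by norm_num) (by norm_num) (by norm_num) (by norm_num) (by norm_num) (by norm_num) (by norm_num) (by norm_num) (by norm_num) (by norm_num) (by norm_num) (by norm_num) (by norm_num) (by norm_num) (by norm_num) (by norm_num) (by norm_num) (by norm_num) (by norm_num)
    (cube_sqrt_geJ (s := 0.8296) (by norm_num) (by norm_num) (by norm_num) (by norm_num))
    (cube_sqrt_geJ (s := 0.941) (by norm_num) (by norm_num) (by norm_num) (by norm_num))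
    (by norm_num) (by norm_num) (by norm_num) (by norm_num) (by norm_num) (by norm_num) (by norm_num) (by norm_num) (by norm_num) (by norm_num) (by norm_num) (by norm_num) (by norm_num) (by norm_num) (by norm_num) (by norm_num) (by norm_num) (by norm_num)
    (exp_neg_leJ (r := 0.114) 7 (by norm_num) (by norm_num) (by norm_num) (by norm_num))
    (exp_neg_leJ (r := 0.897) 4 (by norm_num) (by norm_num) (by norm_num) (by norm_num))
    (exp_neg_leJ (r := 0.45) 11 (by norm_num) (by norm_num) (by norm_num) (by norm_num))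
    (exp_neg_leJ (r := 0.99) 14 (by norm_num) (by norm_num) (by norm_num) (by norm_num))
    (exp_neg_leJ (r := 0.821) 7 (by norm_num) (by norm_num) (by norm_num) (by norm_num))
    (exp_neg_leJ (r := 0.99) 14 (by norm_num) (by norm_num) (by norm_num) (by norm_num))
    (exp_neg_leJ (r := 0.99) 14 (by norm_num) (by norm_num) (by norm_num) (by norm_num))
    (exp_neg_leJ (r := 0.99) 14 (by norm_num) (by norm_num) (by norm_num) (by norm_num))
    (by norm_num)) (by norm_num) hN hβ.le (by norm_num)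

private theorem jo3_b1_2 {β x y : ℝ} (hβ : 0 < β) (hN : β * 13.333 ≤ 1) (hx1 : 0.6572 ≤ x) (hx2 : x ≤ 0.8732)
    (hy1 : -0.152 ≤ y) (hy2 : y ≤ 0.037) : ‖HH β (x + y * I) - 1‖ ≤ 0.07 := by
  refine le_epsJ (C := 0.7193) (N0 := 13.333) (J_boxp 0.6572 0.8732 0.152 0.037 0.037 1.0648 0.8864 1.3557 1.0597 0.4646 3.6515 13.333 0.8325 3.12 1.457 0.9439 0.5323 0.3846 0.9933 3.1186 0.5874 1.4061 2.3132 3.4426 0.0008276 0.005935 0.000001773 0.0000003101 0.0003979 0.0000003101 0.0000003101 0.0000003101 0.7193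
    hβ hN hx1 hx2 hy1 hy2 (by norm_num) (by norm_num) (by linarith) (by norm_num) (by norm_num) (by norm_num) (by norm_num) (by norm_num) (by norm_num) (by norm_num) (by norm_num) (by norm_num) (by norm_num) (by norm_num) (by norm_num) (by norm_num) (by norm_num) (by norm_num) (by norm_num) (by norm_num) (by norm_num) (by norm_num) (by norm_num) (by norm_num)
    (cube_sqrt_geJ (s := 0.8499) (by norm_num) (by norm_num) (by norm_num) (by norm_num))
    (cube_sqrt_geJ (s := 0.9476) (by norm_num) (by norm_num) (by norm_num) (by norm_num))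
    (by norm_num) (by norm_num) (by norm_num) (by norm_num) (by norm_num) (by norm_num) (by norm_num) (by norm_num) (by norm_num) (by norm_num) (by norm_num) (by norm_num) (by norm_num) (by norm_num) (by norm_num) (by norm_num) (by norm_num) (by norm_num)
    (exp_neg_leJ (r := 0.097) 7 (by norm_num) (by norm_num) (by norm_num) (by norm_num))
    (exp_neg_leJ (r := 0.127) 5 (by norm_num) (by norm_num) (by norm_num) (by norm_num))
    (exp_neg_leJ (r := 0.243) 13 (by norm_num) (by norm_num) (by norm_num) (by norm_num))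
    (exp_neg_leJ (r := 0.99) 14 (by norm_num) (by norm_num) (by norm_num) (by norm_num))
    (exp_neg_leJ (r := 0.831) 7 (by norm_num) (by norm_num) (by norm_num) (by norm_num))
    (exp_neg_leJ (r := 0.99) 14 (by norm_num) (by norm_num) (by norm_num) (by norm_num))
    (exp_neg_leJ (r := 0.99) 14 (by norm_num) (by norm_num) (by norm_num) (by norm_num))
    (exp_neg_leJ (r := 0.99) 14 (by norm_num) (by norm_num) (by norm_num) (by norm_num))
    (by norm_num)) (by norm_num) hN hβ.le (by norm_num)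

private theorem jo3_c1 {κ t β : ℝ} (h : DomR κ t) (hβ : 0 < β) (hk1 : 0.7 ≤ κ) (hk2 : κ ≤ 0.75)
    (ht1 : -0.5341 ≤ t + κ) (ht2 : t + κ ≤ 0.0786) (hR0 : β * 10 ≤ κ) (hR : β * (3.3 * (1 + κ ^ 2)) ≤ κ) :
    ‖HH β (sg κ t) - 1‖ ≤ 0.07 := by
  have hN : β * 13.333 ≤ 1 := bNR hβ h.1 hk2 hR0 (by norm_num)
  have hy1 : -0.312 ≤ sy κ t := syL_ge h 0.7 0.75 0.5341 0.312 0.73198 0.73199 0.3063 0.3045 0.32626 hk1 hk2 (by linarith) (by norm_num) (by norm_num) (by norm_num)
    (expm_ge (by norm_num) (by norm_num) (by norm_num) (by norm_num)) (expm_le (by norm_num) (by norm_num) (by norm_num)) (by norm_num)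
    (by norm_num) (by norm_num) (by norm_num) (by norm_num) (by norm_num) (by norm_num)
  have hy2 : sy κ t ≤ 0.037 := syR_le h 0.7 0.75 0.0786 0.037 1.03769 0.0502 0.05119 0.05485 hk1 hk2 (by linarith) (by norm_num) (by norm_num)
    (expn_ge (by norm_num) (by norm_num)) (by norm_num) (by norm_num) (Or.inr ((mul_le_mul_of_nonneg_left (expn_le (E := 1.0377) (by norm_num) (by norm_num) (by norm_num)) (by norm_num)).trans (by norm_num))) (by norm_num) (by norm_num) (by norm_num)
  rcases le_total (sy κ t) (-0.262) with f0 | g0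
  · have hx1 : 0.8544 ≤ sx κ t := sx_lo h 0.7 (-0.262) 0.312 1.29952 0.8544 hk1 (by norm_num) f0 (abs_le.2 ⟨by linarith, by linarith⟩) (by rw [neg_neg]; exact expn_ge (by norm_num) (by norm_num)) (by norm_num) (by norm_num)
    have hx2 : sx κ t ≤ 0.9906 := sx_hi h 0.75 (-0.312) 0.262 1.36616 0.9906 hk2 hy1 (by norm_num) (by rw [abs_of_nonpos (by linarith)]; linarith) (by rw [neg_neg]; exact expn_le (by norm_num) (by norm_num) (by norm_num)) (by norm_num) (by norm_num)
    exact jo3_b1_0 hβ hN hx1 hx2 (by linarith) (by linarith)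
  rcases le_total (sy κ t) (-0.152) with f1 | g1
  · have hx1 : 0.7716 ≤ sx κ t := sx_lo h 0.7 (-0.152) 0.262 1.16416 0.7716 hk1 (by norm_num) f1 (abs_le.2 ⟨by linarith, by linarith⟩) (by rw [neg_neg]; exact expn_ge (by norm_num) (by norm_num)) (by norm_num) (by norm_num)
    have hx2 : sx κ t ≤ 0.9628 := sx_hi h 0.75 (-0.262) 0.152 1.29953 0.9628 hk2 g0 (by norm_num) (by rw [abs_of_nonpos (by linarith)]; linarith) (by rw [neg_neg]; exact expn_le (by norm_num) (by norm_num) (by norm_num)) (by norm_num) (by norm_num)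
    exact jo3_b1_1 hβ hN hx1 hx2 (by linarith) (by linarith)
  have hx1 : 0.6572 ≤ sx κ t := sx_lo h 0.7 0.037 0.152 0.96367 0.6572 hk1 (by norm_num) hy2 (abs_le.2 ⟨by linarith, by linarith⟩) (expm_ge (by norm_num) (by norm_num) (by norm_num) (by norm_num)) (by norm_num) (by norm_num)
  have hx2 : sx κ t ≤ 0.8732 := sx_hi h 0.75 (-0.152) 0 1.16417 0.8732 hk2 g1 (by norm_num) (abs_nonneg _) (by rw [neg_neg]; exact expn_le (by norm_num) (by norm_num) (by norm_num)) (by norm_num) (by norm_num)
  exact jo3_b1_2 hβ hN hx1 hx2 (by linarith) (by linarith)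

private theorem jo3_b2_0 {β x y : ℝ} (hβ : 0 < β) (hN : β * 12.499 ≤ 1) (hx1 : 0.9441 ≤ x) (hx2 : x ≤ 1.056)
    (hy1 : -0.312 ≤ y) (hy2 : y ≤ -0.282) : ‖HH β (x + y * I) - 1‖ ≤ 0.07 := by
  refine le_epsJ (C := 0.8656) (N0 := 12.499) (J_boxp 0.9441 1.056 0.312 0 (-0.282) 1.1533 1.1012 1.277 0.9124 0.4509 3.5354 12.499 0.9549 3.824 1.546 0.7259 0.5766 0.3931 0.8389 2.5021 0.6431 1.8072 2.6107 3.6069 0.0007422 0.007369 0.00002796 0.0000003101 0.000323 0.0000003101 0.0000003101 0.0000003101 0.8656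
    hβ hN hx1 hx2 hy1 hy2 (by norm_num) (by norm_num) (by linarith) (by norm_num) (by norm_num) (by norm_num) (by norm_num) (by norm_num) (by norm_num) (by norm_num) (by norm_num) (by norm_num) (by norm_num) (by norm_num) (by norm_num) (by norm_num) (by norm_num) (by norm_num) (by norm_num) (by norm_num) (by norm_num) (by norm_num) (by norm_num) (by norm_num)
    (cube_sqrt_geJ (s := 0.8256) (by norm_num) (by norm_num) (by norm_num) (by norm_num))
    (cube_sqrt_geJ (s := 0.9397) (by norm_num) (by norm_num) (by norm_num) (by norm_num))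
    (by norm_num) (by norm_num) (by norm_num) (by norm_num) (by norm_num) (by norm_num) (by norm_num) (by norm_num) (by norm_num) (by norm_num) (by norm_num) (by norm_num) (by norm_num) (by norm_num) (by norm_num) (by norm_num) (by norm_num) (by norm_num)
    (exp_neg_leJ (r := 0.206) 7 (by norm_num) (by norm_num) (by norm_num) (by norm_num))
    (exp_neg_leJ (r := 0.913) 4 (by norm_num) (by norm_num) (by norm_num) (by norm_num))
    (exp_neg_leJ (r := 0.485) 10 (by norm_num) (by norm_num) (by norm_num) (by norm_num))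
    (exp_neg_leJ (r := 0.99) 14 (by norm_num) (by norm_num) (by norm_num) (by norm_num))
    (exp_neg_leJ (r := 0.038) 8 (by norm_num) (by norm_num) (by norm_num) (by norm_num))
    (exp_neg_leJ (r := 0.99) 14 (by norm_num) (by norm_num) (by norm_num) (by norm_num))
    (exp_neg_leJ (r := 0.99) 14 (by norm_num) (by norm_num) (by norm_num) (by norm_num))
    (exp_neg_leJ (r := 0.99) 14 (by norm_num) (by norm_num) (by norm_num) (by norm_num))
    (by norm_num)) (by norm_num) hN hβ.le (by norm_num)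

private theorem jo3_b2_1 {β x y : ℝ} (hβ : 0 < β) (hN : β * 12.499 ≤ 1) (hx1 : 0.8929 ≤ x) (hx2 : x ≤ 1.0372)
    (hy1 : -0.282 ≤ y) (hy2 : y ≤ -0.222) : ‖HH β (x + y * I) - 1‖ ≤ 0.07 := by
  refine le_epsJ (C := 0.8687) (N0 := 12.499) (J_boxp 0.8929 1.0372 0.282 0 (-0.222) 1.1385 1.0749 1.2966 0.9374 0.4543 3.5354 12.499 0.9442 3.755 1.538 0.7608 0.5692 0.39 0.8688 2.6091 0.6346 1.7363 2.5899 3.5759 0.0008137 0.007659 0.00001927 0.0000003101 0.0003605 0.0000003101 0.0000003101 0.0000003101 0.8687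
    hβ hN hx1 hx2 hy1 hy2 (by norm_num) (by norm_num) (by linarith) (by norm_num) (by norm_num) (by norm_num) (by norm_num) (by norm_num) (by norm_num) (by norm_num) (by norm_num) (by norm_num) (by norm_num) (by norm_num) (by norm_num) (by norm_num) (by norm_num) (by norm_num) (by norm_num) (by norm_num) (by norm_num) (by norm_num) (by norm_num) (by norm_num)
    (cube_sqrt_geJ (s := 0.8278) (by norm_num) (by norm_num) (by norm_num) (by norm_num))
    (cube_sqrt_geJ (s := 0.9404) (by norm_num) (by norm_num) (by norm_num) (by norm_num))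
    (by norm_num) (by norm_num) (by norm_num) (by norm_num) (by norm_num) (by norm_num) (by norm_num) (by norm_num) (by norm_num) (by norm_num) (by norm_num) (by norm_num) (by norm_num) (by norm_num) (by norm_num) (by norm_num) (by norm_num) (by norm_num)
    (exp_neg_leJ (r := 0.114) 7 (by norm_num) (by norm_num) (by norm_num) (by norm_num))
    (exp_neg_leJ (r := 0.874) 4 (by norm_num) (by norm_num) (by norm_num) (by norm_num))
    (exp_neg_leJ (r := 0.859) 10 (by norm_num) (by norm_num) (by norm_num) (by norm_num))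
    (exp_neg_leJ (r := 0.99) 14 (by norm_num) (by norm_num) (by norm_num) (by norm_num))
    (exp_neg_leJ (r := 0.931) 7 (by norm_num) (by norm_num) (by norm_num) (by norm_num))
    (exp_neg_leJ (r := 0.99) 14 (by norm_num) (by norm_num) (by norm_num) (by norm_num))
    (exp_neg_leJ (r := 0.99) 14 (by norm_num) (by norm_num) (by norm_num) (by norm_num))
    (exp_neg_leJ (r := 0.99) 14 (by norm_num) (by norm_num) (by norm_num) (by norm_num))
    (by norm_num)) (by norm_num) hN hβ.le (by norm_num)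

private theorem jo3_b2_2 {β x y : ℝ} (hβ : 0 < β) (hN : β * 12.499 ≤ 1) (hx1 : 0.7917 ≤ x) (hx2 : x ≤ 0.9947)
    (hy1 : -0.222 ≤ y) (hy2 : y ≤ -0.092) : ‖HH β (x + y * I) - 1‖ ≤ 0.07 := by
  refine le_epsJ (C := 0.8673) (N0 := 12.499) (J_boxp 0.7917 0.9947 0.222 0 (-0.092) 1.1098 1.0192 1.3469 0.9927 0.463 3.5354 12.499 0.9184 3.595 1.519 0.8326 0.5548 0.385 0.9288 2.8256 0.6182 1.5961 2.5506 3.525 0.0009768 0.008144 0.000009088 0.0000003101 0.0004417 0.0000003101 0.0000003101 0.0000003101 0.8673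
    hβ hN hx1 hx2 hy1 hy2 (by norm_num) (by norm_num) (by linarith) (by norm_num) (by norm_num) (by norm_num) (by norm_num) (by norm_num) (by norm_num) (by norm_num) (by norm_num) (by norm_num) (by norm_num) (by norm_num) (by norm_num) (by norm_num) (by norm_num) (by norm_num) (by norm_num) (by norm_num) (by norm_num) (by norm_num) (by norm_num) (by norm_num)
    (cube_sqrt_geJ (s := 0.8329) (by norm_num) (by norm_num) (by norm_num) (by norm_num))
    (cube_sqrt_geJ (s := 0.942) (by norm_num) (by norm_num) (by norm_num) (by norm_num))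
    (by norm_num) (by norm_num) (by norm_num) (by norm_num) (by norm_num) (by norm_num) (by norm_num) (by norm_num) (by norm_num) (by norm_num) (by norm_num) (by norm_num) (by norm_num) (by norm_num) (by norm_num) (by norm_num) (by norm_num) (by norm_num)
    (exp_neg_leJ (r := 0.934) 6 (by norm_num) (by norm_num) (by norm_num) (by norm_num))
    (exp_neg_leJ (r := 0.812) 4 (by norm_num) (by norm_num) (by norm_num) (by norm_num))
    (exp_neg_leJ (r := 0.609) 11 (by norm_num) (by norm_num) (by norm_num) (by norm_num))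
    (exp_neg_leJ (r := 0.99) 14 (by norm_num) (by norm_num) (by norm_num) (by norm_num))
    (exp_neg_leJ (r := 0.726) 7 (by norm_num) (by norm_num) (by norm_num) (by norm_num))
    (exp_neg_leJ (r := 0.99) 14 (by norm_num) (by norm_num) (by norm_num) (by norm_num))
    (exp_neg_leJ (r := 0.99) 14 (by norm_num) (by norm_num) (by norm_num) (by norm_num))
    (exp_neg_leJ (r := 0.99) 14 (by norm_num) (by norm_num) (by norm_num) (by norm_num))
    (by norm_num)) (by norm_num) hN hβ.le (by norm_num)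

private theorem jo3_b2_3 {β x y : ℝ} (hβ : 0 < β) (hN : β * 12.499 ≤ 1) (hx1 : 0.7161 ≤ x) (hx2 : x ≤ 0.8771)
    (hy1 : -0.092 ≤ y) (hy2 : y ≤ 0.038) : ‖HH β (x + y * I) - 1‖ ≤ 0.07 := by
  refine le_epsJ (C := 0.5291) (N0 := 12.499) (J_boxp 0.7161 0.8771 0.092 0.038 0.038 1.1489 0.882 1.359 0.9467 0.4651 3.5354 12.499 0.7677 2.814 1.413 0.9978 0.5744 0.4274 1.1081 3.3069 0.6487 1.4876 2.5898 3.5676 0.0007625 0.004787 0.0000009679 0.0000003101 0.0003012 0.0000003101 0.0000003101 0.0000003101 0.5291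
    hβ hN hx1 hx2 hy1 hy2 (by norm_num) (by norm_num) (by linarith) (by norm_num) (by norm_num) (by norm_num) (by norm_num) (by norm_num) (by norm_num) (by norm_num) (by norm_num) (by norm_num) (by norm_num) (by norm_num) (by norm_num) (by norm_num) (by norm_num) (by norm_num) (by norm_num) (by norm_num) (by norm_num) (by norm_num) (by norm_num) (by norm_num)
    (cube_sqrt_geJ (s := 0.8626) (by norm_num) (by norm_num) (by norm_num) (by norm_num))
    (cube_sqrt_geJ (s := 0.9518) (by norm_num) (by norm_num) (by norm_num) (by norm_num))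
    (by norm_num) (by norm_num) (by norm_num) (by norm_num) (by norm_num) (by norm_num) (by norm_num) (by norm_num) (by norm_num) (by norm_num) (by norm_num) (by norm_num) (by norm_num) (by norm_num) (by norm_num) (by norm_num) (by norm_num) (by norm_num)
    (exp_neg_leJ (r := 0.179) 7 (by norm_num) (by norm_num) (by norm_num) (by norm_num))
    (exp_neg_leJ (r := 0.342) 5 (by norm_num) (by norm_num) (by norm_num) (by norm_num))
    (exp_neg_leJ (r := 0.85) 13 (by norm_num) (by norm_num) (by norm_num) (by norm_num))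
    (exp_neg_leJ (r := 0.99) 14 (by norm_num) (by norm_num) (by norm_num) (by norm_num))
    (exp_neg_leJ (r := 0.108) 8 (by norm_num) (by norm_num) (by norm_num) (by norm_num))
    (exp_neg_leJ (r := 0.99) 14 (by norm_num) (by norm_num) (by norm_num) (by norm_num))
    (exp_neg_leJ (r := 0.99) 14 (by norm_num) (by norm_num) (by norm_num) (by norm_num))
    (exp_neg_leJ (r := 0.99) 14 (by norm_num) (by norm_num) (by norm_num) (by norm_num))
    (by norm_num)) (by norm_num) hN hβ.le (by norm_num)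

private theorem jo3_c2 {κ t β : ℝ} (h : DomR κ t) (hβ : 0 < β) (hk1 : 0.75 ≤ κ) (hk2 : κ ≤ 0.8)
    (ht1 : -0.5341 ≤ t + κ) (ht2 : t + κ ≤ 0.0786) (hR0 : β * 10 ≤ κ) (hR : β * (3.3 * (1 + κ ^ 2)) ≤ κ) :
    ‖HH β (sg κ t) - 1‖ ≤ 0.07 := by
  have hN : β * 12.499 ≤ 1 := bNR hβ h.1 hk2 hR0 (by norm_num)
  have hy1 : -0.312 ≤ sy κ t := syL_ge h 0.75 0.8 0.5341 0.312 0.73198 0.73199 0.2934 0.28547 0.30451 hk1 hk2 (by linarith) (by norm_num) (by norm_num) (by norm_num)
    (expm_ge (by norm_num) (by norm_num) (by norm_num) (by norm_num)) (expm_le (by norm_num) (by norm_num) (by norm_num)) (by norm_num)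
    (by norm_num) (by norm_num) (by norm_num) (by norm_num) (by norm_num) (by norm_num)
  have hy2 : sy κ t ≤ 0.038 := syR_le h 0.75 0.8 0.0786 0.038 1.03873 0.0485 0.04933 0.05263 hk1 hk2 (by linarith) (by norm_num) (by norm_num)
    (expn_ge (by norm_num) (by norm_num)) (by norm_num) (by norm_num) (Or.inr ((mul_le_mul_of_nonneg_left (expn_le (E := 1.03874) (by norm_num) (by norm_num) (by norm_num)) (by norm_num)).trans (by norm_num))) (by norm_num) (by norm_num) (by norm_num)
  rcases le_total (sy κ t) (-0.282) with f0 | g0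
  · have hx1 : 0.9441 ≤ sx κ t := sx_lo h 0.75 (-0.282) 0.312 1.32577 0.9441 hk1 (by norm_num) f0 (abs_le.2 ⟨by linarith, by linarith⟩) (by rw [neg_neg]; exact expn_ge (by norm_num) (by norm_num)) (by norm_num) (by norm_num)
    have hx2 : sx κ t ≤ 1.056 := sx_hi h 0.8 (-0.312) 0.282 1.36616 1.056 hk2 hy1 (by norm_num) (by rw [abs_of_nonpos (by linarith)]; linarith) (by rw [neg_neg]; exact expn_le (by norm_num) (by norm_num) (by norm_num)) (by norm_num) (by norm_num)
    exact jo3_b2_0 hβ hN hx1 hx2 (by linarith) (by linarith)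
  rcases le_total (sy κ t) (-0.222) with f1 | g1
  · have hx1 : 0.8929 ≤ sx κ t := sx_lo h 0.75 (-0.222) 0.282 1.24857 0.8929 hk1 (by norm_num) f1 (abs_le.2 ⟨by linarith, by linarith⟩) (by rw [neg_neg]; exact expn_ge (by norm_num) (by norm_num)) (by norm_num) (by norm_num)
    have hx2 : sx κ t ≤ 1.0372 := sx_hi h 0.8 (-0.282) 0.222 1.32578 1.0372 hk2 g0 (by norm_num) (by rw [abs_of_nonpos (by linarith)]; linarith) (by rw [neg_neg]; exact expn_le (by norm_num) (by norm_num) (by norm_num)) (by norm_num) (by norm_num)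
    exact jo3_b2_1 hβ hN hx1 hx2 (by linarith) (by linarith)
  rcases le_total (sy κ t) (-0.092) with f2 | g2
  · have hx1 : 0.7917 ≤ sx κ t := sx_lo h 0.75 (-0.092) 0.222 1.09636 0.7917 hk1 (by norm_num) f2 (abs_le.2 ⟨by linarith, by linarith⟩) (by rw [neg_neg]; exact expn_ge (by norm_num) (by norm_num)) (by norm_num) (by norm_num)
    have hx2 : sx κ t ≤ 0.9947 := sx_hi h 0.8 (-0.222) 0.092 1.24858 0.9947 hk2 g1 (by norm_num) (by rw [abs_of_nonpos (by linarith)]; linarith) (by rw [neg_neg]; exact expn_le (by norm_num) (by norm_num) (by norm_num)) (by norm_num) (by norm_num)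
    exact jo3_b2_2 hβ hN hx1 hx2 (by linarith) (by linarith)
  have hx1 : 0.7161 ≤ sx κ t := sx_lo h 0.75 0.038 0.092 0.96271 0.7161 hk1 (by norm_num) hy2 (abs_le.2 ⟨by linarith, by linarith⟩) (expm_ge (by norm_num) (by norm_num) (by norm_num) (by norm_num)) (by norm_num) (by norm_num)
  have hx2 : sx κ t ≤ 0.8771 := sx_hi h 0.8 (-0.092) 0 1.09637 0.8771 hk2 g2 (by norm_num) (abs_nonneg _) (by rw [neg_neg]; exact expn_le (by norm_num) (by norm_num) (by norm_num)) (by norm_num) (by norm_num)
  exact jo3_b2_3 hβ hN hx1 hx2 (by linarith) (by linarith)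

theorem jo3 {κ t β : ℝ} (h : DomR κ t) (hβ : 0 < β) (hk1 : 0.6 ≤ κ) (hk2 : κ ≤ 0.8)
    (ht1 : -0.5341 ≤ t + κ) (ht2 : t + κ ≤ 0.0786) (hR0 : β * 10 ≤ κ) (hR : β * (3.3 * (1 + κ ^ 2)) ≤ κ) :
    ‖HH β (sg κ t) - 1‖ ≤ 0.07 := by
  rcases le_total κ 0.7 with f0 | g0
  · exact jo3_c0 h hβ hk1 f0 ht1 ht2 hR0 hR
  rcases le_total κ 0.75 with f1 | g1
  · exact jo3_c1 h hβ g0 f1 ht1 ht2 hR0 hR
  exact jo3_c2 h hβ g1 hk2 ht1 ht2 hR0 hR

private theorem jo4_b0_0 {β x y : ℝ} (hβ : 0 < β) (hN : β * 11.764 ≤ 1) (hx1 : 0.9589 ≤ x) (hx2 : x ≤ 1.1135)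
    (hy1 : -0.29 ≤ y) (hy2 : y ≤ -0.225) : ‖HH β (x + y * I) - 1‖ ≤ 0.08 := by
  refine le_epsJ (C := 0.9303) (N0 := 11.764) (J_boxp 0.9589 1.1135 0.29 0 (-0.225) 1.1793 1.1507 1.3567 0.9096 0.4647 3.4299 11.764 0.9758 3.964 1.562 0.7241 0.5896 0.3978 0.8787 2.5401 0.6623 1.8277 2.7001 3.5019 0.0009749 0.009295 0.00003242 0.0000003101 0.000414 0.0000003101 0.0000003101 0.0000003101 0.9303
    hβ hN hx1 hx2 hy1 hy2 (by norm_num) (by norm_num) (by linarith) (by norm_num) (by norm_num) (by norm_num) (by norm_num) (by norm_num) (by norm_num) (by norm_num) (by norm_num) (by norm_num) (by norm_num) (by norm_num) (by norm_num) (by norm_num) (by norm_num) (by norm_num) (by norm_num) (by norm_num) (by norm_num) (by norm_num) (by norm_num) (by norm_num)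
    (cube_sqrt_geJ (s := 0.8214) (by norm_num) (by norm_num) (by norm_num) (by norm_num))
    (cube_sqrt_geJ (s := 0.9383) (by norm_num) (by norm_num) (by norm_num) (by norm_num))
    (by norm_num) (by norm_num) (by norm_num) (by norm_num) (by norm_num) (by norm_num) (by norm_num) (by norm_num) (by norm_num) (by norm_num) (by norm_num) (by norm_num) (by norm_num) (by norm_num) (by norm_num) (by norm_num) (by norm_num) (by norm_num)
    (exp_neg_leJ (r := 0.936) 6 (by norm_num) (by norm_num) (by norm_num) (by norm_num))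
    (exp_neg_leJ (r := 0.679) 4 (by norm_num) (by norm_num) (by norm_num) (by norm_num))
    (exp_neg_leJ (r := 0.337) 10 (by norm_num) (by norm_num) (by norm_num) (by norm_num))
    (exp_neg_leJ (r := 0.99) 14 (by norm_num) (by norm_num) (by norm_num) (by norm_num))
    (exp_neg_leJ (r := 0.791) 7 (by norm_num) (by norm_num) (by norm_num) (by norm_num))
    (exp_neg_leJ (r := 0.99) 14 (by norm_num) (by norm_num) (by norm_num) (by norm_num))
    (exp_neg_leJ (r := 0.99) 14 (by norm_num) (by norm_num) (by norm_num) (by norm_num))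
    (exp_neg_leJ (r := 0.99) 14 (by norm_num) (by norm_num) (by norm_num) (by norm_num))
    (by norm_num)) (by norm_num) hN hβ.le (by norm_num)

private theorem jo4_b0_1 {β x y : ℝ} (hβ : 0 < β) (hN : β * 11.764 ≤ 1) (hx1 : 0.8414 ≤ x) (hx2 : x ≤ 1.0611)
    (hy1 : -0.225 ≤ y) (hy2 : y ≤ -0.085) : ‖HH β (x + y * I) - 1‖ ≤ 0.08 := by
  refine le_epsJ (C := 0.9365) (N0 := 11.764) (J_boxp 0.8414 1.0611 0.225 0 (-0.085) 1.1427 1.0847 1.4012 0.9691 0.4723 3.4299 11.764 0.9493 3.788 1.542 0.8043 0.5713 0.3905 0.9411 2.778 0.6407 1.665 2.6418 3.4463 0.001208 0.01013 0.00001556 0.0000003101 0.0005332 0.0000003101 0.0000003101 0.0000003101 0.9365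
    hβ hN hx1 hx2 hy1 hy2 (by norm_num) (by norm_num) (by linarith) (by norm_num) (by norm_num) (by norm_num) (by norm_num) (by norm_num) (by norm_num) (by norm_num) (by norm_num) (by norm_num) (by norm_num) (by norm_num) (by norm_num) (by norm_num) (by norm_num) (by norm_num) (by norm_num) (by norm_num) (by norm_num) (by norm_num) (by norm_num) (by norm_num)
    (cube_sqrt_geJ (s := 0.8267) (by norm_num) (by norm_num) (by norm_num) (by norm_num))
    (cube_sqrt_geJ (s := 0.94) (by norm_num) (by norm_num) (by norm_num) (by norm_num))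
    (by norm_num) (by norm_num) (by norm_num) (by norm_num) (by norm_num) (by norm_num) (by norm_num) (by norm_num) (by norm_num) (by norm_num) (by norm_num) (by norm_num) (by norm_num) (by norm_num) (by norm_num) (by norm_num) (by norm_num) (by norm_num)
    (exp_neg_leJ (r := 0.72) 6 (by norm_num) (by norm_num) (by norm_num) (by norm_num))
    (exp_neg_leJ (r := 0.593) 4 (by norm_num) (by norm_num) (by norm_num) (by norm_num))
    (exp_neg_leJ (r := 0.071) 11 (by norm_num) (by norm_num) (by norm_num) (by norm_num))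
    (exp_neg_leJ (r := 0.99) 14 (by norm_num) (by norm_num) (by norm_num) (by norm_num))
    (exp_neg_leJ (r := 0.537) 7 (by norm_num) (by norm_num) (by norm_num) (by norm_num))
    (exp_neg_leJ (r := 0.99) 14 (by norm_num) (by norm_num) (by norm_num) (by norm_num))
    (exp_neg_leJ (r := 0.99) 14 (by norm_num) (by norm_num) (by norm_num) (by norm_num))
    (exp_neg_leJ (r := 0.99) 14 (by norm_num) (by norm_num) (by norm_num) (by norm_num))
    (by norm_num)) (by norm_num) hN hβ.le (by norm_num)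

private theorem jo4_b0_2 {β x y : ℝ} (hβ : 0 < β) (hN : β * 11.764 ≤ 1) (hx1 : 0.7654 ≤ x) (hx2 : x ≤ 0.9255)
    (hy1 : -0.085 ≤ y) (hy2 : y ≤ 0.038) : ‖HH β (x + y * I) - 1‖ ≤ 0.08 := by
  refine le_epsJ (C := 0.5385) (N0 := 11.764) (J_boxp 0.7654 0.9255 0.085 0.038 0.038 1.1886 0.9294 1.3907 0.9101 0.4705 3.4299 11.764 0.782 2.878 1.423 0.9856 0.5942 0.4393 1.1361 3.3012 0.6764 1.5559 2.7074 3.5374 0.0009243 0.005702 0.00000157 0.0000003101 0.0003513 0.0000003101 0.0000003101 0.0000003101 0.5385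
    hβ hN hx1 hx2 hy1 hy2 (by norm_num) (by norm_num) (by linarith) (by norm_num) (by norm_num) (by norm_num) (by norm_num) (by norm_num) (by norm_num) (by norm_num) (by norm_num) (by norm_num) (by norm_num) (by norm_num) (by norm_num) (by norm_num) (by norm_num) (by norm_num) (by norm_num) (by norm_num) (by norm_num) (by norm_num) (by norm_num) (by norm_num)
    (cube_sqrt_geJ (s := 0.8598) (by norm_num) (by norm_num) (by norm_num) (by norm_num))
    (cube_sqrt_geJ (s := 0.9509) (by norm_num) (by norm_num) (by norm_num) (by norm_num))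
    (by norm_num) (by norm_num) (by norm_num) (by norm_num) (by norm_num) (by norm_num) (by norm_num) (by norm_num) (by norm_num) (by norm_num) (by norm_num) (by norm_num) (by norm_num) (by norm_num) (by norm_num) (by norm_num) (by norm_num) (by norm_num)
    (exp_neg_leJ (r := 0.99) 6 (by norm_num) (by norm_num) (by norm_num) (by norm_num))
    (exp_neg_leJ (r := 0.167) 5 (by norm_num) (by norm_num) (by norm_num) (by norm_num))
    (exp_neg_leJ (r := 0.365) 13 (by norm_num) (by norm_num) (by norm_num) (by norm_num))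
    (exp_neg_leJ (r := 0.99) 14 (by norm_num) (by norm_num) (by norm_num) (by norm_num))
    (exp_neg_leJ (r := 0.957) 7 (by norm_num) (by norm_num) (by norm_num) (by norm_num))
    (exp_neg_leJ (r := 0.99) 14 (by norm_num) (by norm_num) (by norm_num) (by norm_num))
    (exp_neg_leJ (r := 0.99) 14 (by norm_num) (by norm_num) (by norm_num) (by norm_num))
    (exp_neg_leJ (r := 0.99) 14 (by norm_num) (by norm_num) (by norm_num) (by norm_num))
    (by norm_num)) (by norm_num) hN hβ.le (by norm_num)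

private theorem jo4_c0 {κ t β : ℝ} (h : DomR κ t) (hβ : 0 < β) (hk1 : 0.8 ≤ κ) (hk2 : κ ≤ 0.85)
    (ht1 : -0.5027 ≤ t + κ) (ht2 : t + κ ≤ 0.0786) (hR0 : β * 10 ≤ κ) (hR : β * (3.3 * (1 + κ ^ 2)) ≤ κ) :
    ‖HH β (sg κ t) - 1‖ ≤ 0.08 := by
  have hN : β * 11.764 ≤ 1 := bNR hβ h.1 hk2 hR0 (by norm_num)
  have hy1 : -0.29 ≤ sy κ t := syL_ge h 0.8 0.85 0.5027 0.29 0.74826 0.74827 0.2592 0.25528 0.27125 hk1 hk2 (by linarith) (by norm_num) (by norm_num) (by norm_num)
    (expm_ge (by norm_num) (by norm_num) (by norm_num) (by norm_num)) (expm_le (by norm_num) (by norm_num) (by norm_num)) (by norm_num)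
    (by norm_num) (by norm_num) (by norm_num) (by norm_num) (by norm_num) (by norm_num)
  have hy2 : sy κ t ≤ 0.038 := syR_le h 0.8 0.85 0.0786 0.038 1.03873 0.0456 0.04643 0.04935 hk1 hk2 (by linarith) (by norm_num) (by norm_num)
    (expn_ge (by norm_num) (by norm_num)) (by norm_num) (by norm_num) (Or.inr ((mul_le_mul_of_nonneg_left (expn_le (E := 1.03874) (by norm_num) (by norm_num) (by norm_num)) (by norm_num)).trans (by norm_num))) (by norm_num) (by norm_num) (by norm_num)
  rcases le_total (sy κ t) (-0.225) with f0 | g0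
  · have hx1 : 0.9589 ≤ sx κ t := sx_lo h 0.8 (-0.225) 0.29 1.25232 0.9589 hk1 (by norm_num) f0 (abs_le.2 ⟨by linarith, by linarith⟩) (by rw [neg_neg]; exact expn_ge (by norm_num) (by norm_num)) (by norm_num) (by norm_num)
    have hx2 : sx κ t ≤ 1.1135 := sx_hi h 0.85 (-0.29) 0.225 1.33643 1.1135 hk2 hy1 (by norm_num) (by rw [abs_of_nonpos (by linarith)]; linarith) (by rw [neg_neg]; exact expn_le (by norm_num) (by norm_num) (by norm_num)) (by norm_num) (by norm_num)
    exact jo4_b0_0 hβ hN hx1 hx2 (by linarith) (by linarith)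
  rcases le_total (sy κ t) (-0.085) with f1 | g1
  · have hx1 : 0.8414 ≤ sx κ t := sx_lo h 0.8 (-0.085) 0.225 1.08871 0.8414 hk1 (by norm_num) f1 (abs_le.2 ⟨by linarith, by linarith⟩) (by rw [neg_neg]; exact expn_ge (by norm_num) (by norm_num)) (by norm_num) (by norm_num)
    have hx2 : sx κ t ≤ 1.0611 := sx_hi h 0.85 (-0.225) 0.085 1.25233 1.0611 hk2 g0 (by norm_num) (by rw [abs_of_nonpos (by linarith)]; linarith) (by rw [neg_neg]; exact expn_le (by norm_num) (by norm_num) (by norm_num)) (by norm_num) (by norm_num)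
    exact jo4_b0_1 hβ hN hx1 hx2 (by linarith) (by linarith)
  have hx1 : 0.7654 ≤ sx κ t := sx_lo h 0.8 0.038 0.085 0.96271 0.7654 hk1 (by norm_num) hy2 (abs_le.2 ⟨by linarith, by linarith⟩) (expm_ge (by norm_num) (by norm_num) (by norm_num) (by norm_num)) (by norm_num) (by norm_num)
  have hx2 : sx κ t ≤ 0.9255 := sx_hi h 0.85 (-0.085) 0 1.08872 0.9255 hk2 g1 (by norm_num) (abs_nonneg _) (by rw [neg_neg]; exact expn_le (by norm_num) (by norm_num) (by norm_num)) (by norm_num) (by norm_num)
  exact jo4_b0_2 hβ hN hx1 hx2 (by linarith) (by linarith)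

private theorem jo4_b1_0 {β x y : ℝ} (hβ : 0 < β) (hN : β * 11.111 ≤ 1) (hx1 : 1.0448 ≤ x) (hx2 : x ≤ 1.1756)
    (hy1 : -0.288 ≤ y) (hy2 : y ≤ -0.243) : ‖HH β (x + y * I) - 1‖ ≤ 0.08 := by
  refine le_epsJ (C := 0.8752) (N0 := 11.111) (J_boxp 1.0448 1.1756 0.288 0 (-0.243) 1.2412 1.2104 1.3983 0.8552 0.4718 3.3334 11.111 0.9752 3.96 1.561 0.7021 0.6205 0.4188 0.9113 2.5111 0.7051 1.9466 2.8774 3.5114 0.001017 0.009539 0.00004007 0.0000003101 0.0003968 0.0000003101 0.0000003101 0.0000003101 0.8752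
    hβ hN hx1 hx2 hy1 hy2 (by norm_num) (by norm_num) (by linarith) (by norm_num) (by norm_num) (by norm_num) (by norm_num) (by norm_num) (by norm_num) (by norm_num) (by norm_num) (by norm_num) (by norm_num) (by norm_num) (by norm_num) (by norm_num) (by norm_num) (by norm_num) (by norm_num) (by norm_num) (by norm_num) (by norm_num) (by norm_num) (by norm_num)
    (cube_sqrt_geJ (s := 0.8215) (by norm_num) (by norm_num) (by norm_num) (by norm_num))
    (cube_sqrt_geJ (s := 0.9384) (by norm_num) (by norm_num) (by norm_num) (by norm_num))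
    (by norm_num) (by norm_num) (by norm_num) (by norm_num) (by norm_num) (by norm_num) (by norm_num) (by norm_num) (by norm_num) (by norm_num) (by norm_num) (by norm_num) (by norm_num) (by norm_num) (by norm_num) (by norm_num) (by norm_num) (by norm_num)
    (exp_neg_leJ (r := 0.894) 6 (by norm_num) (by norm_num) (by norm_num) (by norm_num))
    (exp_neg_leJ (r := 0.653) 4 (by norm_num) (by norm_num) (by norm_num) (by norm_num))
    (exp_neg_leJ (r := 0.125) 10 (by norm_num) (by norm_num) (by norm_num) (by norm_num))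
    (exp_neg_leJ (r := 0.99) 14 (by norm_num) (by norm_num) (by norm_num) (by norm_num))
    (exp_neg_leJ (r := 0.834) 7 (by norm_num) (by norm_num) (by norm_num) (by norm_num))
    (exp_neg_leJ (r := 0.99) 14 (by norm_num) (by norm_num) (by norm_num) (by norm_num))
    (exp_neg_leJ (r := 0.99) 14 (by norm_num) (by norm_num) (by norm_num) (by norm_num))
    (exp_neg_leJ (r := 0.99) 14 (by norm_num) (by norm_num) (by norm_num) (by norm_num))
    (by norm_num)) (by norm_num) hN hβ.le (by norm_num)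

private theorem jo4_b1_1 {β x y : ℝ} (hβ : 0 < β) (hN : β * 11.111 ≤ 1) (hx1 : 0.9602 ≤ x) (hx2 : x ≤ 1.1374)
    (hy1 : -0.243 ≤ y) (hy2 : y ≤ -0.153) : ‖HH β (x + y * I) - 1‖ ≤ 0.08 := by
  refine le_epsJ (C := 0.8806) (N0 := 11.111) (J_boxp 0.9602 1.1374 0.243 0 (-0.153) 1.2136 1.1631 1.4182 0.8908 0.4751 3.3334 11.111 0.9584 3.847 1.549 0.7583 0.6067 0.4129 0.9534 2.6769 0.6886 1.8295 2.8305 3.4708 0.001183 0.01019 0.00002511 0.0000003101 0.0004759 0.0000003101 0.0000003101 0.0000003101 0.8806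
    hβ hN hx1 hx2 hy1 hy2 (by norm_num) (by norm_num) (by linarith) (by norm_num) (by norm_num) (by norm_num) (by norm_num) (by norm_num) (by norm_num) (by norm_num) (by norm_num) (by norm_num) (by norm_num) (by norm_num) (by norm_num) (by norm_num) (by norm_num) (by norm_num) (by norm_num) (by norm_num) (by norm_num) (by norm_num) (by norm_num) (by norm_num)
    (cube_sqrt_geJ (s := 0.8249) (by norm_num) (by norm_num) (by norm_num) (by norm_num))
    (cube_sqrt_geJ (s := 0.9394) (by norm_num) (by norm_num) (by norm_num) (by norm_num))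
    (by norm_num) (by norm_num) (by norm_num) (by norm_num) (by norm_num) (by norm_num) (by norm_num) (by norm_num) (by norm_num) (by norm_num) (by norm_num) (by norm_num) (by norm_num) (by norm_num) (by norm_num) (by norm_num) (by norm_num) (by norm_num)
    (exp_neg_leJ (r := 0.741) 6 (by norm_num) (by norm_num) (by norm_num) (by norm_num))
    (exp_neg_leJ (r := 0.587) 4 (by norm_num) (by norm_num) (by norm_num) (by norm_num))
    (exp_neg_leJ (r := 0.593) 10 (by norm_num) (by norm_num) (by norm_num) (by norm_num))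
    (exp_neg_leJ (r := 0.99) 14 (by norm_num) (by norm_num) (by norm_num) (by norm_num))
    (exp_neg_leJ (r := 0.651) 7 (by norm_num) (by norm_num) (by norm_num) (by norm_num))
    (exp_neg_leJ (r := 0.99) 14 (by norm_num) (by norm_num) (by norm_num) (by norm_num))
    (exp_neg_leJ (r := 0.99) 14 (by norm_num) (by norm_num) (by norm_num) (by norm_num))
    (exp_neg_leJ (r := 0.99) 14 (by norm_num) (by norm_num) (by norm_num) (by norm_num))
    (by norm_num)) (by norm_num) hN hβ.le (by norm_num)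

private theorem jo4_b1_2 {β x y : ℝ} (hβ : 0 < β) (hN : β * 11.111 ≤ 1) (hx1 : 0.803 ≤ x) (hx2 : x ≤ 1.0488)
    (hy1 : -0.153 ≤ y) (hy2 : y ≤ 0.039) : ‖HH β (x + y * I) - 1‖ ≤ 0.08 := by
  refine le_epsJ (C := 0.8501) (N0 := 11.111) (J_boxp 0.803 1.0488 0.153 0.039 0.039 1.1668 1.06 1.4764 0.9641 0.4848 3.3334 11.111 0.9085 3.535 1.512 0.8755 0.5833 0.4067 1.0416 3.0145 0.6574 1.6078 2.5935 3.2529 0.001533 0.01092 0.000009421 0.0000003101 0.0006729 0.0000003101 0.0000003101 0.0000003101 0.8501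
    hβ hN hx1 hx2 hy1 hy2 (by norm_num) (by norm_num) (by linarith) (by norm_num) (by norm_num) (by norm_num) (by norm_num) (by norm_num) (by norm_num) (by norm_num) (by norm_num) (by norm_num) (by norm_num) (by norm_num) (by norm_num) (by norm_num) (by norm_num) (by norm_num) (by norm_num) (by norm_num) (by norm_num) (by norm_num) (by norm_num) (by norm_num)
    (cube_sqrt_geJ (s := 0.8349) (by norm_num) (by norm_num) (by norm_num) (by norm_num))
    (cube_sqrt_geJ (s := 0.9427) (by norm_num) (by norm_num) (by norm_num) (by norm_num))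
    (by norm_num) (by norm_num) (by norm_num) (by norm_num) (by norm_num) (by norm_num) (by norm_num) (by norm_num) (by norm_num) (by norm_num) (by norm_num) (by norm_num) (by norm_num) (by norm_num) (by norm_num) (by norm_num) (by norm_num) (by norm_num)
    (exp_neg_leJ (r := 0.481) 6 (by norm_num) (by norm_num) (by norm_num) (by norm_num))
    (exp_neg_leJ (r := 0.518) 4 (by norm_num) (by norm_num) (by norm_num) (by norm_num))
    (exp_neg_leJ (r := 0.573) 11 (by norm_num) (by norm_num) (by norm_num) (by norm_num))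
    (exp_neg_leJ (r := 0.99) 14 (by norm_num) (by norm_num) (by norm_num) (by norm_num))
    (exp_neg_leJ (r := 0.304) 7 (by norm_num) (by norm_num) (by norm_num) (by norm_num))
    (exp_neg_leJ (r := 0.99) 14 (by norm_num) (by norm_num) (by norm_num) (by norm_num))
    (exp_neg_leJ (r := 0.99) 14 (by norm_num) (by norm_num) (by norm_num) (by norm_num))
    (exp_neg_leJ (r := 0.99) 14 (by norm_num) (by norm_num) (by norm_num) (by norm_num))
    (by norm_num)) (by norm_num) hN hβ.le (by norm_num)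

private theorem jo4_c1 {κ t β : ℝ} (h : DomR κ t) (hβ : 0 < β) (hk1 : 0.85 ≤ κ) (hk2 : κ ≤ 0.9)
    (ht1 : -0.5027 ≤ t + κ) (ht2 : t + κ ≤ 0.0786) (hR0 : β * 10 ≤ κ) (hR : β * (3.3 * (1 + κ ^ 2)) ≤ κ) :
    ‖HH β (sg κ t) - 1‖ ≤ 0.08 := by
  have hN : β * 11.111 ≤ 1 := bNR hβ h.1 hk2 hR0 (by norm_num)
  have hy1 : -0.288 ≤ sy κ t := syL_ge h 0.85 0.9 0.5027 0.288 0.74976 0.74977 0.2469 0.23992 0.25404 hk1 hk2 (by linarith) (by norm_num) (by norm_num) (by norm_num)
    (expm_ge (by norm_num) (by norm_num) (by norm_num) (by norm_num)) (expm_le (by norm_num) (by norm_num) (by norm_num)) (by norm_num)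
    (by norm_num) (by norm_num) (by norm_num) (by norm_num) (by norm_num) (by norm_num)
  have hy2 : sy κ t ≤ 0.039 := syR_le h 0.85 0.9 0.0786 0.039 1.03977 0.0443 0.04505 0.04771 hk1 hk2 (by linarith) (by norm_num) (by norm_num)
    (expn_ge (by norm_num) (by norm_num)) (by norm_num) (by norm_num) (Or.inr ((mul_le_mul_of_nonneg_left (expn_le (E := 1.03978) (by norm_num) (by norm_num) (by norm_num)) (by norm_num)).trans (by norm_num))) (by norm_num) (by norm_num) (by norm_num)
  rcases le_total (sy κ t) (-0.243) with f0 | g0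
  · have hx1 : 1.0448 ≤ sx κ t := sx_lo h 0.85 (-0.243) 0.288 1.27506 1.0448 hk1 (by norm_num) f0 (abs_le.2 ⟨by linarith, by linarith⟩) (by rw [neg_neg]; exact expn_ge (by norm_num) (by norm_num)) (by norm_num) (by norm_num)
    have hx2 : sx κ t ≤ 1.1756 := sx_hi h 0.9 (-0.288) 0.243 1.33376 1.1756 hk2 hy1 (by norm_num) (by rw [abs_of_nonpos (by linarith)]; linarith) (by rw [neg_neg]; exact expn_le (by norm_num) (by norm_num) (by norm_num)) (by norm_num) (by norm_num)
    exact jo4_b1_0 hβ hN hx1 hx2 (by linarith) (by linarith)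
  rcases le_total (sy κ t) (-0.153) with f1 | g1
  · have hx1 : 0.9602 ≤ sx κ t := sx_lo h 0.85 (-0.153) 0.243 1.16532 0.9602 hk1 (by norm_num) f1 (abs_le.2 ⟨by linarith, by linarith⟩) (by rw [neg_neg]; exact expn_ge (by norm_num) (by norm_num)) (by norm_num) (by norm_num)
    have hx2 : sx κ t ≤ 1.1374 := sx_hi h 0.9 (-0.243) 0.153 1.27507 1.1374 hk2 g0 (by norm_num) (by rw [abs_of_nonpos (by linarith)]; linarith) (by rw [neg_neg]; exact expn_le (by norm_num) (by norm_num) (by norm_num)) (by norm_num) (by norm_num)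
    exact jo4_b1_1 hβ hN hx1 hx2 (by linarith) (by linarith)
  have hx1 : 0.803 ≤ sx κ t := sx_lo h 0.85 0.039 0.153 0.96175 0.803 hk1 (by norm_num) hy2 (abs_le.2 ⟨by linarith, by linarith⟩) (expm_ge (by norm_num) (by norm_num) (by norm_num) (by norm_num)) (by norm_num) (by norm_num)
  have hx2 : sx κ t ≤ 1.0488 := sx_hi h 0.9 (-0.153) 0 1.16533 1.0488 hk2 g1 (by norm_num) (abs_nonneg _) (by rw [neg_neg]; exact expn_le (by norm_num) (by norm_num) (by norm_num)) (by norm_num) (by norm_num)
  exact jo4_b1_2 hβ hN hx1 hx2 (by linarith) (by linarith)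

private theorem jo4_b2_0 {β x y : ℝ} (hβ : 0 < β) (hN : β * 10.526 ≤ 1) (hx1 : 1.1268 ≤ x) (hx2 : x ≤ 1.2384)
    (hy1 : -0.286 ≤ y) (hy2 : y ≤ -0.256) : ‖HH β (x + y * I) - 1‖ ≤ 0.08 := by
  refine le_epsJ (C := 0.8374) (N0 := 10.526) (J_boxp 1.1268 1.2384 0.286 0 (-0.256) 1.3004 1.271 1.4448 0.8106 0.4796 3.2444 10.526 0.9774 3.975 1.563 0.6798 0.6501 0.4383 0.9425 2.4816 0.746 2.0601 3.0468 3.5107 0.00107 0.009927 0.00004931 0.0000003101 0.0003897 0.0000003101 0.0000003101 0.0000003101 0.8374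
    hβ hN hx1 hx2 hy1 hy2 (by norm_num) (by norm_num) (by linarith) (by norm_num) (by norm_num) (by norm_num) (by norm_num) (by norm_num) (by norm_num) (by norm_num) (by norm_num) (by norm_num) (by norm_num) (by norm_num) (by norm_num) (by norm_num) (by norm_num) (by norm_num) (by norm_num) (by norm_num) (by norm_num) (by norm_num) (by norm_num) (by norm_num)
    (cube_sqrt_geJ (s := 0.821) (by norm_num) (by norm_num) (by norm_num) (by norm_num))
    (cube_sqrt_geJ (s := 0.9382) (by norm_num) (by norm_num) (by norm_num) (by norm_num))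
    (by norm_num) (by norm_num) (by norm_num) (by norm_num) (by norm_num) (by norm_num) (by norm_num) (by norm_num) (by norm_num) (by norm_num) (by norm_num) (by norm_num) (by norm_num) (by norm_num) (by norm_num) (by norm_num) (by norm_num) (by norm_num)
    (exp_neg_leJ (r := 0.842) 6 (by norm_num) (by norm_num) (by norm_num) (by norm_num))
    (exp_neg_leJ (r := 0.613) 4 (by norm_num) (by norm_num) (by norm_num) (by norm_num))
    (exp_neg_leJ (r := 0.92) 9 (by norm_num) (by norm_num) (by norm_num) (by norm_num))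
    (exp_neg_leJ (r := 0.99) 14 (by norm_num) (by norm_num) (by norm_num) (by norm_num))
    (exp_neg_leJ (r := 0.852) 7 (by norm_num) (by norm_num) (by norm_num) (by norm_num))
    (exp_neg_leJ (r := 0.99) 14 (by norm_num) (by norm_num) (by norm_num) (by norm_num))
    (exp_neg_leJ (r := 0.99) 14 (by norm_num) (by norm_num) (by norm_num) (by norm_num))
    (exp_neg_leJ (r := 0.99) 14 (by norm_num) (by norm_num) (by norm_num) (by norm_num))
    (by norm_num)) (by norm_num) hN hβ.le (by norm_num)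

private theorem jo4_b2_1 {β x y : ℝ} (hβ : 0 < β) (hN : β * 10.526 ≤ 1) (hx1 : 1.0701 ≤ x) (hx2 : x ≤ 1.2106)
    (hy1 : -0.256 ≤ y) (hy2 : y ≤ -0.201) : ‖HH β (x + y * I) - 1‖ ≤ 0.08 := by
  refine le_epsJ (C := 0.836) (N0 := 10.526) (J_boxp 1.0701 1.2106 0.256 0 (-0.201) 1.2817 1.2374 1.4506 0.8301 0.4805 3.2444 10.526 0.9655 3.894 1.554 0.7181 0.6408 0.4346 0.9705 2.5934 0.7349 1.9816 3.015 3.4886 0.001178 0.01033 0.00003662 0.0000003101 0.0004377 0.0000003101 0.0000003101 0.0000003101 0.836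
    hβ hN hx1 hx2 hy1 hy2 (by norm_num) (by norm_num) (by linarith) (by norm_num) (by norm_num) (by norm_num) (by norm_num) (by norm_num) (by norm_num) (by norm_num) (by norm_num) (by norm_num) (by norm_num) (by norm_num) (by norm_num) (by norm_num) (by norm_num) (by norm_num) (by norm_num) (by norm_num) (by norm_num) (by norm_num) (by norm_num) (by norm_num)
    (cube_sqrt_geJ (s := 0.8235) (by norm_num) (by norm_num) (by norm_num) (by norm_num))
    (cube_sqrt_geJ (s := 0.939) (by norm_num) (by norm_num) (by norm_num) (by norm_num))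
    (by norm_num) (by norm_num) (by norm_num) (by norm_num) (by norm_num) (by norm_num) (by norm_num) (by norm_num) (by norm_num) (by norm_num) (by norm_num) (by norm_num) (by norm_num) (by norm_num) (by norm_num) (by norm_num) (by norm_num) (by norm_num)
    (exp_neg_leJ (r := 0.745) 6 (by norm_num) (by norm_num) (by norm_num) (by norm_num))
    (exp_neg_leJ (r := 0.574) 4 (by norm_num) (by norm_num) (by norm_num) (by norm_num))
    (exp_neg_leJ (r := 0.215) 10 (by norm_num) (by norm_num) (by norm_num) (by norm_num))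
    (exp_neg_leJ (r := 0.99) 14 (by norm_num) (by norm_num) (by norm_num) (by norm_num))
    (exp_neg_leJ (r := 0.735) 7 (by norm_num) (by norm_num) (by norm_num) (by norm_num))
    (exp_neg_leJ (r := 0.99) 14 (by norm_num) (by norm_num) (by norm_num) (by norm_num))
    (exp_neg_leJ (r := 0.99) 14 (by norm_num) (by norm_num) (by norm_num) (by norm_num))
    (exp_neg_leJ (r := 0.99) 14 (by norm_num) (by norm_num) (by norm_num) (by norm_num))
    (by norm_num)) (by norm_num) hN hβ.le (by norm_num)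

private theorem jo4_b2_2 {β x y : ℝ} (hβ : 0 < β) (hN : β * 10.526 ≤ 1) (hx1 : 0.965 ≤ x) (hx2 : x ≤ 1.158)
    (hy1 : -0.201 ≤ y) (hy2 : y ≤ -0.091) : ‖HH β (x + y * I) - 1‖ ≤ 0.08 := by
  refine le_epsJ (C := 0.8372) (N0 := 10.526) (J_boxp 0.965 1.158 0.201 0 (-0.091) 1.2468 1.1754 1.4722 0.8716 0.4841 3.2444 10.526 0.9428 3.746 1.537 0.7891 0.6233 0.4274 1.0213 2.799 0.7139 1.8361 2.9543 3.447 0.001417 0.01114 0.00002147 0.0000003101 0.0005456 0.0000003101 0.0000003101 0.0000003101 0.8372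
    hβ hN hx1 hx2 hy1 hy2 (by norm_num) (by norm_num) (by linarith) (by norm_num) (by norm_num) (by norm_num) (by norm_num) (by norm_num) (by norm_num) (by norm_num) (by norm_num) (by norm_num) (by norm_num) (by norm_num) (by norm_num) (by norm_num) (by norm_num) (by norm_num) (by norm_num) (by norm_num) (by norm_num) (by norm_num) (by norm_num) (by norm_num)
    (cube_sqrt_geJ (s := 0.828) (by norm_num) (by norm_num) (by norm_num) (by norm_num))
    (cube_sqrt_geJ (s := 0.9405) (by norm_num) (by norm_num) (by norm_num) (by norm_num))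
    (by norm_num) (by norm_num) (by norm_num) (by norm_num) (by norm_num) (by norm_num) (by norm_num) (by norm_num) (by norm_num) (by norm_num) (by norm_num) (by norm_num) (by norm_num) (by norm_num) (by norm_num) (by norm_num) (by norm_num) (by norm_num)
    (exp_neg_leJ (r := 0.56) 6 (by norm_num) (by norm_num) (by norm_num) (by norm_num))
    (exp_neg_leJ (r := 0.498) 4 (by norm_num) (by norm_num) (by norm_num) (by norm_num))
    (exp_neg_leJ (r := 0.75) 10 (by norm_num) (by norm_num) (by norm_num) (by norm_num))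
    (exp_neg_leJ (r := 0.99) 14 (by norm_num) (by norm_num) (by norm_num) (by norm_num))
    (exp_neg_leJ (r := 0.514) 7 (by norm_num) (by norm_num) (by norm_num) (by norm_num))
    (exp_neg_leJ (r := 0.99) 14 (by norm_num) (by norm_num) (by norm_num) (by norm_num))
    (exp_neg_leJ (r := 0.99) 14 (by norm_num) (by norm_num) (by norm_num) (by norm_num))
    (exp_neg_leJ (r := 0.99) 14 (by norm_num) (by norm_num) (by norm_num) (by norm_num))
    (by norm_num)) (by norm_num) hN hβ.le (by norm_num)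

private theorem jo4_b2_3 {β x y : ℝ} (hβ : 0 < β) (hN : β * 10.526 ≤ 1) (hx1 : 0.8607 ≤ x) (hx2 : x ≤ 1.0406)
    (hy1 : -0.091 ≤ y) (hy2 : y ≤ 0.039) : ‖HH β (x + y * I) - 1‖ ≤ 0.08 := by
  refine le_epsJ (C := 0.6171) (N0 := 10.526) (J_boxp 0.8607 1.0406 0.091 0.039 0.039 1.2514 1.0446 1.4705 0.8663 0.4838 3.2444 10.526 0.8348 3.132 1.459 0.9358 0.6256 0.4515 1.1592 3.2157 0.7193 1.6877 2.8774 3.4101 0.001382 0.008644 0.000005026 0.0000003101 0.0005154 0.0000003101 0.0000003101 0.0000003101 0.6171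
    hβ hN hx1 hx2 hy1 hy2 (by norm_num) (by norm_num) (by linarith) (by norm_num) (by norm_num) (by norm_num) (by norm_num) (by norm_num) (by norm_num) (by norm_num) (by norm_num) (by norm_num) (by norm_num) (by norm_num) (by norm_num) (by norm_num) (by norm_num) (by norm_num) (by norm_num) (by norm_num) (by norm_num) (by norm_num) (by norm_num) (by norm_num)
    (cube_sqrt_geJ (s := 0.8495) (by norm_num) (by norm_num) (by norm_num) (by norm_num))
    (cube_sqrt_geJ (s := 0.9475) (by norm_num) (by norm_num) (by norm_num) (by norm_num))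
    (by norm_num) (by norm_num) (by norm_num) (by norm_num) (by norm_num) (by norm_num) (by norm_num) (by norm_num) (by norm_num) (by norm_num) (by norm_num) (by norm_num) (by norm_num) (by norm_num) (by norm_num) (by norm_num) (by norm_num) (by norm_num)
    (exp_neg_leJ (r := 0.585) 6 (by norm_num) (by norm_num) (by norm_num) (by norm_num))
    (exp_neg_leJ (r := 0.752) 4 (by norm_num) (by norm_num) (by norm_num) (by norm_num))
    (exp_neg_leJ (r := 0.201) 12 (by norm_num) (by norm_num) (by norm_num) (by norm_num))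
    (exp_neg_leJ (r := 0.99) 14 (by norm_num) (by norm_num) (by norm_num) (by norm_num))
    (exp_neg_leJ (r := 0.571) 7 (by norm_num) (by norm_num) (by norm_num) (by norm_num))
    (exp_neg_leJ (r := 0.99) 14 (by norm_num) (by norm_num) (by norm_num) (by norm_num))
    (exp_neg_leJ (r := 0.99) 14 (by norm_num) (by norm_num) (by norm_num) (by norm_num))
    (exp_neg_leJ (r := 0.99) 14 (by norm_num) (by norm_num) (by norm_num) (by norm_num))
    (by norm_num)) (by norm_num) hN hβ.le (by norm_num)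

private theorem jo4_c2 {κ t β : ℝ} (h : DomR κ t) (hβ : 0 < β) (hk1 : 0.9 ≤ κ) (hk2 : κ ≤ 0.95)
    (ht1 : -0.5027 ≤ t + κ) (ht2 : t + κ ≤ 0.0786) (hR0 : β * 10 ≤ κ) (hR : β * (3.3 * (1 + κ ^ 2)) ≤ κ) :
    ‖HH β (sg κ t) - 1‖ ≤ 0.08 := by
  have hN : β * 10.526 ≤ 1 := bNR hβ h.1 hk2 hR0 (by norm_num)
  have hy1 : -0.286 ≤ sy κ t := syL_ge h 0.9 0.95 0.5027 0.286 0.75126 0.75127 0.223 0.22616 0.23874 hk1 hk2 (by linarith) (by norm_num) (by norm_num) (by norm_num)
    (expm_ge (by norm_num) (by norm_num) (by norm_num) (by norm_num)) (expm_le (by norm_num) (by norm_num) (by norm_num)) (by norm_num)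
    (by norm_num) (by norm_num) (by norm_num) (by norm_num) (by norm_num) (by norm_num)
  have hy2 : sy κ t ≤ 0.039 := syR_le h 0.9 0.95 0.0786 0.039 1.03977 0.042 0.04268 0.04506 hk1 hk2 (by linarith) (by norm_num) (by norm_num)
    (expn_ge (by norm_num) (by norm_num)) (by norm_num) (by norm_num) (Or.inr ((mul_le_mul_of_nonneg_left (expn_le (E := 1.03978) (by norm_num) (by norm_num) (by norm_num)) (by norm_num)).trans (by norm_num))) (by norm_num) (by norm_num) (by norm_num)
  rcases le_total (sy κ t) (-0.256) with f0 | g0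
  · have hx1 : 1.1268 ≤ sx κ t := sx_lo h 0.9 (-0.256) 0.286 1.29175 1.1268 hk1 (by norm_num) f0 (abs_le.2 ⟨by linarith, by linarith⟩) (by rw [neg_neg]; exact expn_ge (by norm_num) (by norm_num)) (by norm_num) (by norm_num)
    have hx2 : sx κ t ≤ 1.2384 := sx_hi h 0.95 (-0.286) 0.256 1.3311 1.2384 hk2 hy1 (by norm_num) (by rw [abs_of_nonpos (by linarith)]; linarith) (by rw [neg_neg]; exact expn_le (by norm_num) (by norm_num) (by norm_num)) (by norm_num) (by norm_num)
    exact jo4_b2_0 hβ hN hx1 hx2 (by linarith) (by linarith)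
  rcases le_total (sy κ t) (-0.201) with f1 | g1
  · have hx1 : 1.0701 ≤ sx κ t := sx_lo h 0.9 (-0.201) 0.256 1.22262 1.0701 hk1 (by norm_num) f1 (abs_le.2 ⟨by linarith, by linarith⟩) (by rw [neg_neg]; exact expn_ge (by norm_num) (by norm_num)) (by norm_num) (by norm_num)
    have hx2 : sx κ t ≤ 1.2106 := sx_hi h 0.95 (-0.256) 0.201 1.29176 1.2106 hk2 g0 (by norm_num) (by rw [abs_of_nonpos (by linarith)]; linarith) (by rw [neg_neg]; exact expn_le (by norm_num) (by norm_num) (by norm_num)) (by norm_num) (by norm_num)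
    exact jo4_b2_1 hβ hN hx1 hx2 (by linarith) (by linarith)
  rcases le_total (sy κ t) (-0.091) with f2 | g2
  · have hx1 : 0.965 ≤ sx κ t := sx_lo h 0.9 (-0.091) 0.201 1.09526 0.965 hk1 (by norm_num) f2 (abs_le.2 ⟨by linarith, by linarith⟩) (by rw [neg_neg]; exact expn_ge (by norm_num) (by norm_num)) (by norm_num) (by norm_num)
    have hx2 : sx κ t ≤ 1.158 := sx_hi h 0.95 (-0.201) 0.091 1.22263 1.158 hk2 g1 (by norm_num) (by rw [abs_of_nonpos (by linarith)]; linarith) (by rw [neg_neg]; exact expn_le (by norm_num) (by norm_num) (by norm_num)) (by norm_num) (by norm_num)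
    exact jo4_b2_2 hβ hN hx1 hx2 (by linarith) (by linarith)
  have hx1 : 0.8607 ≤ sx κ t := sx_lo h 0.9 0.039 0.091 0.96175 0.8607 hk1 (by norm_num) hy2 (abs_le.2 ⟨by linarith, by linarith⟩) (expm_ge (by norm_num) (by norm_num) (by norm_num) (by norm_num)) (by norm_num) (by norm_num)
  have hx2 : sx κ t ≤ 1.0406 := sx_hi h 0.95 (-0.091) 0 1.09527 1.0406 hk2 g2 (by norm_num) (abs_nonneg _) (by rw [neg_neg]; exact expn_le (by norm_num) (by norm_num) (by norm_num)) (by norm_num) (by norm_num)
  exact jo4_b2_3 hβ hN hx1 hx2 (by linarith) (by linarith)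

private theorem jo4_b3_0 {β x y : ℝ} (hβ : 0 < β) (hN : β * 9.999 ≤ 1) (hx1 : 1.2082 ≤ x) (hx2 : x ≤ 1.2987)
    (hy1 : -0.282 ≤ y) (hy2 : y ≤ -0.267) : ‖HH β (x + y * I) - 1‖ ≤ 0.08 := by
  refine le_epsJ (C := 0.7961) (N0 := 9.999) (J_boxp 1.2082 1.2987 0.282 0 (-0.267) 1.3605 1.329 1.4913 0.7696 0.4872 3.1622 9.999 0.9769 3.972 1.563 0.6603 0.6802 0.4587 0.9767 2.46 0.7878 2.1728 3.2205 3.5158 0.001115 0.0102 0.00005744 0.0000003101 0.0003802 0.0000003101 0.0000003101 0.0000003101 0.7961
    hβ hN hx1 hx2 hy1 hy2 (by norm_num) (by norm_num) (by linarith) (by norm_num) (by norm_num) (by norm_num) (by norm_num) (by norm_num) (by norm_num) (by norm_num) (by norm_num) (by norm_num) (by norm_num) (by norm_num) (by norm_num) (by norm_num) (by norm_num) (by norm_num) (by norm_num) (by norm_num) (by norm_num) (by norm_num) (by norm_num) (by norm_num)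
    (cube_sqrt_geJ (s := 0.8211) (by norm_num) (by norm_num) (by norm_num) (by norm_num))
    (cube_sqrt_geJ (s := 0.9382) (by norm_num) (by norm_num) (by norm_num) (by norm_num))
    (by norm_num) (by norm_num) (by norm_num) (by norm_num) (by norm_num) (by norm_num) (by norm_num) (by norm_num) (by norm_num) (by norm_num) (by norm_num) (by norm_num) (by norm_num) (by norm_num) (by norm_num) (by norm_num) (by norm_num) (by norm_num)
    (exp_neg_leJ (r := 0.801) 6 (by norm_num) (by norm_num) (by norm_num) (by norm_num))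
    (exp_neg_leJ (r := 0.586) 4 (by norm_num) (by norm_num) (by norm_num) (by norm_num))
    (exp_neg_leJ (r := 0.766) 9 (by norm_num) (by norm_num) (by norm_num) (by norm_num))
    (exp_neg_leJ (r := 0.99) 14 (by norm_num) (by norm_num) (by norm_num) (by norm_num))
    (exp_neg_leJ (r := 0.877) 7 (by norm_num) (by norm_num) (by norm_num) (by norm_num))
    (exp_neg_leJ (r := 0.99) 14 (by norm_num) (by norm_num) (by norm_num) (by norm_num))
    (exp_neg_leJ (r := 0.99) 14 (by norm_num) (by norm_num) (by norm_num) (by norm_num))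
    (exp_neg_leJ (r := 0.99) 14 (by norm_num) (by norm_num) (by norm_num) (by norm_num))
    (by norm_num)) (by norm_num) hN hβ.le (by norm_num)

private theorem jo4_b3_1 {β x y : ℝ} (hβ : 0 < β) (hN : β * 9.999 ≤ 1) (hx1 : 1.1802 ≤ x) (hx2 : x ≤ 1.2835)
    (hy1 : -0.267 ≤ y) (hy2 : y ≤ -0.242) : ‖HH β (x + y * I) - 1‖ ≤ 0.08 := by
  refine le_epsJ (C := 0.7915) (N0 := 9.999) (J_boxp 1.1802 1.2835 0.267 0 (-0.242) 1.3515 1.311 1.4907 0.7771 0.4871 3.1622 9.999 0.9701 3.925 1.557 0.68 0.6757 0.4572 0.9908 2.5166 0.7824 2.1341 3.2053 3.5088 0.001166 0.01036 0.00004995 0.0000003101 0.0004011 0.0000003101 0.0000003101 0.0000003101 0.7915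
    hβ hN hx1 hx2 hy1 hy2 (by norm_num) (by norm_num) (by linarith) (by norm_num) (by norm_num) (by norm_num) (by norm_num) (by norm_num) (by norm_num) (by norm_num) (by norm_num) (by norm_num) (by norm_num) (by norm_num) (by norm_num) (by norm_num) (by norm_num) (by norm_num) (by norm_num) (by norm_num) (by norm_num) (by norm_num) (by norm_num) (by norm_num)
    (cube_sqrt_geJ (s := 0.8225) (by norm_num) (by norm_num) (by norm_num) (by norm_num))
    (cube_sqrt_geJ (s := 0.9387) (by norm_num) (by norm_num) (by norm_num) (by norm_num))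
    (by norm_num) (by norm_num) (by norm_num) (by norm_num) (by norm_num) (by norm_num) (by norm_num) (by norm_num) (by norm_num) (by norm_num) (by norm_num) (by norm_num) (by norm_num) (by norm_num) (by norm_num) (by norm_num) (by norm_num) (by norm_num)
    (exp_neg_leJ (r := 0.756) 6 (by norm_num) (by norm_num) (by norm_num) (by norm_num))
    (exp_neg_leJ (r := 0.571) 4 (by norm_num) (by norm_num) (by norm_num) (by norm_num))
    (exp_neg_leJ (r := 0.907) 9 (by norm_num) (by norm_num) (by norm_num) (by norm_num))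
    (exp_neg_leJ (r := 0.99) 14 (by norm_num) (by norm_num) (by norm_num) (by norm_num))
    (exp_neg_leJ (r := 0.823) 7 (by norm_num) (by norm_num) (by norm_num) (by norm_num))
    (exp_neg_leJ (r := 0.99) 14 (by norm_num) (by norm_num) (by norm_num) (by norm_num))
    (exp_neg_leJ (r := 0.99) 14 (by norm_num) (by norm_num) (by norm_num) (by norm_num))
    (exp_neg_leJ (r := 0.99) 14 (by norm_num) (by norm_num) (by norm_num) (by norm_num))
    (by norm_num)) (by norm_num) hN hβ.le (by norm_num)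

private theorem jo4_b3_2 {β x y : ℝ} (hβ : 0 < β) (hN : β * 9.999 ≤ 1) (hx1 : 1.1312 ≤ x) (hx2 : x ≤ 1.2585)
    (hy1 : -0.242 ≤ y) (hy2 : y ≤ -0.197) : ‖HH β (x + y * I) - 1‖ ≤ 0.08 := by
  refine le_epsJ (C := 0.7907) (N0 := 9.999) (J_boxp 1.1312 1.2585 0.242 0 (-0.197) 1.3347 1.2816 1.4929 0.7924 0.4875 3.1622 9.999 0.9603 3.859 1.55 0.7126 0.6673 0.4537 1.0135 2.6107 0.7722 2.0662 3.1752 3.4907 0.001267 0.01072 0.00003975 0.0000003101 0.0004439 0.0000003101 0.0000003101 0.0000003101 0.7907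
    hβ hN hx1 hx2 hy1 hy2 (by norm_num) (by norm_num) (by linarith) (by norm_num) (by norm_num) (by norm_num) (by norm_num) (by norm_num) (by norm_num) (by norm_num) (by norm_num) (by norm_num) (by norm_num) (by norm_num) (by norm_num) (by norm_num) (by norm_num) (by norm_num) (by norm_num) (by norm_num) (by norm_num) (by norm_num) (by norm_num) (by norm_num)
    (cube_sqrt_geJ (s := 0.8245) (by norm_num) (by norm_num) (by norm_num) (by norm_num))
    (cube_sqrt_geJ (s := 0.9393) (by norm_num) (by norm_num) (by norm_num) (by norm_num))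
    (by norm_num) (by norm_num) (by norm_num) (by norm_num) (by norm_num) (by norm_num) (by norm_num) (by norm_num) (by norm_num) (by norm_num) (by norm_num) (by norm_num) (by norm_num) (by norm_num) (by norm_num) (by norm_num) (by norm_num) (by norm_num)
    (exp_neg_leJ (r := 0.672) 6 (by norm_num) (by norm_num) (by norm_num) (by norm_num))
    (exp_neg_leJ (r := 0.536) 4 (by norm_num) (by norm_num) (by norm_num) (by norm_num))
    (exp_neg_leJ (r := 0.133) 10 (by norm_num) (by norm_num) (by norm_num) (by norm_num))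
    (exp_neg_leJ (r := 0.99) 14 (by norm_num) (by norm_num) (by norm_num) (by norm_num))
    (exp_neg_leJ (r := 0.721) 7 (by norm_num) (by norm_num) (by norm_num) (by norm_num))
    (exp_neg_leJ (r := 0.99) 14 (by norm_num) (by norm_num) (by norm_num) (by norm_num))
    (exp_neg_leJ (r := 0.99) 14 (by norm_num) (by norm_num) (by norm_num) (by norm_num))
    (exp_neg_leJ (r := 0.99) 14 (by norm_num) (by norm_num) (by norm_num) (by norm_num))
    (by norm_num)) (by norm_num) hN hβ.le (by norm_num)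

private theorem jo4_b3_3 {β x y : ℝ} (hβ : 0 < β) (hN : β * 9.999 ≤ 1) (hx1 : 1.0441 ≤ x) (hx2 : x ≤ 1.2126)
    (hy1 : -0.197 ≤ y) (hy2 : y ≤ -0.112) : ‖HH β (x + y * I) - 1‖ ≤ 0.08 := by
  refine le_epsJ (C := 0.788) (N0 := 9.999) (J_boxp 1.0441 1.2126 0.197 0 (-0.112) 1.3053 1.2285 1.503 0.8221 0.4891 3.1622 9.999 0.9412 3.735 1.536 0.7718 0.6526 0.4478 1.0547 2.7804 0.7545 1.9456 3.1233 3.4608 0.001467 0.01137 0.00002634 0.0000003101 0.0005295 0.0000003101 0.0000003101 0.0000003101 0.788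
    hβ hN hx1 hx2 hy1 hy2 (by norm_num) (by norm_num) (by linarith) (by norm_num) (by norm_num) (by norm_num) (by norm_num) (by norm_num) (by norm_num) (by norm_num) (by norm_num) (by norm_num) (by norm_num) (by norm_num) (by norm_num) (by norm_num) (by norm_num) (by norm_num) (by norm_num) (by norm_num) (by norm_num) (by norm_num) (by norm_num) (by norm_num)
    (cube_sqrt_geJ (s := 0.8284) (by norm_num) (by norm_num) (by norm_num) (by norm_num))
    (cube_sqrt_geJ (s := 0.9406) (by norm_num) (by norm_num) (by norm_num) (by norm_num))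
    (by norm_num) (by norm_num) (by norm_num) (by norm_num) (by norm_num) (by norm_num) (by norm_num) (by norm_num) (by norm_num) (by norm_num) (by norm_num) (by norm_num) (by norm_num) (by norm_num) (by norm_num) (by norm_num) (by norm_num) (by norm_num)
    (exp_neg_leJ (r := 0.525) 6 (by norm_num) (by norm_num) (by norm_num) (by norm_num))
    (exp_neg_leJ (r := 0.477) 4 (by norm_num) (by norm_num) (by norm_num) (by norm_num))
    (exp_neg_leJ (r := 0.545) 10 (by norm_num) (by norm_num) (by norm_num) (by norm_num))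
    (exp_neg_leJ (r := 0.99) 14 (by norm_num) (by norm_num) (by norm_num) (by norm_num))
    (exp_neg_leJ (r := 0.544) 7 (by norm_num) (by norm_num) (by norm_num) (by norm_num))
    (exp_neg_leJ (r := 0.99) 14 (by norm_num) (by norm_num) (by norm_num) (by norm_num))
    (exp_neg_leJ (r := 0.99) 14 (by norm_num) (by norm_num) (by norm_num) (by norm_num))
    (exp_neg_leJ (r := 0.99) 14 (by norm_num) (by norm_num) (by norm_num) (by norm_num))
    (by norm_num)) (by norm_num) hN hβ.le (by norm_num)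

private theorem jo4_b3_4 {β x y : ℝ} (hβ : 0 < β) (hN : β * 9.999 ≤ 1) (hx1 : 0.9067 ≤ x) (hx2 : x ≤ 1.1186)
    (hy1 : -0.112 ≤ y) (hy2 : y ≤ 0.039) : ‖HH β (x + y * I) - 1‖ ≤ 0.08 := by
  refine le_epsJ (C := 0.7252) (N0 := 9.999) (J_boxp 0.9067 1.1186 0.112 0.039 0.039 1.2689 1.1242 1.5267 0.8645 0.493 3.1622 9.999 0.886 3.405 1.495 0.8865 0.6344 0.447 1.1418 3.1043 0.7302 1.7514 2.9123 3.2858 0.00176 0.01147 0.00001102 0.0000003101 0.0006749 0.0000003101 0.0000003101 0.0000003101 0.7252
    hβ hN hx1 hx2 hy1 hy2 (by norm_num) (by norm_num) (by linarith) (by norm_num) (by norm_num) (by norm_num) (by norm_num) (by norm_num) (by norm_num) (by norm_num) (by norm_num) (by norm_num) (by norm_num) (by norm_num) (by norm_num) (by norm_num) (by norm_num) (by norm_num) (by norm_num) (by norm_num) (by norm_num) (by norm_num) (by norm_num) (by norm_num)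
    (cube_sqrt_geJ (s := 0.8394) (by norm_num) (by norm_num) (by norm_num) (by norm_num))
    (cube_sqrt_geJ (s := 0.9442) (by norm_num) (by norm_num) (by norm_num) (by norm_num))
    (by norm_num) (by norm_num) (by norm_num) (by norm_num) (by norm_num) (by norm_num) (by norm_num) (by norm_num) (by norm_num) (by norm_num) (by norm_num) (by norm_num) (by norm_num) (by norm_num) (by norm_num) (by norm_num) (by norm_num) (by norm_num)
    (exp_neg_leJ (r := 0.343) 6 (by norm_num) (by norm_num) (by norm_num) (by norm_num))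
    (exp_neg_leJ (r := 0.469) 4 (by norm_num) (by norm_num) (by norm_num) (by norm_num))
    (exp_neg_leJ (r := 0.416) 11 (by norm_num) (by norm_num) (by norm_num) (by norm_num))
    (exp_neg_leJ (r := 0.99) 14 (by norm_num) (by norm_num) (by norm_num) (by norm_num))
    (exp_neg_leJ (r := 0.301) 7 (by norm_num) (by norm_num) (by norm_num) (by norm_num))
    (exp_neg_leJ (r := 0.99) 14 (by norm_num) (by norm_num) (by norm_num) (by norm_num))
    (exp_neg_leJ (r := 0.99) 14 (by norm_num) (by norm_num) (by norm_num) (by norm_num))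
    (exp_neg_leJ (r := 0.99) 14 (by norm_num) (by norm_num) (by norm_num) (by norm_num))
    (by norm_num)) (by norm_num) hN hβ.le (by norm_num)

private theorem jo4_c3 {κ t β : ℝ} (h : DomR κ t) (hβ : 0 < β) (hk1 : 0.95 ≤ κ) (hk2 : κ ≤ 1)
    (ht1 : -0.5027 ≤ t + κ) (ht2 : t + κ ≤ 0.0786) (hR0 : β * 10 ≤ κ) (hR : β * (3.3 * (1 + κ ^ 2)) ≤ κ) :
    ‖HH β (sg κ t) - 1‖ ≤ 0.08 := by
  have hN : β * 9.999 ≤ 1 := bNR hβ h.1 hk2 hR0 (by norm_num)
  have hy1 : -0.282 ≤ sy κ t := syL_ge h 0.95 1 0.5027 0.282 0.75427 0.75428 0.2155 0.2127 0.22391 hk1 hk2 (by linarith) (by norm_num) (by norm_num) (by norm_num)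
    (expm_ge (by norm_num) (by norm_num) (by norm_num) (by norm_num)) (expm_le (by norm_num) (by norm_num) (by norm_num)) (by norm_num)
    (by norm_num) (by norm_num) (by norm_num) (by norm_num) (by norm_num) (by norm_num)
  have hy2 : sy κ t ≤ 0.039 := syR_le h 0.95 1 0.0786 0.039 1.03977 0.04 0.04055 0.04269 hk1 hk2 (by linarith) (by norm_num) (by norm_num)
    (expn_ge (by norm_num) (by norm_num)) (by norm_num) (by norm_num) (Or.inr ((mul_le_mul_of_nonneg_left (expn_le (E := 1.03978) (by norm_num) (by norm_num) (by norm_num)) (by norm_num)).trans (by norm_num))) (by norm_num) (by norm_num) (by norm_num)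
  rcases le_total (sy κ t) (-0.267) with f0 | g0
  · have hx1 : 1.2082 ≤ sx κ t := sx_lo h 0.95 (-0.267) 0.282 1.30604 1.2082 hk1 (by norm_num) f0 (abs_le.2 ⟨by linarith, by linarith⟩) (by rw [neg_neg]; exact expn_ge (by norm_num) (by norm_num)) (by norm_num) (by norm_num)
    have hx2 : sx κ t ≤ 1.2987 := sx_hi h 1 (-0.282) 0.267 1.32578 1.2987 hk2 hy1 (by norm_num) (by rw [abs_of_nonpos (by linarith)]; linarith) (by rw [neg_neg]; exact expn_le (by norm_num) (by norm_num) (by norm_num)) (by norm_num) (by norm_num)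
    exact jo4_b3_0 hβ hN hx1 hx2 (by linarith) (by linarith)
  rcases le_total (sy κ t) (-0.242) with f1 | g1
  · have hx1 : 1.1802 ≤ sx κ t := sx_lo h 0.95 (-0.242) 0.267 1.27379 1.1802 hk1 (by norm_num) f1 (abs_le.2 ⟨by linarith, by linarith⟩) (by rw [neg_neg]; exact expn_ge (by norm_num) (by norm_num)) (by norm_num) (by norm_num)
    have hx2 : sx κ t ≤ 1.2835 := sx_hi h 1 (-0.267) 0.242 1.30605 1.2835 hk2 g0 (by norm_num) (by rw [abs_of_nonpos (by linarith)]; linarith) (by rw [neg_neg]; exact expn_le (by norm_num) (by norm_num) (by norm_num)) (by norm_num) (by norm_num)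
    exact jo4_b3_1 hβ hN hx1 hx2 (by linarith) (by linarith)
  rcases le_total (sy κ t) (-0.197) with f2 | g2
  · have hx1 : 1.1312 ≤ sx κ t := sx_lo h 0.95 (-0.197) 0.242 1.21774 1.1312 hk1 (by norm_num) f2 (abs_le.2 ⟨by linarith, by linarith⟩) (by rw [neg_neg]; exact expn_ge (by norm_num) (by norm_num)) (by norm_num) (by norm_num)
    have hx2 : sx κ t ≤ 1.2585 := sx_hi h 1 (-0.242) 0.197 1.2738 1.2585 hk2 g1 (by norm_num) (by rw [abs_of_nonpos (by linarith)]; linarith) (by rw [neg_neg]; exact expn_le (by norm_num) (by norm_num) (by norm_num)) (by norm_num) (by norm_num)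
    exact jo4_b3_2 hβ hN hx1 hx2 (by linarith) (by linarith)
  rcases le_total (sy κ t) (-0.112) with f3 | g3
  · have hx1 : 1.0441 ≤ sx κ t := sx_lo h 0.95 (-0.112) 0.197 1.11851 1.0441 hk1 (by norm_num) f3 (abs_le.2 ⟨by linarith, by linarith⟩) (by rw [neg_neg]; exact expn_ge (by norm_num) (by norm_num)) (by norm_num) (by norm_num)
    have hx2 : sx κ t ≤ 1.2126 := sx_hi h 1 (-0.197) 0.112 1.21775 1.2126 hk2 g2 (by norm_num) (by rw [abs_of_nonpos (by linarith)]; linarith) (by rw [neg_neg]; exact expn_le (by norm_num) (by norm_num) (by norm_num)) (by norm_num) (by norm_num)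
    exact jo4_b3_3 hβ hN hx1 hx2 (by linarith) (by linarith)
  have hx1 : 0.9067 ≤ sx κ t := sx_lo h 0.95 0.039 0.112 0.96175 0.9067 hk1 (by norm_num) hy2 (abs_le.2 ⟨by linarith, by linarith⟩) (expm_ge (by norm_num) (by norm_num) (by norm_num) (by norm_num)) (by norm_num) (by norm_num)
  have hx2 : sx κ t ≤ 1.1186 := sx_hi h 1 (-0.112) 0 1.11852 1.1186 hk2 g3 (by norm_num) (abs_nonneg _) (by rw [neg_neg]; exact expn_le (by norm_num) (by norm_num) (by norm_num)) (by norm_num) (by norm_num)
  exact jo4_b3_4 hβ hN hx1 hx2 (by linarith) (by linarith)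

theorem jo4 {κ t β : ℝ} (h : DomR κ t) (hβ : 0 < β) (hk1 : 0.8 ≤ κ) (hk2 : κ ≤ 1)
    (ht1 : -0.5027 ≤ t + κ) (ht2 : t + κ ≤ 0.0786) (hR0 : β * 10 ≤ κ) (hR : β * (3.3 * (1 + κ ^ 2)) ≤ κ) :
    ‖HH β (sg κ t) - 1‖ ≤ 0.08 := by
  rcases le_total κ 0.85 with f0 | g0
  · exact jo4_c0 h hβ hk1 f0 ht1 ht2 hR0 hR
  rcases le_total κ 0.9 with f1 | g1
  · exact jo4_c1 h hβ g0 f1 ht1 ht2 hR0 hR
  rcases le_total κ 0.95 with f2 | g2
  · exact jo4_c2 h hβ g1 f2 ht1 ht2 hR0 hR
  exact jo4_c3 h hβ g2 hk2 ht1 ht2 hR0 hR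

private theorem jo5_b0_0 {β x y : ℝ} (hβ : 0 < β) (hN : β * 9.523 ≤ 1) (hx1 : 1.2509 ≤ x) (hx2 : x ≤ 1.3642)
    (hy1 : -0.278 ≤ y) (hy2 : y ≤ -0.248) : ‖HH β (x + y * I) - 1‖ ≤ 0.09 := by
  refine le_epsJ (C := 0.8442) (N0 := 9.523) (J_boxp 1.2509 1.3642 0.278 0 (-0.248) 1.3934 1.3923 1.5578 0.7589 0.498 3.086 9.523 0.9993 4.129 1.58 0.6388 0.6966 0.4646 0.9976 2.4352 0.8107 2.232 3.3168 3.4292 0.001317 0.01199 0.00007487 0.0000003101 0.0004443 0.0000003101 0.0000003101 0.0000003101 0.8442
    hβ hN hx1 hx2 hy1 hy2 (by norm_num) (by norm_num) (by linarith) (by norm_num) (by norm_num) (by norm_num) (by norm_num) (by norm_num) (by norm_num) (by norm_num) (by norm_num) (by norm_num) (by norm_num) (by norm_num) (by norm_num) (by norm_num) (by norm_num) (by norm_num) (by norm_num) (by norm_num) (by norm_num) (by norm_num) (by norm_num) (by norm_num)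
    (cube_sqrt_geJ (s := 0.8166) (by norm_num) (by norm_num) (by norm_num) (by norm_num))
    (cube_sqrt_geJ (s := 0.9368) (by norm_num) (by norm_num) (by norm_num) (by norm_num))
    (by norm_num) (by norm_num) (by norm_num) (by norm_num) (by norm_num) (by norm_num) (by norm_num) (by norm_num) (by norm_num) (by norm_num) (by norm_num) (by norm_num) (by norm_num) (by norm_num) (by norm_num) (by norm_num) (by norm_num) (by norm_num)
    (exp_neg_leJ (r := 0.633) 6 (by norm_num) (by norm_num) (by norm_num) (by norm_num))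
    (exp_neg_leJ (r := 0.424) 4 (by norm_num) (by norm_num) (by norm_num) (by norm_num))
    (exp_neg_leJ (r := 0.5) 9 (by norm_num) (by norm_num) (by norm_num) (by norm_num))
    (exp_neg_leJ (r := 0.99) 14 (by norm_num) (by norm_num) (by norm_num) (by norm_num))
    (exp_neg_leJ (r := 0.72) 7 (by norm_num) (by norm_num) (by norm_num) (by norm_num))
    (exp_neg_leJ (r := 0.99) 14 (by norm_num) (by norm_num) (by norm_num) (by norm_num))
    (exp_neg_leJ (r := 0.99) 14 (by norm_num) (by norm_num) (by norm_num) (by norm_num))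
    (exp_neg_leJ (r := 0.99) 14 (by norm_num) (by norm_num) (by norm_num) (by norm_num))
    (by norm_num)) (by norm_num) hN hβ.le (by norm_num)

private theorem jo5_b0_1 {β x y : ℝ} (hβ : 0 < β) (hN : β * 9.523 ≤ 1) (hx1 : 1.1872 ≤ x) (hx2 : x ≤ 1.3317)
    (hy1 : -0.248 ≤ y) (hy2 : y ≤ -0.193) : ‖HH β (x + y * I) - 1‖ ≤ 0.09 := by
  refine le_epsJ (C := 0.8488) (N0 := 9.523) (J_boxp 1.1872 1.3317 0.248 0 (-0.193) 1.3699 1.3546 1.5572 0.7783 0.4979 3.086 9.523 0.9889 4.055 1.572 0.679 0.6849 0.4591 1.0232 2.5496 0.7961 2.1438 3.2709 3.4042 0.001472 0.01263 0.00005877 0.0000003101 0.0005103 0.0000003101 0.0000003101 0.0000003101 0.8488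
    hβ hN hx1 hx2 hy1 hy2 (by norm_num) (by norm_num) (by linarith) (by norm_num) (by norm_num) (by norm_num) (by norm_num) (by norm_num) (by norm_num) (by norm_num) (by norm_num) (by norm_num) (by norm_num) (by norm_num) (by norm_num) (by norm_num) (by norm_num) (by norm_num) (by norm_num) (by norm_num) (by norm_num) (by norm_num) (by norm_num) (by norm_num)
    (cube_sqrt_geJ (s := 0.8187) (by norm_num) (by norm_num) (by norm_num) (by norm_num))
    (cube_sqrt_geJ (s := 0.9375) (by norm_num) (by norm_num) (by norm_num) (by norm_num))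
    (by norm_num) (by norm_num) (by norm_num) (by norm_num) (by norm_num) (by norm_num) (by norm_num) (by norm_num) (by norm_num) (by norm_num) (by norm_num) (by norm_num) (by norm_num) (by norm_num) (by norm_num) (by norm_num) (by norm_num) (by norm_num)
    (exp_neg_leJ (r := 0.522) 6 (by norm_num) (by norm_num) (by norm_num) (by norm_num))
    (exp_neg_leJ (r := 0.372) 4 (by norm_num) (by norm_num) (by norm_num) (by norm_num))
    (exp_neg_leJ (r := 0.743) 9 (by norm_num) (by norm_num) (by norm_num) (by norm_num))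
    (exp_neg_leJ (r := 0.99) 14 (by norm_num) (by norm_num) (by norm_num) (by norm_num))
    (exp_neg_leJ (r := 0.581) 7 (by norm_num) (by norm_num) (by norm_num) (by norm_num))
    (exp_neg_leJ (r := 0.99) 14 (by norm_num) (by norm_num) (by norm_num) (by norm_num))
    (exp_neg_leJ (r := 0.99) 14 (by norm_num) (by norm_num) (by norm_num) (by norm_num))
    (exp_neg_leJ (r := 0.99) 14 (by norm_num) (by norm_num) (by norm_num) (by norm_num))
    (by norm_num)) (by norm_num) hN hβ.le (by norm_num)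

private theorem jo5_b0_2 {β x y : ℝ} (hβ : 0 < β) (hN : β * 9.523 ≤ 1) (hx1 : 1.0747 ≤ x) (hx2 : x ≤ 1.2705)
    (hy1 : -0.193 ≤ y) (hy2 : y ≤ -0.088) : ‖HH β (x + y * I) - 1‖ ≤ 0.09 := by
  refine le_epsJ (C := 0.8507) (N0 := 9.523) (J_boxp 1.0747 1.2705 0.193 0 (-0.088) 1.3297 1.2851 1.564 0.8157 0.499 3.086 9.523 0.9665 3.901 1.555 0.7533 0.6648 0.4506 1.0715 2.7598 0.7715 1.988 3.1954 3.3682 0.001783 0.0137 0.00003706 0.0000003101 0.0006452 0.0000003101 0.0000003101 0.0000003101 0.8507
    hβ hN hx1 hx2 hy1 hy2 (by norm_num) (by norm_num) (by linarith) (by norm_num) (by norm_num) (by norm_num) (by norm_num) (by norm_num) (by norm_num) (by norm_num) (by norm_num) (by norm_num) (by norm_num) (by norm_num) (by norm_num) (by norm_num) (by norm_num) (by norm_num) (by norm_num) (by norm_num) (by norm_num) (by norm_num) (by norm_num) (by norm_num)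
    (cube_sqrt_geJ (s := 0.8233) (by norm_num) (by norm_num) (by norm_num) (by norm_num))
    (cube_sqrt_geJ (s := 0.9389) (by norm_num) (by norm_num) (by norm_num) (by norm_num))
    (by norm_num) (by norm_num) (by norm_num) (by norm_num) (by norm_num) (by norm_num) (by norm_num) (by norm_num) (by norm_num) (by norm_num) (by norm_num) (by norm_num) (by norm_num) (by norm_num) (by norm_num) (by norm_num) (by norm_num) (by norm_num)
    (exp_neg_leJ (r := 0.33) 6 (by norm_num) (by norm_num) (by norm_num) (by norm_num))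
    (exp_neg_leJ (r := 0.291) 4 (by norm_num) (by norm_num) (by norm_num) (by norm_num))
    (exp_neg_leJ (r := 0.203) 10 (by norm_num) (by norm_num) (by norm_num) (by norm_num))
    (exp_neg_leJ (r := 0.99) 14 (by norm_num) (by norm_num) (by norm_num) (by norm_num))
    (exp_neg_leJ (r := 0.346) 7 (by norm_num) (by norm_num) (by norm_num) (by norm_num))
    (exp_neg_leJ (r := 0.99) 14 (by norm_num) (by norm_num) (by norm_num) (by norm_num))
    (exp_neg_leJ (r := 0.99) 14 (by norm_num) (by norm_num) (by norm_num) (by norm_num))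
    (exp_neg_leJ (r := 0.99) 14 (by norm_num) (by norm_num) (by norm_num) (by norm_num))
    (by norm_num)) (by norm_num) hN hβ.le (by norm_num)

private theorem jo5_b0_3 {β x y : ℝ} (hβ : 0 < β) (hN : β * 9.523 ≤ 1) (hx1 : 0.9577 ≤ x) (hx2 : x ≤ 1.1466)
    (hy1 : -0.088 ≤ y) (hy2 : y ≤ 0.039) : ‖HH β (x + y * I) - 1‖ ≤ 0.09 := by
  refine le_epsJ (C := 0.6602) (N0 := 9.523) (J_boxp 0.9577 1.1466 0.088 0.039 0.039 1.3219 1.15 1.5474 0.8185 0.4963 3.086 9.523 0.87 3.316 1.484 0.8978 0.6609 0.4692 1.1972 3.164 0.7681 1.822 3.0796 3.3176 0.00185 0.01148 0.0000112 0.0000003101 0.0006662 0.0000003101 0.0000003101 0.0000003101 0.6602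
    hβ hN hx1 hx2 hy1 hy2 (by norm_num) (by norm_num) (by linarith) (by norm_num) (by norm_num) (by norm_num) (by norm_num) (by norm_num) (by norm_num) (by norm_num) (by norm_num) (by norm_num) (by norm_num) (by norm_num) (by norm_num) (by norm_num) (by norm_num) (by norm_num) (by norm_num) (by norm_num) (by norm_num) (by norm_num) (by norm_num) (by norm_num)
    (cube_sqrt_geJ (s := 0.8426) (by norm_num) (by norm_num) (by norm_num) (by norm_num))
    (cube_sqrt_geJ (s := 0.9452) (by norm_num) (by norm_num) (by norm_num) (by norm_num))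
    (by norm_num) (by norm_num) (by norm_num) (by norm_num) (by norm_num) (by norm_num) (by norm_num) (by norm_num) (by norm_num) (by norm_num) (by norm_num) (by norm_num) (by norm_num) (by norm_num) (by norm_num) (by norm_num) (by norm_num) (by norm_num)
    (exp_neg_leJ (r := 0.293) 6 (by norm_num) (by norm_num) (by norm_num) (by norm_num))
    (exp_neg_leJ (r := 0.468) 4 (by norm_num) (by norm_num) (by norm_num) (by norm_num))
    (exp_neg_leJ (r := 0.4) 11 (by norm_num) (by norm_num) (by norm_num) (by norm_num))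
    (exp_neg_leJ (r := 0.99) 14 (by norm_num) (by norm_num) (by norm_num) (by norm_num))
    (exp_neg_leJ (r := 0.314) 7 (by norm_num) (by norm_num) (by norm_num) (by norm_num))
    (exp_neg_leJ (r := 0.99) 14 (by norm_num) (by norm_num) (by norm_num) (by norm_num))
    (exp_neg_leJ (r := 0.99) 14 (by norm_num) (by norm_num) (by norm_num) (by norm_num))
    (exp_neg_leJ (r := 0.99) 14 (by norm_num) (by norm_num) (by norm_num) (by norm_num))
    (by norm_num)) (by norm_num) hN hβ.le (by norm_num)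

private theorem jo5_c0 {κ t β : ℝ} (h : DomR κ t) (hβ : 0 < β) (hk1 : 1 ≤ κ) (hk2 : κ ≤ 1.05)
    (ht1 : -0.5027 ≤ t + κ) (ht2 : t + κ ≤ 0.0786) (hR0 : β * 10 ≤ κ) (hR : β * (3.3 * (1 + κ ^ 2)) ≤ κ) :
    ‖HH β (sg κ t) - 1‖ ≤ 0.09 := by
  have hN : β * 9.523 ≤ 1 := bNR hβ h.1 hk2 hR0 (by norm_num)
  have hy1 : -0.278 ≤ sy κ t := syL_ge h 1 1.05 0.5027 0.278 0.75729 0.7573 0.2063 0.2005 0.21053 hk1 hk2 (by linarith) (by norm_num) (by norm_num) (by norm_num)
    (expm_ge (by norm_num) (by norm_num) (by norm_num) (by norm_num)) (expm_le (by norm_num) (by norm_num) (by norm_num)) (by norm_num)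
    (by norm_num) (by norm_num) (by norm_num) (by norm_num) (by norm_num) (by norm_num)
  have hy2 : sy κ t ≤ 0.039 := syR_le h 1 1.05 0.0786 0.039 1.03977 0.0381 0.03862 0.04056 hk1 hk2 (by linarith) (by norm_num) (by norm_num)
    (expn_ge (by norm_num) (by norm_num)) (by norm_num) (by norm_num) (Or.inr ((mul_le_mul_of_nonneg_left (expn_le (E := 1.03978) (by norm_num) (by norm_num) (by norm_num)) (by norm_num)).trans (by norm_num))) (by norm_num) (by norm_num) (by norm_num)
  rcases le_total (sy κ t) (-0.248) with f0 | g0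
  · have hx1 : 1.2509 ≤ sx κ t := sx_lo h 1 (-0.248) 0.278 1.28145 1.2509 hk1 (by norm_num) f0 (abs_le.2 ⟨by linarith, by linarith⟩) (by rw [neg_neg]; exact expn_ge (by norm_num) (by norm_num)) (by norm_num) (by norm_num)
    have hx2 : sx κ t ≤ 1.3642 := sx_hi h 1.05 (-0.278) 0.248 1.32049 1.3642 hk2 hy1 (by norm_num) (by rw [abs_of_nonpos (by linarith)]; linarith) (by rw [neg_neg]; exact expn_le (by norm_num) (by norm_num) (by norm_num)) (by norm_num) (by norm_num)
    exact jo5_b0_0 hβ hN hx1 hx2 (by linarith) (by linarith)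
  rcases le_total (sy κ t) (-0.193) with f1 | g1
  · have hx1 : 1.1872 ≤ sx κ t := sx_lo h 1 (-0.193) 0.248 1.21288 1.1872 hk1 (by norm_num) f1 (abs_le.2 ⟨by linarith, by linarith⟩) (by rw [neg_neg]; exact expn_ge (by norm_num) (by norm_num)) (by norm_num) (by norm_num)
    have hx2 : sx κ t ≤ 1.3317 := sx_hi h 1.05 (-0.248) 0.193 1.28146 1.3317 hk2 g0 (by norm_num) (by rw [abs_of_nonpos (by linarith)]; linarith) (by rw [neg_neg]; exact expn_le (by norm_num) (by norm_num) (by norm_num)) (by norm_num) (by norm_num)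
    exact jo5_b0_1 hβ hN hx1 hx2 (by linarith) (by linarith)
  rcases le_total (sy κ t) (-0.088) with f2 | g2
  · have hx1 : 1.0747 ≤ sx κ t := sx_lo h 1 (-0.088) 0.193 1.09198 1.0747 hk1 (by norm_num) f2 (abs_le.2 ⟨by linarith, by linarith⟩) (by rw [neg_neg]; exact expn_ge (by norm_num) (by norm_num)) (by norm_num) (by norm_num)
    have hx2 : sx κ t ≤ 1.2705 := sx_hi h 1.05 (-0.193) 0.088 1.21289 1.2705 hk2 g1 (by norm_num) (by rw [abs_of_nonpos (by linarith)]; linarith) (by rw [neg_neg]; exact expn_le (by norm_num) (by norm_num) (by norm_num)) (by norm_num) (by norm_num)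
    exact jo5_b0_2 hβ hN hx1 hx2 (by linarith) (by linarith)
  have hx1 : 0.9577 ≤ sx κ t := sx_lo h 1 0.039 0.088 0.96175 0.9577 hk1 (by norm_num) hy2 (abs_le.2 ⟨by linarith, by linarith⟩) (expm_ge (by norm_num) (by norm_num) (by norm_num) (by norm_num)) (by norm_num) (by norm_num)
  have hx2 : sx κ t ≤ 1.1466 := sx_hi h 1.05 (-0.088) 0 1.09199 1.1466 hk2 g2 (by norm_num) (abs_nonneg _) (by rw [neg_neg]; exact expn_le (by norm_num) (by norm_num) (by norm_num)) (by norm_num) (by norm_num)
  exact jo5_b0_3 hβ hN hx1 hx2 (by linarith) (by linarith)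

private theorem jo5_b1_0 {β x y : ℝ} (hβ : 0 < β) (hN : β * 9.09 ≤ 1) (hx1 : 1.3256 ≤ x) (hx2 : x ≤ 1.4243)
    (hy1 : -0.274 ≤ y) (hy2 : y ≤ -0.254) : ‖HH β (x + y * I) - 1‖ ≤ 0.09 := by
  refine le_epsJ (C := 0.8158) (N0 := 9.09) (J_boxp 1.3256 1.4243 0.274 0 (-0.254) 1.4489 1.4505 1.6079 0.7271 0.5059 3.015 9.09 1.0012 4.143 1.581 0.6193 0.7244 0.4826 1.0295 2.4135 0.8492 2.3354 3.477 3.4204 0.001383 0.01246 0.00008628 0.0000003101 0.0004448 0.0000003101 0.0000003101 0.0000003101 0.8158
    hβ hN hx1 hx2 hy1 hy2 (by norm_num) (by norm_num) (by linarith) (by norm_num) (by norm_num) (by norm_num) (by norm_num) (by norm_num) (by norm_num) (by norm_num) (by norm_num) (by norm_num) (by norm_num) (by norm_num) (by norm_num) (by norm_num) (by norm_num) (by norm_num) (by norm_num) (by norm_num) (by norm_num) (by norm_num) (by norm_num) (by norm_num)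
    (cube_sqrt_geJ (s := 0.8162) (by norm_num) (by norm_num) (by norm_num) (by norm_num))
    (cube_sqrt_geJ (s := 0.9367) (by norm_num) (by norm_num) (by norm_num) (by norm_num))
    (by norm_num) (by norm_num) (by norm_num) (by norm_num) (by norm_num) (by norm_num) (by norm_num) (by norm_num) (by norm_num) (by norm_num) (by norm_num) (by norm_num) (by norm_num) (by norm_num) (by norm_num) (by norm_num) (by norm_num) (by norm_num)
    (exp_neg_leJ (r := 0.584) 6 (by norm_num) (by norm_num) (by norm_num) (by norm_num))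
    (exp_neg_leJ (r := 0.386) 4 (by norm_num) (by norm_num) (by norm_num) (by norm_num))
    (exp_neg_leJ (r := 0.358) 9 (by norm_num) (by norm_num) (by norm_num) (by norm_num))
    (exp_neg_leJ (r := 0.99) 14 (by norm_num) (by norm_num) (by norm_num) (by norm_num))
    (exp_neg_leJ (r := 0.719) 7 (by norm_num) (by norm_num) (by norm_num) (by norm_num))
    (exp_neg_leJ (r := 0.99) 14 (by norm_num) (by norm_num) (by norm_num) (by norm_num))
    (exp_neg_leJ (r := 0.99) 14 (by norm_num) (by norm_num) (by norm_num) (by norm_num))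
    (exp_neg_leJ (r := 0.99) 14 (by norm_num) (by norm_num) (by norm_num) (by norm_num))
    (by norm_num)) (by norm_num) hN hβ.le (by norm_num)

private theorem jo5_b1_1 {β x y : ℝ} (hβ : 0 < β) (hN : β * 9.09 ≤ 1) (hx1 : 1.2821 ≤ x) (hx2 : x ≤ 1.4011)
    (hy1 : -0.254 ≤ y) (hy2 : y ≤ -0.219) : ‖HH β (x + y * I) - 1‖ ≤ 0.09 := by
  refine le_epsJ (C := 0.818) (N0 := 9.09) (J_boxp 1.2821 1.4011 0.254 0 (-0.219) 1.4324 1.424 1.6041 0.7388 0.5053 3.015 9.09 0.9942 4.093 1.576 0.6467 0.7161 0.4788 1.0462 2.4906 0.839 2.2752 3.4444 3.4054 0.001491 0.01289 0.0000742 0.0000003101 0.0004879 0.0000003101 0.0000003101 0.0000003101 0.818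
    hβ hN hx1 hx2 hy1 hy2 (by norm_num) (by norm_num) (by linarith) (by norm_num) (by norm_num) (by norm_num) (by norm_num) (by norm_num) (by norm_num) (by norm_num) (by norm_num) (by norm_num) (by norm_num) (by norm_num) (by norm_num) (by norm_num) (by norm_num) (by norm_num) (by norm_num) (by norm_num) (by norm_num) (by norm_num) (by norm_num) (by norm_num)
    (cube_sqrt_geJ (s := 0.8176) (by norm_num) (by norm_num) (by norm_num) (by norm_num))
    (cube_sqrt_geJ (s := 0.9371) (by norm_num) (by norm_num) (by norm_num) (by norm_num))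
    (by norm_num) (by norm_num) (by norm_num) (by norm_num) (by norm_num) (by norm_num) (by norm_num) (by norm_num) (by norm_num) (by norm_num) (by norm_num) (by norm_num) (by norm_num) (by norm_num) (by norm_num) (by norm_num) (by norm_num) (by norm_num)
    (exp_neg_leJ (r := 0.509) 6 (by norm_num) (by norm_num) (by norm_num) (by norm_num))
    (exp_neg_leJ (r := 0.352) 4 (by norm_num) (by norm_num) (by norm_num) (by norm_num))
    (exp_neg_leJ (r := 0.509) 9 (by norm_num) (by norm_num) (by norm_num) (by norm_num))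
    (exp_neg_leJ (r := 0.99) 14 (by norm_num) (by norm_num) (by norm_num) (by norm_num))
    (exp_neg_leJ (r := 0.626) 7 (by norm_num) (by norm_num) (by norm_num) (by norm_num))
    (exp_neg_leJ (r := 0.99) 14 (by norm_num) (by norm_num) (by norm_num) (by norm_num))
    (exp_neg_leJ (r := 0.99) 14 (by norm_num) (by norm_num) (by norm_num) (by norm_num))
    (exp_neg_leJ (r := 0.99) 14 (by norm_num) (by norm_num) (by norm_num) (by norm_num))
    (by norm_num)) (by norm_num) hN hβ.le (by norm_num)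

private theorem jo5_b1_2 {β x y : ℝ} (hβ : 0 < β) (hN : β * 9.09 ≤ 1) (hx1 : 1.2113 ≤ x) (hx2 : x ≤ 1.3601)
    (hy1 : -0.219 ≤ y) (hy2 : y ≤ -0.159) : ‖HH β (x + y * I) - 1‖ ≤ 0.09 := by
  refine le_epsJ (C := 0.812) (N0 := 9.09) (J_boxp 1.2113 1.3601 0.219 0 (-0.159) 1.4074 1.3777 1.5992 0.7574 0.5046 3.015 9.09 0.9789 3.985 1.564 0.6948 0.7036 0.474 1.0772 2.6256 0.8237 2.1771 3.3979 3.3896 0.00167 0.01347 0.00005603 0.0000003101 0.0005605 0.0000003101 0.0000003101 0.0000003101 0.812
    hβ hN hx1 hx2 hy1 hy2 (by norm_num) (by norm_num) (by linarith) (by norm_num) (by norm_num) (by norm_num) (by norm_num) (by norm_num) (by norm_num) (by norm_num) (by norm_num) (by norm_num) (by norm_num) (by norm_num) (by norm_num) (by norm_num) (by norm_num) (by norm_num) (by norm_num) (by norm_num) (by norm_num) (by norm_num) (by norm_num) (by norm_num)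
    (cube_sqrt_geJ (s := 0.8207) (by norm_num) (by norm_num) (by norm_num) (by norm_num))
    (cube_sqrt_geJ (s := 0.9381) (by norm_num) (by norm_num) (by norm_num) (by norm_num))
    (by norm_num) (by norm_num) (by norm_num) (by norm_num) (by norm_num) (by norm_num) (by norm_num) (by norm_num) (by norm_num) (by norm_num) (by norm_num) (by norm_num) (by norm_num) (by norm_num) (by norm_num) (by norm_num) (by norm_num) (by norm_num)
    (exp_neg_leJ (r := 0.395) 6 (by norm_num) (by norm_num) (by norm_num) (by norm_num))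
    (exp_neg_leJ (r := 0.308) 4 (by norm_num) (by norm_num) (by norm_num) (by norm_num))
    (exp_neg_leJ (r := 0.791) 9 (by norm_num) (by norm_num) (by norm_num) (by norm_num))
    (exp_neg_leJ (r := 0.99) 14 (by norm_num) (by norm_num) (by norm_num) (by norm_num))
    (exp_neg_leJ (r := 0.487) 7 (by norm_num) (by norm_num) (by norm_num) (by norm_num))
    (exp_neg_leJ (r := 0.99) 14 (by norm_num) (by norm_num) (by norm_num) (by norm_num))
    (exp_neg_leJ (r := 0.99) 14 (by norm_num) (by norm_num) (by norm_num) (by norm_num))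
    (exp_neg_leJ (r := 0.99) 14 (by norm_num) (by norm_num) (by norm_num) (by norm_num))
    (by norm_num)) (by norm_num) hN hβ.le (by norm_num)

private theorem jo5_b1_3 {β x y : ℝ} (hβ : 0 < β) (hN : β * 9.09 ≤ 1) (hx1 : 1.0856 ≤ x) (hx2 : x ≤ 1.2889)
    (hy1 : -0.159 ≤ y) (hy2 : y ≤ -0.044) : ‖HH β (x + y * I) - 1‖ ≤ 0.09 := by
  refine le_epsJ (C := 0.814) (N0 := 9.09) (J_boxp 1.0856 1.2889 0.159 0 (-0.044) 1.3615 1.2987 1.6048 0.7975 0.5054 3.015 9.09 0.9539 3.817 1.545 0.7776 0.6807 0.4642 1.1289 2.8572 0.7954 2.0031 3.3096 3.353 0.002057 0.01472 0.00003498 0.0000003101 0.0007246 0.0000003101 0.0000003101 0.0000003101 0.814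
    hβ hN hx1 hx2 hy1 hy2 (by norm_num) (by norm_num) (by linarith) (by norm_num) (by norm_num) (by norm_num) (by norm_num) (by norm_num) (by norm_num) (by norm_num) (by norm_num) (by norm_num) (by norm_num) (by norm_num) (by norm_num) (by norm_num) (by norm_num) (by norm_num) (by norm_num) (by norm_num) (by norm_num) (by norm_num) (by norm_num) (by norm_num)
    (cube_sqrt_geJ (s := 0.8258) (by norm_num) (by norm_num) (by norm_num) (by norm_num))
    (cube_sqrt_geJ (s := 0.9397) (by norm_num) (by norm_num) (by norm_num) (by norm_num))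
    (by norm_num) (by norm_num) (by norm_num) (by norm_num) (by norm_num) (by norm_num) (by norm_num) (by norm_num) (by norm_num) (by norm_num) (by norm_num) (by norm_num) (by norm_num) (by norm_num) (by norm_num) (by norm_num) (by norm_num) (by norm_num)
    (exp_neg_leJ (r := 0.187) 6 (by norm_num) (by norm_num) (by norm_num) (by norm_num))
    (exp_neg_leJ (r := 0.219) 4 (by norm_num) (by norm_num) (by norm_num) (by norm_num))
    (exp_neg_leJ (r := 0.261) 10 (by norm_num) (by norm_num) (by norm_num) (by norm_num))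
    (exp_neg_leJ (r := 0.99) 14 (by norm_num) (by norm_num) (by norm_num) (by norm_num))
    (exp_neg_leJ (r := 0.23) 7 (by norm_num) (by norm_num) (by norm_num) (by norm_num))
    (exp_neg_leJ (r := 0.99) 14 (by norm_num) (by norm_num) (by norm_num) (by norm_num))
    (exp_neg_leJ (r := 0.99) 14 (by norm_num) (by norm_num) (by norm_num) (by norm_num))
    (exp_neg_leJ (r := 0.99) 14 (by norm_num) (by norm_num) (by norm_num) (by norm_num))
    (by norm_num)) (by norm_num) hN hβ.le (by norm_num)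

private theorem jo5_b1_4 {β x y : ℝ} (hβ : 0 < β) (hN : β * 9.09 ≤ 1) (hx1 : 1.0088 ≤ x) (hx2 : x ≤ 1.1495)
    (hy1 : -0.044 ≤ y) (hy2 : y ≤ 0.039) : ‖HH β (x + y * I) - 1‖ ≤ 0.09 := by
  refine le_epsJ (C := 0.5455) (N0 := 9.09) (J_boxp 1.0088 1.1495 0.044 0.039 0.039 1.3891 1.1504 1.5495 0.7604 0.4966 3.015 9.09 0.8282 3.098 1.454 0.9373 0.6945 0.5028 1.2841 3.3011 0.817 1.8928 3.3014 3.4187 0.001813 0.01037 0.000008536 0.0000003101 0.0005957 0.0000003101 0.0000003101 0.0000003101 0.5455
    hβ hN hx1 hx2 hy1 hy2 (by norm_num) (by norm_num) (by linarith) (by norm_num) (by norm_num) (by norm_num) (by norm_num) (by norm_num) (by norm_num) (by norm_num) (by norm_num) (by norm_num) (by norm_num) (by norm_num) (by norm_num) (by norm_num) (by norm_num) (by norm_num) (by norm_num) (by norm_num) (by norm_num) (by norm_num) (by norm_num) (by norm_num)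
    (cube_sqrt_geJ (s := 0.8508) (by norm_num) (by norm_num) (by norm_num) (by norm_num))
    (cube_sqrt_geJ (s := 0.9479) (by norm_num) (by norm_num) (by norm_num) (by norm_num))
    (by norm_num) (by norm_num) (by norm_num) (by norm_num) (by norm_num) (by norm_num) (by norm_num) (by norm_num) (by norm_num) (by norm_num) (by norm_num) (by norm_num) (by norm_num) (by norm_num) (by norm_num) (by norm_num) (by norm_num) (by norm_num)
    (exp_neg_leJ (r := 0.313) 6 (by norm_num) (by norm_num) (by norm_num) (by norm_num))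
    (exp_neg_leJ (r := 0.57) 4 (by norm_num) (by norm_num) (by norm_num) (by norm_num))
    (exp_neg_leJ (r := 0.672) 11 (by norm_num) (by norm_num) (by norm_num) (by norm_num))
    (exp_neg_leJ (r := 0.99) 14 (by norm_num) (by norm_num) (by norm_num) (by norm_num))
    (exp_neg_leJ (r := 0.426) 7 (by norm_num) (by norm_num) (by norm_num) (by norm_num))
    (exp_neg_leJ (r := 0.99) 14 (by norm_num) (by norm_num) (by norm_num) (by norm_num))
    (exp_neg_leJ (r := 0.99) 14 (by norm_num) (by norm_num) (by norm_num) (by norm_num))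
    (exp_neg_leJ (r := 0.99) 14 (by norm_num) (by norm_num) (by norm_num) (by norm_num))
    (by norm_num)) (by norm_num) hN hβ.le (by norm_num)

private theorem jo5_c1 {κ t β : ℝ} (h : DomR κ t) (hβ : 0 < β) (hk1 : 1.05 ≤ κ) (hk2 : κ ≤ 1.1)
    (ht1 : -0.5027 ≤ t + κ) (ht2 : t + κ ≤ 0.0786) (hR0 : β * 10 ≤ κ) (hR : β * (3.3 * (1 + κ ^ 2)) ≤ κ) :
    ‖HH β (sg κ t) - 1‖ ≤ 0.09 := by
  have hN : β * 9.09 ≤ 1 := bNR hβ h.1 hk2 hR0 (by norm_num)
  have hy1 : -0.274 ≤ sy κ t := syL_ge h 1.05 1.1 0.5027 0.274 0.76033 0.76034 0.1901 0.18939 0.19842 hk1 hk2 (by linarith) (by norm_num) (by norm_num) (by norm_num)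
    (expm_ge (by norm_num) (by norm_num) (by norm_num) (by norm_num)) (expm_le (by norm_num) (by norm_num) (by norm_num)) (by norm_num)
    (by norm_num) (by norm_num) (by norm_num) (by norm_num) (by norm_num) (by norm_num)
  have hy2 : sy κ t ≤ 0.039 := syR_le h 1.05 1.1 0.0786 0.039 1.03977 0.0364 0.03686 0.03863 hk1 hk2 (by linarith) (by norm_num) (by norm_num)
    (expn_ge (by norm_num) (by norm_num)) (by norm_num) (by norm_num) (Or.inr ((mul_le_mul_of_nonneg_left (expn_le (E := 1.03978) (by norm_num) (by norm_num) (by norm_num)) (by norm_num)).trans (by norm_num))) (by norm_num) (by norm_num) (by norm_num)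
  rcases le_total (sy κ t) (-0.254) with f0 | g0
  · have hx1 : 1.3256 ≤ sx κ t := sx_lo h 1.05 (-0.254) 0.274 1.28917 1.3256 hk1 (by norm_num) f0 (abs_le.2 ⟨by linarith, by linarith⟩) (by rw [neg_neg]; exact expn_ge (by norm_num) (by norm_num)) (by norm_num) (by norm_num)
    have hx2 : sx κ t ≤ 1.4243 := sx_hi h 1.1 (-0.274) 0.254 1.31522 1.4243 hk2 hy1 (by norm_num) (by rw [abs_of_nonpos (by linarith)]; linarith) (by rw [neg_neg]; exact expn_le (by norm_num) (by norm_num) (by norm_num)) (by norm_num) (by norm_num)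
    exact jo5_b1_0 hβ hN hx1 hx2 (by linarith) (by linarith)
  rcases le_total (sy κ t) (-0.219) with f1 | g1
  · have hx1 : 1.2821 ≤ sx κ t := sx_lo h 1.05 (-0.219) 0.254 1.24483 1.2821 hk1 (by norm_num) f1 (abs_le.2 ⟨by linarith, by linarith⟩) (by rw [neg_neg]; exact expn_ge (by norm_num) (by norm_num)) (by norm_num) (by norm_num)
    have hx2 : sx κ t ≤ 1.4011 := sx_hi h 1.1 (-0.254) 0.219 1.28918 1.4011 hk2 g0 (by norm_num) (by rw [abs_of_nonpos (by linarith)]; linarith) (by rw [neg_neg]; exact expn_le (by norm_num) (by norm_num) (by norm_num)) (by norm_num) (by norm_num)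
    exact jo5_b1_1 hβ hN hx1 hx2 (by linarith) (by linarith)
  rcases le_total (sy κ t) (-0.159) with f2 | g2
  · have hx1 : 1.2113 ≤ sx κ t := sx_lo h 1.05 (-0.159) 0.219 1.17233 1.2113 hk1 (by norm_num) f2 (abs_le.2 ⟨by linarith, by linarith⟩) (by rw [neg_neg]; exact expn_ge (by norm_num) (by norm_num)) (by norm_num) (by norm_num)
    have hx2 : sx κ t ≤ 1.3601 := sx_hi h 1.1 (-0.219) 0.159 1.24484 1.3601 hk2 g1 (by norm_num) (by rw [abs_of_nonpos (by linarith)]; linarith) (by rw [neg_neg]; exact expn_le (by norm_num) (by norm_num) (by norm_num)) (by norm_num) (by norm_num)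
    exact jo5_b1_2 hβ hN hx1 hx2 (by linarith) (by linarith)
  rcases le_total (sy κ t) (-0.044) with f3 | g3
  · have hx1 : 1.0856 ≤ sx κ t := sx_lo h 1.05 (-0.044) 0.159 1.04498 1.0856 hk1 (by norm_num) f3 (abs_le.2 ⟨by linarith, by linarith⟩) (by rw [neg_neg]; exact expn_ge (by norm_num) (by norm_num)) (by norm_num) (by norm_num)
    have hx2 : sx κ t ≤ 1.2889 := sx_hi h 1.1 (-0.159) 0.044 1.17234 1.2889 hk2 g2 (by norm_num) (by rw [abs_of_nonpos (by linarith)]; linarith) (by rw [neg_neg]; exact expn_le (by norm_num) (by norm_num) (by norm_num)) (by norm_num) (by norm_num)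
    exact jo5_b1_3 hβ hN hx1 hx2 (by linarith) (by linarith)
  have hx1 : 1.0088 ≤ sx κ t := sx_lo h 1.05 0.039 0.044 0.96175 1.0088 hk1 (by norm_num) hy2 (abs_le.2 ⟨by linarith, by linarith⟩) (expm_ge (by norm_num) (by norm_num) (by norm_num) (by norm_num)) (by norm_num) (by norm_num)
  have hx2 : sx κ t ≤ 1.1495 := sx_hi h 1.1 (-0.044) 0 1.04499 1.1495 hk2 g3 (by norm_num) (abs_nonneg _) (by rw [neg_neg]; exact expn_le (by norm_num) (by norm_num) (by norm_num)) (by norm_num) (by norm_num)
  exact jo5_b1_4 hβ hN hx1 hx2 (by linarith) (by linarith)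

theorem jo5 {κ t β : ℝ} (h : DomR κ t) (hβ : 0 < β) (hk1 : 1 ≤ κ) (hk2 : κ ≤ 1.1)
    (ht1 : -0.5027 ≤ t + κ) (ht2 : t + κ ≤ 0.0786) (hR0 : β * 10 ≤ κ) (hR : β * (3.3 * (1 + κ ^ 2)) ≤ κ) :
    ‖HH β (sg κ t) - 1‖ ≤ 0.09 := by
  rcases le_total κ 1.05 with f0 | g0
  · exact jo5_c0 h hβ hk1 f0 ht1 ht2 hR0 hR
  exact jo5_c1 h hβ g0 hk2 ht1 ht2 hR0 hR

private theorem jo6_b0_0 {β x y : ℝ} (hβ : 0 < β) (hN : β * 8.695 ≤ 1) (hx1 : 1.3649 ≤ x) (hx2 : x ≤ 1.4881)
    (hy1 : -0.27 ≤ y) (hy2 : y ≤ -0.235) : ‖HH β (x + y * I) - 1‖ ≤ 0.1 := by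
  refine le_epsJ (C := 0.8635) (N0 := 8.695) (J_boxp 1.3649 1.4881 0.27 0 (-0.235) 1.4794 1.5124 1.6733 0.7189 0.5161 2.9488 8.695 1.0224 4.3 1.597 0.5985 0.7396 0.4876 1.0493 2.3897 0.8704 2.3898 3.5665 3.3307 0.001613 0.01443 0.0001092 0.0000003101 0.0005169 0.0000003101 0.0000003101 0.0000003101 0.8635
    hβ hN hx1 hx2 hy1 hy2 (by norm_num) (by norm_num) (by linarith) (by norm_num) (by norm_num) (by norm_num) (by norm_num) (by norm_num) (by norm_num) (by norm_num) (by norm_num) (by norm_num) (by norm_num) (by norm_num) (by norm_num) (by norm_num) (by norm_num) (by norm_num) (by norm_num) (by norm_num) (by norm_num) (by norm_num) (by norm_num) (by norm_num)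
    (cube_sqrt_geJ (s := 0.8119) (by norm_num) (by norm_num) (by norm_num) (by norm_num))
    (cube_sqrt_geJ (s := 0.9353) (by norm_num) (by norm_num) (by norm_num) (by norm_num))
    (by norm_num) (by norm_num) (by norm_num) (by norm_num) (by norm_num) (by norm_num) (by norm_num) (by norm_num) (by norm_num) (by norm_num) (by norm_num) (by norm_num) (by norm_num) (by norm_num) (by norm_num) (by norm_num) (by norm_num) (by norm_num)
    (exp_neg_leJ (r := 0.43) 6 (by norm_num) (by norm_num) (by norm_num) (by norm_num))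
    (exp_neg_leJ (r := 0.239) 4 (by norm_num) (by norm_num) (by norm_num) (by norm_num))
    (exp_neg_leJ (r := 0.123) 9 (by norm_num) (by norm_num) (by norm_num) (by norm_num))
    (exp_neg_leJ (r := 0.99) 14 (by norm_num) (by norm_num) (by norm_num) (by norm_num))
    (exp_neg_leJ (r := 0.568) 7 (by norm_num) (by norm_num) (by norm_num) (by norm_num))
    (exp_neg_leJ (r := 0.99) 14 (by norm_num) (by norm_num) (by norm_num) (by norm_num))
    (exp_neg_leJ (r := 0.99) 14 (by norm_num) (by norm_num) (by norm_num) (by norm_num))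
    (exp_neg_leJ (r := 0.99) 14 (by norm_num) (by norm_num) (by norm_num) (by norm_num))
    (by norm_num)) (by norm_num) hN hβ.le (by norm_num)

private theorem jo6_b0_1 {β x y : ℝ} (hβ : 0 < β) (hN : β * 8.695 ≤ 1) (hx1 : 1.2891 ≤ x) (hx2 : x ≤ 1.4441)
    (hy1 : -0.235 ≤ y) (hy2 : y ≤ -0.175) : ‖HH β (x + y * I) - 1‖ ≤ 0.1 := by
  refine le_epsJ (C := 0.8625) (N0 := 8.695) (J_boxp 1.2891 1.4441 0.235 0 (-0.175) 1.4509 1.4631 1.6632 0.738 0.5145 2.9488 8.695 1.0085 4.196 1.587 0.6477 0.7254 0.4815 1.0786 2.5264 0.8527 2.2849 3.51 3.3131 0.001824 0.01521 0.00008457 0.0000003101 0.0006029 0.0000003101 0.0000003101 0.0000003101 0.8625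
    hβ hN hx1 hx2 hy1 hy2 (by norm_num) (by norm_num) (by linarith) (by norm_num) (by norm_num) (by norm_num) (by norm_num) (by norm_num) (by norm_num) (by norm_num) (by norm_num) (by norm_num) (by norm_num) (by norm_num) (by norm_num) (by norm_num) (by norm_num) (by norm_num) (by norm_num) (by norm_num) (by norm_num) (by norm_num) (by norm_num) (by norm_num)
    (cube_sqrt_geJ (s := 0.8147) (by norm_num) (by norm_num) (by norm_num) (by norm_num))
    (cube_sqrt_geJ (s := 0.9362) (by norm_num) (by norm_num) (by norm_num) (by norm_num))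
    (by norm_num) (by norm_num) (by norm_num) (by norm_num) (by norm_num) (by norm_num) (by norm_num) (by norm_num) (by norm_num) (by norm_num) (by norm_num) (by norm_num) (by norm_num) (by norm_num) (by norm_num) (by norm_num) (by norm_num) (by norm_num)
    (exp_neg_leJ (r := 0.307) 6 (by norm_num) (by norm_num) (by norm_num) (by norm_num))
    (exp_neg_leJ (r := 0.186) 4 (by norm_num) (by norm_num) (by norm_num) (by norm_num))
    (exp_neg_leJ (r := 0.378) 9 (by norm_num) (by norm_num) (by norm_num) (by norm_num))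
    (exp_neg_leJ (r := 0.99) 14 (by norm_num) (by norm_num) (by norm_num) (by norm_num))
    (exp_neg_leJ (r := 0.414) 7 (by norm_num) (by norm_num) (by norm_num) (by norm_num))
    (exp_neg_leJ (r := 0.99) 14 (by norm_num) (by norm_num) (by norm_num) (by norm_num))
    (exp_neg_leJ (r := 0.99) 14 (by norm_num) (by norm_num) (by norm_num) (by norm_num))
    (exp_neg_leJ (r := 0.99) 14 (by norm_num) (by norm_num) (by norm_num) (by norm_num))
    (by norm_num)) (by norm_num) hN hβ.le (by norm_num)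

private theorem jo6_b0_2 {β x y : ℝ} (hβ : 0 < β) (hN : β * 8.695 ≤ 1) (hx1 : 1.1607 ≤ x) (hx2 : x ≤ 1.3684)
    (hy1 : -0.175 ≤ y) (hy2 : y ≤ -0.065) : ‖HH β (x + y * I) - 1‖ ≤ 0.1 := by
  refine le_epsJ (C := 0.8618) (N0 := 8.695) (J_boxp 1.1607 1.3684 0.175 0 (-0.065) 1.403 1.3796 1.6574 0.7747 0.5136 2.9488 8.695 0.9834 4.017 1.567 0.7322 0.7014 0.4715 1.1293 2.7606 0.8231 2.1071 3.4163 3.2833 0.002248 0.01659 0.0000545 0.0000003101 0.0007802 0.0000003101 0.0000003101 0.0000003101 0.8618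
    hβ hN hx1 hx2 hy1 hy2 (by norm_num) (by norm_num) (by linarith) (by norm_num) (by norm_num) (by norm_num) (by norm_num) (by norm_num) (by norm_num) (by norm_num) (by norm_num) (by norm_num) (by norm_num) (by norm_num) (by norm_num) (by norm_num) (by norm_num) (by norm_num) (by norm_num) (by norm_num) (by norm_num) (by norm_num) (by norm_num) (by norm_num)
    (cube_sqrt_geJ (s := 0.8198) (by norm_num) (by norm_num) (by norm_num) (by norm_num))
    (cube_sqrt_geJ (s := 0.9378) (by norm_num) (by norm_num) (by norm_num) (by norm_num))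
    (by norm_num) (by norm_num) (by norm_num) (by norm_num) (by norm_num) (by norm_num) (by norm_num) (by norm_num) (by norm_num) (by norm_num) (by norm_num) (by norm_num) (by norm_num) (by norm_num) (by norm_num) (by norm_num) (by norm_num) (by norm_num)
    (exp_neg_leJ (r := 0.098) 6 (by norm_num) (by norm_num) (by norm_num) (by norm_num))
    (exp_neg_leJ (r := 0.099) 4 (by norm_num) (by norm_num) (by norm_num) (by norm_num))
    (exp_neg_leJ (r := 0.819) 9 (by norm_num) (by norm_num) (by norm_num) (by norm_num))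
    (exp_neg_leJ (r := 0.99) 14 (by norm_num) (by norm_num) (by norm_num) (by norm_num))
    (exp_neg_leJ (r := 0.156) 7 (by norm_num) (by norm_num) (by norm_num) (by norm_num))
    (exp_neg_leJ (r := 0.99) 14 (by norm_num) (by norm_num) (by norm_num) (by norm_num))
    (exp_neg_leJ (r := 0.99) 14 (by norm_num) (by norm_num) (by norm_num) (by norm_num))
    (exp_neg_leJ (r := 0.99) 14 (by norm_num) (by norm_num) (by norm_num) (by norm_num))
    (by norm_num)) (by norm_num) hN hβ.le (by norm_num)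

private theorem jo6_b0_3 {β x y : ℝ} (hβ : 0 < β) (hN : β * 8.695 ≤ 1) (hx1 : 1.0559 ≤ x) (hx2 : x ≤ 1.2273)
    (hy1 : -0.065 ≤ y) (hy2 : y ≤ 0.039) : ‖HH β (x + y * I) - 1‖ ≤ 0.1 := by
  refine le_epsJ (C := 0.6288) (N0 := 8.695) (J_boxp 1.0559 1.2273 0.065 0.039 0.039 1.4074 1.2291 1.6081 0.7596 0.506 2.9488 8.695 0.8734 3.335 1.486 0.888 0.7036 0.4988 1.2671 3.19 0.8284 1.958 3.3385 3.299 0.002206 0.01308 0.00001643 0.0000003101 0.0007452 0.0000003101 0.0000003101 0.0000003101 0.6288
    hβ hN hx1 hx2 hy1 hy2 (by norm_num) (by norm_num) (by linarith) (by norm_num) (by norm_num) (by norm_num) (by norm_num) (by norm_num) (by norm_num) (by norm_num) (by norm_num) (by norm_num) (by norm_num) (by norm_num) (by norm_num) (by norm_num) (by norm_num) (by norm_num) (by norm_num) (by norm_num) (by norm_num) (by norm_num) (by norm_num) (by norm_num)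
    (cube_sqrt_geJ (s := 0.8419) (by norm_num) (by norm_num) (by norm_num) (by norm_num))
    (cube_sqrt_geJ (s := 0.945) (by norm_num) (by norm_num) (by norm_num) (by norm_num))
    (by norm_num) (by norm_num) (by norm_num) (by norm_num) (by norm_num) (by norm_num) (by norm_num) (by norm_num) (by norm_num) (by norm_num) (by norm_num) (by norm_num) (by norm_num) (by norm_num) (by norm_num) (by norm_num) (by norm_num) (by norm_num)
    (exp_neg_leJ (r := 0.117) 6 (by norm_num) (by norm_num) (by norm_num) (by norm_num))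
    (exp_neg_leJ (r := 0.337) 4 (by norm_num) (by norm_num) (by norm_num) (by norm_num))
    (exp_neg_leJ (r := 0.017) 11 (by norm_num) (by norm_num) (by norm_num) (by norm_num))
    (exp_neg_leJ (r := 0.99) 14 (by norm_num) (by norm_num) (by norm_num) (by norm_num))
    (exp_neg_leJ (r := 0.202) 7 (by norm_num) (by norm_num) (by norm_num) (by norm_num))
    (exp_neg_leJ (r := 0.99) 14 (by norm_num) (by norm_num) (by norm_num) (by norm_num))
    (exp_neg_leJ (r := 0.99) 14 (by norm_num) (by norm_num) (by norm_num) (by norm_num))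
    (exp_neg_leJ (r := 0.99) 14 (by norm_num) (by norm_num) (by norm_num) (by norm_num))
    (by norm_num)) (by norm_num) hN hβ.le (by norm_num)

private theorem jo6_c0 {κ t β : ℝ} (h : DomR κ t) (hβ : 0 < β) (hk1 : 1.1 ≤ κ) (hk2 : κ ≤ 1.15)
    (ht1 : -0.5027 ≤ t + κ) (ht2 : t + κ ≤ 0.0786) (hR0 : β * 10 ≤ κ) (hR : β * (3.3 * (1 + κ ^ 2)) ≤ κ) :
    ‖HH β (sg κ t) - 1‖ ≤ 0.1 := by
  have hN : β * 8.695 ≤ 1 := bNR hβ h.1 hk2 hR0 (by norm_num)
  have hy1 : -0.27 ≤ sy κ t := syL_ge h 1.1 1.15 0.5027 0.27 0.76337 0.76338 0.1771 0.17922 0.18738 hk1 hk2 (by linarith) (by norm_num) (by norm_num) (by norm_num)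
    (expm_ge (by norm_num) (by norm_num) (by norm_num) (by norm_num)) (expm_le (by norm_num) (by norm_num) (by norm_num)) (by norm_num)
    (by norm_num) (by norm_num) (by norm_num) (by norm_num) (by norm_num) (by norm_num)
  have hy2 : sy κ t ≤ 0.039 := syR_le h 1.1 1.15 0.0786 0.039 1.03977 0.0348 0.03526 0.03687 hk1 hk2 (by linarith) (by norm_num) (by norm_num)
    (expn_ge (by norm_num) (by norm_num)) (by norm_num) (by norm_num) (Or.inr ((mul_le_mul_of_nonneg_left (expn_le (E := 1.03978) (by norm_num) (by norm_num) (by norm_num)) (by norm_num)).trans (by norm_num))) (by norm_num) (by norm_num) (by norm_num)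
  rcases le_total (sy κ t) (-0.235) with f0 | g0
  · have hx1 : 1.3649 ≤ sx κ t := sx_lo h 1.1 (-0.235) 0.27 1.2649 1.3649 hk1 (by norm_num) f0 (abs_le.2 ⟨by linarith, by linarith⟩) (by rw [neg_neg]; exact expn_ge (by norm_num) (by norm_num)) (by norm_num) (by norm_num)
    have hx2 : sx κ t ≤ 1.4881 := sx_hi h 1.15 (-0.27) 0.235 1.30997 1.4881 hk2 hy1 (by norm_num) (by rw [abs_of_nonpos (by linarith)]; linarith) (by rw [neg_neg]; exact expn_le (by norm_num) (by norm_num) (by norm_num)) (by norm_num) (by norm_num)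
    exact jo6_b0_0 hβ hN hx1 hx2 (by linarith) (by linarith)
  rcases le_total (sy κ t) (-0.175) with f1 | g1
  · have hx1 : 1.2891 ≤ sx κ t := sx_lo h 1.1 (-0.175) 0.235 1.19124 1.2891 hk1 (by norm_num) f1 (abs_le.2 ⟨by linarith, by linarith⟩) (by rw [neg_neg]; exact expn_ge (by norm_num) (by norm_num)) (by norm_num) (by norm_num)
    have hx2 : sx κ t ≤ 1.4441 := sx_hi h 1.15 (-0.235) 0.175 1.26491 1.4441 hk2 g0 (by norm_num) (by rw [abs_of_nonpos (by linarith)]; linarith) (by rw [neg_neg]; exact expn_le (by norm_num) (by norm_num) (by norm_num)) (by norm_num) (by norm_num)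
    exact jo6_b0_1 hβ hN hx1 hx2 (by linarith) (by linarith)
  rcases le_total (sy κ t) (-0.065) with f2 | g2
  · have hx1 : 1.1607 ≤ sx κ t := sx_lo h 1.1 (-0.065) 0.175 1.06715 1.1607 hk1 (by norm_num) f2 (abs_le.2 ⟨by linarith, by linarith⟩) (by rw [neg_neg]; exact expn_ge (by norm_num) (by norm_num)) (by norm_num) (by norm_num)
    have hx2 : sx κ t ≤ 1.3684 := sx_hi h 1.15 (-0.175) 0.065 1.19125 1.3684 hk2 g1 (by norm_num) (by rw [abs_of_nonpos (by linarith)]; linarith) (by rw [neg_neg]; exact expn_le (by norm_num) (by norm_num) (by norm_num)) (by norm_num) (by norm_num)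
    exact jo6_b0_2 hβ hN hx1 hx2 (by linarith) (by linarith)
  have hx1 : 1.0559 ≤ sx κ t := sx_lo h 1.1 0.039 0.065 0.96175 1.0559 hk1 (by norm_num) hy2 (abs_le.2 ⟨by linarith, by linarith⟩) (expm_ge (by norm_num) (by norm_num) (by norm_num) (by norm_num)) (by norm_num) (by norm_num)
  have hx2 : sx κ t ≤ 1.2273 := sx_hi h 1.15 (-0.065) 0 1.06716 1.2273 hk2 g2 (by norm_num) (abs_nonneg _) (by rw [neg_neg]; exact expn_le (by norm_num) (by norm_num) (by norm_num)) (by norm_num) (by norm_num)
  exact jo6_b0_3 hβ hN hx1 hx2 (by linarith) (by linarith)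

private theorem jo6_b1_0 {β x y : ℝ} (hβ : 0 < β) (hN : β * 8.333 ≤ 1) (hx1 : 1.4377 ≤ x) (hx2 : x ≤ 1.5457)
    (hy1 : -0.265 ≤ y) (hy2 : y ≤ -0.24) : ‖HH β (x + y * I) - 1‖ ≤ 0.1 := by
  refine le_epsJ (C := 0.8318) (N0 := 8.333) (J_boxp 1.4377 1.5457 0.265 0 (-0.24) 1.5342 1.5683 1.7225 0.6907 0.5236 2.8867 8.333 1.0223 4.3 1.597 0.581 0.767 0.5056 1.0821 2.3726 0.9085 2.4906 3.7257 3.3243 0.001677 0.01481 0.0001214 0.0000003101 0.0005159 0.0000003101 0.0000003101 0.0000003101 0.8318
    hβ hN hx1 hx2 hy1 hy2 (by norm_num) (by norm_num) (by linarith) (by norm_num) (by norm_num) (by norm_num) (by norm_num) (by norm_num) (by norm_num) (by norm_num) (by norm_num) (by norm_num) (by norm_num) (by norm_num) (by norm_num) (by norm_num) (by norm_num) (by norm_num) (by norm_num) (by norm_num) (by norm_num) (by norm_num) (by norm_num) (by norm_num)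
    (cube_sqrt_geJ (s := 0.8119) (by norm_num) (by norm_num) (by norm_num) (by norm_num))
    (cube_sqrt_geJ (s := 0.9353) (by norm_num) (by norm_num) (by norm_num) (by norm_num))
    (by norm_num) (by norm_num) (by norm_num) (by norm_num) (by norm_num) (by norm_num) (by norm_num) (by norm_num) (by norm_num) (by norm_num) (by norm_num) (by norm_num) (by norm_num) (by norm_num) (by norm_num) (by norm_num) (by norm_num) (by norm_num)
    (exp_neg_leJ (r := 0.391) 6 (by norm_num) (by norm_num) (by norm_num) (by norm_num))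
    (exp_neg_leJ (r := 0.213) 4 (by norm_num) (by norm_num) (by norm_num) (by norm_num))
    (exp_neg_leJ (r := 0.017) 9 (by norm_num) (by norm_num) (by norm_num) (by norm_num))
    (exp_neg_leJ (r := 0.99) 14 (by norm_num) (by norm_num) (by norm_num) (by norm_num))
    (exp_neg_leJ (r := 0.57) 7 (by norm_num) (by norm_num) (by norm_num) (by norm_num))
    (exp_neg_leJ (r := 0.99) 14 (by norm_num) (by norm_num) (by norm_num) (by norm_num))
    (exp_neg_leJ (r := 0.99) 14 (by norm_num) (by norm_num) (by norm_num) (by norm_num))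
    (exp_neg_leJ (r := 0.99) 14 (by norm_num) (by norm_num) (by norm_num) (by norm_num))
    (by norm_num)) (by norm_num) hN hβ.le (by norm_num)

private theorem jo6_b1_1 {β x y : ℝ} (hβ : 0 < β) (hN : β * 8.333 ≤ 1) (hx1 : 1.3839 ≤ x) (hx2 : x ≤ 1.5124)
    (hy1 : -0.24 ≤ y) (hy2 : y ≤ -0.2) : ‖HH β (x + y * I) - 1‖ ≤ 0.1 := by
  refine le_epsJ (C := 0.8269) (N0 := 8.333) (J_boxp 1.3839 1.5124 0.24 0 (-0.2) 1.5141 1.5314 1.711 0.7021 0.5219 2.8867 8.333 1.0115 4.219 1.589 0.6168 0.757 0.5017 1.1031 2.4713 0.896 2.4161 3.6861 3.317 0.001822 0.0153 0.0001019 0.0000003101 0.0005723 0.0000003101 0.0000003101 0.0000003101 0.8269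
    hβ hN hx1 hx2 hy1 hy2 (by norm_num) (by norm_num) (by linarith) (by norm_num) (by norm_num) (by norm_num) (by norm_num) (by norm_num) (by norm_num) (by norm_num) (by norm_num) (by norm_num) (by norm_num) (by norm_num) (by norm_num) (by norm_num) (by norm_num) (by norm_num) (by norm_num) (by norm_num) (by norm_num) (by norm_num) (by norm_num) (by norm_num)
    (cube_sqrt_geJ (s := 0.8141) (by norm_num) (by norm_num) (by norm_num) (by norm_num))
    (cube_sqrt_geJ (s := 0.936) (by norm_num) (by norm_num) (by norm_num) (by norm_num))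
    (by norm_num) (by norm_num) (by norm_num) (by norm_num) (by norm_num) (by norm_num) (by norm_num) (by norm_num) (by norm_num) (by norm_num) (by norm_num) (by norm_num) (by norm_num) (by norm_num) (by norm_num) (by norm_num) (by norm_num) (by norm_num)
    (exp_neg_leJ (r := 0.308) 6 (by norm_num) (by norm_num) (by norm_num) (by norm_num))
    (exp_neg_leJ (r := 0.18) 4 (by norm_num) (by norm_num) (by norm_num) (by norm_num))
    (exp_neg_leJ (r := 0.192) 9 (by norm_num) (by norm_num) (by norm_num) (by norm_num))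
    (exp_neg_leJ (r := 0.99) 14 (by norm_num) (by norm_num) (by norm_num) (by norm_num))
    (exp_neg_leJ (r := 0.466) 7 (by norm_num) (by norm_num) (by norm_num) (by norm_num))
    (exp_neg_leJ (r := 0.99) 14 (by norm_num) (by norm_num) (by norm_num) (by norm_num))
    (exp_neg_leJ (r := 0.99) 14 (by norm_num) (by norm_num) (by norm_num) (by norm_num))
    (exp_neg_leJ (r := 0.99) 14 (by norm_num) (by norm_num) (by norm_num) (by norm_num))
    (by norm_num)) (by norm_num) hN hβ.le (by norm_num)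

private theorem jo6_b1_2 {β x y : ℝ} (hβ : 0 < β) (hN : β * 8.333 ≤ 1) (hx1 : 1.2942 ≤ x) (hx2 : x ≤ 1.46)
    (hy1 : -0.2 ≤ y) (hy2 : y ≤ -0.13) : ‖HH β (x + y * I) - 1‖ ≤ 0.1 := by
  refine le_epsJ (C := 0.8292) (N0 := 8.333) (J_boxp 1.2942 1.46 0.2 0 (-0.13) 1.4793 1.4737 1.6996 0.7246 0.5201 2.8867 8.333 0.9963 4.108 1.577 0.6739 0.7396 0.494 1.1356 2.6285 0.8743 2.2919 3.6154 3.2945 0.002106 0.01631 0.00007777 0.0000003101 0.0006858 0.0000003101 0.0000003101 0.0000003101 0.8292
    hβ hN hx1 hx2 hy1 hy2 (by norm_num) (by norm_num) (by linarith) (by norm_num) (by norm_num) (by norm_num) (by norm_num) (by norm_num) (by norm_num) (by norm_num) (by norm_num) (by norm_num) (by norm_num) (by norm_num) (by norm_num) (by norm_num) (by norm_num) (by norm_num) (by norm_num) (by norm_num) (by norm_num) (by norm_num) (by norm_num) (by norm_num)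
    (cube_sqrt_geJ (s := 0.8172) (by norm_num) (by norm_num) (by norm_num) (by norm_num))
    (cube_sqrt_geJ (s := 0.937) (by norm_num) (by norm_num) (by norm_num) (by norm_num))
    (by norm_num) (by norm_num) (by norm_num) (by norm_num) (by norm_num) (by norm_num) (by norm_num) (by norm_num) (by norm_num) (by norm_num) (by norm_num) (by norm_num) (by norm_num) (by norm_num) (by norm_num) (by norm_num) (by norm_num) (by norm_num)
    (exp_neg_leJ (r := 0.163) 6 (by norm_num) (by norm_num) (by norm_num) (by norm_num))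
    (exp_neg_leJ (r := 0.116) 4 (by norm_num) (by norm_num) (by norm_num) (by norm_num))
    (exp_neg_leJ (r := 0.462) 9 (by norm_num) (by norm_num) (by norm_num) (by norm_num))
    (exp_neg_leJ (r := 0.99) 14 (by norm_num) (by norm_num) (by norm_num) (by norm_num))
    (exp_neg_leJ (r := 0.285) 7 (by norm_num) (by norm_num) (by norm_num) (by norm_num))
    (exp_neg_leJ (r := 0.99) 14 (by norm_num) (by norm_num) (by norm_num) (by norm_num))
    (exp_neg_leJ (r := 0.99) 14 (by norm_num) (by norm_num) (by norm_num) (by norm_num))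
    (exp_neg_leJ (r := 0.99) 14 (by norm_num) (by norm_num) (by norm_num) (by norm_num))
    (by norm_num)) (by norm_num) hN hβ.le (by norm_num)

private theorem jo6_b1_3 {β x y : ℝ} (hβ : 0 < β) (hN : β * 8.333 ≤ 1) (hx1 : 1.1426 ≤ x) (hx2 : x ≤ 1.3666)
    (hy1 : -0.13 ≤ y) (hy2 : y ≤ 0) : ‖HH β (x + y * I) - 1‖ ≤ 0.1 := by
  refine le_epsJ (C := 0.8265) (N0 := 8.333) (J_boxp 1.1426 1.3666 0.13 0 0 1.4223 1.3728 1.6934 0.7672 0.5192 2.8867 8.333 0.9652 3.892 1.554 0.7745 0.7111 0.4823 1.1942 2.9043 0.8389 2.082 3.5025 3.2656 0.002679 0.01798 0.00004783 0.0000003101 0.0009243 0.0000003101 0.0000003101 0.0000003101 0.8265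
    hβ hN hx1 hx2 hy1 hy2 (by norm_num) (by norm_num) (by linarith) (by norm_num) (by norm_num) (by norm_num) (by norm_num) (by norm_num) (by norm_num) (by norm_num) (by norm_num) (by norm_num) (by norm_num) (by norm_num) (by norm_num) (by norm_num) (by norm_num) (by norm_num) (by norm_num) (by norm_num) (by norm_num) (by norm_num) (by norm_num) (by norm_num)
    (cube_sqrt_geJ (s := 0.8235) (by norm_num) (by norm_num) (by norm_num) (by norm_num))
    (cube_sqrt_geJ (s := 0.939) (by norm_num) (by norm_num) (by norm_num) (by norm_num))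
    (by norm_num) (by norm_num) (by norm_num) (by norm_num) (by norm_num) (by norm_num) (by norm_num) (by norm_num) (by norm_num) (by norm_num) (by norm_num) (by norm_num) (by norm_num) (by norm_num) (by norm_num) (by norm_num) (by norm_num) (by norm_num)
    (exp_neg_leJ (r := 0.925) 5 (by norm_num) (by norm_num) (by norm_num) (by norm_num))
    (exp_neg_leJ (r := 0.019) 4 (by norm_num) (by norm_num) (by norm_num) (by norm_num))
    (exp_neg_leJ (r := 0.951) 9 (by norm_num) (by norm_num) (by norm_num) (by norm_num))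
    (exp_neg_leJ (r := 0.99) 14 (by norm_num) (by norm_num) (by norm_num) (by norm_num))
    (exp_neg_leJ (r := 0.99) 6 (by norm_num) (by norm_num) (by norm_num) (by norm_num))
    (exp_neg_leJ (r := 0.99) 14 (by norm_num) (by norm_num) (by norm_num) (by norm_num))
    (exp_neg_leJ (r := 0.99) 14 (by norm_num) (by norm_num) (by norm_num) (by norm_num))
    (exp_neg_leJ (r := 0.99) 14 (by norm_num) (by norm_num) (by norm_num) (by norm_num))
    (by norm_num)) (by norm_num) hN hβ.le (by norm_num)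

private theorem jo6_b1_4 {β x y : ℝ} (hβ : 0 < β) (hN : β * 8.333 ≤ 1) (hx1 : 1.1053 ≤ x) (hx2 : x ≤ 1.2001)
    (hy1 : -0 ≤ y) (hy2 : y ≤ 0.039) : ‖HH β (x + y * I) - 1‖ ≤ 0.1 := by
  refine le_epsJ (C := 0.4749) (N0 := 8.333) (J_boxp 1.1053 1.2001 0 0.039 0.039 1.4883 1.2008 1.5874 0.694 0.5027 2.8867 8.333 0.8069 2.994 1.44 0.9585 0.7441 0.5439 1.3866 3.41 0.8879 2.0264 3.614 3.4747 0.00203 0.01077 0.000009601 0.0000003101 0.0006126 0.0000003101 0.0000003101 0.0000003101 0.4749
    hβ hN hx1 hx2 hy1 hy2 (by norm_num) (by norm_num) (by linarith) (by norm_num) (by norm_num) (by norm_num) (by norm_num) (by norm_num) (by norm_num) (by norm_num) (by norm_num) (by norm_num) (by norm_num) (by norm_num) (by norm_num) (by norm_num) (by norm_num) (by norm_num) (by norm_num) (by norm_num) (by norm_num) (by norm_num) (by norm_num) (by norm_num)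
    (cube_sqrt_geJ (s := 0.855) (by norm_num) (by norm_num) (by norm_num) (by norm_num))
    (cube_sqrt_geJ (s := 0.9493) (by norm_num) (by norm_num) (by norm_num) (by norm_num))
    (by norm_num) (by norm_num) (by norm_num) (by norm_num) (by norm_num) (by norm_num) (by norm_num) (by norm_num) (by norm_num) (by norm_num) (by norm_num) (by norm_num) (by norm_num) (by norm_num) (by norm_num) (by norm_num) (by norm_num) (by norm_num)
    (exp_neg_leJ (r := 0.2) 6 (by norm_num) (by norm_num) (by norm_num) (by norm_num))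
    (exp_neg_leJ (r := 0.532) 4 (by norm_num) (by norm_num) (by norm_num) (by norm_num))
    (exp_neg_leJ (r := 0.554) 11 (by norm_num) (by norm_num) (by norm_num) (by norm_num))
    (exp_neg_leJ (r := 0.99) 14 (by norm_num) (by norm_num) (by norm_num) (by norm_num))
    (exp_neg_leJ (r := 0.398) 7 (by norm_num) (by norm_num) (by norm_num) (by norm_num))
    (exp_neg_leJ (r := 0.99) 14 (by norm_num) (by norm_num) (by norm_num) (by norm_num))
    (exp_neg_leJ (r := 0.99) 14 (by norm_num) (by norm_num) (by norm_num) (by norm_num))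
    (exp_neg_leJ (r := 0.99) 14 (by norm_num) (by norm_num) (by norm_num) (by norm_num))
    (by norm_num)) (by norm_num) hN hβ.le (by norm_num)

private theorem jo6_c1 {κ t β : ℝ} (h : DomR κ t) (hβ : 0 < β) (hk1 : 1.15 ≤ κ) (hk2 : κ ≤ 1.2)
    (ht1 : -0.5027 ≤ t + κ) (ht2 : t + κ ≤ 0.0786) (hR0 : β * 10 ≤ κ) (hR : β * (3.3 * (1 + κ ^ 2)) ≤ κ) :
    ‖HH β (sg κ t) - 1‖ ≤ 0.1 := by
  have hN : β * 8.333 ≤ 1 := bNR hβ h.1 hk2 hR0 (by norm_num)
  have hy1 : -0.265 ≤ sy κ t := syL_ge h 1.15 1.2 0.5027 0.265 0.7672 0.76721 0.1706 0.16942 0.1768 hk1 hk2 (by linarith) (by norm_num) (by norm_num) (by norm_num)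
    (expm_ge (by norm_num) (by norm_num) (by norm_num) (by norm_num)) (expm_le (by norm_num) (by norm_num) (by norm_num)) (by norm_num)
    (by norm_num) (by norm_num) (by norm_num) (by norm_num) (by norm_num) (by norm_num)
  have hy2 : sy κ t ≤ 0.039 := syR_le h 1.15 1.2 0.0786 0.039 1.03977 0.0334 0.03379 0.03527 hk1 hk2 (by linarith) (by norm_num) (by norm_num)
    (expn_ge (by norm_num) (by norm_num)) (by norm_num) (by norm_num) (Or.inr ((mul_le_mul_of_nonneg_left (expn_le (E := 1.03978) (by norm_num) (by norm_num) (by norm_num)) (by norm_num)).trans (by norm_num))) (by norm_num) (by norm_num) (by norm_num)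
  rcases le_total (sy κ t) (-0.24) with f0 | g0
  · have hx1 : 1.4377 ≤ sx κ t := sx_lo h 1.15 (-0.24) 0.265 1.27124 1.4377 hk1 (by norm_num) f0 (abs_le.2 ⟨by linarith, by linarith⟩) (by rw [neg_neg]; exact expn_ge (by norm_num) (by norm_num)) (by norm_num) (by norm_num)
    have hx2 : sx κ t ≤ 1.5457 := sx_hi h 1.2 (-0.265) 0.24 1.30344 1.5457 hk2 hy1 (by norm_num) (by rw [abs_of_nonpos (by linarith)]; linarith) (by rw [neg_neg]; exact expn_le (by norm_num) (by norm_num) (by norm_num)) (by norm_num) (by norm_num)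
    exact jo6_b1_0 hβ hN hx1 hx2 (by linarith) (by linarith)
  rcases le_total (sy κ t) (-0.2) with f1 | g1
  · have hx1 : 1.3839 ≤ sx κ t := sx_lo h 1.15 (-0.2) 0.24 1.2214 1.3839 hk1 (by norm_num) f1 (abs_le.2 ⟨by linarith, by linarith⟩) (by rw [neg_neg]; exact expn_ge (by norm_num) (by norm_num)) (by norm_num) (by norm_num)
    have hx2 : sx κ t ≤ 1.5124 := sx_hi h 1.2 (-0.24) 0.2 1.27125 1.5124 hk2 g0 (by norm_num) (by rw [abs_of_nonpos (by linarith)]; linarith) (by rw [neg_neg]; exact expn_le (by norm_num) (by norm_num) (by norm_num)) (by norm_num) (by norm_num)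
    exact jo6_b1_1 hβ hN hx1 hx2 (by linarith) (by linarith)
  rcases le_total (sy κ t) (-0.13) with f2 | g2
  · have hx1 : 1.2942 ≤ sx κ t := sx_lo h 1.15 (-0.13) 0.2 1.13882 1.2942 hk1 (by norm_num) f2 (abs_le.2 ⟨by linarith, by linarith⟩) (by rw [neg_neg]; exact expn_ge (by norm_num) (by norm_num)) (by norm_num) (by norm_num)
    have hx2 : sx κ t ≤ 1.46 := sx_hi h 1.2 (-0.2) 0.13 1.22141 1.46 hk2 g1 (by norm_num) (by rw [abs_of_nonpos (by linarith)]; linarith) (by rw [neg_neg]; exact expn_le (by norm_num) (by norm_num) (by norm_num)) (by norm_num) (by norm_num)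
    exact jo6_b1_2 hβ hN hx1 hx2 (by linarith) (by linarith)
  rcases le_total (sy κ t) 0 with f3 | g3
  · have hx1 : 1.1426 ≤ sx κ t := sx_lo h 1.15 0 0.13 1 1.1426 hk1 (by norm_num) f3 (abs_le.2 ⟨by linarith, by linarith⟩) (by simp) (by norm_num) (by norm_num)
    have hx2 : sx κ t ≤ 1.3666 := sx_hi h 1.2 (-0.13) 0 1.13883 1.3666 hk2 g2 (by norm_num) (abs_nonneg _) (by rw [neg_neg]; exact expn_le (by norm_num) (by norm_num) (by norm_num)) (by norm_num) (by norm_num)
    exact jo6_b1_3 hβ hN hx1 hx2 (by linarith) (by linarith)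
  have hx1 : 1.1053 ≤ sx κ t := sx_lo h 1.15 0.039 0.039 0.96175 1.1053 hk1 (by norm_num) hy2 (abs_le.2 ⟨by linarith, by linarith⟩) (expm_ge (by norm_num) (by norm_num) (by norm_num) (by norm_num)) (by norm_num) (by norm_num)
  have hx2 : sx κ t ≤ 1.2001 := sx_hi h 1.2 0 0 1 1.2001 hk2 g3 (by norm_num) (abs_nonneg _) (by simp) (by norm_num) (by norm_num)
  exact jo6_b1_4 hβ hN hx1 hx2 (by linarith) (by linarith)

theorem jo6 {κ t β : ℝ} (h : DomR κ t) (hβ : 0 < β) (hk1 : 1.1 ≤ κ) (hk2 : κ ≤ 1.2)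
    (ht1 : -0.5027 ≤ t + κ) (ht2 : t + κ ≤ 0.0786) (hR0 : β * 10 ≤ κ) (hR : β * (3.3 * (1 + κ ^ 2)) ≤ κ) :
    ‖HH β (sg κ t) - 1‖ ≤ 0.1 := by
  rcases le_total κ 1.15 with f0 | g0
  · exact jo6_c0 h hβ hk1 f0 ht1 ht2 hR0 hR
  exact jo6_c1 h hβ g0 hk2 ht1 ht2 hR0 hR

private theorem jo7_b0_0 {β x y : ℝ} (hβ : 0 < β) (hN : β * 7.999 ≤ 1) (hx1 : 1.4999 ≤ x) (hx2 : x ≤ 1.5907)
    (hy1 : -0.252 ≤ y) (hy2 : y ≤ -0.237) : ‖HH β (x + y * I) - 1‖ ≤ 0.1 := by
  refine le_epsJ (C := 0.7867) (N0 := 7.999) (J_boxp 1.4999 1.5907 0.252 0 (-0.237) 1.5872 1.6106 1.7643 0.6643 0.53 2.8283 7.999 1.0148 4.243 1.592 0.5756 0.7935 0.5251 1.1239 2.3881 0.9458 2.5767 3.8854 3.3338 0.001753 0.015 0.0001251 0.0000003101 0.0005185 0.0000003101 0.0000003101 0.0000003101 0.7867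
    hβ hN hx1 hx2 hy1 hy2 (by norm_num) (by norm_num) (by linarith) (by norm_num) (by norm_num) (by norm_num) (by norm_num) (by norm_num) (by norm_num) (by norm_num) (by norm_num) (by norm_num) (by norm_num) (by norm_num) (by norm_num) (by norm_num) (by norm_num) (by norm_num) (by norm_num) (by norm_num) (by norm_num) (by norm_num) (by norm_num) (by norm_num)
    (cube_sqrt_geJ (s := 0.8134) (by norm_num) (by norm_num) (by norm_num) (by norm_num))
    (cube_sqrt_geJ (s := 0.9358) (by norm_num) (by norm_num) (by norm_num) (by norm_num))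
    (by norm_num) (by norm_num) (by norm_num) (by norm_num) (by norm_num) (by norm_num) (by norm_num) (by norm_num) (by norm_num) (by norm_num) (by norm_num) (by norm_num) (by norm_num) (by norm_num) (by norm_num) (by norm_num) (by norm_num) (by norm_num)
    (exp_neg_leJ (r := 0.347) 6 (by norm_num) (by norm_num) (by norm_num) (by norm_num))
    (exp_neg_leJ (r := 0.2) 4 (by norm_num) (by norm_num) (by norm_num) (by norm_num))
    (exp_neg_leJ (r := 0.99) 8 (by norm_num) (by norm_num) (by norm_num) (by norm_num))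
    (exp_neg_leJ (r := 0.99) 14 (by norm_num) (by norm_num) (by norm_num) (by norm_num))
    (exp_neg_leJ (r := 0.565) 7 (by norm_num) (by norm_num) (by norm_num) (by norm_num))
    (exp_neg_leJ (r := 0.99) 14 (by norm_num) (by norm_num) (by norm_num) (by norm_num))
    (exp_neg_leJ (r := 0.99) 14 (by norm_num) (by norm_num) (by norm_num) (by norm_num))
    (exp_neg_leJ (r := 0.99) 14 (by norm_num) (by norm_num) (by norm_num) (by norm_num))
    (by norm_num)) (by norm_num) hN hβ.le (by norm_num)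

private theorem jo7_b0_1 {β x y : ℝ} (hβ : 0 < β) (hN : β * 7.999 ≤ 1) (hx1 : 1.4643 ≤ x) (hx2 : x ≤ 1.5701)
    (hy1 : -0.237 ≤ y) (hy2 : y ≤ -0.212) : ‖HH β (x + y * I) - 1‖ ≤ 0.1 := by
  refine le_epsJ (C := 0.7885) (N0 := 7.999) (J_boxp 1.4643 1.5701 0.237 0 (-0.212) 1.5728 1.5879 1.7568 0.672 0.5288 2.8283 7.999 1.0097 4.205 1.588 0.5974 0.7863 0.5217 1.1354 2.4476 0.9367 2.5274 3.855 3.3243 0.001857 0.01541 0.0001137 0.0000003101 0.0005577 0.0000003101 0.0000003101 0.0000003101 0.7885
    hβ hN hx1 hx2 hy1 hy2 (by norm_num) (by norm_num) (by linarith) (by norm_num) (by norm_num) (by norm_num) (by norm_num) (by norm_num) (by norm_num) (by norm_num) (by norm_num) (by norm_num) (by norm_num) (by norm_num) (by norm_num) (by norm_num) (by norm_num) (by norm_num) (by norm_num) (by norm_num) (by norm_num) (by norm_num) (by norm_num) (by norm_num)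
    (cube_sqrt_geJ (s := 0.8145) (by norm_num) (by norm_num) (by norm_num) (by norm_num))
    (cube_sqrt_geJ (s := 0.9361) (by norm_num) (by norm_num) (by norm_num) (by norm_num))
    (by norm_num) (by norm_num) (by norm_num) (by norm_num) (by norm_num) (by norm_num) (by norm_num) (by norm_num) (by norm_num) (by norm_num) (by norm_num) (by norm_num) (by norm_num) (by norm_num) (by norm_num) (by norm_num) (by norm_num) (by norm_num)
    (exp_neg_leJ (r := 0.289) 6 (by norm_num) (by norm_num) (by norm_num) (by norm_num))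
    (exp_neg_leJ (r := 0.173) 4 (by norm_num) (by norm_num) (by norm_num) (by norm_num))
    (exp_neg_leJ (r := 0.082) 9 (by norm_num) (by norm_num) (by norm_num) (by norm_num))
    (exp_neg_leJ (r := 0.99) 14 (by norm_num) (by norm_num) (by norm_num) (by norm_num))
    (exp_neg_leJ (r := 0.492) 7 (by norm_num) (by norm_num) (by norm_num) (by norm_num))
    (exp_neg_leJ (r := 0.99) 14 (by norm_num) (by norm_num) (by norm_num) (by norm_num))
    (exp_neg_leJ (r := 0.99) 14 (by norm_num) (by norm_num) (by norm_num) (by norm_num))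
    (exp_neg_leJ (r := 0.99) 14 (by norm_num) (by norm_num) (by norm_num) (by norm_num))
    (by norm_num)) (by norm_num) hN hβ.le (by norm_num)

private theorem jo7_b0_2 {β x y : ℝ} (hβ : 0 < β) (hN : β * 7.999 ≤ 1) (hx1 : 1.4021 ≤ x) (hx2 : x ≤ 1.5362)
    (hy1 : -0.212 ≤ y) (hy2 : y ≤ -0.167) : ‖HH β (x + y * I) - 1‖ ≤ 0.1 := by
  refine le_epsJ (C := 0.798) (N0 := 7.999) (J_boxp 1.4021 1.5362 0.212 0 (-0.167) 1.5468 1.5508 1.7476 0.6872 0.5274 2.8283 7.999 1.0026 4.153 1.582 0.6335 0.7733 0.5149 1.1535 2.5466 0.9202 2.4413 3.7986 3.3007 0.002061 0.01628 0.00009845 0.0000003101 0.0006363 0.0000003101 0.0000003101 0.0000003101 0.798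
    hβ hN hx1 hx2 hy1 hy2 (by norm_num) (by norm_num) (by linarith) (by norm_num) (by norm_num) (by norm_num) (by norm_num) (by norm_num) (by norm_num) (by norm_num) (by norm_num) (by norm_num) (by norm_num) (by norm_num) (by norm_num) (by norm_num) (by norm_num) (by norm_num) (by norm_num) (by norm_num) (by norm_num) (by norm_num) (by norm_num) (by norm_num)
    (cube_sqrt_geJ (s := 0.8159) (by norm_num) (by norm_num) (by norm_num) (by norm_num))
    (cube_sqrt_geJ (s := 0.9366) (by norm_num) (by norm_num) (by norm_num) (by norm_num))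
    (by norm_num) (by norm_num) (by norm_num) (by norm_num) (by norm_num) (by norm_num) (by norm_num) (by norm_num) (by norm_num) (by norm_num) (by norm_num) (by norm_num) (by norm_num) (by norm_num) (by norm_num) (by norm_num) (by norm_num) (by norm_num)
    (exp_neg_leJ (r := 0.185) 6 (by norm_num) (by norm_num) (by norm_num) (by norm_num))
    (exp_neg_leJ (r := 0.118) 4 (by norm_num) (by norm_num) (by norm_num) (by norm_num))
    (exp_neg_leJ (r := 0.226) 9 (by norm_num) (by norm_num) (by norm_num) (by norm_num))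
    (exp_neg_leJ (r := 0.99) 14 (by norm_num) (by norm_num) (by norm_num) (by norm_num))
    (exp_neg_leJ (r := 0.36) 7 (by norm_num) (by norm_num) (by norm_num) (by norm_num))
    (exp_neg_leJ (r := 0.99) 14 (by norm_num) (by norm_num) (by norm_num) (by norm_num))
    (exp_neg_leJ (r := 0.99) 14 (by norm_num) (by norm_num) (by norm_num) (by norm_num))
    (exp_neg_leJ (r := 0.99) 14 (by norm_num) (by norm_num) (by norm_num) (by norm_num))
    (by norm_num)) (by norm_num) hN hβ.le (by norm_num)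

private theorem jo7_b0_3 {β x y : ℝ} (hβ : 0 < β) (hN : β * 7.999 ≤ 1) (hx1 : 1.3049 ≤ x) (hx2 : x ≤ 1.4744)
    (hy1 : -0.167 ≤ y) (hy2 : y ≤ -0.092) : ‖HH β (x + y * I) - 1‖ ≤ 0.1 := by
  refine le_epsJ (C := 0.7909) (N0 := 7.999) (J_boxp 1.3049 1.4744 0.167 0 (-0.092) 1.5103 1.4839 1.7316 0.709 0.525 2.8283 7.999 0.9826 4.011 1.567 0.6988 0.7551 0.5078 1.1913 2.7249 0.8976 2.3067 3.7265 3.2882 0.002382 0.01724 0.00007273 0.0000003101 0.0007625 0.0000003101 0.0000003101 0.0000003101 0.7909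
    hβ hN hx1 hx2 hy1 hy2 (by norm_num) (by norm_num) (by linarith) (by norm_num) (by norm_num) (by norm_num) (by norm_num) (by norm_num) (by norm_num) (by norm_num) (by norm_num) (by norm_num) (by norm_num) (by norm_num) (by norm_num) (by norm_num) (by norm_num) (by norm_num) (by norm_num) (by norm_num) (by norm_num) (by norm_num) (by norm_num) (by norm_num)
    (cube_sqrt_geJ (s := 0.82) (by norm_num) (by norm_num) (by norm_num) (by norm_num))
    (cube_sqrt_geJ (s := 0.9379) (by norm_num) (by norm_num) (by norm_num) (by norm_num))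
    (by norm_num) (by norm_num) (by norm_num) (by norm_num) (by norm_num) (by norm_num) (by norm_num) (by norm_num) (by norm_num) (by norm_num) (by norm_num) (by norm_num) (by norm_num) (by norm_num) (by norm_num) (by norm_num) (by norm_num) (by norm_num)
    (exp_neg_leJ (r := 0.04) 6 (by norm_num) (by norm_num) (by norm_num) (by norm_num))
    (exp_neg_leJ (r := 0.061) 4 (by norm_num) (by norm_num) (by norm_num) (by norm_num))
    (exp_neg_leJ (r := 0.529) 9 (by norm_num) (by norm_num) (by norm_num) (by norm_num))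
    (exp_neg_leJ (r := 0.99) 14 (by norm_num) (by norm_num) (by norm_num) (by norm_num))
    (exp_neg_leJ (r := 0.179) 7 (by norm_num) (by norm_num) (by norm_num) (by norm_num))
    (exp_neg_leJ (r := 0.99) 14 (by norm_num) (by norm_num) (by norm_num) (by norm_num))
    (exp_neg_leJ (r := 0.99) 14 (by norm_num) (by norm_num) (by norm_num) (by norm_num))
    (exp_neg_leJ (r := 0.99) 14 (by norm_num) (by norm_num) (by norm_num) (by norm_num))
    (by norm_num)) (by norm_num) hN hβ.le (by norm_num)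

private theorem jo7_b0_4 {β x y : ℝ} (hβ : 0 < β) (hN : β * 7.999 ≤ 1) (hx1 : 1.1504 ≤ x) (hx2 : x ≤ 1.3705)
    (hy1 : -0.092 ≤ y) (hy2 : y ≤ 0.039) : ‖HH β (x + y * I) - 1‖ ≤ 0.1 := by
  refine le_epsJ (C := 0.771) (N0 := 7.999) (J_boxp 1.1504 1.3705 0.092 0.039 0.039 1.4547 1.3736 1.7199 0.7475 0.5232 2.8283 7.999 0.9443 3.756 1.538 0.808 0.7273 0.4984 1.2568 3.0221 0.8595 2.0888 3.4541 3.0952 0.002982 0.01864 0.00004306 0.0000003101 0.001036 0.0000003101 0.0000003101 0.0000003101 0.771
    hβ hN hx1 hx2 hy1 hy2 (by norm_num) (by norm_num) (by linarith) (by norm_num) (by norm_num) (by norm_num) (by norm_num) (by norm_num) (by norm_num) (by norm_num) (by norm_num) (by norm_num) (by norm_num) (by norm_num) (by norm_num) (by norm_num) (by norm_num) (by norm_num) (by norm_num) (by norm_num) (by norm_num) (by norm_num) (by norm_num) (by norm_num)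
    (cube_sqrt_geJ (s := 0.8277) (by norm_num) (by norm_num) (by norm_num) (by norm_num))
    (cube_sqrt_geJ (s := 0.9404) (by norm_num) (by norm_num) (by norm_num) (by norm_num))
    (by norm_num) (by norm_num) (by norm_num) (by norm_num) (by norm_num) (by norm_num) (by norm_num) (by norm_num) (by norm_num) (by norm_num) (by norm_num) (by norm_num) (by norm_num) (by norm_num) (by norm_num) (by norm_num) (by norm_num) (by norm_num)
    (exp_neg_leJ (r := 0.817) 5 (by norm_num) (by norm_num) (by norm_num) (by norm_num))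
    (exp_neg_leJ (r := 0.986) 3 (by norm_num) (by norm_num) (by norm_num) (by norm_num))
    (exp_neg_leJ (r := 0.053) 10 (by norm_num) (by norm_num) (by norm_num) (by norm_num))
    (exp_neg_leJ (r := 0.99) 14 (by norm_num) (by norm_num) (by norm_num) (by norm_num))
    (exp_neg_leJ (r := 0.875) 6 (by norm_num) (by norm_num) (by norm_num) (by norm_num))
    (exp_neg_leJ (r := 0.99) 14 (by norm_num) (by norm_num) (by norm_num) (by norm_num))
    (exp_neg_leJ (r := 0.99) 14 (by norm_num) (by norm_num) (by norm_num) (by norm_num))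
    (exp_neg_leJ (r := 0.99) 14 (by norm_num) (by norm_num) (by norm_num) (by norm_num))
    (by norm_num)) (by norm_num) hN hβ.le (by norm_num)

private theorem jo7_c0 {κ t β : ℝ} (h : DomR κ t) (hβ : 0 < β) (hk1 : 1.2 ≤ κ) (hk2 : κ ≤ 1.25)
    (ht1 : -0.487 ≤ t + κ) (ht2 : t + κ ≤ 0.0786) (hR0 : β * 10 ≤ κ) (hR : β * (3.3 * (1 + κ ^ 2)) ≤ κ) :
    ‖HH β (sg κ t) - 1‖ ≤ 0.1 := by
  have hN : β * 7.999 ≤ 1 := bNR hβ h.1 hk2 hR0 (by norm_num)
  have hy1 : -0.252 ≤ sy κ t := syL_ge h 1.2 1.25 0.487 0.252 0.77724 0.77725 0.1605 0.15669 0.16323 hk1 hk2 (by linarith) (by norm_num) (by norm_num) (by norm_num)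
    (expm_ge (by norm_num) (by norm_num) (by norm_num) (by norm_num)) (expm_le (by norm_num) (by norm_num) (by norm_num)) (by norm_num)
    (by norm_num) (by norm_num) (by norm_num) (by norm_num) (by norm_num) (by norm_num)
  have hy2 : sy κ t ≤ 0.039 := syR_le h 1.2 1.25 0.0786 0.039 1.03977 0.032 0.03244 0.0338 hk1 hk2 (by linarith) (by norm_num) (by norm_num)
    (expn_ge (by norm_num) (by norm_num)) (by norm_num) (by norm_num) (Or.inr ((mul_le_mul_of_nonneg_left (expn_le (E := 1.03978) (by norm_num) (by norm_num) (by norm_num)) (by norm_num)).trans (by norm_num))) (by norm_num) (by norm_num) (by norm_num)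
  rcases le_total (sy κ t) (-0.237) with f0 | g0
  · have hx1 : 1.4999 ≤ sx κ t := sx_lo h 1.2 (-0.237) 0.252 1.26744 1.4999 hk1 (by norm_num) f0 (abs_le.2 ⟨by linarith, by linarith⟩) (by rw [neg_neg]; exact expn_ge (by norm_num) (by norm_num)) (by norm_num) (by norm_num)
    have hx2 : sx κ t ≤ 1.5907 := sx_hi h 1.25 (-0.252) 0.237 1.2866 1.5907 hk2 hy1 (by norm_num) (by rw [abs_of_nonpos (by linarith)]; linarith) (by rw [neg_neg]; exact expn_le (by norm_num) (by norm_num) (by norm_num)) (by norm_num) (by norm_num)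
    exact jo7_b0_0 hβ hN hx1 hx2 (by linarith) (by linarith)
  rcases le_total (sy κ t) (-0.212) with f1 | g1
  · have hx1 : 1.4643 ≤ sx κ t := sx_lo h 1.2 (-0.212) 0.237 1.23614 1.4643 hk1 (by norm_num) f1 (abs_le.2 ⟨by linarith, by linarith⟩) (by rw [neg_neg]; exact expn_ge (by norm_num) (by norm_num)) (by norm_num) (by norm_num)
    have hx2 : sx κ t ≤ 1.5701 := sx_hi h 1.25 (-0.237) 0.212 1.26745 1.5701 hk2 g0 (by norm_num) (by rw [abs_of_nonpos (by linarith)]; linarith) (by rw [neg_neg]; exact expn_le (by norm_num) (by norm_num) (by norm_num)) (by norm_num) (by norm_num)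
    exact jo7_b0_1 hβ hN hx1 hx2 (by linarith) (by linarith)
  rcases le_total (sy κ t) (-0.167) with f2 | g2
  · have hx1 : 1.4021 ≤ sx κ t := sx_lo h 1.2 (-0.167) 0.212 1.18175 1.4021 hk1 (by norm_num) f2 (abs_le.2 ⟨by linarith, by linarith⟩) (by rw [neg_neg]; exact expn_ge (by norm_num) (by norm_num)) (by norm_num) (by norm_num)
    have hx2 : sx κ t ≤ 1.5362 := sx_hi h 1.25 (-0.212) 0.167 1.23615 1.5362 hk2 g1 (by norm_num) (by rw [abs_of_nonpos (by linarith)]; linarith) (by rw [neg_neg]; exact expn_le (by norm_num) (by norm_num) (by norm_num)) (by norm_num) (by norm_num)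
    exact jo7_b0_2 hβ hN hx1 hx2 (by linarith) (by linarith)
  rcases le_total (sy κ t) (-0.092) with f3 | g3
  · have hx1 : 1.3049 ≤ sx κ t := sx_lo h 1.2 (-0.092) 0.167 1.09636 1.3049 hk1 (by norm_num) f3 (abs_le.2 ⟨by linarith, by linarith⟩) (by rw [neg_neg]; exact expn_ge (by norm_num) (by norm_num)) (by norm_num) (by norm_num)
    have hx2 : sx κ t ≤ 1.4744 := sx_hi h 1.25 (-0.167) 0.092 1.18176 1.4744 hk2 g2 (by norm_num) (by rw [abs_of_nonpos (by linarith)]; linarith) (by rw [neg_neg]; exact expn_le (by norm_num) (by norm_num) (by norm_num)) (by norm_num) (by norm_num)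
    exact jo7_b0_3 hβ hN hx1 hx2 (by linarith) (by linarith)
  have hx1 : 1.1504 ≤ sx κ t := sx_lo h 1.2 0.039 0.092 0.96175 1.1504 hk1 (by norm_num) hy2 (abs_le.2 ⟨by linarith, by linarith⟩) (expm_ge (by norm_num) (by norm_num) (by norm_num) (by norm_num)) (by norm_num) (by norm_num)
  have hx2 : sx κ t ≤ 1.3705 := sx_hi h 1.25 (-0.092) 0 1.09637 1.3705 hk2 g3 (by norm_num) (abs_nonneg _) (by rw [neg_neg]; exact expn_le (by norm_num) (by norm_num) (by norm_num)) (by norm_num) (by norm_num)
  exact jo7_b0_4 hβ hN hx1 hx2 (by linarith) (by linarith)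

private theorem jo7_b1_0 {β x y : ℝ} (hβ : 0 < β) (hN : β * 7.692 ≤ 1) (hx1 : 1.5744 ≤ x) (hx2 : x ≤ 1.6481)
    (hy1 : -0.248 ≤ y) (hy2 : y ≤ -0.243) : ‖HH β (x + y * I) - 1‖ ≤ 0.1 := by
  refine le_epsJ (C := 0.7595) (N0 := 7.692) (J_boxp 1.5744 1.6481 0.248 0 (-0.243) 1.6425 1.6667 1.8137 0.6398 0.5373 2.7735 7.692 1.0148 4.243 1.592 0.5573 0.8212 0.5434 1.1557 2.3678 0.9842 2.6799 4.0453 3.3303 0.001808 0.01532 0.0001383 0.0000003101 0.0005159 0.0000003101 0.0000003101 0.0000003101 0.7595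
    hβ hN hx1 hx2 hy1 hy2 (by norm_num) (by norm_num) (by linarith) (by norm_num) (by norm_num) (by norm_num) (by norm_num) (by norm_num) (by norm_num) (by norm_num) (by norm_num) (by norm_num) (by norm_num) (by norm_num) (by norm_num) (by norm_num) (by norm_num) (by norm_num) (by norm_num) (by norm_num) (by norm_num) (by norm_num) (by norm_num) (by norm_num)
    (cube_sqrt_geJ (s := 0.8134) (by norm_num) (by norm_num) (by norm_num) (by norm_num))
    (cube_sqrt_geJ (s := 0.9358) (by norm_num) (by norm_num) (by norm_num) (by norm_num))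
    (by norm_num) (by norm_num) (by norm_num) (by norm_num) (by norm_num) (by norm_num) (by norm_num) (by norm_num) (by norm_num) (by norm_num) (by norm_num) (by norm_num) (by norm_num) (by norm_num) (by norm_num) (by norm_num) (by norm_num) (by norm_num)
    (exp_neg_leJ (r := 0.316) 6 (by norm_num) (by norm_num) (by norm_num) (by norm_num))
    (exp_neg_leJ (r := 0.179) 4 (by norm_num) (by norm_num) (by norm_num) (by norm_num))
    (exp_neg_leJ (r := 0.889) 8 (by norm_num) (by norm_num) (by norm_num) (by norm_num))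
    (exp_neg_leJ (r := 0.99) 14 (by norm_num) (by norm_num) (by norm_num) (by norm_num))
    (exp_neg_leJ (r := 0.57) 7 (by norm_num) (by norm_num) (by norm_num) (by norm_num))
    (exp_neg_leJ (r := 0.99) 14 (by norm_num) (by norm_num) (by norm_num) (by norm_num))
    (exp_neg_leJ (r := 0.99) 14 (by norm_num) (by norm_num) (by norm_num) (by norm_num))
    (exp_neg_leJ (r := 0.99) 14 (by norm_num) (by norm_num) (by norm_num) (by norm_num))
    (by norm_num)) (by norm_num) hN hβ.le (by norm_num)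

private theorem jo7_b1_1 {β x y : ℝ} (hβ : 0 < β) (hN : β * 7.692 ≤ 1) (hx1 : 1.5591 ≤ x) (hx2 : x ≤ 1.6412)
    (hy1 : -0.243 ≤ y) (hy2 : y ≤ -0.233) : ‖HH β (x + y * I) - 1‖ ≤ 0.1 := by
  refine le_epsJ (C := 0.7651) (N0 := 7.692) (J_boxp 1.5591 1.6412 0.243 0 (-0.233) 1.6353 1.6591 1.8116 0.6437 0.537 2.7735 7.692 1.0146 4.241 1.591 0.5645 0.8176 0.5411 1.1584 2.3877 0.9795 2.6587 4.0283 3.3203 0.001859 0.01558 0.0001354 0.0000003101 0.0005348 0.0000003101 0.0000003101 0.0000003101 0.7651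
    hβ hN hx1 hx2 hy1 hy2 (by norm_num) (by norm_num) (by linarith) (by norm_num) (by norm_num) (by norm_num) (by norm_num) (by norm_num) (by norm_num) (by norm_num) (by norm_num) (by norm_num) (by norm_num) (by norm_num) (by norm_num) (by norm_num) (by norm_num) (by norm_num) (by norm_num) (by norm_num) (by norm_num) (by norm_num) (by norm_num) (by norm_num)
    (cube_sqrt_geJ (s := 0.8135) (by norm_num) (by norm_num) (by norm_num) (by norm_num))
    (cube_sqrt_geJ (s := 0.9358) (by norm_num) (by norm_num) (by norm_num) (by norm_num))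
    (by norm_num) (by norm_num) (by norm_num) (by norm_num) (by norm_num) (by norm_num) (by norm_num) (by norm_num) (by norm_num) (by norm_num) (by norm_num) (by norm_num) (by norm_num) (by norm_num) (by norm_num) (by norm_num) (by norm_num) (by norm_num)
    (exp_neg_leJ (r := 0.288) 6 (by norm_num) (by norm_num) (by norm_num) (by norm_num))
    (exp_neg_leJ (r := 0.162) 4 (by norm_num) (by norm_num) (by norm_num) (by norm_num))
    (exp_neg_leJ (r := 0.91) 8 (by norm_num) (by norm_num) (by norm_num) (by norm_num))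
    (exp_neg_leJ (r := 0.99) 14 (by norm_num) (by norm_num) (by norm_num) (by norm_num))
    (exp_neg_leJ (r := 0.534) 7 (by norm_num) (by norm_num) (by norm_num) (by norm_num))
    (exp_neg_leJ (r := 0.99) 14 (by norm_num) (by norm_num) (by norm_num) (by norm_num))
    (exp_neg_leJ (r := 0.99) 14 (by norm_num) (by norm_num) (by norm_num) (by norm_num))
    (exp_neg_leJ (r := 0.99) 14 (by norm_num) (by norm_num) (by norm_num) (by norm_num))
    (by norm_num)) (by norm_num) hN hβ.le (by norm_num)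

private theorem jo7_b1_2 {β x y : ℝ} (hβ : 0 < β) (hN : β * 7.692 ≤ 1) (hx1 : 1.5369 ≤ x) (hx2 : x ≤ 1.6266)
    (hy1 : -0.233 ≤ y) (hy2 : y ≤ -0.218) : ‖HH β (x + y * I) - 1‖ ≤ 0.1 := by
  refine le_epsJ (C := 0.7628) (N0 := 7.692) (J_boxp 1.5369 1.6266 0.233 0 (-0.218) 1.6268 1.6433 1.8049 0.6475 0.536 2.7735 7.692 1.0102 4.209 1.588 0.5794 0.8133 0.5395 1.1665 2.4278 0.9742 2.628 4.0111 3.3189 0.001921 0.01579 0.0001274 0.0000003101 0.0005571 0.0000003101 0.0000003101 0.0000003101 0.7628
    hβ hN hx1 hx2 hy1 hy2 (by norm_num) (by norm_num) (by linarith) (by norm_num) (by norm_num) (by norm_num) (by norm_num) (by norm_num) (by norm_num) (by norm_num) (by norm_num) (by norm_num) (by norm_num) (by norm_num) (by norm_num) (by norm_num) (by norm_num) (by norm_num) (by norm_num) (by norm_num) (by norm_num) (by norm_num) (by norm_num) (by norm_num)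
    (cube_sqrt_geJ (s := 0.8144) (by norm_num) (by norm_num) (by norm_num) (by norm_num))
    (cube_sqrt_geJ (s := 0.9361) (by norm_num) (by norm_num) (by norm_num) (by norm_num))
    (by norm_num) (by norm_num) (by norm_num) (by norm_num) (by norm_num) (by norm_num) (by norm_num) (by norm_num) (by norm_num) (by norm_num) (by norm_num) (by norm_num) (by norm_num) (by norm_num) (by norm_num) (by norm_num) (by norm_num) (by norm_num)
    (exp_neg_leJ (r := 0.255) 6 (by norm_num) (by norm_num) (by norm_num) (by norm_num))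
    (exp_neg_leJ (r := 0.149) 4 (by norm_num) (by norm_num) (by norm_num) (by norm_num))
    (exp_neg_leJ (r := 0.972) 8 (by norm_num) (by norm_num) (by norm_num) (by norm_num))
    (exp_neg_leJ (r := 0.99) 14 (by norm_num) (by norm_num) (by norm_num) (by norm_num))
    (exp_neg_leJ (r := 0.493) 7 (by norm_num) (by norm_num) (by norm_num) (by norm_num))
    (exp_neg_leJ (r := 0.99) 14 (by norm_num) (by norm_num) (by norm_num) (by norm_num))
    (exp_neg_leJ (r := 0.99) 14 (by norm_num) (by norm_num) (by norm_num) (by norm_num))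
    (exp_neg_leJ (r := 0.99) 14 (by norm_num) (by norm_num) (by norm_num) (by norm_num))
    (by norm_num)) (by norm_num) hN hβ.le (by norm_num)

private theorem jo7_b1_3 {β x y : ℝ} (hβ : 0 < β) (hN : β * 7.692 ≤ 1) (hx1 : 1.5003 ≤ x) (hx2 : x ≤ 1.6052)
    (hy1 : -0.218 ≤ y) (hy2 : y ≤ -0.193) : ‖HH β (x + y * I) - 1‖ ≤ 0.1 := by
  refine le_epsJ (C := 0.7655) (N0 := 7.692) (J_boxp 1.5003 1.6052 0.218 0 (-0.193) 1.6116 1.62 1.7967 0.6552 0.5348 2.7735 7.692 1.0053 4.173 1.584 0.6015 0.8057 0.5357 1.1777 2.4878 0.9646 2.5773 3.9787 3.309 0.002036 0.01625 0.0001165 0.0000003101 0.0005999 0.0000003101 0.0000003101 0.0000003101 0.7655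
    hβ hN hx1 hx2 hy1 hy2 (by norm_num) (by norm_num) (by linarith) (by norm_num) (by norm_num) (by norm_num) (by norm_num) (by norm_num) (by norm_num) (by norm_num) (by norm_num) (by norm_num) (by norm_num) (by norm_num) (by norm_num) (by norm_num) (by norm_num) (by norm_num) (by norm_num) (by norm_num) (by norm_num) (by norm_num) (by norm_num) (by norm_num)
    (cube_sqrt_geJ (s := 0.8154) (by norm_num) (by norm_num) (by norm_num) (by norm_num))
    (cube_sqrt_geJ (s := 0.9364) (by norm_num) (by norm_num) (by norm_num) (by norm_num))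
    (by norm_num) (by norm_num) (by norm_num) (by norm_num) (by norm_num) (by norm_num) (by norm_num) (by norm_num) (by norm_num) (by norm_num) (by norm_num) (by norm_num) (by norm_num) (by norm_num) (by norm_num) (by norm_num) (by norm_num) (by norm_num)
    (exp_neg_leJ (r := 0.197) 6 (by norm_num) (by norm_num) (by norm_num) (by norm_num))
    (exp_neg_leJ (r := 0.12) 4 (by norm_num) (by norm_num) (by norm_num) (by norm_num))
    (exp_neg_leJ (r := 0.058) 9 (by norm_num) (by norm_num) (by norm_num) (by norm_num))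
    (exp_neg_leJ (r := 0.99) 14 (by norm_num) (by norm_num) (by norm_num) (by norm_num))
    (exp_neg_leJ (r := 0.419) 7 (by norm_num) (by norm_num) (by norm_num) (by norm_num))
    (exp_neg_leJ (r := 0.99) 14 (by norm_num) (by norm_num) (by norm_num) (by norm_num))
    (exp_neg_leJ (r := 0.99) 14 (by norm_num) (by norm_num) (by norm_num) (by norm_num))
    (exp_neg_leJ (r := 0.99) 14 (by norm_num) (by norm_num) (by norm_num) (by norm_num))
    (by norm_num)) (by norm_num) hN hβ.le (by norm_num)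

private theorem jo7_b1_4 {β x y : ℝ} (hβ : 0 < β) (hN : β * 7.692 ≤ 1) (hx1 : 1.4438 ≤ x) (hx2 : x ≤ 1.5694)
    (hy1 : -0.193 ≤ y) (hy2 : y ≤ -0.153) : ‖HH β (x + y * I) - 1‖ ≤ 0.1 := by
  refine le_epsJ (C := 0.7626) (N0 := 7.692) (J_boxp 1.4438 1.5694 0.193 0 (-0.153) 1.5896 1.5813 1.7834 0.6664 0.5328 2.7735 7.692 0.9948 4.097 1.576 0.6383 0.7947 0.5312 1.1978 2.5877 0.9508 2.4991 3.9336 3.3012 0.002217 0.01683 0.00009974 0.0000003101 0.0006669 0.0000003101 0.0000003101 0.0000003101 0.7626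
    hβ hN hx1 hx2 hy1 hy2 (by norm_num) (by norm_num) (by linarith) (by norm_num) (by norm_num) (by norm_num) (by norm_num) (by norm_num) (by norm_num) (by norm_num) (by norm_num) (by norm_num) (by norm_num) (by norm_num) (by norm_num) (by norm_num) (by norm_num) (by norm_num) (by norm_num) (by norm_num) (by norm_num) (by norm_num) (by norm_num) (by norm_num)
    (cube_sqrt_geJ (s := 0.8175) (by norm_num) (by norm_num) (by norm_num) (by norm_num))
    (cube_sqrt_geJ (s := 0.9371) (by norm_num) (by norm_num) (by norm_num) (by norm_num))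
    (by norm_num) (by norm_num) (by norm_num) (by norm_num) (by norm_num) (by norm_num) (by norm_num) (by norm_num) (by norm_num) (by norm_num) (by norm_num) (by norm_num) (by norm_num) (by norm_num) (by norm_num) (by norm_num) (by norm_num) (by norm_num)
    (exp_neg_leJ (r := 0.112) 6 (by norm_num) (by norm_num) (by norm_num) (by norm_num))
    (exp_neg_leJ (r := 0.085) 4 (by norm_num) (by norm_num) (by norm_num) (by norm_num))
    (exp_neg_leJ (r := 0.213) 9 (by norm_num) (by norm_num) (by norm_num) (by norm_num))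
    (exp_neg_leJ (r := 0.99) 14 (by norm_num) (by norm_num) (by norm_num) (by norm_num))
    (exp_neg_leJ (r := 0.313) 7 (by norm_num) (by norm_num) (by norm_num) (by norm_num))
    (exp_neg_leJ (r := 0.99) 14 (by norm_num) (by norm_num) (by norm_num) (by norm_num))
    (exp_neg_leJ (r := 0.99) 14 (by norm_num) (by norm_num) (by norm_num) (by norm_num))
    (exp_neg_leJ (r := 0.99) 14 (by norm_num) (by norm_num) (by norm_num) (by norm_num))
    (by norm_num)) (by norm_num) hN hβ.le (by norm_num)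

private theorem jo7_b1_5 {β x y : ℝ} (hβ : 0 < β) (hN : β * 7.692 ≤ 1) (hx1 : 1.3495 ≤ x) (hx2 : x ≤ 1.5127)
    (hy1 : -0.153 ≤ y) (hy2 : y ≤ -0.083) : ‖HH β (x + y * I) - 1‖ ≤ 0.1 := by
  refine le_epsJ (C := 0.7673) (N0 := 7.692) (J_boxp 1.3495 1.5127 0.153 0 (-0.083) 1.5516 1.5205 1.769 0.6882 0.5307 2.7735 7.692 0.98 3.993 1.565 0.697 0.7757 0.5223 1.2287 2.7472 0.9269 2.3685 3.8538 3.2779 0.002573 0.01801 0.00007863 0.0000003101 0.0008016 0.0000003101 0.0000003101 0.0000003101 0.7673
    hβ hN hx1 hx2 hy1 hy2 (by norm_num) (by norm_num) (by linarith) (by norm_num) (by norm_num) (by norm_num) (by norm_num) (by norm_num) (by norm_num) (by norm_num) (by norm_num) (by norm_num) (by norm_num) (by norm_num) (by norm_num) (by norm_num) (by norm_num) (by norm_num) (by norm_num) (by norm_num) (by norm_num) (by norm_num) (by norm_num) (by norm_num)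
    (cube_sqrt_geJ (s := 0.8205) (by norm_num) (by norm_num) (by norm_num) (by norm_num))
    (cube_sqrt_geJ (s := 0.938) (by norm_num) (by norm_num) (by norm_num) (by norm_num))
    (by norm_num) (by norm_num) (by norm_num) (by norm_num) (by norm_num) (by norm_num) (by norm_num) (by norm_num) (by norm_num) (by norm_num) (by norm_num) (by norm_num) (by norm_num) (by norm_num) (by norm_num) (by norm_num) (by norm_num) (by norm_num)
    (exp_neg_leJ (r := 0.966) 5 (by norm_num) (by norm_num) (by norm_num) (by norm_num))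
    (exp_neg_leJ (r := 0.017) 4 (by norm_num) (by norm_num) (by norm_num) (by norm_num))
    (exp_neg_leJ (r := 0.451) 9 (by norm_num) (by norm_num) (by norm_num) (by norm_num))
    (exp_neg_leJ (r := 0.99) 14 (by norm_num) (by norm_num) (by norm_num) (by norm_num))
    (exp_neg_leJ (r := 0.129) 7 (by norm_num) (by norm_num) (by norm_num) (by norm_num))
    (exp_neg_leJ (r := 0.99) 14 (by norm_num) (by norm_num) (by norm_num) (by norm_num))
    (exp_neg_leJ (r := 0.99) 14 (by norm_num) (by norm_num) (by norm_num) (by norm_num))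
    (exp_neg_leJ (r := 0.99) 14 (by norm_num) (by norm_num) (by norm_num) (by norm_num))
    (by norm_num)) (by norm_num) hN hβ.le (by norm_num)

private theorem jo7_b1_6 {β x y : ℝ} (hβ : 0 < β) (hN : β * 7.692 ≤ 1) (hx1 : 1.2005 ≤ x) (hx2 : x ≤ 1.4126)
    (hy1 : -0.083 ≤ y) (hy2 : y ≤ 0.038) : ‖HH β (x + y * I) - 1‖ ≤ 0.1 := by
  refine le_epsJ (C := 0.7535) (N0 := 7.692) (J_boxp 1.2005 1.4126 0.083 0.038 0.038 1.4964 1.4151 1.753 0.7234 0.5283 2.7735 7.692 0.9457 3.764 1.539 0.8001 0.7481 0.5123 1.2882 3.0262 0.8889 2.1583 3.583 3.0873 0.003174 0.01951 0.0000499 0.0000003101 0.001076 0.0000003101 0.0000003101 0.0000003101 0.7535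
    hβ hN hx1 hx2 hy1 hy2 (by norm_num) (by norm_num) (by linarith) (by norm_num) (by norm_num) (by norm_num) (by norm_num) (by norm_num) (by norm_num) (by norm_num) (by norm_num) (by norm_num) (by norm_num) (by norm_num) (by norm_num) (by norm_num) (by norm_num) (by norm_num) (by norm_num) (by norm_num) (by norm_num) (by norm_num) (by norm_num) (by norm_num)
    (cube_sqrt_geJ (s := 0.8275) (by norm_num) (by norm_num) (by norm_num) (by norm_num))
    (cube_sqrt_geJ (s := 0.9403) (by norm_num) (by norm_num) (by norm_num) (by norm_num))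
    (by norm_num) (by norm_num) (by norm_num) (by norm_num) (by norm_num) (by norm_num) (by norm_num) (by norm_num) (by norm_num) (by norm_num) (by norm_num) (by norm_num) (by norm_num) (by norm_num) (by norm_num) (by norm_num) (by norm_num) (by norm_num)
    (exp_neg_leJ (r := 0.754) 5 (by norm_num) (by norm_num) (by norm_num) (by norm_num))
    (exp_neg_leJ (r := 0.94) 3 (by norm_num) (by norm_num) (by norm_num) (by norm_num))
    (exp_neg_leJ (r := 0.908) 9 (by norm_num) (by norm_num) (by norm_num) (by norm_num))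
    (exp_neg_leJ (r := 0.99) 14 (by norm_num) (by norm_num) (by norm_num) (by norm_num))
    (exp_neg_leJ (r := 0.837) 6 (by norm_num) (by norm_num) (by norm_num) (by norm_num))
    (exp_neg_leJ (r := 0.99) 14 (by norm_num) (by norm_num) (by norm_num) (by norm_num))
    (exp_neg_leJ (r := 0.99) 14 (by norm_num) (by norm_num) (by norm_num) (by norm_num))
    (exp_neg_leJ (r := 0.99) 14 (by norm_num) (by norm_num) (by norm_num) (by norm_num))
    (by norm_num)) (by norm_num) hN hβ.le (by norm_num)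

private theorem jo7_c1 {κ t β : ℝ} (h : DomR κ t) (hβ : 0 < β) (hk1 : 1.25 ≤ κ) (hk2 : κ ≤ 1.3)
    (ht1 : -0.487 ≤ t + κ) (ht2 : t + κ ≤ 0.0786) (hR0 : β * 10 ≤ κ) (hR : β * (3.3 * (1 + κ ^ 2)) ≤ κ) :
    ‖HH β (sg κ t) - 1‖ ≤ 0.1 := by
  have hN : β * 7.692 ≤ 1 := bNR hβ h.1 hk2 hR0 (by norm_num)
  have hy1 : -0.248 ≤ sy κ t := syL_ge h 1.25 1.3 0.487 0.248 0.78035 0.78036 0.1473 0.14886 0.15483 hk1 hk2 (by linarith) (by norm_num) (by norm_num) (by norm_num)
    (expm_ge (by norm_num) (by norm_num) (by norm_num) (by norm_num)) (expm_le (by norm_num) (by norm_num) (by norm_num)) (by norm_num)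
    (by norm_num) (by norm_num) (by norm_num) (by norm_num) (by norm_num) (by norm_num)
  have hy2 : sy κ t ≤ 0.038 := syR_le h 1.25 1.3 0.0786 0.038 1.03873 0.03 0.03036 0.03158 hk1 hk2 (by linarith) (by norm_num) (by norm_num)
    (expn_ge (by norm_num) (by norm_num)) (by norm_num) (by norm_num) (Or.inr ((mul_le_mul_of_nonneg_left (expn_le (E := 1.03874) (by norm_num) (by norm_num) (by norm_num)) (by norm_num)).trans (by norm_num))) (by norm_num) (by norm_num) (by norm_num)
  rcases le_total (sy κ t) (-0.243) with f0 | g0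
  · have hx1 : 1.5744 ≤ sx κ t := sx_lo h 1.25 (-0.243) 0.248 1.27506 1.5744 hk1 (by norm_num) f0 (abs_le.2 ⟨by linarith, by linarith⟩) (by rw [neg_neg]; exact expn_ge (by norm_num) (by norm_num)) (by norm_num) (by norm_num)
    have hx2 : sx κ t ≤ 1.6481 := sx_hi h 1.3 (-0.248) 0.243 1.28146 1.6481 hk2 hy1 (by norm_num) (by rw [abs_of_nonpos (by linarith)]; linarith) (by rw [neg_neg]; exact expn_le (by norm_num) (by norm_num) (by norm_num)) (by norm_num) (by norm_num)
    exact jo7_b1_0 hβ hN hx1 hx2 (by linarith) (by linarith)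
  rcases le_total (sy κ t) (-0.233) with f1 | g1
  · have hx1 : 1.5591 ≤ sx κ t := sx_lo h 1.25 (-0.233) 0.243 1.26238 1.5591 hk1 (by norm_num) f1 (abs_le.2 ⟨by linarith, by linarith⟩) (by rw [neg_neg]; exact expn_ge (by norm_num) (by norm_num)) (by norm_num) (by norm_num)
    have hx2 : sx κ t ≤ 1.6412 := sx_hi h 1.3 (-0.243) 0.233 1.27507 1.6412 hk2 g0 (by norm_num) (by rw [abs_of_nonpos (by linarith)]; linarith) (by rw [neg_neg]; exact expn_le (by norm_num) (by norm_num) (by norm_num)) (by norm_num) (by norm_num)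
    exact jo7_b1_1 hβ hN hx1 hx2 (by linarith) (by linarith)
  rcases le_total (sy κ t) (-0.218) with f2 | g2
  · have hx1 : 1.5369 ≤ sx κ t := sx_lo h 1.25 (-0.218) 0.233 1.24358 1.5369 hk1 (by norm_num) f2 (abs_le.2 ⟨by linarith, by linarith⟩) (by rw [neg_neg]; exact expn_ge (by norm_num) (by norm_num)) (by norm_num) (by norm_num)
    have hx2 : sx κ t ≤ 1.6266 := sx_hi h 1.3 (-0.233) 0.218 1.26239 1.6266 hk2 g1 (by norm_num) (by rw [abs_of_nonpos (by linarith)]; linarith) (by rw [neg_neg]; exact expn_le (by norm_num) (by norm_num) (by norm_num)) (by norm_num) (by norm_num)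
    exact jo7_b1_2 hβ hN hx1 hx2 (by linarith) (by linarith)
  rcases le_total (sy κ t) (-0.193) with f3 | g3
  · have hx1 : 1.5003 ≤ sx κ t := sx_lo h 1.25 (-0.193) 0.218 1.21288 1.5003 hk1 (by norm_num) f3 (abs_le.2 ⟨by linarith, by linarith⟩) (by rw [neg_neg]; exact expn_ge (by norm_num) (by norm_num)) (by norm_num) (by norm_num)
    have hx2 : sx κ t ≤ 1.6052 := sx_hi h 1.3 (-0.218) 0.193 1.24359 1.6052 hk2 g2 (by norm_num) (by rw [abs_of_nonpos (by linarith)]; linarith) (by rw [neg_neg]; exact expn_le (by norm_num) (by norm_num) (by norm_num)) (by norm_num) (by norm_num)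
    exact jo7_b1_3 hβ hN hx1 hx2 (by linarith) (by linarith)
  rcases le_total (sy κ t) (-0.153) with f4 | g4
  · have hx1 : 1.4438 ≤ sx κ t := sx_lo h 1.25 (-0.153) 0.193 1.16532 1.4438 hk1 (by norm_num) f4 (abs_le.2 ⟨by linarith, by linarith⟩) (by rw [neg_neg]; exact expn_ge (by norm_num) (by norm_num)) (by norm_num) (by norm_num)
    have hx2 : sx κ t ≤ 1.5694 := sx_hi h 1.3 (-0.193) 0.153 1.21289 1.5694 hk2 g3 (by norm_num) (by rw [abs_of_nonpos (by linarith)]; linarith) (by rw [neg_neg]; exact expn_le (by norm_num) (by norm_num) (by norm_num)) (by norm_num) (by norm_num)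
    exact jo7_b1_4 hβ hN hx1 hx2 (by linarith) (by linarith)
  rcases le_total (sy κ t) (-0.083) with f5 | g5
  · have hx1 : 1.3495 ≤ sx κ t := sx_lo h 1.25 (-0.083) 0.153 1.08654 1.3495 hk1 (by norm_num) f5 (abs_le.2 ⟨by linarith, by linarith⟩) (by rw [neg_neg]; exact expn_ge (by norm_num) (by norm_num)) (by norm_num) (by norm_num)
    have hx2 : sx κ t ≤ 1.5127 := sx_hi h 1.3 (-0.153) 0.083 1.16533 1.5127 hk2 g4 (by norm_num) (by rw [abs_of_nonpos (by linarith)]; linarith) (by rw [neg_neg]; exact expn_le (by norm_num) (by norm_num) (by norm_num)) (by norm_num) (by norm_num)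
    exact jo7_b1_5 hβ hN hx1 hx2 (by linarith) (by linarith)
  have hx1 : 1.2005 ≤ sx κ t := sx_lo h 1.25 0.038 0.083 0.96271 1.2005 hk1 (by norm_num) hy2 (abs_le.2 ⟨by linarith, by linarith⟩) (expm_ge (by norm_num) (by norm_num) (by norm_num) (by norm_num)) (by norm_num) (by norm_num)
  have hx2 : sx κ t ≤ 1.4126 := sx_hi h 1.3 (-0.083) 0 1.08655 1.4126 hk2 g5 (by norm_num) (abs_nonneg _) (by rw [neg_neg]; exact expn_le (by norm_num) (by norm_num) (by norm_num)) (by norm_num) (by norm_num)
  exact jo7_b1_6 hβ hN hx1 hx2 (by linarith) (by linarith)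

theorem jo7 {κ t β : ℝ} (h : DomR κ t) (hβ : 0 < β) (hk1 : 1.2 ≤ κ) (hk2 : κ ≤ 1.3)
    (ht1 : -0.487 ≤ t + κ) (ht2 : t + κ ≤ 0.0786) (hR0 : β * 10 ≤ κ) (hR : β * (3.3 * (1 + κ ^ 2)) ≤ κ) :
    ‖HH β (sg κ t) - 1‖ ≤ 0.1 := by
  rcases le_total κ 1.25 with f0 | g0
  · exact jo7_c0 h hβ hk1 f0 ht1 ht2 hR0 hR
  exact jo7_c1 h hβ g0 hk2 ht1 ht2 hR0 hR

private theorem jo8_b0_0 {β x y : ℝ} (hβ : 0 < β) (hN : β * 7.194 ≤ 1) (hx1 : 1.6245 ≤ x) (hx2 : x ≤ 1.7587)
    (hy1 : -0.244 ≤ y) (hy2 : y ≤ -0.234) : ‖HH β (x + y * I) - 1‖ ≤ 0.12 := by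
  refine le_epsJ (C := 0.8621) (N0 := 7.194) (J_boxp 1.6245 1.7587 0.244 0 (-0.234) 1.6806 1.7756 1.9183 0.6358 0.5526 2.6822 7.194 1.0566 4.571 1.625 0.5184 0.8402 0.5443 1.1792 2.3169 1.0107 2.7493 4.1564 3.1344 0.002373 0.02 0.000207 0.0000003101 0.0006962 0.0000003101 0.0000003101 0.0000003101 0.8621
    hβ hN hx1 hx2 hy1 hy2 (by norm_num) (by norm_num) (by linarith) (by norm_num) (by norm_num) (by norm_num) (by norm_num) (by norm_num) (by norm_num) (by norm_num) (by norm_num) (by norm_num) (by norm_num) (by norm_num) (by norm_num) (by norm_num) (by norm_num) (by norm_num) (by norm_num) (by norm_num) (by norm_num) (by norm_num) (by norm_num) (by norm_num)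
    (cube_sqrt_geJ (s := 0.8048) (by norm_num) (by norm_num) (by norm_num) (by norm_num))
    (cube_sqrt_geJ (s := 0.933) (by norm_num) (by norm_num) (by norm_num) (by norm_num))
    (by norm_num) (by norm_num) (by norm_num) (by norm_num) (by norm_num) (by norm_num) (by norm_num) (by norm_num) (by norm_num) (by norm_num) (by norm_num) (by norm_num) (by norm_num) (by norm_num) (by norm_num) (by norm_num) (by norm_num) (by norm_num)
    (exp_neg_leJ (r := 0.044) 6 (by norm_num) (by norm_num) (by norm_num) (by norm_num))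
    (exp_neg_leJ (r := 0.915) 3 (by norm_num) (by norm_num) (by norm_num) (by norm_num))
    (exp_neg_leJ (r := 0.483) 8 (by norm_num) (by norm_num) (by norm_num) (by norm_num))
    (exp_neg_leJ (r := 0.99) 14 (by norm_num) (by norm_num) (by norm_num) (by norm_num))
    (exp_neg_leJ (r := 0.27) 7 (by norm_num) (by norm_num) (by norm_num) (by norm_num))
    (exp_neg_leJ (r := 0.99) 14 (by norm_num) (by norm_num) (by norm_num) (by norm_num))
    (exp_neg_leJ (r := 0.99) 14 (by norm_num) (by norm_num) (by norm_num) (by norm_num))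
    (exp_neg_leJ (r := 0.99) 14 (by norm_num) (by norm_num) (by norm_num) (by norm_num))
    (by norm_num)) (by norm_num) hN hβ.le (by norm_num)

private theorem jo8_b0_1 {β x y : ℝ} (hβ : 0 < β) (hN : β * 7.194 ≤ 1) (hx1 : 1.6012 ≤ x) (hx2 : x ≤ 1.7428)
    (hy1 : -0.234 ≤ y) (hy2 : y ≤ -0.219) : ‖HH β (x + y * I) - 1‖ ≤ 0.12 := by
  refine le_epsJ (C := 0.8595) (N0 := 7.194) (J_boxp 1.6012 1.7428 0.234 0 (-0.219) 1.6713 1.7585 1.9098 0.6397 0.5514 2.6822 7.194 1.0522 4.535 1.621 0.5338 0.8356 0.5425 1.187 2.3578 1.0049 2.717 4.137 3.1343 0.002452 0.02025 0.0001958 0.0000003101 0.0007253 0.0000003101 0.0000003101 0.0000003101 0.8595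
    hβ hN hx1 hx2 hy1 hy2 (by norm_num) (by norm_num) (by linarith) (by norm_num) (by norm_num) (by norm_num) (by norm_num) (by norm_num) (by norm_num) (by norm_num) (by norm_num) (by norm_num) (by norm_num) (by norm_num) (by norm_num) (by norm_num) (by norm_num) (by norm_num) (by norm_num) (by norm_num) (by norm_num) (by norm_num) (by norm_num) (by norm_num)
    (cube_sqrt_geJ (s := 0.8057) (by norm_num) (by norm_num) (by norm_num) (by norm_num))
    (cube_sqrt_geJ (s := 0.9333) (by norm_num) (by norm_num) (by norm_num) (by norm_num))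
    (by norm_num) (by norm_num) (by norm_num) (by norm_num) (by norm_num) (by norm_num) (by norm_num) (by norm_num) (by norm_num) (by norm_num) (by norm_num) (by norm_num) (by norm_num) (by norm_num) (by norm_num) (by norm_num) (by norm_num) (by norm_num)
    (exp_neg_leJ (r := 0.011) 6 (by norm_num) (by norm_num) (by norm_num) (by norm_num))
    (exp_neg_leJ (r := 0.902) 3 (by norm_num) (by norm_num) (by norm_num) (by norm_num))
    (exp_neg_leJ (r := 0.539) 8 (by norm_num) (by norm_num) (by norm_num) (by norm_num))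
    (exp_neg_leJ (r := 0.99) 14 (by norm_num) (by norm_num) (by norm_num) (by norm_num))
    (exp_neg_leJ (r := 0.229) 7 (by norm_num) (by norm_num) (by norm_num) (by norm_num))
    (exp_neg_leJ (r := 0.99) 14 (by norm_num) (by norm_num) (by norm_num) (by norm_num))
    (exp_neg_leJ (r := 0.99) 14 (by norm_num) (by norm_num) (by norm_num) (by norm_num))
    (exp_neg_leJ (r := 0.99) 14 (by norm_num) (by norm_num) (by norm_num) (by norm_num))
    (by norm_num)) (by norm_num) hN hβ.le (by norm_num)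

private theorem jo8_b0_2 {β x y : ℝ} (hβ : 0 < β) (hN : β * 7.194 ≤ 1) (hx1 : 1.563 ≤ x) (hx2 : x ≤ 1.7195)
    (hy1 : -0.219 ≤ y) (hy2 : y ≤ -0.194) : ‖HH β (x + y * I) - 1‖ ≤ 0.12 := by
  refine le_epsJ (C := 0.8627) (N0 := 7.194) (J_boxp 1.563 1.7195 0.219 0 (-0.194) 1.6551 1.7334 1.8991 0.6472 0.5498 2.6822 7.194 1.0474 4.496 1.617 0.5566 0.8275 0.5386 1.1976 2.4188 0.9945 2.6641 4.1013 3.1261 0.002606 0.02082 0.0001815 0.0000003101 0.0007818 0.0000003101 0.0000003101 0.0000003101 0.8627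
    hβ hN hx1 hx2 hy1 hy2 (by norm_num) (by norm_num) (by linarith) (by norm_num) (by norm_num) (by norm_num) (by norm_num) (by norm_num) (by norm_num) (by norm_num) (by norm_num) (by norm_num) (by norm_num) (by norm_num) (by norm_num) (by norm_num) (by norm_num) (by norm_num) (by norm_num) (by norm_num) (by norm_num) (by norm_num) (by norm_num) (by norm_num)
    (cube_sqrt_geJ (s := 0.8067) (by norm_num) (by norm_num) (by norm_num) (by norm_num))
    (cube_sqrt_geJ (s := 0.9336) (by norm_num) (by norm_num) (by norm_num) (by norm_num))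
    (by norm_num) (by norm_num) (by norm_num) (by norm_num) (by norm_num) (by norm_num) (by norm_num) (by norm_num) (by norm_num) (by norm_num) (by norm_num) (by norm_num) (by norm_num) (by norm_num) (by norm_num) (by norm_num) (by norm_num) (by norm_num)
    (exp_neg_leJ (r := 0.953) 5 (by norm_num) (by norm_num) (by norm_num) (by norm_num))
    (exp_neg_leJ (r := 0.874) 3 (by norm_num) (by norm_num) (by norm_num) (by norm_num))
    (exp_neg_leJ (r := 0.615) 8 (by norm_num) (by norm_num) (by norm_num) (by norm_num))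
    (exp_neg_leJ (r := 0.99) 14 (by norm_num) (by norm_num) (by norm_num) (by norm_num))
    (exp_neg_leJ (r := 0.154) 7 (by norm_num) (by norm_num) (by norm_num) (by norm_num))
    (exp_neg_leJ (r := 0.99) 14 (by norm_num) (by norm_num) (by norm_num) (by norm_num))
    (exp_neg_leJ (r := 0.99) 14 (by norm_num) (by norm_num) (by norm_num) (by norm_num))
    (exp_neg_leJ (r := 0.99) 14 (by norm_num) (by norm_num) (by norm_num) (by norm_num))
    (by norm_num)) (by norm_num) hN hβ.le (by norm_num)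

private theorem jo8_b0_3 {β x y : ℝ} (hβ : 0 < β) (hN : β * 7.194 ≤ 1) (hx1 : 1.5039 ≤ x) (hx2 : x ≤ 1.6806)
    (hy1 : -0.194 ≤ y) (hy2 : y ≤ -0.154) : ‖HH β (x + y * I) - 1‖ ≤ 0.12 := by
  refine le_epsJ (C := 0.8608) (N0 := 7.194) (J_boxp 1.5039 1.6806 0.194 0 (-0.154) 1.6312 1.6918 1.8816 0.6585 0.5473 2.6822 7.194 1.0372 4.415 1.609 0.5946 0.8155 0.5336 1.2168 2.5205 0.9795 2.5823 4.0511 3.121 0.00284 0.02158 0.0001582 0.0000003101 0.0008709 0.0000003101 0.0000003101 0.0000003101 0.8608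
    hβ hN hx1 hx2 hy1 hy2 (by norm_num) (by norm_num) (by linarith) (by norm_num) (by norm_num) (by norm_num) (by norm_num) (by norm_num) (by norm_num) (by norm_num) (by norm_num) (by norm_num) (by norm_num) (by norm_num) (by norm_num) (by norm_num) (by norm_num) (by norm_num) (by norm_num) (by norm_num) (by norm_num) (by norm_num) (by norm_num) (by norm_num)
    (cube_sqrt_geJ (s := 0.8088) (by norm_num) (by norm_num) (by norm_num) (by norm_num))
    (cube_sqrt_geJ (s := 0.9343) (by norm_num) (by norm_num) (by norm_num) (by norm_num))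
    (by norm_num) (by norm_num) (by norm_num) (by norm_num) (by norm_num) (by norm_num) (by norm_num) (by norm_num) (by norm_num) (by norm_num) (by norm_num) (by norm_num) (by norm_num) (by norm_num) (by norm_num) (by norm_num) (by norm_num) (by norm_num)
    (exp_neg_leJ (r := 0.866) 5 (by norm_num) (by norm_num) (by norm_num) (by norm_num))
    (exp_neg_leJ (r := 0.838) 3 (by norm_num) (by norm_num) (by norm_num) (by norm_num))
    (exp_neg_leJ (r := 0.753) 8 (by norm_num) (by norm_num) (by norm_num) (by norm_num))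
    (exp_neg_leJ (r := 0.99) 14 (by norm_num) (by norm_num) (by norm_num) (by norm_num))
    (exp_neg_leJ (r := 0.046) 7 (by norm_num) (by norm_num) (by norm_num) (by norm_num))
    (exp_neg_leJ (r := 0.99) 14 (by norm_num) (by norm_num) (by norm_num) (by norm_num))
    (exp_neg_leJ (r := 0.99) 14 (by norm_num) (by norm_num) (by norm_num) (by norm_num))
    (exp_neg_leJ (r := 0.99) 14 (by norm_num) (by norm_num) (by norm_num) (by norm_num))
    (by norm_num)) (by norm_num) hN hβ.le (by norm_num)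

private theorem jo8_b0_4 {β x y : ℝ} (hβ : 0 < β) (hN : β * 7.194 ≤ 1) (hx1 : 1.4126 ≤ x) (hx2 : x ≤ 1.619)
    (hy1 : -0.154 ≤ y) (hy2 : y ≤ -0.089) : ‖HH β (x + y * I) - 1‖ ≤ 0.12 := by
  refine le_epsJ (C := 0.8543) (N0 := 7.194) (J_boxp 1.4126 1.619 0.154 0 (-0.089) 1.5953 1.6264 1.8578 0.6765 0.5438 2.6822 7.194 1.0195 4.278 1.595 0.6552 0.7976 0.5265 1.2487 2.6827 0.957 2.4559 3.9772 3.1162 0.003228 0.0227 0.000126 0.0000003101 0.001027 0.0000003101 0.0000003101 0.0000003101 0.8543
    hβ hN hx1 hx2 hy1 hy2 (by norm_num) (by norm_num) (by linarith) (by norm_num) (by norm_num) (by norm_num) (by norm_num) (by norm_num) (by norm_num) (by norm_num) (by norm_num) (by norm_num) (by norm_num) (by norm_num) (by norm_num) (by norm_num) (by norm_num) (by norm_num) (by norm_num) (by norm_num) (by norm_num) (by norm_num) (by norm_num) (by norm_num)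
    (cube_sqrt_geJ (s := 0.8125) (by norm_num) (by norm_num) (by norm_num) (by norm_num))
    (cube_sqrt_geJ (s := 0.9355) (by norm_num) (by norm_num) (by norm_num) (by norm_num))
    (by norm_num) (by norm_num) (by norm_num) (by norm_num) (by norm_num) (by norm_num) (by norm_num) (by norm_num) (by norm_num) (by norm_num) (by norm_num) (by norm_num) (by norm_num) (by norm_num) (by norm_num) (by norm_num) (by norm_num) (by norm_num)
    (exp_neg_leJ (r := 0.737) 5 (by norm_num) (by norm_num) (by norm_num) (by norm_num))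
    (exp_neg_leJ (r := 0.787) 3 (by norm_num) (by norm_num) (by norm_num) (by norm_num))
    (exp_neg_leJ (r := 0.983) 8 (by norm_num) (by norm_num) (by norm_num) (by norm_num))
    (exp_neg_leJ (r := 0.99) 14 (by norm_num) (by norm_num) (by norm_num) (by norm_num))
    (exp_neg_leJ (r := 0.884) 6 (by norm_num) (by norm_num) (by norm_num) (by norm_num))
    (exp_neg_leJ (r := 0.99) 14 (by norm_num) (by norm_num) (by norm_num) (by norm_num))
    (exp_neg_leJ (r := 0.99) 14 (by norm_num) (by norm_num) (by norm_num) (by norm_num))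
    (exp_neg_leJ (r := 0.99) 14 (by norm_num) (by norm_num) (by norm_num) (by norm_num))
    (by norm_num)) (by norm_num) hN hβ.le (by norm_num)

private theorem jo8_b0_5 {β x y : ℝ} (hβ : 0 < β) (hN : β * 7.194 ≤ 1) (hx1 : 1.2969 ≤ x) (hx2 : x ≤ 1.5194)
    (hy1 : -0.089 ≤ y) (hy2 : y ≤ 0) : ‖HH β (x + y * I) - 1‖ ≤ 0.12 := by
  refine le_epsJ (C := 0.7905) (N0 := 7.194) (J_boxp 1.2969 1.5194 0.089 0 0 1.56 1.5221 1.819 0.6922 0.5381 2.6822 7.194 0.9758 3.964 1.562 0.7535 0.7799 0.5262 1.3117 2.9455 0.9363 2.2957 3.9225 3.1683 0.003663 0.02274 0.00007981 0.0000003101 0.00119 0.0000003101 0.0000003101 0.0000003101 0.7905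
    hβ hN hx1 hx2 hy1 hy2 (by norm_num) (by norm_num) (by linarith) (by norm_num) (by norm_num) (by norm_num) (by norm_num) (by norm_num) (by norm_num) (by norm_num) (by norm_num) (by norm_num) (by norm_num) (by norm_num) (by norm_num) (by norm_num) (by norm_num) (by norm_num) (by norm_num) (by norm_num) (by norm_num) (by norm_num) (by norm_num) (by norm_num)
    (cube_sqrt_geJ (s := 0.8214) (by norm_num) (by norm_num) (by norm_num) (by norm_num))
    (cube_sqrt_geJ (s := 0.9383) (by norm_num) (by norm_num) (by norm_num) (by norm_num))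
    (by norm_num) (by norm_num) (by norm_num) (by norm_num) (by norm_num) (by norm_num) (by norm_num) (by norm_num) (by norm_num) (by norm_num) (by norm_num) (by norm_num) (by norm_num) (by norm_num) (by norm_num) (by norm_num) (by norm_num) (by norm_num)
    (exp_neg_leJ (r := 0.61) 5 (by norm_num) (by norm_num) (by norm_num) (by norm_num))
    (exp_neg_leJ (r := 0.785) 3 (by norm_num) (by norm_num) (by norm_num) (by norm_num))
    (exp_neg_leJ (r := 0.436) 9 (by norm_num) (by norm_num) (by norm_num) (by norm_num))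
    (exp_neg_leJ (r := 0.99) 14 (by norm_num) (by norm_num) (by norm_num) (by norm_num))
    (exp_neg_leJ (r := 0.735) 6 (by norm_num) (by norm_num) (by norm_num) (by norm_num))
    (exp_neg_leJ (r := 0.99) 14 (by norm_num) (by norm_num) (by norm_num) (by norm_num))
    (exp_neg_leJ (r := 0.99) 14 (by norm_num) (by norm_num) (by norm_num) (by norm_num))
    (exp_neg_leJ (r := 0.99) 14 (by norm_num) (by norm_num) (by norm_num) (by norm_num))
    (by norm_num)) (by norm_num) hN hβ.le (by norm_num)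

private theorem jo8_b0_6 {β x y : ℝ} (hβ : 0 < β) (hN : β * 7.194 ≤ 1) (hx1 : 1.2509 ≤ x) (hx2 : x ≤ 1.3901)
    (hy1 : -0 ≤ y) (hy2 : y ≤ 0.038) : ‖HH β (x + y * I) - 1‖ ≤ 0.12 := by
  refine le_epsJ (C := 0.5687) (N0 := 7.194) (J_boxp 1.2509 1.3901 0 0.038 0.038 1.5908 1.3907 1.7349 0.6565 0.5255 2.6822 7.194 0.8743 3.34 1.487 0.8854 0.7953 0.5635 1.4364 3.3002 0.9587 2.2281 3.9095 3.2545 0.00328 0.01738 0.00003255 0.0000003101 0.001015 0.0000003101 0.0000003101 0.0000003101 0.5687
    hβ hN hx1 hx2 hy1 hy2 (by norm_num) (by norm_num) (by linarith) (by norm_num) (by norm_num) (by norm_num) (by norm_num) (by norm_num) (by norm_num) (by norm_num) (by norm_num) (by norm_num) (by norm_num) (by norm_num) (by norm_num) (by norm_num) (by norm_num) (by norm_num) (by norm_num) (by norm_num) (by norm_num) (by norm_num) (by norm_num) (by norm_num)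
    (cube_sqrt_geJ (s := 0.8417) (by norm_num) (by norm_num) (by norm_num) (by norm_num))
    (cube_sqrt_geJ (s := 0.9449) (by norm_num) (by norm_num) (by norm_num) (by norm_num))
    (by norm_num) (by norm_num) (by norm_num) (by norm_num) (by norm_num) (by norm_num) (by norm_num) (by norm_num) (by norm_num) (by norm_num) (by norm_num) (by norm_num) (by norm_num) (by norm_num) (by norm_num) (by norm_num) (by norm_num) (by norm_num)
    (exp_neg_leJ (r := 0.721) 5 (by norm_num) (by norm_num) (by norm_num) (by norm_num))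
    (exp_neg_leJ (r := 0.053) 4 (by norm_num) (by norm_num) (by norm_num) (by norm_num))
    (exp_neg_leJ (r := 0.333) 10 (by norm_num) (by norm_num) (by norm_num) (by norm_num))
    (exp_neg_leJ (r := 0.99) 14 (by norm_num) (by norm_num) (by norm_num) (by norm_num))
    (exp_neg_leJ (r := 0.896) 6 (by norm_num) (by norm_num) (by norm_num) (by norm_num))
    (exp_neg_leJ (r := 0.99) 14 (by norm_num) (by norm_num) (by norm_num) (by norm_num))
    (exp_neg_leJ (r := 0.99) 14 (by norm_num) (by norm_num) (by norm_num) (by norm_num))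
    (exp_neg_leJ (r := 0.99) 14 (by norm_num) (by norm_num) (by norm_num) (by norm_num))
    (by norm_num)) (by norm_num) hN hβ.le (by norm_num)

private theorem jo8_c0 {κ t β : ℝ} (h : DomR κ t) (hβ : 0 < β) (hk1 : 1.3 ≤ κ) (hk2 : κ ≤ 1.39)
    (ht1 : -0.487 ≤ t + κ) (ht2 : t + κ ≤ 0.0786) (hR0 : β * 10 ≤ κ) (hR : β * (3.3 * (1 + κ ^ 2)) ≤ κ) :
    ‖HH β (sg κ t) - 1‖ ≤ 0.12 := by
  have hN : β * 7.194 ≤ 1 := bNR hβ h.1 hk2 hR0 (by norm_num)
  have hy1 : -0.244 ≤ sy κ t := syL_ge h 1.3 1.39 0.487 0.244 0.78348 0.78349 0.1351 0.13753 0.14706 hk1 hk2 (by linarith) (by norm_num) (by norm_num) (by norm_num)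
    (expm_ge (by norm_num) (by norm_num) (by norm_num) (by norm_num)) (expm_le (by norm_num) (by norm_num) (by norm_num)) (by norm_num)
    (by norm_num) (by norm_num) (by norm_num) (by norm_num) (by norm_num) (by norm_num)
  have hy2 : sy κ t ≤ 0.038 := syR_le h 1.3 1.39 0.0786 0.038 1.03873 0.0278 0.02839 0.03037 hk1 hk2 (by linarith) (by norm_num) (by norm_num)
    (expn_ge (by norm_num) (by norm_num)) (by norm_num) (by norm_num) (Or.inr ((mul_le_mul_of_nonneg_left (expn_le (E := 1.03874) (by norm_num) (by norm_num) (by norm_num)) (by norm_num)).trans (by norm_num))) (by norm_num) (by norm_num) (by norm_num)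
  rcases le_total (sy κ t) (-0.234) with f0 | g0
  · have hx1 : 1.6245 ≤ sx κ t := sx_lo h 1.3 (-0.234) 0.244 1.26364 1.6245 hk1 (by norm_num) f0 (abs_le.2 ⟨by linarith, by linarith⟩) (by rw [neg_neg]; exact expn_ge (by norm_num) (by norm_num)) (by norm_num) (by norm_num)
    have hx2 : sx κ t ≤ 1.7587 := sx_hi h 1.39 (-0.244) 0.234 1.27635 1.7587 hk2 hy1 (by norm_num) (by rw [abs_of_nonpos (by linarith)]; linarith) (by rw [neg_neg]; exact expn_le (by norm_num) (by norm_num) (by norm_num)) (by norm_num) (by norm_num)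
    exact jo8_b0_0 hβ hN hx1 hx2 (by linarith) (by linarith)
  rcases le_total (sy κ t) (-0.219) with f1 | g1
  · have hx1 : 1.6012 ≤ sx κ t := sx_lo h 1.3 (-0.219) 0.234 1.24483 1.6012 hk1 (by norm_num) f1 (abs_le.2 ⟨by linarith, by linarith⟩) (by rw [neg_neg]; exact expn_ge (by norm_num) (by norm_num)) (by norm_num) (by norm_num)
    have hx2 : sx κ t ≤ 1.7428 := sx_hi h 1.39 (-0.234) 0.219 1.26365 1.7428 hk2 g0 (by norm_num) (by rw [abs_of_nonpos (by linarith)]; linarith) (by rw [neg_neg]; exact expn_le (by norm_num) (by norm_num) (by norm_num)) (by norm_num) (by norm_num)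
    exact jo8_b0_1 hβ hN hx1 hx2 (by linarith) (by linarith)
  rcases le_total (sy κ t) (-0.194) with f2 | g2
  · have hx1 : 1.563 ≤ sx κ t := sx_lo h 1.3 (-0.194) 0.219 1.21409 1.563 hk1 (by norm_num) f2 (abs_le.2 ⟨by linarith, by linarith⟩) (by rw [neg_neg]; exact expn_ge (by norm_num) (by norm_num)) (by norm_num) (by norm_num)
    have hx2 : sx κ t ≤ 1.7195 := sx_hi h 1.39 (-0.219) 0.194 1.24484 1.7195 hk2 g1 (by norm_num) (by rw [abs_of_nonpos (by linarith)]; linarith) (by rw [neg_neg]; exact expn_le (by norm_num) (by norm_num) (by norm_num)) (by norm_num) (by norm_num)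
    exact jo8_b0_2 hβ hN hx1 hx2 (by linarith) (by linarith)
  rcases le_total (sy κ t) (-0.154) with f3 | g3
  · have hx1 : 1.5039 ≤ sx κ t := sx_lo h 1.3 (-0.154) 0.194 1.16649 1.5039 hk1 (by norm_num) f3 (abs_le.2 ⟨by linarith, by linarith⟩) (by rw [neg_neg]; exact expn_ge (by norm_num) (by norm_num)) (by norm_num) (by norm_num)
    have hx2 : sx κ t ≤ 1.6806 := sx_hi h 1.39 (-0.194) 0.154 1.2141 1.6806 hk2 g2 (by norm_num) (by rw [abs_of_nonpos (by linarith)]; linarith) (by rw [neg_neg]; exact expn_le (by norm_num) (by norm_num) (by norm_num)) (by norm_num) (by norm_num)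
    exact jo8_b0_3 hβ hN hx1 hx2 (by linarith) (by linarith)
  rcases le_total (sy κ t) (-0.089) with f4 | g4
  · have hx1 : 1.4126 ≤ sx κ t := sx_lo h 1.3 (-0.089) 0.154 1.09308 1.4126 hk1 (by norm_num) f4 (abs_le.2 ⟨by linarith, by linarith⟩) (by rw [neg_neg]; exact expn_ge (by norm_num) (by norm_num)) (by norm_num) (by norm_num)
    have hx2 : sx κ t ≤ 1.619 := sx_hi h 1.39 (-0.154) 0.089 1.1665 1.619 hk2 g3 (by norm_num) (by rw [abs_of_nonpos (by linarith)]; linarith) (by rw [neg_neg]; exact expn_le (by norm_num) (by norm_num) (by norm_num)) (by norm_num) (by norm_num)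
    exact jo8_b0_4 hβ hN hx1 hx2 (by linarith) (by linarith)
  rcases le_total (sy κ t) 0 with f5 | g5
  · have hx1 : 1.2969 ≤ sx κ t := sx_lo h 1.3 0 0.089 1 1.2969 hk1 (by norm_num) f5 (abs_le.2 ⟨by linarith, by linarith⟩) (by simp) (by norm_num) (by norm_num)
    have hx2 : sx κ t ≤ 1.5194 := sx_hi h 1.39 (-0.089) 0 1.09309 1.5194 hk2 g4 (by norm_num) (abs_nonneg _) (by rw [neg_neg]; exact expn_le (by norm_num) (by norm_num) (by norm_num)) (by norm_num) (by norm_num)
    exact jo8_b0_5 hβ hN hx1 hx2 (by linarith) (by linarith)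
  have hx1 : 1.2509 ≤ sx κ t := sx_lo h 1.3 0.038 0.038 0.96271 1.2509 hk1 (by norm_num) hy2 (abs_le.2 ⟨by linarith, by linarith⟩) (expm_ge (by norm_num) (by norm_num) (by norm_num) (by norm_num)) (by norm_num) (by norm_num)
  have hx2 : sx κ t ≤ 1.3901 := sx_hi h 1.39 0 0 1 1.3901 hk2 g5 (by norm_num) (abs_nonneg _) (by simp) (by norm_num) (by norm_num)
  exact jo8_b0_6 hβ hN hx1 hx2 (by linarith) (by linarith)

theorem jo8 {κ t β : ℝ} (h : DomR κ t) (hβ : 0 < β) (hk1 : 1.3 ≤ κ) (hk2 : κ ≤ 1.39)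
    (ht1 : -0.487 ≤ t + κ) (ht2 : t + κ ≤ 0.0786) (hR0 : β * 10 ≤ κ) (hR : β * (3.3 * (1 + κ ^ 2)) ≤ κ) :
    ‖HH β (sg κ t) - 1‖ ≤ 0.12 := by
  exact jo8_c0 h hβ hk1 hk2 ht1 ht2 hR0 hR

end Sok.B4
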