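import Pool.Agent.Lib.MP_816dec_an.R1B4I

/-!
MP_816dec_an (A3, row R1, b = 4): logarithmic derivatives from discs.
-/

set_option autoImplicit false

open Complex Set Filter Topology

namespace Sok.B4

/-- the correction term of the slope -/
theorem slope_im' (x y : ℝ) (hD : 0 < x ^ 2 + (1 + y) ^ 2) :
    (I / 2 * ((x : ℂ) + (y : ℂ) * I) / (1 - I * ((x : ℂ) + (y : ℂ) * I)) ^ 2).im =
      x * (1 - (x ^ 2 + y ^ 2)) / (2 * (x ^ 2 + (1 + y) ^ 2) ^ 2) := by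
  have hw : (1 - I * ((x : ℂ) + (y : ℂ) * I)) = ((1 + y : ℝ) : ℂ) + ((-x : ℝ) : ℂ) * I := by
    push_cast
    ring_nf
    simp only [I_sq]
    ring
  have hne : (((1 + y : ℝ) : ℂ) + ((-x : ℝ) : ℂ) * I) ≠ 0 := by
    intro h0
    have h1 := congrArg Complex.re h0
    have h2 := congrArg Complex.im h0
    simp at h1 h2
    rw [h2] at hD
    have : 1 + y = 0 := by linarith
    rw [this] at hD
    simp at hD
  have hDc : (((x ^ 2 + (1 + y) ^ 2 : ℝ)) : ℂ) ≠ 0 := by exact_mod_cast hD.ne'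
  have key : I / 2 * ((x : ℂ) + (y : ℂ) * I) / (1 - I * ((x : ℂ) + (y : ℂ) * I)) ^ 2 =
      (((-y * ((1 + y) ^ 2 - x ^ 2) - 2 * x ^ 2 * (1 + y)) / (2 * (x ^ 2 + (1 + y) ^ 2) ^ 2) : ℝ) : ℂ) +
      ((x * (1 - (x ^ 2 + y ^ 2)) / (2 * (x ^ 2 + (1 + y) ^ 2) ^ 2) : ℝ) : ℂ) * I := by
    rw [hw, div_eq_iff (pow_ne_zero 2 hne)]
    push_cast at hDc ⊢
    field_simp
    ring_nf
    simp only [I_sq, I_pow_three]
    ring
  rw [key, Complex.add_im, Complex.ofReal_im, Complex.mul_I_im, Complex.ofReal_re, zero_add]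

/-- the correction term -/
noncomputable def gs (κ t : ℝ) : ℝ :=
  sx κ t * (1 - (sx κ t ^ 2 + sy κ t ^ 2)) / (2 * (sx κ t ^ 2 + (1 + sy κ t) ^ 2) ^ 2)

theorem norm_sg' {κ t : ℝ} (h : DomR κ t) : ‖sg κ t‖ = κ * Real.exp (-sy κ t) := by
  rw [← s_norm h]
  unfold sg
  rw [Complex.norm_def, Complex.normSq_apply]
  congr 1
  simp
  ring

theorem sg_ne {κ t : ℝ} (h : DomR κ t) : sg κ t ≠ 0 := by
  intro h0
  have h1 := congrArg Complex.re h0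
  unfold sg at h1
  simp at h1
  exact absurd h1 (sx_pos h).ne'

/-- quotient bound -/
theorem norm_sg_div' {κ t A : ℝ} (h : DomR κ t) (hA : 0 ≤ A)
    (h1 : κ ^ 2 * Real.exp (-2 * sy κ t) * (1 - A ^ 2) ≤ A ^ 2 * (1 + 2 * sy κ t)) :
    ‖sg κ t / (1 - I * sg κ t)‖ ≤ A := by
  have hD := sD_pos h
  rw [norm_div, norm_one_sub_sg, div_le_iff₀ (Real.sqrt_pos.2 hD), norm_sg' h]
  apply le_of_sq_le_sq _ (mul_nonneg hA (Real.sqrt_nonneg _))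
  have e1 : (κ * Real.exp (-sy κ t)) ^ 2 = κ ^ 2 * Real.exp (-2 * sy κ t) := by
    rw [mul_pow, ← Real.exp_nat_mul]
    congr 2
    push_cast
    ring
  rw [e1, mul_pow, Real.sq_sqrt hD.le]
  have e2 : sD κ t = κ ^ 2 * Real.exp (-2 * sy κ t) + 1 + 2 * sy κ t := sD_eq' h
  rw [e2]
  nlinarith

theorem LD_disc {β r κ t δ ε : ℝ} (hβ : 0 < β) (hκ : κ = β * r) (hD : DomR κ t) (hδ : 0 < δ) (hε : ε < 1)
    (hJ : ∀ s : ℂ, ‖s - sg κ t‖ ≤ δ → -1 < s.im ∧ ‖HH β s - 1‖ ≤ ε) :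
    Pb β r t ≠ 0 ∧ ‖LD β r t - (sg κ t / β + I / 2 * sg κ t / (1 - I * sg κ t) ^ 2)‖ ≤
      ‖sg κ t / (1 - I * sg κ t)‖ * (ε / (δ * (1 - ε))) := by
  obtain ⟨h1, h2⟩ := slope_of_disc hβ hδ hε (sg_ne hD) (fun s hs => (hJ s hs).1) (fun s hs => (hJ s hs).2)
  have hz : (r : ℂ) * cexp (I * ((t + β / 2 : ℝ) : ℂ)) = zs β (sg κ t) := by
    have h3 := s_point hD hβ.ne'
    have e : κ / β = r := by rw [hκ]; field_simp
    rw [e] at h3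
    rw [mul_comm I, ← h3]
    rfl
  have hz2 : (r : ℂ) * cexp (I * ((t + β + β / 2 : ℝ) : ℂ)) = cexp (I * β) * zs β (sg κ t) := by
    rw [← hz, mul_left_comm, ← Complex.exp_add]
    congr 2
    push_cast
    ring
  have p1 : Pb β r t = F (cexp (I * β)) (zs β (sg κ t)) := by unfold Pb; rw [hz]
  have p2 : Pb β r (t + β) = F (cexp (I * β)) (cexp (I * β) * zs β (sg κ t)) := by unfold Pb; rw [hz2]
  have p3 : LD β r t = zs β (sg κ t) * F (cexp (I * β)) (cexp (I * β) * zs β (sg κ t)) /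
      F (cexp (I * β)) (zs β (sg κ t)) := by
    unfold LD
    rw [p1, p2, hz]
  rw [p1, p3]
  exact ⟨h1, h2⟩

/-- the two facts about one logarithmic derivative -/
theorem LD_facts {β r κ t : ℝ} (δ ε A q C Y e l : ℝ) (hβ : 0 < β) (hr : 10 ≤ r) (hκ : κ = β * r) (hD : DomR κ t)
    (hJ : ∀ s : ℂ, ‖s - sg κ t‖ ≤ δ → -1 < s.im ∧ ‖HH β s - 1‖ ≤ ε)
    (hA : ‖sg κ t / (1 - I * sg κ t)‖ ≤ A) (hY : Y ≤ sy κ t) (he : Real.exp (-Y) ≤ e)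
    (hC : κ * e ≤ 2 * C * sD κ t) (hC0 : 0 ≤ C)
    (hδ : 0 < δ) (hε0 : 0 ≤ ε) (hε : ε < 1) (hA0 : 0 ≤ A) (hq : ε ≤ q * (δ * (1 - ε)))
    (hl : e + (C + A * q) / 10 ≤ l) :
    Pb β r t ≠ 0 ∧ ‖LD β r t‖ ≤ r * l ∧ |(LD β r t).im - (r * sp κ t + gs κ t)| ≤ A * q := by
  obtain ⟨h1, h2⟩ := LD_disc hβ hκ hD hδ hε hJ
  have hr0 : 0 < r := by linarith
  have hκ0 := hD.1
  have hd : 0 < δ * (1 - ε) := mul_pos hδ (by linarith)
  have hq1 : ε / (δ * (1 - ε)) ≤ q := by rw [div_le_iff₀ hd]; exact hq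
  have hq0 : 0 ≤ ε / (δ * (1 - ε)) := div_nonneg hε0 hd.le
  have h3 : ‖LD β r t - (sg κ t / β + I / 2 * sg κ t / (1 - I * sg κ t) ^ 2)‖ ≤ A * q :=
    h2.trans (mul_le_mul hA hq1 hq0 hA0)
  have hs := sD_pos hD
  refine ⟨h1, ?_, ?_⟩
  · have n1 : ‖sg κ t / (β : ℂ)‖ ≤ r * e := by
      rw [norm_div, Complex.norm_real, Real.norm_of_nonneg hβ.le, norm_sg' hD, div_le_iff₀ hβ]
      have : Real.exp (-sy κ t) ≤ e := (Real.exp_le_exp.2 (by linarith)).trans he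
      have h5 := mul_le_mul_of_nonneg_left this hκ0.le
      rw [hκ] at h5 ⊢
      linarith
    have n2 : ‖I / 2 * sg κ t / (1 - I * sg κ t) ^ 2‖ ≤ C := by
      rw [norm_div, norm_pow, norm_one_sub_sg, Real.sq_sqrt hs.le, norm_mul, norm_sg' hD, div_le_iff₀ hs]
      have e1 : ‖(I / 2 : ℂ)‖ = 1 / 2 := by
        rw [norm_div, Complex.norm_I]
        norm_num
      rw [e1]
      have : Real.exp (-sy κ t) ≤ e := (Real.exp_le_exp.2 (by linarith)).trans he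
      have h5 := mul_le_mul_of_nonneg_left this hκ0.le
      linarith
    have n3 : ‖LD β r t‖ ≤ A * q + (r * e + C) := by
      have e1 : LD β r t = (LD β r t - (sg κ t / β + I / 2 * sg κ t / (1 - I * sg κ t) ^ 2)) +
          (sg κ t / β + I / 2 * sg κ t / (1 - I * sg κ t) ^ 2) := by ring
      rw [e1]
      refine (norm_add_le _ _).trans (add_le_add h3 ?_)
      exact (norm_add_le _ _).trans (add_le_add n1 n2)
    have hAq : 0 ≤ A * q := mul_nonneg hA0 (hq0.trans hq1)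
    have h6 : A * q + C ≤ r * ((C + A * q) / 10) := by nlinarith
    have h7 := mul_le_mul_of_nonneg_left hl hr0.le
    linarith
  · have h4 := (Complex.abs_im_le_norm _).trans h3
    rw [Complex.sub_im, Complex.add_im] at h4
    have e1 : (sg κ t / (β : ℂ)).im = r * sp κ t := by
      rw [Complex.div_ofReal_im]
      have : (sg κ t).im = sy κ t := by unfold sg; simp
      rw [this, sy_eq_sp hD, hκ]
      field_simp
    have e2 : (I / 2 * sg κ t / (1 - I * sg κ t) ^ 2).im = gs κ t := slope_im' (sx κ t) (sy κ t) hs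
    rw [e1, e2] at h4
    exact h4

/-- the window data about the two main copies -/
structure SL (β r l0 l1 m t : ℝ) : Prop where
  ne0 : Pb β r (t - Real.pi / 2) ≠ 0
  L0 : ‖LD β r (t - Real.pi / 2)‖ ≤ r * l0
  L1 : ‖LD β r t‖ ≤ r * l1
  S : r * m ≤ (LD β r t - LD β r (t - Real.pi / 2)).im

theorem SL_of {β r κ t : ℝ} (a0 a1 G0 G1 M l0 l1 m : ℝ) (hr : 10 ≤ r)
    (h0 : Pb β r (t - Real.pi / 2) ≠ 0 ∧ ‖LD β r (t - Real.pi / 2)‖ ≤ r * l0 ∧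
      |(LD β r (t - Real.pi / 2)).im - (r * sp κ (t - Real.pi / 2) + gs κ (t - Real.pi / 2))| ≤ a0)
    (h1 : Pb β r t ≠ 0 ∧ ‖LD β r t‖ ≤ r * l1 ∧ |(LD β r t).im - (r * sp κ t + gs κ t)| ≤ a1)
    (hG0 : gs κ (t - Real.pi / 2) ≤ G0) (hG1 : G1 ≤ gs κ t) (hM : M ≤ sp κ t - sp κ (t - Real.pi / 2))
    (hs : 0 ≤ a0 + a1 + G0 - G1) (hm : m ≤ M - (a0 + a1 + G0 - G1) / 10) : SL β r l0 l1 m t := by
  obtain ⟨n0, b0, c0⟩ := h0
  obtain ⟨-, b1, c1⟩ := h1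
  refine ⟨n0, b0, b1, ?_⟩
  rw [abs_le] at c0 c1
  rw [Complex.sub_im]
  have hr0 : 0 < r := by linarith
  have h5 := mul_le_mul_of_nonneg_left hM hr0.le
  have h6 := mul_le_mul_of_nonneg_left hm hr0.le
  have h7 : a0 + a1 + G0 - G1 ≤ r * ((a0 + a1 + G0 - G1) / 10) := by nlinarith
  linarith [c0.2, c1.1]

/-! ### bounds of `gs` -/

theorem gs_nonneg {κ t : ℝ} (h : DomR κ t) (hy : 0 ≤ sy κ t) (hk : κ ≤ 1) : 0 ≤ gs κ t := by
  have hx := sx_pos h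
  have hsq := s_sq h
  unfold gs
  apply div_nonneg _ (by positivity)
  apply mul_nonneg hx.le
  rw [hsq]
  have h1 : Real.exp (-2 * sy κ t) ≤ 1 := Real.exp_le_one_iff.2 (by linarith)
  have h2 : κ ^ 2 ≤ 1 := by nlinarith [h.1]
  nlinarith [Real.exp_pos (-2 * sy κ t), sq_nonneg κ]

/-- `κ ≥ 1`, left: `gs ≤ -(N-1) x/(2D²)` -/
theorem gs_le_neg {κ t : ℝ} (h : DomR κ t) (N1 x1 d G : ℝ) (hN : N1 ≤ κ ^ 2 * Real.exp (-2 * sy κ t)) (hN1 : 1 ≤ N1)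
    (hx : x1 ≤ sx κ t) (hx1 : 0 ≤ x1) (hd : sD κ t ≤ d) (hG : G * (2 * d ^ 2) ≤ (N1 - 1) * x1) (hG0 : 0 ≤ G) :
    gs κ t ≤ -G := by
  have hD := sD_pos h
  have hsq := s_sq h
  have hD' : 0 < sx κ t ^ 2 + (1 + sy κ t) ^ 2 := hD
  unfold gs
  rw [div_le_iff₀ (by positivity), hsq]
  have e : sx κ t ^ 2 + (1 + sy κ t) ^ 2 = sD κ t := rfl
  rw [e]
  have h1 : sD κ t ^ 2 ≤ d ^ 2 := pow_le_pow_left₀ hD.le hd 2
  have h2 : G * (2 * sD κ t ^ 2) ≤ G * (2 * d ^ 2) := mul_le_mul_of_nonneg_left (by linarith) hG0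
  have h3 : (N1 - 1) * x1 ≤ (κ ^ 2 * Real.exp (-2 * sy κ t) - 1) * sx κ t :=
    mul_le_mul (by linarith) hx hx1 (by linarith)
  nlinarith

/-- upper bound, any side: `gs ≤ x (1-N)⁺ / (2 D²)` -/
theorem gs_le {κ t : ℝ} (h : DomR κ t) (N1 x2 d G : ℝ) (hN : N1 ≤ κ ^ 2 * Real.exp (-2 * sy κ t)) (hN1 : N1 ≤ 1)
    (hx : sx κ t ≤ x2) (hd : d ≤ sD κ t) (hd0 : 0 < d) (hG : (1 - N1) * x2 ≤ G * (2 * d ^ 2)) (hG0 : 0 ≤ G) :
    gs κ t ≤ G := by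
  have hx0 := sx_pos h
  have hsq := s_sq h
  have hD' : 0 < sx κ t ^ 2 + (1 + sy κ t) ^ 2 := sD_pos h
  unfold gs
  rw [div_le_iff₀ (by positivity), hsq]
  have e : sx κ t ^ 2 + (1 + sy κ t) ^ 2 = sD κ t := rfl
  rw [e]
  have h1 : d ^ 2 ≤ sD κ t ^ 2 := pow_le_pow_left₀ hd0.le hd 2
  have h2 : G * (2 * d ^ 2) ≤ G * (2 * sD κ t ^ 2) := mul_le_mul_of_nonneg_left (by linarith) hG0
  have h3 : sx κ t * (1 - κ ^ 2 * Real.exp (-2 * sy κ t)) ≤ x2 * (1 - N1) := by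
    have h4 : sx κ t * (1 - κ ^ 2 * Real.exp (-2 * sy κ t)) ≤ sx κ t * (1 - N1) :=
      mul_le_mul_of_nonneg_left (by linarith) hx0.le
    have h5 : sx κ t * (1 - N1) ≤ x2 * (1 - N1) := mul_le_mul_of_nonneg_right hx (by linarith)
    linarith
  linarith

/-- lower bound on the right: `N ≤ N2` with `N2 ≥ 1` -/
theorem gs_ge {κ t : ℝ} (h : DomR κ t) (N2 d G : ℝ) (hN : κ ^ 2 * Real.exp (-2 * sy κ t) ≤ N2) (hN2 : 1 ≤ N2)
    (hN22 : N2 ≤ 2) (hd : d ≤ sD κ t) (hd0 : 0 < d) (hG : (N2 - 1) * 1.42 ≤ G * (2 * d ^ 2)) (hG0 : 0 ≤ G) :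
    -G ≤ gs κ t := by
  have hx0 := sx_pos h
  have hsq := s_sq h
  have hD' : 0 < sx κ t ^ 2 + (1 + sy κ t) ^ 2 := sD_pos h
  unfold gs
  rw [le_div_iff₀ (by positivity)]
  have hx2 : sx κ t ≤ 1.42 := by
    apply le_of_sq_le_sq _ (by norm_num)
    nlinarith [sq_nonneg (sy κ t)]
  rw [hsq]
  have e : sx κ t ^ 2 + (1 + sy κ t) ^ 2 = sD κ t := rfl
  rw [e]
  have h1 : d ^ 2 ≤ sD κ t ^ 2 := pow_le_pow_left₀ hd0.le hd 2
  have h2 : G * (2 * d ^ 2) ≤ G * (2 * sD κ t ^ 2) := mul_le_mul_of_nonneg_left (by linarith) hG0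
  have h3 : sx κ t * (κ ^ 2 * Real.exp (-2 * sy κ t) - 1) ≤ 1.42 * (N2 - 1) := by
    have h4 : sx κ t * (κ ^ 2 * Real.exp (-2 * sy κ t) - 1) ≤ sx κ t * (N2 - 1) :=
      mul_le_mul_of_nonneg_left (by linarith) hx0.le
    have h5 : sx κ t * (N2 - 1) ≤ 1.42 * (N2 - 1) := mul_le_mul_of_nonneg_right hx2 (by linarith)
    linarith
  linarith

end Sok.B4
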