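import Pool.Agent.Lib.MP_816dec_an.R1Ineq6

/-!
MP_816dec_an (Sokal's function), row R1: more tables (requests of `b = 6`).
-/

set_option autoImplicit false

open Set Filter Topology Real

namespace Sok

theorem pR63_090 {κ t : ℝ} (h : DomR κ t) (hl : 0.9 ≤ κ) (hk : κ ≤ 1.39) (h0 : 0 ≤ t + κ) (h1 : t + κ ≤ 0.63) :
    0.816 * (t + κ) / (1 + κ ^ 2) ≤ sp κ t := by
  have hk0 := h.1
  rcases le_total κ 1 with b1 | a1
  · exact spR_ge_box h 0.816 0.9 (1 / (1 + 1 ^ 2)) 0.6017 0.1551 0.63 _ _ _ h0 h1 hl (psi_lo hk0.le b1 (by norm_num))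
      (chi_box 0.9 0.9 1 0.6017 hk0.le hl b1 (by norm_num) (by norm_num) (by norm_num) (by norm_num) (by norm_num))
      (mu_box 0.81 0.9 1 0.1551 hl b1 (by norm_num) (by norm_num) (by norm_num) (by norm_num) (by norm_num) (by norm_num))
      (by norm_num) (by norm_num) (by norm_num) rfl (by norm_num) rfl rfl (by norm_num) (by norm_num)
  rcases le_total κ 1.1 with b2 | a2
  · exact spR_ge_box h 0.816 1 (1 / (1 + 1 ^ 2)) 0.5001 0.1459 0.63 _ _ _ h0 h1 a1 (psi_hi a1 (by norm_num))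
      (chi_box 1 1 1.1 0.5001 hk0.le a1 b2 (by norm_num) (by norm_num) (by norm_num) (by norm_num) (by norm_num))
      (mu_box 1 1 1.1 0.1459 a1 b2 (by norm_num) (by norm_num) (by norm_num) (by norm_num) (by norm_num) (by norm_num))
      (by norm_num) (by norm_num) (by norm_num) rfl (by norm_num) rfl rfl (by norm_num) (by norm_num)
  rcases le_total κ 1.2 with b3 | a3
  · exact spR_ge_box h 0.816 1.1 (1.1 / (1 + 1.1 ^ 2)) 0.4032 0.1348 0.63 _ _ _ h0 h1 a2 (psi_hi a2 (by norm_num))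
      (chi_box 1.1 1.1 1.2 0.4032 hk0.le a2 b3 (by norm_num) (by norm_num) (by norm_num) (by norm_num) (by norm_num))
      (mu_box 1.21 1.1 1.2 0.1348 a2 b3 (by norm_num) (by norm_num) (by norm_num) (by norm_num) (by norm_num) (by norm_num))
      (by norm_num) (by norm_num) (by norm_num) rfl (by norm_num) rfl rfl (by norm_num) (by norm_num)
  rcases le_total κ 1.3 with b4 | a4
  · exact spR_ge_box h 0.816 1.2 (1.2 / (1 + 1.2 ^ 2)) 0.3145 0.123 0.63 _ _ _ h0 h1 a3 (psi_hi a3 (by norm_num))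
      (chi_box 1.2 1.2 1.3 0.3145 hk0.le a3 b4 (by norm_num) (by norm_num) (by norm_num) (by norm_num) (by norm_num))
      (mu_box 1.44 1.2 1.3 0.123 a3 b4 (by norm_num) (by norm_num) (by norm_num) (by norm_num) (by norm_num) (by norm_num))
      (by norm_num) (by norm_num) (by norm_num) rfl (by norm_num) rfl rfl (by norm_num) (by norm_num)
  exact spR_ge_box h 0.816 1.3 (1.3 / (1 + 1.3 ^ 2)) 0.2354 0.1114 0.63 _ _ _ h0 h1 a4 (psi_hi a4 (by norm_num))
    (chi_box 1.3 1.3 1.39 0.2354 hk0.le a4 hk (by norm_num) (by norm_num) (by norm_num) (by norm_num) (by norm_num))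
    (mu_box 1.69 1.3 1.39 0.1114 a4 hk (by norm_num) (by norm_num) (by norm_num) (by norm_num) (by norm_num) (by norm_num))
    (by norm_num) (by norm_num) (by norm_num) rfl (by norm_num) rfl rfl (by norm_num) (by norm_num)

theorem pR63_100 {κ t : ℝ} (h : DomR κ t) (hl : 1 ≤ κ) (hk : κ ≤ 1.39) (h0 : 0 ≤ t + κ) (h1 : t + κ ≤ 0.63) :
    0.836 * (t + κ) / (1 + κ ^ 2) ≤ sp κ t := by
  have hk0 := h.1
  rcases le_total κ 1.1 with b1 | a1
  · exact spR_ge_box h 0.836 1 (1 / (1 + 1 ^ 2)) 0.5001 0.1459 0.63 _ _ _ h0 h1 hl (psi_hi hl (by norm_num))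
      (chi_box 1 1 1.1 0.5001 hk0.le hl b1 (by norm_num) (by norm_num) (by norm_num) (by norm_num) (by norm_num))
      (mu_box 1 1 1.1 0.1459 hl b1 (by norm_num) (by norm_num) (by norm_num) (by norm_num) (by norm_num) (by norm_num))
      (by norm_num) (by norm_num) (by norm_num) rfl (by norm_num) rfl rfl (by norm_num) (by norm_num)
  rcases le_total κ 1.2 with b2 | a2
  · exact spR_ge_box h 0.836 1.1 (1.1 / (1 + 1.1 ^ 2)) 0.4032 0.1348 0.63 _ _ _ h0 h1 a1 (psi_hi a1 (by norm_num))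
      (chi_box 1.1 1.1 1.2 0.4032 hk0.le a1 b2 (by norm_num) (by norm_num) (by norm_num) (by norm_num) (by norm_num))
      (mu_box 1.21 1.1 1.2 0.1348 a1 b2 (by norm_num) (by norm_num) (by norm_num) (by norm_num) (by norm_num) (by norm_num))
      (by norm_num) (by norm_num) (by norm_num) rfl (by norm_num) rfl rfl (by norm_num) (by norm_num)
  rcases le_total κ 1.3 with b3 | a3
  · exact spR_ge_box h 0.836 1.2 (1.2 / (1 + 1.2 ^ 2)) 0.3145 0.123 0.63 _ _ _ h0 h1 a2 (psi_hi a2 (by norm_num))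
      (chi_box 1.2 1.2 1.3 0.3145 hk0.le a2 b3 (by norm_num) (by norm_num) (by norm_num) (by norm_num) (by norm_num))
      (mu_box 1.44 1.2 1.3 0.123 a2 b3 (by norm_num) (by norm_num) (by norm_num) (by norm_num) (by norm_num) (by norm_num))
      (by norm_num) (by norm_num) (by norm_num) rfl (by norm_num) rfl rfl (by norm_num) (by norm_num)
  exact spR_ge_box h 0.836 1.3 (1.3 / (1 + 1.3 ^ 2)) 0.2354 0.1114 0.63 _ _ _ h0 h1 a3 (psi_hi a3 (by norm_num))
    (chi_box 1.3 1.3 1.39 0.2354 hk0.le a3 hk (by norm_num) (by norm_num) (by norm_num) (by norm_num) (by norm_num))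
    (mu_box 1.69 1.3 1.39 0.1114 a3 hk (by norm_num) (by norm_num) (by norm_num) (by norm_num) (by norm_num) (by norm_num))
    (by norm_num) (by norm_num) (by norm_num) rfl (by norm_num) rfl rfl (by norm_num) (by norm_num)

theorem pR63_110 {κ t : ℝ} (h : DomR κ t) (hl : 1.1 ≤ κ) (hk : κ ≤ 1.39) (h0 : 0 ≤ t + κ) (h1 : t + κ ≤ 0.63) :
    0.856 * (t + κ) / (1 + κ ^ 2) ≤ sp κ t := by
  have hk0 := h.1
  rcases le_total κ 1.2 with b1 | a1
  · exact spR_ge_box h 0.856 1.1 (1.1 / (1 + 1.1 ^ 2)) 0.4032 0.1348 0.63 _ _ _ h0 h1 hl (psi_hi hl (by norm_num))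
      (chi_box 1.1 1.1 1.2 0.4032 hk0.le hl b1 (by norm_num) (by norm_num) (by norm_num) (by norm_num) (by norm_num))
      (mu_box 1.21 1.1 1.2 0.1348 hl b1 (by norm_num) (by norm_num) (by norm_num) (by norm_num) (by norm_num) (by norm_num))
      (by norm_num) (by norm_num) (by norm_num) rfl (by norm_num) rfl rfl (by norm_num) (by norm_num)
  rcases le_total κ 1.3 with b2 | a2
  · exact spR_ge_box h 0.856 1.2 (1.2 / (1 + 1.2 ^ 2)) 0.3145 0.123 0.63 _ _ _ h0 h1 a1 (psi_hi a1 (by norm_num))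
      (chi_box 1.2 1.2 1.3 0.3145 hk0.le a1 b2 (by norm_num) (by norm_num) (by norm_num) (by norm_num) (by norm_num))
      (mu_box 1.44 1.2 1.3 0.123 a1 b2 (by norm_num) (by norm_num) (by norm_num) (by norm_num) (by norm_num) (by norm_num))
      (by norm_num) (by norm_num) (by norm_num) rfl (by norm_num) rfl rfl (by norm_num) (by norm_num)
  exact spR_ge_box h 0.856 1.3 (1.3 / (1 + 1.3 ^ 2)) 0.2354 0.1114 0.63 _ _ _ h0 h1 a2 (psi_hi a2 (by norm_num))
    (chi_box 1.3 1.3 1.39 0.2354 hk0.le a2 hk (by norm_num) (by norm_num) (by norm_num) (by norm_num) (by norm_num))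
    (mu_box 1.69 1.3 1.39 0.1114 a2 hk (by norm_num) (by norm_num) (by norm_num) (by norm_num) (by norm_num) (by norm_num))
    (by norm_num) (by norm_num) (by norm_num) rfl (by norm_num) rfl rfl (by norm_num) (by norm_num)

theorem pR63_120 {κ t : ℝ} (h : DomR κ t) (hl : 1.2 ≤ κ) (hk : κ ≤ 1.39) (h0 : 0 ≤ t + κ) (h1 : t + κ ≤ 0.63) :
    0.876 * (t + κ) / (1 + κ ^ 2) ≤ sp κ t := by
  have hk0 := h.1
  rcases le_total κ 1.3 with b1 | a1
  · exact spR_ge_box h 0.876 1.2 (1.2 / (1 + 1.2 ^ 2)) 0.3145 0.123 0.63 _ _ _ h0 h1 hl (psi_hi hl (by norm_num))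
      (chi_box 1.2 1.2 1.3 0.3145 hk0.le hl b1 (by norm_num) (by norm_num) (by norm_num) (by norm_num) (by norm_num))
      (mu_box 1.44 1.2 1.3 0.123 hl b1 (by norm_num) (by norm_num) (by norm_num) (by norm_num) (by norm_num) (by norm_num))
      (by norm_num) (by norm_num) (by norm_num) rfl (by norm_num) rfl rfl (by norm_num) (by norm_num)
  exact spR_ge_box h 0.876 1.3 (1.3 / (1 + 1.3 ^ 2)) 0.2354 0.1114 0.63 _ _ _ h0 h1 a1 (psi_hi a1 (by norm_num))
    (chi_box 1.3 1.3 1.39 0.2354 hk0.le a1 hk (by norm_num) (by norm_num) (by norm_num) (by norm_num) (by norm_num))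
    (mu_box 1.69 1.3 1.39 0.1114 a1 hk (by norm_num) (by norm_num) (by norm_num) (by norm_num) (by norm_num) (by norm_num))
    (by norm_num) (by norm_num) (by norm_num) rfl (by norm_num) rfl rfl (by norm_num) (by norm_num)

theorem pR63_130 {κ t : ℝ} (h : DomR κ t) (hl : 1.3 ≤ κ) (hk : κ ≤ 1.39) (h0 : 0 ≤ t + κ) (h1 : t + κ ≤ 0.63) :
    0.896 * (t + κ) / (1 + κ ^ 2) ≤ sp κ t := by
  have hk0 := h.1
  exact spR_ge_box h 0.896 1.3 (1.3 / (1 + 1.3 ^ 2)) 0.2354 0.1114 0.63 _ _ _ h0 h1 hl (psi_hi hl (by norm_num))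
    (chi_box 1.3 1.3 1.39 0.2354 hk0.le hl hk (by norm_num) (by norm_num) (by norm_num) (by norm_num) (by norm_num))
    (mu_box 1.69 1.3 1.39 0.1114 hl hk (by norm_num) (by norm_num) (by norm_num) (by norm_num) (by norm_num) (by norm_num))
    (by norm_num) (by norm_num) (by norm_num) rfl (by norm_num) rfl rfl (by norm_num) (by norm_num)

theorem pLu_043_050 {κ t : ℝ} (h : DomR κ t) (hl : 0.3 ≤ κ) (hk : κ ≤ 1.39) (h0 : 0.43 ≤ -(t + κ)) (h1 : -(t + κ) ≤ 0.5) :
    1.36 * (t + κ) / (1 + κ ^ 2) ≤ sp κ t := by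
  have hk0 := h.1
  rcases le_total κ 0.35 with b1 | a1
  · exact spL_le_box h 1.36 0.3 0.35 (0.35 / (1 + 0.35 ^ 2)) 0.7994 0.0643 0.43 0.5 ((0.35 / (1 + 0.35 ^ 2)) * (1.36 * 0.5)) _ h0 h1 (by norm_num) hl b1 (psi_lo hk0.le b1 (by norm_num))
      (chi_box 0.35 0.3 0.35 0.7994 hk0.le hl b1 (by norm_num) (by norm_num) (by norm_num) (by norm_num) (by norm_num))
      (mul_box 0.09 0.3 0.35 0.0643 _ hl b1 (by norm_num) (by norm_num) (by norm_num) (by norm_num) (by norm_num))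
      (by norm_num) (by norm_num) (by norm_num) rfl (by norm_num) rfl (by norm_num) (by norm_num) (by norm_num)
  rcases le_total κ 0.4 with b2 | a2
  · exact spL_le_box h 1.36 0.35 0.4 (0.4 / (1 + 0.4 ^ 2)) 0.8443 0.0798 0.43 0.5 ((0.4 / (1 + 0.4 ^ 2)) * (1.36 * 0.5)) _ h0 h1 (by norm_num) a1 b2 (psi_lo hk0.le b2 (by norm_num))
      (chi_box 0.4 0.35 0.4 0.8443 hk0.le a1 b2 (by norm_num) (by norm_num) (by norm_num) (by norm_num) (by norm_num))
      (mul_box 0.122 0.35 0.4 0.0798 _ a1 b2 (by norm_num) (by norm_num) (by norm_num) (by norm_num) (by norm_num))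
      (by norm_num) (by norm_num) (by norm_num) rfl (by norm_num) rfl (by norm_num) (by norm_num) (by norm_num)
  rcases le_total κ 0.45 with b3 | a3
  · exact spL_le_box h 1.36 0.4 0.45 (0.45 / (1 + 0.45 ^ 2)) 0.8707 0.0943 0.43 0.5 ((0.45 / (1 + 0.45 ^ 2)) * (1.36 * 0.5)) _ h0 h1 (by norm_num) a2 b3 (psi_lo hk0.le b3 (by norm_num))
      (chi_box 0.45 0.4 0.45 0.8707 hk0.le a2 b3 (by norm_num) (by norm_num) (by norm_num) (by norm_num) (by norm_num))
      (mul_box 0.16 0.4 0.45 0.0943 _ a2 b3 (by norm_num) (by norm_num) (by norm_num) (by norm_num) (by norm_num))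
      (by norm_num) (by norm_num) (by norm_num) rfl (by norm_num) rfl (by norm_num) (by norm_num) (by norm_num)
  rcases le_total κ 0.5 with b4 | a4
  · exact spL_le_box h 1.36 0.45 0.5 (0.5 / (1 + 0.5 ^ 2)) 0.8801 0.1071 0.43 0.5 ((0.5 / (1 + 0.5 ^ 2)) * (1.36 * 0.5)) _ h0 h1 (by norm_num) a3 b4 (psi_lo hk0.le b4 (by norm_num))
      (chi_box 0.5 0.45 0.5 0.8801 hk0.le a3 b4 (by norm_num) (by norm_num) (by norm_num) (by norm_num) (by norm_num))
      (mul_box 0.203 0.45 0.5 0.1071 _ a3 b4 (by norm_num) (by norm_num) (by norm_num) (by norm_num) (by norm_num))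
      (by norm_num) (by norm_num) (by norm_num) rfl (by norm_num) rfl (by norm_num) (by norm_num) (by norm_num)
  rcases le_total κ 0.55 with b5 | a5
  · exact spL_le_box h 1.36 0.5 0.55 (0.55 / (1 + 0.55 ^ 2)) 0.8803 0.1179 0.43 0.5 ((0.55 / (1 + 0.55 ^ 2)) * (1.36 * 0.5)) _ h0 h1 (by norm_num) a4 b5 (psi_lo hk0.le b5 (by norm_num))
      (chi_box 0.505 0.5 0.55 0.8803 hk0.le a4 b5 (by norm_num) (by norm_num) (by norm_num) (by norm_num) (by norm_num))
      (mul_box 0.25 0.5 0.55 0.1179 _ a4 b5 (by norm_num) (by norm_num) (by norm_num) (by norm_num) (by norm_num))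
      (by norm_num) (by norm_num) (by norm_num) rfl (by norm_num) rfl (by norm_num) (by norm_num) (by norm_num)
  rcases le_total κ 0.6 with b6 | a6
  · exact spL_le_box h 1.36 0.55 0.6 (0.6 / (1 + 0.6 ^ 2)) 0.8746 0.1266 0.43 0.5 ((0.6 / (1 + 0.6 ^ 2)) * (1.36 * 0.5)) _ h0 h1 (by norm_num) a5 b6 (psi_lo hk0.le b6 (by norm_num))
      (chi_box 0.55 0.55 0.6 0.8746 hk0.le a5 b6 (by norm_num) (by norm_num) (by norm_num) (by norm_num) (by norm_num))
      (mul_box 0.303 0.55 0.6 0.1266 _ a5 b6 (by norm_num) (by norm_num) (by norm_num) (by norm_num) (by norm_num))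
      (by norm_num) (by norm_num) (by norm_num) rfl (by norm_num) rfl (by norm_num) (by norm_num) (by norm_num)
  rcases le_total κ 0.7 with b7 | a7
  · exact spL_le_box h 1.36 0.6 0.7 (0.7 / (1 + 0.7 ^ 2)) 0.8565 0.1326 0.43 0.5 ((0.7 / (1 + 0.7 ^ 2)) * (1.36 * 0.5)) _ h0 h1 (by norm_num) a6 b7 (psi_lo hk0.le b7 (by norm_num))
      (chi_box 0.6 0.6 0.7 0.8565 hk0.le a6 b7 (by norm_num) (by norm_num) (by norm_num) (by norm_num) (by norm_num))
      (mul_box 0.36 0.6 0.7 0.1326 _ a6 b7 (by norm_num) (by norm_num) (by norm_num) (by norm_num) (by norm_num))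
      (by norm_num) (by norm_num) (by norm_num) rfl (by norm_num) rfl (by norm_num) (by norm_num) (by norm_num)
  rcases le_total κ 0.85 with b8 | a8
  · exact spL_le_box h 1.36 0.7 0.85 (0.85 / (1 + 0.85 ^ 2)) 0.7915 0.1382 0.43 0.5 ((0.85 / (1 + 0.85 ^ 2)) * (1.36 * 0.5)) _ h0 h1 (by norm_num) a7 b8 (psi_lo hk0.le b8 (by norm_num))
      (chi_box 0.7 0.7 0.85 0.7915 hk0.le a7 b8 (by norm_num) (by norm_num) (by norm_num) (by norm_num) (by norm_num))
      (mul_box 0.629 0.7 0.85 0.1382 _ a7 b8 (by norm_num) (by norm_num) (by norm_num) (by norm_num) (by norm_num))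
      (by norm_num) (by norm_num) (by norm_num) rfl (by norm_num) rfl (by norm_num) (by norm_num) (by norm_num)
  rcases le_total κ 1.1 with b9 | a9
  · exact spL_le_box h 1.36 0.85 1.1 (1 / 2) 0.6526 0.1187 0.43 0.5 ((1 / 2) * (1.36 * 0.5)) _ h0 h1 (by norm_num) a8 b9 psi_half
      (chi_box 0.85 0.85 1.1 0.6526 hk0.le a8 b9 (by norm_num) (by norm_num) (by norm_num) (by norm_num) (by norm_num))
      (mul_box 1.21 0.85 1.1 0.1187 _ a8 b9 (by norm_num) (by norm_num) (by norm_num) (by norm_num) (by norm_num))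
      (by norm_num) (by norm_num) (by norm_num) rfl (by norm_num) rfl (by norm_num) (by norm_num) (by norm_num)
  exact spL_le_box h 1.36 1.1 1.39 (1.1 / (1 + 1.1 ^ 2)) 0.4032 0.0904 0.43 0.5 ((1.1 / (1 + 1.1 ^ 2)) * (1.36 * 0.5)) _ h0 h1 (by norm_num) a9 hk (psi_hi a9 (by norm_num))
    (chi_box 1.1 1.1 1.39 0.4032 hk0.le a9 hk (by norm_num) (by norm_num) (by norm_num) (by norm_num) (by norm_num))
    (mul_box 1.932 1.1 1.39 0.0904 _ a9 hk (by norm_num) (by norm_num) (by norm_num) (by norm_num) (by norm_num))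
    (by norm_num) (by norm_num) (by norm_num) rfl (by norm_num) rfl (by norm_num) (by norm_num) (by norm_num)

theorem pLu_050_055 {κ t : ℝ} (h : DomR κ t) (hl : 0.3 ≤ κ) (hk : κ ≤ 1.39) (h0 : 0.5 ≤ -(t + κ)) (h1 : -(t + κ) ≤ 0.55) :
    1.4 * (t + κ) / (1 + κ ^ 2) ≤ sp κ t := by
  have hk0 := h.1
  rcases le_total κ 0.35 with b1 | a1
  · exact spL_le_box h 1.4 0.3 0.35 (0.35 / (1 + 0.35 ^ 2)) 0.7994 0.0635 0.5 0.55 ((0.35 / (1 + 0.35 ^ 2)) * (1.4 * 0.55)) _ h0 h1 (by norm_num) hl b1 (psi_lo hk0.le b1 (by norm_num))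
      (chi_box 0.35 0.3 0.35 0.7994 hk0.le hl b1 (by norm_num) (by norm_num) (by norm_num) (by norm_num) (by norm_num))
      (mul_box 0.09 0.3 0.35 0.0635 _ hl b1 (by norm_num) (by norm_num) (by norm_num) (by norm_num) (by norm_num))
      (by norm_num) (by norm_num) (by norm_num) rfl (by norm_num) rfl (by norm_num) (by norm_num) (by norm_num)
  rcases le_total κ 0.4 with b2 | a2
  · exact spL_le_box h 1.4 0.35 0.4 (0.4 / (1 + 0.4 ^ 2)) 0.8443 0.0787 0.5 0.55 ((0.4 / (1 + 0.4 ^ 2)) * (1.4 * 0.55)) _ h0 h1 (by norm_num) a1 b2 (psi_lo hk0.le b2 (by norm_num))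
      (chi_box 0.4 0.35 0.4 0.8443 hk0.le a1 b2 (by norm_num) (by norm_num) (by norm_num) (by norm_num) (by norm_num))
      (mul_box 0.122 0.35 0.4 0.0787 _ a1 b2 (by norm_num) (by norm_num) (by norm_num) (by norm_num) (by norm_num))
      (by norm_num) (by norm_num) (by norm_num) rfl (by norm_num) rfl (by norm_num) (by norm_num) (by norm_num)
  rcases le_total κ 0.45 with b3 | a3
  · exact spL_le_box h 1.4 0.4 0.45 (0.45 / (1 + 0.45 ^ 2)) 0.8707 0.0928 0.5 0.55 ((0.45 / (1 + 0.45 ^ 2)) * (1.4 * 0.55)) _ h0 h1 (by norm_num) a2 b3 (psi_lo hk0.le b3 (by norm_num))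
      (chi_box 0.45 0.4 0.45 0.8707 hk0.le a2 b3 (by norm_num) (by norm_num) (by norm_num) (by norm_num) (by norm_num))
      (mul_box 0.16 0.4 0.45 0.0928 _ a2 b3 (by norm_num) (by norm_num) (by norm_num) (by norm_num) (by norm_num))
      (by norm_num) (by norm_num) (by norm_num) rfl (by norm_num) rfl (by norm_num) (by norm_num) (by norm_num)
  rcases le_total κ 0.5 with b4 | a4
  · exact spL_le_box h 1.4 0.45 0.5 (0.5 / (1 + 0.5 ^ 2)) 0.8801 0.1053 0.5 0.55 ((0.5 / (1 + 0.5 ^ 2)) * (1.4 * 0.55)) _ h0 h1 (by norm_num) a3 b4 (psi_lo hk0.le b4 (by norm_num))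
      (chi_box 0.5 0.45 0.5 0.8801 hk0.le a3 b4 (by norm_num) (by norm_num) (by norm_num) (by norm_num) (by norm_num))
      (mul_box 0.203 0.45 0.5 0.1053 _ a3 b4 (by norm_num) (by norm_num) (by norm_num) (by norm_num) (by norm_num))
      (by norm_num) (by norm_num) (by norm_num) rfl (by norm_num) rfl (by norm_num) (by norm_num) (by norm_num)
  rcases le_total κ 0.55 with b5 | a5
  · exact spL_le_box h 1.4 0.5 0.55 (0.55 / (1 + 0.55 ^ 2)) 0.8803 0.1159 0.5 0.55 ((0.55 / (1 + 0.55 ^ 2)) * (1.4 * 0.55)) _ h0 h1 (by norm_num) a4 b5 (psi_lo hk0.le b5 (by norm_num))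
      (chi_box 0.505 0.5 0.55 0.8803 hk0.le a4 b5 (by norm_num) (by norm_num) (by norm_num) (by norm_num) (by norm_num))
      (mul_box 0.25 0.5 0.55 0.1159 _ a4 b5 (by norm_num) (by norm_num) (by norm_num) (by norm_num) (by norm_num))
      (by norm_num) (by norm_num) (by norm_num) rfl (by norm_num) rfl (by norm_num) (by norm_num) (by norm_num)
  rcases le_total κ 0.6 with b6 | a6
  · exact spL_le_box h 1.4 0.55 0.6 (0.6 / (1 + 0.6 ^ 2)) 0.8746 0.1243 0.5 0.55 ((0.6 / (1 + 0.6 ^ 2)) * (1.4 * 0.55)) _ h0 h1 (by norm_num) a5 b6 (psi_lo hk0.le b6 (by norm_num))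
      (chi_box 0.55 0.55 0.6 0.8746 hk0.le a5 b6 (by norm_num) (by norm_num) (by norm_num) (by norm_num) (by norm_num))
      (mul_box 0.303 0.55 0.6 0.1243 _ a5 b6 (by norm_num) (by norm_num) (by norm_num) (by norm_num) (by norm_num))
      (by norm_num) (by norm_num) (by norm_num) rfl (by norm_num) rfl (by norm_num) (by norm_num) (by norm_num)
  rcases le_total κ 0.7 with b7 | a7
  · exact spL_le_box h 1.4 0.6 0.7 (0.7 / (1 + 0.7 ^ 2)) 0.8565 0.13 0.5 0.55 ((0.7 / (1 + 0.7 ^ 2)) * (1.4 * 0.55)) _ h0 h1 (by norm_num) a6 b7 (psi_lo hk0.le b7 (by norm_num))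
      (chi_box 0.6 0.6 0.7 0.8565 hk0.le a6 b7 (by norm_num) (by norm_num) (by norm_num) (by norm_num) (by norm_num))
      (mul_box 0.36 0.6 0.7 0.13 _ a6 b7 (by norm_num) (by norm_num) (by norm_num) (by norm_num) (by norm_num))
      (by norm_num) (by norm_num) (by norm_num) rfl (by norm_num) rfl (by norm_num) (by norm_num) (by norm_num)
  rcases le_total κ 0.85 with b8 | a8
  · exact spL_le_box h 1.4 0.7 0.85 (0.85 / (1 + 0.85 ^ 2)) 0.7915 0.1356 0.5 0.55 ((0.85 / (1 + 0.85 ^ 2)) * (1.4 * 0.55)) _ h0 h1 (by norm_num) a7 b8 (psi_lo hk0.le b8 (by norm_num))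
      (chi_box 0.7 0.7 0.85 0.7915 hk0.le a7 b8 (by norm_num) (by norm_num) (by norm_num) (by norm_num) (by norm_num))
      (mul_box 0.629 0.7 0.85 0.1356 _ a7 b8 (by norm_num) (by norm_num) (by norm_num) (by norm_num) (by norm_num))
      (by norm_num) (by norm_num) (by norm_num) rfl (by norm_num) rfl (by norm_num) (by norm_num) (by norm_num)
  rcases le_total κ 1.1 with b9 | a9
  · exact spL_le_box h 1.4 0.85 1.1 (1 / 2) 0.6526 0.1166 0.5 0.55 ((1 / 2) * (1.4 * 0.55)) _ h0 h1 (by norm_num) a8 b9 psi_half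
      (chi_box 0.85 0.85 1.1 0.6526 hk0.le a8 b9 (by norm_num) (by norm_num) (by norm_num) (by norm_num) (by norm_num))
      (mul_box 1.21 0.85 1.1 0.1166 _ a8 b9 (by norm_num) (by norm_num) (by norm_num) (by norm_num) (by norm_num))
      (by norm_num) (by norm_num) (by norm_num) rfl (by norm_num) rfl (by norm_num) (by norm_num) (by norm_num)
  exact spL_le_box h 1.4 1.1 1.39 (1.1 / (1 + 1.1 ^ 2)) 0.4032 0.089 0.5 0.55 ((1.1 / (1 + 1.1 ^ 2)) * (1.4 * 0.55)) _ h0 h1 (by norm_num) a9 hk (psi_hi a9 (by norm_num))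
    (chi_box 1.1 1.1 1.39 0.4032 hk0.le a9 hk (by norm_num) (by norm_num) (by norm_num) (by norm_num) (by norm_num))
    (mul_box 1.932 1.1 1.39 0.089 _ a9 hk (by norm_num) (by norm_num) (by norm_num) (by norm_num) (by norm_num))
    (by norm_num) (by norm_num) (by norm_num) rfl (by norm_num) rfl (by norm_num) (by norm_num) (by norm_num)

theorem pLu_055_060 {κ t : ℝ} (h : DomR κ t) (hl : 0.3 ≤ κ) (hk : κ ≤ 1.39) (h0 : 0.55 ≤ -(t + κ)) (h1 : -(t + κ) ≤ 0.6) :
    1.45 * (t + κ) / (1 + κ ^ 2) ≤ sp κ t := by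
  have hk0 := h.1
  rcases le_total κ 0.35 with b1 | a1
  · exact spL_le_box h 1.45 0.3 0.35 (0.35 / (1 + 0.35 ^ 2)) 0.7994 0.0626 0.55 0.6 ((0.35 / (1 + 0.35 ^ 2)) * (1.45 * 0.6)) _ h0 h1 (by norm_num) hl b1 (psi_lo hk0.le b1 (by norm_num))
      (chi_box 0.35 0.3 0.35 0.7994 hk0.le hl b1 (by norm_num) (by norm_num) (by norm_num) (by norm_num) (by norm_num))
      (mul_box 0.09 0.3 0.35 0.0626 _ hl b1 (by norm_num) (by norm_num) (by norm_num) (by norm_num) (by norm_num))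
      (by norm_num) (by norm_num) (by norm_num) rfl (by norm_num) rfl (by norm_num) (by norm_num) (by norm_num)
  rcases le_total κ 0.4 with b2 | a2
  · exact spL_le_box h 1.45 0.35 0.4 (0.4 / (1 + 0.4 ^ 2)) 0.8443 0.0775 0.55 0.6 ((0.4 / (1 + 0.4 ^ 2)) * (1.45 * 0.6)) _ h0 h1 (by norm_num) a1 b2 (psi_lo hk0.le b2 (by norm_num))
      (chi_box 0.4 0.35 0.4 0.8443 hk0.le a1 b2 (by norm_num) (by norm_num) (by norm_num) (by norm_num) (by norm_num))
      (mul_box 0.122 0.35 0.4 0.0775 _ a1 b2 (by norm_num) (by norm_num) (by norm_num) (by norm_num) (by norm_num))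
      (by norm_num) (by norm_num) (by norm_num) rfl (by norm_num) rfl (by norm_num) (by norm_num) (by norm_num)
  rcases le_total κ 0.45 with b3 | a3
  · exact spL_le_box h 1.45 0.4 0.45 (0.45 / (1 + 0.45 ^ 2)) 0.8707 0.0912 0.55 0.6 ((0.45 / (1 + 0.45 ^ 2)) * (1.45 * 0.6)) _ h0 h1 (by norm_num) a2 b3 (psi_lo hk0.le b3 (by norm_num))
      (chi_box 0.45 0.4 0.45 0.8707 hk0.le a2 b3 (by norm_num) (by norm_num) (by norm_num) (by norm_num) (by norm_num))
      (mul_box 0.16 0.4 0.45 0.0912 _ a2 b3 (by norm_num) (by norm_num) (by norm_num) (by norm_num) (by norm_num))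
      (by norm_num) (by norm_num) (by norm_num) rfl (by norm_num) rfl (by norm_num) (by norm_num) (by norm_num)
  rcases le_total κ 0.5 with b4 | a4
  · exact spL_le_box h 1.45 0.45 0.5 (0.5 / (1 + 0.5 ^ 2)) 0.8801 0.1034 0.55 0.6 ((0.5 / (1 + 0.5 ^ 2)) * (1.45 * 0.6)) _ h0 h1 (by norm_num) a3 b4 (psi_lo hk0.le b4 (by norm_num))
      (chi_box 0.5 0.45 0.5 0.8801 hk0.le a3 b4 (by norm_num) (by norm_num) (by norm_num) (by norm_num) (by norm_num))
      (mul_box 0.203 0.45 0.5 0.1034 _ a3 b4 (by norm_num) (by norm_num) (by norm_num) (by norm_num) (by norm_num))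
      (by norm_num) (by norm_num) (by norm_num) rfl (by norm_num) rfl (by norm_num) (by norm_num) (by norm_num)
  rcases le_total κ 0.55 with b5 | a5
  · exact spL_le_box h 1.45 0.5 0.55 (0.55 / (1 + 0.55 ^ 2)) 0.8803 0.1136 0.55 0.6 ((0.55 / (1 + 0.55 ^ 2)) * (1.45 * 0.6)) _ h0 h1 (by norm_num) a4 b5 (psi_lo hk0.le b5 (by norm_num))
      (chi_box 0.505 0.5 0.55 0.8803 hk0.le a4 b5 (by norm_num) (by norm_num) (by norm_num) (by norm_num) (by norm_num))
      (mul_box 0.25 0.5 0.55 0.1136 _ a4 b5 (by norm_num) (by norm_num) (by norm_num) (by norm_num) (by norm_num))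
      (by norm_num) (by norm_num) (by norm_num) rfl (by norm_num) rfl (by norm_num) (by norm_num) (by norm_num)
  rcases le_total κ 0.6 with b6 | a6
  · exact spL_le_box h 1.45 0.55 0.6 (0.6 / (1 + 0.6 ^ 2)) 0.8746 0.1218 0.55 0.6 ((0.6 / (1 + 0.6 ^ 2)) * (1.45 * 0.6)) _ h0 h1 (by norm_num) a5 b6 (psi_lo hk0.le b6 (by norm_num))
      (chi_box 0.55 0.55 0.6 0.8746 hk0.le a5 b6 (by norm_num) (by norm_num) (by norm_num) (by norm_num) (by norm_num))
      (mul_box 0.303 0.55 0.6 0.1218 _ a5 b6 (by norm_num) (by norm_num) (by norm_num) (by norm_num) (by norm_num))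
      (by norm_num) (by norm_num) (by norm_num) rfl (by norm_num) rfl (by norm_num) (by norm_num) (by norm_num)
  rcases le_total κ 0.7 with b7 | a7
  · exact spL_le_box h 1.45 0.6 0.7 (0.7 / (1 + 0.7 ^ 2)) 0.8565 0.1272 0.55 0.6 ((0.7 / (1 + 0.7 ^ 2)) * (1.45 * 0.6)) _ h0 h1 (by norm_num) a6 b7 (psi_lo hk0.le b7 (by norm_num))
      (chi_box 0.6 0.6 0.7 0.8565 hk0.le a6 b7 (by norm_num) (by norm_num) (by norm_num) (by norm_num) (by norm_num))
      (mul_box 0.36 0.6 0.7 0.1272 _ a6 b7 (by norm_num) (by norm_num) (by norm_num) (by norm_num) (by norm_num))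
      (by norm_num) (by norm_num) (by norm_num) rfl (by norm_num) rfl (by norm_num) (by norm_num) (by norm_num)
  rcases le_total κ 0.85 with b8 | a8
  · exact spL_le_box h 1.45 0.7 0.85 (0.85 / (1 + 0.85 ^ 2)) 0.7915 0.1326 0.55 0.6 ((0.85 / (1 + 0.85 ^ 2)) * (1.45 * 0.6)) _ h0 h1 (by norm_num) a7 b8 (psi_lo hk0.le b8 (by norm_num))
      (chi_box 0.7 0.7 0.85 0.7915 hk0.le a7 b8 (by norm_num) (by norm_num) (by norm_num) (by norm_num) (by norm_num))
      (mul_box 0.629 0.7 0.85 0.1326 _ a7 b8 (by norm_num) (by norm_num) (by norm_num) (by norm_num) (by norm_num))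
      (by norm_num) (by norm_num) (by norm_num) rfl (by norm_num) rfl (by norm_num) (by norm_num) (by norm_num)
  rcases le_total κ 1.1 with b9 | a9
  · exact spL_le_box h 1.45 0.85 1.1 (1 / 2) 0.6526 0.1143 0.55 0.6 ((1 / 2) * (1.45 * 0.6)) _ h0 h1 (by norm_num) a8 b9 psi_half
      (chi_box 0.85 0.85 1.1 0.6526 hk0.le a8 b9 (by norm_num) (by norm_num) (by norm_num) (by norm_num) (by norm_num))
      (mul_box 1.21 0.85 1.1 0.1143 _ a8 b9 (by norm_num) (by norm_num) (by norm_num) (by norm_num) (by norm_num))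
      (by norm_num) (by norm_num) (by norm_num) rfl (by norm_num) rfl (by norm_num) (by norm_num) (by norm_num)
  exact spL_le_box h 1.45 1.1 1.39 (1.1 / (1 + 1.1 ^ 2)) 0.4032 0.0874 0.55 0.6 ((1.1 / (1 + 1.1 ^ 2)) * (1.45 * 0.6)) _ h0 h1 (by norm_num) a9 hk (psi_hi a9 (by norm_num))
    (chi_box 1.1 1.1 1.39 0.4032 hk0.le a9 hk (by norm_num) (by norm_num) (by norm_num) (by norm_num) (by norm_num))
    (mul_box 1.932 1.1 1.39 0.0874 _ a9 hk (by norm_num) (by norm_num) (by norm_num) (by norm_num) (by norm_num))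
    (by norm_num) (by norm_num) (by norm_num) rfl (by norm_num) rfl (by norm_num) (by norm_num) (by norm_num)

/-- the three together -/
theorem pLu_043_060 {κ t : ℝ} (h : DomR κ t) (hl : 0.3 ≤ κ) (hk : κ ≤ 1.39) (h0 : 0.43 ≤ -(t + κ)) (h1 : -(t + κ) ≤ 0.6) :
    1.45 * (t + κ) / (1 + κ ^ 2) ≤ sp κ t := by
  have hA : 0 < 1 + κ ^ 2 := by positivity
  have key : ∀ c : ℝ, c ≤ 1.45 → 1.45 * (t + κ) / (1 + κ ^ 2) ≤ c * (t + κ) / (1 + κ ^ 2) := by
    intro c hc
    apply div_le_div_of_nonneg_right _ hA.le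
    nlinarith
  rcases le_total (-(t + κ)) 0.5 with h2 | h2
  · exact (key _ (by norm_num)).trans (pLu_043_050 h hl hk h0 h2)
  rcases le_total (-(t + κ)) 0.55 with h3 | h3
  · exact (key _ (by norm_num)).trans (pLu_050_055 h hl hk h2 h3)
  · exact pLu_055_060 h hl hk h3 h1

/-- left hand side: `|τ|/(1+κ²) ≤ |p|` -/
theorem pL_one {κ t : ℝ} (h : DomR κ t) (hl : 0.3 ≤ κ) (hk : κ ≤ 1.39) (h0 : 0 ≤ -(t + κ)) (h1 : -(t + κ) ≤ 0.65) :
    sp κ t ≤ (t + κ) / (1 + κ ^ 2) := by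
  have hk0 := h.1
  have hA : 0 < 1 + κ ^ 2 := by positivity
  obtain ⟨P, hP⟩ : ∃ P, P = -(t + κ) / (1 + κ ^ 2) := ⟨_, rfl⟩
  have hg : (t + κ) / (1 + κ ^ 2) = -P := by rw [hP]; ring
  rw [hg]
  have hP0 : 0 ≤ P := by rw [hP]; exact div_nonneg h0 hA.le
  have hPA : P * (1 + κ ^ 2) = -(t + κ) := by rw [hP]; field_simp
  have hPm : P * (1 + κ ^ 2) ≤ 0.65 := by rw [hPA]; exact h1
  have hP6 : P ≤ 0.6 := by nlinarith
  obtain ⟨z, hz⟩ : ∃ z, z = κ * P := ⟨_, rfl⟩
  have hz0 : 0 ≤ z := by rw [hz]; positivity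
  have hz1 : z ≤ 0.325 := by
    have h2 : 2 * z ≤ P * (1 + κ ^ 2) := by rw [hz]; nlinarith [mul_nonneg hP0 (sq_nonneg (κ - 1))]
    linarith
  have ez : κ * -P = -z := by rw [hz]; ring
  have hez := exp_pos (-z)
  have hez1 : exp (-z) ≤ 1 := exp_le_one_iff.2 (by linarith)
  obtain ⟨q, hq⟩ : ∃ q, q = P * exp (-z) := ⟨_, rfl⟩
  have hq0 : 0 ≤ q := by rw [hq]; positivity
  have hqP : q ≤ P := by rw [hq]; nlinarith
  apply sp_le_of h
  · rw [ez, abs_neg, abs_of_nonneg hP0, ← hq]; linarith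
  · right; rw [ez]; linarith
  · rw [ez, neg_neg]
    have e0 : -P * exp (-z) = -q := by rw [hq]; ring
    rw [e0, arcsin_neg, neg_sq]
    have h2 := r1_arcsin_le hq0 (by linarith : q ≤ 4 / 5)
    have h3 := r1_sqrt_le (q := q) (by rw [abs_of_nonneg hq0]; linarith)
    have h4 := r1_exp_le2 (z := -z) (by linarith)
    have he' := exp_pos z
    have e1 : exp (-z) * exp z = 1 := by rw [← exp_add, neg_add_cancel, exp_zero]
    have h5 := r1_exp_le3 hz0 (by linarith)
    have h6 : κ * exp z * sqrt (1 - q ^ 2) ≤ κ * exp z * (1 - q ^ 2 / 2) := by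
      apply mul_le_mul_of_nonneg_left _ (by positivity)
      have : 0 ≤ q ^ 4 := by positivity
      linarith
    have e2 : κ * exp z * (1 - q ^ 2 / 2) = κ * exp z - z * q / 2 := by
      have : κ * exp z * q ^ 2 = z * q := by
        rw [hq]
        calc κ * exp z * (P * exp (-z)) ^ 2 = (κ * P) * (P * exp (-z)) * (exp (-z) * exp z) := by ring
          _ = z * (P * exp (-z)) := by rw [e1, ← hz]; ring
      linarith
    rw [e2] at h6
    have h7 := mul_le_mul_of_nonneg_left h5 hk0.le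
    -- main estimate
    have h8 : q * (1 - z / 2) ≤ P * (1 - z + z ^ 2 / 2) * (1 - z / 2) := by
      apply mul_le_mul_of_nonneg_right _ (by linarith)
      rw [hq]
      apply mul_le_mul_of_nonneg_left _ hP0
      linarith [h4]
    have h9 : q ^ 3 / 6 + 0.17 * q ^ 5 ≤ P ^ 3 * (1 / 6 + 0.17 * P ^ 2) := by
      have a1 : q ^ 3 ≤ P ^ 3 := pow_le_pow_left₀ hq0 hqP 3
      have a2 : q ^ 5 ≤ P ^ 5 := pow_le_pow_left₀ hq0 hqP 5
      linarith only [a1, a2]
    have hcore : P / κ * (1 / 6 + 0.17 * P ^ 2) + κ ^ 2 / 2 + κ ^ 2 * z / 5 + z - z ^ 2 / 4 ≤ 3 / 2 := by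
      have b1 : 0 ≤ z ^ 2 / 4 := by positivity
      rcases le_total κ 1 with c1 | c1
      · have b2 : P / κ ≤ 1.99 := by
          rw [div_le_iff₀ hk0]; nlinarith
        have b3 : 1 / 6 + 0.17 * P ^ 2 ≤ 0.228 := by nlinarith
        have b4 : P / κ * (1 / 6 + 0.17 * P ^ 2) ≤ 1.99 * 0.228 := mul_le_mul b2 b3 (by positivity) (by norm_num)
        have b5 : κ ^ 2 ≤ 1 := by nlinarith
        have b6 : κ ^ 2 * z ≤ 1 * 0.325 := mul_le_mul b5 hz1 hz0 (by norm_num)
        linarith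
      · have b0 : P ≤ 0.325 := by nlinarith
        have b2 : P / κ ≤ 0.325 := by
          rw [div_le_iff₀ hk0]; nlinarith
        have b3 : 1 / 6 + 0.17 * P ^ 2 ≤ 0.185 := by nlinarith
        have b4 : P / κ * (1 / 6 + 0.17 * P ^ 2) ≤ 0.325 * 0.185 := mul_le_mul b2 b3 (by positivity) (by norm_num)
        have b5 : κ ^ 2 ≤ 1.9321 := by nlinarith
        have b6 : κ ^ 2 * z ≤ 1.9321 * 0.325 := mul_le_mul b5 hz1 hz0 (by norm_num)
        linarith
    have h10 : 0 ≤ P * z := mul_nonneg hP0 hz0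
    have h11 := mul_le_mul_of_nonneg_left hcore h10
    have e3 : P * z * (P / κ * (1 / 6 + 0.17 * P ^ 2) + κ ^ 2 / 2 + κ ^ 2 * z / 5 + z - z ^ 2 / 4) =
        P ^ 3 * (1 / 6 + 0.17 * P ^ 2) + κ * (z ^ 2 / 2 + z ^ 3 / 5) + P * (z ^ 2 - z ^ 3 / 4) := by
      rw [hz]
      field_simp
      ring
    rw [e3] at h11
    have e4 : P * (1 - z + z ^ 2 / 2) * (1 - z / 2) = P * (1 - 3 * z / 2 + z ^ 2 - z ^ 3 / 4) := by ring
    rw [e4] at h8
    have e5 : t = -κ - P * (1 + κ ^ 2) := by rw [hPA]; ring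
    rw [e5]
    have e6 : P * κ ^ 2 = κ * z := by rw [hz]; ring
    linarith only [h2, h6, h7, h8, h9, h11, e6]

/-- right hand side: a lower bound of `y` from the angle -/
theorem y_ge_right {κ t : ℝ} (h : DomR κ t) (y0 E g m τm : ℝ) (hy0 : 0 < y0) (hE : y0 * exp y0 ≤ E)
    (hg : g ≤ exp (-y0)) (hg0 : 0 ≤ g) (hκE : E < κ) (hm : π / 2 - τm ≤ m) (_hm0 : 0 ≤ m)
    (hC : κ ^ 2 * (κ + m) ^ 2 ≤ (κ ^ 2 - E ^ 2) * (1 + κ * g) ^ 2) (hτ : τm ≤ t + κ) : y0 ≤ sy κ t := by
  have hk := h.1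
  have hpi := pi_pos
  have hex := exp_pos y0
  have e0 : κ * (y0 / κ) = y0 := by field_simp
  obtain ⟨q, hq⟩ : ∃ q, q = y0 / κ * exp y0 := ⟨_, rfl⟩
  have hq0 : 0 ≤ q := by rw [hq]; positivity
  have hqE : q * κ ≤ E := by
    have : q * κ = y0 * exp y0 := by rw [hq]; field_simp
    rw [this]; exact hE
  have hE0 : 0 < E := lt_of_lt_of_le (by positivity) hE
  have hq1 : q < 1 := by
    by_contra hcon
    push Not at hcon
    nlinarith
  have hb : y0 / κ ≤ sp κ t := by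
    apply sp_ge_of h
    · rw [e0, abs_of_nonneg (by positivity : 0 ≤ y0 / κ), ← hq]; exact hq1
    · right; rw [e0]; linarith
    · rw [e0, ← hq]
      obtain ⟨C, hCd⟩ : ∃ C, C = sqrt (1 - q ^ 2) := ⟨_, rfl⟩
      have hC0 : 0 ≤ C := by rw [hCd]; exact sqrt_nonneg _
      have hCS : C ^ 2 = 1 - q ^ 2 := by rw [hCd, sq_sqrt (by nlinarith)]
      rw [← hCd]
      have h2 : arcsin q + C ≤ π / 2 := by
        have h3 : sin (arccos q) ≤ arccos q := sin_le (arccos_nonneg q)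
        rw [sin_arccos, ← hCd] at h3
        unfold arccos at h3
        linarith
      have h4 : κ + m ≤ C * (1 + κ * g) := by
        have h5 : (κ * (κ + m)) ^ 2 ≤ (κ * (C * (1 + κ * g))) ^ 2 := by
          have e1 : (κ * (C * (1 + κ * g))) ^ 2 = κ ^ 2 * C ^ 2 * (1 + κ * g) ^ 2 := by ring
          have e2 : (κ * (κ + m)) ^ 2 = κ ^ 2 * (κ + m) ^ 2 := by ring
          rw [e1, e2, hCS]
          refine hC.trans ?_
          apply mul_le_mul_of_nonneg_right _ (sq_nonneg _)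
          have h6 : (q * κ) ^ 2 ≤ E ^ 2 := pow_le_pow_left₀ (by positivity) hqE 2
          nlinarith
        have h7 : κ * (κ + m) ≤ κ * (C * (1 + κ * g)) := by
          have h7' := abs_le_of_sq_le_sq h5 (by positivity)
          exact (le_abs_self _).trans h7'
        exact le_of_mul_le_mul_left h7 hk
      have h9 : κ * g * C ≤ κ * exp (-y0) * C := by
        apply mul_le_mul_of_nonneg_right _ hC0
        exact mul_le_mul_of_nonneg_left hg hk.le
      nlinarith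
  rw [sy_eq_sp h]
  have := mul_le_mul_of_nonneg_left hb hk.le
  rwa [e0] at this

private theorem exp_up {x y : ℝ} (hx : 0 ≤ x) (hx1 : x ≤ 3 / 5)
    (hy : 1 + x + x ^ 2 / 2 + x ^ 3 / 6 + x ^ 4 / 18 ≤ y) : exp x ≤ y := by
  have h := Real.exp_bound' hx (by linarith) (n := 4) (by norm_num)
  simp [Finset.sum_range_succ, Nat.factorial] at h
  refine le_trans h (le_trans ?_ hy)
  nlinarith [pow_nonneg hx 4]

private theorem exp_dn {x y : ℝ} (hx : 0 ≤ x) (hx1 : x ≤ 3 / 5)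
    (hy : y * (1 + x + x ^ 2 / 2 + x ^ 3 / 6 + x ^ 4 / 18) ≤ 1) (hy0 : 0 < y) : y ≤ exp (-x) := by
  have h := exp_up hx hx1 le_rfl
  rw [exp_neg, le_inv_comm₀ hy0 (exp_pos x), ← one_div]
  rw [le_div_iff₀ hy0, mul_comm]
  exact le_trans (mul_le_mul_of_nonneg_left h hy0.le) hy

theorem y_right_30 {κ t : ℝ} (h : DomR κ t) (hl : 0.3 ≤ κ) (hk : κ ≤ 1.39) (hτ : 1.51 ≤ t + κ) : 0.215 ≤ sy κ t := by
  have hpi := pi_lt_d4
  refine y_ge_right h 0.215 0.2666 0.8 0.061 1.51 (by norm_num) ?_ ?_ (by norm_num) (by linarith) (by linarith)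
    (by norm_num) ?_ hτ
  · have := exp_up (x := 0.215) (y := 1.24) (by norm_num) (by norm_num) (by norm_num)
    linarith
  · exact exp_dn (by norm_num) (by norm_num) (by norm_num) (by norm_num)
  · nlinarith [mul_nonneg (by linarith : 0 ≤ κ - 0.3) (by linarith : 0 ≤ 1.39 - κ), sq_nonneg (κ ^ 2 - κ)]

theorem y_right_60 {κ t : ℝ} (h : DomR κ t) (hl : 0.6 ≤ κ) (hk : κ ≤ 1.39) (hτ : 1.51 ≤ t + κ) : 0.355 ≤ sy κ t := by
  have hpi := pi_lt_d4
  refine y_ge_right h 0.355 0.50645 0.7 0.061 1.51 (by norm_num) ?_ ?_ (by norm_num) (by linarith) (by linarith)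
    (by norm_num) ?_ hτ
  · have := exp_up (x := 0.355) (y := 1.4265) (by norm_num) (by norm_num) (by norm_num)
    linarith
  · exact exp_dn (by norm_num) (by norm_num) (by norm_num) (by norm_num)
  · nlinarith [mul_nonneg (by linarith : 0 ≤ κ - 0.6) (by linarith : 0 ≤ 1.39 - κ), sq_nonneg (κ ^ 2 - κ)]

theorem y_right_90 {κ t : ℝ} (h : DomR κ t) (hl : 0.9 ≤ κ) (hk : κ ≤ 1.39) (hτ : 1.51 ≤ t + κ) : 0.445 ≤ sy κ t := by
  have hpi := pi_lt_d4
  refine y_ge_right h 0.445 0.69466 0.64 0.061 1.51 (by norm_num) ?_ ?_ (by norm_num) (by linarith) (by linarith)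
    (by norm_num) ?_ hτ
  · have := exp_up (x := 0.445) (y := 1.561) (by norm_num) (by norm_num) (by norm_num)
    linarith
  · exact exp_dn (by norm_num) (by norm_num) (by norm_num) (by norm_num)
  · nlinarith [mul_nonneg (by linarith : 0 ≤ κ - 0.9) (by linarith : 0 ≤ 1.39 - κ), sq_nonneg (κ ^ 2 - κ)]

/-- the condition of `far_T`, copy `2` -/
theorem far_cond {κ t : ℝ} (h : DomR κ t) (hk : κ ≤ 1.39) (hτ : 1.51 ≤ t + κ) :
    π / 2 - 1 / 4 ≤ t + sx κ t + 4 / 3 * sy κ t := by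
  have hk0 := h.1
  have hpi := pi_lt_d4
  by_contra hcon
  push Not at hcon
  obtain ⟨y, hy⟩ : ∃ y, y = sy κ t := ⟨_, rfl⟩
  obtain ⟨w, hw⟩ : ∃ w, w = sa κ t := ⟨_, rfl⟩
  have ew : t + sx κ t = w := by rw [hw]; rfl
  rw [ew, ← hy] at hcon
  have h1 := sin_sa h
  have h2 := sa_sub h
  have h3 := sa_abs h
  have hy0 : 0 ≤ y := by rw [hy]; exact sy_nonneg h (by linarith)
  have hsp : sp κ t * κ = y := by rw [hy, sy_eq_sp h]; ring
  rw [← hw, ← hy] at h1 h2
  rw [← hw] at h3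
  have hw0 : 0 ≤ w := by
    by_contra hneg
    push Not at hneg
    have h4 : sin w < 0 := sin_neg_of_neg_of_neg_pi_lt hneg (by have := (abs_lt.1 h3).1; linarith [pi_pos])
    have h5 : 0 ≤ sp κ t := by
      by_contra h6
      push Not at h6
      nlinarith
    have := exp_pos y
    rw [h1] at h4
    nlinarith
  have hwu : w ≤ 1.3209 := by linarith
  have hyu : y ≤ 0.75 * (1.3209 - w) := by linarith
  have hex := exp_pos y
  have hks : κ * sin w = y * exp y := by rw [h1, ← hsp]; ring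
  have hen : exp (-y) * exp y = 1 := by rw [← exp_add, neg_add_cancel, exp_zero]
  have henp := exp_pos (-y)
  have hcos : 1 - w ^ 2 / 2 ≤ cos w := one_sub_sq_div_two_le_cos
  have htau : t + κ = κ + w - κ * (exp (-y) * cos w) := by linarith
  rcases le_total w 0.645 with c1 | c1
  · -- small angle
    have s1 : sin w ≤ w := sin_le hw0
    have hy53 : y ≤ 0.53 := by
      by_contra h5
      push Not at h5
      have h6 : 1 + y + y ^ 2 / 2 ≤ exp y := quadratic_le_exp_of_nonneg hy0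
      have h7 : y * (1 + y + y ^ 2 / 2) ≤ y * exp y := mul_le_mul_of_nonneg_left h6 hy0
      rw [← hks] at h7
      have h8 : κ * sin w ≤ 1.39 * 0.645 := mul_le_mul hk (s1.trans c1) (sin_nonneg_of_nonneg_of_le_pi hw0 (by linarith [pi_gt_three])) (by norm_num)
      nlinarith
    have he58 : 0.58 ≤ exp (-y) := by
      have h5 := exp_dn (x := 0.53) (y := 0.58) (by norm_num) (by norm_num) (by norm_num) (by norm_num)
      exact h5.trans (exp_le_exp.2 (by linarith))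
    have hc79 : 0.79 ≤ cos w := by nlinarith
    have h9 : 0.58 * 0.79 ≤ exp (-y) * cos w := mul_le_mul he58 hc79 (by norm_num) henp.le
    have h10 : κ * (1 - exp (-y) * cos w) ≤ 1.39 * (1 - 0.58 * 0.79) := by
      rcases le_total (exp (-y) * cos w) 1 with h11 | h11
      · exact mul_le_mul hk (by linarith) (by linarith) (by norm_num)
      · nlinarith
    linarith
  · -- large angle
    have hy51 : y ≤ 0.51 := by linarith
    have s6 : 0.6 ≤ sin w := by
      have h5 := sin_gt_sub_cube (x := w) (by linarith)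
      nlinarith [mul_nonneg (by linarith : 0 ≤ w - 0.645) (by linarith : 0 ≤ 1.3209 - w)]
    have h6 : (t + κ - w) * sin w = y * (exp y - cos w) := by
      rw [htau]
      have : κ * (exp (-y) * cos w) * sin w = y * cos w := by
        calc κ * (exp (-y) * cos w) * sin w = (κ * sin w) * exp (-y) * cos w := by ring
          _ = y * (exp (-y) * exp y) * cos w := by rw [hks]; ring
          _ = y * cos w := by rw [hen]; ring
      linear_combination hks - this
    have h7 := r1_exp_le3 hy0 (by linarith)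
    have h8 : y * (exp y - cos w) ≤ y * (1.31 * y + w ^ 2 / 2) := by
      apply mul_le_mul_of_nonneg_left _ hy0
      nlinarith [mul_nonneg hy0 hy0]
    have h9 : (1.51 - w) * 0.6 ≤ (t + κ - w) * sin w := by
      apply mul_le_mul (by linarith) s6 (by norm_num) (by linarith)
    obtain ⟨Y, hY⟩ : ∃ Y, Y = 0.75 * (1.3209 - w) := ⟨_, rfl⟩
    rw [← hY] at hyu
    have h10 : y * (1.31 * y + w ^ 2 / 2) ≤ Y * (1.31 * Y + w ^ 2 / 2) := by
      apply mul_le_mul hyu (by linarith) (by positivity) (hy0.trans hyu)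
    have h11 : Y * (1.31 * Y + w ^ 2 / 2) < (1.51 - w) * 0.6 := by
      rw [hY]
      nlinarith [mul_nonneg (by linarith : 0 ≤ w - 0.645) (by linarith : 0 ≤ 1.3209 - w)]
    linarith

theorem y_right_30' {κ t : ℝ} (h : DomR κ t) (hl : 0.3 ≤ κ) (hk : κ ≤ 1.39) (hτ : 1.11 ≤ t + κ) : 0.19 ≤ sy κ t := by
  have hpi := pi_lt_d4
  refine y_ge_right h 0.19 0.2298 0.8269 0.4609 1.11 (by norm_num) ?_ ?_ (by norm_num) (by linarith) (by linarith)
    (by norm_num) ?_ hτ
  · have := exp_up (x := 0.19) (y := 1.2094) (by norm_num) (by norm_num) (by norm_num)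
    linarith
  · exact exp_dn (by norm_num) (by norm_num) (by norm_num) (by norm_num)
  · nlinarith [mul_nonneg (by linarith : 0 ≤ κ - 0.3) (by linarith : 0 ≤ 1.39 - κ), sq_nonneg (κ ^ 2 - κ)]

/-- the condition of `far_T` for smaller angles -/
theorem far_cond' {κ t : ℝ} (h : DomR κ t) (hk : κ ≤ 1.39) (hτ : 1.11 ≤ t + κ) :
    π / 2 - 0.55 ≤ t + sx κ t + 4 / 3 * sy κ t := by
  have hk0 := h.1
  have hpi := pi_lt_d4
  by_contra hcon
  push Not at hcon
  obtain ⟨y, hy⟩ : ∃ y, y = sy κ t := ⟨_, rfl⟩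
  obtain ⟨w, hw⟩ : ∃ w, w = sa κ t := ⟨_, rfl⟩
  have ew : t + sx κ t = w := by rw [hw]; rfl
  rw [ew, ← hy] at hcon
  have h1 := sin_sa h
  have h2 := sa_sub h
  have h3 := sa_abs h
  have hy0 : 0 ≤ y := by rw [hy]; exact sy_nonneg h (by linarith)
  have hsp : sp κ t * κ = y := by rw [hy, sy_eq_sp h]; ring
  rw [← hw, ← hy] at h1 h2
  rw [← hw] at h3
  have hw0 : 0 ≤ w := by
    by_contra hneg
    push Not at hneg
    have h4 : sin w < 0 := sin_neg_of_neg_of_neg_pi_lt hneg (by have := (abs_lt.1 h3).1; linarith [pi_pos])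
    have h5 : 0 ≤ sp κ t := by
      by_contra h6
      push Not at h6
      nlinarith
    have := exp_pos y
    rw [h1] at h4
    nlinarith
  have hwu : w ≤ 1.0209 := by linarith
  have hyu : y ≤ 0.75 * (1.0209 - w) := by linarith
  have hex := exp_pos y
  have hks : κ * sin w = y * exp y := by rw [h1, ← hsp]; ring
  have hen : exp (-y) * exp y = 1 := by rw [← exp_add, neg_add_cancel, exp_zero]
  have henp := exp_pos (-y)
  have hcos : 1 - w ^ 2 / 2 ≤ cos w := one_sub_sq_div_two_le_cos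
  have htau : t + κ = κ + w - κ * (exp (-y) * cos w) := by linarith
  rcases le_total w 0.47 with c1 | c1
  · have s1 : sin w ≤ w := sin_le hw0
    have hy53 : y ≤ 0.43 := by
      by_contra h5
      push Not at h5
      have h6 : 1 + y + y ^ 2 / 2 + y ^ 3 / 6 ≤ exp y := r1_exp_ge3 y
      have h7 : y * (1 + y + y ^ 2 / 2 + y ^ 3 / 6) ≤ y * exp y := mul_le_mul_of_nonneg_left h6 hy0
      rw [← hks] at h7
      have h8 : κ * sin w ≤ 1.39 * 0.47 := mul_le_mul hk (s1.trans c1) (sin_nonneg_of_nonneg_of_le_pi hw0 (by linarith [pi_gt_three])) (by norm_num)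
      have h9 : 0.43 * (1 + 0.43 + 0.43 ^ 2 / 2 + 0.43 ^ 3 / 6) ≤ y * (1 + y + y ^ 2 / 2 + y ^ 3 / 6) := by
        have a2 : (0.43:ℝ) ^ 2 ≤ y ^ 2 := pow_le_pow_left₀ (by norm_num) h5.le 2
        have a3 : (0.43:ℝ) ^ 3 ≤ y ^ 3 := pow_le_pow_left₀ (by norm_num) h5.le 3
        exact mul_le_mul h5.le (by linarith) (by norm_num) hy0
      norm_num at h9 h8
      linarith
    have he58 : 0.65 ≤ exp (-y) := by
      have h5 := exp_dn (x := 0.43) (y := 0.65) (by norm_num) (by norm_num) (by norm_num) (by norm_num)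
      exact h5.trans (exp_le_exp.2 (by linarith))
    have hc79 : 0.889 ≤ cos w := by nlinarith
    have h9 : 0.65 * 0.889 ≤ exp (-y) * cos w := mul_le_mul he58 hc79 (by norm_num) henp.le
    have h10 : κ * (1 - exp (-y) * cos w) ≤ 1.39 * (1 - 0.65 * 0.889) := by
      rcases le_total (exp (-y) * cos w) 1 with h11 | h11
      · exact mul_le_mul hk (by linarith) (by linarith) (by norm_num)
      · nlinarith
    linarith
  · have hy51 : y ≤ 0.4132 := by linarith
    have s6 : w - w ^ 3 / 6 ≤ sin w := (sin_gt_sub_cube (x := w) (by linarith)).le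
    have s7 : 0 ≤ w - w ^ 3 / 6 := by nlinarith
    have h6 : (t + κ - w) * sin w = y * (exp y - cos w) := by
      rw [htau]
      have : κ * (exp (-y) * cos w) * sin w = y * cos w := by
        calc κ * (exp (-y) * cos w) * sin w = (κ * sin w) * exp (-y) * cos w := by ring
          _ = y * (exp (-y) * exp y) * cos w := by rw [hks]; ring
          _ = y * cos w := by rw [hen]; ring
      linear_combination hks - this
    have h7 := r1_exp_le3 hy0 (by linarith)
    have h8 : y * (exp y - cos w) ≤ y * (1.2408 * y + w ^ 2 / 2) := by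
      apply mul_le_mul_of_nonneg_left _ hy0
      have h12 : y ^ 2 / 2 + y ^ 3 / 5 ≤ 0.2408 * y := by
        have : 0 ≤ y * (0.2408 - y / 2 - y ^ 2 / 5) := by
          apply mul_nonneg hy0
          nlinarith
        nlinarith
      linarith
    have h9 : (1.11 - w) * (w - w ^ 3 / 6) ≤ (t + κ - w) * sin w := by
      apply mul_le_mul (by linarith) s6 s7 (by linarith)
    obtain ⟨Y, hY⟩ : ∃ Y, Y = 0.75 * (1.0209 - w) := ⟨_, rfl⟩
    rw [← hY] at hyu
    have h10 : y * (1.2408 * y + w ^ 2 / 2) ≤ Y * (1.2408 * Y + w ^ 2 / 2) := by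
      apply mul_le_mul hyu (by linarith) (by positivity) (hy0.trans hyu)
    have h11 : Y * (1.2408 * Y + w ^ 2 / 2) < (1.11 - w) * (w - w ^ 3 / 6) := by
      rw [hY]
      nlinarith [mul_nonneg (by linarith : 0 ≤ w - 0.47) (by linarith : 0 ≤ 1.0209 - w), sq_nonneg (w ^ 2 - w), sq_nonneg (w - 0.47)]
    linarith

/-- lower bound of `D²` on the left from `-η ≤ y` -/
theorem DL_ge3 {κ t η : ℝ} (h : DomR κ t) (hy0 : sy κ t ≤ 0) (hy : -η ≤ sy κ t) (hη : κ ^ 2 * (1 + 2 * η) ≤ 1) :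
    1 + κ ^ 2 - 2 * η * (1 - κ ^ 2) + 2 * κ ^ 2 * η ^ 2 ≤ sx κ t ^ 2 + (1 + sy κ t) ^ 2 := by
  have hk := h.1
  obtain ⟨s, hs⟩ : ∃ s, s = -sy κ t := ⟨_, rfl⟩
  have hs0 : 0 ≤ s := by rw [hs]; linarith
  have hs1 : s ≤ η := by rw [hs]; linarith
  rw [sD_eq' h]
  have h1 := quadratic_le_exp_of_nonneg (x := -2 * sy κ t) (by linarith)
  have h2 := mul_le_mul_of_nonneg_left h1 (sq_nonneg κ)
  have e1 : sy κ t = -s := by rw [hs]; ring
  rw [e1] at h2 ⊢
  have h3 : 0 ≤ (η - s) * (1 - κ ^ 2 - κ ^ 2 * (η + s)) := by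
    apply mul_nonneg (by linarith)
    nlinarith [mul_nonneg (sq_nonneg κ) (by linarith : 0 ≤ η - s)]
  nlinarith

/-- lower bound of `D²` on the left for the other `κ` (no information on `y` needed) -/
theorem DL_ge4 {κ t : ℝ} (h : DomR κ t) (hy0 : sy κ t ≤ 0) :
    1 + κ ^ 2 - (1 - κ ^ 2) ^ 2 / (2 * κ ^ 2) ≤ sx κ t ^ 2 + (1 + sy κ t) ^ 2 := by
  have hk := h.1
  obtain ⟨s, hs⟩ : ∃ s, s = -sy κ t := ⟨_, rfl⟩
  have hs0 : 0 ≤ s := by rw [hs]; linarith
  rw [sD_eq' h]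
  have h1 := quadratic_le_exp_of_nonneg (x := -2 * sy κ t) (by linarith)
  have h2 := mul_le_mul_of_nonneg_left h1 (sq_nonneg κ)
  have e1 : sy κ t = -s := by rw [hs]; ring
  rw [e1] at h2 ⊢
  have h3 : 0 ≤ (1 - κ ^ 2) ^ 2 / (2 * κ ^ 2) - 2 * s * (1 - κ ^ 2) + 2 * κ ^ 2 * s ^ 2 := by
    have e : (1 - κ ^ 2) ^ 2 / (2 * κ ^ 2) - 2 * s * (1 - κ ^ 2) + 2 * κ ^ 2 * s ^ 2 =
        ((1 - κ ^ 2) - 2 * κ ^ 2 * s) ^ 2 / (2 * κ ^ 2) := by
      field_simp
      ring
    rw [e]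
    positivity
  nlinarith

end Sok
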