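import Pool.Agent.Lib.MP_816dec_an.R1BigDefs
import Pool.Agent.Lib.MP_816dec_an.R1Ineq5

/-!
MP_816dec_an (A3, row R1, `b ≥ 9`): second difference of the exponent at `k = 0, 1, 2`.
-/

set_option autoImplicit false

open Set Filter Topology Real

namespace Sok

/-- box bound on the right, with `up24` -/
theorem VR24_box {κ t : ℝ} (h : DomR κ t) (l c k1 ψ τm P w E A : ℝ) (ht : 0 ≤ t + κ) (htm : t + κ ≤ τm)
    (hk1 : k1 ≤ κ) (hψ : κ / (1 + κ ^ 2) ≤ ψ) (hk0 : 0 ≤ k1) (hl : 0 < l)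
    (hP : P = l * τm / (1 + k1 ^ 2)) (hw : w = ψ * (l * τm)) (hw1 : w ≤ 13 / 20)
    (hE : E = 1 + w + w ^ 2 / 2 + w ^ 3 / 5) (hPE : P * E ≤ 0.8)
    (hA' : A = E / 2 + P ^ 2 * E ^ 3 / 24 + P ^ 4 * E ^ 5 / 30)
    (hC : 1 / 2 ≤ 1 / l - c / l ^ 2) (hnum : A - (1 / l - c / l ^ 2) ≤ k1 ^ 2 * ((1 / l - c / l ^ 2) - 1 / 2)) :
    sE κ t ≤ 1 - c * (t + κ) ^ 2 / (1 + κ ^ 2) := by
  have hk := h.1
  have hA : 0 < 1 + κ ^ 2 := by positivity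
  have hA1 : 0 < 1 + k1 ^ 2 := by positivity
  obtain ⟨τ, hτ⟩ : ∃ τ, τ = t + κ := ⟨_, rfl⟩
  obtain ⟨p, hp⟩ : ∃ p, p = l * τ / (1 + κ ^ 2) := ⟨_, rfl⟩
  obtain ⟨C, hC'⟩ : ∃ C, C = 1 / l - c / l ^ 2 := ⟨_, rfl⟩
  rw [← hτ] at ht htm ⊢
  rw [← hC'] at hC hnum
  have hp0 : 0 ≤ p := by rw [hp]; positivity
  have hpP : p ≤ P := by
    rw [hp, hP]
    apply div_le_div₀ (by nlinarith) (mul_le_mul_of_nonneg_left htm hl.le) hA1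
    nlinarith
  have hP0 : 0 ≤ P := hp0.trans hpP
  have hv0 : 0 ≤ κ * p := mul_nonneg hk.le hp0
  have hvw : κ * p ≤ w := by
    have e : κ * p = κ / (1 + κ ^ 2) * (l * τ) := by rw [hp]; field_simp
    rw [e, hw]
    apply mul_le_mul hψ (mul_le_mul_of_nonneg_left htm hl.le) (by positivity)
    exact le_trans (by positivity) hψ
  have h2 : exp (-(κ * p)) ≤ 1 + -(κ * p) + (-(κ * p)) ^ 2 / 2 := r1_exp_le2 (by linarith)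
  have h3 : exp (κ * p) ≤ E := by
    have h31 := r1_exp_le3 hv0 (hvw.trans hw1)
    rw [hE]
    have h32 : (κ * p) ^ 2 ≤ w ^ 2 := pow_le_pow_left₀ hv0 hvw 2
    have h33 : (κ * p) ^ 3 ≤ w ^ 3 := pow_le_pow_left₀ hv0 hvw 3
    linarith
  have h4 : 0 < exp (κ * p) := exp_pos _
  have hE0 : 0 < E := lt_of_lt_of_le h4 h3
  have hq : |p * exp (κ * p)| ≤ 0.8 := by
    rw [abs_of_nonneg (mul_nonneg hp0 h4.le)]
    exact (mul_le_mul hpP h3 h4.le hP0).trans hPE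
  have h1 := up24 h hq
  have h5 : exp (κ * p) ^ 3 ≤ E ^ 3 := pow_le_pow_left₀ h4.le h3 3
  have h55 : exp (κ * p) ^ 5 ≤ E ^ 5 := pow_le_pow_left₀ h4.le h3 5
  have h6 : p ^ 2 * exp (κ * p) / 2 ≤ p ^ 2 * E / 2 := by
    have := mul_le_mul_of_nonneg_left h3 (sq_nonneg p)
    linarith
  have hPp : p ^ 2 ≤ P ^ 2 := pow_le_pow_left₀ hp0 hpP 2
  have hPp4 : p ^ 4 ≤ P ^ 4 := pow_le_pow_left₀ hp0 hpP 4
  have h7 : p ^ 4 * exp (κ * p) ^ 3 / 24 ≤ p ^ 2 * (P ^ 2 * E ^ 3) / 24 := by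
    have h8 : p ^ 2 * exp (κ * p) ^ 3 ≤ P ^ 2 * E ^ 3 :=
      mul_le_mul hPp h5 (by positivity) (by positivity)
    have h81 := mul_le_mul_of_nonneg_left h8 (sq_nonneg p)
    have e : p ^ 4 * exp (κ * p) ^ 3 / 24 = p ^ 2 * (p ^ 2 * exp (κ * p) ^ 3) / 24 := by ring
    rw [e]
    linarith
  have h7' : p ^ 6 * exp (κ * p) ^ 5 / 30 ≤ p ^ 2 * (P ^ 4 * E ^ 5) / 30 := by
    have h8 : p ^ 4 * exp (κ * p) ^ 5 ≤ P ^ 4 * E ^ 5 :=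
      mul_le_mul hPp4 h55 (by positivity) (by positivity)
    have h81 := mul_le_mul_of_nonneg_left h8 (sq_nonneg p)
    have e : p ^ 6 * exp (κ * p) ^ 5 / 30 = p ^ 2 * (p ^ 4 * exp (κ * p) ^ 5) / 30 := by ring
    rw [e]
    linarith
  have hτp : τ = p * (1 + κ ^ 2) / l := by rw [hp]; field_simp
  have e1 : p * t = p * τ - κ * p := by rw [hτ]; ring
  have e2 : p * τ = p ^ 2 * (1 + κ ^ 2) / l := by rw [hτp]; ring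
  have e3 : c * τ ^ 2 / (1 + κ ^ 2) = c * p ^ 2 * (1 + κ ^ 2) / l ^ 2 := by
    rw [hτp]; field_simp
  have e4 : p ^ 2 * (1 + κ ^ 2) / l - c * p ^ 2 * (1 + κ ^ 2) / l ^ 2 = p ^ 2 * ((1 + κ ^ 2) * C) := by
    rw [hC']; field_simp
  have h9 : κ ^ 2 / 2 + A ≤ (1 + κ ^ 2) * C := by
    have h10 : k1 ^ 2 ≤ κ ^ 2 := pow_le_pow_left₀ hk0 hk1 2
    linarith [mul_le_mul_of_nonneg_right h10 (sub_nonneg.2 hC)]
  have h10 := mul_le_mul_of_nonneg_left h9 (sq_nonneg p)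
  rw [e3]
  have e5 : (-(κ * p)) ^ 2 / 2 = p ^ 2 * (κ ^ 2 / 2) := by ring
  have e6 : p ^ 2 * (κ ^ 2 / 2 + A) = p ^ 2 * (κ ^ 2 / 2) + p ^ 2 * E / 2 + p ^ 2 * (P ^ 2 * E ^ 3) / 24 +
      p ^ 2 * (P ^ 4 * E ^ 5) / 30 := by rw [hA']; ring
  linarith

/-- `κ (1/2 - κ²/6) ≤ (3/20) (1+κ²)²` -/
theorem chi_all {κ : ℝ} (h0 : 0 ≤ κ) (h1 : κ ≤ 1.5) : κ * (1 / 2 - κ ^ 2 / 6) ≤ 3 / 20 * (1 + κ ^ 2) ^ 2 := by
  have := chi_box (κ := κ) 0.5 0 1.5 0.9 h0 h0 h1 (by norm_num) (by norm_num) (by norm_num) (by norm_num) (by norm_num)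
  nlinarith

/-- lower bound of `κ (1/2 - κ²/6)/(1+κ²)²` on a box -/
theorem zlow_box {κ k1 k2 z : ℝ} (hk0 : 0 ≤ k1) (h1 : k1 ≤ κ) (h2 : κ ≤ k2) (hz : 0 ≤ z) (h12 : k1 < k2)
    (e1 : z * (1 + k1 ^ 2) ^ 2 ≤ k1 * (1 / 2 - k1 ^ 2 / 6))
    (e2 : z * (1 + k2 ^ 2) ^ 2 ≤ k2 * (1 / 2 - k2 ^ 2 / 6)) :
    z * (1 + κ ^ 2) ^ 2 ≤ κ * (1 / 2 - κ ^ 2 / 6) := by
  obtain ⟨F, hF⟩ : ∃ F : ℝ → ℝ, F = fun x => x * (1 / 2 - x ^ 2 / 6) - z * (1 + x ^ 2) ^ 2 := ⟨_, rfl⟩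
  have hF1 : 0 ≤ F k1 := by rw [hF]; exact sub_nonneg.2 e1
  have hF2 : 0 ≤ F k2 := by rw [hF]; exact sub_nonneg.2 e2
  have hid : (k2 - k1) * F κ = (k2 - κ) * F k1 + (κ - k1) * F k2 +
      (k2 - k1) * ((κ - k1) * (k2 - κ)) * (z * (κ ^ 2 + κ * (k1 + k2) + k1 ^ 2 + k1 * k2 + k2 ^ 2) + 2 * z +
        (κ + k1 + k2) / 6) := by
    rw [hF]
    ring
  have hκ : 0 ≤ κ := hk0.trans h1
  have hk2 : 0 ≤ k2 := hκ.trans h2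
  have h3 : 0 ≤ (k2 - k1) * F κ := by
    rw [hid]
    have a1 := mul_nonneg (sub_nonneg.2 h2) hF1
    have a2 := mul_nonneg (sub_nonneg.2 h1) hF2
    have a3 : 0 ≤ (k2 - k1) * ((κ - k1) * (k2 - κ)) :=
      mul_nonneg (by linarith) (mul_nonneg (sub_nonneg.2 h1) (sub_nonneg.2 h2))
    have a4 : 0 ≤ z * (κ ^ 2 + κ * (k1 + k2) + k1 ^ 2 + k1 * k2 + k2 ^ 2) + 2 * z + (κ + k1 + k2) / 6 := by
      positivity
    have a5 := mul_nonneg a3 a4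
    linarith
  have h4 : 0 ≤ F κ := nonneg_of_mul_nonneg_right h3 (by linarith)
  rw [hF] at h4
  linarith

/-- lower bound on the right with the third order term -/
theorem V1_low {κ t z : ℝ} (h : DomR κ t) (ht : 0 ≤ t + κ) (hk3 : κ ≤ 1.5) (_hz0 : 0 ≤ z)
    (hz : z * (1 + κ ^ 2) ^ 2 ≤ κ * (1 / 2 - κ ^ 2 / 6) * (t + κ)) (ht1 : t + κ ≤ 0.7) :
    1 - (1 / 2 - (z - 9 / 2 * z ^ 2)) * (t + κ) ^ 2 / (1 + κ ^ 2) ≤ sE κ t := by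
  have hk := h.1
  have hk2 : κ ^ 2 ≤ 3 := by nlinarith
  have hA : 0 < 1 + κ ^ 2 := by positivity
  have h1 := VRlow (s := (t + κ) / (1 + κ ^ 2)) (c := κ * (1 / 2 - κ ^ 2 / 6)) h rfl (by positivity) hk2 rfl
  obtain ⟨τ, hτ⟩ : ∃ τ, τ = t + κ := ⟨_, rfl⟩
  obtain ⟨c, hc⟩ : ∃ c, c = κ * (1 / 2 - κ ^ 2 / 6) := ⟨_, rfl⟩
  rw [← hτ, ← hc] at h1 hz
  rw [← hτ] at ht ht1 ⊢
  obtain ⟨Z, hZ⟩ : ∃ Z, Z = c * τ / (1 + κ ^ 2) ^ 2 := ⟨_, rfl⟩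
  have hzZ : z ≤ Z := by
    rw [hZ, le_div_iff₀ (by positivity)]
    exact hz
  have hZ1 : Z ≤ 1 / 9 := by
    rw [hZ, div_le_iff₀ (by positivity)]
    have h2 := chi_all hk.le hk3
    rw [← hc] at h2
    have h3 : c * τ ≤ 3 / 20 * (1 + κ ^ 2) ^ 2 * τ := mul_le_mul_of_nonneg_right h2 ht
    have h4 : 3 / 20 * (1 + κ ^ 2) ^ 2 * τ ≤ 3 / 20 * (1 + κ ^ 2) ^ 2 * 0.7 :=
      mul_le_mul_of_nonneg_left ht1 (by positivity)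
    have h5 : 0 < (1 + κ ^ 2) ^ 2 := by positivity
    linarith
  have h5 : z - 9 / 2 * z ^ 2 ≤ Z - 9 / 2 * Z ^ 2 := by nlinarith
  have e1 : 1 - (1 + κ ^ 2) * (τ / (1 + κ ^ 2)) ^ 2 / 2 + c * (τ / (1 + κ ^ 2)) ^ 3 -
      9 / 2 * c ^ 2 * (τ / (1 + κ ^ 2)) ^ 4 / (1 + κ ^ 2) =
      1 - (1 / 2 - (Z - 9 / 2 * Z ^ 2)) * τ ^ 2 / (1 + κ ^ 2) := by
    rw [hZ]
    field_simp
    ring
  rw [e1] at h1
  refine le_trans ?_ h1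
  have h6 : 0 ≤ τ ^ 2 / (1 + κ ^ 2) := by positivity
  have h7 := mul_le_mul_of_nonneg_right h5 h6
  have e2 : (1 / 2 - (z - 9 / 2 * z ^ 2)) * τ ^ 2 / (1 + κ ^ 2) =
      1 / 2 * (τ ^ 2 / (1 + κ ^ 2)) - (z - 9 / 2 * z ^ 2) * (τ ^ 2 / (1 + κ ^ 2)) := by ring
  have e3 : (1 / 2 - (Z - 9 / 2 * Z ^ 2)) * τ ^ 2 / (1 + κ ^ 2) =
      1 / 2 * (τ ^ 2 / (1 + κ ^ 2)) - (Z - 9 / 2 * Z ^ 2) * (τ ^ 2 / (1 + κ ^ 2)) := by ring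
  rw [e2, e3]
  linarith

/-! ### the domain -/

theorem h_le9 {b : ℕ} {h : ℝ} (hb : 9 ≤ b) (hh : h = 2 * π / b) : h ≤ 0.6982 := by
  have hb' : (9 : ℝ) ≤ b := by exact_mod_cast hb
  have := Real.pi_lt_d4
  rw [hh, div_le_iff₀ (by linarith)]
  nlinarith

theorem h_le11 {b : ℕ} {h : ℝ} (hb : 11 ≤ b) (hh : h = 2 * π / b) : h ≤ 0.5712 := by
  have hb' : (11 : ℝ) ≤ b := by exact_mod_cast hb
  have := Real.pi_lt_d4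
  rw [hh, div_le_iff₀ (by linarith)]
  nlinarith

theorem h_ge10 {b : ℕ} {h : ℝ} (hb0 : 9 ≤ b) (hb : b ≤ 10) (hh : h = 2 * π / b) : 0.6283 ≤ h := by
  have hb' : (b : ℝ) ≤ 10 := by exact_mod_cast hb
  have hb0' : (9 : ℝ) ≤ b := by exact_mod_cast hb0
  have := Real.pi_gt_d4
  rw [hh, le_div_iff₀ (by linarith)]
  nlinarith

theorem h_pos {b : ℕ} {h : ℝ} (hb : 9 ≤ b) (hh : h = 2 * π / b) : 0 < h := by
  have hb' : (9 : ℝ) ≤ b := by exact_mod_cast hb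
  have := Real.pi_pos
  rw [hh]
  positivity

theorem sgm_le {κ k c : ℝ} (h0 : 0 ≤ κ) (h1 : κ ≤ k) (hc : 0 ≤ c) (h2 : 1 + 1.15 * k ^ 2 ≤ (10 * c) ^ 2) : sgm κ ≤ c := by
  unfold sgm
  rw [div_le_iff₀ (by norm_num)]
  apply Real.sqrt_le_iff.2
  refine ⟨by positivity, ?_⟩
  have : κ ^ 2 ≤ k ^ 2 := pow_le_pow_left₀ h0 h1 2
  nlinarith

theorem sgm_nonneg (κ : ℝ) : 0 ≤ sgm κ := by unfold sgm; positivity

theorem DP.hpos {b : ℕ} {h κ R t : ℝ} (H : DP b h κ R t) : 0 < h := h_pos H.hb H.hh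

theorem DP.sgm_le' {b : ℕ} {h κ R t : ℝ} (H : DP b h κ R t) : sgm κ ≤ 0.1895 :=
  sgm_le H.k0.le H.k1 (by norm_num) (by norm_num)

/-- the parameter `s` -/
theorem DP.exists_s {b : ℕ} {h κ R t : ℝ} (H : DP b h κ R t) :
    ∃ s, t + κ = s * h ∧ 0.42 - sgm κ ≤ s ∧ s ≤ 0.6 + sgm κ ∧ 0.2305 ≤ s ∧ s ≤ 0.7895 := by
  have hp := H.hpos
  refine ⟨(t + κ) / h, by field_simp, ?_, ?_, ?_, ?_⟩
  · rw [le_div_iff₀ hp]; exact H.lo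
  · rw [div_le_iff₀ hp]; exact H.hi
  · rw [le_div_iff₀ hp]
    have := H.lo
    nlinarith [H.sgm_le']
  · rw [div_le_iff₀ hp]
    have := H.hi
    nlinarith [H.sgm_le']

theorem DP.dom {b : ℕ} {h κ R t : ℝ} (H : DP b h κ R t) :
    DomR κ (t - h) ∧ DomR κ t ∧ DomR κ (t + h) := by
  obtain ⟨s, hs, -, -, h1, h2⟩ := H.exists_s
  have hp := H.hpos
  have hh := h_le9 H.hb H.hh
  have hk := H.k0
  have hpi := Real.pi_gt_d2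
  have he : exp (-1) < κ ∨ κ ≤ 0.38 := by
    rcases le_or_gt κ 0.38 with h3 | h3
    · exact Or.inr h3
    · left
      have := Real.exp_neg_one_lt_d9
      linarith
  have hsh : s * h ≤ 0.7895 * 0.6982 := mul_le_mul h2 hh hp.le (by norm_num)
  have hsh0 : 0 < s * h := mul_pos (by linarith) hp
  have e1 : (s - 1) * h = s * h - h := by ring
  have hn : -(0.7695 * 0.6982) ≤ (s - 1) * h := by
    have : (1 - s) * h ≤ 0.7695 * 0.6982 := mul_le_mul (by linarith) hh hp.le (by norm_num)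
    linarith
  refine ⟨⟨hk, by linarith, ?_⟩, ⟨hk, by linarith, ?_⟩, ⟨hk, by linarith, ?_⟩⟩
  · rcases he with h3 | h3
    · exact Or.inl h3
    · right; linarith
  · rcases he with h3 | h3
    · exact Or.inl h3
    · right; linarith
  · rcases he with h3 | h3
    · exact Or.inl h3
    · right; linarith

/-! ### the second difference at `k = 1` -/

theorem N2_core {κ t h s c2 g f : ℝ} (hs : t + κ = s * h)
    (h2 : sE κ (t + h) ≤ 1 - c2 * (t + h + κ) ^ 2 / (1 + κ ^ 2))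
    (h0 : sE κ (t - h) ≤ 1 - 0.466 * (t - h + κ) ^ 2 / (1 + κ ^ 2))
    (h1 : 1 - (1 / 2 - g) * (t + κ) ^ 2 / (1 + κ ^ 2) ≤ sE κ t)
    (hq : f ≤ c2 * (1 + s) ^ 2 + 0.466 * (1 - s) ^ 2 - (1 - 2 * g) * s ^ 2) :
    sE κ (t + h) + sE κ (t - h) - 2 * sE κ t ≤ -(f * (h ^ 2 / (1 + κ ^ 2))) := by
  have hA : 0 < 1 + κ ^ 2 := by positivity
  have e2 : t + h + κ = (1 + s) * h := by linarith
  have e0 : t - h + κ = -((1 - s) * h) := by linarith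
  rw [e2] at h2
  rw [e0] at h0
  rw [hs] at h1
  have hX : 0 ≤ h ^ 2 / (1 + κ ^ 2) := by positivity
  have h3 := mul_le_mul_of_nonneg_right hq hX
  have a2 : c2 * ((1 + s) * h) ^ 2 / (1 + κ ^ 2) = c2 * (1 + s) ^ 2 * (h ^ 2 / (1 + κ ^ 2)) := by ring
  have a0 : 0.466 * (-((1 - s) * h)) ^ 2 / (1 + κ ^ 2) = 0.466 * (1 - s) ^ 2 * (h ^ 2 / (1 + κ ^ 2)) := by ring
  have a1 : (1 / 2 - g) * (s * h) ^ 2 / (1 + κ ^ 2) = (1 / 2 - g) * s ^ 2 * (h ^ 2 / (1 + κ ^ 2)) := by ring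
  rw [a2] at h2
  rw [a0] at h0
  rw [a1] at h1
  nlinarith

theorem quad_conc {α β γ lo hi s : ℝ} (hα : α ≤ 0) (h1 : lo ≤ s) (h2 : s ≤ hi)
    (e1 : 0 ≤ α * lo ^ 2 + β * lo + γ) (e2 : 0 ≤ α * hi ^ 2 + β * hi + γ) : 0 ≤ α * s ^ 2 + β * s + γ := by
  rcases eq_or_lt_of_le (h1.trans h2) with h3 | h3
  · have : s = lo := le_antisymm (by linarith) h1
    rw [this]; exact e1
  have hid : (hi - lo) * (α * s ^ 2 + β * s + γ) = (hi - s) * (α * lo ^ 2 + β * lo + γ) +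
      (s - lo) * (α * hi ^ 2 + β * hi + γ) + (-α) * ((hi - lo) * ((s - lo) * (hi - s))) := by ring
  have h4 : 0 ≤ (hi - lo) * (α * s ^ 2 + β * s + γ) := by
    rw [hid]
    have a1 := mul_nonneg (sub_nonneg.2 h2) e1
    have a2 := mul_nonneg (sub_nonneg.2 h1) e2
    have a3 := mul_nonneg (neg_nonneg.2 hα) (mul_nonneg (sub_pos.2 h3).le (mul_nonneg (sub_nonneg.2 h1) (sub_nonneg.2 h2)))
    linarith
  exact nonneg_of_mul_nonneg_right h4 (sub_pos.2 h3)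

/-- `N2_core` with the quadratic checked at the ends of an interval -/
theorem N2_core' {κ t h s c2 g f lo hi : ℝ} (hs : t + κ = s * h)
    (h2 : sE κ (t + h) ≤ 1 - c2 * (t + h + κ) ^ 2 / (1 + κ ^ 2))
    (h0 : sE κ (t - h) ≤ 1 - 0.466 * (t - h + κ) ^ 2 / (1 + κ ^ 2))
    (h1 : 1 - (1 / 2 - g) * (t + κ) ^ 2 / (1 + κ ^ 2) ≤ sE κ t)
    (hlo : lo ≤ s) (hhi : s ≤ hi) (hα : c2 + 0.466 - 1 + 2 * g ≤ 0)
    (e1 : 0 ≤ (c2 + 0.466 - 1 + 2 * g) * lo ^ 2 + (2 * c2 - 0.932) * lo + (c2 + 0.466 - f))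
    (e2 : 0 ≤ (c2 + 0.466 - 1 + 2 * g) * hi ^ 2 + (2 * c2 - 0.932) * hi + (c2 + 0.466 - f)) :
    sE κ (t + h) + sE κ (t - h) - 2 * sE κ t ≤ -(f * (h ^ 2 / (1 + κ ^ 2))) := by
  refine N2_core hs h2 h0 h1 ?_
  have := quad_conc hα hlo hhi e1 e2
  linarith

end Sok
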