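import Pool.Agent.Lib.MP_816dec_an.R1B4S
import Pool.Agent.Lib.MP_816dec_an.R1B4D
import Pool.Agent.Lib.MP_816dec_an.R1Ineq7
import Pool.Agent.Lib.MP_816dec_an.R1Near

/-!
MP_816dec_an (A3, row R1, b = 4): numerical box lemmas for the slopes and the main lower bounds.
-/

set_option autoImplicit false

open Complex Set Filter Topology

namespace Sok.B4

theorem im_gt {s : ℂ} {κ t δ Y : ℝ} (hs : ‖s - sg κ t‖ ≤ δ) (hy : -Y ≤ sy κ t) (h : Y + δ < 1) : -1 < s.im := by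
  have hs' : ‖s - ((sx κ t : ℂ) + (sy κ t : ℂ) * I)‖ ≤ δ := hs
  obtain ⟨-, -, h1, -⟩ := disc_split hs'
  linarith

theorem N_le {κ t : ℝ} (k2 l E N : ℝ) (hk : 0 ≤ κ) (hk2 : κ ≤ k2) (hl : l ≤ sy κ t) (hE : Real.exp (-l) ≤ E)
    (hN : (k2 * E) ^ 2 ≤ N) : κ ^ 2 * Real.exp (-2 * sy κ t) ≤ N := by
  refine le_trans ?_ hN
  have e1 : κ ^ 2 * Real.exp (-2 * sy κ t) = (κ * Real.exp (-sy κ t)) ^ 2 := by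
    rw [mul_pow, ← Real.exp_nat_mul]
    congr 2
    push_cast
    ring
  rw [e1]
  have h1 : Real.exp (-sy κ t) ≤ E := (Real.exp_le_exp.2 (by linarith)).trans hE
  exact pow_le_pow_left₀ (mul_nonneg hk (Real.exp_pos _).le)
    (mul_le_mul hk2 h1 (Real.exp_pos _).le (hk.trans hk2)) 2

theorem N_ge {κ t : ℝ} (k1 u E N : ℝ) (hk0 : 0 ≤ k1) (hk1 : k1 ≤ κ) (hu : sy κ t ≤ u) (hE : E ≤ Real.exp (-u))
    (hE0 : 0 ≤ E) (hN : N ≤ (k1 * E) ^ 2) : N ≤ κ ^ 2 * Real.exp (-2 * sy κ t) := by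
  refine hN.trans ?_
  have e1 : κ ^ 2 * Real.exp (-2 * sy κ t) = (κ * Real.exp (-sy κ t)) ^ 2 := by
    rw [mul_pow, ← Real.exp_nat_mul]
    congr 2
    push_cast
    ring
  rw [e1]
  have h1 : E ≤ Real.exp (-sy κ t) := hE.trans (Real.exp_le_exp.2 (by linarith))
  exact pow_le_pow_left₀ (mul_nonneg hk0 hE0) (mul_le_mul hk1 h1 hE0 (hk0.trans hk1)) 2

/-- `|σ/(1-iσ)| ≤ A`, `A ≤ 1` -/
theorem A_lt {κ t : ℝ} (h : DomR κ t) (k2 y0 e A : ℝ) (hk2 : κ ≤ k2) (hy : y0 ≤ sy κ t) (he : Real.exp (-y0) ≤ e)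
    (hA0 : 0 ≤ A) (hA1 : A ≤ 1) (hn : (k2 * e) ^ 2 * (1 - A ^ 2) ≤ A ^ 2 * (1 + 2 * y0)) :
    ‖sg κ t / (1 - I * sg κ t)‖ ≤ A := by
  apply norm_sg_div' h hA0
  have h1 := N_le k2 y0 e ((k2 * e) ^ 2) h.1.le hk2 hy he le_rfl
  have hA2 : A ^ 2 ≤ 1 := by nlinarith
  have h2 := mul_le_mul_of_nonneg_right h1 (by linarith : 0 ≤ 1 - A ^ 2)
  have h3 := mul_le_mul_of_nonneg_left (by linarith : 1 + 2 * y0 ≤ 1 + 2 * sy κ t) (sq_nonneg A)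
  linarith

/-- `|σ/(1-iσ)| ≤ A`, `A ≥ 1` -/
theorem A_ge {κ t : ℝ} (h : DomR κ t) (k1 Y A : ℝ) (hk1 : k1 ≤ κ) (hy : -Y ≤ sy κ t) (hk0 : 0 ≤ k1)
    (hA1 : 1 ≤ A) (hA2 : k1 ^ 2 * (A ^ 2 - 1) ≤ A ^ 2) (hn : A ^ 2 * (2 * Y - 1) ≤ k1 ^ 2 * (1 + 2 * Y) * (A ^ 2 - 1)) :
    ‖sg κ t / (1 - I * sg κ t)‖ ≤ A := by
  apply norm_sg_div' h (by linarith)
  have hA3 : 0 ≤ A ^ 2 - 1 := by nlinarith
  have h1 : κ ^ 2 * (1 - 2 * sy κ t) ≤ κ ^ 2 * Real.exp (-2 * sy κ t) := by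
    apply mul_le_mul_of_nonneg_left _ (sq_nonneg κ)
    have := Real.add_one_le_exp (-2 * sy κ t)
    linarith
  rcases le_total (sy κ t) 0.5 with h5 | h5
  · have hk : k1 ^ 2 ≤ κ ^ 2 := pow_le_pow_left₀ hk0 hk1 2
    have h2 : k1 ^ 2 * (1 - 2 * sy κ t) ≤ κ ^ 2 * (1 - 2 * sy κ t) := mul_le_mul_of_nonneg_right hk (by linarith)
    have h3 := mul_le_mul_of_nonneg_right (h2.trans h1) hA3
    have h4 := mul_nonneg (by linarith : 0 ≤ sy κ t + Y) (by linarith : 0 ≤ A ^ 2 - k1 ^ 2 * (A ^ 2 - 1))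
    nlinarith
  · have h2 : 0 ≤ κ ^ 2 * Real.exp (-2 * sy κ t) := by positivity
    have h3 := mul_nonneg h2 hA3
    have h4 : 0 ≤ A ^ 2 * (1 + 2 * sy κ t) := mul_nonneg (sq_nonneg A) (by linarith)
    linarith

theorem C_of {κ t : ℝ} (k2 e C d : ℝ) (hk2 : κ ≤ k2) (he0 : 0 ≤ e) (hd : d ≤ sD κ t) (hC0 : 0 ≤ C)
    (h : k2 * e ≤ 2 * C * d) : κ * e ≤ 2 * C * sD κ t := by
  have h1 := mul_le_mul_of_nonneg_right hk2 he0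
  have h2 := mul_le_mul_of_nonneg_left hd (by linarith : 0 ≤ 2 * C)
  linarith

theorem sD_ge1 {κ t : ℝ} (h : DomR κ t) (k1 d : ℝ) (hk1 : k1 ≤ κ) (hk11 : 1 ≤ k1) (ht : t + κ ≤ 0)
    (hd : d ≤ 1 + k1 ^ 2) : d ≤ sD κ t := by
  have h1 := DL_ge' h ht (by linarith)
  have h2 : k1 ^ 2 ≤ κ ^ 2 := pow_le_pow_left₀ (by linarith) hk1 2
  unfold sD
  linarith

theorem sD_ge3 {κ t : ℝ} (h : DomR κ t) (k1 k2 Y d : ℝ) (hk1 : k1 ≤ κ) (hk2 : κ ≤ k2) (hy0 : sy κ t ≤ 0)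
    (hy : -Y ≤ sy κ t) (hk0 : 0 ≤ k1) (hY0 : 0 ≤ Y) (hk : k2 ^ 2 * (1 + 2 * Y) ≤ 1)
    (hd : d ≤ 1 + k1 ^ 2 - 2 * Y * (1 - k1 ^ 2) + 2 * k1 ^ 2 * Y ^ 2) : d ≤ sD κ t := by
  have h3 : κ ^ 2 ≤ k2 ^ 2 := pow_le_pow_left₀ h.1.le hk2 2
  have h1 := DL_ge3 h hy0 hy (by nlinarith)
  have h2 : k1 ^ 2 ≤ κ ^ 2 := pow_le_pow_left₀ hk0 hk1 2
  have h4 : 0 ≤ (κ ^ 2 - k1 ^ 2) * (1 + 2 * Y + 2 * Y ^ 2) := mul_nonneg (by linarith) (by positivity)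
  unfold sD
  nlinarith

theorem sD_ge4 {κ t : ℝ} (h : DomR κ t) (k1 d : ℝ) (hk1 : k1 ≤ κ) (hy0 : sy κ t ≤ 0) (hk0 : 0 < k1)
    (hd : d * (2 * k1 ^ 2) ≤ (1 + k1 ^ 2) * (2 * k1 ^ 2) - (1 - k1 ^ 2) ^ 2) : d ≤ sD κ t := by
  have h1 := DL_ge4 h hy0
  have h2 : k1 ^ 2 ≤ κ ^ 2 := pow_le_pow_left₀ hk0.le hk1 2
  have hκ : 0 < κ ^ 2 := by have := h.1; positivity
  have hk : 0 < k1 ^ 2 := by positivity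
  obtain ⟨a, ha⟩ : ∃ a, a = κ ^ 2 := ⟨_, rfl⟩
  obtain ⟨b, hb⟩ : ∃ b, b = k1 ^ 2 := ⟨_, rfl⟩
  rw [← ha] at h1 h2 hκ
  rw [← hb] at hd h2 hk
  have h3 : 1 + a - (1 - a) ^ 2 / (2 * a) = 2 + a / 2 - 1 / (2 * a) := by field_simp; ring
  have h4 : 1 / (2 * a) ≤ 1 / (2 * b) := one_div_le_one_div_of_le (by linarith) (by linarith)
  have h5 : d ≤ 2 + b / 2 - 1 / (2 * b) := by
    have e : 2 + b / 2 - 1 / (2 * b) = ((1 + b) * (2 * b) - (1 - b) ^ 2) / (2 * b) := by field_simp; ring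
    rw [e, le_div_iff₀ (by linarith)]
    exact hd
  unfold sD
  rw [h3] at h1
  linarith

theorem sD_geR {κ t : ℝ} (h : DomR κ t) (k1 d : ℝ) (hk1 : k1 ≤ κ) (hκ1 : κ ≤ 1) (ht : 0 ≤ t + κ) (hk0 : 0 ≤ k1)
    (hd : d ≤ 1 + k1 ^ 2) : d ≤ sD κ t := by
  have h1 := DR_ge h ht hκ1
  have h2 : k1 ^ 2 ≤ κ ^ 2 := pow_le_pow_left₀ hk0 hk1 2
  unfold sD
  linarith

theorem sD_geR' {κ t : ℝ} (h : DomR κ t) (k1 ya yb d : ℝ) (hk1 : k1 ≤ κ) (hk0 : 0 ≤ k1) (hya : ya ≤ sy κ t)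
    (hyb : sy κ t ≤ yb) (hyb2 : yb ≤ 0.5) (hd : d ≤ 1 + k1 ^ 2 * (1 - 2 * yb) + 2 * ya) : d ≤ sD κ t := by
  have e2 : sD κ t = κ ^ 2 * Real.exp (-2 * sy κ t) + 1 + 2 * sy κ t := sD_eq' h
  have h2 : k1 ^ 2 ≤ κ ^ 2 := pow_le_pow_left₀ hk0 hk1 2
  have h3 : 1 - 2 * yb ≤ Real.exp (-2 * sy κ t) := by
    have := Real.add_one_le_exp (-2 * sy κ t)
    linarith
  have h4 : k1 ^ 2 * (1 - 2 * yb) ≤ κ ^ 2 * Real.exp (-2 * sy κ t) :=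
    mul_le_mul h2 h3 (by linarith) (by positivity)
  rw [e2]
  linarith

theorem M_piece {κ t : ℝ} (k2 cR cL ta tb M : ℝ) (hk : 0 ≤ κ) (hk2 : κ ≤ k2)
    (p1 : cR * (t + κ) / (1 + κ ^ 2) ≤ sp κ t)
    (p0 : sp κ (t - Real.pi / 2) ≤ cL * (t - Real.pi / 2 + κ) / (1 + κ ^ 2)) (h1 : ta ≤ t + κ) (h2 : t + κ ≤ tb)
    (hM : 0 ≤ M) (hcL : 0 ≤ cL) (e1 : M * (1 + k2 ^ 2) ≤ cR * ta + cL * (1.570796 - ta))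
    (e2 : M * (1 + k2 ^ 2) ≤ cR * tb + cL * (1.570796 - tb)) : M ≤ sp κ t - sp κ (t - Real.pi / 2) := by
  have hpi := Real.pi_gt_d6
  have hA : 0 < 1 + κ ^ 2 := by positivity
  have h3 : κ ^ 2 ≤ k2 ^ 2 := pow_le_pow_left₀ hk hk2 2
  have h4 : M * (1 + κ ^ 2) ≤ M * (1 + k2 ^ 2) := mul_le_mul_of_nonneg_left (by linarith) hM
  have h5 : M * (1 + k2 ^ 2) ≤ cR * (t + κ) + cL * (1.570796 - (t + κ)) := by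
    rcases le_total cR cL with h6 | h6
    · have := mul_nonneg (sub_nonneg.2 h6) (sub_nonneg.2 h2)
      linarith
    · have := mul_nonneg (sub_nonneg.2 h6) (sub_nonneg.2 h1)
      linarith
  have h7 : cL * (1.570796 - (t + κ)) ≤ cL * (Real.pi / 2 - (t + κ)) := mul_le_mul_of_nonneg_left (by linarith) hcL
  have h8 : M ≤ (cR * (t + κ) + cL * (Real.pi / 2 - (t + κ))) / (1 + κ ^ 2) := by
    rw [le_div_iff₀ hA]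
    linarith
  have e3 : (cR * (t + κ) + cL * (Real.pi / 2 - (t + κ))) / (1 + κ ^ 2) =
      cR * (t + κ) / (1 + κ ^ 2) - cL * (t - Real.pi / 2 + κ) / (1 + κ ^ 2) := by ring
  rw [e3] at h8
  linarith

/-- upper bound of `κ (1/2-κ²/6)` on a box -/
theorem q_box {κ : ℝ} (k0 k1 k2 q : ℝ) (hk1 : k1 ≤ κ) (hk2 : κ ≤ k2) (hk0 : 0 ≤ k0) (hq : 0 ≤ q) (h12 : k1 < k2)
    (hk10 : 0 ≤ k1)
    (e1 : k1 / 2 - (k0 ^ 3 + 3 * k0 ^ 2 * (k1 - k0)) / 6 ≤ q * (1 + k0 ^ 2 + 2 * k0 * (k1 - k0)))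
    (e2 : k2 / 2 - (k0 ^ 3 + 3 * k0 ^ 2 * (k2 - k0)) / 6 ≤ q * (1 + k0 ^ 2 + 2 * k0 * (k2 - k0))) :
    κ * (1 / 2 - κ ^ 2 / 6) ≤ q * (1 + κ ^ 2) := by
  have hκ : 0 ≤ κ := by linarith
  have h3 : k0 ^ 3 + 3 * k0 ^ 2 * (κ - k0) ≤ κ ^ 3 := by
    have : κ ^ 3 - (k0 ^ 3 + 3 * k0 ^ 2 * (κ - k0)) = (κ - k0) ^ 2 * (κ + 2 * k0) := by ring
    have h4 : 0 ≤ (κ - k0) ^ 2 * (κ + 2 * k0) := mul_nonneg (sq_nonneg _) (by linarith)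
    linarith
  have h5 : q * (1 + k0 ^ 2 + 2 * k0 * (κ - k0)) ≤ q * (1 + κ ^ 2) := by
    apply mul_le_mul_of_nonneg_left _ hq
    nlinarith [sq_nonneg (κ - k0)]
  have h6 : κ / 2 - (k0 ^ 3 + 3 * k0 ^ 2 * (κ - k0)) / 6 ≤ q * (1 + k0 ^ 2 + 2 * k0 * (κ - k0)) := by
    have hd : 0 < k2 - k1 := by linarith
    have f1 := mul_le_mul_of_nonneg_left e1 (by linarith : 0 ≤ k2 - κ)
    have f2 := mul_le_mul_of_nonneg_left e2 (by linarith : 0 ≤ κ - k1)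
    refine le_of_mul_le_mul_left ?_ hd
    linarith
  linarith

/-- right: `sE ≥ 1 - c τ²/(1+κ²)` on `[τa, τm]` -/
theorem V1_piece {κ t : ℝ} (h : DomR κ t) (k0 k1 k2 z q γ τa τm c : ℝ) (hk1 : k1 ≤ κ) (hk2 : κ ≤ k2)
    (h0 : τa ≤ t + κ) (h1 : t + κ ≤ τm) (hτ0 : 0 ≤ τa) (hk0 : 0 ≤ k0) (hk10 : 0 ≤ k1) (h12 : k1 < k2)
    (hk22 : k2 ≤ 1.7) (hz : 0 ≤ z) (hq : 0 ≤ q) (hγ0 : 0 ≤ γ)
    (z1 : z * (1 + k1 ^ 2) ^ 2 ≤ k1 * (1 / 2 - k1 ^ 2 / 6)) (z2 : z * (1 + k2 ^ 2) ^ 2 ≤ k2 * (1 / 2 - k2 ^ 2 / 6))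
    (e1 : k1 / 2 - (k0 ^ 3 + 3 * k0 ^ 2 * (k1 - k0)) / 6 ≤ q * (1 + k0 ^ 2 + 2 * k0 * (k1 - k0)))
    (e2 : k2 / 2 - (k0 ^ 3 + 3 * k0 ^ 2 * (k2 - k0)) / 6 ≤ q * (1 + k0 ^ 2 + 2 * k0 * (k2 - k0)))
    (hγ : γ * (1 + k1 ^ 2) ^ 2 + 9 / 2 * q ^ 2 * τm ≤ z * (1 + k1 ^ 2) ^ 2) (hc : 1 / 2 - γ * τa ≤ c) :
    1 - c * (t + κ) ^ 2 / (1 + κ ^ 2) ≤ sE κ t := by
  have hA : 0 < 1 + κ ^ 2 := by positivity
  have a1 := q_box k0 k1 k2 q hk1 hk2 hk0 hq h12 hk10 e1 e2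
  have a2 := zlow_box hk10 hk1 hk2 hz h12 z1 z2
  have hkk : k1 ^ 2 ≤ κ ^ 2 := pow_le_pow_left₀ hk10 hk1 2
  have hzγ : 0 ≤ z - γ := by
    have h3 : 0 < (1 + k1 ^ 2) ^ 2 := by positivity
    have h4 : 0 ≤ 9 / 2 * q ^ 2 * τm := mul_nonneg (by positivity) (by linarith)
    have h5 : 0 ≤ (z - γ) * (1 + k1 ^ 2) ^ 2 := by linarith
    exact nonneg_of_mul_nonneg_left h5 h3
  have h6 : (1 + k1 ^ 2) ^ 2 ≤ (1 + κ ^ 2) ^ 2 := pow_le_pow_left₀ (by positivity) (by linarith) 2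
  have h7 := mul_le_mul_of_nonneg_left h6 hzγ
  have h8 := V1_lo h γ τm (κ * (1 / 2 - κ ^ 2 / 6)) q (by linarith) h1 (by nlinarith) rfl a1 (by linarith)
  refine le_trans ?_ h8
  have h9 : (1 / 2 - γ * (t + κ)) * (t + κ) ^ 2 / (1 + κ ^ 2) ≤ c * (t + κ) ^ 2 / (1 + κ ^ 2) := by
    apply div_le_div_of_nonneg_right _ hA.le
    apply mul_le_mul_of_nonneg_right _ (sq_nonneg _)
    have := mul_le_mul_of_nonneg_left h0 hγ0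
    linarith
  linarith

/-- right: `c = 1/2` -/
theorem V1_half {κ t : ℝ} (h : DomR κ t) (hk : κ ≤ 1.7) (ht : 0 ≤ t + κ) :
    1 - 0.5 * (t + κ) ^ 2 / (1 + κ ^ 2) ≤ sE κ t := by
  have h1 := low_quad h (by nlinarith [h.1]) ht t
  have e : 1 - 0.5 * (t + κ) ^ 2 / (1 + κ ^ 2) = 1 - (t + κ) ^ 2 / (2 * (1 + κ ^ 2)) := by
    have hA : (1 + κ ^ 2) ≠ 0 := by positivity
    field_simp
    ring
  rw [e]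
  have e2 : sp κ t * (t - t) = 0 := by ring
  linarith

theorem k4_box {κ : ℝ} (k2 a2 : ℝ) (h0 : 0 ≤ κ) (hk2 : κ ≤ k2) (hk22 : k2 ≤ 1.39) (h : k2 ^ 4 ≤ a2 * (1 + k2 ^ 2) ^ 3) :
    κ ^ 4 ≤ a2 * (1 + κ ^ 2) ^ 3 := by
  have hκ4 : 0 ≤ κ ^ 2 := sq_nonneg κ
  obtain ⟨s, hs⟩ : ∃ s, s = κ ^ 2 := ⟨_, rfl⟩
  obtain ⟨S, hS⟩ : ∃ S, S = k2 ^ 2 := ⟨_, rfl⟩
  have hsS : s ≤ S := by rw [hs, hS]; exact pow_le_pow_left₀ h0 hk2 2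
  have hS2 : S ≤ 1.9321 := by rw [hS]; nlinarith
  have e1 : κ ^ 4 = s ^ 2 := by rw [hs]; ring
  have e2 : k2 ^ 4 = S ^ 2 := by rw [hS]; ring
  rw [e1, ← hs]
  rw [e2, ← hS] at h
  have hs0 : 0 ≤ s := by rw [hs]; positivity
  have hS0 : 0 ≤ S := hs0.trans hsS
  -- `s² (1+S)³ ≤ S² (1+s)³`
  have key : s ^ 2 * (1 + S) ^ 3 ≤ S ^ 2 * (1 + s) ^ 3 := by
    have e3 : S ^ 2 * (1 + s) ^ 3 - s ^ 2 * (1 + S) ^ 3 = (S - s) * (S + s + 3 * (S * s) - (S * s) ^ 2) := by ring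
    have h4 : 0 ≤ S + s + 3 * (S * s) - (S * s) ^ 2 := by
      have h5 : S * s ≤ S ^ 2 := by nlinarith
      have h6 : 0 ≤ S * s := mul_nonneg hS0 hs0
      have h7 : (S * s) ^ 2 ≤ (S * s) * (1.9321 * s) := by
        have : S * s ≤ 1.9321 * s := mul_le_mul_of_nonneg_right hS2 hs0
        nlinarith
      have h8 : s ≤ 1.9321 := by linarith
      have h9 : (S * s) * (1.9321 * s) ≤ (S * s) * 3.7331 := by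
        apply mul_le_mul_of_nonneg_left _ h6
        nlinarith
      have h10 : 0.7331 * (S * s) ≤ S + s := by
        nlinarith [mul_nonneg hs0 (sub_nonneg.2 hS2)]
      linarith
    have h5 : 0 ≤ (S - s) * (S + s + 3 * (S * s) - (S * s) ^ 2) := mul_nonneg (by linarith) h4
    linarith
  have hSS : 0 < (1 + S) ^ 3 := by positivity
  have h11 : s ^ 2 * (1 + S) ^ 3 ≤ (a2 * (1 + s) ^ 3) * (1 + S) ^ 3 := by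
    refine key.trans ?_
    have := mul_le_mul_of_nonneg_right h (by positivity : 0 ≤ (1 + s) ^ 3)
    linarith
  exact le_of_mul_le_mul_right h11 hSS

/-- left: `sE ≥ 1 - C τ²/(1+κ²)` on `[-τm, 0]` -/
theorem V0_piece {κ t : ℝ} (h : DomR κ t) (k0 k1 k2 χ ψ a1 a2 a3 a4 C τm : ℝ) (hk1 : k1 ≤ κ) (hk2 : κ ≤ k2)
    (h0 : 0 ≤ -(t + κ)) (h1 : -(t + κ) ≤ τm) (hψ : κ / (1 + κ ^ 2) ≤ ψ) (hψ4 : ψ ≤ a4) (hk0 : 0 ≤ k0)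
    (hk10 : 0 < k1) (h12 : k1 < k2) (hk22 : k2 ≤ 1.39) (hτm : τm ≤ 1) (hχ : 0 ≤ χ) (hχ1 : χ / 6 ≤ a1)
    (e1 : 3 * k0 - k0 ^ 3 + (3 - 3 * k0 ^ 2) * (k1 - k0) ≤
      χ * ((1 + k0 ^ 2) ^ 2 + 4 * k0 * (1 + k0 ^ 2) * (k1 - k0)))
    (e2 : 3 * k0 - k0 ^ 3 + (3 - 3 * k0 ^ 2) * (k2 - k0) ≤
      χ * ((1 + k0 ^ 2) ^ 2 + 4 * k0 * (1 + k0 ^ 2) * (k2 - k0)))
    (h2 : k2 ^ 4 ≤ a2 * (1 + k2 ^ 2) ^ 3) (h3 : 1 ≤ a3 * (1 + k1 ^ 2) ^ 3) (h20 : 0 ≤ a2) (h30 : 0 ≤ a3)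
    (hC : 1 / 2 + a1 * τm + a2 * τm ^ 2 / 12 + (1 + a4 * τm) * (a3 * τm ^ 2 / 12 + a3 * τm ^ 4 / 24) ≤ C) :
    1 - C * (t + κ) ^ 2 / (1 + κ ^ 2) ≤ sE κ t := by
  have hκ := h.1
  have hA : 0 < 1 + κ ^ 2 := by positivity
  have b1 := chi_box k0 k1 k2 χ hκ.le hk1 hk2 h12 hk0 hχ e1 e2
  have b2 := k4_box k2 a2 hκ.le hk2 hk22 h2
  have hkk : k1 ^ 2 ≤ κ ^ 2 := pow_le_pow_left₀ hk10.le hk1 2
  have b3 : 1 ≤ a3 * (1 + κ ^ 2) ^ 3 := by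
    have := mul_le_mul_of_nonneg_left (pow_le_pow_left₀ (by positivity) (by linarith : 1 + k1 ^ 2 ≤ 1 + κ ^ 2) 3) h30
    linarith
  have b4 : κ ≤ a4 * (1 + κ ^ 2) := by
    rw [div_le_iff₀ hA] at hψ
    have := mul_le_mul_of_nonneg_right hψ4 hA.le
    linarith
  have ha1 : 0 ≤ a1 := le_trans (by positivity) hχ1
  have ha4 : 0 ≤ a4 := le_trans (le_trans (by positivity) hψ) hψ4
  refine V0_lo h C τm a1 a2 a3 a4 h0 h1 hτm ?_ b2 b3 b4 ha1 h20 h30 ha4 hC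
  have := mul_le_mul_of_nonneg_right hχ1 (by positivity : 0 ≤ (1 + κ ^ 2) ^ 2)
  linarith

end Sok.B4
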