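import Pool.Agent.Lib.MP_816dec_an.R1Exp

/-!
MP_816dec_an (A3, row R1, one fixed `b`): sharper box lemmas for `sE` and `sD`.
-/

set_option autoImplicit false

open Set Filter Topology Real

namespace Sok

/-- `cos a + q a ≤ 1 + q²/2 + q⁴/24 + q⁶/24` for all `q ≥ 0` -/
theorem r1_cosq6 {a q : ℝ} (ha : |a| ≤ π / 2) (hq : 0 ≤ q) :
    cos a + q * a ≤ 1 + q ^ 2 / 2 + q ^ 4 / 24 + q ^ 6 / 24 := by
  have hpi := pi_lt_d6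
  have hpi3 := pi_gt_d6
  obtain ⟨ha1, ha2⟩ := abs_le.1 ha
  rcases le_total a 0 with h0 | h0
  · have h1 := cos_le_one a
    have h2 : q * a ≤ 0 := mul_nonpos_of_nonneg_of_nonpos hq h0
    have h3 : 0 ≤ q ^ 2 / 2 + q ^ 4 / 24 + q ^ 6 / 24 := by positivity
    linarith
  -- `cos a ≤ π/2 - a`
  have hcz : cos a ≤ π / 2 - a := by
    rw [← sin_pi_div_two_sub]
    exact sin_le (by linarith)
  rcases le_total 1 q with hq1 | hq1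
  · have h1 : cos a + q * a ≤ q * (π / 2) := by nlinarith
    have h2 : q * (π / 2) ≤ q * 1.5707965 := mul_le_mul_of_nonneg_left (by linarith) hq
    have h3 : q * 1.5707965 ≤ 1 + q ^ 2 / 2 + q ^ 4 / 24 + q ^ 6 / 24 := by
      obtain ⟨s, hs⟩ : ∃ s, s = q ^ 2 := ⟨_, rfl⟩
      have e4 : q ^ 4 = s ^ 2 := by rw [hs]; ring
      have e6 : q ^ 6 = s ^ 3 := by rw [hs]; ring
      rw [e4, e6, ← hs]
      have hs1 : 1 ≤ s := by rw [hs]; nlinarith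
      -- `q ≤ (s/1.05 + 1.05)/2`
      have hqs : q ≤ (s / 1.05 + 1.05) / 2 := by
        rw [hs]
        have : 0 ≤ (q - 1.05) ^ 2 := sq_nonneg _
        rw [div_add' _ _ _ (by norm_num), div_div, le_div_iff₀ (by norm_num)]
        nlinarith
      have h5 : ((s / 1.05 + 1.05) / 2) * 1.5707965 ≤ 1 + s / 2 + s ^ 2 / 24 + s ^ 3 / 24 := by
        have e : 1 + s / 2 + s ^ 2 / 24 + s ^ 3 / 24 - ((s / 1.05 + 1.05) / 2) * 1.5707965 =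
          (s - 1.1025) ^ 2 * (s + 2.205 + 1) / 24 + ((3 * 1.1025 ^ 2 + 2 * 1.1025) / 24 + 1 / 2 -
            1.5707965 / 2.1) * s + (1 - 1.1025 ^ 2 * (2.205 + 1) / 24 - 1.05 * 1.5707965 / 2) := by
          ring
        have h6 : 0 ≤ (s - 1.1025) ^ 2 * (s + 2.205 + 1) / 24 := by positivity
        nlinarith
      linarith [mul_le_mul_of_nonneg_right hqs (by norm_num : (0:ℝ) ≤ 1.5707965)]
    linarith
  rcases le_total a 1.44 with h44 | h44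
  · have h1 := r1_cos_le a
    have h2 : 3 * q ^ 2 + 2 * q * a + a ^ 2 ≤ 8 := by nlinarith [mul_nonneg hq h0]
    have e : (1 + q ^ 2 / 2 + q ^ 4 / 24 + q ^ 6 / 24) - (1 - a ^ 2 / 2 + a ^ 4 / 24 + q * a) =
        ((q ^ 3 - 2 * (a - q)) ^ 2 + (a - q) ^ 2 * (8 - (3 * q ^ 2 + 2 * q * a + a ^ 2))) / 24 := by
      ring
    have h3 : 0 ≤ (q ^ 3 - 2 * (a - q)) ^ 2 + (a - q) ^ 2 * (8 - (3 * q ^ 2 + 2 * q * a + a ^ 2)) := by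
      have := mul_nonneg (sq_nonneg (a - q)) (sub_nonneg.2 h2)
      have := sq_nonneg (q ^ 3 - 2 * (a - q))
      linarith
    linarith
  · -- tangent at `q = 1`
    obtain ⟨v, hv⟩ : ∃ v, v = 1 - q := ⟨_, rfl⟩
    have hv0 : 0 ≤ v := by linarith
    have hqv : q = 1 - v := by linarith
    have h1 : 1 + 1 / 2 + 1 / 24 + 1 / 24 - (1 + 1 / 6 + 1 / 4) * v ≤
        1 + q ^ 2 / 2 + q ^ 4 / 24 + q ^ 6 / 24 := by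
      have e : 1 + q ^ 2 / 2 + q ^ 4 / 24 + q ^ 6 / 24 -
          (1 + 1 / 2 + 1 / 24 + 1 / 24 - (1 + 1 / 6 + 1 / 4) * v) =
          v ^ 2 / 2 + v ^ 2 * (q ^ 2 + 2 * q + 3) / 24 +
            v ^ 2 * (q ^ 4 + 2 * q ^ 3 + 3 * q ^ 2 + 4 * q + 5) / 24 := by
        rw [hqv]; ring
      have h3 : 0 ≤ v ^ 2 / 2 + v ^ 2 * (q ^ 2 + 2 * q + 3) / 24 +
            v ^ 2 * (q ^ 4 + 2 * q ^ 3 + 3 * q ^ 2 + 4 * q + 5) / 24 := by positivity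
      linarith
    nlinarith

theorem up6 {κ t : ℝ} (h : DomR κ t) {p : ℝ} (hp : 0 ≤ p) :
    sE κ t ≤ exp (-(κ * p)) + p ^ 2 * exp (κ * p) / 2 + p ^ 4 * exp (κ * p) ^ 3 / 24 +
      p ^ 6 * exp (κ * p) ^ 5 / 24 - p * t := by
  have hk := h.1
  have h1 := fen_up h (κ * p)
  have h2 := r1_cosq6 (sa_abs h).le (mul_nonneg hp (exp_pos (κ * p)).le)
  have h3 : κ * p / κ = p := by field_simp
  rw [h3] at h1
  have h4 := mul_le_mul_of_nonneg_left h2 (exp_pos (-(κ * p))).le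
  have h5 : exp (-(κ * p)) * exp (κ * p) = 1 := by rw [← exp_add, neg_add_cancel, exp_zero]
  have e1 : exp (-(κ * p)) * (cos (sa κ t) + p * exp (κ * p) * sa κ t) =
      exp (-(κ * p)) * cos (sa κ t) + (exp (-(κ * p)) * exp (κ * p)) * (p * sa κ t) := by ring
  have e2 : exp (-(κ * p)) * (1 + (p * exp (κ * p)) ^ 2 / 2 + (p * exp (κ * p)) ^ 4 / 24 +
      (p * exp (κ * p)) ^ 6 / 24) =
      exp (-(κ * p)) + (exp (-(κ * p)) * exp (κ * p)) * (p ^ 2 * exp (κ * p) / 2) +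
      (exp (-(κ * p)) * exp (κ * p)) * (p ^ 4 * exp (κ * p) ^ 3 / 24) +
      (exp (-(κ * p)) * exp (κ * p)) * (p ^ 6 * exp (κ * p) ^ 5 / 24) := by ring
  rw [e1, e2, h5] at h4
  nlinarith

/-- `(e^{-z} - 1 + z) / z² ≤ 1/2 - z/6 + z²/24` for `z ≥ 0` -/
theorem r1_exp_neg4 {z : ℝ} (hz : 0 ≤ z) : exp (-z) ≤ 1 - z + z ^ 2 / 2 - z ^ 3 / 6 + z ^ 4 / 24 := by
  have h : AntitoneOn (fun z : ℝ => exp (-z) - (1 - z + z ^ 2 / 2 - z ^ 3 / 6 + z ^ 4 / 24)) (Ici 0) := by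
    apply antitoneOn_of_deriv_nonpos (convex_Ici 0)
    · fun_prop
    · fun_prop
    · intro y hy
      rw [interior_Ici] at hy
      have h1 : HasDerivAt (fun z : ℝ => exp (-z) - (1 - z + z ^ 2 / 2 - z ^ 3 / 6 + z ^ 4 / 24))
          (-exp (-y) - (-1 + y - y ^ 2 / 2 + y ^ 3 / 6)) y := by
        have d1 : HasDerivAt (fun z : ℝ => exp (-z)) (exp (-y) * -1) y := (hasDerivAt_neg y).exp
        have d2 : HasDerivAt (fun z : ℝ => 1 - z + z ^ 2 / 2 - z ^ 3 / 6 + z ^ 4 / 24)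
            (0 - 1 + (2 : ℕ) * y ^ (2 - 1) / 2 - (3 : ℕ) * y ^ (3 - 1) / 6 + (4 : ℕ) * y ^ (4 - 1) / 24) y :=
          (((((hasDerivAt_const y (1:ℝ)).fun_sub (hasDerivAt_id' y)).fun_add
            ((hasDerivAt_pow 2 y).div_const 2)).fun_sub ((hasDerivAt_pow 3 y).div_const 6)).fun_add
            ((hasDerivAt_pow 4 y).div_const 24))
        refine (d1.fun_sub d2).congr_deriv ?_
        push_cast
        ring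
      rw [h1.deriv]
      have h2 := r1_exp_ge3 (-y)
      have e : 1 + -y + (-y) ^ 2 / 2 + (-y) ^ 3 / 6 = 1 - y + y ^ 2 / 2 - y ^ 3 / 6 := by ring
      rw [e] at h2
      linarith
  have h2 := h (mem_Ici.2 le_rfl) (mem_Ici.2 hz) hz
  simp only [neg_zero, exp_zero] at h2
  norm_num at h2
  linarith

/-- box form of the right hand bound with a lower end: `κ ≥ k1`, `τ1 ≤ t + κ ≤ τm` -/
theorem VR_box6 {κ t : ℝ} (h : DomR κ t) (l c k1 ψ ψ1 τ1 τm P w z φ E : ℝ) (ht : τ1 ≤ t + κ)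
    (htm : t + κ ≤ τm) (hτ1 : 0 ≤ τ1)
    (hk1 : k1 ≤ κ) (hψ : κ / (1 + κ ^ 2) ≤ ψ) (hψ1 : ψ1 ≤ κ / (1 + κ ^ 2)) (hψ0 : 0 ≤ ψ1)
    (hk0 : 0 ≤ k1) (hl : 0 < l)
    (hP : P = l * τm / (1 + k1 ^ 2)) (hw : w = ψ * (l * τm)) (hw1 : w ≤ 13 / 20)
    (hz : z = ψ1 * (l * τ1)) (hφ : φ = 1 / 2 - z / 6 + z ^ 2 / 24)
    (hE' : E = 1 + w + w ^ 2 / 2 + w ^ 3 / 5)
    (hC : φ ≤ 1 / l - c / l ^ 2)
    (hnum : E / 2 + P ^ 2 * E ^ 3 / 24 + P ^ 4 * E ^ 5 / 24 -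
      (1 / l - c / l ^ 2) ≤ k1 ^ 2 * ((1 / l - c / l ^ 2) - φ)) :
    sE κ t ≤ 1 - c * (t + κ) ^ 2 / (1 + κ ^ 2) := by
  have hk := h.1
  have hA : 0 < 1 + κ ^ 2 := by positivity
  have hA1 : 0 < 1 + k1 ^ 2 := by positivity
  obtain ⟨τ, hτ⟩ : ∃ τ, τ = t + κ := ⟨_, rfl⟩
  obtain ⟨p, hp⟩ : ∃ p, p = l * τ / (1 + κ ^ 2) := ⟨_, rfl⟩
  obtain ⟨C, hC'⟩ : ∃ C, C = 1 / l - c / l ^ 2 := ⟨_, rfl⟩
  rw [← hτ] at ht htm ⊢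
  rw [← hC'] at hC hnum
  have hτ0 : 0 ≤ τ := hτ1.trans ht
  have hp0 : 0 ≤ p := by rw [hp]; positivity
  have hpP : p ≤ P := by
    rw [hp, hP]
    apply div_le_div₀ (by nlinarith) (mul_le_mul_of_nonneg_left htm hl.le) hA1
    nlinarith
  have hv0 : 0 ≤ κ * p := mul_nonneg hk.le hp0
  have ev : κ * p = κ / (1 + κ ^ 2) * (l * τ) := by rw [hp]; field_simp
  have hvw : κ * p ≤ w := by
    rw [ev, hw]
    apply mul_le_mul hψ (mul_le_mul_of_nonneg_left htm hl.le) (by positivity)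
    exact le_trans (by positivity) hψ
  have hzv : z ≤ κ * p := by
    rw [ev, hz]
    apply mul_le_mul hψ1 (mul_le_mul_of_nonneg_left ht hl.le) (by positivity) (by positivity)
  have hz0 : 0 ≤ z := by rw [hz]; positivity
  have h1 := up6 h hp0
  have h2 : exp (-(κ * p)) ≤ 1 - κ * p + (κ * p) ^ 2 * φ := by
    have h21 := r1_exp_neg4 hv0
    have h22 : 1 / 2 - (κ * p) / 6 + (κ * p) ^ 2 / 24 ≤ φ := by
      rw [hφ]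
      nlinarith [mul_nonneg (sub_nonneg.2 hzv) (by linarith : 0 ≤ 4 - (κ * p + z))]
    have h23 := mul_le_mul_of_nonneg_left h22 (sq_nonneg (κ * p))
    have e : (κ * p) ^ 2 * (1 / 2 - κ * p / 6 + (κ * p) ^ 2 / 24) =
      (κ * p) ^ 2 / 2 - (κ * p) ^ 3 / 6 + (κ * p) ^ 4 / 24 := by ring
    linarith
  have h3 : exp (κ * p) ≤ E := by
    have h31 := r1_exp_le3 hv0 (hvw.trans hw1)
    rw [hE']
    have h32 : (κ * p) ^ 2 ≤ w ^ 2 := pow_le_pow_left₀ hv0 hvw 2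
    have h33 : (κ * p) ^ 3 ≤ w ^ 3 := pow_le_pow_left₀ hv0 hvw 3
    linarith
  have h4 : 0 < exp (κ * p) := exp_pos _
  have h6 : p ^ 2 * exp (κ * p) / 2 ≤ p ^ 2 * E / 2 := by
    have := mul_le_mul_of_nonneg_left h3 (sq_nonneg p)
    linarith
  have h7 : p ^ 4 * exp (κ * p) ^ 3 / 24 ≤ p ^ 2 * (P ^ 2 * E ^ 3) / 24 := by
    have hPp : p ^ 2 ≤ P ^ 2 := pow_le_pow_left₀ hp0 hpP 2
    have h5 : exp (κ * p) ^ 3 ≤ E ^ 3 := pow_le_pow_left₀ h4.le h3 3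
    have h8 : p ^ 2 * exp (κ * p) ^ 3 ≤ P ^ 2 * E ^ 3 :=
      mul_le_mul hPp h5 (by positivity) (by positivity)
    have h81 := mul_le_mul_of_nonneg_left h8 (sq_nonneg p)
    have e : p ^ 4 * exp (κ * p) ^ 3 / 24 = p ^ 2 * (p ^ 2 * exp (κ * p) ^ 3) / 24 := by ring
    rw [e]
    linarith
  have h7' : p ^ 6 * exp (κ * p) ^ 5 / 24 ≤ p ^ 2 * (P ^ 4 * E ^ 5) / 24 := by
    have hPp : p ^ 4 ≤ P ^ 4 := pow_le_pow_left₀ hp0 hpP 4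
    have h5 : exp (κ * p) ^ 5 ≤ E ^ 5 := pow_le_pow_left₀ h4.le h3 5
    have h8 : p ^ 4 * exp (κ * p) ^ 5 ≤ P ^ 4 * E ^ 5 :=
      mul_le_mul hPp h5 (by positivity) (by positivity)
    have h81 := mul_le_mul_of_nonneg_left h8 (sq_nonneg p)
    have e : p ^ 6 * exp (κ * p) ^ 5 / 24 = p ^ 2 * (p ^ 4 * exp (κ * p) ^ 5) / 24 := by ring
    rw [e]
    linarith
  have hτp : τ = p * (1 + κ ^ 2) / l := by rw [hp]; field_simp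
  have e1 : p * t = p * τ - κ * p := by rw [hτ]; ring
  have e2 : p * τ = p ^ 2 * (1 + κ ^ 2) / l := by rw [hτp]; ring
  have e3 : c * τ ^ 2 / (1 + κ ^ 2) = c * p ^ 2 * (1 + κ ^ 2) / l ^ 2 := by
    rw [hτp]; field_simp
  have e4 : p ^ 2 * (1 + κ ^ 2) / l - c * p ^ 2 * (1 + κ ^ 2) / l ^ 2 = p ^ 2 * ((1 + κ ^ 2) * C) := by
    rw [hC']; field_simp
  have h9 : κ ^ 2 * φ + E / 2 + P ^ 2 * E ^ 3 / 24 + P ^ 4 * E ^ 5 / 24 ≤ (1 + κ ^ 2) * C := by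
    have h10 : k1 ^ 2 ≤ κ ^ 2 := pow_le_pow_left₀ hk0 hk1 2
    linarith [mul_le_mul_of_nonneg_right h10 (sub_nonneg.2 hC)]
  have h10 := mul_le_mul_of_nonneg_left h9 (sq_nonneg p)
  rw [e3]
  have e5 : (κ * p) ^ 2 * φ = p ^ 2 * (κ ^ 2 * φ) := by ring
  linarith

theorem psi1_lo {κ k1 : ℝ} (h0 : 0 ≤ k1) (h : k1 ≤ κ) (h1 : κ ≤ 1) : k1 / (1 + k1 ^ 2) ≤ κ / (1 + κ ^ 2) := by
  rw [div_le_div_iff₀ (by positivity) (by positivity)]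
  nlinarith [mul_nonneg (sub_nonneg.2 h) (by nlinarith : 0 ≤ 1 - κ * k1)]

theorem psi1_hi {κ k2 : ℝ} (h : κ ≤ k2) (h1 : 1 ≤ κ) : k2 / (1 + k2 ^ 2) ≤ κ / (1 + κ ^ 2) := by
  rw [div_le_div_iff₀ (by positivity) (by positivity)]
  nlinarith [mul_nonneg (sub_nonneg.2 h) (by nlinarith : 0 ≤ κ * k2 - 1)]

/-- lower bound of `sE` at `0 ≤ τ ≤ τm`, linear correction: `1 - (1/2 - γ τ) τ²/(1+κ²)` -/
theorem V1_lo {κ t : ℝ} (h : DomR κ t) (γ τm c q : ℝ) (h0 : 0 ≤ t + κ) (h1 : t + κ ≤ τm)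
    (hk3 : κ ^ 2 ≤ 3) (hc : c = κ * (1 / 2 - κ ^ 2 / 6)) (hq : c ≤ q * (1 + κ ^ 2))
    (hγ : γ * (1 + κ ^ 2) ^ 2 + 9 / 2 * q ^ 2 * τm ≤ c) :
    1 - (1 / 2 - γ * (t + κ)) * (t + κ) ^ 2 / (1 + κ ^ 2) ≤ sE κ t := by
  have hk := h.1
  have hA : 0 < 1 + κ ^ 2 := by positivity
  have hc0 : 0 ≤ c := by rw [hc]; exact mul_nonneg hk.le (by nlinarith)
  obtain ⟨s, hs⟩ : ∃ s, s = (t + κ) / (1 + κ ^ 2) := ⟨_, rfl⟩
  have hτ : t + κ = s * (1 + κ ^ 2) := by rw [hs]; field_simp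
  have hs0 : 0 ≤ s := by rw [hs]; positivity
  have h2 := VRlow h hs hs0 hk3 hc
  have h1' := h1
  rw [hτ] at h1 ⊢
  have hq2 : c ^ 2 ≤ q ^ 2 * (1 + κ ^ 2) ^ 2 := by
    rw [← mul_pow]
    exact pow_le_pow_left₀ hc0 hq 2
  -- `γ s³ A² ≤ c s³ - 9/2 c² s⁴ / A`
  have h3 : 9 / 2 * c ^ 2 * s ^ 4 / (1 + κ ^ 2) ≤ s ^ 3 * (9 / 2 * q ^ 2 * τm) := by
    rw [div_le_iff₀ hA]
    have h4 : 9 / 2 * c ^ 2 * s ^ 4 ≤ 9 / 2 * (q ^ 2 * (1 + κ ^ 2) ^ 2) * s ^ 4 := by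
      have := mul_le_mul_of_nonneg_right hq2 (by positivity : 0 ≤ s ^ 4)
      linarith
    have h5 : 9 / 2 * (q ^ 2 * (1 + κ ^ 2) ^ 2) * s ^ 4 =
        (9 / 2 * q ^ 2 * s ^ 3 * (1 + κ ^ 2)) * (s * (1 + κ ^ 2)) := by ring
    have h6 : (9 / 2 * q ^ 2 * s ^ 3 * (1 + κ ^ 2)) * (s * (1 + κ ^ 2)) ≤
        (9 / 2 * q ^ 2 * s ^ 3 * (1 + κ ^ 2)) * τm :=
      mul_le_mul_of_nonneg_left h1 (by positivity)
    linarith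
  have h7 := mul_le_mul_of_nonneg_left hγ (by positivity : 0 ≤ s ^ 3)
  have e : (1 / 2 - γ * (s * (1 + κ ^ 2))) * (s * (1 + κ ^ 2)) ^ 2 / (1 + κ ^ 2) =
      (1 + κ ^ 2) * s ^ 2 / 2 - s ^ 3 * (γ * (1 + κ ^ 2) ^ 2) := by
    field_simp
  rw [e]
  linarith

/-- lower bound of `sE` at `-τm ≤ τ ≤ 0` with a constant -/
theorem V0_lo {κ t : ℝ} (h : DomR κ t) (C τm a1 a2 a3 a4 : ℝ) (h0 : 0 ≤ -(t + κ)) (h1 : -(t + κ) ≤ τm)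
    (hτm : τm ≤ 1)
    (ha1 : κ * (1 / 2 - κ ^ 2 / 6) ≤ a1 * (1 + κ ^ 2) ^ 2) (ha2 : κ ^ 4 ≤ a2 * (1 + κ ^ 2) ^ 3)
    (ha3 : 1 ≤ a3 * (1 + κ ^ 2) ^ 3) (ha4 : κ ≤ a4 * (1 + κ ^ 2)) (h10 : 0 ≤ a1)
    (h20 : 0 ≤ a2) (h30 : 0 ≤ a3) (h40 : 0 ≤ a4)
    (hC : 1 / 2 + a1 * τm + a2 * τm ^ 2 / 12 + (1 + a4 * τm) * (a3 * τm ^ 2 / 12 + a3 * τm ^ 4 / 24) ≤ C) :
    1 - C * (t + κ) ^ 2 / (1 + κ ^ 2) ≤ sE κ t := by
  have hk := h.1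
  have hA : 0 < 1 + κ ^ 2 := by positivity
  have hA1 : 1 ≤ 1 + κ ^ 2 := by nlinarith [sq_nonneg κ]
  obtain ⟨T, hT⟩ : ∃ T, T = -(t + κ) := ⟨_, rfl⟩
  obtain ⟨s, hs⟩ : ∃ s, s = -(t + κ) / (1 + κ ^ 2) := ⟨_, rfl⟩
  rw [← hT] at h0 h1
  have hTs : T = s * (1 + κ ^ 2) := by rw [hs, hT]; field_simp
  have hs0 : 0 ≤ s := by rw [hs, ← hT]; positivity
  have hsT : s ≤ T := by rw [hTs]; nlinarith
  have h2 := VLlow h hs hs0 (by linarith)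
  have e0 : (t + κ) ^ 2 = T ^ 2 := by rw [hT]; ring
  rw [e0]
  refine le_trans ?_ h2
  have e1 : C * T ^ 2 / (1 + κ ^ 2) = C * (s ^ 2 * (1 + κ ^ 2)) := by
    rw [hTs]; field_simp
  rw [e1]
  -- each term is `≤ coefficient * s² (1+κ²)`
  have hsA : 0 ≤ s ^ 2 * (1 + κ ^ 2) := by positivity
  have t1 : κ * (1 / 2 - κ ^ 2 / 6) * s ^ 3 ≤ (a1 * τm) * (s ^ 2 * (1 + κ ^ 2)) := by
    have h3 := mul_le_mul_of_nonneg_right ha1 (by positivity : 0 ≤ s ^ 3)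
    have h4 : a1 * (1 + κ ^ 2) ^ 2 * s ^ 3 = a1 * (s ^ 2 * (1 + κ ^ 2)) * T := by rw [hTs]; ring
    have h5 := mul_le_mul_of_nonneg_left h1 (mul_nonneg h10 hsA)
    linarith
  have hTm2 : T ^ 2 ≤ τm ^ 2 := pow_le_pow_left₀ h0 h1 2
  have hTm4 : T ^ 4 ≤ τm ^ 4 := pow_le_pow_left₀ h0 h1 4
  have t2 : κ ^ 4 * s ^ 4 / 12 ≤ (a2 * τm ^ 2 / 12) * (s ^ 2 * (1 + κ ^ 2)) := by
    have h3 := mul_le_mul_of_nonneg_right ha2 (by positivity : 0 ≤ s ^ 4)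
    have h4 : a2 * (1 + κ ^ 2) ^ 3 * s ^ 4 = a2 * (s ^ 2 * (1 + κ ^ 2)) * T ^ 2 := by rw [hTs]; ring
    have h5 := mul_le_mul_of_nonneg_left hTm2 (mul_nonneg h20 hsA)
    linarith
  have t3 : s ^ 4 ≤ (a3 * τm ^ 2) * (s ^ 2 * (1 + κ ^ 2)) := by
    have h3 := mul_le_mul_of_nonneg_right ha3 (by positivity : 0 ≤ s ^ 4)
    have h4 : a3 * (1 + κ ^ 2) ^ 3 * s ^ 4 = a3 * (s ^ 2 * (1 + κ ^ 2)) * T ^ 2 := by rw [hTs]; ring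
    have h5 := mul_le_mul_of_nonneg_left hTm2 (mul_nonneg h30 hsA)
    linarith
  have t4 : s ^ 6 ≤ (a3 * τm ^ 4) * (s ^ 2 * (1 + κ ^ 2)) := by
    have h3 := mul_le_mul_of_nonneg_right ha3 (by positivity : 0 ≤ s ^ 6)
    have h4 : a3 * (1 + κ ^ 2) ^ 3 * s ^ 6 * (1 + κ ^ 2) ^ 2 =
      a3 * (s ^ 2 * (1 + κ ^ 2)) * T ^ 4 := by rw [hTs]; ring
    have h5 := mul_le_mul_of_nonneg_left hTm4 (mul_nonneg h30 hsA)
    have h6 : a3 * (1 + κ ^ 2) ^ 3 * s ^ 6 ≤ a3 * (1 + κ ^ 2) ^ 3 * s ^ 6 * (1 + κ ^ 2) ^ 2 := by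
      have : 1 ≤ (1 + κ ^ 2) ^ 2 := one_le_pow₀ hA1
      exact le_mul_of_one_le_right (by positivity) this
    linarith
  have t5 : κ * s ≤ a4 * τm := by
    have h3 := mul_le_mul_of_nonneg_right ha4 hs0
    have h4 : a4 * (1 + κ ^ 2) * s = a4 * T := by rw [hTs]; ring
    have h5 := mul_le_mul_of_nonneg_left h1 h40
    linarith
  have t6 : (1 + κ * s) * (s ^ 4 / 12 + s ^ 6 / 24) ≤
      ((1 + a4 * τm) * (a3 * τm ^ 2 / 12 + a3 * τm ^ 4 / 24)) * (s ^ 2 * (1 + κ ^ 2)) := by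
    have h3 : s ^ 4 / 12 + s ^ 6 / 24 ≤ (a3 * τm ^ 2 / 12 + a3 * τm ^ 4 / 24) * (s ^ 2 * (1 + κ ^ 2)) := by
      linarith
    have h4 : 0 ≤ s ^ 4 / 12 + s ^ 6 / 24 := by positivity
    have h5 : 1 + κ * s ≤ 1 + a4 * τm := by linarith
    have h6 : 0 ≤ 1 + κ * s := by positivity
    calc (1 + κ * s) * (s ^ 4 / 12 + s ^ 6 / 24) ≤
        (1 + a4 * τm) * ((a3 * τm ^ 2 / 12 + a3 * τm ^ 4 / 24) * (s ^ 2 * (1 + κ ^ 2))) :=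
          mul_le_mul h5 h3 h4 (by linarith)
      _ = _ := by ring
  have h9 := mul_le_mul_of_nonneg_right hC hsA
  linarith

/-- `sD ≤ d (1+κ²)` at `0 ≤ τ ≤ τm`, `κ ≤ 1` -/
theorem D1_hi {κ t : ℝ} (h : DomR κ t) (d τm g q : ℝ) (h0 : 0 ≤ t + κ) (h1 : t + κ ≤ τm) (hk1 : κ ≤ 1)
    (hg : 2 * κ * (1 - κ ^ 2) ≤ g * (1 + κ ^ 2) ^ 2) (hq : 2 * κ ^ 4 ≤ q * (1 + κ ^ 2) ^ 3)
    (hd : 1 + g * τm + q * τm ^ 2 ≤ d) (hg0 : 0 ≤ g) (hq0 : 0 ≤ q) : sD κ t ≤ d * (1 + κ ^ 2) := by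
  have hk := h.1
  have hA : 0 < 1 + κ ^ 2 := by positivity
  obtain ⟨s, hs⟩ : ∃ s, s = (t + κ) / (1 + κ ^ 2) := ⟨_, rfl⟩
  have hτ : t + κ = s * (1 + κ ^ 2) := by rw [hs]; field_simp
  have hs0 : 0 ≤ s := by rw [hs]; positivity
  have h2 := DR_le h hs h0 hk1
  have h3 := mul_le_mul_of_nonneg_right hg hs0
  have h4 := mul_le_mul_of_nonneg_right hq (sq_nonneg s)
  have h5 := mul_le_mul_of_nonneg_left h1 hg0
  have h6 : (t + κ) ^ 2 ≤ τm ^ 2 := pow_le_pow_left₀ h0 h1 2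
  have h7 := mul_le_mul_of_nonneg_left h6 hq0
  have h8 := mul_le_mul_of_nonneg_right hd hA.le
  have h5' := mul_le_mul_of_nonneg_right h5 hA.le
  have h7' := mul_le_mul_of_nonneg_right h7 hA.le
  rw [hτ] at h5' h7'
  unfold sD
  nlinarith

/-- `κ ≥ 1` -/
theorem D1_hi' {κ t : ℝ} (h : DomR κ t) (d τm q : ℝ) (h0 : 0 ≤ t + κ) (h1 : t + κ ≤ τm) (hk1 : 1 ≤ κ)
    (hk3 : κ ^ 2 ≤ 3) (hq : 2 * κ ^ 4 ≤ q * (1 + κ ^ 2) ^ 3)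
    (hd : 1 + q * τm ^ 2 ≤ d) (hq0 : 0 ≤ q) : sD κ t ≤ d * (1 + κ ^ 2) := by
  have hk := h.1
  have hA : 0 < 1 + κ ^ 2 := by positivity
  obtain ⟨s, hs⟩ : ∃ s, s = (t + κ) / (1 + κ ^ 2) := ⟨_, rfl⟩
  have hτ : t + κ = s * (1 + κ ^ 2) := by rw [hs]; field_simp
  have hs0 : 0 ≤ s := by rw [hs]; positivity
  have h2 := DR_le' h hs h0 hk1 hk3
  have h4 := mul_le_mul_of_nonneg_right hq (sq_nonneg s)
  have h6 : (t + κ) ^ 2 ≤ τm ^ 2 := pow_le_pow_left₀ h0 h1 2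
  have h7 := mul_le_mul_of_nonneg_left h6 hq0
  have h8 := mul_le_mul_of_nonneg_right hd hA.le
  have h7' := mul_le_mul_of_nonneg_right h7 hA.le
  rw [hτ] at h7'
  unfold sD
  nlinarith

/-- `sD ≥ 1 + κ²` at `τ ≥ 0`, `κ ≤ 1` -/
theorem D1_lo {κ t : ℝ} (h : DomR κ t) (h0 : 0 ≤ t + κ) (hk1 : κ ≤ 1) : 1 * (1 + κ ^ 2) ≤ sD κ t := by
  rw [one_mul]
  exact DR_ge h h0 hk1

/-- `sD ≥ d (1 + κ²)` at `τ ≤ 0`, `κ ≤ 1`: `-P ≤ (1+κ²) sp`, `d = 1 - g P` -/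
theorem D0_lo {κ t : ℝ} (h : DomR κ t) (d P g : ℝ) (h0 : t + κ ≤ 0) (hk1 : κ ≤ 1)
    (hP : -P ≤ (1 + κ ^ 2) * sp κ t) (hg : 2 * κ * (1 - κ ^ 2) ≤ g * (1 + κ ^ 2) ^ 2)
    (hP0 : 0 ≤ P) (hd : d ≤ 1 - g * P) : d * (1 + κ ^ 2) ≤ sD κ t := by
  have hk := h.1
  have hA : 0 < 1 + κ ^ 2 := by positivity
  have h1 : -(P / (1 + κ ^ 2)) ≤ sp κ t := by
    rw [← neg_div, div_le_iff₀ hA]
    linarith
  have h2 := DL_ge h h0 hk1 h1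
  have h3 : 2 * (κ * (P / (1 + κ ^ 2))) * (1 - κ ^ 2) ≤ g * P * (1 + κ ^ 2) := by
    have e : 2 * (κ * (P / (1 + κ ^ 2))) * (1 - κ ^ 2) = (2 * κ * (1 - κ ^ 2)) * P / (1 + κ ^ 2) := by ring
    rw [e, div_le_iff₀ hA]
    have := mul_le_mul_of_nonneg_right hg hP0
    linarith
  have h4 := mul_le_mul_of_nonneg_right hd hA.le
  unfold sD
  linarith

theorem D0_lo' {κ t : ℝ} (h : DomR κ t) (h0 : t + κ ≤ 0) (hk1 : 1 ≤ κ) : 1 * (1 + κ ^ 2) ≤ sD κ t := by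
  rw [one_mul]
  exact DL_ge' h h0 hk1

/-- `sD ≤ d (1+κ²)` at `τ ≤ 0` from `-Y ≤ sy` -/
theorem D0_hi {κ t : ℝ} (h : DomR κ t) (d Y E : ℝ) (h0 : t + κ ≤ 0) (hY : -Y ≤ sy κ t)
    (hE : exp (2 * Y) ≤ E) (hd1 : 1 ≤ d) (hd : κ ^ 2 * E + 1 - 2 * Y ≤ d * (1 + κ ^ 2)) :
    sD κ t ≤ d * (1 + κ ^ 2) := by
  have hk := h.1
  have h1 := DL_le h (sy_nonpos h h0) hY
  unfold sD
  refine h1.trans (max_le ?_ ?_)
  · nlinarith [sq_nonneg κ]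
  · have := mul_le_mul_of_nonneg_left hE (sq_nonneg κ)
    linarith

/-- `sD ≥ 2 + 2 log κ` -/
theorem D_lo_log {κ t : ℝ} (h : DomR κ t) (d L : ℝ) (hL : L ≤ log κ) (hd : d * (1 + κ ^ 2) ≤ 2 + 2 * L) :
    d * (1 + κ ^ 2) ≤ sD κ t := by
  have h1 := D_ge_log h
  unfold sD
  linarith

end Sok
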