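import Pool.Agent.Lib.MP_816dec_an.Far3
import Pool.Agent.Lib.MP_816dec_an.R1Exp2

/-!
MP_816dec_an (A3, row R1, b = 4): upper bounds with an explicit height `v`, and comparison with a lower bound.
-/

set_option autoImplicit false

open Complex Set Filter Topology

namespace Sok.B4

/-- the copy at the angle `t` -/
noncomputable def Pb (β r t : ℝ) : ℂ := F (cexp (I * β)) (r * cexp (I * ((t + β / 2 : ℝ) : ℂ)))

theorem exists_w {κ v : ℝ} (hκ : 0 < κ) (h : |v * Real.exp v| < κ) :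
    ∃ w : ℝ, -(Real.pi / 2) < w ∧ w < Real.pi / 2 ∧ κ * Real.sin w = v * Real.exp v := by
  have h1 : |v * Real.exp v / κ| < 1 := by rw [abs_div, abs_of_pos hκ, div_lt_one hκ]; exact h
  rw [abs_lt] at h1
  refine ⟨Real.arcsin (v * Real.exp v / κ), Real.neg_pi_div_two_lt_arcsin.2 h1.1,
    Real.arcsin_lt_pi_div_two.2 h1.2, ?_⟩
  rw [Real.sin_arcsin h1.1.le h1.2.le]
  field_simp

/-- the exponent of the bump -/
theorem bump_exp {κ τ v w a0 a1 a2 a3 : ℝ} (hκ : 0 < κ) (hw1 : -(Real.pi / 2) < w) (hw2 : w < Real.pi / 2)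
    (hvw : κ * Real.sin w = v * Real.exp v)
    (ha0 : Real.exp (-v) + v ≤ a0) (ha1 : v ^ 2 * Real.exp v / 2 ≤ a1)
    (ha2 : v ^ 4 * Real.exp v ^ 3 / 24 ≤ a2) (ha3 : v ^ 6 * Real.exp v ^ 5 / 24 ≤ a3) :
    Real.exp (-v) * Real.cos w + v * (w - (τ - κ)) / κ ≤
      a0 + a1 * (1 / κ) ^ 2 + a2 * (1 / κ) ^ 4 + a3 * (1 / κ) ^ 6 - v * τ * (1 / κ) := by
  obtain ⟨q, hq⟩ : ∃ q, q = Real.sin w := ⟨_, rfl⟩
  obtain ⟨e, he⟩ : ∃ e, e = Real.exp v := ⟨_, rfl⟩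
  have he0 : 0 < e := by rw [he]; exact Real.exp_pos v
  have hne : Real.exp (-v) = 1 / e := by rw [he, Real.exp_neg, one_div]
  rw [← he] at hvw ha1 ha2 ha3
  rw [← hq] at hvw
  rw [hne] at ha0 ⊢
  have hcos : Real.cos w + q * w ≤ 1 + q ^ 2 / 2 + q ^ 4 / 24 + q ^ 6 / 24 := by
    rcases le_total 0 q with h0 | h0
    · exact r1_cosq6 (abs_le.2 ⟨hw1.le, hw2.le⟩) h0
    · have h1 := r1_cosq6 (a := -w) (q := -q) (abs_le.2 ⟨by linarith, by linarith⟩) (by linarith)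
      rw [Real.cos_neg] at h1
      nlinarith
  have hv : v / κ = q / e := by
    rw [div_eq_div_iff hκ.ne' he0.ne']
    linarith
  have e1 : v * (w - (τ - κ)) / κ = q * w / e + v - v * τ * (1 / κ) := by
    have : v * (w - (τ - κ)) / κ = v / κ * w + v - v * τ * (1 / κ) := by field_simp; ring
    rw [this, hv]
    ring
  have hqe : q = v * e / κ := by rw [eq_div_iff hκ.ne']; linarith
  have e2 : 1 / e * (1 + q ^ 2 / 2 + q ^ 4 / 24 + q ^ 6 / 24) =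
      1 / e + (v ^ 2 * e / 2) * (1 / κ) ^ 2 + (v ^ 4 * e ^ 3 / 24) * (1 / κ) ^ 4 +
        (v ^ 6 * e ^ 5 / 24) * (1 / κ) ^ 6 := by
    rw [hqe]
    field_simp
  have h3 := mul_le_mul_of_nonneg_left hcos (by positivity : 0 ≤ 1 / e)
  rw [e2] at h3
  have hu : 0 < 1 / κ := by positivity
  have h4 := mul_le_mul_of_nonneg_right ha1 (pow_nonneg hu.le 2)
  have h5 := mul_le_mul_of_nonneg_right ha2 (pow_nonneg hu.le 4)
  have h6 := mul_le_mul_of_nonneg_right ha3 (pow_nonneg hu.le 6)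
  rw [e1]
  have e3 : 1 / e * (Real.cos w + q * w) = 1 / e * Real.cos w + q * w / e := by ring
  linarith

/-- the factor of the bump -/
theorem bump_pref {κ v w k1 B e c : ℝ} (hk1 : 0 < k1) (hκ : k1 ≤ κ) (hw1 : -(Real.pi / 2) < w)
    (hw2 : w < Real.pi / 2) (hvw : κ * Real.sin w = v * Real.exp v) (hB : 0 < B) (_he0 : 0 < e)
    (he : e ≤ Real.exp (-v)) (hc0 : 0 ≤ c) (hc : c ^ 2 + (v * Real.exp v) ^ 2 ≤ k1 ^ 2)
    (hnum : 3 ≤ 2 * B ^ 2 * (e * c)) :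
    Real.sqrt (3 / (2 * κ * (Real.exp (-v) * Real.cos w))) ≤ B := by
  have hcw : 0 < Real.cos w := Real.cos_pos_of_mem_Ioo ⟨hw1, hw2⟩
  have hκ0 : 0 < κ := by linarith
  have h1 : c ≤ κ * Real.cos w := by
    apply le_of_sq_le_sq' hc0 (by positivity)
    have h2 : (κ * Real.cos w) ^ 2 = κ ^ 2 - (κ * Real.sin w) ^ 2 := by
      have := Real.sin_sq_add_cos_sq w
      linear_combination κ ^ 2 * this
    rw [h2, hvw]
    nlinarith
  rw [Real.sqrt_le_left hB.le, div_le_iff₀ (by positivity)]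
  have h3 : e * c ≤ Real.exp (-v) * (κ * Real.cos w) := mul_le_mul he h1 hc0 (Real.exp_pos _).le
  have h4 := mul_le_mul_of_nonneg_left h3 (by positivity : 0 ≤ 2 * B ^ 2)
  linarith
where
  le_of_sq_le_sq' {a b : ℝ} (_ha : 0 ≤ a) (hb : 0 ≤ b) (h : a ^ 2 ≤ b ^ 2) : a ≤ b := by
    exact abs_le_of_sq_le_sq' h hb |>.2

theorem hump_le {β r t z : ℝ} (hβ : 0 < β)
    (hz1 : z * β ≤ 3 * Real.pi / 2 - t) (hz2 : z * β ≤ 3 * Real.pi / 2 - t - (Real.exp 1 * (β * r) - 1)) :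
    HUMP β r t ≤ (1 + β) * Real.exp (-z) := by
  unfold HUMP
  apply mul_le_mul_of_nonneg_left _ (by linarith)
  apply Real.exp_le_exp.2
  rw [neg_le_neg_iff, le_div_iff₀ hβ]
  rcases le_total 0 (Real.exp 1 * (β * r) - 1) with h | h
  · rw [max_eq_right h]; exact hz2
  · rw [max_eq_left h]; linarith

end Sok.B4
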