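import Pool.Agent.Lib.MP_816dec_an.Far3
import Pool.Agent.Lib.MP_816dec_an.R1Exp2
import Pool.Agent.Lib.MP_816dec_an.R1B4Ub

/-!
MP_816dec_an (A3, row R1, b = 4): upper bounds with an explicit height `v`, and comparison with a lower bound.
-/

set_option autoImplicit false

open Complex Set Filter Topology

namespace Sok.B4

/-- upper bound on the left, height `-ν` -/
theorem ub_neg {β r κ t ν k1 B e c q1 a0 a1 a2 a3 : ℝ} (hβ : 0 < β) (hr : 10 ≤ r) (hκ : κ = β * r)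
    (hk1 : 0 < k1) (hκ1 : k1 ≤ κ) (hκ2 : κ ≤ 1.39) (hν : 0 < ν) (hν1 : ν < 1)
    (ht : -(3 * Real.pi / 2) < t) (ht' : t ≤ -0.75 - κ) (hν7 : 7 * κ ≤ 10 * (ν * (2.32 + κ)))
    (hB : 0 < B) (he0 : 0 < e) (he : e ≤ Real.exp (-(-ν))) (hc0 : 0 ≤ c)
    (hc : c ^ 2 + (-ν * Real.exp (-ν)) ^ 2 ≤ k1 ^ 2) (hνk : ν * Real.exp (-ν) < k1)
    (hnum : 3 ≤ 2 * B ^ 2 * (e * c))
    (ha0 : Real.exp (-(-ν)) + -ν ≤ a0) (ha1 : (-ν) ^ 2 * Real.exp (-ν) / 2 ≤ a1)
    (ha2 : (-ν) ^ 4 * Real.exp (-ν) ^ 3 / 24 ≤ a2) (ha3 : (-ν) ^ 6 * Real.exp (-ν) ^ 5 / 24 ≤ a3)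
    (hq1 : β ≤ q1 * (3 * Real.pi / 2 + t)) :
    ‖Pb β r t‖ ≤ B * Real.exp (r * (a0 + a1 * (1 / κ) ^ 2 + a2 * (1 / κ) ^ 4 + a3 * (1 / κ) ^ 6 +
        ν * (t + κ) * (1 / κ))) +
      C0 β * ((q1 + ν + 0.318) + ν * Real.exp (r * (ν * (Real.pi / 2 + t) * (1 / κ)))) := by
  have hpi := Real.pi_gt_d6
  have hpi2 := Real.pi_lt_d6
  have hr0 : 0 < r := by linarith
  have hκ0 : 0 < κ := by linarith
  have hβκ : β * 10 ≤ κ := by rw [hκ]; exact mul_le_mul_of_nonneg_left hr hβ.le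
  have he1 := Real.exp_one_lt_d9
  obtain ⟨w, hw1, hw2, hw3⟩ := exists_w (v := -ν) hκ0 (by
    rw [abs_mul, abs_neg, abs_of_pos hν, abs_of_pos (Real.exp_pos _)]
    linarith)
  have h1 := far_HU hβ hr0 ht (by linarith : t ≤ Real.pi / 2) (v := -ν) (w := w) (by linarith) hw1 hw2
    (by rw [← hκ]; exact hw3)
  rw [← hκ] at h1
  have hP : ‖Pb β r t‖ = ‖F (cexp (I * β)) (r * cexp (I * ((t + β / 2 : ℝ) : ℂ)))‖ := rfl
  rw [← hP] at h1
  have b1 := bump_pref hk1 hκ1 hw1 hw2 hw3 hB he0 he hc0 hc hnum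
  have b2 := bump_exp (τ := t + κ) hκ0 hw1 hw2 hw3 ha0 ha1 ha2 ha3
  have e0 : t + κ - κ = t := by ring
  rw [e0] at b2
  have b3 : Real.exp (r * (Real.exp (-(-ν)) * Real.cos w + -ν * (w - t) / κ)) ≤
      Real.exp (r * (a0 + a1 * (1 / κ) ^ 2 + a2 * (1 / κ) ^ 4 + a3 * (1 / κ) ^ 6 +
        ν * (t + κ) * (1 / κ))) := by
    apply Real.exp_le_exp.2
    apply mul_le_mul_of_nonneg_left _ hr0.le
    linarith
  have b4 := mul_le_mul b1 b3 (Real.exp_pos _).le hB.le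
  have hC := C0_pos hβ
  -- the rest
  have c1 : β / (3 * Real.pi / 2 + t) ≤ q1 := by
    rw [div_le_iff₀ (by linarith)]; exact hq1
  have c2 : Real.pi / r ≤ 0.3142 := by
    rw [div_le_iff₀ hr0]; linarith
  have hinv : ∀ x : ℝ, x / β = r * (x * (1 / κ)) := by
    intro x
    rw [hκ]
    field_simp
  have c3 : |(-ν)| * max 1 (Real.exp (-(-ν * (Real.pi / 2 + t) / β))) ≤
      ν + ν * Real.exp (r * (ν * (Real.pi / 2 + t) * (1 / κ))) := by
    rw [abs_neg, abs_of_pos hν]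
    have e1 : -(-ν * (Real.pi / 2 + t) / β) = r * (ν * (Real.pi / 2 + t) * (1 / κ)) := by
      rw [hinv]; ring
    rw [e1]
    have h2 : max 1 (Real.exp (r * (ν * (Real.pi / 2 + t) * (1 / κ)))) ≤
        1 + Real.exp (r * (ν * (Real.pi / 2 + t) * (1 / κ))) :=
      max_le (by linarith [Real.exp_pos (r * (ν * (Real.pi / 2 + t) * (1 / κ)))]) (by linarith)
    nlinarith
  have he7 : Real.exp (-7) ≤ 0.00092 := by
    have := exp_neg_le_num (x := -7) (z := 0) (E := 0.00092) 7 (by norm_num) le_rfl (by norm_num) (by norm_num)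
    exact this
  have hπt : 2.32 + κ ≤ Real.pi / 2 - t := by linarith
  have c4 : (1 + -ν) * Real.exp (-ν * (Real.pi / 2 - t) / β) ≤ 0.00092 := by
    have h2 : -ν * (Real.pi / 2 - t) / β ≤ -7 := by
      rw [div_le_iff₀ hβ]
      nlinarith [mul_le_mul_of_nonneg_left hπt hν.le]
    have h3 := (Real.exp_le_exp.2 h2).trans he7
    nlinarith [Real.exp_pos (-ν * (Real.pi / 2 - t) / β)]
  have c5 : β * Real.exp (-((Real.pi / 2 - t) / β)) ≤ 0.00092 := by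
    have h2 : -((Real.pi / 2 - t) / β) ≤ -7 := by
      rw [neg_le_neg_iff, le_div_iff₀ hβ]
      linarith
    have h3 := (Real.exp_le_exp.2 h2).trans he7
    have : β ≤ 1 := by linarith
    nlinarith [Real.exp_pos (-((Real.pi / 2 - t) / β))]
  have c6 : HUMP β r t ≤ 0.0011 := by
    have h2 := hump_le (β := β) (r := r) (t := t) (z := 7) hβ (by linarith) (by rw [← hκ]; nlinarith)
    have : β ≤ 0.139 := by linarith
    nlinarith [Real.exp_pos (-7 : ℝ)]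
  have c7 : β / (3 * Real.pi / 2 + t) + Real.pi / r +
        |(-ν)| * max 1 (Real.exp (-(-ν * (Real.pi / 2 + t) / β))) +
        (1 + -ν) * Real.exp (-ν * (Real.pi / 2 - t) / β) +
        β * Real.exp (-((Real.pi / 2 - t) / β)) + HUMP β r t ≤
      (q1 + ν + 0.318) + ν * Real.exp (r * (ν * (Real.pi / 2 + t) * (1 / κ))) := by linarith
  have c8 := mul_le_mul_of_nonneg_left c7 hC.le
  linarith

end Sok.B4
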