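import Pool.Agent.Lib.MP_816dec_an.Far3
import Pool.Agent.Lib.MP_816dec_an.R1Exp2
import Pool.Agent.Lib.MP_816dec_an.R1B4Ub

/-!
MP_816dec_an (A3, row R1, b = 4): upper bounds with an explicit height `v`, and comparison with a lower bound.
-/

set_option autoImplicit false

open Complex Set Filter Topology

namespace Sok.B4

/-- `-π/2 ≤ t ≤ π/2`, height `v` -/
theorem ub_HU {β r κ t v k1 k2 B e c q1 hm z a0 a1 a2 a3 : ℝ} (hβ : 0 < β) (hr : 10 ≤ r) (hκ : κ = β * r)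
    (hk1 : 0 < k1) (hκ1 : k1 ≤ κ) (hκ2 : κ ≤ k2) (hv : 0 < v)
    (ht : -(Real.pi / 2) ≤ t) (ht' : t ≤ Real.pi / 2)
    (hB : 0 < B) (he0 : 0 < e) (he : e ≤ Real.exp (-v)) (hc0 : 0 ≤ c)
    (hc : c ^ 2 + (v * Real.exp v) ^ 2 ≤ k1 ^ 2) (hvk : v * Real.exp v < k1)
    (hnum : 3 ≤ 2 * B ^ 2 * (e * c))
    (ha0 : Real.exp (-v) + v ≤ a0) (ha1 : v ^ 2 * Real.exp v / 2 ≤ a1)
    (ha2 : v ^ 4 * Real.exp v ^ 3 / 24 ≤ a2) (ha3 : v ^ 6 * Real.exp v ^ 5 / 24 ≤ a3)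
    (hq1 : β ≤ q1 * (3 * Real.pi / 2 + t))
    (hz0 : z * (k2 / 10) ≤ 3.14159) (hz : z * (k2 / 10) ≤ 4.14159 - 2.7182818286 * k2) (hzz : 0 ≤ z)
    (hm1 : (1 + k2 / 10) * Real.exp (-z) ≤ hm) :
    ‖Pb β r t‖ ≤ B * Real.exp (r * (a0 + a1 * (1 / κ) ^ 2 + a2 * (1 / κ) ^ 4 + a3 * (1 / κ) ^ 6 -
        v * (t + κ) * (1 / κ))) +
      C0 β * ((q1 + 0.3142 + v + k2 / 10 + hm) + (1 + v) * Real.exp (r * (v * (Real.pi / 2 - t) * (1 / κ)))) := by
  have hpi := Real.pi_gt_d6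
  have hpi2 := Real.pi_lt_d6
  have hr0 : 0 < r := by linarith
  have hκ0 : 0 < κ := by linarith
  have hβκ : β * 10 ≤ κ := by rw [hκ]; exact mul_le_mul_of_nonneg_left hr hβ.le
  have he1 := Real.exp_one_lt_d9
  obtain ⟨w, hw1, hw2, hw3⟩ := exists_w (v := v) hκ0 (by
    rw [abs_mul, abs_of_pos hv, abs_of_pos (Real.exp_pos _)]
    linarith)
  have h1 := far_HU hβ hr0 (by linarith : -(3 * Real.pi / 2) < t) ht' (v := v) (w := w) (by linarith) hw1 hw2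
    (by rw [← hκ]; exact hw3)
  rw [← hκ] at h1
  have hP : ‖Pb β r t‖ = ‖F (cexp (I * β)) (r * cexp (I * ((t + β / 2 : ℝ) : ℂ)))‖ := rfl
  rw [← hP] at h1
  have b1 := bump_pref hk1 hκ1 hw1 hw2 hw3 hB he0 he hc0 hc hnum
  have b2 := bump_exp (τ := t + κ) hκ0 hw1 hw2 hw3 ha0 ha1 ha2 ha3
  have e0 : t + κ - κ = t := by ring
  rw [e0] at b2
  have b3 : Real.exp (r * (Real.exp (-v) * Real.cos w + v * (w - t) / κ)) ≤
      Real.exp (r * (a0 + a1 * (1 / κ) ^ 2 + a2 * (1 / κ) ^ 4 + a3 * (1 / κ) ^ 6 -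
        v * (t + κ) * (1 / κ))) := by
    apply Real.exp_le_exp.2
    exact mul_le_mul_of_nonneg_left b2 hr0.le
  have b4 := mul_le_mul b1 b3 (Real.exp_pos _).le hB.le
  have hC := C0_pos hβ
  have hinv : ∀ x : ℝ, x / β = r * (x * (1 / κ)) := by
    intro x
    rw [hκ]
    field_simp
  have c1 : β / (3 * Real.pi / 2 + t) ≤ q1 := by rw [div_le_iff₀ (by linarith)]; exact hq1
  have c2 : Real.pi / r ≤ 0.3142 := by
    rw [div_le_iff₀ hr0]; linarith
  have c3 : |v| * max 1 (Real.exp (-(v * (Real.pi / 2 + t) / β))) ≤ v := by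
    rw [abs_of_pos hv]
    have h2 : max 1 (Real.exp (-(v * (Real.pi / 2 + t) / β))) ≤ 1 := by
      apply max_le le_rfl
      rw [Real.exp_le_one_iff]
      have : 0 ≤ v * (Real.pi / 2 + t) / β := div_nonneg (mul_nonneg hv.le (by linarith)) hβ.le
      linarith
    nlinarith
  have c4 : (1 + v) * Real.exp (v * (Real.pi / 2 - t) / β) =
      (1 + v) * Real.exp (r * (v * (Real.pi / 2 - t) * (1 / κ))) := by rw [hinv]
  have c5 : β * Real.exp (-((Real.pi / 2 - t) / β)) ≤ k2 / 10 := by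
    have h3 : Real.exp (-((Real.pi / 2 - t) / β)) ≤ 1 := by
      rw [Real.exp_le_one_iff]
      have : 0 ≤ (Real.pi / 2 - t) / β := div_nonneg (by linarith) hβ.le
      linarith
    nlinarith
  have c6 : HUMP β r t ≤ hm := by
    have hzb : z * β ≤ z * (k2 / 10) := mul_le_mul_of_nonneg_left (by linarith) hzz
    have h2 := hump_le (β := β) (r := r) (t := t) (z := z) hβ (by linarith) (by
      rw [← hκ]
      have : Real.exp 1 * κ ≤ 2.7182818286 * k2 := mul_le_mul he1.le hκ2 hκ0.le (by norm_num)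
      linarith)
    refine h2.trans (le_trans ?_ hm1)
    exact mul_le_mul_of_nonneg_right (by linarith) (Real.exp_pos _).le
  have c7 := mul_le_mul_of_nonneg_left (by linarith : β / (3 * Real.pi / 2 + t) + Real.pi / r +
        |v| * max 1 (Real.exp (-(v * (Real.pi / 2 + t) / β))) +
        (1 + v) * Real.exp (v * (Real.pi / 2 - t) / β) +
        β * Real.exp (-((Real.pi / 2 - t) / β)) + HUMP β r t ≤
      (q1 + 0.3142 + v + k2 / 10 + hm) + (1 + v) * Real.exp (r * (v * (Real.pi / 2 - t) * (1 / κ)))) hC.le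
  linarith

end Sok.B4
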