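import Pool.Agent.Lib.MP_816dec_an.Far3
import Pool.Agent.Lib.MP_816dec_an.R1Exp2
import Pool.Agent.Lib.MP_816dec_an.R1B4Ub

/-!
MP_816dec_an (A3, row R1, b = 4): upper bounds with an explicit height `v`, and comparison with a lower bound.
-/

set_option autoImplicit false

open Complex Set Filter Topology

namespace Sok.B4

/-- left half plane -/
theorem ub_UD {β r κ t k2 : ℝ} (hβ : 0 < β) (hr : 10 ≤ r) (hκ : κ = β * r) (hκ2 : κ ≤ k2) (hk2 : k2 ≤ 1.39)
    (ht : Real.pi / 2 ≤ t) (ht' : t ≤ 3.2202 - κ) :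
    ‖Pb β r t‖ ≤ C0 β * ((2.3142 + 2 * (k2 / 10)) + (k2 + 0.1) * Real.exp (r * 0.1)) := by
  have hpi := Real.pi_gt_d6
  have hpi2 := Real.pi_lt_d6
  have hr0 : 0 < r := by linarith
  have hκ0 : 0 < κ := by rw [hκ]; positivity
  have hβκ : β * 10 ≤ κ := by rw [hκ]; exact mul_le_mul_of_nonneg_left hr hβ.le
  have he1 := Real.exp_one_lt_d9
  have h1 := far_UD (t := t) hβ hr0 (δ := 0.1) (L := 1) (by norm_num) (by linarith) (by linarith) (by linarith)
    (Or.inl le_rfl)
  have hP : ‖Pb β r t‖ = ‖F (cexp (I * β)) (r * cexp (I * ((t + β / 2 : ℝ) : ℂ)))‖ := rfl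
  rw [← hP] at h1
  have hC := C0_pos hβ
  have c1 : β / (t - Real.pi / 2 + 0.1) ≤ k2 := by
    rw [div_le_iff₀ (by linarith)]
    nlinarith
  have c2 : (if t ≤ Real.pi then Real.pi / (2 * r) else Real.pi / r) ≤ 0.3142 := by
    have h2 : Real.pi / r ≤ 0.3142 := by rw [div_le_iff₀ hr0]; linarith
    have h3 : Real.pi / (2 * r) ≤ 0.3142 := by rw [div_le_iff₀ (by linarith)]; linarith
    split_ifs
    · exact h3
    · exact h2
  have c3 : Real.exp (r * Real.sin 0.1) ≤ Real.exp (r * 0.1) := by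
    apply Real.exp_le_exp.2
    exact mul_le_mul_of_nonneg_left (Real.sin_le (by norm_num)) hr0.le
  have c4 : (β / (t - Real.pi / 2 + 0.1) + 0.1) * Real.exp (r * Real.sin 0.1) ≤
      (k2 + 0.1) * Real.exp (r * 0.1) :=
    mul_le_mul (by linarith) c3 (Real.exp_pos _).le (by linarith)
  have c6 : HUMP β r t ≤ 1 + k2 / 10 := by
    have h2 := hump_le (β := β) (r := r) (t := t) (z := 0) hβ (by linarith) (by
      rw [← hκ]
      nlinarith)
    rw [neg_zero, Real.exp_zero, mul_one] at h2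
    linarith
  have c7 := mul_le_mul_of_nonneg_left (by linarith : (β / (t - Real.pi / 2 + 0.1) + 0.1) *
      Real.exp (r * Real.sin 0.1) + (if t ≤ Real.pi then Real.pi / (2 * r) else Real.pi / r) + 1 + β +
      HUMP β r t ≤ (2.3142 + 2 * (k2 / 10)) + (k2 + 0.1) * Real.exp (r * 0.1)) hC.le
  linarith

end Sok.B4
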