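import Pool.Agent.Lib.MP_816dec_an.Far3
import Pool.Agent.Lib.MP_816dec_an.R1Exp2
import Pool.Agent.Lib.MP_816dec_an.R1B4Ub

/-!
MP_816dec_an (A3, row R1, b = 4): upper bounds with an explicit height `v`, and comparison with a lower bound.
-/

set_option autoImplicit false

open Complex Set Filter Topology

namespace Sok.B4

/-- comparison with a lower bound -/
theorem ratio_main {β r κ k1 X Y B E R0 R1 W ℓ V g w v eg ew ev S ρ : ℝ} (hβ : 0 < β) (hr : 10 ≤ r)
    (hκ : κ = β * r) (hk1 : 0 < k1) (hκ1 : k1 ≤ κ)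
    (hX : X ≤ B * Real.exp (r * E) + C0 β * (R0 + R1 * Real.exp (r * W)))
    (hY : ℓ * Real.exp (r * V) ≤ Y) (hB : 0 ≤ B) (hR0 : 0 ≤ R0) (hR1 : 0 ≤ R1) (hρ0 : 0 ≤ ρ)
    (hg : g ≤ V - E) (hw : w ≤ V - W) (hv : v ≤ V) (hg0 : 0 ≤ g) (hw0 : 0.05 ≤ w) (hv0 : 0.05 ≤ v)
    (heg : Real.exp (-(10 * g)) ≤ eg) (hew : Real.exp (-(10 * w)) ≤ ew) (hev : Real.exp (-(10 * v)) ≤ ev)
    (hS0 : 0 < S) (hS : 10 ≤ S ^ 2 * (6.28318 * k1))
    (hnum : B * eg + S * (R0 * ev + R1 * ew) ≤ ρ * ℓ) : X ≤ ρ * Y := by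
  have hpi := Real.pi_gt_d6
  have hr0 : 0 < r := by linarith
  have hκ0 : 0 < κ := by linarith
  have hev0 : 0 < ev := lt_of_lt_of_le (Real.exp_pos _) hev
  have hew0 : 0 < ew := lt_of_lt_of_le (Real.exp_pos _) hew
  -- the bump
  have h1 : Real.exp (r * E) ≤ eg * Real.exp (r * V) := by
    have h2 : Real.exp (r * E) ≤ Real.exp (-(10 * g) + r * V) := by
      apply Real.exp_le_exp.2
      nlinarith
    rw [Real.exp_add] at h2
    exact h2.trans (mul_le_mul_of_nonneg_right heg (Real.exp_pos _).le)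
  -- `C0 β ≤ S √(r/10)`, `√(r/10) ≤ exp ((r-10)/20)`
  have hC : C0 β ≤ S * Real.exp ((r - 10) * 0.05) := by
    have hD : 0 < S * Real.exp ((r - 10) * 0.05) := by positivity
    unfold C0
    rw [div_le_iff₀ (Real.sqrt_pos.2 (by positivity))]
    have h3 : 1 / (S * Real.exp ((r - 10) * 0.05)) ≤ Real.sqrt (2 * Real.pi * β) := by
      apply Real.le_sqrt_of_sq_le
      rw [div_pow, one_pow, div_le_iff₀ (by positivity), mul_pow, ← Real.exp_nat_mul]
      have h4 : r ≤ 10 * Real.exp (((2 : ℕ) : ℝ) * ((r - 10) * 0.05)) := by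
        have h5 := Real.add_one_le_exp (((2 : ℕ) : ℝ) * ((r - 10) * 0.05))
        push_cast at h5 ⊢
        nlinarith
      have h6 : k1 ≤ β * (10 * Real.exp (((2 : ℕ) : ℝ) * ((r - 10) * 0.05))) := by
        have := mul_le_mul_of_nonneg_left h4 hβ.le
        rw [← hκ] at this
        linarith
      obtain ⟨x, hx⟩ : ∃ x, x = Real.exp (((2 : ℕ) : ℝ) * ((r - 10) * 0.05)) := ⟨_, rfl⟩
      rw [← hx] at h6 ⊢
      have hx0 : 0 < x := by rw [hx]; exact Real.exp_pos _
      have h7 : S ^ 2 * (6.28318 * k1) ≤ S ^ 2 * (2 * Real.pi * (β * (10 * x))) := by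
        apply mul_le_mul_of_nonneg_left _ (by positivity)
        nlinarith
      nlinarith
    rw [div_le_iff₀ hD] at h3
    linarith
  have hkey : ∀ a ea x : ℝ, 0.05 ≤ a → x ≤ V - a → Real.exp (-(10 * a)) ≤ ea →
      Real.exp ((r - 10) * 0.05) * Real.exp (r * x) ≤ ea * Real.exp (r * V) := by
    intro a ea x ha hx hea
    have h2 : Real.exp ((r - 10) * 0.05) * Real.exp (r * x) ≤ Real.exp (-(10 * a)) * Real.exp (r * V) := by
      rw [← Real.exp_add, ← Real.exp_add]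
      apply Real.exp_le_exp.2
      have h3 : r * x ≤ r * (V - a) := mul_le_mul_of_nonneg_left hx hr0.le
      nlinarith
    exact h2.trans (mul_le_mul_of_nonneg_right hea (Real.exp_pos _).le)
  have k1' := hkey v ev 0 hv0 (by linarith) hev
  have k2' := hkey w ew W hw0 (by linarith) hew
  rw [mul_zero, Real.exp_zero, mul_one] at k1'
  obtain ⟨T, hT⟩ : ∃ T, T = Real.exp ((r - 10) * 0.05) := ⟨_, rfl⟩
  rw [← hT] at k1' k2' hC
  have hT0 : 0 < T := by rw [hT]; exact Real.exp_pos _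
  have h5 : C0 β * (R0 + R1 * Real.exp (r * W)) ≤ S * (R0 * ev + R1 * ew) * Real.exp (r * V) := by
    have h6 : C0 β * (R0 + R1 * Real.exp (r * W)) ≤ (S * T) * (R0 + R1 * Real.exp (r * W)) :=
      mul_le_mul_of_nonneg_right hC (by positivity)
    have h7 : (S * T) * (R0 + R1 * Real.exp (r * W)) = S * (R0 * T + R1 * (T * Real.exp (r * W))) := by ring
    rw [h7] at h6
    refine h6.trans ?_
    have h8 : R0 * T + R1 * (T * Real.exp (r * W)) ≤ (R0 * ev + R1 * ew) * Real.exp (r * V) := by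
      have := mul_le_mul_of_nonneg_left k1' hR0
      have := mul_le_mul_of_nonneg_left k2' hR1
      linarith
    calc S * (R0 * T + R1 * (T * Real.exp (r * W))) ≤ S * ((R0 * ev + R1 * ew) * Real.exp (r * V)) :=
          mul_le_mul_of_nonneg_left h8 hS0.le
      _ = _ := by ring
  have h9 := mul_le_mul_of_nonneg_left h1 hB
  have h10 := mul_le_mul_of_nonneg_right hnum (Real.exp_pos (r * V)).le
  have h11 := mul_le_mul_of_nonneg_left hY hρ0
  nlinarith

end Sok.B4
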