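import Pool.Agent.Lib.MP_816dec_an.Far3
import Pool.Agent.Lib.MP_816dec_an.R1Exp2
import Pool.Agent.Lib.MP_816dec_an.R1B4Ub
import Pool.Agent.Lib.MP_816dec_an.R1B4Up1
import Pool.Agent.Lib.MP_816dec_an.R1B4Up2
import Pool.Agent.Lib.MP_816dec_an.R1B4Up3
import Pool.Agent.Lib.MP_816dec_an.R1B4Up4
import Pool.Agent.Lib.MP_816dec_an.R1B4Up5

/-!
MP_816dec_an (A3, row R1, b = 4): upper bounds with an explicit height `v`, and comparison with a lower bound.
-/

set_option autoImplicit false

open Complex Set Filter Topology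

namespace Sok.B4

end Sok.B4
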