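import Pool.Agent.Lib.MP_816dec_an.R1B4T
import Pool.Agent.Lib.MP_816dec_an.R1B4Ja
import Pool.Agent.Lib.MP_816dec_an.R1B4Jb

/-!
MP_816dec_an (A3, row R1, b = 4): small lemmas for the assembly.
-/

set_option autoImplicit false

open Complex Set Filter Topology

namespace Sok.B4

theorem hR33' {β κ : ℝ} (hβ : 0 < β) (hR0 : β * 10 ≤ κ) (hk0 : 0 < κ) (hk : κ ≤ 1.39) :
    β * (3.3 * (1 + κ ^ 2)) ≤ κ := by
  have h1 : 3.3 * (1 + κ ^ 2) ≤ 10 := by nlinarith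
  exact (mul_le_mul_of_nonneg_left h1 hβ.le).trans hR0

theorem exp2 {y E e : ℝ} (h : Real.exp (-y) ≤ E) (he : E ^ 2 ≤ e) : Real.exp (-2 * y) ≤ e := by
  have e1 : Real.exp (-2 * y) = Real.exp (-y) ^ 2 := by
    rw [← Real.exp_nat_mul]
    congr 1
    push_cast
    ring
  rw [e1]
  exact (pow_le_pow_left₀ (Real.exp_pos _).le h 2).trans he

theorem syR_psi {κ t : ℝ} (h : DomR κ t) (ψ tm y1 : ℝ) (hψ : κ / (1 + κ ^ 2) ≤ ψ) (ht : 0 ≤ t + κ) (htm : t + κ ≤ tm)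
    (hk : κ ≤ 1.7) (hn : ψ * tm ≤ y1) : sy κ t ≤ y1 := by
  have h1 := spR_le h ht (by nlinarith [h.1])
  have hκ := h.1
  have hA : 0 < 1 + κ ^ 2 := by positivity
  rw [sy_eq_sp h]
  have h2 := mul_le_mul_of_nonneg_left h1 hκ.le
  have e : κ * ((t + κ) / (1 + κ ^ 2)) = κ / (1 + κ ^ 2) * (t + κ) := by ring
  rw [e] at h2
  have h3 : κ / (1 + κ ^ 2) * (t + κ) ≤ ψ * tm := mul_le_mul hψ htm ht ((div_nonneg hκ.le hA.le).trans hψ)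
  linarith

theorem V_weak {c C τ κ : ℝ} (h : c ≤ C) : 1 - C * τ ^ 2 / (1 + κ ^ 2) ≤ 1 - c * τ ^ 2 / (1 + κ ^ 2) := by
  have hA : 0 < 1 + κ ^ 2 := by positivity
  have h1 : c * τ ^ 2 / (1 + κ ^ 2) ≤ C * τ ^ 2 / (1 + κ ^ 2) :=
    div_le_div_of_nonneg_right (mul_le_mul_of_nonneg_right h (sq_nonneg τ)) hA.le
  linarith

theorem SL_mono {β r l0 l1 m l0' l1' m' t : ℝ} (hr : 0 ≤ r) (h : SL β r l0 l1 m t) (h0 : l0 ≤ l0') (h1 : l1 ≤ l1')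
    (hm : m' ≤ m) : SL β r l0' l1' m' t :=
  ⟨h.ne0, h.L0.trans (mul_le_mul_of_nonneg_left h0 hr), h.L1.trans (mul_le_mul_of_nonneg_left h1 hr),
    (mul_le_mul_of_nonneg_left hm hr).trans h.S⟩

end Sok.B4
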