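import Pool.Agent.Lib.MP_816dec_an.R1L

/-!
MP_816dec_an (A3, row R1), SINGLE CASES: interface of `valley_uniqueL` (no discs) in terms of `Xf`.
`Xf β r h t k` is the copy `k` at the angle `t + (k-1) h`, its derivative is `r e^{i ..} Xf β r h (t+β) k`.
-/

set_option autoImplicit false

open Complex Set Filter Topology Metric

namespace Sok

/-- exponent of `a` -/
def pv (k : ℤ) : ℕ := if 0 < k then k.natAbs - 1 else k.natAbs

/-- the dominant copy on the side of `k` -/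
def sd (k : ℤ) : ℤ := if 0 < k then 1 else 0

private theorem XX_eq_Xf {β R h : ℝ} {b : ℕ} (hb : 0 < b) (hh : h = 2 * Real.pi / b) (k : ℤ) {w : ℂ}
    (hw : Real.exp w.re = R) : XX β b k w = Xf β R h (tk β b 1 w) k := by
  rw [XX_eq_F, hw]
  unfold Xf
  have hb' : (b : ℝ) ≠ 0 := by positivity
  have e : tk β b k w + β / 2 = tk β b 1 w + ((k : ℝ) - 1) * h + β / 2 := by
    unfold tk
    rw [hh]
    push_cast
    field_simp
    ring
  rw [e]

private theorem deriv_XX_eq {β R h : ℝ} {b : ℕ} (hb : 0 < b) (hh : h = 2 * Real.pi / b) (k : ℤ) {w : ℂ}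
    (hw : Real.exp w.re = R) : deriv (XX β b k) w =
      R * cexp (I * ((tk β b 1 w + (k - 1) * h + β / 2 : ℝ) : ℂ)) * Xf β R h (tk β b 1 w + β) k := by
  have hb' : (b : ℝ) ≠ 0 := by positivity
  rw [(hasDerivAt_XX β b k w).deriv]
  have e1 : cexp (w + 2 * Real.pi * k / b * I) = R * cexp (I * ((tk β b 1 w + (k - 1) * h + β / 2 : ℝ) : ℂ)) := by
    have e : w + 2 * Real.pi * k / b * I = (w.re : ℂ) + I * ((tk β b 1 w + (k - 1) * h + β / 2 : ℝ) : ℂ) := by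
      have e2 : tk β b 1 w + ((k : ℝ) - 1) * h + β / 2 = w.im + 2 * Real.pi * k / b := by
        unfold tk
        rw [hh]
        push_cast
        field_simp
        ring
      rw [e2]
      conv_lhs => rw [← Complex.re_add_im w]
      push_cast
      ring
    rw [e, Complex.exp_add, ← Complex.ofReal_exp, hw]
  have e3 : GW β (w + 2 * Real.pi * k / b * I + β * I) = Xf β R h (tk β b 1 w + β) k := by
    have e4 : (w + 2 * Real.pi * k / b * I + β * I) = (w + β * I) + 2 * Real.pi * k / b * I := by ring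
    have e5 : GW β ((w + β * I) + 2 * Real.pi * k / b * I) = XX β b k (w + β * I) := rfl
    rw [e4, e5]
    have hre : (w + β * I).re = w.re := by simp
    have him : (w + β * I).im = w.im + β := by simp
    rw [XX_eq_Xf hb hh k (w := w + β * I) (R := R) (by rw [hre, hw])]
    congr 1
    unfold tk
    rw [him]
    ring
  rw [e1, e3]

private theorem ratio_pv {n0 n1 a : ℝ} (h0 : 0 < n0) (h1 : 0 < n1) (h01 : n1 ≤ a * n0) (h10 : n0 ≤ a * n1)
    (k : ℤ) : (if 0 < k then n1 else n0) * n0 ^ (k - 1) * n1 ^ (-k) ≤ a ^ pv k := by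
  rcases lt_or_ge 0 k with hk | hk
  · obtain ⟨n, hn⟩ : ∃ n : ℕ, k = n + 1 := ⟨(k - 1).toNat, by omega⟩
    have e0 : pv k = n := by
      unfold pv
      rw [if_pos hk, hn]
      omega
    rw [e0, if_pos hk, hn, add_sub_cancel_right, zpow_natCast, zpow_neg]
    have e1 : (n1 : ℝ) ^ ((n : ℤ) + 1) = n1 ^ (n + 1) := by
      rw [← zpow_natCast]; push_cast; rfl
    rw [e1, ← div_eq_mul_inv, div_le_iff₀ (by positivity)]
    calc n1 * n0 ^ n ≤ n1 * (a * n1) ^ n := mul_le_mul_of_nonneg_left (pow_le_pow_left₀ h0.le h10 n) h1.le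
      _ = a ^ n * n1 ^ (n + 1) := by rw [mul_pow]; ring
  · obtain ⟨n, hn⟩ : ∃ n : ℕ, k = -(n : ℤ) := ⟨(-k).toNat, by omega⟩
    have e0 : pv k = n := by
      unfold pv
      rw [if_neg (by omega), hn]
      omega
    rw [e0, if_neg (by omega), hn, neg_neg, zpow_natCast]
    have e1 : (n0 : ℝ) ^ (-(n : ℤ) - 1) = (n0 ^ (n + 1))⁻¹ := by
      rw [show -(n : ℤ) - 1 = -((n : ℤ) + 1) by ring, zpow_neg, ← zpow_natCast]
      push_cast
      rfl
    rw [e1]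
    have e2 : n0 * (n0 ^ (n + 1))⁻¹ * n1 ^ n = n1 ^ n * n0 / n0 ^ (n + 1) := by
      rw [div_eq_mul_inv]; ring
    rw [e2, div_le_iff₀ (by positivity)]
    calc n1 ^ n * n0 ≤ (a * n0) ^ n * n0 := mul_le_mul_of_nonneg_right (pow_le_pow_left₀ h1.le h01 n) h0.le
      _ = a ^ n * n0 ^ (n + 1) := by rw [mul_pow]; ring

/-- INTERFACE (no discs), sharper version of `circ_L`: `E k` bounds the copy `k` relative to the copy `1` (`k > 0`)
or `0` (`k < 0`), `W k` its derivative together with the logarithmic derivatives. -/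
theorem circ_LW {p : ℤ} {b : ℕ} (hb : 0 < b) (hp : IsCoprime (b : ℤ) p) {β r h κ : ℝ} (hr : 0 < r)
    (hh : h = 2 * Real.pi / b)
    {a0 : ℤ} (h0 : a0 ≤ 0) (h1 : 1 < a0 + b) {s0 slo shi a m η : ℝ} {E W : ℤ → ℝ} (huv : slo < shi)
    (ha : 1 < a) (hm : 0 < m) (hη : 1 < a * (1 - η))
    (hX0 : ∀ t, slo * h ≤ t + κ → t + κ ≤ shi * h → Xf β r h t 0 ≠ 0)
    (hE : ∀ t, slo * h ≤ t + κ → t + κ ≤ shi * h → ∀ k ∈ far a0 b,
      ‖Xf β r h t k‖ ≤ E k * ‖Xf β r h t (sd k)‖)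
    (hW : ∀ t, slo * h ≤ t + κ → t + κ ≤ shi * h → ∀ k ∈ far a0 b,
      r * ‖Xf β r h (t + β) k‖ + ‖Xf β r h t k‖ * ‖((k : ℂ) - 1) * Ld β r h t 0 - (k : ℂ) * Ld β r h t 1‖ ≤
        W k * ‖Xf β r h t (sd k)‖)
    (hS : ∀ t, slo * h ≤ t + κ → t + κ ≤ shi * h → m ≤ (Ld β r h t 1 - Ld β r h t 0).im)
    (hsum : ∑ k ∈ far a0 b, E k ≤ η)
    (hout : ∀ t, s0 * h ≤ t + κ → t + κ ≤ (s0 + 1) * h → (t + κ < slo * h ∨ shi * h < t + κ) →
      ∑ k ∈ far a0 b, ‖Xf β r h t k‖ < |‖Xf β r h t 1‖ - ‖Xf β r h t 0‖|)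
    (hE0 : ∀ k, 0 ≤ E k)
    (small1 : ∑ k ∈ far a0 b, (k.natAbs : ℝ) * (a ^ pv k * E k) * a ^ (k.natAbs + 1) < 1)
    (small2 : a * (∑ k ∈ far a0 b, (a ^ pv k * W k) * a ^ k.natAbs) <
      m * (1 - ∑ k ∈ far a0 b, (k.natAbs : ℝ) * (a ^ pv k * E k) * a ^ (k.natAbs + 1))) :
    Circ (2 * Real.pi * p / b + β) r := by
  obtain ⟨p', hp'⟩ : ∃ p' : ℤ, (b : ℤ) ∣ p * p' - 1 := by
    obtain ⟨x, y, hxy⟩ := hp
    exact ⟨y, -x, by linarith⟩
  have hF : ∀ w j, F (Complex.exp (((2 * Real.pi * p / b + β : ℝ) : ℂ) * I)) (pt p b w j) =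
      cc p b 0 * tot p p' b (XX β b) (far a0 b) w j := by
    intro w j
    rw [q_eq, F_valley hb hp' β w j a0, sum_far h0 h1]
    unfold tot
    rw [add_zero]
    rfl
  have hb' : (b : ℝ) ≠ 0 := by positivity
  have hhp : 0 < h := by rw [hh]; have := Real.pi_pos; positivity
  have ha0 : 0 < a := by linarith
  -- the coordinate `w.im`
  obtain ⟨c, hc⟩ : ∃ c : ℝ, c = h - β / 2 + κ := ⟨_, rfl⟩
  have htk : ∀ w : ℂ, tk β b 1 w + κ = w.im + c := by
    intro w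
    unfold tk
    rw [hc, hh]
    push_cast
    ring
  have hwr : ∀ {u v : ℝ} {w : ℂ}, w ∈ vseg (Real.log r) u v → Real.exp w.re = r := by
    intro u v w hw
    rw [hw.1, Real.exp_log hr]
  -- window membership
  have hwin : ∀ w ∈ vseg (Real.log r) (slo * h - c) (shi * h - c),
      slo * h ≤ tk β b 1 w + κ ∧ tk β b 1 w + κ ≤ shi * h := by
    intro w hw
    rw [htk]
    exact ⟨by linarith [hw.2.1], by linarith [hw.2.2]⟩
  have hsd : ∀ (w : ℂ) (k : ℤ), ‖XX β b (sd k) w‖ = if 0 < k then ‖XX β b 1 w‖ else ‖XX β b 0 w‖ := by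
    intro w k
    unfold sd
    split_ifs <;> rfl
  have hann : ∀ w, XX β b 0 w ≠ 0 → Ann (XX β b) a w → 0 < ‖XX β b 1 w‖ ∧ ‖XX β b 1 w‖ ≤ a * ‖XX β b 0 w‖ ∧
      ‖XX β b 0 w‖ ≤ a * ‖XX β b 1 w‖ := by
    intro w hw0 hA
    have hn0 : 0 < ‖XX β b 0 w‖ := norm_pos_iff.2 hw0
    obtain ⟨h2, h3⟩ := hA
    rw [norm_div] at h2 h3
    rw [div_le_iff₀ hn0] at h3
    rw [le_div_iff₀ hn0, inv_mul_le_iff₀ ha0] at h2
    refine ⟨?_, h3, h2⟩
    by_contra hcon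
    push Not at hcon
    nlinarith [norm_nonneg (XX β b 1 w)]
  have hgen : ∀ w, XX β b 0 w ≠ 0 → Ann (XX β b) a w → ∀ (k : ℤ) (Y C : ℝ), 0 ≤ Y → Y ≤ C * ‖XX β b (sd k) w‖ →
      Y * ‖XX β b 0 w‖ ^ (k - 1) * ‖XX β b 1 w‖ ^ (-k) ≤ a ^ pv k * C := by
    intro w hn0 hA k Y C hY0 hY
    obtain ⟨f1, f2, f3⟩ := hann w hn0 hA
    have hr1 := ratio_pv (norm_pos_iff.2 hn0) f1 f2 f3 k
    rw [← hsd] at hr1
    have hz : 0 ≤ ‖XX β b 0 w‖ ^ (k - 1) * ‖XX β b 1 w‖ ^ (-k) := by positivity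
    have hside : 0 < ‖XX β b (sd k) w‖ := by
      rw [hsd]
      split_ifs
      · exact f1
      · exact norm_pos_iff.2 hn0
    have hC : 0 ≤ C := by
      by_contra hcon
      push Not at hcon
      nlinarith
    calc Y * ‖XX β b 0 w‖ ^ (k - 1) * ‖XX β b 1 w‖ ^ (-k)
        = Y * (‖XX β b 0 w‖ ^ (k - 1) * ‖XX β b 1 w‖ ^ (-k)) := by ring
      _ ≤ (C * ‖XX β b (sd k) w‖) * (‖XX β b 0 w‖ ^ (k - 1) * ‖XX β b 1 w‖ ^ (-k)) :=
          mul_le_mul_of_nonneg_right hY hz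
      _ = C * (‖XX β b (sd k) w‖ * ‖XX β b 0 w‖ ^ (k - 1) * ‖XX β b 1 w‖ ^ (-k)) := by ring
      _ ≤ C * a ^ pv k := mul_le_mul_of_nonneg_left hr1 hC
      _ = a ^ pv k * C := by ring
  have H : TwoTermL (XX β b) (far a0 b) (Real.log r) (slo * h - c) (shi * h - c) a m
      (fun k => a ^ pv k * E k) (fun k => a ^ pv k * W k) := by
    refine ⟨differentiable_XX β b, ha, hm, ?_, ?_, ?_, ?_, small1, small2⟩
    · intro w hw
      obtain ⟨g1, g2⟩ := hwin w hw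
      rw [XX_eq_Xf hb hh 0 (hwr hw)]
      exact hX0 _ g1 g2
    · intro w hw hA k hk
      obtain ⟨g1, g2⟩ := hwin w hw
      have hn0 : XX β b 0 w ≠ 0 := by rw [XX_eq_Xf hb hh 0 (hwr hw)]; exact hX0 _ g1 g2
      have hk1 := hE _ g1 g2 k hk
      rw [← XX_eq_Xf hb hh k (hwr hw), ← XX_eq_Xf hb hh (sd k) (hwr hw)] at hk1
      exact hgen w hn0 hA k _ _ (norm_nonneg _) hk1
    · intro w hw hA k hk
      obtain ⟨g1, g2⟩ := hwin w hw
      have hn0 : XX β b 0 w ≠ 0 := by rw [XX_eq_Xf hb hh 0 (hwr hw)]; exact hX0 _ g1 g2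
      have hk2 := hW _ g1 g2 k hk
      have e0 : deriv (XX β b 0) w / XX β b 0 w = Ld β r h (tk β b 1 w) 0 := by
        rw [deriv_XX_eq hb hh 0 (hwr hw), XX_eq_Xf hb hh 0 (hwr hw)]
        rfl
      have e1 : deriv (XX β b 1) w / XX β b 1 w = Ld β r h (tk β b 1 w) 1 := by
        rw [deriv_XX_eq hb hh 1 (hwr hw), XX_eq_Xf hb hh 1 (hwr hw)]
        rfl
      have ek : ‖deriv (XX β b k) w‖ = r * ‖Xf β r h (tk β b 1 w + β) k‖ := by
        rw [deriv_XX_eq hb hh k (hwr hw), norm_mul, norm_mul, Complex.norm_real, Real.norm_of_nonneg hr.le,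
          mul_comm I, Complex.norm_exp_ofReal_mul_I, mul_one]
      rw [← e0, ← e1, ← ek, ← XX_eq_Xf hb hh k (hwr hw), ← XX_eq_Xf hb hh (sd k) (hwr hw)] at hk2
      apply hgen w hn0 hA k _ _ (norm_nonneg _)
      refine le_trans ?_ hk2
      refine (norm_add_le _ _).trans ?_
      rw [norm_mul]
    · intro w hw _
      obtain ⟨g1, g2⟩ := hwin w hw
      have h5 := hS _ g1 g2
      unfold Ld at h5
      rw [deriv_XX_eq hb hh 0 (hwr hw), XX_eq_Xf hb hh 0 (hwr hw), deriv_XX_eq hb hh 1 (hwr hw),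
        XX_eq_Xf hb hh 1 (hwr hw)]
      exact h5
  have h2 := valley_uniqueL hb hp' (q := Complex.exp (((2 * Real.pi * p / b + β : ℝ) : ℂ) * I))
    (c := cc p b 0) (Complex.norm_exp_ofReal_mul_I _).le (cc_zero_ne hb hp') hF (θ0 := s0 * h - c)
    (by nlinarith) H hη ?_ ?_
  · rw [Real.exp_log hr] at h2
    exact ⟨fun z hz hzr => h2.1 z hzr hz, fun z w hz hw hzr hwr => h2.2 z w hzr hwr hz hw⟩
  · intro w hw
    obtain ⟨g1, g2⟩ := hwin w hw
    have hmx : 0 ≤ max ‖XX β b 0 w‖ ‖XX β b 1 w‖ := le_max_of_le_left (norm_nonneg _)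
    calc ∑ k ∈ far a0 b, ‖XX β b k w‖ ≤ ∑ k ∈ far a0 b, E k * max ‖XX β b 0 w‖ ‖XX β b 1 w‖ := by
          refine Finset.sum_le_sum fun k hk => ?_
          have hk1 := hE _ g1 g2 k hk
          rw [← XX_eq_Xf hb hh k (hwr hw), ← XX_eq_Xf hb hh (sd k) (hwr hw)] at hk1
          refine hk1.trans (mul_le_mul_of_nonneg_left ?_ (hE0 k))
          rw [hsd]
          split_ifs
          · exact le_max_right _ _
          · exact le_max_left _ _
      _ = (∑ k ∈ far a0 b, E k) * max ‖XX β b 0 w‖ ‖XX β b 1 w‖ := by rw [Finset.sum_mul]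
      _ ≤ η * max ‖XX β b 0 w‖ ‖XX β b 1 w‖ := mul_le_mul_of_nonneg_right hsum hmx
  · intro w hw hnot
    have hhb : 2 * Real.pi / b = h := hh.symm
    rw [hhb] at hw
    have g1 : s0 * h ≤ tk β b 1 w + κ := by rw [htk]; linarith [hw.2.1]
    have g2 : tk β b 1 w + κ ≤ (s0 + 1) * h := by rw [htk]; linarith [hw.2.2]
    have g3 : tk β b 1 w + κ < slo * h ∨ shi * h < tk β b 1 w + κ := by
      by_contra hcon
      push Not at hcon
      apply hnot
      rw [htk] at hcon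
      exact ⟨hw.1, by linarith [hcon.1], by linarith [hcon.2]⟩
    have h6 := hout _ g1 g2 g3
    rw [← XX_eq_Xf hb hh 0 (hwr hw), ← XX_eq_Xf hb hh 1 (hwr hw)] at h6
    refine lt_of_le_of_lt (le_of_eq ?_) h6
    exact Finset.sum_congr rfl fun k _ => by rw [XX_eq_Xf hb hh k (hwr hw)]

end Sok
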