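import Pool.Agent.Lib.MP_816dec_an.R1T6
import Pool.Agent.Lib.MP_816dec_an.R1LW

/-!
MP_816dec_an (A3, row R1-b6): data of a point, logarithmic derivatives of the two near copies.
-/

set_option autoImplicit false

open Complex Set Filter Topology Metric

namespace Sok

/-- a point for `b = 6`: `s` is the angle of the copy `1` in units of `h` -/
structure D6 (β r t κ s h T : ℝ) : Prop where
  hβ : 0 < β
  hr : 10 ≤ r
  hκ : κ = β * r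
  hh : h = Real.pi / 3
  hc : 4.9619 * (1 + κ ^ 2) ≤ r
  hs : t + κ = s * h
  hT : T = r * h ^ 2 / (1 + κ ^ 2)
  hk1 : 0.3 ≤ κ
  hk2 : κ ≤ 1.39

variable {β r t κ s h T : ℝ}

theorem D6.r0 (H : D6 β r t κ s h T) : 0 < r := by linarith [H.hr]
theorem D6.k0 (H : D6 β r t κ s h T) : 0 < κ := by have := H.hk1; norm_num at this; linarith
theorem D6.A0 (_H : D6 β r t κ s h T) : 0 < 1 + κ ^ 2 := by positivity

theorem D6.h1 (H : D6 β r t κ s h T) : 1.047197 ≤ h := by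
  have := Real.pi_gt_d6
  rw [H.hh]; norm_num at this ⊢; linarith
theorem D6.h2 (H : D6 β r t κ s h T) : h ≤ 1.047198 := by
  have := Real.pi_lt_d6
  rw [H.hh]; norm_num at this ⊢; linarith
theorem D6.h0 (H : D6 β r t κ s h T) : 0 < h := by have := H.h1; norm_num at this; linarith
theorem D6.hq1 (H : D6 β r t κ s h T) : 1.09662 ≤ h ^ 2 := by
  have h1 := pow_le_pow_left₀ (by norm_num) H.h1 2
  norm_num at h1 ⊢; linarith
theorem D6.hq2 (H : D6 β r t κ s h T) : h ^ 2 ≤ 1.09663 := by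
  have h1 := pow_le_pow_left₀ H.h0.le H.h2 2
  norm_num at h1 ⊢; linarith

theorem D6.ble (H : D6 β r t κ s h T) : β * 10 ≤ κ := by
  rw [H.hκ]; exact mul_le_mul_of_nonneg_left H.hr H.hβ.le
theorem D6.bc (H : D6 β r t κ s h T) : β * (4.9619 * (1 + κ ^ 2)) ≤ κ := by
  conv_rhs => rw [H.hκ]
  exact mul_le_mul_of_nonneg_left H.hc H.hβ.le
theorem D6.bc' (H : D6 β r t κ s h T) : β * (4.95 * (1 + κ ^ 2)) ≤ κ := by
  have h1 := H.bc
  have h2 : β * (4.95 * (1 + κ ^ 2)) ≤ β * (4.9619 * (1 + κ ^ 2)) := by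
    have := H.A0
    apply mul_le_mul_of_nonneg_left _ H.hβ.le
    norm_num
    linarith
  exact h2.trans h1

theorem D6.dom' (H : D6 β r t κ s h T) {t' : ℝ} (h1 : -1.05 ≤ t' + κ) (h2 : t' + κ ≤ 1.87) : DomR κ t' := by
  have hk := H.hk1
  have hpi := Real.pi_gt_d6
  refine ⟨H.k0, ?_, ?_⟩
  · norm_num at hk h2 hpi ⊢; linarith
  · by_cases hc : Real.exp (-1) < κ
    · left; exact hc
    · right
      have h3 := not_lt.1 hc
      have h4 : Real.exp (-1) < 0.37 := by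
        rw [Real.exp_neg, inv_lt_comm₀ (Real.exp_pos _) (by norm_num)]
        have := Real.exp_one_gt_d9
        norm_num at this ⊢; linarith
      norm_num at h1 h4 hpi ⊢; linarith

/-- the angle of the copy `k` -/
theorem D6.ang (H : D6 β r t κ s h T) (k : ℤ) : (t + (k - 1) * h) + κ = (s + k - 1) * h := by
  have := H.hs
  linear_combination this

/-- shift by `β` -/
theorem D6.shift (H : D6 β r t κ s h T) : D6 β r (t + β) κ (s + β / h) h T := by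
  refine ⟨H.hβ, H.hr, H.hκ, H.hh, H.hc, ?_, H.hT, H.hk1, H.hk2⟩
  have := H.hs
  have h0 := H.h0
  field_simp
  linarith

theorem D6.b0a (H : D6 β r t κ s h T) {k2 β0 : ℝ} (hk2 : κ ≤ k2) (h : k2 ≤ 10 * β0) : β ≤ β0 := by
  have := H.ble
  linarith

theorem D6.b0b (H : D6 β r t κ s h T) {ψ β0 : ℝ} (hψ : κ / (1 + κ ^ 2) ≤ ψ) (h : ψ ≤ 4.9619 * β0) : β ≤ β0 := by
  have h1 := H.bc
  have hA := H.A0
  have h2 : β * 4.9619 ≤ κ / (1 + κ ^ 2) := by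
    rw [le_div_iff₀ hA]
    linarith
  have h3 : β * 4.9619 ≤ 4.9619 * β0 := h2.trans (hψ.trans h)
  norm_num at h3
  linarith

theorem D6.T0a (H : D6 β r t κ s h T) {k2 T0 : ℝ} (hk2 : κ ≤ k2) (hT : T0 * (1 + k2 ^ 2) ≤ 10.9662) (hT0 : 0 ≤ T0) :
    T0 ≤ T := by
  have hA := H.A0
  rw [H.hT, le_div_iff₀ hA]
  have h1 : κ ^ 2 ≤ k2 ^ 2 := pow_le_pow_left₀ H.k0.le hk2 2
  have h2 : T0 * (1 + κ ^ 2) ≤ T0 * (1 + k2 ^ 2) := mul_le_mul_of_nonneg_left (by linarith) hT0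
  have h3 : (10 : ℝ) * 1.09662 ≤ r * h ^ 2 := mul_le_mul H.hr H.hq1 (by norm_num) H.r0.le
  norm_num at h3 hT
  linarith

theorem D6.T0b (H : D6 β r t κ s h T) {T0 : ℝ} (hT : T0 ≤ 5.4413) : T0 ≤ T := by
  have hA := H.A0
  refine hT.trans ?_
  rw [H.hT, le_div_iff₀ hA]
  have h3 : (4.9619 * (1 + κ ^ 2)) * 1.09662 ≤ r * h ^ 2 := mul_le_mul H.hc H.hq1 (by norm_num) H.r0.le
  norm_num at h3 ⊢
  linarith

theorem D6.R0b (H : D6 β r t κ s h T) {k1 R0 : ℝ} (hk0 : 0 ≤ k1) (hk1 : k1 ≤ κ) (hR : R0 ≤ 4.9619 * (1 + k1 ^ 2)) :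
    R0 ≤ r := by
  have h1 : k1 ^ 2 ≤ κ ^ 2 := pow_le_pow_left₀ hk0 hk1 2
  have h2 := H.hc
  have h3 : (4.9619 : ℝ) * (1 + k1 ^ 2) ≤ 4.9619 * (1 + κ ^ 2) := mul_le_mul_of_nonneg_left (by linarith) (by norm_num)
  linarith

/-! ### near copies -/

theorem D6.x1up (H : D6 β r t κ s h T) (hD : DomR κ t) {ε c d U : ℝ} (hε : 0 ≤ ε)
    (hJ : ‖HH β (sg κ t) - 1‖ ≤ ε) (hc : sE κ t ≤ 1 - c * (t + κ) ^ 2 / (1 + κ ^ 2)) (hd0 : 0 < d)
    (hd : d * (1 + κ ^ 2) ≤ sD κ t) (hU0 : 0 ≤ U) (hU : (1 + ε) ^ 4 ≤ d * U ^ 4) :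
    ‖Xf β r h t 1‖ ≤ eN r κ * (U * Real.exp (-(T * (c * s ^ 2)))) :=
  X_up H.hβ H.r0.le H.hκ (by push_cast; ring) hD hε hJ hc hd0 hd hU0 hU H.hs H.hT

theorem D6.x1lo (H : D6 β r t κ s h T) (hD : DomR κ t) {ε c d l : ℝ} (hε : ε ≤ 1)
    (hJ : ‖HH β (sg κ t) - 1‖ ≤ ε) (hc : 1 - c * (t + κ) ^ 2 / (1 + κ ^ 2) ≤ sE κ t)
    (hd : sD κ t ≤ d * (1 + κ ^ 2)) (hl0 : 0 ≤ l) (hl : l ^ 4 * d ≤ (1 - ε) ^ 4) :
    eN r κ * (l * Real.exp (-(T * (c * s ^ 2)))) ≤ ‖Xf β r h t 1‖ :=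
  X_lo H.hβ H.r0.le H.hκ (by push_cast; ring) hD hε hJ hc hd hl0 hl H.hs H.hT

theorem D6.a0 (H : D6 β r t κ s h T) : (t - h) + κ = (s - 1) * h := by
  have := H.hs
  linear_combination this

theorem D6.x0up (H : D6 β r t κ s h T) (hD : DomR κ (t - h)) {ε c d U : ℝ} (hε : 0 ≤ ε)
    (hJ : ‖HH β (sg κ (t - h)) - 1‖ ≤ ε) (hc : sE κ (t - h) ≤ 1 - c * ((t - h) + κ) ^ 2 / (1 + κ ^ 2)) (hd0 : 0 < d)
    (hd : d * (1 + κ ^ 2) ≤ sD κ (t - h)) (hU0 : 0 ≤ U) (hU : (1 + ε) ^ 4 ≤ d * U ^ 4) :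
    ‖Xf β r h t 0‖ ≤ eN r κ * (U * Real.exp (-(T * (c * (s - 1) ^ 2)))) :=
  X_up H.hβ H.r0.le H.hκ (by push_cast; ring) hD hε hJ hc hd0 hd hU0 hU H.a0 H.hT

theorem D6.x0lo (H : D6 β r t κ s h T) (hD : DomR κ (t - h)) {ε c d l : ℝ} (hε : ε ≤ 1)
    (hJ : ‖HH β (sg κ (t - h)) - 1‖ ≤ ε) (hc : 1 - c * ((t - h) + κ) ^ 2 / (1 + κ ^ 2) ≤ sE κ (t - h))
    (hd : sD κ (t - h) ≤ d * (1 + κ ^ 2)) (hl0 : 0 ≤ l) (hl : l ^ 4 * d ≤ (1 - ε) ^ 4) :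
    eN r κ * (l * Real.exp (-(T * (c * (s - 1) ^ 2)))) ≤ ‖Xf β r h t 0‖ :=
  X_lo H.hβ H.r0.le H.hκ (by push_cast; ring) hD hε hJ hc hd hl0 hl H.a0 H.hT

/-! ### logarithmic derivatives -/

theorem Ld_eq {β R h t κ t' : ℝ} {k : ℤ} (hβ : 0 < β) (hκ : κ = β * R) (ht : t' = t + (k - 1) * h) (hD : DomR κ t') :
    Ld β R h t k = zs β (sg κ t') * F (cexp (I * β)) (cexp (I * β) * zs β (sg κ t')) /
      F (cexp (I * β)) (zs β (sg κ t')) := by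
  have hz : zs β (sg κ t') = (R : ℂ) * cexp (I * ((t' + β / 2 : ℝ) : ℂ)) := by
    have h1 := s_point hD hβ.ne'
    have e : κ / β = R := by rw [hκ]; field_simp
    rw [e] at h1
    rw [mul_comm I]
    exact h1
  have hX : Xf β R h t k = F (cexp (I * β)) (zs β (sg κ t')) := by
    rw [hz]; unfold Xf; rw [ht]
  have hX2 : Xf β R h (t + β) k = F (cexp (I * β)) (cexp (I * β) * zs β (sg κ t')) := by
    rw [hz]; unfold Xf
    congr 1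
    have e1 : I * ((t + β + (k - 1) * h + β / 2 : ℝ) : ℂ) = I * β + I * ((t' + β / 2 : ℝ) : ℂ) := by
      rw [ht]; push_cast; ring
    rw [e1, Complex.exp_add]
    ring
  unfold Ld
  rw [hX, hX2, hz, ht]

/-- correction term -/
noncomputable def Gc6 (κ t : ℝ) : ℂ := I / 2 * sg κ t / (1 - I * sg κ t) ^ 2

theorem sg_ne {κ t : ℝ} (h : DomR κ t) : sg κ t ≠ 0 := by
  intro h0
  have h1 := congrArg Complex.re h0
  unfold sg at h1
  simp at h1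
  exact absurd h1 (sx_pos h).ne'

theorem norm_sg' {κ t : ℝ} (h : DomR κ t) : ‖sg κ t‖ = κ * Real.exp (-sy κ t) := by
  rw [← norm_s_eq h]
  unfold sg
  rw [Complex.norm_def, Complex.normSq_apply]
  congr 1
  simp
  ring

/-- `‖Ld - σ/β - G‖ ≤ ρ ε/(δ(1-ε))` -/
theorem Ld_near {β R h t κ t' δ ε ρ : ℝ} {k : ℤ} (hβ : 0 < β) (hκ : κ = β * R) (ht : t' = t + (k - 1) * h)
    (hD : DomR κ t') (hδ : 0 < δ) (hε0 : 0 ≤ ε) (hε : ε < 1) (hy : -1 + δ < sy κ t')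
    (hJ : ∀ s : ℂ, ‖s - sg κ t'‖ ≤ δ → ‖HH β s - 1‖ ≤ ε) (hρ : ‖sg κ t' / (1 - I * sg κ t')‖ ≤ ρ) :
    ‖Ld β R h t k - (sg κ t' / β + Gc6 κ t')‖ ≤ ρ * (ε / (δ * (1 - ε))) := by
  have h1 := (slope_of_disc hβ hδ hε (sg_ne hD) (by
    intro s hs
    have h2 := (Complex.abs_im_le_norm (s - sg κ t')).trans hs
    have h3 : (sg κ t').im = sy κ t' := by unfold sg; simp
    rw [Complex.sub_im, h3] at h2
    have h4 := abs_le.1 h2
    linarith) hJ).2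
  rw [Ld_eq hβ hκ ht hD]
  refine h1.trans ?_
  have : 0 < 1 - ε := by linarith
  exact mul_le_mul_of_nonneg_right hρ (by positivity)

/-- `D = κ² e^{-2y} + 1 + 2y` -/
theorem sD_eq2 {κ t : ℝ} (h : DomR κ t) : sD κ t = κ ^ 2 * Real.exp (-sy κ t) ^ 2 + (1 + 2 * sy κ t) := by
  have h1 := sD_eq' h
  unfold sD
  rw [h1, show -2 * sy κ t = (2 : ℕ) * (-sy κ t) by push_cast; ring, Real.exp_nat_mul]
  ring

/-- the ratio `|σ|/|1 - iσ|` -/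
theorem rho_le {κ t k2 yl E ρ : ℝ} (h : DomR κ t) (hk2 : κ ≤ k2) (hy : yl ≤ sy κ t) (hE : Real.exp (-yl) ≤ E)
    (hyl : 0 ≤ 1 + 2 * yl) (hρ0 : 0 ≤ ρ) (hρ1 : ρ ≤ 1) (hρ : k2 ^ 2 * E ^ 2 * (1 - ρ ^ 2) ≤ ρ ^ 2 * (1 + 2 * yl)) :
    ‖sg κ t / (1 - I * sg κ t)‖ ≤ ρ := by
  have hk := h.1
  have hD := sD_pos h
  rw [norm_div, norm_sg' h, norm_one_sub_sg, div_le_iff₀ (Real.sqrt_pos.2 hD)]
  have h0 : 0 ≤ κ * Real.exp (-sy κ t) := by positivity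
  have hw : (κ * Real.exp (-sy κ t)) ^ 2 ≤ k2 ^ 2 * E ^ 2 := by
    rw [mul_pow]
    apply mul_le_mul (pow_le_pow_left₀ hk.le hk2 2) _ (by positivity) (by positivity)
    exact pow_le_pow_left₀ (Real.exp_pos _).le ((Real.exp_le_exp.2 (by linarith)).trans hE) 2
  have h1 : (κ * Real.exp (-sy κ t)) ^ 2 ≤ (ρ * Real.sqrt (sD κ t)) ^ 2 := by
    rw [mul_pow ρ, Real.sq_sqrt hD.le, sD_eq2 h]
    have e1 : κ ^ 2 * Real.exp (-sy κ t) ^ 2 = (κ * Real.exp (-sy κ t)) ^ 2 := by ring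
    rw [e1]
    have h2 : 0 ≤ 1 - ρ ^ 2 := by nlinarith
    have h3 := mul_le_mul_of_nonneg_right hw h2
    have h4 : ρ ^ 2 * (1 + 2 * yl) ≤ ρ ^ 2 * (1 + 2 * sy κ t) := mul_le_mul_of_nonneg_left (by linarith) (sq_nonneg ρ)
    linarith
  by_contra hlt
  exact absurd h1 (not_le.2 (pow_lt_pow_left₀ (not_le.1 hlt) (by positivity) (by norm_num)))

/-- `|G| ≤ γ` -/
theorem gam_le {κ t yl γ : ℝ} (h : DomR κ t) (hy : yl ≤ sy κ t) (hyl : 0 < 1 + 2 * yl) (hγ0 : 0 ≤ γ)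
    (hγ : 1 ≤ 16 * γ ^ 2 * (1 + 2 * yl)) : ‖Gc6 κ t‖ ≤ γ := by
  have hk := h.1
  have hD := sD_pos h
  unfold Gc6
  rw [norm_div, norm_mul, norm_div, Complex.norm_I, norm_pow, norm_one_sub_sg, Real.sq_sqrt hD.le, norm_sg' h,
    div_le_iff₀ hD, sD_eq2 h]
  simp only [Complex.norm_ofNat]
  obtain ⟨n, hn⟩ : ∃ n, n = κ * Real.exp (-sy κ t) := ⟨_, rfl⟩
  have hn0 : 0 < n := by rw [hn]; positivity
  have e1 : κ ^ 2 * Real.exp (-sy κ t) ^ 2 = n ^ 2 := by rw [hn]; ring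
  rw [e1, ← hn]
  obtain ⟨o, ho⟩ : ∃ o, o = 1 + 2 * sy κ t := ⟨_, rfl⟩
  rw [← ho]
  have ho1 : 1 + 2 * yl ≤ o := by rw [ho]; linarith
  have h2 : 1 ≤ 16 * γ ^ 2 * o := by
    have := mul_le_mul_of_nonneg_left ho1 (by positivity : 0 ≤ 16 * γ ^ 2)
    linarith
  have hγp : 0 < γ := by
    rcases hγ0.lt_or_eq with h3 | h3
    · exact h3
    · rw [← h3] at h2; norm_num at h2
  -- `n/2 ≤ γ (n² + o)`
  have h3 : 0 ≤ (4 * γ * n - 1) ^ 2 := sq_nonneg _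
  have h4 : 8 * γ * (n / 2) ≤ 8 * γ * (γ * (n ^ 2 + o)) := by
    have : 8 * γ * (n / 2) = 4 * γ * n := by ring
    have : 8 * γ * (γ * (n ^ 2 + o)) = 8 * γ ^ 2 * n ^ 2 + 8 * γ ^ 2 * o := by ring
    nlinarith
  have h5 := le_of_mul_le_mul_left h4 (by positivity)
  have e2 : 1 / 2 * n = n / 2 := by ring
  rw [e2]
  exact h5

/-- imaginary part of `G` -/
theorem Gim_eq {κ t : ℝ} (h : DomR κ t) :
    (Gc6 κ t).im = sx κ t * (1 - (sx κ t ^ 2 + sy κ t ^ 2)) / (2 * sD κ t ^ 2) := by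
  have hD := sD_pos h
  obtain ⟨x, hx⟩ : ∃ x, x = sx κ t := ⟨_, rfl⟩
  obtain ⟨y, hy⟩ : ∃ y, y = sy κ t := ⟨_, rfl⟩
  have e0 : sg κ t = (x : ℂ) + (y : ℂ) * I := by rw [hx, hy]; rfl
  have eD : sD κ t = x ^ 2 + (1 + y) ^ 2 := by rw [hx, hy]; rfl
  rw [eD] at hD
  unfold Gc6
  rw [e0, eD, ← hx, ← hy]
  have hu : (1 - I * ((x : ℂ) + (y : ℂ) * I)) = ((1 + y : ℝ) : ℂ) + ((-x : ℝ) : ℂ) * I := by
    push_cast
    linear_combination (-(y : ℂ)) * Complex.I_mul_I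
  rw [hu]
  have hnum : I / 2 * ((x : ℂ) + (y : ℂ) * I) = ((-y / 2 : ℝ) : ℂ) + ((x / 2 : ℝ) : ℂ) * I := by
    push_cast
    linear_combination ((y : ℂ) / 2) * Complex.I_mul_I
  have hsq : (((1 + y : ℝ) : ℂ) + ((-x : ℝ) : ℂ) * I) ^ 2 = (((1 + y) ^ 2 - x ^ 2 : ℝ) : ℂ) + ((-2 * x * (1 + y) : ℝ) : ℂ) * I := by
    push_cast
    linear_combination ((x : ℂ) ^ 2) * Complex.I_mul_I
  rw [hnum, hsq, Complex.div_im, Complex.normSq_apply]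
  simp only [Complex.add_im, Complex.add_re, Complex.mul_im, Complex.mul_re, Complex.I_re, Complex.I_im,
    Complex.ofReal_re, Complex.ofReal_im]
  have hN : ((1 + y) ^ 2 - x ^ 2) ^ 2 + (-2 * x * (1 + y)) ^ 2 = (x ^ 2 + (1 + y) ^ 2) ^ 2 := by ring
  have hNp : 0 < (x ^ 2 + (1 + y) ^ 2) ^ 2 := by positivity
  have e3 : ((1 + y) ^ 2 - x ^ 2 + (-2 * x * (1 + y) * 0 - 0 * 1)) * ((1 + y) ^ 2 - x ^ 2 + (-2 * x * (1 + y) * 0 - 0 * 1)) +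
      (0 + (-2 * x * (1 + y) * 1 + 0 * 0)) * (0 + (-2 * x * (1 + y) * 1 + 0 * 0)) = (x ^ 2 + (1 + y) ^ 2) ^ 2 := by
    rw [← hN]; ring
  rw [e3]
  field_simp
  ring

theorem normsq_s {κ t : ℝ} (h : DomR κ t) : sx κ t ^ 2 + sy κ t ^ 2 = (κ * Real.exp (-sy κ t)) ^ 2 := by
  rw [← norm_s_eq h, Real.sq_sqrt (by positivity)]

/-- upper bound of `Im G`: `≤ 0` when `|σ| ≥ 1`, in general `≤ γ (1 - w)` -/
theorem Gim_le {κ t γ wl D0 : ℝ} (h : DomR κ t) (hγ : ‖Gc6 κ t‖ ≤ γ) (hw : wl ≤ (κ * Real.exp (-sy κ t)) ^ 2)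
    (hwl : wl ≤ 1) (hD0 : 0 < D0) (hD : D0 ≤ sD κ t) : (Gc6 κ t).im ≤ γ * (1 - wl) / D0 := by
  have hDp := sD_pos h
  have hx := sx_pos h
  have hγ0 : 0 ≤ γ := (norm_nonneg _).trans hγ
  obtain ⟨n, hn⟩ : ∃ n, n = κ * Real.exp (-sy κ t) := ⟨_, rfl⟩
  have hn0 : 0 < n := by rw [hn]; have := h.1; positivity
  have hG : n / (2 * sD κ t) ≤ γ := by
    refine le_trans (le_of_eq ?_) hγ
    unfold Gc6
    rw [norm_div, norm_mul, norm_div, Complex.norm_I, norm_pow, norm_one_sub_sg, Real.sq_sqrt hDp.le, norm_sg' h, ← hn]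
    simp only [Complex.norm_ofNat]
    field_simp
  rw [Gim_eq h, normsq_s h, ← hn]
  rw [← hn] at hw
  have hxn : sx κ t ≤ n := by
    rw [hn, ← norm_s_eq h]
    apply Real.le_sqrt_of_sq_le
    have := sq_nonneg (sy κ t)
    linarith
  rcases le_total 1 (n ^ 2) with h1 | h1
  · have h2 : sx κ t * (1 - n ^ 2) / (2 * sD κ t ^ 2) ≤ 0 := by
      apply div_nonpos_of_nonpos_of_nonneg _ (by positivity)
      exact mul_nonpos_of_nonneg_of_nonpos hx.le (by linarith)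
    refine h2.trans ?_
    have : 0 ≤ 1 - wl := by linarith
    positivity
  · have h3 : sx κ t * (1 - n ^ 2) / (2 * sD κ t ^ 2) ≤ n * (1 - n ^ 2) / (2 * sD κ t ^ 2) := by
      apply div_le_div_of_nonneg_right _ (by positivity)
      exact mul_le_mul_of_nonneg_right hxn (by linarith)
    refine h3.trans ?_
    have e1 : n * (1 - n ^ 2) / (2 * sD κ t ^ 2) = n / (2 * sD κ t) * ((1 - n ^ 2) / sD κ t) := by
      field_simp
    rw [e1, mul_div_assoc]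
    apply mul_le_mul hG _ _ hγ0
    · exact div_le_div₀ (by linarith) (by linarith) hD0 hD
    · apply div_nonneg (by linarith) hDp.le

/-- lower bound of `Im G` -/
theorem Gim_ge {κ t γ wu D0 : ℝ} (h : DomR κ t) (hγ : ‖Gc6 κ t‖ ≤ γ) (hw : (κ * Real.exp (-sy κ t)) ^ 2 ≤ wu)
    (hwu : 1 ≤ wu) (hD0 : 0 < D0) (hD : D0 ≤ sD κ t) : -(γ * (wu - 1) / D0) ≤ (Gc6 κ t).im := by
  have hDp := sD_pos h
  have hx := sx_pos h
  have hγ0 : 0 ≤ γ := (norm_nonneg _).trans hγ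
  obtain ⟨n, hn⟩ : ∃ n, n = κ * Real.exp (-sy κ t) := ⟨_, rfl⟩
  have hn0 : 0 < n := by rw [hn]; have := h.1; positivity
  have hG : n / (2 * sD κ t) ≤ γ := by
    refine le_trans (le_of_eq ?_) hγ
    unfold Gc6
    rw [norm_div, norm_mul, norm_div, Complex.norm_I, norm_pow, norm_one_sub_sg, Real.sq_sqrt hDp.le, norm_sg' h, ← hn]
    simp only [Complex.norm_ofNat]
    field_simp
  rw [Gim_eq h, normsq_s h, ← hn]
  rw [← hn] at hw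
  have hxn : sx κ t ≤ n := by
    rw [hn, ← norm_s_eq h]
    apply Real.le_sqrt_of_sq_le
    have := sq_nonneg (sy κ t)
    linarith
  have hfin : 0 ≤ γ * (wu - 1) / D0 := by
    have : 0 ≤ wu - 1 := by linarith
    positivity
  rcases le_total (n ^ 2) 1 with h1 | h1
  · have h2 : 0 ≤ sx κ t * (1 - n ^ 2) / (2 * sD κ t ^ 2) := by
      apply div_nonneg _ (by positivity)
      exact mul_nonneg hx.le (by linarith)
    linarith
  · have h3 : sx κ t * (n ^ 2 - 1) / (2 * sD κ t ^ 2) ≤ n * (n ^ 2 - 1) / (2 * sD κ t ^ 2) := by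
      apply div_le_div_of_nonneg_right _ (by positivity)
      exact mul_le_mul_of_nonneg_right hxn (by linarith)
    have e1 : n * (n ^ 2 - 1) / (2 * sD κ t ^ 2) = n / (2 * sD κ t) * ((n ^ 2 - 1) / sD κ t) := by
      field_simp
    have h4 : n / (2 * sD κ t) * ((n ^ 2 - 1) / sD κ t) ≤ γ * ((wu - 1) / D0) := by
      apply mul_le_mul hG _ _ hγ0
      · exact div_le_div₀ (by linarith) (by linarith) hD0 hD
      · apply div_nonneg (by linarith) hDp.le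
    have e2 : sx κ t * (1 - n ^ 2) / (2 * sD κ t ^ 2) = -(sx κ t * (n ^ 2 - 1) / (2 * sD κ t ^ 2)) := by ring
    rw [e2, mul_div_assoc]
    linarith

end Sok
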