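import Pool.Agent.Lib.MP_816dec_an.R1B6A

/-!
MP_816dec_an (A3, row R1-b6): slopes, weights, assembly interface.
-/

set_option autoImplicit false

open Complex Set Filter Topology Metric

namespace Sok

variable {β r t κ s h T : ℝ}

theorem D6.sgi (H : D6 β r t κ s h T) {t' : ℝ} (hD : DomR κ t') : (sg κ t' / (β : ℂ)).im = r * sp κ t' := by
  rw [Complex.div_ofReal_im]
  have e1 : (sg κ t').im = sy κ t' := by unfold sg; simp
  have e2 := sy_eq_sp hD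
  have hβ := H.hβ
  have hκ := H.hκ
  rw [e1, e2]
  have e3 : κ * sp κ t' = β * r * sp κ t' := by rw [← hκ]
  rw [e3]
  field_simp

theorem D6.sgn (H : D6 β r t κ s h T) {t' : ℝ} (hD : DomR κ t') : ‖sg κ t' / (β : ℂ)‖ = r * Real.exp (-sy κ t') := by
  have hβ := H.hβ
  have hκ := H.hκ
  rw [norm_div, norm_sg' hD, Complex.norm_real, Real.norm_of_nonneg hβ.le]
  have e3 : κ * Real.exp (-sy κ t') = β * r * Real.exp (-sy κ t') := by rw [← hκ]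
  rw [e3]
  field_simp

/-- slope -/
theorem slope6 (H : D6 β r t κ s h T) (hD0 : DomR κ (t - h)) (hD1 : DomR κ t) {L0 L1 : ℂ} {c1 c0 er0 er1 g0 g1 m T0 μ : ℝ}
    (he0 : ‖L0 - (sg κ (t - h) / β + Gc6 κ (t - h))‖ ≤ er0) (he1 : ‖L1 - (sg κ t / β + Gc6 κ t)‖ ≤ er1)
    (hp1 : c1 * (t + κ) / (1 + κ ^ 2) ≤ sp κ t) (hp0 : sp κ (t - h) ≤ c0 * ((t - h) + κ) / (1 + κ ^ 2))
    (hG1 : -g1 ≤ (Gc6 κ t).im) (hG0 : (Gc6 κ (t - h)).im ≤ g0) (hμ : μ ≤ c1 * s + c0 * (1 - s)) (hμ0 : 0 ≤ μ)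
    (hT0 : T0 ≤ T) (hT00 : 0 ≤ T0) (hm0 : 0 ≤ m + (g0 + g1 + er0 + er1))
    (hm : (m + (g0 + g1 + er0 + er1)) * 1.0472 ≤ T0 * μ) : m ≤ (L1 - L0).im := by
  have hA := H.A0
  have hh := H.h0
  have h1 := abs_le.1 ((Complex.abs_im_le_norm _).trans he0)
  have h2 := abs_le.1 ((Complex.abs_im_le_norm _).trans he1)
  rw [Complex.sub_im, Complex.add_im, H.sgi hD0] at h1
  rw [Complex.sub_im, Complex.add_im, H.sgi hD1] at h2
  rw [Complex.sub_im]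
  have h3 : r * (c1 * (t + κ) / (1 + κ ^ 2)) ≤ r * sp κ t := mul_le_mul_of_nonneg_left hp1 H.r0.le
  have h4 : r * sp κ (t - h) ≤ r * (c0 * ((t - h) + κ) / (1 + κ ^ 2)) := mul_le_mul_of_nonneg_left hp0 H.r0.le
  have e1 : r * (c1 * (t + κ) / (1 + κ ^ 2)) - r * (c0 * ((t - h) + κ) / (1 + κ ^ 2)) = T * (c1 * s + c0 * (1 - s)) / h := by
    rw [H.hT, H.a0, H.hs]
    field_simp
    ring
  have h5 : m + (g0 + g1 + er0 + er1) ≤ T * (c1 * s + c0 * (1 - s)) / h := by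
    rw [le_div_iff₀ hh]
    have h6 : (m + (g0 + g1 + er0 + er1)) * h ≤ (m + (g0 + g1 + er0 + er1)) * 1.0472 := by
      apply mul_le_mul_of_nonneg_left _ hm0
      have := H.h2
      norm_num at this ⊢
      linarith
    have h7 : T0 * μ ≤ T * (c1 * s + c0 * (1 - s)) := mul_le_mul hT0 hμ hμ0 (hT00.trans hT0)
    linarith
  linarith

/-- norm of `Ld` -/
theorem Ln6 (H : D6 β r t κ s h T) {t' : ℝ} (hD : DomR κ t') {L : ℂ} {er γ yl E : ℝ}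
    (he : ‖L - (sg κ t' / β + Gc6 κ t')‖ ≤ er) (hγ : ‖Gc6 κ t'‖ ≤ γ) (hy : yl ≤ sy κ t') (hE : Real.exp (-yl) ≤ E) :
    ‖L‖ ≤ r * E + (γ + er) := by
  have h1 : ‖L‖ ≤ ‖L - (sg κ t' / β + Gc6 κ t')‖ + ‖sg κ t' / (β : ℂ) + Gc6 κ t'‖ := by
    have := norm_add_le (L - (sg κ t' / β + Gc6 κ t')) (sg κ t' / (β : ℂ) + Gc6 κ t')
    rwa [sub_add_cancel] at this
  have h2 := norm_add_le (sg κ t' / (β : ℂ)) (Gc6 κ t')
  rw [H.sgn hD] at h2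
  have h3 : r * Real.exp (-sy κ t') ≤ r * E :=
    mul_le_mul_of_nonneg_left ((Real.exp_le_exp.2 (by linarith)).trans hE) H.r0.le
  linarith

/-- distance of the two saddles -/
theorem dist6 (H : D6 β r t κ s h T) (hD0 : DomR κ (t - h)) (hD1 : DomR κ t) (h1 : 0.45 ≤ s) (h2 : s ≤ 0.58)
    {dy k1 lam : ℝ} (hdy : sy κ t - sy κ (t - h) ≤ dy) (hk1 : k1 ≤ κ) (hk0 : 0 < k1) (hlam : 0 ≤ lam)
    (hl : 1.09663 + dy ^ 2 ≤ (k1 * lam) ^ 2) : ‖sg κ (t - h) - sg κ t‖ ≤ κ * lam := by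
  have hk := H.k0
  have hA := H.A0
  have hh1 := H.h1
  have hh2 := H.h2
  have hs := H.hs
  have ha0 := H.a0
  norm_num at h1 h2 hh1 hh2
  have hτ1 : 0 ≤ t + κ := by rw [hs]; nlinarith
  have hτ0 : (t - h) + κ ≤ 0 := by rw [ha0]; nlinarith
  have hy1 := sy_nonneg hD1 hτ1
  have hy0 := sy_nonpos hD0 hτ0
  have hk3 : κ ^ 2 ≤ 3 := by have := H.hk2; norm_num at this; nlinarith
  -- the angles
  have hp1 := spR_le hD1 hτ1 hk3
  have hp1' : sp κ t ≤ 0.5574 := by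
    refine hp1.trans ?_
    rw [div_le_iff₀ hA, hs]
    have := H.hk1
    norm_num at this ⊢
    nlinarith
  have hpn : 0 ≤ sp κ t := sp_nonneg hD1 hτ1
  have hq1 : Real.sin (sa κ t) ≤ 4 / 5 := by
    rw [sin_sa hD1]
    have hyb : sy κ t ≤ 0.31 := by
      rw [sy_eq_sp hD1]
      have h3 : κ * sp κ t ≤ κ * ((t + κ) / (1 + κ ^ 2)) := mul_le_mul_of_nonneg_left hp1 hk.le
      refine h3.trans ?_
      rw [mul_div_assoc', div_le_iff₀ hA, hs]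
      have hsh : s * h ≤ 0.6075 := by norm_num; nlinarith
      have h4 : κ * (s * h) ≤ κ * 0.6075 := mul_le_mul_of_nonneg_left hsh hk.le
      have h5 := sq_nonneg (κ - 1)
      norm_num at h4 ⊢
      linarith
    have he : Real.exp (sy κ t) ≤ 1.37 := by
      refine (Real.exp_le_exp.2 hyb).trans ?_
      have := Real.exp_bound' (x := 0.31) (by norm_num) (by norm_num) (n := 4) (by norm_num)
      norm_num [Finset.sum_range_succ, Nat.factorial] at this ⊢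
      linarith
    calc sp κ t * Real.exp (sy κ t) ≤ 0.5574 * 1.37 := mul_le_mul hp1' he (Real.exp_pos _).le (by norm_num)
      _ ≤ 4 / 5 := by norm_num
  have hp0 : 1.45 * ((t - h) + κ) / (1 + κ ^ 2) ≤ sp κ (t - h) := by
    apply pLu_043_060 hD0 H.hk1 H.hk2
    · rw [ha0]; norm_num; nlinarith
    · rw [ha0]; norm_num; nlinarith
  have hp0' : -0.77 ≤ sp κ (t - h) := by
    refine le_trans ?_ hp0
    rw [le_div_iff₀ hA, ha0]
    have := H.hk1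
    norm_num at this ⊢
    nlinarith
  have hp0n := sp_nonpos hD0 hτ0
  have hq0 : Real.sin (-(sa κ (t - h))) ≤ 4 / 5 := by
    rw [Real.sin_neg, sin_sa hD0]
    have he : Real.exp (sy κ (t - h)) ≤ 1 := Real.exp_le_one_iff.2 hy0
    have h4 : -(sp κ (t - h)) * Real.exp (sy κ (t - h)) ≤ 0.77 * 1 :=
      mul_le_mul (by linarith) he (Real.exp_pos _).le (by norm_num)
    norm_num at h4
    linarith
  have hab1 := abs_lt.1 (sa_abs hD1)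
  have hab0 := abs_lt.1 (sa_abs hD0)
  have arcb : ∀ a : ℝ, 0 ≤ Real.sin a → Real.sin a ≤ 4 / 5 → -(Real.pi / 2) ≤ a → a ≤ Real.pi / 2 → a ≤ 0.942 := by
    intro a g0 g1 g2 g3
    have h5 := r1_arcsin_le g0 g1
    rw [Real.arcsin_sin g2 g3] at h5
    have h6 : Real.sin a ^ 3 ≤ (4 / 5) ^ 3 := pow_le_pow_left₀ g0 g1 3
    have h7 : Real.sin a ^ 5 ≤ (4 / 5) ^ 5 := pow_le_pow_left₀ g0 g1 5
    norm_num at h5 h6 h7 ⊢
    linarith
  have hs1 : 0 ≤ Real.sin (sa κ t) := by rw [sin_sa hD1]; positivity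
  have hs0 : 0 ≤ Real.sin (-(sa κ (t - h))) := by
    rw [Real.sin_neg, sin_sa hD0]
    have : 0 ≤ -(sp κ (t - h)) * Real.exp (sy κ (t - h)) := mul_nonneg (by linarith) (Real.exp_pos _).le
    linarith
  have ha1 := arcb (sa κ t) hs1 hq1 hab1.1.le hab1.2.le
  have ha2 := arcb (-(sa κ (t - h))) hs0 hq0 (by linarith) (by linarith)
  have ha3 : 0 ≤ sa κ t := by
    by_contra hc
    have := Real.sin_neg_of_neg_of_neg_pi_lt (not_le.1 hc) (by have := Real.pi_pos; linarith)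
    linarith
  have ha4 : 0 ≤ -(sa κ (t - h)) := by
    by_contra hc
    have := Real.sin_neg_of_neg_of_neg_pi_lt (not_le.1 hc) (by have := Real.pi_pos; linarith)
    linarith
  have hx1 : sx κ t = sa κ t - t := by
    rw [sa_sub hD1, ← sx_eq hD1]; field_simp
  have hx0 : sx κ (t - h) = sa κ (t - h) - (t - h) := by
    rw [sa_sub hD0, ← sx_eq hD0]; field_simp
  have hdx : (sx κ (t - h) - sx κ t) ^ 2 ≤ 1.09663 := by
    have h8 : (sx κ (t - h) - sx κ t) ^ 2 ≤ h ^ 2 := by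
      apply sq_le_sq'
      · rw [hx0, hx1]; norm_num at ha1 ha2; linarith
      · rw [hx0, hx1]; linarith
    exact h8.trans H.hq2
  have hy01 : 0 ≤ sy κ t - sy κ (t - h) := by linarith
  have hdy2 : (sy κ (t - h) - sy κ t) ^ 2 ≤ dy ^ 2 := by
    have := pow_le_pow_left₀ hy01 hdy 2
    calc (sy κ (t - h) - sy κ t) ^ 2 = (sy κ t - sy κ (t - h)) ^ 2 := by ring
      _ ≤ dy ^ 2 := this
  have hn : ‖sg κ (t - h) - sg κ t‖ ^ 2 = (sx κ (t - h) - sx κ t) ^ 2 + (sy κ (t - h) - sy κ t) ^ 2 := by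
    rw [← Complex.normSq_eq_norm_sq, Complex.normSq_apply]
    unfold sg
    simp
    ring
  have hkl : (k1 * lam) ^ 2 ≤ (κ * lam) ^ 2 := pow_le_pow_left₀ (by positivity) (mul_le_mul_of_nonneg_right hk1 hlam) 2
  have hfin : ‖sg κ (t - h) - sg κ t‖ ^ 2 ≤ (κ * lam) ^ 2 := by rw [hn]; linarith
  by_contra hlt
  exact absurd hfin (not_le.2 (pow_lt_pow_left₀ (not_le.1 hlt) (by positivity) (by norm_num)))

/-- `‖Ld 0 - Ld 1‖` -/
theorem Ldd6 (H : D6 β r t κ s h T) {L0 L1 : ℂ} {er0 er1 γ0 γ1 lam : ℝ}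
    (he0 : ‖L0 - (sg κ (t - h) / β + Gc6 κ (t - h))‖ ≤ er0) (he1 : ‖L1 - (sg κ t / β + Gc6 κ t)‖ ≤ er1)
    (hγ0 : ‖Gc6 κ (t - h)‖ ≤ γ0) (hγ1 : ‖Gc6 κ t‖ ≤ γ1) (hl : ‖sg κ (t - h) - sg κ t‖ ≤ κ * lam) :
    ‖L0 - L1‖ ≤ r * lam + (γ0 + γ1 + er0 + er1) := by
  have hβ := H.hβ
  have e1 : L0 - L1 = (L0 - (sg κ (t - h) / β + Gc6 κ (t - h))) - (L1 - (sg κ t / β + Gc6 κ t)) +
      ((sg κ (t - h) - sg κ t) / β + (Gc6 κ (t - h) - Gc6 κ t)) := by ring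
  have h1 : ‖(sg κ (t - h) - sg κ t) / (β : ℂ)‖ ≤ r * lam := by
    rw [norm_div, Complex.norm_real, Real.norm_of_nonneg hβ.le, div_le_iff₀ hβ]
    refine hl.trans (le_of_eq ?_)
    rw [H.hκ]; ring
  rw [e1]
  have h2 := norm_add_le ((L0 - (sg κ (t - h) / β + Gc6 κ (t - h))) - (L1 - (sg κ t / β + Gc6 κ t)))
      ((sg κ (t - h) - sg κ t) / β + (Gc6 κ (t - h) - Gc6 κ t))
  have h3 := norm_sub_le (L0 - (sg κ (t - h) / β + Gc6 κ (t - h))) (L1 - (sg κ t / β + Gc6 κ t))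
  have h4 := norm_add_le ((sg κ (t - h) - sg κ t) / (β : ℂ)) (Gc6 κ (t - h) - Gc6 κ t)
  have h5 := norm_sub_le (Gc6 κ (t - h)) (Gc6 κ t)
  linarith

theorem Lam6 {L0 L1 : ℂ} {A B0 B1 : ℝ} (hA : ‖L0 - L1‖ ≤ A) (hB0 : ‖L0‖ ≤ B0) (hB1 : ‖L1‖ ≤ B1) :
    ‖(((2 : ℤ) : ℂ) - 1) * L0 - ((2 : ℤ) : ℂ) * L1‖ ≤ A + B1 ∧
    ‖(((3 : ℤ) : ℂ) - 1) * L0 - ((3 : ℤ) : ℂ) * L1‖ ≤ 2 * A + B1 ∧
    ‖(((-1 : ℤ) : ℂ) - 1) * L0 - ((-1 : ℤ) : ℂ) * L1‖ ≤ A + B0 ∧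
    ‖(((-2 : ℤ) : ℂ) - 1) * L0 - ((-2 : ℤ) : ℂ) * L1‖ ≤ 2 * A + B0 := by
  refine ⟨?_, ?_, ?_, ?_⟩
  · have e : (((2 : ℤ) : ℂ) - 1) * L0 - ((2 : ℤ) : ℂ) * L1 = (L0 - L1) - L1 := by push_cast; ring
    rw [e]
    exact (norm_sub_le _ _).trans (add_le_add hA hB1)
  · have e : (((3 : ℤ) : ℂ) - 1) * L0 - ((3 : ℤ) : ℂ) * L1 = 2 * (L0 - L1) - L1 := by push_cast; ring
    rw [e]
    refine (norm_sub_le _ _).trans (add_le_add ?_ hB1)
    rw [norm_mul]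
    simp only [Complex.norm_ofNat]
    linarith
  · have e : (((-1 : ℤ) : ℂ) - 1) * L0 - ((-1 : ℤ) : ℂ) * L1 = -(L0 - L1) - L0 := by push_cast; ring
    rw [e]
    refine (norm_sub_le _ _).trans (add_le_add ?_ hB0)
    rw [norm_neg]; exact hA
  · have e : (((-2 : ℤ) : ℂ) - 1) * L0 - ((-2 : ℤ) : ℂ) * L1 = -(2 * (L0 - L1)) - L0 := by push_cast; ring
    rw [e]
    refine (norm_sub_le _ _).trans (add_le_add ?_ hB0)
    rw [norm_neg, norm_mul]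
    simp only [Complex.norm_ofNat]
    linarith

theorem wsum6 {r X X' Y L e w ws lam c W : ℝ} (h1 : r * X' ≤ ws * Y) (h2 : X ≤ e * Y) (h3 : r * X ≤ w * Y)
    (hL : L ≤ r * lam + c) (hX : 0 ≤ X) (hlam : 0 ≤ lam) (hc : 0 ≤ c) (hY : 0 ≤ Y)
    (hW : ws + lam * w + c * e ≤ W) : r * X' + X * L ≤ W * Y := by
  have h4 : X * L ≤ X * (r * lam + c) := mul_le_mul_of_nonneg_left hL hX
  have h5 : lam * (r * X) ≤ lam * (w * Y) := mul_le_mul_of_nonneg_left h3 hlam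
  have h6 : c * X ≤ c * (e * Y) := mul_le_mul_of_nonneg_left h2 hc
  have h7 : (ws + lam * w + c * e) * Y ≤ W * Y := mul_le_mul_of_nonneg_right hW hY
  nlinarith

theorem far6 (f : ℤ → ℝ) : ∑ k ∈ far (-2) 6, f k = f (-2) + f (-1) + f 2 + f 3 := by
  have e : far (-2) 6 = {-2, -1, 2, 3} := by
    ext k
    rw [mem_far]
    simp only [Finset.mem_insert, Finset.mem_singleton]
    constructor
    · rintro ⟨⟨h1, h2⟩, h3, h4⟩
      push_cast at h2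
      omega
    · rintro (h1 | h1 | h1 | h1) <;> subst h1 <;> norm_num
  rw [e, Finset.sum_insert (by decide), Finset.sum_insert (by decide), Finset.sum_insert (by decide),
    Finset.sum_singleton]
  ring

theorem mem_far6 {k : ℤ} (hk : k ∈ far (-2) 6) : k = -2 ∨ k = -1 ∨ k = 2 ∨ k = 3 := by
  rw [mem_far] at hk
  obtain ⟨⟨h1, h2⟩, h3, h4⟩ := hk
  push_cast at h2
  omega

/-- data of the window -/
structure Win6 (β r h t m E2 Em1 E3 Em2 W2 Wm1 W3 Wm2 : ℝ) : Prop where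
  x0 : Xf β r h t 0 ≠ 0
  e2 : ‖Xf β r h t 2‖ ≤ E2 * ‖Xf β r h t 1‖
  e3 : ‖Xf β r h t 3‖ ≤ E3 * ‖Xf β r h t 1‖
  em1 : ‖Xf β r h t (-1)‖ ≤ Em1 * ‖Xf β r h t 0‖
  em2 : ‖Xf β r h t (-2)‖ ≤ Em2 * ‖Xf β r h t 0‖
  w2 : r * ‖Xf β r h (t + β) 2‖ + ‖Xf β r h t 2‖ * ‖(((2 : ℤ) : ℂ) - 1) * Ld β r h t 0 - ((2 : ℤ) : ℂ) * Ld β r h t 1‖ ≤
    W2 * ‖Xf β r h t 1‖
  w3 : r * ‖Xf β r h (t + β) 3‖ + ‖Xf β r h t 3‖ * ‖(((3 : ℤ) : ℂ) - 1) * Ld β r h t 0 - ((3 : ℤ) : ℂ) * Ld β r h t 1‖ ≤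
    W3 * ‖Xf β r h t 1‖
  wm1 : r * ‖Xf β r h (t + β) (-1)‖ + ‖Xf β r h t (-1)‖ * ‖(((-1 : ℤ) : ℂ) - 1) * Ld β r h t 0 - ((-1 : ℤ) : ℂ) * Ld β r h t 1‖ ≤
    Wm1 * ‖Xf β r h t 0‖
  wm2 : r * ‖Xf β r h (t + β) (-2)‖ + ‖Xf β r h t (-2)‖ * ‖(((-2 : ℤ) : ℂ) - 1) * Ld β r h t 0 - ((-2 : ℤ) : ℂ) * Ld β r h t 1‖ ≤
    Wm2 * ‖Xf β r h t 0‖
  sl : m ≤ (Ld β r h t 1 - Ld β r h t 0).im

/-- sum of the others -/
noncomputable def oth6 (β r h t : ℝ) : ℝ :=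
  ‖Xf β r h t (-2)‖ + ‖Xf β r h t (-1)‖ + ‖Xf β r h t 2‖ + ‖Xf β r h t 3‖

theorem circ6 {p : ℤ} (hp : IsCoprime (6 : ℤ) p) {β r κ : ℝ} (hβ : 0 < β) (hr : 10 ≤ r) (hκ : κ = β * r)
    (hc : 4.9619 * (1 + κ ^ 2) ≤ r) (hk1 : 0.3 ≤ κ) (hk2 : κ ≤ 1.39)
    {slo shi m E2 Em1 E3 Em2 W2 Wm1 W3 Wm2 a : ℝ} (hs0 : 0 ≤ slo) (hs1 : slo < shi) (hs2 : shi ≤ 1)
    (ha : 1 < a) (hm : 0 < m) (hE2 : 0 ≤ E2) (hEm1 : 0 ≤ Em1) (hE3 : 0 ≤ E3) (hEm2 : 0 ≤ Em2)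
    (hη : 1 < a * (1 - (Em2 + Em1 + E2 + E3)))
    (sm1 : 2 * Em2 * a ^ 5 + Em1 * a ^ 3 + 2 * E2 * a ^ 4 + 3 * E3 * a ^ 6 < 1)
    (sm2 : Wm2 * a ^ 5 + Wm1 * a ^ 3 + W2 * a ^ 4 + W3 * a ^ 6 <
      m * (1 - (2 * Em2 * a ^ 5 + Em1 * a ^ 3 + 2 * E2 * a ^ 4 + 3 * E3 * a ^ 6)))
    (win : ∀ t s h T, D6 β r t κ s h T → slo ≤ s → s ≤ shi → Win6 β r h t m E2 Em1 E3 Em2 W2 Wm1 W3 Wm2)
    (outL : ∀ t s h T, D6 β r t κ s h T → 0 ≤ s → s ≤ slo → oth6 β r h t + ‖Xf β r h t 0‖ < ‖Xf β r h t 1‖)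
    (outR : ∀ t s h T, D6 β r t κ s h T → shi ≤ s → s ≤ 1 → oth6 β r h t + ‖Xf β r h t 1‖ < ‖Xf β r h t 0‖) :
    Circ (2 * Real.pi * p / 6 + β) r := by
  have hr0 : 0 < r := by linarith
  obtain ⟨h, hh⟩ : ∃ h, h = Real.pi / 3 := ⟨_, rfl⟩
  have hh' : h = 2 * Real.pi / (6 : ℕ) := by rw [hh]; push_cast; ring
  have hh0 : 0 < h := by rw [hh]; have := Real.pi_pos; positivity
  obtain ⟨E, hE⟩ : ∃ E : ℤ → ℝ, E = fun k => if k = 2 then E2 else if k = -1 then Em1 else if k = 3 then E3 else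
    if k = -2 then Em2 else 0 := ⟨_, rfl⟩
  obtain ⟨W, hW⟩ : ∃ W : ℤ → ℝ, W = fun k => if k = 2 then W2 else if k = -1 then Wm1 else if k = 3 then W3 else
    if k = -2 then Wm2 else 0 := ⟨_, rfl⟩
  have E2' : E 2 = E2 := by rw [hE]; simp
  have Em1' : E (-1) = Em1 := by rw [hE]; simp
  have E3' : E 3 = E3 := by rw [hE]; simp
  have Em2' : E (-2) = Em2 := by rw [hE]; simp
  have W2' : W 2 = W2 := by rw [hW]; simp
  have Wm1' : W (-1) = Wm1 := by rw [hW]; simp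
  have W3' : W 3 = W3 := by rw [hW]; simp
  have Wm2' : W (-2) = Wm2 := by rw [hW]; simp
  have mk : ∀ t, D6 β r t κ ((t + κ) / h) h (r * h ^ 2 / (1 + κ ^ 2)) := by
    intro t
    refine ⟨hβ, hr, hκ, hh, hc, by field_simp, rfl, hk1, hk2⟩
  have wi : ∀ t, slo * h ≤ t + κ → t + κ ≤ shi * h → Win6 β r h t m E2 Em1 E3 Em2 W2 Wm1 W3 Wm2 := by
    intro t h1 h2
    exact win t _ h _ (mk t) (by rw [le_div_iff₀ hh0]; exact h1) (by rw [div_le_iff₀ hh0]; exact h2)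
  have sd2 : sd 2 = 1 := by unfold sd; simp
  have sd3 : sd 3 = 1 := by unfold sd; simp
  have sdm1 : sd (-1) = 0 := by unfold sd; simp
  have sdm2 : sd (-2) = 0 := by unfold sd; simp
  have key := circ_LW (p := p) (b := 6) (by norm_num) hp (β := β) (r := r) (h := h) (κ := κ) hr0 hh' (a0 := -2)
    (by norm_num) (by norm_num) (s0 := 0) (slo := slo) (shi := shi) (a := a) (m := m) (η := Em2 + Em1 + E2 + E3)
    (E := E) (W := W) hs1 ha hm hη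
    (fun t h1 h2 => (wi t h1 h2).x0)
    (by
      intro t h1 h2 k hk
      rcases mem_far6 hk with rfl | rfl | rfl | rfl
      · rw [Em2', sdm2]; exact (wi t h1 h2).em2
      · rw [Em1', sdm1]; exact (wi t h1 h2).em1
      · rw [E2', sd2]; exact (wi t h1 h2).e2
      · rw [E3', sd3]; exact (wi t h1 h2).e3)
    (by
      intro t h1 h2 k hk
      rcases mem_far6 hk with rfl | rfl | rfl | rfl
      · rw [Wm2', sdm2]; exact (wi t h1 h2).wm2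
      · rw [Wm1', sdm1]; exact (wi t h1 h2).wm1
      · rw [W2', sd2]; exact (wi t h1 h2).w2
      · rw [W3', sd3]; exact (wi t h1 h2).w3)
    (fun t h1 h2 => (wi t h1 h2).sl)
    (by rw [far6, Em2', Em1', E2', E3'])
    (by
      intro t h1 h2 h3
      rw [far6]
      have e0 : 0 ≤ (t + κ) / h := div_nonneg (by linarith) hh0.le
      have e1 : (t + κ) / h ≤ 1 := by rw [div_le_iff₀ hh0]; linarith
      rcases h3 with h3 | h3
      · have h4 := outL t _ h _ (mk t) e0 (by rw [div_le_iff₀ hh0]; exact h3.le)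
        unfold oth6 at h4
        refine lt_of_lt_of_le ?_ (le_abs_self _)
        linarith
      · have h4 := outR t _ h _ (mk t) (by rw [le_div_iff₀ hh0]; exact h3.le) e1
        unfold oth6 at h4
        refine lt_of_lt_of_le ?_ (neg_le_abs _)
        linarith)
    (by
      intro k
      rw [hE]
      dsimp only
      split_ifs <;> first | assumption | exact le_refl _)
    (by
      rw [far6, Em2', Em1', E2', E3']
      unfold pv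
      norm_num
      norm_num at sm1
      linarith [sm1])
    (by
      rw [far6, far6, Em2', Em1', E2', E3', Wm2', Wm1', W2', W3']
      unfold pv
      norm_num
      have e1 : a * (a ^ 2 * Wm2 * a ^ 2 + a * Wm1 * a + a * W2 * a ^ 2 + a ^ 2 * W3 * a ^ 3) =
        Wm2 * a ^ 5 + Wm1 * a ^ 3 + W2 * a ^ 4 + W3 * a ^ 6 := by ring
      have e2 : 2 * (a ^ 2 * Em2) * a ^ 3 + a * Em1 * a ^ 2 + 2 * (a * E2) * a ^ 3 + 3 * (a ^ 2 * E3) * a ^ 4 =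
        2 * Em2 * a ^ 5 + Em1 * a ^ 3 + 2 * E2 * a ^ 4 + 3 * E3 * a ^ 6 := by ring
      rw [e1, e2]
      exact sm2)
  push_cast at key
  exact key

end Sok
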