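import Pool.Agent.Lib.MP_816dec_an.R1B6B
import Pool.Agent.Lib.MP_816dec_an.JBG2

/-!
MP_816dec_an (A3, row R1-b6): tools for the generated cells.
-/

set_option autoImplicit false

open Complex Set Filter Topology Metric

namespace Sok

/-- a box of `κ` -/
structure BX6 (k1 k2 ψ ψ1 R0 β0 T0 β r κ T : ℝ) : Prop where
  hk1 : k1 ≤ κ
  hk2 : κ ≤ k2
  hψ : κ / (1 + κ ^ 2) ≤ ψ
  hψ1 : ψ1 ≤ κ / (1 + κ ^ 2)
  hR : R0 ≤ r
  hb : β ≤ β0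
  hT : T0 ≤ T

/-! ### `D` from a range of `y` -/

private theorem bil {a b c d y K y1 y2 K1 K2 : ℝ} (hy1 : y1 ≤ y) (hy2 : y ≤ y2) (hK1 : K1 ≤ K) (hK2 : K ≤ K2)
    (h11 : 0 ≤ a + b * y1 + c * K1 + d * (y1 * K1)) (h12 : 0 ≤ a + b * y1 + c * K2 + d * (y1 * K2))
    (h21 : 0 ≤ a + b * y2 + c * K1 + d * (y2 * K1)) (h22 : 0 ≤ a + b * y2 + c * K2 + d * (y2 * K2)) :
    0 ≤ a + b * y + c * K + d * (y * K) := by
  have lin : ∀ u v x x1 x2 : ℝ, x1 ≤ x → x ≤ x2 → 0 ≤ u + v * x1 → 0 ≤ u + v * x2 → 0 ≤ u + v * x := by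
    intro u v x x1 x2 g1 g2 g3 g4
    rcases le_total 0 v with h | h
    · have := mul_le_mul_of_nonneg_left g1 h
      linarith
    · have := mul_le_mul_of_nonpos_left g2 h
      linarith
  have e1 : 0 ≤ (a + b * y1) + (c + d * y1) * K := lin _ _ _ K1 K2 hK1 hK2 (by linarith) (by linarith)
  have e2 : 0 ≤ (a + b * y2) + (c + d * y2) * K := lin _ _ _ K1 K2 hK1 hK2 (by linarith) (by linarith)
  have e3 : 0 ≤ (a + c * K) + (b + d * K) * y := lin _ _ _ y1 y2 hy1 hy2 (by linarith) (by linarith)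
  linarith

/-- lower bound of `D`, tangent at `y0` -/
theorem D_lo6 {κ t : ℝ} (h : DomR κ t) (k1 k2 ya yb y0 e0 d : ℝ) (hk1 : k1 ≤ κ) (hk2 : κ ≤ k2) (hk0 : 0 ≤ k1)
    (hya : ya ≤ sy κ t) (hyb : sy κ t ≤ yb) (he0 : e0 ≤ Real.exp (-y0)) (he00 : 0 ≤ e0) (hy0 : yb - y0 ≤ 1 / 2)
    (h11 : d * (1 + k1 ^ 2) ≤ 1 + 2 * ya + k1 ^ 2 * (e0 ^ 2 * (1 - 2 * (ya - y0))))
    (h12 : d * (1 + k2 ^ 2) ≤ 1 + 2 * ya + k2 ^ 2 * (e0 ^ 2 * (1 - 2 * (ya - y0))))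
    (h21 : d * (1 + k1 ^ 2) ≤ 1 + 2 * yb + k1 ^ 2 * (e0 ^ 2 * (1 - 2 * (yb - y0))))
    (h22 : d * (1 + k2 ^ 2) ≤ 1 + 2 * yb + k2 ^ 2 * (e0 ^ 2 * (1 - 2 * (yb - y0)))) :
    d * (1 + κ ^ 2) ≤ sD κ t := by
  have hk := h.1
  obtain ⟨y, hy⟩ : ∃ y, y = sy κ t := ⟨_, rfl⟩
  rw [sD_eq2 h, ← hy]
  rw [← hy] at hya hyb
  have h1 : e0 ^ 2 * (1 - 2 * (y - y0)) ≤ Real.exp (-y) ^ 2 := by
    have e1 : Real.exp (-y) ^ 2 = Real.exp (-y0) ^ 2 * Real.exp (-(2 * (y - y0))) := by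
      rw [← Real.exp_nat_mul, ← Real.exp_nat_mul, ← Real.exp_add]
      congr 1
      push_cast; ring
    rw [e1]
    have h2 := Real.add_one_le_exp (-(2 * (y - y0)))
    apply mul_le_mul (pow_le_pow_left₀ he00 he0 2) (by linarith) (by linarith) (by positivity)
  have hK1 : k1 ^ 2 ≤ κ ^ 2 := pow_le_pow_left₀ hk0 hk1 2
  have hK2 : κ ^ 2 ≤ k2 ^ 2 := pow_le_pow_left₀ hk.le hk2 2
  have h3 := mul_le_mul_of_nonneg_left h1 (sq_nonneg κ)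
  have h4 := bil (a := 1 - d) (b := 2) (c := e0 ^ 2 * (1 + 2 * y0) - d) (d := -(2 * e0 ^ 2)) hya hyb hK1 hK2
    (by linarith) (by linarith) (by linarith) (by linarith)
  linarith

/-- upper bound of `D`, chord -/
theorem D_up6 {κ t : ℝ} (h : DomR κ t) (k1 k2 ya yb ea eb d : ℝ) (hk1 : k1 ≤ κ) (hk2 : κ ≤ k2) (hk0 : 0 ≤ k1)
    (hya : ya ≤ sy κ t) (hyb : sy κ t ≤ yb) (hab : ya < yb) (hea : Real.exp (-ya) ≤ ea) (heb : Real.exp (-yb) ≤ eb)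
    (h11 : 1 + 2 * ya + k1 ^ 2 * ea ^ 2 ≤ d * (1 + k1 ^ 2)) (h12 : 1 + 2 * ya + k2 ^ 2 * ea ^ 2 ≤ d * (1 + k2 ^ 2))
    (h21 : 1 + 2 * yb + k1 ^ 2 * eb ^ 2 ≤ d * (1 + k1 ^ 2)) (h22 : 1 + 2 * yb + k2 ^ 2 * eb ^ 2 ≤ d * (1 + k2 ^ 2)) :
    sD κ t ≤ d * (1 + κ ^ 2) := by
  have hk := h.1
  obtain ⟨y, hy⟩ : ∃ y, y = sy κ t := ⟨_, rfl⟩
  rw [sD_eq2 h, ← hy]
  rw [← hy] at hya hyb
  have hw : 0 < yb - ya := by linarith
  obtain ⟨θ, hθ⟩ : ∃ θ, θ = (y - ya) / (yb - ya) := ⟨_, rfl⟩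
  have hθ0 : 0 ≤ θ := by rw [hθ]; exact div_nonneg (by linarith) hw.le
  have hθ1 : θ ≤ 1 := by rw [hθ, div_le_one hw]; linarith
  have hyθ : y = (1 - θ) * ya + θ * yb := by rw [hθ]; field_simp; ring
  have h1 : Real.exp (-y) ^ 2 ≤ (1 - θ) * ea ^ 2 + θ * eb ^ 2 := by
    have hc := convexOn_exp.2 (mem_univ (-(2 * ya))) (mem_univ (-(2 * yb))) (by linarith : 0 ≤ 1 - θ) hθ0 (by ring)
    simp only [smul_eq_mul] at hc
    have e1 : (1 - θ) * -(2 * ya) + θ * -(2 * yb) = ((2 : ℕ) : ℝ) * (-y) := by rw [hyθ]; push_cast; ring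
    have e2 : Real.exp (-(2 * ya)) = Real.exp (-ya) ^ 2 := by
      rw [← Real.exp_nat_mul]; congr 1; push_cast; ring
    have e3 : Real.exp (-(2 * yb)) = Real.exp (-yb) ^ 2 := by
      rw [← Real.exp_nat_mul]; congr 1; push_cast; ring
    rw [e1, Real.exp_nat_mul, e2, e3] at hc
    refine hc.trans ?_
    apply add_le_add
    · exact mul_le_mul_of_nonneg_left (pow_le_pow_left₀ (Real.exp_pos _).le hea 2) (by linarith)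
    · exact mul_le_mul_of_nonneg_left (pow_le_pow_left₀ (Real.exp_pos _).le heb 2) hθ0
  have hK1 : k1 ^ 2 ≤ κ ^ 2 := pow_le_pow_left₀ hk0 hk1 2
  have hK2 : κ ^ 2 ≤ k2 ^ 2 := pow_le_pow_left₀ hk.le hk2 2
  have h3 := mul_le_mul_of_nonneg_left h1 (sq_nonneg κ)
  have h4 := bil (a := d - 1 - 2 * ya) (b := -(2 * (yb - ya))) (c := d - ea ^ 2) (d := ea ^ 2 - eb ^ 2) hθ0 hθ1 hK1 hK2
    (by linarith) (by linarith) (by linarith) (by linarith)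
  have e4 : 1 + 2 * y = 1 + 2 * ya + 2 * (yb - ya) * θ := by rw [hyθ]; ring
  rw [e4]
  linarith

/-! ### exponents -/

theorem V1lo6 {κ t : ℝ} (h : DomR κ t) (γ τ1 τm c q C : ℝ) (hτ1 : 0 ≤ τ1) (h0 : τ1 ≤ t + κ) (h1 : t + κ ≤ τm)
    (hk3 : κ ^ 2 ≤ 3) (hc : c = κ * (1 / 2 - κ ^ 2 / 6)) (hq : c ≤ q * (1 + κ ^ 2)) (hγ0 : 0 ≤ γ)
    (hγ : γ * (1 + κ ^ 2) ^ 2 + 9 / 2 * q ^ 2 * τm ≤ c) (hC : 1 / 2 - γ * τ1 ≤ C) :
    1 - C * (t + κ) ^ 2 / (1 + κ ^ 2) ≤ sE κ t := by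
  have h2 := V1_lo h γ τm c q (by linarith) h1 hk3 hc hq hγ
  refine le_trans ?_ h2
  have hA : 0 < 1 + κ ^ 2 := by have := h.1; positivity
  have h3 : (1 / 2 - γ * (t + κ)) * (t + κ) ^ 2 / (1 + κ ^ 2) ≤ C * (t + κ) ^ 2 / (1 + κ ^ 2) := by
    apply div_le_div_of_nonneg_right _ hA.le
    apply mul_le_mul_of_nonneg_right _ (sq_nonneg _)
    have := mul_le_mul_of_nonneg_left h0 hγ0
    linarith
  linarith

/-! ### quadratic forms in `s` -/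

theorem qA {c C s s2 a q : ℝ} (hc : 0 ≤ c) (hC : 0 ≤ C) (hs0 : 0 ≤ s) (hs : s ≤ s2) (ha : s2 + a ≤ 0)
    (hq : q ≤ c * (s2 + a) ^ 2 - C * s2 ^ 2) : q ≤ c * (s + a) ^ 2 - C * s ^ 2 := by
  have h1 : (s2 + a) ^ 2 ≤ (s + a) ^ 2 := by
    have := pow_le_pow_left₀ (by linarith : 0 ≤ -(s2 + a)) (by linarith : -(s2 + a) ≤ -(s + a)) 2
    calc (s2 + a) ^ 2 = (-(s2 + a)) ^ 2 := by ring
      _ ≤ (-(s + a)) ^ 2 := this
      _ = (s + a) ^ 2 := by ring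
  have h2 : s ^ 2 ≤ s2 ^ 2 := pow_le_pow_left₀ hs0 hs 2
  have h3 := mul_le_mul_of_nonneg_left h1 hc
  have h4 := mul_le_mul_of_nonneg_left h2 hC
  linarith

theorem qB {c C s s' s1 s2 a q : ℝ} (hc : 0 ≤ c) (hC : 0 ≤ C) (hs1 : s1 ≤ s) (hs2 : s ≤ s2) (hs' : s ≤ s') (ha : 0 ≤ s1 + a)
    (hcond : C * (s1 + s2) ≤ c * (2 * s1 + 2 * a)) (hq : q ≤ c * (s1 + a) ^ 2 - C * s1 ^ 2) :
    q ≤ c * (s' + a) ^ 2 - C * s ^ 2 := by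
  have h1 : (s + a) ^ 2 ≤ (s' + a) ^ 2 := pow_le_pow_left₀ (by linarith) (by linarith) 2
  have h2 := mul_le_mul_of_nonneg_left h1 hc
  have h3 : 0 ≤ (s - s1) * (c * (2 * s1 + 2 * a) - C * (s1 + s2)) := mul_nonneg (by linarith) (by linarith)
  have h4 : 0 ≤ c * (s - s1) ^ 2 := mul_nonneg hc (sq_nonneg _)
  have h5 : 0 ≤ C * ((s - s1) * (s2 - s)) := mul_nonneg hC (mul_nonneg (by linarith) (by linarith))
  nlinarith

theorem qC {c C s s' s1 s2 a b q : ℝ} (hc : 0 ≤ c) (hC : 0 ≤ C) (hs1 : s1 ≤ s) (hs2 : s ≤ s2) (hs' : s' ≤ s + b)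
    (ha : s2 + b + a ≤ 0) (hcond : C * (2 - s1 - s2) ≤ c * (-2 * (a + b) - 2 * s2))
    (hq : q ≤ c * (s2 + b + a) ^ 2 - C * (s2 - 1) ^ 2) :
    q ≤ c * (s' + a) ^ 2 - C * (s - 1) ^ 2 := by
  have h1 : (s + b + a) ^ 2 ≤ (s' + a) ^ 2 := by
    have := pow_le_pow_left₀ (by linarith : 0 ≤ -(s + b + a)) (by linarith : -(s + b + a) ≤ -(s' + a)) 2
    calc (s + b + a) ^ 2 = (-(s + b + a)) ^ 2 := by ring
      _ ≤ (-(s' + a)) ^ 2 := this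
      _ = (s' + a) ^ 2 := by ring
  have h2 := mul_le_mul_of_nonneg_left h1 hc
  have h3 : 0 ≤ (s2 - s) * (c * (-2 * (a + b) - 2 * s2) - C * (2 - s1 - s2)) := mul_nonneg (by linarith) (by linarith)
  have h4 : 0 ≤ c * (s2 - s) ^ 2 := mul_nonneg hc (sq_nonneg _)
  have h5 : 0 ≤ C * ((s2 - s) * (s - s1)) := mul_nonneg hC (mul_nonneg (by linarith) (by linarith))
  nlinarith

theorem qD {c C s s1 a q : ℝ} (hc : 0 ≤ c) (hC : 0 ≤ C) (hs1 : s1 ≤ s) (hs : s ≤ 1) (ha : 0 ≤ s1 + a)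
    (hq : q ≤ c * (s1 + a) ^ 2 - C * (s1 - 1) ^ 2) : q ≤ c * (s + a) ^ 2 - C * (s - 1) ^ 2 := by
  have h1 : (s1 + a) ^ 2 ≤ (s + a) ^ 2 := pow_le_pow_left₀ ha (by linarith) 2
  have h2 : (s - 1) ^ 2 ≤ (s1 - 1) ^ 2 := by
    have := pow_le_pow_left₀ (by linarith : 0 ≤ 1 - s) (by linarith : 1 - s ≤ 1 - s1) 2
    calc (s - 1) ^ 2 = (1 - s) ^ 2 := by ring
      _ ≤ (1 - s1) ^ 2 := this
      _ = (s1 - 1) ^ 2 := by ring
  have h3 := mul_le_mul_of_nonneg_left h1 hc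
  have h4 := mul_le_mul_of_nonneg_left h2 hC
  linarith

/-! ### angles -/

theorem rgR {h s s1 s2 a τ1 τm : ℝ} (h1 : 1.047197 ≤ h) (h2 : h ≤ 1.047198) (hs1 : s1 ≤ s) (hs2 : s ≤ s2)
    (ha : 0 ≤ s1 + a) (hτ1 : τ1 ≤ (s1 + a) * 1.047197) (hτm : (s2 + a) * 1.047198 ≤ τm) :
    τ1 ≤ (s + a) * h ∧ (s + a) * h ≤ τm := by
  norm_num at h1 h2
  constructor
  · refine hτ1.trans ?_
    apply mul_le_mul (by linarith) (by norm_num; linarith) (by norm_num) (by linarith)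
  · refine le_trans ?_ hτm
    apply mul_le_mul (by linarith) (by norm_num; linarith) (by linarith) (by linarith)

theorem rgL {h s s1 s2 a b1 b2 : ℝ} (h1 : 1.047197 ≤ h) (h2 : h ≤ 1.047198) (hs1 : s1 ≤ s) (hs2 : s ≤ s2)
    (ha : s2 + a ≤ 0) (hb1 : b1 ≤ -(s2 + a) * 1.047197) (hb2 : -(s1 + a) * 1.047198 ≤ b2) :
    b1 ≤ -((s + a) * h) ∧ -((s + a) * h) ≤ b2 := by
  norm_num at h1 h2
  have e : -((s + a) * h) = -(s + a) * h := by ring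
  rw [e]
  constructor
  · refine hb1.trans ?_
    apply mul_le_mul (by linarith) (by norm_num; linarith) (by norm_num) (by linarith)
  · refine le_trans ?_ hb2
    apply mul_le_mul (by linarith) (by norm_num; linarith) (by linarith) (by linarith)

theorem gA {C s s2 g2 : ℝ} (hC : 0 ≤ C) (hs0 : 0 ≤ s) (hs : s ≤ s2) (hg : C * s2 ^ 2 ≤ g2) : C * s ^ 2 ≤ g2 :=
  (mul_le_mul_of_nonneg_left (pow_le_pow_left₀ hs0 hs 2) hC).trans hg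

theorem gD {C s s1 g2 : ℝ} (hC : 0 ≤ C) (hs1 : s1 ≤ s) (hs : s ≤ 1) (hg : C * (s1 - 1) ^ 2 ≤ g2) : C * (s - 1) ^ 2 ≤ g2 := by
  refine le_trans ?_ hg
  apply mul_le_mul_of_nonneg_left _ hC
  have := pow_le_pow_left₀ (by linarith : 0 ≤ 1 - s) (by linarith : 1 - s ≤ 1 - s1) 2
  calc (s - 1) ^ 2 = (1 - s) ^ 2 := by ring
    _ ≤ (1 - s1) ^ 2 := this
    _ = (s1 - 1) ^ 2 := by ring

theorem D6.bh {β r t κ s h T β0 b : ℝ} (H : D6 β r t κ s h T) (hb : β ≤ β0) (hb0 : β0 ≤ b * 1.047197) :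
    s ≤ s + β / h ∧ s + β / h ≤ s + b := by
  have h0 := H.h0
  have hβ := H.hβ
  have hbp : 0 ≤ b := by
    have : 0 < b * 1.047197 := by linarith
    by_contra hc
    have h1 := mul_nonpos_of_nonpos_of_nonneg (not_le.1 hc).le (by norm_num : (0:ℝ) ≤ 1.047197)
    linarith
  constructor
  · have : 0 ≤ β / h := by positivity
    linarith
  · have : β / h ≤ b := by
      rw [div_le_iff₀ h0]
      have h1 := mul_le_mul_of_nonneg_left H.h1 hbp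
      linarith
    linarith

end Sok
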