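import Pool.Agent.Lib.MP_816dec_an.R1FarH
import Pool.Agent.Lib.MP_816dec_an.R1BK2D

/-!
MP_816dec_an (A3, row R1, `b ≥ 9`): far copies on the right (`k ≥ 3`) on the outer segment.
-/

set_option autoImplicit false

open Complex Set Filter Topology Metric

namespace Sok

section facts

variable {T0 : ℝ} {b : ℕ} {h κ R t T s z : ℝ}

/-- `HUMP` is tiny for `κ ≤ 1`, `t_k ≤ π + 0.371 - κ` -/
theorem QD.hump1d (Q : QD T0 b h κ R t T s z) {β tk : ℝ} (hβ : β = κ / R) (hk : κ ≤ 1)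
    (ht : tk ≤ Real.pi + 0.371 - κ) : HUMP β R tk ≤ 1 / 1000 := by
  have hpi := Real.pi_gt_d2
  have h1 := Q.bR
  have h0 := Q.Rpos
  have hκ := Q.kpos
  have hβR : β * R = κ := by rw [hβ]; field_simp
  have hβ0 : 0 < β := by rw [hβ]; positivity
  rw [← hβ] at h1
  unfold HUMP
  rw [hβR]
  have he := Real.exp_one_lt_d9
  have hm : max 0 (Real.exp 1 * κ - 1) ≤ 0.72 + κ := by
    apply max_le (by linarith)
    nlinarith [Real.exp_pos 1]
  have h2 : 9 ≤ (3 * Real.pi / 2 - tk - max 0 (Real.exp 1 * κ - 1)) / β := by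
    rw [le_div_iff₀ hβ0]
    linarith
  have h3 := exp_num' 9 (f := 0) le_rfl (by simpa using h2) (y := 0.36788 ^ 9) (by norm_num)
  have h4 := Real.exp_pos (-((3 * Real.pi / 2 - tk - max 0 (Real.exp 1 * κ - 1)) / β))
  calc _ ≤ 1.0481 * 0.36788 ^ 9 := mul_le_mul (by linarith) h3 h4.le (by norm_num)
    _ ≤ 1 / 1000 := by norm_num

/-- `HUMP` in general, `t_k ≤ π + 0.371 - κ` -/
theorem QD.hump3d (Q : QD T0 b h κ R t T s z) {β tk : ℝ} (hβ : β = κ / R) (hk : 1 ≤ κ) (hk2 : κ ≤ 1.39)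
    (ht : tk ≤ Real.pi + 0.371 - κ) : HUMP β R tk ≤ 1.05 * Real.exp (0.21 * R) := by
  have hpi := Real.pi_gt_d2
  have h1 := Q.bR
  have h0 := Q.Rpos
  have hκ := Q.kpos
  have hβR : β * R = κ := by rw [hβ]; field_simp
  have hβ0 : 0 < β := by rw [hβ]; positivity
  rw [← hβ] at h1
  unfold HUMP
  rw [hβR]
  have he := Real.exp_one_lt_d9
  have hm : max 0 (Real.exp 1 * κ - 1) ≤ 2.7183 * κ - 1 := by
    apply max_le (by linarith)
    nlinarith [Real.exp_pos 1]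
  have h2 : -((3 * Real.pi / 2 - tk - max 0 (Real.exp 1 * κ - 1)) / β) ≤ 0.21 * R := by
    have h3 : 3 * Real.pi / 2 - tk - max 0 (Real.exp 1 * κ - 1) ≥ -(0.21 * κ) := by linarith
    have h4 : -(0.21 * κ) / β ≤ (3 * Real.pi / 2 - tk - max 0 (Real.exp 1 * κ - 1)) / β :=
      div_le_div_of_nonneg_right h3 hβ0.le
    have h5 : -(0.21 * κ) / β = -(0.21 * R) := by
      rw [← hβR]; field_simp
    linarith
  exact mul_le_mul (by linarith) (Real.exp_le_exp.2 h2) (Real.exp_pos _).le (by norm_num)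

/-- position of the copies -/
theorem QD.tk_led (Q : QD T0 b h κ R t T s z) {n : ℕ} (hn : 2 * (n : ℝ) + 5 ≤ b) (hs : s ≤ 1.03) :
    (n + 2 + s) * h - κ ≤ Real.pi + 0.371 - κ := by
  have h1 := Q.hbz
  have h0 := Q.h0
  have hle := Q.hle
  have h2 : (b : ℝ) * h = 2 * Real.pi := by
    rw [← h1, mul_assoc, Q.hz, mul_one]
  have h3 := mul_le_mul_of_nonneg_right hn h0.le
  rw [h2] at h3
  have h4 : (s - 1 / 2) * h ≤ 0.371 := by
    rcases le_total s (1 / 2) with h5 | h5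
    · nlinarith only [h5, h0]
    · nlinarith only [h5, h0, hle, hs]
  linarith only [h3, h4]

/-- bound of `1 / max G₀ G₁` on the outer segment -/
theorem QD.inv_max (Q : QD 5.44 b h κ R t T s z) {β G0 G1 c : ℝ} (hβ : β = κ / R) (hk : κ ≤ 1.39)
    (hs0 : 0.03 ≤ s) (hs : s ≤ 1.03) (h0 : 0.95 * sQ β κ (t - h) ≤ G0) (h1 : 0.95 * sQ β κ t ≤ G1)
    (hd1 : s ≤ 0.85 → sD κ t ≤ (0.95 * c) ^ 4) (hd0 : 1.05 * (1 + κ ^ 2) ≤ (0.95 * c) ^ 4) (hc : 0 ≤ c) :
    0 < max G0 G1 ∧ ∃ g : ℝ, (max G0 G1)⁻¹ ≤ c * Real.exp (-R + T * g) ∧ g + 1.5 * s ≤ 1.63625 ∧ g ≤ 0.36125 ∧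
      g - s ≤ -0.0295 := by
  have hκ := Q.kpos
  have hR := Q.Rpos
  have hT := Q.Tpos
  have hA := Q.A1
  have dd1 := Q.dom1 (by linarith) hs
  have dd0 := Q.dom0 hs0 hs
  have hβ0 : 0 < β := by rw [hβ]; positivity
  have hkβ : κ / β = R := by rw [hβ]; field_simp
  have hD1 := sD_pos dd1
  have hD0 := sD_pos dd0
  have hG1 : 0 < G1 := lt_of_lt_of_le (mul_pos (by norm_num) (sQ_pos dd1)) h1
  have hG0 : 0 < G0 := lt_of_lt_of_le (mul_pos (by norm_num) (sQ_pos dd0)) h0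
  have hc95 : 0 ≤ 0.95 * c := by positivity
  have e95 : 0.95 * c / 0.95 = c := by field_simp
  refine ⟨lt_of_lt_of_le hG1 (le_max_right _ _), ?_⟩
  rcases le_total s 0.85 with h85 | h85
  · have v1 := Q.V1_ge dd1 (by linarith)
    unfold sQ at h1
    rw [hkβ] at h1
    have r3 : G1⁻¹ ≤ 0.95 * c / 0.95 * Real.exp (-R + T * (s ^ 2 / 2)) := by
      apply inv_G_le (by norm_num) hD1 h1 (hd1 h85) hc95
      linarith
    rw [e95] at r3
    refine ⟨s ^ 2 / 2, (inv_anti₀ hG1 (le_max_right _ _)).trans r3, ?_, ?_, ?_⟩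
    · nlinarith
    · nlinarith
    · nlinarith
  · have hle := Q.hle
    have hh := Q.h0
    have e : t - h + κ = (s - 1) * h := by rw [Q.ht]; ring
    have hlo : -0.105 ≤ t - h + κ := by rw [e]; nlinarith
    have hhi : t - h + κ ≤ 0.021 := by rw [e]; nlinarith
    have v0 := V0_low dd0 hk (by linarith)
    have hd := (D0_up dd0 hk hlo hhi).1
    rw [e] at v0
    have v1 := mul_le_mul_of_nonneg_left v0 hR.le
    have e2 := Q.conv 1 (s - 1)
    rw [one_mul, one_mul] at e2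
    rw [mul_sub, mul_one, e2] at v1
    unfold sQ at h0
    rw [hkβ] at h0
    have r3 : G0⁻¹ ≤ 0.95 * c / 0.95 * Real.exp (-R + T * (s - 1) ^ 2) := by
      apply inv_G_le (by norm_num) hD0 h0 (hd.trans hd0) hc95
      exact v1
    rw [e95] at r3
    refine ⟨(s - 1) ^ 2, (inv_anti₀ hG0 (le_max_left _ _)).trans r3, ?_, ?_, ?_⟩
    · nlinarith
    · nlinarith
    · nlinarith

end facts

theorem exp_mul_leO {T x g E : ℝ} (hT : 5.44 ≤ T) (hE : 0 ≤ E) (hx : x + g ≤ -E) :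
    Real.exp (T * x) * Real.exp (T * g) ≤ Real.exp (-(5.44 * E)) := by
  rw [← Real.exp_add, ← mul_add]
  apply Real.exp_le_exp.2
  have h1 : T * (x + g) ≤ T * (-E) := mul_le_mul_of_nonneg_left hx (by linarith)
  nlinarith

theorem exp_geoO {x y : ℝ} (m : ℕ) (hxy : Real.exp (-(5.44 * x)) ≤ y) (hy : 0 ≤ y) :
    Real.exp (-(5.44 * (x + m))) ≤ y * 0.00435 ^ m := by
  have h1 : Real.exp (-5.44) ≤ 0.00435 := exp_num' 5 (f := 0.44) (by norm_num) (by norm_num) (by norm_num)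
  have e1 : -(5.44 * (x + m)) = -(5.44 * x) + (m : ℝ) * (-5.44) := by ring
  rw [e1, Real.exp_add, Real.exp_nat_mul]
  exact mul_le_mul hxy (pow_le_pow_left₀ (Real.exp_pos _).le h1 m) (by positivity) hy

theorem prod_RO {x M R c a T g : ℝ} (hM : 0 < M) (hx : x ≤ Real.exp R * a) (ha : 0 ≤ a)
    (hW : M⁻¹ ≤ c * Real.exp (-R + T * g)) (hc : 0 ≤ c) {y : ℝ} (hy : c * (a * Real.exp (T * g)) ≤ y) :
    x ≤ y * M := by
  have h1 : Real.exp R * Real.exp (-R + T * g) = Real.exp (T * g) := by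
    rw [← Real.exp_add]; congr 1; ring
  have h2 : x * M⁻¹ ≤ y := by
    calc x * M⁻¹ ≤ (Real.exp R * a) * M⁻¹ := mul_le_mul_of_nonneg_right hx (inv_nonneg.2 hM.le)
      _ ≤ (Real.exp R * a) * (c * Real.exp (-R + T * g)) :=
          mul_le_mul_of_nonneg_left hW (mul_nonneg (Real.exp_pos _).le ha)
      _ = c * (a * (Real.exp R * Real.exp (-R + T * g))) := by ring
      _ ≤ y := by rw [h1]; exact hy
  rwa [← div_eq_mul_inv, div_le_iff₀ hM] at h2

/-- the numbers of a box on the right, outer segment -/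
structure NumO (k1 k2 w2 G pf al X o δ oc c : ℝ) : Prop where
  hc : 0 ≤ c
  hd1 : k2 ≤ 1 ∧ 1 + k2 ^ 2 + 2 * (w2 * 0.85) * (1 - k1 ^ 2) + 2 * k2 ^ 2 * (w2 * 0.85) ^ 2 ≤ (0.95 * c) ^ 4 ∨
    1 ≤ k1 ∧ 1 + k2 ^ 2 + 2 * k2 ^ 2 * (w2 * 0.85) ^ 2 ≤ (0.95 * c) ^ 4
  hd0 : 1.05 * (1 + k2 ^ 2) ≤ (0.95 * c) ^ 4
  hA : ∃ e1 e2 e3 : ℝ, 0 ≤ 2.0295 - (1 + G) / 2 ∧ Real.exp (-(5.44 * (2.0295 - (1 + G) / 2))) ≤ e1 ∧
    0 ≤ 2.0295 - X ∧ Real.exp (-(5.44 * (2.0295 - X))) ≤ e2 ∧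
    0 ≤ 0.97 * (1 + k1 ^ 2) * 2.05174 - 0.36125 ∧
    Real.exp (-(5.44 * (0.97 * (1 + k1 ^ 2) * 2.05174 - 0.36125))) ≤ e3 ∧
    c * (pf * e1 + al * (1 + w2) * e2 + al * o * e3) ≤ 1 / 300
  hao : c * (al * o) ≤ 2.5
  hC : ∃ e4 : ℝ, Real.exp (-(5.44 * ((0.97 - δ) * (1 + k1 ^ 2) * 2.05174 - 0.36125))) ≤ e4 ∧
    c * (al * oc * e4) ≤ 1 / 1000
  hC0 : 0 ≤ (0.97 - δ) * (1 + k1 ^ 2) * 2.05174 - 0.36125
  hC1 : 0.9871 ≤ (0.97 - δ) * (1 + k1 ^ 2)

/-- the numbers `Mfar (n + 3) / 3` dominate the two geometric sequences -/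
theorem Mfar_geoO (m : ℕ) : 4 / 100000 * 0.00435 ^ m ≤ 1 / 3 * Mfar (((m + 1 : ℕ) : ℤ) + 3) := by
  rcases m with _ | _ | m
  · rw [show ((0 + 1 : ℕ)) = 1 from rfl, Mfar_4]; norm_num
  · rw [show ((0 + 1 + 1 : ℕ)) = 2 from rfl, Mfar_5]; norm_num
  · rw [Mfar_ge m]
    have h1 : (0.00435 : ℝ) ^ (m + 1 + 1) = 0.00435 ^ 2 * 0.00435 ^ m := by ring
    have h2 : (0.00435 : ℝ) ^ m ≤ (1 / 4) ^ m := pow_le_pow_left₀ (by norm_num) (by norm_num) m
    rw [h1]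
    have h3 : (0 : ℝ) < (1 / 4) ^ m := by positivity
    linarith only [h2, h3]

section boxr

variable {b : ℕ} {h κ R t T s z : ℝ} {k1 k2 s2 ψ w2 E P1 q cm G pf al X kR iR : ℝ}

theorem BoxR.hump_UDd (B : BoxR k1 k2 s2 ψ w2 E P1 q cm G pf al X kR iR) {T0 : ℝ} (Q : QD T0 b h κ R t T s z)
    (h1 : k1 ≤ κ) (h2 : κ ≤ k2) (hk : κ ≤ 1.39) {β : ℝ} (hβ : β = κ / R) {hu δ : ℝ}
    (hhu : k2 ≤ 1 ∧ 1 / 1000 ≤ hu ∨ 1.05 ≤ hu)
    (hδ : k2 ≤ 1 ∧ δ = 0.05 ∨ δ = 0.21 ∧ 1.05 ≤ hu ∧ 1 ≤ k1) {tk : ℝ}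
    (ht : tk ≤ Real.pi + 0.371 - κ) : HUMP β R tk ≤ hu * Real.exp (R * δ) := by
  rcases hδ with ⟨h3, h4⟩ | ⟨h3, h4, h5⟩
  · have h5 := Q.hump1d hβ (h2.trans h3) ht
    have h6 : 1 ≤ Real.exp (R * δ) := Real.one_le_exp (mul_nonneg Q.Rpos.le (by rw [h4]; norm_num))
    have h7 : 1 / 1000 ≤ hu := by
      rcases hhu with ⟨_, h8⟩ | h8
      · exact h8
      · linarith only [h8]
    nlinarith only [h5, h6, h7]
  · have h6 := Q.hump3d hβ (h5.trans h1) hk ht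
    rw [h3, mul_comm R]
    exact h6.trans (mul_le_mul_of_nonneg_right h4 (Real.exp_pos _).le)

/-- horizontal line -/
theorem BoxR.rightO (B : BoxR k1 k2 s2 ψ w2 E P1 q cm G pf al X kR iR) (Q : QD 5.44 b h κ R t T s z)
    (h1 : k1 ≤ κ) (h2 : κ ≤ k2) {β : ℝ} (hβ : β = κ / R) (hs0 : 0.03 ≤ s)
    {hu o δ oc c : ℝ} (hhu : k2 ≤ 1 ∧ 1 / 1000 ≤ hu ∨ 1.05 ≤ hu) (ho : kR / 3 + 3.1416 * iR + w2 + kR + hu ≤ o)
    (ho0 : 0 ≤ o) (N : NumO k1 k2 w2 G pf al X o δ oc c) {M g : ℝ} (hM : 0 < M)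
    (hW : M⁻¹ ≤ c * Real.exp (-R + T * g)) (hg1 : g ≤ 0.36125) (hg2 : g - s ≤ -0.0295)
    (n : ℕ) (ht : ((n : ℝ) + 2 + s) * h - κ ≤ Real.pi / 2) :
    ‖Xf β R h t ((n : ℤ) + 3)‖ ≤ 1 / 3 * Mfar ((n : ℤ) + 3) * M := by
  have hz2 := Q.zz
  have hk1 := B.k1p
  have hal := B.hal0
  have hpf := B.hpf0
  have hw20 := B.w20
  have hT := Q.hT
  have hc := N.hc
  obtain ⟨e1, e2, e3, ha1, ha1', ha2, ha2', ha3, ha3', hA⟩ := N.hA
  have he1 : 0 ≤ e1 := (Real.exp_pos _).le.trans ha1'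
  have he2 : 0 ≤ e2 := (Real.exp_pos _).le.trans ha2'
  have he3 : 0 ≤ e3 := (Real.exp_pos _).le.trans ha3'
  have hkk : k1 ^ 2 ≤ κ ^ 2 := pow_le_pow_left₀ (by linarith only [hk1]) h1 2
  have hY : 0.97 * (1 + k1 ^ 2) * 2.05174 ≤ 0.97 * (1 + κ ^ 2) * z ^ 2 :=
    mul_le_mul (by linarith only [hkk]) hz2 (by norm_num) (by positivity)
  rcases n with _ | m
  · have key := B.HU Q h1 h2 hβ 0 (by linarith only [hs0]) ht (B.hump_HU Q h2 hβ hhu ht) ho hY
    refine prod_RO hM key (by positivity) hW hc ?_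
    rw [Mfar_3]
    have x1 := exp_mul_leO (x := -((0 : ℕ) + 2 + s) + (1 + G) / 2) (g := g) hT ha1
      (by push_cast; linarith only [hg2])
    have x2 := exp_mul_leO (x := X - ((0 : ℕ) + 2 + s)) (g := g) hT ha2 (by push_cast; linarith only [hg2])
    have x3 := exp_mul_leO (x := -(0.97 * (1 + k1 ^ 2) * 2.05174)) (g := g) hT ha3 (by linarith only [hg1])
    have y1 := mul_le_mul_of_nonneg_left (x1.trans ha1') hpf
    have y2 := mul_le_mul_of_nonneg_left (x2.trans ha2') (by positivity : 0 ≤ al * (1 + w2))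
    have y3 := mul_le_mul_of_nonneg_left (x3.trans ha3') (by positivity : 0 ≤ al * o)
    have e : -(T * (0.97 * (1 + k1 ^ 2) * 2.05174)) = T * (-(0.97 * (1 + k1 ^ 2) * 2.05174)) := by ring
    rw [e]
    have hA' : c * (pf * e1 + al * (1 + w2) * e2 + al * o * e3) ≤ 1 / 3 * (1 / 100) := by linarith only [hA]
    refine le_trans (mul_le_mul_of_nonneg_left ?_ hc) hA'
    rw [add_mul, add_mul, mul_assoc pf, mul_assoc (al * (1 + w2)), mul_assoc (al * o)]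
    exact add_le_add (add_le_add y1 y2) y3
  · have hm0 : (0 : ℝ) ≤ m := Nat.cast_nonneg m
    have hY : 2.56 + (m : ℝ) ≤ 0.97 * (1 + κ ^ 2) * z ^ 2 := by
      have h3 := Q.Az2 (m + 1) (by linarith only [hs0]) ht
      push_cast at h3
      have h4 : 9.18 + 6 * (m : ℝ) ≤ ((m : ℝ) + 1 + 2 + s) ^ 2 := by
        nlinarith only [mul_nonneg hm0 (by linarith only [hs0] : (0:ℝ) ≤ s), hs0, hm0, sq_nonneg (m : ℝ)]
      linarith only [h3, h4, hm0]
    have key := B.HU Q h1 h2 hβ (m + 1) (by linarith only [hs0]) ht (B.hump_HU Q h2 hβ hhu ht) ho hY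
    refine prod_RO hM key (by positivity) hW hc ?_
    refine le_trans ?_ (Mfar_geoO m)
    have x1 := exp_mul_leO (x := -((m + 1 : ℕ) + 2 + s) + (1 + G) / 2) (g := g)
      (E := 2.0295 - (1 + G) / 2 + ((m + 1 : ℕ) : ℝ)) hT (by positivity) (by push_cast; linarith only [hg2])
    have x2 := exp_mul_leO (x := X - ((m + 1 : ℕ) + 2 + s)) (g := g)
      (E := 2.0295 - X + ((m + 1 : ℕ) : ℝ)) hT (by positivity) (by push_cast; linarith only [hg2])
    have x3 := exp_mul_leO (x := -(2.56 + (m : ℝ))) (g := g) (E := 2.19875 + m) hT (by positivity)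
      (by linarith only [hg1])
    have z1 := x1.trans (exp_geoO (m + 1) ha1' he1)
    have z2 := x2.trans (exp_geoO (m + 1) ha2' he2)
    have z3 := x3.trans (exp_geoO m (exp_num' 11 (f := 0.9612) (y := 0.0000066) (by norm_num) (by norm_num) (by norm_num))
      (by norm_num))
    have y1 := mul_le_mul_of_nonneg_left z1 hpf
    have y2 := mul_le_mul_of_nonneg_left z2 (by positivity : 0 ≤ al * (1 + w2))
    have y3 := mul_le_mul_of_nonneg_left z3 (by positivity : 0 ≤ al * o)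
    have e : -(T * (2.56 + (m : ℝ))) = T * (-(2.56 + (m : ℝ))) := by ring
    rw [e]
    have hq0 : (0 : ℝ) ≤ 0.00435 ^ m := by positivity
    have hA' : c * (pf * e1 + al * (1 + w2) * e2) ≤ 1 / 300 := by
      refine le_trans (mul_le_mul_of_nonneg_left ?_ hc) hA
      have : 0 ≤ al * o * e3 := by positivity
      linarith only [this]
    have hao := N.hao
    calc c * ((pf * Real.exp (T * (-((m + 1 : ℕ) + 2 + s) + (1 + G) / 2)) +
          al * (1 + w2) * Real.exp (T * (X - ((m + 1 : ℕ) + 2 + s))) +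
          al * o * Real.exp (T * (-(2.56 + (m : ℝ))))) * Real.exp (T * g))
        ≤ c * (pf * (e1 * 0.00435 ^ (m + 1)) + al * (1 + w2) * (e2 * 0.00435 ^ (m + 1)) +
          al * o * (0.0000066 * 0.00435 ^ m)) := by
          apply mul_le_mul_of_nonneg_left _ hc
          rw [add_mul, add_mul, mul_assoc pf, mul_assoc (al * (1 + w2)), mul_assoc (al * o)]
          exact add_le_add (add_le_add y1 y2) y3
      _ = (c * (pf * e1 + al * (1 + w2) * e2) * 0.00435 + c * (al * o) * 0.0000066) * 0.00435 ^ m := by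
          ring
      _ ≤ 4 / 100000 * 0.00435 ^ m := by
          apply mul_le_mul_of_nonneg_right _ hq0
          linarith only [hA', hao]

/-- left half plane -/
theorem BoxR.rightOC (B : BoxR k1 k2 s2 ψ w2 E P1 q cm G pf al X kR iR) (Q : QD 5.44 b h κ R t T s z)
    (h1 : k1 ≤ κ) (h2 : κ ≤ k2) (hk : κ ≤ 1.39) {β : ℝ} (hβ : β = κ / R) (hs : s ≤ 1.03)
    {hu o δ oc c : ℝ} (hhu : k2 ≤ 1 ∧ 1 / 1000 ≤ hu ∨ 1.05 ≤ hu)
    (hδ : k2 ≤ 1 ∧ δ = 0.05 ∨ δ = 0.21 ∧ 1.05 ≤ hu ∧ 1 ≤ k1)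
    (hoc : kR / δ + δ + 3.1416 * iR + 1 + kR + hu ≤ oc) (hoc0 : 0 ≤ oc)
    (N : NumO k1 k2 w2 G pf al X o δ oc c) {M g : ℝ} (hM : 0 < M)
    (hW : M⁻¹ ≤ c * Real.exp (-R + T * g)) (hg1 : g ≤ 0.36125)
    (n : ℕ) (hn : 2 * n + 5 ≤ b) (ht : Real.pi / 2 < ((n : ℝ) + 2 + s) * h - κ) :
    ‖Xf β R h t ((n : ℤ) + 3)‖ ≤ 1 / 3 * Mfar ((n : ℤ) + 3) * M := by
  have hal := B.hal0
  have hk1 := B.k1p
  have hpi := Real.pi_gt_d2
  have hκ := Q.k0
  have hT := Q.hT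
  have hc := N.hc
  have hC0 := N.hC0
  have hC1 := N.hC1
  obtain ⟨e4, he4, hC⟩ := N.hC
  have he40 : 0 ≤ e4 := (Real.exp_pos _).le.trans he4
  have hnb : 2 * (n : ℝ) + 5 ≤ b := by exact_mod_cast hn
  have htk := Q.tk_led hnb hs
  have hkk : k1 ^ 2 ≤ κ ^ 2 := pow_le_pow_left₀ (by linarith only [hk1]) h1 2
  have hδ0 : 0 < δ := by
    rcases hδ with ⟨_, h3⟩ | ⟨h3, _⟩ <;> rw [h3] <;> norm_num
  have hδ1 : δ ≤ 1 := by
    rcases hδ with ⟨_, h3⟩ | ⟨h3, _⟩ <;> rw [h3] <;> norm_num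
  have hδ2 : 0 ≤ 0.97 - δ := by
    rcases hδ with ⟨_, h3⟩ | ⟨h3, _⟩ <;> rw [h3] <;> norm_num
  have hump := B.hump_UDd Q h1 h2 hk hβ hhu hδ htk
  have ht3 : ((n : ℝ) + 2 + s) * h - κ < 3 * Real.pi / 2 := by linarith only [htk, hpi, hκ]
  have hYZ : ∀ Z : ℝ, 0 ≤ Z → Z ≤ z ^ 2 → (0.97 - δ) * (1 + k1 ^ 2) * Z ≤ (0.97 - δ) * (1 + κ ^ 2) * z ^ 2 :=
    fun Z hZ0 hZ => mul_le_mul (mul_le_mul_of_nonneg_left (by linarith only [hkk]) hδ2) hZ hZ0 (by positivity)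
  -- crude bound with `Y₀ + x`
  have main : ∀ x : ℕ, (0.97 - δ) * (1 + k1 ^ 2) * 2.05174 + (x : ℝ) ≤ (0.97 - δ) * (1 + κ ^ 2) * z ^ 2 →
      ∀ y : ℝ, 1 / 1000 * 0.00435 ^ x ≤ y → ‖Xf β R h t ((n : ℤ) + 3)‖ ≤ y * M := by
    intro x hx y hy
    have h3 := B.crude Q h1 h2 hβ n hδ0 hδ1 ht.le ht3 hump hoc hx
    refine prod_RO hM h3 (by positivity) hW hc (le_trans ?_ hy)
    have x3 := exp_mul_leO (x := -((0.97 - δ) * (1 + k1 ^ 2) * 2.05174 + (x : ℝ))) (g := g)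
      (E := (0.97 - δ) * (1 + k1 ^ 2) * 2.05174 - 0.36125 + x) hT (by positivity) (by linarith only [hg1])
    have z3 := x3.trans (exp_geoO x he4 he40)
    have y3 := mul_le_mul_of_nonneg_left z3 (by positivity : 0 ≤ al * oc)
    have e : -(T * ((0.97 - δ) * (1 + k1 ^ 2) * 2.05174 + (x : ℝ))) =
      T * (-((0.97 - δ) * (1 + k1 ^ 2) * 2.05174 + (x : ℝ))) := by ring
    rw [e]
    have hq0 : (0 : ℝ) ≤ 0.00435 ^ x := by positivity
    calc c * (al * oc * Real.exp (T * (-((0.97 - δ) * (1 + k1 ^ 2) * 2.05174 + (x : ℝ)))) * Real.exp (T * g))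
        ≤ c * (al * oc * (e4 * 0.00435 ^ x)) := by
          apply mul_le_mul_of_nonneg_left _ hc
          rw [mul_assoc (al * oc)]
          exact y3
      _ = c * (al * oc * e4) * 0.00435 ^ x := by ring
      _ ≤ 1 / 1000 * 0.00435 ^ x := mul_le_mul_of_nonneg_right hC hq0
  rcases n with _ | _ | _ | m
  · refine main 0 ?_ _ ?_
    · have := hYZ 2.05174 (by norm_num) Q.zz
      push_cast
      linarith only [this]
    · rw [Mfar_3]; norm_num
  · refine main 0 ?_ _ ?_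
    · have := hYZ 2.05174 (by norm_num) Q.zz
      push_cast
      linarith only [this]
    · rw [show ((0 + 1 : ℕ)) = 1 from rfl, Mfar_4]; norm_num
  · refine main 0 ?_ _ ?_
    · have := hYZ 2.05174 (by norm_num) Q.zz
      push_cast
      linarith only [this]
    · rw [show ((0 + 1 + 1 : ℕ)) = 2 from rfl, Mfar_5]; norm_num
  · refine main (m + 1) ?_ _ ?_
    · have hm0 : (0 : ℝ) ≤ m := Nat.cast_nonneg m
      have hZ : 3.0649 + 1.114 * (m : ℝ) ≤ z ^ 2 := by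
        have hnb' : 2 * (m : ℝ) + 11 ≤ b := by push_cast at hnb; linarith only [hnb]
        have h3 := Q.z2_ge (n := 2 * (m : ℝ) + 11) (by positivity) hnb'
        nlinarith only [h3, sq_nonneg (m : ℝ), hm0]
      have h4 := hYZ _ (by positivity) hZ
      refine le_trans ?_ h4
      have h5 := mul_le_mul_of_nonneg_right hC1 (by positivity : (0:ℝ) ≤ 1.01316 + 1.114 * (m : ℝ))
      push_cast
      have h6 : (m : ℝ) + 1 ≤ 0.9871 * (1.01316 + 1.114 * (m : ℝ)) := by linarith only [hm0]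
      have h7 := h6.trans h5
      linarith only [h7]
    · have e3 : ((m + 1 + 1 + 1 : ℕ)) = m + 3 := rfl
      rw [e3, Mfar_ge m, pow_succ]
      have h2 : (0.00435 : ℝ) ^ m ≤ (1 / 4) ^ m := pow_le_pow_left₀ (by norm_num) (by norm_num) m
      have h3 : (0 : ℝ) < (1 / 4) ^ m := by positivity
      linarith only [h2, h3]

theorem right_op (B : BoxR k1 k2 s2 ψ w2 E P1 q cm G pf al X kR iR)
    {hu o δ oc c c1 ρ g2 : ℝ} (N' : NumR k1 k2 s2 w2 G pf al X kR iR c1 ρ g2 hu o δ oc)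
    (N : NumO k1 k2 w2 G pf al X o δ oc c) {β G0 G1 : ℝ} (H : OP b h κ R t)
    (hκ : 0.29 ≤ κ) (h1 : k1 ≤ κ) (h2 : κ ≤ k2) (hβ : β = κ / R) (g0 : 0.95 * sQ β κ (t - h) ≤ G0)
    (g1 : 0.95 * sQ β κ t ≤ G1) (n : ℕ) (hn : 2 * n + 5 ≤ b) :
    ‖Xf β R h t ((n : ℤ) + 3)‖ ≤ 1 / 3 * Mfar ((n : ℤ) + 3) * max G0 G1 := by
  obtain ⟨T, s, z, Q, hk, hs0, hs, -⟩ := H.qd hκ
  have hκ0 := Q.kpos
  have hkk : κ ^ 2 ≤ k2 ^ 2 := pow_le_pow_left₀ hκ0.le h2 2
  have hk1 := B.k1p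
  have hd1 : s ≤ 0.85 → sD κ t ≤ (0.95 * c) ^ 4 := by
    intro h85
    have dd1 := Q.dom1 (by linarith only [hs0]) hs
    rcases N.hd1 with ⟨h3, h4⟩ | ⟨h3, h4⟩
    · exact (Q.D1_le dd1 (by linarith only [hk1]) h1 h2 h3 (by linarith only [hs0]) h85 (B.kh Q h2)).trans h4
    · have h5 := Q.D1_le' dd1 (h3.trans h1) (by linarith only [hs0]) h85 (B.kh Q h2)
      refine h5.trans (le_trans ?_ h4)
      have hy : 0 ≤ (w2 * 0.85) ^ 2 := sq_nonneg _
      have := mul_le_mul_of_nonneg_right hkk hy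
      linarith only [this, hkk]
  have hd0 : 1.05 * (1 + κ ^ 2) ≤ (0.95 * c) ^ 4 := by
    have := N.hd0
    linarith only [this, hkk]
  obtain ⟨hM, g, hg, -, hg1, hg2⟩ := Q.inv_max hβ hk hs0 hs g0 g1 hd1 hd0 N.hc
  rcases le_or_gt (((n : ℝ) + 2 + s) * h - κ) (Real.pi / 2) with ht | ht
  · exact B.rightO Q h1 h2 hβ hs0 N'.hhu N'.ho N'.ho0 N hM hg hg1 hg2 n ht
  · exact B.rightOC Q h1 h2 hk hβ hs N'.hhu N'.hδ N'.hoc N'.hoc0 N hM hg hg1 n hn ht

end boxr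

theorem O1 : NumO 0.29 0.32 0.20266 0.3481 3.211 1.835 0.51774 0.5195 0.05 1.916 1.14989 :=
  ⟨by norm_num, Or.inl ⟨by norm_num, by norm_num⟩, by norm_num,
    ⟨0.0006277, 0.0002682, 0.00005729, by norm_num, (exp_num' 7 (f := 0.3736) (by norm_num) (by norm_num) (by norm_num)), by norm_num, (exp_num' 8 (f := 0.2239) (by norm_num) (by norm_num) (by norm_num)), by norm_num,
      (exp_num' 9 (f := 0.7719) (by norm_num) (by norm_num) (by norm_num)), by norm_num⟩,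
    by norm_num, ⟨0.0001045, (exp_num' 9 (f := 0.1669) (by norm_num) (by norm_num) (by norm_num)), by norm_num⟩, by norm_num, by norm_num⟩

theorem O2 : NumO 0.32 0.35 0.21769 0.3608 3.076 1.747 0.51774 0.5327 0.05 1.955 1.1577 :=
  ⟨by norm_num, Or.inl ⟨by norm_num, by norm_num⟩, by norm_num,
    ⟨0.0006497, 0.0002682, 0.00004755, by norm_num, (exp_num' 7 (f := 0.3391) (by norm_num) (by norm_num) (by norm_num)), by norm_num, (exp_num' 8 (f := 0.2239) (by norm_num) (by norm_num) (by norm_num)), by norm_num,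
      (exp_num' 9 (f := 0.97) (by norm_num) (by norm_num) (by norm_num)), by norm_num⟩,
    by norm_num, ⟨0.00008656, (exp_num' 9 (f := 0.3548) (by norm_num) (by norm_num) (by norm_num)), by norm_num⟩, by norm_num, by norm_num⟩

theorem O3 : NumO 0.35 0.42 0.24926 0.3983 3.023 1.67 0.51774 0.5652 0.05 2.042 1.17718 :=
  ⟨by norm_num, Or.inl ⟨by norm_num, by norm_num⟩, by norm_num,
    ⟨0.0007195, 0.0002682, 0.00003764, by norm_num, (exp_num' 7 (f := 0.2371) (by norm_num) (by norm_num) (by norm_num)), by norm_num, (exp_num' 8 (f := 0.2239) (by norm_num) (by norm_num) (by norm_num)), by norm_num,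
      (exp_num' 10 (f := 0.1876) (by norm_num) (by norm_num) (by norm_num)), by norm_num⟩,
    by norm_num, ⟨0.00007047, (exp_num' 9 (f := 0.5612) (by norm_num) (by norm_num) (by norm_num)), by norm_num⟩, by norm_num, by norm_num⟩

theorem O4 : NumO 0.42 0.5 0.27926 0.4129 2.762 1.525 0.5106 0.5883 0.05 2.116 1.19647 :=
  ⟨by norm_num, Or.inl ⟨by norm_num, by norm_num⟩, by norm_num,
    ⟨0.0007487, 0.000258, 0.00002109, by norm_num, (exp_num' 7 (f := 0.1973) (by norm_num) (by norm_num) (by norm_num)), by norm_num, (exp_num' 8 (f := 0.2628) (by norm_num) (by norm_num) (by norm_num)), by norm_num,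
      (exp_num' 10 (f := 0.7712) (by norm_num) (by norm_num) (by norm_num)), by norm_num⟩,
    by norm_num, ⟨0.00004049, (exp_num' 10 (f := 0.1147) (by norm_num) (by norm_num) (by norm_num)), by norm_num⟩, by norm_num, by norm_num⟩

theorem O5 : NumO 0.5 0.6 0.30801 0.415 2.508 1.398 0.4787 0.6072 0.05 2.184 1.21961 :=
  ⟨by norm_num, Or.inl ⟨by norm_num, by norm_num⟩, by norm_num,
    ⟨0.0007529, 0.0002169, 0.000009472, by norm_num, (exp_num' 7 (f := 0.1916) (by norm_num) (by norm_num) (by norm_num)), by norm_num, (exp_num' 8 (f := 0.4363) (by norm_num) (by norm_num) (by norm_num)), by norm_num,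
      (exp_num' 11 (f := 0.568) (by norm_num) (by norm_num) (by norm_num)), by norm_num⟩,
    by norm_num, ⟨0.00001918, (exp_num' 10 (f := 0.8704) (by norm_num) (by norm_num) (by norm_num)), by norm_num⟩, by norm_num, by norm_num⟩

theorem O6 : NumO 0.6 0.7 0.32799 0.3898 2.226 1.276 0.403 0.6113 0.05 2.222 1.23958 :=
  ⟨by norm_num, Or.inl ⟨by norm_num, by norm_num⟩, by norm_num,
    ⟨0.000703, 0.0001448, 0.000002888, by norm_num, (exp_num' 7 (f := 0.2602) (by norm_num) (by norm_num) (by norm_num)), by norm_num, (exp_num' 8 (f := 0.8481) (by norm_num) (by norm_num) (by norm_num)), by norm_num,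
      (exp_num' 12 (f := 0.759) (by norm_num) (by norm_num) (by norm_num)), by norm_num⟩,
    by norm_num, ⟨0.000006145, (exp_num' 12 (f := 0) (by norm_num) (by norm_num) (by norm_num)), by norm_num⟩, by norm_num, by norm_num⟩

theorem O7 : NumO 0.7 0.85 0.34452 0.3596 2.01 1.181 0.2875 0.6116 0.05 2.25 1.27392 :=
  ⟨by norm_num, Or.inl ⟨by norm_num, by norm_num⟩, by norm_num,
    ⟨0.0006477, 0.00007667, 0.0000007041, by norm_num, (exp_num' 7 (f := 0.3423) (by norm_num) (by norm_num) (by norm_num)), by norm_num, (exp_num' 9 (f := 0.4764) (by norm_num) (by norm_num) (by norm_num)), by norm_num,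
      (exp_num' 14 (f := 0.1664) (by norm_num) (by norm_num) (by norm_num)), by norm_num⟩,
    by norm_num, ⟨0.000001618, (exp_num' 13 (f := 0.3349) (by norm_num) (by norm_num) (by norm_num)), by norm_num⟩, by norm_num, by norm_num⟩

theorem O8 : NumO 0.85 1 0.34907 0.2975 1.75 1.072 0.0397 0.5896 0.05 2.236 1.30202 :=
  ⟨by norm_num, Or.inl ⟨by norm_num, by norm_num⟩, by norm_num,
    ⟨0.0005472, 0.00002004, 0.00000005694, by norm_num, (exp_num' 7 (f := 0.5112) (by norm_num) (by norm_num) (by norm_num)), by norm_num, (exp_num' 10 (f := 0.8245) (by norm_num) (by norm_num) (by norm_num)), by norm_num,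
      (exp_num' 16 (f := 0.6836) (by norm_num) (by norm_num) (by norm_num)), by norm_num⟩,
    by norm_num, ⟨0.0000001491, (exp_num' 15 (f := 0.7223) (by norm_num) (by norm_num) (by norm_num)), by norm_num⟩, by norm_num, by norm_num⟩

theorem O9 : NumO 1 1.5 0.34907 0.2441 1.566 0.988 (-0.2977) 1.6142 0.21 2.688 1.45458 :=
  ⟨by norm_num, Or.inr ⟨by norm_num, by norm_num⟩, by norm_num,
    ⟨0.0004738, 0.000003182, 0.000000002823, by norm_num, (exp_num' 7 (f := 0.6565) (by norm_num) (by norm_num) (by norm_num)), by norm_num, (exp_num' 12 (f := 0.6599) (by norm_num) (by norm_num) (by norm_num)), by norm_num,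
      (exp_num' 19 (f := 0.688) (by norm_num) (by norm_num) (by norm_num)), by norm_num⟩,
    by norm_num, ⟨0.0000003059, (exp_num' 15 (f := 0.0002) (by norm_num) (by norm_num) (by norm_num)), by norm_num⟩, by norm_num, by norm_num⟩

/-- far copies on the right, outer segment -/
theorem farKD_right {b : ℕ} {h κ R t β G0 G1 : ℝ} (H : OP b h κ R t) (hκ : 0.29 ≤ κ) (hβ : β = κ / R)
    (h0 : 0.95 * sQ β κ (t - h) ≤ G0) (h1 : 0.95 * sQ β κ t ≤ G1) (n : ℕ) (hn : 2 * n + 5 ≤ b) :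
    ‖Xf β R h t ((n : ℤ) + 3)‖ ≤ 1 / 3 * Mfar ((n : ℤ) + 3) * max G0 G1 := by
  have hk := H.k1
  rcases le_total κ 0.32 with a1 | a1
  · exact right_op B1 N1 O1 H hκ hκ a1 hβ h0 h1 n hn
  rcases le_total κ 0.35 with a2 | a2
  · exact right_op B2 N2 O2 H hκ a1 a2 hβ h0 h1 n hn
  rcases le_total κ 0.42 with a3 | a3
  · exact right_op B3 N3 O3 H hκ a2 a3 hβ h0 h1 n hn
  rcases le_total κ 0.5 with a4 | a4
  · exact right_op B4 N4 O4 H hκ a3 a4 hβ h0 h1 n hn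
  rcases le_total κ 0.6 with a5 | a5
  · exact right_op B5 N5 O5 H hκ a4 a5 hβ h0 h1 n hn
  rcases le_total κ 0.7 with a6 | a6
  · exact right_op B6 N6 O6 H hκ a5 a6 hβ h0 h1 n hn
  rcases le_total κ 0.85 with a7 | a7
  · exact right_op B7 N7 O7 H hκ a6 a7 hβ h0 h1 n hn
  rcases le_total κ 1 with a8 | a8
  · exact right_op B8 N8 O8 H hκ a7 a8 hβ h0 h1 n hn
  · exact right_op B9 N9 O9 H hκ a8 (by linarith) hβ h0 h1 n hn

/-- far copies on the right, outer segment, in the window -/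
theorem farKD_right' {b : ℕ} {h κ R t β G0 G1 : ℝ} (H : OP b h κ R t) (hκ : 0.29 ≤ κ) (hβ : β = κ / R)
    (h0 : 0.95 * sQ β κ (t - h) ≤ G0) (h1 : 0.95 * sQ β κ t ≤ G1) {k : ℤ} (hk : 3 ≤ k)
    (hkb : k ≤ aw b + b - 1) :
    ‖Xf β R h t k‖ ≤ 1 / 3 * Mfar k * max G0 G1 := by
  obtain ⟨n, hn⟩ : ∃ n : ℕ, k = (n : ℤ) + 3 := ⟨(k - 3).toNat, by omega⟩
  rw [hn]
  refine farKD_right H hκ hβ h0 h1 n ?_
  unfold aw at hkb
  omega

end Sok
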