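import Pool.Agent.Lib.MP_816dec_an.R1BFarO

/-!
MP_816dec_an (A3, row R1, `b ≥ 9`): far copies on the left (`k ≤ -2`) on the outer segment.
-/

set_option autoImplicit false

open Complex Set Filter Topology Metric

namespace Sok

theorem leftO_G {κ y : ℝ} (h1 : 0.29 ≤ κ) (h2 : κ ≤ 1.39) (h0 : 0 ≤ y) (hy : y * (1 + κ ^ 2) ≤ 1.0473) :
    2 / 5 * κ ^ 3 * y + Real.exp (-(κ * y)) - 1 + y ^ 2 * Real.exp (-(κ * y)) ^ 3 / 5 ≤ 0.02 * (1 + κ ^ 2) := by
  have hκ : 0 < κ := by linarith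
  have h3 : Real.exp (-(κ * y)) ≤ 1 + -(κ * y) + (-(κ * y)) ^ 2 / 2 := r1_exp_le2 (by nlinarith)
  have h4 : Real.exp (-(κ * y)) ≤ 1 := Real.exp_le_one_iff.2 (by nlinarith)
  have h5 : Real.exp (-(κ * y)) ^ 3 ≤ 1 := pow_le_one₀ (Real.exp_pos _).le h4
  have h6 : y ^ 2 * Real.exp (-(κ * y)) ^ 3 ≤ y ^ 2 := mul_le_of_le_one_right (sq_nonneg y) h5
  have hA : 0 < 1 + κ ^ 2 := by positivity
  obtain ⟨A, hA'⟩ : ∃ A, A = 1 + κ ^ 2 := ⟨_, rfl⟩
  rw [← hA'] at hy hA ⊢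
  -- the value at the right end
  have h7 : (κ ^ 2 / 2 + 1 / 5) * 1.0473 - κ * (1 - 0.4 * κ ^ 2) * A ≤ 0.02 * A ^ 2 * A / 1.0473 := by
    have h8 : (κ ^ 2 / 2 + 1 / 5) * 1.0473 ^ 2 - κ * (1 - 0.4 * κ ^ 2) * A * 1.0473 ≤ 0.02 * A ^ 3 := by
      rw [hA']
      have p1 : 0 ≤ (κ - 0.29) * (1.39 - κ) := mul_nonneg (by linarith) (by linarith)
      have p2 : 0 ≤ κ * ((κ - 0.29) * (1.39 - κ)) := mul_nonneg hκ.le p1
      have p3 : 0 ≤ κ ^ 2 * ((κ - 0.29) * (1.39 - κ)) := mul_nonneg (sq_nonneg κ) p1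
      have p4 : 0 ≤ κ ^ 3 * ((κ - 0.29) * (1.39 - κ)) := mul_nonneg (by positivity) p1
      have p5 : 0 ≤ κ ^ 6 := by positivity
      nlinarith
    rw [le_div_iff₀ (by norm_num)]
    nlinarith
  have h9 : 0 ≤ y * A := by positivity
  have h10 : (κ ^ 2 / 2 + 1 / 5) * (y * A) ^ 2 - κ * (1 - 0.4 * κ ^ 2) * A * (y * A) ≤ 0.02 * A ^ 3 := by
    have h11 : (κ ^ 2 / 2 + 1 / 5) * (y * A) ^ 2 ≤ (κ ^ 2 / 2 + 1 / 5) * 1.0473 * (y * A) := by
      have := mul_le_mul_of_nonneg_left hy (by positivity : 0 ≤ (κ ^ 2 / 2 + 1 / 5) * (y * A))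
      nlinarith
    have h12 := mul_le_mul_of_nonneg_right h7 h9
    have h13 : 0.02 * A ^ 2 * A / 1.0473 * (y * A) ≤ 0.02 * A ^ 2 * A / 1.0473 * 1.0473 :=
      mul_le_mul_of_nonneg_left hy (by positivity)
    have h14 : 0.02 * A ^ 2 * A / 1.0473 * 1.0473 = 0.02 * A ^ 3 := by field_simp
    rw [h14] at h13
    nlinarith
  have h15 : (κ ^ 2 / 2 + 1 / 5) * y ^ 2 - κ * (1 - 0.4 * κ ^ 2) * y ≤ 0.02 * A := by
    have hA2 : 0 < A ^ 2 := by positivity
    have h16 : ((κ ^ 2 / 2 + 1 / 5) * y ^ 2 - κ * (1 - 0.4 * κ ^ 2) * y) * A ^ 2 ≤ 0.02 * A * A ^ 2 := by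
      nlinarith
    exact le_of_mul_le_mul_right h16 hA2
  nlinarith

theorem leftO_q {κ y : ℝ} (h1 : 0.29 ≤ κ) (h0 : 0 ≤ y) (hy : y * (1 + κ ^ 2) ≤ 1.0473) :
    y * Real.exp (-(κ * y)) ≤ 0.755 := by
  have hκ : 0 < κ := by linarith
  have h3 := Real.add_one_le_exp (κ * y)
  have h4 : Real.exp (-(κ * y)) * Real.exp (κ * y) = 1 := by
    rw [← Real.exp_add, neg_add_cancel, Real.exp_zero]
  have hA : 0 < 1 + κ ^ 2 := by positivity
  have h5 : y ≤ 0.755 * (1 + κ * y) := by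
    have h6 : y * (1 - 0.755 * κ) * (1 + κ ^ 2) ≤ 0.755 * (1 + κ ^ 2) := by
      rcases le_total 0 (1 - 0.755 * κ) with h7 | h7
      · have h8 := mul_le_mul_of_nonneg_right hy h7
        nlinarith
      · have h8 : y * (1 - 0.755 * κ) ≤ 0 := mul_nonpos_of_nonneg_of_nonpos h0 h7
        nlinarith
    have := le_of_mul_le_mul_right h6 hA
    linarith
  have h6 : y ≤ 0.755 * Real.exp (κ * y) := by linarith
  have h7 := mul_le_mul_of_nonneg_left h6 (Real.exp_pos (-(κ * y))).le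
  have h8 : Real.exp (-(κ * y)) * (0.755 * Real.exp (κ * y)) = 0.755 := by linear_combination 0.755 * h4
  linarith

theorem MfarL_012 {n : ℕ} (hn : n ≤ 2) : 1 / 1500 ≤ 1 / 3 * Mfar (-((n : ℤ) + 2)) := by
  interval_cases n <;> norm_num [Mfar]

theorem MfarL_ge (m : ℕ) : Mfar (-(((m + 3 : ℕ) : ℤ) + 2)) = 1 / 2000 * (1 / 4) ^ m := by
  unfold Mfar
  have e : (-(((m + 3 : ℕ) : ℤ) + 2)).natAbs - 5 = m := by omega
  rw [if_neg (by omega), if_neg (by omega), if_neg (by omega), if_neg (by omega), if_neg (by omega),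
    if_neg (by omega), e]

/-- horizontal line on the left, copy `-(n + 2)` -/
theorem QD.leftHU {b : ℕ} {h κ R t T s z : ℝ} (Q : QD 5.44 b h κ R t T s z) (hk : κ ≤ 1.39) {β : ℝ} (hβ : β = κ / R)
    (hs0 : 0.03 ≤ s) (hs : s ≤ 1.03) (n : ℕ) (hn : 2 * (n : ℝ) + 6 ≤ b) :
    ‖Xf β R h t (-((n : ℤ) + 2))‖ ≤ Real.exp R * (2.809 * Real.exp (T * (-(1.5 * (n + 3 - s)) + 1.1475)) +
      0.961 * Real.exp (T * (0.6 - 1.5 * (n + 3 - s))) +
      2.0552 * Real.exp (-(T * (0.97 * (1 + κ ^ 2) * z ^ 2)))) := by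
  have hpi := Real.pi_gt_d6
  have hpi2 := Real.pi_lt_d6
  have hκ := Q.kpos
  have hk0 := Q.k0
  have hA := Q.A1
  have hh := Q.hle
  have h0 := Q.h0
  have hR := Q.Rpos
  have hRge := Q.Rge
  have hT := Q.Tpos
  have hT5 := Q.hT
  have hbR := Q.bR
  have hz := Q.z0
  have hn0 : (0 : ℝ) ≤ n := Nat.cast_nonneg n
  obtain ⟨tk, htk⟩ : ∃ tk, tk = -(((n : ℝ) + 3 - s) * h) - κ := ⟨_, rfl⟩
  have hbh : (b : ℝ) * h = 2 * Real.pi := by
    rw [← Q.hbz, mul_assoc, Q.hz, mul_one]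
  have hnh : ((n : ℝ) + 3) * h ≤ Real.pi := by
    have h3 := mul_le_mul_of_nonneg_right hn h0.le
    rw [hbh] at h3
    linarith
  have hsh : 0 ≤ s * h := by positivity
  have htk0 : -Real.pi - κ ≤ tk := by rw [htk]; linarith
  have htk1 : tk ≤ -κ := by
    rw [htk]
    have : 0 ≤ ((n : ℝ) + 3 - s) * h := mul_nonneg (by linarith) h0.le
    linarith
  obtain ⟨y, hy⟩ : ∃ y, y = 1.5 * h / (1 + κ ^ 2) := ⟨_, rfl⟩
  have hy0 : 0 ≤ y := by rw [hy]; positivity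
  have hyA : y * (1 + κ ^ 2) ≤ 1.0473 := by
    rw [hy, div_mul_cancel₀ _ hA.ne']
    linarith
  have hκy : κ * y ≤ 0.5237 := by
    have h3 := Q.psi_half
    have h4 : κ * y = κ / (1 + κ ^ 2) * (1.5 * h) := by rw [hy]; ring
    have h5 : κ / (1 + κ ^ 2) ≤ 1 / 2 := by rw [div_le_iff₀ hA]; exact h3
    rw [h4]
    calc κ / (1 + κ ^ 2) * (1.5 * h) ≤ 1 / 2 * (1.5 * 0.69814) :=
          mul_le_mul h5 (by linarith) (by positivity) (by norm_num)
      _ ≤ 0.5237 := by norm_num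
  have hκy0 : 0 ≤ κ * y := by positivity
  have hG := leftO_G hk0 hk hy0 hyA
  have hq := leftO_q hk0 hy0 hyA
  have key := HUL (h := h) (m := (n : ℝ) + 3 - s) (tk := tk) (q := 0.755) (cm := 0.6557) (T := T) (pf := 2.809)
    (G := 0.02) (μ := 1.5) (e1 := Real.exp (-(κ * y))) hR hκ hβ rfl h0 Q.Rh (by norm_num) htk (by linarith)
    (by linarith) (by rw [← hy]; linarith) (by rw [← hy]) (by rw [← hy]; exact hq) (by norm_num) (by norm_num)
    (by rw [← hy]; exact hG) (by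
      rw [← hy]
      have h3 : 0.29 * 1 ≤ κ * (1 + κ * y) := mul_le_mul hk0 (by linarith) (by norm_num) hκ.le
      nlinarith) (by norm_num)
  rw [← hy] at key
  have e0 : Xf β R h t (-((n : ℤ) + 2)) = F (cexp (I * β)) (R * cexp (I * ((tk + β / 2 : ℝ) : ℂ))) := by
    unfold Xf
    congr 4
    rw [htk, Q.ht]
    push_cast
    ring
  rw [e0]
  refine key.trans ?_
  have hC0 := C0_leF (α := 1.835) hR hβ (by norm_num) hk0 (by norm_num) (by norm_num)
  have hβ0 : 0 < β := by rw [hβ]; positivity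
  have hC00 := (C0_pos hβ0).le
  have hump := Q.hump4 hβ htk1
  have hzh : T / h = T * z := by
    have := Q.hz
    have h3 : z = 1 / h := by field_simp; linarith
    rw [h3]; ring
  rw [hzh]
  obtain ⟨x, hx⟩ : ∃ x, x = Real.exp (1.5 * (T * z) * (Real.pi / 2 - κ) - 1.5 * T * ((n : ℝ) + 3 - s)) := ⟨_, rfl⟩
  have hx0 : 0 < x := by rw [hx]; exact Real.exp_pos _
  rw [← hx]
  have hmax : max 1 x ≤ 1 + x := max_le (by linarith) (by linarith)
  have hbr : κ / R / (3 * Real.pi / 2 + tk) + Real.pi / R + κ * y * max 1 x +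
      Real.exp (-(1.5 * (T * z) * (Real.pi / 2 + κ) + 1.5 * T * ((n : ℝ) + 3 - s))) + κ / R + HUMP β R tk ≤
      1.12 + 0.5237 * x := by
    have h3 : κ / R / (3 * Real.pi / 2 + tk) ≤ 0.2673 := by
      calc κ / R / (3 * Real.pi / 2 + tk) ≤ 0.0481 / 0.18 := by
            apply div_le_div₀ (by norm_num) hbR (by norm_num)
            linarith
        _ ≤ 0.2673 := by norm_num
    have h4 : Real.pi / R ≤ 0.2787 := by
      rw [div_le_iff₀ hR]
      nlinarith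
    have h5 : κ * y * max 1 x ≤ 0.5237 * (1 + x) := mul_le_mul hκy hmax (by positivity) (by norm_num)
    have h6 : Real.exp (-(1.5 * (T * z) * (Real.pi / 2 + κ) + 1.5 * T * ((n : ℝ) + 3 - s))) ≤ 0.001 := by
      have h7 : 0 ≤ 1.5 * (T * z) * (Real.pi / 2 + κ) := by positivity
      have h8 : 1.5 * 5.44 * 1.97 ≤ 1.5 * T * ((n : ℝ) + 3 - s) :=
        mul_le_mul (by linarith) (by linarith) (by norm_num) (by positivity)
      exact exp_num' 10 (f := 0) le_rfl (by norm_num at h8 ⊢; linarith) (by norm_num)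
    linarith
  have hbr0 : 0 ≤ κ / R / (3 * Real.pi / 2 + tk) + Real.pi / R + κ * y * max 1 x +
      Real.exp (-(1.5 * (T * z) * (Real.pi / 2 + κ) + 1.5 * T * ((n : ℝ) + 3 - s))) + κ / R + HUMP β R tk := by
    have h3 : 0 < 3 * Real.pi / 2 + tk := by linarith
    have h4 : 0 ≤ HUMP β R tk := by
      unfold HUMP
      positivity
    positivity
  have hmul := mul_le_mul hC0 hbr hbr0 (by positivity)
  have hR2 := Q.hR
  -- exponents
  have e1 : Real.exp (R + T * (-(1.5 * ((n : ℝ) + 3 - s)) + 1.5 ^ 2 * (1 + 0.02) / 2)) =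
      Real.exp R * Real.exp (T * (-(1.5 * ((n : ℝ) + 3 - s)) + 1.1475)) := by
    rw [← Real.exp_add]
    congr 2
    norm_num
  have e3 : Real.exp (0.03 * R) ≤ Real.exp R * Real.exp (-(T * (0.97 * (1 + κ ^ 2) * z ^ 2))) := by
    rw [← Real.exp_add]
    apply Real.exp_le_exp.2
    nlinarith
  have e2 : Real.exp (0.03 * R) * x ≤ Real.exp R * Real.exp (T * (0.6 - 1.5 * ((n : ℝ) + 3 - s))) := by
    rw [hx, ← Real.exp_add, ← Real.exp_add]
    apply Real.exp_le_exp.2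
    have h3 : 1.5 * z * (Real.pi / 2 - κ) ≤ 0.6 + 0.97 * (1 + κ ^ 2) * z ^ 2 := by
      have h4 : 1.5 * z * (Real.pi / 2 - κ) ≤ 1.5 * z * (1.5707965 - κ) :=
        mul_le_mul_of_nonneg_left (by linarith) (by positivity)
      have h5 : 1.5 * z * (1.5707965 - κ) ≤ 1.5 * z * 1.2807965 :=
        mul_le_mul_of_nonneg_left (by linarith) (by positivity)
      have h6 : 1.0841 ≤ 1 + κ ^ 2 := by nlinarith
      have h7 : 1.0841 * z ^ 2 ≤ (1 + κ ^ 2) * z ^ 2 := mul_le_mul_of_nonneg_right h6 (sq_nonneg z)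
      nlinarith
    have h8 := mul_le_mul_of_nonneg_left h3 hT.le
    nlinarith
  rw [e1]
  have hER := Real.exp_pos R
  calc 2.809 * (Real.exp R * Real.exp (T * (-(1.5 * ((n : ℝ) + 3 - s)) + 1.1475))) + C0 β *
        (κ / R / (3 * Real.pi / 2 + tk) + Real.pi / R + κ * y * max 1 x +
      Real.exp (-(1.5 * (T * z) * (Real.pi / 2 + κ) + 1.5 * T * ((n : ℝ) + 3 - s))) + κ / R + HUMP β R tk)
      ≤ 2.809 * (Real.exp R * Real.exp (T * (-(1.5 * ((n : ℝ) + 3 - s)) + 1.1475))) +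
        1.835 * Real.exp (0.03 * R) * (1.12 + 0.5237 * x) := by linarith
    _ = 2.809 * (Real.exp R * Real.exp (T * (-(1.5 * ((n : ℝ) + 3 - s)) + 1.1475))) +
        1.835 * 0.5237 * (Real.exp (0.03 * R) * x) + 1.835 * 1.12 * Real.exp (0.03 * R) := by ring
    _ ≤ 2.809 * (Real.exp R * Real.exp (T * (-(1.5 * ((n : ℝ) + 3 - s)) + 1.1475))) +
        0.961 * (Real.exp R * Real.exp (T * (0.6 - 1.5 * ((n : ℝ) + 3 - s)))) +
        2.0552 * (Real.exp R * Real.exp (-(T * (0.97 * (1 + κ ^ 2) * z ^ 2)))) := by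
        have p1 := Real.exp_pos (T * (0.6 - 1.5 * ((n : ℝ) + 3 - s)))
        have p2 := Real.exp_pos (-(T * (0.97 * (1 + κ ^ 2) * z ^ 2)))
        have p3 := mul_pos hER p1
        have p4 := mul_pos hER p2
        have q1 : 1.835 * 0.5237 * (Real.exp (0.03 * R) * x) ≤
            0.961 * (Real.exp R * Real.exp (T * (0.6 - 1.5 * ((n : ℝ) + 3 - s)))) := by
          refine (mul_le_mul_of_nonneg_left e2 (by norm_num)).trans ?_
          exact mul_le_mul_of_nonneg_right (by norm_num) p3.le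
        have q2 : 1.835 * 1.12 * Real.exp (0.03 * R) ≤
            2.0552 * (Real.exp R * Real.exp (-(T * (0.97 * (1 + κ ^ 2) * z ^ 2)))) := by
          refine (mul_le_mul_of_nonneg_left e3 (by norm_num)).trans ?_
          exact mul_le_mul_of_nonneg_right (by norm_num) p4.le
        linarith
    _ = _ := by ring

/-- far copies on the left, outer segment -/
theorem farKD_left {b : ℕ} {h κ R t β G0 G1 : ℝ} (H : OP b h κ R t) (hκ : 0.29 ≤ κ) (hβ : β = κ / R)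
    (h0 : 0.95 * sQ β κ (t - h) ≤ G0) (h1 : 0.95 * sQ β κ t ≤ G1) (n : ℕ) (hn : 2 * n + 6 ≤ b) :
    ‖Xf β R h t (-((n : ℤ) + 2))‖ ≤ 1 / 3 * Mfar (-((n : ℤ) + 2)) * max G0 G1 := by
  obtain ⟨T, s, z, Q, hk, hs0, hs, -⟩ := H.qd hκ
  have hκ0 := Q.kpos
  have hkk : κ ^ 2 ≤ 1.39 ^ 2 := pow_le_pow_left₀ hκ0.le hk 2
  have hk2 : 1.0841 ≤ 1 + κ ^ 2 := by nlinarith
  have hh := Q.hle
  have hh0 := Q.h0
  have hT := Q.hT
  have hd1 : s ≤ 0.85 → sD κ t ≤ (0.95 * 1.4125) ^ 4 := by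
    intro h85
    have dd1 := Q.dom1 (by linarith only [hs0]) hs
    have e : t + κ = s * h := by rw [Q.ht]; ring
    have ht0 : 0 ≤ s * h := by positivity
    have ht1 : s * h ≤ 0.5935 := by
      calc s * h ≤ 0.85 * 0.69814 := mul_le_mul h85 hh hh0.le (by norm_num)
        _ ≤ 0.5935 := by norm_num
    have ht2 : (s * h) ^ 2 ≤ 0.352147 := by
      calc (s * h) ^ 2 ≤ (0.85 * 0.69814) ^ 2 :=
            pow_le_pow_left₀ ht0 (mul_le_mul h85 hh hh0.le (by norm_num)) 2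
        _ ≤ 0.352147 := by norm_num
    rcases le_total κ 1 with hc | hc
    · have h3 := D1_up dd1 (by rw [e]; exact ht0) hc
      rw [e] at h3
      refine h3.trans ?_
      have h4 : 1 + κ ^ 2 ≤ 2 := by nlinarith
      calc (1 + 0.5 * (s * h) + 0.25 * (s * h) ^ 2) * (1 + κ ^ 2) ≤ (1 + 0.5 * 0.5935 + 0.25 * 0.352147) * 2 :=
            mul_le_mul (by linarith) h4 (by positivity) (by norm_num)
        _ ≤ _ := by norm_num
    · have h3 := D1_up' dd1 (by rw [e]; exact ht0) hc (by nlinarith)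
      rw [e] at h3
      refine h3.trans ?_
      calc (1 + 0.3 * (s * h) ^ 2) * (1 + κ ^ 2) ≤ (1 + 0.3 * 0.352147) * (1 + 1.39 ^ 2) :=
            mul_le_mul (by linarith) (by linarith) (by positivity) (by norm_num)
        _ ≤ _ := by norm_num
  have hd0 : 1.05 * (1 + κ ^ 2) ≤ (0.95 * 1.4125) ^ 4 := by
    have : (0.95 * 1.4125 : ℝ) ^ 4 ≥ 1.05 * (1 + 1.39 ^ 2) := by norm_num
    linarith only [this, hkk]
  obtain ⟨hM, g, hg, hg3, hg1, -⟩ := Q.inv_max hβ hk hs0 hs h0 h1 hd1 hd0 (by norm_num)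
  have hnb : 2 * (n : ℝ) + 6 ≤ b := by exact_mod_cast hn
  have key := Q.leftHU hk hβ hs0 hs n hnb
  refine prod_RO hM key (by positivity) hg (by norm_num) ?_
  have hn0 : (0 : ℝ) ≤ n := Nat.cast_nonneg n
  -- the first two terms
  have x1 := exp_mul_leO (x := -(1.5 * ((n : ℝ) + 3 - s)) + 1.1475) (g := g) (E := 1.71625 + n) hT (by positivity)
    (by linarith only [hg3, hn0])
  have x2 := exp_mul_leO (x := 0.6 - 1.5 * ((n : ℝ) + 3 - s)) (g := g) (E := 2.26 + n) hT (by positivity)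
    (by linarith only [hg3, hn0])
  have z1 := x1.trans (exp_geoO n (exp_num' 9 (f := 0.3363) (y := 0.0000882) (by norm_num) (by norm_num) (by norm_num))
    (by norm_num))
  have z2 := x2.trans (exp_geoO n (exp_num' 12 (f := 0.294) (y := 0.0000046) (by norm_num) (by norm_num) (by norm_num))
    (by norm_num))
  -- the third term
  have x3 : ∀ x : ℕ, 2.1575 + (x : ℝ) ≤ 0.97 * (1 + κ ^ 2) * z ^ 2 →
      Real.exp (-(T * (0.97 * (1 + κ ^ 2) * z ^ 2))) * Real.exp (T * g) ≤ 0.0000574 * 0.00435 ^ x := by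
    intro x hx
    have e : -(T * (0.97 * (1 + κ ^ 2) * z ^ 2)) = T * (-(0.97 * (1 + κ ^ 2) * z ^ 2)) := by ring
    rw [e]
    refine (exp_mul_leO (E := 1.79625 + x) hT (by positivity) (by linarith only [hg1, hx])).trans ?_
    exact exp_geoO x (exp_num' 9 (f := 0.7716) (by norm_num) (by norm_num) (by norm_num)) (by norm_num)
  have hzz := Q.zz
  have hq0 : (0 : ℝ) ≤ 0.00435 ^ n := by positivity
  rcases Nat.lt_or_ge n 3 with hn3 | hn3
  · have z3 := x3 0 (by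
      push_cast
      have : 1.0841 * 2.05174 ≤ (1 + κ ^ 2) * z ^ 2 := mul_le_mul hk2 hzz (by norm_num) (by positivity)
      linarith only [this])
    rw [pow_zero, mul_one] at z3
    have hq1 : (0.00435 : ℝ) ^ n ≤ 1 := pow_le_one₀ (by norm_num) (by norm_num)
    refine le_trans ?_ (MfarL_012 (by omega))
    rw [add_mul, add_mul, mul_assoc 2.809, mul_assoc 0.961, mul_assoc 2.0552]
    have z1' := z1.trans (mul_le_mul_of_nonneg_left hq1 (by norm_num))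
    have z2' := z2.trans (mul_le_mul_of_nonneg_left hq1 (by norm_num))
    generalize Real.exp (T * (-(1.5 * ((n : ℝ) + 3 - s)) + 1.1475)) * Real.exp (T * g) = a1 at *
    generalize Real.exp (T * (0.6 - 1.5 * ((n : ℝ) + 3 - s))) * Real.exp (T * g) = a2 at *
    generalize Real.exp (-(T * (0.97 * (1 + κ ^ 2) * z ^ 2))) * Real.exp (T * g) = a3 at *
    linarith only [z1', z2', z3]
  · obtain ⟨m, rfl⟩ : ∃ m, n = m + 3 := ⟨n - 3, by omega⟩
    have hm0 : (0 : ℝ) ≤ m := Nat.cast_nonneg m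
    have hZ : 3.6475 + 1.215 * (m : ℝ) ≤ z ^ 2 := by
      have hnb' : 2 * (m : ℝ) + 12 ≤ b := by push_cast at hnb; linarith only [hnb]
      have h3 := Q.z2_ge (n := 2 * (m : ℝ) + 12) (by positivity) hnb'
      nlinarith only [h3, sq_nonneg (m : ℝ), hm0]
    have z3 := x3 (m + 1) (by
      push_cast
      have : 1.0841 * (3.6475 + 1.215 * (m : ℝ)) ≤ (1 + κ ^ 2) * z ^ 2 :=
        mul_le_mul hk2 hZ (by positivity) (by positivity)
      linarith only [this, hm0])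
    rw [MfarL_ge m]
    have h2 : (0.00435 : ℝ) ^ m ≤ (1 / 4) ^ m := pow_le_pow_left₀ (by norm_num) (by norm_num) m
    have h3 : (0 : ℝ) < (1 / 4) ^ m := by positivity
    have e1 : (0.00435 : ℝ) ^ (m + 3) = 0.00435 ^ 3 * 0.00435 ^ m := by ring
    have e2 : (0.00435 : ℝ) ^ (m + 1) = 0.00435 * 0.00435 ^ m := by ring
    rw [e1] at z1 z2
    rw [e2] at z3
    rw [add_mul, add_mul, mul_assoc 2.809, mul_assoc 0.961, mul_assoc 2.0552]
    generalize Real.exp (T * (-(1.5 * (((m + 3 : ℕ) : ℝ) + 3 - s)) + 1.1475)) * Real.exp (T * g) = a1 at *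
    generalize Real.exp (T * (0.6 - 1.5 * (((m + 3 : ℕ) : ℝ) + 3 - s))) * Real.exp (T * g) = a2 at *
    generalize Real.exp (-(T * (0.97 * (1 + κ ^ 2) * z ^ 2))) * Real.exp (T * g) = a3 at *
    linarith only [z1, z2, z3, h2, h3]

/-- far copies on the left, outer segment, in the window -/
theorem farKD_left' {b : ℕ} {h κ R t β G0 G1 : ℝ} (H : OP b h κ R t) (hκ : 0.29 ≤ κ) (hβ : β = κ / R)
    (h0 : 0.95 * sQ β κ (t - h) ≤ G0) (h1 : 0.95 * sQ β κ t ≤ G1) {k : ℤ} (hk : k ≤ -2)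
    (hkb : aw b ≤ k) :
    ‖Xf β R h t k‖ ≤ 1 / 3 * Mfar k * max G0 G1 := by
  obtain ⟨n, hn⟩ : ∃ n : ℕ, k = -((n : ℤ) + 2) := ⟨(-k - 2).toNat, by omega⟩
  rw [hn]
  refine farKD_left H hκ hβ h0 h1 n ?_
  unfold aw at hkb
  omega

end Sok
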