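import Pool.Agent.Lib.MP_816dec_an.R1Near
import Pool.Agent.Lib.MP_816dec_an.R1Ineq6
import Pool.Agent.Lib.MP_816dec_an.JNum3
import Pool.Agent.Lib.MP_816dec_an.JP1a
import Pool.Agent.Lib.MP_816dec_an.JP1b
import Pool.Agent.Lib.MP_816dec_an.JP2
import Pool.Agent.Lib.MP_816dec_an.JN2a
import Pool.Agent.Lib.MP_816dec_an.JN2b

/-!
MP_816dec_an (A3, row R1, `b ≥ 9`), row G: the two main copies.
-/

set_option autoImplicit false

open Complex Set Filter Topology Metric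

namespace Sok

namespace RG

/-! ### a threshold for small `κ` -/

/-- variant of `y_ge_gen` for `κ ≤ E0 / q0` -/
theorem y_ge_small {κ t : ℝ} (h : DomR κ t) (η c0 E q0 τm : ℝ) (h0 : 0 < η) (h1 : η < 1)
    (hE : η * Real.exp (-η) ≤ E) (hc0 : 0 < c0) (_hq0 : 0 ≤ q0) (hqκ : q0 * κ ≤ η * Real.exp (-η))
    (hder : τm ≤ 2 * (1 / 2 + (1 - η) / (2 * c0)) * q0)
    (hval : 0 ≤ (1 / 2 + (1 - η) / (2 * c0)) * q0 ^ 2 - τm * q0 + (1 - E - (1 - η) * (1 + c0 ^ 2) / (2 * c0)))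
    (hτ : -τm ≤ t + κ) : -η ≤ sy κ t := by
  have hk := h.1
  obtain ⟨E0, hE0⟩ : ∃ E0, E0 = η * Real.exp (-η) := ⟨_, rfl⟩
  rw [← hE0] at hE hqκ
  have hE0p : 0 < E0 := by rw [hE0]; positivity
  rcases le_or_gt κ E0 with hκ | hκ
  · by_contra hcon
    push Not at hcon
    obtain ⟨hI1, hI2⟩ := (sy_spec h).1
    have hy0 : sy κ t < 0 := by linarith
    rw [abs_of_neg hy0] at hI1
    have hy1 : -1 < sy κ t := by
      rcases hI2 with h3 | h3
      · have h4 := mul_exp_neg_le η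
        rw [← hE0] at h4
        linarith
      · exact h3
    have h5 := mul_exp_neg_lt (s := η) (s' := -sy κ t) h0.le (by linarith) (by linarith)
    rw [neg_neg, ← hE0] at h5
    linarith
  · have e0 : κ * (-η / κ) = -η := by field_simp
    obtain ⟨q, hq⟩ : ∃ q, q = E0 / κ := ⟨_, rfl⟩
    have hqp : 0 < q := by rw [hq]; positivity
    have hq1 : q < 1 := by rw [hq, div_lt_one hk]; exact hκ
    have hqq : q0 ≤ q := by rw [hq, le_div_iff₀ hk]; exact hqκ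
    have eq1 : -η / κ * Real.exp (-η) = -q := by rw [hq, hE0]; ring
    have hb : -η / κ ≤ sp κ t := by
      apply sp_ge_of h
      · rw [e0, abs_div, abs_neg, abs_of_pos h0, abs_of_pos hk]
        calc η / κ * Real.exp (-η) = q := by rw [hq, hE0]; ring
          _ < 1 := hq1
      · right
        rw [e0]
        linarith
      · rw [e0, neg_neg, eq1, Real.arcsin_neg, neg_sq]
        obtain ⟨b, hbd⟩ : ∃ b, b = Real.arcsin q := ⟨_, rfl⟩
        have hs : Real.sin b = q := by rw [hbd]; exact Real.sin_arcsin (by linarith) hq1.le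
        have hc : Real.cos b = Real.sqrt (1 - q ^ 2) := by rw [hbd]; exact Real.cos_arcsin q
        rw [← hbd, ← hc]
        have hb2 : |b| ≤ Real.pi / 2 := by
          rw [hbd, abs_le]
          exact ⟨Real.neg_pi_div_two_le_arcsin q, Real.arcsin_le_pi_div_two q⟩
        have h2 := r1_cos_ge hb2
        rw [hs] at h2
        have hC0 : 0 ≤ Real.cos b := by rw [hc]; exact Real.sqrt_nonneg _
        have hCS : Real.cos b ^ 2 = 1 - q ^ 2 := by rw [hc, Real.sq_sqrt (by nlinarith)]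
        have h3 : 0 ≤ b * q + η * Real.cos b - τm * q - E0 := by
          have h4 : (1 - η) * Real.cos b ≤ (1 - η) * (1 - q ^ 2 + c0 ^ 2) / (2 * c0) := by
            rw [le_div_iff₀ (by positivity)]
            have : 2 * c0 * Real.cos b ≤ Real.cos b ^ 2 + c0 ^ 2 := by nlinarith [sq_nonneg (Real.cos b - c0)]
            have := mul_le_mul_of_nonneg_left this (by linarith : 0 ≤ 1 - η)
            rw [hCS] at this
            linarith
          obtain ⟨α, hα⟩ : ∃ α, α = 1 / 2 + (1 - η) / (2 * c0) := ⟨_, rfl⟩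
          obtain ⟨γ, hγ⟩ : ∃ γ, γ = 1 - E - (1 - η) * (1 + c0 ^ 2) / (2 * c0) := ⟨_, rfl⟩
          rw [← hα, ← hγ] at hval
          rw [← hα] at hder
          have hα0 : 0 < α := by
            rw [hα]
            have : 0 ≤ (1 - η) / (2 * c0) := div_nonneg (by linarith) (by positivity)
            linarith
          have h5 : 0 ≤ α * q ^ 2 - τm * q + γ := by
            have e : α * q ^ 2 - τm * q + γ = (α * q0 ^ 2 - τm * q0 + γ) + (q - q0) * (α * (q + q0) - τm) := by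
              ring
            have h6 : 0 ≤ α * (q + q0) - τm := by
              have := mul_le_mul_of_nonneg_left hqq hα0.le
              linarith
            have h7 := mul_nonneg (sub_nonneg.2 hqq) h6
            linarith
          have e4 : (1 - η) * (1 - q ^ 2 + c0 ^ 2) / (2 * c0) =
              (1 - η) * (1 + c0 ^ 2) / (2 * c0) - (1 - η) / (2 * c0) * q ^ 2 := by ring
          rw [e4] at h4
          have e5 : α * q ^ 2 = q ^ 2 / 2 + (1 - η) / (2 * c0) * q ^ 2 := by rw [hα]; ring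
          linarith
        have h6 : q * κ = E0 := by rw [hq]; field_simp
        have h7 : E0 * Real.exp η = η := by
          rw [hE0, mul_assoc, ← Real.exp_add, neg_add_cancel, Real.exp_zero, mul_one]
        have h8 : 0 ≤ q * (b + κ * Real.exp η * Real.cos b - κ - τm) := by
          have e : q * (b + κ * Real.exp η * Real.cos b - κ - τm) =
              b * q + (q * κ) * Real.exp η * Real.cos b - q * κ - τm * q := by ring
          rw [e, h6, h7]
          linarith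
        have h9 := nonneg_of_mul_nonneg_right h8 hqp
        linarith
    rw [sy_eq_sp h]
    have := mul_le_mul_of_nonneg_left hb hk.le
    rw [e0] at this
    exact this

theorem y_ge_24 {κ t : ℝ} (h : DomR κ t) (hk : κ ≤ 0.29) (hτ : -0.6773 ≤ t + κ) : -0.24 ≤ sy κ t := by
  have hE := exp_neg_num (x := 0.24) (y := 0.78663) (by norm_num) (by norm_num)
  have hE2 : 0.7866 ≤ Real.exp (-0.24) := by
    have := r1_exp_ge3 (-0.24 : ℝ)
    have h2 := Real.add_one_le_exp (-0.24 : ℝ)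
    have h3 : (1 : ℝ) - 0.12 + 0.12 ^ 2 / 2 - 0.12 ^ 3 / 6 ≤ Real.exp (-0.12) := by
      have := r1_exp_ge3 (-0.12 : ℝ)
      linarith
    have h4 : Real.exp (-0.24) = Real.exp (-0.12) ^ 2 := by rw [← Real.exp_nat_mul]; norm_num
    rw [h4]
    have h5 : (0.8869 : ℝ) ≤ Real.exp (-0.12) := by linarith
    nlinarith
  refine y_ge_small h 0.24 0.759 0.1888 0.65 0.6773 (by norm_num) (by norm_num) (by linarith) (by norm_num)
    (by norm_num) (by linarith) (by norm_num) (by norm_num) hτ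

theorem y_ge_325 {κ t : ℝ} (h : DomR κ t) (hτ : -0.5373 ≤ t + κ) : -0.325 ≤ sy κ t := by
  have hE := exp_neg_num (x := 0.325) (y := 0.72253) (by norm_num) (by norm_num)
  exact y_ge_gen h 0.325 0.94 0.23483 0.5373 (by norm_num) (by norm_num) (by linarith) (by norm_num) (by norm_num)
    (by norm_num) hτ

theorem y_ge_42 {κ t : ℝ} (h : DomR κ t) (hτ : -0.6773 ≤ t + κ) : -0.42 ≤ sy κ t := by
  have hE := exp_neg_num (x := 0.42) (y := 0.65706) (by norm_num) (by norm_num)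
  exact y_ge_gen h 0.42 0.91 0.27597 0.6773 (by norm_num) (by norm_num) (by linarith) (by norm_num) (by norm_num)
    (by norm_num) hτ

/-! ### geometry -/

theorem sg_norm {κ t : ℝ} (h : DomR κ t) : ‖((sx κ t : ℂ) + (sy κ t : ℂ) * I)‖ = κ * Real.exp (-sy κ t) := by
  rw [← s_norm h, Complex.norm_def]
  congr 1
  rw [Complex.normSq_apply]
  simp
  ring

theorem sg_kappa {κ t : ℝ} (h : DomR κ t) : κ = ‖((sx κ t : ℂ) + (sy κ t : ℂ) * I)‖ * Real.exp (sy κ t) := by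
  rw [sg_norm h, mul_assoc, ← Real.exp_add]
  simp

theorem x_sq_ge {κ t : ℝ} (h : DomR κ t) (hk : 0.29 ≤ κ) :
    0.0841 * (1 + 2 * (-sy κ t) + 2 * (-sy κ t) ^ 2 + 4 / 3 * (-sy κ t) ^ 3) - sy κ t ^ 2 ≤ sx κ t ^ 2 := by
  have h1 := s_sq h
  have h2 := r1_exp_ge3 (-2 * sy κ t)
  have h3 : (0.0841 : ℝ) ≤ κ ^ 2 := by nlinarith
  have h4 := Real.exp_pos (-2 * sy κ t)
  have h5 : 0.0841 * Real.exp (-2 * sy κ t) ≤ κ ^ 2 * Real.exp (-2 * sy κ t) :=
    mul_le_mul_of_nonneg_right h3 h4.le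
  nlinarith

theorem x_le {κ t K u0 W X : ℝ} (h : DomR κ t) (hk : κ ≤ K) (hy : -u0 ≤ sy κ t) (hW : Real.exp u0 ≤ W)
    (hX : K * W ≤ X) : sx κ t ≤ X := by
  have h1 := s_norm h
  have hx := sx_pos h
  have h2 : sx κ t ≤ κ * Real.exp (-sy κ t) := by
    rw [← h1]
    apply Real.le_sqrt_of_sq_le
    nlinarith [sq_nonneg (sy κ t)]
  have h3 : Real.exp (-sy κ t) ≤ W := (Real.exp_le_exp.2 (by linarith)).trans hW
  have h4 : κ * Real.exp (-sy κ t) ≤ K * W := mul_le_mul hk h3 (Real.exp_pos _).le (h.1.le.trans hk)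
  linarith

theorem ge_of_sq {x a : ℝ} (hx : 0 < x) (h : a ^ 2 ≤ x ^ 2) : a ≤ x := by
  nlinarith [sq_nonneg (x - a), sq_nonneg (x + a)]

theorem e325 : Real.exp 0.325 ≤ 1.3841 := by
  have h := Real.exp_bound' (x := 0.325) (by norm_num) (by norm_num) (n := 7) (by norm_num)
  refine h.trans ?_
  norm_num [Finset.sum_range_succ, Nat.factorial]

theorem e29 : Real.exp 0.29 ≤ 1.3365 := by
  have h := Real.exp_bound' (x := 0.29) (by norm_num) (by norm_num) (n := 7) (by norm_num)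
  refine h.trans ?_
  norm_num [Finset.sum_range_succ, Nat.factorial]

theorem e25 : Real.exp 0.25 ≤ 1.2841 := by
  have h := Real.exp_bound' (x := 0.25) (by norm_num) (by norm_num) (n := 7) (by norm_num)
  refine h.trans ?_
  norm_num [Finset.sum_range_succ, Nat.factorial]

theorem e18 : Real.exp 0.18 ≤ 1.1973 := by
  have h := Real.exp_bound' (x := 0.18) (by norm_num) (by norm_num) (n := 7) (by norm_num)
  refine h.trans ?_
  norm_num [Finset.sum_range_succ, Nat.factorial]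

theorem e12 : Real.exp 0.12 ≤ 1.1275 := by
  have h := Real.exp_bound' (x := 0.12) (by norm_num) (by norm_num) (n := 7) (by norm_num)
  refine h.trans ?_
  norm_num [Finset.sum_range_succ, Nat.factorial]

theorem e42 : Real.exp 0.42 ≤ 1.522 := by
  have h := Real.exp_bound' (x := 0.42) (by norm_num) (by norm_num) (n := 7) (by norm_num)
  refine h.trans ?_
  norm_num [Finset.sum_range_succ, Nat.factorial]

theorem e37 : Real.exp 0.37 ≤ 1.4478 := by
  have h := Real.exp_bound' (x := 0.37) (by norm_num) (by norm_num) (n := 7) (by norm_num)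
  refine h.trans ?_
  norm_num [Finset.sum_range_succ, Nat.factorial]

theorem e24 : Real.exp 0.24 ≤ 1.2713 := by
  have h := Real.exp_bound' (x := 0.24) (by norm_num) (by norm_num) (n := 7) (by norm_num)
  refine h.trans ?_
  norm_num [Finset.sum_range_succ, Nat.factorial]

theorem e36 : Real.exp 0.36 ≤ 1.4334 := by
  have h := Real.exp_bound' (x := 0.36) (by norm_num) (by norm_num) (n := 7) (by norm_num)
  refine h.trans ?_
  norm_num [Finset.sum_range_succ, Nat.factorial]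

theorem em26 : Real.exp (-0.26) ≤ 0.7711 :=
  exp_neg_num (x := 0.26) (y := 0.7711) (by norm_num) (by norm_num)

theorem em32 : Real.exp (-0.32) ≤ 0.7262 :=
  exp_neg_num (x := 0.32) (y := 0.7262) (by norm_num) (by norm_num)

theorem em72 {z : ℝ} (hz : -0.72 ≤ z) : (0.48 : ℝ) ≤ Real.exp z := by
  have h6 := Real.add_one_le_exp (z + 0.7)
  have h7 : Real.exp z = Real.exp (z + 0.7) * Real.exp (-0.7) := by
    rw [← Real.exp_add]; congr 1; ring
  have h8 : (0.4955 : ℝ) ≤ Real.exp (-0.7) := by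
    have h9 := r1_exp_ge3 (-0.35 : ℝ)
    have h10 : Real.exp (-0.7) = Real.exp (-0.35) ^ 2 := by rw [← Real.exp_nat_mul]; norm_num
    rw [h10]
    have h11 : (0.704 : ℝ) ≤ Real.exp (-0.35) := by linarith
    have h12 := pow_le_pow_left₀ (by norm_num) h11 2
    linarith
  rw [h7]
  have h9 : (0.98 : ℝ) ≤ Real.exp (z + 0.7) := by linarith
  have h10 := mul_le_mul h9 h8 (by norm_num) (Real.exp_pos _).le
  linarith

/-! ### `J` for the saddles -/

/-- all angles, `|σ| ≤ 0.37` -/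
theorem J45_37 {β x y : ℝ} (hβ : 0 < β) (hβ1 : β ≤ 1 / 38) (hn : ‖(x + y * I : ℂ)‖ ≤ 0.37) :
    ‖HH β (x + y * I) - 1‖ ≤ 0.56 * β := by
  refine J45_gen (n0 := 0.37) (a := 0.63) (wL := 1.745) (wR := 2.127) (E1 := 0.00122) (E2 := 0.00001)
    (E3 := 0.00712) (E4 := 0.0000004) (E5 := 0.0000002) hβ hβ1 hn (by norm_num) (by norm_num) (by norm_num) ?_ ?_ ?_ ?_ ?_ ?_ ?_ ?_
  · exact cube_sqrt_geJ (s := 0.9236) (by norm_num) (by norm_num) (by norm_num) (by norm_num)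
  · exact cube_sqrt_geJ (s := 0.8978) (by norm_num) (by norm_num) (by norm_num) (by norm_num)
  · exact exp_neg_leJ (r := 0.72) 6 (by norm_num) (by norm_num) (by norm_num) (by norm_num)
  · exact exp_neg_leJ (r := 0.5) 12 (by norm_num) (by norm_num) (by norm_num) (by norm_num)
  · exact exp_neg_leJ (r := 0.95) 4 (by norm_num) (by norm_num) (by norm_num) (by norm_num)
  · exact exp_neg_leJ (r := 0.05) 15 (by norm_num) (by norm_num) (by norm_num) (by norm_num)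
  · exact exp_neg_leJ (r := 0.5) 15 (by norm_num) (by norm_num) (by norm_num) (by norm_num)
  · norm_num

theorem beta_le {β κ c K B : ℝ} (_hβ : 0 < β) (hR : β * (c * (1 + κ ^ 2)) ≤ κ) (hc : 0 < c) (hk0 : 0 < κ)
    (hk : κ ≤ K) (hK : K ≤ 1) (hB : K ≤ B * (c * (1 + K ^ 2))) (hB0 : 0 ≤ B) : β ≤ B := by
  have hK0 : 0 < K := lt_of_lt_of_le hk0 hk
  have h1 : κ * (1 + K ^ 2) ≤ K * (1 + κ ^ 2) := by
    have h3 : 0 ≤ 1 - κ * K := by nlinarith
    have := mul_nonneg (sub_nonneg.2 hk) h3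
    linarith
  have h2 : κ * K ≤ κ * (B * (c * (1 + K ^ 2))) := mul_le_mul_of_nonneg_left hB hk0.le
  have h3 : B * c * (κ * (1 + K ^ 2)) ≤ B * c * (K * (1 + κ ^ 2)) :=
    mul_le_mul_of_nonneg_left h1 (by positivity)
  have h4 : κ * K ≤ (B * (c * (1 + κ ^ 2))) * K := by linarith
  have h5 : κ ≤ B * (c * (1 + κ ^ 2)) := le_of_mul_le_mul_right h4 hK0
  have h6 : β * (c * (1 + κ ^ 2)) ≤ B * (c * (1 + κ ^ 2)) := hR.trans h5
  exact le_of_mul_le_mul_right h6 (by positivity)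

/-- small `κ` -/
theorem J_sm {κ t β : ℝ} (h : DomR κ t) (hβ : 0 < β) (hR : β * (10.4 * (1 + κ ^ 2)) ≤ κ) (hk1 : κ ≤ 0.29)
    (hτ : -0.6773 ≤ t + κ) : ‖HH β (sg κ t) - 1‖ ≤ 0.015 := by
  have hy := y_ge_24 h hk1 hτ
  have hβ1 : β ≤ 1 / 38 := beta_le hβ hR (by norm_num) h.1 hk1 (by norm_num) (by norm_num) (by norm_num)
  have hn : ‖((sx κ t : ℂ) + (sy κ t : ℂ) * I)‖ ≤ 0.37 := by
    rw [sg_norm h]
    have h3 : Real.exp (-sy κ t) ≤ 1.2713 := (Real.exp_le_exp.2 (by linarith)).trans e24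
    have h4 : κ * Real.exp (-sy κ t) ≤ 0.29 * 1.2713 := mul_le_mul hk1 h3 (Real.exp_pos _).le (by norm_num)
    linarith
  have := J45_37 hβ hβ1 hn
  unfold sg
  linarith

/-- the main range, left -/
theorem J_midL {κ t β : ℝ} (h : DomR κ t) (hβ : 0 < β) (hR : β * (10.4 * (1 + κ ^ 2)) ≤ κ)
    (hk0 : 0.29 ≤ κ) (hk1 : κ ≤ 1.5) (hy : -0.325 ≤ sy κ t) (hy0 : sy κ t ≤ 0) :
    ‖HH β (sg κ t) - 1‖ ≤ 0.034 := by
  have hx := sx_pos h
  have hκ := sg_kappa h
  have hk := h.1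
  have hxx := x_sq_ge h hk0
  unfold sg
  obtain ⟨u, hu⟩ : ∃ u, u = -sy κ t := ⟨_, rfl⟩
  have hu0 : 0 ≤ u := by rw [hu]; linarith
  have hu1 : u ≤ 0.325 := by rw [hu]; linarith
  have e : sy κ t ^ 2 = u ^ 2 := by rw [hu]; ring
  have hxu : 0.0841 * (1 + 2 * u + 2 * u ^ 2) - u ^ 2 ≤ sx κ t ^ 2 := by
    rw [← hu, e] at hxx
    have : 0 ≤ u ^ 3 := by positivity
    linarith
  -- the lower bound is concave in `u`
  have conc : ∀ lo hi c : ℝ, lo ≤ u → u ≤ hi → c ≤ 0.0841 * (1 + 2 * lo + 2 * lo ^ 2) - lo ^ 2 →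
      c ≤ 0.0841 * (1 + 2 * hi + 2 * hi ^ 2) - hi ^ 2 → c ≤ sx κ t ^ 2 := by
    intro lo hi c h1 h2 e1 e2
    refine le_trans ?_ hxu
    have := quad_conc (α := -0.8318) (β := 0.1682) (γ := 0.0841 - c) (lo := lo) (hi := hi) (s := u)
      (by norm_num) h1 h2 (by linarith) (by linarith)
    linarith
  rcases le_or_gt (sy κ t) (-0.29) with h1 | h1
  · exact JP1_a hβ hx hκ hk hR
      (ge_of_sq hx (conc 0.29 0.325 (0.22 ^ 2) (by linarith) (by linarith) (by norm_num) (by norm_num)))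
      (x_le (u0 := 0.325) h hk1 hy e325 (by norm_num)) hy h1
  rcases le_or_gt (sy κ t) (-0.25) with h2 | h2
  · exact JP1_b hβ hx hκ hk hR
      (ge_of_sq hx (conc 0.25 0.29 (0.25 ^ 2) (by linarith) (by linarith) (by norm_num) (by norm_num)))
      (x_le (u0 := 0.29) h hk1 h1.le e29 (by norm_num)) h1.le h2
  rcases le_or_gt (sy κ t) (-0.18) with h3 | h3
  · exact JP1_c hβ hx hκ hk hR
      (ge_of_sq hx (conc 0.18 0.25 (0.26 ^ 2) (by linarith) (by linarith) (by norm_num) (by norm_num)))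
      (x_le (u0 := 0.25) h hk1 h2.le e25 (by norm_num)) h2.le h3
  rcases le_or_gt (sy κ t) (-0.12) with h4 | h4
  · exact JP1_d hβ hx hκ hk hR
      (ge_of_sq hx (conc 0.12 0.18 (0.27 ^ 2) (by linarith) (by linarith) (by norm_num) (by norm_num)))
      (x_le (u0 := 0.18) h hk1 h3.le e18 (by norm_num)) h3.le h4
  exact (JP2_a hβ hx hκ hk hR
      (ge_of_sq hx (conc 0 0.12 (0.16 ^ 2) (by linarith) (by linarith) (by norm_num) (by norm_num)))
      (x_le (u0 := 0.12) h hk1 h4.le e12 (by norm_num)) h4.le (by linarith)).trans (by norm_num)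

theorem y_up {κ t : ℝ} (h : DomR κ t) (hk1 : κ ≤ 1.5) (hτ0 : 0 ≤ t + κ) (hτ : t + κ ≤ 0.7192) :
    sy κ t * (1 + κ ^ 2) ≤ κ * 0.7192 ∧ sy κ t ≤ 0.3596 := by
  have hk := h.1
  have hyu : sy κ t * (1 + κ ^ 2) ≤ κ * 0.7192 := by
    have h1 := spR_le h hτ0 (by nlinarith)
    rw [le_div_iff₀ (by positivity)] at h1
    rw [sy_eq_sp h]
    have h2 : κ * (sp κ t * (1 + κ ^ 2)) ≤ κ * (t + κ) := mul_le_mul_of_nonneg_left h1 hk.le
    have h3 : κ * (t + κ) ≤ κ * 0.7192 := mul_le_mul_of_nonneg_left hτ hk.le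
    linarith
  refine ⟨hyu, ?_⟩
  have h1 : κ * 0.7192 ≤ 0.3596 * (1 + κ ^ 2) := by nlinarith [sq_nonneg (κ - 1)]
  have h2 : sy κ t * (1 + κ ^ 2) ≤ 0.3596 * (1 + κ ^ 2) := hyu.trans h1
  exact le_of_mul_le_mul_right h2 (by positivity)

/-- the main range, right -/
theorem J_midR {κ t β : ℝ} (h : DomR κ t) (hβ : 0 < β) (hR : β * (10.4 * (1 + κ ^ 2)) ≤ κ)
    (hk1 : κ ≤ 1.5) (hy0 : 0 < sy κ t) (hτ : t + κ ≤ 0.7192) :
    ‖HH β (sg κ t) - 1‖ ≤ 0.034 := by
  have hx := sx_pos h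
  have hκ := sg_kappa h
  have hk := h.1
  unfold sg
  have hτ0 : 0 < t + κ := by
    by_contra hcon
    push Not at hcon
    have := sy_nonpos h hcon
    linarith
  obtain ⟨hyu, hy36⟩ := y_up h hk1 hτ0.le hτ
  rcases le_or_gt ‖((sx κ t : ℂ) + (sy κ t : ℂ) * I)‖ 0.36 with hn | hn
  · have hκ2 : κ ≤ 0.52 := by
      rw [hκ]
      have h1 : Real.exp (sy κ t) ≤ 1.4334 := (Real.exp_le_exp.2 (by linarith)).trans e36
      have h2 := mul_le_mul hn h1 (Real.exp_pos _).le (by norm_num)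
      linarith
    have hβ1 : β ≤ 1 / 25 := beta_le hβ hR (by norm_num) hk hκ2 (by norm_num) (by norm_num) (by norm_num)
    have := J45_36b hβ hβ1 hn
    linarith
  · have hn2 : 0.1296 - sy κ t ^ 2 ≤ sx κ t ^ 2 := by
      have h1 := s_norm h
      have h2 := sg_norm h
      rw [← h1] at h2
      rw [h2] at hn
      have h3 := Real.sq_sqrt (x := sx κ t ^ 2 + sy κ t ^ 2) (by positivity)
      nlinarith
    rcases le_or_gt (sy κ t) 0.26 with h1 | h1
    · have h8 : sy κ t ^ 2 ≤ 0.0676 := by nlinarith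
      have h9 : (0.16 : ℝ) ^ 2 ≤ sx κ t ^ 2 := by linarith
      exact (JP2_a hβ hx hκ hk hR (ge_of_sq hx h9) (x_le (u0 := 0.12) h hk1 (by linarith) e12
        (by norm_num)) (by linarith) h1).trans (by norm_num)
    rcases le_or_gt (sy κ t) 0.32 with h2 | h2
    · have h8 : sy κ t ^ 2 ≤ 0.1024 := by nlinarith
      have h9 : (0.16 : ℝ) ^ 2 ≤ sx κ t ^ 2 := by linarith
      exact (JP2_b hβ hx hκ hk hR (ge_of_sq hx h9) (x_le (u0 := -0.26) h hk1 (by linarith) em26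
        (by norm_num)) h1.le h2).trans (by norm_num)
    · -- then `κ ≥ 0.6`
      have hκ6 : 0.6 ≤ κ := by
        by_contra hcon
        push Not at hcon
        have h3 : 0.32 * (1 + κ ^ 2) ≤ sy κ t * (1 + κ ^ 2) := mul_le_mul_of_nonneg_right h2.le (by positivity)
        nlinarith
      have h3 := s_sq h
      have h5 : (0.48 : ℝ) ≤ Real.exp (-2 * sy κ t) := em72 (by linarith)
      have h6 : (0.36 : ℝ) ≤ κ ^ 2 := by nlinarith
      have h7 : (0.36 : ℝ) * 0.48 ≤ κ ^ 2 * Real.exp (-2 * sy κ t) :=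
        mul_le_mul h6 h5 (by norm_num) (by positivity)
      have h8 : sy κ t ^ 2 ≤ 0.1296 := by nlinarith
      have h9 : (0.16 : ℝ) ^ 2 ≤ sx κ t ^ 2 := by linarith
      exact (JP2_c hβ hx hκ hk hR (ge_of_sq hx h9) (x_le (u0 := -0.32) h hk1 (by linarith) em32
        (by norm_num)) h2.le (by linarith)).trans (by norm_num)

/-- the main range -/
theorem J_mid {κ t β : ℝ} (h : DomR κ t) (hβ : 0 < β) (hR : β * (10.4 * (1 + κ ^ 2)) ≤ κ)
    (hk0 : 0.29 ≤ κ) (hk1 : κ ≤ 1.5) (hy : -0.325 ≤ sy κ t) (hτ : t + κ ≤ 0.7192) :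
    ‖HH β (sg κ t) - 1‖ ≤ 0.034 := by
  rcases le_or_gt (sy κ t) 0 with hy0 | hy0
  · exact J_midL h hβ hR hk0 hk1 hy hy0
  · exact J_midR h hβ hR hk1 hy0 hτ

/-- the range `-0.42 ≤ y ≤ -0.325` -/
theorem J_low {κ t β : ℝ} (h : DomR κ t) (hβ : 0 < β) (hR : β * (11.1 * (1 + κ ^ 2)) ≤ κ)
    (hk0 : 0.29 ≤ κ) (hk1 : κ ≤ 1.39) (hy : -0.42 ≤ sy κ t) (hy2 : sy κ t ≤ -0.325) :
    ‖HH β (sg κ t) - 1‖ ≤ 0.05 := by
  have hx := sx_pos h
  have hκ := sg_kappa h
  have hk := h.1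
  have hxx := x_sq_ge h hk0
  unfold sg
  obtain ⟨u, hu⟩ : ∃ u, u = -sy κ t := ⟨_, rfl⟩
  have hu0 : 0.325 ≤ u := by rw [hu]; linarith
  have hu1 : u ≤ 0.42 := by rw [hu]; linarith
  have e : sy κ t ^ 2 = u ^ 2 := by rw [hu]; ring
  rw [← hu, e] at hxx
  rcases le_or_gt (sy κ t) (-0.37) with h1 | h1
  · refine JN2_c hβ hx hκ hk hR (ge_of_sq hx ?_) (x_le (u0 := 0.42) h hk1 hy e42 (by norm_num)) hy h1
    refine le_trans ?_ hxx
    have h2 : 0.37 ≤ u := by linarith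
    nlinarith [mul_nonneg (sub_nonneg.2 h2) (sub_nonneg.2 hu1), mul_nonneg (sub_nonneg.2 hu1) (sq_nonneg u)]
  · refine JN2_d hβ hx hκ hk hR (ge_of_sq hx ?_) (x_le (u0 := 0.37) h hk1 h1.le e37 (by norm_num)) h1.le hy2
    refine le_trans ?_ hxx
    have h2 : u ≤ 0.37 := by linarith
    nlinarith [mul_nonneg (sub_nonneg.2 h2) (sub_nonneg.2 hu0)]

/-! ### copies -/

theorem Xf_bounds {β κ R h t ε τ : ℝ} {k : ℤ} (hk0 : 0 < κ) (hR : 0 < R) (hβ : β = κ / R)
    (hτ : t + (k - 1) * h = τ) (hd : DomR κ τ) (hJ : ‖HH β (sg κ τ) - 1‖ ≤ ε) :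
    (1 - ε) * sQ β κ τ ≤ ‖Xf β R h t k‖ ∧ ‖Xf β R h t k‖ ≤ (1 + ε) * sQ β κ τ := by
  have hβ0 : 0 < β := by rw [hβ]; positivity
  have e : κ / β = R := by rw [hβ]; field_simp
  have hX : Xf β R h t k = F (cexp (I * β)) (zs β (sg κ τ)) := by
    unfold Xf
    congr 1
    have h1 := s_point hd hβ0.ne'
    rw [e] at h1
    rw [hτ, mul_comm I, ← h1]
    rfl
  rw [hX, norm_F_eq hd hβ0]
  constructor
  · apply mul_le_mul_of_nonneg_right _ (sQ_pos hd).le
    have h1 := norm_sub_norm_le 1 (1 - HH β (sg κ τ))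
    rw [norm_one, norm_sub_rev 1] at h1
    have h2 : (1 : ℂ) - (1 - HH β (sg κ τ)) = HH β (sg κ τ) := by ring
    rw [h2] at h1
    linarith
  · apply mul_le_mul_of_nonneg_right _ (sQ_pos hd).le
    have h1 := norm_add_le (HH β (sg κ τ) - 1) 1
    rw [sub_add_cancel, norm_one] at h1
    linarith

theorem beta_R {κ R β c : ℝ} (hk : 0 < κ) (hR0 : 0 < R) (hβ : β = κ / R) (hR : c * (1 + κ ^ 2) ≤ R) :
    β * (c * (1 + κ ^ 2)) ≤ κ := by
  have hβ0 : 0 < β := by rw [hβ]; positivity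
  have h1 := mul_le_mul_of_nonneg_left hR hβ0.le
  have e : β * R = κ := by rw [hβ]; field_simp
  linarith

theorem DP_R {b : ℕ} {h κ R t : ℝ} (H : DP b h κ R t) : 10.4 * (1 + κ ^ 2) ≤ R := by
  have h1 := h_le9 H.hb H.hh
  have h2 := H.hpos
  have h3 := H.T1
  have hR : 0 < R := lt_of_lt_of_le (by norm_num) H.R1
  have h4 : h ^ 2 ≤ 0.6982 ^ 2 := pow_le_pow_left₀ h2.le h1 2
  have h5 : R * h ^ 2 ≤ R * 0.6982 ^ 2 := mul_le_mul_of_nonneg_left h4 hR.le
  nlinarith [sq_nonneg κ]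

theorem OP_R {b : ℕ} {h κ R t : ℝ} (H : OP b h κ R t) : 11.1 * (1 + κ ^ 2) ≤ R := by
  have h1 := h_le9 H.hb H.hh
  have h2 := h_pos H.hb H.hh
  have h3 := H.T1
  have hR : 0 < R := lt_of_lt_of_le (by norm_num) H.R1
  have h4 : h ^ 2 ≤ 0.6982 ^ 2 := pow_le_pow_left₀ h2.le h1 2
  have h5 : R * h ^ 2 ≤ R * 0.6982 ^ 2 := mul_le_mul_of_nonneg_left h4 hR.le
  nlinarith [sq_nonneg κ]

theorem OP_dom {b : ℕ} {h κ R t : ℝ} (H : OP b h κ R t) : DomR κ (t - h) ∧ DomR κ t := by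
  have hp := h_pos H.hb H.hh
  have hh := h_le9 H.hb H.hh
  have hk := H.k0
  have hlo := H.lo
  have hhi := H.hi
  have hpi := Real.pi_gt_d2
  have he : Real.exp (-1) < κ ∨ κ ≤ 0.38 := by
    rcases le_or_gt κ 0.38 with h3 | h3
    · exact Or.inr h3
    · left
      have := Real.exp_neg_one_lt_d9
      linarith
  refine ⟨⟨hk, by linarith, ?_⟩, ⟨hk, by linarith, ?_⟩⟩
  · rcases he with h3 | h3
    · exact Or.inl h3
    · right; linarith
  · rcases he with h3 | h3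
    · exact Or.inl h3
    · right; linarith

end RG

open RG

/-- ROW G: the two main copies on the discs -/
theorem DP.G {b : ℕ} {h κ R t β : ℝ} (H : DP b h κ R t) (hβ : β = κ / R) :
    (0.966 * sQ β κ (t - h) ≤ ‖Xf β R h t 0‖ ∧ ‖Xf β R h t 0‖ ≤ 1.034 * sQ β κ (t - h)) ∧
    (0.966 * sQ β κ t ≤ ‖Xf β R h t 1‖ ∧ ‖Xf β R h t 1‖ ≤ 1.034 * sQ β κ t) := by
  obtain ⟨s, hs, -, -, h1, h2⟩ := H.exists_s
  obtain ⟨d0, d1, -⟩ := H.dom
  have hp := H.hpos
  have hh := h_le9 H.hb H.hh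
  have hk := H.k0
  have hR0 : 0 < R := lt_of_lt_of_le (by norm_num) H.R1
  have hβ0 : 0 < β := by rw [hβ]; positivity
  have hR := beta_R hk hR0 hβ (DP_R H)
  have hsh : s * h ≤ 0.7895 * 0.6982 := mul_le_mul h2 hh hp.le (by norm_num)
  have hn : (1 - s) * h ≤ 0.7695 * 0.6982 := mul_le_mul (by linarith) hh hp.le (by norm_num)
  have hsh0 : 0 < s * h := mul_pos (by linarith) hp
  have hn0 : -0.5373 ≤ t - h + κ := by linarith
  have hJ0 : ‖HH β (sg κ (t - h)) - 1‖ ≤ 0.034 := by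
    rcases le_or_gt κ 0.29 with hκ | hκ
    · exact (J_sm d0 hβ0 hR hκ (by linarith)).trans (by norm_num)
    · exact J_mid d0 hβ0 hR hκ.le H.k1 (y_ge_325 d0 hn0) (by linarith)
  have hJ1 : ‖HH β (sg κ t) - 1‖ ≤ 0.034 := by
    rcases le_or_gt κ 0.29 with hκ | hκ
    · exact (J_sm d1 hβ0 hR hκ (by linarith)).trans (by norm_num)
    · exact J_mid d1 hβ0 hR hκ.le H.k1 (by have := sy_nonneg d1 (by linarith); linarith) (by linarith)
  have g0 := Xf_bounds (h := h) (t := t) (k := 0) hk hR0 hβ (by push_cast; ring) d0 hJ0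
  have g1 := Xf_bounds (h := h) (t := t) (k := 1) hk hR0 hβ (by push_cast; ring) d1 hJ1
  norm_num at g0 g1 ⊢
  exact ⟨g0, g1⟩

/-- ROW G: small `κ` -/
theorem DP.Gs {b : ℕ} {h κ R t β : ℝ} (H : DP b h κ R t) (hκ : κ ≤ 0.29) (hβ : β = κ / R) :
    (0.985 * sQ β κ (t - h) ≤ ‖Xf β R h t 0‖ ∧ ‖Xf β R h t 0‖ ≤ 1.015 * sQ β κ (t - h)) ∧
    (0.985 * sQ β κ t ≤ ‖Xf β R h t 1‖ ∧ ‖Xf β R h t 1‖ ≤ 1.015 * sQ β κ t) := by
  obtain ⟨s, hs, -, -, h1, h2⟩ := H.exists_s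
  obtain ⟨d0, d1, -⟩ := H.dom
  have hp := H.hpos
  have hh := h_le9 H.hb H.hh
  have hk := H.k0
  have hR0 : 0 < R := lt_of_lt_of_le (by norm_num) H.R1
  have hβ0 : 0 < β := by rw [hβ]; positivity
  have hR := beta_R hk hR0 hβ (DP_R H)
  have hn : (1 - s) * h ≤ 0.7695 * 0.6982 := mul_le_mul (by linarith) hh hp.le (by norm_num)
  have hsh0 : 0 < s * h := mul_pos (by linarith) hp
  have hJ0 := J_sm d0 hβ0 hR hκ (by linarith)
  have hJ1 := J_sm d1 hβ0 hR hκ (by linarith)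
  have g0 := Xf_bounds (h := h) (t := t) (k := 0) hk hR0 hβ (by push_cast; ring) d0 hJ0
  have g1 := Xf_bounds (h := h) (t := t) (k := 1) hk hR0 hβ (by push_cast; ring) d1 hJ1
  norm_num at g0 g1 ⊢
  exact ⟨g0, g1⟩

/-- ROW G: the two main copies on the outer segment -/
theorem OP.G {b : ℕ} {h κ R t β : ℝ} (H : OP b h κ R t) (hβ : β = κ / R) :
    (0.95 * sQ β κ (t - h) ≤ ‖Xf β R h t 0‖ ∧ ‖Xf β R h t 0‖ ≤ 1.05 * sQ β κ (t - h)) ∧
    (0.966 * sQ β κ t ≤ ‖Xf β R h t 1‖ ∧ ‖Xf β R h t 1‖ ≤ 1.034 * sQ β κ t) := by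
  obtain ⟨d0, d1⟩ := OP_dom H
  have hp := h_pos H.hb H.hh
  have hh := h_le9 H.hb H.hh
  have hk := H.k0
  have hlo := H.lo
  have hhi := H.hi
  have hR0 : 0 < R := lt_of_lt_of_le (by norm_num) H.R1
  have hβ0 : 0 < β := by rw [hβ]; positivity
  have hR := beta_R hk hR0 hβ (OP_R H)
  have hR' : β * (10.4 * (1 + κ ^ 2)) ≤ κ := by
    have : 0 ≤ β * (1 + κ ^ 2) := by positivity
    linarith
  have hJ0 : ‖HH β (sg κ (t - h)) - 1‖ ≤ 0.05 := by
    rcases le_or_gt κ 0.29 with hκ | hκ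
    · exact (J_sm d0 hβ0 hR' hκ (by linarith)).trans (by norm_num)
    · rcases le_or_gt (-0.325) (sy κ (t - h)) with h3 | h3
      · exact (J_mid d0 hβ0 hR' hκ.le (by linarith [H.k1]) h3 (by linarith)).trans (by norm_num)
      · exact J_low d0 hβ0 hR hκ.le H.k1 (y_ge_42 d0 (by linarith)) h3.le
  have hJ1 : ‖HH β (sg κ t) - 1‖ ≤ 0.034 := by
    rcases le_or_gt κ 0.29 with hκ | hκ
    · exact (J_sm d1 hβ0 hR' hκ (by linarith)).trans (by norm_num)
    · exact J_mid d1 hβ0 hR' hκ.le (by linarith [H.k1]) (by have := sy_nonneg d1 (by linarith); linarith)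
        (by linarith)
  have g0 := Xf_bounds (h := h) (t := t) (k := 0) hk hR0 hβ (by push_cast; ring) d0 hJ0
  have g1 := Xf_bounds (h := h) (t := t) (k := 1) hk hR0 hβ (by push_cast; ring) d1 hJ1
  norm_num at g0 g1 ⊢
  exact ⟨g0, g1⟩

/-- ROW G: small `κ` -/
theorem OP.Gs {b : ℕ} {h κ R t β : ℝ} (H : OP b h κ R t) (hκ : κ ≤ 0.29) (hβ : β = κ / R) :
    (0.985 * sQ β κ (t - h) ≤ ‖Xf β R h t 0‖ ∧ ‖Xf β R h t 0‖ ≤ 1.015 * sQ β κ (t - h)) ∧
    (0.985 * sQ β κ t ≤ ‖Xf β R h t 1‖ ∧ ‖Xf β R h t 1‖ ≤ 1.015 * sQ β κ t) := by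
  obtain ⟨d0, d1⟩ := OP_dom H
  have hp := h_pos H.hb H.hh
  have hh := h_le9 H.hb H.hh
  have hk := H.k0
  have hlo := H.lo
  have hhi := H.hi
  have hR0 : 0 < R := lt_of_lt_of_le (by norm_num) H.R1
  have hβ0 : 0 < β := by rw [hβ]; positivity
  have hR := beta_R hk hR0 hβ (OP_R H)
  have hR' : β * (10.4 * (1 + κ ^ 2)) ≤ κ := by
    have : 0 ≤ β * (1 + κ ^ 2) := by positivity
    linarith
  have hJ0 := J_sm d0 hβ0 hR' hκ (by linarith)
  have hJ1 := J_sm d1 hβ0 hR' hκ (by linarith)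
  have g0 := Xf_bounds (h := h) (t := t) (k := 0) hk hR0 hβ (by push_cast; ring) d0 hJ0
  have g1 := Xf_bounds (h := h) (t := t) (k := 1) hk hR0 hβ (by push_cast; ring) d1 hJ1
  norm_num at g0 g1 ⊢
  exact ⟨g0, g1⟩

end Sok
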