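import Pool.Agent.Lib.MP_816dec_an.R1BK2D

/-!
MP_816dec_an (A3, row R1, `b ≥ 9`): the copy `-1` on the outer segment, `0.85 h < t + κ`, `κ ≥ 0.29`.
-/

set_option autoImplicit false

open Complex Set Filter Topology Metric

namespace Sok

/-- upper bound of `sE` on the left with the third order gain; `σ = u / (1 + κ²)` -/
theorem VLgain {κ t u σ : ℝ} (h : DomR κ t) (hk : 0.29 ≤ κ) (hu : u = -(t + κ)) (hu0 : 0 ≤ u)
    (hu1 : u ≤ 0.81) (hσ : σ = u / (1 + κ ^ 2)) :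
    sE κ t ≤ 1 - (1 + κ ^ 2) * σ ^ 2 / 2 -
      σ ^ 3 * (κ / 2 - κ ^ 3 / 5 - (κ ^ 2 / 4 + 1 / 24) * σ - σ ^ 3 / 30) := by
  have hA : 0 < 1 + κ ^ 2 := by positivity
  have hσ0 : 0 ≤ σ := by rw [hσ]; positivity
  have hσ1 : σ ≤ 0.8 := by
    rw [hσ, div_le_iff₀ hA]
    nlinarith
  have hx0 : 0 ≤ κ * σ := by positivity
  have hx1 : κ * σ ≤ 13 / 20 := by
    rw [hσ]
    have e : κ * (u / (1 + κ ^ 2)) = κ * u / (1 + κ ^ 2) := by ring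
    rw [e, div_le_iff₀ hA]
    nlinarith [sq_nonneg (κ - 1)]
  have hs0 : 0 < Real.exp (κ * -σ) := Real.exp_pos _
  have hs : Real.exp (κ * -σ) ≤ 1 := Real.exp_le_one_iff.2 (by linarith)
  have hq : |(-σ) * Real.exp (κ * -σ)| ≤ 0.8 := by
    rw [abs_mul, abs_neg, abs_of_nonneg hσ0, abs_of_pos hs0]
    calc σ * Real.exp (κ * -σ) ≤ 0.8 * 1 := mul_le_mul hσ1 hs hs0.le (by norm_num)
      _ = 0.8 := by norm_num
  have h1 := up24 h hq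
  have e0 : -(κ * -σ) = κ * σ := by ring
  rw [e0] at h1
  have h2 := r1_exp_le3 hx0 hx1
  have h3 : Real.exp (κ * -σ) ≤ 1 - κ * σ + (κ * σ) ^ 2 / 2 := by
    have := r1_exp_le2 (z := κ * -σ) (by linarith)
    refine this.trans (le_of_eq ?_)
    ring
  have h4 : Real.exp (κ * -σ) ^ 3 ≤ 1 := pow_le_one₀ hs0.le hs
  have h5 : Real.exp (κ * -σ) ^ 5 ≤ 1 := pow_le_one₀ hs0.le hs
  have h6 : (-σ) ^ 2 * Real.exp (κ * -σ) / 2 ≤ σ ^ 2 * (1 - κ * σ + (κ * σ) ^ 2 / 2) / 2 := by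
    have := mul_le_mul_of_nonneg_left h3 (sq_nonneg σ)
    have e : (-σ) ^ 2 = σ ^ 2 := by ring
    rw [e]
    linarith
  have h7 : (-σ) ^ 4 * Real.exp (κ * -σ) ^ 3 / 24 ≤ σ ^ 4 / 24 := by
    have := mul_le_mul_of_nonneg_left h4 (by positivity : 0 ≤ σ ^ 4)
    have e : (-σ) ^ 4 = σ ^ 4 := by ring
    rw [e]
    linarith
  have h8 : (-σ) ^ 6 * Real.exp (κ * -σ) ^ 5 / 30 ≤ σ ^ 6 / 30 := by
    have := mul_le_mul_of_nonneg_left h5 (by positivity : 0 ≤ σ ^ 6)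
    have e : (-σ) ^ 6 = σ ^ 6 := by ring
    rw [e]
    linarith
  have ht : t = -κ - (1 + κ ^ 2) * σ := by
    rw [hσ]
    field_simp
    linarith
  have h9 : -σ * t = κ * σ + (1 + κ ^ 2) * σ ^ 2 := by rw [ht]; ring
  rw [h9] at h1
  have e1 : 1 - (1 + κ ^ 2) * σ ^ 2 / 2 -
      σ ^ 3 * (κ / 2 - κ ^ 3 / 5 - (κ ^ 2 / 4 + 1 / 24) * σ - σ ^ 3 / 30) =
      (1 + κ * σ + (κ * σ) ^ 2 / 2 + (κ * σ) ^ 3 / 5) + σ ^ 2 * (1 - κ * σ + (κ * σ) ^ 2 / 2) / 2 +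
      σ ^ 4 / 24 + σ ^ 6 / 30 - (κ * σ + (1 + κ ^ 2) * σ ^ 2) := by ring
  rw [e1]
  linarith

/-- the form `1 - c u² / (1 + κ²)` -/
theorem VLgain' {κ t u γ : ℝ} (h : DomR κ t) (hk : 0.29 ≤ κ) (hu : u = -(t + κ)) (hu0 : 0 ≤ u)
    (hu1 : u ≤ 0.81)
    (hγ : γ * (1 + κ ^ 2) ^ 3 ≤ u * (κ / 2 - κ ^ 3 / 5) * (1 + κ ^ 2) - (κ ^ 2 / 4 + 0.0603) * u ^ 2) :
    sE κ t ≤ 1 - (1 / 2 + γ) * (t + κ) ^ 2 / (1 + κ ^ 2) := by
  have hA : 0 < 1 + κ ^ 2 := by positivity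
  obtain ⟨σ, hσ⟩ : ∃ σ, σ = u / (1 + κ ^ 2) := ⟨_, rfl⟩
  have h1 := VLgain h hk hu hu0 hu1 hσ
  refine h1.trans ?_
  have hσ0 : 0 ≤ σ := by rw [hσ]; positivity
  have huσ : u = (1 + κ ^ 2) * σ := by rw [hσ]; field_simp
  have hσ1 : σ ≤ 0.7473 := by
    rw [hσ, div_le_iff₀ hA]
    nlinarith
  have e1 : (1 / 2 + γ) * (t + κ) ^ 2 / (1 + κ ^ 2) = (1 + κ ^ 2) * σ ^ 2 / 2 + γ * (1 + κ ^ 2) * σ ^ 2 := by
    have : t + κ = -u := by linarith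
    rw [this, huσ]
    field_simp
  rw [e1]
  have h2 : γ * (1 + κ ^ 2) ≤ σ * (κ / 2 - κ ^ 3 / 5 - (κ ^ 2 / 4 + 0.0603) * σ) := by
    rw [huσ] at hγ
    have h3 : (1 + κ ^ 2) ^ 2 * (γ * (1 + κ ^ 2)) ≤
        (1 + κ ^ 2) ^ 2 * (σ * (κ / 2 - κ ^ 3 / 5 - (κ ^ 2 / 4 + 0.0603) * σ)) := by
      have e2 : (1 + κ ^ 2) ^ 2 * (γ * (1 + κ ^ 2)) = γ * (1 + κ ^ 2) ^ 3 := by ring
      have e3 : (1 + κ ^ 2) ^ 2 * (σ * (κ / 2 - κ ^ 3 / 5 - (κ ^ 2 / 4 + 0.0603) * σ)) =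
          (1 + κ ^ 2) * σ * (κ / 2 - κ ^ 3 / 5) * (1 + κ ^ 2) - (κ ^ 2 / 4 + 0.0603) * ((1 + κ ^ 2) * σ) ^ 2 := by
        ring
      rw [e2, e3]
      exact hγ
    exact le_of_mul_le_mul_left h3 (by positivity)
  have h4 : σ ^ 3 / 30 ≤ (0.0603 - 1 / 24) * σ := by
    have h5 : σ ^ 2 ≤ 0.7473 ^ 2 := pow_le_pow_left₀ hσ0 hσ1 2
    have h6 : σ ^ 3 = σ * σ ^ 2 := by ring
    rw [h6]
    nlinarith [mul_le_mul_of_nonneg_left h5 hσ0]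
  have h7 : γ * (1 + κ ^ 2) ≤ σ * (κ / 2 - κ ^ 3 / 5 - (κ ^ 2 / 4 + 1 / 24) * σ - σ ^ 3 / 30) := by
    refine h2.trans (mul_le_mul_of_nonneg_left ?_ hσ0)
    linarith
  have h8 := mul_le_mul_of_nonneg_right h7 (sq_nonneg σ)
  have e4 : σ * (κ / 2 - κ ^ 3 / 5 - (κ ^ 2 / 4 + 1 / 24) * σ - σ ^ 3 / 30) * σ ^ 2 =
      σ ^ 3 * (κ / 2 - κ ^ 3 / 5 - (κ ^ 2 / 4 + 1 / 24) * σ - σ ^ 3 / 30) := by ring
  rw [e4] at h8
  linarith

/-- `c = 1/2` for all `κ` in `[0.29, 1.39]` -/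
theorem VLhalf {κ t : ℝ} (h : DomR κ t) (hk : 0.29 ≤ κ) (hk2 : κ ≤ 1.39) (h0 : 0 ≤ -(t + κ))
    (h1 : -(t + κ) ≤ 0.81) : sE κ t ≤ 1 - 1 / 2 * (t + κ) ^ 2 / (1 + κ ^ 2) := by
  obtain ⟨u, hu⟩ : ∃ u, u = -(t + κ) := ⟨_, rfl⟩
  rw [← hu] at h0 h1
  have h2 := VLgain' (γ := 0) h hk hu h0 h1 (by
    rw [zero_mul]
    have h3 : (κ ^ 2 / 4 + 0.0603) * 0.81 ≤ (κ / 2 - κ ^ 3 / 5) * (1 + κ ^ 2) := by
      rcases le_total κ 1 with h4 | h4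
      · have e : (κ / 2 - κ ^ 3 / 5) * (1 + κ ^ 2) = κ / 2 + κ ^ 3 * (0.3 - κ ^ 2 / 5) := by ring
        have h5 : 0 ≤ κ ^ 3 * (0.3 - κ ^ 2 / 5) := mul_nonneg (by positivity) (by nlinarith)
        rw [e]
        nlinarith
      · have e : (κ / 2 - κ ^ 3 / 5) * (1 + κ ^ 2) = κ / 2 + 0.3 * κ ^ 3 - κ ^ 2 * κ ^ 3 / 5 := by ring
        have h5 : κ ^ 2 ≤ 1.9321 := by nlinarith
        have h6 : κ ^ 2 * κ ^ 3 ≤ 1.9321 * κ ^ 3 := mul_le_mul_of_nonneg_right h5 (by positivity)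
        rw [e]
        nlinarith [mul_nonneg (sub_nonneg.2 h4) (sub_nonneg.2 hk2), mul_nonneg (mul_nonneg (sub_nonneg.2 h4) (sub_nonneg.2 hk2)) (by linarith : 0 ≤ κ)]
    have h4 : 0 ≤ (κ ^ 2 / 4 + 0.0603) := by positivity
    have h5 : (κ ^ 2 / 4 + 0.0603) * u ≤ (κ ^ 2 / 4 + 0.0603) * 0.81 := mul_le_mul_of_nonneg_left h1 h4
    have h6 := mul_le_mul_of_nonneg_left (h5.trans h3) h0
    nlinarith)
  rw [add_zero] at h2
  exact h2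

/-- `c = 0.53` and `c = 0.54` for `κ` in `[0.29, 0.55]` -/
theorem VLgain3 {κ t γ u0 : ℝ} (h : DomR κ t) (hk : 0.29 ≤ κ) (hk2 : κ ≤ 0.55) (h0 : u0 ≤ -(t + κ)) (hu0 : 0 ≤ u0)
    (h1 : -(t + κ) ≤ 0.81) (hγ : 0 ≤ γ)
    (e1 : γ * 1.2742 ≤ u0 * 0.145 - 0.0814 * u0 ^ 2) (_e2 : γ * 2.2098 ≤ u0 * 0.275 - 0.136 * u0 ^ 2)
    (e3 : γ ≤ 0.04) :
    sE κ t ≤ 1 - (1 / 2 + γ) * (t + κ) ^ 2 / (1 + κ ^ 2) := by
  obtain ⟨u, hu⟩ : ∃ u, u = -(t + κ) := ⟨_, rfl⟩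
  rw [← hu] at h0 h1
  refine VLgain' (γ := γ) h hk hu (by linarith) h1 ?_
  have hk0 : 0 < κ := by linarith
  have hch : κ ^ 2 ≤ 0.84 * κ - 0.1595 := by nlinarith
  -- `(1+κ²)³` below its chord
  have h3 : (1 + κ ^ 2) ^ 3 ≤ 1.2742 + 3.5985 * (κ - 0.29) := by
    obtain ⟨a, ha⟩ : ∃ a, a = 1 + κ ^ 2 := ⟨_, rfl⟩
    have ha1 : 1.0841 ≤ a := by rw [ha]; nlinarith
    have ha2 : a ≤ 1.3025 := by rw [ha]; nlinarith
    rw [← ha]
    have h4 : a ^ 3 ≤ 1.27412 + 4.28388 * (a - 1.0841) := by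
      nlinarith [mul_nonneg (sub_nonneg.2 ha1) (sub_nonneg.2 ha2), mul_nonneg (mul_nonneg (sub_nonneg.2 ha1) (sub_nonneg.2 ha2)) (by linarith : 0 ≤ a)]
    have h5 : a - 1.0841 ≤ 0.84 * (κ - 0.29) := by rw [ha]; linarith
    linarith
  have h4 : κ / 2 ≤ (κ / 2 - κ ^ 3 / 5) * (1 + κ ^ 2) := by
    have e : (κ / 2 - κ ^ 3 / 5) * (1 + κ ^ 2) = κ / 2 + κ ^ 3 * (0.3 - κ ^ 2 / 5) := by ring
    have h5 : 0 ≤ κ ^ 3 * (0.3 - κ ^ 2 / 5) := mul_nonneg (by positivity) (by nlinarith)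
    rw [e]
    linarith
  have h5 : γ * (1 + κ ^ 2) ^ 3 ≤ γ * (1.2742 + 3.5985 * (κ - 0.29)) := mul_le_mul_of_nonneg_left h3 hγ
  have h6 := mul_le_mul_of_nonneg_left h4 (by linarith : 0 ≤ u)
  have h7 : (κ ^ 2 / 4 + 0.0603) * u ^ 2 ≤ (0.21 * κ + 0.020425) * u ^ 2 :=
    mul_le_mul_of_nonneg_right (by linarith) (sq_nonneg u)
  have h8 : 0 ≤ -(0.21 * κ + 0.020425) * u ^ 2 + κ / 2 * u + -(γ * (1.2742 + 3.5985 * (κ - 0.29))) := by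
    refine quad_conc (by nlinarith) h0 h1 ?_ ?_
    · nlinarith [mul_nonneg (sub_nonneg.2 hk) (sub_nonneg.2 hk2)]
    · nlinarith [mul_nonneg (sub_nonneg.2 hk) (sub_nonneg.2 hk2)]
  nlinarith

/-- the copy `-1` against `0` -/
theorem M1D_core {b : ℕ} {h κ R t β x ρ G0 e M : ℝ} (H : OP b h κ R t) (hβ : β = κ / R)
    (dm : DomR κ (t - 2 * h)) (hJ : ‖HH β (sg κ (t - 2 * h)) - 1‖ ≤ 0.1) (hρ : 0 ≤ ρ) (hx : 0 ≤ x)
    (hE : sE κ (t - 2 * h) + x * (h ^ 2 / (1 + κ ^ 2)) ≤ sE κ (t - h))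
    (hD : sD κ (t - h) ≤ ρ ^ 4 * sD κ (t - 2 * h))
    (hG : 0.95 * sQ β κ (t - h) ≤ G0) (he : 0 ≤ e) (hGM : G0 ≤ M)
    (hnum : 1.1 * (Real.exp (-(5.44 * x)) * ρ) ≤ e * 0.95) :
    ‖Xf β R h t (-1)‖ ≤ e * M := by
  obtain ⟨d0, -, -⟩ := H.dom
  obtain ⟨hb0, hb1, -⟩ := H.beta hβ
  have s2 := sQ_pos (β := β) dm
  have sv := sQ_pos (β := β) d0
  have hX : ‖Xf β R h t (-1)‖ ≤ 1.1 * sQ β κ (t - 2 * h) := by
    have e := norm_Xf_eq (R := R) (h := h) (t := t) hb0 (k := -1) (t' := t - 2 * h) (by push_cast; ring)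
      (by rw [hb1]; exact dm)
    rw [e, hb1]
    apply mul_le_mul_of_nonneg_right _ s2.le
    have h3 := norm_add_le (HH β (sg κ (t - 2 * h)) - 1) 1
    rw [sub_add_cancel, norm_one] at h3
    linarith
  have h1 := H.ratio hβ dm d0 hρ hx hE hD
  calc ‖Xf β R h t (-1)‖ ≤ 1.1 * sQ β κ (t - 2 * h) := hX
    _ ≤ 1.1 * (Real.exp (-(5.44 * x)) * ρ * sQ β κ (t - h)) := mul_le_mul_of_nonneg_left h1 (by norm_num)
    _ = 1.1 * (Real.exp (-(5.44 * x)) * ρ) * sQ β κ (t - h) := by ring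
    _ ≤ e * 0.95 * sQ β κ (t - h) := mul_le_mul_of_nonneg_right hnum sv.le
    _ = e * (0.95 * sQ β κ (t - h)) := by ring
    _ ≤ e * G0 := mul_le_mul_of_nonneg_left hG he
    _ ≤ e * M := mul_le_mul_of_nonneg_left hGM he

/-- lower bound of the denominator on the left from `-η ≤ y`, `κ² ≤ 0.3025` -/
theorem DL_eta {κ t η : ℝ} (h : DomR κ t) (hy0 : sy κ t ≤ 0) (hy : -η ≤ sy κ t) (hη : η ≤ 0.55) (hk : κ ≤ 0.55) :
    1 + κ ^ 2 - 2 * η * (1 - κ ^ 2) + 2 * κ ^ 2 * η ^ 2 ≤ sD κ t := by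
  have hk0 := h.1
  have e : sD κ t = κ ^ 2 * Real.exp (-2 * sy κ t) + 1 + 2 * sy κ t := sD_eq' h
  rw [e]
  obtain ⟨z, hz⟩ : ∃ z, z = -sy κ t := ⟨_, rfl⟩
  have e1 : -2 * sy κ t = 2 * z := by rw [hz]; ring
  have e2 : 2 * sy κ t = -(2 * z) := by rw [hz]; ring
  rw [e1, e2]
  have hz0 : 0 ≤ z := by rw [hz]; linarith
  have hz1 : z ≤ η := by rw [hz]; linarith
  have h1 := Real.quadratic_le_exp_of_nonneg (x := 2 * z) (by linarith)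
  have hk2 : κ ^ 2 ≤ 0.3025 := by nlinarith
  have h2 := mul_le_mul_of_nonneg_left h1 (sq_nonneg κ)
  have h3 : 2 * κ ^ 2 * (η + z) ≤ 2 * (1 - κ ^ 2) := by nlinarith [sq_nonneg κ]
  have h4 := mul_le_mul_of_nonneg_left h3 (sub_nonneg.2 hz1)
  nlinarith

theorem log_06 : -0.5109 ≤ Real.log 0.6 := by
  rw [Real.le_log_iff_exp_le (by norm_num)]
  exact exp_neg_num (x := 0.5109) (y := 0.6) (by norm_num) (by norm_num)

/-- `0.55 ≤ κ ≤ 1`: `D ≥ 0.6 (1 + κ²)` -/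
theorem D_low60 {κ t : ℝ} (h : DomR κ t) (hk1 : 0.55 ≤ κ) (hk2 : κ ≤ 1) : 0.6 * (1 + κ ^ 2) ≤ sD κ t := by
  have hk0 := h.1
  have h1 : 2 + 2 * Real.log κ ≤ sD κ t := D_ge_log h
  have h2 : 1 - 0.6 / κ + Real.log 0.6 ≤ Real.log κ := by
    have h3 := Real.one_sub_inv_le_log_of_pos (div_pos hk0 (by norm_num : (0 : ℝ) < 0.6))
    rw [Real.log_div hk0.ne' (by norm_num), inv_div] at h3
    linarith
  have h4 := log_06
  have h5 : 0.6 * (1 + κ ^ 2) ≤ 2 + 2 * (1 - 0.6 / κ - 0.5109) := by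
    rw [← sub_nonneg]
    have e5 : 2 + 2 * (1 - 0.6 / κ - 0.5109) - 0.6 * (1 + κ ^ 2) = (2.3782 * κ - 1.2 - 0.6 * κ ^ 3) / κ := by
      field_simp
      ring
    rw [e5]
    apply div_nonneg _ hk0.le
    nlinarith [mul_nonneg (sub_nonneg.2 hk1) (sub_nonneg.2 hk2), mul_nonneg (mul_nonneg (sub_nonneg.2 hk1) (sub_nonneg.2 hk2)) hk0.le]
  linarith

theorem y_ge_44 {κ t : ℝ} (h : DomR κ t) (hτ : -0.7 ≤ t + κ) : -0.44 ≤ sy κ t := by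
  have hE := exp_neg_num (x := 0.44) (y := 0.64405) (by norm_num) (by norm_num)
  exact y_ge_gen h 0.44 0.9 0.28339 0.7 (by norm_num) (by norm_num) (by linarith) (by norm_num) (by norm_num)
    (by norm_num) hτ

theorem y_ge_53 {κ t : ℝ} (h : DomR κ t) (hτ : -0.805 ≤ t + κ) : -0.53 ≤ sy κ t := by
  have hE := exp_neg_num (x := 0.53) (y := 0.58862) (by norm_num) (by norm_num)
  exact y_ge_gen h 0.53 0.86 0.31197 0.805 (by norm_num) (by norm_num) (by linarith) (by norm_num) (by norm_num)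
    (by norm_num) hτ

/-- **ROW M1D**, given the saddle estimate -/
theorem farM1D_right {b : ℕ} {h κ R t β G0 G1 : ℝ} (H : OP b h κ R t) (hκ : 0.29 ≤ κ) (hβ : β = κ / R)
    (hs85 : 0.85 * h ≤ t + κ) (hJ : ‖HH β (sg κ (t - 2 * h)) - 1‖ ≤ 0.1)
    (h0 : 0.95 * sQ β κ (t - h) ≤ G0) :
    ‖Xf β R h t (-1)‖ ≤ 0.1035 * max G0 G1 := by
  obtain ⟨s, hs, -, -, hs2⟩ := H.exists_s
  obtain ⟨d0, d1, d2⟩ := H.dom
  have hp := H.hpos
  have hk0 := H.k0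
  have hk1 := H.k1
  have hh := h_le9 H.hb H.hh
  have hA : 0 < 1 + κ ^ 2 := by positivity
  have hs1 : 0.85 ≤ s := by
    rw [hs] at hs85
    exact le_of_mul_le_mul_right hs85 hp
  obtain ⟨u, hu⟩ : ∃ u, u = (2 - s) * h := ⟨_, rfl⟩
  have hu0 : 0 < u := by rw [hu]; exact mul_pos (by linarith) hp
  have hu1 : u ≤ 0.803 := by
    rw [hu]
    have : (2 - s) * h ≤ 1.15 * 0.6982 := mul_le_mul (by linarith) hh hp.le (by norm_num)
    linarith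
  have eu : t - 2 * h + κ = -u := by rw [hu]; linarith
  have dm : DomR κ (t - 2 * h) := by
    refine ⟨hk0, by linarith [d0.2.1], ?_⟩
    rcases le_or_gt κ 0.38 with h3 | h3
    · right
      have := Real.pi_gt_d2
      linarith
    · left
      have := Real.exp_neg_one_lt_d9
      linarith
  have hτa : -0.105 ≤ t - h + κ := by
    have e : t - h + κ = -((1 - s) * h) := by linarith
    have : (1 - s) * h ≤ 0.15 * 0.6982 := mul_le_mul (by linarith) hh hp.le (by norm_num)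
    linarith
  have hτb : t - h + κ ≤ 0.021 := by
    have e : t - h + κ = (s - 1) * h := by linarith
    have : (s - 1) * h ≤ 0.03 * 0.6982 := mul_le_mul (by linarith) hh hp.le (by norm_num)
    linarith
  have hV0 := V0_low d0 hk1 (by linarith)
  obtain ⟨hD0, hD0'⟩ := D0_up d0 hk1 hτa hτb
  have hym := sy_nonpos dm (by linarith)
  -- the exponent
  have hexp : ∀ γ x : ℝ, 0 ≤ γ → sE κ (t - 2 * h) ≤ 1 - (1 / 2 + γ) * (t - 2 * h + κ) ^ 2 / (1 + κ ^ 2) →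
      x ≤ 1 - s ^ 2 / 2 + γ * (2 - s) ^ 2 →
      sE κ (t - 2 * h) + x * (h ^ 2 / (1 + κ ^ 2)) ≤ sE κ (t - h) := by
    intro γ x _ hV hx
    have hX : 0 ≤ h ^ 2 / (1 + κ ^ 2) := by positivity
    have e0 : t - h + κ = (s - 1) * h := by linarith
    rw [e0] at hV0
    rw [eu, hu] at hV
    have a2 : (1 / 2 + γ) * (-((2 - s) * h)) ^ 2 / (1 + κ ^ 2) = (1 / 2 + γ) * (2 - s) ^ 2 * (h ^ 2 / (1 + κ ^ 2)) := by
      ring
    have a1 : ((s - 1) * h) ^ 2 / (1 + κ ^ 2) = (s - 1) ^ 2 * (h ^ 2 / (1 + κ ^ 2)) := by ring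
    rw [a2] at hV
    rw [a1] at hV0
    have hx3 : x ≤ (1 / 2 + γ) * (2 - s) ^ 2 - (s - 1) ^ 2 := by
      have : (1 / 2 + γ) * (2 - s) ^ 2 - (s - 1) ^ 2 = 1 - s ^ 2 / 2 + γ * (2 - s) ^ 2 := by ring
      rw [this]; exact hx
    have h3 := mul_le_mul_of_nonneg_right hx3 hX
    linarith
  have hs3 : 0.9409 ≤ (2 - s) ^ 2 := by nlinarith
  have hs4 : 0.46955 ≤ 1 - s ^ 2 / 2 := by nlinarith
  have hEh : Real.exp (-(5.44 * 0.46955)) ≤ 0.07795 :=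
    exp_neg_le_num 2 (z := 0.554352) (by norm_num) (by norm_num) (by norm_num) (by norm_num)
  have hVh := VLhalf dm hκ hk1 (by linarith) (by linarith)
  have hVh' : sE κ (t - 2 * h) ≤ 1 - (1 / 2 + 0) * (t - 2 * h + κ) ^ 2 / (1 + κ ^ 2) := by rw [add_zero]; exact hVh
  -- first case: `c = 1/2`
  have case1 : ∀ d D ρ : ℝ, 0 ≤ ρ → sD κ (t - h) ≤ D * (1 + κ ^ 2) → d * (1 + κ ^ 2) ≤ sD κ (t - 2 * h) → D ≤ ρ ^ 4 * d →
      ρ ≤ 1.14 → ‖Xf β R h t (-1)‖ ≤ 0.1035 * max G0 G1 := by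
    intro d D ρ hρ g1 g2 g3 g4
    refine M1D_core H hβ dm hJ (x := 0.46955) hρ (by norm_num) (hexp 0 _ le_rfl hVh' (by linarith)) ?_ h0 (by norm_num)
      (le_max_left G0 G1) ?_
    · have h4 := mul_le_mul_of_nonneg_right g3 hA.le
      have h5 := mul_le_mul_of_nonneg_left g2 (by positivity : 0 ≤ ρ ^ 4)
      linarith
    · have h6 : Real.exp (-(5.44 * 0.46955)) * ρ ≤ 0.07795 * 1.14 := mul_le_mul hEh g4 hρ (by norm_num)
      linarith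
  rcases le_total 1 κ with hk | hk
  · refine case1 1 1.05 1.1 (by norm_num) hD0 ?_ (by norm_num) (by norm_num)
    rw [one_mul]
    exact DL_ge' dm (by linarith) hk
  rcases le_total 0.55 κ with hk' | hk'
  · exact case1 0.6 1.0107 1.14 (by norm_num) (hD0' hk) (D_low60 dm hk' hk) (by norm_num) (by norm_num)
  rcases le_total u 0.362 with hu2 | hu2
  · have hy := y_ge_20 dm (by linarith)
    have hDL := DL_eta dm hym hy (by norm_num) hk'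
    refine case1 0.66 1.0107 1.113 (by norm_num) (hD0' hk) ?_ (by norm_num) (by norm_num)
    nlinarith
  -- the gain
  have case2 : ∀ γ x d ρ E : ℝ, 0 ≤ γ → 0 ≤ x → 0 ≤ ρ → sE κ (t - 2 * h) ≤ 1 - (1 / 2 + γ) * (t - 2 * h + κ) ^ 2 / (1 + κ ^ 2) →
      x ≤ 1 - s ^ 2 / 2 + γ * (2 - s) ^ 2 → d * (1 + κ ^ 2) ≤ sD κ (t - 2 * h) → 1.0107 ≤ ρ ^ 4 * d →
      Real.exp (-(5.44 * x)) ≤ E → 1.1 * (E * ρ) ≤ 0.1035 * 0.95 → ‖Xf β R h t (-1)‖ ≤ 0.1035 * max G0 G1 := by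
    intro γ x d ρ E hγ hx hρ hV g1 g2 g3 g4 g5
    refine M1D_core H hβ dm hJ (x := x) hρ hx (hexp γ _ hγ hV g1) ?_ h0 (by norm_num) (le_max_left G0 G1) ?_
    · have h4 := mul_le_mul_of_nonneg_right g3 hA.le
      have h5 := mul_le_mul_of_nonneg_left g2 (by positivity : 0 ≤ ρ ^ 4)
      have h6 := hD0' hk
      linarith
    · refine le_trans ?_ g5
      exact mul_le_mul_of_nonneg_left (mul_le_mul_of_nonneg_right g4 hρ) (by norm_num)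
  rcases le_total u 0.516 with hu3 | hu3
  · have hy := y_ge_30 dm (by linarith)
    have hDL := DL_eta dm hym hy (by norm_num) hk'
    have hV := VLgain3 (γ := 0.03) (u0 := 0.362) dm hκ hk' (by linarith) (by norm_num) (by linarith) (by norm_num)
      (by norm_num) (by norm_num) (by norm_num)
    refine case2 0.03 0.4977 0.48 1.205 0.0672 (by norm_num) (by norm_num) (by norm_num) hV (by linarith) ?_ (by norm_num) ?_
      (by norm_num)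
    · nlinarith
    · exact exp_neg_le_num 2 (z := 0.707488) (by norm_num) (by norm_num) (by norm_num) (by norm_num)
  rcases le_total u 0.7 with hu4 | hu4
  · have hy := y_ge_44 dm (by linarith)
    have hDL := DL_eta dm hym hy (by norm_num) hk'
    have hV := VLgain3 (γ := 0.04) (u0 := 0.516) dm hκ hk' (by linarith) (by norm_num) (by linarith) (by norm_num)
      (by norm_num) (by norm_num) (by norm_num)
    refine case2 0.04 0.507 0.28 1.379 0.064 (by norm_num) (by norm_num) (by norm_num) hV (by linarith) ?_ (by norm_num) ?_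
      (by norm_num)
    · nlinarith
    · exact exp_neg_le_num 2 (z := 0.75808) (by norm_num) (by norm_num) (by norm_num) (by norm_num)
  · have hy := y_ge_53 dm (by linarith)
    have hDL := DL_eta dm hym hy (by norm_num) hk'
    have hV := VLgain3 (γ := 0.04) (u0 := 0.516) dm hκ hk' (by linarith) (by norm_num) (by linarith) (by norm_num)
      (by norm_num) (by norm_num) (by norm_num)
    -- here `s ≤ 1`
    have hs5 : s ≤ 1 := by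
      by_contra hcon
      push Not at hcon
      have : (2 - s) * h ≤ 1 * 0.6982 := mul_le_mul (by linarith) hh hp.le (by norm_num)
      linarith
    refine case2 0.04 0.54 0.14 1.64 0.0539 (by norm_num) (by norm_num) (by norm_num) hV (by nlinarith) ?_ (by norm_num) ?_
      (by norm_num)
    · nlinarith
    · exact exp_neg_le_num 2 (z := 0.9376) (by norm_num) (by norm_num) (by norm_num) (by norm_num)

/-- the same with the majorant `e1` -/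
theorem farM1D_right' {b : ℕ} {h κ R t β G0 G1 : ℝ} (H : OP b h κ R t) (hκ : 0.29 ≤ κ) (hβ : β = κ / R)
    (hs85 : 0.85 * h < t + κ) (hJ : ‖HH β (sg κ (t - 2 * h)) - 1‖ ≤ 0.1)
    (h0 : 0.95 * sQ β κ (t - h) ≤ G0) :
    ‖Xf β R h t (-1)‖ ≤ e1 ((t + κ) / h) * max G0 G1 := by
  have h1 := farM1D_right (G1 := G1) H hκ hβ hs85.le hJ h0
  have hp := H.hpos
  have h2 : 0.85 < (t + κ) / h := by rw [lt_div_iff₀ hp]; exact hs85
  have h3 : e1 ((t + κ) / h) = 0.1035 := by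
    unfold e1
    rw [if_neg (by linarith), if_neg (by linarith), if_neg (by linarith)]
  rw [h3]
  exact h1

end Sok
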