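import Pool.Agent.Lib.MP_816dec_an.R1FarD
import Pool.Agent.Lib.MP_816dec_an.R1BG
import Pool.Agent.Lib.MP_816dec_an.R1BE

/-!
MP_816dec_an (A3, row R1, `b ≥ 9`): the copy `-1`, `κ ≥ 0.29`: horizontal line of height `κ p`,
`p = μ h / A`.
-/

set_option autoImplicit false

open Complex Set Filter Topology Metric

namespace Sok

private theorem xe_le {x : ℝ} (h0 : 0 ≤ x) (h1 : x ≤ 0.62) : x * (1 - x + x ^ 2 / 2) ^ 3 ≤ 0.128 := by
  obtain ⟨e, he⟩ : ∃ e, e = 1 - x + x ^ 2 / 2 := ⟨_, rfl⟩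
  have e0 : 0 < e := by rw [he]; nlinarith
  -- e ≤ tangent-type bound: x e^3 ≤ 0.128
  rcases le_total x 0.2 with h2 | h2
  · rw [← he]
    have : e ≤ 1 - x + 0.1 * x := by rw [he]; nlinarith
    have h3 : e ≤ 1 - 0.9 * x := by linarith
    have h4 : e ^ 3 ≤ (1 - 0.9 * x) ^ 3 := pow_le_pow_left₀ e0.le h3 3
    have h5 := mul_le_mul_of_nonneg_left h4 h0
    refine h5.trans ?_
    nlinarith [mul_nonneg h0 (sub_nonneg.2 h2), mul_nonneg (mul_nonneg h0 h0) (sub_nonneg.2 h2)]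
  rcases le_total x 0.3 with h3 | h3
  · rw [← he]
    have h4 : e ≤ 1 - 0.2 + 0.02 - 0.75 * (x - 0.2) := by rw [he]; nlinarith
    have h5 : e ^ 3 ≤ (0.97 - 0.75 * x) ^ 3 := pow_le_pow_left₀ e0.le (by linarith) 3
    have h6 := mul_le_mul_of_nonneg_left h5 h0
    refine h6.trans ?_
    nlinarith [mul_nonneg (sub_nonneg.2 h2) (sub_nonneg.2 h3), mul_nonneg (mul_nonneg (sub_nonneg.2 h2) (sub_nonneg.2 h3)) h0]
  rcases le_total x 0.4 with h4 | h4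
  · rw [← he]
    have h5 : e ≤ 0.745 - 0.65 * (x - 0.3) := by rw [he]; nlinarith
    have h6 : e ^ 3 ≤ (0.94 - 0.65 * x) ^ 3 := pow_le_pow_left₀ e0.le (by linarith) 3
    have h7 := mul_le_mul_of_nonneg_left h6 h0
    refine h7.trans ?_
    obtain ⟨y, hy⟩ : ∃ y, y = 0.94 - 0.65 * x := ⟨_, rfl⟩
    have hx : x = (0.94 - y) / 0.65 := by rw [hy]; ring
    have hy0 : 0 ≤ y := by rw [hy]; linarith
    rw [← hy, hx]
    have := mul_nonneg (sq_nonneg (y - 0.705)) (by positivity : 0 ≤ y ^ 2 + 0.47 * y + 0.1656)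
    nlinarith [this]
  · rw [← he]
    have h5 : e ≤ 0.68 - 0.49 * (x - 0.4) := by rw [he]; nlinarith
    have h6 : e ^ 3 ≤ (0.876 - 0.49 * x) ^ 3 := pow_le_pow_left₀ e0.le (by linarith) 3
    have h7 := mul_le_mul_of_nonneg_left h6 h0
    refine h7.trans ?_
    obtain ⟨y, hy⟩ : ∃ y, y = 0.876 - 0.49 * x := ⟨_, rfl⟩
    have hx : x = (0.876 - y) / 0.49 := by rw [hy]; ring
    have hy0 : 0 ≤ y := by rw [hy]; linarith
    rw [← hy, hx]
    have := mul_nonneg (sq_nonneg (y - 0.657)) (by positivity : 0 ≤ y ^ 2 + 0.438 * y + 0.1438)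
    nlinarith [this]


/-- exponent, `κ ≤ 1.3` -/
private theorem hm_g0 {κ p : ℝ} (hk : 0.29 ≤ κ) (hk3 : κ ≤ 1.3) (hp0 : 0 < p) (hpA : p * (1 + κ ^ 2) ≤ 1.2358)
    (hx : κ * p ≤ 0.62) :
    2 / 5 * κ ^ 3 * p + (1 - κ * p + (κ * p) ^ 2 / 2) - 1 + p ^ 2 * (1 - κ * p + (κ * p) ^ 2 / 2) ^ 3 / 5 ≤ 0 := by
  have hκ : 0 < κ := by linarith
  have h1 := xe_le (by positivity : 0 ≤ κ * p) hx
  generalize (1 - κ * p + (κ * p) ^ 2 / 2) ^ 3 = w at h1 ⊢
  have hA : 0 < 1 + κ ^ 2 := by positivity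
  -- κ A bracket ≤ 0
  have h2 : (1 + κ ^ 2) * (0.4 * κ ^ 4 - κ ^ 2 + 0.0256) + 0.6179 * κ ^ 3 ≤ 0 := by
    rcases le_total κ 0.5 with h | h
    · nlinarith [mul_nonneg (sub_nonneg.2 hk) (sub_nonneg.2 h), mul_nonneg (mul_nonneg (sub_nonneg.2 hk) (sub_nonneg.2 h)) hκ.le,
        mul_nonneg (mul_nonneg (sub_nonneg.2 hk) (sub_nonneg.2 h)) (sq_nonneg κ),
        mul_nonneg (mul_nonneg (sub_nonneg.2 hk) (sub_nonneg.2 h)) (pow_nonneg hκ.le 3),
        mul_nonneg (mul_nonneg (sub_nonneg.2 hk) (sub_nonneg.2 h)) (pow_nonneg hκ.le 4)]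
    rcases le_total κ 0.9 with h' | h'
    · nlinarith [mul_nonneg (sub_nonneg.2 h) (sub_nonneg.2 h'), mul_nonneg (mul_nonneg (sub_nonneg.2 h) (sub_nonneg.2 h')) hκ.le,
        mul_nonneg (mul_nonneg (sub_nonneg.2 h) (sub_nonneg.2 h')) (sq_nonneg κ),
        mul_nonneg (mul_nonneg (sub_nonneg.2 h) (sub_nonneg.2 h')) (pow_nonneg hκ.le 3),
        mul_nonneg (mul_nonneg (sub_nonneg.2 h) (sub_nonneg.2 h')) (pow_nonneg hκ.le 4)]
    · nlinarith [mul_nonneg (sub_nonneg.2 h') (sub_nonneg.2 hk3), mul_nonneg (mul_nonneg (sub_nonneg.2 h') (sub_nonneg.2 hk3)) hκ.le,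
        mul_nonneg (mul_nonneg (sub_nonneg.2 h') (sub_nonneg.2 hk3)) (sq_nonneg κ),
        mul_nonneg (mul_nonneg (sub_nonneg.2 h') (sub_nonneg.2 hk3)) (pow_nonneg hκ.le 3),
        mul_nonneg (mul_nonneg (sub_nonneg.2 h') (sub_nonneg.2 hk3)) (pow_nonneg hκ.le 4)]
  have h3 : κ ^ 3 * (p * (1 + κ ^ 2)) ≤ κ ^ 3 * 1.2358 := mul_le_mul_of_nonneg_left hpA (by positivity)
  have h4 : (1 + κ ^ 2) * (0.4 * κ ^ 4 - κ ^ 2 + κ ^ 3 * p / 2 + κ * p * w / 5) ≤ 0 := by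
    have h5 := mul_le_mul_of_nonneg_left h1 hA.le
    linarith
  have h5 : 0.4 * κ ^ 4 - κ ^ 2 + κ ^ 3 * p / 2 + κ * p * w / 5 ≤ 0 := by
    by_contra hcon
    push Not at hcon
    have := mul_pos hA hcon
    linarith
  have e : 2 / 5 * κ ^ 3 * p + (1 - κ * p + (κ * p) ^ 2 / 2) - 1 + p ^ 2 * w / 5 =
      (p / κ) * (0.4 * κ ^ 4 - κ ^ 2 + κ ^ 3 * p / 2 + κ * p * w / 5) := by
    field_simp
    ring
  rw [e]
  exact mul_nonpos_of_nonneg_of_nonpos (by positivity) h5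

/-- exponent, `κ ≥ 1.3` -/
private theorem hm_g1 {κ p : ℝ} (hk : 1.3 ≤ κ) (hk3 : κ ≤ 1.5) (hp0 : 0 < p) (hpA : p * (1 + κ ^ 2) ≤ 1.2358)
    (hx : κ * p ≤ 0.62) :
    2 / 5 * κ ^ 3 * p + (1 - κ * p + (κ * p) ^ 2 / 2) - 1 + p ^ 2 * (1 - κ * p + (κ * p) ^ 2 / 2) ^ 3 / 5 ≤
      0.04 * (1 + κ ^ 2) := by
  have hκ : 0 < κ := by linarith
  have h1 := xe_le (by positivity : 0 ≤ κ * p) hx
  generalize (1 - κ * p + (κ * p) ^ 2 / 2) ^ 3 = w at h1 ⊢
  have hp1 : p ≤ 0.4595 := by nlinarith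
  have h2 : p ^ 2 * w / 5 ≤ 0.0197 * p := by
    have h3 : p ^ 2 * w / 5 = p / κ * (κ * p * w) / 5 := by field_simp
    rw [h3]
    have h4 : p / κ * (κ * p * w) ≤ p / κ * 0.128 := mul_le_mul_of_nonneg_left h1 (by positivity)
    have h5 : p / κ ≤ p / 1.3 := div_le_div_of_nonneg_left hp0.le (by norm_num) hk
    calc p / κ * (κ * p * w) / 5 ≤ p / κ * 0.128 / 5 := by linarith only [h4]
      _ ≤ 0.0197 * p := by
        have : p / κ ≤ 0.7693 * p := h5.trans (by rw [div_le_iff₀ (by norm_num)]; linarith)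
        linarith only [this, hp0]
  -- 0.4 κ³ - κ ≤ ...
  have h6 : κ ^ 2 * p ≤ 1.2358 - p := by linarith
  have h7 : κ * (κ ^ 2 * p) ≤ κ * (1.2358 - p) := mul_le_mul_of_nonneg_left h6 hκ.le
  have h8 : (κ * p) ^ 2 ≤ (1.2358 - p) * p := by nlinarith
  have h9 : κ ^ 3 * p = κ * (κ ^ 2 * p) := by ring
  have h10 : 2 / 5 * κ ^ 3 * p ≤ 0.4 * κ * (1.2358 - p) := by
    have : 2 / 5 * κ ^ 3 * p = 0.4 * (κ * (κ ^ 2 * p)) := by ring
    rw [this]; linarith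
  nlinarith [mul_nonneg (sub_nonneg.2 hk) (sub_nonneg.2 hk3)]

/-- exponent, `κ ≤ 0.6`, `p ≥ 0.6` -/
private theorem hm_g2 {κ p : ℝ} (hk : 0.29 ≤ κ) (hk3 : κ ≤ 0.6) (hp0 : 0.6 ≤ p) (hpA : p * (1 + κ ^ 2) ≤ 1.2358)
    (hx : κ * p ≤ 0.62) :
    2 / 5 * κ ^ 3 * p + (1 - κ * p + (κ * p) ^ 2 / 2) - 1 + p ^ 2 * (1 - κ * p + (κ * p) ^ 2 / 2) ^ 3 / 5 ≤
      -0.08 * (1 + κ ^ 2) := by
  have hκ : 0 < κ := by linarith
  have h1 := xe_le (by positivity : 0 ≤ κ * p) hx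
  generalize (1 - κ * p + (κ * p) ^ 2 / 2) ^ 3 = w at h1 ⊢
  have hp1 : p ≤ 1.141 := by nlinarith
  have h2 : p ^ 2 * w / 5 ≤ (0.0256 / κ) * p := by
    have h3 : p ^ 2 * w / 5 = p / κ * (κ * p * w) / 5 := by field_simp
    rw [h3]
    have h4 : p / κ * (κ * p * w) ≤ p / κ * 0.128 := mul_le_mul_of_nonneg_left h1 (by positivity)
    have h5 : p / κ * 0.128 / 5 = (0.0256 / κ) * p := by field_simp; norm_num
    linarith
  have h3 : 0.0256 / κ ≤ 0.0883 - 0.14 * (κ - 0.29) := by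
    rw [div_le_iff₀ hκ]
    nlinarith [mul_nonneg (sub_nonneg.2 hk) (sub_nonneg.2 hk3)]
  have h4 : (0.0256 / κ) * p ≤ (0.0883 - 0.14 * (κ - 0.29)) * p := mul_le_mul_of_nonneg_right h3 (by linarith)
  have h5 : κ ^ 2 * p ≤ κ ^ 2 * 1.141 := mul_le_mul_of_nonneg_left hp1 (sq_nonneg κ)
  have h6 : 0.4 * κ ^ 3 ≤ 0.144 * κ := by
    have : κ ^ 2 ≤ 0.36 := by nlinarith
    nlinarith
  have h7 : 0.4 * κ ^ 3 * p ≤ 0.4 * κ ^ 2 * 0.6 * p := by
    have : κ ^ 3 ≤ κ ^ 2 * 0.6 := by nlinarith [sq_nonneg κ]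
    nlinarith
  have h8 : (κ * p) ^ 2 / 2 ≤ κ ^ 2 * 1.141 * p / 2 := by nlinarith
  nlinarith [mul_nonneg (sub_nonneg.2 hk) (sub_nonneg.2 hk3), mul_nonneg (sub_nonneg.2 hp0) (sub_nonneg.2 hp1),
    mul_nonneg (mul_nonneg (sub_nonneg.2 hk) (sub_nonneg.2 hk3)) (sub_nonneg.2 hp0)]


/-- the copy `-1` on the line of height `κ p`, `p = μ h / A` -/
theorem QD.HM1 {T0 : ℝ} {b : ℕ} {h κ R t T s z : ℝ} (Q : QD T0 b h κ R t T s z) {β μ g K : ℝ} (hβ : β = κ / R)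
    (hμ0 : 1.15 ≤ μ) (hμ1 : μ ≤ 1.77) (hμm : μ ≤ 2 - s) (hs : 0.03 ≤ s)
    (hg : κ ≤ 1.3 ∧ 0 ≤ g ∨ 0.04 ≤ g) (hK0 : 0 ≤ K) (hK : 1.5 ≤ κ * K ^ 2) :
    ‖Xf β R h t (-1)‖ ≤ K * Real.exp (R + T * (-(μ * (2 - s)) + μ ^ 2 * (1 + g) / 2)) +
      1.835 * Real.exp (0.03 * R) *
        (1 + 0.62 * Real.exp (T * (μ * (z * (Real.pi / 2 - κ)) - μ * (2 - s)))) := by
  have hκ := Q.kpos
  have hR := Q.Rpos
  have hT := Q.Tpos
  have hA := Q.A1
  have h0 := Q.h0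
  have hle := Q.hle
  have hk0 := Q.k0
  have hk1 := Q.k1
  have hT5 : 5.07 ≤ T := by linarith [Q.T5, Q.hT]
  have hpi := Real.pi_gt_d2
  have hpi2 := Real.pi_lt_d2
  have hβ0 : 0 < β := by rw [hβ]; positivity
  have hz := Q.hz
  have hz0 := Q.z0
  have hTz : T / h = T * z := by
    rw [div_eq_iff h0.ne', mul_assoc, hz, mul_one]
  obtain ⟨p, hp⟩ : ∃ p, p = μ * h / (1 + κ ^ 2) := ⟨_, rfl⟩
  have hp0 : 0 < p := by rw [hp]; exact div_pos (mul_pos (by linarith) h0) hA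
  have hpA' : p * (1 + κ ^ 2) = μ * h := by rw [hp]; field_simp
  have hpA : p * (1 + κ ^ 2) ≤ 1.2358 := by
    rw [hpA']
    have : μ * h ≤ 1.77 * 0.69814 := mul_le_mul hμ1 hle h0.le (by norm_num)
    linarith
  have hx : κ * p ≤ 0.62 := by nlinarith [mul_nonneg hp0.le (sq_nonneg (κ - 1))]
  have hx0 : 0 < κ * p := mul_pos hκ hp0
  have he1 : Real.exp (-(κ * p)) ≤ 1 - κ * p + (κ * p) ^ 2 / 2 := by
    have := r1_exp_le2 (z := -(κ * p)) (by linarith)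
    linarith
  have hq1 : (1 + κ * p) * (1 - κ * p + (κ * p) ^ 2 / 2) ≤ 1 := by nlinarith [mul_nonneg (sq_nonneg (κ * p)) (by linarith : 0 ≤ 1 - κ * p)]
  have he0 : 0 < 1 - κ * p + (κ * p) ^ 2 / 2 := lt_of_lt_of_le (Real.exp_pos _) he1
  obtain ⟨e, he⟩ : ∃ e, e = 1 - κ * p + (κ * p) ^ 2 / 2 := ⟨_, rfl⟩
  -- the two cases
  have main : ∃ pf G cm : ℝ, 0 ≤ pf ∧ 0 < cm ∧ cm ^ 2 ≤ 1 - (p * e) ^ 2 ∧ 3 ≤ 2 * κ * (1 + κ * p) * cm * pf ^ 2 ∧
      2 / 5 * κ ^ 3 * p + e - 1 + p ^ 2 * e ^ 3 / 5 ≤ G * (1 + κ ^ 2) ∧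
      pf * Real.exp (R + T * (-(μ * (2 - s)) + μ ^ 2 * (1 + G) / 2)) ≤
      K * Real.exp (R + T * (-(μ * (2 - s)) + μ ^ 2 * (1 + g) / 2)) := by
    have hcm : ∀ c : ℝ, 0 ≤ c → c ^ 2 + p ^ 2 ≤ (1 + κ * p) ^ 2 → (c / (1 + κ * p)) ^ 2 ≤ 1 - (p * e) ^ 2 := by
      intro c hc h1
      rw [div_pow, div_le_iff₀ (by positivity)]
      have h2 : p ^ 2 * ((1 + κ * p) * e) ^ 2 ≤ p ^ 2 * 1 := by
        apply mul_le_mul_of_nonneg_left _ (sq_nonneg p)
        rw [he]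
        exact pow_le_one₀ (by positivity) hq1
      have e2 : (1 - (p * e) ^ 2) * (1 + κ * p) ^ 2 = (1 + κ * p) ^ 2 - p ^ 2 * ((1 + κ * p) * e) ^ 2 := by ring
      rw [e2]
      linarith
    by_cases hcase : κ ≤ 0.6 ∧ 0.6 ≤ p
    · obtain ⟨hk6, hp6⟩ := hcase
      refine ⟨1.225 * K, -0.08, 0.67 / (1 + κ * p), by positivity, by positivity, hcm _ (by norm_num) ?_, ?_, ?_, ?_⟩
      · have hp1 : p ≤ 1.141 := by nlinarith
        nlinarith [mul_nonneg (sub_nonneg.2 hp6) (sub_nonneg.2 hp1)]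
      · have e3 : 2 * κ * (1 + κ * p) * (0.67 / (1 + κ * p)) * (1.225 * K) ^ 2 = 2 * 0.67 * 1.225 ^ 2 * (κ * K ^ 2) := by
          field_simp
        rw [e3]
        nlinarith
      · rw [he]; exact hm_g2 hk0 hk6 hp6 hpA hx
      · have hg0 : 0 ≤ g := by
          rcases hg with h | h
          · exact h.2
          · linarith
        have h1 : 1.225 ≤ Real.exp (T * (μ ^ 2 * (0.04 + g / 2))) := by
          have h2 : 0.2682 ≤ T * (μ ^ 2 * (0.04 + g / 2)) := by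
            have h3 : 1.3225 ≤ μ ^ 2 := by nlinarith
            have h4 : 0.0529 ≤ μ ^ 2 * (0.04 + g / 2) := by nlinarith
            nlinarith
          have := Real.add_one_le_exp (T * (μ ^ 2 * (0.04 + g / 2)))
          linarith
        have e4 : R + T * (-(μ * (2 - s)) + μ ^ 2 * (1 + g) / 2) =
            R + T * (-(μ * (2 - s)) + μ ^ 2 * (1 + -0.08) / 2) + T * (μ ^ 2 * (0.04 + g / 2)) := by ring
        rw [e4, Real.exp_add (R + T * (-(μ * (2 - s)) + μ ^ 2 * (1 + -0.08) / 2))]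
        have h5 := Real.exp_pos (R + T * (-(μ * (2 - s)) + μ ^ 2 * (1 + -0.08) / 2))
        have h6 := mul_le_mul_of_nonneg_left h1 (mul_nonneg hK0 h5.le)
        linarith
    · have hp2 : p ^ 2 ≤ 2 * (κ * p) + (κ * p) ^ 2 := by
        have h1 : p ≤ 2 * κ + κ ^ 2 * p := by
          rcases le_total κ 0.6 with h6 | h6
          · have hp6 : p ≤ 0.6 := by
              by_contra hcon
              push Not at hcon
              exact hcase ⟨h6, hcon.le⟩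
            rcases le_total p 0.58 with h7 | h7
            · have : 0 ≤ κ ^ 2 * p := by positivity
              linarith
            · have : 0.29 ^ 2 * 0.58 ≤ κ ^ 2 * p := mul_le_mul (pow_le_pow_left₀ (by norm_num) hk0 2) h7 (by norm_num) (sq_nonneg κ)
              linarith
          · have : p ≤ 0.91 := by nlinarith
            have : 0 ≤ κ ^ 2 * p := by positivity
            linarith
        have := mul_le_mul_of_nonneg_left h1 hp0.le
        nlinarith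
      refine ⟨K, g, 1 / (1 + κ * p), hK0, by positivity, hcm _ (by norm_num) (by nlinarith), ?_, ?_, le_rfl⟩
      · have e3 : 2 * κ * (1 + κ * p) * (1 / (1 + κ * p)) * K ^ 2 = 2 * (κ * K ^ 2) := by
          field_simp
        rw [e3]
        linarith
      · rw [he]
        rcases hg with ⟨h1, h2⟩ | h1
        · refine (hm_g0 hk0 h1 hp0 hpA hx).trans ?_
          positivity
        · rcases le_total κ 1.3 with h2 | h2
          · refine (hm_g0 hk0 h2 hp0 hpA hx).trans ?_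
            have : 0 ≤ g := by linarith
            positivity
          · refine (hm_g1 h2 hk1 hp0 hpA hx).trans ?_
            exact mul_le_mul_of_nonneg_right h1 hA.le
  obtain ⟨pf, G, cm, hpf0, hcm0, hcm, hpf, hG, hfin⟩ := main
  obtain ⟨tk, htk⟩ : ∃ tk, tk = -((2 - s) * h) - κ := ⟨_, rfl⟩
  have hmh : (2 - s) * h ≤ 1.97 * 0.69814 := mul_le_mul (by linarith) hle h0.le (by norm_num)
  have hmh0 : 0 ≤ (2 - s) * h := mul_nonneg (by linarith) h0.le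
  have htk1 : -2.8754 ≤ tk := by rw [htk]; linarith
  have htk2 : tk ≤ -κ := by rw [htk]; linarith
  have key := HUL hR hκ hβ (A := 1 + κ ^ 2) (h := h) (m := 2 - s) (tk := tk) (q := p * e) (cm := cm) (T := T)
    (pf := pf) (G := G) (μ := μ) (e1 := e) rfl h0 Q.Rh (by linarith) htk (by linarith) (by linarith)
    (by rw [← hp]; linarith) (by rw [← hp, he]; exact he1) (by rw [← hp]) hcm0 hcm
    (by rw [← hp]; exact hG) (by rw [← hp]; exact hpf) hpf0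
  rw [← hp, hTz] at key
  have hXf : Xf β R h t (-1) = F (cexp (I * β)) (R * cexp (I * ((tk + β / 2 : ℝ) : ℂ))) := by
    unfold Xf
    have e5 : t + ((-1 : ℤ) - 1) * h + β / 2 = tk + β / 2 := by
      rw [htk, Q.ht]; push_cast; ring
    push_cast at e5 ⊢
    have e6 : ((t : ℂ) + (-1 - 1) * (h : ℂ) + (β : ℂ) / 2) = ((t + (-1 - 1) * h + β / 2 : ℝ) : ℂ) := by push_cast; ring
    have e7 : ((tk : ℂ) + (β : ℂ) / 2) = ((tk + β / 2 : ℝ) : ℂ) := by push_cast; ring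
    rw [e6, e7, e5]
  rw [hXf]
  refine key.trans (add_le_add hfin ?_)
  have hC0 := C0_leF (k1 := 0.29) (α := 1.835) hR hβ (by norm_num) hk0 (by norm_num) (by norm_num)
  have hb := Q.bR
  obtain ⟨X, hX⟩ : ∃ X, X = Real.exp (T * (μ * (z * (Real.pi / 2 - κ)) - μ * (2 - s))) := ⟨_, rfl⟩
  have hX0 : 0 < X := by rw [hX]; exact Real.exp_pos _
  have e8 : Real.exp (μ * (T * z) * (Real.pi / 2 - κ) - μ * T * (2 - s)) = X := by rw [hX]; congr 1; ring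
  rw [e8, ← hX]
  have t1 : κ / R / (3 * Real.pi / 2 + tk) ≤ 0.0263 := by
    rw [div_le_iff₀ (by linarith)]
    nlinarith
  have t2 : Real.pi / R ≤ 0.28 := by
    rw [div_le_iff₀ hR]
    have := Q.Rge
    nlinarith
  have t3 : κ * p * max 1 X ≤ 0.62 * (1 + X) := by
    have h1 : max 1 X ≤ 1 + X := max_le (by linarith) (by linarith)
    have h2 : 0 ≤ max 1 X := le_trans (by norm_num) (le_max_left _ _)
    exact mul_le_mul hx h1 h2 (by norm_num)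
  have t4 : Real.exp (-(μ * (T * z) * (Real.pi / 2 + κ) + μ * T * (2 - s))) ≤ 0.001 := by
    have h1 : 10 ≤ μ * (T * z) * (Real.pi / 2 + κ) + μ * T * (2 - s) := by
      have h2 : 1.15 * 5.07 ≤ μ * T := mul_le_mul hμ0 hT5 (by norm_num) (by linarith)
      have h3 : 5.83 * 1.4323 ≤ μ * T * z := mul_le_mul (by linarith) (by linarith) (by norm_num) (by linarith)
      have h4 : 8.35 * 1.86 ≤ μ * T * z * (Real.pi / 2 + κ) := mul_le_mul (by linarith) (by linarith) (by norm_num) (by linarith)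
      have h5 : 0 ≤ μ * T * (2 - s) := mul_nonneg (by linarith) (by linarith)
      have h6 : μ * (T * z) * (Real.pi / 2 + κ) = μ * T * z * (Real.pi / 2 + κ) := by ring
      rw [h6]
      linarith
    refine (exp_num' 10 (f := 0) le_rfl (by simpa using h1) (y := 0.36788 ^ 10) (by norm_num)).trans (by norm_num)
  have t5 := Q.hump4 hβ htk2
  have hC00 := C0_pos hβ0
  apply mul_le_mul hC0 _ _ (by positivity)
  · linarith
  · have h1 : 0 ≤ κ / R / (3 * Real.pi / 2 + tk) := div_nonneg (by positivity) (by linarith)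
    have h2 : 0 ≤ Real.pi / R := by positivity
    have h3 : 0 ≤ κ * p * max 1 X := mul_nonneg hx0.le (le_trans (by norm_num) (le_max_left _ _))
    have h4 := Real.exp_pos (-(μ * (T * z) * (Real.pi / 2 + κ) + μ * T * (2 - s)))
    have h5 : 0 ≤ κ / R := by positivity
    have h6 : 0 ≤ HUMP β R tk := by
      unfold HUMP
      positivity
    linarith

end Sok
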