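import Pool.Agent.Lib.MP_816dec_an.R1BM1a

/-!
MP_816dec_an (A3, row R1, `b ≥ 9`): the copy `-1` on the discs, `κ ≥ 0.29`.
-/

set_option autoImplicit false

open Complex Set Filter Topology Metric

namespace Sok

section facts

variable {T0 : ℝ} {b : ℕ} {h κ R t T s z : ℝ}

theorem QD.invG0 (Q : QD T0 b h κ R t T s z) {β G0 g d0 k1 k2 sm c C : ℝ} (hβ : β = κ / R) (hg : 0 < g)
    (h0 : g * sQ β κ (t - h) ≤ G0) (d : DomR κ (t - h)) (hd : sD κ (t - h) ≤ d0 ^ 4) (hd0 : 0 ≤ d0)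
    (hk1 : k1 ≤ κ) (hk2 : κ ≤ k2) (hs : s ≤ 1) (hsm : (1 - s) * 0.69814 ≤ sm * (1 + k1 ^ 2)) (hk10 : 0 ≤ k1) (hsm1 : sm ≤ 1)
    (hc : κ * (1 / 2 - κ ^ 2 / 6) ≤ c) (hc0 : 0 ≤ c)
    (hC : c * sm + k2 ^ 4 * sm ^ 2 / 12 + (1 + k2 * sm) * (sm ^ 2 / 12 + sm ^ 4 / 24) ≤ (C - 1 / 2) * (1 + k1 ^ 2)) :
    G0⁻¹ ≤ d0 / g * Real.exp (-R + T * (C * (1 - s) ^ 2)) := by
  have hκ := Q.kpos
  have hR := Q.Rpos
  have hkβ : κ / β = R := by rw [hβ]; field_simp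
  have hle := Q.hle
  unfold sQ at h0
  rw [hkβ] at h0
  have h1 := Q.V0_ge d hk1 hk2 hs (le_trans (mul_le_mul_of_nonneg_left hle (by linarith)) hsm) hk10 hsm1 hc hc0 hC
  refine inv_G_le hg (sD_pos d) h0 hd hd0 ?_
  linarith

theorem QD.invG1 (Q : QD T0 b h κ R t T s z) {β G1 g d1 : ℝ} (hβ : β = κ / R) (hg : 0 < g)
    (h1 : g * sQ β κ t ≤ G1) (d : DomR κ t) (hd : sD κ t ≤ d1 ^ 4) (hd0 : 0 ≤ d1) (hs : 0 ≤ s) :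
    G1⁻¹ ≤ d1 / g * Real.exp (-R + T * (s ^ 2 / 2)) := by
  have hκ := Q.kpos
  have hR := Q.Rpos
  have hkβ : κ / β = R := by rw [hβ]; field_simp
  unfold sQ at h1
  rw [hkβ] at h1
  have h2 := Q.V1_ge d hs
  refine inv_G_le hg (sD_pos d) h1 hd hd0 ?_
  linarith

theorem QD.G1le (Q : QD T0 b h κ R t T s z) {β G1 δ1 : ℝ} (hβ : β = κ / R)
    (h1 : G1 ≤ 1.035 * sQ β κ t) (d : DomR κ t) (hd : δ1 ^ 4 ≤ sD κ t) (hd0 : 0 < δ1) (hs : 0 ≤ s) (hs2 : s * h ≤ 0.6) :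
    G1 ≤ 1.035 / δ1 * Real.exp (R - T * (0.4075 * s ^ 2)) := by
  have hκ := Q.kpos
  have hR := Q.Rpos
  have hkβ : κ / β = R := by rw [hβ]; field_simp
  unfold sQ at h1
  rw [hkβ] at h1
  have h2 := Q.V1_le d hs hs2
  have h3 : δ1 ≤ Real.sqrt (Real.sqrt (sD κ t)) := by
    apply Real.le_sqrt_of_sq_le
    apply Real.le_sqrt_of_sq_le
    calc (δ1 ^ 2) ^ 2 = δ1 ^ 4 := by ring
      _ ≤ _ := hd
  refine h1.trans ?_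
  have h4 : Real.exp (R * sE κ t) ≤ Real.exp (R - T * (0.4075 * s ^ 2)) := Real.exp_le_exp.2 (by linarith)
  rw [div_mul_eq_mul_div, mul_div_assoc]
  apply mul_le_mul_of_nonneg_left _ (by norm_num)
  exact div_le_div₀ (Real.exp_pos _).le h4 hd0 h3

end facts

/-- upper bound of `D₀` on the left -/
theorem D0_325 {κ t : ℝ} (h : DomR κ t) (ht : t + κ ≤ 0) (hτ : -0.5373 ≤ t + κ) :
    sD κ t ≤ max (1 + κ ^ 2) (1.9162 * κ ^ 2 + 0.35) := by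
  have h1 := DL_le h (sy_nonpos h ht) (RG.y_ge_325 h hτ)
  have hE : Real.exp (2 * 0.325) ≤ 1.9162 := by
    have := r1_exp_le3 (z := 2 * 0.325) (by norm_num) (by norm_num)
    refine this.trans (by norm_num)
  unfold sD
  refine h1.trans (max_le_max le_rfl ?_)
  have := mul_le_mul_of_nonneg_left hE (sq_nonneg κ)
  linarith


/-- convexity in `s` -/
private theorem m1_conv {s s1 s2 g C F1 : ℝ} (hs1 : s1 ≤ s) (hs2 : s ≤ s2) (hg0 : 0 ≤ g) (hC2 : 1 / 2 ≤ C)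
    (hF1a : -((2 - s1) ^ 2 * (1 - g) / 2) + 2 * C * (1 - s1) ^ 2 - 0.4075 * s1 ^ 2 ≤ -F1)
    (hF1b : -((2 - s2) ^ 2 * (1 - g) / 2) + 2 * C * (1 - s2) ^ 2 - 0.4075 * s2 ^ 2 ≤ -F1) :
    -((2 - s) * (2 - s)) + (2 - s) ^ 2 * (1 + g) / 2 + (2 * C * (1 - s) ^ 2 - 0.4075 * s ^ 2) ≤ -F1 := by
  rcases eq_or_lt_of_le (hs1.trans hs2) with he | he
  · have : s = s1 := le_antisymm (by linarith) hs1
    rw [this]
    linarith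
  · obtain ⟨a, ha⟩ : ∃ a, a = (-(1 - g) / 2 + 2 * C - 0.4075) := ⟨_, rfl⟩
    have ha0 : 0 ≤ a := by rw [ha]; linarith
    have f2 : 0 ≤ a * ((s - s1) * (s2 - s)) := mul_nonneg ha0 (mul_nonneg (by linarith) (by linarith))
    rw [ha] at f2
    have f3 := mul_le_mul_of_nonneg_left hF1a (by linarith : 0 ≤ s2 - s)
    have f4 := mul_le_mul_of_nonneg_left hF1b (by linarith : 0 ≤ s - s1)
    have f5 : (s2 - s1) * (-((2 - s) * (2 - s)) + (2 - s) ^ 2 * (1 + g) / 2 + (2 * C * (1 - s) ^ 2 - 0.4075 * s ^ 2)) ≤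
        (s2 - s1) * (-F1) := by
      have f6 := mul_nonneg (by linarith : 0 ≤ s2 - s1) f2
      have e : (s2 - s1) * (-((2 - s) * (2 - s)) + (2 - s) ^ 2 * (1 + g) / 2 + (2 * C * (1 - s) ^ 2 - 0.4075 * s ^ 2)) =
        (s2 - s) * (-((2 - s1) ^ 2 * (1 - g) / 2) + 2 * C * (1 - s1) ^ 2 - 0.4075 * s1 ^ 2) +
        (s - s1) * (-((2 - s2) ^ 2 * (1 - g) / 2) + 2 * C * (1 - s2) ^ 2 - 0.4075 * s2 ^ 2) -
        (s2 - s1) * ((-(1 - g) / 2 + 2 * C - 0.4075) * ((s - s1) * (s2 - s))) := by ring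
      rw [e]
      linarith
    exact le_of_mul_le_mul_left f5 (by linarith)

/-- the second exponent -/
private theorem m1_sec {s s1 κ k1 C z F3 : ℝ} (hs1 : s1 ≤ s) (hs10 : 0.2304 ≤ s1) (hs20 : s ≤ 0.79)
    (hk1 : k1 ≤ κ) (hk10 : 0.29 ≤ k1) (hC1 : C ≤ 0.62) (hz : 1.43239 ≤ z)
    (hF3 : (2 - s1) * 1.8347 - (2 - s1) ^ 2 + 2 * C * (1 - s1) ^ 2 - 0.4075 * s1 ^ 2 -
      0.97 * (1 + k1 ^ 2) * 2.05174 ≤ -F3) (hF3' : 4 - 1.8347 - 4 * C + s1 * (4 * C - 2.815) ≤ 0) :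
    (2 - s) * (z * (Real.pi / 2 - κ)) - (2 - s) * (2 - s) + (2 * C * (1 - s) ^ 2 - 0.4075 * s ^ 2) -
      0.97 * ((1 + κ ^ 2) * z ^ 2) ≤ -F3 := by
  have hpi := Real.pi_lt_d4
  have g1 : (2 - s) * (z * (Real.pi / 2 - κ)) ≤ (2 - s) * (z * 1.2808) := by
    apply mul_le_mul_of_nonneg_left _ (by linarith)
    apply mul_le_mul_of_nonneg_left _ (by linarith)
    linarith
  have hk12 : 1.0841 ≤ 1 + k1 ^ 2 := by nlinarith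
  have hAk : 1 + k1 ^ 2 ≤ 1 + κ ^ 2 := by nlinarith
  obtain ⟨A, hA⟩ : ∃ A, A = 1 + k1 ^ 2 := ⟨_, rfl⟩
  rw [← hA] at hk12 hAk hF3
  have g2 : (2 - s) * (z * 1.2808) - 0.97 * (A * z ^ 2) ≤ (2 - s) * 1.8347 - 0.97 * A * 2.05174 := by
    have g3 : 0 ≤ (z - 1.43239) * (0.97 * A * (z + 1.43239) - (2 - s) * 1.2808) := by
      apply mul_nonneg (by linarith)
      have : 1.0841 * 2.8647 ≤ A * (z + 1.43239) := mul_le_mul hk12 (by linarith) (by norm_num) (by linarith)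
      linarith
    have g4 : (2 - s) * (1.43239 * 1.2808) ≤ (2 - s) * 1.8347 := mul_le_mul_of_nonneg_left (by norm_num) (by linarith)
    have g5 : 0 ≤ 0.97 * A := by linarith
    have g6 : 0.97 * A * 2.05174 ≤ 0.97 * A * (1.43239 ^ 2) := mul_le_mul_of_nonneg_left (by norm_num) g5
    linarith
  have g7 : A * z ^ 2 ≤ (1 + κ ^ 2) * z ^ 2 := mul_le_mul_of_nonneg_right hAk (sq_nonneg z)
  have g8 : (2 - s) * 1.8347 - (2 - s) * (2 - s) + (2 * C * (1 - s) ^ 2 - 0.4075 * s ^ 2) ≤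
      (2 - s1) * 1.8347 - (2 - s1) ^ 2 + 2 * C * (1 - s1) ^ 2 - 0.4075 * s1 ^ 2 := by
    have g9 : (s - s1) * (4 - 1.8347 - 4 * C + s1 * (4 * C - 2.815)) ≤ 0 :=
      mul_nonpos_of_nonneg_of_nonpos (by linarith) hF3'
    have g10 : 0 ≤ (1 + 0.4075 - 2 * C) * (s - s1) ^ 2 := mul_nonneg (by linarith) (sq_nonneg _)
    linarith
  linarith

/-- algebra of the closing -/
private theorem m1_close {X W a1 a2 a3 a4 cst K E1 E2 E3 : ℝ} (hK0 : 0 ≤ K) (hcst : 0 ≤ cst)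
    (hX : X ≤ K * a1 + 1.835 * a2 * (1 + 0.62 * a3)) (hW : W ≤ cst * a4) (hW0 : 0 ≤ W)
    (ha1 : 0 ≤ a1) (ha2 : 0 ≤ a2) (ha3 : 0 ≤ a3)
    (x1 : a1 * a4 ≤ E1) (x2 : a2 * a4 ≤ E2) (x3 : a2 * a3 * a4 ≤ E3) :
    X * W ≤ (K * E1 + 1.835 * (E2 + 0.62 * E3)) * cst := by
  refine (mul_le_mul hX hW hW0 (by positivity)).trans ?_
  have e3 : (K * a1 + 1.835 * a2 * (1 + 0.62 * a3)) * (cst * a4) =
      (K * (a1 * a4) + 1.835 * (a2 * a4 + 0.62 * (a2 * a3 * a4))) * cst := by ring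
  rw [e3]
  apply mul_le_mul_of_nonneg_right _ hcst
  have := mul_le_mul_of_nonneg_left x1 hK0
  linarith

private theorem m1_exp {T F x : ℝ} (hT5 : 5.07 ≤ T) (hF : 0 ≤ F) (hx : x ≤ -F) : T * x ≤ -(5.07 * F) := by
  have h1 := mul_le_mul_of_nonneg_left hx (by linarith : 0 ≤ T)
  have h2 := mul_le_mul_of_nonneg_right hT5 hF
  linarith only [h1, h2]

/-- the weight -/
theorem QD.W1 {b : ℕ} {h κ R t T s z T0 : ℝ} (Q : QD T0 b h κ R t T s z) {β G0 G1 : ℝ} (hβ : β = κ / R)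
    (h0 : 0.965 * sQ β κ (t - h) ≤ G0) (h1 : 0 ≤ G1) (h1' : G1 ≤ 1.035 * sQ β κ t)
    (dd0 : DomR κ (t - h)) (dd1 : DomR κ t) {k1 k2 s1 s2 sm c C d0 δ1 : ℝ}
    (hk1 : k1 ≤ κ) (hk2 : κ ≤ k2) (hk10 : 0.29 ≤ k1) (hs1 : s1 ≤ s) (hs2 : s ≤ s2) (hs10 : 0.2304 ≤ s1)
    (hs20 : s2 ≤ 0.79)
    (hd0 : 0 ≤ d0) (hD0 : 1 + k2 ^ 2 ≤ d0 ^ 4) (hD0' : 1.9162 * k2 ^ 2 + 0.35 ≤ d0 ^ 4) (hδ : 0 < δ1)
    (hδ1 : δ1 ^ 4 ≤ sD κ t) (hsm : (1 - s1) * 0.69814 ≤ sm * (1 + k1 ^ 2)) (hsm1 : sm ≤ 1)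
    (hc : κ * (1 / 2 - κ ^ 2 / 6) ≤ c) (hc0 : 0 ≤ c)
    (hC : c * sm + k2 ^ 4 * sm ^ 2 / 12 + (1 + k2 * sm) * (sm ^ 2 / 12 + sm ^ 4 / 24) ≤ (C - 1 / 2) * (1 + k1 ^ 2)) :
    (G0⁻¹) ^ 2 * G1 ≤ ((d0 / 0.965) ^ 2 * (1.035 / δ1)) * Real.exp (-R + T * (2 * C * (1 - s) ^ 2 - 0.4075 * s ^ 2)) := by
  have hκ := Q.kpos
  have hle := Q.hle
  have hh0 := Q.h0
  have hG0 : 0 < G0 := lt_of_lt_of_le (mul_pos (by norm_num) (sQ_pos dd0)) h0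
  have hτ : t - h + κ = -((1 - s) * h) := by rw [Q.ht]; ring
  have h1s : (1 - s) * h ≤ 0.7696 * 0.69814 := mul_le_mul (by linarith) hle hh0.le (by norm_num)
  have h1s0 : 0 ≤ (1 - s) * h := mul_nonneg (by linarith) hh0.le
  have hk22 : κ ^ 2 ≤ k2 ^ 2 := pow_le_pow_left₀ hκ.le hk2 2
  have hD : sD κ (t - h) ≤ d0 ^ 4 := by
    refine (D0_325 dd0 (by rw [hτ]; linarith) (by rw [hτ]; linarith)).trans (max_le ?_ ?_)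
    · exact le_trans (by linarith) hD0
    · exact le_trans (by linarith) hD0'
  have i0 := Q.invG0 (g := 0.965) (d0 := d0) (k1 := k1) (k2 := k2) (sm := sm) (c := c) (C := C) hβ (by norm_num) h0 dd0 hD hd0
    hk1 hk2 (by linarith) (by linarith) (by linarith) hsm1 hc hc0 hC
  have i1 := Q.G1le hβ h1' dd1 hδ1 hδ (by linarith) (by
    have : s * h ≤ 0.79 * 0.69814 := mul_le_mul (by linarith) hle hh0.le (by norm_num)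
    linarith)
  have j1 := pow_le_pow_left₀ (inv_nonneg.2 hG0.le) i0 2
  have j2 := mul_le_mul j1 i1 h1 (by positivity)
  refine j2.trans (le_of_eq ?_)
  have e1 : Real.exp (-R + T * (2 * C * (1 - s) ^ 2 - 0.4075 * s ^ 2)) =
      Real.exp (-R + T * (C * (1 - s) ^ 2)) ^ 2 * Real.exp (R - T * (0.4075 * s ^ 2)) := by
    rw [← Real.exp_nat_mul, ← Real.exp_add]
    congr 1
    push_cast
    ring
  rw [e1]
  ring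

/-- a box of the copy `-1` on the discs -/
theorem QD.boxM1 {b : ℕ} {h κ R t T s z : ℝ} (Q : QD 5.07 b h κ R t T s z) {β G0 G1 : ℝ} (hβ : β = κ / R)
    (h0 : 0.965 * sQ β κ (t - h) ≤ G0) (h1 : 0 ≤ G1) (h1' : G1 ≤ 1.035 * sQ β κ t)
    (dd0 : DomR κ (t - h)) (dd1 : DomR κ t) (k1 k2 s1 s2 sm c C d0 δ1 K g F1 E1 F2 E2 F3 E3 : ℝ)
    (hk1 : k1 ≤ κ) (hk2 : κ ≤ k2) (hk10 : 0.29 ≤ k1) (hs1 : s1 ≤ s) (hs2 : s ≤ s2) (hs10 : 0.2304 ≤ s1)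
    (hs20 : s2 ≤ 0.79) (hg : k2 ≤ 1.3 ∧ 0 ≤ g ∨ 0.04 ≤ g) (hg0 : 0 ≤ g) (hK0 : 0 ≤ K) (hK : 1.5 ≤ k1 * K ^ 2)
    (hd0 : 0 ≤ d0) (hD0 : 1 + k2 ^ 2 ≤ d0 ^ 4) (hD0' : 1.9162 * k2 ^ 2 + 0.35 ≤ d0 ^ 4) (hδ : 0 < δ1)
    (hδ1 : δ1 ^ 4 ≤ sD κ t) (hsm : (1 - s1) * 0.69814 ≤ sm * (1 + k1 ^ 2)) (hsm1 : sm ≤ 1)
    (hc : κ * (1 / 2 - κ ^ 2 / 6) ≤ c) (hc0 : 0 ≤ c) (hC1 : C ≤ 0.62) (hC2 : 1 / 2 ≤ C)
    (hC : c * sm + k2 ^ 4 * sm ^ 2 / 12 + (1 + k2 * sm) * (sm ^ 2 / 12 + sm ^ 4 / 24) ≤ (C - 1 / 2) * (1 + k1 ^ 2))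
    (hF10 : 0 ≤ F1) (hF1a : -((2 - s1) ^ 2 * (1 - g) / 2) + 2 * C * (1 - s1) ^ 2 - 0.4075 * s1 ^ 2 ≤ -F1)
    (hF1b : -((2 - s2) ^ 2 * (1 - g) / 2) + 2 * C * (1 - s2) ^ 2 - 0.4075 * s2 ^ 2 ≤ -F1)
    (hF20 : 0 ≤ F2) (hF2 : 2 * C * (1 - s1) ^ 2 - 0.4075 * s1 ^ 2 - 0.97 * (1 + k1 ^ 2) * 2.05174 ≤ -F2)
    (hF30 : 0 ≤ F3) (hF3 : (2 - s1) * 1.8347 - (2 - s1) ^ 2 + 2 * C * (1 - s1) ^ 2 - 0.4075 * s1 ^ 2 -
      0.97 * (1 + k1 ^ 2) * 2.05174 ≤ -F3) (hF3' : 4 - 1.8347 - 4 * C + s1 * (4 * C - 2.815) ≤ 0)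
    (hE1 : Real.exp (-(5.07 * F1)) ≤ E1) (hE2 : Real.exp (-(5.07 * F2)) ≤ E2) (hE3 : Real.exp (-(5.07 * F3)) ≤ E3)
    (hfin : (K * E1 + 1.835 * (E2 + 0.62 * E3)) * ((d0 / 0.965) ^ 2 * (1.035 / δ1)) ≤ 7 / 250) :
    ‖Xf β R h t (-1)‖ * G0 ^ ((-1 : ℤ) - 1) * G1 ^ (-(-1 : ℤ)) ≤ 7 / 250 := by
  have hκ := Q.kpos
  have hT5 : 5.07 ≤ T := Q.hT
  have hz0 := Q.z0
  have hzz := Q.zz
  have f1 := m1_conv hs1 hs2 hg0 hC2 hF1a hF1b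
  have f3 := m1_sec hs1 hs10 (hs2.trans hs20) hk1 hk10 hC1 hz0 hF3 hF3'
  have hW := Q.W1 hβ h0 h1 h1' dd0 dd1 hk1 hk2 hk10 hs1 hs2 hs10 hs20 hd0 hD0 hD0' hδ hδ1 hsm hsm1 hc hc0 hC
  have hX := Q.HM1 (β := β) (μ := 2 - s) (g := g) (K := K) hβ (by linarith only [hs2, hs20]) (by linarith only [hs1, hs10]) le_rfl
    (by linarith only [hs1, hs10])
    (hg.imp (fun h => ⟨hk2.trans h.1, h.2⟩) id) hK0 (hK.trans (mul_le_mul_of_nonneg_right hk1 (sq_nonneg K)))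
  have hG0 : 0 < G0 := lt_of_lt_of_le (mul_pos (by norm_num) (sQ_pos dd0)) h0
  have hcst : 0 ≤ (d0 / 0.965) ^ 2 * (1.035 / δ1) := by positivity
  have eG : ‖Xf β R h t (-1)‖ * G0 ^ ((-1 : ℤ) - 1) * G1 ^ (-(-1 : ℤ)) = ‖Xf β R h t (-1)‖ * ((G0⁻¹) ^ 2 * G1) := by
    have e1 : (-1 : ℤ) - 1 = -((2 : ℕ) : ℤ) := by norm_num
    have e2 : -(-1 : ℤ) = ((1 : ℕ) : ℤ) := by norm_num
    rw [e1, e2, zpow_neg, zpow_natCast, zpow_natCast, pow_one, inv_pow]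
    ring
  rw [eG]
  have hWn : 0 ≤ (G0⁻¹) ^ 2 * G1 := mul_nonneg (sq_nonneg _) h1
  have hRz : R = T * (1 + κ ^ 2) * z ^ 2 := Q.hR
  have f2 : (2 * C * (1 - s) ^ 2 - 0.4075 * s ^ 2) - 0.97 * ((1 + κ ^ 2) * z ^ 2) ≤ -F2 := by
    have a1 : (1 - s) ^ 2 ≤ (1 - s1) ^ 2 := pow_le_pow_left₀ (by linarith only [hs2, hs20]) (by linarith only [hs1]) 2
    have a2 : s1 ^ 2 ≤ s ^ 2 := pow_le_pow_left₀ (by linarith only [hs10]) hs1 2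
    have a3 := mul_le_mul_of_nonneg_left a1 (by linarith only [hC2] : 0 ≤ 2 * C)
    have a4 : k1 ^ 2 ≤ κ ^ 2 := pow_le_pow_left₀ (by linarith only [hk10]) hk1 2
    have a5 : (1 + k1 ^ 2) * 2.05174 ≤ (1 + κ ^ 2) * z ^ 2 := mul_le_mul (by linarith only [a4]) hzz (by norm_num) (by positivity)
    linarith only [a2, a3, a5, hF2]
  obtain ⟨w, hw⟩ : ∃ w, w = 2 * C * (1 - s) ^ 2 - 0.4075 * s ^ 2 := ⟨_, rfl⟩
  rw [← hw] at f1 f2 f3 hW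
  refine (m1_close hK0 hcst hX hW hWn (Real.exp_pos _).le (Real.exp_pos _).le (Real.exp_pos _).le ?_ ?_ ?_).trans hfin
  · rw [← Real.exp_add]
    refine (Real.exp_le_exp.2 ?_).trans hE1
    have := m1_exp hT5 hF10 f1
    linarith only [this]
  · rw [← Real.exp_add]
    refine (Real.exp_le_exp.2 ?_).trans hE2
    have := m1_exp hT5 hF20 f2
    have e : 0.03 * R + (-R + T * w) = T * (w - 0.97 * ((1 + κ ^ 2) * z ^ 2)) := by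
      linear_combination (-0.97) * hRz
    rw [e]
    exact this
  · rw [← Real.exp_add, ← Real.exp_add]
    refine (Real.exp_le_exp.2 ?_).trans hE3
    have := m1_exp hT5 hF30 f3
    have e : 0.03 * R + T * ((2 - s) * (z * (Real.pi / 2 - κ)) - (2 - s) * (2 - s)) + (-R + T * w) =
        T * ((2 - s) * (z * (Real.pi / 2 - κ)) - (2 - s) * (2 - s) + w - 0.97 * ((1 + κ ^ 2) * z ^ 2)) := by
      linear_combination (-0.97) * hRz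
    rw [e]
    exact this

end Sok
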