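import Pool.Agent.Lib.MP_816dec_an.R1BigDefs
import Pool.Agent.Lib.MP_816dec_an.JNum2
import Pool.Agent.Lib.MP_816dec_an.R1Ineq5

/-!
MP_816dec_an (A3, row R1): the copies for `κ ≤ 0.3` at the angles `π/2 ≤ t ≤ 3π/2`.
-/

set_option autoImplicit false

open Complex Set Filter Topology Metric

namespace Sok

theorem exp_49 : Real.exp 0.49 ≤ 1.6325 := by
  have h := Real.exp_bound' (x := 0.49) (by norm_num) (by norm_num) (n := 8) (by norm_num)
  refine h.trans ?_
  norm_num [Finset.sum_range_succ, Nat.factorial]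

theorem exp_49' : 1.632 ≤ Real.exp 0.49 := by
  have h := Real.sum_le_exp_of_nonneg (x := 0.49) (by norm_num) 8
  refine le_trans ?_ h
  norm_num [Finset.sum_range_succ, Nat.factorial]

/-- the saddle exists for every angle when `κ ≤ 0.3` -/
theorem exists_sad_small {κ : ℝ} (h0 : 0 < κ) (h1 : κ ≤ 0.3) (t : ℝ) :
    ∃ σ : ℂ, ‖σ‖ ≤ 0.49 ∧ σ = κ * cexp (I * t) * cexp (I * σ) := by
  obtain ⟨f, hf⟩ : ∃ f : ℂ → ℂ, f = fun σ => κ * cexp (I * t) * cexp (I * σ) := ⟨_, rfl⟩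
  have hn : ∀ σ, ‖σ‖ ≤ 0.49 → ‖f σ‖ ≤ 0.4898 := by
    intro σ hσ
    rw [hf]
    simp only [norm_mul, Complex.norm_exp]
    have e1 : (I * (t : ℂ)).re = 0 := by simp
    have e2 : (I * σ).re = -σ.im := by simp
    rw [e1, e2, Real.exp_zero, mul_one, Complex.norm_real, Real.norm_of_nonneg h0.le]
    have h2 : -σ.im ≤ 0.49 := by
      have := Complex.abs_im_le_norm σ
      rw [abs_le] at this
      linarith [this.1]
    calc κ * Real.exp (-σ.im) ≤ 0.3 * 1.6325 :=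
          mul_le_mul h1 ((Real.exp_le_exp.2 h2).trans exp_49) (Real.exp_pos _).le (by norm_num)
      _ ≤ 0.4898 := by norm_num
  have hd : ∀ σ, HasDerivAt f (I * f σ) σ := by
    intro σ
    rw [hf]
    have h2 : HasDerivAt (fun s : ℂ => I * s) I σ := by simpa using (hasDerivAt_id σ).const_mul I
    have h3 := (h2.cexp).const_mul (κ * cexp (I * t))
    have e : κ * cexp (I * t) * (cexp (I * σ) * I) = I * (κ * cexp (I * t) * cexp (I * σ)) := by ring
    rw [e] at h3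
    exact h3
  obtain ⟨s, hs⟩ : ∃ s : Set ℂ, s = closedBall 0 0.49 := ⟨_, rfl⟩
  have hmem : ∀ σ, σ ∈ s ↔ ‖σ‖ ≤ 0.49 := by
    intro σ
    rw [hs, mem_closedBall, dist_zero_right]
  have hcv : Convex ℝ s := by rw [hs]; exact convex_closedBall _ _
  have hmaps : MapsTo f s s := by
    intro σ hσ
    rw [hmem] at hσ ⊢
    linarith [hn σ hσ]
  have hlip : LipschitzOnWith ⟨0.4898, by norm_num⟩ f s := by
    apply hcv.lipschitzOnWith_of_nnnorm_hasDerivWithin_le (f' := fun σ => I * f σ)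
    · intro σ _
      exact (hd σ).hasDerivWithinAt
    · intro σ hσ
      rw [← NNReal.coe_le_coe, coe_nnnorm, norm_mul, Complex.norm_I, one_mul]
      exact hn σ ((hmem σ).1 hσ)
  have hK : ContractingWith ⟨0.4898, by norm_num⟩ (hmaps.restrict f s s) := by
    refine ⟨?_, ?_⟩
    · rw [← NNReal.coe_lt_coe]
      show (0.4898 : ℝ) < 1
      norm_num
    · exact hlip.mapsToRestrict hmaps
  have hc : IsComplete s := by rw [hs]; exact isClosed_closedBall.isComplete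
  obtain ⟨σ, hσs, hσ, -⟩ := hK.exists_fixedPoint' hc hmaps (x := 0)
    ((hmem 0).2 (by rw [norm_zero]; norm_num)) (edist_ne_top _ _)
  refine ⟨σ, (hmem σ).1 hσs, ?_⟩
  have h3 : f σ = σ := hσ
  rw [hf] at h3
  exact h3.symm

/-- real form -/
theorem exists_sad_real {κ : ℝ} (h0 : 0 < κ) (h1 : κ ≤ 0.3) (t : ℝ) :
    ∃ x y : ℝ, ‖(x + y * I : ℂ)‖ ≤ 0.49 ∧ x = κ * Real.exp (-y) * Real.cos (t + x) ∧
      y = κ * Real.exp (-y) * Real.sin (t + x) := by
  obtain ⟨σ, hσ, he⟩ := exists_sad_small h0 h1 t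
  refine ⟨σ.re, σ.im, by rwa [Complex.re_add_im], ?_⟩
  have e1 : (κ : ℂ) * cexp (I * t) * cexp (I * σ) =
      ((κ * Real.exp (-σ.im) : ℝ) : ℂ) * cexp (((t + σ.re : ℝ) : ℂ) * I) := by
    have e2 : I * σ = ((-σ.im : ℝ) : ℂ) + ((σ.re : ℝ) : ℂ) * I := by
      apply Complex.ext <;> simp
    rw [e2, Complex.exp_add, Complex.ofReal_mul, Complex.ofReal_exp]
    have e3 : cexp (((t + σ.re : ℝ) : ℂ) * I) = cexp (I * t) * cexp ((σ.re : ℂ) * I) := by
      rw [← Complex.exp_add]; congr 1; push_cast; ring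
    rw [e3]
    ring
  rw [e1, Complex.exp_mul_I, ← Complex.ofReal_cos, ← Complex.ofReal_sin] at he
  have hr := congrArg Complex.re he
  have hi := congrArg Complex.im he
  simp only [mul_re, mul_im, add_re, add_im, ofReal_re, ofReal_im, I_re, I_im, mul_zero, mul_one, sub_zero,
    zero_mul, add_zero, zero_add] at hr hi
  exact ⟨hr, hi⟩


theorem data_norm {κ t x y : ℝ} (h0 : 0 < κ) (hx : x = κ * Real.exp (-y) * Real.cos (t + x))
    (hy : y = κ * Real.exp (-y) * Real.sin (t + x)) : ‖(x + y * I : ℂ)‖ = κ * Real.exp (-y) := by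
  have h1 : x ^ 2 + y ^ 2 = (κ * Real.exp (-y)) ^ 2 := by
    have h6 := Real.sin_sq_add_cos_sq (t + x)
    calc x ^ 2 + y ^ 2 = (κ * Real.exp (-y) * Real.cos (t + x)) ^ 2 + (κ * Real.exp (-y) * Real.sin (t + x)) ^ 2 := by
          rw [← hx, ← hy]
      _ = (κ * Real.exp (-y)) ^ 2 * (Real.sin (t + x) ^ 2 + Real.cos (t + x) ^ 2) := by ring
      _ = _ := by rw [h6, mul_one]
  have h2 : ‖(x + y * I : ℂ)‖ = Real.sqrt (x ^ 2 + y ^ 2) := by
    rw [Complex.norm_def]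
    congr 1
    rw [Complex.normSq_apply]
    simp
    ring
  rw [h2, h1, Real.sqrt_sq (by positivity)]

theorem data_point {κ t x y β : ℝ} (hβ : β ≠ 0) (hx : x = κ * Real.exp (-y) * Real.cos (t + x))
    (hy : y = κ * Real.exp (-y) * Real.sin (t + x)) :
    zs β (x + y * I) = ((κ / β : ℝ) : ℂ) * cexp (I * ((t + β / 2 : ℝ) : ℂ)) := by
  have h1 : (x + y * I : ℂ) = ((κ * Real.exp (-y) : ℝ) : ℂ) * cexp (((t + x : ℝ) : ℂ) * I) := by
    rw [Complex.exp_mul_I, ← Complex.ofReal_cos, ← Complex.ofReal_sin]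
    rw [mul_add, ← mul_assoc, ← Complex.ofReal_mul, ← Complex.ofReal_mul, ← hx, ← hy]
  have hb : (β : ℂ) ≠ 0 := by exact_mod_cast hβ
  have e1 : (-(I * (x + y * I)) + I * β / 2 : ℂ) = ((y : ℝ) : ℂ) + (((β / 2 - x : ℝ) : ℂ) * I) := by
    push_cast
    linear_combination (-(y : ℂ)) * Complex.I_mul_I
  unfold zs
  rw [e1, h1, Complex.exp_add]
  have e2 : ((κ * Real.exp (-y) : ℝ) : ℂ) = (κ : ℂ) * cexp (-((y : ℝ) : ℂ)) := by
    push_cast; rfl
  rw [e2]
  have e3 : cexp (-((y : ℝ) : ℂ)) * cexp ((y : ℝ) : ℂ) = 1 := by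
    rw [← Complex.exp_add, neg_add_cancel, Complex.exp_zero]
  have e4 : cexp (I * ((t + β / 2 : ℝ) : ℂ)) =
      cexp (((t + x : ℝ) : ℂ) * I) * cexp (((β / 2 - x : ℝ) : ℂ) * I) := by
    rw [← Complex.exp_add]
    congr 1
    push_cast
    ring
  rw [e4]
  have e5 : ((κ / β : ℝ) : ℂ) = (κ : ℂ) / β := by push_cast; rfl
  rw [e5]
  linear_combination ((κ : ℂ) / β) * cexp (((t + x : ℝ) : ℂ) * I) * cexp (((β / 2 - x : ℝ) : ℂ) * I) * e3

/-- `|F|` at a point of the plane `σ` -/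
theorem norm_F_data {β x y : ℝ} (hβ : 0 < β) (h1 : 1 - I * (x + y * I : ℂ) ≠ 0) :
    ‖F (cexp (I * β)) (zs β (x + y * I))‖ * Real.sqrt ‖(1 - I * (x + y * I) : ℂ)‖ =
      ‖HH β (x + y * I)‖ * Real.exp (x * (1 + y) / β) := by
  unfold HH
  rw [norm_mul, norm_mul, norm_cpow_half, Complex.norm_exp]
  have e : (-(((x : ℂ) + (y : ℂ) * I - I * ((x : ℂ) + (y : ℂ) * I) ^ 2 / 2) / (β : ℂ))) =
      ((-(x * (1 + y) / β) : ℝ) : ℂ) + ((-((y - (x ^ 2 - y ^ 2) / 2) / β) : ℝ) : ℂ) * I := by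
    push_cast
    ring_nf
    simp only [I_sq, I_pow_three]
    ring
  rw [e]
  simp only [add_re, ofReal_re, mul_re, I_re, mul_zero, ofReal_im, I_im, mul_one, sub_self, add_zero]
  have h2 : Real.exp (-(x * (1 + y) / β)) * Real.exp (x * (1 + y) / β) = 1 := by
    rw [← Real.exp_add, neg_add_cancel, Real.exp_zero]
  generalize Real.exp (x * (1 + y) / β) = e2 at h2 ⊢
  generalize Real.exp (-(x * (1 + y) / β)) = e1 at h2 ⊢
  linear_combination (-(‖F (cexp (I * β)) (zs β (x + y * I))‖ * Real.sqrt ‖(1 - I * (x + y * I) : ℂ)‖)) * h2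

/-- `(1+y) e^{-y} ≥ .83` -/
theorem one_add_mul_expS {y : ℝ} (h : |y| ≤ 0.49) : 0.83 ≤ (1 + y) * Real.exp (-y) := by
  have h1 := r1_exp_ge3 (-y)
  rw [abs_le] at h
  have h2 : 0 < 1 + y := by linarith [h.1]
  have h3 := mul_le_mul_of_nonneg_left h1 h2.le
  refine le_trans ?_ h3
  have h4 : y ^ 2 ≤ 0.49 ^ 2 := by nlinarith [h.1, h.2]
  nlinarith [sq_nonneg y, mul_nonneg (sq_nonneg y) (show 0 ≤ y + 0.49 by linarith [h.1]),
    mul_nonneg (sq_nonneg y) (sub_nonneg.2 h4)]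

theorem data_y {x y : ℝ} (hn : ‖(x + y * I : ℂ)‖ ≤ 0.49) : |x| ≤ 0.49 ∧ |y| ≤ 0.49 := by
  constructor
  · have := Complex.abs_re_le_norm (x + y * I : ℂ)
    simp at this
    linarith
  · have := Complex.abs_im_le_norm (x + y * I : ℂ)
    simp at this
    linarith

/-- sign of the real part -/
theorem data_neg {κ t x y : ℝ} (h0 : 0 < κ) (hn : ‖(x + y * I : ℂ)‖ ≤ 0.49)
    (hx : x = κ * Real.exp (-y) * Real.cos (t + x)) (hy : y = κ * Real.exp (-y) * Real.sin (t + x))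
    (ht1 : Real.pi / 2 ≤ t) (ht2 : t ≤ 3 * Real.pi / 2) : x ≤ 0 := by
  have hN := data_norm h0 hx hy
  rw [hN] at hn
  by_contra hc
  push Not at hc
  have hE : 0 < κ * Real.exp (-y) := by positivity
  have hcos : 0 < Real.cos (t + x) := by
    by_contra h1
    push Not at h1
    have := mul_nonpos_of_nonneg_of_nonpos hE.le h1
    linarith
  have h2 : 3 * Real.pi / 2 < t + x := by
    by_contra h1
    push Not at h1
    exact absurd (Real.cos_nonpos_of_pi_div_two_le_of_le (by linarith) (by linarith)) (not_le.2 hcos)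
  have h3 : Real.cos (t + x) = Real.sin (t + x - 3 * Real.pi / 2) := by
    have e : t + x = (t + x - 3 * Real.pi / 2) + 3 * Real.pi / 2 := by ring
    nth_rewrite 1 [e]
    have e2 : (t + x - 3 * Real.pi / 2) + 3 * Real.pi / 2 = ((t + x - 3 * Real.pi / 2) + Real.pi / 2) + Real.pi := by ring
    rw [e2, Real.cos_add_pi, Real.cos_add_pi_div_two, neg_neg]
  have h4 : Real.sin (t + x - 3 * Real.pi / 2) < t + x - 3 * Real.pi / 2 := Real.sin_lt (by linarith)
  have h5 : x < κ * Real.exp (-y) * x := by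
    calc x = κ * Real.exp (-y) * Real.cos (t + x) := hx
      _ < κ * Real.exp (-y) * x := by
        apply mul_lt_mul_of_pos_left _ hE
        rw [h3]
        linarith
  nlinarith

/-- bound of the exponent, distance to `π/2` -/
theorem data_V_right {κ t x y : ℝ} (h0 : 0 < κ) (hn : ‖(x + y * I : ℂ)‖ ≤ 0.49)
    (hx : x = κ * Real.exp (-y) * Real.cos (t + x)) (hy : y = κ * Real.exp (-y) * Real.sin (t + x))
    (ht1 : Real.pi / 2 ≤ t) (ht2 : t ≤ 3 * Real.pi / 2) (ht3 : t - Real.pi / 2 ≤ 2) :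
    x * (1 + y) / κ ≤ -(0.2 * (t - Real.pi / 2)) := by
  have hx0 := data_neg h0 hn hx hy ht1 ht2
  have hN := data_norm h0 hx hy
  obtain ⟨hax, hay⟩ := data_y hn
  rw [hN] at hn
  have hE : 0 < κ * Real.exp (-y) := by positivity
  obtain ⟨z, hz⟩ : ∃ z, z = t + x - Real.pi / 2 := ⟨_, rfl⟩
  have hc : Real.cos (t + x) = -Real.sin z := by
    have e : t + x = z + Real.pi / 2 := by rw [hz]; ring
    rw [e, Real.cos_add_pi_div_two]
  rw [hc] at hx
  have hs0 : 0 ≤ Real.sin z := by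
    by_contra h1
    push Not at h1
    nlinarith
  rw [abs_le] at hax
  have hpi := Real.pi_gt_d2
  have hpi' := Real.pi_lt_d2
  have hz0 : 0 ≤ z := by
    by_contra h1
    push Not at h1
    have := Real.sin_neg_of_neg_of_neg_pi_lt h1 (by linarith [hax.1])
    linarith
  have hz2 : z ≤ 2 := by linarith
  have hsz : 0.2733 * z ≤ Real.sin z := by
    rcases le_total z (Real.pi / 2) with h1 | h1
    · have h2 := Real.mul_le_sin hz0 h1
      have h3 : 0.2733 ≤ 2 / Real.pi := by rw [le_div_iff₀ (by linarith)]; linarith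
      exact (mul_le_mul_of_nonneg_right h3 hz0).trans h2
    · have e : Real.sin z = Real.cos (z - Real.pi / 2) := by rw [Real.cos_sub_pi_div_two]
      rw [e]
      have h2 := Real.one_sub_sq_div_two_le_cos (x := z - Real.pi / 2)
      nlinarith
  have h6 := one_add_mul_expS hay
  have e : x * (1 + y) / κ = -((1 + y) * Real.exp (-y) * Real.sin z) := by
    nth_rewrite 1 [hx]
    field_simp
  rw [e]
  have h7 := mul_le_mul_of_nonneg_right h6 hs0
  have h8 : t - Real.pi / 2 = z + κ * Real.exp (-y) * Real.sin z := by linarith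
  have h9 : κ * Real.exp (-y) * Real.sin z ≤ 0.49 * Real.sin z := mul_le_mul_of_nonneg_right hn hs0
  nlinarith

/-- bound of the exponent, distance to `3π/2` -/
theorem data_V_left {κ t x y : ℝ} (h0 : 0 < κ) (hn : ‖(x + y * I : ℂ)‖ ≤ 0.49)
    (hx : x = κ * Real.exp (-y) * Real.cos (t + x)) (hy : y = κ * Real.exp (-y) * Real.sin (t + x))
    (ht1 : Real.pi / 2 ≤ t) (ht2 : t ≤ 3 * Real.pi / 2) (ht3 : 3 * Real.pi / 2 - t ≤ 2) :
    x * (1 + y) / κ ≤ -(0.2 * (3 * Real.pi / 2 - t)) := by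
  have hx0 := data_neg h0 hn hx hy ht1 ht2
  obtain ⟨hax, hay⟩ := data_y hn
  have hE : 0 < κ * Real.exp (-y) := by positivity
  obtain ⟨z, hz⟩ : ∃ z, z = 3 * Real.pi / 2 - t - x := ⟨_, rfl⟩
  have hc : Real.cos (t + x) = -Real.sin z := by
    have e : t + x = Real.pi + (Real.pi / 2 - z) := by rw [hz]; ring
    rw [e, add_comm, Real.cos_add_pi, Real.cos_pi_div_two_sub]
  rw [hc] at hx
  rw [abs_le] at hax
  have hpi := Real.pi_gt_d2
  have hpi' := Real.pi_lt_d2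
  have hz0 : 0 ≤ z := by linarith
  have hz2 : z ≤ 2.49 := by linarith [hax.1]
  have hdz : 3 * Real.pi / 2 - t ≤ z := by linarith
  have h6 := one_add_mul_expS hay
  have hsz : 0.2 * (3 * Real.pi / 2 - t) ≤ 0.83 * Real.sin z := by
    rcases le_total z (Real.pi / 2) with h1 | h1
    · have h2 := Real.mul_le_sin hz0 h1
      have h3 : 0.6 ≤ 2 / Real.pi := by rw [le_div_iff₀ (by linarith)]; linarith
      have h4 := mul_le_mul_of_nonneg_right h3 hz0
      nlinarith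
    · have e : Real.sin z = Real.cos (z - Real.pi / 2) := by rw [Real.cos_sub_pi_div_two]
      rw [e]
      have h2 := Real.one_sub_sq_div_two_le_cos (x := z - Real.pi / 2)
      nlinarith
  have hs0 : 0 ≤ Real.sin z := by
    have : 0 ≤ 3 * Real.pi / 2 - t := by linarith
    nlinarith
  have e : x * (1 + y) / κ = -((1 + y) * Real.exp (-y) * Real.sin z) := by
    nth_rewrite 1 [hx]
    field_simp
  rw [e]
  have h7 := mul_le_mul_of_nonneg_right h6 hs0
  linarith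

/-- `|F|` for small `κ`, far angles -/
theorem small_far {κ t β : ℝ} (h0 : 0 < κ) (h1 : κ ≤ 0.3) (hβ : 0 < β) (hβ1 : β ≤ 1 / 38)
    (ht1 : Real.pi / 2 ≤ t) (ht2 : t ≤ 3 * Real.pi / 2) {d : ℝ}
    (hd : (d = t - Real.pi / 2 ∧ d ≤ 2) ∨ (d = 3 * Real.pi / 2 - t ∧ d ≤ 2)) :
    ‖F (cexp (I * β)) (((κ / β : ℝ) : ℂ) * cexp (I * ((t + β / 2 : ℝ) : ℂ)))‖ ≤
      1.52 * Real.exp (-(κ / β * (0.2 * d))) := by
  obtain ⟨x, y, hn, hx, hy⟩ := exists_sad_real h0 h1 t
  rw [← data_point hβ.ne' hx hy]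
  obtain ⟨hax, hay⟩ := data_y hn
  have hV : x * (1 + y) / κ ≤ -(0.2 * d) := by
    rcases hd with ⟨h2, h3⟩ | ⟨h2, h3⟩
    · rw [h2] at h3 ⊢
      exact data_V_right h0 hn hx hy ht1 ht2 h3
    · rw [h2] at h3 ⊢
      exact data_V_left h0 hn hx hy ht1 ht2 h3
  have hJ := J45_49 hβ hβ1 hn
  have hHH : ‖HH β (x + y * I)‖ ≤ 1 + 3.1 / 38 := by
    have h2 := norm_add_le (HH β (x + y * I) - 1) 1
    rw [sub_add_cancel, norm_one] at h2
    have h3 : 3.1 * β ≤ 3.1 / 38 := by linarith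
    linarith
  have hD : 0.51 ≤ ‖(1 - I * (x + y * I) : ℂ)‖ := by
    have h2 := norm_sub_norm_le (1 : ℂ) (I * (x + y * I))
    rw [norm_one, norm_mul, Complex.norm_I, one_mul] at h2
    linarith
  have hne : (1 - I * (x + y * I) : ℂ) ≠ 0 := by
    rw [← norm_pos_iff]; linarith
  have h2 := norm_F_data hβ hne
  have hS : 0.714 ≤ Real.sqrt ‖(1 - I * (x + y * I) : ℂ)‖ := by
    apply Real.le_sqrt_of_sq_le
    norm_num at hD ⊢
    linarith
  have hexp : Real.exp (x * (1 + y) / β) ≤ Real.exp (-(κ / β * (0.2 * d))) := by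
    apply Real.exp_le_exp.2
    have e : x * (1 + y) / β = κ / β * (x * (1 + y) / κ) := by field_simp
    rw [e]
    have h3 : 0 ≤ κ / β := by positivity
    have h4 := mul_le_mul_of_nonneg_left hV h3
    linarith
  have h5 : ‖F (cexp (I * β)) (zs β (x + y * I))‖ * 0.714 ≤
      (1 + 3.1 / 38) * Real.exp (-(κ / β * (0.2 * d))) := by
    calc ‖F (cexp (I * β)) (zs β (x + y * I))‖ * 0.714
        ≤ ‖F (cexp (I * β)) (zs β (x + y * I))‖ * Real.sqrt ‖(1 - I * (x + y * I) : ℂ)‖ :=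
          mul_le_mul_of_nonneg_left hS (norm_nonneg _)
      _ = ‖HH β (x + y * I)‖ * Real.exp (x * (1 + y) / β) := h2
      _ ≤ _ := mul_le_mul hHH hexp (Real.exp_pos _).le (by norm_num)
  have h6 := Real.exp_pos (-(κ / β * (0.2 * d)))
  nlinarith

end Sok
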