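import Pool.Agent.Lib.MP_816dec_an.R1Cell
import Pool.Agent.Lib.MP_816dec_an.FarT
import Pool.Agent.Lib.MP_816dec_an.R1Ineq7

/-!
MP_816dec_an (A3, row R1-b6): cells with a factor `r` (variants of R1Cell by helper74), and the tilted cell.
-/

set_option autoImplicit false

open Complex Set Filter Topology Metric

namespace Sok

/-- comparison of two normal forms with a factor `r` -/
theorem cmpTW {N Y T T0 U l f g q E0 e r Rf : ℝ} (hN : 0 < N)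
    (hY : N * (l * Real.exp (-(T * g))) ≤ Y) (hT : T0 ≤ T) (hT0 : 0 < T0) (hq : q ≤ f - g) (hq1 : 1 ≤ T0 * q)
    (hE : Real.exp (-(T0 * q)) ≤ E0) (hU0 : 0 ≤ U) (hl : 0 < l) (hr0 : 0 ≤ r) (hr : r ≤ Rf * T) (hRf : 0 ≤ Rf)
    (he : U * E0 ≤ e * l) : r * (N * (U * Real.exp (-(T * f)))) ≤ Rf * T0 * e * Y := by
  have hg : 0 < Real.exp (-(T * g)) := Real.exp_pos _
  have hTp : 0 < T := hT0.trans_le hT
  have hq0 : 0 < q := by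
    by_contra hc
    have := mul_nonpos_of_nonneg_of_nonpos hT0.le (not_lt.1 hc)
    linarith
  -- `T e^{-Tq} ≤ T0 e^{-T0 q}`
  have h2 : T * Real.exp (-(T * q)) ≤ T0 * E0 := by
    refine le_trans ?_ (mul_le_mul_of_nonneg_left hE hT0.le)
    have h3 : T / T0 ≤ Real.exp (q * (T - T0)) := by
      have h4 := Real.add_one_le_exp (q * (T - T0))
      have h5 : T / T0 ≤ q * (T - T0) + 1 := by
        rw [div_le_iff₀ hT0]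
        nlinarith [mul_nonneg (sub_nonneg.2 hT) (sub_nonneg.2 hq1)]
      linarith
    rw [div_le_iff₀ hT0] at h3
    have h6 : Real.exp (q * (T - T0)) * Real.exp (-(T * q)) = Real.exp (-(T0 * q)) := by
      rw [← Real.exp_add]; congr 1; ring
    have h7 := mul_le_mul_of_nonneg_right h3 (Real.exp_pos (-(T * q))).le
    calc T * Real.exp (-(T * q)) ≤ Real.exp (q * (T - T0)) * T0 * Real.exp (-(T * q)) := h7
      _ = T0 * (Real.exp (q * (T - T0)) * Real.exp (-(T * q))) := by ring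
      _ = T0 * Real.exp (-(T0 * q)) := by rw [h6]
  have h1 : Real.exp (-(T * f)) ≤ Real.exp (-(T * g)) * Real.exp (-(T * q)) := by
    rw [← Real.exp_add]
    apply Real.exp_le_exp.2
    have h3 : T * q ≤ T * (f - g) := mul_le_mul_of_nonneg_left hq hTp.le
    linarith
  have hE0 : 0 < E0 := lt_of_lt_of_le (Real.exp_pos _) hE
  have he0 : 0 ≤ e := by
    have : 0 ≤ e * l := le_trans (by positivity) he
    exact nonneg_of_mul_nonneg_left this hl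
  calc r * (N * (U * Real.exp (-(T * f)))) ≤ (Rf * T) * (N * (U * (Real.exp (-(T * g)) * Real.exp (-(T * q))))) := by
        apply mul_le_mul hr _ (by positivity) (by positivity)
        gcongr
    _ = Rf * (N * Real.exp (-(T * g)) * U) * (T * Real.exp (-(T * q))) := by ring
    _ ≤ Rf * (N * Real.exp (-(T * g)) * U) * (T0 * E0) := mul_le_mul_of_nonneg_left h2 (by positivity)
    _ = Rf * T0 * (N * Real.exp (-(T * g))) * (U * E0) := by ring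
    _ ≤ Rf * T0 * (N * Real.exp (-(T * g))) * (e * l) := mul_le_mul_of_nonneg_left he (by positivity)
    _ = Rf * T0 * e * (N * (l * Real.exp (-(T * g)))) := by ring
    _ ≤ Rf * T0 * e * Y := mul_le_mul_of_nonneg_left hY (by positivity)

/-- comparison of the remaining terms with a factor `r` -/
theorem cmpRW {R R0 G E ω Y L ρ0 E0 e : ℝ} (hR : R0 ≤ R) (hR0 : 0 < R0) (hG : 0 ≤ G)
    (hY : L * Real.exp (R * ω) ≤ Y) (hL : 0 < L) (hδ : 3 ≤ 2 * R0 * (ω - E)) (hρ : R0 ≤ ρ0 ^ 2) (hρ0 : 0 ≤ ρ0)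
    (hE : Real.exp (-(R0 * (ω - E))) ≤ E0) (he : G * (ρ0 * E0) ≤ e * L) :
    R * (Real.sqrt R * (G * Real.exp (R * E))) ≤ R0 * e * Y := by
  have hRp : 0 < R := hR0.trans_le hR
  have hE0 : 0 < E0 := lt_of_lt_of_le (Real.exp_pos _) hE
  have he0 : 0 ≤ e := by
    have : 0 ≤ e * L := le_trans (by positivity) he
    exact nonneg_of_mul_nonneg_left this hL
  have h1 : Real.sqrt R ≤ ρ0 * Real.exp ((R - R0) / (2 * R0)) := by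
    have h2 : Real.sqrt R ≤ Real.sqrt R0 * Real.exp ((R - R0) / (2 * R0)) := by
      rw [Real.sqrt_le_left (by positivity), mul_pow, Real.sq_sqrt hR0.le, ← Real.exp_nat_mul]
      have h3 := Real.add_one_le_exp ((R - R0) / R0)
      have e1 : ((2 : ℕ) : ℝ) * ((R - R0) / (2 * R0)) = (R - R0) / R0 := by push_cast; field_simp
      rw [e1]
      have h4 := mul_le_mul_of_nonneg_left h3 hR0.le
      have e2 : R0 * ((R - R0) / R0 + 1) = R := by field_simp; ring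
      linarith
    refine h2.trans (mul_le_mul_of_nonneg_right ?_ (Real.exp_pos _).le)
    rw [Real.sqrt_le_left hρ0]
    exact hρ
  have h2 : R ≤ R0 * Real.exp ((R - R0) / R0) := by
    have h3 := Real.add_one_le_exp ((R - R0) / R0)
    have h4 := mul_le_mul_of_nonneg_left h3 hR0.le
    have e2 : R0 * ((R - R0) / R0 + 1) = R := by field_simp; ring
    linarith
  have h5 : Real.exp ((R - R0) / R0) * (Real.exp ((R - R0) / (2 * R0)) * Real.exp (R * E)) ≤ Real.exp (R * ω) * E0 := by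
    refine le_trans ?_ (mul_le_mul_of_nonneg_left hE (Real.exp_pos _).le)
    rw [← Real.exp_add, ← Real.exp_add, ← Real.exp_add]
    apply Real.exp_le_exp.2
    have h6 : (R - R0) / R0 + (R - R0) / (2 * R0) ≤ (R - R0) * (ω - E) := by
      have e3 : (R - R0) / R0 + (R - R0) / (2 * R0) = 3 * (R - R0) / (2 * R0) := by field_simp; ring
      rw [e3, div_le_iff₀ (by positivity)]
      nlinarith [mul_nonneg (sub_nonneg.2 hR) (sub_nonneg.2 hδ)]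
    linarith
  calc R * (Real.sqrt R * (G * Real.exp (R * E)))
      ≤ (R0 * Real.exp ((R - R0) / R0)) * ((ρ0 * Real.exp ((R - R0) / (2 * R0))) * (G * Real.exp (R * E))) := by
        apply mul_le_mul h2 _ (by positivity) (by positivity)
        exact mul_le_mul_of_nonneg_right h1 (by positivity)
    _ = R0 * (G * ρ0) * (Real.exp ((R - R0) / R0) * (Real.exp ((R - R0) / (2 * R0)) * Real.exp (R * E))) := by ring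
    _ ≤ R0 * (G * ρ0) * (Real.exp (R * ω) * E0) := mul_le_mul_of_nonneg_left h5 (by positivity)
    _ = R0 * Real.exp (R * ω) * (G * (ρ0 * E0)) := by ring
    _ ≤ R0 * Real.exp (R * ω) * (e * L) := mul_le_mul_of_nonneg_left he (by positivity)
    _ = R0 * e * (L * Real.exp (R * ω)) := by ring
    _ ≤ R0 * e * Y := mul_le_mul_of_nonneg_left hY (by positivity)

theorem r_le_T {r h κ T k2 Rf H1 : ℝ} (hT : T = r * h ^ 2 / (1 + κ ^ 2)) (hr : 0 < r) (hκ : 0 < κ) (hk2 : κ ≤ k2)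
    (hRf : 1 + k2 ^ 2 ≤ Rf * H1) (hH1 : 0 < H1) (hh1 : H1 ≤ h ^ 2) : r ≤ Rf * T := by
  have hA : 0 < 1 + κ ^ 2 := by positivity
  have hkk : κ ^ 2 ≤ k2 ^ 2 := pow_le_pow_left₀ hκ.le hk2 2
  have hRf0 : 0 < Rf := by
    by_contra hc
    have := mul_nonpos_of_nonpos_of_nonneg (not_lt.1 hc) hH1.le
    have h2 : 0 ≤ k2 ^ 2 := sq_nonneg _
    linarith
  have h1 : 1 + κ ^ 2 ≤ Rf * h ^ 2 := by
    have := mul_le_mul_of_nonneg_left hh1 hRf0.le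
    linarith
  rw [hT, ← mul_div_assoc, le_div_iff₀ hA]
  have := mul_le_mul_of_nonneg_left h1 hr.le
  linarith

theorem Rf_nonneg {k2 Rf H1 : ℝ} (hRf : 1 + k2 ^ 2 ≤ Rf * H1) (hH1 : 0 < H1) : 0 ≤ Rf := by
  by_contra hc
  have := mul_nonpos_of_nonpos_of_nonneg (not_le.1 hc).le hH1.le
  have h2 : 0 ≤ k2 ^ 2 := sq_nonneg _
  linarith

/-- LEFT cell -/
theorem cellLW {β r t κ s h T Y g : ℝ} {k : ℤ}
    (l c k1 k2 ψ ψ1 b1 b2 P2 w1 w2 Φ G m0 U R0 β0 c0 E Gc ℓ q T0 Ea ea H2 g2 L ω ρ0 Eb eb Rf H1 : ℝ)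
    (hβ : 0 < β) (hκ : κ = β * r) (hs : t + κ = s * h) (hT : T = r * h ^ 2 / (1 + κ ^ 2)) (hh0 : 0 < h)
    (hh2 : h ^ 2 ≤ H2) (hH2 : 0 ≤ H2)
    (hk1 : k1 ≤ κ) (hk2 : κ ≤ k2) (hψ : κ / (1 + κ ^ 2) ≤ ψ) (hψ1 : ψ1 ≤ κ / (1 + κ ^ 2))
    (hb1 : b1 ≤ -((s + k - 1) * h)) (hb2 : -((s + k - 1) * h) ≤ b2)
    (hR0' : R0 ≤ r) (hβ0 : β ≤ β0) (hT0 : T0 ≤ T)
    (hY : eN r κ * (ℓ * Real.exp (-(T * g))) ≤ Y) (hg0 : 0 ≤ g) (hg2 : g ≤ g2)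
    (hq : q ≤ c * (s + k - 1) ^ 2 - g)
    (hψ0 : 0 ≤ ψ1) (hk0 : 0 < k1) (hb0 : 0 < b1) (hl : 0 < l)
    (hP : P2 = l * b2 / (1 + k1 ^ 2)) (hw2 : w2 = ψ * (l * b2)) (hw21 : w2 ≤ 1) (hw1 : w1 = ψ1 * (l * b1))
    (hΦ : Φ = 1 / 2 + w2 / 6 + w2 ^ 2 / 19) (hG : G = 1 - w1 + w1 ^ 2 / 2 - w1 ^ 3 / 6 + w1 ^ 4 / 24)
    (hn1 : k1 ^ 2 * Φ + (G / 2 + P2 ^ 2 * G ^ 3 / 24 + P2 ^ 4 * G ^ 5 / 24) ≤ (1 + k1 ^ 2) * (1 / l - c / l ^ 2))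
    (hn2 : k2 ^ 2 * Φ + (G / 2 + P2 ^ 2 * G ^ 3 / 24 + P2 ^ 4 * G ^ 5 / 24) ≤ (1 + k2 ^ 2) * (1 / l - c / l ^ 2))
    (hqq : P2 * G ≤ 99 / 100)
    (hm0 : m0 ≤ k1 ^ 2 * (1 + 2 * w1 + 2 * w1 ^ 2) - w2 ^ 2) (hm00 : 0 < m0) (hU0 : 0 ≤ U)
    (hU : 9 * (1 + k2 ^ 2) ≤ 4 * U ^ 4 * m0)
    (hR0 : 0 < R0) (hβ01 : β0 ≤ 11 / 100) (hbk : b2 + k2 ≤ 4.7)
    (hc0 : 1 ≤ c0 ^ 2 * (6.2831 * k1)) (hc00 : 0 ≤ c0) (hE0 : 0 ≤ E) (hE : P2 * (1.5708 - b1 - k1) ≤ E)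
    (hx : 5 * β0 ≤ 5.712 + b1 - 1.7183 * k2)
    (hGc : c0 * (β0 / (4.712 - b2 - k2) + 3.1416 / R0 + 1 + β0 + 0.011 + w2) ≤ Gc)
    (hT00 : 0 ≤ T0) (hq0 : 0 ≤ q) (hEa : Real.exp (-(T0 * q)) ≤ Ea) (hl0 : 0 < ℓ) (hea : U * Ea ≤ ea * ℓ)
    (hL0 : 0 < L) (hL : L ^ 4 * (1 + k2 ^ 2) ≤ ℓ ^ 4) (hω : ω + H2 * g2 / (1 + k1 ^ 2) ≤ 1)
    (hδ3 : 3 ≤ 2 * R0 * (ω - E)) (hq1 : 1 ≤ T0 * q) (hRf : 1 + k2 ^ 2 ≤ Rf * H1) (hH1 : 0 < H1) (hh1 : H1 ≤ h ^ 2)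
    (hρ : R0 ≤ ρ0 ^ 2) (hρ0 : 0 ≤ ρ0)
    (hEb : Real.exp (-(R0 * (ω - E))) ≤ Eb) (hGc0 : 0 ≤ Gc) (heb : Gc * (ρ0 * Eb) ≤ eb * L) :
    ‖Xf β r h t k‖ ≤ (ea + eb) * Y ∧ r * ‖Xf β r h t k‖ ≤ (Rf * T0 * ea + R0 * eb) * Y := by
  have hδ : 1 ≤ 2 * R0 * (ω - E) := by linarith
  have hR : 0 < r := hR0.trans_le hR0'
  have hκp : 0 < κ := hk0.trans_le hk1
  obtain ⟨t', ht'⟩ : ∃ t', t' = t + (k - 1) * h := ⟨_, rfl⟩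
  have hσ : t' + κ = (s + k - 1) * h := by rw [ht']; linear_combination hs
  have hF := HUl l c k1 k2 ψ ψ1 b1 b2 P2 w1 w2 Φ G m0 U R0 β0 c0 E Gc hβ hR hκ
    (b := -(t' + κ)) rfl hσ hT (by rw [hσ]; exact hb1) (by rw [hσ]; exact hb2) hk1 hk2 hψ hψ1 hψ0 hk0 hb0 hl hP hw2
    hw21 hw1 hΦ hG hn1 hn2 hqq hm0 hm00 hU0 hU hR0 hR0' hβ0 hβ01 hbk hc0 hc00 hE0 hE hx hGc
  have hN := eN_pos r κ
  have hX : ‖Xf β r h t k‖ ≤ eN r κ * (U * Real.exp (-(T * (c * (s + k - 1) ^ 2)))) +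
      Real.sqrt r * (Gc * Real.exp (r * E)) := by
    unfold Xf
    rw [← ht']
    exact hF
  have h1 := cmpT hN (le_refl (eN r κ * (U * Real.exp (-(T * (c * (s + k - 1) ^ 2)))))) hY hT0 hT00 hq hq0 hEa hU0
    hl0 hea
  have hkk : κ ^ 2 ≤ k2 ^ 2 := pow_le_pow_left₀ hκp.le hk2 2
  have h2 : L * Real.exp (r * ω) ≤ Y := by
    refine Y_exp hT hR.le hk0.le hk1 hY hl0.le hL0.le (le_trans ?_ hL) (le_trans ?_ hω) hg0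
    · exact mul_le_mul_of_nonneg_left (by linarith) (by positivity)
    · have hA1 : 0 < 1 + k1 ^ 2 := by positivity
      have : h ^ 2 * g / (1 + k1 ^ 2) ≤ H2 * g2 / (1 + k1 ^ 2) := by
        apply div_le_div_of_nonneg_right _ hA1.le
        exact mul_le_mul hh2 hg2 hg0 hH2
      linarith
  have h3 := cmpR hR0' hR0 hGc0 h2 hL0 hδ hρ hρ0 hEb heb
  have hT0p : 0 < T0 := by
    rcases hT00.lt_or_eq with h5 | h5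
    · exact h5
    · rw [← h5] at hq1; linarith
  have hrT : r ≤ Rf * T := r_le_T hT hR hκp hk2 hRf hH1 hh1
  have h1w := cmpTW hN hY hT0 hT0p hq hq1 hEa hU0 hl0 hR.le hrT (Rf_nonneg hRf hH1) hea
  have h3w := cmpRW hR0' hR0 hGc0 h2 hL0 hδ3 hρ hρ0 hEb heb
  refine ⟨?_, ?_⟩
  · rw [add_mul]
    exact hX.trans (add_le_add h1 h3)
  · have h4 := mul_le_mul_of_nonneg_left hX hR.le
    rw [mul_add] at h4
    rw [add_mul]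
    exact h4.trans (add_le_add h1w h3w)


/-- RIGHT cell -/
theorem cellRW {β r t κ s h T Y g : ℝ} {k : ℤ}
    (l c k1 k2 ψ ψ1 τ1 τm P w z φ E m0 U R0 β0 c0 E2 Gc ℓ q T0 Ea ea H2 g2 L ω ρ0 Eb eb Rf H1 : ℝ)
    (hβ : 0 < β) (hκ : κ = β * r) (hs : t + κ = s * h) (hT : T = r * h ^ 2 / (1 + κ ^ 2)) (hh0 : 0 < h)
    (hh2 : h ^ 2 ≤ H2) (hH2 : 0 ≤ H2)
    (hk1 : k1 ≤ κ) (hk2 : κ ≤ k2) (hψ : κ / (1 + κ ^ 2) ≤ ψ) (hψ1 : ψ1 ≤ κ / (1 + κ ^ 2))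
    (htp : (s + k - 1) * h - κ ≤ Real.pi / 2)
    (ht1 : τ1 ≤ (s + k - 1) * h) (htm : (s + k - 1) * h ≤ τm)
    (hR0' : R0 ≤ r) (hβ0 : β ≤ β0) (hT0 : T0 ≤ T)
    (hY : eN r κ * (ℓ * Real.exp (-(T * g))) ≤ Y) (hg0 : 0 ≤ g) (hg2 : g ≤ g2)
    (hq : q ≤ c * (s + k - 1) ^ 2 - g)
    (hψ0 : 0 ≤ ψ1) (hk0 : 0 < k1) (hτ0 : 0 < τ1) (hl : 0 < l)
    (hP : P = l * τm / (1 + k1 ^ 2)) (hw : w = ψ * (l * τm)) (hw1 : w ≤ 1)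
    (hz : z = ψ1 * (l * τ1)) (hφ : φ = 1 / 2 - z / 6 + z ^ 2 / 24)
    (hE' : E = 1 + w + w ^ 2 * (1 / 2 + w / 6 + w ^ 2 / 19))
    (hn1 : k1 ^ 2 * φ + (E / 2 + P ^ 2 * E ^ 3 / 24 + P ^ 4 * E ^ 5 / 24) ≤ (1 + k1 ^ 2) * (1 / l - c / l ^ 2))
    (hn2 : k2 ^ 2 * φ + (E / 2 + P ^ 2 * E ^ 3 / 24 + P ^ 4 * E ^ 5 / 24) ≤ (1 + k2 ^ 2) * (1 / l - c / l ^ 2))
    (hqq : P * E ≤ 99 / 100) (hk22 : k2 ≤ 3 / 2)
    (hm0 : (m0 + w ^ 2) * E ^ 2 ≤ k1 ^ 2) (hm00 : 0 < m0) (hU0 : 0 ≤ U)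
    (hU : 9 * (1 + k2 ^ 2) ≤ 4 * U ^ 4 * m0)
    (hR0 : 0 < R0) (hβ01 : β0 ≤ 11 / 100)
    (hc0 : 1 ≤ c0 ^ 2 * (6.2831 * k1)) (hc00 : 0 ≤ c0)
    (hE0 : P * (1.5708 - τ1 + k2) ≤ E2) (hE20 : 0 ≤ E2)
    (hx : 5 * β0 ≤ 5.712 - τm - 1.7183 * k2) (hx' : 5 * β0 ≤ 4.712 - τm + k1)
    (hGc : c0 * (β0 / 3 + 3.1416 / R0 + 1 + 2 * w + β0 + 0.011) ≤ Gc)
    (hT00 : 0 ≤ T0) (hq0 : 0 ≤ q) (hEa : Real.exp (-(T0 * q)) ≤ Ea) (hl0 : 0 < ℓ) (hea : U * Ea ≤ ea * ℓ)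
    (hL0 : 0 < L) (hL : L ^ 4 * (1 + k2 ^ 2) ≤ ℓ ^ 4) (hω : ω + H2 * g2 / (1 + k1 ^ 2) ≤ 1)
    (hδ3 : 3 ≤ 2 * R0 * (ω - E2)) (hq1 : 1 ≤ T0 * q) (hRf : 1 + k2 ^ 2 ≤ Rf * H1) (hH1 : 0 < H1) (hh1 : H1 ≤ h ^ 2)
    (hρ : R0 ≤ ρ0 ^ 2) (hρ0 : 0 ≤ ρ0)
    (hEb : Real.exp (-(R0 * (ω - E2))) ≤ Eb) (hGc0 : 0 ≤ Gc) (heb : Gc * (ρ0 * Eb) ≤ eb * L) :
    ‖Xf β r h t k‖ ≤ (ea + eb) * Y ∧ r * ‖Xf β r h t k‖ ≤ (Rf * T0 * ea + R0 * eb) * Y := by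
  have hδ : 1 ≤ 2 * R0 * (ω - E2) := by linarith
  have hR : 0 < r := hR0.trans_le hR0'
  have hκp : 0 < κ := hk0.trans_le hk1
  obtain ⟨t', ht'⟩ : ∃ t', t' = t + (k - 1) * h := ⟨_, rfl⟩
  have hσ : t' + κ = (s + k - 1) * h := by rw [ht']; linear_combination hs
  have htp' : t' ≤ Real.pi / 2 := by linarith
  have hF := HUr l c k1 k2 ψ ψ1 τ1 τm P w z φ E m0 U R0 β0 c0 E2 Gc hβ hR hκ
    (τ := t' + κ) rfl htp' hσ hT (by rw [hσ]; exact ht1) (by rw [hσ]; exact htm) hk1 hk2 hψ hψ1 hψ0 hk0 hτ0 hl hP hw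
    hw1 hz hφ hE' hn1 hn2 hqq hk22 hm0 hm00 hU0 hU hR0 hR0' hβ0 hβ01 hc0 hc00 hE0 hE20 hx hx' hGc
  have hN := eN_pos r κ
  have hX : ‖Xf β r h t k‖ ≤ eN r κ * (U * Real.exp (-(T * (c * (s + k - 1) ^ 2)))) +
      Real.sqrt r * (Gc * Real.exp (r * E2)) := by
    unfold Xf
    rw [← ht']
    exact hF
  have h1 := cmpT hN (le_refl (eN r κ * (U * Real.exp (-(T * (c * (s + k - 1) ^ 2)))))) hY hT0 hT00 hq hq0 hEa hU0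
    hl0 hea
  have hkk : κ ^ 2 ≤ k2 ^ 2 := pow_le_pow_left₀ hκp.le hk2 2
  have h2 : L * Real.exp (r * ω) ≤ Y := by
    refine Y_exp hT hR.le hk0.le hk1 hY hl0.le hL0.le (le_trans ?_ hL) (le_trans ?_ hω) hg0
    · exact mul_le_mul_of_nonneg_left (by linarith) (by positivity)
    · have hA1 : 0 < 1 + k1 ^ 2 := by positivity
      have : h ^ 2 * g / (1 + k1 ^ 2) ≤ H2 * g2 / (1 + k1 ^ 2) := by
        apply div_le_div_of_nonneg_right _ hA1.le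
        exact mul_le_mul hh2 hg2 hg0 hH2
      linarith
  have h3 := cmpR hR0' hR0 hGc0 h2 hL0 hδ hρ hρ0 hEb heb
  have hT0p : 0 < T0 := by
    rcases hT00.lt_or_eq with h5 | h5
    · exact h5
    · rw [← h5] at hq1; linarith
  have hrT : r ≤ Rf * T := r_le_T hT hR hκp hk2 hRf hH1 hh1
  have h1w := cmpTW hN hY hT0 hT0p hq hq1 hEa hU0 hl0 hR.le hrT (Rf_nonneg hRf hH1) hea
  have h3w := cmpRW hR0' hR0 hGc0 h2 hL0 hδ3 hρ hρ0 hEb heb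
  refine ⟨?_, ?_⟩
  · rw [add_mul]
    exact hX.trans (add_le_add h1 h3)
  · have h4 := mul_le_mul_of_nonneg_left hX hR.le
    rw [mul_add] at h4
    rw [add_mul]
    exact h4.trans (add_le_add h1w h3w)


/-- cell U -/
theorem cellUW {β r t κ s h T Y g : ℝ} {k : ℤ} (n : ℤ)
    (k1 k2 τ1 τm δ R0 β0 c0 E Gc ℓ H2 g2 L ω ρ0 Eb eb : ℝ)
    (hβ : 0 < β) (hκ : κ = β * r) (hs : t + κ = s * h) (hT : T = r * h ^ 2 / (1 + κ ^ 2)) (hh0 : 0 < h)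
    (hh2 : h ^ 2 ≤ H2) (hH2 : 0 ≤ H2)
    (hk1 : k1 ≤ κ) (hk2 : κ ≤ k2)
    (ht1 : τ1 ≤ (s + k - 1) * h + 2 * Real.pi * n - κ) (htm : (s + k - 1) * h + 2 * Real.pi * n ≤ τm)
    (hR0' : R0 ≤ r) (hβ0 : β ≤ β0)
    (hY : eN r κ * (ℓ * Real.exp (-(T * g))) ≤ Y) (hg0 : 0 ≤ g) (hg2 : g ≤ g2)
    (hk0 : 0 < k1) (hR0 : 0 < R0)
    (hδ : 0 < δ) (hδ1 : δ ≤ 1.57) (hδt : 1.5708 - δ < τ1) (htm' : τm ≤ 4.712 + k1)
    (hc0 : 1 ≤ c0 ^ 2 * (6.2831 * k1)) (hc00 : 0 ≤ c0)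
    (hE : δ ≤ E) (hE1 : τm - 5.712 + 1.7183 * k2 ≤ E * k2) (hE2 : E ≤ 1.7183)
    (hGc : c0 * (β0 / (τ1 - 1.5708 + δ) + δ + 3.1416 / R0 + 2 + 2 * β0) ≤ Gc)
    (hl0 : 0 < ℓ)
    (hL0 : 0 < L) (hL : L ^ 4 * (1 + k2 ^ 2) ≤ ℓ ^ 4) (hω : ω + H2 * g2 / (1 + k1 ^ 2) ≤ 1)
    (hδ3 : 3 ≤ 2 * R0 * (ω - E)) (hρ : R0 ≤ ρ0 ^ 2) (hρ0 : 0 ≤ ρ0)
    (hEb : Real.exp (-(R0 * (ω - E))) ≤ Eb) (hGc0 : 0 ≤ Gc) (heb : Gc * (ρ0 * Eb) ≤ eb * L) :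
    ‖Xf β r h t k‖ ≤ eb * Y ∧ r * ‖Xf β r h t k‖ ≤ (R0 * eb) * Y := by
  have hδ' : 1 ≤ 2 * R0 * (ω - E) := by linarith
  have hR : 0 < r := hR0.trans_le hR0'
  have hκp : 0 < κ := hk0.trans_le hk1
  obtain ⟨t', ht'⟩ : ∃ t', t' = t + (k - 1) * h + 2 * Real.pi * n := ⟨_, rfl⟩
  have hσ : t' + κ = (s + k - 1) * h + 2 * Real.pi * n := by rw [ht']; linear_combination hs
  have hF := UDb k1 k2 τ1 τm δ R0 β0 c0 E Gc hβ hR hκ (t := t') (τ := t' + κ) rfl (by linarith)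
    (by rw [hσ]; exact htm) hk1 hk2 hk0 hR0 hR0' hβ0 hδ hδ1 hδt htm' hc0 hc00 hE hE1 hE2 hGc
  have hX : ‖Xf β r h t k‖ ≤ Real.sqrt r * (Gc * Real.exp (r * E)) := by
    rw [Xf_period n, ← ht']
    exact hF
  have hkk : κ ^ 2 ≤ k2 ^ 2 := pow_le_pow_left₀ hκp.le hk2 2
  have h2 : L * Real.exp (r * ω) ≤ Y := by
    refine Y_exp hT hR.le hk0.le hk1 hY hl0.le hL0.le (le_trans ?_ hL) (le_trans ?_ hω) hg0
    · exact mul_le_mul_of_nonneg_left (by linarith) (by positivity)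
    · have hA1 : 0 < 1 + k1 ^ 2 := by positivity
      have : h ^ 2 * g / (1 + k1 ^ 2) ≤ H2 * g2 / (1 + k1 ^ 2) := by
        apply div_le_div_of_nonneg_right _ hA1.le
        exact mul_le_mul hh2 hg2 hg0 hH2
      linarith
  exact ⟨hX.trans (cmpR hR0' hR0 hGc0 h2 hL0 hδ' hρ hρ0 hEb heb),
    (mul_le_mul_of_nonneg_left hX hR.le).trans (cmpRW hR0' hR0 hGc0 h2 hL0 hδ3 hρ hρ0 hEb heb)⟩


end Sok
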