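import Pool.Agent.Lib.MP_816dec_an.R1Y
import Pool.Agent.Lib.MP_816dec_an.R1BigDefs

/-!
MP_816dec_an (A3, row R1), SINGLE CASES, no discs: composite cells.
-/

set_option autoImplicit false

open Complex Set Filter Topology Metric

namespace Sok

/-- `exp (-y) ≤ E` for numerals -/
theorem expn {y E : ℝ} (n : ℕ) (z : ℝ) (hx : n + z ≤ y) (hz : 0 ≤ z) (hE : 0 < E)
    (h : 1 ≤ E * (2.7182818 ^ n * (1 + z + z ^ 2 / 2 + z ^ 3 / 6))) : Real.exp (-y) ≤ E :=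
  exp_neg_le_num n (by linarith) hz hE h

/-- LEFT cell -/
theorem cellL {β r t κ s h T Y g : ℝ} {k : ℤ}
    (l c k1 k2 ψ ψ1 b1 b2 P2 w1 w2 Φ G m0 U R0 β0 c0 E Gc ℓ q T0 Ea ea H2 g2 L ω ρ0 Eb eb : ℝ)
    (hβ : 0 < β) (hκ : κ = β * r) (hs : t + κ = s * h) (hT : T = r * h ^ 2 / (1 + κ ^ 2)) (hh0 : 0 < h)
    (hh2 : h ^ 2 ≤ H2) (hH2 : 0 ≤ H2)
    (hk1 : k1 ≤ κ) (hk2 : κ ≤ k2) (hψ : κ / (1 + κ ^ 2) ≤ ψ) (hψ1 : ψ1 ≤ κ / (1 + κ ^ 2))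
    (hb1 : b1 ≤ -((s + k - 1) * h)) (hb2 : -((s + k - 1) * h) ≤ b2)
    (hR0' : R0 ≤ r) (hβ0 : β ≤ β0) (hT0 : T0 ≤ T)
    (hY : eN r κ * (ℓ * Real.exp (-(T * g))) ≤ Y) (hg0 : 0 ≤ g) (hg2 : g ≤ g2)
    (hq : q ≤ c * (s + k - 1) ^ 2 - g)
    (hψ0 : 0 ≤ ψ1) (hk0 : 0 < k1) (hb0 : 0 < b1) (hl : 0 < l)
    (hP : P2 = l * b2 / (1 + k1 ^ 2)) (hw2 : w2 = ψ * (l * b2)) (hw21 : w2 ≤ 1) (hw1 : w1 = ψ1 * (l * b1))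
    (hΦ : Φ = 1 / 2 + w2 / 6 + w2 ^ 2 / 19) (hG : G = 1 - w1 + w1 ^ 2 / 2 - w1 ^ 3 / 6 + w1 ^ 4 / 24)
    (hn1 : k1 ^ 2 * Φ + (G / 2 + P2 ^ 2 * G ^ 3 / 24 + P2 ^ 4 * G ^ 5 / 24) ≤ (1 + k1 ^ 2) * (1 / l - c / l ^ 2))
    (hn2 : k2 ^ 2 * Φ + (G / 2 + P2 ^ 2 * G ^ 3 / 24 + P2 ^ 4 * G ^ 5 / 24) ≤ (1 + k2 ^ 2) * (1 / l - c / l ^ 2))
    (hqq : P2 * G ≤ 99 / 100)
    (hm0 : m0 ≤ k1 ^ 2 * (1 + 2 * w1 + 2 * w1 ^ 2) - w2 ^ 2) (hm00 : 0 < m0) (hU0 : 0 ≤ U)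
    (hU : 9 * (1 + k2 ^ 2) ≤ 4 * U ^ 4 * m0)
    (hR0 : 0 < R0) (hβ01 : β0 ≤ 11 / 100) (hbk : b2 + k2 ≤ 4.7)
    (hc0 : 1 ≤ c0 ^ 2 * (6.2831 * k1)) (hc00 : 0 ≤ c0) (hE0 : 0 ≤ E) (hE : P2 * (1.5708 - b1 - k1) ≤ E)
    (hx : 5 * β0 ≤ 5.712 + b1 - 1.7183 * k2)
    (hGc : c0 * (β0 / (4.712 - b2 - k2) + 3.1416 / R0 + 1 + β0 + 0.011 + w2) ≤ Gc)
    (hT00 : 0 ≤ T0) (hq0 : 0 ≤ q) (hEa : Real.exp (-(T0 * q)) ≤ Ea) (hl0 : 0 < ℓ) (hea : U * Ea ≤ ea * ℓ)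
    (hL0 : 0 < L) (hL : L ^ 4 * (1 + k2 ^ 2) ≤ ℓ ^ 4) (hω : ω + H2 * g2 / (1 + k1 ^ 2) ≤ 1)
    (hδ : 1 ≤ 2 * R0 * (ω - E)) (hρ : R0 ≤ ρ0 ^ 2) (hρ0 : 0 ≤ ρ0)
    (hEb : Real.exp (-(R0 * (ω - E))) ≤ Eb) (hGc0 : 0 ≤ Gc) (heb : Gc * (ρ0 * Eb) ≤ eb * L) :
    ‖Xf β r h t k‖ ≤ (ea + eb) * Y := by
  have hR : 0 < r := hR0.trans_le hR0'
  have hκp : 0 < κ := hk0.trans_le hk1
  obtain ⟨t', ht'⟩ : ∃ t', t' = t + (k - 1) * h := ⟨_, rfl⟩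
  have hσ : t' + κ = (s + k - 1) * h := by rw [ht']; linear_combination hs
  have hF := HUl l c k1 k2 ψ ψ1 b1 b2 P2 w1 w2 Φ G m0 U R0 β0 c0 E Gc hβ hR hκ
    (b := -(t' + κ)) rfl hσ hT (by rw [hσ]; exact hb1) (by rw [hσ]; exact hb2) hk1 hk2 hψ hψ1 hψ0 hk0 hb0 hl hP hw2
    hw21 hw1 hΦ hG hn1 hn2 hqq hm0 hm00 hU0 hU hR0 hR0' hβ0 hβ01 hbk hc0 hc00 hE0 hE hx hGc
  have hN := eN_pos r κ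
  have hX : ‖Xf β r h t k‖ ≤ eN r κ * (U * Real.exp (-(T * (c * (s + k - 1) ^ 2)))) +
      Real.sqrt r * (Gc * Real.exp (r * E)) := by
    unfold Xf
    rw [← ht']
    exact hF
  have h1 := cmpT hN (le_refl (eN r κ * (U * Real.exp (-(T * (c * (s + k - 1) ^ 2)))))) hY hT0 hT00 hq hq0 hEa hU0
    hl0 hea
  have hkk : κ ^ 2 ≤ k2 ^ 2 := pow_le_pow_left₀ hκp.le hk2 2
  have h2 : L * Real.exp (r * ω) ≤ Y := by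
    refine Y_exp hT hR.le hk0.le hk1 hY hl0.le hL0.le (le_trans ?_ hL) (le_trans ?_ hω) hg0
    · exact mul_le_mul_of_nonneg_left (by linarith) (by positivity)
    · have hA1 : 0 < 1 + k1 ^ 2 := by positivity
      have : h ^ 2 * g / (1 + k1 ^ 2) ≤ H2 * g2 / (1 + k1 ^ 2) := by
        apply div_le_div_of_nonneg_right _ hA1.le
        exact mul_le_mul hh2 hg2 hg0 hH2
      linarith
  have h3 := cmpR hR0' hR0 hGc0 h2 hL0 hδ hρ hρ0 hEb heb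
  rw [add_mul]
  exact hX.trans (add_le_add h1 h3)

/-- RIGHT cell, `t + (k-1) h ≤ π/2` -/
theorem cellR {β r t κ s h T Y g : ℝ} {k : ℤ}
    (l c k1 k2 ψ ψ1 τ1 τm P w z φ E m0 U R0 β0 c0 E2 Gc ℓ q T0 Ea ea H2 g2 L ω ρ0 Eb eb : ℝ)
    (hβ : 0 < β) (hκ : κ = β * r) (hs : t + κ = s * h) (hT : T = r * h ^ 2 / (1 + κ ^ 2)) (hh0 : 0 < h)
    (hh2 : h ^ 2 ≤ H2) (hH2 : 0 ≤ H2)
    (hk1 : k1 ≤ κ) (hk2 : κ ≤ k2) (hψ : κ / (1 + κ ^ 2) ≤ ψ) (hψ1 : ψ1 ≤ κ / (1 + κ ^ 2))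
    (htp : (s + k - 1) * h - κ ≤ Real.pi / 2)
    (ht1 : τ1 ≤ (s + k - 1) * h) (htm : (s + k - 1) * h ≤ τm)
    (hR0' : R0 ≤ r) (hβ0 : β ≤ β0) (hT0 : T0 ≤ T)
    (hY : eN r κ * (ℓ * Real.exp (-(T * g))) ≤ Y) (hg0 : 0 ≤ g) (hg2 : g ≤ g2)
    (hq : q ≤ c * (s + k - 1) ^ 2 - g)
    (hψ0 : 0 ≤ ψ1) (hk0 : 0 < k1) (hτ0 : 0 < τ1) (hl : 0 < l)
    (hP : P = l * τm / (1 + k1 ^ 2)) (hw : w = ψ * (l * τm)) (hw1 : w ≤ 1)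
    (hz : z = ψ1 * (l * τ1)) (hφ : φ = 1 / 2 - z / 6 + z ^ 2 / 24)
    (hE' : E = 1 + w + w ^ 2 * (1 / 2 + w / 6 + w ^ 2 / 19))
    (hn1 : k1 ^ 2 * φ + (E / 2 + P ^ 2 * E ^ 3 / 24 + P ^ 4 * E ^ 5 / 24) ≤ (1 + k1 ^ 2) * (1 / l - c / l ^ 2))
    (hn2 : k2 ^ 2 * φ + (E / 2 + P ^ 2 * E ^ 3 / 24 + P ^ 4 * E ^ 5 / 24) ≤ (1 + k2 ^ 2) * (1 / l - c / l ^ 2))
    (hqq : P * E ≤ 99 / 100) (hk22 : k2 ≤ 3 / 2)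
    (hm0 : (m0 + w ^ 2) * E ^ 2 ≤ k1 ^ 2) (hm00 : 0 < m0) (hU0 : 0 ≤ U)
    (hU : 9 * (1 + k2 ^ 2) ≤ 4 * U ^ 4 * m0)
    (hR0 : 0 < R0) (hβ01 : β0 ≤ 11 / 100)
    (hc0 : 1 ≤ c0 ^ 2 * (6.2831 * k1)) (hc00 : 0 ≤ c0)
    (hE0 : P * (1.5708 - τ1 + k2) ≤ E2) (hE20 : 0 ≤ E2)
    (hx : 5 * β0 ≤ 5.712 - τm - 1.7183 * k2) (hx' : 5 * β0 ≤ 4.712 - τm + k1)
    (hGc : c0 * (β0 / 3 + 3.1416 / R0 + 1 + 2 * w + β0 + 0.011) ≤ Gc)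
    (hT00 : 0 ≤ T0) (hq0 : 0 ≤ q) (hEa : Real.exp (-(T0 * q)) ≤ Ea) (hl0 : 0 < ℓ) (hea : U * Ea ≤ ea * ℓ)
    (hL0 : 0 < L) (hL : L ^ 4 * (1 + k2 ^ 2) ≤ ℓ ^ 4) (hω : ω + H2 * g2 / (1 + k1 ^ 2) ≤ 1)
    (hδ : 1 ≤ 2 * R0 * (ω - E2)) (hρ : R0 ≤ ρ0 ^ 2) (hρ0 : 0 ≤ ρ0)
    (hEb : Real.exp (-(R0 * (ω - E2))) ≤ Eb) (hGc0 : 0 ≤ Gc) (heb : Gc * (ρ0 * Eb) ≤ eb * L) :
    ‖Xf β r h t k‖ ≤ (ea + eb) * Y := by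
  have hR : 0 < r := hR0.trans_le hR0'
  have hκp : 0 < κ := hk0.trans_le hk1
  obtain ⟨t', ht'⟩ : ∃ t', t' = t + (k - 1) * h := ⟨_, rfl⟩
  have hσ : t' + κ = (s + k - 1) * h := by rw [ht']; linear_combination hs
  have htp' : t' ≤ Real.pi / 2 := by linarith
  have hF := HUr l c k1 k2 ψ ψ1 τ1 τm P w z φ E m0 U R0 β0 c0 E2 Gc hβ hR hκ
    (τ := t' + κ) rfl htp' hσ hT (by rw [hσ]; exact ht1) (by rw [hσ]; exact htm) hk1 hk2 hψ hψ1 hψ0 hk0 hτ0 hl hP hw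
    hw1 hz hφ hE' hn1 hn2 hqq hk22 hm0 hm00 hU0 hU hR0 hR0' hβ0 hβ01 hc0 hc00 hE0 hE20 hx hx' hGc
  have hN := eN_pos r κ
  have hX : ‖Xf β r h t k‖ ≤ eN r κ * (U * Real.exp (-(T * (c * (s + k - 1) ^ 2)))) +
      Real.sqrt r * (Gc * Real.exp (r * E2)) := by
    unfold Xf
    rw [← ht']
    exact hF
  have h1 := cmpT hN (le_refl (eN r κ * (U * Real.exp (-(T * (c * (s + k - 1) ^ 2)))))) hY hT0 hT00 hq hq0 hEa hU0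
    hl0 hea
  have hkk : κ ^ 2 ≤ k2 ^ 2 := pow_le_pow_left₀ hκp.le hk2 2
  have h2 : L * Real.exp (r * ω) ≤ Y := by
    refine Y_exp hT hR.le hk0.le hk1 hY hl0.le hL0.le (le_trans ?_ hL) (le_trans ?_ hω) hg0
    · exact mul_le_mul_of_nonneg_left (by linarith) (by positivity)
    · have hA1 : 0 < 1 + k1 ^ 2 := by positivity
      have : h ^ 2 * g / (1 + k1 ^ 2) ≤ H2 * g2 / (1 + k1 ^ 2) := by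
        apply div_le_div_of_nonneg_right _ hA1.le
        exact mul_le_mul hh2 hg2 hg0 hH2
      linarith
  have h3 := cmpR hR0' hR0 hGc0 h2 hL0 hδ hρ hρ0 hEb heb
  rw [add_mul]
  exact hX.trans (add_le_add h1 h3)

/-- `F` is invariant under rotation of the angle by `2π` -/
theorem Xf_period {β R h t : ℝ} {k : ℤ} (n : ℤ) :
    ‖Xf β R h t k‖ = ‖F (cexp (I * β)) (R * cexp (I * ((t + (k - 1) * h + 2 * Real.pi * n + β / 2 : ℝ) : ℂ)))‖ := by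
  unfold Xf
  congr 3
  have e : I * ((t + (k - 1) * h + 2 * Real.pi * n + β / 2 : ℝ) : ℂ) =
      I * ((t + (k - 1) * h + β / 2 : ℝ) : ℂ) + n * (2 * Real.pi * I) := by
    push_cast
    ring
  rw [e, Complex.exp_add, Complex.exp_int_mul_two_pi_mul_I, mul_one]

/-- cell for an angle in `(π/2 - δ, 3π/2)`; `τ'' = (s + k - 1) h + 2π n` -/
theorem cellU {β r t κ s h T Y g : ℝ} {k : ℤ} (n : ℤ)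
    (k1 k2 τ1 τm δ R0 β0 c0 E Gc ℓ H2 g2 L ω ρ0 Eb eb : ℝ)
    (hβ : 0 < β) (hκ : κ = β * r) (hs : t + κ = s * h) (hT : T = r * h ^ 2 / (1 + κ ^ 2)) (hh0 : 0 < h)
    (hh2 : h ^ 2 ≤ H2) (hH2 : 0 ≤ H2)
    (hk1 : k1 ≤ κ) (hk2 : κ ≤ k2)
    (ht1 : τ1 ≤ (s + k - 1) * h + 2 * Real.pi * n - κ) (htm : (s + k - 1) * h + 2 * Real.pi * n ≤ τm)
    (hR0' : R0 ≤ r) (hβ0 : β ≤ β0)
    (hY : eN r κ * (ℓ * Real.exp (-(T * g))) ≤ Y) (hg0 : 0 ≤ g) (hg2 : g ≤ g2)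
    (hk0 : 0 < k1) (hR0 : 0 < R0)
    (hδ : 0 < δ) (hδ1 : δ ≤ 1.57) (hδt : 1.5708 - δ < τ1) (htm' : τm ≤ 4.712 + k1)
    (hc0 : 1 ≤ c0 ^ 2 * (6.2831 * k1)) (hc00 : 0 ≤ c0)
    (hE : δ ≤ E) (hE1 : τm - 5.712 + 1.7183 * k2 ≤ E * k2) (hE2 : E ≤ 1.7183)
    (hGc : c0 * (β0 / (τ1 - 1.5708 + δ) + δ + 3.1416 / R0 + 2 + 2 * β0) ≤ Gc)
    (hl0 : 0 < ℓ)
    (hL0 : 0 < L) (hL : L ^ 4 * (1 + k2 ^ 2) ≤ ℓ ^ 4) (hω : ω + H2 * g2 / (1 + k1 ^ 2) ≤ 1)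
    (hδ' : 1 ≤ 2 * R0 * (ω - E)) (hρ : R0 ≤ ρ0 ^ 2) (hρ0 : 0 ≤ ρ0)
    (hEb : Real.exp (-(R0 * (ω - E))) ≤ Eb) (hGc0 : 0 ≤ Gc) (heb : Gc * (ρ0 * Eb) ≤ eb * L) :
    ‖Xf β r h t k‖ ≤ eb * Y := by
  have hR : 0 < r := hR0.trans_le hR0'
  have hκp : 0 < κ := hk0.trans_le hk1
  obtain ⟨t', ht'⟩ : ∃ t', t' = t + (k - 1) * h + 2 * Real.pi * n := ⟨_, rfl⟩
  have hσ : t' + κ = (s + k - 1) * h + 2 * Real.pi * n := by rw [ht']; linear_combination hs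
  have hF := UDb k1 k2 τ1 τm δ R0 β0 c0 E Gc hβ hR hκ (t := t') (τ := t' + κ) rfl (by linarith)
    (by rw [hσ]; exact htm) hk1 hk2 hk0 hR0 hR0' hβ0 hδ hδ1 hδt htm' hc0 hc00 hE hE1 hE2 hGc
  have hX : ‖Xf β r h t k‖ ≤ Real.sqrt r * (Gc * Real.exp (r * E)) := by
    rw [Xf_period n, ← ht']
    exact hF
  have hkk : κ ^ 2 ≤ k2 ^ 2 := pow_le_pow_left₀ hκp.le hk2 2
  have h2 : L * Real.exp (r * ω) ≤ Y := by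
    refine Y_exp hT hR.le hk0.le hk1 hY hl0.le hL0.le (le_trans ?_ hL) (le_trans ?_ hω) hg0
    · exact mul_le_mul_of_nonneg_left (by linarith) (by positivity)
    · have hA1 : 0 < 1 + k1 ^ 2 := by positivity
      have : h ^ 2 * g / (1 + k1 ^ 2) ≤ H2 * g2 / (1 + k1 ^ 2) := by
        apply div_le_div_of_nonneg_right _ hA1.le
        exact mul_le_mul hh2 hg2 hg0 hH2
      linarith
  exact hX.trans (cmpR hR0' hR0 hGc0 h2 hL0 hδ' hρ hρ0 hEb heb)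

end Sok
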