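import Pool.Agent.Lib.MP_816dec_an.R1BigDefs
import Pool.Agent.Lib.MP_816dec_an.Far3
import Pool.Agent.Lib.MP_816dec_an.R1Ineq5

/-!
MP_816dec_an (A3, row R1, `b ≥ 9`): far copies, closed bounds with `v = κ p`, `p = h / (1 + κ²)`.
-/

set_option autoImplicit false

open Complex Set Filter Topology Metric

namespace Sok

theorem exp_neg_le4 {f : ℝ} (h0 : 0 ≤ f) :
    Real.exp (-f) ≤ 1 - f + f ^ 2 / 2 - f ^ 3 / 6 + f ^ 4 / 24 := by
  have h : MonotoneOn (fun f : ℝ => 1 - f + f ^ 2 / 2 - f ^ 3 / 6 + f ^ 4 / 24 - Real.exp (-f)) (Ici 0) := by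
    apply monotoneOn_of_deriv_nonneg (convex_Ici 0)
    · fun_prop
    · fun_prop
    · intro y _
      have h1 : HasDerivAt (fun f : ℝ => 1 - f + f ^ 2 / 2 - f ^ 3 / 6 + f ^ 4 / 24 - Real.exp (-f))
          (-1 + y - y ^ 2 / 2 + y ^ 3 / 6 + Real.exp (-y)) y := by
        have := ((((((hasDerivAt_const y (1 : ℝ)).fun_sub (hasDerivAt_id' y)).fun_add
          ((hasDerivAt_pow 2 y).div_const 2)).fun_sub ((hasDerivAt_pow 3 y).div_const 6)).fun_add
          ((hasDerivAt_pow 4 y).div_const 24)).fun_sub ((hasDerivAt_id' y).fun_neg.exp))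
        refine this.congr_deriv ?_
        norm_num
        ring
      rw [h1.deriv]
      have h2 := r1_exp_ge3 (-y)
      have e : (-y) ^ 3 = -y ^ 3 := by ring
      have e2 : (-y) ^ 2 = y ^ 2 := by ring
      rw [e, e2] at h2
      linarith
  have := h (self_mem_Ici) (mem_Ici.2 h0) h0
  simp at this
  linarith

theorem exp_num (n : ℕ) {f : ℝ} (h0 : 0 ≤ f) :
    Real.exp (-(n + f)) ≤ 0.36788 ^ n * (1 - f + f ^ 2 / 2 - f ^ 3 / 6 + f ^ 4 / 24) := by
  have e : -((n : ℝ) + f) = (n : ℝ) * (-1) + -f := by ring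
  rw [e, Real.exp_add, Real.exp_nat_mul]
  have h1 : Real.exp (-1) ≤ 0.36788 := by
    have := Real.exp_neg_one_lt_d9
    linarith
  have h2 := exp_neg_le4 h0
  have h3 : Real.exp (-1) ^ n ≤ 0.36788 ^ n := pow_le_pow_left₀ (Real.exp_pos _).le h1 n
  exact mul_le_mul h3 h2 (Real.exp_pos _).le (by positivity)

/-- `exp(-x) ≤ y` from a lower bound `n + f ≤ x` -/
theorem exp_num' (n : ℕ) {f x y : ℝ} (h0 : 0 ≤ f) (hx : n + f ≤ x)
    (hy : 0.36788 ^ n * (1 - f + f ^ 2 / 2 - f ^ 3 / 6 + f ^ 4 / 24) ≤ y) : Real.exp (-x) ≤ y :=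
  (Real.exp_le_exp.2 (neg_le_neg hx)).trans ((exp_num n h0).trans hy)

theorem C0_leF {β κ R k1 α : ℝ} (hR : 0 < R) (hβ : β = κ / R) (hk1 : 0 < k1) (hk : k1 ≤ κ) (hα : 0 ≤ α)
    (h : 0.976 ≤ α ^ 2 * k1) : C0 β ≤ α * Real.exp (0.03 * R) := by
  have hκ : 0 < κ := lt_of_lt_of_le hk1 hk
  have hβ0 : 0 < β := by rw [hβ]; positivity
  have hpi := Real.pi_pos
  have hpi2 := Real.pi_gt_d6
  have h1 := Real.add_one_le_exp (0.06 * R - 1)
  have h2 : Real.exp (0.06 * R - 1) * Real.exp 1 = Real.exp (0.06 * R) := by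
    rw [← Real.exp_add]; congr 1; ring
  have h3 := Real.exp_one_gt_d9
  have he := Real.exp_pos (0.06 * R - 1)
  have h4 : 0.06 * R * 2.718281828 ≤ Real.exp (0.06 * R) := by
    rw [← h2]
    have : 0.06 * R ≤ Real.exp (0.06 * R - 1) := by linarith
    nlinarith
  have h5 : Real.exp (0.06 * R) = Real.exp (0.03 * R) ^ 2 := by
    rw [← Real.exp_nat_mul]; congr 1; push_cast; ring
  obtain ⟨e3, he3⟩ : ∃ e3, e3 = Real.exp (0.03 * R) := ⟨_, rfl⟩
  have he30 : 0 < e3 := by rw [he3]; exact Real.exp_pos _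
  rw [h5, ← he3] at h4
  rw [← he3]
  have h6 : 1 ≤ (α * e3) ^ 2 * (2 * Real.pi * β) := by
    have e : (α * e3) ^ 2 * (2 * Real.pi * β) = (α ^ 2 * κ) * (2 * Real.pi) * e3 ^ 2 / R := by
      rw [hβ]; field_simp
    rw [e, le_div_iff₀ hR, one_mul]
    have h7 : 0.976 ≤ α ^ 2 * κ := h.trans (mul_le_mul_of_nonneg_left hk (sq_nonneg α))
    have h8 : 6.132 ≤ (α ^ 2 * κ) * (2 * Real.pi) := by nlinarith
    have h9 : 0 < e3 ^ 2 := by positivity
    nlinarith
  have hs : 0 < Real.sqrt (2 * Real.pi * β) := Real.sqrt_pos.2 (by positivity)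
  rw [C0, div_le_iff₀ hs]
  have h10 : 0 ≤ α * e3 * Real.sqrt (2 * Real.pi * β) := by positivity
  by_contra hcon
  push Not at hcon
  have h11 : (α * e3 * Real.sqrt (2 * Real.pi * β)) ^ 2 < 1 ^ 2 := pow_lt_pow_left₀ hcon h10 (by norm_num)
  rw [mul_pow, Real.sq_sqrt (by positivity)] at h11
  linarith

/-- the exponent of the right hand line -/
theorem U_le {κ p w tt E : ℝ} (hw : |w| ≤ Real.pi / 2) (hκp : 0 ≤ κ * p) (hE : Real.exp (κ * p) ≤ E) :
    Real.exp (-(κ * p)) * Real.cos w + p * (w - tt) ≤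
      1 - p * (tt + κ) + p ^ 2 / 2 * (κ ^ 2 + E + p ^ 2 * E ^ 3 / 5) := by
  have h1 := r1_cosq10 hw (p * Real.exp (κ * p))
  have he := Real.exp_pos (κ * p)
  have hen := Real.exp_pos (-(κ * p))
  have h2 := mul_le_mul_of_nonneg_left h1 hen.le
  have h3 : Real.exp (-(κ * p)) * Real.exp (κ * p) = 1 := by
    rw [← Real.exp_add, neg_add_cancel, Real.exp_zero]
  have h4 : Real.exp (-(κ * p)) ≤ 1 + -(κ * p) + (-(κ * p)) ^ 2 / 2 := r1_exp_le2 (by linarith)
  generalize Real.exp (κ * p) = e at *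
  generalize Real.exp (-(κ * p)) = f at *
  have e1 : f * (Real.cos w + p * e * w) = f * Real.cos w + p * w := by
    linear_combination (p * w) * h3
  have e2 : f * (1 + (p * e) ^ 2 / 2 + (p * e) ^ 4 / 10) = f + p ^ 2 * e / 2 + p ^ 4 * e ^ 3 / 10 := by
    linear_combination (p ^ 2 * e / 2 + p ^ 4 * e ^ 3 / 10) * h3
  rw [e1, e2] at h2
  have h5 : p ^ 2 * e ≤ p ^ 2 * E := mul_le_mul_of_nonneg_left hE (sq_nonneg p)
  have h6 : p ^ 4 * e ^ 3 ≤ p ^ 4 * E ^ 3 :=
    mul_le_mul_of_nonneg_left (pow_le_pow_left₀ he.le hE 3) (by positivity)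
  nlinarith

/-- the exponent of the left hand line -/
theorem UL_le {κ p w tt e1 : ℝ} (hw : |w| ≤ Real.pi / 2) (hκp : 0 ≤ κ * p) (hz : κ * p ≤ 13 / 20)
    (he1 : Real.exp (-(κ * p)) ≤ e1) :
    Real.exp (κ * p) * Real.cos w + (-p) * (w - tt) ≤
      1 + p * (tt + κ) + p ^ 2 / 2 * (κ ^ 2 + 2 / 5 * κ ^ 3 * p + e1 + p ^ 2 * e1 ^ 3 / 5) := by
  have h1 := r1_cosq10 hw (-(p * Real.exp (-(κ * p))))
  have he := Real.exp_pos (κ * p)
  have hen := Real.exp_pos (-(κ * p))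
  have h2 := mul_le_mul_of_nonneg_left h1 he.le
  have h3 : Real.exp (-(κ * p)) * Real.exp (κ * p) = 1 := by
    rw [← Real.exp_add, neg_add_cancel, Real.exp_zero]
  have h4 : Real.exp (κ * p) ≤ 1 + κ * p + (κ * p) ^ 2 / 2 + (κ * p) ^ 3 / 5 := r1_exp_le3 hκp hz
  generalize Real.exp (κ * p) = e at *
  generalize Real.exp (-(κ * p)) = f at *
  have e1' : e * (Real.cos w + -(p * f) * w) = e * Real.cos w - p * w := by
    linear_combination (-(p * w)) * h3
  have e2 : e * (1 + (-(p * f)) ^ 2 / 2 + (-(p * f)) ^ 4 / 10) = e + p ^ 2 * f / 2 + p ^ 4 * f ^ 3 / 10 := by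
    linear_combination (p ^ 2 * f / 2 + p ^ 4 * f ^ 3 / 10) * h3
  rw [e1', e2] at h2
  have h5 : p ^ 2 * f ≤ p ^ 2 * e1 := mul_le_mul_of_nonneg_left he1 (sq_nonneg p)
  have h6 : p ^ 4 * f ^ 3 ≤ p ^ 4 * e1 ^ 3 :=
    mul_le_mul_of_nonneg_left (pow_le_pow_left₀ hen.le he1 3) (by positivity)
  nlinarith

/-- right hand copies, `t_k = m h - κ ≤ π/2` -/
theorem HUR {β κ R h m tk E q cm T A pf w2 G : ℝ} (hR : 0 < R) (hκ : 0 < κ) (hβ : β = κ / R)
    (hA : A = 1 + κ ^ 2) (hh : 0 < h) (hT : R * h ^ 2 = T * A) (htk : tk = m * h - κ)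
    (h1 : -(Real.pi / 2) ≤ tk) (h2 : tk ≤ Real.pi / 2)
    (hE : Real.exp (κ * (h / A)) ≤ E) (hq : h / A * E ≤ q) (hcm : 0 < cm) (hcq : cm ^ 2 ≤ 1 - q ^ 2)
    (hG : E - 1 + (h / A) ^ 2 * E ^ 3 / 5 ≤ G * A) (hpf : 3 * E ≤ 2 * κ * cm * pf ^ 2) (hpf0 : 0 ≤ pf)
    (hw2 : κ * (h / A) ≤ w2) :
    ‖F (cexp (I * β)) (R * cexp (I * ((tk + β / 2 : ℝ) : ℂ)))‖ ≤
      pf * Real.exp (R + T * (-m + (1 + G) / 2)) +
      C0 β * (κ / R / (3 * Real.pi / 2 + tk) + Real.pi / R + w2 +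
        (1 + w2) * Real.exp (T / h * (Real.pi / 2 + κ) - T * m) + κ / R + HUMP β R tk) := by
  have hpi := Real.pi_pos
  have hA0 : 0 < A := by rw [hA]; positivity
  have hβ0 : 0 < β := by rw [hβ]; positivity
  have hβR : β * R = κ := by rw [hβ]; field_simp
  obtain ⟨p, hp⟩ : ∃ p, p = h / A := ⟨_, rfl⟩
  rw [← hp] at hE hq hG hw2
  have hp0 : 0 < p := by rw [hp]; positivity
  have hκp : 0 < κ * p := mul_pos hκ hp0
  have hE0 : 0 < E := lt_of_lt_of_le (Real.exp_pos _) hE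
  have hq0 : 0 ≤ q := le_trans (by positivity) hq
  have hq1 : q < 1 := by nlinarith
  obtain ⟨w, hw⟩ : ∃ w, w = Real.arcsin (p * Real.exp (κ * p)) := ⟨_, rfl⟩
  have hsq : p * Real.exp (κ * p) ≤ q := le_trans (mul_le_mul_of_nonneg_left hE hp0.le) hq
  have hsq0 : 0 ≤ p * Real.exp (κ * p) := by positivity
  have hsin : Real.sin w = p * Real.exp (κ * p) := by
    rw [hw, Real.sin_arcsin (by linarith) (by linarith)]
  have hw1 : -(Real.pi / 2) < w := by rw [hw, Real.neg_pi_div_two_lt_arcsin]; linarith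
  have hw2' : w < Real.pi / 2 := by rw [hw, Real.arcsin_lt_pi_div_two]; linarith
  have hcos0 : 0 < Real.cos w := Real.cos_pos_of_mem_Ioo ⟨hw1, hw2'⟩
  have hcos : cm ≤ Real.cos w := by
    have h3 := Real.sin_sq_add_cos_sq w
    have h4 : Real.sin w ^ 2 ≤ q ^ 2 := by rw [hsin]; exact pow_le_pow_left₀ hsq0 hsq 2
    nlinarith
  have key := far_HU hβ0 hR (t := tk) (by linarith) h2 (v := κ * p) (w := w) (by linarith) hw1 hw2'
    (by rw [hβR, hsin]; ring)
  rw [hβR] at key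
  refine key.trans (add_le_add ?_ ?_)
  · apply mul_le_mul _ _ (Real.exp_pos _).le hpf0
    · apply Real.sqrt_le_iff.2
      refine ⟨hpf0, ?_⟩
      have he := Real.exp_pos (-(κ * p))
      rw [div_le_iff₀ (by positivity)]
      have h5 : 1 ≤ Real.exp (-(κ * p)) * E := by
        have h6 : Real.exp (-(κ * p)) * Real.exp (κ * p) = 1 := by
          rw [← Real.exp_add, neg_add_cancel, Real.exp_zero]
        rw [← h6]
        exact mul_le_mul_of_nonneg_left hE he.le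
      -- 3 ≤ pf² (2 κ e cos)
      have h7 : 3 * E * Real.exp (-(κ * p)) ≤ 2 * κ * Real.cos w * pf ^ 2 * Real.exp (-(κ * p)) := by
        apply mul_le_mul_of_nonneg_right _ he.le
        refine hpf.trans ?_
        apply mul_le_mul_of_nonneg_right _ (sq_nonneg pf)
        exact mul_le_mul_of_nonneg_left hcos (by positivity)
      nlinarith
    · apply Real.exp_le_exp.2
      have h8 := U_le (tt := tk) (abs_le.2 ⟨hw1.le, hw2'.le⟩) hκp.le hE
      have h9 : κ * p * (w - tk) / κ = p * (w - tk) := by field_simp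
      rw [h9]
      have h10 : κ ^ 2 + E + p ^ 2 * E ^ 3 / 5 ≤ A * (1 + G) := by rw [hA] at hG ⊢; linarith
      have h11 : p ^ 2 / 2 * (κ ^ 2 + E + p ^ 2 * E ^ 3 / 5) ≤ p ^ 2 / 2 * (A * (1 + G)) :=
        mul_le_mul_of_nonneg_left h10 (by positivity)
      have h12 := mul_le_mul_of_nonneg_left (h8.trans (add_le_add_right h11 _)) hR.le
      refine h12.trans (le_of_eq ?_)
      have e1 : R * p ^ 2 * A = T := by
        rw [hp]; field_simp
        linarith
      have e2 : R * p * h = T := by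
        rw [hp]; field_simp
        linarith
      rw [htk]
      linear_combination ((1 + G) / 2) * e1 - m * e2
  · apply mul_le_mul_of_nonneg_left _ (C0_pos hβ0).le
    have h13 : |κ * p| * max 1 (Real.exp (-(κ * p * (Real.pi / 2 + tk) / β))) ≤ w2 := by
      rw [abs_of_pos hκp, max_eq_left, mul_one]
      · exact hw2
      · apply Real.exp_le_one_iff.2
        have : 0 ≤ κ * p * (Real.pi / 2 + tk) / β := by
          apply div_nonneg _ hβ0.le
          exact mul_nonneg hκp.le (by linarith)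
        linarith
    have h14 : (1 + κ * p) * Real.exp (κ * p * (Real.pi / 2 - tk) / β) ≤
        (1 + w2) * Real.exp (T / h * (Real.pi / 2 + κ) - T * m) := by
      have e3 : κ * p * (Real.pi / 2 - tk) / β = T / h * (Real.pi / 2 + κ) - T * m := by
        have e4 : R * p = T / h := by
          rw [hp]; field_simp
          linarith
        have e5 : κ * p * (Real.pi / 2 - tk) / β = R * p * (Real.pi / 2 - tk) := by
          rw [hβ]; field_simp
        rw [e5, e4, htk]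
        field_simp
        ring
      rw [e3]
      apply mul_le_mul_of_nonneg_right _ (Real.exp_pos _).le
      linarith
    have h15 : β * Real.exp (-((Real.pi / 2 - tk) / β)) ≤ κ / R := by
      rw [← hβ]
      have : Real.exp (-((Real.pi / 2 - tk) / β)) ≤ 1 := by
        apply Real.exp_le_one_iff.2
        have := div_nonneg (by linarith : 0 ≤ Real.pi / 2 - tk) hβ0.le
        linarith
      nlinarith
    rw [← hβ] at h15 ⊢
    linarith

end Sok
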