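import Pool.Agent.Lib.MP_816dec_an.R1FarA

/-!
MP_816dec_an (A3, row R1, `b ≥ 9`): far copies, closed bounds (left half plane and left hand line).
-/

set_option autoImplicit false

open Complex Set Filter Topology Metric

namespace Sok

theorem UDR {β κ R tk δ d0 L P : ℝ} (hR : 0 < R) (hκ : 0 < κ) (hβ : β = κ / R) (hδ : 0 < δ)
    (hδ' : δ ≤ Real.pi / 2) (hd0 : 0 ≤ d0) (ht : Real.pi / 2 + d0 ≤ tk) (ht' : tk < 3 * Real.pi / 2)
    (hL : 1 ≤ L ∨ Real.pi / 2 < tk ∧ Real.exp (-(R * |Real.cos tk|)) / (R * |Real.cos tk|) ≤ L)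
    (hP : (if tk ≤ Real.pi then Real.pi / (2 * R) else Real.pi / R) ≤ P) :
    ‖F (cexp (I * β)) (R * cexp (I * ((tk + β / 2 : ℝ) : ℂ)))‖ ≤
      C0 β * ((κ / R / (d0 + δ) + δ) * Real.exp (R * δ) + P + L + κ / R + HUMP β R tk) := by
  have hβ0 : 0 < β := by rw [hβ]; positivity
  have key := far_UD hβ0 hR (t := tk) hδ hδ' (by linarith) ht' hL
  refine key.trans (mul_le_mul_of_nonneg_left ?_ (C0_pos hβ0).le)
  have h1 : β / (tk - Real.pi / 2 + δ) ≤ κ / R / (d0 + δ) := by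
    rw [← hβ]
    exact div_le_div_of_nonneg_left hβ0.le (by linarith) (by linarith)
  have h2 : Real.exp (R * Real.sin δ) ≤ Real.exp (R * δ) :=
    Real.exp_le_exp.2 (mul_le_mul_of_nonneg_left (Real.sin_le hδ.le) hR.le)
  have h3 : (β / (tk - Real.pi / 2 + δ) + δ) * Real.exp (R * Real.sin δ) ≤
      (κ / R / (d0 + δ) + δ) * Real.exp (R * δ) := by
    apply mul_le_mul (by linarith) h2 (Real.exp_pos _).le
    have := div_nonneg (by positivity : (0:ℝ) ≤ κ / R) (by linarith : 0 ≤ d0 + δ)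
    linarith
  rw [← hβ] at h3 ⊢
  linarith

/-- left hand copies, `t_k = -(m h) - κ` -/
theorem HUL {β κ R h m tk q cm T A pf G μ e1 : ℝ} (hR : 0 < R) (hκ : 0 < κ) (hβ : β = κ / R)
    (hA : A = 1 + κ ^ 2) (hh : 0 < h) (hT : R * h ^ 2 = T * A) (hμ : 0 < μ) (htk : tk = -(m * h) - κ)
    (h1 : -(3 * Real.pi / 2) < tk) (h2 : tk ≤ Real.pi / 2) (hz : κ * (μ * h / A) ≤ 13 / 20)
    (he1 : Real.exp (-(κ * (μ * h / A))) ≤ e1) (hq : μ * h / A * e1 ≤ q) (hcm : 0 < cm)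
    (hcq : cm ^ 2 ≤ 1 - q ^ 2)
    (hG : 2 / 5 * κ ^ 3 * (μ * h / A) + e1 - 1 + (μ * h / A) ^ 2 * e1 ^ 3 / 5 ≤ G * A)
    (hpf : 3 ≤ 2 * κ * (1 + κ * (μ * h / A)) * cm * pf ^ 2) (hpf0 : 0 ≤ pf) :
    ‖F (cexp (I * β)) (R * cexp (I * ((tk + β / 2 : ℝ) : ℂ)))‖ ≤
      pf * Real.exp (R + T * (-(μ * m) + μ ^ 2 * (1 + G) / 2)) +
      C0 β * (κ / R / (3 * Real.pi / 2 + tk) + Real.pi / R +
        κ * (μ * h / A) * max 1 (Real.exp (μ * (T / h) * (Real.pi / 2 - κ) - μ * T * m)) +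
        Real.exp (-(μ * (T / h) * (Real.pi / 2 + κ) + μ * T * m)) + κ / R + HUMP β R tk) := by
  have hpi := Real.pi_pos
  have hA0 : 0 < A := by rw [hA]; positivity
  have hβ0 : 0 < β := by rw [hβ]; positivity
  have hβR : β * R = κ := by rw [hβ]; field_simp
  obtain ⟨p, hp⟩ : ∃ p, p = μ * h / A := ⟨_, rfl⟩
  rw [← hp] at hz he1 hq hG hpf ⊢
  have hp0 : 0 < p := by rw [hp]; positivity
  have hκp : 0 < κ * p := mul_pos hκ hp0
  have he10 : 0 < e1 := lt_of_lt_of_le (Real.exp_pos _) he1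
  have hq0 : 0 ≤ q := le_trans (by positivity) hq
  have hq1 : q < 1 := by nlinarith
  obtain ⟨w, hw⟩ : ∃ w, w = Real.arcsin (-(p * Real.exp (-(κ * p)))) := ⟨_, rfl⟩
  have hsq : p * Real.exp (-(κ * p)) ≤ q := le_trans (mul_le_mul_of_nonneg_left he1 hp0.le) hq
  have hsq0 : 0 ≤ p * Real.exp (-(κ * p)) := by positivity
  have hsin : Real.sin w = -(p * Real.exp (-(κ * p))) := by
    rw [hw, Real.sin_arcsin (by linarith) (by linarith)]
  have hw1 : -(Real.pi / 2) < w := by rw [hw, Real.neg_pi_div_two_lt_arcsin]; linarith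
  have hw2' : w < Real.pi / 2 := by rw [hw, Real.arcsin_lt_pi_div_two]; linarith
  have hcos0 : 0 < Real.cos w := Real.cos_pos_of_mem_Ioo ⟨hw1, hw2'⟩
  have hcos : cm ≤ Real.cos w := by
    have h3 := Real.sin_sq_add_cos_sq w
    have h4 : Real.sin w ^ 2 ≤ q ^ 2 := by
      rw [hsin, neg_sq]; exact pow_le_pow_left₀ hsq0 hsq 2
    nlinarith
  have key := far_HU hβ0 hR (t := tk) h1 h2 (v := -(κ * p)) (w := w) (by linarith) hw1 hw2'
    (by rw [hβR, hsin]; ring)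
  rw [hβR, neg_neg] at key
  refine key.trans (add_le_add ?_ ?_)
  · apply mul_le_mul _ _ (Real.exp_pos _).le hpf0
    · apply Real.sqrt_le_iff.2
      refine ⟨hpf0, ?_⟩
      have he := Real.exp_pos (κ * p)
      rw [div_le_iff₀ (by positivity)]
      have h5 := Real.add_one_le_exp (κ * p)
      have h6 : κ * (1 + κ * p) * cm ≤ κ * Real.exp (κ * p) * Real.cos w := by
        apply mul_le_mul _ hcos hcm.le (by positivity)
        apply mul_le_mul_of_nonneg_left (by linarith) hκ.le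
      have h7 := mul_le_mul_of_nonneg_right h6 (sq_nonneg pf)
      nlinarith
    · apply Real.exp_le_exp.2
      have h8 := UL_le (tt := tk) (abs_le.2 ⟨hw1.le, hw2'.le⟩) hκp.le hz he1
      have h9 : -(κ * p) * (w - tk) / κ = -p * (w - tk) := by field_simp
      rw [h9]
      have h10 : κ ^ 2 + 2 / 5 * κ ^ 3 * p + e1 + p ^ 2 * e1 ^ 3 / 5 ≤ A * (1 + G) := by
        rw [hA] at hG ⊢; linarith
      have h11 : p ^ 2 / 2 * (κ ^ 2 + 2 / 5 * κ ^ 3 * p + e1 + p ^ 2 * e1 ^ 3 / 5) ≤ p ^ 2 / 2 * (A * (1 + G)) :=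
        mul_le_mul_of_nonneg_left h10 (by positivity)
      have h12 := mul_le_mul_of_nonneg_left (h8.trans (add_le_add_right h11 _)) hR.le
      refine h12.trans (le_of_eq ?_)
      have e1' : R * p ^ 2 * A = μ ^ 2 * T := by
        rw [hp]; field_simp
        linarith
      have e2 : R * p * h = μ * T := by
        rw [hp]; field_simp
        linarith
      rw [htk]
      linear_combination ((1 + G) / 2) * e1' - m * e2
  · apply mul_le_mul_of_nonneg_left _ (C0_pos hβ0).le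
    have e4 : R * p = μ * (T / h) := by
      rw [hp]; field_simp
      linarith
    have h13 : |(-(κ * p))| * max 1 (Real.exp (-(-(κ * p) * (Real.pi / 2 + tk) / β))) =
        κ * p * max 1 (Real.exp (μ * (T / h) * (Real.pi / 2 - κ) - μ * T * m)) := by
      rw [abs_neg, abs_of_pos hκp]
      congr 3
      have e5 : -(-(κ * p) * (Real.pi / 2 + tk) / β) = R * p * (Real.pi / 2 + tk) := by
        rw [hβ]; field_simp
      rw [e5, e4, htk]
      field_simp
      ring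
    have h14 : (1 + -(κ * p)) * Real.exp (-(κ * p) * (Real.pi / 2 - tk) / β) ≤
        Real.exp (-(μ * (T / h) * (Real.pi / 2 + κ) + μ * T * m)) := by
      have e5 : -(κ * p) * (Real.pi / 2 - tk) / β = -(R * p * (Real.pi / 2 - tk)) := by
        rw [hβ]; field_simp
      have e6 : -(R * p * (Real.pi / 2 - tk)) = -(μ * (T / h) * (Real.pi / 2 + κ) + μ * T * m) := by
        rw [e4, htk]
        field_simp
        ring
      rw [e5, e6]
      have := Real.exp_pos (-(μ * (T / h) * (Real.pi / 2 + κ) + μ * T * m))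
      nlinarith
    have h15 : β * Real.exp (-((Real.pi / 2 - tk) / β)) ≤ κ / R := by
      rw [← hβ]
      have : Real.exp (-((Real.pi / 2 - tk) / β)) ≤ 1 := by
        apply Real.exp_le_one_iff.2
        have := div_nonneg (by linarith : 0 ≤ Real.pi / 2 - tk) hβ0.le
        linarith
      nlinarith
    rw [h13]
    rw [← hβ] at h15 ⊢
    linarith

/-- bound of `1 / G` -/
theorem inv_G_le {G V D R g d X : ℝ} (hg : 0 < g) (hD : 0 < D)
    (hG : g * (Real.exp (R * V) / Real.sqrt (Real.sqrt D)) ≤ G) (hd : D ≤ d ^ 4) (hd0 : 0 ≤ d)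
    (hV : R - X ≤ R * V) : G⁻¹ ≤ d / g * Real.exp (-R + X) := by
  have hs : 0 < Real.sqrt (Real.sqrt D) := Real.sqrt_pos.2 (Real.sqrt_pos.2 hD)
  have hsd : Real.sqrt (Real.sqrt D) ≤ d := by
    apply Real.sqrt_le_iff.2
    refine ⟨hd0, Real.sqrt_le_iff.2 ⟨by positivity, ?_⟩⟩
    calc D ≤ d ^ 4 := hd
      _ = (d ^ 2) ^ 2 := by ring
  have hd1 : 0 < d := lt_of_lt_of_le hs hsd
  have h1 : g / d * Real.exp (R - X) ≤ G := by
    refine le_trans ?_ hG
    rw [div_mul_eq_mul_div, mul_div_assoc]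
    apply mul_le_mul_of_nonneg_left _ hg.le
    exact div_le_div₀ (Real.exp_pos _).le (Real.exp_le_exp.2 hV) hs hsd
  have h2 : 0 < g / d * Real.exp (R - X) := by positivity
  have h3 := inv_anti₀ h2 h1
  refine h3.trans (le_of_eq ?_)
  have e : -R + X = -(R - X) := by ring
  rw [mul_inv, inv_div, e, Real.exp_neg]

/-- bound of `G₀ / G₁` -/
theorem ratio_G_le {G0 G1 V0 V1 D0 D1 R g0 g1 ρ X : ℝ} (hg1 : 0 < g1) (hg0 : 0 < g0) (hD0 : 0 < D0) (hD1 : 0 < D1)
    (h0 : G0 ≤ g0 * (Real.exp (R * V0) / Real.sqrt (Real.sqrt D0)))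
    (h1 : g1 * (Real.exp (R * V1) / Real.sqrt (Real.sqrt D1)) ≤ G1)
    (hρ : (g0 / g1) ^ 4 * D1 ≤ ρ ^ 4 * D0) (hρ0 : 0 ≤ ρ) (hV : R * V0 - R * V1 ≤ X) :
    G0 / G1 ≤ ρ * Real.exp X := by
  have hs0 : 0 < Real.sqrt (Real.sqrt D0) := Real.sqrt_pos.2 (Real.sqrt_pos.2 hD0)
  have hs1 : 0 < Real.sqrt (Real.sqrt D1) := Real.sqrt_pos.2 (Real.sqrt_pos.2 hD1)
  have q0 : Real.sqrt (Real.sqrt D0) ^ 4 = D0 := by
    have : Real.sqrt (Real.sqrt D0) ^ 4 = (Real.sqrt (Real.sqrt D0) ^ 2) ^ 2 := by ring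
    rw [this, Real.sq_sqrt (Real.sqrt_nonneg _), Real.sq_sqrt hD0.le]
  have q1 : Real.sqrt (Real.sqrt D1) ^ 4 = D1 := by
    have : Real.sqrt (Real.sqrt D1) ^ 4 = (Real.sqrt (Real.sqrt D1) ^ 2) ^ 2 := by ring
    rw [this, Real.sq_sqrt (Real.sqrt_nonneg _), Real.sq_sqrt hD1.le]
  generalize Real.sqrt (Real.sqrt D0) = s0 at *
  generalize Real.sqrt (Real.sqrt D1) = s1 at *
  have hG1 : 0 < G1 := lt_of_lt_of_le (by positivity) h1
  have h2 : g0 / g1 * s1 ≤ ρ * s0 := by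
    apply le_of_pow_le_pow_left₀ (n := 4) (by norm_num) (by positivity)
    rw [mul_pow, mul_pow, q0, q1]
    exact hρ
  rw [div_le_iff₀ hG1]
  have h3 : Real.exp (R * V0) ≤ Real.exp X * Real.exp (R * V1) := by
    rw [← Real.exp_add]
    apply Real.exp_le_exp.2
    linarith
  have h4 := Real.exp_pos (R * V1)
  have h40 := Real.exp_pos (R * V0)
  have h5 := Real.exp_pos X
  generalize Real.exp (R * V0) = a0 at *
  generalize Real.exp (R * V1) = a1 at *
  generalize Real.exp X = x at *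
  -- G0 ≤ g0 a0 / s0 ≤ g0 x a1 / s0 ; ρ x G1 ≥ ρ x g1 a1 / s1
  have h6 : g0 * (a0 / s0) ≤ ρ * x * (g1 * (a1 / s1)) := by
    have h7 : g0 * s1 ≤ ρ * s0 * g1 := by
      have := mul_le_mul_of_nonneg_right h2 hg1.le
      calc g0 * s1 = g0 / g1 * s1 * g1 := by field_simp
        _ ≤ ρ * s0 * g1 := this
    have e1 : g0 * (a0 / s0) = (g0 * s1) * a0 / (s0 * s1) := by field_simp
    have e2 : ρ * x * (g1 * (a1 / s1)) = (ρ * s0 * g1) * (x * a1) / (s0 * s1) := by field_simp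
    rw [e1, e2]
    apply div_le_div_of_nonneg_right _ (by positivity)
    exact mul_le_mul h7 h3 h40.le (by positivity)
  calc G0 ≤ g0 * (a0 / s0) := h0
    _ ≤ ρ * x * (g1 * (a1 / s1)) := h6
    _ ≤ ρ * x * G1 := mul_le_mul_of_nonneg_left h1 (by positivity)

end Sok
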