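import Pool.Agent.Lib.MP_816dec_an.R1FarB

/-!
MP_816dec_an (A3, row R1, `b ≥ 9`): far copies, the common data in the scaled variables.
-/

set_option autoImplicit false

open Complex Set Filter Topology Metric

namespace Sok

/-- the data in scaled variables: `s = τ₁ / h`, `z = 1 / h`, `T = R h² / (1 + κ²)` -/
structure QD (T0 : ℝ) (b : ℕ) (h κ R t T s z : ℝ) : Prop where
  hb : 9 ≤ b
  h0 : 0 < h
  hz : z * h = 1
  hbz : 2 * Real.pi * z = b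
  k0 : 0.29 ≤ κ
  k1 : κ ≤ 1.5
  T5 : 5.07 ≤ T0
  hT : T0 ≤ T
  hR : R = T * (1 + κ ^ 2) * z ^ 2
  ht : t = s * h - κ

theorem DP.qd {b : ℕ} {h κ R t : ℝ} (H : DP b h κ R t) (hκ : 0.29 ≤ κ) :
    ∃ T s z, QD 5.07 b h κ R t T s z ∧ 0.42 - sgm κ ≤ s ∧ s ≤ 0.6 + sgm κ := by
  have hb := H.hb
  have hb0 : (0 : ℝ) < b := by
    have : 0 < b := by omega
    exact_mod_cast this
  have hpi := Real.pi_pos
  have h0 : 0 < h := by rw [H.hh]; positivity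
  have hA : 0 < 1 + κ ^ 2 := by positivity
  refine ⟨R * h ^ 2 / (1 + κ ^ 2), (t + κ) / h, 1 / h, ⟨hb, h0, by field_simp, ?_, hκ, H.k1, le_rfl, ?_, ?_, ?_⟩, ?_, ?_⟩
  · rw [H.hh]; field_simp
  · rw [le_div_iff₀ hA]; exact H.T1
  · field_simp
  · field_simp; ring
  · rw [le_div_iff₀ h0]; exact H.lo
  · rw [div_le_iff₀ h0]; exact H.hi

theorem OP.qd {b : ℕ} {h κ R t : ℝ} (H : OP b h κ R t) (hκ : 0.29 ≤ κ) :
    ∃ T s z, QD 5.44 b h κ R t T s z ∧ κ ≤ 1.39 ∧ 0.03 ≤ s ∧ s ≤ 1.03 ∧ s = (t + κ) / h := by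
  have hb := H.hb
  have hb0 : (0 : ℝ) < b := by
    have : 0 < b := by omega
    exact_mod_cast this
  have hpi := Real.pi_pos
  have h0 : 0 < h := by rw [H.hh]; positivity
  have hA : 0 < 1 + κ ^ 2 := by positivity
  refine ⟨R * h ^ 2 / (1 + κ ^ 2), (t + κ) / h, 1 / h, ⟨hb, h0, by field_simp, ?_, hκ, by linarith [H.k1], by norm_num, ?_, ?_, ?_⟩, H.k1, ?_, ?_, rfl⟩
  · rw [H.hh]; field_simp
  · rw [le_div_iff₀ hA]; exact H.T1
  · field_simp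
  · field_simp; ring
  · rw [le_div_iff₀ h0]; exact H.lo
  · rw [div_le_iff₀ h0]; exact H.hi

section facts

variable {T0 : ℝ} {b : ℕ} {h κ R t T s z : ℝ}

theorem QD.z_ge (Q : QD T0 b h κ R t T s z) {n : ℝ} (hn : n ≤ b) : n ≤ 6.283186 * z := by
  have hpi := Real.pi_lt_d6
  have h1 := Q.hbz
  have hz0 : 0 < z := by
    have h2 := Q.hz
    by_contra hcon
    push Not at hcon
    have := mul_nonpos_of_nonpos_of_nonneg hcon Q.h0.le
    linarith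
  nlinarith

theorem QD.z0 (Q : QD T0 b h κ R t T s z) : 1.43239 ≤ z := by
  have h1 := Q.hb
  have h2 : (9 : ℝ) ≤ b := by exact_mod_cast h1
  have := Q.z_ge h2
  linarith

theorem QD.hle (Q : QD T0 b h κ R t T s z) : h ≤ 0.69814 := by
  have h1 := Q.z0
  have h2 := Q.hz
  have h3 := Q.h0
  nlinarith

theorem QD.A1 (_Q : QD T0 b h κ R t T s z) : 0 < 1 + κ ^ 2 := by positivity

theorem QD.kpos (Q : QD T0 b h κ R t T s z) : 0 < κ := by linarith [Q.k0]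

theorem QD.Tpos (Q : QD T0 b h κ R t T s z) : 0 < T := by linarith [Q.T5, Q.hT]

theorem QD.Rh (Q : QD T0 b h κ R t T s z) : R * h ^ 2 = T * (1 + κ ^ 2) := by
  have h1 := Q.hz
  calc R * h ^ 2 = T * (1 + κ ^ 2) * (z * h) ^ 2 := by rw [Q.hR]; ring
    _ = T * (1 + κ ^ 2) := by rw [h1]; ring

theorem QD.zz (Q : QD T0 b h κ R t T s z) : 2.05174 ≤ z ^ 2 := by
  have := Q.z0
  nlinarith

theorem QD.Rge (Q : QD T0 b h κ R t T s z) : 10.402 * (1 + κ ^ 2) ≤ R := by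
  have h1 := Q.zz
  have h2 : 5.07 ≤ T := Q.T5.trans Q.hT
  have h3 : 10.402 ≤ T * z ^ 2 := by nlinarith
  rw [Q.hR]
  have := mul_le_mul_of_nonneg_right h3 Q.A1.le
  linarith

theorem QD.Rpos (Q : QD T0 b h κ R t T s z) : 0 < R := by
  have h1 := Q.Rge
  have h2 := Q.A1
  nlinarith

theorem QD.dom (Q : QD T0 b h κ R t T s z) {y : ℝ} (hy : -0.97 ≤ y) (hy' : y ≤ 1.03) : DomR κ (y * h - κ) := by
  have hpi := Real.pi_gt_d2
  have h1 := Q.hle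
  have h2 := Q.h0
  have h3 := Q.k0
  refine ⟨Q.kpos, by nlinarith, ?_⟩
  rcases lt_or_ge (Real.exp (-1)) κ with h4 | h4
  · exact Or.inl h4
  · right
    have := Real.exp_neg_one_lt_d9
    nlinarith

theorem QD.dom1 (Q : QD T0 b h κ R t T s z) (hs : 0 ≤ s) (hs' : s ≤ 1.03) : DomR κ t := by
  rw [Q.ht]; exact Q.dom (by linarith) hs'

theorem QD.dom0 (Q : QD T0 b h κ R t T s z) (hs : 0.03 ≤ s) (hs' : s ≤ 1.03) : DomR κ (t - h) := by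
  have e : t - h = (s - 1) * h - κ := by rw [Q.ht]; ring
  rw [e]; exact Q.dom (by linarith) (by linarith)

theorem QD.k3 (Q : QD T0 b h κ R t T s z) : κ ^ 2 ≤ 3 := by
  have h1 := Q.k1
  have h2 := Q.kpos
  nlinarith

/-- `R (c (x h)² / A) = c T x²` -/
theorem QD.conv (Q : QD T0 b h κ R t T s z) (c x : ℝ) :
    R * (c * (x * h) ^ 2 / (1 + κ ^ 2)) = c * T * x ^ 2 := by
  have h1 := Q.Rh
  have h2 := Q.A1
  calc R * (c * (x * h) ^ 2 / (1 + κ ^ 2)) = c * x ^ 2 * (R * h ^ 2) / (1 + κ ^ 2) := by ring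
    _ = c * T * x ^ 2 := by rw [h1]; field_simp

theorem QD.V1_ge (Q : QD T0 b h κ R t T s z) (d : DomR κ t) (hs : 0 ≤ s) : R - T * s ^ 2 / 2 ≤ R * sE κ t := by
  have h0 := Q.h0
  have e : t + κ = s * h := by rw [Q.ht]; ring
  have h1 := low_quad d Q.k3 (by rw [e]; positivity) t
  rw [sub_self, mul_zero, add_zero, e] at h1
  have h2 := mul_le_mul_of_nonneg_left h1 Q.Rpos.le
  have h3 := Q.conv (1 / 2) s
  have e2 : R * (1 - (s * h) ^ 2 / (2 * (1 + κ ^ 2))) = R - R * (1 / 2 * (s * h) ^ 2 / (1 + κ ^ 2)) := by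
    have := Q.A1
    field_simp
  rw [e2, h3] at h2
  linarith

theorem QD.V1_le (Q : QD T0 b h κ R t T s z) (d : DomR κ t) (hs : 0 ≤ s) (hs' : s * h ≤ 0.6) :
    R * sE κ t ≤ R - 0.4075 * T * s ^ 2 := by
  have h0 := Q.h0
  have e : t + κ = s * h := by rw [Q.ht]; ring
  have h1 := VR_060 d (by rw [e]; positivity) (by rw [e]; exact hs')
  rw [e] at h1
  have h2 := mul_le_mul_of_nonneg_left h1 Q.Rpos.le
  have h3 := Q.conv 0.4075 s
  rw [mul_sub, h3, mul_one] at h2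
  exact h2

theorem QD.V0_le (Q : QD T0 b h κ R t T s z) (d : DomR κ (t - h)) (hs : s ≤ 1) (hs' : (1 - s) * h ≤ 0.6) :
    R * sE κ (t - h) ≤ R - 0.466 * T * (1 - s) ^ 2 := by
  have h0 := Q.h0
  have hk := Q.k1
  have e : t - h + κ = -((1 - s) * h) := by rw [Q.ht]; ring
  have h1 := VL_00_06 d (by linarith) (by rw [e]; nlinarith) (by rw [e]; linarith)
  rw [e] at h1
  have h2 := mul_le_mul_of_nonneg_left h1 Q.Rpos.le
  have h3 := Q.conv 0.466 (1 - s)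
  rw [neg_sq, mul_sub, h3, mul_one] at h2
  exact h2

/-- lower bound of `V₀`, `r = 1 - s ≥ 0` -/
theorem QD.V0_ge (Q : QD T0 b h κ R t T s z) (d : DomR κ (t - h)) {k1 k2 sm c C : ℝ} (hk1 : k1 ≤ κ) (hk2 : κ ≤ k2)
    (hs : s ≤ 1) (hsm : (1 - s) * h ≤ sm * (1 + k1 ^ 2)) (hk10 : 0 ≤ k1) (hsm1 : sm ≤ 1)
    (hc : κ * (1 / 2 - κ ^ 2 / 6) ≤ c) (hc0 : 0 ≤ c)
    (hC : c * sm + k2 ^ 4 * sm ^ 2 / 12 + (1 + k2 * sm) * (sm ^ 2 / 12 + sm ^ 4 / 24) ≤ (C - 1 / 2) * (1 + k1 ^ 2)) :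
    R - T * C * (1 - s) ^ 2 ≤ R * sE κ (t - h) := by
  have h0 := Q.h0
  have hκ := Q.kpos
  have hA := Q.A1
  obtain ⟨y, hy⟩ : ∃ y, y = (1 - s) * h / (1 + κ ^ 2) := ⟨_, rfl⟩
  have hy0 : 0 ≤ y := by rw [hy]; apply div_nonneg _ hA.le; nlinarith
  have hsm0 : 0 ≤ sm := by
    by_contra hcon
    push Not at hcon
    nlinarith
  have hys : y ≤ sm := by
    rw [hy, div_le_iff₀ hA]
    have : sm * (1 + k1 ^ 2) ≤ sm * (1 + κ ^ 2) := by
      apply mul_le_mul_of_nonneg_left _ hsm0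
      nlinarith
    linarith
  have e : y = -(t - h + κ) / (1 + κ ^ 2) := by rw [hy, Q.ht]; ring
  have h1 := VLlow d e hy0 (by linarith)
  have h2 : κ * (1 / 2 - κ ^ 2 / 6) * y ^ 3 ≤ c * sm * y ^ 2 := by
    have h3 : κ * (1 / 2 - κ ^ 2 / 6) * y ^ 3 ≤ c * y ^ 3 := mul_le_mul_of_nonneg_right hc (by positivity)
    have h4 : c * y ^ 3 ≤ c * sm * y ^ 2 := by
      have := mul_le_mul_of_nonneg_left hys (by positivity : 0 ≤ c * y ^ 2)
      nlinarith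
    linarith
  have h3 : κ ^ 4 * y ^ 4 / 12 ≤ k2 ^ 4 * sm ^ 2 / 12 * y ^ 2 := by
    have h4 : κ ^ 4 ≤ k2 ^ 4 := pow_le_pow_left₀ hκ.le hk2 4
    have h5 : y ^ 2 ≤ sm ^ 2 := pow_le_pow_left₀ hy0 hys 2
    have h6 : κ ^ 4 * y ^ 2 ≤ k2 ^ 4 * sm ^ 2 := mul_le_mul h4 h5 (by positivity) (by positivity)
    have := mul_le_mul_of_nonneg_right h6 (sq_nonneg y)
    nlinarith
  have h4 : (1 + κ * y) * (y ^ 4 / 12 + y ^ 6 / 24) ≤ (1 + k2 * sm) * (sm ^ 2 / 12 + sm ^ 4 / 24) * y ^ 2 := by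
    have h5 : κ * y ≤ k2 * sm := mul_le_mul hk2 hys hy0 (by linarith)
    have h6 : y ^ 2 ≤ sm ^ 2 := pow_le_pow_left₀ hy0 hys 2
    have h7 : y ^ 4 ≤ sm ^ 4 := pow_le_pow_left₀ hy0 hys 4
    have h8 : y ^ 2 / 12 + y ^ 4 / 24 ≤ sm ^ 2 / 12 + sm ^ 4 / 24 := by linarith
    have h9 : (1 + κ * y) * (y ^ 2 / 12 + y ^ 4 / 24) ≤ (1 + k2 * sm) * (sm ^ 2 / 12 + sm ^ 4 / 24) := by
      apply mul_le_mul (by linarith) h8 (by positivity)
      have : 0 ≤ κ * y := by positivity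
      linarith
    have := mul_le_mul_of_nonneg_right h9 (sq_nonneg y)
    nlinarith
  have h5 : (c * sm + k2 ^ 4 * sm ^ 2 / 12 + (1 + k2 * sm) * (sm ^ 2 / 12 + sm ^ 4 / 24)) * y ^ 2 ≤
      (C - 1 / 2) * (1 + κ ^ 2) * y ^ 2 := by
    apply mul_le_mul_of_nonneg_right _ (sq_nonneg y)
    refine hC.trans ?_
    have hC0 : 0 ≤ C - 1 / 2 := by
      have hk2' : 0 ≤ k2 := by linarith
      have : 0 ≤ (C - 1 / 2) * (1 + k1 ^ 2) := le_trans (by positivity) hC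
      by_contra hcon
      push Not at hcon
      nlinarith
    apply mul_le_mul_of_nonneg_left _ hC0
    nlinarith
  have h6 : 1 - C * (1 + κ ^ 2) * y ^ 2 ≤ sE κ (t - h) := by nlinarith
  have h7 := mul_le_mul_of_nonneg_left h6 Q.Rpos.le
  have e2 : R * (1 - C * (1 + κ ^ 2) * y ^ 2) = R - R * (C * ((1 - s) * h) ^ 2 / (1 + κ ^ 2)) := by
    rw [hy]; field_simp
  rw [e2, Q.conv] at h7
  linarith

/-- right, upper bound of the denominator -/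
theorem QD.D1_le (Q : QD T0 b h κ R t T s z) (d : DomR κ t) {k1 k2 w2 s2 : ℝ} (hk10 : 0 ≤ k1) (hk1 : k1 ≤ κ)
    (hk2 : κ ≤ k2) (hk21 : k2 ≤ 1) (hs : 0 ≤ s) (hs2 : s ≤ s2) (hw : κ * (h / (1 + κ ^ 2)) ≤ w2) :
    sD κ t ≤ 1 + k2 ^ 2 + 2 * (w2 * s2) * (1 - k1 ^ 2) + 2 * k2 ^ 2 * (w2 * s2) ^ 2 := by
  have h0 := Q.h0
  have hκ := Q.kpos
  have hA := Q.A1
  have e : t + κ = s * h := by rw [Q.ht]; ring
  have h1 := DR_le d (s := (t + κ) / (1 + κ ^ 2)) rfl (by rw [e]; positivity) (by linarith)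
  rw [e] at h1
  rw [sD]
  refine h1.trans ?_
  have h2 : κ * (s * h / (1 + κ ^ 2)) = κ * (h / (1 + κ ^ 2)) * s := by ring
  rw [h2]
  have hw0 : 0 ≤ κ * (h / (1 + κ ^ 2)) := by positivity
  have h3 : κ * (h / (1 + κ ^ 2)) * s ≤ w2 * s2 := mul_le_mul hw hs2 hs (hw0.trans hw)
  have h4 : 0 ≤ κ * (h / (1 + κ ^ 2)) * s := by positivity
  have h5 : κ ^ 2 ≤ k2 ^ 2 := pow_le_pow_left₀ hκ.le hk2 2
  have h6 : k1 ^ 2 ≤ κ ^ 2 := pow_le_pow_left₀ hk10 hk1 2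
  have h7 : κ ^ 2 ≤ 1 := by nlinarith
  generalize κ * (h / (1 + κ ^ 2)) * s = y at *
  have h8 : 2 * y * (1 - κ ^ 2) ≤ 2 * (w2 * s2) * (1 - k1 ^ 2) :=
    mul_le_mul (by linarith) (by linarith) (by linarith) (by linarith)
  have h9 : 2 * κ ^ 2 * y ^ 2 ≤ 2 * k2 ^ 2 * (w2 * s2) ^ 2 :=
    mul_le_mul (by linarith) (pow_le_pow_left₀ h4 h3 2) (by positivity) (by positivity)
  linarith

/-- right, upper bound of the denominator, `κ ≥ 1` -/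
theorem QD.D1_le' (Q : QD T0 b h κ R t T s z) (d : DomR κ t) {w2 s2 : ℝ} (hk1 : 1 ≤ κ)
    (hs : 0 ≤ s) (hs2 : s ≤ s2) (hw : κ * (h / (1 + κ ^ 2)) ≤ w2) :
    sD κ t ≤ 1 + κ ^ 2 + 2 * κ ^ 2 * (w2 * s2) ^ 2 := by
  have h0 := Q.h0
  have hκ := Q.kpos
  have hA := Q.A1
  have e : t + κ = s * h := by rw [Q.ht]; ring
  have h1 := DR_le' d (s := (t + κ) / (1 + κ ^ 2)) rfl (by rw [e]; positivity) hk1 Q.k3
  rw [e] at h1
  rw [sD]
  refine h1.trans ?_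
  have h2 : κ * (s * h / (1 + κ ^ 2)) = κ * (h / (1 + κ ^ 2)) * s := by ring
  rw [h2]
  have hw0 : 0 ≤ κ * (h / (1 + κ ^ 2)) := by positivity
  have h3 : κ * (h / (1 + κ ^ 2)) * s ≤ w2 * s2 := mul_le_mul hw hs2 hs (hw0.trans hw)
  have h4 : 0 ≤ κ * (h / (1 + κ ^ 2)) * s := by positivity
  generalize κ * (h / (1 + κ ^ 2)) * s = y at *
  have h9 : 2 * κ ^ 2 * y ^ 2 ≤ 2 * κ ^ 2 * (w2 * s2) ^ 2 :=
    mul_le_mul_of_nonneg_left (pow_le_pow_left₀ h4 h3 2) (by positivity)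
  linarith only [h9]

/-- left, lower bound of the denominator, from `sp ≥ 1.373 τ / A` -/
theorem QD.D0_ge (Q : QD T0 b h κ R t T s z) (d : DomR κ (t - h)) {χ B : ℝ} (hk1 : κ ≤ 1) (hs : s ≤ 1)
    (hr : (1 - s) * h ≤ 0.5) (hχ : κ * (1 - κ ^ 2) ≤ χ * (1 + κ ^ 2)) (hB : 2.746 * χ * 0.69814 ≤ B) :
    1 + κ ^ 2 - B * (1 - s) ≤ sD κ (t - h) := by
  have h0 := Q.h0
  have hκ := Q.kpos
  have hA := Q.A1
  have hle := Q.hle
  have e : t - h + κ = -((1 - s) * h) := by rw [Q.ht]; ring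
  have hr0 : 0 ≤ (1 - s) * h := mul_nonneg (by linarith) h0.le
  have hκ2 : κ ^ 2 ≤ 1 := by nlinarith
  have hp : -(1.373 * ((1 - s) * h) / (1 + κ ^ 2)) ≤ sp κ (t - h) := by
    have hk53 : κ ≤ 1.53 := by linarith
    have key : ∀ c : ℝ, c ≤ 1.373 → c * (t - h + κ) / (1 + κ ^ 2) ≤ sp κ (t - h) →
        -(1.373 * ((1 - s) * h) / (1 + κ ^ 2)) ≤ sp κ (t - h) := by
      intro c hc hcs
      refine le_trans ?_ hcs
      rw [e]
      have e2 : c * -((1 - s) * h) / (1 + κ ^ 2) = -(c * ((1 - s) * h) / (1 + κ ^ 2)) := by ring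
      rw [e2]
      apply neg_le_neg
      apply div_le_div_of_nonneg_right _ hA.le
      exact mul_le_mul_of_nonneg_right hc hr0
    rcases le_total ((1 - s) * h) 0.3 with h3 | h3
    · exact key 1.187 (by norm_num) (pLu_00_03 d hk53 (by rw [e]; linarith) (by rw [e]; linarith))
    rcases le_total ((1 - s) * h) 0.4 with h4 | h4
    · exact key 1.257 (by norm_num) (pLu_03_04 d hk53 (by rw [e]; linarith) (by rw [e]; linarith))
    · exact key 1.373 le_rfl (pLu_04_05 d hk53 (by rw [e]; linarith) (by rw [e]; linarith))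
  have h1 := DL_ge d (by rw [e]; linarith) hk1 hp
  rw [sD]
  refine le_trans ?_ h1
  have h2 : 2 * (κ * (1.373 * ((1 - s) * h) / (1 + κ ^ 2))) * (1 - κ ^ 2) =
      2.746 * (κ * (1 - κ ^ 2)) / (1 + κ ^ 2) * h * (1 - s) := by field_simp; ring
  have h3 : 2.746 * (κ * (1 - κ ^ 2)) / (1 + κ ^ 2) ≤ 2.746 * χ := by
    rw [div_le_iff₀ hA]
    linarith
  have h4 : 2.746 * (κ * (1 - κ ^ 2)) / (1 + κ ^ 2) * h ≤ B := by
    refine le_trans ?_ hB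
    apply mul_le_mul h3 hle h0.le
    refine le_trans ?_ h3
    apply div_nonneg _ hA.le
    have : 0 ≤ κ * (1 - κ ^ 2) := mul_nonneg hκ.le (by linarith)
    linarith
  have h5 := mul_le_mul_of_nonneg_right h4 (by linarith : 0 ≤ 1 - s)
  linarith

/-- left, lower bound of the denominator, `κ ≤ 1`, no information on `sp` -/
theorem QD.D0_ge2 (Q : QD T0 b h κ R t T s z) (d : DomR κ (t - h)) (hs : s ≤ 1) :
    1 + κ ^ 2 - (1 - κ ^ 2) ^ 2 / (2 * κ ^ 2) ≤ sD κ (t - h) := by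
  have h0 := Q.h0
  have hκ := Q.kpos
  have e : t - h + κ = -((1 - s) * h) := by rw [Q.ht]; ring
  have hy := sy_nonpos d (by rw [e]; nlinarith)
  rw [sD, sD_eq' d]
  have h1 := Real.quadratic_le_exp_of_nonneg (x := -2 * sy κ (t - h)) (by linarith)
  have h2 := mul_le_mul_of_nonneg_left h1 (sq_nonneg κ)
  generalize sy κ (t - h) = y at *
  have h3 : 1 + κ ^ 2 - (1 - κ ^ 2) ^ 2 / (2 * κ ^ 2) ≤ κ ^ 2 * (1 + -2 * y + (-2 * y) ^ 2 / 2) + 1 + 2 * y := by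
    have h4 : 0 ≤ (2 * κ ^ 2 * y + (1 - κ ^ 2)) ^ 2 / (2 * κ ^ 2) := by positivity
    have h5 : (2 * κ ^ 2 * y + (1 - κ ^ 2)) ^ 2 / (2 * κ ^ 2) =
        2 * κ ^ 2 * y ^ 2 + 2 * y * (1 - κ ^ 2) + (1 - κ ^ 2) ^ 2 / (2 * κ ^ 2) := by field_simp; ring
    rw [h5] at h4
    nlinarith
  linarith

/-- left, lower bound of the denominator, `κ ≥ 1` -/
theorem QD.D0_ge3 (Q : QD T0 b h κ R t T s z) (d : DomR κ (t - h)) (hs : s ≤ 1) (hk1 : 1 ≤ κ) :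
    1 + κ ^ 2 ≤ sD κ (t - h) := by
  have h0 := Q.h0
  have e : t - h + κ = -((1 - s) * h) := by rw [Q.ht]; ring
  rw [sD]
  exact DL_ge' d (by rw [e]; nlinarith) hk1

end facts

end Sok
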