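import Pool.Agent.Lib.MP_816dec_an.R1FarC

/-!
MP_816dec_an (A3, row R1, `b ≥ 9`): far copies on the right, boxes in `κ`.
-/

set_option autoImplicit false

open Complex Set Filter Topology Metric

namespace Sok

section hump

variable {T0 : ℝ} {b : ℕ} {h κ R t T s z : ℝ}

theorem QD.kR (Q : QD T0 b h κ R t T s z) {ψ kR : ℝ} (hψ : κ ≤ ψ * (1 + κ ^ 2)) (h : ψ ≤ 10.402 * kR) : κ / R ≤ kR := by
  have h1 := Q.Rge
  have h2 := Q.A1
  have h3 := Q.kpos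
  rw [div_le_iff₀ Q.Rpos]
  have h5 : ψ * (1 + κ ^ 2) ≤ 10.402 * kR * (1 + κ ^ 2) := mul_le_mul_of_nonneg_right h h2.le
  have hkR0 : 0 ≤ kR := by
    by_contra hcon
    push Not at hcon
    nlinarith
  nlinarith

theorem QD.psi_half (_Q : QD T0 b h κ R t T s z) : κ ≤ 1 / 2 * (1 + κ ^ 2) := by nlinarith [sq_nonneg (κ - 1)]

theorem QD.bR (Q : QD T0 b h κ R t T s z) : κ / R ≤ 0.0481 := Q.kR Q.psi_half (by norm_num)

/-- `HUMP` is tiny for `κ ≤ 1` -/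
theorem QD.hump1 (Q : QD T0 b h κ R t T s z) {β tk : ℝ} (hβ : β = κ / R) (hk : κ ≤ 1) (ht : tk ≤ 2.5) :
    HUMP β R tk ≤ 1 / 1000 := by
  have hpi := Real.pi_gt_d2
  have h1 := Q.bR
  have h0 := Q.Rpos
  have hκ := Q.kpos
  have hβR : β * R = κ := by rw [hβ]; field_simp
  have hβ0 : 0 < β := by rw [hβ]; positivity
  rw [← hβ] at h1
  unfold HUMP
  rw [hβR]
  have he := Real.exp_one_lt_d9
  have hm : max 0 (Real.exp 1 * κ - 1) ≤ 1.7183 := by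
    apply max_le (by norm_num)
    nlinarith [Real.exp_pos 1]
  have h2 : 10 ≤ (3 * Real.pi / 2 - tk - max 0 (Real.exp 1 * κ - 1)) / β := by
    rw [le_div_iff₀ hβ0]
    nlinarith
  have h3 := exp_num' 10 (f := 0) le_rfl (by simpa using h2) (y := 0.36788 ^ 10) (by norm_num)
  have h4 := Real.exp_pos (-((3 * Real.pi / 2 - tk - max 0 (Real.exp 1 * κ - 1)) / β))
  calc _ ≤ 1.0481 * 0.36788 ^ 10 := mul_le_mul (by linarith) h3 h4.le (by norm_num)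
    _ ≤ 1 / 1000 := by norm_num

/-- `HUMP` in general, `t_k ≤ π/2` -/
theorem QD.hump2 (Q : QD T0 b h κ R t T s z) {β tk : ℝ} (hβ : β = κ / R) (ht : tk ≤ Real.pi / 2) :
    HUMP β R tk ≤ 1.05 := by
  have hpi := Real.pi_gt_d2
  have h1 := Q.bR
  have h0 := Q.Rpos
  have hκ := Q.kpos
  have hk1 := Q.k1
  have hβR : β * R = κ := by rw [hβ]; field_simp
  have hβ0 : 0 < β := by rw [hβ]; positivity
  rw [← hβ] at h1
  unfold HUMP
  rw [hβR]
  have he := Real.exp_one_lt_d9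
  have hm : max 0 (Real.exp 1 * κ - 1) ≤ 3.08 := by
    apply max_le (by norm_num)
    nlinarith [Real.exp_pos 1]
  have h2 : 0 ≤ (3 * Real.pi / 2 - tk - max 0 (Real.exp 1 * κ - 1)) / β := by
    apply div_nonneg _ hβ0.le
    linarith
  have h3 : Real.exp (-((3 * Real.pi / 2 - tk - max 0 (Real.exp 1 * κ - 1)) / β)) ≤ 1 :=
    Real.exp_le_one_iff.2 (by linarith)
  have h4 := Real.exp_pos (-((3 * Real.pi / 2 - tk - max 0 (Real.exp 1 * κ - 1)) / β))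
  nlinarith

/-- `HUMP` is tiny for `κ ≤ 1`, `t_k ≤ π + 1/4 - κ` -/
theorem QD.hump1' (Q : QD T0 b h κ R t T s z) {β tk : ℝ} (hβ : β = κ / R) (hk : κ ≤ 1)
    (ht : tk ≤ Real.pi + 1 / 4 - κ) : HUMP β R tk ≤ 1 / 1000 := by
  have hpi := Real.pi_gt_d2
  have h1 := Q.bR
  have h0 := Q.Rpos
  have hκ := Q.kpos
  have hβR : β * R = κ := by rw [hβ]; field_simp
  have hβ0 : 0 < β := by rw [hβ]; positivity
  rw [← hβ] at h1
  unfold HUMP
  rw [hβR]
  have he := Real.exp_one_lt_d9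
  have hm : max 0 (Real.exp 1 * κ - 1) ≤ 0.72 + κ := by
    apply max_le (by linarith)
    nlinarith [Real.exp_pos 1]
  have h2 : 10 ≤ (3 * Real.pi / 2 - tk - max 0 (Real.exp 1 * κ - 1)) / β := by
    rw [le_div_iff₀ hβ0]
    linarith
  have h3 := exp_num' 10 (f := 0) le_rfl (by simpa using h2) (y := 0.36788 ^ 10) (by norm_num)
  have h4 := Real.exp_pos (-((3 * Real.pi / 2 - tk - max 0 (Real.exp 1 * κ - 1)) / β))
  calc _ ≤ 1.0481 * 0.36788 ^ 10 := mul_le_mul (by linarith) h3 h4.le (by norm_num)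
    _ ≤ 1 / 1000 := by norm_num

/-- `HUMP` is tiny for `t_k ≤ -κ` -/
theorem QD.hump4 (Q : QD T0 b h κ R t T s z) {β tk : ℝ} (hβ : β = κ / R) (ht : tk ≤ -κ) :
    HUMP β R tk ≤ 1 / 1000 := by
  have hpi := Real.pi_gt_d2
  have h1 := Q.bR
  have h0 := Q.Rpos
  have hκ := Q.kpos
  have hk := Q.k1
  have hβR : β * R = κ := by rw [hβ]; field_simp
  have hβ0 : 0 < β := by rw [hβ]; positivity
  rw [← hβ] at h1
  unfold HUMP
  rw [hβR]
  have he := Real.exp_one_lt_d9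
  have hm : max 0 (Real.exp 1 * κ - 1) ≤ 2 + κ := by
    apply max_le (by linarith)
    nlinarith [Real.exp_pos 1]
  have h2 : 10 ≤ (3 * Real.pi / 2 - tk - max 0 (Real.exp 1 * κ - 1)) / β := by
    rw [le_div_iff₀ hβ0]
    linarith
  have h3 := exp_num' 10 (f := 0) le_rfl (by simpa using h2) (y := 0.36788 ^ 10) (by norm_num)
  have h4 := Real.exp_pos (-((3 * Real.pi / 2 - tk - max 0 (Real.exp 1 * κ - 1)) / β))
  calc _ ≤ 1.0481 * 0.36788 ^ 10 := mul_le_mul (by linarith) h3 h4.le (by norm_num)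
    _ ≤ 1 / 1000 := by norm_num

/-- `HUMP` in general, `t_k ≤ π + 1/4 - κ` -/
theorem QD.hump3 (Q : QD T0 b h κ R t T s z) {β tk : ℝ} (hβ : β = κ / R) (hk : 1 ≤ κ)
    (ht : tk ≤ Real.pi + 1 / 4 - κ) : HUMP β R tk ≤ 1.05 * Real.exp (0.21 * R) := by
  have hpi := Real.pi_gt_d2
  have h1 := Q.bR
  have h0 := Q.Rpos
  have hκ := Q.kpos
  have hk1 := Q.k1
  have hβR : β * R = κ := by rw [hβ]; field_simp
  have hβ0 : 0 < β := by rw [hβ]; positivity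
  rw [← hβ] at h1
  unfold HUMP
  rw [hβR]
  have he := Real.exp_one_lt_d9
  have hm : max 0 (Real.exp 1 * κ - 1) ≤ 2.7183 * κ - 1 := by
    apply max_le (by linarith)
    nlinarith [Real.exp_pos 1]
  have h2 : -((3 * Real.pi / 2 - tk - max 0 (Real.exp 1 * κ - 1)) / β) ≤ 0.21 * R := by
    have h3 : 3 * Real.pi / 2 - tk - max 0 (Real.exp 1 * κ - 1) ≥ -(0.21 * κ) := by linarith
    have h4 : -(0.21 * κ) / β ≤ (3 * Real.pi / 2 - tk - max 0 (Real.exp 1 * κ - 1)) / β :=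
      div_le_div_of_nonneg_right h3 hβ0.le
    have h5 : -(0.21 * κ) / β = -(0.21 * R) := by
      rw [← hβR]; field_simp
    linarith
  exact mul_le_mul (by linarith) (Real.exp_le_exp.2 h2) (Real.exp_pos _).le (by norm_num)

end hump

/-- numerical data of a box `k1 ≤ κ ≤ k2` on the right -/
structure BoxR (k1 k2 s2 ψ w2 E P1 q cm G pf al X kR iR : ℝ) : Prop where
  k1p : 0.29 ≤ k1
  k12 : k1 ≤ k2
  hs2 : 1 + 1.15 * k2 ^ 2 ≤ (10 * (s2 - 0.6)) ^ 2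
  hs6 : 0.6 ≤ s2
  hs8 : s2 ≤ 0.79
  hψ : k2 ≤ ψ * (1 + k2 ^ 2) ∧ k2 ≤ 1 ∨ 1 / 2 ≤ ψ
  hw : 0.69814 * ψ ≤ w2
  hw13 : w2 ≤ 13 / 20
  hE : 1 + w2 + w2 ^ 2 / 2 + w2 ^ 3 / 5 ≤ E
  hP : 0.69814 ≤ P1 * (1 + k1 ^ 2)
  hq : P1 * E ≤ q
  hcm : 0 < cm
  hcq : cm ^ 2 ≤ 1 - q ^ 2
  hG : E - 1 + P1 ^ 2 * E ^ 3 / 5 ≤ G * (1 + k1 ^ 2)
  hpf : 3 * E ≤ 2 * k1 * cm * pf ^ 2
  hpf0 : 0 ≤ pf
  hal : 0.976 ≤ al ^ 2 * k1
  hal0 : 0 ≤ al
  hX : k1 * 1.43239 - 0.97 * (k1 * 1.43239) ^ 2 ≤ X - 0.26 ∧ 0.5155 ≤ k1 * 1.43239 ∨ 0.51774 ≤ X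
  hkR : ψ ≤ 10.402 * kR
  hiR : 1 ≤ 10.402 * iR * (1 + k1 ^ 2)

section boxr

variable {T0 : ℝ} {b : ℕ} {h κ R t T s z : ℝ} {k1 k2 s2 ψ w2 E P1 q cm G pf al X kR iR : ℝ}

theorem BoxR.sgm_le (B : BoxR k1 k2 s2 ψ w2 E P1 q cm G pf al X kR iR) (h0 : 0 ≤ κ) (h2 : κ ≤ k2) :
    sgm κ ≤ s2 - 0.6 := by
  have h3 := B.hs2
  have h4 := B.hs6
  unfold sgm
  rw [div_le_iff₀ (by norm_num)]
  apply Real.sqrt_le_iff.2
  refine ⟨by linarith, ?_⟩
  have h5 : κ ^ 2 ≤ k2 ^ 2 := pow_le_pow_left₀ h0 h2 2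
  nlinarith

theorem BoxR.psi (B : BoxR k1 k2 s2 ψ w2 E P1 q cm G pf al X kR iR) (h0 : 0 ≤ κ) (h2 : κ ≤ k2) :
    κ ≤ ψ * (1 + κ ^ 2) := by
  rcases B.hψ with ⟨h3, h4⟩ | h3
  · have h5 := psi_lo h0 h2 h4
    have hA : 0 < 1 + κ ^ 2 := by positivity
    have hA2 : 0 < 1 + k2 ^ 2 := by positivity
    rw [div_le_iff₀ hA] at h5
    refine h5.trans (mul_le_mul_of_nonneg_right ?_ hA.le)
    rw [div_le_iff₀ hA2]; exact h3
  · nlinarith [sq_nonneg (κ - 1)]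

theorem BoxR.kh (B : BoxR k1 k2 s2 ψ w2 E P1 q cm G pf al X kR iR) (Q : QD T0 b h κ R t T s z) (h2 : κ ≤ k2) :
    κ * (h / (1 + κ ^ 2)) ≤ w2 := by
  have h3 := B.psi Q.kpos.le h2
  have hA := Q.A1
  have hh := Q.hle
  have h0 := Q.h0
  have h4 : κ / (1 + κ ^ 2) ≤ ψ := by rw [div_le_iff₀ hA]; exact h3
  have h5 : 0 ≤ κ / (1 + κ ^ 2) := div_nonneg Q.kpos.le hA.le
  calc κ * (h / (1 + κ ^ 2)) = κ / (1 + κ ^ 2) * h := by ring
    _ ≤ ψ * 0.69814 := mul_le_mul h4 hh h0.le (h5.trans h4)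
    _ ≤ w2 := by linarith [B.hw]

theorem BoxR.hp (B : BoxR k1 k2 s2 ψ w2 E P1 q cm G pf al X kR iR) (Q : QD T0 b h κ R t T s z) (h1 : k1 ≤ κ) :
    h / (1 + κ ^ 2) ≤ P1 := by
  have hA := Q.A1
  have hh := Q.hle
  have h3 := B.hP
  have hk := B.k1p
  rw [div_le_iff₀ hA]
  have hP1 : 0 ≤ P1 := by
    by_contra hcon
    push Not at hcon
    nlinarith
  have h4 : k1 ^ 2 ≤ κ ^ 2 := pow_le_pow_left₀ (by linarith) h1 2
  nlinarith

theorem BoxR.iR0 (B : BoxR k1 k2 s2 ψ w2 E P1 q cm G pf al X kR iR) : 0 < iR := by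
  have h3 := B.hiR
  by_contra hcon
  push Not at hcon
  nlinarith [sq_nonneg k1]

theorem BoxR.hi (B : BoxR k1 k2 s2 ψ w2 E P1 q cm G pf al X kR iR) (Q : QD T0 b h κ R t T s z) (h1 : k1 ≤ κ) :
    1 / R ≤ iR := by
  have h2 := Q.Rge
  have h3 := B.hiR
  have h4 := B.iR0
  have hk := B.k1p
  rw [div_le_iff₀ Q.Rpos]
  have h5 : k1 ^ 2 ≤ κ ^ 2 := pow_le_pow_left₀ (by linarith) h1 2
  nlinarith

/-- the exponential term of the horizontal line -/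
theorem BoxR.Xle (B : BoxR k1 k2 s2 ψ w2 E P1 q cm G pf al X kR iR) (Q : QD T0 b h κ R t T s z) (h1 : k1 ≤ κ) :
    z * (Real.pi / 2 + κ) - 0.97 * (1 + κ ^ 2) * z ^ 2 ≤ X := by
  have hz := Q.z0
  have hpi := Real.pi_lt_d6
  have hκ := Q.kpos
  have h2 : z * (Real.pi / 2) - 0.97 * z ^ 2 ≤ 0.26 := by
    have h3 : z * (Real.pi / 2) ≤ z * 1.5707965 := mul_le_mul_of_nonneg_left (by linarith) (by linarith)
    nlinarith
  have h3 : z * κ - 0.97 * (κ * z) ^ 2 ≤ X - 0.26 := by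
    rcases B.hX with ⟨h4, h5⟩ | h4
    · have h6 : k1 * 1.43239 ≤ κ * z := mul_le_mul h1 hz (by norm_num) hκ.le
      nlinarith
    · nlinarith [sq_nonneg (κ * z - 1 / 1.94)]
  nlinarith

/-- horizontal line, copy `n + 3` -/
theorem BoxR.HU (B : BoxR k1 k2 s2 ψ w2 E P1 q cm G pf al X kR iR) (Q : QD T0 b h κ R t T s z)
    (h1 : k1 ≤ κ) (h2 : κ ≤ k2) {β : ℝ} (hβ : β = κ / R) (n : ℕ) (hs : 0 ≤ s) (ht : (n + 2 + s) * h - κ ≤ Real.pi / 2)
    {hu o Y : ℝ} (hhu : HUMP β R ((n + 2 + s) * h - κ) ≤ hu) (ho : kR / 3 + 3.1416 * iR + w2 + kR + hu ≤ o)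
    (hY : Y ≤ 0.97 * (1 + κ ^ 2) * z ^ 2) :
    ‖Xf β R h t ((n : ℤ) + 3)‖ ≤ Real.exp R * (pf * Real.exp (T * (-(n + 2 + s) + (1 + G) / 2)) +
      al * (1 + w2) * Real.exp (T * (X - (n + 2 + s))) + al * o * Real.exp (-(T * Y))) := by
  have hpi := Real.pi_gt_d2
  have hpi2 := Real.pi_lt_d6
  have hκ := Q.kpos
  have hA := Q.A1
  have hh := Q.hle
  have h0 := Q.h0
  have hR := Q.Rpos
  have hT := Q.Tpos
  have hw := B.kh Q h2
  have hP := B.hp Q h1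
  have hbR := Q.bR
  have hk1 := B.k1p
  have hkk : k1 ^ 2 ≤ κ ^ 2 := pow_le_pow_left₀ (by linarith) h1 2
  have hw20 : 0 ≤ κ * (h / (1 + κ ^ 2)) := by positivity
  have hE : Real.exp (κ * (h / (1 + κ ^ 2))) ≤ E := by
    have h3 : Real.exp (κ * (h / (1 + κ ^ 2))) ≤ Real.exp w2 := Real.exp_le_exp.2 hw
    exact h3.trans ((r1_exp_le3 (hw20.trans hw) B.hw13).trans B.hE)
  have hE0 : 0 < E := lt_of_lt_of_le (Real.exp_pos _) hE
  have hp0 : 0 ≤ h / (1 + κ ^ 2) := by positivity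
  obtain ⟨tk, htk⟩ : ∃ tk, tk = ((n : ℝ) + 2 + s) * h - κ := ⟨_, rfl⟩
  have hn0 : (0 : ℝ) ≤ n := Nat.cast_nonneg n
  have htk0 : -1.5 ≤ tk := by
    have h3 : 0 ≤ ((n : ℝ) + 2 + s) * h := by positivity
    rw [htk]; linarith [Q.k1]
  have hG : E - 1 + (h / (1 + κ ^ 2)) ^ 2 * E ^ 3 / 5 ≤ G * (1 + κ ^ 2) := by
    have h3 : (h / (1 + κ ^ 2)) ^ 2 ≤ P1 ^ 2 := pow_le_pow_left₀ hp0 hP 2
    have h4 : (h / (1 + κ ^ 2)) ^ 2 * E ^ 3 ≤ P1 ^ 2 * E ^ 3 := mul_le_mul_of_nonneg_right h3 (by positivity)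
    have h5 := B.hG
    have hE1 : 1 ≤ E := (Real.one_le_exp hw20).trans hE
    have hG0 : 0 ≤ G := by
      by_contra hcon
      push Not at hcon
      have : 0 ≤ P1 ^ 2 * E ^ 3 := by positivity
      nlinarith
    nlinarith
  have hpf : 3 * E ≤ 2 * κ * cm * pf ^ 2 := by
    refine B.hpf.trans ?_
    apply mul_le_mul_of_nonneg_right _ (sq_nonneg pf)
    apply mul_le_mul_of_nonneg_right _ B.hcm.le
    linarith
  have hq : h / (1 + κ ^ 2) * E ≤ q := (mul_le_mul_of_nonneg_right hP hE0.le).trans B.hq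
  have key := HUR (m := (n : ℝ) + 2 + s) (tk := tk) hR hκ hβ rfl h0 Q.Rh htk (by linarith) (by rw [htk]; exact ht)
    hE hq B.hcm B.hcq hG hpf B.hpf0 hw
  have e0 : Xf β R h t ((n : ℤ) + 3) = F (cexp (I * β)) (R * cexp (I * ((tk + β / 2 : ℝ) : ℂ))) := by
    unfold Xf
    congr 4
    rw [htk, Q.ht]
    push_cast
    ring
  rw [e0]
  refine key.trans ?_
  have hC0 := C0_leF hR hβ (by linarith) h1 B.hal0 B.hal
  have hiR := B.hi Q h1
  have hkR := Q.kR (B.psi hκ.le h2) B.hkR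
  -- the bracket
  have hbr : κ / R / (3 * Real.pi / 2 + tk) + Real.pi / R + w2 +
        (1 + w2) * Real.exp (T / h * (Real.pi / 2 + κ) - T * ((n : ℝ) + 2 + s)) + κ / R + HUMP β R tk ≤
      o + (1 + w2) * Real.exp (T / h * (Real.pi / 2 + κ) - T * ((n : ℝ) + 2 + s)) := by
    have h3 : κ / R / (3 * Real.pi / 2 + tk) ≤ kR / 3 := by
      apply div_le_div₀ ((div_nonneg hκ.le hR.le).trans hkR) hkR (by norm_num) (by linarith)
    have h4 : Real.pi / R ≤ 3.1416 * iR := by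
      have : Real.pi / R = Real.pi * (1 / R) := by ring
      rw [this]
      exact mul_le_mul (by linarith) hiR (by positivity) (by norm_num)
    rw [← htk] at hhu
    linarith
  have hbr0 : 0 ≤ o + (1 + w2) * Real.exp (T / h * (Real.pi / 2 + κ) - T * ((n : ℝ) + 2 + s)) := by
    refine le_trans ?_ hbr
    have h3 : 0 < 3 * Real.pi / 2 + tk := by linarith
    have h4 : 0 ≤ HUMP β R tk := by
      unfold HUMP
      have : 0 < β := by rw [hβ]; positivity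
      positivity
    have h5 : 0 ≤ w2 := hw20.trans hw
    positivity
  have hmul := mul_le_mul hC0 hbr (by
    have h3 : 0 < 3 * Real.pi / 2 + tk := by linarith
    have h4 : 0 ≤ HUMP β R tk := by
      unfold HUMP
      have : 0 < β := by rw [hβ]; positivity
      positivity
    have h5 : 0 ≤ w2 := hw20.trans hw
    positivity) (mul_nonneg B.hal0 (Real.exp_pos _).le)
  refine (add_le_add_right hmul _).trans ?_
  have hal := B.hal0
  have hw2' : 0 ≤ w2 := hw20.trans hw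
  have hR2 := Q.hR
  have hzh : z = 1 / h := by
    have := Q.hz
    field_simp
    linarith
  -- exponents
  have e1 : Real.exp (R + T * (-((n : ℝ) + 2 + s) + (1 + G) / 2)) =
      Real.exp R * Real.exp (T * (-((n : ℝ) + 2 + s) + (1 + G) / 2)) := Real.exp_add _ _
  have e2 : Real.exp (0.03 * R) * Real.exp (T / h * (Real.pi / 2 + κ) - T * ((n : ℝ) + 2 + s)) ≤
      Real.exp R * Real.exp (T * (X - ((n : ℝ) + 2 + s))) := by
    rw [← Real.exp_add, ← Real.exp_add]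
    apply Real.exp_le_exp.2
    have h3 := mul_le_mul_of_nonneg_left (B.Xle Q h1) hT.le
    have h4 : T / h = T * z := by rw [hzh]; ring
    rw [h4]
    nlinarith
  have e3 : Real.exp (0.03 * R) ≤ Real.exp R * Real.exp (-(T * Y)) := by
    rw [← Real.exp_add]
    apply Real.exp_le_exp.2
    have h3 := mul_le_mul_of_nonneg_left hY hT.le
    nlinarith
  have ho0 : 0 ≤ o := by
    have h3 : 0 ≤ HUMP β R tk := by
      unfold HUMP
      have : 0 < β := by rw [hβ]; positivity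
      positivity
    rw [← htk] at hhu
    have h4 := B.iR0
    have h5 : 0 ≤ kR := (div_nonneg hκ.le hR.le).trans hkR
    linarith
  rw [e1]
  have h6 := mul_le_mul_of_nonneg_left e2 (by positivity : 0 ≤ al * (1 + w2))
  have h7 := mul_le_mul_of_nonneg_left e3 (by positivity : 0 ≤ al * o)
  calc pf * (Real.exp R * Real.exp (T * (-((n : ℝ) + 2 + s) + (1 + G) / 2))) +
        al * Real.exp (0.03 * R) * (o + (1 + w2) * Real.exp (T / h * (Real.pi / 2 + κ) - T * ((n : ℝ) + 2 + s)))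
      = pf * (Real.exp R * Real.exp (T * (-((n : ℝ) + 2 + s) + (1 + G) / 2))) + al * o * Real.exp (0.03 * R) +
        al * (1 + w2) * (Real.exp (0.03 * R) * Real.exp (T / h * (Real.pi / 2 + κ) - T * ((n : ℝ) + 2 + s))) := by ring
    _ ≤ pf * (Real.exp R * Real.exp (T * (-((n : ℝ) + 2 + s) + (1 + G) / 2))) +
        al * o * (Real.exp R * Real.exp (-(T * Y))) +
        al * (1 + w2) * (Real.exp R * Real.exp (T * (X - ((n : ℝ) + 2 + s)))) := by linarith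
    _ = _ := by ring

/-- left half plane, copy `n + 3` -/
theorem BoxR.UD (B : BoxR k1 k2 s2 ψ w2 E P1 q cm G pf al X kR iR) (Q : QD T0 b h κ R t T s z)
    (h1 : k1 ≤ κ) {β : ℝ} (hβ : β = κ / R) (n : ℕ) {δ ou Y d0 L P : ℝ} (hδ : 0 < δ) (hδ' : δ ≤ 1)
    (hd0 : 0 ≤ d0) (ht : Real.pi / 2 + d0 ≤ (n + 2 + s) * h - κ) (ht' : (n + 2 + s) * h - κ < 3 * Real.pi / 2)
    (hL : 1 ≤ L ∨ Real.pi / 2 < (n + 2 + s) * h - κ ∧
      Real.exp (-(R * |Real.cos ((n + 2 + s) * h - κ)|)) / (R * |Real.cos ((n + 2 + s) * h - κ)|) ≤ L)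
    (hP : (if (n + 2 + s) * h - κ ≤ Real.pi then Real.pi / (2 * R) else Real.pi / R) ≤ P)
    (hou : (κ / R / (d0 + δ) + δ) * Real.exp (R * δ) + P + L + κ / R + HUMP β R ((n + 2 + s) * h - κ) ≤
      ou * Real.exp (R * δ))
    (hY : Y ≤ (0.97 - δ) * (1 + κ ^ 2) * z ^ 2) :
    ‖Xf β R h t ((n : ℤ) + 3)‖ ≤ Real.exp R * (al * ou * Real.exp (-(T * Y))) := by
  have hpi := Real.pi_gt_d2
  have hκ := Q.kpos
  have hR := Q.Rpos
  have hT := Q.Tpos
  have hk1 := B.k1p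
  obtain ⟨tk, htk⟩ : ∃ tk, tk = ((n : ℝ) + 2 + s) * h - κ := ⟨_, rfl⟩
  rw [← htk] at ht ht' hL hP hou
  have key := UDR (tk := tk) hR hκ hβ hδ (by linarith) hd0 ht ht' hL hP
  have e0 : Xf β R h t ((n : ℤ) + 3) = F (cexp (I * β)) (R * cexp (I * ((tk + β / 2 : ℝ) : ℂ))) := by
    unfold Xf
    congr 4
    rw [htk, Q.ht]
    push_cast
    ring
  rw [e0]
  have hC0 := C0_leF hR hβ (by linarith) h1 B.hal0 B.hal
  have hβ0 : 0 < β := by rw [hβ]; positivity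
  have hL0 : 0 ≤ L := by
    rcases hL with h3 | ⟨_, h3⟩
    · linarith
    · exact le_trans (div_nonneg (Real.exp_pos _).le (mul_nonneg hR.le (abs_nonneg _))) h3
  have hP0 : 0 ≤ P := by
    refine le_trans ?_ hP
    split_ifs <;> positivity
  have hbr0 : 0 ≤ (κ / R / (d0 + δ) + δ) * Real.exp (R * δ) + P + L + κ / R + HUMP β R tk := by
    have h4 : 0 ≤ HUMP β R tk := by unfold HUMP; positivity
    positivity
  have h5 := mul_le_mul hC0 hou hbr0 (mul_nonneg B.hal0 (Real.exp_pos _).le)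
  refine key.trans (h5.trans ?_)
  have e3 : Real.exp (0.03 * R) * Real.exp (R * δ) ≤ Real.exp R * Real.exp (-(T * Y)) := by
    rw [← Real.exp_add, ← Real.exp_add]
    apply Real.exp_le_exp.2
    have h3 := mul_le_mul_of_nonneg_left hY hT.le
    have hR2 := Q.hR
    have e : 0.03 * R + R * δ = R - (0.97 - δ) * R := by ring
    have e2 : (0.97 - δ) * R = T * ((0.97 - δ) * (1 + κ ^ 2) * z ^ 2) := by rw [hR2]; ring
    rw [e, e2]
    linarith
  have hou0 : 0 ≤ ou := by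
    by_contra hcon
    push Not at hcon
    have := Real.exp_pos (R * δ)
    have : ou * Real.exp (R * δ) < 0 := mul_neg_of_neg_of_pos hcon this
    linarith
  have h7 := mul_le_mul_of_nonneg_left e3 (mul_nonneg B.hal0 hou0)
  linarith

end boxr

end Sok
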