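import Pool.Agent.Lib.MP_816dec_an.R1FarD

/-!
MP_816dec_an (A3, row R1, `b ≥ 9`): far copies on the right on the discs.
-/

set_option autoImplicit false

open Complex Set Filter Topology Metric

namespace Sok

section wr

variable {T0 : ℝ} {b : ℕ} {h κ R t T s z : ℝ}

theorem QD.WR (Q : QD T0 b h κ R t T s z) {β G0 G1 s2 d1 ρ g2 : ℝ} (hβ : β = κ / R) (hs0 : 0.03 ≤ s) (hs : s ≤ s2)
    (hs2 : s2 ≤ 1) (hr : (1 - s) * h ≤ 0.6)
    (h0' : G0 ≤ 1.035 * sQ β κ (t - h)) (hG0 : 0 ≤ G0) (h1 : 0.965 * sQ β κ t ≤ G1)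
    (hd1 : sD κ t ≤ d1 ^ 4) (hd10 : 0 ≤ d1)
    (hρ : (1.035 / 0.965) ^ 4 * sD κ t ≤ ρ ^ 4 * ((1 + (s2 - s)) * sD κ (t - h))) (hρ0 : 0 ≤ ρ)
    (hg2 : s2 ^ 2 / 2 - 0.466 * (1 - s2) ^ 2 ≤ g2) (n : ℕ) :
    G0 ^ ((n : ℤ) + 3 - 1) * G1 ^ (-((n : ℤ) + 3)) ≤
      Real.exp (-R) * (ρ ^ (n + 2) * (d1 / 0.965) * Real.exp (T * ((n + 2) * g2 + s2 ^ 2 / 2 - (s2 - s)))) := by
  have hκ := Q.kpos
  have hR := Q.Rpos
  have hT := Q.Tpos
  have hT5 : 5 ≤ T := by linarith [Q.T5, Q.hT]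
  have dd1 := Q.dom1 (by linarith) (by linarith)
  have dd0 := Q.dom0 hs0 (by linarith)
  have hβ0 : 0 < β := by rw [hβ]; positivity
  have hkβ : κ / β = R := by rw [hβ]; field_simp
  have hD1 := sD_pos dd1
  have hD0 := sD_pos dd0
  have v0 := Q.V0_le dd0 (by linarith) hr
  have v1 := Q.V1_ge dd1 (by linarith)
  unfold sQ at h0' h1
  rw [hkβ] at h0' h1
  have hG1 : 0 < G1 := lt_of_lt_of_le (by positivity) h1
  have r1 := ratio_G_le (ρ := ρ * Real.exp ((s2 - s) / 4)) (X := T * (s ^ 2 / 2 - 0.466 * (1 - s) ^ 2))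
    (by norm_num) (by norm_num) hD0 hD1 h0' h1
    (by
      have e1 : (ρ * Real.exp ((s2 - s) / 4)) ^ 4 = ρ ^ 4 * Real.exp (s2 - s) := by
        rw [mul_pow, ← Real.exp_nat_mul]
        congr 2
        push_cast
        ring
      rw [e1]
      refine hρ.trans ?_
      rw [mul_assoc]
      apply mul_le_mul_of_nonneg_left _ (by positivity)
      apply mul_le_mul_of_nonneg_right _ hD0.le
      linarith [Real.add_one_le_exp (s2 - s)])
    (by positivity) (by nlinarith)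
  have r2 : G0 / G1 ≤ ρ * Real.exp (T * (g2 - 0.88 * (s2 - s))) := by
    refine r1.trans ?_
    rw [mul_assoc, ← Real.exp_add]
    apply mul_le_mul_of_nonneg_left _ hρ0
    apply Real.exp_le_exp.2
    have h3 : (s2 - s) / 4 ≤ T * ((s2 - s) / 20) := by
      have : 0 ≤ s2 - s := by linarith
      nlinarith
    have h4 : s ^ 2 / 2 - 0.466 * (1 - s) ^ 2 + (s2 - s) / 20 ≤ g2 - 0.88 * (s2 - s) := by
      have : 0 ≤ (s2 - s) * (s + s2) := mul_nonneg (by linarith) (by linarith)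
      nlinarith
    have h5 := mul_le_mul_of_nonneg_left h4 hT.le
    linarith
  have r3 : G1⁻¹ ≤ d1 / 0.965 * Real.exp (-R + T * (s2 ^ 2 / 2)) := by
    apply inv_G_le (by norm_num) hD1 h1 hd1 hd10
    have : s ^ 2 ≤ s2 ^ 2 := pow_le_pow_left₀ (by linarith) hs 2
    nlinarith
  have e1 : G0 ^ ((n : ℤ) + 3 - 1) * G1 ^ (-((n : ℤ) + 3)) = (G0 / G1) ^ (n + 2) * G1⁻¹ := by
    have e2 : (n : ℤ) + 3 - 1 = ((n + 2 : ℕ) : ℤ) := by push_cast; ring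
    have e3 : -((n : ℤ) + 3) = -(((n + 3 : ℕ) : ℤ)) := by push_cast; ring
    rw [e2, e3, zpow_natCast, zpow_neg, zpow_natCast, div_pow]
    field_simp
    ring
  rw [e1]
  have h5 : (G0 / G1) ^ (n + 2) ≤ (ρ * Real.exp (T * (g2 - 0.88 * (s2 - s)))) ^ (n + 2) :=
    pow_le_pow_left₀ (div_nonneg hG0 hG1.le) r2 _
  have h6 := mul_le_mul h5 r3 (inv_nonneg.2 hG1.le) (by positivity)
  refine h6.trans ?_
  rw [mul_pow, ← Real.exp_nat_mul]
  have e4 : ρ ^ (n + 2) * Real.exp (((n + 2 : ℕ) : ℝ) * (T * (g2 - 0.88 * (s2 - s)))) *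
      (d1 / 0.965 * Real.exp (-R + T * (s2 ^ 2 / 2))) =
      ρ ^ (n + 2) * (d1 / 0.965) * Real.exp (-R + (((n + 2 : ℕ) : ℝ) * (T * (g2 - 0.88 * (s2 - s))) + T * (s2 ^ 2 / 2))) := by
    have e5 : -R + (((n + 2 : ℕ) : ℝ) * (T * (g2 - 0.88 * (s2 - s))) + T * (s2 ^ 2 / 2)) =
      ((n + 2 : ℕ) : ℝ) * (T * (g2 - 0.88 * (s2 - s))) + (-R + T * (s2 ^ 2 / 2)) := by ring
    rw [e5, Real.exp_add (((n + 2 : ℕ) : ℝ) * (T * (g2 - 0.88 * (s2 - s)))) (-R + T * (s2 ^ 2 / 2))]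
    ring
  have e6 : Real.exp (-R) * (ρ ^ (n + 2) * (d1 / 0.965) * Real.exp (T * ((n + 2) * g2 + s2 ^ 2 / 2 - (s2 - s)))) =
      ρ ^ (n + 2) * (d1 / 0.965) * Real.exp (-R + T * ((n + 2) * g2 + s2 ^ 2 / 2 - (s2 - s))) := by
    rw [Real.exp_add]; ring
  rw [e4, e6]
  apply mul_le_mul_of_nonneg_left _ (by positivity)
  apply Real.exp_le_exp.2
  push_cast
  have hn0 : (0 : ℝ) ≤ n := Nat.cast_nonneg n
  have h7 : ((n : ℝ) + 2) * (g2 - 0.88 * (s2 - s)) + s2 ^ 2 / 2 ≤ ((n : ℝ) + 2) * g2 + s2 ^ 2 / 2 - (s2 - s) := by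
    have h8 : 0 ≤ s2 - s := by linarith
    have h9 : 0 ≤ (n : ℝ) * (s2 - s) := mul_nonneg hn0 h8
    nlinarith
  have h8 := mul_le_mul_of_nonneg_left h7 hT.le
  linarith

end wr

/-- `e^R x ≤ …` times `e^{-R} w ≤ …` -/
theorem prod_R {x W R a c : ℝ} (hx : x ≤ Real.exp R * a) (hW : W ≤ Real.exp (-R) * c) (hW0 : 0 ≤ W)
    (ha : 0 ≤ a) : x * W ≤ a * c := by
  have h1 : Real.exp R * Real.exp (-R) = 1 := by rw [← Real.exp_add, add_neg_cancel, Real.exp_zero]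
  calc x * W ≤ (Real.exp R * a) * W := mul_le_mul_of_nonneg_right hx hW0
    _ ≤ (Real.exp R * a) * (Real.exp (-R) * c) :=
        mul_le_mul_of_nonneg_left hW (mul_nonneg (Real.exp_pos _).le ha)
    _ = (Real.exp R * Real.exp (-R)) * (a * c) := by ring
    _ = a * c := by rw [h1, one_mul]

theorem exp_TE {T T0 E X : ℝ} (hT : T0 ≤ T) (hE : 0 ≤ E) (hX : X = -E) : Real.exp (T * X) ≤ Real.exp (-(T0 * E)) := by
  rw [hX]
  apply Real.exp_le_exp.2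
  nlinarith

section boxr

variable {b : ℕ} {h κ R t T s z : ℝ} {k1 k2 s2 ψ w2 E P1 q cm G pf al X kR iR : ℝ}

theorem BoxR.w20 (B : BoxR k1 k2 s2 ψ w2 E P1 q cm G pf al X kR iR) : 0 ≤ w2 := by
  have h1 := B.hw
  have h2 : 0 ≤ ψ := by
    have hk := B.k1p
    have hk2 := B.k12
    rcases B.hψ with ⟨h3, h4⟩ | h3
    · by_contra hcon
      push Not at hcon
      nlinarith [sq_nonneg k2]
    · linarith
  linarith

/-- discs, horizontal line -/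
theorem BoxR.DHU (B : BoxR k1 k2 s2 ψ w2 E P1 q cm G pf al X kR iR) (Q : QD 5.07 b h κ R t T s z)
    (h1 : k1 ≤ κ) (h2 : κ ≤ k2) {β : ℝ} (hβ : β = κ / R) (n : ℕ) (hs : 0 ≤ s)
    (ht : (n + 2 + s) * h - κ ≤ Real.pi / 2)
    {hu o Y W c1 ρ g2 E1 E2 E3 : ℝ} (hhu : HUMP β R ((n + 2 + s) * h - κ) ≤ hu)
    (ho : kR / 3 + 3.1416 * iR + w2 + kR + hu ≤ o) (ho0 : 0 ≤ o) (hY : Y ≤ 0.97 * (1 + κ ^ 2) * z ^ 2)
    (hW0 : 0 ≤ W)
    (hW : W ≤ Real.exp (-R) * (ρ ^ (n + 2) * c1 * Real.exp (T * ((n + 2) * g2 + s2 ^ 2 / 2 - (s2 - s)))))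
    (hc1 : 0 ≤ c1) (hρ : 0 ≤ ρ) (hss : s ≤ s2)
    (hE1 : E1 = (n + 2) * (1 - g2) + s2 - s2 ^ 2 / 2 - (1 + G) / 2) (hE10 : 0 ≤ E1)
    (hE2 : E2 = (n + 2) * (1 - g2) + s2 - s2 ^ 2 / 2 - X) (hE20 : 0 ≤ E2)
    (hE3 : E3 = Y - (n + 2) * g2 - s2 ^ 2 / 2) (hE30 : 0 ≤ E3) :
    ‖Xf β R h t ((n : ℤ) + 3)‖ * W ≤ ρ ^ (n + 2) * c1 * (pf * Real.exp (-(5.07 * E1)) +
      al * (1 + w2) * Real.exp (-(5.07 * E2)) + al * o * Real.exp (-(5.07 * E3))) := by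
  have hT := Q.hT
  have hT0 := Q.Tpos
  have key := B.HU Q h1 h2 hβ n hs ht hhu ho hY
  have hw20 := B.w20
  have hal := B.hal0
  have hpf := B.hpf0
  have h3 := prod_R key hW hW0 (by positivity)
  refine h3.trans ?_
  have hrc : 0 ≤ ρ ^ (n + 2) * c1 := by positivity
  have x1 : Real.exp (T * (-(n + 2 + s) + (1 + G) / 2)) * Real.exp (T * ((n + 2) * g2 + s2 ^ 2 / 2 - (s2 - s))) ≤
      Real.exp (-(5.07 * E1)) := by
    rw [← Real.exp_add, ← mul_add]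
    exact exp_TE hT hE10 (by rw [hE1]; ring)
  have x2 : Real.exp (T * (X - (n + 2 + s))) * Real.exp (T * ((n + 2) * g2 + s2 ^ 2 / 2 - (s2 - s))) ≤
      Real.exp (-(5.07 * E2)) := by
    rw [← Real.exp_add, ← mul_add]
    exact exp_TE hT hE20 (by rw [hE2]; ring)
  have x3 : Real.exp (-(T * Y)) * Real.exp (T * ((n + 2) * g2 + s2 ^ 2 / 2 - (s2 - s))) ≤
      Real.exp (-(5.07 * E3)) := by
    rw [← Real.exp_add]
    apply Real.exp_le_exp.2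
    rw [hE3] at hE30 ⊢
    nlinarith
  have y1 := mul_le_mul_of_nonneg_left x1 hpf
  have y2 := mul_le_mul_of_nonneg_left x2 (by positivity : 0 ≤ al * (1 + w2))
  have y3 := mul_le_mul_of_nonneg_left x3 (by positivity : 0 ≤ al * o)
  calc _ = ρ ^ (n + 2) * c1 * (pf * (Real.exp (T * (-(n + 2 + s) + (1 + G) / 2)) *
        Real.exp (T * ((n + 2) * g2 + s2 ^ 2 / 2 - (s2 - s)))) +
        al * (1 + w2) * (Real.exp (T * (X - (n + 2 + s))) * Real.exp (T * ((n + 2) * g2 + s2 ^ 2 / 2 - (s2 - s)))) +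
        al * o * (Real.exp (-(T * Y)) * Real.exp (T * ((n + 2) * g2 + s2 ^ 2 / 2 - (s2 - s))))) := by ring
    _ ≤ _ := by
      apply mul_le_mul_of_nonneg_left _ hrc
      linarith

/-- discs, left half plane -/
theorem BoxR.DUD (B : BoxR k1 k2 s2 ψ w2 E P1 q cm G pf al X kR iR) (Q : QD 5.07 b h κ R t T s z)
    {n : ℕ} {β W c1 ρ g2 ou Y E3 : ℝ}
    (hX : ‖Xf β R h t ((n : ℤ) + 3)‖ ≤ Real.exp R * (al * ou * Real.exp (-(T * Y)))) (hou : 0 ≤ ou)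
    (hW0 : 0 ≤ W)
    (hW : W ≤ Real.exp (-R) * (ρ ^ (n + 2) * c1 * Real.exp (T * ((n + 2) * g2 + s2 ^ 2 / 2 - (s2 - s)))))
    (hc1 : 0 ≤ c1) (hρ : 0 ≤ ρ) (hss : s ≤ s2)
    (hE3 : E3 ≤ Y - (n + 2) * g2 - s2 ^ 2 / 2) (hE30 : 0 ≤ E3) :
    ‖Xf β R h t ((n : ℤ) + 3)‖ * W ≤ ρ ^ (n + 2) * c1 * (al * ou * Real.exp (-(5.07 * E3))) := by
  have hT := Q.hT
  have hT0 := Q.Tpos
  have hal := B.hal0
  have h3 := prod_R hX hW hW0 (by positivity)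
  refine h3.trans ?_
  have x3 : Real.exp (-(T * Y)) * Real.exp (T * ((n + 2) * g2 + s2 ^ 2 / 2 - (s2 - s))) ≤
      Real.exp (-(5.07 * E3)) := by
    rw [← Real.exp_add]
    apply Real.exp_le_exp.2
    nlinarith
  have y3 := mul_le_mul_of_nonneg_left x3 (by positivity : 0 ≤ ρ ^ (n + 2) * c1 * (al * ou))
  linarith

/-- crude bracket -/
theorem BoxR.crude {T0 : ℝ} (B : BoxR k1 k2 s2 ψ w2 E P1 q cm G pf al X kR iR) (Q : QD T0 b h κ R t T s z)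
    (h1 : k1 ≤ κ) (h2 : κ ≤ k2) {β : ℝ} (hβ : β = κ / R) (n : ℕ) {δ hu ou Y : ℝ} (hδ : 0 < δ) (hδ' : δ ≤ 1)
    (ht : Real.pi / 2 ≤ (n + 2 + s) * h - κ) (ht' : (n + 2 + s) * h - κ < 3 * Real.pi / 2)
    (hhu : HUMP β R ((n + 2 + s) * h - κ) ≤ hu * Real.exp (R * δ))
    (hou : kR / δ + δ + 3.1416 * iR + 1 + kR + hu ≤ ou)
    (hY : Y ≤ (0.97 - δ) * (1 + κ ^ 2) * z ^ 2) :
    ‖Xf β R h t ((n : ℤ) + 3)‖ ≤ Real.exp R * (al * ou * Real.exp (-(T * Y))) := by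
  have hpi := Real.pi_gt_d2
  have hpi2 := Real.pi_lt_d6
  have hκ := Q.kpos
  have hR := Q.Rpos
  have hiR := B.hi Q h1
  have hkR := Q.kR (B.psi hκ.le h2) B.hkR
  have hee : 1 ≤ Real.exp (R * δ) := Real.one_le_exp (by positivity)
  refine B.UD Q h1 hβ n hδ hδ' (d0 := 0) le_rfl (by linarith) ht' (L := 1) (Or.inl le_rfl) (P := Real.pi / R) ?_ ?_ hY
  · split_ifs
    · apply div_le_div_of_nonneg_left (by linarith) hR (by linarith)
    · exact le_rfl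
  · rw [zero_add]
    have h3 : κ / R / δ ≤ kR / δ := div_le_div_of_nonneg_right hkR hδ.le
    have h4 : Real.pi / R ≤ 3.1416 * iR := by
      have : Real.pi / R = Real.pi * (1 / R) := by ring
      rw [this]
      exact mul_le_mul (by linarith) hiR (by positivity) (by norm_num)
    have h5 : 0 ≤ κ / R := by positivity
    have h6 : 0 ≤ 3.1416 * iR + 1 + kR := by
      have := B.iR0
      linarith
    have h7 : (κ / R / δ + δ) * Real.exp (R * δ) ≤ (kR / δ + δ) * Real.exp (R * δ) :=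
      mul_le_mul_of_nonneg_right (by linarith) (by positivity)
    have h8 : 3.1416 * iR + 1 + kR ≤ (3.1416 * iR + 1 + kR) * Real.exp (R * δ) := by nlinarith
    have h9 := mul_le_mul_of_nonneg_right hou (by positivity : 0 ≤ Real.exp (R * δ))
    linarith

/-- refined bracket -/
theorem BoxR.fine {T0 : ℝ} (B : BoxR k1 k2 s2 ψ w2 E P1 q cm G pf al X kR iR) (Q : QD T0 b h κ R t T s z)
    (h1 : k1 ≤ κ) (h2 : κ ≤ k2) {β : ℝ} (hβ : β = κ / R) (n : ℕ) {d0 m L R0 ou Y : ℝ} (hd0 : 0 < d0)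
    (hd1 : d0 ≤ 1.57)
    (ht : Real.pi / 2 + d0 ≤ (n + 2 + s) * h - κ) (ht' : (n + 2 + s) * h - κ ≤ Real.pi)
    (hhu : HUMP β R ((n + 2 + s) * h - κ) ≤ 1 / 1000) (hR0 : R0 ≤ R) (hR00 : 0 < R0)
    (hm : m ≤ R0 * (d0 - d0 ^ 3 / 6)) (hm0 : 0 < m) (hL : Real.exp (-m) ≤ m * L)
    (hou : kR / (d0 + 0.02) + 0.02 + 1.5708 * iR + L + kR + 1 / 1000 ≤ ou)
    (hY : Y ≤ 0.95 * (1 + κ ^ 2) * z ^ 2) :
    ‖Xf β R h t ((n : ℤ) + 3)‖ ≤ Real.exp R * (al * ou * Real.exp (-(T * Y))) := by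
  have hpi := Real.pi_gt_d2
  have hpi2 := Real.pi_lt_d6
  have hκ := Q.kpos
  have hR := Q.Rpos
  have hiR := B.hi Q h1
  have hkR := Q.kR (B.psi hκ.le h2) B.hkR
  have hee : 1 ≤ Real.exp (R * 0.02) := Real.one_le_exp (by positivity)
  obtain ⟨tk, htk⟩ : ∃ tk, tk = ((n : ℝ) + 2 + s) * h - κ := ⟨_, rfl⟩
  have hcos : d0 - d0 ^ 3 / 6 ≤ |Real.cos tk| := by
    have e1 : Real.cos tk = -Real.sin (tk - Real.pi / 2) := by
      rw [Real.sin_sub_pi_div_two, neg_neg]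
    rw [e1, abs_neg]
    rw [← htk] at ht ht'
    have h3 : Real.sin d0 ≤ Real.sin (tk - Real.pi / 2) :=
      Real.sin_le_sin_of_le_of_le_pi_div_two (by linarith) (by linarith) (by linarith)
    have h4 := r1_sin_ge hd0.le
    exact (h4.trans h3).trans (le_abs_self _)
  have hx : m ≤ R * |Real.cos tk| := by
    have h3 : 0 < d0 - d0 ^ 3 / 6 := by
      by_contra hcon
      push Not at hcon
      nlinarith
    calc m ≤ R0 * (d0 - d0 ^ 3 / 6) := hm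
      _ ≤ R * |Real.cos tk| := mul_le_mul hR0 hcos h3.le hR.le
  have hL' : Real.exp (-(R * |Real.cos tk|)) / (R * |Real.cos tk|) ≤ L := by
    have h3 : Real.exp (-(R * |Real.cos tk|)) / (R * |Real.cos tk|) ≤ Real.exp (-m) / m :=
      div_le_div₀ (Real.exp_pos _).le (Real.exp_le_exp.2 (by linarith)) hm0 hx
    refine h3.trans ?_
    rw [div_le_iff₀ hm0]
    linarith
  refine B.UD Q h1 hβ n (δ := 0.02) (by norm_num) (by norm_num) hd0.le ht (by linarith) (L := L)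
    (Or.inr ⟨by linarith, by rw [← htk]; exact hL'⟩) (P := Real.pi / (2 * R)) ?_ ?_ (by linarith)
  · rw [if_pos ht']
  · have h3 : κ / R / (d0 + 0.02) ≤ kR / (d0 + 0.02) := div_le_div_of_nonneg_right hkR (by linarith)
    have h4 : Real.pi / (2 * R) ≤ 1.5708 * iR := by
      have : Real.pi / (2 * R) = Real.pi / 2 * (1 / R) := by field_simp
      rw [this]
      exact mul_le_mul (by linarith) hiR (by positivity) (by norm_num)
    have h5 : 0 ≤ κ / R := by positivity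
    have hL0 : 0 ≤ L := le_trans (div_nonneg (Real.exp_pos _).le (mul_nonneg hR.le (abs_nonneg _))) hL'
    have h6 : 0 ≤ 1.5708 * iR + L + kR + 1 / 1000 := by
      have := B.iR0
      linarith
    have h7 : (κ / R / (d0 + 0.02) + 0.02) * Real.exp (R * 0.02) ≤ (kR / (d0 + 0.02) + 0.02) * Real.exp (R * 0.02) :=
      mul_le_mul_of_nonneg_right (by linarith) (by positivity)
    have h8 : 1.5708 * iR + L + kR + 1 / 1000 ≤ (1.5708 * iR + L + kR + 1 / 1000) * Real.exp (R * 0.02) := by nlinarith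
    have h9 := mul_le_mul_of_nonneg_right hou (by positivity : 0 ≤ Real.exp (R * 0.02))
    linarith

end boxr

end Sok
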