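import Pool.Agent.Lib.MP_816dec_an.R1FarE

/-!
MP_816dec_an (A3, row R1, `b ≥ 9`): far copies on the right on the discs, all the indices.
-/

set_option autoImplicit false

open Complex Set Filter Topology Metric

namespace Sok

theorem Mfar_3 : Mfar (((0 : ℕ) : ℤ) + 3) = 1 / 100 := by simp [Mfar]

theorem Mfar_4 : Mfar (((1 : ℕ) : ℤ) + 3) = 3 / 1000 := by norm_num [Mfar]

theorem Mfar_5 : Mfar (((2 : ℕ) : ℤ) + 3) = 11 / 2000 := by norm_num [Mfar]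

theorem Mfar_ge (m : ℕ) : Mfar (((m + 3 : ℕ) : ℤ) + 3) = 1 / 8000 * (1 / 4) ^ m := by
  unfold Mfar
  have e : (((m + 3 : ℕ) : ℤ) + 3).natAbs - 5 = m + 1 := by omega
  rw [if_neg (by omega), if_neg (by omega), if_neg (by omega), if_neg (by omega), if_neg (by omega),
    if_neg (by omega), e, pow_succ]
  ring

section facts

variable {T0 : ℝ} {b : ℕ} {h κ R t T s z : ℝ}

theorem QD.z2_ge (Q : QD T0 b h κ R t T s z) {n : ℝ} (hn0 : 0 ≤ n) (hn : n ≤ b) : n ^ 2 ≤ 39.4785 * z ^ 2 := by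
  have h1 := Q.z_ge hn
  have h2 := pow_le_pow_left₀ hn0 h1 2
  have h3 : (6.283186 * z) ^ 2 = 6.283186 ^ 2 * z ^ 2 := by ring
  rw [h3] at h2
  linarith only [h2, sq_nonneg z]

theorem QD.Az2 (Q : QD T0 b h κ R t T s z) (n : ℕ) (hs : 0 ≤ s) (ht : (n + 2 + s) * h - κ ≤ Real.pi / 2) :
    0.2883 * (n + 2 + s) ^ 2 ≤ (1 + κ ^ 2) * z ^ 2 := by
  have hpi := Real.pi_lt_d6
  have hz := Q.z0
  have hκ := Q.kpos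
  have hn0 : (0 : ℝ) ≤ n := Nat.cast_nonneg n
  have h1 : (n : ℝ) + 2 + s ≤ z * (1.5707965 + κ) := by
    have h2 : ((n : ℝ) + 2 + s) * h ≤ 1.5707965 + κ := by linarith
    calc (n : ℝ) + 2 + s = ((n : ℝ) + 2 + s) * h * z := by rw [mul_assoc, mul_comm h z, Q.hz, mul_one]
      _ ≤ (1.5707965 + κ) * z := mul_le_mul_of_nonneg_right h2 (by linarith)
      _ = _ := by ring
  have h2 := pow_le_pow_left₀ (by positivity) h1 2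
  have h3 : (1.5707965 + κ) ^ 2 ≤ 3.4675 * (1 + κ ^ 2) := by nlinarith only [sq_nonneg (κ - 0.6366)]
  have h4 : (z * (1.5707965 + κ)) ^ 2 = z ^ 2 * (1.5707965 + κ) ^ 2 := by ring
  rw [h4] at h2
  have h5 := mul_le_mul_of_nonneg_left h3 (sq_nonneg z)
  have h6 : 0 ≤ z ^ 2 * (1 + κ ^ 2) := by positivity
  linarith only [h2, h5, h6]

/-- position of the copies -/
theorem QD.tk_le (Q : QD T0 b h κ R t T s z) {n : ℕ} (hn : 2 * (n : ℝ) + 5 ≤ b) (hs : s ≤ 0.79) :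
    (n + 2 + s) * h - κ ≤ Real.pi + 1 / 4 - κ := by
  have h1 := Q.hbz
  have h0 := Q.h0
  have hle := Q.hle
  have h2 : (b : ℝ) * h = 2 * Real.pi := by
    rw [← h1, mul_assoc, Q.hz, mul_one]
  have h3 := mul_le_mul_of_nonneg_right hn h0.le
  rw [h2] at h3
  have h4 : (s - 1 / 2) * h ≤ 1 / 4 := by
    rcases le_total s (1 / 2) with h5 | h5
    · nlinarith only [h5, h0]
    · nlinarith only [h5, h0, hle, hs]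
  linarith only [h3, h4]

end facts

section boxr

variable {b : ℕ} {h κ R t T s z : ℝ} {k1 k2 s2 ψ w2 E P1 q cm G pf al X kR iR : ℝ}

theorem BoxR.hump_HU (B : BoxR k1 k2 s2 ψ w2 E P1 q cm G pf al X kR iR) {T0 : ℝ} (Q : QD T0 b h κ R t T s z)
    (h2 : κ ≤ k2) {β : ℝ} (hβ : β = κ / R) {hu : ℝ} (hhu : k2 ≤ 1 ∧ 1 / 1000 ≤ hu ∨ 1.05 ≤ hu) {tk : ℝ}
    (ht : tk ≤ Real.pi / 2) : HUMP β R tk ≤ hu := by
  rcases hhu with ⟨h3, h4⟩ | h3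
  · exact (Q.hump1 hβ (h2.trans h3) (by linarith only [ht, Real.pi_lt_d6])).trans h4
  · exact (Q.hump2 hβ ht).trans h3

theorem BoxR.hump_UD (B : BoxR k1 k2 s2 ψ w2 E P1 q cm G pf al X kR iR) {T0 : ℝ} (Q : QD T0 b h κ R t T s z)
    (h1 : k1 ≤ κ) (h2 : κ ≤ k2) {β : ℝ} (hβ : β = κ / R) {hu δ : ℝ} (hhu : k2 ≤ 1 ∧ 1 / 1000 ≤ hu ∨ 1.05 ≤ hu)
    (hδ : k2 ≤ 1 ∧ δ = 0.05 ∨ δ = 0.21 ∧ 1.05 ≤ hu ∧ 1 ≤ k1) {tk : ℝ}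
    (ht : tk ≤ Real.pi + 1 / 4 - κ) : HUMP β R tk ≤ hu * Real.exp (R * δ) := by
  rcases hδ with ⟨h3, h4⟩ | ⟨h3, h4, h5⟩
  · have h5 := Q.hump1' hβ (h2.trans h3) ht
    have h6 : 1 ≤ Real.exp (R * δ) := Real.one_le_exp (mul_nonneg Q.Rpos.le (by rw [h4]; norm_num))
    have h7 : 1 / 1000 ≤ hu := by
      rcases hhu with ⟨_, h8⟩ | h8
      · exact h8
      · linarith only [h8]
    nlinarith only [h5, h6, h7]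
  · have h6 := Q.hump3 hβ (h5.trans h1) ht
    rw [h3, mul_comm R]
    exact h6.trans (mul_le_mul_of_nonneg_right h4 (Real.exp_pos _).le)

theorem BoxR.kR0 (B : BoxR k1 k2 s2 ψ w2 E P1 q cm G pf al X kR iR) {T0 : ℝ} (Q : QD T0 b h κ R t T s z)
    (h2 : κ ≤ k2) : 0 ≤ kR :=
  (div_nonneg Q.kpos.le Q.Rpos.le).trans (Q.kR (B.psi Q.kpos.le h2) B.hkR)

/-- horizontal line, `n = 0` -/
theorem BoxR.right0 (B : BoxR k1 k2 s2 ψ w2 E P1 q cm G pf al X kR iR) (Q : QD 5.07 b h κ R t T s z)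
    (h1 : k1 ≤ κ) (h2 : κ ≤ k2) {β : ℝ} (hβ : β = κ / R) (hs1 : 0 ≤ s) (hs2 : s ≤ s2)
    {W : ℕ → ℝ} {c1 ρ g2 : ℝ} (hW0 : ∀ n, 0 ≤ W n)
    (hW : ∀ n : ℕ, W n ≤ Real.exp (-R) * (ρ ^ (n + 2) * c1 * Real.exp (T * ((n + 2) * g2 + s2 ^ 2 / 2 - (s2 - s)))))
    (hc1 : 0 ≤ c1) (hρ : 0 ≤ ρ)
    {hu o : ℝ} (hhu : k2 ≤ 1 ∧ 1 / 1000 ≤ hu ∨ 1.05 ≤ hu) (ho : kR / 3 + 3.1416 * iR + w2 + kR + hu ≤ o)
    (ho0 : 0 ≤ o) {eA1 eA2 eA3 : ℝ}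
    (hA1 : 0 ≤ 2 * (1 - g2) + s2 - s2 ^ 2 / 2 - (1 + G) / 2)
    (hA1' : Real.exp (-(5.07 * (2 * (1 - g2) + s2 - s2 ^ 2 / 2 - (1 + G) / 2))) ≤ eA1)
    (hA2 : 0 ≤ 2 * (1 - g2) + s2 - s2 ^ 2 / 2 - X)
    (hA2' : Real.exp (-(5.07 * (2 * (1 - g2) + s2 - s2 ^ 2 / 2 - X))) ≤ eA2)
    (hA3 : 0 ≤ 0.97 * (1 + k1 ^ 2) * 2.05174 - 2 * g2 - s2 ^ 2 / 2)
    (hA3' : Real.exp (-(5.07 * (0.97 * (1 + k1 ^ 2) * 2.05174 - 2 * g2 - s2 ^ 2 / 2))) ≤ eA3)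
    (hA : ρ ^ 2 * c1 * (pf * eA1 + al * (1 + w2) * eA2 + al * o * eA3) ≤ 1 / 100)
    (ht : (((0 : ℕ) : ℝ) + 2 + s) * h - κ ≤ Real.pi / 2) :
    ‖Xf β R h t (((0 : ℕ) : ℤ) + 3)‖ * W 0 ≤ Mfar (((0 : ℕ) : ℤ) + 3) := by
  have hz2 := Q.zz
  have hk1 := B.k1p
  have hal := B.hal0
  have hpf := B.hpf0
  have hw20 := B.w20
  have hkk : k1 ^ 2 ≤ κ ^ 2 := pow_le_pow_left₀ (by linarith only [hk1]) h1 2
  have hY : 0.97 * (1 + k1 ^ 2) * 2.05174 ≤ 0.97 * (1 + κ ^ 2) * z ^ 2 :=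
    mul_le_mul (by linarith only [hkk]) hz2 (by norm_num) (by positivity)
  have key := B.DHU Q h1 h2 hβ 0 hs1 ht (B.hump_HU Q h2 hβ hhu ht) ho ho0 hY (hW0 0) (hW 0) hc1 hρ hs2
    (E1 := 2 * (1 - g2) + s2 - s2 ^ 2 / 2 - (1 + G) / 2) (by push_cast; ring) hA1
    (E2 := 2 * (1 - g2) + s2 - s2 ^ 2 / 2 - X) (by push_cast; ring) hA2
    (E3 := 0.97 * (1 + k1 ^ 2) * 2.05174 - 2 * g2 - s2 ^ 2 / 2) (by push_cast; ring) hA3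
  rw [Mfar_3]
  refine key.trans (le_trans ?_ hA)
  rw [show (0 + 2 : ℕ) = 2 from rfl]
  apply mul_le_mul_of_nonneg_left _ (by positivity)
  have y1 := mul_le_mul_of_nonneg_left hA1' hpf
  have y2 := mul_le_mul_of_nonneg_left hA2' (by positivity : 0 ≤ al * (1 + w2))
  have y3 := mul_le_mul_of_nonneg_left hA3' (by positivity : 0 ≤ al * o)
  linarith only [y1, y2, y3]

theorem exp_geo {x y g eg : ℝ} (m : ℕ) (hxy : Real.exp (-(5.07 * x)) ≤ y) (hy : 0 ≤ y)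
    (hg : Real.exp (-(5.07 * (1 - g))) ≤ eg) :
    Real.exp (-(5.07 * (x + m * (1 - g)))) ≤ y * eg ^ m := by
  have e1 : -(5.07 * (x + m * (1 - g))) = -(5.07 * x) + (m : ℝ) * (-(5.07 * (1 - g))) := by ring
  rw [e1, Real.exp_add, Real.exp_nat_mul]
  exact mul_le_mul hxy (pow_le_pow_left₀ (Real.exp_pos _).le hg m) (by positivity) hy

/-- horizontal line, `n ≥ 1` -/
theorem BoxR.right1 (B : BoxR k1 k2 s2 ψ w2 E P1 q cm G pf al X kR iR) (Q : QD 5.07 b h κ R t T s z)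
    (h1 : k1 ≤ κ) (h2 : κ ≤ k2) {β : ℝ} (hβ : β = κ / R) (hs1 : 0.22 ≤ s) (hs2 : s ≤ s2)
    {W : ℕ → ℝ} {c1 ρ g2 : ℝ} (hW0 : ∀ n, 0 ≤ W n)
    (hW : ∀ n : ℕ, W n ≤ Real.exp (-R) * (ρ ^ (n + 2) * c1 * Real.exp (T * ((n + 2) * g2 + s2 ^ 2 / 2 - (s2 - s)))))
    (hc1 : 0 ≤ c1) (hρ : 0 ≤ ρ)
    {hu o : ℝ} (hhu : k2 ≤ 1 ∧ 1 / 1000 ≤ hu ∨ 1.05 ≤ hu) (ho : kR / 3 + 3.1416 * iR + w2 + kR + hu ≤ o)
    (ho0 : 0 ≤ o) {eB1 eB2 eB3 eg : ℝ} (hg : g2 ≤ 1) (hg' : Real.exp (-(5.07 * (1 - g2))) ≤ eg) (hρg : ρ * eg ≤ 1 / 4)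
    (hB1 : 0 ≤ 3 * (1 - g2) + s2 - s2 ^ 2 / 2 - (1 + G) / 2)
    (hB1' : Real.exp (-(5.07 * (3 * (1 - g2) + s2 - s2 ^ 2 / 2 - (1 + G) / 2))) ≤ eB1)
    (hB2 : 0 ≤ 3 * (1 - g2) + s2 - s2 ^ 2 / 2 - X)
    (hB2' : Real.exp (-(5.07 * (3 * (1 - g2) + s2 - s2 ^ 2 / 2 - X))) ≤ eB2)
    (hB3 : 0 ≤ 2.88 - 3 * g2 - s2 ^ 2 / 2)
    (hB3' : Real.exp (-(5.07 * (2.88 - 3 * g2 - s2 ^ 2 / 2))) ≤ eB3)
    (hB : ρ ^ 3 * c1 * (pf * eB1 + al * (1 + w2) * eB2 + al * o * eB3) ≤ 1 / 500)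
    (m : ℕ) (ht : (((m + 1 : ℕ) : ℝ) + 2 + s) * h - κ ≤ Real.pi / 2) :
    ‖Xf β R h t (((m + 1 : ℕ) : ℤ) + 3)‖ * W (m + 1) ≤ Mfar (((m + 1 : ℕ) : ℤ) + 3) := by
  have hal := B.hal0
  have hpf := B.hpf0
  have hw20 := B.w20
  have eB10 : 0 ≤ eB1 := (Real.exp_pos _).le.trans hB1'
  have eB20 : 0 ≤ eB2 := (Real.exp_pos _).le.trans hB2'
  have eB30 : 0 ≤ eB3 := (Real.exp_pos _).le.trans hB3'
  have heg0 : 0 ≤ eg := (Real.exp_pos _).le.trans hg'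
  have hm0 : (0 : ℝ) ≤ m := Nat.cast_nonneg m
  have hY : 2.88 + (m : ℝ) ≤ 0.97 * (1 + κ ^ 2) * z ^ 2 := by
    have h3 := Q.Az2 (m + 1) (by linarith only [hs1]) ht
    push_cast at h3
    have h4 : 10.304 + 6 * (m : ℝ) ≤ ((m : ℝ) + 1 + 2 + s) ^ 2 := by
      nlinarith only [mul_nonneg hm0 (by linarith only [hs1] : (0:ℝ) ≤ s), hs1, hm0, sq_nonneg (m : ℝ)]
    linarith only [h3, h4, hm0]
  have hmg : 0 ≤ (m : ℝ) * (1 - g2) := mul_nonneg hm0 (by linarith only [hg])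
  have key := B.DHU Q h1 h2 hβ (m + 1) (by linarith only [hs1]) ht (B.hump_HU Q h2 hβ hhu ht) ho ho0 hY
    (hW0 (m + 1)) (hW (m + 1)) hc1 hρ hs2
    (E1 := 3 * (1 - g2) + s2 - s2 ^ 2 / 2 - (1 + G) / 2 + m * (1 - g2)) (by push_cast; ring)
    (add_nonneg hB1 hmg)
    (E2 := 3 * (1 - g2) + s2 - s2 ^ 2 / 2 - X + m * (1 - g2)) (by push_cast; ring)
    (add_nonneg hB2 hmg)
    (E3 := 2.88 - 3 * g2 - s2 ^ 2 / 2 + m * (1 - g2)) (by push_cast; ring)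
    (add_nonneg hB3 hmg)
  have z1 := exp_geo m hB1' eB10 hg'
  have z2 := exp_geo m hB2' eB20 hg'
  have z3 := exp_geo m hB3' eB30 hg'
  have y1 := mul_le_mul_of_nonneg_left z1 hpf
  have y2 := mul_le_mul_of_nonneg_left z2 (by positivity : 0 ≤ al * (1 + w2))
  have y3 := mul_le_mul_of_nonneg_left z3 (by positivity : 0 ≤ al * o)
  have key2 : ‖Xf β R h t (((m + 1 : ℕ) : ℤ) + 3)‖ * W (m + 1) ≤ 1 / 500 * (1 / 4) ^ m := by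
    refine key.trans ?_
    calc _ ≤ ρ ^ (m + 1 + 2) * c1 * (pf * (eB1 * eg ^ m) + al * (1 + w2) * (eB2 * eg ^ m) +
          al * o * (eB3 * eg ^ m)) := by
          apply mul_le_mul_of_nonneg_left _ (by positivity)
          linarith only [y1, y2, y3]
      _ = ρ ^ 3 * c1 * (pf * eB1 + al * (1 + w2) * eB2 + al * o * eB3) * (ρ * eg) ^ m := by
          rw [mul_pow]; ring
      _ ≤ 1 / 500 * (1 / 4) ^ m := by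
          apply mul_le_mul hB (pow_le_pow_left₀ (by positivity) hρg m) (by positivity) (by norm_num)
  refine key2.trans ?_
  rcases m with _ | _ | m
  · rw [show ((0 + 1 : ℕ)) = 1 from rfl, Mfar_4]; norm_num
  · rw [show ((0 + 1 + 1 : ℕ)) = 2 from rfl, Mfar_5]; norm_num
  · rw [Mfar_ge m]
    have : (1 / 4 : ℝ) ^ (m + 1 + 1) = 1 / 16 * (1 / 4) ^ m := by ring
    rw [this]
    have h3 : (0 : ℝ) < (1 / 4) ^ m := by positivity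
    linarith only [h3]

/-- left half plane, crude -/
theorem BoxR.rightC (B : BoxR k1 k2 s2 ψ w2 E P1 q cm G pf al X kR iR) (Q : QD 5.07 b h κ R t T s z)
    (h1 : k1 ≤ κ) (h2 : κ ≤ k2) {β : ℝ} (hβ : β = κ / R) (hs2 : s ≤ s2)
    {W : ℕ → ℝ} {c1 ρ g2 : ℝ} (hW0 : ∀ n, 0 ≤ W n)
    (hW : ∀ n : ℕ, W n ≤ Real.exp (-R) * (ρ ^ (n + 2) * c1 * Real.exp (T * ((n + 2) * g2 + s2 ^ 2 / 2 - (s2 - s)))))
    (hc1 : 0 ≤ c1) (hρ : 0 ≤ ρ)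
    {hu : ℝ} (hhu : k2 ≤ 1 ∧ 1 / 1000 ≤ hu ∨ 1.05 ≤ hu)
    {δ oc : ℝ} (hδ : k2 ≤ 1 ∧ δ = 0.05 ∨ δ = 0.21 ∧ 1.05 ≤ hu ∧ 1 ≤ k1)
    (hoc : kR / δ + δ + 3.1416 * iR + 1 + kR + hu ≤ oc) (hoc0 : 0 ≤ oc)
    (n : ℕ) (hn : 2 * n + 5 ≤ b) (ht : Real.pi / 2 < ((n : ℝ) + 2 + s) * h - κ)
    {Z e M : ℝ} (hZ0 : 0 ≤ Z) (hZ : Z ≤ z ^ 2)
    (hE : 0 ≤ (0.97 - δ) * (1 + k1 ^ 2) * Z - (n + 2) * g2 - s2 ^ 2 / 2)
    (he : Real.exp (-(5.07 * ((0.97 - δ) * (1 + k1 ^ 2) * Z - (n + 2) * g2 - s2 ^ 2 / 2))) ≤ e)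
    (hM : ρ ^ (n + 2) * c1 * (al * oc * e) ≤ M) :
    ‖Xf β R h t ((n : ℤ) + 3)‖ * W n ≤ M := by
  have hal := B.hal0
  have hs79 := B.hs8
  have hk1 := B.k1p
  have hpi := Real.pi_gt_d2
  have hκ := Q.k0
  have hnb : 2 * (n : ℝ) + 5 ≤ b := by exact_mod_cast hn
  have htk := Q.tk_le hnb (hs2.trans hs79)
  have hkk : k1 ^ 2 ≤ κ ^ 2 := pow_le_pow_left₀ (by linarith only [hk1]) h1 2
  have hδ0 : 0 < δ := by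
    rcases hδ with ⟨_, h3⟩ | ⟨h3, _⟩ <;> rw [h3] <;> norm_num
  have hδ1 : δ ≤ 1 := by
    rcases hδ with ⟨_, h3⟩ | ⟨h3, _⟩ <;> rw [h3] <;> norm_num
  have hδ2 : 0 ≤ 0.97 - δ := by
    rcases hδ with ⟨_, h3⟩ | ⟨h3, _⟩ <;> rw [h3] <;> norm_num
  have hump := B.hump_UD Q h1 h2 hβ hhu hδ htk
  have ht3 : ((n : ℝ) + 2 + s) * h - κ < 3 * Real.pi / 2 := by linarith only [htk, hpi, hκ]
  have hY : (0.97 - δ) * (1 + k1 ^ 2) * Z ≤ (0.97 - δ) * (1 + κ ^ 2) * z ^ 2 :=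
    mul_le_mul (mul_le_mul_of_nonneg_left (by linarith only [hkk]) hδ2) hZ hZ0 (by positivity)
  have h3 := B.crude Q h1 h2 hβ n hδ0 hδ1 ht.le ht3 hump hoc hY
  have h4 := B.DUD Q h3 hoc0 (hW0 n) (hW n) hc1 hρ hs2 le_rfl hE
  refine h4.trans (le_trans ?_ hM)
  apply mul_le_mul_of_nonneg_left _ (by positivity)
  exact mul_le_mul_of_nonneg_left he (by positivity)

/-- left half plane, crude, `n = m + 4` -/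
theorem BoxR.rightC4 (B : BoxR k1 k2 s2 ψ w2 E P1 q cm G pf al X kR iR) (Q : QD 5.07 b h κ R t T s z)
    (h1 : k1 ≤ κ) (h2 : κ ≤ k2) {β : ℝ} (hβ : β = κ / R) (hs2 : s ≤ s2)
    {W : ℕ → ℝ} {c1 ρ g2 : ℝ} (hW0 : ∀ n, 0 ≤ W n)
    (hW : ∀ n : ℕ, W n ≤ Real.exp (-R) * (ρ ^ (n + 2) * c1 * Real.exp (T * ((n + 2) * g2 + s2 ^ 2 / 2 - (s2 - s)))))
    (hc1 : 0 ≤ c1) (hρ : 0 ≤ ρ)
    {hu : ℝ} (hhu : k2 ≤ 1 ∧ 1 / 1000 ≤ hu ∨ 1.05 ≤ hu)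
    {δ oc eg eC4 : ℝ} (hδ : k2 ≤ 1 ∧ δ = 0.05 ∨ δ = 0.21 ∧ 1.05 ≤ hu ∧ 1 ≤ k1)
    (hoc : kR / δ + δ + 3.1416 * iR + 1 + kR + hu ≤ oc) (hoc0 : 0 ≤ oc)
    (hg : g2 ≤ 1) (hg' : Real.exp (-(5.07 * (1 - g2))) ≤ eg) (hρg : ρ * eg ≤ 1 / 4)
    (hC4 : 1 ≤ (0.97 - δ) * (1 + k1 ^ 2) * 1.317)
    (hC : 0 ≤ (0.97 - δ) * (1 + k1 ^ 2) * 4.2808 - 6 * g2 - s2 ^ 2 / 2)
    (hC4' : Real.exp (-(5.07 * ((0.97 - δ) * (1 + k1 ^ 2) * 4.2808 - 6 * g2 - s2 ^ 2 / 2))) ≤ eC4)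
    (hC4'' : ρ ^ 6 * c1 * (al * oc * eC4) ≤ 1 / 32000)
    (m : ℕ) (hn : 2 * (m + 4) + 5 ≤ b) (ht : Real.pi / 2 < (((m + 4 : ℕ) : ℝ) + 2 + s) * h - κ) :
    ‖Xf β R h t (((m + 4 : ℕ) : ℤ) + 3)‖ * W (m + 4) ≤ Mfar (((m + 4 : ℕ) : ℤ) + 3) := by
  have hal := B.hal0
  have hm0 : (0 : ℝ) ≤ m := Nat.cast_nonneg m
  have heg0 : 0 ≤ eg := (Real.exp_pos _).le.trans hg'
  have hZ : 4.2808 + 1.317 * (m : ℝ) ≤ z ^ 2 := by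
    have hnb : 2 * ((m : ℝ) + 4) + 5 ≤ b := by exact_mod_cast hn
    have h3 := Q.z2_ge (n := 2 * (m : ℝ) + 13) (by positivity) (by linarith only [hnb])
    nlinarith only [h3, sq_nonneg (m : ℝ), hm0]
  have hmg : 0 ≤ (m : ℝ) * (1 - g2) := mul_nonneg hm0 (by linarith only [hg])
  have hE : (0.97 - δ) * (1 + k1 ^ 2) * 4.2808 - 6 * g2 - s2 ^ 2 / 2 + m * (1 - g2) ≤
      (0.97 - δ) * (1 + k1 ^ 2) * (4.2808 + 1.317 * (m : ℝ)) - (((m + 4 : ℕ) : ℝ) + 2) * g2 - s2 ^ 2 / 2 := by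
    push_cast
    have := mul_le_mul_of_nonneg_right hC4 hm0
    linarith only [this]
  have h5 : Real.exp (-(5.07 * ((0.97 - δ) * (1 + k1 ^ 2) * (4.2808 + 1.317 * (m : ℝ)) -
      (((m + 4 : ℕ) : ℝ) + 2) * g2 - s2 ^ 2 / 2))) ≤ eC4 * eg ^ m := by
    refine le_trans (Real.exp_le_exp.2 (neg_le_neg (mul_le_mul_of_nonneg_left hE (by norm_num)))) ?_
    exact exp_geo m hC4' ((Real.exp_pos _).le.trans hC4') hg'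
  refine B.rightC Q h1 h2 hβ hs2 hW0 hW hc1 hρ hhu hδ hoc hoc0 (m + 4) hn ht (by positivity) hZ
    ((add_nonneg hC hmg).trans hE) h5 ?_
  have e1 : (m + 4 : ℕ) = (m + 1) + 3 := by ring
  rw [e1, Mfar_ge (m + 1)]
  calc ρ ^ (m + 1 + 3 + 2) * c1 * (al * oc * (eC4 * eg ^ m))
      = ρ ^ 6 * c1 * (al * oc * eC4) * (ρ * eg) ^ m := by rw [mul_pow]; ring
    _ ≤ 1 / 32000 * (1 / 4) ^ m := by
        apply mul_le_mul hC4'' (pow_le_pow_left₀ (by positivity) hρg m) (by positivity) (by norm_num)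
    _ = 1 / 8000 * (1 / 4) ^ (m + 1) := by ring

/-- left half plane, refined -/
theorem BoxR.rightF (B : BoxR k1 k2 s2 ψ w2 E P1 q cm G pf al X kR iR) (Q : QD 5.07 b h κ R t T s z)
    (h1 : k1 ≤ κ) (h2 : κ ≤ k2) {β : ℝ} (hβ : β = κ / R) (hs1 : 1.02 - s2 ≤ s) (hs2 : s ≤ s2)
    {W : ℕ → ℝ} {c1 ρ g2 : ℝ} (hW0 : ∀ n, 0 ≤ W n)
    (hW : ∀ n : ℕ, W n ≤ Real.exp (-R) * (ρ ^ (n + 2) * c1 * Real.exp (T * ((n + 2) * g2 + s2 ^ 2 / 2 - (s2 - s)))))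
    (hc1 : 0 ≤ c1) (hρ : 0 ≤ ρ) (hk2 : k2 ≤ 1)
    (n : ℕ) (hn : 2 * n + 5 ≤ b) {h1' h2' : ℝ} (hh1 : h1' ≤ h) (hh2 : h ≤ h2') (hh0 : 0 ≤ h1')
    {d0 m L R0 ou Z e M : ℝ} (hd0 : 0 < d0) (hd1 : d0 ≤ 1.57)
    (hd : 1.5708 + d0 ≤ (n + 2 + (1.02 - s2)) * h1' - k2) (hd' : (n + 2 + s2) * h2' - k1 ≤ 3.1415)
    (hR0 : R0 ≤ 5.07 * (1 + k1 ^ 2) * Z) (hR00 : 0 < R0)
    (hm : m ≤ R0 * (d0 - d0 ^ 3 / 6)) (hm0 : 0 < m) (hL : Real.exp (-m) ≤ m * L)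
    (hou : kR / (d0 + 0.02) + 0.02 + 1.5708 * iR + L + kR + 1 / 1000 ≤ ou) (hou0 : 0 ≤ ou)
    (hZ0 : 0 ≤ Z) (hZ : Z ≤ z ^ 2)
    (hE : 0 ≤ 0.95 * (1 + k1 ^ 2) * Z - (n + 2) * g2 - s2 ^ 2 / 2)
    (he : Real.exp (-(5.07 * (0.95 * (1 + k1 ^ 2) * Z - (n + 2) * g2 - s2 ^ 2 / 2))) ≤ e)
    (hM : ρ ^ (n + 2) * c1 * (al * ou * e) ≤ M) :
    ‖Xf β R h t ((n : ℤ) + 3)‖ * W n ≤ M := by
  have hal := B.hal0
  have hk1 := B.k1p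
  have hpi := Real.pi_gt_d2
  have hpi1 := Real.pi_gt_d6
  have hpi2 := Real.pi_lt_d6
  have hκ := Q.k0
  have hs8 := B.hs8
  have hn0 : (0 : ℝ) ≤ n := Nat.cast_nonneg n
  have hkk : k1 ^ 2 ≤ κ ^ 2 := pow_le_pow_left₀ (by linarith only [hk1]) h1 2
  have hY : 0.95 * (1 + k1 ^ 2) * Z ≤ 0.95 * (1 + κ ^ 2) * z ^ 2 :=
    mul_le_mul (by linarith only [hkk]) hZ hZ0 (by positivity)
  have hlo : Real.pi / 2 + d0 ≤ ((n : ℝ) + 2 + s) * h - κ := by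
    have h3 : ((n : ℝ) + 2 + (1.02 - s2)) * h1' ≤ ((n : ℝ) + 2 + s) * h :=
      mul_le_mul (by linarith only [hs1]) hh1 hh0 (by linarith only [hs1, hn0, hs8])
    linarith only [h3, hd, hpi2, h2]
  have hhi : ((n : ℝ) + 2 + s) * h - κ ≤ Real.pi := by
    have h3 : ((n : ℝ) + 2 + s) * h ≤ ((n : ℝ) + 2 + s2) * h2' :=
      mul_le_mul (by linarith only [hs2]) hh2 Q.h0.le (by linarith only [hs1, hn0, hs8, hs2])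
    linarith only [h3, hd', hpi1, h1]
  have hnb : 2 * (n : ℝ) + 5 ≤ b := by exact_mod_cast hn
  have hhump := Q.hump1' hβ (h2.trans hk2) (Q.tk_le hnb (hs2.trans hs8))
  have hR0' : R0 ≤ R := by
    have h3 := Q.hT
    have h4 := Q.hR
    have h5 : 5.07 * (1 + k1 ^ 2) * Z ≤ T * (1 + κ ^ 2) * z ^ 2 :=
      mul_le_mul (mul_le_mul h3 (by linarith only [hkk]) (by positivity) Q.Tpos.le) hZ hZ0
        (mul_nonneg Q.Tpos.le Q.A1.le)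
    rw [h4]; exact hR0.trans h5
  have h3 := B.fine Q h1 h2 hβ n hd0 hd1 hlo hhi hhump hR0' hR00 hm hm0 hL hou hY
  have h4 := B.DUD Q h3 hou0 (hW0 n) (hW n) hc1 hρ hs2 le_rfl hE
  refine h4.trans (le_trans ?_ hM)
  apply mul_le_mul_of_nonneg_left _ (by positivity)
  exact mul_le_mul_of_nonneg_left he (by positivity)

end boxr

end Sok
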