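import Pool.Agent.Lib.MP_816dec_an.R1FarF

/-!
MP_816dec_an (A3, row R1, `b ≥ 9`): far copies on the right on the discs, the ratios of the denominators and the
summary.
-/

set_option autoImplicit false

open Complex Set Filter Topology Metric

namespace Sok

section rho

variable {T0 : ℝ} {b : ℕ} {h κ R t T s z : ℝ} {k1 k2 s2 ψ w2 E P1 q cm G pf al X kR iR : ℝ}

/-- `κ ≤ .7` -/
theorem BoxR.rhoA (B : BoxR k1 k2 s2 ψ w2 E P1 q cm G pf al X kR iR) (Q : QD T0 b h κ R t T s z)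
    (h1 : k1 ≤ κ) (h2 : κ ≤ k2) (hk2 : k2 ≤ 1) (hs1 : 1.02 - s2 ≤ s) (hs2 : s ≤ s2) (hs3 : s2 ≤ 0.736) {χ Bc d1 ρ : ℝ}
    (hχ : κ * (1 - κ ^ 2) ≤ χ * (1 + κ ^ 2)) (hB : 2.746 * χ * 0.69814 ≤ Bc) (hB0 : 0 ≤ Bc)
    (hd1 : 1 + k2 ^ 2 + 2 * (w2 * s2) * (1 - k1 ^ 2) + 2 * k2 ^ 2 * (w2 * s2) ^ 2 ≤ d1)
    (hch : Bc * (2 * s2 - 0.02) ≤ 1 + k1 ^ 2 - Bc * (1 - s2))
    (hρ : (1.035 / 0.965) ^ 4 * d1 ≤ ρ ^ 4 * (1 + k1 ^ 2 - Bc * (1 - s2))) :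
    sD κ t ≤ d1 ∧ (1.035 / 0.965) ^ 4 * sD κ t ≤ ρ ^ 4 * ((1 + (s2 - s)) * sD κ (t - h)) := by
  have hk1 := B.k1p
  have hle := Q.hle
  have h0 := Q.h0
  have dd1 := Q.dom1 (by linarith only [hs1, hs3]) (by linarith only [hs2, hs3])
  have dd0 := Q.dom0 (by linarith only [hs1, hs3]) (by linarith only [hs2, hs3])
  have a1 := (Q.D1_le dd1 (by linarith only [hk1]) h1 h2 hk2 (by linarith only [hs1, hs3]) hs2 (B.kh Q h2)).trans hd1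
  have hr5 : (1 - s) * h ≤ 0.5 := by
    have := mul_le_mul_of_nonneg_right (by linarith only [hs1, hs3] : 1 - s ≤ 0.716) h0.le
    linarith only [this, hle]
  have a2 := Q.D0_ge dd0 (h2.trans hk2) (by linarith only [hs2, hs3]) hr5 hχ hB
  refine ⟨a1, ?_⟩
  have hkk : k1 ^ 2 ≤ κ ^ 2 := pow_le_pow_left₀ (by linarith only [hk1]) h1 2
  have hu : 0 ≤ s2 - s := by linarith only [hs2]
  have a3 : 1 + k1 ^ 2 - Bc * (1 - s2) ≤ (1 + (s2 - s)) * sD κ (t - h) := by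
    have a4 : 1 + k1 ^ 2 - Bc * (1 - s) ≤ sD κ (t - h) := by linarith only [a2, hkk]
    have a5 := mul_le_mul_of_nonneg_left a4 (by linarith only [hu] : 0 ≤ 1 + (s2 - s))
    refine le_trans ?_ a5
    have a6 : Bc * (1 + (s2 - s)) ≤ 1 + k1 ^ 2 - Bc * (1 - s2) := by
      refine le_trans (mul_le_mul_of_nonneg_left ?_ hB0) hch
      linarith only [hs1]
    have a7 := mul_le_mul_of_nonneg_left a6 hu
    linarith only [a7]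
  calc (1.035 / 0.965) ^ 4 * sD κ t ≤ (1.035 / 0.965) ^ 4 * d1 := mul_le_mul_of_nonneg_left a1 (by norm_num)
    _ ≤ ρ ^ 4 * (1 + k1 ^ 2 - Bc * (1 - s2)) := hρ
    _ ≤ ρ ^ 4 * ((1 + (s2 - s)) * sD κ (t - h)) := mul_le_mul_of_nonneg_left a3 (by positivity)

/-- `κ ≤ 1` -/
theorem BoxR.rhoB (B : BoxR k1 k2 s2 ψ w2 E P1 q cm G pf al X kR iR) (Q : QD T0 b h κ R t T s z)
    (h1 : k1 ≤ κ) (h2 : κ ≤ k2) (hk2 : k2 ≤ 1) (hs1 : 1.02 - s2 ≤ s) (hs2 : s ≤ s2) {d1 ρ : ℝ}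
    (hd1 : 1 + k2 ^ 2 + 2 * (w2 * s2) * (1 - k1 ^ 2) + 2 * k2 ^ 2 * (w2 * s2) ^ 2 ≤ d1)
    (hρ : (1.035 / 0.965) ^ 4 * d1 ≤ ρ ^ 4 * (1 + k1 ^ 2 - (1 - k1 ^ 2) ^ 2 / (2 * k1 ^ 2))) :
    sD κ t ≤ d1 ∧ (1.035 / 0.965) ^ 4 * sD κ t ≤ ρ ^ 4 * ((1 + (s2 - s)) * sD κ (t - h)) := by
  have hk1 := B.k1p
  have hs8 := B.hs8
  have dd1 := Q.dom1 (by linarith only [hs1, hs8]) (by linarith only [hs2, hs8])
  have dd0 := Q.dom0 (by linarith only [hs1, hs8]) (by linarith only [hs2, hs8])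
  have a1 := (Q.D1_le dd1 (by linarith only [hk1]) h1 h2 hk2 (by linarith only [hs1, hs8]) hs2 (B.kh Q h2)).trans hd1
  have a2 := Q.D0_ge2 dd0 (by linarith only [hs2, hs8])
  refine ⟨a1, ?_⟩
  have hkk : k1 ^ 2 ≤ κ ^ 2 := pow_le_pow_left₀ (by linarith only [hk1]) h1 2
  have hk11 : κ ^ 2 ≤ 1 := by
    have := pow_le_pow_left₀ Q.kpos.le (h2.trans hk2) 2
    linarith only [this]
  have hu : 0 ≤ s2 - s := by linarith only [hs2]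
  have a3 : 1 + k1 ^ 2 - (1 - k1 ^ 2) ^ 2 / (2 * k1 ^ 2) ≤ sD κ (t - h) := by
    refine le_trans ?_ a2
    have hk10 : 0 < k1 := by linarith only [hk1]
    have a4 : (1 - κ ^ 2) ^ 2 / (2 * κ ^ 2) ≤ (1 - k1 ^ 2) ^ 2 / (2 * k1 ^ 2) := by
      apply div_le_div₀ (by positivity) _ (by positivity) (by linarith only [hkk])
      exact pow_le_pow_left₀ (by linarith only [hk11]) (by linarith only [hkk]) 2
    linarith only [a4, hkk]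
  have hD0 := sD_pos dd0
  have a4 : sD κ (t - h) ≤ (1 + (s2 - s)) * sD κ (t - h) := by
    have := mul_nonneg hu hD0.le
    linarith only [this]
  calc (1.035 / 0.965) ^ 4 * sD κ t ≤ (1.035 / 0.965) ^ 4 * d1 := mul_le_mul_of_nonneg_left a1 (by norm_num)
    _ ≤ ρ ^ 4 * (1 + k1 ^ 2 - (1 - k1 ^ 2) ^ 2 / (2 * k1 ^ 2)) := hρ
    _ ≤ ρ ^ 4 * ((1 + (s2 - s)) * sD κ (t - h)) := mul_le_mul_of_nonneg_left (a3.trans a4) (by positivity)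

/-- `κ ≥ 1` -/
theorem BoxR.rhoC (B : BoxR k1 k2 s2 ψ w2 E P1 q cm G pf al X kR iR) (Q : QD T0 b h κ R t T s z)
    (h1 : k1 ≤ κ) (h2 : κ ≤ k2) (hk1 : 1 ≤ k1) (hs1 : 1.02 - s2 ≤ s) (hs2 : s ≤ s2) {d1 ρ rat : ℝ}
    (hd1 : 1 + k2 ^ 2 + 2 * k2 ^ 2 * (w2 * s2) ^ 2 ≤ d1)
    (hrat : 2 * k2 ^ 2 * (w2 * s2) ^ 2 ≤ (rat - 1) * (1 + k2 ^ 2))
    (hρ : (1.035 / 0.965) ^ 4 * rat ≤ ρ ^ 4) :
    sD κ t ≤ d1 ∧ (1.035 / 0.965) ^ 4 * sD κ t ≤ ρ ^ 4 * ((1 + (s2 - s)) * sD κ (t - h)) := by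
  have hs8 := B.hs8
  have hκ := Q.kpos
  have hA := Q.A1
  have dd1 := Q.dom1 (by linarith only [hs1, hs8]) (by linarith only [hs2, hs8])
  have dd0 := Q.dom0 (by linarith only [hs1, hs8]) (by linarith only [hs2, hs8])
  have a0 := Q.D1_le' dd1 (hk1.trans h1) (by linarith only [hs1, hs8]) hs2 (B.kh Q h2)
  have hkk : κ ^ 2 ≤ k2 ^ 2 := pow_le_pow_left₀ hκ.le h2 2
  have a2 := Q.D0_ge3 dd0 (by linarith only [hs2, hs8]) (hk1.trans h1)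
  have hy : 0 ≤ (w2 * s2) ^ 2 := sq_nonneg _
  generalize (w2 * s2) ^ 2 = y at *
  have hky : κ ^ 2 * y ≤ k2 ^ 2 * y := mul_le_mul_of_nonneg_right hkk hy
  refine ⟨by linarith only [a0, hd1, hkk, hky], ?_⟩
  have hu : 0 ≤ s2 - s := by linarith only [hs2]
  have hD0 := sD_pos dd0
  have a4 : sD κ (t - h) ≤ (1 + (s2 - s)) * sD κ (t - h) := by
    have := mul_nonneg hu hD0.le
    linarith only [this]
  have a5 : sD κ t ≤ rat * (1 + κ ^ 2) := by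
    have a6 : κ ^ 2 * (1 + k2 ^ 2) ≤ k2 ^ 2 * (1 + κ ^ 2) := by linarith only [hkk]
    have hA2 : 0 < 1 + k2 ^ 2 := by positivity
    have a7 : 2 * κ ^ 2 * y * (1 + k2 ^ 2) ≤ (rat - 1) * (1 + κ ^ 2) * (1 + k2 ^ 2) := by
      have a8 := mul_le_mul_of_nonneg_right a6 hy
      have a9 := mul_le_mul_of_nonneg_right hrat hA.le
      linarith only [a8, a9]
    have a10 := le_of_mul_le_mul_right a7 hA2
    linarith only [a10, a0]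
  have hrat0 : 0 ≤ rat := by
    have : 0 ≤ rat * (1 + κ ^ 2) := (sD_pos dd1).le.trans a5
    by_contra hcon
    push Not at hcon
    nlinarith only [this, hcon, hA]
  calc (1.035 / 0.965) ^ 4 * sD κ t ≤ (1.035 / 0.965) ^ 4 * (rat * (1 + κ ^ 2)) :=
        mul_le_mul_of_nonneg_left a5 (by norm_num)
    _ = (1.035 / 0.965) ^ 4 * rat * (1 + κ ^ 2) := by ring
    _ ≤ ρ ^ 4 * (1 + κ ^ 2) := mul_le_mul_of_nonneg_right hρ hA.le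
    _ ≤ ρ ^ 4 * ((1 + (s2 - s)) * sD κ (t - h)) := mul_le_mul_of_nonneg_left (a2.trans a4) (by positivity)

end rho

theorem chi_lo {κ k2 χ : ℝ} (h2 : κ ≤ k2) (h0 : 0 ≤ κ) (hχ : k2 * (1 - k2 ^ 2) ≤ χ * (1 + k2 ^ 2))
    (hd : 2 * χ * k2 + 3 * k2 ^ 2 ≤ 1) (hχ0 : 0 ≤ χ) : κ * (1 - κ ^ 2) ≤ χ * (1 + κ ^ 2) := by
  have h1 : 0 ≤ k2 - κ := by linarith only [h2]
  have h3 : χ * (κ + k2) ≤ 2 * χ * k2 := by nlinarith only [h2, hχ0]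
  have h4 : κ ^ 2 + κ * k2 + k2 ^ 2 ≤ 3 * k2 ^ 2 := by nlinarith only [h2, h0]
  have h5 := mul_nonneg h1 (by linarith only [h3, h4, hd] : 0 ≤ 1 - χ * (κ + k2) - (κ ^ 2 + κ * k2 + k2 ^ 2))
  linarith only [h5, hχ]

theorem chi_allF {κ : ℝ} (h0 : 0 ≤ κ) : κ * (1 - κ ^ 2) ≤ 0.3003 * (1 + κ ^ 2) := by
  nlinarith only [mul_nonneg (by linarith only [h0] : 0 ≤ κ + 1.2) (sq_nonneg (κ - 0.486)), h0, sq_nonneg (κ - 0.486)]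

theorem chi_hi {κ k1 χ : ℝ} (h1 : k1 ≤ κ) (hk : 0.49 ≤ k1) (hχ : k1 * (1 - k1 ^ 2) ≤ χ * (1 + k1 ^ 2))
    (hd : 1 ≤ 2 * χ * k1 + 3 * k1 ^ 2) (hχ0 : 0 ≤ χ) : κ * (1 - κ ^ 2) ≤ χ * (1 + κ ^ 2) := by
  have h2 : 0 ≤ κ - k1 := by linarith only [h1]
  have h3 : 2 * χ * k1 ≤ χ * (κ + k1) := by nlinarith only [h1, hχ0]
  have h4 : 3 * k1 ^ 2 ≤ κ ^ 2 + κ * k1 + k1 ^ 2 := by nlinarith only [h1, hk]
  have h5 := mul_nonneg h2 (by linarith only [h3, h4, hd] : 0 ≤ χ * (κ + k1) + (κ ^ 2 + κ * k1 + k1 ^ 2) - 1)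
  linarith only [h5, hχ]

section boxr

variable {b : ℕ} {h κ R t T s z : ℝ} {k1 k2 s2 ψ w2 E P1 q cm G pf al X kR iR : ℝ}

/-- the numbers of a box on the right -/
structure NumR (k1 k2 s2 w2 G pf al X kR iR c1 ρ g2 hu o δ oc : ℝ) : Prop where
  hc1 : 0 ≤ c1
  hρ : 0 ≤ ρ
  hg2 : s2 ^ 2 / 2 - 0.466 * (1 - s2) ^ 2 ≤ g2
  hg1 : g2 ≤ 1
  hhu : k2 ≤ 1 ∧ 1 / 1000 ≤ hu ∨ 1.05 ≤ hu
  ho : kR / 3 + 3.1416 * iR + w2 + kR + hu ≤ o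
  ho0 : 0 ≤ o
  hδ : k2 ≤ 1 ∧ δ = 0.05 ∨ δ = 0.21 ∧ 1.05 ≤ hu ∧ 1 ≤ k1
  hoc : kR / δ + δ + 3.1416 * iR + 1 + kR + hu ≤ oc
  hoc0 : 0 ≤ oc
  hA : ∃ e1 e2 e3 : ℝ, 0 ≤ 2 * (1 - g2) + s2 - s2 ^ 2 / 2 - (1 + G) / 2 ∧
    Real.exp (-(5.07 * (2 * (1 - g2) + s2 - s2 ^ 2 / 2 - (1 + G) / 2))) ≤ e1 ∧
    0 ≤ 2 * (1 - g2) + s2 - s2 ^ 2 / 2 - X ∧
    Real.exp (-(5.07 * (2 * (1 - g2) + s2 - s2 ^ 2 / 2 - X))) ≤ e2 ∧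
    0 ≤ 0.97 * (1 + k1 ^ 2) * 2.05174 - 2 * g2 - s2 ^ 2 / 2 ∧
    Real.exp (-(5.07 * (0.97 * (1 + k1 ^ 2) * 2.05174 - 2 * g2 - s2 ^ 2 / 2))) ≤ e3 ∧
    ρ ^ 2 * c1 * (pf * e1 + al * (1 + w2) * e2 + al * o * e3) ≤ 1 / 100
  hB : ∃ e1 e2 e3 : ℝ, 0 ≤ 3 * (1 - g2) + s2 - s2 ^ 2 / 2 - (1 + G) / 2 ∧
    Real.exp (-(5.07 * (3 * (1 - g2) + s2 - s2 ^ 2 / 2 - (1 + G) / 2))) ≤ e1 ∧
    0 ≤ 3 * (1 - g2) + s2 - s2 ^ 2 / 2 - X ∧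
    Real.exp (-(5.07 * (3 * (1 - g2) + s2 - s2 ^ 2 / 2 - X))) ≤ e2 ∧
    0 ≤ 2.88 - 3 * g2 - s2 ^ 2 / 2 ∧
    Real.exp (-(5.07 * (2.88 - 3 * g2 - s2 ^ 2 / 2))) ≤ e3 ∧
    ρ ^ 3 * c1 * (pf * e1 + al * (1 + w2) * e2 + al * o * e3) ≤ 1 / 500
  hg : ∃ eg : ℝ, Real.exp (-(5.07 * (1 - g2))) ≤ eg ∧ ρ * eg ≤ 1 / 4
  hC0 : ∃ e : ℝ, 0 ≤ (0.97 - δ) * (1 + k1 ^ 2) * 2.05174 - 2 * g2 - s2 ^ 2 / 2 ∧
    Real.exp (-(5.07 * ((0.97 - δ) * (1 + k1 ^ 2) * 2.05174 - 2 * g2 - s2 ^ 2 / 2))) ≤ e ∧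
    ρ ^ 2 * c1 * (al * oc * e) ≤ 1 / 100
  hC1 : ∃ e : ℝ, 0 ≤ (0.97 - δ) * (1 + k1 ^ 2) * 2.53302 - 3 * g2 - s2 ^ 2 / 2 ∧
    Real.exp (-(5.07 * ((0.97 - δ) * (1 + k1 ^ 2) * 2.53302 - 3 * g2 - s2 ^ 2 / 2))) ≤ e ∧
    ρ ^ 3 * c1 * (al * oc * e) ≤ 3 / 1000
  hC2 : ∃ e : ℝ, 0 ≤ (0.97 - δ) * (1 + k1 ^ 2) * 2.53302 - 4 * g2 - s2 ^ 2 / 2 ∧
    Real.exp (-(5.07 * ((0.97 - δ) * (1 + k1 ^ 2) * 2.53302 - 4 * g2 - s2 ^ 2 / 2))) ≤ e ∧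
    ρ ^ 4 * c1 * (al * oc * e) ≤ 11 / 2000
  hC3 : ∃ e : ℝ, 0 ≤ (0.97 - δ) * (1 + k1 ^ 2) * 3.6475 - 5 * g2 - s2 ^ 2 / 2 ∧
    Real.exp (-(5.07 * ((0.97 - δ) * (1 + k1 ^ 2) * 3.6475 - 5 * g2 - s2 ^ 2 / 2))) ≤ e ∧
    ρ ^ 5 * c1 * (al * oc * e) ≤ 1 / 8000
  hC4 : ∃ e : ℝ, 0 ≤ (0.97 - δ) * (1 + k1 ^ 2) * 4.2808 - 6 * g2 - s2 ^ 2 / 2 ∧
    Real.exp (-(5.07 * ((0.97 - δ) * (1 + k1 ^ 2) * 4.2808 - 6 * g2 - s2 ^ 2 / 2))) ≤ e ∧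
    ρ ^ 6 * c1 * (al * oc * e) ≤ 1 / 32000
  hC4' : 1 ≤ (0.97 - δ) * (1 + k1 ^ 2) * 1.317

theorem BoxR.right (B : BoxR k1 k2 s2 ψ w2 E P1 q cm G pf al X kR iR) (Q : QD 5.07 b h κ R t T s z)
    (h1 : k1 ≤ κ) (h2 : κ ≤ k2) {β : ℝ} (hβ : β = κ / R) (hs1 : 1.02 - s2 ≤ s) (hs2 : s ≤ s2)
    {W : ℕ → ℝ} {c1 ρ g2 : ℝ} (hW0 : ∀ n, 0 ≤ W n)
    (hW : ∀ n : ℕ, W n ≤ Real.exp (-R) * (ρ ^ (n + 2) * c1 * Real.exp (T * ((n + 2) * g2 + s2 ^ 2 / 2 - (s2 - s)))))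
    {hu o δ oc : ℝ} (N : NumR k1 k2 s2 w2 G pf al X kR iR c1 ρ g2 hu o δ oc)
    -- the three special cases
    (h41 : b = 9 → Real.pi / 2 < (((1 : ℕ) : ℝ) + 2 + s) * h - κ → ‖Xf β R h t (((1 : ℕ) : ℤ) + 3)‖ * W 1 ≤ 3 / 1000)
    (h51 : b = 9 → Real.pi / 2 < (((2 : ℕ) : ℝ) + 2 + s) * h - κ → ‖Xf β R h t (((2 : ℕ) : ℤ) + 3)‖ * W 2 ≤ 11 / 2000)
    (h61 : b = 11 → Real.pi / 2 < (((3 : ℕ) : ℝ) + 2 + s) * h - κ → ‖Xf β R h t (((3 : ℕ) : ℤ) + 3)‖ * W 3 ≤ 1 / 8000)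
    (n : ℕ) (hn : 2 * n + 5 ≤ b) :
    ‖Xf β R h t ((n : ℤ) + 3)‖ * W n ≤ Mfar ((n : ℤ) + 3) := by
  have hs8 := B.hs8
  have hs0 : 0.22 ≤ s := by linarith only [hs1, hs8]
  obtain ⟨hc1, hρ, hg2, hg1, hhu, ho, ho0, hδ, hoc, hoc0, ⟨a1, a2, a3, ha1, ha1', ha2, ha2', ha3, ha3', haM⟩,
    ⟨b1, b2, b3, hb1, hb1', hb2, hb2', hb3, hb3', hbM⟩, ⟨eg, heg, hρg⟩, ⟨c0, hc0, hc0', hc0M⟩, ⟨c1', hc1', hc1'', hc1M⟩,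
    ⟨c2, hc2, hc2', hc2M⟩, ⟨c3, hc3, hc3', hc3M⟩, ⟨c4, hc4, hc4', hc4M⟩, hC4⟩ := N
  rcases le_or_gt (((n : ℝ) + 2 + s) * h - κ) (Real.pi / 2) with ht | ht
  · rcases n with _ | m
    · exact B.right0 Q h1 h2 hβ (by linarith only [hs0]) hs2 hW0 hW hc1 hρ hhu ho ho0 ha1 ha1' ha2 ha2' ha3 ha3' haM ht
    · exact B.right1 Q h1 h2 hβ hs0 hs2 hW0 hW hc1 hρ hhu ho ho0 hg1 heg hρg hb1 hb1' hb2 hb2' hb3 hb3' hbM m ht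
  · rcases n with _ | _ | _ | _ | m
    · rw [Mfar_3]
      exact B.rightC Q h1 h2 hβ hs2 hW0 hW hc1 hρ hhu hδ hoc hoc0 0 hn ht (Z := 2.05174) (by norm_num) Q.zz
        (by push_cast; linarith only [hc0]) (by push_cast; rw [zero_add]; exact hc0') hc0M
    · rcases Nat.lt_or_ge b 10 with hb | hb
      · have hb9 : b = 9 := by have := Q.hb; omega
        rw [Mfar_4]
        exact h41 hb9 ht
      · have h10 : (10 : ℝ) ≤ b := by exact_mod_cast hb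
        have hZ := Q.z2_ge (by norm_num) h10
        rw [Mfar_4]
        exact B.rightC Q h1 h2 hβ hs2 hW0 hW hc1 hρ hhu hδ hoc hoc0 1 hn ht (Z := 2.53302) (by norm_num)
          (by linarith only [hZ]) (by push_cast; linarith only [hc1'])
          (by rw [show (((1 : ℕ) : ℝ) + 2) = 3 by norm_num]; exact hc1'') hc1M
    · rcases Nat.lt_or_ge b 10 with hb | hb
      · have hb9 : b = 9 := by have := Q.hb; omega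
        rw [Mfar_5]
        exact h51 hb9 ht
      · have h10 : (10 : ℝ) ≤ b := by exact_mod_cast hb
        have hZ := Q.z2_ge (by norm_num) h10
        rw [Mfar_5]
        exact B.rightC Q h1 h2 hβ hs2 hW0 hW hc1 hρ hhu hδ hoc hoc0 2 hn ht (Z := 2.53302) (by norm_num)
          (by linarith only [hZ]) (by push_cast; linarith only [hc2])
          (by rw [show (((2 : ℕ) : ℝ) + 2) = 4 by norm_num]; exact hc2') hc2M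
    · have e3 : Mfar (((3 : ℕ) : ℤ) + 3) = 1 / 8000 := by
        have := Mfar_ge 0
        simpa using this
      rcases Nat.lt_or_ge b 12 with hb | hb
      · have hb9 : b = 11 := by omega
        rw [e3]
        exact h61 hb9 ht
      · have h12 : (12 : ℝ) ≤ b := by exact_mod_cast hb
        have hZ := Q.z2_ge (by norm_num) h12
        rw [e3]
        exact B.rightC Q h1 h2 hβ hs2 hW0 hW hc1 hρ hhu hδ hoc hoc0 3 hn ht (Z := 3.6475) (by norm_num)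
          (by linarith only [hZ]) (by push_cast; linarith only [hc3])
          (by rw [show (((3 : ℕ) : ℝ) + 2) = 5 by norm_num]; exact hc3') hc3M
    · exact B.rightC4 Q h1 h2 hβ hs2 hW0 hW hc1 hρ hhu hδ hoc hoc0 hg1 heg hρg hC4 hc4 hc4' hc4M m hn ht

end boxr

end Sok
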