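import Pool.Agent.Lib.MP_816dec_an.R1FarG

/-!
MP_816dec_an (A3, row R1, `b ≥ 9`): far copies on the right on the discs, the boxes (generated file).
-/

set_option autoImplicit false

open Complex Set Filter Topology Metric

namespace Sok

/-- special case of the table of the copies on the right -/
def Spec (b0 n : ℕ) (M k1 k2 s2 c1 ρ g2 : ℝ) : Prop :=
  ∀ {b : ℕ} {h κ R t T s z β : ℝ} {W : ℕ → ℝ}, QD 5.07 b h κ R t T s z → k1 ≤ κ → κ ≤ k2 → β = κ / R →
    1.02 - s2 ≤ s → s ≤ s2 → (∀ n, 0 ≤ W n) →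
    (∀ n : ℕ, W n ≤ Real.exp (-R) * (ρ ^ (n + 2) * c1 * Real.exp (T * ((n + 2) * g2 + s2 ^ 2 / 2 - (s2 - s))))) →
    b = b0 → Real.pi / 2 < ((n : ℝ) + 2 + s) * h - κ → ‖Xf β R h t ((n : ℤ) + 3)‖ * W n ≤ M

section

variable {T0 : ℝ} {b : ℕ} {h κ R t T s z : ℝ}

theorem QD.hb' (Q : QD T0 b h κ R t T s z) : (b : ℝ) * h = 2 * Real.pi := by
  rw [← Q.hbz, mul_assoc, Q.hz, mul_one]

theorem QD.h9 (Q : QD T0 b h κ R t T s z) (hb : b = 9) : 0.69813 ≤ h ∧ h ≤ 0.69814 := by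
  have h1 := Q.hb'
  rw [hb] at h1
  push_cast at h1
  have hpi1 := Real.pi_gt_d6
  have hpi2 := Real.pi_lt_d6
  constructor <;> linarith

theorem QD.h11 (Q : QD T0 b h κ R t T s z) (hb : b = 11) : 0.57119 ≤ h ∧ h ≤ 0.57121 := by
  have h1 := Q.hb'
  rw [hb] at h1
  push_cast at h1
  have hpi1 := Real.pi_gt_d6
  have hpi2 := Real.pi_lt_d6
  constructor <;> linarith

theorem QD.z11 (Q : QD T0 b h κ R t T s z) (hb : b = 11) : 3.0649 ≤ z ^ 2 := by
  have h11 : (11 : ℝ) ≤ b := by rw [hb]; norm_num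
  have hZ := Q.z2_ge (by norm_num) h11
  linarith only [hZ]

end

theorem right_all {k1 k2 s2 ψ w2 E P1 q cm G pf al X kR iR : ℝ} (B : BoxR k1 k2 s2 ψ w2 E P1 q cm G pf al X kR iR)
    {d1 ρ g2 hu o δ oc : ℝ} (N : NumR k1 k2 s2 w2 G pf al X kR iR (d1 / 0.965) ρ g2 hu o δ oc)
    {b : ℕ} {h κ R t β G0 G1 : ℝ}
    (hrho : ∀ {T s z : ℝ}, QD 5.07 b h κ R t T s z → 1.02 - s2 ≤ s → s ≤ s2 →
      sD κ t ≤ d1 ^ 4 ∧ (1.035 / 0.965) ^ 4 * sD κ t ≤ ρ ^ 4 * ((1 + (s2 - s)) * sD κ (t - h)))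
    (S1 : Spec 9 1 (3 / 1000) k1 k2 s2 (d1 / 0.965) ρ g2) (S2 : Spec 9 2 (11 / 2000) k1 k2 s2 (d1 / 0.965) ρ g2)
    (S3 : Spec 11 3 (1 / 8000) k1 k2 s2 (d1 / 0.965) ρ g2)
    (H : DP b h κ R t) (hκ : 0.29 ≤ κ) (h1 : k1 ≤ κ) (h2 : κ ≤ k2)
    (hβ : β = κ / R) (g0 : 0 ≤ G0) (h0' : G0 ≤ 1.035 * sQ β κ (t - h)) (g1 : 0.965 * sQ β κ t ≤ G1)
    (n : ℕ) (hn : 2 * n + 5 ≤ b) :
    ‖Xf β R h t ((n : ℤ) + 3)‖ * (G0 ^ ((n : ℤ) + 3 - 1) * G1 ^ (-((n : ℤ) + 3))) ≤ Mfar ((n : ℤ) + 3) := by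
  obtain ⟨T, s, z, Q, hs1, hs2⟩ := H.qd hκ
  have hsg := B.sgm_le (κ := κ) (by linarith only [hκ]) h2
  have hs8 := B.hs8
  have hs1' : 1.02 - s2 ≤ s := by linarith only [hs1, hsg]
  have hs2' : s ≤ s2 := by linarith only [hs2, hsg]
  obtain ⟨r1, r2⟩ := hrho Q hs1' hs2'
  have hd10 : 0 ≤ d1 := by
    have := N.hc1
    have h3 := mul_nonneg this (by norm_num : (0:ℝ) ≤ 0.965)
    rwa [div_mul_cancel₀ _ (by norm_num)] at h3
  have dd1 := Q.dom1 (by linarith only [hs1', hs8]) (by linarith only [hs2', hs8])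
  have hG1 : 0 ≤ G1 := le_trans (mul_nonneg (by norm_num) (sQ_pos dd1).le) g1
  have hle := Q.hle
  have h0 := Q.h0
  have hr : (1 - s) * h ≤ 0.6 := by
    have := mul_le_mul_of_nonneg_right (by linarith only [hs1', hs8] : 1 - s ≤ 0.77) h0.le
    linarith only [this, hle]
  have hW : ∀ n : ℕ, G0 ^ ((n : ℤ) + 3 - 1) * G1 ^ (-((n : ℤ) + 3)) ≤
      Real.exp (-R) * (ρ ^ (n + 2) * (d1 / 0.965) * Real.exp (T * ((n + 2) * g2 + s2 ^ 2 / 2 - (s2 - s)))) :=
    Q.WR hβ (by linarith only [hs1', hs8]) hs2' (by linarith only [hs8]) hr h0' g0 g1 r1 hd10 r2 N.hρ N.hg2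
  have hW0 : ∀ n : ℕ, 0 ≤ G0 ^ ((n : ℤ) + 3 - 1) * G1 ^ (-((n : ℤ) + 3)) :=
    fun n => mul_nonneg (zpow_nonneg g0 _) (zpow_nonneg hG1 _)
  exact B.right Q h1 h2 hβ hs1' hs2' (W := fun n : ℕ => G0 ^ ((n : ℤ) + 3 - 1) * G1 ^ (-((n : ℤ) + 3))) hW0 hW N
    (fun hb ht => S1 Q h1 h2 hβ hs1' hs2' hW0 hW hb ht) (fun hb ht => S2 Q h1 h2 hβ hs1' hs2' hW0 hW hb ht)
    (fun hb ht => S3 Q h1 h2 hβ hs1' hs2' hW0 hW hb ht) n hn

theorem B1 : BoxR 0.29 0.32 0.7058 0.29028 0.20266 1.2249 0.64399 0.7889 0.6145 0.3481 3.211 1.835 0.51774 0.02791 0.08868 :=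
  ⟨by norm_num, by norm_num, by norm_num, by norm_num, by norm_num, Or.inl ⟨by norm_num, by norm_num⟩, by norm_num, by norm_num, by norm_num, by norm_num, by norm_num, by norm_num, by norm_num, by norm_num, by norm_num, by norm_num, by norm_num, by norm_num, Or.inr (by norm_num), by norm_num, by norm_num⟩

theorem rho1 {T0 : ℝ} {b : ℕ} {h κ R t T s z : ℝ} (Q : QD T0 b h κ R t T s z) (h1 : 0.29 ≤ κ) (h2 : κ ≤ 0.32)
    (hs1 : 1.02 - 0.7058 ≤ s) (hs2 : s ≤ 0.7058) :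
    sD κ t ≤ 1.0817 ^ 4 ∧ (1.035 / 0.965) ^ 4 * sD κ t ≤ 1.1792 ^ 4 * ((1 + (0.7058 - s)) * sD κ (t - h)) :=
  B1.rhoA Q h1 h2 (by norm_num) hs1 hs2 (by norm_num) (χ := 0.2606) (Bc := 0.4996) (chi_lo h2 Q.kpos.le (by norm_num) (by norm_num) (by norm_num)) (by norm_num) (by norm_num) (by norm_num) (by norm_num) (by norm_num)

theorem N1 : NumR 0.29 0.32 0.7058 0.20266 0.3481 3.211 1.835 0.51774 0.02791 0.08868 (1.0817 / 0.965) 1.1792 0.2088 0.001 0.5195 0.05 1.916 :=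
  ⟨by norm_num,
    by norm_num,
    by norm_num,
    by norm_num,
    Or.inl ⟨by norm_num, by norm_num⟩,
    by norm_num,
    by norm_num,
    Or.inl ⟨by norm_num, by norm_num⟩,
    by norm_num,
    by norm_num,
    ⟨0.0009988, 0.0004481, 0.000522, by norm_num, (exp_num' 6 (f := 0.9209) (by norm_num) (by norm_num) (by norm_num)), by norm_num, (exp_num' 7 (f := 0.7134) (by norm_num) (by norm_num) (by norm_num)), by norm_num, (exp_num' 7 (f := 0.5587) (by norm_num) (by norm_num) (by norm_num)), by norm_num⟩,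
    ⟨0.00001811, 0.000008117, 0.00003858, by norm_num, (exp_num' 10 (f := 0.9323) (by norm_num) (by norm_num) (by norm_num)), by norm_num, (exp_num' 11 (f := 0.7247) (by norm_num) (by norm_num) (by norm_num)), by norm_num, (exp_num' 10 (f := 0.1629) (by norm_num) (by norm_num) (by norm_num)), by norm_num⟩,
    ⟨0.01811, (exp_num' 4 (f := 0.0113) (by norm_num) (by norm_num) (by norm_num)), by norm_num⟩,
    ⟨0.0009338, by norm_num, (exp_num' 6 (f := 0.9949) (by norm_num) (by norm_num) (by norm_num)), by norm_num⟩,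
    ⟨0.0002318, by norm_num, (exp_num' 8 (f := 0.3699) (by norm_num) (by norm_num) (by norm_num)), by norm_num⟩,
    ⟨0.000668, by norm_num, (exp_num' 7 (f := 0.3113) (by norm_num) (by norm_num) (by norm_num)), by norm_num⟩,
    ⟨0.000006938, by norm_num, (exp_num' 11 (f := 0.8883) (by norm_num) (by norm_num) (by norm_num)), by norm_num⟩,
    ⟨0.0000008053, by norm_num, (exp_num' 14 (f := 0.0321) (by norm_num) (by norm_num) (by norm_num)), by norm_num⟩,
    by norm_num⟩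

theorem S1_1 : Spec 9 1 (3 / 1000) 0.29 0.32 0.7058 (1.0817 / 0.965) 1.1792 0.2088 := by
  intro b h κ R t T s z β W Q h1 h2 hβ hs1 hs2 hW0 hW hb ht
  exact B1.rightF Q h1 h2 hβ hs1 hs2 hW0 hW N1.hc1 N1.hρ (by norm_num) 1 (by omega) (Q.h9 hb).1 (Q.h9 hb).2 (by norm_num)
    (d0 := 0.4229) (m := 4.626) (L := 0.00213) (R0 := 11.277) (ou := 0.2534) (Z := 2.05174) (e := 0.001884) (by norm_num) (by norm_num) (by norm_num)
    (by norm_num) (by norm_num) (by norm_num) (by norm_num) (by norm_num)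
    (exp_num' 4 (f := 0.626) (by norm_num) (by norm_num) (by norm_num)) (by norm_num) (by norm_num) (by norm_num) (Q.zz)
    (by norm_num) (by norm_num1; exact (exp_num' 6 (f := 0.2746) (by norm_num) (by norm_num) (by norm_num))) (by norm_num)

theorem S1_2 : Spec 9 2 (11 / 2000) 0.29 0.32 0.7058 (1.0817 / 0.965) 1.1792 0.2088 := by
  intro b h κ R t T s z β W Q h1 h2 hβ hs1 hs2 hW0 hW hb ht
  exact B1.rightF Q h1 h2 hβ hs1 hs2 hW0 hW N1.hc1 N1.hρ (by norm_num) 2 (by omega) (Q.h9 hb).1 (Q.h9 hb).2 (by norm_num)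
    (d0 := 1.121) (m := 9.993) (L := 0.00000467) (R0 := 11.277) (ou := 0.2127) (Z := 2.05174) (e := 0.00543) (by norm_num) (by norm_num) (by norm_num)
    (by norm_num) (by norm_num) (by norm_num) (by norm_num) (by norm_num)
    (exp_num' 9 (f := 0.993) (by norm_num) (by norm_num) (by norm_num)) (by norm_num) (by norm_num) (by norm_num) (Q.zz)
    (by norm_num) (by norm_num1; exact (exp_num' 5 (f := 0.216) (by norm_num) (by norm_num) (by norm_num))) (by norm_num)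

theorem S1_3 : Spec 11 3 (1 / 8000) 0.29 0.32 0.7058 (1.0817 / 0.965) 1.1792 0.2088 := by
  intro b h κ R t T s z β W Q h1 h2 hβ hs1 hs2 hW0 hW hb ht
  exact B1.rightF Q h1 h2 hβ hs1 hs2 hW0 hW N1.hc1 N1.hρ (by norm_num) 3 (by omega) (Q.h11 hb).1 (Q.h11 hb).2 (by norm_num)
    (d0 := 1.1446) (m := 15.07) (L := 0.000000019) (R0 := 16.845) (ou := 0.2122) (Z := 3.0649) (e := 0.0000789) (by norm_num) (by norm_num) (by norm_num)
    (by norm_num) (by norm_num) (by norm_num) (by norm_num) (by norm_num)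
    (exp_num' 15 (f := 0.07) (by norm_num) (by norm_num) (by norm_num)) (by norm_num) (by norm_num) (by norm_num) (Q.z11 hb)
    (by norm_num) (by norm_num1; exact (exp_num' 9 (f := 0.4476) (by norm_num) (by norm_num) (by norm_num))) (by norm_num)

theorem farR1 {b : ℕ} {h κ R t β G0 G1 : ℝ} (H : DP b h κ R t) (hκ : 0.29 ≤ κ) (h1 : 0.29 ≤ κ) (h2 : κ ≤ 0.32)
    (hβ : β = κ / R) (g0 : 0 ≤ G0) (h0' : G0 ≤ 1.035 * sQ β κ (t - h)) (g1 : 0.965 * sQ β κ t ≤ G1)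
    (n : ℕ) (hn : 2 * n + 5 ≤ b) :
    ‖Xf β R h t ((n : ℤ) + 3)‖ * (G0 ^ ((n : ℤ) + 3 - 1) * G1 ^ (-((n : ℤ) + 3))) ≤ Mfar ((n : ℤ) + 3) :=
  right_all B1 N1 (fun Q hs1 hs2 => rho1 Q h1 h2 hs1 hs2) S1_1 S1_2 S1_3 H hκ h1 h2 hβ g0 h0' g1 n hn

theorem B2 : BoxR 0.32 0.35 0.7069 0.31181 0.21769 1.2435 0.6333 0.7876 0.6161 0.3608 3.076 1.747 0.51774 0.02998 0.08721 :=
  ⟨by norm_num, by norm_num, by norm_num, by norm_num, by norm_num, Or.inl ⟨by norm_num, by norm_num⟩, by norm_num, by norm_num, by norm_num, by norm_num, by norm_num, by norm_num, by norm_num, by norm_num, by norm_num, by norm_num, by norm_num, by norm_num, Or.inr (by norm_num), by norm_num, by norm_num⟩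

theorem rho2 {T0 : ℝ} {b : ℕ} {h κ R t T s z : ℝ} (Q : QD T0 b h κ R t T s z) (h1 : 0.32 ≤ κ) (h2 : κ ≤ 0.35)
    (hs1 : 1.02 - 0.7069 ≤ s) (hs2 : s ≤ 0.7069) :
    sD κ t ≤ 1.0887 ^ 4 ∧ (1.035 / 0.965) ^ 4 * sD κ t ≤ 1.1832 ^ 4 * ((1 + (0.7069 - s)) * sD κ (t - h)) :=
  B2.rhoA Q h1 h2 (by norm_num) hs1 hs2 (by norm_num) (χ := 0.2737) (Bc := 0.5248) (chi_lo h2 Q.kpos.le (by norm_num) (by norm_num) (by norm_num)) (by norm_num) (by norm_num) (by norm_num) (by norm_num) (by norm_num)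

theorem N2 : NumR 0.32 0.35 0.7069 0.21769 0.3608 3.076 1.747 0.51774 0.02998 0.08721 (1.0887 / 0.965) 1.1832 0.2099 0.001 0.5327 0.05 1.955 :=
  ⟨by norm_num,
    by norm_num,
    by norm_num,
    by norm_num,
    Or.inl ⟨by norm_num, by norm_num⟩,
    by norm_num,
    by norm_num,
    Or.inl ⟨by norm_num, by norm_num⟩,
    by norm_num,
    by norm_num,
    ⟨0.001039, 0.0004523, 0.0004416, by norm_num, (exp_num' 6 (f := 0.8792) (by norm_num) (by norm_num) (by norm_num)), by norm_num, (exp_num' 7 (f := 0.7038) (by norm_num) (by norm_num) (by norm_num)), by norm_num, (exp_num' 7 (f := 0.7283) (by norm_num) (by norm_num) (by norm_num)), by norm_num⟩,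
    ⟨0.00001892, 0.000008237, 0.00003939, by norm_num, (exp_num' 10 (f := 0.885) (by norm_num) (by norm_num) (by norm_num)), by norm_num, (exp_num' 11 (f := 0.7097) (by norm_num) (by norm_num) (by norm_num)), by norm_num, (exp_num' 10 (f := 0.1422) (by norm_num) (by norm_num) (by norm_num)), by norm_num⟩,
    ⟨0.01821, (exp_num' 4 (f := 0.0058) (by norm_num) (by norm_num) (by norm_num)), by norm_num⟩,
    ⟨0.0007811, by norm_num, (exp_num' 7 (f := 0.1549) (by norm_num) (by norm_num) (by norm_num)), by norm_num⟩,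
    ⟨0.0001908, by norm_num, (exp_num' 8 (f := 0.5655) (by norm_num) (by norm_num) (by norm_num)), by norm_num⟩,
    ⟨0.0005526, by norm_num, (exp_num' 7 (f := 0.5013) (by norm_num) (by norm_num) (by norm_num)), by norm_num⟩,
    ⟨0.000005196, by norm_num, (exp_num' 12 (f := 0.1678) (by norm_num) (by norm_num) (by norm_num)), by norm_num⟩,
    ⟨0.0000005802, by norm_num, (exp_num' 14 (f := 0.3601) (by norm_num) (by norm_num) (by norm_num)), by norm_num⟩,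
    by norm_num⟩

theorem S2_1 : Spec 9 1 (3 / 1000) 0.32 0.35 0.7069 (1.0887 / 0.965) 1.1832 0.2099 := by
  intro b h κ R t T s z β W Q h1 h2 hβ hs1 hs2 hW0 hW hb ht
  exact B2.rightF Q h1 h2 hβ hs1 hs2 hW0 hW N2.hc1 N2.hρ (by norm_num) 1 (by omega) (Q.h9 hb).1 (Q.h9 hb).2 (by norm_num)
    (d0 := 0.3921) (m := 4.381) (L := 0.00286) (R0 := 11.467) (ou := 0.2636) (Z := 2.05174) (e := 0.001606) (by norm_num) (by norm_num) (by norm_num)
    (by norm_num) (by norm_num) (by norm_num) (by norm_num) (by norm_num)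
    (exp_num' 4 (f := 0.381) (by norm_num) (by norm_num) (by norm_num)) (by norm_num) (by norm_num) (by norm_num) (Q.zz)
    (by norm_num) (by norm_num1; exact (exp_num' 6 (f := 0.4348) (by norm_num) (by norm_num) (by norm_num))) (by norm_num)

theorem S2_2 : Spec 9 2 (11 / 2000) 0.32 0.35 0.7069 (1.0887 / 0.965) 1.1832 0.2099 := by
  intro b h κ R t T s z β W Q h1 h2 hβ hs1 hs2 hW0 hW hb ht
  exact B2.rightF Q h1 h2 hβ hs1 hs2 hW0 hW N2.hc1 N2.hρ (by norm_num) 2 (by omega) (Q.h9 hb).1 (Q.h9 hb).2 (by norm_num)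
    (d0 := 1.0903) (m := 10.025) (L := 0.00000442) (R0 := 11.467) (ou := 0.215) (Z := 2.05174) (e := 0.004652) (by norm_num) (by norm_num) (by norm_num)
    (by norm_num) (by norm_num) (by norm_num) (by norm_num) (by norm_num)
    (exp_num' 10 (f := 0.025) (by norm_num) (by norm_num) (by norm_num)) (by norm_num) (by norm_num) (by norm_num) (Q.zz)
    (by norm_num) (by norm_num1; exact (exp_num' 5 (f := 0.3706) (by norm_num) (by norm_num) (by norm_num))) (by norm_num)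

theorem S2_3 : Spec 11 3 (1 / 8000) 0.32 0.35 0.7069 (1.0887 / 0.965) 1.1832 0.2099 := by
  intro b h κ R t T s z β W Q h1 h2 hβ hs1 hs2 hW0 hW hb ht
  exact B2.rightF Q h1 h2 hβ hs1 hs2 hW0 hW N2.hc1 N2.hρ (by norm_num) 3 (by omega) (Q.h11 hb).1 (Q.h11 hb).2 (by norm_num)
    (d0 := 1.1139) (m := 15.135) (L := 0.0000000177) (R0 := 17.13) (ou := 0.2145) (Z := 3.0649) (e := 0.00006229) (by norm_num) (by norm_num) (by norm_num)
    (by norm_num) (by norm_num) (by norm_num) (by norm_num) (by norm_num)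
    (exp_num' 15 (f := 0.135) (by norm_num) (by norm_num) (by norm_num)) (by norm_num) (by norm_num) (by norm_num) (Q.z11 hb)
    (by norm_num) (by norm_num1; exact (exp_num' 9 (f := 0.686) (by norm_num) (by norm_num) (by norm_num))) (by norm_num)

theorem farR2 {b : ℕ} {h κ R t β G0 G1 : ℝ} (H : DP b h κ R t) (hκ : 0.29 ≤ κ) (h1 : 0.32 ≤ κ) (h2 : κ ≤ 0.35)
    (hβ : β = κ / R) (g0 : 0 ≤ G0) (h0' : G0 ≤ 1.035 * sQ β κ (t - h)) (g1 : 0.965 * sQ β κ t ≤ G1)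
    (n : ℕ) (hn : 2 * n + 5 ≤ b) :
    ‖Xf β R h t ((n : ℤ) + 3)‖ * (G0 ^ ((n : ℤ) + 3 - 1) * G1 ^ (-((n : ℤ) + 3))) ≤ Mfar ((n : ℤ) + 3) :=
  right_all B2 N2 (fun Q hs1 hs2 => rho2 Q h1 h2 hs1 hs2) S2_1 S2_2 S2_3 H hκ h1 h2 hβ g0 h0' g1 n hn

theorem B3 : BoxR 0.35 0.42 0.7097 0.35703 0.24926 1.2835 0.62196 0.7983 0.6022 0.3983 3.023 1.67 0.51774 0.03433 0.08565 :=
  ⟨by norm_num, by norm_num, by norm_num, by norm_num, by norm_num, Or.inl ⟨by norm_num, by norm_num⟩, by norm_num, by norm_num, by norm_num, by norm_num, by norm_num, by norm_num, by norm_num, by norm_num, by norm_num, by norm_num, by norm_num, by norm_num, Or.inr (by norm_num), by norm_num, by norm_num⟩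

theorem rho3 {T0 : ℝ} {b : ℕ} {h κ R t T s z : ℝ} (Q : QD T0 b h κ R t T s z) (h1 : 0.35 ≤ κ) (h2 : κ ≤ 0.42)
    (hs1 : 1.02 - 0.7097 ≤ s) (hs2 : s ≤ 0.7097) :
    sD κ t ≤ 1.1063 ^ 4 ∧ (1.035 / 0.965) ^ 4 * sD κ t ≤ 1.1991 ^ 4 * ((1 + (0.7097 - s)) * sD κ (t - h)) :=
  B3.rhoA Q h1 h2 (by norm_num) hs1 hs2 (by norm_num) (χ := 0.2941) (Bc := 0.5639) (chi_lo h2 Q.kpos.le (by norm_num) (by norm_num) (by norm_num)) (by norm_num) (by norm_num) (by norm_num) (by norm_num) (by norm_num)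

theorem N3 : NumR 0.35 0.42 0.7097 0.24926 0.3983 3.023 1.67 0.51774 0.03433 0.08565 (1.1063 / 0.965) 1.1991 0.2126 0.001 0.5652 0.05 2.042 :=
  ⟨by norm_num,
    by norm_num,
    by norm_num,
    by norm_num,
    Or.inl ⟨by norm_num, by norm_num⟩,
    by norm_num,
    by norm_num,
    Or.inl ⟨by norm_num, by norm_num⟩,
    by norm_num,
    by norm_num,
    ⟨0.001163, 0.0004627, 0.0003769, by norm_num, (exp_num' 6 (f := 0.7609) (by norm_num) (by norm_num) (by norm_num)), by norm_num, (exp_num' 7 (f := 0.6806) (by norm_num) (by norm_num) (by norm_num)), by norm_num, (exp_num' 7 (f := 0.8937) (by norm_num) (by norm_num) (by norm_num)), by norm_num⟩,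
    ⟨0.00002147, 0.000008541, 0.00004145, by norm_num, (exp_num' 10 (f := 0.753) (by norm_num) (by norm_num) (by norm_num)), by norm_num, (exp_num' 11 (f := 0.6727) (by norm_num) (by norm_num) (by norm_num)), by norm_num, (exp_num' 10 (f := 0.0911) (by norm_num) (by norm_num) (by norm_num)), by norm_num⟩,
    ⟨0.01881, (exp_num' 3 (f := 0.9921) (by norm_num) (by norm_num) (by norm_num)), by norm_num⟩,
    ⟨0.000669, by norm_num, (exp_num' 7 (f := 0.3098) (by norm_num) (by norm_num) (by norm_num)), by norm_num⟩,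
    ⟨0.0001588, by norm_num, (exp_num' 8 (f := 0.7518) (by norm_num) (by norm_num) (by norm_num)), by norm_num⟩,
    ⟨0.0004658, by norm_num, (exp_num' 7 (f := 0.674) (by norm_num) (by norm_num) (by norm_num)), by norm_num⟩,
    ⟨0.000003993, by norm_num, (exp_num' 12 (f := 0.4313) (by norm_num) (by norm_num) (by norm_num)), by norm_num⟩,
    ⟨0.0000004267, by norm_num, (exp_num' 14 (f := 0.6692) (by norm_num) (by norm_num) (by norm_num)), by norm_num⟩,
    by norm_num⟩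

theorem S3_1 : Spec 9 1 (3 / 1000) 0.35 0.42 0.7097 (1.1063 / 0.965) 1.1991 0.2126 := by
  intro b h κ R t T s z β W Q h1 h2 hβ hs1 hs2 hW0 hW hb ht
  exact B3.rightF Q h1 h2 hβ hs1 hs2 hW0 hW N3.hc1 N3.hρ (by norm_num) 1 (by omega) (Q.h9 hb).1 (Q.h9 hb).2 (by norm_num)
    (d0 := 0.3202) (m := 3.674) (L := 0.00693) (R0 := 11.676) (ou := 0.2978) (Z := 2.05174) (e := 0.001386) (by norm_num) (by norm_num) (by norm_num)
    (by norm_num) (by norm_num) (by norm_num) (by norm_num) (by norm_num)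
    (exp_num' 3 (f := 0.674) (by norm_num) (by norm_num) (by norm_num)) (by norm_num) (by norm_num) (by norm_num) (Q.zz)
    (by norm_num) (by norm_num1; exact (exp_num' 6 (f := 0.5823) (by norm_num) (by norm_num) (by norm_num))) (by norm_num)

theorem S3_2 : Spec 9 2 (11 / 2000) 0.35 0.42 0.7097 (1.1063 / 0.965) 1.1991 0.2126 := by
  intro b h κ R t T s z β W Q h1 h2 hβ hs1 hs2 hW0 hW hb ht
  exact B3.rightF Q h1 h2 hβ hs1 hs2 hW0 hW N3.hc1 N3.hρ (by norm_num) 2 (by omega) (Q.h9 hb).1 (Q.h9 hb).2 (by norm_num)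
    (d0 := 1.0183) (m := 9.834) (L := 0.00000549) (R0 := 11.676) (ou := 0.223) (Z := 2.05174) (e := 0.004071) (by norm_num) (by norm_num) (by norm_num)
    (by norm_num) (by norm_num) (by norm_num) (by norm_num) (by norm_num)
    (exp_num' 9 (f := 0.834) (by norm_num) (by norm_num) (by norm_num)) (by norm_num) (by norm_num) (by norm_num) (Q.zz)
    (by norm_num) (by norm_num1; exact (exp_num' 5 (f := 0.5044) (by norm_num) (by norm_num) (by norm_num))) (by norm_num)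

theorem S3_3 : Spec 11 3 (1 / 8000) 0.35 0.42 0.7097 (1.1063 / 0.965) 1.1991 0.2126 := by
  intro b h κ R t T s z β W Q h1 h2 hβ hs1 hs2 hW0 hW hb ht
  exact B3.rightF Q h1 h2 hβ hs1 hs2 hW0 hW N3.hc1 N3.hρ (by norm_num) 3 (by omega) (Q.h11 hb).1 (Q.h11 hb).2 (by norm_num)
    (d0 := 1.0423) (m := 14.888) (L := 0.0000000233) (R0 := 17.442) (ou := 0.2222) (Z := 3.0649) (e := 0.00005051) (by norm_num) (by norm_num) (by norm_num)
    (by norm_num) (by norm_num) (by norm_num) (by norm_num) (by norm_num)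
    (exp_num' 14 (f := 0.888) (by norm_num) (by norm_num) (by norm_num)) (by norm_num) (by norm_num) (by norm_num) (Q.z11 hb)
    (by norm_num) (by norm_num1; exact (exp_num' 9 (f := 0.9042) (by norm_num) (by norm_num) (by norm_num))) (by norm_num)

theorem farR3 {b : ℕ} {h κ R t β G0 G1 : ℝ} (H : DP b h κ R t) (hκ : 0.29 ≤ κ) (h1 : 0.35 ≤ κ) (h2 : κ ≤ 0.42)
    (hβ : β = κ / R) (g0 : 0 ≤ G0) (h0' : G0 ≤ 1.035 * sQ β κ (t - h)) (g1 : 0.965 * sQ β κ t ≤ G1)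
    (n : ℕ) (hn : 2 * n + 5 ≤ b) :
    ‖Xf β R h t ((n : ℤ) + 3)‖ * (G0 ^ ((n : ℤ) + 3 - 1) * G1 ^ (-((n : ℤ) + 3))) ≤ Mfar ((n : ℤ) + 3) :=
  right_all B3 N3 (fun Q hs1 hs2 => rho3 Q h1 h2 hs1 hs2) S3_1 S3_2 S3_3 H hκ h1 h2 hβ g0 h0' g1 n hn

theorem B4 : BoxR 0.42 0.5 0.7135 0.4 0.27926 1.3227 0.59346 0.785 0.6194 0.4129 2.762 1.525 0.5106 0.03846 0.08172 :=
  ⟨by norm_num, by norm_num, by norm_num, by norm_num, by norm_num, Or.inl ⟨by norm_num, by norm_num⟩, by norm_num, by norm_num, by norm_num, by norm_num, by norm_num, by norm_num, by norm_num, by norm_num, by norm_num, by norm_num, by norm_num, by norm_num, Or.inl ⟨by norm_num, by norm_num⟩, by norm_num, by norm_num⟩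

theorem rho4 {T0 : ℝ} {b : ℕ} {h κ R t T s z : ℝ} (Q : QD T0 b h κ R t T s z) (h1 : 0.42 ≤ κ) (h2 : κ ≤ 0.5)
    (hs1 : 1.02 - 0.7135 ≤ s) (hs2 : s ≤ 0.7135) :
    sD κ t ≤ 1.1244 ^ 4 ∧ (1.035 / 0.965) ^ 4 * sD κ t ≤ 1.2026 ^ 4 * ((1 + (0.7135 - s)) * sD κ (t - h)) :=
  B4.rhoA Q h1 h2 (by norm_num) hs1 hs2 (by norm_num) (χ := 0.3003) (Bc := 0.5758) (chi_allF Q.kpos.le) (by norm_num) (by norm_num) (by norm_num) (by norm_num) (by norm_num)

theorem N4 : NumR 0.42 0.5 0.7135 0.27926 0.4129 2.762 1.525 0.5106 0.03846 0.08172 (1.1244 / 0.965) 1.2026 0.2163 0.001 0.5883 0.05 2.116 :=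
  ⟨by norm_num,
    by norm_num,
    by norm_num,
    by norm_num,
    Or.inl ⟨by norm_num, by norm_num⟩,
    by norm_num,
    by norm_num,
    Or.inl ⟨by norm_num, by norm_num⟩,
    by norm_num,
    by norm_num,
    ⟨0.001244, 0.0004608, 0.000228, by norm_num, (exp_num' 6 (f := 0.6919) (by norm_num) (by norm_num) (by norm_num)), by norm_num, (exp_num' 7 (f := 0.6848) (by norm_num) (by norm_num) (by norm_num)), by norm_num, (exp_num' 8 (f := 0.3863) (by norm_num) (by norm_num) (by norm_num)), by norm_num⟩,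
    ⟨0.00002339, 0.000008664, 0.00004446, by norm_num, (exp_num' 10 (f := 0.6652) (by norm_num) (by norm_num) (by norm_num)), by norm_num, (exp_num' 11 (f := 0.6582) (by norm_num) (by norm_num) (by norm_num)), by norm_num, (exp_num' 10 (f := 0.0211) (by norm_num) (by norm_num) (by norm_num)), by norm_num⟩,
    ⟨0.01913, (exp_num' 3 (f := 0.9733) (by norm_num) (by norm_num) (by norm_num)), by norm_num⟩,
    ⟨0.0004222, by norm_num, (exp_num' 7 (f := 0.7745) (by norm_num) (by norm_num) (by norm_num)), by norm_num⟩,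
    ⟨0.00008974, by norm_num, (exp_num' 9 (f := 0.3187) (by norm_num) (by norm_num) (by norm_num)), by norm_num⟩,
    ⟨0.0002687, by norm_num, (exp_num' 8 (f := 0.2221) (by norm_num) (by norm_num) (by norm_num)), by norm_num⟩,
    ⟨0.000001777, by norm_num, (exp_num' 13 (f := 0.2408) (by norm_num) (by norm_num) (by norm_num)), by norm_num⟩,
    ⟨0.000000165, by norm_num, (exp_num' 15 (f := 0.6192) (by norm_num) (by norm_num) (by norm_num)), by norm_num⟩,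
    by norm_num⟩

theorem S4_1 : Spec 9 1 (3 / 1000) 0.42 0.5 0.7135 (1.1244 / 0.965) 1.2026 0.2163 := by
  intro b h κ R t T s z β W Q h1 h2 hβ hs1 hs2 hW0 hW hb ht
  exact B4.rightF Q h1 h2 hβ hs1 hs2 hW0 hW N4.hc1 N4.hρ (by norm_num) 1 (by omega) (Q.h9 hb).1 (Q.h9 hb).2 (by norm_num)
    (d0 := 0.2375) (m := 2.878) (L := 0.0198) (R0 := 12.237) (ou := 0.357) (Z := 2.05174) (e := 0.0008719) (by norm_num) (by norm_num) (by norm_num)
    (by norm_num) (by norm_num) (by norm_num) (by norm_num) (by norm_num)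
    (exp_num' 2 (f := 0.878) (by norm_num) (by norm_num) (by norm_num)) (by norm_num) (by norm_num) (by norm_num) (Q.zz)
    (by norm_num) (by norm_num1; exact (exp_num' 7 (f := 0.0449) (by norm_num) (by norm_num) (by norm_num))) (by norm_num)

theorem S4_2 : Spec 9 2 (11 / 2000) 0.42 0.5 0.7135 (1.1244 / 0.965) 1.2026 0.2163 := by
  intro b h κ R t T s z β W Q h1 h2 hβ hs1 hs2 hW0 hW hb ht
  exact B4.rightF Q h1 h2 hβ hs1 hs2 hW0 hW N4.hc1 N4.hρ (by norm_num) 2 (by omega) (Q.h9 hb).1 (Q.h9 hb).2 (by norm_num)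
    (d0 := 0.9356) (m := 9.778) (L := 0.00000583) (R0 := 12.237) (ou := 0.2281) (Z := 2.05174) (e := 0.002648) (by norm_num) (by norm_num) (by norm_num)
    (by norm_num) (by norm_num) (by norm_num) (by norm_num) (by norm_num)
    (exp_num' 9 (f := 0.778) (by norm_num) (by norm_num) (by norm_num)) (by norm_num) (by norm_num) (by norm_num) (Q.zz)
    (by norm_num) (by norm_num1; exact (exp_num' 5 (f := 0.9483) (by norm_num) (by norm_num) (by norm_num))) (by norm_num)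

theorem S4_3 : Spec 11 3 (1 / 8000) 0.42 0.5 0.7135 (1.1244 / 0.965) 1.2026 0.2163 := by
  intro b h κ R t T s z β W Q h1 h2 hβ hs1 hs2 hW0 hW hb ht
  exact B4.rightF Q h1 h2 hβ hs1 hs2 hW0 hW N4.hc1 N4.hρ (by norm_num) 3 (by omega) (Q.h11 hb).1 (Q.h11 hb).2 (by norm_num)
    (d0 := 0.9602) (m := 14.855) (L := 0.000000024) (R0 := 18.28) (ou := 0.2271) (Z := 3.0649) (e := 0.00002514) (by norm_num) (by norm_num) (by norm_num)
    (by norm_num) (by norm_num) (by norm_num) (by norm_num) (by norm_num)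
    (exp_num' 14 (f := 0.855) (by norm_num) (by norm_num) (by norm_num)) (by norm_num) (by norm_num) (by norm_num) (Q.z11 hb)
    (by norm_num) (by norm_num1; exact (exp_num' 10 (f := 0.5923) (by norm_num) (by norm_num) (by norm_num))) (by norm_num)

theorem farR4 {b : ℕ} {h κ R t β G0 G1 : ℝ} (H : DP b h κ R t) (hκ : 0.29 ≤ κ) (h1 : 0.42 ≤ κ) (h2 : κ ≤ 0.5)
    (hβ : β = κ / R) (g0 : 0 ≤ G0) (h0' : G0 ≤ 1.035 * sQ β κ (t - h)) (g1 : 0.965 * sQ β κ t ≤ G1)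
    (n : ℕ) (hn : 2 * n + 5 ≤ b) :
    ‖Xf β R h t ((n : ℤ) + 3)‖ * (G0 ^ ((n : ℤ) + 3 - 1) * G1 ^ (-((n : ℤ) + 3))) ≤ Mfar ((n : ℤ) + 3) :=
  right_all B4 N4 (fun Q hs1 hs2 => rho4 Q h1 h2 hs1 hs2) S4_1 S4_2 S4_3 H hκ h1 h2 hβ g0 h0' g1 n hn

theorem B5 : BoxR 0.5 0.6 0.719 0.44118 0.30801 1.3613 0.55852 0.7604 0.6494 0.415 2.508 1.398 0.4787 0.04242 0.07691 :=
  ⟨by norm_num, by norm_num, by norm_num, by norm_num, by norm_num, Or.inl ⟨by norm_num, by norm_num⟩, by norm_num, by norm_num, by norm_num, by norm_num, by norm_num, by norm_num, by norm_num, by norm_num, by norm_num, by norm_num, by norm_num, by norm_num, Or.inl ⟨by norm_num, by norm_num⟩, by norm_num, by norm_num⟩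

theorem rho5 {T0 : ℝ} {b : ℕ} {h κ R t T s z : ℝ} (Q : QD T0 b h κ R t T s z) (h1 : 0.5 ≤ κ) (h2 : κ ≤ 0.6)
    (hs1 : 1.02 - 0.719 ≤ s) (hs2 : s ≤ 0.719) :
    sD κ t ≤ 1.1465 ^ 4 ∧ (1.035 / 0.965) ^ 4 * sD κ t ≤ 1.204 ^ 4 * ((1 + (0.719 - s)) * sD κ (t - h)) :=
  B5.rhoA Q h1 h2 (by norm_num) hs1 hs2 (by norm_num) (χ := 0.3) (Bc := 0.5752) (chi_hi h1 (by norm_num) (by norm_num) (by norm_num) (by norm_num)) (by norm_num) (by norm_num) (by norm_num) (by norm_num) (by norm_num)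

theorem N5 : NumR 0.5 0.6 0.719 0.30801 0.415 2.508 1.398 0.4787 0.04242 0.07691 (1.1465 / 0.965) 1.204 0.2217 0.001 0.6072 0.05 2.184 :=
  ⟨by norm_num,
    by norm_num,
    by norm_num,
    by norm_num,
    Or.inl ⟨by norm_num, by norm_num⟩,
    by norm_num,
    by norm_num,
    Or.inl ⟨by norm_num, by norm_num⟩,
    by norm_num,
    by norm_num,
    ⟨0.00131, 0.0004121, 0.000117, by norm_num, (exp_num' 6 (f := 0.6397) (by norm_num) (by norm_num) (by norm_num)), by norm_num, (exp_num' 7 (f := 0.7997) (by norm_num) (by norm_num) (by norm_num)), by norm_num, (exp_num' 9 (f := 0.0542) (by norm_num) (by norm_num) (by norm_num)), by norm_num⟩,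
    ⟨0.0000253, 0.000007952, 0.00004982, by norm_num, (exp_num' 10 (f := 0.5857) (by norm_num) (by norm_num) (by norm_num)), by norm_num, (exp_num' 11 (f := 0.7457) (by norm_num) (by norm_num) (by norm_num)), by norm_num, (exp_num' 9 (f := 0.919) (by norm_num) (by norm_num) (by norm_num)), by norm_num⟩,
    ⟨0.01961, (exp_num' 3 (f := 0.9459) (by norm_num) (by norm_num) (by norm_num)), by norm_num⟩,
    ⟨0.000224, by norm_num, (exp_num' 8 (f := 0.4041) (by norm_num) (by norm_num) (by norm_num)), by norm_num⟩,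
    ⟨0.00004166, by norm_num, (exp_num' 10 (f := 0.0862) (by norm_num) (by norm_num) (by norm_num)), by norm_num⟩,
    ⟨0.0001302, by norm_num, (exp_num' 8 (f := 0.9622) (by norm_num) (by norm_num) (by norm_num)), by norm_num⟩,
    ⟨0.0000005943, by norm_num, (exp_num' 14 (f := 0.3361) (by norm_num) (by norm_num) (by norm_num)), by norm_num⟩,
    ⟨0.00000004605, by norm_num, (exp_num' 16 (f := 0.9045) (by norm_num) (by norm_num) (by norm_num)), by norm_num⟩,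
    by norm_num⟩

theorem S5_1 : Spec 9 1 (3 / 1000) 0.5 0.6 0.719 (1.1465 / 0.965) 1.204 0.2217 := by
  intro b h κ R t T s z β W Q h1 h2 hβ hs1 hs2 hW0 hW hb ht
  exact B5.rightF Q h1 h2 hβ hs1 hs2 hW0 hW N5.hc1 N5.hρ (by norm_num) 1 (by omega) (Q.h9 hb).1 (Q.h9 hb).2 (by norm_num)
    (d0 := 0.1337) (m := 1.733) (L := 0.103) (R0 := 13.002) (ou := 0.5633) (Z := 2.05174) (e := 0.0004675) (by norm_num) (by norm_num) (by norm_num)
    (by norm_num) (by norm_num) (by norm_num) (by norm_num) (by norm_num)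
    (exp_num' 1 (f := 0.733) (by norm_num) (by norm_num) (by norm_num)) (by norm_num) (by norm_num) (by norm_num) (Q.zz)
    (by norm_num) (by norm_num1; exact (exp_num' 7 (f := 0.6702) (by norm_num) (by norm_num) (by norm_num))) (by norm_num)

theorem S5_2 : Spec 9 2 (11 / 2000) 0.5 0.6 0.719 (1.1465 / 0.965) 1.204 0.2217 := by
  intro b h κ R t T s z β W Q h1 h2 hβ hs1 hs2 hW0 hW hb ht
  exact B5.rightF Q h1 h2 hβ hs1 hs2 hW0 hW N5.hc1 N5.hρ (by norm_num) 2 (by omega) (Q.h9 hb).1 (Q.h9 hb).2 (by norm_num)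
    (d0 := 0.8318) (m := 9.567) (L := 0.00000733) (R0 := 13.002) (ou := 0.2341) (Z := 2.05174) (e := 0.001437) (by norm_num) (by norm_num) (by norm_num)
    (by norm_num) (by norm_num) (by norm_num) (by norm_num) (by norm_num)
    (exp_num' 9 (f := 0.567) (by norm_num) (by norm_num) (by norm_num)) (by norm_num) (by norm_num) (by norm_num) (Q.zz)
    (by norm_num) (by norm_num1; exact (exp_num' 6 (f := 0.5461) (by norm_num) (by norm_num) (by norm_num))) (by norm_num)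

theorem S5_3 : Spec 11 3 (1 / 8000) 0.5 0.6 0.719 (1.1465 / 0.965) 1.204 0.2217 := by
  intro b h κ R t T s z β W Q h1 h2 hβ hs1 hs2 hW0 hW hb ht
  exact B5.rightF Q h1 h2 hβ hs1 hs2 hW0 hW N5.hc1 N5.hρ (by norm_num) 3 (by omega) (Q.h11 hb).1 (Q.h11 hb).2 (by norm_num)
    (d0 := 0.857) (m := 14.607) (L := 0.0000000311) (R0 := 19.423) (ou := 0.2326) (Z := 3.0649) (e := 0.000009915) (by norm_num) (by norm_num) (by norm_num)
    (by norm_num) (by norm_num) (by norm_num) (by norm_num) (by norm_num)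
    (exp_num' 14 (f := 0.607) (by norm_num) (by norm_num) (by norm_num)) (by norm_num) (by norm_num) (by norm_num) (Q.z11 hb)
    (by norm_num) (by norm_num1; exact (exp_num' 11 (f := 0.522) (by norm_num) (by norm_num) (by norm_num))) (by norm_num)

theorem farR5 {b : ℕ} {h κ R t β G0 G1 : ℝ} (H : DP b h κ R t) (hκ : 0.29 ≤ κ) (h1 : 0.5 ≤ κ) (h2 : κ ≤ 0.6)
    (hβ : β = κ / R) (g0 : 0 ≤ G0) (h0' : G0 ≤ 1.035 * sQ β κ (t - h)) (g1 : 0.965 * sQ β κ t ≤ G1)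
    (n : ℕ) (hn : 2 * n + 5 ≤ b) :
    ‖Xf β R h t ((n : ℤ) + 3)‖ * (G0 ^ ((n : ℤ) + 3 - 1) * G1 ^ (-((n : ℤ) + 3))) ≤ Mfar ((n : ℤ) + 3) :=
  right_all B5 N5 (fun Q hs1 hs2 => rho5 Q h1 h2 hs1 hs2) S5_1 S5_2 S5_3 H hκ h1 h2 hβ g0 h0' g1 n hn

theorem B6 : BoxR 0.6 0.7 0.7251 0.4698 0.32799 1.3889 0.51334 0.713 0.7011 0.3898 2.226 1.276 0.403 0.04517 0.07069 :=
  ⟨by norm_num, by norm_num, by norm_num, by norm_num, by norm_num, Or.inl ⟨by norm_num, by norm_num⟩, by norm_num, by norm_num, by norm_num, by norm_num, by norm_num, by norm_num, by norm_num, by norm_num, by norm_num, by norm_num, by norm_num, by norm_num, Or.inl ⟨by norm_num, by norm_num⟩, by norm_num, by norm_num⟩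

theorem rho6 {T0 : ℝ} {b : ℕ} {h κ R t T s z : ℝ} (Q : QD T0 b h κ R t T s z) (h1 : 0.6 ≤ κ) (h2 : κ ≤ 0.7)
    (hs1 : 1.02 - 0.7251 ≤ s) (hs2 : s ≤ 0.7251) :
    sD κ t ≤ 1.1663 ^ 4 ∧ (1.035 / 0.965) ^ 4 * sD κ t ≤ 1.1925 ^ 4 * ((1 + (0.7251 - s)) * sD κ (t - h)) :=
  B6.rhoA Q h1 h2 (by norm_num) hs1 hs2 (by norm_num) (χ := 0.2824) (Bc := 0.5414) (chi_hi h1 (by norm_num) (by norm_num) (by norm_num) (by norm_num)) (by norm_num) (by norm_num) (by norm_num) (by norm_num) (by norm_num)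

theorem N6 : NumR 0.6 0.7 0.7251 0.32799 0.3898 2.226 1.276 0.403 0.04517 0.07069 (1.1663 / 0.965) 1.1925 0.2277 0.001 0.6113 0.05 2.222 :=
  ⟨by norm_num,
    by norm_num,
    by norm_num,
    by norm_num,
    Or.inl ⟨by norm_num, by norm_num⟩,
    by norm_num,
    by norm_num,
    Or.inl ⟨by norm_num, by norm_num⟩,
    by norm_num,
    by norm_num,
    ⟨0.001295, 0.0002942, 0.00004187, by norm_num, (exp_num' 6 (f := 0.6514) (by norm_num) (by norm_num) (by norm_num)), by norm_num, (exp_num' 8 (f := 0.1313) (by norm_num) (by norm_num) (by norm_num)), by norm_num, (exp_num' 10 (f := 0.081) (by norm_num) (by norm_num) (by norm_num)), by norm_num⟩,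
    ⟨0.00002578, 0.000005863, 0.00005547, by norm_num, (exp_num' 10 (f := 0.5669) (by norm_num) (by norm_num) (by norm_num)), by norm_num, (exp_num' 12 (f := 0.0469) (by norm_num) (by norm_num) (by norm_num)), by norm_num, (exp_num' 9 (f := 0.8054) (by norm_num) (by norm_num) (by norm_num)), by norm_num⟩,
    ⟨0.02017, (exp_num' 3 (f := 0.9155) (by norm_num) (by norm_num) (by norm_num)), by norm_num⟩,
    ⟨0.00008495, by norm_num, (exp_num' 9 (f := 0.3736) (by norm_num) (by norm_num) (by norm_num)), by norm_num⟩,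
    ⟨0.00001273, by norm_num, (exp_num' 11 (f := 0.2722) (by norm_num) (by norm_num) (by norm_num)), by norm_num⟩,
    ⟨0.00004036, by norm_num, (exp_num' 10 (f := 0.1178) (by norm_num) (by norm_num) (by norm_num)), by norm_num⟩,
    ⟨0.0000001089, by norm_num, (exp_num' 16 (f := 0.0332) (by norm_num) (by norm_num) (by norm_num)), by norm_num⟩,
    ⟨0.000000006281, by norm_num, (exp_num' 18 (f := 0.8961) (by norm_num) (by norm_num) (by norm_num)), by norm_num⟩,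
    by norm_num⟩

theorem S6_1 : Spec 9 1 (3 / 1000) 0.6 0.7 0.7251 (1.1663 / 0.965) 1.1925 0.2277 := by
  intro b h κ R t T s z β W Q h1 h2 hβ hs1 hs2 hW0 hW hb ht
  exact B6.rightC Q h1 h2 hβ hs2 hW0 hW N6.hc1 N6.hρ N6.hhu N6.hδ N6.hoc N6.hoc0 1 (by omega) ht
    (Z := 2.05174) (by norm_num) (Q.zz) (by norm_num) (e := 0.0002695) (by norm_num1; exact (exp_num' 8 (f := 0.2192) (by norm_num) (by norm_num) (by norm_num))) (by norm_num)

theorem S6_2 : Spec 9 2 (11 / 2000) 0.6 0.7 0.7251 (1.1663 / 0.965) 1.1925 0.2277 := by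
  intro b h κ R t T s z β W Q h1 h2 hβ hs1 hs2 hW0 hW hb ht
  exact B6.rightF Q h1 h2 hβ hs1 hs2 hW0 hW N6.hc1 N6.hρ (by norm_num) 2 (by omega) (Q.h9 hb).1 (Q.h9 hb).2 (by norm_num)
    (d0 := 0.7275) (m := 9.384) (L := 0.00000896) (R0 := 14.147) (ou := 0.2377) (Z := 2.05174) (e := 0.0005593) (by norm_num) (by norm_num) (by norm_num)
    (by norm_num) (by norm_num) (by norm_num) (by norm_num) (by norm_num)
    (exp_num' 9 (f := 0.384) (by norm_num) (by norm_num) (by norm_num)) (by norm_num) (by norm_num) (by norm_num) (Q.zz)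
    (by norm_num) (by norm_num1; exact (exp_num' 7 (f := 0.4892) (by norm_num) (by norm_num) (by norm_num))) (by norm_num)

theorem S6_3 : Spec 11 3 (1 / 8000) 0.6 0.7 0.7251 (1.1663 / 0.965) 1.1925 0.2277 := by
  intro b h κ R t T s z β W Q h1 h2 hβ hs1 hs2 hW0 hW hb ht
  exact B6.rightC Q h1 h2 hβ hs2 hW0 hW N6.hc1 N6.hρ N6.hhu N6.hδ N6.hoc N6.hoc0 3 (by omega) ht
    (Z := 3.0649) (by norm_num) (Q.z11 hb) (by norm_num) (e := 0.000004385) (by norm_num1; exact (exp_num' 12 (f := 0.3374) (by norm_num) (by norm_num) (by norm_num))) (by norm_num)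

theorem farR6 {b : ℕ} {h κ R t β G0 G1 : ℝ} (H : DP b h κ R t) (hκ : 0.29 ≤ κ) (h1 : 0.6 ≤ κ) (h2 : κ ≤ 0.7)
    (hβ : β = κ / R) (g0 : 0 ≤ G0) (h0' : G0 ≤ 1.035 * sQ β κ (t - h)) (g1 : 0.965 * sQ β κ t ≤ G1)
    (n : ℕ) (hn : 2 * n + 5 ≤ b) :
    ‖Xf β R h t ((n : ℤ) + 3)‖ * (G0 ^ ((n : ℤ) + 3 - 1) * G1 ^ (-((n : ℤ) + 3))) ≤ Mfar ((n : ℤ) + 3) :=
  right_all B6 N6 (fun Q hs1 hs2 => rho6 Q h1 h2 hs1 hs2) S6_1 S6_2 S6_3 H hκ h1 h2 hβ g0 h0' g1 n hn

theorem B7 : BoxR 0.7 0.85 0.7354 0.49347 0.34452 1.4121 0.46856 0.6617 0.7497 0.3596 2.01 1.181 0.2875 0.04744 0.06453 :=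
  ⟨by norm_num, by norm_num, by norm_num, by norm_num, by norm_num, Or.inl ⟨by norm_num, by norm_num⟩, by norm_num, by norm_num, by norm_num, by norm_num, by norm_num, by norm_num, by norm_num, by norm_num, by norm_num, by norm_num, by norm_num, by norm_num, Or.inl ⟨by norm_num, by norm_num⟩, by norm_num, by norm_num⟩

theorem rho7 {T0 : ℝ} {b : ℕ} {h κ R t T s z : ℝ} (Q : QD T0 b h κ R t T s z) (h1 : 0.7 ≤ κ) (h2 : κ ≤ 0.85)
    (hs1 : 1.02 - 0.7354 ≤ s) (hs2 : s ≤ 0.7354) :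
    sD κ t ≤ 1.2001 ^ 4 ∧ (1.035 / 0.965) ^ 4 * sD κ t ≤ 1.2236 ^ 4 * ((1 + (0.7354 - s)) * sD κ (t - h)) :=
  B7.rhoB Q h1 h2 (by norm_num) hs1 hs2 (by norm_num) (by norm_num)

theorem N7 : NumR 0.7 0.85 0.7354 0.34452 0.3596 2.01 1.181 0.2875 0.04744 0.06453 (1.2001 / 0.965) 1.2236 0.2378 0.001 0.6116 0.05 2.25 :=
  ⟨by norm_num,
    by norm_num,
    by norm_num,
    by norm_num,
    Or.inl ⟨by norm_num, by norm_num⟩,
    by norm_num,
    by norm_num,
    Or.inl ⟨by norm_num, by norm_num⟩,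
    by norm_num,
    by norm_num,
    ⟨0.00131, 0.0001792, 0.00001298, by norm_num, (exp_num' 6 (f := 0.6396) (by norm_num) (by norm_num) (by norm_num)), by norm_num, (exp_num' 8 (f := 0.6285) (by norm_num) (by norm_num) (by norm_num)), by norm_num, (exp_num' 11 (f := 0.2522) (by norm_num) (by norm_num) (by norm_num)), by norm_num⟩,
    ⟨0.00002745, 0.000003755, 0.00006689, by norm_num, (exp_num' 10 (f := 0.5039) (by norm_num) (by norm_num) (by norm_num)), by norm_num, (exp_num' 12 (f := 0.4929) (by norm_num) (by norm_num) (by norm_num)), by norm_num, (exp_num' 9 (f := 0.6137) (by norm_num) (by norm_num) (by norm_num)), by norm_num⟩,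
    ⟨0.02116, (exp_num' 3 (f := 0.8643) (by norm_num) (by norm_num) (by norm_num)), by norm_num⟩,
    ⟨0.00002819, by norm_num, (exp_num' 10 (f := 0.4772) (by norm_num) (by norm_num) (by norm_num)), by norm_num⟩,
    ⟨0.000003322, by norm_num, (exp_num' 12 (f := 0.6164) (by norm_num) (by norm_num) (by norm_num)), by norm_num⟩,
    ⟨0.00001108, by norm_num, (exp_num' 11 (f := 0.4108) (by norm_num) (by norm_num) (by norm_num)), by norm_num⟩,
    ⟨0.00000001624, by norm_num, (exp_num' 17 (f := 0.9507) (by norm_num) (by norm_num) (by norm_num)), by norm_num⟩,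
    ⟨0.000000000655, by norm_num, (exp_num' 21 (f := 0.1465) (by norm_num) (by norm_num) (by norm_num)), by norm_num⟩,
    by norm_num⟩

theorem S7_1 : Spec 9 1 (3 / 1000) 0.7 0.85 0.7354 (1.2001 / 0.965) 1.2236 0.2378 := by
  intro b h κ R t T s z β W Q h1 h2 hβ hs1 hs2 hW0 hW hb ht
  exact B7.rightC Q h1 h2 hβ hs2 hW0 hW N7.hc1 N7.hρ N7.hhu N7.hδ N7.hoc N7.hoc0 1 (by omega) ht
    (Z := 2.05174) (by norm_num) (Q.zz) (by norm_num) (e := 0.00009407) (by norm_num1; exact (exp_num' 9 (f := 0.2716) (by norm_num) (by norm_num) (by norm_num))) (by norm_num)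

theorem S7_2 : Spec 9 2 (11 / 2000) 0.7 0.85 0.7354 (1.2001 / 0.965) 1.2236 0.2378 := by
  intro b h κ R t T s z β W Q h1 h2 hβ hs1 hs2 hW0 hW hb ht
  exact B7.rightC Q h1 h2 hβ hs2 hW0 hW N7.hc1 N7.hρ N7.hhu N7.hδ N7.hoc N7.hoc0 2 (by omega) ht
    (Z := 2.05174) (by norm_num) (Q.zz) (by norm_num) (e := 0.0003141) (by norm_num1; exact (exp_num' 8 (f := 0.0659) (by norm_num) (by norm_num) (by norm_num))) (by norm_num)

theorem S7_3 : Spec 11 3 (1 / 8000) 0.7 0.85 0.7354 (1.2001 / 0.965) 1.2236 0.2378 := by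
  intro b h κ R t T s z β W Q h1 h2 hβ hs1 hs2 hW0 hW hb ht
  exact B7.rightC Q h1 h2 hβ hs2 hW0 hW N7.hc1 N7.hρ N7.hhu N7.hδ N7.hoc N7.hoc0 3 (by omega) ht
    (Z := 3.0649) (by norm_num) (Q.z11 hb) (by norm_num) (e := 0.0000009272) (by norm_num1; exact (exp_num' 13 (f := 0.9017) (by norm_num) (by norm_num) (by norm_num))) (by norm_num)

theorem farR7 {b : ℕ} {h κ R t β G0 G1 : ℝ} (H : DP b h κ R t) (hκ : 0.29 ≤ κ) (h1 : 0.7 ≤ κ) (h2 : κ ≤ 0.85)
    (hβ : β = κ / R) (g0 : 0 ≤ G0) (h0' : G0 ≤ 1.035 * sQ β κ (t - h)) (g1 : 0.965 * sQ β κ t ≤ G1)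
    (n : ℕ) (hn : 2 * n + 5 ≤ b) :
    ‖Xf β R h t ((n : ℤ) + 3)‖ * (G0 ^ ((n : ℤ) + 3 - 1) * G1 ^ (-((n : ℤ) + 3))) ≤ Mfar ((n : ℤ) + 3) :=
  right_all B7 N7 (fun Q hs1 hs2 => rho7 Q h1 h2 hs1 hs2) S7_1 S7_2 S7_3 H hκ h1 h2 hβ g0 h0' g1 n hn

theorem B8 : BoxR 0.85 1 0.7467 0.5 0.34907 1.4186 0.40531 0.575 0.8181 0.2975 1.75 1.072 0.0397 0.04807 0.05582 :=
  ⟨by norm_num, by norm_num, by norm_num, by norm_num, by norm_num, Or.inl ⟨by norm_num, by norm_num⟩, by norm_num, by norm_num, by norm_num, by norm_num, by norm_num, by norm_num, by norm_num, by norm_num, by norm_num, by norm_num, by norm_num, by norm_num, Or.inl ⟨by norm_num, by norm_num⟩, by norm_num, by norm_num⟩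

theorem rho8 {T0 : ℝ} {b : ℕ} {h κ R t T s z : ℝ} (Q : QD T0 b h κ R t T s z) (h1 : 0.85 ≤ κ) (h2 : κ ≤ 1)
    (hs1 : 1.02 - 0.7467 ≤ s) (hs2 : s ≤ 0.7467) :
    sD κ t ≤ 1.2289 ^ 4 ∧ (1.035 / 0.965) ^ 4 * sD κ t ≤ 1.1596 ^ 4 * ((1 + (0.7467 - s)) * sD κ (t - h)) :=
  B8.rhoB Q h1 h2 (by norm_num) hs1 hs2 (by norm_num) (by norm_num)

theorem N8 : NumR 0.85 1 0.7467 0.34907 0.2975 1.75 1.072 0.0397 0.04807 0.05582 (1.2289 / 0.965) 1.1596 0.2489 0.001 0.5896 0.05 2.236 :=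
  ⟨by norm_num,
    by norm_num,
    by norm_num,
    by norm_num,
    Or.inl ⟨by norm_num, by norm_num⟩,
    by norm_num,
    by norm_num,
    Or.inl ⟨by norm_num, by norm_num⟩,
    by norm_num,
    by norm_num,
    ⟨0.001235, 0.00005645, 0.000001452, by norm_num, (exp_num' 6 (f := 0.6993) (by norm_num) (by norm_num) (by norm_num)), by norm_num, (exp_num' 9 (f := 0.7872) (by norm_num) (by norm_num) (by norm_num)), by norm_num, (exp_num' 13 (f := 0.4431) (by norm_num) (by norm_num) (by norm_num)), by norm_num⟩,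
    ⟨0.00002735, 0.000001248, 0.00008254, by norm_num, (exp_num' 10 (f := 0.5074) (by norm_num) (by norm_num) (by norm_num)), by norm_num, (exp_num' 13 (f := 0.5953) (by norm_num) (by norm_num) (by norm_num)), by norm_num, (exp_num' 9 (f := 0.4024) (by norm_num) (by norm_num) (by norm_num)), by norm_num⟩,
    ⟨0.02232, (exp_num' 3 (f := 0.808) (by norm_num) (by norm_num) (by norm_num)), by norm_num⟩,
    ⟨0.000003558, by norm_num, (exp_num' 12 (f := 0.5472) (by norm_num) (by norm_num) (by norm_num)), by norm_num⟩,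
    ⟨0.0000002628, by norm_num, (exp_num' 15 (f := 0.1521) (by norm_num) (by norm_num) (by norm_num)), by norm_num⟩,
    ⟨0.0000009372, by norm_num, (exp_num' 13 (f := 0.8902) (by norm_num) (by norm_num) (by norm_num)), by norm_num⟩,
    ⟨0.0000000004239, by norm_num, (exp_num' 21 (f := 0.5825) (by norm_num) (by norm_num) (by norm_num)), by norm_num⟩,
    ⟨0.00000000000923, by norm_num, (exp_num' 25 (f := 0.4088) (by norm_num) (by norm_num) (by norm_num)), by norm_num⟩,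
    by norm_num⟩

theorem S8_1 : Spec 9 1 (3 / 1000) 0.85 1 0.7467 (1.2289 / 0.965) 1.1596 0.2489 := by
  intro b h κ R t T s z β W Q h1 h2 hβ hs1 hs2 hW0 hW hb ht
  exact B8.rightC Q h1 h2 hβ hs2 hW0 hW N8.hc1 N8.hρ N8.hhu N8.hδ N8.hoc N8.hoc0 1 (by omega) ht
    (Z := 2.05174) (by norm_num) (Q.zz) (by norm_num) (e := 0.00001256) (by norm_num1; exact (exp_num' 11 (f := 0.2853) (by norm_num) (by norm_num) (by norm_num))) (by norm_num)

theorem S8_2 : Spec 9 2 (11 / 2000) 0.85 1 0.7467 (1.2289 / 0.965) 1.1596 0.2489 := by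
  intro b h κ R t T s z β W Q h1 h2 hβ hs1 hs2 hW0 hW hb ht
  exact B8.rightC Q h1 h2 hβ hs2 hW0 hW N8.hc1 N8.hρ N8.hhu N8.hδ N8.hoc N8.hoc0 2 (by omega) ht
    (Z := 2.05174) (by norm_num) (Q.zz) (by norm_num) (e := 0.00004436) (by norm_num1; exact (exp_num' 10 (f := 0.0234) (by norm_num) (by norm_num) (by norm_num))) (by norm_num)

theorem S8_3 : Spec 11 3 (1 / 8000) 0.85 1 0.7467 (1.2289 / 0.965) 1.1596 0.2489 := by
  intro b h κ R t T s z β W Q h1 h2 hβ hs1 hs2 hW0 hW hb ht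
  exact B8.rightC Q h1 h2 hβ hs2 hW0 hW N8.hc1 N8.hρ N8.hhu N8.hδ N8.hoc N8.hoc0 3 (by omega) ht
    (Z := 3.0649) (by norm_num) (Q.z11 hb) (by norm_num) (e := 0.00000004617) (by norm_num1; exact (exp_num' 16 (f := 0.9016) (by norm_num) (by norm_num) (by norm_num))) (by norm_num)

theorem farR8 {b : ℕ} {h κ R t β G0 G1 : ℝ} (H : DP b h κ R t) (hκ : 0.29 ≤ κ) (h1 : 0.85 ≤ κ) (h2 : κ ≤ 1)
    (hβ : β = κ / R) (g0 : 0 ≤ G0) (h0' : G0 ≤ 1.035 * sQ β κ (t - h)) (g1 : 0.965 * sQ β κ t ≤ G1)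
    (n : ℕ) (hn : 2 * n + 5 ≤ b) :
    ‖Xf β R h t ((n : ℤ) + 3)‖ * (G0 ^ ((n : ℤ) + 3 - 1) * G1 ^ (-((n : ℤ) + 3))) ≤ Mfar ((n : ℤ) + 3) :=
  right_all B8 N8 (fun Q hs1 hs2 => rho8 Q h1 h2 hs1 hs2) S8_1 S8_2 S8_3 H hκ h1 h2 hβ g0 h0' g1 n hn

theorem B9 : BoxR 1 1.5 0.7895 0.5 0.34907 1.4186 0.34907 0.4952 0.8687 0.2441 1.566 0.988 (-0.2977) 0.04807 0.04807 :=
  ⟨by norm_num, by norm_num, by norm_num, by norm_num, by norm_num, Or.inr (by norm_num), by norm_num, by norm_num, by norm_num, by norm_num, by norm_num, by norm_num, by norm_num, by norm_num, by norm_num, by norm_num, by norm_num, by norm_num, Or.inl ⟨by norm_num, by norm_num⟩, by norm_num, by norm_num⟩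

theorem rho9 {T0 : ℝ} {b : ℕ} {h κ R t T s z : ℝ} (Q : QD T0 b h κ R t T s z) (h1 : 1 ≤ κ) (h2 : κ ≤ 1.5)
    (hs1 : 1.02 - 0.7895 ≤ s) (hs2 : s ≤ 0.7895) :
    sD κ t ≤ 1.3767 ^ 4 ∧ (1.035 / 0.965) ^ 4 * sD κ t ≤ 1.0997 ^ 4 * ((1 + (0.7895 - s)) * sD κ (t - h)) :=
  B9.rhoC Q h1 h2 (by norm_num) hs1 hs2 (rat := 1.1052) (by norm_num) (by norm_num) (by norm_num)

theorem N9 : NumR 1 1.5 0.7895 0.34907 0.2441 1.566 0.988 (-0.2977) 0.04807 0.04807 (1.3767 / 0.965) 1.0997 0.2911 1.05 1.6142 0.21 2.688 :=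
  ⟨by norm_num,
    by norm_num,
    by norm_num,
    by norm_num,
    Or.inr (by norm_num),
    by norm_num,
    by norm_num,
    Or.inr ⟨by norm_num, by norm_num, by norm_num⟩,
    by norm_num,
    by norm_num,
    ⟨0.00157, 0.00001482, 0.0000001602, by norm_num, (exp_num' 6 (f := 0.4571) (by norm_num) (by norm_num) (by norm_num)), by norm_num, (exp_num' 11 (f := 0.1202) (by norm_num) (by norm_num) (by norm_num)), by norm_num, (exp_num' 15 (f := 0.6486) (by norm_num) (by norm_num) (by norm_num)), by norm_num⟩,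
    ⟨0.00004314, 0.0000004083, 0.0001855, by norm_num, (exp_num' 10 (f := 0.0512) (by norm_num) (by norm_num) (by norm_num)), by norm_num, (exp_num' 14 (f := 0.7143) (by norm_num) (by norm_num) (by norm_num)), by norm_num, (exp_num' 8 (f := 0.5938) (by norm_num) (by norm_num) (by norm_num)), by norm_num⟩,
    ⟨0.02752, (exp_num' 3 (f := 0.5941) (by norm_num) (by norm_num) (by norm_num)), by norm_num⟩,
    ⟨0.00001263, by norm_num, (exp_num' 11 (f := 0.2796) (by norm_num) (by norm_num) (by norm_num)), by norm_num⟩,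
    ⟨0.000001355, by norm_num, (exp_num' 13 (f := 0.5127) (by norm_num) (by norm_num) (by norm_num)), by norm_num⟩,
    ⟨0.000005923, by norm_num, (exp_num' 12 (f := 0.0368) (by norm_num) (by norm_num) (by norm_num)), by norm_num⟩,
    ⟨0.000000004825, by norm_num, (exp_num' 19 (f := 0.1496) (by norm_num) (by norm_num) (by norm_num)), by norm_num⟩,
    ⟨0.0000000001604, by norm_num, (exp_num' 22 (f := 0.5542) (by norm_num) (by norm_num) (by norm_num)), by norm_num⟩,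
    by norm_num⟩

theorem S9_1 : Spec 9 1 (3 / 1000) 1 1.5 0.7895 (1.3767 / 0.965) 1.0997 0.2911 := by
  intro b h κ R t T s z β W Q h1 h2 hβ hs1 hs2 hW0 hW hb ht
  exact B9.rightC Q h1 h2 hβ hs2 hW0 hW N9.hc1 N9.hρ N9.hhu N9.hδ N9.hoc N9.hoc0 1 (by omega) ht
    (Z := 2.05174) (by norm_num) (Q.zz) (by norm_num) (e := 0.00005555) (by norm_num1; exact (exp_num' 9 (f := 0.8038) (by norm_num) (by norm_num) (by norm_num))) (by norm_num)

theorem S9_2 : Spec 9 2 (11 / 2000) 1 1.5 0.7895 (1.3767 / 0.965) 1.0997 0.2911 := by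
  intro b h κ R t T s z β W Q h1 h2 hβ hs1 hs2 hW0 hW hb ht
  exact B9.rightC Q h1 h2 hβ hs2 hW0 hW N9.hc1 N9.hρ N9.hhu N9.hδ N9.hoc N9.hoc0 2 (by omega) ht
    (Z := 2.05174) (by norm_num) (Q.zz) (by norm_num) (e := 0.0002417) (by norm_num1; exact (exp_num' 8 (f := 0.3279) (by norm_num) (by norm_num) (by norm_num))) (by norm_num)

theorem S9_3 : Spec 11 3 (1 / 8000) 1 1.5 0.7895 (1.3767 / 0.965) 1.0997 0.2911 := by
  intro b h κ R t T s z β W Q h1 h2 hβ hs1 hs2 hW0 hW hb ht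
  exact B9.rightC Q h1 h2 hβ hs2 hW0 hW N9.hc1 N9.hρ N9.hhu N9.hδ N9.hoc N9.hoc0 3 (by omega) ht
    (Z := 3.0649) (by norm_num) (Q.z11 hb) (by norm_num) (e := 0.0000004307) (by norm_num1; exact (exp_num' 14 (f := 0.6598) (by norm_num) (by norm_num) (by norm_num))) (by norm_num)

theorem farR9 {b : ℕ} {h κ R t β G0 G1 : ℝ} (H : DP b h κ R t) (hκ : 0.29 ≤ κ) (h1 : 1 ≤ κ) (h2 : κ ≤ 1.5)
    (hβ : β = κ / R) (g0 : 0 ≤ G0) (h0' : G0 ≤ 1.035 * sQ β κ (t - h)) (g1 : 0.965 * sQ β κ t ≤ G1)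
    (n : ℕ) (hn : 2 * n + 5 ≤ b) :
    ‖Xf β R h t ((n : ℤ) + 3)‖ * (G0 ^ ((n : ℤ) + 3 - 1) * G1 ^ (-((n : ℤ) + 3))) ≤ Mfar ((n : ℤ) + 3) :=
  right_all B9 N9 (fun Q hs1 hs2 => rho9 Q h1 h2 hs1 hs2) S9_1 S9_2 S9_3 H hκ h1 h2 hβ g0 h0' g1 n hn

end Sok
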