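import Pool.Agent.Lib.MP_816dec_an.R1FarC

/-!
MP_816dec_an (A3, row R1, `b ≥ 9`): far copies on the left, closed bound and boxes.
-/

set_option autoImplicit false

open Complex Set Filter Topology Metric

namespace Sok

/-- left hand copies, `t_k = -(m h) - κ`, sharper form of the prefactor -/
theorem HUL2 {β κ R h m tk nn T A pf G μ e1 : ℝ} (hR : 0 < R) (hκ : 0 < κ) (hβ : β = κ / R)
    (hA : A = 1 + κ ^ 2) (hh : 0 < h) (hT : R * h ^ 2 = T * A) (hμ : 0 < μ) (htk : tk = -(m * h) - κ)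
    (h1 : -(3 * Real.pi / 2) < tk) (h2 : tk ≤ Real.pi / 2) (hz : κ * (μ * h / A) ≤ 13 / 20)
    (he1 : Real.exp (-(κ * (μ * h / A))) ≤ e1) (hn0 : 0 < nn)
    (hn : nn ^ 2 ≤ (1 + κ * (μ * h / A)) ^ 2 - (μ * h / A) ^ 2)
    (hG : 2 / 5 * κ ^ 3 * (μ * h / A) + e1 - 1 + (μ * h / A) ^ 2 * e1 ^ 3 / 5 ≤ G * A)
    (hpf : 3 ≤ 2 * κ * nn * pf ^ 2) (hpf0 : 0 ≤ pf) :
    ‖F (cexp (I * β)) (R * cexp (I * ((tk + β / 2 : ℝ) : ℂ)))‖ ≤
      pf * Real.exp (R + T * (-(μ * m) + μ ^ 2 * (1 + G) / 2)) +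
      C0 β * (κ / R / (3 * Real.pi / 2 + tk) + Real.pi / R +
        κ * (μ * h / A) * max 1 (Real.exp (μ * (T / h) * (Real.pi / 2 - κ) - μ * T * m)) +
        Real.exp (-(μ * (T / h) * (Real.pi / 2 + κ) + μ * T * m)) + κ / R + HUMP β R tk) := by
  have hpi := Real.pi_pos
  have hA0 : 0 < A := by rw [hA]; positivity
  have hβ0 : 0 < β := by rw [hβ]; positivity
  have hβR : β * R = κ := by rw [hβ]; field_simp
  obtain ⟨p, hp⟩ : ∃ p, p = μ * h / A := ⟨_, rfl⟩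
  rw [← hp] at hz he1 hn hG ⊢
  have hp0 : 0 < p := by rw [hp]; positivity
  have hκp : 0 < κ * p := mul_pos hκ hp0
  have he10 : 0 < e1 := lt_of_lt_of_le (Real.exp_pos _) he1
  have hexp1 : 1 + κ * p ≤ Real.exp (κ * p) := by linarith only [Real.add_one_le_exp (κ * p)]
  have hpe : p < Real.exp (κ * p) := by
    have h3 : p ^ 2 < (1 + κ * p) ^ 2 := by nlinarith only [hn, hn0]
    have h4 : p < 1 + κ * p := lt_of_pow_lt_pow_left₀ 2 (by positivity) h3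
    exact lt_of_lt_of_le h4 hexp1
  have hee : Real.exp (-(κ * p)) * Real.exp (κ * p) = 1 := by
    rw [← Real.exp_add, neg_add_cancel, Real.exp_zero]
  have hsq1 : p * Real.exp (-(κ * p)) < 1 := by
    rw [← hee, mul_comm p]
    exact mul_lt_mul_of_pos_left hpe (Real.exp_pos _)
  obtain ⟨w, hw⟩ : ∃ w, w = Real.arcsin (-(p * Real.exp (-(κ * p)))) := ⟨_, rfl⟩
  have hsq0 : 0 ≤ p * Real.exp (-(κ * p)) := by positivity
  have hsin : Real.sin w = -(p * Real.exp (-(κ * p))) := by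
    rw [hw, Real.sin_arcsin (by linarith) (by linarith)]
  have hw1 : -(Real.pi / 2) < w := by rw [hw, Real.neg_pi_div_two_lt_arcsin]; linarith
  have hw2' : w < Real.pi / 2 := by rw [hw, Real.arcsin_lt_pi_div_two]; linarith
  have hcos0 : 0 < Real.cos w := Real.cos_pos_of_mem_Ioo ⟨hw1, hw2'⟩
  have hnn : nn ≤ Real.exp (κ * p) * Real.cos w := by
    have h3 := Real.sin_sq_add_cos_sq w
    have h4 : (Real.exp (κ * p) * Real.cos w) ^ 2 = Real.exp (κ * p) ^ 2 - p ^ 2 := by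
      have h5 : Real.exp (κ * p) * (p * Real.exp (-(κ * p))) = p := by
        linear_combination p * hee
      have h6 : (Real.exp (κ * p) * Real.sin w) ^ 2 = p ^ 2 := by
        rw [hsin, mul_neg, h5, neg_sq]
      linear_combination (Real.exp (κ * p)) ^ 2 * h3 - h6
    have h5 : nn ^ 2 ≤ (Real.exp (κ * p) * Real.cos w) ^ 2 := by
      rw [h4]
      have := pow_le_pow_left₀ (by positivity) hexp1 2
      linarith only [this, hn]
    exact le_of_sq_le_sq h5 (by positivity)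
  have key := far_HU hβ0 hR (t := tk) h1 h2 (v := -(κ * p)) (w := w) (by linarith) hw1 hw2'
    (by rw [hβR, hsin]; ring)
  rw [hβR, neg_neg] at key
  refine key.trans (add_le_add ?_ ?_)
  · apply mul_le_mul _ _ (Real.exp_pos _).le hpf0
    · apply Real.sqrt_le_iff.2
      refine ⟨hpf0, ?_⟩
      have he := Real.exp_pos (κ * p)
      rw [div_le_iff₀ (by positivity)]
      have h6 := mul_le_mul_of_nonneg_left hnn (by positivity : 0 ≤ 2 * κ)
      have h7 := mul_le_mul_of_nonneg_right h6 (sq_nonneg pf)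
      linarith only [h7, hpf]
    · apply Real.exp_le_exp.2
      have h8 := UL_le (tt := tk) (abs_le.2 ⟨hw1.le, hw2'.le⟩) hκp.le hz he1
      have h9 : -(κ * p) * (w - tk) / κ = -p * (w - tk) := by field_simp
      rw [h9]
      have h10 : κ ^ 2 + 2 / 5 * κ ^ 3 * p + e1 + p ^ 2 * e1 ^ 3 / 5 ≤ A * (1 + G) := by
        rw [hA] at hG ⊢; linarith only [hG]
      have h11 : p ^ 2 / 2 * (κ ^ 2 + 2 / 5 * κ ^ 3 * p + e1 + p ^ 2 * e1 ^ 3 / 5) ≤ p ^ 2 / 2 * (A * (1 + G)) :=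
        mul_le_mul_of_nonneg_left h10 (by positivity)
      have h12 := mul_le_mul_of_nonneg_left (h8.trans (add_le_add_right h11 _)) hR.le
      refine h12.trans (le_of_eq ?_)
      have e1' : R * p ^ 2 * A = μ ^ 2 * T := by
        rw [hp]; field_simp
        linarith
      have e2 : R * p * h = μ * T := by
        rw [hp]; field_simp
        linarith
      rw [htk]
      linear_combination ((1 + G) / 2) * e1' - m * e2
  · apply mul_le_mul_of_nonneg_left _ (C0_pos hβ0).le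
    have e4 : R * p = μ * (T / h) := by
      rw [hp]; field_simp
      linarith
    have h13 : |(-(κ * p))| * max 1 (Real.exp (-(-(κ * p) * (Real.pi / 2 + tk) / β))) =
        κ * p * max 1 (Real.exp (μ * (T / h) * (Real.pi / 2 - κ) - μ * T * m)) := by
      rw [abs_neg, abs_of_pos hκp]
      congr 3
      have e5 : -(-(κ * p) * (Real.pi / 2 + tk) / β) = R * p * (Real.pi / 2 + tk) := by
        rw [hβ]; field_simp
      rw [e5, e4, htk]
      field_simp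
      ring
    have h14 : (1 + -(κ * p)) * Real.exp (-(κ * p) * (Real.pi / 2 - tk) / β) ≤
        Real.exp (-(μ * (T / h) * (Real.pi / 2 + κ) + μ * T * m)) := by
      have e5 : -(κ * p) * (Real.pi / 2 - tk) / β = -(R * p * (Real.pi / 2 - tk)) := by
        rw [hβ]; field_simp
      have e6 : -(R * p * (Real.pi / 2 - tk)) = -(μ * (T / h) * (Real.pi / 2 + κ) + μ * T * m) := by
        rw [e4, htk]
        field_simp
        ring
      rw [e5, e6]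
      have := Real.exp_pos (-(μ * (T / h) * (Real.pi / 2 + κ) + μ * T * m))
      nlinarith only [this, hκp]
    have h15 : β * Real.exp (-((Real.pi / 2 - tk) / β)) ≤ κ / R := by
      rw [← hβ]
      have : Real.exp (-((Real.pi / 2 - tk) / β)) ≤ 1 := by
        apply Real.exp_le_one_iff.2
        have := div_nonneg (by linarith only [h2] : 0 ≤ Real.pi / 2 - tk) hβ0.le
        linarith only [this]
      nlinarith only [this, hβ0]
    rw [h13]
    rw [← hβ] at h15 ⊢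
    linarith only [h14, h15]

/-- numerical data of a box `k1 ≤ κ ≤ k2`, `h ≤ Hm`, `μ ≤ μm` on the left -/
structure BoxL (k1 k2 Hm μm ψ kp Pm nn pf al kR iR o : ℝ) : Prop where
  k1p : 0.29 ≤ k1
  k12 : k1 ≤ k2
  k15 : k2 ≤ 1.5
  Hm0 : 0 < Hm
  Hm1 : Hm ≤ 0.69814
  hμ1 : 1 ≤ μm
  hψ : k2 ≤ ψ * (1 + k2 ^ 2) ∧ k2 ≤ 1 ∨ 1 / 2 ≤ ψ
  hkp : ψ * (μm * Hm) ≤ kp
  hkp13 : kp ≤ 13 / 20
  hPm : μm * Hm ≤ Pm * (1 + k1 ^ 2)
  hn0 : 0 < nn
  hn1 : nn ≤ 1
  hn2 : nn ^ 2 ≤ 1 + 2 * k1 * Pm - (1 - k1 ^ 2) * Pm ^ 2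
  hpf : 3 ≤ 2 * k1 * nn * pf ^ 2
  hpf0 : 0 ≤ pf
  hal : 0.976 ≤ al ^ 2 * k1
  hal0 : 0 ≤ al
  hkR : ψ ≤ 10.402 * kR
  hiR : 1 ≤ 10.402 * iR * (1 + k1 ^ 2)
  ho : kR / (1.5707 - k2) + 3.1416 * iR + kp + kR + 1 / 500 ≤ o

section boxl

variable {T0 : ℝ} {b : ℕ} {h κ R t T s z : ℝ} {k1 k2 Hm μm ψ kp Pm nn pf al kR iR o : ℝ}

theorem psi_ok {k2 ψ κ : ℝ} (hψ : k2 ≤ ψ * (1 + k2 ^ 2) ∧ k2 ≤ 1 ∨ 1 / 2 ≤ ψ) (h0 : 0 ≤ κ) (h2 : κ ≤ k2) :
    κ / (1 + κ ^ 2) ≤ ψ := by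
  have hA : 0 < 1 + κ ^ 2 := by positivity
  rcases hψ with ⟨h3, h4⟩ | h3
  · have h5 := psi_lo h0 h2 h4
    have hA2 : 0 < 1 + k2 ^ 2 := by positivity
    refine h5.trans ?_
    rw [div_le_iff₀ hA2]; exact h3
  · exact psi_half.trans h3

theorem kR_ok {kR : ℝ} (Q : QD T0 b h κ R t T s z) (h1 : κ / (1 + κ ^ 2) ≤ ψ) (h2 : ψ ≤ 10.402 * kR) :
    κ / R ≤ kR := by
  rw [div_le_iff₀ Q.A1] at h1
  have h3 := Q.Rge
  have h4 := Q.A1
  have h5 := Q.kpos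
  rw [div_le_iff₀ Q.Rpos]
  have h6 : ψ * (1 + κ ^ 2) ≤ 10.402 * kR * (1 + κ ^ 2) := mul_le_mul_of_nonneg_right h2 h4.le
  have hkR0 : 0 ≤ kR := by
    by_contra hcon
    push Not at hcon
    nlinarith only [hcon, h1, h5, h6, h4]
  nlinarith only [h1, h3, h6, hkR0]

theorem hump_neg {β tk : ℝ} (Q : QD T0 b h κ R t T s z) (hβ : β = κ / R) (ht : tk ≤ -κ) :
    HUMP β R tk ≤ 1 / 1000 := by
  have hpi := Real.pi_gt_d2
  have h1 : κ / R ≤ 0.0481 := kR_ok Q psi_half (by norm_num)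
  have h0 := Q.Rpos
  have hκ := Q.kpos
  have hk := Q.k1
  have hβR : β * R = κ := by rw [hβ]; field_simp
  have hβ0 : 0 < β := by rw [hβ]; positivity
  rw [← hβ] at h1
  unfold HUMP
  rw [hβR]
  have he := Real.exp_one_lt_d9
  have hm : max 0 (Real.exp 1 * κ - 1) ≤ 2 + κ := by
    apply max_le (by linarith)
    nlinarith [Real.exp_pos 1]
  have h2 : 10 ≤ (3 * Real.pi / 2 - tk - max 0 (Real.exp 1 * κ - 1)) / β := by
    rw [le_div_iff₀ hβ0]
    linarith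
  have h3 := exp_num' 10 (f := 0) le_rfl (by simpa using h2) (y := 0.36788 ^ 10) (by norm_num)
  have h4 := Real.exp_pos (-((3 * Real.pi / 2 - tk - max 0 (Real.exp 1 * κ - 1)) / β))
  calc _ ≤ 1.0481 * 0.36788 ^ 10 := mul_le_mul (by linarith) h3 h4.le (by norm_num)
    _ ≤ 1 / 1000 := by norm_num

/-- the number `nn` -/
theorem BoxL.nnok (B : BoxL k1 k2 Hm μm ψ kp Pm nn pf al kR iR o) (h1 : k1 ≤ κ) {p : ℝ} (hp0 : 0 ≤ p) (hp : p ≤ Pm) :
    nn ^ 2 ≤ (1 + κ * p) ^ 2 - p ^ 2 := by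
  have hk1 := B.k1p
  have hn0 := B.hn0
  have hn1 := B.hn1
  have hn2 := B.hn2
  have h3 : (1 + k1 * p) ^ 2 ≤ (1 + κ * p) ^ 2 := by
    apply pow_le_pow_left₀ (by nlinarith only [hk1, hp0])
    nlinarith only [h1, hp0]
  have hnsq : nn ^ 2 ≤ 1 := by nlinarith only [hn0, hn1]
  rcases le_total k1 1 with h4 | h4
  · -- concave in `p`
    have h5 : nn ^ 2 ≤ 1 + 2 * k1 * p - (1 - k1 ^ 2) * p ^ 2 := by
      rcases eq_or_lt_of_le hp0 with h6 | h6
      · rw [← h6]; linarith only [hnsq]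
      have hPm : 0 < Pm := lt_of_lt_of_le h6 hp
      have h7 : 0 ≤ (1 - k1 ^ 2) * (p * (Pm - p)) := by
        apply mul_nonneg (by nlinarith only [h4, hk1]) (mul_nonneg hp0 (by linarith only [hp]))
      have h8 : (1 - nn ^ 2) * (Pm - p) + (1 + 2 * k1 * Pm - (1 - k1 ^ 2) * Pm ^ 2 - nn ^ 2) * p ≥ 0 := by
        have a1 := mul_nonneg (by linarith only [hnsq] : 0 ≤ 1 - nn ^ 2) (by linarith only [hp] : 0 ≤ Pm - p)
        have a2 := mul_nonneg (by linarith only [hn2] : 0 ≤ 1 + 2 * k1 * Pm - (1 - k1 ^ 2) * Pm ^ 2 - nn ^ 2) hp0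
        linarith only [a1, a2]
      have h9 : Pm * (1 + 2 * k1 * p - (1 - k1 ^ 2) * p ^ 2 - nn ^ 2) =
          (1 - nn ^ 2) * (Pm - p) + (1 + 2 * k1 * Pm - (1 - k1 ^ 2) * Pm ^ 2 - nn ^ 2) * p +
          Pm * ((1 - k1 ^ 2) * (p * (Pm - p))) := by ring
      have h10 : 0 ≤ Pm * (1 + 2 * k1 * p - (1 - k1 ^ 2) * p ^ 2 - nn ^ 2) := by
        rw [h9]
        have := mul_nonneg hPm.le h7
        linarith only [this, h8]
      have h11 := (mul_nonneg_iff_of_pos_left hPm).1 h10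
      linarith only [h11]
    linarith only [h3, h5]
  · have h5 : p ^ 2 ≤ (k1 * p) ^ 2 := pow_le_pow_left₀ hp0 (by nlinarith only [h4, hp0]) 2
    have h6 : 0 ≤ k1 * p := by nlinarith only [hk1, hp0]
    nlinarith only [h3, h5, h6, hnsq]

/-- horizontal line on the left, copy `-j` -/
theorem BoxL.HU (B : BoxL k1 k2 Hm μm ψ kp Pm nn pf al kR iR o) (Q : QD T0 b h κ R t T s z)
    (h1 : k1 ≤ κ) (h2 : κ ≤ k2) (hH : h ≤ Hm) {β : ℝ} (hβ : β = κ / R) (j : ℕ) {μ G X Y : ℝ} (hμ1 : 1 ≤ μ) (hμ : μ ≤ μm)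
    (hs0 : 0 ≤ s) (hsj : s ≤ j + 1) (hj : (j + 1 : ℝ) * h ≤ Real.pi)
    (hG : ∀ p, p = μ * h / (1 + κ ^ 2) → 2 / 5 * κ ^ 3 * p - κ * p + (κ * p) ^ 2 / 2 +
      p ^ 2 * (1 - κ * p + (κ * p) ^ 2 / 2) ^ 3 / 5 ≤ G * (1 + κ ^ 2))
    (hX : 1.43239 * μ * (1.5708 - k1) - 0.97 * (1 + k1 ^ 2) * 2.05174 ≤ X)
    (hμ2 : μ * (1.5708 - k1) ≤ 2.778 * (1 + k1 ^ 2))
    (hY : Y ≤ 0.97 * (1 + κ ^ 2) * z ^ 2) :
    ‖Xf β R h t (-(j : ℤ))‖ ≤ Real.exp R * (pf * Real.exp (T * (-(μ * (j + 1 - s)) + μ ^ 2 * (1 + G) / 2)) +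
      al * kp * Real.exp (T * (X - μ * (j + 1 - s))) + al * o * Real.exp (-(T * Y))) := by
  have hpi := Real.pi_gt_d6
  have hpi2 := Real.pi_lt_d6
  have hκ := Q.kpos
  have hA := Q.A1
  have h0 := Q.h0
  have hR := Q.Rpos
  have hT := Q.Tpos
  have hk1 := B.k1p
  have hk15 := B.k15
  have hkk : k1 ^ 2 ≤ κ ^ 2 := pow_le_pow_left₀ (by linarith only [hk1]) h1 2
  have hj0 : (0 : ℝ) ≤ j := Nat.cast_nonneg j
  have hψ := psi_ok B.hψ hκ.le h2
  have hkR := kR_ok Q hψ B.hkR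
  have hkR0 : 0 ≤ kR := (div_nonneg hκ.le hR.le).trans hkR
  have hiR0 : 0 < iR := by
    have h3 := B.hiR
    by_contra hcon
    push Not at hcon
    nlinarith only [h3, hcon, sq_nonneg k1]
  have hiR : 1 / R ≤ iR := by
    have h3 := Q.Rge
    have h4 := B.hiR
    rw [div_le_iff₀ hR]
    nlinarith only [h3, h4, hiR0, hkk]
  -- `p`
  obtain ⟨p, hp⟩ : ∃ p, p = μ * h / (1 + κ ^ 2) := ⟨_, rfl⟩
  have hμ0 : 0 < μ := by linarith only [hμ1]
  have hp0 : 0 < p := by rw [hp]; positivity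
  have hμH : μ * h ≤ μm * Hm := mul_le_mul hμ hH h0.le (by linarith only [hμ0, hμ])
  have hPm0 : 0 ≤ Pm := by
    have h3 := B.hPm
    have h4 : 0 < μ * h := by positivity
    by_contra hcon
    push Not at hcon
    nlinarith only [h3, h4, hμH, hcon, sq_nonneg k1]
  have hpP : p ≤ Pm := by
    rw [hp, div_le_iff₀ hA]
    have h3 := B.hPm
    nlinarith only [h3, hμH, hPm0, hkk]
  have hkpp : κ * p ≤ kp := by
    have h3 : κ * p = κ / (1 + κ ^ 2) * (μ * h) := by rw [hp]; ring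
    rw [h3]
    refine le_trans ?_ B.hkp
    apply mul_le_mul hψ hμH (by positivity)
    exact (div_nonneg hκ.le hA.le).trans hψ
  have hκp : 0 < κ * p := mul_pos hκ hp0
  have hkp0 : 0 ≤ kp := hκp.le.trans hkpp
  obtain ⟨tk, htk⟩ : ∃ tk, tk = -(((j : ℝ) + 1 - s) * h) - κ := ⟨_, rfl⟩
  have hmh : ((j : ℝ) + 1 - s) * h ≤ Real.pi := by
    have : 0 ≤ s * h := by positivity
    linarith only [this, hj]
  have hmh0 : 0 ≤ ((j : ℝ) + 1 - s) * h := mul_nonneg (by linarith only [hsj]) h0.le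
  have ht1 : -(3 * Real.pi / 2) < tk := by
    rw [htk]; linarith only [hmh, hpi, h2, hk15]
  have ht2 : tk ≤ -κ := by rw [htk]; linarith only [hmh0]
  have he1 : Real.exp (-(κ * p)) ≤ 1 - κ * p + (κ * p) ^ 2 / 2 := by
    have := r1_exp_le2 (z := -(κ * p)) (by linarith only [hκp])
    rw [neg_sq] at this
    linarith only [this]
  have hGp := hG p hp
  have hpf : 3 ≤ 2 * κ * nn * pf ^ 2 := by
    refine B.hpf.trans ?_
    apply mul_le_mul_of_nonneg_right _ (sq_nonneg pf)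
    apply mul_le_mul_of_nonneg_right _ B.hn0.le
    linarith only [h1]
  have key := HUL2 (m := (j : ℝ) + 1 - s) (tk := tk) (nn := nn) (pf := pf) (G := G) (μ := μ)
    (e1 := 1 - κ * p + (κ * p) ^ 2 / 2) hR hκ hβ rfl h0 Q.Rh hμ0
    htk ht1 (by linarith only [ht2, hκ, hpi]) (by rw [← hp]; exact hkpp.trans B.hkp13) (by rw [← hp]; exact he1) B.hn0
    (by rw [← hp]; exact B.nnok h1 hp0.le hpP) (by rw [← hp]; linarith only [hGp]) hpf B.hpf0
  rw [← hp] at key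
  have e0 : Xf β R h t (-(j : ℤ)) = F (cexp (I * β)) (R * cexp (I * ((tk + β / 2 : ℝ) : ℂ))) := by
    unfold Xf
    congr 4
    rw [htk, Q.ht]
    push_cast
    ring
  rw [e0]
  refine key.trans ?_
  have hC0 := C0_leF hR hβ (by linarith only [hk1]) h1 B.hal0 B.hal
  have hump := hump_neg Q hβ ht2
  have hump0 : 0 ≤ HUMP β R tk := by
    unfold HUMP
    have : 0 < β := by rw [hβ]; positivity
    positivity
  have hzh : T / h = T * z := by
    have := Q.hz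
    rw [div_eq_iff h0.ne']
    rw [mul_assoc, this, mul_one]
  have hz0 := Q.z0
  have hT5 : 5.07 ≤ T := Q.T5.trans Q.hT
  obtain ⟨Ee, hEe⟩ : ∃ Ee, Ee = Real.exp (μ * (T / h) * (Real.pi / 2 - κ) - μ * T * ((j : ℝ) + 1 - s)) := ⟨_, rfl⟩
  have hEe0 : 0 < Ee := by rw [hEe]; exact Real.exp_pos _
  have hbr : κ / R / (3 * Real.pi / 2 + tk) + Real.pi / R + κ * p * max 1 Ee +
      Real.exp (-(μ * (T / h) * (Real.pi / 2 + κ) + μ * T * ((j : ℝ) + 1 - s))) + κ / R + HUMP β R tk ≤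
      o + kp * Ee := by
    have h3 : κ / R / (3 * Real.pi / 2 + tk) ≤ kR / (1.5707 - k2) := by
      apply div_le_div₀ hkR0 hkR (by linarith only [hk15])
      rw [htk]; linarith only [hmh, hpi, h2]
    have h4 : Real.pi / R ≤ 3.1416 * iR := by
      have : Real.pi / R = Real.pi * (1 / R) := by ring
      rw [this]
      exact mul_le_mul (by linarith only [hpi2]) hiR (by positivity) (by norm_num)
    have h5 : κ * p * max 1 Ee ≤ kp + kp * Ee := by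
      have h6 : max 1 Ee ≤ 1 + Ee := max_le (by linarith only [hEe0]) (by linarith only)
      calc κ * p * max 1 Ee ≤ kp * (1 + Ee) := mul_le_mul hkpp h6 (by positivity) hkp0
        _ = _ := by ring
    have h7 : Real.exp (-(μ * (T / h) * (Real.pi / 2 + κ) + μ * T * ((j : ℝ) + 1 - s))) ≤ 1 / 1000 := by
      apply exp_num' 7 (f := 0) le_rfl
      · rw [hzh]
        have a1 : 0 ≤ μ * T * ((j : ℝ) + 1 - s) := by
          apply mul_nonneg (by positivity) (by linarith only [hsj])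
        have a2 : 5.07 * 1.43239 ≤ T * z := mul_le_mul hT5 hz0 (by norm_num) hT.le
        have a3 : 1 * (5.07 * 1.43239) ≤ μ * (T * z) := mul_le_mul hμ1 a2 (by norm_num) hμ0.le
        have a4 : 1 * (5.07 * 1.43239) * 1.57 ≤ μ * (T * z) * (Real.pi / 2 + κ) :=
          mul_le_mul a3 (by linarith only [hpi, hκ]) (by norm_num) (by positivity)
        norm_num at a4 ⊢
        linarith only [a4, a1]
      · norm_num
    have ho := B.ho
    linarith only [h3, h4, h5, h7, ho, hkR, hump]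
  rw [← hEe]
  have ht3 : 0 < 3 * Real.pi / 2 + tk := by linarith only [ht1]
  have hbr0 : 0 ≤ κ / R / (3 * Real.pi / 2 + tk) + Real.pi / R + κ * p * max 1 Ee +
      Real.exp (-(μ * (T / h) * (Real.pi / 2 + κ) + μ * T * ((j : ℝ) + 1 - s))) + κ / R + HUMP β R tk := by
    have : 0 ≤ max 1 Ee := le_trans zero_le_one (le_max_left _ _)
    positivity
  have hmul := mul_le_mul hC0 hbr hbr0 (mul_nonneg B.hal0 (Real.exp_pos _).le)
  refine (add_le_add_right hmul _).trans ?_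
  have hal := B.hal0
  have hR2 := Q.hR
  have e1 : Real.exp (R + T * (-(μ * ((j : ℝ) + 1 - s)) + μ ^ 2 * (1 + G) / 2)) =
      Real.exp R * Real.exp (T * (-(μ * ((j : ℝ) + 1 - s)) + μ ^ 2 * (1 + G) / 2)) := Real.exp_add _ _
  have e2 : Real.exp (0.03 * R) * Ee ≤ Real.exp R * Real.exp (T * (X - μ * ((j : ℝ) + 1 - s))) := by
    rw [hEe, ← Real.exp_add, ← Real.exp_add]
    apply Real.exp_le_exp.2
    have h3 : μ * z * (Real.pi / 2 - κ) - 0.97 * (1 + κ ^ 2) * z ^ 2 ≤ X := by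
      refine le_trans ?_ hX
      have a1 : μ * z * (Real.pi / 2 - κ) ≤ μ * z * (1.5708 - k1) := by
        apply mul_le_mul_of_nonneg_left _ (by positivity)
        linarith only [hpi2, h1]
      have a2 : 0.97 * (1 + k1 ^ 2) * z ^ 2 ≤ 0.97 * (1 + κ ^ 2) * z ^ 2 :=
        mul_le_mul_of_nonneg_right (by linarith only [hkk]) (sq_nonneg z)
      have a3 : 0 ≤ (z - 1.43239) * (0.97 * (1 + k1 ^ 2) * (z + 1.43239) - μ * (1.5708 - k1)) := by
        apply mul_nonneg (by linarith only [hz0])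
        have a4 : 0.97 * (1 + k1 ^ 2) * 2.86478 ≤ 0.97 * (1 + k1 ^ 2) * (z + 1.43239) :=
          mul_le_mul_of_nonneg_left (by linarith only [hz0]) (by positivity)
        linarith only [a4, hμ2, sq_nonneg k1]
      have a5 : 0.97 * (1 + k1 ^ 2) * 2.05174 ≤ 0.97 * (1 + k1 ^ 2) * 1.43239 ^ 2 :=
        mul_le_mul_of_nonneg_left (by norm_num) (by positivity)
      linarith only [a1, a2, a3, a5]
    have h4 := mul_le_mul_of_nonneg_left h3 hT.le
    rw [hzh]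
    have h5 : R = T * ((1 + κ ^ 2) * z ^ 2) := by rw [hR2]; ring
    linarith only [h4, h5]
  have e3 : Real.exp (0.03 * R) ≤ Real.exp R * Real.exp (-(T * Y)) := by
    rw [← Real.exp_add]
    apply Real.exp_le_exp.2
    have h3 := mul_le_mul_of_nonneg_left hY hT.le
    have h5 : R = T * ((1 + κ ^ 2) * z ^ 2) := by rw [hR2]; ring
    linarith only [h3, h5]
  have ho0 : 0 ≤ o := by
    have ho := B.ho
    have : 0 ≤ kR / (1.5707 - k2) := div_nonneg hkR0 (by linarith only [hk15])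
    linarith only [ho, this, hkR0, hkp0, hiR0]
  rw [e1]
  have h6 := mul_le_mul_of_nonneg_left e2 (mul_nonneg hal hkp0)
  have h7 := mul_le_mul_of_nonneg_left e3 (mul_nonneg hal ho0)
  calc pf * (Real.exp R * Real.exp (T * (-(μ * ((j : ℝ) + 1 - s)) + μ ^ 2 * (1 + G) / 2))) +
        al * Real.exp (0.03 * R) * (o + kp * Ee)
      = pf * (Real.exp R * Real.exp (T * (-(μ * ((j : ℝ) + 1 - s)) + μ ^ 2 * (1 + G) / 2))) +
        al * o * Real.exp (0.03 * R) + al * kp * (Real.exp (0.03 * R) * Ee) := by ring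
    _ ≤ pf * (Real.exp R * Real.exp (T * (-(μ * ((j : ℝ) + 1 - s)) + μ ^ 2 * (1 + G) / 2))) +
        al * o * (Real.exp R * Real.exp (-(T * Y))) +
        al * kp * (Real.exp R * Real.exp (T * (X - μ * ((j : ℝ) + 1 - s)))) := by linarith only [h6, h7]
    _ = _ := by ring

/-- convexity of `.4 κ³ - κ` -/
theorem cub_le {a b κ m1 : ℝ} (ha : 0 ≤ a) (h1 : a ≤ κ) (h2 : κ ≤ b) (hma : 0.4 * a ^ 3 - a ≤ m1)
    (hmb : 0.4 * b ^ 3 - b ≤ m1) : 0.4 * κ ^ 3 - κ ≤ m1 := by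
  rcases eq_or_lt_of_le (h1.trans h2) with h3 | h3
  · have : κ = a := le_antisymm (by rw [h3]; exact h2) h1
    rw [this]; exact hma
  have hD : 0 < b - a := by linarith only [h3]
  have h4 : 0 ≤ (κ - a) * (b - κ) * (κ + a + b) :=
    mul_nonneg (mul_nonneg (by linarith only [h1]) (by linarith only [h2])) (by linarith only [ha, h1, h2])
  have a1 := mul_nonneg (by linarith only [h2] : 0 ≤ b - κ) (by linarith only [hma] : 0 ≤ m1 - (0.4 * a ^ 3 - a))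
  have a2 := mul_nonneg (by linarith only [h1] : 0 ≤ κ - a) (by linarith only [hmb] : 0 ≤ m1 - (0.4 * b ^ 3 - b))
  have h5 : (b - a) * (m1 - (0.4 * κ ^ 3 - κ)) = (b - κ) * (m1 - (0.4 * a ^ 3 - a)) +
      (κ - a) * (m1 - (0.4 * b ^ 3 - b)) + 0.4 * ((b - a) * ((κ - a) * (b - κ) * (κ + a + b))) := by ring
  have h6 : 0 ≤ (b - a) * (m1 - (0.4 * κ ^ 3 - κ)) := by
    rw [h5]
    have := mul_nonneg hD.le h4
    linarith only [a1, a2, this]
  have h7 := (mul_nonneg_iff_of_pos_left hD).1 h6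
  linarith only [h7]

/-- the number `G ≥ 0` -/
theorem G_gen {a b κ p P m1 G : ℝ} (ha : 0 ≤ a) (h1 : a ≤ κ) (h2 : κ ≤ b) (hma : 0.4 * a ^ 3 - a ≤ m1)
    (hmb : 0.4 * b ^ 3 - b ≤ m1) (hp0 : 0 ≤ p) (hp : p ≤ P) (hκp : κ * p ≤ 1)
    (hP : P * (m1 + P * (b ^ 2 / 2 + 1 / 5)) ≤ G * (1 + a ^ 2)) (hG : 0 ≤ G) :
    2 / 5 * κ ^ 3 * p - κ * p + (κ * p) ^ 2 / 2 + p ^ 2 * (1 - κ * p + (κ * p) ^ 2 / 2) ^ 3 / 5 ≤ G * (1 + κ ^ 2) := by
  have h3 := cub_le ha h1 h2 hma hmb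
  have hκ0 : 0 ≤ κ := ha.trans h1
  have h4 : 0 ≤ κ * p := mul_nonneg hκ0 hp0
  have h5 : (1 - κ * p + (κ * p) ^ 2 / 2) ^ 3 ≤ 1 := by
    apply pow_le_one₀
    · nlinarith only [h4, hκp]
    · nlinarith only [h4, hκp]
  have h6 : p ^ 2 * (1 - κ * p + (κ * p) ^ 2 / 2) ^ 3 ≤ p ^ 2 * 1 := mul_le_mul_of_nonneg_left h5 (sq_nonneg p)
  have h7 : κ ^ 2 ≤ b ^ 2 := pow_le_pow_left₀ hκ0 h2 2
  have h8 : a ^ 2 ≤ κ ^ 2 := pow_le_pow_left₀ ha h1 2
  have h9 : p * (0.4 * κ ^ 3 - κ) ≤ p * m1 := mul_le_mul_of_nonneg_left h3 hp0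
  have h10 : p ^ 2 * κ ^ 2 ≤ p ^ 2 * b ^ 2 := mul_le_mul_of_nonneg_left h7 (sq_nonneg p)
  have h11 : p * (m1 + p * (b ^ 2 / 2 + 1 / 5)) ≤ G * (1 + a ^ 2) := by
    have hb0 : 0 ≤ b ^ 2 / 2 + 1 / 5 := by positivity
    have a1 : p * (b ^ 2 / 2 + 1 / 5) ≤ P * (b ^ 2 / 2 + 1 / 5) := mul_le_mul_of_nonneg_right hp hb0
    rcases le_total (m1 + P * (b ^ 2 / 2 + 1 / 5)) 0 with a2 | a2
    · have a3 : p * (m1 + p * (b ^ 2 / 2 + 1 / 5)) ≤ 0 :=
        mul_nonpos_of_nonneg_of_nonpos hp0 (by linarith only [a1, a2])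
      have a4 : 0 ≤ G * (1 + a ^ 2) := by positivity
      linarith only [a3, a4]
    · refine le_trans ?_ hP
      calc p * (m1 + p * (b ^ 2 / 2 + 1 / 5)) ≤ p * (m1 + P * (b ^ 2 / 2 + 1 / 5)) :=
            mul_le_mul_of_nonneg_left (by linarith only [a1]) hp0
        _ ≤ P * (m1 + P * (b ^ 2 / 2 + 1 / 5)) := mul_le_mul_of_nonneg_right hp a2
  have h12 : G * (1 + a ^ 2) ≤ G * (1 + κ ^ 2) := mul_le_mul_of_nonneg_left (by linarith only [h8]) hG
  nlinarith only [h6, h9, h10, h11, h12]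

/-- the number `G < 0` -/
theorem G_neg {a b κ p P pm m1 G e c : ℝ} (ha : 0 ≤ a) (h1 : a ≤ κ) (h2 : κ ≤ b) (hma : 0.4 * a ^ 3 - a ≤ m1)
    (hmb : 0.4 * b ^ 3 - b ≤ m1) (hp0 : pm ≤ p) (hp : p ≤ P) (hpm : 0 < pm) (hκp : κ * p ≤ 1)
    (he : 1 - a * pm + (a * pm) ^ 2 / 2 ≤ e) (he0 : 0 ≤ e) (hc : b ^ 2 / 2 + e ^ 3 / 5 ≤ c)
    (hP : P * (m1 + P * c) ≤ G * (1 + b ^ 2)) (hP' : pm * (m1 + pm * c) ≤ G * (1 + b ^ 2)) (hc0 : 0 ≤ c) (hG : G ≤ 0) :
    2 / 5 * κ ^ 3 * p - κ * p + (κ * p) ^ 2 / 2 + p ^ 2 * (1 - κ * p + (κ * p) ^ 2 / 2) ^ 3 / 5 ≤ G * (1 + κ ^ 2) := by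
  have h3 := cub_le ha h1 h2 hma hmb
  have hκ0 : 0 ≤ κ := ha.trans h1
  have hp00 : 0 ≤ p := hpm.le.trans hp0
  have h4 : a * pm ≤ κ * p := mul_le_mul h1 hp0 hpm.le hκ0
  have h40 : 0 ≤ a * pm := mul_nonneg ha hpm.le
  have h5 : (1 - κ * p + (κ * p) ^ 2 / 2) ^ 3 ≤ e ^ 3 := by
    apply pow_le_pow_left₀
    · nlinarith only [h4, hκp, h40]
    · refine le_trans ?_ he
      nlinarith only [h4, hκp, h40]
  have h6 : p ^ 2 * (1 - κ * p + (κ * p) ^ 2 / 2) ^ 3 ≤ p ^ 2 * e ^ 3 := mul_le_mul_of_nonneg_left h5 (sq_nonneg p)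
  have h7 : κ ^ 2 ≤ b ^ 2 := pow_le_pow_left₀ hκ0 h2 2
  have h9 : p * (0.4 * κ ^ 3 - κ) ≤ p * m1 := mul_le_mul_of_nonneg_left h3 hp00
  have h10 : p ^ 2 * κ ^ 2 ≤ p ^ 2 * b ^ 2 := mul_le_mul_of_nonneg_left h7 (sq_nonneg p)
  have h10' : p ^ 2 * (b ^ 2 / 2 + e ^ 3 / 5) ≤ p ^ 2 * c := mul_le_mul_of_nonneg_left hc (sq_nonneg p)
  have h11 : p * (m1 + p * c) ≤ G * (1 + b ^ 2) := by
    -- convex in `p`
    rcases eq_or_lt_of_le (hp0.trans hp) with a1 | a1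
    · have : p = pm := le_antisymm (by rw [a1]; exact hp) hp0
      rw [this]; exact hP'
    have hD : 0 < P - pm := by linarith only [a1]
    have b1 := mul_nonneg (by linarith only [hp] : 0 ≤ P - p) (by linarith only [hP'] : 0 ≤ G * (1 + b ^ 2) - pm * (m1 + pm * c))
    have b2 := mul_nonneg (by linarith only [hp0] : 0 ≤ p - pm) (by linarith only [hP] : 0 ≤ G * (1 + b ^ 2) - P * (m1 + P * c))
    have b3 : 0 ≤ (P - pm) * (c * ((p - pm) * (P - p))) :=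
      mul_nonneg hD.le (mul_nonneg hc0 (mul_nonneg (by linarith only [hp0]) (by linarith only [hp])))
    have b4 : (P - pm) * (G * (1 + b ^ 2) - p * (m1 + p * c)) =
        (P - p) * (G * (1 + b ^ 2) - pm * (m1 + pm * c)) + (p - pm) * (G * (1 + b ^ 2) - P * (m1 + P * c)) +
        (P - pm) * (c * ((p - pm) * (P - p))) := by ring
    have b5 : 0 ≤ (P - pm) * (G * (1 + b ^ 2) - p * (m1 + p * c)) := by
      rw [b4]; linarith only [b1, b2, b3]
    have b6 := (mul_nonneg_iff_of_pos_left hD).1 b5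
    linarith only [b6]
  have h12 : G * (1 + b ^ 2) ≤ G * (1 + κ ^ 2) := by nlinarith only [hG, h7]
  nlinarith only [h6, h9, h10, h10', h11, h12]

end boxl

end Sok
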