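import Pool.Agent.Lib.MP_816dec_an.R1FarI
import Pool.Agent.Lib.MP_816dec_an.R1FarE

/-!
MP_816dec_an (A3, row R1, `b ≥ 9`): far copies on the left on the discs.
-/

set_option autoImplicit false

open Complex Set Filter Topology Metric

namespace Sok

section facts

variable {T0 : ℝ} {b : ℕ} {h κ R t T s z : ℝ}

theorem QD.WL (Q : QD T0 b h κ R t T s z) {β G0 G1 d0 ρ C : ℝ} (hβ : β = κ / R) (hs0 : 0.03 ≤ s) (hs : s ≤ 1)
    (hsh : s * h ≤ 0.6) (h0 : 0.965 * sQ β κ (t - h) ≤ G0) (hG1 : 0 ≤ G1) (h1' : G1 ≤ 1.035 * sQ β κ t)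
    (hd0 : sD κ (t - h) ≤ d0 ^ 4) (hd00 : 0 ≤ d0)
    (hρ : (1.035 / 0.965) ^ 4 * sD κ (t - h) ≤ ρ ^ 4 * sD κ t) (hρ0 : 0 ≤ ρ)
    (hV0 : R - T * C * (1 - s) ^ 2 ≤ R * sE κ (t - h)) (j : ℕ) :
    G0 ^ (-(j : ℤ) - 1) * G1 ^ (-(-(j : ℤ))) ≤
      Real.exp (-R) * (ρ ^ j * (d0 / 0.965) *
        Real.exp (T * (j * (C * (1 - s) ^ 2 - 0.4075 * s ^ 2) + C * (1 - s) ^ 2))) := by
  have hκ := Q.kpos
  have hR := Q.Rpos
  have hT := Q.Tpos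
  have dd1 := Q.dom1 (by linarith) (by linarith)
  have dd0 := Q.dom0 hs0 (by linarith)
  have hβ0 : 0 < β := by rw [hβ]; positivity
  have hkβ : κ / β = R := by rw [hβ]; field_simp
  have hD1 := sD_pos dd1
  have hD0 := sD_pos dd0
  have v1 := Q.V1_le dd1 (by linarith) hsh
  unfold sQ at h0 h1'
  rw [hkβ] at h0 h1'
  have hG0 : 0 < G0 := lt_of_lt_of_le (by positivity) h0
  have r1 := ratio_G_le (ρ := ρ) (X := T * (C * (1 - s) ^ 2 - 0.4075 * s ^ 2))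
    (by norm_num) (by norm_num) hD1 hD0 h1' h0 hρ hρ0 (by nlinarith only [v1, hV0])
  have r3 : G0⁻¹ ≤ d0 / 0.965 * Real.exp (-R + T * (C * (1 - s) ^ 2)) := by
    apply inv_G_le (by norm_num) hD0 h0 hd0 hd00
    linarith only [hV0]
  have e1 : G0 ^ (-(j : ℤ) - 1) * G1 ^ (-(-(j : ℤ))) = (G1 / G0) ^ j * G0⁻¹ := by
    have e2 : -(j : ℤ) - 1 = -(((j + 1 : ℕ) : ℤ)) := by push_cast; ring
    rw [e2, neg_neg, zpow_natCast, zpow_neg, zpow_natCast, div_pow]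
    field_simp
    ring
  rw [e1]
  have h5 : (G1 / G0) ^ j ≤ (ρ * Real.exp (T * (C * (1 - s) ^ 2 - 0.4075 * s ^ 2))) ^ j :=
    pow_le_pow_left₀ (div_nonneg hG1 hG0.le) r1 _
  have h6 := mul_le_mul h5 r3 (inv_nonneg.2 hG0.le) (by positivity)
  refine h6.trans (le_of_eq ?_)
  rw [mul_pow, ← Real.exp_nat_mul]
  have e5 : T * (j * (C * (1 - s) ^ 2 - 0.4075 * s ^ 2) + C * (1 - s) ^ 2) =
      (j : ℝ) * (T * (C * (1 - s) ^ 2 - 0.4075 * s ^ 2)) + T * (C * (1 - s) ^ 2) := by ring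
  rw [e5, Real.exp_add (-R), Real.exp_add ((j : ℝ) * (T * (C * (1 - s) ^ 2 - 0.4075 * s ^ 2)))]
  ring

/-- bound of `sp` on the left, `|τ| ≤ 1/2` -/
theorem QD.spL_a (Q : QD T0 b h κ R t T s z) (d : DomR κ (t - h)) (hs : s ≤ 1) (hr : (1 - s) * h ≤ 0.5) :
    -(1.373 * ((1 - s) * h) / (1 + κ ^ 2)) ≤ sp κ (t - h) := by
  have h0 := Q.h0
  have hA := Q.A1
  have e : t - h + κ = -((1 - s) * h) := by rw [Q.ht]; ring
  have hr0 : 0 ≤ (1 - s) * h := mul_nonneg (by linarith) h0.le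
  have hk53 : κ ≤ 1.53 := by linarith [Q.k1]
  have key : ∀ c : ℝ, c ≤ 1.373 → c * (t - h + κ) / (1 + κ ^ 2) ≤ sp κ (t - h) →
      -(1.373 * ((1 - s) * h) / (1 + κ ^ 2)) ≤ sp κ (t - h) := by
    intro c hc hcs
    refine le_trans ?_ hcs
    rw [e]
    have e2 : c * -((1 - s) * h) / (1 + κ ^ 2) = -(c * ((1 - s) * h) / (1 + κ ^ 2)) := by ring
    rw [e2]
    apply neg_le_neg
    apply div_le_div_of_nonneg_right _ hA.le
    exact mul_le_mul_of_nonneg_right hc hr0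
  rcases le_total ((1 - s) * h) 0.3 with h3 | h3
  · exact key 1.187 (by norm_num) (pLu_00_03 d hk53 (by rw [e]; linarith) (by rw [e]; linarith))
  rcases le_total ((1 - s) * h) 0.4 with h4 | h4
  · exact key 1.257 (by norm_num) (pLu_03_04 d hk53 (by rw [e]; linarith) (by rw [e]; linarith))
  · exact key 1.373 le_rfl (pLu_04_05 d hk53 (by rw [e]; linarith) (by rw [e]; linarith))

/-- bound of `sp` on the left, `.85 ≤ κ ≤ 1`, `|τ| ≤ .51` -/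
theorem QD.spL_b (Q : QD T0 b h κ R t T s z) (d : DomR κ (t - h)) (hs : s ≤ 1) (hr : (1 - s) * h ≤ 0.51)
    (h1 : 0.85 ≤ κ) (h2 : κ ≤ 1) :
    -(1.28 * ((1 - s) * h) / (1 + κ ^ 2)) ≤ sp κ (t - h) := by
  have h0 := Q.h0
  have hκ := Q.kpos
  have e : t - h + κ = -((1 - s) * h) := by rw [Q.ht]; ring
  have hr0 : 0 ≤ (1 - s) * h := mul_nonneg (by linarith) h0.le
  have key := spL_le_box d 1.28 0.85 1 (1 / 2) 0.6526 0 0 0.51 (1 / 2 * (1.28 * 0.51)) _ (by rw [e]; linarith)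
    (by rw [e]; linarith) le_rfl h1 h2 Sok.psi_half
    (chi_box 0.85 0.85 1.1 0.6526 hκ.le h1 (by linarith) (by norm_num) (by norm_num) (by norm_num) (by norm_num) (by norm_num))
    (by rw [zero_mul]; apply mul_nonneg (sq_nonneg κ); nlinarith [sq_nonneg κ]) le_rfl (by norm_num) (by norm_num) rfl
    (by norm_num) rfl (by norm_num) (by norm_num) (by norm_num)
  refine le_trans (le_of_eq ?_) key
  rw [e]; ring

/-- bound of `sp` on the left, `1 ≤ κ`, `|τ| ≤ .54` -/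
theorem QD.spL_c (Q : QD T0 b h κ R t T s z) (d : DomR κ (t - h)) (hs : s ≤ 1) (hr : (1 - s) * h ≤ 0.54)
    (h1 : 1 ≤ κ) :
    -(1.2 * ((1 - s) * h) / (1 + κ ^ 2)) ≤ sp κ (t - h) := by
  have h0 := Q.h0
  have hκ := Q.kpos
  have hk := Q.k1
  have e : t - h + κ = -((1 - s) * h) := by rw [Q.ht]; ring
  have hr0 : 0 ≤ (1 - s) * h := mul_nonneg (by linarith) h0.le
  have key := spL_le_box d 1.2 1 1.53 (1 / 2) 0.5001 0 0 0.54 (1 / 2 * (1.2 * 0.54)) _ (by rw [e]; linarith)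
    (by rw [e]; linarith) le_rfl h1 (by linarith) Sok.psi_half
    (chi_box 1 1 1.53 0.5001 hκ.le h1 (by linarith) (by norm_num) (by norm_num) (by norm_num) (by norm_num) (by norm_num))
    (by rw [zero_mul]; apply mul_nonneg (sq_nonneg κ); nlinarith [sq_nonneg κ]) le_rfl (by norm_num) (by norm_num) rfl
    (by norm_num) rfl (by norm_num) (by norm_num) (by norm_num)
  refine le_trans (le_of_eq ?_) key
  rw [e]; ring

/-- the denominator on the left, from a bound of `sp` -/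
theorem QD.D0_le (Q : QD T0 b h κ R t T s z) (d : DomR κ (t - h)) (hs : s ≤ 1) {k2 Cp Y E ψ x D : ℝ}
    (h2 : κ ≤ k2) (hp : -(Cp * ((1 - s) * h) / (1 + κ ^ 2)) ≤ sp κ (t - h)) (hCp : 0 ≤ Cp)
    (hψ : κ / (1 + κ ^ 2) ≤ ψ) (hx : (1 - s) * h ≤ x) (hY : Cp * ψ * x ≤ Y) (hY13 : Y ≤ 13 / 20)
    (hE : 1 + Y + Y ^ 2 / 2 + Y ^ 3 / 5 ≤ E) (hD1 : 1 + k2 ^ 2 ≤ D) (hD2 : k2 ^ 2 * E ^ 2 + 1 - 2 * Y ≤ D) :
    sD κ (t - h) ≤ D ∧ (∀ rt : ℝ, 1 ≤ rt → rt ≤ E ^ 2 → k2 ^ 2 * (E ^ 2 - rt) ≤ rt - 1 + 2 * Y →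
      sD κ (t - h) ≤ rt * (1 + κ ^ 2)) := by
  have h0 := Q.h0
  have hκ := Q.kpos
  have hA := Q.A1
  have e : t - h + κ = -((1 - s) * h) := by rw [Q.ht]; ring
  have hr0 : 0 ≤ (1 - s) * h := mul_nonneg (by linarith) h0.le
  have hy0 := sy_nonpos d (by rw [e]; linarith)
  have hy1 : -Y ≤ sy κ (t - h) := by
    rw [sy_eq_sp d]
    have h3 := mul_le_mul_of_nonneg_left hp hκ.le
    refine le_trans ?_ h3
    have h4 : κ * -(Cp * ((1 - s) * h) / (1 + κ ^ 2)) = -(Cp * (κ / (1 + κ ^ 2)) * ((1 - s) * h)) := by ring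
    rw [h4]
    apply neg_le_neg
    refine le_trans ?_ hY
    have h5 : 0 ≤ κ / (1 + κ ^ 2) := div_nonneg hκ.le hA.le
    exact mul_le_mul (mul_le_mul_of_nonneg_left hψ hCp) hx hr0 (mul_nonneg hCp (h5.trans hψ))
  have hY0 : 0 ≤ Y := by linarith only [hy0, hy1]
  have h3 := DL_le d hy0 hy1
  have hEY : Real.exp Y ≤ E := (r1_exp_le3 hY0 hY13).trans hE
  have hE2 : Real.exp (2 * Y) ≤ E ^ 2 := by
    have : Real.exp (2 * Y) = Real.exp Y ^ 2 := by rw [← Real.exp_nat_mul]; congr 1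
    rw [this]
    exact pow_le_pow_left₀ (Real.exp_pos _).le hEY 2
  have hkk : κ ^ 2 ≤ k2 ^ 2 := pow_le_pow_left₀ hκ.le h2 2
  have h4 : κ ^ 2 * Real.exp (2 * Y) ≤ κ ^ 2 * E ^ 2 := mul_le_mul_of_nonneg_left hE2 (sq_nonneg κ)
  constructor
  · rw [sD]
    refine h3.trans (max_le (by linarith only [hkk, hD1]) ?_)
    have h5 : κ ^ 2 * E ^ 2 ≤ k2 ^ 2 * E ^ 2 := mul_le_mul_of_nonneg_right hkk (sq_nonneg E)
    linarith only [h4, h5, hD2]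
  · intro rt hrt1 hrtE hrt
    rw [sD]
    refine h3.trans (max_le ?_ ?_)
    · nlinarith only [hrt1, hA]
    · have h5 : κ ^ 2 * (E ^ 2 - rt) ≤ k2 ^ 2 * (E ^ 2 - rt) := mul_le_mul_of_nonneg_right hkk (by linarith only [hrtE])
      linarith only [h4, h5, hrt]

/-- the denominator on the right, `κ ≤ 1` -/
theorem QD.D1_geF (Q : QD T0 b h κ R t T s z) (d : DomR κ t) (hs : 0 ≤ s) (h1 : κ ≤ 1) :
    1 + κ ^ 2 ≤ sD κ t := by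
  have e : t + κ = s * h := by rw [Q.ht]; ring
  rw [sD]
  exact DR_ge d (by rw [e]; exact mul_nonneg hs Q.h0.le) h1

/-- the denominator on the right, `κ ≥ 1` -/
theorem QD.D1_ge' (Q : QD T0 b h κ R t T s z) (d : DomR κ t) {k1 : ℝ} (hk1 : 0 < k1) (h1 : k1 ≤ κ) :
    4 - 2 / k1 ≤ sD κ t := by
  have hκ := Q.kpos
  have h2 := D_ge_log d
  have h3 := Real.one_sub_inv_le_log_of_pos hκ
  have h4 : κ⁻¹ ≤ k1⁻¹ := inv_anti₀ hk1 h1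
  rw [sD]
  have e : 2 / k1 = 2 * k1⁻¹ := by ring
  rw [e]
  linarith only [h2, h3, h4]

end facts

section boxl

variable {b : ℕ} {h κ R t T s z : ℝ} {k1 k2 Hm μm ψ kp Pm nn pf al kR iR o : ℝ}

/-- discs, horizontal line on the left -/
theorem BoxL.DHU (B : BoxL k1 k2 Hm μm ψ kp Pm nn pf al kR iR o) (Q : QD 5.07 b h κ R t T s z)
    (h1 : k1 ≤ κ) (h2 : κ ≤ k2) (hH : h ≤ Hm) {β : ℝ} (hβ : β = κ / R) (j : ℕ) {μ G X Y : ℝ} (hμ1 : 1 ≤ μ) (hμ : μ ≤ μm)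
    (hs0 : 0 ≤ s) (hsj : s ≤ j + 1) (hj : (j + 1 : ℝ) * h ≤ Real.pi)
    (hG : ∀ p, p = μ * h / (1 + κ ^ 2) → 2 / 5 * κ ^ 3 * p - κ * p + (κ * p) ^ 2 / 2 +
      p ^ 2 * (1 - κ * p + (κ * p) ^ 2 / 2) ^ 3 / 5 ≤ G * (1 + κ ^ 2))
    (hX : 1.43239 * μ * (1.5708 - k1) - 0.97 * (1 + k1 ^ 2) * 2.05174 ≤ X)
    (hμ2 : μ * (1.5708 - k1) ≤ 2.778 * (1 + k1 ^ 2))
    (hY : Y ≤ 0.97 * (1 + κ ^ 2) * z ^ 2) {W ρ c0 C E1 E2 E3 : ℝ}
    (hW0 : 0 ≤ W)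
    (hW : W ≤ Real.exp (-R) * (ρ ^ j * c0 * Real.exp (T * (j * (C * (1 - s) ^ 2 - 0.4075 * s ^ 2) + C * (1 - s) ^ 2))))
    (hc0 : 0 ≤ c0) (hρ : 0 ≤ ρ)
    (hE1 : E1 ≤ μ * (j + 1 - s) - μ ^ 2 * (1 + G) / 2 - (j * (C * (1 - s) ^ 2 - 0.4075 * s ^ 2) + C * (1 - s) ^ 2))
    (hE10 : 0 ≤ E1)
    (hE2 : E2 ≤ μ * (j + 1 - s) - X - (j * (C * (1 - s) ^ 2 - 0.4075 * s ^ 2) + C * (1 - s) ^ 2)) (hE20 : 0 ≤ E2)
    (hE3 : E3 ≤ Y - (j * (C * (1 - s) ^ 2 - 0.4075 * s ^ 2) + C * (1 - s) ^ 2)) (hE30 : 0 ≤ E3) :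
    ‖Xf β R h t (-(j : ℤ))‖ * W ≤ ρ ^ j * c0 * (pf * Real.exp (-(5.07 * E1)) +
      al * kp * Real.exp (-(5.07 * E2)) + al * o * Real.exp (-(5.07 * E3))) := by
  have hT := Q.hT
  have hT0 := Q.Tpos
  have key := B.HU Q h1 h2 hH hβ j hμ1 hμ hs0 hsj hj hG hX hμ2 hY
  have hal := B.hal0
  have hpf := B.hpf0
  have hκ := Q.kpos
  have hkp0 : 0 ≤ kp := by
    have h3 := psi_ok B.hψ hκ.le h2
    have h4 : 0 ≤ κ / (1 + κ ^ 2) := div_nonneg hκ.le Q.A1.le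
    refine le_trans ?_ B.hkp
    apply mul_nonneg (h4.trans h3) (mul_nonneg (by linarith only [B.hμ1]) B.Hm0.le)
  have ho0 : 0 ≤ o := by
    have ho := B.ho
    have h3 := kR_ok Q (psi_ok B.hψ hκ.le h2) B.hkR
    have hkR0 : 0 ≤ kR := (div_nonneg hκ.le Q.Rpos.le).trans h3
    have : 0 ≤ kR / (1.5707 - k2) := div_nonneg hkR0 (by linarith only [B.k15])
    have hiR0 : 0 ≤ iR := by
      have h3 := B.hiR
      by_contra hcon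
      push Not at hcon
      nlinarith only [h3, hcon, sq_nonneg k1]
    linarith only [ho, this, hkR0, hkp0, hiR0]
  obtain ⟨w, hw⟩ : ∃ w, w = (j : ℝ) * (C * (1 - s) ^ 2 - 0.4075 * s ^ 2) + C * (1 - s) ^ 2 := ⟨_, rfl⟩
  rw [← hw] at hW hE1 hE2 hE3
  have h3 := prod_R key hW hW0 (by positivity)
  refine h3.trans ?_
  have hrc : 0 ≤ ρ ^ j * c0 := by positivity
  have x1 : Real.exp (T * (-(μ * (j + 1 - s)) + μ ^ 2 * (1 + G) / 2)) * Real.exp (T * w) ≤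
      Real.exp (-(5.07 * E1)) := by
    rw [← Real.exp_add, ← mul_add]
    apply Real.exp_le_exp.2
    have a1 : T * (-(μ * (j + 1 - s)) + μ ^ 2 * (1 + G) / 2 + w) ≤ T * (-E1) :=
      mul_le_mul_of_nonneg_left (by linarith only [hE1]) hT0.le
    have a2 := mul_le_mul_of_nonneg_right hT hE10
    linarith only [a1, a2]
  have x2 : Real.exp (T * (X - μ * (j + 1 - s))) * Real.exp (T * w) ≤ Real.exp (-(5.07 * E2)) := by
    rw [← Real.exp_add, ← mul_add]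
    apply Real.exp_le_exp.2
    have a1 : T * (X - μ * (j + 1 - s) + w) ≤ T * (-E2) :=
      mul_le_mul_of_nonneg_left (by linarith only [hE2]) hT0.le
    have a2 := mul_le_mul_of_nonneg_right hT hE20
    linarith only [a1, a2]
  have x3 : Real.exp (-(T * Y)) * Real.exp (T * w) ≤ Real.exp (-(5.07 * E3)) := by
    rw [← Real.exp_add]
    apply Real.exp_le_exp.2
    have a1 : T * (w - Y) ≤ T * (-E3) := mul_le_mul_of_nonneg_left (by linarith only [hE3]) hT0.le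
    have a2 := mul_le_mul_of_nonneg_right hT hE30
    linarith only [a1, a2]
  have y1 := mul_le_mul_of_nonneg_left x1 hpf
  have y2 := mul_le_mul_of_nonneg_left x2 (mul_nonneg hal hkp0)
  have y3 := mul_le_mul_of_nonneg_left x3 (mul_nonneg hal ho0)
  calc _ = ρ ^ j * c0 * (pf * (Real.exp (T * (-(μ * (j + 1 - s)) + μ ^ 2 * (1 + G) / 2)) * Real.exp (T * w)) +
        al * kp * (Real.exp (T * (X - μ * (j + 1 - s))) * Real.exp (T * w)) +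
        al * o * (Real.exp (-(T * Y)) * Real.exp (T * w))) := by ring
    _ ≤ _ := by
      apply mul_le_mul_of_nonneg_left _ hrc
      linarith only [y1, y2, y3]

/-- `j ≥ 2`, `μ = 1.3` -/
theorem left_E {j s s2 C gL : ℝ} (hj : 2 ≤ j) (hs1 : 1.02 - s2 ≤ s) (hs2 : s ≤ 1) (hC : 0.4075 ≤ C)
    (hs3 : s2 ≤ 1.02)
    (hg : C * (s2 - 0.02) ^ 2 - 0.4075 * (1.02 - s2) ^ 2 ≤ gL) :
    j * (C * (1 - s) ^ 2 - 0.4075 * s ^ 2) + C * (1 - s) ^ 2 ≤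
      j * gL + C * (s2 - 0.02) ^ 2 - 1.3 * (s - (1.02 - s2)) := by
  have hv : 0 ≤ s - (1.02 - s2) := by linarith only [hs1]
  have a1 : C * (1 - s) ^ 2 - 0.4075 * s ^ 2 ≤ gL - 0.815 * (s - (1.02 - s2)) := by
    have a2 : 0 ≤ (s - (1.02 - s2)) * ((C - 0.4075) * ((1 - s) + (s2 - 0.02))) :=
      mul_nonneg hv (mul_nonneg (by linarith only [hC]) (by linarith only [hs2, hs1, hs3]))
    nlinarith only [a2, hg]
  have a3 : C * (1 - s) ^ 2 ≤ C * (s2 - 0.02) ^ 2 := by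
    apply mul_le_mul_of_nonneg_left _ (by linarith only [hC])
    exact pow_le_pow_left₀ (by linarith only [hs2]) (by linarith only [hs1]) 2
  have a4 := mul_le_mul_of_nonneg_left a1 (by linarith only [hj] : 0 ≤ j)
  have a5 := mul_nonneg (by linarith only [hj] : 0 ≤ j - 2) hv
  linarith only [a3, a4, a5, hv]

/-- the numbers of a box on the left, `μ = 1.3` -/
structure NumL (k1 s2 pf al kp o G X C gL c0 ρ : ℝ) : Prop where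
  hc0 : 0 ≤ c0
  hρ : 0 ≤ ρ
  hC : 0.4075 ≤ C
  hs3 : s2 ≤ 0.79
  hg : C * (s2 - 0.02) ^ 2 - 0.4075 * (1.02 - s2) ^ 2 ≤ gL
  hX : 1.43239 * 1.3 * (1.5708 - k1) - 0.97 * (1 + k1 ^ 2) * 2.05174 ≤ X
  hμ2 : 1.3 * (1.5708 - k1) ≤ 2.778 * (1 + k1 ^ 2)
  hd1 : 0.9 ≤ 1.3 - gL
  hd3 : 0.9 ≤ 0.97 * (1 + k1 ^ 2) * 1.2158 - gL
  h2 : ∃ e1 e2 e3 : ℝ, 0 ≤ 1.3 * (2 + (s2 - 0.02)) - 0.845 * (1 + G) - 2 * gL - C * (s2 - 0.02) ^ 2 ∧
    Real.exp (-(5.07 * (1.3 * (2 + (s2 - 0.02)) - 0.845 * (1 + G) - 2 * gL - C * (s2 - 0.02) ^ 2))) ≤ e1 ∧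
    0 ≤ 1.3 * (2 + (s2 - 0.02)) - X - 2 * gL - C * (s2 - 0.02) ^ 2 ∧
    Real.exp (-(5.07 * (1.3 * (2 + (s2 - 0.02)) - X - 2 * gL - C * (s2 - 0.02) ^ 2))) ≤ e2 ∧
    0 ≤ 0.97 * (1 + k1 ^ 2) * 2.05174 - 2 * gL - C * (s2 - 0.02) ^ 2 ∧
    Real.exp (-(5.07 * (0.97 * (1 + k1 ^ 2) * 2.05174 - 2 * gL - C * (s2 - 0.02) ^ 2))) ≤ e3 ∧
    ρ ^ 2 * c0 * (pf * e1 + al * kp * e2 + al * o * e3) ≤ 1 / 500
  h3 : ∃ e1 e2 e3 : ℝ, 0 ≤ 1.3 * (3 + (s2 - 0.02)) - 0.845 * (1 + G) - 3 * gL - C * (s2 - 0.02) ^ 2 ∧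
    Real.exp (-(5.07 * (1.3 * (3 + (s2 - 0.02)) - 0.845 * (1 + G) - 3 * gL - C * (s2 - 0.02) ^ 2))) ≤ e1 ∧
    0 ≤ 1.3 * (3 + (s2 - 0.02)) - X - 3 * gL - C * (s2 - 0.02) ^ 2 ∧
    Real.exp (-(5.07 * (1.3 * (3 + (s2 - 0.02)) - X - 3 * gL - C * (s2 - 0.02) ^ 2))) ≤ e2 ∧
    0 ≤ 0.97 * (1 + k1 ^ 2) * 2.05174 - 3 * gL - C * (s2 - 0.02) ^ 2 ∧
    Real.exp (-(5.07 * (0.97 * (1 + k1 ^ 2) * 2.05174 - 3 * gL - C * (s2 - 0.02) ^ 2))) ≤ e3 ∧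
    ρ ^ 3 * c0 * (pf * e1 + al * kp * e2 + al * o * e3) ≤ 3 / 500
  h4 : ∃ e1 e2 e3 : ℝ, 0 ≤ 1.3 * (4 + (s2 - 0.02)) - 0.845 * (1 + G) - 4 * gL - C * (s2 - 0.02) ^ 2 ∧
    Real.exp (-(5.07 * (1.3 * (4 + (s2 - 0.02)) - 0.845 * (1 + G) - 4 * gL - C * (s2 - 0.02) ^ 2))) ≤ e1 ∧
    0 ≤ 1.3 * (4 + (s2 - 0.02)) - X - 4 * gL - C * (s2 - 0.02) ^ 2 ∧
    Real.exp (-(5.07 * (1.3 * (4 + (s2 - 0.02)) - X - 4 * gL - C * (s2 - 0.02) ^ 2))) ≤ e2 ∧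
    0 ≤ 0.97 * (1 + k1 ^ 2) * 2.53302 - 4 * gL - C * (s2 - 0.02) ^ 2 ∧
    Real.exp (-(5.07 * (0.97 * (1 + k1 ^ 2) * 2.53302 - 4 * gL - C * (s2 - 0.02) ^ 2))) ≤ e3 ∧
    ρ ^ 4 * c0 * (pf * e1 + al * kp * e2 + al * o * e3) ≤ 1 / 500
  h5 : ∃ e1 e2 e3 : ℝ, 0 ≤ 1.3 * (5 + (s2 - 0.02)) - 0.845 * (1 + G) - 5 * gL - C * (s2 - 0.02) ^ 2 ∧
    Real.exp (-(5.07 * (1.3 * (5 + (s2 - 0.02)) - 0.845 * (1 + G) - 5 * gL - C * (s2 - 0.02) ^ 2))) ≤ e1 ∧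
    0 ≤ 1.3 * (5 + (s2 - 0.02)) - X - 5 * gL - C * (s2 - 0.02) ^ 2 ∧
    Real.exp (-(5.07 * (1.3 * (5 + (s2 - 0.02)) - X - 5 * gL - C * (s2 - 0.02) ^ 2))) ≤ e2 ∧
    0 ≤ 0.97 * (1 + k1 ^ 2) * 3.6475 - 5 * gL - C * (s2 - 0.02) ^ 2 ∧
    Real.exp (-(5.07 * (0.97 * (1 + k1 ^ 2) * 3.6475 - 5 * gL - C * (s2 - 0.02) ^ 2))) ≤ e3 ∧
    ρ ^ 5 * c0 * (pf * e1 + al * kp * e2 + al * o * e3) ≤ 1 / 2000
  hρg : ρ * 0.0105 ≤ 1 / 4

theorem Mfar_m2 : Mfar (-((2 : ℕ) : ℤ)) = 1 / 500 := by norm_num [Mfar]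

theorem Mfar_m3 : Mfar (-((3 : ℕ) : ℤ)) = 3 / 500 := by norm_num [Mfar]

theorem Mfar_m4 : Mfar (-((4 : ℕ) : ℤ)) = 1 / 500 := by norm_num [Mfar]

theorem Mfar_m5 (m : ℕ) : Mfar (-((m + 5 : ℕ) : ℤ)) = 1 / 2000 * (1 / 4) ^ m := by
  unfold Mfar
  have e : (-((m + 5 : ℕ) : ℤ)).natAbs - 5 = m := by omega
  rw [if_neg (by omega), if_neg (by omega), if_neg (by omega), if_neg (by omega), if_neg (by omega),
    if_neg (by omega), e]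

theorem QD.hj {T0 : ℝ} (Q : QD T0 b h κ R t T s z) {j : ℕ} (hn : 2 * (j + 1) ≤ b) : (j + 1 : ℝ) * h ≤ Real.pi := by
  have h1 : (2 : ℝ) * (j + 1) ≤ b := by exact_mod_cast hn
  have h2 := mul_le_mul_of_nonneg_right h1 Q.h0.le
  have h3 : (b : ℝ) * h = 2 * Real.pi := by
    rw [← Q.hbz, mul_assoc, Q.hz, mul_one]
  linarith only [h2, h3]

theorem QD.zL {T0 : ℝ} (Q : QD T0 b h κ R t T s z) {n : ℝ} (hn0 : 0 ≤ n) (hn : n ≤ b) : n ^ 2 ≤ 39.4785 * z ^ 2 := by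
  have h1 := Q.z_ge hn
  have h2 := pow_le_pow_left₀ hn0 h1 2
  have h3 : (6.283186 * z) ^ 2 = 6.283186 ^ 2 * z ^ 2 := by ring
  rw [h3] at h2
  linarith only [h2, sq_nonneg z]

/-- all the copies `k ≤ -2` -/
theorem BoxL.left (B : BoxL k1 k2 0.69814 1.3 ψ kp Pm nn pf al kR iR o) (Q : QD 5.07 b h κ R t T s z)
    (h1 : k1 ≤ κ) (h2 : κ ≤ k2) {β : ℝ} (hβ : β = κ / R) {s2 G X C gL c0 ρ : ℝ} (hs1 : 1.02 - s2 ≤ s) (hs2 : s ≤ 1)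
    (hG : ∀ p, p = 1.3 * h / (1 + κ ^ 2) → 2 / 5 * κ ^ 3 * p - κ * p + (κ * p) ^ 2 / 2 +
      p ^ 2 * (1 - κ * p + (κ * p) ^ 2 / 2) ^ 3 / 5 ≤ G * (1 + κ ^ 2))
    (N : NumL k1 s2 pf al kp o G X C gL c0 ρ) {W : ℕ → ℝ} (hW0 : ∀ j, 0 ≤ W j)
    (hW : ∀ j : ℕ, W j ≤ Real.exp (-R) * (ρ ^ j * c0 *
      Real.exp (T * (j * (C * (1 - s) ^ 2 - 0.4075 * s ^ 2) + C * (1 - s) ^ 2))))
    (j : ℕ) (hj2 : 2 ≤ j) (hn : 2 * (j + 1) ≤ b) :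
    ‖Xf β R h t (-(j : ℤ))‖ * W j ≤ Mfar (-(j : ℤ)) := by
  have hk1 := B.k1p
  have hs79 := N.hs3
  have hκ := Q.kpos
  have hkk : k1 ^ 2 ≤ κ ^ 2 := pow_le_pow_left₀ (by linarith only [hk1]) h1 2
  have hal := B.hal0
  have hpf := B.hpf0
  have hkp0 : 0 ≤ kp := by
    have h3 := psi_ok B.hψ hκ.le h2
    have h4 : 0 ≤ κ / (1 + κ ^ 2) := div_nonneg hκ.le Q.A1.le
    refine le_trans ?_ B.hkp
    apply mul_nonneg (h4.trans h3) (by norm_num)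
  have ho0 : 0 ≤ o := by
    have ho := B.ho
    have h3 := kR_ok Q (psi_ok B.hψ hκ.le h2) B.hkR
    have hkR0 : 0 ≤ kR := (div_nonneg hκ.le Q.Rpos.le).trans h3
    have : 0 ≤ kR / (1.5707 - k2) := div_nonneg hkR0 (by linarith only [B.k15])
    have hiR0 : 0 ≤ iR := by
      have h3 := B.hiR
      by_contra hcon
      push Not at hcon
      nlinarith only [h3, hcon, sq_nonneg k1]
    linarith only [ho, this, hkR0, hkp0, hiR0]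
  -- the generic step
  have gen : ∀ (i : ℕ) (Z e1 e2 e3 : ℝ), 2 ≤ i → 2 * (i + 1) ≤ b → 0 ≤ Z → Z ≤ z ^ 2 →
      0 ≤ 1.3 * (i + (s2 - 0.02)) - 0.845 * (1 + G) - i * gL - C * (s2 - 0.02) ^ 2 →
      Real.exp (-(5.07 * (1.3 * (i + (s2 - 0.02)) - 0.845 * (1 + G) - i * gL - C * (s2 - 0.02) ^ 2))) ≤ e1 →
      0 ≤ 1.3 * (i + (s2 - 0.02)) - X - i * gL - C * (s2 - 0.02) ^ 2 →
      Real.exp (-(5.07 * (1.3 * (i + (s2 - 0.02)) - X - i * gL - C * (s2 - 0.02) ^ 2))) ≤ e2 →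
      0 ≤ 0.97 * (1 + k1 ^ 2) * Z - i * gL - C * (s2 - 0.02) ^ 2 →
      Real.exp (-(5.07 * (0.97 * (1 + k1 ^ 2) * Z - i * gL - C * (s2 - 0.02) ^ 2))) ≤ e3 →
      ‖Xf β R h t (-(i : ℤ))‖ * W i ≤ ρ ^ i * c0 * (pf * e1 + al * kp * e2 + al * o * e3) := by
    intro i Z e1 e2 e3 hi hib hZ0 hZ p1 q1 p2 q2 p3 q3
    have hi' : (2 : ℝ) ≤ i := by exact_mod_cast hi
    have hE := left_E hi' hs1 hs2 N.hC (by linarith only [hs79]) N.hg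
    have hY : 0.97 * (1 + k1 ^ 2) * Z ≤ 0.97 * (1 + κ ^ 2) * z ^ 2 :=
      mul_le_mul (by linarith only [hkk]) hZ hZ0 (by positivity)
    have key := B.DHU Q h1 h2 Q.hle hβ i (by norm_num : (1 : ℝ) ≤ 1.3) le_rfl
      (by linarith only [hs1, hs79]) (by linarith only [hs2, hi']) (Q.hj hib) hG N.hX N.hμ2 hY (hW0 i) (hW i) N.hc0 N.hρ
      (E1 := 1.3 * (i + (s2 - 0.02)) - 0.845 * (1 + G) - i * gL - C * (s2 - 0.02) ^ 2)
      (by norm_num at hE ⊢; linarith only [hE]) p1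
      (E2 := 1.3 * (i + (s2 - 0.02)) - X - i * gL - C * (s2 - 0.02) ^ 2)
      (by norm_num at hE ⊢; linarith only [hE]) p2
      (E3 := 0.97 * (1 + k1 ^ 2) * Z - i * gL - C * (s2 - 0.02) ^ 2)
      (by linarith only [hE, hs1]) p3
    refine key.trans ?_
    apply mul_le_mul_of_nonneg_left _ (mul_nonneg (pow_nonneg N.hρ _) N.hc0)
    have y1 := mul_le_mul_of_nonneg_left q1 hpf
    have y2 := mul_le_mul_of_nonneg_left q2 (mul_nonneg hal hkp0)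
    have y3 := mul_le_mul_of_nonneg_left q3 (mul_nonneg hal ho0)
    linarith only [y1, y2, y3]
  rcases j with _ | _ | _ | _ | _ | m
  · omega
  · omega
  · obtain ⟨e1, e2, e3, p1, q1, p2, q2, p3, q3, hM⟩ := N.h2
    rw [show (0 + 1 + 1 : ℕ) = 2 from rfl, Mfar_m2]
    refine (gen 2 2.05174 e1 e2 e3 le_rfl hn (by norm_num) Q.zz ?_ ?_ ?_ ?_ ?_ ?_).trans hM <;> push_cast <;> assumption
  · obtain ⟨e1, e2, e3, p1, q1, p2, q2, p3, q3, hM⟩ := N.h3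
    rw [show (0 + 1 + 1 + 1 : ℕ) = 3 from rfl, Mfar_m3]
    refine (gen 3 2.05174 e1 e2 e3 (by norm_num) hn (by norm_num) Q.zz ?_ ?_ ?_ ?_ ?_ ?_).trans hM <;> push_cast <;> assumption
  · obtain ⟨e1, e2, e3, p1, q1, p2, q2, p3, q3, hM⟩ := N.h4
    rw [show (0 + 1 + 1 + 1 + 1 : ℕ) = 4 from rfl, Mfar_m4]
    have h10 : (10 : ℝ) ≤ b := by
      have : 10 ≤ b := by omega
      exact_mod_cast this
    have hZ := Q.zL (by norm_num) h10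
    refine (gen 4 2.53302 e1 e2 e3 (by norm_num) hn (by norm_num) (by linarith only [hZ]) ?_ ?_ ?_ ?_ ?_ ?_).trans hM <;>
      push_cast <;> assumption
  · obtain ⟨e1, e2, e3, p1, q1, p2, q2, p3, q3, hM⟩ := N.h5
    have e : (m + 1 + 1 + 1 + 1 + 1 : ℕ) = m + 5 := rfl
    rw [e] at hn ⊢
    rw [Mfar_m5]
    have hm0 : (0 : ℝ) ≤ m := Nat.cast_nonneg m
    have hZ : 3.6475 + 1.2158 * (m : ℝ) ≤ z ^ 2 := by
      have hnb : 2 * ((m : ℝ) + 5 + 1) ≤ b := by exact_mod_cast hn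
      have h3 := Q.zL (n := 2 * (m : ℝ) + 12) (by positivity) (by linarith only [hnb])
      nlinarith only [h3, sq_nonneg (m : ℝ), hm0]
    have hd1 := mul_le_mul_of_nonneg_left N.hd1 hm0
    have hd3 := mul_le_mul_of_nonneg_left N.hd3 hm0
    have geo : ∀ {x y e : ℝ}, x + m * 0.9 ≤ y → Real.exp (-(5.07 * x)) ≤ e →
        Real.exp (-(5.07 * y)) ≤ e * 0.0105 ^ m := by
      intro x y e hxy he
      calc Real.exp (-(5.07 * y)) ≤ Real.exp (-(5.07 * x) + (m : ℝ) * (-(5.07 * 0.9))) :=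
            Real.exp_le_exp.2 (by linarith only [hxy])
        _ = Real.exp (-(5.07 * x)) * Real.exp (-(5.07 * 0.9)) ^ m := by rw [Real.exp_add, Real.exp_nat_mul]
        _ ≤ e * 0.0105 ^ m := by
            apply mul_le_mul he (pow_le_pow_left₀ (Real.exp_pos _).le ?_ m) (by positivity) ((Real.exp_pos _).le.trans he)
            exact exp_num' 4 (f := 0.563) (by norm_num) (by norm_num) (by norm_num)
    have hm9 : 0 ≤ (m : ℝ) * 0.9 := by positivity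
    refine (gen (m + 5) (3.6475 + 1.2158 * (m : ℝ)) (e1 * 0.0105 ^ m) (e2 * 0.0105 ^ m) (e3 * 0.0105 ^ m) hj2 hn
      (by positivity) hZ ?_ (geo ?_ q1) ?_ (geo ?_ q2) ?_ (geo ?_ q3)).trans ?_
    · push_cast; linarith only [p1, hd1, hm9]
    · push_cast; linarith only [hd1]
    · push_cast; linarith only [p2, hd1, hm9]
    · push_cast; linarith only [hd1]
    · push_cast; linarith only [p3, hd3, hm9]
    · push_cast; linarith only [hd3]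
    · calc ρ ^ (m + 5) * c0 * (pf * (e1 * 0.0105 ^ m) + al * kp * (e2 * 0.0105 ^ m) + al * o * (e3 * 0.0105 ^ m))
          = ρ ^ 5 * c0 * (pf * e1 + al * kp * e2 + al * o * e3) * (ρ * 0.0105) ^ m := by rw [mul_pow]; ring
        _ ≤ 1 / 2000 * (1 / 4) ^ m := by
            apply mul_le_mul hM (pow_le_pow_left₀ (mul_nonneg N.hρ (by norm_num)) N.hρg m)
              (pow_nonneg (mul_nonneg N.hρ (by norm_num)) m) (by norm_num)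

end boxl

end Sok
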