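import Pool.Agent.Lib.MP_816dec_an.R1FarJ

/-!
MP_816dec_an (A3, row R1, `b ≥ 9`): far copies on the left on the discs, the boxes (generated file).
-/

set_option autoImplicit false

open Complex Set Filter Topology Metric

namespace Sok

theorem c_loF {κ k2 c : ℝ} (h0 : 0 ≤ κ) (h2 : κ ≤ k2) (hk : k2 ≤ 1) (hc : k2 * (1 / 2 - k2 ^ 2 / 6) ≤ c) :
    κ * (1 / 2 - κ ^ 2 / 6) ≤ c := by
  refine le_trans ?_ hc
  have h3 : κ ^ 2 + κ * k2 + k2 ^ 2 ≤ 3 := by nlinarith only [h0, h2, hk]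
  have h4 := mul_nonneg (by linarith only [h2] : 0 ≤ k2 - κ) (by linarith only [h3] : 0 ≤ 3 - (κ ^ 2 + κ * k2 + k2 ^ 2))
  linarith only [h4]

theorem c_hiF {κ c : ℝ} (h0 : 0 ≤ κ) (hc : 1 / 3 ≤ c) : κ * (1 / 2 - κ ^ 2 / 6) ≤ c := by
  have := mul_nonneg (by linarith only [h0] : 0 ≤ κ + 2) (sq_nonneg (κ - 1))
  linarith only [this, hc]

theorem left_all {k1 k2 s2 ψ kp Pm nn pf al kR iR o G X C gL d0 ρ : ℝ}
    (B : BoxL k1 k2 0.69814 1.3 ψ kp Pm nn pf al kR iR o) (N : NumL k1 s2 pf al kp o G X C gL (d0 / 0.965) ρ)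
    (hs2 : 1 + 1.15 * k2 ^ 2 ≤ (10 * (s2 - 0.6)) ^ 2) (hs26 : 0.6 ≤ s2)
    {m1 sm c x : ℝ} (hma : 0.4 * k1 ^ 3 - k1 ≤ m1) (hmb : 0.4 * k2 ^ 3 - k2 ≤ m1)
    (hP : Pm * (m1 + Pm * (k2 ^ 2 / 2 + 1 / 5)) ≤ G * (1 + k1 ^ 2)) (hG : 0 ≤ G)
    (hx : (s2 - 0.02) * 0.69814 ≤ x)
    (hsm : x ≤ sm * (1 + k1 ^ 2)) (hsm1 : sm ≤ 1)
    (hc : k2 * (1 / 2 - k2 ^ 2 / 6) ≤ c ∧ k2 ≤ 1 ∨ 1 / 3 ≤ c) (hc0 : 0 ≤ c)
    (hC : c * sm + k2 ^ 4 * sm ^ 2 / 12 + (1 + k2 * sm) * (sm ^ 2 / 12 + sm ^ 4 / 24) ≤ (C - 1 / 2) * (1 + k1 ^ 2))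
    {b : ℕ} {h κ R t β G0 G1 : ℝ}
    (hD : ∀ {T s z : ℝ}, QD 5.07 b h κ R t T s z → 1.02 - s2 ≤ s → s ≤ s2 → DomR κ (t - h) → DomR κ t →
      (1 - s) * h ≤ x →
      sD κ (t - h) ≤ d0 ^ 4 ∧ (1.035 / 0.965) ^ 4 * sD κ (t - h) ≤ ρ ^ 4 * sD κ t)
    (H : DP b h κ R t) (hκ : 0.29 ≤ κ) (h1 : k1 ≤ κ) (h2 : κ ≤ k2)
    (hβ : β = κ / R) (g0 : 0.965 * sQ β κ (t - h) ≤ G0) (hG1 : 0 ≤ G1) (g1 : G1 ≤ 1.035 * sQ β κ t)
    (j : ℕ) (hj2 : 2 ≤ j) (hn : 2 * (j + 1) ≤ b) :
    ‖Xf β R h t (-(j : ℤ))‖ * (G0 ^ (-(j : ℤ) - 1) * G1 ^ (-(-(j : ℤ)))) ≤ Mfar (-(j : ℤ)) := by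
  obtain ⟨T, s, z, Q, hs1, hs2'⟩ := H.qd hκ
  have hκ0 := Q.kpos
  have hk10 : 0 ≤ k1 := by linarith only [B.k1p]
  have hsg : sgm κ ≤ s2 - 0.6 := by
    unfold sgm
    rw [div_le_iff₀ (by norm_num)]
    apply Real.sqrt_le_iff.2
    refine ⟨by linarith only [hs26], ?_⟩
    have h5 : κ ^ 2 ≤ k2 ^ 2 := pow_le_pow_left₀ hκ0.le h2 2
    linarith only [hs2, h5]
  have hs8 := N.hs3
  have hs1' : 1.02 - s2 ≤ s := by linarith only [hs1, hsg]
  have hs2'' : s ≤ s2 := by linarith only [hs2', hsg]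
  have hs11 : s ≤ 1 := by linarith only [hs2'', hs8]
  have dd1 := Q.dom1 (by linarith only [hs1', hs8]) (by linarith only [hs11])
  have dd0 := Q.dom0 (by linarith only [hs1', hs8]) (by linarith only [hs11])
  have h0 := Q.h0
  have hle := Q.hle
  have hr : (1 - s) * h ≤ x := by
    refine le_trans ?_ hx
    exact mul_le_mul (by linarith only [hs1']) hle h0.le (by linarith only [hs26])
  obtain ⟨r1, r2⟩ := hD Q hs1' hs2'' dd0 dd1 hr
  have hcc : κ * (1 / 2 - κ ^ 2 / 6) ≤ c := by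
    rcases hc with ⟨h3, h4⟩ | h3
    · exact c_loF hκ0.le h2 h4 h3
    · exact c_hiF hκ0.le h3
  have v0 := Q.V0_ge dd0 h1 h2 hs11 (hr.trans hsm) hk10 hsm1 hcc hc0 hC
  have hd00 : 0 ≤ d0 := by
    have := N.hc0
    have h3 := mul_nonneg this (by norm_num : (0:ℝ) ≤ 0.965)
    rwa [div_mul_cancel₀ _ (by norm_num)] at h3
  have hsh : s * h ≤ 0.6 := by
    have := mul_le_mul (by linarith only [hs2'', hs8] : s ≤ 0.79) hle h0.le (by norm_num)
    linarith only [this]
  have hW : ∀ j : ℕ, G0 ^ (-(j : ℤ) - 1) * G1 ^ (-(-(j : ℤ))) ≤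
      Real.exp (-R) * (ρ ^ j * (d0 / 0.965) *
        Real.exp (T * (j * (C * (1 - s) ^ 2 - 0.4075 * s ^ 2) + C * (1 - s) ^ 2))) :=
    Q.WL hβ (by linarith only [hs1', hs8]) hs11 hsh g0 hG1 g1 r1 hd00 r2 N.hρ v0
  have hG0 : 0 ≤ G0 := le_trans (mul_nonneg (by norm_num) (sQ_pos dd0).le) g0
  have hW0 : ∀ j : ℕ, 0 ≤ G0 ^ (-(j : ℤ) - 1) * G1 ^ (-(-(j : ℤ))) :=
    fun j => mul_nonneg (zpow_nonneg hG0 _) (zpow_nonneg hG1 _)
  have hGp : ∀ p, p = 1.3 * h / (1 + κ ^ 2) → 2 / 5 * κ ^ 3 * p - κ * p + (κ * p) ^ 2 / 2 +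
      p ^ 2 * (1 - κ * p + (κ * p) ^ 2 / 2) ^ 3 / 5 ≤ G * (1 + κ ^ 2) := by
    intro p hp
    have hA := Q.A1
    have hp0 : 0 ≤ p := by rw [hp]; positivity
    have hkk : k1 ^ 2 ≤ κ ^ 2 := pow_le_pow_left₀ hk10 h1 2
    have hPm : p ≤ Pm := by
      rw [hp, div_le_iff₀ hA]
      have h3 := B.hPm
      have hPm0 : 0 ≤ Pm := by
        by_contra hcon
        push Not at hcon
        nlinarith only [h3, hcon, sq_nonneg k1]
      have h4 : Pm * (1 + k1 ^ 2) ≤ Pm * (1 + κ ^ 2) := mul_le_mul_of_nonneg_left (by linarith only [hkk]) hPm0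
      linarith only [h3, h4, hle]
    have hκp : κ * p ≤ 1 := by
      have h3 : κ * p = κ / (1 + κ ^ 2) * (1.3 * h) := by rw [hp]; ring
      rw [h3]
      have h4 := psi_half (κ := κ)
      have h5 : 0 ≤ κ / (1 + κ ^ 2) := div_nonneg hκ0.le hA.le
      nlinarith only [h4, h5, hle, h0]
    exact G_gen hk10 h1 h2 hma hmb hp0 hPm hκp hP hG
  exact B.left Q h1 h2 hβ hs1' hs11 hGp N (W := fun j : ℕ => G0 ^ (-(j : ℤ) - 1) * G1 ^ (-(-(j : ℤ)))) hW0 hW j hj2 hn

theorem BL1 : BoxL 0.29 0.35 0.69814 1.3 0.31181 0.283 0.83718 0.9184 2.374 1.835 0.02998 0.08868 0.6182 :=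
  ⟨by norm_num, by norm_num, by norm_num, by norm_num, by norm_num, by norm_num, Or.inl ⟨by norm_num, by norm_num⟩, by norm_num, by norm_num, by norm_num, by norm_num, by norm_num, by norm_num, by norm_num, by norm_num, by norm_num, by norm_num, by norm_num, by norm_num, by norm_num⟩

theorem NL1 : NumL 0.29 0.7069 2.374 1.835 0.283 0.6182 0 0.2275 0.5879 0.2375 (1.0294 / 0.965) 1.0726 :=
  ⟨by norm_num,
    by norm_num,
    by norm_num,
    by norm_num,
    by norm_num,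
    by norm_num,
    by norm_num,
    by norm_num,
    by norm_num,
    ⟨0.00006711, 0.000002938, 0.0008054, by norm_num, (exp_num' 9 (f := 0.6105) (by norm_num) (by norm_num) (by norm_num)), by norm_num, (exp_num' 12 (f := 0.7413) (by norm_num) (by norm_num) (by norm_num)), by norm_num, (exp_num' 7 (f := 0.1242) (by norm_num) (by norm_num) (by norm_num)), by norm_num⟩,
    ⟨0.0000003126, 0.0000000134, 0.002717, by norm_num, (exp_num' 14 (f := 0.9974) (by norm_num) (by norm_num) (by norm_num)), by norm_num, (exp_num' 18 (f := 0.1281) (by norm_num) (by norm_num) (by norm_num)), by norm_num, (exp_num' 5 (f := 0.9201) (by norm_num) (by norm_num) (by norm_num)), by norm_num⟩,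
    ⟨0.000000001404, 0.00000000006135, 0.0006879, by norm_num, (exp_num' 20 (f := 0.3843) (by norm_num) (by norm_num) (by norm_num)), by norm_num, (exp_num' 23 (f := 0.515) (by norm_num) (by norm_num) (by norm_num)), by norm_num, (exp_num' 7 (f := 0.2819) (by norm_num) (by norm_num) (by norm_num)), by norm_num⟩,
    ⟨0.000000000006451, 0.0000000000002836, 0.000006026, by norm_num, (exp_num' 25 (f := 0.7712) (by norm_num) (by norm_num) (by norm_num)), by norm_num, (exp_num' 28 (f := 0.9019) (by norm_num) (by norm_num) (by norm_num)), by norm_num, (exp_num' 12 (f := 0.0196) (by norm_num) (by norm_num) (by norm_num)), by norm_num⟩,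
    by norm_num⟩

theorem farL1 {b : ℕ} {h κ R t β G0 G1 : ℝ} (H : DP b h κ R t) (hκ : 0.29 ≤ κ) (h1 : 0.29 ≤ κ) (h2 : κ ≤ 0.35)
    (hβ : β = κ / R) (g0 : 0.965 * sQ β κ (t - h) ≤ G0) (hG1 : 0 ≤ G1) (g1 : G1 ≤ 1.035 * sQ β κ t)
    (j : ℕ) (hj2 : 2 ≤ j) (hn : 2 * (j + 1) ≤ b) :
    ‖Xf β R h t (-(j : ℤ))‖ * (G0 ^ (-(j : ℤ) - 1) * G1 ^ (-(-(j : ℤ)))) ≤ Mfar (-(j : ℤ)) := by
  refine left_all BL1 NL1 (by norm_num) (by norm_num) (m1 := -0.2802) (sm := 0.4424) (c := 0.1679) (x := 0.4796) (by norm_num) (by norm_num)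
    (by norm_num) (by norm_num) (by norm_num) (by norm_num) (by norm_num) (Or.inl ⟨by norm_num, by norm_num⟩) (by norm_num) (by norm_num)
    ?_ H hκ h1 h2 hβ g0 hG1 g1 j hj2 hn
  · intro T s z Q hs1 hs2 dd0 dd1 hr
    obtain ⟨q1, q2⟩ := Q.D0_le dd0 (by linarith only [hs2]) h2 (Cp := 1.373) (Y := 0.2054) (E := 1.2283) (ψ := 0.31181) (x := 0.4796) (D := 1.1225)
      (Q.spL_a dd0 (by linarith only [hs2]) (by linarith only [hr])) (by norm_num) (psi_ok BL1.hψ Q.kpos.le h2) hr (by norm_num) (by norm_num) (by norm_num) (by norm_num) (by norm_num)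
    have a1 := Q.D1_geF dd1 (by linarith only [hs1]) (by linarith only [h2])
    have a2 := q2 1 (by norm_num) (by norm_num) (by norm_num)
    refine ⟨q1.trans (by norm_num), ?_⟩
    have a3 : (1.035 / 0.965) ^ 4 * 1 ≤ (1.0726 : ℝ) ^ 4 := by norm_num
    have a4 := mul_le_mul_of_nonneg_right a3 Q.A1.le
    have a5 := mul_le_mul_of_nonneg_left a1 (by norm_num : (0 : ℝ) ≤ 1.0726 ^ 4)
    have a6 := mul_le_mul_of_nonneg_left a2 (by norm_num : (0 : ℝ) ≤ (1.035 / 0.965) ^ 4)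
    linarith only [a4, a5, a6]

theorem BL2 : BoxL 0.35 0.5 0.69814 1.3 0.4 0.36304 0.80854 0.9961 2.075 1.67 0.03846 0.08565 0.7085 :=
  ⟨by norm_num, by norm_num, by norm_num, by norm_num, by norm_num, by norm_num, Or.inl ⟨by norm_num, by norm_num⟩, by norm_num, by norm_num, by norm_num, by norm_num, by norm_num, by norm_num, by norm_num, by norm_num, by norm_num, by norm_num, by norm_num, by norm_num, by norm_num⟩

theorem NL2 : NumL 0.35 0.7135 2.075 1.67 0.36304 0.7085 0 0.0393 0.6074 0.2539 (1.0574 / 0.965) 1.0726 :=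
  ⟨by norm_num,
    by norm_num,
    by norm_num,
    by norm_num,
    by norm_num,
    by norm_num,
    by norm_num,
    by norm_num,
    by norm_num,
    ⟨0.00008167, 0.000001375, 0.0006958, by norm_num, (exp_num' 9 (f := 0.413) (by norm_num) (by norm_num) (by norm_num)), by norm_num, (exp_num' 13 (f := 0.4979) (by norm_num) (by norm_num) (by norm_num)), by norm_num, (exp_num' 7 (f := 0.2706) (by norm_num) (by norm_num) (by norm_num)), by norm_num⟩,
    ⟨0.0000004073, 0.000000006869, 0.002565, by norm_num, (exp_num' 14 (f := 0.7168) (by norm_num) (by norm_num) (by norm_num)), by norm_num, (exp_num' 18 (f := 0.8017) (by norm_num) (by norm_num) (by norm_num)), by norm_num, (exp_num' 5 (f := 0.9834) (by norm_num) (by norm_num) (by norm_num)), by norm_num⟩,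
    ⟨0.00000000202, 0.00000000003398, 0.0006408, by norm_num, (exp_num' 20 (f := 0.0205) (by norm_num) (by norm_num) (by norm_num)), by norm_num, (exp_num' 24 (f := 0.1054) (by norm_num) (by norm_num) (by norm_num)), by norm_num, (exp_num' 7 (f := 0.3529) (by norm_num) (by norm_num) (by norm_num)), by norm_num⟩,
    ⟨0.00000000001005, 0.000000000000169, 0.000004941, by norm_num, (exp_num' 25 (f := 0.3242) (by norm_num) (by norm_num) (by norm_num)), by norm_num, (exp_num' 29 (f := 0.4091) (by norm_num) (by norm_num) (by norm_num)), by norm_num, (exp_num' 12 (f := 0.218) (by norm_num) (by norm_num) (by norm_num)), by norm_num⟩,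
    by norm_num⟩

theorem farL2 {b : ℕ} {h κ R t β G0 G1 : ℝ} (H : DP b h κ R t) (hκ : 0.29 ≤ κ) (h1 : 0.35 ≤ κ) (h2 : κ ≤ 0.5)
    (hβ : β = κ / R) (g0 : 0.965 * sQ β κ (t - h) ≤ G0) (hG1 : 0 ≤ G1) (g1 : G1 ≤ 1.035 * sQ β κ t)
    (j : ℕ) (hj2 : 2 ≤ j) (hn : 2 * (j + 1) ≤ b) :
    ‖Xf β R h t (-(j : ℤ))‖ * (G0 ^ (-(j : ℤ) - 1) * G1 ^ (-(-(j : ℤ)))) ≤ Mfar (-(j : ℤ)) := by
  refine left_all BL2 NL2 (by norm_num) (by norm_num) (m1 := -0.3328) (sm := 0.4314) (c := 0.2292) (x := 0.4842) (by norm_num) (by norm_num)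
    (by norm_num) (by norm_num) (by norm_num) (by norm_num) (by norm_num) (Or.inl ⟨by norm_num, by norm_num⟩) (by norm_num) (by norm_num)
    ?_ H hκ h1 h2 hβ g0 hG1 g1 j hj2 hn
  · intro T s z Q hs1 hs2 dd0 dd1 hr
    obtain ⟨q1, q2⟩ := Q.D0_le dd0 (by linarith only [hs2]) h2 (Cp := 1.373) (Y := 0.266) (E := 1.3052) (ψ := 0.4) (x := 0.4842) (D := 1.25)
      (Q.spL_a dd0 (by linarith only [hs2]) (by linarith only [hr])) (by norm_num) (psi_ok BL2.hψ Q.kpos.le h2) hr (by norm_num) (by norm_num) (by norm_num) (by norm_num) (by norm_num)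
    have a1 := Q.D1_geF dd1 (by linarith only [hs1]) (by linarith only [h2])
    have a2 := q2 1 (by norm_num) (by norm_num) (by norm_num)
    refine ⟨q1.trans (by norm_num), ?_⟩
    have a3 : (1.035 / 0.965) ^ 4 * 1 ≤ (1.0726 : ℝ) ^ 4 := by norm_num
    have a4 := mul_le_mul_of_nonneg_right a3 Q.A1.le
    have a5 := mul_le_mul_of_nonneg_left a1 (by norm_num : (0 : ℝ) ≤ 1.0726 ^ 4)
    have a6 := mul_le_mul_of_nonneg_left a2 (by norm_num : (0 : ℝ) ≤ (1.035 / 0.965) ^ 4)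
    linarith only [a4, a5, a6]

theorem BL3 : BoxL 0.5 0.7 0.69814 1.3 0.4698 0.42639 0.72607 1 1.733 1.398 0.04517 0.07691 0.7671 :=
  ⟨by norm_num, by norm_num, by norm_num, by norm_num, by norm_num, by norm_num, Or.inl ⟨by norm_num, by norm_num⟩, by norm_num, by norm_num, by norm_num, by norm_num, by norm_num, by norm_num, by norm_num, by norm_num, by norm_num, by norm_num, by norm_num, by norm_num, by norm_num⟩

theorem NL3 : NumL 0.5 0.7251 1.733 1.398 0.42639 0.7671 0 (-0.4937) 0.6091 0.2674 (1.1049 / 0.965) 1.0726 :=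
  ⟨by norm_num,
    by norm_num,
    by norm_num,
    by norm_num,
    by norm_num,
    by norm_num,
    by norm_num,
    by norm_num,
    by norm_num,
    ⟨0.00009158, 0.0000001034, 0.0002327, by norm_num, (exp_num' 9 (f := 0.2984) (by norm_num) (by norm_num) (by norm_num)), by norm_num, (exp_num' 16 (f := 0.0856) (by norm_num) (by norm_num) (by norm_num)), by norm_num, (exp_num' 8 (f := 0.366) (by norm_num) (by norm_num) (by norm_num)), by norm_num⟩,
    ⟨0.000000488, 0.0000000005502, 0.0009026, by norm_num, (exp_num' 14 (f := 0.5336) (by norm_num) (by norm_num) (by norm_num)), by norm_num, (exp_num' 21 (f := 0.3209) (by norm_num) (by norm_num) (by norm_num)), by norm_num, (exp_num' 7 (f := 0.0103) (by norm_num) (by norm_num) (by norm_num)), by norm_num⟩,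
    ⟨0.000000002609, 0.000000000002932, 0.000182, by norm_num, (exp_num' 19 (f := 0.7689) (by norm_num) (by norm_num) (by norm_num)), by norm_num, (exp_num' 26 (f := 0.5561) (by norm_num) (by norm_num) (by norm_num)), by norm_num, (exp_num' 8 (f := 0.6132) (by norm_num) (by norm_num) (by norm_num)), by norm_num⟩,
    ⟨0.00000000001384, 0.00000000000001569, 0.000000746, by norm_num, (exp_num' 25 (f := 0.0042) (by norm_num) (by norm_num) (by norm_num)), by norm_num, (exp_num' 31 (f := 0.7914) (by norm_num) (by norm_num) (by norm_num)), by norm_num, (exp_num' 14 (f := 0.1086) (by norm_num) (by norm_num) (by norm_num)), by norm_num⟩,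
    by norm_num⟩

theorem farL3 {b : ℕ} {h κ R t β G0 G1 : ℝ} (H : DP b h κ R t) (hκ : 0.29 ≤ κ) (h1 : 0.5 ≤ κ) (h2 : κ ≤ 0.7)
    (hβ : β = κ / R) (g0 : 0.965 * sQ β κ (t - h) ≤ G0) (hG1 : 0 ≤ G1) (g1 : G1 ≤ 1.035 * sQ β κ t)
    (j : ℕ) (hj2 : 2 ≤ j) (hn : 2 * (j + 1) ≤ b) :
    ‖Xf β R h t (-(j : ℤ))‖ * (G0 ^ (-(j : ℤ) - 1) * G1 ^ (-(-(j : ℤ)))) ≤ Mfar (-(j : ℤ)) := by
  refine left_all BL3 NL3 (by norm_num) (by norm_num) (m1 := -0.45) (sm := 0.3939) (c := 0.2929) (x := 0.4923) (by norm_num) (by norm_num)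
    (by norm_num) (by norm_num) (by norm_num) (by norm_num) (by norm_num) (Or.inl ⟨by norm_num, by norm_num⟩) (by norm_num) (by norm_num)
    ?_ H hκ h1 h2 hβ g0 hG1 g1 j hj2 hn
  · intro T s z Q hs1 hs2 dd0 dd1 hr
    obtain ⟨q1, q2⟩ := Q.D0_le dd0 (by linarith only [hs2]) h2 (Cp := 1.373) (Y := 0.3176) (E := 1.3745) (ψ := 0.4698) (x := 0.4923) (D := 1.49)
      (Q.spL_a dd0 (by linarith only [hs2]) (by linarith only [hr])) (by norm_num) (psi_ok BL3.hψ Q.kpos.le h2) hr (by norm_num) (by norm_num) (by norm_num) (by norm_num) (by norm_num)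
    have a1 := Q.D1_geF dd1 (by linarith only [hs1]) (by linarith only [h2])
    have a2 := q2 1 (by norm_num) (by norm_num) (by norm_num)
    refine ⟨q1.trans (by norm_num), ?_⟩
    have a3 : (1.035 / 0.965) ^ 4 * 1 ≤ (1.0726 : ℝ) ^ 4 := by norm_num
    have a4 := mul_le_mul_of_nonneg_right a3 Q.A1.le
    have a5 := mul_le_mul_of_nonneg_left a1 (by norm_num : (0 : ℝ) ≤ 1.0726 ^ 4)
    have a6 := mul_le_mul_of_nonneg_left a2 (by norm_num : (0 : ℝ) ≤ (1.035 / 0.965) ^ 4)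
    linarith only [a4, a5, a6]

theorem BL4 : BoxL 0.7 0.85 0.69814 1.3 0.49347 0.44787 0.60912 1 1.464 1.181 0.04744 0.06453 0.7659 :=
  ⟨by norm_num, by norm_num, by norm_num, by norm_num, by norm_num, by norm_num, Or.inl ⟨by norm_num, by norm_num⟩, by norm_num, by norm_num, by norm_num, by norm_num, by norm_num, by norm_num, by norm_num, by norm_num, by norm_num, by norm_num, by norm_num, by norm_num, by norm_num⟩

theorem NL4 : NumL 0.7 0.7354 1.464 1.181 0.44787 0.7659 0 (-1.3438) 0.5845 0.2662 (1.1496 / 0.965) 1.0763 :=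
  ⟨by norm_num,
    by norm_num,
    by norm_num,
    by norm_num,
    by norm_num,
    by norm_num,
    by norm_num,
    by norm_num,
    by norm_num,
    ⟨0.00008298, 0.000000001258, 0.00002015, by norm_num, (exp_num' 9 (f := 0.3971) (by norm_num) (by norm_num) (by norm_num)), by norm_num, (exp_num' 20 (f := 0.4943) (by norm_num) (by norm_num) (by norm_num)), by norm_num, (exp_num' 10 (f := 0.8185) (by norm_num) (by norm_num) (by norm_num)), by norm_num⟩,
    ⟨0.0000004399, 0.000000000006678, 0.00007724, by norm_num, (exp_num' 14 (f := 0.6384) (by norm_num) (by norm_num) (by norm_num)), by norm_num, (exp_num' 25 (f := 0.7356) (by norm_num) (by norm_num) (by norm_num)), by norm_num, (exp_num' 9 (f := 0.4689) (by norm_num) (by norm_num) (by norm_num)), by norm_num⟩,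
    ⟨0.000000002346, 0.00000000000003583, 0.00000877, by norm_num, (exp_num' 19 (f := 0.8798) (by norm_num) (by norm_num) (by norm_num)), by norm_num, (exp_num' 30 (f := 0.977) (by norm_num) (by norm_num) (by norm_num)), by norm_num, (exp_num' 11 (f := 0.6459) (by norm_num) (by norm_num) (by norm_num)), by norm_num⟩,
    ⟨0.00000000001231, 0.0000000000000001865, 0.000000009591, by norm_num, (exp_num' 25 (f := 0.1212) (by norm_num) (by norm_num) (by norm_num)), by norm_num, (exp_num' 36 (f := 0.2184) (by norm_num) (by norm_num) (by norm_num)), by norm_num, (exp_num' 18 (f := 0.4628) (by norm_num) (by norm_num) (by norm_num)), by norm_num⟩,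
    by norm_num⟩

theorem farL4 {b : ℕ} {h κ R t β G0 G1 : ℝ} (H : DP b h κ R t) (hκ : 0.29 ≤ κ) (h1 : 0.7 ≤ κ) (h2 : κ ≤ 0.85)
    (hβ : β = κ / R) (g0 : 0.965 * sQ β κ (t - h) ≤ G0) (hG1 : 0 ≤ G1) (g1 : G1 ≤ 1.035 * sQ β κ t)
    (j : ℕ) (hj2 : 2 ≤ j) (hn : 2 * (j + 1) ≤ b) :
    ‖Xf β R h t (-(j : ℤ))‖ * (G0 ^ (-(j : ℤ) - 1) * G1 ^ (-(-(j : ℤ)))) ≤ Mfar (-(j : ℤ)) := by
  refine left_all BL4 NL4 (by norm_num) (by norm_num) (m1 := -0.5628) (sm := 0.3353) (c := 0.3227) (x := 0.4995) (by norm_num) (by norm_num)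
    (by norm_num) (by norm_num) (by norm_num) (by norm_num) (by norm_num) (Or.inl ⟨by norm_num, by norm_num⟩) (by norm_num) (by norm_num)
    ?_ H hκ h1 h2 hβ g0 hG1 g1 j hj2 hn
  · intro T s z Q hs1 hs2 dd0 dd1 hr
    obtain ⟨q1, q2⟩ := Q.D0_le dd0 (by linarith only [hs2]) h2 (Cp := 1.373) (Y := 0.3385) (E := 1.4036) (ψ := 0.49347) (x := 0.4995) (D := 1.7464)
      (Q.spL_a dd0 (by linarith only [hs2]) (by linarith only [hr])) (by norm_num) (psi_ok BL4.hψ Q.kpos.le h2) hr (by norm_num) (by norm_num) (by norm_num) (by norm_num) (by norm_num)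
    have a1 := Q.D1_geF dd1 (by linarith only [hs1]) (by linarith only [h2])
    have a2 := q2 1.0139 (by norm_num) (by norm_num) (by norm_num)
    refine ⟨q1.trans (by norm_num), ?_⟩
    have a3 : (1.035 / 0.965) ^ 4 * 1.0139 ≤ (1.0763 : ℝ) ^ 4 := by norm_num
    have a4 := mul_le_mul_of_nonneg_right a3 Q.A1.le
    have a5 := mul_le_mul_of_nonneg_left a1 (by norm_num : (0 : ℝ) ≤ 1.0763 ^ 4)
    have a6 := mul_le_mul_of_nonneg_left a2 (by norm_num : (0 : ℝ) ≤ (1.035 / 0.965) ^ 4)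
    linarith only [a4, a5, a6]

theorem BL5 : BoxL 0.85 1 0.69814 1.3 0.5 0.4538 0.5269 1 1.329 1.072 0.04807 0.05582 0.7635 :=
  ⟨by norm_num, by norm_num, by norm_num, by norm_num, by norm_num, by norm_num, Or.inl ⟨by norm_num, by norm_num⟩, by norm_num, by norm_num, by norm_num, by norm_num, by norm_num, by norm_num, by norm_num, by norm_num, by norm_num, by norm_num, by norm_num, by norm_num, by norm_num⟩

theorem NL5 : NumL 0.85 0.7467 1.329 1.072 0.4538 0.7635 0 (-2.0858) 0.5669 0.269 (1.2271 / 0.965) 1.1068 :=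
  ⟨by norm_num,
    by norm_num,
    by norm_num,
    by norm_num,
    by norm_num,
    by norm_num,
    by norm_num,
    by norm_num,
    by norm_num,
    ⟨0.00007934, 0.00000000002794, 0.000001976, by norm_num, (exp_num' 9 (f := 0.442) (by norm_num) (by norm_num) (by norm_num)), by norm_num, (exp_num' 24 (f := 0.3011) (by norm_num) (by norm_num) (by norm_num)), by norm_num, (exp_num' 13 (f := 0.1349) (by norm_num) (by norm_num) (by norm_num)), by norm_num⟩,
    ⟨0.0000004267, 0.0000000000001501, 0.000007759, by norm_num, (exp_num' 14 (f := 0.6692) (by norm_num) (by norm_num) (by norm_num)), by norm_num, (exp_num' 29 (f := 0.5283) (by norm_num) (by norm_num) (by norm_num)), by norm_num, (exp_num' 11 (f := 0.7711) (by norm_num) (by norm_num) (by norm_num)), by norm_num⟩,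
    ⟨0.00000000231, 0.0000000000000008084, 0.0000005126, by norm_num, (exp_num' 19 (f := 0.8963) (by norm_num) (by norm_num) (by norm_num)), by norm_num, (exp_num' 34 (f := 0.7555) (by norm_num) (by norm_num) (by norm_num)), by norm_num, (exp_num' 14 (f := 0.4842) (by norm_num) (by norm_num) (by norm_num)), by norm_num⟩,
    ⟨0.00000000001228, 0.000000000000000004399, 0.0000000001593, by norm_num, (exp_num' 25 (f := 0.1235) (by norm_num) (by norm_num) (by norm_num)), by norm_num, (exp_num' 39 (f := 0.9827) (by norm_num) (by norm_num) (by norm_num)), by norm_num, (exp_num' 22 (f := 0.5612) (by norm_num) (by norm_num) (by norm_num)), by norm_num⟩,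
    by norm_num⟩

theorem farL5 {b : ℕ} {h κ R t β G0 G1 : ℝ} (H : DP b h κ R t) (hκ : 0.29 ≤ κ) (h1 : 0.85 ≤ κ) (h2 : κ ≤ 1)
    (hβ : β = κ / R) (g0 : 0.965 * sQ β κ (t - h) ≤ G0) (hG1 : 0 ≤ G1) (g1 : G1 ≤ 1.035 * sQ β κ t)
    (j : ℕ) (hj2 : 2 ≤ j) (hn : 2 * (j + 1) ≤ b) :
    ‖Xf β R h t (-(j : ℤ))‖ * (G0 ^ (-(j : ℤ) - 1) * G1 ^ (-(-(j : ℤ)))) ≤ Mfar (-(j : ℤ)) := by
  refine left_all BL5 NL5 (by norm_num) (by norm_num) (m1 := -0.6) (sm := 0.2946) (c := 0.3334) (x := 0.5074) (by norm_num) (by norm_num)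
    (by norm_num) (by norm_num) (by norm_num) (by norm_num) (by norm_num) (Or.inl ⟨by norm_num, by norm_num⟩) (by norm_num) (by norm_num)
    ?_ H hκ h1 h2 hβ g0 hG1 g1 j hj2 hn
  · intro T s z Q hs1 hs2 dd0 dd1 hr
    obtain ⟨q1, q2⟩ := Q.D0_le dd0 (by linarith only [hs2]) h2 (Cp := 1.28) (Y := 0.3248) (E := 1.3845) (ψ := 0.5) (x := 0.5074) (D := 2.2673)
      (Q.spL_b dd0 (by linarith only [hs2]) (by linarith only [hr]) (by linarith only [h1]) (by linarith only [h2])) (by norm_num) (psi_ok BL5.hψ Q.kpos.le h2) hr (by norm_num) (by norm_num) (by norm_num) (by norm_num) (by norm_num)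
    have a1 := Q.D1_geF dd1 (by linarith only [hs1]) (by linarith only [h2])
    have a2 := q2 1.1337 (by norm_num) (by norm_num) (by norm_num)
    refine ⟨q1.trans (by norm_num), ?_⟩
    have a3 : (1.035 / 0.965) ^ 4 * 1.1337 ≤ (1.1068 : ℝ) ^ 4 := by norm_num
    have a4 := mul_le_mul_of_nonneg_right a3 Q.A1.le
    have a5 := mul_le_mul_of_nonneg_left a1 (by norm_num : (0 : ℝ) ≤ 1.1068 ^ 4)
    have a6 := mul_le_mul_of_nonneg_left a2 (by norm_num : (0 : ℝ) ≤ (1.035 / 0.965) ^ 4)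
    linarith only [a4, a5, a6]

theorem BL6 : BoxL 1 1.5 0.69814 1.3 0.5 0.4538 0.4538 1 1.225 0.988 0.04807 0.04807 1.3349 :=
  ⟨by norm_num, by norm_num, by norm_num, by norm_num, by norm_num, by norm_num, Or.inr (by norm_num), by norm_num, by norm_num, by norm_num, by norm_num, by norm_num, by norm_num, by norm_num, by norm_num, by norm_num, by norm_num, by norm_num, by norm_num, by norm_num⟩

theorem NL6 : NumL 1 0.7895 1.225 0.988 0.4538 1.3349 0.1024 (-2.9174) 0.5644 0.3126 (1.4683 / 0.965) 1.3242 :=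
  ⟨by norm_num,
    by norm_num,
    by norm_num,
    by norm_num,
    by norm_num,
    by norm_num,
    by norm_num,
    by norm_num,
    by norm_num,
    ⟨0.0001726, 0.0000000000005772, 0.000000223, by norm_num, (exp_num' 8 (f := 0.6667) (by norm_num) (by norm_num) (by norm_num)), by norm_num, (exp_num' 28 (f := 0.1808) (by norm_num) (by norm_num) (by norm_num)), by norm_num, (exp_num' 15 (f := 0.3163) (by norm_num) (by norm_num) (by norm_num)), by norm_num⟩,
    ⟨0.000001156, 0.000000000000003865, 0.000001092, by norm_num, (exp_num' 13 (f := 0.6728) (by norm_num) (by norm_num) (by norm_num)), by norm_num, (exp_num' 33 (f := 0.1869) (by norm_num) (by norm_num) (by norm_num)), by norm_num, (exp_num' 13 (f := 0.7314) (by norm_num) (by norm_num) (by norm_num)), by norm_num⟩,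
    ⟨0.000000007741, 0.00000000000000002589, 0.0000000471, by norm_num, (exp_num' 18 (f := 0.679) (by norm_num) (by norm_num) (by norm_num)), by norm_num, (exp_num' 38 (f := 0.193) (by norm_num) (by norm_num) (by norm_num)), by norm_num, (exp_num' 16 (f := 0.8803) (by norm_num) (by norm_num) (by norm_num)), by norm_num⟩,
    ⟨0.00000000005185, 0.0000000000000000001734, 0.000000000003951, by norm_num, (exp_num' 23 (f := 0.6851) (by norm_num) (by norm_num) (by norm_num)), by norm_num, (exp_num' 43 (f := 0.1991) (by norm_num) (by norm_num) (by norm_num)), by norm_num, (exp_num' 26 (f := 0.2572) (by norm_num) (by norm_num) (by norm_num)), by norm_num⟩,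
    by norm_num⟩

theorem farL6 {b : ℕ} {h κ R t β G0 G1 : ℝ} (H : DP b h κ R t) (hκ : 0.29 ≤ κ) (h1 : 1 ≤ κ) (h2 : κ ≤ 1.5)
    (hβ : β = κ / R) (g0 : 0.965 * sQ β κ (t - h) ≤ G0) (hG1 : 0 ≤ G1) (g1 : G1 ≤ 1.035 * sQ β κ t)
    (j : ℕ) (hj2 : 2 ≤ j) (hn : 2 * (j + 1) ≤ b) :
    ‖Xf β R h t (-(j : ℤ))‖ * (G0 ^ (-(j : ℤ) - 1) * G1 ^ (-(-(j : ℤ)))) ≤ Mfar (-(j : ℤ)) := by
  refine left_all BL6 NL6 (by norm_num) (by norm_num) (m1 := -0.15) (sm := 0.2687) (c := 0.3334) (x := 0.5373) (by norm_num) (by norm_num)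
    (by norm_num) (by norm_num) (by norm_num) (by norm_num) (by norm_num) (Or.inr (by norm_num)) (by norm_num) (by norm_num)
    ?_ H hκ h1 h2 hβ g0 hG1 g1 j hj2 hn
  · intro T s z Q hs1 hs2 dd0 dd1 hr
    obtain ⟨q1, q2⟩ := Q.D0_le dd0 (by linarith only [hs2]) h2 (Cp := 1.2) (Y := 0.3224) (E := 1.3811) (ψ := 0.5) (x := 0.5373) (D := 4.647)
      (Q.spL_c dd0 (by linarith only [hs2]) (by linarith only [hr]) (by linarith only [h1])) (by norm_num) (psi_ok BL6.hψ Q.kpos.le h2) hr (by norm_num) (by norm_num) (by norm_num) (by norm_num) (by norm_num)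
    have a1 := Q.D1_ge' dd1 (by norm_num) h1
    refine ⟨q1.trans (by norm_num), ?_⟩
    have a5 := mul_le_mul_of_nonneg_left a1 (by norm_num : (0 : ℝ) ≤ 1.3242 ^ 4)
    have a6 := mul_le_mul_of_nonneg_left q1 (by norm_num : (0 : ℝ) ≤ (1.035 / 0.965) ^ 4)
    norm_num at a5 a6 ⊢
    linarith only [a5, a6]

end Sok
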