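import Pool.Agent.Lib.MP_816dec_an.R1FarH
import Pool.Agent.Lib.MP_816dec_an.R1FarL

/-!
MP_816dec_an (A3, row R1, `b ≥ 9`), ROW FARK: the far copies for `κ ≥ 0.29` on the discs.
-/

set_option autoImplicit false

open Complex Set Filter Topology Metric

namespace Sok

/-- copies `k ≥ 3` -/
theorem farK_right {b : ℕ} {h κ R t β G0 G1 : ℝ} (H : DP b h κ R t) (hκ : 0.29 ≤ κ)
    (hβ : β = κ / R) (g0 : 0 ≤ G0) (h0' : G0 ≤ 1.035 * sQ β κ (t - h)) (g1 : 0.965 * sQ β κ t ≤ G1)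
    (n : ℕ) (hn : 2 * n + 5 ≤ b) :
    ‖Xf β R h t ((n : ℤ) + 3)‖ * (G0 ^ ((n : ℤ) + 3 - 1) * G1 ^ (-((n : ℤ) + 3))) ≤ Mfar ((n : ℤ) + 3) := by
  rcases le_total κ 0.32 with c1 | c1
  · exact farR1 H hκ hκ c1 hβ g0 h0' g1 n hn
  rcases le_total κ 0.35 with c2 | c2
  · exact farR2 H hκ c1 c2 hβ g0 h0' g1 n hn
  rcases le_total κ 0.42 with c3 | c3
  · exact farR3 H hκ c2 c3 hβ g0 h0' g1 n hn
  rcases le_total κ 0.5 with c4 | c4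
  · exact farR4 H hκ c3 c4 hβ g0 h0' g1 n hn
  rcases le_total κ 0.6 with c5 | c5
  · exact farR5 H hκ c4 c5 hβ g0 h0' g1 n hn
  rcases le_total κ 0.7 with c6 | c6
  · exact farR6 H hκ c5 c6 hβ g0 h0' g1 n hn
  rcases le_total κ 0.85 with c7 | c7
  · exact farR7 H hκ c6 c7 hβ g0 h0' g1 n hn
  rcases le_total κ 1 with c8 | c8
  · exact farR8 H hκ c7 c8 hβ g0 h0' g1 n hn
  · exact farR9 H hκ c8 H.k1 hβ g0 h0' g1 n hn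

/-- copies `k ≤ -2` -/
theorem farK_left {b : ℕ} {h κ R t β G0 G1 : ℝ} (H : DP b h κ R t) (hκ : 0.29 ≤ κ)
    (hβ : β = κ / R) (g0 : 0.965 * sQ β κ (t - h) ≤ G0) (hG1 : 0 ≤ G1) (g1 : G1 ≤ 1.035 * sQ β κ t)
    (j : ℕ) (hj2 : 2 ≤ j) (hn : 2 * (j + 1) ≤ b) :
    ‖Xf β R h t (-(j : ℤ))‖ * (G0 ^ (-(j : ℤ) - 1) * G1 ^ (-(-(j : ℤ)))) ≤ Mfar (-(j : ℤ)) := by
  rcases le_total κ 0.35 with c1 | c1
  · exact farL1 H hκ hκ c1 hβ g0 hG1 g1 j hj2 hn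
  rcases le_total κ 0.5 with c2 | c2
  · exact farL2 H hκ c1 c2 hβ g0 hG1 g1 j hj2 hn
  rcases le_total κ 0.7 with c3 | c3
  · exact farL3 H hκ c2 c3 hβ g0 hG1 g1 j hj2 hn
  rcases le_total κ 0.85 with c4 | c4
  · exact farL4 H hκ c3 c4 hβ g0 hG1 g1 j hj2 hn
  rcases le_total κ 1 with c5 | c5
  · exact farL5 H hκ c4 c5 hβ g0 hG1 g1 j hj2 hn
  · exact farL6 H hκ c5 H.k1 hβ g0 hG1 g1 j hj2 hn

/-- domain of the two main copies on the discs -/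
theorem DP.domF {b : ℕ} {h κ R t : ℝ} (H : DP b h κ R t) (hκ : 0.29 ≤ κ) : DomR κ (t - h) ∧ DomR κ t := by
  obtain ⟨T, s, z, Q, hs1, hs2⟩ := H.qd hκ
  have hsg : sgm κ ≤ 0.1895 := by
    unfold sgm
    rw [div_le_iff₀ (by norm_num)]
    apply Real.sqrt_le_iff.2
    refine ⟨by norm_num, ?_⟩
    have h5 : κ ^ 2 ≤ 1.5 ^ 2 := pow_le_pow_left₀ Q.kpos.le H.k1 2
    linarith only [h5]
  exact ⟨Q.dom0 (by linarith only [hs1, hsg]) (by linarith only [hs2, hsg]),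
    Q.dom1 (by linarith only [hs1, hsg]) (by linarith only [hs2, hsg])⟩

theorem farK {b : ℕ} {h κ R t β G0 G1 : ℝ} (H : DP b h κ R t) (hκ : 0.29 ≤ κ) (hβ : β = κ / R)
    (h0 : 0.965 * sQ β κ (t - h) ≤ G0) (h0' : G0 ≤ 1.035 * sQ β κ (t - h))
    (h1 : 0.965 * sQ β κ t ≤ G1) (h1' : G1 ≤ 1.035 * sQ β κ t)
    {k : ℤ} (hk : k ∈ far (aw b) b) (hk2 : k ≠ 2) (hk1 : k ≠ -1) :
    ‖Xf β R h t k‖ * G0 ^ (k - 1) * G1 ^ (-k) ≤ Mfar k := by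
  obtain ⟨d0, d1⟩ := H.domF hκ
  have hG0 : 0 ≤ G0 := le_trans (mul_nonneg (by norm_num) (sQ_pos d0).le) h0
  have hG1 : 0 ≤ G1 := le_trans (mul_nonneg (by norm_num) (sQ_pos d1).le) h1
  rw [mem_far] at hk
  obtain ⟨⟨ha, hb⟩, hk0, hk11⟩ := hk
  unfold aw at ha hb
  rw [mul_assoc]
  rcases le_or_gt 0 k with hpos | hneg
  · obtain ⟨n, rfl⟩ : ∃ n : ℕ, k = (n : ℤ) + 3 := ⟨(k - 3).toNat, by omega⟩
    exact farK_right H hκ hβ hG0 h0' h1 n (by omega)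
  · obtain ⟨j, rfl⟩ : ∃ j : ℕ, k = -(j : ℤ) := ⟨(-k).toNat, by omega⟩
    exact farK_left H hκ hβ h0 hG1 h1' j (by omega) (by omega)

end Sok
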