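import Pool.Agent.Lib.MP_816dec_an.R1Geo

/-!
MP_816dec_an (Sokal's function), row R1: real inequalities for the saddle data `sx`, `sy`, `sE`.
-/

set_option autoImplicit false

open Set Filter Topology Real

namespace Sok

/-! ### elementary inequalities -/

theorem r1_sin_ge {x : ℝ} (hx : 0 ≤ x) : x - x ^ 3 / 6 ≤ sin x := by
  have h : MonotoneOn (fun x : ℝ => sin x - (x - x ^ 3 / 6)) (Ici 0) := by
    apply monotoneOn_of_deriv_nonneg (convex_Ici 0)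
    · fun_prop
    · fun_prop
    · intro y _
      have h1 : HasDerivAt (fun x : ℝ => sin x - (x - x ^ 3 / 6)) (cos y - (1 - y ^ 2 / 2)) y := by
        refine ((hasDerivAt_sin y).fun_sub ((hasDerivAt_id' y).fun_sub
          ((hasDerivAt_pow 3 y).div_const 6))).congr_deriv ?_
        push_cast
        ring
      rw [h1.deriv]
      linarith [one_sub_sq_div_two_le_cos (x := y)]
  have := h (mem_Ici.2 le_rfl) (mem_Ici.2 hx) hx
  simp at this
  linarith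

theorem r1_cos_le (x : ℝ) : cos x ≤ 1 - x ^ 2 / 2 + x ^ 4 / 24 := by
  have key : ∀ x : ℝ, 0 ≤ x → cos x ≤ 1 - x ^ 2 / 2 + x ^ 4 / 24 := by
    intro x hx
    have h : MonotoneOn (fun x : ℝ => 1 - x ^ 2 / 2 + x ^ 4 / 24 - cos x) (Ici 0) := by
      apply monotoneOn_of_deriv_nonneg (convex_Ici 0)
      · fun_prop
      · fun_prop
      · intro y hy
        have hy0 : 0 ≤ y := by
          rw [interior_Ici] at hy
          exact (mem_Ioi.1 hy).le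
        have h1 : HasDerivAt (fun x : ℝ => 1 - x ^ 2 / 2 + x ^ 4 / 24 - cos x)
            (-y + y ^ 3 / 6 + sin y) y := by
          refine (((((hasDerivAt_pow 2 y).div_const 2).const_sub 1).fun_add
            ((hasDerivAt_pow 4 y).div_const 24)).fun_sub (hasDerivAt_cos y)).congr_deriv ?_
          push_cast
          ring
        rw [h1.deriv]
        linarith [r1_sin_ge hy0]
    have := h (mem_Ici.2 le_rfl) (mem_Ici.2 hx) hx
    simp at this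
    linarith
  rcases le_total 0 x with hx | hx
  · exact key x hx
  · have := key (-x) (by linarith)
    rw [cos_neg] at this
    nlinarith

/-- tangent of the cosine -/
theorem r1_cos_tangent {a w : ℝ} (ha : |a| ≤ π / 2) (hw : |w| ≤ π / 2) :
    cos a ≤ cos w - sin w * (a - w) := by
  obtain ⟨ha1, ha2⟩ := abs_le.1 ha
  obtain ⟨hw1, hw2⟩ := abs_le.1 hw
  rcases lt_trichotomy a w with h | h | h
  · obtain ⟨c, hc, hc2⟩ := exists_hasDerivAt_eq_slope cos (fun x => -sin x) h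
      continuous_cos.continuousOn (fun x _ => hasDerivAt_cos x)
    have h3 : sin c ≤ sin w := sin_le_sin_of_le_of_le_pi_div_two (by linarith [hc.1]) hw2 hc.2.le
    have h4 : cos w - cos a = -sin c * (w - a) := by
      rw [hc2]
      field_simp [sub_ne_zero.2 h.ne']
    nlinarith
  · rw [h]; simp
  · obtain ⟨c, hc, hc2⟩ := exists_hasDerivAt_eq_slope cos (fun x => -sin x) h
      continuous_cos.continuousOn (fun x _ => hasDerivAt_cos x)
    have h3 : sin w ≤ sin c := sin_le_sin_of_le_of_le_pi_div_two hw1 (by linarith [hc.2]) hc.1.le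
    have h4 : cos a - cos w = -sin c * (a - w) := by
      rw [hc2]
      field_simp [sub_ne_zero.2 h.ne']
    nlinarith

theorem r1_cosq10 {a : ℝ} (ha : |a| ≤ π / 2) (q : ℝ) : cos a + q * a ≤ 1 + q ^ 2 / 2 + q ^ 4 / 10 := by
  have h1 := r1_cos_le a
  have hpi := pi_lt_d6
  have ha2 : a ^ 2 ≤ 2.4675 := by
    have h := abs_le.1 ha
    nlinarith [h.1, h.2]
  have hz : 0 ≤ a ^ 2 := sq_nonneg a
  have h2 : 0 ≤ q ^ 4 / 10 + q ^ 2 / 2 - a * q + a ^ 2 / 2 - a ^ 4 / 24 := by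
    obtain ⟨z, hz2⟩ : ∃ z, z = a ^ 2 := ⟨_, rfl⟩
    have h3 : 0 < 1 / 2 + 0.48 * z / 5 := by rw [hz2]; positivity
    have h4 : 0 ≤ (1 / 2 + 0.48 * z / 5) * (z / 2 - z ^ 2 / 24 - (0.48 * z) ^ 2 / 10) - z / 4 := by
      have h5 : z ≤ 2.4675 := by rw [hz2]; exact ha2
      have h6 : 0 ≤ z := by rw [hz2]; exact hz
      nlinarith [mul_nonneg h6 h6, mul_nonneg (mul_nonneg h6 h6) (sub_nonneg.2 h5)]
    have h7 : (1 / 2 + 0.48 * z / 5) * (q ^ 4 / 10 + q ^ 2 / 2 - a * q + a ^ 2 / 2 - a ^ 4 / 24) =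
        (1 / 2 + 0.48 * z / 5) * ((q ^ 2 - 0.48 * z) ^ 2 / 10) + ((1 / 2 + 0.48 * z / 5) * q - a / 2) ^ 2 +
        ((1 / 2 + 0.48 * z / 5) * (z / 2 - z ^ 2 / 24 - (0.48 * z) ^ 2 / 10) - z / 4) := by
      rw [hz2]; ring
    have h8 : 0 ≤ (1 / 2 + 0.48 * z / 5) * (q ^ 4 / 10 + q ^ 2 / 2 - a * q + a ^ 2 / 2 - a ^ 4 / 24) := by
      rw [h7]
      have := mul_nonneg h3.le (by positivity : 0 ≤ (q ^ 2 - 0.48 * z) ^ 2 / 10)
      nlinarith [sq_nonneg ((1 / 2 + 0.48 * z / 5) * q - a / 2)]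
    exact nonneg_of_mul_nonneg_right h8 h3
  nlinarith

theorem r1_cosq24 {a q : ℝ} (ha : |a| ≤ π / 2) (hq : |q| ≤ 0.8) :
    cos a + q * a ≤ 1 + q ^ 2 / 2 + q ^ 4 / 24 + q ^ 6 / 30 := by
  have h1 := r1_cos_le a
  have hpi := pi_lt_d6
  obtain ⟨ha1, ha2⟩ := abs_le.1 ha
  obtain ⟨hq1, hq2⟩ := abs_le.1 hq
  have h2 : 3 * q ^ 2 + 2 * q * a + a ^ 2 ≤ 7 := by
    have h3 : |a| ≤ 1.5708 := by linarith
    have h4 : |q| * |a| ≤ 0.8 * 1.5708 := mul_le_mul hq h3 (abs_nonneg _) (by norm_num)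
    have h5 : q * a ≤ |q| * |a| := by rw [← abs_mul]; exact le_abs_self _
    have h6 : q ^ 2 ≤ 0.64 := by rw [← sq_abs]; nlinarith [abs_nonneg q]
    have h7 : a ^ 2 ≤ 1.5708 ^ 2 := by rw [← sq_abs]; nlinarith [abs_nonneg a]
    nlinarith
  -- 0 ≤ (a-q)^2/2 + (q^4-a^4)/24 + q^6/30
  have h3 : 0 ≤ (a - q) ^ 2 / 2 + (q ^ 4 - a ^ 4) / 24 + q ^ 6 / 30 := by
    have e : (a - q) ^ 2 / 2 + (q ^ 4 - a ^ 4) / 24 + q ^ 6 / 30 =
        (a - q) ^ 2 * (1 / 2 - (3 * q ^ 2 + 2 * q * a + a ^ 2) / 24) - q ^ 3 * (a - q) / 6 + q ^ 6 / 30 := by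
      ring
    rw [e]
    nlinarith [sq_nonneg (q ^ 3 / 30 * 5 - 5 * (a - q) / 12 * 1), sq_nonneg (a - q),
      mul_nonneg (sq_nonneg (a - q)) (sub_nonneg.2 h2), sq_nonneg (q ^ 3 - (5 / 2) * (a - q))]
  nlinarith

theorem r1_exp_ge3 (z : ℝ) : 1 + z + z ^ 2 / 2 + z ^ 3 / 6 ≤ exp z := by
  rcases le_total 0 z with hz | hz
  · have := Real.sum_le_exp_of_nonneg hz 4
    simp [Finset.sum_range_succ, Nat.factorial] at this
    linarith
  · have h1 : ∀ z : ℝ, z ≤ 0 → exp z ≤ 1 + z + z ^ 2 / 2 := by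
      intro z hz
      have h : MonotoneOn (fun z : ℝ => exp z - (1 + z + z ^ 2 / 2)) (Iic 0) := by
        apply monotoneOn_of_deriv_nonneg (convex_Iic 0)
        · fun_prop
        · fun_prop
        · intro y _
          have h1 : HasDerivAt (fun z : ℝ => exp z - (1 + z + z ^ 2 / 2)) (exp y - (1 + y)) y := by
            refine ((Real.hasDerivAt_exp y).fun_sub (((hasDerivAt_id' y).const_add 1).fun_add
              ((hasDerivAt_pow 2 y).div_const 2))).congr_deriv ?_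
            push_cast
            ring
          rw [h1.deriv]
          linarith [add_one_le_exp y]
      have := h (mem_Iic.2 hz) (mem_Iic.2 le_rfl) hz
      simp at this
      linarith
    have h : AntitoneOn (fun z : ℝ => exp z - (1 + z + z ^ 2 / 2 + z ^ 3 / 6)) (Iic 0) := by
      apply antitoneOn_of_deriv_nonpos (convex_Iic 0)
      · fun_prop
      · fun_prop
      · intro y hy
        rw [interior_Iic] at hy
        have hd : HasDerivAt (fun z : ℝ => exp z - (1 + z + z ^ 2 / 2 + z ^ 3 / 6))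
            (exp y - (1 + y + y ^ 2 / 2)) y := by
          refine ((Real.hasDerivAt_exp y).fun_sub ((((hasDerivAt_id' y).const_add 1).fun_add
            ((hasDerivAt_pow 2 y).div_const 2)).fun_add ((hasDerivAt_pow 3 y).div_const 6))).congr_deriv ?_
          push_cast
          ring
        rw [hd.deriv]
        linarith [h1 y (le_of_lt hy)]
    have := h (mem_Iic.2 hz) (mem_Iic.2 le_rfl) hz
    simp at this
    linarith

theorem r1_exp_le2 {z : ℝ} (hz : z ≤ 0) : exp z ≤ 1 + z + z ^ 2 / 2 := by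
  have h : MonotoneOn (fun z : ℝ => exp z - (1 + z + z ^ 2 / 2)) (Iic 0) := by
    apply monotoneOn_of_deriv_nonneg (convex_Iic 0)
    · fun_prop
    · fun_prop
    · intro y _
      have h1 : HasDerivAt (fun z : ℝ => exp z - (1 + z + z ^ 2 / 2)) (exp y - (1 + y)) y := by
        refine ((Real.hasDerivAt_exp y).fun_sub (((hasDerivAt_id' y).const_add 1).fun_add
          ((hasDerivAt_pow 2 y).div_const 2))).congr_deriv ?_
        push_cast
        ring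
      rw [h1.deriv]
      linarith [add_one_le_exp y]
  have := h (mem_Iic.2 hz) (mem_Iic.2 le_rfl) hz
  simp at this
  linarith

/-- upper bound of the exponential for small nonnegative arguments -/
theorem r1_exp_le3 {z : ℝ} (hz : 0 ≤ z) (hz1 : z ≤ 13 / 20) : exp z ≤ 1 + z + z ^ 2 / 2 + z ^ 3 / 5 := by
  have h := Real.exp_bound' hz (by linarith) (n := 5) (by norm_num)
  norm_num [Finset.sum_range_succ, Nat.factorial] at h
  have h3 : 0 ≤ z ^ 3 := pow_nonneg hz 3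
  nlinarith [mul_nonneg h3 (sub_nonneg.2 hz1), mul_nonneg (mul_nonneg h3 hz) (sub_nonneg.2 hz1)]

/-- `1 + sin² a / 2 ≤ cos a + a sin a` -/
theorem r1_cos_ge {a : ℝ} (ha : |a| ≤ π / 2) : 1 + sin a ^ 2 / 2 ≤ cos a + a * sin a := by
  have key : ∀ a : ℝ, 0 ≤ a → a ≤ π / 2 → 1 + sin a ^ 2 / 2 ≤ cos a + a * sin a := by
    intro a h0 h1
    have h : MonotoneOn (fun a : ℝ => cos a + a * sin a - (1 + sin a ^ 2 / 2)) (Icc 0 (π / 2)) := by
      apply monotoneOn_of_deriv_nonneg (convex_Icc _ _)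
      · fun_prop
      · fun_prop
      · intro y hy
        rw [interior_Icc] at hy
        have hd : HasDerivAt (fun a : ℝ => cos a + a * sin a - (1 + sin a ^ 2 / 2))
            (cos y * (y - sin y)) y := by
          refine (((hasDerivAt_cos y).fun_add ((hasDerivAt_id' y).fun_mul (hasDerivAt_sin y))).fun_sub
            ((((hasDerivAt_sin y).fun_pow 2).div_const 2).const_add 1)).congr_deriv ?_
          push_cast
          ring
        rw [hd.deriv]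
        have h2 : 0 ≤ cos y := cos_nonneg_of_neg_pi_div_two_le_of_le (by linarith [hy.1, pi_pos]) hy.2.le
        have h3 := sin_le hy.1.le
        exact mul_nonneg h2 (by linarith)
    have := h (left_mem_Icc.2 (by linarith [pi_pos])) (mem_Icc.2 ⟨h0, h1⟩) h0
    simp at this
    linarith
  obtain ⟨h1, h2⟩ := abs_le.1 ha
  rcases le_total 0 a with h | h
  · exact key a h h2
  · have := key (-a) (by linarith) (by linarith)
    rw [sin_neg, cos_neg] at this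
    nlinarith

/-! ### the saddle data -/

/-- the angle of the saddle -/
noncomputable def sa (κ t : ℝ) : ℝ := t + sx κ t

/-- `p = y / κ` -/
noncomputable def sp (κ t : ℝ) : ℝ := sy κ t / κ

theorem sa_abs {κ t : ℝ} (h : DomR κ t) : |sa κ t| < π / 2 := by
  have := s_angle h
  exact abs_lt.2 ⟨this.1, this.2⟩

theorem cos_sa_pos {κ t : ℝ} (h : DomR κ t) : 0 < cos (sa κ t) := by
  have := s_angle h
  exact cos_pos_of_mem_Ioo ⟨this.1, this.2⟩

theorem sy_eq_sp {κ t : ℝ} (h : DomR κ t) : sy κ t = κ * sp κ t := by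
  have := h.1
  unfold sp
  field_simp

theorem sx_eq {κ t : ℝ} (h : DomR κ t) : sx κ t / κ = exp (-sy κ t) * cos (sa κ t) := by
  have h1 := (s_data h).1
  have hk := h.1
  unfold sa
  rw [div_eq_iff hk.ne']
  linarith

theorem sp_eq {κ t : ℝ} (h : DomR κ t) : sp κ t = exp (-sy κ t) * sin (sa κ t) := by
  have h1 := (s_data h).2
  have hk := h.1
  unfold sa sp
  rw [div_eq_iff hk.ne']
  linarith

theorem sin_sa {κ t : ℝ} (h : DomR κ t) : sin (sa κ t) = sp κ t * exp (sy κ t) := by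
  rw [sp_eq h, mul_comm (exp (-sy κ t)), mul_assoc, ← exp_add, neg_add_cancel, exp_zero, mul_one]

theorem sa_sub {κ t : ℝ} (h : DomR κ t) : sa κ t - t = κ * (exp (-sy κ t) * cos (sa κ t)) := by
  rw [← sx_eq h]
  have := h.1
  unfold sa
  field_simp
  ring

theorem sE_eq {κ t : ℝ} (h : DomR κ t) : sE κ t = exp (-sy κ t) * cos (sa κ t) * (1 + sy κ t) := by
  rw [← sx_eq h]
  unfold sE
  ring

theorem sE_eq2 {κ t : ℝ} (h : DomR κ t) :
    sE κ t = exp (-sy κ t) * cos (sa κ t) + sp κ t * (sa κ t - t) := by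
  rw [sE_eq h, sa_sub h]
  have := sy_eq_sp h
  linear_combination (exp (-sy κ t) * cos (sa κ t)) * this

/-- the horizontal line of height `v`: the value at the saddle angle is larger than `sE` -/
theorem fen_up {κ t : ℝ} (h : DomR κ t) (v : ℝ) :
    sE κ t ≤ exp (-v) * cos (sa κ t) + v / κ * (sa κ t - t) := by
  rw [sE_eq h, sa_sub h]
  have hk := h.1
  have h1 : exp (-sy κ t) * (1 + (sy κ t - v)) ≤ exp (-v) := by
    have h2 := add_one_le_exp (sy κ t - v)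
    calc exp (-sy κ t) * (1 + (sy κ t - v)) ≤ exp (-sy κ t) * exp (sy κ t - v) :=
          mul_le_mul_of_nonneg_left (by linarith) (exp_pos _).le
      _ = exp (-v) := by rw [← exp_add]; congr 1; ring
  have h3 := mul_le_mul_of_nonneg_right h1 (cos_sa_pos h).le
  have h4 : v / κ * (κ * (exp (-sy κ t) * cos (sa κ t))) = v * (exp (-sy κ t) * cos (sa κ t)) := by
    field_simp
  rw [h4]
  nlinarith

/-- the exponent of the horizontal line of height `v` is larger than `sE` -/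
theorem fen_up2 {κ t : ℝ} (h : DomR κ t) {v w : ℝ} (hw : |w| ≤ π / 2) (hv : κ * sin w = v * exp v) :
    sE κ t ≤ exp (-v) * cos w + v / κ * (w - t) := by
  have hk := h.1
  have h1 := fen_up h v
  have h2 := r1_cos_tangent (sa_abs h).le hw
  have h3 : exp (-v) * sin w = v / κ := by
    rw [eq_div_iff hk.ne']
    calc exp (-v) * sin w * κ = exp (-v) * (κ * sin w) := by ring
      _ = v * (exp (-v) * exp v) := by rw [hv]; ring
      _ = v := by rw [← exp_add, neg_add_cancel, exp_zero, mul_one]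
  have h4 := mul_le_mul_of_nonneg_left h2 (exp_pos (-v)).le
  have e : exp (-v) * (cos w - sin w * (sa κ t - w)) =
      exp (-v) * cos w - (exp (-v) * sin w) * (sa κ t - w) := by ring
  rw [e, h3] at h4
  linarith

theorem up10 {κ t : ℝ} (h : DomR κ t) (p : ℝ) :
    sE κ t ≤ exp (-(κ * p)) + p ^ 2 * exp (κ * p) / 2 + p ^ 4 * exp (κ * p) ^ 3 / 10 - p * t := by
  have hk := h.1
  have h1 := fen_up h (κ * p)
  have h2 := r1_cosq10 (sa_abs h).le (p * exp (κ * p))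
  have h3 : κ * p / κ = p := by field_simp
  rw [h3] at h1
  have h4 := mul_le_mul_of_nonneg_left h2 (exp_pos (-(κ * p))).le
  have h5 : exp (-(κ * p)) * exp (κ * p) = 1 := by rw [← exp_add, neg_add_cancel, exp_zero]
  have e1 : exp (-(κ * p)) * (cos (sa κ t) + p * exp (κ * p) * sa κ t) =
      exp (-(κ * p)) * cos (sa κ t) + (exp (-(κ * p)) * exp (κ * p)) * (p * sa κ t) := by ring
  have e2 : exp (-(κ * p)) * (1 + (p * exp (κ * p)) ^ 2 / 2 + (p * exp (κ * p)) ^ 4 / 10) =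
      exp (-(κ * p)) + (exp (-(κ * p)) * exp (κ * p)) * (p ^ 2 * exp (κ * p) / 2) +
      (exp (-(κ * p)) * exp (κ * p)) * (p ^ 4 * exp (κ * p) ^ 3 / 10) := by ring
  rw [e1, e2, h5] at h4
  nlinarith

theorem up24 {κ t : ℝ} (h : DomR κ t) {p : ℝ} (hp : |p * exp (κ * p)| ≤ 0.8) :
    sE κ t ≤ exp (-(κ * p)) + p ^ 2 * exp (κ * p) / 2 + p ^ 4 * exp (κ * p) ^ 3 / 24 +
      p ^ 6 * exp (κ * p) ^ 5 / 30 - p * t := by
  have hk := h.1
  have h1 := fen_up h (κ * p)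
  have h2 := r1_cosq24 (sa_abs h).le hp
  have h3 : κ * p / κ = p := by field_simp
  rw [h3] at h1
  have h4 := mul_le_mul_of_nonneg_left h2 (exp_pos (-(κ * p))).le
  have h5 : exp (-(κ * p)) * exp (κ * p) = 1 := by rw [← exp_add, neg_add_cancel, exp_zero]
  have e1 : exp (-(κ * p)) * (cos (sa κ t) + p * exp (κ * p) * sa κ t) =
      exp (-(κ * p)) * cos (sa κ t) + (exp (-(κ * p)) * exp (κ * p)) * (p * sa κ t) := by ring
  have e2 : exp (-(κ * p)) * (1 + (p * exp (κ * p)) ^ 2 / 2 + (p * exp (κ * p)) ^ 4 / 24 +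
      (p * exp (κ * p)) ^ 6 / 30) =
      exp (-(κ * p)) + (exp (-(κ * p)) * exp (κ * p)) * (p ^ 2 * exp (κ * p) / 2) +
      (exp (-(κ * p)) * exp (κ * p)) * (p ^ 4 * exp (κ * p) ^ 3 / 24) +
      (exp (-(κ * p)) * exp (κ * p)) * (p ^ 6 * exp (κ * p) ^ 5 / 30) := by ring
  rw [e1, e2, h5] at h4
  nlinarith

/-- lower bound of the tangent of `sE` at `t` -/
theorem low_tan {κ t : ℝ} (h : DomR κ t) (t' : ℝ) :
    exp (-sy κ t) + sp κ t ^ 2 * exp (sy κ t) / 2 - sp κ t * t' ≤ sE κ t + sp κ t * (t - t') := by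
  rw [sE_eq2 h]
  have h2 := r1_cos_ge (sa_abs h).le
  rw [sin_sa h] at h2
  have h4 := mul_le_mul_of_nonneg_left h2 (exp_pos (-sy κ t)).le
  have h5 : exp (-sy κ t) * exp (sy κ t) = 1 := by rw [← exp_add, neg_add_cancel, exp_zero]
  have e1 : exp (-sy κ t) * (1 + (sp κ t * exp (sy κ t)) ^ 2 / 2) =
      exp (-sy κ t) + (exp (-sy κ t) * exp (sy κ t)) * (sp κ t ^ 2 * exp (sy κ t) / 2) := by ring
  have e2 : exp (-sy κ t) * (cos (sa κ t) + sa κ t * (sp κ t * exp (sy κ t))) =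
      exp (-sy κ t) * cos (sa κ t) + (exp (-sy κ t) * exp (sy κ t)) * (sa κ t * sp κ t) := by ring
  rw [e1, e2, h5] at h4
  nlinarith

/-- cubic lower bound for the tangent, `τ' = t' + κ` -/
theorem low_cub {κ t : ℝ} (h : DomR κ t) (t' : ℝ) :
    1 + (1 + κ ^ 2) * sp κ t ^ 2 / 2 - sp κ t * (t' + κ) + κ * (1 / 2 - κ ^ 2 / 6) * sp κ t ^ 3 ≤
      sE κ t + sp κ t * (t - t') := by
  refine le_trans ?_ (low_tan h t')
  have h1 := r1_exp_ge3 (-sy κ t)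
  have h2 := add_one_le_exp (sy κ t)
  have h3 := sy_eq_sp h
  obtain ⟨p, hp⟩ : ∃ p, p = sp κ t := ⟨_, rfl⟩
  rw [← hp] at h3 ⊢
  rw [h3] at h1 h2 ⊢
  nlinarith [mul_le_mul_of_nonneg_left h2 (by positivity : 0 ≤ p ^ 2 / 2)]

/-- Fenchel lower bound -/
theorem fen_low {κ t : ℝ} (h : DomR κ t) {t' n u : ℝ} (hn : 0 < n) (hu : |u| < π / 2) (hun : u - t' = κ * n) :
    n * (1 - log n + log (cos u)) ≤ sE κ t + sp κ t * (t - t') := by
  have hk := h.1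
  have hu' := abs_lt.1 hu
  have hc : 0 < cos u := cos_pos_of_mem_Ioo ⟨hu'.1, hu'.2⟩
  -- n (1 - log n + log cos u) ≤ exp (-y) cos u + y n
  have h1 : n * (1 - log n + log (cos u)) ≤ exp (-sy κ t) * cos u + sy κ t * n := by
    have h2 := add_one_le_exp (-sy κ t + log (cos u) - log n)
    have h3 : exp (-sy κ t + log (cos u) - log n) = exp (-sy κ t) * cos u / n := by
      rw [exp_sub, exp_add, exp_log hc, exp_log hn]
    rw [h3, le_div_iff₀ hn] at h2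
    nlinarith
  refine h1.trans ?_
  rw [sE_eq2 h]
  have h4 := r1_cos_tangent hu.le (sa_abs h).le
  have h5 : exp (-sy κ t) * sin (sa κ t) = sp κ t := (sp_eq h).symm
  have h6 := mul_le_mul_of_nonneg_left h4 (exp_pos (-sy κ t)).le
  have h7 : sy κ t * n = sp κ t * (u - t') := by
    rw [sy_eq_sp h, hun]; ring
  rw [h7]
  have e : exp (-sy κ t) * (cos (sa κ t) - sin (sa κ t) * (u - sa κ t)) =
      exp (-sy κ t) * cos (sa κ t) - (exp (-sy κ t) * sin (sa κ t)) * (u - sa κ t) := by ring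
  rw [e, h5] at h6
  linarith

theorem dom_peak {κ : ℝ} (hk : 0 < κ) : DomR κ (-κ) := by
  refine ⟨hk, by linarith [pi_pos], ?_⟩
  rcases lt_or_ge (exp (-1)) κ with h | h
  · exact Or.inl h
  · right
    have h1 : exp (-1) < 1 := by
      rw [exp_lt_one_iff]; norm_num
    linarith [pi_gt_three]

theorem s_peak {κ : ℝ} (hk : 0 < κ) : sx κ (-κ) = κ ∧ sy κ (-κ) = 0 := by
  have hpi := pi_pos
  apply s_unique hk hk (y := 0)
  · simp
  · simp
  · simp; linarith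
  · simp; linarith
  · right; norm_num

theorem sy_lt {κ t t' : ℝ} (h : DomR κ t) (h' : DomR κ t') (ht : t < t') : sy κ t < sy κ t' := by
  by_contra hcon
  push Not at hcon
  obtain ⟨hI, e⟩ := sy_spec h
  obtain ⟨hI', e'⟩ := sy_spec h'
  rcases eq_or_lt_of_le hcon with h1 | h1
  · rw [← h1, e'] at e
    linarith
  · have := Tk_strictMono hI' hI h1
    rw [e, e'] at this
    linarith

theorem sy_le {κ t t' : ℝ} (h : DomR κ t) (h' : DomR κ t') (ht : t ≤ t') : sy κ t ≤ sy κ t' := by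
  rcases eq_or_lt_of_le ht with h1 | h1
  · rw [h1]
  · exact (sy_lt h h' h1).le

theorem sy_nonneg {κ t : ℝ} (h : DomR κ t) (ht : 0 ≤ t + κ) : 0 ≤ sy κ t := by
  have := sy_le (dom_peak h.1) h (by linarith : -κ ≤ t)
  rwa [(s_peak h.1).2] at this

theorem sy_nonpos {κ t : ℝ} (h : DomR κ t) (ht : t + κ ≤ 0) : sy κ t ≤ 0 := by
  have := sy_le h (dom_peak h.1) (by linarith : t ≤ -κ)
  rwa [(s_peak h.1).2] at this

theorem sp_nonneg {κ t : ℝ} (h : DomR κ t) (ht : 0 ≤ t + κ) : 0 ≤ sp κ t :=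
  div_nonneg (sy_nonneg h ht) h.1.le

theorem sp_nonpos {κ t : ℝ} (h : DomR κ t) (ht : t + κ ≤ 0) : sp κ t ≤ 0 :=
  div_nonpos_of_nonpos_of_nonneg (sy_nonpos h ht) h.1.le

/-- two point inequality: `sE` lies below its tangents -/
theorem sE_tangent {κ t t' : ℝ} (h : DomR κ t) (h' : DomR κ t') : sE κ t' ≤ sE κ t + sp κ t * (t - t') := by
  have hk := h.1
  have h1 := fen_up h' (sy κ t)
  have h2 := r1_cos_tangent (sa_abs h').le (sa_abs h).le
  have h3 := mul_le_mul_of_nonneg_left h2 (exp_pos (-sy κ t)).le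
  have h4 : exp (-sy κ t) * sin (sa κ t) = sp κ t := (sp_eq h).symm
  rw [sE_eq2 h]
  have h5 : sy κ t / κ = sp κ t := rfl
  rw [h5] at h1
  have e : exp (-sy κ t) * (cos (sa κ t) - sin (sa κ t) * (sa κ t' - sa κ t)) =
      exp (-sy κ t) * cos (sa κ t) - (exp (-sy κ t) * sin (sa κ t)) * (sa κ t' - sa κ t) := by ring
  rw [e, h4] at h3
  linarith

/-- quadratic lower bound on the right -/
theorem low_quad {κ t : ℝ} (h : DomR κ t) (hk3 : κ ^ 2 ≤ 3) (ht : 0 ≤ t + κ) (t' : ℝ) :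
    1 - (t' + κ) ^ 2 / (2 * (1 + κ ^ 2)) ≤ sE κ t + sp κ t * (t - t') := by
  have h1 := low_cub h t'
  have h2 := sp_nonneg h ht
  have hk := h.1
  have h3 : 0 ≤ κ * (1 / 2 - κ ^ 2 / 6) * sp κ t ^ 3 := by
    apply mul_nonneg (mul_nonneg hk.le (by linarith)) (pow_nonneg h2 3)
  have hA : 0 < 1 + κ ^ 2 := by positivity
  have h4 : -((t' + κ) ^ 2 / (2 * (1 + κ ^ 2))) ≤ (1 + κ ^ 2) * sp κ t ^ 2 / 2 - sp κ t * (t' + κ) := by
    have e : (1 + κ ^ 2) * sp κ t ^ 2 / 2 - sp κ t * (t' + κ) + (t' + κ) ^ 2 / (2 * (1 + κ ^ 2)) =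
        ((1 + κ ^ 2) * sp κ t - (t' + κ)) ^ 2 / (2 * (1 + κ ^ 2)) := by
      field_simp
      ring
    have h5 : 0 ≤ ((1 + κ ^ 2) * sp κ t - (t' + κ)) ^ 2 / (2 * (1 + κ ^ 2)) := by positivity
    linarith
  linarith

/-! ### bounds `sE ≤ 1 - c τ² / (1 + κ²)`, `τ = t + κ` -/

/-- right hand side, `τ ≥ 0`: test line of height `κ p`, `p = l τ / (1 + κ²)` -/
theorem upR {κ t l c k1 P E : ℝ} (h : DomR κ t) (ht : 0 ≤ t + κ) (hk0 : 0 ≤ k1) (hk1 : k1 ≤ κ) (hl : 0 < l)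
    (hP : l * (t + κ) / (1 + κ ^ 2) ≤ P) (hE : exp (κ * P) ≤ E) (hC : 1 / 2 ≤ 1 / l - c / l ^ 2)
    (hnum : E / 2 + P ^ 2 * E ^ 3 / 10 - (1 / l - c / l ^ 2) ≤ k1 ^ 2 * ((1 / l - c / l ^ 2) - 1 / 2)) :
    sE κ t ≤ 1 - c * (t + κ) ^ 2 / (1 + κ ^ 2) := by
  have hk := h.1
  have hA : 0 < 1 + κ ^ 2 := by positivity
  obtain ⟨τ, hτ⟩ : ∃ τ, τ = t + κ := ⟨_, rfl⟩
  obtain ⟨p, hp⟩ : ∃ p, p = l * τ / (1 + κ ^ 2) := ⟨_, rfl⟩
  obtain ⟨C, hC'⟩ : ∃ C, C = 1 / l - c / l ^ 2 := ⟨_, rfl⟩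
  rw [← hτ] at ht hP ⊢
  rw [← hp] at hP
  rw [← hC'] at hC hnum
  have hp0 : 0 ≤ p := by rw [hp]; positivity
  have h1 := up10 h p
  have h2 : exp (-(κ * p)) ≤ 1 + -(κ * p) + (-(κ * p)) ^ 2 / 2 :=
    r1_exp_le2 (by nlinarith [mul_nonneg hk.le hp0])
  have h3 : exp (κ * p) ≤ E := le_trans (exp_le_exp.2 (mul_le_mul_of_nonneg_left hP hk.le)) hE
  have h4 : 0 < exp (κ * p) := exp_pos _
  have h5 : exp (κ * p) ^ 3 ≤ E ^ 3 := pow_le_pow_left₀ h4.le h3 3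
  have h6 : p ^ 2 * exp (κ * p) / 2 ≤ p ^ 2 * E / 2 := by
    have := mul_le_mul_of_nonneg_left h3 (sq_nonneg p)
    linarith
  have h7 : p ^ 4 * exp (κ * p) ^ 3 / 10 ≤ p ^ 2 * (P ^ 2 * E ^ 3) / 10 := by
    have hPp : p ^ 2 ≤ P ^ 2 := pow_le_pow_left₀ hp0 hP 2
    have h8 : p ^ 2 * exp (κ * p) ^ 3 ≤ P ^ 2 * E ^ 3 :=
      mul_le_mul hPp h5 (by positivity) (by positivity)
    have h81 := mul_le_mul_of_nonneg_left h8 (sq_nonneg p)
    have e : p ^ 4 * exp (κ * p) ^ 3 / 10 = p ^ 2 * (p ^ 2 * exp (κ * p) ^ 3) / 10 := by ring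
    rw [e]
    linarith
  have hτp : τ = p * (1 + κ ^ 2) / l := by rw [hp]; field_simp
  have e1 : p * t = p * τ - κ * p := by rw [hτ]; ring
  have e2 : p * τ = p ^ 2 * (1 + κ ^ 2) / l := by rw [hτp]; ring
  have e3 : c * τ ^ 2 / (1 + κ ^ 2) = c * p ^ 2 * (1 + κ ^ 2) / l ^ 2 := by
    rw [hτp]; field_simp
  have e4 : p ^ 2 * (1 + κ ^ 2) / l - c * p ^ 2 * (1 + κ ^ 2) / l ^ 2 = p ^ 2 * ((1 + κ ^ 2) * C) := by
    rw [hC']; field_simp
  have h9 : κ ^ 2 / 2 + E / 2 + P ^ 2 * E ^ 3 / 10 ≤ (1 + κ ^ 2) * C := by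
    have h10 : k1 ^ 2 ≤ κ ^ 2 := pow_le_pow_left₀ hk0 hk1 2
    linarith [mul_le_mul_of_nonneg_right h10 (sub_nonneg.2 hC)]
  have h10 := mul_le_mul_of_nonneg_left h9 (sq_nonneg p)
  rw [e3]
  have e5 : (-(κ * p)) ^ 2 / 2 = p ^ 2 * (κ ^ 2 / 2) := by ring
  linarith

/-- left hand side, `τ ≤ 0`, `p = l τ / (1 + κ²)`, `P1 ≤ |p| ≤ P2` -/
theorem upL {κ t l c k1 k2 P1 P2 w1 w2 : ℝ} (h : DomR κ t) (hk0 : 0 ≤ k1) (hk1 : k1 ≤ κ)
    (hk2 : κ ≤ k2) (hl : 0 < l) (hP0 : 0 ≤ P1)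
    (hP1 : P1 ≤ -(l * (t + κ) / (1 + κ ^ 2))) (hP2 : -(l * (t + κ) / (1 + κ ^ 2)) ≤ P2)
    (hP3 : P2 ≤ 4 / 5) (hw1 : w1 ≤ k1 * P1) (hw0 : 0 ≤ w1) (hw2 : k2 * P2 ≤ w2) (hw3 : w2 ≤ 13 / 20)
    (hC : 1 / 2 + w2 / 5 ≤ 1 / l - c / l ^ 2)
    (hnum : (1 - w1 + w1 ^ 2 / 2) / 2 + P2 ^ 2 / 24 + P2 ^ 4 / 30 - (1 / l - c / l ^ 2) ≤
      k1 ^ 2 * ((1 / l - c / l ^ 2) - (1 / 2 + w2 / 5))) :
    sE κ t ≤ 1 - c * (t + κ) ^ 2 / (1 + κ ^ 2) := by
  have hk := h.1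
  have hA : 0 < 1 + κ ^ 2 := by positivity
  obtain ⟨τ, hτ⟩ : ∃ τ, τ = t + κ := ⟨_, rfl⟩
  obtain ⟨p, hp⟩ : ∃ p, p = -(l * τ / (1 + κ ^ 2)) := ⟨_, rfl⟩
  obtain ⟨C, hC'⟩ : ∃ C, C = 1 / l - c / l ^ 2 := ⟨_, rfl⟩
  rw [← hτ] at hP1 hP2 ⊢
  rw [← hp] at hP1 hP2
  rw [← hC'] at hC hnum
  have hp0 : 0 ≤ p := hP0.trans hP1
  have hw : κ * p ≤ w2 := le_trans (mul_le_mul hk2 hP2 hp0 (hk0.trans (hk1.trans hk2))) hw2
  have hw' : w1 ≤ κ * p := le_trans hw1 (mul_le_mul hk1 hP1 hP0 hk.le)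
  have hv0 : 0 ≤ κ * p := mul_nonneg hk.le hp0
  have hs : exp (-(κ * p)) ≤ 1 := exp_le_one_iff.2 (by linarith)
  have hs0 := exp_pos (-(κ * p))
  have hq : |(-p) * exp (κ * (-p))| ≤ 0.8 := by
    rw [show κ * -p = -(κ * p) by ring, abs_mul, abs_neg, abs_of_nonneg hp0, abs_of_pos hs0]
    calc p * exp (-(κ * p)) ≤ p * 1 := mul_le_mul_of_nonneg_left hs hp0
      _ ≤ 0.8 := by norm_num at hP3 ⊢; linarith
  have h1 := up24 h hq
  rw [show κ * -p = -(κ * p) by ring, neg_neg] at h1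
  have h2 := r1_exp_le3 hv0 (hw.trans hw3)
  have h3 := r1_exp_le2 (z := -(κ * p)) (by linarith)
  have h4 : exp (-(κ * p)) ≤ 1 - w1 + w1 ^ 2 / 2 := by
    have h41 : exp (-(κ * p)) ≤ exp (-w1) := exp_le_exp.2 (by linarith)
    have h42 := r1_exp_le2 (z := -w1) (by linarith)
    nlinarith
  have h5 : exp (-(κ * p)) ^ 3 ≤ 1 := pow_le_one₀ hs0.le hs
  have h6 : exp (-(κ * p)) ^ 5 ≤ 1 := pow_le_one₀ hs0.le hs
  have hp2 : p ^ 2 ≤ P2 ^ 2 := pow_le_pow_left₀ hp0 hP2 2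
  have hp4 : p ^ 4 ≤ P2 ^ 4 := pow_le_pow_left₀ hp0 hP2 4
  have hτp : τ = -(p * (1 + κ ^ 2) / l) := by rw [hp]; field_simp
  have e1 : (-p) * t = -(p * τ) + κ * p := by rw [hτ]; ring
  have e2 : p * τ = -(p ^ 2 * (1 + κ ^ 2) / l) := by rw [hτp]; ring
  have e3 : c * τ ^ 2 / (1 + κ ^ 2) = c * p ^ 2 * (1 + κ ^ 2) / l ^ 2 := by
    rw [hτp]; field_simp
  have e4 : p ^ 2 * (1 + κ ^ 2) / l - c * p ^ 2 * (1 + κ ^ 2) / l ^ 2 = p ^ 2 * ((1 + κ ^ 2) * C) := by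
    rw [hC']; field_simp
  have h7 : (-p) ^ 2 * exp (-(κ * p)) / 2 ≤ p ^ 2 * ((1 - w1 + w1 ^ 2 / 2) / 2) := by
    have h71 := mul_le_mul_of_nonneg_left h4 (sq_nonneg p)
    have e : (-p) ^ 2 * exp (-(κ * p)) / 2 = p ^ 2 * exp (-(κ * p)) / 2 := by ring
    rw [e]
    linarith
  have h8 : (-p) ^ 4 * exp (-(κ * p)) ^ 3 / 24 ≤ p ^ 2 * (P2 ^ 2 / 24) := by
    have h81 : p ^ 2 * exp (-(κ * p)) ^ 3 ≤ P2 ^ 2 * 1 := mul_le_mul hp2 h5 (by positivity) (by positivity)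
    have h82 := mul_le_mul_of_nonneg_left h81 (sq_nonneg p)
    have e : (-p) ^ 4 * exp (-(κ * p)) ^ 3 / 24 = p ^ 2 * (p ^ 2 * exp (-(κ * p)) ^ 3) / 24 := by ring
    rw [e]
    linarith
  have h9 : (-p) ^ 6 * exp (-(κ * p)) ^ 5 / 30 ≤ p ^ 2 * (P2 ^ 4 / 30) := by
    have h91 : p ^ 4 * exp (-(κ * p)) ^ 5 ≤ P2 ^ 4 * 1 := mul_le_mul hp4 h6 (by positivity) (by positivity)
    have h92 := mul_le_mul_of_nonneg_left h91 (sq_nonneg p)
    have e : (-p) ^ 6 * exp (-(κ * p)) ^ 5 / 30 = p ^ 2 * (p ^ 4 * exp (-(κ * p)) ^ 5) / 30 := by ring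
    rw [e]
    linarith
  have h10 : (κ * p) ^ 2 / 2 + (κ * p) ^ 3 / 5 ≤ p ^ 2 * (κ ^ 2 * (1 / 2 + w2 / 5)) := by
    have h101 := mul_le_mul_of_nonneg_left hw (by positivity : 0 ≤ (κ * p) ^ 2)
    have e : (κ * p) ^ 2 / 2 + (κ * p) ^ 3 / 5 = p ^ 2 * (κ ^ 2 / 2) + (κ * p) ^ 2 * (κ * p) / 5 := by ring
    rw [e]
    linarith
  have h11 : κ ^ 2 * (1 / 2 + w2 / 5) + ((1 - w1 + w1 ^ 2 / 2) / 2 + P2 ^ 2 / 24 + P2 ^ 4 / 30) ≤
      (1 + κ ^ 2) * C := by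
    have h12 : k1 ^ 2 ≤ κ ^ 2 := pow_le_pow_left₀ hk0 hk1 2
    linarith [mul_le_mul_of_nonneg_right h12 (sub_nonneg.2 hC)]
  have h12 := mul_le_mul_of_nonneg_left h11 (sq_nonneg p)
  rw [e3]
  linarith

end Sok
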