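import Pool.Agent.Lib.MP_816dec_an.R1Ineq

/-!
MP_816dec_an (Sokal's function), row R1: tables of quadratic bounds for `sE`.
-/

set_option autoImplicit false

open Set Filter Topology Real

namespace Sok

/-- box form of the right hand bound: `κ ∈ [k1, ∞)`, `κ/(1+κ²) ≤ ψ`, `0 ≤ t + κ ≤ τm` -/
theorem VR_box {κ t : ℝ} (h : DomR κ t) (l c k1 ψ τm P w : ℝ) (ht : 0 ≤ t + κ) (htm : t + κ ≤ τm)
    (hk1 : k1 ≤ κ) (hψ : κ / (1 + κ ^ 2) ≤ ψ) (hk0 : 0 ≤ k1) (hl : 0 < l)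
    (hP : P = l * τm / (1 + k1 ^ 2)) (hw : w = ψ * (l * τm)) (hw1 : w ≤ 13 / 20)
    (hC : 1 / 2 ≤ 1 / l - c / l ^ 2)
    (hnum : (1 + w + w ^ 2 / 2 + w ^ 3 / 5) / 2 + P ^ 2 * (1 + w + w ^ 2 / 2 + w ^ 3 / 5) ^ 3 / 10 -
      (1 / l - c / l ^ 2) ≤ k1 ^ 2 * ((1 / l - c / l ^ 2) - 1 / 2)) :
    sE κ t ≤ 1 - c * (t + κ) ^ 2 / (1 + κ ^ 2) := by
  have hk := h.1
  have hA : 0 < 1 + κ ^ 2 := by positivity
  have hA1 : 0 < 1 + k1 ^ 2 := by positivity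
  obtain ⟨τ, hτ⟩ : ∃ τ, τ = t + κ := ⟨_, rfl⟩
  obtain ⟨p, hp⟩ : ∃ p, p = l * τ / (1 + κ ^ 2) := ⟨_, rfl⟩
  obtain ⟨C, hC'⟩ : ∃ C, C = 1 / l - c / l ^ 2 := ⟨_, rfl⟩
  obtain ⟨E, hE⟩ : ∃ E, E = 1 + w + w ^ 2 / 2 + w ^ 3 / 5 := ⟨_, rfl⟩
  rw [← hτ] at ht htm ⊢
  rw [← hC'] at hC hnum
  rw [← hE] at hnum
  have hp0 : 0 ≤ p := by rw [hp]; positivity
  have hpP : p ≤ P := by
    rw [hp, hP]
    apply div_le_div₀ (by nlinarith) (mul_le_mul_of_nonneg_left htm hl.le) hA1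
    nlinarith
  have hv0 : 0 ≤ κ * p := mul_nonneg hk.le hp0
  have hvw : κ * p ≤ w := by
    have e : κ * p = κ / (1 + κ ^ 2) * (l * τ) := by rw [hp]; field_simp
    rw [e, hw]
    apply mul_le_mul hψ (mul_le_mul_of_nonneg_left htm hl.le) (by positivity)
    exact le_trans (by positivity) hψ
  have h1 := up10 h p
  have h2 : exp (-(κ * p)) ≤ 1 + -(κ * p) + (-(κ * p)) ^ 2 / 2 := r1_exp_le2 (by linarith)
  have h3 : exp (κ * p) ≤ E := by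
    have h31 := r1_exp_le3 hv0 (hvw.trans hw1)
    rw [hE]
    have h32 : (κ * p) ^ 2 ≤ w ^ 2 := pow_le_pow_left₀ hv0 hvw 2
    have h33 : (κ * p) ^ 3 ≤ w ^ 3 := pow_le_pow_left₀ hv0 hvw 3
    linarith
  have h4 : 0 < exp (κ * p) := exp_pos _
  have h5 : exp (κ * p) ^ 3 ≤ E ^ 3 := pow_le_pow_left₀ h4.le h3 3
  have h6 : p ^ 2 * exp (κ * p) / 2 ≤ p ^ 2 * E / 2 := by
    have := mul_le_mul_of_nonneg_left h3 (sq_nonneg p)
    linarith
  have h7 : p ^ 4 * exp (κ * p) ^ 3 / 10 ≤ p ^ 2 * (P ^ 2 * E ^ 3) / 10 := by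
    have hPp : p ^ 2 ≤ P ^ 2 := pow_le_pow_left₀ hp0 hpP 2
    have h8 : p ^ 2 * exp (κ * p) ^ 3 ≤ P ^ 2 * E ^ 3 :=
      mul_le_mul hPp h5 (by positivity) (by positivity)
    have h81 := mul_le_mul_of_nonneg_left h8 (sq_nonneg p)
    have e : p ^ 4 * exp (κ * p) ^ 3 / 10 = p ^ 2 * (p ^ 2 * exp (κ * p) ^ 3) / 10 := by ring
    rw [e]
    linarith
  have hτp : τ = p * (1 + κ ^ 2) / l := by rw [hp]; field_simp
  have e1 : p * t = p * τ - κ * p := by rw [hτ]; ring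
  have e2 : p * τ = p ^ 2 * (1 + κ ^ 2) / l := by rw [hτp]; ring
  have e3 : c * τ ^ 2 / (1 + κ ^ 2) = c * p ^ 2 * (1 + κ ^ 2) / l ^ 2 := by
    rw [hτp]; field_simp
  have e4 : p ^ 2 * (1 + κ ^ 2) / l - c * p ^ 2 * (1 + κ ^ 2) / l ^ 2 = p ^ 2 * ((1 + κ ^ 2) * C) := by
    rw [hC']; field_simp
  have h9 : κ ^ 2 / 2 + E / 2 + P ^ 2 * E ^ 3 / 10 ≤ (1 + κ ^ 2) * C := by
    have h10 : k1 ^ 2 ≤ κ ^ 2 := pow_le_pow_left₀ hk0 hk1 2
    linarith [mul_le_mul_of_nonneg_right h10 (sub_nonneg.2 hC)]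
  have h10 := mul_le_mul_of_nonneg_left h9 (sq_nonneg p)
  rw [e3]
  have e5 : (-(κ * p)) ^ 2 / 2 = p ^ 2 * (κ ^ 2 / 2) := by ring
  linarith only [h1, h2, h6, h7, h10, e1, e2, e4, e5]

theorem psi_half {κ : ℝ} : κ / (1 + κ ^ 2) ≤ 1 / 2 := by
  rw [div_le_iff₀ (by positivity)]
  nlinarith [sq_nonneg (κ - 1)]

theorem psi_lo {κ k2 : ℝ} (h0 : 0 ≤ κ) (h : κ ≤ k2) (h1 : k2 ≤ 1) : κ / (1 + κ ^ 2) ≤ k2 / (1 + k2 ^ 2) := by
  rw [div_le_div_iff₀ (by positivity) (by positivity)]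
  nlinarith [mul_nonneg (sub_nonneg.2 h) (by nlinarith : 0 ≤ 1 - κ * k2)]

theorem psi_hi {κ k1 : ℝ} (h : k1 ≤ κ) (h1 : 1 ≤ k1) : κ / (1 + κ ^ 2) ≤ k1 / (1 + k1 ^ 2) := by
  rw [div_le_div_iff₀ (by positivity) (by positivity)]
  nlinarith [mul_nonneg (sub_nonneg.2 h) (by nlinarith : 0 ≤ κ * k1 - 1)]

/-- box form of the left hand bound: `κ ∈ [k1, k2]`, `τ1 ≤ -(t + κ) ≤ τ2` -/
theorem VL_box {κ t : ℝ} (h : DomR κ t) (l c k1 k2 ψ τ1 τ2 P1 P2 w1 w2 : ℝ) (ht : τ1 ≤ -(t + κ))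
    (htm : -(t + κ) ≤ τ2) (hk1 : k1 ≤ κ) (hk2 : κ ≤ k2) (hψ : κ / (1 + κ ^ 2) ≤ ψ) (hk0 : 0 ≤ k1)
    (hτ1 : 0 ≤ τ1) (hl : 0 < l)
    (hP1 : P1 = l * τ1 / (1 + k2 ^ 2)) (hP2 : P2 = l * τ2 / (1 + k1 ^ 2)) (hP3 : P2 ≤ 4 / 5)
    (hw1 : w1 = k1 * P1) (hw2 : w2 = ψ * (l * τ2)) (hw3 : w2 ≤ 13 / 20)
    (hn1 : (1 - w1 + w1 ^ 2 / 2) / 2 + P2 ^ 2 / 24 + P2 ^ 4 / 30 + k1 ^ 2 * (1 / 2 + w2 / 5) ≤
      (1 + k1 ^ 2) * (1 / l - c / l ^ 2))
    (hn2 : (1 - w1 + w1 ^ 2 / 2) / 2 + P2 ^ 2 / 24 + P2 ^ 4 / 30 + k2 ^ 2 * (1 / 2 + w2 / 5) ≤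
      (1 + k2 ^ 2) * (1 / l - c / l ^ 2)) :
    sE κ t ≤ 1 - c * (t + κ) ^ 2 / (1 + κ ^ 2) := by
  have hk := h.1
  have hA : 0 < 1 + κ ^ 2 := by positivity
  have hA1 : 0 < 1 + k1 ^ 2 := by positivity
  have hA2 : 0 < 1 + k2 ^ 2 := by positivity
  obtain ⟨τ, hτ⟩ : ∃ τ, τ = t + κ := ⟨_, rfl⟩
  obtain ⟨p, hp⟩ : ∃ p, p = -(l * τ / (1 + κ ^ 2)) := ⟨_, rfl⟩
  obtain ⟨C, hC'⟩ : ∃ C, C = 1 / l - c / l ^ 2 := ⟨_, rfl⟩
  rw [← hτ] at ht htm ⊢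
  rw [← hC'] at hn1 hn2
  have hp' : p = l * (-τ) / (1 + κ ^ 2) := by rw [hp]; ring
  have hp0 : 0 ≤ p := by
    rw [hp']
    have : 0 ≤ -τ := hτ1.trans ht
    positivity
  have hp1 : P1 ≤ p := by
    rw [hp', hP1]
    have h1 : 0 ≤ -τ := hτ1.trans ht
    apply div_le_div₀ (by positivity) (mul_le_mul_of_nonneg_left ht hl.le) hA
    nlinarith
  have hp2 : p ≤ P2 := by
    rw [hp', hP2]
    have h1 : 0 ≤ τ2 := hτ1.trans (ht.trans htm)
    apply div_le_div₀ (by positivity) (mul_le_mul_of_nonneg_left htm hl.le) hA1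
    nlinarith
  have hP10 : 0 ≤ P1 := by rw [hP1]; positivity
  have hv0 : 0 ≤ κ * p := mul_nonneg hk.le hp0
  have hw : κ * p ≤ w2 := by
    have e : κ * p = κ / (1 + κ ^ 2) * (l * (-τ)) := by rw [hp']; field_simp
    rw [e, hw2]
    apply mul_le_mul hψ (mul_le_mul_of_nonneg_left htm hl.le) _ (le_trans (by positivity) hψ)
    exact mul_nonneg hl.le (hτ1.trans ht)
  have hw' : w1 ≤ κ * p := by rw [hw1]; exact mul_le_mul hk1 hp1 hP10 hk.le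
  have hw10 : 0 ≤ w1 := by rw [hw1]; positivity
  have hs : exp (-(κ * p)) ≤ 1 := exp_le_one_iff.2 (by linarith)
  have hs0 := exp_pos (-(κ * p))
  have hq : |(-p) * exp (κ * (-p))| ≤ 0.8 := by
    rw [show κ * -p = -(κ * p) by ring, abs_mul, abs_neg, abs_of_nonneg hp0, abs_of_pos hs0]
    calc p * exp (-(κ * p)) ≤ p * 1 := mul_le_mul_of_nonneg_left hs hp0
      _ ≤ 0.8 := by norm_num at hP3 ⊢; linarith
  have h1 := up24 h hq
  rw [show κ * -p = -(κ * p) by ring, neg_neg] at h1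
  have h2 := r1_exp_le3 hv0 (hw.trans hw3)
  have h3 := r1_exp_le2 (z := -(κ * p)) (by linarith)
  have h4 : exp (-(κ * p)) ≤ 1 - w1 + w1 ^ 2 / 2 := by
    have h41 : exp (-(κ * p)) ≤ exp (-w1) := exp_le_exp.2 (by linarith)
    have h42 := r1_exp_le2 (z := -w1) (by linarith)
    rw [neg_sq] at h42
    linarith only [h41, h42]
  have h5 : exp (-(κ * p)) ^ 3 ≤ 1 := pow_le_one₀ hs0.le hs
  have h6 : exp (-(κ * p)) ^ 5 ≤ 1 := pow_le_one₀ hs0.le hs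
  have hpp2 : p ^ 2 ≤ P2 ^ 2 := pow_le_pow_left₀ hp0 hp2 2
  have hpp4 : p ^ 4 ≤ P2 ^ 4 := pow_le_pow_left₀ hp0 hp2 4
  have hτp : τ = -(p * (1 + κ ^ 2) / l) := by rw [hp]; field_simp
  have e1 : (-p) * t = -(p * τ) + κ * p := by rw [hτ]; ring
  have e2 : p * τ = -(p ^ 2 * (1 + κ ^ 2) / l) := by rw [hτp]; ring
  have e3 : c * τ ^ 2 / (1 + κ ^ 2) = c * p ^ 2 * (1 + κ ^ 2) / l ^ 2 := by
    rw [hτp]; field_simp
  have e4 : p ^ 2 * (1 + κ ^ 2) / l - c * p ^ 2 * (1 + κ ^ 2) / l ^ 2 = p ^ 2 * ((1 + κ ^ 2) * C) := by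
    rw [hC']; field_simp
  have h7 : (-p) ^ 2 * exp (-(κ * p)) / 2 ≤ p ^ 2 * ((1 - w1 + w1 ^ 2 / 2) / 2) := by
    have h71 := mul_le_mul_of_nonneg_left h4 (sq_nonneg p)
    have e : (-p) ^ 2 * exp (-(κ * p)) / 2 = p ^ 2 * exp (-(κ * p)) / 2 := by ring
    rw [e]
    linarith only [h71]
  have h8 : (-p) ^ 4 * exp (-(κ * p)) ^ 3 / 24 ≤ p ^ 2 * (P2 ^ 2 / 24) := by
    have h81 : p ^ 2 * exp (-(κ * p)) ^ 3 ≤ P2 ^ 2 * 1 := mul_le_mul hpp2 h5 (by positivity) (by positivity)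
    have h82 := mul_le_mul_of_nonneg_left h81 (sq_nonneg p)
    have e : (-p) ^ 4 * exp (-(κ * p)) ^ 3 / 24 = p ^ 2 * (p ^ 2 * exp (-(κ * p)) ^ 3) / 24 := by ring
    rw [e]
    linarith only [h82]
  have h9 : (-p) ^ 6 * exp (-(κ * p)) ^ 5 / 30 ≤ p ^ 2 * (P2 ^ 4 / 30) := by
    have h91 : p ^ 4 * exp (-(κ * p)) ^ 5 ≤ P2 ^ 4 * 1 := mul_le_mul hpp4 h6 (by positivity) (by positivity)
    have h92 := mul_le_mul_of_nonneg_left h91 (sq_nonneg p)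
    have e : (-p) ^ 6 * exp (-(κ * p)) ^ 5 / 30 = p ^ 2 * (p ^ 4 * exp (-(κ * p)) ^ 5) / 30 := by ring
    rw [e]
    linarith only [h92]
  have h10 : (κ * p) ^ 2 / 2 + (κ * p) ^ 3 / 5 ≤ p ^ 2 * (κ ^ 2 * (1 / 2 + w2 / 5)) := by
    have h101 := mul_le_mul_of_nonneg_left hw (by positivity : 0 ≤ (κ * p) ^ 2)
    have e : (κ * p) ^ 2 / 2 + (κ * p) ^ 3 / 5 = p ^ 2 * (κ ^ 2 / 2) + (κ * p) ^ 2 * (κ * p) / 5 := by ring
    rw [e]
    linarith only [h101]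
  have h11 : κ ^ 2 * (1 / 2 + w2 / 5) + ((1 - w1 + w1 ^ 2 / 2) / 2 + P2 ^ 2 / 24 + P2 ^ 4 / 30) ≤
      (1 + κ ^ 2) * C := by
    have hh1 : k1 ^ 2 ≤ κ ^ 2 := pow_le_pow_left₀ hk0 hk1 2
    have hh2 : κ ^ 2 ≤ k2 ^ 2 := pow_le_pow_left₀ hk.le hk2 2
    rcases le_total (1 / 2 + w2 / 5) C with hc | hc
    · linarith only [mul_le_mul_of_nonneg_right hh1 (sub_nonneg.2 hc), hn1, hn2]
    · linarith only [mul_le_mul_of_nonneg_right hh2 (sub_nonneg.2 hc), hn1, hn2]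
  have h12 := mul_le_mul_of_nonneg_left h11 (sq_nonneg p)
  rw [e3]
  linarith only [h1, h2, h7, h8, h9, h10, h12, e1, e2, e4]

/-! ### table, right hand side, all `κ > 0` -/

theorem VR_020 {κ t : ℝ} (h : DomR κ t) (h0 : 0 ≤ t + κ) (h1 : t + κ ≤ 0.2) :
    sE κ t ≤ 1 - 0.466 * (t + κ) ^ 2 / (1 + κ ^ 2) := by
  have hk0 := h.1
  rcases le_total κ 0.39 with b1 | a1
  · exact VR_box h 0.9 0.466 0 (0.39 / (1 + 0.39 ^ 2)) 0.2 _ _ h0 h1 hk0.le (psi_lo hk0.le b1 (by norm_num))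
      (by norm_num) (by norm_num) rfl rfl (by norm_num) (by norm_num) (by norm_num)
  rcases le_total κ 0.51 with b2 | a2
  · exact VR_box h 0.9 0.466 0.39 (0.51 / (1 + 0.51 ^ 2)) 0.2 _ _ h0 h1 a1 (psi_lo hk0.le b2 (by norm_num))
      (by norm_num) (by norm_num) rfl rfl (by norm_num) (by norm_num) (by norm_num)
  rcases le_total κ 0.63 with b3 | a3
  · exact VR_box h 0.9 0.466 0.51 (0.63 / (1 + 0.63 ^ 2)) 0.2 _ _ h0 h1 a2 (psi_lo hk0.le b3 (by norm_num))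
      (by norm_num) (by norm_num) rfl rfl (by norm_num) (by norm_num) (by norm_num)
  exact VR_box h 0.9 0.466 0.63 (1 / 2) 0.2 _ _ h0 h1 a3 psi_half
    (by norm_num) (by norm_num) rfl rfl (by norm_num) (by norm_num) (by norm_num)

theorem VR_030 {κ t : ℝ} (h : DomR κ t) (h0 : 0 ≤ t + κ) (h1 : t + κ ≤ 0.3) :
    sE κ t ≤ 1 - 0.45 * (t + κ) ^ 2 / (1 + κ ^ 2) := by
  have hk0 := h.1
  rcases le_total κ 0.39 with b1 | a1
  · exact VR_box h 0.86 0.45 0 (0.39 / (1 + 0.39 ^ 2)) 0.3 _ _ h0 h1 hk0.le (psi_lo hk0.le b1 (by norm_num))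
      (by norm_num) (by norm_num) rfl rfl (by norm_num) (by norm_num) (by norm_num)
  rcases le_total κ 0.52 with b2 | a2
  · exact VR_box h 0.86 0.45 0.39 (0.52 / (1 + 0.52 ^ 2)) 0.3 _ _ h0 h1 a1 (psi_lo hk0.le b2 (by norm_num))
      (by norm_num) (by norm_num) rfl rfl (by norm_num) (by norm_num) (by norm_num)
  rcases le_total κ 0.66 with b3 | a3
  · exact VR_box h 0.86 0.45 0.52 (0.66 / (1 + 0.66 ^ 2)) 0.3 _ _ h0 h1 a2 (psi_lo hk0.le b3 (by norm_num))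
      (by norm_num) (by norm_num) rfl rfl (by norm_num) (by norm_num) (by norm_num)
  exact VR_box h 0.86 0.45 0.66 (1 / 2) 0.3 _ _ h0 h1 a3 psi_half
    (by norm_num) (by norm_num) rfl rfl (by norm_num) (by norm_num) (by norm_num)

theorem VR_040 {κ t : ℝ} (h : DomR κ t) (h0 : 0 ≤ t + κ) (h1 : t + κ ≤ 0.4) :
    sE κ t ≤ 1 - 0.435 * (t + κ) ^ 2 / (1 + κ ^ 2) := by
  have hk0 := h.1
  rcases le_total κ 0.38 with b1 | a1
  · exact VR_box h 0.82 0.435 0 (0.38 / (1 + 0.38 ^ 2)) 0.4 _ _ h0 h1 hk0.le (psi_lo hk0.le b1 (by norm_num))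
      (by norm_num) (by norm_num) rfl rfl (by norm_num) (by norm_num) (by norm_num)
  rcases le_total κ 0.5 with b2 | a2
  · exact VR_box h 0.82 0.435 0.38 (0.5 / (1 + 0.5 ^ 2)) 0.4 _ _ h0 h1 a1 (psi_lo hk0.le b2 (by norm_num))
      (by norm_num) (by norm_num) rfl rfl (by norm_num) (by norm_num) (by norm_num)
  rcases le_total κ 0.63 with b3 | a3
  · exact VR_box h 0.82 0.435 0.5 (0.63 / (1 + 0.63 ^ 2)) 0.4 _ _ h0 h1 a2 (psi_lo hk0.le b3 (by norm_num))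
      (by norm_num) (by norm_num) rfl rfl (by norm_num) (by norm_num) (by norm_num)
  exact VR_box h 0.82 0.435 0.63 (1 / 2) 0.4 _ _ h0 h1 a3 psi_half
    (by norm_num) (by norm_num) rfl rfl (by norm_num) (by norm_num) (by norm_num)

theorem VR_050 {κ t : ℝ} (h : DomR κ t) (h0 : 0 ≤ t + κ) (h1 : t + κ ≤ 0.5) :
    sE κ t ≤ 1 - 0.421 * (t + κ) ^ 2 / (1 + κ ^ 2) := by
  have hk0 := h.1
  rcases le_total κ 0.37 with b1 | a1
  · exact VR_box h 0.78 0.421 0 (0.37 / (1 + 0.37 ^ 2)) 0.5 _ _ h0 h1 hk0.le (psi_lo hk0.le b1 (by norm_num))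
      (by norm_num) (by norm_num) rfl rfl (by norm_num) (by norm_num) (by norm_num)
  rcases le_total κ 0.49 with b2 | a2
  · exact VR_box h 0.78 0.421 0.37 (0.49 / (1 + 0.49 ^ 2)) 0.5 _ _ h0 h1 a1 (psi_lo hk0.le b2 (by norm_num))
      (by norm_num) (by norm_num) rfl rfl (by norm_num) (by norm_num) (by norm_num)
  rcases le_total κ 0.61 with b3 | a3
  · exact VR_box h 0.78 0.421 0.49 (0.61 / (1 + 0.61 ^ 2)) 0.5 _ _ h0 h1 a2 (psi_lo hk0.le b3 (by norm_num))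
      (by norm_num) (by norm_num) rfl rfl (by norm_num) (by norm_num) (by norm_num)
  exact VR_box h 0.78 0.421 0.61 (1 / 2) 0.5 _ _ h0 h1 a3 psi_half
    (by norm_num) (by norm_num) rfl rfl (by norm_num) (by norm_num) (by norm_num)

theorem VR_060 {κ t : ℝ} (h : DomR κ t) (h0 : 0 ≤ t + κ) (h1 : t + κ ≤ 0.6) :
    sE κ t ≤ 1 - 0.4075 * (t + κ) ^ 2 / (1 + κ ^ 2) := by
  have hk0 := h.1
  rcases le_total κ 0.36 with b1 | a1
  · exact VR_box h 0.74 0.4075 0 (0.36 / (1 + 0.36 ^ 2)) 0.6 _ _ h0 h1 hk0.le (psi_lo hk0.le b1 (by norm_num))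
      (by norm_num) (by norm_num) rfl rfl (by norm_num) (by norm_num) (by norm_num)
  rcases le_total κ 0.48 with b2 | a2
  · exact VR_box h 0.74 0.4075 0.36 (0.48 / (1 + 0.48 ^ 2)) 0.6 _ _ h0 h1 a1 (psi_lo hk0.le b2 (by norm_num))
      (by norm_num) (by norm_num) rfl rfl (by norm_num) (by norm_num) (by norm_num)
  rcases le_total κ 0.6 with b3 | a3
  · exact VR_box h 0.74 0.4075 0.48 (0.6 / (1 + 0.6 ^ 2)) 0.6 _ _ h0 h1 a2 (psi_lo hk0.le b3 (by norm_num))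
      (by norm_num) (by norm_num) rfl rfl (by norm_num) (by norm_num) (by norm_num)
  exact VR_box h 0.74 0.4075 0.6 (1 / 2) 0.6 _ _ h0 h1 a3 psi_half
    (by norm_num) (by norm_num) rfl rfl (by norm_num) (by norm_num) (by norm_num)

theorem VR_070 {κ t : ℝ} (h : DomR κ t) (h0 : 0 ≤ t + κ) (h1 : t + κ ≤ 0.7) :
    sE κ t ≤ 1 - 0.3945 * (t + κ) ^ 2 / (1 + κ ^ 2) := by
  have hk0 := h.1
  rcases le_total κ 0.36 with b1 | a1
  · exact VR_box h 0.7 0.3945 0 (0.36 / (1 + 0.36 ^ 2)) 0.7 _ _ h0 h1 hk0.le (psi_lo hk0.le b1 (by norm_num))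
      (by norm_num) (by norm_num) rfl rfl (by norm_num) (by norm_num) (by norm_num)
  rcases le_total κ 0.48 with b2 | a2
  · exact VR_box h 0.7 0.3945 0.36 (0.48 / (1 + 0.48 ^ 2)) 0.7 _ _ h0 h1 a1 (psi_lo hk0.le b2 (by norm_num))
      (by norm_num) (by norm_num) rfl rfl (by norm_num) (by norm_num) (by norm_num)
  rcases le_total κ 0.6 with b3 | a3
  · exact VR_box h 0.72 0.3945 0.48 (0.6 / (1 + 0.6 ^ 2)) 0.7 _ _ h0 h1 a2 (psi_lo hk0.le b3 (by norm_num))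
      (by norm_num) (by norm_num) rfl rfl (by norm_num) (by norm_num) (by norm_num)
  exact VR_box h 0.7 0.3945 0.6 (1 / 2) 0.7 _ _ h0 h1 a3 psi_half
    (by norm_num) (by norm_num) rfl rfl (by norm_num) (by norm_num) (by norm_num)

theorem VR_080 {κ t : ℝ} (h : DomR κ t) (h0 : 0 ≤ t + κ) (h1 : t + κ ≤ 0.8) :
    sE κ t ≤ 1 - 0.382 * (t + κ) ^ 2 / (1 + κ ^ 2) := by
  have hk0 := h.1
  rcases le_total κ 0.36 with b1 | a1
  · exact VR_box h 0.66 0.382 0 (0.36 / (1 + 0.36 ^ 2)) 0.8 _ _ h0 h1 hk0.le (psi_lo hk0.le b1 (by norm_num))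
      (by norm_num) (by norm_num) rfl rfl (by norm_num) (by norm_num) (by norm_num)
  rcases le_total κ 0.48 with b2 | a2
  · exact VR_box h 0.68 0.382 0.36 (0.48 / (1 + 0.48 ^ 2)) 0.8 _ _ h0 h1 a1 (psi_lo hk0.le b2 (by norm_num))
      (by norm_num) (by norm_num) rfl rfl (by norm_num) (by norm_num) (by norm_num)
  rcases le_total κ 0.61 with b3 | a3
  · exact VR_box h 0.68 0.382 0.48 (0.61 / (1 + 0.61 ^ 2)) 0.8 _ _ h0 h1 a2 (psi_lo hk0.le b3 (by norm_num))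
      (by norm_num) (by norm_num) rfl rfl (by norm_num) (by norm_num) (by norm_num)
  exact VR_box h 0.68 0.382 0.61 (1 / 2) 0.8 _ _ h0 h1 a3 psi_half
    (by norm_num) (by norm_num) rfl rfl (by norm_num) (by norm_num) (by norm_num)

theorem VR_090 {κ t : ℝ} (h : DomR κ t) (h0 : 0 ≤ t + κ) (h1 : t + κ ≤ 0.9) :
    sE κ t ≤ 1 - 0.371 * (t + κ) ^ 2 / (1 + κ ^ 2) := by
  have hk0 := h.1
  rcases le_total κ 0.35 with b1 | a1
  · exact VR_box h 0.64 0.371 0 (0.35 / (1 + 0.35 ^ 2)) 0.9 _ _ h0 h1 hk0.le (psi_lo hk0.le b1 (by norm_num))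
      (by norm_num) (by norm_num) rfl rfl (by norm_num) (by norm_num) (by norm_num)
  rcases le_total κ 0.47 with b2 | a2
  · exact VR_box h 0.64 0.371 0.35 (0.47 / (1 + 0.47 ^ 2)) 0.9 _ _ h0 h1 a1 (psi_lo hk0.le b2 (by norm_num))
      (by norm_num) (by norm_num) rfl rfl (by norm_num) (by norm_num) (by norm_num)
  rcases le_total κ 0.59 with b3 | a3
  · exact VR_box h 0.64 0.371 0.47 (0.59 / (1 + 0.59 ^ 2)) 0.9 _ _ h0 h1 a2 (psi_lo hk0.le b3 (by norm_num))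
      (by norm_num) (by norm_num) rfl rfl (by norm_num) (by norm_num) (by norm_num)
  exact VR_box h 0.64 0.371 0.59 (1 / 2) 0.9 _ _ h0 h1 a3 psi_half
    (by norm_num) (by norm_num) rfl rfl (by norm_num) (by norm_num) (by norm_num)

theorem VR_100 {κ t : ℝ} (h : DomR κ t) (h0 : 0 ≤ t + κ) (h1 : t + κ ≤ 1) :
    sE κ t ≤ 1 - 0.36 * (t + κ) ^ 2 / (1 + κ ^ 2) := by
  have hk0 := h.1
  rcases le_total κ 0.35 with b1 | a1
  · exact VR_box h 0.62 0.36 0 (0.35 / (1 + 0.35 ^ 2)) 1 _ _ h0 h1 hk0.le (psi_lo hk0.le b1 (by norm_num))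
      (by norm_num) (by norm_num) rfl rfl (by norm_num) (by norm_num) (by norm_num)
  rcases le_total κ 0.47 with b2 | a2
  · exact VR_box h 0.62 0.36 0.35 (0.47 / (1 + 0.47 ^ 2)) 1 _ _ h0 h1 a1 (psi_lo hk0.le b2 (by norm_num))
      (by norm_num) (by norm_num) rfl rfl (by norm_num) (by norm_num) (by norm_num)
  rcases le_total κ 0.59 with b3 | a3
  · exact VR_box h 0.62 0.36 0.47 (0.59 / (1 + 0.59 ^ 2)) 1 _ _ h0 h1 a2 (psi_lo hk0.le b3 (by norm_num))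
      (by norm_num) (by norm_num) rfl rfl (by norm_num) (by norm_num) (by norm_num)
  exact VR_box h 0.62 0.36 0.59 (1 / 2) 1 _ _ h0 h1 a3 psi_half
    (by norm_num) (by norm_num) rfl rfl (by norm_num) (by norm_num) (by norm_num)

theorem VR_110 {κ t : ℝ} (h : DomR κ t) (h0 : 0 ≤ t + κ) (h1 : t + κ ≤ 1.1) :
    sE κ t ≤ 1 - 0.3495 * (t + κ) ^ 2 / (1 + κ ^ 2) := by
  have hk0 := h.1
  rcases le_total κ 0.35 with b1 | a1
  · exact VR_box h 0.6 0.3495 0 (0.35 / (1 + 0.35 ^ 2)) 1.1 _ _ h0 h1 hk0.le (psi_lo hk0.le b1 (by norm_num))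
      (by norm_num) (by norm_num) rfl rfl (by norm_num) (by norm_num) (by norm_num)
  rcases le_total κ 0.47 with b2 | a2
  · exact VR_box h 0.6 0.3495 0.35 (0.47 / (1 + 0.47 ^ 2)) 1.1 _ _ h0 h1 a1 (psi_lo hk0.le b2 (by norm_num))
      (by norm_num) (by norm_num) rfl rfl (by norm_num) (by norm_num) (by norm_num)
  rcases le_total κ 0.59 with b3 | a3
  · exact VR_box h 0.6 0.3495 0.47 (0.59 / (1 + 0.59 ^ 2)) 1.1 _ _ h0 h1 a2 (psi_lo hk0.le b3 (by norm_num))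
      (by norm_num) (by norm_num) rfl rfl (by norm_num) (by norm_num) (by norm_num)
  exact VR_box h 0.6 0.3495 0.59 (1 / 2) 1.1 _ _ h0 h1 a3 psi_half
    (by norm_num) (by norm_num) rfl rfl (by norm_num) (by norm_num) (by norm_num)

theorem VR_120 {κ t : ℝ} (h : DomR κ t) (h0 : 0 ≤ t + κ) (h1 : t + κ ≤ 1.2) :
    sE κ t ≤ 1 - 0.34 * (t + κ) ^ 2 / (1 + κ ^ 2) := by
  have hk0 := h.1
  rcases le_total κ 0.35 with b1 | a1
  · exact VR_box h 0.56 0.34 0 (0.35 / (1 + 0.35 ^ 2)) 1.2 _ _ h0 h1 hk0.le (psi_lo hk0.le b1 (by norm_num))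
      (by norm_num) (by norm_num) rfl rfl (by norm_num) (by norm_num) (by norm_num)
  rcases le_total κ 0.47 with b2 | a2
  · exact VR_box h 0.56 0.34 0.35 (0.47 / (1 + 0.47 ^ 2)) 1.2 _ _ h0 h1 a1 (psi_lo hk0.le b2 (by norm_num))
      (by norm_num) (by norm_num) rfl rfl (by norm_num) (by norm_num) (by norm_num)
  rcases le_total κ 0.59 with b3 | a3
  · exact VR_box h 0.58 0.34 0.47 (0.59 / (1 + 0.59 ^ 2)) 1.2 _ _ h0 h1 a2 (psi_lo hk0.le b3 (by norm_num))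
      (by norm_num) (by norm_num) rfl rfl (by norm_num) (by norm_num) (by norm_num)
  exact VR_box h 0.58 0.34 0.59 (1 / 2) 1.2 _ _ h0 h1 a3 psi_half
    (by norm_num) (by norm_num) rfl rfl (by norm_num) (by norm_num) (by norm_num)

theorem VR_130 {κ t : ℝ} (h : DomR κ t) (h0 : 0 ≤ t + κ) (h1 : t + κ ≤ 1.3) :
    sE κ t ≤ 1 - 0.3305 * (t + κ) ^ 2 / (1 + κ ^ 2) := by
  have hk0 := h.1
  rcases le_total κ 0.35 with b1 | a1
  · exact VR_box h 0.54 0.3305 0 (0.35 / (1 + 0.35 ^ 2)) 1.3 _ _ h0 h1 hk0.le (psi_lo hk0.le b1 (by norm_num))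
      (by norm_num) (by norm_num) rfl rfl (by norm_num) (by norm_num) (by norm_num)
  rcases le_total κ 0.47 with b2 | a2
  · exact VR_box h 0.56 0.3305 0.35 (0.47 / (1 + 0.47 ^ 2)) 1.3 _ _ h0 h1 a1 (psi_lo hk0.le b2 (by norm_num))
      (by norm_num) (by norm_num) rfl rfl (by norm_num) (by norm_num) (by norm_num)
  rcases le_total κ 0.6 with b3 | a3
  · exact VR_box h 0.56 0.3305 0.47 (0.6 / (1 + 0.6 ^ 2)) 1.3 _ _ h0 h1 a2 (psi_lo hk0.le b3 (by norm_num))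
      (by norm_num) (by norm_num) rfl rfl (by norm_num) (by norm_num) (by norm_num)
  exact VR_box h 0.56 0.3305 0.6 (1 / 2) 1.3 _ _ h0 h1 a3 psi_half
    (by norm_num) (by norm_num) rfl rfl (by norm_num) (by norm_num) (by norm_num)

theorem VR_140 {κ t : ℝ} (h : DomR κ t) (h0 : 0 ≤ t + κ) (h1 : t + κ ≤ 1.4) :
    sE κ t ≤ 1 - 0.322 * (t + κ) ^ 2 / (1 + κ ^ 2) := by
  have hk0 := h.1
  rcases le_total κ 0.34 with b1 | a1
  · exact VR_box h 0.52 0.322 0 (0.34 / (1 + 0.34 ^ 2)) 1.4 _ _ h0 h1 hk0.le (psi_lo hk0.le b1 (by norm_num))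
      (by norm_num) (by norm_num) rfl rfl (by norm_num) (by norm_num) (by norm_num)
  rcases le_total κ 0.46 with b2 | a2
  · exact VR_box h 0.54 0.322 0.34 (0.46 / (1 + 0.46 ^ 2)) 1.4 _ _ h0 h1 a1 (psi_lo hk0.le b2 (by norm_num))
      (by norm_num) (by norm_num) rfl rfl (by norm_num) (by norm_num) (by norm_num)
  rcases le_total κ 0.58 with b3 | a3
  · exact VR_box h 0.54 0.322 0.46 (0.58 / (1 + 0.58 ^ 2)) 1.4 _ _ h0 h1 a2 (psi_lo hk0.le b3 (by norm_num))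
      (by norm_num) (by norm_num) rfl rfl (by norm_num) (by norm_num) (by norm_num)
  exact VR_box h 0.54 0.322 0.58 (1 / 2) 1.4 _ _ h0 h1 a3 psi_half
    (by norm_num) (by norm_num) rfl rfl (by norm_num) (by norm_num) (by norm_num)

theorem VR_150 {κ t : ℝ} (h : DomR κ t) (h0 : 0 ≤ t + κ) (h1 : t + κ ≤ 1.5) :
    sE κ t ≤ 1 - 0.314 * (t + κ) ^ 2 / (1 + κ ^ 2) := by
  have hk0 := h.1
  rcases le_total κ 0.34 with b1 | a1
  · exact VR_box h 0.52 0.314 0 (0.34 / (1 + 0.34 ^ 2)) 1.5 _ _ h0 h1 hk0.le (psi_lo hk0.le b1 (by norm_num))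
      (by norm_num) (by norm_num) rfl rfl (by norm_num) (by norm_num) (by norm_num)
  rcases le_total κ 0.46 with b2 | a2
  · exact VR_box h 0.52 0.314 0.34 (0.46 / (1 + 0.46 ^ 2)) 1.5 _ _ h0 h1 a1 (psi_lo hk0.le b2 (by norm_num))
      (by norm_num) (by norm_num) rfl rfl (by norm_num) (by norm_num) (by norm_num)
  rcases le_total κ 0.58 with b3 | a3
  · exact VR_box h 0.52 0.314 0.46 (0.58 / (1 + 0.58 ^ 2)) 1.5 _ _ h0 h1 a2 (psi_lo hk0.le b3 (by norm_num))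
      (by norm_num) (by norm_num) rfl rfl (by norm_num) (by norm_num) (by norm_num)
  exact VR_box h 0.52 0.314 0.58 (1 / 2) 1.5 _ _ h0 h1 a3 psi_half
    (by norm_num) (by norm_num) rfl rfl (by norm_num) (by norm_num) (by norm_num)

theorem VR_160 {κ t : ℝ} (h : DomR κ t) (h0 : 0 ≤ t + κ) (h1 : t + κ ≤ 1.6) :
    sE κ t ≤ 1 - 0.306 * (t + κ) ^ 2 / (1 + κ ^ 2) := by
  have hk0 := h.1
  rcases le_total κ 0.34 with b1 | a1
  · exact VR_box h 0.5 0.306 0 (0.34 / (1 + 0.34 ^ 2)) 1.6 _ _ h0 h1 hk0.le (psi_lo hk0.le b1 (by norm_num))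
      (by norm_num) (by norm_num) rfl rfl (by norm_num) (by norm_num) (by norm_num)
  rcases le_total κ 0.46 with b2 | a2
  · exact VR_box h 0.5 0.306 0.34 (0.46 / (1 + 0.46 ^ 2)) 1.6 _ _ h0 h1 a1 (psi_lo hk0.le b2 (by norm_num))
      (by norm_num) (by norm_num) rfl rfl (by norm_num) (by norm_num) (by norm_num)
  rcases le_total κ 0.58 with b3 | a3
  · exact VR_box h 0.5 0.306 0.46 (0.58 / (1 + 0.58 ^ 2)) 1.6 _ _ h0 h1 a2 (psi_lo hk0.le b3 (by norm_num))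
      (by norm_num) (by norm_num) rfl rfl (by norm_num) (by norm_num) (by norm_num)
  exact VR_box h 0.5 0.306 0.58 (1 / 2) 1.6 _ _ h0 h1 a3 psi_half
    (by norm_num) (by norm_num) rfl rfl (by norm_num) (by norm_num) (by norm_num)

theorem VR_170 {κ t : ℝ} (h : DomR κ t) (h0 : 0 ≤ t + κ) (h1 : t + κ ≤ 1.7) :
    sE κ t ≤ 1 - 0.299 * (t + κ) ^ 2 / (1 + κ ^ 2) := by
  have hk0 := h.1
  rcases le_total κ 0.34 with b1 | a1
  · exact VR_box h 0.48 0.299 0 (0.34 / (1 + 0.34 ^ 2)) 1.7 _ _ h0 h1 hk0.le (psi_lo hk0.le b1 (by norm_num))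
      (by norm_num) (by norm_num) rfl rfl (by norm_num) (by norm_num) (by norm_num)
  rcases le_total κ 0.46 with b2 | a2
  · exact VR_box h 0.48 0.299 0.34 (0.46 / (1 + 0.46 ^ 2)) 1.7 _ _ h0 h1 a1 (psi_lo hk0.le b2 (by norm_num))
      (by norm_num) (by norm_num) rfl rfl (by norm_num) (by norm_num) (by norm_num)
  rcases le_total κ 0.58 with b3 | a3
  · exact VR_box h 0.48 0.299 0.46 (0.58 / (1 + 0.58 ^ 2)) 1.7 _ _ h0 h1 a2 (psi_lo hk0.le b3 (by norm_num))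
      (by norm_num) (by norm_num) rfl rfl (by norm_num) (by norm_num) (by norm_num)
  exact VR_box h 0.48 0.299 0.58 (1 / 2) 1.7 _ _ h0 h1 a3 psi_half
    (by norm_num) (by norm_num) rfl rfl (by norm_num) (by norm_num) (by norm_num)

theorem VR_180 {κ t : ℝ} (h : DomR κ t) (h0 : 0 ≤ t + κ) (h1 : t + κ ≤ 1.8) :
    sE κ t ≤ 1 - 0.292 * (t + κ) ^ 2 / (1 + κ ^ 2) := by
  have hk0 := h.1
  rcases le_total κ 0.34 with b1 | a1
  · exact VR_box h 0.48 0.292 0 (0.34 / (1 + 0.34 ^ 2)) 1.8 _ _ h0 h1 hk0.le (psi_lo hk0.le b1 (by norm_num))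
      (by norm_num) (by norm_num) rfl rfl (by norm_num) (by norm_num) (by norm_num)
  rcases le_total κ 0.46 with b2 | a2
  · exact VR_box h 0.46 0.292 0.34 (0.46 / (1 + 0.46 ^ 2)) 1.8 _ _ h0 h1 a1 (psi_lo hk0.le b2 (by norm_num))
      (by norm_num) (by norm_num) rfl rfl (by norm_num) (by norm_num) (by norm_num)
  rcases le_total κ 0.58 with b3 | a3
  · exact VR_box h 0.46 0.292 0.46 (0.58 / (1 + 0.58 ^ 2)) 1.8 _ _ h0 h1 a2 (psi_lo hk0.le b3 (by norm_num))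
      (by norm_num) (by norm_num) rfl rfl (by norm_num) (by norm_num) (by norm_num)
  exact VR_box h 0.46 0.292 0.58 (1 / 2) 1.8 _ _ h0 h1 a3 psi_half
    (by norm_num) (by norm_num) rfl rfl (by norm_num) (by norm_num) (by norm_num)

/-! ### table, left hand side, `κ ≤ 1.53` -/

theorem VL_00_03 {κ t : ℝ} (h : DomR κ t) (hk : κ ≤ 1.53) (h0 : 0 ≤ -(t + κ)) (h1 : -(t + κ) ≤ 0.3) :
    sE κ t ≤ 1 - 0.4815 * (t + κ) ^ 2 / (1 + κ ^ 2) := by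
  have hk0 := h.1
  rcases le_total κ 1.28 with b1 | a1
  · exact VL_box h 0.94 0.4815 0 1.28 (1 / 2) 0 0.3 _ _ _ _ h0 h1 hk0.le b1 psi_half (by norm_num) (by norm_num) (by norm_num)
      rfl rfl (by norm_num) rfl rfl (by norm_num) (by norm_num) (by norm_num)
  rcases le_total κ 1.47 with b2 | a2
  · exact VL_box h 0.94 0.4815 1.28 1.47 (1.28 / (1 + 1.28 ^ 2)) 0 0.3 _ _ _ _ h0 h1 a1 b2 (psi_hi a1 (by norm_num)) (by norm_num) (by norm_num) (by norm_num)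
      rfl rfl (by norm_num) rfl rfl (by norm_num) (by norm_num) (by norm_num)
  exact VL_box h 0.96 0.4815 1.47 1.53 (1.47 / (1 + 1.47 ^ 2)) 0 0.3 _ _ _ _ h0 h1 a2 hk (psi_hi a2 (by norm_num)) (by norm_num) (by norm_num) (by norm_num)
    rfl rfl (by norm_num) rfl rfl (by norm_num) (by norm_num) (by norm_num)

theorem VL_00_04 {κ t : ℝ} (h : DomR κ t) (hk : κ ≤ 1.53) (h0 : 0 ≤ -(t + κ)) (h1 : -(t + κ) ≤ 0.4) :
    sE κ t ≤ 1 - 0.4765 * (t + κ) ^ 2 / (1 + κ ^ 2) := by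
  have hk0 := h.1
  rcases le_total κ 1.17 with b1 | a1
  · exact VL_box h 0.94 0.4765 0 1.17 (1 / 2) 0 0.4 _ _ _ _ h0 h1 hk0.le b1 psi_half (by norm_num) (by norm_num) (by norm_num)
      rfl rfl (by norm_num) rfl rfl (by norm_num) (by norm_num) (by norm_num)
  rcases le_total κ 1.36 with b2 | a2
  · exact VL_box h 0.94 0.4765 1.17 1.36 (1.17 / (1 + 1.17 ^ 2)) 0 0.4 _ _ _ _ h0 h1 a1 b2 (psi_hi a1 (by norm_num)) (by norm_num) (by norm_num) (by norm_num)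
      rfl rfl (by norm_num) rfl rfl (by norm_num) (by norm_num) (by norm_num)
  rcases le_total κ 1.44 with b3 | a3
  · exact VL_box h 0.94 0.4765 1.36 1.44 (1.36 / (1 + 1.36 ^ 2)) 0 0.4 _ _ _ _ h0 h1 a2 b3 (psi_hi a2 (by norm_num)) (by norm_num) (by norm_num) (by norm_num)
      rfl rfl (by norm_num) rfl rfl (by norm_num) (by norm_num) (by norm_num)
  rcases le_total κ 1.49 with b4 | a4
  · exact VL_box h 0.94 0.4765 1.44 1.49 (1.44 / (1 + 1.44 ^ 2)) 0 0.4 _ _ _ _ h0 h1 a3 b4 (psi_hi a3 (by norm_num)) (by norm_num) (by norm_num) (by norm_num)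
      rfl rfl (by norm_num) rfl rfl (by norm_num) (by norm_num) (by norm_num)
  exact VL_box h 0.94 0.4765 1.49 1.53 (1.49 / (1 + 1.49 ^ 2)) 0 0.4 _ _ _ _ h0 h1 a4 hk (psi_hi a4 (by norm_num)) (by norm_num) (by norm_num) (by norm_num)
    rfl rfl (by norm_num) rfl rfl (by norm_num) (by norm_num) (by norm_num)

theorem VL_00_05 {κ t : ℝ} (h : DomR κ t) (hk : κ ≤ 1.53) (h0 : 0 ≤ -(t + κ)) (h1 : -(t + κ) ≤ 0.5) :
    sE κ t ≤ 1 - 0.471 * (t + κ) ^ 2 / (1 + κ ^ 2) := by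
  have hk0 := h.1
  rcases le_total κ 1.14 with b1 | a1
  · exact VL_box h 0.92 0.471 0 1.14 (1 / 2) 0 0.5 _ _ _ _ h0 h1 hk0.le b1 psi_half (by norm_num) (by norm_num) (by norm_num)
      rfl rfl (by norm_num) rfl rfl (by norm_num) (by norm_num) (by norm_num)
  rcases le_total κ 1.37 with b2 | a2
  · exact VL_box h 0.92 0.471 1.14 1.37 (1.14 / (1 + 1.14 ^ 2)) 0 0.5 _ _ _ _ h0 h1 a1 b2 (psi_hi a1 (by norm_num)) (by norm_num) (by norm_num) (by norm_num)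
      rfl rfl (by norm_num) rfl rfl (by norm_num) (by norm_num) (by norm_num)
  rcases le_total κ 1.48 with b3 | a3
  · exact VL_box h 0.92 0.471 1.37 1.48 (1.37 / (1 + 1.37 ^ 2)) 0 0.5 _ _ _ _ h0 h1 a2 b3 (psi_hi a2 (by norm_num)) (by norm_num) (by norm_num) (by norm_num)
      rfl rfl (by norm_num) rfl rfl (by norm_num) (by norm_num) (by norm_num)
  exact VL_box h 0.92 0.471 1.48 1.53 (1.48 / (1 + 1.48 ^ 2)) 0 0.5 _ _ _ _ h0 h1 a3 hk (psi_hi a3 (by norm_num)) (by norm_num) (by norm_num) (by norm_num)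
    rfl rfl (by norm_num) rfl rfl (by norm_num) (by norm_num) (by norm_num)

theorem VL_00_06 {κ t : ℝ} (h : DomR κ t) (hk : κ ≤ 1.53) (h0 : 0 ≤ -(t + κ)) (h1 : -(t + κ) ≤ 0.6) :
    sE κ t ≤ 1 - 0.466 * (t + κ) ^ 2 / (1 + κ ^ 2) := by
  have hk0 := h.1
  rcases le_total κ 1.06 with b1 | a1
  · exact VL_box h 0.9 0.466 0 1.06 (1 / 2) 0 0.6 _ _ _ _ h0 h1 hk0.le b1 psi_half (by norm_num) (by norm_num) (by norm_num)
      rfl rfl (by norm_num) rfl rfl (by norm_num) (by norm_num) (by norm_num)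
  rcases le_total κ 1.34 with b2 | a2
  · exact VL_box h 0.9 0.466 1.06 1.34 (1.06 / (1 + 1.06 ^ 2)) 0 0.6 _ _ _ _ h0 h1 a1 b2 (psi_hi a1 (by norm_num)) (by norm_num) (by norm_num) (by norm_num)
      rfl rfl (by norm_num) rfl rfl (by norm_num) (by norm_num) (by norm_num)
  rcases le_total κ 1.46 with b3 | a3
  · exact VL_box h 0.9 0.466 1.34 1.46 (1.34 / (1 + 1.34 ^ 2)) 0 0.6 _ _ _ _ h0 h1 a2 b3 (psi_hi a2 (by norm_num)) (by norm_num) (by norm_num) (by norm_num)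
      rfl rfl (by norm_num) rfl rfl (by norm_num) (by norm_num) (by norm_num)
  exact VL_box h 0.9 0.466 1.46 1.53 (1.46 / (1 + 1.46 ^ 2)) 0 0.6 _ _ _ _ h0 h1 a3 hk (psi_hi a3 (by norm_num)) (by norm_num) (by norm_num) (by norm_num)
    rfl rfl (by norm_num) rfl rfl (by norm_num) (by norm_num) (by norm_num)

theorem VL_00_08 {κ t : ℝ} (h : DomR κ t) (hk : κ ≤ 1.53) (h0 : 0 ≤ -(t + κ)) (h1 : -(t + κ) ≤ 0.8) :
    sE κ t ≤ 1 - 0.4565 * (t + κ) ^ 2 / (1 + κ ^ 2) := by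
  have hk0 := h.1
  rcases le_total κ 0.89 with b1 | a1
  · exact VL_box h 0.86 0.4565 0 0.89 (0.89 / (1 + 0.89 ^ 2)) 0 0.8 _ _ _ _ h0 h1 hk0.le b1 (psi_lo hk0.le b1 (by norm_num)) (by norm_num) (by norm_num) (by norm_num)
      rfl rfl (by norm_num) rfl rfl (by norm_num) (by norm_num) (by norm_num)
  rcases le_total κ 1.29 with b2 | a2
  · exact VL_box h 0.88 0.4565 0.89 1.29 (1 / 2) 0 0.8 _ _ _ _ h0 h1 a1 b2 psi_half (by norm_num) (by norm_num) (by norm_num)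
      rfl rfl (by norm_num) rfl rfl (by norm_num) (by norm_num) (by norm_num)
  rcases le_total κ 1.43 with b3 | a3
  · exact VL_box h 0.88 0.4565 1.29 1.43 (1.29 / (1 + 1.29 ^ 2)) 0 0.8 _ _ _ _ h0 h1 a2 b3 (psi_hi a2 (by norm_num)) (by norm_num) (by norm_num) (by norm_num)
      rfl rfl (by norm_num) rfl rfl (by norm_num) (by norm_num) (by norm_num)
  rcases le_total κ 1.52 with b4 | a4
  · exact VL_box h 0.88 0.4565 1.43 1.52 (1.43 / (1 + 1.43 ^ 2)) 0 0.8 _ _ _ _ h0 h1 a3 b4 (psi_hi a3 (by norm_num)) (by norm_num) (by norm_num) (by norm_num)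
      rfl rfl (by norm_num) rfl rfl (by norm_num) (by norm_num) (by norm_num)
  exact VL_box h 0.88 0.4565 1.52 1.53 (1.52 / (1 + 1.52 ^ 2)) 0 0.8 _ _ _ _ h0 h1 a4 hk (psi_hi a4 (by norm_num)) (by norm_num) (by norm_num) (by norm_num)
    rfl rfl (by norm_num) rfl rfl (by norm_num) (by norm_num) (by norm_num)

theorem VL_03_04 {κ t : ℝ} (h : DomR κ t) (hk : κ ≤ 1.53) (h0 : 0.3 ≤ -(t + κ)) (h1 : -(t + κ) ≤ 0.4) :
    sE κ t ≤ 1 - 0.492 * (t + κ) ^ 2 / (1 + κ ^ 2) := by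
  have hk0 := h.1
  rcases le_total κ 0.27 with b1 | a1
  · exact VL_box h 0.98 0.492 0 0.27 (0.27 / (1 + 0.27 ^ 2)) 0.3 0.4 _ _ _ _ h0 h1 hk0.le b1 (psi_lo hk0.le b1 (by norm_num)) (by norm_num) (by norm_num) (by norm_num)
      rfl rfl (by norm_num) rfl rfl (by norm_num) (by norm_num) (by norm_num)
  rcases le_total κ 0.88 with b2 | a2
  · exact VL_box h 0.98 0.492 0.27 0.88 (0.88 / (1 + 0.88 ^ 2)) 0.3 0.4 _ _ _ _ h0 h1 a1 b2 (psi_lo hk0.le b2 (by norm_num)) (by norm_num) (by norm_num) (by norm_num)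
      rfl rfl (by norm_num) rfl rfl (by norm_num) (by norm_num) (by norm_num)
  rcases le_total κ 1.29 with b3 | a3
  · exact VL_box h 0.98 0.492 0.88 1.29 (1 / 2) 0.3 0.4 _ _ _ _ h0 h1 a2 b3 psi_half (by norm_num) (by norm_num) (by norm_num)
      rfl rfl (by norm_num) rfl rfl (by norm_num) (by norm_num) (by norm_num)
  rcases le_total κ 1.46 with b4 | a4
  · exact VL_box h 0.98 0.492 1.29 1.46 (1.29 / (1 + 1.29 ^ 2)) 0.3 0.4 _ _ _ _ h0 h1 a3 b4 (psi_hi a3 (by norm_num)) (by norm_num) (by norm_num) (by norm_num)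
      rfl rfl (by norm_num) rfl rfl (by norm_num) (by norm_num) (by norm_num)
  exact VL_box h 0.98 0.492 1.46 1.53 (1.46 / (1 + 1.46 ^ 2)) 0.3 0.4 _ _ _ _ h0 h1 a4 hk (psi_hi a4 (by norm_num)) (by norm_num) (by norm_num) (by norm_num)
    rfl rfl (by norm_num) rfl rfl (by norm_num) (by norm_num) (by norm_num)

theorem VL_04_05 {κ t : ℝ} (h : DomR κ t) (hk : κ ≤ 1.53) (h0 : 0.4 ≤ -(t + κ)) (h1 : -(t + κ) ≤ 0.5) :
    sE κ t ≤ 1 - 0.4885 * (t + κ) ^ 2 / (1 + κ ^ 2) := by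
  have hk0 := h.1
  rcases le_total κ 0.19 with b1 | a1
  · exact VL_box h 0.96 0.4885 0 0.19 (0.19 / (1 + 0.19 ^ 2)) 0.4 0.5 _ _ _ _ h0 h1 hk0.le b1 (psi_lo hk0.le b1 (by norm_num)) (by norm_num) (by norm_num) (by norm_num)
      rfl rfl (by norm_num) rfl rfl (by norm_num) (by norm_num) (by norm_num)
  rcases le_total κ 0.8 with b2 | a2
  · exact VL_box h 0.96 0.4885 0.19 0.8 (0.8 / (1 + 0.8 ^ 2)) 0.4 0.5 _ _ _ _ h0 h1 a1 b2 (psi_lo hk0.le b2 (by norm_num)) (by norm_num) (by norm_num) (by norm_num)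
      rfl rfl (by norm_num) rfl rfl (by norm_num) (by norm_num) (by norm_num)
  rcases le_total κ 1.3 with b3 | a3
  · exact VL_box h 0.96 0.4885 0.8 1.3 (1 / 2) 0.4 0.5 _ _ _ _ h0 h1 a2 b3 psi_half (by norm_num) (by norm_num) (by norm_num)
      rfl rfl (by norm_num) rfl rfl (by norm_num) (by norm_num) (by norm_num)
  rcases le_total κ 1.51 with b4 | a4
  · exact VL_box h 0.96 0.4885 1.3 1.51 (1.3 / (1 + 1.3 ^ 2)) 0.4 0.5 _ _ _ _ h0 h1 a3 b4 (psi_hi a3 (by norm_num)) (by norm_num) (by norm_num) (by norm_num)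
      rfl rfl (by norm_num) rfl rfl (by norm_num) (by norm_num) (by norm_num)
  exact VL_box h 0.98 0.4885 1.51 1.53 (1.51 / (1 + 1.51 ^ 2)) 0.4 0.5 _ _ _ _ h0 h1 a4 hk (psi_hi a4 (by norm_num)) (by norm_num) (by norm_num) (by norm_num)
    rfl rfl (by norm_num) rfl rfl (by norm_num) (by norm_num) (by norm_num)

theorem VL_05_06 {κ t : ℝ} (h : DomR κ t) (hk : κ ≤ 1.53) (h0 : 0.5 ≤ -(t + κ)) (h1 : -(t + κ) ≤ 0.6) :
    sE κ t ≤ 1 - 0.4835 * (t + κ) ^ 2 / (1 + κ ^ 2) := by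
  have hk0 := h.1
  rcases le_total κ 0.15 with b1 | a1
  · exact VL_box h 0.94 0.4835 0 0.15 (0.15 / (1 + 0.15 ^ 2)) 0.5 0.6 _ _ _ _ h0 h1 hk0.le b1 (psi_lo hk0.le b1 (by norm_num)) (by norm_num) (by norm_num) (by norm_num)
      rfl rfl (by norm_num) rfl rfl (by norm_num) (by norm_num) (by norm_num)
  rcases le_total κ 0.77 with b2 | a2
  · exact VL_box h 0.94 0.4835 0.15 0.77 (0.77 / (1 + 0.77 ^ 2)) 0.5 0.6 _ _ _ _ h0 h1 a1 b2 (psi_lo hk0.le b2 (by norm_num)) (by norm_num) (by norm_num) (by norm_num)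
      rfl rfl (by norm_num) rfl rfl (by norm_num) (by norm_num) (by norm_num)
  rcases le_total κ 1.34 with b3 | a3
  · exact VL_box h 0.94 0.4835 0.77 1.34 (1 / 2) 0.5 0.6 _ _ _ _ h0 h1 a2 b3 psi_half (by norm_num) (by norm_num) (by norm_num)
      rfl rfl (by norm_num) rfl rfl (by norm_num) (by norm_num) (by norm_num)
  exact VL_box h 0.96 0.4835 1.34 1.53 (1.34 / (1 + 1.34 ^ 2)) 0.5 0.6 _ _ _ _ h0 h1 a3 hk (psi_hi a3 (by norm_num)) (by norm_num) (by norm_num) (by norm_num)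
    rfl rfl (by norm_num) rfl rfl (by norm_num) (by norm_num) (by norm_num)

theorem VL_06_07 {κ t : ℝ} (h : DomR κ t) (hk : κ ≤ 1.53) (h0 : 0.6 ≤ -(t + κ)) (h1 : -(t + κ) ≤ 0.7) :
    sE κ t ≤ 1 - 0.477 * (t + κ) ^ 2 / (1 + κ ^ 2) := by
  have hk0 := h.1
  rcases le_total κ 0.24 with b1 | a1
  · exact VL_box h 0.92 0.477 0 0.24 (0.24 / (1 + 0.24 ^ 2)) 0.6 0.7 _ _ _ _ h0 h1 hk0.le b1 (psi_lo hk0.le b1 (by norm_num)) (by norm_num) (by norm_num) (by norm_num)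
      rfl rfl (by norm_num) rfl rfl (by norm_num) (by norm_num) (by norm_num)
  rcases le_total κ 0.95 with b2 | a2
  · exact VL_box h 0.92 0.477 0.24 0.95 (0.95 / (1 + 0.95 ^ 2)) 0.6 0.7 _ _ _ _ h0 h1 a1 b2 (psi_lo hk0.le b2 (by norm_num)) (by norm_num) (by norm_num) (by norm_num)
      rfl rfl (by norm_num) rfl rfl (by norm_num) (by norm_num) (by norm_num)
  rcases le_total κ 1.5 with b3 | a3
  · exact VL_box h 0.94 0.477 0.95 1.5 (1 / 2) 0.6 0.7 _ _ _ _ h0 h1 a2 b3 psi_half (by norm_num) (by norm_num) (by norm_num)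
      rfl rfl (by norm_num) rfl rfl (by norm_num) (by norm_num) (by norm_num)
  exact VL_box h 0.96 0.477 1.5 1.53 (1.5 / (1 + 1.5 ^ 2)) 0.6 0.7 _ _ _ _ h0 h1 a3 hk (psi_hi a3 (by norm_num)) (by norm_num) (by norm_num) (by norm_num)
    rfl rfl (by norm_num) rfl rfl (by norm_num) (by norm_num) (by norm_num)

theorem VL_07_08 {κ t : ℝ} (h : DomR κ t) (hk : κ ≤ 1.53) (h0 : 0.7 ≤ -(t + κ)) (h1 : -(t + κ) ≤ 0.8) :
    sE κ t ≤ 1 - 0.47 * (t + κ) ^ 2 / (1 + κ ^ 2) := by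
  have hk0 := h.1
  rcases le_total κ 0.28 with b1 | a1
  · exact VL_box h 0.88 0.47 0 0.28 (0.28 / (1 + 0.28 ^ 2)) 0.7 0.8 _ _ _ _ h0 h1 hk0.le b1 (psi_lo hk0.le b1 (by norm_num)) (by norm_num) (by norm_num) (by norm_num)
      rfl rfl (by norm_num) rfl rfl (by norm_num) (by norm_num) (by norm_num)
  rcases le_total κ 1.05 with b2 | a2
  · exact VL_box h 0.9 0.47 0.28 1.05 (1 / 2) 0.7 0.8 _ _ _ _ h0 h1 a1 b2 psi_half (by norm_num) (by norm_num) (by norm_num)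
      rfl rfl (by norm_num) rfl rfl (by norm_num) (by norm_num) (by norm_num)
  exact VL_box h 0.92 0.47 1.05 1.53 (1.05 / (1 + 1.05 ^ 2)) 0.7 0.8 _ _ _ _ h0 h1 a2 hk (psi_hi a2 (by norm_num)) (by norm_num) (by norm_num) (by norm_num)
    rfl rfl (by norm_num) rfl rfl (by norm_num) (by norm_num) (by norm_num)

theorem VL_08_09 {κ t : ℝ} (h : DomR κ t) (hk : κ ≤ 1.53) (h0 : 0.8 ≤ -(t + κ)) (h1 : -(t + κ) ≤ 0.9) :
    sE κ t ≤ 1 - 0.4625 * (t + κ) ^ 2 / (1 + κ ^ 2) := by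
  have hk0 := h.1
  rcases le_total κ 0.3 with b1 | a1
  · exact VL_box h 0.86 0.4625 0 0.3 (0.3 / (1 + 0.3 ^ 2)) 0.8 0.9 _ _ _ _ h0 h1 hk0.le b1 (psi_lo hk0.le b1 (by norm_num)) (by norm_num) (by norm_num) (by norm_num)
      rfl rfl (by norm_num) rfl rfl (by norm_num) (by norm_num) (by norm_num)
  rcases le_total κ 1.13 with b2 | a2
  · exact VL_box h 0.88 0.4625 0.3 1.13 (1 / 2) 0.8 0.9 _ _ _ _ h0 h1 a1 b2 psi_half (by norm_num) (by norm_num) (by norm_num)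
      rfl rfl (by norm_num) rfl rfl (by norm_num) (by norm_num) (by norm_num)
  exact VL_box h 0.92 0.4625 1.13 1.53 (1.13 / (1 + 1.13 ^ 2)) 0.8 0.9 _ _ _ _ h0 h1 a2 hk (psi_hi a2 (by norm_num)) (by norm_num) (by norm_num) (by norm_num)
    rfl rfl (by norm_num) rfl rfl (by norm_num) (by norm_num) (by norm_num)

theorem VL_09_10 {κ t : ℝ} (h : DomR κ t) (hk : κ ≤ 1.53) (h0 : 0.9 ≤ -(t + κ)) (h1 : -(t + κ) ≤ 1) :
    sE κ t ≤ 1 - 0.454 * (t + κ) ^ 2 / (1 + κ ^ 2) := by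
  have hk0 := h.1
  rcases le_total κ 0.29 with b1 | a1
  · exact VL_box h 0.8 0.454 0 0.29 (0.29 / (1 + 0.29 ^ 2)) 0.9 1 _ _ _ _ h0 h1 hk0.le b1 (psi_lo hk0.le b1 (by norm_num)) (by norm_num) (by norm_num) (by norm_num)
      rfl rfl (by norm_num) rfl rfl (by norm_num) (by norm_num) (by norm_num)
  rcases le_total κ 1.2 with b2 | a2
  · exact VL_box h 0.86 0.454 0.29 1.2 (1 / 2) 0.9 1 _ _ _ _ h0 h1 a1 b2 psi_half (by norm_num) (by norm_num) (by norm_num)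
      rfl rfl (by norm_num) rfl rfl (by norm_num) (by norm_num) (by norm_num)
  exact VL_box h 0.92 0.454 1.2 1.53 (1.2 / (1 + 1.2 ^ 2)) 0.9 1 _ _ _ _ h0 h1 a2 hk (psi_hi a2 (by norm_num)) (by norm_num) (by norm_num) (by norm_num)
    rfl rfl (by norm_num) rfl rfl (by norm_num) (by norm_num) (by norm_num)

theorem VL_10_11 {κ t : ℝ} (h : DomR κ t) (hk : κ ≤ 1.53) (h0 : 1 ≤ -(t + κ)) (h1 : -(t + κ) ≤ 1.1) :
    sE κ t ≤ 1 - 0.44 * (t + κ) ^ 2 / (1 + κ ^ 2) := by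
  have hk0 := h.1
  rcases le_total κ 0.33 with b1 | a1
  · exact VL_box h 0.72 0.44 0 0.33 (0.33 / (1 + 0.33 ^ 2)) 1 1.1 _ _ _ _ h0 h1 hk0.le b1 (psi_lo hk0.le b1 (by norm_num)) (by norm_num) (by norm_num) (by norm_num)
      rfl rfl (by norm_num) rfl rfl (by norm_num) (by norm_num) (by norm_num)
  exact VL_box h 0.8 0.44 0.33 1.53 (1 / 2) 1 1.1 _ _ _ _ h0 h1 a1 hk psi_half (by norm_num) (by norm_num) (by norm_num)
    rfl rfl (by norm_num) rfl rfl (by norm_num) (by norm_num) (by norm_num)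

theorem VL_11_12 {κ t : ℝ} (h : DomR κ t) (hk : κ ≤ 1.53) (h0 : 1.1 ≤ -(t + κ)) (h1 : -(t + κ) ≤ 1.2) :
    sE κ t ≤ 1 - 0.425 * (t + κ) ^ 2 / (1 + κ ^ 2) := by
  have hk0 := h.1
  rcases le_total κ 0.28 with b1 | a1
  · exact VL_box h 0.66 0.425 0 0.28 (0.28 / (1 + 0.28 ^ 2)) 1.1 1.2 _ _ _ _ h0 h1 hk0.le b1 (psi_lo hk0.le b1 (by norm_num)) (by norm_num) (by norm_num) (by norm_num)
      rfl rfl (by norm_num) rfl rfl (by norm_num) (by norm_num) (by norm_num)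
  exact VL_box h 0.7 0.425 0.28 1.53 (1 / 2) 1.1 1.2 _ _ _ _ h0 h1 a1 hk psi_half (by norm_num) (by norm_num) (by norm_num)
    rfl rfl (by norm_num) rfl rfl (by norm_num) (by norm_num) (by norm_num)

theorem VL_12_13 {κ t : ℝ} (h : DomR κ t) (hk : κ ≤ 1.53) (h0 : 1.2 ≤ -(t + κ)) (h1 : -(t + κ) ≤ 1.3) :
    sE κ t ≤ 1 - 0.406 * (t + κ) ^ 2 / (1 + κ ^ 2) := by
  have hk0 := h.1
  rcases le_total κ 0.35 with b1 | a1
  · exact VL_box h 0.6 0.406 0 0.35 (0.35 / (1 + 0.35 ^ 2)) 1.2 1.3 _ _ _ _ h0 h1 hk0.le b1 (psi_lo hk0.le b1 (by norm_num)) (by norm_num) (by norm_num) (by norm_num)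
      rfl rfl (by norm_num) rfl rfl (by norm_num) (by norm_num) (by norm_num)
  exact VL_box h 0.66 0.406 0.35 1.53 (1 / 2) 1.2 1.3 _ _ _ _ h0 h1 a1 hk psi_half (by norm_num) (by norm_num) (by norm_num)
    rfl rfl (by norm_num) rfl rfl (by norm_num) (by norm_num) (by norm_num)

theorem VL_13_14 {κ t : ℝ} (h : DomR κ t) (hk : κ ≤ 1.53) (h0 : 1.3 ≤ -(t + κ)) (h1 : -(t + κ) ≤ 1.4) :
    sE κ t ≤ 1 - 0.391 * (t + κ) ^ 2 / (1 + κ ^ 2) := by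
  have hk0 := h.1
  rcases le_total κ 0.32 with b1 | a1
  · exact VL_box h 0.56 0.391 0 0.32 (0.32 / (1 + 0.32 ^ 2)) 1.3 1.4 _ _ _ _ h0 h1 hk0.le b1 (psi_lo hk0.le b1 (by norm_num)) (by norm_num) (by norm_num) (by norm_num)
      rfl rfl (by norm_num) rfl rfl (by norm_num) (by norm_num) (by norm_num)
  exact VL_box h 0.6 0.391 0.32 1.53 (1 / 2) 1.3 1.4 _ _ _ _ h0 h1 a1 hk psi_half (by norm_num) (by norm_num) (by norm_num)
    rfl rfl (by norm_num) rfl rfl (by norm_num) (by norm_num) (by norm_num)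

theorem VL_14_15 {κ t : ℝ} (h : DomR κ t) (hk : κ ≤ 1.53) (h0 : 1.4 ≤ -(t + κ)) (h1 : -(t + κ) ≤ 1.5) :
    sE κ t ≤ 1 - 0.3745 * (t + κ) ^ 2 / (1 + κ ^ 2) := by
  have hk0 := h.1
  rcases le_total κ 0.29 with b1 | a1
  · exact VL_box h 0.52 0.3745 0 0.29 (0.29 / (1 + 0.29 ^ 2)) 1.4 1.5 _ _ _ _ h0 h1 hk0.le b1 (psi_lo hk0.le b1 (by norm_num)) (by norm_num) (by norm_num) (by norm_num)
      rfl rfl (by norm_num) rfl rfl (by norm_num) (by norm_num) (by norm_num)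
  exact VL_box h 0.56 0.3745 0.29 1.53 (1 / 2) 1.4 1.5 _ _ _ _ h0 h1 a1 hk psi_half (by norm_num) (by norm_num) (by norm_num)
    rfl rfl (by norm_num) rfl rfl (by norm_num) (by norm_num) (by norm_num)

theorem VL_15_16 {κ t : ℝ} (h : DomR κ t) (hk : κ ≤ 1.53) (h0 : 1.5 ≤ -(t + κ)) (h1 : -(t + κ) ≤ 1.6) :
    sE κ t ≤ 1 - 0.3645 * (t + κ) ^ 2 / (1 + κ ^ 2) := by
  have hk0 := h.1
  rcases le_total κ 0.38 with b1 | a1
  · exact VL_box h 0.5 0.3645 0 0.38 (0.38 / (1 + 0.38 ^ 2)) 1.5 1.6 _ _ _ _ h0 h1 hk0.le b1 (psi_lo hk0.le b1 (by norm_num)) (by norm_num) (by norm_num) (by norm_num)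
      rfl rfl (by norm_num) rfl rfl (by norm_num) (by norm_num) (by norm_num)
  exact VL_box h 0.54 0.3645 0.38 1.53 (1 / 2) 1.5 1.6 _ _ _ _ h0 h1 a1 hk psi_half (by norm_num) (by norm_num) (by norm_num)
    rfl rfl (by norm_num) rfl rfl (by norm_num) (by norm_num) (by norm_num)

theorem VL_16_17 {κ t : ℝ} (h : DomR κ t) (hk : κ ≤ 1.53) (h0 : 1.6 ≤ -(t + κ)) (h1 : -(t + κ) ≤ 1.7) :
    sE κ t ≤ 1 - 0.346 * (t + κ) ^ 2 / (1 + κ ^ 2) := by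
  have hk0 := h.1
  rcases le_total κ 0.32 with b1 | a1
  · exact VL_box h 0.46 0.346 0 0.32 (0.32 / (1 + 0.32 ^ 2)) 1.6 1.7 _ _ _ _ h0 h1 hk0.le b1 (psi_lo hk0.le b1 (by norm_num)) (by norm_num) (by norm_num) (by norm_num)
      rfl rfl (by norm_num) rfl rfl (by norm_num) (by norm_num) (by norm_num)
  exact VL_box h 0.5 0.346 0.32 1.53 (1 / 2) 1.6 1.7 _ _ _ _ h0 h1 a1 hk psi_half (by norm_num) (by norm_num) (by norm_num)
    rfl rfl (by norm_num) rfl rfl (by norm_num) (by norm_num) (by norm_num)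

end Sok
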