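import Pool.Agent.Lib.MP_816dec_an.R1Ineq2

/-!
MP_816dec_an (Sokal's function), row R1: lower bounds for `sE`, two sided bounds for `sp`.
-/

set_option autoImplicit false

open Set Filter Topology Real

namespace Sok

/-! ### elementary inequalities -/

theorem r1_log_le3 {z : ℝ} (hz : 0 ≤ z) : log (1 + z) ≤ z - z ^ 2 / 2 + z ^ 3 / 3 := by
  have h : MonotoneOn (fun z : ℝ => z - z ^ 2 / 2 + z ^ 3 / 3 - log (1 + z)) (Ici 0) := by
    apply monotoneOn_of_deriv_nonneg (convex_Ici 0)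
    · apply ContinuousOn.sub (by fun_prop)
      apply ContinuousOn.log (by fun_prop)
      intro y hy
      have := mem_Ici.1 hy
      positivity
    · intro y hy
      rw [interior_Ici] at hy
      have hy0 := mem_Ioi.1 hy
      apply DifferentiableAt.differentiableWithinAt
      apply DifferentiableAt.sub (by fun_prop)
      apply DifferentiableAt.log (by fun_prop) (by positivity)
    · intro y hy
      rw [interior_Ici] at hy
      have hy0 := mem_Ioi.1 hy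
      have hy1 : (1 + y) ≠ 0 := by positivity
      have h1 : HasDerivAt (fun z : ℝ => z - z ^ 2 / 2 + z ^ 3 / 3 - log (1 + z))
          (1 - y + y ^ 2 - 1 / (1 + y)) y := by
        refine ((((hasDerivAt_id' y).fun_sub ((hasDerivAt_pow 2 y).div_const 2)).fun_add
          ((hasDerivAt_pow 3 y).div_const 3)).fun_sub
          (((hasDerivAt_id' y).const_add 1).log hy1)).congr_deriv ?_
        push_cast
        ring
      rw [h1.deriv]
      have h2 : 1 / (1 + y) ≤ 1 - y + y ^ 2 := by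
        rw [div_le_iff₀ (by positivity)]
        nlinarith [pow_pos hy0 3]
      linarith
  have := h (mem_Ici.2 le_rfl) (mem_Ici.2 hz) hz
  simp at this
  linarith

/-- `(1+z) log (1+z) ≤ z + z²/2 - z³/6 + z⁴/12` -/
theorem r1_nlogn {z : ℝ} (hz : 0 ≤ z) :
    (1 + z) * log (1 + z) ≤ z + z ^ 2 / 2 - z ^ 3 / 6 + z ^ 4 / 12 := by
  have h : MonotoneOn (fun z : ℝ => z + z ^ 2 / 2 - z ^ 3 / 6 + z ^ 4 / 12 - (1 + z) * log (1 + z)) (Ici 0) := by
    have hd : ∀ y : ℝ, 0 ≤ y → HasDerivAt (fun z : ℝ => z + z ^ 2 / 2 - z ^ 3 / 6 + z ^ 4 / 12 -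
        (1 + z) * log (1 + z)) (1 + y - y ^ 2 / 2 + y ^ 3 / 3 - (log (1 + y) + 1)) y := by
      intro y hy
      have hy1 : (1 + y) ≠ 0 := by positivity
      refine (((((hasDerivAt_id' y).fun_add ((hasDerivAt_pow 2 y).div_const 2)).fun_sub
          ((hasDerivAt_pow 3 y).div_const 6)).fun_add ((hasDerivAt_pow 4 y).div_const 12)).fun_sub
          (((hasDerivAt_id' y).const_add 1).fun_mul (((hasDerivAt_id' y).const_add 1).log hy1))).congr_deriv ?_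
      push_cast
      field_simp
      ring
    apply monotoneOn_of_deriv_nonneg (convex_Ici 0)
    · intro y hy
      exact (hd y (mem_Ici.1 hy)).continuousAt.continuousWithinAt
    · intro y hy
      rw [interior_Ici] at hy
      exact (hd y (mem_Ioi.1 hy).le).differentiableAt.differentiableWithinAt
    · intro y hy
      rw [interior_Ici] at hy
      have hy0 := (mem_Ioi.1 hy).le
      rw [(hd y hy0).deriv]
      linarith [r1_log_le3 hy0]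
  have := h (mem_Ici.2 le_rfl) (mem_Ici.2 hz) hz
  simp at this
  linarith

theorem r1_sin_le5 {x : ℝ} (hx : 0 ≤ x) : sin x ≤ x - x ^ 3 / 6 + x ^ 5 / 120 := by
  have h : MonotoneOn (fun x : ℝ => x - x ^ 3 / 6 + x ^ 5 / 120 - sin x) (Ici 0) := by
    apply monotoneOn_of_deriv_nonneg (convex_Ici 0)
    · fun_prop
    · fun_prop
    · intro y _
      have h1 : HasDerivAt (fun x : ℝ => x - x ^ 3 / 6 + x ^ 5 / 120 - sin x)
          (1 - y ^ 2 / 2 + y ^ 4 / 24 - cos y) y := by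
        refine ((((hasDerivAt_id' y).fun_sub ((hasDerivAt_pow 3 y).div_const 6)).fun_add
          ((hasDerivAt_pow 5 y).div_const 120)).fun_sub (hasDerivAt_sin y)).congr_deriv ?_
        push_cast
        ring
      rw [h1.deriv]
      linarith [r1_cos_le y]
  have := h (mem_Ici.2 le_rfl) (mem_Ici.2 hx) hx
  simp at this
  linarith

theorem r1_cos_ge6 {x : ℝ} (hx : 0 ≤ x) : 1 - x ^ 2 / 2 + x ^ 4 / 24 - x ^ 6 / 720 ≤ cos x := by
  have h : MonotoneOn (fun x : ℝ => cos x - (1 - x ^ 2 / 2 + x ^ 4 / 24 - x ^ 6 / 720)) (Ici 0) := by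
    apply monotoneOn_of_deriv_nonneg (convex_Ici 0)
    · fun_prop
    · fun_prop
    · intro y hy
      have hy0 : 0 ≤ y := by
        rw [interior_Ici] at hy
        exact (mem_Ioi.1 hy).le
      have h1 : HasDerivAt (fun x : ℝ => cos x - (1 - x ^ 2 / 2 + x ^ 4 / 24 - x ^ 6 / 720))
          (y - y ^ 3 / 6 + y ^ 5 / 120 - sin y) y := by
        refine ((hasDerivAt_cos y).fun_sub (((((hasDerivAt_pow 2 y).div_const 2).const_sub 1).fun_add
          ((hasDerivAt_pow 4 y).div_const 24)).fun_sub ((hasDerivAt_pow 6 y).div_const 720))).congr_deriv ?_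
        push_cast
        ring
      rw [h1.deriv]
      linarith [r1_sin_le5 hy0]
  have := h (mem_Ici.2 le_rfl) (mem_Ici.2 hx) hx
  simp at this
  linarith

/-- `log cos u ≥ -(u²/2 + u⁴/12 + u⁶/24)` for `|u| ≤ 1` -/
theorem r1_log_cos {u : ℝ} (hu : |u| ≤ 1) : -(u ^ 2 / 2 + u ^ 4 / 12 + u ^ 6 / 24) ≤ log (cos u) := by
  have key : ∀ u : ℝ, 0 ≤ u → u ≤ 1 → -(u ^ 2 / 2 + u ^ 4 / 12 + u ^ 6 / 24) ≤ log (cos u) := by
    intro u hu0 hu1
    have hcos : ∀ y : ℝ, 0 ≤ y → y ≤ 1 → 0 < cos y := fun y h0 h1 =>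
      cos_pos_of_mem_Ioo ⟨by linarith [pi_gt_three], by linarith [pi_gt_three]⟩
    have hd : ∀ y : ℝ, 0 ≤ y → y ≤ 1 → HasDerivAt (fun u : ℝ => log (cos u) + (u ^ 2 / 2 + u ^ 4 / 12 + u ^ 6 / 24))
        (-sin y / cos y + (y + y ^ 3 / 3 + y ^ 5 / 4)) y := by
      intro y h0 h1
      refine (((hasDerivAt_cos y).log (hcos y h0 h1).ne').fun_add ((((hasDerivAt_pow 2 y).div_const 2).fun_add
        ((hasDerivAt_pow 4 y).div_const 12)).fun_add ((hasDerivAt_pow 6 y).div_const 24))).congr_deriv ?_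
      push_cast
      ring
    have h : MonotoneOn (fun u : ℝ => log (cos u) + (u ^ 2 / 2 + u ^ 4 / 12 + u ^ 6 / 24)) (Icc 0 1) := by
      apply monotoneOn_of_deriv_nonneg (convex_Icc 0 1)
      · intro y hy
        exact (hd y hy.1 hy.2).continuousAt.continuousWithinAt
      · intro y hy
        rw [interior_Icc] at hy
        exact (hd y hy.1.le hy.2.le).differentiableAt.differentiableWithinAt
      · intro y hy
        rw [interior_Icc] at hy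
        rw [(hd y hy.1.le hy.2.le).deriv]
        have h1 := hcos y hy.1.le hy.2.le
        have h2 : sin y ≤ cos y * (y + y ^ 3 / 3 + y ^ 5 / 4) := by
          have h3 := r1_sin_le5 hy.1.le
          have h4 := r1_cos_ge6 hy.1.le
          have hy0 := hy.1.le
          have hy1 := hy.2.le
          have h5 : 0 ≤ y + y ^ 3 / 3 + y ^ 5 / 4 := by positivity
          have h6 := mul_le_mul_of_nonneg_right h4 h5
          refine h3.trans (le_trans ?_ h6)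
          have e : (1 - y ^ 2 / 2 + y ^ 4 / 24 - y ^ 6 / 720) * (y + y ^ 3 / 3 + y ^ 5 / 4) -
              (y - y ^ 3 / 6 + y ^ 5 / 120) =
              y ^ 5 * (7 / 60 - 9 / 80 * y ^ 2 + 43 / 4320 * y ^ 4 - y ^ 6 / 2880) := by ring
          have hz : y ^ 2 ≤ 1 := pow_le_one₀ hy0 hy1
          have hz0 : 0 ≤ y ^ 2 := sq_nonneg y
          have h7 : 0 ≤ 7 / 60 - 9 / 80 * y ^ 2 + 43 / 4320 * y ^ 4 - y ^ 6 / 2880 := by
            have e1 : y ^ 4 = y ^ 2 * y ^ 2 := by ring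
            have e2 : y ^ 6 = y ^ 2 * (y ^ 2 * y ^ 2) := by ring
            have h8 : y ^ 2 * (y ^ 2 * y ^ 2) ≤ y ^ 2 * y ^ 2 := by
              nlinarith [mul_nonneg (mul_nonneg hz0 hz0) (sub_nonneg.2 hz)]
            rw [e1, e2]
            nlinarith [mul_nonneg hz0 hz0]
          have h8 := mul_nonneg (pow_nonneg hy0 5) h7
          linarith
        have h3 : sin y / cos y ≤ y + y ^ 3 / 3 + y ^ 5 / 4 := by
          rw [div_le_iff₀ h1]; linarith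
        have h4 : -sin y / cos y = -(sin y / cos y) := by ring
        rw [h4]
        linarith
    have := h (left_mem_Icc.2 (by norm_num)) (mem_Icc.2 ⟨hu0, hu1⟩) hu0
    simp at this
    linarith
  obtain ⟨h1, h2⟩ := abs_le.1 hu
  rcases le_total 0 u with h | h
  · exact key u h h2
  · have := key (-u) (by linarith) (by linarith)
    rw [cos_neg] at this
    have e1 : (-u) ^ 2 = u ^ 2 := by ring
    have e2 : (-u) ^ 4 = u ^ 4 := by ring
    have e3 : (-u) ^ 6 = u ^ 6 := by ring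
    rw [e1, e2, e3] at this
    exact this

/-! ### lower bounds of `sE` -/

/-- left hand side; `s = -(t+κ)/(1+κ²)` -/
theorem VLlow {κ t s : ℝ} (h : DomR κ t) (hs : s = -(t + κ) / (1 + κ ^ 2)) (hs0 : 0 ≤ s) (hs1 : s ≤ 1) :
    1 - (1 + κ ^ 2) * s ^ 2 / 2 - κ * (1 / 2 - κ ^ 2 / 6) * s ^ 3 - κ ^ 4 * s ^ 4 / 12 -
      (1 + κ * s) * (s ^ 4 / 12 + s ^ 6 / 24) ≤ sE κ t := by
  have hk := h.1
  have hA : 0 < 1 + κ ^ 2 := by positivity
  have hz : 0 ≤ κ * s := mul_nonneg hk.le hs0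
  have ht : t = -κ - (1 + κ ^ 2) * s := by rw [hs]; field_simp; ring
  have hu : |(-s)| < π / 2 := by
    rw [abs_neg, abs_of_nonneg hs0]
    linarith [pi_gt_three]
  have h1 := fen_low h (t' := t) (n := 1 + κ * s) (u := -s) (by positivity) hu (by rw [ht]; ring)
  rw [sub_self, mul_zero, add_zero] at h1
  refine le_trans ?_ h1
  have h2 := r1_nlogn hz
  have h3 := r1_log_cos (u := -s) (by rw [abs_neg, abs_of_nonneg hs0]; exact hs1)
  have h4 := mul_le_mul_of_nonneg_left h3 (by positivity : 0 ≤ 1 + κ * s)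
  have e1 : (1 + κ * s) * (1 - log (1 + κ * s) + log (cos (-s))) =
      (1 + κ * s) - (1 + κ * s) * log (1 + κ * s) + (1 + κ * s) * log (cos (-s)) := by ring
  rw [e1]
  have e2 : (1 + κ * s) * -((-s) ^ 2 / 2 + (-s) ^ 4 / 12 + (-s) ^ 6 / 24) =
      -(s ^ 2 / 2) - κ * s ^ 3 / 2 - (1 + κ * s) * (s ^ 4 / 12 + s ^ 6 / 24) := by ring
  rw [e2] at h4
  have e3 : (κ * s) ^ 2 / 2 = κ ^ 2 * s ^ 2 / 2 := by ring
  have e4 : (κ * s) ^ 3 / 6 = κ ^ 3 * s ^ 3 / 6 := by ring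
  have e5 : (κ * s) ^ 4 / 12 = κ ^ 4 * s ^ 4 / 12 := by ring
  rw [e3, e4, e5] at h2
  linarith

/-- right hand side, third order; `s = (t+κ)/(1+κ²)`, `c = κ (1/2 - κ²/6)` -/
theorem VRlow {κ t s c : ℝ} (h : DomR κ t) (hs : s = (t + κ) / (1 + κ ^ 2)) (hs0 : 0 ≤ s) (hk3 : κ ^ 2 ≤ 3)
    (hc : c = κ * (1 / 2 - κ ^ 2 / 6)) :
    1 - (1 + κ ^ 2) * s ^ 2 / 2 + c * s ^ 3 - 9 / 2 * c ^ 2 * s ^ 4 / (1 + κ ^ 2) ≤ sE κ t := by
  have hk := h.1
  have hA : 0 < 1 + κ ^ 2 := by positivity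
  have ht : t + κ = (1 + κ ^ 2) * s := by rw [hs]; field_simp
  have h1 := low_cub h t
  rw [sub_self, mul_zero, add_zero, ht, ← hc] at h1
  have hc0 : 0 ≤ c := by rw [hc]; exact mul_nonneg hk.le (by linarith)
  have hp := sp_nonneg h (by rw [ht]; positivity)
  obtain ⟨p, hpp⟩ : ∃ p, p = sp κ t := ⟨_, rfl⟩
  obtain ⟨A, hAA⟩ : ∃ A, A = 1 + κ ^ 2 := ⟨_, rfl⟩
  rw [← hpp] at h1 hp
  rw [← hAA] at h1 hA ⊢
  refine le_trans ?_ h1
  obtain ⟨d, hd⟩ : ∃ d, d = s - p := ⟨_, rfl⟩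
  have hps : p = s - d := by rw [hd]; ring
  have hds : d ≤ s := by linarith
  -- (s-d)^3 ≥ s^3 - 3 s^2 d
  have h2 : s ^ 3 - 3 * s ^ 2 * d ≤ p ^ 3 := by
    rw [hps]
    have : (s - d) ^ 3 - (s ^ 3 - 3 * s ^ 2 * d) = d ^ 2 * (3 * s - d) := by ring
    nlinarith [mul_nonneg (sq_nonneg d) (by linarith : 0 ≤ 3 * s - d)]
  have h3 := mul_le_mul_of_nonneg_left h2 hc0
  have h4 : 0 ≤ A * d ^ 2 / 2 - 3 * c * s ^ 2 * d + 9 / 2 * c ^ 2 * s ^ 4 / A := by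
    have e : A * d ^ 2 / 2 - 3 * c * s ^ 2 * d + 9 / 2 * c ^ 2 * s ^ 4 / A =
        (A * d - 3 * c * s ^ 2) ^ 2 / (2 * A) := by
      field_simp
      ring
    rw [e]
    positivity
  have e1 : A * p ^ 2 / 2 - p * (A * s) = A * d ^ 2 / 2 - A * s ^ 2 / 2 := by rw [hps]; ring
  nlinarith

/-! ### barrier -/

theorem Tk_mul {κ p : ℝ} (hk : 0 < κ) (hq : |p| * exp (κ * p) < 1) :
    Tk κ (κ * p) = arcsin (p * exp (κ * p)) - κ * exp (-(κ * p)) * sqrt (1 - (p * exp (κ * p)) ^ 2) := by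
  obtain ⟨q, hqd⟩ : ∃ q, q = p * exp (κ * p) := ⟨_, rfl⟩
  have he := exp_pos (κ * p)
  have hq1 : |q| < 1 := by rw [hqd, abs_mul, abs_of_pos he]; exact hq
  have hq2 := abs_lt.1 hq1
  have hq3 : 0 < 1 - q ^ 2 := by nlinarith
  have hX : Xk κ (κ * p) = κ * exp (-(κ * p)) * sqrt (1 - q ^ 2) := by
    unfold Xk gk
    have e : κ ^ 2 * exp (-2 * (κ * p)) - (κ * p) ^ 2 = (κ * exp (-(κ * p))) ^ 2 * (1 - q ^ 2) := by
      have e1 : exp (-2 * (κ * p)) = exp (-(κ * p)) ^ 2 := by rw [← exp_nat_mul]; congr 1; push_cast; ring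
      have e2 : exp (-(κ * p)) * exp (κ * p) = 1 := by rw [← exp_add, neg_add_cancel, exp_zero]
      rw [e1, hqd]
      have e3 : (κ * exp (-(κ * p))) ^ 2 * (1 - (p * exp (κ * p)) ^ 2) =
          κ ^ 2 * exp (-(κ * p)) ^ 2 - (κ * p) ^ 2 * (exp (-(κ * p)) * exp (κ * p)) ^ 2 := by ring
      rw [e3, e2]; ring
    rw [e, sqrt_mul (by positivity), sqrt_sq (by positivity)]
  unfold Tk
  rw [hX, ← hqd]
  congr 1
  rw [arcsin_eq_arctan ⟨hq2.1, hq2.2⟩]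
  congr 1
  have hs : 0 < sqrt (1 - q ^ 2) := sqrt_pos.2 hq3
  rw [hqd] at hs ⊢
  have e4 : exp (-(κ * p)) = 1 / exp (κ * p) := by rw [exp_neg, one_div]
  rw [e4]
  field_simp

theorem Iy_mul {κ p : ℝ} (hk : 0 < κ) (hq : |p| * exp (κ * p) < 1) (hb : exp (-1) < κ ∨ -1 < κ * p) :
    Iy κ (κ * p) := by
  refine ⟨?_, hb⟩
  rw [abs_mul, abs_of_pos hk, mul_assoc]
  calc κ * (|p| * exp (κ * p)) < κ * 1 := mul_lt_mul_of_pos_left hq hk
    _ = κ := mul_one κ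

theorem sp_ge_of {κ t p : ℝ} (h : DomR κ t) (hq : |p| * exp (κ * p) < 1) (hb : exp (-1) < κ ∨ -1 < κ * p)
    (hle : arcsin (p * exp (κ * p)) - κ * exp (-(κ * p)) * sqrt (1 - (p * exp (κ * p)) ^ 2) ≤ t) :
    p ≤ sp κ t := by
  have hk := h.1
  rw [← Tk_mul hk hq] at hle
  have hI := Iy_mul hk hq hb
  obtain ⟨hI2, e⟩ := sy_spec h
  by_contra hcon
  push Not at hcon
  have h1 : sy κ t < κ * p := by
    rw [sy_eq_sp h]
    exact mul_lt_mul_of_pos_left hcon hk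
  have := Tk_strictMono hI2 hI h1
  rw [e] at this
  linarith

theorem sp_le_of {κ t p : ℝ} (h : DomR κ t) (hq : |p| * exp (κ * p) < 1) (hb : exp (-1) < κ ∨ -1 < κ * p)
    (hle : t ≤ arcsin (p * exp (κ * p)) - κ * exp (-(κ * p)) * sqrt (1 - (p * exp (κ * p)) ^ 2)) :
    sp κ t ≤ p := by
  have hk := h.1
  rw [← Tk_mul hk hq] at hle
  have hI := Iy_mul hk hq hb
  obtain ⟨hI2, e⟩ := sy_spec h
  by_contra hcon
  push Not at hcon
  have h1 : κ * p < sy κ t := by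
    rw [sy_eq_sp h]
    exact mul_lt_mul_of_pos_left hcon hk
  have := Tk_strictMono hI hI2 h1
  rw [e] at this
  linarith

/-- `x² + (1+y)²` as a function of `y` only -/
theorem sD_eq' {κ t : ℝ} (h : DomR κ t) :
    sx κ t ^ 2 + (1 + sy κ t) ^ 2 = κ ^ 2 * exp (-2 * sy κ t) + 1 + 2 * sy κ t := by
  have := s_sq h
  nlinarith

/-! ### bounds of `sqrt (1 - q²)` and `arcsin q` -/

theorem r1_sqrt_ge {q : ℝ} (hq : |q| ≤ 4 / 5) : 1 - q ^ 2 / 2 - q ^ 4 / 5 ≤ sqrt (1 - q ^ 2) := by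
  apply le_sqrt_of_sq_le
  have hq2 : q ^ 2 ≤ 16 / 25 := by rw [← sq_abs]; nlinarith [abs_nonneg q]
  have h0 : 0 ≤ q ^ 2 := sq_nonneg q
  have e : 1 - q ^ 2 - (1 - q ^ 2 / 2 - q ^ 4 / 5) ^ 2 =
      (q ^ 2) ^ 2 * (3 / 20 - q ^ 2 / 5 - (q ^ 2) ^ 2 / 25) := by ring
  have h1 : 0 ≤ 3 / 20 - q ^ 2 / 5 - (q ^ 2) ^ 2 / 25 := by nlinarith
  nlinarith [mul_nonneg (sq_nonneg (q ^ 2)) h1]

theorem r1_sqrt_le {q : ℝ} (hq : |q| ≤ 1) : sqrt (1 - q ^ 2) ≤ 1 - q ^ 2 / 2 - q ^ 4 / 8 := by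
  have hq2 : q ^ 2 ≤ 1 := by rw [← sq_abs]; nlinarith [abs_nonneg q]
  have h0 : 0 ≤ q ^ 2 := sq_nonneg q
  have e4 : q ^ 4 = q ^ 2 * q ^ 2 := by ring
  rw [sqrt_le_left (by rw [e4]; nlinarith)]
  have e : (1 - q ^ 2 / 2 - q ^ 4 / 8) ^ 2 - (1 - q ^ 2) = (q ^ 2) ^ 3 / 8 + (q ^ 2) ^ 4 / 64 := by ring
  nlinarith [pow_nonneg h0 3, pow_nonneg h0 4]

theorem r1_arcsin_ge {q : ℝ} (h0 : 0 ≤ q) (h1 : q ≤ 1) : q + q ^ 3 / 6 ≤ arcsin q := by
  -- sin (q + q³/6) ≤ q is false in general form of polynomials, use the derivative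
  have hd : ∀ y : ℝ, 0 ≤ y → y < 1 → HasDerivAt (fun q : ℝ => arcsin q - (q + q ^ 3 / 6))
      (1 / sqrt (1 - y ^ 2) - (1 + y ^ 2 / 2)) y := by
    intro y hy0 hy1
    refine ((hasDerivAt_arcsin (by linarith) (by linarith)).fun_sub ((hasDerivAt_id' y).fun_add
      ((hasDerivAt_pow 3 y).div_const 6))).congr_deriv ?_
    push_cast
    ring
  have h : MonotoneOn (fun q : ℝ => arcsin q - (q + q ^ 3 / 6)) (Icc 0 1) := by
    apply monotoneOn_of_deriv_nonneg (convex_Icc 0 1)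
    · exact (continuous_arcsin.sub (by fun_prop)).continuousOn
    · intro y hy
      rw [interior_Icc] at hy
      exact (hd y hy.1.le hy.2).differentiableAt.differentiableWithinAt
    · intro y hy
      rw [interior_Icc] at hy
      rw [(hd y hy.1.le hy.2).deriv]
      have hy2 : y ^ 2 < 1 := by nlinarith [hy.1, hy.2]
      have hs : 0 < sqrt (1 - y ^ 2) := sqrt_pos.2 (by linarith)
      have h3 := r1_sqrt_le (q := y) (by rw [abs_of_pos hy.1]; exact hy.2.le)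
      have h4 : 1 + y ^ 2 / 2 ≤ 1 / sqrt (1 - y ^ 2) := by
        rw [le_div_iff₀ hs]
        have h5 := mul_le_mul_of_nonneg_left h3 (by positivity : 0 ≤ 1 + y ^ 2 / 2)
        have e4 : y ^ 4 = y ^ 2 * y ^ 2 := by ring
        rw [e4] at h5
        nlinarith [sq_nonneg (y ^ 2), mul_nonneg (sq_nonneg y) (mul_self_nonneg (y ^ 2))]
      linarith
  have := h (left_mem_Icc.2 (by norm_num)) (mem_Icc.2 ⟨h0, h1⟩) h0
  simp at this
  linarith

theorem r1_arcsin_le {q : ℝ} (h0 : 0 ≤ q) (h1 : q ≤ 4 / 5) : arcsin q ≤ q + q ^ 3 / 6 + 0.17 * q ^ 5 := by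
  have hd : ∀ y : ℝ, 0 ≤ y → y ≤ 4 / 5 → HasDerivAt (fun q : ℝ => q + q ^ 3 / 6 + 0.17 * q ^ 5 - arcsin q)
      (1 + y ^ 2 / 2 + 0.85 * y ^ 4 - 1 / sqrt (1 - y ^ 2)) y := by
    intro y hy0 hy1
    refine ((((hasDerivAt_id' y).fun_add ((hasDerivAt_pow 3 y).div_const 6)).fun_add
      ((hasDerivAt_pow 5 y).const_mul 0.17)).fun_sub
      (hasDerivAt_arcsin (by linarith) (by linarith))).congr_deriv ?_
    push_cast
    ring
  have h : MonotoneOn (fun q : ℝ => q + q ^ 3 / 6 + 0.17 * q ^ 5 - arcsin q) (Icc 0 (4 / 5)) := by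
    apply monotoneOn_of_deriv_nonneg (convex_Icc 0 _)
    · intro y hy
      exact (hd y hy.1 hy.2).continuousAt.continuousWithinAt
    · intro y hy
      rw [interior_Icc] at hy
      exact (hd y hy.1.le hy.2.le).differentiableAt.differentiableWithinAt
    · intro y hy
      rw [interior_Icc] at hy
      rw [(hd y hy.1.le hy.2.le).deriv]
      have hy2 : y ^ 2 ≤ 16 / 25 := by nlinarith [hy.1, hy.2]
      have hs : 0 < sqrt (1 - y ^ 2) := sqrt_pos.2 (by linarith)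
      have h4 : 1 / sqrt (1 - y ^ 2) ≤ 1 + y ^ 2 / 2 + 0.85 * y ^ 4 := by
        rw [div_le_iff₀ hs]
        -- 1 ≤ (…) * sqrt, square
        have h5 : 1 ≤ ((1 + y ^ 2 / 2 + 0.85 * y ^ 4) * sqrt (1 - y ^ 2)) ^ 2 := by
          rw [mul_pow, sq_sqrt (by linarith)]
          obtain ⟨u, hu⟩ : ∃ u, u = y ^ 2 := ⟨_, rfl⟩
          have e4 : y ^ 4 = u ^ 2 := by rw [hu]; ring
          rw [e4, ← hu]
          have hu0 : 0 ≤ u := by rw [hu]; positivity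
          have hu1 : u ≤ 16 / 25 := by rw [hu]; exact hy2
          have e : (1 + u / 2 + 0.85 * u ^ 2) ^ 2 * (1 - u) - 1 =
              u ^ 2 * (0.95 - 1.1 * u - 0.1275 * u ^ 2 - 0.7225 * u ^ 3) := by ring
          have h6 : 0 ≤ 0.95 - 1.1 * u - 0.1275 * u ^ 2 - 0.7225 * u ^ 3 := by
            have h7 : u ^ 2 ≤ (16 / 25) ^ 2 := pow_le_pow_left₀ hu0 hu1 2
            have h8 : u ^ 3 ≤ (16 / 25) ^ 3 := pow_le_pow_left₀ hu0 hu1 3
            norm_num at h7 h8 ⊢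
            linarith
          nlinarith [mul_nonneg (sq_nonneg u) h6]
        have h6 : 0 ≤ (1 + y ^ 2 / 2 + 0.85 * y ^ 4) * sqrt (1 - y ^ 2) := by positivity
        by_contra hcon
        push Not at hcon
        nlinarith
      linarith
  have := h (left_mem_Icc.2 (by norm_num)) (mem_Icc.2 ⟨h0, h1⟩) h0
  simp at this
  linarith

/-! ### bounds for `p = y/κ`, `s = τ/(1+κ²)` -/

/-- right hand side: `p ≤ τ/(1+κ²)` -/
theorem spR_le {κ t : ℝ} (h : DomR κ t) (ht : 0 ≤ t + κ) (hk3 : κ ^ 2 ≤ 3) :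
    sp κ t ≤ (t + κ) / (1 + κ ^ 2) := by
  have hk := h.1
  have hA : 0 < 1 + κ ^ 2 := by positivity
  obtain ⟨s, hs⟩ : ∃ s, s = (t + κ) / (1 + κ ^ 2) := ⟨_, rfl⟩
  rw [← hs]
  have hs0 : 0 ≤ s := by rw [hs]; positivity
  have hts : t = (1 + κ ^ 2) * s - κ := by rw [hs]; field_simp; ring
  have hz : 0 ≤ κ * s := mul_nonneg hk.le hs0
  have he := exp_pos (κ * s)
  rcases lt_or_ge (|s| * exp (κ * s)) 1 with h1 | h1
  · apply sp_le_of h h1 (Or.inr (by linarith))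
    obtain ⟨q, hq⟩ : ∃ q, q = s * exp (κ * s) := ⟨_, rfl⟩
    rw [abs_of_nonneg hs0] at h1
    rw [← hq] at h1 ⊢
    have hq0 : 0 ≤ q := by rw [hq]; positivity
    have h2 := r1_arcsin_ge hq0 h1.le
    have h3 := r1_sqrt_le (q := q) (by rw [abs_of_nonneg hq0]; exact h1.le)
    have h4 := r1_exp_le2 (z := -(κ * s)) (by linarith)
    have h5 := add_one_le_exp (κ * s)
    have he' := exp_pos (-(κ * s))
    have e1 : exp (-(κ * s)) * exp (κ * s) = 1 := by rw [← exp_add, neg_add_cancel, exp_zero]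
    have h6 : exp (-(κ * s)) * sqrt (1 - q ^ 2) ≤ exp (-(κ * s)) * (1 - q ^ 2 / 2) := by
      apply mul_le_mul_of_nonneg_left _ he'.le
      have : 0 ≤ q ^ 4 := by positivity
      linarith
    have e2 : exp (-(κ * s)) * (1 - q ^ 2 / 2) = exp (-(κ * s)) - s * q / 2 := by
      rw [hq]
      linear_combination (-(s ^ 2 * exp (κ * s) / 2)) * e1
    rw [e2] at h6
    have h7 := mul_le_mul_of_nonneg_left h6 hk.le
    have h8 := mul_le_mul_of_nonneg_left h4 hk.le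
    have h9 : s * (1 + κ * s) ≤ q := by
      rw [hq]; exact mul_le_mul_of_nonneg_left (by linarith) hs0
    have h10 := mul_le_mul_of_nonneg_left h9 (by positivity : 0 ≤ 1 + κ * s / 2)
    have h11 : 0 ≤ q ^ 3 := pow_nonneg hq0 3
    rw [hts]
    have h12 : 0 ≤ s * (κ * s) * ((3 - κ ^ 2) / 2 + κ * s / 2) := by
      apply mul_nonneg (mul_nonneg hs0 hz)
      have : 0 ≤ 3 - κ ^ 2 := by linarith
      linarith
    have e3 : κ * exp (-(κ * s)) * sqrt (1 - q ^ 2) = κ * (exp (-(κ * s)) * sqrt (1 - q ^ 2)) := by ring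
    rw [e3]
    nlinarith
  · -- q ≥ 1
    by_contra hcon
    push Not at hcon
    rw [abs_of_nonneg hs0] at h1
    have h2 := sin_sa h
    have h3 : s * exp (κ * s) ≤ sp κ t * exp (sy κ t) := by
      rw [sy_eq_sp h]
      apply mul_le_mul hcon.le _ he.le (hs0.trans hcon.le)
      exact exp_le_exp.2 (mul_le_mul_of_nonneg_left hcon.le hk.le)
    have h4 : sin (sa κ t) < 1 := by
      have h5 := cos_sa_pos h
      have h6 := sin_sq_add_cos_sq (sa κ t)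
      nlinarith
    rw [h2] at h4
    linarith

/-- right hand side: `c τ/(1+κ²) ≤ p`, box form -/
theorem spR_ge_box {κ t : ℝ} (h : DomR κ t) (c k1 ψ χ μ τm w E Q : ℝ) (ht : 0 ≤ t + κ) (htm : t + κ ≤ τm)
    (hk1 : k1 ≤ κ) (hψ : κ / (1 + κ ^ 2) ≤ ψ) (hχ : κ * (3 - κ ^ 2) ≤ χ * (1 + κ ^ 2) ^ 2)
    (hμ : κ ^ 2 * (1 + κ ^ 2 / 6) ≤ μ * (1 + κ ^ 2) ^ 3) (hk0 : 0 ≤ k1) (hχ0 : 0 ≤ χ) (hc : 0 < c)
    (hw : w = ψ * (c * τm)) (hw1 : w ≤ 13 / 20) (hE : E = 1 + w + w ^ 2 / 2 + w ^ 3 / 5)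
    (hQ : Q = c * τm / (1 + k1 ^ 2) * E) (hQ1 : Q ≤ 4 / 5)
    (hnum : c * (1 + c * τm * χ / 2 + (c * τm) ^ 2 * (μ * (1 + 0.45 * w + 0.1 * w ^ 2) +
      E ^ 3 / (1 + k1 ^ 2) ^ 3 * (w / 5 + 1 / 6 + 0.17 * Q ^ 2))) ≤ 1) :
    c * (t + κ) / (1 + κ ^ 2) ≤ sp κ t := by
  have hk := h.1
  have hA : 0 < 1 + κ ^ 2 := by positivity
  have hA1 : 0 < 1 + k1 ^ 2 := by positivity
  have hAA : 1 + k1 ^ 2 ≤ 1 + κ ^ 2 := by nlinarith
  obtain ⟨τ, hτ⟩ : ∃ τ, τ = t + κ := ⟨_, rfl⟩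
  rw [← hτ] at ht htm ⊢
  obtain ⟨p, hp⟩ : ∃ p, p = c * τ / (1 + κ ^ 2) := ⟨_, rfl⟩
  rw [← hp]
  have hp0 : 0 ≤ p := by rw [hp]; positivity
  have hcm : c * τ ≤ c * τm := mul_le_mul_of_nonneg_left htm hc.le
  have hpP : p ≤ c * τm / (1 + k1 ^ 2) := by
    rw [hp]
    exact div_le_div₀ (by nlinarith) hcm hA1 hAA
  have hz0 : 0 ≤ κ * p := mul_nonneg hk.le hp0
  have hzw : κ * p ≤ w := by
    have e : κ * p = κ / (1 + κ ^ 2) * (c * τ) := by rw [hp]; field_simp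
    rw [e, hw]
    apply mul_le_mul hψ hcm (by positivity)
    exact le_trans (by positivity) hψ
  have hE1 : exp (κ * p) ≤ 1 + κ * p + (κ * p) ^ 2 / 2 + (κ * p) ^ 3 / 5 := r1_exp_le3 hz0 (hzw.trans hw1)
  have hEE : exp (κ * p) ≤ E := by
    have h32 : (κ * p) ^ 2 ≤ w ^ 2 := pow_le_pow_left₀ hz0 hzw 2
    have h33 : (κ * p) ^ 3 ≤ w ^ 3 := pow_le_pow_left₀ hz0 hzw 3
    rw [hE]
    linarith only [hE1, h32, h33, hzw]
  have he := exp_pos (κ * p)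
  have hE0 : 0 < E := lt_of_lt_of_le he hEE
  obtain ⟨q, hq⟩ : ∃ q, q = p * exp (κ * p) := ⟨_, rfl⟩
  have hq0 : 0 ≤ q := by rw [hq]; positivity
  have hqQ : q ≤ Q := by
    rw [hq, hQ]
    exact mul_le_mul hpP hEE he.le (hp0.trans hpP)
  have hq45 : q ≤ 4 / 5 := hqQ.trans hQ1
  apply sp_ge_of h _ (Or.inr (by linarith))
  · rw [← hq]
    have h1 := r1_arcsin_le hq0 hq45
    have h2 := r1_sqrt_ge (q := q) (by rw [abs_of_nonneg hq0]; exact hq45)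
    have h3 := r1_exp_ge3 (-(κ * p))
    have he' := exp_pos (-(κ * p))
    have e1 : exp (-(κ * p)) * exp (κ * p) = 1 := by rw [← exp_add, neg_add_cancel, exp_zero]
    have h4 := mul_le_mul_of_nonneg_left h2 he'.le
    have e2 : exp (-(κ * p)) * (1 - q ^ 2 / 2 - q ^ 4 / 5) = exp (-(κ * p)) - p * q * (1 / 2 + q ^ 2 / 5) := by
      have e3 : exp (-(κ * p)) * q = p := by rw [hq]; linear_combination p * e1
      linear_combination (-(q / 2 + q ^ 3 / 5)) * e3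
    rw [e2] at h4
    -- reduce to κ²p(1-z/2+z²/6) + q(1+z/2+z q²/5+q²/6+.17q⁴) ≤ τ
    obtain ⟨z, hz⟩ : ∃ z, z = κ * p := ⟨_, rfl⟩
    rw [← hz] at h3 h4 hE1 hEE hzw hz0 e1 he he' hq ⊢
    have hmain : κ * (z - z ^ 2 / 2 + z ^ 3 / 6) + q * (1 + z / 2 + z * q ^ 2 / 5 + q ^ 2 / 6 + 0.17 * q ^ 4) ≤ τ := by
      have g1 : q * (1 + z / 2) ≤ p * (1 + 3 / 2 * z + z ^ 2 + 0.45 * z ^ 3 + 0.1 * z ^ 4) := by
        rw [hq]
        have g11 := mul_le_mul_of_nonneg_right hE1 (by positivity : 0 ≤ 1 + z / 2)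
        have g12 := mul_le_mul_of_nonneg_left g11 hp0
        have e : p * ((1 + z + z ^ 2 / 2 + z ^ 3 / 5) * (1 + z / 2)) =
            p * (1 + 3 / 2 * z + z ^ 2 + 0.45 * z ^ 3 + 0.1 * z ^ 4) := by ring
        rw [e] at g12
        linarith only [g12]
      have g2 : q * (z * q ^ 2 / 5 + q ^ 2 / 6 + 0.17 * q ^ 4) ≤
          p * (p ^ 2 * E ^ 3) * (w / 5 + 1 / 6 + 0.17 * Q ^ 2) := by
        have g21 : z * q ^ 2 / 5 + q ^ 2 / 6 + 0.17 * q ^ 4 = q ^ 2 * (z / 5 + 1 / 6 + 0.17 * q ^ 2) := by ring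
        have g22 : q * (q ^ 2) = p * (p ^ 2 * exp z ^ 3) := by rw [hq]; ring
        have g23 : exp z ^ 3 ≤ E ^ 3 := pow_le_pow_left₀ he.le hEE 3
        have g24 : z / 5 + 1 / 6 + 0.17 * q ^ 2 ≤ w / 5 + 1 / 6 + 0.17 * Q ^ 2 := by
          have hqQ2 : q ^ 2 ≤ Q ^ 2 := pow_le_pow_left₀ hq0 hqQ 2
          linarith only [hqQ2, hzw]
        rw [g21, ← mul_assoc, g22]
        apply mul_le_mul _ g24 (by positivity) (by positivity)
        exact mul_le_mul_of_nonneg_left (mul_le_mul_of_nonneg_left g23 (sq_nonneg p)) hp0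
      have g3 : κ * (z - z ^ 2 / 2 + z ^ 3 / 6) = p * (κ ^ 2 * (1 - z / 2 + z ^ 2 / 6)) := by rw [hz]; ring
      -- sum
      have g4 : κ * (z - z ^ 2 / 2 + z ^ 3 / 6) + q * (1 + z / 2 + z * q ^ 2 / 5 + q ^ 2 / 6 + 0.17 * q ^ 4) ≤
          p * ((1 + κ ^ 2) + z * (3 - κ ^ 2) / 2 + z ^ 2 * (1 + κ ^ 2 / 6) * (1 + 0.45 * w + 0.1 * w ^ 2) +
            p ^ 2 * E ^ 3 * (w / 5 + 1 / 6 + 0.17 * Q ^ 2)) := by
        rw [g3]
        have g41 : 0.45 * z ^ 3 + 0.1 * z ^ 4 ≤ z ^ 2 * (1 + κ ^ 2 / 6) * (0.45 * w + 0.1 * w ^ 2) := by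
          have g42 : z ^ 2 * (0.45 * z + 0.1 * z ^ 2) ≤ z ^ 2 * (0.45 * w + 0.1 * w ^ 2) := by
            apply mul_le_mul_of_nonneg_left _ (sq_nonneg z)
            have hzw2 : z ^ 2 ≤ w ^ 2 := pow_le_pow_left₀ hz0 hzw 2
            linarith only [hzw2, hzw]
          have g43 : 0 ≤ z ^ 2 * (κ ^ 2 / 6) * (0.45 * w + 0.1 * w ^ 2) := by
            have : 0 ≤ w := hz0.trans hzw
            positivity
          linarith only [g42, g43]
        have g44 := mul_le_mul_of_nonneg_left g41 hp0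
        have g45 : q * (1 + z / 2 + z * q ^ 2 / 5 + q ^ 2 / 6 + 0.17 * q ^ 4) =
            q * (1 + z / 2) + q * (z * q ^ 2 / 5 + q ^ 2 / 6 + 0.17 * q ^ 4) := by ring
        rw [g45]
        linarith only [g1, g2, g44]
      refine g4.trans ?_
      -- divide by A
      have k1' : z * (3 - κ ^ 2) / 2 ≤ (1 + κ ^ 2) * (c * τm * χ / 2) := by
        have : z * (3 - κ ^ 2) = c * τ * (κ * (3 - κ ^ 2)) / (1 + κ ^ 2) := by rw [hz, hp]; field_simp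
        rw [this]
        have k11 : c * τ * (κ * (3 - κ ^ 2)) ≤ c * τm * (χ * (1 + κ ^ 2) ^ 2) := by
          have k12 : c * τ * (κ * (3 - κ ^ 2)) ≤ c * τ * (χ * (1 + κ ^ 2) ^ 2) :=
            mul_le_mul_of_nonneg_left hχ (by positivity)
          have k13 : c * τ * (χ * (1 + κ ^ 2) ^ 2) ≤ c * τm * (χ * (1 + κ ^ 2) ^ 2) :=
            mul_le_mul_of_nonneg_right hcm (by positivity)
          exact k12.trans k13
        have k14 : c * τ * (κ * (3 - κ ^ 2)) / (1 + κ ^ 2) ≤ c * τm * χ * (1 + κ ^ 2) := by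
          rw [div_le_iff₀ hA]
          linarith only [k11]
        linarith only [k14]
      have k2' : z ^ 2 * (1 + κ ^ 2 / 6) ≤ (1 + κ ^ 2) * ((c * τm) ^ 2 * μ) := by
        have : z ^ 2 * (1 + κ ^ 2 / 6) = (c * τ) ^ 2 * (κ ^ 2 * (1 + κ ^ 2 / 6)) / (1 + κ ^ 2) ^ 2 := by
          rw [hz, hp]; field_simp
        rw [this, div_le_iff₀ (by positivity)]
        have k21 : (c * τ) ^ 2 ≤ (c * τm) ^ 2 := pow_le_pow_left₀ (by positivity) hcm 2
        have k22 : (c * τ) ^ 2 * (κ ^ 2 * (1 + κ ^ 2 / 6)) ≤ (c * τm) ^ 2 * (μ * (1 + κ ^ 2) ^ 3) :=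
          mul_le_mul k21 hμ (by positivity) (by positivity)
        linarith only [k22]
      have k3' : p ^ 2 ≤ (1 + κ ^ 2) * ((c * τm) ^ 2 / (1 + k1 ^ 2) ^ 3) := by
        have k31 : p ^ 2 = (c * τ) ^ 2 / (1 + κ ^ 2) ^ 2 := by rw [hp]; field_simp
        have k32 : (1 + k1 ^ 2) ^ 3 ≤ (1 + κ ^ 2) ^ 3 := pow_le_pow_left₀ hA1.le hAA 3
        have k33 : (c * τ) ^ 2 ≤ (c * τm) ^ 2 := pow_le_pow_left₀ (by positivity) hcm 2
        have k34 : (c * τ) ^ 2 / (1 + κ ^ 2) ^ 3 ≤ (c * τm) ^ 2 / (1 + k1 ^ 2) ^ 3 :=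
          div_le_div₀ (by positivity) k33 (by positivity) k32
        have e : (c * τ) ^ 2 / (1 + κ ^ 2) ^ 2 = (1 + κ ^ 2) * ((c * τ) ^ 2 / (1 + κ ^ 2) ^ 3) := by field_simp
        rw [k31, e]
        exact mul_le_mul_of_nonneg_left k34 hA.le
      have hw0 : 0 ≤ w := hz0.trans hzw
      have k4 : (1 + κ ^ 2) + z * (3 - κ ^ 2) / 2 + z ^ 2 * (1 + κ ^ 2 / 6) * (1 + 0.45 * w + 0.1 * w ^ 2) +
            p ^ 2 * E ^ 3 * (w / 5 + 1 / 6 + 0.17 * Q ^ 2) ≤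
          (1 + κ ^ 2) * (1 + c * τm * χ / 2 + (c * τm) ^ 2 * (μ * (1 + 0.45 * w + 0.1 * w ^ 2) +
            E ^ 3 / (1 + k1 ^ 2) ^ 3 * (w / 5 + 1 / 6 + 0.17 * Q ^ 2))) := by
        have k41 := mul_le_mul_of_nonneg_right k2' (by positivity : 0 ≤ 1 + 0.45 * w + 0.1 * w ^ 2)
        have k42 := mul_le_mul_of_nonneg_right k3' (by positivity : 0 ≤ E ^ 3 * (w / 5 + 1 / 6 + 0.17 * Q ^ 2))
        have e : (1 + κ ^ 2) * ((c * τm) ^ 2 / (1 + k1 ^ 2) ^ 3) * (E ^ 3 * (w / 5 + 1 / 6 + 0.17 * Q ^ 2)) =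
            (1 + κ ^ 2) * ((c * τm) ^ 2 * (E ^ 3 / (1 + k1 ^ 2) ^ 3 * (w / 5 + 1 / 6 + 0.17 * Q ^ 2))) := by
          ring
        rw [e] at k42
        linarith only [k1', k41, k42]
      have k5 := mul_le_mul_of_nonneg_left k4 hp0
      refine k5.trans ?_
      have e : p * ((1 + κ ^ 2) * (1 + c * τm * χ / 2 + (c * τm) ^ 2 * (μ * (1 + 0.45 * w + 0.1 * w ^ 2) +
            E ^ 3 / (1 + k1 ^ 2) ^ 3 * (w / 5 + 1 / 6 + 0.17 * Q ^ 2)))) =
          τ * (c * (1 + c * τm * χ / 2 + (c * τm) ^ 2 * (μ * (1 + 0.45 * w + 0.1 * w ^ 2) +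
            E ^ 3 / (1 + k1 ^ 2) ^ 3 * (w / 5 + 1 / 6 + 0.17 * Q ^ 2)))) := by
        rw [hp]; field_simp
      rw [e]
      calc τ * (c * (1 + c * τm * χ / 2 + (c * τm) ^ 2 * (μ * (1 + 0.45 * w + 0.1 * w ^ 2) +
            E ^ 3 / (1 + k1 ^ 2) ^ 3 * (w / 5 + 1 / 6 + 0.17 * Q ^ 2)))) ≤ τ * 1 :=
            mul_le_mul_of_nonneg_left hnum ht
        _ = τ := mul_one τ
    have h5 := mul_le_mul_of_nonneg_left h4 hk.le
    have h6 := mul_le_mul_of_nonneg_left h3 hk.le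
    have e4 : κ * exp (-z) * sqrt (1 - q ^ 2) = κ * (exp (-z) * sqrt (1 - q ^ 2)) := by ring
    rw [e4]
    have e5 : κ * (p * q * (1 / 2 + q ^ 2 / 5)) = q * (z / 2 + z * q ^ 2 / 5) := by rw [hz]; ring
    have e6 : q * (1 + z / 2 + z * q ^ 2 / 5 + q ^ 2 / 6 + 0.17 * q ^ 4) =
        (q + q ^ 3 / 6 + 0.17 * q ^ 5) + q * (z / 2 + z * q ^ 2 / 5) := by ring
    rw [e6] at hmain
    have e7 : (-z) ^ 2 = z ^ 2 := by ring
    have e8 : (-z) ^ 3 = -z ^ 3 := by ring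
    rw [e7, e8] at h6
    have ht2 : t = τ - κ := by rw [hτ]; ring
    rw [ht2]
    linarith only [h1, h5, h6, e5, hmain]
  · rw [abs_of_nonneg hp0, ← hq]
    linarith

/-- left hand side: `c |τ|/(1+κ²) ≤ |p|`, box form -/
theorem spL_ge_box {κ t : ℝ} (h : DomR κ t) (c k1 k2 ψ τm w P1 : ℝ) (ht : 0 ≤ -(t + κ)) (htm : -(t + κ) ≤ τm)
    (hk1 : k1 ≤ κ) (hk2 : κ ≤ k2) (hψ : κ / (1 + κ ^ 2) ≤ ψ) (hk0 : 0 ≤ k1) (hc : 0 < c)
    (hw : w = ψ * (c * τm)) (hw1 : w ≤ 13 / 20) (hP1 : P1 = c * τm / (1 + k1 ^ 2)) (hP45 : P1 ≤ 4 / 5)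
    (hz3 : w * (1 + k2 ^ 2 / 5) ≤ (3 - k2 ^ 2) / 2)
    (hnum : c * (1 + (c * τm) ^ 2 / (1 + k1 ^ 2) ^ 3 * (1 / 6 + 0.17 * P1 ^ 2)) ≤ 1) :
    sp κ t ≤ c * (t + κ) / (1 + κ ^ 2) := by
  have hk := h.1
  have hA : 0 < 1 + κ ^ 2 := by positivity
  have hA1 : 0 < 1 + k1 ^ 2 := by positivity
  have hAA : 1 + k1 ^ 2 ≤ 1 + κ ^ 2 := by nlinarith
  obtain ⟨T, hT⟩ : ∃ T, T = -(t + κ) := ⟨_, rfl⟩
  obtain ⟨P, hP⟩ : ∃ P, P = c * T / (1 + κ ^ 2) := ⟨_, rfl⟩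
  have hg : c * (t + κ) / (1 + κ ^ 2) = -P := by rw [hP, hT]; ring
  rw [hg]
  rw [← hT] at ht htm
  have hP0 : 0 ≤ P := by rw [hP]; positivity
  have hcm : c * T ≤ c * τm := mul_le_mul_of_nonneg_left htm hc.le
  have hPP : P ≤ P1 := by
    rw [hP, hP1]
    exact div_le_div₀ (by nlinarith) hcm hA1 hAA
  have hP1' : P ≤ 4 / 5 := hPP.trans hP45
  obtain ⟨z, hz⟩ : ∃ z, z = κ * P := ⟨_, rfl⟩
  have hz0 : 0 ≤ z := by rw [hz]; exact mul_nonneg hk.le hP0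
  have hzw : z ≤ w := by
    have e : z = κ / (1 + κ ^ 2) * (c * T) := by rw [hz, hP]; field_simp
    rw [e, hw]
    apply mul_le_mul hψ hcm (by positivity)
    exact le_trans (by positivity) hψ
  have he := exp_pos (-z)
  have he1 : exp (-z) ≤ 1 := exp_le_one_iff.2 (by linarith)
  have ez : κ * -P = -z := by rw [hz]; ring
  have hq1 : P * exp (-z) ≤ 4 / 5 := by nlinarith
  apply sp_le_of h _ (Or.inr (by rw [ez]; linarith))
  · rw [ez, neg_neg]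
    obtain ⟨q, hq⟩ : ∃ q, q = P * exp (-z) := ⟨_, rfl⟩
    have hq0 : 0 ≤ q := by rw [hq]; positivity
    rw [← hq] at hq1
    have e1 : -P * exp (-z) = -q := by rw [hq]; ring
    rw [e1, arcsin_neg, neg_sq]
    have h1 := r1_arcsin_le hq0 hq1
    have h2 := r1_sqrt_le (q := q) (by rw [abs_of_nonneg hq0]; linarith)
    have h3 := r1_exp_le3 hz0 (hzw.trans hw1)
    have he' := exp_pos z
    have e2 : exp z * exp (-z) = 1 := by rw [← exp_add, add_neg_cancel, exp_zero]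
    have h4 : exp z * sqrt (1 - q ^ 2) ≤ exp z - P * q / 2 := by
      have h41 := mul_le_mul_of_nonneg_left h2 he'.le
      have e3 : exp z * q = P := by rw [hq]; linear_combination P * e2
      have e4 : exp z * (1 - q ^ 2 / 2 - q ^ 4 / 8) = exp z - P * q / 2 - P * q ^ 3 / 8 := by
        linear_combination (-(q / 2 + q ^ 3 / 8)) * e3
      rw [e4] at h41
      have : 0 ≤ P * q ^ 3 / 8 := by positivity
      linarith only [h41, this]
    have h5 := mul_le_mul_of_nonneg_left h4 hk.le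
    have h6 := mul_le_mul_of_nonneg_left h3 hk.le
    have hqP : q ≤ P := by rw [hq]; nlinarith
    have h7 : q ≤ P * (1 - z + z ^ 2 / 2) := by
      rw [hq]
      apply mul_le_mul_of_nonneg_left _ hP0
      have := r1_exp_le2 (z := -z) (by linarith)
      rw [neg_sq] at this
      linarith only [this]
    have hmain : κ ^ 2 * P * (1 + z / 2 + z ^ 2 / 5) + q * (1 - z / 2) + q ^ 3 / 6 + 0.17 * q ^ 5 ≤ T := by
      have g1 : q * (1 - z / 2) ≤ P * (1 - 3 / 2 * z + z ^ 2) := by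
        have g11 := mul_le_mul_of_nonneg_right h7 (by linarith : 0 ≤ 1 - z / 2)
        have g12 : 0 ≤ P * z ^ 3 / 4 := by positivity
        have e : P * (1 - z + z ^ 2 / 2) * (1 - z / 2) = P * (1 - 3 / 2 * z + z ^ 2) - P * z ^ 3 / 4 := by ring
        rw [e] at g11
        linarith only [g11, g12]
      have g2 : q ^ 3 / 6 + 0.17 * q ^ 5 ≤ P * (P ^ 2 * (1 / 6 + 0.17 * P1 ^ 2)) := by
        have g21 : q ^ 3 ≤ P ^ 3 := pow_le_pow_left₀ hq0 hqP 3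
        have g22 : q ^ 5 ≤ P ^ 5 := pow_le_pow_left₀ hq0 hqP 5
        have g23 : P ^ 2 ≤ P1 ^ 2 := pow_le_pow_left₀ hP0 hPP 2
        have g24 := mul_le_mul_of_nonneg_left g23 (pow_nonneg hP0 3)
        have e5 : P ^ 5 = P ^ 3 * P ^ 2 := by ring
        rw [e5] at g22
        linarith only [g21, g22, g24]
      have g3 : z * (z * (1 + κ ^ 2 / 5)) ≤ z * ((3 - κ ^ 2) / 2) := by
        apply mul_le_mul_of_nonneg_left _ hz0
        have hkk : κ ^ 2 ≤ k2 ^ 2 := pow_le_pow_left₀ hk.le hk2 2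
        have g31 : z * (1 + κ ^ 2 / 5) ≤ w * (1 + k2 ^ 2 / 5) :=
          mul_le_mul hzw (by linarith only [hkk]) (by positivity) (hz0.trans hzw)
        linarith only [g31, hz3, hkk]
      have g4 : κ ^ 2 * P * (1 + z / 2 + z ^ 2 / 5) + q * (1 - z / 2) + q ^ 3 / 6 + 0.17 * q ^ 5 ≤
          P * ((1 + κ ^ 2) + P ^ 2 * (1 / 6 + 0.17 * P1 ^ 2)) := by
        have g41 := mul_le_mul_of_nonneg_left g3 hP0
        linarith only [g1, g2, g41]
      refine g4.trans ?_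
      have k3' : P ^ 2 ≤ (1 + κ ^ 2) * ((c * τm) ^ 2 / (1 + k1 ^ 2) ^ 3) := by
        have k31 : P ^ 2 = (c * T) ^ 2 / (1 + κ ^ 2) ^ 2 := by rw [hP]; field_simp
        have k32 : (1 + k1 ^ 2) ^ 3 ≤ (1 + κ ^ 2) ^ 3 := pow_le_pow_left₀ hA1.le hAA 3
        have k33 : (c * T) ^ 2 ≤ (c * τm) ^ 2 := pow_le_pow_left₀ (by positivity) hcm 2
        have k34 : (c * T) ^ 2 / (1 + κ ^ 2) ^ 3 ≤ (c * τm) ^ 2 / (1 + k1 ^ 2) ^ 3 :=
          div_le_div₀ (by positivity) k33 (by positivity) k32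
        have e : (c * T) ^ 2 / (1 + κ ^ 2) ^ 2 = (1 + κ ^ 2) * ((c * T) ^ 2 / (1 + κ ^ 2) ^ 3) := by field_simp
        rw [k31, e]
        exact mul_le_mul_of_nonneg_left k34 hA.le
      have k4 := mul_le_mul_of_nonneg_right k3' (by positivity : 0 ≤ 1 / 6 + 0.17 * P1 ^ 2)
      have k5 : P * ((1 + κ ^ 2) + P ^ 2 * (1 / 6 + 0.17 * P1 ^ 2)) ≤
          P * ((1 + κ ^ 2) * (1 + (c * τm) ^ 2 / (1 + k1 ^ 2) ^ 3 * (1 / 6 + 0.17 * P1 ^ 2))) := by
        apply mul_le_mul_of_nonneg_left _ hP0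
        linarith only [k4]
      refine k5.trans ?_
      have e : P * ((1 + κ ^ 2) * (1 + (c * τm) ^ 2 / (1 + k1 ^ 2) ^ 3 * (1 / 6 + 0.17 * P1 ^ 2))) =
          T * (c * (1 + (c * τm) ^ 2 / (1 + k1 ^ 2) ^ 3 * (1 / 6 + 0.17 * P1 ^ 2))) := by
        rw [hP]; field_simp
      rw [e]
      calc T * (c * (1 + (c * τm) ^ 2 / (1 + k1 ^ 2) ^ 3 * (1 / 6 + 0.17 * P1 ^ 2))) ≤ T * 1 :=
            mul_le_mul_of_nonneg_left hnum ht
        _ = T := mul_one T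
    have e4 : κ * exp z * sqrt (1 - q ^ 2) = κ * (exp z * sqrt (1 - q ^ 2)) := by ring
    rw [e4]
    have e5 : κ * (P * q / 2) = z * q / 2 := by rw [hz]; ring
    have e6 : κ * (z + z ^ 2 / 2 + z ^ 3 / 5) = κ ^ 2 * P * (1 + z / 2 + z ^ 2 / 5) := by rw [hz]; ring
    have ht2 : t = -T - κ := by rw [hT]; ring
    rw [ht2]
    linarith only [h1, h5, h6, e5, e6, hmain]
  · rw [ez, abs_neg, abs_of_nonneg hP0]
    linarith

set_option maxHeartbeats 1000000 in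
/-- left hand side: `|p| ≤ C |τ|/(1+κ²)`, box form -/
theorem spL_le_box {κ t : ℝ} (h : DomR κ t) (C k1 k2 ψ χ μ τ1 τ2 w P1 : ℝ) (ht : τ1 ≤ -(t + κ))
    (htm : -(t + κ) ≤ τ2) (hτ1 : 0 ≤ τ1)
    (hk1 : k1 ≤ κ) (hk2 : κ ≤ k2) (hψ : κ / (1 + κ ^ 2) ≤ ψ) (hχ : κ * (3 - κ ^ 2) ≤ χ * (1 + κ ^ 2) ^ 2)
    (hμ : μ * (1 + κ ^ 2) ^ 3 ≤ κ ^ 2 * (1 + κ ^ 2 / 6 - 5 * w / 12)) (hμ0 : 0 ≤ μ) (hk0 : 0 ≤ k1) (hC : 0 < C)
    (hw : w = ψ * (C * τ2)) (hw1 : w ≤ 13 / 20) (hP1 : P1 = C * τ2 / (1 + k1 ^ 2)) (hP45 : P1 ≤ 4 / 5)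
    (hχ0 : 0 ≤ χ)
    (hnum : 1 ≤ C * (1 - C * τ2 * χ / 2 + (C * τ1) ^ 2 * (μ + (1 - w) ^ 3 * (1 / 6 - w / 5) / (1 + k2 ^ 2) ^ 3))) :
    C * (t + κ) / (1 + κ ^ 2) ≤ sp κ t := by
  have hk := h.1
  have hA : 0 < 1 + κ ^ 2 := by positivity
  have hA1 : 0 < 1 + k1 ^ 2 := by positivity
  have hAA : 1 + k1 ^ 2 ≤ 1 + κ ^ 2 := by nlinarith
  have hAA2 : 1 + κ ^ 2 ≤ 1 + k2 ^ 2 := by nlinarith
  obtain ⟨T, hT⟩ : ∃ T, T = -(t + κ) := ⟨_, rfl⟩
  obtain ⟨P, hP⟩ : ∃ P, P = C * T / (1 + κ ^ 2) := ⟨_, rfl⟩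
  have hg : C * (t + κ) / (1 + κ ^ 2) = -P := by rw [hP, hT]; ring
  rw [hg]
  rw [← hT] at ht htm
  have hT0 : 0 ≤ T := hτ1.trans ht
  have hP0 : 0 ≤ P := by rw [hP]; positivity
  have hcm : C * T ≤ C * τ2 := mul_le_mul_of_nonneg_left htm hC.le
  have hcm1 : C * τ1 ≤ C * T := mul_le_mul_of_nonneg_left ht hC.le
  have hPP : P ≤ P1 := by
    rw [hP, hP1]
    exact div_le_div₀ (by nlinarith) hcm hA1 hAA
  have hP1' : P ≤ 4 / 5 := hPP.trans hP45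
  obtain ⟨z, hz⟩ : ∃ z, z = κ * P := ⟨_, rfl⟩
  have hz0 : 0 ≤ z := by rw [hz]; exact mul_nonneg hk.le hP0
  have hzw : z ≤ w := by
    have e : z = κ / (1 + κ ^ 2) * (C * T) := by rw [hz, hP]; field_simp
    rw [e, hw]
    apply mul_le_mul hψ hcm (by positivity)
    exact le_trans (by positivity) hψ
  have hz1 : z ≤ 13 / 20 := hzw.trans hw1
  have he := exp_pos (-z)
  have he1 : exp (-z) ≤ 1 := exp_le_one_iff.2 (by linarith)
  have ez : κ * -P = -z := by rw [hz]; ring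
  have hq1 : P * exp (-z) ≤ 4 / 5 := by nlinarith
  apply sp_ge_of h _ (Or.inr (by rw [ez]; linarith))
  · rw [ez, neg_neg]
    obtain ⟨q, hq⟩ : ∃ q, q = P * exp (-z) := ⟨_, rfl⟩
    have hq0 : 0 ≤ q := by rw [hq]; positivity
    rw [← hq] at hq1
    have e1 : -P * exp (-z) = -q := by rw [hq]; ring
    rw [e1, arcsin_neg, neg_sq]
    have h1 := r1_arcsin_ge hq0 (by linarith)
    have h2 := r1_sqrt_ge (q := q) (by rw [abs_of_nonneg hq0]; exact hq1)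
    have h3 := r1_exp_ge3 z
    have he' := exp_pos z
    have e2 : exp z * exp (-z) = 1 := by rw [← exp_add, add_neg_cancel, exp_zero]
    have h4 : exp z - P * q * (1 / 2 + q ^ 2 / 5) ≤ exp z * sqrt (1 - q ^ 2) := by
      have h41 := mul_le_mul_of_nonneg_left h2 he'.le
      have e3 : exp z * q = P := by rw [hq]; linear_combination P * e2
      have e4 : exp z * (1 - q ^ 2 / 2 - q ^ 4 / 5) = exp z - P * q * (1 / 2 + q ^ 2 / 5) := by
        linear_combination (-(q / 2 + q ^ 3 / 5)) * e3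
      rw [e4] at h41
      exact h41
    have h5 := mul_le_mul_of_nonneg_left h4 hk.le
    have h6 := mul_le_mul_of_nonneg_left h3 hk.le
    have h7 : P * (1 - z + z ^ 2 / 2 - z ^ 3 / 6) ≤ q := by
      rw [hq]
      apply mul_le_mul_of_nonneg_left _ hP0
      have := r1_exp_ge3 (-z)
      have e7 : (-z) ^ 2 = z ^ 2 := by ring
      have e8 : (-z) ^ 3 = -z ^ 3 := by ring
      rw [e7, e8] at this
      linarith only [this]
    have hmain : T ≤ κ ^ 2 * P * (1 + z / 2 + z ^ 2 / 6) + q * (1 - z / 2) + q ^ 3 * (1 / 6 - z / 5) := by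
      have g1 : P * (1 - 3 / 2 * z + z ^ 2 * (1 - 5 * w / 12)) ≤ q * (1 - z / 2) := by
        have g11 := mul_le_mul_of_nonneg_right h7 (by linarith : 0 ≤ 1 - z / 2)
        have g12 : 0 ≤ P * z ^ 4 / 12 := by positivity
        have g13 : 0 ≤ P * z ^ 2 * (5 / 12 * (w - z)) := by
          have : 0 ≤ w - z := by linarith
          positivity
        have e : P * (1 - z + z ^ 2 / 2 - z ^ 3 / 6) * (1 - z / 2) =
            P * (1 - 3 / 2 * z + z ^ 2 * (1 - 5 * w / 12)) + P * z ^ 4 / 12 + P * z ^ 2 * (5 / 12 * (w - z)) := by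
          ring
        rw [e] at g11
        linarith only [g11, g12, g13]
      have hw0 : 0 ≤ w := hz0.trans hzw
      have g2 : P * (P ^ 2 * ((1 - w) ^ 3 * (1 / 6 - w / 5))) ≤ q ^ 3 * (1 / 6 - z / 5) := by
        have g21 : P * (1 - w) ≤ q := by
          rw [hq]
          apply mul_le_mul_of_nonneg_left _ hP0
          have := add_one_le_exp (-z)
          linarith only [this, hzw]
        have g22 : (P * (1 - w)) ^ 3 ≤ q ^ 3 := pow_le_pow_left₀ (mul_nonneg hP0 (by linarith)) g21 3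
        have g23 : 0 ≤ 1 / 6 - w / 5 := by linarith
        have g24 : (P * (1 - w)) ^ 3 * (1 / 6 - w / 5) ≤ q ^ 3 * (1 / 6 - z / 5) :=
          mul_le_mul g22 (by linarith) g23 (by positivity)
        have e : P * (P ^ 2 * ((1 - w) ^ 3 * (1 / 6 - w / 5))) = (P * (1 - w)) ^ 3 * (1 / 6 - w / 5) := by ring
        rw [e]
        exact g24
      have g4 : P * ((1 + κ ^ 2) - z * (3 - κ ^ 2) / 2 + z ^ 2 * (1 + κ ^ 2 / 6 - 5 * w / 12) +
          P ^ 2 * ((1 - w) ^ 3 * (1 / 6 - w / 5))) ≤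
          κ ^ 2 * P * (1 + z / 2 + z ^ 2 / 6) + q * (1 - z / 2) + q ^ 3 * (1 / 6 - z / 5) := by
        linarith only [g1, g2]
      refine le_trans ?_ g4
      have k1' : z * (3 - κ ^ 2) / 2 ≤ (1 + κ ^ 2) * (C * τ2 * χ / 2) := by
        have : z * (3 - κ ^ 2) = C * T * (κ * (3 - κ ^ 2)) / (1 + κ ^ 2) := by rw [hz, hP]; field_simp
        rw [this]
        have k11 : C * T * (κ * (3 - κ ^ 2)) ≤ C * τ2 * (χ * (1 + κ ^ 2) ^ 2) := by
          have k12 : C * T * (κ * (3 - κ ^ 2)) ≤ C * T * (χ * (1 + κ ^ 2) ^ 2) :=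
            mul_le_mul_of_nonneg_left hχ (by positivity)
          have k13 : C * T * (χ * (1 + κ ^ 2) ^ 2) ≤ C * τ2 * (χ * (1 + κ ^ 2) ^ 2) :=
            mul_le_mul_of_nonneg_right hcm (by positivity)
          exact k12.trans k13
        have k14 : C * T * (κ * (3 - κ ^ 2)) / (1 + κ ^ 2) ≤ C * τ2 * χ * (1 + κ ^ 2) := by
          rw [div_le_iff₀ hA]
          linarith only [k11]
        linarith only [k14]
      have k21 : (C * τ1) ^ 2 ≤ (C * T) ^ 2 := pow_le_pow_left₀ (by positivity) hcm1 2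
      have k2' : (1 + κ ^ 2) * ((C * τ1) ^ 2 * μ) ≤ z ^ 2 * (1 + κ ^ 2 / 6 - 5 * w / 12) := by
        have : z ^ 2 * (1 + κ ^ 2 / 6 - 5 * w / 12) =
            (C * T) ^ 2 * (κ ^ 2 * (1 + κ ^ 2 / 6 - 5 * w / 12)) / (1 + κ ^ 2) ^ 2 := by
          rw [hz, hP]; field_simp
        rw [this, le_div_iff₀ (by positivity)]
        have k22 : (C * τ1) ^ 2 * (μ * (1 + κ ^ 2) ^ 3) ≤
            (C * T) ^ 2 * (κ ^ 2 * (1 + κ ^ 2 / 6 - 5 * w / 12)) :=
          mul_le_mul k21 hμ (by positivity) (by positivity)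
        linarith only [k22]
      have k3' : (1 + κ ^ 2) * ((C * τ1) ^ 2 / (1 + k2 ^ 2) ^ 3) ≤ P ^ 2 := by
        have k31 : P ^ 2 = (C * T) ^ 2 / (1 + κ ^ 2) ^ 2 := by rw [hP]; field_simp
        have k32 : (1 + κ ^ 2) ^ 3 ≤ (1 + k2 ^ 2) ^ 3 := pow_le_pow_left₀ hA.le hAA2 3
        have k34 : (C * τ1) ^ 2 / (1 + k2 ^ 2) ^ 3 ≤ (C * T) ^ 2 / (1 + κ ^ 2) ^ 3 :=
          div_le_div₀ (by positivity) k21 (by positivity) k32
        have e : (C * T) ^ 2 / (1 + κ ^ 2) ^ 2 = (1 + κ ^ 2) * ((C * T) ^ 2 / (1 + κ ^ 2) ^ 3) := by field_simp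
        rw [k31, e]
        exact mul_le_mul_of_nonneg_left k34 hA.le
      have k42 := mul_le_mul_of_nonneg_right k3'
        (mul_nonneg (pow_nonneg (by linarith : 0 ≤ 1 - w) 3) (by linarith : 0 ≤ 1 / 6 - w / 5))
      have e9 : (1 + κ ^ 2) * ((C * τ1) ^ 2 / (1 + k2 ^ 2) ^ 3) * ((1 - w) ^ 3 * (1 / 6 - w / 5)) =
          (1 + κ ^ 2) * ((C * τ1) ^ 2 * ((1 - w) ^ 3 * (1 / 6 - w / 5) / (1 + k2 ^ 2) ^ 3)) := by ring
      rw [e9] at k42
      have k4 : (1 + κ ^ 2) * (1 - C * τ2 * χ / 2 + (C * τ1) ^ 2 * (μ + (1 - w) ^ 3 * (1 / 6 - w / 5) /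
          (1 + k2 ^ 2) ^ 3)) ≤ (1 + κ ^ 2) - z * (3 - κ ^ 2) / 2 + z ^ 2 * (1 + κ ^ 2 / 6 - 5 * w / 12) +
          P ^ 2 * ((1 - w) ^ 3 * (1 / 6 - w / 5)) := by
        linarith only [k1', k2', k42]
      refine le_trans ?_ (mul_le_mul_of_nonneg_left k4 hP0)
      have e : P * ((1 + κ ^ 2) * (1 - C * τ2 * χ / 2 + (C * τ1) ^ 2 * (μ + (1 - w) ^ 3 * (1 / 6 - w / 5) /
          (1 + k2 ^ 2) ^ 3))) = T * (C * (1 - C * τ2 * χ / 2 + (C * τ1) ^ 2 * (μ + (1 - w) ^ 3 *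
          (1 / 6 - w / 5) / (1 + k2 ^ 2) ^ 3))) := by
        rw [hP]; field_simp
      rw [e]
      calc T = T * 1 := (mul_one T).symm
        _ ≤ _ := mul_le_mul_of_nonneg_left hnum hT0
    have e4 : κ * exp z * sqrt (1 - q ^ 2) = κ * (exp z * sqrt (1 - q ^ 2)) := by ring
    rw [e4]
    have e5 : κ * (P * q * (1 / 2 + q ^ 2 / 5)) = q * (z / 2 + z * q ^ 2 / 5) := by rw [hz]; ring
    have e6 : κ * (z + z ^ 2 / 2 + z ^ 3 / 6) = κ ^ 2 * P * (1 + z / 2 + z ^ 2 / 6) := by rw [hz]; ring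
    have e7 : q * (1 - z / 2) + q ^ 3 * (1 / 6 - z / 5) = q + q ^ 3 / 6 - q * (z / 2 + z * q ^ 2 / 5) := by ring
    have ht2 : t = -T - κ := by rw [hT]; ring
    rw [ht2]
    linarith only [h1, h5, h6, e5, e6, e7, hmain]
  · rw [ez, abs_neg, abs_of_nonneg hP0]
    linarith

end Sok
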