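import Pool.Agent.Lib.MP_816dec_an.R1N2
import Pool.Agent.Lib.MP_816dec_an.R1Ineq6
import Pool.Agent.Lib.MP_816dec_an.R1Exp

/-!
MP_816dec_an (A3, row R1, `b ≥ 9`): the copy `2` on the discs.
-/

set_option autoImplicit false

open Complex Set Filter Topology Metric

namespace Sok

theorem DP.Rpos {b : ℕ} {h κ R t : ℝ} (H : DP b h κ R t) : 0 < R := by linarith [H.R1]

theorem DP.beta {b : ℕ} {h κ R t β : ℝ} (H : DP b h κ R t) (hβ : β = κ / R) :
    0 < β ∧ β * R = κ ∧ κ / β = R := by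
  have h1 := H.Rpos
  have h2 := H.k0
  refine ⟨by rw [hβ]; positivity, by rw [hβ]; field_simp, by rw [hβ]; field_simp⟩

/-- bounds of the denominators -/
theorem DP.D2 {b : ℕ} {h κ R t : ℝ} (H : DP b h κ R t) :
    sD κ t ^ 2 ≤ 2.1 * (sD κ (t - h) * sD κ (t + h)) := by
  obtain ⟨s, hs, hlo, hhi, hs1, hs2⟩ := H.exists_s
  obtain ⟨d0, d1, d2⟩ := H.dom
  have hp := H.hpos
  have hh := h_le9 H.hb H.hh
  have hk0 := H.k0
  have hk15 := H.k1
  obtain ⟨A, hA⟩ : ∃ A, A = 1 + κ ^ 2 := ⟨_, rfl⟩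
  have hA1 : 1 ≤ A := by rw [hA]; nlinarith
  have hA0 : 0 < A := by linarith
  obtain ⟨τ, hτ⟩ : ∃ τ, τ = t + κ := ⟨_, rfl⟩
  have hτ0 : 0 < τ := by rw [hτ, hs]; positivity
  have hτ1 : τ ≤ 0.7895 * 0.6982 := by
    rw [hτ, hs]
    exact mul_le_mul hs2 hh hp.le (by norm_num)
  have hτh : τ ≤ h := by rw [hτ, hs]; nlinarith
  have hD0pos := sD_pos d0
  have hD1pos := sD_pos d1
  have hD2pos := sD_pos d2
  have fin : ∀ a c e : ℝ, 0 ≤ a → 0 ≤ c → 0 ≤ e → sD κ t ≤ a * A → c * A ≤ sD κ (t - h) → e * A ≤ sD κ (t + h) →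
      a ^ 2 ≤ 2.1 * (c * e) → sD κ t ^ 2 ≤ 2.1 * (sD κ (t - h) * sD κ (t + h)) := by
    intro a c e ha hc he h1 h2 h3 h4
    have h5 : sD κ t ^ 2 ≤ (a * A) ^ 2 := pow_le_pow_left₀ hD1pos.le h1 2
    have h6 : (c * A) * (e * A) ≤ sD κ (t - h) * sD κ (t + h) :=
      mul_le_mul h2 h3 (by positivity) hD0pos.le
    have h7 : a ^ 2 * A ^ 2 ≤ 2.1 * (c * e) * A ^ 2 := mul_le_mul_of_nonneg_right h4 (by positivity)
    calc sD κ t ^ 2 ≤ (a * A) ^ 2 := h5
      _ = a ^ 2 * A ^ 2 := by ring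
      _ ≤ 2.1 * (c * e) * A ^ 2 := h7
      _ = 2.1 * ((c * A) * (e * A)) := by ring
      _ ≤ _ := by linarith
  rcases le_total κ 1 with hκ1 | hκ1
  · have e2 : 1 * A ≤ sD κ (t + h) := by
      rw [one_mul, hA]
      exact DR_ge d2 (by linarith) hκ1
    have hD1 := DR_le (s := τ / A) d1 (by rw [hτ, hA]) (by linarith) hκ1
    have hD1' : sD κ t ≤ 1 + κ ^ 2 + 2 * (κ * (τ / A)) * (1 - κ ^ 2) + 2 * κ ^ 2 * (κ * (τ / A)) ^ 2 := hD1
    rcases le_total κ 0.86 with h86 | h86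
    · have hsg : sgm κ ≤ 0.1361 := sgm_le hk0.le h86 (by norm_num) (by norm_num)
      have hτ05 : h - τ ≤ 0.5 := by
        rw [hτ, hs]
        have : (1 - s) * h ≤ 0.7161 * 0.6982 := mul_le_mul (by linarith) hh hp.le (by norm_num)
        linarith
      have hτ52 : τ ≤ 0.52 := by
        rw [hτ, hs]
        have : s * h ≤ 0.7361 * 0.6982 := mul_le_mul (by linarith) hh hp.le (by norm_num)
        linarith
      -- lower bound of `sp` on the left
      have hsp : 1.373 * (t - h + κ) / (1 + κ ^ 2) ≤ sp κ (t - h) := by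
        have hle : ∀ C : ℝ, C ≤ 1.373 → C * (t - h + κ) / (1 + κ ^ 2) ≤ sp κ (t - h) →
            1.373 * (t - h + κ) / (1 + κ ^ 2) ≤ sp κ (t - h) := by
          intro C hC h1
          refine le_trans ?_ h1
          rw [div_le_div_iff_of_pos_right (by positivity)]
          nlinarith
        rcases le_total (-(t - h + κ)) 0.2 with c1 | c1
        · exact hle 1.109 (by norm_num) (pLu_00_02 d0 (by linarith) (by linarith) c1)
        rcases le_total (-(t - h + κ)) 0.3 with c2 | c2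
        · exact hle 1.173 (by norm_num) (pLu_02_03 d0 (by linarith) c1 c2)
        rcases le_total (-(t - h + κ)) 0.4 with c3 | c3
        · exact hle 1.257 (by norm_num) (pLu_03_04 d0 (by linarith) c2 c3)
        · exact pLu_04_05 d0 (by linarith) c3 (by linarith)
      have hD0 := DL_ge (P := 1.373 * (h - τ) / A) d0 (by linarith) hκ1 (by
        refine le_trans (le_of_eq ?_) hsp
        rw [hA, hτ]
        ring)
      have hD0' : 1 + κ ^ 2 - 2 * (κ * (1.373 * (h - τ) / A)) * (1 - κ ^ 2) ≤ sD κ (t - h) := hD0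
      -- `2κ(1-κ²) ≤ A²/2`
      have hg : 2 * κ * (1 - κ ^ 2) ≤ 1 / 2 * A ^ 2 := by
        rw [hA]
        nlinarith [sq_nonneg (κ ^ 2 + 2 * κ - 1)]
      have hq : 2 * κ ^ 4 ≤ 1 / 4 * A ^ 3 := by
        rw [hA]
        have h1 : κ ^ 2 ≤ 1 := by nlinarith
        have h2 : 0 ≤ κ ^ 2 := sq_nonneg κ
        have e : 1 / 4 * (1 + κ ^ 2) ^ 3 - 2 * κ ^ 4 = 1 / 4 * ((1 - κ ^ 2) * (1 + 4 * κ ^ 2 - (κ ^ 2) ^ 2)) := by ring
        have h3 : 0 ≤ (1 - κ ^ 2) * (1 + 4 * κ ^ 2 - (κ ^ 2) ^ 2) := by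
          apply mul_nonneg (by linarith)
          nlinarith
        linarith
      have e1 : sD κ t ≤ (1 + 0.5 * τ + 0.25 * τ ^ 2) * A := by
        refine hD1'.trans ?_
        have u1 : 2 * (κ * (τ / A)) * (1 - κ ^ 2) ≤ 0.5 * τ * A := by
          have : 2 * (κ * (τ / A)) * (1 - κ ^ 2) = (2 * κ * (1 - κ ^ 2)) * (τ / A) := by ring
          rw [this]
          have h9 := mul_le_mul_of_nonneg_right hg (div_pos hτ0 hA0).le
          have h10 : 1 / 2 * A ^ 2 * (τ / A) = 0.5 * τ * A := by field_simp; norm_num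
          linarith
        have u2 : 2 * κ ^ 2 * (κ * (τ / A)) ^ 2 ≤ 0.25 * τ ^ 2 * A := by
          have : 2 * κ ^ 2 * (κ * (τ / A)) ^ 2 = (2 * κ ^ 4) * (τ / A) ^ 2 := by ring
          rw [this]
          have h9 := mul_le_mul_of_nonneg_right hq (sq_nonneg (τ / A))
          have h10 : 1 / 4 * A ^ 3 * (τ / A) ^ 2 = 0.25 * τ ^ 2 * A := by field_simp; norm_num
          linarith
        have e3 : (1 + 0.5 * τ + 0.25 * τ ^ 2) * A = 1 + κ ^ 2 + 0.5 * τ * A + 0.25 * τ ^ 2 * A := by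
          rw [hA]; ring
        linarith
      have e0 : (1 - 0.6865 * (h - τ)) * A ≤ sD κ (t - h) := by
        refine le_trans ?_ hD0'
        have u1 : 2 * (κ * (1.373 * (h - τ) / A)) * (1 - κ ^ 2) ≤ 0.6865 * (h - τ) * A := by
          have : 2 * (κ * (1.373 * (h - τ) / A)) * (1 - κ ^ 2) = (2 * κ * (1 - κ ^ 2)) * (1.373 * (h - τ) / A) := by
            ring
          rw [this]
          have h9 := mul_le_mul_of_nonneg_right hg (div_nonneg (mul_nonneg (by norm_num : (0:ℝ) ≤ 1.373)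
            (by linarith : 0 ≤ h - τ)) hA0.le)
          have h10 : 1 / 2 * A ^ 2 * (1.373 * (h - τ) / A) = 0.6865 * (h - τ) * A := by field_simp; ring
          linarith
        have e3 : (1 - 0.6865 * (h - τ)) * A = 1 + κ ^ 2 - 0.6865 * (h - τ) * A := by rw [hA]; ring
        linarith
      refine fin _ _ _ (by positivity) (by linarith) (by norm_num) e1 e0 e2 ?_
      rw [mul_one]
      have v1 : 0.25 * τ ^ 2 ≤ 0.13 * τ := by nlinarith
      have v2 : 1 + 0.5 * τ + 0.25 * τ ^ 2 ≤ 1 + 0.63 * τ := by linarith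
      have v3 : (1 + 0.5 * τ + 0.25 * τ ^ 2) ^ 2 ≤ (1 + 0.63 * τ) ^ 2 := pow_le_pow_left₀ (by positivity) v2 2
      have v4 : τ ^ 2 ≤ 0.52 * τ := by nlinarith
      have v5 : (1 + 0.63 * τ) ^ 2 = 1 + 1.26 * τ + 0.3969 * τ ^ 2 := by ring
      linarith
    · have hsg : sgm κ ≤ 0.1467 := sgm_le hk0.le hκ1 (by norm_num) (by norm_num)
      have hτ52 : τ ≤ 0.5214 := by
        rw [hτ, hs]
        have : s * h ≤ 0.7467 * 0.6982 := mul_le_mul (by linarith) hh hp.le (by norm_num)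
        linarith
      have hτ05 : h - τ ≤ 0.516 := by
        rw [hτ, hs]
        have : (1 - s) * h ≤ 0.7267 * 0.6982 := mul_le_mul (by linarith) hh hp.le (by norm_num)
        linarith
      have hk2 : 0.7396 ≤ κ ^ 2 := by nlinarith
      have hk2' : κ ^ 2 ≤ 1 := by nlinarith
      have hy := y_ge_30 d0 (by linarith)
      have hspy := sy_eq_sp d0
      have hD0 := DL_ge (P := 0.3 / κ) d0 (by linarith) hκ1 (by
        rw [neg_le_iff_add_nonneg, ← sub_nonneg]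
        have : κ * (sp κ (t - h) + 0.3 / κ) = sy κ (t - h) + 0.3 := by
          rw [hspy]; field_simp
        have h2 : 0 ≤ κ * (sp κ (t - h) + 0.3 / κ) := by rw [this]; linarith
        rw [sub_zero]
        exact nonneg_of_mul_nonneg_right h2 hk0)
      have e30 : κ * (0.3 / κ) = 0.3 := by field_simp
      rw [e30] at hD0
      have e0 : 0.91 * A ≤ sD κ (t - h) := by
        refine le_trans ?_ hD0
        rw [hA]
        nlinarith
      have hkA : κ * (τ / A) ≤ 0.2607 := by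
        have h1 : κ / A ≤ 1 / 2 := by
          rw [div_le_div_iff₀ hA0 (by norm_num), hA]
          nlinarith [sq_nonneg (κ - 1)]
        have h2 : κ * (τ / A) = κ / A * τ := by ring
        rw [h2]
        calc κ / A * τ ≤ 1 / 2 * 0.5214 := mul_le_mul h1 hτ52 hτ0.le (by norm_num)
          _ ≤ 0.2607 := by norm_num
      have hkA0 : 0 ≤ κ * (τ / A) := by positivity
      have e1 : sD κ t ≤ 1.16 * A := by
        refine hD1'.trans ?_
        have u1 : 2 * (κ * (τ / A)) * (1 - κ ^ 2) ≤ 2 * 0.2607 * 0.2604 :=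
          mul_le_mul (by linarith) (by linarith) (by linarith) (by norm_num)
        have u2 : 2 * κ ^ 2 * (κ * (τ / A)) ^ 2 ≤ 2 * 1 * 0.2607 ^ 2 :=
          mul_le_mul (by linarith) (pow_le_pow_left₀ hkA0 hkA 2) (by positivity) (by norm_num)
        linarith
      exact fin _ _ _ (by norm_num) (by norm_num) (by norm_num) e1 e0 e2 (by norm_num)
  · have hD1 := DR_le' (s := τ / A) d1 (by rw [hτ, hA]) (by linarith) hκ1 (by nlinarith)
    have hD1' : sD κ t ≤ 1 + κ ^ 2 + 2 * κ ^ 2 * (κ * (τ / A)) ^ 2 := hD1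
    have hkA : κ * (τ / A) ≤ 0.2757 := by
      have h1 : κ / A ≤ 1 / 2 := by
        rw [div_le_div_iff₀ hA0 (by norm_num), hA]
        nlinarith [sq_nonneg (κ - 1)]
      have h2 : κ * (τ / A) = κ / A * τ := by ring
      rw [h2]
      calc κ / A * τ ≤ 1 / 2 * (0.7895 * 0.6982) := mul_le_mul h1 hτ1 hτ0.le (by norm_num)
        _ ≤ 0.2757 := by norm_num
    have hkA0 : 0 ≤ κ * (τ / A) := by positivity
    have e1 : sD κ t ≤ 1.153 * A := by
      refine hD1'.trans ?_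
      have u2 : 2 * κ ^ 2 * (κ * (τ / A)) ^ 2 ≤ 2 * κ ^ 2 * 0.2757 ^ 2 :=
        mul_le_mul_of_nonneg_left (pow_le_pow_left₀ hkA0 hkA 2) (by positivity)
      have u3 : 2 * κ ^ 2 * 0.2757 ^ 2 ≤ 0.153 * κ ^ 2 := by nlinarith [sq_nonneg κ]
      linarith
    have e0 : 1 * A ≤ sD κ (t - h) := by
      rw [one_mul, hA]
      exact DL_ge' d0 (by linarith) hκ1
    have e2 : 0.8 * A ≤ sD κ (t + h) := by
      have h1 := D_ge_log d2
      have h2 : 1 - 1 / κ ≤ Real.log κ := by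
        have h3 := Real.one_sub_inv_le_log_of_pos hk0
        rwa [inv_eq_one_div] at h3
      have h4 : 2 + 2 * Real.log κ ≤ sD κ (t + h) := h1
      have h5 : 0.8 * A ≤ 2 + 2 * (1 - 1 / κ) := by
        rw [hA, ← sub_nonneg]
        have e5 : 2 + 2 * (1 - 1 / κ) - 0.8 * (1 + κ ^ 2) = (3.2 * κ - 2 - 0.8 * κ ^ 3) / κ := by
          field_simp
          ring
        rw [e5]
        apply div_nonneg _ hk0.le
        have e6 : 3.2 * κ - 2 - 0.8 * κ ^ 3 = (κ - 1) * (1.5 - κ) * (0.8 * κ + 2) + (1 - 0.6 * κ) := by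
          ring
        rw [e6]
        have : 0 ≤ (κ - 1) * (1.5 - κ) * (0.8 * κ + 2) :=
          mul_nonneg (mul_nonneg (by linarith) (by linarith)) (by positivity)
        linarith
      linarith
    exact fin _ _ _ (by norm_num) (by norm_num) (by norm_num) e1 e0 e2 (by norm_num)

theorem exp_neg_2991 : Real.exp (-2.9913) ≤ 0.05025 := by
  rw [Real.exp_neg, inv_le_comm₀ (Real.exp_pos _) (by norm_num)]
  have h := Real.sum_le_exp_of_nonneg (x := 2.9913) (by norm_num) 13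
  refine le_trans ?_ h
  norm_num [Finset.sum_range_succ, Nat.factorial]

/-- quotient of the saddle values -/
theorem DP.Q2 {b : ℕ} {h κ R t β : ℝ} (H : DP b h κ R t) (hβ : β = κ / R) :
    sQ β κ (t + h) * sQ β κ (t - h) ≤ 0.0606 * sQ β κ t ^ 2 := by
  obtain ⟨d0, d1, d2⟩ := H.dom
  obtain ⟨hb0, hb1, hb2⟩ := H.beta hβ
  have hN := H.N2
  have hD := H.D2
  have hR := H.Rpos
  have hA : 0 < 1 + κ ^ 2 := by positivity
  have hD0 := sD_pos d0
  have hD1 := sD_pos d1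
  have hD2 := sD_pos d2
  unfold sQ
  rw [hb2]
  obtain ⟨q0, hq0⟩ : ∃ q, q = Real.sqrt (Real.sqrt (sD κ (t - h))) := ⟨_, rfl⟩
  obtain ⟨q1, hq1⟩ : ∃ q, q = Real.sqrt (Real.sqrt (sD κ t)) := ⟨_, rfl⟩
  obtain ⟨q2, hq2⟩ : ∃ q, q = Real.sqrt (Real.sqrt (sD κ (t + h))) := ⟨_, rfl⟩
  have p4 : ∀ x : ℝ, 0 < x → Real.sqrt (Real.sqrt x) ^ 4 = x := by
    intro x hx
    rw [show Real.sqrt (Real.sqrt x) ^ 4 = (Real.sqrt (Real.sqrt x) ^ 2) ^ 2 by ring,
      Real.sq_sqrt (Real.sqrt_nonneg _), Real.sq_sqrt hx.le]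
  have q0p : 0 < q0 := by rw [hq0]; exact Real.sqrt_pos.2 (Real.sqrt_pos.2 hD0)
  have q1p : 0 < q1 := by rw [hq1]; exact Real.sqrt_pos.2 (Real.sqrt_pos.2 hD1)
  have q2p : 0 < q2 := by rw [hq2]; exact Real.sqrt_pos.2 (Real.sqrt_pos.2 hD2)
  have e0 : q0 ^ 4 = sD κ (t - h) := by rw [hq0, p4 _ hD0]
  have e1 : q1 ^ 4 = sD κ t := by rw [hq1, p4 _ hD1]
  have e2 : q2 ^ 4 = sD κ (t + h) := by rw [hq2, p4 _ hD2]
  rw [← hq0, ← hq1, ← hq2]
  have hq : q1 ^ 2 ≤ 1.204 * (q0 * q2) := by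
    by_contra hcon
    push Not at hcon
    have h1 : (1.204 * (q0 * q2)) ^ 4 < (q1 ^ 2) ^ 4 := pow_lt_pow_left₀ hcon (by positivity) (by norm_num)
    have h2 : (q1 ^ 2) ^ 4 = sD κ t ^ 2 := by rw [← e1]; ring
    have h3 : (1.204 * (q0 * q2)) ^ 4 = 1.204 ^ 4 * (sD κ (t - h) * sD κ (t + h)) := by rw [← e0, ← e2]; ring
    rw [h2, h3] at h1
    have h4 : 0 < sD κ (t - h) * sD κ (t + h) := mul_pos hD0 hD2
    have h5 : 2.1 * (sD κ (t - h) * sD κ (t + h)) ≤ 1.204 ^ 4 * (sD κ (t - h) * sD κ (t + h)) :=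
      mul_le_mul_of_nonneg_right (by norm_num) h4.le
    linarith
  have hE : Real.exp (R * sE κ (t + h)) * Real.exp (R * sE κ (t - h)) ≤ 0.05025 * Real.exp (R * sE κ t) ^ 2 := by
    rw [← Real.exp_add]
    have h1 : R * sE κ (t + h) + R * sE κ (t - h) ≤ -2.9913 + (R * sE κ t + R * sE κ t) := by
      have h2 := mul_le_mul_of_nonneg_left hN hR.le
      have h3 : 2.9913 ≤ R * (0.59 * (h ^ 2 / (1 + κ ^ 2))) := by
        have h4 : R * (0.59 * (h ^ 2 / (1 + κ ^ 2))) = 0.59 * (R * h ^ 2 / (1 + κ ^ 2)) := by ring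
        have h5 : 5.07 ≤ R * h ^ 2 / (1 + κ ^ 2) := by
          rw [le_div_iff₀ hA]; exact H.T1
        rw [h4]; linarith
      linarith
    refine (Real.exp_le_exp.2 h1).trans ?_
    rw [Real.exp_add, Real.exp_add, sq]
    exact mul_le_mul_of_nonneg_right exp_neg_2991 (by positivity)
  obtain ⟨E0, hE0⟩ : ∃ E, E = Real.exp (R * sE κ (t - h)) := ⟨_, rfl⟩
  obtain ⟨E1, hE1⟩ : ∃ E, E = Real.exp (R * sE κ t) := ⟨_, rfl⟩
  obtain ⟨E2, hE2⟩ : ∃ E, E = Real.exp (R * sE κ (t + h)) := ⟨_, rfl⟩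
  rw [← hE0, ← hE1, ← hE2] at hE
  rw [← hE0, ← hE1, ← hE2]
  have E1p : 0 < E1 := by rw [hE1]; exact Real.exp_pos _
  have e3 : E2 / q2 * (E0 / q0) = (E2 * E0) / (q0 * q2) := by field_simp
  have e4 : 0.0606 * (E1 / q1) ^ 2 = 0.0606 * E1 ^ 2 / q1 ^ 2 := by rw [div_pow, mul_div_assoc]
  rw [e3, e4, div_le_div_iff₀ (by positivity) (by positivity)]
  calc E2 * E0 * q1 ^ 2 ≤ (0.05025 * E1 ^ 2) * (1.204 * (q0 * q2)) :=
        mul_le_mul hE hq (by positivity) (by positivity)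
    _ = (0.05025 * 1.204) * (E1 ^ 2 * (q0 * q2)) := by ring
    _ ≤ 0.0606 * (E1 ^ 2 * (q0 * q2)) := mul_le_mul_of_nonneg_right (by norm_num) (by positivity)
    _ = _ := by ring

/-- the copy `2` on the discs, given the saddle estimate -/
theorem nearK2_of {b : ℕ} {h κ R t β G0 G1 : ℝ} (H : DP b h κ R t) (hβ : β = κ / R)
    (hJ : ‖HH β (sg κ (t + h)) - 1‖ ≤ 0.03)
    (h0 : 0 ≤ G0) (h0' : G0 ≤ 1.034 * sQ β κ (t - h)) (h1 : 0.966 * sQ β κ t ≤ G1) :
    ‖Xf β R h t 2‖ * G0 ^ ((2 : ℤ) - 1) * G1 ^ (-(2 : ℤ)) ≤ 7 / 100 := by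
  obtain ⟨d0, d1, d2⟩ := H.dom
  obtain ⟨hb0, hb1, hb2⟩ := H.beta hβ
  have hQ := H.Q2 hβ
  have s0 := sQ_pos (β := β) d0
  have s1 := sQ_pos (β := β) d1
  have s2 := sQ_pos (β := β) d2
  have hX : ‖Xf β R h t 2‖ ≤ 1.03 * sQ β κ (t + h) := by
    have e := norm_Xf_eq (R := R) (h := h) (t := t) hb0 (k := 2) (t' := t + h) (by push_cast; ring)
      (by rw [hb1]; exact d2)
    rw [e, hb1]
    apply mul_le_mul_of_nonneg_right _ s2.le
    have h3 := norm_add_le (HH β (sg κ (t + h)) - 1) 1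
    rw [sub_add_cancel, norm_one] at h3
    linarith
  have hG1 : 0 < G1 := by
    have : 0 < 0.966 * sQ β κ t := by positivity
    linarith
  have e1 : G0 ^ ((2 : ℤ) - 1) = G0 := by norm_num
  have e2 : G1 ^ (-(2 : ℤ)) = (G1 ^ 2)⁻¹ := by rw [zpow_neg]; norm_cast
  rw [e1, e2, ← div_eq_mul_inv, div_le_iff₀ (by positivity)]
  have h4 : (0.966 * sQ β κ t) ^ 2 ≤ G1 ^ 2 := pow_le_pow_left₀ (by positivity) h1 2
  have h5 : ‖Xf β R h t 2‖ * G0 ≤ (1.03 * sQ β κ (t + h)) * (1.034 * sQ β κ (t - h)) :=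
    mul_le_mul hX h0' h0 (by positivity)
  have h6 : (1.03 * sQ β κ (t + h)) * (1.034 * sQ β κ (t - h)) = 1.03 * 1.034 * (sQ β κ (t + h) * sQ β κ (t - h)) := by
    ring
  have h7 : (0.966 * sQ β κ t) ^ 2 = 0.966 ^ 2 * sQ β κ t ^ 2 := by ring
  have h8 : 0 < sQ β κ t ^ 2 := by positivity
  rw [h6] at h5
  rw [h7] at h4
  linarith

end Sok
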