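import Pool.Agent.Lib.MP_816dec_an.JNum30
import Pool.Agent.Lib.MP_816dec_an.R1Geo

/-!
MP_816dec_an, row R1 (helper63): small `κ ≤ 0.3`: existence of the saddle at all angles by Banach's
theorem, `|F| ≤ 8/5` on the left half plane.
-/

set_option autoImplicit false

open Complex Set Filter Topology Metric

namespace Sok

theorem exp49 : Real.exp 0.49 ≤ 1.6324 ∧ 1.6323 ≤ Real.exp 0.49 := by
  constructor
  · have h := Real.exp_bound' (x := 0.49) (by norm_num) (by norm_num) (n := 8) (by norm_num)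
    refine h.trans ?_
    norm_num [Finset.sum_range_succ, Nat.factorial]
  · have h := Real.sum_le_exp_of_nonneg (x := 0.49) (by norm_num) 8
    refine le_trans ?_ h
    norm_num [Finset.sum_range_succ, Nat.factorial]

/-- a fixed point of `σ ↦ ζ e^{iσ}` -/
theorem exists_saddle_small {ζ : ℂ} (hζ : ‖ζ‖ ≤ 0.3) : ∃ σ : ℂ, ‖σ‖ ≤ 0.49 ∧ σ = ζ * cexp (I * σ) := by
  obtain ⟨f, hf⟩ : ∃ f : ℂ → ℂ, f = fun σ => ζ * cexp (I * σ) := ⟨_, rfl⟩
  have hnorm : ∀ σ ∈ closedBall (0 : ℂ) 0.49, ‖ζ * cexp (I * σ)‖ ≤ 0.49 := by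
    intro σ hσ
    have hσ' : ‖σ‖ ≤ 0.49 := by simpa using hσ
    rw [norm_mul, Complex.norm_exp]
    have h1 : (I * σ).re = -σ.im := by simp
    rw [h1]
    have h2 : -σ.im ≤ 0.49 := by
      have := Complex.abs_im_le_norm σ
      have := neg_abs_le σ.im
      linarith
    have h3 : Real.exp (-σ.im) ≤ 1.6324 := (Real.exp_le_exp.2 h2).trans exp49.1
    have h4 : ‖ζ‖ * Real.exp (-σ.im) ≤ 0.3 * 1.6324 := mul_le_mul hζ h3 (Real.exp_pos _).le (by norm_num)
    refine h4.trans (by norm_num)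
  have hmaps : MapsTo f (closedBall (0 : ℂ) 0.49) (closedBall (0 : ℂ) 0.49) := by
    intro σ hσ
    rw [hf]
    simpa using hnorm σ hσ
  have hder : ∀ σ, HasDerivAt f (ζ * (cexp (I * σ) * I)) σ := by
    intro σ
    have h1 : HasDerivAt (fun σ : ℂ => I * σ) I σ := by simpa using (hasDerivAt_id σ).const_mul I
    rw [hf]
    exact h1.cexp.const_mul ζ
  have hlip : ∀ a ∈ closedBall (0 : ℂ) 0.49, ∀ b ∈ closedBall (0 : ℂ) 0.49, ‖f a - f b‖ ≤ 0.49 * ‖a - b‖ := by
    intro a ha b hb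
    apply Convex.norm_image_sub_le_of_norm_hasDerivWithin_le (f := f) (f' := fun σ => ζ * (cexp (I * σ) * I))
      (s := closedBall (0 : ℂ) 0.49) _ _ (convex_closedBall 0 0.49) hb ha
    · intro σ _
      exact (hder σ).hasDerivWithinAt
    · intro σ hσ
      have := hnorm σ hσ
      rw [← mul_assoc, norm_mul, Complex.norm_I, mul_one]
      exact this
  have hcontr : ContractingWith 0.49 (hmaps.restrict f (closedBall (0 : ℂ) 0.49) (closedBall (0 : ℂ) 0.49)) := by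
    refine ⟨by norm_num, LipschitzWith.of_dist_le_mul ?_⟩
    intro a b
    have h := hlip a a.2 b b.2
    rw [Subtype.dist_eq, Subtype.dist_eq, dist_eq_norm, dist_eq_norm]
    have e : ((0.49 : NNReal) : ℝ) = 0.49 := by norm_num
    rw [e]
    exact h
  have hcl : IsComplete (closedBall (0 : ℂ) 0.49) := isClosed_closedBall.isComplete
  obtain ⟨σ, hσ, hfix, _⟩ := ContractingWith.exists_fixedPoint' hcl hmaps hcontr
    (mem_closedBall_self (by norm_num : (0:ℝ) ≤ 0.49)) (edist_ne_top _ _)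
  refine ⟨σ, by simpa using hσ, ?_⟩
  have h1 : f σ = σ := hfix
  rw [hf] at h1
  exact h1.symm

/-- the modulus of `F` at a saddle -/
theorem norm_F_saddle {β : ℝ} (hβ : 0 < β) {x y : ℝ} (hy : -1 < y) {ε : ℝ}
    (h : ‖HH β (x + y * I) - 1‖ ≤ ε) :
    ‖F (cexp (I * β)) (zs β (x + y * I))‖ ≤
      (1 + ε) * Real.exp (x * (1 + y) / β) / Real.sqrt ‖1 - I * (x + y * I : ℂ)‖ := by
  obtain ⟨σ, hσ⟩ : ∃ σ : ℂ, σ = x + y * I := ⟨_, rfl⟩
  rw [← hσ] at h ⊢
  have hne : (1 - I * σ) ≠ 0 := by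
    intro h0
    have h1 := congrArg Complex.re h0
    rw [hσ] at h1
    simp at h1
    linarith
  have h1 : ‖HH β σ‖ ≤ 1 + ε := by
    have e : HH β σ = (HH β σ - 1) + 1 := by ring
    rw [e]
    refine (norm_add_le _ _).trans ?_
    rw [norm_one]; linarith
  have h2 : ‖HH β σ‖ = ‖F (cexp (I * β)) (zs β σ)‖ * Real.exp (-(x * (1 + y) / β)) * Real.sqrt ‖1 - I * σ‖ := by
    unfold HH
    rw [norm_mul, norm_mul, Complex.norm_exp]
    have e1 : (-((σ - I * σ ^ 2 / 2) / (β : ℂ))).re = -(x * (1 + y) / β) := by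
      have e2 : σ - I * σ ^ 2 / 2 = ((x * (1 + y) : ℝ) : ℂ) + ((y - (x ^ 2 - y ^ 2) / 2 : ℝ) : ℂ) * I := by
        rw [hσ]
        push_cast
        linear_combination (-(x * y : ℂ) - I * y ^ 2 / 2) * Complex.I_mul_I
      rw [e2, Complex.neg_re, Complex.div_ofReal_re]
      obtain ⟨A, hA⟩ : ∃ A : ℝ, A = x * (1 + y) := ⟨_, rfl⟩
      obtain ⟨B, hB⟩ : ∃ B : ℝ, B = y - (x ^ 2 - y ^ 2) / 2 := ⟨_, rfl⟩
      rw [← hA, ← hB]
      simp
    rw [e1]
    have e3 : ‖(1 - I * σ) ^ (1 / 2 : ℂ)‖ = Real.sqrt ‖1 - I * σ‖ := by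
      rw [Complex.norm_cpow_of_ne_zero hne]
      simp only [one_div]
      have e4 : ((2 : ℂ)⁻¹).re = 1 / 2 := by norm_num
      have e5 : ((2 : ℂ)⁻¹).im = 0 := by norm_num
      rw [e4, e5, mul_zero, Real.exp_zero, div_one, Real.sqrt_eq_rpow]
    rw [e3]
  rw [h2] at h1
  have hs : 0 < Real.sqrt ‖1 - I * σ‖ := Real.sqrt_pos.2 (norm_pos_iff.2 hne)
  rw [le_div_iff₀ hs]
  have he : 0 < Real.exp (x * (1 + y) / β) := Real.exp_pos _
  have h3 : Real.exp (-(x * (1 + y) / β)) * Real.exp (x * (1 + y) / β) = 1 := by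
    rw [← Real.exp_add]; simp
  calc ‖F (cexp (I * β)) (zs β σ)‖ * Real.sqrt ‖1 - I * σ‖ =
        (‖F (cexp (I * β)) (zs β σ)‖ * Real.exp (-(x * (1 + y) / β)) * Real.sqrt ‖1 - I * σ‖) *
          Real.exp (x * (1 + y) / β) := by
        calc _ = ‖F (cexp (I * β)) (zs β σ)‖ * Real.sqrt ‖1 - I * σ‖ * 1 := by ring
          _ = ‖F (cexp (I * β)) (zs β σ)‖ * Real.sqrt ‖1 - I * σ‖ *
              (Real.exp (-(x * (1 + y) / β)) * Real.exp (x * (1 + y) / β)) := by rw [h3]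
          _ = _ := by ring
    _ ≤ (1 + ε) * Real.exp (x * (1 + y) / β) := mul_le_mul_of_nonneg_right h1 he.le

/-- real form of the saddle equation -/
theorem saddle_polar {κ t : ℝ} {σ : ℂ} (h : σ = (κ * cexp (I * t)) * cexp (I * σ)) :
    σ.re = κ * Real.exp (-σ.im) * Real.cos (t + σ.re) ∧ σ.im = κ * Real.exp (-σ.im) * Real.sin (t + σ.re) := by
  have e : (κ * cexp (I * t)) * cexp (I * σ) =
      ((κ * Real.exp (-σ.im) : ℝ) : ℂ) * cexp (((t + σ.re : ℝ) : ℂ) * I) := by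
    rw [mul_assoc, ← Complex.exp_add]
    have e1 : I * (t : ℂ) + I * σ = ((-σ.im : ℝ) : ℂ) + ((t + σ.re : ℝ) : ℂ) * I := by
      conv_lhs => rw [← Complex.re_add_im σ]
      push_cast
      linear_combination (σ.im : ℂ) * Complex.I_mul_I
    rw [e1, Complex.exp_add]
    push_cast
    ring
  rw [e] at h
  have h1 := congrArg Complex.re h
  have h2 := congrArg Complex.im h
  rw [Complex.re_ofReal_mul, Complex.exp_ofReal_mul_I_re] at h1
  rw [Complex.im_ofReal_mul, Complex.exp_ofReal_mul_I_im] at h2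
  exact ⟨h1, h2⟩

/-- `(1 + y) e^{-y} ≥ 0.83` for `|y| ≤ 0.49` -/
theorem one_add_mul_exp {y : ℝ} (h : |y| ≤ 0.49) : 0.83 ≤ (1 + y) * Real.exp (-y) := by
  have h1 := abs_le.1 h
  rcases le_total 0 y with h0 | h0
  · have h2 : 1 - y / 2 ≤ Real.exp (-(y / 2)) := by
      have := Real.add_one_le_exp (-(y / 2))
      linarith
    have h3 : (1 - y / 2) ^ 2 ≤ Real.exp (-y) := by
      have e : Real.exp (-y) = Real.exp (-(y / 2)) ^ 2 := by
        rw [← Real.exp_nat_mul]; congr 1; push_cast; ring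
      rw [e]
      exact pow_le_pow_left₀ (by linarith) h2 2
    have h4 : (1 + y) * (1 - y / 2) ^ 2 ≤ (1 + y) * Real.exp (-y) := mul_le_mul_of_nonneg_left h3 (by linarith)
    have h5 : y ^ 2 ≤ 0.49 ^ 2 := pow_le_pow_left₀ h0 h1.2 2
    nlinarith [pow_nonneg h0 3]
  · have h2 := mul_exp_neg_mono (s := 0.51) (s' := 1 + y) (by norm_num) (by linarith) (by linarith)
    have e1 : Real.exp (-(1 + y)) = Real.exp (-y) * Real.exp (-1) := by
      rw [← Real.exp_add]; congr 1; ring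
    have e2 : Real.exp (-0.51) = Real.exp 0.49 * Real.exp (-1) := by
      rw [← Real.exp_add]; norm_num
    rw [e1, e2, ← mul_assoc, ← mul_assoc] at h2
    have h3 := le_of_mul_le_mul_right h2 (Real.exp_pos (-1))
    have := exp49.2
    linarith

/-- **far_small**: the left half plane, `κ ≤ 0.3`: `|F| ≤ 8/5 exp (0.83 r m)` if `cos a ≤ m ≤ 0` for
all `a ∈ [t - 0.49, t]` or if `m = 0` -/
theorem far_small_gen {β r t m : ℝ} (hβ : 0 < β) (hr : 9 ≤ r) (hκ : β * r ≤ 0.3) (ht : Real.pi / 2 ≤ t)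
    (ht' : t ≤ 3 * Real.pi / 2) (hm : m ≤ 0) (hcos : m = 0 ∨ ∀ a, t - 0.49 ≤ a → a ≤ t → Real.cos a ≤ m) :
    ‖F (cexp (I * β)) (r * cexp (I * ((t + β / 2 : ℝ) : ℂ)))‖ ≤ 8 / 5 * Real.exp (0.83 * r * m) := by
  have hpi := Real.pi_gt_three
  have hr0 : 0 < r := by linarith
  have hk0 : 0 < β * r := by positivity
  have hβ1 : β ≤ 1 / 30 := by
    have : β * 9 ≤ β * r := mul_le_mul_of_nonneg_left hr hβ.le
    linarith
  have hζ : ‖((β * r : ℝ) : ℂ) * cexp (I * t)‖ ≤ 0.3 := by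
    rw [norm_mul, Complex.norm_real, Real.norm_of_nonneg hk0.le, mul_comm I, Complex.norm_exp_ofReal_mul_I, mul_one]
    exact hκ
  obtain ⟨σ, hσn, hσ⟩ := exists_saddle_small hζ
  obtain ⟨hx, hy⟩ := saddle_polar hσ
  obtain ⟨x, hxd⟩ : ∃ x, x = σ.re := ⟨_, rfl⟩
  obtain ⟨y, hyd⟩ : ∃ y, y = σ.im := ⟨_, rfl⟩
  have hσxy : σ = x + y * I := by rw [hxd, hyd]; exact (Complex.re_add_im σ).symm
  rw [← hxd, ← hyd] at hx hy
  have hxn : |x| ≤ 0.49 := by rw [hxd]; exact (Complex.abs_re_le_norm σ).trans hσn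
  have hyn : |y| ≤ 0.49 := by rw [hyd]; exact (Complex.abs_im_le_norm σ).trans hσn
  have hy1 := neg_abs_le y
  -- modulus of sigma
  have hmod : β * r * Real.exp (-y) ≤ 0.49 := by
    have h1 : Real.exp (-y) ≤ 1.6324 := (Real.exp_le_exp.2 (by linarith)).trans exp49.1
    have h2 : β * r * Real.exp (-y) ≤ 0.3 * 1.6324 := mul_le_mul hκ h1 (Real.exp_pos _).le (by norm_num)
    refine h2.trans (by norm_num)
  have hx0 : x ≤ 0 := by
    by_contra hcon
    push Not at hcon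
    have hE : 0 < β * r * Real.exp (-y) := by positivity
    have hc : 0 < Real.cos (t + x) := by
      rw [hx] at hcon
      exact (pos_iff_pos_of_mul_pos hcon).1 hE
    have h1 : 3 * Real.pi / 2 < t + x := by
      by_contra h2
      push Not at h2
      have := Real.cos_nonpos_of_pi_div_two_le_of_le (by linarith : Real.pi / 2 ≤ t + x) (by linarith)
      linarith
    have h2 : Real.cos (t + x) ≤ x := by
      have e : Real.cos (t + x) = Real.sin (t + x - 3 * Real.pi / 2) := by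
        have : t + x = (t + x - 3 * Real.pi / 2) - Real.pi / 2 + 2 * Real.pi := by ring
        conv_lhs => rw [this, Real.cos_add_two_pi, Real.cos_sub_pi_div_two]
      rw [e]
      exact (Real.sin_le (by linarith)).trans (by linarith)
    have h3 : β * r * Real.exp (-y) * Real.cos (t + x) ≤ 0.49 * x := mul_le_mul hmod h2 hc.le (by norm_num)
    rw [← hx] at h3
    linarith
  have hσn' : ‖(x + y * I : ℂ)‖ ≤ 0.49 := by rw [← hσxy]; exact hσn
  have hJ := J45_49_30 hβ hβ1 hσn'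
  have hF := norm_F_saddle hβ (by linarith : -1 < y) hJ
  -- the point
  have hz : zs β (x + y * I) = (r : ℂ) * cexp (I * ((t + β / 2 : ℝ) : ℂ)) := by
    rw [← hσxy]
    unfold zs
    have hb : (β : ℂ) ≠ 0 := by exact_mod_cast hβ.ne'
    have e1 : cexp (-(I * σ) + I * β / 2) = cexp (I * β / 2) * (cexp (I * σ))⁻¹ := by
      rw [← Complex.exp_neg, ← Complex.exp_add]; congr 1; ring
    have e2 : cexp (I * ((t + β / 2 : ℝ) : ℂ)) = cexp (I * t) * cexp (I * β / 2) := by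
      rw [← Complex.exp_add]; congr 1; push_cast; ring
    rw [e1, e2]
    have e3 : σ / β = r * cexp (I * t) * cexp (I * σ) := by
      rw [div_eq_iff hb]
      conv_lhs => rw [hσ]
      push_cast
      ring
    rw [e3]
    have := Complex.exp_ne_zero (I * σ)
    field_simp
  rw [hz] at hF
  refine hF.trans ?_
  have hV : x * (1 + y) / β ≤ 0.83 * r * m := by
    have h1y : 0 < 1 + y := by linarith
    rcases hcos with h | h
    · rw [h, mul_zero]
      apply div_nonpos_of_nonpos_of_nonneg _ hβ.le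
      exact mul_nonpos_of_nonpos_of_nonneg hx0 h1y.le
    · have hxl := (abs_le.1 hxn).1
      have hc := h (t + x) (by linarith) (by linarith)
      rw [div_le_iff₀ hβ]
      have h83 := one_add_mul_exp hyn
      have h1 : x * (1 + y) = (β * r) * ((1 + y) * Real.exp (-y)) * Real.cos (t + x) := by
        conv_lhs => rw [hx]
        ring
      rw [h1]
      have h2 : (β * r) * ((1 + y) * Real.exp (-y)) * Real.cos (t + x) ≤
          (β * r) * ((1 + y) * Real.exp (-y)) * m :=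
        mul_le_mul_of_nonneg_left hc (by positivity)
      have h3 : (β * r) * ((1 + y) * Real.exp (-y)) * m ≤ (β * r) * 0.83 * m := by
        have h4 : (β * r) * 0.83 ≤ (β * r) * ((1 + y) * Real.exp (-y)) :=
          mul_le_mul_of_nonneg_left h83 hk0.le
        nlinarith
      nlinarith
  have h4 : Real.exp (x * (1 + y) / β) ≤ Real.exp (0.83 * r * m) := Real.exp_le_exp.2 hV
  have h5 : (0.7141 : ℝ) ≤ Real.sqrt ‖1 - I * (x + y * I : ℂ)‖ := by
    apply Real.le_sqrt_of_sq_le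
    have h6 := norm_sub_norm_le (1 : ℂ) (I * (x + y * I : ℂ))
    rw [norm_one, norm_mul, Complex.norm_I, one_mul] at h6
    have : (0.7141 : ℝ) ^ 2 ≤ 0.51 := by norm_num
    linarith
  rw [div_le_iff₀ (by linarith)]
  have hE := Real.exp_pos (0.83 * r * m)
  have h7 : (1 + 4.22 * β) * Real.exp (x * (1 + y) / β) ≤ (1 + 4.22 * (1 / 30)) * Real.exp (0.83 * r * m) :=
    mul_le_mul (by linarith) h4 (Real.exp_pos _).le (by norm_num)
  refine h7.trans ?_
  calc (1 + 4.22 * (1 / 30)) * Real.exp (0.83 * r * m) ≤ (8 / 5 * 0.7141) * Real.exp (0.83 * r * m) :=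
        mul_le_mul_of_nonneg_right (by norm_num) hE.le
    _ = (8 / 5 * Real.exp (0.83 * r * m)) * 0.7141 := by ring
    _ ≤ _ := mul_le_mul_of_nonneg_left h5 (by positivity)

/-- (i) -/
theorem far_small {β r t : ℝ} (hβ : 0 < β) (hr : 9 ≤ r) (hκ : β * r ≤ 0.3) (ht : Real.pi / 2 ≤ t)
    (ht' : t ≤ 3 * Real.pi / 2) :
    ‖F (cexp (I * β)) (r * cexp (I * ((t + β / 2 : ℝ) : ℂ)))‖ ≤ 8 / 5 := by
  have h := far_small_gen (m := 0) hβ hr hκ ht ht' le_rfl (Or.inl rfl)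
  rwa [mul_zero, Real.exp_zero, mul_one] at h

/-- (ii) -/
theorem far_small' {β r t m : ℝ} (hβ : 0 < β) (hr : 9 ≤ r) (hκ : β * r ≤ 0.3) (ht : Real.pi / 2 ≤ t)
    (ht' : t ≤ 3 * Real.pi / 2) (hm : m ≤ 0) (hcos : ∀ a, t - 0.49 ≤ a → a ≤ t → Real.cos a ≤ m) :
    ‖F (cexp (I * β)) (r * cexp (I * ((t + β / 2 : ℝ) : ℂ)))‖ ≤ 8 / 5 * Real.exp (0.83 * r * m) :=
  far_small_gen hβ hr hκ ht ht' hm (Or.inr hcos)

/-- in the right half plane the saddle of R1Geo satisfies `|σ| ≤ 0.49` for `κ ≤ 0.3` -/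
theorem norm_saddle_small {κ t : ℝ} (hκ : κ ≤ 0.3) (hd : DomR κ t) :
    ‖((sx κ t : ℝ) : ℂ) + (sy κ t : ℝ) * I‖ ≤ 0.49 := by
  obtain ⟨hI, _⟩ := sy_spec hd
  have hk := hd.1
  have hsq := s_sq hd
  have hke : ¬ (Real.exp (-1) < κ) := by
    have h1 : (0.36 : ℝ) ≤ Real.exp (-1) := by
      have := Real.exp_neg_one_gt_d9
      linarith
    intro h; linarith
  have hy1 : -1 < sy κ t := by
    rcases hI.2 with h | h
    · exact absurd h hke
    · exact h
  obtain ⟨y, hyd⟩ : ∃ y, y = sy κ t := ⟨_, rfl⟩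
  obtain ⟨x, hxd⟩ : ∃ x, x = sx κ t := ⟨_, rfl⟩
  rw [← hyd, ← hxd] at hsq
  rw [← hyd] at hy1
  have hI1 := hI.1
  rw [← hyd] at hI1
  rw [← hyd, ← hxd]
  have hy49 : -y ≤ 0.49 := by
    by_contra hcon
    push Not at hcon
    have h1 := mul_exp_neg_mono (s := 0.49) (s' := -y) (by norm_num) hcon.le (by linarith)
    rw [neg_neg] at h1
    rw [abs_of_neg (by linarith)] at hI1
    have h2 : (0.3 : ℝ) ≤ 0.49 * Real.exp (-0.49) := by
      rw [Real.exp_neg, ← div_eq_mul_inv, le_div_iff₀ (Real.exp_pos _)]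
      have := exp49.1
      nlinarith
    linarith
  have h3 : ‖(x : ℂ) + (y : ℂ) * I‖ ^ 2 = x ^ 2 + y ^ 2 := by
    rw [← Complex.normSq_eq_norm_sq, Complex.normSq_apply]
    simp
    ring
  have h4 : κ * Real.exp (-y) ≤ 0.49 := by
    have h5 : Real.exp (-y) ≤ 1.6324 := (Real.exp_le_exp.2 hy49).trans exp49.1
    have h2 : κ * Real.exp (-y) ≤ 0.3 * 1.6324 := mul_le_mul hκ h5 (Real.exp_pos _).le (by norm_num)
    refine h2.trans (by norm_num)
  have e : κ ^ 2 * Real.exp (-2 * y) = (κ * Real.exp (-y)) ^ 2 := by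
    rw [mul_pow, ← Real.exp_nat_mul]; congr 2; push_cast; ring
  rw [e] at hsq
  apply le_of_sq_le_sq _ (by norm_num)
  rw [h3, hsq]
  exact pow_le_pow_left₀ (by positivity) h4 2

theorem HH_small {β r t : ℝ} (hβ : 0 < β) (hr : 9 ≤ r) (hκ : β * r ≤ 0.3) (ht : -(Real.pi / 2) < t)
    (ht' : t < Real.pi / 2) :
    ‖HH β ((sx (β * r) t : ℝ) + (sy (β * r) t : ℝ) * I) - 1‖ ≤ 4.22 * β := by
  have hr0 : 0 < r := by linarith
  have hd : DomR (β * r) t := ⟨by positivity, ht', Or.inr ht⟩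
  have hβ1 : β ≤ 1 / 30 := by
    have : β * 9 ≤ β * r := mul_le_mul_of_nonneg_left hr hβ.le
    linarith
  exact J45_49_30 hβ hβ1 (norm_saddle_small hκ hd)

end Sok
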