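import Pool.Agent.Lib.MP_816dec_an.R1V7
import Pool.Agent.Lib.MP_816dec_an.R1Small

/-!
MP_816dec_an (A3, row R1), SINGLE CASES, `κ = β r ≤ 0.3`, `r ≥ 10`: bounds of all copies and of the
logarithmic derivatives with constants independent of `κ` and `b`.
-/

set_option autoImplicit false

open Complex Set Filter Topology Metric

namespace Sok

theorem ks_beta {β r : ℝ} (hβ : 0 < β) (hr : 10 ≤ r) (hκ : β * r ≤ 0.3) : β ≤ 0.03 := by
  have : β * 10 ≤ β * r := mul_le_mul_of_nonneg_left hr hβ.le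
  norm_num at hκ ⊢
  linarith

theorem ks_dom {κ t : ℝ} (hk : 0 < κ) (h1 : -(Real.pi / 2) < t) (h2 : t < Real.pi / 2) : DomR κ t :=
  ⟨hk, h2, Or.inr h1⟩

theorem ks_sD {κ t : ℝ} (hκ : κ ≤ 0.3) (hd : DomR κ t) : 0.2601 ≤ sD κ t ∧ sD κ t ≤ 2.2201 := by
  have h1 : ‖sg κ t‖ ≤ 0.49 := norm_saddle_small hκ hd
  have h2 := norm_one_sub_sg (κ := κ) (t := t)
  have h3 : ‖1 - I * sg κ t‖ ≤ 1.49 := by
    refine (norm_sub_le _ _).trans ?_
    rw [norm_one, norm_mul, Complex.norm_I, one_mul]; norm_num at h1 ⊢; linarith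
  have h4 : 0.51 ≤ ‖1 - I * sg κ t‖ := by
    have := norm_sub_norm_le (1 : ℂ) (I * sg κ t)
    rw [norm_one, norm_mul, Complex.norm_I, one_mul] at this
    norm_num at h1 ⊢; linarith
  have h5 : sD κ t = ‖1 - I * sg κ t‖ ^ 2 := by rw [h2, Real.sq_sqrt (sD_pos hd).le]
  rw [h5]
  constructor
  · nlinarith
  · nlinarith [norm_nonneg (1 - I * sg κ t)]

theorem ks_up {β r h t t' : ℝ} {k : ℤ} (hβ : 0 < β) (hr : 10 ≤ r) (hκ : β * r ≤ 0.3) (ht : t' = t + (k - 1) * h)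
    (h1 : -(Real.pi / 2) < t') (h2 : t' < Real.pi / 2) :
    ‖Xf β r h t k‖ ≤ 1.578 * Real.exp (r * sE (β * r) t') := by
  have hb := ks_beta hβ hr hκ
  have hd := ks_dom (κ := β * r) (by positivity) h1 h2
  have hH := HH_small hβ (by linarith) hκ h1 h2
  exact v5_Jup hβ rfl ht hd (4.22 * 0.03) 0.2601 1.578 (hH.trans (by nlinarith)) (ks_sD hκ hd).1 (by norm_num)
    (by norm_num)

theorem ks_lo {β r h t t' : ℝ} {k : ℤ} (hβ : 0 < β) (hr : 10 ≤ r) (hκ : β * r ≤ 0.3) (ht : t' = t + (k - 1) * h)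
    (h1 : -(Real.pi / 2) < t') (h2 : t' < Real.pi / 2) :
    0.7155 * Real.exp (r * sE (β * r) t') ≤ ‖Xf β r h t k‖ := by
  have hb := ks_beta hβ hr hκ
  have hd := ks_dom (κ := β * r) (by positivity) h1 h2
  have hH := HH_small hβ (by linarith) hκ h1 h2
  exact v5_Jlo hβ rfl ht hd (4.22 * 0.03) 2.2201 0.7155 (by norm_num) (hH.trans (by nlinarith)) (ks_sD hκ hd).2
    (by norm_num)

/-- the left half plane -/
theorem ks_left {β r h t t' : ℝ} {k : ℤ} (hβ : 0 < β) (hr : 10 ≤ r) (hκ : β * r ≤ 0.3) (ht : t' = t + (k - 1) * h)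
    (h1 : -(3 * Real.pi / 2) ≤ t') (h2 : t' ≤ 3 * Real.pi / 2) (h3 : t' ≤ -(Real.pi / 2) ∨ Real.pi / 2 ≤ t') :
    ‖Xf β r h t k‖ ≤ 8 / 5 := by
  unfold Xf
  rw [← ht]
  rcases h3 with h3 | h3
  · have h := far_small (t := t' + 2 * Real.pi) hβ (by linarith) hκ (by linarith) (by linarith)
    have e : cexp (I * ((t' + 2 * Real.pi + β / 2 : ℝ) : ℂ)) = cexp (I * ((t' + β / 2 : ℝ) : ℂ)) := by
      have e1 : I * ((t' + 2 * Real.pi + β / 2 : ℝ) : ℂ) = I * ((t' + β / 2 : ℝ) : ℂ) + 2 * Real.pi * I := by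
        push_cast; ring
      rw [e1, Complex.exp_periodic]
    rwa [e] at h
  · exact far_small hβ (by linarith) hκ h3 h2

/-- a copy relative to a reference size `Y ≥ 0.7155 exp (r V)` -/
theorem ks_far {β r h t t' : ℝ} {k : ℤ} (hβ : 0 < β) (hr : 10 ≤ r) (hκ : β * r ≤ 0.3) (ht : t' = t + (k - 1) * h)
    {V Y : ℝ} (δ q e : ℝ) (hY : 0.7155 * Real.exp (r * V) ≤ Y) (h1 : -(3 * Real.pi / 2) ≤ t')
    (h2 : t' ≤ 3 * Real.pi / 2) (hR : -(Real.pi / 2) < t' → t' < Real.pi / 2 → sE (β * r) t' ≤ V - δ)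
    (hL : δ ≤ V) (hδ : 0 ≤ δ) (hq : Real.exp (-(10 * δ)) ≤ q) (he : 1.6 * q ≤ e * 0.7155) :
    ‖Xf β r h t k‖ ≤ e * Y := by
  have hq0 : 0 < q := (Real.exp_pos _).trans_le hq
  by_cases h3 : t' ≤ -(Real.pi / 2) ∨ Real.pi / 2 ≤ t'
  · have h4 := ks_left hβ hr hκ ht h1 h2 h3
    have h5 := v5_term (r := r) (c := 1.6) (E := 0) (V := V) (ℓ := 0.7155) (Y := Y) (e := e) q δ hr (by norm_num) hY hδ
      (by linarith) hq (by norm_num) he
    rw [mul_zero, Real.exp_zero, mul_one] at h5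
    norm_num at h5 ⊢
    linarith
  · push Not at h3
    refine (ks_up hβ hr hκ ht h3.1 h3.2).trans ?_
    exact v5_term (r := r) (c := 1.578) (V := V) (ℓ := 0.7155) (Y := Y) (e := e) q δ hr (by norm_num) hY hδ
      (hR h3.1 h3.2) hq (by norm_num) (le_trans (by nlinarith) he)

/-! ### `V = sE`: quadratic upper bounds for `κ ≤ 0.3` -/

/-- right side -/
theorem ks_Qr {κ t : ℝ} (P E K : ℝ) (h : DomR κ t) (hκ : κ ≤ 0.3) (h0 : 0 ≤ t + κ) (hE : Real.exp (0.3 * P) ≤ E)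
    (hK : 0.09 + E + P ^ 2 * E ^ 3 / 12 + P ^ 4 * E ^ 5 / 12 ≤ K) (hP : t + κ ≤ K * P) :
    sE κ t ≤ 1 - (t + κ) ^ 2 / (2 * K) := by
  have hk := h.1
  have hE0 : 0 < E := (Real.exp_pos _).trans_le hE
  have hK0 : 0 < K := by
    refine lt_of_lt_of_le ?_ hK
    positivity
  obtain ⟨p, hp⟩ : ∃ p, p = (t + κ) / K := ⟨_, rfl⟩
  have hp0 : 0 ≤ p := by rw [hp]; positivity
  have hpP : p ≤ P := by rw [hp, div_le_iff₀ hK0]; linarith
  have hE1 : Real.exp (κ * p) ≤ E := by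
    refine le_trans (Real.exp_le_exp.2 ?_) hE
    exact mul_le_mul hκ hpP hp0 (by norm_num)
  have hg : gG κ p ≤ 1 + K * p ^ 2 / 2 := by
    unfold gG
    have e1 := r1_exp_le2 (z := -(κ * p)) (by nlinarith [mul_nonneg hk.le hp0])
    have x0 := Real.exp_pos (κ * p)
    have e3 : Real.exp (κ * p) ^ 3 ≤ E ^ 3 := pow_le_pow_left₀ x0.le hE1 3
    have e5 : Real.exp (κ * p) ^ 5 ≤ E ^ 5 := pow_le_pow_left₀ x0.le hE1 5
    have p2 : p ^ 2 ≤ P ^ 2 := pow_le_pow_left₀ hp0 hpP 2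
    have p4 : p ^ 4 ≤ P ^ 4 := pow_le_pow_left₀ hp0 hpP 4
    have f3 : p ^ 2 * Real.exp (κ * p) ^ 3 ≤ P ^ 2 * E ^ 3 := mul_le_mul p2 e3 (by positivity) (by positivity)
    have f5 : p ^ 4 * Real.exp (κ * p) ^ 5 ≤ P ^ 4 * E ^ 5 := mul_le_mul p4 e5 (by positivity) (by positivity)
    have k2 : κ ^ 2 ≤ 0.09 := by
      have := pow_le_pow_left₀ hk.le hκ 2
      norm_num at this ⊢; linarith
    have key : (p ^ 2 / 2) * (κ ^ 2 + Real.exp (κ * p) + p ^ 2 * Real.exp (κ * p) ^ 3 / 12 +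
        p ^ 4 * Real.exp (κ * p) ^ 5 / 12) ≤ (p ^ 2 / 2) * K := by
      apply mul_le_mul_of_nonneg_left _ (by positivity)
      linarith
    nlinarith
  have hV := V_up h p hg
  have e : K * p ^ 2 / 2 - p * (t + κ) = -((t + κ) ^ 2 / (2 * K)) := by
    rw [hp]; field_simp; ring
  linarith

/-- left side -/
theorem ks_Ql {κ t : ℝ} (P K : ℝ) (h : DomR κ t) (hκ : κ ≤ 0.3) (h0 : t + κ ≤ 0)
    (hK : 1.1 + P ^ 2 / 12 + P ^ 4 / 12 ≤ K) (hP : -(t + κ) ≤ K * P) (hP1 : P ≤ 1) :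
    sE κ t ≤ 1 - (t + κ) ^ 2 / (2 * K) := by
  have hk := h.1
  have hK0 : 0 < K := by
    refine lt_of_lt_of_le ?_ hK
    positivity
  obtain ⟨p, hp⟩ : ∃ p, p = -(t + κ) / K := ⟨_, rfl⟩
  have hp0 : 0 ≤ p := by rw [hp]; exact div_nonneg (by linarith) hK0.le
  have hpP : p ≤ P := by rw [hp, div_le_iff₀ hK0]; linarith
  have hx0 : 0 ≤ κ * p := mul_nonneg hk.le hp0
  have hx1 : κ * p ≤ 0.3 := by
    calc κ * p ≤ 0.3 * 1 := mul_le_mul hκ (hpP.trans hP1) hp0 (by norm_num)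
      _ = 0.3 := by norm_num
  have hg : gG κ (-p) ≤ 1 + K * p ^ 2 / 2 := by
    unfold gG
    have e0 : κ * -p = -(κ * p) := by ring
    rw [e0, neg_neg]
    have e1 : Real.exp (κ * p) ≤ 1 + κ * p + (κ * p) ^ 2 * 0.555 := by
      have h2 := Real.exp_bound' (x := κ * p) hx0 (by norm_num at hx1 ⊢; linarith) (n := 4) (by norm_num)
      refine h2.trans ?_
      norm_num [Finset.sum_range_succ, Nat.factorial]
      nlinarith [mul_nonneg hx0 hx0, mul_nonneg (mul_nonneg hx0 hx0) (sub_nonneg.2 hx1),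
        mul_nonneg (mul_nonneg (mul_nonneg hx0 hx0) hx0) (sub_nonneg.2 hx1)]
    have x1 : Real.exp (-(κ * p)) ≤ 1 := Real.exp_le_one_iff.2 (by linarith)
    have x0 := Real.exp_pos (-(κ * p))
    have e3 : Real.exp (-(κ * p)) ^ 3 ≤ 1 := pow_le_one₀ x0.le x1
    have e5 : Real.exp (-(κ * p)) ^ 5 ≤ 1 := pow_le_one₀ x0.le x1
    have p2 : p ^ 2 ≤ P ^ 2 := pow_le_pow_left₀ hp0 hpP 2
    have p4 : p ^ 4 ≤ P ^ 4 := pow_le_pow_left₀ hp0 hpP 4
    have f3 : p ^ 2 * Real.exp (-(κ * p)) ^ 3 ≤ P ^ 2 * 1 := mul_le_mul p2 e3 (by positivity) (by positivity)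
    have f5 : p ^ 4 * Real.exp (-(κ * p)) ^ 5 ≤ P ^ 4 * 1 := mul_le_mul p4 e5 (by positivity) (by positivity)
    have k2 : κ ^ 2 ≤ 0.09 := by
      have := pow_le_pow_left₀ hk.le hκ 2
      norm_num at this ⊢; linarith
    have key : (p ^ 2 / 2) * (1.11 * κ ^ 2 + Real.exp (-(κ * p)) + p ^ 2 * Real.exp (-(κ * p)) ^ 3 / 12 +
        p ^ 4 * Real.exp (-(κ * p)) ^ 5 / 12) ≤ (p ^ 2 / 2) * K := by
      apply mul_le_mul_of_nonneg_left _ (by positivity)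
      linarith
    have e6 : (-p) ^ 2 = p ^ 2 := by ring
    have e7 : (-p) ^ 4 = p ^ 4 := by ring
    have e8 : (-p) ^ 6 = p ^ 6 := by ring
    rw [e6, e7, e8]
    nlinarith
  have hV := V_up h (-p) hg
  have e : K * p ^ 2 / 2 + p * (t + κ) = -((t + κ) ^ 2 / (2 * K)) := by
    rw [hp]; field_simp; ring
  linarith

/-- quadratic lower bound on the right -/
theorem ks_Lr {κ t : ℝ} (h : DomR κ t) (hκ : κ ≤ 0.3) (h0 : 0 ≤ t + κ) : 1 - (t + κ) ^ 2 / 2 ≤ sE κ t := by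
  have hk := h.1
  have h2 := low_quad h (by nlinarith) h0 t
  rw [sub_self, mul_zero, add_zero] at h2
  refine le_trans ?_ h2
  have : (t + κ) ^ 2 / (2 * (1 + κ ^ 2)) ≤ (t + κ) ^ 2 / 2 :=
    div_le_div_of_nonneg_left (sq_nonneg _) (by norm_num) (by nlinarith [sq_nonneg κ])
  linarith

/-- quadratic lower bound on both sides -/
theorem ks_Ll {κ t : ℝ} (Tm C : ℝ) (h : DomR κ t) (hκ : κ ≤ 0.3) (hT : -Tm ≤ t + κ) (hTm : Tm ≤ 1) (hTm0 : 0 ≤ Tm)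
    (hC : 1 / 2 + 0.1455 * Tm + 0.0081 * Tm ^ 2 / 12 + (1 + 0.3 * Tm) * (Tm ^ 2 / 12 + Tm ^ 4 / 24) ≤ C) :
    1 - C * (t + κ) ^ 2 ≤ sE κ t := by
  have hk := h.1
  have h2 := v5_V0q h 0 0.3 Tm C 0.1455 0.0081 1 0.3 le_rfl hk.le hκ (by norm_num) hT hTm ?_ (by norm_num) (by norm_num)
    (by norm_num) (by norm_num) (by norm_num) (by norm_num) (by norm_num) hTm0 (by linarith)
  · have e : (1 : ℝ) + 0 ^ 2 = 1 := by norm_num
    rw [e, div_one] at h2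
    exact h2
  · refine (cup1 0.3 hk.le hκ (by norm_num)).trans (by norm_num)

/-- linear upper bound for `κ ≤ 0.3` -/
theorem ks_g {κ : ℝ} (p g m n : ℝ) (hk : 0 < κ) (hκ : κ ≤ 0.3) (hm : Real.exp (-(0.3 * p)) ≤ m)
    (hn : Real.exp (0.3 * p) ≤ n) (h1 : 1 + p ^ 2 / 2 + p ^ 4 / 24 + p ^ 6 / 24 ≤ g)
    (h2 : m + p ^ 2 * n / 2 + p ^ 4 * n ^ 3 / 24 + p ^ 6 * n ^ 5 / 24 + 0.3 * p ≤ g) : gG κ p ≤ g :=
  gG_le p 0 0.3 g 1 m 1 n hk.le hκ (by norm_num) (by simp) hm (by simp) hn (by linarith) h2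

/-! ### slopes -/

theorem ks_sE_peak {κ : ℝ} (hk : 0 < κ) : sE κ (-κ) = 1 := by
  obtain ⟨h1, h2⟩ := s_peak hk
  unfold sE
  rw [h1, h2]
  field_simp
  ring

theorem ks_sp_r {κ t K : ℝ} (h : DomR κ t) (h0 : 0 < t + κ) (hV : sE κ t ≤ 1 - (t + κ) ^ 2 / (2 * K)) :
    (t + κ) / (2 * K) ≤ sp κ t := by
  have h1 := sE_tangent h (dom_peak h.1)
  rw [ks_sE_peak h.1] at h1
  have h2 : (t + κ) / (2 * K) * (t + κ) ≤ sp κ t * (t + κ) := by
    have e : (t + κ) / (2 * K) * (t + κ) = (t + κ) ^ 2 / (2 * K) := by ring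
    rw [e]
    linarith
  exact le_of_mul_le_mul_right h2 h0

theorem ks_sp_l {κ t K : ℝ} (h : DomR κ t) (h0 : t + κ < 0) (hV : sE κ t ≤ 1 - (t + κ) ^ 2 / (2 * K)) :
    sp κ t ≤ (t + κ) / (2 * K) := by
  have h1 := sE_tangent h (dom_peak h.1)
  rw [ks_sE_peak h.1] at h1
  have h2 : (t + κ) / (2 * K) * -(t + κ) ≥ sp κ t * -(t + κ) := by
    have e : (t + κ) / (2 * K) * -(t + κ) = -((t + κ) ^ 2 / (2 * K)) := by ring
    rw [e]
    linarith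
  exact le_of_mul_le_mul_right h2 (by linarith)

/-- left side: bounds of the saddle from `V ≥ C0`, `S ≥ sqrt (1 - C0²)`, `|y| ≤ z0` -/
theorem ks_rho {κ t : ℝ} (C0 S z0 E0 ρ0 : ℝ) (h : DomR κ t) (hκ : κ ≤ 0.3) (h0 : t + κ ≤ 0) (hV : C0 ≤ sE κ t)
    (hC : 0 ≤ C0) (hS : 1 - C0 ^ 2 ≤ S ^ 2) (hS0 : 0 ≤ S) (hz0 : 0 ≤ z0) (hz : 0.3 * S * Real.exp z0 < z0)
    (hE0 : Real.exp z0 ≤ E0) (hρ : 0.3 * E0 ≤ ρ0) (hρS : ρ0 ≤ S) :
    κ * Real.exp (-sy κ t) ≤ ρ0 ∧ 1 - 2 * ρ0 * S + ρ0 ^ 2 ≤ sD κ t ∧ -z0 ≤ sy κ t := by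
  have hk := h.1
  have hy0 := sy_nonpos h h0
  have hn : ‖sg κ t‖ ≤ 0.49 := norm_saddle_small hκ h
  have hyn : -0.49 ≤ sy κ t := by
    have h1 : |(sg κ t).im| ≤ 0.49 := (Complex.abs_im_le_norm _).trans hn
    have h2 : (sg κ t).im = sy κ t := by unfold sg; simp
    rw [h2] at h1
    have := (abs_le.1 h1).1
    norm_num at this ⊢; linarith
  have hc := cos_sa_pos h
  have hE := sE_eq h
  -- cos ≥ C0
  have h1 : Real.exp (-sy κ t) * (1 + sy κ t) ≤ 1 := by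
    have h2 := Real.add_one_le_exp (sy κ t)
    have h3 := mul_le_mul_of_nonneg_left h2 (Real.exp_pos (-sy κ t)).le
    rw [← Real.exp_add, neg_add_cancel, Real.exp_zero] at h3
    linarith
  have h2 : C0 ≤ Real.cos (sa κ t) := by
    have h3 : sE κ t ≤ Real.cos (sa κ t) := by
      rw [hE]
      have := mul_le_mul_of_nonneg_right h1 hc.le
      nlinarith
    linarith
  have h3 : Real.sin (sa κ t) ^ 2 ≤ S ^ 2 := by
    have h4 := Real.sin_sq_add_cos_sq (sa κ t)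
    have h5 : C0 ^ 2 ≤ Real.cos (sa κ t) ^ 2 := pow_le_pow_left₀ hC h2 2
    linarith
  have h4 : |Real.sin (sa κ t)| ≤ S := abs_le_of_sq_le_sq h3 hS0
  -- -y ≤ ρ S
  obtain ⟨ρ, hρd⟩ : ∃ ρ, ρ = κ * Real.exp (-sy κ t) := ⟨_, rfl⟩
  have hρ0 : 0 < ρ := by rw [hρd]; exact mul_pos hk (Real.exp_pos _)
  have h5 : -sy κ t ≤ ρ * S := by
    have h6 : sy κ t = ρ * Real.sin (sa κ t) := by
      rw [sy_eq_sp h, sp_eq h, hρd]; ring
    rw [h6]
    have := (abs_le.1 h4).1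
    nlinarith
  have h6 : -sy κ t ≤ z0 := by
    by_contra hcon
    push Not at hcon
    have h7 := mul_exp_neg_mono (s := z0) (s' := -sy κ t) hz0 hcon.le (by norm_num at hyn ⊢; linarith)
    rw [neg_neg] at h7
    have h8 : -sy κ t ≤ 0.3 * S * Real.exp (-sy κ t) := by
      refine h5.trans ?_
      rw [hρd]
      have := mul_le_mul_of_nonneg_right hκ (mul_nonneg (Real.exp_pos (-sy κ t)).le hS0)
      linarith
    have h9 : -sy κ t * Real.exp (sy κ t) ≤ 0.3 * S := by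
      have h10 := mul_le_mul_of_nonneg_right h8 (Real.exp_pos (sy κ t)).le
      rw [mul_assoc, ← Real.exp_add, neg_add_cancel, Real.exp_zero, mul_one] at h10
      exact h10
    have h11 : z0 * Real.exp (-z0) ≤ 0.3 * S := h7.trans h9
    have h12 := mul_le_mul_of_nonneg_right h11 (Real.exp_pos z0).le
    rw [mul_assoc, ← Real.exp_add, neg_add_cancel, Real.exp_zero, mul_one] at h12
    linarith
  have h7 : ρ ≤ ρ0 := by
    rw [hρd]
    have h8 : Real.exp (-sy κ t) ≤ E0 := (Real.exp_le_exp.2 h6).trans hE0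
    refine le_trans (mul_le_mul hκ h8 (Real.exp_pos _).le (by norm_num)) hρ
  refine ⟨by rw [← hρd]; exact h7, ?_, by linarith⟩
  rw [sD_eq5 h, ← hρd]
  have h9 : 0 ≤ (ρ0 - ρ) * (2 * S - ρ0 - ρ) := mul_nonneg (by linarith) (by linarith)
  nlinarith

/-- logarithmic derivative of a copy in the right half plane -/
theorem ks_Ld {β r h t t' : ℝ} {k : ℤ} (ρ0 D δ f e A : ℝ) (hβ : 0 < β) (hr : 10 ≤ r) (hκ : β * r ≤ 0.3)
    (ht : t' = t + (k - 1) * h) (h1 : -(Real.pi / 2) < t') (h2 : t' < Real.pi / 2)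
    (hρ : (β * r) * Real.exp (-sy (β * r) t') ≤ ρ0) (hD0 : 0 < D) (hD : D ≤ sD (β * r) t') (hδ : 0 < δ)
    (hδρ : ρ0 + δ ≤ 0.49) (hf0 : 0 ≤ f) (hf : 0.1266 ≤ f * (δ * 0.8734)) (he0 : 0 ≤ e)
    (he : (ρ0 * f) ^ 2 ≤ e ^ 2 * D) (hA : ρ0 / (2 * D) + e ≤ A) :
    Xf β r h t k ≠ 0 ∧ ‖Ld β r h t k - sg (β * r) t' / β‖ ≤ A ∧
      |(Ld β r h t k).im - r * sp (β * r) t'| ≤ A ∧ ‖Ld β r h t k‖ ≤ r * Real.exp (-sy (β * r) t') + A := by
  have hb := ks_beta hβ hr hκ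
  have hr0 : 0 < r := by linarith
  have hd := ks_dom (κ := β * r) (by positivity) h1 h2
  have hsg : ‖sg (β * r) t'‖ ≤ ρ0 := by rw [norm_sg5 hd]; exact hρ
  have hnn : 0 ≤ ‖sg (β * r) t'‖ := norm_nonneg _
  have him : δ < 1 + sy (β * r) t' := by
    have h3 : |(sg (β * r) t').im| ≤ ρ0 := (Complex.abs_im_le_norm _).trans hsg
    have h4 : (sg (β * r) t').im = sy (β * r) t' := by unfold sg; simp
    rw [h4] at h3
    have := (abs_le.1 h3).1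
    norm_num at hδρ; linarith
  have hJ : ∀ s : ℂ, ‖s - sg (β * r) t'‖ ≤ δ → ‖HH β s - 1‖ ≤ 0.1266 := by
    intro s hs
    have h3 : ‖s‖ ≤ 0.49 := by
      have h4 := norm_add_le (s - sg (β * r) t') (sg (β * r) t')
      rw [sub_add_cancel] at h4
      norm_num at hδρ ⊢; linarith
    have e1 : s = (s.re : ℂ) + (s.im : ℂ) * I := (Complex.re_add_im s).symm
    rw [e1] at h3 ⊢
    refine (J45_49_30 hβ (by norm_num at hb ⊢; linarith) h3).trans ?_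
    norm_num at hb ⊢; linarith
  obtain ⟨g1, g2, g3⟩ := v5_slope δ 0.1266 ρ0 D f e hβ rfl ht hd hδ (by norm_num) him hJ hρ hD0 hD hf0
    (by norm_num at hf ⊢; linarith) he0 he
  have g4 := g3.trans hA
  refine ⟨g1, g4, ?_, ?_⟩
  · have h5 := (Complex.abs_im_le_norm _).trans g4
    rw [Complex.sub_im] at h5
    have h6 : (sg (β * r) t' / (β : ℂ)).im = r * sp (β * r) t' := by
      rw [Complex.div_ofReal_im]
      have h7 : (sg (β * r) t').im = sy (β * r) t' := by unfold sg; simp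
      rw [h7]
      unfold sp
      field_simp
    rwa [h6] at h5
  · have e1 : Ld β r h t k = sg (β * r) t' / β + (Ld β r h t k - sg (β * r) t' / β) := by ring
    rw [e1]
    refine (norm_add_le _ _).trans ?_
    have h8 : ‖sg (β * r) t' / (β : ℂ)‖ = r * Real.exp (-sy (β * r) t') := by
      rw [norm_div, norm_sg5 hd, Complex.norm_real, Real.norm_of_nonneg hβ.le]
      field_simp
    rw [h8]
    linarith

end Sok
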