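import Pool.Agent.Lib.MP_816dec_an.R1KS

/-!
MP_816dec_an (A3, row R1), SINGLE CASES, `κ = β r ≤ 0.3`, `r ≥ 10`: sharper constants and slopes.
-/

set_option autoImplicit false

open Complex Set Filter Topology Metric

namespace Sok

private theorem sin_lo {u : ℝ} (h0 : 0 ≤ u) : u - u ^ 3 / 4 ≤ Real.sin u := by
  rcases eq_or_lt_of_le h0 with h | h
  · rw [← h]; simp
  · have h2 := (Real.sin_gt_sub_cube h).le
    have h3 : 0 ≤ u ^ 3 := by positivity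
    linarith

/-- right side: `0 ≤ θ ≤ τ`, `y ≤ κ θ` -/
theorem ks_right {κ t : ℝ} (h : DomR κ t) (h0 : 0 ≤ t + κ) :
    0 ≤ sa κ t ∧ sa κ t ≤ t + κ ∧ 0 ≤ sy κ t ∧ sy κ t ≤ κ * sa κ t := by
  have hk := h.1
  have hy := sy_nonneg h h0
  have ha := sa_abs h
  have hab := abs_lt.1 ha
  have hc := cos_sa_pos h
  have hey : Real.exp (-sy κ t) ≤ 1 := Real.exp_le_one_iff.2 (by linarith)
  have hep := Real.exp_pos (-sy κ t)
  have hsp := sp_nonneg h h0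
  have hs : 0 ≤ Real.sin (sa κ t) := by
    rw [sin_sa h]; exact mul_nonneg hsp (Real.exp_pos _).le
  have hθ : 0 ≤ sa κ t := by
    by_contra hcon
    push Not at hcon
    have := Real.sin_neg_of_neg_of_neg_pi_lt hcon (by linarith [Real.pi_pos])
    linarith
  have e1 := sa_sub h
  have h1 : Real.exp (-sy κ t) * Real.cos (sa κ t) ≤ 1 := by
    calc Real.exp (-sy κ t) * Real.cos (sa κ t) ≤ 1 * 1 :=
          mul_le_mul hey (Real.cos_le_one _) hc.le (by norm_num)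
      _ = 1 := by norm_num
  have h2 := mul_le_mul_of_nonneg_left h1 hk.le
  refine ⟨hθ, by linarith, hy, ?_⟩
  rw [sy_eq_sp h, sp_eq h]
  apply mul_le_mul_of_nonneg_left _ hk.le
  calc Real.exp (-sy κ t) * Real.sin (sa κ t) ≤ 1 * sa κ t :=
        mul_le_mul hey (Real.sin_le hθ) hs (by norm_num)
    _ = sa κ t := one_mul _

theorem ks_sD_r {κ t : ℝ} (h : DomR κ t) (hκ : κ ≤ 0.3) (h0 : 0 ≤ t + κ) :
    1 ≤ sD κ t ∧ sD κ t ≤ 1.09 + 0.6 * (t + κ) := by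
  have hk := h.1
  obtain ⟨a1, a2, a3, a4⟩ := ks_right h h0
  have hey : Real.exp (-sy κ t) ≤ 1 := Real.exp_le_one_iff.2 (by linarith)
  have hep := Real.exp_pos (-sy κ t)
  rw [sD_eq5 h]
  have h1 : κ * Real.exp (-sy κ t) ≤ 0.3 := by
    calc κ * Real.exp (-sy κ t) ≤ 0.3 * 1 := mul_le_mul hκ hey hep.le (by norm_num)
      _ = 0.3 := by norm_num
  have h2 : (κ * Real.exp (-sy κ t)) ^ 2 ≤ 0.3 ^ 2 := pow_le_pow_left₀ (by positivity) h1 2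
  have h3 : sy κ t ≤ 0.3 * (t + κ) := a4.trans (mul_le_mul hκ a2 a1 (by norm_num))
  constructor
  · have := sq_nonneg (κ * Real.exp (-sy κ t))
    linarith
  · linarith

/-- slope on the right -/
theorem ks_sp_r2 {κ t : ℝ} (T c : ℝ) (h : DomR κ t) (hκ : κ ≤ 0.3) (h0 : 0 ≤ t + κ) (hT : t + κ ≤ T) (hT1 : T ≤ 1)
    (hc0 : 0 ≤ c) (hc : c * (1.09 + 0.15 * T) ≤ 1 - T ^ 2 / 4) : c * (t + κ) * (1 - 0.3 * (t + κ)) ≤ sp κ t := by
  have hk := h.1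
  obtain ⟨a1, a2, a3, a4⟩ := ks_right h h0
  obtain ⟨τ, hτ⟩ : ∃ τ, τ = t + κ := ⟨_, rfl⟩
  rw [← hτ] at h0 hT a2 ⊢
  obtain ⟨θ, hθ⟩ : ∃ θ, θ = sa κ t := ⟨_, rfl⟩
  obtain ⟨y, hy⟩ : ∃ y, y = sy κ t := ⟨_, rfl⟩
  have e1 := sa_sub h
  have e2 := sp_eq h
  rw [← hθ] at a1 a2 a4 e1 e2
  rw [← hy] at a3 a4 e1 e2
  have hθ1 : θ ≤ 1 := by linarith
  have hyτ : y ≤ 0.3 * τ := a4.trans (mul_le_mul hκ a2 a1 (by norm_num))
  have hE : 1 - y ≤ Real.exp (-y) := by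
    have := Real.add_one_le_exp (-y)
    linarith
  have hy1 : 0 ≤ 1 - y := by linarith
  have hcos : 1 - θ ^ 2 / 2 ≤ Real.cos θ := Real.one_sub_sq_div_two_le_cos
  have hcp : 0 ≤ 1 - θ ^ 2 / 2 := by nlinarith
  have hec : 1 - y - θ ^ 2 / 2 ≤ Real.exp (-y) * Real.cos θ := by
    have h1 := mul_le_mul hE hcos hcp (Real.exp_pos _).le
    nlinarith [mul_nonneg a3 (sq_nonneg θ)]
  have hκy : κ * (1 - Real.exp (-y) * Real.cos θ) ≤ 0.09 * θ + 0.15 * θ ^ 2 := by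
    have h1 : κ * (1 - Real.exp (-y) * Real.cos θ) ≤ κ * (y + θ ^ 2 / 2) :=
      mul_le_mul_of_nonneg_left (by linarith) hk.le
    have h2 : κ * (y + θ ^ 2 / 2) ≤ 0.3 * (0.3 * θ + θ ^ 2 / 2) := by
      have h3 : y ≤ 0.3 * θ := a4.trans (mul_le_mul_of_nonneg_right hκ a1)
      exact mul_le_mul hκ (by linarith) (by positivity) (by norm_num)
    linarith
  have hτθ : τ ≤ (1.09 + 0.15 * T) * θ := by
    have h1 : τ = θ + κ * (1 - Real.exp (-y) * Real.cos θ) := by rw [hτ]; linarith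
    have h2 : 0 ≤ θ * (T - θ) := mul_nonneg a1 (by linarith)
    rw [h1]
    nlinarith
  have hs := sin_lo a1
  have h5 : c * τ ≤ θ - θ ^ 3 / 4 := by
    have h6 : c * τ ≤ c * ((1.09 + 0.15 * T) * θ) := mul_le_mul_of_nonneg_left hτθ hc0
    have h7 : c * (1.09 + 0.15 * T) * θ ≤ (1 - T ^ 2 / 4) * θ := mul_le_mul_of_nonneg_right hc a1
    have h8 : θ * θ ^ 2 ≤ θ * T ^ 2 := mul_le_mul_of_nonneg_left (pow_le_pow_left₀ a1 (by linarith) 2) a1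
    nlinarith
  rw [e2]
  have h9 : c * τ ≤ Real.sin θ := h5.trans hs
  have h10 : 1 - 0.3 * τ ≤ Real.exp (-y) := by linarith
  have h11 : 0 ≤ 1 - 0.3 * τ := by linarith
  calc c * τ * (1 - 0.3 * τ) ≤ Real.sin θ * Real.exp (-y) :=
        mul_le_mul h9 h10 h11 (le_trans (mul_nonneg hc0 h0) h9)
    _ = _ := mul_comm _ _

/-- slope on the left -/
theorem ks_sp_l2 {κ t : ℝ} (T C0 z0 E0 U c : ℝ) (h : DomR κ t) (hκ : κ ≤ 0.3) (h0 : t + κ ≤ 0) (hT : -T ≤ t + κ)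
    (hV : C0 ≤ sE κ t) (hV1 : sE κ t ≤ 1) (hz : -z0 ≤ sy κ t) (hz1 : z0 < 1) (hE0 : Real.exp z0 ≤ E0)
    (hU : T + 0.3 * (1 - C0) ≤ U) (hU1 : U ≤ 1) (hc0 : 0 ≤ c)
    (hc : c * ((1 - z0) + 0.09 * E0) ≤ (1 - z0) * (1 - U ^ 2 / 4)) (hC1 : C0 ≤ 1) : sp κ t ≤ c * (t + κ) := by
  have hk := h.1
  have hy0 := sy_nonpos h h0
  have hab := abs_lt.1 (sa_abs h)
  have hcp := cos_sa_pos h
  have hsp := sp_nonpos h h0
  have hs : Real.sin (sa κ t) ≤ 0 := by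
    rw [sin_sa h]; exact mul_nonpos_of_nonpos_of_nonneg hsp (Real.exp_pos _).le
  have hθ : sa κ t ≤ 0 := by
    by_contra hcon
    push Not at hcon
    have := Real.sin_pos_of_pos_of_lt_pi hcon (by linarith [Real.pi_pos])
    linarith
  have e1 := sa_sub h
  have e2 := sp_eq h
  have e3 := sE_eq h
  have e4 := sy_eq_sp h
  obtain ⟨τ, hτ⟩ : ∃ τ, τ = t + κ := ⟨_, rfl⟩
  rw [← hτ] at h0 hT ⊢
  obtain ⟨u, hu⟩ : ∃ u, u = -sa κ t := ⟨_, rfl⟩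
  obtain ⟨z, hzd⟩ : ∃ z, z = -sy κ t := ⟨_, rfl⟩
  have hsa : sa κ t = -u := by rw [hu]; ring
  have hsy : sy κ t = -z := by rw [hzd]; ring
  rw [hsa] at e1 e2 e3 hcp hθ
  rw [hsy] at e1 e2 e3 e4 hz hy0
  rw [neg_neg, Real.cos_neg] at e1
  rw [neg_neg, Real.sin_neg] at e2
  rw [neg_neg, Real.cos_neg] at e3
  rw [Real.cos_neg] at hcp
  have hu0 : 0 ≤ u := by linarith
  have hz00 : 0 ≤ z := by linarith
  have hzz : z ≤ z0 := by linarith
  have hez : 1 ≤ Real.exp z := Real.one_le_exp hz00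
  have hez' : Real.exp z ≤ E0 := (Real.exp_le_exp.2 hzz).trans hE0
  obtain ⟨C, hCd⟩ : ∃ C, C = Real.exp z * Real.cos u := ⟨_, rfl⟩
  rw [← hCd] at e1 e3
  have hCpos : 0 < C := by rw [hCd]; positivity
  -- `C (1 - z) ≤ 1`
  have h1 : C * (1 - z) ≤ 1 := by rw [e3] at hV1; linarith
  -- `u = |τ| + κ (1 - C)`
  have h2 : u = -τ + κ * (1 - C) := by rw [hτ]; linarith
  -- upper bound of `u`
  have h3 : C0 ≤ C := by
    rw [e3] at hV
    have := mul_nonneg hCpos.le hz00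
    linarith
  have huU : u ≤ U := by
    have h4 : κ * (1 - C) ≤ 0.3 * (1 - C0) := by
      have h5 : κ * (1 - C) ≤ κ * (1 - C0) := mul_le_mul_of_nonneg_left (by linarith) hk.le
      have h6 : κ * (1 - C0) ≤ 0.3 * (1 - C0) := mul_le_mul_of_nonneg_right hκ (by linarith)
      linarith
    linarith
  have hu1 : u ≤ 1 := huU.trans hU1
  have hsl := sin_lo hu0
  have hsp1 : sp κ t = -(Real.exp z * Real.sin u) := by rw [e2]; ring
  have hsin0 : 0 ≤ Real.sin u := Real.sin_nonneg_of_nonneg_of_le_pi hu0 (by linarith [Real.pi_gt_three])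
  have hsin1 : Real.sin u ≤ u := Real.sin_le hu0
  -- `z ≤ κ E0 u`
  have h7 : z ≤ κ * (E0 * u) := by
    have : z = κ * (Real.exp z * Real.sin u) := by rw [hsp1] at e4; linarith
    rw [this]
    apply mul_le_mul_of_nonneg_left _ hk.le
    exact mul_le_mul hez' hsin1 hsin0 ((Real.exp_pos _).le.trans hez')
  -- `(1 - z0) (C - 1) ≤ z`
  have h8 : (1 - z0) * (C - 1) ≤ z := by
    rcases le_total C 1 with h9 | h9
    · have : (1 - z0) * (C - 1) ≤ 0 := mul_nonpos_of_nonneg_of_nonpos (by linarith) (by linarith)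
      linarith
    · have h10 : (1 - z0) * (C - 1) ≤ (1 - z) * (C - 1) := mul_le_mul_of_nonneg_right (by linarith) (by linarith)
      linarith
  have h9 : (1 - z0) * -τ ≤ ((1 - z0) + 0.09 * E0) * u := by
    have h10 : -τ = u + κ * (C - 1) := by linarith
    have h11 : κ * ((1 - z0) * (C - 1)) ≤ κ * (κ * (E0 * u)) := mul_le_mul_of_nonneg_left (h8.trans h7) hk.le
    have h12 : κ * κ ≤ 0.09 := by
      have := mul_le_mul hκ hκ hk.le (by norm_num : (0:ℝ) ≤ 0.3)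
      norm_num at this ⊢; linarith
    have h13 : κ * κ * (E0 * u) ≤ 0.09 * (E0 * u) :=
      mul_le_mul_of_nonneg_right h12 (mul_nonneg ((Real.exp_pos _).le.trans hez') hu0)
    rw [h10]
    linarith
  have h14 : c * -τ ≤ u - u ^ 3 / 4 := by
    have h15 : c * ((1 - z0) * -τ) ≤ c * (((1 - z0) + 0.09 * E0) * u) := mul_le_mul_of_nonneg_left h9 hc0
    have h16 := mul_le_mul_of_nonneg_right hc hu0
    have h17 : (1 - z0) * (c * -τ) ≤ (1 - z0) * ((1 - U ^ 2 / 4) * u) := by linarith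
    have h18 : c * -τ ≤ (1 - U ^ 2 / 4) * u := le_of_mul_le_mul_left h17 (by linarith)
    have h19 : u * u ^ 2 ≤ u * U ^ 2 := mul_le_mul_of_nonneg_left (pow_le_pow_left₀ hu0 huU 2) hu0
    linarith
  have h20 : Real.sin u ≤ Real.exp z * Real.sin u := le_mul_of_one_le_left hsin0 hez
  rw [hsp1]
  linarith

/-! ### sharper sizes -/

theorem ks_upR {β r h t t' : ℝ} {k : ℤ} (hβ : 0 < β) (hr : 10 ≤ r) (hκ : β * r ≤ 0.3) (ht : t' = t + (k - 1) * h)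
    (h1 : -(Real.pi / 2) < t') (h2 : t' < Real.pi / 2) (h0 : 0 ≤ t' + β * r) :
    ‖Xf β r h t k‖ ≤ 1.1267 * Real.exp (r * sE (β * r) t') := by
  have hb := ks_beta hβ hr hκ
  have hd := ks_dom (κ := β * r) (by positivity) h1 h2
  have hH := HH_small hβ (by linarith) hκ h1 h2
  exact v5_Jup hβ rfl ht hd (4.22 * 0.03) 1 1.1267 (hH.trans (by nlinarith)) (ks_sD_r hd hκ h0).1 (by norm_num)
    (by norm_num)

theorem ks_upD {β r h t t' : ℝ} {k : ℤ} (D u : ℝ) (hβ : 0 < β) (hr : 10 ≤ r) (hκ : β * r ≤ 0.3)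
    (ht : t' = t + (k - 1) * h) (h1 : -(Real.pi / 2) < t') (h2 : t' < Real.pi / 2) (hD : D ≤ sD (β * r) t')
    (hu0 : 0 ≤ u) (hu : 1.611 ≤ u ^ 4 * D) : ‖Xf β r h t k‖ ≤ u * Real.exp (r * sE (β * r) t') := by
  have hb := ks_beta hβ hr hκ
  have hd := ks_dom (κ := β * r) (by positivity) h1 h2
  have hH := HH_small hβ (by linarith) hκ h1 h2
  exact v5_Jup hβ rfl ht hd (4.22 * 0.03) D u (hH.trans (by nlinarith)) hD hu0
    (le_trans (by norm_num) hu)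

theorem ks_loD {β r h t t' : ℝ} {k : ℤ} (D ℓ : ℝ) (hβ : 0 < β) (hr : 10 ≤ r) (hκ : β * r ≤ 0.3)
    (ht : t' = t + (k - 1) * h) (h1 : -(Real.pi / 2) < t') (h2 : t' < Real.pi / 2) (hD : sD (β * r) t' ≤ D)
    (hl : ℓ ^ 4 * D ≤ 0.5819) : ℓ * Real.exp (r * sE (β * r) t') ≤ ‖Xf β r h t k‖ := by
  have hb := ks_beta hβ hr hκ
  have hd := ks_dom (κ := β * r) (by positivity) h1 h2
  have hH := HH_small hβ (by linarith) hκ h1 h2
  exact v5_Jlo hβ rfl ht hd (4.22 * 0.03) D ℓ (by norm_num) (hH.trans (by nlinarith)) hD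
    (le_trans hl (by norm_num))

/-- left side: `sD ≤ 1 + ρ0²` -/
theorem ks_sD_l {κ t : ℝ} (ρ0 : ℝ) (h : DomR κ t) (h0 : t + κ ≤ 0) (hρ : κ * Real.exp (-sy κ t) ≤ ρ0) :
    sD κ t ≤ 1 + ρ0 ^ 2 := by
  have hk := h.1
  have hy0 := sy_nonpos h h0
  rw [sD_eq5 h]
  have h1 : 0 ≤ κ * Real.exp (-sy κ t) := mul_nonneg hk.le (Real.exp_pos _).le
  have h2 : (κ * Real.exp (-sy κ t)) ^ 2 ≤ ρ0 ^ 2 := pow_le_pow_left₀ h1 hρ 2
  linarith

/-- a copy relative to a reference size `Y ≥ ℓ exp (r V)` -/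
theorem ks_farL {β r h t t' : ℝ} {k : ℤ} (hβ : 0 < β) (hr : 10 ≤ r) (hκ : β * r ≤ 0.3) (ht : t' = t + (k - 1) * h)
    {V Y : ℝ} (ℓ δ q e : ℝ) (hℓ : 0 < ℓ) (hY : ℓ * Real.exp (r * V) ≤ Y) (h1 : -(3 * Real.pi / 2) ≤ t')
    (h2 : t' ≤ 3 * Real.pi / 2) (hR : -(Real.pi / 2) < t' → t' < Real.pi / 2 → sE (β * r) t' ≤ V - δ)
    (hL : δ ≤ V) (hδ : 0 ≤ δ) (hq : Real.exp (-(10 * δ)) ≤ q) (he : 1.6 * q ≤ e * ℓ) :
    ‖Xf β r h t k‖ ≤ e * Y := by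
  have hq0 : 0 < q := (Real.exp_pos _).trans_le hq
  by_cases h3 : t' ≤ -(Real.pi / 2) ∨ Real.pi / 2 ≤ t'
  · have h4 := ks_left hβ hr hκ ht h1 h2 h3
    have h5 := v5_term (r := r) (c := 1.6) (E := 0) (V := V) (ℓ := ℓ) (Y := Y) (e := e) q δ hr (by norm_num) hY hδ
      (by linarith) hq hℓ he
    rw [mul_zero, Real.exp_zero, mul_one] at h5
    norm_num at h5 ⊢
    linarith
  · push Not at h3
    refine (ks_up hβ hr hκ ht h3.1 h3.2).trans ?_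
    exact v5_term (r := r) (c := 1.578) (V := V) (ℓ := ℓ) (Y := Y) (e := e) q δ hr (by norm_num) hY hδ
      (hR h3.1 h3.2) hq hℓ (le_trans (by nlinarith) he)

end Sok
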