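import Pool.Agent.Lib.MP_816dec_an.R1Near

/-!
MP_816dec_an (A3, row R1, `b ≥ 9`): second difference of the exponent at `k = 1` (boxes in `κ`).
-/

set_option autoImplicit false

open Set Filter Topology Real

namespace Sok

theorem N2_A {b : ℕ} {h κ R t : ℝ} (H : DP b h κ R t) (hh : h ≤ 0.6982) (hh2 : 0.6283 ≤ h) :
    sE κ (t + h) + sE κ (t - h) - 2 * sE κ t ≤ -(0.59 * (h ^ 2 / (1 + κ ^ 2))) := by
  obtain ⟨s, hs, hlo, hhi, hs1, hs2⟩ := H.exists_s
  obtain ⟨hd0, hd1, hd2⟩ := H.dom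
  have hk0 := H.k0
  have hp := H.hpos
  have hk15 := H.k1
  have hsh : 0 ≤ s * h := mul_nonneg (by linarith) hp.le
  have es1 : (1 - s) * h = h - s * h := by ring
  have es2 : (1 + s) * h = h + s * h := by ring
  have h0 : sE κ (t - h) ≤ 1 - 0.466 * (t - h + κ) ^ 2 / (1 + κ ^ 2) := by
    refine VL_00_06 hd0 (by linarith) ?_ ?_
    · have : (1 - s) * h ≥ 0 := mul_nonneg (by linarith) hp.le
      linarith
    · have : (1 - s) * h ≤ 0.7695 * 0.6982 := mul_le_mul (by linarith) (hh.trans (by norm_num)) hp.le (by norm_num)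
      linarith
  have hlow : 1 - (1 / 2 - 0) * (t + κ) ^ 2 / (1 + κ ^ 2) ≤ sE κ t := by
    have h1 := low_quad hd1 (by nlinarith) (by linarith) t
    have e : (1 / 2 - 0) * (t + κ) ^ 2 / (1 + κ ^ 2) = (t + κ) ^ 2 / (2 * (1 + κ ^ 2)) := by
      field_simp
      ring
    rw [e]
    simpa using h1
  have hτ2 : 0 ≤ t + h + κ := by linarith
  rcases le_total κ 0.27 with b1 | a1
  · have hsg : sgm κ ≤ 0.1042 := sgm_le hk0.le b1 (by norm_num) (by norm_num)
    have htm : t + h + κ ≤ 1.1899 := by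
      have : (1 + s) * h ≤ 1.7042 * 0.6982 := mul_le_mul (by linarith) hh hp.le (by norm_num)
      linarith
    have hV := VR24_box hd2 0.567 0.3611 0 (0.27 / (1 + 0.27 ^ 2)) 1.1899 _ _ _ _ hτ2 htm hk0.le (psi_lo hk0.le b1 (by norm_num)) (by norm_num) (by norm_num)
      rfl rfl (by norm_num) rfl (by norm_num) rfl (by norm_num) (by norm_num)
    exact N2_core' hs hV h0 hlow hs1 (show s ≤ 0.7042 by linarith) (by norm_num) (by norm_num) (by norm_num)
  rcases le_total κ 0.42 with b2 | a2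
  · have hsg : sgm κ ≤ 0.1097 := sgm_le hk0.le b2 (by norm_num) (by norm_num)
    have htm : t + h + κ ≤ 1.1938 := by
      have : (1 + s) * h ≤ 1.7097 * 0.6982 := mul_le_mul (by linarith) hh hp.le (by norm_num)
      linarith
    have hV := VR24_box hd2 0.564 0.3494 0.27 (0.42 / (1 + 0.42 ^ 2)) 1.1938 _ _ _ _ hτ2 htm a1 (psi_lo hk0.le b2 (by norm_num)) (by norm_num) (by norm_num)
      rfl rfl (by norm_num) rfl (by norm_num) rfl (by norm_num) (by norm_num)
    rcases le_total s 0.62 with c1 | c1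
    · exact N2_core' hs hV h0 hlow hs1 c1 (by norm_num) (by norm_num) (by norm_num)
    · have hz : 0.1144 * (1 + κ ^ 2) ^ 2 ≤ κ * (1 / 2 - κ ^ 2 / 6) :=
        zlow_box (by norm_num) a1 b2 (by norm_num) (by norm_num) (by norm_num) (by norm_num)
      have hsh2 : 0.62 * 0.6283 ≤ s * h := mul_le_mul c1 hh2 (by norm_num) (by linarith)
      have hz2 : 0.04456 * (1 + κ ^ 2) ^ 2 ≤ κ * (1 / 2 - κ ^ 2 / 6) * (t + κ) := by
        rw [hs]
        have hD : 0 < (1 + κ ^ 2) ^ 2 := by positivity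
        have h5 : 0.1144 * (1 + κ ^ 2) ^ 2 * (0.62 * 0.6283) ≤ κ * (1 / 2 - κ ^ 2 / 6) * (s * h) :=
          mul_le_mul hz hsh2 (by norm_num) (le_trans (by positivity) hz)
        have h6 := mul_le_mul_of_nonneg_right (show (0.04456 : ℝ) ≤ 0.1144 * (0.62 * 0.6283) by norm_num) hD.le
        linarith
      have hV1 := V1_low hd1 (by linarith) hk15 (z := 0.04456) (by norm_num) hz2 (by
        have : s * h ≤ 0.7895 * 0.6982 := mul_le_mul hs2 (hh.trans (by norm_num)) hp.le (by norm_num)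
        linarith)
      exact N2_core' hs hV h0 hV1 c1 (show s ≤ 0.7097 by linarith) (by norm_num) (by norm_num) (by norm_num)
  rcases le_total κ 0.55 with b3 | a3
  · have hsg : sgm κ ≤ 0.1161 := sgm_le hk0.le b3 (by norm_num) (by norm_num)
    have htm : t + h + κ ≤ 1.1982 := by
      have : (1 + s) * h ≤ 1.7161 * 0.6982 := mul_le_mul (by linarith) hh hp.le (by norm_num)
      linarith
    have hV := VR24_box hd2 0.581 0.3478 0.42 (0.55 / (1 + 0.55 ^ 2)) 1.1982 _ _ _ _ hτ2 htm a2 (psi_lo hk0.le b3 (by norm_num)) (by norm_num) (by norm_num)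
      rfl rfl (by norm_num) rfl (by norm_num) rfl (by norm_num) (by norm_num)
    rcases le_total s 0.62 with c1 | c1
    · exact N2_core' hs hV h0 hlow hs1 c1 (by norm_num) (by norm_num) (by norm_num)
    · have hz : 0.1428 * (1 + κ ^ 2) ^ 2 ≤ κ * (1 / 2 - κ ^ 2 / 6) :=
        zlow_box (by norm_num) a2 b3 (by norm_num) (by norm_num) (by norm_num) (by norm_num)
      have hsh2 : 0.62 * 0.6283 ≤ s * h := mul_le_mul c1 hh2 (by norm_num) (by linarith)
      have hz2 : 0.05562 * (1 + κ ^ 2) ^ 2 ≤ κ * (1 / 2 - κ ^ 2 / 6) * (t + κ) := by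
        rw [hs]
        have hD : 0 < (1 + κ ^ 2) ^ 2 := by positivity
        have h5 : 0.1428 * (1 + κ ^ 2) ^ 2 * (0.62 * 0.6283) ≤ κ * (1 / 2 - κ ^ 2 / 6) * (s * h) :=
          mul_le_mul hz hsh2 (by norm_num) (le_trans (by positivity) hz)
        have h6 := mul_le_mul_of_nonneg_right (show (0.05562 : ℝ) ≤ 0.1428 * (0.62 * 0.6283) by norm_num) hD.le
        linarith
      have hV1 := V1_low hd1 (by linarith) hk15 (z := 0.05562) (by norm_num) hz2 (by
        have : s * h ≤ 0.7895 * 0.6982 := mul_le_mul hs2 (hh.trans (by norm_num)) hp.le (by norm_num)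
        linarith)
      exact N2_core' hs hV h0 hV1 c1 (show s ≤ 0.7161 by linarith) (by norm_num) (by norm_num) (by norm_num)
  rcases le_total κ 0.7 with b4 | a4
  · have hsg : sgm κ ≤ 0.1251 := sgm_le hk0.le b4 (by norm_num) (by norm_num)
    have htm : t + h + κ ≤ 1.2045 := by
      have : (1 + s) * h ≤ 1.7251 * 0.6982 := mul_le_mul (by linarith) hh hp.le (by norm_num)
      linarith
    have hV := VR24_box hd2 0.588 0.3496 0.55 (0.7 / (1 + 0.7 ^ 2)) 1.2045 _ _ _ _ hτ2 htm a3 (psi_lo hk0.le b4 (by norm_num)) (by norm_num) (by norm_num)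
      rfl rfl (by norm_num) rfl (by norm_num) rfl (by norm_num) (by norm_num)
    rcases le_total s 0.62 with c1 | c1
    · exact N2_core' hs hV h0 hlow hs1 c1 (by norm_num) (by norm_num) (by norm_num)
    · have hz : 0.1318 * (1 + κ ^ 2) ^ 2 ≤ κ * (1 / 2 - κ ^ 2 / 6) :=
        zlow_box (by norm_num) a3 b4 (by norm_num) (by norm_num) (by norm_num) (by norm_num)
      have hsh2 : 0.62 * 0.6283 ≤ s * h := mul_le_mul c1 hh2 (by norm_num) (by linarith)
      have hz2 : 0.05134 * (1 + κ ^ 2) ^ 2 ≤ κ * (1 / 2 - κ ^ 2 / 6) * (t + κ) := by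
        rw [hs]
        have hD : 0 < (1 + κ ^ 2) ^ 2 := by positivity
        have h5 : 0.1318 * (1 + κ ^ 2) ^ 2 * (0.62 * 0.6283) ≤ κ * (1 / 2 - κ ^ 2 / 6) * (s * h) :=
          mul_le_mul hz hsh2 (by norm_num) (le_trans (by positivity) hz)
        have h6 := mul_le_mul_of_nonneg_right (show (0.05134 : ℝ) ≤ 0.1318 * (0.62 * 0.6283) by norm_num) hD.le
        linarith
      have hV1 := V1_low hd1 (by linarith) hk15 (z := 0.05134) (by norm_num) hz2 (by
        have : s * h ≤ 0.7895 * 0.6982 := mul_le_mul hs2 (hh.trans (by norm_num)) hp.le (by norm_num)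
        linarith)
      exact N2_core' hs hV h0 hV1 c1 (show s ≤ 0.7251 by linarith) (by norm_num) (by norm_num) (by norm_num)
  rcases le_total κ 1.0 with b5 | a5
  · have hsg : sgm κ ≤ 0.1467 := sgm_le hk0.le b5 (by norm_num) (by norm_num)
    have htm : t + h + κ ≤ 1.2196 := by
      have : (1 + s) * h ≤ 1.7467 * 0.6982 := mul_le_mul (by linarith) hh hp.le (by norm_num)
      linarith
    have hV := VR24_box hd2 0.605 0.3563 0.7 (1.0 / (1 + 1.0 ^ 2)) 1.2196 _ _ _ _ hτ2 htm a4 (psi_lo hk0.le b5 (by norm_num)) (by norm_num) (by norm_num)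
      rfl rfl (by norm_num) rfl (by norm_num) rfl (by norm_num) (by norm_num)
    rcases le_total s 0.62 with c1 | c1
    · exact N2_core' hs hV h0 hlow hs1 c1 (by norm_num) (by norm_num) (by norm_num)
    · have hz : 0.0833 * (1 + κ ^ 2) ^ 2 ≤ κ * (1 / 2 - κ ^ 2 / 6) :=
        zlow_box (by norm_num) a4 b5 (by norm_num) (by norm_num) (by norm_num) (by norm_num)
      have hsh2 : 0.62 * 0.6283 ≤ s * h := mul_le_mul c1 hh2 (by norm_num) (by linarith)
      have hz2 : 0.03244 * (1 + κ ^ 2) ^ 2 ≤ κ * (1 / 2 - κ ^ 2 / 6) * (t + κ) := by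
        rw [hs]
        have hD : 0 < (1 + κ ^ 2) ^ 2 := by positivity
        have h5 : 0.0833 * (1 + κ ^ 2) ^ 2 * (0.62 * 0.6283) ≤ κ * (1 / 2 - κ ^ 2 / 6) * (s * h) :=
          mul_le_mul hz hsh2 (by norm_num) (le_trans (by positivity) hz)
        have h6 := mul_le_mul_of_nonneg_right (show (0.03244 : ℝ) ≤ 0.0833 * (0.62 * 0.6283) by norm_num) hD.le
        linarith
      have hV1 := V1_low hd1 (by linarith) hk15 (z := 0.03244) (by norm_num) hz2 (by
        have : s * h ≤ 0.7895 * 0.6982 := mul_le_mul hs2 (hh.trans (by norm_num)) hp.le (by norm_num)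
        linarith)
      exact N2_core' hs hV h0 hV1 c1 (show s ≤ 0.7467 by linarith) (by norm_num) (by norm_num) (by norm_num)
  have hsg : sgm κ ≤ 0.1895 := sgm_le hk0.le hk15 (by norm_num) (by norm_num)
  have htm : t + h + κ ≤ 1.2495 := by
    have : (1 + s) * h ≤ 1.7895 * 0.6982 := mul_le_mul (by linarith) hh hp.le (by norm_num)
    linarith
  have hV := VR24_box hd2 0.662 0.3795 1.0 (1.0 / (1 + 1.0 ^ 2)) 1.2495 _ _ _ _ hτ2 htm a5 (psi_hi a5 (by norm_num)) (by norm_num) (by norm_num)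
    rfl rfl (by norm_num) rfl (by norm_num) rfl (by norm_num) (by norm_num)
  exact N2_core' hs hV h0 hlow hs1 (show s ≤ 0.7895 by linarith) (by norm_num) (by norm_num) (by norm_num)

theorem N2_B {b : ℕ} {h κ R t : ℝ} (H : DP b h κ R t) (hh : h ≤ 0.5712) :
    sE κ (t + h) + sE κ (t - h) - 2 * sE κ t ≤ -(0.59 * (h ^ 2 / (1 + κ ^ 2))) := by
  obtain ⟨s, hs, hlo, hhi, hs1, hs2⟩ := H.exists_s
  obtain ⟨hd0, hd1, hd2⟩ := H.dom
  have hk0 := H.k0
  have hp := H.hpos
  have hk15 := H.k1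
  have hsh : 0 ≤ s * h := mul_nonneg (by linarith) hp.le
  have es1 : (1 - s) * h = h - s * h := by ring
  have es2 : (1 + s) * h = h + s * h := by ring
  have h0 : sE κ (t - h) ≤ 1 - 0.466 * (t - h + κ) ^ 2 / (1 + κ ^ 2) := by
    refine VL_00_06 hd0 (by linarith) ?_ ?_
    · have : (1 - s) * h ≥ 0 := mul_nonneg (by linarith) hp.le
      linarith
    · have : (1 - s) * h ≤ 0.7695 * 0.6982 := mul_le_mul (by linarith) (hh.trans (by norm_num)) hp.le (by norm_num)
      linarith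
  have hlow : 1 - (1 / 2 - 0) * (t + κ) ^ 2 / (1 + κ ^ 2) ≤ sE κ t := by
    have h1 := low_quad hd1 (by nlinarith) (by linarith) t
    have e : (1 / 2 - 0) * (t + κ) ^ 2 / (1 + κ ^ 2) = (t + κ) ^ 2 / (2 * (1 + κ ^ 2)) := by
      field_simp
      ring
    rw [e]
    simpa using h1
  have hτ2 : 0 ≤ t + h + κ := by linarith
  rcases le_total κ 0.45 with b1 | a1
  · have hsg : sgm κ ≤ 0.1111 := sgm_le hk0.le b1 (by norm_num) (by norm_num)
    have htm : t + h + κ ≤ 0.9774 := by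
      have : (1 + s) * h ≤ 1.7111 * 0.5712 := mul_le_mul (by linarith) hh hp.le (by norm_num)
      linarith
    have hV := VR24_box hd2 0.615 0.3618 0 (0.45 / (1 + 0.45 ^ 2)) 0.9774 _ _ _ _ hτ2 htm hk0.le (psi_lo hk0.le b1 (by norm_num)) (by norm_num) (by norm_num)
      rfl rfl (by norm_num) rfl (by norm_num) rfl (by norm_num) (by norm_num)
    exact N2_core' hs hV h0 hlow hs1 (show s ≤ 0.7111 by linarith) (by norm_num) (by norm_num) (by norm_num)
  rcases le_total κ 0.7 with b2 | a2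
  · have hsg : sgm κ ≤ 0.1251 := sgm_le hk0.le b2 (by norm_num) (by norm_num)
    have htm : t + h + κ ≤ 0.9854 := by
      have : (1 + s) * h ≤ 1.7251 * 0.5712 := mul_le_mul (by linarith) hh hp.le (by norm_num)
      linarith
    have hV := VR24_box hd2 0.624 0.3634 0.45 (0.7 / (1 + 0.7 ^ 2)) 0.9854 _ _ _ _ hτ2 htm a1 (psi_lo hk0.le b2 (by norm_num)) (by norm_num) (by norm_num)
      rfl rfl (by norm_num) rfl (by norm_num) rfl (by norm_num) (by norm_num)
    exact N2_core' hs hV h0 hlow hs1 (show s ≤ 0.7251 by linarith) (by norm_num) (by norm_num) (by norm_num)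
  have hsg : sgm κ ≤ 0.1895 := sgm_le hk0.le hk15 (by norm_num) (by norm_num)
  have htm : t + h + κ ≤ 1.0222 := by
    have : (1 + s) * h ≤ 1.7895 * 0.5712 := mul_le_mul (by linarith) hh hp.le (by norm_num)
    linarith
  have hV := VR24_box hd2 0.652 0.3744 0.7 (1 / 2) 1.0222 _ _ _ _ hτ2 htm a2 psi_half (by norm_num) (by norm_num)
    rfl rfl (by norm_num) rfl (by norm_num) rfl (by norm_num) (by norm_num)
  exact N2_core' hs hV h0 hlow hs1 (show s ≤ 0.7895 by linarith) (by norm_num) (by norm_num) (by norm_num)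

/-- **second difference at `k = 1`** -/
theorem DP.N2 {b : ℕ} {h κ R t : ℝ} (H : DP b h κ R t) :
    sE κ (t + h) + sE κ (t - h) - 2 * sE κ t ≤ -(0.59 * (h ^ 2 / (1 + κ ^ 2))) := by
  rcases Nat.lt_or_ge 10 b with h1 | h1
  · exact N2_B H (h_le11 h1 H.hh)
  · exact N2_A H (h_le9 H.hb H.hh) (h_ge10 H.hb h1 H.hh)

end Sok
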