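import Pool.Agent.Lib.MP_816dec_an.R1K2
import Pool.Agent.Lib.MP_816dec_an.R1BSmall
import Pool.Agent.Lib.MP_816dec_an.R1Exp2

/-!
MP_816dec_an (A3, row R1, `b ≥ 9`, `κ ≤ 0.29`): normal forms of the copies.
-/

set_option autoImplicit false

open Complex Set Filter Topology Metric

namespace Sok

private theorem q4S {x : ℝ} (hx : 0 ≤ x) : Real.sqrt (Real.sqrt x) ^ 4 = x := by
  rw [show Real.sqrt (Real.sqrt x) ^ 4 = (Real.sqrt (Real.sqrt x) ^ 2) ^ 2 by ring,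
    Real.sq_sqrt (Real.sqrt_nonneg _), Real.sq_sqrt hx]

private theorem le_of_pow4S {a b : ℝ} (hb : 0 ≤ b) (h : a ^ 4 ≤ b ^ 4) : a ≤ b := by
  by_contra hlt
  exact absurd h (not_le.2 (pow_lt_pow_left₀ (not_le.1 hlt) hb (by norm_num)))

private theorem exp4S (m : ℝ) : Real.exp m ^ 4 = Real.exp (4 * m) := by
  rw [← Real.exp_nat_mul]
  norm_num

/-- upper normal form of `g sQ` -/
theorem sQ_le_eN {β κ R t : ℝ} (hR : κ / β = R) (hR0 : 0 ≤ R) (hD : DomR κ t) {c d m g : ℝ} (hg : 0 ≤ g)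
    (hc : sE κ t ≤ 1 - c * (t + κ) ^ 2 / (1 + κ ^ 2)) (hd0 : 0 < d) (hd : d * (1 + κ ^ 2) ≤ sD κ t)
    (hm : g ^ 4 ≤ d * (1 + 4 * m + (4 * m) ^ 2 / 2 + (4 * m) ^ 3 / 6)) :
    g * sQ β κ t ≤ eN R κ * Real.exp (m - R / (1 + κ ^ 2) * (c * (t + κ) ^ 2)) := by
  have hA : 0 < 1 + κ ^ 2 := by positivity
  have hs := sD_pos hD
  have hS : 0 < Real.sqrt (Real.sqrt (sD κ t)) := Real.sqrt_pos.2 (Real.sqrt_pos.2 hs)
  have hS1 : 0 < Real.sqrt (Real.sqrt (1 + κ ^ 2)) := Real.sqrt_pos.2 (Real.sqrt_pos.2 hA)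
  have key : g * Real.sqrt (Real.sqrt (1 + κ ^ 2)) ≤ Real.exp m * Real.sqrt (Real.sqrt (sD κ t)) := by
    apply le_of_pow4S (by positivity)
    rw [mul_pow g, mul_pow (Real.exp m), q4S hA.le, q4S hs.le, exp4S]
    have h2 := r1_exp_ge3 (4 * m)
    have h3 : d * (1 + 4 * m + (4 * m) ^ 2 / 2 + (4 * m) ^ 3 / 6) ≤ d * Real.exp (4 * m) :=
      mul_le_mul_of_nonneg_left h2 hd0.le
    have h4 := mul_le_mul_of_nonneg_right (hm.trans h3) hA.le
    have h5 := mul_le_mul_of_nonneg_left hd (Real.exp_pos (4 * m)).le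
    linarith
  have hE : Real.exp (κ / β * sE κ t) ≤ Real.exp R * Real.exp (-(R / (1 + κ ^ 2) * (c * (t + κ) ^ 2))) := by
    rw [← Real.exp_add, hR]
    apply Real.exp_le_exp.2
    have h5 := mul_le_mul_of_nonneg_left hc hR0
    have e2 : R * (1 - c * (t + κ) ^ 2 / (1 + κ ^ 2)) = R + -(R / (1 + κ ^ 2) * (c * (t + κ) ^ 2)) := by ring
    linarith
  unfold sQ eN
  have h7 : g * (Real.exp (κ / β * sE κ t) / Real.sqrt (Real.sqrt (sD κ t))) ≤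
      g * (Real.exp R * Real.exp (-(R / (1 + κ ^ 2) * (c * (t + κ) ^ 2))) / Real.sqrt (Real.sqrt (sD κ t))) :=
    mul_le_mul_of_nonneg_left (div_le_div_of_nonneg_right hE hS.le) hg
  refine h7.trans ?_
  rw [sub_eq_add_neg, Real.exp_add]
  have e3 : g * (Real.exp R * Real.exp (-(R / (1 + κ ^ 2) * (c * (t + κ) ^ 2))) / Real.sqrt (Real.sqrt (sD κ t))) =
      (g / Real.sqrt (Real.sqrt (sD κ t))) * (Real.exp R * Real.exp (-(R / (1 + κ ^ 2) * (c * (t + κ) ^ 2)))) := by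
    ring
  have e4 : Real.exp R / Real.sqrt (Real.sqrt (1 + κ ^ 2)) * (Real.exp m *
      Real.exp (-(R / (1 + κ ^ 2) * (c * (t + κ) ^ 2)))) =
      (Real.exp m / Real.sqrt (Real.sqrt (1 + κ ^ 2))) * (Real.exp R *
        Real.exp (-(R / (1 + κ ^ 2) * (c * (t + κ) ^ 2)))) := by ring
  rw [e3, e4]
  apply mul_le_mul_of_nonneg_right _ (by positivity)
  rw [div_le_div_iff₀ hS hS1]
  exact key

/-- lower normal form of `g sQ` -/
theorem eN_le_sQ {β κ R t : ℝ} (hR : κ / β = R) (hR0 : 0 ≤ R) (hD : DomR κ t) {c d m g : ℝ} (hg : 0 ≤ g)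
    (hc : 1 - c * (t + κ) ^ 2 / (1 + κ ^ 2) ≤ sE κ t) (hd : sD κ t ≤ d * (1 + κ ^ 2))
    (hm : d ≤ g ^ 4 * (1 + 4 * m + (4 * m) ^ 2 / 2 + (4 * m) ^ 3 / 6)) :
    eN R κ * Real.exp (-m - R / (1 + κ ^ 2) * (c * (t + κ) ^ 2)) ≤ g * sQ β κ t := by
  have hA : 0 < 1 + κ ^ 2 := by positivity
  have hs := sD_pos hD
  have hS : 0 < Real.sqrt (Real.sqrt (sD κ t)) := Real.sqrt_pos.2 (Real.sqrt_pos.2 hs)
  have hS1 : 0 < Real.sqrt (Real.sqrt (1 + κ ^ 2)) := Real.sqrt_pos.2 (Real.sqrt_pos.2 hA)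
  have key : Real.exp (-m) * Real.sqrt (Real.sqrt (sD κ t)) ≤ g * Real.sqrt (Real.sqrt (1 + κ ^ 2)) := by
    apply le_of_pow4S (by positivity)
    rw [mul_pow (Real.exp (-m)), mul_pow g, q4S hA.le, q4S hs.le, exp4S]
    have h2 := r1_exp_ge3 (4 * m)
    have h3 : g ^ 4 * (1 + 4 * m + (4 * m) ^ 2 / 2 + (4 * m) ^ 3 / 6) ≤ g ^ 4 * Real.exp (4 * m) :=
      mul_le_mul_of_nonneg_left h2 (by positivity)
    have h4 := hm.trans h3
    have h5 := mul_le_mul_of_nonneg_right h4 hA.le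
    have h6 : Real.exp (4 * -m) * Real.exp (4 * m) = 1 := by
      rw [← Real.exp_add]
      simp
    have h8 := mul_le_mul_of_nonneg_left (hd.trans h5) (Real.exp_pos (4 * -m)).le
    calc Real.exp (4 * -m) * sD κ t ≤ Real.exp (4 * -m) * (g ^ 4 * Real.exp (4 * m) * (1 + κ ^ 2)) := h8
      _ = (Real.exp (4 * -m) * Real.exp (4 * m)) * (g ^ 4 * (1 + κ ^ 2)) := by ring
      _ = g ^ 4 * (1 + κ ^ 2) := by rw [h6, one_mul]
  have hE : Real.exp R * Real.exp (-(R / (1 + κ ^ 2) * (c * (t + κ) ^ 2))) ≤ Real.exp (κ / β * sE κ t) := by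
    rw [← Real.exp_add, hR]
    apply Real.exp_le_exp.2
    have h5 := mul_le_mul_of_nonneg_left hc hR0
    have e2 : R * (1 - c * (t + κ) ^ 2 / (1 + κ ^ 2)) = R + -(R / (1 + κ ^ 2) * (c * (t + κ) ^ 2)) := by ring
    linarith
  unfold sQ eN
  have h7 : g * (Real.exp R * Real.exp (-(R / (1 + κ ^ 2) * (c * (t + κ) ^ 2))) / Real.sqrt (Real.sqrt (sD κ t))) ≤
      g * (Real.exp (κ / β * sE κ t) / Real.sqrt (Real.sqrt (sD κ t))) :=
    mul_le_mul_of_nonneg_left (div_le_div_of_nonneg_right hE hS.le) hg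
  refine le_trans ?_ h7
  rw [sub_eq_add_neg, Real.exp_add]
  have e3 : g * (Real.exp R * Real.exp (-(R / (1 + κ ^ 2) * (c * (t + κ) ^ 2))) / Real.sqrt (Real.sqrt (sD κ t))) =
      (g / Real.sqrt (Real.sqrt (sD κ t))) * (Real.exp R * Real.exp (-(R / (1 + κ ^ 2) * (c * (t + κ) ^ 2)))) := by
    ring
  have e4 : Real.exp R / Real.sqrt (Real.sqrt (1 + κ ^ 2)) * (Real.exp (-m) *
      Real.exp (-(R / (1 + κ ^ 2) * (c * (t + κ) ^ 2)))) =
      (Real.exp (-m) / Real.sqrt (Real.sqrt (1 + κ ^ 2))) * (Real.exp R *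
        Real.exp (-(R / (1 + κ ^ 2) * (c * (t + κ) ^ 2)))) := by ring
  rw [e3, e4]
  apply mul_le_mul_of_nonneg_right _ (by positivity)
  rw [div_le_div_iff₀ hS1 hS]
  exact key

/-- `‖σ‖ ≤ n` if `κ ≤ n e⁻ⁿ` -/
theorem norm_sg_leS {κ t n : ℝ} (hd : DomR κ t) (hn : 0 < n) (hn1 : n < 1) (hk : κ ≤ n * Real.exp (-n))
    (h36 : κ ≤ 0.36) : ‖sg κ t‖ ≤ n ∧ -n ≤ sy κ t := by
  obtain ⟨hI, -⟩ := sy_spec hd
  have hk0 := hd.1
  have hsq := s_sq hd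
  have hke : ¬ (Real.exp (-1) < κ) := by
    have := Real.exp_neg_one_gt_d9
    intro h; linarith
  have hy1 : -1 < sy κ t := by
    rcases hI.2 with h | h
    · exact absurd h hke
    · exact h
  have hI1 := hI.1
  have hyn : -n ≤ sy κ t := by
    by_contra hcon
    push Not at hcon
    have h1 := mul_exp_neg_mono (s := n) (s' := -sy κ t) hn.le (by linarith) (by linarith)
    rw [neg_neg] at h1
    rw [abs_of_neg (by linarith)] at hI1
    linarith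
  refine ⟨?_, hyn⟩
  have h3 : ‖sg κ t‖ ^ 2 = sx κ t ^ 2 + sy κ t ^ 2 := by
    unfold sg
    rw [← Complex.normSq_eq_norm_sq, Complex.normSq_apply]
    simp
    ring
  have h4 : κ * Real.exp (-sy κ t) ≤ n := by
    have h5 : Real.exp (-sy κ t) ≤ Real.exp n := Real.exp_le_exp.2 (by linarith)
    have h6 : κ * Real.exp (-sy κ t) ≤ n * Real.exp (-n) * Real.exp n :=
      mul_le_mul hk h5 (Real.exp_pos _).le (by positivity)
    have h7 : n * Real.exp (-n) * Real.exp n = n := by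
      rw [mul_assoc, ← Real.exp_add, neg_add_cancel, Real.exp_zero, mul_one]
    linarith
  have e : κ ^ 2 * Real.exp (-2 * sy κ t) = (κ * Real.exp (-sy κ t)) ^ 2 := by
    rw [mul_pow, ← Real.exp_nat_mul]; congr 2; push_cast; ring
  rw [e] at hsq
  apply le_of_sq_le_sq _ hn.le
  rw [h3, hsq]
  exact pow_le_pow_left₀ (by positivity) h4 2

/-- lower bound of the denominator from `-n ≤ y` -/
theorem sD_ge_of_y {κ t n : ℝ} (hn1 : n < 1) (hy : -n ≤ sy κ t) : (1 - n) ^ 2 ≤ sD κ t := by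
  unfold sD
  have h1 : (1 - n) ^ 2 ≤ (1 + sy κ t) ^ 2 := pow_le_pow_left₀ (by linarith) (by linarith) 2
  nlinarith [sq_nonneg (sx κ t)]

/-- left of the peak and `κ ≤ 0.29`: `sD ≤ 1 + κ²` -/
theorem sD_le_left {κ t : ℝ} (hd : DomR κ t) (hκ : κ ≤ 0.29) (ht : t + κ ≤ 0) (hy : -0.46 ≤ sy κ t) :
    sD κ t ≤ 1 * (1 + κ ^ 2) := by
  have hE : Real.exp (2 * 0.46) ≤ 2.51 := by
    have h := Real.exp_bound' (x := 2 * 0.46) (by norm_num) (by norm_num) (n := 8) (by norm_num)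
    refine h.trans ?_
    norm_num [Finset.sum_range_succ, Nat.factorial]
  refine D0_hi hd 1 0.46 2.51 ht hy hE le_rfl ?_
  have := hd.1
  nlinarith

/-- data of the rows `κ ≤ 0.29` -/
structure SD (h κ R β : ℝ) : Prop where
  h0 : 0 < h
  h9 : h ≤ 0.6982
  k0 : 0 < κ
  k1 : κ ≤ 0.29
  R1 : 10.4 * (1 + κ ^ 2) ≤ R
  T1 : 5.07 * (1 + κ ^ 2) ≤ R * h ^ 2
  b0 : 0 < β
  b1 : β * R = κ
  b2 : κ / β = R

theorem SD.Rpos {h κ R β : ℝ} (S : SD h κ R β) : 0 < R := by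
  have := S.R1
  nlinarith [sq_nonneg κ]

theorem SD.b38 {h κ R β : ℝ} (S : SD h κ R β) : β ≤ 1 / 38 ∧ β ≤ 0.0258 ∧ 10.4 * β ≤ κ := by
  have h1 := S.R1
  have h2 := S.b0
  have h3 := S.b1
  have hk := S.k0
  have hk1 := S.k1
  have hR := S.Rpos
  have h4 : β * (10.4 * (1 + κ ^ 2)) ≤ κ := by
    rw [← h3] at hk hk1 ⊢
    rw [h3]
    calc β * (10.4 * (1 + κ ^ 2)) ≤ β * R := mul_le_mul_of_nonneg_left h1 h2.le
      _ = κ := h3
  have h5 : κ ≤ 0.0258 * (10.4 * (1 + κ ^ 2)) := by nlinarith [sq_nonneg (κ - 0.29)]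
  have h6 : β ≤ 0.0258 := by
    by_contra hcon
    push Not at hcon
    have : 0.0258 * (10.4 * (1 + κ ^ 2)) < β * (10.4 * (1 + κ ^ 2)) :=
      mul_lt_mul_of_pos_right hcon (by positivity)
    linarith
  refine ⟨by linarith, h6, ?_⟩
  nlinarith [sq_nonneg κ]

theorem DP.SD {b : ℕ} {h κ R t β : ℝ} (H : DP b h κ R t) (hκ : κ ≤ 0.29) (hβ : β = κ / R) : SD h κ R β := by
  obtain ⟨hb0, hb1, hb2⟩ := H.beta hβ
  have hp := H.hpos
  have hh := h_le9 H.hb H.hh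
  refine ⟨hp, hh, H.k0, hκ, ?_, H.T1, hb0, hb1, hb2⟩
  have hT := H.T1
  have hR := H.Rpos
  have h1 : h ^ 2 ≤ 0.6982 ^ 2 := pow_le_pow_left₀ hp.le hh 2
  have h2 := mul_le_mul_of_nonneg_left h1 hR.le
  have h3 : 0 ≤ κ ^ 2 := sq_nonneg κ
  nlinarith

end Sok
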