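import Pool.Agent.Lib.MP_816dec_an.R1S0

/-!
MP_816dec_an (A3, row R1, `b ≥ 9`, `κ ≤ 0.29`): normal forms, and the copy `-1` on the discs.
-/

set_option autoImplicit false

open Complex Set Filter Topology Metric

namespace Sok

theorem nexp46 : (0.29 : ℝ) ≤ 0.46 * Real.exp (-0.46) := by
  rw [Real.exp_neg, ← div_eq_mul_inv, le_div_iff₀ (Real.exp_pos _)]
  have h := Real.exp_bound' (x := 0.46) (by norm_num) (by norm_num) (n := 8) (by norm_num)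
  norm_num [Finset.sum_range_succ, Nat.factorial] at h
  linarith

theorem nexp26 : (0.2 : ℝ) ≤ 0.2592 * Real.exp (-0.2592) := by
  rw [Real.exp_neg, ← div_eq_mul_inv, le_div_iff₀ (Real.exp_pos _)]
  have h := Real.exp_bound' (x := 0.2592) (by norm_num) (by norm_num) (n := 8) (by norm_num)
  norm_num [Finset.sum_range_succ, Nat.factorial] at h
  linarith

theorem nexp11 : (0.1 : ℝ) ≤ 0.1119 * Real.exp (-0.1119) := by
  rw [Real.exp_neg, ← div_eq_mul_inv, le_div_iff₀ (Real.exp_pos _)]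
  have h := Real.exp_bound' (x := 0.1119) (by norm_num) (by norm_num) (n := 8) (by norm_num)
  norm_num [Finset.sum_range_succ, Nat.factorial] at h
  linarith

/-- right of the peak `‖σ‖ ≤ κ` -/
theorem norm_sg_right {κ t : ℝ} (hd : DomR κ t) (ht : 0 ≤ t + κ) : ‖sg κ t‖ ≤ κ := by
  have hk0 := hd.1
  have hsq := s_sq hd
  have hy := sy_nonneg hd ht
  have h3 : ‖sg κ t‖ ^ 2 = sx κ t ^ 2 + sy κ t ^ 2 := by
    unfold sg
    rw [← Complex.normSq_eq_norm_sq, Complex.normSq_apply]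
    simp
    ring
  apply le_of_sq_le_sq _ hk0.le
  rw [h3, hsq]
  have h4 : Real.exp (-2 * sy κ t) ≤ 1 := Real.exp_le_one_iff.2 (by linarith)
  nlinarith [sq_nonneg κ]

/-- the saddle estimate right of the peak -/
theorem SD.J_right {h κ R β t : ℝ} (S : SD h κ R β) (hd : DomR κ t) (ht : 0 ≤ t + κ) :
    ‖HH β (sg κ t) - 1‖ ≤ 0.0129 := by
  obtain ⟨b38, b2, -⟩ := S.b38
  have h1 := norm_sg_right hd ht
  have h2 : ‖sg κ t‖ ≤ 0.36 := by linarith [S.k1]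
  have h3 := J45_36 S.b0 b38 (x := sx κ t) (y := sy κ t) h2
  have h4 : ‖HH β (sg κ t) - 1‖ ≤ 0.5 * β := h3
  linarith

/-- the saddle estimate everywhere -/
theorem SD.J_all {h κ R β t : ℝ} (S : SD h κ R β) (hd : DomR κ t) : ‖HH β (sg κ t) - 1‖ ≤ 0.08 ∧ -0.46 ≤ sy κ t := by
  obtain ⟨b38, b2, -⟩ := S.b38
  obtain ⟨h1, h1'⟩ := norm_sg_leS (n := 0.46) hd (by norm_num) (by norm_num) (S.k1.trans nexp46) (by linarith [S.k1])
  have h3 := J45_49 S.b0 b38 (x := sx κ t) (y := sy κ t) (h1.trans (by norm_num))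
  have h4 : ‖HH β (sg κ t) - 1‖ ≤ 3.1 * β := h3
  exact ⟨by linarith, h1'⟩

theorem exp_neg_358 : Real.exp (-3.58) ≤ 0.028 := by
  rw [Real.exp_neg, inv_le_comm₀ (Real.exp_pos _) (by norm_num)]
  have h := Real.sum_le_exp_of_nonneg (x := 3.58) (by norm_num) 14
  refine le_trans ?_ h
  norm_num [Finset.sum_range_succ, Nat.factorial]

/-- lower bound of `sE` left of the peak, `κ ≤ 0.29` -/
theorem V0_low29 {κ t : ℝ} (hd : DomR κ t) (hκ : κ ≤ 0.29) (h0 : 0 ≤ -(t + κ)) (h1 : -(t + κ) ≤ 0.4785) :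
    1 - 0.585 * (t + κ) ^ 2 / (1 + κ ^ 2) ≤ sE κ t := by
  have hk := hd.1
  refine V0_lo hd 0.585 0.4785 0.125 0.0071 1 0.29 h0 h1 (by norm_num) ?_ ?_ ?_ ?_ (by norm_num) (by norm_num)
    (by norm_num) (by norm_num) (by norm_num)
  · have e : 0.125 * (1 + κ ^ 2) ^ 2 - κ * (1 / 2 - κ ^ 2 / 6) = 0.125 - κ / 2 + 0.25 * κ ^ 2 + κ ^ 3 / 6 + 0.125 * κ ^ 4 := by
      ring
    have h2 : 0 ≤ κ ^ 3 := by positivity
    have h3 : 0 ≤ κ ^ 4 := by positivity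
    nlinarith
  · have h2 : κ ^ 4 ≤ 0.29 ^ 4 := pow_le_pow_left₀ hk.le hκ 4
    have h3 : 1 ≤ (1 + κ ^ 2) ^ 3 := one_le_pow₀ (by nlinarith)
    nlinarith
  · have h3 : 1 ≤ (1 + κ ^ 2) ^ 3 := one_le_pow₀ (by nlinarith)
    linarith
  · nlinarith

theorem V0_low20 {κ t : ℝ} (hd : DomR κ t) (hκ : κ ≤ 0.2) (h0 : 0 ≤ -(t + κ)) (h1 : -(t + κ) ≤ 0.4785) :
    1 - 0.5676 * (t + κ) ^ 2 / (1 + κ ^ 2) ≤ sE κ t := by
  have hk := hd.1
  refine V0_lo hd 0.5676 0.4785 0.0925 0.0016 1 0.2 h0 h1 (by norm_num) ?_ ?_ ?_ ?_ (by norm_num) (by norm_num)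
    (by norm_num) (by norm_num) (by norm_num)
  · have e : 0.0925 * (1 + κ ^ 2) ^ 2 - κ * (1 / 2 - κ ^ 2 / 6) =
        0.0925 - κ / 2 + 0.185 * κ ^ 2 + κ ^ 3 / 6 + 0.0925 * κ ^ 4 := by
      ring
    have h2 : 0 ≤ κ ^ 3 := by positivity
    have h3 : 0 ≤ κ ^ 4 := by positivity
    nlinarith
  · have h2 : κ ^ 4 ≤ 0.2 ^ 4 := pow_le_pow_left₀ hk.le hκ 4
    have h3 : 1 ≤ (1 + κ ^ 2) ^ 3 := one_le_pow₀ (by nlinarith)
    nlinarith
  · have h3 : 1 ≤ (1 + κ ^ 2) ^ 3 := one_le_pow₀ (by nlinarith)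
    linarith
  · nlinarith

theorem V0_low10 {κ t : ℝ} (hd : DomR κ t) (hκ : κ ≤ 0.1) (h0 : 0 ≤ -(t + κ)) (h1 : -(t + κ) ≤ 0.4785) :
    1 - 0.5463 * (t + κ) ^ 2 / (1 + κ ^ 2) ≤ sE κ t := by
  have hk := hd.1
  refine V0_lo hd 0.5463 0.4785 0.05 0.0001 1 0.1 h0 h1 (by norm_num) ?_ ?_ ?_ ?_ (by norm_num) (by norm_num)
    (by norm_num) (by norm_num) (by norm_num)
  · have e : 0.05 * (1 + κ ^ 2) ^ 2 - κ * (1 / 2 - κ ^ 2 / 6) = 0.05 - κ / 2 + 0.1 * κ ^ 2 + κ ^ 3 / 6 + 0.05 * κ ^ 4 := by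
      ring
    have h2 : 0 ≤ κ ^ 3 := by positivity
    have h3 : 0 ≤ κ ^ 4 := by positivity
    nlinarith
  · have h2 : κ ^ 4 ≤ 0.1 ^ 4 := pow_le_pow_left₀ hk.le hκ 4
    have h3 : 1 ≤ (1 + κ ^ 2) ^ 3 := one_le_pow₀ (by nlinarith)
    nlinarith
  · have h3 : 1 ≤ (1 + κ ^ 2) ^ 3 := one_le_pow₀ (by nlinarith)
    linarith
  · nlinarith

/-- upper bounds of `sE` left of the peak, `-τ ≤ 1.18` -/
theorem VLs1 {κ t : ℝ} (h : DomR κ t) (hκ : κ ≤ 0.1) (h0 : 0 ≤ -(t + κ)) (h1 : -(t + κ) ≤ 1.18) :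
    sE κ t ≤ 1 - 0.429 * (t + κ) ^ 2 / (1 + κ ^ 2) := by
  have hk0 := h.1
  exact VL_box h 0.677 0.429 0 0.1 (0.1 / (1 + 0.1 ^ 2)) 0 1.18 _ _ _ _ h0 h1 hk0.le hκ
    (psi_lo hk0.le hκ (by norm_num)) (by norm_num) (by norm_num) (by norm_num)
    rfl rfl (by norm_num) rfl rfl (by norm_num) (by norm_num) (by norm_num)

theorem VLs2 {κ t : ℝ} (h : DomR κ t) (hκ1 : 0.1 ≤ κ) (hκ : κ ≤ 0.2) (h0 : 0 ≤ -(t + κ)) (h1 : -(t + κ) ≤ 1.18) :
    sE κ t ≤ 1 - 0.44 * (t + κ) ^ 2 / (1 + κ ^ 2) := by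
  have hk0 := h.1
  rcases le_total (-(t + κ)) 0.8 with b1 | a1
  · exact VL_box h 0.684 0.44 0.1 0.2 (0.2 / (1 + 0.2 ^ 2)) 0 0.8 _ _ _ _ h0 b1 hκ1 hκ
      (psi_lo hk0.le hκ (by norm_num)) (by norm_num) (by norm_num) (by norm_num)
      rfl rfl (by norm_num) rfl rfl (by norm_num) (by norm_num) (by norm_num)
  · exact VL_box h 0.684 0.44 0.1 0.2 (0.2 / (1 + 0.2 ^ 2)) 0.8 1.18 _ _ _ _ a1 h1 hκ1 hκ
      (psi_lo hk0.le hκ (by norm_num)) (by norm_num) (by norm_num) (by norm_num)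
      rfl rfl (by norm_num) rfl rfl (by norm_num) (by norm_num) (by norm_num)

theorem VLs3 {κ t : ℝ} (h : DomR κ t) (hκ1 : 0.2 ≤ κ) (hκ : κ ≤ 0.29) (h0 : 0 ≤ -(t + κ)) (h1 : -(t + κ) ≤ 1.18) :
    sE κ t ≤ 1 - 0.4665 * (t + κ) ^ 2 / (1 + κ ^ 2) := by
  have hk0 := h.1
  rcases le_total (-(t + κ)) 0.8 with b1 | a1
  · exact VL_box h 0.891 0.4665 0.2 0.29 (0.29 / (1 + 0.29 ^ 2)) 0 0.8 _ _ _ _ h0 b1 hκ1 hκ
      (psi_lo hk0.le hκ (by norm_num)) (by norm_num) (by norm_num) (by norm_num)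
      rfl rfl (by norm_num) rfl rfl (by norm_num) (by norm_num) (by norm_num)
  rcases le_total (-(t + κ)) 1.1 with b2 | a2
  · exact VL_box h 0.756 0.4665 0.2 0.29 (0.29 / (1 + 0.29 ^ 2)) 0.8 1.1 _ _ _ _ a1 b2 hκ1 hκ
      (psi_lo hk0.le hκ (by norm_num)) (by norm_num) (by norm_num) (by norm_num)
      rfl rfl (by norm_num) rfl rfl (by norm_num) (by norm_num) (by norm_num)
  · exact VL_box h 0.705 0.4665 0.2 0.29 (0.29 / (1 + 0.29 ^ 2)) 1.1 1.18 _ _ _ _ a2 h1 hκ1 hκ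
      (psi_lo hk0.le hκ (by norm_num)) (by norm_num) (by norm_num) (by norm_num)
      rfl rfl (by norm_num) rfl rfl (by norm_num) (by norm_num) (by norm_num)

/-- a convex quadratic bracket is negative enough between the end points -/
theorem br_conv {c C e s lo hi B : ℝ} (hα : c - 2 * C + e ≤ 0) (h1 : lo ≤ s) (h2 : s ≤ hi)
    (e1 : -(c * (2 - lo) ^ 2) + 2 * C * (1 - lo) ^ 2 - e * lo ^ 2 ≤ -B)
    (e2 : -(c * (2 - hi) ^ 2) + 2 * C * (1 - hi) ^ 2 - e * hi ^ 2 ≤ -B) :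
    -(c * (2 - s) ^ 2) + 2 * C * (1 - s) ^ 2 - e * s ^ 2 ≤ -B := by
  have h := quad_conc (α := c - 2 * C + e) (β := -(4 * c) + 4 * C) (γ := 4 * c - 2 * C - B) hα h1 h2
    (by linarith) (by linarith)
  linarith

/-- the copy `-1` on the discs for `κ ≤ 0.29` -/
theorem smallM1 {b : ℕ} {h κ R t β G0 G1 : ℝ} (H : DP b h κ R t) (hκ : κ ≤ 0.29) (hβ : β = κ / R)
    (h0 : 0.985 * sQ β κ (t - h) ≤ G0) (h1 : 0 ≤ G1) (h1' : G1 ≤ 1.015 * sQ β κ t) :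
    ‖Xf β R h t (-1)‖ * G0 ^ ((-1 : ℤ) - 1) * G1 ^ (-(-1 : ℤ)) ≤ 7 / 250 := by
  have S := H.SD hκ hβ
  obtain ⟨s, hs, hlo, hhi, -, -⟩ := H.exists_s
  obtain ⟨d0, d1, -⟩ := H.dom
  have hp := S.h0
  have hh := S.h9
  have hk0 := S.k0
  have hR := S.Rpos
  have hA : 0 < 1 + κ ^ 2 := by positivity
  have hsg : sgm κ ≤ 0.1048 := sgm_le hk0.le hκ (by norm_num) (by norm_num)
  have hs1 : 0.3152 ≤ s := by linarith
  have hs2 : s ≤ 0.7048 := by linarith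
  have hpi := Real.pi_gt_d2
  -- positions
  have e0 : t - h + κ = -((1 - s) * h) := by linarith
  have e1 : t + κ = s * h := hs
  have em : t - 2 * h + κ = -((2 - s) * h) := by linarith
  have b0 : (1 - s) * h ≤ 0.4785 := by
    have : (1 - s) * h ≤ 0.6848 * 0.6982 := mul_le_mul (by linarith) hh hp.le (by norm_num)
    linarith
  have b1 : s * h ≤ 0.5 := by
    have : s * h ≤ 0.7048 * 0.6982 := mul_le_mul hs2 hh hp.le (by norm_num)
    linarith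
  have bm : (2 - s) * h ≤ 1.18 := by
    have : (2 - s) * h ≤ 1.6848 * 0.6982 := mul_le_mul (by linarith) hh hp.le (by norm_num)
    linarith
  have p0 : 0 ≤ (1 - s) * h := mul_nonneg (by linarith) hp.le
  have p1 : 0 ≤ s * h := mul_nonneg (by linarith) hp.le
  have pm : 0 ≤ (2 - s) * h := mul_nonneg (by linarith) hp.le
  have dm : DomR κ (t - 2 * h) := by
    refine ⟨hk0, by linarith, Or.inr ?_⟩
    linarith
  obtain ⟨T, hT⟩ : ∃ T, T = R * h ^ 2 / (1 + κ ^ 2) := ⟨_, rfl⟩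
  have hT5 : 5.07 ≤ T := by rw [hT, le_div_iff₀ hA]; exact S.T1
  -- `G1`
  have u1 := sQ_le_eN (g := 1.015) (m := 0.015) (d := 1) (c := 0.421) S.b2 hR.le d1 (by norm_num)
    (VR_050 d1 (by linarith) (by linarith)) one_pos (by rw [one_mul]; exact DR_ge d1 (by linarith) (by linarith))
    (by norm_num)
  have g1 : G1 ≤ eN R κ * Real.exp (0.015 - T * (0.421 * s ^ 2)) := by
    refine h1'.trans (u1.trans (le_of_eq ?_))
    rw [e1, hT]; ring_nf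
  -- the general step
  have step : ∀ c C m : ℝ, sE κ (t - 2 * h) ≤ 1 - c * (t - 2 * h + κ) ^ 2 / (1 + κ ^ 2) →
      1 - C * (t - h + κ) ^ 2 / (1 + κ ^ 2) ≤ sE κ (t - h) →
      ‖Xf β R h t (-1)‖ ≤ eN R κ * Real.exp (m - R / (1 + κ ^ 2) * (c * (t - 2 * h + κ) ^ 2)) →
      c - 2 * C + 0.421 ≤ 0 →
      m + 0.0454 + 5.07 * (-(c * (2 - 0.3152) ^ 2) + 2 * C * (1 - 0.3152) ^ 2 - 0.421 * 0.3152 ^ 2) ≤ -3.58 →
      m + 0.0454 + 5.07 * (-(c * (2 - 0.7048) ^ 2) + 2 * C * (1 - 0.7048) ^ 2 - 0.421 * 0.7048 ^ 2) ≤ -3.58 →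
      0 ≤ m → ‖Xf β R h t (-1)‖ * G0 ^ ((-1 : ℤ) - 1) * G1 ^ (-(-1 : ℤ)) ≤ 7 / 250 := by
    intro c C m hVm hV0 hX hα q1 q2 hm
    have u0 := eN_le_sQ (g := 0.985) (m := 0.0152) (d := 1) (c := C) S.b2 hR.le d0 (by norm_num) hV0
      (sD_le_left d0 hκ (by linarith) (S.J_all d0).2) (by norm_num)
    have g0 : eN R κ * Real.exp (-0.0152 - T * (C * (1 - s) ^ 2)) ≤ G0 := by
      refine le_trans (le_of_eq ?_) (u0.trans h0)
      rw [e0, hT]; ring_nf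
    have gm : ‖Xf β R h t (-1)‖ ≤ eN R κ * Real.exp (m - T * (c * (2 - s) ^ 2)) := by
      refine hX.trans (le_of_eq ?_)
      rw [em, hT]; ring_nf
    have hbr := br_conv (B := (m + 0.0454 + 3.58) / 5.07) hα hs1 hs2
      (by rw [← neg_div, le_div_iff₀ (by norm_num)]; linarith) (by rw [← neg_div, le_div_iff₀ (by norm_num)]; linarith)
    have hB : 0 ≤ (m + 0.0454 + 3.58) / 5.07 := by positivity
    have hfin : (m - T * (c * (2 - s) ^ 2)) - ((1 : ℕ) + 1) * (-0.0152 - T * (C * (1 - s) ^ 2)) +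
        (1 : ℕ) * (0.015 - T * (0.421 * s ^ 2)) ≤ -3.58 := by
      have e5 : (m - T * (c * (2 - s) ^ 2)) - ((1 : ℕ) + 1) * (-0.0152 - T * (C * (1 - s) ^ 2)) +
        (1 : ℕ) * (0.015 - T * (0.421 * s ^ 2)) =
        m + 0.0454 + T * (-(c * (2 - s) ^ 2) + 2 * C * (1 - s) ^ 2 - 0.421 * s ^ 2) := by push_cast; ring
      rw [e5]
      have h6 : T * (-(c * (2 - s) ^ 2) + 2 * C * (1 - s) ^ 2 - 0.421 * s ^ 2) ≤
          T * (-((m + 0.0454 + 3.58) / 5.07)) := mul_le_mul_of_nonneg_left hbr (by linarith)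
      have h7 : T * (-((m + 0.0454 + 3.58) / 5.07)) ≤ 5.07 * (-((m + 0.0454 + 3.58) / 5.07)) := by nlinarith
      have h8 : 5.07 * (-((m + 0.0454 + 3.58) / 5.07)) = -(m + 0.0454 + 3.58) := by ring
      linarith
    have hM := Mneg (eN_pos R κ) 1 h1 gm g0 g1 hfin
    have e9 : (-((1 : ℕ) : ℤ)) = -1 := by norm_num
    rw [e9] at hM
    exact hM.trans (exp_neg_358.trans (by norm_num))
  obtain ⟨b38, b2, b3⟩ := S.b38
  have ht' : t - 2 * h = t + (((-1 : ℤ) : ℝ) - 1) * h := by push_cast; ring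
  rcases le_total κ 0.1 with c1 | c1
  · obtain ⟨n1, n2⟩ := norm_sg_leS (n := 0.1119) dm (by norm_num) (by norm_num) (c1.trans nexp11) (by linarith)
    have hJ : ‖HH β (sg κ (t - 2 * h)) - 1‖ ≤ 0.5 * β :=
      J45_36 S.b0 b38 (x := sx κ (t - 2 * h)) (y := sy κ (t - 2 * h)) (n1.trans (by norm_num))
    have hV := VLs1 dm c1 (by linarith) (by linarith)
    have hX := Xf_le S.b0 hR.le (by rw [S.b1]) ht' dm (ε := 0.0049) (c := 0.429) (d := 0.7809) (m := 0.067)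
      (by norm_num) (by linarith) hV (by norm_num)
      ((by nlinarith : 0.7809 * (1 + κ ^ 2) ≤ (1 - 0.1119) ^ 2).trans (sD_ge_of_y (by norm_num) n2)) (by norm_num)
    exact step 0.429 0.5463 0.067 hV (V0_low10 d0 c1 (by linarith) (by linarith)) hX (by norm_num) (by norm_num)
      (by norm_num) (by norm_num)
  rcases le_total κ 0.2 with c2 | c2
  · obtain ⟨n1, n2⟩ := norm_sg_leS (n := 0.2592) dm (by norm_num) (by norm_num) (c2.trans nexp26) (by linarith)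
    have hJ : ‖HH β (sg κ (t - 2 * h)) - 1‖ ≤ 0.5 * β :=
      J45_36 S.b0 b38 (x := sx κ (t - 2 * h)) (y := sy κ (t - 2 * h)) (n1.trans (by norm_num))
    have hV := VLs2 dm c1 c2 (by linarith) (by linarith)
    have hX := Xf_le S.b0 hR.le (by rw [S.b1]) ht' dm (ε := 0.0097) (c := 0.44) (d := 0.5276) (m := 0.172)
      (by norm_num) (by linarith) hV (by norm_num)
      ((by nlinarith : 0.5276 * (1 + κ ^ 2) ≤ (1 - 0.2592) ^ 2).trans (sD_ge_of_y (by norm_num) n2)) (by norm_num)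
    exact step 0.44 0.5676 0.172 hV (V0_low20 d0 c2 (by linarith) (by linarith)) hX (by norm_num) (by norm_num)
      (by norm_num) (by norm_num)
  · obtain ⟨hJ, n2⟩ := S.J_all dm
    have hV := VLs3 dm c2 hκ (by linarith) (by linarith)
    have hX := Xf_le S.b0 hR.le (by rw [S.b1]) ht' dm (ε := 0.08) (c := 0.4665) (d := 0.2689) (m := 0.432)
      (by norm_num) hJ hV (by norm_num)
      ((by nlinarith : 0.2689 * (1 + κ ^ 2) ≤ (1 - 0.46) ^ 2).trans (sD_ge_of_y (by norm_num) n2)) (by norm_num)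
    exact step 0.4665 0.585 0.432 hV (V0_low29 d0 hκ (by linarith) (by linarith)) hX (by norm_num) (by norm_num)
      (by norm_num) (by norm_num)

end Sok
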