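import Pool.Agent.Lib.MP_816dec_an.R1S1

/-!
MP_816dec_an (A3, row R1, `b ≥ 9`, `κ ≤ 0.29`): the far copies on the discs.
-/

set_option autoImplicit false

open Complex Set Filter Topology Metric

namespace Sok

theorem sp_left_05 {κ t : ℝ} (hd : DomR κ t) (hκ : κ ≤ 1.53) (h0 : 0 ≤ -(t + κ)) (h1 : -(t + κ) ≤ 0.5) :
    1.373 * (t + κ) / (1 + κ ^ 2) ≤ sp κ t := by
  have hle : ∀ C : ℝ, C ≤ 1.373 → C * (t + κ) / (1 + κ ^ 2) ≤ sp κ t →
      1.373 * (t + κ) / (1 + κ ^ 2) ≤ sp κ t := by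
    intro C hC h1
    refine le_trans ?_ h1
    rw [div_le_div_iff_of_pos_right (by positivity)]
    nlinarith
  rcases le_total (-(t + κ)) 0.2 with c1 | c1
  · exact hle 1.109 (by norm_num) (pLu_00_02 hd hκ h0 c1)
  rcases le_total (-(t + κ)) 0.3 with c2 | c2
  · exact hle 1.173 (by norm_num) (pLu_02_03 hd hκ c1 c2)
  rcases le_total (-(t + κ)) 0.4 with c3 | c3
  · exact hle 1.257 (by norm_num) (pLu_03_04 hd hκ c2 c3)
  · exact pLu_04_05 hd hκ c3 h1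

theorem g29 {κ : ℝ} (h0 : 0 < κ) (h1 : κ ≤ 0.29) : 2 * κ * (1 - κ ^ 2) ≤ 0.4525 * (1 + κ ^ 2) ^ 2 := by
  have e : 0.4525 * (1 + κ ^ 2) ^ 2 - 2 * κ * (1 - κ ^ 2) = 0.4525 - 2 * κ + 0.905 * κ ^ 2 + 2 * κ ^ 3 + 0.4525 * κ ^ 4 := by
    ring
  have h2 : 0 ≤ (0.29 - κ) * κ := mul_nonneg (by linarith) h0.le
  have h3 : 0 ≤ (0.29 - κ) * κ ^ 2 := mul_nonneg (by linarith) (by positivity)
  have h4 : 0 ≤ (0.29 - κ) ^ 2 := sq_nonneg _
  have h5 : 0 ≤ (0.29 - κ) ^ 2 * κ := by positivity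
  have h6 : 0 ≤ (0.29 - κ) ^ 2 * κ ^ 2 := by positivity
  nlinarith

/-- normal forms of the two main copies on the discs, `κ ≤ 0.29` -/
theorem DP.formsS {b : ℕ} {h κ R t β G0 G1 : ℝ} (H : DP b h κ R t) (hκ : κ ≤ 0.29) (hβ : β = κ / R)
    (h0 : 0.985 * sQ β κ (t - h) ≤ G0) (h0' : G0 ≤ 1.015 * sQ β κ (t - h))
    (h1 : 0.985 * sQ β κ t ≤ G1) (h1' : G1 ≤ 1.015 * sQ β κ t) :
    ∃ s T : ℝ, t + κ = s * h ∧ 0.3152 ≤ s ∧ s ≤ 0.7048 ∧ T = R * h ^ 2 / (1 + κ ^ 2) ∧ 5.07 ≤ T ∧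
      eN R κ * Real.exp (-0.0152 - T * (0.585 * (1 - s) ^ 2)) ≤ G0 ∧
      G0 ≤ eN R κ * Real.exp (0.105 - T * (0.471 * (1 - s) ^ 2)) ∧
      eN R κ * Real.exp (-0.067 - T * (0.5 * s ^ 2)) ≤ G1 ∧
      G1 ≤ eN R κ * Real.exp (0.015 - T * (0.421 * s ^ 2)) := by
  have S := H.SD hκ hβ
  obtain ⟨s, hs, hlo, hhi, -, -⟩ := H.exists_s
  obtain ⟨d0, d1, -⟩ := H.dom
  have hp := S.h0
  have hh := S.h9
  have hk0 := S.k0
  have hR := S.Rpos
  have hA : 0 < 1 + κ ^ 2 := by positivity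
  have hsg : sgm κ ≤ 0.1048 := sgm_le hk0.le hκ (by norm_num) (by norm_num)
  have hs1 : 0.3152 ≤ s := by linarith
  have hs2 : s ≤ 0.7048 := by linarith
  have e0 : t - h + κ = -((1 - s) * h) := by linarith
  have e1 : t + κ = s * h := hs
  have b0 : (1 - s) * h ≤ 0.4785 := by
    have : (1 - s) * h ≤ 0.6848 * 0.6982 := mul_le_mul (by linarith) hh hp.le (by norm_num)
    linarith
  have b1 : s * h ≤ 0.4925 := by
    have : s * h ≤ 0.7048 * 0.6982 := mul_le_mul hs2 hh hp.le (by norm_num)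
    linarith
  have p0 : 0 ≤ (1 - s) * h := mul_nonneg (by linarith) hp.le
  have p1 : 0 ≤ s * h := mul_nonneg (by linarith) hp.le
  have hg := g29 hk0 hκ
  refine ⟨s, R * h ^ 2 / (1 + κ ^ 2), hs, hs1, hs2, rfl, ?_, ?_, ?_, ?_, ?_⟩
  · rw [le_div_iff₀ hA]; exact S.T1
  · have u0 := eN_le_sQ (g := 0.985) (m := 0.0152) (d := 1) (c := 0.585) S.b2 hR.le d0 (by norm_num)
      (V0_low29 d0 hκ (by linarith) (by linarith))
      (sD_le_left d0 hκ (by linarith) (S.J_all d0).2) (by norm_num)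
    refine le_trans (le_of_eq ?_) (u0.trans h0)
    rw [e0]; ring_nf
  · have hD : 0.7 * (1 + κ ^ 2) ≤ sD κ (t - h) := by
      have hsp := sp_left_05 d0 (by linarith) (by linarith) (by linarith)
      refine D0_lo d0 0.7 (1.373 * 0.4785) 0.4525 (by linarith) (by linarith) ?_ hg (by norm_num) (by norm_num)
      rw [div_le_iff₀ hA] at hsp
      linarith
    have u0 := sQ_le_eN (g := 1.015) (m := 0.105) (d := 0.7) (c := 0.471) S.b2 hR.le d0 (by norm_num)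
      (VL_00_05 d0 (by linarith) (by linarith) (by linarith)) (by norm_num) hD (by norm_num)
    refine h0'.trans (u0.trans (le_of_eq ?_))
    rw [e0]; ring_nf
  · have hq : 2 * κ ^ 4 ≤ 0.015 * (1 + κ ^ 2) ^ 3 := by
      have h2 : κ ^ 4 ≤ 0.29 ^ 4 := pow_le_pow_left₀ hk0.le hκ 4
      have h3 : 1 ≤ (1 + κ ^ 2) ^ 3 := one_le_pow₀ (by nlinarith)
      nlinarith
    have hD := D1_hi d1 1.227 0.4925 0.4525 0.015 (by linarith) (by linarith) (by linarith) hg hq (by norm_num)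
      (by norm_num) (by norm_num)
    have hV := low_quad d1 (by nlinarith) (by linarith) t
    rw [sub_self, mul_zero, add_zero] at hV
    have hV' : 1 - 0.5 * (t + κ) ^ 2 / (1 + κ ^ 2) ≤ sE κ t := by
      have e5 : (t + κ) ^ 2 / (2 * (1 + κ ^ 2)) = 0.5 * (t + κ) ^ 2 / (1 + κ ^ 2) := by
        rw [div_eq_div_iff (by positivity) hA.ne']
        ring
      rwa [e5] at hV
    have u1 := eN_le_sQ (g := 0.985) (m := 0.067) (d := 1.227) (c := 0.5) S.b2 hR.le d1 (by norm_num) hV' hD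
      (by norm_num)
    refine le_trans (le_of_eq ?_) (u1.trans h1)
    rw [e1]; ring_nf
  · have u1 := sQ_le_eN (g := 1.015) (m := 0.015) (d := 1) (c := 0.421) S.b2 hR.le d1 (by norm_num)
      (VR_050 d1 (by linarith) (by linarith)) one_pos (by rw [one_mul]; exact DR_ge d1 (by linarith) (by linarith))
      (by norm_num)
    refine h1'.trans (u1.trans (le_of_eq ?_))
    rw [e1]; ring_nf

/-- upper bound of `sE` on the right for `κ ≤ 0.29`, up to `t = π/2` -/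
theorem VRs {κ t : ℝ} (h : DomR κ t) (hκ : κ ≤ 0.29) (h0 : 0 ≤ t + κ) (h1 : t + κ ≤ 1.861) :
    sE κ t ≤ 1 - 0.296 * (t + κ) ^ 2 / (1 + κ ^ 2) := by
  have hk0 := h.1
  exact VR_box h 0.469 0.296 0 (0.29 / (1 + 0.29 ^ 2)) 1.861 _ _ h0 h1 hk0.le (psi_lo hk0.le hκ (by norm_num))
      (by norm_num) (by norm_num) rfl rfl (by norm_num) (by norm_num) (by norm_num)

/-- upper bound of `sE` on the left for `κ ≤ 0.29`, up to `t = -π/2` -/
theorem VLs {κ t : ℝ} (h : DomR κ t) (hκ : κ ≤ 0.29) (h0 : 0 ≤ -(t + κ)) (h1 : -(t + κ) ≤ 1.571) :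
    sE κ t ≤ 1 - 0.3685 * (t + κ) ^ 2 / (1 + κ ^ 2) := by
  have hk0 := h.1
  exact VL_box h 0.509 0.3685 0 0.29 (0.29 / (1 + 0.29 ^ 2)) 0 1.571 _ _ _ _ h0 h1 hk0.le hκ
    (psi_lo hk0.le hκ (by norm_num)) (by norm_num) (by norm_num) (by norm_num)
    rfl rfl (by norm_num) rfl rfl (by norm_num) (by norm_num) (by norm_num)

/-- a right copy with a saddle -/
theorem SD.X_right {h κ R β t : ℝ} (S : SD h κ R β) {k : ℤ} {t' : ℝ} (ht : t' = t + (k - 1) * h)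
    (hd : DomR κ t') (h0 : 0 ≤ t' + κ) :
    ‖Xf β R h t k‖ ≤ eN R κ * Real.exp (0.013 - R / (1 + κ ^ 2) * (0.296 * (t' + κ) ^ 2)) := by
  have hk := S.k1
  have hpi := Real.pi_lt_d4
  have h1 := hd.2.1
  exact Xf_le S.b0 S.Rpos.le (by rw [S.b1]) ht hd (ε := 0.0129) (c := 0.296) (d := 1) (m := 0.013)
    (by norm_num) (S.J_right hd h0) (VRs hd hk h0 (by linarith)) one_pos
    (by rw [one_mul]; exact DR_ge hd h0 (by linarith)) (by norm_num)

/-- a left copy with a saddle -/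
theorem SD.X_left {h κ R β t : ℝ} (S : SD h κ R β) {k : ℤ} {t' : ℝ} (ht : t' = t + (k - 1) * h)
    (hd : DomR κ t') (h0 : t' + κ ≤ 0) :
    ‖Xf β R h t k‖ ≤ eN R κ * Real.exp (0.432 - R / (1 + κ ^ 2) * (0.3685 * (t' + κ) ^ 2)) := by
  have hk := S.k1
  have hk0 := S.k0
  have hpi := Real.pi_lt_d4
  have h1 : -(Real.pi / 2) < t' := by
    rcases hd.2.2 with h2 | h2
    · exfalso
      have := Real.exp_neg_one_gt_d9
      linarith
    · exact h2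
  obtain ⟨hJ, n2⟩ := S.J_all hd
  exact Xf_le S.b0 S.Rpos.le (by rw [S.b1]) ht hd (ε := 0.08) (c := 0.3685) (d := 0.2689) (m := 0.432)
    (by norm_num) hJ (VLs hd hk (by linarith) (by linarith)) (by norm_num)
    ((by nlinarith : 0.2689 * (1 + κ ^ 2) ≤ (1 - 0.46) ^ 2).trans (sD_ge_of_y (by norm_num) n2)) (by norm_num)

/-- a copy in the left half plane, right end -/
theorem SD.X_farR {h κ R β t : ℝ} (S : SD h κ R β) {k : ℤ} {t' : ℝ} (ht : t' = t + (k - 1) * h)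
    (h1 : Real.pi / 2 ≤ t') (h2 : t' ≤ 3 * Real.pi / 2) (h3 : t' - Real.pi / 2 ≤ 2) :
    ‖Xf β R h t k‖ ≤ eN R κ * Real.exp (0.475 - R * (1 + 0.2 * (t' - Real.pi / 2))) := by
  have hk := S.k1
  have hk0 := S.k0
  have hR := S.Rpos
  have h4 := small_far (κ := κ) (t := t') (β := β) hk0 (by linarith) S.b0 S.b38.1 h1 h2 (d := t' - Real.pi / 2)
    (Or.inl ⟨rfl, h3⟩)
  rw [S.b2] at h4
  have h5 : ‖Xf β R h t k‖ ≤ 1.52 * Real.exp (R * (-(0.2 * (t' - Real.pi / 2)))) := by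
    unfold Xf
    rw [← ht, mul_neg]
    exact h4
  have h6 := far_norm (m := 0.475) (κ := κ) (by norm_num : (0 : ℝ) ≤ 1.52) h5 (by nlinarith)
  refine h6.trans (le_of_eq ?_)
  congr 2
  have hA : 0 < 1 + κ ^ 2 := by positivity
  field_simp
  ring

/-- a copy in the left half plane, left end -/
theorem SD.X_farL {h κ R β t : ℝ} (S : SD h κ R β) {k : ℤ} {t' : ℝ} (ht : t' = t + (k - 1) * h)
    (h1 : t' ≤ -(Real.pi / 2)) (h2 : -(3 * Real.pi / 2) ≤ t') (h3 : -(Real.pi / 2) - t' ≤ 2) :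
    ‖Xf β R h t k‖ ≤ eN R κ * Real.exp (0.475 - R * (1 + 0.2 * (-(Real.pi / 2) - t'))) := by
  have hk := S.k1
  have hk0 := S.k0
  have hR := S.Rpos
  have h4 := small_far (κ := κ) (t := t' + 2 * Real.pi) (β := β) hk0 (by linarith) S.b0 S.b38.1 (by linarith)
    (by linarith) (d := 3 * Real.pi / 2 - (t' + 2 * Real.pi)) (Or.inr ⟨rfl, by linarith⟩)
  rw [S.b2] at h4
  have e7 : cexp (I * ((t' + 2 * Real.pi + β / 2 : ℝ) : ℂ)) = cexp (I * ((t' + β / 2 : ℝ) : ℂ)) := by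
    have : I * ((t' + 2 * Real.pi + β / 2 : ℝ) : ℂ) = I * ((t' + β / 2 : ℝ) : ℂ) + 2 * Real.pi * I := by
      push_cast; ring
    rw [this, Complex.exp_add, Complex.exp_two_pi_mul_I, mul_one]
  rw [e7] at h4
  have h5 : ‖Xf β R h t k‖ ≤ 1.52 * Real.exp (R * (-(0.2 * (-(Real.pi / 2) - t')))) := by
    unfold Xf
    rw [← ht, mul_neg]
    refine h4.trans (le_of_eq ?_)
    congr 3
    ring
  have h6 := far_norm (m := 0.475) (κ := κ) (by norm_num : (0 : ℝ) ≤ 1.52) h5 (by nlinarith)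
  refine h6.trans (le_of_eq ?_)
  congr 2
  have hA : 0 < 1 + κ ^ 2 := by positivity
  field_simp
  ring

end Sok
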