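import Pool.Agent.Lib.MP_816dec_an.R1S2

/-!
MP_816dec_an (A3, row R1, `b ≥ 9`, `κ ≤ 0.29`): the far copies on the discs, exponents.
-/

set_option autoImplicit false

open Complex Set Filter Topology Metric

namespace Sok

theorem exp_n461 : Real.exp (-4.61) ≤ 1 / 100 := by
  rw [Real.exp_neg, inv_le_comm₀ (Real.exp_pos _) (by norm_num)]
  have h := Real.sum_le_exp_of_nonneg (x := 4.61) (by norm_num) 18
  refine le_trans ?_ h
  norm_num [Finset.sum_range_succ, Nat.factorial]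

theorem exp_n581 : Real.exp (-5.81) ≤ 3 / 1000 := by
  rw [Real.exp_neg, inv_le_comm₀ (Real.exp_pos _) (by norm_num)]
  have h := Real.sum_le_exp_of_nonneg (x := 5.81) (by norm_num) 20
  refine le_trans ?_ h
  norm_num [Finset.sum_range_succ, Nat.factorial]

theorem exp_n521 : Real.exp (-5.21) ≤ 11 / 2000 := by
  rw [Real.exp_neg, inv_le_comm₀ (Real.exp_pos _) (by norm_num)]
  have h := Real.sum_le_exp_of_nonneg (x := 5.21) (by norm_num) 18
  refine le_trans ?_ h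
  norm_num [Finset.sum_range_succ, Nat.factorial]

theorem exp_n622 : Real.exp (-6.22) ≤ 1 / 500 := by
  rw [Real.exp_neg, inv_le_comm₀ (Real.exp_pos _) (by norm_num)]
  have h := Real.sum_le_exp_of_nonneg (x := 6.22) (by norm_num) 20
  refine le_trans ?_ h
  norm_num [Finset.sum_range_succ, Nat.factorial]

theorem exp_n512 : Real.exp (-5.12) ≤ 3 / 500 := by
  rw [Real.exp_neg, inv_le_comm₀ (Real.exp_pos _) (by norm_num)]
  have h := Real.sum_le_exp_of_nonneg (x := 5.12) (by norm_num) 18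
  refine le_trans ?_ h
  norm_num [Finset.sum_range_succ, Nat.factorial]

theorem exp_n761 : Real.exp (-7.61) ≤ 1 / 2000 := by
  rw [Real.exp_neg, inv_le_comm₀ (Real.exp_pos _) (by norm_num)]
  have h := Real.sum_le_exp_of_nonneg (x := 7.61) (by norm_num) 24
  refine le_trans ?_ h
  norm_num [Finset.sum_range_succ, Nat.factorial]

theorem exp_n1387 : Real.exp (-1.387) ≤ 1 / 4 := by
  rw [Real.exp_neg, inv_le_comm₀ (Real.exp_pos _) (by norm_num)]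
  have h := Real.sum_le_exp_of_nonneg (x := 1.387) (by norm_num) 12
  refine le_trans ?_ h
  norm_num [Finset.sum_range_succ, Nat.factorial]

theorem exp_geoS {x : ℝ} (m : ℕ) (h : x ≤ -7.61 - 1.387 * m) : Real.exp x ≤ 1 / 2000 * (1 / 4) ^ m := by
  refine (Real.exp_le_exp.2 h).trans ?_
  have e : (-7.61 - 1.387 * m : ℝ) = -7.61 + m * (-1.387) := by ring
  rw [e, Real.exp_add, Real.exp_nat_mul]
  exact mul_le_mul exp_n761 (pow_le_pow_left₀ (Real.exp_pos _).le exp_n1387 m) (by positivity) (by norm_num)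

theorem Mfar_pos_of {n : ℕ} (hn : 2 ≤ n) {x : ℝ} (h2 : n = 2 → x ≤ -4.61) (h3 : n = 3 → x ≤ -5.81)
    (h4 : n = 4 → x ≤ -5.21) (h5 : 5 ≤ n → x ≤ -7.61 - 1.387 * ((n : ℝ) - 4)) :
    Real.exp x ≤ Mfar ((n : ℤ) + 1) := by
  unfold Mfar
  by_cases c2 : n = 2
  · rw [if_pos (by omega)]
    exact (Real.exp_le_exp.2 (h2 c2)).trans exp_n461
  by_cases c3 : n = 3
  · rw [if_neg (by omega), if_pos (by omega)]
    exact (Real.exp_le_exp.2 (h3 c3)).trans exp_n581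
  by_cases c4 : n = 4
  · rw [if_neg (by omega), if_neg (by omega), if_pos (by omega)]
    exact (Real.exp_le_exp.2 (h4 c4)).trans exp_n521
  rw [if_neg (by omega), if_neg (by omega), if_neg (by omega), if_neg (by omega), if_neg (by omega),
    if_neg (by omega)]
  have hn5 : 5 ≤ n := by omega
  obtain ⟨m, rfl⟩ : ∃ m, n = m + 4 := ⟨n - 4, by omega⟩
  have e : ((m + 4 : ℕ) + 1 : ℤ).natAbs - 5 = m := by omega
  rw [e]
  apply exp_geoS
  have := h5 hn5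
  push_cast at this
  linarith

theorem Mfar_neg_of {n : ℕ} (hn : 2 ≤ n) {x : ℝ} (h2 : n = 2 → x ≤ -6.22) (h3 : n = 3 → x ≤ -5.12)
    (h4 : n = 4 → x ≤ -6.22) (h5 : 5 ≤ n → x ≤ -7.61 - 1.387 * ((n : ℝ) - 5)) :
    Real.exp x ≤ Mfar (-(n : ℤ)) := by
  unfold Mfar
  by_cases c2 : n = 2
  · rw [if_neg (by omega), if_neg (by omega), if_neg (by omega), if_pos (by omega)]
    exact (Real.exp_le_exp.2 (h2 c2)).trans exp_n622
  by_cases c3 : n = 3
  · rw [if_neg (by omega), if_neg (by omega), if_neg (by omega), if_neg (by omega), if_pos (by omega)]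
    exact (Real.exp_le_exp.2 (h3 c3)).trans exp_n512
  by_cases c4 : n = 4
  · rw [if_neg (by omega), if_neg (by omega), if_neg (by omega), if_neg (by omega), if_neg (by omega),
      if_pos (by omega)]
    exact (Real.exp_le_exp.2 (h4 c4)).trans exp_n622
  rw [if_neg (by omega), if_neg (by omega), if_neg (by omega), if_neg (by omega), if_neg (by omega),
    if_neg (by omega)]
  have hn5 : 5 ≤ n := by omega
  obtain ⟨m, rfl⟩ : ∃ m, n = m + 5 := ⟨n - 5, by omega⟩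
  have e : (-((m + 5 : ℕ) : ℤ)).natAbs - 5 = m := by omega
  rw [e]
  apply exp_geoS
  have := h5 hn5
  push_cast at this
  linarith

/-- the indices of the window -/
theorem mem_far_pos {b : ℕ} (hb : 9 ≤ b) {k : ℤ} (hk : k ∈ far (aw b) b) (h2 : k ≠ 2) (h1 : k ≠ -1) :
    (∃ n : ℕ, 2 ≤ n ∧ k = (n : ℤ) + 1 ∧ 2 * n + 1 ≤ b) ∨ (∃ n : ℕ, 2 ≤ n ∧ k = -(n : ℤ) ∧ 2 * n + 2 ≤ b) := by
  rw [mem_far] at hk
  unfold aw at hk
  obtain ⟨⟨q1, q2⟩, q3, q4⟩ := hk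
  rcases lt_or_ge 0 k with hk0 | hk0
  · left
    refine ⟨(k - 1).toNat, ?_, ?_, ?_⟩ <;> omega
  · right
    refine ⟨(-k).toNat, ?_, ?_, ?_⟩ <;> omega

/-- exponent on the right, with a saddle -/
theorem ex_pos1 {n s T : ℝ} (hn : 2 ≤ n) (h1 : 0.3152 ≤ s) (h2 : s ≤ 0.7048) (hT : 5.07 ≤ T) :
    (0.013 - T * (0.296 * (n + s) ^ 2)) + n * (0.105 - T * (0.471 * (1 - s) ^ 2)) -
      (n + 1) * (-0.067 - T * (0.5 * s ^ 2)) ≤ 0.6 - 0.89 * n - 1.5 * n ^ 2 := by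
  have a1 : 0 ≤ (0.7048 - s) * n := mul_nonneg (by linarith) (by linarith)
  have a2 : 0 ≤ (0.7048 - s) * n * s := mul_nonneg a1 (by linarith)
  have a3 : 0 ≤ (0.7048 - s) * s := mul_nonneg (by linarith) (by linarith)
  have hB : -(0.296 * (n + s) ^ 2) - 0.471 * n * (1 - s) ^ 2 + 0.5 * (n + 1) * s ^ 2 ≤
      -(0.296 * n ^ 2 + 0.2098 * n - 0.1015) := by nlinarith
  have hB0 : 0 ≤ 0.296 * n ^ 2 + 0.2098 * n - 0.1015 := by nlinarith
  have e : (0.013 - T * (0.296 * (n + s) ^ 2)) + n * (0.105 - T * (0.471 * (1 - s) ^ 2)) -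
      (n + 1) * (-0.067 - T * (0.5 * s ^ 2)) = 0.08 + 0.172 * n +
      T * (-(0.296 * (n + s) ^ 2) - 0.471 * n * (1 - s) ^ 2 + 0.5 * (n + 1) * s ^ 2) := by ring
  rw [e]
  have h3 : T * (-(0.296 * (n + s) ^ 2) - 0.471 * n * (1 - s) ^ 2 + 0.5 * (n + 1) * s ^ 2) ≤
      T * (-(0.296 * n ^ 2 + 0.2098 * n - 0.1015)) := mul_le_mul_of_nonneg_left hB (by linarith)
  have h4 : T * (-(0.296 * n ^ 2 + 0.2098 * n - 0.1015)) ≤ 5.07 * (-(0.296 * n ^ 2 + 0.2098 * n - 0.1015)) := by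
    nlinarith
  linarith [sq_nonneg n]

/-- exponent on the left, with a saddle -/
theorem ex_neg1 {n s T : ℝ} (hn : 2 ≤ n) (h1 : 0.3152 ≤ s) (h2 : s ≤ 0.7048) (hT : 5.07 ≤ T) :
    (0.432 - T * (0.3685 * (n + 1 - s) ^ 2)) - (n + 1) * (-0.0152 - T * (0.585 * (1 - s) ^ 2)) +
      n * (0.015 - T * (0.421 * s ^ 2)) ≤ 0.97 - 1.34 * n - 1.86 * n ^ 2 := by
  have a1 : 0 ≤ (s - 0.3152) * n := mul_nonneg (by linarith) (by linarith)
  have a2 : 0 ≤ (s - 0.3152) * n * (0.7048 - s) := mul_nonneg a1 (by linarith)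
  have a3 : 0 ≤ (s - 0.3152) * (0.7048 - s) := mul_nonneg (by linarith) (by linarith)
  have hB : -(0.3685 * (n + 1 - s) ^ 2) + 0.585 * (n + 1) * (1 - s) ^ 2 - 0.421 * n * s ^ 2 ≤
      -(0.3685 * n ^ 2 + 0.2721 * n - 0.1016) := by nlinarith
  have hB0 : 0 ≤ 0.3685 * n ^ 2 + 0.2721 * n - 0.1016 := by nlinarith
  have e : (0.432 - T * (0.3685 * (n + 1 - s) ^ 2)) - (n + 1) * (-0.0152 - T * (0.585 * (1 - s) ^ 2)) +
      n * (0.015 - T * (0.421 * s ^ 2)) = 0.4472 + 0.0302 * n +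
      T * (-(0.3685 * (n + 1 - s) ^ 2) + 0.585 * (n + 1) * (1 - s) ^ 2 - 0.421 * n * s ^ 2) := by ring
  rw [e]
  have h3 : T * (-(0.3685 * (n + 1 - s) ^ 2) + 0.585 * (n + 1) * (1 - s) ^ 2 - 0.421 * n * s ^ 2) ≤
      T * (-(0.3685 * n ^ 2 + 0.2721 * n - 0.1016)) := mul_le_mul_of_nonneg_left hB (by linarith)
  have h4 : T * (-(0.3685 * n ^ 2 + 0.2721 * n - 0.1016)) ≤ 5.07 * (-(0.3685 * n ^ 2 + 0.2721 * n - 0.1016)) := by
    nlinarith
  linarith [sq_nonneg n]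

/-- exponent on the right, left half plane: first reduction, `P = .2074 n + .2484` -/
theorem ex_pos2 {n s T R h d : ℝ} (hn : 2 ≤ n) (h1 : 0.3152 ≤ s) (h2 : s ≤ 0.7048) (hT0 : 0 ≤ T)
    (hT : T ≤ R * h ^ 2) :
    (0.475 - R * (1 + 0.2 * d)) + n * (0.105 - T * (0.471 * (1 - s) ^ 2)) -
      (n + 1) * (-0.067 - T * (0.5 * s ^ 2)) ≤
      0.542 + 0.172 * n - R * (1 + 0.2 * d - h ^ 2 * (0.2074 * n + 0.2484)) := by
  have a1 : 0 ≤ (0.7048 - s) * n := mul_nonneg (by linarith) (by linarith)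
  have a2 : 0 ≤ (0.7048 - s) * n * s := mul_nonneg a1 (by linarith)
  have a3 : 0 ≤ (0.7048 - s) * s := mul_nonneg (by linarith) (by linarith)
  have hB : -(0.471 * n * (1 - s) ^ 2) + 0.5 * (n + 1) * s ^ 2 ≤ 0.2074 * n + 0.2484 := by nlinarith
  have e : (0.475 - R * (1 + 0.2 * d)) + n * (0.105 - T * (0.471 * (1 - s) ^ 2)) -
      (n + 1) * (-0.067 - T * (0.5 * s ^ 2)) = 0.542 + 0.172 * n - R * (1 + 0.2 * d) +
      T * (-(0.471 * n * (1 - s) ^ 2) + 0.5 * (n + 1) * s ^ 2) := by ring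
  rw [e]
  have h3 : T * (-(0.471 * n * (1 - s) ^ 2) + 0.5 * (n + 1) * s ^ 2) ≤ T * (0.2074 * n + 0.2484) :=
    mul_le_mul_of_nonneg_left hB hT0
  have h4 : T * (0.2074 * n + 0.2484) ≤ R * h ^ 2 * (0.2074 * n + 0.2484) :=
    mul_le_mul_of_nonneg_right hT (by linarith)
  linarith

/-- exponent on the left, left half plane: first reduction -/
theorem ex_neg2 {n s T R h κ D : ℝ} (hn : 2 ≤ n) (h1 : 0.3152 ≤ s) (h2 : s ≤ 0.7048) (hT0 : 0 ≤ T)
    (hT : T ≤ R * h ^ 2) (hh : 0 < h) (hR : 0 < R) (hnh : 0.5 ≤ (n + 1) * h) (hD : D = (n + 0.6848) * h + κ - Real.pi / 2) :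
    (0.475 - R * (1 + 0.2 * ((n + 1 - s) * h + κ - Real.pi / 2))) - (n + 1) * (-0.0152 - T * (0.585 * (1 - s) ^ 2)) +
      n * (0.015 - T * (0.421 * s ^ 2)) ≤
      0.4902 + 0.0302 * n - R * (1 + 0.2 * D - h ^ 2 * (0.2326 * n + 0.2744)) := by
  have hs : 0 ≤ 1 - s := by linarith
  have hu : (1 - s) ^ 2 ≤ 0.6848 * (1 - s) := by nlinarith
  have hs2 : 0.3152 ^ 2 ≤ s ^ 2 := pow_le_pow_left₀ (by norm_num) h1 2
  have hn0 : 0 ≤ n := by linarith
  have b1 : 0.585 * (n + 1) * (1 - s) ^ 2 ≤ 0.585 * (n + 1) * (0.6848 * (1 - s)) :=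
    mul_le_mul_of_nonneg_left hu (by positivity)
  have b2 : 0.421 * n * 0.3152 ^ 2 ≤ 0.421 * n * s ^ 2 := mul_le_mul_of_nonneg_left hs2 (by positivity)
  obtain ⟨q, hq⟩ : ∃ q, q = 0.585 * (n + 1) * (0.6848 * (1 - s)) - 0.421 * n * 0.3152 ^ 2 := ⟨_, rfl⟩
  have hq0 : 0 ≤ q := by
    rw [hq]
    have : 0.585 * (n + 1) * (0.6848 * 0.2952) ≤ 0.585 * (n + 1) * (0.6848 * (1 - s)) :=
      mul_le_mul_of_nonneg_left (by linarith) (by positivity)
    linarith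
  have e : (0.475 - R * (1 + 0.2 * ((n + 1 - s) * h + κ - Real.pi / 2))) -
      (n + 1) * (-0.0152 - T * (0.585 * (1 - s) ^ 2)) + n * (0.015 - T * (0.421 * s ^ 2)) =
      0.4902 + 0.0302 * n - R * (1 + 0.2 * ((n + 1 - s) * h + κ - Real.pi / 2)) +
      T * (0.585 * (n + 1) * (1 - s) ^ 2 - 0.421 * n * s ^ 2) := by ring
  rw [e]
  have h3 : T * (0.585 * (n + 1) * (1 - s) ^ 2 - 0.421 * n * s ^ 2) ≤ T * q :=
    mul_le_mul_of_nonneg_left (by rw [hq]; linarith) hT0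
  have h4 : T * q ≤ R * h ^ 2 * q := mul_le_mul_of_nonneg_right hT hq0
  -- monotonicity in `1 - s`
  have h5 : 0 ≤ R * (h * ((0.6848 - (1 - s)) * (0.585 * 0.6848 * ((n + 1) * h) - 0.2))) := by
    apply mul_nonneg hR.le
    apply mul_nonneg hh.le
    apply mul_nonneg (by linarith)
    linarith
  have h6 : R * h ^ 2 * (0.585 * (n + 1) * (0.6848 * 0.6848) - 0.421 * n * 0.3152 ^ 2) ≤
      R * h ^ 2 * (0.2326 * n + 0.2744) := by
    apply mul_le_mul_of_nonneg_left _ (by positivity)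
    linarith
  have e2 : 0.4902 + 0.0302 * n - R * (1 + 0.2 * D - h ^ 2 * (0.2326 * n + 0.2744)) -
      (0.4902 + 0.0302 * n - R * (1 + 0.2 * ((n + 1 - s) * h + κ - Real.pi / 2)) + R * h ^ 2 * q) =
      (R * h ^ 2 * (0.2326 * n + 0.2744) -
        R * h ^ 2 * (0.585 * (n + 1) * (0.6848 * 0.6848) - 0.421 * n * 0.3152 ^ 2)) +
      R * (h * ((0.6848 - (1 - s)) * (0.585 * 0.6848 * ((n + 1) * h) - 0.2))) := by
    rw [hD, hq]; ring
  linarith

end Sok
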