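import Pool.Agent.Lib.MP_816dec_an.R1S4
import Pool.Agent.Lib.MP_816dec_an.R1BE

/-!
MP_816dec_an (A3, row R1, `b ≥ 9`, `κ ≤ 0.29`): the far copies and the copy `-1` on the outer segment.
-/

set_option autoImplicit false

open Complex Set Filter Topology Metric

namespace Sok

theorem OP.hposS {b : ℕ} {h κ R t : ℝ} (H : OP b h κ R t) : 0 < h := h_pos H.hb H.hh

theorem OP.betaS {b : ℕ} {h κ R t β : ℝ} (H : OP b h κ R t) (hβ : β = κ / R) :
    0 < β ∧ β * R = κ ∧ κ / β = R := by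
  have h1 : 0 < R := by linarith [H.R1]
  have h2 := H.k0
  refine ⟨by rw [hβ]; positivity, by rw [hβ]; field_simp, by rw [hβ]; field_simp⟩

theorem OP.SDx {b : ℕ} {h κ R t β : ℝ} (H : OP b h κ R t) (hκ : κ ≤ 0.29) (hβ : β = κ / R) :
    SD h κ R β ∧ 11.15 * (1 + κ ^ 2) ≤ R := by
  obtain ⟨hb0, hb1, hb2⟩ := H.betaS hβ
  have hp := H.hposS
  have hh := h_le9 H.hb H.hh
  have hT := H.T1
  have hR : 0 < R := by linarith [H.R1]
  have h1 : h ^ 2 ≤ 0.6982 ^ 2 := pow_le_pow_left₀ hp.le hh 2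
  have h2 := mul_le_mul_of_nonneg_left h1 hR.le
  have h3 : 0 ≤ κ ^ 2 := sq_nonneg κ
  refine ⟨⟨hp, hh, H.k0, hκ, ?_, ?_, hb0, hb1, hb2⟩, ?_⟩
  · nlinarith
  · linarith
  · nlinarith

/-- normal forms of the main copies on the outer segment, `κ ≤ 0.29` -/
theorem OP.formsS {b : ℕ} {h κ R t β G0 G1 : ℝ} (H : OP b h κ R t) (hκ : κ ≤ 0.29) (hβ : β = κ / R)
    (h0 : 0.985 * sQ β κ (t - h) ≤ G0) (h1 : 0.985 * sQ β κ t ≤ G1) :
    ∃ s T : ℝ, t + κ = s * h ∧ 0.03 ≤ s ∧ s ≤ 1.03 ∧ T = R * h ^ 2 / (1 + κ ^ 2) ∧ 5.44 ≤ T ∧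
      (s ≤ 0.5 → eN R κ * Real.exp (-0.053 - T * (0.5 * s ^ 2)) ≤ G1) ∧
      (0.5 ≤ s → eN R κ * Real.exp (-0.018 - T * (0.585 * (1 - s) ^ 2)) ≤ G0) := by
  obtain ⟨S, -⟩ := H.SDx hκ hβ
  have hp := S.h0
  have hh := S.h9
  have hk0 := S.k0
  have hR := S.Rpos
  have hA : 0 < 1 + κ ^ 2 := by positivity
  have hpi := Real.pi_gt_d2
  obtain ⟨s, hsd⟩ : ∃ s, s = (t + κ) / h := ⟨_, rfl⟩
  have hs : t + κ = s * h := by rw [hsd]; field_simp
  have hs1 : 0.03 ≤ s := by rw [hsd, le_div_iff₀ hp]; exact H.lo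
  have hs2 : s ≤ 1.03 := by rw [hsd, div_le_iff₀ hp]; exact H.hi
  have e0 : t - h + κ = -((1 - s) * h) := by linarith
  have e1 : t + κ = s * h := hs
  have hg := g29 hk0 hκ
  have hq : 2 * κ ^ 4 ≤ 0.015 * (1 + κ ^ 2) ^ 3 := by
    have h2 : κ ^ 4 ≤ 0.29 ^ 4 := pow_le_pow_left₀ hk0.le hκ 4
    have h3 : 1 ≤ (1 + κ ^ 2) ^ 3 := one_le_pow₀ (by nlinarith)
    nlinarith
  have hlq : ∀ t' : ℝ, DomR κ t' → 0 ≤ t' + κ → 1 - 0.5 * (t' + κ) ^ 2 / (1 + κ ^ 2) ≤ sE κ t' := by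
    intro t' d' h'
    have hV := low_quad d' (by nlinarith) h' t'
    rw [sub_self, mul_zero, add_zero] at hV
    have e5 : (t' + κ) ^ 2 / (2 * (1 + κ ^ 2)) = 0.5 * (t' + κ) ^ 2 / (1 + κ ^ 2) := by
      rw [div_eq_div_iff (by positivity) hA.ne']
      ring
    rwa [e5] at hV
  refine ⟨s, R * h ^ 2 / (1 + κ ^ 2), hs, hs1, hs2, rfl, ?_, ?_, ?_⟩
  · rw [le_div_iff₀ hA]; exact H.T1
  · intro h5
    have b1 : s * h ≤ 0.3492 := by
      have : s * h ≤ 0.5 * 0.6982 := mul_le_mul h5 hh hp.le (by norm_num)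
      linarith
    have p1 : 0 ≤ s * h := mul_nonneg (by linarith) hp.le
    have d1 : DomR κ t := ⟨hk0, by linarith, Or.inr (by linarith)⟩
    have hD := D1_hi d1 1.161 0.3492 0.4525 0.015 (by linarith) (by linarith) (by linarith) hg hq (by norm_num)
      (by norm_num) (by norm_num)
    have u1 := eN_le_sQ (g := 0.985) (m := 0.053) (d := 1.161) (c := 0.5) S.b2 hR.le d1 (by norm_num)
      (hlq t d1 (by linarith)) hD (by norm_num)
    refine le_trans (le_of_eq ?_) (u1.trans h1)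
    rw [e1]; ring_nf
  · intro h5
    have b0 : (1 - s) * h ≤ 0.3492 := by
      rcases le_total s 1 with c | c
      · have : (1 - s) * h ≤ 0.5 * 0.6982 := mul_le_mul (by linarith) hh hp.le (by norm_num)
        linarith
      · have : (1 - s) * h ≤ 0 := mul_nonpos_of_nonpos_of_nonneg (by linarith) hp.le
        linarith
    have b0' : -0.021 ≤ (1 - s) * h := by
      rcases le_total s 1 with c | c
      · have : 0 ≤ (1 - s) * h := mul_nonneg (by linarith) hp.le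
        linarith
      · have : (s - 1) * h ≤ 0.03 * 0.6982 := mul_le_mul (by linarith) hh hp.le (by norm_num)
        linarith
    have d0 : DomR κ (t - h) := ⟨hk0, by linarith, Or.inr (by linarith)⟩
    have hsq : 0 ≤ R / (1 + κ ^ 2) * ((t - h + κ) ^ 2) := by positivity
    rcases le_total s 1 with c | c
    · have p0 : 0 ≤ (1 - s) * h := mul_nonneg (by linarith) hp.le
      have u0 := eN_le_sQ (g := 0.985) (m := 0.018) (d := 1) (c := 0.585) S.b2 hR.le d0 (by norm_num)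
        (V0_low29 d0 hκ (by linarith) (by linarith))
        (sD_le_left d0 hκ (by linarith) (S.J_all d0).2) (by norm_num)
      refine le_trans (le_of_eq ?_) (u0.trans h0)
      rw [e0]; ring_nf
    · have p0 : 0 ≤ t - h + κ := by
        rw [e0]
        have : 0 ≤ (s - 1) * h := mul_nonneg (by linarith) hp.le
        linarith
      have hD := D1_hi d0 1.01 0.021 0.4525 0.015 p0 (by linarith) (by linarith) hg hq (by norm_num)
        (by norm_num) (by norm_num)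
      have hV := hlq (t - h) d0 p0
      have hV' : 1 - 0.585 * (t - h + κ) ^ 2 / (1 + κ ^ 2) ≤ sE κ (t - h) := by
        refine le_trans ?_ hV
        have : 0.5 * (t - h + κ) ^ 2 / (1 + κ ^ 2) ≤ 0.585 * (t - h + κ) ^ 2 / (1 + κ ^ 2) := by
          rw [div_le_div_iff_of_pos_right hA]
          nlinarith [sq_nonneg (t - h + κ)]
        linarith
      have u0 := eN_le_sQ (g := 0.985) (m := 0.018) (d := 1.01) (c := 0.585) S.b2 hR.le d0 (by norm_num) hV' hD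
        (by norm_num)
      refine le_trans (le_of_eq ?_) (u0.trans h0)
      rw [e0]; ring_nf

/-- conclusion from two normal forms -/
theorem ratio_max {N Gk G0 G1 p q μ E : ℝ} (hN : 0 < N) (hk : Gk ≤ N * Real.exp p)
    (h1 : N * Real.exp q ≤ G0 ∨ N * Real.exp q ≤ G1) (hμ : p - q ≤ μ) (hE : Real.exp μ ≤ E) :
    Gk ≤ E * max G0 G1 := by
  have hm : N * Real.exp q ≤ max G0 G1 := by
    rcases h1 with h | h
    · exact h.trans (le_max_left _ _)
    · exact h.trans (le_max_right _ _)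
  have h2 := ratio_le hN hk hm hμ
  refine h2.trans (mul_le_mul_of_nonneg_right hE ?_)
  exact (mul_pos hN (Real.exp_pos _)).le.trans hm

theorem exp_le_of {μ x E : ℝ} (h : μ ≤ x) (hE : Real.exp x ≤ E) : Real.exp μ ≤ E := (Real.exp_le_exp.2 h).trans hE

/-- lower bound of `y` from the value of `sE` -/
theorem y_ge_32s {κ t : ℝ} (hd : DomR κ t) (hk1 : 0.2 ≤ κ) (hk2 : κ ≤ 0.29) (h0 : 0 ≤ -(t + κ))
    (h1 : -(t + κ) ≤ 0.81) : -0.32 ≤ sy κ t := by
  have hk := hd.1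
  obtain ⟨-, hy46⟩ := norm_sg_leS (n := 0.46) hd (by norm_num) (by norm_num) (hk2.trans nexp46) (by linarith)
  have hV : 1 - 0.6914 * (t + κ) ^ 2 / (1 + κ ^ 2) ≤ sE κ t := by
    refine V0_lo hd 0.6914 0.81 0.125 0.0071 1 0.29 h0 h1 (by norm_num) ?_ ?_ ?_ ?_ (by norm_num) (by norm_num)
      (by norm_num) (by norm_num) (by norm_num)
    · have e : 0.125 * (1 + κ ^ 2) ^ 2 - κ * (1 / 2 - κ ^ 2 / 6) =
          0.125 - κ / 2 + 0.25 * κ ^ 2 + κ ^ 3 / 6 + 0.125 * κ ^ 4 := by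
        ring
      have h2 : 0 ≤ κ ^ 3 := by positivity
      have h3 : 0 ≤ κ ^ 4 := by positivity
      nlinarith
    · have h2 : κ ^ 4 ≤ 0.29 ^ 4 := pow_le_pow_left₀ hk.le hk2 4
      have h3 : 1 ≤ (1 + κ ^ 2) ^ 3 := one_le_pow₀ (by nlinarith)
      nlinarith
    · have h3 : 1 ≤ (1 + κ ^ 2) ^ 3 := one_le_pow₀ (by nlinarith)
      linarith
    · nlinarith
  have hV2 : 0.5638 ≤ sE κ t := by
    refine le_trans ?_ hV
    have h2 : (t + κ) ^ 2 ≤ 0.81 ^ 2 := by nlinarith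
    have h3 : 0.6914 * (t + κ) ^ 2 / (1 + κ ^ 2) ≤ 0.4362 := by
      rw [div_le_iff₀ (by positivity)]
      nlinarith
    linarith
  by_contra hcon
  push Not at hcon
  have hx := sx_pos hd
  have hsq := s_sq hd
  obtain ⟨Y, hY⟩ : ∃ Y, Y = -sy κ t := ⟨_, rfl⟩
  have hy : sy κ t = -Y := by rw [hY]; ring
  rw [hy] at hsq hcon hy46
  have hEV : sE κ t * κ = sx κ t * (1 - Y) := by
    unfold sE
    rw [hy]
    field_simp
    ring
  have hsq2 : (0.5638 * κ) ^ 2 ≤ (sx κ t * (1 - Y)) ^ 2 := by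
    rw [← hEV]
    apply pow_le_pow_left₀ (by positivity)
    exact mul_le_mul_of_nonneg_right hV2 hk.le
  have hexp : (1 - Y) * Real.exp Y ≤ 0.93647 := by
    have h2 := mul_exp_neg_mono (s := 1 - Y) (s' := 0.68) (by linarith) (by linarith) (by norm_num)
    have h3 : (1 - Y) * Real.exp Y = ((1 - Y) * Real.exp (-(1 - Y))) * Real.exp 1 := by
      rw [mul_assoc, ← Real.exp_add]; congr 2; ring
    have h4 : (0.68 * Real.exp (-0.68)) * Real.exp 1 = 0.68 * Real.exp 0.32 := by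
      rw [mul_assoc, ← Real.exp_add]; norm_num
    have h5 := mul_le_mul_of_nonneg_right h2 (Real.exp_pos 1).le
    rw [h3]
    refine h5.trans ?_
    rw [h4]
    have h6 := Real.exp_bound' (x := 0.32) (by norm_num) (by norm_num) (n := 8) (by norm_num)
    norm_num [Finset.sum_range_succ, Nat.factorial] at h6
    linarith
  have hexp2 : ((1 - Y) * Real.exp Y) ^ 2 ≤ 0.93647 ^ 2 :=
    pow_le_pow_left₀ (mul_nonneg (by linarith) (Real.exp_pos _).le) hexp 2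
  have hYY : 0.2176 ≤ Y * (1 - Y) := by nlinarith
  have hYY2 : 0.2176 ^ 2 ≤ (Y * (1 - Y)) ^ 2 := pow_le_pow_left₀ (by norm_num) hYY 2
  have e1 : Real.exp (-2 * -Y) = Real.exp Y ^ 2 := by rw [← Real.exp_nat_mul]; congr 1; push_cast; ring
  rw [e1] at hsq
  have e2 : (sx κ t * (1 - Y)) ^ 2 = κ ^ 2 * ((1 - Y) * Real.exp Y) ^ 2 - (Y * (1 - Y)) ^ 2 := by
    have : sx κ t ^ 2 = κ ^ 2 * Real.exp Y ^ 2 - Y ^ 2 := by linarith
    calc (sx κ t * (1 - Y)) ^ 2 = sx κ t ^ 2 * (1 - Y) ^ 2 := by ring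
      _ = _ := by rw [this]; ring
  rw [e2] at hsq2
  have h7 : κ ^ 2 * ((1 - Y) * Real.exp Y) ^ 2 ≤ κ ^ 2 * 0.93647 ^ 2 := mul_le_mul_of_nonneg_left hexp2 (sq_nonneg κ)
  have h8 : κ ^ 2 ≤ 0.29 ^ 2 := pow_le_pow_left₀ hk.le hk2 2
  nlinarith

end Sok
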