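import Pool.Agent.Lib.MP_816dec_an.R1C6

/-!
MP_816dec_an (A3, row R1-b6): the tilted far copy in normal form.
-/

set_option autoImplicit false

open Complex Set Filter Topology Metric

namespace Sok

private theorem q4 {x : ℝ} (hx : 0 ≤ x) : Real.sqrt (Real.sqrt x) ^ 4 = x := by
  rw [show Real.sqrt (Real.sqrt x) ^ 4 = (Real.sqrt (Real.sqrt x) ^ 2) ^ 2 by ring,
    Real.sq_sqrt (Real.sqrt_nonneg _), Real.sq_sqrt hx]

private theorem le_of_pow4 {a b : ℝ} (hb : 0 ≤ b) (h : a ^ 4 ≤ b ^ 4) : a ≤ b := by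
  by_contra hlt
  exact absurd h (not_le.2 (pow_lt_pow_left₀ (not_le.1 hlt) hb (by norm_num)))

private theorem hump6 {β R κ t β0 : ℝ} (hβ : 0 < β) (hκ : κ = β * R) (hβ0 : β ≤ β0) (hβ01 : β0 ≤ 11 / 100)
    (h1 : 5 * β0 ≤ 4.712 - t) (h2 : 5 * β0 ≤ 5.712 - t - 2.7183 * κ) (hκ0 : 0 < κ) : HUMP β R t ≤ 0.011 := by
  have hpi := Real.pi_gt_d6
  have he := Real.exp_one_lt_d9
  unfold HUMP
  rw [← hκ]
  have h3 : Real.exp (-((3 * Real.pi / 2 - t - max 0 (Real.exp 1 * κ - 1)) / β)) ≤ 0.0099 := by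
    have h4 : 5 * β ≤ 3 * Real.pi / 2 - t - max 0 (Real.exp 1 * κ - 1) := by
      have h5 : max 0 (Real.exp 1 * κ - 1) ≤ 3 * Real.pi / 2 - t - 5 * β := by
        apply max_le
        · norm_num at h1 ⊢; linarith
        · have : Real.exp 1 * κ ≤ 2.7183 * κ := mul_le_mul_of_nonneg_right (by norm_num at he ⊢; linarith) hκ0.le
          norm_num at h2 this ⊢
          linarith
      linarith
    have h6 : (5 : ℝ) ≤ (3 * Real.pi / 2 - t - max 0 (Real.exp 1 * κ - 1)) / β := by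
      rw [le_div_iff₀ hβ]; exact h4
    have h7 : Real.exp (-((3 * Real.pi / 2 - t - max 0 (Real.exp 1 * κ - 1)) / β)) ≤ Real.exp (-5) :=
      Real.exp_le_exp.2 (by linarith)
    refine h7.trans ?_
    have h8 : Real.exp (-5) = (Real.exp 1 ^ 5)⁻¹ := by
      rw [Real.exp_neg, ← Real.exp_nat_mul]; norm_num
    rw [h8, inv_le_comm₀ (by positivity) (by norm_num)]
    have h9 : (2.7 : ℝ) ^ 5 ≤ Real.exp 1 ^ 5 := pow_le_pow_left₀ (by norm_num)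
      (by have := Real.exp_one_gt_d9; norm_num at this ⊢; linarith) 5
    refine le_trans ?_ h9
    norm_num
  have h10 : 1 + β ≤ 1.11 := by norm_num at hβ01 ⊢; linarith
  calc (1 + β) * Real.exp (-((3 * Real.pi / 2 - t - max 0 (Real.exp 1 * κ - 1)) / β)) ≤ 1.11 * 0.0099 :=
        mul_le_mul h10 h3 (Real.exp_pos _).le (by norm_num)
    _ ≤ 0.011 := by norm_num

private theorem inv_sqrt_le {c a : ℝ} (hc : 0 < c) (ha0 : 0 ≤ a) (ha : 1 ≤ a ^ 2 * c) : 1 / Real.sqrt c ≤ a := by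
  have hs : 0 < Real.sqrt c := Real.sqrt_pos.2 hc
  rw [div_le_iff₀ hs]
  have h1 : (a * Real.sqrt c) ^ 2 = a ^ 2 * c := by rw [mul_pow, Real.sq_sqrt hc.le]
  have h2 : 0 ≤ a * Real.sqrt c := by positivity
  by_contra hlt
  have h3 : (a * Real.sqrt c) ^ 2 < 1 ^ 2 := pow_lt_pow_left₀ (not_le.1 hlt) h2 (by norm_num)
  rw [h1] at h3
  linarith

/-- `|σ|² = κ² e^{-2y}` and `x ≤ x2` -/
theorem sx_le_of {κ t : ℝ} (h : DomR κ t) (k2 y1 ey x2 : ℝ) (hk2 : κ ≤ k2) (hy1 : y1 ≤ sy κ t) (hy0 : 0 < y1)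
    (hey : Real.exp (-y1) ≤ ey) (hx20 : 0 ≤ x2) (hx2 : k2 ^ 2 * ey ^ 2 - y1 ^ 2 ≤ x2 ^ 2) : sx κ t ≤ x2 := by
  have hk := h.1
  have e1 : sx κ t ^ 2 + sy κ t ^ 2 = κ ^ 2 * Real.exp (-sy κ t) ^ 2 := by
    have h1 := sx_eq h
    have h2 := sp_eq h
    have h3 : sx κ t = κ * (Real.exp (-sy κ t) * Real.cos (sa κ t)) := by
      rw [← h1]; field_simp
    have h4 : sy κ t = κ * sp κ t := sy_eq_sp h
    have h5 := Real.sin_sq_add_cos_sq (sa κ t)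
    have h6 : sy κ t ^ 2 = (κ * (Real.exp (-sy κ t) * Real.sin (sa κ t))) ^ 2 := by
      rw [← h2, ← h4]
    have h7 : sx κ t ^ 2 = (κ * (Real.exp (-sy κ t) * Real.cos (sa κ t))) ^ 2 := by
      rw [← h3]
    rw [h6, h7]
    linear_combination (κ ^ 2 * Real.exp (-sy κ t) ^ 2) * h5
  have h2 : Real.exp (-sy κ t) ≤ ey := (Real.exp_le_exp.2 (by linarith)).trans hey
  have h3 : κ ^ 2 * Real.exp (-sy κ t) ^ 2 ≤ k2 ^ 2 * ey ^ 2 :=
    mul_le_mul (pow_le_pow_left₀ hk.le hk2 2) (pow_le_pow_left₀ (Real.exp_pos _).le h2 2) (by positivity) (by positivity)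
  have h4 : y1 ^ 2 ≤ sy κ t ^ 2 := pow_le_pow_left₀ hy0.le hy1 2
  have h5 : sx κ t ^ 2 ≤ x2 ^ 2 := by linarith
  by_contra hlt
  exact absurd h5 (not_le.2 (pow_lt_pow_left₀ (not_le.1 hlt) hx20 (by norm_num)))

theorem norm_s_eq {κ t : ℝ} (h : DomR κ t) : Real.sqrt (sx κ t ^ 2 + sy κ t ^ 2) = κ * Real.exp (-sy κ t) := by
  have hk := h.1
  have e1 : sx κ t ^ 2 + sy κ t ^ 2 = (κ * Real.exp (-sy κ t)) ^ 2 := by
    have h1 := sx_eq h
    have h2 := sp_eq h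
    have h3 : sx κ t = κ * (Real.exp (-sy κ t) * Real.cos (sa κ t)) := by
      rw [← h1]; field_simp
    have h4 : sy κ t = κ * sp κ t := sy_eq_sp h
    have h5 := Real.sin_sq_add_cos_sq (sa κ t)
    have h6 : sy κ t ^ 2 = (κ * (Real.exp (-sy κ t) * Real.sin (sa κ t))) ^ 2 := by
      rw [← h2, ← h4]
    have h7 : sx κ t ^ 2 = (κ * (Real.exp (-sy κ t) * Real.cos (sa κ t))) ^ 2 := by
      rw [← h3]
    rw [h6, h7]
    linear_combination (κ ^ 2 * Real.exp (-sy κ t) ^ 2) * h5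
  rw [e1, Real.sqrt_sq (by positivity)]

private theorem cLb {x y y1 x2 K ns cL : ℝ} (hcL : cL ≤ 0.96 + 0.8133 * y1 - 0.11 * x2 - 0.1303 * K) (hns : ns ≤ K)
    (hy : y1 ≤ y) (hx : x ≤ x2)
    (hns0 : 0 ≤ ns) (hy0 : 0 ≤ y) : cL ≤ (24 + 7 * x + 24 * y) / 25 - (117 * x + 44 * y) / 300 - 25 / 192 * ns := by
  norm_num at hcL
  linarith

private theorem cRb {x y y1 cR : ℝ} (hcR : cR ≤ 0.96 + 0.96 * y1 - 0.1263 * y1 ^ 2) (hy : y1 ≤ y) (hx : 0 ≤ x) :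
    cR ≤ (24 + 7 * x + 24 * y) / 25 := by
  have := sq_nonneg y1
  norm_num at hcR
  linarith

private theorem cRb2 {x y y1 cR κ : ℝ} (hcR : cR ≤ 0.96 + 0.96 * y1 - 0.1263 * y1 ^ 2) (hy : y1 ≤ y) (hx : 0 ≤ x)
    (hy0 : 0 < y1) (hy2 : y ≤ 1.39) (hk : κ ≤ 1.39) :
    cR ≤ (24 + 7 * x + 24 * y) / 25 + (117 * x + 44 * y) / 225 * y - κ * (25 / 108 * y ^ 2) := by
  have h2 : κ * y ^ 2 ≤ 1.39 * y ^ 2 := mul_le_mul_of_nonneg_right hk (sq_nonneg y)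
  have hyp : 0 < y := hy0.trans_le hy
  have h3 : 0 ≤ x * y := by positivity
  have h4 : 0 ≤ (y - y1) * (0.96 - 0.1263 * (y + y1)) := by
    apply mul_nonneg (by linarith)
    norm_num at hy2 ⊢
    linarith
  have h5 : 0 ≤ y ^ 2 := sq_nonneg y
  norm_num at hcR h2 h4
  linarith

private theorem ang_le {t κ x y : ℝ} (hk : κ ≤ 1.39) (ht2 : t + κ ≤ 1.76) (hx : x ≤ κ) (hy : y ≤ κ)
    (hpi : 3.141592 < Real.pi) : t + x + 4 * y / 3 ≤ 3 * Real.pi / 2 := by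
  norm_num at hk ht2 hpi
  linarith

/-- the tilted copy in normal form -/
theorem Td_nf {β r κ t σ h T : ℝ} (c y1 x2 ey e7 cL cR a b U k1 k2 β0 c0 E Gc : ℝ)
    (hβ : 0 < β) (hr : 0 < r) (hκ : κ = β * r) (hD : DomR κ t)
    (hc : sE κ t ≤ 1 - c * (t + κ) ^ 2 / (1 + κ ^ 2)) (hσ : t + κ = σ * h) (hT : T = r * h ^ 2 / (1 + κ ^ 2))
    (hk1 : k1 ≤ κ) (hk2 : κ ≤ k2) (hk0 : 0 < k1) (hk22 : k2 ≤ 1.39) (ht1 : 1.51 ≤ t + κ) (ht2 : t + κ ≤ 1.76)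
    (hβ0 : β ≤ β0) (hβ01 : β0 ≤ 11 / 100)
    (hy1 : y1 ≤ sy κ t) (hy0 : 0 < y1) (hy11 : y1 ≤ 1)
    (hey : Real.exp (-y1) ≤ ey) (he7 : Real.exp (-(y1 + 3 / 4)) ≤ e7)
    (hx20 : 0 ≤ x2) (hx21 : x2 ≤ 1) (hx2 : k2 ^ 2 * ey ^ 2 - y1 ^ 2 ≤ x2 ^ 2)
    (hcL0 : 0 < cL) (hcL : cL ≤ 0.96 + 0.8133 * y1 - 0.11 * x2 - 0.1303 * (k2 * ey))
    (hcR0 : 0 < cR) (hcR : cR ≤ 0.96 + 0.96 * y1 - 0.1263 * y1 ^ 2)
    (ha0 : 0 ≤ a) (ha : 1 ≤ a ^ 2 * cL) (hb0 : 0 ≤ b) (hb : 1 ≤ b ^ 2 * cR)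
    (hU0 : 0 ≤ U) (hU : ((a + b) / 2) ^ 4 * (1 + k2 ^ 2) ≤ U ^ 4)
    (hc0 : 1 ≤ c0 ^ 2 * (6.2831 * k1)) (hc00 : 0 ≤ c0)
    (hE1 : e7 + (x2 - 1) * (y1 + 3 / 4) / k2 ≤ E) (hE2 : 1 / 4 ≤ E)
    (hGc : c0 * (β0 / (y1 + 3 / 4) + 0.75 * β0 / y1 + β0 + 0.011 + 1 / 4) ≤ Gc) :
    ‖F (cexp (I * β)) (r * cexp (I * ((t + β / 2 : ℝ) : ℂ)))‖ ≤
      eN r κ * (U * Real.exp (-(T * (c * σ ^ 2)))) + Real.sqrt r * (Gc * Real.exp (r * E)) := by
  have hk := hD.1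
  have hpi := Real.pi_gt_d6
  have hpi2 := Real.pi_lt_d6
  have hA : 0 < 1 + κ ^ 2 := by positivity
  have hA0 : 0 ≤ 1 + k2 ^ 2 := by positivity
  have hx := sx_pos hD
  have hy : 0 < sy κ t := hy0.trans_le hy1
  have hxx2 := sx_le_of hD k2 y1 ey x2 hk2 hy1 hy0 hey hx20 hx2
  have hns := norm_s_eq hD
  obtain ⟨x, hxe⟩ : ∃ x, x = sx κ t := ⟨_, rfl⟩
  obtain ⟨y, hye⟩ : ∃ y, y = sy κ t := ⟨_, rfl⟩
  have hcs : β * r * Real.exp (-y) * Real.cos (t + x) = x := by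
    have h1 := sx_eq hD
    have h2 := sa_sub hD
    have h3 : sa κ t = t + x := by
      have h4 := h1
      rw [hxe]
      have h5 : sx κ t = κ * (Real.exp (-sy κ t) * Real.cos (sa κ t)) := by rw [← h1]; field_simp
      linarith
    rw [← hκ, hye, ← h3, hxe]
    have h5 : sx κ t = κ * (Real.exp (-sy κ t) * Real.cos (sa κ t)) := by rw [← h1]; field_simp
    linarith
  have hsn : β * r * Real.exp (-y) * Real.sin (t + x) = y := by
    have h1 := sx_eq hD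
    have h2 := sa_sub hD
    have h3 : sa κ t = t + x := by
      rw [hxe]
      have h5 : sx κ t = κ * (Real.exp (-sy κ t) * Real.cos (sa κ t)) := by rw [← h1]; field_simp
      linarith
    have h6 := sp_eq hD
    have h7 := sy_eq_sp hD
    rw [← hκ, hye, ← h3]
    rw [h6] at h7
    linarith
  rw [← hxe] at hx hxx2
  rw [← hye] at hy hy1
  rw [← hxe, ← hye] at hns
  have hyk : κ * Real.exp (-y) ≤ k2 * ey := by
    apply mul_le_mul hk2 ((Real.exp_le_exp.2 (by linarith)).trans hey) (Real.exp_pos _).le (hk.le.trans hk2)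
  have hye2 : y ≤ κ := by
    have h1 : y ≤ κ * Real.exp (-y) := by
      rw [← hns]
      apply Real.le_sqrt_of_sq_le
      have := sq_nonneg x
      linarith
    have h2 : Real.exp (-y) ≤ 1 := Real.exp_le_one_iff.2 (by linarith)
    exact h1.trans (mul_le_of_le_one_right hk.le h2)
  have hxk : x ≤ κ := by
    have h1 : x ≤ κ * Real.exp (-y) := by
      rw [← hns]
      apply Real.le_sqrt_of_sq_le
      have := sq_nonneg y
      linarith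
    have h2 : Real.exp (-y) ≤ 1 := Real.exp_le_one_iff.2 (by linarith)
    exact h1.trans (mul_le_of_le_one_right hk.le h2)
  have ht1' : (1.51 : ℝ) ≤ t + κ := ht1
  have hfc := far_cond hD (hk2.trans hk22) ht1
  rw [← hxe, ← hye] at hfc
  have hfar := far_Td hβ hr (t := t) (x := x) (y := y) (cL := cL) (cR := cR) (d := 1 / 4) hx hy (by norm_num)
    (by linarith) hcs hsn (by linarith) (ang_le (hk2.trans hk22) ht2 hxk hye2 hpi) hcL0
    (by rw [hns]; exact cLb hcL hyk hy1 hxx2 (mul_pos hk (Real.exp_pos _)).le hy.le) hcR0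
    (cRb hcR hy1 hx.le)
    (by
      rw [hns]
      have h1 : κ * Real.exp (-y) * Real.exp y * (25 / 108 * y ^ 2) = κ * (25 / 108 * y ^ 2) := by
        rw [mul_assoc κ, ← Real.exp_add]; simp
      rw [h1]
      exact cRb2 hcR hy1 hx.le hy0 (hye2.trans (hk2.trans hk22)) (hk2.trans hk22))
  refine hfar.trans ?_
  apply add_le_add
  · -- main term
    have h1 := inv_sqrt_le hcL0 ha0 ha
    have h2 := inv_sqrt_le hcR0 hb0 hb
    have h3 : 1 / 2 * (1 / Real.sqrt cL) + 1 / 2 * (1 / Real.sqrt cR) ≤ (a + b) / 2 := by linarith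
    have hβ' : β ≠ 0 := hβ.ne'
    have h4 : x * (1 + y) / β = r * sE κ t := by
      unfold sE
      rw [← hxe, ← hye, hκ]
      field_simp
    have h5 : Real.exp (x * (1 + y) / β) ≤ Real.exp r * Real.exp (-(T * (c * σ ^ 2))) := by
      rw [← Real.exp_add]
      apply Real.exp_le_exp.2
      rw [h4]
      have h6 := mul_le_mul_of_nonneg_left hc hr.le
      have e2 : r * (1 - c * (t + κ) ^ 2 / (1 + κ ^ 2)) = r + -(T * (c * σ ^ 2)) := by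
        rw [hσ, hT]; ring
      linarith
    have hS : 0 < Real.sqrt (Real.sqrt (1 + κ ^ 2)) := Real.sqrt_pos.2 (Real.sqrt_pos.2 hA)
    have h7 : (a + b) / 2 * Real.sqrt (Real.sqrt (1 + κ ^ 2)) ≤ U := by
      apply le_of_pow4 hU0
      rw [mul_pow, q4 hA.le]
      refine le_trans ?_ hU
      apply mul_le_mul_of_nonneg_left _ (by positivity)
      have := pow_le_pow_left₀ hk.le hk2 2
      linarith
    have h8 : (a + b) / 2 ≤ U / Real.sqrt (Real.sqrt (1 + κ ^ 2)) := by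
      rw [le_div_iff₀ hS]; exact h7
    calc Real.exp (x * (1 + y) / β) * (1 / 2 * (1 / Real.sqrt cL) + 1 / 2 * (1 / Real.sqrt cR))
        ≤ (Real.exp r * Real.exp (-(T * (c * σ ^ 2)))) * (U / Real.sqrt (Real.sqrt (1 + κ ^ 2))) := by
          apply mul_le_mul h5 (h3.trans h8) (by positivity) (by positivity)
      _ = eN r κ * (U * Real.exp (-(T * (c * σ ^ 2)))) := by unfold eN; ring
  · -- remaining terms
    have hC0 := C0_le hβ hr hκ hk1 hk0 hc00 hc0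
    have hC0p := (C0_pos hβ).le
    have hE0 : 0 ≤ E := by linarith
    have hee : 1 ≤ Real.exp (r * E) := Real.one_le_exp (by positivity)
    have hh : HUMP β r t ≤ 0.011 := by
      apply hump6 hβ hκ hβ0 hβ01 _ _ hk
      · norm_num at hβ01 ⊢; linarith
      · norm_num at hβ01 ⊢; linarith
    have hβ00 : 0 < β0 := hβ.trans_le hβ0
    have hk2p : 0 < k2 := hk.trans_le hk2
    have t1 : Real.exp (r * Real.exp (-(y + 3 / 4))) * (β / (y + 3 / 4) * Real.exp ((x - 1) * (y + 3 / 4) / β)) ≤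
        β0 / (y1 + 3 / 4) * Real.exp (r * E) := by
      have h1 : Real.exp (-(y + 3 / 4)) ≤ e7 := (Real.exp_le_exp.2 (by linarith)).trans he7
      have h2 : (x - 1) * (y + 3 / 4) / κ ≤ (x2 - 1) * (y1 + 3 / 4) / k2 := by
        rw [div_le_div_iff₀ hk hk2p]
        have h3 : (1 - x2) * (y1 + 3 / 4) ≤ (1 - x) * (y + 3 / 4) := by
          apply mul_le_mul (by linarith) (by linarith) (by linarith) (by linarith)
        have h4 : 0 ≤ (1 - x2) * (y1 + 3 / 4) := mul_nonneg (by linarith) (by linarith)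
        have h5 : (1 - x2) * (y1 + 3 / 4) * κ ≤ (1 - x) * (y + 3 / 4) * k2 :=
          mul_le_mul h3 hk2 hk.le (h4.trans h3)
        linarith
      have h3 : Real.exp (r * Real.exp (-(y + 3 / 4))) * Real.exp ((x - 1) * (y + 3 / 4) / β) ≤ Real.exp (r * E) := by
        rw [← Real.exp_add]
        apply Real.exp_le_exp.2
        have h4 : (x - 1) * (y + 3 / 4) / β = r * ((x - 1) * (y + 3 / 4) / κ) := by
          rw [hκ]; field_simp
        rw [h4, ← mul_add]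
        apply mul_le_mul_of_nonneg_left _ hr.le
        linarith
      have h4 : β / (y + 3 / 4) ≤ β0 / (y1 + 3 / 4) :=
        div_le_div₀ hβ00.le hβ0 (by linarith) (by linarith)
      calc Real.exp (r * Real.exp (-(y + 3 / 4))) * (β / (y + 3 / 4) * Real.exp ((x - 1) * (y + 3 / 4) / β))
          = β / (y + 3 / 4) * (Real.exp (r * Real.exp (-(y + 3 / 4))) * Real.exp ((x - 1) * (y + 3 / 4) / β)) := by ring
        _ ≤ β0 / (y1 + 3 / 4) * Real.exp (r * E) := mul_le_mul h4 h3 (by positivity) (by positivity)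
    have t2 : β / (x + 4 * y / 3) ≤ 0.75 * β0 / y1 * Real.exp (r * E) := by
      have h1 : β / (x + 4 * y / 3) ≤ β0 / (4 * y1 / 3) :=
        div_le_div₀ hβ00.le hβ0 (by linarith) (by linarith)
      have h2 : β0 / (4 * y1 / 3) = 0.75 * β0 / y1 := by field_simp; norm_num
      rw [h2] at h1
      have h3 : 0 ≤ 0.75 * β0 / y1 := by positivity
      exact h1.trans (le_mul_of_one_le_right h3 hee)
    have t3 : β * Real.exp (-((x + 4 * y / 3) / β)) ≤ β0 * Real.exp (r * E) := by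
      have h1 : Real.exp (-((x + 4 * y / 3) / β)) ≤ 1 := by
        apply Real.exp_le_one_iff.2
        have : 0 ≤ (x + 4 * y / 3) / β := by positivity
        linarith
      exact mul_le_mul hβ0 (h1.trans hee) (Real.exp_pos _).le hβ00.le
    have t4 : HUMP β r t ≤ 0.011 * Real.exp (r * E) :=
      hh.trans (le_mul_of_one_le_right (by norm_num) hee)
    have t5 : 1 / 4 * Real.exp (r * Real.sin (1 / 4)) ≤ 1 / 4 * Real.exp (r * E) := by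
      apply mul_le_mul_of_nonneg_left _ (by norm_num)
      apply Real.exp_le_exp.2
      apply mul_le_mul_of_nonneg_left _ hr.le
      have := Real.sin_le (x := 1 / 4) (by norm_num)
      linarith
    have hS : 0 ≤ β0 / (y1 + 3 / 4) + 0.75 * β0 / y1 + β0 + 0.011 + 1 / 4 := by positivity
    have hsum : Real.exp (r * Real.exp (-(y + 3 / 4))) * (β / (y + 3 / 4) * Real.exp ((x - 1) * (y + 3 / 4) / β)) +
        β / (x + 4 * y / 3) + β * Real.exp (-((x + 4 * y / 3) / β)) + HUMP β r t +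
        1 / 4 * Real.exp (r * Real.sin (1 / 4)) ≤
        (β0 / (y1 + 3 / 4) + 0.75 * β0 / y1 + β0 + 0.011 + 1 / 4) * Real.exp (r * E) := by
      have e1 : (β0 / (y1 + 3 / 4) + 0.75 * β0 / y1 + β0 + 0.011 + 1 / 4) * Real.exp (r * E) =
        β0 / (y1 + 3 / 4) * Real.exp (r * E) + 0.75 * β0 / y1 * Real.exp (r * E) + β0 * Real.exp (r * E) +
        0.011 * Real.exp (r * E) + 1 / 4 * Real.exp (r * E) := by ring
      rw [e1]
      exact add_le_add (add_le_add (add_le_add (add_le_add t1 t2) t3) t4) t5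
    calc C0 β * (Real.exp (r * Real.exp (-(y + 3 / 4))) * (β / (y + 3 / 4) * Real.exp ((x - 1) * (y + 3 / 4) / β)) +
        β / (x + 4 * y / 3) + β * Real.exp (-((x + 4 * y / 3) / β)) + HUMP β r t +
        1 / 4 * Real.exp (r * Real.sin (1 / 4)))
        ≤ C0 β * ((β0 / (y1 + 3 / 4) + 0.75 * β0 / y1 + β0 + 0.011 + 1 / 4) * Real.exp (r * E)) :=
          mul_le_mul_of_nonneg_left hsum hC0p
      _ ≤ (Real.sqrt r * c0) * ((β0 / (y1 + 3 / 4) + 0.75 * β0 / y1 + β0 + 0.011 + 1 / 4) * Real.exp (r * E)) :=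
          mul_le_mul_of_nonneg_right hC0 (by positivity)
      _ = Real.sqrt r * ((c0 * (β0 / (y1 + 3 / 4) + 0.75 * β0 / y1 + β0 + 0.011 + 1 / 4)) * Real.exp (r * E)) := by ring
      _ ≤ Real.sqrt r * (Gc * Real.exp (r * E)) := by gcongr

/-- TILTED cell -/
theorem cellTW {β r t κ s h T Y g : ℝ} {k : ℤ}
    (c y1 x2 ey e7 cL cR a b U k1 k2 β0 c0 E Gc R0 ℓ q T0 Ea ea H2 g2 L ω ρ0 Eb eb Rf H1 : ℝ)
    (hβ : 0 < β) (hκ : κ = β * r) (hs : t + κ = s * h) (hT : T = r * h ^ 2 / (1 + κ ^ 2))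
    (hh2 : h ^ 2 ≤ H2) (hH2 : 0 ≤ H2)
    (hD : DomR κ (t + (k - 1) * h))
    (hc : sE κ (t + (k - 1) * h) ≤ 1 - c * ((t + (k - 1) * h) + κ) ^ 2 / (1 + κ ^ 2))
    (hk1 : k1 ≤ κ) (hk2 : κ ≤ k2)
    (ht1 : 1.51 ≤ (s + k - 1) * h) (ht2 : (s + k - 1) * h ≤ 1.76)
    (hR0' : R0 ≤ r) (hβ0 : β ≤ β0) (hT0 : T0 ≤ T)
    (hY : eN r κ * (ℓ * Real.exp (-(T * g))) ≤ Y) (hg0 : 0 ≤ g) (hg2 : g ≤ g2)
    (hq : q ≤ c * (s + k - 1) ^ 2 - g)
    (hy1 : y1 ≤ sy κ (t + (k - 1) * h))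
    (hk0 : 0 < k1) (hk22 : k2 ≤ 1.39) (hβ01 : β0 ≤ 11 / 100) (hy0 : 0 < y1) (hy11 : y1 ≤ 1)
    (hey : Real.exp (-y1) ≤ ey) (he7 : Real.exp (-(y1 + 3 / 4)) ≤ e7)
    (hx20 : 0 ≤ x2) (hx21 : x2 ≤ 1) (hx2 : k2 ^ 2 * ey ^ 2 - y1 ^ 2 ≤ x2 ^ 2)
    (hcL0 : 0 < cL) (hcL : cL ≤ 0.96 + 0.8133 * y1 - 0.11 * x2 - 0.1303 * (k2 * ey))
    (hcR0 : 0 < cR) (hcR : cR ≤ 0.96 + 0.96 * y1 - 0.1263 * y1 ^ 2)
    (ha0 : 0 ≤ a) (ha : 1 ≤ a ^ 2 * cL) (hb0 : 0 ≤ b) (hb : 1 ≤ b ^ 2 * cR)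
    (hU0 : 0 ≤ U) (hU : ((a + b) / 2) ^ 4 * (1 + k2 ^ 2) ≤ U ^ 4)
    (hc0 : 1 ≤ c0 ^ 2 * (6.2831 * k1)) (hc00 : 0 ≤ c0)
    (hE1 : e7 + (x2 - 1) * (y1 + 3 / 4) / k2 ≤ E) (hE2 : 1 / 4 ≤ E)
    (hGc : c0 * (β0 / (y1 + 3 / 4) + 0.75 * β0 / y1 + β0 + 0.011 + 1 / 4) ≤ Gc)
    (hR0 : 0 < R0)
    (hT00 : 0 ≤ T0) (hq0 : 0 ≤ q) (hEa : Real.exp (-(T0 * q)) ≤ Ea) (hl0 : 0 < ℓ) (hea : U * Ea ≤ ea * ℓ)
    (hL0 : 0 < L) (hL : L ^ 4 * (1 + k2 ^ 2) ≤ ℓ ^ 4) (hω : ω + H2 * g2 / (1 + k1 ^ 2) ≤ 1)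
    (hδ3 : 3 ≤ 2 * R0 * (ω - E)) (hq1 : 1 ≤ T0 * q) (hRf : 1 + k2 ^ 2 ≤ Rf * H1) (hH1 : 0 < H1) (hh1 : H1 ≤ h ^ 2)
    (hρ : R0 ≤ ρ0 ^ 2) (hρ0 : 0 ≤ ρ0)
    (hEb : Real.exp (-(R0 * (ω - E))) ≤ Eb) (hGc0 : 0 ≤ Gc) (heb : Gc * (ρ0 * Eb) ≤ eb * L) :
    ‖Xf β r h t k‖ ≤ (ea + eb) * Y ∧ r * ‖Xf β r h t k‖ ≤ (Rf * T0 * ea + R0 * eb) * Y := by
  have hδ : 1 ≤ 2 * R0 * (ω - E) := by linarith
  have hR : 0 < r := hR0.trans_le hR0'
  have hκp : 0 < κ := hk0.trans_le hk1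
  obtain ⟨t', ht'⟩ : ∃ t', t' = t + (k - 1) * h := ⟨_, rfl⟩
  rw [← ht'] at hD hc hy1
  have hσ : t' + κ = (s + k - 1) * h := by rw [ht']; linear_combination hs
  have hF := Td_nf c y1 x2 ey e7 cL cR a b U k1 k2 β0 c0 E Gc hβ hR hκ hD hc hσ hT hk1 hk2 hk0 hk22
    (by rw [hσ]; exact ht1) (by rw [hσ]; exact ht2) hβ0 hβ01 hy1 hy0 hy11 hey he7 hx20 hx21 hx2 hcL0 hcL hcR0 hcR
    ha0 ha hb0 hb hU0 hU hc0 hc00 hE1 hE2 hGc
  have hN := eN_pos r κ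
  have hX : ‖Xf β r h t k‖ ≤ eN r κ * (U * Real.exp (-(T * (c * (s + k - 1) ^ 2)))) +
      Real.sqrt r * (Gc * Real.exp (r * E)) := by
    unfold Xf
    rw [← ht']
    exact hF
  have h1 := cmpT hN (le_refl (eN r κ * (U * Real.exp (-(T * (c * (s + k - 1) ^ 2)))))) hY hT0 hT00 hq hq0 hEa hU0
    hl0 hea
  have hkk : κ ^ 2 ≤ k2 ^ 2 := pow_le_pow_left₀ hκp.le hk2 2
  have h2 : L * Real.exp (r * ω) ≤ Y := by
    refine Y_exp hT hR.le hk0.le hk1 hY hl0.le hL0.le (le_trans ?_ hL) (le_trans ?_ hω) hg0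
    · exact mul_le_mul_of_nonneg_left (by linarith) (by positivity)
    · have hA1 : 0 < 1 + k1 ^ 2 := by positivity
      have : h ^ 2 * g / (1 + k1 ^ 2) ≤ H2 * g2 / (1 + k1 ^ 2) := by
        apply div_le_div_of_nonneg_right _ hA1.le
        exact mul_le_mul hh2 hg2 hg0 hH2
      linarith
  have h3 := cmpR hR0' hR0 hGc0 h2 hL0 hδ hρ hρ0 hEb heb
  have hT0p : 0 < T0 := by
    rcases hT00.lt_or_eq with h5 | h5
    · exact h5
    · rw [← h5] at hq1; linarith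
  have hrT : r ≤ Rf * T := r_le_T hT hR hκp hk2 hRf hH1 hh1
  have h1w := cmpTW hN hY hT0 hT0p hq hq1 hEa hU0 hl0 hR.le hrT (Rf_nonneg hRf hH1) hea
  have h3w := cmpRW hR0' hR0 hGc0 h2 hL0 hδ3 hρ hρ0 hEb heb
  refine ⟨?_, ?_⟩
  · rw [add_mul]
    exact hX.trans (add_le_add h1 h3)
  · have h4 := mul_le_mul_of_nonneg_left hX hR.le
    rw [mul_add] at h4
    rw [add_mul]
    exact h4.trans (add_le_add h1w h3w)

end Sok
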