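import Pool.Agent.Lib.MP_816dec_an.R1X

/-!
MP_816dec_an (A3, row R1), SINGLE CASES, no discs: the far copies.
-/

set_option autoImplicit false

open Complex Set Filter Topology Metric

namespace Sok

private theorem q4 {x : ℝ} (hx : 0 ≤ x) : Real.sqrt (Real.sqrt x) ^ 4 = x := by
  rw [show Real.sqrt (Real.sqrt x) ^ 4 = (Real.sqrt (Real.sqrt x) ^ 2) ^ 2 by ring,
    Real.sq_sqrt (Real.sqrt_nonneg _), Real.sq_sqrt hx]

private theorem le_of_pow4 {a b : ℝ} (hb : 0 ≤ b) (h : a ^ 4 ≤ b ^ 4) : a ≤ b := by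
  by_contra hlt
  exact absurd h (not_le.2 (pow_lt_pow_left₀ (not_le.1 hlt) hb (by norm_num)))

private theorem exp_le4 {w : ℝ} (h0 : 0 ≤ w) (h1 : w ≤ 1) :
    Real.exp w ≤ 1 + w + w ^ 2 * (1 / 2 + w / 6 + w ^ 2 / 19) := by
  have h := Real.exp_bound' h0 h1 (n := 4) (by norm_num)
  norm_num [Finset.sum_range_succ, Nat.factorial] at h
  nlinarith [pow_nonneg h0 4]

/-- left, exponent of the horizontal line of height `-x`, `x = κ p`, `p = l b/(1+κ²)` -/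
theorem EL_form {κ b p : ℝ} (l c k1 k2 ψ ψ1 b1 b2 P2 w1 w2 Φ G : ℝ) (hκ : 0 < κ) (hb1 : b1 ≤ b) (hb2 : b ≤ b2)
    (hk1 : k1 ≤ κ) (hk2 : κ ≤ k2) (hψ : κ / (1 + κ ^ 2) ≤ ψ) (hψ1 : ψ1 ≤ κ / (1 + κ ^ 2)) (hψ0 : 0 ≤ ψ1)
    (hk0 : 0 ≤ k1) (hb0 : 0 < b1) (hl : 0 < l)
    (hP : P2 = l * b2 / (1 + k1 ^ 2)) (hw2 : w2 = ψ * (l * b2)) (hw21 : w2 ≤ 1) (hw1 : w1 = ψ1 * (l * b1))
    (hΦ : Φ = 1 / 2 + w2 / 6 + w2 ^ 2 / 19) (hG : G = 1 - w1 + w1 ^ 2 / 2 - w1 ^ 3 / 6 + w1 ^ 4 / 24)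
    (hn1 : k1 ^ 2 * Φ + (G / 2 + P2 ^ 2 * G ^ 3 / 24 + P2 ^ 4 * G ^ 5 / 24) ≤ (1 + k1 ^ 2) * (1 / l - c / l ^ 2))
    (hn2 : k2 ^ 2 * Φ + (G / 2 + P2 ^ 2 * G ^ 3 / 24 + P2 ^ 4 * G ^ 5 / 24) ≤ (1 + k2 ^ 2) * (1 / l - c / l ^ 2))
    (hp : p = l * b / (1 + κ ^ 2)) :
    (0 < p ∧ p ≤ P2 ∧ w1 ≤ κ * p ∧ κ * p ≤ w2 ∧ Real.exp (-(κ * p)) ≤ G) ∧
    Real.exp (κ * p) + p ^ 2 * Real.exp (-(κ * p)) / 2 + p ^ 4 * Real.exp (-(κ * p)) ^ 3 / 24 +
      p ^ 6 * Real.exp (-(κ * p)) ^ 5 / 24 - κ * p - p * b ≤ 1 - c * b ^ 2 / (1 + κ ^ 2) := by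
  have hA : 0 < 1 + κ ^ 2 := by positivity
  have hA1 : 0 < 1 + k1 ^ 2 := by positivity
  have hbp : 0 < b := hb0.trans_le hb1
  have hp0 : 0 < p := by rw [hp]; positivity
  have hpP : p ≤ P2 := by
    rw [hp, hP]
    apply div_le_div₀ (by nlinarith) (mul_le_mul_of_nonneg_left hb2 hl.le) hA1
    nlinarith
  have hv0 : 0 ≤ κ * p := mul_nonneg hκ.le hp0.le
  have ev : κ * p = κ / (1 + κ ^ 2) * (l * b) := by rw [hp]; field_simp
  have hψp : 0 ≤ ψ := le_trans (by positivity) hψ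
  have hvw : κ * p ≤ w2 := by
    rw [ev, hw2]
    exact mul_le_mul hψ (mul_le_mul_of_nonneg_left hb2 hl.le) (by positivity) hψp
  have hzv : w1 ≤ κ * p := by
    rw [ev, hw1]
    exact mul_le_mul hψ1 (mul_le_mul_of_nonneg_left hb1 hl.le) (by positivity) (by positivity)
  have hw10 : 0 ≤ w1 := by rw [hw1]; positivity
  have hs0 := Real.exp_pos (-(κ * p))
  have hGe : Real.exp (-(κ * p)) ≤ G := by
    have h1 : Real.exp (-(κ * p)) ≤ Real.exp (-w1) := Real.exp_le_exp.2 (by linarith)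
    have h2 := r1_exp_neg4 hw10
    rw [hG]
    exact h1.trans h2
  have hG0 : 0 ≤ G := hs0.le.trans hGe
  refine ⟨⟨hp0, hpP, hzv, hvw, hGe⟩, ?_⟩
  have h2 : Real.exp (κ * p) ≤ 1 + κ * p + (κ * p) ^ 2 * Φ := by
    have h21 := exp_le4 hv0 (hvw.trans hw21)
    have h22 : 1 / 2 + κ * p / 6 + (κ * p) ^ 2 / 19 ≤ Φ := by
      rw [hΦ]
      have : (κ * p) ^ 2 ≤ w2 ^ 2 := pow_le_pow_left₀ hv0 hvw 2
      linarith
    have h23 := mul_le_mul_of_nonneg_left h22 (sq_nonneg (κ * p))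
    linarith
  have h6 : p ^ 2 * Real.exp (-(κ * p)) / 2 ≤ p ^ 2 * G / 2 := by
    have := mul_le_mul_of_nonneg_left hGe (sq_nonneg p)
    linarith
  have h7 : p ^ 4 * Real.exp (-(κ * p)) ^ 3 / 24 ≤ p ^ 2 * (P2 ^ 2 * G ^ 3) / 24 := by
    have hPp : p ^ 2 ≤ P2 ^ 2 := pow_le_pow_left₀ hp0.le hpP 2
    have h5 : Real.exp (-(κ * p)) ^ 3 ≤ G ^ 3 := pow_le_pow_left₀ hs0.le hGe 3
    have h8 : p ^ 2 * Real.exp (-(κ * p)) ^ 3 ≤ P2 ^ 2 * G ^ 3 :=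
      mul_le_mul hPp h5 (by positivity) (by positivity)
    have h81 := mul_le_mul_of_nonneg_left h8 (sq_nonneg p)
    have e : p ^ 4 * Real.exp (-(κ * p)) ^ 3 / 24 = p ^ 2 * (p ^ 2 * Real.exp (-(κ * p)) ^ 3) / 24 := by ring
    rw [e]
    linarith
  have h7' : p ^ 6 * Real.exp (-(κ * p)) ^ 5 / 24 ≤ p ^ 2 * (P2 ^ 4 * G ^ 5) / 24 := by
    have hPp : p ^ 4 ≤ P2 ^ 4 := pow_le_pow_left₀ hp0.le hpP 4
    have h5 : Real.exp (-(κ * p)) ^ 5 ≤ G ^ 5 := pow_le_pow_left₀ hs0.le hGe 5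
    have h8 : p ^ 4 * Real.exp (-(κ * p)) ^ 5 ≤ P2 ^ 4 * G ^ 5 :=
      mul_le_mul hPp h5 (by positivity) (by positivity)
    have h81 := mul_le_mul_of_nonneg_left h8 (sq_nonneg p)
    have e : p ^ 6 * Real.exp (-(κ * p)) ^ 5 / 24 = p ^ 2 * (p ^ 4 * Real.exp (-(κ * p)) ^ 5) / 24 := by ring
    rw [e]
    linarith
  obtain ⟨C, hC⟩ : ∃ C, C = 1 / l - c / l ^ 2 := ⟨_, rfl⟩
  rw [← hC] at hn1 hn2
  have hbp' : b = p * (1 + κ ^ 2) / l := by rw [hp]; field_simp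
  have e2 : p * b = p ^ 2 * (1 + κ ^ 2) / l := by rw [hbp']; ring
  have e3 : c * b ^ 2 / (1 + κ ^ 2) = c * p ^ 2 * (1 + κ ^ 2) / l ^ 2 := by
    rw [hbp']; field_simp
  have e4 : p ^ 2 * (1 + κ ^ 2) / l - c * p ^ 2 * (1 + κ ^ 2) / l ^ 2 = p ^ 2 * ((1 + κ ^ 2) * C) := by
    rw [hC]; field_simp
  have h9 : κ ^ 2 * Φ + (G / 2 + P2 ^ 2 * G ^ 3 / 24 + P2 ^ 4 * G ^ 5 / 24) ≤ (1 + κ ^ 2) * C := by
    have hh1 : k1 ^ 2 ≤ κ ^ 2 := pow_le_pow_left₀ hk0 hk1 2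
    have hh2 : κ ^ 2 ≤ k2 ^ 2 := pow_le_pow_left₀ hκ.le hk2 2
    rcases le_total Φ C with hc | hc
    · linarith only [mul_le_mul_of_nonneg_right hh1 (sub_nonneg.2 hc), hn1, hn2]
    · linarith only [mul_le_mul_of_nonneg_right hh2 (sub_nonneg.2 hc), hn1, hn2]
  have h10 := mul_le_mul_of_nonneg_left h9 (sq_nonneg p)
  rw [e3]
  have e5 : (κ * p) ^ 2 * Φ = p ^ 2 * (κ ^ 2 * Φ) := by ring
  linarith

/-- right, exponent of the horizontal line of height `x`, `x = κ p`, `p = l τ/(1+κ²)` -/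
theorem ER_form {κ τ p : ℝ} (l c k1 k2 ψ ψ1 τ1 τm P w z φ E : ℝ) (hκ : 0 < κ) (ht : τ1 ≤ τ)
    (htm : τ ≤ τm) (hτ1 : 0 < τ1) (hk1 : k1 ≤ κ) (hk2 : κ ≤ k2)
    (hψ : κ / (1 + κ ^ 2) ≤ ψ) (hψ1 : ψ1 ≤ κ / (1 + κ ^ 2)) (hψ0 : 0 ≤ ψ1)
    (hk0 : 0 ≤ k1) (hl : 0 < l)
    (hP : P = l * τm / (1 + k1 ^ 2)) (hw : w = ψ * (l * τm)) (hw1 : w ≤ 1)
    (hz : z = ψ1 * (l * τ1)) (hφ : φ = 1 / 2 - z / 6 + z ^ 2 / 24)
    (hE' : E = 1 + w + w ^ 2 * (1 / 2 + w / 6 + w ^ 2 / 19))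
    (hn1 : k1 ^ 2 * φ + (E / 2 + P ^ 2 * E ^ 3 / 24 + P ^ 4 * E ^ 5 / 24) ≤ (1 + k1 ^ 2) * (1 / l - c / l ^ 2))
    (hn2 : k2 ^ 2 * φ + (E / 2 + P ^ 2 * E ^ 3 / 24 + P ^ 4 * E ^ 5 / 24) ≤ (1 + k2 ^ 2) * (1 / l - c / l ^ 2))
    (hp : p = l * τ / (1 + κ ^ 2)) :
    (0 < p ∧ p ≤ P ∧ κ * p ≤ w ∧ Real.exp (κ * p) ≤ E) ∧
    Real.exp (-(κ * p)) + p ^ 2 * Real.exp (κ * p) / 2 + p ^ 4 * Real.exp (κ * p) ^ 3 / 24 +
      p ^ 6 * Real.exp (κ * p) ^ 5 / 24 + κ * p - p * τ ≤ 1 - c * τ ^ 2 / (1 + κ ^ 2) := by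
  have hA : 0 < 1 + κ ^ 2 := by positivity
  have hA1 : 0 < 1 + k1 ^ 2 := by positivity
  have hτp : 0 < τ := hτ1.trans_le ht
  have hp0 : 0 < p := by rw [hp]; positivity
  have hpP : p ≤ P := by
    rw [hp, hP]
    apply div_le_div₀ (by nlinarith) (mul_le_mul_of_nonneg_left htm hl.le) hA1
    nlinarith
  have hv0 : 0 ≤ κ * p := mul_nonneg hκ.le hp0.le
  have ev : κ * p = κ / (1 + κ ^ 2) * (l * τ) := by rw [hp]; field_simp
  have hvw : κ * p ≤ w := by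
    rw [ev, hw]
    apply mul_le_mul hψ (mul_le_mul_of_nonneg_left htm hl.le) (by positivity)
    exact le_trans (by positivity) hψ
  have hzv : z ≤ κ * p := by
    rw [ev, hz]
    apply mul_le_mul hψ1 (mul_le_mul_of_nonneg_left ht hl.le) (by positivity) (by positivity)
  have hz0 : 0 ≤ z := by rw [hz]; positivity
  have h2 : Real.exp (-(κ * p)) ≤ 1 - κ * p + (κ * p) ^ 2 * φ := by
    have h21 := r1_exp_neg4 hv0
    have h22 : 1 / 2 - (κ * p) / 6 + (κ * p) ^ 2 / 24 ≤ φ := by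
      rw [hφ]
      nlinarith [mul_nonneg (sub_nonneg.2 hzv) (by linarith : 0 ≤ 4 - (κ * p + z))]
    have h23 := mul_le_mul_of_nonneg_left h22 (sq_nonneg (κ * p))
    have e : (κ * p) ^ 2 * (1 / 2 - κ * p / 6 + (κ * p) ^ 2 / 24) =
      (κ * p) ^ 2 / 2 - (κ * p) ^ 3 / 6 + (κ * p) ^ 4 / 24 := by ring
    linarith
  have h3 : Real.exp (κ * p) ≤ E := by
    have h31 := exp_le4 hv0 (hvw.trans hw1)
    rw [hE']
    have h32 : (κ * p) ^ 2 ≤ w ^ 2 := pow_le_pow_left₀ hv0 hvw 2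
    have h34 : 1 / 2 + κ * p / 6 + (κ * p) ^ 2 / 19 ≤ 1 / 2 + w / 6 + w ^ 2 / 19 := by linarith
    have h33 := mul_le_mul h32 h34 (by positivity) (by positivity)
    linarith
  refine ⟨⟨hp0, hpP, hvw, h3⟩, ?_⟩
  have h4 : 0 < Real.exp (κ * p) := Real.exp_pos _
  have h6 : p ^ 2 * Real.exp (κ * p) / 2 ≤ p ^ 2 * E / 2 := by
    have := mul_le_mul_of_nonneg_left h3 (sq_nonneg p)
    linarith
  have h7 : p ^ 4 * Real.exp (κ * p) ^ 3 / 24 ≤ p ^ 2 * (P ^ 2 * E ^ 3) / 24 := by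
    have hPp : p ^ 2 ≤ P ^ 2 := pow_le_pow_left₀ hp0.le hpP 2
    have h5 : Real.exp (κ * p) ^ 3 ≤ E ^ 3 := pow_le_pow_left₀ h4.le h3 3
    have h8 : p ^ 2 * Real.exp (κ * p) ^ 3 ≤ P ^ 2 * E ^ 3 :=
      mul_le_mul hPp h5 (by positivity) (by positivity)
    have h81 := mul_le_mul_of_nonneg_left h8 (sq_nonneg p)
    have e : p ^ 4 * Real.exp (κ * p) ^ 3 / 24 = p ^ 2 * (p ^ 2 * Real.exp (κ * p) ^ 3) / 24 := by ring
    rw [e]
    linarith
  have h7' : p ^ 6 * Real.exp (κ * p) ^ 5 / 24 ≤ p ^ 2 * (P ^ 4 * E ^ 5) / 24 := by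
    have hPp : p ^ 4 ≤ P ^ 4 := pow_le_pow_left₀ hp0.le hpP 4
    have h5 : Real.exp (κ * p) ^ 5 ≤ E ^ 5 := pow_le_pow_left₀ h4.le h3 5
    have h8 : p ^ 4 * Real.exp (κ * p) ^ 5 ≤ P ^ 4 * E ^ 5 :=
      mul_le_mul hPp h5 (by positivity) (by positivity)
    have h81 := mul_le_mul_of_nonneg_left h8 (sq_nonneg p)
    have e : p ^ 6 * Real.exp (κ * p) ^ 5 / 24 = p ^ 2 * (p ^ 4 * Real.exp (κ * p) ^ 5) / 24 := by ring
    rw [e]
    linarith
  obtain ⟨C, hC⟩ : ∃ C, C = 1 / l - c / l ^ 2 := ⟨_, rfl⟩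
  rw [← hC] at hn1 hn2
  have hbp' : τ = p * (1 + κ ^ 2) / l := by rw [hp]; field_simp
  have e2 : p * τ = p ^ 2 * (1 + κ ^ 2) / l := by rw [hbp']; ring
  have e3 : c * τ ^ 2 / (1 + κ ^ 2) = c * p ^ 2 * (1 + κ ^ 2) / l ^ 2 := by
    rw [hbp']; field_simp
  have e4 : p ^ 2 * (1 + κ ^ 2) / l - c * p ^ 2 * (1 + κ ^ 2) / l ^ 2 = p ^ 2 * ((1 + κ ^ 2) * C) := by
    rw [hC]; field_simp
  have h9 : κ ^ 2 * φ + (E / 2 + P ^ 2 * E ^ 3 / 24 + P ^ 4 * E ^ 5 / 24) ≤ (1 + κ ^ 2) * C := by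
    have hh1 : k1 ^ 2 ≤ κ ^ 2 := pow_le_pow_left₀ hk0 hk1 2
    have hh2 : κ ^ 2 ≤ k2 ^ 2 := pow_le_pow_left₀ hκ.le hk2 2
    rcases le_total φ C with hc | hc
    · linarith only [mul_le_mul_of_nonneg_right hh1 (sub_nonneg.2 hc), hn1, hn2]
    · linarith only [mul_le_mul_of_nonneg_right hh2 (sub_nonneg.2 hc), hn1, hn2]
  have h10 := mul_le_mul_of_nonneg_left h9 (sq_nonneg p)
  rw [e3]
  have e5 : (κ * p) ^ 2 * φ = p ^ 2 * (κ ^ 2 * φ) := by ring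
  linarith

theorem C0_le {β R κ k1 c0 : ℝ} (hβ : 0 < β) (hR : 0 < R) (hκ : κ = β * R) (hk1 : k1 ≤ κ) (hk0 : 0 < k1)
    (hc00 : 0 ≤ c0) (hc0 : 1 ≤ c0 ^ 2 * (6.2831 * k1)) : C0 β ≤ Real.sqrt R * c0 := by
  have hpi := Real.pi_gt_d6
  unfold C0
  have hs : 0 < Real.sqrt (2 * Real.pi * β) := Real.sqrt_pos.2 (by positivity)
  rw [div_le_iff₀ hs]
  have h1 : (1 : ℝ) = Real.sqrt 1 := by rw [Real.sqrt_one]
  have h2 : Real.sqrt R * c0 * Real.sqrt (2 * Real.pi * β) = Real.sqrt (R * c0 ^ 2 * (2 * Real.pi * β)) := by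
    rw [Real.sqrt_mul (by positivity : 0 ≤ R * c0 ^ 2), Real.sqrt_mul hR.le (c0 ^ 2), Real.sqrt_sq hc00]
  rw [h2, h1]
  apply Real.sqrt_le_sqrt
  have h3 : R * c0 ^ 2 * (2 * Real.pi * β) = c0 ^ 2 * (2 * Real.pi * κ) := by rw [hκ]; ring
  rw [h3]
  refine hc0.trans (mul_le_mul_of_nonneg_left ?_ (sq_nonneg c0))
  nlinarith

private theorem hump_le {β R κ t β0 : ℝ} (hβ : 0 < β) (hκ : κ = β * R) (hβ0 : β ≤ β0) (hβ01 : β0 ≤ 11 / 100)
    (h1 : 5 * β0 ≤ 4.712 - t) (h2 : 5 * β0 ≤ 5.712 - t - 2.7183 * κ) (hκ0 : 0 < κ) : HUMP β R t ≤ 0.011 := by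
  have hpi := Real.pi_gt_d6
  have he := Real.exp_one_lt_d9
  unfold HUMP
  rw [← hκ]
  have h3 : Real.exp (-((3 * Real.pi / 2 - t - max 0 (Real.exp 1 * κ - 1)) / β)) ≤ 0.0099 := by
    have h4 : 5 * β ≤ 3 * Real.pi / 2 - t - max 0 (Real.exp 1 * κ - 1) := by
      have h5 : max 0 (Real.exp 1 * κ - 1) ≤ 3 * Real.pi / 2 - t - 5 * β := by
        apply max_le
        · norm_num at h1 ⊢; linarith
        · have : Real.exp 1 * κ ≤ 2.7183 * κ := mul_le_mul_of_nonneg_right (by norm_num at he ⊢; linarith) hκ0.le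
          norm_num at h2 this ⊢
          linarith
      linarith
    have h6 : (5 : ℝ) ≤ (3 * Real.pi / 2 - t - max 0 (Real.exp 1 * κ - 1)) / β := by
      rw [le_div_iff₀ hβ]; exact h4
    have h7 : Real.exp (-((3 * Real.pi / 2 - t - max 0 (Real.exp 1 * κ - 1)) / β)) ≤ Real.exp (-5) :=
      Real.exp_le_exp.2 (by linarith)
    refine h7.trans ?_
    have h8 : Real.exp (-5) = (Real.exp 1 ^ 5)⁻¹ := by
      rw [Real.exp_neg, ← Real.exp_nat_mul]; norm_num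
    rw [h8, inv_le_comm₀ (by positivity) (by norm_num)]
    have h9 : (2.7 : ℝ) ^ 5 ≤ Real.exp 1 ^ 5 := pow_le_pow_left₀ (by norm_num)
      (by have := Real.exp_one_gt_d9; norm_num at this ⊢; linarith) 5
    refine le_trans ?_ h9
    norm_num
  have h10 : 1 + β ≤ 1.11 := by norm_num at hβ01 ⊢; linarith
  calc (1 + β) * Real.exp (-((3 * Real.pi / 2 - t - max 0 (Real.exp 1 * κ - 1)) / β)) ≤ 1.11 * 0.0099 :=
        mul_le_mul h10 h3 (Real.exp_pos _).le (by norm_num)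
    _ ≤ 0.011 := by norm_num

/-- LEFT far copy (`t + κ = -b < 0`), horizontal line of height `-κ p` -/
theorem HUl {β R t κ b σ h T : ℝ} (l c k1 k2 ψ ψ1 b1 b2 P2 w1 w2 Φ G m0 U R0 β0 c0 E Gc : ℝ)
    (hβ : 0 < β) (hR : 0 < R) (hκ : κ = β * R) (hb : b = -(t + κ))
    (hσ : t + κ = σ * h) (hT : T = R * h ^ 2 / (1 + κ ^ 2)) (hb1 : b1 ≤ b) (hb2 : b ≤ b2)
    (hk1 : k1 ≤ κ) (hk2 : κ ≤ k2) (hψ : κ / (1 + κ ^ 2) ≤ ψ) (hψ1 : ψ1 ≤ κ / (1 + κ ^ 2)) (hψ0 : 0 ≤ ψ1)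
    (hk0 : 0 < k1) (hb0 : 0 < b1) (hl : 0 < l)
    (hP : P2 = l * b2 / (1 + k1 ^ 2)) (hw2 : w2 = ψ * (l * b2)) (hw21 : w2 ≤ 1) (hw1 : w1 = ψ1 * (l * b1))
    (hΦ : Φ = 1 / 2 + w2 / 6 + w2 ^ 2 / 19) (hG : G = 1 - w1 + w1 ^ 2 / 2 - w1 ^ 3 / 6 + w1 ^ 4 / 24)
    (hn1 : k1 ^ 2 * Φ + (G / 2 + P2 ^ 2 * G ^ 3 / 24 + P2 ^ 4 * G ^ 5 / 24) ≤ (1 + k1 ^ 2) * (1 / l - c / l ^ 2))
    (hn2 : k2 ^ 2 * Φ + (G / 2 + P2 ^ 2 * G ^ 3 / 24 + P2 ^ 4 * G ^ 5 / 24) ≤ (1 + k2 ^ 2) * (1 / l - c / l ^ 2))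
    (hq : P2 * G ≤ 99 / 100)
    (hm0 : m0 ≤ k1 ^ 2 * (1 + 2 * w1 + 2 * w1 ^ 2) - w2 ^ 2) (hm00 : 0 < m0) (hU0 : 0 ≤ U)
    (hU : 9 * (1 + k2 ^ 2) ≤ 4 * U ^ 4 * m0)
    (hR0 : 0 < R0) (hR0' : R0 ≤ R) (hβ0 : β ≤ β0) (hβ01 : β0 ≤ 11 / 100) (hbk : b2 + k2 ≤ 4.7)
    (hc0 : 1 ≤ c0 ^ 2 * (6.2831 * k1)) (hc00 : 0 ≤ c0) (hE0 : 0 ≤ E) (hE : P2 * (1.5708 - b1 - k1) ≤ E)
    (hx : 5 * β0 ≤ 5.712 + b1 - 1.7183 * k2)
    (hGc : c0 * (β0 / (4.712 - b2 - k2) + 3.1416 / R0 + 1 + β0 + 0.011 + w2) ≤ Gc) :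
    ‖F (cexp (I * β)) (R * cexp (I * ((t + β / 2 : ℝ) : ℂ)))‖ ≤
      eN R κ * (U * Real.exp (-(T * (c * σ ^ 2)))) + Real.sqrt R * (Gc * Real.exp (R * E)) := by
  have hκp : 0 < κ := hk0.trans_le hk1
  have hpi := Real.pi_gt_d6
  have hpi' := Real.pi_lt_d6
  have hA : 0 < 1 + κ ^ 2 := by positivity
  have hA1 : 0 < 1 + k1 ^ 2 := by positivity
  obtain ⟨p, hp⟩ : ∃ p, p = l * b / (1 + κ ^ 2) := ⟨_, rfl⟩
  obtain ⟨⟨hp0, hpP, hzv, hvw, hGe⟩, hmain⟩ := EL_form l c k1 k2 ψ ψ1 b1 b2 P2 w1 w2 Φ G hκp hb1 hb2 hk1 hk2 hψ hψ1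
    hψ0 hk0.le hb0 hl hP hw2 hw21 hw1 hΦ hG hn1 hn2 hp
  obtain ⟨x, hx'⟩ : ∃ x, x = κ * p := ⟨_, rfl⟩
  rw [← hx'] at hzv hvw hGe hmain
  have hx0 : 0 < x := by rw [hx']; positivity
  have hw10 : 0 ≤ w1 := by rw [hw1]; positivity
  have hex := Real.exp_pos x
  have hemx := Real.exp_pos (-x)
  have hee : Real.exp (-x) * Real.exp x = 1 := by rw [← Real.exp_add, neg_add_cancel, Real.exp_zero]
  obtain ⟨q, hqd⟩ : ∃ q, q = p * Real.exp (-x) := ⟨_, rfl⟩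
  have hq0 : 0 < q := by rw [hqd]; positivity
  have hq1 : q < 1 := by
    have h1 : q ≤ P2 * G := by
      rw [hqd]
      exact mul_le_mul hpP hGe hemx.le (hp0.le.trans hpP)
    linarith
  obtain ⟨a, had⟩ : ∃ a, a = Real.arcsin q := ⟨_, rfl⟩
  have hsa : Real.sin a = q := by rw [had]; exact Real.sin_arcsin (by linarith) hq1.le
  have ha1 : a < Real.pi / 2 := by rw [had]; exact Real.arcsin_lt_pi_div_two.2 hq1
  have ha0 : 0 ≤ a := by rw [had]; exact Real.arcsin_nonneg.2 hq0.le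
  have hca : 0 < Real.cos a := Real.cos_pos_of_mem_Ioo ⟨by linarith, ha1⟩
  have hx1 : x ≤ 1 := hvw.trans hw21
  have hbound := far_HU hβ hR (t := t) (v := -x) (w := -a) (by norm_num at hbk ⊢; linarith) (by linarith)
    (by linarith) (by linarith) (by linarith)
    (by rw [← hκ, Real.sin_neg, hsa, hqd, hx']; ring)
  rw [neg_neg, Real.cos_neg, ← hκ] at hbound
  refine hbound.trans (add_le_add ?_ ?_)
  · -- main term
    obtain ⟨m, hmd⟩ : ∃ m, m = κ * (Real.exp x * Real.cos a) := ⟨_, rfl⟩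
    have hm : 0 < m := by rw [hmd]; positivity
    have hm2 : m0 ≤ m ^ 2 := by
      have e1 : m ^ 2 = κ ^ 2 * Real.exp x ^ 2 - x ^ 2 := by
        have h1 := Real.sin_sq_add_cos_sq a
        rw [hsa, hqd] at h1
        have h2 : Real.cos a ^ 2 = 1 - p ^ 2 * Real.exp (-x) ^ 2 := by linarith [mul_pow p (Real.exp (-x)) 2]
        have h3 : Real.exp (-x) ^ 2 * Real.exp x ^ 2 = 1 := by rw [← mul_pow, hee, one_pow]
        calc m ^ 2 = κ ^ 2 * Real.exp x ^ 2 * Real.cos a ^ 2 := by rw [hmd]; ring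
          _ = κ ^ 2 * Real.exp x ^ 2 - κ ^ 2 * p ^ 2 * (Real.exp (-x) ^ 2 * Real.exp x ^ 2) := by rw [h2]; ring
          _ = κ ^ 2 * Real.exp x ^ 2 - x ^ 2 := by rw [h3, hx']; ring
      rw [e1]
      refine hm0.trans ?_
      have h4 : 1 + 2 * w1 + 2 * w1 ^ 2 ≤ Real.exp x ^ 2 := by
        have h5 : Real.exp x ^ 2 = Real.exp (2 * x) := by rw [← Real.exp_nat_mul]; norm_num
        rw [h5]
        have h6 := r1_exp_ge3 (2 * x)
        have h7 : w1 ^ 2 ≤ x ^ 2 := pow_le_pow_left₀ hw10 hzv 2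
        have h8 : 0 ≤ x ^ 3 := by positivity
        linarith
      have h9 : k1 ^ 2 ≤ κ ^ 2 := pow_le_pow_left₀ hk0.le hk1 2
      have h10 : k1 ^ 2 * (1 + 2 * w1 + 2 * w1 ^ 2) ≤ κ ^ 2 * Real.exp x ^ 2 :=
        mul_le_mul h9 h4 (by positivity) (by positivity)
      have h11 : x ^ 2 ≤ w2 ^ 2 := pow_le_pow_left₀ hx0.le hvw 2
      linarith
    have hB : Real.sqrt (3 / (2 * κ * (Real.exp x * Real.cos a))) * Real.sqrt (Real.sqrt (1 + κ ^ 2)) ≤ U := by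
      have e1 : 2 * κ * (Real.exp x * Real.cos a) = 2 * m := by rw [hmd]; ring
      rw [e1]
      apply le_of_pow4 hU0
      rw [mul_pow, q4 hA.le]
      have e2 : Real.sqrt (3 / (2 * m)) ^ 4 = 9 / (4 * m ^ 2) := by
        rw [show Real.sqrt (3 / (2 * m)) ^ 4 = (Real.sqrt (3 / (2 * m)) ^ 2) ^ 2 by ring,
          Real.sq_sqrt (by positivity)]
        field_simp
        norm_num
      rw [e2, div_mul_eq_mul_div, div_le_iff₀ (by positivity)]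
      have h12 : 1 + κ ^ 2 ≤ 1 + k2 ^ 2 := by
        have := pow_le_pow_left₀ hκp.le hk2 2
        linarith
      have h13 : 4 * U ^ 4 * m0 ≤ 4 * U ^ 4 * m ^ 2 := mul_le_mul_of_nonneg_left hm2 (by positivity)
      linarith
    have hEx : Real.exp (R * (Real.exp x * Real.cos a + -x * (-a - t) / κ)) ≤
        Real.exp R * Real.exp (-(T * (c * σ ^ 2))) := by
      rw [← Real.exp_add]
      apply Real.exp_le_exp.2
      have h14 := r1_cosq6 (a := a) (q := q) (by rw [abs_of_nonneg ha0]; exact ha1.le) hq0.le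
      have h15 := mul_le_mul_of_nonneg_left h14 hex.le
      have e3 : Real.exp x * q = p := by rw [hqd, mul_comm, mul_assoc, hee, mul_one]
      have e4 : Real.exp x * (1 + q ^ 2 / 2 + q ^ 4 / 24 + q ^ 6 / 24) =
          Real.exp x + p ^ 2 * Real.exp (-x) / 2 + p ^ 4 * Real.exp (-x) ^ 3 / 24 +
            p ^ 6 * Real.exp (-x) ^ 5 / 24 := by
        rw [hqd]
        linear_combination (p ^ 2 * Real.exp (-x) / 2 + p ^ 4 * Real.exp (-x) ^ 3 / 24 +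
            p ^ 6 * Real.exp (-x) ^ 5 / 24) * hee
      have e5 : -x * (-a - t) / κ = p * a - x - p * b := by
        have : t = -b - κ := by rw [hb]; ring
        rw [this, div_eq_iff hκp.ne', hx']
        ring
      have e6 : Real.exp x * (Real.cos a + q * a) = Real.exp x * Real.cos a + p * a := by
        linear_combination a * e3
      rw [e4, e6] at h15
      have h16 : Real.exp x * Real.cos a + -x * (-a - t) / κ ≤ 1 - c * b ^ 2 / (1 + κ ^ 2) := by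
        rw [e5]; linarith
      have h17 := mul_le_mul_of_nonneg_left h16 hR.le
      have e7 : R * (1 - c * b ^ 2 / (1 + κ ^ 2)) = R + -(T * (c * σ ^ 2)) := by
        have : b ^ 2 = (σ * h) ^ 2 := by rw [hb, neg_sq, hσ]
        rw [this, hT]; ring
      linarith
    unfold eN
    have hS1 : 0 < Real.sqrt (Real.sqrt (1 + κ ^ 2)) := Real.sqrt_pos.2 (Real.sqrt_pos.2 hA)
    have e8 : Real.exp R / Real.sqrt (Real.sqrt (1 + κ ^ 2)) * (U * Real.exp (-(T * (c * σ ^ 2)))) =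
        (U / Real.sqrt (Real.sqrt (1 + κ ^ 2))) * (Real.exp R * Real.exp (-(T * (c * σ ^ 2)))) := by ring
    rw [e8]
    apply mul_le_mul _ hEx (Real.exp_pos _).le (by positivity)
    rw [le_div_iff₀ hS1]
    exact hB
  · -- rest
    have hC0 := C0_le hβ hR hκ hk1 hk0 hc00 hc0
    have hC0p := (C0_pos hβ).le
    have hβ0p : 0 < β0 := hβ.trans_le hβ0
    have hbp : 0 < b := hb0.trans_le hb1
    have ht : t = -b - κ := by rw [hb]; ring
    have r1 : β / (3 * Real.pi / 2 + t) ≤ β0 / (4.712 - b2 - k2) := by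
      have : 0 < 4.712 - b2 - k2 := by norm_num at hbk ⊢; linarith
      apply div_le_div₀ hβ0p.le hβ0 this
      rw [ht]; norm_num; linarith
    have r2 : Real.pi / R ≤ 3.1416 / R0 := by
      apply div_le_div₀ (by norm_num) (by norm_num; linarith) hR0 hR0'
    have r3 : |(-x)| * max 1 (Real.exp (-(-x * (Real.pi / 2 + t) / β))) ≤ w2 * Real.exp (R * E) := by
      rw [abs_neg, abs_of_pos hx0]
      apply mul_le_mul hvw _ (by positivity) (hx0.le.trans hvw)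
      apply max_le
      · exact Real.one_le_exp (by positivity)
      · apply Real.exp_le_exp.2
        have e1 : -(-x * (Real.pi / 2 + t) / β) = R * (p * (Real.pi / 2 + t)) := by
          rw [hx', hκ]; field_simp
        rw [e1]
        apply mul_le_mul_of_nonneg_left _ hR.le
        rcases le_total (Real.pi / 2 + t) 0 with h1 | h1
        · exact (mul_nonpos_of_nonneg_of_nonpos hp0.le h1).trans hE0
        · refine le_trans ?_ hE
          apply mul_le_mul hpP _ h1 (hp0.le.trans hpP)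
          rw [ht]; norm_num; linarith
    have r4 : (1 + -x) * Real.exp (-x * (Real.pi / 2 - t) / β) ≤ 1 := by
      have h1 : Real.exp (-x * (Real.pi / 2 - t) / β) ≤ 1 := by
        apply Real.exp_le_one_iff.2
        apply div_nonpos_of_nonpos_of_nonneg _ hβ.le
        apply mul_nonpos_of_nonpos_of_nonneg (by linarith)
        rw [ht]; linarith
      calc (1 + -x) * Real.exp (-x * (Real.pi / 2 - t) / β) ≤ 1 * 1 :=
            mul_le_mul (by linarith) h1 (Real.exp_pos _).le (by norm_num)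
        _ = 1 := one_mul _
    have r5 : β * Real.exp (-((Real.pi / 2 - t) / β)) ≤ β0 := by
      have h1 : Real.exp (-((Real.pi / 2 - t) / β)) ≤ 1 := by
        apply Real.exp_le_one_iff.2
        have : 0 ≤ (Real.pi / 2 - t) / β := div_nonneg (by rw [ht]; linarith) hβ.le
        linarith
      calc β * Real.exp (-((Real.pi / 2 - t) / β)) ≤ β0 * 1 := mul_le_mul hβ0 h1 (Real.exp_pos _).le hβ0p.le
        _ = β0 := mul_one _
    have r6 : HUMP β R t ≤ 0.011 := by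
      apply hump_le hβ hκ hβ0 hβ01 _ _ hκp
      · rw [ht]; norm_num at hβ01 ⊢; linarith
      · rw [ht]; norm_num at hx ⊢; linarith
    have hee2 : 1 ≤ Real.exp (R * E) := Real.one_le_exp (by positivity)
    have hsum : β / (3 * Real.pi / 2 + t) + Real.pi / R + |(-x)| * max 1 (Real.exp (-(-x * (Real.pi / 2 + t) / β))) +
        (1 + -x) * Real.exp (-x * (Real.pi / 2 - t) / β) + β * Real.exp (-((Real.pi / 2 - t) / β)) + HUMP β R t ≤
        (β0 / (4.712 - b2 - k2) + 3.1416 / R0 + 1 + β0 + 0.011 + w2) * Real.exp (R * E) := by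
      have h2 : 0 ≤ β0 / (4.712 - b2 - k2) + 3.1416 / R0 + 1 + β0 + 0.011 := by
        have h3 : 0 < 4.712 - b2 - k2 := by norm_num at hbk ⊢; linarith
        have h4 : 0 ≤ 3.1416 / R0 := by positivity
        have h5 : 0 ≤ β0 / (4.712 - b2 - k2) := by positivity
        have h6 : (0 : ℝ) ≤ 0.011 := by norm_num
        linarith
      have h3 := mul_le_mul_of_nonneg_left hee2 h2
      rw [mul_one] at h3
      rw [add_mul]
      linarith
    have h3 : 0 ≤ (β0 / (4.712 - b2 - k2) + 3.1416 / R0 + 1 + β0 + 0.011 + w2) := by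
      have h4 : 0 < 4.712 - b2 - k2 := by norm_num at hbk ⊢; linarith
      have h5 : 0 ≤ w2 := hx0.le.trans hvw
      have h6 : (0 : ℝ) ≤ 0.011 := by norm_num
      positivity
    calc C0 β * (β / (3 * Real.pi / 2 + t) + Real.pi / R + |(-x)| * max 1 (Real.exp (-(-x * (Real.pi / 2 + t) / β))) +
        (1 + -x) * Real.exp (-x * (Real.pi / 2 - t) / β) + β * Real.exp (-((Real.pi / 2 - t) / β)) + HUMP β R t)
        ≤ C0 β * ((β0 / (4.712 - b2 - k2) + 3.1416 / R0 + 1 + β0 + 0.011 + w2) * Real.exp (R * E)) :=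
          mul_le_mul_of_nonneg_left hsum hC0p
      _ ≤ (Real.sqrt R * c0) * ((β0 / (4.712 - b2 - k2) + 3.1416 / R0 + 1 + β0 + 0.011 + w2) * Real.exp (R * E)) :=
          mul_le_mul_of_nonneg_right hC0 (by positivity)
      _ = Real.sqrt R * ((c0 * (β0 / (4.712 - b2 - k2) + 3.1416 / R0 + 1 + β0 + 0.011 + w2)) * Real.exp (R * E)) := by
          ring
      _ ≤ Real.sqrt R * (Gc * Real.exp (R * E)) := by gcongr

/-- RIGHT far copy (`t + κ = τ > 0`, `t ≤ π/2`), horizontal line of height `κ p` -/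
theorem HUr {β R t κ τ σ h T : ℝ} (l c k1 k2 ψ ψ1 τ1 τm P w z φ E m0 U R0 β0 c0 E2 Gc : ℝ)
    (hβ : 0 < β) (hR : 0 < R) (hκ : κ = β * R) (hτ : τ = t + κ) (htp : t ≤ Real.pi / 2)
    (hσ : t + κ = σ * h) (hT : T = R * h ^ 2 / (1 + κ ^ 2)) (ht1 : τ1 ≤ τ) (htm : τ ≤ τm)
    (hk1 : k1 ≤ κ) (hk2 : κ ≤ k2) (hψ : κ / (1 + κ ^ 2) ≤ ψ) (hψ1 : ψ1 ≤ κ / (1 + κ ^ 2)) (hψ0 : 0 ≤ ψ1)
    (hk0 : 0 < k1) (hτ0 : 0 < τ1) (hl : 0 < l)
    (hP : P = l * τm / (1 + k1 ^ 2)) (hw : w = ψ * (l * τm)) (hw1 : w ≤ 1)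
    (hz : z = ψ1 * (l * τ1)) (hφ : φ = 1 / 2 - z / 6 + z ^ 2 / 24)
    (hE' : E = 1 + w + w ^ 2 * (1 / 2 + w / 6 + w ^ 2 / 19))
    (hn1 : k1 ^ 2 * φ + (E / 2 + P ^ 2 * E ^ 3 / 24 + P ^ 4 * E ^ 5 / 24) ≤ (1 + k1 ^ 2) * (1 / l - c / l ^ 2))
    (hn2 : k2 ^ 2 * φ + (E / 2 + P ^ 2 * E ^ 3 / 24 + P ^ 4 * E ^ 5 / 24) ≤ (1 + k2 ^ 2) * (1 / l - c / l ^ 2))
    (hq : P * E ≤ 99 / 100) (hk22 : k2 ≤ 3 / 2)
    (hm0 : (m0 + w ^ 2) * E ^ 2 ≤ k1 ^ 2) (hm00 : 0 < m0) (hU0 : 0 ≤ U)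
    (hU : 9 * (1 + k2 ^ 2) ≤ 4 * U ^ 4 * m0)
    (hR0 : 0 < R0) (hR0' : R0 ≤ R) (hβ0 : β ≤ β0) (hβ01 : β0 ≤ 11 / 100)
    (hc0 : 1 ≤ c0 ^ 2 * (6.2831 * k1)) (hc00 : 0 ≤ c0)
    (hE0 : P * (1.5708 - τ1 + k2) ≤ E2) (hE20 : 0 ≤ E2)
    (hx : 5 * β0 ≤ 5.712 - τm - 1.7183 * k2) (hx' : 5 * β0 ≤ 4.712 - τm + k1)
    (hGc : c0 * (β0 / 3 + 3.1416 / R0 + 1 + 2 * w + β0 + 0.011) ≤ Gc) :
    ‖F (cexp (I * β)) (R * cexp (I * ((t + β / 2 : ℝ) : ℂ)))‖ ≤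
      eN R κ * (U * Real.exp (-(T * (c * σ ^ 2)))) + Real.sqrt R * (Gc * Real.exp (R * E2)) := by
  have hκp : 0 < κ := hk0.trans_le hk1
  have hpi := Real.pi_gt_d6
  have hpi' := Real.pi_lt_d6
  have hA : 0 < 1 + κ ^ 2 := by positivity
  have hA1 : 0 < 1 + k1 ^ 2 := by positivity
  obtain ⟨p, hp⟩ : ∃ p, p = l * τ / (1 + κ ^ 2) := ⟨_, rfl⟩
  obtain ⟨⟨hp0, hpP, hvw, hEe⟩, hmain⟩ := ER_form l c k1 k2 ψ ψ1 τ1 τm P w z φ E hκp ht1 htm hτ0 hk1 hk2 hψ hψ1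
    hψ0 hk0.le hl hP hw hw1 hz hφ hE' hn1 hn2 hp
  obtain ⟨x, hx'⟩ : ∃ x, x = κ * p := ⟨_, rfl⟩
  rw [← hx'] at hvw hEe hmain
  have hx0 : 0 < x := by rw [hx']; positivity
  have hex := Real.exp_pos x
  have hemx := Real.exp_pos (-x)
  have hee : Real.exp (-x) * Real.exp x = 1 := by rw [← Real.exp_add, neg_add_cancel, Real.exp_zero]
  have hE1 : 0 < E := hex.trans_le hEe
  obtain ⟨q, hqd⟩ : ∃ q, q = p * Real.exp x := ⟨_, rfl⟩
  have hq0 : 0 < q := by rw [hqd]; positivity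
  have hq1 : q < 1 := by
    have h1 : q ≤ P * E := by
      rw [hqd]
      exact mul_le_mul hpP hEe hex.le (hp0.le.trans hpP)
    linarith
  obtain ⟨a, had⟩ : ∃ a, a = Real.arcsin q := ⟨_, rfl⟩
  have hsa : Real.sin a = q := by rw [had]; exact Real.sin_arcsin (by linarith) hq1.le
  have ha1 : a < Real.pi / 2 := by rw [had]; exact Real.arcsin_lt_pi_div_two.2 hq1
  have ha0 : 0 ≤ a := by rw [had]; exact Real.arcsin_nonneg.2 hq0.le
  have hca : 0 < Real.cos a := Real.cos_pos_of_mem_Ioo ⟨by linarith, ha1⟩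
  have hx1 : x ≤ 1 := hvw.trans hw1
  have ht : t = τ - κ := by rw [hτ]; ring
  have htlo : -(3 / 2) ≤ t := by rw [ht]; linarith
  have hbound := far_HU hβ hR (t := t) (v := x) (w := a) (by linarith) htp
    (by linarith) (by linarith) ha1
    (by rw [← hκ, hsa, hqd, hx']; ring)
  rw [← hκ] at hbound
  refine hbound.trans (add_le_add ?_ ?_)
  · -- main term
    obtain ⟨m, hmd⟩ : ∃ m, m = κ * (Real.exp (-x) * Real.cos a) := ⟨_, rfl⟩
    have hm : 0 < m := by rw [hmd]; positivity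
    have hm2 : m0 ≤ m ^ 2 := by
      have e1 : m ^ 2 = κ ^ 2 * Real.exp (-x) ^ 2 - x ^ 2 := by
        have h1 := Real.sin_sq_add_cos_sq a
        rw [hsa, hqd] at h1
        have h2 : Real.cos a ^ 2 = 1 - p ^ 2 * Real.exp x ^ 2 := by linarith [mul_pow p (Real.exp x) 2]
        have h3 : Real.exp (-x) ^ 2 * Real.exp x ^ 2 = 1 := by rw [← mul_pow, hee, one_pow]
        calc m ^ 2 = κ ^ 2 * Real.exp (-x) ^ 2 * Real.cos a ^ 2 := by rw [hmd]; ring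
          _ = κ ^ 2 * Real.exp (-x) ^ 2 - κ ^ 2 * p ^ 2 * (Real.exp (-x) ^ 2 * Real.exp x ^ 2) := by rw [h2]; ring
          _ = κ ^ 2 * Real.exp (-x) ^ 2 - x ^ 2 := by rw [h3, hx']; ring
      rw [e1]
      have h9 : k1 ^ 2 ≤ κ ^ 2 := pow_le_pow_left₀ hk0.le hk1 2
      have h11 : x ^ 2 ≤ w ^ 2 := pow_le_pow_left₀ hx0.le hvw 2
      have h12 : 1 ≤ Real.exp (-x) ^ 2 * E ^ 2 := by
        rw [← mul_pow]
        apply one_le_pow₀
        calc (1 : ℝ) = Real.exp (-x) * Real.exp x := hee.symm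
          _ ≤ Real.exp (-x) * E := mul_le_mul_of_nonneg_left hEe hemx.le
      have h13 : m0 + w ^ 2 ≤ k1 ^ 2 * Real.exp (-x) ^ 2 := by
        have h14 : (m0 + w ^ 2) * (Real.exp (-x) ^ 2 * E ^ 2) ≤ k1 ^ 2 * Real.exp (-x) ^ 2 := by
          have := mul_le_mul_of_nonneg_right hm0 (sq_nonneg (Real.exp (-x)))
          linarith
        have h15 : (m0 + w ^ 2) * 1 ≤ (m0 + w ^ 2) * (Real.exp (-x) ^ 2 * E ^ 2) :=
          mul_le_mul_of_nonneg_left h12 (by positivity)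
        linarith
      have h16 : k1 ^ 2 * Real.exp (-x) ^ 2 ≤ κ ^ 2 * Real.exp (-x) ^ 2 :=
        mul_le_mul_of_nonneg_right h9 (sq_nonneg _)
      linarith
    have hB : Real.sqrt (3 / (2 * κ * (Real.exp (-x) * Real.cos a))) * Real.sqrt (Real.sqrt (1 + κ ^ 2)) ≤ U := by
      have e1 : 2 * κ * (Real.exp (-x) * Real.cos a) = 2 * m := by rw [hmd]; ring
      rw [e1]
      apply le_of_pow4 hU0
      rw [mul_pow, q4 hA.le]
      have e2 : Real.sqrt (3 / (2 * m)) ^ 4 = 9 / (4 * m ^ 2) := by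
        rw [show Real.sqrt (3 / (2 * m)) ^ 4 = (Real.sqrt (3 / (2 * m)) ^ 2) ^ 2 by ring,
          Real.sq_sqrt (by positivity)]
        field_simp
        norm_num
      rw [e2, div_mul_eq_mul_div, div_le_iff₀ (by positivity)]
      have h12 : 1 + κ ^ 2 ≤ 1 + k2 ^ 2 := by
        have := pow_le_pow_left₀ hκp.le hk2 2
        linarith
      have h13 : 4 * U ^ 4 * m0 ≤ 4 * U ^ 4 * m ^ 2 := mul_le_mul_of_nonneg_left hm2 (by positivity)
      linarith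
    have hEx : Real.exp (R * (Real.exp (-x) * Real.cos a + x * (a - t) / κ)) ≤
        Real.exp R * Real.exp (-(T * (c * σ ^ 2))) := by
      rw [← Real.exp_add]
      apply Real.exp_le_exp.2
      have h14 := r1_cosq6 (a := a) (q := q) (by rw [abs_of_nonneg ha0]; exact ha1.le) hq0.le
      have h15 := mul_le_mul_of_nonneg_left h14 hemx.le
      have e3 : Real.exp (-x) * q = p := by
        rw [hqd]
        linear_combination p * hee
      have e4 : Real.exp (-x) * (1 + q ^ 2 / 2 + q ^ 4 / 24 + q ^ 6 / 24) =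
          Real.exp (-x) + p ^ 2 * Real.exp x / 2 + p ^ 4 * Real.exp x ^ 3 / 24 +
            p ^ 6 * Real.exp x ^ 5 / 24 := by
        rw [hqd]
        linear_combination (p ^ 2 * Real.exp x / 2 + p ^ 4 * Real.exp x ^ 3 / 24 +
            p ^ 6 * Real.exp x ^ 5 / 24) * hee
      have e5 : x * (a - t) / κ = p * a + x - p * τ := by
        rw [ht, div_eq_iff hκp.ne', hx']
        ring
      have e6 : Real.exp (-x) * (Real.cos a + q * a) = Real.exp (-x) * Real.cos a + p * a := by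
        linear_combination a * e3
      rw [e4, e6] at h15
      have h16 : Real.exp (-x) * Real.cos a + x * (a - t) / κ ≤ 1 - c * τ ^ 2 / (1 + κ ^ 2) := by
        rw [e5]; linarith
      have h17 := mul_le_mul_of_nonneg_left h16 hR.le
      have e7 : R * (1 - c * τ ^ 2 / (1 + κ ^ 2)) = R + -(T * (c * σ ^ 2)) := by
        have : τ ^ 2 = (σ * h) ^ 2 := by rw [hτ, hσ]
        rw [this, hT]; ring
      linarith
    unfold eN
    have hS1 : 0 < Real.sqrt (Real.sqrt (1 + κ ^ 2)) := Real.sqrt_pos.2 (Real.sqrt_pos.2 hA)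
    have e8 : Real.exp R / Real.sqrt (Real.sqrt (1 + κ ^ 2)) * (U * Real.exp (-(T * (c * σ ^ 2)))) =
        (U / Real.sqrt (Real.sqrt (1 + κ ^ 2))) * (Real.exp R * Real.exp (-(T * (c * σ ^ 2)))) := by ring
    rw [e8]
    apply mul_le_mul _ hEx (Real.exp_pos _).le (by positivity)
    rw [le_div_iff₀ hS1]
    exact hB
  · -- rest
    have hC0 := C0_le hβ hR hκ hk1 hk0 hc00 hc0
    have hC0p := (C0_pos hβ).le
    have hβ0p : 0 < β0 := hβ.trans_le hβ0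
    have hwp : 0 ≤ w := hx0.le.trans hvw
    have r1 : β / (3 * Real.pi / 2 + t) ≤ β0 / 3 := by
      apply div_le_div₀ hβ0p.le hβ0 (by norm_num)
      linarith
    have r2 : Real.pi / R ≤ 3.1416 / R0 := by
      apply div_le_div₀ (by norm_num) (by norm_num; linarith) hR0 hR0'
    have r3 : |x| * max 1 (Real.exp (-(x * (Real.pi / 2 + t) / β))) ≤ w := by
      rw [abs_of_pos hx0]
      have h1 : max 1 (Real.exp (-(x * (Real.pi / 2 + t) / β))) ≤ 1 := by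
        apply max_le le_rfl
        apply Real.exp_le_one_iff.2
        have : 0 ≤ x * (Real.pi / 2 + t) / β := by
          apply div_nonneg (mul_nonneg hx0.le (by linarith)) hβ.le
        linarith
      calc x * max 1 (Real.exp (-(x * (Real.pi / 2 + t) / β))) ≤ x * 1 := mul_le_mul_of_nonneg_left h1 hx0.le
        _ ≤ w := by linarith
    have r4 : (1 + x) * Real.exp (x * (Real.pi / 2 - t) / β) ≤ (1 + w) * Real.exp (R * E2) := by
      apply mul_le_mul (by linarith) _ (Real.exp_pos _).le (by linarith)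
      apply Real.exp_le_exp.2
      have e1 : x * (Real.pi / 2 - t) / β = R * (p * (Real.pi / 2 - t)) := by
        rw [hx', hκ]; field_simp
      rw [e1]
      apply mul_le_mul_of_nonneg_left _ hR.le
      refine le_trans ?_ hE0
      apply mul_le_mul hpP _ (by linarith) (hp0.le.trans hpP)
      rw [ht]; norm_num; linarith
    have r5 : β * Real.exp (-((Real.pi / 2 - t) / β)) ≤ β0 := by
      have h1 : Real.exp (-((Real.pi / 2 - t) / β)) ≤ 1 := by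
        apply Real.exp_le_one_iff.2
        have : 0 ≤ (Real.pi / 2 - t) / β := div_nonneg (by linarith) hβ.le
        linarith
      calc β * Real.exp (-((Real.pi / 2 - t) / β)) ≤ β0 * 1 := mul_le_mul hβ0 h1 (Real.exp_pos _).le hβ0p.le
        _ = β0 := mul_one _
    have r6 : HUMP β R t ≤ 0.011 := by
      apply hump_le hβ hκ hβ0 hβ01 _ _ hκp
      · rw [ht]; linarith
      · rw [ht]; norm_num at hx ⊢; linarith
    have hee2 : 1 ≤ Real.exp (R * E2) := Real.one_le_exp (by positivity)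
    have hsum : β / (3 * Real.pi / 2 + t) + Real.pi / R + |x| * max 1 (Real.exp (-(x * (Real.pi / 2 + t) / β))) +
        (1 + x) * Real.exp (x * (Real.pi / 2 - t) / β) + β * Real.exp (-((Real.pi / 2 - t) / β)) + HUMP β R t ≤
        (β0 / 3 + 3.1416 / R0 + 1 + 2 * w + β0 + 0.011) * Real.exp (R * E2) := by
      have h2 : 0 ≤ β0 / 3 + 3.1416 / R0 + w + β0 + 0.011 := by
        have h4 : 0 ≤ 3.1416 / R0 := by positivity
        have h6 : (0 : ℝ) ≤ 0.011 := by norm_num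
        linarith
      have h3 := mul_le_mul_of_nonneg_left hee2 h2
      rw [mul_one] at h3
      have e9 : (β0 / 3 + 3.1416 / R0 + 1 + 2 * w + β0 + 0.011) * Real.exp (R * E2) =
          (β0 / 3 + 3.1416 / R0 + w + β0 + 0.011) * Real.exp (R * E2) + (1 + w) * Real.exp (R * E2) := by ring
      rw [e9]
      linarith
    have h3 : 0 ≤ β0 / 3 + 3.1416 / R0 + 1 + 2 * w + β0 + 0.011 := by
      have h4 : 0 ≤ 3.1416 / R0 := by positivity
      have h6 : (0 : ℝ) ≤ 0.011 := by norm_num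
      linarith
    calc C0 β * (β / (3 * Real.pi / 2 + t) + Real.pi / R + |x| * max 1 (Real.exp (-(x * (Real.pi / 2 + t) / β))) +
        (1 + x) * Real.exp (x * (Real.pi / 2 - t) / β) + β * Real.exp (-((Real.pi / 2 - t) / β)) + HUMP β R t)
        ≤ C0 β * ((β0 / 3 + 3.1416 / R0 + 1 + 2 * w + β0 + 0.011) * Real.exp (R * E2)) :=
          mul_le_mul_of_nonneg_left hsum hC0p
      _ ≤ (Real.sqrt R * c0) * ((β0 / 3 + 3.1416 / R0 + 1 + 2 * w + β0 + 0.011) * Real.exp (R * E2)) :=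
          mul_le_mul_of_nonneg_right hC0 (by positivity)
      _ = Real.sqrt R * ((c0 * (β0 / 3 + 3.1416 / R0 + 1 + 2 * w + β0 + 0.011)) * Real.exp (R * E2)) := by
          ring
      _ ≤ Real.sqrt R * (Gc * Real.exp (R * E2)) := by gcongr

/-- far copy with angle in `(π/2 - δ, 3π/2)` -/
theorem UDb {β R t κ τ : ℝ} (k1 k2 τ1 τm δ R0 β0 c0 E Gc : ℝ)
    (hβ : 0 < β) (hR : 0 < R) (hκ : κ = β * R) (hτ : τ = t + κ) (ht1 : τ1 ≤ t) (htm : τ ≤ τm)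
    (hk1 : k1 ≤ κ) (hk2 : κ ≤ k2) (hk0 : 0 < k1)
    (hR0 : 0 < R0) (hR0' : R0 ≤ R) (hβ0 : β ≤ β0)
    (hδ : 0 < δ) (hδ1 : δ ≤ 1.57) (hδt : 1.5708 - δ < τ1) (htm' : τm ≤ 4.712 + k1)
    (hc0 : 1 ≤ c0 ^ 2 * (6.2831 * k1)) (hc00 : 0 ≤ c0)
    (hE : δ ≤ E) (hE1 : τm - 5.712 + 1.7183 * k2 ≤ E * k2) (hE2 : E ≤ 1.7183)
    (hGc : c0 * (β0 / (τ1 - 1.5708 + δ) + δ + 3.1416 / R0 + 2 + 2 * β0) ≤ Gc) :
    ‖F (cexp (I * β)) (R * cexp (I * ((t + β / 2 : ℝ) : ℂ)))‖ ≤ Real.sqrt R * (Gc * Real.exp (R * E)) := by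
  have hκp : 0 < κ := hk0.trans_le hk1
  have hpi := Real.pi_gt_d6
  have hpi' := Real.pi_lt_d6
  have ht : t = τ - κ := by rw [hτ]; ring
  have hβ0p : 0 < β0 := hβ.trans_le hβ0
  have hE0 : 0 < E := hδ.trans_le hE
  have hbound := far_UD hβ hR (δ := δ) (L := 1) (t := t) hδ (by norm_num at hδ1 ⊢; linarith)
    (by norm_num at hδt ⊢; linarith) (by rw [ht]; norm_num at htm' ⊢; linarith) (Or.inl le_rfl)
  refine hbound.trans ?_
  have hC0 := C0_le hβ hR hκ hk1 hk0 hc00 hc0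
  have hC0p := (C0_pos hβ).le
  have hEE : 1 ≤ Real.exp (R * E) := Real.one_le_exp (by positivity)
  have hden : 0 < τ1 - 1.5708 + δ := by linarith
  have r1 : (β / (t - Real.pi / 2 + δ) + δ) * Real.exp (R * Real.sin δ) ≤
      (β0 / (τ1 - 1.5708 + δ) + δ) * Real.exp (R * E) := by
    have h1 : β / (t - Real.pi / 2 + δ) ≤ β0 / (τ1 - 1.5708 + δ) := by
      apply div_le_div₀ hβ0p.le hβ0 hden
      norm_num; linarith
    have h2 : Real.sin δ ≤ E := (Real.sin_le hδ.le).trans hE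
    apply mul_le_mul (by linarith) _ (Real.exp_pos _).le (by positivity)
    exact Real.exp_le_exp.2 (mul_le_mul_of_nonneg_left h2 hR.le)
  have r2 : (if t ≤ Real.pi then Real.pi / (2 * R) else Real.pi / R) ≤ 3.1416 / R0 := by
    have h1 : Real.pi / R ≤ 3.1416 / R0 := by
      apply div_le_div₀ (by norm_num) (by norm_num; linarith) hR0 hR0'
    have h2 : Real.pi / (2 * R) ≤ Real.pi / R := by
      apply div_le_div_of_nonneg_left (by linarith) hR (by linarith)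
    split_ifs
    · exact h2.trans h1
    · exact h1
  have r6 : HUMP β R t ≤ (1 + β0) * Real.exp (R * E) := by
    unfold HUMP
    apply mul_le_mul (by linarith) _ (Real.exp_pos _).le (by linarith)
    apply Real.exp_le_exp.2
    rw [← hκ, neg_le]
    have h1 : -(R * E) = -(E * κ) / β := by rw [hκ]; field_simp
    rw [h1]
    apply div_le_div_of_nonneg_right _ hβ.le
    have h2 : max 0 (Real.exp 1 * κ - 1) ≤ 3 * Real.pi / 2 - t + E * κ := by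
      apply max_le
      · have : 0 ≤ E * κ := by positivity
        rw [ht]; norm_num at htm' ⊢; linarith
      · have he := Real.exp_one_lt_d9
        have h3 : Real.exp 1 * κ ≤ 2.7183 * κ := mul_le_mul_of_nonneg_right (by norm_num at he ⊢; linarith) hκp.le
        have h4 : (1.7183 - E) * κ ≤ (1.7183 - E) * k2 := mul_le_mul_of_nonneg_left hk2 (by linarith)
        rw [ht]; norm_num at hE1 h3 h4 ⊢; linarith
    linarith
  have hsum : (β / (t - Real.pi / 2 + δ) + δ) * Real.exp (R * Real.sin δ) +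
      (if t ≤ Real.pi then Real.pi / (2 * R) else Real.pi / R) + 1 + β + HUMP β R t ≤
      (β0 / (τ1 - 1.5708 + δ) + δ + 3.1416 / R0 + 2 + 2 * β0) * Real.exp (R * E) := by
    have h2 : 0 ≤ 3.1416 / R0 + 1 + β0 := by positivity
    have h3 := mul_le_mul_of_nonneg_left hEE h2
    rw [mul_one] at h3
    have e9 : (β0 / (τ1 - 1.5708 + δ) + δ + 3.1416 / R0 + 2 + 2 * β0) * Real.exp (R * E) =
        (β0 / (τ1 - 1.5708 + δ) + δ) * Real.exp (R * E) + (3.1416 / R0 + 1 + β0) * Real.exp (R * E) +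
          (1 + β0) * Real.exp (R * E) := by ring
    rw [e9]
    linarith
  have h3 : 0 ≤ β0 / (τ1 - 1.5708 + δ) + δ + 3.1416 / R0 + 2 + 2 * β0 := by positivity
  calc C0 β * ((β / (t - Real.pi / 2 + δ) + δ) * Real.exp (R * Real.sin δ) +
      (if t ≤ Real.pi then Real.pi / (2 * R) else Real.pi / R) + 1 + β + HUMP β R t)
      ≤ C0 β * ((β0 / (τ1 - 1.5708 + δ) + δ + 3.1416 / R0 + 2 + 2 * β0) * Real.exp (R * E)) :=
        mul_le_mul_of_nonneg_left hsum hC0p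
    _ ≤ (Real.sqrt R * c0) * ((β0 / (τ1 - 1.5708 + δ) + δ + 3.1416 / R0 + 2 + 2 * β0) * Real.exp (R * E)) :=
        mul_le_mul_of_nonneg_right hC0 (by positivity)
    _ = Real.sqrt R * ((c0 * (β0 / (τ1 - 1.5708 + δ) + δ + 3.1416 / R0 + 2 + 2 * β0)) * Real.exp (R * E)) := by
        ring
    _ ≤ Real.sqrt R * (Gc * Real.exp (R * E)) := by gcongr

end Sok
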