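import Pool.Agent.Lib.MP_816dec_an.R1LW
import Pool.Agent.Lib.MP_816dec_an.R1Y
import Pool.Agent.Lib.MP_816dec_an.JBG2

/-!
MP_816dec_an (A3, row R1), SINGLE CASE `b = 5`, `r ≥ 10`: all copies in the form
`c exp (r (g - p τ)) + K exp (r E)`, `τ = t + κ`, with numerical constants.
-/

set_option autoImplicit false

open Complex Set Filter Topology Metric

namespace Sok

/-! ### numerical exponentials -/

theorem ex_up {x : ℝ} (y : ℝ) {E : ℝ} (hx : x ≤ y) (h0 : 0 ≤ y) (h1 : y ≤ 1)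
    (h : 1 + y + y ^ 2 / 2 + y ^ 3 / 6 + y ^ 4 / 24 + y ^ 5 / 120 + y ^ 6 / 720 + y ^ 7 / 5040 +
      y ^ 8 * (1 / 40320) * (9 / 8) ≤ E) : Real.exp x ≤ E :=
  (Real.exp_le_exp.2 hx).trans (expn_le h0 h1 h)

theorem ex_um {x : ℝ} (y : ℝ) {E : ℝ} (hx : x ≤ -y) (h0 : 0 ≤ y) (hE : 0 < E)
    (h : 1 ≤ E * (1 + y + y ^ 2 / 2 + y ^ 3 / 6 + y ^ 4 / 24 + y ^ 5 / 120 + y ^ 6 / 720)) : Real.exp x ≤ E :=
  (Real.exp_le_exp.2 hx).trans (expm_le h0 hE h)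

theorem ex_lp {x : ℝ} (y : ℝ) {E : ℝ} (hx : y ≤ x) (h0 : 0 ≤ y)
    (h : E ≤ 1 + y + y ^ 2 / 2 + y ^ 3 / 6 + y ^ 4 / 24 + y ^ 5 / 120 + y ^ 6 / 720) : E ≤ Real.exp x :=
  (expn_ge h0 h).trans (Real.exp_le_exp.2 hx)

theorem ex_lm {x : ℝ} (y : ℝ) {E : ℝ} (hx : -y ≤ x) (h0 : 0 ≤ y) (h1 : y ≤ 1) (hE : 0 < E)
    (h : E * (1 + y + y ^ 2 / 2 + y ^ 3 / 6 + y ^ 4 / 24 + y ^ 5 / 120 + y ^ 6 / 720 + y ^ 7 / 5040 +
      y ^ 8 * (1 / 40320) * (9 / 8)) ≤ 1) : E ≤ Real.exp x :=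
  (expm_ge h0 h1 hE h).trans (Real.exp_le_exp.2 hx)

/-- `exp (-x) ≤ E` for `x ≥ n + z` -/
theorem ex_un {x E : ℝ} (n : ℕ) (z : ℝ) (hx : n + z ≤ x) (hz : 0 ≤ z) (hE : 0 < E)
    (h : 1 ≤ E * (2.7182818 ^ n * (1 + z + z ^ 2 / 2 + z ^ 3 / 6))) : Real.exp (-x) ≤ E :=
  exp_neg_le_num n (by linarith) hz hE h

/-! ### the exponent of a horizontal line -/

/-- `G(κ,p)`; the horizontal line of height `κ p` gives the exponent `G(κ,p) - p τ` -/
noncomputable def gG (κ p : ℝ) : ℝ :=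
  Real.exp (-(κ * p)) + p ^ 2 * Real.exp (κ * p) / 2 + p ^ 4 * Real.exp (κ * p) ^ 3 / 24 +
    p ^ 6 * Real.exp (κ * p) ^ 5 / 24 + κ * p

private theorem chord {c k1 k2 κ θ : ℝ} (h0 : 0 ≤ θ) (h1 : θ ≤ 1) (hκ : κ = (1 - θ) * k1 + θ * k2) :
    Real.exp (c * κ) ≤ (1 - θ) * Real.exp (c * k1) + θ * Real.exp (c * k2) := by
  have h := convexOn_exp.2 (mem_univ (c * k1)) (mem_univ (c * k2)) (by linarith : 0 ≤ 1 - θ) h0 (by ring)
  simp only [smul_eq_mul] at h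
  have e : c * κ = (1 - θ) * (c * k1) + θ * (c * k2) := by rw [hκ]; ring
  rw [e]
  exact h

theorem gG_le {κ : ℝ} (p k1 k2 g m1 m2 n1 n2 : ℝ) (hk1 : k1 ≤ κ) (hk2 : κ ≤ k2) (hk : k1 < k2)
    (hm1 : Real.exp (-(k1 * p)) ≤ m1) (hm2 : Real.exp (-(k2 * p)) ≤ m2)
    (hn1 : Real.exp (k1 * p) ≤ n1) (hn2 : Real.exp (k2 * p) ≤ n2)
    (h1 : m1 + p ^ 2 * n1 / 2 + p ^ 4 * n1 ^ 3 / 24 + p ^ 6 * n1 ^ 5 / 24 + k1 * p ≤ g)
    (h2 : m2 + p ^ 2 * n2 / 2 + p ^ 4 * n2 ^ 3 / 24 + p ^ 6 * n2 ^ 5 / 24 + k2 * p ≤ g) : gG κ p ≤ g := by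
  obtain ⟨θ, hθ⟩ : ∃ θ, θ = (κ - k1) / (k2 - k1) := ⟨_, rfl⟩
  have hd : 0 < k2 - k1 := by linarith
  have h0 : 0 ≤ θ := by rw [hθ]; exact div_nonneg (by linarith) hd.le
  have h01 : θ ≤ 1 := by rw [hθ, div_le_one hd]; linarith
  have hκ : κ = (1 - θ) * k1 + θ * k2 := by rw [hθ]; field_simp; ring
  have c1 := chord (c := -p) h0 h01 hκ
  have c2 := chord (c := p) h0 h01 hκ
  have c3 := chord (c := 3 * p) h0 h01 hκ
  have c4 := chord (c := 5 * p) h0 h01 hκ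
  have e3 : ∀ x, Real.exp (3 * p * x) = Real.exp (x * p) ^ 3 := by
    intro x; rw [← Real.exp_nat_mul]; congr 1; push_cast; ring
  have e5 : ∀ x, Real.exp (5 * p * x) = Real.exp (x * p) ^ 5 := by
    intro x; rw [← Real.exp_nat_mul]; congr 1; push_cast; ring
  have e1 : ∀ x, Real.exp (-p * x) = Real.exp (-(x * p)) := by intro x; congr 1; ring
  have e2 : ∀ x, Real.exp (p * x) = Real.exp (x * p) := by intro x; congr 1; ring
  rw [e3, e3, e3] at c3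
  rw [e5, e5, e5] at c4
  rw [e1, e1, e1] at c1
  rw [e2, e2, e2] at c2
  have q1 : gG k1 p ≤ g := by
    refine le_trans ?_ h1
    unfold gG
    have := Real.exp_pos (k1 * p)
    gcongr
  have q2 : gG k2 p ≤ g := by
    refine le_trans ?_ h2
    unfold gG
    have := Real.exp_pos (k2 * p)
    gcongr
  unfold gG at q1 q2 ⊢
  have p2 : 0 ≤ p ^ 2 := sq_nonneg p
  have p4 : 0 ≤ p ^ 4 := by positivity
  have p6 : 0 ≤ p ^ 6 := by positivity
  have d2 := mul_le_mul_of_nonneg_left c2 p2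
  have d3 := mul_le_mul_of_nonneg_left c3 p4
  have d4 := mul_le_mul_of_nonneg_left c4 p6
  have w1 := mul_le_mul_of_nonneg_left q1 (by linarith : 0 ≤ 1 - θ)
  have w2 := mul_le_mul_of_nonneg_left q2 h0
  have ek : κ * p = (1 - θ) * (k1 * p) + θ * (k2 * p) := by
    conv_lhs => rw [hκ]
    ring
  linarith only [c1, d2, d3, d4, w1, w2, ek]

theorem main6 {κ p a : ℝ} (ha : |a| ≤ Real.pi / 2) :
    Real.exp (-(κ * p)) * Real.cos a + p * a + κ * p ≤ gG κ p := by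
  have hee : Real.exp (-(κ * p)) * Real.exp (κ * p) = 1 := by rw [← Real.exp_add, neg_add_cancel, Real.exp_zero]
  have hE := Real.exp_pos (κ * p)
  have hE' := Real.exp_pos (-(κ * p))
  unfold gG
  rcases le_total 0 p with hp | hp
  · have h2 := r1_cosq6 ha (mul_nonneg hp hE.le)
    have h4 := mul_le_mul_of_nonneg_left h2 hE'.le
    have e1 : Real.exp (-(κ * p)) * (Real.cos a + p * Real.exp (κ * p) * a) =
        Real.exp (-(κ * p)) * Real.cos a + (Real.exp (-(κ * p)) * Real.exp (κ * p)) * (p * a) := by ring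
    have e2 : Real.exp (-(κ * p)) * (1 + (p * Real.exp (κ * p)) ^ 2 / 2 + (p * Real.exp (κ * p)) ^ 4 / 24 +
        (p * Real.exp (κ * p)) ^ 6 / 24) =
        Real.exp (-(κ * p)) + (Real.exp (-(κ * p)) * Real.exp (κ * p)) * (p ^ 2 * Real.exp (κ * p) / 2) +
        (Real.exp (-(κ * p)) * Real.exp (κ * p)) * (p ^ 4 * Real.exp (κ * p) ^ 3 / 24) +
        (Real.exp (-(κ * p)) * Real.exp (κ * p)) * (p ^ 6 * Real.exp (κ * p) ^ 5 / 24) := by ring
    rw [e1, e2, hee] at h4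
    linarith
  · have h2 := r1_cosq6 (a := -a) (q := -p * Real.exp (κ * p)) (by rwa [abs_neg]) (mul_nonneg (by linarith) hE.le)
    rw [Real.cos_neg] at h2
    have h4 := mul_le_mul_of_nonneg_left h2 hE'.le
    have e1 : Real.exp (-(κ * p)) * (Real.cos a + -p * Real.exp (κ * p) * -a) =
        Real.exp (-(κ * p)) * Real.cos a + (Real.exp (-(κ * p)) * Real.exp (κ * p)) * (p * a) := by ring
    have e2 : Real.exp (-(κ * p)) * (1 + (-p * Real.exp (κ * p)) ^ 2 / 2 + (-p * Real.exp (κ * p)) ^ 4 / 24 +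
        (-p * Real.exp (κ * p)) ^ 6 / 24) =
        Real.exp (-(κ * p)) + (Real.exp (-(κ * p)) * Real.exp (κ * p)) * (p ^ 2 * Real.exp (κ * p) / 2) +
        (Real.exp (-(κ * p)) * Real.exp (κ * p)) * (p ^ 4 * Real.exp (κ * p) ^ 3 / 24) +
        (Real.exp (-(κ * p)) * Real.exp (κ * p)) * (p ^ 6 * Real.exp (κ * p) ^ 5 / 24) := by ring
    rw [e1, e2, hee] at h4
    linarith

theorem V_up {κ t g : ℝ} (h : DomR κ t) (p : ℝ) (hg : gG κ p ≤ g) : sE κ t ≤ g - p * (t + κ) := by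
  have hk := h.1
  have h1 := fen_up h (κ * p)
  have h2 := main6 (κ := κ) (p := p) (sa_abs h).le
  have h3 : κ * p / κ = p := by field_simp
  rw [h3] at h1
  linarith

/-! ### main term of the far lemmas -/

theorem v5_main {β r t κ : ℝ} (p g c M k1 : ℝ) (hr : 0 < r) (hκ : κ = β * r) (hk0 : 0 < k1)
    (hk1 : k1 ≤ κ) (hg : gG κ p ≤ g) (hM : M ≤ Real.exp (-(κ * p)) ^ 2) (hM0 : p ^ 2 < M) (hc0 : 0 < c)
    (hc : 9 ≤ 4 * c ^ 4 * (k1 ^ 2 * (M - p ^ 2))) :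
    ∃ w, -(Real.pi / 2) < w ∧ w < Real.pi / 2 ∧ β * r * Real.sin w = (κ * p) * Real.exp (κ * p) ∧
      Real.sqrt (3 / (2 * (β * r) * (Real.exp (-(κ * p)) * Real.cos w))) *
        Real.exp (r * (Real.exp (-(κ * p)) * Real.cos w + (κ * p) * (w - t) / (β * r))) ≤
      c * Real.exp (r * (g - p * (t + κ))) := by
  have hκp : 0 < κ := hk0.trans_le hk1
  have hee : Real.exp (-(κ * p)) * Real.exp (κ * p) = 1 := by rw [← Real.exp_add, neg_add_cancel, Real.exp_zero]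
  have hE := Real.exp_pos (κ * p)
  have hE' := Real.exp_pos (-(κ * p))
  obtain ⟨q, hq⟩ : ∃ q, q = p * Real.exp (κ * p) := ⟨_, rfl⟩
  have hpq : Real.exp (-(κ * p)) * q = p := by rw [hq]; linear_combination p * hee
  have hq2 : q ^ 2 < 1 := by
    have h1 : (Real.exp (-(κ * p)) * q) ^ 2 < Real.exp (-(κ * p)) ^ 2 := by rw [hpq]; linarith
    rw [mul_pow] at h1
    have h2 : 0 < Real.exp (-(κ * p)) ^ 2 := by positivity
    by_contra hcon
    push Not at hcon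
    nlinarith
  have hq1 : -1 < q ∧ q < 1 := by
    constructor <;> nlinarith
  obtain ⟨w, hw⟩ : ∃ w, w = Real.arcsin q := ⟨_, rfl⟩
  have hsw : Real.sin w = q := by rw [hw]; exact Real.sin_arcsin hq1.1.le hq1.2.le
  have hw1 : w < Real.pi / 2 := by rw [hw]; exact Real.arcsin_lt_pi_div_two.2 hq1.2
  have hw0 : -(Real.pi / 2) < w := by rw [hw]; exact Real.neg_pi_div_two_lt_arcsin.2 hq1.1
  have hcw : 0 < Real.cos w := Real.cos_pos_of_mem_Ioo ⟨by linarith, hw1⟩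
  refine ⟨w, hw0, hw1, ?_, ?_⟩
  · rw [hsw, ← hκ, hq]; ring
  rw [← hκ]
  obtain ⟨n, hn⟩ : ∃ n, n = κ * (Real.exp (-(κ * p)) * Real.cos w) := ⟨_, rfl⟩
  have hn0 : 0 < n := by rw [hn]; positivity
  have hn2 : k1 ^ 2 * (M - p ^ 2) ≤ n ^ 2 := by
    have e1 : n ^ 2 = κ ^ 2 * (Real.exp (-(κ * p)) ^ 2 - p ^ 2) := by
      have h1 := Real.sin_sq_add_cos_sq w
      rw [hsw] at h1
      have h2 : Real.cos w ^ 2 = 1 - q ^ 2 := by linarith
      calc n ^ 2 = κ ^ 2 * (Real.exp (-(κ * p)) ^ 2 * Real.cos w ^ 2) := by rw [hn]; ring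
        _ = κ ^ 2 * (Real.exp (-(κ * p)) ^ 2 - (Real.exp (-(κ * p)) * q) ^ 2) := by rw [h2]; ring
        _ = _ := by rw [hpq]
    rw [e1]
    have h3 : k1 ^ 2 ≤ κ ^ 2 := pow_le_pow_left₀ hk0.le hk1 2
    exact mul_le_mul h3 (by linarith) (by linarith) (by positivity)
  apply mul_le_mul _ _ (Real.exp_pos _).le hc0.le
  · rw [Real.sqrt_le_left hc0.le]
    have e1 : 2 * κ * (Real.exp (-(κ * p)) * Real.cos w) = 2 * n := by rw [hn]; ring
    rw [e1, div_le_iff₀ (by positivity)]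
    by_contra hcon
    push Not at hcon
    have h1 : (c ^ 2 * (2 * n)) ^ 2 < 3 ^ 2 := pow_lt_pow_left₀ hcon (by positivity) (by norm_num)
    have h2 : (c ^ 2 * (2 * n)) ^ 2 = 4 * c ^ 4 * n ^ 2 := by ring
    have h3 := mul_le_mul_of_nonneg_left hn2 (by positivity : 0 ≤ 4 * c ^ 4)
    rw [h2] at h1
    linarith
  · apply Real.exp_le_exp.2
    apply mul_le_mul_of_nonneg_left _ hr.le
    have h1 := main6 (κ := κ) (p := p) (a := w) (abs_le.2 ⟨hw0.le, hw1.le⟩)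
    have h2 : κ * p * (w - t) / κ = p * w - p * t := by field_simp
    rw [h2]
    linarith

/-! ### the constants -/

theorem v5_C0b {β r κ k2 : ℝ} (s : ℝ) (hβ : 0 < β) (hr : 10 ≤ r) (hκ : κ = β * r) (hk2 : κ ≤ k2) (hs0 : 0 < s)
    (hs : k2 ≤ 62.831 * s ^ 2) : C0 β * β ≤ s := by
  have hpi := Real.pi_gt_d6
  unfold C0
  have hp : 0 < 2 * Real.pi * β := by positivity
  have hs1 : 0 < Real.sqrt (2 * Real.pi * β) := Real.sqrt_pos.2 hp
  rw [one_div_mul_eq_div, div_le_iff₀ hs1]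
  have h1 : β ≤ s ^ 2 * (2 * Real.pi) := by
    have h2 : β * 10 ≤ k2 := by
      calc β * 10 ≤ β * r := mul_le_mul_of_nonneg_left hr hβ.le
        _ = κ := hκ.symm
        _ ≤ k2 := hk2
    have h3 : 62.831 * s ^ 2 ≤ 10 * (s ^ 2 * (2 * Real.pi)) := by
      have : 0 < s ^ 2 := by positivity
      nlinarith
    linarith
  have h2 : β = Real.sqrt (β ^ 2) := (Real.sqrt_sq hβ.le).symm
  have h3 : s * Real.sqrt (2 * Real.pi * β) = Real.sqrt (s ^ 2 * (2 * Real.pi * β)) := by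
    rw [Real.sqrt_mul (sq_nonneg s), Real.sqrt_sq hs0.le]
  rw [h3]
  conv_lhs => rw [h2]
  apply Real.sqrt_le_sqrt
  have := mul_le_mul_of_nonneg_right h1 hβ.le
  nlinarith

theorem v5_C0 {β r κ k1 : ℝ} (c0 : ℝ) (hβ : 0 < β) (hr : 10 ≤ r) (hκ : κ = β * r) (hk0 : 0 < k1) (hk1 : k1 ≤ κ)
    (hc00 : 0 < c0) (hc0 : 10 ≤ 17.078 * k1 * c0 ^ 2) : C0 β ≤ c0 * Real.exp (r / 20) := by
  have hpi := Real.pi_gt_d6
  have he := Real.exp_one_gt_d9
  unfold C0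
  have hp : 0 < 2 * Real.pi * β := by positivity
  have hs1 : 0 < Real.sqrt (2 * Real.pi * β) := Real.sqrt_pos.2 hp
  rw [div_le_iff₀ hs1]
  have h3 : c0 * Real.exp (r / 20) * Real.sqrt (2 * Real.pi * β) =
      Real.sqrt ((c0 * Real.exp (r / 20)) ^ 2 * (2 * Real.pi * β)) := by
    rw [Real.sqrt_mul (sq_nonneg (c0 * Real.exp (r / 20))), Real.sqrt_sq (by positivity)]
  rw [h3, Real.one_le_sqrt]
  have h4 : Real.exp (r / 20) ^ 2 = Real.exp 1 * Real.exp (r / 10 - 1) := by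
    rw [← Real.exp_nat_mul, ← Real.exp_add]; congr 1; push_cast; ring
  have h5 : r / 10 ≤ Real.exp (r / 10 - 1) := by
    have := Real.add_one_le_exp (r / 10 - 1)
    linarith
  have hr0 : 0 < r := by linarith
  have hbr : β = κ / r := by rw [hκ]; field_simp
  rw [mul_pow, h4]
  have h6 : 2.7182 * (r / 10) ≤ Real.exp 1 * Real.exp (r / 10 - 1) :=
    mul_le_mul (by norm_num at he ⊢; linarith) h5 (by positivity) (Real.exp_pos _).le
  have h7 : 6.2831 * k1 / r ≤ 2 * Real.pi * β := by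
    rw [hbr, div_le_iff₀ hr0]
    have : 2 * Real.pi * (κ / r) * r = 2 * Real.pi * κ := by field_simp
    rw [this]
    nlinarith
  have h8 : 2.7182 * (r / 10) * (6.2831 * k1 / r) ≤ (Real.exp 1 * Real.exp (r / 10 - 1)) * (2 * Real.pi * β) :=
    mul_le_mul h6 h7 (by positivity) (by positivity)
  have h9 : 2.7182 * (r / 10) * (6.2831 * k1 / r) = 2.7182 * 6.2831 * k1 / 10 := by field_simp
  rw [h9] at h8
  have h10 := mul_le_mul_of_nonneg_left h8 (sq_nonneg c0)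
  nlinarith [mul_pos hk0 (pow_pos hc00 2)]

private theorem sqrt_exp_bd5 {β c N0 r0 : ℝ} (hβ : 0 < β) (hN0 : 0 < N0) (hr0 : 0 ≤ r0) (hr : N0 ≤ r0 ^ 2)
    (hβ1 : β * N0 ≤ 1) (hc : 1 ≤ 2 * (N0 * c)) :
    Real.sqrt (1 / β) * Real.exp (-c / β) ≤ r0 * Real.exp (-(N0 * c)) := by
  obtain ⟨t, ht⟩ : ∃ t, t = 1 / (N0 * β) := ⟨_, rfl⟩
  have ht1 : 1 ≤ t := by
    rw [ht, le_div_iff₀ (by positivity)]; linarith
  have e1 : 1 / β = N0 * t := by rw [ht]; field_simp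
  have e2 : -c / β = -(N0 * c * t) := by
    have : -c / β = -(c * (1 / β)) := by ring
    rw [this, e1]; ring
  rw [e1, e2, Real.sqrt_mul hN0.le]
  have h1 : Real.sqrt N0 ≤ r0 := by
    rw [Real.sqrt_le_left hr0]; exact hr
  have h2 : Real.sqrt t ≤ Real.exp ((t - 1) / 2) := by
    rw [Real.sqrt_le_left (Real.exp_pos _).le, ← Real.exp_nat_mul]
    have := Real.add_one_le_exp (t - 1)
    have e : ((2 : ℕ) : ℝ) * ((t - 1) / 2) = t - 1 := by push_cast; ring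
    rw [e]; linarith
  have h3 : Real.sqrt t * Real.exp (-(N0 * c * t)) ≤ Real.exp (-(N0 * c)) := by
    refine (mul_le_mul_of_nonneg_right h2 (Real.exp_pos _).le).trans ?_
    rw [← Real.exp_add]
    apply Real.exp_le_exp.2
    nlinarith [mul_nonneg (sub_nonneg.2 ht1) (sub_nonneg.2 hc)]
  calc Real.sqrt N0 * Real.sqrt t * Real.exp (-(N0 * c * t)) =
      Real.sqrt N0 * (Real.sqrt t * Real.exp (-(N0 * c * t))) := by ring
    _ ≤ r0 * Real.exp (-(N0 * c)) := mul_le_mul h1 h3 (by positivity) hr0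

/-- the hump: `C0 HUMP ≤ H` -/
theorem v5_hump {β r κ t k1 k2 tb : ℝ} (A0 N0 r0 E H : ℝ) (hβ : 0 < β) (hr : 10 ≤ r) (hκ : κ = β * r) (hk1 : k1 ≤ κ)
    (hk2 : κ ≤ k2) (hk0 : 0 < k1) (htb : t + κ ≤ tb) (h1 : A0 ≤ 4.712 - tb + k1) (h2 : A0 ≤ 5.712 - tb - 1.7183 * k2)
    (hN0 : 0 < N0) (hN : N0 * k2 ≤ 10) (hr0 : 0 ≤ r0) (hr1 : N0 ≤ r0 ^ 2) (hA : 1 ≤ 2 * (N0 * A0))
    (hE : Real.exp (-(N0 * A0)) ≤ E) (hH : 0.39895 * (1 + k2 / 10) * (r0 * E) ≤ H) : C0 β * HUMP β r t ≤ H := by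
  have hpi := Real.pi_gt_d6
  have he := Real.exp_one_lt_d9
  have hκp : 0 < κ := hk0.trans_le hk1
  have hk2p : 0 < k2 := hκp.trans_le hk2
  have hβ1 : β * N0 ≤ 1 := by
    have h3 : β * 10 ≤ k2 := by
      calc β * 10 ≤ β * r := mul_le_mul_of_nonneg_left hr hβ.le
        _ = κ := hκ.symm
        _ ≤ k2 := hk2
    have h4 : β * N0 * k2 ≤ 1 * k2 := by
      calc β * N0 * k2 = β * (N0 * k2) := by ring
        _ ≤ β * 10 := mul_le_mul_of_nonneg_left hN hβ.le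
        _ ≤ 1 * k2 := by linarith
    exact le_of_mul_le_mul_right h4 hk2p
  have hb2 : β ≤ k2 / 10 := by
    have h3 : β * 10 ≤ k2 := by
      calc β * 10 ≤ β * r := mul_le_mul_of_nonneg_left hr hβ.le
        _ = κ := hκ.symm
        _ ≤ k2 := hk2
    linarith
  unfold HUMP C0
  rw [← hκ]
  have hA1 : A0 ≤ 3 * Real.pi / 2 - t - max 0 (Real.exp 1 * κ - 1) := by
    have h5 : max 0 (Real.exp 1 * κ - 1) ≤ 3 * Real.pi / 2 - t - A0 := by
      apply max_le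
      · norm_num at h1 ⊢; linarith
      · have h6 : Real.exp 1 * κ ≤ 2.7183 * κ := mul_le_mul_of_nonneg_right (by norm_num at he ⊢; linarith) hκp.le
        have h7 : 1.7183 * κ ≤ 1.7183 * k2 := mul_le_mul_of_nonneg_left hk2 (by norm_num)
        norm_num at h2 h6 h7 ⊢
        linarith
    linarith
  have h8 : Real.exp (-((3 * Real.pi / 2 - t - max 0 (Real.exp 1 * κ - 1)) / β)) ≤ Real.exp (-A0 / β) := by
    apply Real.exp_le_exp.2
    rw [neg_div, neg_le_neg_iff]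
    exact div_le_div_of_nonneg_right hA1 hβ.le
  have h9 := sqrt_exp_bd5 hβ hN0 hr0 hr1 hβ1 hA
  have e1 : 1 / Real.sqrt (2 * Real.pi * β) = (1 / Real.sqrt (2 * Real.pi)) * Real.sqrt (1 / β) := by
    rw [Real.sqrt_mul (by positivity), Real.sqrt_div (by norm_num), Real.sqrt_one]
    field_simp
  have h10 : 1 / Real.sqrt (2 * Real.pi) ≤ 0.39895 := by
    have h11 : (2.5066 : ℝ) ≤ Real.sqrt (2 * Real.pi) := by
      apply Real.le_sqrt_of_sq_le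
      norm_num
      linarith
    rw [div_le_iff₀ (by linarith)]
    nlinarith
  have h12 : 0 ≤ r0 * E := mul_nonneg hr0 ((Real.exp_pos _).le.trans hE)
  rw [e1]
  calc 1 / Real.sqrt (2 * Real.pi) * Real.sqrt (1 / β) *
        ((1 + β) * Real.exp (-((3 * Real.pi / 2 - t - max 0 (Real.exp 1 * κ - 1)) / β)))
      ≤ 1 / Real.sqrt (2 * Real.pi) * Real.sqrt (1 / β) * ((1 + k2 / 10) * Real.exp (-A0 / β)) := by
        gcongr
    _ = 1 / Real.sqrt (2 * Real.pi) * (1 + k2 / 10) * (Real.sqrt (1 / β) * Real.exp (-A0 / β)) := by ring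
    _ ≤ 0.39895 * (1 + k2 / 10) * (r0 * Real.exp (-(N0 * A0))) := by
        apply mul_le_mul _ h9 (by positivity) (by positivity)
        exact mul_le_mul_of_nonneg_right h10 (by positivity)
    _ ≤ 0.39895 * (1 + k2 / 10) * (r0 * E) := by gcongr
    _ ≤ H := hH

end Sok
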