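import Pool.Agent.Lib.MP_816dec_an.R1V5

/-!
MP_816dec_an (A3, row R1), SINGLE CASE `b = 5`, `r ≥ 10`: the cells.
-/

set_option autoImplicit false

open Complex Set Filter Topology Metric

namespace Sok

private theorem b10 {β r κ k2 : ℝ} (hβ : 0 < β) (hr : 10 ≤ r) (hκ : κ = β * r) (hk2 : κ ≤ k2) : β ≤ k2 / 10 := by
  have h3 : β * 10 ≤ k2 := by
    calc β * 10 ≤ β * r := mul_le_mul_of_nonneg_left hr hβ.le
      _ = κ := hκ.symm
      _ ≤ k2 := hk2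
  linarith

/-- cell with a horizontal line above the axis, `-π/2 < t < π/2` -/
theorem v5_H {β r t κ : ℝ} (p k1 k2 ta tb g c M s d1 d2 Δ q Hc c' K : ℝ) (hβ : 0 < β) (hr : 10 ≤ r) (hκ : κ = β * r)
    (hk0 : 0 < k1) (hk1 : k1 ≤ κ) (hk2 : κ ≤ k2) (hta : ta ≤ t + κ) (htb : t + κ ≤ tb) (hp : 0 ≤ p)
    (hg : gG κ p ≤ g) (hM : M ≤ Real.exp (-(κ * p)) ^ 2) (hM0 : p ^ 2 < M) (hc0 : 0 < c)
    (hc : 9 ≤ 4 * c ^ 4 * (k1 ^ 2 * (M - p ^ 2)))
    (hd1 : d1 ≤ 1.5707 + ta - k2) (hd10 : 0 < d1) (hd2 : d2 ≤ 1.5707 - tb + k1) (hd20 : 0 < d2)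
    (hs0 : 0 < s) (hs : k2 ≤ 62.831 * s ^ 2)
    (hΔ : Δ ≤ g - p * (1.5708 + k2)) (hΔ0 : 0 ≤ Δ) (hq : Real.exp (-(10 * Δ)) ≤ q)
    (hH : C0 β * HUMP β r t ≤ Hc) (hc' : c + s / d2 * q ≤ c') (hK : s / d1 + s + Hc ≤ K) :
    ‖F (cexp (I * β)) (r * cexp (I * ((t + β / 2 : ℝ) : ℂ)))‖ ≤
      c' * Real.exp (r * (g - p * (t + κ))) + K * Real.exp (r * 0) := by
  have hpi := Real.pi_gt_d6
  have hpi' := Real.pi_lt_d6
  have hr0 : 0 < r := by linarith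
  have hκp : 0 < κ := hk0.trans_le hk1
  have ht1 : -(Real.pi / 2) < t := by norm_num at hd1 ⊢; linarith
  have ht2 : t < Real.pi / 2 := by norm_num at hd2 ⊢; linarith
  obtain ⟨w, hw0, hw1, hw2, hmain⟩ := v5_main (β := β) (t := t) p g c M k1 hr0 hκ hk0 hk1 hg hM hM0 hc0 hc
  have hv : -1 ≤ κ * p := by
    have : 0 ≤ κ * p := mul_nonneg hκp.le hp
    linarith
  have hb := far_H hβ hr0 ht1 ht2 hv hw0 hw1 hw2
  refine hb.trans ?_
  have hC := C0_pos hβ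
  have hCb := v5_C0b s hβ hr hκ hk2 hs0 hs
  have hCb0 : 0 ≤ C0 β * β := by positivity
  have t1 : C0 β * (β / (Real.pi / 2 + t) * Real.exp (-(κ * p * (Real.pi / 2 + t) / β))) ≤ s / d1 := by
    have h1 : Real.exp (-(κ * p * (Real.pi / 2 + t) / β)) ≤ 1 := by
      apply Real.exp_le_one_iff.2
      have : 0 ≤ κ * p * (Real.pi / 2 + t) / β := by
        apply div_nonneg _ hβ.le
        exact mul_nonneg (mul_nonneg hκp.le hp) (by linarith)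
      linarith
    have h2 : C0 β * (β / (Real.pi / 2 + t)) ≤ s / d1 := by
      rw [← mul_div_assoc]
      apply div_le_div₀ hs0.le hCb hd10
      norm_num at hd1 ⊢; linarith
    calc C0 β * (β / (Real.pi / 2 + t) * Real.exp (-(κ * p * (Real.pi / 2 + t) / β))) =
        (C0 β * (β / (Real.pi / 2 + t))) * Real.exp (-(κ * p * (Real.pi / 2 + t) / β)) := by ring
      _ ≤ (s / d1) * 1 := mul_le_mul h2 h1 (Real.exp_pos _).le (by positivity)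
      _ = _ := mul_one _
  have t2 : C0 β * (β / (Real.pi / 2 - t) * Real.exp (κ * p * (Real.pi / 2 - t) / β)) ≤
      s / d2 * q * Real.exp (r * (g - p * (t + κ))) := by
    have h2 : C0 β * (β / (Real.pi / 2 - t)) ≤ s / d2 := by
      rw [← mul_div_assoc]
      apply div_le_div₀ hs0.le hCb hd20
      norm_num at hd2 ⊢; linarith
    have h1 : Real.exp (κ * p * (Real.pi / 2 - t) / β) ≤ q * Real.exp (r * (g - p * (t + κ))) := by
      refine le_trans ?_ (mul_le_mul_of_nonneg_right hq (Real.exp_pos _).le)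
      rw [← Real.exp_add]
      apply Real.exp_le_exp.2
      have e1 : κ * p * (Real.pi / 2 - t) / β = r * (p * (Real.pi / 2 - t)) := by rw [hκ]; field_simp
      rw [e1]
      have h3 : Δ ≤ g - p * (Real.pi / 2 + κ) := by
        have : p * (Real.pi / 2 + κ) ≤ p * (1.5708 + k2) := by
          apply mul_le_mul_of_nonneg_left _ hp
          norm_num; linarith
        linarith
      have h4 : 10 * Δ ≤ r * (g - p * (Real.pi / 2 + κ)) := by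
        calc 10 * Δ ≤ r * Δ := mul_le_mul_of_nonneg_right hr hΔ0
          _ ≤ _ := mul_le_mul_of_nonneg_left h3 hr0.le
      linarith
    calc C0 β * (β / (Real.pi / 2 - t) * Real.exp (κ * p * (Real.pi / 2 - t) / β)) =
        (C0 β * (β / (Real.pi / 2 - t))) * Real.exp (κ * p * (Real.pi / 2 - t) / β) := by ring
      _ ≤ (s / d2) * (q * Real.exp (r * (g - p * (t + κ)))) := mul_le_mul h2 h1 (Real.exp_pos _).le (by positivity)
      _ = _ := by ring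
  have t3 : C0 β * (β * Real.exp (-((Real.pi / 2 - t) / β))) ≤ s := by
    have h1 : Real.exp (-((Real.pi / 2 - t) / β)) ≤ 1 := by
      apply Real.exp_le_one_iff.2
      have : 0 ≤ (Real.pi / 2 - t) / β := div_nonneg (by linarith) hβ.le
      linarith
    calc C0 β * (β * Real.exp (-((Real.pi / 2 - t) / β))) = (C0 β * β) * Real.exp (-((Real.pi / 2 - t) / β)) := by ring
      _ ≤ s * 1 := mul_le_mul hCb h1 (Real.exp_pos _).le hs0.le
      _ = s := mul_one _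
  rw [mul_zero, Real.exp_zero, mul_one]
  have h5 : c * Real.exp (r * (g - p * (t + κ))) + s / d2 * q * Real.exp (r * (g - p * (t + κ))) ≤
      c' * Real.exp (r * (g - p * (t + κ))) := by
    rw [← add_mul]
    exact mul_le_mul_of_nonneg_right hc' (Real.exp_pos _).le
  have e8 : ∀ a b c d : ℝ, C0 β * (a + b + c + d) = C0 β * a + C0 β * b + C0 β * c + C0 β * d := by
    intro a b c d; ring
  rw [e8]
  linarith

/-- cell with a horizontal line below the axis, `-3π/2 < t ≤ π/2` -/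
theorem v5_HU {β r t κ : ℝ} (p k1 k2 ta tb g c M s c0 d0 m0 E Hc K : ℝ) (hβ : 0 < β) (hr : 10 ≤ r) (hκ : κ = β * r)
    (hk0 : 0 < k1) (hk1 : k1 ≤ κ) (hk2 : κ ≤ k2) (hta : ta ≤ t + κ) (htb : t + κ ≤ tb) (hp : p ≤ 0)
    (hp1 : -1 ≤ k2 * p)
    (hg : gG κ p ≤ g) (hM : M ≤ Real.exp (-(κ * p)) ^ 2) (hM0 : p ^ 2 < M) (hc0 : 0 < c)
    (hc : 9 ≤ 4 * c ^ 4 * (k1 ^ 2 * (M - p ^ 2)))
    (hd0 : d0 ≤ 4.712 + ta - k2) (hd00 : 0 < d0) (ht : tb ≤ 1.5707 + k1)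
    (hs0 : 0 < s) (hs : k2 ≤ 62.831 * s ^ 2) (hc00 : 0 < c0) (hcc0 : 10 ≤ 17.078 * k1 * c0 ^ 2)
    (hm0 : 1.5708 + tb - k1 ≤ m0) (hm00 : 0 ≤ m0) (hE : 1 / 20 - p * m0 ≤ E)
    (hH : C0 β * HUMP β r t ≤ Hc) (hK : s / d0 + s + Hc + c0 * (1.31416 - k2 * p) ≤ K) :
    ‖F (cexp (I * β)) (r * cexp (I * ((t + β / 2 : ℝ) : ℂ)))‖ ≤
      c * Real.exp (r * (g - p * (t + κ))) + K * Real.exp (r * E) := by
  have hpi := Real.pi_gt_d6
  have hpi' := Real.pi_lt_d6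
  have hr0 : 0 < r := by linarith
  have hκp : 0 < κ := hk0.trans_le hk1
  have ht1 : -(3 * Real.pi / 2) < t := by norm_num at hd0 ⊢; linarith
  have ht2 : t ≤ Real.pi / 2 := by norm_num at ht ⊢; linarith
  obtain ⟨w, hw0, hw1, hw2, hmain⟩ := v5_main (β := β) (t := t) p g c M k1 hr0 hκ hk0 hk1 hg hM hM0 hc0 hc
  have hv1 : k2 * p ≤ κ * p := mul_le_mul_of_nonpos_right hk2 hp
  have hv : -1 ≤ κ * p := by linarith
  have hv0 : κ * p ≤ 0 := mul_nonpos_of_nonneg_of_nonpos hκp.le hp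
  have hb := far_HU hβ hr0 ht1 ht2 hv hw0 hw1 hw2
  refine hb.trans ?_
  have hC := C0_pos hβ
  have hCb := v5_C0b s hβ hr hκ hk2 hs0 hs
  have hC0 := v5_C0 c0 hβ hr hκ hk0 hk1 hc00 hcc0
  have hCb0 : 0 ≤ C0 β * β := by positivity
  have hE0 : 1 / 20 ≤ E := by
    have : 0 ≤ -p * m0 := mul_nonneg (by linarith) hm00
    linarith
  have hEE : Real.exp (r / 20) ≤ Real.exp (r * E) := by
    apply Real.exp_le_exp.2
    have := mul_le_mul_of_nonneg_left hE0 hr0.le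
    linarith
  have h1E : 1 ≤ Real.exp (r * E) := Real.one_le_exp (by positivity)
  have t1 : C0 β * (β / (3 * Real.pi / 2 + t)) ≤ s / d0 * Real.exp (r * E) := by
    have h2 : C0 β * (β / (3 * Real.pi / 2 + t)) ≤ s / d0 := by
      rw [← mul_div_assoc]
      apply div_le_div₀ hs0.le hCb hd00
      norm_num at hd0 ⊢; linarith
    exact h2.trans (le_mul_of_one_le_right (by positivity) h1E)
  have t2 : C0 β * (Real.pi / r) ≤ c0 * 0.31416 * Real.exp (r * E) := by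
    have h2 : Real.pi / r ≤ 0.31416 := by
      rw [div_le_iff₀ hr0]
      norm_num at hpi' ⊢; linarith
    calc C0 β * (Real.pi / r) ≤ (c0 * Real.exp (r / 20)) * 0.31416 := mul_le_mul hC0 h2 (by positivity) (by positivity)
      _ ≤ (c0 * Real.exp (r * E)) * 0.31416 := by gcongr
      _ = _ := by ring
  have t3 : C0 β * (|κ * p| * max 1 (Real.exp (-(κ * p * (Real.pi / 2 + t) / β)))) ≤
      c0 * (-(k2 * p)) * Real.exp (r * E) := by
    rw [abs_of_nonpos hv0]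
    have e1 : -(κ * p * (Real.pi / 2 + t) / β) = r * (-p * (Real.pi / 2 + t)) := by rw [hκ]; field_simp
    rw [e1]
    have h2 : max 1 (Real.exp (r * (-p * (Real.pi / 2 + t)))) ≤ Real.exp (r * (-p * m0)) := by
      apply max_le
      · exact Real.one_le_exp (mul_nonneg hr0.le (mul_nonneg (by linarith) hm00))
      · apply Real.exp_le_exp.2
        apply mul_le_mul_of_nonneg_left _ hr0.le
        apply mul_le_mul_of_nonneg_left _ (by linarith)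
        norm_num at hm0 ⊢; linarith
    calc C0 β * (-(κ * p) * max 1 (Real.exp (r * (-p * (Real.pi / 2 + t)))))
        ≤ (c0 * Real.exp (r / 20)) * (-(k2 * p) * Real.exp (r * (-p * m0))) := by
          have h3 : 0 ≤ -(κ * p) * max 1 (Real.exp (r * (-p * (Real.pi / 2 + t)))) :=
            mul_nonneg (by linarith) (le_trans zero_le_one (le_max_left _ _))
          apply mul_le_mul hC0 _ h3 (by positivity)
          exact mul_le_mul (by linarith) h2 (le_trans zero_le_one (le_max_left _ _)) (by linarith)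
      _ = c0 * (-(k2 * p)) * (Real.exp (r / 20) * Real.exp (r * (-p * m0))) := by ring
      _ ≤ c0 * (-(k2 * p)) * Real.exp (r * E) := by
          apply mul_le_mul_of_nonneg_left _ (mul_nonneg hc00.le (by linarith))
          rw [← Real.exp_add]
          apply Real.exp_le_exp.2
          have := mul_le_mul_of_nonneg_left hE hr0.le
          linarith
  have t4 : C0 β * ((1 + κ * p) * Real.exp (κ * p * (Real.pi / 2 - t) / β)) ≤ c0 * 1 * Real.exp (r * E) := by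
    have h2 : Real.exp (κ * p * (Real.pi / 2 - t) / β) ≤ 1 := by
      apply Real.exp_le_one_iff.2
      apply div_nonpos_of_nonpos_of_nonneg _ hβ.le
      exact mul_nonpos_of_nonpos_of_nonneg hv0 (by linarith)
    have h3 : (1 + κ * p) * Real.exp (κ * p * (Real.pi / 2 - t) / β) ≤ 1 := by
      calc (1 + κ * p) * Real.exp (κ * p * (Real.pi / 2 - t) / β) ≤ 1 * 1 :=
            mul_le_mul (by linarith) h2 (Real.exp_pos _).le (by norm_num)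
        _ = 1 := one_mul _
    have h4 : 0 ≤ (1 + κ * p) * Real.exp (κ * p * (Real.pi / 2 - t) / β) :=
      mul_nonneg (by linarith) (Real.exp_pos _).le
    calc C0 β * ((1 + κ * p) * Real.exp (κ * p * (Real.pi / 2 - t) / β)) ≤ (c0 * Real.exp (r / 20)) * 1 :=
          mul_le_mul hC0 h3 h4 (by positivity)
      _ ≤ (c0 * Real.exp (r * E)) * 1 := by gcongr
      _ = _ := by ring
  have t5 : C0 β * (β * Real.exp (-((Real.pi / 2 - t) / β))) ≤ s * Real.exp (r * E) := by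
    have h1 : Real.exp (-((Real.pi / 2 - t) / β)) ≤ 1 := by
      apply Real.exp_le_one_iff.2
      have : 0 ≤ (Real.pi / 2 - t) / β := div_nonneg (by linarith) hβ.le
      linarith
    calc C0 β * (β * Real.exp (-((Real.pi / 2 - t) / β))) = (C0 β * β) * Real.exp (-((Real.pi / 2 - t) / β)) := by ring
      _ ≤ s * 1 := mul_le_mul hCb h1 (Real.exp_pos _).le hs0.le
      _ ≤ s * Real.exp (r * E) := mul_le_mul_of_nonneg_left h1E hs0.le
  have hHc0 : 0 ≤ Hc := by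
    refine le_trans ?_ hH
    unfold HUMP
    positivity
  have t6 : C0 β * HUMP β r t ≤ Hc * Real.exp (r * E) := hH.trans (le_mul_of_one_le_right hHc0 h1E)
  have h7 := mul_le_mul_of_nonneg_right hK (Real.exp_pos (r * E)).le
  have e8 : ∀ a b c d e f : ℝ, C0 β * (a + b + c + d + e + f) =
      C0 β * a + C0 β * b + C0 β * c + C0 β * d + C0 β * e + C0 β * f := by
    intro a b c d e f; ring
  rw [e8]
  have e7 : (s / d0 + s + Hc + c0 * (1.31416 - k2 * p)) * Real.exp (r * E) =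
      s / d0 * Real.exp (r * E) + s * Real.exp (r * E) + Hc * Real.exp (r * E) +
        (c0 * 0.31416 * Real.exp (r * E) + c0 * 1 * Real.exp (r * E) + c0 * (-(k2 * p)) * Real.exp (r * E)) := by
    ring
  rw [e7] at h7
  linarith

/-- cell for angles in `(π/2 - δ, 3π/2)` -/
theorem v5_UD {β r t κ : ℝ} (k1 k2 ta tb δ c0 E Gc K : ℝ)
    (hβ : 0 < β) (hr : 10 ≤ r) (hκ : κ = β * r) (hk0 : 0 < k1) (hk1 : k1 ≤ κ) (hk2 : κ ≤ k2) (hta : ta ≤ t + κ)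
    (htb : t + κ ≤ tb)
    (hδ : 0 < δ) (hδ1 : δ ≤ 1.57) (hδt : 1.5708 - δ < ta - k2) (htm' : tb ≤ 4.712 + k1)
    (hc0 : 1 ≤ c0 ^ 2 * (6.2831 * k1)) (hc00 : 0 ≤ c0)
    (hE : δ ≤ E) (hE1 : tb - 5.712 + 1.7183 * k2 ≤ E * k2) (hE2 : E ≤ 1.7183)
    (hGc : c0 * (k2 / 10 / (ta - k2 - 1.5708 + δ) + δ + 3.1416 / 10 + 2 + 2 * (k2 / 10)) ≤ Gc)
    (hK : 1.9181 * Gc ≤ K) :
    ‖F (cexp (I * β)) (r * cexp (I * ((t + β / 2 : ℝ) : ℂ)))‖ ≤ K * Real.exp (r * (E + 1 / 20)) := by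
  have hr0 : 0 < r := by linarith
  have hβ0 := b10 hβ hr hκ hk2
  have hF := UDb k1 k2 (ta - k2) tb δ 10 (k2 / 10) c0 E Gc hβ hr0 hκ (t := t) (τ := t + κ) rfl (by linarith) htb hk1 hk2
    hk0 (by norm_num) hr hβ0 hδ hδ1 hδt htm' hc0 hc00 hE hE1 hE2 hGc
  refine hF.trans ?_
  have hGc0 : 0 ≤ Gc := by
    refine le_trans ?_ hGc
    have h1 : 0 < ta - k2 - 1.5708 + δ := by linarith
    have h2 : 0 < k2 := hk0.trans_le (hk1.trans hk2)
    positivity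
  have h1 : Real.sqrt r ≤ 1.9181 * Real.exp (r / 20) := by
    rw [Real.sqrt_le_left (by positivity), mul_pow, ← Real.exp_nat_mul]
    have h2 : Real.exp (((2 : ℕ) : ℝ) * (r / 20)) = Real.exp 1 * Real.exp (r / 10 - 1) := by
      rw [← Real.exp_add]; congr 1; push_cast; ring
    rw [h2]
    have h3 := Real.add_one_le_exp (r / 10 - 1)
    have h4 := Real.exp_one_gt_d9
    have h5 : 2.7182 * (r / 10) ≤ Real.exp 1 * Real.exp (r / 10 - 1) :=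
      mul_le_mul (by norm_num at h4 ⊢; linarith) (by linarith) (by positivity) (Real.exp_pos _).le
    nlinarith
  have e1 : Real.exp (r * (E + 1 / 20)) = Real.exp (r / 20) * Real.exp (r * E) := by
    rw [← Real.exp_add]; congr 1; ring
  rw [e1]
  calc Real.sqrt r * (Gc * Real.exp (r * E)) ≤ (1.9181 * Real.exp (r / 20)) * (Gc * Real.exp (r * E)) :=
        mul_le_mul_of_nonneg_right h1 (by positivity)
    _ = (1.9181 * Gc) * (Real.exp (r / 20) * Real.exp (r * E)) := by ring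
    _ ≤ K * (Real.exp (r / 20) * Real.exp (r * E)) := by gcongr

/-! ### the saddle estimate -/

private theorem q4 {x : ℝ} (hx : 0 ≤ x) : Real.sqrt (Real.sqrt x) ^ 4 = x := by
  rw [show Real.sqrt (Real.sqrt x) ^ 4 = (Real.sqrt (Real.sqrt x) ^ 2) ^ 2 by ring,
    Real.sq_sqrt (Real.sqrt_nonneg _), Real.sq_sqrt hx]

private theorem le_of_pow4 {a b : ℝ} (hb : 0 ≤ b) (h : a ^ 4 ≤ b ^ 4) : a ≤ b := by
  by_contra hlt
  exact absurd h (not_le.2 (pow_lt_pow_left₀ (not_le.1 hlt) hb (by norm_num)))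

theorem v5_Jlo {β r h t κ : ℝ} (hβ : 0 < β) (hκ : κ = β * r) {k : ℤ} {t' : ℝ}
    (ht : t' = t + (k - 1) * h) (hD : DomR κ t') (ε D ℓ : ℝ) (hε : ε ≤ 1)
    (hJ : ‖HH β (sg κ t') - 1‖ ≤ ε) (hd : sD κ t' ≤ D) (hl : ℓ ^ 4 * D ≤ (1 - ε) ^ 4) :
    ℓ * Real.exp (r * sE κ t') ≤ ‖Xf β r h t k‖ := by
  subst hκ
  rw [norm_Xf_eq hβ ht hD]
  have hH : 1 - ε ≤ ‖HH β (sg (β * r) t')‖ := by
    have h1 := norm_sub_norm_le 1 (1 - HH β (sg (β * r) t'))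
    rw [norm_one, norm_sub_rev 1] at h1
    have h2 : (1 : ℂ) - (1 - HH β (sg (β * r) t')) = HH β (sg (β * r) t') := by ring
    rw [h2] at h1
    linarith
  have hs := sD_pos hD
  have hS : 0 < Real.sqrt (Real.sqrt (sD (β * r) t')) := Real.sqrt_pos.2 (Real.sqrt_pos.2 hs)
  have key : ℓ * Real.sqrt (Real.sqrt (sD (β * r) t')) ≤ 1 - ε := by
    apply le_of_pow4 (by linarith)
    rw [mul_pow, q4 hs.le]
    exact (mul_le_mul_of_nonneg_left hd (by positivity)).trans hl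
  unfold sQ
  have e : β * r / β = r := by field_simp
  rw [e]
  have h3 : ℓ * Real.exp (r * sE (β * r) t') ≤ (1 - ε) * (Real.exp (r * sE (β * r) t') / Real.sqrt (Real.sqrt (sD (β * r) t'))) := by
    rw [← mul_div_assoc, le_div_iff₀ hS]
    calc ℓ * Real.exp (r * sE (β * r) t') * Real.sqrt (Real.sqrt (sD (β * r) t')) =
        (ℓ * Real.sqrt (Real.sqrt (sD (β * r) t'))) * Real.exp (r * sE (β * r) t') := by ring
      _ ≤ _ := mul_le_mul_of_nonneg_right key (Real.exp_pos _).le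
  refine h3.trans (mul_le_mul_of_nonneg_right hH ?_)
  exact div_nonneg (Real.exp_pos _).le hS.le

theorem v5_Jup {β r h t κ : ℝ} (hβ : 0 < β) (hκ : κ = β * r) {k : ℤ} {t' : ℝ}
    (ht : t' = t + (k - 1) * h) (hD : DomR κ t') (ε D u : ℝ)
    (hJ : ‖HH β (sg κ t') - 1‖ ≤ ε) (hd : D ≤ sD κ t') (hu0 : 0 ≤ u) (hu : (1 + ε) ^ 4 ≤ u ^ 4 * D) :
    ‖Xf β r h t k‖ ≤ u * Real.exp (r * sE κ t') := by
  subst hκ
  rw [norm_Xf_eq hβ ht hD]
  have hH : ‖HH β (sg (β * r) t')‖ ≤ 1 + ε := by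
    have h1 := norm_add_le (HH β (sg (β * r) t') - 1) 1
    rw [sub_add_cancel, norm_one] at h1
    linarith
  have hs := sD_pos hD
  have hS : 0 < Real.sqrt (Real.sqrt (sD (β * r) t')) := Real.sqrt_pos.2 (Real.sqrt_pos.2 hs)
  have key : 1 + ε ≤ u * Real.sqrt (Real.sqrt (sD (β * r) t')) := by
    apply le_of_pow4 (by positivity)
    rw [mul_pow, q4 hs.le]
    exact hu.trans (mul_le_mul_of_nonneg_left hd (by positivity))
  unfold sQ
  have e : β * r / β = r := by field_simp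
  rw [e]
  refine (mul_le_mul_of_nonneg_right hH (div_nonneg (Real.exp_pos _).le hS.le)).trans ?_
  rw [← mul_div_assoc, div_le_iff₀ hS]
  calc (1 + ε) * Real.exp (r * sE (β * r) t') ≤
      (u * Real.sqrt (Real.sqrt (sD (β * r) t'))) * Real.exp (r * sE (β * r) t') :=
        mul_le_mul_of_nonneg_right key (Real.exp_pos _).le
    _ = _ := by ring

/-! ### `sD` -/

theorem sD_eq5 {κ t : ℝ} (h : DomR κ t) : sD κ t = (κ * Real.exp (-sy κ t)) ^ 2 + 1 + 2 * sy κ t := by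
  have h1 := s_sq h
  have h2 : Real.exp (-2 * sy κ t) = Real.exp (-sy κ t) ^ 2 := by rw [← Real.exp_nat_mul]; congr 1; push_cast; ring
  rw [h2] at h1
  unfold sD
  rw [mul_pow]
  nlinarith

/-- upper bound of `sD` from `ya ≤ sy ≤ yb` -/
theorem v5_Dup {κ t : ℝ} (h : DomR κ t) (k2 ya yb Ea Eb D : ℝ) (hk2 : κ ≤ k2) (hya : ya ≤ sy κ t) (hyb : sy κ t ≤ yb)
    (hEa : Real.exp (-ya) ≤ Ea) (hEb : Real.exp (-yb) ≤ Eb) (hyy : ya < yb)
    (h1 : (k2 * Ea) ^ 2 + 1 + 2 * ya ≤ D) (h2 : (k2 * Eb) ^ 2 + 1 + 2 * yb ≤ D) : sD κ t ≤ D := by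
  have hk := h.1
  rw [sD_eq5 h]
  obtain ⟨y, hy⟩ : ∃ y, y = sy κ t := ⟨_, rfl⟩
  rw [← hy] at hya hyb ⊢
  obtain ⟨θ, hθ⟩ : ∃ θ, θ = (y - ya) / (yb - ya) := ⟨_, rfl⟩
  have hd : 0 < yb - ya := by linarith
  have h0 : 0 ≤ θ := by rw [hθ]; exact div_nonneg (by linarith) hd.le
  have h01 : θ ≤ 1 := by rw [hθ, div_le_one hd]; linarith
  have hyc : y = (1 - θ) * ya + θ * yb := by rw [hθ]; field_simp; ring
  have hc := convexOn_exp.2 (mem_univ (-2 * ya)) (mem_univ (-2 * yb)) (by linarith : 0 ≤ 1 - θ) h0 (by ring)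
  simp only [smul_eq_mul] at hc
  have e : (1 - θ) * (-2 * ya) + θ * (-2 * yb) = -2 * y := by rw [hyc]; ring
  rw [e] at hc
  have e2 : ∀ x, Real.exp (-2 * x) = Real.exp (-x) ^ 2 := by
    intro x; rw [← Real.exp_nat_mul]; congr 1; push_cast; ring
  rw [e2, e2, e2] at hc
  have a1 : (k2 * Real.exp (-ya)) ^ 2 ≤ (k2 * Ea) ^ 2 := by
    have := Real.exp_pos (-ya)
    have : 0 ≤ k2 := hk.le.trans hk2
    gcongr
  have a2 : (k2 * Real.exp (-yb)) ^ 2 ≤ (k2 * Eb) ^ 2 := by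
    have := Real.exp_pos (-yb)
    have : 0 ≤ k2 := hk.le.trans hk2
    gcongr
  have a3 : (κ * Real.exp (-y)) ^ 2 ≤ (k2 * Real.exp (-y)) ^ 2 := by
    have := Real.exp_pos (-y)
    gcongr
  have a4 := mul_le_mul_of_nonneg_left hc (sq_nonneg k2)
  rw [mul_pow] at a1 a2 a3
  have w1 := mul_le_mul_of_nonneg_left (by linarith : k2 ^ 2 * Real.exp (-ya) ^ 2 + 1 + 2 * ya ≤ D) (by linarith : 0 ≤ 1 - θ)
  have w2 := mul_le_mul_of_nonneg_left (by linarith : k2 ^ 2 * Real.exp (-yb) ^ 2 + 1 + 2 * yb ≤ D) h0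
  have w3 : 2 * y = (1 - θ) * (2 * ya) + θ * (2 * yb) := by rw [hyc]; ring
  linarith only [a3, a4, w1, w2, w3, mul_pow k2 (Real.exp (-y)) 2]

/-- lower bound of `sD` from `ya ≤ sy ≤ yb` -/
theorem v5_Dlo {κ t : ℝ} (h : DomR κ t) (k1 ya yb y0 E0 D : ℝ) (hk0 : 0 ≤ k1) (hk1 : k1 ≤ κ) (hya : ya ≤ sy κ t)
    (hyb : sy κ t ≤ yb) (hE0 : E0 ≤ Real.exp (-y0)) (hE00 : 0 ≤ E0) (hy0 : yb ≤ y0 + 1 / 2)
    (h1 : D ≤ (k1 * E0) ^ 2 * (1 + 2 * y0 - 2 * ya) + 1 + 2 * ya)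
    (h2 : D ≤ (k1 * E0) ^ 2 * (1 + 2 * y0 - 2 * yb) + 1 + 2 * yb) : D ≤ sD κ t := by
  have hk := h.1
  rw [sD_eq5 h]
  obtain ⟨y, hy⟩ : ∃ y, y = sy κ t := ⟨_, rfl⟩
  rw [← hy] at hya hyb ⊢
  have e2 : Real.exp (-y) ^ 2 = Real.exp (-y0) ^ 2 * Real.exp (2 * (y0 - y)) := by
    rw [← Real.exp_nat_mul, ← Real.exp_nat_mul, ← Real.exp_add]; congr 1; push_cast; ring
  have e3 := Real.add_one_le_exp (2 * (y0 - y))
  have a1 : E0 ^ 2 ≤ Real.exp (-y0) ^ 2 := pow_le_pow_left₀ hE00 hE0 2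
  have a2 : E0 ^ 2 * (1 + 2 * y0 - 2 * y) ≤ Real.exp (-y) ^ 2 := by
    rw [e2]
    exact mul_le_mul a1 (by linarith) (by linarith) (by positivity)
  have a3 : k1 ^ 2 ≤ κ ^ 2 := pow_le_pow_left₀ hk0 hk1 2
  have a4 : (k1 * E0) ^ 2 * (1 + 2 * y0 - 2 * y) ≤ (κ * Real.exp (-y)) ^ 2 := by
    rw [mul_pow, mul_pow, mul_assoc]
    exact mul_le_mul a3 a2 (mul_nonneg (sq_nonneg _) (by linarith)) (sq_nonneg _)
  obtain ⟨A, hA⟩ : ∃ A, A = (k1 * E0) ^ 2 := ⟨_, rfl⟩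
  rw [← hA] at a4 h1 h2
  rcases le_total A 1 with hA1 | hA1
  · have : (1 - A) * ya ≤ (1 - A) * y := mul_le_mul_of_nonneg_left hya (by linarith)
    nlinarith
  · have : (A - 1) * y ≤ (A - 1) * yb := mul_le_mul_of_nonneg_left hyb (by linarith)
    nlinarith

/-! ### comparison -/

theorem v5_term {r c E V ℓ Y e : ℝ} (q δ : ℝ) (hr : 10 ≤ r) (hc : 0 ≤ c) (hY : ℓ * Real.exp (r * V) ≤ Y) (hδ : 0 ≤ δ)
    (hE : E ≤ V - δ) (hq : Real.exp (-(10 * δ)) ≤ q) (hl : 0 < ℓ) (h : c * q ≤ e * ℓ) :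
    c * Real.exp (r * E) ≤ e * Y := by
  have hq0 : 0 < q := (Real.exp_pos _).trans_le hq
  have he : 0 ≤ e := by
    have h1 : 0 ≤ e * ℓ := le_trans (by positivity) h
    exact nonneg_of_mul_nonneg_left h1 hl
  have h1 : Real.exp (r * E) ≤ q * Real.exp (r * V) := by
    refine le_trans ?_ (mul_le_mul_of_nonneg_right hq (Real.exp_pos _).le)
    rw [← Real.exp_add]
    apply Real.exp_le_exp.2
    have h2 := mul_le_mul_of_nonneg_left hE (by linarith : 0 ≤ r)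
    have h3 := mul_le_mul_of_nonneg_right hr hδ
    linarith
  calc c * Real.exp (r * E) ≤ c * (q * Real.exp (r * V)) := mul_le_mul_of_nonneg_left h1 hc
    _ = (c * q) * Real.exp (r * V) := by ring
    _ ≤ (e * ℓ) * Real.exp (r * V) := mul_le_mul_of_nonneg_right h (Real.exp_pos _).le
    _ = e * (ℓ * Real.exp (r * V)) := by ring
    _ ≤ e * Y := mul_le_mul_of_nonneg_left hY he

/-- shift of the main term by `β` -/
theorem v5_shift {β r κ g p τ c : ℝ} (qs : ℝ) (hκ : κ = β * r) (hc : 0 ≤ c) (hq : Real.exp (-(κ * p)) ≤ qs) :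
    c * Real.exp (r * (g - p * (τ + β))) ≤ (c * qs) * Real.exp (r * (g - p * τ)) := by
  have e : Real.exp (r * (g - p * (τ + β))) = Real.exp (-(κ * p)) * Real.exp (r * (g - p * τ)) := by
    rw [← Real.exp_add, hκ]; congr 1; ring
  rw [e, mul_assoc]
  apply mul_le_mul_of_nonneg_left _ hc
  exact mul_le_mul_of_nonneg_right hq (Real.exp_pos _).le

/-! ### linear lower bounds of `sE` -/

theorem cup1 {κ : ℝ} (k2 : ℝ) (h0 : 0 ≤ κ) (h : κ ≤ k2) (h1 : k2 ≤ 1) :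
    κ * (1 / 2 - κ ^ 2 / 6) ≤ k2 * (1 / 2 - k2 ^ 2 / 6) := by
  have h2 : 0 ≤ (k2 - κ) * (3 - (k2 ^ 2 + k2 * κ + κ ^ 2)) := by
    apply mul_nonneg (by linarith)
    nlinarith
  nlinarith

theorem cup2 {κ : ℝ} (k1 : ℝ) (h1 : 1 ≤ k1) (h : k1 ≤ κ) :
    κ * (1 / 2 - κ ^ 2 / 6) ≤ k1 * (1 / 2 - k1 ^ 2 / 6) := by
  have h2 : 0 ≤ (κ - k1) * ((k1 ^ 2 + k1 * κ + κ ^ 2) - 3) := by
    apply mul_nonneg (by linarith)
    nlinarith
  nlinarith

theorem clo5 {κ : ℝ} (k1 k2 m : ℝ) (h0 : 0 ≤ k1) (h1 : k1 ≤ κ) (h2 : κ ≤ k2) (h12 : k1 < k2)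
    (hm1 : m ≤ k1 * (1 / 2 - k1 ^ 2 / 6)) (hm2 : m ≤ k2 * (1 / 2 - k2 ^ 2 / 6)) :
    m ≤ κ * (1 / 2 - κ ^ 2 / 6) := by
  obtain ⟨θ, hθ⟩ : ∃ θ, θ = (κ - k1) / (k2 - k1) := ⟨_, rfl⟩
  have hd : 0 < k2 - k1 := by linarith
  have g0 : 0 ≤ θ := by rw [hθ]; exact div_nonneg (by linarith) hd.le
  have g1 : θ ≤ 1 := by rw [hθ, div_le_one hd]; linarith
  have hκ : κ = (1 - θ) * k1 + θ * k2 := by rw [hθ]; field_simp; ring
  have e : κ * (1 / 2 - κ ^ 2 / 6) = (1 - θ) * (k1 * (1 / 2 - k1 ^ 2 / 6)) + θ * (k2 * (1 / 2 - k2 ^ 2 / 6)) +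
      (κ - k1) * (k2 - κ) * (k1 + k2 + κ) / 6 := by
    rw [hκ]; ring
  have h3 : 0 ≤ (κ - k1) * (k2 - κ) * (k1 + k2 + κ) := by
    apply mul_nonneg (mul_nonneg (by linarith) (by linarith)) (by linarith)
  have h4 := mul_le_mul_of_nonneg_left hm1 (by linarith : 0 ≤ 1 - θ)
  have h5 := mul_le_mul_of_nonneg_left hm2 g0
  rw [e]
  linarith

/-- right side: `α - μ τ ≤ sE` on `ta ≤ τ ≤ tb` -/
theorem v5_V1 {κ t : ℝ} (h : DomR κ t) (k1 k2 ta tb γ q cm α μ : ℝ) (hk0 : 0 ≤ k1) (hk1 : k1 ≤ κ) (hk2 : κ ≤ k2)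
    (hk3 : k2 ^ 2 ≤ 3) (ht0 : 0 ≤ ta) (hta : ta ≤ t + κ) (htb : t + κ ≤ tb) (hab : ta < tb)
    (hcm : cm ≤ κ * (1 / 2 - κ ^ 2 / 6)) (hcu : κ * (1 / 2 - κ ^ 2 / 6) ≤ q * (1 + k1 ^ 2))
    (hq0 : 0 ≤ q) (hγ0 : 0 ≤ γ) (hγ : γ * (1 + k2 ^ 2) ^ 2 + 9 / 2 * q ^ 2 * tb ≤ cm) (hγb : 6 * γ * tb ≤ 1)
    (ha : α - μ * ta ≤ 1 - (1 / 2 - γ * ta) * ta ^ 2 / (1 + k1 ^ 2))
    (hb : α - μ * tb ≤ 1 - (1 / 2 - γ * tb) * tb ^ 2 / (1 + k1 ^ 2)) : α - μ * (t + κ) ≤ sE κ t := by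
  have hk := h.1
  obtain ⟨τ, hτ⟩ : ∃ τ, τ = t + κ := ⟨_, rfl⟩
  have hκ2 : κ ^ 2 ≤ k2 ^ 2 := pow_le_pow_left₀ hk.le hk2 2
  have hκ1 : k1 ^ 2 ≤ κ ^ 2 := pow_le_pow_left₀ hk0 hk1 2
  have h1 := V1_lo h γ tb (κ * (1 / 2 - κ ^ 2 / 6)) q (by linarith) htb (by linarith) rfl
    (hcu.trans (mul_le_mul_of_nonneg_left (by linarith) hq0)) (by
      have h2 : (1 + κ ^ 2) ^ 2 ≤ (1 + k2 ^ 2) ^ 2 := by
        have : 0 ≤ κ ^ 2 := sq_nonneg κ
        gcongr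
      have h3 := mul_le_mul_of_nonneg_left h2 hγ0
      linarith)
  rw [← hτ] at hta htb h1 ⊢
  refine le_trans ?_ h1
  have hτ0 : 0 ≤ τ := ht0.trans hta
  have hA1 : 0 < 1 + k1 ^ 2 := by positivity
  have hn : 0 ≤ (1 / 2 - γ * τ) * τ ^ 2 := by
    apply mul_nonneg _ (sq_nonneg _)
    have := mul_le_mul_of_nonneg_left htb hγ0
    linarith
  have h4 : (1 / 2 - γ * τ) * τ ^ 2 / (1 + κ ^ 2) ≤ (1 / 2 - γ * τ) * τ ^ 2 / (1 + k1 ^ 2) :=
    div_le_div_of_nonneg_left hn hA1 (by linarith)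
  refine le_trans ?_ (sub_le_sub_left h4 1)
  obtain ⟨θ, hθ⟩ : ∃ θ, θ = (τ - ta) / (tb - ta) := ⟨_, rfl⟩
  have hd : 0 < tb - ta := by linarith
  have g0 : 0 ≤ θ := by rw [hθ]; exact div_nonneg (by linarith) hd.le
  have g1 : θ ≤ 1 := by rw [hθ, div_le_one hd]; linarith
  have hτc : τ = (1 - θ) * ta + θ * tb := by rw [hθ]; field_simp; ring
  have w1 := mul_le_mul_of_nonneg_left ha (by linarith : 0 ≤ 1 - θ)
  have w2 := mul_le_mul_of_nonneg_left hb g0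
  have key : (1 / 2 - γ * τ) * τ ^ 2 ≤ (1 - θ) * ((1 / 2 - γ * ta) * ta ^ 2) + θ * ((1 / 2 - γ * tb) * tb ^ 2) := by
    have e : (1 - θ) * ((1 / 2 - γ * ta) * ta ^ 2) + θ * ((1 / 2 - γ * tb) * tb ^ 2) - (1 / 2 - γ * τ) * τ ^ 2 =
        (τ - ta) * (tb - τ) * (1 / 2 - γ * (τ + ta + tb)) := by
      rw [hτc]; ring
    have h5 : 0 ≤ 1 / 2 - γ * (τ + ta + tb) := by
      have := mul_le_mul_of_nonneg_left (by linarith : τ + ta + tb ≤ 3 * tb) hγ0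
      linarith
    have h6 : 0 ≤ (τ - ta) * (tb - τ) * (1 / 2 - γ * (τ + ta + tb)) :=
      mul_nonneg (mul_nonneg (by linarith) (by linarith)) h5
    linarith
  have key2 := div_le_div_of_nonneg_right key hA1.le
  have e3 : ((1 - θ) * ((1 / 2 - γ * ta) * ta ^ 2) + θ * ((1 / 2 - γ * tb) * tb ^ 2)) / (1 + k1 ^ 2) =
      (1 - θ) * ((1 / 2 - γ * ta) * ta ^ 2 / (1 + k1 ^ 2)) + θ * ((1 / 2 - γ * tb) * tb ^ 2 / (1 + k1 ^ 2)) := by ring
  rw [e3] at key2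
  have e4 : μ * τ = (1 - θ) * (μ * ta) + θ * (μ * tb) := by rw [hτc]; ring
  rw [e4]
  linarith

/-- quadratic lower bound, both sides: `1 - C τ²/(1+k1²) ≤ sE` for `-Tm ≤ τ` -/
theorem v5_V0q {κ t : ℝ} (h : DomR κ t) (k1 k2 Tm C a1 a2 a3 a4 : ℝ) (hk0 : 0 ≤ k1) (hk1 : k1 ≤ κ) (hk2 : κ ≤ k2)
    (hk3 : k2 ^ 2 ≤ 3) (hT : -Tm ≤ t + κ) (hTm : Tm ≤ 1)
    (hcu : κ * (1 / 2 - κ ^ 2 / 6) ≤ a1 * (1 + k1 ^ 2) ^ 2) (ha2 : k2 ^ 4 ≤ a2 * (1 + k1 ^ 2) ^ 3)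
    (ha3 : 1 ≤ a3 * (1 + k1 ^ 2) ^ 3) (ha4 : k2 ≤ a4 * (1 + k1 ^ 2)) (h10 : 0 ≤ a1)
    (h20 : 0 ≤ a2) (h30 : 0 ≤ a3) (h40 : 0 ≤ a4) (hTm0 : 0 ≤ Tm)
    (hC : 1 / 2 + a1 * Tm + a2 * Tm ^ 2 / 12 + (1 + a4 * Tm) * (a3 * Tm ^ 2 / 12 + a3 * Tm ^ 4 / 24) ≤ C) :
    1 - C * (t + κ) ^ 2 / (1 + k1 ^ 2) ≤ sE κ t := by
  have hk := h.1
  have hκ2 : κ ^ 2 ≤ k2 ^ 2 := pow_le_pow_left₀ hk.le hk2 2
  have hκ1 : k1 ^ 2 ≤ κ ^ 2 := pow_le_pow_left₀ hk0 hk1 2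
  have hA1 : 0 < 1 + k1 ^ 2 := by positivity
  have hA : 0 < 1 + κ ^ 2 := by positivity
  have hC2 : 1 / 2 ≤ C := by
    refine le_trans ?_ hC
    have : 0 ≤ a1 * Tm + a2 * Tm ^ 2 / 12 + (1 + a4 * Tm) * (a3 * Tm ^ 2 / 12 + a3 * Tm ^ 4 / 24) := by positivity
    linarith
  have hx : C * (t + κ) ^ 2 / (1 + κ ^ 2) ≤ C * (t + κ) ^ 2 / (1 + k1 ^ 2) :=
    div_le_div_of_nonneg_left (by positivity) hA1 (by linarith)
  refine le_trans (sub_le_sub_left hx 1) ?_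
  rcases le_total (t + κ) 0 with h0 | h0
  · have p2 : (1 + k1 ^ 2) ^ 2 ≤ (1 + κ ^ 2) ^ 2 := by gcongr
    have p3 : (1 + k1 ^ 2) ^ 3 ≤ (1 + κ ^ 2) ^ 3 := by gcongr
    have p4 : κ ^ 4 ≤ k2 ^ 4 := pow_le_pow_left₀ hk.le hk2 4
    refine V0_lo h C Tm a1 a2 a3 a4 (by linarith) (by linarith) hTm ?_ ?_ ?_ ?_ h10 h20 h30 h40 hC
    · exact hcu.trans (mul_le_mul_of_nonneg_left p2 h10)
    · exact p4.trans (ha2.trans (mul_le_mul_of_nonneg_left p3 h20))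
    · exact ha3.trans (mul_le_mul_of_nonneg_left p3 h30)
    · exact hk2.trans (ha4.trans (mul_le_mul_of_nonneg_left (by linarith) h40))
  · have h2 := low_quad h (by linarith) h0 t
    have e1 : (t + κ) ^ 2 / (2 * (1 + κ ^ 2)) = 1 / 2 * (t + κ) ^ 2 / (1 + κ ^ 2) := by field_simp
    rw [e1, sub_self, mul_zero, add_zero] at h2
    refine le_trans (sub_le_sub_left ?_ 1) h2
    apply div_le_div_of_nonneg_right _ hA.le
    exact mul_le_mul_of_nonneg_right hC2 (sq_nonneg _)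

/-- chord: `α + μ τ` below `1 - C τ²/A` on `[ta, tb]` -/
theorem v5_lin {C A τ V : ℝ} (ta tb α μ : ℝ) (hA : 0 < A) (hC : 0 ≤ C) (hV : 1 - C * τ ^ 2 / A ≤ V) (hta : ta ≤ τ)
    (htb : τ ≤ tb) (hab : ta < tb) (ha : α + μ * ta ≤ 1 - C * ta ^ 2 / A) (hb : α + μ * tb ≤ 1 - C * tb ^ 2 / A) :
    α + μ * τ ≤ V := by
  refine le_trans ?_ hV
  obtain ⟨θ, hθ⟩ : ∃ θ, θ = (τ - ta) / (tb - ta) := ⟨_, rfl⟩
  have hd : 0 < tb - ta := by linarith
  have g0 : 0 ≤ θ := by rw [hθ]; exact div_nonneg (by linarith) hd.le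
  have g1 : θ ≤ 1 := by rw [hθ, div_le_one hd]; linarith
  have hτc : τ = (1 - θ) * ta + θ * tb := by rw [hθ]; field_simp; ring
  have w1 := mul_le_mul_of_nonneg_left ha (by linarith : 0 ≤ 1 - θ)
  have w2 := mul_le_mul_of_nonneg_left hb g0
  have key : C * τ ^ 2 ≤ (1 - θ) * (C * ta ^ 2) + θ * (C * tb ^ 2) := by
    have e : (1 - θ) * (C * ta ^ 2) + θ * (C * tb ^ 2) - C * τ ^ 2 = C * ((τ - ta) * (tb - τ)) := by
      rw [hτc]; ring
    have h6 : 0 ≤ C * ((τ - ta) * (tb - τ)) := mul_nonneg hC (mul_nonneg (by linarith) (by linarith))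
    linarith
  have key2 := div_le_div_of_nonneg_right key hA.le
  have e3 : ((1 - θ) * (C * ta ^ 2) + θ * (C * tb ^ 2)) / A =
      (1 - θ) * (C * ta ^ 2 / A) + θ * (C * tb ^ 2 / A) := by ring
  rw [e3] at key2
  have e4 : μ * τ = (1 - θ) * (μ * ta) + θ * (μ * tb) := by rw [hτc]; ring
  rw [e4]
  linarith

end Sok
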