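import Pool.Agent.Lib.MP_816dec_an.R1V6

/-!
MP_816dec_an (A3, row R1), SINGLE CASE `b = 5`, `r ≥ 10`: the logarithmic derivatives.
-/

set_option autoImplicit false

open Complex Set Filter Topology Metric

namespace Sok

theorem norm_sg5 {κ t : ℝ} (h : DomR κ t) : ‖sg κ t‖ = κ * Real.exp (-sy κ t) := norm_sg h

/-- the logarithmic derivative of a near copy -/
theorem v5_Ld {β r h t κ : ℝ} (δ ε : ℝ) {k : ℤ} {t' : ℝ} (hβ : 0 < β) (hκ : κ = β * r) (ht : t' = t + (k - 1) * h)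
    (hD : DomR κ t') (hδ : 0 < δ) (hε : ε < 1) (him : δ < 1 + sy κ t')
    (hJ : ∀ s : ℂ, ‖s - sg κ t'‖ ≤ δ → ‖HH β s - 1‖ ≤ ε) :
    Xf β r h t k ≠ 0 ∧ ‖Ld β r h t k - (sg κ t' / β + I / 2 * sg κ t' / (1 - I * sg κ t') ^ 2)‖ ≤
      ‖sg κ t' / (1 - I * sg κ t')‖ * (ε / (δ * (1 - ε))) := by
  have hne : sg κ t' ≠ 0 := by
    rw [← norm_pos_iff, norm_sg5 hD]
    exact mul_pos hD.1 (Real.exp_pos _)
  have him' : ∀ s : ℂ, ‖s - sg κ t'‖ ≤ δ → -1 < s.im := by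
    intro s hs
    have h1 := (abs_le.1 ((Complex.abs_im_le_norm _).trans hs)).1
    have h2 : (s - sg κ t').im = s.im - sy κ t' := by
      unfold sg
      simp
    rw [h2] at h1
    linarith
  obtain ⟨h1, h2⟩ := slope_of_disc hβ hδ hε hne him' hJ
  have hb : (β : ℂ) ≠ 0 := by exact_mod_cast hβ.ne'
  have hz : zs β (sg κ t') = (r : ℂ) * cexp (I * ((t' + β / 2 : ℝ) : ℂ)) := by
    have h3 := s_point hD hβ.ne'
    have e : κ / β = r := by rw [hκ]; field_simp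
    rw [e] at h3
    rw [mul_comm I, ← h3]
    rfl
  have hX : Xf β r h t k = F (cexp (I * β)) (zs β (sg κ t')) := by
    unfold Xf
    rw [hz, ht]
  have hX' : Xf β r h (t + β) k = F (cexp (I * β)) (cexp (I * β) * zs β (sg κ t')) := by
    unfold Xf
    congr 1
    rw [hz, mul_left_comm, ← Complex.exp_add, ht]
    congr 2
    push_cast
    ring
  refine ⟨by rw [hX]; exact h1, ?_⟩
  have hL : Ld β r h t k = zs β (sg κ t') * F (cexp (I * β)) (cexp (I * β) * zs β (sg κ t')) /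
      F (cexp (I * β)) (zs β (sg κ t')) := by
    unfold Ld
    rw [hX, hX', hz, ht]
  rw [hL]
  exact h2

private theorem one_sub_ne {κ t : ℝ} (h : DomR κ t) : 1 - I * sg κ t ≠ 0 := by
  rw [← norm_pos_iff, norm_one_sub_sg]
  exact Real.sqrt_pos.2 (sD_pos h)

/-- the second term of the logarithmic derivative -/
theorem im_ex {κ t : ℝ} (h : DomR κ t) :
    (I / 2 * sg κ t / (1 - I * sg κ t) ^ 2).im = sx κ t / sD κ t * ((1 + sy κ t) / sD κ t - 1 / 2) := by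
  have hne := one_sub_ne h
  obtain ⟨w, hw⟩ : ∃ w, w = (1 - I * sg κ t)⁻¹ := ⟨_, rfl⟩
  have e1 : I / 2 * sg κ t / (1 - I * sg κ t) ^ 2 = (1 / 2 : ℝ) * (w * w - w) := by
    rw [hw]
    push_cast
    field_simp
    ring
  have hN : Complex.normSq (1 - I * sg κ t) = sD κ t := by
    unfold sg sD
    rw [Complex.normSq_apply]
    simp
    ring
  have hre : w.re = (1 + sy κ t) / sD κ t := by
    rw [hw, Complex.inv_re, hN]
    unfold sg
    simp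
  have him : w.im = sx κ t / sD κ t := by
    rw [hw, Complex.inv_im, hN]
    unfold sg
    simp
  rw [e1, Complex.im_ofReal_mul, Complex.sub_im, Complex.mul_im, hre, him]
  ring

theorem norm_ex {κ t : ℝ} (h : DomR κ t) :
    ‖I / 2 * sg κ t / (1 - I * sg κ t) ^ 2‖ = κ * Real.exp (-sy κ t) / (2 * sD κ t) := by
  rw [norm_div, norm_mul, norm_pow, norm_one_sub_sg, Real.sq_sqrt (sD_pos h).le, norm_sg5 h]
  have : ‖(I / 2 : ℂ)‖ = 1 / 2 := by simp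
  rw [this]
  field_simp

/-- numerical data of the logarithmic derivative -/
theorem v5_slope {β r h t κ : ℝ} (δ ε n D f e : ℝ) {k : ℤ} {t' : ℝ} (hβ : 0 < β) (hκ : κ = β * r)
    (ht : t' = t + (k - 1) * h)
    (hD : DomR κ t') (hδ : 0 < δ) (hε : ε < 1) (him : δ < 1 + sy κ t')
    (hJ : ∀ s : ℂ, ‖s - sg κ t'‖ ≤ δ → ‖HH β s - 1‖ ≤ ε)
    (hn : κ * Real.exp (-sy κ t') ≤ n) (hD0 : 0 < D) (hDl : D ≤ sD κ t') (hf0 : 0 ≤ f)
    (hf : ε ≤ f * (δ * (1 - ε))) (he0 : 0 ≤ e) (he : (n * f) ^ 2 ≤ e ^ 2 * D) :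
    Xf β r h t k ≠ 0 ∧ |(Ld β r h t k).im - (sy κ t' / β + sx κ t' / sD κ t' * ((1 + sy κ t') / sD κ t' - 1 / 2))| ≤ e ∧
      ‖Ld β r h t k - sg κ t' / β‖ ≤ n / (2 * D) + e := by
  obtain ⟨h1, h2⟩ := v5_Ld δ ε hβ hκ ht hD hδ hε him hJ
  have hsD := sD_pos hD
  have hn0 : 0 < κ * Real.exp (-sy κ t') := mul_pos hD.1 (Real.exp_pos _)
  have hE : ‖sg κ t' / (1 - I * sg κ t')‖ * (ε / (δ * (1 - ε))) ≤ e := by
    have h3 : ε / (δ * (1 - ε)) ≤ f := by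
      rw [div_le_iff₀ (mul_pos hδ (by linarith))]
      exact hf
    rw [norm_div, norm_one_sub_sg, norm_sg5 hD]
    have h4 : κ * Real.exp (-sy κ t') / Real.sqrt (sD κ t') ≤ n / Real.sqrt D :=
      div_le_div₀ (hn0.le.trans hn) hn (Real.sqrt_pos.2 hD0) (Real.sqrt_le_sqrt hDl)
    have h5 : n / Real.sqrt D * f ≤ e := by
      rw [div_mul_eq_mul_div, div_le_iff₀ (Real.sqrt_pos.2 hD0)]
      have h6 : n * f = Real.sqrt ((n * f) ^ 2) := (Real.sqrt_sq (mul_nonneg (hn0.le.trans hn) hf0)).symm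
      have h7 : e * Real.sqrt D = Real.sqrt (e ^ 2 * D) := by
        rw [Real.sqrt_mul (sq_nonneg e), Real.sqrt_sq he0]
      rw [h6, h7]
      exact Real.sqrt_le_sqrt he
    have h8 : 0 ≤ κ * Real.exp (-sy κ t') / Real.sqrt (sD κ t') := by positivity
    calc κ * Real.exp (-sy κ t') / Real.sqrt (sD κ t') * (ε / (δ * (1 - ε)))
        ≤ κ * Real.exp (-sy κ t') / Real.sqrt (sD κ t') * f := mul_le_mul_of_nonneg_left h3 h8
      _ ≤ n / Real.sqrt D * f := mul_le_mul_of_nonneg_right h4 hf0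
      _ ≤ e := h5
  have h3 := h2.trans hE
  refine ⟨h1, ?_, ?_⟩
  · have h4 := (Complex.abs_im_le_norm _).trans h3
    rw [Complex.sub_im, Complex.add_im, im_ex hD] at h4
    have h5 : (sg κ t' / (β : ℂ)).im = sy κ t' / β := by
      rw [Complex.div_ofReal_im]
      unfold sg
      simp
    rw [h5] at h4
    exact h4
  · have e1 : Ld β r h t k - sg κ t' / β = (Ld β r h t k - (sg κ t' / β + I / 2 * sg κ t' / (1 - I * sg κ t') ^ 2)) +
        I / 2 * sg κ t' / (1 - I * sg κ t') ^ 2 := by ring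
    rw [e1]
    refine (norm_add_le _ _).trans ?_
    rw [norm_ex hD]
    have h6 : κ * Real.exp (-sy κ t') / (2 * sD κ t') ≤ n / (2 * D) :=
      div_le_div₀ (hn0.le.trans hn) hn (by linarith) (by linarith)
    linarith

/-- lower bound of the second term for the copy `1` -/
theorem ex_lo {κ t : ℝ} (h : DomR κ t) (n D Du ya c X : ℝ) (hn : κ * Real.exp (-sy κ t) ≤ n) (hD0 : 0 < D)
    (hDl : D ≤ sD κ t) (hDu : sD κ t ≤ Du) (hya : ya ≤ sy κ t) (hya1 : 0 ≤ 1 + ya) (hc0 : 0 ≤ c)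
    (hc : (1 / 2 - c) * Du ≤ 1 + ya) (hX : c * n ≤ X * D) :
    -X ≤ sx κ t / sD κ t * ((1 + sy κ t) / sD κ t - 1 / 2) := by
  have hsD := sD_pos h
  have hx := sx_pos h
  have hxn : sx κ t ≤ n := by
    refine le_trans ?_ hn
    have h1 := s_sq h
    have h2 : Real.exp (-2 * sy κ t) = Real.exp (-sy κ t) ^ 2 := by
      rw [← Real.exp_nat_mul]; congr 1; push_cast; ring
    rw [h2, ← mul_pow] at h1
    apply le_of_sq_le_sq _ (mul_pos h.1 (Real.exp_pos _)).le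
    nlinarith [sq_nonneg (sy κ t)]
  have h1 : -c ≤ (1 + sy κ t) / sD κ t - 1 / 2 := by
    have h2 : 1 / 2 - c ≤ (1 + sy κ t) / sD κ t := by
      rw [le_div_iff₀ hsD]
      rcases le_total (1 / 2 - c) 0 with h3 | h3
      · have : (1 / 2 - c) * sD κ t ≤ 0 := mul_nonpos_of_nonpos_of_nonneg h3 hsD.le
        linarith
      · have := mul_le_mul_of_nonneg_left hDu h3
        linarith
    linarith
  have h2 : sx κ t / sD κ t ≤ n / D := div_le_div₀ (hx.le.trans hxn) hxn hD0 hDl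
  have h3 : 0 ≤ sx κ t / sD κ t := by positivity
  have h4 : sx κ t / sD κ t * -c ≤ sx κ t / sD κ t * ((1 + sy κ t) / sD κ t - 1 / 2) :=
    mul_le_mul_of_nonneg_left h1 h3
  have h5 : sx κ t / sD κ t * c ≤ n / D * c := mul_le_mul_of_nonneg_right h2 hc0
  have h6 : n / D * c ≤ X := by
    rw [div_mul_eq_mul_div, div_le_iff₀ hD0]
    linarith
  linarith

/-- upper bound of the second term for the copy `0` -/
theorem ex_hi {κ t : ℝ} (h : DomR κ t) (n D yb c X : ℝ) (hn : κ * Real.exp (-sy κ t) ≤ n) (hD0 : 0 < D)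
    (hDl : D ≤ sD κ t) (hyb : sy κ t ≤ yb) (hyb1 : 0 ≤ 1 + yb) (hc0 : 0 ≤ c)
    (hc : 1 + yb ≤ (1 / 2 + c) * D) (hX : c * n ≤ X * D) :
    sx κ t / sD κ t * ((1 + sy κ t) / sD κ t - 1 / 2) ≤ X := by
  have hsD := sD_pos h
  have hx := sx_pos h
  have hxn : sx κ t ≤ n := by
    refine le_trans ?_ hn
    have h1 := s_sq h
    have h2 : Real.exp (-2 * sy κ t) = Real.exp (-sy κ t) ^ 2 := by
      rw [← Real.exp_nat_mul]; congr 1; push_cast; ring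
    rw [h2, ← mul_pow] at h1
    apply le_of_sq_le_sq _ (mul_pos h.1 (Real.exp_pos _)).le
    nlinarith [sq_nonneg (sy κ t)]
  have h1 : (1 + sy κ t) / sD κ t - 1 / 2 ≤ c := by
    have h2 : (1 + sy κ t) / sD κ t ≤ 1 / 2 + c := by
      rw [div_le_iff₀ hsD]
      have := mul_le_mul_of_nonneg_left hDl (by linarith : 0 ≤ 1 / 2 + c)
      linarith
    linarith
  have h2 : sx κ t / sD κ t ≤ n / D := div_le_div₀ (hx.le.trans hxn) hxn hD0 hDl
  have h3 : 0 ≤ sx κ t / sD κ t := by positivity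
  have h4 : sx κ t / sD κ t * ((1 + sy κ t) / sD κ t - 1 / 2) ≤ sx κ t / sD κ t * c :=
    mul_le_mul_of_nonneg_left h1 h3
  have h5 : sx κ t / sD κ t * c ≤ n / D * c := mul_le_mul_of_nonneg_right h2 hc0
  have h6 : n / D * c ≤ X := by
    rw [div_mul_eq_mul_div, div_le_iff₀ hD0]
    linarith
  linarith

/-- slope of the quotient -/
theorem v5_m {β r h t κ : ℝ} (k2 y1 y0 X1 X0 e1 e0 a1 a0 m : ℝ) (hβ : 0 < β) (hr : 10 ≤ r) (hκ : κ = β * r) (hk2 : κ ≤ k2)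
    {s1 s0 : ℝ} (h1 : |(Ld β r h t 1).im - (s1 / β + a1)| ≤ e1) (h0 : |(Ld β r h t 0).im - (s0 / β + a0)| ≤ e0)
    (hy1 : y1 ≤ s1) (hy0 : s0 ≤ -y0) (hy : 0 ≤ y1 + y0) (ha1 : -X1 ≤ a1) (ha0 : a0 ≤ X0)
    (hX : 0 ≤ X1 + X0 + e1 + e0) (hm : m * k2 ≤ y1 + y0 - k2 * (X1 + X0 + e1 + e0) / 10) :
    r * m ≤ (Ld β r h t 1 - Ld β r h t 0).im := by
  have hr0 : 0 < r := by linarith
  have hκp : 0 < κ := by rw [hκ]; positivity
  have hk2p : 0 < k2 := hκp.trans_le hk2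
  rw [Complex.sub_im]
  obtain ⟨a, b⟩ := abs_le.1 h1
  obtain ⟨c, d⟩ := abs_le.1 h0
  have h2 : r * ((y1 + y0) / k2) ≤ s1 / β - s0 / β := by
    rw [← sub_div, le_div_iff₀ hβ]
    have e : r * ((y1 + y0) / k2) * β = (y1 + y0) * (κ / k2) := by rw [hκ]; field_simp
    rw [e]
    have h3 : κ / k2 ≤ 1 := by rw [div_le_one hk2p]; exact hk2
    calc (y1 + y0) * (κ / k2) ≤ (y1 + y0) * 1 := mul_le_mul_of_nonneg_left h3 hy
      _ ≤ s1 - s0 := by linarith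
  have h3 : m ≤ (y1 + y0) / k2 - (X1 + X0 + e1 + e0) / 10 := by
    rw [← sub_nonneg]
    have e : (y1 + y0) / k2 - (X1 + X0 + e1 + e0) / 10 - m = (y1 + y0 - k2 * (X1 + X0 + e1 + e0) / 10 - m * k2) / k2 := by
      field_simp
    rw [e]
    exact div_nonneg (by linarith) hk2p.le
  have h4 := mul_le_mul_of_nonneg_left h3 hr0.le
  have h5 : (X1 + X0 + e1 + e0) ≤ r * ((X1 + X0 + e1 + e0) / 10) := by
    have := mul_le_mul_of_nonneg_right hr (by positivity : 0 ≤ (X1 + X0 + e1 + e0) / 10)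
    linarith
  have h6 : r * ((y1 + y0) / k2 - (X1 + X0 + e1 + e0) / 10) = r * ((y1 + y0) / k2) - r * ((X1 + X0 + e1 + e0) / 10) := by
    ring
  rw [h6] at h4
  linarith

/-- a combination of the two logarithmic derivatives -/
theorem v5_comb {β r κ : ℝ} {L0 L1 σ0 σ1 : ℂ} (c0 c1 k1 A0 A1 N L : ℝ) (hβ : 0 < β) (hr : 10 ≤ r) (hκ : κ = β * r)
    (hk0 : 0 < k1) (hk1 : k1 ≤ κ) (h0 : ‖L0 - σ0 / β‖ ≤ A0) (h1 : ‖L1 - σ1 / β‖ ≤ A1)
    (hN : ‖(c0 : ℂ) * σ0 + c1 * σ1‖ ≤ N) (hL : N / k1 + (|c0| * A0 + |c1| * A1) / 10 ≤ L) :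
    ‖(c0 : ℂ) * L0 + c1 * L1‖ ≤ r * L := by
  have hr0 : 0 < r := by linarith
  have hb : (β : ℂ) ≠ 0 := by exact_mod_cast hβ.ne'
  have e : (c0 : ℂ) * L0 + c1 * L1 = ((c0 : ℂ) * σ0 + c1 * σ1) / β + (c0 * (L0 - σ0 / β) + c1 * (L1 - σ1 / β)) := by
    field_simp
    ring
  rw [e]
  have hN0 : 0 ≤ N := (norm_nonneg _).trans hN
  have h2 : ‖((c0 : ℂ) * σ0 + c1 * σ1) / β‖ ≤ r * (N / k1) := by
    rw [norm_div, Complex.norm_real, Real.norm_of_nonneg hβ.le, div_le_iff₀ hβ]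
    have e2 : r * (N / k1) * β = N * (κ / k1) := by rw [hκ]; field_simp
    rw [e2]
    refine hN.trans (le_mul_of_one_le_right hN0 ?_)
    rw [le_div_iff₀ hk0]; linarith
  have h3 : ‖(c0 : ℂ) * (L0 - σ0 / β) + c1 * (L1 - σ1 / β)‖ ≤ |c0| * A0 + |c1| * A1 := by
    refine (norm_add_le _ _).trans ?_
    rw [norm_mul, norm_mul, Complex.norm_real, Complex.norm_real, Real.norm_eq_abs, Real.norm_eq_abs]
    have := mul_le_mul_of_nonneg_left h0 (abs_nonneg c0)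
    have := mul_le_mul_of_nonneg_left h1 (abs_nonneg c1)
    linarith
  have h4 : 0 ≤ |c0| * A0 + |c1| * A1 := (norm_nonneg _).trans h3
  have h5 : |c0| * A0 + |c1| * A1 ≤ r * ((|c0| * A0 + |c1| * A1) / 10) := by
    have := mul_le_mul_of_nonneg_right hr (by positivity : 0 ≤ (|c0| * A0 + |c1| * A1) / 10)
    linarith
  have h6 := mul_le_mul_of_nonneg_left hL hr0.le
  rw [mul_add] at h6
  refine (norm_add_le _ _).trans ?_
  linarith

/-- norm of a combination of two points of boxes -/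
theorem v5_cN {κ t1 t0 : ℝ} (c0 c1 X Y N : ℝ) (hX : |c0 * sx κ t0 + c1 * sx κ t1| ≤ X)
    (hY : |c0 * sy κ t0 + c1 * sy κ t1| ≤ Y) (hN0 : 0 ≤ N) (hN : X ^ 2 + Y ^ 2 ≤ N ^ 2) :
    ‖(c0 : ℂ) * sg κ t0 + c1 * sg κ t1‖ ≤ N := by
  rw [Complex.norm_def]
  have e : Complex.normSq ((c0 : ℂ) * sg κ t0 + c1 * sg κ t1) =
      (c0 * sx κ t0 + c1 * sx κ t1) ^ 2 + (c0 * sy κ t0 + c1 * sy κ t1) ^ 2 := by
    unfold sg
    rw [Complex.normSq_apply]
    simp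
    ring
  rw [e, Real.sqrt_le_left hN0]
  have h1 : (c0 * sx κ t0 + c1 * sx κ t1) ^ 2 ≤ X ^ 2 := by
    rw [← sq_abs]; exact pow_le_pow_left₀ (abs_nonneg _) hX 2
  have h2 : (c0 * sy κ t0 + c1 * sy κ t1) ^ 2 ≤ Y ^ 2 := by
    rw [← sq_abs]; exact pow_le_pow_left₀ (abs_nonneg _) hY 2
  linarith

/-- `HH` on a disc from a rectangle -/
theorem v5_disc {β κ t ε : ℝ} (δ xa xb ya yb xl xu yl yu : ℝ)
    (hR : ∀ x y : ℝ, xa ≤ x → x ≤ xb → ya ≤ y → y ≤ yb → ‖HH β (x + y * I) - 1‖ ≤ ε)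
    (h1 : xl ≤ sx κ t) (h2 : sx κ t ≤ xu) (h3 : yl ≤ sy κ t) (h4 : sy κ t ≤ yu)
    (g1 : xa ≤ xl - δ) (g2 : xu + δ ≤ xb) (g3 : ya ≤ yl - δ) (g4 : yu + δ ≤ yb) :
    ∀ s : ℂ, ‖s - sg κ t‖ ≤ δ → ‖HH β s - 1‖ ≤ ε := by
  intro s hs
  have hs' : ‖s - ((sx κ t : ℂ) + (sy κ t : ℂ) * I)‖ ≤ δ := hs
  obtain ⟨es, ⟨s1, s2⟩, ⟨s3, s4⟩⟩ := disc_split hs'
  rw [es]
  exact hR s.re s.im (by linarith) (by linarith) (by linarith) (by linarith)

/-- the sum over the three far copies -/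
theorem far5 (f : ℤ → ℝ) : ∑ k ∈ far (-2) 5, f k = f (-2) + f (-1) + f 2 := by
  have h : far (-2) 5 = {-2, -1, 2} := by decide
  rw [h]
  simp [add_assoc]

theorem far5_mem {k : ℤ} (hk : k ∈ far (-2) 5) : k = -2 ∨ k = -1 ∨ k = 2 := by
  have h : far (-2) 5 = {-2, -1, 2} := by decide
  rw [h] at hk
  simpa using hk

end Sok
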