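import Pool.Agent.Lib.MP_816dec_an.R1V7

/-!
MP_816dec_an (A3, row R1), SINGLE CASE `b = 5`, `r ≥ 10`: assembly.
-/

set_option autoImplicit false

open Complex Set Filter Topology Metric

namespace Sok

theorem v5_X {β r h t : ℝ} (k : ℤ) (j : ℝ) (hj : (k : ℝ) - 1 = j) :
    ‖Xf β r h t k‖ = ‖F (cexp (I * β)) (r * cexp (I * ((t + j * h + β / 2 : ℝ) : ℂ)))‖ := by
  unfold Xf
  rw [hj]

private theorem Xf_per5 {β R h t : ℝ} {k : ℤ} (n : ℤ) :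
    ‖Xf β R h t k‖ = ‖F (cexp (I * β)) (R * cexp (I * ((t + (k - 1) * h + 2 * Real.pi * n + β / 2 : ℝ) : ℂ)))‖ := by
  unfold Xf
  congr 3
  have e : I * ((t + (k - 1) * h + 2 * Real.pi * n + β / 2 : ℝ) : ℂ) =
      I * ((t + (k - 1) * h + β / 2 : ℝ) : ℂ) + n * (2 * Real.pi * I) := by
    push_cast
    ring
  rw [e, Complex.exp_add, Complex.exp_int_mul_two_pi_mul_I, mul_one]

theorem v5_Xm2 {β r h t : ℝ} (hh : h = 2 * Real.pi / 5) :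
    ‖Xf β r h t (-2)‖ = ‖F (cexp (I * β)) (r * cexp (I * ((t + 2 * h + β / 2 : ℝ) : ℂ)))‖ := by
  rw [Xf_per5 (1 : ℤ)]
  have e : t + (((-2 : ℤ) : ℝ) - 1) * h + 2 * Real.pi * ((1 : ℤ) : ℝ) + β / 2 = t + 2 * h + β / 2 := by
    push_cast
    rw [hh]
    ring
  rw [e]

/-- everything on the window -/
def Win5 (β r h κ slo shi e2 em1 em2 w2 wm1 wm2 m : ℝ) : Prop :=
  ∀ t, slo * h ≤ t + κ → t + κ ≤ shi * h → Xf β r h t 0 ≠ 0 ∧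
    (‖Xf β r h t 2‖ ≤ e2 * ‖Xf β r h t 1‖ ∧ ‖Xf β r h t (-1)‖ ≤ em1 * ‖Xf β r h t 0‖ ∧
      ‖Xf β r h t (-2)‖ ≤ em2 * ‖Xf β r h t 0‖) ∧
    (r * ‖Xf β r h (t + β) 2‖ + ‖Xf β r h t 2‖ * ‖(1 : ℂ) * Ld β r h t 0 + (-2 : ℂ) * Ld β r h t 1‖ ≤
        r * w2 * ‖Xf β r h t 1‖ ∧
      r * ‖Xf β r h (t + β) (-1)‖ + ‖Xf β r h t (-1)‖ * ‖(-2 : ℂ) * Ld β r h t 0 + (1 : ℂ) * Ld β r h t 1‖ ≤
        r * wm1 * ‖Xf β r h t 0‖ ∧
      r * ‖Xf β r h (t + β) (-2)‖ + ‖Xf β r h t (-2)‖ * ‖(-3 : ℂ) * Ld β r h t 0 + (2 : ℂ) * Ld β r h t 1‖ ≤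
        r * wm2 * ‖Xf β r h t 0‖) ∧
    r * m ≤ (Ld β r h t 1 - Ld β r h t 0).im

theorem v5_circ {p : ℤ} {β r κ h : ℝ} (hp : IsCoprime (5 : ℤ) p) (hr : 10 ≤ r)
    (hh : h = 2 * Real.pi / 5) (slo shi a η e2 em1 em2 w2 wm1 wm2 m : ℝ)
    (hwin : Win5 β r h κ slo shi e2 em1 em2 w2 wm1 wm2 m)
    (hout : ∀ t, 0.05 * h ≤ t + κ → t + κ ≤ 1.05 * h → (t + κ < slo * h ∨ shi * h < t + κ) →
      ‖Xf β r h t (-2)‖ + ‖Xf β r h t (-1)‖ + ‖Xf β r h t 2‖ < |‖Xf β r h t 1‖ - ‖Xf β r h t 0‖|)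
    (huv : slo < shi) (ha : 1 < a) (hm : 0 < m) (hη : 1 < a * (1 - η)) (h2 : 0 ≤ e2) (hm1 : 0 ≤ em1) (hm2 : 0 ≤ em2)
    (hsum : em2 + em1 + e2 ≤ η)
    (small1 : 2 * (a ^ 2 * em2) * a ^ 3 + (a * em1) * a ^ 2 + 2 * (a * e2) * a ^ 3 < 1)
    (small2 : a * ((a ^ 2 * wm2) * a ^ 2 + (a * wm1) * a + (a * w2) * a ^ 2) <
      m * (1 - (2 * (a ^ 2 * em2) * a ^ 3 + (a * em1) * a ^ 2 + 2 * (a * e2) * a ^ 3))) :
    Circ (2 * Real.pi * p / 5 + β) r := by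
  have hr0 : 0 < r := by linarith
  have hpv : pv 2 = 1 ∧ pv (-1) = 1 ∧ pv (-2) = 2 := by
    unfold pv
    refine ⟨?_, ?_, ?_⟩ <;> simp
  have hsd : sd 2 = 1 ∧ sd (-1) = 0 ∧ sd (-2) = 0 := by
    unfold sd
    refine ⟨?_, ?_, ?_⟩ <;> simp
  obtain ⟨E, hE⟩ : ∃ E : ℤ → ℝ, E = fun k => if k = 2 then e2 else if k = -1 then em1 else em2 := ⟨_, rfl⟩
  obtain ⟨W, hW⟩ : ∃ W : ℤ → ℝ, W = fun k => if k = 2 then r * w2 else if k = -1 then r * wm1 else r * wm2 := ⟨_, rfl⟩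
  have hE2 : E 2 = e2 := by rw [hE]; simp
  have hEm1 : E (-1) = em1 := by rw [hE]; simp
  have hEm2 : E (-2) = em2 := by rw [hE]; simp
  have hW2 : W 2 = r * w2 := by rw [hW]; simp
  have hWm1 : W (-1) = r * wm1 := by rw [hW]; simp
  have hWm2 : W (-2) = r * wm2 := by rw [hW]; simp
  have e5 : (2 * Real.pi * p / (5 : ℕ) + β : ℝ) = 2 * Real.pi * p / 5 + β := by push_cast; ring
  rw [← e5]
  have S1 : ∑ k ∈ far (-2) 5, (k.natAbs : ℝ) * (a ^ pv k * E k) * a ^ (k.natAbs + 1) =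
      2 * (a ^ 2 * em2) * a ^ 3 + (a * em1) * a ^ 2 + 2 * (a * e2) * a ^ 3 := by
    rw [far5, hpv.1, hpv.2.1, hpv.2.2, hE2, hEm1, hEm2]
    norm_num
  have S2 : ∑ k ∈ far (-2) 5, (a ^ pv k * W k) * a ^ k.natAbs =
      r * ((a ^ 2 * wm2) * a ^ 2 + (a * wm1) * a + (a * w2) * a ^ 2) := by
    rw [far5, hpv.1, hpv.2.1, hpv.2.2, hW2, hWm1, hWm2]
    norm_num
    ring
  refine circ_LW (b := 5) (by norm_num) (by exact_mod_cast hp) (h := h) (κ := κ) hr0 (by rw [hh]; norm_num)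
    (a0 := -2) (by norm_num) (by norm_num) (s0 := 0.05) (slo := slo) (shi := shi) (a := a) (m := r * m) (η := η)
    (E := E) (W := W) huv ha (mul_pos hr0 hm) hη ?_ ?_ ?_ ?_ ?_ ?_ ?_ ?_ ?_
  · intro t a1 a2
    exact (hwin t a1 a2).1
  · intro t a1 a2 k hk
    obtain ⟨-, ⟨b1, b2, b3⟩, -, -⟩ := hwin t a1 a2
    rcases far5_mem hk with rfl | rfl | rfl
    · rw [hEm2, hsd.2.2]; exact b3
    · rw [hEm1, hsd.2.1]; exact b2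
    · rw [hE2, hsd.1]; exact b1
  · intro t a1 a2 k hk
    obtain ⟨-, -, ⟨b1, b2, b3⟩, -⟩ := hwin t a1 a2
    rcases far5_mem hk with rfl | rfl | rfl
    · rw [hWm2, hsd.2.2]
      have e : ((((-2 : ℤ) : ℂ) - 1) * Ld β r h t 0 - ((-2 : ℤ) : ℂ) * Ld β r h t 1) =
          (-3 : ℂ) * Ld β r h t 0 + (2 : ℂ) * Ld β r h t 1 := by push_cast; ring
      rw [e]; exact b3
    · rw [hWm1, hsd.2.1]
      have e : ((((-1 : ℤ) : ℂ) - 1) * Ld β r h t 0 - ((-1 : ℤ) : ℂ) * Ld β r h t 1) =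
          (-2 : ℂ) * Ld β r h t 0 + (1 : ℂ) * Ld β r h t 1 := by push_cast; ring
      rw [e]; exact b2
    · rw [hW2, hsd.1]
      have e : ((((2 : ℤ) : ℂ) - 1) * Ld β r h t 0 - ((2 : ℤ) : ℂ) * Ld β r h t 1) =
          (1 : ℂ) * Ld β r h t 0 + (-2 : ℂ) * Ld β r h t 1 := by push_cast; ring
      rw [e]; exact b1
  · intro t a1 a2
    exact (hwin t a1 a2).2.2.2
  · rw [far5, hE2, hEm1, hEm2]; exact hsum
  · intro t a1 a2 a3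
    rw [far5]
    have e1 : (0.05 + 1 : ℝ) = 1.05 := by norm_num
    rw [e1] at a2
    exact hout t a1 a2 a3
  · intro k
    rw [hE]
    dsimp only
    split_ifs
    · exact h2
    · exact hm1
    · exact hm2
  · rw [S1]; exact small1
  · rw [S1, S2]
    have := mul_lt_mul_of_pos_left small2 hr0
    linarith

/-- the bound with the derivative -/
theorem v5_W {r X X' Y L d e l w : ℝ} (hr : 0 < r) (hX' : X' ≤ d * Y) (hX : X ≤ e * Y) (hL : L ≤ r * l)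
    (hL0 : 0 ≤ L) (hX0 : 0 ≤ X) (hY : 0 ≤ Y) (hw : d + e * l ≤ w) : r * X' + X * L ≤ r * w * Y := by
  have hl : 0 ≤ l := by
    have h1 : 0 ≤ r * l := hL0.trans hL
    exact nonneg_of_mul_nonneg_right h1 hr
  have h1 : X * L ≤ (e * Y) * (r * l) := mul_le_mul hX hL hL0 (hX0.trans hX)
  have h2 := mul_le_mul_of_nonneg_left hX' hr.le
  have h3 := mul_le_mul_of_nonneg_right hw (mul_nonneg hr.le hY)
  nlinarith

/-- outside: the copy `1` dominates -/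
theorem v5_out1 {A B C X1 X0 : ℝ} (eA eB eC e0 : ℝ) (hA : A ≤ eA * X1) (hB : B ≤ eB * X1) (hC : C ≤ eC * X1)
    (h0 : X0 ≤ e0 * X1) (hX : 0 < X1) (hs : eA + eB + eC + e0 < 1) : A + B + C < |X1 - X0| := by
  have h1 : X1 - X0 ≤ |X1 - X0| := le_abs_self _
  nlinarith

/-- outside: the copy `0` dominates -/
theorem v5_out0 {A B C X1 X0 : ℝ} (eA eB eC e1 : ℝ) (hA : A ≤ eA * X0) (hB : B ≤ eB * X0) (hC : C ≤ eC * X0)
    (h1 : X1 ≤ e1 * X0) (hX : 0 < X0) (hs : eA + eB + eC + e1 < 1) : A + B + C < |X1 - X0| := by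
  have h1' : -(X1 - X0) ≤ |X1 - X0| := neg_le_abs _
  nlinarith

end Sok
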