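import Pool.Agent.Lib.MP_816dec_an.R1V8

/-!
MP_816dec_an (A3, row R1), SINGLE CASE `b = 5`, `r ≥ 10`: tools for the generated files.
-/

set_option autoImplicit false

open Complex Set Filter Topology Metric

namespace Sok

theorem v5_h {h : ℝ} (hh : h = 2 * Real.pi / 5) : 1.25663 ≤ h ∧ h ≤ 1.25664 := by
  have h1 := Real.pi_gt_d6
  have h2 := Real.pi_lt_d6
  rw [hh]
  constructor <;> norm_num <;> linarith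

theorem v5_dom {κ t : ℝ} (h0 : 0 < κ) (h1 : t ≤ 1.5707) (h2 : 0.3679 ≤ κ ∨ -1.5707 ≤ t) : DomR κ t := by
  have hpi := Real.pi_gt_d6
  refine ⟨h0, ?_, ?_⟩
  · norm_num at h1 ⊢; linarith
  · rcases h2 with h2 | h2
    · left
      have := Real.exp_neg_one_lt_d9
      norm_num at h2 this ⊢; linarith
    · right
      norm_num at h2 ⊢; linarith

theorem v5_hN {β r κ : ℝ} (k2 N0 : ℝ) (hβ : 0 < β) (hr : 10 ≤ r) (hκ : κ = β * r) (hk2 : κ ≤ k2) (hN0 : 0 ≤ N0)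
    (hN : N0 * k2 ≤ 10) : β * N0 ≤ 1 := by
  have hκ0 : 0 < κ := by rw [hκ]; exact mul_pos hβ (by linarith)
  have hk2p : 0 < k2 := hκ0.trans_le hk2
  have h3 : β * 10 ≤ k2 := by
    calc β * 10 ≤ β * r := mul_le_mul_of_nonneg_left hr hβ.le
      _ = κ := hκ.symm
      _ ≤ k2 := hk2
  have h4 : β * N0 * k2 ≤ 1 * k2 := by
    calc β * N0 * k2 = β * (N0 * k2) := by ring
      _ ≤ β * 10 := mul_le_mul_of_nonneg_left hN hβ.le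
      _ ≤ 1 * k2 := by linarith
  exact le_of_mul_le_mul_right h4 hk2p

theorem v5_n {κ t : ℝ} (h : DomR κ t) (k2 ya E n : ℝ) (hk2 : κ ≤ k2) (hya : ya ≤ sy κ t) (hE : Real.exp (-ya) ≤ E)
    (hn : k2 * E ≤ n) : κ * Real.exp (-sy κ t) ≤ n := by
  refine le_trans ?_ hn
  have h3 : Real.exp (-sy κ t) ≤ E := (Real.exp_le_exp.2 (by linarith)).trans hE
  exact mul_le_mul hk2 h3 (Real.exp_pos _).le (h.1.le.trans hk2)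

theorem norm_box5 {x y : ℝ} (X Y n : ℝ) (hx1 : -X ≤ x) (hx2 : x ≤ X) (hy1 : -Y ≤ y) (hy2 : y ≤ Y) (hn0 : 0 ≤ n)
    (hn : X ^ 2 + Y ^ 2 ≤ n ^ 2) : ‖(x + y * I : ℂ)‖ ≤ n := by
  rw [Complex.norm_def]
  have e : Complex.normSq (x + y * I : ℂ) = x ^ 2 + y ^ 2 := by
    rw [Complex.normSq_apply]
    simp
    ring
  rw [e, Real.sqrt_le_left hn0]
  have h1 : x ^ 2 ≤ X ^ 2 := by
    rw [← sq_abs]; exact pow_le_pow_left₀ (abs_nonneg _) (abs_le.2 ⟨hx1, hx2⟩) 2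
  have h2 : y ^ 2 ≤ Y ^ 2 := by
    rw [← sq_abs]; exact pow_le_pow_left₀ (abs_nonneg _) (abs_le.2 ⟨hy1, hy2⟩) 2
  linarith

theorem v5_M {z M : ℝ} (M1 : ℝ) (h : M1 ≤ Real.exp z) (h0 : 0 ≤ M1) (hM : M ≤ M1 ^ 2) : M ≤ Real.exp z ^ 2 :=
  hM.trans (pow_le_pow_left₀ h0 h 2)

/-- comparison of a cell with a near copy -/
theorem v5_cmp {r X Y V g p τ c K E ℓ : ℝ} (δ1 q1 ea δ2 q2 eb e : ℝ) (hr : 10 ≤ r)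
    (hX : X ≤ c * Real.exp (r * (g - p * τ)) + K * Real.exp (r * E)) (hY : ℓ * Real.exp (r * V) ≤ Y) (hl : 0 < ℓ)
    (hc : 0 ≤ c) (hK : 0 ≤ K) (hδ1 : 0 ≤ δ1) (h1 : g - p * τ ≤ V - δ1) (hq1 : Real.exp (-(10 * δ1)) ≤ q1)
    (ha : c * q1 ≤ ea * ℓ) (hδ2 : 0 ≤ δ2) (h2 : E ≤ V - δ2) (hq2 : Real.exp (-(10 * δ2)) ≤ q2) (hb : K * q2 ≤ eb * ℓ)
    (he : ea + eb ≤ e) : X ≤ e * Y := by
  have t1 := v5_term q1 δ1 hr hc hY hδ1 h1 hq1 hl ha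
  have t2 := v5_term q2 δ2 hr hK hY hδ2 h2 hq2 hl hb
  have hY0 : 0 ≤ Y := le_trans (by positivity) hY
  have h3 := mul_le_mul_of_nonneg_right he hY0
  linarith

/-- the same for the copy at `t + β` -/
theorem v5_cmpS {β κ r X Y V g p τ c K E ℓ : ℝ} (qs δ1 q1 da δ2 q2 eb d : ℝ) (hr : 10 ≤ r) (hκ : κ = β * r)
    (hX : X ≤ c * Real.exp (r * (g - p * (τ + β))) + K * Real.exp (r * E)) (hY : ℓ * Real.exp (r * V) ≤ Y) (hl : 0 < ℓ)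
    (hc : 0 ≤ c) (hK : 0 ≤ K) (hqs : Real.exp (-(κ * p)) ≤ qs)
    (hδ1 : 0 ≤ δ1) (h1 : g - p * τ ≤ V - δ1) (hq1 : Real.exp (-(10 * δ1)) ≤ q1)
    (ha : c * qs * q1 ≤ da * ℓ) (hδ2 : 0 ≤ δ2) (h2 : E ≤ V - δ2) (hq2 : Real.exp (-(10 * δ2)) ≤ q2)
    (hb : K * q2 ≤ eb * ℓ) (he : da + eb ≤ d) : X ≤ d * Y := by
  have hqs0 : 0 ≤ qs := (Real.exp_pos _).le.trans hqs
  have t1 := v5_term q1 δ1 hr (mul_nonneg hc hqs0) hY hδ1 h1 hq1 hl ha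
  have t2 := v5_term q2 δ2 hr hK hY hδ2 h2 hq2 hl hb
  have t3 := v5_shift (g := g) (τ := τ) qs hκ hc hqs
  have hY0 : 0 ≤ Y := le_trans (by positivity) hY
  have h3 := mul_le_mul_of_nonneg_right he hY0
  linarith

/-- comparison of a cell without main term -/
theorem v5_cmp0 {r X Y V K E ℓ : ℝ} (δ2 q2 eb : ℝ) (hr : 10 ≤ r)
    (hX : X ≤ K * Real.exp (r * E)) (hY : ℓ * Real.exp (r * V) ≤ Y) (hl : 0 < ℓ)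
    (hK : 0 ≤ K) (hδ2 : 0 ≤ δ2) (h2 : E ≤ V - δ2) (hq2 : Real.exp (-(10 * δ2)) ≤ q2) (hb : K * q2 ≤ eb * ℓ) :
    X ≤ eb * Y :=
  hX.trans (v5_term q2 δ2 hr hK hY hδ2 h2 hq2 hl hb)

/-- comparison of two near copies -/
theorem v5_cmpJ {r X Y V W g p τ u ℓ : ℝ} (δ1 q1 e : ℝ) (hr : 10 ≤ r)
    (hX : X ≤ u * Real.exp (r * W)) (hW : W ≤ g - p * τ) (hY : ℓ * Real.exp (r * V) ≤ Y) (hl : 0 < ℓ)
    (hu : 0 ≤ u) (hδ1 : 0 ≤ δ1) (h1 : g - p * τ ≤ V - δ1) (hq1 : Real.exp (-(10 * δ1)) ≤ q1)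
    (ha : u * q1 ≤ e * ℓ) : X ≤ e * Y :=
  hX.trans (v5_term q1 δ1 hr hu hY hδ1 (hW.trans h1) hq1 hl ha)

theorem v5_emax {X Y e : ℝ} (e' : ℝ) (h : X ≤ e * Y) (hY : 0 ≤ Y) (he : e ≤ e') : X ≤ e' * Y :=
  h.trans (mul_le_mul_of_nonneg_right he hY)

/-- linear lower bound for the copy `0` -/
theorem v5_V0 {κ t : ℝ} (h : DomR κ t) (k1 k2 ta tb Tm C a1 a2 a3 a4 α μ : ℝ) (hk0 : 0 ≤ k1) (hk1 : k1 ≤ κ) (hk2 : κ ≤ k2)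
    (hk3 : k2 ^ 2 ≤ 3) (hta : ta ≤ t + κ) (htb : t + κ ≤ tb) (hab : ta < tb) (hT : -Tm ≤ ta) (hTm : Tm ≤ 1.25)
    (hcu : κ * (1 / 2 - κ ^ 2 / 6) ≤ a1 * (1 + k1 ^ 2) ^ 2) (ha2 : k2 ^ 4 ≤ a2 * (1 + k1 ^ 2) ^ 3)
    (ha3 : 1 ≤ a3 * (1 + k1 ^ 2) ^ 3) (ha4 : k2 ≤ a4 * (1 + k1 ^ 2)) (h10 : 0 ≤ a1)
    (h20 : 0 ≤ a2) (h30 : 0 ≤ a3) (h40 : 0 ≤ a4) (hTm0 : 0 ≤ Tm) (hTm1 : Tm ≤ 1)
    (hC : 1 / 2 + a1 * Tm + a2 * Tm ^ 2 / 12 + (1 + a4 * Tm) * (a3 * Tm ^ 2 / 12 + a3 * Tm ^ 4 / 24) ≤ C)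
    (hC0 : 0 ≤ C) (ha : α + μ * ta ≤ 1 - C * ta ^ 2 / (1 + k1 ^ 2)) (hb : α + μ * tb ≤ 1 - C * tb ^ 2 / (1 + k1 ^ 2)) :
    α + μ * (t + κ) ≤ sE κ t := by
  have h1 := v5_V0q h k1 k2 Tm C a1 a2 a3 a4 hk0 hk1 hk2 hk3 (by linarith) hTm1 hcu ha2 ha3 ha4 h10 h20 h30 h40 hTm0 hC
  exact v5_lin ta tb α μ (by positivity) hC0 h1 hta htb hab ha hb

end Sok
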