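import Pool.Agent.Lib.MP_816dec_an.R1Exp2
import Pool.Agent.Lib.MP_816dec_an.Far3

/-!
MP_816dec_an (A3, row R1), SINGLE CASES, no discs: multiplicative normal forms.

`N = eN R κ = e^R / (1+κ²)^(1/4)`, `T = R h² / (1+κ²)`, `σ = (t'+κ)/h`.
Near copies: `N (l e^(-T c σ²)) ≤ |X_k| ≤ N (U e^(-T c σ²))`.
Far copies: `|X_k| ≤ N (U e^(-T c σ²)) + √R G e^(R E)`.
-/

set_option autoImplicit false

open Complex Set Filter Topology Metric

namespace Sok

private theorem q4 {x : ℝ} (hx : 0 ≤ x) : Real.sqrt (Real.sqrt x) ^ 4 = x := by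
  rw [show Real.sqrt (Real.sqrt x) ^ 4 = (Real.sqrt (Real.sqrt x) ^ 2) ^ 2 by ring,
    Real.sq_sqrt (Real.sqrt_nonneg _), Real.sq_sqrt hx]

private theorem le_of_pow4 {a b : ℝ} (hb : 0 ≤ b) (h : a ^ 4 ≤ b ^ 4) : a ≤ b := by
  by_contra hlt
  exact absurd h (not_le.2 (pow_lt_pow_left₀ (not_le.1 hlt) hb (by norm_num)))

/-- upper bound of a near copy -/
theorem X_up {β R h t κ : ℝ} (hβ : 0 < β) (hR : 0 ≤ R) (hκ : κ = β * R) {k : ℤ} {t' : ℝ}
    (ht : t' = t + (k - 1) * h) (hD : DomR κ t') {ε c d U σ T : ℝ} (hε : 0 ≤ ε)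
    (hJ : ‖HH β (sg κ t') - 1‖ ≤ ε)
    (hc : sE κ t' ≤ 1 - c * (t' + κ) ^ 2 / (1 + κ ^ 2)) (hd0 : 0 < d)
    (hd : d * (1 + κ ^ 2) ≤ sD κ t') (hU0 : 0 ≤ U) (hU : (1 + ε) ^ 4 ≤ d * U ^ 4)
    (hσ : t' + κ = σ * h) (hT : T = R * h ^ 2 / (1 + κ ^ 2)) :
    ‖Xf β R h t k‖ ≤ eN R κ * (U * Real.exp (-(T * (c * σ ^ 2)))) := by
  subst hκ
  rw [norm_Xf_eq hβ ht hD]
  have hA : 0 < 1 + (β * R) ^ 2 := by positivity
  have hH : ‖HH β (sg (β * R) t')‖ ≤ 1 + ε := by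
    have h1 := norm_add_le (HH β (sg (β * R) t') - 1) 1
    rw [sub_add_cancel, norm_one] at h1
    linarith
  have hs := sD_pos hD
  have hS : 0 < Real.sqrt (Real.sqrt (sD (β * R) t')) := Real.sqrt_pos.2 (Real.sqrt_pos.2 hs)
  have hS1 : 0 < Real.sqrt (Real.sqrt (1 + (β * R) ^ 2)) := Real.sqrt_pos.2 (Real.sqrt_pos.2 hA)
  have key : (1 + ε) * Real.sqrt (Real.sqrt (1 + (β * R) ^ 2)) ≤
      U * Real.sqrt (Real.sqrt (sD (β * R) t')) := by
    apply le_of_pow4 (by positivity)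
    rw [mul_pow (1 + ε), mul_pow U, q4 hA.le, q4 hs.le]
    have h4 := mul_le_mul_of_nonneg_right hU hA.le
    have h5 := mul_le_mul_of_nonneg_left hd (by positivity : 0 ≤ U ^ 4)
    linarith
  have hE : Real.exp (β * R / β * sE (β * R) t') ≤ Real.exp R * Real.exp (-(T * (c * σ ^ 2))) := by
    rw [← Real.exp_add]
    apply Real.exp_le_exp.2
    have e : β * R / β = R := by field_simp
    rw [e]
    have h5 := mul_le_mul_of_nonneg_left hc hR
    have e2 : R * (1 - c * (t' + β * R) ^ 2 / (1 + (β * R) ^ 2)) = R + -(T * (c * σ ^ 2)) := by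
      rw [hσ, hT]; ring
    linarith
  unfold sQ eN
  have h7 : ‖HH β (sg (β * R) t')‖ * (Real.exp (β * R / β * sE (β * R) t') /
      Real.sqrt (Real.sqrt (sD (β * R) t'))) ≤ (1 + ε) * (Real.exp R *
        Real.exp (-(T * (c * σ ^ 2))) / Real.sqrt (Real.sqrt (sD (β * R) t'))) := by
    apply mul_le_mul hH _ (by positivity) (by linarith)
    exact div_le_div_of_nonneg_right hE hS.le
  refine h7.trans ?_
  have e3 : (1 + ε) * (Real.exp R * Real.exp (-(T * (c * σ ^ 2))) / Real.sqrt (Real.sqrt (sD (β * R) t'))) =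
      ((1 + ε) / Real.sqrt (Real.sqrt (sD (β * R) t'))) * (Real.exp R * Real.exp (-(T * (c * σ ^ 2)))) := by ring
  have e4 : Real.exp R / Real.sqrt (Real.sqrt (1 + (β * R) ^ 2)) * (U * Real.exp (-(T * (c * σ ^ 2)))) =
      (U / Real.sqrt (Real.sqrt (1 + (β * R) ^ 2))) * (Real.exp R * Real.exp (-(T * (c * σ ^ 2)))) := by ring
  rw [e3, e4]
  apply mul_le_mul_of_nonneg_right _ (by positivity)
  rw [div_le_div_iff₀ hS hS1]
  exact key

/-- lower bound of a near copy -/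
theorem X_lo {β R h t κ : ℝ} (hβ : 0 < β) (hR : 0 ≤ R) (hκ : κ = β * R) {k : ℤ} {t' : ℝ}
    (ht : t' = t + (k - 1) * h) (hD : DomR κ t') {ε c d l σ T : ℝ} (hε : ε ≤ 1)
    (hJ : ‖HH β (sg κ t') - 1‖ ≤ ε)
    (hc : 1 - c * (t' + κ) ^ 2 / (1 + κ ^ 2) ≤ sE κ t')
    (hd : sD κ t' ≤ d * (1 + κ ^ 2)) (hl0 : 0 ≤ l) (hl : l ^ 4 * d ≤ (1 - ε) ^ 4)
    (hσ : t' + κ = σ * h) (hT : T = R * h ^ 2 / (1 + κ ^ 2)) :
    eN R κ * (l * Real.exp (-(T * (c * σ ^ 2)))) ≤ ‖Xf β R h t k‖ := by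
  subst hκ
  rw [norm_Xf_eq hβ ht hD]
  have hA : 0 < 1 + (β * R) ^ 2 := by positivity
  have hH : 1 - ε ≤ ‖HH β (sg (β * R) t')‖ := by
    have h1 := norm_sub_norm_le 1 (1 - HH β (sg (β * R) t'))
    rw [norm_one, norm_sub_rev 1] at h1
    have h2 : (1 : ℂ) - (1 - HH β (sg (β * R) t')) = HH β (sg (β * R) t') := by ring
    rw [h2] at h1
    linarith
  have hs := sD_pos hD
  have hS : 0 < Real.sqrt (Real.sqrt (sD (β * R) t')) := Real.sqrt_pos.2 (Real.sqrt_pos.2 hs)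
  have hS1 : 0 < Real.sqrt (Real.sqrt (1 + (β * R) ^ 2)) := Real.sqrt_pos.2 (Real.sqrt_pos.2 hA)
  have h1ε : 0 ≤ 1 - ε := by linarith
  have key : l * Real.sqrt (Real.sqrt (sD (β * R) t')) ≤
      (1 - ε) * Real.sqrt (Real.sqrt (1 + (β * R) ^ 2)) := by
    apply le_of_pow4 (by positivity)
    rw [mul_pow l, mul_pow (1 - ε), q4 hA.le, q4 hs.le]
    have h4 := mul_le_mul_of_nonneg_right hl hA.le
    have h5 := mul_le_mul_of_nonneg_left hd (by positivity : 0 ≤ l ^ 4)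
    linarith
  have hE : Real.exp R * Real.exp (-(T * (c * σ ^ 2))) ≤ Real.exp (β * R / β * sE (β * R) t') := by
    rw [← Real.exp_add]
    apply Real.exp_le_exp.2
    have e : β * R / β = R := by field_simp
    rw [e]
    have h5 := mul_le_mul_of_nonneg_left hc hR
    have e2 : R * (1 - c * (t' + β * R) ^ 2 / (1 + (β * R) ^ 2)) = R + -(T * (c * σ ^ 2)) := by
      rw [hσ, hT]; ring
    linarith
  unfold sQ eN
  have h7 : (1 - ε) * (Real.exp R * Real.exp (-(T * (c * σ ^ 2))) /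
        Real.sqrt (Real.sqrt (sD (β * R) t'))) ≤
      ‖HH β (sg (β * R) t')‖ * (Real.exp (β * R / β * sE (β * R) t') /
      Real.sqrt (Real.sqrt (sD (β * R) t'))) := by
    apply mul_le_mul hH _ (by positivity) (norm_nonneg _)
    exact div_le_div_of_nonneg_right hE hS.le
  refine le_trans ?_ h7
  have e3 : (1 - ε) * (Real.exp R * Real.exp (-(T * (c * σ ^ 2))) / Real.sqrt (Real.sqrt (sD (β * R) t'))) =
      ((1 - ε) / Real.sqrt (Real.sqrt (sD (β * R) t'))) * (Real.exp R * Real.exp (-(T * (c * σ ^ 2)))) := by ring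
  have e4 : Real.exp R / Real.sqrt (Real.sqrt (1 + (β * R) ^ 2)) * (l * Real.exp (-(T * (c * σ ^ 2)))) =
      (l / Real.sqrt (Real.sqrt (1 + (β * R) ^ 2))) * (Real.exp R * Real.exp (-(T * (c * σ ^ 2)))) := by ring
  rw [e3, e4]
  apply mul_le_mul_of_nonneg_right _ (by positivity)
  rw [div_le_div_iff₀ hS1 hS]
  exact key

/-- comparison of two normal forms -/
theorem cmpT {N X Y T T0 U l f g q E0 e : ℝ} (hN : 0 < N) (hX : X ≤ N * (U * Real.exp (-(T * f))))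
    (hY : N * (l * Real.exp (-(T * g))) ≤ Y) (hT : T0 ≤ T) (hT0 : 0 ≤ T0) (hq : q ≤ f - g) (hq0 : 0 ≤ q)
    (hE : Real.exp (-(T0 * q)) ≤ E0) (hU0 : 0 ≤ U) (hl : 0 < l) (he : U * E0 ≤ e * l) : X ≤ e * Y := by
  have hg : 0 < Real.exp (-(T * g)) := Real.exp_pos _
  have h1 : Real.exp (-(T * f)) ≤ Real.exp (-(T * g)) * E0 := by
    have h2 : Real.exp (-(T * f)) ≤ Real.exp (-(T * g)) * Real.exp (-(T0 * q)) := by
      rw [← Real.exp_add]
      apply Real.exp_le_exp.2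
      have h3 : T0 * q ≤ T * (f - g) := mul_le_mul hT hq hq0 (hT0.trans hT)
      linarith
    exact h2.trans (mul_le_mul_of_nonneg_left hE hg.le)
  have hE0 : 0 < E0 := lt_of_lt_of_le (Real.exp_pos _) hE
  have he0 : 0 ≤ e := by
    have : 0 ≤ e * l := le_trans (by positivity) he
    exact nonneg_of_mul_nonneg_left this hl
  calc X ≤ N * (U * Real.exp (-(T * f))) := hX
    _ ≤ N * (U * (Real.exp (-(T * g)) * E0)) := by gcongr
    _ = N * Real.exp (-(T * g)) * (U * E0) := by ring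
    _ ≤ N * Real.exp (-(T * g)) * (e * l) := mul_le_mul_of_nonneg_left he (by positivity)
    _ = e * (N * (l * Real.exp (-(T * g)))) := by ring
    _ ≤ e * Y := mul_le_mul_of_nonneg_left hY he0

/-- lower bound as a pure exponential -/
theorem Y_exp {κ R h T Y l g ω L k1 : ℝ} (hT : T = R * h ^ 2 / (1 + κ ^ 2)) (hR : 0 ≤ R) (hk0 : 0 ≤ k1) (hk : k1 ≤ κ)
    (hY : eN R κ * (l * Real.exp (-(T * g))) ≤ Y) (hl : 0 ≤ l) (hL0 : 0 ≤ L) (hL : L ^ 4 * (1 + κ ^ 2) ≤ l ^ 4)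
    (hω : ω + h ^ 2 * g / (1 + k1 ^ 2) ≤ 1) (hg : 0 ≤ g) : L * Real.exp (R * ω) ≤ Y := by
  have hA : 0 < 1 + κ ^ 2 := by positivity
  have hA1 : 0 < 1 + k1 ^ 2 := by positivity
  have hS1 : 0 < Real.sqrt (Real.sqrt (1 + κ ^ 2)) := Real.sqrt_pos.2 (Real.sqrt_pos.2 hA)
  refine le_trans ?_ hY
  have key : L * Real.sqrt (Real.sqrt (1 + κ ^ 2)) ≤ l := by
    apply le_of_pow4 hl
    rw [mul_pow, q4 hA.le]
    exact hL
  have h1 : Real.exp (R * ω) ≤ Real.exp R * Real.exp (-(T * g)) := by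
    rw [← Real.exp_add]
    apply Real.exp_le_exp.2
    have h2 : h ^ 2 * g / (1 + κ ^ 2) ≤ h ^ 2 * g / (1 + k1 ^ 2) := by
      apply div_le_div_of_nonneg_left (by positivity) hA1
      nlinarith
    have h3 : T * g = R * (h ^ 2 * g / (1 + κ ^ 2)) := by rw [hT]; ring
    have h4 := mul_le_mul_of_nonneg_left (le_trans (by linarith : ω + h ^ 2 * g / (1 + κ ^ 2) ≤ _) hω) hR
    rw [h3]
    linarith
  unfold eN
  have e1 : Real.exp R / Real.sqrt (Real.sqrt (1 + κ ^ 2)) * (l * Real.exp (-(T * g))) =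
      (l / Real.sqrt (Real.sqrt (1 + κ ^ 2))) * (Real.exp R * Real.exp (-(T * g))) := by ring
  rw [e1]
  apply mul_le_mul _ h1 (Real.exp_pos _).le (by positivity)
  rw [le_div_iff₀ hS1]
  exact key

/-- comparison of the remaining terms -/
theorem cmpR {R R0 G E ω Y L ρ0 E0 e : ℝ} (hR : R0 ≤ R) (hR0 : 0 < R0) (hG : 0 ≤ G)
    (hY : L * Real.exp (R * ω) ≤ Y) (hL : 0 < L) (hδ : 1 ≤ 2 * R0 * (ω - E)) (hρ : R0 ≤ ρ0 ^ 2) (hρ0 : 0 ≤ ρ0)
    (hE : Real.exp (-(R0 * (ω - E))) ≤ E0) (he : G * (ρ0 * E0) ≤ e * L) :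
    Real.sqrt R * (G * Real.exp (R * E)) ≤ e * Y := by
  have hRp : 0 < R := hR0.trans_le hR
  have hE0 : 0 < E0 := lt_of_lt_of_le (Real.exp_pos _) hE
  have he0 : 0 ≤ e := by
    have : 0 ≤ e * L := le_trans (by positivity) he
    exact nonneg_of_mul_nonneg_left this hL
  -- √R ≤ ρ0 exp ((R-R0)/(2R0))
  have h1 : Real.sqrt R ≤ ρ0 * Real.exp ((R - R0) / (2 * R0)) := by
    have h2 : Real.sqrt R ≤ Real.sqrt R0 * Real.exp ((R - R0) / (2 * R0)) := by
      rw [Real.sqrt_le_left (by positivity), mul_pow, Real.sq_sqrt hR0.le, ← Real.exp_nat_mul]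
      have h3 := Real.add_one_le_exp ((R - R0) / R0)
      have e1 : ((2 : ℕ) : ℝ) * ((R - R0) / (2 * R0)) = (R - R0) / R0 := by push_cast; field_simp
      rw [e1]
      have h4 := mul_le_mul_of_nonneg_left h3 hR0.le
      have e2 : R0 * ((R - R0) / R0 + 1) = R := by field_simp; ring
      linarith
    refine h2.trans (mul_le_mul_of_nonneg_right ?_ (Real.exp_pos _).le)
    rw [Real.sqrt_le_left hρ0]
    exact hρ
  have h5 : Real.exp ((R - R0) / (2 * R0)) * Real.exp (R * E) ≤ Real.exp (R * ω) * E0 := by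
    refine le_trans ?_ (mul_le_mul_of_nonneg_left hE (Real.exp_pos _).le)
    rw [← Real.exp_add, ← Real.exp_add]
    apply Real.exp_le_exp.2
    have h6 : (R - R0) / (2 * R0) ≤ (R - R0) * (ω - E) := by
      rw [div_le_iff₀ (by positivity)]
      nlinarith [mul_nonneg (sub_nonneg.2 hR) (sub_nonneg.2 hδ)]
    linarith
  calc Real.sqrt R * (G * Real.exp (R * E)) ≤ (ρ0 * Real.exp ((R - R0) / (2 * R0))) * (G * Real.exp (R * E)) :=
        mul_le_mul_of_nonneg_right h1 (by positivity)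
    _ = G * ρ0 * (Real.exp ((R - R0) / (2 * R0)) * Real.exp (R * E)) := by ring
    _ ≤ G * ρ0 * (Real.exp (R * ω) * E0) := mul_le_mul_of_nonneg_left h5 (by positivity)
    _ = Real.exp (R * ω) * (G * (ρ0 * E0)) := by ring
    _ ≤ Real.exp (R * ω) * (e * L) := mul_le_mul_of_nonneg_left he (Real.exp_pos _).le
    _ = e * (L * Real.exp (R * ω)) := by ring
    _ ≤ e * Y := mul_le_mul_of_nonneg_left hY he0

end Sok
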