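import Pool.Agent.Lib.MP_816dec_an.R1L
import Pool.Agent.Lib.MP_816dec_an.R1Exp
import Pool.Agent.Lib.MP_816dec_an.R1Ineq6
import Pool.Agent.Lib.MP_816dec_an.R1Small

/-!
MP_816dec_an (A3, row R1), SINGLE CASE `b = 3`, `r ≥ 10`, `κ = β r ≤ 0.3`.
-/

set_option autoImplicit false

open Complex Set Filter Topology Metric

namespace Sok
namespace T3

theorem norm_sg3 {κ t : ℝ} (h : DomR κ t) : ‖sg κ t‖ = κ * Real.exp (-sy κ t) := by
  rw [← s_norm h]
  unfold sg
  rw [Complex.norm_def, Complex.normSq_apply]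
  congr 1
  simp
  ring

/-- the logarithmic derivative of a near copy -/
theorem Ld3 {β r h t κ : ℝ} (δ ε : ℝ) {k : ℤ} {t' : ℝ} (hβ : 0 < β) (hκ : κ = β * r) (ht : t' = t + (k - 1) * h)
    (hD : DomR κ t') (hδ : 0 < δ) (hε : ε < 1) (him : δ < 1 + sy κ t')
    (hJ : ∀ s : ℂ, ‖s - sg κ t'‖ ≤ δ → ‖HH β s - 1‖ ≤ ε) :
    Xf β r h t k ≠ 0 ∧ ‖Ld β r h t k - (sg κ t' / β + I / 2 * sg κ t' / (1 - I * sg κ t') ^ 2)‖ ≤
      ‖sg κ t' / (1 - I * sg κ t')‖ * (ε / (δ * (1 - ε))) := by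
  have hne : sg κ t' ≠ 0 := by
    rw [← norm_pos_iff, norm_sg3 hD]
    exact mul_pos hD.1 (Real.exp_pos _)
  have him' : ∀ s : ℂ, ‖s - sg κ t'‖ ≤ δ → -1 < s.im := by
    intro s hs
    have h1 := (abs_le.1 ((Complex.abs_im_le_norm _).trans hs)).1
    have h2 : (s - sg κ t').im = s.im - sy κ t' := by
      unfold sg
      simp
    rw [h2] at h1
    linarith
  obtain ⟨h1, h2⟩ := slope_of_disc hβ hδ hε hne him' hJ
  have hz : zs β (sg κ t') = (r : ℂ) * cexp (I * ((t' + β / 2 : ℝ) : ℂ)) := by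
    have h3 := s_point hD hβ.ne'
    have e : κ / β = r := by rw [hκ]; field_simp
    rw [e] at h3
    rw [mul_comm I, ← h3]
    rfl
  have hX : Xf β r h t k = F (cexp (I * β)) (zs β (sg κ t')) := by
    unfold Xf
    rw [hz, ht]
  have hX' : Xf β r h (t + β) k = F (cexp (I * β)) (cexp (I * β) * zs β (sg κ t')) := by
    unfold Xf
    congr 1
    rw [hz, mul_left_comm, ← Complex.exp_add, ht]
    congr 2
    push_cast
    ring
  refine ⟨by rw [hX]; exact h1, ?_⟩
  have hL : Ld β r h t k = zs β (sg κ t') * F (cexp (I * β)) (cexp (I * β) * zs β (sg κ t')) /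
      F (cexp (I * β)) (zs β (sg κ t')) := by
    unfold Ld
    rw [hX, hX', hz, ht]
  rw [hL]
  exact h2

/-- numerical form: `n` bounds `|σ|`, `u ≤ 1 + y`, `e` bounds the error -/
theorem Ld3n {β r h t κ : ℝ} (δ ε n u e : ℝ) {k : ℤ} {t' : ℝ} (hβ : 0 < β) (hκ : κ = β * r)
    (ht : t' = t + (k - 1) * h)
    (hD : DomR κ t') (hδ : 0 < δ) (hε : ε < 1) (him : δ < 1 + sy κ t')
    (hJ : ∀ s : ℂ, ‖s - sg κ t'‖ ≤ δ → ‖HH β s - 1‖ ≤ ε)
    (hn : κ * Real.exp (-sy κ t') ≤ n) (hu0 : 0 < u) (hu : u ≤ 1 + sy κ t')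
    (he : n / u * (ε / (δ * (1 - ε))) + n / (2 * u ^ 2) ≤ e) :
    Xf β r h t k ≠ 0 ∧ |(Ld β r h t k).im - sy κ t' / β| ≤ e ∧ ‖Ld β r h t k - sg κ t' / β‖ ≤ e := by
  obtain ⟨h1, h2⟩ := Ld3 δ ε hβ hκ ht hD hδ hε him hJ
  have hs0 : 0 ≤ ε := by
    have := hJ (sg κ t') (by rw [sub_self, norm_zero]; exact hδ.le)
    exact (norm_nonneg _).trans this
  have hn0 : 0 < n := (mul_pos hD.1 (Real.exp_pos _)).trans_le hn
  have hsg : ‖sg κ t'‖ ≤ n := by rw [norm_sg3 hD]; exact hn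
  have hN : u ≤ ‖1 - I * sg κ t'‖ := by
    refine hu.trans ?_
    have h3 := Complex.re_le_norm (1 - I * sg κ t')
    refine le_trans (le_of_eq ?_) h3
    unfold sg
    simp
  have hN0 : 0 < ‖1 - I * sg κ t'‖ := hu0.trans_le hN
  have h3 : ‖sg κ t' / (1 - I * sg κ t')‖ ≤ n / u := by
    rw [norm_div]
    exact div_le_div₀ hn0.le hsg hu0 hN
  have h4 : ‖I / 2 * sg κ t' / (1 - I * sg κ t') ^ 2‖ ≤ n / (2 * u ^ 2) := by
    rw [norm_div, norm_mul, norm_pow]
    have e1 : ‖(I / 2 : ℂ)‖ = 1 / 2 := by simp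
    rw [e1]
    rw [div_le_div_iff₀ (by positivity) (by positivity)]
    have h5 : u ^ 2 ≤ ‖1 - I * sg κ t'‖ ^ 2 := pow_le_pow_left₀ hu0.le hN 2
    calc 1 / 2 * ‖sg κ t'‖ * (2 * u ^ 2) = ‖sg κ t'‖ * u ^ 2 := by ring
      _ ≤ n * ‖1 - I * sg κ t'‖ ^ 2 := mul_le_mul hsg h5 (by positivity) hn0.le
  have h5 : 0 ≤ ε / (δ * (1 - ε)) := div_nonneg hs0 (mul_nonneg hδ.le (by linarith))
  have h6 : ‖Ld β r h t k - sg κ t' / β‖ ≤ e := by
    have e1 : Ld β r h t k - sg κ t' / β = (Ld β r h t k - (sg κ t' / β + I / 2 * sg κ t' / (1 - I * sg κ t') ^ 2)) +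
        I / 2 * sg κ t' / (1 - I * sg κ t') ^ 2 := by ring
    rw [e1]
    refine (norm_add_le _ _).trans ?_
    have h7 := mul_le_mul_of_nonneg_right h3 h5
    linarith
  refine ⟨h1, ?_, h6⟩
  have h7 := (Complex.abs_im_le_norm _).trans h6
  rw [Complex.sub_im] at h7
  have h8 : (sg κ t' / (β : ℂ)).im = sy κ t' / β := by
    rw [Complex.div_ofReal_im]
    unfold sg
    simp
  rw [h8] at h7
  exact h7

/-! ### the region `κ ≤ 0.3` -/

theorem dom3 {κ t : ℝ} (hk : 0 < κ) (h1 : -(Real.pi / 2) < t) (h2 : t < Real.pi / 2) : DomR κ t :=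
  ⟨hk, h2, Or.inr h1⟩

theorem sy_ge49 {κ t : ℝ} (hκ : κ ≤ 0.3) (h : DomR κ t) : -0.49 ≤ sy κ t := by
  have h1 := norm_saddle_small hκ h
  have h2 := Complex.abs_im_le_norm (((sx κ t : ℝ) : ℂ) + (sy κ t : ℝ) * I)
  have h3 : (((sx κ t : ℝ) : ℂ) + (sy κ t : ℝ) * I).im = sy κ t := by simp
  rw [h3] at h2
  exact (abs_le.1 (h2.trans h1)).1

theorem one_sub_lo {κ t : ℝ} (hκ : κ ≤ 0.3) (h : DomR κ t) : 0.51 ≤ ‖1 - I * sg κ t‖ ∧ ‖1 - I * sg κ t‖ ≤ 1.49 := by
  have h1 : ‖sg κ t‖ ≤ 0.49 := norm_saddle_small hκ h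
  have h2 : ‖I * sg κ t‖ ≤ 0.49 := by rw [norm_mul, Complex.norm_I, one_mul]; exact h1
  have h3 := norm_sub_norm_le (1 : ℂ) (I * sg κ t)
  have h4 := norm_sub_le (1 : ℂ) (I * sg κ t)
  rw [norm_one] at h3 h4
  constructor <;> linarith

theorem xf_bd {β r h t κ : ℝ} {k : ℤ} {t' : ℝ} (hβ : 0 < β) (hr : 10 ≤ r) (hκ : κ = β * r) (hκ3 : κ ≤ 0.3)
    (ht : t' = t + (k - 1) * h) (h1 : -(Real.pi / 2) < t') (h2 : t' < Real.pi / 2) :
    0.715 * Real.exp (r * sE κ t') ≤ ‖Xf β r h t k‖ ∧ ‖Xf β r h t k‖ ≤ 1.58 * Real.exp (r * sE κ t') := by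
  subst hκ
  have hr0 : 0 < r := by linarith
  have hk : 0 < β * r := by positivity
  have hD := dom3 hk h1 h2
  have hβ1 : β ≤ 0.03 := by
    have : β * 10 ≤ β * r := mul_le_mul_of_nonneg_left hr hβ.le
    linarith
  rw [norm_Xf_eq hβ ht hD]
  have hJ := HH_small hβ (by linarith : 9 ≤ r) hκ3 h1 h2
  have hJ1 : ‖HH β (sg (β * r) t') - 1‖ ≤ 0.1266 := by
    refine hJ.trans ?_
    linarith
  have hH1 : ‖HH β (sg (β * r) t')‖ ≤ 1.1266 := by
    have h1 := norm_add_le (HH β (sg (β * r) t') - 1) 1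
    rw [sub_add_cancel, norm_one] at h1
    linarith
  have hH2 : 0.8734 ≤ ‖HH β (sg (β * r) t')‖ := by
    have h1 := norm_sub_norm_le 1 (1 - HH β (sg (β * r) t'))
    rw [norm_one, norm_sub_rev 1] at h1
    have h2 : (1 : ℂ) - (1 - HH β (sg (β * r) t')) = HH β (sg (β * r) t') := by ring
    rw [h2] at h1
    linarith
  obtain ⟨n1, n2⟩ := one_sub_lo hκ3 hD
  rw [norm_one_sub_sg] at n1 n2
  have s1 : 0.7141 ≤ Real.sqrt (Real.sqrt (sD (β * r) t')) := by
    apply Real.le_sqrt_of_sq_le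
    linarith
  have s2 : Real.sqrt (Real.sqrt (sD (β * r) t')) ≤ 1.2207 := by
    rw [Real.sqrt_le_left (by norm_num)]
    linarith
  have hs : 0 < Real.sqrt (Real.sqrt (sD (β * r) t')) := by linarith
  have e : β * r / β * sE (β * r) t' = r * sE (β * r) t' := by field_simp
  unfold sQ
  rw [e]
  have hE := Real.exp_pos (r * sE (β * r) t')
  generalize Real.exp (r * sE (β * r) t') = E at hE ⊢
  generalize Real.sqrt (Real.sqrt (sD (β * r) t')) = S at s1 s2 hs ⊢
  generalize ‖HH β (sg (β * r) t')‖ = H at hH1 hH2 ⊢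
  rw [← mul_div_assoc, div_le_iff₀ hs, le_div_iff₀ hs]
  constructor
  · nlinarith
  · nlinarith

theorem xf_far {β r h t : ℝ} {k : ℤ} (n : ℤ) (hβ : 0 < β) (hr : 10 ≤ r) (hκ3 : β * r ≤ 0.3)
    (h1 : Real.pi / 2 ≤ t + (k - 1) * h + 2 * Real.pi * n) (h2 : t + (k - 1) * h + 2 * Real.pi * n ≤ 3 * Real.pi / 2) :
    ‖Xf β r h t k‖ ≤ 1.6 := by
  have e : Xf β r h t k = F (cexp (I * β)) (r * cexp (I * ((t + (k - 1) * h + 2 * Real.pi * n + β / 2 : ℝ) : ℂ))) := by
    unfold Xf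
    congr 2
    have e : I * ((t + (k - 1) * h + 2 * Real.pi * n + β / 2 : ℝ) : ℂ) =
        I * ((t + (k - 1) * h + β / 2 : ℝ) : ℂ) + n * (2 * Real.pi * I) := by
      push_cast
      ring
    rw [e, Complex.exp_add, Complex.exp_int_mul_two_pi_mul_I, mul_one]
  rw [e]
  have := far_small hβ (by linarith : 9 ≤ r) hκ3 h1 h2
  linarith

/-! ### the exponents -/

theorem cos_ge_of {x c X : ℝ} (hx : |x| ≤ X) (hX : X ≤ 3) (hc : c ≤ 1 - X ^ 2 / 2 + X ^ 4 / 24 - X ^ 6 / 720) :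
    c ≤ Real.cos x := by
  have hX0 : 0 ≤ X := (abs_nonneg x).trans hx
  refine hc.trans ((r1_cos_ge6 hX0).trans ?_)
  rw [← Real.cos_abs x]
  exact Real.cos_le_cos_of_nonneg_of_le_pi (abs_nonneg _) (by linarith [Real.pi_gt_three]) hx

/-- Fenchel lower bound with numbers -/
theorem sE_lo {κ t : ℝ} (h : DomR κ t) (n u0 c L : ℝ) (hn : 0 < n) (hu : |t + κ * n| ≤ u0) (hu0 : u0 ≤ 1.5)
    (hc0 : 0 < c) (hc : c ≤ 1 - u0 ^ 2 / 2 + u0 ^ 4 / 24 - u0 ^ 6 / 720) (hL : L ≤ n * (2 - n / c)) : L ≤ sE κ t := by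
  have h0 : 0 ≤ u0 := (abs_nonneg _).trans hu
  have h1 := fen_low h (t' := t) (n := n) (u := t + κ * n) hn (by linarith [Real.pi_gt_three]) (by ring)
  rw [sub_self, mul_zero, add_zero] at h1
  refine le_trans ?_ h1
  have h2 : c ≤ Real.cos (t + κ * n) := cos_ge_of hu (by linarith) hc
  have h3 : 1 - n / c ≤ Real.log (Real.cos (t + κ * n)) - Real.log n := by
    have h4 := Real.log_le_log hc0 h2
    have h5 : 1 - n / c ≤ Real.log (c / n) := by
      have := Real.one_sub_inv_le_log_of_pos (div_pos hc0 hn)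
      rwa [inv_div] at this
    rw [Real.log_div hc0.ne' hn.ne'] at h5
    linarith
  refine hL.trans ?_
  apply mul_le_mul_of_nonneg_left _ hn.le
  linarith

theorem low1 {κ t : ℝ} (h : DomR κ t) (hκ : κ ≤ 0.22) (h1 : 0 ≤ t + κ) (h2 : t + κ ≤ 0.9216) : 0.6 ≤ sE κ t := by
  have hk := h.1
  refine sE_lo h 0.6 0.9216 0.6045 0.6 (by norm_num) ?_ (by norm_num) (by norm_num) (by norm_num) (by norm_num)
  rw [abs_le]
  constructor <;> linarith

theorem low2 {κ t : ℝ} (h : DomR κ t) (hκ : κ ≤ 0.3) (hκ2 : 0.22 ≤ κ) (h1 : 0 ≤ t + κ) (h2 : t + κ ≤ 1.0263) :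
    0.59 ≤ sE κ t := by
  have hk := h.1
  refine sE_lo h 0.56 0.9296 0.598 0.59 (by norm_num) ?_ (by norm_num) (by norm_num) (by norm_num) (by norm_num)
  rw [abs_le]
  constructor <;> linarith

theorem low3 {κ t : ℝ} (h : DomR κ t) (hκ : κ ≤ 0.3) (h1 : 0 ≤ t + κ) (h2 : t + κ ≤ 1.1311) : 0.42 ≤ sE κ t := by
  have hk := h.1
  refine sE_lo h 0.42 1.1311 0.42 0.42 (by norm_num) ?_ (by norm_num) (by norm_num) (by norm_num) (by norm_num)
  rw [abs_le]
  constructor <;> linarith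

theorem low4 {κ t : ℝ} (h : DomR κ t) (hκ : κ ≤ 0.3) (h1 : -0.9635 ≤ t + κ) (h2 : t + κ ≤ 0) : 0.42 ≤ sE κ t := by
  have hk := h.1
  refine sE_lo h 0.45 1.1286 0.4275 0.42 (by norm_num) ?_ (by norm_num) (by norm_num) (by norm_num) (by norm_num)
  rw [abs_le]
  constructor <;> linarith

theorem low5 {κ t : ℝ} (h : DomR κ t) (h1 : -0.6284 ≤ t + κ) (h2 : t + κ ≤ 0) : 0.76 ≤ sE κ t := by
  have hk := h.1
  refine sE_lo h 1 0.6284 0.808 0.76 (by norm_num) ?_ (by norm_num) (by norm_num) (by norm_num) (by norm_num)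
  rw [abs_le]
  constructor <;> linarith

theorem up1 {κ t : ℝ} (h : DomR κ t) (ht : 0 ≤ t) : sE κ t ≤ Real.cos t := by
  have h1 := fen_up h 0
  rw [neg_zero, Real.exp_zero, one_mul, zero_div, zero_mul, add_zero] at h1
  refine h1.trans ?_
  have h2 := s_angle h
  have h3 := sx_pos h
  unfold sa
  exact Real.cos_le_cos_of_nonneg_of_le_pi ht (by linarith [Real.pi_pos]) (by linarith)

/-- on the left `x ≤ κ` for `τ ≤ -1` -/
theorem up0 {κ t : ℝ} (h : DomR κ t) (hκ : κ ≤ 0.3) (ht : t + κ ≤ -1) : sE κ t ≤ Real.cos (t + κ) := by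
  have hk := h.1
  have h1 := fen_up h 0
  rw [neg_zero, Real.exp_zero, one_mul, zero_div, zero_mul, add_zero] at h1
  refine h1.trans ?_
  have ha := s_angle h
  have hy := sy_ge49 hκ h
  have hx := sx_pos h
  have hc := cos_sa_pos h
  have hxe := sx_eq h
  obtain ⟨n, hn⟩ : ∃ n, n = Real.exp (-sy κ t) * Real.cos (sa κ t) := ⟨_, rfl⟩
  rw [← hn, div_eq_iff hk.ne'] at hxe
  have he : Real.exp (-sy κ t) ≤ 1.6324 := (Real.exp_le_exp.2 (by linarith)).trans exp49.1
  have hsa : sa κ t = (t + κ) + κ * (n - 1) := by unfold sa; rw [hxe]; ring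
  have hn1 : n ≤ 1.6324 := by
    rw [hn]
    calc Real.exp (-sy κ t) * Real.cos (sa κ t) ≤ 1.6324 * 1 :=
          mul_le_mul he (Real.cos_le_one _) hc.le (by norm_num)
      _ = 1.6324 := mul_one _
  have ha1 : sa κ t ≤ -0.81 := by rw [hsa]; nlinarith
  have hcos : ∀ x : ℝ, 0 ≤ x → sa κ t ≤ -x → Real.cos (sa κ t) ≤ 1 - x ^ 2 / 2 + x ^ 4 / 24 := by
    intro x hx0 hx1
    refine le_trans ?_ (r1_cos_le x)
    rw [← Real.cos_neg (sa κ t)]
    refine Real.cos_le_cos_of_nonneg_of_le_pi hx0 ?_ (by linarith)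
    have : sa κ t = t + sx κ t := rfl
    linarith [Real.pi_pos]
  have hc1 := hcos 0.81 (by norm_num) (by linarith)
  have hn2 : n ≤ 1.14 := by
    rw [hn]
    calc Real.exp (-sy κ t) * Real.cos (sa κ t) ≤ 1.6324 * (1 - 0.81 ^ 2 / 2 + 0.81 ^ 4 / 24) :=
          mul_le_mul he hc1 hc.le (by norm_num)
      _ ≤ 1.14 := by norm_num
  have ha2 : sa κ t ≤ -0.958 := by rw [hsa]; nlinarith
  have hc2 := hcos 0.958 (by norm_num) (by linarith)
  have hn3 : n ≤ 1 := by
    rw [hn]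
    calc Real.exp (-sy κ t) * Real.cos (sa κ t) ≤ 1.6324 * (1 - 0.958 ^ 2 / 2 + 0.958 ^ 4 / 24) :=
          mul_le_mul he hc2 hc.le (by norm_num)
      _ ≤ 1 := by norm_num
  have ha3 : sa κ t ≤ t + κ := by rw [hsa]; nlinarith
  rw [← Real.cos_neg (sa κ t), ← Real.cos_neg (t + κ)]
  have : sa κ t = t + sx κ t := rfl
  exact Real.cos_le_cos_of_nonneg_of_le_pi (by linarith) (by linarith [Real.pi_pos]) (by linarith)

/-- `y₁ ≥ 0.6 κ` -/
theorem y1_ge {κ t : ℝ} (h : DomR κ t) (hκ : κ ≤ 0.3) (ht : 0.82 ≤ t + κ - 0.42 * κ) : 0.6 * κ ≤ sy κ t := by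
  have hk := h.1
  by_contra hcon
  push Not at hcon
  have hy0 : 0 ≤ sy κ t := sy_nonneg h (by linarith)
  have ha := s_angle h
  have hs := sin_sa h
  have hp : sp κ t ≤ 0.6 := by
    unfold sp
    rw [div_le_iff₀ hk]
    linarith
  have hp0 : 0 ≤ sp κ t := sp_nonneg h (by linarith)
  have he : Real.exp (sy κ t) ≤ 1.1974 := by
    have h1 := r1_exp_le3 hy0 (by linarith)
    refine h1.trans ?_
    have h2 : sy κ t ≤ 0.18 := by linarith
    have h3 : sy κ t ^ 2 ≤ 0.18 ^ 2 := pow_le_pow_left₀ hy0 h2 2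
    have h4 : sy κ t ^ 3 ≤ 0.18 ^ 3 := pow_le_pow_left₀ hy0 h2 3
    linarith
  have hsin : Real.sin (sa κ t) ≤ 0.7185 := by
    rw [hs]
    calc sp κ t * Real.exp (sy κ t) ≤ 0.6 * 1.1974 := mul_le_mul hp he (Real.exp_pos _).le (by norm_num)
      _ ≤ 0.7185 := by norm_num
  have hsin0 : 0 ≤ Real.sin (sa κ t) := by
    rw [hs]
    exact mul_nonneg hp0 (Real.exp_pos _).le
  have hc := cos_sa_pos h
  have hcos : 0.695 ≤ Real.cos (sa κ t) := by
    have := Real.sin_sq_add_cos_sq (sa κ t)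
    nlinarith
  have he2 : 0.835 ≤ Real.exp (-sy κ t) := by
    rw [Real.exp_neg, le_inv_comm₀ (by norm_num) (Real.exp_pos _)]
    refine he.trans (by norm_num)
  have hxe := sx_eq h
  have hn : 0.58 ≤ sx κ t / κ := by
    rw [hxe]
    calc (0.58 : ℝ) ≤ 0.835 * 0.695 := by norm_num
      _ ≤ _ := mul_le_mul he2 hcos (by norm_num) (Real.exp_pos _).le
  rw [le_div_iff₀ hk] at hn
  have ha1 : 0.82 ≤ sa κ t := by unfold sa; linarith
  have h5 : Real.sin 0.82 ≤ Real.sin (sa κ t) := by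
    apply Real.sin_le_sin_of_le_of_le_pi_div_two _ _ ha1
    · linarith [Real.pi_pos]
    · have : sa κ t = t + sx κ t := rfl
      linarith
  have h6 := r1_sin_ge (x := 0.82) (by norm_num)
  norm_num at h6
  linarith

/-- `y₀ ≤ -0.54 κ` -/
theorem y0_le {κ t : ℝ} (h : DomR κ t) (hκ : κ ≤ 0.3) (ht : t + κ ≤ -0.628) : sy κ t ≤ -(0.54 * κ) := by
  have hk := h.1
  by_contra hcon
  push Not at hcon
  have hy0 : sy κ t ≤ 0 := sy_nonpos h (by linarith)
  have ha := s_angle h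
  have hs := sin_sa h
  have hp : -0.54 ≤ sp κ t := by
    unfold sp
    rw [le_div_iff₀ hk]
    linarith
  have hp0 : sp κ t ≤ 0 := sp_nonpos h (by linarith)
  have he : Real.exp (-sy κ t) ≤ 1.176 := by
    have h1 := r1_exp_le3 (z := -sy κ t) (by linarith) (by linarith)
    refine h1.trans ?_
    have h2 : -sy κ t ≤ 0.162 := by linarith
    have h3 : (-sy κ t) ^ 2 ≤ 0.162 ^ 2 := pow_le_pow_left₀ (by linarith) h2 2
    have h4 : (-sy κ t) ^ 3 ≤ 0.162 ^ 3 := pow_le_pow_left₀ (by linarith) h2 3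
    linarith
  have hxe := sx_eq h
  have hn : sx κ t / κ ≤ 1.176 := by
    rw [hxe]
    calc Real.exp (-sy κ t) * Real.cos (sa κ t) ≤ 1.176 * 1 :=
          mul_le_mul he (Real.cos_le_one _) (cos_sa_pos h).le (by norm_num)
      _ = 1.176 := mul_one _
  rw [div_le_iff₀ hk] at hn
  have ha1 : sa κ t ≤ -0.575 := by unfold sa; linarith
  have h5 : Real.sin 0.575 ≤ Real.sin (-sa κ t) := by
    apply Real.sin_le_sin_of_le_of_le_pi_div_two _ _ (by linarith)
    · linarith [Real.pi_pos]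
    · have : sa κ t = t + sx κ t := rfl
      linarith
  rw [Real.sin_neg, hs] at h5
  have h6 := r1_sin_ge (x := 0.575) (by norm_num)
  norm_num at h6
  have h7 : -(sp κ t * Real.exp (sy κ t)) ≤ 0.54 := by
    have h8 : Real.exp (sy κ t) ≤ 1 := by rw [Real.exp_le_one_iff]; exact hy0
    have h9 := Real.exp_pos (sy κ t)
    nlinarith
  linarith

/-- `y₀ ≥ -0.3` for `κ ≤ 0.22` -/
theorem y0_ge30 {κ t : ℝ} (h : DomR κ t) (hκ : κ ≤ 0.22) : -0.3 ≤ sy κ t := by
  by_contra hcon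
  push Not at hcon
  obtain ⟨hI1, hI2⟩ := (sy_spec h).1
  have hy := sy_ge49 (by linarith) h
  rw [abs_of_neg (by linarith)] at hI1
  have h1 := mul_exp_neg_mono (s := 0.3) (s' := -sy κ t) (by norm_num) (by linarith) (by linarith)
  rw [neg_neg] at h1
  have h2 : (0.74 : ℝ) ≤ Real.exp (-0.3) := by
    have := r1_exp_ge3 (-0.3)
    norm_num at this ⊢
    linarith
  linarith

/-- `y₀ ≥ -0.44` for `κ ≤ 0.3`, `τ ≥ -1.0682` -/
theorem y0_ge44 {κ t : ℝ} (h : DomR κ t) (hκ : κ ≤ 0.3) (ht : -1.0682 ≤ t + κ) : -0.44 ≤ sy κ t := by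
  by_contra hcon
  push Not at hcon
  have hk := h.1
  have hy := sy_ge49 hκ h
  have ha := s_angle h
  have hs := sin_sa h
  obtain ⟨b, hb⟩ : ∃ b, b = -sa κ t := ⟨_, rfl⟩
  have hsa : sa κ t = t + sx κ t := rfl
  have hsb : Real.sin b = -sp κ t * Real.exp (sy κ t) := by rw [hb, Real.sin_neg, hs]; ring
  have hp : sp κ t * κ = sy κ t := by unfold sp; field_simp
  have h1 := mul_exp_neg_mono (s := 0.44) (s' := -sy κ t) (by norm_num) (by linarith) (by linarith)
  rw [neg_neg] at h1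
  have h2 : (0.6435 : ℝ) ≤ Real.exp (-0.44) := by
    rw [Real.exp_neg, le_inv_comm₀ (by norm_num) (Real.exp_pos _)]
    have := r1_exp_le3 (z := 0.44) (by norm_num) (by norm_num)
    norm_num at this ⊢
    linarith
  have h3 : 0.44 * 0.6435 ≤ κ * Real.sin b := by
    rw [hsb]
    have e : κ * (-sp κ t * Real.exp (sy κ t)) = -(sp κ t * κ) * Real.exp (sy κ t) := by ring
    rw [e, hp]
    linarith
  have hsin : 0.9434 ≤ Real.sin b := by
    have : Real.sin b ≤ 1 := Real.sin_le_one b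
    nlinarith
  have hb2 : b < Real.pi / 2 := by rw [hb]; linarith
  have hb1 : 1.23 ≤ b := by
    by_contra hlt
    push Not at hlt
    have h4 : Real.sin b ≤ Real.sin 1.23 := by
      apply Real.sin_le_sin_of_le_of_le_pi_div_two
      · rw [hb]; linarith
      · linarith [Real.pi_gt_d2]
      · exact hlt.le
    have h5 := r1_sin_le5 (x := 1.23) (by norm_num)
    norm_num at h5
    linarith
  have hc1 := r1_cos_tangent (a := 1.23) (w := b) (by rw [abs_of_pos (by norm_num)]; linarith [Real.pi_gt_d2])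
    (by rw [abs_of_pos (by linarith)]; exact hb2.le)
  have hc2 := r1_cos_ge6 (x := 1.23) (by norm_num)
  norm_num at hc2
  have hc3 : 0.334 - (b - 1.23) ≤ Real.cos b := by
    have h6 : Real.sin b * (b - 1.23) ≤ 1 * (b - 1.23) :=
      mul_le_mul_of_nonneg_right (Real.sin_le_one b) (by linarith)
    nlinarith
  have hcb : 0 < Real.cos b := by rw [hb, Real.cos_neg]; exact cos_sa_pos h
  have hx : 0.44 * Real.cos b ≤ sx κ t := by
    have h7 := (s_data h).1
    have h8 : sx κ t = κ * Real.exp (-sy κ t) * Real.cos b := by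
      rw [hb, Real.cos_neg]; exact h7
    rw [h8]
    apply mul_le_mul_of_nonneg_right _ hcb.le
    have h9 : -sy κ t = κ * Real.exp (-sy κ t) * Real.sin b := by
      rw [hsb, Real.exp_neg]
      have := Real.exp_pos (sy κ t)
      field_simp
      linarith
    have h10 : 0 < κ * Real.exp (-sy κ t) := mul_pos hk (Real.exp_pos _)
    have h11 : κ * Real.exp (-sy κ t) * Real.sin b ≤ κ * Real.exp (-sy κ t) * 1 :=
      mul_le_mul_of_nonneg_left (Real.sin_le_one b) h10.le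
    linarith
  have e : t = -b - sx κ t := by rw [hb, hsa]; ring
  rw [e] at ht
  linarith

/-- the larger of the two dominant copies -/
theorem exp42 {r : ℝ} (hr : 10 ≤ r) : 4.5 * r ≤ 0.715 * Real.exp (r * 0.42) := by
  have h1 : Real.exp (r * 0.42) = Real.exp 4.2 * Real.exp ((r - 10) * 0.42) := by
    rw [← Real.exp_add]; congr 1; ring
  have h2 : (66.6 : ℝ) ≤ Real.exp 4.2 := by
    have e : (4.2 : ℝ) = ((4 : ℕ) : ℝ) * 1 + 0.2 := by norm_num
    rw [e, Real.exp_add, Real.exp_nat_mul]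
    have h3 := Real.exp_one_gt_d9
    have h4 : (2.718 : ℝ) ^ 4 ≤ Real.exp 1 ^ 4 := pow_le_pow_left₀ (by norm_num) (by linarith) 4
    have h5 : (1.2213 : ℝ) ≤ Real.exp 0.2 := by
      have := r1_exp_ge3 0.2
      norm_num at this ⊢
      linarith
    calc (66.6 : ℝ) ≤ 2.718 ^ 4 * 1.2213 := by norm_num
      _ ≤ _ := mul_le_mul h4 h5 (by norm_num) (by positivity)
  have h3 := Real.add_one_le_exp ((r - 10) * 0.42)
  rw [h1]
  have h4 : 66.6 * ((r - 10) * 0.42 + 1) ≤ Real.exp 4.2 * Real.exp ((r - 10) * 0.42) :=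
    mul_le_mul h2 h3 (by linarith) (Real.exp_pos _).le
  linarith

theorem circ3_gen {p : ℤ} {β r : ℝ} (hp : IsCoprime (3 : ℤ) p) (hr : 10 ≤ r) (hβ : 0 < β) (hκ : β * r ≤ 0.3)
    (slo δ S u EL EU : ℝ) (hs1 : 0.44 ≤ slo) (hs2 : slo ≤ 0.49) (hδ : 0 < δ) (hSδ : S + δ ≤ 0.49)
    (hu0 : 0.56 ≤ u) (hu1 : δ < u)
    (hS : ∀ t : ℝ, DomR (β * r) t → (slo - 1) * (2 * Real.pi / 3) ≤ t + β * r → t + β * r ≤ 0 →
      u ≤ 1 + sy (β * r) t ∧ β * r * Real.exp (-sy (β * r) t) ≤ S)
    (he : S / u * (0.1266 / (δ * (1 - 0.1266))) + S / (2 * u ^ 2) ≤ 5.78)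
    (hy1 : 0.82 ≤ slo * (2 * Real.pi / 3) - 0.42 * (β * r))
    (hEL : ∀ t : ℝ, DomR (β * r) t → 0 ≤ t + β * r → t + β * r ≤ slo * (2 * Real.pi / 3) → EL ≤ sE (β * r) t)
    (hEU : Real.cos ((1 - slo) * (2 * Real.pi / 3)) ≤ EU) (hEU0 : 0.38 ≤ EU) (hLU : EU + 0.106 ≤ EL) :
    Circ (2 * Real.pi * p / (3 : ℕ) + β) r := by
  have hr0 : 0 < r := by linarith
  obtain ⟨κ, hκd⟩ : ∃ κ, κ = β * r := ⟨_, rfl⟩
  obtain ⟨h, hh⟩ : ∃ h : ℝ, h = 2 * Real.pi / 3 := ⟨_, rfl⟩
  rw [← hκd] at hκ hS hy1 hEL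
  rw [← hh] at hS hy1 hEL hEU
  have hk : 0 < κ := by rw [hκd]; positivity
  have hπ1 := Real.pi_gt_d4
  have hπ2 := Real.pi_lt_d4
  have hh1 : 2.0943 < h := by rw [hh]; linarith
  have hh2 : h < 2.0944 := by rw [hh]; linarith
  have hβ1 : β ≤ 0.03 := by
    have : β * 10 ≤ β * r := mul_le_mul_of_nonneg_left hr hβ.le
    linarith
  have hβr : κ / β = r := by rw [hκd]; field_simp
  -- J bound on discs
  have hJ : ∀ (σ : ℂ) (d n : ℝ), ‖σ‖ ≤ n → n + d ≤ 0.49 → ∀ s : ℂ, ‖s - σ‖ ≤ d → ‖HH β s - 1‖ ≤ 0.1266 := by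
    intro σ d n hσ hnd s hs
    have h1 : ‖s‖ ≤ 0.49 := by
      have := norm_add_le (s - σ) σ
      rw [sub_add_cancel] at this
      linarith
    have h2 := J45_49_30 hβ (by linarith : β ≤ 1 / 30) (x := s.re) (y := s.im) (by rw [Complex.re_add_im]; exact h1)
    rw [Complex.re_add_im] at h2
    linarith
  -- the two logarithmic derivatives
  have hL0 : ∀ t, slo * h ≤ t + κ → t + κ ≤ 0.7 * h →
      Xf β r h t 0 ≠ 0 ∧ |(Ld β r h t 0).im - sy κ (t - h) / β| ≤ 5.78 ∧ ‖Ld β r h t 0‖ ≤ 2.15 * r := by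
    intro t g1 g2
    have hD : DomR κ (t - h) := by
      refine dom3 hk ?_ ?_
      · nlinarith
      · linarith
    obtain ⟨f1, f2⟩ := hS (t - h) hD (by linarith) (by nlinarith)
    have hsg : ‖sg κ (t - h)‖ ≤ S := by rw [norm_sg3 hD]; exact f2
    obtain ⟨a1, a2, a3⟩ := Ld3n (k := 0) (t := t) (h := h) (t' := t - h) δ 0.1266 S u 5.78 hβ hκd (by push_cast; ring) hD hδ
      (by norm_num) (by linarith) (hJ _ δ S hsg hSδ) f2 (by linarith) f1 he
    refine ⟨a1, a2, ?_⟩
    have h3 : ‖sg κ (t - h) / (β : ℂ)‖ ≤ 1.572 * r := by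
      rw [norm_div, Complex.norm_real, Real.norm_of_nonneg hβ.le, norm_sg3 hD, div_le_iff₀ hβ]
      have e : 1.572 * r * β = κ * 1.572 := by rw [hκd]; ring
      rw [e]
      apply mul_le_mul_of_nonneg_left _ hk.le
      have h4 : Real.exp (-sy κ (t - h)) ≤ Real.exp 0.44 := Real.exp_le_exp.2 (by linarith)
      have h5 := r1_exp_le3 (z := 0.44) (by norm_num) (by norm_num)
      refine h4.trans (h5.trans (by norm_num))
    have h4 := norm_add_le (Ld β r h t 0 - sg κ (t - h) / β) (sg κ (t - h) / β)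
    rw [sub_add_cancel] at h4
    linarith
  have hL1 : ∀ t, slo * h ≤ t + κ → t + κ ≤ 0.7 * h →
      |(Ld β r h t 1).im - sy κ t / β| ≤ 0.4 ∧ ‖Ld β r h t 1‖ ≤ 1.05 * r := by
    intro t g1 g2
    have hD : DomR κ t := by
      refine dom3 hk ?_ ?_
      · nlinarith
      · linarith
    have hy : 0 ≤ sy κ t := sy_nonneg hD (by nlinarith)
    have hex : κ * Real.exp (-sy κ t) ≤ κ * 1 := by
      apply mul_le_mul_of_nonneg_left _ hk.le
      rw [Real.exp_le_one_iff]
      linarith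
    have hsg : ‖sg κ t‖ ≤ 0.3 := by rw [norm_sg3 hD]; linarith
    obtain ⟨a1, a2, a3⟩ := Ld3n (k := 1) (t := t) (h := h) (t' := t) 0.19 0.1266 0.3 1 0.4 hβ hκd (by push_cast; ring) hD (by norm_num)
      (by norm_num) (by linarith) (hJ _ 0.19 0.3 hsg (by norm_num)) (by linarith) (by norm_num) (by linarith)
      (by norm_num)
    refine ⟨a2, ?_⟩
    have h3 : ‖sg κ t / (β : ℂ)‖ ≤ r := by
      rw [norm_div, Complex.norm_real, Real.norm_of_nonneg hβ.le, norm_sg3 hD, div_le_iff₀ hβ]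
      have e : r * β = κ := by rw [hκd]; ring
      rw [e]
      linarith
    have h4 := norm_add_le (Ld β r h t 1 - sg κ t / β) (sg κ t / β)
    rw [sub_add_cancel] at h4
    linarith
  -- the far copy
  have hfar : ∀ t, 0 ≤ t + κ → t + κ ≤ h + 0.03 → ‖Xf β r h t (-1)‖ ≤ 1.6 := by
    intro t g1 g2
    refine xf_far 1 hβ hr (by rw [← hκd]; exact hκ) ?_ ?_
    · push_cast
      have : 2 * Real.pi = 3 * h := by rw [hh]; ring
      linarith
    · push_cast
      have : 2 * Real.pi = 3 * h := by rw [hh]; ring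
      linarith
  -- the maximum
  have hmax : ∀ t, slo * h ≤ t + κ → t + κ ≤ 0.7 * h → 4.5 * r ≤ max ‖Xf β r h t 0‖ ‖Xf β r h t 1‖ := by
    intro t g1 g2
    refine (exp42 hr).trans ?_
    rcases le_total (t + κ) (0.54 * h) with g3 | g3
    · refine le_trans ?_ (le_max_right _ _)
      have hD : DomR κ t := dom3 hk (by nlinarith) (by linarith)
      obtain ⟨b1, -⟩ := xf_bd (k := 1) (t := t) (h := h) (t' := t) hβ hr hκd hκ (by push_cast; ring) (by nlinarith) (by linarith)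
      refine le_trans ?_ b1
      have h5 := low3 hD hκ (by nlinarith) (by linarith)
      have h6 := Real.exp_le_exp.2 (mul_le_mul_of_nonneg_left h5 hr0.le)
      linarith
    · refine le_trans ?_ (le_max_left _ _)
      have hD : DomR κ (t - h) := dom3 hk (by nlinarith) (by linarith)
      obtain ⟨b1, -⟩ := xf_bd (k := 0) (t := t) (h := h) (t' := t - h) hβ hr hκd hκ (by push_cast; ring) (by nlinarith)
        (by linarith)
      refine le_trans ?_ b1
      have h5 := low4 hD hκ (by linarith) (by linarith)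
      have h6 := Real.exp_le_exp.2 (mul_le_mul_of_nonneg_left h5 hr0.le)
      linarith
  have hsf : ∀ g : ℤ → ℝ, ∑ k ∈ far (-1) 3, g k = g (-1) := by
    intro g
    have : far (-1) 3 = {-1} := by decide
    rw [this, Finset.sum_singleton]
  have hmf : ∀ k : ℤ, k ∈ far (-1) 3 → k = -1 := by
    intro k hk
    have : far (-1) 3 = {-1} := by decide
    rw [this] at hk
    exact Finset.mem_singleton.1 hk
  refine circ_L (b := 3) (h := h) (κ := κ) (a0 := -1) (s0 := 0) (slo := slo) (shi := 0.7) (a := 1.1) (m := r / 2)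
    (η := 0.036) (Λ0 := 2.15 * r) (Λ1 := 1.05 * r) (E := fun _ => 16 / 45 / r) (D := fun _ => 16 / 45)
    (by norm_num) hp hr0 (by rw [hh]; norm_num) (by norm_num) (by norm_num) (by linarith) (by norm_num) (by linarith)
    (by norm_num) (fun t g1 g2 => (hL0 t g1 g2).1) ?_ ?_ (fun t g1 g2 => (hL0 t g1 g2).2.2)
    (fun t g1 g2 => (hL1 t g1 g2).2) ?_ ?_ ?_ ?_ ?_
  · -- E
    intro t g1 g2 k hk'
    rw [hmf k hk']
    have h1 := hfar t (by nlinarith) (by linarith)
    have h2 := hmax t g1 g2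
    have h3 : (1.6 : ℝ) = 16 / 45 / r * (4.5 * r) := by field_simp; norm_num
    refine h1.trans ?_
    rw [h3]
    exact mul_le_mul_of_nonneg_left h2 (by positivity)
  · -- D
    intro t g1 g2 k hk'
    rw [hmf k hk']
    have h1 := hfar (t + β) (by nlinarith) (by linarith)
    have h2 := hmax t g1 g2
    have h3 := mul_le_mul_of_nonneg_left h1 hr0.le
    show r * ‖Xf β r h (t + β) (-1)‖ ≤ 16 / 45 * _
    linarith
  · -- slope
    intro t g1 g2
    obtain ⟨-, a2, -⟩ := hL0 t g1 g2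
    obtain ⟨b2, -⟩ := hL1 t g1 g2
    have hD1 : DomR κ t := dom3 hk (by nlinarith) (by linarith)
    have hD0 : DomR κ (t - h) := dom3 hk (by nlinarith) (by linarith)
    have c1 := y1_ge hD1 hκ (by linarith)
    have c0 := y0_le hD0 hκ (by linarith)
    have d1 : 0.6 * r ≤ sy κ t / β := by
      rw [le_div_iff₀ hβ]
      have : 0.6 * r * β = 0.6 * κ := by rw [hκd]; ring
      linarith
    have d0 : sy κ (t - h) / β ≤ -(0.54 * r) := by
      rw [div_le_iff₀ hβ]
      have : -(0.54 * r) * β = -(0.54 * κ) := by rw [hκd]; ring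
      linarith
    rw [Complex.sub_im]
    have e1 := (abs_le.1 b2).1
    have e0 := (abs_le.1 a2).2
    linarith
  · rw [hsf]
    rw [div_le_iff₀ hr0]
    linarith
  · -- outside
    intro t g1 g2 g3
    rw [hsf]
    rw [zero_mul] at g1
    rw [zero_add, one_mul] at g2
    have hf := hfar t g1 (by linarith)
    rcases g3 with g3 | g3
    · -- left
      have hsl : slo * h ≤ 1.0263 := by nlinarith
      have hD1 : DomR κ t := dom3 hk (by linarith) (by linarith)
      obtain ⟨b1, -⟩ := xf_bd (k := 1) (t := t) (h := h) (t' := t) hβ hr hκd hκ (by push_cast; ring) (by linarith)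
        (by linarith)
      have h5 := hEL t hD1 g1 g3.le
      have h6 := Real.exp_le_exp.2 (mul_le_mul_of_nonneg_left (hLU.trans h5) hr0.le)
      have h7 : Real.exp (r * (EU + 0.106)) = Real.exp (r * 0.106) * Real.exp (r * EU) := by
        rw [← Real.exp_add]; congr 1; ring
      have h8 : (2.87 : ℝ) ≤ Real.exp (r * 0.106) := by
        have h9 : (2.87 : ℝ) ≤ Real.exp 1.06 := by
          have := Real.sum_le_exp_of_nonneg (x := 1.06) (by norm_num) 6
          simp [Finset.sum_range_succ, Nat.factorial] at this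
          norm_num at this ⊢
          linarith
        exact h9.trans (Real.exp_le_exp.2 (by linarith))
      have h9 : (12 : ℝ) ≤ Real.exp (r * EU) := by
        have h10 : (3.8 : ℝ) ≤ r * EU := by nlinarith
        have h11 := Real.quadratic_le_exp_of_nonneg (x := 3.8) (by norm_num)
        have h12 := Real.exp_le_exp.2 h10
        norm_num at h11
        linarith
      have h0 : ‖Xf β r h t 0‖ ≤ 1.58 * Real.exp (r * EU) := by
        rcases le_or_gt (t - h) (-(Real.pi / 2)) with h10 | h10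
        · have h11 := xf_far (β := β) (r := r) (h := h) (t := t) (k := 0) 1 hβ hr (by rw [← hκd]; exact hκ)
            (by push_cast; linarith) (by push_cast; linarith)
          linarith
        · have hD0 : DomR κ (t - h) := dom3 hk h10 (by linarith)
          obtain ⟨-, b2⟩ := xf_bd (k := 0) (t := t) (h := h) (t' := t - h) hβ hr hκd hκ (by push_cast; ring) h10
            (by linarith)
          refine b2.trans ?_
          have h12 := up0 hD0 hκ (by nlinarith)
          have h13 : Real.cos (t - h + κ) ≤ Real.cos ((1 - slo) * h) := by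
            rw [← Real.cos_neg (t - h + κ)]
            exact Real.cos_le_cos_of_nonneg_of_le_pi (by nlinarith) (by linarith) (by linarith)
          have h14 := Real.exp_le_exp.2 (mul_le_mul_of_nonneg_left ((h12.trans h13).trans hEU) hr0.le)
          linarith
      rw [h7] at h6
      have h15 : 2.87 * Real.exp (r * EU) ≤ Real.exp (r * 0.106) * Real.exp (r * EU) :=
        mul_le_mul_of_nonneg_right h8 (Real.exp_pos _).le
      refine lt_of_lt_of_le ?_ (le_abs_self _)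
      linarith
    · -- right
      have hD0 : DomR κ (t - h) := dom3 hk (by linarith) (by linarith)
      obtain ⟨b1, -⟩ := xf_bd (k := 0) (t := t) (h := h) (t' := t - h) hβ hr hκd hκ (by push_cast; ring) (by linarith)
        (by linarith)
      have h5 := low5 hD0 (by linarith) (by linarith)
      have h6 := Real.exp_le_exp.2 (mul_le_mul_of_nonneg_left h5 hr0.le)
      have h7 : Real.exp (r * 0.76) = Real.exp (r * 0.36) * Real.exp (r * 0.4) := by
        rw [← Real.exp_add]; congr 1; ring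
      have h8 : (11 : ℝ) ≤ Real.exp (r * 0.36) := by
        have h11 := Real.quadratic_le_exp_of_nonneg (x := 3.6) (by norm_num)
        have h12 := Real.exp_le_exp.2 (by linarith : (3.6 : ℝ) ≤ r * 0.36)
        norm_num at h11
        linarith
      have h9 : (13 : ℝ) ≤ Real.exp (r * 0.4) := by
        have h11 := Real.quadratic_le_exp_of_nonneg (x := 4) (by norm_num)
        have h12 := Real.exp_le_exp.2 (by linarith : (4 : ℝ) ≤ r * 0.4)
        norm_num at h11
        linarith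
      have h1 : ‖Xf β r h t 1‖ ≤ 1.58 * Real.exp (r * 0.4) := by
        rcases le_or_gt (Real.pi / 2) t with h10 | h10
        · have h11 := xf_far (β := β) (r := r) (h := h) (t := t) (k := 1) 0 hβ hr (by rw [← hκd]; exact hκ)
            (by push_cast; linarith) (by push_cast; linarith)
          linarith
        · have hD1 : DomR κ t := dom3 hk (by linarith) h10
          obtain ⟨-, b2⟩ := xf_bd (k := 1) (t := t) (h := h) (t' := t) hβ hr hκd hκ (by push_cast; ring) (by linarith)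
            h10
          refine b2.trans ?_
          have h12 := up1 hD1 (by linarith)
          have h13 : Real.cos t ≤ Real.cos 1.166 :=
            Real.cos_le_cos_of_nonneg_of_le_pi (by norm_num) (by linarith) (by linarith)
          have h15 := r1_cos_le 1.166
          norm_num at h15
          have h14 := Real.exp_le_exp.2 (mul_le_mul_of_nonneg_left
            ((h12.trans h13).trans (by linarith : Real.cos 1.166 ≤ 0.4)) hr0.le)
          linarith
      rw [h7] at h6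
      have h15 : 11 * Real.exp (r * 0.4) ≤ Real.exp (r * 0.36) * Real.exp (r * 0.4) :=
        mul_le_mul_of_nonneg_right h8 (Real.exp_pos _).le
      refine lt_of_lt_of_le ?_ (neg_le_abs _)
      linarith
  · -- small1
    rw [hsf]
    have e1 : pw (-1) = 2 := by decide
    have e2 : (-1 : ℤ).natAbs = 1 := by decide
    rw [e1, e2]
    have h1 : 16 / 45 / r ≤ 0.036 := by rw [div_le_iff₀ hr0]; linarith
    norm_num at h1 ⊢
    linarith
  · -- small2
    rw [hsf, hsf]
    have e1 : pw (-1) = 2 := by decide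
    have e2 : (-1 : ℤ).natAbs = 1 := by decide
    rw [e1, e2]
    have h1 : 16 / 45 / r ≤ 0.036 := by rw [div_le_iff₀ hr0]; linarith
    have h2 : 16 / 45 / r * r = 16 / 45 := by field_simp
    have h3 : |((-1 : ℤ) : ℝ) - 1| = 2 := by norm_num
    have h4 : |((-1 : ℤ) : ℝ)| = 1 := by norm_num
    rw [h3, h4]
    have h5 : 16 / 45 / r * (2 * (2.15 * r) + 1 * (1.05 * r)) = 5.35 * (16 / 45) := by
      have e3 : 16 / 45 / r * (2 * (2.15 * r) + 1 * (1.05 * r)) = 5.35 * (16 / 45 / r * r) := by ring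
      rw [e3, h2]
    rw [h5]
    have h6 : 0 < 16 / 45 / r := by positivity
    norm_num at h1 h6 ⊢
    nlinarith

theorem circ_b3_small {p : ℤ} {β r : ℝ} (hp : IsCoprime (3 : ℤ) p) (hr : 10 ≤ r) (hβ : 0 < β) (hκ : β * r ≤ 0.3) :
    Circ (2 * Real.pi * p / (3 : ℕ) + β) r := by
  have hπ1 := Real.pi_gt_d4
  have hπ2 := Real.pi_lt_d4
  have hk : 0 < β * r := by positivity
  rcases le_total (β * r) 0.22 with h22 | h22
  · refine circ3_gen hp hr hβ hκ 0.44 0.19 0.297 0.7 0.6 0.392 (by norm_num) (by norm_num) (by norm_num) (by norm_num)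
      (by norm_num) (by norm_num) ?_ (by norm_num) (by linarith) ?_ ?_ (by norm_num) (by norm_num)
    · intro t hD _ _
      have h1 := y0_ge30 hD h22
      refine ⟨by linarith, ?_⟩
      have h2 : Real.exp (-sy (β * r) t) ≤ 1.35 := by
        have h4 : Real.exp (-sy (β * r) t) ≤ Real.exp 0.3 := Real.exp_le_exp.2 (by linarith)
        have h5 := Real.exp_bound' (x := 0.3) (by norm_num) (by norm_num) (n := 5) (by norm_num)
        simp [Finset.sum_range_succ, Nat.factorial] at h5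
        norm_num at h5 ⊢
        linarith
      calc β * r * Real.exp (-sy (β * r) t) ≤ 0.22 * 1.35 := mul_le_mul h22 h2 (Real.exp_pos _).le (by norm_num)
        _ ≤ 0.297 := by norm_num
    · intro t hD g1 g2
      exact low1 hD h22 g1 (by linarith)
    · refine (Real.cos_le_cos_of_nonneg_of_le_pi (x := 1.1728) (by norm_num) (by linarith) (by linarith)).trans ?_
      have := r1_cos_le 1.1728
      norm_num at this ⊢
      linarith
  · refine circ3_gen hp hr hβ hκ 0.49 0.024 0.4659 0.56 0.59 0.484 (by norm_num) (by norm_num) (by norm_num) (by norm_num)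
      (by norm_num) (by norm_num) ?_ (by norm_num) (by linarith) ?_ ?_ (by norm_num) (by norm_num)
    · intro t hD g1 g2
      have h1 := y0_ge44 hD hκ (by linarith)
      refine ⟨by linarith, ?_⟩
      have h2 : Real.exp (-sy (β * r) t) ≤ 1.5529 := by
        have h4 : Real.exp (-sy (β * r) t) ≤ Real.exp 0.44 := Real.exp_le_exp.2 (by linarith)
        have h5 := Real.exp_bound' (x := 0.44) (by norm_num) (by norm_num) (n := 6) (by norm_num)
        simp [Finset.sum_range_succ, Nat.factorial] at h5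
        norm_num at h5 ⊢
        linarith
      calc β * r * Real.exp (-sy (β * r) t) ≤ 0.3 * 1.5529 := mul_le_mul hκ h2 (Real.exp_pos _).le (by norm_num)
        _ ≤ 0.4659 := by norm_num
    · intro t hD g1 g2
      exact low2 hD hκ h22 g1 (by linarith)
    · refine (Real.cos_le_cos_of_nonneg_of_le_pi (x := 1.068) (by norm_num) (by linarith) (by linarith)).trans ?_
      have := r1_cos_le 1.068
      norm_num at this ⊢
      linarith

end T3
end Sok
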