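import Pool.Agent.Lib.MP_816dec_an.R1V7

/-!
MP_816dec_an (A3, row R1), SINGLE CASE `b = 3`, `r ≥ 10`: three tools for the cells
(slope with a separate centre error, the cell beyond `π/2` without a vertical leg, the sharper exponent `gH`).
-/

set_option autoImplicit false

open Complex Set Filter Topology Metric

namespace Sok

/-! ### (1) the slope with a separate error at the centre -/

/-- `slope_of_disc` with a separate error `ε0` at the centre -/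
theorem b3_slope_of_disc {β δ ε ε0 : ℝ} {σ : ℂ} (hβ : 0 < β) (hδ : 0 < δ) (hε0 : ε0 < 1) (hσ : σ ≠ 0)
    (him : ∀ s : ℂ, ‖s - σ‖ ≤ δ → -1 < s.im)
    (hJ : ∀ s : ℂ, ‖s - σ‖ ≤ δ → ‖HH β s - 1‖ ≤ ε) (hJ0 : ‖HH β σ - 1‖ ≤ ε0) :
    F (cexp (I * β)) (zs β σ) ≠ 0 ∧
    ‖zs β σ * F (cexp (I * β)) (cexp (I * β) * zs β σ) / F (cexp (I * β)) (zs β σ) -
      (σ / β + I / 2 * σ / (1 - I * σ) ^ 2)‖ ≤ ‖σ / (1 - I * σ)‖ * (ε / (δ * (1 - ε0))) := by
  have hβ' : (β : ℂ) ≠ 0 := by exact_mod_cast hβ.ne'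
  have hself : ‖σ - σ‖ ≤ δ := by rw [sub_self, norm_zero]; exact hδ.le
  have hs := re_pos_slit (him σ hself)
  have hne : (1 - I * σ) ≠ 0 := slitPlane_ne_zero hs
  have hHn : 1 - ε0 ≤ ‖HH β σ‖ := by
    have h1 := norm_sub_norm_le (1 : ℂ) (1 - HH β σ)
    rw [norm_one, norm_sub_rev 1 (HH β σ)] at h1
    have h2 : (1 : ℂ) - (1 - HH β σ) = HH β σ := by ring
    rw [h2] at h1
    linarith
  have hH0 : HH β σ ≠ 0 := by
    rw [← norm_pos_iff]; linarith
  have hF0 : F (cexp (I * β)) (zs β σ) ≠ 0 := by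
    intro h0
    apply hH0
    rw [HH, h0]; ring
  refine ⟨hF0, ?_⟩
  have hdiff : DifferentiableOn ℂ (HH β) (Metric.closedBall σ δ) := by
    intro s hs'
    rw [Metric.mem_closedBall, dist_eq_norm] at hs'
    exact (hasDerivAt_HH hβ (re_pos_slit (him s hs'))).differentiableAt.differentiableWithinAt
  have hcl : DiffContOnCl ℂ (fun s => HH β s - 1) (Metric.ball σ δ) := by
    apply DifferentiableOn.diffContOnCl
    rw [closure_ball _ hδ.ne']
    exact hdiff.sub_const 1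
  have hC : ∀ s ∈ Metric.sphere σ δ, ‖(fun s => HH β s - 1) s‖ ≤ ε := by
    intro s hs'
    rw [Metric.mem_sphere, dist_eq_norm] at hs'
    exact hJ s hs'.le
  have hder := Complex.norm_deriv_le_of_forall_mem_sphere_norm_le hδ hcl hC
  have hd := (hasDerivAt_HH hβ hs).sub_const 1
  rw [hd.deriv] at hder
  obtain ⟨D', hD'⟩ : ∃ D' : ℂ, D' = F (cexp (I * β)) (cexp (I * β) * zs β σ) *
      ((1 - I * σ) / β * cexp (-(I * σ) + I * β / 2)) * cexp (-((σ - I * σ ^ 2 / 2) / β)) *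
        (1 - I * σ) ^ (1 / 2 : ℂ) -
      F (cexp (I * β)) (zs β σ) * cexp (-((σ - I * σ ^ 2 / 2) / β)) * (1 - I * σ) ^ (1 / 2 : ℂ) *
        ((1 - I * σ) / β + (I / 2) / (1 - I * σ)) := ⟨_, rfl⟩
  rw [← hD'] at hder
  have key : zs β σ * F (cexp (I * β)) (cexp (I * β) * zs β σ) / F (cexp (I * β)) (zs β σ) -
      (σ / β + I / 2 * σ / (1 - I * σ) ^ 2) = σ / (1 - I * σ) * (D' / HH β σ) := by
    have hHH : HH β σ = F (cexp (I * β)) (zs β σ) * cexp (-((σ - I * σ ^ 2 / 2) / β)) *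
      (1 - I * σ) ^ (1 / 2 : ℂ) := rfl
    have e2 : zs β σ = σ / β * cexp (-(I * σ) + I * β / 2) := rfl
    have hq : D' / HH β σ = F (cexp (I * β)) (cexp (I * β) * zs β σ) / F (cexp (I * β)) (zs β σ) *
        ((1 - I * σ) / β * cexp (-(I * σ) + I * β / 2)) -
        ((1 - I * σ) / β + (I / 2) / (1 - I * σ)) := by
      have hD1 : D' = HH β σ * (F (cexp (I * β)) (cexp (I * β) * zs β σ) / F (cexp (I * β)) (zs β σ) *
        ((1 - I * σ) / β * cexp (-(I * σ) + I * β / 2)) -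
        ((1 - I * σ) / β + (I / 2) / (1 - I * σ))) := by
        rw [hD', hHH]
        field_simp
      rw [hD1, mul_div_cancel_left₀ _ hH0]
    rw [hq]
    generalize F (cexp (I * β)) (cexp (I * β) * zs β σ) = B
    generalize F (cexp (I * β)) (zs β σ) = A
    rw [e2]
    obtain ⟨n, hn⟩ : ∃ n : ℂ, n = 1 - I * σ := ⟨_, rfl⟩
    rw [← hn] at hne ⊢
    generalize cexp (-(I * σ) + I * β / 2) = e
    field_simp
  rw [key, norm_mul, norm_div (α := ℂ) D']
  apply mul_le_mul_of_nonneg_left _ (norm_nonneg _)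
  have h1 : 0 < 1 - ε0 := by linarith
  rw [div_le_div_iff₀ (by linarith) (by positivity)]
  have h3 : ‖D'‖ * δ ≤ ε := by
    rw [le_div_iff₀ hδ] at hder
    exact hder
  have hε : 0 ≤ ε := (mul_nonneg (norm_nonneg _) hδ.le).trans h3
  calc ‖D'‖ * (δ * (1 - ε0)) = (‖D'‖ * δ) * (1 - ε0) := by ring
    _ ≤ ε * (1 - ε0) := mul_le_mul_of_nonneg_right h3 h1.le
    _ ≤ ε * ‖HH β σ‖ := mul_le_mul_of_nonneg_left hHn hε

/-- the logarithmic derivative of a near copy, separate error at the centre -/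
theorem b3_Ld {β r h t κ : ℝ} (δ ε ε0 : ℝ) {k : ℤ} {t' : ℝ} (hβ : 0 < β) (hκ : κ = β * r) (ht : t' = t + (k - 1) * h)
    (hD : DomR κ t') (hδ : 0 < δ) (hε0 : ε0 < 1) (him : δ < 1 + sy κ t')
    (hJ : ∀ s : ℂ, ‖s - sg κ t'‖ ≤ δ → ‖HH β s - 1‖ ≤ ε) (hJ0 : ‖HH β (sg κ t') - 1‖ ≤ ε0) :
    Xf β r h t k ≠ 0 ∧ ‖Ld β r h t k - (sg κ t' / β + I / 2 * sg κ t' / (1 - I * sg κ t') ^ 2)‖ ≤
      ‖sg κ t' / (1 - I * sg κ t')‖ * (ε / (δ * (1 - ε0))) := by
  have hne : sg κ t' ≠ 0 := by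
    rw [← norm_pos_iff, norm_sg5 hD]
    exact mul_pos hD.1 (Real.exp_pos _)
  have him' : ∀ s : ℂ, ‖s - sg κ t'‖ ≤ δ → -1 < s.im := by
    intro s hs
    have h1 := (abs_le.1 ((Complex.abs_im_le_norm _).trans hs)).1
    have h2 : (s - sg κ t').im = s.im - sy κ t' := by
      unfold sg
      simp
    rw [h2] at h1
    linarith
  obtain ⟨h1, h2⟩ := b3_slope_of_disc hβ hδ hε0 hne him' hJ hJ0
  have hb : (β : ℂ) ≠ 0 := by exact_mod_cast hβ.ne'
  have hz : zs β (sg κ t') = (r : ℂ) * cexp (I * ((t' + β / 2 : ℝ) : ℂ)) := by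
    have h3 := s_point hD hβ.ne'
    have e : κ / β = r := by rw [hκ]; field_simp
    rw [e] at h3
    rw [mul_comm I, ← h3]
    rfl
  have hX : Xf β r h t k = F (cexp (I * β)) (zs β (sg κ t')) := by
    unfold Xf
    rw [hz, ht]
  have hX' : Xf β r h (t + β) k = F (cexp (I * β)) (cexp (I * β) * zs β (sg κ t')) := by
    unfold Xf
    congr 1
    rw [hz, mul_left_comm, ← Complex.exp_add, ht]
    congr 2
    push_cast
    ring
  refine ⟨by rw [hX]; exact h1, ?_⟩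
  have hL : Ld β r h t k = zs β (sg κ t') * F (cexp (I * β)) (cexp (I * β) * zs β (sg κ t')) /
      F (cexp (I * β)) (zs β (sg κ t')) := by
    unfold Ld
    rw [hX, hX', hz, ht]
  rw [hL]
  exact h2

/-- `v5_slope` with a separate error `ε0` at the centre -/
theorem b3_slope {β r h t κ : ℝ} (δ ε ε0 n D f e : ℝ) {k : ℤ} {t' : ℝ} (hβ : 0 < β) (hκ : κ = β * r)
    (ht : t' = t + (k - 1) * h)
    (hD : DomR κ t') (hδ : 0 < δ) (hε0 : ε0 < 1) (him : δ < 1 + sy κ t')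
    (hJ : ∀ s : ℂ, ‖s - sg κ t'‖ ≤ δ → ‖HH β s - 1‖ ≤ ε) (hJ0 : ‖HH β (sg κ t') - 1‖ ≤ ε0)
    (hn : κ * Real.exp (-sy κ t') ≤ n) (hD0 : 0 < D) (hDl : D ≤ sD κ t') (hf0 : 0 ≤ f)
    (hf : ε ≤ f * (δ * (1 - ε0))) (he0 : 0 ≤ e) (he : (n * f) ^ 2 ≤ e ^ 2 * D) :
    Xf β r h t k ≠ 0 ∧ |(Ld β r h t k).im - (sy κ t' / β + sx κ t' / sD κ t' * ((1 + sy κ t') / sD κ t' - 1 / 2))| ≤ e ∧
      ‖Ld β r h t k - sg κ t' / β‖ ≤ n / (2 * D) + e := by
  obtain ⟨h1, h2⟩ := b3_Ld δ ε ε0 hβ hκ ht hD hδ hε0 him hJ hJ0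
  have hsD := sD_pos hD
  have hn0 : 0 < κ * Real.exp (-sy κ t') := mul_pos hD.1 (Real.exp_pos _)
  have hE : ‖sg κ t' / (1 - I * sg κ t')‖ * (ε / (δ * (1 - ε0))) ≤ e := by
    have h3 : ε / (δ * (1 - ε0)) ≤ f := by
      rw [div_le_iff₀ (mul_pos hδ (by linarith))]
      exact hf
    rw [norm_div, norm_one_sub_sg, norm_sg5 hD]
    have h4 : κ * Real.exp (-sy κ t') / Real.sqrt (sD κ t') ≤ n / Real.sqrt D :=
      div_le_div₀ (hn0.le.trans hn) hn (Real.sqrt_pos.2 hD0) (Real.sqrt_le_sqrt hDl)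
    have h5 : n / Real.sqrt D * f ≤ e := by
      rw [div_mul_eq_mul_div, div_le_iff₀ (Real.sqrt_pos.2 hD0)]
      have h6 : n * f = Real.sqrt ((n * f) ^ 2) := (Real.sqrt_sq (mul_nonneg (hn0.le.trans hn) hf0)).symm
      have h7 : e * Real.sqrt D = Real.sqrt (e ^ 2 * D) := by
        rw [Real.sqrt_mul (sq_nonneg e), Real.sqrt_sq he0]
      rw [h6, h7]
      exact Real.sqrt_le_sqrt he
    have h8 : 0 ≤ κ * Real.exp (-sy κ t') / Real.sqrt (sD κ t') := by positivity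
    calc κ * Real.exp (-sy κ t') / Real.sqrt (sD κ t') * (ε / (δ * (1 - ε0)))
        ≤ κ * Real.exp (-sy κ t') / Real.sqrt (sD κ t') * f := mul_le_mul_of_nonneg_left h3 h8
      _ ≤ n / Real.sqrt D * f := mul_le_mul_of_nonneg_right h4 hf0
      _ ≤ e := h5
  have h3 := h2.trans hE
  refine ⟨h1, ?_, ?_⟩
  · have h4 := (Complex.abs_im_le_norm _).trans h3
    rw [Complex.sub_im, Complex.add_im, im_ex hD] at h4
    have h5 : (sg κ t' / (β : ℂ)).im = sy κ t' / β := by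
      rw [Complex.div_ofReal_im]
      unfold sg
      simp
    rw [h5] at h4
    exact h4
  · have e1 : Ld β r h t k - sg κ t' / β = (Ld β r h t k - (sg κ t' / β + I / 2 * sg κ t' / (1 - I * sg κ t') ^ 2)) +
        I / 2 * sg κ t' / (1 - I * sg κ t') ^ 2 := by ring
    rw [e1]
    refine (norm_add_le _ _).trans ?_
    rw [norm_ex hD]
    have h6 : κ * Real.exp (-sy κ t') / (2 * sD κ t') ≤ n / (2 * D) :=
      div_le_div₀ (hn0.le.trans hn) hn (by linarith) (by linarith)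
    linarith

/-! ### (2) the cell beyond `π/2` -/

theorem b3_U1 {β r t κ : ℝ} (k1 k2 ta tb d0 s c0 c L xm Hc K : ℝ) (hβ : 0 < β) (hr : 10 ≤ r) (hκ : κ = β * r)
    (hk0 : 0 < k1) (hk1 : k1 ≤ κ) (hk2 : κ ≤ k2) (hta : ta ≤ t + κ) (htb : t + κ ≤ tb)
    (hd0 : d0 ≤ ta - k2 - 1.5708) (hd00 : 0 < d0) (htb' : tb ≤ 4.712 + k1)
    (hs0 : 0 < s) (hs : k2 ≤ 62.831 * s ^ 2) (hc00 : 0 < c0) (hcc0 : 10 ≤ 17.078 * k1 * c0 ^ 2)
    (hx1 : 3.1416 - (ta - k2) ≤ xm) (hx2 : (tb - k1) - 3.1415 ≤ xm) (hxm0 : 0 ≤ xm) (hxm : xm ≤ 1.57)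
    (hc : c ≤ 1 - xm ^ 2 / 2 + xm ^ 4 / 24 - xm ^ 6 / 720) (hcp : 0 < c)
    (hL : Real.exp (-(10 * c)) ≤ L * (10 * c)) (hH : C0 β * HUMP β r t ≤ Hc)
    (hK : s / d0 + s + Hc + c0 * (0.31416 + L) ≤ K) :
    ‖F (cexp (I * β)) (r * cexp (I * ((t + β / 2 : ℝ) : ℂ)))‖ ≤
      0 * Real.exp (r * 0) + K * Real.exp (r * (1 / 20)) := by
  have hpi := Real.pi_gt_d6
  have hpi' := Real.pi_lt_d6
  have hr0 : 0 < r := by linarith
  have hκp : 0 < κ := hk0.trans_le hk1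
  have ht1 : Real.pi / 2 < t := by norm_num at hd0 hpi' ⊢; linarith
  have ht2 : t < 3 * Real.pi / 2 := by norm_num at htb' hpi ⊢; linarith
  have hb := far_U1 hβ hr0 ht1 ht2
  refine hb.trans ?_
  rw [zero_mul, zero_add]
  have hC := C0_pos hβ
  have hCb := v5_C0b s hβ hr hκ hk2 hs0 hs
  have hC0 := v5_C0 c0 hβ hr hκ hk0 hk1 hc00 hcc0
  have hCb0 : 0 ≤ C0 β * β := by positivity
  have hEE : Real.exp (r / 20) = Real.exp (r * (1 / 20)) := by congr 1; ring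
  rw [hEE] at hC0
  have h1E : 1 ≤ Real.exp (r * (1 / 20)) := Real.one_le_exp (by positivity)
  have hE0 := Real.exp_pos (r * (1 / 20))
  -- the cosine
  have hcos : c ≤ |Real.cos t| := by
    have e1 : Real.cos t = -Real.cos |Real.pi - t| := by
      rw [Real.cos_abs, Real.cos_pi_sub, neg_neg]
    have hx : |Real.pi - t| ≤ xm := by
      rw [abs_le]
      constructor
      · norm_num at hx2 hpi ⊢; linarith
      · norm_num at hx1 hpi' ⊢; linarith
    have h2 : Real.cos xm ≤ Real.cos |Real.pi - t| := by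
      apply Real.cos_le_cos_of_nonneg_of_le_pi (abs_nonneg _) _ hx
      norm_num at hxm hpi ⊢; linarith
    have h3 := cos_ge_num hxm0 hc
    have h4 : 0 ≤ Real.cos |Real.pi - t| := by linarith
    rw [e1, abs_neg, abs_of_nonneg h4]
    linarith
  have hx0 : 10 * c ≤ r * |Real.cos t| := mul_le_mul hr hcos hcp.le hr0.le
  have hL0 : 0 ≤ L := by
    by_contra hcon
    push Not at hcon
    have h1 := Real.exp_pos (-(10 * c))
    have h2 : L * (10 * c) < 0 := mul_neg_of_neg_of_pos hcon (by linarith)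
    linarith
  have t3 : C0 β * min 1 (Real.exp (-(r * |Real.cos t|)) / (r * |Real.cos t|)) ≤ c0 * L * Real.exp (r * (1 / 20)) := by
    have h1 : min 1 (Real.exp (-(r * |Real.cos t|)) / (r * |Real.cos t|)) ≤ L := by
      refine (min_le_right _ _).trans ?_
      rw [div_le_iff₀ (by linarith)]
      calc Real.exp (-(r * |Real.cos t|)) ≤ Real.exp (-(10 * c)) := Real.exp_le_exp.2 (by linarith)
        _ ≤ L * (10 * c) := hL
        _ ≤ L * (r * |Real.cos t|) := mul_le_mul_of_nonneg_left hx0 hL0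
    have h2 : 0 ≤ min 1 (Real.exp (-(r * |Real.cos t|)) / (r * |Real.cos t|)) := by
      apply le_min zero_le_one
      positivity
    calc C0 β * min 1 (Real.exp (-(r * |Real.cos t|)) / (r * |Real.cos t|))
        ≤ (c0 * Real.exp (r * (1 / 20))) * L := mul_le_mul hC0 h1 h2 (by positivity)
      _ = _ := by ring
  have t1 : C0 β * (β / (t - Real.pi / 2)) ≤ s / d0 * Real.exp (r * (1 / 20)) := by
    have h2 : C0 β * (β / (t - Real.pi / 2)) ≤ s / d0 := by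
      rw [← mul_div_assoc]
      apply div_le_div₀ hs0.le hCb hd00
      norm_num at hd0 hpi' ⊢; linarith
    exact h2.trans (le_mul_of_one_le_right (by positivity) h1E)
  have t2 : C0 β * (if t ≤ Real.pi then Real.pi / (2 * r) else Real.pi / r) ≤ c0 * 0.31416 * Real.exp (r * (1 / 20)) := by
    have h2 : Real.pi / r ≤ 0.31416 := by
      rw [div_le_iff₀ hr0]
      norm_num at hpi' ⊢; linarith
    have h3 : (if t ≤ Real.pi then Real.pi / (2 * r) else Real.pi / r) ≤ 0.31416 := by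
      split_ifs
      · refine le_trans ?_ h2
        apply div_le_div_of_nonneg_left (by positivity) hr0
        linarith
      · exact h2
    have h4 : 0 ≤ (if t ≤ Real.pi then Real.pi / (2 * r) else Real.pi / r) := by
      split_ifs <;> positivity
    calc C0 β * (if t ≤ Real.pi then Real.pi / (2 * r) else Real.pi / r)
        ≤ (c0 * Real.exp (r * (1 / 20))) * 0.31416 := mul_le_mul hC0 h3 h4 (by positivity)
      _ = _ := by ring
  have t5 : C0 β * β ≤ s * Real.exp (r * (1 / 20)) := hCb.trans (le_mul_of_one_le_right hs0.le h1E)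
  have hHc0 : 0 ≤ Hc := by
    refine le_trans ?_ hH
    unfold HUMP
    positivity
  have t6 : C0 β * HUMP β r t ≤ Hc * Real.exp (r * (1 / 20)) := hH.trans (le_mul_of_one_le_right hHc0 h1E)
  have h7 := mul_le_mul_of_nonneg_right hK hE0.le
  have e8 : ∀ a b c d e : ℝ, C0 β * (a + b + c + d + e) = C0 β * a + C0 β * b + C0 β * c + C0 β * d + C0 β * e := by
    intro a b c d e; ring
  rw [e8]
  have e7 : (s / d0 + s + Hc + c0 * (0.31416 + L)) * Real.exp (r * (1 / 20)) =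
      s / d0 * Real.exp (r * (1 / 20)) + s * Real.exp (r * (1 / 20)) + Hc * Real.exp (r * (1 / 20)) +
        (c0 * 0.31416 * Real.exp (r * (1 / 20)) + c0 * L * Real.exp (r * (1 / 20))) := by
    ring
  rw [e7] at h7
  linarith

/-! ### (3) the sharper exponent of a horizontal line -/

theorem b3_sin_ge7 {x : ℝ} (hx : 0 ≤ x) : x - x ^ 3 / 6 + x ^ 5 / 120 - x ^ 7 / 5040 ≤ Real.sin x := by
  have h : MonotoneOn (fun x : ℝ => Real.sin x - (x - x ^ 3 / 6 + x ^ 5 / 120 - x ^ 7 / 5040)) (Ici 0) := by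
    apply monotoneOn_of_deriv_nonneg (convex_Ici 0)
    · fun_prop
    · fun_prop
    · intro y hy
      have hy0 : 0 ≤ y := by
        rw [interior_Ici] at hy
        exact (mem_Ioi.1 hy).le
      have h1 : HasDerivAt (fun x : ℝ => Real.sin x - (x - x ^ 3 / 6 + x ^ 5 / 120 - x ^ 7 / 5040))
          (Real.cos y - (1 - y ^ 2 / 2 + y ^ 4 / 24 - y ^ 6 / 720)) y := by
        refine ((Real.hasDerivAt_sin y).fun_sub ((((hasDerivAt_id' y).fun_sub
          ((hasDerivAt_pow 3 y).div_const 6)).fun_add ((hasDerivAt_pow 5 y).div_const 120)).fun_sub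
          ((hasDerivAt_pow 7 y).div_const 5040))).congr_deriv ?_
        push_cast
        ring
      rw [h1.deriv]
      linarith [cos_ge_num hy0 le_rfl]
  have := h (mem_Ici.2 le_rfl) (mem_Ici.2 hx) hx
  simp at this
  linarith

theorem b3_cos_le8 {x : ℝ} (hx : 0 ≤ x) :
    Real.cos x ≤ 1 - x ^ 2 / 2 + x ^ 4 / 24 - x ^ 6 / 720 + x ^ 8 / 40320 := by
  have h : MonotoneOn (fun x : ℝ => (1 - x ^ 2 / 2 + x ^ 4 / 24 - x ^ 6 / 720 + x ^ 8 / 40320) - Real.cos x) (Ici 0) := by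
    apply monotoneOn_of_deriv_nonneg (convex_Ici 0)
    · fun_prop
    · fun_prop
    · intro y hy
      have hy0 : 0 ≤ y := by
        rw [interior_Ici] at hy
        exact (mem_Ioi.1 hy).le
      have h1 : HasDerivAt (fun x : ℝ => (1 - x ^ 2 / 2 + x ^ 4 / 24 - x ^ 6 / 720 + x ^ 8 / 40320) - Real.cos x)
          (Real.sin y - (y - y ^ 3 / 6 + y ^ 5 / 120 - y ^ 7 / 5040)) y := by
        refine (((((((hasDerivAt_pow 2 y).div_const 2).const_sub 1).fun_add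
          ((hasDerivAt_pow 4 y).div_const 24)).fun_sub ((hasDerivAt_pow 6 y).div_const 720)).fun_add
          ((hasDerivAt_pow 8 y).div_const 40320)).fun_sub (Real.hasDerivAt_cos y)).congr_deriv ?_
        push_cast
        ring
      rw [h1.deriv]
      linarith [b3_sin_ge7 hy0]
  have := h (mem_Ici.2 le_rfl) (mem_Ici.2 hx) hx
  simp at this
  linarith

/-- the polynomial inequality behind `b3_cosq` -/
private theorem poly_aux {q a : ℝ} (hq0 : 0 ≤ q) (hq1 : q ≤ 0.8) (ha0 : 0 ≤ a) (ha1 : a ≤ 1) :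
    (1 - a ^ 2 / 2 + a ^ 4 / 24 - a ^ 6 / 720 + a ^ 8 / 40320) + q * a ≤
      1 + q ^ 2 / 2 + q ^ 4 / 24 + q ^ 6 / 50 := by
  have a68 : a ^ 8 ≤ a ^ 6 := by
    have : a ^ 8 = a ^ 6 * a ^ 2 := by ring
    rw [this]
    exact mul_le_of_le_one_right (by positivity) (by nlinarith)
  have a6 : a ^ 8 / 40320 - a ^ 6 / 720 ≤ -(55 / 40320) * a ^ 6 := by linarith
  rcases le_total a q with h | h
  · -- `a ≤ q`
    have h1 : 0 ≤ (q - a) ^ 2 / 2 := by positivity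
    have h2 : a ^ 4 ≤ q ^ 4 := pow_le_pow_left₀ ha0 h 4
    have h3 : 0 ≤ a ^ 6 := by positivity
    have h4 : 0 ≤ q ^ 6 := by positivity
    nlinarith
  · obtain ⟨d, hd⟩ : ∃ d, d = a - q := ⟨_, rfl⟩
    have ea : a = q + d := by rw [hd]; ring
    have hd0 : 0 ≤ d := by rw [hd]; linarith
    have hd1 : d ≤ 1 - q := by rw [hd]; linarith
    have h6 : q ^ 6 + 6 * q ^ 5 * d ≤ a ^ 6 := by
      rw [ea]
      have e : (q + d) ^ 6 = q ^ 6 + 6 * q ^ 5 * d + (15 * q ^ 4 * d ^ 2 + 20 * q ^ 3 * d ^ 3 + 15 * q ^ 2 * d ^ 4 +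
        6 * q * d ^ 5 + d ^ 6) := by ring
      rw [e]
      have : 0 ≤ 15 * q ^ 4 * d ^ 2 + 20 * q ^ 3 * d ^ 3 + 15 * q ^ 2 * d ^ 4 + 6 * q * d ^ 5 + d ^ 6 := by positivity
      linarith
    -- `A = 1/2 - q²/4 - q d/6 - d²/24`, `B = q³/6 - 55 q⁵/6720`, `C = q⁶ (1/50 + 55/40320)`
    obtain ⟨A, hA⟩ : ∃ A, A = 1 / 2 - q ^ 2 / 4 - q * d / 6 - d ^ 2 / 24 := ⟨_, rfl⟩
    have hAq : 0.32506 * (1 - 0.0966 * q ^ 2) ≤ A := by
      rw [hA]
      have h1 : q * d ≤ q * (1 - q) := mul_le_mul_of_nonneg_left hd1 hq0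
      have h2 : d ^ 2 ≤ (1 - q) ^ 2 := pow_le_pow_left₀ hd0 hd1 2
      nlinarith [mul_nonneg hq0 (sub_nonneg.2 hq1)]
    have hA0 : 0 < A := lt_of_lt_of_le (by nlinarith) hAq
    have hB : (1 - 55 / 1120 * q ^ 2) ^ 2 ≤ 1 - 0.0966 * q ^ 2 := by
      have hq2 : q ^ 2 ≤ 0.64 := by nlinarith
      nlinarith [sq_nonneg q, mul_nonneg (sq_nonneg q) (sub_nonneg.2 hq2)]
    have key : 0 ≤ A * d ^ 2 - (q ^ 3 / 6 - 55 * q ^ 5 / 6720) * d + q ^ 6 * (1 / 50 + 55 / 40320) := by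
      -- `4 A * expr = (2 A d - B)^2 + 4 A C - B^2`
      have h1 : (q ^ 3 / 6 - 55 * q ^ 5 / 6720) ^ 2 ≤ 4 * A * (q ^ 6 * (1 / 50 + 55 / 40320)) := by
        have e1 : (q ^ 3 / 6 - 55 * q ^ 5 / 6720) ^ 2 = q ^ 6 / 36 * (1 - 55 / 1120 * q ^ 2) ^ 2 := by ring
        rw [e1]
        have h2 : q ^ 6 / 36 * (1 - 55 / 1120 * q ^ 2) ^ 2 ≤ q ^ 6 / 36 * (1 - 0.0966 * q ^ 2) :=
          mul_le_mul_of_nonneg_left hB (by positivity)
        have h3 : q ^ 6 * (0.32506 * (1 - 0.0966 * q ^ 2)) ≤ q ^ 6 * A :=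
          mul_le_mul_of_nonneg_left hAq (by positivity)
        have h4 : 0 ≤ q ^ 6 * (1 - 0.0966 * q ^ 2) := mul_nonneg (by positivity) (by nlinarith)
        have e2 : 4 * A * (q ^ 6 * (1 / 50 + 55 / 40320)) = (4 * (1 / 50 + 55 / 40320)) * (q ^ 6 * A) := by ring
        rw [e2]
        have h5 : (4 * (1 / 50 + 55 / 40320)) * (q ^ 6 * (0.32506 * (1 - 0.0966 * q ^ 2))) ≤
          (4 * (1 / 50 + 55 / 40320)) * (q ^ 6 * A) := mul_le_mul_of_nonneg_left h3 (by norm_num)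
        refine h2.trans (le_trans ?_ h5)
        have e3 : (4 * (1 / 50 + 55 / 40320)) * (q ^ 6 * (0.32506 * (1 - 0.0966 * q ^ 2))) -
          q ^ 6 / 36 * (1 - 0.0966 * q ^ 2) = (4 * (1 / 50 + 55 / 40320) * 0.32506 - 1 / 36) *
            (q ^ 6 * (1 - 0.0966 * q ^ 2)) := by ring
        have h6' : 0 ≤ (4 * (1 / 50 + 55 / 40320) * 0.32506 - 1 / 36 : ℝ) * (q ^ 6 * (1 - 0.0966 * q ^ 2)) :=
          mul_nonneg (by norm_num) h4
        linarith
      have h2 : 0 ≤ 4 * A * (A * d ^ 2 - (q ^ 3 / 6 - 55 * q ^ 5 / 6720) * d + q ^ 6 * (1 / 50 + 55 / 40320)) := by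
        have e : 4 * A * (A * d ^ 2 - (q ^ 3 / 6 - 55 * q ^ 5 / 6720) * d + q ^ 6 * (1 / 50 + 55 / 40320)) =
          (2 * A * d - (q ^ 3 / 6 - 55 * q ^ 5 / 6720)) ^ 2 +
            (4 * A * (q ^ 6 * (1 / 50 + 55 / 40320)) - (q ^ 3 / 6 - 55 * q ^ 5 / 6720) ^ 2) := by ring
        rw [e]
        have := sq_nonneg (2 * A * d - (q ^ 3 / 6 - 55 * q ^ 5 / 6720))
        linarith
      exact nonneg_of_mul_nonneg_right h2 (by linarith)
    have e : 1 + q ^ 2 / 2 + q ^ 4 / 24 + q ^ 6 / 50 - ((1 - a ^ 2 / 2 + a ^ 4 / 24) + q * a) =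
        A * d ^ 2 - q ^ 3 / 6 * d + q ^ 6 / 50 := by
      rw [hA, ea]; ring
    have h7 : -(55 / 40320) * a ^ 6 ≤ -(55 / 40320) * (q ^ 6 + 6 * q ^ 5 * d) := by linarith
    have e9 : A * d ^ 2 - (q ^ 3 / 6 - 55 * q ^ 5 / 6720) * d + q ^ 6 * (1 / 50 + 55 / 40320) =
      (A * d ^ 2 - q ^ 3 / 6 * d + q ^ 6 / 50) + 55 / 40320 * (q ^ 6 + 6 * q ^ 5 * d) := by ring
    rw [e9] at key
    linarith

theorem b3_cosq {a q : ℝ} (ha : |a| ≤ Real.pi / 2) (hq : 0 ≤ q) (hq1 : q ≤ 0.8) :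
    Real.cos a + q * a ≤ 1 + q ^ 2 / 2 + q ^ 4 / 24 + q ^ 6 / 50 := by
  have hpi := Real.pi_gt_d6
  have hpi' := Real.pi_lt_d6
  obtain ⟨ha1, ha2⟩ := abs_le.1 ha
  rcases le_total a 0 with h0 | h0
  · have h1 := Real.cos_le_one a
    have h2 : q * a ≤ 0 := mul_nonpos_of_nonneg_of_nonpos hq h0
    have h3 : 0 ≤ q ^ 2 / 2 + q ^ 4 / 24 + q ^ 6 / 50 := by positivity
    linarith
  rcases le_total a 1 with h1 | h1
  · have := b3_cos_le8 h0
    have := poly_aux hq hq1 h0 h1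
    linarith
  · -- `cos a + 0.8 a` is antitone on `[1, π/2]`
    have hanti : AntitoneOn (fun x : ℝ => Real.cos x + 0.8 * x) (Icc 1 (Real.pi / 2)) := by
      apply antitoneOn_of_deriv_nonpos (convex_Icc _ _)
      · fun_prop
      · fun_prop
      · intro y hy
        rw [interior_Icc] at hy
        have h2 : HasDerivAt (fun x : ℝ => Real.cos x + 0.8 * x) (-Real.sin y + 0.8 * 1) y :=
          (Real.hasDerivAt_cos y).fun_add ((hasDerivAt_id' y).const_mul 0.8)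
        rw [h2.deriv]
        have h3 : Real.sin 1 ≤ Real.sin y :=
          Real.sin_le_sin_of_le_of_le_pi_div_two (by linarith) hy.2.le hy.1.le
        have h4 := r1_sin_ge (x := 1) (by norm_num)
        norm_num at h4 ⊢
        linarith
    have h2 := hanti ⟨le_rfl, by linarith⟩ ⟨h1, ha2⟩ h1
    simp only at h2
    have h3 : (0.8 - q) * 1 ≤ (0.8 - q) * a := mul_le_mul_of_nonneg_left h1 (by linarith)
    have h4 := b3_cos_le8 (x := 1) (by norm_num)
    have h5 := poly_aux hq hq1 (a := 1) (by norm_num) le_rfl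
    linarith

/-- `gG` with the sharper last term, valid for `|p| e^{κ p} ≤ 0.8` -/
noncomputable def gH (κ p : ℝ) : ℝ :=
  Real.exp (-(κ * p)) + p ^ 2 * Real.exp (κ * p) / 2 + p ^ 4 * Real.exp (κ * p) ^ 3 / 24 +
    p ^ 6 * Real.exp (κ * p) ^ 5 / 50 + κ * p

private theorem chord' {c k1 k2 κ θ : ℝ} (h0 : 0 ≤ θ) (h1 : θ ≤ 1) (hκ : κ = (1 - θ) * k1 + θ * k2) :
    Real.exp (c * κ) ≤ (1 - θ) * Real.exp (c * k1) + θ * Real.exp (c * k2) := by
  have h := convexOn_exp.2 (mem_univ (c * k1)) (mem_univ (c * k2)) (by linarith : 0 ≤ 1 - θ) h0 (by ring)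
  simp only [smul_eq_mul] at h
  have e : c * κ = (1 - θ) * (c * k1) + θ * (c * k2) := by rw [hκ]; ring
  rw [e]
  exact h

theorem gH_le {κ : ℝ} (p k1 k2 g m1 m2 n1 n2 : ℝ) (hk1 : k1 ≤ κ) (hk2 : κ ≤ k2) (hk : k1 < k2)
    (hm1 : Real.exp (-(k1 * p)) ≤ m1) (hm2 : Real.exp (-(k2 * p)) ≤ m2)
    (hn1 : Real.exp (k1 * p) ≤ n1) (hn2 : Real.exp (k2 * p) ≤ n2)
    (h1 : m1 + p ^ 2 * n1 / 2 + p ^ 4 * n1 ^ 3 / 24 + p ^ 6 * n1 ^ 5 / 50 + k1 * p ≤ g)
    (h2 : m2 + p ^ 2 * n2 / 2 + p ^ 4 * n2 ^ 3 / 24 + p ^ 6 * n2 ^ 5 / 50 + k2 * p ≤ g) : gH κ p ≤ g := by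
  obtain ⟨θ, hθ⟩ : ∃ θ, θ = (κ - k1) / (k2 - k1) := ⟨_, rfl⟩
  have hd : 0 < k2 - k1 := by linarith
  have h0 : 0 ≤ θ := by rw [hθ]; exact div_nonneg (by linarith) hd.le
  have h01 : θ ≤ 1 := by rw [hθ, div_le_one hd]; linarith
  have hκ : κ = (1 - θ) * k1 + θ * k2 := by rw [hθ]; field_simp; ring
  have c1 := chord' (c := -p) h0 h01 hκ
  have c2 := chord' (c := p) h0 h01 hκ
  have c3 := chord' (c := 3 * p) h0 h01 hκ
  have c4 := chord' (c := 5 * p) h0 h01 hκ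
  have e3 : ∀ x, Real.exp (3 * p * x) = Real.exp (x * p) ^ 3 := by
    intro x; rw [← Real.exp_nat_mul]; congr 1; push_cast; ring
  have e5 : ∀ x, Real.exp (5 * p * x) = Real.exp (x * p) ^ 5 := by
    intro x; rw [← Real.exp_nat_mul]; congr 1; push_cast; ring
  have e1 : ∀ x, Real.exp (-p * x) = Real.exp (-(x * p)) := by intro x; congr 1; ring
  have e2 : ∀ x, Real.exp (p * x) = Real.exp (x * p) := by intro x; congr 1; ring
  rw [e3, e3, e3] at c3
  rw [e5, e5, e5] at c4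
  rw [e1, e1, e1] at c1
  rw [e2, e2, e2] at c2
  have q1 : gH k1 p ≤ g := by
    refine le_trans ?_ h1
    unfold gH
    have := Real.exp_pos (k1 * p)
    gcongr
  have q2 : gH k2 p ≤ g := by
    refine le_trans ?_ h2
    unfold gH
    have := Real.exp_pos (k2 * p)
    gcongr
  unfold gH at q1 q2 ⊢
  have p2 : 0 ≤ p ^ 2 := sq_nonneg p
  have p4 : 0 ≤ p ^ 4 := by positivity
  have p6 : 0 ≤ p ^ 6 := by positivity
  have d2 := mul_le_mul_of_nonneg_left c2 p2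
  have d3 := mul_le_mul_of_nonneg_left c3 p4
  have d4 := mul_le_mul_of_nonneg_left c4 p6
  have w1 := mul_le_mul_of_nonneg_left q1 (by linarith : 0 ≤ 1 - θ)
  have w2 := mul_le_mul_of_nonneg_left q2 h0
  have ek : κ * p = (1 - θ) * (k1 * p) + θ * (k2 * p) := by
    conv_lhs => rw [hκ]
    ring
  linarith only [c1, d2, d3, d4, w1, w2, ek]

theorem main6H {κ p a : ℝ} (ha : |a| ≤ Real.pi / 2) (hp : |p| * Real.exp (κ * p) ≤ 0.8) :
    Real.exp (-(κ * p)) * Real.cos a + p * a + κ * p ≤ gH κ p := by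
  have hee : Real.exp (-(κ * p)) * Real.exp (κ * p) = 1 := by rw [← Real.exp_add, neg_add_cancel, Real.exp_zero]
  have hE := Real.exp_pos (κ * p)
  have hE' := Real.exp_pos (-(κ * p))
  unfold gH
  rcases le_total 0 p with hp0 | hp0
  · rw [abs_of_nonneg hp0] at hp
    have h2 := b3_cosq ha (mul_nonneg hp0 hE.le) hp
    have h4 := mul_le_mul_of_nonneg_left h2 hE'.le
    have e1 : Real.exp (-(κ * p)) * (Real.cos a + p * Real.exp (κ * p) * a) =
        Real.exp (-(κ * p)) * Real.cos a + (Real.exp (-(κ * p)) * Real.exp (κ * p)) * (p * a) := by ring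
    have e2 : Real.exp (-(κ * p)) * (1 + (p * Real.exp (κ * p)) ^ 2 / 2 + (p * Real.exp (κ * p)) ^ 4 / 24 +
        (p * Real.exp (κ * p)) ^ 6 / 50) =
        Real.exp (-(κ * p)) + (Real.exp (-(κ * p)) * Real.exp (κ * p)) * (p ^ 2 * Real.exp (κ * p) / 2) +
        (Real.exp (-(κ * p)) * Real.exp (κ * p)) * (p ^ 4 * Real.exp (κ * p) ^ 3 / 24) +
        (Real.exp (-(κ * p)) * Real.exp (κ * p)) * (p ^ 6 * Real.exp (κ * p) ^ 5 / 50) := by ring
    rw [e1, e2, hee] at h4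
    linarith
  · rw [abs_of_nonpos hp0] at hp
    have h2 := b3_cosq (a := -a) (q := -p * Real.exp (κ * p)) (by rwa [abs_neg]) (mul_nonneg (by linarith) hE.le) hp
    rw [Real.cos_neg] at h2
    have h4 := mul_le_mul_of_nonneg_left h2 hE'.le
    have e1 : Real.exp (-(κ * p)) * (Real.cos a + -p * Real.exp (κ * p) * -a) =
        Real.exp (-(κ * p)) * Real.cos a + (Real.exp (-(κ * p)) * Real.exp (κ * p)) * (p * a) := by ring
    have e2 : Real.exp (-(κ * p)) * (1 + (-p * Real.exp (κ * p)) ^ 2 / 2 + (-p * Real.exp (κ * p)) ^ 4 / 24 +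
        (-p * Real.exp (κ * p)) ^ 6 / 50) =
        Real.exp (-(κ * p)) + (Real.exp (-(κ * p)) * Real.exp (κ * p)) * (p ^ 2 * Real.exp (κ * p) / 2) +
        (Real.exp (-(κ * p)) * Real.exp (κ * p)) * (p ^ 4 * Real.exp (κ * p) ^ 3 / 24) +
        (Real.exp (-(κ * p)) * Real.exp (κ * p)) * (p ^ 6 * Real.exp (κ * p) ^ 5 / 50) := by ring
    rw [e1, e2, hee] at h4
    linarith

theorem V_upH {κ t g : ℝ} (h : DomR κ t) (p E : ℝ) (hE : Real.exp (κ * p) ≤ E) (hp : |p| * E ≤ 0.8)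
    (hg : gH κ p ≤ g) : sE κ t ≤ g - p * (t + κ) := by
  have hk := h.1
  have h1 := fen_up h (κ * p)
  have h2 := main6H (κ := κ) (p := p) (sa_abs h).le
    ((mul_le_mul_of_nonneg_left hE (abs_nonneg p)).trans hp)
  have h3 : κ * p / κ = p := by field_simp
  rw [h3] at h1
  linarith

/-- main term of the far lemmas with `gH` -/
theorem b3_main {β r t κ : ℝ} (p g c M k1 : ℝ) (hr : 0 < r) (hκ : κ = β * r) (hk0 : 0 < k1)
    (hk1 : k1 ≤ κ) (hp : |p| * Real.exp (κ * p) ≤ 0.8) (hg : gH κ p ≤ g) (hM : M ≤ Real.exp (-(κ * p)) ^ 2)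
    (hM0 : p ^ 2 < M) (hc0 : 0 < c) (hc : 9 ≤ 4 * c ^ 4 * (k1 ^ 2 * (M - p ^ 2))) :
    ∃ w, -(Real.pi / 2) < w ∧ w < Real.pi / 2 ∧ β * r * Real.sin w = (κ * p) * Real.exp (κ * p) ∧
      Real.sqrt (3 / (2 * (β * r) * (Real.exp (-(κ * p)) * Real.cos w))) *
        Real.exp (r * (Real.exp (-(κ * p)) * Real.cos w + (κ * p) * (w - t) / (β * r))) ≤
      c * Real.exp (r * (g - p * (t + κ))) := by
  have hκp : 0 < κ := hk0.trans_le hk1
  have hee : Real.exp (-(κ * p)) * Real.exp (κ * p) = 1 := by rw [← Real.exp_add, neg_add_cancel, Real.exp_zero]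
  have hE := Real.exp_pos (κ * p)
  have hE' := Real.exp_pos (-(κ * p))
  obtain ⟨q, hq⟩ : ∃ q, q = p * Real.exp (κ * p) := ⟨_, rfl⟩
  have hpq : Real.exp (-(κ * p)) * q = p := by rw [hq]; linear_combination p * hee
  have hq2 : q ^ 2 < 1 := by
    have h1 : (Real.exp (-(κ * p)) * q) ^ 2 < Real.exp (-(κ * p)) ^ 2 := by rw [hpq]; linarith
    rw [mul_pow] at h1
    have h2 : 0 < Real.exp (-(κ * p)) ^ 2 := by positivity
    by_contra hcon
    push Not at hcon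
    nlinarith
  have hq1 : -1 < q ∧ q < 1 := by
    constructor <;> nlinarith
  obtain ⟨w, hw⟩ : ∃ w, w = Real.arcsin q := ⟨_, rfl⟩
  have hsw : Real.sin w = q := by rw [hw]; exact Real.sin_arcsin hq1.1.le hq1.2.le
  have hw1 : w < Real.pi / 2 := by rw [hw]; exact Real.arcsin_lt_pi_div_two.2 hq1.2
  have hw0 : -(Real.pi / 2) < w := by rw [hw]; exact Real.neg_pi_div_two_lt_arcsin.2 hq1.1
  have hcw : 0 < Real.cos w := Real.cos_pos_of_mem_Ioo ⟨by linarith, hw1⟩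
  refine ⟨w, hw0, hw1, ?_, ?_⟩
  · rw [hsw, ← hκ, hq]; ring
  rw [← hκ]
  obtain ⟨n, hn⟩ : ∃ n, n = κ * (Real.exp (-(κ * p)) * Real.cos w) := ⟨_, rfl⟩
  have hn0 : 0 < n := by rw [hn]; positivity
  have hn2 : k1 ^ 2 * (M - p ^ 2) ≤ n ^ 2 := by
    have e1 : n ^ 2 = κ ^ 2 * (Real.exp (-(κ * p)) ^ 2 - p ^ 2) := by
      have h1 := Real.sin_sq_add_cos_sq w
      rw [hsw] at h1
      have h2 : Real.cos w ^ 2 = 1 - q ^ 2 := by linarith
      calc n ^ 2 = κ ^ 2 * (Real.exp (-(κ * p)) ^ 2 * Real.cos w ^ 2) := by rw [hn]; ring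
        _ = κ ^ 2 * (Real.exp (-(κ * p)) ^ 2 - (Real.exp (-(κ * p)) * q) ^ 2) := by rw [h2]; ring
        _ = _ := by rw [hpq]
    rw [e1]
    have h3 : k1 ^ 2 ≤ κ ^ 2 := pow_le_pow_left₀ hk0.le hk1 2
    exact mul_le_mul h3 (by linarith) (by linarith) (by positivity)
  apply mul_le_mul _ _ (Real.exp_pos _).le hc0.le
  · rw [Real.sqrt_le_left hc0.le]
    have e1 : 2 * κ * (Real.exp (-(κ * p)) * Real.cos w) = 2 * n := by rw [hn]; ring
    rw [e1, div_le_iff₀ (by positivity)]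
    by_contra hcon
    push Not at hcon
    have h1 : (c ^ 2 * (2 * n)) ^ 2 < 3 ^ 2 := pow_lt_pow_left₀ hcon (by positivity) (by norm_num)
    have h2 : (c ^ 2 * (2 * n)) ^ 2 = 4 * c ^ 4 * n ^ 2 := by ring
    have h3 := mul_le_mul_of_nonneg_left hn2 (by positivity : 0 ≤ 4 * c ^ 4)
    rw [h2] at h1
    linarith
  · apply Real.exp_le_exp.2
    apply mul_le_mul_of_nonneg_left _ hr.le
    have h1 := main6H (κ := κ) (p := p) (a := w) (abs_le.2 ⟨hw0.le, hw1.le⟩) hp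
    have h2 : κ * p * (w - t) / κ = p * w - p * t := by field_simp
    rw [h2]
    linarith

/-- `v5_HU` with `gH`; extra hypotheses `hEp`, `hpE` -/
theorem b3_HUH {β r t κ : ℝ} (p Ep k1 k2 ta tb g c M s c0 d0 m0 E Hc K : ℝ) (hβ : 0 < β) (hr : 10 ≤ r) (hκ : κ = β * r)
    (hk0 : 0 < k1) (hk1 : k1 ≤ κ) (hk2 : κ ≤ k2) (hta : ta ≤ t + κ) (htb : t + κ ≤ tb) (hp : p ≤ 0)
    (hp1 : -1 ≤ k2 * p) (hEp : Real.exp (κ * p) ≤ Ep) (hpE : |p| * Ep ≤ 0.8)
    (hg : gH κ p ≤ g) (hM : M ≤ Real.exp (-(κ * p)) ^ 2) (hM0 : p ^ 2 < M) (hc0 : 0 < c)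
    (hc : 9 ≤ 4 * c ^ 4 * (k1 ^ 2 * (M - p ^ 2)))
    (hd0 : d0 ≤ 4.712 + ta - k2) (hd00 : 0 < d0) (ht : tb ≤ 1.5707 + k1)
    (hs0 : 0 < s) (hs : k2 ≤ 62.831 * s ^ 2) (hc00 : 0 < c0) (hcc0 : 10 ≤ 17.078 * k1 * c0 ^ 2)
    (hm0 : 1.5708 + tb - k1 ≤ m0) (hm00 : 0 ≤ m0) (hE : 1 / 20 - p * m0 ≤ E)
    (hH : C0 β * HUMP β r t ≤ Hc) (hK : s / d0 + s + Hc + c0 * (1.31416 - k2 * p) ≤ K) :
    ‖F (cexp (I * β)) (r * cexp (I * ((t + β / 2 : ℝ) : ℂ)))‖ ≤
      c * Real.exp (r * (g - p * (t + κ))) + K * Real.exp (r * E) := by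
  have hpi := Real.pi_gt_d6
  have hpi' := Real.pi_lt_d6
  have hr0 : 0 < r := by linarith
  have hκp : 0 < κ := hk0.trans_le hk1
  have ht1 : -(3 * Real.pi / 2) < t := by norm_num at hd0 ⊢; linarith
  have ht2 : t ≤ Real.pi / 2 := by norm_num at ht ⊢; linarith
  obtain ⟨w, hw0, hw1, hw2, hmain⟩ := b3_main (β := β) (t := t) p g c M k1 hr0 hκ hk0 hk1
    ((mul_le_mul_of_nonneg_left hEp (abs_nonneg p)).trans hpE) hg hM hM0 hc0 hc
  have hv1 : k2 * p ≤ κ * p := mul_le_mul_of_nonpos_right hk2 hp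
  have hv : -1 ≤ κ * p := by linarith
  have hv0 : κ * p ≤ 0 := mul_nonpos_of_nonneg_of_nonpos hκp.le hp
  have hb := far_HU hβ hr0 ht1 ht2 hv hw0 hw1 hw2
  refine hb.trans ?_
  have hC := C0_pos hβ
  have hCb := v5_C0b s hβ hr hκ hk2 hs0 hs
  have hC0 := v5_C0 c0 hβ hr hκ hk0 hk1 hc00 hcc0
  have hCb0 : 0 ≤ C0 β * β := by positivity
  have hE0 : 1 / 20 ≤ E := by
    have : 0 ≤ -p * m0 := mul_nonneg (by linarith) hm00
    linarith
  have hEE : Real.exp (r / 20) ≤ Real.exp (r * E) := by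
    apply Real.exp_le_exp.2
    have := mul_le_mul_of_nonneg_left hE0 hr0.le
    linarith
  have h1E : 1 ≤ Real.exp (r * E) := Real.one_le_exp (by positivity)
  have t1 : C0 β * (β / (3 * Real.pi / 2 + t)) ≤ s / d0 * Real.exp (r * E) := by
    have h2 : C0 β * (β / (3 * Real.pi / 2 + t)) ≤ s / d0 := by
      rw [← mul_div_assoc]
      apply div_le_div₀ hs0.le hCb hd00
      norm_num at hd0 ⊢; linarith
    exact h2.trans (le_mul_of_one_le_right (by positivity) h1E)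
  have t2 : C0 β * (Real.pi / r) ≤ c0 * 0.31416 * Real.exp (r * E) := by
    have h2 : Real.pi / r ≤ 0.31416 := by
      rw [div_le_iff₀ hr0]
      norm_num at hpi' ⊢; linarith
    calc C0 β * (Real.pi / r) ≤ (c0 * Real.exp (r / 20)) * 0.31416 := mul_le_mul hC0 h2 (by positivity) (by positivity)
      _ ≤ (c0 * Real.exp (r * E)) * 0.31416 := by gcongr
      _ = _ := by ring
  have t3 : C0 β * (|κ * p| * max 1 (Real.exp (-(κ * p * (Real.pi / 2 + t) / β)))) ≤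
      c0 * (-(k2 * p)) * Real.exp (r * E) := by
    rw [abs_of_nonpos hv0]
    have e1 : -(κ * p * (Real.pi / 2 + t) / β) = r * (-p * (Real.pi / 2 + t)) := by rw [hκ]; field_simp
    rw [e1]
    have h2 : max 1 (Real.exp (r * (-p * (Real.pi / 2 + t)))) ≤ Real.exp (r * (-p * m0)) := by
      apply max_le
      · exact Real.one_le_exp (mul_nonneg hr0.le (mul_nonneg (by linarith) hm00))
      · apply Real.exp_le_exp.2
        apply mul_le_mul_of_nonneg_left _ hr0.le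
        apply mul_le_mul_of_nonneg_left _ (by linarith)
        norm_num at hm0 ⊢; linarith
    calc C0 β * (-(κ * p) * max 1 (Real.exp (r * (-p * (Real.pi / 2 + t)))))
        ≤ (c0 * Real.exp (r / 20)) * (-(k2 * p) * Real.exp (r * (-p * m0))) := by
          have h3 : 0 ≤ -(κ * p) * max 1 (Real.exp (r * (-p * (Real.pi / 2 + t)))) :=
            mul_nonneg (by linarith) (le_trans zero_le_one (le_max_left _ _))
          apply mul_le_mul hC0 _ h3 (by positivity)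
          exact mul_le_mul (by linarith) h2 (le_trans zero_le_one (le_max_left _ _)) (by linarith)
      _ = c0 * (-(k2 * p)) * (Real.exp (r / 20) * Real.exp (r * (-p * m0))) := by ring
      _ ≤ c0 * (-(k2 * p)) * Real.exp (r * E) := by
          apply mul_le_mul_of_nonneg_left _ (mul_nonneg hc00.le (by linarith))
          rw [← Real.exp_add]
          apply Real.exp_le_exp.2
          have := mul_le_mul_of_nonneg_left hE hr0.le
          linarith
  have t4 : C0 β * ((1 + κ * p) * Real.exp (κ * p * (Real.pi / 2 - t) / β)) ≤ c0 * 1 * Real.exp (r * E) := by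
    have h2 : Real.exp (κ * p * (Real.pi / 2 - t) / β) ≤ 1 := by
      apply Real.exp_le_one_iff.2
      apply div_nonpos_of_nonpos_of_nonneg _ hβ.le
      exact mul_nonpos_of_nonpos_of_nonneg hv0 (by linarith)
    have h3 : (1 + κ * p) * Real.exp (κ * p * (Real.pi / 2 - t) / β) ≤ 1 := by
      calc (1 + κ * p) * Real.exp (κ * p * (Real.pi / 2 - t) / β) ≤ 1 * 1 :=
            mul_le_mul (by linarith) h2 (Real.exp_pos _).le (by norm_num)
        _ = 1 := one_mul _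
    have h4 : 0 ≤ (1 + κ * p) * Real.exp (κ * p * (Real.pi / 2 - t) / β) :=
      mul_nonneg (by linarith) (Real.exp_pos _).le
    calc C0 β * ((1 + κ * p) * Real.exp (κ * p * (Real.pi / 2 - t) / β)) ≤ (c0 * Real.exp (r / 20)) * 1 :=
          mul_le_mul hC0 h3 h4 (by positivity)
      _ ≤ (c0 * Real.exp (r * E)) * 1 := by gcongr
      _ = _ := by ring
  have t5 : C0 β * (β * Real.exp (-((Real.pi / 2 - t) / β))) ≤ s * Real.exp (r * E) := by
    have h1 : Real.exp (-((Real.pi / 2 - t) / β)) ≤ 1 := by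
      apply Real.exp_le_one_iff.2
      have : 0 ≤ (Real.pi / 2 - t) / β := div_nonneg (by linarith) hβ.le
      linarith
    calc C0 β * (β * Real.exp (-((Real.pi / 2 - t) / β))) = (C0 β * β) * Real.exp (-((Real.pi / 2 - t) / β)) := by ring
      _ ≤ s * 1 := mul_le_mul hCb h1 (Real.exp_pos _).le hs0.le
      _ ≤ s * Real.exp (r * E) := mul_le_mul_of_nonneg_left h1E hs0.le
  have hHc0 : 0 ≤ Hc := by
    refine le_trans ?_ hH
    unfold HUMP
    positivity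
  have t6 : C0 β * HUMP β r t ≤ Hc * Real.exp (r * E) := hH.trans (le_mul_of_one_le_right hHc0 h1E)
  have h7 := mul_le_mul_of_nonneg_right hK (Real.exp_pos (r * E)).le
  have e8 : ∀ a b c d e f : ℝ, C0 β * (a + b + c + d + e + f) =
      C0 β * a + C0 β * b + C0 β * c + C0 β * d + C0 β * e + C0 β * f := by
    intro a b c d e f; ring
  rw [e8]
  have e7 : (s / d0 + s + Hc + c0 * (1.31416 - k2 * p)) * Real.exp (r * E) =
      s / d0 * Real.exp (r * E) + s * Real.exp (r * E) + Hc * Real.exp (r * E) +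
        (c0 * 0.31416 * Real.exp (r * E) + c0 * 1 * Real.exp (r * E) + c0 * (-(k2 * p)) * Real.exp (r * E)) := by
    ring
  rw [e7] at h7
  linarith

end Sok
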