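import Pool.Agent.Lib.MP_816dec_an.R1V7
import Pool.Agent.Lib.MP_816dec_an.R1Cell
import Pool.Agent.Lib.MP_816dec_an.R1All

/-!
MP_816dec_an (A3, row R1), SINGLE CASE `b = 3`, `κ ≥ 3/10`: generic lemmas for the cells.
-/

set_option autoImplicit false

open Complex Set Filter Topology Metric

namespace Sok

/-- `h = 2π/3` numerically -/
theorem b3_h {h : ℝ} (hh : h = 2 * Real.pi / (3 : ℕ)) : 2.09439 ≤ h ∧ h ≤ 2.0944 ∧ 0 < h := by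
  have h1 := Real.pi_gt_d6
  have h2 := Real.pi_lt_d6
  push_cast at hh
  norm_num at h1 h2 ⊢
  refine ⟨?_, ?_, ?_⟩ <;> rw [hh] <;> linarith

theorem b3_X0 {β r h t : ℝ} : ‖Xf β r h t 0‖ =
    ‖F (cexp (I * β)) (r * cexp (I * (((t - h) + β / 2 : ℝ) : ℂ)))‖ := by
  unfold Xf
  congr 5
  push_cast
  ring

theorem b3_X1 {β r h t : ℝ} : ‖Xf β r h t 1‖ =
    ‖F (cexp (I * β)) (r * cexp (I * ((t + β / 2 : ℝ) : ℂ)))‖ := by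
  unfold Xf
  congr 5
  push_cast
  ring

theorem b3_Xm {β r h t : ℝ} (hh : h = 2 * Real.pi / (3 : ℕ)) : ‖Xf β r h t (-1)‖ =
    ‖F (cexp (I * β)) (r * cexp (I * (((t + h) + β / 2 : ℝ) : ℂ)))‖ := by
  rw [Xf_period 1]
  congr 5
  rw [hh]
  push_cast
  ring

/-- comparison of a two term bound with a lower bound -/
theorem b3_cmp {r c E1 K E2 ℓ V Y X : ℝ} (qa δa qb δb ea eb e : ℝ) (hr : 10 ≤ r)
    (hX : X ≤ c * Real.exp (r * E1) + K * Real.exp (r * E2)) (hY : ℓ * Real.exp (r * V) ≤ Y) (hl : 0 < ℓ)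
    (hc : 0 ≤ c) (hK : 0 ≤ K) (hδa : 0 ≤ δa) (hEa : E1 ≤ V - δa) (hqa : Real.exp (-(10 * δa)) ≤ qa)
    (ha : c * qa ≤ ea * ℓ) (hδb : 0 ≤ δb) (hEb : E2 ≤ V - δb) (hqb : Real.exp (-(10 * δb)) ≤ qb)
    (hb : K * qb ≤ eb * ℓ) (he : ea + eb ≤ e) : X ≤ e * Y := by
  have h1 := v5_term qa δa hr hc hY hδa hEa hqa hl ha
  have h2 := v5_term qb δb hr hK hY hδb hEb hqb hl hb
  have hY0 : 0 ≤ Y := le_trans (by positivity) hY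
  calc X ≤ c * Real.exp (r * E1) + K * Real.exp (r * E2) := hX
    _ ≤ ea * Y + eb * Y := add_le_add h1 h2
    _ = (ea + eb) * Y := by ring
    _ ≤ e * Y := mul_le_mul_of_nonneg_right he hY0

/-- version with one term only -/
theorem b3_cmp1 {r K E2 ℓ V Y X : ℝ} (qb δb e : ℝ) (hr : 10 ≤ r)
    (hX : X ≤ K * Real.exp (r * E2)) (hY : ℓ * Real.exp (r * V) ≤ Y) (hl : 0 < ℓ)
    (hK : 0 ≤ K) (hδb : 0 ≤ δb) (hEb : E2 ≤ V - δb) (hqb : Real.exp (-(10 * δb)) ≤ qb)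
    (hb : K * qb ≤ e * ℓ) : X ≤ e * Y :=
  hX.trans (v5_term qb δb hr hK hY hδb hEb hqb hl hb)

/-- conclusion on the outer segments, `Y` the dominant copy -/
theorem b3_out1 {X0 X1 X2 ℓ V r : ℝ} (e0 e2 : ℝ) (hY : ℓ * Real.exp (r * V) ≤ X1) (hl : 0 < ℓ) (h0 : X0 ≤ e0 * X1)
    (h2 : X2 ≤ e2 * X1) (he : e0 + e2 < 1) : X2 < |X1 - X0| := by
  have hp : 0 < X1 := lt_of_lt_of_le (by positivity) hY
  have h1 : (e0 + e2) * X1 < 1 * X1 := mul_lt_mul_of_pos_right he hp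
  refine lt_of_lt_of_le ?_ (le_abs_self _)
  linarith

theorem b3_out0 {X0 X1 X2 ℓ V r : ℝ} (e1 e2 : ℝ) (hY : ℓ * Real.exp (r * V) ≤ X0) (hl : 0 < ℓ) (h1 : X1 ≤ e1 * X0)
    (h2 : X2 ≤ e2 * X0) (he : e1 + e2 < 1) : X2 < |X1 - X0| := by
  rw [abs_sub_comm]
  exact b3_out1 e1 e2 hY hl h1 h2 he

/-- lower bound of a near copy with a numerical exponent -/
theorem b3_lo {β r h t κ : ℝ} (hβ : 0 < β) (hr : 10 ≤ r) (hκ : κ = β * r) {k : ℤ} {t' : ℝ}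
    (ht : t' = t + (k - 1) * h) (hD : DomR κ t') (ε D ℓ V : ℝ) (hε : ε ≤ 1)
    (hJ : ‖HH β (sg κ t') - 1‖ ≤ ε) (hd : sD κ t' ≤ D) (hl0 : 0 < ℓ) (hl : ℓ ^ 4 * D ≤ (1 - ε) ^ 4)
    (hV : V ≤ sE κ t') : ℓ * Real.exp (r * V) ≤ ‖Xf β r h t k‖ := by
  refine le_trans ?_ (v5_Jlo hβ hκ ht hD ε D ℓ hε hJ hd hl)
  apply mul_le_mul_of_nonneg_left _ hl0.le
  exact Real.exp_le_exp.2 (mul_le_mul_of_nonneg_left hV (by linarith))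

/-- upper bound of a near copy with a numerical exponent -/
theorem b3_up {β r h t κ : ℝ} (hβ : 0 < β) (hr : 10 ≤ r) (hκ : κ = β * r) {k : ℤ} {t' : ℝ}
    (ht : t' = t + (k - 1) * h) (hD : DomR κ t') (ε D u V : ℝ)
    (hJ : ‖HH β (sg κ t') - 1‖ ≤ ε) (hd : D ≤ sD κ t') (hu0 : 0 ≤ u) (hu : (1 + ε) ^ 4 ≤ u ^ 4 * D)
    (hV : sE κ t' ≤ V) : ‖Xf β r h t k‖ ≤ u * Real.exp (r * V) := by
  refine (v5_Jup hβ hκ ht hD ε D u hJ hd hu0 hu).trans ?_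
  apply mul_le_mul_of_nonneg_left _ hu0
  exact Real.exp_le_exp.2 (mul_le_mul_of_nonneg_left hV (by linarith))

/-- Fenchel lower bound of `sE` with numerals -/
theorem b3_Vlo {κ t : ℝ} (h : DomR κ t) (k1 k2 ta tb n Ln u c Lc V : ℝ) (hk1 : k1 ≤ κ) (hk2 : κ ≤ k2)
    (hta : ta ≤ t + κ) (htb : t + κ ≤ tb) (hn : 0 < n) (hLn : n ≤ Real.exp Ln)
    (u1 : tb - k1 * (1 - n) ≤ u) (u2 : tb - k2 * (1 - n) ≤ u) (u3 : -u ≤ ta - k1 * (1 - n))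
    (u4 : -u ≤ ta - k2 * (1 - n)) (hu0 : 0 ≤ u) (hu : u ≤ 1.57) (hc : c ≤ 1 - u ^ 2 / 2 + u ^ 4 / 24 - u ^ 6 / 720)
    (hc0 : 0 < c) (hLc : Real.exp (-Lc) ≤ c) (hV : V ≤ n * (1 - Ln - Lc)) : V ≤ sE κ t := by
  have hk := h.1
  have hpi := Real.pi_gt_d6
  obtain ⟨w, hw⟩ : ∃ w, w = t + κ * n := ⟨_, rfl⟩
  have e : w = (t + κ) - κ * (1 - n) := by rw [hw]; ring
  have b1 : w ≤ u := by
    rw [e]
    rcases le_total n 1 with h1 | h1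
    · have := mul_le_mul_of_nonneg_right hk1 (by linarith : 0 ≤ 1 - n)
      linarith
    · have := mul_le_mul_of_nonpos_right hk2 (by linarith : 1 - n ≤ 0)
      linarith
  have b2 : -u ≤ w := by
    rw [e]
    rcases le_total n 1 with h1 | h1
    · have := mul_le_mul_of_nonneg_right hk2 (by linarith : 0 ≤ 1 - n)
      linarith
    · have := mul_le_mul_of_nonpos_right hk1 (by linarith : 1 - n ≤ 0)
      linarith
  have hwa : |w| ≤ u := abs_le.2 ⟨b2, b1⟩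
  have hwp : |w| < Real.pi / 2 := by
    refine lt_of_le_of_lt (hwa.trans hu) ?_
    norm_num at hpi ⊢; linarith
  have h1 := fen_low h (t' := t) hn hwp (by rw [hw]; ring)
  have hcw : c ≤ Real.cos w := by
    refine (cos_ge_num hu0 hc).trans ?_
    rw [← Real.cos_abs w]
    apply Real.cos_le_cos_of_nonneg_of_le_pi (abs_nonneg _) _ hwa
    norm_num at hpi ⊢; linarith
  have h2 : Real.log n ≤ Ln := by
    rw [← Real.log_exp Ln]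
    exact Real.log_le_log hn hLn
  have h3 : -Lc ≤ Real.log (Real.cos w) := by
    rw [← Real.log_exp (-Lc)]
    exact Real.log_le_log (Real.exp_pos _) (hLc.trans hcw)
  have h4 : n * (1 - Ln - Lc) ≤ n * (1 - Real.log n + Real.log (Real.cos w)) :=
    mul_le_mul_of_nonneg_left (by linarith) hn.le
  rw [sub_self, mul_zero, add_zero] at h1
  linarith

/-- `DomR` -/
theorem b3_dom {κ t : ℝ} (hk : 0.3 ≤ κ) (h1 : t < 1.5707) (h2 : 0.3679 ≤ κ ∨ -1.5707 < t) : DomR κ t := by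
  have hpi := Real.pi_gt_d6
  refine ⟨by linarith, by norm_num at h1 ⊢; linarith, ?_⟩
  rcases h2 with h | h
  · left
    have h3 := Real.exp_neg_one_lt_d9
    norm_num at h h3 ⊢
    linarith
  · right
    norm_num at h ⊢; linarith

/-- the far copy `-1`, far left half plane, numerical exponent (helper lemma `v5_UD`) -/
theorem b3_UD {β r h t κ : ℝ} (k1 k2 ta tb δ c0 E Gc K E' : ℝ) (hh : h = 2 * Real.pi / (3 : ℕ))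
    (hβ : 0 < β) (hr : 10 ≤ r) (hκ : κ = β * r) (hk0 : 0 < k1) (hk1 : k1 ≤ κ) (hk2 : κ ≤ k2) (hta : ta ≤ (t + h) + κ)
    (htb : (t + h) + κ ≤ tb)
    (hδ : 0 < δ) (hδ1 : δ ≤ 1.57) (hδt : 1.5708 - δ < ta - k2) (htm' : tb ≤ 4.712 + k1)
    (hc0 : 1 ≤ c0 ^ 2 * (6.2831 * k1)) (hc00 : 0 ≤ c0)
    (hE : δ ≤ E) (hE1 : tb - 5.712 + 1.7183 * k2 ≤ E * k2) (hE2 : E ≤ 1.7183)
    (hGc : c0 * (k2 / 10 / (ta - k2 - 1.5708 + δ) + δ + 3.1416 / 10 + 2 + 2 * (k2 / 10)) ≤ Gc)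
    (hK : 1.9181 * Gc ≤ K) (hE' : E + 1 / 20 ≤ E') (hK0 : 0 ≤ K) :
    ‖Xf β r h t (-1)‖ ≤ K * Real.exp (r * E') := by
  rw [b3_Xm hh]
  have h1 := v5_UD k1 k2 ta tb δ c0 E Gc K hβ hr hκ hk0 hk1 hk2 hta htb hδ hδ1 hδt htm' hc0 hc00 hE hE1 hE2 hGc hK
  try rw [zero_mul, zero_add] at h1
  refine h1.trans (mul_le_mul_of_nonneg_left ?_ hK0)
  exact Real.exp_le_exp.2 (mul_le_mul_of_nonneg_left hE' (by linarith))

/-- copy `1`, left half plane -/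
theorem b3_UD1 {β r h t κ : ℝ} (k1 k2 ta tb δ c0 E Gc K E' : ℝ)
    (hβ : 0 < β) (hr : 10 ≤ r) (hκ : κ = β * r) (hk0 : 0 < k1) (hk1 : k1 ≤ κ) (hk2 : κ ≤ k2) (hta : ta ≤ t + κ)
    (htb : t + κ ≤ tb)
    (hδ : 0 < δ) (hδ1 : δ ≤ 1.57) (hδt : 1.5708 - δ < ta - k2) (htm' : tb ≤ 4.712 + k1)
    (hc0 : 1 ≤ c0 ^ 2 * (6.2831 * k1)) (hc00 : 0 ≤ c0)
    (hE : δ ≤ E) (hE1 : tb - 5.712 + 1.7183 * k2 ≤ E * k2) (hE2 : E ≤ 1.7183)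
    (hGc : c0 * (k2 / 10 / (ta - k2 - 1.5708 + δ) + δ + 3.1416 / 10 + 2 + 2 * (k2 / 10)) ≤ Gc)
    (hK : 1.9181 * Gc ≤ K) (hE' : E + 1 / 20 ≤ E') (hK0 : 0 ≤ K) :
    ‖Xf β r h t 1‖ ≤ K * Real.exp (r * E') := by
  rw [b3_X1]
  have h1 := v5_UD k1 k2 ta tb δ c0 E Gc K hβ hr hκ hk0 hk1 hk2 hta htb hδ hδ1 hδt htm' hc0 hc00 hE hE1 hE2 hGc hK
  try rw [zero_mul, zero_add] at h1
  refine h1.trans (mul_le_mul_of_nonneg_left ?_ hK0)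
  exact Real.exp_le_exp.2 (mul_le_mul_of_nonneg_left hE' (by linarith))

theorem b3_mono {r c c' E E' K K' F F' : ℝ} (hr : 10 ≤ r) (hc : c ≤ c') (hc0 : 0 ≤ c) (hE : E ≤ E') (hK : K ≤ K')
    (hK0 : 0 ≤ K) (hF : F ≤ F') :
    c * Real.exp (r * E) + K * Real.exp (r * F) ≤ c' * Real.exp (r * E') + K' * Real.exp (r * F') := by
  apply add_le_add
  · exact mul_le_mul hc (Real.exp_le_exp.2 (mul_le_mul_of_nonneg_left hE (by linarith))) (Real.exp_pos _).le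
      (hc0.trans hc)
  · exact mul_le_mul hK (Real.exp_le_exp.2 (mul_le_mul_of_nonneg_left hF (by linarith))) (Real.exp_pos _).le
      (hK0.trans hK)

/-- copy `0` on the left: line below the axis, `p = -P` -/
theorem b3_HU0 {β r h t κ : ℝ} (P k1 k2 ta tb g m1 m2 n1 n2 μ c s c0 d0 m0 E Hc K E1 : ℝ) (hβ : 0 < β) (hr : 10 ≤ r)
    (hκ : κ = β * r) (hk0 : 0 < k1) (hk1 : k1 ≤ κ) (hk2 : κ ≤ k2) (hk : k1 < k2) (hta : ta ≤ (t - h) + κ)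
    (htb : (t - h) + κ ≤ tb) (hP : 0 ≤ P) (hp1 : k2 * P ≤ 1)
    (hm1 : Real.exp (k1 * P) ≤ m1) (hm2 : Real.exp (k2 * P) ≤ m2) (hn1 : Real.exp (-(k1 * P)) ≤ n1)
    (hn2 : Real.exp (-(k2 * P)) ≤ n2)
    (h1 : m1 + P ^ 2 * n1 / 2 + P ^ 4 * n1 ^ 3 / 24 + P ^ 6 * n1 ^ 5 / 24 - k1 * P ≤ g)
    (h2 : m2 + P ^ 2 * n2 / 2 + P ^ 4 * n2 ^ 3 / 24 + P ^ 6 * n2 ^ 5 / 24 - k2 * P ≤ g)
    (hμ : μ ≤ Real.exp (k1 * P)) (hμ0 : 0 ≤ μ) (hM0 : P ^ 2 < μ ^ 2) (hc0 : 0 < c)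
    (hc : 9 ≤ 4 * c ^ 4 * (k1 ^ 2 * (μ ^ 2 - P ^ 2)))
    (hd0 : d0 ≤ 4.712 + ta - k2) (hd00 : 0 < d0) (ht : tb ≤ 1.5707 + k1)
    (hs0 : 0 < s) (hs : k2 ≤ 62.831 * s ^ 2) (hc00 : 0 < c0) (hcc0 : 10 ≤ 17.078 * k1 * c0 ^ 2)
    (hm0 : 1.5708 + tb - k1 ≤ m0) (hm00 : 0 ≤ m0) (hE : 1 / 20 + P * m0 ≤ E)
    (hH : C0 β * HUMP β r (t - h) ≤ Hc) (hK : s / d0 + s + Hc + c0 * (1.31416 + k2 * P) ≤ K)
    (hE1 : g + P * tb ≤ E1) : ‖Xf β r h t 0‖ ≤ c * Real.exp (r * E1) + K * Real.exp (r * E) := by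
  rw [b3_X0]
  have hκp : 0 < κ := hk0.trans_le hk1
  have e1 : ∀ x : ℝ, -(x * -P) = x * P := by intro x; ring
  have e2 : ∀ x : ℝ, x * -P = -(x * P) := by intro x; ring
  have hg : gG κ (-P) ≤ g := by
    refine gG_le (-P) k1 k2 g m1 m2 n1 n2 hk1 hk2 hk (by rw [e1]; exact hm1) (by rw [e1]; exact hm2)
      (by rw [e2]; exact hn1) (by rw [e2]; exact hn2) ?_ ?_
    · refine le_trans (le_of_eq ?_) h1; ring
    · refine le_trans (le_of_eq ?_) h2; ring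
  have hM : μ ^ 2 ≤ Real.exp (-(κ * -P)) ^ 2 := by
    apply pow_le_pow_left₀ hμ0
    refine hμ.trans (Real.exp_le_exp.2 ?_)
    rw [e1]
    exact mul_le_mul_of_nonneg_right hk1 hP
  have hb := v5_HU (β := β) (r := r) (t := t - h) (κ := κ) (-P) k1 k2 ta tb g c (μ ^ 2) s c0 d0 m0 E Hc K hβ hr hκ hk0
    hk1 hk2 hta htb (by linarith) (by linarith) hg hM (by rw [neg_sq]; exact hM0) hc0 (by rw [neg_sq]; exact hc)
    hd0 hd00 ht hs0 hs hc00 hcc0 hm0 hm00 (by linarith) hH (by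
      refine le_trans (le_of_eq ?_) hK
      ring)
  refine hb.trans ?_
  apply add_le_add_left
  apply mul_le_mul_of_nonneg_left _ hc0.le
  apply Real.exp_le_exp.2
  apply mul_le_mul_of_nonneg_left _ (by linarith : 0 ≤ r)
  have := mul_le_mul_of_nonneg_left htb hP
  linarith

/-- line above the axis, at the level of `F` -/
theorem b3_HF {β r t κ : ℝ} (p k1 k2 ta tb g m1 m2 n1 n2 μ c s d1 d2 Δ q Hc c' K E1 : ℝ) (hβ : 0 < β) (hr : 10 ≤ r)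
    (hκ : κ = β * r) (hk0 : 0 < k1) (hk1 : k1 ≤ κ) (hk2 : κ ≤ k2) (hk : k1 < k2) (hta : ta ≤ t + κ)
    (htb : t + κ ≤ tb) (hp : 0 ≤ p)
    (hm1 : Real.exp (-(k1 * p)) ≤ m1) (hm2 : Real.exp (-(k2 * p)) ≤ m2) (hn1 : Real.exp (k1 * p) ≤ n1)
    (hn2 : Real.exp (k2 * p) ≤ n2)
    (h1 : m1 + p ^ 2 * n1 / 2 + p ^ 4 * n1 ^ 3 / 24 + p ^ 6 * n1 ^ 5 / 24 + k1 * p ≤ g)
    (h2 : m2 + p ^ 2 * n2 / 2 + p ^ 4 * n2 ^ 3 / 24 + p ^ 6 * n2 ^ 5 / 24 + k2 * p ≤ g)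
    (hμ : μ ≤ Real.exp (-(k2 * p))) (hμ0 : 0 ≤ μ) (hM0 : p ^ 2 < μ ^ 2) (hc0 : 0 < c)
    (hc : 9 ≤ 4 * c ^ 4 * (k1 ^ 2 * (μ ^ 2 - p ^ 2)))
    (hd1 : d1 ≤ 1.5707 + ta - k2) (hd10 : 0 < d1) (hd2 : d2 ≤ 1.5707 - tb + k1) (hd20 : 0 < d2)
    (hs0 : 0 < s) (hs : k2 ≤ 62.831 * s ^ 2)
    (hΔ : Δ ≤ g - p * (1.5708 + k2)) (hΔ0 : 0 ≤ Δ) (hq : Real.exp (-(10 * Δ)) ≤ q)
    (hH : C0 β * HUMP β r t ≤ Hc) (hc' : c + s / d2 * q ≤ c') (hK : s / d1 + s + Hc ≤ K)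
    (hE1 : g - p * ta ≤ E1) :
    ‖F (cexp (I * β)) (r * cexp (I * ((t + β / 2 : ℝ) : ℂ)))‖ ≤ c' * Real.exp (r * E1) + K * Real.exp (r * 0) := by
  have hκp : 0 < κ := hk0.trans_le hk1
  have hg : gG κ p ≤ g := gG_le p k1 k2 g m1 m2 n1 n2 hk1 hk2 hk hm1 hm2 hn1 hn2 h1 h2
  have hM : μ ^ 2 ≤ Real.exp (-(κ * p)) ^ 2 := by
    apply pow_le_pow_left₀ hμ0
    refine hμ.trans (Real.exp_le_exp.2 ?_)
    have := mul_le_mul_of_nonneg_right hk2 hp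
    linarith
  have hb := v5_H (β := β) (r := r) (t := t) (κ := κ) p k1 k2 ta tb g c (μ ^ 2) s d1 d2 Δ q Hc c' K hβ hr hκ hk0
    hk1 hk2 hta htb hp hg hM hM0 hc0 hc hd1 hd10 hd2 hd20 hs0 hs hΔ hΔ0 hq hH hc' hK
  refine hb.trans ?_
  apply add_le_add_left
  have hq0 : 0 ≤ q := (Real.exp_pos _).le.trans hq
  have hc'0 : 0 ≤ c' := by
    refine le_trans ?_ hc'
    positivity
  apply mul_le_mul_of_nonneg_left _ hc'0
  apply Real.exp_le_exp.2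
  apply mul_le_mul_of_nonneg_left _ (by linarith : 0 ≤ r)
  have := mul_le_mul_of_nonneg_left hta hp
  linarith

/-- piece of the inner segment: slope and norm of the combination, from the data of the two copies -/
theorem b3_slp {β r h t κ : ℝ} (k1 k2 ya1 yb1 Du1 D1 n1 c1 X1 e1 ya0 yb0 D0 n0 c0 X0 e0 m L : ℝ) (hβ : 0 < β)
    (hr : 10 ≤ r) (hκ : κ = β * r) (hk0 : 0 < k1) (hk1 : k1 ≤ κ) (hk2 : κ ≤ k2)
    (d1 : DomR κ t) (d0 : DomR κ (t - h))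
    (hI1 : |(Ld β r h t 1).im - (sy κ t / β + sx κ t / sD κ t * ((1 + sy κ t) / sD κ t - 1 / 2))| ≤ e1)
    (hN1 : ‖Ld β r h t 1 - sg κ t / β‖ ≤ n1 / (2 * D1) + e1)
    (hI0 : |(Ld β r h t 0).im - (sy κ (t - h) / β +
      sx κ (t - h) / sD κ (t - h) * ((1 + sy κ (t - h)) / sD κ (t - h) - 1 / 2))| ≤ e0)
    (hN0 : ‖Ld β r h t 0 - sg κ (t - h) / β‖ ≤ n0 / (2 * D0) + e0)
    (hn1 : κ * Real.exp (-sy κ t) ≤ n1) (hn0 : κ * Real.exp (-sy κ (t - h)) ≤ n0)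
    (hD10 : 0 < D1) (hD00 : 0 < D0) (hDl1 : D1 ≤ sD κ t) (hDl0 : D0 ≤ sD κ (t - h)) (hDu1 : sD κ t ≤ Du1)
    (hya1 : ya1 ≤ sy κ t) (hyb0 : sy κ (t - h) ≤ yb0)
    (hya11 : 0 ≤ 1 + ya1) (hyb01 : 0 ≤ 1 + yb0) (hc10 : 0 ≤ c1) (hc00 : 0 ≤ c0)
    (hc1 : (1 / 2 - c1) * Du1 ≤ 1 + ya1) (hX1 : c1 * n1 ≤ X1 * D1)
    (hc0 : 1 + yb0 ≤ (1 / 2 + c0) * D0) (hX0 : c0 * n0 ≤ X0 * D0)
    (hy : 0 ≤ ya1 - yb0) (hX : 0 ≤ X1 + X0 + e1 + e0)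
    (hm : m * k2 ≤ ya1 - yb0 - k2 * (X1 + X0 + e1 + e0) / 10)
    (hL : (2 * n0 + n1) / k1 + (2 * (n0 / (2 * D0) + e0) + (n1 / (2 * D1) + e1)) / 10 ≤ L) :
    r * m ≤ (Ld β r h t 1 - Ld β r h t 0).im ∧
      ‖(((-1 : ℤ) : ℂ) - 1) * Ld β r h t 0 - ((-1 : ℤ) : ℂ) * Ld β r h t 1‖ ≤ r * L := by
  constructor
  · have a1 := ex_lo d1 n1 D1 Du1 ya1 c1 X1 hn1 hD10 hDl1 hDu1 hya1 hya11 hc10 hc1 hX1
    have a0 := ex_hi d0 n0 D0 yb0 c0 X0 hn0 hD00 hDl0 hyb0 hyb01 hc00 hc0 hX0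
    refine v5_m k2 ya1 (-yb0) X1 X0 e1 e0 _ _ m hβ hr hκ hk2 hI1 hI0 hya1 (by linarith) (by linarith) a1 a0 hX ?_
    linarith
  · have hs1 : ‖sg κ t‖ ≤ n1 := by rw [norm_sg5 d1]; exact hn1
    have hs0 : ‖sg κ (t - h)‖ ≤ n0 := by rw [norm_sg5 d0]; exact hn0
    have hNN : ‖((-2 : ℝ) : ℂ) * sg κ (t - h) + ((1 : ℝ) : ℂ) * sg κ t‖ ≤ 2 * n0 + n1 := by
      refine (norm_add_le _ _).trans ?_
      rw [norm_mul, norm_mul, Complex.norm_real, Complex.norm_real, Real.norm_eq_abs, Real.norm_eq_abs]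
      have e1 : |(-2 : ℝ)| = 2 := by norm_num
      have e2 : |(1 : ℝ)| = 1 := by norm_num
      rw [e1, e2]
      linarith
    have h1 := v5_comb (L0 := Ld β r h t 0) (L1 := Ld β r h t 1) (-2) 1 k1 (n0 / (2 * D0) + e0) (n1 / (2 * D1) + e1)
      (2 * n0 + n1) L hβ hr hκ hk0 hk1 hN0 hN1 hNN (by
        have e1 : |(-2 : ℝ)| = 2 := by norm_num
        have e2 : |(1 : ℝ)| = 1 := by norm_num
        rw [e1, e2]
        linarith)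
    have e : (((-1 : ℤ) : ℂ) - 1) * Ld β r h t 0 - ((-1 : ℤ) : ℂ) * Ld β r h t 1 =
        ((-2 : ℝ) : ℂ) * Ld β r h t 0 + ((1 : ℝ) : ℂ) * Ld β r h t 1 := by
      push_cast
      ring
    rw [e]
    exact h1

theorem far3 : far (-1) 3 = {-1} := by decide

/-- closing theorem for `b = 3` -/
theorem circ3 {p : ℤ} (hp : IsCoprime (3 : ℤ) p) {β r h κ : ℝ} (hr : 10 ≤ r)
    (hh : h = 2 * Real.pi / (3 : ℕ)) (TS TR a m Ef Es L : ℝ) (hT : TS < TR) (ha : 1 < a) (hm : 0 < m)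
    (hη : 1 < a * (1 - Ef)) (hEf : 0 ≤ Ef)
    (hX0 : ∀ t, TS ≤ t + κ → t + κ ≤ TR → Xf β r h t 0 ≠ 0)
    (hE : ∀ t, TS ≤ t + κ → t + κ ≤ TR → ‖Xf β r h t (-1)‖ ≤ Ef * ‖Xf β r h t 0‖)
    (hEs : ∀ t, TS ≤ t + κ → t + κ ≤ TR → ‖Xf β r h (t + β) (-1)‖ ≤ Es * ‖Xf β r h t 0‖)
    (hS : ∀ t, TS ≤ t + κ → t + κ ≤ TR → r * m ≤ (Ld β r h t 1 - Ld β r h t 0).im ∧
      ‖(((-1 : ℤ) : ℂ) - 1) * Ld β r h t 0 - ((-1 : ℤ) : ℂ) * Ld β r h t 1‖ ≤ r * L)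
    (hout : ∀ t, 0 ≤ t + κ → t + κ ≤ h → (t + κ ≤ TS ∨ TR ≤ t + κ) →
      ‖Xf β r h t (-1)‖ < |‖Xf β r h t 1‖ - ‖Xf β r h t 0‖|)
    (s1 : a ^ 3 * Ef < 1) (s2 : a ^ 3 * (Es + Ef * L) < m * (1 - a ^ 3 * Ef)) :
    Circ (2 * Real.pi * p / (3 : ℕ) + β) r := by
  obtain ⟨_, _, hh0⟩ := b3_h hh
  have hr0 : 0 < r := by linarith
  have q1 : TS / h * h = TS := by field_simp
  have q2 : TR / h * h = TR := by field_simp
  have hfar : far (-1) 3 = {-1} := far3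
  have hmem : ∀ k ∈ far (-1) 3, k = -1 := by
    intro k hk
    rw [hfar] at hk
    simpa using hk
  have hsd : sd (-1) = 0 := by decide
  have hpv : pv (-1) = 1 := by decide
  refine circ_LW (b := 3) (by norm_num) (by exact_mod_cast hp) hr0 hh (a0 := -1) (by norm_num) (by norm_num)
    (s0 := 0) (slo := TS / h) (shi := TR / h) (a := a) (m := r * m) (η := Ef) (E := fun _ => Ef)
    (W := fun _ => r * (Es + Ef * L)) (κ := κ)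
    (by rw [div_lt_div_iff_of_pos_right hh0]; exact hT) ha (by positivity) hη ?_ ?_ ?_ ?_ ?_ ?_ (fun _ => hEf) ?_ ?_
  · intro t g1 g2
    rw [q1] at g1
    rw [q2] at g2
    exact hX0 t g1 g2
  · intro t g1 g2 k hk
    rw [q1] at g1
    rw [q2] at g2
    rw [hmem k hk, hsd]
    exact hE t g1 g2
  · intro t g1 g2 k hk
    rw [q1] at g1
    rw [q2] at g2
    rw [hmem k hk, hsd]
    have a1 := hE t g1 g2
    have a2 := hEs t g1 g2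
    have a3 := (hS t g1 g2).2
    have a4 := mul_le_mul_of_nonneg_left a2 hr0.le
    have a5 : ‖Xf β r h t (-1)‖ * ‖(((-1 : ℤ) : ℂ) - 1) * Ld β r h t 0 - ((-1 : ℤ) : ℂ) * Ld β r h t 1‖ ≤
        (Ef * ‖Xf β r h t 0‖) * (r * L) := mul_le_mul a1 a3 (norm_nonneg _) (mul_nonneg hEf (norm_nonneg _))
    calc _ ≤ r * (Es * ‖Xf β r h t 0‖) + (Ef * ‖Xf β r h t 0‖) * (r * L) := add_le_add a4 a5
      _ = r * (Es + Ef * L) * ‖Xf β r h t 0‖ := by ring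
  · intro t g1 g2
    rw [q1] at g1
    rw [q2] at g2
    exact (hS t g1 g2).1
  · rw [hfar]
    simp
  · intro t g1 g2 g3
    rw [q1, q2] at g3
    rw [hfar]
    simp only [Finset.sum_singleton]
    refine hout t (by linarith) (by linarith) ?_
    rcases g3 with g3 | g3
    · exact Or.inl g3.le
    · exact Or.inr g3.le
  · rw [hfar]
    simp only [Finset.sum_singleton]
    rw [hpv]
    have e : (((-1 : ℤ).natAbs : ℕ) : ℝ) * (a ^ 1 * Ef) * a ^ ((-1 : ℤ).natAbs + 1) = a ^ 3 * Ef := by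
      have : (-1 : ℤ).natAbs = 1 := rfl
      rw [this]
      push_cast
      ring
    rw [e]
    exact s1
  · rw [hfar]
    simp only [Finset.sum_singleton]
    rw [hpv]
    have e : (((-1 : ℤ).natAbs : ℕ) : ℝ) * (a ^ 1 * Ef) * a ^ ((-1 : ℤ).natAbs + 1) = a ^ 3 * Ef := by
      have : (-1 : ℤ).natAbs = 1 := rfl
      rw [this]
      push_cast
      ring
    rw [e]
    have e2 : a * (a ^ 1 * (r * (Es + Ef * L)) * a ^ (-1 : ℤ).natAbs) = r * (a ^ 3 * (Es + Ef * L)) := by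
      have : (-1 : ℤ).natAbs = 1 := rfl
      rw [this]
      ring
    rw [e2]
    have e3 : r * m * (1 - a ^ 3 * Ef) = r * (m * (1 - a ^ 3 * Ef)) := by ring
    rw [e3]
    exact mul_lt_mul_of_pos_left s2 hr0

end Sok
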