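import Pool.Agent.Lib.MP_816dec_an.R1b3B
import Pool.Agent.Lib.MP_816dec_an.R1b3C

/-!
MP_816dec_an (A3, row R1, b = 3): the numeric shells of the cells.
-/

set_option autoImplicit false
set_option maxHeartbeats 4000000

open Complex Set

namespace Sok

theorem b3_R0 {β r κ : ℝ} (hβ : 0 < β) (hr : 10 ≤ r) (hκ : κ = β * r) : β * 10 ≤ κ := by
  rw [hκ]
  exact mul_le_mul_of_nonneg_left hr hβ.le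

theorem b3_R {β r κ : ℝ} (hβ : 0 < β) (hr : 10 ≤ r) (hκ : κ = β * r) (hk : κ ≤ 1.39) :
    β * (1 * (1 + κ ^ 2)) ≤ κ := by
  have h0 := b3_R0 hβ hr hκ
  have h1 : 0 < κ := by rw [hκ]; positivity
  have h2 : κ ^ 2 ≤ 2 := by nlinarith
  nlinarith

theorem b3_n {κ y : ℝ} (k2 ya E n : ℝ) (hκ0 : 0 ≤ κ) (hk2 : κ ≤ k2) (hya : ya ≤ y) (hE : Real.exp (-ya) ≤ E)
    (hn : k2 * E ≤ n) : κ * Real.exp (-y) ≤ n := by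
  have h1 : Real.exp (-y) ≤ E := (Real.exp_le_exp.2 (by linarith)).trans hE
  exact (mul_le_mul hk2 h1 (Real.exp_pos _).le (by linarith)).trans hn

theorem b3_w {X K r E : ℝ} (h : X ≤ K * Real.exp (r * E)) : X ≤ 0 * Real.exp (r * 0) + K * Real.exp (r * E) := by
  rwa [zero_mul, zero_add]

/-- upper bound for the exponent of the copy 0, slope `-P` -/
theorem b3_VH {κ t : ℝ} (h : DomR κ t) (P k1 k2 g m1 m2 n1 n2 tb V : ℝ) (hP : 0 ≤ P) (hk1 : k1 ≤ κ) (hk2 : κ ≤ k2)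
    (hk : k1 < k2) (hm1 : Real.exp (k1 * P) ≤ m1) (hm2 : Real.exp (k2 * P) ≤ m2) (hn1 : Real.exp (-(k1 * P)) ≤ n1)
    (hn2 : Real.exp (-(k2 * P)) ≤ n2)
    (h1 : m1 + P ^ 2 * n1 / 2 + P ^ 4 * n1 ^ 3 / 24 + P ^ 6 * n1 ^ 5 / 50 - k1 * P ≤ g)
    (h2 : m2 + P ^ 2 * n2 / 2 + P ^ 4 * n2 ^ 3 / 24 + P ^ 6 * n2 ^ 5 / 50 - k2 * P ≤ g)
    (hPn : P * n1 ≤ 0.8) (htb : t + κ ≤ tb) (hV : g + P * tb ≤ V) : sE κ t ≤ V := by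
  have a1 : Real.exp (κ * (-P)) ≤ n1 := by
    refine (Real.exp_le_exp.2 ?_).trans hn1
    nlinarith
  have a2 : gH κ (-P) ≤ g := by
    refine gH_le (-P) k1 k2 g m1 m2 n1 n2 hk1 hk2 hk ?_ ?_ ?_ ?_ ?_ ?_
    · convert hm1 using 2; ring
    · convert hm2 using 2; ring
    · convert hn1 using 2; ring
    · convert hn2 using 2; ring
    · refine le_trans (le_of_eq ?_) h1; ring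
    · refine le_trans (le_of_eq ?_) h2; ring
  have a3 := V_upH h (-P) n1 a1 (by rw [abs_neg, abs_of_nonneg hP]; exact hPn) a2
  have a4 : P * (t + κ) ≤ P * tb := mul_le_mul_of_nonneg_left htb hP
  linarith

/-- one slope piece -/
theorem b3_piece {β r h t κ : ℝ} (k1 k2 ya1 yb1 z1 G1 Ea1 Eb1 n1 D1 Du1 δ1 ε1 ε01 f1 e1 c1 X1
    ya0 yb0 z0 G0 Ea0 n0 D0 δ0 ε0 ε00 f0 e0 c0 X0 m L : ℝ) (hβ : 0 < β)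
    (hr : 10 ≤ r) (hκ : κ = β * r) (hk0 : 0 < k1) (hk1 : k1 ≤ κ) (hk2 : κ ≤ k2)
    (d1 : DomR κ t) (d0 : DomR κ (t - h))
    (hJ1 : ∀ s : ℂ, ‖s - sg κ t‖ ≤ δ1 → ‖HH β s - 1‖ ≤ ε1) (hJ10 : ‖HH β (sg κ t) - 1‖ ≤ ε01)
    (hJ0 : ∀ s : ℂ, ‖s - sg κ (t - h)‖ ≤ δ0 → ‖HH β s - 1‖ ≤ ε0) (hJ00 : ‖HH β (sg κ (t - h)) - 1‖ ≤ ε00)
    (hya1 : ya1 ≤ sy κ t) (hyb1 : sy κ t ≤ yb1) (hya0 : ya0 ≤ sy κ (t - h)) (hyb0 : sy κ (t - h) ≤ yb0)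
    (hy1 : ya1 < yb1)
    -- copy 1
    (hEa1 : Real.exp (-ya1) ≤ Ea1) (hEb1 : Real.exp (-yb1) ≤ Eb1) (hG1 : G1 ≤ Real.exp (-z1)) (hG10 : 0 ≤ G1)
    (hz1 : yb1 ≤ z1 + 1 / 2) (hn1 : k2 * Ea1 ≤ n1)
    (hD1a : D1 ≤ (k1 * G1) ^ 2 * (1 + 2 * z1 - 2 * ya1) + 1 + 2 * ya1)
    (hD1b : D1 ≤ (k1 * G1) ^ 2 * (1 + 2 * z1 - 2 * yb1) + 1 + 2 * yb1) (hD10 : 0 < D1)
    (hU1 : (k2 * Ea1) ^ 2 + 1 + 2 * ya1 ≤ Du1) (hU2 : (k2 * Eb1) ^ 2 + 1 + 2 * yb1 ≤ Du1)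
    (hδ1 : 0 < δ1) (hε01 : ε01 < 1) (him1 : δ1 < 1 + ya1) (hf10 : 0 ≤ f1)
    (hf1 : ε1 ≤ f1 * (δ1 * (1 - ε01))) (he10 : 0 ≤ e1) (he1 : (n1 * f1) ^ 2 ≤ e1 ^ 2 * D1)
    (hc10 : 0 ≤ c1) (hc1 : (1 / 2 - c1) * Du1 ≤ 1 + ya1) (hX1 : c1 * n1 ≤ X1 * D1)
    -- copy 0
    (hEa0 : Real.exp (-ya0) ≤ Ea0) (hG0 : G0 ≤ Real.exp (-z0)) (hG00 : 0 ≤ G0)
    (hz0 : yb0 ≤ z0 + 1 / 2) (hn0 : k2 * Ea0 ≤ n0)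
    (hD0a : D0 ≤ (k1 * G0) ^ 2 * (1 + 2 * z0 - 2 * ya0) + 1 + 2 * ya0)
    (hD0b : D0 ≤ (k1 * G0) ^ 2 * (1 + 2 * z0 - 2 * yb0) + 1 + 2 * yb0) (hD00 : 0 < D0)
    (hδ0 : 0 < δ0) (hε00 : ε00 < 1) (him0 : δ0 < 1 + ya0) (hf00 : 0 ≤ f0)
    (hf0 : ε0 ≤ f0 * (δ0 * (1 - ε00))) (he00 : 0 ≤ e0) (he0 : (n0 * f0) ^ 2 ≤ e0 ^ 2 * D0)
    (hc00 : 0 ≤ c0) (hc0 : 1 + yb0 ≤ (1 / 2 + c0) * D0) (hX0 : c0 * n0 ≤ X0 * D0) (hyb01 : 0 ≤ 1 + yb0)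
    -- conclusion
    (hy : 0 ≤ ya1 - yb0) (hX : 0 ≤ X1 + X0 + e1 + e0)
    (hm : m * k2 ≤ ya1 - yb0 - k2 * (X1 + X0 + e1 + e0) / 10)
    (hL : (2 * n0 + n1) / k1 + (2 * (n0 / (2 * D0) + e0) + (n1 / (2 * D1) + e1)) / 10 ≤ L) :
    Xf β r h t 0 ≠ 0 ∧ r * m ≤ (Ld β r h t 1 - Ld β r h t 0).im ∧
      ‖(((-1 : ℤ) : ℂ) - 1) * Ld β r h t 0 - ((-1 : ℤ) : ℂ) * Ld β r h t 1‖ ≤ r * L := by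
  have hκ0 : 0 ≤ κ := by linarith
  have nn1 := b3_n k2 ya1 Ea1 n1 hκ0 hk2 hya1 hEa1 hn1
  have nn0 := b3_n k2 ya0 Ea0 n0 hκ0 hk2 hya0 hEa0 hn0
  have dl1 := v5_Dlo d1 k1 ya1 yb1 z1 G1 D1 hk0.le hk1 hya1 hyb1 hG1 hG10 hz1 hD1a hD1b
  have dl0 := v5_Dlo d0 k1 ya0 yb0 z0 G0 D0 hk0.le hk1 hya0 hyb0 hG0 hG00 hz0 hD0a hD0b
  have du1 := v5_Dup d1 k2 ya1 yb1 Ea1 Eb1 Du1 hk2 hya1 hyb1 hEa1 hEb1 hy1 hU1 hU2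
  obtain ⟨_, s1, s2⟩ := b3_slope (k := 1) (h := h) δ1 ε1 ε01 n1 D1 f1 e1 hβ hκ (by push_cast; ring) d1 hδ1 hε01
    (by linarith) hJ1 hJ10 nn1 hD10 dl1 hf10 hf1 he10 he1
  obtain ⟨z, s3, s4⟩ := b3_slope (k := 0) (h := h) (t := t) δ0 ε0 ε00 n0 D0 f0 e0 hβ hκ (by push_cast; ring) d0 hδ0 hε00
    (by linarith) hJ0 hJ00 nn0 hD00 dl0 hf00 hf0 he00 he0
  refine ⟨z, ?_⟩
  exact b3_slp k1 k2 ya1 yb1 Du1 D1 n1 c1 X1 e1 ya0 yb0 D0 n0 c0 X0 e0 m L hβ hr hκ hk0 hk1 hk2 d1 d0 s1 s2 s3 s4 nn1 nn0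
    hD10 hD00 dl1 dl0 du1 hya1 hyb0 (by linarith) hyb01 hc10 hc00 hc1 hX1 hc0 hX0 hy hX hm hL

end Sok
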