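import Pool.Agent.Lib.MP_816dec_an.R1b3D
import Pool.Agent.Lib.MP_816dec_an.R1b3J11

/-!
MP_816dec_an (A3, row R1, b = 3): the cell `0.53 ≤ κ ≤ 0.56`.
-/

set_option autoImplicit false
set_option maxHeartbeats 4000000
set_option linter.unusedVariables false

open Complex Set

namespace Sok

namespace B3_11

private theorem yL {κ t : ℝ} (h : DomR κ t) (hk1 : 0.53 ≤ κ) (hk2 : κ ≤ 0.56) (ht1 : 0 ≤ t + κ) (ht2 : t + κ ≤ 1.16) :
    0 ≤ sy κ t ∧ sy κ t ≤ 0.315 := by
  have hy1 : 0 ≤ sy κ t := sy_nonneg h (by linarith)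
  have hy2 : sy κ t ≤ 0.315 := syR_ang2 h 0.53 0.56 1.16 0.879 0.6386 0.7702 0.315 0.72979 1.37025 hk1 hk2 (by linarith) (by norm_num) (by norm_num) (by norm_num)
    (cos_le_num (by norm_num)) (sin_le_num (by norm_num) (by norm_num)) (expm_le (by norm_num) (by norm_num) (by norm_num))
    (expn_ge (by norm_num) (by norm_num)) (by norm_num) (by norm_num) (by norm_num) (by norm_num) (by norm_num)
  exact ⟨hy1, hy2⟩

theorem left {β r h t κ : ℝ} (hh : h = 2 * Real.pi / (3 : ℕ)) (hβ : 0 < β) (hr : 10 ≤ r) (hκ : κ = β * r)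
    (hk1 : 0.53 ≤ κ) (hk2 : κ ≤ 0.56) (hT1 : 0 ≤ t + κ) (hT2 : t + κ ≤ 1.16) :
    ‖Xf β r h t (-1)‖ < |‖Xf β r h t 1‖ - ‖Xf β r h t 0‖| := by
  obtain ⟨q1, q2, q3⟩ := b3_h hh
  have hR0 := b3_R0 hβ hr hκ
  have hR := b3_R hβ hr hκ (by linarith)
  have hD1 : DomR κ t := b3_dom (by linarith) (by linarith) (Or.inl (by linarith))
  have hy := yL hD1 hk1 hk2 (by linarith) (by linarith)
  have hY : 0.842 * Real.exp (r * 0.6135) ≤ ‖Xf β r h t 1‖ :=
    b3_lo hβ hr hκ (k := 1) (t' := t) (by push_cast; ring) hD1 0.025 1.7971 0.842 0.6135 (by norm_num)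
      (T3_11_p1 hD1 hβ hk1 hk2 (by linarith) (by linarith) hR0 hR)
      (v5_Dup hD1 0.56 0 0.315 1 0.72979 1.7971 hk2 hy.1 hy.2 (ex_up 0 (by norm_num) (by norm_num) (by norm_num) (by norm_num)) (ex_um 0.315 (by norm_num) (by norm_num) (by norm_num) (by norm_num)) (by norm_num) (by norm_num) (by norm_num)) (by norm_num) (by norm_num)
      (b3_Vlo hD1 0.53 0.56 0 1.16 0.47 (-0.75502) 0.8791 0.63783 0.44969 0.6135 hk1 hk2 (by linarith) (by linarith) (by norm_num) (ex_lm 0.75502 (by norm_num) (by norm_num) (by norm_num) (by norm_num) (by norm_num)) (by norm_num) (by norm_num) (by norm_num) (by norm_num) (by norm_num) (by norm_num) (by norm_num) (by norm_num) (ex_um 0.44969 (by norm_num) (by norm_num) (by norm_num) (by norm_num)) (by norm_num))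
  have h0 : ‖Xf β r h t 0‖ ≤ 0.8958 * ‖Xf β r h t 1‖ :=
    b3_cmp 0.5181 0.06625 0.01216 0.44112 0.863972 0.031752 0.8958 hr (b3_HU0 1.15 0.53 0.56 (-2.0944) (-0.93439) 1.62179 1.83952 1.90409 0.54363 0.5252 1.8395 1.4041 0.09441 1.0511 2.0576 0.10641 0.17238 0.000001 2.1986 0.54725 hβ hr hκ (by norm_num) hk1 hk2 (by norm_num) (by linarith) (by linarith) (by norm_num) (by norm_num) (ex_up 0.6095 (by norm_num) (by norm_num) (by norm_num) (by norm_num)) (ex_up 0.644 (by norm_num) (by norm_num) (by norm_num) (by norm_num)) (ex_um 0.6095 (by norm_num) (by norm_num) (by norm_num) (by norm_num)) (ex_um 0.644 (by norm_num) (by norm_num) (by norm_num) (by norm_num)) (by norm_num) (by norm_num) (ex_lp 0.6095 (by norm_num) (by norm_num) (by norm_num)) (by norm_num) (by norm_num) (by norm_num) (by norm_num) (by norm_num) (by norm_num) (by norm_num) (by norm_num) (by norm_num) (by norm_num) (by norm_num) (by norm_num) (by norm_num) (by norm_num) (v5_hump 5.6841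 17.857 4.2258 0.0000003148 0.000001 hβ hr hκ hk1 hk2 (by norm_num) (tb := (-0.93439)) (by linarith) (by norm_num) (by norm_num) (by norm_num) (by norm_num) (by norm_num) (by norm_num) (by norm_num) (ex_un 14 0.99 (by norm_num) (by norm_num) (by norm_num) (by norm_num)) (by norm_num)) (by norm_num) (by norm_num)) hY (by norm_num) (by norm_num) (by norm_num) (by norm_num) (by norm_num) (ex_un 0 0.6625 (by norm_num) (by norm_num) (by norm_num) (by norm_num)) (by norm_num) (by norm_num) (by norm_num) (ex_un 4 0.4112 (by norm_num) (by norm_num) (by norm_num) (by norm_num)) (by norm_num) (by norm_num)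
  have h2 : ‖Xf β r h t (-1)‖ ≤ 0.0381 * ‖Xf β r h t 1‖ := by
    exact b3_cmp 1 0 0.008031 0.4835 0 0.038007 0.0381 hr (b3_w (b3_UD 0.53 0.56 2.09439 3.2544 0.08 0.548 0.08 2.0774 3.9847 0.13 hh hβ hr hκ (by norm_num) hk1 hk2 (by linarith) (by linarith) (by norm_num) (by norm_num) (by norm_num) (by norm_num) (by norm_num) (by norm_num) (by norm_num) (by norm_num) (by norm_num) (by norm_num) (by norm_num) (by norm_num) (by norm_num))) hY (by norm_num) (by norm_num) (by norm_num) (by norm_num) (by norm_num) (by norm_num) (by norm_num) (by norm_num) (by norm_num) (ex_un 4 0.835 (by norm_num) (by norm_num) (by norm_num) (by norm_num)) (by norm_num) (by norm_num)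
  exact b3_out1 0.8958 0.0381 hY (by norm_num) h0 h2 (by norm_num)

private theorem yM1 {κ t : ℝ} (h : DomR κ t) (hk1 : 0.53 ≤ κ) (hk2 : κ ≤ 0.56) (ht1 : 0 ≤ t + κ) (ht2 : t + κ ≤ 1.169) :
    0 ≤ sy κ t ∧ sy κ t ≤ 0.317 := by
  have hy1 : 0 ≤ sy κ t := sy_nonneg h (by linarith)
  have hy2 : sy κ t ≤ 0.317 := syR_ang2 h 0.53 0.56 1.169 0.89 0.6301 0.7772 0.317 0.72834 1.373 hk1 hk2 (by linarith) (by norm_num) (by norm_num) (by norm_num)
    (cos_le_num (by norm_num)) (sin_le_num (by norm_num) (by norm_num)) (expm_le (by norm_num) (by norm_num) (by norm_num))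
    (expn_ge (by norm_num) (by norm_num)) (by norm_num) (by norm_num) (by norm_num) (by norm_num) (by norm_num)
  exact ⟨hy1, hy2⟩

private theorem yM0 {κ t : ℝ} (h : DomR κ t) (hk1 : 0.53 ≤ κ) (hk2 : κ ≤ 0.56) (ht1 : -0.9344 ≤ t + κ) (ht2 : t + κ ≤ -0.92539) :
    (-0.657) ≤ sy κ t ∧ sy κ t ≤ (-0.616) := by
  have hy1 : -0.657 ≤ sy κ t := syL_ang2 h 0.53 0.56 0.9344 0.653 0.7942 0.6076 0.657 1.92898 0.5184 hk1 hk2 (by linarith) (by norm_num) (by norm_num) (by norm_num) (by norm_num)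
    (cos_ge_num (by norm_num) (by norm_num)) (sin_le_num (by norm_num) (by norm_num))
    (expn_ge (by norm_num) (by norm_num)) (expm_ge (by norm_num) (by norm_num) (by norm_num) (by norm_num)) (by norm_num) (by norm_num) (by norm_num)
    (by norm_num) (by norm_num) (by norm_num)
  have hy2 : sy κ t ≤ -0.616 := syL_le h 0.53 0.56 0.92539 0.616 0.5401 0.54011 0.5941 0.62776 hk1 hk2 (by linarith) (by norm_num) (by norm_num) (by norm_num)
    (expm_ge (by norm_num) (by norm_num) (by norm_num) (by norm_num)) (expm_le (by norm_num) (by norm_num) (by norm_num)) (by norm_num)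
    (by norm_num) (by norm_num) (by norm_num) (by norm_num) (by norm_num) (by norm_num)
  exact ⟨hy1, hy2⟩

theorem middle {β r h t κ : ℝ} (hh : h = 2 * Real.pi / (3 : ℕ)) (hβ : 0 < β) (hr : 10 ≤ r) (hκ : κ = β * r)
    (hk1 : 0.53 ≤ κ) (hk2 : κ ≤ 0.56) (hT1 : 1.16 ≤ t + κ) (hT2 : t + κ ≤ 1.169) :
    ‖Xf β r h t (-1)‖ < |‖Xf β r h t 1‖ - ‖Xf β r h t 0‖| := by
  obtain ⟨q1, q2, q3⟩ := b3_h hh
  have hR0 := b3_R0 hβ hr hκ
  have hR := b3_R hβ hr hκ (by linarith)
  have hD1 : DomR κ t := b3_dom (by linarith) (by linarith) (Or.inl (by linarith))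
  have hD0 : DomR κ (t - h) := b3_dom (by linarith) (by linarith) (Or.inl (by linarith))
  have hy := yM1 hD1 hk1 hk2 (by linarith) (by linarith)
  have hy0 := yM0 hD0 hk1 hk2 (by linarith) (by linarith)
  have hY : 0.8417 * Real.exp (r * 0.60834) ≤ ‖Xf β r h t 1‖ :=
    b3_lo hβ hr hκ (k := 1) (t' := t) (by push_cast; ring) hD1 0.025 1.8004 0.8417 0.60834 (by norm_num)
      (T3_11_p1 hD1 hβ hk1 hk2 (by linarith) (by linarith) hR0 hR)
      (v5_Dup hD1 0.56 0 0.317 1 0.72834 1.8004 hk2 hy.1 hy.2 (ex_up 0 (by norm_num) (by norm_num) (by norm_num) (by norm_num)) (ex_um 0.317 (by norm_num) (by norm_num) (by norm_num) (by norm_num)) (by norm_num) (by norm_num) (by norm_num)) (by norm_num) (by norm_num)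
      (b3_Vlo hD1 0.53 0.56 0 1.169 0.47 (-0.75502) 0.8881 0.63087 0.46066 0.60834 hk1 hk2 (by linarith) (by linarith) (by norm_num) (ex_lm 0.75502 (by norm_num) (by norm_num) (by norm_num) (by norm_num) (by norm_num)) (by norm_num) (by norm_num) (by norm_num) (by norm_num) (by norm_num) (by norm_num) (by norm_num) (by norm_num) (ex_um 0.46066 (by norm_num) (by norm_num) (by norm_num) (by norm_num)) (by norm_num))
  have hU : ‖Xf β r h t 0‖ ≤ 1.2874 * Real.exp (r * 0.55577) :=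
    b3_up hβ hr hκ (k := 0) (t' := t - h) (by push_cast; ring) hD0 0.19 0.7301 1.2874 0.55577
      (T3_11_p0m hD0 hβ hk1 hk2 (by linarith) (by linarith) hR0 hR) (v5_Dlo hD0 0.53 (-0.657) (-0.616) (-0.636) 1.8889 0.7301 (by norm_num) hk1 hy0.1 hy0.2 (ex_lp 0.636 (by norm_num) (by norm_num) (by norm_num)) (by norm_num) (by norm_num) (by norm_num) (by norm_num)) (by norm_num) (by norm_num)
      (b3_VH hD0 1.09 0.53 0.56 1.56444 1.78194 1.84117 0.56119 0.54314 (-0.92539) 0.55577 (by norm_num) hk1 hk2 (by norm_num) (ex_up 0.5777 (by norm_num) (by norm_num) (by norm_num) (by norm_num)) (ex_up 0.6104 (by norm_num) (by norm_num) (by norm_num) (by norm_num)) (ex_um 0.5777 (by norm_num) (by norm_num) (by norm_num) (by norm_num)) (ex_um 0.6104 (by norm_num) (by norm_num) (by norm_num) (by norm_num)) (by norm_num) (by norm_num) (by norm_num) (by linarith) (by norm_num))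
  have h0 : ‖Xf β r h t 0‖ ≤ 0.9061 * ‖Xf β r h t 1‖ :=
    b3_cmp 1 0 0.5924 0.05257 0 0.90609 0.9061 hr (b3_w hU) hY (by norm_num) (by norm_num) (by norm_num) (by norm_num) (by norm_num) (by norm_num) (by norm_num) (by norm_num) (by norm_num) (ex_un 0 0.5257 (by norm_num) (by norm_num) (by norm_num) (by norm_num)) (by norm_num) (by norm_num)
  have h2 : ‖Xf β r h t (-1)‖ ≤ 0.0023 * ‖Xf β r h t 1‖ := by
    exact b3_cmp 1 0 0.003772 0.55834 0 0.00228 0.0023 hr ((b3_Xm hh).trans_le (b3_U1 0.53 0.56 3.25439 3.2634 1.12359 0.09441 1.0511 0.9016 0.00002 0.4473 0.000001 0.5087 hβ hr hκ (by norm_num) hk1 hk2 (by linarith) (by linarith) (by norm_num) (by norm_num) (by norm_num) (by norm_num) (by norm_num) (by norm_num) (by norm_num) (by norm_num) (by norm_num) (by norm_num) (by norm_num) (by norm_num) (by norm_num) (ex_un 9 0.016 (by norm_num) (by norm_num) (by norm_num) (by norm_num)) (v5_hump 1.4863 17.857 4.2258 0.0000003148 0.000001 hβ hr hκ hk1 hk2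 (by norm_num) (tb := 3.2634) (by linarith) (by norm_num) (by norm_num) (by norm_num) (by norm_num) (by norm_num) (by norm_num) (by norm_num) (ex_un 14 0.99 (by norm_num) (by norm_num) (by norm_num) (by norm_num)) (by norm_num)) (by norm_num))) hY (by norm_num) (by norm_num) (by norm_num) (by norm_num) (by norm_num) (by norm_num) (by norm_num) (by norm_num) (by norm_num) (ex_un 5 0.5834 (by norm_num) (by norm_num) (by norm_num) (by norm_num)) (by norm_num) (by norm_num)
  exact b3_out1 0.9061 0.0023 hY (by norm_num) h0 h2 (by norm_num)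

private theorem yR0 {κ t : ℝ} (h : DomR κ t) (hk1 : 0.53 ≤ κ) (hk2 : κ ≤ 0.56) (ht1 : -0.7124 ≤ t + κ) (ht2 : t + κ ≤ 0.0001) :
    (-0.439) ≤ sy κ t ∧ sy κ t ≤ 0.005 := by
  have hy1 : -0.439 ≤ sy κ t := syL_ge h 0.53 0.56 0.7124 0.439 0.64468 0.64469 0.4982 0.50538 0.534 hk1 hk2 (by linarith) (by norm_num) (by norm_num) (by norm_num)
    (expm_ge (by norm_num) (by norm_num) (by norm_num) (by norm_num)) (expm_le (by norm_num) (by norm_num) (by norm_num)) (by norm_num)
    (by norm_num) (by norm_num) (by norm_num) (by norm_num) (by norm_num) (by norm_num)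
  have hy2 : sy κ t ≤ 0.005 := syR_le h 0.53 0.56 0.0001 0.005 1.00501 0.0088 0.00897 0.00949 hk1 hk2 (by linarith) (by norm_num) (by norm_num)
    (expn_ge (by norm_num) (by norm_num)) (by norm_num) (by norm_num) (Or.inr ((mul_le_mul_of_nonneg_left (expn_le (E := 1.00502) (by norm_num) (by norm_num) (by norm_num)) (by norm_num)).trans (by norm_num))) (by norm_num) (by norm_num) (by norm_num)
  exact ⟨hy1, hy2⟩

theorem right0 {β r h t κ : ℝ} (hh : h = 2 * Real.pi / (3 : ℕ)) (hβ : 0 < β) (hr : 10 ≤ r) (hκ : κ = β * r)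
    (hk1 : 0.53 ≤ κ) (hk2 : κ ≤ 0.56) (hT1 : 1.382 ≤ t + κ) (hT2 : t + κ ≤ h) :
    ‖Xf β r h t (-1)‖ < |‖Xf β r h t 1‖ - ‖Xf β r h t 0‖| := by
  obtain ⟨q1, q2, q3⟩ := b3_h hh
  have hR0 := b3_R0 hβ hr hκ
  have hR := b3_R hβ hr hκ (by linarith)
  have hD0 : DomR κ (t - h) := b3_dom (by linarith) (by linarith) (Or.inl (by linarith))
  have hy := yR0 hD0 hk1 hk2 (by linarith) (by linarith)
  have hY : 0.8675 * Real.exp (r * 0.74877) ≤ ‖Xf β r h t 0‖ :=
    b3_lo hβ hr hκ (k := 0) (t' := t - h) (by push_cast; ring) hD0 0.07 1.3205 0.8675 0.74877 (by norm_num)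
      (T3_11_p0R hD0 hβ hk1 hk2 (by linarith) (by linarith) hR0 hR)
      (v5_Dup hD0 0.56 (-0.439) 0.005 1.55116 0.99502 1.3205 hk2 hy.1 hy.2 (ex_up 0.439 (by norm_num) (by norm_num) (by norm_num) (by norm_num)) (ex_um 0.005 (by norm_num) (by norm_num) (by norm_num) (by norm_num)) (by norm_num) (by norm_num) (by norm_num)) (by norm_num) (by norm_num)
      (b3_Vlo hD0 0.53 0.56 (-0.7124) 0.0001 1.3 0.26237 0.5534 0.85074 0.16165 0.74877 hk1 hk2 (by linarith) (by linarith) (by norm_num) (ex_lp 0.26237 (by norm_num) (by norm_num) (by norm_num)) (by norm_num) (by norm_num) (by norm_num) (by norm_num) (by norm_num) (by norm_num) (by norm_num) (by norm_num) (ex_um 0.16165 (by norm_num) (by norm_num) (by norm_num) (by norm_num)) (by norm_num))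
  have h1 : ‖Xf β r h t 1‖ ≤ 0.2524 * ‖Xf β r h t 0‖ := by
    rcases le_total (t + κ) 1.8 with g0 | g0
    · exact b3_cmp 0.08627 0.24515 0.0005609 0.74877 0.252297 0.000087 0.2524 hr (b3_X1.trans_le (b3_HF 0.55 0.53 0.56 1.382 1.8 1.26372 0.74715 0.73492 1.33844 1.36071 0.73491 2.4097 0.09441 2.3927 0.3007 0.09178 0.4053 0.000001 2.537 0.1339 0.50362 hβ hr hκ (by norm_num) hk1 hk2 (by norm_num) (by linarith) (by linarith) (by norm_num) (ex_um 0.2915 (by norm_num) (by norm_num) (by norm_num) (by norm_num)) (ex_um 0.308 (by norm_num) (by norm_num) (by norm_num) (by norm_num)) (ex_up 0.2915 (by norm_num) (by norm_num) (by norm_num) (by norm_num)) (ex_up 0.308 (by norm_num) (by norm_num) (by norm_num) (by norm_num)) (by norm_num) (by norm_num) (ex_lm 0.308 (by norm_num) (by norm_num) (by norm_num) (by norm_num) (by norm_num)) (by norm_num) (by norm_num) (by norm_num) (by norm_num) (by norm_num) (by norm_num) (by norm_num) (by norm_num) (by norm_num)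 (by norm_num) (by norm_num) (by norm_num) (ex_un 0 0.9178 (by norm_num) (by norm_num) (by norm_num) (by norm_num)) (v5_hump 2.9497 17.857 4.2258 0.0000003148 0.000001 hβ hr hκ hk1 hk2 (by norm_num) (tb := 1.8) (by linarith) (by norm_num) (by norm_num) (by norm_num) (by norm_num) (by norm_num) (by norm_num) (by norm_num) (ex_un 14 0.99 (by norm_num) (by norm_num) (by norm_num) (by norm_num)) (by norm_num)) (by norm_num) (by norm_num) (by norm_num))) hY (by norm_num) (by norm_num) (by norm_num) (by norm_num) (by norm_num) (ex_un 2 0.4515 (by norm_num) (by norm_num) (by norm_num) (by norm_num)) (by norm_num) (by norm_num) (by norm_num) (ex_un 7 0.4877 (by norm_num) (by norm_num) (by norm_num) (by norm_num)) (by norm_num) (by norm_num)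
    exact b3_cmp 1 0 0.05134 0.29877 0 0.226163 0.2524 hr (b3_w (b3_UD1 0.53 0.56 1.8 2.0944 0.4 0.548 0.4 1.9923 3.8215 0.45 hβ hr hκ (by norm_num) hk1 hk2 (by linarith) (by linarith) (by norm_num) (by norm_num) (by norm_num) (by norm_num) (by norm_num) (by norm_num) (by norm_num) (by norm_num) (by norm_num) (by norm_num) (by norm_num) (by norm_num) (by norm_num))) hY (by norm_num) (by norm_num) (by norm_num) (by norm_num) (by norm_num) (by norm_num) (by norm_num) (by norm_num) (by norm_num) (ex_un 2 0.9877 (by norm_num) (by norm_num) (by norm_num) (by norm_num)) (by norm_num) (by norm_num)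
  have h2 : ‖Xf β r h t (-1)‖ ≤ 0.0006 * ‖Xf β r h t 0‖ := by
    exact b3_cmp 1 0 0.0009404 0.69877 0 0.000537 0.0006 hr ((b3_Xm hh).trans_le (b3_U1 0.53 0.56 3.47639 4.1888 1.34559 0.09441 1.0511 0.8691 0.00002 0.5173 0.00008 0.4949 hβ hr hκ (by norm_num) hk1 hk2 (by linarith) (by linarith) (by norm_num) (by norm_num) (by norm_num) (by norm_num) (by norm_num) (by norm_num) (by norm_num) (by norm_num) (by norm_num) (by norm_num) (by norm_num) (by norm_num) (by norm_num) (ex_un 8 0.691 (by norm_num) (by norm_num) (by norm_num) (by norm_num)) (v5_hump 0.5609 17.857 4.2258 0.00004469 0.00008 hβ hr hκ hk1 hk2 (by norm_num) (tb := 4.1888) (by linarith) (by norm_num) (by norm_num) (by norm_num) (by norm_num) (by norm_num) (by norm_num) (by norm_num) (ex_un 10 0.0159 (by norm_num) (by norm_num) (by norm_num) (by norm_num)) (by norm_num)) (by norm_num))) hY (by norm_num) (by norm_num) (by norm_num) (by norm_num) (by norm_num) (by norm_num) (by norm_num)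 (by norm_num) (by norm_num) (ex_un 6 0.9877 (by norm_num) (by norm_num) (by norm_num) (by norm_num)) (by norm_num) (by norm_num)
  exact b3_out0 0.2524 0.0006 hY (by norm_num) h1 h2 (by norm_num)

private theorem yI {κ t : ℝ} (h : DomR κ t) (hk1 : 0.53 ≤ κ) (hk2 : κ ≤ 0.56) (ht1 : -0.9254 ≤ t + κ) (ht2 : t + κ ≤ -0.71239) :
    (-0.648) ≤ sy κ t ∧ sy κ t ≤ (-0.421) := by
  have hy1 : -0.648 ≤ sy κ t := syL_ang2 h 0.53 0.56 0.9254 0.65 0.796 0.6052 0.648 1.9117 0.52309 hk1 hk2 (by linarith) (by norm_num) (by norm_num) (by norm_num) (by norm_num)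
    (cos_ge_num (by norm_num) (by norm_num)) (sin_le_num (by norm_num) (by norm_num))
    (expn_ge (by norm_num) (by norm_num)) (expm_ge (by norm_num) (by norm_num) (by norm_num) (by norm_num)) (by norm_num) (by norm_num) (by norm_num)
    (by norm_num) (by norm_num) (by norm_num)
  have hy2 : sy κ t ≤ -0.421 := syL_le h 0.53 0.56 0.71239 0.421 0.65639 0.6564 0.49346 0.52141 hk1 hk2 (by linarith) (by norm_num) (by norm_num) (by norm_num)
    (expm_ge (by norm_num) (by norm_num) (by norm_num) (by norm_num)) (expm_le (by norm_num) (by norm_num) (by norm_num)) (by norm_num)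
    (by norm_num) (by norm_num) (by norm_num) (by norm_num) (by norm_num) (by norm_num)
  exact ⟨hy1, hy2⟩

theorem innE {β r h t κ : ℝ} (hh : h = 2 * Real.pi / (3 : ℕ)) (hβ : 0 < β) (hr : 10 ≤ r) (hκ : κ = β * r)
    (hk1 : 0.53 ≤ κ) (hk2 : κ ≤ 0.56) (hT1 : 1.169 ≤ t + κ) (hT2 : t + κ ≤ 1.382) :
    ‖Xf β r h t (-1)‖ ≤ 0.00465 * ‖Xf β r h t 0‖ ∧ ‖Xf β r h (t + β) (-1)‖ ≤ 0.00465 * ‖Xf β r h t 0‖ := by
  obtain ⟨q1, q2, q3⟩ := b3_h hh
  have hR0 := b3_R0 hβ hr hκ
  have hR := b3_R hβ hr hκ (by linarith)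
  have hD0 : DomR κ (t - h) := b3_dom (by linarith) (by linarith) (Or.inl (by linarith))
  have hy := yI hD0 hk1 hk2 (by linarith) (by linarith)
  have hY : 0.84 * Real.exp (r * 0.53826) ≤ ‖Xf β r h t 0‖ :=
    b3_lo hβ hr hκ (k := 0) (t' := t - h) (by push_cast; ring) hD0 0.185 0.8859 0.84 0.53826 (by norm_num)
      (T3_11_p0 hD0 hβ hk1 hk2 (by linarith) (by linarith) hR0 hR)
      (v5_Dup hD0 0.56 (-0.648) (-0.421) 1.91172 1.52349 0.8859 hk2 hy.1 hy.2 (ex_up 0.648 (by norm_num) (by norm_num) (by norm_num) (by norm_num)) (ex_up 0.421 (by norm_num) (by norm_num) (by norm_num) (by norm_num)) (by norm_num) (by norm_num) (by norm_num)) (by norm_num) (by norm_num)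
      (b3_Vlo hD0 0.53 0.56 (-0.9254) (-0.71239) 1.45 0.37157 0.6869 0.77321 0.25721 0.53826 hk1 hk2 (by linarith) (by linarith) (by norm_num) (ex_lp 0.37157 (by norm_num) (by norm_num) (by norm_num)) (by norm_num) (by norm_num) (by norm_num) (by norm_num) (by norm_num) (by norm_num) (by norm_num) (by norm_num) (ex_um 0.25721 (by norm_num) (by norm_num) (by norm_num) (by norm_num)) (by norm_num))
  constructor
  · exact b3_cmp 1 0 0.007675 0.48826 0 0.004643 0.00465 hr ((b3_Xm hh).trans_le (b3_U1 0.53 0.56 3.26339 3.4764 1.13259 0.09441 1.0511 0.9054 0.00002 0.4383 0.000001 0.5081 hβ hr hκ (by norm_num) hk1 hk2 (by linarith) (by linarith) (by norm_num) (by norm_num) (by norm_num) (by norm_num) (by norm_num) (by norm_num) (by norm_num) (by norm_num) (by norm_num) (by norm_num) (by norm_num) (by norm_num) (by norm_num) (ex_un 9 0.054 (by norm_num) (by norm_num) (by norm_num) (by norm_num)) (v5_hump 1.2733 17.857 4.2258 0.0000003148 0.000001 hβ hr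 hκ hk1 hk2 (by norm_num) (tb := 3.4764) (by linarith) (by norm_num) (by norm_num) (by norm_num) (by norm_num) (by norm_num) (by norm_num) (by norm_num) (ex_un 14 0.99 (by norm_num) (by norm_num) (by norm_num) (by norm_num)) (by norm_num)) (by norm_num))) hY (by norm_num) (by norm_num) (by norm_num) (by norm_num) (by norm_num) (by norm_num) (by norm_num) (by norm_num) (by norm_num) (ex_un 4 0.8826 (by norm_num) (by norm_num) (by norm_num) (by norm_num)) (by norm_num) (by norm_num)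
  · exact b3_cmp 1 0 0.007675 0.48826 0 0.004643 0.00465 hr ((b3_Xm hh).trans_le (b3_U1 0.53 0.56 3.26339 3.5324 1.13259 0.09441 1.0511 0.9054 0.00002 0.4383 0.000001 0.5081 hβ hr hκ (by norm_num) hk1 hk2 (by linarith) (by linarith) (by norm_num) (by norm_num) (by norm_num) (by norm_num) (by norm_num) (by norm_num) (by norm_num) (by norm_num) (by norm_num) (by norm_num) (by norm_num) (by norm_num) (by norm_num) (ex_un 9 0.054 (by norm_num) (by norm_num) (by norm_num) (by norm_num)) (v5_hump 1.2173 17.857 4.2258 0.0000003148 0.000001 hβ hr hκ hk1 hk2 (by norm_num) (tb := 3.5324) (by linarith) (by norm_num) (by norm_num) (by norm_num) (by norm_num) (by norm_num) (by norm_num) (by norm_num) (ex_un 14 0.99 (by norm_num) (by norm_num) (by norm_num) (by norm_num)) (by norm_num)) (by norm_num))) hY (by norm_num) (by norm_num) (by norm_num) (by norm_num) (by norm_num) (by norm_num) (by norm_num) (by norm_num) (by norm_num) (ex_un 4 0.8826 (by norm_num)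 (by norm_num) (by norm_num) (by norm_num)) (by norm_num) (by norm_num)

private theorem yA0 {κ t : ℝ} (h : DomR κ t) (hk1 : 0.53 ≤ κ) (hk2 : κ ≤ 0.56) (ht1 : 1.169 ≤ t + κ) (ht2 : t + κ ≤ 1.199) :
    0.301 ≤ sy κ t ∧ sy κ t ≤ 0.321 := by
  have hy1 : 0.301 ≤ sy κ t := syR_ge h 0.53 0.56 1.169 0.301 1.3512 1.35121 0.72626 0.76739 hk1 hk2 (by linarith) (by norm_num) (by norm_num)
    (expn_ge (by norm_num) (by norm_num)) (expn_le (by norm_num) (by norm_num) (by norm_num)) (by norm_num)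
    (by norm_num) (by norm_num) (by norm_num) (by norm_num) (by norm_num) (by norm_num)
  have hy2 : sy κ t ≤ 0.321 := syR_ang2 h 0.53 0.56 1.199 0.91 0.6146 0.7897 0.321 0.72543 1.3785 hk1 hk2 (by linarith) (by norm_num) (by norm_num) (by norm_num)
    (cos_le_num (by norm_num)) (sin_le_num (by norm_num) (by norm_num)) (expm_le (by norm_num) (by norm_num) (by norm_num))
    (expn_ge (by norm_num) (by norm_num)) (by norm_num) (by norm_num) (by norm_num) (by norm_num) (by norm_num)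
  exact ⟨hy1, hy2⟩

private theorem yB0 {κ t : ℝ} (h : DomR κ t) (hk1 : 0.53 ≤ κ) (hk2 : κ ≤ 0.56) (ht1 : -0.9254 ≤ t + κ) (ht2 : t + κ ≤ -0.89539) :
    (-0.648) ≤ sy κ t ∧ sy κ t ≤ (-0.587) := by
  have hy1 : -0.648 ≤ sy κ t := syL_ang2 h 0.53 0.56 0.9254 0.65 0.796 0.6052 0.648 1.9117 0.52309 hk1 hk2 (by linarith) (by norm_num) (by norm_num) (by norm_num) (by norm_num)
    (cos_ge_num (by norm_num) (by norm_num)) (sin_le_num (by norm_num) (by norm_num))
    (expn_ge (by norm_num) (by norm_num)) (expm_ge (by norm_num) (by norm_num) (by norm_num) (by norm_num)) (by norm_num) (by norm_num) (by norm_num)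
    (by norm_num) (by norm_num) (by norm_num)
  have hy2 : sy κ t ≤ -0.587 := syL_le h 0.53 0.56 0.89539 0.587 0.55599 0.556 0.58279 0.6158 hk1 hk2 (by linarith) (by norm_num) (by norm_num) (by norm_num)
    (expm_ge (by norm_num) (by norm_num) (by norm_num) (by norm_num)) (expm_le (by norm_num) (by norm_num) (by norm_num)) (by norm_num)
    (by norm_num) (by norm_num) (by norm_num) (by norm_num) (by norm_num) (by norm_num)
  exact ⟨hy1, hy2⟩

theorem pc0 {β r h t κ : ℝ} (hh : h = 2 * Real.pi / (3 : ℕ)) (hβ : 0 < β) (hr : 10 ≤ r) (hκ : κ = β * r)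
    (hk1 : 0.53 ≤ κ) (hk2 : κ ≤ 0.56) (hT1 : 1.169 ≤ t + κ) (hT2 : t + κ ≤ 1.199) :
    Xf β r h t 0 ≠ 0 ∧ r * 0.0922 ≤ (Ld β r h t 1 - Ld β r h t 0).im ∧
      ‖(((-1 : ℤ) : ℂ) - 1) * Ld β r h t 0 - ((-1 : ℤ) : ℂ) * Ld β r h t 1‖ ≤ r * 7.93 := by
  obtain ⟨q1, q2, q3⟩ := b3_h hh
  have hR0 := b3_R0 hβ hr hκ
  have hR := b3_R hβ hr hκ (by linarith)
  have hD1 : DomR κ t := b3_dom (by linarith) (by linarith) (Or.inl (by linarith))
  have hD0 : DomR κ (t - h) := b3_dom (by linarith) (by linarith) (Or.inl (by linarith))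
  have y1 := yA0 hD1 hk1 hk2 (by linarith) (by linarith)
  have y0 := yB0 hD0 hk1 hk2 (by linarith) (by linarith)
  have j1 := T3_11_d1_0 hD1 hβ hk1 hk2 (by linarith) (by linarith) hR0 hR
  exact b3_piece 0.53 0.56 0.301 0.321 0.311 0.73271 0.74008 0.72543 0.4145 1.7558 1.8071 0.06 0.04 0.04 0.6945 0.2173 0 0 (-0.648) (-0.587) (-0.618) 1.8552 1.91172 1.0706 0.7287 0.03 0.285 0.185 11.6565 14.6192 0.0668 0.0982 0.0922 7.93
    hβ hr hκ (by norm_num) hk1 hk2 hD1 hD0 j1 (j1 _ (by rw [sub_self, norm_zero]; norm_num))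
    (T3_11_d0_0 hD0 hβ hk1 hk2 (by linarith) (by linarith) hR0 hR)
    (T3_11_p0 hD0 hβ hk1 hk2 (by linarith) (by linarith) hR0 hR)
    y1.1 y1.2 y0.1 y0.2 (by norm_num)
    (ex_um 0.301 (by norm_num) (by norm_num) (by norm_num) (by norm_num)) (ex_um 0.321 (by norm_num) (by norm_num) (by norm_num) (by norm_num)) (ex_lm 0.311 (by norm_num) (by norm_num) (by norm_num) (by norm_num) (by norm_num)) (by norm_num) (by norm_num) (by norm_num) (by norm_num) (by norm_num) (by norm_num) (by norm_num) (by norm_num)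
    (by norm_num) (by norm_num) (by norm_num) (by norm_num) (by norm_num) (by norm_num) (by norm_num) (by norm_num) (by norm_num) (by norm_num)
    (ex_up 0.648 (by norm_num) (by norm_num) (by norm_num) (by norm_num)) (ex_lp 0.618 (by norm_num) (by norm_num) (by norm_num)) (by norm_num) (by norm_num) (by norm_num) (by norm_num) (by norm_num) (by norm_num)
    (by norm_num) (by norm_num) (by norm_num) (by norm_num) (by norm_num) (by norm_num) (by norm_num) (by norm_num) (by norm_num) (by norm_num) (by norm_num)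
    (by norm_num) (by norm_num) (by norm_num) (by norm_num)

private theorem yA1 {κ t : ℝ} (h : DomR κ t) (hk1 : 0.53 ≤ κ) (hk2 : κ ≤ 0.56) (ht1 : 1.199 ≤ t + κ) (ht2 : t + κ ≤ 1.222) :
    0.305 ≤ sy κ t ∧ sy κ t ≤ 0.324 := by
  have hy1 : 0.305 ≤ sy κ t := syR_ge h 0.53 0.56 1.199 0.305 1.35662 1.35663 0.73887 0.78071 hk1 hk2 (by linarith) (by norm_num) (by norm_num)
    (expn_ge (by norm_num) (by norm_num)) (expn_le (by norm_num) (by norm_num) (by norm_num)) (by norm_num)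
    (by norm_num) (by norm_num) (by norm_num) (by norm_num) (by norm_num) (by norm_num)
  have hy2 : sy κ t ≤ 0.324 := syR_ang2 h 0.53 0.56 1.222 0.926 0.6019 0.7994 0.324 0.72326 1.38264 hk1 hk2 (by linarith) (by norm_num) (by norm_num) (by norm_num)
    (cos_le_num (by norm_num)) (sin_le_num (by norm_num) (by norm_num)) (expm_le (by norm_num) (by norm_num) (by norm_num))
    (expn_ge (by norm_num) (by norm_num)) (by norm_num) (by norm_num) (by norm_num) (by norm_num) (by norm_num)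
  exact ⟨hy1, hy2⟩

private theorem yB1 {κ t : ℝ} (h : DomR κ t) (hk1 : 0.53 ≤ κ) (hk2 : κ ≤ 0.56) (ht1 : -0.8954 ≤ t + κ) (ht2 : t + κ ≤ -0.87239) :
    (-0.616) ≤ sy κ t ∧ sy κ t ≤ (-0.564) := by
  have hy1 : -0.616 ≤ sy κ t := syL_ge h 0.53 0.56 0.8954 0.616 0.5401 0.54011 0.5997 0.5941 0.62776 hk1 hk2 (by linarith) (by norm_num) (by norm_num) (by norm_num)
    (expm_ge (by norm_num) (by norm_num) (by norm_num) (by norm_num)) (expm_le (by norm_num) (by norm_num) (by norm_num)) (by norm_num)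
    (by norm_num) (by norm_num) (by norm_num) (by norm_num) (by norm_num) (by norm_num)
  have hy2 : sy κ t ≤ -0.564 := syL_le h 0.53 0.56 0.87239 0.564 0.56892 0.56894 0.57298 0.60544 hk1 hk2 (by linarith) (by norm_num) (by norm_num) (by norm_num)
    (expm_ge (by norm_num) (by norm_num) (by norm_num) (by norm_num)) (expm_le (by norm_num) (by norm_num) (by norm_num)) (by norm_num)
    (by norm_num) (by norm_num) (by norm_num) (by norm_num) (by norm_num) (by norm_num)
  exact ⟨hy1, hy2⟩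

theorem pc1 {β r h t κ : ℝ} (hh : h = 2 * Real.pi / (3 : ℕ)) (hβ : 0 < β) (hr : 10 ≤ r) (hκ : κ = β * r)
    (hk1 : 0.53 ≤ κ) (hk2 : κ ≤ 0.56) (hT1 : 1.199 ≤ t + κ) (hT2 : t + κ ≤ 1.222) :
    Xf β r h t 0 ≠ 0 ∧ r * 0.0922 ≤ (Ld β r h t 1 - Ld β r h t 0).im ∧
      ‖(((-1 : ℤ) : ℂ) - 1) * Ld β r h t 0 - ((-1 : ℤ) : ℂ) * Ld β r h t 1‖ ≤ r * 7.93 := by
  obtain ⟨q1, q2, q3⟩ := b3_h hh
  have hR0 := b3_R0 hβ hr hκ
  have hR := b3_R hβ hr hκ (by linarith)
  have hD1 : DomR κ t := b3_dom (by linarith) (by linarith) (Or.inl (by linarith))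
  have hD0 : DomR κ (t - h) := b3_dom (by linarith) (by linarith) (Or.inl (by linarith))
  have y1 := yA1 hD1 hk1 hk2 (by linarith) (by linarith)
  have y0 := yB1 hD0 hk1 hk2 (by linarith) (by linarith)
  have j1 := T3_11_d1_1 hD1 hβ hk1 hk2 (by linarith) (by linarith) hR0 hR
  exact b3_piece 0.53 0.56 0.305 0.324 0.315 0.72978 0.73713 0.72326 0.4128 1.7625 1.8121 0.05 0.045 0.045 0.9425 0.2931 0 0 (-0.616) (-0.564) (-0.59) 1.80398 1.85151 1.0369 0.7296 0.05 0.325 0.185 7.9755 9.6818 0.0976 0.1388 0.0922 7.93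
    hβ hr hκ (by norm_num) hk1 hk2 hD1 hD0 j1 (j1 _ (by rw [sub_self, norm_zero]; norm_num))
    (T3_11_d0_1 hD0 hβ hk1 hk2 (by linarith) (by linarith) hR0 hR)
    (T3_11_p0 hD0 hβ hk1 hk2 (by linarith) (by linarith) hR0 hR)
    y1.1 y1.2 y0.1 y0.2 (by norm_num)
    (ex_um 0.305 (by norm_num) (by norm_num) (by norm_num) (by norm_num)) (ex_um 0.324 (by norm_num) (by norm_num) (by norm_num) (by norm_num)) (ex_lm 0.315 (by norm_num) (by norm_num) (by norm_num) (by norm_num) (by norm_num)) (by norm_num) (by norm_num) (by norm_num) (by norm_num) (by norm_num) (by norm_num) (by norm_num) (by norm_num)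
    (by norm_num) (by norm_num) (by norm_num) (by norm_num) (by norm_num) (by norm_num) (by norm_num) (by norm_num) (by norm_num) (by norm_num)
    (ex_up 0.616 (by norm_num) (by norm_num) (by norm_num) (by norm_num)) (ex_lp 0.59 (by norm_num) (by norm_num) (by norm_num)) (by norm_num) (by norm_num) (by norm_num) (by norm_num) (by norm_num) (by norm_num)
    (by norm_num) (by norm_num) (by norm_num) (by norm_num) (by norm_num) (by norm_num) (by norm_num) (by norm_num) (by norm_num) (by norm_num) (by norm_num)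
    (by norm_num) (by norm_num) (by norm_num) (by norm_num)

private theorem yA2 {κ t : ℝ} (h : DomR κ t) (hk1 : 0.53 ≤ κ) (hk2 : κ ≤ 0.56) (ht1 : 1.222 ≤ t + κ) (ht2 : t + κ ≤ 1.246) :
    0.308 ≤ sy κ t ∧ sy κ t ≤ 0.327 := by
  have hy1 : 0.308 ≤ sy κ t := syR_ge h 0.53 0.56 1.222 0.308 1.3607 1.36071 0.74838 0.79076 hk1 hk2 (by linarith) (by norm_num) (by norm_num)
    (expn_ge (by norm_num) (by norm_num)) (expn_le (by norm_num) (by norm_num) (by norm_num)) (by norm_num)
    (by norm_num) (by norm_num) (by norm_num) (by norm_num) (by norm_num) (by norm_num)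
  have hy2 : sy κ t ≤ 0.327 := syR_ang2 h 0.53 0.56 1.246 0.943 0.5884 0.8095 0.327 0.72109 1.3868 hk1 hk2 (by linarith) (by norm_num) (by norm_num) (by norm_num)
    (cos_le_num (by norm_num)) (sin_le_num (by norm_num) (by norm_num)) (expm_le (by norm_num) (by norm_num) (by norm_num))
    (expn_ge (by norm_num) (by norm_num)) (by norm_num) (by norm_num) (by norm_num) (by norm_num) (by norm_num)
  exact ⟨hy1, hy2⟩

private theorem yB2 {κ t : ℝ} (h : DomR κ t) (hk1 : 0.53 ≤ κ) (hk2 : κ ≤ 0.56) (ht1 : -0.8724 ≤ t + κ) (ht2 : t + κ ≤ -0.84839) :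
    (-0.591) ≤ sy κ t ∧ sy κ t ≤ (-0.542) := by
  have hy1 : -0.591 ≤ sy κ t := syL_ge h 0.53 0.56 0.8724 0.591 0.55377 0.55378 0.5899 0.58442 0.61752 hk1 hk2 (by linarith) (by norm_num) (by norm_num) (by norm_num)
    (expm_ge (by norm_num) (by norm_num) (by norm_num) (by norm_num)) (expm_le (by norm_num) (by norm_num) (by norm_num)) (by norm_num)
    (by norm_num) (by norm_num) (by norm_num) (by norm_num) (by norm_num) (by norm_num)
  have hy2 : sy κ t ≤ -0.542 := syL_le h 0.53 0.56 0.84839 0.542 0.58158 0.58159 0.56288 0.59476 hk1 hk2 (by linarith) (by norm_num) (by norm_num) (by norm_num)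
    (expm_ge (by norm_num) (by norm_num) (by norm_num) (by norm_num)) (expm_le (by norm_num) (by norm_num) (by norm_num)) (by norm_num)
    (by norm_num) (by norm_num) (by norm_num) (by norm_num) (by norm_num) (by norm_num)
  exact ⟨hy1, hy2⟩

theorem pc2 {β r h t κ : ℝ} (hh : h = 2 * Real.pi / (3 : ℕ)) (hβ : 0 < β) (hr : 10 ≤ r) (hκ : κ = β * r)
    (hk1 : 0.53 ≤ κ) (hk2 : κ ≤ 0.56) (hT1 : 1.222 ≤ t + κ) (hT2 : t + κ ≤ 1.246) :
    Xf β r h t 0 ≠ 0 ∧ r * 0.0922 ≤ (Ld β r h t 1 - Ld β r h t 0).im ∧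
      ‖(((-1 : ℤ) : ℂ) - 1) * Ld β r h t 0 - ((-1 : ℤ) : ℂ) * Ld β r h t 1‖ ≤ r * 7.93 := by
  obtain ⟨q1, q2, q3⟩ := b3_h hh
  have hR0 := b3_R0 hβ hr hκ
  have hR := b3_R hβ hr hκ (by linarith)
  have hD1 : DomR κ t := b3_dom (by linarith) (by linarith) (Or.inl (by linarith))
  have hD0 : DomR κ (t - h) := b3_dom (by linarith) (by linarith) (Or.inl (by linarith))
  have y1 := yA2 hD1 hk1 hk2 (by linarith) (by linarith)
  have y0 := yB2 hD0 hk1 hk2 (by linarith) (by linarith)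
  have j1 := T3_11_d1_1 hD1 hβ hk1 hk2 (by linarith) (by linarith) hR0 hR
  exact b3_piece 0.53 0.56 0.308 0.327 0.318 0.7276 0.73492 0.72109 0.4116 1.7676 1.8171 0.05 0.045 0.045 0.9425 0.2918 0 0 (-0.591) (-0.542) (-0.567) 1.76296 1.8058 1.0113 0.7329 0.05 0.325 0.185 7.9755 9.4215 0.125 0.1725 0.0922 7.93
    hβ hr hκ (by norm_num) hk1 hk2 hD1 hD0 j1 (j1 _ (by rw [sub_self, norm_zero]; norm_num))
    (T3_11_d0_1 hD0 hβ hk1 hk2 (by linarith) (by linarith) hR0 hR)
    (T3_11_p0 hD0 hβ hk1 hk2 (by linarith) (by linarith) hR0 hR)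
    y1.1 y1.2 y0.1 y0.2 (by norm_num)
    (ex_um 0.308 (by norm_num) (by norm_num) (by norm_num) (by norm_num)) (ex_um 0.327 (by norm_num) (by norm_num) (by norm_num) (by norm_num)) (ex_lm 0.318 (by norm_num) (by norm_num) (by norm_num) (by norm_num) (by norm_num)) (by norm_num) (by norm_num) (by norm_num) (by norm_num) (by norm_num) (by norm_num) (by norm_num) (by norm_num)
    (by norm_num) (by norm_num) (by norm_num) (by norm_num) (by norm_num) (by norm_num) (by norm_num) (by norm_num) (by norm_num) (by norm_num)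
    (ex_up 0.591 (by norm_num) (by norm_num) (by norm_num) (by norm_num)) (ex_lp 0.567 (by norm_num) (by norm_num) (by norm_num)) (by norm_num) (by norm_num) (by norm_num) (by norm_num) (by norm_num) (by norm_num)
    (by norm_num) (by norm_num) (by norm_num) (by norm_num) (by norm_num) (by norm_num) (by norm_num) (by norm_num) (by norm_num) (by norm_num) (by norm_num)
    (by norm_num) (by norm_num) (by norm_num) (by norm_num)

private theorem yA3 {κ t : ℝ} (h : DomR κ t) (hk1 : 0.53 ≤ κ) (hk2 : κ ≤ 0.56) (ht1 : 1.246 ≤ t + κ) (ht2 : t + κ ≤ 1.269) :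
    0.31 ≤ sy κ t ∧ sy κ t ≤ 0.33 := by
  have hy1 : 0.31 ≤ sy κ t := syR_ge h 0.53 0.56 1.246 0.31 1.36342 1.36343 0.75475 0.79748 hk1 hk2 (by linarith) (by norm_num) (by norm_num)
    (expn_ge (by norm_num) (by norm_num)) (expn_le (by norm_num) (by norm_num) (by norm_num)) (by norm_num)
    (by norm_num) (by norm_num) (by norm_num) (by norm_num) (by norm_num) (by norm_num)
  have hy2 : sy κ t ≤ 0.33 := syR_ang2 h 0.53 0.56 1.269 0.96 0.5746 0.8194 0.33 0.71893 1.39096 hk1 hk2 (by linarith) (by norm_num) (by norm_num) (by norm_num)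
    (cos_le_num (by norm_num)) (sin_le_num (by norm_num) (by norm_num)) (expm_le (by norm_num) (by norm_num) (by norm_num))
    (expn_ge (by norm_num) (by norm_num)) (by norm_num) (by norm_num) (by norm_num) (by norm_num) (by norm_num)
  exact ⟨hy1, hy2⟩

private theorem yB3 {κ t : ℝ} (h : DomR κ t) (hk1 : 0.53 ≤ κ) (hk2 : κ ≤ 0.56) (ht1 : -0.8484 ≤ t + κ) (ht2 : t + κ ≤ -0.82539) :
    (-0.567) ≤ sy κ t ∧ sy κ t ≤ (-0.52) := by
  have hy1 : -0.567 ≤ sy κ t := syL_ge h 0.53 0.56 0.8484 0.567 0.56722 0.56723 0.5661 0.57431 0.60683 hk1 hk2 (by linarith) (by norm_num) (by norm_num) (by norm_num)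
    (expm_ge (by norm_num) (by norm_num) (by norm_num) (by norm_num)) (expm_le (by norm_num) (by norm_num) (by norm_num)) (by norm_num)
    (by norm_num) (by norm_num) (by norm_num) (by norm_num) (by norm_num) (by norm_num)
  have hy2 : sy κ t ≤ -0.52 := syL_le h 0.53 0.56 0.82539 0.52 0.59452 0.59453 0.55205 0.58332 hk1 hk2 (by linarith) (by norm_num) (by norm_num) (by norm_num)
    (expm_ge (by norm_num) (by norm_num) (by norm_num) (by norm_num)) (expm_le (by norm_num) (by norm_num) (by norm_num)) (by norm_num)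
    (by norm_num) (by norm_num) (by norm_num) (by norm_num) (by norm_num) (by norm_num)
  exact ⟨hy1, hy2⟩

theorem pc3 {β r h t κ : ℝ} (hh : h = 2 * Real.pi / (3 : ℕ)) (hβ : 0 < β) (hr : 10 ≤ r) (hκ : κ = β * r)
    (hk1 : 0.53 ≤ κ) (hk2 : κ ≤ 0.56) (hT1 : 1.246 ≤ t + κ) (hT2 : t + κ ≤ 1.269) :
    Xf β r h t 0 ≠ 0 ∧ r * 0.0922 ≤ (Ld β r h t 1 - Ld β r h t 0).im ∧
      ‖(((-1 : ℤ) : ℂ) - 1) * Ld β r h t 0 - ((-1 : ℤ) : ℂ) * Ld β r h t 1‖ ≤ r * 7.93 := by
  obtain ⟨q1, q2, q3⟩ := b3_h hh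
  have hR0 := b3_R0 hβ hr hκ
  have hR := b3_R hβ hr hκ (by linarith)
  have hD1 : DomR κ t := b3_dom (by linarith) (by linarith) (Or.inl (by linarith))
  have hD0 : DomR κ (t - h) := b3_dom (by linarith) (by linarith) (Or.inl (by linarith))
  have y1 := yA3 hD1 hk1 hk2 (by linarith) (by linarith)
  have y0 := yB3 hD0 hk1 hk2 (by linarith) (by linarith)
  have j1 := T3_11_d1_1 hD1 hβ hk1 hk2 (by linarith) (by linarith) hR0 hR
  exact b3_piece 0.53 0.56 0.31 0.33 0.32 0.72614 0.73345 0.71893 0.4108 1.771 1.8221 0.05 0.045 0.045 0.9425 0.291 0 0 (-0.567) (-0.52) (-0.543) 1.72115 1.76298 0.9873 0.738 0.05 0.325 0.185 7.9755 9.166 0.1505 0.2014 0.0922 7.93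
    hβ hr hκ (by norm_num) hk1 hk2 hD1 hD0 j1 (j1 _ (by rw [sub_self, norm_zero]; norm_num))
    (T3_11_d0_1 hD0 hβ hk1 hk2 (by linarith) (by linarith) hR0 hR)
    (T3_11_p0 hD0 hβ hk1 hk2 (by linarith) (by linarith) hR0 hR)
    y1.1 y1.2 y0.1 y0.2 (by norm_num)
    (ex_um 0.31 (by norm_num) (by norm_num) (by norm_num) (by norm_num)) (ex_um 0.33 (by norm_num) (by norm_num) (by norm_num) (by norm_num)) (ex_lm 0.32 (by norm_num) (by norm_num) (by norm_num) (by norm_num) (by norm_num)) (by norm_num) (by norm_num) (by norm_num) (by norm_num) (by norm_num) (by norm_num) (by norm_num) (by norm_num)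
    (by norm_num) (by norm_num) (by norm_num) (by norm_num) (by norm_num) (by norm_num) (by norm_num) (by norm_num) (by norm_num) (by norm_num)
    (ex_up 0.567 (by norm_num) (by norm_num) (by norm_num) (by norm_num)) (ex_lp 0.543 (by norm_num) (by norm_num) (by norm_num)) (by norm_num) (by norm_num) (by norm_num) (by norm_num) (by norm_num) (by norm_num)
    (by norm_num) (by norm_num) (by norm_num) (by norm_num) (by norm_num) (by norm_num) (by norm_num) (by norm_num) (by norm_num) (by norm_num) (by norm_num)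
    (by norm_num) (by norm_num) (by norm_num) (by norm_num)

private theorem yA4 {κ t : ℝ} (h : DomR κ t) (hk1 : 0.53 ≤ κ) (hk2 : κ ≤ 0.56) (ht1 : 1.269 ≤ t + κ) (ht2 : t + κ ≤ 1.297) :
    0.31 ≤ sy κ t ∧ sy κ t ≤ 0.334 := by
  have hy1 : 0.31 ≤ sy κ t := syR_ge h 0.53 0.56 1.269 0.31 1.36342 1.36343 0.75475 0.79748 hk1 hk2 (by linarith) (by norm_num) (by norm_num)
    (expn_ge (by norm_num) (by norm_num)) (expn_le (by norm_num) (by norm_num) (by norm_num)) (by norm_num)
    (by norm_num) (by norm_num) (by norm_num) (by norm_num) (by norm_num) (by norm_num)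
  have hy2 : sy κ t ≤ 0.334 := syR_ang2 h 0.53 0.56 1.297 0.984 0.555 0.8329 0.334 0.71606 1.39654 hk1 hk2 (by linarith) (by norm_num) (by norm_num) (by norm_num)
    (cos_le_num (by norm_num)) (sin_le_num (by norm_num) (by norm_num)) (expm_le (by norm_num) (by norm_num) (by norm_num))
    (expn_ge (by norm_num) (by norm_num)) (by norm_num) (by norm_num) (by norm_num) (by norm_num) (by norm_num)
  exact ⟨hy1, hy2⟩

private theorem yB4 {κ t : ℝ} (h : DomR κ t) (hk1 : 0.53 ≤ κ) (hk2 : κ ≤ 0.56) (ht1 : -0.8254 ≤ t + κ) (ht2 : t + κ ≤ -0.79739) :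
    (-0.544) ≤ sy κ t ∧ sy κ t ≤ (-0.495) := by
  have hy1 : -0.544 ≤ sy κ t := syL_ge h 0.53 0.56 0.8254 0.544 0.58042 0.58043 0.5558 0.56383 0.59577 hk1 hk2 (by linarith) (by norm_num) (by norm_num) (by norm_num)
    (expm_ge (by norm_num) (by norm_num) (by norm_num) (by norm_num)) (expm_le (by norm_num) (by norm_num) (by norm_num)) (by norm_num)
    (by norm_num) (by norm_num) (by norm_num) (by norm_num) (by norm_num) (by norm_num)
  have hy2 : sy κ t ≤ -0.495 := syL_le h 0.53 0.56 0.79739 0.495 0.60957 0.60958 0.53881 0.56933 hk1 hk2 (by linarith) (by norm_num) (by norm_num) (by norm_num)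
    (expm_ge (by norm_num) (by norm_num) (by norm_num) (by norm_num)) (expm_le (by norm_num) (by norm_num) (by norm_num)) (by norm_num)
    (by norm_num) (by norm_num) (by norm_num) (by norm_num) (by norm_num) (by norm_num)
  exact ⟨hy1, hy2⟩

theorem pc4 {β r h t κ : ℝ} (hh : h = 2 * Real.pi / (3 : ℕ)) (hβ : 0 < β) (hr : 10 ≤ r) (hκ : κ = β * r)
    (hk1 : 0.53 ≤ κ) (hk2 : κ ≤ 0.56) (hT1 : 1.269 ≤ t + κ) (hT2 : t + κ ≤ 1.297) :
    Xf β r h t 0 ≠ 0 ∧ r * 0.0922 ≤ (Ld β r h t 1 - Ld β r h t 0).im ∧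
      ‖(((-1 : ℤ) : ℂ) - 1) * Ld β r h t 0 - ((-1 : ℤ) : ℂ) * Ld β r h t 1‖ ≤ r * 7.93 := by
  obtain ⟨q1, q2, q3⟩ := b3_h hh
  have hR0 := b3_R0 hβ hr hκ
  have hR := b3_R hβ hr hκ (by linarith)
  have hD1 : DomR κ t := b3_dom (by linarith) (by linarith) (Or.inl (by linarith))
  have hD0 : DomR κ (t - h) := b3_dom (by linarith) (by linarith) (Or.inl (by linarith))
  have y1 := yA4 hD1 hk1 hk2 (by linarith) (by linarith)
  have y0 := yB4 hD0 hk1 hk2 (by linarith) (by linarith)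
  have j1 := T3_11_d1_2 hD1 hβ hk1 hk2 (by linarith) (by linarith) hR0 hR
  exact b3_piece 0.53 0.56 0.31 0.334 0.322 0.72469 0.73345 0.71606 0.4108 1.771 1.8288 0.03 0.175 0.175 7.0708 2.1827 0 0 (-0.544) (-0.495) (-0.519) 1.68034 1.72289 0.9649 0.7447 0.06 0.24 0.185 4.908 5.4878 0.1782 0.2309 0.0922 7.93
    hβ hr hκ (by norm_num) hk1 hk2 hD1 hD0 j1 (j1 _ (by rw [sub_self, norm_zero]; norm_num))
    (T3_11_d0_2 hD0 hβ hk1 hk2 (by linarith) (by linarith) hR0 hR)
    (T3_11_p0 hD0 hβ hk1 hk2 (by linarith) (by linarith) hR0 hR)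
    y1.1 y1.2 y0.1 y0.2 (by norm_num)
    (ex_um 0.31 (by norm_num) (by norm_num) (by norm_num) (by norm_num)) (ex_um 0.334 (by norm_num) (by norm_num) (by norm_num) (by norm_num)) (ex_lm 0.322 (by norm_num) (by norm_num) (by norm_num) (by norm_num) (by norm_num)) (by norm_num) (by norm_num) (by norm_num) (by norm_num) (by norm_num) (by norm_num) (by norm_num) (by norm_num)
    (by norm_num) (by norm_num) (by norm_num) (by norm_num) (by norm_num) (by norm_num) (by norm_num) (by norm_num) (by norm_num) (by norm_num)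
    (ex_up 0.544 (by norm_num) (by norm_num) (by norm_num) (by norm_num)) (ex_lp 0.519 (by norm_num) (by norm_num) (by norm_num)) (by norm_num) (by norm_num) (by norm_num) (by norm_num) (by norm_num) (by norm_num)
    (by norm_num) (by norm_num) (by norm_num) (by norm_num) (by norm_num) (by norm_num) (by norm_num) (by norm_num) (by norm_num) (by norm_num) (by norm_num)
    (by norm_num) (by norm_num) (by norm_num) (by norm_num)

private theorem yA5 {κ t : ℝ} (h : DomR κ t) (hk1 : 0.53 ≤ κ) (hk2 : κ ≤ 0.56) (ht1 : 1.297 ≤ t + κ) (ht2 : t + κ ≤ 1.325) :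
    0.31 ≤ sy κ t ∧ sy κ t ≤ 0.337 := by
  have hy1 : 0.31 ≤ sy κ t := syR_ge h 0.53 0.56 1.297 0.31 1.36342 1.36343 0.75475 0.79748 hk1 hk2 (by linarith) (by norm_num) (by norm_num)
    (expn_ge (by norm_num) (by norm_num)) (expn_le (by norm_num) (by norm_num) (by norm_num)) (by norm_num)
    (by norm_num) (by norm_num) (by norm_num) (by norm_num) (by norm_num) (by norm_num)
  have hy2 : sy κ t ≤ 0.337 := syR_ang2 h 0.53 0.56 1.325 1.002 0.54 0.8428 0.337 0.71391 1.40073 hk1 hk2 (by linarith) (by norm_num) (by norm_num) (by norm_num)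
    (cos_le_num (by norm_num)) (sin_le_num (by norm_num) (by norm_num)) (expm_le (by norm_num) (by norm_num) (by norm_num))
    (expn_ge (by norm_num) (by norm_num)) (by norm_num) (by norm_num) (by norm_num) (by norm_num) (by norm_num)
  exact ⟨hy1, hy2⟩

private theorem yB5 {κ t : ℝ} (h : DomR κ t) (hk1 : 0.53 ≤ κ) (hk2 : κ ≤ 0.56) (ht1 : -0.7974 ≤ t + κ) (ht2 : t + κ ≤ -0.76939) :
    (-0.517) ≤ sy κ t ∧ sy κ t ≤ (-0.47) := by
  have hy1 : -0.517 ≤ sy κ t := syL_ge h 0.53 0.56 0.7974 0.517 0.5963 0.59631 0.5427 0.55051 0.58169 hk1 hk2 (by linarith) (by norm_num) (by norm_num) (by norm_num)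
    (expm_ge (by norm_num) (by norm_num) (by norm_num) (by norm_num)) (expm_le (by norm_num) (by norm_num) (by norm_num)) (by norm_num)
    (by norm_num) (by norm_num) (by norm_num) (by norm_num) (by norm_num) (by norm_num)
  have hy2 : sy κ t ≤ -0.47 := syL_le h 0.53 0.56 0.76939 0.47 0.625 0.62501 0.52455 0.55426 hk1 hk2 (by linarith) (by norm_num) (by norm_num) (by norm_num)
    (expm_ge (by norm_num) (by norm_num) (by norm_num) (by norm_num)) (expm_le (by norm_num) (by norm_num) (by norm_num)) (by norm_num)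
    (by norm_num) (by norm_num) (by norm_num) (by norm_num) (by norm_num) (by norm_num)
  exact ⟨hy1, hy2⟩

theorem pc5 {β r h t κ : ℝ} (hh : h = 2 * Real.pi / (3 : ℕ)) (hβ : 0 < β) (hr : 10 ≤ r) (hκ : κ = β * r)
    (hk1 : 0.53 ≤ κ) (hk2 : κ ≤ 0.56) (hT1 : 1.297 ≤ t + κ) (hT2 : t + κ ≤ 1.325) :
    Xf β r h t 0 ≠ 0 ∧ r * 0.0922 ≤ (Ld β r h t 1 - Ld β r h t 0).im ∧
      ‖(((-1 : ℤ) : ℂ) - 1) * Ld β r h t 0 - ((-1 : ℤ) : ℂ) * Ld β r h t 1‖ ≤ r * 7.93 := by
  obtain ⟨q1, q2, q3⟩ := b3_h hh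
  have hR0 := b3_R0 hβ hr hκ
  have hR := b3_R hβ hr hκ (by linarith)
  have hD1 : DomR κ t := b3_dom (by linarith) (by linarith) (Or.inl (by linarith))
  have hD0 : DomR κ (t - h) := b3_dom (by linarith) (by linarith) (Or.inl (by linarith))
  have y1 := yA5 hD1 hk1 hk2 (by linarith) (by linarith)
  have y0 := yB5 hD0 hk1 hk2 (by linarith) (by linarith)
  have j1 := T3_11_d1_2 hD1 hβ hk1 hk2 (by linarith) (by linarith) hR0 hR
  exact b3_piece 0.53 0.56 0.31 0.337 0.324 0.72325 0.73345 0.71391 0.4108 1.771 1.8339 0.03 0.175 0.175 7.0708 2.1827 0 0 (-0.517) (-0.47) (-0.493) 1.63721 1.67699 0.9392 0.755 0.06 0.24 0.185 4.908 5.3051 0.202 0.2513 0.0922 7.93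
    hβ hr hκ (by norm_num) hk1 hk2 hD1 hD0 j1 (j1 _ (by rw [sub_self, norm_zero]; norm_num))
    (T3_11_d0_2 hD0 hβ hk1 hk2 (by linarith) (by linarith) hR0 hR)
    (T3_11_p0 hD0 hβ hk1 hk2 (by linarith) (by linarith) hR0 hR)
    y1.1 y1.2 y0.1 y0.2 (by norm_num)
    (ex_um 0.31 (by norm_num) (by norm_num) (by norm_num) (by norm_num)) (ex_um 0.337 (by norm_num) (by norm_num) (by norm_num) (by norm_num)) (ex_lm 0.324 (by norm_num) (by norm_num) (by norm_num) (by norm_num) (by norm_num)) (by norm_num) (by norm_num) (by norm_num) (by norm_num) (by norm_num) (by norm_num) (by norm_num) (by norm_num)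
    (by norm_num) (by norm_num) (by norm_num) (by norm_num) (by norm_num) (by norm_num) (by norm_num) (by norm_num) (by norm_num) (by norm_num)
    (ex_up 0.517 (by norm_num) (by norm_num) (by norm_num) (by norm_num)) (ex_lp 0.493 (by norm_num) (by norm_num) (by norm_num)) (by norm_num) (by norm_num) (by norm_num) (by norm_num) (by norm_num) (by norm_num)
    (by norm_num) (by norm_num) (by norm_num) (by norm_num) (by norm_num) (by norm_num) (by norm_num) (by norm_num) (by norm_num) (by norm_num) (by norm_num)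
    (by norm_num) (by norm_num) (by norm_num) (by norm_num)

private theorem yA6 {κ t : ℝ} (h : DomR κ t) (hk1 : 0.53 ≤ κ) (hk2 : κ ≤ 0.56) (ht1 : 1.325 ≤ t + κ) (ht2 : t + κ ≤ 1.354) :
    0.31 ≤ sy κ t ∧ sy κ t ≤ 0.341 := by
  have hy1 : 0.31 ≤ sy κ t := syR_ge h 0.53 0.56 1.325 0.31 1.36342 1.36343 0.75475 0.79748 hk1 hk2 (by linarith) (by norm_num) (by norm_num)
    (expn_ge (by norm_num) (by norm_num)) (expn_le (by norm_num) (by norm_num) (by norm_num)) (by norm_num)
    (by norm_num) (by norm_num) (by norm_num) (by norm_num) (by norm_num) (by norm_num)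
  have hy2 : sy κ t ≤ 0.341 := syR_ang2 h 0.53 0.56 1.354 1.027 0.519 0.856 0.341 0.71106 1.40635 hk1 hk2 (by linarith) (by norm_num) (by norm_num) (by norm_num)
    (cos_le_num (by norm_num)) (sin_le_num (by norm_num) (by norm_num)) (expm_le (by norm_num) (by norm_num) (by norm_num))
    (expn_ge (by norm_num) (by norm_num)) (by norm_num) (by norm_num) (by norm_num) (by norm_num) (by norm_num)
  exact ⟨hy1, hy2⟩

private theorem yB6 {κ t : ℝ} (h : DomR κ t) (hk1 : 0.53 ≤ κ) (hk2 : κ ≤ 0.56) (ht1 : -0.7694 ≤ t + κ) (ht2 : t + κ ≤ -0.74039) :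
    (-0.491) ≤ sy κ t ∧ sy κ t ≤ (-0.445) := by
  have hy1 : -0.491 ≤ sy κ t := syL_ge h 0.53 0.56 0.7694 0.491 0.61201 0.61202 0.529 0.5366 0.56699 hk1 hk2 (by linarith) (by norm_num) (by norm_num) (by norm_num)
    (expm_ge (by norm_num) (by norm_num) (by norm_num) (by norm_num)) (expm_le (by norm_num) (by norm_num) (by norm_num)) (by norm_num)
    (by norm_num) (by norm_num) (by norm_num) (by norm_num) (by norm_num) (by norm_num)
  have hy2 : sy κ t ≤ -0.445 := syL_le h 0.53 0.56 0.74039 0.445 0.64082 0.64083 0.50922 0.53806 hk1 hk2 (by linarith) (by norm_num) (by norm_num) (by norm_num)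
    (expm_ge (by norm_num) (by norm_num) (by norm_num) (by norm_num)) (expm_le (by norm_num) (by norm_num) (by norm_num)) (by norm_num)
    (by norm_num) (by norm_num) (by norm_num) (by norm_num) (by norm_num) (by norm_num)
  exact ⟨hy1, hy2⟩

theorem pc6 {β r h t κ : ℝ} (hh : h = 2 * Real.pi / (3 : ℕ)) (hβ : 0 < β) (hr : 10 ≤ r) (hκ : κ = β * r)
    (hk1 : 0.53 ≤ κ) (hk2 : κ ≤ 0.56) (hT1 : 1.325 ≤ t + κ) (hT2 : t + κ ≤ 1.354) :
    Xf β r h t 0 ≠ 0 ∧ r * 0.0922 ≤ (Ld β r h t 1 - Ld β r h t 0).im ∧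
      ‖(((-1 : ℤ) : ℂ) - 1) * Ld β r h t 0 - ((-1 : ℤ) : ℂ) * Ld β r h t 1‖ ≤ r * 7.93 := by
  obtain ⟨q1, q2, q3⟩ := b3_h hh
  have hR0 := b3_R0 hβ hr hκ
  have hR := b3_R hβ hr hκ (by linarith)
  have hD1 : DomR κ t := b3_dom (by linarith) (by linarith) (Or.inl (by linarith))
  have hD0 : DomR κ (t - h) := b3_dom (by linarith) (by linarith) (Or.inl (by linarith))
  have y1 := yA6 hD1 hk1 hk2 (by linarith) (by linarith)
  have y0 := yB6 hD0 hk1 hk2 (by linarith) (by linarith)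
  have j1 := T3_11_d1_2 hD1 hβ hk1 hk2 (by linarith) (by linarith) hR0 hR
  exact b3_piece 0.53 0.56 0.31 0.341 0.326 0.7218 0.73345 0.71106 0.4108 1.771 1.8406 0.03 0.175 0.175 7.0708 2.1827 0 0 (-0.491) (-0.445) (-0.468) 1.59679 1.63395 0.9151 0.7671 0.06 0.24 0.185 4.908 5.128 0.2236 0.2668 0.0922 7.93
    hβ hr hκ (by norm_num) hk1 hk2 hD1 hD0 j1 (j1 _ (by rw [sub_self, norm_zero]; norm_num))
    (T3_11_d0_2 hD0 hβ hk1 hk2 (by linarith) (by linarith) hR0 hR)
    (T3_11_p0 hD0 hβ hk1 hk2 (by linarith) (by linarith) hR0 hR)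
    y1.1 y1.2 y0.1 y0.2 (by norm_num)
    (ex_um 0.31 (by norm_num) (by norm_num) (by norm_num) (by norm_num)) (ex_um 0.341 (by norm_num) (by norm_num) (by norm_num) (by norm_num)) (ex_lm 0.326 (by norm_num) (by norm_num) (by norm_num) (by norm_num) (by norm_num)) (by norm_num) (by norm_num) (by norm_num) (by norm_num) (by norm_num) (by norm_num) (by norm_num) (by norm_num)
    (by norm_num) (by norm_num) (by norm_num) (by norm_num) (by norm_num) (by norm_num) (by norm_num) (by norm_num) (by norm_num) (by norm_num)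
    (ex_up 0.491 (by norm_num) (by norm_num) (by norm_num) (by norm_num)) (ex_lp 0.468 (by norm_num) (by norm_num) (by norm_num)) (by norm_num) (by norm_num) (by norm_num) (by norm_num) (by norm_num) (by norm_num)
    (by norm_num) (by norm_num) (by norm_num) (by norm_num) (by norm_num) (by norm_num) (by norm_num) (by norm_num) (by norm_num) (by norm_num) (by norm_num)
    (by norm_num) (by norm_num) (by norm_num) (by norm_num)

private theorem yA7 {κ t : ℝ} (h : DomR κ t) (hk1 : 0.53 ≤ κ) (hk2 : κ ≤ 0.56) (ht1 : 1.354 ≤ t + κ) (ht2 : t + κ ≤ 1.382) :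
    0.31 ≤ sy κ t ∧ sy κ t ≤ 0.344 := by
  have hy1 : 0.31 ≤ sy κ t := syR_ge h 0.53 0.56 1.354 0.31 1.36342 1.36343 0.75475 0.79748 hk1 hk2 (by linarith) (by norm_num) (by norm_num)
    (expn_ge (by norm_num) (by norm_num)) (expn_le (by norm_num) (by norm_num) (by norm_num)) (by norm_num)
    (by norm_num) (by norm_num) (by norm_num) (by norm_num) (by norm_num) (by norm_num)
  have hy2 : sy κ t ≤ 0.344 := syR_ang2 h 0.53 0.56 1.382 1.047 0.502 0.8662 0.344 0.70893 1.41057 hk1 hk2 (by linarith) (by norm_num) (by norm_num) (by norm_num)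
    (cos_le_num (by norm_num)) (sin_le_num (by norm_num) (by norm_num)) (expm_le (by norm_num) (by norm_num) (by norm_num))
    (expn_ge (by norm_num) (by norm_num)) (by norm_num) (by norm_num) (by norm_num) (by norm_num) (by norm_num)
  exact ⟨hy1, hy2⟩

private theorem yB7 {κ t : ℝ} (h : DomR κ t) (hk1 : 0.53 ≤ κ) (hk2 : κ ≤ 0.56) (ht1 : -0.7404 ≤ t + κ) (ht2 : t + κ ≤ -0.71239) :
    (-0.464) ≤ sy κ t ∧ sy κ t ≤ (-0.421) := by
  have hy1 : -0.464 ≤ sy κ t := syL_ge h 0.53 0.56 0.7404 0.464 0.62876 0.62877 0.5135 0.52097 0.55048 hk1 hk2 (by linarith) (by norm_num) (by norm_num) (by norm_num)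
    (expm_ge (by norm_num) (by norm_num) (by norm_num) (by norm_num)) (expm_le (by norm_num) (by norm_num) (by norm_num)) (by norm_num)
    (by norm_num) (by norm_num) (by norm_num) (by norm_num) (by norm_num) (by norm_num)
  have hy2 : sy κ t ≤ -0.421 := syL_le h 0.53 0.56 0.71239 0.421 0.65639 0.6564 0.49346 0.52141 hk1 hk2 (by linarith) (by norm_num) (by norm_num) (by norm_num)
    (expm_ge (by norm_num) (by norm_num) (by norm_num) (by norm_num)) (expm_le (by norm_num) (by norm_num) (by norm_num)) (by norm_num)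
    (by norm_num) (by norm_num) (by norm_num) (by norm_num) (by norm_num) (by norm_num)
  exact ⟨hy1, hy2⟩

theorem pc7 {β r h t κ : ℝ} (hh : h = 2 * Real.pi / (3 : ℕ)) (hβ : 0 < β) (hr : 10 ≤ r) (hκ : κ = β * r)
    (hk1 : 0.53 ≤ κ) (hk2 : κ ≤ 0.56) (hT1 : 1.354 ≤ t + κ) (hT2 : t + κ ≤ 1.382) :
    Xf β r h t 0 ≠ 0 ∧ r * 0.0922 ≤ (Ld β r h t 1 - Ld β r h t 0).im ∧
      ‖(((-1 : ℤ) : ℂ) - 1) * Ld β r h t 0 - ((-1 : ℤ) : ℂ) * Ld β r h t 1‖ ≤ r * 7.93 := by
  obtain ⟨q1, q2, q3⟩ := b3_h hh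
  have hR0 := b3_R0 hβ hr hκ
  have hR := b3_R hβ hr hκ (by linarith)
  have hD1 : DomR κ t := b3_dom (by linarith) (by linarith) (Or.inl (by linarith))
  have hD0 : DomR κ (t - h) := b3_dom (by linarith) (by linarith) (Or.inl (by linarith))
  have y1 := yA7 hD1 hk1 hk2 (by linarith) (by linarith)
  have y0 := yB7 hD0 hk1 hk2 (by linarith) (by linarith)
  have j1 := T3_11_d1_2 hD1 hβ hk1 hk2 (by linarith) (by linarith) hR0 hR
  exact b3_piece 0.53 0.56 0.31 0.344 0.327 0.72108 0.73345 0.70893 0.4108 1.771 1.8457 0.03 0.175 0.175 7.0708 2.1827 0 0 (-0.464) (-0.421) (-0.443) 1.55737 1.59043 0.8907 0.7819 0.06 0.24 0.185 4.908 4.9438 0.2406 0.2741 0.0922 7.93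
    hβ hr hκ (by norm_num) hk1 hk2 hD1 hD0 j1 (j1 _ (by rw [sub_self, norm_zero]; norm_num))
    (T3_11_d0_2 hD0 hβ hk1 hk2 (by linarith) (by linarith) hR0 hR)
    (T3_11_p0 hD0 hβ hk1 hk2 (by linarith) (by linarith) hR0 hR)
    y1.1 y1.2 y0.1 y0.2 (by norm_num)
    (ex_um 0.31 (by norm_num) (by norm_num) (by norm_num) (by norm_num)) (ex_um 0.344 (by norm_num) (by norm_num) (by norm_num) (by norm_num)) (ex_lm 0.327 (by norm_num) (by norm_num) (by norm_num) (by norm_num) (by norm_num)) (by norm_num) (by norm_num) (by norm_num) (by norm_num) (by norm_num) (by norm_num) (by norm_num) (by norm_num)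
    (by norm_num) (by norm_num) (by norm_num) (by norm_num) (by norm_num) (by norm_num) (by norm_num) (by norm_num) (by norm_num) (by norm_num)
    (ex_up 0.464 (by norm_num) (by norm_num) (by norm_num) (by norm_num)) (ex_lp 0.443 (by norm_num) (by norm_num) (by norm_num)) (by norm_num) (by norm_num) (by norm_num) (by norm_num) (by norm_num) (by norm_num)
    (by norm_num) (by norm_num) (by norm_num) (by norm_num) (by norm_num) (by norm_num) (by norm_num) (by norm_num) (by norm_num) (by norm_num) (by norm_num)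
    (by norm_num) (by norm_num) (by norm_num) (by norm_num)

theorem innS {β r h t κ : ℝ} (hh : h = 2 * Real.pi / (3 : ℕ)) (hβ : 0 < β) (hr : 10 ≤ r) (hκ : κ = β * r)
    (hk1 : 0.53 ≤ κ) (hk2 : κ ≤ 0.56) (hT1 : 1.169 ≤ t + κ) (hT2 : t + κ ≤ 1.382) :
    Xf β r h t 0 ≠ 0 ∧ r * 0.0922 ≤ (Ld β r h t 1 - Ld β r h t 0).im ∧
      ‖(((-1 : ℤ) : ℂ) - 1) * Ld β r h t 0 - ((-1 : ℤ) : ℂ) * Ld β r h t 1‖ ≤ r * 7.93 := by
  rcases le_total (t + κ) 1.199 with f0 | g0
  · exact pc0 hh hβ hr hκ hk1 hk2 hT1 f0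
  rcases le_total (t + κ) 1.222 with f1 | g1
  · exact pc1 hh hβ hr hκ hk1 hk2 g0 f1
  rcases le_total (t + κ) 1.246 with f2 | g2
  · exact pc2 hh hβ hr hκ hk1 hk2 g1 f2
  rcases le_total (t + κ) 1.269 with f3 | g3
  · exact pc3 hh hβ hr hκ hk1 hk2 g2 f3
  rcases le_total (t + κ) 1.297 with f4 | g4
  · exact pc4 hh hβ hr hκ hk1 hk2 g3 f4
  rcases le_total (t + κ) 1.325 with f5 | g5
  · exact pc5 hh hβ hr hκ hk1 hk2 g4 f5
  rcases le_total (t + κ) 1.354 with f6 | g6
  · exact pc6 hh hβ hr hκ hk1 hk2 g5 f6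
  exact pc7 hh hβ hr hκ hk1 hk2 g6 hT2

theorem circ {p : ℤ} (hp : IsCoprime (3 : ℤ) p) {β r : ℝ} (hβ : 0 < β) (hr : 10 ≤ r) (hk1 : 0.53 ≤ β * r)
    (hk2 : β * r ≤ 0.56) : Circ (2 * Real.pi * p / (3 : ℕ) + β) r := by
  obtain ⟨κ, hκ⟩ : ∃ κ, κ = β * r := ⟨_, rfl⟩
  rw [← hκ] at hk1 hk2
  refine circ3 hp hr (h := 2 * Real.pi / (3 : ℕ)) (κ := κ) rfl 1.169 1.382 1.0097 0.0922 0.00465 0.00465 7.93 (by norm_num) (by norm_num) (by norm_num)
    (by norm_num) (by norm_num) ?_ ?_ ?_ ?_ ?_ (by norm_num) (by norm_num)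
  · intro t h1 h2
    exact (innS rfl hβ hr hκ hk1 hk2 h1 h2).1
  · intro t h1 h2
    exact (innE rfl hβ hr hκ hk1 hk2 h1 h2).1
  · intro t h1 h2
    exact (innE rfl hβ hr hκ hk1 hk2 h1 h2).2
  · intro t h1 h2
    exact (innS rfl hβ hr hκ hk1 hk2 h1 h2).2
  · intro t h1 h2 h3
    rcases h3 with h3 | h3
    · rcases le_total (t + κ) 1.16 with g | g
      · exact left rfl hβ hr hκ hk1 hk2 h1 g
      · exact middle rfl hβ hr hκ hk1 hk2 g h3
    · exact right0 rfl hβ hr hκ hk1 hk2 h3 h2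

end B3_11

end Sok
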