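import Pool.Agent.Lib.MP_816dec_an.R1b3D
import Pool.Agent.Lib.MP_816dec_an.R1b3J23

/-!
MP_816dec_an (A3, row R1, b = 3): the cell `1.1 ≤ κ ≤ 1.15`.
-/

set_option autoImplicit false
set_option maxHeartbeats 4000000
set_option linter.unusedVariables false

open Complex Set

namespace Sok

namespace B3_23

private theorem yL {κ t : ℝ} (h : DomR κ t) (hk1 : 1.1 ≤ κ) (hk2 : κ ≤ 1.15) (ht1 : 0 ≤ t + κ) (ht2 : t + κ ≤ 1.06) :
    0 ≤ sy κ t ∧ sy κ t ≤ 0.408 := by
  have hy1 : 0 ≤ sy κ t := sy_nonneg h (by linarith)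
  have hy2 : sy κ t ≤ 0.408 := syR_le h 1.1 1.15 1.06 0.408 1.5038 0.5274 0.53352 0.55778 hk1 hk2 (by linarith) (by norm_num) (by norm_num)
    (expn_ge (by norm_num) (by norm_num)) (by norm_num) (by norm_num) (Or.inr ((mul_le_mul_of_nonneg_left (expn_le (E := 1.50381) (by norm_num) (by norm_num) (by norm_num)) (by norm_num)).trans (by norm_num))) (by norm_num) (by norm_num) (by norm_num)
  exact ⟨hy1, hy2⟩

theorem left {β r h t κ : ℝ} (hh : h = 2 * Real.pi / (3 : ℕ)) (hβ : 0 < β) (hr : 10 ≤ r) (hκ : κ = β * r)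
    (hk1 : 1.1 ≤ κ) (hk2 : κ ≤ 1.15) (hT1 : 0 ≤ t + κ) (hT2 : t + κ ≤ 1.06) :
    ‖Xf β r h t (-1)‖ < |‖Xf β r h t 1‖ - ‖Xf β r h t 0‖| := by
  obtain ⟨q1, q2, q3⟩ := b3_h hh
  have hR0 := b3_R0 hβ hr hκ
  have hR := b3_R hβ hr hκ (by linarith)
  have hD1 : DomR κ t := b3_dom (by linarith) (by linarith) (Or.inl (by linarith))
  have hy := yL hD1 hk1 hk2 (by linarith) (by linarith)
  have hY : 0.7431 * Real.exp (r * 0.78614) ≤ ‖Xf β r h t 1‖ :=
    b3_lo hβ hr hκ (k := 1) (t' := t) (by push_cast; ring) hD1 0.075 2.4009 0.7431 0.78614 (by norm_num)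
      (T3_23_p1 hD1 hβ hk1 hk2 (by linarith) (by linarith) hR0 hR)
      (v5_Dup hD1 1.15 0 0.408 1 0.66498 2.4009 hk2 hy.1 hy.2 (ex_up 0 (by norm_num) (by norm_num) (by norm_num) (by norm_num)) (ex_um 0.408 (by norm_num) (by norm_num) (by norm_num) (by norm_num)) (by norm_num) (by norm_num) (by norm_num)) (by norm_num) (by norm_num)
      (b3_Vlo hD1 1.1 1.15 0 1.06 0.56 (-0.57981) 0.576 0.83864 0.17598 0.78614 hk1 hk2 (by linarith) (by linarith) (by norm_num) (ex_lm 0.57981 (by norm_num) (by norm_num) (by norm_num) (by norm_num) (by norm_num)) (by norm_num) (by norm_num) (by norm_num) (by norm_num) (by norm_num) (by norm_num) (by norm_num) (by norm_num) (ex_um 0.17598 (by norm_num) (by norm_num) (by norm_num) (by norm_num)) (by norm_num))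
  have h0 : ‖Xf β r h t 0‖ ≤ 0.9023 * ‖Xf β r h t 1‖ :=
    b3_cmp 0.7385 0.03035 0.0006357 0.73614 0.900889 0.001374 0.9023 hr (b3_HU0 0.5 1.1 1.15 (-2.0944) (-1.03439) 1.27298 1.73326 1.77714 0.57696 0.56271 1.73324 0.9065 0.13529 0.72961 1.4676 0 0.05 0.000001 1.6059 0.75579 hβ hr hκ (by norm_num) hk1 hk2 (by norm_num) (by linarith) (by linarith) (by norm_num) (by norm_num) (ex_up 0.55 (by norm_num) (by norm_num) (by norm_num) (by norm_num)) (ex_up 0.575 (by norm_num) (by norm_num) (by norm_num) (by norm_num)) (ex_um 0.55 (by norm_num) (by norm_num) (by norm_num) (by norm_num)) (ex_um 0.575 (by norm_num) (by norm_num) (by norm_num) (by norm_num)) (by norm_num) (by norm_num) (ex_lp 0.55 (by norm_num) (by norm_num) (by norm_num)) (by norm_num) (by norm_num) (by norm_num) (by norm_num) (by norm_num) (by norm_num) (by norm_num) (by norm_num) (by norm_num) (by norm_num) (by norm_num) (by norm_num) (by norm_num) (by norm_num) (v5_hump 4.7703 8.695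 2.9488 0.0000003148 0.000001 hβ hr hκ hk1 hk2 (by norm_num) (tb := (-1.03439)) (by linarith) (by norm_num) (by norm_num) (by norm_num) (by norm_num) (by norm_num) (by norm_num) (by norm_num) (ex_un 14 0.99 (by norm_num) (by norm_num) (by norm_num) (by norm_num)) (by norm_num)) (by norm_num) (by norm_num)) hY (by norm_num) (by norm_num) (by norm_num) (by norm_num) (by norm_num) (ex_un 0 0.3035 (by norm_num) (by norm_num) (by norm_num) (by norm_num)) (by norm_num) (by norm_num) (by norm_num) (ex_un 7 0.3614 (by norm_num) (by norm_num) (by norm_num) (by norm_num)) (by norm_num) (by norm_num)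
  have h2 : ‖Xf β r h t (-1)‖ ≤ 0.0413 * ‖Xf β r h t 1‖ := by
    rcases le_total ((t + h) + κ) 2.52 with g0 | g0
    · exact b3_cmp 0.01265 0.4371 0.0003899 0.78614 0.041108 0.0001 0.0413 hr ((b3_Xm hh).trans_le (b3_HF 0.46 1.1 1.15 2.09439 2.52 1.31245 0.60291 0.5892 1.65865 1.69724 0.58919 1.9246 0.13529 2.51509 0.1507 0.06088 0.546 0.000034 2.4148 0.1892 0.34904 hβ hr hκ (by norm_num) hk1 hk2 (by norm_num) (by linarith) (by linarith) (by norm_num) (ex_um 0.506 (by norm_num) (by norm_num) (by norm_num) (by norm_num)) (ex_um 0.529 (by norm_num) (by norm_num) (by norm_num) (by norm_num)) (ex_up 0.506 (by norm_num) (by norm_num) (by norm_num) (by norm_num)) (ex_up 0.529 (by norm_num) (by norm_num) (by norm_num) (by norm_num)) (by norm_num) (by norm_num) (ex_lm 0.529 (by norm_num) (by norm_num) (by norm_num) (by norm_num) (by norm_num)) (by norm_num) (by norm_num) (by norm_num) (by norm_num) (by norm_num) (by norm_num) (by norm_num) (by norm_num)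 (by norm_num) (by norm_num) (by norm_num) (by norm_num) (ex_un 0 0.6088 (by norm_num) (by norm_num) (by norm_num) (by norm_num)) (v5_hump 1.2159 8.695 2.9488 0.0000257 0.000034 hβ hr hκ hk1 hk2 (by norm_num) (tb := 2.52) (by linarith) (by norm_num) (by norm_num) (by norm_num) (by norm_num) (by norm_num) (by norm_num) (by norm_num) (ex_un 10 0.5722 (by norm_num) (by norm_num) (by norm_num) (by norm_num)) (by norm_num)) (by norm_num) (by norm_num) (by norm_num))) hY (by norm_num) (by norm_num) (by norm_num) (by norm_num) (by norm_num) (ex_un 4 0.371 (by norm_num) (by norm_num) (by norm_num) (by norm_num)) (by norm_num) (by norm_num) (by norm_num) (ex_un 7 0.8614 (by norm_num) (by norm_num) (by norm_num) (by norm_num)) (by norm_num) (by norm_num)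
    exact b3_cmp 1 0 0.007831 0.48614 0 0.039458 0.0413 hr (b3_w (b3_UD 1.1 1.15 2.52 3.1544 0.25 0.38038 0.25 1.952 3.7442 0.3 hh hβ hr hκ (by norm_num) hk1 hk2 (by linarith) (by linarith) (by norm_num) (by norm_num) (by norm_num) (by norm_num) (by norm_num) (by norm_num) (by norm_num) (by norm_num) (by norm_num) (by norm_num) (by norm_num) (by norm_num) (by norm_num))) hY (by norm_num) (by norm_num) (by norm_num) (by norm_num) (by norm_num) (by norm_num) (by norm_num) (by norm_num) (by norm_num) (ex_un 4 0.8614 (by norm_num) (by norm_num) (by norm_num) (by norm_num)) (by norm_num) (by norm_num)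
  exact b3_out1 0.9023 0.0413 hY (by norm_num) h0 h2 (by norm_num)

private theorem yR0 {κ t : ℝ} (h : DomR κ t) (hk1 : 1.1 ≤ κ) (hk2 : κ ≤ 1.15) (ht1 : -0.7124 ≤ t + κ) (ht2 : t + κ ≤ 0.0001) :
    (-0.387) ≤ sy κ t ∧ sy κ t ≤ 0.005 := by
  have hy1 : -0.387 ≤ sy κ t := syL_ge h 1.1 1.15 0.7124 0.387 0.67909 0.6791 0.2259 0.22852 0.23892 hk1 hk2 (by linarith) (by norm_num) (by norm_num) (by norm_num)
    (expm_ge (by norm_num) (by norm_num) (by norm_num) (by norm_num)) (expm_le (by norm_num) (by norm_num) (by norm_num)) (by norm_num)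
    (by norm_num) (by norm_num) (by norm_num) (by norm_num) (by norm_num) (by norm_num)
  have hy2 : sy κ t ≤ 0.005 := syR_le h 1.1 1.15 0.0001 0.005 1.00501 0.0043 0.00436 0.00457 hk1 hk2 (by linarith) (by norm_num) (by norm_num)
    (expn_ge (by norm_num) (by norm_num)) (by norm_num) (by norm_num) (Or.inr ((mul_le_mul_of_nonneg_left (expn_le (E := 1.00502) (by norm_num) (by norm_num) (by norm_num)) (by norm_num)).trans (by norm_num))) (by norm_num) (by norm_num) (by norm_num)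
  exact ⟨hy1, hy2⟩

theorem right0 {β r h t κ : ℝ} (hh : h = 2 * Real.pi / (3 : ℕ)) (hβ : 0 < β) (hr : 10 ≤ r) (hκ : κ = β * r)
    (hk1 : 1.1 ≤ κ) (hk2 : κ ≤ 1.15) (hT1 : 1.382 ≤ t + κ) (hT2 : t + κ ≤ h) :
    ‖Xf β r h t (-1)‖ < |‖Xf β r h t 1‖ - ‖Xf β r h t 0‖| := by
  obtain ⟨q1, q2, q3⟩ := b3_h hh
  have hR0 := b3_R0 hβ hr hκ
  have hR := b3_R hβ hr hκ (by linarith)
  have hD0 : DomR κ (t - h) := b3_dom (by linarith) (by linarith) (Or.inl (by linarith))
  have hy := yR0 hD0 hk1 hk2 (by linarith) (by linarith)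
  have hY : 0.6672 * Real.exp (r * 0.86374) ≤ ‖Xf β r h t 0‖ :=
    b3_lo hβ hr hκ (k := 0) (t' := t - h) (by push_cast; ring) hD0 0.115 3.0938 0.6672 0.86374 (by norm_num)
      (T3_23_p0R hD0 hβ hk1 hk2 (by linarith) (by linarith) hR0 hR)
      (v5_Dup hD0 1.15 (-0.387) 0.005 1.47256 0.99502 3.0938 hk2 hy.1 hy.2 (ex_up 0.387 (by norm_num) (by norm_num) (by norm_num) (by norm_num)) (ex_um 0.005 (by norm_num) (by norm_num) (by norm_num) (by norm_num)) (by norm_num) (by norm_num) (by norm_num)) (by norm_num) (by norm_num)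
      (b3_Vlo hD0 1.1 1.15 (-0.7124) 0.0001 1.31 0.27003 0.3714 0.93182 0.07062 0.86374 hk1 hk2 (by linarith) (by linarith) (by norm_num) (ex_lp 0.27003 (by norm_num) (by norm_num) (by norm_num)) (by norm_num) (by norm_num) (by norm_num) (by norm_num) (by norm_num) (by norm_num) (by norm_num) (by norm_num) (ex_um 0.07062 (by norm_num) (by norm_num) (by norm_num) (by norm_num)) (by norm_num))
  have h1 : ‖Xf β r h t 1‖ ≤ 0.3783 * ‖Xf β r h t 0‖ := by
    exact b3_cmp 0.1519 0.18981 0.0001781 0.86374 0.378157 0.000057 0.3783 hr (b3_X1.trans_le (b3_HF 0.38 1.1 1.15 1.382 2.0944 1.19909 0.65837 0.64598 1.51893 1.54806 0.64597 1.6157 0.13529 1.8027 0.5763 0.16518 0.1926 0.000001 1.661 0.2104 0.67393 hβ hr hκ (by norm_num) hk1 hk2 (by norm_num) (by linarith) (by linarith) (by norm_num) (ex_um 0.418 (by norm_num) (by norm_num) (by norm_num) (by norm_num)) (ex_um 0.437 (by norm_num) (by norm_num) (by norm_num) (by norm_num)) (ex_up 0.418 (by norm_num)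 (by norm_num) (by norm_num) (by norm_num)) (ex_up 0.437 (by norm_num) (by norm_num) (by norm_num) (by norm_num)) (by norm_num) (by norm_num) (ex_lm 0.437 (by norm_num) (by norm_num) (by norm_num) (by norm_num) (by norm_num)) (by norm_num) (by norm_num) (by norm_num) (by norm_num) (by norm_num) (by norm_num) (by norm_num) (by norm_num) (by norm_num) (by norm_num) (by norm_num) (by norm_num) (ex_un 1 0.6518 (by norm_num) (by norm_num) (by norm_num) (by norm_num)) (v5_hump 1.6415 8.695 2.9488 0.0000006332 0.000001 hβ hr hκ hk1 hk2 (by norm_num) (tb := 2.0944) (by linarith) (by norm_num) (by norm_num) (by norm_num) (by norm_num) (by norm_num) (by norm_num) (by norm_num) (ex_un 14 0.2728 (by norm_num) (by norm_num) (by norm_num) (by norm_num)) (by norm_num)) (by norm_num) (by norm_num) (by norm_num))) hY (by norm_num) (by norm_num) (by norm_num) (by norm_num) (by norm_num) (ex_un 1 0.8981 (by norm_num) (by norm_num) (by norm_num) (by norm_num))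 (by norm_num) (by norm_num) (by norm_num) (ex_un 8 0.6374 (by norm_num) (by norm_num) (by norm_num) (by norm_num)) (by norm_num) (by norm_num)
  have h2 : ‖Xf β r h t (-1)‖ ≤ 0.0444 * ‖Xf β r h t 0‖ := by
    exact b3_cmp 1 0 0.01501 0.41996 0 0.044326 0.0444 hr (b3_w (b3_UD 1.1 1.15 3.47639 4.1888 0.005 0.38038 0.39378 1.0272 1.9703 0.44378 hh hβ hr hκ (by norm_num) hk1 hk2 (by linarith) (by linarith) (by norm_num) (by norm_num) (by norm_num) (by norm_num) (by norm_num) (by norm_num) (by norm_num) (by norm_num) (by norm_num) (by norm_num) (by norm_num) (by norm_num) (by norm_num))) hY (by norm_num) (by norm_num) (by norm_num) (by norm_num) (by norm_num) (by norm_num) (by norm_num) (by norm_num) (by norm_num) (ex_un 4 0.1996 (by norm_num) (by norm_num) (by norm_num) (by norm_num)) (by norm_num) (by norm_num)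
  exact b3_out0 0.3783 0.0444 hY (by norm_num) h1 h2 (by norm_num)

private theorem yI {κ t : ℝ} (h : DomR κ t) (hk1 : 1.1 ≤ κ) (hk2 : κ ≤ 1.15) (ht1 : -1.0344 ≤ t + κ) (ht2 : t + κ ≤ -0.71239) :
    (-0.559) ≤ sy κ t ∧ sy κ t ≤ (-0.377) := by
  have hy1 : -0.559 ≤ sy κ t := syL_ge h 1.1 1.15 1.0344 0.559 0.57178 0.57179 0.2853 0.27793 0.29058 hk1 hk2 (by linarith) (by norm_num) (by norm_num) (by norm_num)
    (expm_ge (by norm_num) (by norm_num) (by norm_num) (by norm_num)) (expm_le (by norm_num) (by norm_num) (by norm_num)) (by norm_num)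
    (by norm_num) (by norm_num) (by norm_num) (by norm_num) (by norm_num) (by norm_num)
  have hy2 : sy κ t ≤ -0.377 := syL_le h 1.1 1.15 0.71239 0.377 0.68591 0.68592 0.22485 0.23509 hk1 hk2 (by linarith) (by norm_num) (by norm_num) (by norm_num)
    (expm_ge (by norm_num) (by norm_num) (by norm_num) (by norm_num)) (expm_le (by norm_num) (by norm_num) (by norm_num)) (by norm_num)
    (by norm_num) (by norm_num) (by norm_num) (by norm_num) (by norm_num) (by norm_num)
  exact ⟨hy1, hy2⟩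

theorem innE {β r h t κ : ℝ} (hh : h = 2 * Real.pi / (3 : ℕ)) (hβ : 0 < β) (hr : 10 ≤ r) (hκ : κ = β * r)
    (hk1 : 1.1 ≤ κ) (hk2 : κ ≤ 1.15) (hT1 : 1.06 ≤ t + κ) (hT2 : t + κ ≤ 1.382) :
    ‖Xf β r h t (-1)‖ ≤ 0.00143 * ‖Xf β r h t 0‖ ∧ ‖Xf β r h (t + β) (-1)‖ ≤ 0.00184 * ‖Xf β r h t 0‖ := by
  obtain ⟨q1, q2, q3⟩ := b3_h hh
  have hR0 := b3_R0 hβ hr hκ
  have hR := b3_R hβ hr hκ (by linarith)
  have hD0 : DomR κ (t - h) := b3_dom (by linarith) (by linarith) (Or.inl (by linarith))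
  have hy := yI hD0 hk1 hk2 (by linarith) (by linarith)
  have hY : 0.5931 * Real.exp (r * 0.73859) ≤ ‖Xf β r h t 0‖ :=
    b3_lo hβ hr hκ (k := 0) (t' := t - h) (by push_cast; ring) hD0 0.165 3.9273 0.5931 0.73859 (by norm_num)
      (T3_23_p0 hD0 hβ hk1 hk2 (by linarith) (by linarith) hR0 hR)
      (v5_Dup hD0 1.15 (-0.559) (-0.377) 1.74893 1.45791 3.9273 hk2 hy.1 hy.2 (ex_up 0.559 (by norm_num) (by norm_num) (by norm_num) (by norm_num)) (ex_up 0.377 (by norm_num) (by norm_num) (by norm_num) (by norm_num)) (by norm_num) (by norm_num) (by norm_num)) (by norm_num) (by norm_num)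
      (b3_Vlo hD0 1.1 1.15 (-1.0344) (-0.71239) 1.67 0.51283 0.2974 0.9561 0.0449 0.73859 hk1 hk2 (by linarith) (by linarith) (by norm_num) (ex_lp 0.51283 (by norm_num) (by norm_num) (by norm_num)) (by norm_num) (by norm_num) (by norm_num) (by norm_num) (by norm_num) (by norm_num) (by norm_num) (by norm_num) (ex_um 0.0449 (by norm_num) (by norm_num) (by norm_num) (by norm_num)) (by norm_num))
  constructor
  · exact b3_cmp 1 0 0.001036 0.68859 0 0.001427 0.00143 hr ((b3_Xm hh).trans_le (b3_U1 1.1 1.15 3.15439 3.4764 0.43359 0.13529 0.72961 0.4199 0.00358 1.1373 0.137468 0.8167 hβ hr hκ (by norm_num) hk1 hk2 (by linarith) (by linarith) (by norm_num) (by norm_num) (by norm_num) (by norm_num) (by norm_num) (by norm_num) (by norm_num) (by norm_num) (by norm_num) (by norm_num) (by norm_num) (by norm_num) (by norm_num) (ex_un 4 0.199 (by norm_num) (by norm_num) (by norm_num) (by norm_num)) (v5_hump 0.2595 8.695 2.9488 0.1048 0.137468 hβ hr hκ hk1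 hk2 (by norm_num) (tb := 3.4764) (by linarith) (by norm_num) (by norm_num) (by norm_num) (by norm_num) (by norm_num) (by norm_num) (by norm_num) (ex_un 2 0.2563 (by norm_num) (by norm_num) (by norm_num) (by norm_num)) (by norm_num)) (by norm_num))) hY (by norm_num) (by norm_num) (by norm_num) (by norm_num) (by norm_num) (by norm_num) (by norm_num) (by norm_num) (by norm_num) (ex_un 6 0.8859 (by norm_num) (by norm_num) (by norm_num) (by norm_num)) (by norm_num) (by norm_num)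
  · exact b3_cmp 1 0 0.001036 0.68859 0 0.001839 0.00184 hr ((b3_Xm hh).trans_le (b3_U1 1.1 1.15 3.15439 3.5914 0.43359 0.13529 0.72961 0.4199 0.00358 1.1373 0.373576 1.0528 hβ hr hκ (by norm_num) hk1 hk2 (by linarith) (by linarith) (by norm_num) (by norm_num) (by norm_num) (by norm_num) (by norm_num) (by norm_num) (by norm_num) (by norm_num) (by norm_num) (by norm_num) (by norm_num) (by norm_num) (by norm_num) (ex_un 4 0.199 (by norm_num) (by norm_num) (by norm_num) (by norm_num)) (v5_hump 0.1445 8.695 2.9488 0.2848 0.373576 hβ hr hκ hk1 hk2 (by norm_num) (tb := 3.5914) (by linarith) (by norm_num) (by norm_num) (by norm_num) (by norm_num) (by norm_num) (by norm_num) (by norm_num) (ex_un 1 0.2564 (by norm_num) (by norm_num) (by norm_num) (by norm_num)) (by norm_num)) (by norm_num))) hY (by norm_num) (by norm_num) (by norm_num) (by norm_num) (by norm_num) (by norm_num) (by norm_num) (by norm_num) (by norm_num) (ex_un 6 0.8859 (by norm_num) (by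 norm_num) (by norm_num) (by norm_num)) (by norm_num) (by norm_num)

private theorem yA0 {κ t : ℝ} (h : DomR κ t) (hk1 : 1.1 ≤ κ) (hk2 : κ ≤ 1.15) (ht1 : 1.06 ≤ t + κ) (ht2 : t + κ ≤ 1.08) :
    0.399 ≤ sy κ t ∧ sy κ t ≤ 0.414 := by
  have hy1 : 0.399 ≤ sy κ t := syR_ge h 1.1 1.15 1.06 0.399 1.49033 1.49034 0.51707 0.54059 hk1 hk2 (by linarith) (by norm_num) (by norm_num)
    (expn_ge (by norm_num) (by norm_num)) (expn_le (by norm_num) (by norm_num) (by norm_num)) (by norm_num)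
    (by norm_num) (by norm_num) (by norm_num) (by norm_num) (by norm_num) (by norm_num)
  have hy2 : sy κ t ≤ 0.414 := syR_le h 1.1 1.15 1.08 0.414 1.51285 0.5384 0.54462 0.56939 hk1 hk2 (by linarith) (by norm_num) (by norm_num)
    (expn_ge (by norm_num) (by norm_num)) (by norm_num) (by norm_num) (Or.inr ((mul_le_mul_of_nonneg_left (expn_le (E := 1.51286) (by norm_num) (by norm_num) (by norm_num)) (by norm_num)).trans (by norm_num))) (by norm_num) (by norm_num) (by norm_num)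
  exact ⟨hy1, hy2⟩

private theorem yB0 {κ t : ℝ} (h : DomR κ t) (hk1 : 1.1 ≤ κ) (hk2 : κ ≤ 1.15) (ht1 : -1.0344 ≤ t + κ) (ht2 : t + κ ≤ -1.01439) :
    (-0.559) ≤ sy κ t ∧ sy κ t ≤ (-0.534) := by
  have hy1 : -0.559 ≤ sy κ t := syL_ge h 1.1 1.15 1.0344 0.559 0.57178 0.57179 0.2853 0.27793 0.29058 hk1 hk2 (by linarith) (by norm_num) (by norm_num) (by norm_num)
    (expm_ge (by norm_num) (by norm_num) (by norm_num) (by norm_num)) (expm_le (by norm_num) (by norm_num) (by norm_num)) (by norm_num)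
    (by norm_num) (by norm_num) (by norm_num) (by norm_num) (by norm_num) (by norm_num)
  have hy2 : sy κ t ≤ -0.534 := syL_le h 1.1 1.15 1.01439 0.534 0.58625 0.58626 0.27222 0.28461 hk1 hk2 (by linarith) (by norm_num) (by norm_num) (by norm_num)
    (expm_ge (by norm_num) (by norm_num) (by norm_num) (by norm_num)) (expm_le (by norm_num) (by norm_num) (by norm_num)) (by norm_num)
    (by norm_num) (by norm_num) (by norm_num) (by norm_num) (by norm_num) (by norm_num)
  exact ⟨hy1, hy2⟩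

theorem pc0 {β r h t κ : ℝ} (hh : h = 2 * Real.pi / (3 : ℕ)) (hβ : 0 < β) (hr : 10 ≤ r) (hκ : κ = β * r)
    (hk1 : 1.1 ≤ κ) (hk2 : κ ≤ 1.15) (hT1 : 1.06 ≤ t + κ) (hT2 : t + κ ≤ 1.08) :
    Xf β r h t 0 ≠ 0 ∧ r * 0.1338 ≤ (Ld β r h t 1 - Ld β r h t 0).im ∧
      ‖(((-1 : ℤ) : ℂ) - 1) * Ld β r h t 0 - ((-1 : ℤ) : ℂ) * Ld β r h t 1‖ ≤ r * 5.42 := by
  obtain ⟨q1, q2, q3⟩ := b3_h hh
  have hR0 := b3_R0 hβ hr hκ
  have hR := b3_R hβ hr hκ (by linarith)
  have hD1 : DomR κ t := b3_dom (by linarith) (by linarith) (Or.inl (by linarith))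
  have hD0 : DomR κ (t - h) := b3_dom (by linarith) (by linarith) (Or.inl (by linarith))
  have y1 := yA0 hD1 hk1 hk2 (by linarith) (by linarith)
  have y0 := yB0 hD0 hk1 hk2 (by linarith) (by linarith)
  have j1 := T3_23_d1_0 hD1 hβ hk1 hk2 (by linarith) (by linarith) hR0 hR
  exact b3_piece 1.1 1.15 0.399 0.414 0.406 0.66631 0.671 0.66101 0.7717 2.3427 2.4059 0.1 0.15 0.15 1.7648 0.8898 0 0 (-0.559) (-0.534) (-0.546) 1.72633 1.74893 2.0113 3.4515 0.1 0.345 0.165 4.1318 4.4732 0 0 0.1338 5.42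
    hβ hr hκ (by norm_num) hk1 hk2 hD1 hD0 j1 (j1 _ (by rw [sub_self, norm_zero]; norm_num))
    (T3_23_d0_0 hD0 hβ hk1 hk2 (by linarith) (by linarith) hR0 hR)
    (T3_23_p0 hD0 hβ hk1 hk2 (by linarith) (by linarith) hR0 hR)
    y1.1 y1.2 y0.1 y0.2 (by norm_num)
    (ex_um 0.399 (by norm_num) (by norm_num) (by norm_num) (by norm_num)) (ex_um 0.414 (by norm_num) (by norm_num) (by norm_num) (by norm_num)) (ex_lm 0.406 (by norm_num) (by norm_num) (by norm_num) (by norm_num) (by norm_num)) (by norm_num) (by norm_num) (by norm_num) (by norm_num) (by norm_num) (by norm_num) (by norm_num) (by norm_num)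
    (by norm_num) (by norm_num) (by norm_num) (by norm_num) (by norm_num) (by norm_num) (by norm_num) (by norm_num) (by norm_num) (by norm_num)
    (ex_up 0.559 (by norm_num) (by norm_num) (by norm_num) (by norm_num)) (ex_lp 0.546 (by norm_num) (by norm_num) (by norm_num)) (by norm_num) (by norm_num) (by norm_num) (by norm_num) (by norm_num) (by norm_num)
    (by norm_num) (by norm_num) (by norm_num) (by norm_num) (by norm_num) (by norm_num) (by norm_num) (by norm_num) (by norm_num) (by norm_num) (by norm_num)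
    (by norm_num) (by norm_num) (by norm_num) (by norm_num)

private theorem yA1 {κ t : ℝ} (h : DomR κ t) (hk1 : 1.1 ≤ κ) (hk2 : κ ≤ 1.15) (ht1 : 1.08 ≤ t + κ) (ht2 : t + κ ≤ 1.1) :
    0.404 ≤ sy κ t ∧ sy κ t ≤ 0.419 := by
  have hy1 : 0.404 ≤ sy κ t := syR_ge h 1.1 1.15 1.08 0.404 1.4978 1.49781 0.52618 0.55011 hk1 hk2 (by linarith) (by norm_num) (by norm_num)
    (expn_ge (by norm_num) (by norm_num)) (expn_le (by norm_num) (by norm_num) (by norm_num)) (by norm_num)
    (by norm_num) (by norm_num) (by norm_num) (by norm_num) (by norm_num) (by norm_num)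
  have hy2 : sy κ t ≤ 0.419 := syR_le h 1.1 1.15 1.1 0.419 1.52043 0.5476 0.55396 0.57916 hk1 hk2 (by linarith) (by norm_num) (by norm_num)
    (expn_ge (by norm_num) (by norm_num)) (by norm_num) (by norm_num) (Or.inr ((mul_le_mul_of_nonneg_left (expn_le (E := 1.52045) (by norm_num) (by norm_num) (by norm_num)) (by norm_num)).trans (by norm_num))) (by norm_num) (by norm_num) (by norm_num)
  exact ⟨hy1, hy2⟩

private theorem yB1 {κ t : ℝ} (h : DomR κ t) (hk1 : 1.1 ≤ κ) (hk2 : κ ≤ 1.15) (ht1 : -1.0144 ≤ t + κ) (ht2 : t + κ ≤ -0.99439) :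
    (-0.549) ≤ sy κ t ∧ sy κ t ≤ (-0.524) := by
  have hy1 : -0.549 ≤ sy κ t := syL_ge h 1.1 1.15 1.0144 0.549 0.57752 0.57753 0.2725 0.2757 0.28824 hk1 hk2 (by linarith) (by norm_num) (by norm_num) (by norm_num)
    (expm_ge (by norm_num) (by norm_num) (by norm_num) (by norm_num)) (expm_le (by norm_num) (by norm_num) (by norm_num)) (by norm_num)
    (by norm_num) (by norm_num) (by norm_num) (by norm_num) (by norm_num) (by norm_num)
  have hy2 : sy κ t ≤ -0.524 := syL_le h 1.1 1.15 0.99439 0.524 0.59214 0.59215 0.2698 0.28208 hk1 hk2 (by linarith) (by norm_num) (by norm_num) (by norm_num)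
    (expm_ge (by norm_num) (by norm_num) (by norm_num) (by norm_num)) (expm_le (by norm_num) (by norm_num) (by norm_num)) (by norm_num)
    (by norm_num) (by norm_num) (by norm_num) (by norm_num) (by norm_num) (by norm_num)
  exact ⟨hy1, hy2⟩

theorem pc1 {β r h t κ : ℝ} (hh : h = 2 * Real.pi / (3 : ℕ)) (hβ : 0 < β) (hr : 10 ≤ r) (hκ : κ = β * r)
    (hk1 : 1.1 ≤ κ) (hk2 : κ ≤ 1.15) (hT1 : 1.08 ≤ t + κ) (hT2 : t + κ ≤ 1.1) :
    Xf β r h t 0 ≠ 0 ∧ r * 0.1338 ≤ (Ld β r h t 1 - Ld β r h t 0).im ∧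
      ‖(((-1 : ℤ) : ℂ) - 1) * Ld β r h t 0 - ((-1 : ℤ) : ℂ) * Ld β r h t 1‖ ≤ r * 5.42 := by
  obtain ⟨q1, q2, q3⟩ := b3_h hh
  have hR0 := b3_R0 hβ hr hκ
  have hR := b3_R hβ hr hκ (by linarith)
  have hD1 : DomR κ t := b3_dom (by linarith) (by linarith) (Or.inl (by linarith))
  have hD0 : DomR κ (t - h) := b3_dom (by linarith) (by linarith) (Or.inl (by linarith))
  have y1 := yA1 hD1 hk1 hk2 (by linarith) (by linarith)
  have y0 := yB1 hD0 hk1 hk2 (by linarith) (by linarith)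
  have j1 := T3_23_d1_0 hD1 hβ hk1 hk2 (by linarith) (by linarith) hR0 hR
  exact b3_piece 1.1 1.15 0.404 0.419 0.411 0.66298 0.66765 0.65771 0.7678 2.3472 2.4101 0.1 0.15 0.15 1.7648 0.8845 0 0 (-0.549) (-0.524) (-0.536) 1.70915 1.73153 1.9913 3.4018 0.1 0.345 0.165 4.1318 4.4609 0 0 0.1338 5.42
    hβ hr hκ (by norm_num) hk1 hk2 hD1 hD0 j1 (j1 _ (by rw [sub_self, norm_zero]; norm_num))
    (T3_23_d0_0 hD0 hβ hk1 hk2 (by linarith) (by linarith) hR0 hR)
    (T3_23_p0 hD0 hβ hk1 hk2 (by linarith) (by linarith) hR0 hR)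
    y1.1 y1.2 y0.1 y0.2 (by norm_num)
    (ex_um 0.404 (by norm_num) (by norm_num) (by norm_num) (by norm_num)) (ex_um 0.419 (by norm_num) (by norm_num) (by norm_num) (by norm_num)) (ex_lm 0.411 (by norm_num) (by norm_num) (by norm_num) (by norm_num) (by norm_num)) (by norm_num) (by norm_num) (by norm_num) (by norm_num) (by norm_num) (by norm_num) (by norm_num) (by norm_num)
    (by norm_num) (by norm_num) (by norm_num) (by norm_num) (by norm_num) (by norm_num) (by norm_num) (by norm_num) (by norm_num) (by norm_num)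
    (ex_up 0.549 (by norm_num) (by norm_num) (by norm_num) (by norm_num)) (ex_lp 0.536 (by norm_num) (by norm_num) (by norm_num)) (by norm_num) (by norm_num) (by norm_num) (by norm_num) (by norm_num) (by norm_num)
    (by norm_num) (by norm_num) (by norm_num) (by norm_num) (by norm_num) (by norm_num) (by norm_num) (by norm_num) (by norm_num) (by norm_num) (by norm_num)
    (by norm_num) (by norm_num) (by norm_num) (by norm_num)

private theorem yA2 {κ t : ℝ} (h : DomR κ t) (hk1 : 1.1 ≤ κ) (hk2 : κ ≤ 1.15) (ht1 : 1.1 ≤ t + κ) (ht2 : t + κ ≤ 1.127) :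
    0.409 ≤ sy κ t ∧ sy κ t ≤ 0.426 := by
  have hy1 : 0.409 ≤ sy κ t := syR_ge h 1.1 1.15 1.1 0.409 1.50531 1.50532 0.53536 0.55971 hk1 hk2 (by linarith) (by norm_num) (by norm_num)
    (expn_ge (by norm_num) (by norm_num)) (expn_le (by norm_num) (by norm_num) (by norm_num)) (by norm_num)
    (by norm_num) (by norm_num) (by norm_num) (by norm_num) (by norm_num) (by norm_num)
  have hy2 : sy κ t ≤ 0.426 := syR_le h 1.1 1.15 1.127 0.426 1.53112 0.565 0.56718 0.59297 hk1 hk2 (by linarith) (by norm_num) (by norm_num)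
    (expn_ge (by norm_num) (by norm_num)) (by norm_num) (by norm_num) (Or.inr ((mul_le_mul_of_nonneg_left (expn_le (E := 1.53113) (by norm_num) (by norm_num) (by norm_num)) (by norm_num)).trans (by norm_num))) (by norm_num) (by norm_num) (by norm_num)
  exact ⟨hy1, hy2⟩

private theorem yB2 {κ t : ℝ} (h : DomR κ t) (hk1 : 1.1 ≤ κ) (hk2 : κ ≤ 1.15) (ht1 : -0.9944 ≤ t + κ) (ht2 : t + κ ≤ -0.96739) :
    (-0.539) ≤ sy κ t ∧ sy κ t ≤ (-0.51) := by
  have hy1 : -0.539 ≤ sy κ t := syL_ge h 1.1 1.15 0.9944 0.539 0.58333 0.58334 0.2702 0.2734 0.28584 hk1 hk2 (by linarith) (by norm_num) (by norm_num) (by norm_num)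
    (expm_ge (by norm_num) (by norm_num) (by norm_num) (by norm_num)) (expm_le (by norm_num) (by norm_num) (by norm_num)) (by norm_num)
    (by norm_num) (by norm_num) (by norm_num) (by norm_num) (by norm_num) (by norm_num)
  have hy2 : sy κ t ≤ -0.51 := syL_le h 1.1 1.15 0.96739 0.51 0.60049 0.6005 0.2663 0.27842 hk1 hk2 (by linarith) (by norm_num) (by norm_num) (by norm_num)
    (expm_ge (by norm_num) (by norm_num) (by norm_num) (by norm_num)) (expm_le (by norm_num) (by norm_num) (by norm_num)) (by norm_num)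
    (by norm_num) (by norm_num) (by norm_num) (by norm_num) (by norm_num) (by norm_num)
  exact ⟨hy1, hy2⟩

theorem pc2 {β r h t κ : ℝ} (hh : h = 2 * Real.pi / (3 : ℕ)) (hβ : 0 < β) (hr : 10 ≤ r) (hκ : κ = β * r)
    (hk1 : 1.1 ≤ κ) (hk2 : κ ≤ 1.15) (hT1 : 1.1 ≤ t + κ) (hT2 : t + κ ≤ 1.127) :
    Xf β r h t 0 ≠ 0 ∧ r * 0.1338 ≤ (Ld β r h t 1 - Ld β r h t 0).im ∧
      ‖(((-1 : ℤ) : ℂ) - 1) * Ld β r h t 0 - ((-1 : ℤ) : ℂ) * Ld β r h t 1‖ ≤ r * 5.42 := by
  obtain ⟨q1, q2, q3⟩ := b3_h hh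
  have hR0 := b3_R0 hβ hr hκ
  have hR := b3_R hβ hr hκ (by linarith)
  have hD1 : DomR κ t := b3_dom (by linarith) (by linarith) (Or.inl (by linarith))
  have hD0 : DomR κ (t - h) := b3_dom (by linarith) (by linarith) (Or.inl (by linarith))
  have y1 := yA2 hD1 hk1 hk2 (by linarith) (by linarith)
  have y0 := yB2 hD0 hk1 hk2 (by linarith) (by linarith)
  have j1 := T3_23_d1_1 hD1 hβ hk1 hk2 (by linarith) (by linarith) hR0 hR
  exact b3_piece 1.1 1.15 0.409 0.426 0.417 0.65902 0.66432 0.65312 0.764 2.3519 2.4162 0.08 0.15 0.15 2.2059 1.099 0 0 (-0.539) (-0.51) (-0.524) 1.68876 1.7143 1.9715 3.3341 0.1 0.325 0.165 3.8923 4.2026 0 0 0.1338 5.42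
    hβ hr hκ (by norm_num) hk1 hk2 hD1 hD0 j1 (j1 _ (by rw [sub_self, norm_zero]; norm_num))
    (T3_23_d0_1 hD0 hβ hk1 hk2 (by linarith) (by linarith) hR0 hR)
    (T3_23_p0 hD0 hβ hk1 hk2 (by linarith) (by linarith) hR0 hR)
    y1.1 y1.2 y0.1 y0.2 (by norm_num)
    (ex_um 0.409 (by norm_num) (by norm_num) (by norm_num) (by norm_num)) (ex_um 0.426 (by norm_num) (by norm_num) (by norm_num) (by norm_num)) (ex_lm 0.417 (by norm_num) (by norm_num) (by norm_num) (by norm_num) (by norm_num)) (by norm_num) (by norm_num) (by norm_num) (by norm_num) (by norm_num) (by norm_num) (by norm_num) (by norm_num)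
    (by norm_num) (by norm_num) (by norm_num) (by norm_num) (by norm_num) (by norm_num) (by norm_num) (by norm_num) (by norm_num) (by norm_num)
    (ex_up 0.539 (by norm_num) (by norm_num) (by norm_num) (by norm_num)) (ex_lp 0.524 (by norm_num) (by norm_num) (by norm_num)) (by norm_num) (by norm_num) (by norm_num) (by norm_num) (by norm_num) (by norm_num)
    (by norm_num) (by norm_num) (by norm_num) (by norm_num) (by norm_num) (by norm_num) (by norm_num) (by norm_num) (by norm_num) (by norm_num) (by norm_num)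
    (by norm_num) (by norm_num) (by norm_num) (by norm_num)

private theorem yA3 {κ t : ℝ} (h : DomR κ t) (hk1 : 1.1 ≤ κ) (hk2 : κ ≤ 1.15) (ht1 : 1.127 ≤ t + κ) (ht2 : t + κ ≤ 1.153) :
    0.416 ≤ sy κ t ∧ sy κ t ≤ 0.433 := by
  have hy1 : 0.416 ≤ sy κ t := syR_ge h 1.1 1.15 1.127 0.416 1.51588 1.51589 0.54835 0.57329 hk1 hk2 (by linarith) (by norm_num) (by norm_num)
    (expn_ge (by norm_num) (by norm_num)) (expn_le (by norm_num) (by norm_num) (by norm_num)) (by norm_num)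
    (by norm_num) (by norm_num) (by norm_num) (by norm_num) (by norm_num) (by norm_num)
  have hy2 : sy κ t ≤ 0.433 := syR_le h 1.1 1.15 1.153 0.433 1.54187 0.5739 0.58054 0.60695 hk1 hk2 (by linarith) (by norm_num) (by norm_num)
    (expn_ge (by norm_num) (by norm_num)) (by norm_num) (by norm_num) (Or.inr ((mul_le_mul_of_nonneg_left (expn_le (E := 1.54188) (by norm_num) (by norm_num) (by norm_num)) (by norm_num)).trans (by norm_num))) (by norm_num) (by norm_num) (by norm_num)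
  exact ⟨hy1, hy2⟩

private theorem yB3 {κ t : ℝ} (h : DomR κ t) (hk1 : 1.1 ≤ κ) (hk2 : κ ≤ 1.15) (ht1 : -0.9674 ≤ t + κ) (ht2 : t + κ ≤ -0.94139) :
    (-0.525) ≤ sy κ t ∧ sy κ t ≤ (-0.497) := by
  have hy1 : -0.525 ≤ sy κ t := syL_ge h 1.1 1.15 0.9674 0.525 0.59155 0.59156 0.2669 0.27005 0.28234 hk1 hk2 (by linarith) (by norm_num) (by norm_num) (by norm_num)
    (expm_ge (by norm_num) (by norm_num) (by norm_num) (by norm_num)) (expm_le (by norm_num) (by norm_num) (by norm_num)) (by norm_num)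
    (by norm_num) (by norm_num) (by norm_num) (by norm_num) (by norm_num) (by norm_num)
  have hy2 : sy κ t ≤ -0.497 := syL_le h 1.1 1.15 0.94139 0.497 0.60835 0.60836 0.26291 0.27487 hk1 hk2 (by linarith) (by norm_num) (by norm_num) (by norm_num)
    (expm_ge (by norm_num) (by norm_num) (by norm_num) (by norm_num)) (expm_le (by norm_num) (by norm_num) (by norm_num)) (by norm_num)
    (by norm_num) (by norm_num) (by norm_num) (by norm_num) (by norm_num) (by norm_num)
  exact ⟨hy1, hy2⟩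

theorem pc3 {β r h t κ : ℝ} (hh : h = 2 * Real.pi / (3 : ℕ)) (hβ : 0 < β) (hr : 10 ≤ r) (hκ : κ = β * r)
    (hk1 : 1.1 ≤ κ) (hk2 : κ ≤ 1.15) (hT1 : 1.127 ≤ t + κ) (hT2 : t + κ ≤ 1.153) :
    Xf β r h t 0 ≠ 0 ∧ r * 0.1338 ≤ (Ld β r h t 1 - Ld β r h t 0).im ∧
      ‖(((-1 : ℤ) : ℂ) - 1) * Ld β r h t 0 - ((-1 : ℤ) : ℂ) * Ld β r h t 1‖ ≤ r * 5.42 := by
  obtain ⟨q1, q2, q3⟩ := b3_h hh
  have hR0 := b3_R0 hβ hr hκ
  have hR := b3_R hβ hr hκ (by linarith)
  have hD1 : DomR κ t := b3_dom (by linarith) (by linarith) (Or.inl (by linarith))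
  have hD0 : DomR κ (t - h) := b3_dom (by linarith) (by linarith) (Or.inl (by linarith))
  have y1 := yA3 hD1 hk1 hk2 (by linarith) (by linarith)
  have y0 := yB3 hD0 hk1 hk2 (by linarith) (by linarith)
  have j1 := T3_23_d1_1 hD1 hβ hk1 hk2 (by linarith) (by linarith) hR0 hR
  exact b3_piece 1.1 1.15 0.416 0.433 0.424 0.65442 0.65969 0.64857 0.7587 2.3584 2.4224 0.08 0.15 0.15 2.2059 1.0899 0 0 (-0.525) (-0.497) (-0.511) 1.66695 1.69046 1.9441 3.2741 0.1 0.325 0.165 3.8923 4.182 0 0 0.1338 5.42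
    hβ hr hκ (by norm_num) hk1 hk2 hD1 hD0 j1 (j1 _ (by rw [sub_self, norm_zero]; norm_num))
    (T3_23_d0_1 hD0 hβ hk1 hk2 (by linarith) (by linarith) hR0 hR)
    (T3_23_p0 hD0 hβ hk1 hk2 (by linarith) (by linarith) hR0 hR)
    y1.1 y1.2 y0.1 y0.2 (by norm_num)
    (ex_um 0.416 (by norm_num) (by norm_num) (by norm_num) (by norm_num)) (ex_um 0.433 (by norm_num) (by norm_num) (by norm_num) (by norm_num)) (ex_lm 0.424 (by norm_num) (by norm_num) (by norm_num) (by norm_num) (by norm_num)) (by norm_num) (by norm_num) (by norm_num) (by norm_num) (by norm_num) (by norm_num) (by norm_num) (by norm_num)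
    (by norm_num) (by norm_num) (by norm_num) (by norm_num) (by norm_num) (by norm_num) (by norm_num) (by norm_num) (by norm_num) (by norm_num)
    (ex_up 0.525 (by norm_num) (by norm_num) (by norm_num) (by norm_num)) (ex_lp 0.511 (by norm_num) (by norm_num) (by norm_num)) (by norm_num) (by norm_num) (by norm_num) (by norm_num) (by norm_num) (by norm_num)
    (by norm_num) (by norm_num) (by norm_num) (by norm_num) (by norm_num) (by norm_num) (by norm_num) (by norm_num) (by norm_num) (by norm_num) (by norm_num)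
    (by norm_num) (by norm_num) (by norm_num) (by norm_num)

private theorem yA4 {κ t : ℝ} (h : DomR κ t) (hk1 : 1.1 ≤ κ) (hk2 : κ ≤ 1.15) (ht1 : 1.153 ≤ t + κ) (ht2 : t + κ ≤ 1.18) :
    0.422 ≤ sy κ t ∧ sy κ t ≤ 0.44 := by
  have hy1 : 0.422 ≤ sy κ t := syR_ge h 1.1 1.15 1.153 0.422 1.525 1.52501 0.5596 0.58505 hk1 hk2 (by linarith) (by norm_num) (by norm_num)
    (expn_ge (by norm_num) (by norm_num)) (expn_le (by norm_num) (by norm_num) (by norm_num)) (by norm_num)
    (by norm_num) (by norm_num) (by norm_num) (by norm_num) (by norm_num) (by norm_num)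
  have hy2 : sy κ t ≤ 0.44 := syR_le h 1.1 1.15 1.18 0.44 1.5527 0.5873 0.59407 0.62109 hk1 hk2 (by linarith) (by norm_num) (by norm_num)
    (expn_ge (by norm_num) (by norm_num)) (by norm_num) (by norm_num) (Or.inr ((mul_le_mul_of_nonneg_left (expn_le (E := 1.55271) (by norm_num) (by norm_num) (by norm_num)) (by norm_num)).trans (by norm_num))) (by norm_num) (by norm_num) (by norm_num)
  exact ⟨hy1, hy2⟩

private theorem yB4 {κ t : ℝ} (h : DomR κ t) (hk1 : 1.1 ≤ κ) (hk2 : κ ≤ 1.15) (ht1 : -0.9414 ≤ t + κ) (ht2 : t + κ ≤ -0.91439) :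
    (-0.511) ≤ sy κ t ∧ sy κ t ≤ (-0.483) := by
  have hy1 : -0.511 ≤ sy κ t := syL_ge h 1.1 1.15 0.9414 0.511 0.59989 0.5999 0.2635 0.26655 0.27869 hk1 hk2 (by linarith) (by norm_num) (by norm_num) (by norm_num)
    (expm_ge (by norm_num) (by norm_num) (by norm_num) (by norm_num)) (expm_le (by norm_num) (by norm_num) (by norm_num)) (by norm_num)
    (by norm_num) (by norm_num) (by norm_num) (by norm_num) (by norm_num) (by norm_num)
  have hy2 : sy κ t ≤ -0.483 := syL_le h 1.1 1.15 0.91439 0.483 0.61692 0.61694 0.2591 0.2709 hk1 hk2 (by linarith) (by norm_num) (by norm_num) (by norm_num)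
    (expm_ge (by norm_num) (by norm_num) (by norm_num) (by norm_num)) (expm_le (by norm_num) (by norm_num) (by norm_num)) (by norm_num)
    (by norm_num) (by norm_num) (by norm_num) (by norm_num) (by norm_num) (by norm_num)
  exact ⟨hy1, hy2⟩

theorem pc4 {β r h t κ : ℝ} (hh : h = 2 * Real.pi / (3 : ℕ)) (hβ : 0 < β) (hr : 10 ≤ r) (hκ : κ = β * r)
    (hk1 : 1.1 ≤ κ) (hk2 : κ ≤ 1.15) (hT1 : 1.153 ≤ t + κ) (hT2 : t + κ ≤ 1.18) :
    Xf β r h t 0 ≠ 0 ∧ r * 0.1338 ≤ (Ld β r h t 1 - Ld β r h t 0).im ∧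
      ‖(((-1 : ℤ) : ℂ) - 1) * Ld β r h t 0 - ((-1 : ℤ) : ℂ) * Ld β r h t 1‖ ≤ r * 5.42 := by
  obtain ⟨q1, q2, q3⟩ := b3_h hh
  have hR0 := b3_R0 hβ hr hκ
  have hR := b3_R hβ hr hκ (by linarith)
  have hD1 : DomR κ t := b3_dom (by linarith) (by linarith) (Or.inl (by linarith))
  have hD0 : DomR κ (t - h) := b3_dom (by linarith) (by linarith) (Or.inl (by linarith))
  have y1 := yA4 hD1 hk1 hk2 (by linarith) (by linarith)
  have y0 := yB4 hD0 hk1 hk2 (by linarith) (by linarith)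
  have j1 := T3_23_d1_1 hD1 hβ hk1 hk2 (by linarith) (by linarith) hR0 hR
  exact b3_piece 1.1 1.15 0.422 0.44 0.431 0.64985 0.65574 0.64404 0.7542 2.3641 2.4286 0.08 0.15 0.15 2.2059 1.0821 0 0 (-0.511) (-0.483) (-0.497) 1.64378 1.66696 1.9171 3.2118 0.1 0.325 0.165 3.8923 4.1637 0 0 0.1338 5.42
    hβ hr hκ (by norm_num) hk1 hk2 hD1 hD0 j1 (j1 _ (by rw [sub_self, norm_zero]; norm_num))
    (T3_23_d0_1 hD0 hβ hk1 hk2 (by linarith) (by linarith) hR0 hR)
    (T3_23_p0 hD0 hβ hk1 hk2 (by linarith) (by linarith) hR0 hR)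
    y1.1 y1.2 y0.1 y0.2 (by norm_num)
    (ex_um 0.422 (by norm_num) (by norm_num) (by norm_num) (by norm_num)) (ex_um 0.44 (by norm_num) (by norm_num) (by norm_num) (by norm_num)) (ex_lm 0.431 (by norm_num) (by norm_num) (by norm_num) (by norm_num) (by norm_num)) (by norm_num) (by norm_num) (by norm_num) (by norm_num) (by norm_num) (by norm_num) (by norm_num) (by norm_num)
    (by norm_num) (by norm_num) (by norm_num) (by norm_num) (by norm_num) (by norm_num) (by norm_num) (by norm_num) (by norm_num) (by norm_num)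
    (ex_up 0.511 (by norm_num) (by norm_num) (by norm_num) (by norm_num)) (ex_lp 0.497 (by norm_num) (by norm_num) (by norm_num)) (by norm_num) (by norm_num) (by norm_num) (by norm_num) (by norm_num) (by norm_num)
    (by norm_num) (by norm_num) (by norm_num) (by norm_num) (by norm_num) (by norm_num) (by norm_num) (by norm_num) (by norm_num) (by norm_num) (by norm_num)
    (by norm_num) (by norm_num) (by norm_num) (by norm_num)

private theorem yA5 {κ t : ℝ} (h : DomR κ t) (hk1 : 1.1 ≤ κ) (hk2 : κ ≤ 1.15) (ht1 : 1.18 ≤ t + κ) (ht2 : t + κ ≤ 1.209) :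
    0.429 ≤ sy κ t ∧ sy κ t ≤ 0.448 := by
  have hy1 : 0.429 ≤ sy κ t := syR_ge h 1.1 1.15 1.18 0.429 1.53572 1.53573 0.57289 0.59894 hk1 hk2 (by linarith) (by norm_num) (by norm_num)
    (expn_ge (by norm_num) (by norm_num)) (expn_le (by norm_num) (by norm_num) (by norm_num)) (by norm_num)
    (by norm_num) (by norm_num) (by norm_num) (by norm_num) (by norm_num) (by norm_num)
  have hy2 : sy κ t ≤ 0.448 := syR_le h 1.1 1.15 1.209 0.448 1.56517 0.6027 0.60973 0.63746 hk1 hk2 (by linarith) (by norm_num) (by norm_num)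
    (expn_ge (by norm_num) (by norm_num)) (by norm_num) (by norm_num) (Or.inr ((mul_le_mul_of_nonneg_left (expn_le (E := 1.56518) (by norm_num) (by norm_num) (by norm_num)) (by norm_num)).trans (by norm_num))) (by norm_num) (by norm_num) (by norm_num)
  exact ⟨hy1, hy2⟩

private theorem yB5 {κ t : ℝ} (h : DomR κ t) (hk1 : 1.1 ≤ κ) (hk2 : κ ≤ 1.15) (ht1 : -0.9144 ≤ t + κ) (ht2 : t + κ ≤ -0.88539) :
    (-0.497) ≤ sy κ t ∧ sy κ t ≤ (-0.468) := by
  have hy1 : -0.497 ≤ sy κ t := syL_ge h 1.1 1.15 0.9144 0.497 0.60835 0.60836 0.2599 0.26291 0.27487 hk1 hk2 (by linarith) (by norm_num) (by norm_num) (by norm_num)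
    (expm_ge (by norm_num) (by norm_num) (by norm_num) (by norm_num)) (expm_le (by norm_num) (by norm_num) (by norm_num)) (by norm_num)
    (by norm_num) (by norm_num) (by norm_num) (by norm_num) (by norm_num) (by norm_num)
  have hy2 : sy κ t ≤ -0.468 := syL_le h 1.1 1.15 0.88539 0.468 0.62625 0.62626 0.25485 0.26645 hk1 hk2 (by linarith) (by norm_num) (by norm_num) (by norm_num)
    (expm_ge (by norm_num) (by norm_num) (by norm_num) (by norm_num)) (expm_le (by norm_num) (by norm_num) (by norm_num)) (by norm_num)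
    (by norm_num) (by norm_num) (by norm_num) (by norm_num) (by norm_num) (by norm_num)
  exact ⟨hy1, hy2⟩

theorem pc5 {β r h t κ : ℝ} (hh : h = 2 * Real.pi / (3 : ℕ)) (hβ : 0 < β) (hr : 10 ≤ r) (hκ : κ = β * r)
    (hk1 : 1.1 ≤ κ) (hk2 : κ ≤ 1.15) (hT1 : 1.18 ≤ t + κ) (hT2 : t + κ ≤ 1.209) :
    Xf β r h t 0 ≠ 0 ∧ r * 0.1338 ≤ (Ld β r h t 1 - Ld β r h t 0).im ∧
      ‖(((-1 : ℤ) : ℂ) - 1) * Ld β r h t 0 - ((-1 : ℤ) : ℂ) * Ld β r h t 1‖ ≤ r * 5.42 := by
  obtain ⟨q1, q2, q3⟩ := b3_h hh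
  have hR0 := b3_R0 hβ hr hκ
  have hR := b3_R hβ hr hκ (by linarith)
  have hD1 : DomR κ t := b3_dom (by linarith) (by linarith) (Or.inl (by linarith))
  have hD0 : DomR κ (t - h) := b3_dom (by linarith) (by linarith) (Or.inl (by linarith))
  have y1 := yA5 hD1 hk1 hk2 (by linarith) (by linarith)
  have y0 := yB5 hD0 hk1 hk2 (by linarith) (by linarith)
  have j1 := T3_23_d1_2 hD1 hβ hk1 hk2 (by linarith) (by linarith) hR0 hR
  exact b3_piece 1.1 1.15 0.429 0.448 0.439 0.64468 0.65117 0.63891 0.7489 2.3709 2.4359 0.04 0.17 0.17 5.1205 2.4905 0 0 (-0.497) (-0.468) (-0.482) 1.6193 1.64379 1.8904 3.1479 0.1 0.295 0.165 3.533 3.7644 0 0 0.1338 5.42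
    hβ hr hκ (by norm_num) hk1 hk2 hD1 hD0 j1 (j1 _ (by rw [sub_self, norm_zero]; norm_num))
    (T3_23_d0_2 hD0 hβ hk1 hk2 (by linarith) (by linarith) hR0 hR)
    (T3_23_p0 hD0 hβ hk1 hk2 (by linarith) (by linarith) hR0 hR)
    y1.1 y1.2 y0.1 y0.2 (by norm_num)
    (ex_um 0.429 (by norm_num) (by norm_num) (by norm_num) (by norm_num)) (ex_um 0.448 (by norm_num) (by norm_num) (by norm_num) (by norm_num)) (ex_lm 0.439 (by norm_num) (by norm_num) (by norm_num) (by norm_num) (by norm_num)) (by norm_num) (by norm_num) (by norm_num) (by norm_num) (by norm_num) (by norm_num) (by norm_num) (by norm_num)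
    (by norm_num) (by norm_num) (by norm_num) (by norm_num) (by norm_num) (by norm_num) (by norm_num) (by norm_num) (by norm_num) (by norm_num)
    (ex_up 0.497 (by norm_num) (by norm_num) (by norm_num) (by norm_num)) (ex_lp 0.482 (by norm_num) (by norm_num) (by norm_num)) (by norm_num) (by norm_num) (by norm_num) (by norm_num) (by norm_num) (by norm_num)
    (by norm_num) (by norm_num) (by norm_num) (by norm_num) (by norm_num) (by norm_num) (by norm_num) (by norm_num) (by norm_num) (by norm_num) (by norm_num)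
    (by norm_num) (by norm_num) (by norm_num) (by norm_num)

private theorem yA6 {κ t : ℝ} (h : DomR κ t) (hk1 : 1.1 ≤ κ) (hk2 : κ ≤ 1.15) (ht1 : 1.209 ≤ t + κ) (ht2 : t + κ ≤ 1.238) :
    0.436 ≤ sy κ t ∧ sy κ t ≤ 0.455 := by
  have hy1 : 0.436 ≤ sy κ t := syR_ge h 1.1 1.15 1.209 0.436 1.5465 1.54651 0.58632 0.61299 hk1 hk2 (by linarith) (by norm_num) (by norm_num)
    (expn_ge (by norm_num) (by norm_num)) (expn_le (by norm_num) (by norm_num) (by norm_num)) (by norm_num)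
    (by norm_num) (by norm_num) (by norm_num) (by norm_num) (by norm_num) (by norm_num)
  have hy2 : sy κ t ≤ 0.455 := syR_le h 1.1 1.15 1.238 0.455 1.57617 0.6165 0.62361 0.65197 hk1 hk2 (by linarith) (by norm_num) (by norm_num)
    (expn_ge (by norm_num) (by norm_num)) (by norm_num) (by norm_num) (Or.inr ((mul_le_mul_of_nonneg_left (expn_le (E := 1.57618) (by norm_num) (by norm_num) (by norm_num)) (by norm_num)).trans (by norm_num))) (by norm_num) (by norm_num) (by norm_num)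
  exact ⟨hy1, hy2⟩

private theorem yB6 {κ t : ℝ} (h : DomR κ t) (hk1 : 1.1 ≤ κ) (hk2 : κ ≤ 1.15) (ht1 : -0.8854 ≤ t + κ) (ht2 : t + κ ≤ -0.85639) :
    (-0.481) ≤ sy κ t ∧ sy κ t ≤ (-0.453) := by
  have hy1 : -0.481 ≤ sy κ t := syL_ge h 1.1 1.15 0.8854 0.481 0.61816 0.61817 0.2556 0.25855 0.27031 hk1 hk2 (by linarith) (by norm_num) (by norm_num) (by norm_num)
    (expm_ge (by norm_num) (by norm_num) (by norm_num) (by norm_num)) (expm_le (by norm_num) (by norm_num) (by norm_num)) (by norm_num)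
    (by norm_num) (by norm_num) (by norm_num) (by norm_num) (by norm_num) (by norm_num)
  have hy2 : sy κ t ≤ -0.453 := syL_le h 1.1 1.15 0.85639 0.453 0.63571 0.63572 0.25041 0.26181 hk1 hk2 (by linarith) (by norm_num) (by norm_num) (by norm_num)
    (expm_ge (by norm_num) (by norm_num) (by norm_num) (by norm_num)) (expm_le (by norm_num) (by norm_num) (by norm_num)) (by norm_num)
    (by norm_num) (by norm_num) (by norm_num) (by norm_num) (by norm_num) (by norm_num)
  exact ⟨hy1, hy2⟩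

theorem pc6 {β r h t κ : ℝ} (hh : h = 2 * Real.pi / (3 : ℕ)) (hβ : 0 < β) (hr : 10 ≤ r) (hκ : κ = β * r)
    (hk1 : 1.1 ≤ κ) (hk2 : κ ≤ 1.15) (hT1 : 1.209 ≤ t + κ) (hT2 : t + κ ≤ 1.238) :
    Xf β r h t 0 ≠ 0 ∧ r * 0.1338 ≤ (Ld β r h t 1 - Ld β r h t 0).im ∧
      ‖(((-1 : ℤ) : ℂ) - 1) * Ld β r h t 0 - ((-1 : ℤ) : ℂ) * Ld β r h t 1‖ ≤ r * 5.42 := by
  obtain ⟨q1, q2, q3⟩ := b3_h hh
  have hR0 := b3_R0 hβ hr hκ
  have hR := b3_R hβ hr hκ (by linarith)
  have hD1 : DomR κ t := b3_dom (by linarith) (by linarith) (Or.inl (by linarith))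
  have hD0 : DomR κ (t - h) := b3_dom (by linarith) (by linarith) (Or.inl (by linarith))
  have y1 := yA6 hD1 hk1 hk2 (by linarith) (by linarith)
  have y0 := yB6 hD0 hk1 hk2 (by linarith) (by linarith)
  have j1 := T3_23_d1_2 hD1 hβ hk1 hk2 (by linarith) (by linarith) hR0 hR
  exact b3_piece 1.1 1.15 0.436 0.455 0.446 0.64018 0.64662 0.63445 0.7437 2.3778 2.4424 0.04 0.17 0.17 5.1205 2.4696 0 0 (-0.481) (-0.453) (-0.467) 1.5952 1.6177 1.8604 3.0868 0.1 0.295 0.165 3.533 3.7411 0 0 0.1338 5.42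
    hβ hr hκ (by norm_num) hk1 hk2 hD1 hD0 j1 (j1 _ (by rw [sub_self, norm_zero]; norm_num))
    (T3_23_d0_2 hD0 hβ hk1 hk2 (by linarith) (by linarith) hR0 hR)
    (T3_23_p0 hD0 hβ hk1 hk2 (by linarith) (by linarith) hR0 hR)
    y1.1 y1.2 y0.1 y0.2 (by norm_num)
    (ex_um 0.436 (by norm_num) (by norm_num) (by norm_num) (by norm_num)) (ex_um 0.455 (by norm_num) (by norm_num) (by norm_num) (by norm_num)) (ex_lm 0.446 (by norm_num) (by norm_num) (by norm_num) (by norm_num) (by norm_num)) (by norm_num) (by norm_num) (by norm_num) (by norm_num) (by norm_num) (by norm_num) (by norm_num) (by norm_num)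
    (by norm_num) (by norm_num) (by norm_num) (by norm_num) (by norm_num) (by norm_num) (by norm_num) (by norm_num) (by norm_num) (by norm_num)
    (ex_up 0.481 (by norm_num) (by norm_num) (by norm_num) (by norm_num)) (ex_lp 0.467 (by norm_num) (by norm_num) (by norm_num)) (by norm_num) (by norm_num) (by norm_num) (by norm_num) (by norm_num) (by norm_num)
    (by norm_num) (by norm_num) (by norm_num) (by norm_num) (by norm_num) (by norm_num) (by norm_num) (by norm_num) (by norm_num) (by norm_num) (by norm_num)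
    (by norm_num) (by norm_num) (by norm_num) (by norm_num)

private theorem yA7 {κ t : ℝ} (h : DomR κ t) (hk1 : 1.1 ≤ κ) (hk2 : κ ≤ 1.15) (ht1 : 1.238 ≤ t + κ) (ht2 : t + κ ≤ 1.267) :
    0.442 ≤ sy κ t ∧ sy κ t ≤ 0.462 := by
  have hy1 : 0.442 ≤ sy κ t := syR_ge h 1.1 1.15 1.238 0.442 1.55581 1.55582 0.59797 0.62516 hk1 hk2 (by linarith) (by norm_num) (by norm_num)
    (expn_ge (by norm_num) (by norm_num)) (expn_le (by norm_num) (by norm_num) (by norm_num)) (by norm_num)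
    (by norm_num) (by norm_num) (by norm_num) (by norm_num) (by norm_num) (by norm_num)
  have hy2 : sy κ t ≤ 0.462 := syR_le h 1.1 1.15 1.267 0.462 1.58724 0.6303 0.63765 0.66665 hk1 hk2 (by linarith) (by norm_num) (by norm_num)
    (expn_ge (by norm_num) (by norm_num)) (by norm_num) (by norm_num) (Or.inr ((mul_le_mul_of_nonneg_left (expn_le (E := 1.58725) (by norm_num) (by norm_num) (by norm_num)) (by norm_num)).trans (by norm_num))) (by norm_num) (by norm_num) (by norm_num)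
  exact ⟨hy1, hy2⟩

private theorem yB7 {κ t : ℝ} (h : DomR κ t) (hk1 : 1.1 ≤ κ) (hk2 : κ ≤ 1.15) (ht1 : -0.8564 ≤ t + κ) (ht2 : t + κ ≤ -0.82739) :
    (-0.466) ≤ sy κ t ∧ sy κ t ≤ (-0.438) := by
  have hy1 : -0.466 ≤ sy κ t := syL_ge h 1.1 1.15 0.8564 0.466 0.6275 0.62751 0.2513 0.25427 0.26584 hk1 hk2 (by linarith) (by norm_num) (by norm_num) (by norm_num)
    (expm_ge (by norm_num) (by norm_num) (by norm_num) (by norm_num)) (expm_le (by norm_num) (by norm_num) (by norm_num)) (by norm_num)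
    (by norm_num) (by norm_num) (by norm_num) (by norm_num) (by norm_num) (by norm_num)
  have hy2 : sy κ t ≤ -0.438 := syL_le h 1.1 1.15 0.82739 0.438 0.64532 0.64533 0.24578 0.25696 hk1 hk2 (by linarith) (by norm_num) (by norm_num) (by norm_num)
    (expm_ge (by norm_num) (by norm_num) (by norm_num) (by norm_num)) (expm_le (by norm_num) (by norm_num) (by norm_num)) (by norm_num)
    (by norm_num) (by norm_num) (by norm_num) (by norm_num) (by norm_num) (by norm_num)
  exact ⟨hy1, hy2⟩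

theorem pc7 {β r h t κ : ℝ} (hh : h = 2 * Real.pi / (3 : ℕ)) (hβ : 0 < β) (hr : 10 ≤ r) (hκ : κ = β * r)
    (hk1 : 1.1 ≤ κ) (hk2 : κ ≤ 1.15) (hT1 : 1.238 ≤ t + κ) (hT2 : t + κ ≤ 1.267) :
    Xf β r h t 0 ≠ 0 ∧ r * 0.1338 ≤ (Ld β r h t 1 - Ld β r h t 0).im ∧
      ‖(((-1 : ℤ) : ℂ) - 1) * Ld β r h t 0 - ((-1 : ℤ) : ℂ) * Ld β r h t 1‖ ≤ r * 5.42 := by
  obtain ⟨q1, q2, q3⟩ := b3_h hh
  have hR0 := b3_R0 hβ hr hκ
  have hR := b3_R hβ hr hκ (by linarith)
  have hD1 : DomR κ t := b3_dom (by linarith) (by linarith) (Or.inl (by linarith))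
  have hD0 : DomR κ (t - h) := b3_dom (by linarith) (by linarith) (Or.inl (by linarith))
  have y1 := yA7 hD1 hk1 hk2 (by linarith) (by linarith)
  have y0 := yB7 hD0 hk1 hk2 (by linarith) (by linarith)
  have j1 := T3_23_d1_2 hD1 hβ hk1 hk2 (by linarith) (by linarith) hR0 hR
  exact b3_piece 1.1 1.15 0.442 0.462 0.452 0.63635 0.64275 0.63003 0.7392 2.3837 2.449 0.04 0.17 0.17 5.1205 2.4516 0 0 (-0.466) (-0.438) (-0.452) 1.57145 1.59361 1.8327 3.0283 0.1 0.295 0.165 3.533 3.7208 0 0 0.1338 5.42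
    hβ hr hκ (by norm_num) hk1 hk2 hD1 hD0 j1 (j1 _ (by rw [sub_self, norm_zero]; norm_num))
    (T3_23_d0_2 hD0 hβ hk1 hk2 (by linarith) (by linarith) hR0 hR)
    (T3_23_p0 hD0 hβ hk1 hk2 (by linarith) (by linarith) hR0 hR)
    y1.1 y1.2 y0.1 y0.2 (by norm_num)
    (ex_um 0.442 (by norm_num) (by norm_num) (by norm_num) (by norm_num)) (ex_um 0.462 (by norm_num) (by norm_num) (by norm_num) (by norm_num)) (ex_lm 0.452 (by norm_num) (by norm_num) (by norm_num) (by norm_num) (by norm_num)) (by norm_num) (by norm_num) (by norm_num) (by norm_num) (by norm_num) (by norm_num) (by norm_num) (by norm_num)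
    (by norm_num) (by norm_num) (by norm_num) (by norm_num) (by norm_num) (by norm_num) (by norm_num) (by norm_num) (by norm_num) (by norm_num)
    (ex_up 0.466 (by norm_num) (by norm_num) (by norm_num) (by norm_num)) (ex_lp 0.452 (by norm_num) (by norm_num) (by norm_num)) (by norm_num) (by norm_num) (by norm_num) (by norm_num) (by norm_num) (by norm_num)
    (by norm_num) (by norm_num) (by norm_num) (by norm_num) (by norm_num) (by norm_num) (by norm_num) (by norm_num) (by norm_num) (by norm_num) (by norm_num)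
    (by norm_num) (by norm_num) (by norm_num) (by norm_num)

private theorem yA8 {κ t : ℝ} (h : DomR κ t) (hk1 : 1.1 ≤ κ) (hk2 : κ ≤ 1.15) (ht1 : 1.267 ≤ t + κ) (ht2 : t + κ ≤ 1.295) :
    0.449 ≤ sy κ t ∧ sy κ t ≤ 0.469 := by
  have hy1 : 0.449 ≤ sy κ t := syR_ge h 1.1 1.15 1.267 0.449 1.56674 1.56675 0.6117 0.63952 hk1 hk2 (by linarith) (by norm_num) (by norm_num)
    (expn_ge (by norm_num) (by norm_num)) (expn_le (by norm_num) (by norm_num) (by norm_num)) (by norm_num)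
    (by norm_num) (by norm_num) (by norm_num) (by norm_num) (by norm_num) (by norm_num)
  have hy2 : sy κ t ≤ 0.469 := syR_le h 1.1 1.15 1.295 0.469 1.59839 0.6444 0.65186 0.6815 hk1 hk2 (by linarith) (by norm_num) (by norm_num)
    (expn_ge (by norm_num) (by norm_num)) (by norm_num) (by norm_num) (Or.inr ((mul_le_mul_of_nonneg_left (expn_le (E := 1.5984) (by norm_num) (by norm_num) (by norm_num)) (by norm_num)).trans (by norm_num))) (by norm_num) (by norm_num) (by norm_num)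
  exact ⟨hy1, hy2⟩

private theorem yB8 {κ t : ℝ} (h : DomR κ t) (hk1 : 1.1 ≤ κ) (hk2 : κ ≤ 1.15) (ht1 : -0.8274 ≤ t + κ) (ht2 : t + κ ≤ -0.79939) :
    (-0.45) ≤ sy κ t ∧ sy κ t ≤ (-0.424) := by
  have hy1 : -0.45 ≤ sy κ t := syL_ge h 1.1 1.15 0.8274 0.45 0.63762 0.63763 0.2466 0.2495 0.26085 hk1 hk2 (by linarith) (by norm_num) (by norm_num) (by norm_num)
    (expm_ge (by norm_num) (by norm_num) (by norm_num) (by norm_num)) (expm_le (by norm_num) (by norm_num) (by norm_num)) (by norm_num)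
    (by norm_num) (by norm_num) (by norm_num) (by norm_num) (by norm_num) (by norm_num)
  have hy2 : sy κ t ≤ -0.424 := syL_le h 1.1 1.15 0.79939 0.424 0.65442 0.65443 0.24128 0.25226 hk1 hk2 (by linarith) (by norm_num) (by norm_num) (by norm_num)
    (expm_ge (by norm_num) (by norm_num) (by norm_num) (by norm_num)) (expm_le (by norm_num) (by norm_num) (by norm_num)) (by norm_num)
    (by norm_num) (by norm_num) (by norm_num) (by norm_num) (by norm_num) (by norm_num)
  exact ⟨hy1, hy2⟩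

theorem pc8 {β r h t κ : ℝ} (hh : h = 2 * Real.pi / (3 : ℕ)) (hβ : 0 < β) (hr : 10 ≤ r) (hκ : κ = β * r)
    (hk1 : 1.1 ≤ κ) (hk2 : κ ≤ 1.15) (hT1 : 1.267 ≤ t + κ) (hT2 : t + κ ≤ 1.295) :
    Xf β r h t 0 ≠ 0 ∧ r * 0.1338 ≤ (Ld β r h t 1 - Ld β r h t 0).im ∧
      ‖(((-1 : ℤ) : ℂ) - 1) * Ld β r h t 0 - ((-1 : ℤ) : ℂ) * Ld β r h t 1‖ ≤ r * 5.42 := by
  obtain ⟨q1, q2, q3⟩ := b3_h hh
  have hR0 := b3_R0 hβ hr hκ
  have hR := b3_R hβ hr hκ (by linarith)
  have hD1 : DomR κ t := b3_dom (by linarith) (by linarith) (Or.inl (by linarith))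
  have hD0 : DomR κ (t - h) := b3_dom (by linarith) (by linarith) (Or.inl (by linarith))
  have y1 := yA8 hD1 hk1 hk2 (by linarith) (by linarith)
  have y0 := yB8 hD0 hk1 hk2 (by linarith) (by linarith)
  have j1 := T3_23_d1_2 hD1 hβ hk1 hk2 (by linarith) (by linarith) hR0 hR
  exact b3_piece 1.1 1.15 0.449 0.469 0.459 0.63191 0.63827 0.62563 0.7341 2.3908 2.4557 0.04 0.17 0.17 5.1205 2.4311 0 0 (-0.45) (-0.424) (-0.437) 1.54805 1.56832 1.8036 2.9763 0.1 0.295 0.165 3.533 3.6936 0 0 0.1338 5.42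
    hβ hr hκ (by norm_num) hk1 hk2 hD1 hD0 j1 (j1 _ (by rw [sub_self, norm_zero]; norm_num))
    (T3_23_d0_2 hD0 hβ hk1 hk2 (by linarith) (by linarith) hR0 hR)
    (T3_23_p0 hD0 hβ hk1 hk2 (by linarith) (by linarith) hR0 hR)
    y1.1 y1.2 y0.1 y0.2 (by norm_num)
    (ex_um 0.449 (by norm_num) (by norm_num) (by norm_num) (by norm_num)) (ex_um 0.469 (by norm_num) (by norm_num) (by norm_num) (by norm_num)) (ex_lm 0.459 (by norm_num) (by norm_num) (by norm_num) (by norm_num) (by norm_num)) (by norm_num) (by norm_num) (by norm_num) (by norm_num) (by norm_num) (by norm_num) (by norm_num) (by norm_num)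
    (by norm_num) (by norm_num) (by norm_num) (by norm_num) (by norm_num) (by norm_num) (by norm_num) (by norm_num) (by norm_num) (by norm_num)
    (ex_up 0.45 (by norm_num) (by norm_num) (by norm_num) (by norm_num)) (ex_lp 0.437 (by norm_num) (by norm_num) (by norm_num)) (by norm_num) (by norm_num) (by norm_num) (by norm_num) (by norm_num) (by norm_num)
    (by norm_num) (by norm_num) (by norm_num) (by norm_num) (by norm_num) (by norm_num) (by norm_num) (by norm_num) (by norm_num) (by norm_num) (by norm_num)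
    (by norm_num) (by norm_num) (by norm_num) (by norm_num)

private theorem yA9 {κ t : ℝ} (h : DomR κ t) (hk1 : 1.1 ≤ κ) (hk2 : κ ≤ 1.15) (ht1 : 1.295 ≤ t + κ) (ht2 : t + κ ≤ 1.324) :
    0.455 ≤ sy κ t ∧ sy κ t ≤ 0.476 := by
  have hy1 : 0.455 ≤ sy κ t := syR_ge h 1.1 1.15 1.295 0.455 1.57617 1.57618 0.62361 0.65197 hk1 hk2 (by linarith) (by norm_num) (by norm_num)
    (expn_ge (by norm_num) (by norm_num)) (expn_le (by norm_num) (by norm_num) (by norm_num)) (by norm_num)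
    (by norm_num) (by norm_num) (by norm_num) (by norm_num) (by norm_num) (by norm_num)
  have hy2 : sy κ t ≤ 0.476 := syR_le h 1.1 1.15 1.324 0.476 1.60962 0.6586 0.66624 0.69654 hk1 hk2 (by linarith) (by norm_num) (by norm_num)
    (expn_ge (by norm_num) (by norm_num)) (by norm_num) (by norm_num) (Or.inr ((mul_le_mul_of_nonneg_left (expn_le (E := 1.60963) (by norm_num) (by norm_num) (by norm_num)) (by norm_num)).trans (by norm_num))) (by norm_num) (by norm_num) (by norm_num)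
  exact ⟨hy1, hy2⟩

private theorem yB9 {κ t : ℝ} (h : DomR κ t) (hk1 : 1.1 ≤ κ) (hk2 : κ ≤ 1.15) (ht1 : -0.7994 ≤ t + κ) (ht2 : t + κ ≤ -0.77039) :
    (-0.435) ≤ sy κ t ∧ sy κ t ≤ (-0.408) := by
  have hy1 : -0.435 ≤ sy κ t := syL_ge h 1.1 1.15 0.7994 0.435 0.64726 0.64727 0.242 0.24483 0.25597 hk1 hk2 (by linarith) (by norm_num) (by norm_num) (by norm_num)
    (expm_ge (by norm_num) (by norm_num) (by norm_num) (by norm_num)) (expm_le (by norm_num) (by norm_num) (by norm_num)) (by norm_num)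
    (by norm_num) (by norm_num) (by norm_num) (by norm_num) (by norm_num) (by norm_num)
  have hy2 : sy κ t ≤ -0.408 := syL_le h 1.1 1.15 0.77039 0.408 0.66497 0.66498 0.23591 0.24665 hk1 hk2 (by linarith) (by norm_num) (by norm_num) (by norm_num)
    (expm_ge (by norm_num) (by norm_num) (by norm_num) (by norm_num)) (expm_le (by norm_num) (by norm_num) (by norm_num)) (by norm_num)
    (by norm_num) (by norm_num) (by norm_num) (by norm_num) (by norm_num) (by norm_num)
  exact ⟨hy1, hy2⟩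

theorem pc9 {β r h t κ : ℝ} (hh : h = 2 * Real.pi / (3 : ℕ)) (hβ : 0 < β) (hr : 10 ≤ r) (hκ : κ = β * r)
    (hk1 : 1.1 ≤ κ) (hk2 : κ ≤ 1.15) (hT1 : 1.295 ≤ t + κ) (hT2 : t + κ ≤ 1.324) :
    Xf β r h t 0 ≠ 0 ∧ r * 0.1338 ≤ (Ld β r h t 1 - Ld β r h t 0).im ∧
      ‖(((-1 : ℤ) : ℂ) - 1) * Ld β r h t 0 - ((-1 : ℤ) : ℂ) * Ld β r h t 1‖ ≤ r * 5.42 := by
  obtain ⟨q1, q2, q3⟩ := b3_h hh
  have hR0 := b3_R0 hβ hr hκ
  have hR := b3_R hβ hr hκ (by linarith)
  have hD1 : DomR κ t := b3_dom (by linarith) (by linarith) (Or.inl (by linarith))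
  have hD0 : DomR κ (t - h) := b3_dom (by linarith) (by linarith) (Or.inl (by linarith))
  have y1 := yA9 hD1 hk1 hk2 (by linarith) (by linarith)
  have y0 := yB9 hD0 hk1 hk2 (by linarith) (by linarith)
  have j1 := T3_23_d1_2 hD1 hβ hk1 hk2 (by linarith) (by linarith) hR0 hR
  exact b3_piece 1.1 1.15 0.455 0.476 0.466 0.6275 0.63445 0.62127 0.7297 2.3969 2.4625 0.04 0.17 0.17 5.1205 2.4135 0 0 (-0.435) (-0.408) (-0.421) 1.52348 1.54497 1.7768 2.9193 0.1 0.295 0.165 3.533 3.6741 0 0 0.1338 5.42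
    hβ hr hκ (by norm_num) hk1 hk2 hD1 hD0 j1 (j1 _ (by rw [sub_self, norm_zero]; norm_num))
    (T3_23_d0_2 hD0 hβ hk1 hk2 (by linarith) (by linarith) hR0 hR)
    (T3_23_p0 hD0 hβ hk1 hk2 (by linarith) (by linarith) hR0 hR)
    y1.1 y1.2 y0.1 y0.2 (by norm_num)
    (ex_um 0.455 (by norm_num) (by norm_num) (by norm_num) (by norm_num)) (ex_um 0.476 (by norm_num) (by norm_num) (by norm_num) (by norm_num)) (ex_lm 0.466 (by norm_num) (by norm_num) (by norm_num) (by norm_num) (by norm_num)) (by norm_num) (by norm_num) (by norm_num) (by norm_num) (by norm_num) (by norm_num) (by norm_num) (by norm_num)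
    (by norm_num) (by norm_num) (by norm_num) (by norm_num) (by norm_num) (by norm_num) (by norm_num) (by norm_num) (by norm_num) (by norm_num)
    (ex_up 0.435 (by norm_num) (by norm_num) (by norm_num) (by norm_num)) (ex_lp 0.421 (by norm_num) (by norm_num) (by norm_num)) (by norm_num) (by norm_num) (by norm_num) (by norm_num) (by norm_num) (by norm_num)
    (by norm_num) (by norm_num) (by norm_num) (by norm_num) (by norm_num) (by norm_num) (by norm_num) (by norm_num) (by norm_num) (by norm_num) (by norm_num)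
    (by norm_num) (by norm_num) (by norm_num) (by norm_num)

private theorem yA10 {κ t : ℝ} (h : DomR κ t) (hk1 : 1.1 ≤ κ) (hk2 : κ ≤ 1.15) (ht1 : 1.324 ≤ t + κ) (ht2 : t + κ ≤ 1.353) :
    0.461 ≤ sy κ t ∧ sy κ t ≤ 0.482 := by
  have hy1 : 0.461 ≤ sy κ t := syR_ge h 1.1 1.15 1.324 0.461 1.58565 1.58566 0.63563 0.66454 hk1 hk2 (by linarith) (by norm_num) (by norm_num)
    (expn_ge (by norm_num) (by norm_num)) (expn_le (by norm_num) (by norm_num) (by norm_num)) (by norm_num)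
    (by norm_num) (by norm_num) (by norm_num) (by norm_num) (by norm_num) (by norm_num)
  have hy2 : sy κ t ≤ 0.482 := syR_le h 1.1 1.15 1.353 0.482 1.6193 0.6786 0.67869 0.70956 hk1 hk2 (by linarith) (by norm_num) (by norm_num)
    (expn_ge (by norm_num) (by norm_num)) (by norm_num) (by norm_num) (Or.inr ((mul_le_mul_of_nonneg_left (expn_le (E := 1.61931) (by norm_num) (by norm_num) (by norm_num)) (by norm_num)).trans (by norm_num))) (by norm_num) (by norm_num) (by norm_num)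
  exact ⟨hy1, hy2⟩

private theorem yB10 {κ t : ℝ} (h : DomR κ t) (hk1 : 1.1 ≤ κ) (hk2 : κ ≤ 1.15) (ht1 : -0.7704 ≤ t + κ) (ht2 : t + κ ≤ -0.74139) :
    (-0.419) ≤ sy κ t ∧ sy κ t ≤ (-0.393) := by
  have hy1 : -0.419 ≤ sy κ t := syL_ge h 1.1 1.15 0.7704 0.419 0.6577 0.65771 0.2369 0.23963 0.25053 hk1 hk2 (by linarith) (by norm_num) (by norm_num) (by norm_num)
    (expm_ge (by norm_num) (by norm_num) (by norm_num) (by norm_num)) (expm_le (by norm_num) (by norm_num) (by norm_num)) (by norm_num)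
    (by norm_num) (by norm_num) (by norm_num) (by norm_num) (by norm_num) (by norm_num)
  have hy2 : sy κ t ≤ -0.393 := syL_le h 1.1 1.15 0.74139 0.393 0.67502 0.67503 0.23068 0.24117 hk1 hk2 (by linarith) (by norm_num) (by norm_num) (by norm_num)
    (expm_ge (by norm_num) (by norm_num) (by norm_num) (by norm_num)) (expm_le (by norm_num) (by norm_num) (by norm_num)) (by norm_num)
    (by norm_num) (by norm_num) (by norm_num) (by norm_num) (by norm_num) (by norm_num)
  exact ⟨hy1, hy2⟩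

theorem pc10 {β r h t κ : ℝ} (hh : h = 2 * Real.pi / (3 : ℕ)) (hβ : 0 < β) (hr : 10 ≤ r) (hκ : κ = β * r)
    (hk1 : 1.1 ≤ κ) (hk2 : κ ≤ 1.15) (hT1 : 1.324 ≤ t + κ) (hT2 : t + κ ≤ 1.353) :
    Xf β r h t 0 ≠ 0 ∧ r * 0.1338 ≤ (Ld β r h t 1 - Ld β r h t 0).im ∧
      ‖(((-1 : ℤ) : ℂ) - 1) * Ld β r h t 0 - ((-1 : ℤ) : ℂ) * Ld β r h t 1‖ ≤ r * 5.42 := by
  obtain ⟨q1, q2, q3⟩ := b3_h hh
  have hR0 := b3_R0 hβ hr hκ
  have hR := b3_R hβ hr hκ (by linarith)
  have hD1 : DomR κ t := b3_dom (by linarith) (by linarith) (Or.inl (by linarith))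
  have hD0 : DomR κ (t - h) := b3_dom (by linarith) (by linarith) (Or.inl (by linarith))
  have y1 := yA10 hD1 hk1 hk2 (by linarith) (by linarith)
  have y0 := yB10 hD0 hk1 hk2 (by linarith) (by linarith)
  have j1 := T3_23_d1_2 hD1 hβ hk1 hk2 (by linarith) (by linarith) hR0 hR
  exact b3_piece 1.1 1.15 0.461 0.482 0.471 0.62437 0.63066 0.61755 0.7253 2.4031 2.4684 0.04 0.17 0.17 5.1205 2.3958 0 0 (-0.419) (-0.393) (-0.406) 1.5008 1.52045 1.7486 2.8685 0.1 0.295 0.165 3.533 3.6476 0 0 0.1338 5.42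
    hβ hr hκ (by norm_num) hk1 hk2 hD1 hD0 j1 (j1 _ (by rw [sub_self, norm_zero]; norm_num))
    (T3_23_d0_2 hD0 hβ hk1 hk2 (by linarith) (by linarith) hR0 hR)
    (T3_23_p0 hD0 hβ hk1 hk2 (by linarith) (by linarith) hR0 hR)
    y1.1 y1.2 y0.1 y0.2 (by norm_num)
    (ex_um 0.461 (by norm_num) (by norm_num) (by norm_num) (by norm_num)) (ex_um 0.482 (by norm_num) (by norm_num) (by norm_num) (by norm_num)) (ex_lm 0.471 (by norm_num) (by norm_num) (by norm_num) (by norm_num) (by norm_num)) (by norm_num) (by norm_num) (by norm_num) (by norm_num) (by norm_num) (by norm_num) (by norm_num) (by norm_num)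
    (by norm_num) (by norm_num) (by norm_num) (by norm_num) (by norm_num) (by norm_num) (by norm_num) (by norm_num) (by norm_num) (by norm_num)
    (ex_up 0.419 (by norm_num) (by norm_num) (by norm_num) (by norm_num)) (ex_lp 0.406 (by norm_num) (by norm_num) (by norm_num)) (by norm_num) (by norm_num) (by norm_num) (by norm_num) (by norm_num) (by norm_num)
    (by norm_num) (by norm_num) (by norm_num) (by norm_num) (by norm_num) (by norm_num) (by norm_num) (by norm_num) (by norm_num) (by norm_num) (by norm_num)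
    (by norm_num) (by norm_num) (by norm_num) (by norm_num)

private theorem yA11 {κ t : ℝ} (h : DomR κ t) (hk1 : 1.1 ≤ κ) (hk2 : κ ≤ 1.15) (ht1 : 1.353 ≤ t + κ) (ht2 : t + κ ≤ 1.382) :
    0.467 ≤ sy κ t ∧ sy κ t ≤ 0.489 := by
  have hy1 : 0.467 ≤ sy κ t := syR_ge h 1.1 1.15 1.353 0.467 1.5952 1.59521 0.64778 0.67724 hk1 hk2 (by linarith) (by norm_num) (by norm_num)
    (expn_ge (by norm_num) (by norm_num)) (expn_le (by norm_num) (by norm_num) (by norm_num)) (by norm_num)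
    (by norm_num) (by norm_num) (by norm_num) (by norm_num) (by norm_num) (by norm_num)
  have hy2 : sy κ t ≤ 0.489 := syR_le h 1.1 1.15 1.382 0.489 1.63068 0.6855 0.69339 0.72492 hk1 hk2 (by linarith) (by norm_num) (by norm_num)
    (expn_ge (by norm_num) (by norm_num)) (by norm_num) (by norm_num) (Or.inr ((mul_le_mul_of_nonneg_left (expn_le (E := 1.63069) (by norm_num) (by norm_num) (by norm_num)) (by norm_num)).trans (by norm_num))) (by norm_num) (by norm_num) (by norm_num)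
  exact ⟨hy1, hy2⟩

private theorem yB11 {κ t : ℝ} (h : DomR κ t) (hk1 : 1.1 ≤ κ) (hk2 : κ ≤ 1.15) (ht1 : -0.7414 ≤ t + κ) (ht2 : t + κ ≤ -0.71239) :
    (-0.403) ≤ sy κ t ∧ sy κ t ≤ (-0.377) := by
  have hy1 : -0.403 ≤ sy κ t := syL_ge h 1.1 1.15 0.7414 0.403 0.66831 0.66832 0.2315 0.23419 0.24485 hk1 hk2 (by linarith) (by norm_num) (by norm_num) (by norm_num)
    (expm_ge (by norm_num) (by norm_num) (by norm_num) (by norm_num)) (expm_le (by norm_num) (by norm_num) (by norm_num)) (by norm_num)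
    (by norm_num) (by norm_num) (by norm_num) (by norm_num) (by norm_num) (by norm_num)
  have hy2 : sy κ t ≤ -0.377 := syL_le h 1.1 1.15 0.71239 0.377 0.68591 0.68592 0.22485 0.23509 hk1 hk2 (by linarith) (by norm_num) (by norm_num) (by norm_num)
    (expm_ge (by norm_num) (by norm_num) (by norm_num) (by norm_num)) (expm_le (by norm_num) (by norm_num) (by norm_num)) (by norm_num)
    (by norm_num) (by norm_num) (by norm_num) (by norm_num) (by norm_num) (by norm_num)
  exact ⟨hy1, hy2⟩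

theorem pc11 {β r h t κ : ℝ} (hh : h = 2 * Real.pi / (3 : ℕ)) (hβ : 0 < β) (hr : 10 ≤ r) (hκ : κ = β * r)
    (hk1 : 1.1 ≤ κ) (hk2 : κ ≤ 1.15) (hT1 : 1.353 ≤ t + κ) (hT2 : t + κ ≤ 1.382) :
    Xf β r h t 0 ≠ 0 ∧ r * 0.1338 ≤ (Ld β r h t 1 - Ld β r h t 0).im ∧
      ‖(((-1 : ℤ) : ℂ) - 1) * Ld β r h t 0 - ((-1 : ℤ) : ℂ) * Ld β r h t 1‖ ≤ r * 5.42 := by
  obtain ⟨q1, q2, q3⟩ := b3_h hh
  have hR0 := b3_R0 hβ hr hκ
  have hR := b3_R hβ hr hκ (by linarith)
  have hD1 : DomR κ t := b3_dom (by linarith) (by linarith) (Or.inl (by linarith))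
  have hD0 : DomR κ (t - h) := b3_dom (by linarith) (by linarith) (Or.inl (by linarith))
  have y1 := yA11 hD1 hk1 hk2 (by linarith) (by linarith)
  have y0 := yB11 hD0 hk1 hk2 (by linarith) (by linarith)
  have j1 := T3_23_d1_2 hD1 hβ hk1 hk2 (by linarith) (by linarith) hR0 hR
  exact b3_piece 1.1 1.15 0.467 0.489 0.478 0.62002 0.62689 0.61324 0.721 2.4093 2.4754 0.04 0.17 0.17 5.1205 2.3785 0 0 (-0.403) (-0.377) (-0.39) 1.47698 1.49631 1.7208 2.8169 0.1 0.295 0.165 3.533 3.6224 0 0 0.1338 5.42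
    hβ hr hκ (by norm_num) hk1 hk2 hD1 hD0 j1 (j1 _ (by rw [sub_self, norm_zero]; norm_num))
    (T3_23_d0_2 hD0 hβ hk1 hk2 (by linarith) (by linarith) hR0 hR)
    (T3_23_p0 hD0 hβ hk1 hk2 (by linarith) (by linarith) hR0 hR)
    y1.1 y1.2 y0.1 y0.2 (by norm_num)
    (ex_um 0.467 (by norm_num) (by norm_num) (by norm_num) (by norm_num)) (ex_um 0.489 (by norm_num) (by norm_num) (by norm_num) (by norm_num)) (ex_lm 0.478 (by norm_num) (by norm_num) (by norm_num) (by norm_num) (by norm_num)) (by norm_num) (by norm_num) (by norm_num) (by norm_num) (by norm_num) (by norm_num) (by norm_num) (by norm_num)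
    (by norm_num) (by norm_num) (by norm_num) (by norm_num) (by norm_num) (by norm_num) (by norm_num) (by norm_num) (by norm_num) (by norm_num)
    (ex_up 0.403 (by norm_num) (by norm_num) (by norm_num) (by norm_num)) (ex_lp 0.39 (by norm_num) (by norm_num) (by norm_num)) (by norm_num) (by norm_num) (by norm_num) (by norm_num) (by norm_num) (by norm_num)
    (by norm_num) (by norm_num) (by norm_num) (by norm_num) (by norm_num) (by norm_num) (by norm_num) (by norm_num) (by norm_num) (by norm_num) (by norm_num)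
    (by norm_num) (by norm_num) (by norm_num) (by norm_num)

theorem innS {β r h t κ : ℝ} (hh : h = 2 * Real.pi / (3 : ℕ)) (hβ : 0 < β) (hr : 10 ≤ r) (hκ : κ = β * r)
    (hk1 : 1.1 ≤ κ) (hk2 : κ ≤ 1.15) (hT1 : 1.06 ≤ t + κ) (hT2 : t + κ ≤ 1.382) :
    Xf β r h t 0 ≠ 0 ∧ r * 0.1338 ≤ (Ld β r h t 1 - Ld β r h t 0).im ∧
      ‖(((-1 : ℤ) : ℂ) - 1) * Ld β r h t 0 - ((-1 : ℤ) : ℂ) * Ld β r h t 1‖ ≤ r * 5.42 := by
  rcases le_total (t + κ) 1.08 with f0 | g0
  · exact pc0 hh hβ hr hκ hk1 hk2 hT1 f0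
  rcases le_total (t + κ) 1.1 with f1 | g1
  · exact pc1 hh hβ hr hκ hk1 hk2 g0 f1
  rcases le_total (t + κ) 1.127 with f2 | g2
  · exact pc2 hh hβ hr hκ hk1 hk2 g1 f2
  rcases le_total (t + κ) 1.153 with f3 | g3
  · exact pc3 hh hβ hr hκ hk1 hk2 g2 f3
  rcases le_total (t + κ) 1.18 with f4 | g4
  · exact pc4 hh hβ hr hκ hk1 hk2 g3 f4
  rcases le_total (t + κ) 1.209 with f5 | g5
  · exact pc5 hh hβ hr hκ hk1 hk2 g4 f5
  rcases le_total (t + κ) 1.238 with f6 | g6
  · exact pc6 hh hβ hr hκ hk1 hk2 g5 f6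
  rcases le_total (t + κ) 1.267 with f7 | g7
  · exact pc7 hh hβ hr hκ hk1 hk2 g6 f7
  rcases le_total (t + κ) 1.295 with f8 | g8
  · exact pc8 hh hβ hr hκ hk1 hk2 g7 f8
  rcases le_total (t + κ) 1.324 with f9 | g9
  · exact pc9 hh hβ hr hκ hk1 hk2 g8 f9
  rcases le_total (t + κ) 1.353 with f10 | g10
  · exact pc10 hh hβ hr hκ hk1 hk2 g9 f10
  exact pc11 hh hβ hr hκ hk1 hk2 g10 hT2

theorem circ {p : ℤ} (hp : IsCoprime (3 : ℤ) p) {β r : ℝ} (hβ : 0 < β) (hr : 10 ≤ r) (hk1 : 1.1 ≤ β * r)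
    (hk2 : β * r ≤ 1.15) : Circ (2 * Real.pi * p / (3 : ℕ) + β) r := by
  obtain ⟨κ, hκ⟩ : ∃ κ, κ = β * r := ⟨_, rfl⟩
  rw [← hκ] at hk1 hk2
  refine circ3 hp hr (h := 2 * Real.pi / (3 : ℕ)) (κ := κ) rfl 1.06 1.382 1.0065 0.1338 0.00143 0.00184 5.42 (by norm_num) (by norm_num) (by norm_num)
    (by norm_num) (by norm_num) ?_ ?_ ?_ ?_ ?_ (by norm_num) (by norm_num)
  · intro t h1 h2
    exact (innS rfl hβ hr hκ hk1 hk2 h1 h2).1
  · intro t h1 h2
    exact (innE rfl hβ hr hκ hk1 hk2 h1 h2).1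
  · intro t h1 h2
    exact (innE rfl hβ hr hκ hk1 hk2 h1 h2).2
  · intro t h1 h2
    exact (innS rfl hβ hr hκ hk1 hk2 h1 h2).2
  · intro t h1 h2 h3
    rcases h3 with h3 | h3
    · exact left rfl hβ hr hκ hk1 hk2 h1 h3
    · exact right0 rfl hβ hr hκ hk1 hk2 h3 h2

end B3_23

end Sok
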