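import Pool.Agent.Lib.MP_816dec_an.R1b3A

/-!
MP_816dec_an (A3, row R1), SINGLE CASE `b = 4`, `r ≥ 10`, `κ = β r ≤ 0.3`.
-/

set_option autoImplicit false

open Complex Set Filter Topology Metric

namespace Sok
namespace T4

open T3

theorem low41 {κ t : ℝ} (h : DomR κ t) (hκ : κ ≤ 0.3) (h1 : 0 ≤ t + κ) (h2 : t + κ ≤ 0.6598) : 0.79 ≤ sE κ t := by
  have hk := h.1
  refine sE_lo h 0.79 0.6598 0.79 0.79 (by norm_num) ?_ (by norm_num) (by norm_num) (by norm_num) (by norm_num)
  rw [abs_le]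
  constructor <;> linarith

theorem low42 {κ t : ℝ} (h : DomR κ t) (hκ : κ ≤ 0.3) (h1 : 0 ≤ t + κ) (h2 : t + κ ≤ 0.8483) : 0.66 ≤ sE κ t := by
  have hk := h.1
  refine sE_lo h 0.66 0.8483 0.66 0.66 (by norm_num) ?_ (by norm_num) (by norm_num) (by norm_num) (by norm_num)
  rw [abs_le]
  constructor <;> linarith

theorem low43 {κ t : ℝ} (h : DomR κ t) (h1 : -0.7226 ≤ t + κ) (h2 : t + κ ≤ 0) : 0.66 ≤ sE κ t := by
  have hk := h.1
  refine sE_lo h 1 0.7226 0.75 0.66 (by norm_num) ?_ (by norm_num) (by norm_num) (by norm_num) (by norm_num)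
  rw [abs_le]
  constructor <;> linarith

theorem low44 {κ t : ℝ} (h : DomR κ t) (h1 : -0.4713 ≤ t + κ) (h2 : t + κ ≤ 0) : 0.87 ≤ sE κ t := by
  have hk := h.1
  refine sE_lo h 1 0.4713 0.89 0.87 (by norm_num) ?_ (by norm_num) (by norm_num) (by norm_num) (by norm_num)
  rw [abs_le]
  constructor <;> linarith

theorem up04 {κ t : ℝ} (h : DomR κ t) (hκ : κ ≤ 0.3) (ht : t + κ ≤ -0.911) : sE κ t ≤ 0.63 := by
  have hk := h.1
  have h1 := fen_up h 0
  rw [neg_zero, Real.exp_zero, one_mul, zero_div, zero_mul, add_zero] at h1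
  refine h1.trans ?_
  have ha := s_angle h
  have hy := sy_ge49 hκ h
  have hx := sx_pos h
  have hc := cos_sa_pos h
  have hxe := sx_eq h
  obtain ⟨n, hn⟩ : ∃ n, n = Real.exp (-sy κ t) * Real.cos (sa κ t) := ⟨_, rfl⟩
  rw [← hn, div_eq_iff hk.ne'] at hxe
  have he : Real.exp (-sy κ t) ≤ 1.6324 := (Real.exp_le_exp.2 (by linarith)).trans exp49.1
  have hsa : sa κ t = (t + κ) + κ * (n - 1) := by unfold sa; rw [hxe]; ring
  have hstep : ∀ m : ℝ, 1 ≤ m → n ≤ m → sa κ t ≤ -0.911 + 0.3 * (m - 1) := by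
    intro m h1 h2
    rw [hsa]
    have h3 : κ * (n - 1) ≤ κ * (m - 1) := mul_le_mul_of_nonneg_left (by linarith) hk.le
    have h4 : κ * (m - 1) ≤ 0.3 * (m - 1) := mul_le_mul_of_nonneg_right hκ (by linarith)
    linarith
  have hcos : ∀ x : ℝ, 0 ≤ x → sa κ t ≤ -x → Real.cos (sa κ t) ≤ 1 - x ^ 2 / 2 + x ^ 4 / 24 := by
    intro x hx0 hx1
    refine le_trans ?_ (r1_cos_le x)
    rw [← Real.cos_neg (sa κ t)]
    refine Real.cos_le_cos_of_nonneg_of_le_pi hx0 ?_ (by linarith)
    have : sa κ t = t + sx κ t := rfl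
    linarith [Real.pi_pos]
  have hnx : ∀ x c : ℝ, 0 ≤ x → sa κ t ≤ -x → 1 - x ^ 2 / 2 + x ^ 4 / 24 ≤ c → 0 ≤ c → n ≤ 1.6324 * c := by
    intro x c hx0 hx1 hc1 hc0
    rw [hn]
    exact mul_le_mul he ((hcos x hx0 hx1).trans hc1) hc.le (by norm_num)
  have n1 : n ≤ 1.6324 := by
    rw [hn]
    calc Real.exp (-sy κ t) * Real.cos (sa κ t) ≤ 1.6324 * 1 :=
          mul_le_mul he (Real.cos_le_one _) hc.le (by norm_num)
      _ = 1.6324 := mul_one _
  have a1 := hstep 1.6324 (by norm_num) n1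
  have n2 := hnx 0.72 0.753 (by norm_num) (by linarith) (by norm_num) (by norm_num)
  have a2 := hstep 1.23 (by norm_num) (by linarith)
  have n3 := hnx 0.842 0.667 (by norm_num) (by linarith) (by norm_num) (by norm_num)
  have a3 := hstep 1.09 (by norm_num) (by linarith)
  have n4 := hnx 0.884 0.635 (by norm_num) (by linarith) (by norm_num) (by norm_num)
  have a4 := hstep 1.04 (by norm_num) (by linarith)
  have h5 := hcos 0.8975 (by norm_num) (by linarith)
  norm_num at h5 ⊢
  linarith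

theorem y1_ge4 {κ t : ℝ} (h : DomR κ t) (hκ : κ ≤ 0.3) (ht : 0.6597 ≤ t + κ) : 0.45 * κ ≤ sy κ t := by
  have hk := h.1
  by_contra hcon
  push Not at hcon
  have hy0 : 0 ≤ sy κ t := sy_nonneg h (by linarith)
  have ha := s_angle h
  have hs := sin_sa h
  have hp : sp κ t ≤ 0.45 := by
    unfold sp
    rw [div_le_iff₀ hk]
    linarith
  have hp0 : 0 ≤ sp κ t := sp_nonneg h (by linarith)
  have he : Real.exp (sy κ t) ≤ 1.145 := by
    have h1 := r1_exp_le3 hy0 (by linarith)
    refine h1.trans ?_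
    have h2 : sy κ t ≤ 0.135 := by linarith
    have h3 : sy κ t ^ 2 ≤ 0.135 ^ 2 := pow_le_pow_left₀ hy0 h2 2
    have h4 : sy κ t ^ 3 ≤ 0.135 ^ 3 := pow_le_pow_left₀ hy0 h2 3
    linarith
  have hsin : Real.sin (sa κ t) ≤ 0.5153 := by
    rw [hs]
    calc sp κ t * Real.exp (sy κ t) ≤ 0.45 * 1.145 := mul_le_mul hp he (Real.exp_pos _).le (by norm_num)
      _ ≤ 0.5153 := by norm_num
  have hsin0 : 0 ≤ Real.sin (sa κ t) := by
    rw [hs]
    exact mul_nonneg hp0 (Real.exp_pos _).le
  have hc := cos_sa_pos h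
  have hcos : 0.85 ≤ Real.cos (sa κ t) := by
    have := Real.sin_sq_add_cos_sq (sa κ t)
    nlinarith
  have he2 : 0.873 ≤ Real.exp (-sy κ t) := by
    rw [Real.exp_neg, le_inv_comm₀ (by norm_num) (Real.exp_pos _)]
    refine he.trans (by norm_num)
  have hxe := sx_eq h
  have hn : 0.74 ≤ sx κ t / κ := by
    rw [hxe]
    calc (0.74 : ℝ) ≤ 0.873 * 0.85 := by norm_num
      _ ≤ _ := mul_le_mul he2 hcos (by norm_num) (Real.exp_pos _).le
  rw [le_div_iff₀ hk] at hn
  have ha1 : 0.58 ≤ sa κ t := by unfold sa; linarith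
  have h5 : Real.sin 0.58 ≤ Real.sin (sa κ t) := by
    apply Real.sin_le_sin_of_le_of_le_pi_div_two _ _ ha1
    · linarith [Real.pi_pos]
    · have : sa κ t = t + sx κ t := rfl
      linarith
  have h6 := r1_sin_ge (x := 0.58) (by norm_num)
  norm_num at h6
  linarith

theorem y0_le4 {κ t : ℝ} (h : DomR κ t) (hκ : κ ≤ 0.3) (ht : t + κ ≤ -0.4712) : sy κ t ≤ -(0.4 * κ) := by
  have hk := h.1
  by_contra hcon
  push Not at hcon
  have hy0 : sy κ t ≤ 0 := sy_nonpos h (by linarith)
  have ha := s_angle h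
  have hs := sin_sa h
  have hp : -0.4 ≤ sp κ t := by
    unfold sp
    rw [le_div_iff₀ hk]
    linarith
  have hp0 : sp κ t ≤ 0 := sp_nonpos h (by linarith)
  have he : Real.exp (-sy κ t) ≤ 1.128 := by
    have h1 := r1_exp_le3 (z := -sy κ t) (by linarith) (by linarith)
    refine h1.trans ?_
    have h2 : -sy κ t ≤ 0.12 := by linarith
    have h3 : (-sy κ t) ^ 2 ≤ 0.12 ^ 2 := pow_le_pow_left₀ (by linarith) h2 2
    have h4 : (-sy κ t) ^ 3 ≤ 0.12 ^ 3 := pow_le_pow_left₀ (by linarith) h2 3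
    linarith
  have hxe := sx_eq h
  have hn : sx κ t / κ ≤ 1.128 := by
    rw [hxe]
    calc Real.exp (-sy κ t) * Real.cos (sa κ t) ≤ 1.128 * 1 :=
          mul_le_mul he (Real.cos_le_one _) (cos_sa_pos h).le (by norm_num)
      _ = 1.128 := mul_one _
  rw [div_le_iff₀ hk] at hn
  have ha1 : sa κ t ≤ -0.43 := by unfold sa; linarith
  have h5 : Real.sin 0.43 ≤ Real.sin (-sa κ t) := by
    apply Real.sin_le_sin_of_le_of_le_pi_div_two _ _ (by linarith)
    · linarith [Real.pi_pos]
    · have : sa κ t = t + sx κ t := rfl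
      linarith
  rw [Real.sin_neg, hs] at h5
  have h6 := r1_sin_ge (x := 0.43) (by norm_num)
  norm_num at h6
  have h7 : -(sp κ t * Real.exp (sy κ t)) ≤ 0.4 := by
    have h8 : Real.exp (sy κ t) ≤ 1 := by rw [Real.exp_le_one_iff]; exact hy0
    have h9 := Real.exp_pos (sy κ t)
    nlinarith
  linarith

/-- the larger of the two dominant copies -/
theorem exp66 {r : ℝ} (hr : 10 ≤ r) : 45 * r ≤ 0.715 * Real.exp (r * 0.66) := by
  have h1 : Real.exp (r * 0.66) = Real.exp 6.6 * Real.exp ((r - 10) * 0.66) := by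
    rw [← Real.exp_add]; congr 1; ring
  have h2 : (700 : ℝ) ≤ Real.exp 6.6 := by
    have e : (6.6 : ℝ) = ((6 : ℕ) : ℝ) * 1 + 0.6 := by norm_num
    rw [e, Real.exp_add, Real.exp_nat_mul]
    have h3 := Real.exp_one_gt_d9
    have h4 : (2.718 : ℝ) ^ 6 ≤ Real.exp 1 ^ 6 := pow_le_pow_left₀ (by norm_num) (by linarith) 6
    have h5 : (1.816 : ℝ) ≤ Real.exp 0.6 := by
      have := r1_exp_ge3 0.6
      norm_num at this ⊢
      linarith
    calc (700 : ℝ) ≤ 2.718 ^ 6 * 1.816 := by norm_num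
      _ ≤ _ := mul_le_mul h4 h5 (by norm_num) (by positivity)
  have h3 := Real.add_one_le_exp ((r - 10) * 0.66)
  rw [h1]
  have h4 : 700 * ((r - 10) * 0.66 + 1) ≤ Real.exp 6.6 * Real.exp ((r - 10) * 0.66) :=
    mul_le_mul h2 h3 (by linarith) (Real.exp_pos _).le
  linarith

theorem circ_b4_small {p : ℤ} {β r : ℝ} (hp : IsCoprime (4 : ℤ) p) (hr : 10 ≤ r) (hβ : 0 < β) (hκ : β * r ≤ 0.3) :
    Circ (2 * Real.pi * p / (4 : ℕ) + β) r := by
  have hr0 : 0 < r := by linarith
  obtain ⟨κ, hκd⟩ : ∃ κ, κ = β * r := ⟨_, rfl⟩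
  obtain ⟨h, hh⟩ : ∃ h : ℝ, h = 2 * Real.pi / 4 := ⟨_, rfl⟩
  rw [← hκd] at hκ
  have hk : 0 < κ := by rw [hκd]; positivity
  have hπ1 := Real.pi_gt_d4
  have hπ2 := Real.pi_lt_d4
  have hh1 : 1.57075 < h := by rw [hh]; linarith
  have hh2 : h < 1.5708 := by rw [hh]; linarith
  have hπh : Real.pi = 2 * h := by rw [hh]; ring
  have hβ1 : β ≤ 0.03 := by
    have : β * 10 ≤ β * r := mul_le_mul_of_nonneg_left hr hβ.le
    linarith
  have hβr : κ / β = r := by rw [hκd]; field_simp
  -- J bound on discs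
  have hJ : ∀ (σ : ℂ) (d n : ℝ), ‖σ‖ ≤ n → n + d ≤ 0.49 → ∀ s : ℂ, ‖s - σ‖ ≤ d → ‖HH β s - 1‖ ≤ 0.1266 := by
    intro σ d n hσ hnd s hs
    have h1 : ‖s‖ ≤ 0.49 := by
      have := norm_add_le (s - σ) σ
      rw [sub_add_cancel] at this
      linarith
    have h2 := J45_49_30 hβ (by linarith : β ≤ 1 / 30) (x := s.re) (y := s.im) (by rw [Complex.re_add_im]; exact h1)
    rw [Complex.re_add_im] at h2
    linarith
  -- the two logarithmic derivatives
  have hL0 : ∀ t, 0.42 * h ≤ t + κ → t + κ ≤ 0.7 * h →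
      Xf β r h t 0 ≠ 0 ∧ |(Ld β r h t 0).im - sy κ (t - h) / β| ≤ 5.78 ∧ ‖Ld β r h t 0‖ ≤ 2.15 * r := by
    intro t g1 g2
    have hD : DomR κ (t - h) := dom3 hk (by linarith) (by linarith)
    have f0 := y0_ge44 hD hκ (by linarith)
    have f2 : κ * Real.exp (-sy κ (t - h)) ≤ 0.4659 := by
      have h2 : Real.exp (-sy κ (t - h)) ≤ 1.5529 := by
        have h4 : Real.exp (-sy κ (t - h)) ≤ Real.exp 0.44 := Real.exp_le_exp.2 (by linarith)
        have h5 := Real.exp_bound' (x := 0.44) (by norm_num) (by norm_num) (n := 6) (by norm_num)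
        simp [Finset.sum_range_succ, Nat.factorial] at h5
        norm_num at h5 ⊢
        linarith
      calc κ * Real.exp (-sy κ (t - h)) ≤ 0.3 * 1.5529 := mul_le_mul hκ h2 (Real.exp_pos _).le (by norm_num)
        _ ≤ 0.4659 := by norm_num
    have hsg : ‖sg κ (t - h)‖ ≤ 0.4659 := by rw [norm_sg3 hD]; exact f2
    obtain ⟨a1, a2, a3⟩ := Ld3n (k := 0) (t := t) (h := h) (t' := t - h) 0.024 0.1266 0.4659 0.56 5.78 hβ hκd
      (by push_cast; ring) hD (by norm_num)
      (by norm_num) (by linarith) (hJ _ 0.024 0.4659 hsg (by norm_num)) f2 (by norm_num) (by linarith) (by norm_num)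
    refine ⟨a1, a2, ?_⟩
    have h3 : ‖sg κ (t - h) / (β : ℂ)‖ ≤ 1.572 * r := by
      rw [norm_div, Complex.norm_real, Real.norm_of_nonneg hβ.le, norm_sg3 hD, div_le_iff₀ hβ]
      have e : 1.572 * r * β = κ * 1.572 := by rw [hκd]; ring
      rw [e]
      apply mul_le_mul_of_nonneg_left _ hk.le
      have h4 : Real.exp (-sy κ (t - h)) ≤ Real.exp 0.44 := Real.exp_le_exp.2 (by linarith)
      have h5 := r1_exp_le3 (z := 0.44) (by norm_num) (by norm_num)
      refine h4.trans (h5.trans (by norm_num))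
    have h4 := norm_add_le (Ld β r h t 0 - sg κ (t - h) / β) (sg κ (t - h) / β)
    rw [sub_add_cancel] at h4
    linarith
  have hL1 : ∀ t, 0.42 * h ≤ t + κ → t + κ ≤ 0.7 * h →
      |(Ld β r h t 1).im - sy κ t / β| ≤ 0.4 ∧ ‖Ld β r h t 1‖ ≤ 1.05 * r := by
    intro t g1 g2
    have hD : DomR κ t := dom3 hk (by linarith) (by linarith)
    have hy : 0 ≤ sy κ t := sy_nonneg hD (by linarith)
    have hex : κ * Real.exp (-sy κ t) ≤ κ * 1 := by
      apply mul_le_mul_of_nonneg_left _ hk.le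
      rw [Real.exp_le_one_iff]
      linarith
    have hsg : ‖sg κ t‖ ≤ 0.3 := by rw [norm_sg3 hD]; linarith
    obtain ⟨a1, a2, a3⟩ := Ld3n (k := 1) (t := t) (h := h) (t' := t) 0.19 0.1266 0.3 1 0.4 hβ hκd (by push_cast; ring) hD (by norm_num)
      (by norm_num) (by linarith) (hJ _ 0.19 0.3 hsg (by norm_num)) (by linarith) (by norm_num) (by linarith)
      (by norm_num)
    refine ⟨a2, ?_⟩
    have h3 : ‖sg κ t / (β : ℂ)‖ ≤ r := by
      rw [norm_div, Complex.norm_real, Real.norm_of_nonneg hβ.le, norm_sg3 hD, div_le_iff₀ hβ]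
      have e : r * β = κ := by rw [hκd]; ring
      rw [e]
      linarith
    have h4 := norm_add_le (Ld β r h t 1 - sg κ t / β) (sg κ t / β)
    rw [sub_add_cancel] at h4
    linarith
  -- the far copies
  have hfar1 : ∀ t, 0 ≤ t + κ → t + κ ≤ h → ‖Xf β r h t (-1)‖ ≤ 1.6 := by
    intro t g1 g2
    refine xf_far 1 hβ hr (by rw [← hκd]; exact hκ) ?_ ?_
    · push_cast
      linarith
    · push_cast
      linarith
  have hfar2 : ∀ t, κ ≤ t + κ → t + κ ≤ h → ‖Xf β r h t 2‖ ≤ 1.6 := by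
    intro t g1 g2
    refine xf_far 0 hβ hr (by rw [← hκd]; exact hκ) ?_ ?_
    · push_cast
      linarith
    · push_cast
      linarith
  have hfar : ∀ t, κ ≤ t + κ → t + κ ≤ h → ∀ k ∈ far (-1) 4, ‖Xf β r h t k‖ ≤ 1.6 := by
    intro t g1 g2 k hk'
    have : far (-1) 4 = {-1, 2} := by decide
    rw [this, Finset.mem_insert, Finset.mem_singleton] at hk'
    rcases hk' with rfl | rfl
    · exact hfar1 t (by linarith) g2
    · exact hfar2 t g1 g2
  -- the maximum
  have hmax : ∀ t, 0.42 * h ≤ t + κ → t + κ ≤ 0.7 * h → 45 * r ≤ max ‖Xf β r h t 0‖ ‖Xf β r h t 1‖ := by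
    intro t g1 g2
    refine (exp66 hr).trans ?_
    rcases le_total (t + κ) (0.54 * h) with g3 | g3
    · refine le_trans ?_ (le_max_right _ _)
      have hD : DomR κ t := dom3 hk (by linarith) (by linarith)
      obtain ⟨b1, -⟩ := xf_bd (k := 1) (t := t) (h := h) (t' := t) hβ hr hκd hκ (by push_cast; ring) (by linarith) (by linarith)
      refine le_trans ?_ b1
      have h5 := low42 hD hκ (by linarith) (by linarith)
      have h6 := Real.exp_le_exp.2 (mul_le_mul_of_nonneg_left h5 hr0.le)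
      linarith
    · refine le_trans ?_ (le_max_left _ _)
      have hD : DomR κ (t - h) := dom3 hk (by linarith) (by linarith)
      obtain ⟨b1, -⟩ := xf_bd (k := 0) (t := t) (h := h) (t' := t - h) hβ hr hκd hκ (by push_cast; ring) (by linarith)
        (by linarith)
      refine le_trans ?_ b1
      have h5 := low43 hD (by linarith) (by linarith)
      have h6 := Real.exp_le_exp.2 (mul_le_mul_of_nonneg_left h5 hr0.le)
      linarith
  have hsf : ∀ g : ℤ → ℝ, ∑ k ∈ far (-1) 4, g k = g (-1) + g 2 := by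
    intro g
    have : far (-1) 4 = {-1, 2} := by decide
    rw [this, Finset.sum_insert (by decide), Finset.sum_singleton]
  have e1 : pw (-1) = 2 := by decide
  have e2 : (-1 : ℤ).natAbs = 1 := by decide
  have e3 : pw 2 = 2 := by decide
  have e4 : (2 : ℤ).natAbs = 2 := by decide
  have hEr : 16 / 450 / r ≤ 0.00356 := by rw [div_le_iff₀ hr0]; linarith
  have hEr0 : 0 < 16 / 450 / r := by positivity
  have hEr1 : 16 / 450 / r * r = 16 / 450 := by field_simp
  refine circ_L (b := 4) (h := h) (κ := κ) (a0 := -1) (s0 := 0) (slo := 0.42) (shi := 0.7) (a := 1.1) (m := r / 5)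
    (η := 0.036) (Λ0 := 2.15 * r) (Λ1 := 1.05 * r) (E := fun _ => 16 / 450 / r) (D := fun _ => 16 / 450)
    (by norm_num) hp hr0 (by rw [hh]; norm_num) (by norm_num) (by norm_num) (by norm_num) (by norm_num) (by linarith)
    (by norm_num) (fun t g1 g2 => (hL0 t g1 g2).1) ?_ ?_ (fun t g1 g2 => (hL0 t g1 g2).2.2)
    (fun t g1 g2 => (hL1 t g1 g2).2) ?_ ?_ ?_ ?_ ?_
  · -- E
    intro t g1 g2 k hk'
    have h1 := hfar t (by linarith) (by linarith) k hk'
    have h2 := hmax t g1 g2
    have h3 : (1.6 : ℝ) = 16 / 450 / r * (45 * r) := by field_simp; norm_num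
    refine h1.trans ?_
    rw [h3]
    exact mul_le_mul_of_nonneg_left h2 hEr0.le
  · -- D
    intro t g1 g2 k hk'
    have h1 := hfar (t + β) (by linarith) (by linarith) k hk'
    have h2 := hmax t g1 g2
    have h3 := mul_le_mul_of_nonneg_left h1 hr0.le
    show r * ‖Xf β r h (t + β) k‖ ≤ 16 / 450 * _
    linarith
  · -- slope
    intro t g1 g2
    obtain ⟨-, a2, -⟩ := hL0 t g1 g2
    obtain ⟨b2, -⟩ := hL1 t g1 g2
    have hD1 : DomR κ t := dom3 hk (by linarith) (by linarith)
    have hD0 : DomR κ (t - h) := dom3 hk (by linarith) (by linarith)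
    have c1 := y1_ge4 hD1 hκ (by linarith)
    have c0 := y0_le4 hD0 hκ (by linarith)
    have d1 : 0.45 * r ≤ sy κ t / β := by
      rw [le_div_iff₀ hβ]
      have : 0.45 * r * β = 0.45 * κ := by rw [hκd]; ring
      linarith
    have d0 : sy κ (t - h) / β ≤ -(0.4 * r) := by
      rw [div_le_iff₀ hβ]
      have : -(0.4 * r) * β = -(0.4 * κ) := by rw [hκd]; ring
      linarith
    rw [Complex.sub_im]
    have e1 := (abs_le.1 b2).1
    have e0 := (abs_le.1 a2).2
    linarith
  · rw [hsf]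
    linarith
  · -- outside
    intro t g1 g2 g3
    rw [hsf]
    rw [zero_mul] at g1
    rw [zero_add, one_mul] at g2
    have hf1 := hfar1 t g1 (by linarith)
    rcases g3 with g3 | g3
    · -- left
      have hD1 : DomR κ t := dom3 hk (by linarith) (by linarith)
      obtain ⟨b1, -⟩ := xf_bd (k := 1) (t := t) (h := h) (t' := t) hβ hr hκd hκ (by push_cast; ring) (by linarith)
        (by linarith)
      have h5 := low41 hD1 hκ g1 (by linarith)
      have h6 := Real.exp_le_exp.2 (mul_le_mul_of_nonneg_left h5 hr0.le)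
      have h7 : Real.exp (r * 0.79) = Real.exp (r * 0.16) * Real.exp (r * 0.63) := by
        rw [← Real.exp_add]; congr 1; ring
      have h7' : Real.exp (r * 0.63) = Real.exp (r * 0.33) * Real.exp (r * 0.3) := by
        rw [← Real.exp_add]; congr 1; ring
      have h8 : (4.9 : ℝ) ≤ Real.exp (r * 0.16) := by
        have h9 : (4.9 : ℝ) ≤ Real.exp 1.6 := by
          have := Real.sum_le_exp_of_nonneg (x := 1.6) (by norm_num) 8
          simp [Finset.sum_range_succ, Nat.factorial] at this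
          norm_num at this ⊢
          linarith
        exact h9.trans (Real.exp_le_exp.2 (by linarith))
      have h9 : (9 : ℝ) ≤ Real.exp (r * 0.33) := by
        have h11 := Real.quadratic_le_exp_of_nonneg (x := 3.3) (by norm_num)
        have h12 := Real.exp_le_exp.2 (by linarith : (3.3 : ℝ) ≤ r * 0.33)
        norm_num at h11
        linarith
      have h10 : (1 : ℝ) ≤ Real.exp (r * 0.3) := Real.one_le_exp (by linarith)
      have h0 : ‖Xf β r h t 0‖ ≤ 1.58 * Real.exp (r * 0.63) := by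
        rcases le_or_gt (t - h) (-(Real.pi / 2)) with h10 | h10
        · have h11 := xf_far (β := β) (r := r) (h := h) (t := t) (k := 0) 1 hβ hr (by rw [← hκd]; exact hκ)
            (by push_cast; linarith) (by push_cast; linarith)
          have h12 : (2 : ℝ) ≤ Real.exp (r * 0.63) := by
            have := Real.add_one_le_exp (r * 0.63)
            linarith
          linarith
        · have hD0 : DomR κ (t - h) := dom3 hk h10 (by linarith)
          obtain ⟨-, b2⟩ := xf_bd (k := 0) (t := t) (h := h) (t' := t - h) hβ hr hκd hκ (by push_cast; ring) h10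
            (by linarith)
          refine b2.trans ?_
          have h12 := up04 hD0 hκ (by linarith)
          have h14 := Real.exp_le_exp.2 (mul_le_mul_of_nonneg_left h12 hr0.le)
          linarith
      have h2 : ‖Xf β r h t 2‖ ≤ 1.6 * Real.exp (r * 0.3) := by
        rcases le_or_gt κ (t + κ) with h10 | h10
        · have := hfar2 t h10 (by linarith)
          linarith
        · have hD2 : DomR κ (t + h) := dom3 hk (by linarith) (by linarith)
          obtain ⟨-, b2⟩ := xf_bd (k := 2) (t := t) (h := h) (t' := t + h) hβ hr hκd hκ (by push_cast; ring)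
            (by linarith) (by linarith)
          have h12 := up1 hD2 (by linarith)
          have h13 : Real.cos (t + h) ≤ 0.3 := by
            have e : t + h = Real.pi / 2 - (-t) := by rw [hπh]; ring
            rw [e, Real.cos_pi_div_two_sub]
            have := Real.sin_le (x := -t) (by linarith)
            linarith
          have h14 := Real.exp_le_exp.2 (mul_le_mul_of_nonneg_left (h12.trans h13) hr0.le)
          have h15 := Real.exp_pos (r * 0.3)
          linarith
      rw [h7] at h6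
      have h15 : 4.9 * Real.exp (r * 0.63) ≤ Real.exp (r * 0.16) * Real.exp (r * 0.63) :=
        mul_le_mul_of_nonneg_right h8 (Real.exp_pos _).le
      have h16 : 9 * Real.exp (r * 0.3) ≤ Real.exp (r * 0.33) * Real.exp (r * 0.3) :=
        mul_le_mul_of_nonneg_right h9 (Real.exp_pos _).le
      rw [← h7'] at h16
      refine lt_of_lt_of_le ?_ (le_abs_self _)
      linarith
    · -- right
      have hf2 := hfar2 t (by linarith) (by linarith)
      have hD0 : DomR κ (t - h) := dom3 hk (by linarith) (by linarith)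
      obtain ⟨b1, -⟩ := xf_bd (k := 0) (t := t) (h := h) (t' := t - h) hβ hr hκd hκ (by push_cast; ring) (by linarith)
        (by linarith)
      have h5 := low44 hD0 (by linarith) (by linarith)
      have h6 := Real.exp_le_exp.2 (mul_le_mul_of_nonneg_left h5 hr0.le)
      have h7 : Real.exp (r * 0.87) = Real.exp (r * 0.17) * Real.exp (r * 0.7) := by
        rw [← Real.exp_add]; congr 1; ring
      have h8 : (4 : ℝ) ≤ Real.exp (r * 0.17) := by
        have h11 := Real.quadratic_le_exp_of_nonneg (x := 1.7) (by norm_num)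
        have h12 := Real.exp_le_exp.2 (by linarith : (1.7 : ℝ) ≤ r * 0.17)
        norm_num at h11
        linarith
      have h9 : (13 : ℝ) ≤ Real.exp (r * 0.7) := by
        have h11 := Real.quadratic_le_exp_of_nonneg (x := 7) (by norm_num)
        have h12 := Real.exp_le_exp.2 (by linarith : (7 : ℝ) ≤ r * 0.7)
        norm_num at h11
        linarith
      have h1 : ‖Xf β r h t 1‖ ≤ 1.58 * Real.exp (r * 0.7) := by
        have hD1 : DomR κ t := dom3 hk (by linarith) (by linarith)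
        obtain ⟨-, b2⟩ := xf_bd (k := 1) (t := t) (h := h) (t' := t) hβ hr hκd hκ (by push_cast; ring) (by linarith)
          (by linarith)
        refine b2.trans ?_
        have h12 := up1 hD1 (by linarith)
        have h13 : Real.cos t ≤ Real.cos 0.799 :=
          Real.cos_le_cos_of_nonneg_of_le_pi (by norm_num) (by linarith) (by linarith)
        have h15 := r1_cos_le 0.799
        norm_num at h15
        have h14 := Real.exp_le_exp.2 (mul_le_mul_of_nonneg_left
          ((h12.trans h13).trans (by linarith : Real.cos 0.799 ≤ 0.7)) hr0.le)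
        linarith
      rw [h7] at h6
      have h15 : 4 * Real.exp (r * 0.7) ≤ Real.exp (r * 0.17) * Real.exp (r * 0.7) :=
        mul_le_mul_of_nonneg_right h8 (Real.exp_pos _).le
      refine lt_of_lt_of_le ?_ (neg_le_abs _)
      linarith
  · -- small1
    rw [hsf]
    rw [e1, e2, e3, e4]
    norm_num at hEr ⊢
    linarith
  · -- small2
    rw [hsf, hsf]
    rw [e1, e2, e3, e4]
    have h3 : |((-1 : ℤ) : ℝ) - 1| = 2 := by norm_num
    have h4 : |((-1 : ℤ) : ℝ)| = 1 := by norm_num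
    have h3' : |((2 : ℤ) : ℝ) - 1| = 1 := by norm_num
    have h4' : |((2 : ℤ) : ℝ)| = 2 := by norm_num
    rw [h3, h4, h3', h4']
    have h5 : 16 / 450 / r * (2 * (2.15 * r) + 1 * (1.05 * r)) = 5.35 * (16 / 450) := by
      have e3 : 16 / 450 / r * (2 * (2.15 * r) + 1 * (1.05 * r)) = 5.35 * (16 / 450 / r * r) := by ring
      rw [e3, hEr1]
    have h6 : 16 / 450 / r * (1 * (2.15 * r) + 2 * (1.05 * r)) = 4.25 * (16 / 450) := by
      have e3 : 16 / 450 / r * (1 * (2.15 * r) + 2 * (1.05 * r)) = 4.25 * (16 / 450 / r * r) := by ring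
      rw [e3, hEr1]
    rw [h5, h6]
    norm_num at hEr hEr0 ⊢
    nlinarith

end T4

theorem circ_b4_small {p : ℤ} {β r : ℝ} (hp : IsCoprime (4 : ℤ) p) (hr : 10 ≤ r) (hβ : 0 < β) (hκ : β * r ≤ 0.3) :
    Circ (2 * Real.pi * p / (4 : ℕ) + β) r :=
  T4.circ_b4_small hp hr hβ hκ

end Sok
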