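import Pool.Agent.Lib.MP_816dec_an.R1b5WJ

/-!
MP_816dec_an (A3, row R1), SINGLE CASE `b = 5`, `r ≥ 10`, `1.15 ≤ κ ≤ 1.25`: outside the window, assembly (generated file).
-/

set_option autoImplicit false
set_option linter.unusedVariables false

open Complex Set Filter Topology Metric

namespace Sok

private theorem B5Jo_B1 {κ t : ℝ} (h : DomR κ t) (hk1 : 1.15 ≤ κ) (hk2 : κ ≤ 1.25) (ht1 : 0.0628 ≤ t + κ) (ht2 : t + κ ≤ 0.251) :
    (0.03 ≤ sy κ t ∧ sy κ t ≤ 0.119) ∧ (1.0139 ≤ sx κ t ∧ sx κ t ≤ 1.2127) ∧ κ * Real.exp (-sy κ t) ≤ 1.2131 ∧ 2.2803 ≤ sD κ t ∧ sD κ t ≤ 2.5316 := by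
  have hy1 : 0.03 ≤ sy κ t := syR_ge h 1.15 1.25 0.0628 0.03 1.03045 1.03046 0.02473 0.02689 hk1 hk2 (by linarith) (by norm_num) (by norm_num)
    (expn_ge (by norm_num) (by norm_num)) (expn_le (by norm_num) (by norm_num) (by norm_num)) (by norm_num)
    (by norm_num) (by norm_num) (by norm_num) (by norm_num) (by norm_num) (by norm_num)
  have hy2 : sy κ t ≤ 0.119 := syR_le h 1.15 1.25 0.251 0.119 1.12636 0.1048 0.10722 0.11656 hk1 hk2 (by linarith) (by norm_num) (by norm_num)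
    (expn_ge (by norm_num) (by norm_num)) (by norm_num) (by norm_num) (Or.inr ((mul_le_mul_of_nonneg_left (expn_le (E := 1.12637) (by norm_num) (by norm_num) (by norm_num)) (by norm_num)).trans (by norm_num))) (by norm_num) (by norm_num) (by norm_num)
  have hy1' : 0.03 ≤ sy κ t := by linarith
  have hy2' : sy κ t ≤ 0.119 := by linarith
  have hx1 : 1.0139 ≤ sx κ t := sx_lo h 1.15 0.119 0.1191 0.8878 1.0139 hk1 (by norm_num) hy2' (abs_le.2 ⟨by linarith, by linarith⟩) (ex_lm 0.119 (by norm_num) (by norm_num) (by norm_num) (by norm_num) (by norm_num)) (by norm_num) (by norm_num)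
  have hx2 : sx κ t ≤ 1.2127 := sx_hi h 1.25 0.03 0.03 0.97045 1.2127 hk2 hy1' (by norm_num) (le_trans (by linarith) (le_abs_self _)) (ex_um 0.03 (by norm_num) (by norm_num) (by norm_num) (by norm_num)) (by norm_num) (by norm_num)
  refine ⟨⟨hy1', hy2'⟩, ⟨hx1, hx2⟩, v5_n h 1.25 0.03 0.97045 1.2131 hk2 hy1' (ex_um 0.03 (by norm_num) (by norm_num) (by norm_num) (by norm_num)) (by norm_num), ?_, ?_⟩
  · exact v5_Dlo h 1.15 0.03 0.119 0.119 0.8878 2.2803 (by norm_num) hk1 hy1' hy2' (ex_lm 0.119 (by norm_num) (by norm_num) (by norm_num) (by norm_num) (by norm_num)) (by norm_num) (by norm_num) (by norm_num) (by norm_num)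
  · exact v5_Dup h 1.25 0.03 0.119 0.97045 0.88781 2.5316 hk2 hy1' hy2' (ex_um 0.03 (by norm_num) (by norm_num) (by norm_num) (by norm_num)) (ex_um 0.119 (by norm_num) (by norm_num) (by norm_num) (by norm_num)) (by norm_num) (by norm_num) (by norm_num)

private theorem B5Jo_T2_0_0 {β x y : ℝ} (hβ : 0 < β) (hN : β * 7.999 ≤ 1) (hx1 : 1.0138 ≤ x) (hx2 : x ≤ 1.082)
    (hy1 : -0 ≤ y) (hy2 : y ≤ 0.1191) : ‖HH β (x + y * I) - 1‖ ≤ 0.06 := by
  refine le_epsJ (C := 0.479) (N0 := 7.999) (J_boxp 1.0138 1.082 0 0.1191 0.1191 1.4239 1.0886 1.5567 0.7344 0.4978 2.8283 7.999 0.7646 2.801 1.411 1.0039 0.7119 0.5304 1.3553 3.4767 0.8352 1.8915 3.0874 3.2193 0.003369 0.01438 0.00001962 0.0000003101 0.001257 0.0000003101 0.0000003101 0.0000003101 0.479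
    hβ hN hx1 hx2 hy1 hy2 (by norm_num) (by norm_num) (by linarith) (by norm_num) (by norm_num) (by norm_num) (by norm_num) (by norm_num) (by norm_num) (by norm_num) (by norm_num) (by norm_num) (by norm_num) (by norm_num) (by norm_num) (by norm_num) (by norm_num) (by norm_num) (by norm_num) (by norm_num) (by norm_num) (by norm_num) (by norm_num) (by norm_num)
    (cube_sqrt_geJ (s := 0.8632) (by norm_num) (by norm_num) (by norm_num) (by norm_num))
    (cube_sqrt_geJ (s := 0.952) (by norm_num) (by norm_num) (by norm_num) (by norm_num))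
    (by norm_num) (by norm_num) (by norm_num) (by norm_num) (by norm_num) (by norm_num) (by norm_num) (by norm_num) (by norm_num) (by norm_num) (by norm_num) (by norm_num) (by norm_num) (by norm_num) (by norm_num) (by norm_num) (by norm_num) (by norm_num)
    (exp_neg_leJ (r := 0.694) 5 (by norm_num) (by norm_num) (by norm_num) (by norm_num))
    (exp_neg_leJ (r := 0.242) 4 (by norm_num) (by norm_num) (by norm_num) (by norm_num))
    (exp_neg_leJ (r := 0.841) 10 (by norm_num) (by norm_num) (by norm_num) (by norm_num))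
    (exp_neg_leJ (r := 0.99) 14 (by norm_num) (by norm_num) (by norm_num) (by norm_num))
    (exp_neg_leJ (r := 0.68) 6 (by norm_num) (by norm_num) (by norm_num) (by norm_num))
    (exp_neg_leJ (r := 0.99) 14 (by norm_num) (by norm_num) (by norm_num) (by norm_num))
    (exp_neg_leJ (r := 0.99) 14 (by norm_num) (by norm_num) (by norm_num) (by norm_num))
    (exp_neg_leJ (r := 0.99) 14 (by norm_num) (by norm_num) (by norm_num) (by norm_num))
    (by norm_num)) (by norm_num) hN hβ.le (by norm_num)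

private theorem B5Jo_T2_0_1 {β x y : ℝ} (hβ : 0 < β) (hN : β * 7.999 ≤ 1) (hx1 : 1.082 ≤ x) (hx2 : x ≤ 1.153)
    (hy1 : -0 ≤ y) (hy2 : y ≤ 0.1191) : ‖HH β (x + y * I) - 1‖ ≤ 0.06 := by
  refine le_epsJ (C := 0.4793) (N0 := 7.999) (J_boxp 1.082 1.153 0 0.1191 0.1191 1.4719 1.1592 1.6068 0.7099 0.5057 2.8283 7.999 0.7876 2.904 1.427 0.9766 0.7359 0.5427 1.3786 3.4358 0.8684 1.986 3.2238 3.1638 0.002785 0.01303 0.00001626 0.0000003101 0.0009653 0.0000003101 0.0000003101 0.0000003101 0.4793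
    hβ hN hx1 hx2 hy1 hy2 (by norm_num) (by norm_num) (by linarith) (by norm_num) (by norm_num) (by norm_num) (by norm_num) (by norm_num) (by norm_num) (by norm_num) (by norm_num) (by norm_num) (by norm_num) (by norm_num) (by norm_num) (by norm_num) (by norm_num) (by norm_num) (by norm_num) (by norm_num) (by norm_num) (by norm_num) (by norm_num) (by norm_num)
    (cube_sqrt_geJ (s := 0.8587) (by norm_num) (by norm_num) (by norm_num) (by norm_num))
    (cube_sqrt_geJ (s := 0.9505) (by norm_num) (by norm_num) (by norm_num) (by norm_num))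
    (by norm_num) (by norm_num) (by norm_num) (by norm_num) (by norm_num) (by norm_num) (by norm_num) (by norm_num) (by norm_num) (by norm_num) (by norm_num) (by norm_num) (by norm_num) (by norm_num) (by norm_num) (by norm_num) (by norm_num) (by norm_num)
    (exp_neg_leJ (r := 0.886) 5 (by norm_num) (by norm_num) (by norm_num) (by norm_num))
    (exp_neg_leJ (r := 0.341) 4 (by norm_num) (by norm_num) (by norm_num) (by norm_num))
    (exp_neg_leJ (r := 0.027) 11 (by norm_num) (by norm_num) (by norm_num) (by norm_num))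
    (exp_neg_leJ (r := 0.99) 14 (by norm_num) (by norm_num) (by norm_num) (by norm_num))
    (exp_neg_leJ (r := 0.946) 6 (by norm_num) (by norm_num) (by norm_num) (by norm_num))
    (exp_neg_leJ (r := 0.99) 14 (by norm_num) (by norm_num) (by norm_num) (by norm_num))
    (exp_neg_leJ (r := 0.99) 14 (by norm_num) (by norm_num) (by norm_num) (by norm_num))
    (exp_neg_leJ (r := 0.99) 14 (by norm_num) (by norm_num) (by norm_num) (by norm_num))
    (by norm_num)) (by norm_num) hN hβ.le (by norm_num)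

private theorem B5Jo_T2_0_2 {β x y : ℝ} (hβ : 0 < β) (hN : β * 7.999 ≤ 1) (hx1 : 1.153 ≤ x) (hx2 : x ≤ 1.2128)
    (hy1 : -0 ≤ y) (hy2 : y ≤ 0.1191) : ‖HH β (x + y * I) - 1‖ ≤ 0.06 := by
  refine le_epsJ (C := 0.4669) (N0 := 7.999) (J_boxp 1.153 1.2128 0 0.1191 0.1191 1.5219 1.2187 1.6503 0.6843 0.5125 2.8283 7.999 0.8008 2.966 1.436 0.9536 0.7609 0.5578 1.4029 3.4013 0.9029 2.0843 3.3658 3.144 0.002275 0.01156 0.0000134 0.0000003101 0.0007304 0.0000003101 0.0000003101 0.0000003101 0.4669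
    hβ hN hx1 hx2 hy1 hy2 (by norm_num) (by norm_num) (by linarith) (by norm_num) (by norm_num) (by norm_num) (by norm_num) (by norm_num) (by norm_num) (by norm_num) (by norm_num) (by norm_num) (by norm_num) (by norm_num) (by norm_num) (by norm_num) (by norm_num) (by norm_num) (by norm_num) (by norm_num) (by norm_num) (by norm_num) (by norm_num) (by norm_num)
    (cube_sqrt_geJ (s := 0.8561) (by norm_num) (by norm_num) (by norm_num) (by norm_num))
    (cube_sqrt_geJ (s := 0.9497) (by norm_num) (by norm_num) (by norm_num) (by norm_num))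
    (by norm_num) (by norm_num) (by norm_num) (by norm_num) (by norm_num) (by norm_num) (by norm_num) (by norm_num) (by norm_num) (by norm_num) (by norm_num) (by norm_num) (by norm_num) (by norm_num) (by norm_num) (by norm_num) (by norm_num) (by norm_num)
    (exp_neg_leJ (r := 0.086) 6 (by norm_num) (by norm_num) (by norm_num) (by norm_num))
    (exp_neg_leJ (r := 0.461) 4 (by norm_num) (by norm_num) (by norm_num) (by norm_num))
    (exp_neg_leJ (r := 0.221) 11 (by norm_num) (by norm_num) (by norm_num) (by norm_num))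
    (exp_neg_leJ (r := 0.99) 14 (by norm_num) (by norm_num) (by norm_num) (by norm_num))
    (exp_neg_leJ (r := 0.222) 7 (by norm_num) (by norm_num) (by norm_num) (by norm_num))
    (exp_neg_leJ (r := 0.99) 14 (by norm_num) (by norm_num) (by norm_num) (by norm_num))
    (exp_neg_leJ (r := 0.99) 14 (by norm_num) (by norm_num) (by norm_num) (by norm_num))
    (exp_neg_leJ (r := 0.99) 14 (by norm_num) (by norm_num) (by norm_num) (by norm_num))
    (by norm_num)) (by norm_num) hN hβ.le (by norm_num)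

private theorem B5Jo_T2 {β x y : ℝ} (hβ : 0 < β) (hN : β * 7.999 ≤ 1) (hx1 : 1.0138 ≤ x) (hx2 : x ≤ 1.2128)
    (hy1 : 0.0299 ≤ y) (hy2 : y ≤ 0.1191) : ‖HH β (x + y * I) - 1‖ ≤ 0.06 := by
  rcases le_total x 1.082 with hxx | hxx
  · exact B5Jo_T2_0_0 hβ hN (by linarith) (by linarith) (by linarith) (by linarith)
  rcases le_total x 1.153 with hxx | hxx
  · exact B5Jo_T2_0_1 hβ hN (by linarith) (by linarith) (by linarith) (by linarith)
  exact B5Jo_T2_0_2 hβ hN (by linarith) (by linarith) (by linarith) (by linarith)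

private theorem B5Jo_G3 {κ : ℝ} (hk1 : 1.15 ≤ κ) (hk2 : κ ≤ 1.25) : gG κ 0.34 ≤ 1.16973 ∧ 0.4274 ≤ Real.exp (-(κ * 0.34)) ^ 2 := by
  refine ⟨gG_le 0.34 1.15 1.25 1.16973 0.67639 0.65378 1.47846 1.5296 hk1 hk2 (by norm_num)
    (ex_um 0.391 (by norm_num) (by norm_num) (by norm_num) (by norm_num)) (ex_um 0.425 (by norm_num) (by norm_num) (by norm_num) (by norm_num))
    (ex_up 0.391 (by norm_num) (by norm_num) (by norm_num) (by norm_num)) (ex_up 0.425 (by norm_num) (by norm_num) (by norm_num) (by norm_num))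
    (by norm_num) (by norm_num), ?_⟩
  exact v5_M 0.65376 (ex_lm 0.425 (by linarith) (by norm_num) (by norm_num) (by norm_num) (by norm_num)) (by norm_num) (by norm_num)

private theorem B5Jo_C4 {β r t κ : ℝ} (hβ : 0 < β) (hr : 10 ≤ r) (hκ : κ = β * r) (hk1 : 1.15 ≤ κ) (hk2 : κ ≤ 1.25) (hta : 1.3194 ≤ t + κ)
    (htb : t + κ ≤ 1.5077) : ‖F (cexp (I * β)) (r * cexp (I * ((t + β / 2 : ℝ) : ℂ)))‖ ≤
      1.5426 * Real.exp (r * (1.16973 - 0.34 * (t + κ))) + 0.2272 * Real.exp (r * 0) :=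
  v5_H 0.34 1.15 1.25 1.3194 1.5077 1.16973 1.5284 0.4274 0.1411 1.64 1.2129 0.21065 0.1217 0.00000119 1.5426 0.2272 hβ hr hκ (by norm_num) hk1 hk2 hta htb (by norm_num) (B5Jo_G3 hk1 hk2).1 (B5Jo_G3 hk1 hk2).2 (by norm_num) (by norm_num) (by norm_num)
    (by norm_num) (by norm_num) (by norm_num) (by norm_num) (by norm_num) (by norm_num) (by norm_num) (by norm_num) (ex_un 2 0.1064 (by norm_num) (by norm_num) (by norm_num) (by norm_num))
    (v5_hump 2.0564 7.999 2.8283 0.0000009316 0.00000119 hβ hr hκ hk1 hk2 (by norm_num) htb (by norm_num) (by norm_num) (by norm_num) (by norm_num) (by norm_num) (by norm_num) (by norm_num) (ex_un 13 0.9 (by norm_num) (by norm_num) (by norm_num) (by norm_num)) (by norm_num)) (by norm_num) (by norm_num)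

private theorem B5Jo_G5 {κ : ℝ} (hk1 : 1.15 ≤ κ) (hk2 : κ ≤ 1.25) : gG κ (-0.71) ≤ 1.64613 ∧ 5.11895 ≤ Real.exp (-(κ * (-0.71))) ^ 2 := by
  refine ⟨gG_le (-0.71) 1.15 1.25 1.64613 2.26257 2.42905 0.44199 0.41171 hk1 hk2 (by norm_num)
    (ex_up 0.8165 (by norm_num) (by norm_num) (by norm_num) (by norm_num)) (ex_up 0.8875 (by norm_num) (by norm_num) (by norm_num) (by norm_num))
    (ex_um 0.8165 (by norm_num) (by norm_num) (by norm_num) (by norm_num)) (ex_um 0.8875 (by norm_num) (by norm_num) (by norm_num) (by norm_num))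
    (by norm_num) (by norm_num), ?_⟩
  exact v5_M 2.26251 (ex_lp 0.8165 (by linarith) (by norm_num) (by norm_num)) (by norm_num) (by norm_num)

private theorem B5Jo_C6 {β r t κ : ℝ} (hβ : 0 < β) (hr : 10 ≤ r) (hκ : κ = β * r) (hk1 : 1.15 ≤ κ) (hk2 : κ ≤ 1.25) (hta : (-2.4505) ≤ t + κ)
    (htb : t + κ ≤ (-2.2622)) : ‖F (cexp (I * β)) (r * cexp (I * ((t + β / 2 : ℝ) : ℂ)))‖ ≤
      0.7793 * Real.exp (r * (1.64613 - (-0.71) * (t + κ))) + 1.8518 * Real.exp (r * 0.0501) :=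
  v5_HU (-0.71) 1.15 1.25 (-2.4505) (-2.2622) 1.64613 0.7793 5.11895 0.1411 0.7136 1.0114 0 0.0501 0.00000119 1.8518 hβ hr hκ (by norm_num) hk1 hk2 hta htb (by norm_num) (by norm_num) (B5Jo_G5 hk1 hk2).1 (B5Jo_G5 hk1 hk2).2 (by norm_num) (by norm_num) (by norm_num)
    (by norm_num) (by norm_num) (by norm_num) (by norm_num) (by norm_num) (by norm_num) (by norm_num)
    (by norm_num) (by norm_num) (by norm_num) (v5_hump 5.8263 7.999 2.8283 0.0000009316 0.00000119 hβ hr hκ hk1 hk2 (by norm_num) htb (by norm_num) (by norm_num) (by norm_num) (by norm_num) (by norm_num) (by norm_num) (by norm_num) (ex_un 13 0.9 (by norm_num) (by norm_num) (by norm_num) (by norm_num)) (by norm_num)) (by norm_num)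

private theorem B5Jo_C7 {β r t κ : ℝ} (hβ : 0 < β) (hr : 10 ≤ r) (hκ : κ = β * r) (hk1 : 1.15 ≤ κ) (hk2 : κ ≤ 1.25) (hta : 2.576 ≤ t + κ)
    (htb : t + κ ≤ 2.7643) : ‖F (cexp (I * β)) (r * cexp (I * ((t + β / 2 : ℝ) : ℂ)))‖ ≤
      4.011 * Real.exp (r * (0.29 + 1 / 20)) :=
  v5_UD 1.15 1.25 2.576 2.7643 0.29 0.3721 0.29 2.0911 4.011 hβ hr hκ (by norm_num) hk1 hk2 hta htb (by norm_num) (by norm_num) (by norm_num) (by norm_num) (by norm_num) (by norm_num) (by norm_num) (by norm_num) (by norm_num) (by norm_num) (by norm_num)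

private theorem B5Jo_Y8 {β r t κ h t' : ℝ} (hβ : 0 < β) (hκ : κ = β * r) (hN : β * 7.999 ≤ 1) (hk1 : 1.15 ≤ κ) (hk2 : κ ≤ 1.25)
    (ht : t' = t + (((1 : ℤ) : ℝ) - 1) * h) (hD : DomR κ t') (hta : 0.0628 ≤ t' + κ) (htb : t' + κ ≤ 0.251) :
    0.7452 * Real.exp (r * sE κ t') ≤ ‖Xf β r h t 1‖ := by
  obtain ⟨⟨ya, yb⟩, ⟨xa, xb⟩, n1, Da, Db⟩ := B5Jo_B1 hD hk1 hk2 hta htb
  have J := B5Jo_T2 (x := sx κ t') (y := sy κ t') hβ hN (by linarith only [xa, xb, ya, yb]) (by linarith only [xa, xb, ya, yb]) (by linarith only [xa, xb, ya, yb]) (by linarith only [xa, xb, ya, yb])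
  exact v5_Jlo hβ hκ (k := 1) ht hD 0.06 2.5316 0.7452 (by norm_num) J Db (by norm_num)

private theorem B5Jo_V9 {κ t : ℝ} (hD : DomR κ t) (hk1 : 1.15 ≤ κ) (hk2 : κ ≤ 1.25) (hta : 0.0628 ≤ t + κ) (htb : t + κ ≤ 0.251) :
    1.0033 - 0.0661 * (t + κ) ≤ sE κ t := by
  have hκ0 : 0 < κ := hD.1
  exact v5_V1 hD 1.15 1.25 0.0628 0.251 0.0423 0.13844 0.29947 1.0033 0.0661 (by norm_num) hk1 hk2 (by norm_num) (by norm_num) hta htb (by norm_num) (clo5 1.15 1.25 0.29947 (by norm_num) hk1 hk2 (by norm_num) (by norm_num) (by norm_num))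
      ((cup2 1.15 (by norm_num) hk1).trans (by norm_num)) (by norm_num) (by norm_num) (by norm_num) (by norm_num) (by norm_num) (by norm_num)

private theorem B5Jo_K10 {β r t κ h : ℝ} (hβ : 0 < β) (hr : 10 ≤ r) (hκ : κ = β * r) (hk1 : 1.15 ≤ κ) (hk2 : κ ≤ 1.25)
    (hh : h = 2 * Real.pi / 5) (hh1 : 1.25663 ≤ h) (hh2 : h ≤ 1.25664) (hta : 0.0628 ≤ t + κ) (htb : t + κ ≤ 0.251)
    (hY : 0.7452 * Real.exp (r * sE κ t) ≤ ‖Xf β r h t 1‖) (hV : 1.0033 - 0.0661 * (t + κ) ≤ sE κ t) :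
    ‖Xf β r h t 2‖ ≤ 0.131 * ‖Xf β r h t 1‖ := by
  rw [v5_X 2 1 (by push_cast; ring)]
  exact v5_cmp 0.278 0.06257 0.13 0.9867 0.00005249 0.0000161 0.131 hr (B5Jo_C4 (t := t + 1 * h) hβ hr hκ hk1 hk2 (by linarith only [hta, htb, hh1, hh2]) (by linarith only [hta, htb, hh1, hh2])) hY (by norm_num) (by norm_num) (by norm_num) (by norm_num) (by linarith only [hV, hta, htb, hh1, hh2]) (ex_un 2 0.7799 (by norm_num) (by norm_num) (by norm_num) (by norm_num)) (by norm_num) (by norm_num) (by linarith only [hV, hta, htb, hh1, hh2]) (ex_un 9 0.8669 (by norm_num) (by norm_num) (by norm_num) (by norm_num)) (by norm_num) (by norm_num)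

private theorem B5Jo_K11 {β r t κ h : ℝ} (hβ : 0 < β) (hr : 10 ≤ r) (hκ : κ = β * r) (hk1 : 1.15 ≤ κ) (hk2 : κ ≤ 1.25)
    (hh : h = 2 * Real.pi / 5) (hh1 : 1.25663 ≤ h) (hh2 : h ≤ 1.25664) (hta : 0.0628 ≤ t + κ) (htb : t + κ ≤ 0.251)
    (hY : 0.7452 * Real.exp (r * sE κ t) ≤ ‖Xf β r h t 1‖) (hV : 1.0033 - 0.0661 * (t + κ) ≤ sE κ t) :
    ‖Xf β r h t (-1)‖ ≤ 0.000295 * ‖Xf β r h t 1‖ := by
  rw [v5_X (-1) (-2) (by push_cast; ring)]
  exact v5_cmp 0.9467 0.00007748 0.0000811 0.9366 0.00008565 0.000213 0.000295 hr (B5Jo_C6 (t := t + (-2) * h) hβ hr hκ hk1 hk2 (by linarith only [hta, htb, hh1, hh2]) (by linarith only [hta, htb, hh1, hh2])) hY (by norm_num) (by norm_num) (by norm_num) (by norm_num) (by linarith only [hV, hta, htb, hh1, hh2]) (ex_un 9 0.4669 (by norm_num) (by norm_num) (by norm_num) (by norm_num)) (by norm_num) (by norm_num) (by linarith only [hV, hta, htb, hh1, hh2]) (ex_un 9 0.3659 (by norm_num) (by norm_num) (by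 norm_num) (by norm_num)) (by norm_num) (by norm_num)

private theorem B5Jo_K12 {β r t κ h : ℝ} (hβ : 0 < β) (hr : 10 ≤ r) (hκ : κ = β * r) (hk1 : 1.15 ≤ κ) (hk2 : κ ≤ 1.25)
    (hh : h = 2 * Real.pi / 5) (hh1 : 1.25663 ≤ h) (hh2 : h ≤ 1.25664) (hta : 0.0628 ≤ t + κ) (htb : t + κ ≤ 0.251)
    (hY : 0.7452 * Real.exp (r * sE κ t) ≤ ‖Xf β r h t 1‖) (hV : 1.0033 - 0.0661 * (t + κ) ≤ sE κ t) :
    ‖Xf β r h t (-2)‖ ≤ 0.00839 * ‖Xf β r h t 1‖ := by
  rw [v5_Xm2 hh]
  exact v5_cmp0 0.6467 0.001557 0.00839 hr (B5Jo_C7 (t := t + 2 * h) hβ hr hκ hk1 hk2 (by linarith only [hta, htb, hh1, hh2]) (by linarith only [hta, htb, hh1, hh2])) hY (by norm_num) (by norm_num) (by norm_num) (by linarith only [hV, hta, htb, hh1, hh2]) (ex_un 6 0.4669 (by norm_num) (by norm_num) (by norm_num) (by norm_num)) (by norm_num)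

private theorem B5Jo_G13 {κ : ℝ} (hk1 : 1.15 ≤ κ) (hk2 : κ ≤ 1.25) : gG κ (-0.42) ≤ 1.21793 ∧ 2.62738 ≤ Real.exp (-(κ * (-0.42))) ^ 2 := by
  refine ⟨gG_le (-0.42) 1.15 1.25 1.21793 1.62093 1.69046 0.61694 0.59156 hk1 hk2 (by norm_num)
    (ex_up 0.483 (by norm_num) (by norm_num) (by norm_num) (by norm_num)) (ex_up 0.525 (by norm_num) (by norm_num) (by norm_num) (by norm_num))
    (ex_um 0.483 (by norm_num) (by norm_num) (by norm_num) (by norm_num)) (ex_um 0.525 (by norm_num) (by norm_num) (by norm_num) (by norm_num))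
    (by norm_num) (by norm_num), ?_⟩
  exact v5_M 1.62092 (ex_lp 0.483 (by linarith) (by norm_num) (by norm_num)) (by norm_num) (by norm_num)

private theorem B5Jo_C14 {β r t κ : ℝ} (hβ : 0 < β) (hr : 10 ≤ r) (hκ : κ = β * r) (hk1 : 1.15 ≤ κ) (hk2 : κ ≤ 1.25) (hta : (-1.1939) ≤ t + κ)
    (htb : t + κ ≤ (-1.0056)) : ‖F (cexp (I * β)) (r * cexp (I * ((t + β / 2 : ℝ) : ℂ)))‖ ≤
      0.9128 * Real.exp (r * (1.21793 - (-0.42) * (t + κ))) + 1.5158 * Real.exp (r * 0.0501) :=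
  v5_HU (-0.42) 1.15 1.25 (-1.1939) (-1.0056) 1.21793 0.9128 2.62738 0.1411 0.7136 2.268 0 0.0501 0.00000119 1.5158 hβ hr hκ (by norm_num) hk1 hk2 hta htb (by norm_num) (by norm_num) (B5Jo_G13 hk1 hk2).1 (B5Jo_G13 hk1 hk2).2 (by norm_num) (by norm_num) (by norm_num)
    (by norm_num) (by norm_num) (by norm_num) (by norm_num) (by norm_num) (by norm_num) (by norm_num)
    (by norm_num) (by norm_num) (by norm_num) (v5_hump 4.5697 7.999 2.8283 0.0000009316 0.00000119 hβ hr hκ hk1 hk2 (by norm_num) htb (by norm_num) (by norm_num) (by norm_num) (by norm_num) (by norm_num) (by norm_num) (by norm_num) (ex_un 13 0.9 (by norm_num) (by norm_num) (by norm_num) (by norm_num)) (by norm_num)) (by norm_num)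

private theorem B5Jo_K15 {β r t κ h : ℝ} (hβ : 0 < β) (hr : 10 ≤ r) (hκ : κ = β * r) (hk1 : 1.15 ≤ κ) (hk2 : κ ≤ 1.25)
    (hh : h = 2 * Real.pi / 5) (hh1 : 1.25663 ≤ h) (hh2 : h ≤ 1.25664) (hta : 0.0628 ≤ t + κ) (htb : t + κ ≤ 0.251)
    (hY : 0.7452 * Real.exp (r * sE κ t) ≤ ‖Xf β r h t 1‖) (hV : 1.0033 - 0.0661 * (t + κ) ≤ sE κ t) :
    ‖Xf β r h t 0‖ ≤ 0.185 * ‖Xf β r h t 1‖ := by
  rw [v5_X 0 (-1) (by push_cast; ring)]
  exact v5_cmp 0.1911 0.1501 0.184 0.9366 0.00008565 0.000175 0.185 hr (B5Jo_C14 (t := t + (-1) * h) hβ hr hκ hk1 hk2 (by linarith only [hta, htb, hh1, hh2]) (by linarith only [hta, htb, hh1, hh2])) hY (by norm_num) (by norm_num) (by norm_num) (by norm_num) (by linarith only [hV, hta, htb, hh1, hh2]) (ex_un 1 0.9109 (by norm_num) (by norm_num) (by norm_num) (by norm_num)) (by norm_num) (by norm_num) (by linarith only [hV, hta, htb, hh1, hh2]) (ex_un 9 0.3659 (by norm_num) (by norm_num) (by norm_num) (by norm_num))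 (by norm_num) (by norm_num)

private theorem B5Jo_O16 {β r t κ h : ℝ} (hβ : 0 < β) (hr : 10 ≤ r) (hκ : κ = β * r) (hk1 : 1.15 ≤ κ) (hk2 : κ ≤ 1.25)
    (hh : h = 2 * Real.pi / 5) (hta : 0.0628 ≤ t + κ) (htb : t + κ ≤ 0.251) :
    ‖Xf β r h t (-2)‖ + ‖Xf β r h t (-1)‖ + ‖Xf β r h t 2‖ < |‖Xf β r h t 1‖ - ‖Xf β r h t 0‖| := by
  obtain ⟨hh1, hh2⟩ := v5_h hh
  have hκ0 : 0 < κ := by linarith only [hk1]
  have hN : β * 7.999 ≤ 1 := v5_hN 1.25 7.999 hβ hr hκ hk2 (by norm_num) (by norm_num)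
  have hD1 : DomR κ t := v5_dom hκ0 (by linarith only [hta, htb, hk1, hk2, hh1, hh2]) (Or.inr (by linarith only [hta, htb, hk1, hk2, hh1, hh2]))
  have e1 : t = t + (((1 : ℤ) : ℝ) - 1) * h := by push_cast; ring
  have hY := B5Jo_Y8 (h := h) hβ hκ hN hk1 hk2 e1 hD1 hta htb
  have hV := B5Jo_V9 hD1 hk1 hk2 hta htb
  have cp2 := B5Jo_K10 hβ hr hκ hk1 hk2 hh hh1 hh2 hta htb hY hV
  have cm1 := B5Jo_K11 hβ hr hκ hk1 hk2 hh hh1 hh2 hta htb hY hV
  have cm2 := B5Jo_K12 hβ hr hκ hk1 hk2 hh hh1 hh2 hta htb hY hV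
  have cn0 := B5Jo_K15 hβ hr hκ hk1 hk2 hh hh1 hh2 hta htb hY hV
  have hp : 0 < ‖Xf β r h t 1‖ := lt_of_lt_of_le (by positivity) hY
  exact v5_out1 _ _ _ _ cm2 cm1 cp2 cn0 hp (by norm_num)

private theorem B5Jo_B17 {κ t : ℝ} (h : DomR κ t) (hk1 : 1.15 ≤ κ) (hk2 : κ ≤ 1.25) (ht1 : 0.251 ≤ t + κ) (ht2 : t + κ ≤ 0.415) :
    (0.117 ≤ sy κ t ∧ sy κ t ≤ 0.189) ∧ (0.9329 ≤ sx κ t ∧ sx κ t ≤ 1.1059) ∧ κ * Real.exp (-sy κ t) ≤ 1.112 ∧ 2.2793 ≤ sD κ t ∧ sD κ t ≤ 2.4706 := by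
  have hy1 : 0.117 ≤ sy κ t := syR_ge h 1.15 1.25 0.251 0.117 1.12411 1.12412 0.10521 0.11437 hk1 hk2 (by linarith) (by norm_num) (by norm_num)
    (expn_ge (by norm_num) (by norm_num)) (expn_le (by norm_num) (by norm_num) (by norm_num)) (by norm_num)
    (by norm_num) (by norm_num) (by norm_num) (by norm_num) (by norm_num) (by norm_num)
  have hy2 : sy κ t ≤ 0.189 := syR_le h 1.15 1.25 0.415 0.189 1.20804 0.1813 0.18265 0.19855 hk1 hk2 (by linarith) (by norm_num) (by norm_num)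
    (expn_ge (by norm_num) (by norm_num)) (by norm_num) (by norm_num) (Or.inr ((mul_le_mul_of_nonneg_left (expn_le (E := 1.20805) (by norm_num) (by norm_num) (by norm_num)) (by norm_num)).trans (by norm_num))) (by norm_num) (by norm_num) (by norm_num)
  have hy1' : 0.117 ≤ sy κ t := by linarith
  have hy2' : sy κ t ≤ 0.189 := by linarith
  have hx1 : 0.9329 ≤ sx κ t := sx_lo h 1.15 0.189 0.1891 0.82778 0.9329 hk1 (by norm_num) hy2' (abs_le.2 ⟨by linarith, by linarith⟩) (ex_lm 0.189 (by norm_num) (by norm_num) (by norm_num) (by norm_num) (by norm_num)) (by norm_num) (by norm_num)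
  have hx2 : sx κ t ≤ 1.1059 := sx_hi h 1.25 0.117 0.117 0.88959 1.1059 hk2 hy1' (by norm_num) (le_trans (by linarith) (le_abs_self _)) (ex_um 0.117 (by norm_num) (by norm_num) (by norm_num) (by norm_num)) (by norm_num) (by norm_num)
  refine ⟨⟨hy1', hy2'⟩, ⟨hx1, hx2⟩, v5_n h 1.25 0.117 0.88959 1.112 hk2 hy1' (ex_um 0.117 (by norm_num) (by norm_num) (by norm_num) (by norm_num)) (by norm_num), ?_, ?_⟩
  · exact v5_Dlo h 1.15 0.117 0.189 0.139 0.87022 2.2793 (by norm_num) hk1 hy1' hy2' (ex_lm 0.139 (by norm_num) (by norm_num) (by norm_num) (by norm_num) (by norm_num)) (by norm_num) (by norm_num) (by norm_num) (by norm_num)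
  · exact v5_Dup h 1.25 0.117 0.189 0.88959 0.82779 2.4706 hk2 hy1' hy2' (ex_um 0.117 (by norm_num) (by norm_num) (by norm_num) (by norm_num)) (ex_um 0.189 (by norm_num) (by norm_num) (by norm_num) (by norm_num)) (by norm_num) (by norm_num) (by norm_num)

private theorem B5Jo_T18_0_0 {β x y : ℝ} (hβ : 0 < β) (hN : β * 7.999 ≤ 1) (hx1 : 0.9328 ≤ x) (hx2 : x ≤ 0.979)
    (hy1 : -0 ≤ y) (hy2 : y ≤ 0.1891) : ‖HH β (x + y * I) - 1‖ ≤ 0.06 := by
  refine le_epsJ (C := 0.4799) (N0 := 7.999) (J_boxp 0.9328 0.979 0 0.1891 0.1891 1.3668 0.9971 1.5403 0.7767 0.4952 2.8283 7.999 0.7296 2.653 1.388 1.0435 0.6833 0.5171 1.3275 3.5331 0.7888 1.7722 2.6252 2.9762 0.004233 0.01599 0.00002449 0.0000003101 0.00182 0.0000006981 0.0000003101 0.0000003101 0.4799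
    hβ hN hx1 hx2 hy1 hy2 (by norm_num) (by norm_num) (by linarith) (by norm_num) (by norm_num) (by norm_num) (by norm_num) (by norm_num) (by norm_num) (by norm_num) (by norm_num) (by norm_num) (by norm_num) (by norm_num) (by norm_num) (by norm_num) (by norm_num) (by norm_num) (by norm_num) (by norm_num) (by norm_num) (by norm_num) (by norm_num) (by norm_num)
    (cube_sqrt_geJ (s := 0.8699) (by norm_num) (by norm_num) (by norm_num) (by norm_num))
    (cube_sqrt_geJ (s := 0.9542) (by norm_num) (by norm_num) (by norm_num) (by norm_num))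
    (by norm_num) (by norm_num) (by norm_num) (by norm_num) (by norm_num) (by norm_num) (by norm_num) (by norm_num) (by norm_num) (by norm_num) (by norm_num) (by norm_num) (by norm_num) (by norm_num) (by norm_num) (by norm_num) (by norm_num) (by norm_num)
    (exp_neg_leJ (r := 0.465) 5 (by norm_num) (by norm_num) (by norm_num) (by norm_num))
    (exp_neg_leJ (r := 0.136) 4 (by norm_num) (by norm_num) (by norm_num) (by norm_num))
    (exp_neg_leJ (r := 0.618) 10 (by norm_num) (by norm_num) (by norm_num) (by norm_num))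
    (exp_neg_leJ (r := 0.99) 14 (by norm_num) (by norm_num) (by norm_num) (by norm_num))
    (exp_neg_leJ (r := 0.309) 6 (by norm_num) (by norm_num) (by norm_num) (by norm_num))
    (exp_neg_leJ (r := 0.175) 14 (by norm_num) (by norm_num) (by norm_num) (by norm_num))
    (exp_neg_leJ (r := 0.99) 14 (by norm_num) (by norm_num) (by norm_num) (by norm_num))
    (exp_neg_leJ (r := 0.99) 14 (by norm_num) (by norm_num) (by norm_num) (by norm_num))
    (by norm_num)) (by norm_num) hN hβ.le (by norm_num)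

private theorem B5Jo_T18_0_1 {β x y : ℝ} (hβ : 0 < β) (hN : β * 7.999 ≤ 1) (hx1 : 0.979 ≤ x) (hx2 : x ≤ 1.028)
    (hy1 : -0 ≤ y) (hy2 : y ≤ 0.1891) : ‖HH β (x + y * I) - 1‖ ≤ 0.06 := by
  refine le_epsJ (C := 0.4794) (N0 := 7.999) (J_boxp 0.979 1.028 0 0.1891 0.1891 1.3994 1.0453 1.5719 0.7574 0.5002 2.8283 7.999 0.747 2.725 1.4 1.0247 0.6996 0.5254 1.3434 3.505 0.8112 1.8362 2.7176 2.9376 0.003715 0.01497 0.00002158 0.0000003101 0.001522 0.0000004187 0.0000003101 0.0000003101 0.4794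
    hβ hN hx1 hx2 hy1 hy2 (by norm_num) (by norm_num) (by linarith) (by norm_num) (by norm_num) (by norm_num) (by norm_num) (by norm_num) (by norm_num) (by norm_num) (by norm_num) (by norm_num) (by norm_num) (by norm_num) (by norm_num) (by norm_num) (by norm_num) (by norm_num) (by norm_num) (by norm_num) (by norm_num) (by norm_num) (by norm_num) (by norm_num)
    (cube_sqrt_geJ (s := 0.8666) (by norm_num) (by norm_num) (by norm_num) (by norm_num))
    (cube_sqrt_geJ (s := 0.9531) (by norm_num) (by norm_num) (by norm_num) (by norm_num))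
    (by norm_num) (by norm_num) (by norm_num) (by norm_num) (by norm_num) (by norm_num) (by norm_num) (by norm_num) (by norm_num) (by norm_num) (by norm_num) (by norm_num) (by norm_num) (by norm_num) (by norm_num) (by norm_num) (by norm_num) (by norm_num)
    (exp_neg_leJ (r := 0.596) 5 (by norm_num) (by norm_num) (by norm_num) (by norm_num))
    (exp_neg_leJ (r := 0.202) 4 (by norm_num) (by norm_num) (by norm_num) (by norm_num))
    (exp_neg_leJ (r := 0.745) 10 (by norm_num) (by norm_num) (by norm_num) (by norm_num))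
    (exp_neg_leJ (r := 0.99) 14 (by norm_num) (by norm_num) (by norm_num) (by norm_num))
    (exp_neg_leJ (r := 0.488) 6 (by norm_num) (by norm_num) (by norm_num) (by norm_num))
    (exp_neg_leJ (r := 0.687) 14 (by norm_num) (by norm_num) (by norm_num) (by norm_num))
    (exp_neg_leJ (r := 0.99) 14 (by norm_num) (by norm_num) (by norm_num) (by norm_num))
    (exp_neg_leJ (r := 0.99) 14 (by norm_num) (by norm_num) (by norm_num) (by norm_num))
    (by norm_num)) (by norm_num) hN hβ.le (by norm_num)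

private theorem B5Jo_T18_0_2 {β x y : ℝ} (hβ : 0 < β) (hN : β * 7.999 ≤ 1) (hx1 : 1.028 ≤ x) (hx2 : x ≤ 1.08)
    (hy1 : -0 ≤ y) (hy2 : y ≤ 0.1891) : ‖HH β (x + y * I) - 1‖ ≤ 0.06 := by
  refine le_epsJ (C := 0.4793) (N0 := 7.999) (J_boxp 1.028 1.08 0 0.1891 0.1891 1.4339 1.0965 1.6064 0.7382 0.5057 2.8283 7.999 0.7647 2.801 1.411 1.0047 0.7169 0.5341 1.3601 3.4752 0.835 1.904 2.8156 2.8964 0.003238 0.01396 0.0000189 0.0000003101 0.001258 0.0000003101 0.0000003101 0.0000003101 0.4793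
    hβ hN hx1 hx2 hy1 hy2 (by norm_num) (by norm_num) (by linarith) (by norm_num) (by norm_num) (by norm_num) (by norm_num) (by norm_num) (by norm_num) (by norm_num) (by norm_num) (by norm_num) (by norm_num) (by norm_num) (by norm_num) (by norm_num) (by norm_num) (by norm_num) (by norm_num) (by norm_num) (by norm_num) (by norm_num) (by norm_num) (by norm_num)
    (cube_sqrt_geJ (s := 0.8631) (by norm_num) (by norm_num) (by norm_num) (by norm_num))
    (cube_sqrt_geJ (s := 0.952) (by norm_num) (by norm_num) (by norm_num) (by norm_num))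
    (by norm_num) (by norm_num) (by norm_num) (by norm_num) (by norm_num) (by norm_num) (by norm_num) (by norm_num) (by norm_num) (by norm_num) (by norm_num) (by norm_num) (by norm_num) (by norm_num) (by norm_num) (by norm_num) (by norm_num) (by norm_num)
    (exp_neg_leJ (r := 0.734) 5 (by norm_num) (by norm_num) (by norm_num) (by norm_num))
    (exp_neg_leJ (r := 0.272) 4 (by norm_num) (by norm_num) (by norm_num) (by norm_num))
    (exp_neg_leJ (r := 0.879) 10 (by norm_num) (by norm_num) (by norm_num) (by norm_num))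
    (exp_neg_leJ (r := 0.99) 14 (by norm_num) (by norm_num) (by norm_num) (by norm_num))
    (exp_neg_leJ (r := 0.679) 6 (by norm_num) (by norm_num) (by norm_num) (by norm_num))
    (exp_neg_leJ (r := 0.99) 14 (by norm_num) (by norm_num) (by norm_num) (by norm_num))
    (exp_neg_leJ (r := 0.99) 14 (by norm_num) (by norm_num) (by norm_num) (by norm_num))
    (exp_neg_leJ (r := 0.99) 14 (by norm_num) (by norm_num) (by norm_num) (by norm_num))
    (by norm_num)) (by norm_num) hN hβ.le (by norm_num)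

private theorem B5Jo_T18_0_3 {β x y : ℝ} (hβ : 0 < β) (hN : β * 7.999 ≤ 1) (hx1 : 1.08 ≤ x) (hx2 : x ≤ 1.106)
    (hy1 : -0 ≤ y) (hy2 : y ≤ 0.1891) : ‖HH β (x + y * I) - 1‖ ≤ 0.06 := by
  refine le_epsJ (C := 0.4523) (N0 := 7.999) (J_boxp 1.08 1.106 0 0.1891 0.1891 1.4705 1.1221 1.624 0.7147 0.5084 2.8283 7.999 0.7631 2.794 1.41 0.9947 0.7352 0.5482 1.3779 3.4603 0.8603 1.976 2.9196 2.9308 0.002801 0.01247 0.00001636 0.0000003101 0.00103 0.0000003101 0.0000003101 0.0000003101 0.4523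
    hβ hN hx1 hx2 hy1 hy2 (by norm_num) (by norm_num) (by linarith) (by norm_num) (by norm_num) (by norm_num) (by norm_num) (by norm_num) (by norm_num) (by norm_num) (by norm_num) (by norm_num) (by norm_num) (by norm_num) (by norm_num) (by norm_num) (by norm_num) (by norm_num) (by norm_num) (by norm_num) (by norm_num) (by norm_num) (by norm_num) (by norm_num)
    (cube_sqrt_geJ (s := 0.8635) (by norm_num) (by norm_num) (by norm_num) (by norm_num))
    (cube_sqrt_geJ (s := 0.9521) (by norm_num) (by norm_num) (by norm_num) (by norm_num))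
    (by norm_num) (by norm_num) (by norm_num) (by norm_num) (by norm_num) (by norm_num) (by norm_num) (by norm_num) (by norm_num) (by norm_num) (by norm_num) (by norm_num) (by norm_num) (by norm_num) (by norm_num) (by norm_num) (by norm_num) (by norm_num)
    (exp_neg_leJ (r := 0.88) 5 (by norm_num) (by norm_num) (by norm_num) (by norm_num))
    (exp_neg_leJ (r := 0.385) 4 (by norm_num) (by norm_num) (by norm_num) (by norm_num))
    (exp_neg_leJ (r := 0.021) 11 (by norm_num) (by norm_num) (by norm_num) (by norm_num))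
    (exp_neg_leJ (r := 0.99) 14 (by norm_num) (by norm_num) (by norm_num) (by norm_num))
    (exp_neg_leJ (r := 0.881) 6 (by norm_num) (by norm_num) (by norm_num) (by norm_num))
    (exp_neg_leJ (r := 0.99) 14 (by norm_num) (by norm_num) (by norm_num) (by norm_num))
    (exp_neg_leJ (r := 0.99) 14 (by norm_num) (by norm_num) (by norm_num) (by norm_num))
    (exp_neg_leJ (r := 0.99) 14 (by norm_num) (by norm_num) (by norm_num) (by norm_num))
    (by norm_num)) (by norm_num) hN hβ.le (by norm_num)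

private theorem B5Jo_T18 {β x y : ℝ} (hβ : 0 < β) (hN : β * 7.999 ≤ 1) (hx1 : 0.9328 ≤ x) (hx2 : x ≤ 1.106)
    (hy1 : 0.1169 ≤ y) (hy2 : y ≤ 0.1891) : ‖HH β (x + y * I) - 1‖ ≤ 0.06 := by
  rcases le_total x 0.979 with hxx | hxx
  · exact B5Jo_T18_0_0 hβ hN (by linarith) (by linarith) (by linarith) (by linarith)
  rcases le_total x 1.028 with hxx | hxx
  · exact B5Jo_T18_0_1 hβ hN (by linarith) (by linarith) (by linarith) (by linarith)
  rcases le_total x 1.08 with hxx | hxx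
  · exact B5Jo_T18_0_2 hβ hN (by linarith) (by linarith) (by linarith) (by linarith)
  exact B5Jo_T18_0_3 hβ hN (by linarith) (by linarith) (by linarith) (by linarith)

private theorem B5Jo_G19 {κ : ℝ} (hk1 : 1.15 ≤ κ) (hk2 : κ ≤ 1.25) : gG κ 0.38 ≤ 1.21796 ∧ 0.38673 ≤ Real.exp (-(κ * 0.38)) ^ 2 := by
  refine ⟨gG_le 0.38 1.15 1.25 1.21796 0.64598 0.62189 1.54806 1.60802 hk1 hk2 (by norm_num)
    (ex_um 0.437 (by norm_num) (by norm_num) (by norm_num) (by norm_num)) (ex_um 0.475 (by norm_num) (by norm_num) (by norm_num) (by norm_num))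
    (ex_up 0.437 (by norm_num) (by norm_num) (by norm_num) (by norm_num)) (ex_up 0.475 (by norm_num) (by norm_num) (by norm_num) (by norm_num))
    (by norm_num) (by norm_num), ?_⟩
  exact v5_M 0.62188 (ex_lm 0.475 (by linarith) (by norm_num) (by norm_num) (by norm_num) (by norm_num)) (by norm_num) (by norm_num)

private theorem B5Jo_C20 {β r t κ : ℝ} (hβ : 0 < β) (hr : 10 ≤ r) (hκ : κ = β * r) (hk1 : 1.15 ≤ κ) (hk2 : κ ≤ 1.25) (hta : 1.5076 ≤ t + κ)
    (htb : t + κ ≤ 1.6717) : ‖F (cexp (I * β)) (r * cexp (I * ((t + β / 2 : ℝ) : ℂ)))‖ ≤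
      1.6591 * Real.exp (r * (1.21796 - 0.38 * (t + κ))) + 0.2183 * Real.exp (r * 0) :=
  v5_H 0.38 1.15 1.25 1.5076 1.6717 1.21796 1.6278 0.38673 0.1411 1.8282 1.0489 0.14605 0.2325 0.00000119 1.6591 0.2183 hβ hr hκ (by norm_num) hk1 hk2 hta htb (by norm_num) (B5Jo_G19 hk1 hk2).1 (B5Jo_G19 hk1 hk2).2 (by norm_num) (by norm_num) (by norm_num)
    (by norm_num) (by norm_num) (by norm_num) (by norm_num) (by norm_num) (by norm_num) (by norm_num) (by norm_num) (ex_un 1 0.4604 (by norm_num) (by norm_num) (by norm_num) (by norm_num))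
    (v5_hump 1.8924 7.999 2.8283 0.0000009316 0.00000119 hβ hr hκ hk1 hk2 (by norm_num) htb (by norm_num) (by norm_num) (by norm_num) (by norm_num) (by norm_num) (by norm_num) (by norm_num) (ex_un 13 0.9 (by norm_num) (by norm_num) (by norm_num) (by norm_num)) (by norm_num)) (by norm_num) (by norm_num)

private theorem B5Jo_C21 {β r t κ : ℝ} (hβ : 0 < β) (hr : 10 ≤ r) (hκ : κ = β * r) (hk1 : 1.15 ≤ κ) (hk2 : κ ≤ 1.25) (hta : (-2.2623) ≤ t + κ)
    (htb : t + κ ≤ (-2.0982)) : ‖F (cexp (I * β)) (r * cexp (I * ((t + β / 2 : ℝ) : ℂ)))‖ ≤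
      0.7793 * Real.exp (r * (1.64613 - (-0.71) * (t + κ))) + 1.8299 * Real.exp (r * 0.0501) :=
  v5_HU (-0.71) 1.15 1.25 (-2.2623) (-2.0982) 1.64613 0.7793 5.11895 0.1411 0.7136 1.1996 0 0.0501 0.00000119 1.8299 hβ hr hκ (by norm_num) hk1 hk2 hta htb (by norm_num) (by norm_num) (B5Jo_G5 hk1 hk2).1 (B5Jo_G5 hk1 hk2).2 (by norm_num) (by norm_num) (by norm_num)
    (by norm_num) (by norm_num) (by norm_num) (by norm_num) (by norm_num) (by norm_num) (by norm_num)
    (by norm_num) (by norm_num) (by norm_num) (v5_hump 5.6623 7.999 2.8283 0.0000009316 0.00000119 hβ hr hκ hk1 hk2 (by norm_num) htb (by norm_num) (by norm_num) (by norm_num) (by norm_num) (by norm_num) (by norm_num) (by norm_num) (ex_un 13 0.9 (by norm_num) (by norm_num) (by norm_num) (by norm_num)) (by norm_num)) (by norm_num)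

private theorem B5Jo_C22 {β r t κ : ℝ} (hβ : 0 < β) (hr : 10 ≤ r) (hκ : κ = β * r) (hk1 : 1.15 ≤ κ) (hk2 : κ ≤ 1.25) (hta : 2.7642 ≤ t + κ)
    (htb : t + κ ≤ 2.9283) : ‖F (cexp (I * β)) (r * cexp (I * ((t + β / 2 : ℝ) : ℂ)))‖ ≤
      3.9573 * Real.exp (r * (0.1 + 1 / 20)) :=
  v5_UD 1.15 1.25 2.7642 2.9283 0.1 0.3721 0.1 2.0631 3.9573 hβ hr hκ (by norm_num) hk1 hk2 hta htb (by norm_num) (by norm_num) (by norm_num) (by norm_num) (by norm_num) (by norm_num) (by norm_num) (by norm_num) (by norm_num) (by norm_num) (by norm_num)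

private theorem B5Jo_Y23 {β r t κ h t' : ℝ} (hβ : 0 < β) (hκ : κ = β * r) (hN : β * 7.999 ≤ 1) (hk1 : 1.15 ≤ κ) (hk2 : κ ≤ 1.25)
    (ht : t' = t + (((1 : ℤ) : ℝ) - 1) * h) (hD : DomR κ t') (hta : 0.251 ≤ t' + κ) (htb : t' + κ ≤ 0.415) :
    0.7497 * Real.exp (r * sE κ t') ≤ ‖Xf β r h t 1‖ := by
  obtain ⟨⟨ya, yb⟩, ⟨xa, xb⟩, n1, Da, Db⟩ := B5Jo_B17 hD hk1 hk2 hta htb
  have J := B5Jo_T18 (x := sx κ t') (y := sy κ t') hβ hN (by linarith only [xa, xb, ya, yb]) (by linarith only [xa, xb, ya, yb]) (by linarith only [xa, xb, ya, yb]) (by linarith only [xa, xb, ya, yb])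
  exact v5_Jlo hβ hκ (k := 1) ht hD 0.06 2.4706 0.7497 (by norm_num) J Db (by norm_num)

private theorem B5Jo_V24 {κ t : ℝ} (hD : DomR κ t) (hk1 : 1.15 ≤ κ) (hk2 : κ ≤ 1.25) (hta : 0.251 ≤ t + κ) (htb : t + κ ≤ 0.415) :
    1.02122 - 0.1375 * (t + κ) ≤ sE κ t := by
  have hκ0 : 0 < κ := hD.1
  exact v5_V1 hD 1.15 1.25 0.251 0.415 0.04015 0.13844 0.29947 1.02122 0.1375 (by norm_num) hk1 hk2 (by norm_num) (by norm_num) hta htb (by norm_num) (clo5 1.15 1.25 0.29947 (by norm_num) hk1 hk2 (by norm_num) (by norm_num) (by norm_num))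
      ((cup2 1.15 (by norm_num) hk1).trans (by norm_num)) (by norm_num) (by norm_num) (by norm_num) (by norm_num) (by norm_num) (by norm_num)

private theorem B5Jo_K25 {β r t κ h : ℝ} (hβ : 0 < β) (hr : 10 ≤ r) (hκ : κ = β * r) (hk1 : 1.15 ≤ κ) (hk2 : κ ≤ 1.25)
    (hh : h = 2 * Real.pi / 5) (hh1 : 1.25663 ≤ h) (hh2 : h ≤ 1.25664) (hta : 0.251 ≤ t + κ) (htb : t + κ ≤ 0.415)
    (hY : 0.7497 * Real.exp (r * sE κ t) ≤ ‖Xf β r h t 1‖) (hV : 1.02122 - 0.1375 * (t + κ) ≤ sE κ t) :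
    ‖Xf β r h t 2‖ ≤ 0.0729 * ‖Xf β r h t 1‖ := by
  rw [v5_X 2 1 (by push_cast; ring)]
  exact v5_cmp 0.3416 0.03288 0.0728 0.9641 0.0000653 0.0000191 0.0729 hr (B5Jo_C20 (t := t + 1 * h) hβ hr hκ hk1 hk2 (by linarith only [hta, htb, hh1, hh2]) (by linarith only [hta, htb, hh1, hh2])) hY (by norm_num) (by norm_num) (by norm_num) (by norm_num) (by linarith only [hV, hta, htb, hh1, hh2]) (ex_un 3 0.4159 (by norm_num) (by norm_num) (by norm_num) (by norm_num)) (by norm_num) (by norm_num) (by linarith only [hV, hta, htb, hh1, hh2]) (ex_un 9 0.6409 (by norm_num) (by norm_num) (by norm_num) (by norm_num)) (by norm_num) (by norm_num)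

private theorem B5Jo_K26 {β r t κ h : ℝ} (hβ : 0 < β) (hr : 10 ≤ r) (hκ : κ = β * r) (hk1 : 1.15 ≤ κ) (hk2 : κ ≤ 1.25)
    (hh : h = 2 * Real.pi / 5) (hh1 : 1.25663 ≤ h) (hh2 : h ≤ 1.25664) (hta : 0.251 ≤ t + κ) (htb : t + κ ≤ 0.415)
    (hY : 0.7497 * Real.exp (r * sE κ t) ≤ ‖Xf β r h t 1‖) (hV : 1.02122 - 0.1375 * (t + κ) ≤ sE κ t) :
    ‖Xf β r h t (-1)‖ ≤ 0.000586 * ‖Xf β r h t 1‖ := by
  rw [v5_X (-1) (-2) (by push_cast; ring)]
  exact v5_cmp 0.8077 0.0003107 0.000323 0.914 0.0001073 0.000262 0.000586 hr (B5Jo_C21 (t := t + (-2) * h) hβ hr hκ hk1 hk2 (by linarith only [hta, htb, hh1, hh2]) (by linarith only [hta, htb, hh1, hh2])) hY (by norm_num) (by norm_num) (by norm_num) (by norm_num) (by linarith only [hV, hta, htb, hh1, hh2]) (ex_un 8 0.0769 (by norm_num) (by norm_num) (by norm_num) (by norm_num)) (by norm_num) (by norm_num) (by linarith only [hV, hta, htb, hh1, hh2]) (ex_un 9 0.1399 (by norm_num) (by norm_num) (by norm_num)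 (by norm_num)) (by norm_num) (by norm_num)

private theorem B5Jo_K27 {β r t κ h : ℝ} (hβ : 0 < β) (hr : 10 ≤ r) (hκ : κ = β * r) (hk1 : 1.15 ≤ κ) (hk2 : κ ≤ 1.25)
    (hh : h = 2 * Real.pi / 5) (hh1 : 1.25663 ≤ h) (hh2 : h ≤ 1.25664) (hta : 0.251 ≤ t + κ) (htb : t + κ ≤ 0.415)
    (hY : 0.7497 * Real.exp (r * sE κ t) ≤ ‖Xf β r h t 1‖) (hV : 1.02122 - 0.1375 * (t + κ) ≤ sE κ t) :
    ‖Xf β r h t (-2)‖ ≤ 0.00154 * ‖Xf β r h t 1‖ := by
  rw [v5_Xm2 hh]
  exact v5_cmp0 0.8141 0.0002914 0.00154 hr (B5Jo_C22 (t := t + 2 * h) hβ hr hκ hk1 hk2 (by linarith only [hta, htb, hh1, hh2]) (by linarith only [hta, htb, hh1, hh2])) hY (by norm_num) (by norm_num) (by norm_num) (by linarith only [hV, hta, htb, hh1, hh2]) (ex_un 8 0.1409 (by norm_num) (by norm_num) (by norm_num) (by norm_num)) (by norm_num)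

private theorem B5Jo_G28 {κ : ℝ} (hk1 : 1.15 ≤ κ) (hk2 : κ ≤ 1.25) : gG κ (-0.36) ≤ 1.15983 ∧ 2.28871 ≤ Real.exp (-(κ * (-0.36))) ^ 2 := by
  refine ⟨gG_le (-0.36) 1.15 1.25 1.15983 1.51286 1.56832 0.66101 0.63763 hk1 hk2 (by norm_num)
    (ex_up 0.414 (by norm_num) (by norm_num) (by norm_num) (by norm_num)) (ex_up 0.45 (by norm_num) (by norm_num) (by norm_num) (by norm_num))
    (ex_um 0.414 (by norm_num) (by norm_num) (by norm_num) (by norm_num)) (ex_um 0.45 (by norm_num) (by norm_num) (by norm_num) (by norm_num))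
    (by norm_num) (by norm_num), ?_⟩
  exact v5_M 1.51285 (ex_lp 0.414 (by linarith) (by norm_num) (by norm_num)) (by norm_num) (by norm_num)

private theorem B5Jo_C29 {β r t κ : ℝ} (hβ : 0 < β) (hr : 10 ≤ r) (hκ : κ = β * r) (hk1 : 1.15 ≤ κ) (hk2 : κ ≤ 1.25) (hta : (-1.0057) ≤ t + κ)
    (htb : t + κ ≤ (-0.8416)) : ‖F (cexp (I * β)) (r * cexp (I * ((t + β / 2 : ℝ) : ℂ)))‖ ≤
      0.9422 * Real.exp (r * (1.15983 - (-0.36) * (t + κ))) + 1.4575 * Real.exp (r * 0.0501) :=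
  v5_HU (-0.36) 1.15 1.25 (-1.0057) (-0.8416) 1.15983 0.9422 2.28871 0.1411 0.7136 2.4562 0 0.0501 0.00000119 1.4575 hβ hr hκ (by norm_num) hk1 hk2 hta htb (by norm_num) (by norm_num) (B5Jo_G28 hk1 hk2).1 (B5Jo_G28 hk1 hk2).2 (by norm_num) (by norm_num) (by norm_num)
    (by norm_num) (by norm_num) (by norm_num) (by norm_num) (by norm_num) (by norm_num) (by norm_num)
    (by norm_num) (by norm_num) (by norm_num) (v5_hump 4.4057 7.999 2.8283 0.0000009316 0.00000119 hβ hr hκ hk1 hk2 (by norm_num) htb (by norm_num) (by norm_num) (by norm_num) (by norm_num) (by norm_num) (by norm_num) (by norm_num) (ex_un 13 0.9 (by norm_num) (by norm_num) (by norm_num) (by norm_num)) (by norm_num)) (by norm_num)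

private theorem B5Jo_K30 {β r t κ h : ℝ} (hβ : 0 < β) (hr : 10 ≤ r) (hκ : κ = β * r) (hk1 : 1.15 ≤ κ) (hk2 : κ ≤ 1.25)
    (hh : h = 2 * Real.pi / 5) (hh1 : 1.25663 ≤ h) (hh2 : h ≤ 1.25664) (hta : 0.251 ≤ t + κ) (htb : t + κ ≤ 0.415)
    (hY : 0.7497 * Real.exp (r * sE κ t) ≤ ‖Xf β r h t 1‖) (hV : 1.02122 - 0.1375 * (t + κ) ≤ sE κ t) :
    ‖Xf β r h t 0‖ ≤ 0.431 * ‖Xf β r h t 1‖ := by
  rw [v5_X 0 (-1) (by push_cast; ring)]
  exact v5_cmp 0.1073 0.3421 0.43 0.914 0.0001073 0.000209 0.431 hr (B5Jo_C29 (t := t + (-1) * h) hβ hr hκ hk1 hk2 (by linarith only [hta, htb, hh1, hh2]) (by linarith only [hta, htb, hh1, hh2])) hY (by norm_num) (by norm_num) (by norm_num) (by norm_num) (by linarith only [hV, hta, htb, hh1, hh2]) (ex_un 1 0.0729 (by norm_num) (by norm_num) (by norm_num) (by norm_num)) (by norm_num) (by norm_num) (by linarith only [hV, hta, htb, hh1, hh2]) (ex_un 9 0.1399 (by norm_num) (by norm_num) (by norm_num) (by norm_num))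 (by norm_num) (by norm_num)

private theorem B5Jo_O31 {β r t κ h : ℝ} (hβ : 0 < β) (hr : 10 ≤ r) (hκ : κ = β * r) (hk1 : 1.15 ≤ κ) (hk2 : κ ≤ 1.25)
    (hh : h = 2 * Real.pi / 5) (hta : 0.251 ≤ t + κ) (htb : t + κ ≤ 0.415) :
    ‖Xf β r h t (-2)‖ + ‖Xf β r h t (-1)‖ + ‖Xf β r h t 2‖ < |‖Xf β r h t 1‖ - ‖Xf β r h t 0‖| := by
  obtain ⟨hh1, hh2⟩ := v5_h hh
  have hκ0 : 0 < κ := by linarith only [hk1]
  have hN : β * 7.999 ≤ 1 := v5_hN 1.25 7.999 hβ hr hκ hk2 (by norm_num) (by norm_num)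
  have hD1 : DomR κ t := v5_dom hκ0 (by linarith only [hta, htb, hk1, hk2, hh1, hh2]) (Or.inr (by linarith only [hta, htb, hk1, hk2, hh1, hh2]))
  have e1 : t = t + (((1 : ℤ) : ℝ) - 1) * h := by push_cast; ring
  have hY := B5Jo_Y23 (h := h) hβ hκ hN hk1 hk2 e1 hD1 hta htb
  have hV := B5Jo_V24 hD1 hk1 hk2 hta htb
  have cp2 := B5Jo_K25 hβ hr hκ hk1 hk2 hh hh1 hh2 hta htb hY hV
  have cm1 := B5Jo_K26 hβ hr hκ hk1 hk2 hh hh1 hh2 hta htb hY hV
  have cm2 := B5Jo_K27 hβ hr hκ hk1 hk2 hh hh1 hh2 hta htb hY hV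
  have cn0 := B5Jo_K30 hβ hr hκ hk1 hk2 hh hh1 hh2 hta htb hY hV
  have hp : 0 < ‖Xf β r h t 1‖ := lt_of_lt_of_le (by positivity) hY
  exact v5_out1 _ _ _ _ cm2 cm1 cp2 cn0 hp (by norm_num)

private theorem B5Jo_B32 {κ t : ℝ} (h : DomR κ t) (hk1 : 1.15 ≤ κ) (hk2 : κ ≤ 1.25) (ht1 : 0.415 ≤ t + κ) (ht2 : t + κ ≤ 0.5655) :
    (0.188 ≤ sy κ t ∧ sy κ t ≤ 0.249) ∧ (0.8612 ≤ sx κ t ∧ sx κ t ≤ 1.0186) ∧ κ * Real.exp (-sy κ t) ≤ 1.0358 ∧ 2.284 ≤ sD κ t ∧ sD κ t ≤ 2.4489 := by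
  have hy1 : 0.188 ≤ sy κ t := syR_ge h 1.15 1.25 0.415 0.188 1.20683 1.20684 0.1815 0.1973 hk1 hk2 (by linarith) (by norm_num) (by norm_num)
    (expn_ge (by norm_num) (by norm_num)) (expn_le (by norm_num) (by norm_num) (by norm_num)) (by norm_num)
    (by norm_num) (by norm_num) (by norm_num) (by norm_num) (by norm_num) (by norm_num)
  have hy2 : sy κ t ≤ 0.249 := syR_le h 1.15 1.25 0.5655 0.249 1.28274 0.2499 0.25552 0.27775 hk1 hk2 (by linarith) (by norm_num) (by norm_num)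
    (expn_ge (by norm_num) (by norm_num)) (by norm_num) (by norm_num) (Or.inr ((mul_le_mul_of_nonneg_left (expn_le (E := 1.28275) (by norm_num) (by norm_num) (by norm_num)) (by norm_num)).trans (by norm_num))) (by norm_num) (by norm_num) (by norm_num)
  have hy1' : 0.188 ≤ sy κ t := by linarith
  have hy2' : sy κ t ≤ 0.249 := by linarith
  have hx1 : 0.8612 ≤ sx κ t := sx_lo h 1.15 0.249 0.2491 0.77957 0.8612 hk1 (by norm_num) hy2' (abs_le.2 ⟨by linarith, by linarith⟩) (ex_lm 0.249 (by norm_num) (by norm_num) (by norm_num) (by norm_num) (by norm_num)) (by norm_num) (by norm_num)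
  have hx2 : sx κ t ≤ 1.0186 := sx_hi h 1.25 0.188 0.188 0.82862 1.0186 hk2 hy1' (by norm_num) (le_trans (by linarith) (le_abs_self _)) (ex_um 0.188 (by norm_num) (by norm_num) (by norm_num) (by norm_num)) (by norm_num) (by norm_num)
  refine ⟨⟨hy1', hy2'⟩, ⟨hx1, hx2⟩, v5_n h 1.25 0.188 0.82862 1.0358 hk2 hy1' (ex_um 0.188 (by norm_num) (by norm_num) (by norm_num) (by norm_num)) (by norm_num), ?_, ?_⟩
  · exact v5_Dlo h 1.15 0.188 0.249 0.188 0.82861 2.284 (by norm_num) hk1 hy1' hy2' (ex_lm 0.188 (by norm_num) (by norm_num) (by norm_num) (by norm_num) (by norm_num)) (by norm_num) (by norm_num) (by norm_num) (by norm_num)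
  · exact v5_Dup h 1.25 0.188 0.249 0.82862 0.77958 2.4489 hk2 hy1' hy2' (ex_um 0.188 (by norm_num) (by norm_num) (by norm_num) (by norm_num)) (ex_um 0.249 (by norm_num) (by norm_num) (by norm_num) (by norm_num)) (by norm_num) (by norm_num) (by norm_num)

private theorem B5Jo_T33_0_0 {β x y : ℝ} (hβ : 0 < β) (hN : β * 7.999 ≤ 1) (hx1 : 0.8611 ≤ x) (hx2 : x ≤ 0.916)
    (hy1 : -0 ≤ y) (hy2 : y ≤ 0.2491) : ‖HH β (x + y * I) - 1‖ ≤ 0.065 := by
  refine le_epsJ (C := 0.5197) (N0 := 7.999) (J_boxp 0.8611 0.916 0 0.2491 0.2491 1.3163 0.9493 1.549 0.8242 0.4966 2.8283 7.999 0.7212 2.619 1.383 1.0678 0.6581 0.4999 1.303 3.5655 0.7478 1.6668 2.2245 2.68 0.005175 0.01857 0.00002978 0.0000003101 0.002535 0.000001622 0.0000003101 0.0000003101 0.5197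
    hβ hN hx1 hx2 hy1 hy2 (by norm_num) (by norm_num) (by linarith) (by norm_num) (by norm_num) (by norm_num) (by norm_num) (by norm_num) (by norm_num) (by norm_num) (by norm_num) (by norm_num) (by norm_num) (by norm_num) (by norm_num) (by norm_num) (by norm_num) (by norm_num) (by norm_num) (by norm_num) (by norm_num) (by norm_num) (by norm_num) (by norm_num)
    (cube_sqrt_geJ (s := 0.8715) (by norm_num) (by norm_num) (by norm_num) (by norm_num))
    (cube_sqrt_geJ (s := 0.9548) (by norm_num) (by norm_num) (by norm_num) (by norm_num))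
    (by norm_num) (by norm_num) (by norm_num) (by norm_num) (by norm_num) (by norm_num) (by norm_num) (by norm_num) (by norm_num) (by norm_num) (by norm_num) (by norm_num) (by norm_num) (by norm_num) (by norm_num) (by norm_num) (by norm_num) (by norm_num)
    (exp_neg_leJ (r := 0.264) 5 (by norm_num) (by norm_num) (by norm_num) (by norm_num))
    (exp_neg_leJ (r := 0.99) 3 (by norm_num) (by norm_num) (by norm_num) (by norm_num))
    (exp_neg_leJ (r := 0.422) 10 (by norm_num) (by norm_num) (by norm_num) (by norm_num))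
    (exp_neg_leJ (r := 0.99) 14 (by norm_num) (by norm_num) (by norm_num) (by norm_num))
    (exp_neg_leJ (r := 0.981) 5 (by norm_num) (by norm_num) (by norm_num) (by norm_num))
    (exp_neg_leJ (r := 0.332) 13 (by norm_num) (by norm_num) (by norm_num) (by norm_num))
    (exp_neg_leJ (r := 0.99) 14 (by norm_num) (by norm_num) (by norm_num) (by norm_num))
    (exp_neg_leJ (r := 0.99) 14 (by norm_num) (by norm_num) (by norm_num) (by norm_num))
    (by norm_num)) (by norm_num) hN hβ.le (by norm_num)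

private theorem B5Jo_T33_0_1 {β x y : ℝ} (hβ : 0 < β) (hN : β * 7.999 ≤ 1) (hx1 : 0.916 ≤ x) (hx2 : x ≤ 0.979)
    (hy1 : -0 ≤ y) (hy2 : y ≤ 0.2491) : ‖HH β (x + y * I) - 1‖ ≤ 0.065 := by
  refine le_epsJ (C := 0.5195) (N0 := 7.999) (J_boxp 0.916 0.979 0 0.2491 0.2491 1.355 1.0102 1.5871 0.7988 0.5026 2.8283 7.999 0.7456 2.719 1.399 1.0435 0.6774 0.5091 1.3218 3.5296 0.7745 1.7428 2.3343 2.6242 0.004437 0.01705 0.00002561 0.0000003101 0.00204 0.0000008855 0.0000003101 0.0000003101 0.5195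
    hβ hN hx1 hx2 hy1 hy2 (by norm_num) (by norm_num) (by linarith) (by norm_num) (by norm_num) (by norm_num) (by norm_num) (by norm_num) (by norm_num) (by norm_num) (by norm_num) (by norm_num) (by norm_num) (by norm_num) (by norm_num) (by norm_num) (by norm_num) (by norm_num) (by norm_num) (by norm_num) (by norm_num) (by norm_num) (by norm_num) (by norm_num)
    (cube_sqrt_geJ (s := 0.8668) (by norm_num) (by norm_num) (by norm_num) (by norm_num))
    (cube_sqrt_geJ (s := 0.9532) (by norm_num) (by norm_num) (by norm_num) (by norm_num))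
    (by norm_num) (by norm_num) (by norm_num) (by norm_num) (by norm_num) (by norm_num) (by norm_num) (by norm_num) (by norm_num) (by norm_num) (by norm_num) (by norm_num) (by norm_num) (by norm_num) (by norm_num) (by norm_num) (by norm_num) (by norm_num)
    (exp_neg_leJ (r := 0.418) 5 (by norm_num) (by norm_num) (by norm_num) (by norm_num))
    (exp_neg_leJ (r := 0.072) 4 (by norm_num) (by norm_num) (by norm_num) (by norm_num))
    (exp_neg_leJ (r := 0.573) 10 (by norm_num) (by norm_num) (by norm_num) (by norm_num))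
    (exp_neg_leJ (r := 0.99) 14 (by norm_num) (by norm_num) (by norm_num) (by norm_num))
    (exp_neg_leJ (r := 0.195) 6 (by norm_num) (by norm_num) (by norm_num) (by norm_num))
    (exp_neg_leJ (r := 0.94) 13 (by norm_num) (by norm_num) (by norm_num) (by norm_num))
    (exp_neg_leJ (r := 0.99) 14 (by norm_num) (by norm_num) (by norm_num) (by norm_num))
    (exp_neg_leJ (r := 0.99) 14 (by norm_num) (by norm_num) (by norm_num) (by norm_num))
    (by norm_num)) (by norm_num) hN hβ.le (by norm_num)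

private theorem B5Jo_T33_0_2 {β x y : ℝ} (hβ : 0 < β) (hN : β * 7.999 ≤ 1) (hx1 : 0.979 ≤ x) (hx2 : x ≤ 1.0187)
    (hy1 : -0 ≤ y) (hy2 : y ≤ 0.2491) : ‖HH β (x + y * I) - 1‖ ≤ 0.065 := by
  refine le_epsJ (C := 0.4892) (N0 := 7.999) (J_boxp 0.979 1.0187 0 0.2491 0.2491 1.3994 1.0488 1.6119 0.767 0.5065 2.8283 7.999 0.7495 2.736 1.401 1.0283 0.6996 0.5248 1.3434 3.5069 0.8051 1.8301 2.4603 2.6453 0.003715 0.01505 0.00002158 0.0000003101 0.001599 0.0000004396 0.0000003101 0.0000003101 0.4892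
    hβ hN hx1 hx2 hy1 hy2 (by norm_num) (by norm_num) (by linarith) (by norm_num) (by norm_num) (by norm_num) (by norm_num) (by norm_num) (by norm_num) (by norm_num) (by norm_num) (by norm_num) (by norm_num) (by norm_num) (by norm_num) (by norm_num) (by norm_num) (by norm_num) (by norm_num) (by norm_num) (by norm_num) (by norm_num) (by norm_num) (by norm_num)
    (cube_sqrt_geJ (s := 0.8661) (by norm_num) (by norm_num) (by norm_num) (by norm_num))
    (cube_sqrt_geJ (s := 0.953) (by norm_num) (by norm_num) (by norm_num) (by norm_num))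
    (by norm_num) (by norm_num) (by norm_num) (by norm_num) (by norm_num) (by norm_num) (by norm_num) (by norm_num) (by norm_num) (by norm_num) (by norm_num) (by norm_num) (by norm_num) (by norm_num) (by norm_num) (by norm_num) (by norm_num) (by norm_num)
    (exp_neg_leJ (r := 0.596) 5 (by norm_num) (by norm_num) (by norm_num) (by norm_num))
    (exp_neg_leJ (r := 0.197) 4 (by norm_num) (by norm_num) (by norm_num) (by norm_num))
    (exp_neg_leJ (r := 0.745) 10 (by norm_num) (by norm_num) (by norm_num) (by norm_num))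
    (exp_neg_leJ (r := 0.99) 14 (by norm_num) (by norm_num) (by norm_num) (by norm_num))
    (exp_neg_leJ (r := 0.439) 6 (by norm_num) (by norm_num) (by norm_num) (by norm_num))
    (exp_neg_leJ (r := 0.638) 14 (by norm_num) (by norm_num) (by norm_num) (by norm_num))
    (exp_neg_leJ (r := 0.99) 14 (by norm_num) (by norm_num) (by norm_num) (by norm_num))
    (exp_neg_leJ (r := 0.99) 14 (by norm_num) (by norm_num) (by norm_num) (by norm_num))
    (by norm_num)) (by norm_num) hN hβ.le (by norm_num)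

private theorem B5Jo_T33 {β x y : ℝ} (hβ : 0 < β) (hN : β * 7.999 ≤ 1) (hx1 : 0.8611 ≤ x) (hx2 : x ≤ 1.0187)
    (hy1 : 0.1879 ≤ y) (hy2 : y ≤ 0.2491) : ‖HH β (x + y * I) - 1‖ ≤ 0.065 := by
  rcases le_total x 0.916 with hxx | hxx
  · exact B5Jo_T33_0_0 hβ hN (by linarith) (by linarith) (by linarith) (by linarith)
  rcases le_total x 0.979 with hxx | hxx
  · exact B5Jo_T33_0_1 hβ hN (by linarith) (by linarith) (by linarith) (by linarith)
  exact B5Jo_T33_0_2 hβ hN (by linarith) (by linarith) (by linarith) (by linarith)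

private theorem B5Jo_G34 {κ : ℝ} (hk1 : 1.15 ≤ κ) (hk2 : κ ≤ 1.25) : gG κ 0.4 ≤ 1.2453 ∧ 0.36787 ≤ Real.exp (-(κ * 0.4)) ^ 2 := by
  refine ⟨gG_le 0.4 1.15 1.25 1.2453 0.63129 0.60654 1.58408 1.64873 hk1 hk2 (by norm_num)
    (ex_um 0.46 (by norm_num) (by norm_num) (by norm_num) (by norm_num)) (ex_um 0.5 (by norm_num) (by norm_num) (by norm_num) (by norm_num))
    (ex_up 0.46 (by norm_num) (by norm_num) (by norm_num) (by norm_num)) (ex_up 0.5 (by norm_num) (by norm_num) (by norm_num) (by norm_num))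
    (by norm_num) (by norm_num), ?_⟩
  exact v5_M 0.60653 (ex_lm 0.5 (by linarith) (by norm_num) (by norm_num) (by norm_num) (by norm_num)) (by norm_num) (by norm_num)

private theorem B5Jo_C35 {β r t κ : ℝ} (hβ : 0 < β) (hr : 10 ≤ r) (hκ : κ = β * r) (hk1 : 1.15 ≤ κ) (hk2 : κ ≤ 1.25) (hta : 1.6716 ≤ t + κ)
    (htb : t + κ ≤ 1.8222) : ‖F (cexp (I * β)) (r * cexp (I * ((t + β / 2 : ℝ) : ℂ)))‖ ≤
      1.7403 * Real.exp (r * (1.2453 - 0.4 * (t + κ))) + 0.212 * Real.exp (r * 0) :=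
  v5_H 0.4 1.15 1.25 1.6716 1.8222 1.2453 1.6915 0.36787 0.1411 1.9922 0.8984 0.11697 0.3106 0.00000115 1.7403 0.212 hβ hr hκ (by norm_num) hk1 hk2 hta htb (by norm_num) (B5Jo_G34 hk1 hk2).1 (B5Jo_G34 hk1 hk2).2 (by norm_num) (by norm_num) (by norm_num)
    (by norm_num) (by norm_num) (by norm_num) (by norm_num) (by norm_num) (by norm_num) (by norm_num) (by norm_num) (ex_un 1 0.1696 (by norm_num) (by norm_num) (by norm_num) (by norm_num))
    (v5_hump 1.7419 7.999 2.8283 0.0000009025 0.00000115 hβ hr hκ hk1 hk2 (by norm_num) htb (by norm_num) (by norm_num) (by norm_num) (by norm_num) (by norm_num) (by norm_num) (by norm_num) (ex_un 13 0.9334 (by norm_num) (by norm_num) (by norm_num) (by norm_num)) (by norm_num)) (by norm_num) (by norm_num)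

private theorem B5Jo_G36 {κ : ℝ} (hk1 : 1.15 ≤ κ) (hk2 : κ ≤ 1.25) : gG κ (-0.7) ≤ 1.62681 ∧ 5.00255 ≤ Real.exp (-(κ * (-0.7))) ^ 2 := by
  refine ⟨gG_le (-0.7) 1.15 1.25 1.62681 2.2367 2.39888 0.4471 0.41688 hk1 hk2 (by norm_num)
    (ex_up 0.805 (by norm_num) (by norm_num) (by norm_num) (by norm_num)) (ex_up 0.875 (by norm_num) (by norm_num) (by norm_num) (by norm_num))
    (ex_um 0.805 (by norm_num) (by norm_num) (by norm_num) (by norm_num)) (ex_um 0.875 (by norm_num) (by norm_num) (by norm_num) (by norm_num))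
    (by norm_num) (by norm_num), ?_⟩
  exact v5_M 2.23664 (ex_lp 0.805 (by linarith) (by norm_num) (by norm_num)) (by norm_num) (by norm_num)

private theorem B5Jo_C37 {β r t κ : ℝ} (hβ : 0 < β) (hr : 10 ≤ r) (hκ : κ = β * r) (hk1 : 1.15 ≤ κ) (hk2 : κ ≤ 1.25) (hta : (-2.0983) ≤ t + κ)
    (htb : t + κ ≤ (-1.9477)) : ‖F (cexp (I * β)) (r * cexp (I * ((t + β / 2 : ℝ) : ℂ)))‖ ≤
      0.7836 * Real.exp (r * (1.62681 - (-0.7) * (t + κ))) + 1.8068 * Real.exp (r * 0.0501) :=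
  v5_HU (-0.7) 1.15 1.25 (-2.0983) (-1.9477) 1.62681 0.7836 5.00255 0.1411 0.7136 1.3636 0 0.0501 0.00000119 1.8068 hβ hr hκ (by norm_num) hk1 hk2 hta htb (by norm_num) (by norm_num) (B5Jo_G36 hk1 hk2).1 (B5Jo_G36 hk1 hk2).2 (by norm_num) (by norm_num) (by norm_num)
    (by norm_num) (by norm_num) (by norm_num) (by norm_num) (by norm_num) (by norm_num) (by norm_num)
    (by norm_num) (by norm_num) (by norm_num) (v5_hump 5.5118 7.999 2.8283 0.0000009316 0.00000119 hβ hr hκ hk1 hk2 (by norm_num) htb (by norm_num) (by norm_num) (by norm_num) (by norm_num) (by norm_num) (by norm_num) (by norm_num) (ex_un 13 0.9 (by norm_num) (by norm_num) (by norm_num) (by norm_num)) (by norm_num)) (by norm_num)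

private theorem B5Jo_C38 {β r t κ : ℝ} (hβ : 0 < β) (hr : 10 ≤ r) (hκ : κ = β * r) (hk1 : 1.15 ≤ κ) (hk2 : κ ≤ 1.25) (hta : 2.9282 ≤ t + κ)
    (htb : t + κ ≤ 3.0788) : ‖F (cexp (I * β)) (r * cexp (I * ((t + β / 2 : ℝ) : ℂ)))‖ ≤
      2.5973 * Real.exp (r * (0.01 + 1 / 20)) :=
  v5_UD 1.15 1.25 2.9282 3.0788 0.01 0.3721 0.01 1.3541 2.5973 hβ hr hκ (by norm_num) hk1 hk2 hta htb (by norm_num) (by norm_num) (by norm_num) (by norm_num) (by norm_num) (by norm_num) (by norm_num) (by norm_num) (by norm_num) (by norm_num) (by norm_num)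

private theorem B5Jo_Y39 {β r t κ h t' : ℝ} (hβ : 0 < β) (hκ : κ = β * r) (hN : β * 7.999 ≤ 1) (hk1 : 1.15 ≤ κ) (hk2 : κ ≤ 1.25)
    (ht : t' = t + (((1 : ℤ) : ℝ) - 1) * h) (hD : DomR κ t') (hta : 0.415 ≤ t' + κ) (htb : t' + κ ≤ 0.5655) :
    0.7474 * Real.exp (r * sE κ t') ≤ ‖Xf β r h t 1‖ := by
  obtain ⟨⟨ya, yb⟩, ⟨xa, xb⟩, n1, Da, Db⟩ := B5Jo_B32 hD hk1 hk2 hta htb
  have J := B5Jo_T33 (x := sx κ t') (y := sy κ t') hβ hN (by linarith only [xa, xb, ya, yb]) (by linarith only [xa, xb, ya, yb]) (by linarith only [xa, xb, ya, yb]) (by linarith only [xa, xb, ya, yb])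
  exact v5_Jlo hβ hκ (k := 1) ht hD 0.065 2.4489 0.7474 (by norm_num) J Db (by norm_num)

private theorem B5Jo_V40 {κ t : ℝ} (hD : DomR κ t) (hk1 : 1.15 ≤ κ) (hk2 : κ ≤ 1.25) (hta : 0.415 ≤ t + κ) (htb : t + κ ≤ 0.5655) :
    1.04671 - 0.1991 * (t + κ) ≤ sE κ t := by
  have hκ0 : 0 < κ := hD.1
  exact v5_V1 hD 1.15 1.25 0.415 0.5655 0.03817 0.13844 0.29947 1.04671 0.1991 (by norm_num) hk1 hk2 (by norm_num) (by norm_num) hta htb (by norm_num) (clo5 1.15 1.25 0.29947 (by norm_num) hk1 hk2 (by norm_num) (by norm_num) (by norm_num))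
      ((cup2 1.15 (by norm_num) hk1).trans (by norm_num)) (by norm_num) (by norm_num) (by norm_num) (by norm_num) (by norm_num) (by norm_num)

private theorem B5Jo_K41 {β r t κ h : ℝ} (hβ : 0 < β) (hr : 10 ≤ r) (hκ : κ = β * r) (hk1 : 1.15 ≤ κ) (hk2 : κ ≤ 1.25)
    (hh : h = 2 * Real.pi / 5) (hh1 : 1.25663 ≤ h) (hh2 : h ≤ 1.25664) (hta : 0.415 ≤ t + κ) (htb : t + κ ≤ 0.5655)
    (hY : 0.7474 * Real.exp (r * sE κ t) ≤ ‖Xf β r h t 1‖) (hV : 1.04671 - 0.1991 * (t + κ) ≤ sE κ t) :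
    ‖Xf β r h t 2‖ ≤ 0.0491 * ‖Xf β r h t 1‖ := by
  rw [v5_X 2 1 (by push_cast; ring)]
  exact v5_cmp 0.3874 0.02104 0.049 0.9341 0.0000878 0.000025 0.0491 hr (B5Jo_C35 (t := t + 1 * h) hβ hr hκ hk1 hk2 (by linarith only [hta, htb, hh1, hh2]) (by linarith only [hta, htb, hh1, hh2])) hY (by norm_num) (by norm_num) (by norm_num) (by norm_num) (by linarith only [hV, hta, htb, hh1, hh2]) (ex_un 3 0.8739 (by norm_num) (by norm_num) (by norm_num) (by norm_num)) (by norm_num) (by norm_num) (by linarith only [hV, hta, htb, hh1, hh2]) (ex_un 9 0.3409 (by norm_num) (by norm_num) (by norm_num) (by norm_num)) (by norm_num) (by norm_num)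

private theorem B5Jo_K42 {β r t κ h : ℝ} (hβ : 0 < β) (hr : 10 ≤ r) (hκ : κ = β * r) (hk1 : 1.15 ≤ κ) (hk2 : κ ≤ 1.25)
    (hh : h = 2 * Real.pi / 5) (hh1 : 1.25663 ≤ h) (hh2 : h ≤ 1.25664) (hta : 0.415 ≤ t + κ) (htb : t + κ ≤ 0.5655)
    (hY : 0.7474 * Real.exp (r * sE κ t) ≤ ‖Xf β r h t 1‖) (hV : 1.04671 - 0.1991 * (t + κ) ≤ sE κ t) :
    ‖Xf β r h t (-1)‖ ≤ 0.00165 * ‖Xf β r h t 1‖ := by
  rw [v5_X (-1) (-2) (by push_cast; ring)]
  exact v5_cmp 0.6707 0.00123 0.00129 0.884 0.0001465 0.000355 0.00165 hr (B5Jo_C37 (t := t + (-2) * h) hβ hr hκ hk1 hk2 (by linarith only [hta, htb, hh1, hh2]) (by linarith only [hta, htb, hh1, hh2])) hY (by norm_num) (by norm_num) (by norm_num) (by norm_num) (by linarith only [hV, hta, htb, hh1, hh2]) (ex_un 6 0.7069 (by norm_num) (by norm_num) (by norm_num) (by norm_num)) (by norm_num) (by norm_num) (by linarith only [hV, hta, htb, hh1, hh2]) (ex_un 8 0.8399 (by norm_num) (by norm_num) (by norm_num)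 (by norm_num)) (by norm_num) (by norm_num)

private theorem B5Jo_K43 {β r t κ h : ℝ} (hβ : 0 < β) (hr : 10 ≤ r) (hκ : κ = β * r) (hk1 : 1.15 ≤ κ) (hk2 : κ ≤ 1.25)
    (hh : h = 2 * Real.pi / 5) (hh1 : 1.25663 ≤ h) (hh2 : h ≤ 1.25664) (hta : 0.415 ≤ t + κ) (htb : t + κ ≤ 0.5655)
    (hY : 0.7474 * Real.exp (r * sE κ t) ≤ ‖Xf β r h t 1‖) (hV : 1.04671 - 0.1991 * (t + κ) ≤ sE κ t) :
    ‖Xf β r h t (-2)‖ ≤ 0.00056 * ‖Xf β r h t 1‖ := by
  rw [v5_Xm2 hh]
  exact v5_cmp0 0.8741 0.0001611 0.00056 hr (B5Jo_C38 (t := t + 2 * h) hβ hr hκ hk1 hk2 (by linarith only [hta, htb, hh1, hh2]) (by linarith only [hta, htb, hh1, hh2])) hY (by norm_num) (by norm_num) (by norm_num) (by linarith only [hV, hta, htb, hh1, hh2]) (ex_un 8 0.7409 (by norm_num) (by norm_num) (by norm_num) (by norm_num)) (by norm_num)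

private theorem B5Jo_G44 {κ : ℝ} (hk1 : 1.15 ≤ κ) (hk2 : κ ≤ 1.25) : gG κ (-0.28) ≤ 1.09679 ∧ 1.90406 ≤ Real.exp (-(κ * (-0.28))) ^ 2 := by
  refine ⟨gG_le (-0.28) 1.15 1.25 1.09679 1.37989 1.41907 0.7247 0.70469 hk1 hk2 (by norm_num)
    (ex_up 0.322 (by norm_num) (by norm_num) (by norm_num) (by norm_num)) (ex_up 0.35 (by norm_num) (by norm_num) (by norm_num) (by norm_num))
    (ex_um 0.322 (by norm_num) (by norm_num) (by norm_num) (by norm_num)) (ex_um 0.35 (by norm_num) (by norm_num) (by norm_num) (by norm_num))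
    (by norm_num) (by norm_num), ?_⟩
  exact v5_M 1.37988 (ex_lp 0.322 (by linarith) (by norm_num) (by norm_num)) (by norm_num) (by norm_num)

private theorem B5Jo_B45 {κ t : ℝ} (h : DomR κ t) (hk1 : 1.15 ≤ κ) (hk2 : κ ≤ 1.25) (ht1 : (-0.8417) ≤ t + κ) (ht2 : t + κ ≤ (-0.6911)) :
    ((-0.447) ≤ sy κ t ∧ sy κ t ≤ (-0.351)) ∧ (1.5711 ≤ sx κ t ∧ sx κ t ≤ 1.9228) ∧ κ * Real.exp (-sy κ t) ≤ 1.9546 ∧ 2.9664 ≤ sD κ t ∧ sD κ t ≤ 3.9262 := by
  have hy1 : -0.447 ≤ sy κ t := syL_ge h 1.15 1.25 0.8417 0.447 0.63954 0.63955 0.2353 0.22869 0.2486 hk1 hk2 (by linarith) (by norm_num) (by norm_num) (by norm_num)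
    (expm_ge (by norm_num) (by norm_num) (by norm_num) (by norm_num)) (expm_le (by norm_num) (by norm_num) (by norm_num)) (by norm_num)
    (by norm_num) (by norm_num) (by norm_num) (by norm_num) (by norm_num) (by norm_num)
  have hy2 : sy κ t ≤ -0.351 := syL_le h 1.15 1.25 0.6911 0.351 0.70398 0.70399 0.19767 0.21487 hk1 hk2 (by linarith) (by norm_num) (by norm_num) (by norm_num)
    (expm_ge (by norm_num) (by norm_num) (by norm_num) (by norm_num)) (expm_le (by norm_num) (by norm_num) (by norm_num)) (by norm_num)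
    (by norm_num) (by norm_num) (by norm_num) (by norm_num) (by norm_num) (by norm_num)
  have hy1' : (-0.447) ≤ sy κ t := by linarith
  have hy2' : sy κ t ≤ (-0.351) := by linarith
  have hx1 : 1.5711 ≤ sx κ t := sx_lo h 1.15 (-0.351) 0.4471 1.42048 1.5711 hk1 (by norm_num) hy2' (abs_le.2 ⟨by linarith, by linarith⟩) (ex_lp 0.351 (by norm_num) (by norm_num) (by norm_num)) (by norm_num) (by norm_num)
  have hx2 : sx κ t ≤ 1.9228 := sx_hi h 1.25 (-0.447) 0.351 1.56362 1.9228 hk2 hy1' (by norm_num) (le_trans (by linarith) (neg_le_abs _)) (ex_up 0.447 (by norm_num) (by norm_num) (by norm_num) (by norm_num)) (by norm_num) (by norm_num)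
  refine ⟨⟨hy1', hy2'⟩, ⟨hx1, hx2⟩, v5_n h 1.25 (-0.447) 1.56362 1.9546 hk2 hy1' (ex_up 0.447 (by norm_num) (by norm_num) (by norm_num) (by norm_num)) (by norm_num), ?_, ?_⟩
  · exact v5_Dlo h 1.15 (-0.447) (-0.351) (-0.351) 1.42048 2.9664 (by norm_num) hk1 hy1' hy2' (ex_lp 0.351 (by norm_num) (by norm_num) (by norm_num)) (by norm_num) (by norm_num) (by norm_num) (by norm_num)
  · exact v5_Dup h 1.25 (-0.447) (-0.351) 1.56362 1.42049 3.9262 hk2 hy1' hy2' (ex_up 0.447 (by norm_num) (by norm_num) (by norm_num) (by norm_num)) (ex_up 0.351 (by norm_num) (by norm_num) (by norm_num) (by norm_num)) (by norm_num) (by norm_num) (by norm_num)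

private theorem B5Jo_T46_0_0 {β x y : ℝ} (hβ : 0 < β) (hN : β * 7.999 ≤ 1) (hx1 : 1.571 ≤ x) (hx2 : x ≤ 1.633)
    (hy1 : -0.4471 ≤ y) (hy2 : y ≤ -0.3509) : ‖HH β (x + y * I) - 1‖ ≤ 0.15 := by
  refine le_epsJ (C := 1.1975) (N0 := 7.999) (J_boxp 1.571 1.633 0.4471 0 (-0.3509) 1.4987 1.6931 1.7573 0.7226 0.5289 2.8283 7.999 1.1298 5.229 1.684 0.3793 0.7493 0.4671 0.8403 1.7404 0.8738 2.6752 3.4973 3.2517 0.002513 0.02388 0.001207 0.0000009023 0.0009253 0.0000003101 0.0000003101 0.0000003101 1.1975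
    hβ hN hx1 hx2 hy1 hy2 (by norm_num) (by norm_num) (by linarith) (by norm_num) (by norm_num) (by norm_num) (by norm_num) (by norm_num) (by norm_num) (by norm_num) (by norm_num) (by norm_num) (by norm_num) (by norm_num) (by norm_num) (by norm_num) (by norm_num) (by norm_num) (by norm_num) (by norm_num) (by norm_num) (by norm_num) (by norm_num) (by norm_num)
    (cube_sqrt_geJ (s := 0.7895) (by norm_num) (by norm_num) (by norm_num) (by norm_num))
    (cube_sqrt_geJ (s := 0.9282) (by norm_num) (by norm_num) (by norm_num) (by norm_num))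
    (by norm_num) (by norm_num) (by norm_num) (by norm_num) (by norm_num) (by norm_num) (by norm_num) (by norm_num) (by norm_num) (by norm_num) (by norm_num) (by norm_num) (by norm_num) (by norm_num) (by norm_num) (by norm_num) (by norm_num) (by norm_num)
    (exp_neg_leJ (r := 0.99) 5 (by norm_num) (by norm_num) (by norm_num) (by norm_num))
    (exp_neg_leJ (r := 0.736) 3 (by norm_num) (by norm_num) (by norm_num) (by norm_num))
    (exp_neg_leJ (r := 0.721) 6 (by norm_num) (by norm_num) (by norm_num) (by norm_num))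
    (exp_neg_leJ (r := 0.921) 13 (by norm_num) (by norm_num) (by norm_num) (by norm_num))
    (exp_neg_leJ (r := 0.989) 6 (by norm_num) (by norm_num) (by norm_num) (by norm_num))
    (exp_neg_leJ (r := 0.99) 14 (by norm_num) (by norm_num) (by norm_num) (by norm_num))
    (exp_neg_leJ (r := 0.99) 14 (by norm_num) (by norm_num) (by norm_num) (by norm_num))
    (exp_neg_leJ (r := 0.99) 14 (by norm_num) (by norm_num) (by norm_num) (by norm_num))
    (by norm_num)) (by norm_num) hN hβ.le (by norm_num)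

private theorem B5Jo_T46_0_1 {β x y : ℝ} (hβ : 0 < β) (hN : β * 7.999 ≤ 1) (hx1 : 1.633 ≤ x) (hx2 : x ≤ 1.707)
    (hy1 : -0.4471 ≤ y) (hy2 : y ≤ -0.3509) : ‖HH β (x + y * I) - 1‖ ≤ 0.15 := by
  refine le_epsJ (C := 1.199) (N0 := 7.999) (J_boxp 1.633 1.707 0.4471 0 (-0.3509) 1.5424 1.7646 1.8263 0.7055 0.5392 2.8283 7.999 1.1441 5.371 1.696 0.3508 0.7711 0.477 0.8615 1.6983 0.9039 2.761 3.6213 3.1813 0.002096 0.02208 0.00102 0.000001261 0.0007246 0.0000003101 0.0000003101 0.0000003101 1.199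
    hβ hN hx1 hx2 hy1 hy2 (by norm_num) (by norm_num) (by linarith) (by norm_num) (by norm_num) (by norm_num) (by norm_num) (by norm_num) (by norm_num) (by norm_num) (by norm_num) (by norm_num) (by norm_num) (by norm_num) (by norm_num) (by norm_num) (by norm_num) (by norm_num) (by norm_num) (by norm_num) (by norm_num) (by norm_num) (by norm_num) (by norm_num)
    (cube_sqrt_geJ (s := 0.7865) (by norm_num) (by norm_num) (by norm_num) (by norm_num))
    (cube_sqrt_geJ (s := 0.9273) (by norm_num) (by norm_num) (by norm_num) (by norm_num))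
    (by norm_num) (by norm_num) (by norm_num) (by norm_num) (by norm_num) (by norm_num) (by norm_num) (by norm_num) (by norm_num) (by norm_num) (by norm_num) (by norm_num) (by norm_num) (by norm_num) (by norm_num) (by norm_num) (by norm_num) (by norm_num)
    (exp_neg_leJ (r := 0.168) 6 (by norm_num) (by norm_num) (by norm_num) (by norm_num))
    (exp_neg_leJ (r := 0.815) 3 (by norm_num) (by norm_num) (by norm_num) (by norm_num))
    (exp_neg_leJ (r := 0.891) 6 (by norm_num) (by norm_num) (by norm_num) (by norm_num))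
    (exp_neg_leJ (r := 0.584) 13 (by norm_num) (by norm_num) (by norm_num) (by norm_num))
    (exp_neg_leJ (r := 0.23) 7 (by norm_num) (by norm_num) (by norm_num) (by norm_num))
    (exp_neg_leJ (r := 0.99) 14 (by norm_num) (by norm_num) (by norm_num) (by norm_num))
    (exp_neg_leJ (r := 0.99) 14 (by norm_num) (by norm_num) (by norm_num) (by norm_num))
    (exp_neg_leJ (r := 0.99) 14 (by norm_num) (by norm_num) (by norm_num) (by norm_num))
    (by norm_num)) (by norm_num) hN hβ.le (by norm_num)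

private theorem B5Jo_T46_0_2 {β x y : ℝ} (hβ : 0 < β) (hN : β * 7.999 ≤ 1) (hx1 : 1.707 ≤ x) (hx2 : x ≤ 1.794)
    (hy1 : -0.4471 ≤ y) (hy2 : y ≤ -0.3509) : ‖HH β (x + y * I) - 1‖ ≤ 0.15 := by
  refine le_epsJ (C := 1.1987) (N0 := 7.999) (J_boxp 1.707 1.794 0.4471 0 (-0.3509) 1.5945 1.8489 1.9079 0.6861 0.5511 2.8283 7.999 1.1596 5.531 1.71 0.3174 0.7972 0.489 0.8868 1.6488 0.9398 2.8635 3.7693 3.1002 0.001703 0.02008 0.000831 0.000001873 0.0005439 0.0000003101 0.0000003101 0.0000003101 1.1987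
    hβ hN hx1 hx2 hy1 hy2 (by norm_num) (by norm_num) (by linarith) (by norm_num) (by norm_num) (by norm_num) (by norm_num) (by norm_num) (by norm_num) (by norm_num) (by norm_num) (by norm_num) (by norm_num) (by norm_num) (by norm_num) (by norm_num) (by norm_num) (by norm_num) (by norm_num) (by norm_num) (by norm_num) (by norm_num) (by norm_num) (by norm_num)
    (cube_sqrt_geJ (s := 0.7832) (by norm_num) (by norm_num) (by norm_num) (by norm_num))
    (cube_sqrt_geJ (s := 0.9262) (by norm_num) (by norm_num) (by norm_num) (by norm_num))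
    (by norm_num) (by norm_num) (by norm_num) (by norm_num) (by norm_num) (by norm_num) (by norm_num) (by norm_num) (by norm_num) (by norm_num) (by norm_num) (by norm_num) (by norm_num) (by norm_num) (by norm_num) (by norm_num) (by norm_num) (by norm_num)
    (exp_neg_leJ (r := 0.376) 6 (by norm_num) (by norm_num) (by norm_num) (by norm_num))
    (exp_neg_leJ (r := 0.911) 3 (by norm_num) (by norm_num) (by norm_num) (by norm_num))
    (exp_neg_leJ (r := 0.093) 7 (by norm_num) (by norm_num) (by norm_num) (by norm_num))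
    (exp_neg_leJ (r := 0.188) 13 (by norm_num) (by norm_num) (by norm_num) (by norm_num))
    (exp_neg_leJ (r := 0.517) 7 (by norm_num) (by norm_num) (by norm_num) (by norm_num))
    (exp_neg_leJ (r := 0.99) 14 (by norm_num) (by norm_num) (by norm_num) (by norm_num))
    (exp_neg_leJ (r := 0.99) 14 (by norm_num) (by norm_num) (by norm_num) (by norm_num))
    (exp_neg_leJ (r := 0.99) 14 (by norm_num) (by norm_num) (by norm_num) (by norm_num))
    (by norm_num)) (by norm_num) hN hβ.le (by norm_num)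

private theorem B5Jo_T46_0_3 {β x y : ℝ} (hβ : 0 < β) (hN : β * 7.999 ≤ 1) (hx1 : 1.794 ≤ x) (hx2 : x ≤ 1.897)
    (hy1 : -0.4471 ≤ y) (hy2 : y ≤ -0.3509) : ‖HH β (x + y * I) - 1‖ ≤ 0.15 := by
  refine le_epsJ (C := 1.1985) (N0 := 7.999) (J_boxp 1.794 1.897 0.4471 0 (-0.3509) 1.6558 1.949 2.005 0.6646 0.5649 2.8283 7.999 1.1771 5.719 1.725 0.2777 0.8278 0.503 0.9166 1.59 0.9821 2.9839 3.9433 3.0021 0.001333 0.0179 0.000655 0.000003 0.0003886 0.0000003101 0.0000003101 0.0000003101 1.1985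
    hβ hN hx1 hx2 hy1 hy2 (by norm_num) (by norm_num) (by linarith) (by norm_num) (by norm_num) (by norm_num) (by norm_num) (by norm_num) (by norm_num) (by norm_num) (by norm_num) (by norm_num) (by norm_num) (by norm_num) (by norm_num) (by norm_num) (by norm_num) (by norm_num) (by norm_num) (by norm_num) (by norm_num) (by norm_num) (by norm_num) (by norm_num)
    (cube_sqrt_geJ (s := 0.7795) (by norm_num) (by norm_num) (by norm_num) (by norm_num))
    (cube_sqrt_geJ (s := 0.9251) (by norm_num) (by norm_num) (by norm_num) (by norm_num))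
    (by norm_num) (by norm_num) (by norm_num) (by norm_num) (by norm_num) (by norm_num) (by norm_num) (by norm_num) (by norm_num) (by norm_num) (by norm_num) (by norm_num) (by norm_num) (by norm_num) (by norm_num) (by norm_num) (by norm_num) (by norm_num)
    (exp_neg_leJ (r := 0.621) 6 (by norm_num) (by norm_num) (by norm_num) (by norm_num))
    (exp_neg_leJ (r := 0.023) 4 (by norm_num) (by norm_num) (by norm_num) (by norm_num))
    (exp_neg_leJ (r := 0.331) 7 (by norm_num) (by norm_num) (by norm_num) (by norm_num))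
    (exp_neg_leJ (r := 0.718) 12 (by norm_num) (by norm_num) (by norm_num) (by norm_num))
    (exp_neg_leJ (r := 0.855) 7 (by norm_num) (by norm_num) (by norm_num) (by norm_num))
    (exp_neg_leJ (r := 0.99) 14 (by norm_num) (by norm_num) (by norm_num) (by norm_num))
    (exp_neg_leJ (r := 0.99) 14 (by norm_num) (by norm_num) (by norm_num) (by norm_num))
    (exp_neg_leJ (r := 0.99) 14 (by norm_num) (by norm_num) (by norm_num) (by norm_num))
    (by norm_num)) (by norm_num) hN hβ.le (by norm_num)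

private theorem B5Jo_T46_0_4 {β x y : ℝ} (hβ : 0 < β) (hN : β * 7.999 ≤ 1) (hx1 : 1.897 ≤ x) (hx2 : x ≤ 1.9229)
    (hy1 : -0.4471 ≤ y) (hy2 : y ≤ -0.3509) : ‖HH β (x + y * I) - 1‖ ≤ 0.15 := by
  refine le_epsJ (C := 1.0122) (N0 := 7.999) (J_boxp 1.897 1.9229 0.4471 0 (-0.3509) 1.7283 1.9742 2.0296 0.6271 0.5684 2.8283 7.999 1.1423 5.353 1.695 0.2678 0.8641 0.5351 0.9519 1.5752 1.0321 3.1266 4.1493 3.1396 0.0009993 0.01385 0.0004938 0.000003374 0.00026 0.0000003101 0.0000003101 0.0000003101 1.0122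
    hβ hN hx1 hx2 hy1 hy2 (by norm_num) (by norm_num) (by linarith) (by norm_num) (by norm_num) (by norm_num) (by norm_num) (by norm_num) (by norm_num) (by norm_num) (by norm_num) (by norm_num) (by norm_num) (by norm_num) (by norm_num) (by norm_num) (by norm_num) (by norm_num) (by norm_num) (by norm_num) (by norm_num) (by norm_num) (by norm_num) (by norm_num)
    (cube_sqrt_geJ (s := 0.7869) (by norm_num) (by norm_num) (by norm_num) (by norm_num))
    (cube_sqrt_geJ (s := 0.9274) (by norm_num) (by norm_num) (by norm_num) (by norm_num))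
    (by norm_num) (by norm_num) (by norm_num) (by norm_num) (by norm_num) (by norm_num) (by norm_num) (by norm_num) (by norm_num) (by norm_num) (by norm_num) (by norm_num) (by norm_num) (by norm_num) (by norm_num) (by norm_num) (by norm_num) (by norm_num)
    (exp_neg_leJ (r := 0.911) 6 (by norm_num) (by norm_num) (by norm_num) (by norm_num))
    (exp_neg_leJ (r := 0.28) 4 (by norm_num) (by norm_num) (by norm_num) (by norm_num))
    (exp_neg_leJ (r := 0.614) 7 (by norm_num) (by norm_num) (by norm_num) (by norm_num))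
    (exp_neg_leJ (r := 0.6) 12 (by norm_num) (by norm_num) (by norm_num) (by norm_num))
    (exp_neg_leJ (r := 0.255) 8 (by norm_num) (by norm_num) (by norm_num) (by norm_num))
    (exp_neg_leJ (r := 0.99) 14 (by norm_num) (by norm_num) (by norm_num) (by norm_num))
    (exp_neg_leJ (r := 0.99) 14 (by norm_num) (by norm_num) (by norm_num) (by norm_num))
    (exp_neg_leJ (r := 0.99) 14 (by norm_num) (by norm_num) (by norm_num) (by norm_num))
    (by norm_num)) (by norm_num) hN hβ.le (by norm_num)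

private theorem B5Jo_T46 {β x y : ℝ} (hβ : 0 < β) (hN : β * 7.999 ≤ 1) (hx1 : 1.571 ≤ x) (hx2 : x ≤ 1.9229)
    (hy1 : (-0.4471) ≤ y) (hy2 : y ≤ (-0.3509)) : ‖HH β (x + y * I) - 1‖ ≤ 0.15 := by
  rcases le_total x 1.633 with hxx | hxx
  · exact B5Jo_T46_0_0 hβ hN (by linarith) (by linarith) (by linarith) (by linarith)
  rcases le_total x 1.707 with hxx | hxx
  · exact B5Jo_T46_0_1 hβ hN (by linarith) (by linarith) (by linarith) (by linarith)
  rcases le_total x 1.794 with hxx | hxx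
  · exact B5Jo_T46_0_2 hβ hN (by linarith) (by linarith) (by linarith) (by linarith)
  rcases le_total x 1.897 with hxx | hxx
  · exact B5Jo_T46_0_3 hβ hN (by linarith) (by linarith) (by linarith) (by linarith)
  exact B5Jo_T46_0_4 hβ hN (by linarith) (by linarith) (by linarith) (by linarith)

private theorem B5Jo_U47 {β r t κ h t' : ℝ} (hβ : 0 < β) (hκ : κ = β * r) (hN : β * 7.999 ≤ 1) (hk1 : 1.15 ≤ κ) (hk2 : κ ≤ 1.25)
    (ht : t' = t + (((0 : ℤ) : ℝ) - 1) * h) (hD : DomR κ t') (hta : (-0.8417) ≤ t' + κ) (htb : t' + κ ≤ (-0.6911)) :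
    ‖Xf β r h t 0‖ ≤ 0.8763 * Real.exp (r * sE κ t') := by
  obtain ⟨⟨ya, yb⟩, ⟨xa, xb⟩, n1, Da, Db⟩ := B5Jo_B45 hD hk1 hk2 hta htb
  have J := B5Jo_T46 (x := sx κ t') (y := sy κ t') hβ hN (by linarith only [xa, xb, ya, yb]) (by linarith only [xa, xb, ya, yb]) (by linarith only [xa, xb, ya, yb]) (by linarith only [xa, xb, ya, yb])
  exact v5_Jup (h := h) (t := t) (k := 0) hβ hκ ht hD 0.15 2.9664 0.8763 J Da (by norm_num) (by norm_num)

private theorem B5Jo_K48 {β r t κ h : ℝ} (hβ : 0 < β) (hr : 10 ≤ r) (hκ : κ = β * r) (hk1 : 1.15 ≤ κ) (hk2 : κ ≤ 1.25)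
    (hh : h = 2 * Real.pi / 5) (hh1 : 1.25663 ≤ h) (hh2 : h ≤ 1.25664) (hta : 0.415 ≤ t + κ) (htb : t + κ ≤ 0.5655) (hN : β * 7.999 ≤ 1)
    (hD : DomR κ (t - h)) (hY : 0.7474 * Real.exp (r * sE κ t) ≤ ‖Xf β r h t 1‖) (hV : 1.04671 - 0.1991 * (t + κ) ≤ sE κ t) :
    ‖Xf β r h t 0‖ ≤ 0.863 * ‖Xf β r h t 1‖ := by
  have hU := B5Jo_U47 (h := h) (t := t) hβ hκ hN hk1 hk2 (by push_cast; ring) hD (by linarith only [hta, htb, hh1, hh2]) (by linarith only [hta, htb, hh1, hh2])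
  have hW := V_up hD (-0.28) (B5Jo_G44 hk1 hk2).1
  exact v5_cmpJ 0.0308 0.7353 0.863 hr hU hW hY (by norm_num) (by norm_num) (by norm_num) (by linarith only [hV, hta, htb, hh1, hh2]) (ex_un 0 0.3079 (by norm_num) (by norm_num) (by norm_num) (by norm_num)) (by norm_num)

private theorem B5Jo_O49 {β r t κ h : ℝ} (hβ : 0 < β) (hr : 10 ≤ r) (hκ : κ = β * r) (hk1 : 1.15 ≤ κ) (hk2 : κ ≤ 1.25)
    (hh : h = 2 * Real.pi / 5) (hta : 0.415 ≤ t + κ) (htb : t + κ ≤ 0.5655) :
    ‖Xf β r h t (-2)‖ + ‖Xf β r h t (-1)‖ + ‖Xf β r h t 2‖ < |‖Xf β r h t 1‖ - ‖Xf β r h t 0‖| := by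
  obtain ⟨hh1, hh2⟩ := v5_h hh
  have hκ0 : 0 < κ := by linarith only [hk1]
  have hN : β * 7.999 ≤ 1 := v5_hN 1.25 7.999 hβ hr hκ hk2 (by norm_num) (by norm_num)
  have hD1 : DomR κ t := v5_dom hκ0 (by linarith only [hta, htb, hk1, hk2, hh1, hh2]) (Or.inr (by linarith only [hta, htb, hk1, hk2, hh1, hh2]))
  have e1 : t = t + (((1 : ℤ) : ℝ) - 1) * h := by push_cast; ring
  have hY := B5Jo_Y39 (h := h) hβ hκ hN hk1 hk2 e1 hD1 hta htb
  have hV := B5Jo_V40 hD1 hk1 hk2 hta htb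
  have hD0 : DomR κ (t - h) := v5_dom hκ0 (by linarith only [hta, htb, hk1, hk2, hh1, hh2]) (Or.inl (by linarith only [hk1]))
  have cp2 := B5Jo_K41 hβ hr hκ hk1 hk2 hh hh1 hh2 hta htb hY hV
  have cm1 := B5Jo_K42 hβ hr hκ hk1 hk2 hh hh1 hh2 hta htb hY hV
  have cm2 := B5Jo_K43 hβ hr hκ hk1 hk2 hh hh1 hh2 hta htb hY hV
  have cn0 := B5Jo_K48 hβ hr hκ hk1 hk2 hh hh1 hh2 hta htb hN hD0 hY hV
  have hp : 0 < ‖Xf β r h t 1‖ := lt_of_lt_of_le (by positivity) hY
  exact v5_out1 _ _ _ _ cm2 cm1 cp2 cn0 hp (by norm_num)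

private theorem B5Jo_B50 {κ t : ℝ} (h : DomR κ t) (hk1 : 1.15 ≤ κ) (hk2 : κ ≤ 1.25) (ht1 : (-0.4902) ≤ t + κ) (ht2 : t + κ ≤ (-0.3766)) :
    ((-0.259) ≤ sy κ t ∧ sy κ t ≤ (-0.19)) ∧ (1.3662 ≤ sx κ t ∧ sx κ t ≤ 1.6084) ∧ κ * Real.exp (-sy κ t) ≤ 1.6196 ∧ 2.5538 ≤ sD κ t ∧ sD κ t ≤ 3.105 := by
  have hy1 : -0.259 ≤ sy κ t := syL_ge h 1.15 1.25 0.4902 0.259 0.77182 0.77183 0.1564 0.15992 0.17383 hk1 hk2 (by linarith) (by norm_num) (by norm_num) (by norm_num)
    (expm_ge (by norm_num) (by norm_num) (by norm_num) (by norm_num)) (expm_le (by norm_num) (by norm_num) (by norm_num)) (by norm_num)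
    (by norm_num) (by norm_num) (by norm_num) (by norm_num) (by norm_num) (by norm_num)
  have hy2 : sy κ t ≤ -0.19 := syL_le h 1.15 1.25 0.3766 0.19 0.82695 0.82696 0.12569 0.13663 hk1 hk2 (by linarith) (by norm_num) (by norm_num) (by norm_num)
    (expm_ge (by norm_num) (by norm_num) (by norm_num) (by norm_num)) (expm_le (by norm_num) (by norm_num) (by norm_num)) (by norm_num)
    (by norm_num) (by norm_num) (by norm_num) (by norm_num) (by norm_num) (by norm_num)
  have hy1' : (-0.259) ≤ sy κ t := by linarith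
  have hy2' : sy κ t ≤ (-0.19) := by linarith
  have hx1 : 1.3662 ≤ sx κ t := sx_lo h 1.15 (-0.19) 0.2591 1.20924 1.3662 hk1 (by norm_num) hy2' (abs_le.2 ⟨by linarith, by linarith⟩) (ex_lp 0.19 (by norm_num) (by norm_num) (by norm_num)) (by norm_num) (by norm_num)
  have hx2 : sx κ t ≤ 1.6084 := sx_hi h 1.25 (-0.259) 0.19 1.29564 1.6084 hk2 hy1' (by norm_num) (le_trans (by linarith) (neg_le_abs _)) (ex_up 0.259 (by norm_num) (by norm_num) (by norm_num) (by norm_num)) (by norm_num) (by norm_num)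
  refine ⟨⟨hy1', hy2'⟩, ⟨hx1, hx2⟩, v5_n h 1.25 (-0.259) 1.29564 1.6196 hk2 hy1' (ex_up 0.259 (by norm_num) (by norm_num) (by norm_num) (by norm_num)) (by norm_num), ?_, ?_⟩
  · exact v5_Dlo h 1.15 (-0.259) (-0.19) (-0.19) 1.20924 2.5538 (by norm_num) hk1 hy1' hy2' (ex_lp 0.19 (by norm_num) (by norm_num) (by norm_num)) (by norm_num) (by norm_num) (by norm_num) (by norm_num)
  · exact v5_Dup h 1.25 (-0.259) (-0.19) 1.29564 1.20925 3.105 hk2 hy1' hy2' (ex_up 0.259 (by norm_num) (by norm_num) (by norm_num) (by norm_num)) (ex_up 0.19 (by norm_num) (by norm_num) (by norm_num) (by norm_num)) (by norm_num) (by norm_num) (by norm_num)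

private theorem B5Jo_T51_0_0 {β x y : ℝ} (hβ : 0 < β) (hN : β * 7.999 ≤ 1) (hx1 : 1.3661 ≤ x) (hx2 : x ≤ 1.44)
    (hy1 : -0.2591 ≤ y) (hy2 : y ≤ -0.1899) : ‖HH β (x + y * I) - 1‖ ≤ 0.1 := by
  refine le_epsJ (C := 0.7987) (N0 := 7.999) (J_boxp 1.3661 1.44 0.2591 0 (-0.1899) 1.488 1.4632 1.6523 0.7082 0.5129 2.8283 7.999 0.9834 4.017 1.567 0.6271 0.7439 0.5001 1.0669 2.452 0.877 2.3915 3.5985 3.4668 0.002614 0.01832 0.0001968 0.0000003101 0.0008984 0.0000003101 0.0000003101 0.0000003101 0.7987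
    hβ hN hx1 hx2 hy1 hy2 (by norm_num) (by norm_num) (by linarith) (by norm_num) (by norm_num) (by norm_num) (by norm_num) (by norm_num) (by norm_num) (by norm_num) (by norm_num) (by norm_num) (by norm_num) (by norm_num) (by norm_num) (by norm_num) (by norm_num) (by norm_num) (by norm_num) (by norm_num) (by norm_num) (by norm_num) (by norm_num) (by norm_num)
    (cube_sqrt_geJ (s := 0.8198) (by norm_num) (by norm_num) (by norm_num) (by norm_num))
    (cube_sqrt_geJ (s := 0.9378) (by norm_num) (by norm_num) (by norm_num) (by norm_num))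
    (by norm_num) (by norm_num) (by norm_num) (by norm_num) (by norm_num) (by norm_num) (by norm_num) (by norm_num) (by norm_num) (by norm_num) (by norm_num) (by norm_num) (by norm_num) (by norm_num) (by norm_num) (by norm_num) (by norm_num) (by norm_num)
    (exp_neg_leJ (r := 0.95) 5 (by norm_num) (by norm_num) (by norm_num) (by norm_num))
    (exp_neg_leJ (r := 0) 4 (by norm_num) (by norm_num) (by norm_num) (by norm_num))
    (exp_neg_leJ (r := 0.534) 8 (by norm_num) (by norm_num) (by norm_num) (by norm_num))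
    (exp_neg_leJ (r := 0.99) 14 (by norm_num) (by norm_num) (by norm_num) (by norm_num))
    (exp_neg_leJ (r := 0.015) 7 (by norm_num) (by norm_num) (by norm_num) (by norm_num))
    (exp_neg_leJ (r := 0.99) 14 (by norm_num) (by norm_num) (by norm_num) (by norm_num))
    (exp_neg_leJ (r := 0.99) 14 (by norm_num) (by norm_num) (by norm_num) (by norm_num))
    (exp_neg_leJ (r := 0.99) 14 (by norm_num) (by norm_num) (by norm_num) (by norm_num))
    (by norm_num)) (by norm_num) hN hβ.le (by norm_num)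

private theorem B5Jo_T51_0_1 {β x y : ℝ} (hβ : 0 < β) (hN : β * 7.999 ≤ 1) (hx1 : 1.44 ≤ x) (hx2 : x ≤ 1.521)
    (hy1 : -0.2591 ≤ y) (hy2 : y ≤ -0.1899) : ‖HH β (x + y * I) - 1‖ ≤ 0.1 := by
  refine le_epsJ (C := 0.7987) (N0 := 7.999) (J_boxp 1.44 1.521 0.2591 0 (-0.1899) 1.54 1.543 1.7233 0.687 0.5238 2.8283 7.999 1.002 4.149 1.582 0.5959 0.7699 0.5128 1.0922 2.4055 0.9129 2.4938 3.7463 3.3977 0.002117 0.01656 0.0001609 0.0000003101 0.0006743 0.0000003101 0.0000003101 0.0000003101 0.7987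
    hβ hN hx1 hx2 hy1 hy2 (by norm_num) (by norm_num) (by linarith) (by norm_num) (by norm_num) (by norm_num) (by norm_num) (by norm_num) (by norm_num) (by norm_num) (by norm_num) (by norm_num) (by norm_num) (by norm_num) (by norm_num) (by norm_num) (by norm_num) (by norm_num) (by norm_num) (by norm_num) (by norm_num) (by norm_num) (by norm_num) (by norm_num)
    (cube_sqrt_geJ (s := 0.816) (by norm_num) (by norm_num) (by norm_num) (by norm_num))
    (cube_sqrt_geJ (s := 0.9366) (by norm_num) (by norm_num) (by norm_num) (by norm_num))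
    (by norm_num) (by norm_num) (by norm_num) (by norm_num) (by norm_num) (by norm_num) (by norm_num) (by norm_num) (by norm_num) (by norm_num) (by norm_num) (by norm_num) (by norm_num) (by norm_num) (by norm_num) (by norm_num) (by norm_num) (by norm_num)
    (exp_neg_leJ (r := 0.158) 6 (by norm_num) (by norm_num) (by norm_num) (by norm_num))
    (exp_neg_leJ (r := 0.101) 4 (by norm_num) (by norm_num) (by norm_num) (by norm_num))
    (exp_neg_leJ (r := 0.736) 8 (by norm_num) (by norm_num) (by norm_num) (by norm_num))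
    (exp_neg_leJ (r := 0.99) 14 (by norm_num) (by norm_num) (by norm_num) (by norm_num))
    (exp_neg_leJ (r := 0.302) 7 (by norm_num) (by norm_num) (by norm_num) (by norm_num))
    (exp_neg_leJ (r := 0.99) 14 (by norm_num) (by norm_num) (by norm_num) (by norm_num))
    (exp_neg_leJ (r := 0.99) 14 (by norm_num) (by norm_num) (by norm_num) (by norm_num))
    (exp_neg_leJ (r := 0.99) 14 (by norm_num) (by norm_num) (by norm_num) (by norm_num))
    (by norm_num)) (by norm_num) hN hβ.le (by norm_num)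

private theorem B5Jo_T51_0_2 {β x y : ℝ} (hβ : 0 < β) (hN : β * 7.999 ≤ 1) (hx1 : 1.521 ≤ x) (hx2 : x ≤ 1.6085)
    (hy1 : -0.2591 ≤ y) (hy2 : y ≤ -0.1899) : ‖HH β (x + y * I) - 1‖ ≤ 0.1 := by
  refine le_epsJ (C := 0.7967) (N0 := 7.999) (J_boxp 1.521 1.6085 0.2591 0 (-0.1899) 1.597 1.6293 1.801 0.665 0.5354 2.8283 7.999 1.0203 4.284 1.596 0.5622 0.7984 0.5269 1.1199 2.3553 0.9522 2.6059 3.9083 3.3251 0.001686 0.01479 0.0001291 0.0000003101 0.0004928 0.0000003101 0.0000003101 0.0000003101 0.7967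
    hβ hN hx1 hx2 hy1 hy2 (by norm_num) (by norm_num) (by linarith) (by norm_num) (by norm_num) (by norm_num) (by norm_num) (by norm_num) (by norm_num) (by norm_num) (by norm_num) (by norm_num) (by norm_num) (by norm_num) (by norm_num) (by norm_num) (by norm_num) (by norm_num) (by norm_num) (by norm_num) (by norm_num) (by norm_num) (by norm_num) (by norm_num)
    (cube_sqrt_geJ (s := 0.8123) (by norm_num) (by norm_num) (by norm_num) (by norm_num))
    (cube_sqrt_geJ (s := 0.9354) (by norm_num) (by norm_num) (by norm_num) (by norm_num))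
    (by norm_num) (by norm_num) (by norm_num) (by norm_num) (by norm_num) (by norm_num) (by norm_num) (by norm_num) (by norm_num) (by norm_num) (by norm_num) (by norm_num) (by norm_num) (by norm_num) (by norm_num) (by norm_num) (by norm_num) (by norm_num)
    (exp_neg_leJ (r := 0.386) 6 (by norm_num) (by norm_num) (by norm_num) (by norm_num))
    (exp_neg_leJ (r := 0.214) 4 (by norm_num) (by norm_num) (by norm_num) (by norm_num))
    (exp_neg_leJ (r := 0.958) 8 (by norm_num) (by norm_num) (by norm_num) (by norm_num))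
    (exp_neg_leJ (r := 0.99) 14 (by norm_num) (by norm_num) (by norm_num) (by norm_num))
    (exp_neg_leJ (r := 0.616) 7 (by norm_num) (by norm_num) (by norm_num) (by norm_num))
    (exp_neg_leJ (r := 0.99) 14 (by norm_num) (by norm_num) (by norm_num) (by norm_num))
    (exp_neg_leJ (r := 0.99) 14 (by norm_num) (by norm_num) (by norm_num) (by norm_num))
    (exp_neg_leJ (r := 0.99) 14 (by norm_num) (by norm_num) (by norm_num) (by norm_num))
    (by norm_num)) (by norm_num) hN hβ.le (by norm_num)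

private theorem B5Jo_T51 {β x y : ℝ} (hβ : 0 < β) (hN : β * 7.999 ≤ 1) (hx1 : 1.3661 ≤ x) (hx2 : x ≤ 1.6085)
    (hy1 : (-0.2591) ≤ y) (hy2 : y ≤ (-0.1899)) : ‖HH β (x + y * I) - 1‖ ≤ 0.1 := by
  rcases le_total x 1.44 with hxx | hxx
  · exact B5Jo_T51_0_0 hβ hN (by linarith) (by linarith) (by linarith) (by linarith)
  rcases le_total x 1.521 with hxx | hxx
  · exact B5Jo_T51_0_1 hβ hN (by linarith) (by linarith) (by linarith) (by linarith)
  exact B5Jo_T51_0_2 hβ hN (by linarith) (by linarith) (by linarith) (by linarith)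

private theorem B5Jo_G52 {κ : ℝ} (hk1 : 1.15 ≤ κ) (hk2 : κ ≤ 1.25) : gG κ 0.43 ≤ 1.29098 ∧ 0.34128 ≤ Real.exp (-(κ * 0.43)) ^ 2 := by
  refine ⟨gG_le 0.43 1.15 1.25 1.29098 0.60988 0.58421 1.63968 1.71173 hk1 hk2 (by norm_num)
    (ex_um 0.4945 (by norm_num) (by norm_num) (by norm_num) (by norm_num)) (ex_um 0.5375 (by norm_num) (by norm_num) (by norm_num) (by norm_num))
    (ex_up 0.4945 (by norm_num) (by norm_num) (by norm_num) (by norm_num)) (ex_up 0.5375 (by norm_num) (by norm_num) (by norm_num) (by norm_num))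
    (by norm_num) (by norm_num), ?_⟩
  exact v5_M 0.5842 (ex_lm 0.5375 (by linarith) (by norm_num) (by norm_num) (by norm_num) (by norm_num)) (by norm_num) (by norm_num)

private theorem B5Jo_C53 {β r t κ : ℝ} (hβ : 0 < β) (hr : 10 ≤ r) (hκ : κ = β * r) (hk1 : 1.15 ≤ κ) (hk2 : κ ≤ 1.25) (hta : 2.0231 ≤ t + κ)
    (htb : t + κ ≤ 2.1367) : ‖F (cexp (I * β)) (r * cexp (I * ((t + β / 2 : ℝ) : ℂ)))‖ ≤
      1.9279 * Real.exp (r * (1.29098 - 0.43 * (t + κ))) + 0.2014 * Real.exp (r * 0) :=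
  v5_H 0.43 1.15 1.25 2.0231 2.1367 1.29098 1.8162 0.34128 0.1411 2.3437 0.5839 0.07803 0.4622 0.000014 1.9279 0.2014 hβ hr hκ (by norm_num) hk1 hk2 hta htb (by norm_num) (B5Jo_G52 hk1 hk2).1 (B5Jo_G52 hk1 hk2).2 (by norm_num) (by norm_num) (by norm_num)
    (by norm_num) (by norm_num) (by norm_num) (by norm_num) (by norm_num) (by norm_num) (by norm_num) (by norm_num) (ex_un 0 0.7802 (by norm_num) (by norm_num) (by norm_num) (by norm_num))
    (v5_hump 1.4274 7.999 2.8283 0.00001101 0.000014 hβ hr hκ hk1 hk2 (by norm_num) htb (by norm_num) (by norm_num) (by norm_num) (by norm_num) (by norm_num) (by norm_num) (by norm_num) (ex_un 11 0.4177 (by norm_num) (by norm_num) (by norm_num) (by norm_num)) (by norm_num)) (by norm_num) (by norm_num)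

private theorem B5Jo_G54 {κ : ℝ} (hk1 : 1.15 ≤ κ) (hk2 : κ ≤ 1.25) : gG κ (-0.64) ≤ 1.51827 ∧ 4.35782 ≤ Real.exp (-(κ * (-0.64))) ^ 2 := by
  refine ⟨gG_le (-0.64) 1.15 1.25 1.51827 2.08757 2.22555 0.47904 0.44934 hk1 hk2 (by norm_num)
    (ex_up 0.736 (by norm_num) (by norm_num) (by norm_num) (by norm_num)) (ex_up 0.8 (by norm_num) (by norm_num) (by norm_num) (by norm_num))
    (ex_um 0.736 (by norm_num) (by norm_num) (by norm_num) (by norm_num)) (ex_um 0.8 (by norm_num) (by norm_num) (by norm_num) (by norm_num))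
    (by norm_num) (by norm_num), ?_⟩
  exact v5_M 2.08754 (ex_lp 0.736 (by linarith) (by norm_num) (by norm_num)) (by norm_num) (by norm_num)

private theorem B5Jo_C55 {β r t κ : ℝ} (hβ : 0 < β) (hr : 10 ≤ r) (hκ : κ = β * r) (hk1 : 1.15 ≤ κ) (hk2 : κ ≤ 1.25) (hta : (-1.7468) ≤ t + κ)
    (htb : t + κ ≤ (-1.6332)) : ‖F (cexp (I * β)) (r * cexp (I * ((t + β / 2 : ℝ) : ℂ)))‖ ≤
      0.8103 * Real.exp (r * (1.51827 - (-0.64) * (t + κ))) + 1.7321 * Real.exp (r * 0.0501) :=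
  v5_HU (-0.64) 1.15 1.25 (-1.7468) (-1.6332) 1.51827 0.8103 4.35782 0.1411 0.7136 1.7151 0 0.0501 0.00000119 1.7321 hβ hr hκ (by norm_num) hk1 hk2 hta htb (by norm_num) (by norm_num) (B5Jo_G54 hk1 hk2).1 (B5Jo_G54 hk1 hk2).2 (by norm_num) (by norm_num) (by norm_num)
    (by norm_num) (by norm_num) (by norm_num) (by norm_num) (by norm_num) (by norm_num) (by norm_num)
    (by norm_num) (by norm_num) (by norm_num) (v5_hump 5.1973 7.999 2.8283 0.0000009316 0.00000119 hβ hr hκ hk1 hk2 (by norm_num) htb (by norm_num) (by norm_num) (by norm_num) (by norm_num) (by norm_num) (by norm_num) (by norm_num) (ex_un 13 0.9 (by norm_num) (by norm_num) (by norm_num) (by norm_num)) (by norm_num)) (by norm_num)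

private theorem B5Jo_C56 {β r t κ : ℝ} (hβ : 0 < β) (hr : 10 ≤ r) (hκ : κ = β * r) (hk1 : 1.15 ≤ κ) (hk2 : κ ≤ 1.25) (hta : 3.2797 ≤ t + κ)
    (htb : t + κ ≤ 3.3933) : ‖F (cexp (I * β)) (r * cexp (I * ((t + β / 2 : ℝ) : ℂ)))‖ ≤
      2.0277 * Real.exp (r * (0.01 + 1 / 20)) :=
  v5_UD 1.15 1.25 3.2797 3.3933 0.01 0.3721 0.01 1.0571 2.0277 hβ hr hκ (by norm_num) hk1 hk2 hta htb (by norm_num) (by norm_num) (by norm_num) (by norm_num) (by norm_num) (by norm_num) (by norm_num) (by norm_num) (by norm_num) (by norm_num) (by norm_num)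

private theorem B5Jo_Y57 {β r t κ h t' : ℝ} (hβ : 0 < β) (hκ : κ = β * r) (hN : β * 7.999 ≤ 1) (hk1 : 1.15 ≤ κ) (hk2 : κ ≤ 1.25)
    (ht : t' = t + (((0 : ℤ) : ℝ) - 1) * h) (hD : DomR κ t') (hta : (-0.4902) ≤ t' + κ) (htb : t' + κ ≤ (-0.3766)) :
    0.6779 * Real.exp (r * sE κ t') ≤ ‖Xf β r h t 0‖ := by
  obtain ⟨⟨ya, yb⟩, ⟨xa, xb⟩, n1, Da, Db⟩ := B5Jo_B50 hD hk1 hk2 hta htb
  have J := B5Jo_T51 (x := sx κ t') (y := sy κ t') hβ hN (by linarith only [xa, xb, ya, yb]) (by linarith only [xa, xb, ya, yb]) (by linarith only [xa, xb, ya, yb]) (by linarith only [xa, xb, ya, yb])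
  exact v5_Jlo hβ hκ (k := 0) ht hD 0.1 3.105 0.6779 (by norm_num) J Db (by norm_num)

private theorem B5Jo_V58 {κ t : ℝ} (hD : DomR κ t) (hk1 : 1.15 ≤ κ) (hk2 : κ ≤ 1.25) (hta : (-0.4902) ≤ t + κ) (htb : t + κ ≤ (-0.3766)) :
    1.04254 + 0.1998 * (t + κ) ≤ sE κ t := by
  have hκ0 : 0 < κ := hD.1
  exact v5_V0 hD 1.15 1.25 (-0.4902) (-0.3766) 0.4903 0.5354 0.05961 0.19489 0.07983 0.53822 1.04254 0.1998 (by norm_num) hk1 hk2 (by norm_num) hta htb (by norm_num) (by norm_num) (by norm_num) ((cup2 1.15 (by norm_num) hk1).trans (by norm_num))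
      (by norm_num) (by norm_num) (by norm_num) (by norm_num) (by norm_num) (by norm_num) (by norm_num) (by norm_num) (by norm_num) (by norm_num) (by norm_num) (by norm_num) (by norm_num)

private theorem B5Jo_K59 {β r t κ h : ℝ} (hβ : 0 < β) (hr : 10 ≤ r) (hκ : κ = β * r) (hk1 : 1.15 ≤ κ) (hk2 : κ ≤ 1.25)
    (hh : h = 2 * Real.pi / 5) (hh1 : 1.25663 ≤ h) (hh2 : h ≤ 1.25664) (hta : 0.7665 ≤ t + κ) (htb : t + κ ≤ 0.88)
    (hY : 0.6779 * Real.exp (r * sE κ (t - h)) ≤ ‖Xf β r h t 0‖) (hV : 1.04254 + 0.1998 * (t - h + κ) ≤ sE κ (t - h)) :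
    ‖Xf β r h t 2‖ ≤ 0.0153 * ‖Xf β r h t 0‖ := by
  rw [v5_X 2 1 (by push_cast; ring)]
  exact v5_cmp 0.5235 0.005328 0.0152 0.9446 0.00007911 0.0000236 0.0153 hr (B5Jo_C53 (t := t + 1 * h) hβ hr hκ hk1 hk2 (by linarith only [hta, htb, hh1, hh2]) (by linarith only [hta, htb, hh1, hh2])) hY (by norm_num) (by norm_num) (by norm_num) (by norm_num) (by linarith only [hV, hta, htb, hh1, hh2]) (ex_un 5 0.2349 (by norm_num) (by norm_num) (by norm_num) (by norm_num)) (by norm_num) (by norm_num) (by linarith only [hV, hta, htb, hh1, hh2]) (ex_un 9 0.4459 (by norm_num) (by norm_num) (by norm_num) (by norm_num)) (by norm_num) (by norm_num)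

private theorem B5Jo_K60 {β r t κ h : ℝ} (hβ : 0 < β) (hr : 10 ≤ r) (hκ : κ = β * r) (hk1 : 1.15 ≤ κ) (hk2 : κ ≤ 1.25)
    (hh : h = 2 * Real.pi / 5) (hh1 : 1.25663 ≤ h) (hh2 : h ≤ 1.25664) (hta : 0.7665 ≤ t + κ) (htb : t + κ ≤ 0.88)
    (hY : 0.6779 * Real.exp (r * sE κ (t - h)) ≤ ‖Xf β r h t 0‖) (hV : 1.04254 + 0.1998 * (t - h + κ) ≤ sE κ (t - h)) :
    ‖Xf β r h t (-1)‖ ≤ 0.00901 * ‖Xf β r h t 0‖ := by
  rw [v5_X (-1) (-2) (by push_cast; ring)]
  exact v5_cmp 0.4943 0.007248 0.00867 0.8945 0.0001325 0.000339 0.00901 hr (B5Jo_C55 (t := t + (-2) * h) hβ hr hκ hk1 hk2 (by linarith only [hta, htb, hh1, hh2]) (by linarith only [hta, htb, hh1, hh2])) hY (by norm_num) (by norm_num) (by norm_num) (by norm_num) (by linarith only [hV, hta, htb, hh1, hh2]) (ex_un 4 0.9429 (by norm_num) (by norm_num) (by norm_num) (by norm_num)) (by norm_num) (by norm_num) (by linarith only [hV, hta, htb, hh1, hh2]) (ex_un 8 0.9449 (by norm_num) (by norm_num)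 (by norm_num) (by norm_num)) (by norm_num) (by norm_num)

private theorem B5Jo_K61 {β r t κ h : ℝ} (hβ : 0 < β) (hr : 10 ≤ r) (hκ : κ = β * r) (hk1 : 1.15 ≤ κ) (hk2 : κ ≤ 1.25)
    (hh : h = 2 * Real.pi / 5) (hh1 : 1.25663 ≤ h) (hh2 : h ≤ 1.25664) (hta : 0.7665 ≤ t + κ) (htb : t + κ ≤ 0.88)
    (hY : 0.6779 * Real.exp (r * sE κ (t - h)) ≤ ‖Xf β r h t 0‖) (hV : 1.04254 + 0.1998 * (t - h + κ) ≤ sE κ (t - h)) :
    ‖Xf β r h t (-2)‖ ≤ 0.000436 * ‖Xf β r h t 0‖ := by
  rw [v5_Xm2 hh]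
  exact v5_cmp0 0.8846 0.0001456 0.000436 hr (B5Jo_C56 (t := t + 2 * h) hβ hr hκ hk1 hk2 (by linarith only [hta, htb, hh1, hh2]) (by linarith only [hta, htb, hh1, hh2])) hY (by norm_num) (by norm_num) (by norm_num) (by linarith only [hV, hta, htb, hh1, hh2]) (ex_un 8 0.8459 (by norm_num) (by norm_num) (by norm_num) (by norm_num)) (by norm_num)

private theorem B5Jo_G62 {κ : ℝ} (hk1 : 1.15 ≤ κ) (hk2 : κ ≤ 1.25) : gG κ 0.26 ≤ 1.09489 ∧ 0.52203 ≤ Real.exp (-(κ * 0.26)) ^ 2 := by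
  refine ⟨gG_le 0.26 1.15 1.25 1.09489 0.74156 0.72253 1.34851 1.38404 hk1 hk2 (by norm_num)
    (ex_um 0.299 (by norm_num) (by norm_num) (by norm_num) (by norm_num)) (ex_um 0.325 (by norm_num) (by norm_num) (by norm_num) (by norm_num))
    (ex_up 0.299 (by norm_num) (by norm_num) (by norm_num) (by norm_num)) (ex_up 0.325 (by norm_num) (by norm_num) (by norm_num) (by norm_num))
    (by norm_num) (by norm_num), ?_⟩
  exact v5_M 0.72252 (ex_lm 0.325 (by linarith) (by norm_num) (by norm_num) (by norm_num) (by norm_num)) (by norm_num) (by norm_num)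

private theorem B5Jo_B63 {κ t : ℝ} (h : DomR κ t) (hk1 : 1.15 ≤ κ) (hk2 : κ ≤ 1.25) (ht1 : 0.7664 ≤ t + κ) (ht2 : t + κ ≤ 0.8801) :
    (0.317 ≤ sy κ t ∧ sy κ t ≤ 0.361) ∧ (0.7155 ≤ sx κ t ∧ sx κ t ≤ 0.8535) ∧ κ * Real.exp (-sy κ t) ≤ 0.9105 ∧ 2.3355 ≤ sD κ t ∧ sD κ t ≤ 2.4811 := by
  have hy1 : 0.317 ≤ sy κ t := syR_ge h 1.15 1.25 0.7664 0.317 1.373 1.37301 0.34819 0.37848 hk1 hk2 (by linarith) (by norm_num) (by norm_num)
    (expn_ge (by norm_num) (by norm_num)) (expn_le (by norm_num) (by norm_num) (by norm_num)) (by norm_num)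
    (by norm_num) (by norm_num) (by norm_num) (by norm_num) (by norm_num) (by norm_num)
  have hy2 : sy κ t ≤ 0.361 := syR_le h 1.15 1.25 0.8801 0.361 1.43476 0.4053 0.41435 0.4504 hk1 hk2 (by linarith) (by norm_num) (by norm_num)
    (expn_ge (by norm_num) (by norm_num)) (by norm_num) (by norm_num) (Or.inr ((mul_le_mul_of_nonneg_left (expn_le (E := 1.43477) (by norm_num) (by norm_num) (by norm_num)) (by norm_num)).trans (by norm_num))) (by norm_num) (by norm_num) (by norm_num)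
  have hy1' : 0.317 ≤ sy κ t := by linarith
  have hy2' : sy κ t ≤ 0.361 := by linarith
  have hx1 : 0.7155 ≤ sx κ t := sx_lo h 1.15 0.361 0.3611 0.69697 0.7155 hk1 (by norm_num) hy2' (abs_le.2 ⟨by linarith, by linarith⟩) (ex_lm 0.361 (by norm_num) (by norm_num) (by norm_num) (by norm_num) (by norm_num)) (by norm_num) (by norm_num)
  have hx2 : sx κ t ≤ 0.8535 := sx_hi h 1.25 0.317 0.317 0.72834 0.8535 hk2 hy1' (by norm_num) (le_trans (by linarith) (le_abs_self _)) (ex_um 0.317 (by norm_num) (by norm_num) (by norm_num) (by norm_num)) (by norm_num) (by norm_num)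
  refine ⟨⟨hy1', hy2'⟩, ⟨hx1, hx2⟩, v5_n h 1.25 0.317 0.72834 0.9105 hk2 hy1' (ex_um 0.317 (by norm_num) (by norm_num) (by norm_num) (by norm_num)) (by norm_num), ?_, ?_⟩
  · exact v5_Dlo h 1.15 0.317 0.361 0.317 0.72833 2.3355 (by norm_num) hk1 hy1' hy2' (ex_lm 0.317 (by norm_num) (by norm_num) (by norm_num) (by norm_num) (by norm_num)) (by norm_num) (by norm_num) (by norm_num) (by norm_num)
  · exact v5_Dup h 1.25 0.317 0.361 0.72834 0.69698 2.4811 hk2 hy1' hy2' (ex_um 0.317 (by norm_num) (by norm_num) (by norm_num) (by norm_num)) (ex_um 0.361 (by norm_num) (by norm_num) (by norm_num) (by norm_num)) (by norm_num) (by norm_num) (by norm_num)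

private theorem B5Jo_T64_0_0 {β x y : ℝ} (hβ : 0 < β) (hN : β * 7.999 ≤ 1) (hx1 : 0.7154 ≤ x) (hx2 : x ≤ 0.759)
    (hy1 : -0 ≤ y) (hy2 : y ≤ 0.3611) : ‖HH β (x + y * I) - 1‖ ≤ 0.075 := by
  refine le_epsJ (C := 0.5996) (N0 := 7.999) (J_boxp 0.7154 0.759 0 0.3611 0.3611 1.2138 0.8406 1.5585 0.9336 0.4981 2.8283 7.999 0.6926 2.507 1.364 1.1281 0.6068 0.4667 1.2531 3.6432 0.6656 1.4537 1.4527 2.1563 0.00782 0.02395 0.00004437 0.0000003101 0.004874 0.000008918 0.000008989 0.0000003101 0.5996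
    hβ hN hx1 hx2 hy1 hy2 (by norm_num) (by norm_num) (by linarith) (by norm_num) (by norm_num) (by norm_num) (by norm_num) (by norm_num) (by norm_num) (by norm_num) (by norm_num) (by norm_num) (by norm_num) (by norm_num) (by norm_num) (by norm_num) (by norm_num) (by norm_num) (by norm_num) (by norm_num) (by norm_num) (by norm_num) (by norm_num) (by norm_num)
    (cube_sqrt_geJ (s := 0.877) (by norm_num) (by norm_num) (by norm_num) (by norm_num))
    (cube_sqrt_geJ (s := 0.9566) (by norm_num) (by norm_num) (by norm_num) (by norm_num))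
    (by norm_num) (by norm_num) (by norm_num) (by norm_num) (by norm_num) (by norm_num) (by norm_num) (by norm_num) (by norm_num) (by norm_num) (by norm_num) (by norm_num) (by norm_num) (by norm_num) (by norm_num) (by norm_num) (by norm_num) (by norm_num)
    (exp_neg_leJ (r := 0.853) 4 (by norm_num) (by norm_num) (by norm_num) (by norm_num))
    (exp_neg_leJ (r := 0.733) 3 (by norm_num) (by norm_num) (by norm_num) (by norm_num))
    (exp_neg_leJ (r := 0.023) 10 (by norm_num) (by norm_num) (by norm_num) (by norm_num))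
    (exp_neg_leJ (r := 0.99) 14 (by norm_num) (by norm_num) (by norm_num) (by norm_num))
    (exp_neg_leJ (r := 0.324) 5 (by norm_num) (by norm_num) (by norm_num) (by norm_num))
    (exp_neg_leJ (r := 0.628) 11 (by norm_num) (by norm_num) (by norm_num) (by norm_num))
    (exp_neg_leJ (r := 0.62) 11 (by norm_num) (by norm_num) (by norm_num) (by norm_num))
    (exp_neg_leJ (r := 0.99) 14 (by norm_num) (by norm_num) (by norm_num) (by norm_num))
    (by norm_num)) (by norm_num) hN hβ.le (by norm_num)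

private theorem B5Jo_T64_0_1 {β x y : ℝ} (hβ : 0 < β) (hN : β * 7.999 ≤ 1) (hx1 : 0.759 ≤ x) (hx2 : x ≤ 0.814)
    (hy1 : -0 ≤ y) (hy2 : y ≤ 0.3611) : ‖HH β (x + y * I) - 1‖ ≤ 0.075 := by
  refine le_epsJ (C := 0.599) (N0 := 7.999) (J_boxp 0.759 0.814 0 0.3611 0.3611 1.2445 0.8905 1.586 0.9072 0.5025 2.8283 7.999 0.7156 2.596 1.379 1.107 0.6222 0.4738 1.268 3.6128 0.6868 1.514 1.5399 2.1079 0.006925 0.02265 0.0000394 0.0000003101 0.004117 0.000005505 0.000004476 0.0000003101 0.599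
    hβ hN hx1 hx2 hy1 hy2 (by norm_num) (by norm_num) (by linarith) (by norm_num) (by norm_num) (by norm_num) (by norm_num) (by norm_num) (by norm_num) (by norm_num) (by norm_num) (by norm_num) (by norm_num) (by norm_num) (by norm_num) (by norm_num) (by norm_num) (by norm_num) (by norm_num) (by norm_num) (by norm_num) (by norm_num) (by norm_num) (by norm_num)
    (cube_sqrt_geJ (s := 0.8726) (by norm_num) (by norm_num) (by norm_num) (by norm_num))
    (cube_sqrt_geJ (s := 0.9551) (by norm_num) (by norm_num) (by norm_num) (by norm_num))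
    (by norm_num) (by norm_num) (by norm_num) (by norm_num) (by norm_num) (by norm_num) (by norm_num) (by norm_num) (by norm_num) (by norm_num) (by norm_num) (by norm_num) (by norm_num) (by norm_num) (by norm_num) (by norm_num) (by norm_num) (by norm_num)
    (exp_neg_leJ (r := 0.976) 4 (by norm_num) (by norm_num) (by norm_num) (by norm_num))
    (exp_neg_leJ (r := 0.789) 3 (by norm_num) (by norm_num) (by norm_num) (by norm_num))
    (exp_neg_leJ (r := 0.142) 10 (by norm_num) (by norm_num) (by norm_num) (by norm_num))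
    (exp_neg_leJ (r := 0.99) 14 (by norm_num) (by norm_num) (by norm_num) (by norm_num))
    (exp_neg_leJ (r := 0.493) 5 (by norm_num) (by norm_num) (by norm_num) (by norm_num))
    (exp_neg_leJ (r := 0.11) 12 (by norm_num) (by norm_num) (by norm_num) (by norm_num))
    (exp_neg_leJ (r := 0.317) 12 (by norm_num) (by norm_num) (by norm_num) (by norm_num))
    (exp_neg_leJ (r := 0.99) 14 (by norm_num) (by norm_num) (by norm_num) (by norm_num))
    (by norm_num)) (by norm_num) hN hβ.le (by norm_num)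

private theorem B5Jo_T64_0_2 {β x y : ℝ} (hβ : 0 < β) (hN : β * 7.999 ≤ 1) (hx1 : 0.814 ≤ x) (hx2 : x ≤ 0.8536)
    (hy1 : -0 ≤ y) (hy2 : y ≤ 0.3611) : ‖HH β (x + y * I) - 1‖ ≤ 0.075 := by
  refine le_epsJ (C := 0.5666) (N0 := 7.999) (J_boxp 0.814 0.8536 0 0.3611 0.3611 1.2832 0.9269 1.6067 0.8721 0.5057 2.8283 7.999 0.7224 2.623 1.383 1.0918 0.6415 0.4871 1.2869 3.5907 0.7135 1.5902 1.6499 2.1189 0.005911 0.02038 0.00003388 0.0000003101 0.003326 0.000002994 0.000001857 0.0000003101 0.5666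
    hβ hN hx1 hx2 hy1 hy2 (by norm_num) (by norm_num) (by linarith) (by norm_num) (by norm_num) (by norm_num) (by norm_num) (by norm_num) (by norm_num) (by norm_num) (by norm_num) (by norm_num) (by norm_num) (by norm_num) (by norm_num) (by norm_num) (by norm_num) (by norm_num) (by norm_num) (by norm_num) (by norm_num) (by norm_num) (by norm_num) (by norm_num)
    (cube_sqrt_geJ (s := 0.8713) (by norm_num) (by norm_num) (by norm_num) (by norm_num))
    (cube_sqrt_geJ (s := 0.9547) (by norm_num) (by norm_num) (by norm_num) (by norm_num))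
    (by norm_num) (by norm_num) (by norm_num) (by norm_num) (by norm_num) (by norm_num) (by norm_num) (by norm_num) (by norm_num) (by norm_num) (by norm_num) (by norm_num) (by norm_num) (by norm_num) (by norm_num) (by norm_num) (by norm_num) (by norm_num)
    (exp_neg_leJ (r := 0.131) 5 (by norm_num) (by norm_num) (by norm_num) (by norm_num))
    (exp_neg_leJ (r := 0.896) 3 (by norm_num) (by norm_num) (by norm_num) (by norm_num))
    (exp_neg_leJ (r := 0.293) 10 (by norm_num) (by norm_num) (by norm_num) (by norm_num))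
    (exp_neg_leJ (r := 0.99) 14 (by norm_num) (by norm_num) (by norm_num) (by norm_num))
    (exp_neg_leJ (r := 0.707) 5 (by norm_num) (by norm_num) (by norm_num) (by norm_num))
    (exp_neg_leJ (r := 0.72) 12 (by norm_num) (by norm_num) (by norm_num) (by norm_num))
    (exp_neg_leJ (r := 0.197) 13 (by norm_num) (by norm_num) (by norm_num) (by norm_num))
    (exp_neg_leJ (r := 0.99) 14 (by norm_num) (by norm_num) (by norm_num) (by norm_num))
    (by norm_num)) (by norm_num) hN hβ.le (by norm_num)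

private theorem B5Jo_T64 {β x y : ℝ} (hβ : 0 < β) (hN : β * 7.999 ≤ 1) (hx1 : 0.7154 ≤ x) (hx2 : x ≤ 0.8536)
    (hy1 : 0.3169 ≤ y) (hy2 : y ≤ 0.3611) : ‖HH β (x + y * I) - 1‖ ≤ 0.075 := by
  rcases le_total x 0.759 with hxx | hxx
  · exact B5Jo_T64_0_0 hβ hN (by linarith) (by linarith) (by linarith) (by linarith)
  rcases le_total x 0.814 with hxx | hxx
  · exact B5Jo_T64_0_1 hβ hN (by linarith) (by linarith) (by linarith) (by linarith)
  exact B5Jo_T64_0_2 hβ hN (by linarith) (by linarith) (by linarith) (by linarith)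

private theorem B5Jo_U65 {β r t κ h t' : ℝ} (hβ : 0 < β) (hκ : κ = β * r) (hN : β * 7.999 ≤ 1) (hk1 : 1.15 ≤ κ) (hk2 : κ ≤ 1.25)
    (ht : t' = t + (((1 : ℤ) : ℝ) - 1) * h) (hD : DomR κ t') (hta : 0.7664 ≤ t' + κ) (htb : t' + κ ≤ 0.8801) :
    ‖Xf β r h t 1‖ ≤ 0.8696 * Real.exp (r * sE κ t') := by
  obtain ⟨⟨ya, yb⟩, ⟨xa, xb⟩, n1, Da, Db⟩ := B5Jo_B63 hD hk1 hk2 hta htb
  have J := B5Jo_T64 (x := sx κ t') (y := sy κ t') hβ hN (by linarith only [xa, xb, ya, yb]) (by linarith only [xa, xb, ya, yb]) (by linarith only [xa, xb, ya, yb]) (by linarith only [xa, xb, ya, yb])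
  exact v5_Jup (h := h) (t := t) (k := 1) hβ hκ ht hD 0.075 2.3355 0.8696 J Da (by norm_num) (by norm_num)

private theorem B5Jo_K66 {β r t κ h : ℝ} (hβ : 0 < β) (hr : 10 ≤ r) (hκ : κ = β * r) (hk1 : 1.15 ≤ κ) (hk2 : κ ≤ 1.25)
    (hh : h = 2 * Real.pi / 5) (hh1 : 1.25663 ≤ h) (hh2 : h ≤ 1.25664) (hta : 0.7665 ≤ t + κ) (htb : t + κ ≤ 0.88) (hN : β * 7.999 ≤ 1)
    (hD : DomR κ t) (hY : 0.6779 * Real.exp (r * sE κ (t - h)) ≤ ‖Xf β r h t 0‖) (hV : 1.04254 + 0.1998 * (t - h + κ) ≤ sE κ (t - h)) :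
    ‖Xf β r h t 1‖ ≤ 0.788 * ‖Xf β r h t 0‖ := by
  have hU := B5Jo_U65 (h := h) (t := t) hβ hκ hN hk1 hk2 (by push_cast; ring) hD (by linarith only [hta, htb, hh1, hh2]) (by linarith only [hta, htb, hh1, hh2])
  have hW := V_up hD 0.26 (B5Jo_G62 hk1 hk2).1
  exact v5_cmpJ 0.049 0.6137 0.788 hr hU hW hY (by norm_num) (by norm_num) (by norm_num) (by linarith only [hV, hta, htb, hh1, hh2]) (ex_un 0 0.4899 (by norm_num) (by norm_num) (by norm_num) (by norm_num)) (by norm_num)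

private theorem B5Jo_O67 {β r t κ h : ℝ} (hβ : 0 < β) (hr : 10 ≤ r) (hκ : κ = β * r) (hk1 : 1.15 ≤ κ) (hk2 : κ ≤ 1.25)
    (hh : h = 2 * Real.pi / 5) (hta : 0.7665 ≤ t + κ) (htb : t + κ ≤ 0.88) :
    ‖Xf β r h t (-2)‖ + ‖Xf β r h t (-1)‖ + ‖Xf β r h t 2‖ < |‖Xf β r h t 1‖ - ‖Xf β r h t 0‖| := by
  obtain ⟨hh1, hh2⟩ := v5_h hh
  have hκ0 : 0 < κ := by linarith only [hk1]
  have hN : β * 7.999 ≤ 1 := v5_hN 1.25 7.999 hβ hr hκ hk2 (by norm_num) (by norm_num)
  have hD1 : DomR κ t := v5_dom hκ0 (by linarith only [hta, htb, hk1, hk2, hh1, hh2]) (Or.inr (by linarith only [hta, htb, hk1, hk2, hh1, hh2]))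
  have hD0 : DomR κ (t - h) := v5_dom hκ0 (by linarith only [hta, htb, hk1, hk2, hh1, hh2]) (Or.inl (by linarith only [hk1]))
  have h0a : (-0.4902) ≤ t - h + κ := by linarith only [hta, htb, hh1, hh2]
  have h0b : t - h + κ ≤ (-0.3766) := by linarith only [hta, htb, hh1, hh2]
  have e0 : t - h = t + (((0 : ℤ) : ℝ) - 1) * h := by push_cast; ring
  have hY := B5Jo_Y57 (h := h) hβ hκ hN hk1 hk2 e0 hD0 h0a h0b
  have hV := B5Jo_V58 hD0 hk1 hk2 h0a h0b
  have cp2 := B5Jo_K59 hβ hr hκ hk1 hk2 hh hh1 hh2 hta htb hY hV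
  have cm1 := B5Jo_K60 hβ hr hκ hk1 hk2 hh hh1 hh2 hta htb hY hV
  have cm2 := B5Jo_K61 hβ hr hκ hk1 hk2 hh hh1 hh2 hta htb hY hV
  have cn1 := B5Jo_K66 hβ hr hκ hk1 hk2 hh hh1 hh2 hta htb hN hD1 hY hV
  have hp : 0 < ‖Xf β r h t 0‖ := lt_of_lt_of_le (by positivity) hY
  exact v5_out0 _ _ _ _ cm2 cm1 cp2 cn1 hp (by norm_num)

private theorem B5Jo_B68 {κ t : ℝ} (h : DomR κ t) (hk1 : 1.15 ≤ κ) (hk2 : κ ≤ 1.25) (ht1 : (-0.3767) ≤ t + κ) (ht2 : t + κ ≤ (-0.1886)) :
    ((-0.197) ≤ sy κ t ∧ sy κ t ≤ (-0.094)) ∧ (1.2478 ≤ sx κ t ∧ sx κ t ≤ 1.5193) ∧ κ * Real.exp (-sy κ t) ≤ 1.5222 ∧ 2.408 ≤ sD κ t ∧ sD κ t ≤ 2.9231 := by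
  have hy1 : -0.197 ≤ sy κ t := syL_ge h 1.15 1.25 0.3767 0.197 0.82119 0.8212 0.1294 0.12941 0.14068 hk1 hk2 (by linarith) (by norm_num) (by norm_num) (by norm_num)
    (expm_ge (by norm_num) (by norm_num) (by norm_num) (by norm_num)) (expm_le (by norm_num) (by norm_num) (by norm_num)) (by norm_num)
    (by norm_num) (by norm_num) (by norm_num) (by norm_num) (by norm_num) (by norm_num)
  have hy2 : sy κ t ≤ -0.094 := syL_le h 1.15 1.25 0.1886 0.094 0.91028 0.91029 0.06845 0.07441 hk1 hk2 (by linarith) (by norm_num) (by norm_num) (by norm_num)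
    (expm_ge (by norm_num) (by norm_num) (by norm_num) (by norm_num)) (expm_le (by norm_num) (by norm_num) (by norm_num)) (by norm_num)
    (by norm_num) (by norm_num) (by norm_num) (by norm_num) (by norm_num) (by norm_num)
  have hy1' : (-0.197) ≤ sy κ t := by linarith
  have hy2' : sy κ t ≤ (-0.094) := by linarith
  have hx1 : 1.2478 ≤ sx κ t := sx_lo h 1.15 (-0.094) 0.1971 1.09855 1.2478 hk1 (by norm_num) hy2' (abs_le.2 ⟨by linarith, by linarith⟩) (ex_lp 0.094 (by norm_num) (by norm_num) (by norm_num)) (by norm_num) (by norm_num)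
  have hx2 : sx κ t ≤ 1.5193 := sx_hi h 1.25 (-0.197) 0.094 1.21775 1.5193 hk2 hy1' (by norm_num) (le_trans (by linarith) (neg_le_abs _)) (ex_up 0.197 (by norm_num) (by norm_num) (by norm_num) (by norm_num)) (by norm_num) (by norm_num)
  refine ⟨⟨hy1', hy2'⟩, ⟨hx1, hx2⟩, v5_n h 1.25 (-0.197) 1.21775 1.5222 hk2 hy1' (ex_up 0.197 (by norm_num) (by norm_num) (by norm_num) (by norm_num)) (by norm_num), ?_, ?_⟩
  · exact v5_Dlo h 1.15 (-0.197) (-0.094) (-0.094) 1.09855 2.408 (by norm_num) hk1 hy1' hy2' (ex_lp 0.094 (by norm_num) (by norm_num) (by norm_num)) (by norm_num) (by norm_num) (by norm_num) (by norm_num)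
  · exact v5_Dup h 1.25 (-0.197) (-0.094) 1.21775 1.09856 2.9231 hk2 hy1' hy2' (ex_up 0.197 (by norm_num) (by norm_num) (by norm_num) (by norm_num)) (ex_up 0.094 (by norm_num) (by norm_num) (by norm_num) (by norm_num)) (by norm_num) (by norm_num) (by norm_num)

private theorem B5Jo_T69_0_0 {β x y : ℝ} (hβ : 0 < β) (hN : β * 7.999 ≤ 1) (hx1 : 1.2477 ≤ x) (hx2 : x ≤ 1.329)
    (hy1 : -0.1971 ≤ y) (hy2 : y ≤ -0.0939) : ‖HH β (x + y * I) - 1‖ ≤ 0.09 := by
  refine le_epsJ (C := 0.7199) (N0 := 7.999) (J_boxp 1.2477 1.329 0.1971 0 (-0.0939) 1.4486 1.3436 1.6085 0.7275 0.506 2.8283 7.999 0.9276 3.65 1.525 0.727 0.7242 0.5003 1.1242 2.7131 0.8533 2.2275 3.5303 3.5551 0.003057 0.0183 0.0001251 0.0000003101 0.001089 0.0000003101 0.0000003101 0.0000003101 0.7199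
    hβ hN hx1 hx2 hy1 hy2 (by norm_num) (by norm_num) (by linarith) (by norm_num) (by norm_num) (by norm_num) (by norm_num) (by norm_num) (by norm_num) (by norm_num) (by norm_num) (by norm_num) (by norm_num) (by norm_num) (by norm_num) (by norm_num) (by norm_num) (by norm_num) (by norm_num) (by norm_num) (by norm_num) (by norm_num) (by norm_num) (by norm_num)
    (cube_sqrt_geJ (s := 0.8311) (by norm_num) (by norm_num) (by norm_num) (by norm_num))
    (cube_sqrt_geJ (s := 0.9415) (by norm_num) (by norm_num) (by norm_num) (by norm_num))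
    (by norm_num) (by norm_num) (by norm_num) (by norm_num) (by norm_num) (by norm_num) (by norm_num) (by norm_num) (by norm_num) (by norm_num) (by norm_num) (by norm_num) (by norm_num) (by norm_num) (by norm_num) (by norm_num) (by norm_num) (by norm_num)
    (exp_neg_leJ (r := 0.792) 5 (by norm_num) (by norm_num) (by norm_num) (by norm_num))
    (exp_neg_leJ (r := 0.001) 4 (by norm_num) (by norm_num) (by norm_num) (by norm_num))
    (exp_neg_leJ (r := 0.99) 8 (by norm_num) (by norm_num) (by norm_num) (by norm_num))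
    (exp_neg_leJ (r := 0.99) 14 (by norm_num) (by norm_num) (by norm_num) (by norm_num))
    (exp_neg_leJ (r := 0.825) 6 (by norm_num) (by norm_num) (by norm_num) (by norm_num))
    (exp_neg_leJ (r := 0.99) 14 (by norm_num) (by norm_num) (by norm_num) (by norm_num))
    (exp_neg_leJ (r := 0.99) 14 (by norm_num) (by norm_num) (by norm_num) (by norm_num))
    (exp_neg_leJ (r := 0.99) 14 (by norm_num) (by norm_num) (by norm_num) (by norm_num))
    (by norm_num)) (by norm_num) hN hβ.le (by norm_num)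

private theorem B5Jo_T69_0_1 {β x y : ℝ} (hβ : 0 < β) (hN : β * 7.999 ≤ 1) (hx1 : 1.329 ≤ x) (hx2 : x ≤ 1.417)
    (hy1 : -0.1971 ≤ y) (hy2 : y ≤ -0.0939) : ‖HH β (x + y * I) - 1‖ ≤ 0.09 := by
  refine le_epsJ (C := 0.7198) (N0 := 7.999) (J_boxp 1.329 1.417 0.1971 0 (-0.0939) 1.5059 1.4307 1.682 0.7019 0.5174 2.8283 7.999 0.9501 3.793 1.542 0.6931 0.7529 0.5144 1.152 2.6625 0.8928 2.3401 3.6929 3.481 0.002425 0.01635 0.00009964 0.0000003101 0.000792 0.0000003101 0.0000003101 0.0000003101 0.7198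
    hβ hN hx1 hx2 hy1 hy2 (by norm_num) (by norm_num) (by linarith) (by norm_num) (by norm_num) (by norm_num) (by norm_num) (by norm_num) (by norm_num) (by norm_num) (by norm_num) (by norm_num) (by norm_num) (by norm_num) (by norm_num) (by norm_num) (by norm_num) (by norm_num) (by norm_num) (by norm_num) (by norm_num) (by norm_num) (by norm_num) (by norm_num)
    (cube_sqrt_geJ (s := 0.8266) (by norm_num) (by norm_num) (by norm_num) (by norm_num))
    (cube_sqrt_geJ (s := 0.94) (by norm_num) (by norm_num) (by norm_num) (by norm_num))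
    (by norm_num) (by norm_num) (by norm_num) (by norm_num) (by norm_num) (by norm_num) (by norm_num) (by norm_num) (by norm_num) (by norm_num) (by norm_num) (by norm_num) (by norm_num) (by norm_num) (by norm_num) (by norm_num) (by norm_num) (by norm_num)
    (exp_neg_leJ (r := 0.022) 6 (by norm_num) (by norm_num) (by norm_num) (by norm_num))
    (exp_neg_leJ (r := 0.114) 4 (by norm_num) (by norm_num) (by norm_num) (by norm_num))
    (exp_neg_leJ (r := 0.214) 9 (by norm_num) (by norm_num) (by norm_num) (by norm_num))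
    (exp_neg_leJ (r := 0.99) 14 (by norm_num) (by norm_num) (by norm_num) (by norm_num))
    (exp_neg_leJ (r := 0.141) 7 (by norm_num) (by norm_num) (by norm_num) (by norm_num))
    (exp_neg_leJ (r := 0.99) 14 (by norm_num) (by norm_num) (by norm_num) (by norm_num))
    (exp_neg_leJ (r := 0.99) 14 (by norm_num) (by norm_num) (by norm_num) (by norm_num))
    (exp_neg_leJ (r := 0.99) 14 (by norm_num) (by norm_num) (by norm_num) (by norm_num))
    (by norm_num)) (by norm_num) hN hβ.le (by norm_num)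

private theorem B5Jo_T69_0_2 {β x y : ℝ} (hβ : 0 < β) (hN : β * 7.999 ≤ 1) (hx1 : 1.417 ≤ x) (hx2 : x ≤ 1.512)
    (hy1 : -0.1971 ≤ y) (hy2 : y ≤ -0.0939) : ‖HH β (x + y * I) - 1‖ ≤ 0.09 := by
  refine le_epsJ (C := 0.7198) (N0 := 7.999) (J_boxp 1.417 1.512 0.1971 0 (-0.0939) 1.5678 1.5248 1.7628 0.6764 0.5297 2.8283 7.999 0.9726 3.942 1.559 0.6566 0.7838 0.5297 1.1822 2.6078 0.9356 2.4619 3.8689 3.4012 0.001895 0.01446 0.00007823 0.0000003101 0.0005627 0.0000003101 0.0000003101 0.0000003101 0.7198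
    hβ hN hx1 hx2 hy1 hy2 (by norm_num) (by norm_num) (by linarith) (by norm_num) (by norm_num) (by norm_num) (by norm_num) (by norm_num) (by norm_num) (by norm_num) (by norm_num) (by norm_num) (by norm_num) (by norm_num) (by norm_num) (by norm_num) (by norm_num) (by norm_num) (by norm_num) (by norm_num) (by norm_num) (by norm_num) (by norm_num) (by norm_num)
    (cube_sqrt_geJ (s := 0.822) (by norm_num) (by norm_num) (by norm_num) (by norm_num))
    (cube_sqrt_geJ (s := 0.9385) (by norm_num) (by norm_num) (by norm_num) (by norm_num))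
    (by norm_num) (by norm_num) (by norm_num) (by norm_num) (by norm_num) (by norm_num) (by norm_num) (by norm_num) (by norm_num) (by norm_num) (by norm_num) (by norm_num) (by norm_num) (by norm_num) (by norm_num) (by norm_num) (by norm_num) (by norm_num)
    (exp_neg_leJ (r := 0.269) 6 (by norm_num) (by norm_num) (by norm_num) (by norm_num))
    (exp_neg_leJ (r := 0.237) 4 (by norm_num) (by norm_num) (by norm_num) (by norm_num))
    (exp_neg_leJ (r := 0.456) 9 (by norm_num) (by norm_num) (by norm_num) (by norm_num))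
    (exp_neg_leJ (r := 0.99) 14 (by norm_num) (by norm_num) (by norm_num) (by norm_num))
    (exp_neg_leJ (r := 0.483) 7 (by norm_num) (by norm_num) (by norm_num) (by norm_num))
    (exp_neg_leJ (r := 0.99) 14 (by norm_num) (by norm_num) (by norm_num) (by norm_num))
    (exp_neg_leJ (r := 0.99) 14 (by norm_num) (by norm_num) (by norm_num) (by norm_num))
    (exp_neg_leJ (r := 0.99) 14 (by norm_num) (by norm_num) (by norm_num) (by norm_num))
    (by norm_num)) (by norm_num) hN hβ.le (by norm_num)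

private theorem B5Jo_T69_0_3 {β x y : ℝ} (hβ : 0 < β) (hN : β * 7.999 ≤ 1) (hx1 : 1.512 ≤ x) (hx2 : x ≤ 1.5194)
    (hy1 : -0.1971 ≤ y) (hy2 : y ≤ -0.0939) : ‖HH β (x + y * I) - 1‖ ≤ 0.09 := by
  refine le_epsJ (C := 0.6021) (N0 := 7.999) (J_boxp 1.512 1.5194 0.1971 0 (-0.0939) 1.6347 1.5322 1.7691 0.6364 0.5307 2.8283 7.999 0.9373 3.711 1.533 0.6537 0.8173 0.5619 1.2147 2.6035 0.9817 2.5935 4.0589 3.5711 0.00145 0.01118 0.00006037 0.0000003101 0.0003897 0.0000003101 0.0000003101 0.0000003101 0.6021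
    hβ hN hx1 hx2 hy1 hy2 (by norm_num) (by norm_num) (by linarith) (by norm_num) (by norm_num) (by norm_num) (by norm_num) (by norm_num) (by norm_num) (by norm_num) (by norm_num) (by norm_num) (by norm_num) (by norm_num) (by norm_num) (by norm_num) (by norm_num) (by norm_num) (by norm_num) (by norm_num) (by norm_num) (by norm_num) (by norm_num) (by norm_num)
    (cube_sqrt_geJ (s := 0.8291) (by norm_num) (by norm_num) (by norm_num) (by norm_num))
    (cube_sqrt_geJ (s := 0.9408) (by norm_num) (by norm_num) (by norm_num) (by norm_num))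
    (by norm_num) (by norm_num) (by norm_num) (by norm_num) (by norm_num) (by norm_num) (by norm_num) (by norm_num) (by norm_num) (by norm_num) (by norm_num) (by norm_num) (by norm_num) (by norm_num) (by norm_num) (by norm_num) (by norm_num) (by norm_num)
    (exp_neg_leJ (r := 0.537) 6 (by norm_num) (by norm_num) (by norm_num) (by norm_num))
    (exp_neg_leJ (r := 0.494) 4 (by norm_num) (by norm_num) (by norm_num) (by norm_num))
    (exp_neg_leJ (r := 0.716) 9 (by norm_num) (by norm_num) (by norm_num) (by norm_num))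
    (exp_neg_leJ (r := 0.99) 14 (by norm_num) (by norm_num) (by norm_num) (by norm_num))
    (exp_neg_leJ (r := 0.852) 7 (by norm_num) (by norm_num) (by norm_num) (by norm_num))
    (exp_neg_leJ (r := 0.99) 14 (by norm_num) (by norm_num) (by norm_num) (by norm_num))
    (exp_neg_leJ (r := 0.99) 14 (by norm_num) (by norm_num) (by norm_num) (by norm_num))
    (exp_neg_leJ (r := 0.99) 14 (by norm_num) (by norm_num) (by norm_num) (by norm_num))
    (by norm_num)) (by norm_num) hN hβ.le (by norm_num)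

private theorem B5Jo_T69 {β x y : ℝ} (hβ : 0 < β) (hN : β * 7.999 ≤ 1) (hx1 : 1.2477 ≤ x) (hx2 : x ≤ 1.5194)
    (hy1 : (-0.1971) ≤ y) (hy2 : y ≤ (-0.0939)) : ‖HH β (x + y * I) - 1‖ ≤ 0.09 := by
  rcases le_total x 1.329 with hxx | hxx
  · exact B5Jo_T69_0_0 hβ hN (by linarith) (by linarith) (by linarith) (by linarith)
  rcases le_total x 1.417 with hxx | hxx
  · exact B5Jo_T69_0_1 hβ hN (by linarith) (by linarith) (by linarith) (by linarith)
  rcases le_total x 1.512 with hxx | hxx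
  · exact B5Jo_T69_0_2 hβ hN (by linarith) (by linarith) (by linarith) (by linarith)
  exact B5Jo_T69_0_3 hβ hN (by linarith) (by linarith) (by linarith) (by linarith)

private theorem B5Jo_G70 {κ : ℝ} (hk1 : 1.15 ≤ κ) (hk2 : κ ≤ 1.25) : gG κ 0.44 ≤ 1.30761 ∧ 0.33285 ≤ Real.exp (-(κ * 0.44)) ^ 2 := by
  refine ⟨gG_le 0.44 1.15 1.25 1.30761 0.60291 0.57696 1.65865 1.73326 hk1 hk2 (by norm_num)
    (ex_um 0.506 (by norm_num) (by norm_num) (by norm_num) (by norm_num)) (ex_um 0.55 (by norm_num) (by norm_num) (by norm_num) (by norm_num))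
    (ex_up 0.506 (by norm_num) (by norm_num) (by norm_num) (by norm_num)) (ex_up 0.55 (by norm_num) (by norm_num) (by norm_num) (by norm_num))
    (by norm_num) (by norm_num), ?_⟩
  exact v5_M 0.57694 (ex_lm 0.55 (by linarith) (by norm_num) (by norm_num) (by norm_num) (by norm_num)) (by norm_num) (by norm_num)

private theorem B5Jo_C71 {β r t κ : ℝ} (hβ : 0 < β) (hr : 10 ≤ r) (hκ : κ = β * r) (hk1 : 1.15 ≤ κ) (hk2 : κ ≤ 1.25) (hta : 2.1366 ≤ t + κ)
    (htb : t + κ ≤ 2.3247) : ‖F (cexp (I * β)) (r * cexp (I * ((t + β / 2 : ℝ) : ℂ)))‖ ≤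
      2.0539 * Real.exp (r * (1.30761 - 0.44 * (t + κ))) + 0.1986 * Real.exp (r * 0) :=
  v5_H 0.44 1.15 1.25 2.1366 2.3247 1.30761 1.8696 0.33285 0.1411 2.4572 0.3959 0.06645 0.5171 0.0000638 2.0539 0.1986 hβ hr hκ (by norm_num) hk1 hk2 hta htb (by norm_num) (B5Jo_G70 hk1 hk2).1 (B5Jo_G70 hk1 hk2).2 (by norm_num) (by norm_num) (by norm_num)
    (by norm_num) (by norm_num) (by norm_num) (by norm_num) (by norm_num) (by norm_num) (by norm_num) (by norm_num) (ex_un 0 0.6644 (by norm_num) (by norm_num) (by norm_num) (by norm_num))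
    (v5_hump 1.2394 7.999 2.8283 0.0000502 0.0000638 hβ hr hκ hk1 hk2 (by norm_num) htb (by norm_num) (by norm_num) (by norm_num) (by norm_num) (by norm_num) (by norm_num) (by norm_num) (ex_un 9 0.9139 (by norm_num) (by norm_num) (by norm_num) (by norm_num)) (by norm_num)) (by norm_num) (by norm_num)

private theorem B5Jo_G72 {κ : ℝ} (hk1 : 1.15 ≤ κ) (hk2 : κ ≤ 1.25) : gG κ (-0.57) ≤ 1.40682 ∧ 3.70982 ≤ Real.exp (-(κ * (-0.57))) ^ 2 := by
  refine ⟨gG_le (-0.57) 1.15 1.25 1.40682 1.92611 2.03909 0.51919 0.49043 hk1 hk2 (by norm_num)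
    (ex_up 0.6555 (by norm_num) (by norm_num) (by norm_num) (by norm_num)) (ex_up 0.7125 (by norm_num) (by norm_num) (by norm_num) (by norm_num))
    (ex_um 0.6555 (by norm_num) (by norm_num) (by norm_num) (by norm_num)) (ex_um 0.7125 (by norm_num) (by norm_num) (by norm_num) (by norm_num))
    (by norm_num) (by norm_num), ?_⟩
  exact v5_M 1.92609 (ex_lp 0.6555 (by linarith) (by norm_num) (by norm_num)) (by norm_num) (by norm_num)

private theorem B5Jo_C73 {β r t κ : ℝ} (hβ : 0 < β) (hr : 10 ≤ r) (hκ : κ = β * r) (hk1 : 1.15 ≤ κ) (hk2 : κ ≤ 1.25) (hta : (-1.6333) ≤ t + κ)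
    (htb : t + κ ≤ (-1.4452)) : ‖F (cexp (I * β)) (r * cexp (I * ((t + β / 2 : ℝ) : ℂ)))‖ ≤
      0.842 * Real.exp (r * (1.40682 - (-0.57) * (t + κ))) + 1.6645 * Real.exp (r * 0.0501) :=
  v5_HU (-0.57) 1.15 1.25 (-1.6333) (-1.4452) 1.40682 0.842 3.70982 0.1411 0.7136 1.8286 0 0.0501 0.00000119 1.6645 hβ hr hκ (by norm_num) hk1 hk2 hta htb (by norm_num) (by norm_num) (B5Jo_G72 hk1 hk2).1 (B5Jo_G72 hk1 hk2).2 (by norm_num) (by norm_num) (by norm_num)
    (by norm_num) (by norm_num) (by norm_num) (by norm_num) (by norm_num) (by norm_num) (by norm_num)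
    (by norm_num) (by norm_num) (by norm_num) (v5_hump 5.0093 7.999 2.8283 0.0000009316 0.00000119 hβ hr hκ hk1 hk2 (by norm_num) htb (by norm_num) (by norm_num) (by norm_num) (by norm_num) (by norm_num) (by norm_num) (by norm_num) (ex_un 13 0.9 (by norm_num) (by norm_num) (by norm_num) (by norm_num)) (by norm_num)) (by norm_num)

private theorem B5Jo_C74 {β r t κ : ℝ} (hβ : 0 < β) (hr : 10 ≤ r) (hκ : κ = β * r) (hk1 : 1.15 ≤ κ) (hk2 : κ ≤ 1.25) (hta : 3.3932 ≤ t + κ)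
    (htb : t + κ ≤ 3.5813) : ‖F (cexp (I * β)) (r * cexp (I * ((t + β / 2 : ℝ) : ℂ)))‖ ≤
      1.9907 * Real.exp (r * (0.0138 + 1 / 20)) :=
  v5_UD 1.15 1.25 3.3932 3.5813 0.01 0.3721 0.0138 1.0378 1.9907 hβ hr hκ (by norm_num) hk1 hk2 hta htb (by norm_num) (by norm_num) (by norm_num) (by norm_num) (by norm_num) (by norm_num) (by norm_num) (by norm_num) (by norm_num) (by norm_num) (by norm_num)

private theorem B5Jo_Y75 {β r t κ h t' : ℝ} (hβ : 0 < β) (hκ : κ = β * r) (hN : β * 7.999 ≤ 1) (hk1 : 1.15 ≤ κ) (hk2 : κ ≤ 1.25)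
    (ht : t' = t + (((0 : ℤ) : ℝ) - 1) * h) (hD : DomR κ t') (hta : (-0.3767) ≤ t' + κ) (htb : t' + κ ≤ (-0.1886)) :
    0.6959 * Real.exp (r * sE κ t') ≤ ‖Xf β r h t 0‖ := by
  obtain ⟨⟨ya, yb⟩, ⟨xa, xb⟩, n1, Da, Db⟩ := B5Jo_B68 hD hk1 hk2 hta htb
  have J := B5Jo_T69 (x := sx κ t') (y := sy κ t') hβ hN (by linarith only [xa, xb, ya, yb]) (by linarith only [xa, xb, ya, yb]) (by linarith only [xa, xb, ya, yb]) (by linarith only [xa, xb, ya, yb])
  exact v5_Jlo hβ hκ (k := 0) ht hD 0.09 2.9231 0.6959 (by norm_num) J Db (by norm_num)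

private theorem B5Jo_V76 {κ t : ℝ} (hD : DomR κ t) (hk1 : 1.15 ≤ κ) (hk2 : κ ≤ 1.25) (hta : (-0.3767) ≤ t + κ) (htb : t + κ ≤ (-0.1886)) :
    1.01607 + 0.128 * (t + κ) ≤ sE κ t := by
  have hκ0 : 0 < κ := hD.1
  exact v5_V0 hD 1.15 1.25 (-0.3767) (-0.1886) 0.3768 0.526 0.05961 0.19489 0.07983 0.53822 1.01607 0.128 (by norm_num) hk1 hk2 (by norm_num) hta htb (by norm_num) (by norm_num) (by norm_num) ((cup2 1.15 (by norm_num) hk1).trans (by norm_num))
      (by norm_num) (by norm_num) (by norm_num) (by norm_num) (by norm_num) (by norm_num) (by norm_num) (by norm_num) (by norm_num) (by norm_num) (by norm_num) (by norm_num) (by norm_num)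

private theorem B5Jo_K77 {β r t κ h : ℝ} (hβ : 0 < β) (hr : 10 ≤ r) (hκ : κ = β * r) (hk1 : 1.15 ≤ κ) (hk2 : κ ≤ 1.25)
    (hh : h = 2 * Real.pi / 5) (hh1 : 1.25663 ≤ h) (hh2 : h ≤ 1.25664) (hta : 0.88 ≤ t + κ) (htb : t + κ ≤ 1.068)
    (hY : 0.6959 * Real.exp (r * sE κ (t - h)) ≤ ‖Xf β r h t 0‖) (hV : 1.01607 + 0.128 * (t - h + κ) ≤ sE κ (t - h)) :
    ‖Xf β r h t 2‖ ≤ 0.00732 * ‖Xf β r h t 0‖ := by
  rw [v5_X 2 1 (by push_cast; ring)]
  exact v5_cmp 0.6003 0.002472 0.0073 0.9678 0.00006298 0.000018 0.00732 hr (B5Jo_C71 (t := t + 1 * h) hβ hr hκ hk1 hk2 (by linarith only [hta, htb, hh1, hh2]) (by linarith only [hta, htb, hh1, hh2])) hY (by norm_num) (by norm_num) (by norm_num) (by norm_num) (by linarith only [hV, hta, htb, hh1, hh2]) (ex_un 6 0.0029 (by norm_num) (by norm_num) (by norm_num) (by norm_num)) (by norm_num) (by norm_num) (by linarith only [hV, hta, htb, hh1, hh2]) (ex_un 9 0.6779 (by norm_num) (by norm_num) (by norm_num)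 (by norm_num)) (by norm_num) (by norm_num)

private theorem B5Jo_K78 {β r t κ h : ℝ} (hβ : 0 < β) (hr : 10 ≤ r) (hκ : κ = β * r) (hk1 : 1.15 ≤ κ) (hk2 : κ ≤ 1.25)
    (hh : h = 2 * Real.pi / 5) (hh1 : 1.25663 ≤ h) (hh2 : h ≤ 1.25664) (hta : 0.88 ≤ t + κ) (htb : t + κ ≤ 1.068)
    (hY : 0.6959 * Real.exp (r * sE κ (t - h)) ≤ ‖Xf β r h t 0‖) (hV : 1.01607 + 0.128 * (t - h + κ) ≤ sE κ (t - h)) :
    ‖Xf β r h t (-1)‖ ≤ 0.0206 * ‖Xf β r h t 0‖ := by
  rw [v5_X (-1) (-2) (by push_cast; ring)]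
  exact v5_cmp 0.4089 0.01676 0.0203 0.9177 0.0001035 0.000248 0.0206 hr (B5Jo_C73 (t := t + (-2) * h) hβ hr hκ hk1 hk2 (by linarith only [hta, htb, hh1, hh2]) (by linarith only [hta, htb, hh1, hh2])) hY (by norm_num) (by norm_num) (by norm_num) (by norm_num) (by linarith only [hV, hta, htb, hh1, hh2]) (ex_un 4 0.0889 (by norm_num) (by norm_num) (by norm_num) (by norm_num)) (by norm_num) (by norm_num) (by linarith only [hV, hta, htb, hh1, hh2]) (ex_un 9 0.1769 (by norm_num) (by norm_num) (by norm_num) (by norm_num)) (by norm_num) (by norm_num)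

private theorem B5Jo_K79 {β r t κ h : ℝ} (hβ : 0 < β) (hr : 10 ≤ r) (hκ : κ = β * r) (hk1 : 1.15 ≤ κ) (hk2 : κ ≤ 1.25)
    (hh : h = 2 * Real.pi / 5) (hh1 : 1.25663 ≤ h) (hh2 : h ≤ 1.25664) (hta : 0.88 ≤ t + κ) (htb : t + κ ≤ 1.068)
    (hY : 0.6959 * Real.exp (r * sE κ (t - h)) ≤ ‖Xf β r h t 0‖) (hV : 1.01607 + 0.128 * (t - h + κ) ≤ sE κ (t - h)) :
    ‖Xf β r h t (-2)‖ ≤ 0.00034 * ‖Xf β r h t 0‖ := by
  rw [v5_Xm2 hh]
  exact v5_cmp0 0.904 0.0001186 0.00034 hr (B5Jo_C74 (t := t + 2 * h) hβ hr hκ hk1 hk2 (by linarith only [hta, htb, hh1, hh2]) (by linarith only [hta, htb, hh1, hh2])) hY (by norm_num) (by norm_num) (by norm_num) (by linarith only [hV, hta, htb, hh1, hh2]) (ex_un 9 0.0399 (by norm_num) (by norm_num) (by norm_num) (by norm_num)) (by norm_num)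

private theorem B5Jo_C80 {β r t κ : ℝ} (hβ : 0 < β) (hr : 10 ≤ r) (hκ : κ = β * r) (hk1 : 1.15 ≤ κ) (hk2 : κ ≤ 1.25) (hta : 0.8799 ≤ t + κ)
    (htb : t + κ ≤ 1.0681) : ‖F (cexp (I * β)) (r * cexp (I * ((t + β / 2 : ℝ) : ℂ)))‖ ≤
      1.3935 * Real.exp (r * (1.09489 - 0.26 * (t + κ))) + 0.2587 * Real.exp (r * 0) :=
  v5_H 0.26 1.15 1.25 0.8799 1.0681 1.09489 1.3911 0.52203 0.1411 1.2005 1.6525 0.36148 0.02703 0.00000119 1.3935 0.2587 hβ hr hκ (by norm_num) hk1 hk2 hta htb (by norm_num) (B5Jo_G62 hk1 hk2).1 (B5Jo_G62 hk1 hk2).2 (by norm_num) (by norm_num) (by norm_num)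
    (by norm_num) (by norm_num) (by norm_num) (by norm_num) (by norm_num) (by norm_num) (by norm_num) (by norm_num) (ex_un 3 0.6147 (by norm_num) (by norm_num) (by norm_num) (by norm_num))
    (v5_hump 2.496 7.999 2.8283 0.0000009316 0.00000119 hβ hr hκ hk1 hk2 (by norm_num) htb (by norm_num) (by norm_num) (by norm_num) (by norm_num) (by norm_num) (by norm_num) (by norm_num) (ex_un 13 0.9 (by norm_num) (by norm_num) (by norm_num) (by norm_num)) (by norm_num)) (by norm_num) (by norm_num)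

private theorem B5Jo_K81 {β r t κ h : ℝ} (hβ : 0 < β) (hr : 10 ≤ r) (hκ : κ = β * r) (hk1 : 1.15 ≤ κ) (hk2 : κ ≤ 1.25)
    (hh : h = 2 * Real.pi / 5) (hh1 : 1.25663 ≤ h) (hh2 : h ≤ 1.25664) (hta : 0.88 ≤ t + κ) (htb : t + κ ≤ 1.068)
    (hY : 0.6959 * Real.exp (r * sE κ (t - h)) ≤ ‖Xf β r h t 0‖) (hV : 1.01607 + 0.128 * (t - h + κ) ≤ sE κ (t - h)) :
    ‖Xf β r h t 1‖ ≤ 0.726 * ‖Xf β r h t 0‖ := by
  rw [v5_X 1 0 (by push_cast; ring)]
  exact v5_cmp 0.1017 0.3618 0.725 0.9678 0.00006298 0.0000235 0.726 hr (B5Jo_C80 (t := t + 0 * h) hβ hr hκ hk1 hk2 (by linarith only [hta, htb, hh1, hh2]) (by linarith only [hta, htb, hh1, hh2])) hY (by norm_num) (by norm_num) (by norm_num) (by norm_num) (by linarith only [hV, hta, htb, hh1, hh2]) (ex_un 1 0.0169 (by norm_num) (by norm_num) (by norm_num) (by norm_num)) (by norm_num) (by norm_num) (by linarith only [hV, hta, htb, hh1, hh2]) (ex_un 9 0.6779 (by norm_num) (by norm_num) (by norm_num)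 (by norm_num)) (by norm_num) (by norm_num)

private theorem B5Jo_O82 {β r t κ h : ℝ} (hβ : 0 < β) (hr : 10 ≤ r) (hκ : κ = β * r) (hk1 : 1.15 ≤ κ) (hk2 : κ ≤ 1.25)
    (hh : h = 2 * Real.pi / 5) (hta : 0.88 ≤ t + κ) (htb : t + κ ≤ 1.068) :
    ‖Xf β r h t (-2)‖ + ‖Xf β r h t (-1)‖ + ‖Xf β r h t 2‖ < |‖Xf β r h t 1‖ - ‖Xf β r h t 0‖| := by
  obtain ⟨hh1, hh2⟩ := v5_h hh
  have hκ0 : 0 < κ := by linarith only [hk1]
  have hN : β * 7.999 ≤ 1 := v5_hN 1.25 7.999 hβ hr hκ hk2 (by norm_num) (by norm_num)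
  have hD1 : DomR κ t := v5_dom hκ0 (by linarith only [hta, htb, hk1, hk2, hh1, hh2]) (Or.inr (by linarith only [hta, htb, hk1, hk2, hh1, hh2]))
  have hD0 : DomR κ (t - h) := v5_dom hκ0 (by linarith only [hta, htb, hk1, hk2, hh1, hh2]) (Or.inl (by linarith only [hk1]))
  have h0a : (-0.3767) ≤ t - h + κ := by linarith only [hta, htb, hh1, hh2]
  have h0b : t - h + κ ≤ (-0.1886) := by linarith only [hta, htb, hh1, hh2]
  have e0 : t - h = t + (((0 : ℤ) : ℝ) - 1) * h := by push_cast; ring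
  have hY := B5Jo_Y75 (h := h) hβ hκ hN hk1 hk2 e0 hD0 h0a h0b
  have hV := B5Jo_V76 hD0 hk1 hk2 h0a h0b
  have cp2 := B5Jo_K77 hβ hr hκ hk1 hk2 hh hh1 hh2 hta htb hY hV
  have cm1 := B5Jo_K78 hβ hr hκ hk1 hk2 hh hh1 hh2 hta htb hY hV
  have cm2 := B5Jo_K79 hβ hr hκ hk1 hk2 hh hh1 hh2 hta htb hY hV
  have cn1 := B5Jo_K81 hβ hr hκ hk1 hk2 hh hh1 hh2 hta htb hY hV
  have hp : 0 < ‖Xf β r h t 0‖ := lt_of_lt_of_le (by positivity) hY
  exact v5_out0 _ _ _ _ cm2 cm1 cp2 cn1 hp (by norm_num)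

private theorem B5Jo_B83 {κ t : ℝ} (h : DomR κ t) (hk1 : 1.15 ≤ κ) (hk2 : κ ≤ 1.25) (ht1 : (-0.1887) ≤ t + κ) (ht2 : t + κ ≤ 0.0629) :
    ((-0.097) ≤ sy κ t ∧ sy κ t ≤ 0.031) ∧ (1.1106 ≤ sx κ t ∧ sx κ t ≤ 1.3774) ∧ κ * Real.exp (-sy κ t) ≤ 1.3774 ∧ 2.3049 ≤ sD κ t ∧ sD κ t ≤ 2.7031 := by
  have hy1 : -0.097 ≤ sy κ t := syL_ge h 1.15 1.25 0.1887 0.097 0.90755 0.90756 0.0688 0.07042 0.07656 hk1 hk2 (by linarith) (by norm_num) (by norm_num) (by norm_num)
    (expm_ge (by norm_num) (by norm_num) (by norm_num) (by norm_num)) (expm_le (by norm_num) (by norm_num) (by norm_num)) (by norm_num)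
    (by norm_num) (by norm_num) (by norm_num) (by norm_num) (by norm_num) (by norm_num)
  have hy2 : sy κ t ≤ 0.031 := syR_le h 1.15 1.25 0.0629 0.031 1.03148 0.025 0.02558 0.02781 hk1 hk2 (by linarith) (by norm_num) (by norm_num)
    (expn_ge (by norm_num) (by norm_num)) (by norm_num) (by norm_num) (Or.inr ((mul_le_mul_of_nonneg_left (expn_le (E := 1.03149) (by norm_num) (by norm_num) (by norm_num)) (by norm_num)).trans (by norm_num))) (by norm_num) (by norm_num) (by norm_num)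
  have hy1' : (-0.097) ≤ sy κ t := by linarith
  have hy2' : sy κ t ≤ 0.031 := by linarith
  have hx1 : 1.1106 ≤ sx κ t := sx_lo h 1.15 0.031 0.0971 0.96947 1.1106 hk1 (by norm_num) hy2' (abs_le.2 ⟨by linarith, by linarith⟩) (ex_lm 0.031 (by norm_num) (by norm_num) (by norm_num) (by norm_num) (by norm_num)) (by norm_num) (by norm_num)
  have hx2 : sx κ t ≤ 1.3774 := sx_hi h 1.25 (-0.097) 0 1.10187 1.3774 hk2 hy1' (by norm_num) (abs_nonneg _) (ex_up 0.097 (by norm_num) (by norm_num) (by norm_num) (by norm_num)) (by norm_num) (by norm_num)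
  refine ⟨⟨hy1', hy2'⟩, ⟨hx1, hx2⟩, v5_n h 1.25 (-0.097) 1.10187 1.3774 hk2 hy1' (ex_up 0.097 (by norm_num) (by norm_num) (by norm_num) (by norm_num)) (by norm_num), ?_, ?_⟩
  · exact v5_Dlo h 1.15 (-0.097) 0.031 0.031 0.96947 2.3049 (by norm_num) hk1 hy1' hy2' (ex_lm 0.031 (by norm_num) (by norm_num) (by norm_num) (by norm_num) (by norm_num)) (by norm_num) (by norm_num) (by norm_num) (by norm_num)
  · exact v5_Dup h 1.25 (-0.097) 0.031 1.10187 0.96948 2.7031 hk2 hy1' hy2' (ex_up 0.097 (by norm_num) (by norm_num) (by norm_num) (by norm_num)) (ex_um 0.031 (by norm_num) (by norm_num) (by norm_num) (by norm_num)) (by norm_num) (by norm_num) (by norm_num)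

private theorem B5Jo_T84_0_0 {β x y : ℝ} (hβ : 0 < β) (hN : β * 7.999 ≤ 1) (hx1 : 1.1105 ≤ x) (hx2 : x ≤ 1.2)
    (hy1 : -0.0971 ≤ y) (hy2 : y ≤ 0.0311) : ‖HH β (x + y * I) - 1‖ ≤ 0.075 := by
  refine le_epsJ (C := 0.5996) (N0 := 7.999) (J_boxp 1.1105 1.2 0.0971 0.0311 0.0311 1.423 1.204 1.5822 0.7411 0.5019 2.8283 7.999 0.8461 3.189 1.467 0.8689 0.7114 0.5108 1.2351 3.1044 0.8381 2.0344 3.3943 3.5137 0.003383 0.01683 0.00005135 0.0000003101 0.001229 0.0000003101 0.0000003101 0.0000003101 0.5996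
    hβ hN hx1 hx2 hy1 hy2 (by norm_num) (by norm_num) (by linarith) (by norm_num) (by norm_num) (by norm_num) (by norm_num) (by norm_num) (by norm_num) (by norm_num) (by norm_num) (by norm_num) (by norm_num) (by norm_num) (by norm_num) (by norm_num) (by norm_num) (by norm_num) (by norm_num) (by norm_num) (by norm_num) (by norm_num) (by norm_num) (by norm_num)
    (cube_sqrt_geJ (s := 0.8473) (by norm_num) (by norm_num) (by norm_num) (by norm_num))
    (cube_sqrt_geJ (s := 0.9467) (by norm_num) (by norm_num) (by norm_num) (by norm_num))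
    (by norm_num) (by norm_num) (by norm_num) (by norm_num) (by norm_num) (by norm_num) (by norm_num) (by norm_num) (by norm_num) (by norm_num) (by norm_num) (by norm_num) (by norm_num) (by norm_num) (by norm_num) (by norm_num) (by norm_num) (by norm_num)
    (exp_neg_leJ (r := 0.69) 5 (by norm_num) (by norm_num) (by norm_num) (by norm_num))
    (exp_neg_leJ (r := 0.085) 4 (by norm_num) (by norm_num) (by norm_num) (by norm_num))
    (exp_neg_leJ (r := 0.879) 9 (by norm_num) (by norm_num) (by norm_num) (by norm_num))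
    (exp_neg_leJ (r := 0.99) 14 (by norm_num) (by norm_num) (by norm_num) (by norm_num))
    (exp_neg_leJ (r := 0.703) 6 (by norm_num) (by norm_num) (by norm_num) (by norm_num))
    (exp_neg_leJ (r := 0.99) 14 (by norm_num) (by norm_num) (by norm_num) (by norm_num))
    (exp_neg_leJ (r := 0.99) 14 (by norm_num) (by norm_num) (by norm_num) (by norm_num))
    (exp_neg_leJ (r := 0.99) 14 (by norm_num) (by norm_num) (by norm_num) (by norm_num))
    (by norm_num)) (by norm_num) hN hβ.le (by norm_num)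

private theorem B5Jo_T84_0_1 {β x y : ℝ} (hβ : 0 < β) (hN : β * 7.999 ≤ 1) (hx1 : 1.2 ≤ x) (hx2 : x ≤ 1.294)
    (hy1 : -0.0971 ≤ y) (hy2 : y ≤ 0.0311) : ‖HH β (x + y * I) - 1‖ ≤ 0.075 := by
  refine le_epsJ (C := 0.5987) (N0 := 7.999) (J_boxp 1.2 1.294 0.0971 0.0311 0.0311 1.486 1.2977 1.6546 0.7101 0.5132 2.8283 7.999 0.8733 3.335 1.486 0.8327 0.7429 0.5267 1.2657 3.0502 0.8816 2.1583 3.5733 3.438 0.002635 0.01481 0.00004011 0.0000003101 0.0008666 0.0000003101 0.0000003101 0.0000003101 0.5987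
    hβ hN hx1 hx2 hy1 hy2 (by norm_num) (by norm_num) (by linarith) (by norm_num) (by norm_num) (by norm_num) (by norm_num) (by norm_num) (by norm_num) (by norm_num) (by norm_num) (by norm_num) (by norm_num) (by norm_num) (by norm_num) (by norm_num) (by norm_num) (by norm_num) (by norm_num) (by norm_num) (by norm_num) (by norm_num) (by norm_num) (by norm_num)
    (cube_sqrt_geJ (s := 0.8419) (by norm_num) (by norm_num) (by norm_num) (by norm_num))
    (cube_sqrt_geJ (s := 0.945) (by norm_num) (by norm_num) (by norm_num) (by norm_num))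
    (by norm_num) (by norm_num) (by norm_num) (by norm_num) (by norm_num) (by norm_num) (by norm_num) (by norm_num) (by norm_num) (by norm_num) (by norm_num) (by norm_num) (by norm_num) (by norm_num) (by norm_num) (by norm_num) (by norm_num) (by norm_num)
    (exp_neg_leJ (r := 0.942) 5 (by norm_num) (by norm_num) (by norm_num) (by norm_num))
    (exp_neg_leJ (r := 0.213) 4 (by norm_num) (by norm_num) (by norm_num) (by norm_num))
    (exp_neg_leJ (r := 0.124) 10 (by norm_num) (by norm_num) (by norm_num) (by norm_num))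
    (exp_neg_leJ (r := 0.99) 14 (by norm_num) (by norm_num) (by norm_num) (by norm_num))
    (exp_neg_leJ (r := 0.051) 7 (by norm_num) (by norm_num) (by norm_num) (by norm_num))
    (exp_neg_leJ (r := 0.99) 14 (by norm_num) (by norm_num) (by norm_num) (by norm_num))
    (exp_neg_leJ (r := 0.99) 14 (by norm_num) (by norm_num) (by norm_num) (by norm_num))
    (exp_neg_leJ (r := 0.99) 14 (by norm_num) (by norm_num) (by norm_num) (by norm_num))
    (by norm_num)) (by norm_num) hN hβ.le (by norm_num)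

private theorem B5Jo_T84_0_2 {β x y : ℝ} (hβ : 0 < β) (hN : β * 7.999 ≤ 1) (hx1 : 1.294 ≤ x) (hx2 : x ≤ 1.3775)
    (hy1 : -0.0971 ≤ y) (hy2 : y ≤ 0.0311) : ‖HH β (x + y * I) - 1‖ ≤ 0.075 := by
  refine le_epsJ (C := 0.5812) (N0 := 7.999) (J_boxp 1.294 1.3775 0.0971 0.0311 0.0311 1.5522 1.381 1.7207 0.6784 0.5234 2.8283 7.999 0.8898 3.427 1.498 0.8006 0.776 0.5459 1.2979 3.0019 0.9273 2.2885 3.7613 3.3995 0.002016 0.01271 0.00003102 0.0000003101 0.0006011 0.0000003101 0.0000003101 0.0000003101 0.5812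
    hβ hN hx1 hx2 hy1 hy2 (by norm_num) (by norm_num) (by linarith) (by norm_num) (by norm_num) (by norm_num) (by norm_num) (by norm_num) (by norm_num) (by norm_num) (by norm_num) (by norm_num) (by norm_num) (by norm_num) (by norm_num) (by norm_num) (by norm_num) (by norm_num) (by norm_num) (by norm_num) (by norm_num) (by norm_num) (by norm_num) (by norm_num)
    (cube_sqrt_geJ (s := 0.8386) (by norm_num) (by norm_num) (by norm_num) (by norm_num))
    (cube_sqrt_geJ (s := 0.9439) (by norm_num) (by norm_num) (by norm_num) (by norm_num))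
    (by norm_num) (by norm_num) (by norm_num) (by norm_num) (by norm_num) (by norm_num) (by norm_num) (by norm_num) (by norm_num) (by norm_num) (by norm_num) (by norm_num) (by norm_num) (by norm_num) (by norm_num) (by norm_num) (by norm_num) (by norm_num)
    (exp_neg_leJ (r := 0.207) 6 (by norm_num) (by norm_num) (by norm_num) (by norm_num))
    (exp_neg_leJ (r := 0.366) 4 (by norm_num) (by norm_num) (by norm_num) (by norm_num))
    (exp_neg_leJ (r := 0.381) 10 (by norm_num) (by norm_num) (by norm_num) (by norm_num))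
    (exp_neg_leJ (r := 0.99) 14 (by norm_num) (by norm_num) (by norm_num) (by norm_num))
    (exp_neg_leJ (r := 0.417) 7 (by norm_num) (by norm_num) (by norm_num) (by norm_num))
    (exp_neg_leJ (r := 0.99) 14 (by norm_num) (by norm_num) (by norm_num) (by norm_num))
    (exp_neg_leJ (r := 0.99) 14 (by norm_num) (by norm_num) (by norm_num) (by norm_num))
    (exp_neg_leJ (r := 0.99) 14 (by norm_num) (by norm_num) (by norm_num) (by norm_num))
    (by norm_num)) (by norm_num) hN hβ.le (by norm_num)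

private theorem B5Jo_T84 {β x y : ℝ} (hβ : 0 < β) (hN : β * 7.999 ≤ 1) (hx1 : 1.1105 ≤ x) (hx2 : x ≤ 1.3775)
    (hy1 : (-0.0971) ≤ y) (hy2 : y ≤ 0.0311) : ‖HH β (x + y * I) - 1‖ ≤ 0.075 := by
  rcases le_total x 1.2 with hxx | hxx
  · exact B5Jo_T84_0_0 hβ hN (by linarith) (by linarith) (by linarith) (by linarith)
  rcases le_total x 1.294 with hxx | hxx
  · exact B5Jo_T84_0_1 hβ hN (by linarith) (by linarith) (by linarith) (by linarith)
  exact B5Jo_T84_0_2 hβ hN (by linarith) (by linarith) (by linarith) (by linarith)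

private theorem B5Jo_G85 {κ : ℝ} (hk1 : 1.15 ≤ κ) (hk2 : κ ≤ 1.25) : gG κ 0.45 ≤ 1.32499 ∧ 0.32464 ≤ Real.exp (-(κ * 0.45)) ^ 2 := by
  refine ⟨gG_le 0.45 1.15 1.25 1.32499 0.59601 0.56979 1.67783 1.75506 hk1 hk2 (by norm_num)
    (ex_um 0.5175 (by norm_num) (by norm_num) (by norm_num) (by norm_num)) (ex_um 0.5625 (by norm_num) (by norm_num) (by norm_num) (by norm_num))
    (ex_up 0.5175 (by norm_num) (by norm_num) (by norm_num) (by norm_num)) (ex_up 0.5625 (by norm_num) (by norm_num) (by norm_num) (by norm_num))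
    (by norm_num) (by norm_num), ?_⟩
  exact v5_M 0.56978 (ex_lm 0.5625 (by linarith) (by norm_num) (by norm_num) (by norm_num) (by norm_num)) (by norm_num) (by norm_num)

private theorem B5Jo_C86 {β r t κ : ℝ} (hβ : 0 < β) (hr : 10 ≤ r) (hκ : κ = β * r) (hk1 : 1.15 ≤ κ) (hk2 : κ ≤ 1.25) (hta : 2.3246 ≤ t + κ)
    (htb : t + κ ≤ 2.5762) : ‖F (cexp (I * β)) (r * cexp (I * ((t + β / 2 : ℝ) : ℂ)))‖ ≤
      2.4938 * Real.exp (r * (1.32499 - 0.45 * (t + κ))) + 0.195 * Real.exp (r * 0) :=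
  v5_H 0.45 1.15 1.25 2.3246 2.5762 1.32499 1.9319 0.32464 0.1411 2.6452 0.1444 0.05562 0.575 0.000477 2.4938 0.195 hβ hr hκ (by norm_num) hk1 hk2 hta htb (by norm_num) (B5Jo_G85 hk1 hk2).1 (B5Jo_G85 hk1 hk2).2 (by norm_num) (by norm_num) (by norm_num)
    (by norm_num) (by norm_num) (by norm_num) (by norm_num) (by norm_num) (by norm_num) (by norm_num) (by norm_num) (ex_un 0 0.5561 (by norm_num) (by norm_num) (by norm_num) (by norm_num))
    (v5_hump 0.9879 7.999 2.8283 0.0003751 0.000477 hβ hr hκ hk1 hk2 (by norm_num) htb (by norm_num) (by norm_num) (by norm_num) (by norm_num) (by norm_num) (by norm_num) (by norm_num) (ex_un 7 0.9022 (by norm_num) (by norm_num) (by norm_num) (by norm_num)) (by norm_num)) (by norm_num) (by norm_num)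

private theorem B5Jo_G87 {κ : ℝ} (hk1 : 1.15 ≤ κ) (hk2 : κ ≤ 1.25) : gG κ (-0.49) ≤ 1.29802 ∧ 3.08634 ≤ Real.exp (-(κ * (-0.49))) ^ 2 := by
  refine ⟨gG_le (-0.49) 1.15 1.25 1.29802 1.75682 1.84504 0.56922 0.542 hk1 hk2 (by norm_num)
    (ex_up 0.5635 (by norm_num) (by norm_num) (by norm_num) (by norm_num)) (ex_up 0.6125 (by norm_num) (by norm_num) (by norm_num) (by norm_num))
    (ex_um 0.5635 (by norm_num) (by norm_num) (by norm_num) (by norm_num)) (ex_um 0.6125 (by norm_num) (by norm_num) (by norm_num) (by norm_num))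
    (by norm_num) (by norm_num), ?_⟩
  exact v5_M 1.7568 (ex_lp 0.5635 (by linarith) (by norm_num) (by norm_num)) (by norm_num) (by norm_num)

private theorem B5Jo_C88 {β r t κ : ℝ} (hβ : 0 < β) (hr : 10 ≤ r) (hκ : κ = β * r) (hk1 : 1.15 ≤ κ) (hk2 : κ ≤ 1.25) (hta : (-1.4453) ≤ t + κ)
    (htb : t + κ ≤ (-1.1937)) : ‖F (cexp (I * β)) (r * cexp (I * ((t + β / 2 : ℝ) : ℂ)))‖ ≤
      0.8793 * Real.exp (r * (1.29802 - (-0.49) * (t + κ))) + 1.586 * Real.exp (r * 0.0501) :=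
  v5_HU (-0.49) 1.15 1.25 (-1.4453) (-1.1937) 1.29802 0.8793 3.08634 0.1411 0.7136 2.0166 0 0.0501 0.00000119 1.586 hβ hr hκ (by norm_num) hk1 hk2 hta htb (by norm_num) (by norm_num) (B5Jo_G87 hk1 hk2).1 (B5Jo_G87 hk1 hk2).2 (by norm_num) (by norm_num) (by norm_num)
    (by norm_num) (by norm_num) (by norm_num) (by norm_num) (by norm_num) (by norm_num) (by norm_num)
    (by norm_num) (by norm_num) (by norm_num) (v5_hump 4.7578 7.999 2.8283 0.0000009316 0.00000119 hβ hr hκ hk1 hk2 (by norm_num) htb (by norm_num) (by norm_num) (by norm_num) (by norm_num) (by norm_num) (by norm_num) (by norm_num) (ex_un 13 0.9 (by norm_num) (by norm_num) (by norm_num) (by norm_num)) (by norm_num)) (by norm_num)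

private theorem B5Jo_C89 {β r t κ : ℝ} (hβ : 0 < β) (hr : 10 ≤ r) (hκ : κ = β * r) (hk1 : 1.15 ≤ κ) (hk2 : κ ≤ 1.25) (hta : 3.5812 ≤ t + κ)
    (htb : t + κ ≤ 3.8328) : ‖F (cexp (I * β)) (r * cexp (I * ((t + β / 2 : ℝ) : ℂ)))‖ ≤
      1.9533 * Real.exp (r * (0.215 + 1 / 20)) :=
  v5_UD 1.15 1.25 3.5812 3.8328 0.01 0.3721 0.215 1.0183 1.9533 hβ hr hκ (by norm_num) hk1 hk2 hta htb (by norm_num) (by norm_num) (by norm_num) (by norm_num) (by norm_num) (by norm_num) (by norm_num) (by norm_num) (by norm_num) (by norm_num) (by norm_num)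

private theorem B5Jo_Y90 {β r t κ h t' : ℝ} (hβ : 0 < β) (hκ : κ = β * r) (hN : β * 7.999 ≤ 1) (hk1 : 1.15 ≤ κ) (hk2 : κ ≤ 1.25)
    (ht : t' = t + (((0 : ℤ) : ℝ) - 1) * h) (hD : DomR κ t') (hta : (-0.1887) ≤ t' + κ) (htb : t' + κ ≤ 0.0629) :
    0.7214 * Real.exp (r * sE κ t') ≤ ‖Xf β r h t 0‖ := by
  obtain ⟨⟨ya, yb⟩, ⟨xa, xb⟩, n1, Da, Db⟩ := B5Jo_B83 hD hk1 hk2 hta htb
  have J := B5Jo_T84 (x := sx κ t') (y := sy κ t') hβ hN (by linarith only [xa, xb, ya, yb]) (by linarith only [xa, xb, ya, yb]) (by linarith only [xa, xb, ya, yb]) (by linarith only [xa, xb, ya, yb])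
  exact v5_Jlo hβ hκ (k := 0) ht hD 0.075 2.7031 0.7214 (by norm_num) J Db (by norm_num)

private theorem B5Jo_V91 {κ t : ℝ} (hD : DomR κ t) (hk1 : 1.15 ≤ κ) (hk2 : κ ≤ 1.25) (hta : (-0.1887) ≤ t + κ) (htb : t + κ ≤ 0.0629) :
    0.99737 + 0.0277 * (t + κ) ≤ sE κ t := by
  have hκ0 : 0 < κ := hD.1
  exact v5_V0 hD 1.15 1.25 (-0.1887) 0.0629 0.1888 0.5121 0.05961 0.19489 0.07983 0.53822 0.99737 0.0277 (by norm_num) hk1 hk2 (by norm_num) hta htb (by norm_num) (by norm_num) (by norm_num) ((cup2 1.15 (by norm_num) hk1).trans (by norm_num))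
      (by norm_num) (by norm_num) (by norm_num) (by norm_num) (by norm_num) (by norm_num) (by norm_num) (by norm_num) (by norm_num) (by norm_num) (by norm_num) (by norm_num) (by norm_num)

private theorem B5Jo_K92 {β r t κ h : ℝ} (hβ : 0 < β) (hr : 10 ≤ r) (hκ : κ = β * r) (hk1 : 1.15 ≤ κ) (hk2 : κ ≤ 1.25)
    (hh : h = 2 * Real.pi / 5) (hh1 : 1.25663 ≤ h) (hh2 : h ≤ 1.25664) (hta : 1.068 ≤ t + κ) (htb : t + κ ≤ 1.3195)
    (hY : 0.7214 * Real.exp (r * sE κ (t - h)) ≤ ‖Xf β r h t 0‖) (hV : 0.99737 + 0.0277 * (t - h + κ) ≤ sE κ (t - h)) :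
    ‖Xf β r h t 2‖ ≤ 0.00279 * ‖Xf β r h t 0‖ := by
  rw [v5_X 2 1 (by push_cast; ring)]
  exact v5_cmp 0.7132 0.0007993 0.00277 0.9921 0.00004987 0.0000135 0.00279 hr (B5Jo_C86 (t := t + 1 * h) hβ hr hκ hk1 hk2 (by linarith only [hta, htb, hh1, hh2]) (by linarith only [hta, htb, hh1, hh2])) hY (by norm_num) (by norm_num) (by norm_num) (by norm_num) (by linarith only [hV, hta, htb, hh1, hh2]) (ex_un 7 0.1319 (by norm_num) (by norm_num) (by norm_num) (by norm_num)) (by norm_num) (by norm_num) (by linarith only [hV, hta, htb, hh1, hh2]) (ex_un 9 0.9209 (by norm_num) (by norm_num) (by norm_num) (by norm_num)) (by norm_num) (by norm_num)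

private theorem B5Jo_K93 {β r t κ h : ℝ} (hβ : 0 < β) (hr : 10 ≤ r) (hκ : κ = β * r) (hk1 : 1.15 ≤ κ) (hk2 : κ ≤ 1.25)
    (hh : h = 2 * Real.pi / 5) (hh1 : 1.25663 ≤ h) (hh2 : h ≤ 1.25664) (hta : 1.068 ≤ t + κ) (htb : t + κ ≤ 1.3195)
    (hY : 0.7214 * Real.exp (r * sE κ (t - h)) ≤ ‖Xf β r h t 0‖) (hV : 0.99737 + 0.0277 * (t - h + κ) ≤ sE κ (t - h)) :
    ‖Xf β r h t (-1)‖ ≤ 0.0709 * ‖Xf β r h t 0‖ := by
  rw [v5_X (-1) (-2) (by push_cast; ring)]
  exact v5_cmp 0.286 0.05795 0.0707 0.942 0.00008117 0.000179 0.0709 hr (B5Jo_C88 (t := t + (-2) * h) hβ hr hκ hk1 hk2 (by linarith only [hta, htb, hh1, hh2]) (by linarith only [hta, htb, hh1, hh2])) hY (by norm_num) (by norm_num) (by norm_num) (by norm_num) (by linarith only [hV, hta, htb, hh1, hh2]) (ex_un 2 0.8599 (by norm_num) (by norm_num) (by norm_num) (by norm_num)) (by norm_num) (by norm_num) (by linarith only [hV, hta, htb, hh1, hh2]) (ex_un 9 0.4199 (by norm_num) (by norm_num)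 (by norm_num) (by norm_num)) (by norm_num) (by norm_num)

private theorem B5Jo_K94 {β r t κ h : ℝ} (hβ : 0 < β) (hr : 10 ≤ r) (hκ : κ = β * r) (hk1 : 1.15 ≤ κ) (hk2 : κ ≤ 1.25)
    (hh : h = 2 * Real.pi / 5) (hh1 : 1.25663 ≤ h) (hh2 : h ≤ 1.25664) (hta : 1.068 ≤ t + κ) (htb : t + κ ≤ 1.3195)
    (hY : 0.7214 * Real.exp (r * sE κ (t - h)) ≤ ‖Xf β r h t 0‖) (hV : 0.99737 + 0.0277 * (t - h + κ) ≤ sE κ (t - h)) :
    ‖Xf β r h t (-2)‖ ≤ 0.00189 * ‖Xf β r h t 0‖ := by
  rw [v5_Xm2 hh]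
  exact v5_cmp0 0.7271 0.0006957 0.00189 hr (B5Jo_C89 (t := t + 2 * h) hβ hr hκ hk1 hk2 (by linarith only [hta, htb, hh1, hh2]) (by linarith only [hta, htb, hh1, hh2])) hY (by norm_num) (by norm_num) (by norm_num) (by linarith only [hV, hta, htb, hh1, hh2]) (ex_un 7 0.2709 (by norm_num) (by norm_num) (by norm_num) (by norm_num)) (by norm_num)

private theorem B5Jo_G95 {κ : ℝ} (hk1 : 1.15 ≤ κ) (hk2 : κ ≤ 1.25) : gG κ 0.3 ≤ 1.12901 ∧ 0.47235 ≤ Real.exp (-(κ * 0.3)) ^ 2 := by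
  refine ⟨gG_le 0.3 1.15 1.25 1.12901 0.70823 0.68729 1.41199 1.455 hk1 hk2 (by norm_num)
    (ex_um 0.345 (by norm_num) (by norm_num) (by norm_num) (by norm_num)) (ex_um 0.375 (by norm_num) (by norm_num) (by norm_num) (by norm_num))
    (ex_up 0.345 (by norm_num) (by norm_num) (by norm_num) (by norm_num)) (ex_up 0.375 (by norm_num) (by norm_num) (by norm_num) (by norm_num))
    (by norm_num) (by norm_num), ?_⟩
  exact v5_M 0.68728 (ex_lm 0.375 (by linarith) (by norm_num) (by norm_num) (by norm_num) (by norm_num)) (by norm_num) (by norm_num)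

private theorem B5Jo_C96 {β r t κ : ℝ} (hβ : 0 < β) (hr : 10 ≤ r) (hκ : κ = β * r) (hk1 : 1.15 ≤ κ) (hk2 : κ ≤ 1.25) (hta : 1.0679 ≤ t + κ)
    (htb : t + κ ≤ 1.3196) : ‖F (cexp (I * β)) (r * cexp (I * ((t + β / 2 : ℝ) : ℂ)))‖ ≤
      1.4585 * Real.exp (r * (1.12901 - 0.3 * (t + κ))) + 0.2428 * Real.exp (r * 0) :=
  v5_H 0.3 1.15 1.25 1.0679 1.3196 1.12901 1.4524 0.47235 0.1411 1.3885 1.401 0.28276 0.05977 0.00000119 1.4585 0.2428 hβ hr hκ (by norm_num) hk1 hk2 hta htb (by norm_num) (B5Jo_G95 hk1 hk2).1 (B5Jo_G95 hk1 hk2).2 (by norm_num) (by norm_num) (by norm_num)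
    (by norm_num) (by norm_num) (by norm_num) (by norm_num) (by norm_num) (by norm_num) (by norm_num) (by norm_num) (ex_un 2 0.8275 (by norm_num) (by norm_num) (by norm_num) (by norm_num))
    (v5_hump 2.2445 7.999 2.8283 0.0000009316 0.00000119 hβ hr hκ hk1 hk2 (by norm_num) htb (by norm_num) (by norm_num) (by norm_num) (by norm_num) (by norm_num) (by norm_num) (by norm_num) (ex_un 13 0.9 (by norm_num) (by norm_num) (by norm_num) (by norm_num)) (by norm_num)) (by norm_num) (by norm_num)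

private theorem B5Jo_K97 {β r t κ h : ℝ} (hβ : 0 < β) (hr : 10 ≤ r) (hκ : κ = β * r) (hk1 : 1.15 ≤ κ) (hk2 : κ ≤ 1.25)
    (hh : h = 2 * Real.pi / 5) (hh1 : 1.25663 ≤ h) (hh2 : h ≤ 1.25664) (hta : 1.068 ≤ t + κ) (htb : t + κ ≤ 1.3195)
    (hY : 0.7214 * Real.exp (r * sE κ (t - h)) ≤ ‖Xf β r h t 0‖) (hV : 0.99737 + 0.0277 * (t - h + κ) ≤ sE κ (t - h)) :
    ‖Xf β r h t 1‖ ≤ 0.328 * ‖Xf β r h t 0‖ := by
  rw [v5_X 1 0 (by push_cast; ring)]
  exact v5_cmp 0.1835 0.1614 0.327 0.9921 0.00004987 0.0000168 0.328 hr (B5Jo_C96 (t := t + 0 * h) hβ hr hκ hk1 hk2 (by linarith only [hta, htb, hh1, hh2]) (by linarith only [hta, htb, hh1, hh2])) hY (by norm_num) (by norm_num) (by norm_num) (by norm_num) (by linarith only [hV, hta, htb, hh1, hh2]) (ex_un 1 0.8349 (by norm_num) (by norm_num) (by norm_num) (by norm_num)) (by norm_num) (by norm_num) (by linarith only [hV, hta, htb, hh1, hh2]) (ex_un 9 0.9209 (by norm_num) (by norm_num) (by norm_num)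 (by norm_num)) (by norm_num) (by norm_num)

private theorem B5Jo_O98 {β r t κ h : ℝ} (hβ : 0 < β) (hr : 10 ≤ r) (hκ : κ = β * r) (hk1 : 1.15 ≤ κ) (hk2 : κ ≤ 1.25)
    (hh : h = 2 * Real.pi / 5) (hta : 1.068 ≤ t + κ) (htb : t + κ ≤ 1.3195) :
    ‖Xf β r h t (-2)‖ + ‖Xf β r h t (-1)‖ + ‖Xf β r h t 2‖ < |‖Xf β r h t 1‖ - ‖Xf β r h t 0‖| := by
  obtain ⟨hh1, hh2⟩ := v5_h hh
  have hκ0 : 0 < κ := by linarith only [hk1]
  have hN : β * 7.999 ≤ 1 := v5_hN 1.25 7.999 hβ hr hκ hk2 (by norm_num) (by norm_num)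
  have hD1 : DomR κ t := v5_dom hκ0 (by linarith only [hta, htb, hk1, hk2, hh1, hh2]) (Or.inr (by linarith only [hta, htb, hk1, hk2, hh1, hh2]))
  have hD0 : DomR κ (t - h) := v5_dom hκ0 (by linarith only [hta, htb, hk1, hk2, hh1, hh2]) (Or.inr (by linarith only [hta, htb, hk1, hk2, hh1, hh2]))
  have h0a : (-0.1887) ≤ t - h + κ := by linarith only [hta, htb, hh1, hh2]
  have h0b : t - h + κ ≤ 0.0629 := by linarith only [hta, htb, hh1, hh2]
  have e0 : t - h = t + (((0 : ℤ) : ℝ) - 1) * h := by push_cast; ring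
  have hY := B5Jo_Y90 (h := h) hβ hκ hN hk1 hk2 e0 hD0 h0a h0b
  have hV := B5Jo_V91 hD0 hk1 hk2 h0a h0b
  have cp2 := B5Jo_K92 hβ hr hκ hk1 hk2 hh hh1 hh2 hta htb hY hV
  have cm1 := B5Jo_K93 hβ hr hκ hk1 hk2 hh hh1 hh2 hta htb hY hV
  have cm2 := B5Jo_K94 hβ hr hκ hk1 hk2 hh hh1 hh2 hta htb hY hV
  have cn1 := B5Jo_K97 hβ hr hκ hk1 hk2 hh hh1 hh2 hta htb hY hV
  have hp : 0 < ‖Xf β r h t 0‖ := lt_of_lt_of_le (by positivity) hY
  exact v5_out0 _ _ _ _ cm2 cm1 cp2 cn1 hp (by norm_num)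

theorem R1_b5_J {p : ℤ} {β r : ℝ} (hp : IsCoprime (5 : ℤ) p) (hr : 10 ≤ r) (hβ : 0 < β) (hk1 : 1.15 ≤ β * r)
    (hk2 : β * r ≤ 1.25) : Circ (2 * Real.pi * p / 5 + β) r := by
  obtain ⟨h, hh⟩ : ∃ h : ℝ, h = 2 * Real.pi / 5 := ⟨_, rfl⟩
  obtain ⟨hh1, hh2⟩ := v5_h hh
  obtain ⟨κ, hκ⟩ : ∃ κ, κ = β * r := ⟨_, rfl⟩
  rw [← hκ] at hk1 hk2
  refine v5_circ (κ := κ) hp hr hh 0.45 0.61 1.05 0.0447 0.0375 0.00621 0.000958 0.0685 0.0311 0.00506 0.2259 ?_ ?_ (by norm_num) (by norm_num) (by norm_num) (by norm_num) (by norm_num) (by norm_num) (by norm_num) (by norm_num) (by norm_num) (by norm_num)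
  · intro t g1 g2
    rcases le_total (t + κ) 0.666 with g3 | g3
    · exact B5Jw_W22 hβ hr hκ hk1 hk2 hh (by linarith) (by linarith)
    exact B5Jw_W44 hβ hr hκ hk1 hk2 hh (by linarith) (by linarith)
  · intro t g1 g2 g3
    rcases g3 with g3 | g3
    · rcases le_total (t + κ) 0.251 with g4 | g4
      · exact B5Jo_O16 hβ hr hκ hk1 hk2 hh (by linarith) (by linarith)
      rcases le_total (t + κ) 0.415 with g4 | g4
      · exact B5Jo_O31 hβ hr hκ hk1 hk2 hh (by linarith) (by linarith)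
      exact B5Jo_O49 hβ hr hκ hk1 hk2 hh (by linarith) (by linarith)
    · rcases le_total (t + κ) 0.88 with g4 | g4
      · exact B5Jo_O67 hβ hr hκ hk1 hk2 hh (by linarith) (by linarith)
      rcases le_total (t + κ) 1.068 with g4 | g4
      · exact B5Jo_O82 hβ hr hκ hk1 hk2 hh (by linarith) (by linarith)
      exact B5Jo_O98 hβ hr hκ hk1 hk2 hh (by linarith) (by linarith)

end Sok
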