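import Pool.Agent.Lib.MP_816dec_an.R1V9

/-!
MP_816dec_an (A3, row R1), SINGLE CASE `b = 5`, `r ≥ 10`, `0.3 ≤ κ ≤ 0.36`: the window (generated file).
-/

set_option autoImplicit false
set_option linter.unusedVariables false

open Complex Set Filter Topology Metric

namespace Sok

private theorem B5Aw_B1 {κ t : ℝ} (h : DomR κ t) (hk1 : 0.3 ≤ κ) (hk2 : κ ≤ 0.36) (ht1 : 0.5654 ≤ t + κ) (ht2 : t + κ ≤ 0.666) :
    (0.125 ≤ sy κ t ∧ sy κ t ≤ 0.165) ∧ (0.1935 ≤ sx κ t ∧ sx κ t ≤ 0.2921) ∧ κ * Real.exp (-sy κ t) ≤ 0.3178 ∧ 1.32 ≤ sD κ t ∧ sD κ t ≤ 1.4232 := by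
  have hy1 : 0.125 ≤ sy κ t := syR_ge h 0.3 0.36 0.5654 0.125 1.13314 1.13315 0.39345 0.47215 hk1 hk2 (by linarith) (by norm_num) (by norm_num)
    (expn_ge (by norm_num) (by norm_num)) (expn_le (by norm_num) (by norm_num) (by norm_num)) (by norm_num)
    (by norm_num) (by norm_num) (by norm_num) (by norm_num) (by norm_num) (by norm_num)
  have hy2 : sy κ t ≤ 0.165 := syR_le h 0.3 0.36 0.666 0.165 1.17939 0.5135 0.54055 0.64868 hk1 hk2 (by linarith) (by norm_num) (by norm_num)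
    (expn_ge (by norm_num) (by norm_num)) (by norm_num) (by norm_num) (Or.inr ((mul_le_mul_of_nonneg_left (expn_le (E := 1.1794) (by norm_num) (by norm_num) (by norm_num)) (by norm_num)).trans (by norm_num))) (by norm_num) (by norm_num) (by norm_num)
  have hy1' : 0.125 ≤ sy κ t := by linarith
  have hy2' : sy κ t ≤ 0.165 := by linarith
  have hx1 : 0.1935 ≤ sx κ t := sx_lo h 0.3 0.165 0.1651 0.84789 0.1935 hk1 (by norm_num) hy2' (abs_le.2 ⟨by linarith, by linarith⟩) (ex_lm 0.165 (by norm_num) (by norm_num) (by norm_num) (by norm_num) (by norm_num)) (by norm_num) (by norm_num)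
  have hx2 : sx κ t ≤ 0.2921 := sx_hi h 0.36 0.125 0.125 0.8825 0.2921 hk2 hy1' (by norm_num) (le_trans (by linarith) (le_abs_self _)) (ex_um 0.125 (by norm_num) (by norm_num) (by norm_num) (by norm_num)) (by norm_num) (by norm_num)
  refine ⟨⟨hy1', hy2'⟩, ⟨hx1, hx2⟩, v5_n h 0.36 0.125 0.8825 0.3178 hk2 hy1' (ex_um 0.125 (by norm_num) (by norm_num) (by norm_num) (by norm_num)) (by norm_num), ?_, ?_⟩
  · exact v5_Dlo h 0.3 0.125 0.165 0.125 0.88249 1.32 (by norm_num) hk1 hy1' hy2' (ex_lm 0.125 (by norm_num) (by norm_num) (by norm_num) (by norm_num) (by norm_num)) (by norm_num) (by norm_num) (by norm_num) (by norm_num)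
  · exact v5_Dup h 0.36 0.125 0.165 0.8825 0.8479 1.4232 hk2 hy1' hy2' (ex_um 0.125 (by norm_num) (by norm_num) (by norm_num) (by norm_num)) (ex_um 0.165 (by norm_num) (by norm_num) (by norm_num) (by norm_num)) (by norm_num) (by norm_num) (by norm_num)

private theorem B5Aw_B2 {κ t : ℝ} (h : DomR κ t) (hk1 : 0.3 ≤ κ) (hk2 : κ ≤ 0.36) (ht1 : (-0.6913) ≤ t + κ) (ht2 : t + κ ≤ (-0.5906)) :
    ((-0.305) ≤ sy κ t ∧ sy κ t ≤ (-0.2)) ∧ (0.2029 ≤ sx κ t ∧ sx κ t ≤ 0.4456) ∧ κ * Real.exp (-sy κ t) ≤ 0.4884 ∧ 0.5556 ≤ sD κ t ∧ sD κ t ≤ 0.7934 := by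
  have hy1 : -0.305 ≤ sy κ t := syL_ang2 h 0.3 0.36 0.6913 0.674 0.7813 0.6242 0.305 1.35662 0.73712 hk1 hk2 (by linarith) (by norm_num) (by norm_num) (by norm_num) (by norm_num)
    (cos_ge_num (by norm_num) (by norm_num)) (sin_le_num (by norm_num) (by norm_num))
    (expn_ge (by norm_num) (by norm_num)) (expm_ge (by norm_num) (by norm_num) (by norm_num) (by norm_num)) (by norm_num) (by norm_num) (by norm_num)
    (by norm_num) (by norm_num) (by norm_num)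
  have hy2 : sy κ t ≤ -0.2 := syL_le h 0.3 0.36 0.5906 0.2 0.81873 0.81874 0.45484 0.54583 hk1 hk2 (by linarith) (by norm_num) (by norm_num) (by norm_num)
    (expm_ge (by norm_num) (by norm_num) (by norm_num) (by norm_num)) (expm_le (by norm_num) (by norm_num) (by norm_num)) (by norm_num)
    (by norm_num) (by norm_num) (by norm_num) (by norm_num) (by norm_num) (by norm_num)
  have hy1' : (-0.305) ≤ sy κ t := by linarith
  have hy2' : sy κ t ≤ (-0.2) := by linarith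
  have hx1 : 0.2029 ≤ sx κ t := sx_lo h 0.3 (-0.2) 0.3051 1.2214 0.2029 hk1 (by norm_num) hy2' (abs_le.2 ⟨by linarith, by linarith⟩) (ex_lp 0.2 (by norm_num) (by norm_num) (by norm_num)) (by norm_num) (by norm_num)
  have hx2 : sx κ t ≤ 0.4456 := sx_hi h 0.36 (-0.305) 0.2 1.35663 0.4456 hk2 hy1' (by norm_num) (le_trans (by linarith) (neg_le_abs _)) (ex_up 0.305 (by norm_num) (by norm_num) (by norm_num) (by norm_num)) (by norm_num) (by norm_num)
  refine ⟨⟨hy1', hy2'⟩, ⟨hx1, hx2⟩, v5_n h 0.36 (-0.305) 1.35663 0.4884 hk2 hy1' (ex_up 0.305 (by norm_num) (by norm_num) (by norm_num) (by norm_num)) (by norm_num), ?_, ?_⟩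
  · exact v5_Dlo h 0.3 (-0.305) (-0.2) (-0.305) 1.35662 0.5556 (by norm_num) hk1 hy1' hy2' (ex_lp 0.305 (by norm_num) (by norm_num) (by norm_num)) (by norm_num) (by norm_num) (by norm_num) (by norm_num)
  · exact v5_Dup h 0.36 (-0.305) (-0.2) 1.35663 1.22141 0.7934 hk2 hy1' hy2' (ex_up 0.305 (by norm_num) (by norm_num) (by norm_num) (by norm_num)) (ex_up 0.2 (by norm_num) (by norm_num) (by norm_num) (by norm_num)) (by norm_num) (by norm_num) (by norm_num)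

private theorem B5Aw_T3_0_0 {β x y : ℝ} (hβ : 0 < β) (hN : β * 27.777 ≤ 1) (hn : ‖(x + y * I : ℂ)‖ ≤ 0.374) : ‖HH β (x + y * I) - 1‖ ≤ 0.03 := by
  refine le_epsJ (C := 0.8279) (N0 := 27.777) (J45_genN (N := 27.777) (r0 := 5.2704) (f := 2.5667) (n0 := 0.374) (a := 0.626) (wL := 1.762) (wR := 2.157)
    (E1 := 0.007584) (E2 := 0.000001286) (E3 := 0.02795) (E4 := 0.00001999) (E5 := 0.0000003101) hβ (by norm_num) hN
    (by norm_num) (by norm_num) (by norm_num) hn (by norm_num) (by norm_num) (by norm_num)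
    (cube_sqrt_geJ (s := 0.9223) (by norm_num) (by norm_num) (by norm_num) (by norm_num))
    (cube_sqrt_geJ (s := 0.896) (by norm_num) (by norm_num) (by norm_num) (by norm_num))
    (exp_neg_leJ (r := 0.884) 4 (by norm_num) (by norm_num) (by norm_num) (by norm_num))
    (exp_neg_leJ (r := 0.565) 13 (by norm_num) (by norm_num) (by norm_num) (by norm_num))
    (exp_neg_leJ (r := 0.578) 3 (by norm_num) (by norm_num) (by norm_num) (by norm_num))
    (exp_neg_leJ (r := 0.822) 10 (by norm_num) (by norm_num) (by norm_num) (by norm_num))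
    (exp_neg_leJ (r := 0.99) 14 (by norm_num) (by norm_num) (by norm_num) (by norm_num))
    (by norm_num)) (by norm_num) hN hβ.le (by norm_num)

private theorem B5Aw_T3_0_1 {β x y : ℝ} (hβ : 0 < β) (hN : β * 27.777 ≤ 1) (hx1 : 0.201 ≤ x) (hx2 : x ≤ 0.4422)
    (hy1 : -0.0251 ≤ y) (hy2 : y ≤ 0.3151) : ‖HH β (x + y * I) - 1‖ ≤ 0.03 := by
  refine le_epsJ (C := 0.5206) (N0 := 27.777) (J_boxp 0.201 0.4422 0.0251 0.3151 0.3151 0.8337 0.543 1.3875 1.5474 0.47 5.2704 27.777 0.6514 2.356 1.338 1.2268 0.4168 0.3263 1.0374 3.7424 0.4068 0.7461 0.553 2.1532 0.000009383 0.0001159 0.0000003101 0.0000003101 0.00001239 0.0000003101 0.0000003101 0.0000003101 0.5206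
    hβ hN hx1 hx2 hy1 hy2 (by norm_num) (by norm_num) (by linarith) (by norm_num) (by norm_num) (by norm_num) (by norm_num) (by norm_num) (by norm_num) (by norm_num) (by norm_num) (by norm_num) (by norm_num) (by norm_num) (by norm_num) (by norm_num) (by norm_num) (by norm_num) (by norm_num) (by norm_num) (by norm_num) (by norm_num) (by norm_num) (by norm_num)
    (cube_sqrt_geJ (s := 0.8847) (by norm_num) (by norm_num) (by norm_num) (by norm_num))
    (cube_sqrt_geJ (s := 0.9592) (by norm_num) (by norm_num) (by norm_num) (by norm_num))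
    (by norm_num) (by norm_num) (by norm_num) (by norm_num) (by norm_num) (by norm_num) (by norm_num) (by norm_num) (by norm_num) (by norm_num) (by norm_num) (by norm_num) (by norm_num) (by norm_num) (by norm_num) (by norm_num) (by norm_num) (by norm_num)
    (exp_neg_leJ (r := 0.577) 11 (by norm_num) (by norm_num) (by norm_num) (by norm_num))
    (exp_neg_leJ (r := 0.063) 9 (by norm_num) (by norm_num) (by norm_num) (by norm_num))
    (exp_neg_leJ (r := 0.99) 14 (by norm_num) (by norm_num) (by norm_num) (by norm_num))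
    (exp_neg_leJ (r := 0.99) 14 (by norm_num) (by norm_num) (by norm_num) (by norm_num))
    (exp_neg_leJ (r := 0.299) 11 (by norm_num) (by norm_num) (by norm_num) (by norm_num))
    (exp_neg_leJ (r := 0.99) 14 (by norm_num) (by norm_num) (by norm_num) (by norm_num))
    (exp_neg_leJ (r := 0.99) 14 (by norm_num) (by norm_num) (by norm_num) (by norm_num))
    (exp_neg_leJ (r := 0.99) 14 (by norm_num) (by norm_num) (by norm_num) (by norm_num))
    (by norm_num)) (by norm_num) hN hβ.le (by norm_num)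

private theorem B5Aw_T3 {β x y : ℝ} (hβ : 0 < β) (hN : β * 27.777 ≤ 1) (hx1 : 0.0434 ≤ x) (hx2 : x ≤ 0.4422)
    (hy1 : (-0.0251) ≤ y) (hy2 : y ≤ 0.3151) : ‖HH β (x + y * I) - 1‖ ≤ 0.03 := by
  rcases le_total x 0.201 with hxx | hxx
  · exact B5Aw_T3_0_0 hβ hN (norm_box5 0.201 0.3151 0.374 (by linarith) (by linarith) (by linarith) (by linarith) (by norm_num) (by norm_num))
  exact B5Aw_T3_0_1 hβ hN (by linarith) (by linarith) (by linarith) (by linarith)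

private theorem B5Aw_T4_0_0 {β x y : ℝ} (hβ : 0 < β) (hN : β * 27.777 ≤ 1) (hn : ‖(x + y * I : ℂ)‖ ≤ 0.428) : ‖HH β (x + y * I) - 1‖ ≤ 0.06 := by
  refine le_epsJ (C := 1.6485) (N0 := 27.777) (J45_genN (N := 27.777) (r0 := 5.2704) (f := 2.5667) (n0 := 0.428) (a := 0.572) (wL := 2.065) (wR := 2.699)
    (E1 := 0.01155) (E2 := 0.00001001) (E3 := 0.05158) (E4 := 0.0002309) (E5 := 0.0000003101) hβ (by norm_num) hN
    (by norm_num) (by norm_num) (by norm_num) hn (by norm_num) (by norm_num) (by norm_num)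
    (cube_sqrt_geJ (s := 0.9016) (by norm_num) (by norm_num) (by norm_num) (by norm_num))
    (cube_sqrt_geJ (s := 0.8678) (by norm_num) (by norm_num) (by norm_num) (by norm_num))
    (exp_neg_leJ (r := 0.462) 4 (by norm_num) (by norm_num) (by norm_num) (by norm_num))
    (exp_neg_leJ (r := 0.513) 11 (by norm_num) (by norm_num) (by norm_num) (by norm_num))
    (exp_neg_leJ (r := 0.968) 2 (by norm_num) (by norm_num) (by norm_num) (by norm_num))
    (exp_neg_leJ (r := 0.374) 8 (by norm_num) (by norm_num) (by norm_num) (by norm_num))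
    (exp_neg_leJ (r := 0.99) 14 (by norm_num) (by norm_num) (by norm_num) (by norm_num))
    (by norm_num)) (by norm_num) hN hβ.le (by norm_num)

private theorem B5Aw_T4_0_1 {β x y : ℝ} (hβ : 0 < β) (hN : β * 27.777 ≤ 1) (hx1 : 0.138 ≤ x) (hx2 : x ≤ 0.149)
    (hy1 : -0.4051 ≤ y) (hy2 : y ≤ -0.263) : ‖HH β (x + y * I) - 1‖ ≤ 0.06 := by
  refine le_epsJ (C := 1.6649) (N0 := 27.777) (J_boxp 0.138 0.149 0.4051 0 (-0.263) 0.5195 0.4317 0.752 2.316 0.346 5.2704 27.777 0.831 3.113 1.456 0.9888 0.2597 0.1877 0.416 2.6701 0.2007 0.691 0.7455 3.8146 0.000737 0.005446 0.000009591 0.0000003101 0.003797 0.0000003101 0.0000003101 0.0000003101 1.6649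
    hβ hN hx1 hx2 hy1 hy2 (by norm_num) (by norm_num) (by linarith) (by norm_num) (by norm_num) (by norm_num) (by norm_num) (by norm_num) (by norm_num) (by norm_num) (by norm_num) (by norm_num) (by norm_num) (by norm_num) (by norm_num) (by norm_num) (by norm_num) (by norm_num) (by norm_num) (by norm_num) (by norm_num) (by norm_num) (by norm_num) (by norm_num)
    (cube_sqrt_geJ (s := 0.8502) (by norm_num) (by norm_num) (by norm_num) (by norm_num))
    (cube_sqrt_geJ (s := 0.9477) (by norm_num) (by norm_num) (by norm_num) (by norm_num))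
    (by norm_num) (by norm_num) (by norm_num) (by norm_num) (by norm_num) (by norm_num) (by norm_num) (by norm_num) (by norm_num) (by norm_num) (by norm_num) (by norm_num) (by norm_num) (by norm_num) (by norm_num) (by norm_num) (by norm_num) (by norm_num)
    (exp_neg_leJ (r := 0.213) 7 (by norm_num) (by norm_num) (by norm_num) (by norm_num))
    (exp_neg_leJ (r := 0.213) 5 (by norm_num) (by norm_num) (by norm_num) (by norm_num))
    (exp_neg_leJ (r := 0.555) 11 (by norm_num) (by norm_num) (by norm_num) (by norm_num))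
    (exp_neg_leJ (r := 0.99) 14 (by norm_num) (by norm_num) (by norm_num) (by norm_num))
    (exp_neg_leJ (r := 0.574) 5 (by norm_num) (by norm_num) (by norm_num) (by norm_num))
    (exp_neg_leJ (r := 0.99) 14 (by norm_num) (by norm_num) (by norm_num) (by norm_num))
    (exp_neg_leJ (r := 0.99) 14 (by norm_num) (by norm_num) (by norm_num) (by norm_num))
    (exp_neg_leJ (r := 0.99) 14 (by norm_num) (by norm_num) (by norm_num) (by norm_num))
    (by norm_num)) (by norm_num) hN hβ.le (by norm_num)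

private theorem B5Aw_T4_0_2 {β x y : ℝ} (hβ : 0 < β) (hN : β * 27.777 ≤ 1) (hx1 : 0.149 ≤ x) (hx2 : x ≤ 0.183)
    (hy1 : -0.4051 ≤ y) (hy2 : y ≤ -0.263) : ‖HH β (x + y * I) - 1‖ ≤ 0.06 := by
  refine le_epsJ (C := 1.6643) (N0 := 27.777) (J_boxp 0.149 0.183 0.4051 0 (-0.263) 0.5273 0.4446 0.7594 2.2759 0.3477 5.2704 27.777 0.8432 3.175 1.465 0.9757 0.2636 0.1895 0.4198 2.6561 0.206 0.7063 0.7675 3.8015 0.0006609 0.00518 0.000008638 0.0000003101 0.003277 0.0000003101 0.0000003101 0.0000003101 1.6643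
    hβ hN hx1 hx2 hy1 hy2 (by norm_num) (by norm_num) (by linarith) (by norm_num) (by norm_num) (by norm_num) (by norm_num) (by norm_num) (by norm_num) (by norm_num) (by norm_num) (by norm_num) (by norm_num) (by norm_num) (by norm_num) (by norm_num) (by norm_num) (by norm_num) (by norm_num) (by norm_num) (by norm_num) (by norm_num) (by norm_num) (by norm_num)
    (cube_sqrt_geJ (s := 0.8478) (by norm_num) (by norm_num) (by norm_num) (by norm_num))
    (cube_sqrt_geJ (s := 0.9469) (by norm_num) (by norm_num) (by norm_num) (by norm_num))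
    (by norm_num) (by norm_num) (by norm_num) (by norm_num) (by norm_num) (by norm_num) (by norm_num) (by norm_num) (by norm_num) (by norm_num) (by norm_num) (by norm_num) (by norm_num) (by norm_num) (by norm_num) (by norm_num) (by norm_num) (by norm_num)
    (exp_neg_leJ (r := 0.322) 7 (by norm_num) (by norm_num) (by norm_num) (by norm_num))
    (exp_neg_leJ (r := 0.263) 5 (by norm_num) (by norm_num) (by norm_num) (by norm_num))
    (exp_neg_leJ (r := 0.66) 11 (by norm_num) (by norm_num) (by norm_num) (by norm_num))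
    (exp_neg_leJ (r := 0.99) 14 (by norm_num) (by norm_num) (by norm_num) (by norm_num))
    (exp_neg_leJ (r := 0.722) 5 (by norm_num) (by norm_num) (by norm_num) (by norm_num))
    (exp_neg_leJ (r := 0.99) 14 (by norm_num) (by norm_num) (by norm_num) (by norm_num))
    (exp_neg_leJ (r := 0.99) 14 (by norm_num) (by norm_num) (by norm_num) (by norm_num))
    (exp_neg_leJ (r := 0.99) 14 (by norm_num) (by norm_num) (by norm_num) (by norm_num))
    (by norm_num)) (by norm_num) hN hβ.le (by norm_num)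

private theorem B5Aw_T4_0_3 {β x y : ℝ} (hβ : 0 < β) (hN : β * 27.777 ≤ 1) (hx1 : 0.183 ≤ x) (hx2 : x ≤ 0.263)
    (hy1 : -0.4051 ≤ y) (hy2 : y ≤ -0.263) : ‖HH β (x + y * I) - 1‖ ≤ 0.06 := by
  refine le_epsJ (C := 1.6628) (N0 := 27.777) (J_boxp 0.183 0.263 0.4051 0 (-0.263) 0.5512 0.483 0.7826 2.1618 0.353 5.2704 27.777 0.8763 3.351 1.488 0.945 0.2755 0.195 0.4314 2.6211 0.2226 0.7533 0.8355 3.7651 0.0004754 0.004446 0.000006278 0.0000003101 0.002065 0.0000003101 0.0000003101 0.0000003101 1.6628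
    hβ hN hx1 hx2 hy1 hy2 (by norm_num) (by norm_num) (by linarith) (by norm_num) (by norm_num) (by norm_num) (by norm_num) (by norm_num) (by norm_num) (by norm_num) (by norm_num) (by norm_num) (by norm_num) (by norm_num) (by norm_num) (by norm_num) (by norm_num) (by norm_num) (by norm_num) (by norm_num) (by norm_num) (by norm_num) (by norm_num) (by norm_num)
    (cube_sqrt_geJ (s := 0.8413) (by norm_num) (by norm_num) (by norm_num) (by norm_num))
    (cube_sqrt_geJ (s := 0.9448) (by norm_num) (by norm_num) (by norm_num) (by norm_num))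
    (by norm_num) (by norm_num) (by norm_num) (by norm_num) (by norm_num) (by norm_num) (by norm_num) (by norm_num) (by norm_num) (by norm_num) (by norm_num) (by norm_num) (by norm_num) (by norm_num) (by norm_num) (by norm_num) (by norm_num) (by norm_num)
    (exp_neg_leJ (r := 0.652) 7 (by norm_num) (by norm_num) (by norm_num) (by norm_num))
    (exp_neg_leJ (r := 0.416) 5 (by norm_num) (by norm_num) (by norm_num) (by norm_num))
    (exp_neg_leJ (r := 0.982) 11 (by norm_num) (by norm_num) (by norm_num) (by norm_num))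
    (exp_neg_leJ (r := 0.99) 14 (by norm_num) (by norm_num) (by norm_num) (by norm_num))
    (exp_neg_leJ (r := 0.183) 6 (by norm_num) (by norm_num) (by norm_num) (by norm_num))
    (exp_neg_leJ (r := 0.99) 14 (by norm_num) (by norm_num) (by norm_num) (by norm_num))
    (exp_neg_leJ (r := 0.99) 14 (by norm_num) (by norm_num) (by norm_num) (by norm_num))
    (exp_neg_leJ (r := 0.99) 14 (by norm_num) (by norm_num) (by norm_num) (by norm_num))
    (by norm_num)) (by norm_num) hN hβ.le (by norm_num)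

private theorem B5Aw_T4_0_4 {β x y : ℝ} (hβ : 0 < β) (hN : β * 27.777 ≤ 1) (hx1 : 0.263 ≤ x) (hx2 : x ≤ 0.4)
    (hy1 : -0.4051 ≤ y) (hy2 : y ≤ -0.263) : ‖HH β (x + y * I) - 1‖ ≤ 0.06 := by
  refine le_epsJ (C := 1.6625) (N0 := 27.777) (J_boxp 0.263 0.4 0.4051 0 (-0.263) 0.6076 0.5694 0.8386 1.9336 0.3654 5.2704 27.777 0.9372 3.71 1.533 0.8923 0.3037 0.2088 0.4588 2.5556 0.2614 0.8641 0.9955 3.6902 0.0002172 0.003035 0.000002923 0.0000003101 0.0007032 0.0000003101 0.0000003101 0.0000003101 1.6625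
    hβ hN hx1 hx2 hy1 hy2 (by norm_num) (by norm_num) (by linarith) (by norm_num) (by norm_num) (by norm_num) (by norm_num) (by norm_num) (by norm_num) (by norm_num) (by norm_num) (by norm_num) (by norm_num) (by norm_num) (by norm_num) (by norm_num) (by norm_num) (by norm_num) (by norm_num) (by norm_num) (by norm_num) (by norm_num) (by norm_num) (by norm_num)
    (cube_sqrt_geJ (s := 0.8292) (by norm_num) (by norm_num) (by norm_num) (by norm_num))
    (cube_sqrt_geJ (s := 0.9408) (by norm_num) (by norm_num) (by norm_num) (by norm_num))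
    (by norm_num) (by norm_num) (by norm_num) (by norm_num) (by norm_num) (by norm_num) (by norm_num) (by norm_num) (by norm_num) (by norm_num) (by norm_num) (by norm_num) (by norm_num) (by norm_num) (by norm_num) (by norm_num) (by norm_num) (by norm_num)
    (exp_neg_leJ (r := 0.435) 8 (by norm_num) (by norm_num) (by norm_num) (by norm_num))
    (exp_neg_leJ (r := 0.799) 5 (by norm_num) (by norm_num) (by norm_num) (by norm_num))
    (exp_neg_leJ (r := 0.744) 12 (by norm_num) (by norm_num) (by norm_num) (by norm_num))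
    (exp_neg_leJ (r := 0.99) 14 (by norm_num) (by norm_num) (by norm_num) (by norm_num))
    (exp_neg_leJ (r := 0.26) 7 (by norm_num) (by norm_num) (by norm_num) (by norm_num))
    (exp_neg_leJ (r := 0.99) 14 (by norm_num) (by norm_num) (by norm_num) (by norm_num))
    (exp_neg_leJ (r := 0.99) 14 (by norm_num) (by norm_num) (by norm_num) (by norm_num))
    (exp_neg_leJ (r := 0.99) 14 (by norm_num) (by norm_num) (by norm_num) (by norm_num))
    (by norm_num)) (by norm_num) hN hβ.le (by norm_num)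

private theorem B5Aw_T4_0_5 {β x y : ℝ} (hβ : 0 < β) (hN : β * 27.777 ≤ 1) (hx1 : 0.4 ≤ x) (hx2 : x ≤ 0.5457)
    (hy1 : -0.4051 ≤ y) (hy2 : y ≤ -0.263) : ‖HH β (x + y * I) - 1‖ ≤ 0.06 := by
  refine le_epsJ (C := 1.4396) (N0 := 27.777) (J_boxp 0.4 0.5457 0.4051 0 (-0.263) 0.704 0.6797 0.9171 1.6213 0.3821 5.2704 27.777 0.9655 3.894 1.554 0.8362 0.3519 0.2387 0.5057 2.4809 0.328 1.0538 1.2695 3.6644 0.00005699 0.001321 0.0000007942 0.0000003101 0.0001106 0.0000003101 0.0000003101 0.0000003101 1.4396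
    hβ hN hx1 hx2 hy1 hy2 (by norm_num) (by norm_num) (by linarith) (by norm_num) (by norm_num) (by norm_num) (by norm_num) (by norm_num) (by norm_num) (by norm_num) (by norm_num) (by norm_num) (by norm_num) (by norm_num) (by norm_num) (by norm_num) (by norm_num) (by norm_num) (by norm_num) (by norm_num) (by norm_num) (by norm_num) (by norm_num) (by norm_num)
    (cube_sqrt_geJ (s := 0.8235) (by norm_num) (by norm_num) (by norm_num) (by norm_num))
    (cube_sqrt_geJ (s := 0.939) (by norm_num) (by norm_num) (by norm_num) (by norm_num))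
    (by norm_num) (by norm_num) (by norm_num) (by norm_num) (by norm_num) (by norm_num) (by norm_num) (by norm_num) (by norm_num) (by norm_num) (by norm_num) (by norm_num) (by norm_num) (by norm_num) (by norm_num) (by norm_num) (by norm_num) (by norm_num)
    (exp_neg_leJ (r := 0.774) 9 (by norm_num) (by norm_num) (by norm_num) (by norm_num))
    (exp_neg_leJ (r := 0.63) 6 (by norm_num) (by norm_num) (by norm_num) (by norm_num))
    (exp_neg_leJ (r := 0.046) 14 (by norm_num) (by norm_num) (by norm_num) (by norm_num))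
    (exp_neg_leJ (r := 0.99) 14 (by norm_num) (by norm_num) (by norm_num) (by norm_num))
    (exp_neg_leJ (r := 0.11) 9 (by norm_num) (by norm_num) (by norm_num) (by norm_num))
    (exp_neg_leJ (r := 0.99) 14 (by norm_num) (by norm_num) (by norm_num) (by norm_num))
    (exp_neg_leJ (r := 0.99) 14 (by norm_num) (by norm_num) (by norm_num) (by norm_num))
    (exp_neg_leJ (r := 0.99) 14 (by norm_num) (by norm_num) (by norm_num) (by norm_num))
    (by norm_num)) (by norm_num) hN hβ.le (by norm_num)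

private theorem B5Aw_T4_1_0 {β x y : ℝ} (hβ : 0 < β) (hN : β * 27.777 ≤ 1) (hx1 : 0.1028 ≤ x) (hx2 : x ≤ 0.461)
    (hy1 : -0.263 ≤ y) (hy2 : y ≤ -0.0999) : ‖HH β (x + y * I) - 1‖ ≤ 0.06 := by
  refine le_epsJ (C := 1.6623) (N0 := 27.777) (J_boxp 0.1028 0.461 0.263 0 (-0.0999) 0.5956 0.5308 1.0113 2.1879 0.4012 5.2704 27.777 0.8913 3.435 1.499 1 0.2977 0.2093 0.6283 2.9932 0.2612 0.6423 1.0613 3.4748 0.0002564 0.002994 0.0000003101 0.0000003101 0.0007067 0.0000003101 0.0000003101 0.0000003101 1.6623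
    hβ hN hx1 hx2 hy1 hy2 (by norm_num) (by norm_num) (by linarith) (by norm_num) (by norm_num) (by norm_num) (by norm_num) (by norm_num) (by norm_num) (by norm_num) (by norm_num) (by norm_num) (by norm_num) (by norm_num) (by norm_num) (by norm_num) (by norm_num) (by norm_num) (by norm_num) (by norm_num) (by norm_num) (by norm_num) (by norm_num) (by norm_num)
    (cube_sqrt_geJ (s := 0.8383) (by norm_num) (by norm_num) (by norm_num) (by norm_num))
    (cube_sqrt_geJ (s := 0.9438) (by norm_num) (by norm_num) (by norm_num) (by norm_num))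
    (by norm_num) (by norm_num) (by norm_num) (by norm_num) (by norm_num) (by norm_num) (by norm_num) (by norm_num) (by norm_num) (by norm_num) (by norm_num) (by norm_num) (by norm_num) (by norm_num) (by norm_num) (by norm_num) (by norm_num) (by norm_num)
    (exp_neg_leJ (r := 0.269) 8 (by norm_num) (by norm_num) (by norm_num) (by norm_num))
    (exp_neg_leJ (r := 0.813) 5 (by norm_num) (by norm_num) (by norm_num) (by norm_num))
    (exp_neg_leJ (r := 0.99) 14 (by norm_num) (by norm_num) (by norm_num) (by norm_num))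
    (exp_neg_leJ (r := 0.99) 14 (by norm_num) (by norm_num) (by norm_num) (by norm_num))
    (exp_neg_leJ (r := 0.255) 7 (by norm_num) (by norm_num) (by norm_num) (by norm_num))
    (exp_neg_leJ (r := 0.99) 14 (by norm_num) (by norm_num) (by norm_num) (by norm_num))
    (exp_neg_leJ (r := 0.99) 14 (by norm_num) (by norm_num) (by norm_num) (by norm_num))
    (exp_neg_leJ (r := 0.99) 14 (by norm_num) (by norm_num) (by norm_num) (by norm_num))
    (by norm_num)) (by norm_num) hN hβ.le (by norm_num)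

private theorem B5Aw_T4_1_1 {β x y : ℝ} (hβ : 0 < β) (hN : β * 27.777 ≤ 1) (hx1 : 0.461 ≤ x) (hx2 : x ≤ 0.5457)
    (hy1 : -0.263 ≤ y) (hy2 : y ≤ -0.0999) : ‖HH β (x + y * I) - 1‖ ≤ 0.06 := by
  refine le_epsJ (C := 0.5397) (N0 := 27.777) (J_boxp 0.461 0.5457 0.263 0 (-0.0999) 0.8479 0.6058 1.0527 1.3142 0.4094 5.2704 27.777 0.7145 2.592 1.378 0.9674 0.4239 0.3229 0.7509 2.9469 0.4352 1.1383 1.7777 3.9873 0.000007712 0.0001278 0.0000003101 0.0000003101 0.000005627 0.0000003101 0.0000003101 0.0000003101 0.5397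
    hβ hN hx1 hx2 hy1 hy2 (by norm_num) (by norm_num) (by linarith) (by norm_num) (by norm_num) (by norm_num) (by norm_num) (by norm_num) (by norm_num) (by norm_num) (by norm_num) (by norm_num) (by norm_num) (by norm_num) (by norm_num) (by norm_num) (by norm_num) (by norm_num) (by norm_num) (by norm_num) (by norm_num) (by norm_num) (by norm_num) (by norm_num)
    (cube_sqrt_geJ (s := 0.8728) (by norm_num) (by norm_num) (by norm_num) (by norm_num))
    (cube_sqrt_geJ (s := 0.9552) (by norm_num) (by norm_num) (by norm_num) (by norm_num))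
    (by norm_num) (by norm_num) (by norm_num) (by norm_num) (by norm_num) (by norm_num) (by norm_num) (by norm_num) (by norm_num) (by norm_num) (by norm_num) (by norm_num) (by norm_num) (by norm_num) (by norm_num) (by norm_num) (by norm_num) (by norm_num)
    (exp_neg_leJ (r := 0.774) 11 (by norm_num) (by norm_num) (by norm_num) (by norm_num))
    (exp_neg_leJ (r := 0.969) 8 (by norm_num) (by norm_num) (by norm_num) (by norm_num))
    (exp_neg_leJ (r := 0.99) 14 (by norm_num) (by norm_num) (by norm_num) (by norm_num))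
    (exp_neg_leJ (r := 0.99) 14 (by norm_num) (by norm_num) (by norm_num) (by norm_num))
    (exp_neg_leJ (r := 0.088) 12 (by norm_num) (by norm_num) (by norm_num) (by norm_num))
    (exp_neg_leJ (r := 0.99) 14 (by norm_num) (by norm_num) (by norm_num) (by norm_num))
    (exp_neg_leJ (r := 0.99) 14 (by norm_num) (by norm_num) (by norm_num) (by norm_num))
    (exp_neg_leJ (r := 0.99) 14 (by norm_num) (by norm_num) (by norm_num) (by norm_num))
    (by norm_num)) (by norm_num) hN hβ.le (by norm_num)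

private theorem B5Aw_T4 {β x y : ℝ} (hβ : 0 < β) (hN : β * 27.777 ≤ 1) (hx1 : 0.1028 ≤ x) (hx2 : x ≤ 0.5457)
    (hy1 : (-0.4051) ≤ y) (hy2 : y ≤ (-0.0999)) : ‖HH β (x + y * I) - 1‖ ≤ 0.06 := by
  rcases le_total y (-0.263) with hyy | hyy
  · rcases le_total x 0.138 with hxx | hxx
    · exact B5Aw_T4_0_0 hβ hN (norm_box5 0.138 0.4051 0.428 (by linarith) (by linarith) (by linarith) (by linarith) (by norm_num) (by norm_num))
    rcases le_total x 0.149 with hxx | hxx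
    · exact B5Aw_T4_0_1 hβ hN (by linarith) (by linarith) (by linarith) (by linarith)
    rcases le_total x 0.183 with hxx | hxx
    · exact B5Aw_T4_0_2 hβ hN (by linarith) (by linarith) (by linarith) (by linarith)
    rcases le_total x 0.263 with hxx | hxx
    · exact B5Aw_T4_0_3 hβ hN (by linarith) (by linarith) (by linarith) (by linarith)
    rcases le_total x 0.4 with hxx | hxx
    · exact B5Aw_T4_0_4 hβ hN (by linarith) (by linarith) (by linarith) (by linarith)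
    exact B5Aw_T4_0_5 hβ hN (by linarith) (by linarith) (by linarith) (by linarith)
  rcases le_total x 0.461 with hxx | hxx
  · exact B5Aw_T4_1_0 hβ hN (by linarith) (by linarith) (by linarith) (by linarith)
  exact B5Aw_T4_1_1 hβ hN (by linarith) (by linarith) (by linarith) (by linarith)

private theorem B5Aw_C5 {β r t κ : ℝ} (hβ : 0 < β) (hr : 10 ≤ r) (hκ : κ = β * r) (hk1 : 0.3 ≤ κ) (hk2 : κ ≤ 0.36) (hta : 1.822 ≤ t + κ)
    (htb : t + κ ≤ 1.9587) : ‖F (cexp (I * β)) (r * cexp (I * ((t + β / 2 : ℝ) : ℂ)))‖ ≤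
      5.1417 * Real.exp (r * (0.14 + 1 / 20)) :=
  v5_UD 0.3 0.36 1.822 1.9587 0.14 0.7284 0.14 2.6806 5.1417 hβ hr hκ (by norm_num) hk1 hk2 hta htb (by norm_num) (by norm_num) (by norm_num) (by norm_num) (by norm_num) (by norm_num) (by norm_num) (by norm_num) (by norm_num) (by norm_num) (by norm_num)

private theorem B5Aw_G6 {κ : ℝ} (hk1 : 0.3 ≤ κ) (hk2 : κ ≤ 0.36) : gG κ (-0.71) ≤ 1.23725 ∧ 1.5311 ≤ Real.exp (-(κ * (-0.71))) ^ 2 := by
  refine ⟨gG_le (-0.71) 0.3 0.36 1.23725 1.23739 1.29124 0.80816 0.77446 hk1 hk2 (by norm_num)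
    (ex_up 0.213 (by norm_num) (by norm_num) (by norm_num) (by norm_num)) (ex_up 0.2556 (by norm_num) (by norm_num) (by norm_num) (by norm_num))
    (ex_um 0.213 (by norm_num) (by norm_num) (by norm_num) (by norm_num)) (ex_um 0.2556 (by norm_num) (by norm_num) (by norm_num) (by norm_num))
    (by norm_num) (by norm_num), ?_⟩
  exact v5_M 1.23738 (ex_lp 0.213 (by linarith) (by norm_num) (by norm_num)) (by norm_num) (by norm_num)

private theorem B5Aw_C7 {β r t κ : ℝ} (hβ : 0 < β) (hr : 10 ≤ r) (hκ : κ = β * r) (hk1 : 0.3 ≤ κ) (hk2 : κ ≤ 0.36) (hta : (-1.9479) ≤ t + κ)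
    (htb : t + κ ≤ (-1.8112)) : ‖F (cexp (I * β)) (r * cexp (I * ((t + β / 2 : ℝ) : ℂ)))‖ ≤
      2.2213 * Real.exp (r * (1.23725 - (-0.71) * (t + κ))) + 2.3004 * Real.exp (r * 0.0501) :=
  v5_HU (-0.71) 0.3 0.36 (-1.9479) (-1.8112) 1.23725 2.2213 1.5311 0.0757 1.3971 2.404 0 0.0501 0.00000203 2.3004 hβ hr hκ (by norm_num) hk1 hk2 hta htb (by norm_num) (by norm_num) (B5Aw_G6 hk1 hk2).1 (B5Aw_G6 hk1 hk2).2 (by norm_num) (by norm_num) (by norm_num)
    (by norm_num) (by norm_num) (by norm_num) (by norm_num) (by norm_num) (by norm_num) (by norm_num)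
    (by norm_num) (by norm_num) (by norm_num) (v5_hump 6.8231 27.777 5.2704 0.0000009316 0.00000203 hβ hr hκ hk1 hk2 (by norm_num) htb (by norm_num) (by norm_num) (by norm_num) (by norm_num) (by norm_num) (by norm_num) (by norm_num) (ex_un 13 0.9 (by norm_num) (by norm_num) (by norm_num) (by norm_num)) (by norm_num)) (by norm_num)

private theorem B5Aw_C8 {β r t κ : ℝ} (hβ : 0 < β) (hr : 10 ≤ r) (hκ : κ = β * r) (hk1 : 0.3 ≤ κ) (hk2 : κ ≤ 0.36) (hta : 3.0786 ≤ t + κ)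
    (htb : t + κ ≤ 3.2153) : ‖F (cexp (I * β)) (r * cexp (I * ((t + β / 2 : ℝ) : ℂ)))‖ ≤
      3.3914 * Real.exp (r * (0.01 + 1 / 20)) :=
  v5_UD 0.3 0.36 3.0786 3.2153 0.01 0.7284 0.01 1.7681 3.3914 hβ hr hκ (by norm_num) hk1 hk2 hta htb (by norm_num) (by norm_num) (by norm_num) (by norm_num) (by norm_num) (by norm_num) (by norm_num) (by norm_num) (by norm_num) (by norm_num) (by norm_num)

private theorem B5Aw_Y9 {β r t κ h t' : ℝ} (hβ : 0 < β) (hκ : κ = β * r) (hN : β * 27.777 ≤ 1) (hk1 : 0.3 ≤ κ) (hk2 : κ ≤ 0.36)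
    (ht : t' = t + (((1 : ℤ) : ℝ) - 1) * h) (hD : DomR κ t') (hta : 0.5654 ≤ t' + κ) (htb : t' + κ ≤ 0.666) :
    0.888 * Real.exp (r * sE κ t') ≤ ‖Xf β r h t 1‖ := by
  obtain ⟨⟨ya, yb⟩, ⟨xa, xb⟩, n1, Da, Db⟩ := B5Aw_B1 hD hk1 hk2 hta htb
  have J := B5Aw_T3 (x := sx κ t') (y := sy κ t') hβ hN (by linarith only [xa, xb, ya, yb]) (by linarith only [xa, xb, ya, yb]) (by linarith only [xa, xb, ya, yb]) (by linarith only [xa, xb, ya, yb])
  exact v5_Jlo hβ hκ (k := 1) ht hD 0.03 1.4232 0.888 (by norm_num) J Db (by norm_num)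

private theorem B5Aw_Y10 {β r t κ h t' : ℝ} (hβ : 0 < β) (hκ : κ = β * r) (hN : β * 27.777 ≤ 1) (hk1 : 0.3 ≤ κ) (hk2 : κ ≤ 0.36)
    (ht : t' = t + (((0 : ℤ) : ℝ) - 1) * h) (hD : DomR κ t') (hta : (-0.6913) ≤ t' + κ) (htb : t' + κ ≤ (-0.5906)) :
    0.9959 * Real.exp (r * sE κ t') ≤ ‖Xf β r h t 0‖ := by
  obtain ⟨⟨ya, yb⟩, ⟨xa, xb⟩, n1, Da, Db⟩ := B5Aw_B2 hD hk1 hk2 hta htb
  have J := B5Aw_T4 (x := sx κ t') (y := sy κ t') hβ hN (by linarith only [xa, xb, ya, yb]) (by linarith only [xa, xb, ya, yb]) (by linarith only [xa, xb, ya, yb]) (by linarith only [xa, xb, ya, yb])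
  exact v5_Jlo hβ hκ (k := 0) ht hD 0.06 0.7934 0.9959 (by norm_num) J Db (by norm_num)

private theorem B5Aw_V11 {κ t : ℝ} (hD : DomR κ t) (hk1 : 0.3 ≤ κ) (hk2 : κ ≤ 0.36) (hta : 0.5654 ≤ t + κ) (htb : t + κ ≤ 0.666) :
    1.14919 - 0.507 * (t + κ) ≤ sE κ t := by
  have hκ0 : 0 < κ := hD.1
  exact v5_V1 hD 0.3 0.36 0.5654 0.666 0.05537 0.15801 0.14549 1.14919 0.507 (by norm_num) hk1 hk2 (by norm_num) (by norm_num) hta htb (by norm_num) (clo5 0.3 0.36 0.14549 (by norm_num) hk1 hk2 (by norm_num) (by norm_num) (by norm_num))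
      ((cup1 0.36 hκ0.le hk2 (by norm_num)).trans (by norm_num)) (by norm_num) (by norm_num) (by norm_num) (by norm_num) (by norm_num) (by norm_num)

private theorem B5Aw_V12 {κ t : ℝ} (hD : DomR κ t) (hk1 : 0.3 ≤ κ) (hk2 : κ ≤ 0.36) (hta : (-0.6913) ≤ t + κ) (htb : t + κ ≤ (-0.5906)) :
    1.24256 + 0.7616 * (t + κ) ≤ sE κ t := by
  have hκ0 : 0 < κ := hD.1
  exact v5_V0 hD 0.3 0.36 (-0.6913) (-0.5906) 0.6914 0.6476 0.14496 0.01297 0.77219 0.33028 1.24256 0.7616 (by norm_num) hk1 hk2 (by norm_num) hta htb (by norm_num) (by norm_num) (by norm_num) ((cup1 0.36 hκ0.le hk2 (by norm_num)).trans (by norm_num))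
      (by norm_num) (by norm_num) (by norm_num) (by norm_num) (by norm_num) (by norm_num) (by norm_num) (by norm_num) (by norm_num) (by norm_num) (by norm_num) (by norm_num) (by norm_num)

private theorem B5Aw_S13 {β r t κ h t' : ℝ} (hβ : 0 < β) (hκ : κ = β * r) (hN : β * 27.777 ≤ 1) (hk1 : 0.3 ≤ κ) (hk2 : κ ≤ 0.36)
    (ht : t' = t + (((1 : ℤ) : ℝ) - 1) * h) (hD : DomR κ t') (hta : 0.5654 ≤ t' + κ) (htb : t' + κ ≤ 0.666) :
    Xf β r h t 1 ≠ 0 ∧ |(Ld β r h t 1).im - (sy κ t' / β + sx κ t' / sD κ t' * ((1 + sy κ t') / sD κ t' - 1 / 2))| ≤ 0.0571 ∧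
      ‖Ld β r h t 1 - sg κ t' / β‖ ≤ 0.1775 ∧ -0.0001 ≤ sx κ t' / sD κ t' * ((1 + sy κ t') / sD κ t' - 1 / 2) ∧
      (0.125 ≤ sy κ t' ∧ sy κ t' ≤ 0.165) ∧ (0.1935 ≤ sx κ t' ∧ sx κ t' ≤ 0.2921) := by
  obtain ⟨⟨y1, y2⟩, ⟨x1, x2⟩, n1, Da, Db⟩ := B5Aw_B1 hD hk1 hk2 hta htb
  have hd := v5_disc (β := β) (κ := κ) (t := t') (ε := 0.03) 0.15 0.0434 0.4422 (-0.0251) 0.3151 0.1935 0.2921 0.125 0.165
    (fun x y g1 g2 g3 g4 => B5Aw_T3 hβ hN g1 g2 g3 g4) x1 x2 y1 y2 (by norm_num) (by norm_num) (by norm_num) (by norm_num)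
  obtain ⟨nz, im, nL⟩ := v5_slope (h := h) (t := t) (k := 1) 0.15 0.03 0.3178 1.32 0.2062 0.0571 hβ hκ ht hD (by norm_num) (by norm_num) (by linarith only [y1]) hd n1 (by norm_num) Da (by norm_num) (by norm_num) (by norm_num) (by norm_num)
  have ex := ex_lo hD 0.3178 1.32 1.4232 0.125 0 0.0001 n1 (by norm_num) Da Db y1 (by norm_num) (by norm_num) (by norm_num) (by norm_num)
  exact ⟨nz, im, nL.trans (by norm_num), ex, ⟨y1, y2⟩, x1, x2⟩

private theorem B5Aw_S14 {β r t κ h t' : ℝ} (hβ : 0 < β) (hκ : κ = β * r) (hN : β * 27.777 ≤ 1) (hk1 : 0.3 ≤ κ) (hk2 : κ ≤ 0.36)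
    (ht : t' = t + (((0 : ℤ) : ℝ) - 1) * h) (hD : DomR κ t') (hta : (-0.6913) ≤ t' + κ) (htb : t' + κ ≤ (-0.5906)) :
    Xf β r h t 0 ≠ 0 ∧ |(Ld β r h t 0).im - (sy κ t' / β + sx κ t' / sD κ t' * ((1 + sy κ t') / sD κ t' - 1 / 2))| ≤ 0.4183 ∧
      ‖Ld β r h t 0 - sg κ t' / β‖ ≤ 0.8579 ∧ sx κ t' / sD κ t' * ((1 + sy κ t') / sD κ t' - 1 / 2) ≤ 0.8263 ∧
      ((-0.305) ≤ sy κ t' ∧ sy κ t' ≤ (-0.2)) ∧ (0.2029 ≤ sx κ t' ∧ sx κ t' ≤ 0.4456) := by
  obtain ⟨⟨y1, y2⟩, ⟨x1, x2⟩, n1, Da, Db⟩ := B5Aw_B2 hD hk1 hk2 hta htb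
  have hd := v5_disc (β := β) (κ := κ) (t := t') (ε := 0.06) 0.1 0.1028 0.5457 (-0.4051) (-0.0999) 0.2029 0.4456 (-0.305) (-0.2)
    (fun x y g1 g2 g3 g4 => B5Aw_T4 hβ hN g1 g2 g3 g4) x1 x2 y1 y2 (by norm_num) (by norm_num) (by norm_num) (by norm_num)
  obtain ⟨nz, im, nL⟩ := v5_slope (h := h) (t := t) (k := 0) 0.1 0.06 0.4884 0.5556 0.6383 0.4183 hβ hκ ht hD (by norm_num) (by norm_num) (by linarith only [y1]) hd n1 (by norm_num) Da (by norm_num) (by norm_num) (by norm_num) (by norm_num)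
  have ex := ex_hi hD 0.4884 0.5556 (-0.2) 0.9399 0.8263 n1 (by norm_num) Da y2 (by norm_num) (by norm_num) (by norm_num) (by norm_num)
  exact ⟨nz, im, nL.trans (by norm_num), ex, ⟨y1, y2⟩, x1, x2⟩

private theorem B5Aw_L15 {β r κ t1 t0 : ℝ} {L0 L1 : ℂ} (hβ : 0 < β) (hr : 10 ≤ r) (hκ : κ = β * r) (hk1 : 0.3 ≤ κ)
    (nA0 : ‖L0 - sg κ t0 / β‖ ≤ 0.8579) (nA1 : ‖L1 - sg κ t1 / β‖ ≤ 0.1775)
    (y0 : (-0.305) ≤ sy κ t0 ∧ sy κ t0 ≤ (-0.2)) (x0 : 0.2029 ≤ sx κ t0 ∧ sx κ t0 ≤ 0.4456)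
    (y1 : 0.125 ≤ sy κ t1 ∧ sy κ t1 ≤ 0.165) (x1 : 0.1935 ≤ sx κ t1 ∧ sx κ t1 ≤ 0.2921) :
    ‖(1 : ℂ) * L0 + (-2 : ℂ) * L1‖ ≤ r * 2.591 := by
  obtain ⟨y0a, y0b⟩ := y0
  obtain ⟨x0a, x0b⟩ := x0
  obtain ⟨y1a, y1b⟩ := y1
  obtain ⟨x1a, x1b⟩ := x1
  have hN := v5_cN (κ := κ) (t1 := t1) (t0 := t0) 1 (-2) 0.3814 0.6351 0.7409 (abs_le.2 ⟨by linarith only [x0a, x0b, x1a, x1b], by linarith only [x0a, x0b, x1a, x1b]⟩)
    (abs_le.2 ⟨by linarith only [y0a, y0b, y1a, y1b], by linarith only [y0a, y0b, y1a, y1b]⟩) (by norm_num) (by norm_num)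
  have h1 := v5_comb 1 (-2) 0.3 0.8579 0.1775 0.7409 2.591 hβ hr hκ (by norm_num) hk1 nA0 nA1 hN (by norm_num [abs_of_neg, abs_of_pos])
  norm_num at h1 ⊢
  exact h1

private theorem B5Aw_L16 {β r κ t1 t0 : ℝ} {L0 L1 : ℂ} (hβ : 0 < β) (hr : 10 ≤ r) (hκ : κ = β * r) (hk1 : 0.3 ≤ κ)
    (nA0 : ‖L0 - sg κ t0 / β‖ ≤ 0.8579) (nA1 : ‖L1 - sg κ t1 / β‖ ≤ 0.1775)
    (y0 : (-0.305) ≤ sy κ t0 ∧ sy κ t0 ≤ (-0.2)) (x0 : 0.2029 ≤ sx κ t0 ∧ sx κ t0 ≤ 0.4456)
    (y1 : 0.125 ≤ sy κ t1 ∧ sy κ t1 ≤ 0.165) (x1 : 0.1935 ≤ sx κ t1 ∧ sx κ t1 ≤ 0.2921) :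
    ‖(-2 : ℂ) * L0 + (1 : ℂ) * L1‖ ≤ r * 3.666 := by
  obtain ⟨y0a, y0b⟩ := y0
  obtain ⟨x0a, x0b⟩ := x0
  obtain ⟨y1a, y1b⟩ := y1
  obtain ⟨x1a, x1b⟩ := x1
  have hN := v5_cN (κ := κ) (t1 := t1) (t0 := t0) (-2) 1 0.6978 0.7751 1.043 (abs_le.2 ⟨by linarith only [x0a, x0b, x1a, x1b], by linarith only [x0a, x0b, x1a, x1b]⟩)
    (abs_le.2 ⟨by linarith only [y0a, y0b, y1a, y1b], by linarith only [y0a, y0b, y1a, y1b]⟩) (by norm_num) (by norm_num)
  have h1 := v5_comb (-2) 1 0.3 0.8579 0.1775 1.043 3.666 hβ hr hκ (by norm_num) hk1 nA0 nA1 hN (by norm_num [abs_of_neg, abs_of_pos])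
  norm_num at h1 ⊢
  exact h1

private theorem B5Aw_L17 {β r κ t1 t0 : ℝ} {L0 L1 : ℂ} (hβ : 0 < β) (hr : 10 ≤ r) (hκ : κ = β * r) (hk1 : 0.3 ≤ κ)
    (nA0 : ‖L0 - sg κ t0 / β‖ ≤ 0.8579) (nA1 : ‖L1 - sg κ t1 / β‖ ≤ 0.1775)
    (y0 : (-0.305) ≤ sy κ t0 ∧ sy κ t0 ≤ (-0.2)) (x0 : 0.2029 ≤ sx κ t0 ∧ sx κ t0 ≤ 0.4456)
    (y1 : 0.125 ≤ sy κ t1 ∧ sy κ t1 ≤ 0.165) (x1 : 0.1935 ≤ sx κ t1 ∧ sx κ t1 ≤ 0.2921) :
    ‖(-3 : ℂ) * L0 + (2 : ℂ) * L1‖ ≤ r * 5.5133 := by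
  obtain ⟨y0a, y0b⟩ := y0
  obtain ⟨x0a, x0b⟩ := x0
  obtain ⟨y1a, y1b⟩ := y1
  obtain ⟨x1a, x1b⟩ := x1
  have hN := v5_cN (κ := κ) (t1 := t1) (t0 := t0) (-3) 2 0.9499 1.2451 1.5661 (abs_le.2 ⟨by linarith only [x0a, x0b, x1a, x1b], by linarith only [x0a, x0b, x1a, x1b]⟩)
    (abs_le.2 ⟨by linarith only [y0a, y0b, y1a, y1b], by linarith only [y0a, y0b, y1a, y1b]⟩) (by norm_num) (by norm_num)
  have h1 := v5_comb (-3) 2 0.3 0.8579 0.1775 1.5661 5.5133 hβ hr hκ (by norm_num) hk1 nA0 nA1 hN (by norm_num [abs_of_neg, abs_of_pos])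
  norm_num at h1 ⊢
  exact h1

private theorem B5Aw_K18 {β r t κ h : ℝ} (hβ : 0 < β) (hr : 10 ≤ r) (hκ : κ = β * r) (hk1 : 0.3 ≤ κ) (hk2 : κ ≤ 0.36)
    (hh : h = 2 * Real.pi / 5) (hh1 : 1.25663 ≤ h) (hh2 : h ≤ 1.25664) (hta : 0.5654 ≤ t + κ) (htb : t + κ ≤ 0.666)
    (hβ1 : β ≤ 0.036)
    (hY : 0.888 * Real.exp (r * sE κ t) ≤ ‖Xf β r h t 1‖) (hV : 1.14919 - 0.507 * (t + κ) ≤ sE κ t) :
    ‖Xf β r h t 2‖ ≤ 0.0116 * ‖Xf β r h t 1‖ ∧ ‖Xf β r h (t + β) 2‖ ≤ 0.0116 * ‖Xf β r h t 1‖ := by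
  constructor
  · rw [v5_X 2 1 (by push_cast; ring)]
    exact v5_cmp0 0.6215 0.002 0.0116 hr (B5Aw_C5 (t := t + 1 * h) hβ hr hκ hk1 hk2 (by linarith only [hta, htb, hh1, hh2, hβ, hβ1]) (by linarith only [hta, htb, hh1, hh2, hβ, hβ1])) hY (by norm_num) (by norm_num) (by norm_num) (by linarith only [hV, hta, htb, hh1, hh2]) (ex_un 6 0.2149 (by norm_num) (by norm_num) (by norm_num) (by norm_num)) (by norm_num)
  · rw [v5_X 2 1 (by push_cast; ring)]
    exact v5_cmp0 0.6215 0.002 0.0116 hr (B5Aw_C5 (t := t + β + 1 * h) hβ hr hκ hk1 hk2 (by linarith only [hta, htb, hh1, hh2, hβ, hβ1]) (by linarith only [hta, htb, hh1, hh2, hβ, hβ1])) hY (by norm_num) (by norm_num) (by norm_num) (by linarith only [hV, hta, htb, hh1, hh2]) (ex_un 6 0.2149 (by norm_num) (by norm_num) (by norm_num) (by norm_num)) (by norm_num)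

private theorem B5Aw_K19 {β r t κ h : ℝ} (hβ : 0 < β) (hr : 10 ≤ r) (hκ : κ = β * r) (hk1 : 0.3 ≤ κ) (hk2 : κ ≤ 0.36)
    (hh : h = 2 * Real.pi / 5) (hh1 : 1.25663 ≤ h) (hh2 : h ≤ 1.25664) (hta : 0.5654 ≤ t + κ) (htb : t + κ ≤ 0.666)
    (hβ1 : β ≤ 0.036)
    (hY : 0.9959 * Real.exp (r * sE κ (t - h)) ≤ ‖Xf β r h t 0‖) (hV : 1.24256 + 0.7616 * (t - h + κ) ≤ sE κ (t - h)) :
    ‖Xf β r h t (-1)‖ ≤ 0.00339 * ‖Xf β r h t 0‖ ∧ ‖Xf β r h (t + β) (-1)‖ ≤ 0.00351 * ‖Xf β r h t 0‖ := by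
  constructor
  · rw [v5_X (-1) (-2) (by push_cast; ring)]
    exact v5_cmp 0.8618 0.0001816 0.000406 0.666 0.001288 0.00298 0.00339 hr (B5Aw_C7 (t := t + (-2) * h) hβ hr hκ hk1 hk2 (by linarith only [hta, htb, hh1, hh2, hβ, hβ1]) (by linarith only [hta, htb, hh1, hh2, hβ, hβ1])) hY (by norm_num) (by norm_num) (by norm_num) (by norm_num) (by linarith only [hV, hta, htb, hh1, hh2]) (ex_un 8 0.6179 (by norm_num) (by norm_num) (by norm_num) (by norm_num)) (by norm_num) (by norm_num) (by linarith only [hV, hta, htb, hh1, hh2]) (ex_un 6 0.6599 (by norm_num) (by norm_num) (by norm_num) (by norm_num)) (by norm_num) (by norm_num)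
  · rw [v5_X (-1) (-2) (by push_cast; ring)]
    have h1 := B5Aw_C7 (t := t + β + (-2) * h) hβ hr hκ hk1 hk2 (by linarith only [hta, htb, hh1, hh2, hβ, hβ1]) (by linarith only [hta, htb, hh1, hh2, hβ, hβ1])
    rw [show t + β + (-2) * h + κ = (t + (-2) * h + κ) + β by ring] at h1
    exact v5_cmpS 1.29124 0.8618 0.0001816 0.000524 0.666 0.001288 0.00298 0.00351 hr hκ h1 hY (by norm_num) (by norm_num) (by norm_num) (ex_up 0.2556 (by linarith only [hk1, hk2]) (by norm_num) (by norm_num) (by norm_num)) (by norm_num) (by linarith only [hV, hta, htb, hh1, hh2]) (ex_un 8 0.6179 (by norm_num) (by norm_num) (by norm_num) (by norm_num)) (by norm_num) (by norm_num) (by linarith only [hV, hta, htb, hh1, hh2]) (ex_un 6 0.6599 (by norm_num) (by norm_num) (by norm_num) (by norm_num)) (by norm_num) (by norm_num)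

private theorem B5Aw_K20 {β r t κ h : ℝ} (hβ : 0 < β) (hr : 10 ≤ r) (hκ : κ = β * r) (hk1 : 0.3 ≤ κ) (hk2 : κ ≤ 0.36)
    (hh : h = 2 * Real.pi / 5) (hh1 : 1.25663 ≤ h) (hh2 : h ≤ 1.25664) (hta : 0.5654 ≤ t + κ) (htb : t + κ ≤ 0.666)
    (hβ1 : β ≤ 0.036)
    (hY : 0.9959 * Real.exp (r * sE κ (t - h)) ≤ ‖Xf β r h t 0‖) (hV : 1.24256 + 0.7616 * (t - h + κ) ≤ sE κ (t - h)) :
    ‖Xf β r h t (-2)‖ ≤ 0.00484 * ‖Xf β r h t 0‖ ∧ ‖Xf β r h (t + β) (-2)‖ ≤ 0.00484 * ‖Xf β r h t 0‖ := by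
  constructor
  · rw [v5_Xm2 hh]
    exact v5_cmp0 0.6561 0.001419 0.00484 hr (B5Aw_C8 (t := t + 2 * h) hβ hr hκ hk1 hk2 (by linarith only [hta, htb, hh1, hh2, hβ, hβ1]) (by linarith only [hta, htb, hh1, hh2, hβ, hβ1])) hY (by norm_num) (by norm_num) (by norm_num) (by linarith only [hV, hta, htb, hh1, hh2]) (ex_un 6 0.5609 (by norm_num) (by norm_num) (by norm_num) (by norm_num)) (by norm_num)
  · rw [v5_Xm2 hh]
    exact v5_cmp0 0.6561 0.001419 0.00484 hr (B5Aw_C8 (t := t + β + 2 * h) hβ hr hκ hk1 hk2 (by linarith only [hta, htb, hh1, hh2, hβ, hβ1]) (by linarith only [hta, htb, hh1, hh2, hβ, hβ1])) hY (by norm_num) (by norm_num) (by norm_num) (by linarith only [hV, hta, htb, hh1, hh2]) (ex_un 6 0.5609 (by norm_num) (by norm_num) (by norm_num) (by norm_num)) (by norm_num)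

theorem B5Aw_W21 {β r t κ h : ℝ} (hβ : 0 < β) (hr : 10 ≤ r) (hκ : κ = β * r) (hk1 : 0.3 ≤ κ) (hk2 : κ ≤ 0.36)
    (hh : h = 2 * Real.pi / 5) (hta : 0.5654 ≤ t + κ) (htb : t + κ ≤ 0.666) :
    Xf β r h t 0 ≠ 0 ∧
    (‖Xf β r h t 2‖ ≤ 0.0117 * ‖Xf β r h t 1‖ ∧ ‖Xf β r h t (-1)‖ ≤ 0.00339 * ‖Xf β r h t 0‖ ∧
      ‖Xf β r h t (-2)‖ ≤ 0.00485 * ‖Xf β r h t 0‖) ∧
    (r * ‖Xf β r h (t + β) 2‖ + ‖Xf β r h t 2‖ * ‖(1 : ℂ) * Ld β r h t 0 + (-2 : ℂ) * Ld β r h t 1‖ ≤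
        r * 0.0421 * ‖Xf β r h t 1‖ ∧
      r * ‖Xf β r h (t + β) (-1)‖ + ‖Xf β r h t (-1)‖ * ‖(-2 : ℂ) * Ld β r h t 0 + (1 : ℂ) * Ld β r h t 1‖ ≤
        r * 0.016 * ‖Xf β r h t 0‖ ∧
      r * ‖Xf β r h (t + β) (-2)‖ + ‖Xf β r h t (-2)‖ * ‖(-3 : ℂ) * Ld β r h t 0 + (2 : ℂ) * Ld β r h t 1‖ ≤
        r * 0.0316 * ‖Xf β r h t 0‖) ∧
    r * 0.7596 ≤ (Ld β r h t 1 - Ld β r h t 0).im := by
  obtain ⟨hh1, hh2⟩ := v5_h hh
  have hκ0 : 0 < κ := by linarith only [hk1]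
  have hN : β * 27.777 ≤ 1 := v5_hN 0.36 27.777 hβ hr hκ hk2 (by norm_num) (by norm_num)
  have hD1 : DomR κ t := v5_dom hκ0 (by linarith only [hta, htb, hk1, hk2, hh1, hh2]) (Or.inr (by linarith only [hta, htb, hk1, hk2, hh1, hh2]))
  have hD0 : DomR κ (t - h) := v5_dom hκ0 (by linarith only [hta, htb, hk1, hk2, hh1, hh2]) (Or.inr (by linarith only [hta, htb, hk1, hk2, hh1, hh2]))
  have hβ1 : β ≤ 0.036 := by
    have := mul_le_mul_of_nonneg_left hr hβ.le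
    linarith only [this, hκ, hk2]
  have h0a : (-0.6913) ≤ t - h + κ := by linarith only [hta, htb, hh1, hh2]
  have h0b : t - h + κ ≤ (-0.5906) := by linarith only [hta, htb, hh1, hh2]
  have e1 : t = t + (((1 : ℤ) : ℝ) - 1) * h := by push_cast; ring
  have e0 : t - h = t + (((0 : ℤ) : ℝ) - 1) * h := by push_cast; ring
  have hY1 := B5Aw_Y9 (h := h) hβ hκ hN hk1 hk2 e1 hD1 hta htb
  have hY0 := B5Aw_Y10 (h := h) hβ hκ hN hk1 hk2 e0 hD0 h0a h0b
  have hV1 := B5Aw_V11 hD1 hk1 hk2 hta htb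
  have hV0 := B5Aw_V12 hD0 hk1 hk2 h0a h0b
  obtain ⟨nz1, im1, nA1, ex1, y1, x1⟩ := B5Aw_S13 (h := h) hβ hκ hN hk1 hk2 e1 hD1 hta htb
  obtain ⟨nz0, im0, nA0, ex0, y0, x0⟩ := B5Aw_S14 (h := h) hβ hκ hN hk1 hk2 e0 hD0 h0a h0b
  obtain ⟨cp2, dp2⟩ := B5Aw_K18 hβ hr hκ hk1 hk2 hh hh1 hh2 hta htb hβ1 hY1 hV1
  obtain ⟨cm1, dm1⟩ := B5Aw_K19 hβ hr hκ hk1 hk2 hh hh1 hh2 hta htb hβ1 hY0 hV0
  obtain ⟨cm2, dm2⟩ := B5Aw_K20 hβ hr hκ hk1 hk2 hh hh1 hh2 hta htb hβ1 hY0 hV0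
  have Lp2 := B5Aw_L15 hβ hr hκ hk1 nA0 nA1 y0 x0 y1 x1
  have Lm1 := B5Aw_L16 hβ hr hκ hk1 nA0 nA1 y0 x0 y1 x1
  have Lm2 := B5Aw_L17 hβ hr hκ hk1 nA0 nA1 y0 x0 y1 x1
  have hm : r * 0.7596 ≤ (Ld β r h t 1 - Ld β r h t 0).im :=
    v5_m 0.36 0.125 0.2 0.0001 0.8263 0.0571 0.4183 _ _ 0.7596 hβ hr hκ hk2 im1 im0 y1.1 (by linarith only [y0.2]) (by norm_num) ex1 ex0 (by norm_num) (by norm_num)
  have hr0 : 0 < r := by linarith only [hr]
  refine ⟨nz0, ⟨v5_emax _ cp2 (norm_nonneg _) (by norm_num), v5_emax _ cm1 (norm_nonneg _) (by norm_num), v5_emax _ cm2 (norm_nonneg _) (by norm_num)⟩, ⟨?_, ?_, ?_⟩, hm⟩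
  · exact v5_W hr0 dp2 cp2 Lp2 (norm_nonneg _) (norm_nonneg _) (norm_nonneg _) (by norm_num)
  · exact v5_W hr0 dm1 cm1 Lm1 (norm_nonneg _) (norm_nonneg _) (norm_nonneg _) (by norm_num)
  · exact v5_W hr0 dm2 cm2 Lm2 (norm_nonneg _) (norm_nonneg _) (norm_nonneg _) (by norm_num)

private theorem B5Aw_B22 {κ t : ℝ} (h : DomR κ t) (hk1 : 0.3 ≤ κ) (hk2 : κ ≤ 0.36) (ht1 : 0.666 ≤ t + κ) (ht2 : t + κ ≤ 0.7666) :
    (0.142 ≤ sy κ t ∧ sy κ t ≤ 0.183) ∧ (0.1699 ≤ sx κ t ∧ sx κ t ≤ 0.2783) ∧ κ * Real.exp (-sy κ t) ≤ 0.3124 ∧ 1.3517 ≤ sD κ t ∧ sD κ t ≤ 1.4559 := by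
  have hy1 : 0.142 ≤ sy κ t := syR_ge h 0.3 0.36 0.666 0.142 1.15257 1.15258 0.45462 0.54556 hk1 hk2 (by linarith) (by norm_num) (by norm_num)
    (expn_ge (by norm_num) (by norm_num)) (expn_le (by norm_num) (by norm_num) (by norm_num)) (by norm_num)
    (by norm_num) (by norm_num) (by norm_num) (by norm_num) (by norm_num) (by norm_num)
  have hy2 : sy κ t ≤ 0.183 := syR_le h 0.3 0.36 0.7666 0.183 1.20081 0.5798 0.61041 0.73251 hk1 hk2 (by linarith) (by norm_num) (by norm_num)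
    (expn_ge (by norm_num) (by norm_num)) (by norm_num) (by norm_num) (Or.inr ((mul_le_mul_of_nonneg_left (expn_le (E := 1.20082) (by norm_num) (by norm_num) (by norm_num)) (by norm_num)).trans (by norm_num))) (by norm_num) (by norm_num) (by norm_num)
  have hy1' : 0.142 ≤ sy κ t := by linarith
  have hy2' : sy κ t ≤ 0.183 := by linarith
  have hx1 : 0.1699 ≤ sx κ t := sx_lo h 0.3 0.183 0.1831 0.83276 0.1699 hk1 (by norm_num) hy2' (abs_le.2 ⟨by linarith, by linarith⟩) (ex_lm 0.183 (by norm_num) (by norm_num) (by norm_num) (by norm_num) (by norm_num)) (by norm_num) (by norm_num)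
  have hx2 : sx κ t ≤ 0.2783 := sx_hi h 0.36 0.142 0.142 0.86763 0.2783 hk2 hy1' (by norm_num) (le_trans (by linarith) (le_abs_self _)) (ex_um 0.142 (by norm_num) (by norm_num) (by norm_num) (by norm_num)) (by norm_num) (by norm_num)
  refine ⟨⟨hy1', hy2'⟩, ⟨hx1, hx2⟩, v5_n h 0.36 0.142 0.86763 0.3124 hk2 hy1' (ex_um 0.142 (by norm_num) (by norm_num) (by norm_num) (by norm_num)) (by norm_num), ?_, ?_⟩
  · exact v5_Dlo h 0.3 0.142 0.183 0.142 0.86762 1.3517 (by norm_num) hk1 hy1' hy2' (ex_lm 0.142 (by norm_num) (by norm_num) (by norm_num) (by norm_num) (by norm_num)) (by norm_num) (by norm_num) (by norm_num) (by norm_num)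
  · exact v5_Dup h 0.36 0.142 0.183 0.86763 0.83277 1.4559 hk2 hy1' hy2' (ex_um 0.142 (by norm_num) (by norm_num) (by norm_num) (by norm_num)) (ex_um 0.183 (by norm_num) (by norm_num) (by norm_num) (by norm_num)) (by norm_num) (by norm_num) (by norm_num)

private theorem B5Aw_B23 {κ t : ℝ} (h : DomR κ t) (hk1 : 0.3 ≤ κ) (hk2 : κ ≤ 0.36) (ht1 : (-0.5907) ≤ t + κ) (ht2 : t + κ ≤ (-0.49)) :
    ((-0.248) ≤ sy κ t ∧ sy κ t ≤ (-0.161)) ∧ (0.2502 ≤ sx κ t ∧ sx κ t ≤ 0.4324) ∧ κ * Real.exp (-sy κ t) ≤ 0.4614 ∧ 0.6517 ≤ sD κ t ∧ sD κ t ≤ 0.8569 := by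
  have hy1 : -0.248 ≤ sy κ t := syL_ge2 h 0.3 0.36 0.5907 0.248 0.78035 0.78036 0.5196 0.53757 0.6451 hk1 hk2 (by linarith) (by norm_num) (by norm_num) (by norm_num)
    (expm_ge (by norm_num) (by norm_num) (by norm_num) (by norm_num)) (expm_le (by norm_num) (by norm_num) (by norm_num)) (by norm_num)
    (by norm_num) (by norm_num) (by norm_num) (by norm_num) (by norm_num) (by norm_num)
  have hy2 : sy κ t ≤ -0.161 := syL_le h 0.3 0.36 0.49 0.161 0.85129 0.8513 0.38071 0.45687 hk1 hk2 (by linarith) (by norm_num) (by norm_num) (by norm_num)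
    (expm_ge (by norm_num) (by norm_num) (by norm_num) (by norm_num)) (expm_le (by norm_num) (by norm_num) (by norm_num)) (by norm_num)
    (by norm_num) (by norm_num) (by norm_num) (by norm_num) (by norm_num) (by norm_num)
  have hy1' : (-0.248) ≤ sy κ t := by linarith
  have hy2' : sy κ t ≤ (-0.161) := by linarith
  have hx1 : 0.2502 ≤ sx κ t := sx_lo h 0.3 (-0.161) 0.2481 1.17468 0.2502 hk1 (by norm_num) hy2' (abs_le.2 ⟨by linarith, by linarith⟩) (ex_lp 0.161 (by norm_num) (by norm_num) (by norm_num)) (by norm_num) (by norm_num)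
  have hx2 : sx κ t ≤ 0.4324 := sx_hi h 0.36 (-0.248) 0.161 1.28146 0.4324 hk2 hy1' (by norm_num) (le_trans (by linarith) (neg_le_abs _)) (ex_up 0.248 (by norm_num) (by norm_num) (by norm_num) (by norm_num)) (by norm_num) (by norm_num)
  refine ⟨⟨hy1', hy2'⟩, ⟨hx1, hx2⟩, v5_n h 0.36 (-0.248) 1.28146 0.4614 hk2 hy1' (ex_up 0.248 (by norm_num) (by norm_num) (by norm_num) (by norm_num)) (by norm_num), ?_, ?_⟩
  · exact v5_Dlo h 0.3 (-0.248) (-0.161) (-0.248) 1.28145 0.6517 (by norm_num) hk1 hy1' hy2' (ex_lp 0.248 (by norm_num) (by norm_num) (by norm_num)) (by norm_num) (by norm_num) (by norm_num) (by norm_num)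
  · exact v5_Dup h 0.36 (-0.248) (-0.161) 1.28146 1.17469 0.8569 hk2 hy1' hy2' (ex_up 0.248 (by norm_num) (by norm_num) (by norm_num) (by norm_num)) (ex_up 0.161 (by norm_num) (by norm_num) (by norm_num) (by norm_num)) (by norm_num) (by norm_num) (by norm_num)

private theorem B5Aw_T24_0_0 {β x y : ℝ} (hβ : 0 < β) (hN : β * 27.777 ≤ 1) (hn : ‖(x + y * I : ℂ)‖ ≤ 0.374) : ‖HH β (x + y * I) - 1‖ ≤ 0.03 := by
  refine le_epsJ (C := 0.8279) (N0 := 27.777) (J45_genN (N := 27.777) (r0 := 5.2704) (f := 2.5667) (n0 := 0.374) (a := 0.626) (wL := 1.762) (wR := 2.157)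
    (E1 := 0.007584) (E2 := 0.000001286) (E3 := 0.02795) (E4 := 0.00001999) (E5 := 0.0000003101) hβ (by norm_num) hN
    (by norm_num) (by norm_num) (by norm_num) hn (by norm_num) (by norm_num) (by norm_num)
    (cube_sqrt_geJ (s := 0.9223) (by norm_num) (by norm_num) (by norm_num) (by norm_num))
    (cube_sqrt_geJ (s := 0.896) (by norm_num) (by norm_num) (by norm_num) (by norm_num))
    (exp_neg_leJ (r := 0.884) 4 (by norm_num) (by norm_num) (by norm_num) (by norm_num))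
    (exp_neg_leJ (r := 0.565) 13 (by norm_num) (by norm_num) (by norm_num) (by norm_num))
    (exp_neg_leJ (r := 0.578) 3 (by norm_num) (by norm_num) (by norm_num) (by norm_num))
    (exp_neg_leJ (r := 0.822) 10 (by norm_num) (by norm_num) (by norm_num) (by norm_num))
    (exp_neg_leJ (r := 0.99) 14 (by norm_num) (by norm_num) (by norm_num) (by norm_num))
    (by norm_num)) (by norm_num) hN hβ.le (by norm_num)

private theorem B5Aw_T24_0_1 {β x y : ℝ} (hβ : 0 < β) (hN : β * 27.777 ≤ 1) (hx1 : 0.17 ≤ x) (hx2 : x ≤ 0.4284)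
    (hy1 : -0.0081 ≤ y) (hy2 : y ≤ 0.3331) : ‖HH β (x + y * I) - 1‖ ≤ 0.03 := by
  refine le_epsJ (C := 0.5458) (N0 := 27.777) (J_boxp 0.17 0.4284 0.0081 0.3331 0.3331 0.824 0.5427 1.4003 1.5821 0.4721 5.2704 27.777 0.6587 2.382 1.343 1.2478 0.4119 0.3215 1.0536 3.8001 0.3991 0.7014 0.46 2.0072 0.00001075 0.0001328 0.0000003101 0.0000003101 0.00001535 0.0000003101 0.000002829 0.0000003101 0.5458
    hβ hN hx1 hx2 hy1 hy2 (by norm_num) (by norm_num) (by linarith) (by norm_num) (by norm_num) (by norm_num) (by norm_num) (by norm_num) (by norm_num) (by norm_num) (by norm_num) (by norm_num) (by norm_num) (by norm_num) (by norm_num) (by norm_num) (by norm_num) (by norm_num) (by norm_num) (by norm_num) (by norm_num) (by norm_num) (by norm_num) (by norm_num)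
    (cube_sqrt_geJ (s := 0.8834) (by norm_num) (by norm_num) (by norm_num) (by norm_num))
    (cube_sqrt_geJ (s := 0.9588) (by norm_num) (by norm_num) (by norm_num) (by norm_num))
    (by norm_num) (by norm_num) (by norm_num) (by norm_num) (by norm_num) (by norm_num) (by norm_num) (by norm_num) (by norm_num) (by norm_num) (by norm_num) (by norm_num) (by norm_num) (by norm_num) (by norm_num) (by norm_num) (by norm_num) (by norm_num)
    (exp_neg_leJ (r := 0.441) 11 (by norm_num) (by norm_num) (by norm_num) (by norm_num))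
    (exp_neg_leJ (r := 0.93) 8 (by norm_num) (by norm_num) (by norm_num) (by norm_num))
    (exp_neg_leJ (r := 0.99) 14 (by norm_num) (by norm_num) (by norm_num) (by norm_num))
    (exp_neg_leJ (r := 0.99) 14 (by norm_num) (by norm_num) (by norm_num) (by norm_num))
    (exp_neg_leJ (r := 0.085) 11 (by norm_num) (by norm_num) (by norm_num) (by norm_num))
    (exp_neg_leJ (r := 0.99) 14 (by norm_num) (by norm_num) (by norm_num) (by norm_num))
    (exp_neg_leJ (r := 0.777) 12 (by norm_num) (by norm_num) (by norm_num) (by norm_num))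
    (exp_neg_leJ (r := 0.99) 14 (by norm_num) (by norm_num) (by norm_num) (by norm_num))
    (by norm_num)) (by norm_num) hN hβ.le (by norm_num)

private theorem B5Aw_T24 {β x y : ℝ} (hβ : 0 < β) (hN : β * 27.777 ≤ 1) (hx1 : 0.0198 ≤ x) (hx2 : x ≤ 0.4284)
    (hy1 : (-0.0081) ≤ y) (hy2 : y ≤ 0.3331) : ‖HH β (x + y * I) - 1‖ ≤ 0.03 := by
  rcases le_total x 0.17 with hxx | hxx
  · exact B5Aw_T24_0_0 hβ hN (norm_box5 0.17 0.3331 0.374 (by linarith) (by linarith) (by linarith) (by linarith) (by norm_num) (by norm_num))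
  exact B5Aw_T24_0_1 hβ hN (by linarith) (by linarith) (by linarith) (by linarith)

private theorem B5Aw_T25_0_0 {β x y : ℝ} (hβ : 0 < β) (hN : β * 27.777 ≤ 1) (hn : ‖(x + y * I : ℂ)‖ ≤ 0.387) : ‖HH β (x + y * I) - 1‖ ≤ 0.035 := by
  refine le_epsJ (C := 0.9677) (N0 := 27.777) (J45_genN (N := 27.777) (r0 := 5.2704) (f := 2.5667) (n0 := 0.387) (a := 0.613) (wL := 1.825) (wR := 2.266)
    (E1 := 0.008391) (E2 := 0.000002106) (E3 := 0.03236) (E4 := 0.00003597) (E5 := 0.0000003101) hβ (by norm_num) hN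
    (by norm_num) (by norm_num) (by norm_num) hn (by norm_num) (by norm_num) (by norm_num)
    (cube_sqrt_geJ (s := 0.9176) (by norm_num) (by norm_num) (by norm_num) (by norm_num))
    (cube_sqrt_geJ (s := 0.8897) (by norm_num) (by norm_num) (by norm_num) (by norm_num))
    (exp_neg_leJ (r := 0.782) 4 (by norm_num) (by norm_num) (by norm_num) (by norm_num))
    (exp_neg_leJ (r := 0.071) 13 (by norm_num) (by norm_num) (by norm_num) (by norm_num))
    (exp_neg_leJ (r := 0.431) 3 (by norm_num) (by norm_num) (by norm_num) (by norm_num))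
    (exp_neg_leJ (r := 0.233) 10 (by norm_num) (by norm_num) (by norm_num) (by norm_num))
    (exp_neg_leJ (r := 0.99) 14 (by norm_num) (by norm_num) (by norm_num) (by norm_num))
    (by norm_num)) (by norm_num) hN hβ.le (by norm_num)

private theorem B5Aw_T25_0_1 {β x y : ℝ} (hβ : 0 < β) (hN : β * 27.777 ≤ 1) (hx1 : 0.169 ≤ x) (hx2 : x ≤ 0.207)
    (hy1 : -0.3481 ≤ y) (hy2 : y ≤ -0.0609) : ‖HH β (x + y * I) - 1‖ ≤ 0.035 := by
  refine le_epsJ (C := 0.9714) (N0 := 27.777) (J_boxp 0.169 0.207 0.3481 0 (-0.0609) 0.5818 0.405 0.9617 2.2099 0.3913 5.2704 27.777 0.6962 2.52 1.366 1.0191 0.2908 0.2233 0.5166 2.8383 0.2469 0.7339 0.9624 3.9491 0.0003107 0.002026 0.0000005866 0.0000003101 0.001054 0.0000003101 0.0000003101 0.0000003101 0.9714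
    hβ hN hx1 hx2 hy1 hy2 (by norm_num) (by norm_num) (by linarith) (by norm_num) (by norm_num) (by norm_num) (by norm_num) (by norm_num) (by norm_num) (by norm_num) (by norm_num) (by norm_num) (by norm_num) (by norm_num) (by norm_num) (by norm_num) (by norm_num) (by norm_num) (by norm_num) (by norm_num) (by norm_num) (by norm_num) (by norm_num) (by norm_num)
    (cube_sqrt_geJ (s := 0.8763) (by norm_num) (by norm_num) (by norm_num) (by norm_num))
    (cube_sqrt_geJ (s := 0.9564) (by norm_num) (by norm_num) (by norm_num) (by norm_num))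
    (by norm_num) (by norm_num) (by norm_num) (by norm_num) (by norm_num) (by norm_num) (by norm_num) (by norm_num) (by norm_num) (by norm_num) (by norm_num) (by norm_num) (by norm_num) (by norm_num) (by norm_num) (by norm_num) (by norm_num) (by norm_num)
    (exp_neg_leJ (r := 0.077) 8 (by norm_num) (by norm_num) (by norm_num) (by norm_num))
    (exp_neg_leJ (r := 0.202) 6 (by norm_num) (by norm_num) (by norm_num) (by norm_num))
    (exp_neg_leJ (r := 0.349) 14 (by norm_num) (by norm_num) (by norm_num) (by norm_num))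
    (exp_neg_leJ (r := 0.99) 14 (by norm_num) (by norm_num) (by norm_num) (by norm_num))
    (exp_neg_leJ (r := 0.858) 6 (by norm_num) (by norm_num) (by norm_num) (by norm_num))
    (exp_neg_leJ (r := 0.99) 14 (by norm_num) (by norm_num) (by norm_num) (by norm_num))
    (exp_neg_leJ (r := 0.99) 14 (by norm_num) (by norm_num) (by norm_num) (by norm_num))
    (exp_neg_leJ (r := 0.99) 14 (by norm_num) (by norm_num) (by norm_num) (by norm_num))
    (by norm_num)) (by norm_num) hN hβ.le (by norm_num)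

private theorem B5Aw_T25_0_2 {β x y : ℝ} (hβ : 0 < β) (hN : β * 27.777 ≤ 1) (hx1 : 0.207 ≤ x) (hx2 : x ≤ 0.272)
    (hy1 : -0.3481 ≤ y) (hy2 : y ≤ -0.0609) : ‖HH β (x + y * I) - 1‖ ≤ 0.035 := by
  refine le_epsJ (C := 0.9699) (N0 := 27.777) (J_boxp 0.207 0.272 0.3481 0 (-0.0609) 0.6086 0.4418 0.9777 2.0826 0.3945 5.2704 27.777 0.726 2.638 1.386 0.9941 0.3042 0.2306 0.5296 2.8084 0.2654 0.7866 1.0384 3.9251 0.0002142 0.001654 0.0000004092 0.0000003101 0.0006287 0.0000003101 0.0000003101 0.0000003101 0.9699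
    hβ hN hx1 hx2 hy1 hy2 (by norm_num) (by norm_num) (by linarith) (by norm_num) (by norm_num) (by norm_num) (by norm_num) (by norm_num) (by norm_num) (by norm_num) (by norm_num) (by norm_num) (by norm_num) (by norm_num) (by norm_num) (by norm_num) (by norm_num) (by norm_num) (by norm_num) (by norm_num) (by norm_num) (by norm_num) (by norm_num) (by norm_num)
    (cube_sqrt_geJ (s := 0.8706) (by norm_num) (by norm_num) (by norm_num) (by norm_num))
    (cube_sqrt_geJ (s := 0.9545) (by norm_num) (by norm_num) (by norm_num) (by norm_num))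
    (by norm_num) (by norm_num) (by norm_num) (by norm_num) (by norm_num) (by norm_num) (by norm_num) (by norm_num) (by norm_num) (by norm_num) (by norm_num) (by norm_num) (by norm_num) (by norm_num) (by norm_num) (by norm_num) (by norm_num) (by norm_num)
    (exp_neg_leJ (r := 0.449) 8 (by norm_num) (by norm_num) (by norm_num) (by norm_num))
    (exp_neg_leJ (r := 0.405) 6 (by norm_num) (by norm_num) (by norm_num) (by norm_num))
    (exp_neg_leJ (r := 0.71) 14 (by norm_num) (by norm_num) (by norm_num) (by norm_num))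
    (exp_neg_leJ (r := 0.99) 14 (by norm_num) (by norm_num) (by norm_num) (by norm_num))
    (exp_neg_leJ (r := 0.372) 7 (by norm_num) (by norm_num) (by norm_num) (by norm_num))
    (exp_neg_leJ (r := 0.99) 14 (by norm_num) (by norm_num) (by norm_num) (by norm_num))
    (exp_neg_leJ (r := 0.99) 14 (by norm_num) (by norm_num) (by norm_num) (by norm_num))
    (exp_neg_leJ (r := 0.99) 14 (by norm_num) (by norm_num) (by norm_num) (by norm_num))
    (by norm_num)) (by norm_num) hN hβ.le (by norm_num)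

private theorem B5Aw_T25_0_3 {β x y : ℝ} (hβ : 0 < β) (hN : β * 27.777 ≤ 1) (hx1 : 0.272 ≤ x) (hx2 : x ≤ 0.363)
    (hy1 : -0.3481 ≤ y) (hy2 : y ≤ -0.0609) : ‖HH β (x + y * I) - 1‖ ≤ 0.035 := by
  refine le_epsJ (C := 0.9691) (N0 := 27.777) (J_boxp 0.272 0.363 0.3481 0 (-0.0609) 0.6544 0.503 1.0069 1.8956 0.4004 5.2704 27.777 0.7687 2.819 1.414 0.9591 0.3271 0.2433 0.5519 2.7638 0.2969 0.8766 1.1684 3.8887 0.0001134 0.001163 0.0000003101 0.0000003101 0.0002624 0.0000003101 0.0000003101 0.0000003101 0.9691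
    hβ hN hx1 hx2 hy1 hy2 (by norm_num) (by norm_num) (by linarith) (by norm_num) (by norm_num) (by norm_num) (by norm_num) (by norm_num) (by norm_num) (by norm_num) (by norm_num) (by norm_num) (by norm_num) (by norm_num) (by norm_num) (by norm_num) (by norm_num) (by norm_num) (by norm_num) (by norm_num) (by norm_num) (by norm_num) (by norm_num) (by norm_num)
    (cube_sqrt_geJ (s := 0.8624) (by norm_num) (by norm_num) (by norm_num) (by norm_num))
    (cube_sqrt_geJ (s := 0.9517) (by norm_num) (by norm_num) (by norm_num) (by norm_num))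
    (by norm_num) (by norm_num) (by norm_num) (by norm_num) (by norm_num) (by norm_num) (by norm_num) (by norm_num) (by norm_num) (by norm_num) (by norm_num) (by norm_num) (by norm_num) (by norm_num) (by norm_num) (by norm_num) (by norm_num) (by norm_num)
    (exp_neg_leJ (r := 0.085) 9 (by norm_num) (by norm_num) (by norm_num) (by norm_num))
    (exp_neg_leJ (r := 0.758) 6 (by norm_num) (by norm_num) (by norm_num) (by norm_num))
    (exp_neg_leJ (r := 0.99) 14 (by norm_num) (by norm_num) (by norm_num) (by norm_num))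
    (exp_neg_leJ (r := 0.99) 14 (by norm_num) (by norm_num) (by norm_num) (by norm_num))
    (exp_neg_leJ (r := 0.246) 8 (by norm_num) (by norm_num) (by norm_num) (by norm_num))
    (exp_neg_leJ (r := 0.99) 14 (by norm_num) (by norm_num) (by norm_num) (by norm_num))
    (exp_neg_leJ (r := 0.99) 14 (by norm_num) (by norm_num) (by norm_num) (by norm_num))
    (exp_neg_leJ (r := 0.99) 14 (by norm_num) (by norm_num) (by norm_num) (by norm_num))
    (by norm_num)) (by norm_num) hN hβ.le (by norm_num)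

private theorem B5Aw_T25_0_4 {β x y : ℝ} (hβ : 0 < β) (hN : β * 27.777 ≤ 1) (hx1 : 0.363 ≤ x) (hx2 : x ≤ 0.473)
    (hy1 : -0.3481 ≤ y) (hy2 : y ≤ -0.0609) : ‖HH β (x + y * I) - 1‖ ≤ 0.035 := by
  refine le_epsJ (C := 0.9693) (N0 := 27.777) (J_boxp 0.363 0.473 0.3481 0 (-0.0609) 0.7184 0.5873 1.0515 1.6841 0.4091 5.2704 27.777 0.8176 3.046 1.447 0.9168 0.3591 0.2613 0.583 2.7072 0.3411 1.0026 1.3504 3.8416 0.00004675 0.0007046 0.0000003101 0.0000003101 0.00007684 0.0000003101 0.0000003101 0.0000003101 0.9693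
    hβ hN hx1 hx2 hy1 hy2 (by norm_num) (by norm_num) (by linarith) (by norm_num) (by norm_num) (by norm_num) (by norm_num) (by norm_num) (by norm_num) (by norm_num) (by norm_num) (by norm_num) (by norm_num) (by norm_num) (by norm_num) (by norm_num) (by norm_num) (by norm_num) (by norm_num) (by norm_num) (by norm_num) (by norm_num) (by norm_num) (by norm_num)
    (cube_sqrt_geJ (s := 0.8529) (by norm_num) (by norm_num) (by norm_num) (by norm_num))
    (cube_sqrt_geJ (s := 0.9486) (by norm_num) (by norm_num) (by norm_num) (by norm_num))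
    (by norm_num) (by norm_num) (by norm_num) (by norm_num) (by norm_num) (by norm_num) (by norm_num) (by norm_num) (by norm_num) (by norm_num) (by norm_num) (by norm_num) (by norm_num) (by norm_num) (by norm_num) (by norm_num) (by norm_num) (by norm_num)
    (exp_neg_leJ (r := 0.974) 9 (by norm_num) (by norm_num) (by norm_num) (by norm_num))
    (exp_neg_leJ (r := 0.258) 7 (by norm_num) (by norm_num) (by norm_num) (by norm_num))
    (exp_neg_leJ (r := 0.99) 14 (by norm_num) (by norm_num) (by norm_num) (by norm_num))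
    (exp_neg_leJ (r := 0.99) 14 (by norm_num) (by norm_num) (by norm_num) (by norm_num))
    (exp_neg_leJ (r := 0.474) 9 (by norm_num) (by norm_num) (by norm_num) (by norm_num))
    (exp_neg_leJ (r := 0.99) 14 (by norm_num) (by norm_num) (by norm_num) (by norm_num))
    (exp_neg_leJ (r := 0.99) 14 (by norm_num) (by norm_num) (by norm_num) (by norm_num))
    (exp_neg_leJ (r := 0.99) 14 (by norm_num) (by norm_num) (by norm_num) (by norm_num))
    (by norm_num)) (by norm_num) hN hβ.le (by norm_num)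

private theorem B5Aw_T25_0_5 {β x y : ℝ} (hβ : 0 < β) (hN : β * 27.777 ≤ 1) (hx1 : 0.473 ≤ x) (hx2 : x ≤ 0.5325)
    (hy1 : -0.3481 ≤ y) (hy2 : y ≤ -0.0609) : ‖HH β (x + y * I) - 1‖ ≤ 0.035 := by
  refine le_epsJ (C := 0.7844) (N0 := 27.777) (J_boxp 0.473 0.5325 0.3481 0 (-0.0609) 0.7959 0.6362 1.0796 1.4634 0.4146 5.2704 27.777 0.7994 2.959 1.435 0.8939 0.3979 0.2919 0.6207 2.6757 0.3946 1.1549 1.5704 3.9287 0.00001586 0.0003012 0.0000003101 0.0000003101 0.00001744 0.0000003101 0.0000003101 0.0000003101 0.7844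
    hβ hN hx1 hx2 hy1 hy2 (by norm_num) (by norm_num) (by linarith) (by norm_num) (by norm_num) (by norm_num) (by norm_num) (by norm_num) (by norm_num) (by norm_num) (by norm_num) (by norm_num) (by norm_num) (by norm_num) (by norm_num) (by norm_num) (by norm_num) (by norm_num) (by norm_num) (by norm_num) (by norm_num) (by norm_num) (by norm_num) (by norm_num)
    (cube_sqrt_geJ (s := 0.8564) (by norm_num) (by norm_num) (by norm_num) (by norm_num))
    (cube_sqrt_geJ (s := 0.9498) (by norm_num) (by norm_num) (by norm_num) (by norm_num))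
    (by norm_num) (by norm_num) (by norm_num) (by norm_num) (by norm_num) (by norm_num) (by norm_num) (by norm_num) (by norm_num) (by norm_num) (by norm_num) (by norm_num) (by norm_num) (by norm_num) (by norm_num) (by norm_num) (by norm_num) (by norm_num)
    (exp_neg_leJ (r := 0.052) 11 (by norm_num) (by norm_num) (by norm_num) (by norm_num))
    (exp_neg_leJ (r := 0.108) 8 (by norm_num) (by norm_num) (by norm_num) (by norm_num))
    (exp_neg_leJ (r := 0.99) 14 (by norm_num) (by norm_num) (by norm_num) (by norm_num))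
    (exp_neg_leJ (r := 0.99) 14 (by norm_num) (by norm_num) (by norm_num) (by norm_num))
    (exp_neg_leJ (r := 0.96) 10 (by norm_num) (by norm_num) (by norm_num) (by norm_num))
    (exp_neg_leJ (r := 0.99) 14 (by norm_num) (by norm_num) (by norm_num) (by norm_num))
    (exp_neg_leJ (r := 0.99) 14 (by norm_num) (by norm_num) (by norm_num) (by norm_num))
    (exp_neg_leJ (r := 0.99) 14 (by norm_num) (by norm_num) (by norm_num) (by norm_num))
    (by norm_num)) (by norm_num) hN hβ.le (by norm_num)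

private theorem B5Aw_T25 {β x y : ℝ} (hβ : 0 < β) (hN : β * 27.777 ≤ 1) (hx1 : 0.1501 ≤ x) (hx2 : x ≤ 0.5325)
    (hy1 : (-0.3481) ≤ y) (hy2 : y ≤ (-0.0609)) : ‖HH β (x + y * I) - 1‖ ≤ 0.035 := by
  rcases le_total x 0.169 with hxx | hxx
  · exact B5Aw_T25_0_0 hβ hN (norm_box5 0.169 0.3481 0.387 (by linarith) (by linarith) (by linarith) (by linarith) (by norm_num) (by norm_num))
  rcases le_total x 0.207 with hxx | hxx
  · exact B5Aw_T25_0_1 hβ hN (by linarith) (by linarith) (by linarith) (by linarith)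
  rcases le_total x 0.272 with hxx | hxx
  · exact B5Aw_T25_0_2 hβ hN (by linarith) (by linarith) (by linarith) (by linarith)
  rcases le_total x 0.363 with hxx | hxx
  · exact B5Aw_T25_0_3 hβ hN (by linarith) (by linarith) (by linarith) (by linarith)
  rcases le_total x 0.473 with hxx | hxx
  · exact B5Aw_T25_0_4 hβ hN (by linarith) (by linarith) (by linarith) (by linarith)
  exact B5Aw_T25_0_5 hβ hN (by linarith) (by linarith) (by linarith) (by linarith)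

private theorem B5Aw_C26 {β r t κ : ℝ} (hβ : 0 < β) (hr : 10 ≤ r) (hκ : κ = β * r) (hk1 : 0.3 ≤ κ) (hk2 : κ ≤ 0.36) (hta : 1.9226 ≤ t + κ)
    (htb : t + κ ≤ 2.0593) : ‖F (cexp (I * β)) (r * cexp (I * ((t + β / 2 : ℝ) : ℂ)))‖ ≤
      4.9716 * Real.exp (r * (0.04 + 1 / 20)) :=
  v5_UD 0.3 0.36 1.9226 2.0593 0.04 0.7284 0.04 2.5919 4.9716 hβ hr hκ (by norm_num) hk1 hk2 hta htb (by norm_num) (by norm_num) (by norm_num) (by norm_num) (by norm_num) (by norm_num) (by norm_num) (by norm_num) (by norm_num) (by norm_num) (by norm_num)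

private theorem B5Aw_C27 {β r t κ : ℝ} (hβ : 0 < β) (hr : 10 ≤ r) (hκ : κ = β * r) (hk1 : 0.3 ≤ κ) (hk2 : κ ≤ 0.36) (hta : (-1.8473) ≤ t + κ)
    (htb : t + κ ≤ (-1.7106)) : ‖F (cexp (I * β)) (r * cexp (I * ((t + β / 2 : ℝ) : ℂ)))‖ ≤
      2.2213 * Real.exp (r * (1.23725 - (-0.71) * (t + κ))) + 2.2991 * Real.exp (r * 0.0501) :=
  v5_HU (-0.71) 0.3 0.36 (-1.8473) (-1.7106) 1.23725 2.2213 1.5311 0.0757 1.3971 2.5046 0 0.0501 0.00000203 2.2991 hβ hr hκ (by norm_num) hk1 hk2 hta htb (by norm_num) (by norm_num) (B5Aw_G6 hk1 hk2).1 (B5Aw_G6 hk1 hk2).2 (by norm_num) (by norm_num) (by norm_num)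
    (by norm_num) (by norm_num) (by norm_num) (by norm_num) (by norm_num) (by norm_num) (by norm_num)
    (by norm_num) (by norm_num) (by norm_num) (v5_hump 6.7225 27.777 5.2704 0.0000009316 0.00000203 hβ hr hκ hk1 hk2 (by norm_num) htb (by norm_num) (by norm_num) (by norm_num) (by norm_num) (by norm_num) (by norm_num) (by norm_num) (ex_un 13 0.9 (by norm_num) (by norm_num) (by norm_num) (by norm_num)) (by norm_num)) (by norm_num)

private theorem B5Aw_C28 {β r t κ : ℝ} (hβ : 0 < β) (hr : 10 ≤ r) (hκ : κ = β * r) (hk1 : 0.3 ≤ κ) (hk2 : κ ≤ 0.36) (hta : 3.1792 ≤ t + κ)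
    (htb : t + κ ≤ 3.3159) : ‖F (cexp (I * β)) (r * cexp (I * ((t + β / 2 : ℝ) : ℂ)))‖ ≤
      3.388 * Real.exp (r * (0.01 + 1 / 20)) :=
  v5_UD 0.3 0.36 3.1792 3.3159 0.01 0.7284 0.01 1.7663 3.388 hβ hr hκ (by norm_num) hk1 hk2 hta htb (by norm_num) (by norm_num) (by norm_num) (by norm_num) (by norm_num) (by norm_num) (by norm_num) (by norm_num) (by norm_num) (by norm_num) (by norm_num)

private theorem B5Aw_Y29 {β r t κ h t' : ℝ} (hβ : 0 < β) (hκ : κ = β * r) (hN : β * 27.777 ≤ 1) (hk1 : 0.3 ≤ κ) (hk2 : κ ≤ 0.36)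
    (ht : t' = t + (((1 : ℤ) : ℝ) - 1) * h) (hD : DomR κ t') (hta : 0.666 ≤ t' + κ) (htb : t' + κ ≤ 0.7666) :
    0.883 * Real.exp (r * sE κ t') ≤ ‖Xf β r h t 1‖ := by
  obtain ⟨⟨ya, yb⟩, ⟨xa, xb⟩, n1, Da, Db⟩ := B5Aw_B22 hD hk1 hk2 hta htb
  have J := B5Aw_T24 (x := sx κ t') (y := sy κ t') hβ hN (by linarith only [xa, xb, ya, yb]) (by linarith only [xa, xb, ya, yb]) (by linarith only [xa, xb, ya, yb]) (by linarith only [xa, xb, ya, yb])
  exact v5_Jlo hβ hκ (k := 1) ht hD 0.03 1.4559 0.883 (by norm_num) J Db (by norm_num)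

private theorem B5Aw_Y30 {β r t κ h t' : ℝ} (hβ : 0 < β) (hκ : κ = β * r) (hN : β * 27.777 ≤ 1) (hk1 : 0.3 ≤ κ) (hk2 : κ ≤ 0.36)
    (ht : t' = t + (((0 : ℤ) : ℝ) - 1) * h) (hD : DomR κ t') (hta : (-0.5907) ≤ t' + κ) (htb : t' + κ ≤ (-0.49)) :
    1.0029 * Real.exp (r * sE κ t') ≤ ‖Xf β r h t 0‖ := by
  obtain ⟨⟨ya, yb⟩, ⟨xa, xb⟩, n1, Da, Db⟩ := B5Aw_B23 hD hk1 hk2 hta htb
  have J := B5Aw_T25 (x := sx κ t') (y := sy κ t') hβ hN (by linarith only [xa, xb, ya, yb]) (by linarith only [xa, xb, ya, yb]) (by linarith only [xa, xb, ya, yb]) (by linarith only [xa, xb, ya, yb])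
  exact v5_Jlo hβ hκ (k := 0) ht hD 0.035 0.8569 1.0029 (by norm_num) J Db (by norm_num)

private theorem B5Aw_V31 {κ t : ℝ} (hD : DomR κ t) (hk1 : 0.3 ≤ κ) (hk2 : κ ≤ 0.36) (hta : 0.666 ≤ t + κ) (htb : t + κ ≤ 0.7666) :
    1.20301 - 0.5914 * (t + κ) ≤ sE κ t := by
  have hκ0 : 0 < κ := hD.1
  exact v5_V1 hD 0.3 0.36 0.666 0.7666 0.04652 0.15801 0.14549 1.20301 0.5914 (by norm_num) hk1 hk2 (by norm_num) (by norm_num) hta htb (by norm_num) (clo5 0.3 0.36 0.14549 (by norm_num) hk1 hk2 (by norm_num) (by norm_num) (by norm_num))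
      ((cup1 0.36 hκ0.le hk2 (by norm_num)).trans (by norm_num)) (by norm_num) (by norm_num) (by norm_num) (by norm_num) (by norm_num) (by norm_num)

private theorem B5Aw_V32 {κ t : ℝ} (hD : DomR κ t) (hk1 : 0.3 ≤ κ) (hk2 : κ ≤ 0.36) (hta : (-0.5907) ≤ t + κ) (htb : t + κ ≤ (-0.49)) :
    1.16398 + 0.6123 * (t + κ) ≤ sE κ t := by
  have hκ0 : 0 < κ := hD.1
  exact v5_V0 hD 0.3 0.36 (-0.5907) (-0.49) 0.5908 0.6176 0.14496 0.01297 0.77219 0.33028 1.16398 0.6123 (by norm_num) hk1 hk2 (by norm_num) hta htb (by norm_num) (by norm_num) (by norm_num) ((cup1 0.36 hκ0.le hk2 (by norm_num)).trans (by norm_num))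
      (by norm_num) (by norm_num) (by norm_num) (by norm_num) (by norm_num) (by norm_num) (by norm_num) (by norm_num) (by norm_num) (by norm_num) (by norm_num) (by norm_num) (by norm_num)

private theorem B5Aw_S33 {β r t κ h t' : ℝ} (hβ : 0 < β) (hκ : κ = β * r) (hN : β * 27.777 ≤ 1) (hk1 : 0.3 ≤ κ) (hk2 : κ ≤ 0.36)
    (ht : t' = t + (((1 : ℤ) : ℝ) - 1) * h) (hD : DomR κ t') (hta : 0.666 ≤ t' + κ) (htb : t' + κ ≤ 0.7666) :
    Xf β r h t 1 ≠ 0 ∧ |(Ld β r h t 1).im - (sy κ t' / β + sx κ t' / sD κ t' * ((1 + sy κ t') / sD κ t' - 1 / 2))| ≤ 0.0555 ∧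
      ‖Ld β r h t 1 - sg κ t' / β‖ ≤ 0.1711 ∧ -0.0001 ≤ sx κ t' / sD κ t' * ((1 + sy κ t') / sD κ t' - 1 / 2) ∧
      (0.142 ≤ sy κ t' ∧ sy κ t' ≤ 0.183) ∧ (0.1699 ≤ sx κ t' ∧ sx κ t' ≤ 0.2783) := by
  obtain ⟨⟨y1, y2⟩, ⟨x1, x2⟩, n1, Da, Db⟩ := B5Aw_B22 hD hk1 hk2 hta htb
  have hd := v5_disc (β := β) (κ := κ) (t := t') (ε := 0.03) 0.15 0.0198 0.4284 (-0.0081) 0.3331 0.1699 0.2783 0.142 0.183
    (fun x y g1 g2 g3 g4 => B5Aw_T24 hβ hN g1 g2 g3 g4) x1 x2 y1 y2 (by norm_num) (by norm_num) (by norm_num) (by norm_num)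
  obtain ⟨nz, im, nL⟩ := v5_slope (h := h) (t := t) (k := 1) 0.15 0.03 0.3124 1.3517 0.2062 0.0555 hβ hκ ht hD (by norm_num) (by norm_num) (by linarith only [y1]) hd n1 (by norm_num) Da (by norm_num) (by norm_num) (by norm_num) (by norm_num)
  have ex := ex_lo hD 0.3124 1.3517 1.4559 0.142 0 0.0001 n1 (by norm_num) Da Db y1 (by norm_num) (by norm_num) (by norm_num) (by norm_num)
  exact ⟨nz, im, nL.trans (by norm_num), ex, ⟨y1, y2⟩, x1, x2⟩

private theorem B5Aw_S34 {β r t κ h t' : ℝ} (hβ : 0 < β) (hκ : κ = β * r) (hN : β * 27.777 ≤ 1) (hk1 : 0.3 ≤ κ) (hk2 : κ ≤ 0.36)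
    (ht : t' = t + (((0 : ℤ) : ℝ) - 1) * h) (hD : DomR κ t') (hta : (-0.5907) ≤ t' + κ) (htb : t' + κ ≤ (-0.49)) :
    Xf β r h t 0 ≠ 0 ∧ |(Ld β r h t 0).im - (sy κ t' / β + sx κ t' / sD κ t' * ((1 + sy κ t') / sD κ t' - 1 / 2))| ≤ 0.2074 ∧
      ‖Ld β r h t 0 - sg κ t' / β‖ ≤ 0.5614 ∧ sx κ t' / sD κ t' * ((1 + sy κ t') / sD κ t' - 1 / 2) ≤ 0.5576 ∧
      ((-0.248) ≤ sy κ t' ∧ sy κ t' ≤ (-0.161)) ∧ (0.2502 ≤ sx κ t' ∧ sx κ t' ≤ 0.4324) := by
  obtain ⟨⟨y1, y2⟩, ⟨x1, x2⟩, n1, Da, Db⟩ := B5Aw_B23 hD hk1 hk2 hta htb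
  have hd := v5_disc (β := β) (κ := κ) (t := t') (ε := 0.035) 0.1 0.1501 0.5325 (-0.3481) (-0.0609) 0.2502 0.4324 (-0.248) (-0.161)
    (fun x y g1 g2 g3 g4 => B5Aw_T25 hβ hN g1 g2 g3 g4) x1 x2 y1 y2 (by norm_num) (by norm_num) (by norm_num) (by norm_num)
  obtain ⟨nz, im, nL⟩ := v5_slope (h := h) (t := t) (k := 0) 0.1 0.035 0.4614 0.6517 0.3627 0.2074 hβ hκ ht hD (by norm_num) (by norm_num) (by linarith only [y1]) hd n1 (by norm_num) Da (by norm_num) (by norm_num) (by norm_num) (by norm_num)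
  have ex := ex_hi hD 0.4614 0.6517 (-0.161) 0.7875 0.5576 n1 (by norm_num) Da y2 (by norm_num) (by norm_num) (by norm_num) (by norm_num)
  exact ⟨nz, im, nL.trans (by norm_num), ex, ⟨y1, y2⟩, x1, x2⟩

private theorem B5Aw_L35 {β r κ t1 t0 : ℝ} {L0 L1 : ℂ} (hβ : 0 < β) (hr : 10 ≤ r) (hκ : κ = β * r) (hk1 : 0.3 ≤ κ)
    (nA0 : ‖L0 - sg κ t0 / β‖ ≤ 0.5614) (nA1 : ‖L1 - sg κ t1 / β‖ ≤ 0.1711)
    (y0 : (-0.248) ≤ sy κ t0 ∧ sy κ t0 ≤ (-0.161)) (x0 : 0.2502 ≤ sx κ t0 ∧ sx κ t0 ≤ 0.4324)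
    (y1 : 0.142 ≤ sy κ t1 ∧ sy κ t1 ≤ 0.183) (x1 : 0.1699 ≤ sx κ t1 ∧ sx κ t1 ≤ 0.2783) :
    ‖(1 : ℂ) * L0 + (-2 : ℂ) * L1‖ ≤ r * 2.3784 := by
  obtain ⟨y0a, y0b⟩ := y0
  obtain ⟨x0a, x0b⟩ := x0
  obtain ⟨y1a, y1b⟩ := y1
  obtain ⟨x1a, x1b⟩ := x1
  have hN := v5_cN (κ := κ) (t1 := t1) (t0 := t0) 1 (-2) 0.3065 0.6141 0.6864 (abs_le.2 ⟨by linarith only [x0a, x0b, x1a, x1b], by linarith only [x0a, x0b, x1a, x1b]⟩)
    (abs_le.2 ⟨by linarith only [y0a, y0b, y1a, y1b], by linarith only [y0a, y0b, y1a, y1b]⟩) (by norm_num) (by norm_num)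
  have h1 := v5_comb 1 (-2) 0.3 0.5614 0.1711 0.6864 2.3784 hβ hr hκ (by norm_num) hk1 nA0 nA1 hN (by norm_num [abs_of_neg, abs_of_pos])
  norm_num at h1 ⊢
  exact h1

private theorem B5Aw_L36 {β r κ t1 t0 : ℝ} {L0 L1 : ℂ} (hβ : 0 < β) (hr : 10 ≤ r) (hκ : κ = β * r) (hk1 : 0.3 ≤ κ)
    (nA0 : ‖L0 - sg κ t0 / β‖ ≤ 0.5614) (nA1 : ‖L1 - sg κ t1 / β‖ ≤ 0.1711)
    (y0 : (-0.248) ≤ sy κ t0 ∧ sy κ t0 ≤ (-0.161)) (x0 : 0.2502 ≤ sx κ t0 ∧ sx κ t0 ≤ 0.4324)
    (y1 : 0.142 ≤ sy κ t1 ∧ sy κ t1 ≤ 0.183) (x1 : 0.1699 ≤ sx κ t1 ∧ sx κ t1 ≤ 0.2783) :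
    ‖(-2 : ℂ) * L0 + (1 : ℂ) * L1‖ ≤ r * 3.3688 := by
  obtain ⟨y0a, y0b⟩ := y0
  obtain ⟨x0a, x0b⟩ := x0
  obtain ⟨y1a, y1b⟩ := y1
  obtain ⟨x1a, x1b⟩ := x1
  have hN := v5_cN (κ := κ) (t1 := t1) (t0 := t0) (-2) 1 0.695 0.6791 0.9718 (abs_le.2 ⟨by linarith only [x0a, x0b, x1a, x1b], by linarith only [x0a, x0b, x1a, x1b]⟩)
    (abs_le.2 ⟨by linarith only [y0a, y0b, y1a, y1b], by linarith only [y0a, y0b, y1a, y1b]⟩) (by norm_num) (by norm_num)
  have h1 := v5_comb (-2) 1 0.3 0.5614 0.1711 0.9718 3.3688 hβ hr hκ (by norm_num) hk1 nA0 nA1 hN (by norm_num [abs_of_neg, abs_of_pos])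
  norm_num at h1 ⊢
  exact h1

private theorem B5Aw_L37 {β r κ t1 t0 : ℝ} {L0 L1 : ℂ} (hβ : 0 < β) (hr : 10 ≤ r) (hκ : κ = β * r) (hk1 : 0.3 ≤ κ)
    (nA0 : ‖L0 - sg κ t0 / β‖ ≤ 0.5614) (nA1 : ‖L1 - sg κ t1 / β‖ ≤ 0.1711)
    (y0 : (-0.248) ≤ sy κ t0 ∧ sy κ t0 ≤ (-0.161)) (x0 : 0.2502 ≤ sx κ t0 ∧ sx κ t0 ≤ 0.4324)
    (y1 : 0.142 ≤ sy κ t1 ∧ sy κ t1 ≤ 0.183) (x1 : 0.1699 ≤ sx κ t1 ∧ sx κ t1 ≤ 0.2783) :
    ‖(-3 : ℂ) * L0 + (2 : ℂ) * L1‖ ≤ r * 5.0894 := by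
  obtain ⟨y0a, y0b⟩ := y0
  obtain ⟨x0a, x0b⟩ := x0
  obtain ⟨y1a, y1b⟩ := y1
  obtain ⟨x1a, x1b⟩ := x1
  have hN := v5_cN (κ := κ) (t1 := t1) (t0 := t0) (-3) 2 0.9575 1.1101 1.466 (abs_le.2 ⟨by linarith only [x0a, x0b, x1a, x1b], by linarith only [x0a, x0b, x1a, x1b]⟩)
    (abs_le.2 ⟨by linarith only [y0a, y0b, y1a, y1b], by linarith only [y0a, y0b, y1a, y1b]⟩) (by norm_num) (by norm_num)
  have h1 := v5_comb (-3) 2 0.3 0.5614 0.1711 1.466 5.0894 hβ hr hκ (by norm_num) hk1 nA0 nA1 hN (by norm_num [abs_of_neg, abs_of_pos])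
  norm_num at h1 ⊢
  exact h1

private theorem B5Aw_K38 {β r t κ h : ℝ} (hβ : 0 < β) (hr : 10 ≤ r) (hκ : κ = β * r) (hk1 : 0.3 ≤ κ) (hk2 : κ ≤ 0.36)
    (hh : h = 2 * Real.pi / 5) (hh1 : 1.25663 ≤ h) (hh2 : h ≤ 1.25664) (hta : 0.666 ≤ t + κ) (htb : t + κ ≤ 0.7666)
    (hβ1 : β ≤ 0.036)
    (hY : 0.883 * Real.exp (r * sE κ t) ≤ ‖Xf β r h t 1‖) (hV : 1.20301 - 0.5914 * (t + κ) ≤ sE κ t) :
    ‖Xf β r h t 2‖ ≤ 0.00772 * ‖Xf β r h t 1‖ ∧ ‖Xf β r h (t + β) 2‖ ≤ 0.00772 * ‖Xf β r h t 1‖ := by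
  constructor
  · rw [v5_X 2 1 (by push_cast; ring)]
    exact v5_cmp0 0.6596 0.001371 0.00772 hr (B5Aw_C26 (t := t + 1 * h) hβ hr hκ hk1 hk2 (by linarith only [hta, htb, hh1, hh2, hβ, hβ1]) (by linarith only [hta, htb, hh1, hh2, hβ, hβ1])) hY (by norm_num) (by norm_num) (by norm_num) (by linarith only [hV, hta, htb, hh1, hh2]) (ex_un 6 0.5959 (by norm_num) (by norm_num) (by norm_num) (by norm_num)) (by norm_num)
  · rw [v5_X 2 1 (by push_cast; ring)]
    exact v5_cmp0 0.6596 0.001371 0.00772 hr (B5Aw_C26 (t := t + β + 1 * h) hβ hr hκ hk1 hk2 (by linarith only [hta, htb, hh1, hh2, hβ, hβ1]) (by linarith only [hta, htb, hh1, hh2, hβ, hβ1])) hY (by norm_num) (by norm_num) (by norm_num) (by linarith only [hV, hta, htb, hh1, hh2]) (ex_un 6 0.5959 (by norm_num) (by norm_num) (by norm_num) (by norm_num)) (by norm_num)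

private theorem B5Aw_K39 {β r t κ h : ℝ} (hβ : 0 < β) (hr : 10 ≤ r) (hκ : κ = β * r) (hk1 : 0.3 ≤ κ) (hk2 : κ ≤ 0.36)
    (hh : h = 2 * Real.pi / 5) (hh1 : 1.25663 ≤ h) (hh2 : h ≤ 1.25664) (hta : 0.666 ≤ t + κ) (htb : t + κ ≤ 0.7666)
    (hβ1 : β ≤ 0.036)
    (hY : 1.0029 * Real.exp (r * sE κ (t - h)) ≤ ‖Xf β r h t 0‖) (hV : 1.16398 + 0.6123 * (t - h + κ) ≤ sE κ (t - h)) :
    ‖Xf β r h t (-1)‖ ≤ 0.00164 * ‖Xf β r h t 0‖ ∧ ‖Xf β r h (t + β) (-1)‖ ≤ 0.00175 * ‖Xf β r h t 0‖ := by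
  constructor
  · rw [v5_X (-1) (-2) (by push_cast; ring)]
    exact v5_cmp 0.8668 0.0001729 0.000383 0.7522 0.0005423 0.00125 0.00164 hr (B5Aw_C27 (t := t + (-2) * h) hβ hr hκ hk1 hk2 (by linarith only [hta, htb, hh1, hh2, hβ, hβ1]) (by linarith only [hta, htb, hh1, hh2, hβ, hβ1])) hY (by norm_num) (by norm_num) (by norm_num) (by norm_num) (by linarith only [hV, hta, htb, hh1, hh2]) (ex_un 8 0.6679 (by norm_num) (by norm_num) (by norm_num) (by norm_num)) (by norm_num) (by norm_num) (by linarith only [hV, hta, htb, hh1, hh2]) (ex_un 7 0.5219 (by norm_num) (by norm_num) (by norm_num) (by norm_num)) (by norm_num) (by norm_num)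
  · rw [v5_X (-1) (-2) (by push_cast; ring)]
    have h1 := B5Aw_C27 (t := t + β + (-2) * h) hβ hr hκ hk1 hk2 (by linarith only [hta, htb, hh1, hh2, hβ, hβ1]) (by linarith only [hta, htb, hh1, hh2, hβ, hβ1])
    rw [show t + β + (-2) * h + κ = (t + (-2) * h + κ) + β by ring] at h1
    exact v5_cmpS 1.29124 0.8668 0.0001729 0.000495 0.7522 0.0005423 0.00125 0.00175 hr hκ h1 hY (by norm_num) (by norm_num) (by norm_num) (ex_up 0.2556 (by linarith only [hk1, hk2]) (by norm_num) (by norm_num) (by norm_num)) (by norm_num) (by linarith only [hV, hta, htb, hh1, hh2]) (ex_un 8 0.6679 (by norm_num) (by norm_num) (by norm_num) (by norm_num)) (by norm_num) (by norm_num) (by linarith only [hV, hta, htb, hh1, hh2]) (ex_un 7 0.5219 (by norm_num) (by norm_num) (by norm_num) (by norm_num)) (by norm_num) (by norm_num)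

private theorem B5Aw_K40 {β r t κ h : ℝ} (hβ : 0 < β) (hr : 10 ≤ r) (hκ : κ = β * r) (hk1 : 0.3 ≤ κ) (hk2 : κ ≤ 0.36)
    (hh : h = 2 * Real.pi / 5) (hh1 : 1.25663 ≤ h) (hh2 : h ≤ 1.25664) (hta : 0.666 ≤ t + κ) (htb : t + κ ≤ 0.7666)
    (hβ1 : β ≤ 0.036)
    (hY : 1.0029 * Real.exp (r * sE κ (t - h)) ≤ ‖Xf β r h t 0‖) (hV : 1.16398 + 0.6123 * (t - h + κ) ≤ sE κ (t - h)) :
    ‖Xf β r h t (-2)‖ ≤ 0.00203 * ‖Xf β r h t 0‖ ∧ ‖Xf β r h (t + β) (-2)‖ ≤ 0.00203 * ‖Xf β r h t 0‖ := by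
  constructor
  · rw [v5_Xm2 hh]
    exact v5_cmp0 0.7423 0.000598 0.00203 hr (B5Aw_C28 (t := t + 2 * h) hβ hr hκ hk1 hk2 (by linarith only [hta, htb, hh1, hh2, hβ, hβ1]) (by linarith only [hta, htb, hh1, hh2, hβ, hβ1])) hY (by norm_num) (by norm_num) (by norm_num) (by linarith only [hV, hta, htb, hh1, hh2]) (ex_un 7 0.4229 (by norm_num) (by norm_num) (by norm_num) (by norm_num)) (by norm_num)
  · rw [v5_Xm2 hh]
    exact v5_cmp0 0.7423 0.000598 0.00203 hr (B5Aw_C28 (t := t + β + 2 * h) hβ hr hκ hk1 hk2 (by linarith only [hta, htb, hh1, hh2, hβ, hβ1]) (by linarith only [hta, htb, hh1, hh2, hβ, hβ1])) hY (by norm_num) (by norm_num) (by norm_num) (by linarith only [hV, hta, htb, hh1, hh2]) (ex_un 7 0.4229 (by norm_num) (by norm_num) (by norm_num) (by norm_num)) (by norm_num)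

theorem B5Aw_W41 {β r t κ h : ℝ} (hβ : 0 < β) (hr : 10 ≤ r) (hκ : κ = β * r) (hk1 : 0.3 ≤ κ) (hk2 : κ ≤ 0.36)
    (hh : h = 2 * Real.pi / 5) (hta : 0.666 ≤ t + κ) (htb : t + κ ≤ 0.7666) :
    Xf β r h t 0 ≠ 0 ∧
    (‖Xf β r h t 2‖ ≤ 0.0117 * ‖Xf β r h t 1‖ ∧ ‖Xf β r h t (-1)‖ ≤ 0.00339 * ‖Xf β r h t 0‖ ∧
      ‖Xf β r h t (-2)‖ ≤ 0.00485 * ‖Xf β r h t 0‖) ∧
    (r * ‖Xf β r h (t + β) 2‖ + ‖Xf β r h t 2‖ * ‖(1 : ℂ) * Ld β r h t 0 + (-2 : ℂ) * Ld β r h t 1‖ ≤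
        r * 0.0421 * ‖Xf β r h t 1‖ ∧
      r * ‖Xf β r h (t + β) (-1)‖ + ‖Xf β r h t (-1)‖ * ‖(-2 : ℂ) * Ld β r h t 0 + (1 : ℂ) * Ld β r h t 1‖ ≤
        r * 0.016 * ‖Xf β r h t 0‖ ∧
      r * ‖Xf β r h (t + β) (-2)‖ + ‖Xf β r h t (-2)‖ * ‖(-3 : ℂ) * Ld β r h t 0 + (2 : ℂ) * Ld β r h t 1‖ ≤
        r * 0.0316 * ‖Xf β r h t 0‖) ∧
    r * 0.7596 ≤ (Ld β r h t 1 - Ld β r h t 0).im := by
  obtain ⟨hh1, hh2⟩ := v5_h hh
  have hκ0 : 0 < κ := by linarith only [hk1]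
  have hN : β * 27.777 ≤ 1 := v5_hN 0.36 27.777 hβ hr hκ hk2 (by norm_num) (by norm_num)
  have hD1 : DomR κ t := v5_dom hκ0 (by linarith only [hta, htb, hk1, hk2, hh1, hh2]) (Or.inr (by linarith only [hta, htb, hk1, hk2, hh1, hh2]))
  have hD0 : DomR κ (t - h) := v5_dom hκ0 (by linarith only [hta, htb, hk1, hk2, hh1, hh2]) (Or.inr (by linarith only [hta, htb, hk1, hk2, hh1, hh2]))
  have hβ1 : β ≤ 0.036 := by
    have := mul_le_mul_of_nonneg_left hr hβ.le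
    linarith only [this, hκ, hk2]
  have h0a : (-0.5907) ≤ t - h + κ := by linarith only [hta, htb, hh1, hh2]
  have h0b : t - h + κ ≤ (-0.49) := by linarith only [hta, htb, hh1, hh2]
  have e1 : t = t + (((1 : ℤ) : ℝ) - 1) * h := by push_cast; ring
  have e0 : t - h = t + (((0 : ℤ) : ℝ) - 1) * h := by push_cast; ring
  have hY1 := B5Aw_Y29 (h := h) hβ hκ hN hk1 hk2 e1 hD1 hta htb
  have hY0 := B5Aw_Y30 (h := h) hβ hκ hN hk1 hk2 e0 hD0 h0a h0b
  have hV1 := B5Aw_V31 hD1 hk1 hk2 hta htb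
  have hV0 := B5Aw_V32 hD0 hk1 hk2 h0a h0b
  obtain ⟨nz1, im1, nA1, ex1, y1, x1⟩ := B5Aw_S33 (h := h) hβ hκ hN hk1 hk2 e1 hD1 hta htb
  obtain ⟨nz0, im0, nA0, ex0, y0, x0⟩ := B5Aw_S34 (h := h) hβ hκ hN hk1 hk2 e0 hD0 h0a h0b
  obtain ⟨cp2, dp2⟩ := B5Aw_K38 hβ hr hκ hk1 hk2 hh hh1 hh2 hta htb hβ1 hY1 hV1
  obtain ⟨cm1, dm1⟩ := B5Aw_K39 hβ hr hκ hk1 hk2 hh hh1 hh2 hta htb hβ1 hY0 hV0
  obtain ⟨cm2, dm2⟩ := B5Aw_K40 hβ hr hκ hk1 hk2 hh hh1 hh2 hta htb hβ1 hY0 hV0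
  have Lp2 := B5Aw_L35 hβ hr hκ hk1 nA0 nA1 y0 x0 y1 x1
  have Lm1 := B5Aw_L36 hβ hr hκ hk1 nA0 nA1 y0 x0 y1 x1
  have Lm2 := B5Aw_L37 hβ hr hκ hk1 nA0 nA1 y0 x0 y1 x1
  have hm : r * 0.7596 ≤ (Ld β r h t 1 - Ld β r h t 0).im :=
    v5_m 0.36 0.142 0.161 0.0001 0.5576 0.0555 0.2074 _ _ 0.7596 hβ hr hκ hk2 im1 im0 y1.1 (by linarith only [y0.2]) (by norm_num) ex1 ex0 (by norm_num) (by norm_num)
  have hr0 : 0 < r := by linarith only [hr]
  refine ⟨nz0, ⟨v5_emax _ cp2 (norm_nonneg _) (by norm_num), v5_emax _ cm1 (norm_nonneg _) (by norm_num), v5_emax _ cm2 (norm_nonneg _) (by norm_num)⟩, ⟨?_, ?_, ?_⟩, hm⟩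
  · exact v5_W hr0 dp2 cp2 Lp2 (norm_nonneg _) (norm_nonneg _) (norm_nonneg _) (by norm_num)
  · exact v5_W hr0 dm1 cm1 Lm1 (norm_nonneg _) (norm_nonneg _) (norm_nonneg _) (by norm_num)
  · exact v5_W hr0 dm2 cm2 Lm2 (norm_nonneg _) (norm_nonneg _) (norm_nonneg _) (by norm_num)

end Sok
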