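import Pool.Agent.Lib.MP_816dec_an.R1V9

/-!
MP_816dec_an (A3, row R1), SINGLE CASE `b = 5`, `r ≥ 10`, `0.36 ≤ κ ≤ 0.42`: the window (generated file).
-/

set_option autoImplicit false
set_option linter.unusedVariables false

open Complex Set Filter Topology Metric

namespace Sok

private theorem B5Bw_B1 {κ t : ℝ} (h : DomR κ t) (hk1 : 0.36 ≤ κ) (hk2 : κ ≤ 0.42) (ht1 : 0.5654 ≤ t + κ) (ht2 : t + κ ≤ 0.666) :
    (0.143 ≤ sy κ t ∧ sy κ t ≤ 0.183) ∧ (0.2373 ≤ sx κ t ∧ sx κ t ≤ 0.3348) ∧ κ * Real.exp (-sy κ t) ≤ 0.3641 ∧ 1.3833 ≤ sD κ t ∧ sD κ t ≤ 1.4884 := by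
  have hy1 : 0.143 ≤ sy κ t := syR_ge h 0.36 0.42 0.5654 0.143 1.15372 1.15373 0.39281 0.45829 hk1 hk2 (by linarith) (by norm_num) (by norm_num)
    (expn_ge (by norm_num) (by norm_num)) (expn_le (by norm_num) (by norm_num) (by norm_num)) (by norm_num)
    (by norm_num) (by norm_num) (by norm_num) (by norm_num) (by norm_num) (by norm_num)
  have hy2 : sy κ t ≤ 0.183 := syR_le h 0.36 0.42 0.666 0.183 1.20081 0.5014 0.52321 0.61042 hk1 hk2 (by linarith) (by norm_num) (by norm_num)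
    (expn_ge (by norm_num) (by norm_num)) (by norm_num) (by norm_num) (Or.inr ((mul_le_mul_of_nonneg_left (expn_le (E := 1.20082) (by norm_num) (by norm_num) (by norm_num)) (by norm_num)).trans (by norm_num))) (by norm_num) (by norm_num) (by norm_num)
  have hy1' : 0.143 ≤ sy κ t := by linarith
  have hy2' : sy κ t ≤ 0.183 := by linarith
  have hx1 : 0.2373 ≤ sx κ t := sx_lo h 0.36 0.183 0.1831 0.83276 0.2373 hk1 (by norm_num) hy2' (abs_le.2 ⟨by linarith, by linarith⟩) (ex_lm 0.183 (by norm_num) (by norm_num) (by norm_num) (by norm_num) (by norm_num)) (by norm_num) (by norm_num)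
  have hx2 : sx κ t ≤ 0.3348 := sx_hi h 0.42 0.143 0.143 0.86676 0.3348 hk2 hy1' (by norm_num) (le_trans (by linarith) (le_abs_self _)) (ex_um 0.143 (by norm_num) (by norm_num) (by norm_num) (by norm_num)) (by norm_num) (by norm_num)
  refine ⟨⟨hy1', hy2'⟩, ⟨hx1, hx2⟩, v5_n h 0.42 0.143 0.86676 0.3641 hk2 hy1' (ex_um 0.143 (by norm_num) (by norm_num) (by norm_num) (by norm_num)) (by norm_num), ?_, ?_⟩
  · exact v5_Dlo h 0.36 0.143 0.183 0.143 0.86675 1.3833 (by norm_num) hk1 hy1' hy2' (ex_lm 0.143 (by norm_num) (by norm_num) (by norm_num) (by norm_num) (by norm_num)) (by norm_num) (by norm_num) (by norm_num) (by norm_num)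
  · exact v5_Dup h 0.42 0.143 0.183 0.86676 0.83277 1.4884 hk2 hy1' hy2' (ex_um 0.143 (by norm_num) (by norm_num) (by norm_num) (by norm_num)) (ex_um 0.183 (by norm_num) (by norm_num) (by norm_num) (by norm_num)) (by norm_num) (by norm_num) (by norm_num)

private theorem B5Bw_B2 {κ t : ℝ} (h : DomR κ t) (hk1 : 0.36 ≤ κ) (hk2 : κ ≤ 0.42) (ht1 : (-0.6913) ≤ t + κ) (ht2 : t + κ ≤ (-0.5906)) :
    ((-0.358) ≤ sy κ t ∧ sy κ t ≤ (-0.242)) ∧ (0.2864 ≤ sx κ t ∧ sx κ t ≤ 0.55) ∧ κ * Real.exp (-sy κ t) ≤ 0.6008 ∧ 0.5491 ≤ sD κ t ∧ sD κ t ≤ 0.8023 := by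
  have hy1 : -0.358 ≤ sy κ t := syL_ge2 h 0.36 0.42 0.6913 0.358 0.69907 0.69908 0.5793 0.59587 0.6952 hk1 hk2 (by linarith) (by norm_num) (by norm_num) (by norm_num)
    (expm_ge (by norm_num) (by norm_num) (by norm_num) (by norm_num)) (expm_le (by norm_num) (by norm_num) (by norm_num)) (by norm_num)
    (by norm_num) (by norm_num) (by norm_num) (by norm_num) (by norm_num) (by norm_num)
  have hy2 : sy κ t ≤ -0.242 := syL_le h 0.36 0.42 0.5906 0.242 0.78505 0.78506 0.45233 0.52774 hk1 hk2 (by linarith) (by norm_num) (by norm_num) (by norm_num)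
    (expm_ge (by norm_num) (by norm_num) (by norm_num) (by norm_num)) (expm_le (by norm_num) (by norm_num) (by norm_num)) (by norm_num)
    (by norm_num) (by norm_num) (by norm_num) (by norm_num) (by norm_num) (by norm_num)
  have hy1' : (-0.358) ≤ sy κ t := by linarith
  have hy2' : sy κ t ≤ (-0.242) := by linarith
  have hx1 : 0.2864 ≤ sx κ t := sx_lo h 0.36 (-0.242) 0.3581 1.27379 0.2864 hk1 (by norm_num) hy2' (abs_le.2 ⟨by linarith, by linarith⟩) (ex_lp 0.242 (by norm_num) (by norm_num) (by norm_num)) (by norm_num) (by norm_num)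
  have hx2 : sx κ t ≤ 0.55 := sx_hi h 0.42 (-0.358) 0.242 1.43047 0.55 hk2 hy1' (by norm_num) (le_trans (by linarith) (neg_le_abs _)) (ex_up 0.358 (by norm_num) (by norm_num) (by norm_num) (by norm_num)) (by norm_num) (by norm_num)
  refine ⟨⟨hy1', hy2'⟩, ⟨hx1, hx2⟩, v5_n h 0.42 (-0.358) 1.43047 0.6008 hk2 hy1' (ex_up 0.358 (by norm_num) (by norm_num) (by norm_num) (by norm_num)) (by norm_num), ?_, ?_⟩
  · exact v5_Dlo h 0.36 (-0.358) (-0.242) (-0.358) 1.43046 0.5491 (by norm_num) hk1 hy1' hy2' (ex_lp 0.358 (by norm_num) (by norm_num) (by norm_num)) (by norm_num) (by norm_num) (by norm_num) (by norm_num)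
  · exact v5_Dup h 0.42 (-0.358) (-0.242) 1.43047 1.2738 0.8023 hk2 hy1' hy2' (ex_up 0.358 (by norm_num) (by norm_num) (by norm_num) (by norm_num)) (ex_up 0.242 (by norm_num) (by norm_num) (by norm_num) (by norm_num)) (by norm_num) (by norm_num) (by norm_num)

private theorem B5Bw_T3_0_0 {β x y : ℝ} (hβ : 0 < β) (hN : β * 23.809 ≤ 1) (hx1 : 0.1172 ≤ x) (hx2 : x ≤ 0.4549)
    (hy1 : -0 ≤ y) (hy2 : y ≤ 0.284) : ‖HH β (x + y * I) - 1‖ ≤ 0.03 := by
  refine le_epsJ (C := 0.627) (N0 := 23.809) (J_boxp 0.1172 0.4549 0 0.284 0.284 0.7925 0.5363 1.3623 1.6544 0.4657 4.8795 23.809 0.6768 2.448 1.354 1.2451 0.3962 0.3068 1.0484 3.8191 0.3829 0.6333 0.587 2.1504 0.00008005 0.0006729 0.0000003101 0.0000003101 0.0001099 0.0000003101 0.0000008555 0.0000003101 0.627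
    hβ hN hx1 hx2 hy1 hy2 (by norm_num) (by norm_num) (by linarith) (by norm_num) (by norm_num) (by norm_num) (by norm_num) (by norm_num) (by norm_num) (by norm_num) (by norm_num) (by norm_num) (by norm_num) (by norm_num) (by norm_num) (by norm_num) (by norm_num) (by norm_num) (by norm_num) (by norm_num) (by norm_num) (by norm_num) (by norm_num) (by norm_num)
    (cube_sqrt_geJ (s := 0.8799) (by norm_num) (by norm_num) (by norm_num) (by norm_num))
    (cube_sqrt_geJ (s := 0.9576) (by norm_num) (by norm_num) (by norm_num) (by norm_num))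
    (by norm_num) (by norm_num) (by norm_num) (by norm_num) (by norm_num) (by norm_num) (by norm_num) (by norm_num) (by norm_num) (by norm_num) (by norm_num) (by norm_num) (by norm_num) (by norm_num) (by norm_num) (by norm_num) (by norm_num) (by norm_num)
    (exp_neg_leJ (r := 0.433) 9 (by norm_num) (by norm_num) (by norm_num) (by norm_num))
    (exp_neg_leJ (r := 0.304) 7 (by norm_num) (by norm_num) (by norm_num) (by norm_num))
    (exp_neg_leJ (r := 0.99) 14 (by norm_num) (by norm_num) (by norm_num) (by norm_num))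
    (exp_neg_leJ (r := 0.99) 14 (by norm_num) (by norm_num) (by norm_num) (by norm_num))
    (exp_neg_leJ (r := 0.116) 9 (by norm_num) (by norm_num) (by norm_num) (by norm_num))
    (exp_neg_leJ (r := 0.99) 14 (by norm_num) (by norm_num) (by norm_num) (by norm_num))
    (exp_neg_leJ (r := 0.975) 13 (by norm_num) (by norm_num) (by norm_num) (by norm_num))
    (exp_neg_leJ (r := 0.99) 14 (by norm_num) (by norm_num) (by norm_num) (by norm_num))
    (by norm_num)) (by norm_num) hN hβ.le (by norm_num)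

private theorem B5Bw_T3_1_0 {β x y : ℝ} (hβ : 0 < β) (hN : β * 23.809 ≤ 1) (hn : ‖(x + y * I : ℂ)‖ ≤ 0.338) : ‖HH β (x + y * I) - 1‖ ≤ 0.03 := by
  refine le_epsJ (C := 0.7139) (N0 := 23.809) (J45_genN (N := 23.809) (r0 := 4.8795) (f := 2.3764) (n0 := 0.338) (a := 0.662) (wL := 1.613) (wR := 1.908)
    (E1 := 0.01196) (E2 := 0.000002768) (E3 := 0.03288) (E4 := 0.00002314) (E5 := 0.0000003101) hβ (by norm_num) hN
    (by norm_num) (by norm_num) (by norm_num) hn (by norm_num) (by norm_num) (by norm_num)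
    (cube_sqrt_geJ (s := 0.934) (by norm_num) (by norm_num) (by norm_num) (by norm_num))
    (cube_sqrt_geJ (s := 0.9118) (by norm_num) (by norm_num) (by norm_num) (by norm_num))
    (exp_neg_leJ (r := 0.427) 4 (by norm_num) (by norm_num) (by norm_num) (by norm_num))
    (exp_neg_leJ (r := 0.799) 12 (by norm_num) (by norm_num) (by norm_num) (by norm_num))
    (exp_neg_leJ (r := 0.415) 3 (by norm_num) (by norm_num) (by norm_num) (by norm_num))
    (exp_neg_leJ (r := 0.675) 10 (by norm_num) (by norm_num) (by norm_num) (by norm_num))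
    (exp_neg_leJ (r := 0.99) 14 (by norm_num) (by norm_num) (by norm_num) (by norm_num))
    (by norm_num)) (by norm_num) hN hβ.le (by norm_num)

private theorem B5Bw_T3_1_1 {β x y : ℝ} (hβ : 0 < β) (hN : β * 23.809 ≤ 1) (hx1 : 0.149 ≤ x) (hx2 : x ≤ 0.4549)
    (hy1 : -0 ≤ y) (hy2 : y ≤ 0.3031) : ‖HH β (x + y * I) - 1‖ ≤ 0.03 := by
  refine le_epsJ (C := 0.5892) (N0 := 23.809) (J_boxp 0.149 0.4549 0 0.3031 0.3031 0.8149 0.5467 1.3803 1.5971 0.4688 4.8795 23.809 0.6709 2.426 1.35 1.2451 0.4074 0.3163 1.0592 3.8162 0.3964 0.6753 0.5687 2.0957 0.0000614 0.0005369 0.0000003101 0.0000003101 0.00007973 0.0000003101 0.000001318 0.0000003101 0.5892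
    hβ hN hx1 hx2 hy1 hy2 (by norm_num) (by norm_num) (by linarith) (by norm_num) (by norm_num) (by norm_num) (by norm_num) (by norm_num) (by norm_num) (by norm_num) (by norm_num) (by norm_num) (by norm_num) (by norm_num) (by norm_num) (by norm_num) (by norm_num) (by norm_num) (by norm_num) (by norm_num) (by norm_num) (by norm_num) (by norm_num) (by norm_num)
    (cube_sqrt_geJ (s := 0.8811) (by norm_num) (by norm_num) (by norm_num) (by norm_num))
    (cube_sqrt_geJ (s := 0.958) (by norm_num) (by norm_num) (by norm_num) (by norm_num))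
    (by norm_num) (by norm_num) (by norm_num) (by norm_num) (by norm_num) (by norm_num) (by norm_num) (by norm_num) (by norm_num) (by norm_num) (by norm_num) (by norm_num) (by norm_num) (by norm_num) (by norm_num) (by norm_num) (by norm_num) (by norm_num)
    (exp_neg_leJ (r := 0.699) 9 (by norm_num) (by norm_num) (by norm_num) (by norm_num))
    (exp_neg_leJ (r := 0.53) 7 (by norm_num) (by norm_num) (by norm_num) (by norm_num))
    (exp_neg_leJ (r := 0.99) 14 (by norm_num) (by norm_num) (by norm_num) (by norm_num))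
    (exp_neg_leJ (r := 0.99) 14 (by norm_num) (by norm_num) (by norm_num) (by norm_num))
    (exp_neg_leJ (r := 0.437) 9 (by norm_num) (by norm_num) (by norm_num) (by norm_num))
    (exp_neg_leJ (r := 0.99) 14 (by norm_num) (by norm_num) (by norm_num) (by norm_num))
    (exp_neg_leJ (r := 0.54) 13 (by norm_num) (by norm_num) (by norm_num) (by norm_num))
    (exp_neg_leJ (r := 0.99) 14 (by norm_num) (by norm_num) (by norm_num) (by norm_num))
    (by norm_num)) (by norm_num) hN hβ.le (by norm_num)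

private theorem B5Bw_T3 {β x y : ℝ} (hβ : 0 < β) (hN : β * 23.809 ≤ 1) (hx1 : 0.1172 ≤ x) (hx2 : x ≤ 0.4549)
    (hy1 : 0.0229 ≤ y) (hy2 : y ≤ 0.3031) : ‖HH β (x + y * I) - 1‖ ≤ 0.03 := by
  rcases le_total y 0.284 with hyy | hyy
  · exact B5Bw_T3_0_0 hβ hN (by linarith) (by linarith) (by linarith) (by linarith)
  rcases le_total x 0.149 with hxx | hxx
  · exact B5Bw_T3_1_0 hβ hN (norm_box5 0.149 0.3031 0.338 (by linarith) (by linarith) (by linarith) (by linarith) (by norm_num) (by norm_num))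
  exact B5Bw_T3_1_1 hβ hN (by linarith) (by linarith) (by linarith) (by linarith)

private theorem B5Bw_T4_0_0 {β x y : ℝ} (hβ : 0 < β) (hN : β * 23.809 ≤ 1) (hx1 : 0.2063 ≤ x) (hx2 : x ≤ 0.216)
    (hy1 : -0.4381 ≤ y) (hy2 : y ≤ -0.346) : ‖HH β (x + y * I) - 1‖ ≤ 0.08 := by
  refine le_epsJ (C := 1.9007) (N0 := 23.809) (J_boxp 0.2063 0.216 0.4381 0 (-0.346) 0.5442 0.4885 0.6888 2.0674 0.3311 4.8795 23.809 0.8977 3.472 1.504 0.9326 0.272 0.1906 0.3873 2.5305 0.2158 0.7856 0.7924 3.7968 0.001541 0.01071 0.00009895 0.0000003101 0.005876 0.0000003101 0.0000003101 0.0000003101 1.9007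
    hβ hN hx1 hx2 hy1 hy2 (by norm_num) (by norm_num) (by linarith) (by norm_num) (by norm_num) (by norm_num) (by norm_num) (by norm_num) (by norm_num) (by norm_num) (by norm_num) (by norm_num) (by norm_num) (by norm_num) (by norm_num) (by norm_num) (by norm_num) (by norm_num) (by norm_num) (by norm_num) (by norm_num) (by norm_num) (by norm_num) (by norm_num)
    (cube_sqrt_geJ (s := 0.8371) (by norm_num) (by norm_num) (by norm_num) (by norm_num))
    (cube_sqrt_geJ (s := 0.9434) (by norm_num) (by norm_num) (by norm_num) (by norm_num))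
    (by norm_num) (by norm_num) (by norm_num) (by norm_num) (by norm_num) (by norm_num) (by norm_num) (by norm_num) (by norm_num) (by norm_num) (by norm_num) (by norm_num) (by norm_num) (by norm_num) (by norm_num) (by norm_num) (by norm_num) (by norm_num)
    (exp_neg_leJ (r := 0.476) 6 (by norm_num) (by norm_num) (by norm_num) (by norm_num))
    (exp_neg_leJ (r := 0.537) 4 (by norm_num) (by norm_num) (by norm_num) (by norm_num))
    (exp_neg_leJ (r := 0.221) 9 (by norm_num) (by norm_num) (by norm_num) (by norm_num))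
    (exp_neg_leJ (r := 0.99) 14 (by norm_num) (by norm_num) (by norm_num) (by norm_num))
    (exp_neg_leJ (r := 0.137) 5 (by norm_num) (by norm_num) (by norm_num) (by norm_num))
    (exp_neg_leJ (r := 0.99) 14 (by norm_num) (by norm_num) (by norm_num) (by norm_num))
    (exp_neg_leJ (r := 0.99) 14 (by norm_num) (by norm_num) (by norm_num) (by norm_num))
    (exp_neg_leJ (r := 0.99) 14 (by norm_num) (by norm_num) (by norm_num) (by norm_num))
    (by norm_num)) (by norm_num) hN hβ.le (by norm_num)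

private theorem B5Bw_T4_0_1 {β x y : ℝ} (hβ : 0 < β) (hN : β * 23.809 ≤ 1) (hx1 : 0.216 ≤ x) (hx2 : x ≤ 0.241)
    (hy1 : -0.4381 ≤ y) (hy2 : y ≤ -0.346) : ‖HH β (x + y * I) - 1‖ ≤ 0.08 := by
  refine le_epsJ (C := 1.8998) (N0 := 23.809) (J_boxp 0.216 0.241 0.4381 0 (-0.346) 0.551 0.5001 0.697 2.0413 0.3331 4.8795 23.809 0.9077 3.53 1.511 0.923 0.2754 0.1921 0.3906 2.5197 0.2206 0.799 0.8118 3.7846 0.001422 0.01034 0.00009152 0.0000003101 0.005238 0.0000003101 0.0000003101 0.0000003101 1.8998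
    hβ hN hx1 hx2 hy1 hy2 (by norm_num) (by norm_num) (by linarith) (by norm_num) (by norm_num) (by norm_num) (by norm_num) (by norm_num) (by norm_num) (by norm_num) (by norm_num) (by norm_num) (by norm_num) (by norm_num) (by norm_num) (by norm_num) (by norm_num) (by norm_num) (by norm_num) (by norm_num) (by norm_num) (by norm_num) (by norm_num) (by norm_num)
    (cube_sqrt_geJ (s := 0.8351) (by norm_num) (by norm_num) (by norm_num) (by norm_num))
    (cube_sqrt_geJ (s := 0.9427) (by norm_num) (by norm_num) (by norm_num) (by norm_num))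
    (by norm_num) (by norm_num) (by norm_num) (by norm_num) (by norm_num) (by norm_num) (by norm_num) (by norm_num) (by norm_num) (by norm_num) (by norm_num) (by norm_num) (by norm_num) (by norm_num) (by norm_num) (by norm_num) (by norm_num) (by norm_num)
    (exp_neg_leJ (r := 0.556) 6 (by norm_num) (by norm_num) (by norm_num) (by norm_num))
    (exp_neg_leJ (r := 0.573) 4 (by norm_num) (by norm_num) (by norm_num) (by norm_num))
    (exp_neg_leJ (r := 0.299) 9 (by norm_num) (by norm_num) (by norm_num) (by norm_num))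
    (exp_neg_leJ (r := 0.99) 14 (by norm_num) (by norm_num) (by norm_num) (by norm_num))
    (exp_neg_leJ (r := 0.252) 5 (by norm_num) (by norm_num) (by norm_num) (by norm_num))
    (exp_neg_leJ (r := 0.99) 14 (by norm_num) (by norm_num) (by norm_num) (by norm_num))
    (exp_neg_leJ (r := 0.99) 14 (by norm_num) (by norm_num) (by norm_num) (by norm_num))
    (exp_neg_leJ (r := 0.99) 14 (by norm_num) (by norm_num) (by norm_num) (by norm_num))
    (by norm_num)) (by norm_num) hN hβ.le (by norm_num)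

private theorem B5Bw_T4_0_2 {β x y : ℝ} (hβ : 0 < β) (hN : β * 23.809 ≤ 1) (hx1 : 0.241 ≤ x) (hx2 : x ≤ 0.298)
    (hy1 : -0.4381 ≤ y) (hy2 : y ≤ -0.346) : ‖HH β (x + y * I) - 1‖ ≤ 0.08 := by
  refine le_epsJ (C := 1.9031) (N0 := 23.809) (J_boxp 0.241 0.298 0.4381 0 (-0.346) 0.5686 0.5299 0.7187 1.9773 0.3383 4.8795 23.809 0.932 3.678 1.529 0.9011 0.2842 0.1959 0.3992 2.4941 0.2327 0.8336 0.8618 3.7536 0.001154 0.009435 0.00007457 0.0000003101 0.003928 0.0000003101 0.0000003101 0.0000003101 1.9031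
    hβ hN hx1 hx2 hy1 hy2 (by norm_num) (by norm_num) (by linarith) (by norm_num) (by norm_num) (by norm_num) (by norm_num) (by norm_num) (by norm_num) (by norm_num) (by norm_num) (by norm_num) (by norm_num) (by norm_num) (by norm_num) (by norm_num) (by norm_num) (by norm_num) (by norm_num) (by norm_num) (by norm_num) (by norm_num) (by norm_num) (by norm_num)
    (cube_sqrt_geJ (s := 0.8302) (by norm_num) (by norm_num) (by norm_num) (by norm_num))
    (cube_sqrt_geJ (s := 0.9412) (by norm_num) (by norm_num) (by norm_num) (by norm_num))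
    (by norm_num) (by norm_num) (by norm_num) (by norm_num) (by norm_num) (by norm_num) (by norm_num) (by norm_num) (by norm_num) (by norm_num) (by norm_num) (by norm_num) (by norm_num) (by norm_num) (by norm_num) (by norm_num) (by norm_num) (by norm_num)
    (exp_neg_leJ (r := 0.766) 6 (by norm_num) (by norm_num) (by norm_num) (by norm_num))
    (exp_neg_leJ (r := 0.664) 4 (by norm_num) (by norm_num) (by norm_num) (by norm_num))
    (exp_neg_leJ (r := 0.504) 9 (by norm_num) (by norm_num) (by norm_num) (by norm_num))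
    (exp_neg_leJ (r := 0.99) 14 (by norm_num) (by norm_num) (by norm_num) (by norm_num))
    (exp_neg_leJ (r := 0.54) 5 (by norm_num) (by norm_num) (by norm_num) (by norm_num))
    (exp_neg_leJ (r := 0.99) 14 (by norm_num) (by norm_num) (by norm_num) (by norm_num))
    (exp_neg_leJ (r := 0.99) 14 (by norm_num) (by norm_num) (by norm_num) (by norm_num))
    (exp_neg_leJ (r := 0.99) 14 (by norm_num) (by norm_num) (by norm_num) (by norm_num))
    (by norm_num)) (by norm_num) hN hβ.le (by norm_num)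

private theorem B5Bw_T4_0_3 {β x y : ℝ} (hβ : 0 < β) (hN : β * 23.809 ≤ 1) (hx1 : 0.298 ≤ x) (hx2 : x ≤ 0.402)
    (hy1 : -0.4381 ≤ y) (hy2 : y ≤ -0.346) : ‖HH β (x + y * I) - 1‖ ≤ 0.08 := by
  refine le_epsJ (C := 1.8998) (N0 := 23.809) (J_boxp 0.298 0.402 0.4381 0 (-0.346) 0.6088 0.5946 0.7677 1.8446 0.3496 4.8795 23.809 0.9767 3.97 1.562 0.8611 0.3043 0.2052 0.4187 2.4446 0.2604 0.9126 0.9758 3.6917 0.0007138 0.007576 0.00004703 0.0000003101 0.002032 0.0000003101 0.0000003101 0.0000003101 1.8998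
    hβ hN hx1 hx2 hy1 hy2 (by norm_num) (by norm_num) (by linarith) (by norm_num) (by norm_num) (by norm_num) (by norm_num) (by norm_num) (by norm_num) (by norm_num) (by norm_num) (by norm_num) (by norm_num) (by norm_num) (by norm_num) (by norm_num) (by norm_num) (by norm_num) (by norm_num) (by norm_num) (by norm_num) (by norm_num) (by norm_num) (by norm_num)
    (cube_sqrt_geJ (s := 0.8212) (by norm_num) (by norm_num) (by norm_num) (by norm_num))
    (cube_sqrt_geJ (s := 0.9383) (by norm_num) (by norm_num) (by norm_num) (by norm_num))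
    (by norm_num) (by norm_num) (by norm_num) (by norm_num) (by norm_num) (by norm_num) (by norm_num) (by norm_num) (by norm_num) (by norm_num) (by norm_num) (by norm_num) (by norm_num) (by norm_num) (by norm_num) (by norm_num) (by norm_num) (by norm_num)
    (exp_neg_leJ (r := 0.245) 7 (by norm_num) (by norm_num) (by norm_num) (by norm_num))
    (exp_neg_leJ (r := 0.885) 4 (by norm_num) (by norm_num) (by norm_num) (by norm_num))
    (exp_neg_leJ (r := 0.968) 9 (by norm_num) (by norm_num) (by norm_num) (by norm_num))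
    (exp_neg_leJ (r := 0.99) 14 (by norm_num) (by norm_num) (by norm_num) (by norm_num))
    (exp_neg_leJ (r := 0.199) 6 (by norm_num) (by norm_num) (by norm_num) (by norm_num))
    (exp_neg_leJ (r := 0.99) 14 (by norm_num) (by norm_num) (by norm_num) (by norm_num))
    (exp_neg_leJ (r := 0.99) 14 (by norm_num) (by norm_num) (by norm_num) (by norm_num))
    (exp_neg_leJ (r := 0.99) 14 (by norm_num) (by norm_num) (by norm_num) (by norm_num))
    (by norm_num)) (by norm_num) hN hβ.le (by norm_num)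

private theorem B5Bw_T4_0_4 {β x y : ℝ} (hβ : 0 < β) (hN : β * 23.809 ≤ 1) (hx1 : 0.402 ≤ x) (hx2 : x ≤ 0.557)
    (hy1 : -0.4381 ≤ y) (hy2 : y ≤ -0.346) : ‖HH β (x + y * I) - 1‖ ≤ 0.08 := by
  refine le_epsJ (C := 1.8984) (N0 := 23.809) (J_boxp 0.402 0.557 0.4381 0 (-0.346) 0.682 0.7087 0.8591 1.6457 0.3698 4.8795 23.809 1.0392 4.431 1.611 0.8014 0.3409 0.2228 0.4543 2.366 0.3109 1.0566 1.1838 3.5896 0.0002988 0.004972 0.00002011 0.0000003101 0.0006101 0.0000003101 0.0000003101 0.0000003101 1.8984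
    hβ hN hx1 hx2 hy1 hy2 (by norm_num) (by norm_num) (by linarith) (by norm_num) (by norm_num) (by norm_num) (by norm_num) (by norm_num) (by norm_num) (by norm_num) (by norm_num) (by norm_num) (by norm_num) (by norm_num) (by norm_num) (by norm_num) (by norm_num) (by norm_num) (by norm_num) (by norm_num) (by norm_num) (by norm_num) (by norm_num) (by norm_num)
    (cube_sqrt_geJ (s := 0.8084) (by norm_num) (by norm_num) (by norm_num) (by norm_num))
    (cube_sqrt_geJ (s := 0.9342) (by norm_num) (by norm_num) (by norm_num) (by norm_num))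
    (by norm_num) (by norm_num) (by norm_num) (by norm_num) (by norm_num) (by norm_num) (by norm_num) (by norm_num) (by norm_num) (by norm_num) (by norm_num) (by norm_num) (by norm_num) (by norm_num) (by norm_num) (by norm_num) (by norm_num) (by norm_num)
    (exp_neg_leJ (r := 0.116) 8 (by norm_num) (by norm_num) (by norm_num) (by norm_num))
    (exp_neg_leJ (r := 0.304) 5 (by norm_num) (by norm_num) (by norm_num) (by norm_num))
    (exp_neg_leJ (r := 0.816) 10 (by norm_num) (by norm_num) (by norm_num) (by norm_num))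
    (exp_neg_leJ (r := 0.99) 14 (by norm_num) (by norm_num) (by norm_num) (by norm_num))
    (exp_neg_leJ (r := 0.402) 7 (by norm_num) (by norm_num) (by norm_num) (by norm_num))
    (exp_neg_leJ (r := 0.99) 14 (by norm_num) (by norm_num) (by norm_num) (by norm_num))
    (exp_neg_leJ (r := 0.99) 14 (by norm_num) (by norm_num) (by norm_num) (by norm_num))
    (exp_neg_leJ (r := 0.99) 14 (by norm_num) (by norm_num) (by norm_num) (by norm_num))
    (by norm_num)) (by norm_num) hN hβ.le (by norm_num)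

private theorem B5Bw_T4_0_5 {β x y : ℝ} (hβ : 0 < β) (hN : β * 23.809 ≤ 1) (hx1 : 0.557 ≤ x) (hx2 : x ≤ 0.6301)
    (hy1 : -0.4381 ≤ y) (hy2 : y ≤ -0.346) : ‖HH β (x + y * I) - 1‖ ≤ 0.08 := by
  refine le_epsJ (C := 1.2275) (N0 := 23.809) (J_boxp 0.557 0.6301 0.4381 0 (-0.346) 0.7911 0.7675 0.9082 1.3544 0.3802 4.8795 23.809 0.9702 3.926 1.557 0.7733 0.3955 0.2676 0.5074 2.3276 0.3862 1.2712 1.4938 3.7398 0.00008142 0.001711 0.000005672 0.0000003101 0.0001016 0.0000003101 0.0000003101 0.0000003101 1.2275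
    hβ hN hx1 hx2 hy1 hy2 (by norm_num) (by norm_num) (by linarith) (by norm_num) (by norm_num) (by norm_num) (by norm_num) (by norm_num) (by norm_num) (by norm_num) (by norm_num) (by norm_num) (by norm_num) (by norm_num) (by norm_num) (by norm_num) (by norm_num) (by norm_num) (by norm_num) (by norm_num) (by norm_num) (by norm_num) (by norm_num) (by norm_num)
    (cube_sqrt_geJ (s := 0.8225) (by norm_num) (by norm_num) (by norm_num) (by norm_num))
    (cube_sqrt_geJ (s := 0.9387) (by norm_num) (by norm_num) (by norm_num) (by norm_num))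
    (by norm_num) (by norm_num) (by norm_num) (by norm_num) (by norm_num) (by norm_num) (by norm_num) (by norm_num) (by norm_num) (by norm_num) (by norm_num) (by norm_num) (by norm_num) (by norm_num) (by norm_num) (by norm_num) (by norm_num) (by norm_num)
    (exp_neg_leJ (r := 0.416) 9 (by norm_num) (by norm_num) (by norm_num) (by norm_num))
    (exp_neg_leJ (r := 0.371) 6 (by norm_num) (by norm_num) (by norm_num) (by norm_num))
    (exp_neg_leJ (r := 0.08) 12 (by norm_num) (by norm_num) (by norm_num) (by norm_num))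
    (exp_neg_leJ (r := 0.99) 14 (by norm_num) (by norm_num) (by norm_num) (by norm_num))
    (exp_neg_leJ (r := 0.195) 9 (by norm_num) (by norm_num) (by norm_num) (by norm_num))
    (exp_neg_leJ (r := 0.99) 14 (by norm_num) (by norm_num) (by norm_num) (by norm_num))
    (exp_neg_leJ (r := 0.99) 14 (by norm_num) (by norm_num) (by norm_num) (by norm_num))
    (exp_neg_leJ (r := 0.99) 14 (by norm_num) (by norm_num) (by norm_num) (by norm_num))
    (by norm_num)) (by norm_num) hN hβ.le (by norm_num)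

private theorem B5Bw_T4_1_0 {β x y : ℝ} (hβ : 0 < β) (hN : β * 23.809 ≤ 1) (hx1 : 0.2063 ≤ x) (hx2 : x ≤ 0.456)
    (hy1 : -0.346 ≤ y) (hy2 : y ≤ -0.1619) : ‖HH β (x + y * I) - 1‖ ≤ 0.08 := by
  refine le_epsJ (C := 1.9015) (N0 := 23.809) (J_boxp 0.2063 0.456 0.346 0 (-0.1619) 0.6096 0.5725 0.9542 2.0524 0.3897 4.8795 23.809 0.9392 3.723 1.534 0.9253 0.3047 0.2093 0.5327 2.723 0.2662 0.7856 1.0427 3.5684 0.0007074 0.006877 0.000003106 0.0000003101 0.00177 0.0000003101 0.0000003101 0.0000003101 1.9015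
    hβ hN hx1 hx2 hy1 hy2 (by norm_num) (by norm_num) (by linarith) (by norm_num) (by norm_num) (by norm_num) (by norm_num) (by norm_num) (by norm_num) (by norm_num) (by norm_num) (by norm_num) (by norm_num) (by norm_num) (by norm_num) (by norm_num) (by norm_num) (by norm_num) (by norm_num) (by norm_num) (by norm_num) (by norm_num) (by norm_num) (by norm_num)
    (cube_sqrt_geJ (s := 0.8288) (by norm_num) (by norm_num) (by norm_num) (by norm_num))
    (cube_sqrt_geJ (s := 0.9407) (by norm_num) (by norm_num) (by norm_num) (by norm_num))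
    (by norm_num) (by norm_num) (by norm_num) (by norm_num) (by norm_num) (by norm_num) (by norm_num) (by norm_num) (by norm_num) (by norm_num) (by norm_num) (by norm_num) (by norm_num) (by norm_num) (by norm_num) (by norm_num) (by norm_num) (by norm_num)
    (exp_neg_leJ (r := 0.254) 7 (by norm_num) (by norm_num) (by norm_num) (by norm_num))
    (exp_neg_leJ (r := 0.983) 4 (by norm_num) (by norm_num) (by norm_num) (by norm_num))
    (exp_neg_leJ (r := 0.683) 12 (by norm_num) (by norm_num) (by norm_num) (by norm_num))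
    (exp_neg_leJ (r := 0.99) 14 (by norm_num) (by norm_num) (by norm_num) (by norm_num))
    (exp_neg_leJ (r := 0.337) 6 (by norm_num) (by norm_num) (by norm_num) (by norm_num))
    (exp_neg_leJ (r := 0.99) 14 (by norm_num) (by norm_num) (by norm_num) (by norm_num))
    (exp_neg_leJ (r := 0.99) 14 (by norm_num) (by norm_num) (by norm_num) (by norm_num))
    (exp_neg_leJ (r := 0.99) 14 (by norm_num) (by norm_num) (by norm_num) (by norm_num))
    (by norm_num)) (by norm_num) hN hβ.le (by norm_num)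

private theorem B5Bw_T4_1_1 {β x y : ℝ} (hβ : 0 < β) (hN : β * 23.809 ≤ 1) (hx1 : 0.456 ≤ x) (hx2 : x ≤ 0.6301)
    (hy1 : -0.346 ≤ y) (hy2 : y ≤ -0.1619) : ‖HH β (x + y * I) - 1‖ ≤ 0.08 := by
  refine le_epsJ (C := 1.1421) (N0 := 23.809) (J_boxp 0.456 0.6301 0.346 0 (-0.1619) 0.7854 0.7189 1.0486 1.4712 0.4086 4.8795 23.809 0.9154 3.576 1.517 0.8583 0.3926 0.2728 0.6182 2.6298 0.3874 1.1313 1.5421 3.6699 0.00008724 0.001512 0.000000406 0.0000003101 0.00009875 0.0000003101 0.0000003101 0.0000003101 1.1421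
    hβ hN hx1 hx2 hy1 hy2 (by norm_num) (by norm_num) (by linarith) (by norm_num) (by norm_num) (by norm_num) (by norm_num) (by norm_num) (by norm_num) (by norm_num) (by norm_num) (by norm_num) (by norm_num) (by norm_num) (by norm_num) (by norm_num) (by norm_num) (by norm_num) (by norm_num) (by norm_num) (by norm_num) (by norm_num) (by norm_num) (by norm_num)
    (cube_sqrt_geJ (s := 0.8335) (by norm_num) (by norm_num) (by norm_num) (by norm_num))
    (cube_sqrt_geJ (s := 0.9422) (by norm_num) (by norm_num) (by norm_num) (by norm_num))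
    (by norm_num) (by norm_num) (by norm_num) (by norm_num) (by norm_num) (by norm_num) (by norm_num) (by norm_num) (by norm_num) (by norm_num) (by norm_num) (by norm_num) (by norm_num) (by norm_num) (by norm_num) (by norm_num) (by norm_num) (by norm_num)
    (exp_neg_leJ (r := 0.347) 9 (by norm_num) (by norm_num) (by norm_num) (by norm_num))
    (exp_neg_leJ (r := 0.495) 6 (by norm_num) (by norm_num) (by norm_num) (by norm_num))
    (exp_neg_leJ (r := 0.718) 14 (by norm_num) (by norm_num) (by norm_num) (by norm_num))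
    (exp_neg_leJ (r := 0.99) 14 (by norm_num) (by norm_num) (by norm_num) (by norm_num))
    (exp_neg_leJ (r := 0.223) 9 (by norm_num) (by norm_num) (by norm_num) (by norm_num))
    (exp_neg_leJ (r := 0.99) 14 (by norm_num) (by norm_num) (by norm_num) (by norm_num))
    (exp_neg_leJ (r := 0.99) 14 (by norm_num) (by norm_num) (by norm_num) (by norm_num))
    (exp_neg_leJ (r := 0.99) 14 (by norm_num) (by norm_num) (by norm_num) (by norm_num))
    (by norm_num)) (by norm_num) hN hβ.le (by norm_num)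

private theorem B5Bw_T4 {β x y : ℝ} (hβ : 0 < β) (hN : β * 23.809 ≤ 1) (hx1 : 0.2063 ≤ x) (hx2 : x ≤ 0.6301)
    (hy1 : (-0.4381) ≤ y) (hy2 : y ≤ (-0.1619)) : ‖HH β (x + y * I) - 1‖ ≤ 0.08 := by
  rcases le_total y (-0.346) with hyy | hyy
  · rcases le_total x 0.216 with hxx | hxx
    · exact B5Bw_T4_0_0 hβ hN (by linarith) (by linarith) (by linarith) (by linarith)
    rcases le_total x 0.241 with hxx | hxx
    · exact B5Bw_T4_0_1 hβ hN (by linarith) (by linarith) (by linarith) (by linarith)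
    rcases le_total x 0.298 with hxx | hxx
    · exact B5Bw_T4_0_2 hβ hN (by linarith) (by linarith) (by linarith) (by linarith)
    rcases le_total x 0.402 with hxx | hxx
    · exact B5Bw_T4_0_3 hβ hN (by linarith) (by linarith) (by linarith) (by linarith)
    rcases le_total x 0.557 with hxx | hxx
    · exact B5Bw_T4_0_4 hβ hN (by linarith) (by linarith) (by linarith) (by linarith)
    exact B5Bw_T4_0_5 hβ hN (by linarith) (by linarith) (by linarith) (by linarith)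
  rcases le_total x 0.456 with hxx | hxx
  · exact B5Bw_T4_1_0 hβ hN (by linarith) (by linarith) (by linarith) (by linarith)
  exact B5Bw_T4_1_1 hβ hN (by linarith) (by linarith) (by linarith) (by linarith)

private theorem B5Bw_C5 {β r t κ : ℝ} (hβ : 0 < β) (hr : 10 ≤ r) (hκ : κ = β * r) (hk1 : 0.36 ≤ κ) (hk2 : κ ≤ 0.42) (hta : 1.822 ≤ t + κ)
    (htb : t + κ ≤ 1.9647) : ‖F (cexp (I * β)) (r * cexp (I * ((t + β / 2 : ℝ) : ℂ)))‖ ≤
      5.0312 * Real.exp (r * (0.2 + 1 / 20)) :=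
  v5_UD 0.36 0.42 1.822 1.9647 0.2 0.665 0.2 2.623 5.0312 hβ hr hκ (by norm_num) hk1 hk2 hta htb (by norm_num) (by norm_num) (by norm_num) (by norm_num) (by norm_num) (by norm_num) (by norm_num) (by norm_num) (by norm_num) (by norm_num) (by norm_num)

private theorem B5Bw_G6 {κ : ℝ} (hk1 : 0.36 ≤ κ) (hk2 : κ ≤ 0.42) : gG κ (-0.71) ≤ 1.24184 ∧ 1.66727 ≤ Real.exp (-(κ * (-0.71))) ^ 2 := by
  refine ⟨gG_le (-0.71) 0.36 0.42 1.24184 1.29124 1.34744 0.77446 0.74216 hk1 hk2 (by norm_num)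
    (ex_up 0.2556 (by norm_num) (by norm_num) (by norm_num) (by norm_num)) (ex_up 0.2982 (by norm_num) (by norm_num) (by norm_num) (by norm_num))
    (ex_um 0.2556 (by norm_num) (by norm_num) (by norm_num) (by norm_num)) (ex_um 0.2982 (by norm_num) (by norm_num) (by norm_num) (by norm_num))
    (by norm_num) (by norm_num), ?_⟩
  exact v5_M 1.29123 (ex_lp 0.2556 (by linarith) (by norm_num) (by norm_num)) (by norm_num) (by norm_num)

private theorem B5Bw_C7 {β r t κ : ℝ} (hβ : 0 < β) (hr : 10 ≤ r) (hκ : κ = β * r) (hk1 : 0.36 ≤ κ) (hk2 : κ ≤ 0.42) (hta : (-1.9479) ≤ t + κ)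
    (htb : t + κ ≤ (-1.8052)) : ‖F (cexp (I * β)) (r * cexp (I * ((t + β / 2 : ℝ) : ℂ)))‖ ≤
      1.9656 * Real.exp (r * (1.24184 - (-0.71) * (t + κ))) + 2.1732 * Real.exp (r * 0.0501) :=
  v5_HU (-0.71) 0.36 0.42 (-1.9479) (-1.8052) 1.24184 1.9656 1.66727 0.0818 1.2754 2.344 0 0.0501 0.00000189 2.1732 hβ hr hκ (by norm_num) hk1 hk2 hta htb (by norm_num) (by norm_num) (B5Bw_G6 hk1 hk2).1 (B5Bw_G6 hk1 hk2).2 (by norm_num) (by norm_num) (by norm_num)
    (by norm_num) (by norm_num) (by norm_num) (by norm_num) (by norm_num) (by norm_num) (by norm_num)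
    (by norm_num) (by norm_num) (by norm_num) (v5_hump 6.7955 23.809 4.8795 0.0000009316 0.00000189 hβ hr hκ hk1 hk2 (by norm_num) htb (by norm_num) (by norm_num) (by norm_num) (by norm_num) (by norm_num) (by norm_num) (by norm_num) (ex_un 13 0.9 (by norm_num) (by norm_num) (by norm_num) (by norm_num)) (by norm_num)) (by norm_num)

private theorem B5Bw_C8 {β r t κ : ℝ} (hβ : 0 < β) (hr : 10 ≤ r) (hκ : κ = β * r) (hk1 : 0.36 ≤ κ) (hk2 : κ ≤ 0.42) (hta : 3.0786 ≤ t + κ)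
    (htb : t + κ ≤ 3.2213) : ‖F (cexp (I * β)) (r * cexp (I * ((t + β / 2 : ℝ) : ℂ)))‖ ≤
      3.1206 * Real.exp (r * (0.01 + 1 / 20)) :=
  v5_UD 0.36 0.42 3.0786 3.2213 0.01 0.665 0.01 1.6269 3.1206 hβ hr hκ (by norm_num) hk1 hk2 hta htb (by norm_num) (by norm_num) (by norm_num) (by norm_num) (by norm_num) (by norm_num) (by norm_num) (by norm_num) (by norm_num) (by norm_num) (by norm_num)

private theorem B5Bw_Y9 {β r t κ h t' : ℝ} (hβ : 0 < β) (hκ : κ = β * r) (hN : β * 23.809 ≤ 1) (hk1 : 0.36 ≤ κ) (hk2 : κ ≤ 0.42)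
    (ht : t' = t + (((1 : ℤ) : ℝ) - 1) * h) (hD : DomR κ t') (hta : 0.5654 ≤ t' + κ) (htb : t' + κ ≤ 0.666) :
    0.8781 * Real.exp (r * sE κ t') ≤ ‖Xf β r h t 1‖ := by
  obtain ⟨⟨ya, yb⟩, ⟨xa, xb⟩, n1, Da, Db⟩ := B5Bw_B1 hD hk1 hk2 hta htb
  have J := B5Bw_T3 (x := sx κ t') (y := sy κ t') hβ hN (by linarith only [xa, xb, ya, yb]) (by linarith only [xa, xb, ya, yb]) (by linarith only [xa, xb, ya, yb]) (by linarith only [xa, xb, ya, yb])
  exact v5_Jlo hβ hκ (k := 1) ht hD 0.03 1.4884 0.8781 (by norm_num) J Db (by norm_num)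

private theorem B5Bw_Y10 {β r t κ h t' : ℝ} (hβ : 0 < β) (hκ : κ = β * r) (hN : β * 23.809 ≤ 1) (hk1 : 0.36 ≤ κ) (hk2 : κ ≤ 0.42)
    (ht : t' = t + (((0 : ℤ) : ℝ) - 1) * h) (hD : DomR κ t') (hta : (-0.6913) ≤ t' + κ) (htb : t' + κ ≤ (-0.5906)) :
    0.972 * Real.exp (r * sE κ t') ≤ ‖Xf β r h t 0‖ := by
  obtain ⟨⟨ya, yb⟩, ⟨xa, xb⟩, n1, Da, Db⟩ := B5Bw_B2 hD hk1 hk2 hta htb
  have J := B5Bw_T4 (x := sx κ t') (y := sy κ t') hβ hN (by linarith only [xa, xb, ya, yb]) (by linarith only [xa, xb, ya, yb]) (by linarith only [xa, xb, ya, yb]) (by linarith only [xa, xb, ya, yb])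
  exact v5_Jlo hβ hκ (k := 0) ht hD 0.08 0.8023 0.972 (by norm_num) J Db (by norm_num)

private theorem B5Bw_V11 {κ t : ℝ} (hD : DomR κ t) (hk1 : 0.36 ≤ κ) (hk2 : κ ≤ 0.42) (hta : 0.5654 ≤ t + κ) (htb : t + κ ≤ 0.666) :
    1.14281 - 0.4864 * (t + κ) ≤ sE κ t := by
  have hκ0 : 0 < κ := hD.1
  exact v5_V1 hD 0.36 0.42 0.5654 0.666 0.05813 0.17498 0.17222 1.14281 0.4864 (by norm_num) hk1 hk2 (by norm_num) (by norm_num) hta htb (by norm_num) (clo5 0.36 0.42 0.17222 (by norm_num) hk1 hk2 (by norm_num) (by norm_num) (by norm_num))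
      ((cup1 0.42 hκ0.le hk2 (by norm_num)).trans (by norm_num)) (by norm_num) (by norm_num) (by norm_num) (by norm_num) (by norm_num) (by norm_num)

private theorem B5Bw_V12 {κ t : ℝ} (hD : DomR κ t) (hk1 : 0.36 ≤ κ) (hk2 : κ ≤ 0.42) (hta : (-0.6913) ≤ t + κ) (htb : t + κ ≤ (-0.5906)) :
    1.23534 + 0.7389 * (t + κ) ≤ sE κ t := by
  have hκ0 : 0 < κ := hD.1
  exact v5_V0 hD 0.36 0.42 (-0.6913) (-0.5906) 0.6914 0.6511 0.15491 0.02159 0.69379 0.37182 1.23534 0.7389 (by norm_num) hk1 hk2 (by norm_num) hta htb (by norm_num) (by norm_num) (by norm_num) ((cup1 0.42 hκ0.le hk2 (by norm_num)).trans (by norm_num))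
      (by norm_num) (by norm_num) (by norm_num) (by norm_num) (by norm_num) (by norm_num) (by norm_num) (by norm_num) (by norm_num) (by norm_num) (by norm_num) (by norm_num) (by norm_num)

private theorem B5Bw_S13 {β r t κ h t' : ℝ} (hβ : 0 < β) (hκ : κ = β * r) (hN : β * 23.809 ≤ 1) (hk1 : 0.36 ≤ κ) (hk2 : κ ≤ 0.42)
    (ht : t' = t + (((1 : ℤ) : ℝ) - 1) * h) (hD : DomR κ t') (hta : 0.5654 ≤ t' + κ) (htb : t' + κ ≤ 0.666) :
    Xf β r h t 1 ≠ 0 ∧ |(Ld β r h t 1).im - (sy κ t' / β + sx κ t' / sD κ t' * ((1 + sy κ t') / sD κ t' - 1 / 2))| ≤ 0.0799 ∧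
      ‖Ld β r h t 1 - sg κ t' / β‖ ≤ 0.2116 ∧ -0.0001 ≤ sx κ t' / sD κ t' * ((1 + sy κ t') / sD κ t' - 1 / 2) ∧
      (0.143 ≤ sy κ t' ∧ sy κ t' ≤ 0.183) ∧ (0.2373 ≤ sx κ t' ∧ sx κ t' ≤ 0.3348) := by
  obtain ⟨⟨y1, y2⟩, ⟨x1, x2⟩, n1, Da, Db⟩ := B5Bw_B1 hD hk1 hk2 hta htb
  have hd := v5_disc (β := β) (κ := κ) (t := t') (ε := 0.03) 0.12 0.1172 0.4549 0.0229 0.3031 0.2373 0.3348 0.143 0.183
    (fun x y g1 g2 g3 g4 => B5Bw_T3 hβ hN g1 g2 g3 g4) x1 x2 y1 y2 (by norm_num) (by norm_num) (by norm_num) (by norm_num)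
  obtain ⟨nz, im, nL⟩ := v5_slope (h := h) (t := t) (k := 1) 0.12 0.03 0.3641 1.3833 0.2578 0.0799 hβ hκ ht hD (by norm_num) (by norm_num) (by linarith only [y1]) hd n1 (by norm_num) Da (by norm_num) (by norm_num) (by norm_num) (by norm_num)
  have ex := ex_lo hD 0.3641 1.3833 1.4884 0.143 0 0.0001 n1 (by norm_num) Da Db y1 (by norm_num) (by norm_num) (by norm_num) (by norm_num)
  exact ⟨nz, im, nL.trans (by norm_num), ex, ⟨y1, y2⟩, x1, x2⟩

private theorem B5Bw_S14 {β r t κ h t' : ℝ} (hβ : 0 < β) (hκ : κ = β * r) (hN : β * 23.809 ≤ 1) (hk1 : 0.36 ≤ κ) (hk2 : κ ≤ 0.42)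
    (ht : t' = t + (((0 : ℤ) : ℝ) - 1) * h) (hD : DomR κ t') (hta : (-0.6913) ≤ t' + κ) (htb : t' + κ ≤ (-0.5906)) :
    Xf β r h t 0 ≠ 0 ∧ |(Ld β r h t 0).im - (sy κ t' / β + sx κ t' / sD κ t' * ((1 + sy κ t') / sD κ t' - 1 / 2))| ≤ 0.8814 ∧
      ‖Ld β r h t 0 - sg κ t' / β‖ ≤ 1.4285 ∧ sx κ t' / sD κ t' * ((1 + sy κ t') / sD κ t' - 1 / 2) ≤ 0.9635 ∧
      ((-0.358) ≤ sy κ t' ∧ sy κ t' ≤ (-0.242)) ∧ (0.2864 ≤ sx κ t' ∧ sx κ t' ≤ 0.55) := by
  obtain ⟨⟨y1, y2⟩, ⟨x1, x2⟩, n1, Da, Db⟩ := B5Bw_B2 hD hk1 hk2 hta htb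
  have hd := v5_disc (β := β) (κ := κ) (t := t') (ε := 0.08) 0.08 0.2063 0.6301 (-0.4381) (-0.1619) 0.2864 0.55 (-0.358) (-0.242)
    (fun x y g1 g2 g3 g4 => B5Bw_T4 hβ hN g1 g2 g3 g4) x1 x2 y1 y2 (by norm_num) (by norm_num) (by norm_num) (by norm_num)
  obtain ⟨nz, im, nL⟩ := v5_slope (h := h) (t := t) (k := 0) 0.08 0.08 0.6008 0.5491 1.087 0.8814 hβ hκ ht hD (by norm_num) (by norm_num) (by linarith only [y1]) hd n1 (by norm_num) Da (by norm_num) (by norm_num) (by norm_num) (by norm_num)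
  have ex := ex_hi hD 0.6008 0.5491 (-0.242) 0.8805 0.9635 n1 (by norm_num) Da y2 (by norm_num) (by norm_num) (by norm_num) (by norm_num)
  exact ⟨nz, im, nL.trans (by norm_num), ex, ⟨y1, y2⟩, x1, x2⟩

private theorem B5Bw_L15 {β r κ t1 t0 : ℝ} {L0 L1 : ℂ} (hβ : 0 < β) (hr : 10 ≤ r) (hκ : κ = β * r) (hk1 : 0.36 ≤ κ)
    (nA0 : ‖L0 - sg κ t0 / β‖ ≤ 1.4285) (nA1 : ‖L1 - sg κ t1 / β‖ ≤ 0.2116)
    (y0 : (-0.358) ≤ sy κ t0 ∧ sy κ t0 ≤ (-0.242)) (x0 : 0.2864 ≤ sx κ t0 ∧ sx κ t0 ≤ 0.55)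
    (y1 : 0.143 ≤ sy κ t1 ∧ sy κ t1 ≤ 0.183) (x1 : 0.2373 ≤ sx κ t1 ∧ sx κ t1 ≤ 0.3348) :
    ‖(1 : ℂ) * L0 + (-2 : ℂ) * L1‖ ≤ r * 2.4611 := by
  obtain ⟨y0a, y0b⟩ := y0
  obtain ⟨x0a, x0b⟩ := x0
  obtain ⟨y1a, y1b⟩ := y1
  obtain ⟨x1a, x1b⟩ := x1
  have hN := v5_cN (κ := κ) (t1 := t1) (t0 := t0) 1 (-2) 0.3833 0.7241 0.8193 (abs_le.2 ⟨by linarith only [x0a, x0b, x1a, x1b], by linarith only [x0a, x0b, x1a, x1b]⟩)
    (abs_le.2 ⟨by linarith only [y0a, y0b, y1a, y1b], by linarith only [y0a, y0b, y1a, y1b]⟩) (by norm_num) (by norm_num)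
  have h1 := v5_comb 1 (-2) 0.36 1.4285 0.2116 0.8193 2.4611 hβ hr hκ (by norm_num) hk1 nA0 nA1 hN (by norm_num [abs_of_neg, abs_of_pos])
  norm_num at h1 ⊢
  exact h1

private theorem B5Bw_L16 {β r κ t1 t0 : ℝ} {L0 L1 : ℂ} (hβ : 0 < β) (hr : 10 ≤ r) (hκ : κ = β * r) (hk1 : 0.36 ≤ κ)
    (nA0 : ‖L0 - sg κ t0 / β‖ ≤ 1.4285) (nA1 : ‖L1 - sg κ t1 / β‖ ≤ 0.2116)
    (y0 : (-0.358) ≤ sy κ t0 ∧ sy κ t0 ≤ (-0.242)) (x0 : 0.2864 ≤ sx κ t0 ∧ sx κ t0 ≤ 0.55)
    (y1 : 0.143 ≤ sy κ t1 ∧ sy κ t1 ≤ 0.183) (x1 : 0.2373 ≤ sx κ t1 ∧ sx κ t1 ≤ 0.3348) :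
    ‖(-2 : ℂ) * L0 + (1 : ℂ) * L1‖ ≤ r * 3.7686 := by
  obtain ⟨y0a, y0b⟩ := y0
  obtain ⟨x0a, x0b⟩ := x0
  obtain ⟨y1a, y1b⟩ := y1
  obtain ⟨x1a, x1b⟩ := x1
  have hN := v5_cN (κ := κ) (t1 := t1) (t0 := t0) (-2) 1 0.8628 0.8991 1.2462 (abs_le.2 ⟨by linarith only [x0a, x0b, x1a, x1b], by linarith only [x0a, x0b, x1a, x1b]⟩)
    (abs_le.2 ⟨by linarith only [y0a, y0b, y1a, y1b], by linarith only [y0a, y0b, y1a, y1b]⟩) (by norm_num) (by norm_num)
  have h1 := v5_comb (-2) 1 0.36 1.4285 0.2116 1.2462 3.7686 hβ hr hκ (by norm_num) hk1 nA0 nA1 hN (by norm_num [abs_of_neg, abs_of_pos])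
  norm_num at h1 ⊢
  exact h1

private theorem B5Bw_L17 {β r κ t1 t0 : ℝ} {L0 L1 : ℂ} (hβ : 0 < β) (hr : 10 ≤ r) (hκ : κ = β * r) (hk1 : 0.36 ≤ κ)
    (nA0 : ‖L0 - sg κ t0 / β‖ ≤ 1.4285) (nA1 : ‖L1 - sg κ t1 / β‖ ≤ 0.2116)
    (y0 : (-0.358) ≤ sy κ t0 ∧ sy κ t0 ≤ (-0.242)) (x0 : 0.2864 ≤ sx κ t0 ∧ sx κ t0 ≤ 0.55)
    (y1 : 0.143 ≤ sy κ t1 ∧ sy κ t1 ≤ 0.183) (x1 : 0.2373 ≤ sx κ t1 ∧ sx κ t1 ≤ 0.3348) :
    ‖(-3 : ℂ) * L0 + (2 : ℂ) * L1‖ ≤ r * 5.6348 := by
  obtain ⟨y0a, y0b⟩ := y0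
  obtain ⟨x0a, x0b⟩ := x0
  obtain ⟨y1a, y1b⟩ := y1
  obtain ⟨x1a, x1b⟩ := x1
  have hN := v5_cN (κ := κ) (t1 := t1) (t0 := t0) (-3) 2 1.1755 1.4401 1.859 (abs_le.2 ⟨by linarith only [x0a, x0b, x1a, x1b], by linarith only [x0a, x0b, x1a, x1b]⟩)
    (abs_le.2 ⟨by linarith only [y0a, y0b, y1a, y1b], by linarith only [y0a, y0b, y1a, y1b]⟩) (by norm_num) (by norm_num)
  have h1 := v5_comb (-3) 2 0.36 1.4285 0.2116 1.859 5.6348 hβ hr hκ (by norm_num) hk1 nA0 nA1 hN (by norm_num [abs_of_neg, abs_of_pos])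
  norm_num at h1 ⊢
  exact h1

private theorem B5Bw_K18 {β r t κ h : ℝ} (hβ : 0 < β) (hr : 10 ≤ r) (hκ : κ = β * r) (hk1 : 0.36 ≤ κ) (hk2 : κ ≤ 0.42)
    (hh : h = 2 * Real.pi / 5) (hh1 : 1.25663 ≤ h) (hh2 : h ≤ 1.25664) (hta : 0.5654 ≤ t + κ) (htb : t + κ ≤ 0.666)
    (hβ1 : β ≤ 0.042)
    (hY : 0.8781 * Real.exp (r * sE κ t) ≤ ‖Xf β r h t 1‖) (hV : 1.14281 - 0.4864 * (t + κ) ≤ sE κ t) :
    ‖Xf β r h t 2‖ ≤ 0.0196 * ‖Xf β r h t 1‖ ∧ ‖Xf β r h (t + β) 2‖ ≤ 0.0196 * ‖Xf β r h t 1‖ := by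
  constructor
  · rw [v5_X 2 1 (by push_cast; ring)]
    exact v5_cmp0 0.5688 0.003406 0.0196 hr (B5Bw_C5 (t := t + 1 * h) hβ hr hκ hk1 hk2 (by linarith only [hta, htb, hh1, hh2, hβ, hβ1]) (by linarith only [hta, htb, hh1, hh2, hβ, hβ1])) hY (by norm_num) (by norm_num) (by norm_num) (by linarith only [hV, hta, htb, hh1, hh2]) (ex_un 5 0.6879 (by norm_num) (by norm_num) (by norm_num) (by norm_num)) (by norm_num)
  · rw [v5_X 2 1 (by push_cast; ring)]
    exact v5_cmp0 0.5688 0.003406 0.0196 hr (B5Bw_C5 (t := t + β + 1 * h) hβ hr hκ hk1 hk2 (by linarith only [hta, htb, hh1, hh2, hβ, hβ1]) (by linarith only [hta, htb, hh1, hh2, hβ, hβ1])) hY (by norm_num) (by norm_num) (by norm_num) (by linarith only [hV, hta, htb, hh1, hh2]) (ex_un 5 0.6879 (by norm_num) (by norm_num) (by norm_num) (by norm_num)) (by norm_num)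

private theorem B5Bw_K19 {β r t κ h : ℝ} (hβ : 0 < β) (hr : 10 ≤ r) (hκ : κ = β * r) (hk1 : 0.36 ≤ κ) (hk2 : κ ≤ 0.42)
    (hh : h = 2 * Real.pi / 5) (hh1 : 1.25663 ≤ h) (hh2 : h ≤ 1.25664) (hta : 0.5654 ≤ t + κ) (htb : t + κ ≤ 0.666)
    (hβ1 : β ≤ 0.042)
    (hY : 0.972 * Real.exp (r * sE κ (t - h)) ≤ ‖Xf β r h t 0‖) (hV : 1.23534 + 0.7389 * (t - h + κ) ≤ sE κ (t - h)) :
    ‖Xf β r h t (-1)‖ ≤ 0.00302 * ‖Xf β r h t 0‖ ∧ ‖Xf β r h (t + β) (-1)‖ ≤ 0.00314 * ‖Xf β r h t 0‖ := by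
  constructor
  · rw [v5_X (-1) (-2) (by push_cast; ring)]
    exact v5_cmp 0.8657 0.0001748 0.000354 0.6744 0.001187 0.00266 0.00302 hr (B5Bw_C7 (t := t + (-2) * h) hβ hr hκ hk1 hk2 (by linarith only [hta, htb, hh1, hh2, hβ, hβ1]) (by linarith only [hta, htb, hh1, hh2, hβ, hβ1])) hY (by norm_num) (by norm_num) (by norm_num) (by norm_num) (by linarith only [hV, hta, htb, hh1, hh2]) (ex_un 8 0.6569 (by norm_num) (by norm_num) (by norm_num) (by norm_num)) (by norm_num) (by norm_num) (by linarith only [hV, hta, htb, hh1, hh2]) (ex_un 6 0.7439 (by norm_num) (by norm_num) (by norm_num) (by norm_num)) (by norm_num) (by norm_num)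
  · rw [v5_X (-1) (-2) (by push_cast; ring)]
    have h1 := B5Bw_C7 (t := t + β + (-2) * h) hβ hr hκ hk1 hk2 (by linarith only [hta, htb, hh1, hh2, hβ, hβ1]) (by linarith only [hta, htb, hh1, hh2, hβ, hβ1])
    rw [show t + β + (-2) * h + κ = (t + (-2) * h + κ) + β by ring] at h1
    exact v5_cmpS 1.34744 0.8657 0.0001748 0.000477 0.6744 0.001187 0.00266 0.00314 hr hκ h1 hY (by norm_num) (by norm_num) (by norm_num) (ex_up 0.2982 (by linarith only [hk1, hk2]) (by norm_num) (by norm_num) (by norm_num)) (by norm_num) (by linarith only [hV, hta, htb, hh1, hh2]) (ex_un 8 0.6569 (by norm_num) (by norm_num) (by norm_num) (by norm_num)) (by norm_num) (by norm_num) (by linarith only [hV, hta, htb, hh1, hh2]) (ex_un 6 0.7439 (by norm_num) (by norm_num) (by norm_num) (by norm_num)) (by norm_num) (by norm_num)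

private theorem B5Bw_K20 {β r t κ h : ℝ} (hβ : 0 < β) (hr : 10 ≤ r) (hκ : κ = β * r) (hk1 : 0.36 ≤ κ) (hk2 : κ ≤ 0.42)
    (hh : h = 2 * Real.pi / 5) (hh1 : 1.25663 ≤ h) (hh2 : h ≤ 1.25664) (hta : 0.5654 ≤ t + κ) (htb : t + κ ≤ 0.666)
    (hβ1 : β ≤ 0.042)
    (hY : 0.972 * Real.exp (r * sE κ (t - h)) ≤ ‖Xf β r h t 0‖) (hV : 1.23534 + 0.7389 * (t - h + κ) ≤ sE κ (t - h)) :
    ‖Xf β r h t (-2)‖ ≤ 0.0042 * ‖Xf β r h t 0‖ ∧ ‖Xf β r h (t + β) (-2)‖ ≤ 0.0042 * ‖Xf β r h t 0‖ := by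
  constructor
  · rw [v5_Xm2 hh]
    exact v5_cmp0 0.6645 0.001307 0.0042 hr (B5Bw_C8 (t := t + 2 * h) hβ hr hκ hk1 hk2 (by linarith only [hta, htb, hh1, hh2, hβ, hβ1]) (by linarith only [hta, htb, hh1, hh2, hβ, hβ1])) hY (by norm_num) (by norm_num) (by norm_num) (by linarith only [hV, hta, htb, hh1, hh2]) (ex_un 6 0.6449 (by norm_num) (by norm_num) (by norm_num) (by norm_num)) (by norm_num)
  · rw [v5_Xm2 hh]
    exact v5_cmp0 0.6645 0.001307 0.0042 hr (B5Bw_C8 (t := t + β + 2 * h) hβ hr hκ hk1 hk2 (by linarith only [hta, htb, hh1, hh2, hβ, hβ1]) (by linarith only [hta, htb, hh1, hh2, hβ, hβ1])) hY (by norm_num) (by norm_num) (by norm_num) (by linarith only [hV, hta, htb, hh1, hh2]) (ex_un 6 0.6449 (by norm_num) (by norm_num) (by norm_num) (by norm_num)) (by norm_num)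

theorem B5Bw_W21 {β r t κ h : ℝ} (hβ : 0 < β) (hr : 10 ≤ r) (hκ : κ = β * r) (hk1 : 0.36 ≤ κ) (hk2 : κ ≤ 0.42)
    (hh : h = 2 * Real.pi / 5) (hta : 0.5654 ≤ t + κ) (htb : t + κ ≤ 0.666) :
    Xf β r h t 0 ≠ 0 ∧
    (‖Xf β r h t 2‖ ≤ 0.0197 * ‖Xf β r h t 1‖ ∧ ‖Xf β r h t (-1)‖ ≤ 0.00302 * ‖Xf β r h t 0‖ ∧
      ‖Xf β r h t (-2)‖ ≤ 0.00421 * ‖Xf β r h t 0‖) ∧
    (r * ‖Xf β r h (t + β) 2‖ + ‖Xf β r h t 2‖ * ‖(1 : ℂ) * Ld β r h t 0 + (-2 : ℂ) * Ld β r h t 1‖ ≤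
        r * 0.0682 * ‖Xf β r h t 1‖ ∧
      r * ‖Xf β r h (t + β) (-1)‖ + ‖Xf β r h t (-1)‖ * ‖(-2 : ℂ) * Ld β r h t 0 + (1 : ℂ) * Ld β r h t 1‖ ≤
        r * 0.0146 * ‖Xf β r h t 0‖ ∧
      r * ‖Xf β r h (t + β) (-2)‖ + ‖Xf β r h t (-2)‖ * ‖(-3 : ℂ) * Ld β r h t 0 + (2 : ℂ) * Ld β r h t 1‖ ≤
        r * 0.028 * ‖Xf β r h t 0‖) ∧
    r * 0.7241 ≤ (Ld β r h t 1 - Ld β r h t 0).im := by
  obtain ⟨hh1, hh2⟩ := v5_h hh
  have hκ0 : 0 < κ := by linarith only [hk1]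
  have hN : β * 23.809 ≤ 1 := v5_hN 0.42 23.809 hβ hr hκ hk2 (by norm_num) (by norm_num)
  have hD1 : DomR κ t := v5_dom hκ0 (by linarith only [hta, htb, hk1, hk2, hh1, hh2]) (Or.inr (by linarith only [hta, htb, hk1, hk2, hh1, hh2]))
  have hD0 : DomR κ (t - h) := v5_dom hκ0 (by linarith only [hta, htb, hk1, hk2, hh1, hh2]) (Or.inr (by linarith only [hta, htb, hk1, hk2, hh1, hh2]))
  have hβ1 : β ≤ 0.042 := by
    have := mul_le_mul_of_nonneg_left hr hβ.le
    linarith only [this, hκ, hk2]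
  have h0a : (-0.6913) ≤ t - h + κ := by linarith only [hta, htb, hh1, hh2]
  have h0b : t - h + κ ≤ (-0.5906) := by linarith only [hta, htb, hh1, hh2]
  have e1 : t = t + (((1 : ℤ) : ℝ) - 1) * h := by push_cast; ring
  have e0 : t - h = t + (((0 : ℤ) : ℝ) - 1) * h := by push_cast; ring
  have hY1 := B5Bw_Y9 (h := h) hβ hκ hN hk1 hk2 e1 hD1 hta htb
  have hY0 := B5Bw_Y10 (h := h) hβ hκ hN hk1 hk2 e0 hD0 h0a h0b
  have hV1 := B5Bw_V11 hD1 hk1 hk2 hta htb
  have hV0 := B5Bw_V12 hD0 hk1 hk2 h0a h0b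
  obtain ⟨nz1, im1, nA1, ex1, y1, x1⟩ := B5Bw_S13 (h := h) hβ hκ hN hk1 hk2 e1 hD1 hta htb
  obtain ⟨nz0, im0, nA0, ex0, y0, x0⟩ := B5Bw_S14 (h := h) hβ hκ hN hk1 hk2 e0 hD0 h0a h0b
  obtain ⟨cp2, dp2⟩ := B5Bw_K18 hβ hr hκ hk1 hk2 hh hh1 hh2 hta htb hβ1 hY1 hV1
  obtain ⟨cm1, dm1⟩ := B5Bw_K19 hβ hr hκ hk1 hk2 hh hh1 hh2 hta htb hβ1 hY0 hV0
  obtain ⟨cm2, dm2⟩ := B5Bw_K20 hβ hr hκ hk1 hk2 hh hh1 hh2 hta htb hβ1 hY0 hV0
  have Lp2 := B5Bw_L15 hβ hr hκ hk1 nA0 nA1 y0 x0 y1 x1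
  have Lm1 := B5Bw_L16 hβ hr hκ hk1 nA0 nA1 y0 x0 y1 x1
  have Lm2 := B5Bw_L17 hβ hr hκ hk1 nA0 nA1 y0 x0 y1 x1
  have hm : r * 0.7241 ≤ (Ld β r h t 1 - Ld β r h t 0).im :=
    v5_m 0.42 0.143 0.242 0.0001 0.9635 0.0799 0.8814 _ _ 0.7241 hβ hr hκ hk2 im1 im0 y1.1 (by linarith only [y0.2]) (by norm_num) ex1 ex0 (by norm_num) (by norm_num)
  have hr0 : 0 < r := by linarith only [hr]
  refine ⟨nz0, ⟨v5_emax _ cp2 (norm_nonneg _) (by norm_num), v5_emax _ cm1 (norm_nonneg _) (by norm_num), v5_emax _ cm2 (norm_nonneg _) (by norm_num)⟩, ⟨?_, ?_, ?_⟩, hm⟩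
  · exact v5_W hr0 dp2 cp2 Lp2 (norm_nonneg _) (norm_nonneg _) (norm_nonneg _) (by norm_num)
  · exact v5_W hr0 dm1 cm1 Lm1 (norm_nonneg _) (norm_nonneg _) (norm_nonneg _) (by norm_num)
  · exact v5_W hr0 dm2 cm2 Lm2 (norm_nonneg _) (norm_nonneg _) (norm_nonneg _) (by norm_num)

private theorem B5Bw_B22 {κ t : ℝ} (h : DomR κ t) (hk1 : 0.36 ≤ κ) (hk2 : κ ≤ 0.42) (ht1 : 0.666 ≤ t + κ) (ht2 : t + κ ≤ 0.7666) :
    (0.162 ≤ sy κ t ∧ sy κ t ≤ 0.203) ∧ (0.2123 ≤ sx κ t ∧ sx κ t ≤ 0.3184) ∧ κ * Real.exp (-sy κ t) ≤ 0.3572 ∧ 1.4177 ≤ sD κ t ∧ sD κ t ≤ 1.5236 := by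
  have hy1 : 0.162 ≤ sy κ t := syR_ge h 0.36 0.42 0.666 0.162 1.17586 1.17587 0.45354 0.52915 hk1 hk2 (by linarith) (by norm_num) (by norm_num)
    (expn_ge (by norm_num) (by norm_num)) (expn_le (by norm_num) (by norm_num) (by norm_num)) (by norm_num)
    (by norm_num) (by norm_num) (by norm_num) (by norm_num) (by norm_num) (by norm_num)
  have hy2 : sy κ t ≤ 0.203 := syR_le h 0.36 0.42 0.7666 0.203 1.22507 0.5674 0.59211 0.69081 hk1 hk2 (by linarith) (by norm_num) (by norm_num)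
    (expn_ge (by norm_num) (by norm_num)) (by norm_num) (by norm_num) (Or.inr ((mul_le_mul_of_nonneg_left (expn_le (E := 1.22508) (by norm_num) (by norm_num) (by norm_num)) (by norm_num)).trans (by norm_num))) (by norm_num) (by norm_num) (by norm_num)
  have hy1' : 0.162 ≤ sy κ t := by linarith
  have hy2' : sy κ t ≤ 0.203 := by linarith
  have hx1 : 0.2123 ≤ sx κ t := sx_lo h 0.36 0.203 0.2031 0.81627 0.2123 hk1 (by norm_num) hy2' (abs_le.2 ⟨by linarith, by linarith⟩) (ex_lm 0.203 (by norm_num) (by norm_num) (by norm_num) (by norm_num) (by norm_num)) (by norm_num) (by norm_num)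
  have hx2 : sx κ t ≤ 0.3184 := sx_hi h 0.42 0.162 0.162 0.85045 0.3184 hk2 hy1' (by norm_num) (le_trans (by linarith) (le_abs_self _)) (ex_um 0.162 (by norm_num) (by norm_num) (by norm_num) (by norm_num)) (by norm_num) (by norm_num)
  refine ⟨⟨hy1', hy2'⟩, ⟨hx1, hx2⟩, v5_n h 0.42 0.162 0.85045 0.3572 hk2 hy1' (ex_um 0.162 (by norm_num) (by norm_num) (by norm_num) (by norm_num)) (by norm_num), ?_, ?_⟩
  · exact v5_Dlo h 0.36 0.162 0.203 0.162 0.85044 1.4177 (by norm_num) hk1 hy1' hy2' (ex_lm 0.162 (by norm_num) (by norm_num) (by norm_num) (by norm_num) (by norm_num)) (by norm_num) (by norm_num) (by norm_num) (by norm_num)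
  · exact v5_Dup h 0.42 0.162 0.203 0.85045 0.81628 1.5236 hk2 hy1' hy2' (ex_um 0.162 (by norm_num) (by norm_num) (by norm_num) (by norm_num)) (ex_um 0.203 (by norm_num) (by norm_num) (by norm_num) (by norm_num)) (by norm_num) (by norm_num) (by norm_num)

private theorem B5Bw_B23 {κ t : ℝ} (h : DomR κ t) (hk1 : 0.36 ≤ κ) (hk2 : κ ≤ 0.42) (ht1 : (-0.5907) ≤ t + κ) (ht2 : t + κ ≤ (-0.49)) :
    ((-0.285) ≤ sy κ t ∧ sy κ t ≤ (-0.192)) ∧ (0.3301 ≤ sx κ t ∧ sx κ t ≤ 0.5245) ∧ κ * Real.exp (-sy κ t) ≤ 0.5586 ∧ 0.6591 ≤ sD κ t ∧ sD κ t ≤ 0.875 := by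
  have hy1 : -0.285 ≤ sy κ t := syL_ge2 h 0.36 0.42 0.5907 0.285 0.75201 0.75202 0.4961 0.51029 0.59535 hk1 hk2 (by linarith) (by norm_num) (by norm_num) (by norm_num)
    (expm_ge (by norm_num) (by norm_num) (by norm_num) (by norm_num)) (expm_le (by norm_num) (by norm_num) (by norm_num)) (by norm_num)
    (by norm_num) (by norm_num) (by norm_num) (by norm_num) (by norm_num) (by norm_num)
  have hy2 : sy κ t ≤ -0.192 := syL_le h 0.36 0.42 0.49 0.192 0.8253 0.82531 0.37727 0.44017 hk1 hk2 (by linarith) (by norm_num) (by norm_num) (by norm_num)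
    (expm_ge (by norm_num) (by norm_num) (by norm_num) (by norm_num)) (expm_le (by norm_num) (by norm_num) (by norm_num)) (by norm_num)
    (by norm_num) (by norm_num) (by norm_num) (by norm_num) (by norm_num) (by norm_num)
  have hy1' : (-0.285) ≤ sy κ t := by linarith
  have hy2' : sy κ t ≤ (-0.192) := by linarith
  have hx1 : 0.3301 ≤ sx κ t := sx_lo h 0.36 (-0.192) 0.2851 1.21167 0.3301 hk1 (by norm_num) hy2' (abs_le.2 ⟨by linarith, by linarith⟩) (ex_lp 0.192 (by norm_num) (by norm_num) (by norm_num)) (by norm_num) (by norm_num)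
  have hx2 : sx κ t ≤ 0.5245 := sx_hi h 0.42 (-0.285) 0.192 1.32977 0.5245 hk2 hy1' (by norm_num) (le_trans (by linarith) (neg_le_abs _)) (ex_up 0.285 (by norm_num) (by norm_num) (by norm_num) (by norm_num)) (by norm_num) (by norm_num)
  refine ⟨⟨hy1', hy2'⟩, ⟨hx1, hx2⟩, v5_n h 0.42 (-0.285) 1.32977 0.5586 hk2 hy1' (ex_up 0.285 (by norm_num) (by norm_num) (by norm_num) (by norm_num)) (by norm_num), ?_, ?_⟩
  · exact v5_Dlo h 0.36 (-0.285) (-0.192) (-0.285) 1.32976 0.6591 (by norm_num) hk1 hy1' hy2' (ex_lp 0.285 (by norm_num) (by norm_num) (by norm_num)) (by norm_num) (by norm_num) (by norm_num) (by norm_num)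
  · exact v5_Dup h 0.42 (-0.285) (-0.192) 1.32977 1.21168 0.875 hk2 hy1' hy2' (ex_up 0.285 (by norm_num) (by norm_num) (by norm_num) (by norm_num)) (ex_up 0.192 (by norm_num) (by norm_num) (by norm_num) (by norm_num)) (by norm_num) (by norm_num) (by norm_num)

private theorem B5Bw_T24_0_0 {β x y : ℝ} (hβ : 0 < β) (hN : β * 23.809 ≤ 1) (hx1 : 0.0922 ≤ x) (hx2 : x ≤ 0.4385)
    (hy1 : -0 ≤ y) (hy2 : y ≤ 0.22) : ‖HH β (x + y * I) - 1‖ ≤ 0.035 := by
  refine le_epsJ (C := 0.5536) (N0 := 23.809) (J_boxp 0.0922 0.4385 0 0.22 0.22 0.7749 0.4906 1.2965 1.6693 0.4543 4.8795 23.809 0.6332 2.293 1.327 1.2514 0.3874 0.3056 1.0398 3.8365 0.3773 0.6052 0.8115 2.5262 0.00009875 0.000692 0.0000003101 0.0000003101 0.000126 0.0000005525 0.0000003101 0.0000003101 0.5536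
    hβ hN hx1 hx2 hy1 hy2 (by norm_num) (by norm_num) (by linarith) (by norm_num) (by norm_num) (by norm_num) (by norm_num) (by norm_num) (by norm_num) (by norm_num) (by norm_num) (by norm_num) (by norm_num) (by norm_num) (by norm_num) (by norm_num) (by norm_num) (by norm_num) (by norm_num) (by norm_num) (by norm_num) (by norm_num) (by norm_num) (by norm_num)
    (cube_sqrt_geJ (s := 0.8882) (by norm_num) (by norm_num) (by norm_num) (by norm_num))
    (cube_sqrt_geJ (s := 0.9604) (by norm_num) (by norm_num) (by norm_num) (by norm_num))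
    (by norm_num) (by norm_num) (by norm_num) (by norm_num) (by norm_num) (by norm_num) (by norm_num) (by norm_num) (by norm_num) (by norm_num) (by norm_num) (by norm_num) (by norm_num) (by norm_num) (by norm_num) (by norm_num) (by norm_num) (by norm_num)
    (exp_neg_leJ (r := 0.223) 9 (by norm_num) (by norm_num) (by norm_num) (by norm_num))
    (exp_neg_leJ (r := 0.276) 7 (by norm_num) (by norm_num) (by norm_num) (by norm_num))
    (exp_neg_leJ (r := 0.99) 14 (by norm_num) (by norm_num) (by norm_num) (by norm_num))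
    (exp_neg_leJ (r := 0.99) 14 (by norm_num) (by norm_num) (by norm_num) (by norm_num))
    (exp_neg_leJ (r := 0.983) 8 (by norm_num) (by norm_num) (by norm_num) (by norm_num))
    (exp_neg_leJ (r := 0.409) 14 (by norm_num) (by norm_num) (by norm_num) (by norm_num))
    (exp_neg_leJ (r := 0.99) 14 (by norm_num) (by norm_num) (by norm_num) (by norm_num))
    (exp_neg_leJ (r := 0.99) 14 (by norm_num) (by norm_num) (by norm_num) (by norm_num))
    (by norm_num)) (by norm_num) hN hβ.le (by norm_num)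

private theorem B5Bw_T24_1_0 {β x y : ℝ} (hβ : 0 < β) (hN : β * 23.809 ≤ 1) (hn : ‖(x + y * I : ℂ)‖ ≤ 0.352) : ‖HH β (x + y * I) - 1‖ ≤ 0.035 := by
  refine le_epsJ (C := 0.8309) (N0 := 23.809) (J45_genN (N := 23.809) (r0 := 4.8795) (f := 2.3764) (n0 := 0.352) (a := 0.648) (wL := 1.667) (wR := 1.997)
    (E1 := 0.01313) (E2 := 0.000004356) (E3 := 0.03767) (E4 := 0.00003983) (E5 := 0.0000003101) hβ (by norm_num) hN
    (by norm_num) (by norm_num) (by norm_num) hn (by norm_num) (by norm_num) (by norm_num)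
    (cube_sqrt_geJ (s := 0.9296) (by norm_num) (by norm_num) (by norm_num) (by norm_num))
    (cube_sqrt_geJ (s := 0.9059) (by norm_num) (by norm_num) (by norm_num) (by norm_num))
    (exp_neg_leJ (r := 0.333) 4 (by norm_num) (by norm_num) (by norm_num) (by norm_num))
    (exp_neg_leJ (r := 0.344) 12 (by norm_num) (by norm_num) (by norm_num) (by norm_num))
    (exp_neg_leJ (r := 0.279) 3 (by norm_num) (by norm_num) (by norm_num) (by norm_num))
    (exp_neg_leJ (r := 0.131) 10 (by norm_num) (by norm_num) (by norm_num) (by norm_num))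
    (exp_neg_leJ (r := 0.99) 14 (by norm_num) (by norm_num) (by norm_num) (by norm_num))
    (by norm_num)) (by norm_num) hN hβ.le (by norm_num)

private theorem B5Bw_T24_1_1 {β x y : ℝ} (hβ : 0 < β) (hN : β * 23.809 ≤ 1) (hx1 : 0.139 ≤ x) (hx2 : x ≤ 0.4385)
    (hy1 : -0 ≤ y) (hy2 : y ≤ 0.3231) : ‖HH β (x + y * I) - 1‖ ≤ 0.035 := by
  refine le_epsJ (C := 0.6082) (N0 := 23.809) (J_boxp 0.139 0.4385 0 0.3231 0.3231 0.8079 0.5447 1.3939 1.6259 0.4711 4.8795 23.809 0.6743 2.438 1.353 1.2514 0.4039 0.3131 1.0558 3.8218 0.3895 0.6595 0.4629 1.9869 0.00006669 0.0005792 0.0000003101 0.0000003101 0.00009393 0.0000003101 0.00001636 0.0000003101 0.6082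
    hβ hN hx1 hx2 hy1 hy2 (by norm_num) (by norm_num) (by linarith) (by norm_num) (by norm_num) (by norm_num) (by norm_num) (by norm_num) (by norm_num) (by norm_num) (by norm_num) (by norm_num) (by norm_num) (by norm_num) (by norm_num) (by norm_num) (by norm_num) (by norm_num) (by norm_num) (by norm_num) (by norm_num) (by norm_num) (by norm_num) (by norm_num)
    (cube_sqrt_geJ (s := 0.8804) (by norm_num) (by norm_num) (by norm_num) (by norm_num))
    (cube_sqrt_geJ (s := 0.9578) (by norm_num) (by norm_num) (by norm_num) (by norm_num))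
    (by norm_num) (by norm_num) (by norm_num) (by norm_num) (by norm_num) (by norm_num) (by norm_num) (by norm_num) (by norm_num) (by norm_num) (by norm_num) (by norm_num) (by norm_num) (by norm_num) (by norm_num) (by norm_num) (by norm_num) (by norm_num)
    (exp_neg_leJ (r := 0.616) 9 (by norm_num) (by norm_num) (by norm_num) (by norm_num))
    (exp_neg_leJ (r := 0.454) 7 (by norm_num) (by norm_num) (by norm_num) (by norm_num))
    (exp_neg_leJ (r := 0.99) 14 (by norm_num) (by norm_num) (by norm_num) (by norm_num))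
    (exp_neg_leJ (r := 0.99) 14 (by norm_num) (by norm_num) (by norm_num) (by norm_num))
    (exp_neg_leJ (r := 0.273) 9 (by norm_num) (by norm_num) (by norm_num) (by norm_num))
    (exp_neg_leJ (r := 0.99) 14 (by norm_num) (by norm_num) (by norm_num) (by norm_num))
    (exp_neg_leJ (r := 0.021) 11 (by norm_num) (by norm_num) (by norm_num) (by norm_num))
    (exp_neg_leJ (r := 0.99) 14 (by norm_num) (by norm_num) (by norm_num) (by norm_num))
    (by norm_num)) (by norm_num) hN hβ.le (by norm_num)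

private theorem B5Bw_T24 {β x y : ℝ} (hβ : 0 < β) (hN : β * 23.809 ≤ 1) (hx1 : 0.0922 ≤ x) (hx2 : x ≤ 0.4385)
    (hy1 : 0.0419 ≤ y) (hy2 : y ≤ 0.3231) : ‖HH β (x + y * I) - 1‖ ≤ 0.035 := by
  rcases le_total y 0.22 with hyy | hyy
  · exact B5Bw_T24_0_0 hβ hN (by linarith) (by linarith) (by linarith) (by linarith)
  rcases le_total x 0.139 with hxx | hxx
  · exact B5Bw_T24_1_0 hβ hN (norm_box5 0.139 0.3231 0.352 (by linarith) (by linarith) (by linarith) (by linarith) (by norm_num) (by norm_num))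
  exact B5Bw_T24_1_1 hβ hN (by linarith) (by linarith) (by linarith) (by linarith)

private theorem B5Bw_T25_0_0 {β x y : ℝ} (hβ : 0 < β) (hN : β * 23.809 ≤ 1) (hx1 : 0.25 ≤ x) (hx2 : x ≤ 0.264)
    (hy1 : -0.3651 ≤ y) (hy2 : y ≤ -0.1119) : ‖HH β (x + y * I) - 1‖ ≤ 0.04 := by
  refine le_epsJ (C := 0.9512) (N0 := 23.809) (J_boxp 0.25 0.264 0.3651 0 (-0.1119) 0.6268 0.4506 0.9266 1.9398 0.3841 4.8795 23.809 0.7189 2.609 1.381 0.9815 0.3133 0.2382 0.5175 2.7551 0.277 0.8461 1.0782 3.9872 0.0005764 0.003447 0.000004458 0.0000003101 0.001368 0.0000003101 0.0000003101 0.0000003101 0.9512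
    hβ hN hx1 hx2 hy1 hy2 (by norm_num) (by norm_num) (by linarith) (by norm_num) (by norm_num) (by norm_num) (by norm_num) (by norm_num) (by norm_num) (by norm_num) (by norm_num) (by norm_num) (by norm_num) (by norm_num) (by norm_num) (by norm_num) (by norm_num) (by norm_num) (by norm_num) (by norm_num) (by norm_num) (by norm_num) (by norm_num) (by norm_num)
    (cube_sqrt_geJ (s := 0.8719) (by norm_num) (by norm_num) (by norm_num) (by norm_num))
    (cube_sqrt_geJ (s := 0.9549) (by norm_num) (by norm_num) (by norm_num) (by norm_num))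
    (by norm_num) (by norm_num) (by norm_num) (by norm_num) (by norm_num) (by norm_num) (by norm_num) (by norm_num) (by norm_num) (by norm_num) (by norm_num) (by norm_num) (by norm_num) (by norm_num) (by norm_num) (by norm_num) (by norm_num) (by norm_num)
    (exp_neg_leJ (r := 0.459) 7 (by norm_num) (by norm_num) (by norm_num) (by norm_num))
    (exp_neg_leJ (r := 0.671) 5 (by norm_num) (by norm_num) (by norm_num) (by norm_num))
    (exp_neg_leJ (r := 0.321) 12 (by norm_num) (by norm_num) (by norm_num) (by norm_num))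
    (exp_neg_leJ (r := 0.99) 14 (by norm_num) (by norm_num) (by norm_num) (by norm_num))
    (exp_neg_leJ (r := 0.595) 6 (by norm_num) (by norm_num) (by norm_num) (by norm_num))
    (exp_neg_leJ (r := 0.99) 14 (by norm_num) (by norm_num) (by norm_num) (by norm_num))
    (exp_neg_leJ (r := 0.99) 14 (by norm_num) (by norm_num) (by norm_num) (by norm_num))
    (exp_neg_leJ (r := 0.99) 14 (by norm_num) (by norm_num) (by norm_num) (by norm_num))
    (by norm_num)) (by norm_num) hN hβ.le (by norm_num)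

private theorem B5Bw_T25_0_1 {β x y : ℝ} (hβ : 0 < β) (hN : β * 23.809 ≤ 1) (hx1 : 0.264 ≤ x) (hx2 : x ≤ 0.288)
    (hy1 : -0.3651 ≤ y) (hy2 : y ≤ -0.1119) : ‖HH β (x + y * I) - 1‖ ≤ 0.04 := by
  refine le_epsJ (C := 0.9522) (N0 := 23.809) (J_boxp 0.264 0.288 0.3651 0 (-0.1119) 0.6367 0.4651 0.9337 1.902 0.3855 4.8795 23.809 0.7305 2.656 1.389 0.9723 0.3183 0.2408 0.5223 2.7438 0.2838 0.8655 1.1062 3.9758 0.0005118 0.003241 0.000003978 0.0000003101 0.001166 0.0000003101 0.0000003101 0.0000003101 0.9522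
    hβ hN hx1 hx2 hy1 hy2 (by norm_num) (by norm_num) (by linarith) (by norm_num) (by norm_num) (by norm_num) (by norm_num) (by norm_num) (by norm_num) (by norm_num) (by norm_num) (by norm_num) (by norm_num) (by norm_num) (by norm_num) (by norm_num) (by norm_num) (by norm_num) (by norm_num) (by norm_num) (by norm_num) (by norm_num) (by norm_num) (by norm_num)
    (cube_sqrt_geJ (s := 0.8697) (by norm_num) (by norm_num) (by norm_num) (by norm_num))
    (cube_sqrt_geJ (s := 0.9542) (by norm_num) (by norm_num) (by norm_num) (by norm_num))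
    (by norm_num) (by norm_num) (by norm_num) (by norm_num) (by norm_num) (by norm_num) (by norm_num) (by norm_num) (by norm_num) (by norm_num) (by norm_num) (by norm_num) (by norm_num) (by norm_num) (by norm_num) (by norm_num) (by norm_num) (by norm_num)
    (exp_neg_leJ (r := 0.578) 7 (by norm_num) (by norm_num) (by norm_num) (by norm_num))
    (exp_neg_leJ (r := 0.733) 5 (by norm_num) (by norm_num) (by norm_num) (by norm_num))
    (exp_neg_leJ (r := 0.435) 12 (by norm_num) (by norm_num) (by norm_num) (by norm_num))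
    (exp_neg_leJ (r := 0.99) 14 (by norm_num) (by norm_num) (by norm_num) (by norm_num))
    (exp_neg_leJ (r := 0.756) 6 (by norm_num) (by norm_num) (by norm_num) (by norm_num))
    (exp_neg_leJ (r := 0.99) 14 (by norm_num) (by norm_num) (by norm_num) (by norm_num))
    (exp_neg_leJ (r := 0.99) 14 (by norm_num) (by norm_num) (by norm_num) (by norm_num))
    (exp_neg_leJ (r := 0.99) 14 (by norm_num) (by norm_num) (by norm_num) (by norm_num))
    (by norm_num)) (by norm_num) hN hβ.le (by norm_num)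

private theorem B5Bw_T25_0_2 {β x y : ℝ} (hβ : 0 < β) (hN : β * 23.809 ≤ 1) (hx1 : 0.288 ≤ x) (hx2 : x ≤ 0.325)
    (hy1 : -0.3651 ≤ y) (hy2 : y ≤ -0.1119) : ‖HH β (x + y * I) - 1‖ ≤ 0.04 := by
  refine le_epsJ (C := 0.9506) (N0 := 23.809) (J_boxp 0.288 0.325 0.3651 0 (-0.1119) 0.6536 0.4888 0.9457 1.8404 0.388 4.8795 23.809 0.7479 2.729 1.4 0.9581 0.3267 0.2453 0.5305 2.726 0.2954 0.8987 1.1542 3.9593 0.0004194 0.002914 0.000003274 0.0000003101 0.0008823 0.0000003101 0.0000003101 0.0000003101 0.9506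
    hβ hN hx1 hx2 hy1 hy2 (by norm_num) (by norm_num) (by linarith) (by norm_num) (by norm_num) (by norm_num) (by norm_num) (by norm_num) (by norm_num) (by norm_num) (by norm_num) (by norm_num) (by norm_num) (by norm_num) (by norm_num) (by norm_num) (by norm_num) (by norm_num) (by norm_num) (by norm_num) (by norm_num) (by norm_num) (by norm_num) (by norm_num)
    (cube_sqrt_geJ (s := 0.8664) (by norm_num) (by norm_num) (by norm_num) (by norm_num))
    (cube_sqrt_geJ (s := 0.9531) (by norm_num) (by norm_num) (by norm_num) (by norm_num))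
    (by norm_num) (by norm_num) (by norm_num) (by norm_num) (by norm_num) (by norm_num) (by norm_num) (by norm_num) (by norm_num) (by norm_num) (by norm_num) (by norm_num) (by norm_num) (by norm_num) (by norm_num) (by norm_num) (by norm_num) (by norm_num)
    (exp_neg_leJ (r := 0.778) 7 (by norm_num) (by norm_num) (by norm_num) (by norm_num))
    (exp_neg_leJ (r := 0.84) 5 (by norm_num) (by norm_num) (by norm_num) (by norm_num))
    (exp_neg_leJ (r := 0.63) 12 (by norm_num) (by norm_num) (by norm_num) (by norm_num))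
    (exp_neg_leJ (r := 0.99) 14 (by norm_num) (by norm_num) (by norm_num) (by norm_num))
    (exp_neg_leJ (r := 0.033) 7 (by norm_num) (by norm_num) (by norm_num) (by norm_num))
    (exp_neg_leJ (r := 0.99) 14 (by norm_num) (by norm_num) (by norm_num) (by norm_num))
    (exp_neg_leJ (r := 0.99) 14 (by norm_num) (by norm_num) (by norm_num) (by norm_num))
    (exp_neg_leJ (r := 0.99) 14 (by norm_num) (by norm_num) (by norm_num) (by norm_num))
    (by norm_num)) (by norm_num) hN hβ.le (by norm_num)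

private theorem B5Bw_T25_0_3 {β x y : ℝ} (hβ : 0 < β) (hN : β * 23.809 ≤ 1) (hx1 : 0.325 ≤ x) (hx2 : x ≤ 0.377)
    (hy1 : -0.3651 ≤ y) (hy2 : y ≤ -0.1119) : ‖HH β (x + y * I) - 1‖ ≤ 0.04 := by
  refine le_epsJ (C := 0.9493) (N0 := 23.809) (J_boxp 0.325 0.377 0.3651 0 (-0.1119) 0.6796 0.5249 0.9649 1.7534 0.3919 4.8795 23.809 0.7724 2.835 1.416 0.9381 0.3397 0.2523 0.5432 2.7003 0.3134 0.9499 1.2282 3.9352 0.0003076 0.002462 0.000002424 0.0000003101 0.0005752 0.0000003101 0.0000003101 0.0000003101 0.9493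
    hβ hN hx1 hx2 hy1 hy2 (by norm_num) (by norm_num) (by linarith) (by norm_num) (by norm_num) (by norm_num) (by norm_num) (by norm_num) (by norm_num) (by norm_num) (by norm_num) (by norm_num) (by norm_num) (by norm_num) (by norm_num) (by norm_num) (by norm_num) (by norm_num) (by norm_num) (by norm_num) (by norm_num) (by norm_num) (by norm_num) (by norm_num)
    (cube_sqrt_geJ (s := 0.8617) (by norm_num) (by norm_num) (by norm_num) (by norm_num))
    (cube_sqrt_geJ (s := 0.9515) (by norm_num) (by norm_num) (by norm_num) (by norm_num))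
    (by norm_num) (by norm_num) (by norm_num) (by norm_num) (by norm_num) (by norm_num) (by norm_num) (by norm_num) (by norm_num) (by norm_num) (by norm_num) (by norm_num) (by norm_num) (by norm_num) (by norm_num) (by norm_num) (by norm_num) (by norm_num)
    (exp_neg_leJ (r := 0.087) 8 (by norm_num) (by norm_num) (by norm_num) (by norm_num))
    (exp_neg_leJ (r := 0.007) 6 (by norm_num) (by norm_num) (by norm_num) (by norm_num))
    (exp_neg_leJ (r := 0.933) 12 (by norm_num) (by norm_num) (by norm_num) (by norm_num))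
    (exp_neg_leJ (r := 0.99) 14 (by norm_num) (by norm_num) (by norm_num) (by norm_num))
    (exp_neg_leJ (r := 0.461) 7 (by norm_num) (by norm_num) (by norm_num) (by norm_num))
    (exp_neg_leJ (r := 0.99) 14 (by norm_num) (by norm_num) (by norm_num) (by norm_num))
    (exp_neg_leJ (r := 0.99) 14 (by norm_num) (by norm_num) (by norm_num) (by norm_num))
    (exp_neg_leJ (r := 0.99) 14 (by norm_num) (by norm_num) (by norm_num) (by norm_num))
    (by norm_num)) (by norm_num) hN hβ.le (by norm_num)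

private theorem B5Bw_T25_0_4 {β x y : ℝ} (hβ : 0 < β) (hN : β * 23.809 ≤ 1) (hx1 : 0.377 ≤ x) (hx2 : x ≤ 0.445)
    (hy1 : -0.3651 ≤ y) (hy2 : y ≤ -0.1119) : ‖HH β (x + y * I) - 1‖ ≤ 0.04 := by
  refine le_epsJ (C := 0.9521) (N0 := 23.809) (J_boxp 0.377 0.445 0.3651 0 (-0.1119) 0.7162 0.5757 0.9934 1.6445 0.3977 4.8795 23.809 0.8039 2.98 1.438 0.9119 0.358 0.2621 0.561 2.6656 0.3386 1.0219 1.3322 3.9011 0.0001989 0.00195 0.000001584 0.0000003101 0.0003157 0.0000003101 0.0000003101 0.0000003101 0.9521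
    hβ hN hx1 hx2 hy1 hy2 (by norm_num) (by norm_num) (by linarith) (by norm_num) (by norm_num) (by norm_num) (by norm_num) (by norm_num) (by norm_num) (by norm_num) (by norm_num) (by norm_num) (by norm_num) (by norm_num) (by norm_num) (by norm_num) (by norm_num) (by norm_num) (by norm_num) (by norm_num) (by norm_num) (by norm_num) (by norm_num) (by norm_num)
    (cube_sqrt_geJ (s := 0.8555) (by norm_num) (by norm_num) (by norm_num) (by norm_num))
    (cube_sqrt_geJ (s := 0.9495) (by norm_num) (by norm_num) (by norm_num) (by norm_num))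
    (by norm_num) (by norm_num) (by norm_num) (by norm_num) (by norm_num) (by norm_num) (by norm_num) (by norm_num) (by norm_num) (by norm_num) (by norm_num) (by norm_num) (by norm_num) (by norm_num) (by norm_num) (by norm_num) (by norm_num) (by norm_num)
    (exp_neg_leJ (r := 0.523) 8 (by norm_num) (by norm_num) (by norm_num) (by norm_num))
    (exp_neg_leJ (r := 0.24) 6 (by norm_num) (by norm_num) (by norm_num) (by norm_num))
    (exp_neg_leJ (r := 0.356) 13 (by norm_num) (by norm_num) (by norm_num) (by norm_num))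
    (exp_neg_leJ (r := 0.99) 14 (by norm_num) (by norm_num) (by norm_num) (by norm_num))
    (exp_neg_leJ (r := 0.061) 8 (by norm_num) (by norm_num) (by norm_num) (by norm_num))
    (exp_neg_leJ (r := 0.99) 14 (by norm_num) (by norm_num) (by norm_num) (by norm_num))
    (exp_neg_leJ (r := 0.99) 14 (by norm_num) (by norm_num) (by norm_num) (by norm_num))
    (exp_neg_leJ (r := 0.99) 14 (by norm_num) (by norm_num) (by norm_num) (by norm_num))
    (by norm_num)) (by norm_num) hN hβ.le (by norm_num)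

private theorem B5Bw_T25_0_5 {β x y : ℝ} (hβ : 0 < β) (hN : β * 23.809 ≤ 1) (hx1 : 0.445 ≤ x) (hx2 : x ≤ 0.526)
    (hy1 : -0.3651 ≤ y) (hy2 : y ≤ -0.1119) : ‖HH β (x + y * I) - 1‖ ≤ 0.04 := by
  refine le_epsJ (C := 0.9506) (N0 := 23.809) (J_boxp 0.445 0.526 0.3651 0 (-0.1119) 0.7641 0.6403 1.0322 1.5211 0.4054 4.8795 23.809 0.838 3.148 1.461 0.8807 0.382 0.2753 0.5843 2.6232 0.3717 1.1161 1.4682 3.8615 0.0001123 0.001425 0.0000009112 0.0000003101 0.0001438 0.0000003101 0.0000003101 0.0000003101 0.9506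
    hβ hN hx1 hx2 hy1 hy2 (by norm_num) (by norm_num) (by linarith) (by norm_num) (by norm_num) (by norm_num) (by norm_num) (by norm_num) (by norm_num) (by norm_num) (by norm_num) (by norm_num) (by norm_num) (by norm_num) (by norm_num) (by norm_num) (by norm_num) (by norm_num) (by norm_num) (by norm_num) (by norm_num) (by norm_num) (by norm_num) (by norm_num)
    (cube_sqrt_geJ (s := 0.8489) (by norm_num) (by norm_num) (by norm_num) (by norm_num))
    (cube_sqrt_geJ (s := 0.9473) (by norm_num) (by norm_num) (by norm_num) (by norm_num))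
    (by norm_num) (by norm_num) (by norm_num) (by norm_num) (by norm_num) (by norm_num) (by norm_num) (by norm_num) (by norm_num) (by norm_num) (by norm_num) (by norm_num) (by norm_num) (by norm_num) (by norm_num) (by norm_num) (by norm_num) (by norm_num)
    (exp_neg_leJ (r := 0.095) 9 (by norm_num) (by norm_num) (by norm_num) (by norm_num))
    (exp_neg_leJ (r := 0.554) 6 (by norm_num) (by norm_num) (by norm_num) (by norm_num))
    (exp_neg_leJ (r := 0.911) 13 (by norm_num) (by norm_num) (by norm_num) (by norm_num))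
    (exp_neg_leJ (r := 0.99) 14 (by norm_num) (by norm_num) (by norm_num) (by norm_num))
    (exp_neg_leJ (r := 0.849) 8 (by norm_num) (by norm_num) (by norm_num) (by norm_num))
    (exp_neg_leJ (r := 0.99) 14 (by norm_num) (by norm_num) (by norm_num) (by norm_num))
    (exp_neg_leJ (r := 0.99) 14 (by norm_num) (by norm_num) (by norm_num) (by norm_num))
    (exp_neg_leJ (r := 0.99) 14 (by norm_num) (by norm_num) (by norm_num) (by norm_num))
    (by norm_num)) (by norm_num) hN hβ.le (by norm_num)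

private theorem B5Bw_T25_0_6 {β x y : ℝ} (hβ : 0 < β) (hN : β * 23.809 ≤ 1) (hx1 : 0.526 ≤ x) (hx2 : x ≤ 0.6046)
    (hy1 : -0.3651 ≤ y) (hy2 : y ≤ -0.1119) : ‖HH β (x + y * I) - 1‖ ≤ 0.04 := by
  refine le_epsJ (C := 0.9121) (N0 := 23.809) (J_boxp 0.526 0.6046 0.3651 0 (-0.1119) 0.8211 0.7063 1.0744 1.3932 0.4136 4.8795 23.809 0.8602 3.264 1.477 0.8505 0.4105 0.2928 0.612 2.5812 0.411 1.2283 1.6302 3.8441 0.00005704 0.0009418 0.00000047 0.0000003101 0.00005637 0.0000003101 0.0000003101 0.0000003101 0.9121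
    hβ hN hx1 hx2 hy1 hy2 (by norm_num) (by norm_num) (by linarith) (by norm_num) (by norm_num) (by norm_num) (by norm_num) (by norm_num) (by norm_num) (by norm_num) (by norm_num) (by norm_num) (by norm_num) (by norm_num) (by norm_num) (by norm_num) (by norm_num) (by norm_num) (by norm_num) (by norm_num) (by norm_num) (by norm_num) (by norm_num) (by norm_num)
    (cube_sqrt_geJ (s := 0.8445) (by norm_num) (by norm_num) (by norm_num) (by norm_num))
    (cube_sqrt_geJ (s := 0.9458) (by norm_num) (by norm_num) (by norm_num) (by norm_num))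
    (by norm_num) (by norm_num) (by norm_num) (by norm_num) (by norm_num) (by norm_num) (by norm_num) (by norm_num) (by norm_num) (by norm_num) (by norm_num) (by norm_num) (by norm_num) (by norm_num) (by norm_num) (by norm_num) (by norm_num) (by norm_num)
    (exp_neg_leJ (r := 0.773) 9 (by norm_num) (by norm_num) (by norm_num) (by norm_num))
    (exp_neg_leJ (r := 0.971) 6 (by norm_num) (by norm_num) (by norm_num) (by norm_num))
    (exp_neg_leJ (r := 0.571) 14 (by norm_num) (by norm_num) (by norm_num) (by norm_num))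
    (exp_neg_leJ (r := 0.99) 14 (by norm_num) (by norm_num) (by norm_num) (by norm_num))
    (exp_neg_leJ (r := 0.785) 9 (by norm_num) (by norm_num) (by norm_num) (by norm_num))
    (exp_neg_leJ (r := 0.99) 14 (by norm_num) (by norm_num) (by norm_num) (by norm_num))
    (exp_neg_leJ (r := 0.99) 14 (by norm_num) (by norm_num) (by norm_num) (by norm_num))
    (exp_neg_leJ (r := 0.99) 14 (by norm_num) (by norm_num) (by norm_num) (by norm_num))
    (by norm_num)) (by norm_num) hN hβ.le (by norm_num)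

private theorem B5Bw_T25 {β x y : ℝ} (hβ : 0 < β) (hN : β * 23.809 ≤ 1) (hx1 : 0.25 ≤ x) (hx2 : x ≤ 0.6046)
    (hy1 : (-0.3651) ≤ y) (hy2 : y ≤ (-0.1119)) : ‖HH β (x + y * I) - 1‖ ≤ 0.04 := by
  rcases le_total x 0.264 with hxx | hxx
  · exact B5Bw_T25_0_0 hβ hN (by linarith) (by linarith) (by linarith) (by linarith)
  rcases le_total x 0.288 with hxx | hxx
  · exact B5Bw_T25_0_1 hβ hN (by linarith) (by linarith) (by linarith) (by linarith)
  rcases le_total x 0.325 with hxx | hxx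
  · exact B5Bw_T25_0_2 hβ hN (by linarith) (by linarith) (by linarith) (by linarith)
  rcases le_total x 0.377 with hxx | hxx
  · exact B5Bw_T25_0_3 hβ hN (by linarith) (by linarith) (by linarith) (by linarith)
  rcases le_total x 0.445 with hxx | hxx
  · exact B5Bw_T25_0_4 hβ hN (by linarith) (by linarith) (by linarith) (by linarith)
  rcases le_total x 0.526 with hxx | hxx
  · exact B5Bw_T25_0_5 hβ hN (by linarith) (by linarith) (by linarith) (by linarith)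
  exact B5Bw_T25_0_6 hβ hN (by linarith) (by linarith) (by linarith) (by linarith)

private theorem B5Bw_C26 {β r t κ : ℝ} (hβ : 0 < β) (hr : 10 ≤ r) (hκ : κ = β * r) (hk1 : 0.36 ≤ κ) (hk2 : κ ≤ 0.42) (hta : 1.9226 ≤ t + κ)
    (htb : t + κ ≤ 2.0653) : ‖F (cexp (I * β)) (r * cexp (I * ((t + β / 2 : ℝ) : ℂ)))‖ ≤
      4.8713 * Real.exp (r * (0.1 + 1 / 20)) :=
  v5_UD 0.36 0.42 1.9226 2.0653 0.1 0.665 0.1 2.5396 4.8713 hβ hr hκ (by norm_num) hk1 hk2 hta htb (by norm_num) (by norm_num) (by norm_num) (by norm_num) (by norm_num) (by norm_num) (by norm_num) (by norm_num) (by norm_num) (by norm_num) (by norm_num)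

private theorem B5Bw_C27 {β r t κ : ℝ} (hβ : 0 < β) (hr : 10 ≤ r) (hκ : κ = β * r) (hk1 : 0.36 ≤ κ) (hk2 : κ ≤ 0.42) (hta : (-1.8473) ≤ t + κ)
    (htb : t + κ ≤ (-1.7046)) : ‖F (cexp (I * β)) (r * cexp (I * ((t + β / 2 : ℝ) : ℂ)))‖ ≤
      1.9656 * Real.exp (r * (1.24184 - (-0.71) * (t + κ))) + 2.1717 * Real.exp (r * 0.0501) :=
  v5_HU (-0.71) 0.36 0.42 (-1.8473) (-1.7046) 1.24184 1.9656 1.66727 0.0818 1.2754 2.4446 0 0.0501 0.00000189 2.1717 hβ hr hκ (by norm_num) hk1 hk2 hta htb (by norm_num) (by norm_num) (B5Bw_G6 hk1 hk2).1 (B5Bw_G6 hk1 hk2).2 (by norm_num) (by norm_num) (by norm_num)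
    (by norm_num) (by norm_num) (by norm_num) (by norm_num) (by norm_num) (by norm_num) (by norm_num)
    (by norm_num) (by norm_num) (by norm_num) (v5_hump 6.6949 23.809 4.8795 0.0000009316 0.00000189 hβ hr hκ hk1 hk2 (by norm_num) htb (by norm_num) (by norm_num) (by norm_num) (by norm_num) (by norm_num) (by norm_num) (by norm_num) (ex_un 13 0.9 (by norm_num) (by norm_num) (by norm_num) (by norm_num)) (by norm_num)) (by norm_num)

private theorem B5Bw_C28 {β r t κ : ℝ} (hβ : 0 < β) (hr : 10 ≤ r) (hκ : κ = β * r) (hk1 : 0.36 ≤ κ) (hk2 : κ ≤ 0.42) (hta : 3.1792 ≤ t + κ)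
    (htb : t + κ ≤ 3.3219) : ‖F (cexp (I * β)) (r * cexp (I * ((t + β / 2 : ℝ) : ℂ)))‖ ≤
      3.1166 * Real.exp (r * (0.01 + 1 / 20)) :=
  v5_UD 0.36 0.42 3.1792 3.3219 0.01 0.665 0.01 1.6248 3.1166 hβ hr hκ (by norm_num) hk1 hk2 hta htb (by norm_num) (by norm_num) (by norm_num) (by norm_num) (by norm_num) (by norm_num) (by norm_num) (by norm_num) (by norm_num) (by norm_num) (by norm_num)

private theorem B5Bw_Y29 {β r t κ h t' : ℝ} (hβ : 0 < β) (hκ : κ = β * r) (hN : β * 23.809 ≤ 1) (hk1 : 0.36 ≤ κ) (hk2 : κ ≤ 0.42)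
    (ht : t' = t + (((1 : ℤ) : ℝ) - 1) * h) (hD : DomR κ t') (hta : 0.666 ≤ t' + κ) (htb : t' + κ ≤ 0.7666) :
    0.8685 * Real.exp (r * sE κ t') ≤ ‖Xf β r h t 1‖ := by
  obtain ⟨⟨ya, yb⟩, ⟨xa, xb⟩, n1, Da, Db⟩ := B5Bw_B22 hD hk1 hk2 hta htb
  have J := B5Bw_T24 (x := sx κ t') (y := sy κ t') hβ hN (by linarith only [xa, xb, ya, yb]) (by linarith only [xa, xb, ya, yb]) (by linarith only [xa, xb, ya, yb]) (by linarith only [xa, xb, ya, yb])
  exact v5_Jlo hβ hκ (k := 1) ht hD 0.035 1.5236 0.8685 (by norm_num) J Db (by norm_num)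

private theorem B5Bw_Y30 {β r t κ h t' : ℝ} (hβ : 0 < β) (hκ : κ = β * r) (hN : β * 23.809 ≤ 1) (hk1 : 0.36 ≤ κ) (hk2 : κ ≤ 0.42)
    (ht : t' = t + (((0 : ℤ) : ℝ) - 1) * h) (hD : DomR κ t') (hta : (-0.5907) ≤ t' + κ) (htb : t' + κ ≤ (-0.49)) :
    0.9925 * Real.exp (r * sE κ t') ≤ ‖Xf β r h t 0‖ := by
  obtain ⟨⟨ya, yb⟩, ⟨xa, xb⟩, n1, Da, Db⟩ := B5Bw_B23 hD hk1 hk2 hta htb
  have J := B5Bw_T25 (x := sx κ t') (y := sy κ t') hβ hN (by linarith only [xa, xb, ya, yb]) (by linarith only [xa, xb, ya, yb]) (by linarith only [xa, xb, ya, yb]) (by linarith only [xa, xb, ya, yb])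
  exact v5_Jlo hβ hκ (k := 0) ht hD 0.04 0.875 0.9925 (by norm_num) J Db (by norm_num)

private theorem B5Bw_V31 {κ t : ℝ} (hD : DomR κ t) (hk1 : 0.36 ≤ κ) (hk2 : κ ≤ 0.42) (hta : 0.666 ≤ t + κ) (htb : t + κ ≤ 0.7666) :
    1.1948 - 0.5684 * (t + κ) ≤ sE κ t := by
  have hκ0 : 0 < κ := hD.1
  exact v5_V1 hD 0.36 0.42 0.666 0.7666 0.04812 0.17498 0.17222 1.1948 0.5684 (by norm_num) hk1 hk2 (by norm_num) (by norm_num) hta htb (by norm_num) (clo5 0.36 0.42 0.17222 (by norm_num) hk1 hk2 (by norm_num) (by norm_num) (by norm_num))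
      ((cup1 0.42 hκ0.le hk2 (by norm_num)).trans (by norm_num)) (by norm_num) (by norm_num) (by norm_num) (by norm_num) (by norm_num) (by norm_num)

private theorem B5Bw_V32 {κ t : ℝ} (hD : DomR κ t) (hk1 : 0.36 ≤ κ) (hk2 : κ ≤ 0.42) (hta : (-0.5907) ≤ t + κ) (htb : t + κ ≤ (-0.49)) :
    1.15913 + 0.5942 * (t + κ) ≤ sE κ t := by
  have hκ0 : 0 < κ := hD.1
  exact v5_V0 hD 0.36 0.42 (-0.5907) (-0.49) 0.5908 0.6211 0.15491 0.02159 0.69379 0.37182 1.15913 0.5942 (by norm_num) hk1 hk2 (by norm_num) hta htb (by norm_num) (by norm_num) (by norm_num) ((cup1 0.42 hκ0.le hk2 (by norm_num)).trans (by norm_num))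
      (by norm_num) (by norm_num) (by norm_num) (by norm_num) (by norm_num) (by norm_num) (by norm_num) (by norm_num) (by norm_num) (by norm_num) (by norm_num) (by norm_num) (by norm_num)

private theorem B5Bw_S33 {β r t κ h t' : ℝ} (hβ : 0 < β) (hκ : κ = β * r) (hN : β * 23.809 ≤ 1) (hk1 : 0.36 ≤ κ) (hk2 : κ ≤ 0.42)
    (ht : t' = t + (((1 : ℤ) : ℝ) - 1) * h) (hD : DomR κ t') (hta : 0.666 ≤ t' + κ) (htb : t' + κ ≤ 0.7666) :
    Xf β r h t 1 ≠ 0 ∧ |(Ld β r h t 1).im - (sy κ t' / β + sx κ t' / sD κ t' * ((1 + sy κ t') / sD κ t' - 1 / 2))| ≤ 0.0907 ∧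
      ‖Ld β r h t 1 - sg κ t' / β‖ ≤ 0.2167 ∧ -0.0001 ≤ sx κ t' / sD κ t' * ((1 + sy κ t') / sD κ t' - 1 / 2) ∧
      (0.162 ≤ sy κ t' ∧ sy κ t' ≤ 0.203) ∧ (0.2123 ≤ sx κ t' ∧ sx κ t' ≤ 0.3184) := by
  obtain ⟨⟨y1, y2⟩, ⟨x1, x2⟩, n1, Da, Db⟩ := B5Bw_B22 hD hk1 hk2 hta htb
  have hd := v5_disc (β := β) (κ := κ) (t := t') (ε := 0.035) 0.12 0.0922 0.4385 0.0419 0.3231 0.2123 0.3184 0.162 0.203
    (fun x y g1 g2 g3 g4 => B5Bw_T24 hβ hN g1 g2 g3 g4) x1 x2 y1 y2 (by norm_num) (by norm_num) (by norm_num) (by norm_num)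
  obtain ⟨nz, im, nL⟩ := v5_slope (h := h) (t := t) (k := 1) 0.12 0.035 0.3572 1.4177 0.3023 0.0907 hβ hκ ht hD (by norm_num) (by norm_num) (by linarith only [y1]) hd n1 (by norm_num) Da (by norm_num) (by norm_num) (by norm_num) (by norm_num)
  have ex := ex_lo hD 0.3572 1.4177 1.5236 0.162 0 0.0001 n1 (by norm_num) Da Db y1 (by norm_num) (by norm_num) (by norm_num) (by norm_num)
  exact ⟨nz, im, nL.trans (by norm_num), ex, ⟨y1, y2⟩, x1, x2⟩

private theorem B5Bw_S34 {β r t κ h t' : ℝ} (hβ : 0 < β) (hκ : κ = β * r) (hN : β * 23.809 ≤ 1) (hk1 : 0.36 ≤ κ) (hk2 : κ ≤ 0.42)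
    (ht : t' = t + (((0 : ℤ) : ℝ) - 1) * h) (hD : DomR κ t') (hta : (-0.5907) ≤ t' + κ) (htb : t' + κ ≤ (-0.49)) :
    Xf β r h t 0 ≠ 0 ∧ |(Ld β r h t 0).im - (sy κ t' / β + sx κ t' / sD κ t' * ((1 + sy κ t') / sD κ t' - 1 / 2))| ≤ 0.3585 ∧
      ‖Ld β r h t 0 - sg κ t' / β‖ ≤ 0.7823 ∧ sx κ t' / sD κ t' * ((1 + sy κ t') / sD κ t' - 1 / 2) ≤ 0.6153 ∧
      ((-0.285) ≤ sy κ t' ∧ sy κ t' ≤ (-0.192)) ∧ (0.3301 ≤ sx κ t' ∧ sx κ t' ≤ 0.5245) := by
  obtain ⟨⟨y1, y2⟩, ⟨x1, x2⟩, n1, Da, Db⟩ := B5Bw_B23 hD hk1 hk2 hta htb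
  have hd := v5_disc (β := β) (κ := κ) (t := t') (ε := 0.04) 0.08 0.25 0.6046 (-0.3651) (-0.1119) 0.3301 0.5245 (-0.285) (-0.192)
    (fun x y g1 g2 g3 g4 => B5Bw_T25 hβ hN g1 g2 g3 g4) x1 x2 y1 y2 (by norm_num) (by norm_num) (by norm_num) (by norm_num)
  obtain ⟨nz, im, nL⟩ := v5_slope (h := h) (t := t) (k := 0) 0.08 0.04 0.5586 0.6591 0.5209 0.3585 hβ hκ ht hD (by norm_num) (by norm_num) (by linarith only [y1]) hd n1 (by norm_num) Da (by norm_num) (by norm_num) (by norm_num) (by norm_num)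
  have ex := ex_hi hD 0.5586 0.6591 (-0.192) 0.726 0.6153 n1 (by norm_num) Da y2 (by norm_num) (by norm_num) (by norm_num) (by norm_num)
  exact ⟨nz, im, nL.trans (by norm_num), ex, ⟨y1, y2⟩, x1, x2⟩

private theorem B5Bw_L35 {β r κ t1 t0 : ℝ} {L0 L1 : ℂ} (hβ : 0 < β) (hr : 10 ≤ r) (hκ : κ = β * r) (hk1 : 0.36 ≤ κ)
    (nA0 : ‖L0 - sg κ t0 / β‖ ≤ 0.7823) (nA1 : ‖L1 - sg κ t1 / β‖ ≤ 0.2167)
    (y0 : (-0.285) ≤ sy κ t0 ∧ sy κ t0 ≤ (-0.192)) (x0 : 0.3301 ≤ sx κ t0 ∧ sx κ t0 ≤ 0.5245)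
    (y1 : 0.162 ≤ sy κ t1 ∧ sy κ t1 ≤ 0.203) (x1 : 0.2123 ≤ sx κ t1 ∧ sx κ t1 ≤ 0.3184) :
    ‖(1 : ℂ) * L0 + (-2 : ℂ) * L1‖ ≤ r * 2.2222 := by
  obtain ⟨y0a, y0b⟩ := y0
  obtain ⟨x0a, x0b⟩ := x0
  obtain ⟨y1a, y1b⟩ := y1
  obtain ⟨x1a, x1b⟩ := x1
  have hN := v5_cN (κ := κ) (t1 := t1) (t0 := t0) 1 (-2) 0.3068 0.6911 0.7562 (abs_le.2 ⟨by linarith only [x0a, x0b, x1a, x1b], by linarith only [x0a, x0b, x1a, x1b]⟩)
    (abs_le.2 ⟨by linarith only [y0a, y0b, y1a, y1b], by linarith only [y0a, y0b, y1a, y1b]⟩) (by norm_num) (by norm_num)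
  have h1 := v5_comb 1 (-2) 0.36 0.7823 0.2167 0.7562 2.2222 hβ hr hκ (by norm_num) hk1 nA0 nA1 hN (by norm_num [abs_of_neg, abs_of_pos])
  norm_num at h1 ⊢
  exact h1

private theorem B5Bw_L36 {β r κ t1 t0 : ℝ} {L0 L1 : ℂ} (hβ : 0 < β) (hr : 10 ≤ r) (hκ : κ = β * r) (hk1 : 0.36 ≤ κ)
    (nA0 : ‖L0 - sg κ t0 / β‖ ≤ 0.7823) (nA1 : ‖L1 - sg κ t1 / β‖ ≤ 0.2167)
    (y0 : (-0.285) ≤ sy κ t0 ∧ sy κ t0 ≤ (-0.192)) (x0 : 0.3301 ≤ sx κ t0 ∧ sx κ t0 ≤ 0.5245)
    (y1 : 0.162 ≤ sy κ t1 ∧ sy κ t1 ≤ 0.203) (x1 : 0.2123 ≤ sx κ t1 ∧ sx κ t1 ≤ 0.3184) :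
    ‖(-2 : ℂ) * L0 + (1 : ℂ) * L1‖ ≤ r * 3.3429 := by
  obtain ⟨y0a, y0b⟩ := y0
  obtain ⟨x0a, x0b⟩ := x0
  obtain ⟨y1a, y1b⟩ := y1
  obtain ⟨x1a, x1b⟩ := x1
  have hN := v5_cN (κ := κ) (t1 := t1) (t0 := t0) (-2) 1 0.8368 0.7731 1.1393 (abs_le.2 ⟨by linarith only [x0a, x0b, x1a, x1b], by linarith only [x0a, x0b, x1a, x1b]⟩)
    (abs_le.2 ⟨by linarith only [y0a, y0b, y1a, y1b], by linarith only [y0a, y0b, y1a, y1b]⟩) (by norm_num) (by norm_num)
  have h1 := v5_comb (-2) 1 0.36 0.7823 0.2167 1.1393 3.3429 hβ hr hκ (by norm_num) hk1 nA0 nA1 hN (by norm_num [abs_of_neg, abs_of_pos])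
  norm_num at h1 ⊢
  exact h1

private theorem B5Bw_L37 {β r κ t1 t0 : ℝ} {L0 L1 : ℂ} (hβ : 0 < β) (hr : 10 ≤ r) (hκ : κ = β * r) (hk1 : 0.36 ≤ κ)
    (nA0 : ‖L0 - sg κ t0 / β‖ ≤ 0.7823) (nA1 : ‖L1 - sg κ t1 / β‖ ≤ 0.2167)
    (y0 : (-0.285) ≤ sy κ t0 ∧ sy κ t0 ≤ (-0.192)) (x0 : 0.3301 ≤ sx κ t0 ∧ sx κ t0 ≤ 0.5245)
    (y1 : 0.162 ≤ sy κ t1 ∧ sy κ t1 ≤ 0.203) (x1 : 0.2123 ≤ sx κ t1 ∧ sx κ t1 ≤ 0.3184) :
    ‖(-3 : ℂ) * L0 + (2 : ℂ) * L1‖ ≤ r * 5.0172 := by
  obtain ⟨y0a, y0b⟩ := y0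
  obtain ⟨x0a, x0b⟩ := x0
  obtain ⟨y1a, y1b⟩ := y1
  obtain ⟨x1a, x1b⟩ := x1
  have hN := v5_cN (κ := κ) (t1 := t1) (t0 := t0) (-3) 2 1.149 1.2611 1.7061 (abs_le.2 ⟨by linarith only [x0a, x0b, x1a, x1b], by linarith only [x0a, x0b, x1a, x1b]⟩)
    (abs_le.2 ⟨by linarith only [y0a, y0b, y1a, y1b], by linarith only [y0a, y0b, y1a, y1b]⟩) (by norm_num) (by norm_num)
  have h1 := v5_comb (-3) 2 0.36 0.7823 0.2167 1.7061 5.0172 hβ hr hκ (by norm_num) hk1 nA0 nA1 hN (by norm_num [abs_of_neg, abs_of_pos])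
  norm_num at h1 ⊢
  exact h1

private theorem B5Bw_K38 {β r t κ h : ℝ} (hβ : 0 < β) (hr : 10 ≤ r) (hκ : κ = β * r) (hk1 : 0.36 ≤ κ) (hk2 : κ ≤ 0.42)
    (hh : h = 2 * Real.pi / 5) (hh1 : 1.25663 ≤ h) (hh2 : h ≤ 1.25664) (hta : 0.666 ≤ t + κ) (htb : t + κ ≤ 0.7666)
    (hβ1 : β ≤ 0.042)
    (hY : 0.8685 * Real.exp (r * sE κ t) ≤ ‖Xf β r h t 1‖) (hV : 1.1948 - 0.5684 * (t + κ) ≤ sE κ t) :
    ‖Xf β r h t 2‖ ≤ 0.0128 * ‖Xf β r h t 1‖ ∧ ‖Xf β r h (t + β) 2‖ ≤ 0.0128 * ‖Xf β r h t 1‖ := by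
  constructor
  · rw [v5_X 2 1 (by push_cast; ring)]
    exact v5_cmp0 0.609 0.002266 0.0128 hr (B5Bw_C26 (t := t + 1 * h) hβ hr hκ hk1 hk2 (by linarith only [hta, htb, hh1, hh2, hβ, hβ1]) (by linarith only [hta, htb, hh1, hh2, hβ, hβ1])) hY (by norm_num) (by norm_num) (by norm_num) (by linarith only [hV, hta, htb, hh1, hh2]) (ex_un 6 0.0899 (by norm_num) (by norm_num) (by norm_num) (by norm_num)) (by norm_num)
  · rw [v5_X 2 1 (by push_cast; ring)]
    exact v5_cmp0 0.609 0.002266 0.0128 hr (B5Bw_C26 (t := t + β + 1 * h) hβ hr hκ hk1 hk2 (by linarith only [hta, htb, hh1, hh2, hβ, hβ1]) (by linarith only [hta, htb, hh1, hh2, hβ, hβ1])) hY (by norm_num) (by norm_num) (by norm_num) (by linarith only [hV, hta, htb, hh1, hh2]) (ex_un 6 0.0899 (by norm_num) (by norm_num) (by norm_num) (by norm_num)) (by norm_num)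

private theorem B5Bw_K39 {β r t κ h : ℝ} (hβ : 0 < β) (hr : 10 ≤ r) (hκ : κ = β * r) (hk1 : 0.36 ≤ κ) (hk2 : κ ≤ 0.42)
    (hh : h = 2 * Real.pi / 5) (hh1 : 1.25663 ≤ h) (hh2 : h ≤ 1.25664) (hta : 0.666 ≤ t + κ) (htb : t + κ ≤ 0.7666)
    (hβ1 : β ≤ 0.042)
    (hY : 0.9925 * Real.exp (r * sE κ (t - h)) ≤ ‖Xf β r h t 0‖) (hV : 1.15913 + 0.5942 * (t - h + κ) ≤ sE κ (t - h)) :
    ‖Xf β r h t (-1)‖ ≤ 0.00148 * ‖Xf β r h t 0‖ ∧ ‖Xf β r h (t + β) (-1)‖ ≤ 0.0016 * ‖Xf β r h t 0‖ := by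
  constructor
  · rw [v5_X (-1) (-2) (by push_cast; ring)]
    exact v5_cmp 0.8662 0.0001739 0.000345 0.758 0.0005122 0.00113 0.00148 hr (B5Bw_C27 (t := t + (-2) * h) hβ hr hκ hk1 hk2 (by linarith only [hta, htb, hh1, hh2, hβ, hβ1]) (by linarith only [hta, htb, hh1, hh2, hβ, hβ1])) hY (by norm_num) (by norm_num) (by norm_num) (by norm_num) (by linarith only [hV, hta, htb, hh1, hh2]) (ex_un 8 0.6619 (by norm_num) (by norm_num) (by norm_num) (by norm_num)) (by norm_num) (by norm_num) (by linarith only [hV, hta, htb, hh1, hh2]) (ex_un 7 0.5799 (by norm_num) (by norm_num) (by norm_num) (by norm_num)) (by norm_num) (by norm_num)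
  · rw [v5_X (-1) (-2) (by push_cast; ring)]
    have h1 := B5Bw_C27 (t := t + β + (-2) * h) hβ hr hκ hk1 hk2 (by linarith only [hta, htb, hh1, hh2, hβ, hβ1]) (by linarith only [hta, htb, hh1, hh2, hβ, hβ1])
    rw [show t + β + (-2) * h + κ = (t + (-2) * h + κ) + β by ring] at h1
    exact v5_cmpS 1.34744 0.8662 0.0001739 0.000465 0.758 0.0005122 0.00113 0.0016 hr hκ h1 hY (by norm_num) (by norm_num) (by norm_num) (ex_up 0.2982 (by linarith only [hk1, hk2]) (by norm_num) (by norm_num) (by norm_num)) (by norm_num) (by linarith only [hV, hta, htb, hh1, hh2]) (ex_un 8 0.6619 (by norm_num) (by norm_num) (by norm_num) (by norm_num)) (by norm_num) (by norm_num) (by linarith only [hV, hta, htb, hh1, hh2]) (ex_un 7 0.5799 (by norm_num) (by norm_num) (by norm_num) (by norm_num)) (by norm_num) (by norm_num)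

private theorem B5Bw_K40 {β r t κ h : ℝ} (hβ : 0 < β) (hr : 10 ≤ r) (hκ : κ = β * r) (hk1 : 0.36 ≤ κ) (hk2 : κ ≤ 0.42)
    (hh : h = 2 * Real.pi / 5) (hh1 : 1.25663 ≤ h) (hh2 : h ≤ 1.25664) (hta : 0.666 ≤ t + κ) (htb : t + κ ≤ 0.7666)
    (hβ1 : β ≤ 0.042)
    (hY : 0.9925 * Real.exp (r * sE κ (t - h)) ≤ ‖Xf β r h t 0‖) (hV : 1.15913 + 0.5942 * (t - h + κ) ≤ sE κ (t - h)) :
    ‖Xf β r h t (-2)‖ ≤ 0.00178 * ‖Xf β r h t 0‖ ∧ ‖Xf β r h (t + β) (-2)‖ ≤ 0.00178 * ‖Xf β r h t 0‖ := by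
  constructor
  · rw [v5_Xm2 hh]
    exact v5_cmp0 0.7481 0.0005647 0.00178 hr (B5Bw_C28 (t := t + 2 * h) hβ hr hκ hk1 hk2 (by linarith only [hta, htb, hh1, hh2, hβ, hβ1]) (by linarith only [hta, htb, hh1, hh2, hβ, hβ1])) hY (by norm_num) (by norm_num) (by norm_num) (by linarith only [hV, hta, htb, hh1, hh2]) (ex_un 7 0.4809 (by norm_num) (by norm_num) (by norm_num) (by norm_num)) (by norm_num)
  · rw [v5_Xm2 hh]
    exact v5_cmp0 0.7481 0.0005647 0.00178 hr (B5Bw_C28 (t := t + β + 2 * h) hβ hr hκ hk1 hk2 (by linarith only [hta, htb, hh1, hh2, hβ, hβ1]) (by linarith only [hta, htb, hh1, hh2, hβ, hβ1])) hY (by norm_num) (by norm_num) (by norm_num) (by linarith only [hV, hta, htb, hh1, hh2]) (ex_un 7 0.4809 (by norm_num) (by norm_num) (by norm_num) (by norm_num)) (by norm_num)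

theorem B5Bw_W41 {β r t κ h : ℝ} (hβ : 0 < β) (hr : 10 ≤ r) (hκ : κ = β * r) (hk1 : 0.36 ≤ κ) (hk2 : κ ≤ 0.42)
    (hh : h = 2 * Real.pi / 5) (hta : 0.666 ≤ t + κ) (htb : t + κ ≤ 0.7666) :
    Xf β r h t 0 ≠ 0 ∧
    (‖Xf β r h t 2‖ ≤ 0.0197 * ‖Xf β r h t 1‖ ∧ ‖Xf β r h t (-1)‖ ≤ 0.00302 * ‖Xf β r h t 0‖ ∧
      ‖Xf β r h t (-2)‖ ≤ 0.00421 * ‖Xf β r h t 0‖) ∧
    (r * ‖Xf β r h (t + β) 2‖ + ‖Xf β r h t 2‖ * ‖(1 : ℂ) * Ld β r h t 0 + (-2 : ℂ) * Ld β r h t 1‖ ≤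
        r * 0.0682 * ‖Xf β r h t 1‖ ∧
      r * ‖Xf β r h (t + β) (-1)‖ + ‖Xf β r h t (-1)‖ * ‖(-2 : ℂ) * Ld β r h t 0 + (1 : ℂ) * Ld β r h t 1‖ ≤
        r * 0.0146 * ‖Xf β r h t 0‖ ∧
      r * ‖Xf β r h (t + β) (-2)‖ + ‖Xf β r h t (-2)‖ * ‖(-3 : ℂ) * Ld β r h t 0 + (2 : ℂ) * Ld β r h t 1‖ ≤
        r * 0.028 * ‖Xf β r h t 0‖) ∧
    r * 0.7241 ≤ (Ld β r h t 1 - Ld β r h t 0).im := by
  obtain ⟨hh1, hh2⟩ := v5_h hh
  have hκ0 : 0 < κ := by linarith only [hk1]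
  have hN : β * 23.809 ≤ 1 := v5_hN 0.42 23.809 hβ hr hκ hk2 (by norm_num) (by norm_num)
  have hD1 : DomR κ t := v5_dom hκ0 (by linarith only [hta, htb, hk1, hk2, hh1, hh2]) (Or.inr (by linarith only [hta, htb, hk1, hk2, hh1, hh2]))
  have hD0 : DomR κ (t - h) := v5_dom hκ0 (by linarith only [hta, htb, hk1, hk2, hh1, hh2]) (Or.inr (by linarith only [hta, htb, hk1, hk2, hh1, hh2]))
  have hβ1 : β ≤ 0.042 := by
    have := mul_le_mul_of_nonneg_left hr hβ.le
    linarith only [this, hκ, hk2]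
  have h0a : (-0.5907) ≤ t - h + κ := by linarith only [hta, htb, hh1, hh2]
  have h0b : t - h + κ ≤ (-0.49) := by linarith only [hta, htb, hh1, hh2]
  have e1 : t = t + (((1 : ℤ) : ℝ) - 1) * h := by push_cast; ring
  have e0 : t - h = t + (((0 : ℤ) : ℝ) - 1) * h := by push_cast; ring
  have hY1 := B5Bw_Y29 (h := h) hβ hκ hN hk1 hk2 e1 hD1 hta htb
  have hY0 := B5Bw_Y30 (h := h) hβ hκ hN hk1 hk2 e0 hD0 h0a h0b
  have hV1 := B5Bw_V31 hD1 hk1 hk2 hta htb
  have hV0 := B5Bw_V32 hD0 hk1 hk2 h0a h0b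
  obtain ⟨nz1, im1, nA1, ex1, y1, x1⟩ := B5Bw_S33 (h := h) hβ hκ hN hk1 hk2 e1 hD1 hta htb
  obtain ⟨nz0, im0, nA0, ex0, y0, x0⟩ := B5Bw_S34 (h := h) hβ hκ hN hk1 hk2 e0 hD0 h0a h0b
  obtain ⟨cp2, dp2⟩ := B5Bw_K38 hβ hr hκ hk1 hk2 hh hh1 hh2 hta htb hβ1 hY1 hV1
  obtain ⟨cm1, dm1⟩ := B5Bw_K39 hβ hr hκ hk1 hk2 hh hh1 hh2 hta htb hβ1 hY0 hV0
  obtain ⟨cm2, dm2⟩ := B5Bw_K40 hβ hr hκ hk1 hk2 hh hh1 hh2 hta htb hβ1 hY0 hV0
  have Lp2 := B5Bw_L35 hβ hr hκ hk1 nA0 nA1 y0 x0 y1 x1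
  have Lm1 := B5Bw_L36 hβ hr hκ hk1 nA0 nA1 y0 x0 y1 x1
  have Lm2 := B5Bw_L37 hβ hr hκ hk1 nA0 nA1 y0 x0 y1 x1
  have hm : r * 0.7241 ≤ (Ld β r h t 1 - Ld β r h t 0).im :=
    v5_m 0.42 0.162 0.192 0.0001 0.6153 0.0907 0.3585 _ _ 0.7241 hβ hr hκ hk2 im1 im0 y1.1 (by linarith only [y0.2]) (by norm_num) ex1 ex0 (by norm_num) (by norm_num)
  have hr0 : 0 < r := by linarith only [hr]
  refine ⟨nz0, ⟨v5_emax _ cp2 (norm_nonneg _) (by norm_num), v5_emax _ cm1 (norm_nonneg _) (by norm_num), v5_emax _ cm2 (norm_nonneg _) (by norm_num)⟩, ⟨?_, ?_, ?_⟩, hm⟩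
  · exact v5_W hr0 dp2 cp2 Lp2 (norm_nonneg _) (norm_nonneg _) (norm_nonneg _) (by norm_num)
  · exact v5_W hr0 dm1 cm1 Lm1 (norm_nonneg _) (norm_nonneg _) (norm_nonneg _) (by norm_num)
  · exact v5_W hr0 dm2 cm2 Lm2 (norm_nonneg _) (norm_nonneg _) (norm_nonneg _) (by norm_num)

end Sok
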