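import Pool.Agent.Lib.MP_816dec_an.R1V9

/-!
MP_816dec_an (A3, row R1), SINGLE CASE `b = 5`, `r ≥ 10`, `0.42 ≤ κ ≤ 0.5`: the window (generated file).
-/

set_option autoImplicit false
set_option linter.unusedVariables false

open Complex Set Filter Topology Metric

namespace Sok

private theorem B5Cw_B1 {κ t : ℝ} (h : DomR κ t) (hk1 : 0.42 ≤ κ) (hk2 : κ ≤ 0.5) (ht1 : 0.5654 ≤ t + κ) (ht2 : t + κ ≤ 0.666) :
    (0.159 ≤ sy κ t ∧ sy κ t ≤ 0.204) ∧ (0.275 ≤ sx κ t ∧ sx κ t ≤ 0.3958) ∧ κ * Real.exp (-sy κ t) ≤ 0.4266 ∧ 1.4463 ≤ sD κ t ∧ sD κ t ≤ 1.5743 := by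
  have hy1 : 0.159 ≤ sy κ t := syR_ge h 0.42 0.5 0.5654 0.159 1.17233 1.17234 0.3728 0.44382 hk1 hk2 (by linarith) (by norm_num) (by norm_num)
    (expn_ge (by norm_num) (by norm_num)) (expn_le (by norm_num) (by norm_num) (by norm_num)) (by norm_num)
    (by norm_num) (by norm_num) (by norm_num) (by norm_num) (by norm_num) (by norm_num)
  have hy2 : sy κ t ≤ 0.204 := syR_le h 0.42 0.5 0.666 0.204 1.22629 0.4764 0.50032 0.59564 hk1 hk2 (by linarith) (by norm_num) (by norm_num)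
    (expn_ge (by norm_num) (by norm_num)) (by norm_num) (by norm_num) (Or.inr ((mul_le_mul_of_nonneg_left (expn_le (E := 1.2263) (by norm_num) (by norm_num) (by norm_num)) (by norm_num)).trans (by norm_num))) (by norm_num) (by norm_num) (by norm_num)
  have hy1' : 0.159 ≤ sy κ t := by linarith
  have hy2' : sy κ t ≤ 0.204 := by linarith
  have hx1 : 0.275 ≤ sx κ t := sx_lo h 0.42 0.204 0.2041 0.81546 0.275 hk1 (by norm_num) hy2' (abs_le.2 ⟨by linarith, by linarith⟩) (ex_lm 0.204 (by norm_num) (by norm_num) (by norm_num) (by norm_num) (by norm_num)) (by norm_num) (by norm_num)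
  have hx2 : sx κ t ≤ 0.3958 := sx_hi h 0.5 0.159 0.159 0.853 0.3958 hk2 hy1' (by norm_num) (le_trans (by linarith) (le_abs_self _)) (ex_um 0.159 (by norm_num) (by norm_num) (by norm_num) (by norm_num)) (by norm_num) (by norm_num)
  refine ⟨⟨hy1', hy2'⟩, ⟨hx1, hx2⟩, v5_n h 0.5 0.159 0.853 0.4266 hk2 hy1' (ex_um 0.159 (by norm_num) (by norm_num) (by norm_num) (by norm_num)) (by norm_num), ?_, ?_⟩
  · exact v5_Dlo h 0.42 0.159 0.204 0.159 0.85299 1.4463 (by norm_num) hk1 hy1' hy2' (ex_lm 0.159 (by norm_num) (by norm_num) (by norm_num) (by norm_num) (by norm_num)) (by norm_num) (by norm_num) (by norm_num) (by norm_num)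
  · exact v5_Dup h 0.5 0.159 0.204 0.853 0.81547 1.5743 hk2 hy1' hy2' (ex_um 0.159 (by norm_num) (by norm_num) (by norm_num) (by norm_num)) (ex_um 0.204 (by norm_num) (by norm_num) (by norm_num) (by norm_num)) (by norm_num) (by norm_num) (by norm_num)

private theorem B5Cw_B2 {κ t : ℝ} (h : DomR κ t) (hk1 : 0.42 ≤ κ) (hk2 : κ ≤ 0.5) (ht1 : (-0.6913) ≤ t + κ) (ht2 : t + κ ≤ (-0.5906)) :
    ((-0.403) ≤ sy κ t ∧ sy κ t ≤ (-0.279)) ∧ (0.3817 ≤ sx κ t ∧ sx κ t ≤ 0.6942) ∧ κ * Real.exp (-sy κ t) ≤ 0.7482 ∧ 0.5889 ≤ sD κ t ∧ sD κ t ≤ 0.8788 := by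
  have hy1 : -0.403 ≤ sy κ t := syL_ge h 0.42 0.5 0.6913 0.403 0.66831 0.66832 0.53 0.53865 0.64127 hk1 hk2 (by linarith) (by norm_num) (by norm_num) (by norm_num)
    (expm_ge (by norm_num) (by norm_num) (by norm_num) (by norm_num)) (expm_le (by norm_num) (by norm_num) (by norm_num)) (by norm_num)
    (by norm_num) (by norm_num) (by norm_num) (by norm_num) (by norm_num) (by norm_num)
  have hy2 : sy κ t ≤ -0.279 := syL_le h 0.42 0.5 0.5906 0.279 0.75653 0.75654 0.42214 0.50256 hk1 hk2 (by linarith) (by norm_num) (by norm_num) (by norm_num)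
    (expm_ge (by norm_num) (by norm_num) (by norm_num) (by norm_num)) (expm_le (by norm_num) (by norm_num) (by norm_num)) (by norm_num)
    (by norm_num) (by norm_num) (by norm_num) (by norm_num) (by norm_num) (by norm_num)
  have hy1' : (-0.403) ≤ sy κ t := by linarith
  have hy2' : sy κ t ≤ (-0.279) := by linarith
  have hx1 : 0.3817 ≤ sx κ t := sx_lo h 0.42 (-0.279) 0.4031 1.3218 0.3817 hk1 (by norm_num) hy2' (abs_le.2 ⟨by linarith, by linarith⟩) (ex_lp 0.279 (by norm_num) (by norm_num) (by norm_num)) (by norm_num) (by norm_num)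
  have hx2 : sx κ t ≤ 0.6942 := sx_hi h 0.5 (-0.403) 0.279 1.49631 0.6942 hk2 hy1' (by norm_num) (le_trans (by linarith) (neg_le_abs _)) (ex_up 0.403 (by norm_num) (by norm_num) (by norm_num) (by norm_num)) (by norm_num) (by norm_num)
  refine ⟨⟨hy1', hy2'⟩, ⟨hx1, hx2⟩, v5_n h 0.5 (-0.403) 1.49631 0.7482 hk2 hy1' (ex_up 0.403 (by norm_num) (by norm_num) (by norm_num) (by norm_num)) (by norm_num), ?_, ?_⟩
  · exact v5_Dlo h 0.42 (-0.403) (-0.279) (-0.403) 1.4963 0.5889 (by norm_num) hk1 hy1' hy2' (ex_lp 0.403 (by norm_num) (by norm_num) (by norm_num)) (by norm_num) (by norm_num) (by norm_num) (by norm_num)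
  · exact v5_Dup h 0.5 (-0.403) (-0.279) 1.49631 1.32181 0.8788 hk2 hy1' hy2' (ex_up 0.403 (by norm_num) (by norm_num) (by norm_num) (by norm_num)) (ex_up 0.279 (by norm_num) (by norm_num) (by norm_num) (by norm_num)) (by norm_num) (by norm_num) (by norm_num)

private theorem B5Cw_T3_0_0 {β x y : ℝ} (hβ : 0 < β) (hN : β * 19.999 ≤ 1) (hx1 : 0.1549 ≤ x) (hx2 : x ≤ 0.429)
    (hy1 : -0 ≤ y) (hy2 : y ≤ 0.3241) : ‖HH β (x + y * I) - 1‖ ≤ 0.03 := by
  refine le_epsJ (C := 0.5989) (N0 := 19.999) (J_boxp 0.1549 0.429 0 0.3241 0.3241 0.8191 0.5377 1.3919 1.5915 0.4707 4.4721 19.999 0.6565 2.374 1.341 1.2551 0.4095 0.3199 1.0613 3.8266 0.3972 0.6814 0.4904 2.033 0.0002777 0.001667 0.0000003101 0.0000003101 0.0003562 0.000001209 0.00005515 0.0000003101 0.5989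
    hβ hN hx1 hx2 hy1 hy2 (by norm_num) (by norm_num) (by linarith) (by norm_num) (by norm_num) (by norm_num) (by norm_num) (by norm_num) (by norm_num) (by norm_num) (by norm_num) (by norm_num) (by norm_num) (by norm_num) (by norm_num) (by norm_num) (by norm_num) (by norm_num) (by norm_num) (by norm_num) (by norm_num) (by norm_num) (by norm_num) (by norm_num)
    (cube_sqrt_geJ (s := 0.8838) (by norm_num) (by norm_num) (by norm_num) (by norm_num))
    (cube_sqrt_geJ (s := 0.9589) (by norm_num) (by norm_num) (by norm_num) (by norm_num))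
    (by norm_num) (by norm_num) (by norm_num) (by norm_num) (by norm_num) (by norm_num) (by norm_num) (by norm_num) (by norm_num) (by norm_num) (by norm_num) (by norm_num) (by norm_num) (by norm_num) (by norm_num) (by norm_num) (by norm_num) (by norm_num)
    (exp_neg_leJ (r := 0.189) 8 (by norm_num) (by norm_num) (by norm_num) (by norm_num))
    (exp_neg_leJ (r := 0.397) 6 (by norm_num) (by norm_num) (by norm_num) (by norm_num))
    (exp_neg_leJ (r := 0.99) 14 (by norm_num) (by norm_num) (by norm_num) (by norm_num))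
    (exp_neg_leJ (r := 0.99) 14 (by norm_num) (by norm_num) (by norm_num) (by norm_num))
    (exp_neg_leJ (r := 0.943) 7 (by norm_num) (by norm_num) (by norm_num) (by norm_num))
    (exp_neg_leJ (r := 0.627) 13 (by norm_num) (by norm_num) (by norm_num) (by norm_num))
    (exp_neg_leJ (r := 0.807) 9 (by norm_num) (by norm_num) (by norm_num) (by norm_num))
    (exp_neg_leJ (r := 0.99) 14 (by norm_num) (by norm_num) (by norm_num) (by norm_num))
    (by norm_num)) (by norm_num) hN hβ.le (by norm_num)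

private theorem B5Cw_T3_0_1 {β x y : ℝ} (hβ : 0 < β) (hN : β * 19.999 ≤ 1) (hx1 : 0.429 ≤ x) (hx2 : x ≤ 0.5159)
    (hy1 : -0 ≤ y) (hy2 : y ≤ 0.3241) : ‖HH β (x + y * I) - 1‖ ≤ 0.03 := by
  refine le_epsJ (C := 0.3407) (N0 := 19.999) (J_boxp 0.429 0.5159 0 0.3241 0.3241 1.0121 0.6093 1.4211 1.1708 0.4756 4.4721 19.999 0.6021 2.191 1.308 1.2216 0.506 0.4044 1.1551 3.7805 0.5303 1.0609 1.0386 2.3866 0.00004031 0.0003076 0.0000003101 0.0000003101 0.00002481 0.0000003101 0.0000003101 0.0000003101 0.3407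
    hβ hN hx1 hx2 hy1 hy2 (by norm_num) (by norm_num) (by linarith) (by norm_num) (by norm_num) (by norm_num) (by norm_num) (by norm_num) (by norm_num) (by norm_num) (by norm_num) (by norm_num) (by norm_num) (by norm_num) (by norm_num) (by norm_num) (by norm_num) (by norm_num) (by norm_num) (by norm_num) (by norm_num) (by norm_num) (by norm_num) (by norm_num)
    (cube_sqrt_geJ (s := 0.894) (by norm_num) (by norm_num) (by norm_num) (by norm_num))
    (cube_sqrt_geJ (s := 0.9624) (by norm_num) (by norm_num) (by norm_num) (by norm_num))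
    (by norm_num) (by norm_num) (by norm_num) (by norm_num) (by norm_num) (by norm_num) (by norm_num) (by norm_num) (by norm_num) (by norm_num) (by norm_num) (by norm_num) (by norm_num) (by norm_num) (by norm_num) (by norm_num) (by norm_num) (by norm_num)
    (exp_neg_leJ (r := 0.119) 10 (by norm_num) (by norm_num) (by norm_num) (by norm_num))
    (exp_neg_leJ (r := 0.087) 8 (by norm_num) (by norm_num) (by norm_num) (by norm_num))
    (exp_neg_leJ (r := 0.99) 14 (by norm_num) (by norm_num) (by norm_num) (by norm_num))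
    (exp_neg_leJ (r := 0.99) 14 (by norm_num) (by norm_num) (by norm_num) (by norm_num))
    (exp_neg_leJ (r := 0.605) 10 (by norm_num) (by norm_num) (by norm_num) (by norm_num))
    (exp_neg_leJ (r := 0.99) 14 (by norm_num) (by norm_num) (by norm_num) (by norm_num))
    (exp_neg_leJ (r := 0.99) 14 (by norm_num) (by norm_num) (by norm_num) (by norm_num))
    (exp_neg_leJ (r := 0.99) 14 (by norm_num) (by norm_num) (by norm_num) (by norm_num))
    (by norm_num)) (by norm_num) hN hβ.le (by norm_num)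

private theorem B5Cw_T3 {β x y : ℝ} (hβ : 0 < β) (hN : β * 19.999 ≤ 1) (hx1 : 0.1549 ≤ x) (hx2 : x ≤ 0.5159)
    (hy1 : 0.0389 ≤ y) (hy2 : y ≤ 0.3241) : ‖HH β (x + y * I) - 1‖ ≤ 0.03 := by
  rcases le_total x 0.429 with hxx | hxx
  · exact B5Cw_T3_0_0 hβ hN (by linarith) (by linarith) (by linarith) (by linarith)
  exact B5Cw_T3_0_1 hβ hN (by linarith) (by linarith) (by linarith) (by linarith)

private theorem B5Cw_T4_0_0 {β x y : ℝ} (hβ : 0 < β) (hN : β * 19.999 ≤ 1) (hx1 : 0.3016 ≤ x) (hx2 : x ≤ 0.312)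
    (hy1 : -0.4831 ≤ y) (hy2 : y ≤ -0.36) : ‖HH β (x + y * I) - 1‖ ≤ 0.12 := by
  refine le_epsJ (C := 2.3956) (N0 := 19.999) (J_boxp 0.3016 0.312 0.4831 0 (-0.36) 0.5793 0.5751 0.7121 1.9139 0.3367 4.4721 19.999 0.9928 4.083 1.575 0.8541 0.2896 0.1937 0.3489 2.3363 0.2376 0.9175 0.8606 3.752 0.00306 0.02084 0.0009363 0.0000003101 0.008653 0.0000003101 0.0000003101 0.0000003101 2.3956
    hβ hN hx1 hx2 hy1 hy2 (by norm_num) (by norm_num) (by linarith) (by norm_num) (by norm_num) (by norm_num) (by norm_num) (by norm_num) (by norm_num) (by norm_num) (by norm_num) (by norm_num) (by norm_num) (by norm_num) (by norm_num) (by norm_num) (by norm_num) (by norm_num) (by norm_num) (by norm_num) (by norm_num) (by norm_num) (by norm_num) (by norm_num)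
    (cube_sqrt_geJ (s := 0.8179) (by norm_num) (by norm_num) (by norm_num) (by norm_num))
    (cube_sqrt_geJ (s := 0.9372) (by norm_num) (by norm_num) (by norm_num) (by norm_num))
    (by norm_num) (by norm_num) (by norm_num) (by norm_num) (by norm_num) (by norm_num) (by norm_num) (by norm_num) (by norm_num) (by norm_num) (by norm_num) (by norm_num) (by norm_num) (by norm_num) (by norm_num) (by norm_num) (by norm_num) (by norm_num)
    (exp_neg_leJ (r := 0.791) 5 (by norm_num) (by norm_num) (by norm_num) (by norm_num))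
    (exp_neg_leJ (r := 0.873) 3 (by norm_num) (by norm_num) (by norm_num) (by norm_num))
    (exp_neg_leJ (r := 0.977) 6 (by norm_num) (by norm_num) (by norm_num) (by norm_num))
    (exp_neg_leJ (r := 0.99) 14 (by norm_num) (by norm_num) (by norm_num) (by norm_num))
    (exp_neg_leJ (r := 0.751) 4 (by norm_num) (by norm_num) (by norm_num) (by norm_num))
    (exp_neg_leJ (r := 0.99) 14 (by norm_num) (by norm_num) (by norm_num) (by norm_num))
    (exp_neg_leJ (r := 0.99) 14 (by norm_num) (by norm_num) (by norm_num) (by norm_num))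
    (exp_neg_leJ (r := 0.99) 14 (by norm_num) (by norm_num) (by norm_num) (by norm_num))
    (by norm_num)) (by norm_num) hN hβ.le (by norm_num)

private theorem B5Cw_T4_0_1 {β x y : ℝ} (hβ : 0 < β) (hN : β * 19.999 ≤ 1) (hx1 : 0.312 ≤ x) (hx2 : x ≤ 0.335)
    (hy1 : -0.4831 ≤ y) (hy2 : y ≤ -0.36) : ‖HH β (x + y * I) - 1‖ ≤ 0.12 := by
  refine le_epsJ (C := 2.3942) (N0 := 19.999) (J_boxp 0.312 0.335 0.4831 0 (-0.36) 0.5867 0.5879 0.7224 1.8914 0.3391 4.4721 19.999 1.0021 4.15 1.582 0.8453 0.2933 0.1953 0.3525 2.3258 0.2426 0.9319 0.8814 3.738 0.002843 0.02019 0.0008683 0.0000003101 0.007836 0.0000003101 0.0000003101 0.0000003101 2.3942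
    hβ hN hx1 hx2 hy1 hy2 (by norm_num) (by norm_num) (by linarith) (by norm_num) (by norm_num) (by norm_num) (by norm_num) (by norm_num) (by norm_num) (by norm_num) (by norm_num) (by norm_num) (by norm_num) (by norm_num) (by norm_num) (by norm_num) (by norm_num) (by norm_num) (by norm_num) (by norm_num) (by norm_num) (by norm_num) (by norm_num) (by norm_num)
    (cube_sqrt_geJ (s := 0.816) (by norm_num) (by norm_num) (by norm_num) (by norm_num))
    (cube_sqrt_geJ (s := 0.9366) (by norm_num) (by norm_num) (by norm_num) (by norm_num))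
    (by norm_num) (by norm_num) (by norm_num) (by norm_num) (by norm_num) (by norm_num) (by norm_num) (by norm_num) (by norm_num) (by norm_num) (by norm_num) (by norm_num) (by norm_num) (by norm_num) (by norm_num) (by norm_num) (by norm_num) (by norm_num)
    (exp_neg_leJ (r := 0.865) 5 (by norm_num) (by norm_num) (by norm_num) (by norm_num))
    (exp_neg_leJ (r := 0.905) 3 (by norm_num) (by norm_num) (by norm_num) (by norm_num))
    (exp_neg_leJ (r := 0.049) 7 (by norm_num) (by norm_num) (by norm_num) (by norm_num))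
    (exp_neg_leJ (r := 0.99) 14 (by norm_num) (by norm_num) (by norm_num) (by norm_num))
    (exp_neg_leJ (r := 0.851) 4 (by norm_num) (by norm_num) (by norm_num) (by norm_num))
    (exp_neg_leJ (r := 0.99) 14 (by norm_num) (by norm_num) (by norm_num) (by norm_num))
    (exp_neg_leJ (r := 0.99) 14 (by norm_num) (by norm_num) (by norm_num) (by norm_num))
    (exp_neg_leJ (r := 0.99) 14 (by norm_num) (by norm_num) (by norm_num) (by norm_num))
    (by norm_num)) (by norm_num) hN hβ.le (by norm_num)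

private theorem B5Cw_T4_0_2 {β x y : ℝ} (hβ : 0 < β) (hN : β * 19.999 ≤ 1) (hx1 : 0.335 ≤ x) (hx2 : x ≤ 0.382)
    (hy1 : -0.4831 ≤ y) (hy2 : y ≤ -0.36) : ‖HH β (x + y * I) - 1‖ ≤ 0.12 := by
  refine le_epsJ (C := 2.3947) (N0 := 19.999) (J_boxp 0.335 0.382 0.4831 0 (-0.36) 0.6029 0.6159 0.7454 1.8443 0.3445 4.4721 19.999 1.0216 4.295 1.597 0.8272 0.3014 0.1987 0.3604 2.3038 0.2538 0.9638 0.9274 3.7078 0.002413 0.01888 0.0007414 0.0000003101 0.006252 0.0000003101 0.0000003101 0.0000003101 2.3947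
    hβ hN hx1 hx2 hy1 hy2 (by norm_num) (by norm_num) (by linarith) (by norm_num) (by norm_num) (by norm_num) (by norm_num) (by norm_num) (by norm_num) (by norm_num) (by norm_num) (by norm_num) (by norm_num) (by norm_num) (by norm_num) (by norm_num) (by norm_num) (by norm_num) (by norm_num) (by norm_num) (by norm_num) (by norm_num) (by norm_num) (by norm_num)
    (cube_sqrt_geJ (s := 0.812) (by norm_num) (by norm_num) (by norm_num) (by norm_num))
    (cube_sqrt_geJ (s := 0.9353) (by norm_num) (by norm_num) (by norm_num) (by norm_num))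
    (by norm_num) (by norm_num) (by norm_num) (by norm_num) (by norm_num) (by norm_num) (by norm_num) (by norm_num) (by norm_num) (by norm_num) (by norm_num) (by norm_num) (by norm_num) (by norm_num) (by norm_num) (by norm_num) (by norm_num) (by norm_num)
    (exp_neg_leJ (r := 0.027) 6 (by norm_num) (by norm_num) (by norm_num) (by norm_num))
    (exp_neg_leJ (r := 0.973) 3 (by norm_num) (by norm_num) (by norm_num) (by norm_num))
    (exp_neg_leJ (r := 0.207) 7 (by norm_num) (by norm_num) (by norm_num) (by norm_num))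
    (exp_neg_leJ (r := 0.99) 14 (by norm_num) (by norm_num) (by norm_num) (by norm_num))
    (exp_neg_leJ (r := 0.075) 5 (by norm_num) (by norm_num) (by norm_num) (by norm_num))
    (exp_neg_leJ (r := 0.99) 14 (by norm_num) (by norm_num) (by norm_num) (by norm_num))
    (exp_neg_leJ (r := 0.99) 14 (by norm_num) (by norm_num) (by norm_num) (by norm_num))
    (exp_neg_leJ (r := 0.99) 14 (by norm_num) (by norm_num) (by norm_num) (by norm_num))
    (by norm_num)) (by norm_num) hN hβ.le (by norm_num)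

private theorem B5Cw_T4_0_3 {β x y : ℝ} (hβ : 0 < β) (hN : β * 19.999 ≤ 1) (hx1 : 0.382 ≤ x) (hx2 : x ≤ 0.467)
    (hy1 : -0.4831 ≤ y) (hy2 : y ≤ -0.36) : ‖HH β (x + y * I) - 1‖ ≤ 0.12 := by
  refine le_epsJ (C := 2.3945) (N0 := 19.999) (J_boxp 0.382 0.467 0.4831 0 (-0.36) 0.636 0.672 0.7923 1.755 0.3552 4.4721 19.999 1.0567 4.572 1.625 0.7945 0.3179 0.2059 0.3764 2.2624 0.2766 1.0289 1.0214 3.6494 0.001735 0.0163 0.0005385 0.0000003101 0.003963 0.0000003101 0.0000003101 0.0000003101 2.3945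
    hβ hN hx1 hx2 hy1 hy2 (by norm_num) (by norm_num) (by linarith) (by norm_num) (by norm_num) (by norm_num) (by norm_num) (by norm_num) (by norm_num) (by norm_num) (by norm_num) (by norm_num) (by norm_num) (by norm_num) (by norm_num) (by norm_num) (by norm_num) (by norm_num) (by norm_num) (by norm_num) (by norm_num) (by norm_num) (by norm_num) (by norm_num)
    (cube_sqrt_geJ (s := 0.8048) (by norm_num) (by norm_num) (by norm_num) (by norm_num))
    (cube_sqrt_geJ (s := 0.933) (by norm_num) (by norm_num) (by norm_num) (by norm_num))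
    (by norm_num) (by norm_num) (by norm_num) (by norm_num) (by norm_num) (by norm_num) (by norm_num) (by norm_num) (by norm_num) (by norm_num) (by norm_num) (by norm_num) (by norm_num) (by norm_num) (by norm_num) (by norm_num) (by norm_num) (by norm_num)
    (exp_neg_leJ (r := 0.357) 6 (by norm_num) (by norm_num) (by norm_num) (by norm_num))
    (exp_neg_leJ (r := 0.117) 4 (by norm_num) (by norm_num) (by norm_num) (by norm_num))
    (exp_neg_leJ (r := 0.527) 7 (by norm_num) (by norm_num) (by norm_num) (by norm_num))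
    (exp_neg_leJ (r := 0.99) 14 (by norm_num) (by norm_num) (by norm_num) (by norm_num))
    (exp_neg_leJ (r := 0.531) 5 (by norm_num) (by norm_num) (by norm_num) (by norm_num))
    (exp_neg_leJ (r := 0.99) 14 (by norm_num) (by norm_num) (by norm_num) (by norm_num))
    (exp_neg_leJ (r := 0.99) 14 (by norm_num) (by norm_num) (by norm_num) (by norm_num))
    (exp_neg_leJ (r := 0.99) 14 (by norm_num) (by norm_num) (by norm_num) (by norm_num))
    (by norm_num)) (by norm_num) hN hβ.le (by norm_num)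

private theorem B5Cw_T4_0_4 {β x y : ℝ} (hβ : 0 < β) (hN : β * 19.999 ≤ 1) (hx1 : 0.467 ≤ x) (hx2 : x ≤ 0.601)
    (hy1 : -0.4831 ≤ y) (hy2 : y ≤ -0.36) : ‖HH β (x + y * I) - 1‖ ≤ 0.12 := by
  refine le_epsJ (C := 2.3963) (N0 := 19.999) (J_boxp 0.467 0.601 0.4831 0 (-0.36) 0.6958 0.7711 0.878 1.6145 0.3739 4.4721 19.999 1.1083 5.024 1.667 0.743 0.3478 0.2193 0.4055 2.1944 0.3179 1.1466 1.1914 3.55 0.0009568 0.01247 0.0003009 0.0000003101 0.001735 0.0000003101 0.0000003101 0.0000003101 2.3963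
    hβ hN hx1 hx2 hy1 hy2 (by norm_num) (by norm_num) (by linarith) (by norm_num) (by norm_num) (by norm_num) (by norm_num) (by norm_num) (by norm_num) (by norm_num) (by norm_num) (by norm_num) (by norm_num) (by norm_num) (by norm_num) (by norm_num) (by norm_num) (by norm_num) (by norm_num) (by norm_num) (by norm_num) (by norm_num) (by norm_num) (by norm_num)
    (cube_sqrt_geJ (s := 0.794) (by norm_num) (by norm_num) (by norm_num) (by norm_num))
    (cube_sqrt_geJ (s := 0.9296) (by norm_num) (by norm_num) (by norm_num) (by norm_num))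
    (by norm_num) (by norm_num) (by norm_num) (by norm_num) (by norm_num) (by norm_num) (by norm_num) (by norm_num) (by norm_num) (by norm_num) (by norm_num) (by norm_num) (by norm_num) (by norm_num) (by norm_num) (by norm_num) (by norm_num) (by norm_num)
    (exp_neg_leJ (r := 0.955) 6 (by norm_num) (by norm_num) (by norm_num) (by norm_num))
    (exp_neg_leJ (r := 0.385) 4 (by norm_num) (by norm_num) (by norm_num) (by norm_num))
    (exp_neg_leJ (r := 0.109) 8 (by norm_num) (by norm_num) (by norm_num) (by norm_num))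
    (exp_neg_leJ (r := 0.99) 14 (by norm_num) (by norm_num) (by norm_num) (by norm_num))
    (exp_neg_leJ (r := 0.357) 6 (by norm_num) (by norm_num) (by norm_num) (by norm_num))
    (exp_neg_leJ (r := 0.99) 14 (by norm_num) (by norm_num) (by norm_num) (by norm_num))
    (exp_neg_leJ (r := 0.99) 14 (by norm_num) (by norm_num) (by norm_num) (by norm_num))
    (exp_neg_leJ (r := 0.99) 14 (by norm_num) (by norm_num) (by norm_num) (by norm_num))
    (by norm_num)) (by norm_num) hN hβ.le (by norm_num)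

private theorem B5Cw_T4_0_5 {β x y : ℝ} (hβ : 0 < β) (hN : β * 19.999 ≤ 1) (hx1 : 0.601 ≤ x) (hx2 : x ≤ 0.7743)
    (hy1 : -0.4831 ≤ y) (hy2 : y ≤ -0.36) : ‖HH β (x + y * I) - 1‖ ≤ 0.12 := by
  refine le_epsJ (C := 2.2831) (N0 := 19.999) (J_boxp 0.601 0.7743 0.4831 0 (-0.36) 0.7902 0.9127 1.0046 1.4269 0.3999 4.4721 19.999 1.1551 5.484 1.706 0.6763 0.395 0.2429 0.4514 2.1028 0.383 1.3321 1.4594 3.4331 0.000372 0.007789 0.0001202 0.0000003101 0.0004721 0.0000003101 0.0000003101 0.0000003101 2.2831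
    hβ hN hx1 hx2 hy1 hy2 (by norm_num) (by norm_num) (by linarith) (by norm_num) (by norm_num) (by norm_num) (by norm_num) (by norm_num) (by norm_num) (by norm_num) (by norm_num) (by norm_num) (by norm_num) (by norm_num) (by norm_num) (by norm_num) (by norm_num) (by norm_num) (by norm_num) (by norm_num) (by norm_num) (by norm_num) (by norm_num) (by norm_num)
    (cube_sqrt_geJ (s := 0.7841) (by norm_num) (by norm_num) (by norm_num) (by norm_num))
    (cube_sqrt_geJ (s := 0.9265) (by norm_num) (by norm_num) (by norm_num) (by norm_num))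
    (by norm_num) (by norm_num) (by norm_num) (by norm_num) (by norm_num) (by norm_num) (by norm_num) (by norm_num) (by norm_num) (by norm_num) (by norm_num) (by norm_num) (by norm_num) (by norm_num) (by norm_num) (by norm_num) (by norm_num) (by norm_num)
    (exp_neg_leJ (r := 0.899) 7 (by norm_num) (by norm_num) (by norm_num) (by norm_num))
    (exp_neg_leJ (r := 0.857) 4 (by norm_num) (by norm_num) (by norm_num) (by norm_num))
    (exp_neg_leJ (r := 0.027) 9 (by norm_num) (by norm_num) (by norm_num) (by norm_num))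
    (exp_neg_leJ (r := 0.99) 14 (by norm_num) (by norm_num) (by norm_num) (by norm_num))
    (exp_neg_leJ (r := 0.659) 7 (by norm_num) (by norm_num) (by norm_num) (by norm_num))
    (exp_neg_leJ (r := 0.99) 14 (by norm_num) (by norm_num) (by norm_num) (by norm_num))
    (exp_neg_leJ (r := 0.99) 14 (by norm_num) (by norm_num) (by norm_num) (by norm_num))
    (exp_neg_leJ (r := 0.99) 14 (by norm_num) (by norm_num) (by norm_num) (by norm_num))
    (by norm_num)) (by norm_num) hN hβ.le (by norm_num)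

private theorem B5Cw_T4_1_0 {β x y : ℝ} (hβ : 0 < β) (hN : β * 19.999 ≤ 1) (hx1 : 0.3016 ≤ x) (hx2 : x ≤ 0.602)
    (hy1 : -0.36 ≤ y) (hy2 : y ≤ -0.1989) : ‖HH β (x + y * I) - 1‖ ≤ 0.12 := by
  refine le_epsJ (C := 2.3958) (N0 := 19.999) (J_boxp 0.3016 0.602 0.36 0 (-0.1989) 0.6668 0.7015 1.0021 1.8385 0.3994 4.4721 19.999 1.0521 4.535 1.621 0.8562 0.3333 0.2164 0.5432 2.5993 0.3048 0.9175 1.1953 3.4084 0.001276 0.01321 0.0000192 0.0000003101 0.002255 0.0000003101 0.0000003101 0.0000003101 2.3958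
    hβ hN hx1 hx2 hy1 hy2 (by norm_num) (by norm_num) (by linarith) (by norm_num) (by norm_num) (by norm_num) (by norm_num) (by norm_num) (by norm_num) (by norm_num) (by norm_num) (by norm_num) (by norm_num) (by norm_num) (by norm_num) (by norm_num) (by norm_num) (by norm_num) (by norm_num) (by norm_num) (by norm_num) (by norm_num) (by norm_num) (by norm_num)
    (cube_sqrt_geJ (s := 0.8057) (by norm_num) (by norm_num) (by norm_num) (by norm_num))
    (cube_sqrt_geJ (s := 0.9333) (by norm_num) (by norm_num) (by norm_num) (by norm_num))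
    (by norm_num) (by norm_num) (by norm_num) (by norm_num) (by norm_num) (by norm_num) (by norm_num) (by norm_num) (by norm_num) (by norm_num) (by norm_num) (by norm_num) (by norm_num) (by norm_num) (by norm_num) (by norm_num) (by norm_num) (by norm_num)
    (exp_neg_leJ (r := 0.665) 6 (by norm_num) (by norm_num) (by norm_num) (by norm_num))
    (exp_neg_leJ (r := 0.327) 4 (by norm_num) (by norm_num) (by norm_num) (by norm_num))
    (exp_neg_leJ (r := 0.863) 10 (by norm_num) (by norm_num) (by norm_num) (by norm_num))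
    (exp_neg_leJ (r := 0.99) 14 (by norm_num) (by norm_num) (by norm_num) (by norm_num))
    (exp_neg_leJ (r := 0.095) 6 (by norm_num) (by norm_num) (by norm_num) (by norm_num))
    (exp_neg_leJ (r := 0.99) 14 (by norm_num) (by norm_num) (by norm_num) (by norm_num))
    (exp_neg_leJ (r := 0.99) 14 (by norm_num) (by norm_num) (by norm_num) (by norm_num))
    (exp_neg_leJ (r := 0.99) 14 (by norm_num) (by norm_num) (by norm_num) (by norm_num))
    (by norm_num)) (by norm_num) hN hβ.le (by norm_num)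

private theorem B5Cw_T4_1_1 {β x y : ℝ} (hβ : 0 < β) (hN : β * 19.999 ≤ 1) (hx1 : 0.602 ≤ x) (hx2 : x ≤ 0.7743)
    (hy1 : -0.36 ≤ y) (hy2 : y ≤ -0.1989) : ‖HH β (x + y * I) - 1‖ ≤ 0.12 := by
  refine le_epsJ (C := 1.1896) (N0 := 19.999) (J_boxp 0.602 0.7743 0.36 0 (-0.1989) 0.8783 0.8539 1.1142 1.2824 0.4212 4.4721 19.999 0.9723 3.94 1.559 0.79 0.4391 0.2968 0.6461 2.505 0.4507 1.3335 1.7961 3.5949 0.0001539 0.002653 0.000002453 0.0000003101 0.0001219 0.0000003101 0.0000003101 0.0000003101 1.1896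
    hβ hN hx1 hx2 hy1 hy2 (by norm_num) (by norm_num) (by linarith) (by norm_num) (by norm_num) (by norm_num) (by norm_num) (by norm_num) (by norm_num) (by norm_num) (by norm_num) (by norm_num) (by norm_num) (by norm_num) (by norm_num) (by norm_num) (by norm_num) (by norm_num) (by norm_num) (by norm_num) (by norm_num) (by norm_num) (by norm_num) (by norm_num)
    (cube_sqrt_geJ (s := 0.8221) (by norm_num) (by norm_num) (by norm_num) (by norm_num))
    (cube_sqrt_geJ (s := 0.9385) (by norm_num) (by norm_num) (by norm_num) (by norm_num))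
    (by norm_num) (by norm_num) (by norm_num) (by norm_num) (by norm_num) (by norm_num) (by norm_num) (by norm_num) (by norm_num) (by norm_num) (by norm_num) (by norm_num) (by norm_num) (by norm_num) (by norm_num) (by norm_num) (by norm_num) (by norm_num)
    (exp_neg_leJ (r := 0.781) 8 (by norm_num) (by norm_num) (by norm_num) (by norm_num))
    (exp_neg_leJ (r := 0.935) 5 (by norm_num) (by norm_num) (by norm_num) (by norm_num))
    (exp_neg_leJ (r := 0.921) 12 (by norm_num) (by norm_num) (by norm_num) (by norm_num))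
    (exp_neg_leJ (r := 0.99) 14 (by norm_num) (by norm_num) (by norm_num) (by norm_num))
    (exp_neg_leJ (r := 0.013) 9 (by norm_num) (by norm_num) (by norm_num) (by norm_num))
    (exp_neg_leJ (r := 0.99) 14 (by norm_num) (by norm_num) (by norm_num) (by norm_num))
    (exp_neg_leJ (r := 0.99) 14 (by norm_num) (by norm_num) (by norm_num) (by norm_num))
    (exp_neg_leJ (r := 0.99) 14 (by norm_num) (by norm_num) (by norm_num) (by norm_num))
    (by norm_num)) (by norm_num) hN hβ.le (by norm_num)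

private theorem B5Cw_T4 {β x y : ℝ} (hβ : 0 < β) (hN : β * 19.999 ≤ 1) (hx1 : 0.3016 ≤ x) (hx2 : x ≤ 0.7743)
    (hy1 : (-0.4831) ≤ y) (hy2 : y ≤ (-0.1989)) : ‖HH β (x + y * I) - 1‖ ≤ 0.12 := by
  rcases le_total y (-0.36) with hyy | hyy
  · rcases le_total x 0.312 with hxx | hxx
    · exact B5Cw_T4_0_0 hβ hN (by linarith) (by linarith) (by linarith) (by linarith)
    rcases le_total x 0.335 with hxx | hxx
    · exact B5Cw_T4_0_1 hβ hN (by linarith) (by linarith) (by linarith) (by linarith)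
    rcases le_total x 0.382 with hxx | hxx
    · exact B5Cw_T4_0_2 hβ hN (by linarith) (by linarith) (by linarith) (by linarith)
    rcases le_total x 0.467 with hxx | hxx
    · exact B5Cw_T4_0_3 hβ hN (by linarith) (by linarith) (by linarith) (by linarith)
    rcases le_total x 0.601 with hxx | hxx
    · exact B5Cw_T4_0_4 hβ hN (by linarith) (by linarith) (by linarith) (by linarith)
    exact B5Cw_T4_0_5 hβ hN (by linarith) (by linarith) (by linarith) (by linarith)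
  rcases le_total x 0.602 with hxx | hxx
  · exact B5Cw_T4_1_0 hβ hN (by linarith) (by linarith) (by linarith) (by linarith)
  exact B5Cw_T4_1_1 hβ hN (by linarith) (by linarith) (by linarith) (by linarith)

private theorem B5Cw_C5 {β r t κ : ℝ} (hβ : 0 < β) (hr : 10 ≤ r) (hκ : κ = β * r) (hk1 : 0.42 ≤ κ) (hk2 : κ ≤ 0.5) (hta : 1.822 ≤ t + κ)
    (htb : t + κ ≤ 1.9727) : ‖F (cexp (I * β)) (r * cexp (I * ((t + β / 2 : ℝ) : ℂ)))‖ ≤
      5.0736 * Real.exp (r * (0.28 + 1 / 20)) :=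
  v5_UD 0.42 0.5 1.822 1.9727 0.28 0.6156 0.28 2.6451 5.0736 hβ hr hκ (by norm_num) hk1 hk2 hta htb (by norm_num) (by norm_num) (by norm_num) (by norm_num) (by norm_num) (by norm_num) (by norm_num) (by norm_num) (by norm_num) (by norm_num) (by norm_num)

private theorem B5Cw_G6 {κ : ℝ} (hk1 : 0.42 ≤ κ) (hk2 : κ ≤ 0.5) : gG κ (-0.71) ≤ 1.25248 ∧ 1.81556 ≤ Real.exp (-(κ * (-0.71))) ^ 2 := by
  refine ⟨gG_le (-0.71) 0.42 0.5 1.25248 1.34744 1.42619 0.74216 0.70118 hk1 hk2 (by norm_num)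
    (ex_up 0.2982 (by norm_num) (by norm_num) (by norm_num) (by norm_num)) (ex_up 0.355 (by norm_num) (by norm_num) (by norm_num) (by norm_num))
    (ex_um 0.2982 (by norm_num) (by norm_num) (by norm_num) (by norm_num)) (ex_um 0.355 (by norm_num) (by norm_num) (by norm_num) (by norm_num))
    (by norm_num) (by norm_num), ?_⟩
  exact v5_M 1.34743 (ex_lp 0.2982 (by linarith) (by norm_num) (by norm_num)) (by norm_num) (by norm_num)

private theorem B5Cw_C7 {β r t κ : ℝ} (hβ : 0 < β) (hr : 10 ≤ r) (hκ : κ = β * r) (hk1 : 0.42 ≤ κ) (hk2 : κ ≤ 0.5) (hta : (-1.9479) ≤ t + κ)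
    (htb : t + κ ≤ (-1.7972)) : ‖F (cexp (I * β)) (r * cexp (I * ((t + β / 2 : ℝ) : ℂ)))‖ ≤
      1.766 * Real.exp (r * (1.25248 - (-0.71) * (t + κ))) + 2.0997 * Real.exp (r * 0.0501) :=
  v5_HU (-0.71) 0.42 0.5 (-1.9479) (-1.7972) 1.25248 1.766 1.81556 0.0893 1.1808 2.264 0 0.0501 0.00000175 2.0997 hβ hr hκ (by norm_num) hk1 hk2 hta htb (by norm_num) (by norm_num) (B5Cw_G6 hk1 hk2).1 (B5Cw_G6 hk1 hk2).2 (by norm_num) (by norm_num) (by norm_num)
    (by norm_num) (by norm_num) (by norm_num) (by norm_num) (by norm_num) (by norm_num) (by norm_num)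
    (by norm_num) (by norm_num) (by norm_num) (v5_hump 6.65 19.999 4.4721 0.0000009316 0.00000175 hβ hr hκ hk1 hk2 (by norm_num) htb (by norm_num) (by norm_num) (by norm_num) (by norm_num) (by norm_num) (by norm_num) (by norm_num) (ex_un 13 0.9 (by norm_num) (by norm_num) (by norm_num) (by norm_num)) (by norm_num)) (by norm_num)

private theorem B5Cw_C8 {β r t κ : ℝ} (hβ : 0 < β) (hr : 10 ≤ r) (hκ : κ = β * r) (hk1 : 0.42 ≤ κ) (hk2 : κ ≤ 0.5) (hta : 3.0786 ≤ t + κ)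
    (htb : t + κ ≤ 3.2293) : ‖F (cexp (I * β)) (r * cexp (I * ((t + β / 2 : ℝ) : ℂ)))‖ ≤
      2.9205 * Real.exp (r * (0.01 + 1 / 20)) :=
  v5_UD 0.42 0.5 3.0786 3.2293 0.01 0.6156 0.01 1.5226 2.9205 hβ hr hκ (by norm_num) hk1 hk2 hta htb (by norm_num) (by norm_num) (by norm_num) (by norm_num) (by norm_num) (by norm_num) (by norm_num) (by norm_num) (by norm_num) (by norm_num) (by norm_num)

private theorem B5Cw_Y9 {β r t κ h t' : ℝ} (hβ : 0 < β) (hκ : κ = β * r) (hN : β * 19.999 ≤ 1) (hk1 : 0.42 ≤ κ) (hk2 : κ ≤ 0.5)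
    (ht : t' = t + (((1 : ℤ) : ℝ) - 1) * h) (hD : DomR κ t') (hta : 0.5654 ≤ t' + κ) (htb : t' + κ ≤ 0.666) :
    0.8659 * Real.exp (r * sE κ t') ≤ ‖Xf β r h t 1‖ := by
  obtain ⟨⟨ya, yb⟩, ⟨xa, xb⟩, n1, Da, Db⟩ := B5Cw_B1 hD hk1 hk2 hta htb
  have J := B5Cw_T3 (x := sx κ t') (y := sy κ t') hβ hN (by linarith only [xa, xb, ya, yb]) (by linarith only [xa, xb, ya, yb]) (by linarith only [xa, xb, ya, yb]) (by linarith only [xa, xb, ya, yb])
  exact v5_Jlo hβ hκ (k := 1) ht hD 0.03 1.5743 0.8659 (by norm_num) J Db (by norm_num)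

private theorem B5Cw_Y10 {β r t κ h t' : ℝ} (hβ : 0 < β) (hκ : κ = β * r) (hN : β * 19.999 ≤ 1) (hk1 : 0.42 ≤ κ) (hk2 : κ ≤ 0.5)
    (ht : t' = t + (((0 : ℤ) : ℝ) - 1) * h) (hD : DomR κ t') (hta : (-0.6913) ≤ t' + κ) (htb : t' + κ ≤ (-0.5906)) :
    0.9088 * Real.exp (r * sE κ t') ≤ ‖Xf β r h t 0‖ := by
  obtain ⟨⟨ya, yb⟩, ⟨xa, xb⟩, n1, Da, Db⟩ := B5Cw_B2 hD hk1 hk2 hta htb
  have J := B5Cw_T4 (x := sx κ t') (y := sy κ t') hβ hN (by linarith only [xa, xb, ya, yb]) (by linarith only [xa, xb, ya, yb]) (by linarith only [xa, xb, ya, yb]) (by linarith only [xa, xb, ya, yb])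
  exact v5_Jlo hβ hκ (k := 0) ht hD 0.12 0.8788 0.9088 (by norm_num) J Db (by norm_num)

private theorem B5Cw_V11 {κ t : ℝ} (hD : DomR κ t) (hk1 : 0.42 ≤ κ) (hk2 : κ ≤ 0.5) (hta : 0.5654 ≤ t + κ) (htb : t + κ ≤ 0.666) :
    1.13884 - 0.4713 * (t + κ) ≤ sE κ t := by
  have hκ0 : 0 < κ := hD.1
  exact v5_V1 hD 0.42 0.5 0.5654 0.666 0.0537 0.19481 0.19765 1.13884 0.4713 (by norm_num) hk1 hk2 (by norm_num) (by norm_num) hta htb (by norm_num) (clo5 0.42 0.5 0.19765 (by norm_num) hk1 hk2 (by norm_num) (by norm_num) (by norm_num))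
      ((cup1 0.5 hκ0.le hk2 (by norm_num)).trans (by norm_num)) (by norm_num) (by norm_num) (by norm_num) (by norm_num) (by norm_num) (by norm_num)

private theorem B5Cw_V12 {κ t : ℝ} (hD : DomR κ t) (hk1 : 0.42 ≤ κ) (hk2 : κ ≤ 0.5) (hta : (-0.6913) ≤ t + κ) (htb : t + κ ≤ (-0.5906)) :
    1.22744 + 0.7141 * (t + κ) ≤ sE κ t := by
  have hκ0 : 0 < κ := hD.1
  exact v5_V0 hD 0.42 0.5 (-0.6913) (-0.5906) 0.6914 0.6553 0.1656 0.03839 0.61424 0.42503 1.22744 0.7141 (by norm_num) hk1 hk2 (by norm_num) hta htb (by norm_num) (by norm_num) (by norm_num) ((cup1 0.5 hκ0.le hk2 (by norm_num)).trans (by norm_num))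
      (by norm_num) (by norm_num) (by norm_num) (by norm_num) (by norm_num) (by norm_num) (by norm_num) (by norm_num) (by norm_num) (by norm_num) (by norm_num) (by norm_num) (by norm_num)

private theorem B5Cw_S13 {β r t κ h t' : ℝ} (hβ : 0 < β) (hκ : κ = β * r) (hN : β * 19.999 ≤ 1) (hk1 : 0.42 ≤ κ) (hk2 : κ ≤ 0.5)
    (ht : t' = t + (((1 : ℤ) : ℝ) - 1) * h) (hD : DomR κ t') (hta : 0.5654 ≤ t' + κ) (htb : t' + κ ≤ 0.666) :
    Xf β r h t 1 ≠ 0 ∧ |(Ld β r h t 1).im - (sy κ t' / β + sx κ t' / sD κ t' * ((1 + sy κ t') / sD κ t' - 1 / 2))| ≤ 0.0915 ∧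
      ‖Ld β r h t 1 - sg κ t' / β‖ ≤ 0.239 ∧ -0.0001 ≤ sx κ t' / sD κ t' * ((1 + sy κ t') / sD κ t' - 1 / 2) ∧
      (0.159 ≤ sy κ t' ∧ sy κ t' ≤ 0.204) ∧ (0.275 ≤ sx κ t' ∧ sx κ t' ≤ 0.3958) := by
  obtain ⟨⟨y1, y2⟩, ⟨x1, x2⟩, n1, Da, Db⟩ := B5Cw_B1 hD hk1 hk2 hta htb
  have hd := v5_disc (β := β) (κ := κ) (t := t') (ε := 0.03) 0.12 0.1549 0.5159 0.0389 0.3241 0.275 0.3958 0.159 0.204
    (fun x y g1 g2 g3 g4 => B5Cw_T3 hβ hN g1 g2 g3 g4) x1 x2 y1 y2 (by norm_num) (by norm_num) (by norm_num) (by norm_num)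
  obtain ⟨nz, im, nL⟩ := v5_slope (h := h) (t := t) (k := 1) 0.12 0.03 0.4266 1.4463 0.2578 0.0915 hβ hκ ht hD (by norm_num) (by norm_num) (by linarith only [y1]) hd n1 (by norm_num) Da (by norm_num) (by norm_num) (by norm_num) (by norm_num)
  have ex := ex_lo hD 0.4266 1.4463 1.5743 0.159 0 0.0001 n1 (by norm_num) Da Db y1 (by norm_num) (by norm_num) (by norm_num) (by norm_num)
  exact ⟨nz, im, nL.trans (by norm_num), ex, ⟨y1, y2⟩, x1, x2⟩

private theorem B5Cw_S14 {β r t κ h t' : ℝ} (hβ : 0 < β) (hκ : κ = β * r) (hN : β * 19.999 ≤ 1) (hk1 : 0.42 ≤ κ) (hk2 : κ ≤ 0.5)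
    (ht : t' = t + (((0 : ℤ) : ℝ) - 1) * h) (hD : DomR κ t') (hta : (-0.6913) ≤ t' + κ) (htb : t' + κ ≤ (-0.5906)) :
    Xf β r h t 0 ≠ 0 ∧ |(Ld β r h t 0).im - (sy κ t' / β + sx κ t' / sD κ t' * ((1 + sy κ t') / sD κ t' - 1 / 2))| ≤ 1.662 ∧
      ‖Ld β r h t 0 - sg κ t' / β‖ ≤ 2.2973 ∧ sx κ t' / sD κ t' * ((1 + sy κ t') / sD κ t' - 1 / 2) ≤ 0.9204 ∧
      ((-0.403) ≤ sy κ t' ∧ sy κ t' ≤ (-0.279)) ∧ (0.3817 ≤ sx κ t' ∧ sx κ t' ≤ 0.6942) := by
  obtain ⟨⟨y1, y2⟩, ⟨x1, x2⟩, n1, Da, Db⟩ := B5Cw_B2 hD hk1 hk2 hta htb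
  have hd := v5_disc (β := β) (κ := κ) (t := t') (ε := 0.12) 0.08 0.3016 0.7743 (-0.4831) (-0.1989) 0.3817 0.6942 (-0.403) (-0.279)
    (fun x y g1 g2 g3 g4 => B5Cw_T4 hβ hN g1 g2 g3 g4) x1 x2 y1 y2 (by norm_num) (by norm_num) (by norm_num) (by norm_num)
  obtain ⟨nz, im, nL⟩ := v5_slope (h := h) (t := t) (k := 0) 0.08 0.12 0.7482 0.5889 1.7046 1.662 hβ hκ ht hD (by norm_num) (by norm_num) (by linarith only [y1]) hd n1 (by norm_num) Da (by norm_num) (by norm_num) (by norm_num) (by norm_num)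
  have ex := ex_hi hD 0.7482 0.5889 (-0.279) 0.7244 0.9204 n1 (by norm_num) Da y2 (by norm_num) (by norm_num) (by norm_num) (by norm_num)
  exact ⟨nz, im, nL.trans (by norm_num), ex, ⟨y1, y2⟩, x1, x2⟩

private theorem B5Cw_L15 {β r κ t1 t0 : ℝ} {L0 L1 : ℂ} (hβ : 0 < β) (hr : 10 ≤ r) (hκ : κ = β * r) (hk1 : 0.42 ≤ κ)
    (nA0 : ‖L0 - sg κ t0 / β‖ ≤ 2.2973) (nA1 : ‖L1 - sg κ t1 / β‖ ≤ 0.239)
    (y0 : (-0.403) ≤ sy κ t0 ∧ sy κ t0 ≤ (-0.279)) (x0 : 0.3817 ≤ sx κ t0 ∧ sx κ t0 ≤ 0.6942)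
    (y1 : 0.159 ≤ sy κ t1 ∧ sy κ t1 ≤ 0.204) (x1 : 0.275 ≤ sx κ t1 ∧ sx κ t1 ≤ 0.3958) :
    ‖(1 : ℂ) * L0 + (-2 : ℂ) * L1‖ ≤ r * 2.4416 := by
  obtain ⟨y0a, y0b⟩ := y0
  obtain ⟨x0a, x0b⟩ := x0
  obtain ⟨y1a, y1b⟩ := y1
  obtain ⟨x1a, x1b⟩ := x1
  have hN := v5_cN (κ := κ) (t1 := t1) (t0 := t0) 1 (-2) 0.41 0.8111 0.9089 (abs_le.2 ⟨by linarith only [x0a, x0b, x1a, x1b], by linarith only [x0a, x0b, x1a, x1b]⟩)
    (abs_le.2 ⟨by linarith only [y0a, y0b, y1a, y1b], by linarith only [y0a, y0b, y1a, y1b]⟩) (by norm_num) (by norm_num)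
  have h1 := v5_comb 1 (-2) 0.42 2.2973 0.239 0.9089 2.4416 hβ hr hκ (by norm_num) hk1 nA0 nA1 hN (by norm_num [abs_of_neg, abs_of_pos])
  norm_num at h1 ⊢
  exact h1

private theorem B5Cw_L16 {β r κ t1 t0 : ℝ} {L0 L1 : ℂ} (hβ : 0 < β) (hr : 10 ≤ r) (hκ : κ = β * r) (hk1 : 0.42 ≤ κ)
    (nA0 : ‖L0 - sg κ t0 / β‖ ≤ 2.2973) (nA1 : ‖L1 - sg κ t1 / β‖ ≤ 0.239)
    (y0 : (-0.403) ≤ sy κ t0 ∧ sy κ t0 ≤ (-0.279)) (x0 : 0.3817 ≤ sx κ t0 ∧ sx κ t0 ≤ 0.6942)
    (y1 : 0.159 ≤ sy κ t1 ∧ sy κ t1 ≤ 0.204) (x1 : 0.275 ≤ sx κ t1 ∧ sx κ t1 ≤ 0.3958) :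
    ‖(-2 : ℂ) * L0 + (1 : ℂ) * L1‖ ≤ r * 4.0629 := by
  obtain ⟨y0a, y0b⟩ := y0
  obtain ⟨x0a, x0b⟩ := x0
  obtain ⟨y1a, y1b⟩ := y1
  obtain ⟨x1a, x1b⟩ := x1
  have hN := v5_cN (κ := κ) (t1 := t1) (t0 := t0) (-2) 1 1.1135 1.0101 1.5034 (abs_le.2 ⟨by linarith only [x0a, x0b, x1a, x1b], by linarith only [x0a, x0b, x1a, x1b]⟩)
    (abs_le.2 ⟨by linarith only [y0a, y0b, y1a, y1b], by linarith only [y0a, y0b, y1a, y1b]⟩) (by norm_num) (by norm_num)
  have h1 := v5_comb (-2) 1 0.42 2.2973 0.239 1.5034 4.0629 hβ hr hκ (by norm_num) hk1 nA0 nA1 hN (by norm_num [abs_of_neg, abs_of_pos])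
  norm_num at h1 ⊢
  exact h1

private theorem B5Cw_L17 {β r κ t1 t0 : ℝ} {L0 L1 : ℂ} (hβ : 0 < β) (hr : 10 ≤ r) (hκ : κ = β * r) (hk1 : 0.42 ≤ κ)
    (nA0 : ‖L0 - sg κ t0 / β‖ ≤ 2.2973) (nA1 : ‖L1 - sg κ t1 / β‖ ≤ 0.239)
    (y0 : (-0.403) ≤ sy κ t0 ∧ sy κ t0 ≤ (-0.279)) (x0 : 0.3817 ≤ sx κ t0 ∧ sx κ t0 ≤ 0.6942)
    (y1 : 0.159 ≤ sy κ t1 ∧ sy κ t1 ≤ 0.204) (x1 : 0.275 ≤ sx κ t1 ∧ sx κ t1 ≤ 0.3958) :
    ‖(-3 : ℂ) * L0 + (2 : ℂ) * L1‖ ≤ r * 6.042 := by
  obtain ⟨y0a, y0b⟩ := y0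
  obtain ⟨x0a, x0b⟩ := x0
  obtain ⟨y1a, y1b⟩ := y1
  obtain ⟨x1a, x1b⟩ := x1
  have hN := v5_cN (κ := κ) (t1 := t1) (t0 := t0) (-3) 2 1.5327 1.6171 2.2281 (abs_le.2 ⟨by linarith only [x0a, x0b, x1a, x1b], by linarith only [x0a, x0b, x1a, x1b]⟩)
    (abs_le.2 ⟨by linarith only [y0a, y0b, y1a, y1b], by linarith only [y0a, y0b, y1a, y1b]⟩) (by norm_num) (by norm_num)
  have h1 := v5_comb (-3) 2 0.42 2.2973 0.239 2.2281 6.042 hβ hr hκ (by norm_num) hk1 nA0 nA1 hN (by norm_num [abs_of_neg, abs_of_pos])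
  norm_num at h1 ⊢
  exact h1

private theorem B5Cw_K18 {β r t κ h : ℝ} (hβ : 0 < β) (hr : 10 ≤ r) (hκ : κ = β * r) (hk1 : 0.42 ≤ κ) (hk2 : κ ≤ 0.5)
    (hh : h = 2 * Real.pi / 5) (hh1 : 1.25663 ≤ h) (hh2 : h ≤ 1.25664) (hta : 0.5654 ≤ t + κ) (htb : t + κ ≤ 0.666)
    (hβ1 : β ≤ 0.05)
    (hY : 0.8659 * Real.exp (r * sE κ t) ≤ ‖Xf β r h t 1‖) (hV : 1.13884 - 0.4713 * (t + κ) ≤ sE κ t) :
    ‖Xf β r h t 2‖ ≤ 0.0423 * ‖Xf β r h t 1‖ ∧ ‖Xf β r h (t + β) 2‖ ≤ 0.0423 * ‖Xf β r h t 1‖ := by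
  constructor
  · rw [v5_X 2 1 (by push_cast; ring)]
    exact v5_cmp0 0.4949 0.007207 0.0423 hr (B5Cw_C5 (t := t + 1 * h) hβ hr hκ hk1 hk2 (by linarith only [hta, htb, hh1, hh2, hβ, hβ1]) (by linarith only [hta, htb, hh1, hh2, hβ, hβ1])) hY (by norm_num) (by norm_num) (by norm_num) (by linarith only [hV, hta, htb, hh1, hh2]) (ex_un 4 0.9489 (by norm_num) (by norm_num) (by norm_num) (by norm_num)) (by norm_num)
  · rw [v5_X 2 1 (by push_cast; ring)]
    exact v5_cmp0 0.4949 0.007207 0.0423 hr (B5Cw_C5 (t := t + β + 1 * h) hβ hr hκ hk1 hk2 (by linarith only [hta, htb, hh1, hh2, hβ, hβ1]) (by linarith only [hta, htb, hh1, hh2, hβ, hβ1])) hY (by norm_num) (by norm_num) (by norm_num) (by linarith only [hV, hta, htb, hh1, hh2]) (ex_un 4 0.9489 (by norm_num) (by norm_num) (by norm_num) (by norm_num)) (by norm_num)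

private theorem B5Cw_K19 {β r t κ h : ℝ} (hβ : 0 < β) (hr : 10 ≤ r) (hκ : κ = β * r) (hk1 : 0.42 ≤ κ) (hk2 : κ ≤ 0.5)
    (hh : h = 2 * Real.pi / 5) (hh1 : 1.25663 ≤ h) (hh2 : h ≤ 1.25664) (hta : 0.5654 ≤ t + κ) (htb : t + κ ≤ 0.666)
    (hβ1 : β ≤ 0.05)
    (hY : 0.9088 * Real.exp (r * sE κ (t - h)) ≤ ‖Xf β r h t 0‖) (hV : 1.22744 + 0.7141 * (t - h + κ) ≤ sE κ (t - h)) :
    ‖Xf β r h t (-1)‖ ≤ 0.00286 * ‖Xf β r h t 0‖ ∧ ‖Xf β r h (t + β) (-1)‖ ≤ 0.00301 * ‖Xf β r h t 0‖ := by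
  constructor
  · rw [v5_X (-1) (-2) (by push_cast; ring)]
    exact v5_cmp 0.8643 0.0001772 0.000345 0.6837 0.001085 0.00251 0.00286 hr (B5Cw_C7 (t := t + (-2) * h) hβ hr hκ hk1 hk2 (by linarith only [hta, htb, hh1, hh2, hβ, hβ1]) (by linarith only [hta, htb, hh1, hh2, hβ, hβ1])) hY (by norm_num) (by norm_num) (by norm_num) (by norm_num) (by linarith only [hV, hta, htb, hh1, hh2]) (ex_un 8 0.6429 (by norm_num) (by norm_num) (by norm_num) (by norm_num)) (by norm_num) (by norm_num) (by linarith only [hV, hta, htb, hh1, hh2]) (ex_un 6 0.8369 (by norm_num) (by norm_num) (by norm_num) (by norm_num)) (by norm_num) (by norm_num)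
  · rw [v5_X (-1) (-2) (by push_cast; ring)]
    have h1 := B5Cw_C7 (t := t + β + (-2) * h) hβ hr hκ hk1 hk2 (by linarith only [hta, htb, hh1, hh2, hβ, hβ1]) (by linarith only [hta, htb, hh1, hh2, hβ, hβ1])
    rw [show t + β + (-2) * h + κ = (t + (-2) * h + κ) + β by ring] at h1
    exact v5_cmpS 1.42619 0.8643 0.0001772 0.000492 0.6837 0.001085 0.00251 0.00301 hr hκ h1 hY (by norm_num) (by norm_num) (by norm_num) (ex_up 0.355 (by linarith only [hk1, hk2]) (by norm_num) (by norm_num) (by norm_num)) (by norm_num) (by linarith only [hV, hta, htb, hh1, hh2]) (ex_un 8 0.6429 (by norm_num) (by norm_num) (by norm_num) (by norm_num)) (by norm_num) (by norm_num) (by linarith only [hV, hta, htb, hh1, hh2]) (ex_un 6 0.8369 (by norm_num) (by norm_num) (by norm_num) (by norm_num)) (by norm_num) (by norm_num)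

private theorem B5Cw_K20 {β r t κ h : ℝ} (hβ : 0 < β) (hr : 10 ≤ r) (hκ : κ = β * r) (hk1 : 0.42 ≤ κ) (hk2 : κ ≤ 0.5)
    (hh : h = 2 * Real.pi / 5) (hh1 : 1.25663 ≤ h) (hh2 : h ≤ 1.25664) (hta : 0.5654 ≤ t + κ) (htb : t + κ ≤ 0.666)
    (hβ1 : β ≤ 0.05)
    (hY : 0.9088 * Real.exp (r * sE κ (t - h)) ≤ ‖Xf β r h t 0‖) (hV : 1.22744 + 0.7141 * (t - h + κ) ≤ sE κ (t - h)) :
    ‖Xf β r h t (-2)‖ ≤ 0.00384 * ‖Xf β r h t 0‖ ∧ ‖Xf β r h (t + β) (-2)‖ ≤ 0.00384 * ‖Xf β r h t 0‖ := by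
  constructor
  · rw [v5_Xm2 hh]
    exact v5_cmp0 0.6738 0.001194 0.00384 hr (B5Cw_C8 (t := t + 2 * h) hβ hr hκ hk1 hk2 (by linarith only [hta, htb, hh1, hh2, hβ, hβ1]) (by linarith only [hta, htb, hh1, hh2, hβ, hβ1])) hY (by norm_num) (by norm_num) (by norm_num) (by linarith only [hV, hta, htb, hh1, hh2]) (ex_un 6 0.7379 (by norm_num) (by norm_num) (by norm_num) (by norm_num)) (by norm_num)
  · rw [v5_Xm2 hh]
    exact v5_cmp0 0.6738 0.001194 0.00384 hr (B5Cw_C8 (t := t + β + 2 * h) hβ hr hκ hk1 hk2 (by linarith only [hta, htb, hh1, hh2, hβ, hβ1]) (by linarith only [hta, htb, hh1, hh2, hβ, hβ1])) hY (by norm_num) (by norm_num) (by norm_num) (by linarith only [hV, hta, htb, hh1, hh2]) (ex_un 6 0.7379 (by norm_num) (by norm_num) (by norm_num) (by norm_num)) (by norm_num)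

theorem B5Cw_W21 {β r t κ h : ℝ} (hβ : 0 < β) (hr : 10 ≤ r) (hκ : κ = β * r) (hk1 : 0.42 ≤ κ) (hk2 : κ ≤ 0.5)
    (hh : h = 2 * Real.pi / 5) (hta : 0.5654 ≤ t + κ) (htb : t + κ ≤ 0.666) :
    Xf β r h t 0 ≠ 0 ∧
    (‖Xf β r h t 2‖ ≤ 0.0424 * ‖Xf β r h t 1‖ ∧ ‖Xf β r h t (-1)‖ ≤ 0.00286 * ‖Xf β r h t 0‖ ∧
      ‖Xf β r h t (-2)‖ ≤ 0.00385 * ‖Xf β r h t 0‖) ∧
    (r * ‖Xf β r h (t + β) 2‖ + ‖Xf β r h t 2‖ * ‖(1 : ℂ) * Ld β r h t 0 + (-2 : ℂ) * Ld β r h t 1‖ ≤
        r * 0.146 * ‖Xf β r h t 1‖ ∧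
      r * ‖Xf β r h (t + β) (-1)‖ + ‖Xf β r h t (-1)‖ * ‖(-2 : ℂ) * Ld β r h t 0 + (1 : ℂ) * Ld β r h t 1‖ ≤
        r * 0.0147 * ‖Xf β r h t 0‖ ∧
      r * ‖Xf β r h (t + β) (-2)‖ + ‖Xf β r h t (-2)‖ * ‖(-3 : ℂ) * Ld β r h t 0 + (2 : ℂ) * Ld β r h t 1‖ ≤
        r * 0.0272 * ‖Xf β r h t 0‖) ∧
    r * 0.6085 ≤ (Ld β r h t 1 - Ld β r h t 0).im := by
  obtain ⟨hh1, hh2⟩ := v5_h hh
  have hκ0 : 0 < κ := by linarith only [hk1]
  have hN : β * 19.999 ≤ 1 := v5_hN 0.5 19.999 hβ hr hκ hk2 (by norm_num) (by norm_num)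
  have hD1 : DomR κ t := v5_dom hκ0 (by linarith only [hta, htb, hk1, hk2, hh1, hh2]) (Or.inr (by linarith only [hta, htb, hk1, hk2, hh1, hh2]))
  have hD0 : DomR κ (t - h) := v5_dom hκ0 (by linarith only [hta, htb, hk1, hk2, hh1, hh2]) (Or.inr (by linarith only [hta, htb, hk1, hk2, hh1, hh2]))
  have hβ1 : β ≤ 0.05 := by
    have := mul_le_mul_of_nonneg_left hr hβ.le
    linarith only [this, hκ, hk2]
  have h0a : (-0.6913) ≤ t - h + κ := by linarith only [hta, htb, hh1, hh2]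
  have h0b : t - h + κ ≤ (-0.5906) := by linarith only [hta, htb, hh1, hh2]
  have e1 : t = t + (((1 : ℤ) : ℝ) - 1) * h := by push_cast; ring
  have e0 : t - h = t + (((0 : ℤ) : ℝ) - 1) * h := by push_cast; ring
  have hY1 := B5Cw_Y9 (h := h) hβ hκ hN hk1 hk2 e1 hD1 hta htb
  have hY0 := B5Cw_Y10 (h := h) hβ hκ hN hk1 hk2 e0 hD0 h0a h0b
  have hV1 := B5Cw_V11 hD1 hk1 hk2 hta htb
  have hV0 := B5Cw_V12 hD0 hk1 hk2 h0a h0b
  obtain ⟨nz1, im1, nA1, ex1, y1, x1⟩ := B5Cw_S13 (h := h) hβ hκ hN hk1 hk2 e1 hD1 hta htb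
  obtain ⟨nz0, im0, nA0, ex0, y0, x0⟩ := B5Cw_S14 (h := h) hβ hκ hN hk1 hk2 e0 hD0 h0a h0b
  obtain ⟨cp2, dp2⟩ := B5Cw_K18 hβ hr hκ hk1 hk2 hh hh1 hh2 hta htb hβ1 hY1 hV1
  obtain ⟨cm1, dm1⟩ := B5Cw_K19 hβ hr hκ hk1 hk2 hh hh1 hh2 hta htb hβ1 hY0 hV0
  obtain ⟨cm2, dm2⟩ := B5Cw_K20 hβ hr hκ hk1 hk2 hh hh1 hh2 hta htb hβ1 hY0 hV0
  have Lp2 := B5Cw_L15 hβ hr hκ hk1 nA0 nA1 y0 x0 y1 x1
  have Lm1 := B5Cw_L16 hβ hr hκ hk1 nA0 nA1 y0 x0 y1 x1
  have Lm2 := B5Cw_L17 hβ hr hκ hk1 nA0 nA1 y0 x0 y1 x1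
  have hm : r * 0.6085 ≤ (Ld β r h t 1 - Ld β r h t 0).im :=
    v5_m 0.5 0.159 0.279 0.0001 0.9204 0.0915 1.662 _ _ 0.6085 hβ hr hκ hk2 im1 im0 y1.1 (by linarith only [y0.2]) (by norm_num) ex1 ex0 (by norm_num) (by norm_num)
  have hr0 : 0 < r := by linarith only [hr]
  refine ⟨nz0, ⟨v5_emax _ cp2 (norm_nonneg _) (by norm_num), v5_emax _ cm1 (norm_nonneg _) (by norm_num), v5_emax _ cm2 (norm_nonneg _) (by norm_num)⟩, ⟨?_, ?_, ?_⟩, hm⟩
  · exact v5_W hr0 dp2 cp2 Lp2 (norm_nonneg _) (norm_nonneg _) (norm_nonneg _) (by norm_num)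
  · exact v5_W hr0 dm1 cm1 Lm1 (norm_nonneg _) (norm_nonneg _) (norm_nonneg _) (by norm_num)
  · exact v5_W hr0 dm2 cm2 Lm2 (norm_nonneg _) (norm_nonneg _) (norm_nonneg _) (by norm_num)

private theorem B5Cw_B22 {κ t : ℝ} (h : DomR κ t) (hk1 : 0.42 ≤ κ) (hk2 : κ ≤ 0.5) (ht1 : 0.666 ≤ t + κ) (ht2 : t + κ ≤ 0.7666) :
    (0.18 ≤ sy κ t ∧ sy κ t ≤ 0.226) ∧ (0.2472 ≤ sx κ t ∧ sx κ t ≤ 0.3769) ∧ κ * Real.exp (-sy κ t) ≤ 0.4177 ∧ 1.483 ≤ sD κ t ∧ sD κ t ≤ 1.6111 := by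
  have hy1 : 0.18 ≤ sy κ t := syR_ge h 0.42 0.5 0.666 0.18 1.19721 1.19722 0.43099 0.5131 hk1 hk2 (by linarith) (by norm_num) (by norm_num)
    (expn_ge (by norm_num) (by norm_num)) (expn_le (by norm_num) (by norm_num) (by norm_num)) (by norm_num)
    (by norm_num) (by norm_num) (by norm_num) (by norm_num) (by norm_num) (by norm_num)
  have hy2 : sy κ t ≤ 0.226 := syR_le h 0.42 0.5 0.7666 0.226 1.25357 0.5576 0.56661 0.67455 hk1 hk2 (by linarith) (by norm_num) (by norm_num)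
    (expn_ge (by norm_num) (by norm_num)) (by norm_num) (by norm_num) (Or.inr ((mul_le_mul_of_nonneg_left (expn_le (E := 1.25358) (by norm_num) (by norm_num) (by norm_num)) (by norm_num)).trans (by norm_num))) (by norm_num) (by norm_num) (by norm_num)
  have hy1' : 0.18 ≤ sy κ t := by linarith
  have hy2' : sy κ t ≤ 0.226 := by linarith
  have hx1 : 0.2472 ≤ sx κ t := sx_lo h 0.42 0.226 0.2261 0.79771 0.2472 hk1 (by norm_num) hy2' (abs_le.2 ⟨by linarith, by linarith⟩) (ex_lm 0.226 (by norm_num) (by norm_num) (by norm_num) (by norm_num) (by norm_num)) (by norm_num) (by norm_num)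
  have hx2 : sx κ t ≤ 0.3769 := sx_hi h 0.5 0.18 0.18 0.83528 0.3769 hk2 hy1' (by norm_num) (le_trans (by linarith) (le_abs_self _)) (ex_um 0.18 (by norm_num) (by norm_num) (by norm_num) (by norm_num)) (by norm_num) (by norm_num)
  refine ⟨⟨hy1', hy2'⟩, ⟨hx1, hx2⟩, v5_n h 0.5 0.18 0.83528 0.4177 hk2 hy1' (ex_um 0.18 (by norm_num) (by norm_num) (by norm_num) (by norm_num)) (by norm_num), ?_, ?_⟩
  · exact v5_Dlo h 0.42 0.18 0.226 0.18 0.83527 1.483 (by norm_num) hk1 hy1' hy2' (ex_lm 0.18 (by norm_num) (by norm_num) (by norm_num) (by norm_num) (by norm_num)) (by norm_num) (by norm_num) (by norm_num) (by norm_num)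
  · exact v5_Dup h 0.5 0.18 0.226 0.83528 0.79772 1.6111 hk2 hy1' hy2' (ex_um 0.18 (by norm_num) (by norm_num) (by norm_num) (by norm_num)) (ex_um 0.226 (by norm_num) (by norm_num) (by norm_num) (by norm_num)) (by norm_num) (by norm_num) (by norm_num)

private theorem B5Cw_B23 {κ t : ℝ} (h : DomR κ t) (hk1 : 0.42 ≤ κ) (hk2 : κ ≤ 0.5) (ht1 : (-0.5907) ≤ t + κ) (ht2 : t + κ ≤ (-0.49)) :
    ((-0.322) ≤ sy κ t ∧ sy κ t ≤ (-0.219)) ∧ (0.4118 ≤ sx κ t ∧ sx κ t ≤ 0.6543) ∧ κ * Real.exp (-sy κ t) ≤ 0.69 ∧ 0.6918 ≤ sD κ t ∧ sD κ t ≤ 0.9495 := by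
  have hy1 : -0.322 ≤ sy κ t := syL_ge h 0.42 0.5 0.5907 0.322 0.72469 0.7247 0.4444 0.4667 0.55561 hk1 hk2 (by linarith) (by norm_num) (by norm_num) (by norm_num)
    (expm_ge (by norm_num) (by norm_num) (by norm_num) (by norm_num)) (expm_le (by norm_num) (by norm_num) (by norm_num)) (by norm_num)
    (by norm_num) (by norm_num) (by norm_num) (by norm_num) (by norm_num) (by norm_num)
  have hy2 : sy κ t ≤ -0.219 := syL_le h 0.42 0.5 0.49 0.219 0.80332 0.80333 0.35185 0.41888 hk1 hk2 (by linarith) (by norm_num) (by norm_num) (by norm_num)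
    (expm_ge (by norm_num) (by norm_num) (by norm_num) (by norm_num)) (expm_le (by norm_num) (by norm_num) (by norm_num)) (by norm_num)
    (by norm_num) (by norm_num) (by norm_num) (by norm_num) (by norm_num) (by norm_num)
  have hy1' : (-0.322) ≤ sy κ t := by linarith
  have hy2' : sy κ t ≤ (-0.219) := by linarith
  have hx1 : 0.4118 ≤ sx κ t := sx_lo h 0.42 (-0.219) 0.3221 1.24483 0.4118 hk1 (by norm_num) hy2' (abs_le.2 ⟨by linarith, by linarith⟩) (ex_lp 0.219 (by norm_num) (by norm_num) (by norm_num)) (by norm_num) (by norm_num)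
  have hx2 : sx κ t ≤ 0.6543 := sx_hi h 0.5 (-0.322) 0.219 1.37989 0.6543 hk2 hy1' (by norm_num) (le_trans (by linarith) (neg_le_abs _)) (ex_up 0.322 (by norm_num) (by norm_num) (by norm_num) (by norm_num)) (by norm_num) (by norm_num)
  refine ⟨⟨hy1', hy2'⟩, ⟨hx1, hx2⟩, v5_n h 0.5 (-0.322) 1.37989 0.69 hk2 hy1' (ex_up 0.322 (by norm_num) (by norm_num) (by norm_num) (by norm_num)) (by norm_num), ?_, ?_⟩
  · exact v5_Dlo h 0.42 (-0.322) (-0.219) (-0.322) 1.37988 0.6918 (by norm_num) hk1 hy1' hy2' (ex_lp 0.322 (by norm_num) (by norm_num) (by norm_num)) (by norm_num) (by norm_num) (by norm_num) (by norm_num)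
  · exact v5_Dup h 0.5 (-0.322) (-0.219) 1.37989 1.24484 0.9495 hk2 hy1' hy2' (ex_up 0.322 (by norm_num) (by norm_num) (by norm_num) (by norm_num)) (ex_up 0.219 (by norm_num) (by norm_num) (by norm_num) (by norm_num)) (by norm_num) (by norm_num) (by norm_num)

private theorem B5Cw_T24_0_0 {β x y : ℝ} (hβ : 0 < β) (hN : β * 19.999 ≤ 1) (hx1 : 0.1471 ≤ x) (hx2 : x ≤ 0.477)
    (hy1 : -0 ≤ y) (hy2 : y ≤ 0.244) : ‖HH β (x + y * I) - 1‖ ≤ 0.03 := by
  refine le_epsJ (C := 0.5967) (N0 := 19.999) (J_boxp 0.1471 0.477 0 0.244 0.244 0.8136 0.5358 1.3324 1.5729 0.4605 4.4721 19.999 0.6586 2.382 1.343 1.2366 0.4067 0.3174 1.0586 3.8124 0.4015 0.6787 0.8183 2.4 0.0002937 0.001753 0.0000003101 0.0000003101 0.0003259 0.000001275 0.0000003101 0.0000003101 0.5967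
    hβ hN hx1 hx2 hy1 hy2 (by norm_num) (by norm_num) (by linarith) (by norm_num) (by norm_num) (by norm_num) (by norm_num) (by norm_num) (by norm_num) (by norm_num) (by norm_num) (by norm_num) (by norm_num) (by norm_num) (by norm_num) (by norm_num) (by norm_num) (by norm_num) (by norm_num) (by norm_num) (by norm_num) (by norm_num) (by norm_num) (by norm_num)
    (cube_sqrt_geJ (s := 0.8834) (by norm_num) (by norm_num) (by norm_num) (by norm_num))
    (cube_sqrt_geJ (s := 0.9588) (by norm_num) (by norm_num) (by norm_num) (by norm_num))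
    (by norm_num) (by norm_num) (by norm_num) (by norm_num) (by norm_num) (by norm_num) (by norm_num) (by norm_num) (by norm_num) (by norm_num) (by norm_num) (by norm_num) (by norm_num) (by norm_num) (by norm_num) (by norm_num) (by norm_num) (by norm_num)
    (exp_neg_leJ (r := 0.133) 8 (by norm_num) (by norm_num) (by norm_num) (by norm_num))
    (exp_neg_leJ (r := 0.347) 6 (by norm_num) (by norm_num) (by norm_num) (by norm_num))
    (exp_neg_leJ (r := 0.99) 14 (by norm_num) (by norm_num) (by norm_num) (by norm_num))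
    (exp_neg_leJ (r := 0.99) 14 (by norm_num) (by norm_num) (by norm_num) (by norm_num))
    (exp_neg_leJ (r := 0.029) 8 (by norm_num) (by norm_num) (by norm_num) (by norm_num))
    (exp_neg_leJ (r := 0.573) 13 (by norm_num) (by norm_num) (by norm_num) (by norm_num))
    (exp_neg_leJ (r := 0.99) 14 (by norm_num) (by norm_num) (by norm_num) (by norm_num))
    (exp_neg_leJ (r := 0.99) 14 (by norm_num) (by norm_num) (by norm_num) (by norm_num))
    (by norm_num)) (by norm_num) hN hβ.le (by norm_num)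

private theorem B5Cw_T24_1_0 {β x y : ℝ} (hβ : 0 < β) (hN : β * 19.999 ≤ 1) (hx1 : 0.1471 ≤ x) (hx2 : x ≤ 0.418)
    (hy1 : -0 ≤ y) (hy2 : y ≤ 0.3261) : ‖HH β (x + y * I) - 1‖ ≤ 0.03 := by
  refine le_epsJ (C := 0.5982) (N0 := 19.999) (J_boxp 0.1471 0.418 0 0.3261 0.3261 0.8136 0.5302 1.3905 1.6069 0.4705 4.4721 19.999 0.6517 2.357 1.338 1.2593 0.4067 0.3184 1.0586 3.8321 0.3932 0.6704 0.4662 2.0284 0.0002937 0.001718 0.0000003101 0.0000003101 0.0003855 0.000001505 0.00008935 0.0000003101 0.5982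
    hβ hN hx1 hx2 hy1 hy2 (by norm_num) (by norm_num) (by linarith) (by norm_num) (by norm_num) (by norm_num) (by norm_num) (by norm_num) (by norm_num) (by norm_num) (by norm_num) (by norm_num) (by norm_num) (by norm_num) (by norm_num) (by norm_num) (by norm_num) (by norm_num) (by norm_num) (by norm_num) (by norm_num) (by norm_num) (by norm_num) (by norm_num)
    (cube_sqrt_geJ (s := 0.8847) (by norm_num) (by norm_num) (by norm_num) (by norm_num))
    (cube_sqrt_geJ (s := 0.9592) (by norm_num) (by norm_num) (by norm_num) (by norm_num))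
    (by norm_num) (by norm_num) (by norm_num) (by norm_num) (by norm_num) (by norm_num) (by norm_num) (by norm_num) (by norm_num) (by norm_num) (by norm_num) (by norm_num) (by norm_num) (by norm_num) (by norm_num) (by norm_num) (by norm_num) (by norm_num)
    (exp_neg_leJ (r := 0.133) 8 (by norm_num) (by norm_num) (by norm_num) (by norm_num))
    (exp_neg_leJ (r := 0.367) 6 (by norm_num) (by norm_num) (by norm_num) (by norm_num))
    (exp_neg_leJ (r := 0.99) 14 (by norm_num) (by norm_num) (by norm_num) (by norm_num))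
    (exp_neg_leJ (r := 0.99) 14 (by norm_num) (by norm_num) (by norm_num) (by norm_num))
    (exp_neg_leJ (r := 0.863) 7 (by norm_num) (by norm_num) (by norm_num) (by norm_num))
    (exp_neg_leJ (r := 0.407) 13 (by norm_num) (by norm_num) (by norm_num) (by norm_num))
    (exp_neg_leJ (r := 0.323) 9 (by norm_num) (by norm_num) (by norm_num) (by norm_num))
    (exp_neg_leJ (r := 0.99) 14 (by norm_num) (by norm_num) (by norm_num) (by norm_num))
    (by norm_num)) (by norm_num) hN hβ.le (by norm_num)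

private theorem B5Cw_T24_1_1 {β x y : ℝ} (hβ : 0 < β) (hN : β * 19.999 ≤ 1) (hx1 : 0.418 ≤ x) (hx2 : x ≤ 0.477)
    (hy1 : -0 ≤ y) (hy2 : y ≤ 0.3261) : ‖HH β (x + y * I) - 1‖ ≤ 0.03 := by
  refine le_epsJ (C := 0.3141) (N0 := 19.999) (J_boxp 0.418 0.477 0 0.3261 0.3261 1.0043 0.5779 1.4093 1.1796 0.4737 4.4721 19.999 0.5755 2.108 1.292 1.2366 0.5021 0.4058 1.1513 3.801 0.5247 1.0455 1.008 2.4405 0.00004358 0.0002991 0.0000003101 0.0000003101 0.00002774 0.0000003101 0.0000003101 0.0000003101 0.3141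
    hβ hN hx1 hx2 hy1 hy2 (by norm_num) (by norm_num) (by linarith) (by norm_num) (by norm_num) (by norm_num) (by norm_num) (by norm_num) (by norm_num) (by norm_num) (by norm_num) (by norm_num) (by norm_num) (by norm_num) (by norm_num) (by norm_num) (by norm_num) (by norm_num) (by norm_num) (by norm_num) (by norm_num) (by norm_num) (by norm_num) (by norm_num)
    (cube_sqrt_geJ (s := 0.8989) (by norm_num) (by norm_num) (by norm_num) (by norm_num))
    (cube_sqrt_geJ (s := 0.9641) (by norm_num) (by norm_num) (by norm_num) (by norm_num))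
    (by norm_num) (by norm_num) (by norm_num) (by norm_num) (by norm_num) (by norm_num) (by norm_num) (by norm_num) (by norm_num) (by norm_num) (by norm_num) (by norm_num) (by norm_num) (by norm_num) (by norm_num) (by norm_num) (by norm_num) (by norm_num)
    (exp_neg_leJ (r := 0.041) 10 (by norm_num) (by norm_num) (by norm_num) (by norm_num))
    (exp_neg_leJ (r := 0.115) 8 (by norm_num) (by norm_num) (by norm_num) (by norm_num))
    (exp_neg_leJ (r := 0.99) 14 (by norm_num) (by norm_num) (by norm_num) (by norm_num))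
    (exp_neg_leJ (r := 0.99) 14 (by norm_num) (by norm_num) (by norm_num) (by norm_num))
    (exp_neg_leJ (r := 0.493) 10 (by norm_num) (by norm_num) (by norm_num) (by norm_num))
    (exp_neg_leJ (r := 0.99) 14 (by norm_num) (by norm_num) (by norm_num) (by norm_num))
    (exp_neg_leJ (r := 0.99) 14 (by norm_num) (by norm_num) (by norm_num) (by norm_num))
    (exp_neg_leJ (r := 0.99) 14 (by norm_num) (by norm_num) (by norm_num) (by norm_num))
    (by norm_num)) (by norm_num) hN hβ.le (by norm_num)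

private theorem B5Cw_T24 {β x y : ℝ} (hβ : 0 < β) (hN : β * 19.999 ≤ 1) (hx1 : 0.1471 ≤ x) (hx2 : x ≤ 0.477)
    (hy1 : 0.0799 ≤ y) (hy2 : y ≤ 0.3261) : ‖HH β (x + y * I) - 1‖ ≤ 0.03 := by
  rcases le_total y 0.244 with hyy | hyy
  · exact B5Cw_T24_0_0 hβ hN (by linarith) (by linarith) (by linarith) (by linarith)
  rcases le_total x 0.418 with hxx | hxx
  · exact B5Cw_T24_1_0 hβ hN (by linarith) (by linarith) (by linarith) (by linarith)
  exact B5Cw_T24_1_1 hβ hN (by linarith) (by linarith) (by linarith) (by linarith)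

private theorem B5Cw_T25_0_0 {β x y : ℝ} (hβ : 0 < β) (hN : β * 19.999 ≤ 1) (hx1 : 0.3117 ≤ x) (hx2 : x ≤ 0.322)
    (hy1 : -0.4221 ≤ y) (hy2 : y ≤ -0.159) : ‖HH β (x + y * I) - 1‖ ≤ 0.075 := by
  refine le_epsJ (C := 1.4962) (N0 := 19.999) (J_boxp 0.3117 0.322 0.4221 0 (-0.159) 0.6298 0.5309 0.9006 1.8988 0.3786 4.4721 19.999 0.843 3.173 1.465 0.9066 0.3148 0.2264 0.4487 2.5367 0.2758 0.9315 1.0467 3.8923 0.001846 0.01082 0.0001273 0.0000003101 0.004027 0.0000003101 0.0000003101 0.0000003101 1.4962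
    hβ hN hx1 hx2 hy1 hy2 (by norm_num) (by norm_num) (by linarith) (by norm_num) (by norm_num) (by norm_num) (by norm_num) (by norm_num) (by norm_num) (by norm_num) (by norm_num) (by norm_num) (by norm_num) (by norm_num) (by norm_num) (by norm_num) (by norm_num) (by norm_num) (by norm_num) (by norm_num) (by norm_num) (by norm_num) (by norm_num) (by norm_num)
    (cube_sqrt_geJ (s := 0.8479) (by norm_num) (by norm_num) (by norm_num) (by norm_num))
    (cube_sqrt_geJ (s := 0.9469) (by norm_num) (by norm_num) (by norm_num) (by norm_num))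
    (by norm_num) (by norm_num) (by norm_num) (by norm_num) (by norm_num) (by norm_num) (by norm_num) (by norm_num) (by norm_num) (by norm_num) (by norm_num) (by norm_num) (by norm_num) (by norm_num) (by norm_num) (by norm_num) (by norm_num) (by norm_num)
    (exp_neg_leJ (r := 0.295) 6 (by norm_num) (by norm_num) (by norm_num) (by norm_num))
    (exp_neg_leJ (r := 0.527) 4 (by norm_num) (by norm_num) (by norm_num) (by norm_num))
    (exp_neg_leJ (r := 0.973) 8 (by norm_num) (by norm_num) (by norm_num) (by norm_num))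
    (exp_neg_leJ (r := 0.99) 14 (by norm_num) (by norm_num) (by norm_num) (by norm_num))
    (exp_neg_leJ (r := 0.515) 5 (by norm_num) (by norm_num) (by norm_num) (by norm_num))
    (exp_neg_leJ (r := 0.99) 14 (by norm_num) (by norm_num) (by norm_num) (by norm_num))
    (exp_neg_leJ (r := 0.99) 14 (by norm_num) (by norm_num) (by norm_num) (by norm_num))
    (exp_neg_leJ (r := 0.99) 14 (by norm_num) (by norm_num) (by norm_num) (by norm_num))
    (by norm_num)) (by norm_num) hN hβ.le (by norm_num)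

private theorem B5Cw_T25_0_1 {β x y : ℝ} (hβ : 0 < β) (hN : β * 19.999 ≤ 1) (hx1 : 0.322 ≤ x) (hx2 : x ≤ 0.342)
    (hy1 : -0.4221 ≤ y) (hy2 : y ≤ -0.159) : ‖HH β (x + y * I) - 1‖ ≤ 0.075 := by
  refine le_epsJ (C := 1.4996) (N0 := 19.999) (J_boxp 0.322 0.342 0.4221 0 (-0.159) 0.637 0.5433 0.9079 1.8742 0.3802 4.4721 19.999 0.853 3.226 1.472 0.8989 0.3184 0.2279 0.4522 2.5272 0.2808 0.9458 1.0673 3.8792 0.001718 0.0105 0.0001183 0.0000003101 0.003645 0.0000003101 0.0000003101 0.0000003101 1.4996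
    hβ hN hx1 hx2 hy1 hy2 (by norm_num) (by norm_num) (by linarith) (by norm_num) (by norm_num) (by norm_num) (by norm_num) (by norm_num) (by norm_num) (by norm_num) (by norm_num) (by norm_num) (by norm_num) (by norm_num) (by norm_num) (by norm_num) (by norm_num) (by norm_num) (by norm_num) (by norm_num) (by norm_num) (by norm_num) (by norm_num) (by norm_num)
    (cube_sqrt_geJ (s := 0.8459) (by norm_num) (by norm_num) (by norm_num) (by norm_num))
    (cube_sqrt_geJ (s := 0.9463) (by norm_num) (by norm_num) (by norm_num) (by norm_num))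
    (by norm_num) (by norm_num) (by norm_num) (by norm_num) (by norm_num) (by norm_num) (by norm_num) (by norm_num) (by norm_num) (by norm_num) (by norm_num) (by norm_num) (by norm_num) (by norm_num) (by norm_num) (by norm_num) (by norm_num) (by norm_num)
    (exp_neg_leJ (r := 0.367) 6 (by norm_num) (by norm_num) (by norm_num) (by norm_num))
    (exp_neg_leJ (r := 0.557) 4 (by norm_num) (by norm_num) (by norm_num) (by norm_num))
    (exp_neg_leJ (r := 0.043) 9 (by norm_num) (by norm_num) (by norm_num) (by norm_num))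
    (exp_neg_leJ (r := 0.99) 14 (by norm_num) (by norm_num) (by norm_num) (by norm_num))
    (exp_neg_leJ (r := 0.615) 5 (by norm_num) (by norm_num) (by norm_num) (by norm_num))
    (exp_neg_leJ (r := 0.99) 14 (by norm_num) (by norm_num) (by norm_num) (by norm_num))
    (exp_neg_leJ (r := 0.99) 14 (by norm_num) (by norm_num) (by norm_num) (by norm_num))
    (exp_neg_leJ (r := 0.99) 14 (by norm_num) (by norm_num) (by norm_num) (by norm_num))
    (by norm_num)) (by norm_num) hN hβ.le (by norm_num)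

private theorem B5Cw_T25_0_2 {β x y : ℝ} (hβ : 0 < β) (hN : β * 19.999 ≤ 1) (hx1 : 0.342 ≤ x) (hx2 : x ≤ 0.377)
    (hy1 : -0.4221 ≤ y) (hy2 : y ≤ -0.159) : ‖HH β (x + y * I) - 1‖ ≤ 0.075 := by
  refine le_epsJ (C := 1.4961) (N0 := 19.999) (J_boxp 0.342 0.377 0.4221 0 (-0.159) 0.6511 0.566 0.9217 1.8274 0.3831 4.4721 19.999 0.8693 3.313 1.483 0.8854 0.3255 0.2312 0.459 2.5102 0.2905 0.9735 1.1073 3.8575 0.001491 0.009828 0.0001032 0.0000003101 0.003005 0.0000003101 0.0000003101 0.0000003101 1.4961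
    hβ hN hx1 hx2 hy1 hy2 (by norm_num) (by norm_num) (by linarith) (by norm_num) (by norm_num) (by norm_num) (by norm_num) (by norm_num) (by norm_num) (by norm_num) (by norm_num) (by norm_num) (by norm_num) (by norm_num) (by norm_num) (by norm_num) (by norm_num) (by norm_num) (by norm_num) (by norm_num) (by norm_num) (by norm_num) (by norm_num) (by norm_num)
    (cube_sqrt_geJ (s := 0.8427) (by norm_num) (by norm_num) (by norm_num) (by norm_num))
    (cube_sqrt_geJ (s := 0.9452) (by norm_num) (by norm_num) (by norm_num) (by norm_num))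
    (by norm_num) (by norm_num) (by norm_num) (by norm_num) (by norm_num) (by norm_num) (by norm_num) (by norm_num) (by norm_num) (by norm_num) (by norm_num) (by norm_num) (by norm_num) (by norm_num) (by norm_num) (by norm_num) (by norm_num) (by norm_num)
    (exp_neg_leJ (r := 0.509) 6 (by norm_num) (by norm_num) (by norm_num) (by norm_num))
    (exp_neg_leJ (r := 0.623) 4 (by norm_num) (by norm_num) (by norm_num) (by norm_num))
    (exp_neg_leJ (r := 0.179) 9 (by norm_num) (by norm_num) (by norm_num) (by norm_num))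
    (exp_neg_leJ (r := 0.99) 14 (by norm_num) (by norm_num) (by norm_num) (by norm_num))
    (exp_neg_leJ (r := 0.809) 5 (by norm_num) (by norm_num) (by norm_num) (by norm_num))
    (exp_neg_leJ (r := 0.99) 14 (by norm_num) (by norm_num) (by norm_num) (by norm_num))
    (exp_neg_leJ (r := 0.99) 14 (by norm_num) (by norm_num) (by norm_num) (by norm_num))
    (exp_neg_leJ (r := 0.99) 14 (by norm_num) (by norm_num) (by norm_num) (by norm_num))
    (by norm_num)) (by norm_num) hN hβ.le (by norm_num)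

private theorem B5Cw_T25_0_3 {β x y : ℝ} (hβ : 0 < β) (hN : β * 19.999 ≤ 1) (hx1 : 0.377 ≤ x) (hx2 : x ≤ 0.435)
    (hy1 : -0.4221 ≤ y) (hy2 : y ≤ -0.159) : ‖HH β (x + y * I) - 1‖ ≤ 0.075 := by
  refine le_epsJ (C := 1.4992) (N0 := 19.999) (J_boxp 0.377 0.435 0.4221 0 (-0.159) 0.6758 0.6062 0.9469 1.7516 0.3883 4.4721 19.999 0.8971 3.468 1.503 0.8631 0.3378 0.2368 0.471 2.4815 0.3075 1.0219 1.1773 3.8182 0.001167 0.008792 0.00008118 0.0000003101 0.002136 0.0000003101 0.0000003101 0.0000003101 1.4992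
    hβ hN hx1 hx2 hy1 hy2 (by norm_num) (by norm_num) (by linarith) (by norm_num) (by norm_num) (by norm_num) (by norm_num) (by norm_num) (by norm_num) (by norm_num) (by norm_num) (by norm_num) (by norm_num) (by norm_num) (by norm_num) (by norm_num) (by norm_num) (by norm_num) (by norm_num) (by norm_num) (by norm_num) (by norm_num) (by norm_num) (by norm_num)
    (cube_sqrt_geJ (s := 0.8372) (by norm_num) (by norm_num) (by norm_num) (by norm_num))
    (cube_sqrt_geJ (s := 0.9434) (by norm_num) (by norm_num) (by norm_num) (by norm_num))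
    (by norm_num) (by norm_num) (by norm_num) (by norm_num) (by norm_num) (by norm_num) (by norm_num) (by norm_num) (by norm_num) (by norm_num) (by norm_num) (by norm_num) (by norm_num) (by norm_num) (by norm_num) (by norm_num) (by norm_num) (by norm_num)
    (exp_neg_leJ (r := 0.755) 6 (by norm_num) (by norm_num) (by norm_num) (by norm_num))
    (exp_neg_leJ (r := 0.735) 4 (by norm_num) (by norm_num) (by norm_num) (by norm_num))
    (exp_neg_leJ (r := 0.419) 9 (by norm_num) (by norm_num) (by norm_num) (by norm_num))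
    (exp_neg_leJ (r := 0.99) 14 (by norm_num) (by norm_num) (by norm_num) (by norm_num))
    (exp_neg_leJ (r := 0.149) 6 (by norm_num) (by norm_num) (by norm_num) (by norm_num))
    (exp_neg_leJ (r := 0.99) 14 (by norm_num) (by norm_num) (by norm_num) (by norm_num))
    (exp_neg_leJ (r := 0.99) 14 (by norm_num) (by norm_num) (by norm_num) (by norm_num))
    (exp_neg_leJ (r := 0.99) 14 (by norm_num) (by norm_num) (by norm_num) (by norm_num))
    (by norm_num)) (by norm_num) hN hβ.le (by norm_num)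

private theorem B5Cw_T25_0_4 {β x y : ℝ} (hβ : 0 < β) (hN : β * 19.999 ≤ 1) (hx1 : 0.435 ≤ x) (hx2 : x ≤ 0.52)
    (hy1 : -0.4221 ≤ y) (hy2 : y ≤ -0.159) : ‖HH β (x + y * I) - 1‖ ≤ 0.075 := by
  refine le_epsJ (C := 1.495) (N0 := 19.999) (J_boxp 0.435 0.52 0.4221 0 (-0.159) 0.7166 0.6698 0.9888 1.6393 0.3968 4.4721 19.999 0.9347 3.694 1.531 0.8304 0.3582 0.2466 0.4909 2.4382 0.3357 1.1023 1.2933 3.7613 0.0007748 0.007239 0.00005461 0.0000003101 0.001217 0.0000003101 0.0000003101 0.0000003101 1.495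
    hβ hN hx1 hx2 hy1 hy2 (by norm_num) (by norm_num) (by linarith) (by norm_num) (by norm_num) (by norm_num) (by norm_num) (by norm_num) (by norm_num) (by norm_num) (by norm_num) (by norm_num) (by norm_num) (by norm_num) (by norm_num) (by norm_num) (by norm_num) (by norm_num) (by norm_num) (by norm_num) (by norm_num) (by norm_num) (by norm_num) (by norm_num)
    (cube_sqrt_geJ (s := 0.8297) (by norm_num) (by norm_num) (by norm_num) (by norm_num))
    (cube_sqrt_geJ (s := 0.941) (by norm_num) (by norm_num) (by norm_num) (by norm_num))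
    (by norm_num) (by norm_num) (by norm_num) (by norm_num) (by norm_num) (by norm_num) (by norm_num) (by norm_num) (by norm_num) (by norm_num) (by norm_num) (by norm_num) (by norm_num) (by norm_num) (by norm_num) (by norm_num) (by norm_num) (by norm_num)
    (exp_neg_leJ (r := 0.163) 7 (by norm_num) (by norm_num) (by norm_num) (by norm_num))
    (exp_neg_leJ (r := 0.931) 4 (by norm_num) (by norm_num) (by norm_num) (by norm_num))
    (exp_neg_leJ (r := 0.817) 9 (by norm_num) (by norm_num) (by norm_num) (by norm_num))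
    (exp_neg_leJ (r := 0.99) 14 (by norm_num) (by norm_num) (by norm_num) (by norm_num))
    (exp_neg_leJ (r := 0.713) 6 (by norm_num) (by norm_num) (by norm_num) (by norm_num))
    (exp_neg_leJ (r := 0.99) 14 (by norm_num) (by norm_num) (by norm_num) (by norm_num))
    (exp_neg_leJ (r := 0.99) 14 (by norm_num) (by norm_num) (by norm_num) (by norm_num))
    (exp_neg_leJ (r := 0.99) 14 (by norm_num) (by norm_num) (by norm_num) (by norm_num))
    (by norm_num)) (by norm_num) hN hβ.le (by norm_num)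

private theorem B5Cw_T25_0_5 {β x y : ℝ} (hβ : 0 < β) (hN : β * 19.999 ≤ 1) (hx1 : 0.52 ≤ x) (hx2 : x ≤ 0.635)
    (hy1 : -0.4221 ≤ y) (hy2 : y ≤ -0.159) : ‖HH β (x + y * I) - 1‖ ≤ 0.075 := by
  refine le_epsJ (C := 1.4966) (N0 := 19.999) (J_boxp 0.52 0.635 0.4221 0 (-0.159) 0.7764 0.7625 1.0539 1.5007 0.4096 4.4721 19.999 0.9821 4.007 1.566 0.7862 0.3881 0.2611 0.52 2.3777 0.377 1.2199 1.4633 3.6793 0.0004266 0.005402 0.00003047 0.0000003101 0.0005321 0.0000003101 0.0000003101 0.0000003101 1.4966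
    hβ hN hx1 hx2 hy1 hy2 (by norm_num) (by norm_num) (by linarith) (by norm_num) (by norm_num) (by norm_num) (by norm_num) (by norm_num) (by norm_num) (by norm_num) (by norm_num) (by norm_num) (by norm_num) (by norm_num) (by norm_num) (by norm_num) (by norm_num) (by norm_num) (by norm_num) (by norm_num) (by norm_num) (by norm_num) (by norm_num) (by norm_num)
    (cube_sqrt_geJ (s := 0.8201) (by norm_num) (by norm_num) (by norm_num) (by norm_num))
    (cube_sqrt_geJ (s := 0.9379) (by norm_num) (by norm_num) (by norm_num) (by norm_num))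
    (by norm_num) (by norm_num) (by norm_num) (by norm_num) (by norm_num) (by norm_num) (by norm_num) (by norm_num) (by norm_num) (by norm_num) (by norm_num) (by norm_num) (by norm_num) (by norm_num) (by norm_num) (by norm_num) (by norm_num) (by norm_num)
    (exp_neg_leJ (r := 0.761) 7 (by norm_num) (by norm_num) (by norm_num) (by norm_num))
    (exp_neg_leJ (r := 0.221) 5 (by norm_num) (by norm_num) (by norm_num) (by norm_num))
    (exp_neg_leJ (r := 0.399) 10 (by norm_num) (by norm_num) (by norm_num) (by norm_num))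
    (exp_neg_leJ (r := 0.99) 14 (by norm_num) (by norm_num) (by norm_num) (by norm_num))
    (exp_neg_leJ (r := 0.539) 7 (by norm_num) (by norm_num) (by norm_num) (by norm_num))
    (exp_neg_leJ (r := 0.99) 14 (by norm_num) (by norm_num) (by norm_num) (by norm_num))
    (exp_neg_leJ (r := 0.99) 14 (by norm_num) (by norm_num) (by norm_num) (by norm_num))
    (exp_neg_leJ (r := 0.99) 14 (by norm_num) (by norm_num) (by norm_num) (by norm_num))
    (by norm_num)) (by norm_num) hN hβ.le (by norm_num)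

private theorem B5Cw_T25_0_6 {β x y : ℝ} (hβ : 0 < β) (hN : β * 19.999 ≤ 1) (hx1 : 0.635 ≤ x) (hx2 : x ≤ 0.7544)
    (hy1 : -0.4221 ≤ y) (hy2 : y ≤ -0.159) : ‖HH β (x + y * I) - 1‖ ≤ 0.075 := by
  refine le_epsJ (C := 1.3851) (N0 := 19.999) (J_boxp 0.635 0.7544 0.4221 0 (-0.159) 0.8574 0.8645 1.1298 1.3389 0.4241 4.4721 19.999 1.0083 4.195 1.587 0.7403 0.4286 0.2846 0.5593 2.3134 0.4328 1.3792 1.6933 3.6321 0.0001896 0.003379 0.00001389 0.0000003101 0.0001744 0.0000003101 0.0000003101 0.0000003101 1.3851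
    hβ hN hx1 hx2 hy1 hy2 (by norm_num) (by norm_num) (by linarith) (by norm_num) (by norm_num) (by norm_num) (by norm_num) (by norm_num) (by norm_num) (by norm_num) (by norm_num) (by norm_num) (by norm_num) (by norm_num) (by norm_num) (by norm_num) (by norm_num) (by norm_num) (by norm_num) (by norm_num) (by norm_num) (by norm_num) (by norm_num) (by norm_num)
    (cube_sqrt_geJ (s := 0.8148) (by norm_num) (by norm_num) (by norm_num) (by norm_num))
    (cube_sqrt_geJ (s := 0.9362) (by norm_num) (by norm_num) (by norm_num) (by norm_num))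
    (by norm_num) (by norm_num) (by norm_num) (by norm_num) (by norm_num) (by norm_num) (by norm_num) (by norm_num) (by norm_num) (by norm_num) (by norm_num) (by norm_num) (by norm_num) (by norm_num) (by norm_num) (by norm_num) (by norm_num) (by norm_num)
    (exp_neg_leJ (r := 0.571) 8 (by norm_num) (by norm_num) (by norm_num) (by norm_num))
    (exp_neg_leJ (r := 0.691) 5 (by norm_num) (by norm_num) (by norm_num) (by norm_num))
    (exp_neg_leJ (r := 0.185) 11 (by norm_num) (by norm_num) (by norm_num) (by norm_num))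
    (exp_neg_leJ (r := 0.99) 14 (by norm_num) (by norm_num) (by norm_num) (by norm_num))
    (exp_neg_leJ (r := 0.655) 8 (by norm_num) (by norm_num) (by norm_num) (by norm_num))
    (exp_neg_leJ (r := 0.99) 14 (by norm_num) (by norm_num) (by norm_num) (by norm_num))
    (exp_neg_leJ (r := 0.99) 14 (by norm_num) (by norm_num) (by norm_num) (by norm_num))
    (exp_neg_leJ (r := 0.99) 14 (by norm_num) (by norm_num) (by norm_num) (by norm_num))
    (by norm_num)) (by norm_num) hN hβ.le (by norm_num)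

private theorem B5Cw_T25_1_0 {β x y : ℝ} (hβ : 0 < β) (hN : β * 19.999 ≤ 1) (hx1 : 0.3117 ≤ x) (hx2 : x ≤ 0.7544)
    (hy1 : -0.159 ≤ y) (hy2 : y ≤ -0.1189) : ‖HH β (x + y * I) - 1‖ ≤ 0.075 := by
  refine le_epsJ (C := 1.2804) (N0 := 19.999) (J_boxp 0.3117 0.7544 0.159 0 (-0.1189) 0.8166 0.771 1.16 1.4596 0.4297 4.4721 19.999 0.9442 3.755 1.538 0.9831 0.4082 0.2797 0.864 3.1644 0.4195 0.9315 1.7618 3.2396 0.0002851 0.003726 0.0000003101 0.0000003101 0.0002274 0.0000003101 0.0000003101 0.0000003101 1.2804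
    hβ hN hx1 hx2 hy1 hy2 (by norm_num) (by norm_num) (by linarith) (by norm_num) (by norm_num) (by norm_num) (by norm_num) (by norm_num) (by norm_num) (by norm_num) (by norm_num) (by norm_num) (by norm_num) (by norm_num) (by norm_num) (by norm_num) (by norm_num) (by norm_num) (by norm_num) (by norm_num) (by norm_num) (by norm_num) (by norm_num) (by norm_num)
    (cube_sqrt_geJ (s := 0.8278) (by norm_num) (by norm_num) (by norm_num) (by norm_num))
    (cube_sqrt_geJ (s := 0.9404) (by norm_num) (by norm_num) (by norm_num) (by norm_num))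
    (by norm_num) (by norm_num) (by norm_num) (by norm_num) (by norm_num) (by norm_num) (by norm_num) (by norm_num) (by norm_num) (by norm_num) (by norm_num) (by norm_num) (by norm_num) (by norm_num) (by norm_num) (by norm_num) (by norm_num) (by norm_num)
    (exp_neg_leJ (r := 0.163) 8 (by norm_num) (by norm_num) (by norm_num) (by norm_num))
    (exp_neg_leJ (r := 0.593) 5 (by norm_num) (by norm_num) (by norm_num) (by norm_num))
    (exp_neg_leJ (r := 0.99) 14 (by norm_num) (by norm_num) (by norm_num) (by norm_num))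
    (exp_neg_leJ (r := 0.99) 14 (by norm_num) (by norm_num) (by norm_num) (by norm_num))
    (exp_neg_leJ (r := 0.389) 8 (by norm_num) (by norm_num) (by norm_num) (by norm_num))
    (exp_neg_leJ (r := 0.99) 14 (by norm_num) (by norm_num) (by norm_num) (by norm_num))
    (exp_neg_leJ (r := 0.99) 14 (by norm_num) (by norm_num) (by norm_num) (by norm_num))
    (exp_neg_leJ (r := 0.99) 14 (by norm_num) (by norm_num) (by norm_num) (by norm_num))
    (by norm_num)) (by norm_num) hN hβ.le (by norm_num)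

private theorem B5Cw_T25 {β x y : ℝ} (hβ : 0 < β) (hN : β * 19.999 ≤ 1) (hx1 : 0.3117 ≤ x) (hx2 : x ≤ 0.7544)
    (hy1 : (-0.4221) ≤ y) (hy2 : y ≤ (-0.1189)) : ‖HH β (x + y * I) - 1‖ ≤ 0.075 := by
  rcases le_total y (-0.159) with hyy | hyy
  · rcases le_total x 0.322 with hxx | hxx
    · exact B5Cw_T25_0_0 hβ hN (by linarith) (by linarith) (by linarith) (by linarith)
    rcases le_total x 0.342 with hxx | hxx
    · exact B5Cw_T25_0_1 hβ hN (by linarith) (by linarith) (by linarith) (by linarith)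
    rcases le_total x 0.377 with hxx | hxx
    · exact B5Cw_T25_0_2 hβ hN (by linarith) (by linarith) (by linarith) (by linarith)
    rcases le_total x 0.435 with hxx | hxx
    · exact B5Cw_T25_0_3 hβ hN (by linarith) (by linarith) (by linarith) (by linarith)
    rcases le_total x 0.52 with hxx | hxx
    · exact B5Cw_T25_0_4 hβ hN (by linarith) (by linarith) (by linarith) (by linarith)
    rcases le_total x 0.635 with hxx | hxx
    · exact B5Cw_T25_0_5 hβ hN (by linarith) (by linarith) (by linarith) (by linarith)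
    exact B5Cw_T25_0_6 hβ hN (by linarith) (by linarith) (by linarith) (by linarith)
  exact B5Cw_T25_1_0 hβ hN (by linarith) (by linarith) (by linarith) (by linarith)

private theorem B5Cw_C26 {β r t κ : ℝ} (hβ : 0 < β) (hr : 10 ≤ r) (hκ : κ = β * r) (hk1 : 0.42 ≤ κ) (hk2 : κ ≤ 0.5) (hta : 1.9226 ≤ t + κ)
    (htb : t + κ ≤ 2.0733) : ‖F (cexp (I * β)) (r * cexp (I * ((t + β / 2 : ℝ) : ℂ)))‖ ≤
      4.9198 * Real.exp (r * (0.18 + 1 / 20)) :=
  v5_UD 0.42 0.5 1.9226 2.0733 0.18 0.6156 0.18 2.5649 4.9198 hβ hr hκ (by norm_num) hk1 hk2 hta htb (by norm_num) (by norm_num) (by norm_num) (by norm_num) (by norm_num) (by norm_num) (by norm_num) (by norm_num) (by norm_num) (by norm_num) (by norm_num)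

private theorem B5Cw_C27 {β r t κ : ℝ} (hβ : 0 < β) (hr : 10 ≤ r) (hκ : κ = β * r) (hk1 : 0.42 ≤ κ) (hk2 : κ ≤ 0.5) (hta : (-1.8473) ≤ t + κ)
    (htb : t + κ ≤ (-1.6966)) : ‖F (cexp (I * β)) (r * cexp (I * ((t + β / 2 : ℝ) : ℂ)))‖ ≤
      1.766 * Real.exp (r * (1.25248 - (-0.71) * (t + κ))) + 2.0981 * Real.exp (r * 0.0501) :=
  v5_HU (-0.71) 0.42 0.5 (-1.8473) (-1.6966) 1.25248 1.766 1.81556 0.0893 1.1808 2.3646 0 0.0501 0.00000175 2.0981 hβ hr hκ (by norm_num) hk1 hk2 hta htb (by norm_num) (by norm_num) (B5Cw_G6 hk1 hk2).1 (B5Cw_G6 hk1 hk2).2 (by norm_num) (by norm_num) (by norm_num)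
    (by norm_num) (by norm_num) (by norm_num) (by norm_num) (by norm_num) (by norm_num) (by norm_num)
    (by norm_num) (by norm_num) (by norm_num) (v5_hump 6.5494 19.999 4.4721 0.0000009316 0.00000175 hβ hr hκ hk1 hk2 (by norm_num) htb (by norm_num) (by norm_num) (by norm_num) (by norm_num) (by norm_num) (by norm_num) (by norm_num) (ex_un 13 0.9 (by norm_num) (by norm_num) (by norm_num) (by norm_num)) (by norm_num)) (by norm_num)

private theorem B5Cw_C28 {β r t κ : ℝ} (hβ : 0 < β) (hr : 10 ≤ r) (hκ : κ = β * r) (hk1 : 0.42 ≤ κ) (hk2 : κ ≤ 0.5) (hta : 3.1792 ≤ t + κ)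
    (htb : t + κ ≤ 3.3299) : ‖F (cexp (I * β)) (r * cexp (I * ((t + β / 2 : ℝ) : ℂ)))‖ ≤
      2.9154 * Real.exp (r * (0.01 + 1 / 20)) :=
  v5_UD 0.42 0.5 3.1792 3.3299 0.01 0.6156 0.01 1.5199 2.9154 hβ hr hκ (by norm_num) hk1 hk2 hta htb (by norm_num) (by norm_num) (by norm_num) (by norm_num) (by norm_num) (by norm_num) (by norm_num) (by norm_num) (by norm_num) (by norm_num) (by norm_num)

private theorem B5Cw_Y29 {β r t κ h t' : ℝ} (hβ : 0 < β) (hκ : κ = β * r) (hN : β * 19.999 ≤ 1) (hk1 : 0.42 ≤ κ) (hk2 : κ ≤ 0.5)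
    (ht : t' = t + (((1 : ℤ) : ℝ) - 1) * h) (hD : DomR κ t') (hta : 0.666 ≤ t' + κ) (htb : t' + κ ≤ 0.7666) :
    0.8609 * Real.exp (r * sE κ t') ≤ ‖Xf β r h t 1‖ := by
  obtain ⟨⟨ya, yb⟩, ⟨xa, xb⟩, n1, Da, Db⟩ := B5Cw_B22 hD hk1 hk2 hta htb
  have J := B5Cw_T24 (x := sx κ t') (y := sy κ t') hβ hN (by linarith only [xa, xb, ya, yb]) (by linarith only [xa, xb, ya, yb]) (by linarith only [xa, xb, ya, yb]) (by linarith only [xa, xb, ya, yb])
  exact v5_Jlo hβ hκ (k := 1) ht hD 0.03 1.6111 0.8609 (by norm_num) J Db (by norm_num)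

private theorem B5Cw_Y30 {β r t κ h t' : ℝ} (hβ : 0 < β) (hκ : κ = β * r) (hN : β * 19.999 ≤ 1) (hk1 : 0.42 ≤ κ) (hk2 : κ ≤ 0.5)
    (ht : t' = t + (((0 : ℤ) : ℝ) - 1) * h) (hD : DomR κ t') (hta : (-0.5907) ≤ t' + κ) (htb : t' + κ ≤ (-0.49)) :
    0.937 * Real.exp (r * sE κ t') ≤ ‖Xf β r h t 0‖ := by
  obtain ⟨⟨ya, yb⟩, ⟨xa, xb⟩, n1, Da, Db⟩ := B5Cw_B23 hD hk1 hk2 hta htb
  have J := B5Cw_T25 (x := sx κ t') (y := sy κ t') hβ hN (by linarith only [xa, xb, ya, yb]) (by linarith only [xa, xb, ya, yb]) (by linarith only [xa, xb, ya, yb]) (by linarith only [xa, xb, ya, yb])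
  exact v5_Jlo hβ hκ (k := 0) ht hD 0.075 0.9495 0.937 (by norm_num) J Db (by norm_num)

private theorem B5Cw_V31 {κ t : ℝ} (hD : DomR κ t) (hk1 : 0.42 ≤ κ) (hk2 : κ ≤ 0.5) (hta : 0.666 ≤ t + κ) (htb : t + κ ≤ 0.7666) :
    1.19042 - 0.5529 * (t + κ) ≤ sE κ t := by
  have hκ0 : 0 < κ := hD.1
  exact v5_V1 hD 0.42 0.5 0.666 0.7666 0.0427 0.19481 0.19765 1.19042 0.5529 (by norm_num) hk1 hk2 (by norm_num) (by norm_num) hta htb (by norm_num) (clo5 0.42 0.5 0.19765 (by norm_num) hk1 hk2 (by norm_num) (by norm_num) (by norm_num))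
      ((cup1 0.5 hκ0.le hk2 (by norm_num)).trans (by norm_num)) (by norm_num) (by norm_num) (by norm_num) (by norm_num) (by norm_num) (by norm_num)

private theorem B5Cw_V32 {κ t : ℝ} (hD : DomR κ t) (hk1 : 0.42 ≤ κ) (hk2 : κ ≤ 0.5) (hta : (-0.5907) ≤ t + κ) (htb : t + κ ≤ (-0.49)) :
    1.15383 + 0.5744 * (t + κ) ≤ sE κ t := by
  have hκ0 : 0 < κ := hD.1
  exact v5_V0 hD 0.42 0.5 (-0.5907) (-0.49) 0.5908 0.6253 0.1656 0.03839 0.61424 0.42503 1.15383 0.5744 (by norm_num) hk1 hk2 (by norm_num) hta htb (by norm_num) (by norm_num) (by norm_num) ((cup1 0.5 hκ0.le hk2 (by norm_num)).trans (by norm_num))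
      (by norm_num) (by norm_num) (by norm_num) (by norm_num) (by norm_num) (by norm_num) (by norm_num) (by norm_num) (by norm_num) (by norm_num) (by norm_num) (by norm_num) (by norm_num)

private theorem B5Cw_S33 {β r t κ h t' : ℝ} (hβ : 0 < β) (hκ : κ = β * r) (hN : β * 19.999 ≤ 1) (hk1 : 0.42 ≤ κ) (hk2 : κ ≤ 0.5)
    (ht : t' = t + (((1 : ℤ) : ℝ) - 1) * h) (hD : DomR κ t') (hta : 0.666 ≤ t' + κ) (htb : t' + κ ≤ 0.7666) :
    Xf β r h t 1 ≠ 0 ∧ |(Ld β r h t 1).im - (sy κ t' / β + sx κ t' / sD κ t' * ((1 + sy κ t') / sD κ t' - 1 / 2))| ≤ 0.1061 ∧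
      ‖Ld β r h t 1 - sg κ t' / β‖ ≤ 0.247 ∧ -0.0001 ≤ sx κ t' / sD κ t' * ((1 + sy κ t') / sD κ t' - 1 / 2) ∧
      (0.18 ≤ sy κ t' ∧ sy κ t' ≤ 0.226) ∧ (0.2472 ≤ sx κ t' ∧ sx κ t' ≤ 0.3769) := by
  obtain ⟨⟨y1, y2⟩, ⟨x1, x2⟩, n1, Da, Db⟩ := B5Cw_B22 hD hk1 hk2 hta htb
  have hd := v5_disc (β := β) (κ := κ) (t := t') (ε := 0.03) 0.1 0.1471 0.477 0.0799 0.3261 0.2472 0.3769 0.18 0.226
    (fun x y g1 g2 g3 g4 => B5Cw_T24 hβ hN g1 g2 g3 g4) x1 x2 y1 y2 (by norm_num) (by norm_num) (by norm_num) (by norm_num)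
  obtain ⟨nz, im, nL⟩ := v5_slope (h := h) (t := t) (k := 1) 0.1 0.03 0.4177 1.483 0.3093 0.1061 hβ hκ ht hD (by norm_num) (by norm_num) (by linarith only [y1]) hd n1 (by norm_num) Da (by norm_num) (by norm_num) (by norm_num) (by norm_num)
  have ex := ex_lo hD 0.4177 1.483 1.6111 0.18 0 0.0001 n1 (by norm_num) Da Db y1 (by norm_num) (by norm_num) (by norm_num) (by norm_num)
  exact ⟨nz, im, nL.trans (by norm_num), ex, ⟨y1, y2⟩, x1, x2⟩

private theorem B5Cw_S34 {β r t κ h t' : ℝ} (hβ : 0 < β) (hκ : κ = β * r) (hN : β * 19.999 ≤ 1) (hk1 : 0.42 ≤ κ) (hk2 : κ ≤ 0.5)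
    (ht : t' = t + (((0 : ℤ) : ℝ) - 1) * h) (hD : DomR κ t') (hta : (-0.5907) ≤ t' + κ) (htb : t' + κ ≤ (-0.49)) :
    Xf β r h t 0 ≠ 0 ∧ |(Ld β r h t 0).im - (sy κ t' / β + sx κ t' / sD κ t' * ((1 + sy κ t') / sD κ t' - 1 / 2))| ≤ 0.6728 ∧
      ‖Ld β r h t 0 - sg κ t' / β‖ ≤ 1.1715 ∧ sx κ t' / sD κ t' * ((1 + sy κ t') / sD κ t' - 1 / 2) ≤ 0.6274 ∧
      ((-0.322) ≤ sy κ t' ∧ sy κ t' ≤ (-0.219)) ∧ (0.4118 ≤ sx κ t' ∧ sx κ t' ≤ 0.6543) := by
  obtain ⟨⟨y1, y2⟩, ⟨x1, x2⟩, n1, Da, Db⟩ := B5Cw_B23 hD hk1 hk2 hta htb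
  have hd := v5_disc (β := β) (κ := κ) (t := t') (ε := 0.075) 0.1 0.3117 0.7544 (-0.4221) (-0.1189) 0.4118 0.6543 (-0.322) (-0.219)
    (fun x y g1 g2 g3 g4 => B5Cw_T25 hβ hN g1 g2 g3 g4) x1 x2 y1 y2 (by norm_num) (by norm_num) (by norm_num) (by norm_num)
  obtain ⟨nz, im, nL⟩ := v5_slope (h := h) (t := t) (k := 0) 0.1 0.075 0.69 0.6918 0.8109 0.6728 hβ hκ ht hD (by norm_num) (by norm_num) (by linarith only [y1]) hd n1 (by norm_num) Da (by norm_num) (by norm_num) (by norm_num) (by norm_num)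
  have ex := ex_hi hD 0.69 0.6918 (-0.219) 0.629 0.6274 n1 (by norm_num) Da y2 (by norm_num) (by norm_num) (by norm_num) (by norm_num)
  exact ⟨nz, im, nL.trans (by norm_num), ex, ⟨y1, y2⟩, x1, x2⟩

private theorem B5Cw_L35 {β r κ t1 t0 : ℝ} {L0 L1 : ℂ} (hβ : 0 < β) (hr : 10 ≤ r) (hκ : κ = β * r) (hk1 : 0.42 ≤ κ)
    (nA0 : ‖L0 - sg κ t0 / β‖ ≤ 1.1715) (nA1 : ‖L1 - sg κ t1 / β‖ ≤ 0.247)
    (y0 : (-0.322) ≤ sy κ t0 ∧ sy κ t0 ≤ (-0.219)) (x0 : 0.4118 ≤ sx κ t0 ∧ sx κ t0 ≤ 0.6543)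
    (y1 : 0.18 ≤ sy κ t1 ∧ sy κ t1 ≤ 0.226) (x1 : 0.2472 ≤ sx κ t1 ∧ sx κ t1 ≤ 0.3769) :
    ‖(1 : ℂ) * L0 + (-2 : ℂ) * L1‖ ≤ r * 2.1818 := by
  obtain ⟨y0a, y0b⟩ := y0
  obtain ⟨x0a, x0b⟩ := x0
  obtain ⟨y1a, y1b⟩ := y1
  obtain ⟨x1a, x1b⟩ := x1
  have hN := v5_cN (κ := κ) (t1 := t1) (t0 := t0) 1 (-2) 0.3421 0.7741 0.8464 (abs_le.2 ⟨by linarith only [x0a, x0b, x1a, x1b], by linarith only [x0a, x0b, x1a, x1b]⟩)
    (abs_le.2 ⟨by linarith only [y0a, y0b, y1a, y1b], by linarith only [y0a, y0b, y1a, y1b]⟩) (by norm_num) (by norm_num)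
  have h1 := v5_comb 1 (-2) 0.42 1.1715 0.247 0.8464 2.1818 hβ hr hκ (by norm_num) hk1 nA0 nA1 hN (by norm_num [abs_of_neg, abs_of_pos])
  norm_num at h1 ⊢
  exact h1

private theorem B5Cw_L36 {β r κ t1 t0 : ℝ} {L0 L1 : ℂ} (hβ : 0 < β) (hr : 10 ≤ r) (hκ : κ = β * r) (hk1 : 0.42 ≤ κ)
    (nA0 : ‖L0 - sg κ t0 / β‖ ≤ 1.1715) (nA1 : ‖L1 - sg κ t1 / β‖ ≤ 0.247)
    (y0 : (-0.322) ≤ sy κ t0 ∧ sy κ t0 ≤ (-0.219)) (x0 : 0.4118 ≤ sx κ t0 ∧ sx κ t0 ≤ 0.6543)
    (y1 : 0.18 ≤ sy κ t1 ∧ sy κ t1 ≤ 0.226) (x1 : 0.2472 ≤ sx κ t1 ∧ sx κ t1 ≤ 0.3769) :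
    ‖(-2 : ℂ) * L0 + (1 : ℂ) * L1‖ ≤ r * 3.5271 := by
  obtain ⟨y0a, y0b⟩ := y0
  obtain ⟨x0a, x0b⟩ := x0
  obtain ⟨y1a, y1b⟩ := y1
  obtain ⟨x1a, x1b⟩ := x1
  have hN := v5_cN (κ := κ) (t1 := t1) (t0 := t0) (-2) 1 1.0615 0.8701 1.3726 (abs_le.2 ⟨by linarith only [x0a, x0b, x1a, x1b], by linarith only [x0a, x0b, x1a, x1b]⟩)
    (abs_le.2 ⟨by linarith only [y0a, y0b, y1a, y1b], by linarith only [y0a, y0b, y1a, y1b]⟩) (by norm_num) (by norm_num)
  have h1 := v5_comb (-2) 1 0.42 1.1715 0.247 1.3726 3.5271 hβ hr hκ (by norm_num) hk1 nA0 nA1 hN (by norm_num [abs_of_neg, abs_of_pos])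
  norm_num at h1 ⊢
  exact h1

private theorem B5Cw_L37 {β r κ t1 t0 : ℝ} {L0 L1 : ℂ} (hβ : 0 < β) (hr : 10 ≤ r) (hκ : κ = β * r) (hk1 : 0.42 ≤ κ)
    (nA0 : ‖L0 - sg κ t0 / β‖ ≤ 1.1715) (nA1 : ‖L1 - sg κ t1 / β‖ ≤ 0.247)
    (y0 : (-0.322) ≤ sy κ t0 ∧ sy κ t0 ≤ (-0.219)) (x0 : 0.4118 ≤ sx κ t0 ∧ sx κ t0 ≤ 0.6543)
    (y1 : 0.18 ≤ sy κ t1 ∧ sy κ t1 ≤ 0.226) (x1 : 0.2472 ≤ sx κ t1 ∧ sx κ t1 ≤ 0.3769) :
    ‖(-3 : ℂ) * L0 + (2 : ℂ) * L1‖ ≤ r * 5.2619 := by
  obtain ⟨y0a, y0b⟩ := y0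
  obtain ⟨x0a, x0b⟩ := x0
  obtain ⟨y1a, y1b⟩ := y1
  obtain ⟨x1a, x1b⟩ := x1
  have hN := v5_cN (κ := κ) (t1 := t1) (t0 := t0) (-3) 2 1.4686 1.4181 2.0416 (abs_le.2 ⟨by linarith only [x0a, x0b, x1a, x1b], by linarith only [x0a, x0b, x1a, x1b]⟩)
    (abs_le.2 ⟨by linarith only [y0a, y0b, y1a, y1b], by linarith only [y0a, y0b, y1a, y1b]⟩) (by norm_num) (by norm_num)
  have h1 := v5_comb (-3) 2 0.42 1.1715 0.247 2.0416 5.2619 hβ hr hκ (by norm_num) hk1 nA0 nA1 hN (by norm_num [abs_of_neg, abs_of_pos])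
  norm_num at h1 ⊢
  exact h1

private theorem B5Cw_K38 {β r t κ h : ℝ} (hβ : 0 < β) (hr : 10 ≤ r) (hκ : κ = β * r) (hk1 : 0.42 ≤ κ) (hk2 : κ ≤ 0.5)
    (hh : h = 2 * Real.pi / 5) (hh1 : 1.25663 ≤ h) (hh2 : h ≤ 1.25664) (hta : 0.666 ≤ t + κ) (htb : t + κ ≤ 0.7666)
    (hβ1 : β ≤ 0.05)
    (hY : 0.8609 * Real.exp (r * sE κ t) ≤ ‖Xf β r h t 1‖) (hV : 1.19042 - 0.5529 * (t + κ) ≤ sE κ t) :
    ‖Xf β r h t 2‖ ≤ 0.0268 * ‖Xf β r h t 1‖ ∧ ‖Xf β r h (t + β) 2‖ ≤ 0.0268 * ‖Xf β r h t 1‖ := by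
  constructor
  · rw [v5_X 2 1 (by push_cast; ring)]
    exact v5_cmp0 0.5365 0.004681 0.0268 hr (B5Cw_C26 (t := t + 1 * h) hβ hr hκ hk1 hk2 (by linarith only [hta, htb, hh1, hh2, hβ, hβ1]) (by linarith only [hta, htb, hh1, hh2, hβ, hβ1])) hY (by norm_num) (by norm_num) (by norm_num) (by linarith only [hV, hta, htb, hh1, hh2]) (ex_un 5 0.3649 (by norm_num) (by norm_num) (by norm_num) (by norm_num)) (by norm_num)
  · rw [v5_X 2 1 (by push_cast; ring)]
    exact v5_cmp0 0.5365 0.004681 0.0268 hr (B5Cw_C26 (t := t + β + 1 * h) hβ hr hκ hk1 hk2 (by linarith only [hta, htb, hh1, hh2, hβ, hβ1]) (by linarith only [hta, htb, hh1, hh2, hβ, hβ1])) hY (by norm_num) (by norm_num) (by norm_num) (by linarith only [hV, hta, htb, hh1, hh2]) (ex_un 5 0.3649 (by norm_num) (by norm_num) (by norm_num) (by norm_num)) (by norm_num)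

private theorem B5Cw_K39 {β r t κ h : ℝ} (hβ : 0 < β) (hr : 10 ≤ r) (hκ : κ = β * r) (hk1 : 0.42 ≤ κ) (hk2 : κ ≤ 0.5)
    (hh : h = 2 * Real.pi / 5) (hh1 : 1.25663 ≤ h) (hh2 : h ≤ 1.25664) (hta : 0.666 ≤ t + κ) (htb : t + κ ≤ 0.7666)
    (hβ1 : β ≤ 0.05)
    (hY : 0.937 * Real.exp (r * sE κ (t - h)) ≤ ‖Xf β r h t 0‖) (hV : 1.15383 + 0.5744 * (t - h + κ) ≤ sE κ (t - h)) :
    ‖Xf β r h t (-1)‖ ≤ 0.00143 * ‖Xf β r h t 0‖ ∧ ‖Xf β r h (t + β) (-1)‖ ≤ 0.00158 * ‖Xf β r h t 0‖ := by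
  constructor
  · rw [v5_X (-1) (-2) (by push_cast; ring)]
    exact v5_cmp 0.86 0.0001848 0.000349 0.7644 0.0004811 0.00108 0.00143 hr (B5Cw_C27 (t := t + (-2) * h) hβ hr hκ hk1 hk2 (by linarith only [hta, htb, hh1, hh2, hβ, hβ1]) (by linarith only [hta, htb, hh1, hh2, hβ, hβ1])) hY (by norm_num) (by norm_num) (by norm_num) (by norm_num) (by linarith only [hV, hta, htb, hh1, hh2]) (ex_un 8 0.5999 (by norm_num) (by norm_num) (by norm_num) (by norm_num)) (by norm_num) (by norm_num) (by linarith only [hV, hta, htb, hh1, hh2]) (ex_un 7 0.6439 (by norm_num) (by norm_num) (by norm_num) (by norm_num)) (by norm_num) (by norm_num)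
  · rw [v5_X (-1) (-2) (by push_cast; ring)]
    have h1 := B5Cw_C27 (t := t + β + (-2) * h) hβ hr hκ hk1 hk2 (by linarith only [hta, htb, hh1, hh2, hβ, hβ1]) (by linarith only [hta, htb, hh1, hh2, hβ, hβ1])
    rw [show t + β + (-2) * h + κ = (t + (-2) * h + κ) + β by ring] at h1
    exact v5_cmpS 1.42619 0.86 0.0001848 0.000497 0.7644 0.0004811 0.00108 0.00158 hr hκ h1 hY (by norm_num) (by norm_num) (by norm_num) (ex_up 0.355 (by linarith only [hk1, hk2]) (by norm_num) (by norm_num) (by norm_num)) (by norm_num) (by linarith only [hV, hta, htb, hh1, hh2]) (ex_un 8 0.5999 (by norm_num) (by norm_num) (by norm_num) (by norm_num)) (by norm_num) (by norm_num) (by linarith only [hV, hta, htb, hh1, hh2]) (ex_un 7 0.6439 (by norm_num) (by norm_num) (by norm_num) (by norm_num)) (by norm_num) (by norm_num)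

private theorem B5Cw_K40 {β r t κ h : ℝ} (hβ : 0 < β) (hr : 10 ≤ r) (hκ : κ = β * r) (hk1 : 0.42 ≤ κ) (hk2 : κ ≤ 0.5)
    (hh : h = 2 * Real.pi / 5) (hh1 : 1.25663 ≤ h) (hh2 : h ≤ 1.25664) (hta : 0.666 ≤ t + κ) (htb : t + κ ≤ 0.7666)
    (hβ1 : β ≤ 0.05)
    (hY : 0.937 * Real.exp (r * sE κ (t - h)) ≤ ‖Xf β r h t 0‖) (hV : 1.15383 + 0.5744 * (t - h + κ) ≤ sE κ (t - h)) :
    ‖Xf β r h t (-2)‖ ≤ 0.00165 * ‖Xf β r h t 0‖ ∧ ‖Xf β r h (t + β) (-2)‖ ≤ 0.00165 * ‖Xf β r h t 0‖ := by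
  constructor
  · rw [v5_Xm2 hh]
    exact v5_cmp0 0.7545 0.0005301 0.00165 hr (B5Cw_C28 (t := t + 2 * h) hβ hr hκ hk1 hk2 (by linarith only [hta, htb, hh1, hh2, hβ, hβ1]) (by linarith only [hta, htb, hh1, hh2, hβ, hβ1])) hY (by norm_num) (by norm_num) (by norm_num) (by linarith only [hV, hta, htb, hh1, hh2]) (ex_un 7 0.5449 (by norm_num) (by norm_num) (by norm_num) (by norm_num)) (by norm_num)
  · rw [v5_Xm2 hh]
    exact v5_cmp0 0.7545 0.0005301 0.00165 hr (B5Cw_C28 (t := t + β + 2 * h) hβ hr hκ hk1 hk2 (by linarith only [hta, htb, hh1, hh2, hβ, hβ1]) (by linarith only [hta, htb, hh1, hh2, hβ, hβ1])) hY (by norm_num) (by norm_num) (by norm_num) (by linarith only [hV, hta, htb, hh1, hh2]) (ex_un 7 0.5449 (by norm_num) (by norm_num) (by norm_num) (by norm_num)) (by norm_num)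

theorem B5Cw_W41 {β r t κ h : ℝ} (hβ : 0 < β) (hr : 10 ≤ r) (hκ : κ = β * r) (hk1 : 0.42 ≤ κ) (hk2 : κ ≤ 0.5)
    (hh : h = 2 * Real.pi / 5) (hta : 0.666 ≤ t + κ) (htb : t + κ ≤ 0.7666) :
    Xf β r h t 0 ≠ 0 ∧
    (‖Xf β r h t 2‖ ≤ 0.0424 * ‖Xf β r h t 1‖ ∧ ‖Xf β r h t (-1)‖ ≤ 0.00286 * ‖Xf β r h t 0‖ ∧
      ‖Xf β r h t (-2)‖ ≤ 0.00385 * ‖Xf β r h t 0‖) ∧
    (r * ‖Xf β r h (t + β) 2‖ + ‖Xf β r h t 2‖ * ‖(1 : ℂ) * Ld β r h t 0 + (-2 : ℂ) * Ld β r h t 1‖ ≤
        r * 0.146 * ‖Xf β r h t 1‖ ∧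
      r * ‖Xf β r h (t + β) (-1)‖ + ‖Xf β r h t (-1)‖ * ‖(-2 : ℂ) * Ld β r h t 0 + (1 : ℂ) * Ld β r h t 1‖ ≤
        r * 0.0147 * ‖Xf β r h t 0‖ ∧
      r * ‖Xf β r h (t + β) (-2)‖ + ‖Xf β r h t (-2)‖ * ‖(-3 : ℂ) * Ld β r h t 0 + (2 : ℂ) * Ld β r h t 1‖ ≤
        r * 0.0272 * ‖Xf β r h t 0‖) ∧
    r * 0.6085 ≤ (Ld β r h t 1 - Ld β r h t 0).im := by
  obtain ⟨hh1, hh2⟩ := v5_h hh
  have hκ0 : 0 < κ := by linarith only [hk1]
  have hN : β * 19.999 ≤ 1 := v5_hN 0.5 19.999 hβ hr hκ hk2 (by norm_num) (by norm_num)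
  have hD1 : DomR κ t := v5_dom hκ0 (by linarith only [hta, htb, hk1, hk2, hh1, hh2]) (Or.inr (by linarith only [hta, htb, hk1, hk2, hh1, hh2]))
  have hD0 : DomR κ (t - h) := v5_dom hκ0 (by linarith only [hta, htb, hk1, hk2, hh1, hh2]) (Or.inr (by linarith only [hta, htb, hk1, hk2, hh1, hh2]))
  have hβ1 : β ≤ 0.05 := by
    have := mul_le_mul_of_nonneg_left hr hβ.le
    linarith only [this, hκ, hk2]
  have h0a : (-0.5907) ≤ t - h + κ := by linarith only [hta, htb, hh1, hh2]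
  have h0b : t - h + κ ≤ (-0.49) := by linarith only [hta, htb, hh1, hh2]
  have e1 : t = t + (((1 : ℤ) : ℝ) - 1) * h := by push_cast; ring
  have e0 : t - h = t + (((0 : ℤ) : ℝ) - 1) * h := by push_cast; ring
  have hY1 := B5Cw_Y29 (h := h) hβ hκ hN hk1 hk2 e1 hD1 hta htb
  have hY0 := B5Cw_Y30 (h := h) hβ hκ hN hk1 hk2 e0 hD0 h0a h0b
  have hV1 := B5Cw_V31 hD1 hk1 hk2 hta htb
  have hV0 := B5Cw_V32 hD0 hk1 hk2 h0a h0b
  obtain ⟨nz1, im1, nA1, ex1, y1, x1⟩ := B5Cw_S33 (h := h) hβ hκ hN hk1 hk2 e1 hD1 hta htb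
  obtain ⟨nz0, im0, nA0, ex0, y0, x0⟩ := B5Cw_S34 (h := h) hβ hκ hN hk1 hk2 e0 hD0 h0a h0b
  obtain ⟨cp2, dp2⟩ := B5Cw_K38 hβ hr hκ hk1 hk2 hh hh1 hh2 hta htb hβ1 hY1 hV1
  obtain ⟨cm1, dm1⟩ := B5Cw_K39 hβ hr hκ hk1 hk2 hh hh1 hh2 hta htb hβ1 hY0 hV0
  obtain ⟨cm2, dm2⟩ := B5Cw_K40 hβ hr hκ hk1 hk2 hh hh1 hh2 hta htb hβ1 hY0 hV0
  have Lp2 := B5Cw_L35 hβ hr hκ hk1 nA0 nA1 y0 x0 y1 x1
  have Lm1 := B5Cw_L36 hβ hr hκ hk1 nA0 nA1 y0 x0 y1 x1
  have Lm2 := B5Cw_L37 hβ hr hκ hk1 nA0 nA1 y0 x0 y1 x1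
  have hm : r * 0.6085 ≤ (Ld β r h t 1 - Ld β r h t 0).im :=
    v5_m 0.5 0.18 0.219 0.0001 0.6274 0.1061 0.6728 _ _ 0.6085 hβ hr hκ hk2 im1 im0 y1.1 (by linarith only [y0.2]) (by norm_num) ex1 ex0 (by norm_num) (by norm_num)
  have hr0 : 0 < r := by linarith only [hr]
  refine ⟨nz0, ⟨v5_emax _ cp2 (norm_nonneg _) (by norm_num), v5_emax _ cm1 (norm_nonneg _) (by norm_num), v5_emax _ cm2 (norm_nonneg _) (by norm_num)⟩, ⟨?_, ?_, ?_⟩, hm⟩
  · exact v5_W hr0 dp2 cp2 Lp2 (norm_nonneg _) (norm_nonneg _) (norm_nonneg _) (by norm_num)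
  · exact v5_W hr0 dm1 cm1 Lm1 (norm_nonneg _) (norm_nonneg _) (norm_nonneg _) (by norm_num)
  · exact v5_W hr0 dm2 cm2 Lm2 (norm_nonneg _) (norm_nonneg _) (norm_nonneg _) (by norm_num)

end Sok
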