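import Pool.Agent.Lib.MP_816dec_an.R1V9

/-!
MP_816dec_an (A3, row R1), SINGLE CASE `b = 5`, `r ≥ 10`, `0.5 ≤ κ ≤ 0.6`: the window (generated file).
-/

set_option autoImplicit false
set_option linter.unusedVariables false

open Complex Set Filter Topology Metric

namespace Sok

private theorem B5Dw_B1 {κ t : ℝ} (h : DomR κ t) (hk1 : 0.5 ≤ κ) (hk2 : κ ≤ 0.6) (ht1 : 0.5654 ≤ t + κ) (ht2 : t + κ ≤ 0.666) :
    (0.178 ≤ sy κ t ∧ sy κ t ≤ 0.226) ∧ (0.3285 ≤ sx κ t ∧ sx κ t ≤ 0.4696) ∧ κ * Real.exp (-sy κ t) ≤ 0.5022 ∧ 1.5311 ≤ sD κ t ∧ sD κ t ≤ 1.6811 := by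
  have hy1 : 0.178 ≤ sy κ t := syR_ge h 0.5 0.6 0.5654 0.178 1.19482 1.19483 0.35446 0.42536 hk1 hk2 (by linarith) (by norm_num) (by norm_num)
    (expn_ge (by norm_num) (by norm_num)) (expn_le (by norm_num) (by norm_num) (by norm_num)) (by norm_num)
    (by norm_num) (by norm_num) (by norm_num) (by norm_num) (by norm_num) (by norm_num)
  have hy2 : sy κ t ≤ 0.226 := syR_le h 0.5 0.6 0.666 0.226 1.25357 0.4564 0.47217 0.56662 hk1 hk2 (by linarith) (by norm_num) (by norm_num)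
    (expn_ge (by norm_num) (by norm_num)) (by norm_num) (by norm_num) (Or.inr ((mul_le_mul_of_nonneg_left (expn_le (E := 1.25358) (by norm_num) (by norm_num) (by norm_num)) (by norm_num)).trans (by norm_num))) (by norm_num) (by norm_num) (by norm_num)
  have hy1' : 0.178 ≤ sy κ t := by linarith
  have hy2' : sy κ t ≤ 0.226 := by linarith
  have hx1 : 0.3285 ≤ sx κ t := sx_lo h 0.5 0.226 0.2261 0.79771 0.3285 hk1 (by norm_num) hy2' (abs_le.2 ⟨by linarith, by linarith⟩) (ex_lm 0.226 (by norm_num) (by norm_num) (by norm_num) (by norm_num) (by norm_num)) (by norm_num) (by norm_num)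
  have hx2 : sx κ t ≤ 0.4696 := sx_hi h 0.6 0.178 0.178 0.83695 0.4696 hk2 hy1' (by norm_num) (le_trans (by linarith) (le_abs_self _)) (ex_um 0.178 (by norm_num) (by norm_num) (by norm_num) (by norm_num)) (by norm_num) (by norm_num)
  refine ⟨⟨hy1', hy2'⟩, ⟨hx1, hx2⟩, v5_n h 0.6 0.178 0.83695 0.5022 hk2 hy1' (ex_um 0.178 (by norm_num) (by norm_num) (by norm_num) (by norm_num)) (by norm_num), ?_, ?_⟩
  · exact v5_Dlo h 0.5 0.178 0.226 0.178 0.83694 1.5311 (by norm_num) hk1 hy1' hy2' (ex_lm 0.178 (by norm_num) (by norm_num) (by norm_num) (by norm_num) (by norm_num)) (by norm_num) (by norm_num) (by norm_num) (by norm_num)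
  · exact v5_Dup h 0.6 0.178 0.226 0.83695 0.79772 1.6811 hk2 hy1' hy2' (ex_um 0.178 (by norm_num) (by norm_num) (by norm_num) (by norm_num)) (ex_um 0.226 (by norm_num) (by norm_num) (by norm_num) (by norm_num)) (by norm_num) (by norm_num) (by norm_num)

private theorem B5Dw_B2 {κ t : ℝ} (h : DomR κ t) (hk1 : 0.5 ≤ κ) (hk2 : κ ≤ 0.6) (ht1 : (-0.6913) ≤ t + κ) (ht2 : t + κ ≤ (-0.5906)) :
    ((-0.426) ≤ sy κ t ∧ sy κ t ≤ (-0.316)) ∧ (0.5373 ≤ sx κ t ∧ sx κ t ≤ 0.8627) ∧ κ * Real.exp (-sy κ t) ≤ 0.9187 ∧ 0.734 ≤ sD κ t ∧ sD κ t ≤ 1.0454 := by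
  have hy1 : -0.426 ≤ sy κ t := syL_ge h 0.5 0.6 0.6913 0.426 0.65311 0.65312 0.4559 0.4637 0.55646 hk1 hk2 (by linarith) (by norm_num) (by norm_num) (by norm_num)
    (expm_ge (by norm_num) (by norm_num) (by norm_num) (by norm_num)) (expm_le (by norm_num) (by norm_num) (by norm_num)) (by norm_num)
    (by norm_num) (by norm_num) (by norm_num) (by norm_num) (by norm_num) (by norm_num)
  have hy2 : sy κ t ≤ -0.316 := syL_le h 0.5 0.6 0.5906 0.316 0.72905 0.72906 0.38396 0.46077 hk1 hk2 (by linarith) (by norm_num) (by norm_num) (by norm_num)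
    (expm_ge (by norm_num) (by norm_num) (by norm_num) (by norm_num)) (expm_le (by norm_num) (by norm_num) (by norm_num)) (by norm_num)
    (by norm_num) (by norm_num) (by norm_num) (by norm_num) (by norm_num) (by norm_num)
  have hy1' : (-0.426) ≤ sy κ t := by linarith
  have hy2' : sy κ t ≤ (-0.316) := by linarith
  have hx1 : 0.5373 ≤ sx κ t := sx_lo h 0.5 (-0.316) 0.4261 1.37163 0.5373 hk1 (by norm_num) hy2' (abs_le.2 ⟨by linarith, by linarith⟩) (ex_lp 0.316 (by norm_num) (by norm_num) (by norm_num)) (by norm_num) (by norm_num)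
  have hx2 : sx κ t ≤ 0.8627 := sx_hi h 0.6 (-0.426) 0.316 1.53113 0.8627 hk2 hy1' (by norm_num) (le_trans (by linarith) (neg_le_abs _)) (ex_up 0.426 (by norm_num) (by norm_num) (by norm_num) (by norm_num)) (by norm_num) (by norm_num)
  refine ⟨⟨hy1', hy2'⟩, ⟨hx1, hx2⟩, v5_n h 0.6 (-0.426) 1.53113 0.9187 hk2 hy1' (ex_up 0.426 (by norm_num) (by norm_num) (by norm_num) (by norm_num)) (by norm_num), ?_, ?_⟩
  · exact v5_Dlo h 0.5 (-0.426) (-0.316) (-0.426) 1.53112 0.734 (by norm_num) hk1 hy1' hy2' (ex_lp 0.426 (by norm_num) (by norm_num) (by norm_num)) (by norm_num) (by norm_num) (by norm_num) (by norm_num)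
  · exact v5_Dup h 0.6 (-0.426) (-0.316) 1.53113 1.37164 1.0454 hk2 hy1' hy2' (ex_up 0.426 (by norm_num) (by norm_num) (by norm_num) (by norm_num)) (ex_up 0.316 (by norm_num) (by norm_num) (by norm_num) (by norm_num)) (by norm_num) (by norm_num) (by norm_num)

private theorem B5Dw_T3_0_0 {β x y : ℝ} (hβ : 0 < β) (hN : β * 16.666 ≤ 1) (hx1 : 0.1784 ≤ x) (hx2 : x ≤ 0.389)
    (hy1 : -0 ≤ y) (hy2 : y ≤ 0.341) : ‖HH β (x + y * I) - 1‖ ≤ 0.035 := by
  refine le_epsJ (C := 0.5829) (N0 := 16.666) (J_boxp 0.1784 0.389 0 0.341 0.341 0.8356 0.5174 1.3963 1.5471 0.4715 4.0825 16.666 0.6192 2.247 1.318 1.2705 0.4177 0.3315 1.0693 3.8444 0.4068 0.7122 0.4649 2.0556 0.0009512 0.003991 0.0000003101 0.0000003101 0.001139 0.000007019 0.0004321 0.0000003101 0.5829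
    hβ hN hx1 hx2 hy1 hy2 (by norm_num) (by norm_num) (by linarith) (by norm_num) (by norm_num) (by norm_num) (by norm_num) (by norm_num) (by norm_num) (by norm_num) (by norm_num) (by norm_num) (by norm_num) (by norm_num) (by norm_num) (by norm_num) (by norm_num) (by norm_num) (by norm_num) (by norm_num) (by norm_num) (by norm_num) (by norm_num) (by norm_num)
    (cube_sqrt_geJ (s := 0.8908) (by norm_num) (by norm_num) (by norm_num) (by norm_num))
    (cube_sqrt_geJ (s := 0.9613) (by norm_num) (by norm_num) (by norm_num) (by norm_num))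
    (by norm_num) (by norm_num) (by norm_num) (by norm_num) (by norm_num) (by norm_num) (by norm_num) (by norm_num) (by norm_num) (by norm_num) (by norm_num) (by norm_num) (by norm_num) (by norm_num) (by norm_num) (by norm_num) (by norm_num) (by norm_num)
    (exp_neg_leJ (r := 0.961) 6 (by norm_num) (by norm_num) (by norm_num) (by norm_num))
    (exp_neg_leJ (r := 0.524) 5 (by norm_num) (by norm_num) (by norm_num) (by norm_num))
    (exp_neg_leJ (r := 0.99) 14 (by norm_num) (by norm_num) (by norm_num) (by norm_num))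
    (exp_neg_leJ (r := 0.99) 14 (by norm_num) (by norm_num) (by norm_num) (by norm_num))
    (exp_neg_leJ (r := 0.779) 6 (by norm_num) (by norm_num) (by norm_num) (by norm_num))
    (exp_neg_leJ (r := 0.869) 11 (by norm_num) (by norm_num) (by norm_num) (by norm_num))
    (exp_neg_leJ (r := 0.748) 7 (by norm_num) (by norm_num) (by norm_num) (by norm_num))
    (exp_neg_leJ (r := 0.99) 14 (by norm_num) (by norm_num) (by norm_num) (by norm_num))
    (by norm_num)) (by norm_num) hN hβ.le (by norm_num)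

private theorem B5Dw_T3_0_1 {β x y : ℝ} (hβ : 0 < β) (hN : β * 16.666 ≤ 1) (hx1 : 0.389 ≤ x) (hx2 : x ≤ 0.6197)
    (hy1 : -0 ≤ y) (hy2 : y ≤ 0.341) : ‖HH β (x + y * I) - 1‖ ≤ 0.035 := by
  refine le_epsJ (C := 0.5647) (N0 := 16.666) (J_boxp 0.389 0.6197 0 0.341 0.341 0.9839 0.7074 1.4773 1.2454 0.4849 4.0825 16.666 0.719 2.61 1.381 1.1817 0.4919 0.374 1.1414 3.7221 0.5091 1.0038 0.8861 1.9603 0.0002753 0.001964 0.0000003101 0.0000003101 0.0002068 0.0000003101 0.0000003867 0.0000003101 0.5647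
    hβ hN hx1 hx2 hy1 hy2 (by norm_num) (by norm_num) (by linarith) (by norm_num) (by norm_num) (by norm_num) (by norm_num) (by norm_num) (by norm_num) (by norm_num) (by norm_num) (by norm_num) (by norm_num) (by norm_num) (by norm_num) (by norm_num) (by norm_num) (by norm_num) (by norm_num) (by norm_num) (by norm_num) (by norm_num) (by norm_num) (by norm_num)
    (cube_sqrt_geJ (s := 0.8719) (by norm_num) (by norm_num) (by norm_num) (by norm_num))
    (cube_sqrt_geJ (s := 0.9549) (by norm_num) (by norm_num) (by norm_num) (by norm_num))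
    (by norm_num) (by norm_num) (by norm_num) (by norm_num) (by norm_num) (by norm_num) (by norm_num) (by norm_num) (by norm_num) (by norm_num) (by norm_num) (by norm_num) (by norm_num) (by norm_num) (by norm_num) (by norm_num) (by norm_num) (by norm_num)
    (exp_neg_leJ (r := 0.198) 8 (by norm_num) (by norm_num) (by norm_num) (by norm_num))
    (exp_neg_leJ (r := 0.233) 6 (by norm_num) (by norm_num) (by norm_num) (by norm_num))
    (exp_neg_leJ (r := 0.99) 14 (by norm_num) (by norm_num) (by norm_num) (by norm_num))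
    (exp_neg_leJ (r := 0.99) 14 (by norm_num) (by norm_num) (by norm_num) (by norm_num))
    (exp_neg_leJ (r := 0.484) 8 (by norm_num) (by norm_num) (by norm_num) (by norm_num))
    (exp_neg_leJ (r := 0.99) 14 (by norm_num) (by norm_num) (by norm_num) (by norm_num))
    (exp_neg_leJ (r := 0.767) 14 (by norm_num) (by norm_num) (by norm_num) (by norm_num))
    (exp_neg_leJ (r := 0.99) 14 (by norm_num) (by norm_num) (by norm_num) (by norm_num))
    (by norm_num)) (by norm_num) hN hβ.le (by norm_num)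

private theorem B5Dw_T3_1_0 {β x y : ℝ} (hβ : 0 < β) (hN : β * 16.666 ≤ 1) (hx1 : 0.1784 ≤ x) (hx2 : x ≤ 0.34)
    (hy1 : -0 ≤ y) (hy2 : y ≤ 0.3761) : ‖HH β (x + y * I) - 1‖ ≤ 0.035 := by
  refine le_epsJ (C := 0.5825) (N0 := 16.666) (J_boxp 0.1784 0.34 0 0.3761 0.3761 0.8356 0.5071 1.4175 1.5588 0.475 4.0825 16.666 0.6069 2.206 1.311 1.2893 0.4177 0.3332 1.0693 3.8623 0.4033 0.7086 0.3144 1.9182 0.0009512 0.003877 0.0000003101 0.0000003101 0.001207 0.000007449 0.005306 0.0000003101 0.5825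
    hβ hN hx1 hx2 hy1 hy2 (by norm_num) (by norm_num) (by linarith) (by norm_num) (by norm_num) (by norm_num) (by norm_num) (by norm_num) (by norm_num) (by norm_num) (by norm_num) (by norm_num) (by norm_num) (by norm_num) (by norm_num) (by norm_num) (by norm_num) (by norm_num) (by norm_num) (by norm_num) (by norm_num) (by norm_num) (by norm_num) (by norm_num)
    (cube_sqrt_geJ (s := 0.8931) (by norm_num) (by norm_num) (by norm_num) (by norm_num))
    (cube_sqrt_geJ (s := 0.9621) (by norm_num) (by norm_num) (by norm_num) (by norm_num))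
    (by norm_num) (by norm_num) (by norm_num) (by norm_num) (by norm_num) (by norm_num) (by norm_num) (by norm_num) (by norm_num) (by norm_num) (by norm_num) (by norm_num) (by norm_num) (by norm_num) (by norm_num) (by norm_num) (by norm_num) (by norm_num)
    (exp_neg_leJ (r := 0.961) 6 (by norm_num) (by norm_num) (by norm_num) (by norm_num))
    (exp_neg_leJ (r := 0.553) 5 (by norm_num) (by norm_num) (by norm_num) (by norm_num))
    (exp_neg_leJ (r := 0.99) 14 (by norm_num) (by norm_num) (by norm_num) (by norm_num))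
    (exp_neg_leJ (r := 0.99) 14 (by norm_num) (by norm_num) (by norm_num) (by norm_num))
    (exp_neg_leJ (r := 0.721) 6 (by norm_num) (by norm_num) (by norm_num) (by norm_num))
    (exp_neg_leJ (r := 0.809) 11 (by norm_num) (by norm_num) (by norm_num) (by norm_num))
    (exp_neg_leJ (r := 0.239) 5 (by norm_num) (by norm_num) (by norm_num) (by norm_num))
    (exp_neg_leJ (r := 0.99) 14 (by norm_num) (by norm_num) (by norm_num) (by norm_num))
    (by norm_num)) (by norm_num) hN hβ.le (by norm_num)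

private theorem B5Dw_T3_1_1 {β x y : ℝ} (hβ : 0 < β) (hN : β * 16.666 ≤ 1) (hx1 : 0.34 ≤ x) (hx2 : x ≤ 0.553)
    (hy1 : -0 ≤ y) (hy2 : y ≤ 0.3761) : ‖HH β (x + y * I) - 1‖ ≤ 0.035 := by
  refine le_epsJ (C := 0.5822) (N0 := 16.666) (J_boxp 0.34 0.553 0 0.3761 0.3761 0.9494 0.6688 1.4831 1.3165 0.4859 4.0825 16.666 0.7045 2.552 1.372 1.2074 0.4746 0.3632 1.1246 3.753 0.4818 0.9324 0.6376 1.8018 0.0003684 0.002351 0.0000003101 0.0000003101 0.0003259 0.0000003101 0.00002429 0.0000003101 0.5822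
    hβ hN hx1 hx2 hy1 hy2 (by norm_num) (by norm_num) (by linarith) (by norm_num) (by norm_num) (by norm_num) (by norm_num) (by norm_num) (by norm_num) (by norm_num) (by norm_num) (by norm_num) (by norm_num) (by norm_num) (by norm_num) (by norm_num) (by norm_num) (by norm_num) (by norm_num) (by norm_num) (by norm_num) (by norm_num) (by norm_num) (by norm_num)
    (cube_sqrt_geJ (s := 0.8747) (by norm_num) (by norm_num) (by norm_num) (by norm_num))
    (cube_sqrt_geJ (s := 0.9558) (by norm_num) (by norm_num) (by norm_num) (by norm_num))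
    (by norm_num) (by norm_num) (by norm_num) (by norm_num) (by norm_num) (by norm_num) (by norm_num) (by norm_num) (by norm_num) (by norm_num) (by norm_num) (by norm_num) (by norm_num) (by norm_num) (by norm_num) (by norm_num) (by norm_num) (by norm_num)
    (exp_neg_leJ (r := 0.909) 7 (by norm_num) (by norm_num) (by norm_num) (by norm_num))
    (exp_neg_leJ (r := 0.053) 6 (by norm_num) (by norm_num) (by norm_num) (by norm_num))
    (exp_neg_leJ (r := 0.99) 14 (by norm_num) (by norm_num) (by norm_num) (by norm_num))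
    (exp_neg_leJ (r := 0.99) 14 (by norm_num) (by norm_num) (by norm_num) (by norm_num))
    (exp_neg_leJ (r := 0.029) 8 (by norm_num) (by norm_num) (by norm_num) (by norm_num))
    (exp_neg_leJ (r := 0.99) 14 (by norm_num) (by norm_num) (by norm_num) (by norm_num))
    (exp_neg_leJ (r := 0.626) 10 (by norm_num) (by norm_num) (by norm_num) (by norm_num))
    (exp_neg_leJ (r := 0.99) 14 (by norm_num) (by norm_num) (by norm_num) (by norm_num))
    (by norm_num)) (by norm_num) hN hβ.le (by norm_num)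

private theorem B5Dw_T3_1_2 {β x y : ℝ} (hβ : 0 < β) (hN : β * 16.666 ≤ 1) (hx1 : 0.553 ≤ x) (hx2 : x ≤ 0.6197)
    (hy1 : -0 ≤ y) (hy2 : y ≤ 0.3761) : ‖HH β (x + y * I) - 1‖ ≤ 0.035 := by
  refine le_epsJ (C := 0.3839) (N0 := 16.666) (J_boxp 0.553 0.6197 0 0.3761 0.3761 1.0994 0.7249 1.5092 1.0658 0.4901 4.0825 16.666 0.6594 2.385 1.343 1.1817 0.5496 0.4288 1.1975 3.7173 0.5852 1.2273 1.0636 2.0753 0.0001053 0.0007881 0.0000003101 0.0000003101 0.00005825 0.0000003101 0.0000003101 0.0000003101 0.3839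
    hβ hN hx1 hx2 hy1 hy2 (by norm_num) (by norm_num) (by linarith) (by norm_num) (by norm_num) (by norm_num) (by norm_num) (by norm_num) (by norm_num) (by norm_num) (by norm_num) (by norm_num) (by norm_num) (by norm_num) (by norm_num) (by norm_num) (by norm_num) (by norm_num) (by norm_num) (by norm_num) (by norm_num) (by norm_num) (by norm_num) (by norm_num)
    (cube_sqrt_geJ (s := 0.8832) (by norm_num) (by norm_num) (by norm_num) (by norm_num))
    (cube_sqrt_geJ (s := 0.9587) (by norm_num) (by norm_num) (by norm_num) (by norm_num))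
    (by norm_num) (by norm_num) (by norm_num) (by norm_num) (by norm_num) (by norm_num) (by norm_num) (by norm_num) (by norm_num) (by norm_num) (by norm_num) (by norm_num) (by norm_num) (by norm_num) (by norm_num) (by norm_num) (by norm_num) (by norm_num)
    (exp_neg_leJ (r := 0.159) 9 (by norm_num) (by norm_num) (by norm_num) (by norm_num))
    (exp_neg_leJ (r := 0.146) 7 (by norm_num) (by norm_num) (by norm_num) (by norm_num))
    (exp_neg_leJ (r := 0.99) 14 (by norm_num) (by norm_num) (by norm_num) (by norm_num))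
    (exp_neg_leJ (r := 0.99) 14 (by norm_num) (by norm_num) (by norm_num) (by norm_num))
    (exp_neg_leJ (r := 0.752) 9 (by norm_num) (by norm_num) (by norm_num) (by norm_num))
    (exp_neg_leJ (r := 0.99) 14 (by norm_num) (by norm_num) (by norm_num) (by norm_num))
    (exp_neg_leJ (r := 0.99) 14 (by norm_num) (by norm_num) (by norm_num) (by norm_num))
    (exp_neg_leJ (r := 0.99) 14 (by norm_num) (by norm_num) (by norm_num) (by norm_num))
    (by norm_num)) (by norm_num) hN hβ.le (by norm_num)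

private theorem B5Dw_T3 {β x y : ℝ} (hβ : 0 < β) (hN : β * 16.666 ≤ 1) (hx1 : 0.1784 ≤ x) (hx2 : x ≤ 0.6197)
    (hy1 : 0.0279 ≤ y) (hy2 : y ≤ 0.3761) : ‖HH β (x + y * I) - 1‖ ≤ 0.035 := by
  rcases le_total y 0.341 with hyy | hyy
  · rcases le_total x 0.389 with hxx | hxx
    · exact B5Dw_T3_0_0 hβ hN (by linarith) (by linarith) (by linarith) (by linarith)
    exact B5Dw_T3_0_1 hβ hN (by linarith) (by linarith) (by linarith) (by linarith)
  rcases le_total x 0.34 with hxx | hxx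
  · exact B5Dw_T3_1_0 hβ hN (by linarith) (by linarith) (by linarith) (by linarith)
  rcases le_total x 0.553 with hxx | hxx
  · exact B5Dw_T3_1_1 hβ hN (by linarith) (by linarith) (by linarith) (by linarith)
  exact B5Dw_T3_1_2 hβ hN (by linarith) (by linarith) (by linarith) (by linarith)

private theorem B5Dw_T4_0_0 {β x y : ℝ} (hβ : 0 < β) (hN : β * 16.666 ≤ 1) (hx1 : 0.4572 ≤ x) (hx2 : x ≤ 0.469)
    (hy1 : -0.5061 ≤ y) (hy2 : y ≤ -0.2359) : ‖HH β (x + y * I) - 1‖ ≤ 0.14 := by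
  refine le_epsJ (C := 2.3268) (N0 := 16.666) (J_boxp 0.4572 0.469 0.5061 0 (-0.2359) 0.6726 0.69 0.8966 1.7166 0.3778 4.0825 16.666 1.0259 4.327 1.6 0.7725 0.3362 0.2212 0.3659 2.1848 0.3006 1.133 1.1093 3.7508 0.003689 0.0251 0.002248 0.0000003101 0.006678 0.0000003101 0.0000003101 0.0000003101 2.3268
    hβ hN hx1 hx2 hy1 hy2 (by norm_num) (by norm_num) (by linarith) (by norm_num) (by norm_num) (by norm_num) (by norm_num) (by norm_num) (by norm_num) (by norm_num) (by norm_num) (by norm_num) (by norm_num) (by norm_num) (by norm_num) (by norm_num) (by norm_num) (by norm_num) (by norm_num) (by norm_num) (by norm_num) (by norm_num) (by norm_num) (by norm_num)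
    (cube_sqrt_geJ (s := 0.8111) (by norm_num) (by norm_num) (by norm_num) (by norm_num))
    (cube_sqrt_geJ (s := 0.935) (by norm_num) (by norm_num) (by norm_num) (by norm_num))
    (by norm_num) (by norm_num) (by norm_num) (by norm_num) (by norm_num) (by norm_num) (by norm_num) (by norm_num) (by norm_num) (by norm_num) (by norm_num) (by norm_num) (by norm_num) (by norm_num) (by norm_num) (by norm_num) (by norm_num) (by norm_num)
    (exp_neg_leJ (r := 0.603) 5 (by norm_num) (by norm_num) (by norm_num) (by norm_num))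
    (exp_neg_leJ (r := 0.686) 3 (by norm_num) (by norm_num) (by norm_num) (by norm_num))
    (exp_neg_leJ (r := 0.098) 6 (by norm_num) (by norm_num) (by norm_num) (by norm_num))
    (exp_neg_leJ (r := 0.99) 14 (by norm_num) (by norm_num) (by norm_num) (by norm_num))
    (exp_neg_leJ (r := 0.009) 5 (by norm_num) (by norm_num) (by norm_num) (by norm_num))
    (exp_neg_leJ (r := 0.99) 14 (by norm_num) (by norm_num) (by norm_num) (by norm_num))
    (exp_neg_leJ (r := 0.99) 14 (by norm_num) (by norm_num) (by norm_num) (by norm_num))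
    (exp_neg_leJ (r := 0.99) 14 (by norm_num) (by norm_num) (by norm_num) (by norm_num))
    (by norm_num)) (by norm_num) hN hβ.le (by norm_num)

private theorem B5Dw_T4_0_1 {β x y : ℝ} (hβ : 0 < β) (hN : β * 16.666 ≤ 1) (hx1 : 0.469 ≤ x) (hx2 : x ≤ 0.49)
    (hy1 : -0.5061 ≤ y) (hy2 : y ≤ -0.2359) : ‖HH β (x + y * I) - 1‖ ≤ 0.14 := by
  refine le_epsJ (C := 2.3274) (N0 := 16.666) (J_boxp 0.469 0.49 0.5061 0 (-0.2359) 0.6809 0.7045 0.9078 1.6958 0.3802 4.0825 16.666 1.0347 4.396 1.607 0.7644 0.3404 0.223 0.3699 2.1744 0.3063 1.1493 1.1329 3.735 0.00344 0.02436 0.002104 0.0000003101 0.006073 0.0000003101 0.0000003101 0.0000003101 2.3274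
    hβ hN hx1 hx2 hy1 hy2 (by norm_num) (by norm_num) (by linarith) (by norm_num) (by norm_num) (by norm_num) (by norm_num) (by norm_num) (by norm_num) (by norm_num) (by norm_num) (by norm_num) (by norm_num) (by norm_num) (by norm_num) (by norm_num) (by norm_num) (by norm_num) (by norm_num) (by norm_num) (by norm_num) (by norm_num) (by norm_num) (by norm_num)
    (cube_sqrt_geJ (s := 0.8093) (by norm_num) (by norm_num) (by norm_num) (by norm_num))
    (cube_sqrt_geJ (s := 0.9345) (by norm_num) (by norm_num) (by norm_num) (by norm_num))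
    (by norm_num) (by norm_num) (by norm_num) (by norm_num) (by norm_num) (by norm_num) (by norm_num) (by norm_num) (by norm_num) (by norm_num) (by norm_num) (by norm_num) (by norm_num) (by norm_num) (by norm_num) (by norm_num) (by norm_num) (by norm_num)
    (exp_neg_leJ (r := 0.673) 5 (by norm_num) (by norm_num) (by norm_num) (by norm_num))
    (exp_neg_leJ (r := 0.716) 3 (by norm_num) (by norm_num) (by norm_num) (by norm_num))
    (exp_neg_leJ (r := 0.164) 6 (by norm_num) (by norm_num) (by norm_num) (by norm_num))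
    (exp_neg_leJ (r := 0.99) 14 (by norm_num) (by norm_num) (by norm_num) (by norm_num))
    (exp_neg_leJ (r := 0.104) 5 (by norm_num) (by norm_num) (by norm_num) (by norm_num))
    (exp_neg_leJ (r := 0.99) 14 (by norm_num) (by norm_num) (by norm_num) (by norm_num))
    (exp_neg_leJ (r := 0.99) 14 (by norm_num) (by norm_num) (by norm_num) (by norm_num))
    (exp_neg_leJ (r := 0.99) 14 (by norm_num) (by norm_num) (by norm_num) (by norm_num))
    (by norm_num)) (by norm_num) hN hβ.le (by norm_num)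

private theorem B5Dw_T4_0_2 {β x y : ℝ} (hβ : 0 < β) (hN : β * 16.666 ≤ 1) (hx1 : 0.49 ≤ x) (hx2 : x ≤ 0.526)
    (hy1 : -0.5061 ≤ y) (hy2 : y ≤ -0.2359) : ‖HH β (x + y * I) - 1‖ ≤ 0.14 := by
  refine le_epsJ (C := 2.3273) (N0 := 16.666) (J_boxp 0.49 0.526 0.5061 0 (-0.2359) 0.6957 0.73 0.9277 1.6599 0.3843 4.0825 16.666 1.0494 4.512 1.619 0.7506 0.3478 0.2261 0.3771 2.1564 0.3165 1.1784 1.1749 3.7077 0.003044 0.02313 0.001866 0.0000003101 0.005124 0.0000003101 0.0000003101 0.0000003101 2.3273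
    hβ hN hx1 hx2 hy1 hy2 (by norm_num) (by norm_num) (by linarith) (by norm_num) (by norm_num) (by norm_num) (by norm_num) (by norm_num) (by norm_num) (by norm_num) (by norm_num) (by norm_num) (by norm_num) (by norm_num) (by norm_num) (by norm_num) (by norm_num) (by norm_num) (by norm_num) (by norm_num) (by norm_num) (by norm_num) (by norm_num) (by norm_num)
    (cube_sqrt_geJ (s := 0.8063) (by norm_num) (by norm_num) (by norm_num) (by norm_num))
    (cube_sqrt_geJ (s := 0.9335) (by norm_num) (by norm_num) (by norm_num) (by norm_num))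
    (by norm_num) (by norm_num) (by norm_num) (by norm_num) (by norm_num) (by norm_num) (by norm_num) (by norm_num) (by norm_num) (by norm_num) (by norm_num) (by norm_num) (by norm_num) (by norm_num) (by norm_num) (by norm_num) (by norm_num) (by norm_num)
    (exp_neg_leJ (r := 0.796) 5 (by norm_num) (by norm_num) (by norm_num) (by norm_num))
    (exp_neg_leJ (r := 0.768) 3 (by norm_num) (by norm_num) (by norm_num) (by norm_num))
    (exp_neg_leJ (r := 0.284) 6 (by norm_num) (by norm_num) (by norm_num) (by norm_num))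
    (exp_neg_leJ (r := 0.99) 14 (by norm_num) (by norm_num) (by norm_num) (by norm_num))
    (exp_neg_leJ (r := 0.274) 5 (by norm_num) (by norm_num) (by norm_num) (by norm_num))
    (exp_neg_leJ (r := 0.99) 14 (by norm_num) (by norm_num) (by norm_num) (by norm_num))
    (exp_neg_leJ (r := 0.99) 14 (by norm_num) (by norm_num) (by norm_num) (by norm_num))
    (exp_neg_leJ (r := 0.99) 14 (by norm_num) (by norm_num) (by norm_num) (by norm_num))
    (by norm_num)) (by norm_num) hN hβ.le (by norm_num)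

private theorem B5Dw_T4_0_3 {β x y : ℝ} (hβ : 0 < β) (hN : β * 16.666 ≤ 1) (hx1 : 0.526 ≤ x) (hx2 : x ≤ 0.585)
    (hy1 : -0.5061 ≤ y) (hy2 : y ≤ -0.2359) : ‖HH β (x + y * I) - 1‖ ≤ 0.14 := by
  refine le_epsJ (C := 2.3303) (N0 := 16.666) (J_boxp 0.526 0.585 0.5061 0 (-0.2359) 0.721 0.7736 0.9624 1.6025 0.3914 4.0825 16.666 1.073 4.709 1.638 0.7279 0.3604 0.2315 0.3894 2.1265 0.334 1.2283 1.2469 3.6612 0.002464 0.02116 0.001521 0.0000003101 0.003827 0.0000003101 0.0000003101 0.0000003101 2.3303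
    hβ hN hx1 hx2 hy1 hy2 (by norm_num) (by norm_num) (by linarith) (by norm_num) (by norm_num) (by norm_num) (by norm_num) (by norm_num) (by norm_num) (by norm_num) (by norm_num) (by norm_num) (by norm_num) (by norm_num) (by norm_num) (by norm_num) (by norm_num) (by norm_num) (by norm_num) (by norm_num) (by norm_num) (by norm_num) (by norm_num) (by norm_num)
    (cube_sqrt_geJ (s := 0.8014) (by norm_num) (by norm_num) (by norm_num) (by norm_num))
    (cube_sqrt_geJ (s := 0.9319) (by norm_num) (by norm_num) (by norm_num) (by norm_num))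
    (by norm_num) (by norm_num) (by norm_num) (by norm_num) (by norm_num) (by norm_num) (by norm_num) (by norm_num) (by norm_num) (by norm_num) (by norm_num) (by norm_num) (by norm_num) (by norm_num) (by norm_num) (by norm_num) (by norm_num) (by norm_num)
    (exp_neg_leJ (r := 0.006) 6 (by norm_num) (by norm_num) (by norm_num) (by norm_num))
    (exp_neg_leJ (r := 0.858) 3 (by norm_num) (by norm_num) (by norm_num) (by norm_num))
    (exp_neg_leJ (r := 0.489) 6 (by norm_num) (by norm_num) (by norm_num) (by norm_num))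
    (exp_neg_leJ (r := 0.99) 14 (by norm_num) (by norm_num) (by norm_num) (by norm_num))
    (exp_neg_leJ (r := 0.566) 5 (by norm_num) (by norm_num) (by norm_num) (by norm_num))
    (exp_neg_leJ (r := 0.99) 14 (by norm_num) (by norm_num) (by norm_num) (by norm_num))
    (exp_neg_leJ (r := 0.99) 14 (by norm_num) (by norm_num) (by norm_num) (by norm_num))
    (exp_neg_leJ (r := 0.99) 14 (by norm_num) (by norm_num) (by norm_num) (by norm_num))
    (by norm_num)) (by norm_num) hN hβ.le (by norm_num)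

private theorem B5Dw_T4_0_4 {β x y : ℝ} (hβ : 0 < β) (hN : β * 16.666 ≤ 1) (hx1 : 0.585 ≤ x) (hx2 : x ≤ 0.675)
    (hy1 : -0.5061 ≤ y) (hy2 : y ≤ -0.2359) : ‖HH β (x + y * I) - 1‖ ≤ 0.14 := by
  refine le_epsJ (C := 2.3275) (N0 := 16.666) (J_boxp 0.585 0.675 0.5061 0 (-0.2359) 0.7626 0.8437 1.0196 1.5163 0.4029 4.0825 16.666 1.1064 5.006 1.665 0.6933 0.3812 0.2406 0.4096 2.0798 0.3626 1.3099 1.3649 3.5886 0.001742 0.01816 0.001087 0.0000003101 0.002375 0.0000003101 0.0000003101 0.0000003101 2.3275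
    hβ hN hx1 hx2 hy1 hy2 (by norm_num) (by norm_num) (by linarith) (by norm_num) (by norm_num) (by norm_num) (by norm_num) (by norm_num) (by norm_num) (by norm_num) (by norm_num) (by norm_num) (by norm_num) (by norm_num) (by norm_num) (by norm_num) (by norm_num) (by norm_num) (by norm_num) (by norm_num) (by norm_num) (by norm_num) (by norm_num) (by norm_num)
    (cube_sqrt_geJ (s := 0.7944) (by norm_num) (by norm_num) (by norm_num) (by norm_num))
    (cube_sqrt_geJ (s := 0.9298) (by norm_num) (by norm_num) (by norm_num) (by norm_num))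
    (by norm_num) (by norm_num) (by norm_num) (by norm_num) (by norm_num) (by norm_num) (by norm_num) (by norm_num) (by norm_num) (by norm_num) (by norm_num) (by norm_num) (by norm_num) (by norm_num) (by norm_num) (by norm_num) (by norm_num) (by norm_num)
    (exp_neg_leJ (r := 0.353) 6 (by norm_num) (by norm_num) (by norm_num) (by norm_num))
    (exp_neg_leJ (r := 0.009) 4 (by norm_num) (by norm_num) (by norm_num) (by norm_num))
    (exp_neg_leJ (r := 0.826) 6 (by norm_num) (by norm_num) (by norm_num) (by norm_num))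
    (exp_neg_leJ (r := 0.99) 14 (by norm_num) (by norm_num) (by norm_num) (by norm_num))
    (exp_neg_leJ (r := 0.043) 6 (by norm_num) (by norm_num) (by norm_num) (by norm_num))
    (exp_neg_leJ (r := 0.99) 14 (by norm_num) (by norm_num) (by norm_num) (by norm_num))
    (exp_neg_leJ (r := 0.99) 14 (by norm_num) (by norm_num) (by norm_num) (by norm_num))
    (exp_neg_leJ (r := 0.99) 14 (by norm_num) (by norm_num) (by norm_num) (by norm_num))
    (by norm_num)) (by norm_num) hN hβ.le (by norm_num)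

private theorem B5Dw_T4_0_5 {β x y : ℝ} (hβ : 0 < β) (hN : β * 16.666 ≤ 1) (hx1 : 0.675 ≤ x) (hx2 : x ≤ 0.804)
    (hy1 : -0.5061 ≤ y) (hy2 : y ≤ -0.2359) : ‖HH β (x + y * I) - 1‖ ≤ 0.14 := by
  refine le_epsJ (C := 2.3309) (N0 := 16.666) (J_boxp 0.675 0.804 0.5061 0 (-0.2359) 0.8259 0.9501 1.1092 1.4032 0.4202 4.0825 16.666 1.1504 5.436 1.702 0.6437 0.4129 0.2545 0.4404 2.0113 0.4064 1.4346 1.5449 3.4794 0.00103 0.0144 0.0006498 0.0000003101 0.001146 0.0000003101 0.0000003101 0.0000003101 2.3309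
    hβ hN hx1 hx2 hy1 hy2 (by norm_num) (by norm_num) (by linarith) (by norm_num) (by norm_num) (by norm_num) (by norm_num) (by norm_num) (by norm_num) (by norm_num) (by norm_num) (by norm_num) (by norm_num) (by norm_num) (by norm_num) (by norm_num) (by norm_num) (by norm_num) (by norm_num) (by norm_num) (by norm_num) (by norm_num) (by norm_num) (by norm_num)
    (cube_sqrt_geJ (s := 0.7851) (by norm_num) (by norm_num) (by norm_num) (by norm_num))
    (cube_sqrt_geJ (s := 0.9269) (by norm_num) (by norm_num) (by norm_num) (by norm_num))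
    (by norm_num) (by norm_num) (by norm_num) (by norm_num) (by norm_num) (by norm_num) (by norm_num) (by norm_num) (by norm_num) (by norm_num) (by norm_num) (by norm_num) (by norm_num) (by norm_num) (by norm_num) (by norm_num) (by norm_num) (by norm_num)
    (exp_neg_leJ (r := 0.881) 6 (by norm_num) (by norm_num) (by norm_num) (by norm_num))
    (exp_neg_leJ (r := 0.241) 4 (by norm_num) (by norm_num) (by norm_num) (by norm_num))
    (exp_neg_leJ (r := 0.339) 7 (by norm_num) (by norm_num) (by norm_num) (by norm_num))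
    (exp_neg_leJ (r := 0.99) 14 (by norm_num) (by norm_num) (by norm_num) (by norm_num))
    (exp_neg_leJ (r := 0.773) 6 (by norm_num) (by norm_num) (by norm_num) (by norm_num))
    (exp_neg_leJ (r := 0.99) 14 (by norm_num) (by norm_num) (by norm_num) (by norm_num))
    (exp_neg_leJ (r := 0.99) 14 (by norm_num) (by norm_num) (by norm_num) (by norm_num))
    (exp_neg_leJ (r := 0.99) 14 (by norm_num) (by norm_num) (by norm_num) (by norm_num))
    (by norm_num)) (by norm_num) hN hβ.le (by norm_num)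

private theorem B5Dw_T4_0_6 {β x y : ℝ} (hβ : 0 < β) (hN : β * 16.666 ≤ 1) (hx1 : 0.804 ≤ x) (hx2 : x ≤ 0.9428)
    (hy1 : -0.5061 ≤ y) (hy2 : y ≤ -0.2359) : ‖HH β (x + y * I) - 1‖ ≤ 0.14 := by
  refine le_epsJ (C := 2.0962) (N0 := 16.666) (J_boxp 0.804 0.9428 0.5061 0 (-0.2359) 0.9168 1.0701 1.2136 1.255 0.4395 4.0825 16.666 1.1673 5.612 1.716 0.5903 0.4583 0.28 0.4846 1.9362 0.469 1.6132 1.8029 3.4112 0.0004821 0.009416 0.000311 0.0000003101 0.0004039 0.0000003101 0.0000003101 0.0000003101 2.0962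
    hβ hN hx1 hx2 hy1 hy2 (by norm_num) (by norm_num) (by linarith) (by norm_num) (by norm_num) (by norm_num) (by norm_num) (by norm_num) (by norm_num) (by norm_num) (by norm_num) (by norm_num) (by norm_num) (by norm_num) (by norm_num) (by norm_num) (by norm_num) (by norm_num) (by norm_num) (by norm_num) (by norm_num) (by norm_num) (by norm_num) (by norm_num)
    (cube_sqrt_geJ (s := 0.7816) (by norm_num) (by norm_num) (by norm_num) (by norm_num))
    (cube_sqrt_geJ (s := 0.9257) (by norm_num) (by norm_num) (by norm_num) (by norm_num))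
    (by norm_num) (by norm_num) (by norm_num) (by norm_num) (by norm_num) (by norm_num) (by norm_num) (by norm_num) (by norm_num) (by norm_num) (by norm_num) (by norm_num) (by norm_num) (by norm_num) (by norm_num) (by norm_num) (by norm_num) (by norm_num)
    (exp_neg_leJ (r := 0.638) 7 (by norm_num) (by norm_num) (by norm_num) (by norm_num))
    (exp_neg_leJ (r := 0.666) 4 (by norm_num) (by norm_num) (by norm_num) (by norm_num))
    (exp_neg_leJ (r := 0.076) 8 (by norm_num) (by norm_num) (by norm_num) (by norm_num))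
    (exp_neg_leJ (r := 0.99) 14 (by norm_num) (by norm_num) (by norm_num) (by norm_num))
    (exp_neg_leJ (r := 0.816) 7 (by norm_num) (by norm_num) (by norm_num) (by norm_num))
    (exp_neg_leJ (r := 0.99) 14 (by norm_num) (by norm_num) (by norm_num) (by norm_num))
    (exp_neg_leJ (r := 0.99) 14 (by norm_num) (by norm_num) (by norm_num) (by norm_num))
    (exp_neg_leJ (r := 0.99) 14 (by norm_num) (by norm_num) (by norm_num) (by norm_num))
    (by norm_num)) (by norm_num) hN hβ.le (by norm_num)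

private theorem B5Dw_T4 {β x y : ℝ} (hβ : 0 < β) (hN : β * 16.666 ≤ 1) (hx1 : 0.4572 ≤ x) (hx2 : x ≤ 0.9428)
    (hy1 : (-0.5061) ≤ y) (hy2 : y ≤ (-0.2359)) : ‖HH β (x + y * I) - 1‖ ≤ 0.14 := by
  rcases le_total x 0.469 with hxx | hxx
  · exact B5Dw_T4_0_0 hβ hN (by linarith) (by linarith) (by linarith) (by linarith)
  rcases le_total x 0.49 with hxx | hxx
  · exact B5Dw_T4_0_1 hβ hN (by linarith) (by linarith) (by linarith) (by linarith)
  rcases le_total x 0.526 with hxx | hxx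
  · exact B5Dw_T4_0_2 hβ hN (by linarith) (by linarith) (by linarith) (by linarith)
  rcases le_total x 0.585 with hxx | hxx
  · exact B5Dw_T4_0_3 hβ hN (by linarith) (by linarith) (by linarith) (by linarith)
  rcases le_total x 0.675 with hxx | hxx
  · exact B5Dw_T4_0_4 hβ hN (by linarith) (by linarith) (by linarith) (by linarith)
  rcases le_total x 0.804 with hxx | hxx
  · exact B5Dw_T4_0_5 hβ hN (by linarith) (by linarith) (by linarith) (by linarith)
  exact B5Dw_T4_0_6 hβ hN (by linarith) (by linarith) (by linarith) (by linarith)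

private theorem B5Dw_G5 {κ : ℝ} (hk1 : 0.5 ≤ κ) (hk2 : κ ≤ 0.6) : gG κ 0.59 ≤ 1.32879 ∧ 0.49262 ≤ Real.exp (-(κ * 0.59)) ^ 2 := by
  refine ⟨gG_le 0.59 0.5 0.6 1.32879 0.74454 0.70188 1.34313 1.42476 hk1 hk2 (by norm_num)
    (ex_um 0.295 (by norm_num) (by norm_num) (by norm_num) (by norm_num)) (ex_um 0.354 (by norm_num) (by norm_num) (by norm_num) (by norm_num))
    (ex_up 0.295 (by norm_num) (by norm_num) (by norm_num) (by norm_num)) (ex_up 0.354 (by norm_num) (by norm_num) (by norm_num) (by norm_num))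
    (by norm_num) (by norm_num), ?_⟩
  exact v5_M 0.70187 (ex_lm 0.354 (by linarith) (by norm_num) (by norm_num) (by norm_num) (by norm_num)) (by norm_num) (by norm_num)

private theorem B5Dw_C6 {β r t κ : ℝ} (hβ : 0 < β) (hr : 10 ≤ r) (hκ : κ = β * r) (hk1 : 0.5 ≤ κ) (hk2 : κ ≤ 0.6) (hta : 1.822 ≤ t + κ)
    (htb : t + κ ≤ 1.9827) : ‖F (cexp (I * β)) (r * cexp (I * ((t + β / 2 : ℝ) : ℂ)))‖ ≤
      3.4989 * Real.exp (r * (1.32879 - 0.59 * (t + κ))) + 0.1329 * Real.exp (r * 0) :=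
  v5_H 0.59 0.5 0.6 1.822 1.9827 1.32879 2.8092 0.49262 0.0978 2.7926 0.0879 0.04801 0.6198 0.00000161 3.4989 0.1329 hβ hr hκ (by norm_num) hk1 hk2 hta htb (by norm_num) (B5Dw_G5 hk1 hk2).1 (B5Dw_G5 hk1 hk2).2 (by norm_num) (by norm_num) (by norm_num)
    (by norm_num) (by norm_num) (by norm_num) (by norm_num) (by norm_num) (by norm_num) (by norm_num) (by norm_num) (ex_un 0 0.48 (by norm_num) (by norm_num) (by norm_num) (by norm_num))
    (v5_hump 2.6983 16.666 4.0825 0.0000009316 0.00000161 hβ hr hκ hk1 hk2 (by norm_num) htb (by norm_num) (by norm_num) (by norm_num) (by norm_num) (by norm_num) (by norm_num) (by norm_num) (ex_un 13 0.9 (by norm_num) (by norm_num) (by norm_num) (by norm_num)) (by norm_num)) (by norm_num) (by norm_num)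

private theorem B5Dw_G7 {κ : ℝ} (hk1 : 0.5 ≤ κ) (hk2 : κ ≤ 0.6) : gG κ (-0.71) ≤ 1.27334 ∧ 2.03398 ≤ Real.exp (-(κ * (-0.71))) ^ 2 := by
  refine ⟨gG_le (-0.71) 0.5 0.6 1.27334 1.42619 1.53113 0.70118 0.65312 hk1 hk2 (by norm_num)
    (ex_up 0.355 (by norm_num) (by norm_num) (by norm_num) (by norm_num)) (ex_up 0.426 (by norm_num) (by norm_num) (by norm_num) (by norm_num))
    (ex_um 0.355 (by norm_num) (by norm_num) (by norm_num) (by norm_num)) (ex_um 0.426 (by norm_num) (by norm_num) (by norm_num) (by norm_num))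
    (by norm_num) (by norm_num), ?_⟩
  exact v5_M 1.42618 (ex_lp 0.355 (by linarith) (by norm_num) (by norm_num)) (by norm_num) (by norm_num)

private theorem B5Dw_C8 {β r t κ : ℝ} (hβ : 0 < β) (hr : 10 ≤ r) (hκ : κ = β * r) (hk1 : 0.5 ≤ κ) (hk2 : κ ≤ 0.6) (hta : (-1.9479) ≤ t + κ)
    (htb : t + κ ≤ (-1.7872)) : ‖F (cexp (I * β)) (r * cexp (I * ((t + β / 2 : ℝ) : ℂ)))‖ ≤
      1.5574 * Real.exp (r * (1.27334 - (-0.71) * (t + κ))) + 2.0262 * Real.exp (r * 0.0501) :=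
  v5_HU (-0.71) 0.5 0.6 (-1.9479) (-1.7872) 1.27334 1.5574 2.03398 0.0978 1.0822 2.164 0 0.0501 0.00000161 2.0262 hβ hr hκ (by norm_num) hk1 hk2 hta htb (by norm_num) (by norm_num) (B5Dw_G7 hk1 hk2).1 (B5Dw_G7 hk1 hk2).2 (by norm_num) (by norm_num) (by norm_num)
    (by norm_num) (by norm_num) (by norm_num) (by norm_num) (by norm_num) (by norm_num) (by norm_num)
    (by norm_num) (by norm_num) (by norm_num) (v5_hump 6.4682 16.666 4.0825 0.0000009316 0.00000161 hβ hr hκ hk1 hk2 (by norm_num) htb (by norm_num) (by norm_num) (by norm_num) (by norm_num) (by norm_num) (by norm_num) (by norm_num) (ex_un 13 0.9 (by norm_num) (by norm_num) (by norm_num) (by norm_num)) (by norm_num)) (by norm_num)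

private theorem B5Dw_C9 {β r t κ : ℝ} (hβ : 0 < β) (hr : 10 ≤ r) (hκ : κ = β * r) (hk1 : 0.5 ≤ κ) (hk2 : κ ≤ 0.6) (hta : 3.0786 ≤ t + κ)
    (htb : t + κ ≤ 3.2393) : ‖F (cexp (I * β)) (r * cexp (I * ((t + β / 2 : ℝ) : ℂ)))‖ ≤
      2.7159 * Real.exp (r * (0.01 + 1 / 20)) :=
  v5_UD 0.5 0.6 3.0786 3.2393 0.01 0.5642 0.01 1.4159 2.7159 hβ hr hκ (by norm_num) hk1 hk2 hta htb (by norm_num) (by norm_num) (by norm_num) (by norm_num) (by norm_num) (by norm_num) (by norm_num) (by norm_num) (by norm_num) (by norm_num) (by norm_num)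

private theorem B5Dw_Y10 {β r t κ h t' : ℝ} (hβ : 0 < β) (hκ : κ = β * r) (hN : β * 16.666 ≤ 1) (hk1 : 0.5 ≤ κ) (hk2 : κ ≤ 0.6)
    (ht : t' = t + (((1 : ℤ) : ℝ) - 1) * h) (hD : DomR κ t') (hta : 0.5654 ≤ t' + κ) (htb : t' + κ ≤ 0.666) :
    0.8474 * Real.exp (r * sE κ t') ≤ ‖Xf β r h t 1‖ := by
  obtain ⟨⟨ya, yb⟩, ⟨xa, xb⟩, n1, Da, Db⟩ := B5Dw_B1 hD hk1 hk2 hta htb
  have J := B5Dw_T3 (x := sx κ t') (y := sy κ t') hβ hN (by linarith only [xa, xb, ya, yb]) (by linarith only [xa, xb, ya, yb]) (by linarith only [xa, xb, ya, yb]) (by linarith only [xa, xb, ya, yb])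
  exact v5_Jlo hβ hκ (k := 1) ht hD 0.035 1.6811 0.8474 (by norm_num) J Db (by norm_num)

private theorem B5Dw_Y11 {β r t κ h t' : ℝ} (hβ : 0 < β) (hκ : κ = β * r) (hN : β * 16.666 ≤ 1) (hk1 : 0.5 ≤ κ) (hk2 : κ ≤ 0.6)
    (ht : t' = t + (((0 : ℤ) : ℝ) - 1) * h) (hD : DomR κ t') (hta : (-0.6913) ≤ t' + κ) (htb : t' + κ ≤ (-0.5906)) :
    0.8505 * Real.exp (r * sE κ t') ≤ ‖Xf β r h t 0‖ := by
  obtain ⟨⟨ya, yb⟩, ⟨xa, xb⟩, n1, Da, Db⟩ := B5Dw_B2 hD hk1 hk2 hta htb
  have J := B5Dw_T4 (x := sx κ t') (y := sy κ t') hβ hN (by linarith only [xa, xb, ya, yb]) (by linarith only [xa, xb, ya, yb]) (by linarith only [xa, xb, ya, yb]) (by linarith only [xa, xb, ya, yb])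
  exact v5_Jlo hβ hκ (k := 0) ht hD 0.14 1.0454 0.8505 (by norm_num) J Db (by norm_num)

private theorem B5Dw_V12 {κ t : ℝ} (hD : DomR κ t) (hk1 : 0.5 ≤ κ) (hk2 : κ ≤ 0.6) (hta : 0.5654 ≤ t + κ) (htb : t + κ ≤ 0.666) :
    1.13147 - 0.4455 * (t + κ) ≤ sE κ t := by
  have hκ0 : 0 < κ := hD.1
  exact v5_V1 hD 0.5 0.6 0.5654 0.666 0.05161 0.21121 0.22916 1.13147 0.4455 (by norm_num) hk1 hk2 (by norm_num) (by norm_num) hta htb (by norm_num) (clo5 0.5 0.6 0.22916 (by norm_num) hk1 hk2 (by norm_num) (by norm_num) (by norm_num))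
      ((cup1 0.6 hκ0.le hk2 (by norm_num)).trans (by norm_num)) (by norm_num) (by norm_num) (by norm_num) (by norm_num) (by norm_num) (by norm_num)

private theorem B5Dw_V13 {κ t : ℝ} (hD : DomR κ t) (hk1 : 0.5 ≤ κ) (hk2 : κ ≤ 0.6) (hta : (-0.6913) ≤ t + κ) (htb : t + κ ≤ (-0.5906)) :
    1.21336 + 0.6699 * (t + κ) ≤ sE κ t := by
  have hκ0 : 0 < κ := hD.1
  exact v5_V0 hD 0.5 0.6 (-0.6913) (-0.5906) 0.6914 0.6532 0.16897 0.06636 0.51201 0.48001 1.21336 0.6699 (by norm_num) hk1 hk2 (by norm_num) hta htb (by norm_num) (by norm_num) (by norm_num) ((cup1 0.6 hκ0.le hk2 (by norm_num)).trans (by norm_num))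
      (by norm_num) (by norm_num) (by norm_num) (by norm_num) (by norm_num) (by norm_num) (by norm_num) (by norm_num) (by norm_num) (by norm_num) (by norm_num) (by norm_num) (by norm_num)

private theorem B5Dw_S14 {β r t κ h t' : ℝ} (hβ : 0 < β) (hκ : κ = β * r) (hN : β * 16.666 ≤ 1) (hk1 : 0.5 ≤ κ) (hk2 : κ ≤ 0.6)
    (ht : t' = t + (((1 : ℤ) : ℝ) - 1) * h) (hD : DomR κ t') (hta : 0.5654 ≤ t' + κ) (htb : t' + κ ≤ 0.666) :
    Xf β r h t 1 ≠ 0 ∧ |(Ld β r h t 1).im - (sy κ t' / β + sx κ t' / sD κ t' * ((1 + sy κ t') / sD κ t' - 1 / 2))| ≤ 0.0982 ∧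
      ‖Ld β r h t 1 - sg κ t' / β‖ ≤ 0.2622 ∧ -0.0001 ≤ sx κ t' / sD κ t' * ((1 + sy κ t') / sD κ t' - 1 / 2) ∧
      (0.178 ≤ sy κ t' ∧ sy κ t' ≤ 0.226) ∧ (0.3285 ≤ sx κ t' ∧ sx κ t' ≤ 0.4696) := by
  obtain ⟨⟨y1, y2⟩, ⟨x1, x2⟩, n1, Da, Db⟩ := B5Dw_B1 hD hk1 hk2 hta htb
  have hd := v5_disc (β := β) (κ := κ) (t := t') (ε := 0.035) 0.15 0.1784 0.6197 0.0279 0.3761 0.3285 0.4696 0.178 0.226
    (fun x y g1 g2 g3 g4 => B5Dw_T3 hβ hN g1 g2 g3 g4) x1 x2 y1 y2 (by norm_num) (by norm_num) (by norm_num) (by norm_num)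
  obtain ⟨nz, im, nL⟩ := v5_slope (h := h) (t := t) (k := 1) 0.15 0.035 0.5022 1.5311 0.2418 0.0982 hβ hκ ht hD (by norm_num) (by norm_num) (by linarith only [y1]) hd n1 (by norm_num) Da (by norm_num) (by norm_num) (by norm_num) (by norm_num)
  have ex := ex_lo hD 0.5022 1.5311 1.6811 0.178 0 0.0001 n1 (by norm_num) Da Db y1 (by norm_num) (by norm_num) (by norm_num) (by norm_num)
  exact ⟨nz, im, nL.trans (by norm_num), ex, ⟨y1, y2⟩, x1, x2⟩

private theorem B5Dw_S15 {β r t κ h t' : ℝ} (hβ : 0 < β) (hκ : κ = β * r) (hN : β * 16.666 ≤ 1) (hk1 : 0.5 ≤ κ) (hk2 : κ ≤ 0.6)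
    (ht : t' = t + (((0 : ℤ) : ℝ) - 1) * h) (hD : DomR κ t') (hta : (-0.6913) ≤ t' + κ) (htb : t' + κ ≤ (-0.5906)) :
    Xf β r h t 0 ≠ 0 ∧ |(Ld β r h t 0).im - (sy κ t' / β + sx κ t' / sD κ t' * ((1 + sy κ t') / sD κ t' - 1 / 2))| ≤ 2.1821 ∧
      ‖Ld β r h t 0 - sg κ t' / β‖ ≤ 2.808 ∧ sx κ t' / sD κ t' * ((1 + sy κ t') / sD κ t' - 1 / 2) ≤ 0.5406 ∧
      ((-0.426) ≤ sy κ t' ∧ sy κ t' ≤ (-0.316)) ∧ (0.5373 ≤ sx κ t' ∧ sx κ t' ≤ 0.8627) := by
  obtain ⟨⟨y1, y2⟩, ⟨x1, x2⟩, n1, Da, Db⟩ := B5Dw_B2 hD hk1 hk2 hta htb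
  have hd := v5_disc (β := β) (κ := κ) (t := t') (ε := 0.14) 0.08 0.4572 0.9428 (-0.5061) (-0.2359) 0.5373 0.8627 (-0.426) (-0.316)
    (fun x y g1 g2 g3 g4 => B5Dw_T4 hβ hN g1 g2 g3 g4) x1 x2 y1 y2 (by norm_num) (by norm_num) (by norm_num) (by norm_num)
  obtain ⟨nz, im, nL⟩ := v5_slope (h := h) (t := t) (k := 0) 0.08 0.14 0.9187 0.734 2.0349 2.1821 hβ hκ ht hD (by norm_num) (by norm_num) (by linarith only [y1]) hd n1 (by norm_num) Da (by norm_num) (by norm_num) (by norm_num) (by norm_num)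
  have ex := ex_hi hD 0.9187 0.734 (-0.316) 0.4319 0.5406 n1 (by norm_num) Da y2 (by norm_num) (by norm_num) (by norm_num) (by norm_num)
  exact ⟨nz, im, nL.trans (by norm_num), ex, ⟨y1, y2⟩, x1, x2⟩

private theorem B5Dw_L16 {β r κ t1 t0 : ℝ} {L0 L1 : ℂ} (hβ : 0 < β) (hr : 10 ≤ r) (hκ : κ = β * r) (hk1 : 0.5 ≤ κ)
    (nA0 : ‖L0 - sg κ t0 / β‖ ≤ 2.808) (nA1 : ‖L1 - sg κ t1 / β‖ ≤ 0.2622)
    (y0 : (-0.426) ≤ sy κ t0 ∧ sy κ t0 ≤ (-0.316)) (x0 : 0.5373 ≤ sx κ t0 ∧ sx κ t0 ≤ 0.8627)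
    (y1 : 0.178 ≤ sy κ t1 ∧ sy κ t1 ≤ 0.226) (x1 : 0.3285 ≤ sx κ t1 ∧ sx κ t1 ≤ 0.4696) :
    ‖(1 : ℂ) * L0 + (-2 : ℂ) * L1‖ ≤ r * 2.2649 := by
  obtain ⟨y0a, y0b⟩ := y0
  obtain ⟨x0a, x0b⟩ := x0
  obtain ⟨y1a, y1b⟩ := y1
  obtain ⟨x1a, x1b⟩ := x1
  have hN := v5_cN (κ := κ) (t1 := t1) (t0 := t0) 1 (-2) 0.402 0.8781 0.9658 (abs_le.2 ⟨by linarith only [x0a, x0b, x1a, x1b], by linarith only [x0a, x0b, x1a, x1b]⟩)
    (abs_le.2 ⟨by linarith only [y0a, y0b, y1a, y1b], by linarith only [y0a, y0b, y1a, y1b]⟩) (by norm_num) (by norm_num)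
  have h1 := v5_comb 1 (-2) 0.5 2.808 0.2622 0.9658 2.2649 hβ hr hκ (by norm_num) hk1 nA0 nA1 hN (by norm_num [abs_of_neg, abs_of_pos])
  norm_num at h1 ⊢
  exact h1

private theorem B5Dw_L17 {β r κ t1 t0 : ℝ} {L0 L1 : ℂ} (hβ : 0 < β) (hr : 10 ≤ r) (hκ : κ = β * r) (hk1 : 0.5 ≤ κ)
    (nA0 : ‖L0 - sg κ t0 / β‖ ≤ 2.808) (nA1 : ‖L1 - sg κ t1 / β‖ ≤ 0.2622)
    (y0 : (-0.426) ≤ sy κ t0 ∧ sy κ t0 ≤ (-0.316)) (x0 : 0.5373 ≤ sx κ t0 ∧ sx κ t0 ≤ 0.8627)
    (y1 : 0.178 ≤ sy κ t1 ∧ sy κ t1 ≤ 0.226) (x1 : 0.3285 ≤ sx κ t1 ∧ sx κ t1 ≤ 0.4696) :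
    ‖(-2 : ℂ) * L0 + (1 : ℂ) * L1‖ ≤ r * 4.1173 := by
  obtain ⟨y0a, y0b⟩ := y0
  obtain ⟨x0a, x0b⟩ := x0
  obtain ⟨y1a, y1b⟩ := y1
  obtain ⟨x1a, x1b⟩ := x1
  have hN := v5_cN (κ := κ) (t1 := t1) (t0 := t0) (-2) 1 1.397 1.0781 1.7647 (abs_le.2 ⟨by linarith only [x0a, x0b, x1a, x1b], by linarith only [x0a, x0b, x1a, x1b]⟩)
    (abs_le.2 ⟨by linarith only [y0a, y0b, y1a, y1b], by linarith only [y0a, y0b, y1a, y1b]⟩) (by norm_num) (by norm_num)
  have h1 := v5_comb (-2) 1 0.5 2.808 0.2622 1.7647 4.1173 hβ hr hκ (by norm_num) hk1 nA0 nA1 hN (by norm_num [abs_of_neg, abs_of_pos])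
  norm_num at h1 ⊢
  exact h1

private theorem B5Dw_L18 {β r κ t1 t0 : ℝ} {L0 L1 : ℂ} (hβ : 0 < β) (hr : 10 ≤ r) (hκ : κ = β * r) (hk1 : 0.5 ≤ κ)
    (nA0 : ‖L0 - sg κ t0 / β‖ ≤ 2.808) (nA1 : ‖L1 - sg κ t1 / β‖ ≤ 0.2622)
    (y0 : (-0.426) ≤ sy κ t0 ∧ sy κ t0 ≤ (-0.316)) (x0 : 0.5373 ≤ sx κ t0 ∧ sx κ t0 ≤ 0.8627)
    (y1 : 0.178 ≤ sy κ t1 ∧ sy κ t1 ≤ 0.226) (x1 : 0.3285 ≤ sx κ t1 ∧ sx κ t1 ≤ 0.4696) :
    ‖(-3 : ℂ) * L0 + (2 : ℂ) * L1‖ ≤ r * 6.0807 := by
  obtain ⟨y0a, y0b⟩ := y0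
  obtain ⟨x0a, x0b⟩ := x0
  obtain ⟨y1a, y1b⟩ := y1
  obtain ⟨x1a, x1b⟩ := x1
  have hN := v5_cN (κ := κ) (t1 := t1) (t0 := t0) (-3) 2 1.9312 1.7301 2.5929 (abs_le.2 ⟨by linarith only [x0a, x0b, x1a, x1b], by linarith only [x0a, x0b, x1a, x1b]⟩)
    (abs_le.2 ⟨by linarith only [y0a, y0b, y1a, y1b], by linarith only [y0a, y0b, y1a, y1b]⟩) (by norm_num) (by norm_num)
  have h1 := v5_comb (-3) 2 0.5 2.808 0.2622 2.5929 6.0807 hβ hr hκ (by norm_num) hk1 nA0 nA1 hN (by norm_num [abs_of_neg, abs_of_pos])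
  norm_num at h1 ⊢
  exact h1

private theorem B5Dw_K19 {β r t κ h : ℝ} (hβ : 0 < β) (hr : 10 ≤ r) (hκ : κ = β * r) (hk1 : 0.5 ≤ κ) (hk2 : κ ≤ 0.6)
    (hh : h = 2 * Real.pi / 5) (hh1 : 1.25663 ≤ h) (hh2 : h ≤ 1.25664) (hta : 0.5654 ≤ t + κ) (htb : t + κ ≤ 0.666)
    (hβ1 : β ≤ 0.06)
    (hY : 0.8474 * Real.exp (r * sE κ t) ≤ ‖Xf β r h t 1‖) (hV : 1.13147 - 0.4455 * (t + κ) ≤ sE κ t) :
    ‖Xf β r h t 2‖ ≤ 0.00796 * ‖Xf β r h t 1‖ ∧ ‖Xf β r h (t + β) 2‖ ≤ 0.00594 * ‖Xf β r h t 1‖ := by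
  constructor
  · rw [v5_X 2 1 (by push_cast; ring)]
    exact v5_cmp 0.6257 0.001918 0.00792 0.8347 0.0002373 0.0000373 0.00796 hr (B5Dw_C6 (t := t + 1 * h) hβ hr hκ hk1 hk2 (by linarith only [hta, htb, hh1, hh2, hβ, hβ1]) (by linarith only [hta, htb, hh1, hh2, hβ, hβ1])) hY (by norm_num) (by norm_num) (by norm_num) (by norm_num) (by linarith only [hV, hta, htb, hh1, hh2]) (ex_un 6 0.2569 (by norm_num) (by norm_num) (by norm_num) (by norm_num)) (by norm_num) (by norm_num) (by linarith only [hV, hta, htb, hh1, hh2]) (ex_un 8 0.3469 (by norm_num) (by norm_num) (by norm_num) (by norm_num)) (by norm_num) (by norm_num)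
  · rw [v5_X 2 1 (by push_cast; ring)]
    have h1 := B5Dw_C6 (t := t + β + 1 * h) hβ hr hκ hk1 hk2 (by linarith only [hta, htb, hh1, hh2, hβ, hβ1]) (by linarith only [hta, htb, hh1, hh2, hβ, hβ1])
    rw [show t + β + 1 * h + κ = (t + 1 * h + κ) + β by ring] at h1
    exact v5_cmpS 0.74454 0.6257 0.001918 0.0059 0.8347 0.0002373 0.0000373 0.00594 hr hκ h1 hY (by norm_num) (by norm_num) (by norm_num) (ex_um 0.295 (by linarith only [hk1, hk2]) (by norm_num) (by norm_num) (by norm_num)) (by norm_num) (by linarith only [hV, hta, htb, hh1, hh2]) (ex_un 6 0.2569 (by norm_num) (by norm_num) (by norm_num) (by norm_num)) (by norm_num) (by norm_num) (by linarith only [hV, hta, htb, hh1, hh2]) (ex_un 8 0.3469 (by norm_num) (by norm_num) (by norm_num) (by norm_num)) (by norm_num) (by norm_num)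

private theorem B5Dw_K20 {β r t κ h : ℝ} (hβ : 0 < β) (hr : 10 ≤ r) (hκ : κ = β * r) (hk1 : 0.5 ≤ κ) (hk2 : κ ≤ 0.6)
    (hh : h = 2 * Real.pi / 5) (hh1 : 1.25663 ≤ h) (hh2 : h ≤ 1.25664) (hta : 0.5654 ≤ t + κ) (htb : t + κ ≤ 0.666)
    (hβ1 : β ≤ 0.06)
    (hY : 0.8505 * Real.exp (r * sE κ (t - h)) ≤ ‖Xf β r h t 0‖) (hV : 1.21336 + 0.6699 * (t - h + κ) ≤ sE κ (t - h)) :
    ‖Xf β r h t (-1)‖ ≤ 0.00254 * ‖Xf β r h t 0‖ ∧ ‖Xf β r h (t + β) (-1)‖ ≤ 0.00273 * ‖Xf β r h t 0‖ := by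
  constructor
  · rw [v5_X (-1) (-2) (by push_cast; ring)]
    exact v5_cmp 0.8559 0.0001924 0.000353 0.7001 0.0009111 0.00218 0.00254 hr (B5Dw_C8 (t := t + (-2) * h) hβ hr hκ hk1 hk2 (by linarith only [hta, htb, hh1, hh2, hβ, hβ1]) (by linarith only [hta, htb, hh1, hh2, hβ, hβ1])) hY (by norm_num) (by norm_num) (by norm_num) (by norm_num) (by linarith only [hV, hta, htb, hh1, hh2]) (ex_un 8 0.5589 (by norm_num) (by norm_num) (by norm_num) (by norm_num)) (by norm_num) (by norm_num) (by linarith only [hV, hta, htb, hh1, hh2]) (ex_un 7 0.0009 (by norm_num) (by norm_num) (by norm_num) (by norm_num)) (by norm_num) (by norm_num)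
  · rw [v5_X (-1) (-2) (by push_cast; ring)]
    have h1 := B5Dw_C8 (t := t + β + (-2) * h) hβ hr hκ hk1 hk2 (by linarith only [hta, htb, hh1, hh2, hβ, hβ1]) (by linarith only [hta, htb, hh1, hh2, hβ, hβ1])
    rw [show t + β + (-2) * h + κ = (t + (-2) * h + κ) + β by ring] at h1
    exact v5_cmpS 1.53113 0.8559 0.0001924 0.00054 0.7001 0.0009111 0.00218 0.00273 hr hκ h1 hY (by norm_num) (by norm_num) (by norm_num) (ex_up 0.426 (by linarith only [hk1, hk2]) (by norm_num) (by norm_num) (by norm_num)) (by norm_num) (by linarith only [hV, hta, htb, hh1, hh2]) (ex_un 8 0.5589 (by norm_num) (by norm_num) (by norm_num) (by norm_num)) (by norm_num) (by norm_num) (by linarith only [hV, hta, htb, hh1, hh2]) (ex_un 7 0.0009 (by norm_num) (by norm_num) (by norm_num) (by norm_num)) (by norm_num) (by norm_num)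

private theorem B5Dw_K21 {β r t κ h : ℝ} (hβ : 0 < β) (hr : 10 ≤ r) (hκ : κ = β * r) (hk1 : 0.5 ≤ κ) (hk2 : κ ≤ 0.6)
    (hh : h = 2 * Real.pi / 5) (hh1 : 1.25663 ≤ h) (hh2 : h ≤ 1.25664) (hta : 0.5654 ≤ t + κ) (htb : t + κ ≤ 0.666)
    (hβ1 : β ≤ 0.06)
    (hY : 0.8505 * Real.exp (r * sE κ (t - h)) ≤ ‖Xf β r h t 0‖) (hV : 1.21336 + 0.6699 * (t - h + κ) ≤ sE κ (t - h)) :
    ‖Xf β r h t (-2)‖ ≤ 0.00326 * ‖Xf β r h t 0‖ ∧ ‖Xf β r h (t + β) (-2)‖ ≤ 0.00326 * ‖Xf β r h t 0‖ := by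
  constructor
  · rw [v5_Xm2 hh]
    exact v5_cmp0 0.6902 0.00102 0.00326 hr (B5Dw_C9 (t := t + 2 * h) hβ hr hκ hk1 hk2 (by linarith only [hta, htb, hh1, hh2, hβ, hβ1]) (by linarith only [hta, htb, hh1, hh2, hβ, hβ1])) hY (by norm_num) (by norm_num) (by norm_num) (by linarith only [hV, hta, htb, hh1, hh2]) (ex_un 6 0.9019 (by norm_num) (by norm_num) (by norm_num) (by norm_num)) (by norm_num)
  · rw [v5_Xm2 hh]
    exact v5_cmp0 0.6902 0.00102 0.00326 hr (B5Dw_C9 (t := t + β + 2 * h) hβ hr hκ hk1 hk2 (by linarith only [hta, htb, hh1, hh2, hβ, hβ1]) (by linarith only [hta, htb, hh1, hh2, hβ, hβ1])) hY (by norm_num) (by norm_num) (by norm_num) (by linarith only [hV, hta, htb, hh1, hh2]) (ex_un 6 0.9019 (by norm_num) (by norm_num) (by norm_num) (by norm_num)) (by norm_num)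

theorem B5Dw_W22 {β r t κ h : ℝ} (hβ : 0 < β) (hr : 10 ≤ r) (hκ : κ = β * r) (hk1 : 0.5 ≤ κ) (hk2 : κ ≤ 0.6)
    (hh : h = 2 * Real.pi / 5) (hta : 0.5654 ≤ t + κ) (htb : t + κ ≤ 0.666) :
    Xf β r h t 0 ≠ 0 ∧
    (‖Xf β r h t 2‖ ≤ 0.0658 * ‖Xf β r h t 1‖ ∧ ‖Xf β r h t (-1)‖ ≤ 0.00254 * ‖Xf β r h t 0‖ ∧
      ‖Xf β r h t (-2)‖ ≤ 0.00327 * ‖Xf β r h t 0‖) ∧
    (r * ‖Xf β r h (t + β) 2‖ + ‖Xf β r h t 2‖ * ‖(1 : ℂ) * Ld β r h t 0 + (-2 : ℂ) * Ld β r h t 1‖ ≤
        r * 0.2 * ‖Xf β r h t 1‖ ∧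
      r * ‖Xf β r h (t + β) (-1)‖ + ‖Xf β r h t (-1)‖ * ‖(-2 : ℂ) * Ld β r h t 0 + (1 : ℂ) * Ld β r h t 1‖ ≤
        r * 0.0132 * ‖Xf β r h t 0‖ ∧
      r * ‖Xf β r h (t + β) (-2)‖ + ‖Xf β r h t (-2)‖ * ‖(-3 : ℂ) * Ld β r h t 0 + (2 : ℂ) * Ld β r h t 1‖ ≤
        r * 0.0232 * ‖Xf β r h t 0‖) ∧
    r * 0.5412 ≤ (Ld β r h t 1 - Ld β r h t 0).im := by
  obtain ⟨hh1, hh2⟩ := v5_h hh
  have hκ0 : 0 < κ := by linarith only [hk1]
  have hN : β * 16.666 ≤ 1 := v5_hN 0.6 16.666 hβ hr hκ hk2 (by norm_num) (by norm_num)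
  have hD1 : DomR κ t := v5_dom hκ0 (by linarith only [hta, htb, hk1, hk2, hh1, hh2]) (Or.inr (by linarith only [hta, htb, hk1, hk2, hh1, hh2]))
  have hD0 : DomR κ (t - h) := v5_dom hκ0 (by linarith only [hta, htb, hk1, hk2, hh1, hh2]) (Or.inr (by linarith only [hta, htb, hk1, hk2, hh1, hh2]))
  have hβ1 : β ≤ 0.06 := by
    have := mul_le_mul_of_nonneg_left hr hβ.le
    linarith only [this, hκ, hk2]
  have h0a : (-0.6913) ≤ t - h + κ := by linarith only [hta, htb, hh1, hh2]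
  have h0b : t - h + κ ≤ (-0.5906) := by linarith only [hta, htb, hh1, hh2]
  have e1 : t = t + (((1 : ℤ) : ℝ) - 1) * h := by push_cast; ring
  have e0 : t - h = t + (((0 : ℤ) : ℝ) - 1) * h := by push_cast; ring
  have hY1 := B5Dw_Y10 (h := h) hβ hκ hN hk1 hk2 e1 hD1 hta htb
  have hY0 := B5Dw_Y11 (h := h) hβ hκ hN hk1 hk2 e0 hD0 h0a h0b
  have hV1 := B5Dw_V12 hD1 hk1 hk2 hta htb
  have hV0 := B5Dw_V13 hD0 hk1 hk2 h0a h0b
  obtain ⟨nz1, im1, nA1, ex1, y1, x1⟩ := B5Dw_S14 (h := h) hβ hκ hN hk1 hk2 e1 hD1 hta htb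
  obtain ⟨nz0, im0, nA0, ex0, y0, x0⟩ := B5Dw_S15 (h := h) hβ hκ hN hk1 hk2 e0 hD0 h0a h0b
  obtain ⟨cp2, dp2⟩ := B5Dw_K19 hβ hr hκ hk1 hk2 hh hh1 hh2 hta htb hβ1 hY1 hV1
  obtain ⟨cm1, dm1⟩ := B5Dw_K20 hβ hr hκ hk1 hk2 hh hh1 hh2 hta htb hβ1 hY0 hV0
  obtain ⟨cm2, dm2⟩ := B5Dw_K21 hβ hr hκ hk1 hk2 hh hh1 hh2 hta htb hβ1 hY0 hV0
  have Lp2 := B5Dw_L16 hβ hr hκ hk1 nA0 nA1 y0 x0 y1 x1
  have Lm1 := B5Dw_L17 hβ hr hκ hk1 nA0 nA1 y0 x0 y1 x1
  have Lm2 := B5Dw_L18 hβ hr hκ hk1 nA0 nA1 y0 x0 y1 x1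
  have hm : r * 0.5412 ≤ (Ld β r h t 1 - Ld β r h t 0).im :=
    v5_m 0.6 0.178 0.316 0.0001 0.5406 0.0982 2.1821 _ _ 0.5412 hβ hr hκ hk2 im1 im0 y1.1 (by linarith only [y0.2]) (by norm_num) ex1 ex0 (by norm_num) (by norm_num)
  have hr0 : 0 < r := by linarith only [hr]
  refine ⟨nz0, ⟨v5_emax _ cp2 (norm_nonneg _) (by norm_num), v5_emax _ cm1 (norm_nonneg _) (by norm_num), v5_emax _ cm2 (norm_nonneg _) (by norm_num)⟩, ⟨?_, ?_, ?_⟩, hm⟩
  · exact v5_W hr0 dp2 cp2 Lp2 (norm_nonneg _) (norm_nonneg _) (norm_nonneg _) (by norm_num)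
  · exact v5_W hr0 dm1 cm1 Lm1 (norm_nonneg _) (norm_nonneg _) (norm_nonneg _) (by norm_num)
  · exact v5_W hr0 dm2 cm2 Lm2 (norm_nonneg _) (norm_nonneg _) (norm_nonneg _) (by norm_num)

private theorem B5Dw_B23 {κ t : ℝ} (h : DomR κ t) (hk1 : 0.5 ≤ κ) (hk2 : κ ≤ 0.6) (ht1 : 0.666 ≤ t + κ) (ht2 : t + κ ≤ 0.7666) :
    (0.202 ≤ sy κ t ∧ sy κ t ≤ 0.251) ∧ (0.2971 ≤ sx κ t ∧ sx κ t ≤ 0.4468) ∧ κ * Real.exp (-sy κ t) ≤ 0.4903 ∧ 1.5709 ≤ sD κ t ∧ sD κ t ≤ 1.72 := by
  have hy1 : 0.202 ≤ sy κ t := syR_ge h 0.5 0.6 0.666 0.202 1.22384 1.22385 0.41202 0.49444 hk1 hk2 (by linarith) (by norm_num) (by norm_num)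
    (expn_ge (by norm_num) (by norm_num)) (expn_le (by norm_num) (by norm_num) (by norm_num)) (by norm_num)
    (by norm_num) (by norm_num) (by norm_num) (by norm_num) (by norm_num) (by norm_num)
  have hy2 : sy κ t ≤ 0.251 := syR_le h 0.5 0.6 0.7666 0.251 1.28531 0.5107 0.53768 0.64524 hk1 hk2 (by linarith) (by norm_num) (by norm_num)
    (expn_ge (by norm_num) (by norm_num)) (by norm_num) (by norm_num) (Or.inr ((mul_le_mul_of_nonneg_left (expn_le (E := 1.28532) (by norm_num) (by norm_num) (by norm_num)) (by norm_num)).trans (by norm_num))) (by norm_num) (by norm_num) (by norm_num)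
  have hy1' : 0.202 ≤ sy κ t := by linarith
  have hy2' : sy κ t ≤ 0.251 := by linarith
  have hx1 : 0.2971 ≤ sx κ t := sx_lo h 0.5 0.251 0.2511 0.77802 0.2971 hk1 (by norm_num) hy2' (abs_le.2 ⟨by linarith, by linarith⟩) (ex_lm 0.251 (by norm_num) (by norm_num) (by norm_num) (by norm_num) (by norm_num)) (by norm_num) (by norm_num)
  have hx2 : sx κ t ≤ 0.4468 := sx_hi h 0.6 0.202 0.202 0.8171 0.4468 hk2 hy1' (by norm_num) (le_trans (by linarith) (le_abs_self _)) (ex_um 0.202 (by norm_num) (by norm_num) (by norm_num) (by norm_num)) (by norm_num) (by norm_num)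
  refine ⟨⟨hy1', hy2'⟩, ⟨hx1, hx2⟩, v5_n h 0.6 0.202 0.8171 0.4903 hk2 hy1' (ex_um 0.202 (by norm_num) (by norm_num) (by norm_num) (by norm_num)) (by norm_num), ?_, ?_⟩
  · exact v5_Dlo h 0.5 0.202 0.251 0.202 0.81709 1.5709 (by norm_num) hk1 hy1' hy2' (ex_lm 0.202 (by norm_num) (by norm_num) (by norm_num) (by norm_num) (by norm_num)) (by norm_num) (by norm_num) (by norm_num) (by norm_num)
  · exact v5_Dup h 0.6 0.202 0.251 0.8171 0.77803 1.72 hk2 hy1' hy2' (ex_um 0.202 (by norm_num) (by norm_num) (by norm_num) (by norm_num)) (ex_um 0.251 (by norm_num) (by norm_num) (by norm_num) (by norm_num)) (by norm_num) (by norm_num) (by norm_num)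

private theorem B5Dw_B24 {κ t : ℝ} (h : DomR κ t) (hk1 : 0.5 ≤ κ) (hk2 : κ ≤ 0.6) (ht1 : (-0.5907) ≤ t + κ) (ht2 : t + κ ≤ (-0.49)) :
    ((-0.345) ≤ sy κ t ∧ sy κ t ≤ (-0.248)) ∧ (0.5398 ≤ sx κ t ∧ sx κ t ≤ 0.8101) ∧ κ * Real.exp (-sy κ t) ≤ 0.8472 ∧ 0.8084 ≤ sD κ t ∧ sD κ t ≤ 1.0952 := by
  have hy1 : -0.345 ≤ sy κ t := syL_ge h 0.5 0.6 0.5907 0.345 0.70822 0.70823 0.4072 0.40722 0.48868 hk1 hk2 (by linarith) (by norm_num) (by norm_num) (by norm_num)
    (expm_ge (by norm_num) (by norm_num) (by norm_num) (by norm_num)) (expm_le (by norm_num) (by norm_num) (by norm_num)) (by norm_num)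
    (by norm_num) (by norm_num) (by norm_num) (by norm_num) (by norm_num) (by norm_num)
  have hy2 : sy κ t ≤ -0.248 := syL_le h 0.5 0.6 0.49 0.248 0.78035 0.78036 0.32254 0.38706 hk1 hk2 (by linarith) (by norm_num) (by norm_num) (by norm_num)
    (expm_ge (by norm_num) (by norm_num) (by norm_num) (by norm_num)) (expm_le (by norm_num) (by norm_num) (by norm_num)) (by norm_num)
    (by norm_num) (by norm_num) (by norm_num) (by norm_num) (by norm_num) (by norm_num)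
  have hy1' : (-0.345) ≤ sy κ t := by linarith
  have hy2' : sy κ t ≤ (-0.248) := by linarith
  have hx1 : 0.5398 ≤ sx κ t := sx_lo h 0.5 (-0.248) 0.3451 1.28145 0.5398 hk1 (by norm_num) hy2' (abs_le.2 ⟨by linarith, by linarith⟩) (ex_lp 0.248 (by norm_num) (by norm_num) (by norm_num)) (by norm_num) (by norm_num)
  have hx2 : sx κ t ≤ 0.8101 := sx_hi h 0.6 (-0.345) 0.248 1.41199 0.8101 hk2 hy1' (by norm_num) (le_trans (by linarith) (neg_le_abs _)) (ex_up 0.345 (by norm_num) (by norm_num) (by norm_num) (by norm_num)) (by norm_num) (by norm_num)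
  refine ⟨⟨hy1', hy2'⟩, ⟨hx1, hx2⟩, v5_n h 0.6 (-0.345) 1.41199 0.8472 hk2 hy1' (ex_up 0.345 (by norm_num) (by norm_num) (by norm_num) (by norm_num)) (by norm_num), ?_, ?_⟩
  · exact v5_Dlo h 0.5 (-0.345) (-0.248) (-0.345) 1.41198 0.8084 (by norm_num) hk1 hy1' hy2' (ex_lp 0.345 (by norm_num) (by norm_num) (by norm_num)) (by norm_num) (by norm_num) (by norm_num) (by norm_num)
  · exact v5_Dup h 0.6 (-0.345) (-0.248) 1.41199 1.28146 1.0952 hk2 hy1' hy2' (ex_up 0.345 (by norm_num) (by norm_num) (by norm_num) (by norm_num)) (ex_up 0.248 (by norm_num) (by norm_num) (by norm_num) (by norm_num)) (by norm_num) (by norm_num) (by norm_num)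

private theorem B5Dw_T25_0_0 {β x y : ℝ} (hβ : 0 < β) (hN : β * 16.666 ≤ 1) (hx1 : 0.177 ≤ x) (hx2 : x ≤ 0.37)
    (hy1 : -0 ≤ y) (hy2 : y ≤ 0.304) : ‖HH β (x + y * I) - 1‖ ≤ 0.03 := by
  refine le_epsJ (C := 0.4993) (N0 := 16.666) (J_boxp 0.177 0.37 0 0.304 0.304 0.8346 0.4789 1.3555 1.527 0.4645 4.0825 16.666 0.5739 2.103 1.291 1.2778 0.4172 0.3374 1.0688 3.8607 0.4099 0.714 0.6208 2.3318 0.0009587 0.003616 0.0000003101 0.0000003101 0.001082 0.000006814 0.00003213 0.0000003101 0.4993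
    hβ hN hx1 hx2 hy1 hy2 (by norm_num) (by norm_num) (by linarith) (by norm_num) (by norm_num) (by norm_num) (by norm_num) (by norm_num) (by norm_num) (by norm_num) (by norm_num) (by norm_num) (by norm_num) (by norm_num) (by norm_num) (by norm_num) (by norm_num) (by norm_num) (by norm_num) (by norm_num) (by norm_num) (by norm_num) (by norm_num) (by norm_num)
    (cube_sqrt_geJ (s := 0.8992) (by norm_num) (by norm_num) (by norm_num) (by norm_num))
    (cube_sqrt_geJ (s := 0.9642) (by norm_num) (by norm_num) (by norm_num) (by norm_num))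
    (by norm_num) (by norm_num) (by norm_num) (by norm_num) (by norm_num) (by norm_num) (by norm_num) (by norm_num) (by norm_num) (by norm_num) (by norm_num) (by norm_num) (by norm_num) (by norm_num) (by norm_num) (by norm_num) (by norm_num) (by norm_num)
    (exp_neg_leJ (r := 0.953) 6 (by norm_num) (by norm_num) (by norm_num) (by norm_num))
    (exp_neg_leJ (r := 0.623) 5 (by norm_num) (by norm_num) (by norm_num) (by norm_num))
    (exp_neg_leJ (r := 0.99) 14 (by norm_num) (by norm_num) (by norm_num) (by norm_num))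
    (exp_neg_leJ (r := 0.99) 14 (by norm_num) (by norm_num) (by norm_num) (by norm_num))
    (exp_neg_leJ (r := 0.831) 6 (by norm_num) (by norm_num) (by norm_num) (by norm_num))
    (exp_neg_leJ (r := 0.899) 11 (by norm_num) (by norm_num) (by norm_num) (by norm_num))
    (exp_neg_leJ (r := 0.346) 10 (by norm_num) (by norm_num) (by norm_num) (by norm_num))
    (exp_neg_leJ (r := 0.99) 14 (by norm_num) (by norm_num) (by norm_num) (by norm_num))
    (by norm_num)) (by norm_num) hN hβ.le (by norm_num)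

private theorem B5Dw_T25_0_1 {β x y : ℝ} (hβ : 0 < β) (hN : β * 16.666 ≤ 1) (hx1 : 0.37 ≤ x) (hx2 : x ≤ 0.5669)
    (hy1 : -0 ≤ y) (hy2 : y ≤ 0.304) : ‖HH β (x + y * I) - 1‖ ≤ 0.03 := by
  refine le_epsJ (C := 0.4785) (N0 := 16.666) (J_boxp 0.37 0.5669 0 0.304 0.304 0.9705 0.6433 1.4219 1.2473 0.4758 4.0825 16.666 0.6629 2.397 1.345 1.202 0.4852 0.378 1.1349 3.7556 0.5037 0.9812 1.0068 2.2709 0.0003079 0.001839 0.0000003101 0.0000003101 0.0002263 0.0000003101 0.0000003101 0.0000003101 0.4785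
    hβ hN hx1 hx2 hy1 hy2 (by norm_num) (by norm_num) (by linarith) (by norm_num) (by norm_num) (by norm_num) (by norm_num) (by norm_num) (by norm_num) (by norm_num) (by norm_num) (by norm_num) (by norm_num) (by norm_num) (by norm_num) (by norm_num) (by norm_num) (by norm_num) (by norm_num) (by norm_num) (by norm_num) (by norm_num) (by norm_num) (by norm_num)
    (cube_sqrt_geJ (s := 0.8826) (by norm_num) (by norm_num) (by norm_num) (by norm_num))
    (cube_sqrt_geJ (s := 0.9585) (by norm_num) (by norm_num) (by norm_num) (by norm_num))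
    (by norm_num) (by norm_num) (by norm_num) (by norm_num) (by norm_num) (by norm_num) (by norm_num) (by norm_num) (by norm_num) (by norm_num) (by norm_num) (by norm_num) (by norm_num) (by norm_num) (by norm_num) (by norm_num) (by norm_num) (by norm_num)
    (exp_neg_leJ (r := 0.086) 8 (by norm_num) (by norm_num) (by norm_num) (by norm_num))
    (exp_neg_leJ (r := 0.299) 6 (by norm_num) (by norm_num) (by norm_num) (by norm_num))
    (exp_neg_leJ (r := 0.99) 14 (by norm_num) (by norm_num) (by norm_num) (by norm_num))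
    (exp_neg_leJ (r := 0.99) 14 (by norm_num) (by norm_num) (by norm_num) (by norm_num))
    (exp_neg_leJ (r := 0.394) 8 (by norm_num) (by norm_num) (by norm_num) (by norm_num))
    (exp_neg_leJ (r := 0.99) 14 (by norm_num) (by norm_num) (by norm_num) (by norm_num))
    (exp_neg_leJ (r := 0.99) 14 (by norm_num) (by norm_num) (by norm_num) (by norm_num))
    (exp_neg_leJ (r := 0.99) 14 (by norm_num) (by norm_num) (by norm_num) (by norm_num))
    (by norm_num)) (by norm_num) hN hβ.le (by norm_num)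

private theorem B5Dw_T25_1_0 {β x y : ℝ} (hβ : 0 < β) (hN : β * 16.666 ≤ 1) (hx1 : 0.177 ≤ x) (hx2 : x ≤ 0.283)
    (hy1 : -0 ≤ y) (hy2 : y ≤ 0.3711) : ‖HH β (x + y * I) - 1‖ ≤ 0.03 := by
  refine le_epsJ (C := 0.4993) (N0 := 16.666) (J_boxp 0.177 0.283 0 0.3711 0.3711 0.8346 0.4667 1.4001 1.5519 0.4721 4.0825 16.666 0.5592 2.059 1.282 1.3112 0.4172 0.3395 1.0688 3.8908 0.4031 0.7072 0.333 2.0488 0.0009587 0.003492 0.0000003101 0.0000003101 0.001211 0.000007621 0.003893 0.0000003101 0.4993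
    hβ hN hx1 hx2 hy1 hy2 (by norm_num) (by norm_num) (by linarith) (by norm_num) (by norm_num) (by norm_num) (by norm_num) (by norm_num) (by norm_num) (by norm_num) (by norm_num) (by norm_num) (by norm_num) (by norm_num) (by norm_num) (by norm_num) (by norm_num) (by norm_num) (by norm_num) (by norm_num) (by norm_num) (by norm_num) (by norm_num) (by norm_num)
    (cube_sqrt_geJ (s := 0.9019) (by norm_num) (by norm_num) (by norm_num) (by norm_num))
    (cube_sqrt_geJ (s := 0.9651) (by norm_num) (by norm_num) (by norm_num) (by norm_num))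
    (by norm_num) (by norm_num) (by norm_num) (by norm_num) (by norm_num) (by norm_num) (by norm_num) (by norm_num) (by norm_num) (by norm_num) (by norm_num) (by norm_num) (by norm_num) (by norm_num) (by norm_num) (by norm_num) (by norm_num) (by norm_num)
    (exp_neg_leJ (r := 0.953) 6 (by norm_num) (by norm_num) (by norm_num) (by norm_num))
    (exp_neg_leJ (r := 0.658) 5 (by norm_num) (by norm_num) (by norm_num) (by norm_num))
    (exp_neg_leJ (r := 0.99) 14 (by norm_num) (by norm_num) (by norm_num) (by norm_num))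
    (exp_neg_leJ (r := 0.99) 14 (by norm_num) (by norm_num) (by norm_num) (by norm_num))
    (exp_neg_leJ (r := 0.718) 6 (by norm_num) (by norm_num) (by norm_num) (by norm_num))
    (exp_neg_leJ (r := 0.786) 11 (by norm_num) (by norm_num) (by norm_num) (by norm_num))
    (exp_neg_leJ (r := 0.549) 5 (by norm_num) (by norm_num) (by norm_num) (by norm_num))
    (exp_neg_leJ (r := 0.99) 14 (by norm_num) (by norm_num) (by norm_num) (by norm_num))
    (by norm_num)) (by norm_num) hN hβ.le (by norm_num)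

private theorem B5Dw_T25_1_1 {β x y : ℝ} (hβ : 0 < β) (hN : β * 16.666 ≤ 1) (hx1 : 0.283 ≤ x) (hx2 : x ≤ 0.435)
    (hy1 : -0 ≤ y) (hy2 : y ≤ 0.3711) : ‖HH β (x + y * I) - 1‖ ≤ 0.03 := by
  refine le_epsJ (C := 0.4987) (N0 := 16.666) (J_boxp 0.283 0.435 0 0.3711 0.3711 0.9093 0.5718 1.4385 1.3833 0.4785 4.0825 16.666 0.6289 2.279 1.324 1.2528 0.4546 0.3593 1.1051 3.8156 0.4546 0.8539 0.545 1.9751 0.0005128 0.002518 0.0000003101 0.0000003101 0.0005128 0.0000006601 0.0001137 0.0000003101 0.4987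
    hβ hN hx1 hx2 hy1 hy2 (by norm_num) (by norm_num) (by linarith) (by norm_num) (by norm_num) (by norm_num) (by norm_num) (by norm_num) (by norm_num) (by norm_num) (by norm_num) (by norm_num) (by norm_num) (by norm_num) (by norm_num) (by norm_num) (by norm_num) (by norm_num) (by norm_num) (by norm_num) (by norm_num) (by norm_num) (by norm_num) (by norm_num)
    (cube_sqrt_geJ (s := 0.889) (by norm_num) (by norm_num) (by norm_num) (by norm_num))
    (cube_sqrt_geJ (s := 0.9607) (by norm_num) (by norm_num) (by norm_num) (by norm_num))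
    (by norm_num) (by norm_num) (by norm_num) (by norm_num) (by norm_num) (by norm_num) (by norm_num) (by norm_num) (by norm_num) (by norm_num) (by norm_num) (by norm_num) (by norm_num) (by norm_num) (by norm_num) (by norm_num) (by norm_num) (by norm_num)
    (exp_neg_leJ (r := 0.576) 7 (by norm_num) (by norm_num) (by norm_num) (by norm_num))
    (exp_neg_leJ (r := 0.988) 5 (by norm_num) (by norm_num) (by norm_num) (by norm_num))
    (exp_neg_leJ (r := 0.99) 14 (by norm_num) (by norm_num) (by norm_num) (by norm_num))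
    (exp_neg_leJ (r := 0.99) 14 (by norm_num) (by norm_num) (by norm_num) (by norm_num))
    (exp_neg_leJ (r := 0.576) 7 (by norm_num) (by norm_num) (by norm_num) (by norm_num))
    (exp_neg_leJ (r := 0.231) 14 (by norm_num) (by norm_num) (by norm_num) (by norm_num))
    (exp_neg_leJ (r := 0.082) 9 (by norm_num) (by norm_num) (by norm_num) (by norm_num))
    (exp_neg_leJ (r := 0.99) 14 (by norm_num) (by norm_num) (by norm_num) (by norm_num))
    (by norm_num)) (by norm_num) hN hβ.le (by norm_num)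

private theorem B5Dw_T25_1_2 {β x y : ℝ} (hβ : 0 < β) (hN : β * 16.666 ≤ 1) (hx1 : 0.435 ≤ x) (hx2 : x ≤ 0.5669)
    (hy1 : -0 ≤ y) (hy2 : y ≤ 0.3711) : ‖HH β (x + y * I) - 1‖ ≤ 0.03 := by
  refine le_epsJ (C := 0.4518) (N0 := 16.666) (J_boxp 0.435 0.5669 0 0.3711 0.3711 1.0163 0.6776 1.4837 1.1889 0.486 4.0825 16.666 0.6668 2.411 1.348 1.202 0.5081 0.3952 1.1571 3.7464 0.5284 1.0644 0.849 1.9915 0.0002104 0.001381 0.0000003101 0.0000003101 0.0001501 0.0000003101 0.0000007165 0.0000003101 0.4518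
    hβ hN hx1 hx2 hy1 hy2 (by norm_num) (by norm_num) (by linarith) (by norm_num) (by norm_num) (by norm_num) (by norm_num) (by norm_num) (by norm_num) (by norm_num) (by norm_num) (by norm_num) (by norm_num) (by norm_num) (by norm_num) (by norm_num) (by norm_num) (by norm_num) (by norm_num) (by norm_num) (by norm_num) (by norm_num) (by norm_num) (by norm_num)
    (cube_sqrt_geJ (s := 0.8818) (by norm_num) (by norm_num) (by norm_num) (by norm_num))
    (cube_sqrt_geJ (s := 0.9583) (by norm_num) (by norm_num) (by norm_num) (by norm_num))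
    (by norm_num) (by norm_num) (by norm_num) (by norm_num) (by norm_num) (by norm_num) (by norm_num) (by norm_num) (by norm_num) (by norm_num) (by norm_num) (by norm_num) (by norm_num) (by norm_num) (by norm_num) (by norm_num) (by norm_num) (by norm_num)
    (exp_neg_leJ (r := 0.467) 8 (by norm_num) (by norm_num) (by norm_num) (by norm_num))
    (exp_neg_leJ (r := 0.586) 6 (by norm_num) (by norm_num) (by norm_num) (by norm_num))
    (exp_neg_leJ (r := 0.99) 14 (by norm_num) (by norm_num) (by norm_num) (by norm_num))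
    (exp_neg_leJ (r := 0.99) 14 (by norm_num) (by norm_num) (by norm_num) (by norm_num))
    (exp_neg_leJ (r := 0.806) 8 (by norm_num) (by norm_num) (by norm_num) (by norm_num))
    (exp_neg_leJ (r := 0.99) 14 (by norm_num) (by norm_num) (by norm_num) (by norm_num))
    (exp_neg_leJ (r := 0.149) 14 (by norm_num) (by norm_num) (by norm_num) (by norm_num))
    (exp_neg_leJ (r := 0.99) 14 (by norm_num) (by norm_num) (by norm_num) (by norm_num))
    (by norm_num)) (by norm_num) hN hβ.le (by norm_num)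

private theorem B5Dw_T25 {β x y : ℝ} (hβ : 0 < β) (hN : β * 16.666 ≤ 1) (hx1 : 0.177 ≤ x) (hx2 : x ≤ 0.5669)
    (hy1 : 0.0819 ≤ y) (hy2 : y ≤ 0.3711) : ‖HH β (x + y * I) - 1‖ ≤ 0.03 := by
  rcases le_total y 0.304 with hyy | hyy
  · rcases le_total x 0.37 with hxx | hxx
    · exact B5Dw_T25_0_0 hβ hN (by linarith) (by linarith) (by linarith) (by linarith)
    exact B5Dw_T25_0_1 hβ hN (by linarith) (by linarith) (by linarith) (by linarith)
  rcases le_total x 0.283 with hxx | hxx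
  · exact B5Dw_T25_1_0 hβ hN (by linarith) (by linarith) (by linarith) (by linarith)
  rcases le_total x 0.435 with hxx | hxx
  · exact B5Dw_T25_1_1 hβ hN (by linarith) (by linarith) (by linarith) (by linarith)
  exact B5Dw_T25_1_2 hβ hN (by linarith) (by linarith) (by linarith) (by linarith)

private theorem B5Dw_T26_0_0 {β x y : ℝ} (hβ : 0 < β) (hN : β * 16.666 ≤ 1) (hx1 : 0.4397 ≤ x) (hx2 : x ≤ 0.451)
    (hy1 : -0.4451 ≤ y) (hy2 : y ≤ -0.1479) : ‖HH β (x + y * I) - 1‖ ≤ 0.095 := by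
  refine le_epsJ (C := 1.5825) (N0 := 16.666) (J_boxp 0.4397 0.451 0.4451 0 (-0.1479) 0.7036 0.6337 0.9641 1.6637 0.3918 4.0825 16.666 0.9007 3.489 1.506 0.8357 0.3517 0.2461 0.4562 2.397 0.3254 1.1088 1.2401 3.8689 0.002854 0.01656 0.0004992 0.0000003101 0.004415 0.0000003101 0.0000003101 0.0000003101 1.5825
    hβ hN hx1 hx2 hy1 hy2 (by norm_num) (by norm_num) (by linarith) (by norm_num) (by norm_num) (by norm_num) (by norm_num) (by norm_num) (by norm_num) (by norm_num) (by norm_num) (by norm_num) (by norm_num) (by norm_num) (by norm_num) (by norm_num) (by norm_num) (by norm_num) (by norm_num) (by norm_num) (by norm_num) (by norm_num) (by norm_num) (by norm_num)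
    (cube_sqrt_geJ (s := 0.8365) (by norm_num) (by norm_num) (by norm_num) (by norm_num))
    (cube_sqrt_geJ (s := 0.9432) (by norm_num) (by norm_num) (by norm_num) (by norm_num))
    (by norm_num) (by norm_num) (by norm_num) (by norm_num) (by norm_num) (by norm_num) (by norm_num) (by norm_num) (by norm_num) (by norm_num) (by norm_num) (by norm_num) (by norm_num) (by norm_num) (by norm_num) (by norm_num) (by norm_num) (by norm_num)
    (exp_neg_leJ (r := 0.861) 5 (by norm_num) (by norm_num) (by norm_num) (by norm_num))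
    (exp_neg_leJ (r := 0.101) 4 (by norm_num) (by norm_num) (by norm_num) (by norm_num))
    (exp_neg_leJ (r := 0.603) 7 (by norm_num) (by norm_num) (by norm_num) (by norm_num))
    (exp_neg_leJ (r := 0.99) 14 (by norm_num) (by norm_num) (by norm_num) (by norm_num))
    (exp_neg_leJ (r := 0.423) 5 (by norm_num) (by norm_num) (by norm_num) (by norm_num))
    (exp_neg_leJ (r := 0.99) 14 (by norm_num) (by norm_num) (by norm_num) (by norm_num))
    (exp_neg_leJ (r := 0.99) 14 (by norm_num) (by norm_num) (by norm_num) (by norm_num))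
    (exp_neg_leJ (r := 0.99) 14 (by norm_num) (by norm_num) (by norm_num) (by norm_num))
    (by norm_num)) (by norm_num) hN hβ.le (by norm_num)

private theorem B5Dw_T26_0_1 {β x y : ℝ} (hβ : 0 < β) (hN : β * 16.666 ≤ 1) (hx1 : 0.451 ≤ x) (hx2 : x ≤ 0.469)
    (hy1 : -0.4451 ≤ y) (hy2 : y ≤ -0.1479) : ‖HH β (x + y * I) - 1‖ ≤ 0.095 := by
  refine le_epsJ (C := 1.5805) (N0 := 16.666) (J_boxp 0.451 0.469 0.4451 0 (-0.1479) 0.7115 0.6466 0.9727 1.6434 0.3935 4.0825 16.666 0.9088 3.537 1.512 0.8288 0.3557 0.2479 0.46 2.3879 0.3309 1.1244 1.2627 3.8564 0.002671 0.01607 0.0004688 0.0000003101 0.004031 0.0000003101 0.0000003101 0.0000003101 1.5805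
    hβ hN hx1 hx2 hy1 hy2 (by norm_num) (by norm_num) (by linarith) (by norm_num) (by norm_num) (by norm_num) (by norm_num) (by norm_num) (by norm_num) (by norm_num) (by norm_num) (by norm_num) (by norm_num) (by norm_num) (by norm_num) (by norm_num) (by norm_num) (by norm_num) (by norm_num) (by norm_num) (by norm_num) (by norm_num) (by norm_num) (by norm_num)
    (cube_sqrt_geJ (s := 0.8349) (by norm_num) (by norm_num) (by norm_num) (by norm_num))
    (cube_sqrt_geJ (s := 0.9427) (by norm_num) (by norm_num) (by norm_num) (by norm_num))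
    (by norm_num) (by norm_num) (by norm_num) (by norm_num) (by norm_num) (by norm_num) (by norm_num) (by norm_num) (by norm_num) (by norm_num) (by norm_num) (by norm_num) (by norm_num) (by norm_num) (by norm_num) (by norm_num) (by norm_num) (by norm_num)
    (exp_neg_leJ (r := 0.928) 5 (by norm_num) (by norm_num) (by norm_num) (by norm_num))
    (exp_neg_leJ (r := 0.131) 4 (by norm_num) (by norm_num) (by norm_num) (by norm_num))
    (exp_neg_leJ (r := 0.666) 7 (by norm_num) (by norm_num) (by norm_num) (by norm_num))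
    (exp_neg_leJ (r := 0.99) 14 (by norm_num) (by norm_num) (by norm_num) (by norm_num))
    (exp_neg_leJ (r := 0.514) 5 (by norm_num) (by norm_num) (by norm_num) (by norm_num))
    (exp_neg_leJ (r := 0.99) 14 (by norm_num) (by norm_num) (by norm_num) (by norm_num))
    (exp_neg_leJ (r := 0.99) 14 (by norm_num) (by norm_num) (by norm_num) (by norm_num))
    (exp_neg_leJ (r := 0.99) 14 (by norm_num) (by norm_num) (by norm_num) (by norm_num))
    (by norm_num)) (by norm_num) hN hβ.le (by norm_num)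

private theorem B5Dw_T26_0_2 {β x y : ℝ} (hβ : 0 < β) (hN : β * 16.666 ≤ 1) (hx1 : 0.469 ≤ x) (hx2 : x ≤ 0.498)
    (hy1 : -0.4451 ≤ y) (hy2 : y ≤ -0.1479) : ‖HH β (x + y * I) - 1‖ ≤ 0.095 := by
  refine le_epsJ (C := 1.5821) (N0 := 16.666) (J_boxp 0.469 0.498 0.4451 0 (-0.1479) 0.7242 0.668 0.987 1.6121 0.3964 4.0825 16.666 0.9224 3.619 1.522 0.8177 0.362 0.2507 0.4662 2.3732 0.3396 1.1493 1.2987 3.8342 0.002399 0.01533 0.0004232 0.0000003101 0.003489 0.0000003101 0.0000003101 0.0000003101 1.5821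
    hβ hN hx1 hx2 hy1 hy2 (by norm_num) (by norm_num) (by linarith) (by norm_num) (by norm_num) (by norm_num) (by norm_num) (by norm_num) (by norm_num) (by norm_num) (by norm_num) (by norm_num) (by norm_num) (by norm_num) (by norm_num) (by norm_num) (by norm_num) (by norm_num) (by norm_num) (by norm_num) (by norm_num) (by norm_num) (by norm_num) (by norm_num)
    (cube_sqrt_geJ (s := 0.8321) (by norm_num) (by norm_num) (by norm_num) (by norm_num))
    (cube_sqrt_geJ (s := 0.9418) (by norm_num) (by norm_num) (by norm_num) (by norm_num))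
    (by norm_num) (by norm_num) (by norm_num) (by norm_num) (by norm_num) (by norm_num) (by norm_num) (by norm_num) (by norm_num) (by norm_num) (by norm_num) (by norm_num) (by norm_num) (by norm_num) (by norm_num) (by norm_num) (by norm_num) (by norm_num)
    (exp_neg_leJ (r := 0.033) 6 (by norm_num) (by norm_num) (by norm_num) (by norm_num))
    (exp_neg_leJ (r := 0.178) 4 (by norm_num) (by norm_num) (by norm_num) (by norm_num))
    (exp_neg_leJ (r := 0.769) 7 (by norm_num) (by norm_num) (by norm_num) (by norm_num))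
    (exp_neg_leJ (r := 0.99) 14 (by norm_num) (by norm_num) (by norm_num) (by norm_num))
    (exp_neg_leJ (r := 0.659) 5 (by norm_num) (by norm_num) (by norm_num) (by norm_num))
    (exp_neg_leJ (r := 0.99) 14 (by norm_num) (by norm_num) (by norm_num) (by norm_num))
    (exp_neg_leJ (r := 0.99) 14 (by norm_num) (by norm_num) (by norm_num) (by norm_num))
    (exp_neg_leJ (r := 0.99) 14 (by norm_num) (by norm_num) (by norm_num) (by norm_num))
    (by norm_num)) (by norm_num) hN hβ.le (by norm_num)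

private theorem B5Dw_T26_0_3 {β x y : ℝ} (hβ : 0 < β) (hN : β * 16.666 ≤ 1) (hx1 : 0.498 ≤ x) (hx2 : x ≤ 0.542)
    (hy1 : -0.4451 ≤ y) (hy2 : y ≤ -0.1479) : ‖HH β (x + y * I) - 1‖ ≤ 0.095 := by
  refine le_epsJ (C := 1.5814) (N0 := 16.666) (J_boxp 0.498 0.542 0.4451 0 (-0.1479) 0.7446 0.7014 1.0099 1.5641 0.401 4.0825 16.666 0.942 3.741 1.536 0.8007 0.3722 0.2553 0.4761 2.3507 0.3537 1.1895 1.3567 3.8014 0.002024 0.01421 0.0003594 0.0000003101 0.002763 0.0000003101 0.0000003101 0.0000003101 1.5814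
    hβ hN hx1 hx2 hy1 hy2 (by norm_num) (by norm_num) (by linarith) (by norm_num) (by norm_num) (by norm_num) (by norm_num) (by norm_num) (by norm_num) (by norm_num) (by norm_num) (by norm_num) (by norm_num) (by norm_num) (by norm_num) (by norm_num) (by norm_num) (by norm_num) (by norm_num) (by norm_num) (by norm_num) (by norm_num) (by norm_num) (by norm_num)
    (cube_sqrt_geJ (s := 0.8282) (by norm_num) (by norm_num) (by norm_num) (by norm_num))
    (cube_sqrt_geJ (s := 0.9405) (by norm_num) (by norm_num) (by norm_num) (by norm_num))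
    (by norm_num) (by norm_num) (by norm_num) (by norm_num) (by norm_num) (by norm_num) (by norm_num) (by norm_num) (by norm_num) (by norm_num) (by norm_num) (by norm_num) (by norm_num) (by norm_num) (by norm_num) (by norm_num) (by norm_num) (by norm_num)
    (exp_neg_leJ (r := 0.203) 6 (by norm_num) (by norm_num) (by norm_num) (by norm_num))
    (exp_neg_leJ (r := 0.254) 4 (by norm_num) (by norm_num) (by norm_num) (by norm_num))
    (exp_neg_leJ (r := 0.934) 7 (by norm_num) (by norm_num) (by norm_num) (by norm_num))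
    (exp_neg_leJ (r := 0.99) 14 (by norm_num) (by norm_num) (by norm_num) (by norm_num))
    (exp_neg_leJ (r := 0.894) 5 (by norm_num) (by norm_num) (by norm_num) (by norm_num))
    (exp_neg_leJ (r := 0.99) 14 (by norm_num) (by norm_num) (by norm_num) (by norm_num))
    (exp_neg_leJ (r := 0.99) 14 (by norm_num) (by norm_num) (by norm_num) (by norm_num))
    (exp_neg_leJ (r := 0.99) 14 (by norm_num) (by norm_num) (by norm_num) (by norm_num))
    (by norm_num)) (by norm_num) hN hβ.le (by norm_num)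

private theorem B5Dw_T26_0_4 {β x y : ℝ} (hβ : 0 < β) (hN : β * 16.666 ≤ 1) (hx1 : 0.542 ≤ x) (hx2 : x ≤ 0.606)
    (hy1 : -0.4451 ≤ y) (hy2 : y ≤ -0.1479) : ‖HH β (x + y * I) - 1‖ ≤ 0.095 := by
  refine le_epsJ (C := 1.5822) (N0 := 16.666) (J_boxp 0.542 0.606 0.4451 0 (-0.1479) 0.7756 0.7519 1.0457 1.4971 0.408 4.0825 16.666 0.9695 3.921 1.557 0.7761 0.3877 0.2624 0.4912 2.3173 0.3751 1.2504 1.4447 3.7522 0.001564 0.01262 0.0002786 0.0000003101 0.001929 0.0000003101 0.0000003101 0.0000003101 1.5822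
    hβ hN hx1 hx2 hy1 hy2 (by norm_num) (by norm_num) (by linarith) (by norm_num) (by norm_num) (by norm_num) (by norm_num) (by norm_num) (by norm_num) (by norm_num) (by norm_num) (by norm_num) (by norm_num) (by norm_num) (by norm_num) (by norm_num) (by norm_num) (by norm_num) (by norm_num) (by norm_num) (by norm_num) (by norm_num) (by norm_num) (by norm_num)
    (cube_sqrt_geJ (s := 0.8226) (by norm_num) (by norm_num) (by norm_num) (by norm_num))
    (cube_sqrt_geJ (s := 0.9387) (by norm_num) (by norm_num) (by norm_num) (by norm_num))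
    (by norm_num) (by norm_num) (by norm_num) (by norm_num) (by norm_num) (by norm_num) (by norm_num) (by norm_num) (by norm_num) (by norm_num) (by norm_num) (by norm_num) (by norm_num) (by norm_num) (by norm_num) (by norm_num) (by norm_num) (by norm_num)
    (exp_neg_leJ (r := 0.461) 6 (by norm_num) (by norm_num) (by norm_num) (by norm_num))
    (exp_neg_leJ (r := 0.373) 4 (by norm_num) (by norm_num) (by norm_num) (by norm_num))
    (exp_neg_leJ (r := 0.186) 8 (by norm_num) (by norm_num) (by norm_num) (by norm_num))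
    (exp_neg_leJ (r := 0.99) 14 (by norm_num) (by norm_num) (by norm_num) (by norm_num))
    (exp_neg_leJ (r := 0.251) 6 (by norm_num) (by norm_num) (by norm_num) (by norm_num))
    (exp_neg_leJ (r := 0.99) 14 (by norm_num) (by norm_num) (by norm_num) (by norm_num))
    (exp_neg_leJ (r := 0.99) 14 (by norm_num) (by norm_num) (by norm_num) (by norm_num))
    (exp_neg_leJ (r := 0.99) 14 (by norm_num) (by norm_num) (by norm_num) (by norm_num))
    (by norm_num)) (by norm_num) hN hβ.le (by norm_num)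

private theorem B5Dw_T26_0_5 {β x y : ℝ} (hβ : 0 < β) (hN : β * 16.666 ≤ 1) (hx1 : 0.606 ≤ x) (hx2 : x ≤ 0.693)
    (hy1 : -0.4451 ≤ y) (hy2 : y ≤ -0.1479) : ‖HH β (x + y * I) - 1‖ ≤ 0.095 := by
  refine le_epsJ (C := 1.5795) (N0 := 16.666) (J_boxp 0.606 0.693 0.4451 0 (-0.1479) 0.8207 0.8237 1.0984 1.4097 0.4182 4.0825 16.666 1.0037 4.161 1.583 0.7427 0.4103 0.273 0.5131 2.2711 0.4062 1.339 1.5727 3.685 0.001075 0.01059 0.0001935 0.0000003101 0.001151 0.0000003101 0.0000003101 0.0000003101 1.5795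
    hβ hN hx1 hx2 hy1 hy2 (by norm_num) (by norm_num) (by linarith) (by norm_num) (by norm_num) (by norm_num) (by norm_num) (by norm_num) (by norm_num) (by norm_num) (by norm_num) (by norm_num) (by norm_num) (by norm_num) (by norm_num) (by norm_num) (by norm_num) (by norm_num) (by norm_num) (by norm_num) (by norm_num) (by norm_num) (by norm_num) (by norm_num)
    (cube_sqrt_geJ (s := 0.8157) (by norm_num) (by norm_num) (by norm_num) (by norm_num))
    (cube_sqrt_geJ (s := 0.9365) (by norm_num) (by norm_num) (by norm_num) (by norm_num))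
    (by norm_num) (by norm_num) (by norm_num) (by norm_num) (by norm_num) (by norm_num) (by norm_num) (by norm_num) (by norm_num) (by norm_num) (by norm_num) (by norm_num) (by norm_num) (by norm_num) (by norm_num) (by norm_num) (by norm_num) (by norm_num)
    (exp_neg_leJ (r := 0.838) 6 (by norm_num) (by norm_num) (by norm_num) (by norm_num))
    (exp_neg_leJ (r := 0.549) 4 (by norm_num) (by norm_num) (by norm_num) (by norm_num))
    (exp_neg_leJ (r := 0.551) 8 (by norm_num) (by norm_num) (by norm_num) (by norm_num))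
    (exp_neg_leJ (r := 0.99) 14 (by norm_num) (by norm_num) (by norm_num) (by norm_num))
    (exp_neg_leJ (r := 0.769) 6 (by norm_num) (by norm_num) (by norm_num) (by norm_num))
    (exp_neg_leJ (r := 0.99) 14 (by norm_num) (by norm_num) (by norm_num) (by norm_num))
    (exp_neg_leJ (r := 0.99) 14 (by norm_num) (by norm_num) (by norm_num) (by norm_num))
    (exp_neg_leJ (r := 0.99) 14 (by norm_num) (by norm_num) (by norm_num) (by norm_num))
    (by norm_num)) (by norm_num) hN hβ.le (by norm_num)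

private theorem B5Dw_T26_0_6 {β x y : ℝ} (hβ : 0 < β) (hN : β * 16.666 ≤ 1) (hx1 : 0.693 ≤ x) (hx2 : x ≤ 0.806)
    (hy1 : -0.4451 ≤ y) (hy2 : y ≤ -0.1479) : ‖HH β (x + y * I) - 1‖ ≤ 0.095 := by
  refine le_epsJ (C := 1.5802) (N0 := 16.666) (J_boxp 0.693 0.806 0.4451 0 (-0.1479) 0.8819 0.9208 1.173 1.3078 0.4321 4.0825 16.666 1.0442 4.47 1.615 0.6992 0.4409 0.2874 0.5429 2.2101 0.4484 1.4595 1.7467 3.595 0.000644 0.008332 0.0001178 0.0000003101 0.0005684 0.0000003101 0.0000003101 0.0000003101 1.5802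
    hβ hN hx1 hx2 hy1 hy2 (by norm_num) (by norm_num) (by linarith) (by norm_num) (by norm_num) (by norm_num) (by norm_num) (by norm_num) (by norm_num) (by norm_num) (by norm_num) (by norm_num) (by norm_num) (by norm_num) (by norm_num) (by norm_num) (by norm_num) (by norm_num) (by norm_num) (by norm_num) (by norm_num) (by norm_num) (by norm_num) (by norm_num)
    (cube_sqrt_geJ (s := 0.8074) (by norm_num) (by norm_num) (by norm_num) (by norm_num))
    (cube_sqrt_geJ (s := 0.9338) (by norm_num) (by norm_num) (by norm_num) (by norm_num))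
    (by norm_num) (by norm_num) (by norm_num) (by norm_num) (by norm_num) (by norm_num) (by norm_num) (by norm_num) (by norm_num) (by norm_num) (by norm_num) (by norm_num) (by norm_num) (by norm_num) (by norm_num) (by norm_num) (by norm_num) (by norm_num)
    (exp_neg_leJ (r := 0.348) 7 (by norm_num) (by norm_num) (by norm_num) (by norm_num))
    (exp_neg_leJ (r := 0.789) 4 (by norm_num) (by norm_num) (by norm_num) (by norm_num))
    (exp_neg_leJ (r := 0.047) 9 (by norm_num) (by norm_num) (by norm_num) (by norm_num))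
    (exp_neg_leJ (r := 0.99) 14 (by norm_num) (by norm_num) (by norm_num) (by norm_num))
    (exp_neg_leJ (r := 0.473) 7 (by norm_num) (by norm_num) (by norm_num) (by norm_num))
    (exp_neg_leJ (r := 0.99) 14 (by norm_num) (by norm_num) (by norm_num) (by norm_num))
    (exp_neg_leJ (r := 0.99) 14 (by norm_num) (by norm_num) (by norm_num) (by norm_num))
    (exp_neg_leJ (r := 0.99) 14 (by norm_num) (by norm_num) (by norm_num) (by norm_num))
    (by norm_num)) (by norm_num) hN hβ.le (by norm_num)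

private theorem B5Dw_T26_0_7 {β x y : ℝ} (hβ : 0 < β) (hN : β * 16.666 ≤ 1) (hx1 : 0.806 ≤ x) (hx2 : x ≤ 0.9102)
    (hy1 : -0.4451 ≤ y) (hy2 : y ≤ -0.1479) : ‖HH β (x + y * I) - 1‖ ≤ 0.095 := by
  refine le_epsJ (C := 1.421) (N0 := 16.666) (J_boxp 0.806 0.9102 0.4451 0 (-0.1479) 0.9615 1.0133 1.2469 1.1844 0.4455 4.0825 16.666 1.0539 4.549 1.622 0.6591 0.4807 0.3118 0.5816 2.153 0.5033 1.6159 1.9727 3.5696 0.0003318 0.005539 0.00006183 0.0000003101 0.0002279 0.0000003101 0.0000003101 0.0000003101 1.421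
    hβ hN hx1 hx2 hy1 hy2 (by norm_num) (by norm_num) (by linarith) (by norm_num) (by norm_num) (by norm_num) (by norm_num) (by norm_num) (by norm_num) (by norm_num) (by norm_num) (by norm_num) (by norm_num) (by norm_num) (by norm_num) (by norm_num) (by norm_num) (by norm_num) (by norm_num) (by norm_num) (by norm_num) (by norm_num) (by norm_num) (by norm_num)
    (cube_sqrt_geJ (s := 0.8054) (by norm_num) (by norm_num) (by norm_num) (by norm_num))
    (cube_sqrt_geJ (s := 0.9332) (by norm_num) (by norm_num) (by norm_num) (by norm_num))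
    (by norm_num) (by norm_num) (by norm_num) (by norm_num) (by norm_num) (by norm_num) (by norm_num) (by norm_num) (by norm_num) (by norm_num) (by norm_num) (by norm_num) (by norm_num) (by norm_num) (by norm_num) (by norm_num) (by norm_num) (by norm_num)
    (exp_neg_leJ (r := 0.011) 8 (by norm_num) (by norm_num) (by norm_num) (by norm_num))
    (exp_neg_leJ (r := 0.196) 5 (by norm_num) (by norm_num) (by norm_num) (by norm_num))
    (exp_neg_leJ (r := 0.692) 9 (by norm_num) (by norm_num) (by norm_num) (by norm_num))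
    (exp_neg_leJ (r := 0.99) 14 (by norm_num) (by norm_num) (by norm_num) (by norm_num))
    (exp_neg_leJ (r := 0.387) 8 (by norm_num) (by norm_num) (by norm_num) (by norm_num))
    (exp_neg_leJ (r := 0.99) 14 (by norm_num) (by norm_num) (by norm_num) (by norm_num))
    (exp_neg_leJ (r := 0.99) 14 (by norm_num) (by norm_num) (by norm_num) (by norm_num))
    (exp_neg_leJ (r := 0.99) 14 (by norm_num) (by norm_num) (by norm_num) (by norm_num))
    (by norm_num)) (by norm_num) hN hβ.le (by norm_num)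

private theorem B5Dw_T26 {β x y : ℝ} (hβ : 0 < β) (hN : β * 16.666 ≤ 1) (hx1 : 0.4397 ≤ x) (hx2 : x ≤ 0.9102)
    (hy1 : (-0.4451) ≤ y) (hy2 : y ≤ (-0.1479)) : ‖HH β (x + y * I) - 1‖ ≤ 0.095 := by
  rcases le_total x 0.451 with hxx | hxx
  · exact B5Dw_T26_0_0 hβ hN (by linarith) (by linarith) (by linarith) (by linarith)
  rcases le_total x 0.469 with hxx | hxx
  · exact B5Dw_T26_0_1 hβ hN (by linarith) (by linarith) (by linarith) (by linarith)
  rcases le_total x 0.498 with hxx | hxx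
  · exact B5Dw_T26_0_2 hβ hN (by linarith) (by linarith) (by linarith) (by linarith)
  rcases le_total x 0.542 with hxx | hxx
  · exact B5Dw_T26_0_3 hβ hN (by linarith) (by linarith) (by linarith) (by linarith)
  rcases le_total x 0.606 with hxx | hxx
  · exact B5Dw_T26_0_4 hβ hN (by linarith) (by linarith) (by linarith) (by linarith)
  rcases le_total x 0.693 with hxx | hxx
  · exact B5Dw_T26_0_5 hβ hN (by linarith) (by linarith) (by linarith) (by linarith)
  rcases le_total x 0.806 with hxx | hxx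
  · exact B5Dw_T26_0_6 hβ hN (by linarith) (by linarith) (by linarith) (by linarith)
  exact B5Dw_T26_0_7 hβ hN (by linarith) (by linarith) (by linarith) (by linarith)

private theorem B5Dw_C27 {β r t κ : ℝ} (hβ : 0 < β) (hr : 10 ≤ r) (hκ : κ = β * r) (hk1 : 0.5 ≤ κ) (hk2 : κ ≤ 0.6) (hta : 1.9226 ≤ t + κ)
    (htb : t + κ ≤ 2.0833) : ‖F (cexp (I * β)) (r * cexp (I * ((t + β / 2 : ℝ) : ℂ)))‖ ≤
      4.5016 * Real.exp (r * (0.29 + 1 / 20)) :=
  v5_UD 0.5 0.6 1.9226 2.0833 0.29 0.5642 0.29 2.3469 4.5016 hβ hr hκ (by norm_num) hk1 hk2 hta htb (by norm_num) (by norm_num) (by norm_num) (by norm_num) (by norm_num) (by norm_num) (by norm_num) (by norm_num) (by norm_num) (by norm_num) (by norm_num)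

private theorem B5Dw_C28 {β r t κ : ℝ} (hβ : 0 < β) (hr : 10 ≤ r) (hκ : κ = β * r) (hk1 : 0.5 ≤ κ) (hk2 : κ ≤ 0.6) (hta : (-1.8473) ≤ t + κ)
    (htb : t + κ ≤ (-1.6866)) : ‖F (cexp (I * β)) (r * cexp (I * ((t + β / 2 : ℝ) : ℂ)))‖ ≤
      1.5574 * Real.exp (r * (1.27334 - (-0.71) * (t + κ))) + 2.0242 * Real.exp (r * 0.0501) :=
  v5_HU (-0.71) 0.5 0.6 (-1.8473) (-1.6866) 1.27334 1.5574 2.03398 0.0978 1.0822 2.2646 0 0.0501 0.00000161 2.0242 hβ hr hκ (by norm_num) hk1 hk2 hta htb (by norm_num) (by norm_num) (B5Dw_G7 hk1 hk2).1 (B5Dw_G7 hk1 hk2).2 (by norm_num) (by norm_num) (by norm_num)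
    (by norm_num) (by norm_num) (by norm_num) (by norm_num) (by norm_num) (by norm_num) (by norm_num)
    (by norm_num) (by norm_num) (by norm_num) (v5_hump 6.3676 16.666 4.0825 0.0000009316 0.00000161 hβ hr hκ hk1 hk2 (by norm_num) htb (by norm_num) (by norm_num) (by norm_num) (by norm_num) (by norm_num) (by norm_num) (by norm_num) (ex_un 13 0.9 (by norm_num) (by norm_num) (by norm_num) (by norm_num)) (by norm_num)) (by norm_num)

private theorem B5Dw_C29 {β r t κ : ℝ} (hβ : 0 < β) (hr : 10 ≤ r) (hκ : κ = β * r) (hk1 : 0.5 ≤ κ) (hk2 : κ ≤ 0.6) (hta : 3.1792 ≤ t + κ)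
    (htb : t + κ ≤ 3.3399) : ‖F (cexp (I * β)) (r * cexp (I * ((t + β / 2 : ℝ) : ℂ)))‖ ≤
      2.709 * Real.exp (r * (0.01 + 1 / 20)) :=
  v5_UD 0.5 0.6 3.1792 3.3399 0.01 0.5642 0.01 1.4123 2.709 hβ hr hκ (by norm_num) hk1 hk2 hta htb (by norm_num) (by norm_num) (by norm_num) (by norm_num) (by norm_num) (by norm_num) (by norm_num) (by norm_num) (by norm_num) (by norm_num) (by norm_num)

private theorem B5Dw_Y30 {β r t κ h t' : ℝ} (hβ : 0 < β) (hκ : κ = β * r) (hN : β * 16.666 ≤ 1) (hk1 : 0.5 ≤ κ) (hk2 : κ ≤ 0.6)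
    (ht : t' = t + (((1 : ℤ) : ℝ) - 1) * h) (hD : DomR κ t') (hta : 0.666 ≤ t' + κ) (htb : t' + κ ≤ 0.7666) :
    0.847 * Real.exp (r * sE κ t') ≤ ‖Xf β r h t 1‖ := by
  obtain ⟨⟨ya, yb⟩, ⟨xa, xb⟩, n1, Da, Db⟩ := B5Dw_B23 hD hk1 hk2 hta htb
  have J := B5Dw_T25 (x := sx κ t') (y := sy κ t') hβ hN (by linarith only [xa, xb, ya, yb]) (by linarith only [xa, xb, ya, yb]) (by linarith only [xa, xb, ya, yb]) (by linarith only [xa, xb, ya, yb])
  exact v5_Jlo hβ hκ (k := 1) ht hD 0.03 1.72 0.847 (by norm_num) J Db (by norm_num)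

private theorem B5Dw_Y31 {β r t κ h t' : ℝ} (hβ : 0 < β) (hκ : κ = β * r) (hN : β * 16.666 ≤ 1) (hk1 : 0.5 ≤ κ) (hk2 : κ ≤ 0.6)
    (ht : t' = t + (((0 : ℤ) : ℝ) - 1) * h) (hD : DomR κ t') (hta : (-0.5907) ≤ t' + κ) (htb : t' + κ ≤ (-0.49)) :
    0.8846 * Real.exp (r * sE κ t') ≤ ‖Xf β r h t 0‖ := by
  obtain ⟨⟨ya, yb⟩, ⟨xa, xb⟩, n1, Da, Db⟩ := B5Dw_B24 hD hk1 hk2 hta htb
  have J := B5Dw_T26 (x := sx κ t') (y := sy κ t') hβ hN (by linarith only [xa, xb, ya, yb]) (by linarith only [xa, xb, ya, yb]) (by linarith only [xa, xb, ya, yb]) (by linarith only [xa, xb, ya, yb])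
  exact v5_Jlo hβ hκ (k := 0) ht hD 0.095 1.0952 0.8846 (by norm_num) J Db (by norm_num)

private theorem B5Dw_V32 {κ t : ℝ} (hD : DomR κ t) (hk1 : 0.5 ≤ κ) (hk2 : κ ≤ 0.6) (hta : 0.666 ≤ t + κ) (htb : t + κ ≤ 0.7666) :
    1.18044 - 0.5229 * (t + κ) ≤ sE κ t := by
  have hκ0 : 0 < κ := hD.1
  exact v5_V1 hD 0.5 0.6 0.666 0.7666 0.04069 0.21121 0.22916 1.18044 0.5229 (by norm_num) hk1 hk2 (by norm_num) (by norm_num) hta htb (by norm_num) (clo5 0.5 0.6 0.22916 (by norm_num) hk1 hk2 (by norm_num) (by norm_num) (by norm_num))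
      ((cup1 0.6 hκ0.le hk2 (by norm_num)).trans (by norm_num)) (by norm_num) (by norm_num) (by norm_num) (by norm_num) (by norm_num) (by norm_num)

private theorem B5Dw_V33 {κ t : ℝ} (hD : DomR κ t) (hk1 : 0.5 ≤ κ) (hk2 : κ ≤ 0.6) (hta : (-0.5907) ≤ t + κ) (htb : t + κ ≤ (-0.49)) :
    1.14453 + 0.5397 * (t + κ) ≤ sE κ t := by
  have hκ0 : 0 < κ := hD.1
  exact v5_V0 hD 0.5 0.6 (-0.5907) (-0.49) 0.5908 0.6243 0.16897 0.06636 0.51201 0.48001 1.14453 0.5397 (by norm_num) hk1 hk2 (by norm_num) hta htb (by norm_num) (by norm_num) (by norm_num) ((cup1 0.6 hκ0.le hk2 (by norm_num)).trans (by norm_num))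
      (by norm_num) (by norm_num) (by norm_num) (by norm_num) (by norm_num) (by norm_num) (by norm_num) (by norm_num) (by norm_num) (by norm_num) (by norm_num) (by norm_num) (by norm_num)

private theorem B5Dw_S34 {β r t κ h t' : ℝ} (hβ : 0 < β) (hκ : κ = β * r) (hN : β * 16.666 ≤ 1) (hk1 : 0.5 ≤ κ) (hk2 : κ ≤ 0.6)
    (ht : t' = t + (((1 : ℤ) : ℝ) - 1) * h) (hD : DomR κ t') (hta : 0.666 ≤ t' + κ) (htb : t' + κ ≤ 0.7666) :
    Xf β r h t 1 ≠ 0 ∧ |(Ld β r h t 1).im - (sy κ t' / β + sx κ t' / sD κ t' * ((1 + sy κ t') / sD κ t' - 1 / 2))| ≤ 0.1009 ∧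
      ‖Ld β r h t 1 - sg κ t' / β‖ ≤ 0.257 ∧ -0.0001 ≤ sx κ t' / sD κ t' * ((1 + sy κ t') / sD κ t' - 1 / 2) ∧
      (0.202 ≤ sy κ t' ∧ sy κ t' ≤ 0.251) ∧ (0.2971 ≤ sx κ t' ∧ sx κ t' ≤ 0.4468) := by
  obtain ⟨⟨y1, y2⟩, ⟨x1, x2⟩, n1, Da, Db⟩ := B5Dw_B23 hD hk1 hk2 hta htb
  have hd := v5_disc (β := β) (κ := κ) (t := t') (ε := 0.03) 0.12 0.177 0.5669 0.0819 0.3711 0.2971 0.4468 0.202 0.251
    (fun x y g1 g2 g3 g4 => B5Dw_T25 hβ hN g1 g2 g3 g4) x1 x2 y1 y2 (by norm_num) (by norm_num) (by norm_num) (by norm_num)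
  obtain ⟨nz, im, nL⟩ := v5_slope (h := h) (t := t) (k := 1) 0.12 0.03 0.4903 1.5709 0.2578 0.1009 hβ hκ ht hD (by norm_num) (by norm_num) (by linarith only [y1]) hd n1 (by norm_num) Da (by norm_num) (by norm_num) (by norm_num) (by norm_num)
  have ex := ex_lo hD 0.4903 1.5709 1.72 0.202 0 0.0001 n1 (by norm_num) Da Db y1 (by norm_num) (by norm_num) (by norm_num) (by norm_num)
  exact ⟨nz, im, nL.trans (by norm_num), ex, ⟨y1, y2⟩, x1, x2⟩

private theorem B5Dw_S35 {β r t κ h t' : ℝ} (hβ : 0 < β) (hκ : κ = β * r) (hN : β * 16.666 ≤ 1) (hk1 : 0.5 ≤ κ) (hk2 : κ ≤ 0.6)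
    (ht : t' = t + (((0 : ℤ) : ℝ) - 1) * h) (hD : DomR κ t') (hta : (-0.5907) ≤ t' + κ) (htb : t' + κ ≤ (-0.49)) :
    Xf β r h t 0 ≠ 0 ∧ |(Ld β r h t 0).im - (sy κ t' / β + sx κ t' / sD κ t' * ((1 + sy κ t') / sD κ t' - 1 / 2))| ≤ 0.9892 ∧
      ‖Ld β r h t 0 - sg κ t' / β‖ ≤ 1.5132 ∧ sx κ t' / sD κ t' * ((1 + sy κ t') / sD κ t' - 1 / 2) ≤ 0.451 ∧
      ((-0.345) ≤ sy κ t' ∧ sy κ t' ≤ (-0.248)) ∧ (0.5398 ≤ sx κ t' ∧ sx κ t' ≤ 0.8101) := by
  obtain ⟨⟨y1, y2⟩, ⟨x1, x2⟩, n1, Da, Db⟩ := B5Dw_B24 hD hk1 hk2 hta htb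
  have hd := v5_disc (β := β) (κ := κ) (t := t') (ε := 0.095) 0.1 0.4397 0.9102 (-0.4451) (-0.1479) 0.5398 0.8101 (-0.345) (-0.248)
    (fun x y g1 g2 g3 g4 => B5Dw_T26 hβ hN g1 g2 g3 g4) x1 x2 y1 y2 (by norm_num) (by norm_num) (by norm_num) (by norm_num)
  obtain ⟨nz, im, nL⟩ := v5_slope (h := h) (t := t) (k := 0) 0.1 0.095 0.8472 0.8084 1.0498 0.9892 hβ hκ ht hD (by norm_num) (by norm_num) (by linarith only [y1]) hd n1 (by norm_num) Da (by norm_num) (by norm_num) (by norm_num) (by norm_num)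
  have ex := ex_hi hD 0.8472 0.8084 (-0.248) 0.4303 0.451 n1 (by norm_num) Da y2 (by norm_num) (by norm_num) (by norm_num) (by norm_num)
  exact ⟨nz, im, nL.trans (by norm_num), ex, ⟨y1, y2⟩, x1, x2⟩

private theorem B5Dw_L36 {β r κ t1 t0 : ℝ} {L0 L1 : ℂ} (hβ : 0 < β) (hr : 10 ≤ r) (hκ : κ = β * r) (hk1 : 0.5 ≤ κ)
    (nA0 : ‖L0 - sg κ t0 / β‖ ≤ 1.5132) (nA1 : ‖L1 - sg κ t1 / β‖ ≤ 0.257)
    (y0 : (-0.345) ≤ sy κ t0 ∧ sy κ t0 ≤ (-0.248)) (x0 : 0.5398 ≤ sx κ t0 ∧ sx κ t0 ≤ 0.8101)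
    (y1 : 0.202 ≤ sy κ t1 ∧ sy κ t1 ≤ 0.251) (x1 : 0.2971 ≤ sx κ t1 ∧ sx κ t1 ≤ 0.4468) :
    ‖(1 : ℂ) * L0 + (-2 : ℂ) * L1‖ ≤ r * 2.039 := by
  obtain ⟨y0a, y0b⟩ := y0
  obtain ⟨x0a, x0b⟩ := x0
  obtain ⟨y1a, y1b⟩ := y1
  obtain ⟨x1a, x1b⟩ := x1
  have hN := v5_cN (κ := κ) (t1 := t1) (t0 := t0) 1 (-2) 0.3539 0.8471 0.9181 (abs_le.2 ⟨by linarith only [x0a, x0b, x1a, x1b], by linarith only [x0a, x0b, x1a, x1b]⟩)
    (abs_le.2 ⟨by linarith only [y0a, y0b, y1a, y1b], by linarith only [y0a, y0b, y1a, y1b]⟩) (by norm_num) (by norm_num)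
  have h1 := v5_comb 1 (-2) 0.5 1.5132 0.257 0.9181 2.039 hβ hr hκ (by norm_num) hk1 nA0 nA1 hN (by norm_num [abs_of_neg, abs_of_pos])
  norm_num at h1 ⊢
  exact h1

private theorem B5Dw_L37 {β r κ t1 t0 : ℝ} {L0 L1 : ℂ} (hβ : 0 < β) (hr : 10 ≤ r) (hκ : κ = β * r) (hk1 : 0.5 ≤ κ)
    (nA0 : ‖L0 - sg κ t0 / β‖ ≤ 1.5132) (nA1 : ‖L1 - sg κ t1 / β‖ ≤ 0.257)
    (y0 : (-0.345) ≤ sy κ t0 ∧ sy κ t0 ≤ (-0.248)) (x0 : 0.5398 ≤ sx κ t0 ∧ sx κ t0 ≤ 0.8101)
    (y1 : 0.202 ≤ sy κ t1 ∧ sy κ t1 ≤ 0.251) (x1 : 0.2971 ≤ sx κ t1 ∧ sx κ t1 ≤ 0.4468) :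
    ‖(-2 : ℂ) * L0 + (1 : ℂ) * L1‖ ≤ r * 3.576 := by
  obtain ⟨y0a, y0b⟩ := y0
  obtain ⟨x0a, x0b⟩ := x0
  obtain ⟨y1a, y1b⟩ := y1
  obtain ⟨x1a, x1b⟩ := x1
  have hN := v5_cN (κ := κ) (t1 := t1) (t0 := t0) (-2) 1 1.3232 0.9411 1.6238 (abs_le.2 ⟨by linarith only [x0a, x0b, x1a, x1b], by linarith only [x0a, x0b, x1a, x1b]⟩)
    (abs_le.2 ⟨by linarith only [y0a, y0b, y1a, y1b], by linarith only [y0a, y0b, y1a, y1b]⟩) (by norm_num) (by norm_num)
  have h1 := v5_comb (-2) 1 0.5 1.5132 0.257 1.6238 3.576 hβ hr hκ (by norm_num) hk1 nA0 nA1 hN (by norm_num [abs_of_neg, abs_of_pos])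
  norm_num at h1 ⊢
  exact h1

private theorem B5Dw_L38 {β r κ t1 t0 : ℝ} {L0 L1 : ℂ} (hβ : 0 < β) (hr : 10 ≤ r) (hκ : κ = β * r) (hk1 : 0.5 ≤ κ)
    (nA0 : ‖L0 - sg κ t0 / β‖ ≤ 1.5132) (nA1 : ‖L1 - sg κ t1 / β‖ ≤ 0.257)
    (y0 : (-0.345) ≤ sy κ t0 ∧ sy κ t0 ≤ (-0.248)) (x0 : 0.5398 ≤ sx κ t0 ∧ sx κ t0 ≤ 0.8101)
    (y1 : 0.202 ≤ sy κ t1 ∧ sy κ t1 ≤ 0.251) (x1 : 0.2971 ≤ sx κ t1 ∧ sx κ t1 ≤ 0.4468) :
    ‖(-3 : ℂ) * L0 + (2 : ℂ) * L1‖ ≤ r * 5.2948 := by
  obtain ⟨y0a, y0b⟩ := y0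
  obtain ⟨x0a, x0b⟩ := x0
  obtain ⟨y1a, y1b⟩ := y1
  obtain ⟨x1a, x1b⟩ := x1
  have hN := v5_cN (κ := κ) (t1 := t1) (t0 := t0) (-3) 2 1.8362 1.5371 2.3947 (abs_le.2 ⟨by linarith only [x0a, x0b, x1a, x1b], by linarith only [x0a, x0b, x1a, x1b]⟩)
    (abs_le.2 ⟨by linarith only [y0a, y0b, y1a, y1b], by linarith only [y0a, y0b, y1a, y1b]⟩) (by norm_num) (by norm_num)
  have h1 := v5_comb (-3) 2 0.5 1.5132 0.257 2.3947 5.2948 hβ hr hκ (by norm_num) hk1 nA0 nA1 hN (by norm_num [abs_of_neg, abs_of_pos])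
  norm_num at h1 ⊢
  exact h1

private theorem B5Dw_K39 {β r t κ h : ℝ} (hβ : 0 < β) (hr : 10 ≤ r) (hκ : κ = β * r) (hk1 : 0.5 ≤ κ) (hk2 : κ ≤ 0.6)
    (hh : h = 2 * Real.pi / 5) (hh1 : 1.25663 ≤ h) (hh2 : h ≤ 1.25664) (hta : 0.666 ≤ t + κ) (htb : t + κ ≤ 0.7666)
    (hβ1 : β ≤ 0.06)
    (hY : 0.847 * Real.exp (r * sE κ t) ≤ ‖Xf β r h t 1‖) (hV : 1.18044 - 0.5229 * (t + κ) ≤ sE κ t) :
    ‖Xf β r h t 2‖ ≤ 0.0657 * ‖Xf β r h t 1‖ ∧ ‖Xf β r h (t + β) 2‖ ≤ 0.0657 * ‖Xf β r h t 1‖ := by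
  constructor
  · rw [v5_X 2 1 (by push_cast; ring)]
    exact v5_cmp0 0.4395 0.01235 0.0657 hr (B5Dw_C27 (t := t + 1 * h) hβ hr hκ hk1 hk2 (by linarith only [hta, htb, hh1, hh2, hβ, hβ1]) (by linarith only [hta, htb, hh1, hh2, hβ, hβ1])) hY (by norm_num) (by norm_num) (by norm_num) (by linarith only [hV, hta, htb, hh1, hh2]) (ex_un 4 0.3949 (by norm_num) (by norm_num) (by norm_num) (by norm_num)) (by norm_num)
  · rw [v5_X 2 1 (by push_cast; ring)]
    exact v5_cmp0 0.4395 0.01235 0.0657 hr (B5Dw_C27 (t := t + β + 1 * h) hβ hr hκ hk1 hk2 (by linarith only [hta, htb, hh1, hh2, hβ, hβ1]) (by linarith only [hta, htb, hh1, hh2, hβ, hβ1])) hY (by norm_num) (by norm_num) (by norm_num) (by linarith only [hV, hta, htb, hh1, hh2]) (ex_un 4 0.3949 (by norm_num) (by norm_num) (by norm_num) (by norm_num)) (by norm_num)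

private theorem B5Dw_K40 {β r t κ h : ℝ} (hβ : 0 < β) (hr : 10 ≤ r) (hκ : κ = β * r) (hk1 : 0.5 ≤ κ) (hk2 : κ ≤ 0.6)
    (hh : h = 2 * Real.pi / 5) (hh1 : 1.25663 ≤ h) (hh2 : h ≤ 1.25664) (hta : 0.666 ≤ t + κ) (htb : t + κ ≤ 0.7666)
    (hβ1 : β ≤ 0.06)
    (hY : 0.8846 * Real.exp (r * sE κ (t - h)) ≤ ‖Xf β r h t 0‖) (hV : 1.14453 + 0.5397 * (t - h + κ) ≤ sE κ (t - h)) :
    ‖Xf β r h t (-1)‖ ≤ 0.00136 * ‖Xf β r h t 0‖ ∧ ‖Xf β r h (t + β) (-1)‖ ≤ 0.00156 * ‖Xf β r h t 0‖ := by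
  constructor
  · rw [v5_X (-1) (-2) (by push_cast; ring)]
    exact v5_cmp 0.8468 0.0002104 0.000371 0.7756 0.0004315 0.000988 0.00136 hr (B5Dw_C28 (t := t + (-2) * h) hβ hr hκ hk1 hk2 (by linarith only [hta, htb, hh1, hh2, hβ, hβ1]) (by linarith only [hta, htb, hh1, hh2, hβ, hβ1])) hY (by norm_num) (by norm_num) (by norm_num) (by norm_num) (by linarith only [hV, hta, htb, hh1, hh2]) (ex_un 8 0.4679 (by norm_num) (by norm_num) (by norm_num) (by norm_num)) (by norm_num) (by norm_num) (by linarith only [hV, hta, htb, hh1, hh2]) (ex_un 7 0.7559 (by norm_num) (by norm_num) (by norm_num) (by norm_num)) (by norm_num) (by norm_num)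
  · rw [v5_X (-1) (-2) (by push_cast; ring)]
    have h1 := B5Dw_C28 (t := t + β + (-2) * h) hβ hr hκ hk1 hk2 (by linarith only [hta, htb, hh1, hh2, hβ, hβ1]) (by linarith only [hta, htb, hh1, hh2, hβ, hβ1])
    rw [show t + β + (-2) * h + κ = (t + (-2) * h + κ) + β by ring] at h1
    exact v5_cmpS 1.53113 0.8468 0.0002104 0.000568 0.7756 0.0004315 0.000988 0.00156 hr hκ h1 hY (by norm_num) (by norm_num) (by norm_num) (ex_up 0.426 (by linarith only [hk1, hk2]) (by norm_num) (by norm_num) (by norm_num)) (by norm_num) (by linarith only [hV, hta, htb, hh1, hh2]) (ex_un 8 0.4679 (by norm_num) (by norm_num) (by norm_num) (by norm_num)) (by norm_num) (by norm_num) (by linarith only [hV, hta, htb, hh1, hh2]) (ex_un 7 0.7559 (by norm_num) (by norm_num) (by norm_num) (by norm_num)) (by norm_num) (by norm_num)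

private theorem B5Dw_K41 {β r t κ h : ℝ} (hβ : 0 < β) (hr : 10 ≤ r) (hκ : κ = β * r) (hk1 : 0.5 ≤ κ) (hk2 : κ ≤ 0.6)
    (hh : h = 2 * Real.pi / 5) (hh1 : 1.25663 ≤ h) (hh2 : h ≤ 1.25664) (hta : 0.666 ≤ t + κ) (htb : t + κ ≤ 0.7666)
    (hβ1 : β ≤ 0.06)
    (hY : 0.8846 * Real.exp (r * sE κ (t - h)) ≤ ‖Xf β r h t 0‖) (hV : 1.14453 + 0.5397 * (t - h + κ) ≤ sE κ (t - h)) :
    ‖Xf β r h t (-2)‖ ≤ 0.00146 * ‖Xf β r h t 0‖ ∧ ‖Xf β r h (t + β) (-2)‖ ≤ 0.00146 * ‖Xf β r h t 0‖ := by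
  constructor
  · rw [v5_Xm2 hh]
    exact v5_cmp0 0.7657 0.000475 0.00146 hr (B5Dw_C29 (t := t + 2 * h) hβ hr hκ hk1 hk2 (by linarith only [hta, htb, hh1, hh2, hβ, hβ1]) (by linarith only [hta, htb, hh1, hh2, hβ, hβ1])) hY (by norm_num) (by norm_num) (by norm_num) (by linarith only [hV, hta, htb, hh1, hh2]) (ex_un 7 0.6569 (by norm_num) (by norm_num) (by norm_num) (by norm_num)) (by norm_num)
  · rw [v5_Xm2 hh]
    exact v5_cmp0 0.7657 0.000475 0.00146 hr (B5Dw_C29 (t := t + β + 2 * h) hβ hr hκ hk1 hk2 (by linarith only [hta, htb, hh1, hh2, hβ, hβ1]) (by linarith only [hta, htb, hh1, hh2, hβ, hβ1])) hY (by norm_num) (by norm_num) (by norm_num) (by linarith only [hV, hta, htb, hh1, hh2]) (ex_un 7 0.6569 (by norm_num) (by norm_num) (by norm_num) (by norm_num)) (by norm_num)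

theorem B5Dw_W42 {β r t κ h : ℝ} (hβ : 0 < β) (hr : 10 ≤ r) (hκ : κ = β * r) (hk1 : 0.5 ≤ κ) (hk2 : κ ≤ 0.6)
    (hh : h = 2 * Real.pi / 5) (hta : 0.666 ≤ t + κ) (htb : t + κ ≤ 0.7666) :
    Xf β r h t 0 ≠ 0 ∧
    (‖Xf β r h t 2‖ ≤ 0.0658 * ‖Xf β r h t 1‖ ∧ ‖Xf β r h t (-1)‖ ≤ 0.00254 * ‖Xf β r h t 0‖ ∧
      ‖Xf β r h t (-2)‖ ≤ 0.00327 * ‖Xf β r h t 0‖) ∧
    (r * ‖Xf β r h (t + β) 2‖ + ‖Xf β r h t 2‖ * ‖(1 : ℂ) * Ld β r h t 0 + (-2 : ℂ) * Ld β r h t 1‖ ≤
        r * 0.2 * ‖Xf β r h t 1‖ ∧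
      r * ‖Xf β r h (t + β) (-1)‖ + ‖Xf β r h t (-1)‖ * ‖(-2 : ℂ) * Ld β r h t 0 + (1 : ℂ) * Ld β r h t 1‖ ≤
        r * 0.0132 * ‖Xf β r h t 0‖ ∧
      r * ‖Xf β r h (t + β) (-2)‖ + ‖Xf β r h t (-2)‖ * ‖(-3 : ℂ) * Ld β r h t 0 + (2 : ℂ) * Ld β r h t 1‖ ≤
        r * 0.0232 * ‖Xf β r h t 0‖) ∧
    r * 0.5412 ≤ (Ld β r h t 1 - Ld β r h t 0).im := by
  obtain ⟨hh1, hh2⟩ := v5_h hh
  have hκ0 : 0 < κ := by linarith only [hk1]
  have hN : β * 16.666 ≤ 1 := v5_hN 0.6 16.666 hβ hr hκ hk2 (by norm_num) (by norm_num)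
  have hD1 : DomR κ t := v5_dom hκ0 (by linarith only [hta, htb, hk1, hk2, hh1, hh2]) (Or.inr (by linarith only [hta, htb, hk1, hk2, hh1, hh2]))
  have hD0 : DomR κ (t - h) := v5_dom hκ0 (by linarith only [hta, htb, hk1, hk2, hh1, hh2]) (Or.inr (by linarith only [hta, htb, hk1, hk2, hh1, hh2]))
  have hβ1 : β ≤ 0.06 := by
    have := mul_le_mul_of_nonneg_left hr hβ.le
    linarith only [this, hκ, hk2]
  have h0a : (-0.5907) ≤ t - h + κ := by linarith only [hta, htb, hh1, hh2]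
  have h0b : t - h + κ ≤ (-0.49) := by linarith only [hta, htb, hh1, hh2]
  have e1 : t = t + (((1 : ℤ) : ℝ) - 1) * h := by push_cast; ring
  have e0 : t - h = t + (((0 : ℤ) : ℝ) - 1) * h := by push_cast; ring
  have hY1 := B5Dw_Y30 (h := h) hβ hκ hN hk1 hk2 e1 hD1 hta htb
  have hY0 := B5Dw_Y31 (h := h) hβ hκ hN hk1 hk2 e0 hD0 h0a h0b
  have hV1 := B5Dw_V32 hD1 hk1 hk2 hta htb
  have hV0 := B5Dw_V33 hD0 hk1 hk2 h0a h0b
  obtain ⟨nz1, im1, nA1, ex1, y1, x1⟩ := B5Dw_S34 (h := h) hβ hκ hN hk1 hk2 e1 hD1 hta htb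
  obtain ⟨nz0, im0, nA0, ex0, y0, x0⟩ := B5Dw_S35 (h := h) hβ hκ hN hk1 hk2 e0 hD0 h0a h0b
  obtain ⟨cp2, dp2⟩ := B5Dw_K39 hβ hr hκ hk1 hk2 hh hh1 hh2 hta htb hβ1 hY1 hV1
  obtain ⟨cm1, dm1⟩ := B5Dw_K40 hβ hr hκ hk1 hk2 hh hh1 hh2 hta htb hβ1 hY0 hV0
  obtain ⟨cm2, dm2⟩ := B5Dw_K41 hβ hr hκ hk1 hk2 hh hh1 hh2 hta htb hβ1 hY0 hV0
  have Lp2 := B5Dw_L36 hβ hr hκ hk1 nA0 nA1 y0 x0 y1 x1
  have Lm1 := B5Dw_L37 hβ hr hκ hk1 nA0 nA1 y0 x0 y1 x1
  have Lm2 := B5Dw_L38 hβ hr hκ hk1 nA0 nA1 y0 x0 y1 x1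
  have hm : r * 0.5412 ≤ (Ld β r h t 1 - Ld β r h t 0).im :=
    v5_m 0.6 0.202 0.248 0.0001 0.451 0.1009 0.9892 _ _ 0.5412 hβ hr hκ hk2 im1 im0 y1.1 (by linarith only [y0.2]) (by norm_num) ex1 ex0 (by norm_num) (by norm_num)
  have hr0 : 0 < r := by linarith only [hr]
  refine ⟨nz0, ⟨v5_emax _ cp2 (norm_nonneg _) (by norm_num), v5_emax _ cm1 (norm_nonneg _) (by norm_num), v5_emax _ cm2 (norm_nonneg _) (by norm_num)⟩, ⟨?_, ?_, ?_⟩, hm⟩
  · exact v5_W hr0 dp2 cp2 Lp2 (norm_nonneg _) (norm_nonneg _) (norm_nonneg _) (by norm_num)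
  · exact v5_W hr0 dm1 cm1 Lm1 (norm_nonneg _) (norm_nonneg _) (norm_nonneg _) (by norm_num)
  · exact v5_W hr0 dm2 cm2 Lm2 (norm_nonneg _) (norm_nonneg _) (norm_nonneg _) (by norm_num)

end Sok
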