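import Pool.Agent.Lib.MP_816dec_an.R1V9

/-!
MP_816dec_an (A3, row R1), SINGLE CASE `b = 5`, `r ≥ 10`, `0.6 ≤ κ ≤ 0.7`: the window (generated file).
-/

set_option autoImplicit false
set_option linter.unusedVariables false

open Complex Set Filter Topology Metric

namespace Sok

private theorem B5Ew_B1 {κ t : ℝ} (h : DomR κ t) (hk1 : 0.6 ≤ κ) (hk2 : κ ≤ 0.7) (ht1 : 0.5654 ≤ t + κ) (ht2 : t + κ ≤ 0.666) :
    (0.198 ≤ sy κ t ∧ sy κ t ≤ 0.244) ∧ (0.4017 ≤ sx κ t ∧ sx κ t ≤ 0.5391) ∧ κ * Real.exp (-sy κ t) ≤ 0.5743 ∧ 1.6382 ≤ sD κ t ∧ sD κ t ≤ 1.7888 := by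
  have hy1 : 0.198 ≤ sy κ t := syR_ge h 0.6 0.7 0.5654 0.198 1.21896 1.21897 0.34479 0.40227 hk1 hk2 (by linarith) (by norm_num) (by norm_num)
    (expn_ge (by norm_num) (by norm_num)) (expn_le (by norm_num) (by norm_num) (by norm_num)) (by norm_num)
    (by norm_num) (by norm_num) (by norm_num) (by norm_num) (by norm_num) (by norm_num)
  have hy2 : sy κ t ≤ 0.244 := syR_le h 0.6 0.7 0.666 0.244 1.27634 0.4263 0.44489 0.51905 hk1 hk2 (by linarith) (by norm_num) (by norm_num)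
    (expn_ge (by norm_num) (by norm_num)) (by norm_num) (by norm_num) (Or.inr ((mul_le_mul_of_nonneg_left (expn_le (E := 1.27635) (by norm_num) (by norm_num) (by norm_num)) (by norm_num)).trans (by norm_num))) (by norm_num) (by norm_num) (by norm_num)
  have hy1' : 0.198 ≤ sy κ t := by linarith
  have hy2' : sy κ t ≤ 0.244 := by linarith
  have hx1 : 0.4017 ≤ sx κ t := sx_lo h 0.6 0.244 0.2441 0.78348 0.4017 hk1 (by norm_num) hy2' (abs_le.2 ⟨by linarith, by linarith⟩) (ex_lm 0.244 (by norm_num) (by norm_num) (by norm_num) (by norm_num) (by norm_num)) (by norm_num) (by norm_num)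
  have hx2 : sx κ t ≤ 0.5391 := sx_hi h 0.7 0.198 0.198 0.82037 0.5391 hk2 hy1' (by norm_num) (le_trans (by linarith) (le_abs_self _)) (ex_um 0.198 (by norm_num) (by norm_num) (by norm_num) (by norm_num)) (by norm_num) (by norm_num)
  refine ⟨⟨hy1', hy2'⟩, ⟨hx1, hx2⟩, v5_n h 0.7 0.198 0.82037 0.5743 hk2 hy1' (ex_um 0.198 (by norm_num) (by norm_num) (by norm_num) (by norm_num)) (by norm_num), ?_, ?_⟩
  · exact v5_Dlo h 0.6 0.198 0.244 0.198 0.82036 1.6382 (by norm_num) hk1 hy1' hy2' (ex_lm 0.198 (by norm_num) (by norm_num) (by norm_num) (by norm_num) (by norm_num)) (by norm_num) (by norm_num) (by norm_num) (by norm_num)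
  · exact v5_Dup h 0.7 0.198 0.244 0.82037 0.78349 1.7888 hk2 hy1' hy2' (ex_um 0.198 (by norm_num) (by norm_num) (by norm_num) (by norm_num)) (ex_um 0.244 (by norm_num) (by norm_num) (by norm_num) (by norm_num)) (by norm_num) (by norm_num) (by norm_num)

private theorem B5Ew_B2 {κ t : ℝ} (h : DomR κ t) (hk1 : 0.6 ≤ κ) (hk2 : κ ≤ 0.7) (ht1 : (-0.6913) ≤ t + κ) (ht2 : t + κ ≤ (-0.5906)) :
    ((-0.429) ≤ sy κ t ∧ sy κ t ≤ (-0.342)) ∧ (0.7275 ≤ sx κ t ∧ sx κ t ≤ 1.0192) ∧ κ * Real.exp (-sy κ t) ≤ 1.0751 ∧ 0.991 ≤ sD κ t ∧ sD κ t ≤ 1.2977 := by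
  have hy1 : -0.429 ≤ sy κ t := syL_ge h 0.6 0.7 0.6913 0.429 0.65115 0.65117 0.4212 0.39906 0.46559 hk1 hk2 (by linarith) (by norm_num) (by norm_num) (by norm_num)
    (expm_ge (by norm_num) (by norm_num) (by norm_num) (by norm_num)) (expm_le (by norm_num) (by norm_num) (by norm_num)) (by norm_num)
    (by norm_num) (by norm_num) (by norm_num) (by norm_num) (by norm_num) (by norm_num)
  have hy2 : sy κ t ≤ -0.342 := syL_le h 0.6 0.7 0.5906 0.342 0.71034 0.71035 0.34705 0.4049 hk1 hk2 (by linarith) (by norm_num) (by norm_num) (by norm_num)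
    (expm_ge (by norm_num) (by norm_num) (by norm_num) (by norm_num)) (expm_le (by norm_num) (by norm_num) (by norm_num)) (by norm_num)
    (by norm_num) (by norm_num) (by norm_num) (by norm_num) (by norm_num) (by norm_num)
  have hy1' : (-0.429) ≤ sy κ t := by linarith
  have hy2' : sy κ t ≤ (-0.342) := by linarith
  have hx1 : 0.7275 ≤ sx κ t := sx_lo h 0.6 (-0.342) 0.4291 1.40776 0.7275 hk1 (by norm_num) hy2' (abs_le.2 ⟨by linarith, by linarith⟩) (ex_lp 0.342 (by norm_num) (by norm_num) (by norm_num)) (by norm_num) (by norm_num)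
  have hx2 : sx κ t ≤ 1.0192 := sx_hi h 0.7 (-0.429) 0.342 1.53573 1.0192 hk2 hy1' (by norm_num) (le_trans (by linarith) (neg_le_abs _)) (ex_up 0.429 (by norm_num) (by norm_num) (by norm_num) (by norm_num)) (by norm_num) (by norm_num)
  refine ⟨⟨hy1', hy2'⟩, ⟨hx1, hx2⟩, v5_n h 0.7 (-0.429) 1.53573 1.0751 hk2 hy1' (ex_up 0.429 (by norm_num) (by norm_num) (by norm_num) (by norm_num)) (by norm_num), ?_, ?_⟩
  · exact v5_Dlo h 0.6 (-0.429) (-0.342) (-0.429) 1.53572 0.991 (by norm_num) hk1 hy1' hy2' (ex_lp 0.429 (by norm_num) (by norm_num) (by norm_num)) (by norm_num) (by norm_num) (by norm_num) (by norm_num)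
  · exact v5_Dup h 0.7 (-0.429) (-0.342) 1.53573 1.40777 1.2977 hk2 hy1' hy2' (ex_up 0.429 (by norm_num) (by norm_num) (by norm_num) (by norm_num)) (ex_up 0.342 (by norm_num) (by norm_num) (by norm_num) (by norm_num)) (by norm_num) (by norm_num) (by norm_num)

private theorem B5Ew_T3_0_0 {β x y : ℝ} (hβ : 0 < β) (hN : β * 14.285 ≤ 1) (hx1 : 0.2516 ≤ x) (hx2 : x ≤ 0.466)
    (hy1 : -0 ≤ y) (hy2 : y ≤ 0.29) : ‖HH β (x + y * I) - 1‖ ≤ 0.04 := by
  refine le_epsJ (C := 0.5702) (N0 := 14.285) (J_boxp 0.2516 0.466 0 0.29 0.29 0.8872 0.5489 1.3716 1.4015 0.4673 3.7796 14.285 0.6187 2.245 1.318 1.2408 0.4435 0.3521 1.0944 3.8122 0.4476 0.8187 0.83 2.3567 0.001774 0.006546 0.0000003101 0.0000003101 0.001674 0.000008342 0.00000711 0.0000003101 0.5702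
    hβ hN hx1 hx2 hy1 hy2 (by norm_num) (by norm_num) (by linarith) (by norm_num) (by norm_num) (by norm_num) (by norm_num) (by norm_num) (by norm_num) (by norm_num) (by norm_num) (by norm_num) (by norm_num) (by norm_num) (by norm_num) (by norm_num) (by norm_num) (by norm_num) (by norm_num) (by norm_num) (by norm_num) (by norm_num) (by norm_num) (by norm_num)
    (cube_sqrt_geJ (s := 0.8909) (by norm_num) (by norm_num) (by norm_num) (by norm_num))
    (cube_sqrt_geJ (s := 0.9613) (by norm_num) (by norm_num) (by norm_num) (by norm_num))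
    (by norm_num) (by norm_num) (by norm_num) (by norm_num) (by norm_num) (by norm_num) (by norm_num) (by norm_num) (by norm_num) (by norm_num) (by norm_num) (by norm_num) (by norm_num) (by norm_num) (by norm_num) (by norm_num) (by norm_num) (by norm_num)
    (exp_neg_leJ (r := 0.335) 6 (by norm_num) (by norm_num) (by norm_num) (by norm_num))
    (exp_neg_leJ (r := 0.029) 5 (by norm_num) (by norm_num) (by norm_num) (by norm_num))
    (exp_neg_leJ (r := 0.99) 14 (by norm_num) (by norm_num) (by norm_num) (by norm_num))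
    (exp_neg_leJ (r := 0.99) 14 (by norm_num) (by norm_num) (by norm_num) (by norm_num))
    (exp_neg_leJ (r := 0.393) 6 (by norm_num) (by norm_num) (by norm_num) (by norm_num))
    (exp_neg_leJ (r := 0.695) 11 (by norm_num) (by norm_num) (by norm_num) (by norm_num))
    (exp_neg_leJ (r := 0.856) 11 (by norm_num) (by norm_num) (by norm_num) (by norm_num))
    (exp_neg_leJ (r := 0.99) 14 (by norm_num) (by norm_num) (by norm_num) (by norm_num))
    (by norm_num)) (by norm_num) hN hβ.le (by norm_num)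

private theorem B5Ew_T3_0_1 {β x y : ℝ} (hβ : 0 < β) (hN : β * 14.285 ≤ 1) (hx1 : 0.466 ≤ x) (hx2 : x ≤ 0.6892)
    (hy1 : -0 ≤ y) (hy2 : y ≤ 0.29) : ‖HH β (x + y * I) - 1‖ ≤ 0.04 := by
  refine le_epsJ (C := 0.5479) (N0 := 14.285) (J_boxp 0.466 0.6892 0 0.29 0.29 1.0381 0.7478 1.4626 1.1435 0.4825 3.7796 14.285 0.7204 2.615 1.382 1.155 0.519 0.3944 1.1677 3.6898 0.5517 1.1156 1.2588 2.2448 0.0006035 0.003577 0.0000003101 0.0000003101 0.0003787 0.0000003101 0.0000003101 0.0000003101 0.5479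
    hβ hN hx1 hx2 hy1 hy2 (by norm_num) (by norm_num) (by linarith) (by norm_num) (by norm_num) (by norm_num) (by norm_num) (by norm_num) (by norm_num) (by norm_num) (by norm_num) (by norm_num) (by norm_num) (by norm_num) (by norm_num) (by norm_num) (by norm_num) (by norm_num) (by norm_num) (by norm_num) (by norm_num) (by norm_num) (by norm_num) (by norm_num)
    (cube_sqrt_geJ (s := 0.8717) (by norm_num) (by norm_num) (by norm_num) (by norm_num))
    (cube_sqrt_geJ (s := 0.9548) (by norm_num) (by norm_num) (by norm_num) (by norm_num))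
    (by norm_num) (by norm_num) (by norm_num) (by norm_num) (by norm_num) (by norm_num) (by norm_num) (by norm_num) (by norm_num) (by norm_num) (by norm_num) (by norm_num) (by norm_num) (by norm_num) (by norm_num) (by norm_num) (by norm_num) (by norm_num)
    (exp_neg_leJ (r := 0.413) 7 (by norm_num) (by norm_num) (by norm_num) (by norm_num))
    (exp_neg_leJ (r := 0.634) 5 (by norm_num) (by norm_num) (by norm_num) (by norm_num))
    (exp_neg_leJ (r := 0.99) 14 (by norm_num) (by norm_num) (by norm_num) (by norm_num))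
    (exp_neg_leJ (r := 0.99) 14 (by norm_num) (by norm_num) (by norm_num) (by norm_num))
    (exp_neg_leJ (r := 0.881) 7 (by norm_num) (by norm_num) (by norm_num) (by norm_num))
    (exp_neg_leJ (r := 0.99) 14 (by norm_num) (by norm_num) (by norm_num) (by norm_num))
    (exp_neg_leJ (r := 0.99) 14 (by norm_num) (by norm_num) (by norm_num) (by norm_num))
    (exp_neg_leJ (r := 0.99) 14 (by norm_num) (by norm_num) (by norm_num) (by norm_num))
    (by norm_num)) (by norm_num) hN hβ.le (by norm_num)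

private theorem B5Ew_T3_1_0 {β x y : ℝ} (hβ : 0 < β) (hN : β * 14.285 ≤ 1) (hx1 : 0.2516 ≤ x) (hx2 : x ≤ 0.358)
    (hy1 : -0 ≤ y) (hy2 : y ≤ 0.3941) : ‖HH β (x + y * I) - 1‖ ≤ 0.04 := by
  refine le_epsJ (C := 0.5708) (N0 := 14.285) (J_boxp 0.2516 0.358 0 0.3941 0.3941 0.8872 0.5325 1.4394 1.4357 0.4787 3.7796 14.285 0.6003 2.185 1.307 1.2824 0.4435 0.3548 1.0944 3.8499 0.437 0.8081 0.3836 1.9107 0.001774 0.006296 0.0000003101 0.0000003101 0.001946 0.000009707 0.004175 0.0000003101 0.5708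
    hβ hN hx1 hx2 hy1 hy2 (by norm_num) (by norm_num) (by linarith) (by norm_num) (by norm_num) (by norm_num) (by norm_num) (by norm_num) (by norm_num) (by norm_num) (by norm_num) (by norm_num) (by norm_num) (by norm_num) (by norm_num) (by norm_num) (by norm_num) (by norm_num) (by norm_num) (by norm_num) (by norm_num) (by norm_num) (by norm_num) (by norm_num)
    (cube_sqrt_geJ (s := 0.8943) (by norm_num) (by norm_num) (by norm_num) (by norm_num))
    (cube_sqrt_geJ (s := 0.9625) (by norm_num) (by norm_num) (by norm_num) (by norm_num))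
    (by norm_num) (by norm_num) (by norm_num) (by norm_num) (by norm_num) (by norm_num) (by norm_num) (by norm_num) (by norm_num) (by norm_num) (by norm_num) (by norm_num) (by norm_num) (by norm_num) (by norm_num) (by norm_num) (by norm_num) (by norm_num)
    (exp_neg_leJ (r := 0.335) 6 (by norm_num) (by norm_num) (by norm_num) (by norm_num))
    (exp_neg_leJ (r := 0.068) 5 (by norm_num) (by norm_num) (by norm_num) (by norm_num))
    (exp_neg_leJ (r := 0.99) 14 (by norm_num) (by norm_num) (by norm_num) (by norm_num))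
    (exp_neg_leJ (r := 0.99) 14 (by norm_num) (by norm_num) (by norm_num) (by norm_num))
    (exp_neg_leJ (r := 0.242) 6 (by norm_num) (by norm_num) (by norm_num) (by norm_num))
    (exp_neg_leJ (r := 0.543) 11 (by norm_num) (by norm_num) (by norm_num) (by norm_num))
    (exp_neg_leJ (r := 0.479) 5 (by norm_num) (by norm_num) (by norm_num) (by norm_num))
    (exp_neg_leJ (r := 0.99) 14 (by norm_num) (by norm_num) (by norm_num) (by norm_num))
    (by norm_num)) (by norm_num) hN hβ.le (by norm_num)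

private theorem B5Ew_T3_1_1 {β x y : ℝ} (hβ : 0 < β) (hN : β * 14.285 ≤ 1) (hx1 : 0.358 ≤ x) (hx2 : x ≤ 0.513)
    (hy1 : -0 ≤ y) (hy2 : y ≤ 0.3941) : ‖HH β (x + y * I) - 1‖ ≤ 0.04 := by
  refine le_epsJ (C := 0.5702) (N0 := 14.285) (J_boxp 0.358 0.513 0 0.3941 0.3941 0.9621 0.647 1.4855 1.2916 0.4863 3.7796 14.285 0.6725 2.432 1.351 1.2228 0.481 0.3732 1.1308 3.7712 0.4887 0.9554 0.5964 1.8123 0.00104 0.00484 0.0000003101 0.0000003101 0.0009326 0.000001185 0.0001997 0.0000003101 0.5702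
    hβ hN hx1 hx2 hy1 hy2 (by norm_num) (by norm_num) (by linarith) (by norm_num) (by norm_num) (by norm_num) (by norm_num) (by norm_num) (by norm_num) (by norm_num) (by norm_num) (by norm_num) (by norm_num) (by norm_num) (by norm_num) (by norm_num) (by norm_num) (by norm_num) (by norm_num) (by norm_num) (by norm_num) (by norm_num) (by norm_num) (by norm_num)
    (cube_sqrt_geJ (s := 0.8808) (by norm_num) (by norm_num) (by norm_num) (by norm_num))
    (cube_sqrt_geJ (s := 0.9579) (by norm_num) (by norm_num) (by norm_num) (by norm_num))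
    (by norm_num) (by norm_num) (by norm_num) (by norm_num) (by norm_num) (by norm_num) (by norm_num) (by norm_num) (by norm_num) (by norm_num) (by norm_num) (by norm_num) (by norm_num) (by norm_num) (by norm_num) (by norm_num) (by norm_num) (by norm_num)
    (exp_neg_leJ (r := 0.871) 6 (by norm_num) (by norm_num) (by norm_num) (by norm_num))
    (exp_neg_leJ (r := 0.331) 5 (by norm_num) (by norm_num) (by norm_num) (by norm_num))
    (exp_neg_leJ (r := 0.99) 14 (by norm_num) (by norm_num) (by norm_num) (by norm_num))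
    (exp_neg_leJ (r := 0.99) 14 (by norm_num) (by norm_num) (by norm_num) (by norm_num))
    (exp_neg_leJ (r := 0.981) 6 (by norm_num) (by norm_num) (by norm_num) (by norm_num))
    (exp_neg_leJ (r := 0.647) 13 (by norm_num) (by norm_num) (by norm_num) (by norm_num))
    (exp_neg_leJ (r := 0.519) 8 (by norm_num) (by norm_num) (by norm_num) (by norm_num))
    (exp_neg_leJ (r := 0.99) 14 (by norm_num) (by norm_num) (by norm_num) (by norm_num))
    (by norm_num)) (by norm_num) hN hβ.le (by norm_num)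

private theorem B5Ew_T3_1_2 {β x y : ℝ} (hβ : 0 < β) (hN : β * 14.285 ≤ 1) (hx1 : 0.513 ≤ x) (hx2 : x ≤ 0.6892)
    (hy1 : -0 ≤ y) (hy2 : y ≤ 0.3941) : ‖HH β (x + y * I) - 1‖ ≤ 0.04 := by
  refine le_epsJ (C := 0.5642) (N0 := 14.285) (J_boxp 0.513 0.6892 0 0.3941 0.3941 1.0712 0.794 1.5552 1.1249 0.4976 3.7796 14.285 0.7413 2.701 1.396 1.155 0.5355 0.4032 1.1838 3.6773 0.564 1.1701 0.9064 1.7227 0.0004768 0.003158 0.0000003101 0.0000003101 0.0003172 0.0000003101 0.000002391 0.0000003101 0.5642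
    hβ hN hx1 hx2 hy1 hy2 (by norm_num) (by norm_num) (by linarith) (by norm_num) (by norm_num) (by norm_num) (by norm_num) (by norm_num) (by norm_num) (by norm_num) (by norm_num) (by norm_num) (by norm_num) (by norm_num) (by norm_num) (by norm_num) (by norm_num) (by norm_num) (by norm_num) (by norm_num) (by norm_num) (by norm_num) (by norm_num) (by norm_num)
    (cube_sqrt_geJ (s := 0.8676) (by norm_num) (by norm_num) (by norm_num) (by norm_num))
    (cube_sqrt_geJ (s := 0.9535) (by norm_num) (by norm_num) (by norm_num) (by norm_num))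
    (by norm_num) (by norm_num) (by norm_num) (by norm_num) (by norm_num) (by norm_num) (by norm_num) (by norm_num) (by norm_num) (by norm_num) (by norm_num) (by norm_num) (by norm_num) (by norm_num) (by norm_num) (by norm_num) (by norm_num) (by norm_num)
    (exp_neg_leJ (r := 0.649) 7 (by norm_num) (by norm_num) (by norm_num) (by norm_num))
    (exp_neg_leJ (r := 0.759) 5 (by norm_num) (by norm_num) (by norm_num) (by norm_num))
    (exp_neg_leJ (r := 0.99) 14 (by norm_num) (by norm_num) (by norm_num) (by norm_num))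
    (exp_neg_leJ (r := 0.99) 14 (by norm_num) (by norm_num) (by norm_num) (by norm_num))
    (exp_neg_leJ (r := 0.056) 8 (by norm_num) (by norm_num) (by norm_num) (by norm_num))
    (exp_neg_leJ (r := 0.99) 14 (by norm_num) (by norm_num) (by norm_num) (by norm_num))
    (exp_neg_leJ (r := 0.947) 12 (by norm_num) (by norm_num) (by norm_num) (by norm_num))
    (exp_neg_leJ (r := 0.99) 14 (by norm_num) (by norm_num) (by norm_num) (by norm_num))
    (by norm_num)) (by norm_num) hN hβ.le (by norm_num)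

private theorem B5Ew_T3 {β x y : ℝ} (hβ : 0 < β) (hN : β * 14.285 ≤ 1) (hx1 : 0.2516 ≤ x) (hx2 : x ≤ 0.6892)
    (hy1 : 0.0479 ≤ y) (hy2 : y ≤ 0.3941) : ‖HH β (x + y * I) - 1‖ ≤ 0.04 := by
  rcases le_total y 0.29 with hyy | hyy
  · rcases le_total x 0.466 with hxx | hxx
    · exact B5Ew_T3_0_0 hβ hN (by linarith) (by linarith) (by linarith) (by linarith)
    exact B5Ew_T3_0_1 hβ hN (by linarith) (by linarith) (by linarith) (by linarith)
  rcases le_total x 0.358 with hxx | hxx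
  · exact B5Ew_T3_1_0 hβ hN (by linarith) (by linarith) (by linarith) (by linarith)
  rcases le_total x 0.513 with hxx | hxx
  · exact B5Ew_T3_1_1 hβ hN (by linarith) (by linarith) (by linarith) (by linarith)
  exact B5Ew_T3_1_2 hβ hN (by linarith) (by linarith) (by linarith) (by linarith)

private theorem B5Ew_T4_0_0 {β x y : ℝ} (hβ : 0 < β) (hN : β * 14.285 ≤ 1) (hx1 : 0.6074 ≤ x) (hx2 : x ≤ 0.623)
    (hy1 : -0.5491 ≤ y) (hy2 : y ≤ -0.2219) : ‖HH β (x + y * I) - 1‖ ≤ 0.185 := by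
  refine le_epsJ (C := 2.639) (N0 := 14.285) (J_boxp 0.6074 0.623 0.5491 0 (-0.2219) 0.7478 0.8305 0.9968 1.544 0.3984 3.7796 14.285 1.1106 5.045 1.668 0.6736 0.3738 0.2354 0.3494 1.9644 0.35 1.341 1.2928 3.6693 0.004801 0.03467 0.00683 0.0000003101 0.00683 0.0000003101 0.0000003101 0.0000003101 2.639
    hβ hN hx1 hx2 hy1 hy2 (by norm_num) (by norm_num) (by linarith) (by norm_num) (by norm_num) (by norm_num) (by norm_num) (by norm_num) (by norm_num) (by norm_num) (by norm_num) (by norm_num) (by norm_num) (by norm_num) (by norm_num) (by norm_num) (by norm_num) (by norm_num) (by norm_num) (by norm_num) (by norm_num) (by norm_num) (by norm_num) (by norm_num)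
    (cube_sqrt_geJ (s := 0.7935) (by norm_num) (by norm_num) (by norm_num) (by norm_num))
    (cube_sqrt_geJ (s := 0.9295) (by norm_num) (by norm_num) (by norm_num) (by norm_num))
    (by norm_num) (by norm_num) (by norm_num) (by norm_num) (by norm_num) (by norm_num) (by norm_num) (by norm_num) (by norm_num) (by norm_num) (by norm_num) (by norm_num) (by norm_num) (by norm_num) (by norm_num) (by norm_num) (by norm_num) (by norm_num)
    (exp_neg_leJ (r := 0.339) 5 (by norm_num) (by norm_num) (by norm_num) (by norm_num))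
    (exp_neg_leJ (r := 0.362) 3 (by norm_num) (by norm_num) (by norm_num) (by norm_num))
    (exp_neg_leJ (r := 0.99) 4 (by norm_num) (by norm_num) (by norm_num) (by norm_num))
    (exp_neg_leJ (r := 0.99) 14 (by norm_num) (by norm_num) (by norm_num) (by norm_num))
    (exp_neg_leJ (r := 0.99) 4 (by norm_num) (by norm_num) (by norm_num) (by norm_num))
    (exp_neg_leJ (r := 0.99) 14 (by norm_num) (by norm_num) (by norm_num) (by norm_num))
    (exp_neg_leJ (r := 0.99) 14 (by norm_num) (by norm_num) (by norm_num) (by norm_num))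
    (exp_neg_leJ (r := 0.99) 14 (by norm_num) (by norm_num) (by norm_num) (by norm_num))
    (by norm_num)) (by norm_num) hN hβ.le (by norm_num)

private theorem B5Ew_T4_0_1 {β x y : ℝ} (hβ : 0 < β) (hN : β * 14.285 ≤ 1) (hx1 : 0.623 ≤ x) (hx2 : x ≤ 0.649)
    (hy1 : -0.5491 ≤ y) (hy2 : y ≤ -0.2219) : ‖HH β (x + y * I) - 1‖ ≤ 0.185 := by
  refine le_epsJ (C := 2.6419) (N0 := 14.285) (J_boxp 0.623 0.649 0.5491 0 (-0.2219) 0.7588 0.8502 1.0133 1.523 0.4016 3.7796 14.285 1.1205 5.138 1.677 0.6636 0.3793 0.2376 0.3548 1.9511 0.3576 1.3626 1.324 3.647 0.004437 0.03358 0.006296 0.0000003101 0.006049 0.0000003101 0.0000003101 0.0000003101 2.6419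
    hβ hN hx1 hx2 hy1 hy2 (by norm_num) (by norm_num) (by linarith) (by norm_num) (by norm_num) (by norm_num) (by norm_num) (by norm_num) (by norm_num) (by norm_num) (by norm_num) (by norm_num) (by norm_num) (by norm_num) (by norm_num) (by norm_num) (by norm_num) (by norm_num) (by norm_num) (by norm_num) (by norm_num) (by norm_num) (by norm_num) (by norm_num)
    (cube_sqrt_geJ (s := 0.7915) (by norm_num) (by norm_num) (by norm_num) (by norm_num))
    (cube_sqrt_geJ (s := 0.9288) (by norm_num) (by norm_num) (by norm_num) (by norm_num))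
    (by norm_num) (by norm_num) (by norm_num) (by norm_num) (by norm_num) (by norm_num) (by norm_num) (by norm_num) (by norm_num) (by norm_num) (by norm_num) (by norm_num) (by norm_num) (by norm_num) (by norm_num) (by norm_num) (by norm_num) (by norm_num)
    (exp_neg_leJ (r := 0.418) 5 (by norm_num) (by norm_num) (by norm_num) (by norm_num))
    (exp_neg_leJ (r := 0.394) 3 (by norm_num) (by norm_num) (by norm_num) (by norm_num))
    (exp_neg_leJ (r := 0.068) 5 (by norm_num) (by norm_num) (by norm_num) (by norm_num))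
    (exp_neg_leJ (r := 0.99) 14 (by norm_num) (by norm_num) (by norm_num) (by norm_num))
    (exp_neg_leJ (r := 0.108) 5 (by norm_num) (by norm_num) (by norm_num) (by norm_num))
    (exp_neg_leJ (r := 0.99) 14 (by norm_num) (by norm_num) (by norm_num) (by norm_num))
    (exp_neg_leJ (r := 0.99) 14 (by norm_num) (by norm_num) (by norm_num) (by norm_num))
    (exp_neg_leJ (r := 0.99) 14 (by norm_num) (by norm_num) (by norm_num) (by norm_num))
    (by norm_num)) (by norm_num) hN hβ.le (by norm_num)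

private theorem B5Ew_T4_0_2 {β x y : ℝ} (hβ : 0 < β) (hN : β * 14.285 ≤ 1) (hx1 : 0.649 ≤ x) (hx2 : x ≤ 0.69)
    (hy1 : -0.5491 ≤ y) (hy2 : y ≤ -0.2219) : ‖HH β (x + y * I) - 1‖ ≤ 0.185 := by
  refine le_epsJ (C := 2.6397) (N0 := 14.285) (J_boxp 0.649 0.69 0.5491 0 (-0.2219) 0.7771 0.8819 1.04 1.4887 0.4069 3.7796 14.285 1.1349 5.279 1.689 0.6478 0.3885 0.2415 0.3637 1.9299 0.3702 1.3986 1.376 3.6128 0.003893 0.03179 0.005545 0.0000003101 0.005052 0.0000003101 0.0000003101 0.0000003101 2.6397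
    hβ hN hx1 hx2 hy1 hy2 (by norm_num) (by norm_num) (by linarith) (by norm_num) (by norm_num) (by norm_num) (by norm_num) (by norm_num) (by norm_num) (by norm_num) (by norm_num) (by norm_num) (by norm_num) (by norm_num) (by norm_num) (by norm_num) (by norm_num) (by norm_num) (by norm_num) (by norm_num) (by norm_num) (by norm_num) (by norm_num) (by norm_num)
    (cube_sqrt_geJ (s := 0.7884) (by norm_num) (by norm_num) (by norm_num) (by norm_num))
    (cube_sqrt_geJ (s := 0.9279) (by norm_num) (by norm_num) (by norm_num) (by norm_num))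
    (by norm_num) (by norm_num) (by norm_num) (by norm_num) (by norm_num) (by norm_num) (by norm_num) (by norm_num) (by norm_num) (by norm_num) (by norm_num) (by norm_num) (by norm_num) (by norm_num) (by norm_num) (by norm_num) (by norm_num) (by norm_num)
    (exp_neg_leJ (r := 0.549) 5 (by norm_num) (by norm_num) (by norm_num) (by norm_num))
    (exp_neg_leJ (r := 0.449) 3 (by norm_num) (by norm_num) (by norm_num) (by norm_num))
    (exp_neg_leJ (r := 0.195) 5 (by norm_num) (by norm_num) (by norm_num) (by norm_num))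
    (exp_neg_leJ (r := 0.99) 14 (by norm_num) (by norm_num) (by norm_num) (by norm_num))
    (exp_neg_leJ (r := 0.288) 5 (by norm_num) (by norm_num) (by norm_num) (by norm_num))
    (exp_neg_leJ (r := 0.99) 14 (by norm_num) (by norm_num) (by norm_num) (by norm_num))
    (exp_neg_leJ (r := 0.99) 14 (by norm_num) (by norm_num) (by norm_num) (by norm_num))
    (exp_neg_leJ (r := 0.99) 14 (by norm_num) (by norm_num) (by norm_num) (by norm_num))
    (by norm_num)) (by norm_num) hN hβ.le (by norm_num)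

private theorem B5Ew_T4_0_3 {β x y : ℝ} (hβ : 0 < β) (hN : β * 14.285 ≤ 1) (hx1 : 0.69 ≤ x) (hx2 : x ≤ 0.753)
    (hy1 : -0.5491 ≤ y) (hy2 : y ≤ -0.2219) : ‖HH β (x + y * I) - 1‖ ≤ 0.185 := by
  refine le_epsJ (C := 2.6389) (N0 := 14.285) (J_boxp 0.69 0.753 0.5491 0 (-0.2219) 0.806 0.932 1.0828 1.4381 0.4152 3.7796 14.285 1.1564 5.497 1.707 0.6236 0.4029 0.2476 0.3777 1.897 0.3901 1.4553 1.458 3.5586 0.003171 0.02914 0.00454 0.0000003101 0.003805 0.0000003101 0.0000003101 0.0000003101 2.6389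
    hβ hN hx1 hx2 hy1 hy2 (by norm_num) (by norm_num) (by linarith) (by norm_num) (by norm_num) (by norm_num) (by norm_num) (by norm_num) (by norm_num) (by norm_num) (by norm_num) (by norm_num) (by norm_num) (by norm_num) (by norm_num) (by norm_num) (by norm_num) (by norm_num) (by norm_num) (by norm_num) (by norm_num) (by norm_num) (by norm_num) (by norm_num)
    (cube_sqrt_geJ (s := 0.7839) (by norm_num) (by norm_num) (by norm_num) (by norm_num))
    (cube_sqrt_geJ (s := 0.9265) (by norm_num) (by norm_num) (by norm_num) (by norm_num))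
    (by norm_num) (by norm_num) (by norm_num) (by norm_num) (by norm_num) (by norm_num) (by norm_num) (by norm_num) (by norm_num) (by norm_num) (by norm_num) (by norm_num) (by norm_num) (by norm_num) (by norm_num) (by norm_num) (by norm_num) (by norm_num)
    (exp_neg_leJ (r := 0.755) 5 (by norm_num) (by norm_num) (by norm_num) (by norm_num))
    (exp_neg_leJ (r := 0.536) 3 (by norm_num) (by norm_num) (by norm_num) (by norm_num))
    (exp_neg_leJ (r := 0.395) 5 (by norm_num) (by norm_num) (by norm_num) (by norm_num))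
    (exp_neg_leJ (r := 0.99) 14 (by norm_num) (by norm_num) (by norm_num) (by norm_num))
    (exp_neg_leJ (r := 0.572) 5 (by norm_num) (by norm_num) (by norm_num) (by norm_num))
    (exp_neg_leJ (r := 0.99) 14 (by norm_num) (by norm_num) (by norm_num) (by norm_num))
    (exp_neg_leJ (r := 0.99) 14 (by norm_num) (by norm_num) (by norm_num) (by norm_num))
    (exp_neg_leJ (r := 0.99) 14 (by norm_num) (by norm_num) (by norm_num) (by norm_num))
    (by norm_num)) (by norm_num) hN hβ.le (by norm_num)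

private theorem B5Ew_T4_0_4 {β x y : ℝ} (hβ : 0 < β) (hN : β * 14.285 ≤ 1) (hx1 : 0.753 ≤ x) (hx2 : x ≤ 0.846)
    (hy1 : -0.5491 ≤ y) (hy2 : y ≤ -0.2219) : ‖HH β (x + y * I) - 1‖ ≤ 0.185 := by
  refine le_epsJ (C := 2.6391) (N0 := 14.285) (J_boxp 0.753 0.846 0.5491 0 (-0.2219) 0.8503 1.0086 1.1495 1.3675 0.4278 3.7796 14.285 1.1862 5.82 1.733 0.5878 0.4251 0.257 0.3993 1.8476 0.4207 1.5426 1.584 3.4764 0.002307 0.02547 0.003336 0.0000003101 0.002457 0.0000003101 0.0000003101 0.0000003101 2.6391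
    hβ hN hx1 hx2 hy1 hy2 (by norm_num) (by norm_num) (by linarith) (by norm_num) (by norm_num) (by norm_num) (by norm_num) (by norm_num) (by norm_num) (by norm_num) (by norm_num) (by norm_num) (by norm_num) (by norm_num) (by norm_num) (by norm_num) (by norm_num) (by norm_num) (by norm_num) (by norm_num) (by norm_num) (by norm_num) (by norm_num) (by norm_num)
    (cube_sqrt_geJ (s := 0.7775) (by norm_num) (by norm_num) (by norm_num) (by norm_num))
    (cube_sqrt_geJ (s := 0.9245) (by norm_num) (by norm_num) (by norm_num) (by norm_num))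
    (by norm_num) (by norm_num) (by norm_num) (by norm_num) (by norm_num) (by norm_num) (by norm_num) (by norm_num) (by norm_num) (by norm_num) (by norm_num) (by norm_num) (by norm_num) (by norm_num) (by norm_num) (by norm_num) (by norm_num) (by norm_num)
    (exp_neg_leJ (r := 0.072) 6 (by norm_num) (by norm_num) (by norm_num) (by norm_num))
    (exp_neg_leJ (r := 0.671) 3 (by norm_num) (by norm_num) (by norm_num) (by norm_num))
    (exp_neg_leJ (r := 0.704) 5 (by norm_num) (by norm_num) (by norm_num) (by norm_num))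
    (exp_neg_leJ (r := 0.99) 14 (by norm_num) (by norm_num) (by norm_num) (by norm_num))
    (exp_neg_leJ (r := 0.009) 6 (by norm_num) (by norm_num) (by norm_num) (by norm_num))
    (exp_neg_leJ (r := 0.99) 14 (by norm_num) (by norm_num) (by norm_num) (by norm_num))
    (exp_neg_leJ (r := 0.99) 14 (by norm_num) (by norm_num) (by norm_num) (by norm_num))
    (exp_neg_leJ (r := 0.99) 14 (by norm_num) (by norm_num) (by norm_num) (by norm_num))
    (by norm_num)) (by norm_num) hN hβ.le (by norm_num)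

private theorem B5Ew_T4_0_5 {β x y : ℝ} (hβ : 0 < β) (hN : β * 14.285 ≤ 1) (hx1 : 0.846 ≤ x) (hx2 : x ≤ 0.977)
    (hy1 : -0.5491 ≤ y) (hy2 : y ≤ -0.2219) : ‖HH β (x + y * I) - 1‖ ≤ 0.185 := by
  refine le_epsJ (C := 2.6351) (N0 := 14.285) (J_boxp 0.846 0.977 0.5491 0 (-0.2219) 0.9158 1.1208 1.249 1.2753 0.4459 3.7796 14.285 1.2239 6.264 1.766 0.5374 0.4578 0.271 0.4311 1.777 0.4659 1.6713 1.77 3.3574 0.001447 0.02089 0.002117 0.0000003101 0.001289 0.0000003101 0.0000003101 0.0000003101 2.6351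
    hβ hN hx1 hx2 hy1 hy2 (by norm_num) (by norm_num) (by linarith) (by norm_num) (by norm_num) (by norm_num) (by norm_num) (by norm_num) (by norm_num) (by norm_num) (by norm_num) (by norm_num) (by norm_num) (by norm_num) (by norm_num) (by norm_num) (by norm_num) (by norm_num) (by norm_num) (by norm_num) (by norm_num) (by norm_num) (by norm_num) (by norm_num)
    (cube_sqrt_geJ (s := 0.7694) (by norm_num) (by norm_num) (by norm_num) (by norm_num))
    (cube_sqrt_geJ (s := 0.922) (by norm_num) (by norm_num) (by norm_num) (by norm_num))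
    (by norm_num) (by norm_num) (by norm_num) (by norm_num) (by norm_num) (by norm_num) (by norm_num) (by norm_num) (by norm_num) (by norm_num) (by norm_num) (by norm_num) (by norm_num) (by norm_num) (by norm_num) (by norm_num) (by norm_num) (by norm_num)
    (exp_neg_leJ (r := 0.539) 6 (by norm_num) (by norm_num) (by norm_num) (by norm_num))
    (exp_neg_leJ (r := 0.871) 3 (by norm_num) (by norm_num) (by norm_num) (by norm_num))
    (exp_neg_leJ (r := 0.158) 6 (by norm_num) (by norm_num) (by norm_num) (by norm_num))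
    (exp_neg_leJ (r := 0.99) 14 (by norm_num) (by norm_num) (by norm_num) (by norm_num))
    (exp_neg_leJ (r := 0.655) 6 (by norm_num) (by norm_num) (by norm_num) (by norm_num))
    (exp_neg_leJ (r := 0.99) 14 (by norm_num) (by norm_num) (by norm_num) (by norm_num))
    (exp_neg_leJ (r := 0.99) 14 (by norm_num) (by norm_num) (by norm_num) (by norm_num))
    (exp_neg_leJ (r := 0.99) 14 (by norm_num) (by norm_num) (by norm_num) (by norm_num))
    (by norm_num)) (by norm_num) hN hβ.le (by norm_num)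

private theorem B5Ew_T4_0_6 {β x y : ℝ} (hβ : 0 < β) (hN : β * 14.285 ≤ 1) (hx1 : 0.977 ≤ x) (hx2 : x ≤ 1.1393)
    (hy1 : -0.5491 ≤ y) (hy2 : y ≤ -0.2219) : ‖HH β (x + y * I) - 1‖ ≤ 0.185 := by
  refine le_epsJ (C := 2.5166) (N0 := 14.285) (J_boxp 0.977 1.1393 0.5491 0 (-0.2219) 1.0081 1.2648 1.3797 1.1605 0.4687 3.7796 14.285 1.2547 6.659 1.793 0.475 0.504 0.2932 0.4759 1.6881 0.5296 1.8527 2.032 3.2279 0.0007474 0.01518 0.001118 0.0000003101 0.0005185 0.0000003101 0.0000003101 0.0000003101 2.5166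
    hβ hN hx1 hx2 hy1 hy2 (by norm_num) (by norm_num) (by linarith) (by norm_num) (by norm_num) (by norm_num) (by norm_num) (by norm_num) (by norm_num) (by norm_num) (by norm_num) (by norm_num) (by norm_num) (by norm_num) (by norm_num) (by norm_num) (by norm_num) (by norm_num) (by norm_num) (by norm_num) (by norm_num) (by norm_num) (by norm_num) (by norm_num)
    (cube_sqrt_geJ (s := 0.7627) (by norm_num) (by norm_num) (by norm_num) (by norm_num))
    (cube_sqrt_geJ (s := 0.9199) (by norm_num) (by norm_num) (by norm_num) (by norm_num))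
    (by norm_num) (by norm_num) (by norm_num) (by norm_num) (by norm_num) (by norm_num) (by norm_num) (by norm_num) (by norm_num) (by norm_num) (by norm_num) (by norm_num) (by norm_num) (by norm_num) (by norm_num) (by norm_num) (by norm_num) (by norm_num)
    (exp_neg_leJ (r := 0.199) 7 (by norm_num) (by norm_num) (by norm_num) (by norm_num))
    (exp_neg_leJ (r := 0.188) 4 (by norm_num) (by norm_num) (by norm_num) (by norm_num))
    (exp_neg_leJ (r := 0.798) 6 (by norm_num) (by norm_num) (by norm_num) (by norm_num))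
    (exp_neg_leJ (r := 0.99) 14 (by norm_num) (by norm_num) (by norm_num) (by norm_num))
    (exp_neg_leJ (r := 0.565) 7 (by norm_num) (by norm_num) (by norm_num) (by norm_num))
    (exp_neg_leJ (r := 0.99) 14 (by norm_num) (by norm_num) (by norm_num) (by norm_num))
    (exp_neg_leJ (r := 0.99) 14 (by norm_num) (by norm_num) (by norm_num) (by norm_num))
    (exp_neg_leJ (r := 0.99) 14 (by norm_num) (by norm_num) (by norm_num) (by norm_num))
    (by norm_num)) (by norm_num) hN hβ.le (by norm_num)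

private theorem B5Ew_T4 {β x y : ℝ} (hβ : 0 < β) (hN : β * 14.285 ≤ 1) (hx1 : 0.6074 ≤ x) (hx2 : x ≤ 1.1393)
    (hy1 : (-0.5491) ≤ y) (hy2 : y ≤ (-0.2219)) : ‖HH β (x + y * I) - 1‖ ≤ 0.185 := by
  rcases le_total x 0.623 with hxx | hxx
  · exact B5Ew_T4_0_0 hβ hN (by linarith) (by linarith) (by linarith) (by linarith)
  rcases le_total x 0.649 with hxx | hxx
  · exact B5Ew_T4_0_1 hβ hN (by linarith) (by linarith) (by linarith) (by linarith)
  rcases le_total x 0.69 with hxx | hxx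
  · exact B5Ew_T4_0_2 hβ hN (by linarith) (by linarith) (by linarith) (by linarith)
  rcases le_total x 0.753 with hxx | hxx
  · exact B5Ew_T4_0_3 hβ hN (by linarith) (by linarith) (by linarith) (by linarith)
  rcases le_total x 0.846 with hxx | hxx
  · exact B5Ew_T4_0_4 hβ hN (by linarith) (by linarith) (by linarith) (by linarith)
  rcases le_total x 0.977 with hxx | hxx
  · exact B5Ew_T4_0_5 hβ hN (by linarith) (by linarith) (by linarith) (by linarith)
  exact B5Ew_T4_0_6 hβ hN (by linarith) (by linarith) (by linarith) (by linarith)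

private theorem B5Ew_G5 {κ : ℝ} (hk1 : 0.6 ≤ κ) (hk2 : κ ≤ 0.7) : gG κ 0.56 ≤ 1.32217 ∧ 0.45657 ≤ Real.exp (-(κ * 0.56)) ^ 2 := by
  refine ⟨gG_le 0.56 0.6 0.7 1.32217 0.71463 0.67571 1.39934 1.47994 hk1 hk2 (by norm_num)
    (ex_um 0.336 (by norm_num) (by norm_num) (by norm_num) (by norm_num)) (ex_um 0.392 (by norm_num) (by norm_num) (by norm_num) (by norm_num))
    (ex_up 0.336 (by norm_num) (by norm_num) (by norm_num) (by norm_num)) (ex_up 0.392 (by norm_num) (by norm_num) (by norm_num) (by norm_num))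
    (by norm_num) (by norm_num), ?_⟩
  exact v5_M 0.6757 (ex_lm 0.392 (by linarith) (by norm_num) (by norm_num) (by norm_num) (by norm_num)) (by norm_num) (by norm_num)

private theorem B5Ew_C6 {β r t κ : ℝ} (hβ : 0 < β) (hr : 10 ≤ r) (hκ : κ = β * r) (hk1 : 0.6 ≤ κ) (hk2 : κ ≤ 0.7) (hta : 1.822 ≤ t + κ)
    (htb : t + κ ≤ 1.9927) : ‖F (cexp (I * β)) (r * cexp (I * ((t + β / 2 : ℝ) : ℂ)))‖ ≤
      2.9303 * Real.exp (r * (1.32217 - 0.56 * (t + κ))) + 0.1449 * Real.exp (r * 0) :=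
  v5_H 0.56 0.6 0.7 1.822 1.9927 1.32217 2.5714 0.45657 0.1056 2.6926 0.1779 0.05052 0.6046 0.00000151 2.9303 0.1449 hβ hr hκ (by norm_num) hk1 hk2 hta htb (by norm_num) (B5Ew_G5 hk1 hk2).1 (B5Ew_G5 hk1 hk2).2 (by norm_num) (by norm_num) (by norm_num)
    (by norm_num) (by norm_num) (by norm_num) (by norm_num) (by norm_num) (by norm_num) (by norm_num) (by norm_num) (ex_un 0 0.5051 (by norm_num) (by norm_num) (by norm_num) (by norm_num))
    (v5_hump 2.5164 14.285 3.7796 0.0000009316 0.00000151 hβ hr hκ hk1 hk2 (by norm_num) htb (by norm_num) (by norm_num) (by norm_num) (by norm_num) (by norm_num) (by norm_num) (by norm_num) (ex_un 13 0.9 (by norm_num) (by norm_num) (by norm_num) (by norm_num)) (by norm_num)) (by norm_num) (by norm_num)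

private theorem B5Ew_G7 {κ : ℝ} (hk1 : 0.6 ≤ κ) (hk2 : κ ≤ 0.7) : gG κ (-0.71) ≤ 1.30296 ∧ 2.34432 ≤ Real.exp (-(κ * (-0.71))) ^ 2 := by
  refine ⟨gG_le (-0.71) 0.6 0.7 1.30296 1.53113 1.64379 0.65312 0.60836 hk1 hk2 (by norm_num)
    (ex_up 0.426 (by norm_num) (by norm_num) (by norm_num) (by norm_num)) (ex_up 0.497 (by norm_num) (by norm_num) (by norm_num) (by norm_num))
    (ex_um 0.426 (by norm_num) (by norm_num) (by norm_num) (by norm_num)) (ex_um 0.497 (by norm_num) (by norm_num) (by norm_num) (by norm_num))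
    (by norm_num) (by norm_num), ?_⟩
  exact v5_M 1.53112 (ex_lp 0.426 (by linarith) (by norm_num) (by norm_num)) (by norm_num) (by norm_num)

private theorem B5Ew_C8 {β r t κ : ℝ} (hβ : 0 < β) (hr : 10 ≤ r) (hκ : κ = β * r) (hk1 : 0.6 ≤ κ) (hk2 : κ ≤ 0.7) (hta : (-1.9479) ≤ t + κ)
    (htb : t + κ ≤ (-1.7772)) : ‖F (cexp (I * β)) (r * cexp (I * ((t + β / 2 : ℝ) : ℂ)))‖ ≤
      1.3576 * Real.exp (r * (1.30296 - (-0.71) * (t + κ))) + 1.9461 * Real.exp (r * 0.0501) :=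
  v5_HU (-0.71) 0.6 0.7 (-1.9479) (-1.7772) 1.30296 1.3576 2.34432 0.1056 0.9879 2.064 0 0.0501 0.00000151 1.9461 hβ hr hκ (by norm_num) hk1 hk2 hta htb (by norm_num) (by norm_num) (B5Ew_G7 hk1 hk2).1 (B5Ew_G7 hk1 hk2).2 (by norm_num) (by norm_num) (by norm_num)
    (by norm_num) (by norm_num) (by norm_num) (by norm_num) (by norm_num) (by norm_num) (by norm_num)
    (by norm_num) (by norm_num) (by norm_num) (v5_hump 6.2863 14.285 3.7796 0.0000009316 0.00000151 hβ hr hκ hk1 hk2 (by norm_num) htb (by norm_num) (by norm_num) (by norm_num) (by norm_num) (by norm_num) (by norm_num) (by norm_num) (ex_un 13 0.9 (by norm_num) (by norm_num) (by norm_num) (by norm_num)) (by norm_num)) (by norm_num)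

private theorem B5Ew_C9 {β r t κ : ℝ} (hβ : 0 < β) (hr : 10 ≤ r) (hκ : κ = β * r) (hk1 : 0.6 ≤ κ) (hk2 : κ ≤ 0.7) (hta : 3.0786 ≤ t + κ)
    (htb : t + κ ≤ 3.2493) : ‖F (cexp (I * β)) (r * cexp (I * ((t + β / 2 : ℝ) : ℂ)))‖ ≤
      2.5193 * Real.exp (r * (0.01 + 1 / 20)) :=
  v5_UD 0.6 0.7 3.0786 3.2493 0.01 0.5151 0.01 1.3134 2.5193 hβ hr hκ (by norm_num) hk1 hk2 hta htb (by norm_num) (by norm_num) (by norm_num) (by norm_num) (by norm_num) (by norm_num) (by norm_num) (by norm_num) (by norm_num) (by norm_num) (by norm_num)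

private theorem B5Ew_Y10 {β r t κ h t' : ℝ} (hβ : 0 < β) (hκ : κ = β * r) (hN : β * 14.285 ≤ 1) (hk1 : 0.6 ≤ κ) (hk2 : κ ≤ 0.7)
    (ht : t' = t + (((1 : ℤ) : ℝ) - 1) * h) (hD : DomR κ t') (hta : 0.5654 ≤ t' + κ) (htb : t' + κ ≤ 0.666) :
    0.8301 * Real.exp (r * sE κ t') ≤ ‖Xf β r h t 1‖ := by
  obtain ⟨⟨ya, yb⟩, ⟨xa, xb⟩, n1, Da, Db⟩ := B5Ew_B1 hD hk1 hk2 hta htb
  have J := B5Ew_T3 (x := sx κ t') (y := sy κ t') hβ hN (by linarith only [xa, xb, ya, yb]) (by linarith only [xa, xb, ya, yb]) (by linarith only [xa, xb, ya, yb]) (by linarith only [xa, xb, ya, yb])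
  exact v5_Jlo hβ hκ (k := 1) ht hD 0.04 1.7888 0.8301 (by norm_num) J Db (by norm_num)

private theorem B5Ew_Y11 {β r t κ h t' : ℝ} (hβ : 0 < β) (hκ : κ = β * r) (hN : β * 14.285 ≤ 1) (hk1 : 0.6 ≤ κ) (hk2 : κ ≤ 0.7)
    (ht : t' = t + (((0 : ℤ) : ℝ) - 1) * h) (hD : DomR κ t') (hta : (-0.6913) ≤ t' + κ) (htb : t' + κ ≤ (-0.5906)) :
    0.7635 * Real.exp (r * sE κ t') ≤ ‖Xf β r h t 0‖ := by
  obtain ⟨⟨ya, yb⟩, ⟨xa, xb⟩, n1, Da, Db⟩ := B5Ew_B2 hD hk1 hk2 hta htb
  have J := B5Ew_T4 (x := sx κ t') (y := sy κ t') hβ hN (by linarith only [xa, xb, ya, yb]) (by linarith only [xa, xb, ya, yb]) (by linarith only [xa, xb, ya, yb]) (by linarith only [xa, xb, ya, yb])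
  exact v5_Jlo hβ hκ (k := 0) ht hD 0.185 1.2977 0.7635 (by norm_num) J Db (by norm_num)

private theorem B5Ew_V12 {κ t : ℝ} (hD : DomR κ t) (hk1 : 0.6 ≤ κ) (hk2 : κ ≤ 0.7) (hta : 0.5654 ≤ t + κ) (htb : t + κ ≤ 0.666) :
    1.11922 - 0.4055 * (t + κ) ≤ sE κ t := by
  have hκ0 : 0 < κ := hD.1
  exact v5_V1 hD 0.6 0.7 0.5654 0.666 0.05632 0.21532 0.26399 1.11922 0.4055 (by norm_num) hk1 hk2 (by norm_num) (by norm_num) hta htb (by norm_num) (clo5 0.6 0.7 0.26399 (by norm_num) hk1 hk2 (by norm_num) (by norm_num) (by norm_num))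
      ((cup1 0.7 hκ0.le hk2 (by norm_num)).trans (by norm_num)) (by norm_num) (by norm_num) (by norm_num) (by norm_num) (by norm_num) (by norm_num)

private theorem B5Ew_V13 {κ t : ℝ} (hD : DomR κ t) (hk1 : 0.6 ≤ κ) (hk2 : κ ≤ 0.7) (hta : (-0.6913) ≤ t + κ) (htb : t + κ ≤ (-0.5906)) :
    1.19213 + 0.6032 * (t + κ) ≤ sE κ t := by
  have hκ0 : 0 < κ := hD.1
  exact v5_V0 hD 0.6 0.7 (-0.6913) (-0.5906) 0.6914 0.6399 0.15833 0.09545 0.39755 0.51471 1.19213 0.6032 (by norm_num) hk1 hk2 (by norm_num) hta htb (by norm_num) (by norm_num) (by norm_num) ((cup1 0.7 hκ0.le hk2 (by norm_num)).trans (by norm_num))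
      (by norm_num) (by norm_num) (by norm_num) (by norm_num) (by norm_num) (by norm_num) (by norm_num) (by norm_num) (by norm_num) (by norm_num) (by norm_num) (by norm_num) (by norm_num)

private theorem B5Ew_S14 {β r t κ h t' : ℝ} (hβ : 0 < β) (hκ : κ = β * r) (hN : β * 14.285 ≤ 1) (hk1 : 0.6 ≤ κ) (hk2 : κ ≤ 0.7)
    (ht : t' = t + (((1 : ℤ) : ℝ) - 1) * h) (hD : DomR κ t') (hta : 0.5654 ≤ t' + κ) (htb : t' + κ ≤ 0.666) :
    Xf β r h t 1 ≠ 0 ∧ |(Ld β r h t 1).im - (sy κ t' / β + sx κ t' / sD κ t' * ((1 + sy κ t') / sD κ t' - 1 / 2))| ≤ 0.1247 ∧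
      ‖Ld β r h t 1 - sg κ t' / β‖ ≤ 0.3 ∧ -0.0001 ≤ sx κ t' / sD κ t' * ((1 + sy κ t') / sD κ t' - 1 / 2) ∧
      (0.198 ≤ sy κ t' ∧ sy κ t' ≤ 0.244) ∧ (0.4017 ≤ sx κ t' ∧ sx κ t' ≤ 0.5391) := by
  obtain ⟨⟨y1, y2⟩, ⟨x1, x2⟩, n1, Da, Db⟩ := B5Ew_B1 hD hk1 hk2 hta htb
  have hd := v5_disc (β := β) (κ := κ) (t := t') (ε := 0.04) 0.15 0.2516 0.6892 0.0479 0.3941 0.4017 0.5391 0.198 0.244
    (fun x y g1 g2 g3 g4 => B5Ew_T3 hβ hN g1 g2 g3 g4) x1 x2 y1 y2 (by norm_num) (by norm_num) (by norm_num) (by norm_num)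
  obtain ⟨nz, im, nL⟩ := v5_slope (h := h) (t := t) (k := 1) 0.15 0.04 0.5743 1.6382 0.2778 0.1247 hβ hκ ht hD (by norm_num) (by norm_num) (by linarith only [y1]) hd n1 (by norm_num) Da (by norm_num) (by norm_num) (by norm_num) (by norm_num)
  have ex := ex_lo hD 0.5743 1.6382 1.7888 0.198 0 0.0001 n1 (by norm_num) Da Db y1 (by norm_num) (by norm_num) (by norm_num) (by norm_num)
  exact ⟨nz, im, nL.trans (by norm_num), ex, ⟨y1, y2⟩, x1, x2⟩

private theorem B5Ew_S15 {β r t κ h t' : ℝ} (hβ : 0 < β) (hκ : κ = β * r) (hN : β * 14.285 ≤ 1) (hk1 : 0.6 ≤ κ) (hk2 : κ ≤ 0.7)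
    (ht : t' = t + (((0 : ℤ) : ℝ) - 1) * h) (hD : DomR κ t') (hta : (-0.6913) ≤ t' + κ) (htb : t' + κ ≤ (-0.5906)) :
    Xf β r h t 0 ≠ 0 ∧ |(Ld β r h t 0).im - (sy κ t' / β + sx κ t' / sD κ t' * ((1 + sy κ t') / sD κ t' - 1 / 2))| ≤ 2.043 ∧
      ‖Ld β r h t 0 - sg κ t' / β‖ ≤ 2.5855 ∧ sx κ t' / sD κ t' * ((1 + sy κ t') / sD κ t' - 1 / 2) ≤ 0.178 ∧
      ((-0.429) ≤ sy κ t' ∧ sy κ t' ≤ (-0.342)) ∧ (0.7275 ≤ sx κ t' ∧ sx κ t' ≤ 1.0192) := by
  obtain ⟨⟨y1, y2⟩, ⟨x1, x2⟩, n1, Da, Db⟩ := B5Ew_B2 hD hk1 hk2 hta htb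
  have hd := v5_disc (β := β) (κ := κ) (t := t') (ε := 0.185) 0.12 0.6074 1.1393 (-0.5491) (-0.2219) 0.7275 1.0192 (-0.429) (-0.342)
    (fun x y g1 g2 g3 g4 => B5Ew_T4 hβ hN g1 g2 g3 g4) x1 x2 y1 y2 (by norm_num) (by norm_num) (by norm_num) (by norm_num)
  obtain ⟨nz, im, nL⟩ := v5_slope (h := h) (t := t) (k := 0) 0.12 0.185 1.0751 0.991 1.8917 2.043 hβ hκ ht hD (by norm_num) (by norm_num) (by linarith only [y1]) hd n1 (by norm_num) Da (by norm_num) (by norm_num) (by norm_num) (by norm_num)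
  have ex := ex_hi hD 1.0751 0.991 (-0.342) 0.164 0.178 n1 (by norm_num) Da y2 (by norm_num) (by norm_num) (by norm_num) (by norm_num)
  exact ⟨nz, im, nL.trans (by norm_num), ex, ⟨y1, y2⟩, x1, x2⟩

private theorem B5Ew_L16 {β r κ t1 t0 : ℝ} {L0 L1 : ℂ} (hβ : 0 < β) (hr : 10 ≤ r) (hκ : κ = β * r) (hk1 : 0.6 ≤ κ)
    (nA0 : ‖L0 - sg κ t0 / β‖ ≤ 2.5855) (nA1 : ‖L1 - sg κ t1 / β‖ ≤ 0.3)
    (y0 : (-0.429) ≤ sy κ t0 ∧ sy κ t0 ≤ (-0.342)) (x0 : 0.7275 ≤ sx κ t0 ∧ sx κ t0 ≤ 1.0192)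
    (y1 : 0.198 ≤ sy κ t1 ∧ sy κ t1 ≤ 0.244) (x1 : 0.4017 ≤ sx κ t1 ∧ sx κ t1 ≤ 0.5391) :
    ‖(1 : ℂ) * L0 + (-2 : ℂ) * L1‖ ≤ r * 1.9553 := by
  obtain ⟨y0a, y0b⟩ := y0
  obtain ⟨x0a, x0b⟩ := x0
  obtain ⟨y1a, y1b⟩ := y1
  obtain ⟨x1a, x1b⟩ := x1
  have hN := v5_cN (κ := κ) (t1 := t1) (t0 := t0) 1 (-2) 0.3508 0.9171 0.982 (abs_le.2 ⟨by linarith only [x0a, x0b, x1a, x1b], by linarith only [x0a, x0b, x1a, x1b]⟩)
    (abs_le.2 ⟨by linarith only [y0a, y0b, y1a, y1b], by linarith only [y0a, y0b, y1a, y1b]⟩) (by norm_num) (by norm_num)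
  have h1 := v5_comb 1 (-2) 0.6 2.5855 0.3 0.982 1.9553 hβ hr hκ (by norm_num) hk1 nA0 nA1 hN (by norm_num [abs_of_neg, abs_of_pos])
  norm_num at h1 ⊢
  exact h1

private theorem B5Ew_L17 {β r κ t1 t0 : ℝ} {L0 L1 : ℂ} (hβ : 0 < β) (hr : 10 ≤ r) (hκ : κ = β * r) (hk1 : 0.6 ≤ κ)
    (nA0 : ‖L0 - sg κ t0 / β‖ ≤ 2.5855) (nA1 : ‖L1 - sg κ t1 / β‖ ≤ 0.3)
    (y0 : (-0.429) ≤ sy κ t0 ∧ sy κ t0 ≤ (-0.342)) (x0 : 0.7275 ≤ sx κ t0 ∧ sx κ t0 ≤ 1.0192)
    (y1 : 0.198 ≤ sy κ t1 ∧ sy κ t1 ≤ 0.244) (x1 : 0.4017 ≤ sx κ t1 ∧ sx κ t1 ≤ 0.5391) :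
    ‖(-2 : ℂ) * L0 + (1 : ℂ) * L1‖ ≤ r * 3.836 := by
  obtain ⟨y0a, y0b⟩ := y0
  obtain ⟨x0a, x0b⟩ := x0
  obtain ⟨y1a, y1b⟩ := y1
  obtain ⟨x1a, x1b⟩ := x1
  have hN := v5_cN (κ := κ) (t1 := t1) (t0 := t0) (-2) 1 1.6368 1.1021 1.9733 (abs_le.2 ⟨by linarith only [x0a, x0b, x1a, x1b], by linarith only [x0a, x0b, x1a, x1b]⟩)
    (abs_le.2 ⟨by linarith only [y0a, y0b, y1a, y1b], by linarith only [y0a, y0b, y1a, y1b]⟩) (by norm_num) (by norm_num)
  have h1 := v5_comb (-2) 1 0.6 2.5855 0.3 1.9733 3.836 hβ hr hκ (by norm_num) hk1 nA0 nA1 hN (by norm_num [abs_of_neg, abs_of_pos])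
  norm_num at h1 ⊢
  exact h1

private theorem B5Ew_L18 {β r κ t1 t0 : ℝ} {L0 L1 : ℂ} (hβ : 0 < β) (hr : 10 ≤ r) (hκ : κ = β * r) (hk1 : 0.6 ≤ κ)
    (nA0 : ‖L0 - sg κ t0 / β‖ ≤ 2.5855) (nA1 : ‖L1 - sg κ t1 / β‖ ≤ 0.3)
    (y0 : (-0.429) ≤ sy κ t0 ∧ sy κ t0 ≤ (-0.342)) (x0 : 0.7275 ≤ sx κ t0 ∧ sx κ t0 ≤ 1.0192)
    (y1 : 0.198 ≤ sy κ t1 ∧ sy κ t1 ≤ 0.244) (x1 : 0.4017 ≤ sx κ t1 ∧ sx κ t1 ≤ 0.5391) :
    ‖(-3 : ℂ) * L0 + (2 : ℂ) * L1‖ ≤ r * 5.6179 := by
  obtain ⟨y0a, y0b⟩ := y0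
  obtain ⟨x0a, x0b⟩ := x0
  obtain ⟨y1a, y1b⟩ := y1
  obtain ⟨x1a, x1b⟩ := x1
  have hN := v5_cN (κ := κ) (t1 := t1) (t0 := t0) (-3) 2 2.2543 1.7751 2.8693 (abs_le.2 ⟨by linarith only [x0a, x0b, x1a, x1b], by linarith only [x0a, x0b, x1a, x1b]⟩)
    (abs_le.2 ⟨by linarith only [y0a, y0b, y1a, y1b], by linarith only [y0a, y0b, y1a, y1b]⟩) (by norm_num) (by norm_num)
  have h1 := v5_comb (-3) 2 0.6 2.5855 0.3 2.8693 5.6179 hβ hr hκ (by norm_num) hk1 nA0 nA1 hN (by norm_num [abs_of_neg, abs_of_pos])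
  norm_num at h1 ⊢
  exact h1

private theorem B5Ew_K19 {β r t κ h : ℝ} (hβ : 0 < β) (hr : 10 ≤ r) (hκ : κ = β * r) (hk1 : 0.6 ≤ κ) (hk2 : κ ≤ 0.7)
    (hh : h = 2 * Real.pi / 5) (hh1 : 1.25663 ≤ h) (hh2 : h ≤ 1.25664) (hta : 0.5654 ≤ t + κ) (htb : t + κ ≤ 0.666)
    (hβ1 : β ≤ 0.07)
    (hY : 0.8301 * Real.exp (r * sE κ t) ≤ ‖Xf β r h t 1‖) (hV : 1.11922 - 0.4055 * (t + κ) ≤ sE κ t) :
    ‖Xf β r h t 2‖ ≤ 0.0101 * ‖Xf β r h t 1‖ ∧ ‖Xf β r h (t + β) 2‖ ≤ 0.00718 * ‖Xf β r h t 1‖ := by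
  constructor
  · rw [v5_X 2 1 (by push_cast; ring)]
    exact v5_cmp 0.5881 0.002828 0.00999 0.8491 0.0002057 0.000036 0.0101 hr (B5Ew_C6 (t := t + 1 * h) hβ hr hκ hk1 hk2 (by linarith only [hta, htb, hh1, hh2, hβ, hβ1]) (by linarith only [hta, htb, hh1, hh2, hβ, hβ1])) hY (by norm_num) (by norm_num) (by norm_num) (by norm_num) (by linarith only [hV, hta, htb, hh1, hh2]) (ex_un 5 0.8809 (by norm_num) (by norm_num) (by norm_num) (by norm_num)) (by norm_num) (by norm_num) (by linarith only [hV, hta, htb, hh1, hh2]) (ex_un 8 0.4909 (by norm_num) (by norm_num) (by norm_num) (by norm_num)) (by norm_num) (by norm_num)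
  · rw [v5_X 2 1 (by push_cast; ring)]
    have h1 := B5Ew_C6 (t := t + β + 1 * h) hβ hr hκ hk1 hk2 (by linarith only [hta, htb, hh1, hh2, hβ, hβ1]) (by linarith only [hta, htb, hh1, hh2, hβ, hβ1])
    rw [show t + β + 1 * h + κ = (t + 1 * h + κ) + β by ring] at h1
    exact v5_cmpS 0.71463 0.5881 0.002828 0.00714 0.8491 0.0002057 0.000036 0.00718 hr hκ h1 hY (by norm_num) (by norm_num) (by norm_num) (ex_um 0.336 (by linarith only [hk1, hk2]) (by norm_num) (by norm_num) (by norm_num)) (by norm_num) (by linarith only [hV, hta, htb, hh1, hh2]) (ex_un 5 0.8809 (by norm_num) (by norm_num) (by norm_num) (by norm_num)) (by norm_num) (by norm_num) (by linarith only [hV, hta, htb, hh1, hh2]) (ex_un 8 0.4909 (by norm_num) (by norm_num) (by norm_num) (by norm_num)) (by norm_num) (by norm_num)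

private theorem B5Ew_K20 {β r t κ h : ℝ} (hβ : 0 < β) (hr : 10 ≤ r) (hκ : κ = β * r) (hk1 : 0.6 ≤ κ) (hk2 : κ ≤ 0.7)
    (hh : h = 2 * Real.pi / 5) (hh1 : 1.25663 ≤ h) (hh2 : h ≤ 1.25664) (hta : 0.5654 ≤ t + κ) (htb : t + κ ≤ 0.666)
    (hβ1 : β ≤ 0.07)
    (hY : 0.7635 * Real.exp (r * sE κ (t - h)) ≤ ‖Xf β r h t 0‖) (hV : 1.19213 + 0.6032 * (t - h + κ) ≤ sE κ (t - h)) :
    ‖Xf β r h t (-1)‖ ≤ 0.00221 * ‖Xf β r h t 0‖ ∧ ‖Xf β r h (t + β) (-1)‖ ≤ 0.00246 * ‖Xf β r h t 0‖ := by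
  constructor
  · rw [v5_X (-1) (-2) (by push_cast; ring)]
    exact v5_cmp 0.8444 0.0002155 0.000384 0.725 0.0007104 0.00182 0.00221 hr (B5Ew_C8 (t := t + (-2) * h) hβ hr hκ hk1 hk2 (by linarith only [hta, htb, hh1, hh2, hβ, hβ1]) (by linarith only [hta, htb, hh1, hh2, hβ, hβ1])) hY (by norm_num) (by norm_num) (by norm_num) (by norm_num) (by linarith only [hV, hta, htb, hh1, hh2]) (ex_un 8 0.4439 (by norm_num) (by norm_num) (by norm_num) (by norm_num)) (by norm_num) (by norm_num) (by linarith only [hV, hta, htb, hh1, hh2]) (ex_un 7 0.2499 (by norm_num) (by norm_num) (by norm_num) (by norm_num)) (by norm_num) (by norm_num)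
  · rw [v5_X (-1) (-2) (by push_cast; ring)]
    have h1 := B5Ew_C8 (t := t + β + (-2) * h) hβ hr hκ hk1 hk2 (by linarith only [hta, htb, hh1, hh2, hβ, hβ1]) (by linarith only [hta, htb, hh1, hh2, hβ, hβ1])
    rw [show t + β + (-2) * h + κ = (t + (-2) * h + κ) + β by ring] at h1
    exact v5_cmpS 1.64379 0.8444 0.0002155 0.00063 0.725 0.0007104 0.00182 0.00246 hr hκ h1 hY (by norm_num) (by norm_num) (by norm_num) (ex_up 0.497 (by linarith only [hk1, hk2]) (by norm_num) (by norm_num) (by norm_num)) (by norm_num) (by linarith only [hV, hta, htb, hh1, hh2]) (ex_un 8 0.4439 (by norm_num) (by norm_num) (by norm_num) (by norm_num)) (by norm_num) (by norm_num) (by linarith only [hV, hta, htb, hh1, hh2]) (ex_un 7 0.2499 (by norm_num) (by norm_num) (by norm_num) (by norm_num)) (by norm_num) (by norm_num)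

private theorem B5Ew_K21 {β r t κ h : ℝ} (hβ : 0 < β) (hr : 10 ≤ r) (hκ : κ = β * r) (hk1 : 0.6 ≤ κ) (hk2 : κ ≤ 0.7)
    (hh : h = 2 * Real.pi / 5) (hh1 : 1.25663 ≤ h) (hh2 : h ≤ 1.25664) (hta : 0.5654 ≤ t + κ) (htb : t + κ ≤ 0.666)
    (hβ1 : β ≤ 0.07)
    (hY : 0.7635 * Real.exp (r * sE κ (t - h)) ≤ ‖Xf β r h t 0‖) (hV : 1.19213 + 0.6032 * (t - h + κ) ≤ sE κ (t - h)) :
    ‖Xf β r h t (-2)‖ ≤ 0.00259 * ‖Xf β r h t 0‖ ∧ ‖Xf β r h (t + β) (-2)‖ ≤ 0.00259 * ‖Xf β r h t 0‖ := by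
  constructor
  · rw [v5_Xm2 hh]
    exact v5_cmp0 0.7151 0.0007842 0.00259 hr (B5Ew_C9 (t := t + 2 * h) hβ hr hκ hk1 hk2 (by linarith only [hta, htb, hh1, hh2, hβ, hβ1]) (by linarith only [hta, htb, hh1, hh2, hβ, hβ1])) hY (by norm_num) (by norm_num) (by norm_num) (by linarith only [hV, hta, htb, hh1, hh2]) (ex_un 7 0.1509 (by norm_num) (by norm_num) (by norm_num) (by norm_num)) (by norm_num)
  · rw [v5_Xm2 hh]
    exact v5_cmp0 0.7151 0.0007842 0.00259 hr (B5Ew_C9 (t := t + β + 2 * h) hβ hr hκ hk1 hk2 (by linarith only [hta, htb, hh1, hh2, hβ, hβ1]) (by linarith only [hta, htb, hh1, hh2, hβ, hβ1])) hY (by norm_num) (by norm_num) (by norm_num) (by linarith only [hV, hta, htb, hh1, hh2]) (ex_un 7 0.1509 (by norm_num) (by norm_num) (by norm_num) (by norm_num)) (by norm_num)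

theorem B5Ew_W22 {β r t κ h : ℝ} (hβ : 0 < β) (hr : 10 ≤ r) (hκ : κ = β * r) (hk1 : 0.6 ≤ κ) (hk2 : κ ≤ 0.7)
    (hh : h = 2 * Real.pi / 5) (hta : 0.5654 ≤ t + κ) (htb : t + κ ≤ 0.666) :
    Xf β r h t 0 ≠ 0 ∧
    (‖Xf β r h t 2‖ ≤ 0.0102 * ‖Xf β r h t 1‖ ∧ ‖Xf β r h t (-1)‖ ≤ 0.00221 * ‖Xf β r h t 0‖ ∧
      ‖Xf β r h t (-2)‖ ≤ 0.0026 * ‖Xf β r h t 0‖) ∧
    (r * ‖Xf β r h (t + β) 2‖ + ‖Xf β r h t 2‖ * ‖(1 : ℂ) * Ld β r h t 0 + (-2 : ℂ) * Ld β r h t 1‖ ≤
        r * 0.027 * ‖Xf β r h t 1‖ ∧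
      r * ‖Xf β r h (t + β) (-1)‖ + ‖Xf β r h t (-1)‖ * ‖(-2 : ℂ) * Ld β r h t 0 + (1 : ℂ) * Ld β r h t 1‖ ≤
        r * 0.011 * ‖Xf β r h t 0‖ ∧
      r * ‖Xf β r h (t + β) (-2)‖ + ‖Xf β r h t (-2)‖ * ‖(-3 : ℂ) * Ld β r h t 0 + (2 : ℂ) * Ld β r h t 1‖ ≤
        r * 0.0173 * ‖Xf β r h t 0‖) ∧
    r * 0.5368 ≤ (Ld β r h t 1 - Ld β r h t 0).im := by
  obtain ⟨hh1, hh2⟩ := v5_h hh
  have hκ0 : 0 < κ := by linarith only [hk1]
  have hN : β * 14.285 ≤ 1 := v5_hN 0.7 14.285 hβ hr hκ hk2 (by norm_num) (by norm_num)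
  have hD1 : DomR κ t := v5_dom hκ0 (by linarith only [hta, htb, hk1, hk2, hh1, hh2]) (Or.inr (by linarith only [hta, htb, hk1, hk2, hh1, hh2]))
  have hD0 : DomR κ (t - h) := v5_dom hκ0 (by linarith only [hta, htb, hk1, hk2, hh1, hh2]) (Or.inr (by linarith only [hta, htb, hk1, hk2, hh1, hh2]))
  have hβ1 : β ≤ 0.07 := by
    have := mul_le_mul_of_nonneg_left hr hβ.le
    linarith only [this, hκ, hk2]
  have h0a : (-0.6913) ≤ t - h + κ := by linarith only [hta, htb, hh1, hh2]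
  have h0b : t - h + κ ≤ (-0.5906) := by linarith only [hta, htb, hh1, hh2]
  have e1 : t = t + (((1 : ℤ) : ℝ) - 1) * h := by push_cast; ring
  have e0 : t - h = t + (((0 : ℤ) : ℝ) - 1) * h := by push_cast; ring
  have hY1 := B5Ew_Y10 (h := h) hβ hκ hN hk1 hk2 e1 hD1 hta htb
  have hY0 := B5Ew_Y11 (h := h) hβ hκ hN hk1 hk2 e0 hD0 h0a h0b
  have hV1 := B5Ew_V12 hD1 hk1 hk2 hta htb
  have hV0 := B5Ew_V13 hD0 hk1 hk2 h0a h0b
  obtain ⟨nz1, im1, nA1, ex1, y1, x1⟩ := B5Ew_S14 (h := h) hβ hκ hN hk1 hk2 e1 hD1 hta htb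
  obtain ⟨nz0, im0, nA0, ex0, y0, x0⟩ := B5Ew_S15 (h := h) hβ hκ hN hk1 hk2 e0 hD0 h0a h0b
  obtain ⟨cp2, dp2⟩ := B5Ew_K19 hβ hr hκ hk1 hk2 hh hh1 hh2 hta htb hβ1 hY1 hV1
  obtain ⟨cm1, dm1⟩ := B5Ew_K20 hβ hr hκ hk1 hk2 hh hh1 hh2 hta htb hβ1 hY0 hV0
  obtain ⟨cm2, dm2⟩ := B5Ew_K21 hβ hr hκ hk1 hk2 hh hh1 hh2 hta htb hβ1 hY0 hV0
  have Lp2 := B5Ew_L16 hβ hr hκ hk1 nA0 nA1 y0 x0 y1 x1
  have Lm1 := B5Ew_L17 hβ hr hκ hk1 nA0 nA1 y0 x0 y1 x1
  have Lm2 := B5Ew_L18 hβ hr hκ hk1 nA0 nA1 y0 x0 y1 x1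
  have hm : r * 0.5368 ≤ (Ld β r h t 1 - Ld β r h t 0).im :=
    v5_m 0.7 0.198 0.342 0.0001 0.178 0.1247 2.043 _ _ 0.5368 hβ hr hκ hk2 im1 im0 y1.1 (by linarith only [y0.2]) (by norm_num) ex1 ex0 (by norm_num) (by norm_num)
  have hr0 : 0 < r := by linarith only [hr]
  refine ⟨nz0, ⟨v5_emax _ cp2 (norm_nonneg _) (by norm_num), v5_emax _ cm1 (norm_nonneg _) (by norm_num), v5_emax _ cm2 (norm_nonneg _) (by norm_num)⟩, ⟨?_, ?_, ?_⟩, hm⟩
  · exact v5_W hr0 dp2 cp2 Lp2 (norm_nonneg _) (norm_nonneg _) (norm_nonneg _) (by norm_num)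
  · exact v5_W hr0 dm1 cm1 Lm1 (norm_nonneg _) (norm_nonneg _) (norm_nonneg _) (by norm_num)
  · exact v5_W hr0 dm2 cm2 Lm2 (norm_nonneg _) (norm_nonneg _) (norm_nonneg _) (by norm_num)

private theorem B5Ew_B23 {κ t : ℝ} (h : DomR κ t) (hk1 : 0.6 ≤ κ) (hk2 : κ ≤ 0.7) (ht1 : 0.666 ≤ t + κ) (ht2 : t + κ ≤ 0.7666) :
    (0.224 ≤ sy κ t ∧ sy κ t ≤ 0.271) ∧ (0.3686 ≤ sx κ t ∧ sx κ t ≤ 0.5128) ∧ κ * Real.exp (-sy κ t) ≤ 0.5596 ∧ 1.678 ≤ sD κ t ∧ sD κ t ≤ 1.827 := by
  have hy1 : 0.224 ≤ sy κ t := syR_ge h 0.6 0.7 0.666 0.224 1.25107 1.25108 0.40034 0.46707 hk1 hk2 (by linarith) (by norm_num) (by norm_num)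
    (expn_ge (by norm_num) (by norm_num)) (expn_le (by norm_num) (by norm_num) (by norm_num)) (by norm_num)
    (by norm_num) (by norm_num) (by norm_num) (by norm_num) (by norm_num) (by norm_num)
  have hy2 : sy κ t ≤ 0.271 := syR_le h 0.6 0.7 0.7666 0.271 1.31127 0.4864 0.50764 0.59227 hk1 hk2 (by linarith) (by norm_num) (by norm_num)
    (expn_ge (by norm_num) (by norm_num)) (by norm_num) (by norm_num) (Or.inr ((mul_le_mul_of_nonneg_left (expn_le (E := 1.31128) (by norm_num) (by norm_num) (by norm_num)) (by norm_num)).trans (by norm_num))) (by norm_num) (by norm_num) (by norm_num)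
  have hy1' : 0.224 ≤ sy κ t := by linarith
  have hy2' : sy κ t ≤ 0.271 := by linarith
  have hx1 : 0.3686 ≤ sx κ t := sx_lo h 0.6 0.271 0.2711 0.76261 0.3686 hk1 (by norm_num) hy2' (abs_le.2 ⟨by linarith, by linarith⟩) (ex_lm 0.271 (by norm_num) (by norm_num) (by norm_num) (by norm_num) (by norm_num)) (by norm_num) (by norm_num)
  have hx2 : sx κ t ≤ 0.5128 := sx_hi h 0.7 0.224 0.224 0.79932 0.5128 hk2 hy1' (by norm_num) (le_trans (by linarith) (le_abs_self _)) (ex_um 0.224 (by norm_num) (by norm_num) (by norm_num) (by norm_num)) (by norm_num) (by norm_num)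
  refine ⟨⟨hy1', hy2'⟩, ⟨hx1, hx2⟩, v5_n h 0.7 0.224 0.79932 0.5596 hk2 hy1' (ex_um 0.224 (by norm_num) (by norm_num) (by norm_num) (by norm_num)) (by norm_num), ?_, ?_⟩
  · exact v5_Dlo h 0.6 0.224 0.271 0.224 0.79931 1.678 (by norm_num) hk1 hy1' hy2' (ex_lm 0.224 (by norm_num) (by norm_num) (by norm_num) (by norm_num) (by norm_num)) (by norm_num) (by norm_num) (by norm_num) (by norm_num)
  · exact v5_Dup h 0.7 0.224 0.271 0.79932 0.76262 1.827 hk2 hy1' hy2' (ex_um 0.224 (by norm_num) (by norm_num) (by norm_num) (by norm_num)) (ex_um 0.271 (by norm_num) (by norm_num) (by norm_num) (by norm_num)) (by norm_num) (by norm_num) (by norm_num)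

private theorem B5Ew_B24 {κ t : ℝ} (h : DomR κ t) (hk1 : 0.6 ≤ κ) (hk2 : κ ≤ 0.7) (ht1 : (-0.5907) ≤ t + κ) (ht2 : t + κ ≤ (-0.49)) :
    ((-0.352) ≤ sy κ t ∧ sy κ t ≤ (-0.27)) ∧ (0.7026 ≤ sx κ t ∧ sx κ t ≤ 0.9581) ∧ κ * Real.exp (-sy κ t) ≤ 0.9954 ∧ 1.0238 ≤ sD κ t ∧ sD κ t ≤ 1.3009 := by
  have hy1 : -0.352 ≤ sy κ t := syL_ge h 0.6 0.7 0.5907 0.352 0.70328 0.70329 0.3487 0.35364 0.4126 hk1 hk2 (by linarith) (by norm_num) (by norm_num) (by norm_num)
    (expm_ge (by norm_num) (by norm_num) (by norm_num) (by norm_num)) (expm_le (by norm_num) (by norm_num) (by norm_num)) (by norm_num)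
    (by norm_num) (by norm_num) (by norm_num) (by norm_num) (by norm_num) (by norm_num)
  have hy2 : sy κ t ≤ -0.27 := syL_le h 0.6 0.7 0.49 0.27 0.76337 0.76338 0.29444 0.34353 hk1 hk2 (by linarith) (by norm_num) (by norm_num) (by norm_num)
    (expm_ge (by norm_num) (by norm_num) (by norm_num) (by norm_num)) (expm_le (by norm_num) (by norm_num) (by norm_num)) (by norm_num)
    (by norm_num) (by norm_num) (by norm_num) (by norm_num) (by norm_num) (by norm_num)
  have hy1' : (-0.352) ≤ sy κ t := by linarith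
  have hy2' : sy κ t ≤ (-0.27) := by linarith
  have hx1 : 0.7026 ≤ sx κ t := sx_lo h 0.6 (-0.27) 0.3521 1.30996 0.7026 hk1 (by norm_num) hy2' (abs_le.2 ⟨by linarith, by linarith⟩) (ex_lp 0.27 (by norm_num) (by norm_num) (by norm_num)) (by norm_num) (by norm_num)
  have hx2 : sx κ t ≤ 0.9581 := sx_hi h 0.7 (-0.352) 0.27 1.42191 0.9581 hk2 hy1' (by norm_num) (le_trans (by linarith) (neg_le_abs _)) (ex_up 0.352 (by norm_num) (by norm_num) (by norm_num) (by norm_num)) (by norm_num) (by norm_num)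
  refine ⟨⟨hy1', hy2'⟩, ⟨hx1, hx2⟩, v5_n h 0.7 (-0.352) 1.42191 0.9954 hk2 hy1' (ex_up 0.352 (by norm_num) (by norm_num) (by norm_num) (by norm_num)) (by norm_num), ?_, ?_⟩
  · exact v5_Dlo h 0.6 (-0.352) (-0.27) (-0.352) 1.4219 1.0238 (by norm_num) hk1 hy1' hy2' (ex_lp 0.352 (by norm_num) (by norm_num) (by norm_num)) (by norm_num) (by norm_num) (by norm_num) (by norm_num)
  · exact v5_Dup h 0.7 (-0.352) (-0.27) 1.42191 1.30997 1.3009 hk2 hy1' hy2' (ex_up 0.352 (by norm_num) (by norm_num) (by norm_num) (by norm_num)) (ex_up 0.27 (by norm_num) (by norm_num) (by norm_num) (by norm_num)) (by norm_num) (by norm_num) (by norm_num)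

private theorem B5Ew_T25_0_0 {β x y : ℝ} (hβ : 0 < β) (hN : β * 14.285 ≤ 1) (hx1 : 0.2485 ≤ x) (hx2 : x ≤ 0.426)
    (hy1 : -0 ≤ y) (hy2 : y ≤ 0.334) : ‖HH β (x + y * I) - 1‖ ≤ 0.04 := by
  refine le_epsJ (C := 0.5707) (N0 := 14.285) (J_boxp 0.2485 0.426 0 0.334 0.334 0.885 0.5414 1.4004 1.4214 0.4722 3.7796 14.285 0.6118 2.222 1.314 1.2562 0.4424 0.3522 1.0933 3.8266 0.4416 0.81 0.6351 2.1635 0.001802 0.006533 0.0000003101 0.0000003101 0.001822 0.000009449 0.0001149 0.0000003101 0.5707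
    hβ hN hx1 hx2 hy1 hy2 (by norm_num) (by norm_num) (by linarith) (by norm_num) (by norm_num) (by norm_num) (by norm_num) (by norm_num) (by norm_num) (by norm_num) (by norm_num) (by norm_num) (by norm_num) (by norm_num) (by norm_num) (by norm_num) (by norm_num) (by norm_num) (by norm_num) (by norm_num) (by norm_num) (by norm_num) (by norm_num) (by norm_num)
    (cube_sqrt_geJ (s := 0.8922) (by norm_num) (by norm_num) (by norm_num) (by norm_num))
    (cube_sqrt_geJ (s := 0.9618) (by norm_num) (by norm_num) (by norm_num) (by norm_num))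
    (by norm_num) (by norm_num) (by norm_num) (by norm_num) (by norm_num) (by norm_num) (by norm_num) (by norm_num) (by norm_num) (by norm_num) (by norm_num) (by norm_num) (by norm_num) (by norm_num) (by norm_num) (by norm_num) (by norm_num) (by norm_num)
    (exp_neg_leJ (r := 0.319) 6 (by norm_num) (by norm_num) (by norm_num) (by norm_num))
    (exp_neg_leJ (r := 0.031) 5 (by norm_num) (by norm_num) (by norm_num) (by norm_num))
    (exp_neg_leJ (r := 0.99) 14 (by norm_num) (by norm_num) (by norm_num) (by norm_num))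
    (exp_neg_leJ (r := 0.99) 14 (by norm_num) (by norm_num) (by norm_num) (by norm_num))
    (exp_neg_leJ (r := 0.308) 6 (by norm_num) (by norm_num) (by norm_num) (by norm_num))
    (exp_neg_leJ (r := 0.57) 11 (by norm_num) (by norm_num) (by norm_num) (by norm_num))
    (exp_neg_leJ (r := 0.072) 9 (by norm_num) (by norm_num) (by norm_num) (by norm_num))
    (exp_neg_leJ (r := 0.99) 14 (by norm_num) (by norm_num) (by norm_num) (by norm_num))
    (by norm_num)) (by norm_num) hN hβ.le (by norm_num)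

private theorem B5Ew_T25_0_1 {β x y : ℝ} (hβ : 0 < β) (hN : β * 14.285 ≤ 1) (hx1 : 0.426 ≤ x) (hx2 : x ≤ 0.6329)
    (hy1 : -0 ≤ y) (hy2 : y ≤ 0.334) : ‖HH β (x + y * I) - 1‖ ≤ 0.04 := by
  refine le_epsJ (C := 0.5648) (N0 := 14.285) (J_boxp 0.426 0.6329 0 0.334 0.334 1.01 0.7157 1.4766 1.1972 0.4848 3.7796 14.285 0.7087 2.569 1.375 1.1766 0.5049 0.3857 1.1541 3.7158 0.5278 1.0557 0.9901 2.0447 0.0007377 0.004051 0.0000003101 0.0000003101 0.0005321 0.0000003101 0.0000007208 0.0000003101 0.5648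
    hβ hN hx1 hx2 hy1 hy2 (by norm_num) (by norm_num) (by linarith) (by norm_num) (by norm_num) (by norm_num) (by norm_num) (by norm_num) (by norm_num) (by norm_num) (by norm_num) (by norm_num) (by norm_num) (by norm_num) (by norm_num) (by norm_num) (by norm_num) (by norm_num) (by norm_num) (by norm_num) (by norm_num) (by norm_num) (by norm_num) (by norm_num)
    (cube_sqrt_geJ (s := 0.8739) (by norm_num) (by norm_num) (by norm_num) (by norm_num))
    (cube_sqrt_geJ (s := 0.9556) (by norm_num) (by norm_num) (by norm_num) (by norm_num))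
    (by norm_num) (by norm_num) (by norm_num) (by norm_num) (by norm_num) (by norm_num) (by norm_num) (by norm_num) (by norm_num) (by norm_num) (by norm_num) (by norm_num) (by norm_num) (by norm_num) (by norm_num) (by norm_num) (by norm_num) (by norm_num)
    (exp_neg_leJ (r := 0.212) 7 (by norm_num) (by norm_num) (by norm_num) (by norm_num))
    (exp_neg_leJ (r := 0.509) 5 (by norm_num) (by norm_num) (by norm_num) (by norm_num))
    (exp_neg_leJ (r := 0.99) 14 (by norm_num) (by norm_num) (by norm_num) (by norm_num))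
    (exp_neg_leJ (r := 0.99) 14 (by norm_num) (by norm_num) (by norm_num) (by norm_num))
    (exp_neg_leJ (r := 0.539) 7 (by norm_num) (by norm_num) (by norm_num) (by norm_num))
    (exp_neg_leJ (r := 0.99) 14 (by norm_num) (by norm_num) (by norm_num) (by norm_num))
    (exp_neg_leJ (r := 0.143) 14 (by norm_num) (by norm_num) (by norm_num) (by norm_num))
    (exp_neg_leJ (r := 0.99) 14 (by norm_num) (by norm_num) (by norm_num) (by norm_num))
    (by norm_num)) (by norm_num) hN hβ.le (by norm_num)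

private theorem B5Ew_T25_1_0 {β x y : ℝ} (hβ : 0 < β) (hN : β * 14.285 ≤ 1) (hx1 : 0.2485 ≤ x) (hx2 : x ≤ 0.358)
    (hy1 : -0 ≤ y) (hy2 : y ≤ 0.3911) : ‖HH β (x + y * I) - 1‖ ≤ 0.04 := by
  refine le_epsJ (C := 0.571) (N0 := 14.285) (J_boxp 0.2485 0.358 0 0.3911 0.3911 0.885 0.5303 1.4365 1.4396 0.4782 3.7796 14.285 0.5993 2.182 1.306 1.2824 0.4424 0.3541 1.0933 3.8505 0.4358 0.8041 0.3902 1.9246 0.001802 0.006359 0.0000003101 0.0000003101 0.00198 0.00001028 0.003797 0.0000003101 0.571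
    hβ hN hx1 hx2 hy1 hy2 (by norm_num) (by norm_num) (by linarith) (by norm_num) (by norm_num) (by norm_num) (by norm_num) (by norm_num) (by norm_num) (by norm_num) (by norm_num) (by norm_num) (by norm_num) (by norm_num) (by norm_num) (by norm_num) (by norm_num) (by norm_num) (by norm_num) (by norm_num) (by norm_num) (by norm_num) (by norm_num) (by norm_num)
    (cube_sqrt_geJ (s := 0.8945) (by norm_num) (by norm_num) (by norm_num) (by norm_num))
    (cube_sqrt_geJ (s := 0.9626) (by norm_num) (by norm_num) (by norm_num) (by norm_num))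
    (by norm_num) (by norm_num) (by norm_num) (by norm_num) (by norm_num) (by norm_num) (by norm_num) (by norm_num) (by norm_num) (by norm_num) (by norm_num) (by norm_num) (by norm_num) (by norm_num) (by norm_num) (by norm_num) (by norm_num) (by norm_num)
    (exp_neg_leJ (r := 0.319) 6 (by norm_num) (by norm_num) (by norm_num) (by norm_num))
    (exp_neg_leJ (r := 0.058) 5 (by norm_num) (by norm_num) (by norm_num) (by norm_num))
    (exp_neg_leJ (r := 0.99) 14 (by norm_num) (by norm_num) (by norm_num) (by norm_num))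
    (exp_neg_leJ (r := 0.99) 14 (by norm_num) (by norm_num) (by norm_num) (by norm_num))
    (exp_neg_leJ (r := 0.225) 6 (by norm_num) (by norm_num) (by norm_num) (by norm_num))
    (exp_neg_leJ (r := 0.486) 11 (by norm_num) (by norm_num) (by norm_num) (by norm_num))
    (exp_neg_leJ (r := 0.574) 5 (by norm_num) (by norm_num) (by norm_num) (by norm_num))
    (exp_neg_leJ (r := 0.99) 14 (by norm_num) (by norm_num) (by norm_num) (by norm_num))
    (by norm_num)) (by norm_num) hN hβ.le (by norm_num)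

private theorem B5Ew_T25_1_1 {β x y : ℝ} (hβ : 0 < β) (hN : β * 14.285 ≤ 1) (hx1 : 0.358 ≤ x) (hx2 : x ≤ 0.516)
    (hy1 : -0 ≤ y) (hy2 : y ≤ 0.3911) : ‖HH β (x + y * I) - 1‖ ≤ 0.04 := by
  refine le_epsJ (C := 0.5708) (N0 := 14.285) (J_boxp 0.358 0.516 0 0.3911 0.3911 0.9621 0.6475 1.4838 1.2908 0.486 3.7796 14.285 0.6731 2.434 1.352 1.2216 0.481 0.3731 1.1308 3.7702 0.489 0.9558 0.6092 1.825 0.00104 0.00485 0.0000003101 0.0000003101 0.0009289 0.000001178 0.0001664 0.0000003101 0.5708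
    hβ hN hx1 hx2 hy1 hy2 (by norm_num) (by norm_num) (by linarith) (by norm_num) (by norm_num) (by norm_num) (by norm_num) (by norm_num) (by norm_num) (by norm_num) (by norm_num) (by norm_num) (by norm_num) (by norm_num) (by norm_num) (by norm_num) (by norm_num) (by norm_num) (by norm_num) (by norm_num) (by norm_num) (by norm_num) (by norm_num) (by norm_num)
    (cube_sqrt_geJ (s := 0.8807) (by norm_num) (by norm_num) (by norm_num) (by norm_num))
    (cube_sqrt_geJ (s := 0.9579) (by norm_num) (by norm_num) (by norm_num) (by norm_num))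
    (by norm_num) (by norm_num) (by norm_num) (by norm_num) (by norm_num) (by norm_num) (by norm_num) (by norm_num) (by norm_num) (by norm_num) (by norm_num) (by norm_num) (by norm_num) (by norm_num) (by norm_num) (by norm_num) (by norm_num) (by norm_num)
    (exp_neg_leJ (r := 0.871) 6 (by norm_num) (by norm_num) (by norm_num) (by norm_num))
    (exp_neg_leJ (r := 0.329) 5 (by norm_num) (by norm_num) (by norm_num) (by norm_num))
    (exp_neg_leJ (r := 0.99) 14 (by norm_num) (by norm_num) (by norm_num) (by norm_num))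
    (exp_neg_leJ (r := 0.99) 14 (by norm_num) (by norm_num) (by norm_num) (by norm_num))
    (exp_neg_leJ (r := 0.985) 6 (by norm_num) (by norm_num) (by norm_num) (by norm_num))
    (exp_neg_leJ (r := 0.653) 13 (by norm_num) (by norm_num) (by norm_num) (by norm_num))
    (exp_neg_leJ (r := 0.702) 8 (by norm_num) (by norm_num) (by norm_num) (by norm_num))
    (exp_neg_leJ (r := 0.99) 14 (by norm_num) (by norm_num) (by norm_num) (by norm_num))
    (by norm_num)) (by norm_num) hN hβ.le (by norm_num)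

private theorem B5Ew_T25_1_2 {β x y : ℝ} (hβ : 0 < β) (hN : β * 14.285 ≤ 1) (hx1 : 0.516 ≤ x) (hx2 : x ≤ 0.6329)
    (hy1 : -0 ≤ y) (hy2 : y ≤ 0.3911) : ‖HH β (x + y * I) - 1‖ ≤ 0.04 := by
  refine le_epsJ (C := 0.4819) (N0 := 14.285) (J_boxp 0.516 0.6329 0 0.3911 0.3911 1.0733 0.744 1.5284 1.1119 0.4933 3.7796 14.285 0.6932 2.509 1.365 1.1766 0.5366 0.4126 1.1849 3.7081 0.5657 1.1745 0.9252 1.8787 0.0004693 0.002765 0.0000003101 0.0000003101 0.0003094 0.0000003101 0.000001822 0.0000003101 0.4819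
    hβ hN hx1 hx2 hy1 hy2 (by norm_num) (by norm_num) (by linarith) (by norm_num) (by norm_num) (by norm_num) (by norm_num) (by norm_num) (by norm_num) (by norm_num) (by norm_num) (by norm_num) (by norm_num) (by norm_num) (by norm_num) (by norm_num) (by norm_num) (by norm_num) (by norm_num) (by norm_num) (by norm_num) (by norm_num) (by norm_num) (by norm_num)
    (cube_sqrt_geJ (s := 0.8768) (by norm_num) (by norm_num) (by norm_num) (by norm_num))
    (cube_sqrt_geJ (s := 0.9566) (by norm_num) (by norm_num) (by norm_num) (by norm_num))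
    (by norm_num) (by norm_num) (by norm_num) (by norm_num) (by norm_num) (by norm_num) (by norm_num) (by norm_num) (by norm_num) (by norm_num) (by norm_num) (by norm_num) (by norm_num) (by norm_num) (by norm_num) (by norm_num) (by norm_num) (by norm_num)
    (exp_neg_leJ (r := 0.665) 7 (by norm_num) (by norm_num) (by norm_num) (by norm_num))
    (exp_neg_leJ (r := 0.893) 5 (by norm_num) (by norm_num) (by norm_num) (by norm_num))
    (exp_neg_leJ (r := 0.99) 14 (by norm_num) (by norm_num) (by norm_num) (by norm_num))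
    (exp_neg_leJ (r := 0.99) 14 (by norm_num) (by norm_num) (by norm_num) (by norm_num))
    (exp_neg_leJ (r := 0.081) 8 (by norm_num) (by norm_num) (by norm_num) (by norm_num))
    (exp_neg_leJ (r := 0.99) 14 (by norm_num) (by norm_num) (by norm_num) (by norm_num))
    (exp_neg_leJ (r := 0.216) 13 (by norm_num) (by norm_num) (by norm_num) (by norm_num))
    (exp_neg_leJ (r := 0.99) 14 (by norm_num) (by norm_num) (by norm_num) (by norm_num))
    (by norm_num)) (by norm_num) hN hβ.le (by norm_num)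

private theorem B5Ew_T25 {β x y : ℝ} (hβ : 0 < β) (hN : β * 14.285 ≤ 1) (hx1 : 0.2485 ≤ x) (hx2 : x ≤ 0.6329)
    (hy1 : 0.1039 ≤ y) (hy2 : y ≤ 0.3911) : ‖HH β (x + y * I) - 1‖ ≤ 0.04 := by
  rcases le_total y 0.334 with hyy | hyy
  · rcases le_total x 0.426 with hxx | hxx
    · exact B5Ew_T25_0_0 hβ hN (by linarith) (by linarith) (by linarith) (by linarith)
    exact B5Ew_T25_0_1 hβ hN (by linarith) (by linarith) (by linarith) (by linarith)
  rcases le_total x 0.358 with hxx | hxx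
  · exact B5Ew_T25_1_0 hβ hN (by linarith) (by linarith) (by linarith) (by linarith)
  rcases le_total x 0.516 with hxx | hxx
  · exact B5Ew_T25_1_1 hβ hN (by linarith) (by linarith) (by linarith) (by linarith)
  exact B5Ew_T25_1_2 hβ hN (by linarith) (by linarith) (by linarith) (by linarith)

private theorem B5Ew_T26_0_0 {β x y : ℝ} (hβ : 0 < β) (hN : β * 14.285 ≤ 1) (hx1 : 0.5825 ≤ x) (hx2 : x ≤ 0.605)
    (hy1 : -0.4721 ≤ y) (hy2 : y ≤ -0.182) : ‖HH β (x + y * I) - 1‖ ≤ 0.12 := by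
  refine le_epsJ (C := 1.7129) (N0 := 14.285) (J_boxp 0.5825 0.605 0.4721 0 (-0.182) 0.785 0.7675 1.0175 1.4504 0.4025 3.7796 14.285 0.9778 3.977 1.563 0.7516 0.3924 0.2645 0.4624 2.2287 0.38 1.3065 1.4523 3.7908 0.003681 0.0229 0.001355 0.0000003101 0.004393 0.0000003101 0.0000003101 0.0000003101 1.7129
    hβ hN hx1 hx2 hy1 hy2 (by norm_num) (by norm_num) (by linarith) (by norm_num) (by norm_num) (by norm_num) (by norm_num) (by norm_num) (by norm_num) (by norm_num) (by norm_num) (by norm_num) (by norm_num) (by norm_num) (by norm_num) (by norm_num) (by norm_num) (by norm_num) (by norm_num) (by norm_num) (by norm_num) (by norm_num) (by norm_num) (by norm_num)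
    (cube_sqrt_geJ (s := 0.821) (by norm_num) (by norm_num) (by norm_num) (by norm_num))
    (cube_sqrt_geJ (s := 0.9382) (by norm_num) (by norm_num) (by norm_num) (by norm_num))
    (by norm_num) (by norm_num) (by norm_num) (by norm_num) (by norm_num) (by norm_num) (by norm_num) (by norm_num) (by norm_num) (by norm_num) (by norm_num) (by norm_num) (by norm_num) (by norm_num) (by norm_num) (by norm_num) (by norm_num) (by norm_num)
    (exp_neg_leJ (r := 0.605) 5 (by norm_num) (by norm_num) (by norm_num) (by norm_num))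
    (exp_neg_leJ (r := 0.778) 3 (by norm_num) (by norm_num) (by norm_num) (by norm_num))
    (exp_neg_leJ (r := 0.605) 6 (by norm_num) (by norm_num) (by norm_num) (by norm_num))
    (exp_neg_leJ (r := 0.99) 14 (by norm_num) (by norm_num) (by norm_num) (by norm_num))
    (exp_neg_leJ (r := 0.428) 5 (by norm_num) (by norm_num) (by norm_num) (by norm_num))
    (exp_neg_leJ (r := 0.99) 14 (by norm_num) (by norm_num) (by norm_num) (by norm_num))
    (exp_neg_leJ (r := 0.99) 14 (by norm_num) (by norm_num) (by norm_num) (by norm_num))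
    (exp_neg_leJ (r := 0.99) 14 (by norm_num) (by norm_num) (by norm_num) (by norm_num))
    (by norm_num)) (by norm_num) hN hβ.le (by norm_num)

private theorem B5Ew_T26_0_1 {β x y : ℝ} (hβ : 0 < β) (hN : β * 14.285 ≤ 1) (hx1 : 0.605 ≤ x) (hx2 : x ≤ 0.638)
    (hy1 : -0.4721 ≤ y) (hy2 : y ≤ -0.182) : ‖HH β (x + y * I) - 1‖ ≤ 0.12 := by
  refine le_epsJ (C := 1.7114) (N0 := 14.285) (J_boxp 0.605 0.638 0.4721 0 (-0.182) 0.8008 0.7937 1.0374 1.4214 0.4064 3.7796 14.285 0.9912 4.071 1.573 0.7389 0.4003 0.2681 0.4701 2.2114 0.3909 1.3376 1.4973 3.7645 0.00329 0.02177 0.001214 0.0000003101 0.003759 0.0000003101 0.0000003101 0.0000003101 1.7114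
    hβ hN hx1 hx2 hy1 hy2 (by norm_num) (by norm_num) (by linarith) (by norm_num) (by norm_num) (by norm_num) (by norm_num) (by norm_num) (by norm_num) (by norm_num) (by norm_num) (by norm_num) (by norm_num) (by norm_num) (by norm_num) (by norm_num) (by norm_num) (by norm_num) (by norm_num) (by norm_num) (by norm_num) (by norm_num) (by norm_num) (by norm_num)
    (cube_sqrt_geJ (s := 0.8182) (by norm_num) (by norm_num) (by norm_num) (by norm_num))
    (cube_sqrt_geJ (s := 0.9373) (by norm_num) (by norm_num) (by norm_num) (by norm_num))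
    (by norm_num) (by norm_num) (by norm_num) (by norm_num) (by norm_num) (by norm_num) (by norm_num) (by norm_num) (by norm_num) (by norm_num) (by norm_num) (by norm_num) (by norm_num) (by norm_num) (by norm_num) (by norm_num) (by norm_num) (by norm_num)
    (exp_neg_leJ (r := 0.718) 5 (by norm_num) (by norm_num) (by norm_num) (by norm_num))
    (exp_neg_leJ (r := 0.829) 3 (by norm_num) (by norm_num) (by norm_num) (by norm_num))
    (exp_neg_leJ (r := 0.715) 6 (by norm_num) (by norm_num) (by norm_num) (by norm_num))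
    (exp_neg_leJ (r := 0.99) 14 (by norm_num) (by norm_num) (by norm_num) (by norm_num))
    (exp_neg_leJ (r := 0.584) 5 (by norm_num) (by norm_num) (by norm_num) (by norm_num))
    (exp_neg_leJ (r := 0.99) 14 (by norm_num) (by norm_num) (by norm_num) (by norm_num))
    (exp_neg_leJ (r := 0.99) 14 (by norm_num) (by norm_num) (by norm_num) (by norm_num))
    (exp_neg_leJ (r := 0.99) 14 (by norm_num) (by norm_num) (by norm_num) (by norm_num))
    (by norm_num)) (by norm_num) hN hβ.le (by norm_num)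

private theorem B5Ew_T26_0_2 {β x y : ℝ} (hβ : 0 < β) (hN : β * 14.285 ≤ 1) (hx1 : 0.638 ≤ x) (hx2 : x ≤ 0.685)
    (hy1 : -0.4721 ≤ y) (hy2 : y ≤ -0.182) : ‖HH β (x + y * I) - 1‖ ≤ 0.12 := by
  refine le_epsJ (C := 1.7103) (N0 := 14.285) (J_boxp 0.638 0.685 0.4721 0 (-0.182) 0.824 0.832 1.067 1.381 0.4121 3.7796 14.285 1.0098 4.206 1.588 0.7208 0.4119 0.2733 0.4814 2.1866 0.407 1.3833 1.5633 3.7264 0.002793 0.02021 0.001035 0.0000003101 0.002994 0.0000003101 0.0000003101 0.0000003101 1.7103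
    hβ hN hx1 hx2 hy1 hy2 (by norm_num) (by norm_num) (by linarith) (by norm_num) (by norm_num) (by norm_num) (by norm_num) (by norm_num) (by norm_num) (by norm_num) (by norm_num) (by norm_num) (by norm_num) (by norm_num) (by norm_num) (by norm_num) (by norm_num) (by norm_num) (by norm_num) (by norm_num) (by norm_num) (by norm_num) (by norm_num) (by norm_num)
    (cube_sqrt_geJ (s := 0.8144) (by norm_num) (by norm_num) (by norm_num) (by norm_num))
    (cube_sqrt_geJ (s := 0.9361) (by norm_num) (by norm_num) (by norm_num) (by norm_num))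
    (by norm_num) (by norm_num) (by norm_num) (by norm_num) (by norm_num) (by norm_num) (by norm_num) (by norm_num) (by norm_num) (by norm_num) (by norm_num) (by norm_num) (by norm_num) (by norm_num) (by norm_num) (by norm_num) (by norm_num) (by norm_num)
    (exp_neg_leJ (r := 0.883) 5 (by norm_num) (by norm_num) (by norm_num) (by norm_num))
    (exp_neg_leJ (r := 0.904) 3 (by norm_num) (by norm_num) (by norm_num) (by norm_num))
    (exp_neg_leJ (r := 0.876) 6 (by norm_num) (by norm_num) (by norm_num) (by norm_num))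
    (exp_neg_leJ (r := 0.99) 14 (by norm_num) (by norm_num) (by norm_num) (by norm_num))
    (exp_neg_leJ (r := 0.813) 5 (by norm_num) (by norm_num) (by norm_num) (by norm_num))
    (exp_neg_leJ (r := 0.99) 14 (by norm_num) (by norm_num) (by norm_num) (by norm_num))
    (exp_neg_leJ (r := 0.99) 14 (by norm_num) (by norm_num) (by norm_num) (by norm_num))
    (exp_neg_leJ (r := 0.99) 14 (by norm_num) (by norm_num) (by norm_num) (by norm_num))
    (by norm_num)) (by norm_num) hN hβ.le (by norm_num)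

private theorem B5Ew_T26_0_3 {β x y : ℝ} (hβ : 0 < β) (hN : β * 14.285 ≤ 1) (hx1 : 0.685 ≤ x) (hx2 : x ≤ 0.751)
    (hy1 : -0.4721 ≤ y) (hy2 : y ≤ -0.182) : ‖HH β (x + y * I) - 1‖ ≤ 0.12 := by
  refine le_epsJ (C := 1.7133) (N0 := 14.285) (J_boxp 0.685 0.751 0.4721 0 (-0.182) 0.8571 0.8871 1.1105 1.3281 0.4205 3.7796 14.285 1.0351 4.398 1.608 0.6954 0.4285 0.2806 0.4975 2.1514 0.4298 1.4484 1.6573 3.6706 0.002197 0.01817 0.0008202 0.0000003101 0.002158 0.0000003101 0.0000003101 0.0000003101 1.7133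
    hβ hN hx1 hx2 hy1 hy2 (by norm_num) (by norm_num) (by linarith) (by norm_num) (by norm_num) (by norm_num) (by norm_num) (by norm_num) (by norm_num) (by norm_num) (by norm_num) (by norm_num) (by norm_num) (by norm_num) (by norm_num) (by norm_num) (by norm_num) (by norm_num) (by norm_num) (by norm_num) (by norm_num) (by norm_num) (by norm_num) (by norm_num)
    (cube_sqrt_geJ (s := 0.8093) (by norm_num) (by norm_num) (by norm_num) (by norm_num))
    (cube_sqrt_geJ (s := 0.9344) (by norm_num) (by norm_num) (by norm_num) (by norm_num))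
    (by norm_num) (by norm_num) (by norm_num) (by norm_num) (by norm_num) (by norm_num) (by norm_num) (by norm_num) (by norm_num) (by norm_num) (by norm_num) (by norm_num) (by norm_num) (by norm_num) (by norm_num) (by norm_num) (by norm_num) (by norm_num)
    (exp_neg_leJ (r := 0.121) 6 (by norm_num) (by norm_num) (by norm_num) (by norm_num))
    (exp_neg_leJ (r := 0.008) 4 (by norm_num) (by norm_num) (by norm_num) (by norm_num))
    (exp_neg_leJ (r := 0.106) 7 (by norm_num) (by norm_num) (by norm_num) (by norm_num))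
    (exp_neg_leJ (r := 0.99) 14 (by norm_num) (by norm_num) (by norm_num) (by norm_num))
    (exp_neg_leJ (r := 0.139) 6 (by norm_num) (by norm_num) (by norm_num) (by norm_num))
    (exp_neg_leJ (r := 0.99) 14 (by norm_num) (by norm_num) (by norm_num) (by norm_num))
    (exp_neg_leJ (r := 0.99) 14 (by norm_num) (by norm_num) (by norm_num) (by norm_num))
    (exp_neg_leJ (r := 0.99) 14 (by norm_num) (by norm_num) (by norm_num) (by norm_num))
    (by norm_num)) (by norm_num) hN hβ.le (by norm_num)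

private theorem B5Ew_T26_0_4 {β x y : ℝ} (hβ : 0 < β) (hN : β * 14.285 ≤ 1) (hx1 : 0.751 ≤ x) (hx2 : x ≤ 0.839)
    (hy1 : -0.4721 ≤ y) (hy2 : y ≤ -0.182) : ‖HH β (x + y * I) - 1‖ ≤ 0.12 := by
  refine le_epsJ (C := 1.7111) (N0 := 14.285) (J_boxp 0.751 0.839 0.4721 0 (-0.182) 0.9036 0.9628 1.1718 1.2603 0.4319 3.7796 14.285 1.0656 4.646 1.632 0.6616 0.4517 0.2913 0.5201 2.1038 0.4618 1.5398 1.7893 3.5969 0.001578 0.0156 0.0005939 0.0000003101 0.001367 0.0000003101 0.0000003101 0.0000003101 1.7111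
    hβ hN hx1 hx2 hy1 hy2 (by norm_num) (by norm_num) (by linarith) (by norm_num) (by norm_num) (by norm_num) (by norm_num) (by norm_num) (by norm_num) (by norm_num) (by norm_num) (by norm_num) (by norm_num) (by norm_num) (by norm_num) (by norm_num) (by norm_num) (by norm_num) (by norm_num) (by norm_num) (by norm_num) (by norm_num) (by norm_num) (by norm_num)
    (cube_sqrt_geJ (s := 0.8029) (by norm_num) (by norm_num) (by norm_num) (by norm_num))
    (cube_sqrt_geJ (s := 0.9324) (by norm_num) (by norm_num) (by norm_num) (by norm_num))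
    (by norm_num) (by norm_num) (by norm_num) (by norm_num) (by norm_num) (by norm_num) (by norm_num) (by norm_num) (by norm_num) (by norm_num) (by norm_num) (by norm_num) (by norm_num) (by norm_num) (by norm_num) (by norm_num) (by norm_num) (by norm_num)
    (exp_neg_leJ (r := 0.452) 6 (by norm_num) (by norm_num) (by norm_num) (by norm_num))
    (exp_neg_leJ (r := 0.161) 4 (by norm_num) (by norm_num) (by norm_num) (by norm_num))
    (exp_neg_leJ (r := 0.429) 7 (by norm_num) (by norm_num) (by norm_num) (by norm_num))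
    (exp_neg_leJ (r := 0.99) 14 (by norm_num) (by norm_num) (by norm_num) (by norm_num))
    (exp_neg_leJ (r := 0.596) 6 (by norm_num) (by norm_num) (by norm_num) (by norm_num))
    (exp_neg_leJ (r := 0.99) 14 (by norm_num) (by norm_num) (by norm_num) (by norm_num))
    (exp_neg_leJ (r := 0.99) 14 (by norm_num) (by norm_num) (by norm_num) (by norm_num))
    (exp_neg_leJ (r := 0.99) 14 (by norm_num) (by norm_num) (by norm_num) (by norm_num))
    (by norm_num)) (by norm_num) hN hβ.le (by norm_num)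

private theorem B5Ew_T26_0_5 {β x y : ℝ} (hβ : 0 < β) (hN : β * 14.285 ≤ 1) (hx1 : 0.839 ≤ x) (hx2 : x ≤ 0.953)
    (hy1 : -0.4721 ≤ y) (hy2 : y ≤ -0.182) : ‖HH β (x + y * I) - 1‖ ≤ 0.12 := by
  refine le_epsJ (C := 1.7112) (N0 := 14.285) (J_boxp 0.839 0.953 0.4721 0 (-0.182) 0.9656 1.0636 1.256 1.1812 0.4472 3.7796 14.285 1.1015 4.961 1.661 0.6177 0.4827 0.3055 0.5502 2.0415 0.5046 1.6616 1.9653 3.4989 0.001016 0.01273 0.0003871 0.0000003101 0.0007407 0.0000003101 0.0000003101 0.0000003101 1.7112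
    hβ hN hx1 hx2 hy1 hy2 (by norm_num) (by norm_num) (by linarith) (by norm_num) (by norm_num) (by norm_num) (by norm_num) (by norm_num) (by norm_num) (by norm_num) (by norm_num) (by norm_num) (by norm_num) (by norm_num) (by norm_num) (by norm_num) (by norm_num) (by norm_num) (by norm_num) (by norm_num) (by norm_num) (by norm_num) (by norm_num) (by norm_num)
    (cube_sqrt_geJ (s := 0.7955) (by norm_num) (by norm_num) (by norm_num) (by norm_num))
    (cube_sqrt_geJ (s := 0.9301) (by norm_num) (by norm_num) (by norm_num) (by norm_num))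
    (by norm_num) (by norm_num) (by norm_num) (by norm_num) (by norm_num) (by norm_num) (by norm_num) (by norm_num) (by norm_num) (by norm_num) (by norm_num) (by norm_num) (by norm_num) (by norm_num) (by norm_num) (by norm_num) (by norm_num) (by norm_num)
    (exp_neg_leJ (r := 0.895) 6 (by norm_num) (by norm_num) (by norm_num) (by norm_num))
    (exp_neg_leJ (r := 0.364) 4 (by norm_num) (by norm_num) (by norm_num) (by norm_num))
    (exp_neg_leJ (r := 0.859) 7 (by norm_num) (by norm_num) (by norm_num) (by norm_num))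
    (exp_neg_leJ (r := 0.99) 14 (by norm_num) (by norm_num) (by norm_num) (by norm_num))
    (exp_neg_leJ (r := 0.208) 7 (by norm_num) (by norm_num) (by norm_num) (by norm_num))
    (exp_neg_leJ (r := 0.99) 14 (by norm_num) (by norm_num) (by norm_num) (by norm_num))
    (exp_neg_leJ (r := 0.99) 14 (by norm_num) (by norm_num) (by norm_num) (by norm_num))
    (exp_neg_leJ (r := 0.99) 14 (by norm_num) (by norm_num) (by norm_num) (by norm_num))
    (by norm_num)) (by norm_num) hN hβ.le (by norm_num)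

private theorem B5Ew_T26_0_6 {β x y : ℝ} (hβ : 0 < β) (hN : β * 14.285 ≤ 1) (hx1 : 0.953 ≤ x) (hx2 : x ≤ 1.0782)
    (hy1 : -0.4721 ≤ y) (hy2 : y ≤ -0.182) : ‖HH β (x + y * I) - 1‖ ≤ 0.12 := by
  refine le_epsJ (C := 1.6304) (N0 := 14.285) (J_boxp 0.953 1.0782 0.4721 0 (-0.182) 1.0458 1.1771 1.3534 1.0878 0.4642 3.7796 14.285 1.1256 5.188 1.681 0.5696 0.5228 0.3267 0.5893 1.9723 0.56 1.8195 2.1933 3.4183 0.0005712 0.009416 0.0002209 0.0000003101 0.0003401 0.0000003101 0.0000003101 0.0000003101 1.6304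
    hβ hN hx1 hx2 hy1 hy2 (by norm_num) (by norm_num) (by linarith) (by norm_num) (by norm_num) (by norm_num) (by norm_num) (by norm_num) (by norm_num) (by norm_num) (by norm_num) (by norm_num) (by norm_num) (by norm_num) (by norm_num) (by norm_num) (by norm_num) (by norm_num) (by norm_num) (by norm_num) (by norm_num) (by norm_num) (by norm_num) (by norm_num)
    (cube_sqrt_geJ (s := 0.7904) (by norm_num) (by norm_num) (by norm_num) (by norm_num))
    (cube_sqrt_geJ (s := 0.9285) (by norm_num) (by norm_num) (by norm_num) (by norm_num))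
    (by norm_num) (by norm_num) (by norm_num) (by norm_num) (by norm_num) (by norm_num) (by norm_num) (by norm_num) (by norm_num) (by norm_num) (by norm_num) (by norm_num) (by norm_num) (by norm_num) (by norm_num) (by norm_num) (by norm_num) (by norm_num)
    (exp_neg_leJ (r := 0.468) 7 (by norm_num) (by norm_num) (by norm_num) (by norm_num))
    (exp_neg_leJ (r := 0.666) 4 (by norm_num) (by norm_num) (by norm_num) (by norm_num))
    (exp_neg_leJ (r := 0.418) 8 (by norm_num) (by norm_num) (by norm_num) (by norm_num))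
    (exp_neg_leJ (r := 0.99) 14 (by norm_num) (by norm_num) (by norm_num) (by norm_num))
    (exp_neg_leJ (r := 0.99) 7 (by norm_num) (by norm_num) (by norm_num) (by norm_num))
    (exp_neg_leJ (r := 0.99) 14 (by norm_num) (by norm_num) (by norm_num) (by norm_num))
    (exp_neg_leJ (r := 0.99) 14 (by norm_num) (by norm_num) (by norm_num) (by norm_num))
    (exp_neg_leJ (r := 0.99) 14 (by norm_num) (by norm_num) (by norm_num) (by norm_num))
    (by norm_num)) (by norm_num) hN hβ.le (by norm_num)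

private theorem B5Ew_T26_1_0 {β x y : ℝ} (hβ : 0 < β) (hN : β * 14.285 ≤ 1) (hx1 : 0.5825 ≤ x) (hx2 : x ≤ 1.0782)
    (hy1 : -0.182 ≤ y) (hy2 : y ≤ -0.1499) : ‖HH β (x + y * I) - 1‖ ≤ 0.12 := by
  refine le_epsJ (C := 1.7093) (N0 := 14.285) (J_boxp 0.5825 1.0782 0.182 0 (-0.1499) 0.9909 1.0935 1.3731 1.188 0.4675 3.7796 14.285 1.1036 4.98 1.663 0.8374 0.4954 0.3131 0.9203 2.9053 0.5385 1.3065 2.2409 2.9046 0.0008452 0.01143 0.000001954 0.0000003101 0.0004569 0.0000003101 0.0000003101 0.0000003101 1.7093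
    hβ hN hx1 hx2 hy1 hy2 (by norm_num) (by norm_num) (by linarith) (by norm_num) (by norm_num) (by norm_num) (by norm_num) (by norm_num) (by norm_num) (by norm_num) (by norm_num) (by norm_num) (by norm_num) (by norm_num) (by norm_num) (by norm_num) (by norm_num) (by norm_num) (by norm_num) (by norm_num) (by norm_num) (by norm_num) (by norm_num) (by norm_num)
    (cube_sqrt_geJ (s := 0.795) (by norm_num) (by norm_num) (by norm_num) (by norm_num))
    (cube_sqrt_geJ (s := 0.9299) (by norm_num) (by norm_num) (by norm_num) (by norm_num))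
    (by norm_num) (by norm_num) (by norm_num) (by norm_num) (by norm_num) (by norm_num) (by norm_num) (by norm_num) (by norm_num) (by norm_num) (by norm_num) (by norm_num) (by norm_num) (by norm_num) (by norm_num) (by norm_num) (by norm_num) (by norm_num)
    (exp_neg_leJ (r := 0.076) 7 (by norm_num) (by norm_num) (by norm_num) (by norm_num))
    (exp_neg_leJ (r := 0.472) 4 (by norm_num) (by norm_num) (by norm_num) (by norm_num))
    (exp_neg_leJ (r := 0.146) 13 (by norm_num) (by norm_num) (by norm_num) (by norm_num))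
    (exp_neg_leJ (r := 0.99) 14 (by norm_num) (by norm_num) (by norm_num) (by norm_num))
    (exp_neg_leJ (r := 0.692) 7 (by norm_num) (by norm_num) (by norm_num) (by norm_num))
    (exp_neg_leJ (r := 0.99) 14 (by norm_num) (by norm_num) (by norm_num) (by norm_num))
    (exp_neg_leJ (r := 0.99) 14 (by norm_num) (by norm_num) (by norm_num) (by norm_num))
    (exp_neg_leJ (r := 0.99) 14 (by norm_num) (by norm_num) (by norm_num) (by norm_num))
    (by norm_num)) (by norm_num) hN hβ.le (by norm_num)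

private theorem B5Ew_T26 {β x y : ℝ} (hβ : 0 < β) (hN : β * 14.285 ≤ 1) (hx1 : 0.5825 ≤ x) (hx2 : x ≤ 1.0782)
    (hy1 : (-0.4721) ≤ y) (hy2 : y ≤ (-0.1499)) : ‖HH β (x + y * I) - 1‖ ≤ 0.12 := by
  rcases le_total y (-0.182) with hyy | hyy
  · rcases le_total x 0.605 with hxx | hxx
    · exact B5Ew_T26_0_0 hβ hN (by linarith) (by linarith) (by linarith) (by linarith)
    rcases le_total x 0.638 with hxx | hxx
    · exact B5Ew_T26_0_1 hβ hN (by linarith) (by linarith) (by linarith) (by linarith)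
    rcases le_total x 0.685 with hxx | hxx
    · exact B5Ew_T26_0_2 hβ hN (by linarith) (by linarith) (by linarith) (by linarith)
    rcases le_total x 0.751 with hxx | hxx
    · exact B5Ew_T26_0_3 hβ hN (by linarith) (by linarith) (by linarith) (by linarith)
    rcases le_total x 0.839 with hxx | hxx
    · exact B5Ew_T26_0_4 hβ hN (by linarith) (by linarith) (by linarith) (by linarith)
    rcases le_total x 0.953 with hxx | hxx
    · exact B5Ew_T26_0_5 hβ hN (by linarith) (by linarith) (by linarith) (by linarith)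
    exact B5Ew_T26_0_6 hβ hN (by linarith) (by linarith) (by linarith) (by linarith)
  exact B5Ew_T26_1_0 hβ hN (by linarith) (by linarith) (by linarith) (by linarith)

private theorem B5Ew_G27 {κ : ℝ} (hk1 : 0.6 ≤ κ) (hk2 : κ ≤ 0.7) : gG κ 0.57 ≤ 1.33718 ∧ 0.45022 ≤ Real.exp (-(κ * 0.57)) ^ 2 := by
  refine ⟨gG_le 0.57 0.6 0.7 1.33718 0.71035 0.671 1.40777 1.49034 hk1 hk2 (by norm_num)
    (ex_um 0.342 (by norm_num) (by norm_num) (by norm_num) (by norm_num)) (ex_um 0.399 (by norm_num) (by norm_num) (by norm_num) (by norm_num))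
    (ex_up 0.342 (by norm_num) (by norm_num) (by norm_num) (by norm_num)) (ex_up 0.399 (by norm_num) (by norm_num) (by norm_num) (by norm_num))
    (by norm_num) (by norm_num), ?_⟩
  exact v5_M 0.67099 (ex_lm 0.399 (by linarith) (by norm_num) (by norm_num) (by norm_num) (by norm_num)) (by norm_num) (by norm_num)

private theorem B5Ew_C28 {β r t κ : ℝ} (hβ : 0 < β) (hr : 10 ≤ r) (hκ : κ = β * r) (hk1 : 0.6 ≤ κ) (hk2 : κ ≤ 0.7) (hta : 1.9226 ≤ t + κ)
    (htb : t + κ ≤ 2.0933) : ‖F (cexp (I * β)) (r * cexp (I * ((t + β / 2 : ℝ) : ℂ)))‖ ≤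
      3.5488 * Real.exp (r * (1.33718 - 0.57 * (t + κ))) + 0.1435 * Real.exp (r * 0) :=
  v5_H 0.57 0.6 0.7 1.9226 2.0933 1.33718 2.6575 0.45022 0.1056 2.7932 0.0773 0.04282 0.6524 0.00000151 3.5488 0.1435 hβ hr hκ (by norm_num) hk1 hk2 hta htb (by norm_num) (B5Ew_G27 hk1 hk2).1 (B5Ew_G27 hk1 hk2).2 (by norm_num) (by norm_num) (by norm_num)
    (by norm_num) (by norm_num) (by norm_num) (by norm_num) (by norm_num) (by norm_num) (by norm_num) (by norm_num) (ex_un 0 0.4281 (by norm_num) (by norm_num) (by norm_num) (by norm_num))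
    (v5_hump 2.4158 14.285 3.7796 0.0000009316 0.00000151 hβ hr hκ hk1 hk2 (by norm_num) htb (by norm_num) (by norm_num) (by norm_num) (by norm_num) (by norm_num) (by norm_num) (by norm_num) (ex_un 13 0.9 (by norm_num) (by norm_num) (by norm_num) (by norm_num)) (by norm_num)) (by norm_num) (by norm_num)

private theorem B5Ew_C29 {β r t κ : ℝ} (hβ : 0 < β) (hr : 10 ≤ r) (hκ : κ = β * r) (hk1 : 0.6 ≤ κ) (hk2 : κ ≤ 0.7) (hta : (-1.8473) ≤ t + κ)
    (htb : t + κ ≤ (-1.6766)) : ‖F (cexp (I * β)) (r * cexp (I * ((t + β / 2 : ℝ) : ℂ)))‖ ≤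
      1.3576 * Real.exp (r * (1.30296 - (-0.71) * (t + κ))) + 1.9437 * Real.exp (r * 0.0501) :=
  v5_HU (-0.71) 0.6 0.7 (-1.8473) (-1.6766) 1.30296 1.3576 2.34432 0.1056 0.9879 2.1646 0 0.0501 0.00000151 1.9437 hβ hr hκ (by norm_num) hk1 hk2 hta htb (by norm_num) (by norm_num) (B5Ew_G7 hk1 hk2).1 (B5Ew_G7 hk1 hk2).2 (by norm_num) (by norm_num) (by norm_num)
    (by norm_num) (by norm_num) (by norm_num) (by norm_num) (by norm_num) (by norm_num) (by norm_num)
    (by norm_num) (by norm_num) (by norm_num) (v5_hump 6.1857 14.285 3.7796 0.0000009316 0.00000151 hβ hr hκ hk1 hk2 (by norm_num) htb (by norm_num) (by norm_num) (by norm_num) (by norm_num) (by norm_num) (by norm_num) (by norm_num) (ex_un 13 0.9 (by norm_num) (by norm_num) (by norm_num) (by norm_num)) (by norm_num)) (by norm_num)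

private theorem B5Ew_C30 {β r t κ : ℝ} (hβ : 0 < β) (hr : 10 ≤ r) (hκ : κ = β * r) (hk1 : 0.6 ≤ κ) (hk2 : κ ≤ 0.7) (hta : 3.1792 ≤ t + κ)
    (htb : t + κ ≤ 3.3499) : ‖F (cexp (I * β)) (r * cexp (I * ((t + β / 2 : ℝ) : ℂ)))‖ ≤
      2.5101 * Real.exp (r * (0.01 + 1 / 20)) :=
  v5_UD 0.6 0.7 3.1792 3.3499 0.01 0.5151 0.01 1.3086 2.5101 hβ hr hκ (by norm_num) hk1 hk2 hta htb (by norm_num) (by norm_num) (by norm_num) (by norm_num) (by norm_num) (by norm_num) (by norm_num) (by norm_num) (by norm_num) (by norm_num) (by norm_num)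

private theorem B5Ew_Y31 {β r t κ h t' : ℝ} (hβ : 0 < β) (hκ : κ = β * r) (hN : β * 14.285 ≤ 1) (hk1 : 0.6 ≤ κ) (hk2 : κ ≤ 0.7)
    (ht : t' = t + (((1 : ℤ) : ℝ) - 1) * h) (hD : DomR κ t') (hta : 0.666 ≤ t' + κ) (htb : t' + κ ≤ 0.7666) :
    0.8257 * Real.exp (r * sE κ t') ≤ ‖Xf β r h t 1‖ := by
  obtain ⟨⟨ya, yb⟩, ⟨xa, xb⟩, n1, Da, Db⟩ := B5Ew_B23 hD hk1 hk2 hta htb
  have J := B5Ew_T25 (x := sx κ t') (y := sy κ t') hβ hN (by linarith only [xa, xb, ya, yb]) (by linarith only [xa, xb, ya, yb]) (by linarith only [xa, xb, ya, yb]) (by linarith only [xa, xb, ya, yb])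
  exact v5_Jlo hβ hκ (k := 1) ht hD 0.04 1.827 0.8257 (by norm_num) J Db (by norm_num)

private theorem B5Ew_Y32 {β r t κ h t' : ℝ} (hβ : 0 < β) (hκ : κ = β * r) (hN : β * 14.285 ≤ 1) (hk1 : 0.6 ≤ κ) (hk2 : κ ≤ 0.7)
    (ht : t' = t + (((0 : ℤ) : ℝ) - 1) * h) (hD : DomR κ t') (hta : (-0.5907) ≤ t' + κ) (htb : t' + κ ≤ (-0.49)) :
    0.8239 * Real.exp (r * sE κ t') ≤ ‖Xf β r h t 0‖ := by
  obtain ⟨⟨ya, yb⟩, ⟨xa, xb⟩, n1, Da, Db⟩ := B5Ew_B24 hD hk1 hk2 hta htb
  have J := B5Ew_T26 (x := sx κ t') (y := sy κ t') hβ hN (by linarith only [xa, xb, ya, yb]) (by linarith only [xa, xb, ya, yb]) (by linarith only [xa, xb, ya, yb]) (by linarith only [xa, xb, ya, yb])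
  exact v5_Jlo hβ hκ (k := 0) ht hD 0.12 1.3009 0.8239 (by norm_num) J Db (by norm_num)

private theorem B5Ew_V33 {κ t : ℝ} (hD : DomR κ t) (hk1 : 0.6 ≤ κ) (hk2 : κ ≤ 0.7) (hta : 0.666 ≤ t + κ) (htb : t + κ ≤ 0.7666) :
    1.16252 - 0.4736 * (t + κ) ≤ sE κ t := by
  have hκ0 : 0 < κ := hD.1
  exact v5_V1 hD 0.6 0.7 0.666 0.7666 0.04686 0.21532 0.26399 1.16252 0.4736 (by norm_num) hk1 hk2 (by norm_num) (by norm_num) hta htb (by norm_num) (clo5 0.6 0.7 0.26399 (by norm_num) hk1 hk2 (by norm_num) (by norm_num) (by norm_num))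
      ((cup1 0.7 hκ0.le hk2 (by norm_num)).trans (by norm_num)) (by norm_num) (by norm_num) (by norm_num) (by norm_num) (by norm_num) (by norm_num)

private theorem B5Ew_V34 {κ t : ℝ} (hD : DomR κ t) (hk1 : 0.6 ≤ κ) (hk2 : κ ≤ 0.7) (hta : (-0.5907) ≤ t + κ) (htb : t + κ ≤ (-0.49)) :
    1.1307 + 0.488 * (t + κ) ≤ sE κ t := by
  have hκ0 : 0 < κ := hD.1
  exact v5_V0 hD 0.6 0.7 (-0.5907) (-0.49) 0.5908 0.6141 0.15833 0.09545 0.39755 0.51471 1.1307 0.488 (by norm_num) hk1 hk2 (by norm_num) hta htb (by norm_num) (by norm_num) (by norm_num) ((cup1 0.7 hκ0.le hk2 (by norm_num)).trans (by norm_num))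
      (by norm_num) (by norm_num) (by norm_num) (by norm_num) (by norm_num) (by norm_num) (by norm_num) (by norm_num) (by norm_num) (by norm_num) (by norm_num) (by norm_num) (by norm_num)

private theorem B5Ew_S35 {β r t κ h t' : ℝ} (hβ : 0 < β) (hκ : κ = β * r) (hN : β * 14.285 ≤ 1) (hk1 : 0.6 ≤ κ) (hk2 : κ ≤ 0.7)
    (ht : t' = t + (((1 : ℤ) : ℝ) - 1) * h) (hD : DomR κ t') (hta : 0.666 ≤ t' + κ) (htb : t' + κ ≤ 0.7666) :
    Xf β r h t 1 ≠ 0 ∧ |(Ld β r h t 1).im - (sy κ t' / β + sx κ t' / sD κ t' * ((1 + sy κ t') / sD κ t' - 1 / 2))| ≤ 0.1501 ∧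
      ‖Ld β r h t 1 - sg κ t' / β‖ ≤ 0.3169 ∧ -0.0001 ≤ sx κ t' / sD κ t' * ((1 + sy κ t') / sD κ t' - 1 / 2) ∧
      (0.224 ≤ sy κ t' ∧ sy κ t' ≤ 0.271) ∧ (0.3686 ≤ sx κ t' ∧ sx κ t' ≤ 0.5128) := by
  obtain ⟨⟨y1, y2⟩, ⟨x1, x2⟩, n1, Da, Db⟩ := B5Ew_B23 hD hk1 hk2 hta htb
  have hd := v5_disc (β := β) (κ := κ) (t := t') (ε := 0.04) 0.12 0.2485 0.6329 0.1039 0.3911 0.3686 0.5128 0.224 0.271
    (fun x y g1 g2 g3 g4 => B5Ew_T25 hβ hN g1 g2 g3 g4) x1 x2 y1 y2 (by norm_num) (by norm_num) (by norm_num) (by norm_num)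
  obtain ⟨nz, im, nL⟩ := v5_slope (h := h) (t := t) (k := 1) 0.12 0.04 0.5596 1.678 0.3473 0.1501 hβ hκ ht hD (by norm_num) (by norm_num) (by linarith only [y1]) hd n1 (by norm_num) Da (by norm_num) (by norm_num) (by norm_num) (by norm_num)
  have ex := ex_lo hD 0.5596 1.678 1.827 0.224 0 0.0001 n1 (by norm_num) Da Db y1 (by norm_num) (by norm_num) (by norm_num) (by norm_num)
  exact ⟨nz, im, nL.trans (by norm_num), ex, ⟨y1, y2⟩, x1, x2⟩

private theorem B5Ew_S36 {β r t κ h t' : ℝ} (hβ : 0 < β) (hκ : κ = β * r) (hN : β * 14.285 ≤ 1) (hk1 : 0.6 ≤ κ) (hk2 : κ ≤ 0.7)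
    (ht : t' = t + (((0 : ℤ) : ℝ) - 1) * h) (hD : DomR κ t') (hta : (-0.5907) ≤ t' + κ) (htb : t' + κ ≤ (-0.49)) :
    Xf β r h t 0 ≠ 0 ∧ |(Ld β r h t 0).im - (sy κ t' / β + sx κ t' / sD κ t' * ((1 + sy κ t') / sD κ t' - 1 / 2))| ≤ 1.118 ∧
      ‖Ld β r h t 0 - sg κ t' / β‖ ≤ 1.6042 ∧ sx κ t' / sD κ t' * ((1 + sy κ t') / sD κ t' - 1 / 2) ≤ 0.2072 ∧
      ((-0.352) ≤ sy κ t' ∧ sy κ t' ≤ (-0.27)) ∧ (0.7026 ≤ sx κ t' ∧ sx κ t' ≤ 0.9581) := by
  obtain ⟨⟨y1, y2⟩, ⟨x1, x2⟩, n1, Da, Db⟩ := B5Ew_B24 hD hk1 hk2 hta htb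
  have hd := v5_disc (β := β) (κ := κ) (t := t') (ε := 0.12) 0.12 0.5825 1.0782 (-0.4721) (-0.1499) 0.7026 0.9581 (-0.352) (-0.27)
    (fun x y g1 g2 g3 g4 => B5Ew_T26 hβ hN g1 g2 g3 g4) x1 x2 y1 y2 (by norm_num) (by norm_num) (by norm_num) (by norm_num)
  obtain ⟨nz, im, nL⟩ := v5_slope (h := h) (t := t) (k := 0) 0.12 0.12 0.9954 1.0238 1.1364 1.118 hβ hκ ht hD (by norm_num) (by norm_num) (by linarith only [y1]) hd n1 (by norm_num) Da (by norm_num) (by norm_num) (by norm_num) (by norm_num)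
  have ex := ex_hi hD 0.9954 1.0238 (-0.27) 0.2131 0.2072 n1 (by norm_num) Da y2 (by norm_num) (by norm_num) (by norm_num) (by norm_num)
  exact ⟨nz, im, nL.trans (by norm_num), ex, ⟨y1, y2⟩, x1, x2⟩

private theorem B5Ew_L37 {β r κ t1 t0 : ℝ} {L0 L1 : ℂ} (hβ : 0 < β) (hr : 10 ≤ r) (hκ : κ = β * r) (hk1 : 0.6 ≤ κ)
    (nA0 : ‖L0 - sg κ t0 / β‖ ≤ 1.6042) (nA1 : ‖L1 - sg κ t1 / β‖ ≤ 0.3169)
    (y0 : (-0.352) ≤ sy κ t0 ∧ sy κ t0 ≤ (-0.27)) (x0 : 0.7026 ≤ sx κ t0 ∧ sx κ t0 ≤ 0.9581)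
    (y1 : 0.224 ≤ sy κ t1 ∧ sy κ t1 ≤ 0.271) (x1 : 0.3686 ≤ sx κ t1 ∧ sx κ t1 ≤ 0.5128) :
    ‖(1 : ℂ) * L0 + (-2 : ℂ) * L1‖ ≤ r * 1.8084 := by
  obtain ⟨y0a, y0b⟩ := y0
  obtain ⟨x0a, x0b⟩ := x0
  obtain ⟨y1a, y1b⟩ := y1
  obtain ⟨x1a, x1b⟩ := x1
  have hN := v5_cN (κ := κ) (t1 := t1) (t0 := t0) 1 (-2) 0.3231 0.8941 0.9507 (abs_le.2 ⟨by linarith only [x0a, x0b, x1a, x1b], by linarith only [x0a, x0b, x1a, x1b]⟩)
    (abs_le.2 ⟨by linarith only [y0a, y0b, y1a, y1b], by linarith only [y0a, y0b, y1a, y1b]⟩) (by norm_num) (by norm_num)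
  have h1 := v5_comb 1 (-2) 0.6 1.6042 0.3169 0.9507 1.8084 hβ hr hκ (by norm_num) hk1 nA0 nA1 hN (by norm_num [abs_of_neg, abs_of_pos])
  norm_num at h1 ⊢
  exact h1

private theorem B5Ew_L38 {β r κ t1 t0 : ℝ} {L0 L1 : ℂ} (hβ : 0 < β) (hr : 10 ≤ r) (hκ : κ = β * r) (hk1 : 0.6 ≤ κ)
    (nA0 : ‖L0 - sg κ t0 / β‖ ≤ 1.6042) (nA1 : ‖L1 - sg κ t1 / β‖ ≤ 0.3169)
    (y0 : (-0.352) ≤ sy κ t0 ∧ sy κ t0 ≤ (-0.27)) (x0 : 0.7026 ≤ sx κ t0 ∧ sx κ t0 ≤ 0.9581)
    (y1 : 0.224 ≤ sy κ t1 ∧ sy κ t1 ≤ 0.271) (x1 : 0.3686 ≤ sx κ t1 ∧ sx κ t1 ≤ 0.5128) :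
    ‖(-2 : ℂ) * L0 + (1 : ℂ) * L1‖ ≤ r * 3.4014 := by
  obtain ⟨y0a, y0b⟩ := y0
  obtain ⟨x0a, x0b⟩ := x0
  obtain ⟨y1a, y1b⟩ := y1
  obtain ⟨x1a, x1b⟩ := x1
  have hN := v5_cN (κ := κ) (t1 := t1) (t0 := t0) (-2) 1 1.5477 0.9751 1.8293 (abs_le.2 ⟨by linarith only [x0a, x0b, x1a, x1b], by linarith only [x0a, x0b, x1a, x1b]⟩)
    (abs_le.2 ⟨by linarith only [y0a, y0b, y1a, y1b], by linarith only [y0a, y0b, y1a, y1b]⟩) (by norm_num) (by norm_num)
  have h1 := v5_comb (-2) 1 0.6 1.6042 0.3169 1.8293 3.4014 hβ hr hκ (by norm_num) hk1 nA0 nA1 hN (by norm_num [abs_of_neg, abs_of_pos])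
  norm_num at h1 ⊢
  exact h1

private theorem B5Ew_L39 {β r κ t1 t0 : ℝ} {L0 L1 : ℂ} (hβ : 0 < β) (hr : 10 ≤ r) (hκ : κ = β * r) (hk1 : 0.6 ≤ κ)
    (nA0 : ‖L0 - sg κ t0 / β‖ ≤ 1.6042) (nA1 : ‖L1 - sg κ t1 / β‖ ≤ 0.3169)
    (y0 : (-0.352) ≤ sy κ t0 ∧ sy κ t0 ≤ (-0.27)) (x0 : 0.7026 ≤ sx κ t0 ∧ sx κ t0 ≤ 0.9581)
    (y1 : 0.224 ≤ sy κ t1 ∧ sy κ t1 ≤ 0.271) (x1 : 0.3686 ≤ sx κ t1 ∧ sx κ t1 ≤ 0.5128) :
    ‖(-3 : ℂ) * L0 + (2 : ℂ) * L1‖ ≤ r * 4.9925 := by
  obtain ⟨y0a, y0b⟩ := y0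
  obtain ⟨x0a, x0b⟩ := x0
  obtain ⟨y1a, y1b⟩ := y1
  obtain ⟨x1a, x1b⟩ := x1
  have hN := v5_cN (κ := κ) (t1 := t1) (t0 := t0) (-3) 2 2.1372 1.5981 2.6687 (abs_le.2 ⟨by linarith only [x0a, x0b, x1a, x1b], by linarith only [x0a, x0b, x1a, x1b]⟩)
    (abs_le.2 ⟨by linarith only [y0a, y0b, y1a, y1b], by linarith only [y0a, y0b, y1a, y1b]⟩) (by norm_num) (by norm_num)
  have h1 := v5_comb (-3) 2 0.6 1.6042 0.3169 2.6687 4.9925 hβ hr hκ (by norm_num) hk1 nA0 nA1 hN (by norm_num [abs_of_neg, abs_of_pos])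
  norm_num at h1 ⊢
  exact h1

private theorem B5Ew_K40 {β r t κ h : ℝ} (hβ : 0 < β) (hr : 10 ≤ r) (hκ : κ = β * r) (hk1 : 0.6 ≤ κ) (hk2 : κ ≤ 0.7)
    (hh : h = 2 * Real.pi / 5) (hh1 : 1.25663 ≤ h) (hh2 : h ≤ 1.25664) (hta : 0.666 ≤ t + κ) (htb : t + κ ≤ 0.7666)
    (hβ1 : β ≤ 0.07)
    (hY : 0.8257 * Real.exp (r * sE κ t) ≤ ‖Xf β r h t 1‖) (hV : 1.16252 - 0.4736 * (t + κ) ≤ sE κ t) :
    ‖Xf β r h t 2‖ ≤ 0.0102 * ‖Xf β r h t 1‖ ∧ ‖Xf β r h (t + β) 2‖ ≤ 0.00721 * ‖Xf β r h t 1‖ := by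
  constructor
  · rw [v5_X 2 1 (by push_cast; ring)]
    exact v5_cmp 0.6058 0.00234 0.0101 0.7994 0.000344 0.0000598 0.0102 hr (B5Ew_C28 (t := t + 1 * h) hβ hr hκ hk1 hk2 (by linarith only [hta, htb, hh1, hh2, hβ, hβ1]) (by linarith only [hta, htb, hh1, hh2, hβ, hβ1])) hY (by norm_num) (by norm_num) (by norm_num) (by norm_num) (by linarith only [hV, hta, htb, hh1, hh2]) (ex_un 6 0.0579 (by norm_num) (by norm_num) (by norm_num) (by norm_num)) (by norm_num) (by norm_num) (by linarith only [hV, hta, htb, hh1, hh2]) (ex_un 7 0.9939 (by norm_num) (by norm_num) (by norm_num) (by norm_num)) (by norm_num) (by norm_num)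
  · rw [v5_X 2 1 (by push_cast; ring)]
    have h1 := B5Ew_C28 (t := t + β + 1 * h) hβ hr hκ hk1 hk2 (by linarith only [hta, htb, hh1, hh2, hβ, hβ1]) (by linarith only [hta, htb, hh1, hh2, hβ, hβ1])
    rw [show t + β + 1 * h + κ = (t + 1 * h + κ) + β by ring] at h1
    exact v5_cmpS 0.71035 0.6058 0.00234 0.00715 0.7994 0.000344 0.0000598 0.00721 hr hκ h1 hY (by norm_num) (by norm_num) (by norm_num) (ex_um 0.342 (by linarith only [hk1, hk2]) (by norm_num) (by norm_num) (by norm_num)) (by norm_num) (by linarith only [hV, hta, htb, hh1, hh2]) (ex_un 6 0.0579 (by norm_num) (by norm_num) (by norm_num) (by norm_num)) (by norm_num) (by norm_num) (by linarith only [hV, hta, htb, hh1, hh2]) (ex_un 7 0.9939 (by norm_num) (by norm_num) (by norm_num) (by norm_num)) (by norm_num) (by norm_num)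

private theorem B5Ew_K41 {β r t κ h : ℝ} (hβ : 0 < β) (hr : 10 ≤ r) (hκ : κ = β * r) (hk1 : 0.6 ≤ κ) (hk2 : κ ≤ 0.7)
    (hh : h = 2 * Real.pi / 5) (hh1 : 1.25663 ≤ h) (hh2 : h ≤ 1.25664) (hta : 0.666 ≤ t + κ) (htb : t + κ ≤ 0.7666)
    (hβ1 : β ≤ 0.07)
    (hY : 0.8239 * Real.exp (r * sE κ (t - h)) ≤ ‖Xf β r h t 0‖) (hV : 1.1307 + 0.488 * (t - h + κ) ≤ sE κ (t - h)) :
    ‖Xf β r h t (-1)‖ ≤ 0.00129 * ‖Xf β r h t 0‖ ∧ ‖Xf β r h (t + β) (-1)‖ ≤ 0.00156 * ‖Xf β r h t 0‖ := by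
  constructor
  · rw [v5_X (-1) (-2) (by push_cast; ring)]
    exact v5_cmp 0.8287 0.0002519 0.000416 0.7923 0.0003678 0.000868 0.00129 hr (B5Ew_C29 (t := t + (-2) * h) hβ hr hκ hk1 hk2 (by linarith only [hta, htb, hh1, hh2, hβ, hβ1]) (by linarith only [hta, htb, hh1, hh2, hβ, hβ1])) hY (by norm_num) (by norm_num) (by norm_num) (by norm_num) (by linarith only [hV, hta, htb, hh1, hh2]) (ex_un 8 0.2869 (by norm_num) (by norm_num) (by norm_num) (by norm_num)) (by norm_num) (by norm_num) (by linarith only [hV, hta, htb, hh1, hh2]) (ex_un 7 0.9229 (by norm_num) (by norm_num) (by norm_num) (by norm_num)) (by norm_num) (by norm_num)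
  · rw [v5_X (-1) (-2) (by push_cast; ring)]
    have h1 := B5Ew_C29 (t := t + β + (-2) * h) hβ hr hκ hk1 hk2 (by linarith only [hta, htb, hh1, hh2, hβ, hβ1]) (by linarith only [hta, htb, hh1, hh2, hβ, hβ1])
    rw [show t + β + (-2) * h + κ = (t + (-2) * h + κ) + β by ring] at h1
    exact v5_cmpS 1.64379 0.8287 0.0002519 0.000683 0.7923 0.0003678 0.000868 0.00156 hr hκ h1 hY (by norm_num) (by norm_num) (by norm_num) (ex_up 0.497 (by linarith only [hk1, hk2]) (by norm_num) (by norm_num) (by norm_num)) (by norm_num) (by linarith only [hV, hta, htb, hh1, hh2]) (ex_un 8 0.2869 (by norm_num) (by norm_num) (by norm_num) (by norm_num)) (by norm_num) (by norm_num) (by linarith only [hV, hta, htb, hh1, hh2]) (ex_un 7 0.9229 (by norm_num) (by norm_num) (by norm_num) (by norm_num)) (by norm_num) (by norm_num)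

private theorem B5Ew_K42 {β r t κ h : ℝ} (hβ : 0 < β) (hr : 10 ≤ r) (hκ : κ = β * r) (hk1 : 0.6 ≤ κ) (hk2 : κ ≤ 0.7)
    (hh : h = 2 * Real.pi / 5) (hh1 : 1.25663 ≤ h) (hh2 : h ≤ 1.25664) (hta : 0.666 ≤ t + κ) (htb : t + κ ≤ 0.7666)
    (hβ1 : β ≤ 0.07)
    (hY : 0.8239 * Real.exp (r * sE κ (t - h)) ≤ ‖Xf β r h t 0‖) (hV : 1.1307 + 0.488 * (t - h + κ) ≤ sE κ (t - h)) :
    ‖Xf β r h t (-2)‖ ≤ 0.00124 * ‖Xf β r h t 0‖ ∧ ‖Xf β r h (t + β) (-2)‖ ≤ 0.00124 * ‖Xf β r h t 0‖ := by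
  constructor
  · rw [v5_Xm2 hh]
    exact v5_cmp0 0.7824 0.0004042 0.00124 hr (B5Ew_C30 (t := t + 2 * h) hβ hr hκ hk1 hk2 (by linarith only [hta, htb, hh1, hh2, hβ, hβ1]) (by linarith only [hta, htb, hh1, hh2, hβ, hβ1])) hY (by norm_num) (by norm_num) (by norm_num) (by linarith only [hV, hta, htb, hh1, hh2]) (ex_un 7 0.8239 (by norm_num) (by norm_num) (by norm_num) (by norm_num)) (by norm_num)
  · rw [v5_Xm2 hh]
    exact v5_cmp0 0.7824 0.0004042 0.00124 hr (B5Ew_C30 (t := t + β + 2 * h) hβ hr hκ hk1 hk2 (by linarith only [hta, htb, hh1, hh2, hβ, hβ1]) (by linarith only [hta, htb, hh1, hh2, hβ, hβ1])) hY (by norm_num) (by norm_num) (by norm_num) (by linarith only [hV, hta, htb, hh1, hh2]) (ex_un 7 0.8239 (by norm_num) (by norm_num) (by norm_num) (by norm_num)) (by norm_num)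

theorem B5Ew_W43 {β r t κ h : ℝ} (hβ : 0 < β) (hr : 10 ≤ r) (hκ : κ = β * r) (hk1 : 0.6 ≤ κ) (hk2 : κ ≤ 0.7)
    (hh : h = 2 * Real.pi / 5) (hta : 0.666 ≤ t + κ) (htb : t + κ ≤ 0.7666) :
    Xf β r h t 0 ≠ 0 ∧
    (‖Xf β r h t 2‖ ≤ 0.0102 * ‖Xf β r h t 1‖ ∧ ‖Xf β r h t (-1)‖ ≤ 0.00221 * ‖Xf β r h t 0‖ ∧
      ‖Xf β r h t (-2)‖ ≤ 0.0026 * ‖Xf β r h t 0‖) ∧
    (r * ‖Xf β r h (t + β) 2‖ + ‖Xf β r h t 2‖ * ‖(1 : ℂ) * Ld β r h t 0 + (-2 : ℂ) * Ld β r h t 1‖ ≤
        r * 0.027 * ‖Xf β r h t 1‖ ∧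
      r * ‖Xf β r h (t + β) (-1)‖ + ‖Xf β r h t (-1)‖ * ‖(-2 : ℂ) * Ld β r h t 0 + (1 : ℂ) * Ld β r h t 1‖ ≤
        r * 0.011 * ‖Xf β r h t 0‖ ∧
      r * ‖Xf β r h (t + β) (-2)‖ + ‖Xf β r h t (-2)‖ * ‖(-3 : ℂ) * Ld β r h t 0 + (2 : ℂ) * Ld β r h t 1‖ ≤
        r * 0.0173 * ‖Xf β r h t 0‖) ∧
    r * 0.5368 ≤ (Ld β r h t 1 - Ld β r h t 0).im := by
  obtain ⟨hh1, hh2⟩ := v5_h hh
  have hκ0 : 0 < κ := by linarith only [hk1]
  have hN : β * 14.285 ≤ 1 := v5_hN 0.7 14.285 hβ hr hκ hk2 (by norm_num) (by norm_num)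
  have hD1 : DomR κ t := v5_dom hκ0 (by linarith only [hta, htb, hk1, hk2, hh1, hh2]) (Or.inr (by linarith only [hta, htb, hk1, hk2, hh1, hh2]))
  have hD0 : DomR κ (t - h) := v5_dom hκ0 (by linarith only [hta, htb, hk1, hk2, hh1, hh2]) (Or.inr (by linarith only [hta, htb, hk1, hk2, hh1, hh2]))
  have hβ1 : β ≤ 0.07 := by
    have := mul_le_mul_of_nonneg_left hr hβ.le
    linarith only [this, hκ, hk2]
  have h0a : (-0.5907) ≤ t - h + κ := by linarith only [hta, htb, hh1, hh2]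
  have h0b : t - h + κ ≤ (-0.49) := by linarith only [hta, htb, hh1, hh2]
  have e1 : t = t + (((1 : ℤ) : ℝ) - 1) * h := by push_cast; ring
  have e0 : t - h = t + (((0 : ℤ) : ℝ) - 1) * h := by push_cast; ring
  have hY1 := B5Ew_Y31 (h := h) hβ hκ hN hk1 hk2 e1 hD1 hta htb
  have hY0 := B5Ew_Y32 (h := h) hβ hκ hN hk1 hk2 e0 hD0 h0a h0b
  have hV1 := B5Ew_V33 hD1 hk1 hk2 hta htb
  have hV0 := B5Ew_V34 hD0 hk1 hk2 h0a h0b
  obtain ⟨nz1, im1, nA1, ex1, y1, x1⟩ := B5Ew_S35 (h := h) hβ hκ hN hk1 hk2 e1 hD1 hta htb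
  obtain ⟨nz0, im0, nA0, ex0, y0, x0⟩ := B5Ew_S36 (h := h) hβ hκ hN hk1 hk2 e0 hD0 h0a h0b
  obtain ⟨cp2, dp2⟩ := B5Ew_K40 hβ hr hκ hk1 hk2 hh hh1 hh2 hta htb hβ1 hY1 hV1
  obtain ⟨cm1, dm1⟩ := B5Ew_K41 hβ hr hκ hk1 hk2 hh hh1 hh2 hta htb hβ1 hY0 hV0
  obtain ⟨cm2, dm2⟩ := B5Ew_K42 hβ hr hκ hk1 hk2 hh hh1 hh2 hta htb hβ1 hY0 hV0
  have Lp2 := B5Ew_L37 hβ hr hκ hk1 nA0 nA1 y0 x0 y1 x1
  have Lm1 := B5Ew_L38 hβ hr hκ hk1 nA0 nA1 y0 x0 y1 x1
  have Lm2 := B5Ew_L39 hβ hr hκ hk1 nA0 nA1 y0 x0 y1 x1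
  have hm : r * 0.5368 ≤ (Ld β r h t 1 - Ld β r h t 0).im :=
    v5_m 0.7 0.224 0.27 0.0001 0.2072 0.1501 1.118 _ _ 0.5368 hβ hr hκ hk2 im1 im0 y1.1 (by linarith only [y0.2]) (by norm_num) ex1 ex0 (by norm_num) (by norm_num)
  have hr0 : 0 < r := by linarith only [hr]
  refine ⟨nz0, ⟨v5_emax _ cp2 (norm_nonneg _) (by norm_num), v5_emax _ cm1 (norm_nonneg _) (by norm_num), v5_emax _ cm2 (norm_nonneg _) (by norm_num)⟩, ⟨?_, ?_, ?_⟩, hm⟩
  · exact v5_W hr0 dp2 cp2 Lp2 (norm_nonneg _) (norm_nonneg _) (norm_nonneg _) (by norm_num)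
  · exact v5_W hr0 dm1 cm1 Lm1 (norm_nonneg _) (norm_nonneg _) (norm_nonneg _) (by norm_num)
  · exact v5_W hr0 dm2 cm2 Lm2 (norm_nonneg _) (norm_nonneg _) (norm_nonneg _) (by norm_num)

end Sok
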