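import Pool.Agent.Lib.MP_816dec_an.R1V9

/-!
MP_816dec_an (A3, row R1), SINGLE CASE `b = 5`, `r ≥ 10`, `1.25 ≤ κ ≤ 1.33`: the window (generated file).
-/

set_option autoImplicit false
set_option linter.unusedVariables false

open Complex Set Filter Topology Metric

namespace Sok

private theorem B5Kw_B1 {κ t : ℝ} (h : DomR κ t) (hk1 : 1.25 ≤ κ) (hk2 : κ ≤ 1.33) (ht1 : 0.5654 ≤ t + κ) (ht2 : t + κ ≤ 0.6597) :
    (0.248 ≤ sy κ t ∧ sy κ t ≤ 0.285) ∧ (0.8957 ≤ sx κ t ∧ sx κ t ≤ 1.0079) ∧ κ * Real.exp (-sy κ t) ≤ 1.0379 ∧ 2.4474 ≤ sD κ t ∧ sD κ t ≤ 2.5732 := by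
  have hy1 : 0.248 ≤ sy κ t := syR_ge h 1.25 1.33 0.5654 0.248 1.28145 1.28146 0.23894 0.25425 hk1 hk2 (by linarith) (by norm_num) (by norm_num)
    (expn_ge (by norm_num) (by norm_num)) (expn_le (by norm_num) (by norm_num) (by norm_num)) (by norm_num)
    (by norm_num) (by norm_num) (by norm_num) (by norm_num) (by norm_num) (by norm_num)
  have hy2 : sy κ t ≤ 0.285 := syR_le h 1.25 1.33 0.6597 0.285 1.32976 0.2803 0.28494 0.30319 hk1 hk2 (by linarith) (by norm_num) (by norm_num)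
    (expn_ge (by norm_num) (by norm_num)) (by norm_num) (by norm_num) (Or.inr ((mul_le_mul_of_nonneg_left (expn_le (E := 1.32977) (by norm_num) (by norm_num) (by norm_num)) (by norm_num)).trans (by norm_num))) (by norm_num) (by norm_num) (by norm_num)
  have hy1' : 0.248 ≤ sy κ t := by linarith
  have hy2' : sy κ t ≤ 0.285 := by linarith
  have hx1 : 0.8957 ≤ sx κ t := sx_lo h 1.25 0.285 0.2851 0.75201 0.8957 hk1 (by norm_num) hy2' (abs_le.2 ⟨by linarith, by linarith⟩) (ex_lm 0.285 (by norm_num) (by norm_num) (by norm_num) (by norm_num) (by norm_num)) (by norm_num) (by norm_num)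
  have hx2 : sx κ t ≤ 1.0079 := sx_hi h 1.33 0.248 0.248 0.78036 1.0079 hk2 hy1' (by norm_num) (le_trans (by linarith) (le_abs_self _)) (ex_um 0.248 (by norm_num) (by norm_num) (by norm_num) (by norm_num)) (by norm_num) (by norm_num)
  refine ⟨⟨hy1', hy2'⟩, ⟨hx1, hx2⟩, v5_n h 1.33 0.248 0.78036 1.0379 hk2 hy1' (ex_um 0.248 (by norm_num) (by norm_num) (by norm_num) (by norm_num)) (by norm_num), ?_, ?_⟩
  · exact v5_Dlo h 1.25 0.248 0.285 0.248 0.78035 2.4474 (by norm_num) hk1 hy1' hy2' (ex_lm 0.248 (by norm_num) (by norm_num) (by norm_num) (by norm_num) (by norm_num)) (by norm_num) (by norm_num) (by norm_num) (by norm_num)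
  · exact v5_Dup h 1.33 0.248 0.285 0.78036 0.75202 2.5732 hk2 hy1' hy2' (ex_um 0.248 (by norm_num) (by norm_num) (by norm_num) (by norm_num)) (ex_um 0.285 (by norm_num) (by norm_num) (by norm_num) (by norm_num)) (by norm_num) (by norm_num) (by norm_num)

private theorem B5Kw_B2 {κ t : ℝ} (h : DomR κ t) (hk1 : 1.25 ≤ κ) (hk2 : κ ≤ 1.33) (ht1 : (-0.6913) ≤ t + κ) (ht2 : t + κ ≤ (-0.5969)) :
    ((-0.353) ≤ sy κ t ∧ sy κ t ≤ (-0.294)) ∧ (1.6396 ≤ sx κ t ∧ sx κ t ≤ 1.8701) ∧ κ * Real.exp (-sy κ t) ≤ 1.8931 ∧ 3.225 ≤ sD κ t ∧ sD κ t ≤ 3.8777 := by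
  have hy1 : -0.353 ≤ sy κ t := syL_ge h 1.25 1.33 0.6913 0.353 0.70257 0.70258 0.1834 0.18647 0.19841 hk1 hk2 (by linarith) (by norm_num) (by norm_num) (by norm_num)
    (expm_ge (by norm_num) (by norm_num) (by norm_num) (by norm_num)) (expm_le (by norm_num) (by norm_num) (by norm_num)) (by norm_num)
    (by norm_num) (by norm_num) (by norm_num) (by norm_num) (by norm_num) (by norm_num)
  have hy2 : sy κ t ≤ -0.294 := syL_le h 1.25 1.33 0.5969 0.294 0.74527 0.74528 0.16474 0.17529 hk1 hk2 (by linarith) (by norm_num) (by norm_num) (by norm_num)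
    (expm_ge (by norm_num) (by norm_num) (by norm_num) (by norm_num)) (expm_le (by norm_num) (by norm_num) (by norm_num)) (by norm_num)
    (by norm_num) (by norm_num) (by norm_num) (by norm_num) (by norm_num) (by norm_num)
  have hy1' : (-0.353) ≤ sy κ t := by linarith
  have hy2' : sy κ t ≤ (-0.294) := by linarith
  have hx1 : 1.6396 ≤ sx κ t := sx_lo h 1.25 (-0.294) 0.3531 1.34178 1.6396 hk1 (by norm_num) hy2' (abs_le.2 ⟨by linarith, by linarith⟩) (ex_lp 0.294 (by norm_num) (by norm_num) (by norm_num)) (by norm_num) (by norm_num)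
  have hx2 : sx κ t ≤ 1.8701 := sx_hi h 1.33 (-0.353) 0.294 1.42334 1.8701 hk2 hy1' (by norm_num) (le_trans (by linarith) (neg_le_abs _)) (ex_up 0.353 (by norm_num) (by norm_num) (by norm_num) (by norm_num)) (by norm_num) (by norm_num)
  refine ⟨⟨hy1', hy2'⟩, ⟨hx1, hx2⟩, v5_n h 1.33 (-0.353) 1.42334 1.8931 hk2 hy1' (ex_up 0.353 (by norm_num) (by norm_num) (by norm_num) (by norm_num)) (by norm_num), ?_, ?_⟩
  · exact v5_Dlo h 1.25 (-0.353) (-0.294) (-0.294) 1.34178 3.225 (by norm_num) hk1 hy1' hy2' (ex_lp 0.294 (by norm_num) (by norm_num) (by norm_num)) (by norm_num) (by norm_num) (by norm_num) (by norm_num)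
  · exact v5_Dup h 1.33 (-0.353) (-0.294) 1.42334 1.34179 3.8777 hk2 hy1' hy2' (ex_up 0.353 (by norm_num) (by norm_num) (by norm_num) (by norm_num)) (ex_up 0.294 (by norm_num) (by norm_num) (by norm_num) (by norm_num)) (by norm_num) (by norm_num) (by norm_num)

private theorem B5Kw_T3_0_0 {β x y : ℝ} (hβ : 0 < β) (hN : β * 7.518 ≤ 1) (hx1 : 0.6956 ≤ x) (hx2 : x ≤ 0.829)
    (hy1 : -0 ≤ y) (hy2 : y ≤ 0.427) : ‖HH β (x + y * I) - 1‖ ≤ 0.11 := by
  refine le_epsJ (C := 0.8262) (N0 := 7.518) (J_boxp 0.6956 0.829 0 0.427 0.427 1.1998 0.9326 1.6504 0.9776 0.5126 2.7419 7.518 0.7773 2.857 1.42 1.1012 0.5998 0.4444 1.2463 3.5967 0.6493 1.4195 1.1304 1.5561 0.01102 0.03544 0.00008534 0.0000003101 0.007606 0.00002323 0.000204 0.000008317 0.8262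
    hβ hN hx1 hx2 hy1 hy2 (by norm_num) (by norm_num) (by linarith) (by norm_num) (by norm_num) (by norm_num) (by norm_num) (by norm_num) (by norm_num) (by norm_num) (by norm_num) (by norm_num) (by norm_num) (by norm_num) (by norm_num) (by norm_num) (by norm_num) (by norm_num) (by norm_num) (by norm_num) (by norm_num) (by norm_num) (by norm_num) (by norm_num)
    (cube_sqrt_geJ (s := 0.8607) (by norm_num) (by norm_num) (by norm_num) (by norm_num))
    (cube_sqrt_geJ (s := 0.9512) (by norm_num) (by norm_num) (by norm_num) (by norm_num))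
    (by norm_num) (by norm_num) (by norm_num) (by norm_num) (by norm_num) (by norm_num) (by norm_num) (by norm_num) (by norm_num) (by norm_num) (by norm_num) (by norm_num) (by norm_num) (by norm_num) (by norm_num) (by norm_num) (by norm_num) (by norm_num)
    (exp_neg_leJ (r := 0.509) 4 (by norm_num) (by norm_num) (by norm_num) (by norm_num))
    (exp_neg_leJ (r := 0.34) 3 (by norm_num) (by norm_num) (by norm_num) (by norm_num))
    (exp_neg_leJ (r := 0.369) 9 (by norm_num) (by norm_num) (by norm_num) (by norm_num))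
    (exp_neg_leJ (r := 0.99) 14 (by norm_num) (by norm_num) (by norm_num) (by norm_num))
    (exp_neg_leJ (r := 0.881) 4 (by norm_num) (by norm_num) (by norm_num) (by norm_num))
    (exp_neg_leJ (r := 0.671) 10 (by norm_num) (by norm_num) (by norm_num) (by norm_num))
    (exp_neg_leJ (r := 0.498) 8 (by norm_num) (by norm_num) (by norm_num) (by norm_num))
    (exp_neg_leJ (r := 0.698) 11 (by norm_num) (by norm_num) (by norm_num) (by norm_num))
    (by norm_num)) (by norm_num) hN hβ.le (by norm_num)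

private theorem B5Kw_T3_0_1 {β x y : ℝ} (hβ : 0 < β) (hN : β * 7.518 ≤ 1) (hx1 : 0.829 ≤ x) (hx2 : x ≤ 1.006)
    (hy1 : -0 ≤ y) (hy2 : y ≤ 0.427) : ‖HH β (x + y * I) - 1‖ ≤ 0.11 := by
  refine le_epsJ (C := 0.8263) (N0 := 7.518) (J_boxp 0.829 1.006 0 0.427 0.427 1.2937 1.0929 1.746 0.898 0.5272 2.7419 7.518 0.8448 3.183 1.466 1.0331 0.6468 0.4646 1.292 3.4989 0.7141 1.6042 1.3972 1.3872 0.007751 0.03045 0.00006055 0.0000003101 0.004664 0.000005787 0.00002744 0.0000296 0.8263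
    hβ hN hx1 hx2 hy1 hy2 (by norm_num) (by norm_num) (by linarith) (by norm_num) (by norm_num) (by norm_num) (by norm_num) (by norm_num) (by norm_num) (by norm_num) (by norm_num) (by norm_num) (by norm_num) (by norm_num) (by norm_num) (by norm_num) (by norm_num) (by norm_num) (by norm_num) (by norm_num) (by norm_num) (by norm_num) (by norm_num) (by norm_num)
    (cube_sqrt_geJ (s := 0.8475) (by norm_num) (by norm_num) (by norm_num) (by norm_num))
    (cube_sqrt_geJ (s := 0.9468) (by norm_num) (by norm_num) (by norm_num) (by norm_num))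
    (by norm_num) (by norm_num) (by norm_num) (by norm_num) (by norm_num) (by norm_num) (by norm_num) (by norm_num) (by norm_num) (by norm_num) (by norm_num) (by norm_num) (by norm_num) (by norm_num) (by norm_num) (by norm_num) (by norm_num) (by norm_num)
    (exp_neg_leJ (r := 0.862) 4 (by norm_num) (by norm_num) (by norm_num) (by norm_num))
    (exp_neg_leJ (r := 0.492) 3 (by norm_num) (by norm_num) (by norm_num) (by norm_num))
    (exp_neg_leJ (r := 0.713) 9 (by norm_num) (by norm_num) (by norm_num) (by norm_num))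
    (exp_neg_leJ (r := 0.99) 14 (by norm_num) (by norm_num) (by norm_num) (by norm_num))
    (exp_neg_leJ (r := 0.368) 5 (by norm_num) (by norm_num) (by norm_num) (by norm_num))
    (exp_neg_leJ (r := 0.06) 12 (by norm_num) (by norm_num) (by norm_num) (by norm_num))
    (exp_neg_leJ (r := 0.504) 10 (by norm_num) (by norm_num) (by norm_num) (by norm_num))
    (exp_neg_leJ (r := 0.428) 10 (by norm_num) (by norm_num) (by norm_num) (by norm_num))
    (by norm_num)) (by norm_num) hN hβ.le (by norm_num)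

private theorem B5Kw_T3_0_2 {β x y : ℝ} (hβ : 0 < β) (hN : β * 7.518 ≤ 1) (hx1 : 1.006 ≤ x) (hx2 : x ≤ 1.208)
    (hy1 : -0 ≤ y) (hy2 : y ≤ 0.427) : ‖HH β (x + y * I) - 1‖ ≤ 0.11 := by
  refine le_epsJ (C := 0.7992) (N0 := 7.518) (J_boxp 1.006 1.208 0 0.427 0.427 1.4184 1.2813 1.8697 0.8095 0.5456 2.7419 7.518 0.9034 3.505 1.508 0.9555 0.7091 0.4956 1.3526 3.3858 0.8001 1.8493 1.7512 1.229 0.00484 0.02414 0.00003838 0.0000003101 0.002442 0.0000009185 0.000001917 0.00009718 0.7992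
    hβ hN hx1 hx2 hy1 hy2 (by norm_num) (by norm_num) (by linarith) (by norm_num) (by norm_num) (by norm_num) (by norm_num) (by norm_num) (by norm_num) (by norm_num) (by norm_num) (by norm_num) (by norm_num) (by norm_num) (by norm_num) (by norm_num) (by norm_num) (by norm_num) (by norm_num) (by norm_num) (by norm_num) (by norm_num) (by norm_num) (by norm_num)
    (cube_sqrt_geJ (s := 0.8359) (by norm_num) (by norm_num) (by norm_num) (by norm_num))
    (cube_sqrt_geJ (s := 0.943) (by norm_num) (by norm_num) (by norm_num) (by norm_num))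
    (by norm_num) (by norm_num) (by norm_num) (by norm_num) (by norm_num) (by norm_num) (by norm_num) (by norm_num) (by norm_num) (by norm_num) (by norm_num) (by norm_num) (by norm_num) (by norm_num) (by norm_num) (by norm_num) (by norm_num) (by norm_num)
    (exp_neg_leJ (r := 0.331) 5 (by norm_num) (by norm_num) (by norm_num) (by norm_num))
    (exp_neg_leJ (r := 0.725) 3 (by norm_num) (by norm_num) (by norm_num) (by norm_num))
    (exp_neg_leJ (r := 0.168) 10 (by norm_num) (by norm_num) (by norm_num) (by norm_num))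
    (exp_neg_leJ (r := 0.99) 14 (by norm_num) (by norm_num) (by norm_num) (by norm_num))
    (exp_neg_leJ (r := 0.015) 6 (by norm_num) (by norm_num) (by norm_num) (by norm_num))
    (exp_neg_leJ (r := 0.903) 13 (by norm_num) (by norm_num) (by norm_num) (by norm_num))
    (exp_neg_leJ (r := 0.165) 13 (by norm_num) (by norm_num) (by norm_num) (by norm_num))
    (exp_neg_leJ (r := 0.239) 9 (by norm_num) (by norm_num) (by norm_num) (by norm_num))
    (by norm_num)) (by norm_num) hN hβ.le (by norm_num)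

private theorem B5Kw_T3_1_0 {β x y : ℝ} (hβ : 0 < β) (hN : β * 7.518 ≤ 1) (hx1 : 0.6956 ≤ x) (hx2 : x ≤ 0.787)
    (hy1 : -0 ≤ y) (hy2 : y ≤ 0.4851) : ‖HH β (x + y * I) - 1‖ ≤ 0.11 := by
  refine le_epsJ (C := 0.8267) (N0 := 7.518) (J_boxp 0.6956 0.787 0 0.4851 0.4851 1.1998 0.9245 1.6808 0.9865 0.5173 2.7419 7.518 0.7706 2.827 1.415 1.1174 0.5998 0.4458 1.2463 3.6119 0.6434 1.4136 0.8813 1.3043 0.01102 0.03506 0.00008534 0.0000003101 0.007945 0.00002427 0.001328 0.00005526 0.8267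
    hβ hN hx1 hx2 hy1 hy2 (by norm_num) (by norm_num) (by linarith) (by norm_num) (by norm_num) (by norm_num) (by norm_num) (by norm_num) (by norm_num) (by norm_num) (by norm_num) (by norm_num) (by norm_num) (by norm_num) (by norm_num) (by norm_num) (by norm_num) (by norm_num) (by norm_num) (by norm_num) (by norm_num) (by norm_num) (by norm_num) (by norm_num)
    (cube_sqrt_geJ (s := 0.862) (by norm_num) (by norm_num) (by norm_num) (by norm_num))
    (cube_sqrt_geJ (s := 0.9516) (by norm_num) (by norm_num) (by norm_num) (by norm_num))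
    (by norm_num) (by norm_num) (by norm_num) (by norm_num) (by norm_num) (by norm_num) (by norm_num) (by norm_num) (by norm_num) (by norm_num) (by norm_num) (by norm_num) (by norm_num) (by norm_num) (by norm_num) (by norm_num) (by norm_num) (by norm_num)
    (exp_neg_leJ (r := 0.509) 4 (by norm_num) (by norm_num) (by norm_num) (by norm_num))
    (exp_neg_leJ (r := 0.351) 3 (by norm_num) (by norm_num) (by norm_num) (by norm_num))
    (exp_neg_leJ (r := 0.369) 9 (by norm_num) (by norm_num) (by norm_num) (by norm_num))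
    (exp_neg_leJ (r := 0.99) 14 (by norm_num) (by norm_num) (by norm_num) (by norm_num))
    (exp_neg_leJ (r := 0.837) 4 (by norm_num) (by norm_num) (by norm_num) (by norm_num))
    (exp_neg_leJ (r := 0.627) 10 (by norm_num) (by norm_num) (by norm_num) (by norm_num))
    (exp_neg_leJ (r := 0.625) 6 (by norm_num) (by norm_num) (by norm_num) (by norm_num))
    (exp_neg_leJ (r := 0.805) 9 (by norm_num) (by norm_num) (by norm_num) (by norm_num))
    (by norm_num)) (by norm_num) hN hβ.le (by norm_num)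

private theorem B5Kw_T3_1_1 {β x y : ℝ} (hβ : 0 < β) (hN : β * 7.518 ≤ 1) (hx1 : 0.787 ≤ x) (hx2 : x ≤ 0.916)
    (hy1 : -0 ≤ y) (hy2 : y ≤ 0.4851) : ‖HH β (x + y * I) - 1‖ ≤ 0.11 := by
  refine le_epsJ (C := 0.8258) (N0 := 7.518) (J_boxp 0.787 0.916 0 0.4851 0.4851 1.2642 1.0366 1.7449 0.9294 0.527 2.7419 7.518 0.82 3.058 1.449 1.0678 0.632 0.4593 1.2776 3.5418 0.6878 1.5402 1.0641 1.1824 0.008653 0.03166 0.00006749 0.0000003101 0.005685 0.000009364 0.0003401 0.0001383 0.8258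
    hβ hN hx1 hx2 hy1 hy2 (by norm_num) (by norm_num) (by linarith) (by norm_num) (by norm_num) (by norm_num) (by norm_num) (by norm_num) (by norm_num) (by norm_num) (by norm_num) (by norm_num) (by norm_num) (by norm_num) (by norm_num) (by norm_num) (by norm_num) (by norm_num) (by norm_num) (by norm_num) (by norm_num) (by norm_num) (by norm_num) (by norm_num)
    (cube_sqrt_geJ (s := 0.8524) (by norm_num) (by norm_num) (by norm_num) (by norm_num))
    (cube_sqrt_geJ (s := 0.9484) (by norm_num) (by norm_num) (by norm_num) (by norm_num))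
    (by norm_num) (by norm_num) (by norm_num) (by norm_num) (by norm_num) (by norm_num) (by norm_num) (by norm_num) (by norm_num) (by norm_num) (by norm_num) (by norm_num) (by norm_num) (by norm_num) (by norm_num) (by norm_num) (by norm_num) (by norm_num)
    (exp_neg_leJ (r := 0.751) 4 (by norm_num) (by norm_num) (by norm_num) (by norm_num))
    (exp_neg_leJ (r := 0.453) 3 (by norm_num) (by norm_num) (by norm_num) (by norm_num))
    (exp_neg_leJ (r := 0.604) 9 (by norm_num) (by norm_num) (by norm_num) (by norm_num))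
    (exp_neg_leJ (r := 0.99) 14 (by norm_num) (by norm_num) (by norm_num) (by norm_num))
    (exp_neg_leJ (r := 0.17) 5 (by norm_num) (by norm_num) (by norm_num) (by norm_num))
    (exp_neg_leJ (r := 0.579) 11 (by norm_num) (by norm_num) (by norm_num) (by norm_num))
    (exp_neg_leJ (r := 0.99) 7 (by norm_num) (by norm_num) (by norm_num) (by norm_num))
    (exp_neg_leJ (r := 0.889) 8 (by norm_num) (by norm_num) (by norm_num) (by norm_num))
    (by norm_num)) (by norm_num) hN hβ.le (by norm_num)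

private theorem B5Kw_T3_1_2 {β x y : ℝ} (hβ : 0 < β) (hN : β * 7.518 ≤ 1) (hx1 : 0.916 ≤ x) (hx2 : x ≤ 1.085)
    (hy1 : -0 ≤ y) (hy2 : y ≤ 0.4851) : ‖HH β (x + y * I) - 1‖ ≤ 0.11 := by
  refine le_epsJ (C := 0.8258) (N0 := 7.518) (J_boxp 0.916 1.085 0 0.4851 0.4851 1.355 1.1886 1.8393 0.8599 0.5411 2.7419 7.518 0.8772 3.356 1.489 1.0028 0.6774 0.4793 1.3218 3.4487 0.7504 1.7188 1.3221 1.0272 0.006146 0.02726 0.00004849 0.0000003101 0.003552 0.000002453 0.0000484 0.0004434 0.8258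
    hβ hN hx1 hx2 hy1 hy2 (by norm_num) (by norm_num) (by linarith) (by norm_num) (by norm_num) (by norm_num) (by norm_num) (by norm_num) (by norm_num) (by norm_num) (by norm_num) (by norm_num) (by norm_num) (by norm_num) (by norm_num) (by norm_num) (by norm_num) (by norm_num) (by norm_num) (by norm_num) (by norm_num) (by norm_num) (by norm_num) (by norm_num)
    (cube_sqrt_geJ (s := 0.8411) (by norm_num) (by norm_num) (by norm_num) (by norm_num))
    (cube_sqrt_geJ (s := 0.9447) (by norm_num) (by norm_num) (by norm_num) (by norm_num))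
    (by norm_num) (by norm_num) (by norm_num) (by norm_num) (by norm_num) (by norm_num) (by norm_num) (by norm_num) (by norm_num) (by norm_num) (by norm_num) (by norm_num) (by norm_num) (by norm_num) (by norm_num) (by norm_num) (by norm_num) (by norm_num)
    (exp_neg_leJ (r := 0.092) 5 (by norm_num) (by norm_num) (by norm_num) (by norm_num))
    (exp_neg_leJ (r := 0.603) 3 (by norm_num) (by norm_num) (by norm_num) (by norm_num))
    (exp_neg_leJ (r := 0.937) 9 (by norm_num) (by norm_num) (by norm_num) (by norm_num))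
    (exp_neg_leJ (r := 0.99) 14 (by norm_num) (by norm_num) (by norm_num) (by norm_num))
    (exp_neg_leJ (r := 0.641) 5 (by norm_num) (by norm_num) (by norm_num) (by norm_num))
    (exp_neg_leJ (r := 0.921) 12 (by norm_num) (by norm_num) (by norm_num) (by norm_num))
    (exp_neg_leJ (r := 0.939) 9 (by norm_num) (by norm_num) (by norm_num) (by norm_num))
    (exp_neg_leJ (r := 0.722) 7 (by norm_num) (by norm_num) (by norm_num) (by norm_num))
    (by norm_num)) (by norm_num) hN hβ.le (by norm_num)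

private theorem B5Kw_T3_1_3 {β x y : ℝ} (hβ : 0 < β) (hN : β * 7.518 ≤ 1) (hx1 : 1.085 ≤ x) (hx2 : x ≤ 1.208)
    (hy1 : -0 ≤ y) (hy2 : y ≤ 0.4851) : ‖HH β (x + y * I) - 1‖ ≤ 0.11 := by
  refine le_epsJ (C := 0.7067) (N0 := 7.518) (J_boxp 1.085 1.208 0 0.4851 0.4851 1.474 1.3018 1.9144 0.7732 0.552 2.7419 7.518 0.8832 3.39 1.493 0.9555 0.7369 0.52 1.3796 3.3803 0.8325 1.9528 1.6601 1.0575 0.003928 0.02011 0.00003133 0.0000003101 0.001916 0.0000004212 0.000003803 0.0003538 0.7067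
    hβ hN hx1 hx2 hy1 hy2 (by norm_num) (by norm_num) (by linarith) (by norm_num) (by norm_num) (by norm_num) (by norm_num) (by norm_num) (by norm_num) (by norm_num) (by norm_num) (by norm_num) (by norm_num) (by norm_num) (by norm_num) (by norm_num) (by norm_num) (by norm_num) (by norm_num) (by norm_num) (by norm_num) (by norm_num) (by norm_num) (by norm_num)
    (cube_sqrt_geJ (s := 0.8399) (by norm_num) (by norm_num) (by norm_num) (by norm_num))
    (cube_sqrt_geJ (s := 0.9443) (by norm_num) (by norm_num) (by norm_num) (by norm_num))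
    (by norm_num) (by norm_num) (by norm_num) (by norm_num) (by norm_num) (by norm_num) (by norm_num) (by norm_num) (by norm_num) (by norm_num) (by norm_num) (by norm_num) (by norm_num) (by norm_num) (by norm_num) (by norm_num) (by norm_num) (by norm_num)
    (exp_neg_leJ (r := 0.54) 5 (by norm_num) (by norm_num) (by norm_num) (by norm_num))
    (exp_neg_leJ (r := 0.909) 3 (by norm_num) (by norm_num) (by norm_num) (by norm_num))
    (exp_neg_leJ (r := 0.371) 10 (by norm_num) (by norm_num) (by norm_num) (by norm_num))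
    (exp_neg_leJ (r := 0.99) 14 (by norm_num) (by norm_num) (by norm_num) (by norm_num))
    (exp_neg_leJ (r := 0.258) 6 (by norm_num) (by norm_num) (by norm_num) (by norm_num))
    (exp_neg_leJ (r := 0.681) 14 (by norm_num) (by norm_num) (by norm_num) (by norm_num))
    (exp_neg_leJ (r := 0.48) 12 (by norm_num) (by norm_num) (by norm_num) (by norm_num))
    (exp_neg_leJ (r := 0.95) 7 (by norm_num) (by norm_num) (by norm_num) (by norm_num))
    (by norm_num)) (by norm_num) hN hβ.le (by norm_num)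

private theorem B5Kw_T3 {β x y : ℝ} (hβ : 0 < β) (hN : β * 7.518 ≤ 1) (hx1 : 0.6956 ≤ x) (hx2 : x ≤ 1.208)
    (hy1 : 0.0479 ≤ y) (hy2 : y ≤ 0.4851) : ‖HH β (x + y * I) - 1‖ ≤ 0.11 := by
  rcases le_total y 0.427 with hyy | hyy
  · rcases le_total x 0.829 with hxx | hxx
    · exact B5Kw_T3_0_0 hβ hN (by linarith) (by linarith) (by linarith) (by linarith)
    rcases le_total x 1.006 with hxx | hxx
    · exact B5Kw_T3_0_1 hβ hN (by linarith) (by linarith) (by linarith) (by linarith)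
    exact B5Kw_T3_0_2 hβ hN (by linarith) (by linarith) (by linarith) (by linarith)
  rcases le_total x 0.787 with hxx | hxx
  · exact B5Kw_T3_1_0 hβ hN (by linarith) (by linarith) (by linarith) (by linarith)
  rcases le_total x 0.916 with hxx | hxx
  · exact B5Kw_T3_1_1 hβ hN (by linarith) (by linarith) (by linarith) (by linarith)
  rcases le_total x 1.085 with hxx | hxx
  · exact B5Kw_T3_1_2 hβ hN (by linarith) (by linarith) (by linarith) (by linarith)
  exact B5Kw_T3_1_3 hβ hN (by linarith) (by linarith) (by linarith) (by linarith)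

private theorem B5Kw_T4_0_0 {β x y : ℝ} (hβ : 0 < β) (hN : β * 7.518 ≤ 1) (hx1 : 1.4895 ≤ x) (hx2 : x ≤ 1.512)
    (hy1 : -0.5031 ≤ y) (hy2 : y ≤ -0.168) : ‖HH β (x + y * I) - 1‖ ≤ 0.19 := by
  refine le_epsJ (C := 1.4283) (N0 := 7.518) (J_boxp 1.4895 1.512 0.5031 0 (-0.168) 1.4016 1.5936 1.7258 0.7917 0.5241 2.7419 7.518 1.137 5.3 1.691 0.3741 0.7007 0.4351 0.724 1.6288 0.8036 2.5623 3.1821 3.3592 0.00516 0.03797 0.004327 0.00000481 0.00238 0.0000003101 0.0000003101 0.0000003101 1.4283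
    hβ hN hx1 hx2 hy1 hy2 (by norm_num) (by norm_num) (by linarith) (by norm_num) (by norm_num) (by norm_num) (by norm_num) (by norm_num) (by norm_num) (by norm_num) (by norm_num) (by norm_num) (by norm_num) (by norm_num) (by norm_num) (by norm_num) (by norm_num) (by norm_num) (by norm_num) (by norm_num) (by norm_num) (by norm_num) (by norm_num) (by norm_num)
    (cube_sqrt_geJ (s := 0.788) (by norm_num) (by norm_num) (by norm_num) (by norm_num))
    (cube_sqrt_geJ (s := 0.9277) (by norm_num) (by norm_num) (by norm_num) (by norm_num))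
    (by norm_num) (by norm_num) (by norm_num) (by norm_num) (by norm_num) (by norm_num) (by norm_num) (by norm_num) (by norm_num) (by norm_num) (by norm_num) (by norm_num) (by norm_num) (by norm_num) (by norm_num) (by norm_num) (by norm_num) (by norm_num)
    (exp_neg_leJ (r := 0.267) 5 (by norm_num) (by norm_num) (by norm_num) (by norm_num))
    (exp_neg_leJ (r := 0.271) 3 (by norm_num) (by norm_num) (by norm_num) (by norm_num))
    (exp_neg_leJ (r := 0.443) 5 (by norm_num) (by norm_num) (by norm_num) (by norm_num))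
    (exp_neg_leJ (r := 0.245) 12 (by norm_num) (by norm_num) (by norm_num) (by norm_num))
    (exp_neg_leJ (r := 0.041) 6 (by norm_num) (by norm_num) (by norm_num) (by norm_num))
    (exp_neg_leJ (r := 0.99) 14 (by norm_num) (by norm_num) (by norm_num) (by norm_num))
    (exp_neg_leJ (r := 0.99) 14 (by norm_num) (by norm_num) (by norm_num) (by norm_num))
    (exp_neg_leJ (r := 0.99) 14 (by norm_num) (by norm_num) (by norm_num) (by norm_num))
    (by norm_num)) (by norm_num) hN hβ.le (by norm_num)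

private theorem B5Kw_T4_0_1 {β x y : ℝ} (hβ : 0 < β) (hN : β * 7.518 ≤ 1) (hx1 : 1.512 ≤ x) (hx2 : x ≤ 1.539)
    (hy1 : -0.5031 ≤ y) (hy2 : y ≤ -0.168) : ‖HH β (x + y * I) - 1‖ ≤ 0.19 := by
  refine le_epsJ (C := 1.4258) (N0 := 7.518) (J_boxp 1.512 1.539 0.5031 0 (-0.168) 1.4174 1.6192 1.7495 0.7839 0.5277 2.7419 7.518 1.1424 5.354 1.695 0.3637 0.7086 0.4388 0.7317 1.6136 0.8145 2.5935 3.2271 3.3346 0.004859 0.03696 0.004088 0.00000539 0.002192 0.0000003101 0.0000003101 0.0000003101 1.4258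
    hβ hN hx1 hx2 hy1 hy2 (by norm_num) (by norm_num) (by linarith) (by norm_num) (by norm_num) (by norm_num) (by norm_num) (by norm_num) (by norm_num) (by norm_num) (by norm_num) (by norm_num) (by norm_num) (by norm_num) (by norm_num) (by norm_num) (by norm_num) (by norm_num) (by norm_num) (by norm_num) (by norm_num) (by norm_num) (by norm_num) (by norm_num)
    (cube_sqrt_geJ (s := 0.7868) (by norm_num) (by norm_num) (by norm_num) (by norm_num))
    (cube_sqrt_geJ (s := 0.9274) (by norm_num) (by norm_num) (by norm_num) (by norm_num))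
    (by norm_num) (by norm_num) (by norm_num) (by norm_num) (by norm_num) (by norm_num) (by norm_num) (by norm_num) (by norm_num) (by norm_num) (by norm_num) (by norm_num) (by norm_num) (by norm_num) (by norm_num) (by norm_num) (by norm_num) (by norm_num)
    (exp_neg_leJ (r := 0.327) 5 (by norm_num) (by norm_num) (by norm_num) (by norm_num))
    (exp_neg_leJ (r := 0.298) 3 (by norm_num) (by norm_num) (by norm_num) (by norm_num))
    (exp_neg_leJ (r := 0.5) 5 (by norm_num) (by norm_num) (by norm_num) (by norm_num))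
    (exp_neg_leJ (r := 0.131) 12 (by norm_num) (by norm_num) (by norm_num) (by norm_num))
    (exp_neg_leJ (r := 0.123) 6 (by norm_num) (by norm_num) (by norm_num) (by norm_num))
    (exp_neg_leJ (r := 0.99) 14 (by norm_num) (by norm_num) (by norm_num) (by norm_num))
    (exp_neg_leJ (r := 0.99) 14 (by norm_num) (by norm_num) (by norm_num) (by norm_num))
    (exp_neg_leJ (r := 0.99) 14 (by norm_num) (by norm_num) (by norm_num) (by norm_num))
    (by norm_num)) (by norm_num) hN hβ.le (by norm_num)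

private theorem B5Kw_T4_0_2 {β x y : ℝ} (hβ : 0 < β) (hN : β * 7.518 ≤ 1) (hx1 : 1.539 ≤ x) (hx2 : x ≤ 1.573)
    (hy1 : -0.5031 ≤ y) (hy2 : y ≤ -0.168) : ‖HH β (x + y * I) - 1‖ ≤ 0.19 := by
  refine le_epsJ (C := 1.4268) (N0 := 7.518) (J_boxp 1.539 1.573 0.5031 0 (-0.168) 1.4365 1.6515 1.7795 0.7749 0.5322 2.7419 7.518 1.1497 5.428 1.701 0.3507 0.7182 0.4429 0.7409 1.5944 0.8277 2.6309 3.2811 3.3008 0.004522 0.03584 0.003812 0.000006253 0.001986 0.0000003101 0.0000003101 0.0000003101 1.4268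
    hβ hN hx1 hx2 hy1 hy2 (by norm_num) (by norm_num) (by linarith) (by norm_num) (by norm_num) (by norm_num) (by norm_num) (by norm_num) (by norm_num) (by norm_num) (by norm_num) (by norm_num) (by norm_num) (by norm_num) (by norm_num) (by norm_num) (by norm_num) (by norm_num) (by norm_num) (by norm_num) (by norm_num) (by norm_num) (by norm_num) (by norm_num)
    (cube_sqrt_geJ (s := 0.7853) (by norm_num) (by norm_num) (by norm_num) (by norm_num))
    (cube_sqrt_geJ (s := 0.9269) (by norm_num) (by norm_num) (by norm_num) (by norm_num))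
    (by norm_num) (by norm_num) (by norm_num) (by norm_num) (by norm_num) (by norm_num) (by norm_num) (by norm_num) (by norm_num) (by norm_num) (by norm_num) (by norm_num) (by norm_num) (by norm_num) (by norm_num) (by norm_num) (by norm_num) (by norm_num)
    (exp_neg_leJ (r := 0.399) 5 (by norm_num) (by norm_num) (by norm_num) (by norm_num))
    (exp_neg_leJ (r := 0.329) 3 (by norm_num) (by norm_num) (by norm_num) (by norm_num))
    (exp_neg_leJ (r := 0.57) 5 (by norm_num) (by norm_num) (by norm_num) (by norm_num))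
    (exp_neg_leJ (r := 0.986) 11 (by norm_num) (by norm_num) (by norm_num) (by norm_num))
    (exp_neg_leJ (r := 0.222) 6 (by norm_num) (by norm_num) (by norm_num) (by norm_num))
    (exp_neg_leJ (r := 0.99) 14 (by norm_num) (by norm_num) (by norm_num) (by norm_num))
    (exp_neg_leJ (r := 0.99) 14 (by norm_num) (by norm_num) (by norm_num) (by norm_num))
    (exp_neg_leJ (r := 0.99) 14 (by norm_num) (by norm_num) (by norm_num) (by norm_num))
    (by norm_num)) (by norm_num) hN hβ.le (by norm_num)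

private theorem B5Kw_T4_0_3 {β x y : ℝ} (hβ : 0 < β) (hN : β * 7.518 ≤ 1) (hx1 : 1.573 ≤ x) (hx2 : x ≤ 1.615)
    (hy1 : -0.5031 ≤ y) (hy2 : y ≤ -0.168) : ‖HH β (x + y * I) - 1‖ ≤ 0.19 := by
  refine le_epsJ (C := 1.4271) (N0 := 7.518) (J_boxp 1.573 1.615 0.5031 0 (-0.168) 1.4604 1.6916 1.8168 0.7638 0.5378 2.7419 7.518 1.1584 5.519 1.709 0.3345 0.7301 0.4482 0.7526 1.5706 0.8442 2.6779 3.3491 3.2598 0.004137 0.03443 0.003492 0.000007464 0.001754 0.0000003101 0.0000003101 0.0000003101 1.4271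
    hβ hN hx1 hx2 hy1 hy2 (by norm_num) (by norm_num) (by linarith) (by norm_num) (by norm_num) (by norm_num) (by norm_num) (by norm_num) (by norm_num) (by norm_num) (by norm_num) (by norm_num) (by norm_num) (by norm_num) (by norm_num) (by norm_num) (by norm_num) (by norm_num) (by norm_num) (by norm_num) (by norm_num) (by norm_num) (by norm_num) (by norm_num)
    (cube_sqrt_geJ (s := 0.7834) (by norm_num) (by norm_num) (by norm_num) (by norm_num))
    (cube_sqrt_geJ (s := 0.9263) (by norm_num) (by norm_num) (by norm_num) (by norm_num))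
    (by norm_num) (by norm_num) (by norm_num) (by norm_num) (by norm_num) (by norm_num) (by norm_num) (by norm_num) (by norm_num) (by norm_num) (by norm_num) (by norm_num) (by norm_num) (by norm_num) (by norm_num) (by norm_num) (by norm_num) (by norm_num)
    (exp_neg_leJ (r := 0.488) 5 (by norm_num) (by norm_num) (by norm_num) (by norm_num))
    (exp_neg_leJ (r := 0.369) 3 (by norm_num) (by norm_num) (by norm_num) (by norm_num))
    (exp_neg_leJ (r := 0.658) 5 (by norm_num) (by norm_num) (by norm_num) (by norm_num))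
    (exp_neg_leJ (r := 0.807) 11 (by norm_num) (by norm_num) (by norm_num) (by norm_num))
    (exp_neg_leJ (r := 0.346) 6 (by norm_num) (by norm_num) (by norm_num) (by norm_num))
    (exp_neg_leJ (r := 0.99) 14 (by norm_num) (by norm_num) (by norm_num) (by norm_num))
    (exp_neg_leJ (r := 0.99) 14 (by norm_num) (by norm_num) (by norm_num) (by norm_num))
    (exp_neg_leJ (r := 0.99) 14 (by norm_num) (by norm_num) (by norm_num) (by norm_num))
    (by norm_num)) (by norm_num) hN hβ.le (by norm_num)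

private theorem B5Kw_T4_0_4 {β x y : ℝ} (hβ : 0 < β) (hN : β * 7.518 ≤ 1) (hx1 : 1.615 ≤ x) (hx2 : x ≤ 1.667)
    (hy1 : -0.5031 ≤ y) (hy2 : y ≤ -0.168) : ‖HH β (x + y * I) - 1‖ ≤ 0.19 := by
  refine le_epsJ (C := 1.4269) (N0 := 7.518) (J_boxp 1.615 1.667 0.5031 0 (-0.168) 1.49 1.7413 1.8631 0.7505 0.5446 2.7419 7.518 1.1687 5.627 1.718 0.3145 0.7449 0.4547 0.7669 1.5412 0.8646 2.7361 3.4331 3.2087 0.0037 0.03279 0.00314 0.000009299 0.001504 0.0000003101 0.0000003101 0.0000003101 1.4269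
    hβ hN hx1 hx2 hy1 hy2 (by norm_num) (by norm_num) (by linarith) (by norm_num) (by norm_num) (by norm_num) (by norm_num) (by norm_num) (by norm_num) (by norm_num) (by norm_num) (by norm_num) (by norm_num) (by norm_num) (by norm_num) (by norm_num) (by norm_num) (by norm_num) (by norm_num) (by norm_num) (by norm_num) (by norm_num) (by norm_num) (by norm_num)
    (cube_sqrt_geJ (s := 0.7813) (by norm_num) (by norm_num) (by norm_num) (by norm_num))
    (cube_sqrt_geJ (s := 0.9256) (by norm_num) (by norm_num) (by norm_num) (by norm_num))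
    (by norm_num) (by norm_num) (by norm_num) (by norm_num) (by norm_num) (by norm_num) (by norm_num) (by norm_num) (by norm_num) (by norm_num) (by norm_num) (by norm_num) (by norm_num) (by norm_num) (by norm_num) (by norm_num) (by norm_num) (by norm_num)
    (exp_neg_leJ (r := 0.6) 5 (by norm_num) (by norm_num) (by norm_num) (by norm_num))
    (exp_neg_leJ (r := 0.418) 3 (by norm_num) (by norm_num) (by norm_num) (by norm_num))
    (exp_neg_leJ (r := 0.765) 5 (by norm_num) (by norm_num) (by norm_num) (by norm_num))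
    (exp_neg_leJ (r := 0.586) 11 (by norm_num) (by norm_num) (by norm_num) (by norm_num))
    (exp_neg_leJ (r := 0.5) 6 (by norm_num) (by norm_num) (by norm_num) (by norm_num))
    (exp_neg_leJ (r := 0.99) 14 (by norm_num) (by norm_num) (by norm_num) (by norm_num))
    (exp_neg_leJ (r := 0.99) 14 (by norm_num) (by norm_num) (by norm_num) (by norm_num))
    (exp_neg_leJ (r := 0.99) 14 (by norm_num) (by norm_num) (by norm_num) (by norm_num))
    (by norm_num)) (by norm_num) hN hβ.le (by norm_num)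

private theorem B5Kw_T4_0_5 {β x y : ℝ} (hβ : 0 < β) (hN : β * 7.518 ≤ 1) (hx1 : 1.667 ≤ x) (hx2 : x ≤ 1.731)
    (hy1 : -0.5031 ≤ y) (hy2 : y ≤ -0.168) : ‖HH β (x + y * I) - 1‖ ≤ 0.19 := by
  refine le_epsJ (C := 1.4267) (N0 := 7.518) (J_boxp 1.667 1.731 0.5031 0 (-0.168) 1.5266 1.8027 1.9206 0.7348 0.5529 2.7419 7.518 1.1809 5.761 1.728 0.2899 0.7632 0.4628 0.7847 1.5049 0.8898 2.8081 3.5371 3.1458 0.003228 0.03085 0.002749 0.00001222 0.001246 0.0000003101 0.0000003101 0.0000003101 1.4267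
    hβ hN hx1 hx2 hy1 hy2 (by norm_num) (by norm_num) (by linarith) (by norm_num) (by norm_num) (by norm_num) (by norm_num) (by norm_num) (by norm_num) (by norm_num) (by norm_num) (by norm_num) (by norm_num) (by norm_num) (by norm_num) (by norm_num) (by norm_num) (by norm_num) (by norm_num) (by norm_num) (by norm_num) (by norm_num) (by norm_num) (by norm_num)
    (cube_sqrt_geJ (s := 0.7786) (by norm_num) (by norm_num) (by norm_num) (by norm_num))
    (cube_sqrt_geJ (s := 0.9248) (by norm_num) (by norm_num) (by norm_num) (by norm_num))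
    (by norm_num) (by norm_num) (by norm_num) (by norm_num) (by norm_num) (by norm_num) (by norm_num) (by norm_num) (by norm_num) (by norm_num) (by norm_num) (by norm_num) (by norm_num) (by norm_num) (by norm_num) (by norm_num) (by norm_num) (by norm_num)
    (exp_neg_leJ (r := 0.737) 5 (by norm_num) (by norm_num) (by norm_num) (by norm_num))
    (exp_neg_leJ (r := 0.479) 3 (by norm_num) (by norm_num) (by norm_num) (by norm_num))
    (exp_neg_leJ (r := 0.899) 5 (by norm_num) (by norm_num) (by norm_num) (by norm_num))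
    (exp_neg_leJ (r := 0.313) 11 (by norm_num) (by norm_num) (by norm_num) (by norm_num))
    (exp_neg_leJ (r := 0.689) 6 (by norm_num) (by norm_num) (by norm_num) (by norm_num))
    (exp_neg_leJ (r := 0.99) 14 (by norm_num) (by norm_num) (by norm_num) (by norm_num))
    (exp_neg_leJ (r := 0.99) 14 (by norm_num) (by norm_num) (by norm_num) (by norm_num))
    (exp_neg_leJ (r := 0.99) 14 (by norm_num) (by norm_num) (by norm_num) (by norm_num))
    (by norm_num)) (by norm_num) hN hβ.le (by norm_num)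

private theorem B5Kw_T4_0_6 {β x y : ℝ} (hβ : 0 < β) (hN : β * 7.518 ≤ 1) (hx1 : 1.731 ≤ x) (hx2 : x ≤ 1.81)
    (hy1 : -0.5031 ≤ y) (hy2 : y ≤ -0.168) : ‖HH β (x + y * I) - 1‖ ≤ 0.19 := by
  refine le_epsJ (C := 1.4279) (N0 := 7.518) (J_boxp 1.731 1.81 0.5031 0 (-0.168) 1.5716 1.8787 1.9921 0.7164 0.5631 2.7419 7.518 1.1955 5.926 1.741 0.2595 0.7857 0.4726 0.8066 1.46 0.9209 2.8967 3.6651 3.0672 0.00273 0.02865 0.002326 0.00001717 0.0009875 0.0000003101 0.0000003101 0.0000003101 1.4279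
    hβ hN hx1 hx2 hy1 hy2 (by norm_num) (by norm_num) (by linarith) (by norm_num) (by norm_num) (by norm_num) (by norm_num) (by norm_num) (by norm_num) (by norm_num) (by norm_num) (by norm_num) (by norm_num) (by norm_num) (by norm_num) (by norm_num) (by norm_num) (by norm_num) (by norm_num) (by norm_num) (by norm_num) (by norm_num) (by norm_num) (by norm_num)
    (cube_sqrt_geJ (s := 0.7755) (by norm_num) (by norm_num) (by norm_num) (by norm_num))
    (cube_sqrt_geJ (s := 0.9239) (by norm_num) (by norm_num) (by norm_num) (by norm_num))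
    (by norm_num) (by norm_num) (by norm_num) (by norm_num) (by norm_num) (by norm_num) (by norm_num) (by norm_num) (by norm_num) (by norm_num) (by norm_num) (by norm_num) (by norm_num) (by norm_num) (by norm_num) (by norm_num) (by norm_num) (by norm_num)
    (exp_neg_leJ (r := 0.906) 5 (by norm_num) (by norm_num) (by norm_num) (by norm_num))
    (exp_neg_leJ (r := 0.553) 3 (by norm_num) (by norm_num) (by norm_num) (by norm_num))
    (exp_neg_leJ (r := 0.064) 6 (by norm_num) (by norm_num) (by norm_num) (by norm_num))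
    (exp_neg_leJ (r := 0.976) 10 (by norm_num) (by norm_num) (by norm_num) (by norm_num))
    (exp_neg_leJ (r := 0.923) 6 (by norm_num) (by norm_num) (by norm_num) (by norm_num))
    (exp_neg_leJ (r := 0.99) 14 (by norm_num) (by norm_num) (by norm_num) (by norm_num))
    (exp_neg_leJ (r := 0.99) 14 (by norm_num) (by norm_num) (by norm_num) (by norm_num))
    (exp_neg_leJ (r := 0.99) 14 (by norm_num) (by norm_num) (by norm_num) (by norm_num))
    (by norm_num)) (by norm_num) hN hβ.le (by norm_num)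

private theorem B5Kw_T4_0_7 {β x y : ℝ} (hβ : 0 < β) (hN : β * 7.518 ≤ 1) (hx1 : 1.81 ≤ x) (hx2 : x ≤ 1.907)
    (hy1 : -0.5031 ≤ y) (hy2 : y ≤ -0.168) : ‖HH β (x + y * I) - 1‖ ≤ 0.19 := by
  refine le_epsJ (C := 1.4275) (N0 := 7.518) (J_boxp 1.81 1.907 0.5031 0 (-0.168) 1.6273 1.9723 2.0806 0.6949 0.5755 2.7419 7.518 1.2121 6.121 1.755 0.2222 0.8136 0.4849 0.8337 1.4049 0.9593 3.0061 3.8231 2.9707 0.002208 0.02614 0.001898 0.00002589 0.0007377 0.0000003101 0.0000003101 0.0000003101 1.4275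
    hβ hN hx1 hx2 hy1 hy2 (by norm_num) (by norm_num) (by linarith) (by norm_num) (by norm_num) (by norm_num) (by norm_num) (by norm_num) (by norm_num) (by norm_num) (by norm_num) (by norm_num) (by norm_num) (by norm_num) (by norm_num) (by norm_num) (by norm_num) (by norm_num) (by norm_num) (by norm_num) (by norm_num) (by norm_num) (by norm_num) (by norm_num)
    (cube_sqrt_geJ (s := 0.7719) (by norm_num) (by norm_num) (by norm_num) (by norm_num))
    (cube_sqrt_geJ (s := 0.9228) (by norm_num) (by norm_num) (by norm_num) (by norm_num))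
    (by norm_num) (by norm_num) (by norm_num) (by norm_num) (by norm_num) (by norm_num) (by norm_num) (by norm_num) (by norm_num) (by norm_num) (by norm_num) (by norm_num) (by norm_num) (by norm_num) (by norm_num) (by norm_num) (by norm_num) (by norm_num)
    (exp_neg_leJ (r := 0.116) 6 (by norm_num) (by norm_num) (by norm_num) (by norm_num))
    (exp_neg_leJ (r := 0.645) 3 (by norm_num) (by norm_num) (by norm_num) (by norm_num))
    (exp_neg_leJ (r := 0.267) 6 (by norm_num) (by norm_num) (by norm_num) (by norm_num))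
    (exp_neg_leJ (r := 0.562) 10 (by norm_num) (by norm_num) (by norm_num) (by norm_num))
    (exp_neg_leJ (r := 0.212) 7 (by norm_num) (by norm_num) (by norm_num) (by norm_num))
    (exp_neg_leJ (r := 0.99) 14 (by norm_num) (by norm_num) (by norm_num) (by norm_num))
    (exp_neg_leJ (r := 0.99) 14 (by norm_num) (by norm_num) (by norm_num) (by norm_num))
    (exp_neg_leJ (r := 0.99) 14 (by norm_num) (by norm_num) (by norm_num) (by norm_num))
    (by norm_num)) (by norm_num) hN hβ.le (by norm_num)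

private theorem B5Kw_T4_0_8 {β x y : ℝ} (hβ : 0 < β) (hN : β * 7.518 ≤ 1) (hx1 : 1.907 ≤ x) (hx2 : x ≤ 2.0202)
    (hy1 : -0.5031 ≤ y) (hy2 : y ≤ -0.168) : ‖HH β (x + y * I) - 1‖ ≤ 0.19 := by
  refine le_epsJ (C := 1.4136) (N0 := 7.518) (J_boxp 1.907 2.0202 0.5031 0 (-0.168) 1.6956 2.082 2.1849 0.6695 0.5897 2.7419 7.518 1.2279 6.314 1.769 0.1787 0.8477 0.5007 0.8669 1.3404 1.0064 3.1404 4.0171 2.8665 0.001708 0.02322 0.001479 0.00004204 0.000518 0.0000003101 0.0000003101 0.0000003101 1.4136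
    hβ hN hx1 hx2 hy1 hy2 (by norm_num) (by norm_num) (by linarith) (by norm_num) (by norm_num) (by norm_num) (by norm_num) (by norm_num) (by norm_num) (by norm_num) (by norm_num) (by norm_num) (by norm_num) (by norm_num) (by norm_num) (by norm_num) (by norm_num) (by norm_num) (by norm_num) (by norm_num) (by norm_num) (by norm_num) (by norm_num) (by norm_num)
    (cube_sqrt_geJ (s := 0.7685) (by norm_num) (by norm_num) (by norm_num) (by norm_num))
    (cube_sqrt_geJ (s := 0.9217) (by norm_num) (by norm_num) (by norm_num) (by norm_num))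
    (by norm_num) (by norm_num) (by norm_num) (by norm_num) (by norm_num) (by norm_num) (by norm_num) (by norm_num) (by norm_num) (by norm_num) (by norm_num) (by norm_num) (by norm_num) (by norm_num) (by norm_num) (by norm_num) (by norm_num) (by norm_num)
    (exp_neg_leJ (r := 0.373) 6 (by norm_num) (by norm_num) (by norm_num) (by norm_num))
    (exp_neg_leJ (r := 0.764) 3 (by norm_num) (by norm_num) (by norm_num) (by norm_num))
    (exp_neg_leJ (r := 0.517) 6 (by norm_num) (by norm_num) (by norm_num) (by norm_num))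
    (exp_neg_leJ (r := 0.077) 10 (by norm_num) (by norm_num) (by norm_num) (by norm_num))
    (exp_neg_leJ (r := 0.566) 7 (by norm_num) (by norm_num) (by norm_num) (by norm_num))
    (exp_neg_leJ (r := 0.99) 14 (by norm_num) (by norm_num) (by norm_num) (by norm_num))
    (exp_neg_leJ (r := 0.99) 14 (by norm_num) (by norm_num) (by norm_num) (by norm_num))
    (exp_neg_leJ (r := 0.99) 14 (by norm_num) (by norm_num) (by norm_num) (by norm_num))
    (by norm_num)) (by norm_num) hN hβ.le (by norm_num)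

private theorem B5Kw_T4_1_0 {β x y : ℝ} (hβ : 0 < β) (hN : β * 7.518 ≤ 1) (hx1 : 1.4895 ≤ x) (hx2 : x ≤ 1.983)
    (hy1 : -0.168 ≤ y) (hy2 : y ≤ -0.1439) : ‖HH β (x + y * I) - 1‖ ≤ 0.19 := by
  refine le_epsJ (C := 1.4276) (N0 := 7.518) (J_boxp 1.4895 1.983 0.168 0 (-0.1439) 1.6395 1.9902 2.16 0.7001 0.5864 2.7419 7.518 1.214 6.144 1.757 0.5023 0.8197 0.488 1.2529 2.4283 0.9867 2.5623 4.093 2.2811 0.002109 0.02555 0.00008118 0.0000003101 0.0006004 0.0000003101 0.0000003101 0.0000003101 1.4276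
    hβ hN hx1 hx2 hy1 hy2 (by norm_num) (by norm_num) (by linarith) (by norm_num) (by norm_num) (by norm_num) (by norm_num) (by norm_num) (by norm_num) (by norm_num) (by norm_num) (by norm_num) (by norm_num) (by norm_num) (by norm_num) (by norm_num) (by norm_num) (by norm_num) (by norm_num) (by norm_num) (by norm_num) (by norm_num) (by norm_num) (by norm_num)
    (cube_sqrt_geJ (s := 0.7715) (by norm_num) (by norm_num) (by norm_num) (by norm_num))
    (cube_sqrt_geJ (s := 0.9226) (by norm_num) (by norm_num) (by norm_num) (by norm_num))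
    (by norm_num) (by norm_num) (by norm_num) (by norm_num) (by norm_num) (by norm_num) (by norm_num) (by norm_num) (by norm_num) (by norm_num) (by norm_num) (by norm_num) (by norm_num) (by norm_num) (by norm_num) (by norm_num) (by norm_num) (by norm_num)
    (exp_neg_leJ (r := 0.162) 6 (by norm_num) (by norm_num) (by norm_num) (by norm_num))
    (exp_neg_leJ (r := 0.668) 3 (by norm_num) (by norm_num) (by norm_num) (by norm_num))
    (exp_neg_leJ (r := 0.419) 9 (by norm_num) (by norm_num) (by norm_num) (by norm_num))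
    (exp_neg_leJ (r := 0.99) 14 (by norm_num) (by norm_num) (by norm_num) (by norm_num))
    (exp_neg_leJ (r := 0.418) 7 (by norm_num) (by norm_num) (by norm_num) (by norm_num))
    (exp_neg_leJ (r := 0.99) 14 (by norm_num) (by norm_num) (by norm_num) (by norm_num))
    (exp_neg_leJ (r := 0.99) 14 (by norm_num) (by norm_num) (by norm_num) (by norm_num))
    (exp_neg_leJ (r := 0.99) 14 (by norm_num) (by norm_num) (by norm_num) (by norm_num))
    (by norm_num)) (by norm_num) hN hβ.le (by norm_num)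

private theorem B5Kw_T4_1_1 {β x y : ℝ} (hβ : 0 < β) (hN : β * 7.518 ≤ 1) (hx1 : 1.983 ≤ x) (hx2 : x ≤ 2.0202)
    (hy1 : -0.168 ≤ y) (hy2 : y ≤ -0.1439) : ‖HH β (x + y * I) - 1‖ ≤ 0.19 := by
  refine le_epsJ (C := 0.5912) (N0 := 7.518) (J_boxp 1.983 2.0202 0.168 0 (-0.1439) 1.987 2.0272 2.1942 0.5289 0.591 2.7419 7.518 1.0203 4.284 1.596 0.488 0.9934 0.6556 1.4218 2.4069 1.2264 3.2456 5.08 3.1675 0.0005712 0.007261 0.00002282 0.0000003101 0.00009905 0.0000003101 0.0000003101 0.0000003101 0.5912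
    hβ hN hx1 hx2 hy1 hy2 (by norm_num) (by norm_num) (by linarith) (by norm_num) (by norm_num) (by norm_num) (by norm_num) (by norm_num) (by norm_num) (by norm_num) (by norm_num) (by norm_num) (by norm_num) (by norm_num) (by norm_num) (by norm_num) (by norm_num) (by norm_num) (by norm_num) (by norm_num) (by norm_num) (by norm_num) (by norm_num) (by norm_num)
    (cube_sqrt_geJ (s := 0.8123) (by norm_num) (by norm_num) (by norm_num) (by norm_num))
    (cube_sqrt_geJ (s := 0.9354) (by norm_num) (by norm_num) (by norm_num) (by norm_num))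
    (by norm_num) (by norm_num) (by norm_num) (by norm_num) (by norm_num) (by norm_num) (by norm_num) (by norm_num) (by norm_num) (by norm_num) (by norm_num) (by norm_num) (by norm_num) (by norm_num) (by norm_num) (by norm_num) (by norm_num) (by norm_num)
    (exp_neg_leJ (r := 0.468) 7 (by norm_num) (by norm_num) (by norm_num) (by norm_num))
    (exp_neg_leJ (r := 0.928) 4 (by norm_num) (by norm_num) (by norm_num) (by norm_num))
    (exp_neg_leJ (r := 0.689) 10 (by norm_num) (by norm_num) (by norm_num) (by norm_num))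
    (exp_neg_leJ (r := 0.99) 14 (by norm_num) (by norm_num) (by norm_num) (by norm_num))
    (exp_neg_leJ (r := 0.22) 9 (by norm_num) (by norm_num) (by norm_num) (by norm_num))
    (exp_neg_leJ (r := 0.99) 14 (by norm_num) (by norm_num) (by norm_num) (by norm_num))
    (exp_neg_leJ (r := 0.99) 14 (by norm_num) (by norm_num) (by norm_num) (by norm_num))
    (exp_neg_leJ (r := 0.99) 14 (by norm_num) (by norm_num) (by norm_num) (by norm_num))
    (by norm_num)) (by norm_num) hN hβ.le (by norm_num)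

private theorem B5Kw_T4 {β x y : ℝ} (hβ : 0 < β) (hN : β * 7.518 ≤ 1) (hx1 : 1.4895 ≤ x) (hx2 : x ≤ 2.0202)
    (hy1 : (-0.5031) ≤ y) (hy2 : y ≤ (-0.1439)) : ‖HH β (x + y * I) - 1‖ ≤ 0.19 := by
  rcases le_total y (-0.168) with hyy | hyy
  · rcases le_total x 1.512 with hxx | hxx
    · exact B5Kw_T4_0_0 hβ hN (by linarith) (by linarith) (by linarith) (by linarith)
    rcases le_total x 1.539 with hxx | hxx
    · exact B5Kw_T4_0_1 hβ hN (by linarith) (by linarith) (by linarith) (by linarith)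
    rcases le_total x 1.573 with hxx | hxx
    · exact B5Kw_T4_0_2 hβ hN (by linarith) (by linarith) (by linarith) (by linarith)
    rcases le_total x 1.615 with hxx | hxx
    · exact B5Kw_T4_0_3 hβ hN (by linarith) (by linarith) (by linarith) (by linarith)
    rcases le_total x 1.667 with hxx | hxx
    · exact B5Kw_T4_0_4 hβ hN (by linarith) (by linarith) (by linarith) (by linarith)
    rcases le_total x 1.731 with hxx | hxx
    · exact B5Kw_T4_0_5 hβ hN (by linarith) (by linarith) (by linarith) (by linarith)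
    rcases le_total x 1.81 with hxx | hxx
    · exact B5Kw_T4_0_6 hβ hN (by linarith) (by linarith) (by linarith) (by linarith)
    rcases le_total x 1.907 with hxx | hxx
    · exact B5Kw_T4_0_7 hβ hN (by linarith) (by linarith) (by linarith) (by linarith)
    exact B5Kw_T4_0_8 hβ hN (by linarith) (by linarith) (by linarith) (by linarith)
  rcases le_total x 1.983 with hxx | hxx
  · exact B5Kw_T4_1_0 hβ hN (by linarith) (by linarith) (by linarith) (by linarith)
  exact B5Kw_T4_1_1 hβ hN (by linarith) (by linarith) (by linarith) (by linarith)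

private theorem B5Kw_G5 {κ : ℝ} (hk1 : 1.25 ≤ κ) (hk2 : κ ≤ 1.33) : gG κ 0.41 ≤ 1.27904 ∧ 0.336 ≤ Real.exp (-(κ * 0.41)) ^ 2 := by
  refine ⟨gG_le 0.41 1.25 1.33 1.27904 0.599 0.57967 1.66946 1.72513 hk1 hk2 (by norm_num)
    (ex_um 0.5125 (by norm_num) (by norm_num) (by norm_num) (by norm_num)) (ex_um 0.5453 (by norm_num) (by norm_num) (by norm_num) (by norm_num))
    (ex_up 0.5125 (by norm_num) (by norm_num) (by norm_num) (by norm_num)) (ex_up 0.5453 (by norm_num) (by norm_num) (by norm_num) (by norm_num))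
    (by norm_num) (by norm_num), ?_⟩
  exact v5_M 0.57966 (ex_lm 0.5453 (by linarith) (by norm_num) (by norm_num) (by norm_num) (by norm_num)) (by norm_num) (by norm_num)

private theorem B5Kw_C6 {β r t κ : ℝ} (hβ : 0 < β) (hr : 10 ≤ r) (hκ : κ = β * r) (hk1 : 1.25 ≤ κ) (hk2 : κ ≤ 1.33) (hta : 1.822 ≤ t + κ)
    (htb : t + κ ≤ 2.0494) : ‖F (cexp (I * β)) (r * cexp (I * ((t + β / 2 : ℝ) : ℂ)))‖ ≤
      1.7894 * Real.exp (r * (1.27904 - 0.41 * (t + κ))) + 0.2161 * Real.exp (r * 0) :=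
  v5_H 0.41 1.25 1.33 1.822 2.0494 1.27904 1.7114 0.336 0.1455 2.0626 0.7712 0.08971 0.4133 0.0000396 1.7894 0.2161 hβ hr hκ (by norm_num) hk1 hk2 hta htb (by norm_num) (B5Kw_G5 hk1 hk2).1 (B5Kw_G5 hk1 hk2).2 (by norm_num) (by norm_num) (by norm_num)
    (by norm_num) (by norm_num) (by norm_num) (by norm_num) (by norm_num) (by norm_num) (by norm_num) (by norm_num) (ex_un 0 0.897 (by norm_num) (by norm_num) (by norm_num) (by norm_num))
    (v5_hump 1.3772 7.518 2.7419 0.0000319 0.0000396 hβ hr hκ hk1 hk2 (by norm_num) htb (by norm_num) (by norm_num) (by norm_num) (by norm_num) (by norm_num) (by norm_num) (by norm_num) (ex_un 10 0.3537 (by norm_num) (by norm_num) (by norm_num) (by norm_num)) (by norm_num)) (by norm_num) (by norm_num)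

private theorem B5Kw_G7 {κ : ℝ} (hk1 : 1.25 ≤ κ) (hk2 : κ ≤ 1.33) : gG κ (-0.62) ≤ 1.5412 ∧ 4.71128 ≤ Real.exp (-(κ * (-0.62))) ^ 2 := by
  refine ⟨gG_le (-0.62) 1.25 1.33 1.5412 2.1706 2.28097 0.46072 0.43843 hk1 hk2 (by norm_num)
    (ex_up 0.775 (by norm_num) (by norm_num) (by norm_num) (by norm_num)) (ex_up 0.8246 (by norm_num) (by norm_num) (by norm_num) (by norm_num))
    (ex_um 0.775 (by norm_num) (by norm_num) (by norm_num) (by norm_num)) (ex_um 0.8246 (by norm_num) (by norm_num) (by norm_num) (by norm_num))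
    (by norm_num) (by norm_num), ?_⟩
  exact v5_M 2.17055 (ex_lp 0.775 (by linarith) (by norm_num) (by norm_num)) (by norm_num) (by norm_num)

private theorem B5Kw_C8 {β r t κ : ℝ} (hβ : 0 < β) (hr : 10 ≤ r) (hκ : κ = β * r) (hk1 : 1.25 ≤ κ) (hk2 : κ ≤ 1.33) (hta : (-1.9479) ≤ t + κ)
    (htb : t + κ ≤ (-1.7205)) : ‖F (cexp (I * β)) (r * cexp (I * ((t + β / 2 : ℝ) : ℂ)))‖ ≤
      0.7596 * Real.exp (r * (1.5412 - (-0.62) * (t + κ))) + 1.711 * Real.exp (r * 0.0501) :=
  v5_HU (-0.62) 1.25 1.33 (-1.9479) (-1.7205) 1.5412 0.7596 4.71128 0.1455 0.6845 1.434 0 0.0501 0.00000116 1.711 hβ hr hκ (by norm_num) hk1 hk2 hta htb (by norm_num) (by norm_num) (B5Kw_G7 hk1 hk2).1 (B5Kw_G7 hk1 hk2).2 (by norm_num) (by norm_num) (by norm_num)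
    (by norm_num) (by norm_num) (by norm_num) (by norm_num) (by norm_num) (by norm_num) (by norm_num)
    (by norm_num) (by norm_num) (by norm_num) (v5_hump 5.1471 7.518 2.7419 0.0000009316 0.00000116 hβ hr hκ hk1 hk2 (by norm_num) htb (by norm_num) (by norm_num) (by norm_num) (by norm_num) (by norm_num) (by norm_num) (by norm_num) (ex_un 13 0.9 (by norm_num) (by norm_num) (by norm_num) (by norm_num)) (by norm_num)) (by norm_num)

private theorem B5Kw_C9 {β r t κ : ℝ} (hβ : 0 < β) (hr : 10 ≤ r) (hκ : κ = β * r) (hk1 : 1.25 ≤ κ) (hk2 : κ ≤ 1.33) (hta : 3.0786 ≤ t + κ)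
    (htb : t + κ ≤ 3.306) : ‖F (cexp (I * β)) (r * cexp (I * ((t + β / 2 : ℝ) : ℂ)))‖ ≤
      2.258 * Real.exp (r * (0.01 + 1 / 20)) :=
  v5_UD 1.25 1.33 3.0786 3.306 0.01 0.3569 0.01 1.1772 2.258 hβ hr hκ (by norm_num) hk1 hk2 hta htb (by norm_num) (by norm_num) (by norm_num) (by norm_num) (by norm_num) (by norm_num) (by norm_num) (by norm_num) (by norm_num) (by norm_num) (by norm_num)

private theorem B5Kw_Y10 {β r t κ h t' : ℝ} (hβ : 0 < β) (hκ : κ = β * r) (hN : β * 7.518 ≤ 1) (hk1 : 1.25 ≤ κ) (hk2 : κ ≤ 1.33)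
    (ht : t' = t + (((1 : ℤ) : ℝ) - 1) * h) (hD : DomR κ t') (hta : 0.5654 ≤ t' + κ) (htb : t' + κ ≤ 0.6597) :
    0.7027 * Real.exp (r * sE κ t') ≤ ‖Xf β r h t 1‖ := by
  obtain ⟨⟨ya, yb⟩, ⟨xa, xb⟩, n1, Da, Db⟩ := B5Kw_B1 hD hk1 hk2 hta htb
  have J := B5Kw_T3 (x := sx κ t') (y := sy κ t') hβ hN (by linarith only [xa, xb, ya, yb]) (by linarith only [xa, xb, ya, yb]) (by linarith only [xa, xb, ya, yb]) (by linarith only [xa, xb, ya, yb])
  exact v5_Jlo hβ hκ (k := 1) ht hD 0.11 2.5732 0.7027 (by norm_num) J Db (by norm_num)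

private theorem B5Kw_Y11 {β r t κ h t' : ℝ} (hβ : 0 < β) (hκ : κ = β * r) (hN : β * 7.518 ≤ 1) (hk1 : 1.25 ≤ κ) (hk2 : κ ≤ 1.33)
    (ht : t' = t + (((0 : ℤ) : ℝ) - 1) * h) (hD : DomR κ t') (hta : (-0.6913) ≤ t' + κ) (htb : t' + κ ≤ (-0.5969)) :
    0.5772 * Real.exp (r * sE κ t') ≤ ‖Xf β r h t 0‖ := by
  obtain ⟨⟨ya, yb⟩, ⟨xa, xb⟩, n1, Da, Db⟩ := B5Kw_B2 hD hk1 hk2 hta htb
  have J := B5Kw_T4 (x := sx κ t') (y := sy κ t') hβ hN (by linarith only [xa, xb, ya, yb]) (by linarith only [xa, xb, ya, yb]) (by linarith only [xa, xb, ya, yb]) (by linarith only [xa, xb, ya, yb])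
  exact v5_Jlo hβ hκ (k := 0) ht hD 0.19 3.8777 0.5772 (by norm_num) J Db (by norm_num)

private theorem B5Kw_V12 {κ t : ℝ} (hD : DomR κ t) (hk1 : 1.25 ≤ κ) (hk2 : κ ≤ 1.33) (hta : 0.5654 ≤ t + κ) (htb : t + κ ≤ 0.6597) :
    1.06737 - 0.2257 * (t + κ) ≤ sE κ t := by
  have hκ0 : 0 < κ := hD.1
  exact v5_V1 hD 1.25 1.33 0.5654 0.6597 0.0303 0.11687 0.27289 1.06737 0.2257 (by norm_num) hk1 hk2 (by norm_num) (by norm_num) hta htb (by norm_num) (clo5 1.25 1.33 0.27289 (by norm_num) hk1 hk2 (by norm_num) (by norm_num) (by norm_num))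
      ((cup2 1.25 (by norm_num) hk1).trans (by norm_num)) (by norm_num) (by norm_num) (by norm_num) (by norm_num) (by norm_num) (by norm_num)

private theorem B5Kw_V13 {κ t : ℝ} (hD : DomR κ t) (hk1 : 1.25 ≤ κ) (hk2 : κ ≤ 1.33) (hta : (-0.6913) ≤ t + κ) (htb : t + κ ≤ (-0.5969)) :
    1.08745 + 0.273 * (t + κ) ≤ sE κ t := by
  have hκ0 : 0 < κ := hD.1
  exact v5_V0 hD 1.25 1.33 (-0.6913) (-0.5969) 0.6914 0.543 0.04561 0.18596 0.05944 0.51903 1.08745 0.273 (by norm_num) hk1 hk2 (by norm_num) hta htb (by norm_num) (by norm_num) (by norm_num) ((cup2 1.25 (by norm_num) hk1).trans (by norm_num))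
      (by norm_num) (by norm_num) (by norm_num) (by norm_num) (by norm_num) (by norm_num) (by norm_num) (by norm_num) (by norm_num) (by norm_num) (by norm_num) (by norm_num) (by norm_num)

private theorem B5Kw_S14 {β r t κ h t' : ℝ} (hβ : 0 < β) (hκ : κ = β * r) (hN : β * 7.518 ≤ 1) (hk1 : 1.25 ≤ κ) (hk2 : κ ≤ 1.33)
    (ht : t' = t + (((1 : ℤ) : ℝ) - 1) * h) (hD : DomR κ t') (hta : 0.5654 ≤ t' + κ) (htb : t' + κ ≤ 0.6597) :
    Xf β r h t 1 ≠ 0 ∧ |(Ld β r h t 1).im - (sy κ t' / β + sx κ t' / sD κ t' * ((1 + sy κ t') / sD κ t' - 1 / 2))| ≤ 0.4101 ∧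
      ‖Ld β r h t 1 - sg κ t' / β‖ ≤ 0.6222 ∧ -0.0065 ≤ sx κ t' / sD κ t' * ((1 + sy κ t') / sD κ t' - 1 / 2) ∧
      (0.248 ≤ sy κ t' ∧ sy κ t' ≤ 0.285) ∧ (0.8957 ≤ sx κ t' ∧ sx κ t' ≤ 1.0079) := by
  obtain ⟨⟨y1, y2⟩, ⟨x1, x2⟩, n1, Da, Db⟩ := B5Kw_B1 hD hk1 hk2 hta htb
  have hd := v5_disc (β := β) (κ := κ) (t := t') (ε := 0.11) 0.2 0.6956 1.208 0.0479 0.4851 0.8957 1.0079 0.248 0.285
    (fun x y g1 g2 g3 g4 => B5Kw_T3 hβ hN g1 g2 g3 g4) x1 x2 y1 y2 (by norm_num) (by norm_num) (by norm_num) (by norm_num)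
  obtain ⟨nz, im, nL⟩ := v5_slope (h := h) (t := t) (k := 1) 0.2 0.11 1.0379 2.4474 0.618 0.4101 hβ hκ ht hD (by norm_num) (by norm_num) (by linarith only [y1]) hd n1 (by norm_num) Da (by norm_num) (by norm_num) (by norm_num) (by norm_num)
  have ex := ex_lo hD 1.0379 2.4474 2.5732 0.248 0.0151 0.0065 n1 (by norm_num) Da Db y1 (by norm_num) (by norm_num) (by norm_num) (by norm_num)
  exact ⟨nz, im, nL.trans (by norm_num), ex, ⟨y1, y2⟩, x1, x2⟩

private theorem B5Kw_S15 {β r t κ h t' : ℝ} (hβ : 0 < β) (hκ : κ = β * r) (hN : β * 7.518 ≤ 1) (hk1 : 1.25 ≤ κ) (hk2 : κ ≤ 1.33)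
    (ht : t' = t + (((0 : ℤ) : ℝ) - 1) * h) (hD : DomR κ t') (hta : (-0.6913) ≤ t' + κ) (htb : t' + κ ≤ (-0.5969)) :
    Xf β r h t 0 ≠ 0 ∧ |(Ld β r h t 0).im - (sy κ t' / β + sx κ t' / sD κ t' * ((1 + sy κ t') / sD κ t' - 1 / 2))| ≤ 1.6486 ∧
      ‖Ld β r h t 0 - sg κ t' / β‖ ≤ 1.9422 ∧ sx κ t' / sD κ t' * ((1 + sy κ t') / sD κ t' - 1 / 2) ≤ 0.0001 ∧
      ((-0.353) ≤ sy κ t' ∧ sy κ t' ≤ (-0.294)) ∧ (1.6396 ≤ sx κ t' ∧ sx κ t' ≤ 1.8701) := by
  obtain ⟨⟨y1, y2⟩, ⟨x1, x2⟩, n1, Da, Db⟩ := B5Kw_B2 hD hk1 hk2 hta htb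
  have hd := v5_disc (β := β) (κ := κ) (t := t') (ε := 0.19) 0.15 1.4895 2.0202 (-0.5031) (-0.1439) 1.6396 1.8701 (-0.353) (-0.294)
    (fun x y g1 g2 g3 g4 => B5Kw_T4 hβ hN g1 g2 g3 g4) x1 x2 y1 y2 (by norm_num) (by norm_num) (by norm_num) (by norm_num)
  obtain ⟨nz, im, nL⟩ := v5_slope (h := h) (t := t) (k := 0) 0.15 0.19 1.8931 3.225 1.5638 1.6486 hβ hκ ht hD (by norm_num) (by norm_num) (by linarith only [y1]) hd n1 (by norm_num) Da (by norm_num) (by norm_num) (by norm_num) (by norm_num)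
  have ex := ex_hi hD 1.8931 3.225 (-0.294) 0 0.0001 n1 (by norm_num) Da y2 (by norm_num) (by norm_num) (by norm_num) (by norm_num)
  exact ⟨nz, im, nL.trans (by norm_num), ex, ⟨y1, y2⟩, x1, x2⟩

private theorem B5Kw_L16 {β r κ t1 t0 : ℝ} {L0 L1 : ℂ} (hβ : 0 < β) (hr : 10 ≤ r) (hκ : κ = β * r) (hk1 : 1.25 ≤ κ)
    (nA0 : ‖L0 - sg κ t0 / β‖ ≤ 1.9422) (nA1 : ‖L1 - sg κ t1 / β‖ ≤ 0.6222)
    (y0 : (-0.353) ≤ sy κ t0 ∧ sy κ t0 ≤ (-0.294)) (x0 : 1.6396 ≤ sx κ t0 ∧ sx κ t0 ≤ 1.8701)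
    (y1 : 0.248 ≤ sy κ t1 ∧ sy κ t1 ≤ 0.285) (x1 : 0.8957 ≤ sx κ t1 ∧ sx κ t1 ≤ 1.0079) :
    ‖(1 : ℂ) * L0 + (-2 : ℂ) * L1‖ ≤ r * 1.1162 := by
  obtain ⟨y0a, y0b⟩ := y0
  obtain ⟨x0a, x0b⟩ := x0
  obtain ⟨y1a, y1b⟩ := y1
  obtain ⟨x1a, x1b⟩ := x1
  have hN := v5_cN (κ := κ) (t1 := t1) (t0 := t0) 1 (-2) 0.3763 0.9231 0.9969 (abs_le.2 ⟨by linarith only [x0a, x0b, x1a, x1b], by linarith only [x0a, x0b, x1a, x1b]⟩)
    (abs_le.2 ⟨by linarith only [y0a, y0b, y1a, y1b], by linarith only [y0a, y0b, y1a, y1b]⟩) (by norm_num) (by norm_num)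
  have h1 := v5_comb 1 (-2) 1.25 1.9422 0.6222 0.9969 1.1162 hβ hr hκ (by norm_num) hk1 nA0 nA1 hN (by norm_num [abs_of_neg, abs_of_pos])
  norm_num at h1 ⊢
  exact h1

private theorem B5Kw_L17 {β r κ t1 t0 : ℝ} {L0 L1 : ℂ} (hβ : 0 < β) (hr : 10 ≤ r) (hκ : κ = β * r) (hk1 : 1.25 ≤ κ)
    (nA0 : ‖L0 - sg κ t0 / β‖ ≤ 1.9422) (nA1 : ‖L1 - sg κ t1 / β‖ ≤ 0.6222)
    (y0 : (-0.353) ≤ sy κ t0 ∧ sy κ t0 ≤ (-0.294)) (x0 : 1.6396 ≤ sx κ t0 ∧ sx κ t0 ≤ 1.8701)
    (y1 : 0.248 ≤ sy κ t1 ∧ sy κ t1 ≤ 0.285) (x1 : 0.8957 ≤ sx κ t1 ∧ sx κ t1 ≤ 1.0079) :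
    ‖(-2 : ℂ) * L0 + (1 : ℂ) * L1‖ ≤ r * 2.8606 := by
  obtain ⟨y0a, y0b⟩ := y0
  obtain ⟨x0a, x0b⟩ := x0
  obtain ⟨y1a, y1b⟩ := y1
  obtain ⟨x1a, x1b⟩ := x1
  have hN := v5_cN (κ := κ) (t1 := t1) (t0 := t0) (-2) 1 2.8446 0.9911 3.0124 (abs_le.2 ⟨by linarith only [x0a, x0b, x1a, x1b], by linarith only [x0a, x0b, x1a, x1b]⟩)
    (abs_le.2 ⟨by linarith only [y0a, y0b, y1a, y1b], by linarith only [y0a, y0b, y1a, y1b]⟩) (by norm_num) (by norm_num)
  have h1 := v5_comb (-2) 1 1.25 1.9422 0.6222 3.0124 2.8606 hβ hr hκ (by norm_num) hk1 nA0 nA1 hN (by norm_num [abs_of_neg, abs_of_pos])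
  norm_num at h1 ⊢
  exact h1

private theorem B5Kw_L18 {β r κ t1 t0 : ℝ} {L0 L1 : ℂ} (hβ : 0 < β) (hr : 10 ≤ r) (hκ : κ = β * r) (hk1 : 1.25 ≤ κ)
    (nA0 : ‖L0 - sg κ t0 / β‖ ≤ 1.9422) (nA1 : ‖L1 - sg κ t1 / β‖ ≤ 0.6222)
    (y0 : (-0.353) ≤ sy κ t0 ∧ sy κ t0 ≤ (-0.294)) (x0 : 1.6396 ≤ sx κ t0 ∧ sx κ t0 ≤ 1.8701)
    (y1 : 0.248 ≤ sy κ t1 ∧ sy κ t1 ≤ 0.285) (x1 : 0.8957 ≤ sx κ t1 ∧ sx κ t1 ≤ 1.0079) :
    ‖(-3 : ℂ) * L0 + (2 : ℂ) * L1‖ ≤ r * 4.0288 := by
  obtain ⟨y0a, y0b⟩ := y0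
  obtain ⟨x0a, x0b⟩ := x0
  obtain ⟨y1a, y1b⟩ := y1
  obtain ⟨x1a, x1b⟩ := x1
  have hN := v5_cN (κ := κ) (t1 := t1) (t0 := t0) (-3) 2 3.819 1.6291 4.152 (abs_le.2 ⟨by linarith only [x0a, x0b, x1a, x1b], by linarith only [x0a, x0b, x1a, x1b]⟩)
    (abs_le.2 ⟨by linarith only [y0a, y0b, y1a, y1b], by linarith only [y0a, y0b, y1a, y1b]⟩) (by norm_num) (by norm_num)
  have h1 := v5_comb (-3) 2 1.25 1.9422 0.6222 4.152 4.0288 hβ hr hκ (by norm_num) hk1 nA0 nA1 hN (by norm_num [abs_of_neg, abs_of_pos])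
  norm_num at h1 ⊢
  exact h1

private theorem B5Kw_K19 {β r t κ h : ℝ} (hβ : 0 < β) (hr : 10 ≤ r) (hκ : κ = β * r) (hk1 : 1.25 ≤ κ) (hk2 : κ ≤ 1.33)
    (hh : h = 2 * Real.pi / 5) (hh1 : 1.25663 ≤ h) (hh2 : h ≤ 1.25664) (hta : 0.5654 ≤ t + κ) (htb : t + κ ≤ 0.6597)
    (hβ1 : β ≤ 0.133)
    (hY : 0.7027 * Real.exp (r * sE κ t) ≤ ‖Xf β r h t 1‖) (hV : 1.06737 - 0.2257 * (t + κ) ≤ sE κ t) :
    ‖Xf β r h t 2‖ ≤ 0.0433 * ‖Xf β r h t 1‖ ∧ ‖Xf β r h (t + β) 2‖ ≤ 0.026 * ‖Xf β r h t 1‖ := by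
  constructor
  · rw [v5_X 2 1 (by push_cast; ring)]
    exact v5_cmp 0.4077 0.01696 0.0432 0.9184 0.0001027 0.0000316 0.0433 hr (B5Kw_C6 (t := t + 1 * h) hβ hr hκ hk1 hk2 (by linarith only [hta, htb, hh1, hh2, hβ, hβ1]) (by linarith only [hta, htb, hh1, hh2, hβ, hβ1])) hY (by norm_num) (by norm_num) (by norm_num) (by norm_num) (by linarith only [hV, hta, htb, hh1, hh2]) (ex_un 4 0.0769 (by norm_num) (by norm_num) (by norm_num) (by norm_num)) (by norm_num) (by norm_num) (by linarith only [hV, hta, htb, hh1, hh2]) (ex_un 9 0.1839 (by norm_num) (by norm_num) (by norm_num) (by norm_num)) (by norm_num) (by norm_num)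
  · rw [v5_X 2 1 (by push_cast; ring)]
    have h1 := B5Kw_C6 (t := t + β + 1 * h) hβ hr hκ hk1 hk2 (by linarith only [hta, htb, hh1, hh2, hβ, hβ1]) (by linarith only [hta, htb, hh1, hh2, hβ, hβ1])
    rw [show t + β + 1 * h + κ = (t + 1 * h + κ) + β by ring] at h1
    exact v5_cmpS 0.599 0.4077 0.01696 0.0259 0.9184 0.0001027 0.0000316 0.026 hr hκ h1 hY (by norm_num) (by norm_num) (by norm_num) (ex_um 0.5125 (by linarith only [hk1, hk2]) (by norm_num) (by norm_num) (by norm_num)) (by norm_num) (by linarith only [hV, hta, htb, hh1, hh2]) (ex_un 4 0.0769 (by norm_num) (by norm_num) (by norm_num) (by norm_num)) (by norm_num) (by norm_num) (by linarith only [hV, hta, htb, hh1, hh2]) (ex_un 9 0.1839 (by norm_num) (by norm_num) (by norm_num) (by norm_num)) (by norm_num) (by norm_num)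

private theorem B5Kw_K20 {β r t κ h : ℝ} (hβ : 0 < β) (hr : 10 ≤ r) (hκ : κ = β * r) (hk1 : 1.25 ≤ κ) (hk2 : κ ≤ 1.33)
    (hh : h = 2 * Real.pi / 5) (hh1 : 1.25663 ≤ h) (hh2 : h ≤ 1.25664) (hta : 0.5654 ≤ t + κ) (htb : t + κ ≤ 0.6597)
    (hβ1 : β ≤ 0.133)
    (hY : 0.5772 * Real.exp (r * sE κ (t - h)) ≤ ‖Xf β r h t 0‖) (hV : 1.08745 + 0.273 * (t - h + κ) ≤ sE κ (t - h)) :
    ‖Xf β r h t (-1)‖ ≤ 0.00704 * ‖Xf β r h t 0‖ ∧ ‖Xf β r h (t + β) (-1)‖ ≤ 0.0154 * ‖Xf β r h t 0‖ := by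
  constructor
  · rw [v5_X (-1) (-2) (by push_cast; ring)]
    exact v5_cmp 0.5324 0.004876 0.00642 0.8486 0.0002067 0.000613 0.00704 hr (B5Kw_C8 (t := t + (-2) * h) hβ hr hκ hk1 hk2 (by linarith only [hta, htb, hh1, hh2, hβ, hβ1]) (by linarith only [hta, htb, hh1, hh2, hβ, hβ1])) hY (by norm_num) (by norm_num) (by norm_num) (by norm_num) (by linarith only [hV, hta, htb, hh1, hh2]) (ex_un 5 0.3239 (by norm_num) (by norm_num) (by norm_num) (by norm_num)) (by norm_num) (by norm_num) (by linarith only [hV, hta, htb, hh1, hh2]) (ex_un 8 0.4859 (by norm_num) (by norm_num) (by norm_num) (by norm_num)) (by norm_num) (by norm_num)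
  · rw [v5_X (-1) (-2) (by push_cast; ring)]
    have h1 := B5Kw_C8 (t := t + β + (-2) * h) hβ hr hκ hk1 hk2 (by linarith only [hta, htb, hh1, hh2, hβ, hβ1]) (by linarith only [hta, htb, hh1, hh2, hβ, hβ1])
    rw [show t + β + (-2) * h + κ = (t + (-2) * h + κ) + β by ring] at h1
    exact v5_cmpS 2.28097 0.5324 0.004876 0.0147 0.8486 0.0002067 0.000613 0.0154 hr hκ h1 hY (by norm_num) (by norm_num) (by norm_num) (ex_up 0.8246 (by linarith only [hk1, hk2]) (by norm_num) (by norm_num) (by norm_num)) (by norm_num) (by linarith only [hV, hta, htb, hh1, hh2]) (ex_un 5 0.3239 (by norm_num) (by norm_num) (by norm_num) (by norm_num)) (by norm_num) (by norm_num) (by linarith only [hV, hta, htb, hh1, hh2]) (ex_un 8 0.4859 (by norm_num) (by norm_num) (by norm_num) (by norm_num)) (by norm_num) (by norm_num)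

private theorem B5Kw_K21 {β r t κ h : ℝ} (hβ : 0 < β) (hr : 10 ≤ r) (hκ : κ = β * r) (hk1 : 1.25 ≤ κ) (hk2 : κ ≤ 1.33)
    (hh : h = 2 * Real.pi / 5) (hh1 : 1.25663 ≤ h) (hh2 : h ≤ 1.25664) (hta : 0.5654 ≤ t + κ) (htb : t + κ ≤ 0.6597)
    (hβ1 : β ≤ 0.133)
    (hY : 0.5772 * Real.exp (r * sE κ (t - h)) ≤ ‖Xf β r h t 0‖) (hV : 1.08745 + 0.273 * (t - h + κ) ≤ sE κ (t - h)) :
    ‖Xf β r h t (-2)‖ ≤ 0.000892 * ‖Xf β r h t 0‖ ∧ ‖Xf β r h (t + β) (-2)‖ ≤ 0.000892 * ‖Xf β r h t 0‖ := by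
  constructor
  · rw [v5_Xm2 hh]
    exact v5_cmp0 0.8387 0.000228 0.000892 hr (B5Kw_C9 (t := t + 2 * h) hβ hr hκ hk1 hk2 (by linarith only [hta, htb, hh1, hh2, hβ, hβ1]) (by linarith only [hta, htb, hh1, hh2, hβ, hβ1])) hY (by norm_num) (by norm_num) (by norm_num) (by linarith only [hV, hta, htb, hh1, hh2]) (ex_un 8 0.3869 (by norm_num) (by norm_num) (by norm_num) (by norm_num)) (by norm_num)
  · rw [v5_Xm2 hh]
    exact v5_cmp0 0.8387 0.000228 0.000892 hr (B5Kw_C9 (t := t + β + 2 * h) hβ hr hκ hk1 hk2 (by linarith only [hta, htb, hh1, hh2, hβ, hβ1]) (by linarith only [hta, htb, hh1, hh2, hβ, hβ1])) hY (by norm_num) (by norm_num) (by norm_num) (by linarith only [hV, hta, htb, hh1, hh2]) (ex_un 8 0.3869 (by norm_num) (by norm_num) (by norm_num) (by norm_num)) (by norm_num)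

theorem B5Kw_W22 {β r t κ h : ℝ} (hβ : 0 < β) (hr : 10 ≤ r) (hκ : κ = β * r) (hk1 : 1.25 ≤ κ) (hk2 : κ ≤ 1.33)
    (hh : h = 2 * Real.pi / 5) (hta : 0.5654 ≤ t + κ) (htb : t + κ ≤ 0.6597) :
    Xf β r h t 0 ≠ 0 ∧
    (‖Xf β r h t 2‖ ≤ 0.0433 * ‖Xf β r h t 1‖ ∧ ‖Xf β r h t (-1)‖ ≤ 0.00946 * ‖Xf β r h t 0‖ ∧
      ‖Xf β r h t (-2)‖ ≤ 0.000893 * ‖Xf β r h t 0‖) ∧
    (r * ‖Xf β r h (t + β) 2‖ + ‖Xf β r h t 2‖ * ‖(1 : ℂ) * Ld β r h t 0 + (-2 : ℂ) * Ld β r h t 1‖ ≤
        r * 0.0744 * ‖Xf β r h t 1‖ ∧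
      r * ‖Xf β r h (t + β) (-1)‖ + ‖Xf β r h t (-1)‖ * ‖(-2 : ℂ) * Ld β r h t 0 + (1 : ℂ) * Ld β r h t 1‖ ≤
        r * 0.046 * ‖Xf β r h t 0‖ ∧
      r * ‖Xf β r h (t + β) (-2)‖ + ‖Xf β r h t (-2)‖ * ‖(-3 : ℂ) * Ld β r h t 0 + (2 : ℂ) * Ld β r h t 1‖ ≤
        r * 0.0045 * ‖Xf β r h t 0‖) ∧
    r * 0.2009 ≤ (Ld β r h t 1 - Ld β r h t 0).im := by
  obtain ⟨hh1, hh2⟩ := v5_h hh
  have hκ0 : 0 < κ := by linarith only [hk1]
  have hN : β * 7.518 ≤ 1 := v5_hN 1.33 7.518 hβ hr hκ hk2 (by norm_num) (by norm_num)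
  have hD1 : DomR κ t := v5_dom hκ0 (by linarith only [hta, htb, hk1, hk2, hh1, hh2]) (Or.inr (by linarith only [hta, htb, hk1, hk2, hh1, hh2]))
  have hD0 : DomR κ (t - h) := v5_dom hκ0 (by linarith only [hta, htb, hk1, hk2, hh1, hh2]) (Or.inl (by linarith only [hk1]))
  have hβ1 : β ≤ 0.133 := by
    have := mul_le_mul_of_nonneg_left hr hβ.le
    linarith only [this, hκ, hk2]
  have h0a : (-0.6913) ≤ t - h + κ := by linarith only [hta, htb, hh1, hh2]
  have h0b : t - h + κ ≤ (-0.5969) := by linarith only [hta, htb, hh1, hh2]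
  have e1 : t = t + (((1 : ℤ) : ℝ) - 1) * h := by push_cast; ring
  have e0 : t - h = t + (((0 : ℤ) : ℝ) - 1) * h := by push_cast; ring
  have hY1 := B5Kw_Y10 (h := h) hβ hκ hN hk1 hk2 e1 hD1 hta htb
  have hY0 := B5Kw_Y11 (h := h) hβ hκ hN hk1 hk2 e0 hD0 h0a h0b
  have hV1 := B5Kw_V12 hD1 hk1 hk2 hta htb
  have hV0 := B5Kw_V13 hD0 hk1 hk2 h0a h0b
  obtain ⟨nz1, im1, nA1, ex1, y1, x1⟩ := B5Kw_S14 (h := h) hβ hκ hN hk1 hk2 e1 hD1 hta htb
  obtain ⟨nz0, im0, nA0, ex0, y0, x0⟩ := B5Kw_S15 (h := h) hβ hκ hN hk1 hk2 e0 hD0 h0a h0b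
  obtain ⟨cp2, dp2⟩ := B5Kw_K19 hβ hr hκ hk1 hk2 hh hh1 hh2 hta htb hβ1 hY1 hV1
  obtain ⟨cm1, dm1⟩ := B5Kw_K20 hβ hr hκ hk1 hk2 hh hh1 hh2 hta htb hβ1 hY0 hV0
  obtain ⟨cm2, dm2⟩ := B5Kw_K21 hβ hr hκ hk1 hk2 hh hh1 hh2 hta htb hβ1 hY0 hV0
  have Lp2 := B5Kw_L16 hβ hr hκ hk1 nA0 nA1 y0 x0 y1 x1
  have Lm1 := B5Kw_L17 hβ hr hκ hk1 nA0 nA1 y0 x0 y1 x1
  have Lm2 := B5Kw_L18 hβ hr hκ hk1 nA0 nA1 y0 x0 y1 x1
  have hm : r * 0.2009 ≤ (Ld β r h t 1 - Ld β r h t 0).im :=
    v5_m 1.33 0.248 0.294 0.0065 0.0001 0.4101 1.6486 _ _ 0.2009 hβ hr hκ hk2 im1 im0 y1.1 (by linarith only [y0.2]) (by norm_num) ex1 ex0 (by norm_num) (by norm_num)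
  have hr0 : 0 < r := by linarith only [hr]
  refine ⟨nz0, ⟨v5_emax _ cp2 (norm_nonneg _) (by norm_num), v5_emax _ cm1 (norm_nonneg _) (by norm_num), v5_emax _ cm2 (norm_nonneg _) (by norm_num)⟩, ⟨?_, ?_, ?_⟩, hm⟩
  · exact v5_W hr0 dp2 cp2 Lp2 (norm_nonneg _) (norm_nonneg _) (norm_nonneg _) (by norm_num)
  · exact v5_W hr0 dm1 cm1 Lm1 (norm_nonneg _) (norm_nonneg _) (norm_nonneg _) (by norm_num)
  · exact v5_W hr0 dm2 cm2 Lm2 (norm_nonneg _) (norm_nonneg _) (norm_nonneg _) (by norm_num)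

private theorem B5Kw_B23 {κ t : ℝ} (h : DomR κ t) (hk1 : 1.25 ≤ κ) (hk2 : κ ≤ 1.33) (ht1 : 0.6597 ≤ t + κ) (ht2 : t + κ ≤ 0.754) :
    (0.283 ≤ sy κ t ∧ sy κ t ≤ 0.32) ∧ (0.8493 ≤ sx κ t ∧ sx κ t ≤ 0.9614) ∧ κ * Real.exp (-sy κ t) ≤ 1.0022 ∧ 2.4531 ≤ sD κ t ∧ sD κ t ≤ 2.5728 := by
  have hy1 : 0.283 ≤ sy κ t := syR_ge h 1.25 1.33 0.6597 0.283 1.3271 1.32711 0.28238 0.30046 hk1 hk2 (by linarith) (by norm_num) (by norm_num)
    (expn_ge (by norm_num) (by norm_num)) (expn_le (by norm_num) (by norm_num) (by norm_num)) (by norm_num)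
    (by norm_num) (by norm_num) (by norm_num) (by norm_num) (by norm_num) (by norm_num)
  have hy2 : sy κ t ≤ 0.32 := syR_le h 1.25 1.33 0.754 0.32 1.37712 0.326 0.33133 0.35255 hk1 hk2 (by linarith) (by norm_num) (by norm_num)
    (expn_ge (by norm_num) (by norm_num)) (by norm_num) (by norm_num) (Or.inr ((mul_le_mul_of_nonneg_left (expn_le (E := 1.37713) (by norm_num) (by norm_num) (by norm_num)) (by norm_num)).trans (by norm_num))) (by norm_num) (by norm_num) (by norm_num)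
  have hy1' : 0.283 ≤ sy κ t := by linarith
  have hy2' : sy κ t ≤ 0.32 := by linarith
  have hx1 : 0.8493 ≤ sx κ t := sx_lo h 1.25 0.32 0.3201 0.72614 0.8493 hk1 (by norm_num) hy2' (abs_le.2 ⟨by linarith, by linarith⟩) (ex_lm 0.32 (by norm_num) (by norm_num) (by norm_num) (by norm_num) (by norm_num)) (by norm_num) (by norm_num)
  have hx2 : sx κ t ≤ 0.9614 := sx_hi h 1.33 0.283 0.283 0.75352 0.9614 hk2 hy1' (by norm_num) (le_trans (by linarith) (le_abs_self _)) (ex_um 0.283 (by norm_num) (by norm_num) (by norm_num) (by norm_num)) (by norm_num) (by norm_num)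
  refine ⟨⟨hy1', hy2'⟩, ⟨hx1, hx2⟩, v5_n h 1.33 0.283 0.75352 1.0022 hk2 hy1' (ex_um 0.283 (by norm_num) (by norm_num) (by norm_num) (by norm_num)) (by norm_num), ?_, ?_⟩
  · exact v5_Dlo h 1.25 0.283 0.32 0.283 0.75351 2.4531 (by norm_num) hk1 hy1' hy2' (ex_lm 0.283 (by norm_num) (by norm_num) (by norm_num) (by norm_num) (by norm_num)) (by norm_num) (by norm_num) (by norm_num) (by norm_num)
  · exact v5_Dup h 1.33 0.283 0.32 0.75352 0.72615 2.5728 hk2 hy1' hy2' (ex_um 0.283 (by norm_num) (by norm_num) (by norm_num) (by norm_num)) (ex_um 0.32 (by norm_num) (by norm_num) (by norm_num) (by norm_num)) (by norm_num) (by norm_num) (by norm_num)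

private theorem B5Kw_B24 {κ t : ℝ} (h : DomR κ t) (hk1 : 1.25 ≤ κ) (hk2 : κ ≤ 1.33) (ht1 : (-0.597) ≤ t + κ) (ht2 : t + κ ≤ (-0.5026)) :
    ((-0.305) ≤ sy κ t ∧ sy κ t ≤ (-0.248)) ∧ (1.5724 ≤ sx κ t ∧ sx κ t ≤ 1.7872) ∧ κ * Real.exp (-sy κ t) ≤ 1.8044 ∧ 3.0698 ≤ sD κ t ∧ sD κ t ≤ 3.6456 := by
  have hy1 : -0.305 ≤ sy κ t := syL_ge h 1.25 1.33 0.597 0.305 0.73712 0.73713 0.1663 0.16903 0.17986 hk1 hk2 (by linarith) (by norm_num) (by norm_num) (by norm_num)
    (expm_ge (by norm_num) (by norm_num) (by norm_num) (by norm_num)) (expm_le (by norm_num) (by norm_num) (by norm_num)) (by norm_num)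
    (by norm_num) (by norm_num) (by norm_num) (by norm_num) (by norm_num) (by norm_num)
  have hy2 : sy κ t ≤ -0.248 := syL_le h 1.25 1.33 0.5026 0.248 0.78035 0.78036 0.1455 0.15483 hk1 hk2 (by linarith) (by norm_num) (by norm_num) (by norm_num)
    (expm_ge (by norm_num) (by norm_num) (by norm_num) (by norm_num)) (expm_le (by norm_num) (by norm_num) (by norm_num)) (by norm_num)
    (by norm_num) (by norm_num) (by norm_num) (by norm_num) (by norm_num) (by norm_num)
  have hy1' : (-0.305) ≤ sy κ t := by linarith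
  have hy2' : sy κ t ≤ (-0.248) := by linarith
  have hx1 : 1.5724 ≤ sx κ t := sx_lo h 1.25 (-0.248) 0.3051 1.28145 1.5724 hk1 (by norm_num) hy2' (abs_le.2 ⟨by linarith, by linarith⟩) (ex_lp 0.248 (by norm_num) (by norm_num) (by norm_num)) (by norm_num) (by norm_num)
  have hx2 : sx κ t ≤ 1.7872 := sx_hi h 1.33 (-0.305) 0.248 1.35663 1.7872 hk2 hy1' (by norm_num) (le_trans (by linarith) (neg_le_abs _)) (ex_up 0.305 (by norm_num) (by norm_num) (by norm_num) (by norm_num)) (by norm_num) (by norm_num)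
  refine ⟨⟨hy1', hy2'⟩, ⟨hx1, hx2⟩, v5_n h 1.33 (-0.305) 1.35663 1.8044 hk2 hy1' (ex_up 0.305 (by norm_num) (by norm_num) (by norm_num) (by norm_num)) (by norm_num), ?_, ?_⟩
  · exact v5_Dlo h 1.25 (-0.305) (-0.248) (-0.248) 1.28145 3.0698 (by norm_num) hk1 hy1' hy2' (ex_lp 0.248 (by norm_num) (by norm_num) (by norm_num)) (by norm_num) (by norm_num) (by norm_num) (by norm_num)
  · exact v5_Dup h 1.33 (-0.305) (-0.248) 1.35663 1.28146 3.6456 hk2 hy1' hy2' (ex_up 0.305 (by norm_num) (by norm_num) (by norm_num) (by norm_num)) (ex_up 0.248 (by norm_num) (by norm_num) (by norm_num) (by norm_num)) (by norm_num) (by norm_num) (by norm_num)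

private theorem B5Kw_T25_0_0 {β x y : ℝ} (hβ : 0 < β) (hN : β * 7.518 ≤ 1) (hx1 : 0.6492 ≤ x) (hx2 : x ≤ 0.775)
    (hy1 : -0 ≤ y) (hy2 : y ≤ 0.476) : ‖HH β (x + y * I) - 1‖ ≤ 0.12 := by
  refine le_epsJ (C := 0.9014) (N0 := 7.518) (J_boxp 0.6492 0.775 0 0.476 0.476 1.1671 0.9096 1.6671 1.0241 0.5151 2.7419 7.518 0.7794 2.867 1.421 1.122 0.5835 0.4319 1.2305 3.6196 0.6218 1.3503 0.8275 1.2949 0.01246 0.0389 0.00009612 0.0000003101 0.009342 0.00003904 0.001988 0.00005924 0.9014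
    hβ hN hx1 hx2 hy1 hy2 (by norm_num) (by norm_num) (by linarith) (by norm_num) (by norm_num) (by norm_num) (by norm_num) (by norm_num) (by norm_num) (by norm_num) (by norm_num) (by norm_num) (by norm_num) (by norm_num) (by norm_num) (by norm_num) (by norm_num) (by norm_num) (by norm_num) (by norm_num) (by norm_num) (by norm_num) (by norm_num) (by norm_num)
    (cube_sqrt_geJ (s := 0.8603) (by norm_num) (by norm_num) (by norm_num) (by norm_num))
    (cube_sqrt_geJ (s := 0.951) (by norm_num) (by norm_num) (by norm_num) (by norm_num))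
    (by norm_num) (by norm_num) (by norm_num) (by norm_num) (by norm_num) (by norm_num) (by norm_num) (by norm_num) (by norm_num) (by norm_num) (by norm_num) (by norm_num) (by norm_num) (by norm_num) (by norm_num) (by norm_num) (by norm_num) (by norm_num)
    (exp_neg_leJ (r := 0.386) 4 (by norm_num) (by norm_num) (by norm_num) (by norm_num))
    (exp_neg_leJ (r := 0.247) 3 (by norm_num) (by norm_num) (by norm_num) (by norm_num))
    (exp_neg_leJ (r := 0.25) 9 (by norm_num) (by norm_num) (by norm_num) (by norm_num))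
    (exp_neg_leJ (r := 0.99) 14 (by norm_num) (by norm_num) (by norm_num) (by norm_num))
    (exp_neg_leJ (r := 0.674) 4 (by norm_num) (by norm_num) (by norm_num) (by norm_num))
    (exp_neg_leJ (r := 0.151) 10 (by norm_num) (by norm_num) (by norm_num) (by norm_num))
    (exp_neg_leJ (r := 0.221) 6 (by norm_num) (by norm_num) (by norm_num) (by norm_num))
    (exp_neg_leJ (r := 0.735) 9 (by norm_num) (by norm_num) (by norm_num) (by norm_num))
    (by norm_num)) (by norm_num) hN hβ.le (by norm_num)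

private theorem B5Kw_T25_0_1 {β x y : ℝ} (hβ : 0 < β) (hN : β * 7.518 ≤ 1) (hx1 : 0.775 ≤ x) (hx2 : x ≤ 0.954)
    (hy1 : -0 ≤ y) (hy2 : y ≤ 0.476) : ‖HH β (x + y * I) - 1‖ ≤ 0.12 := by
  refine le_epsJ (C := 0.9013) (N0 := 7.518) (J_boxp 0.775 0.954 0 0.476 0.476 1.2557 1.0662 1.7575 0.9422 0.5289 2.7419 7.518 0.8491 3.205 1.469 1.0531 0.6278 0.4501 1.2735 3.5221 0.6829 1.5245 1.0791 1.1208 0.008933 0.03395 0.00006954 0.0000003101 0.005894 0.00001054 0.0003 0.0002192 0.9013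
    hβ hN hx1 hx2 hy1 hy2 (by norm_num) (by norm_num) (by linarith) (by norm_num) (by norm_num) (by norm_num) (by norm_num) (by norm_num) (by norm_num) (by norm_num) (by norm_num) (by norm_num) (by norm_num) (by norm_num) (by norm_num) (by norm_num) (by norm_num) (by norm_num) (by norm_num) (by norm_num) (by norm_num) (by norm_num) (by norm_num) (by norm_num)
    (cube_sqrt_geJ (s := 0.8467) (by norm_num) (by norm_num) (by norm_num) (by norm_num))
    (cube_sqrt_geJ (s := 0.9465) (by norm_num) (by norm_num) (by norm_num) (by norm_num))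
    (by norm_num) (by norm_num) (by norm_num) (by norm_num) (by norm_num) (by norm_num) (by norm_num) (by norm_num) (by norm_num) (by norm_num) (by norm_num) (by norm_num) (by norm_num) (by norm_num) (by norm_num) (by norm_num) (by norm_num) (by norm_num)
    (exp_neg_leJ (r := 0.719) 4 (by norm_num) (by norm_num) (by norm_num) (by norm_num))
    (exp_neg_leJ (r := 0.383) 3 (by norm_num) (by norm_num) (by norm_num) (by norm_num))
    (exp_neg_leJ (r := 0.574) 9 (by norm_num) (by norm_num) (by norm_num) (by norm_num))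
    (exp_neg_leJ (r := 0.99) 14 (by norm_num) (by norm_num) (by norm_num) (by norm_num))
    (exp_neg_leJ (r := 0.134) 5 (by norm_num) (by norm_num) (by norm_num) (by norm_num))
    (exp_neg_leJ (r := 0.461) 11 (by norm_num) (by norm_num) (by norm_num) (by norm_num))
    (exp_neg_leJ (r := 0.112) 8 (by norm_num) (by norm_num) (by norm_num) (by norm_num))
    (exp_neg_leJ (r := 0.426) 8 (by norm_num) (by norm_num) (by norm_num) (by norm_num))
    (by norm_num)) (by norm_num) hN hβ.le (by norm_num)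

private theorem B5Kw_T25_0_2 {β x y : ℝ} (hβ : 0 < β) (hN : β * 7.518 ≤ 1) (hx1 : 0.954 ≤ x) (hx2 : x ≤ 1.1615)
    (hy1 : -0 ≤ y) (hy2 : y ≤ 0.476) : ‖HH β (x + y * I) - 1‖ ≤ 0.12 := by
  refine le_epsJ (C := 0.8627) (N0 := 7.518) (J_boxp 0.954 1.1615 0 0.476 0.476 1.3818 1.2553 1.8783 0.8438 0.5468 2.7419 7.518 0.9085 3.535 1.512 0.9733 0.6908 0.4816 1.3348 3.4071 0.7698 1.7723 1.4371 0.9648 0.005556 0.0268 0.00004384 0.0000003101 0.003072 0.000001635 0.00002035 0.0007081 0.8627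
    hβ hN hx1 hx2 hy1 hy2 (by norm_num) (by norm_num) (by linarith) (by norm_num) (by norm_num) (by norm_num) (by norm_num) (by norm_num) (by norm_num) (by norm_num) (by norm_num) (by norm_num) (by norm_num) (by norm_num) (by norm_num) (by norm_num) (by norm_num) (by norm_num) (by norm_num) (by norm_num) (by norm_num) (by norm_num) (by norm_num) (by norm_num)
    (cube_sqrt_geJ (s := 0.8349) (by norm_num) (by norm_num) (by norm_num) (by norm_num))
    (cube_sqrt_geJ (s := 0.9427) (by norm_num) (by norm_num) (by norm_num) (by norm_num))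
    (by norm_num) (by norm_num) (by norm_num) (by norm_num) (by norm_num) (by norm_num) (by norm_num) (by norm_num) (by norm_num) (by norm_num) (by norm_num) (by norm_num) (by norm_num) (by norm_num) (by norm_num) (by norm_num) (by norm_num) (by norm_num)
    (exp_neg_leJ (r := 0.193) 5 (by norm_num) (by norm_num) (by norm_num) (by norm_num))
    (exp_neg_leJ (r := 0.62) 3 (by norm_num) (by norm_num) (by norm_num) (by norm_num))
    (exp_neg_leJ (r := 0.035) 10 (by norm_num) (by norm_num) (by norm_num) (by norm_num))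
    (exp_neg_leJ (r := 0.99) 14 (by norm_num) (by norm_num) (by norm_num) (by norm_num))
    (exp_neg_leJ (r := 0.787) 5 (by norm_num) (by norm_num) (by norm_num) (by norm_num))
    (exp_neg_leJ (r := 0.324) 13 (by norm_num) (by norm_num) (by norm_num) (by norm_num))
    (exp_neg_leJ (r := 0.804) 10 (by norm_num) (by norm_num) (by norm_num) (by norm_num))
    (exp_neg_leJ (r := 0.253) 7 (by norm_num) (by norm_num) (by norm_num) (by norm_num))
    (by norm_num)) (by norm_num) hN hβ.le (by norm_num)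

private theorem B5Kw_T25_1_0 {β x y : ℝ} (hβ : 0 < β) (hN : β * 7.518 ≤ 1) (hx1 : 0.6492 ≤ x) (hx2 : x ≤ 0.727)
    (hy1 : -0 ≤ y) (hy2 : y ≤ 0.5201) : ‖HH β (x + y * I) - 1‖ ≤ 0.12 := by
  refine le_epsJ (C := 0.902) (N0 := 7.518) (J_boxp 0.6492 0.727 0 0.5201 0.5201 1.1671 0.8939 1.6851 1.0296 0.5179 2.7419 7.518 0.766 2.807 1.412 1.1405 0.5835 0.4345 1.2305 3.6386 0.6173 1.3458 0.6383 1.1298 0.01246 0.03816 0.00009612 0.0000003101 0.009663 0.00004039 0.008258 0.000205 0.902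
    hβ hN hx1 hx2 hy1 hy2 (by norm_num) (by norm_num) (by linarith) (by norm_num) (by norm_num) (by norm_num) (by norm_num) (by norm_num) (by norm_num) (by norm_num) (by norm_num) (by norm_num) (by norm_num) (by norm_num) (by norm_num) (by norm_num) (by norm_num) (by norm_num) (by norm_num) (by norm_num) (by norm_num) (by norm_num) (by norm_num) (by norm_num)
    (cube_sqrt_geJ (s := 0.8629) (by norm_num) (by norm_num) (by norm_num) (by norm_num))
    (cube_sqrt_geJ (s := 0.9519) (by norm_num) (by norm_num) (by norm_num) (by norm_num))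
    (by norm_num) (by norm_num) (by norm_num) (by norm_num) (by norm_num) (by norm_num) (by norm_num) (by norm_num) (by norm_num) (by norm_num) (by norm_num) (by norm_num) (by norm_num) (by norm_num) (by norm_num) (by norm_num) (by norm_num) (by norm_num)
    (exp_neg_leJ (r := 0.386) 4 (by norm_num) (by norm_num) (by norm_num) (by norm_num))
    (exp_neg_leJ (r := 0.266) 3 (by norm_num) (by norm_num) (by norm_num) (by norm_num))
    (exp_neg_leJ (r := 0.25) 9 (by norm_num) (by norm_num) (by norm_num) (by norm_num))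
    (exp_neg_leJ (r := 0.99) 14 (by norm_num) (by norm_num) (by norm_num) (by norm_num))
    (exp_neg_leJ (r := 0.64) 4 (by norm_num) (by norm_num) (by norm_num) (by norm_num))
    (exp_neg_leJ (r := 0.117) 10 (by norm_num) (by norm_num) (by norm_num) (by norm_num))
    (exp_neg_leJ (r := 0.798) 4 (by norm_num) (by norm_num) (by norm_num) (by norm_num))
    (exp_neg_leJ (r := 0.493) 8 (by norm_num) (by norm_num) (by norm_num) (by norm_num))
    (by norm_num)) (by norm_num) hN hβ.le (by norm_num)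

private theorem B5Kw_T25_1_1 {β x y : ℝ} (hβ : 0 < β) (hN : β * 7.518 ≤ 1) (hx1 : 0.727 ≤ x) (hx2 : x ≤ 0.853)
    (hy1 : -0 ≤ y) (hy2 : y ≤ 0.5201) : ‖HH β (x + y * I) - 1‖ ≤ 0.12 := by
  refine le_epsJ (C := 0.9016) (N0 := 7.518) (J_boxp 0.727 0.853 0 0.5201 0.5201 1.2219 0.9991 1.7431 0.9775 0.5268 2.7419 7.518 0.8177 3.047 1.447 1.092 0.6109 0.4444 1.2571 3.5714 0.655 1.4535 0.7939 0.9994 0.01014 0.03544 0.0000787 0.0000003101 0.00729 0.00001802 0.002568 0.0005461 0.9016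
    hβ hN hx1 hx2 hy1 hy2 (by norm_num) (by norm_num) (by linarith) (by norm_num) (by norm_num) (by norm_num) (by norm_num) (by norm_num) (by norm_num) (by norm_num) (by norm_num) (by norm_num) (by norm_num) (by norm_num) (by norm_num) (by norm_num) (by norm_num) (by norm_num) (by norm_num) (by norm_num) (by norm_num) (by norm_num) (by norm_num) (by norm_num)
    (cube_sqrt_geJ (s := 0.8528) (by norm_num) (by norm_num) (by norm_num) (by norm_num))
    (cube_sqrt_geJ (s := 0.9486) (by norm_num) (by norm_num) (by norm_num) (by norm_num))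
    (by norm_num) (by norm_num) (by norm_num) (by norm_num) (by norm_num) (by norm_num) (by norm_num) (by norm_num) (by norm_num) (by norm_num) (by norm_num) (by norm_num) (by norm_num) (by norm_num) (by norm_num) (by norm_num) (by norm_num) (by norm_num)
    (exp_neg_leJ (r := 0.592) 4 (by norm_num) (by norm_num) (by norm_num) (by norm_num))
    (exp_neg_leJ (r := 0.34) 3 (by norm_num) (by norm_num) (by norm_num) (by norm_num))
    (exp_neg_leJ (r := 0.45) 9 (by norm_num) (by norm_num) (by norm_num) (by norm_num))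
    (exp_neg_leJ (r := 0.99) 14 (by norm_num) (by norm_num) (by norm_num) (by norm_num))
    (exp_neg_leJ (r := 0.924) 4 (by norm_num) (by norm_num) (by norm_num) (by norm_num))
    (exp_neg_leJ (r := 0.927) 10 (by norm_num) (by norm_num) (by norm_num) (by norm_num))
    (exp_neg_leJ (r := 0.968) 5 (by norm_num) (by norm_num) (by norm_num) (by norm_num))
    (exp_neg_leJ (r := 0.513) 7 (by norm_num) (by norm_num) (by norm_num) (by norm_num))
    (by norm_num)) (by norm_num) hN hβ.le (by norm_num)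

private theorem B5Kw_T25_1_2 {β x y : ℝ} (hβ : 0 < β) (hN : β * 7.518 ≤ 1) (hx1 : 0.853 ≤ x) (hx2 : x ≤ 1.028)
    (hy1 : -0 ≤ y) (hy2 : y ≤ 0.5201) : ‖HH β (x + y * I) - 1‖ ≤ 0.12 := by
  refine le_epsJ (C := 0.901) (N0 := 7.518) (J_boxp 0.853 1.028 0 0.5201 0.5201 1.3106 1.1521 1.8351 0.9029 0.5405 2.7419 7.518 0.8791 3.366 1.49 1.0247 0.6552 0.4632 1.3002 3.4761 0.7162 1.628 1.0459 0.8355 0.007282 0.03076 0.00005699 0.0000003101 0.00459 0.000004839 0.0003855 0.001872 0.901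
    hβ hN hx1 hx2 hy1 hy2 (by norm_num) (by norm_num) (by linarith) (by norm_num) (by norm_num) (by norm_num) (by norm_num) (by norm_num) (by norm_num) (by norm_num) (by norm_num) (by norm_num) (by norm_num) (by norm_num) (by norm_num) (by norm_num) (by norm_num) (by norm_num) (by norm_num) (by norm_num) (by norm_num) (by norm_num) (by norm_num) (by norm_num)
    (cube_sqrt_geJ (s := 0.8408) (by norm_num) (by norm_num) (by norm_num) (by norm_num))
    (cube_sqrt_geJ (s := 0.9446) (by norm_num) (by norm_num) (by norm_num) (by norm_num))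
    (by norm_num) (by norm_num) (by norm_num) (by norm_num) (by norm_num) (by norm_num) (by norm_num) (by norm_num) (by norm_num) (by norm_num) (by norm_num) (by norm_num) (by norm_num) (by norm_num) (by norm_num) (by norm_num) (by norm_num) (by norm_num)
    (exp_neg_leJ (r := 0.925) 4 (by norm_num) (by norm_num) (by norm_num) (by norm_num))
    (exp_neg_leJ (r := 0.482) 3 (by norm_num) (by norm_num) (by norm_num) (by norm_num))
    (exp_neg_leJ (r := 0.774) 9 (by norm_num) (by norm_num) (by norm_num) (by norm_num))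
    (exp_neg_leJ (r := 0.99) 14 (by norm_num) (by norm_num) (by norm_num) (by norm_num))
    (exp_neg_leJ (r := 0.384) 5 (by norm_num) (by norm_num) (by norm_num) (by norm_num))
    (exp_neg_leJ (r := 0.239) 12 (by norm_num) (by norm_num) (by norm_num) (by norm_num))
    (exp_neg_leJ (r := 0.863) 7 (by norm_num) (by norm_num) (by norm_num) (by norm_num))
    (exp_neg_leJ (r := 0.281) 6 (by norm_num) (by norm_num) (by norm_num) (by norm_num))
    (by norm_num)) (by norm_num) hN hβ.le (by norm_num)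

private theorem B5Kw_T25_1_3 {β x y : ℝ} (hβ : 0 < β) (hN : β * 7.518 ≤ 1) (hx1 : 1.028 ≤ x) (hx2 : x ≤ 1.1615)
    (hy1 : -0 ≤ y) (hy2 : y ≤ 0.5201) : ‖HH β (x + y * I) - 1‖ ≤ 0.12 := by
  refine le_epsJ (C := 0.7641) (N0 := 7.518) (J_boxp 1.028 1.1615 0 0.5201 0.5201 1.4339 1.2727 1.9131 0.8056 0.5518 2.7419 7.518 0.8876 3.414 1.496 0.9733 0.7169 0.5048 1.3601 3.4024 0.8012 1.8703 1.3959 0.8577 0.004567 0.02252 0.00003626 0.0000003101 0.002423 0.0000007832 0.00002771 0.001584 0.7641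
    hβ hN hx1 hx2 hy1 hy2 (by norm_num) (by norm_num) (by linarith) (by norm_num) (by norm_num) (by norm_num) (by norm_num) (by norm_num) (by norm_num) (by norm_num) (by norm_num) (by norm_num) (by norm_num) (by norm_num) (by norm_num) (by norm_num) (by norm_num) (by norm_num) (by norm_num) (by norm_num) (by norm_num) (by norm_num) (by norm_num) (by norm_num)
    (cube_sqrt_geJ (s := 0.8391) (by norm_num) (by norm_num) (by norm_num) (by norm_num))
    (cube_sqrt_geJ (s := 0.944) (by norm_num) (by norm_num) (by norm_num) (by norm_num))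
    (by norm_num) (by norm_num) (by norm_num) (by norm_num) (by norm_num) (by norm_num) (by norm_num) (by norm_num) (by norm_num) (by norm_num) (by norm_num) (by norm_num) (by norm_num) (by norm_num) (by norm_num) (by norm_num) (by norm_num) (by norm_num)
    (exp_neg_leJ (r := 0.389) 5 (by norm_num) (by norm_num) (by norm_num) (by norm_num))
    (exp_neg_leJ (r := 0.795) 3 (by norm_num) (by norm_num) (by norm_num) (by norm_num))
    (exp_neg_leJ (r := 0.225) 10 (by norm_num) (by norm_num) (by norm_num) (by norm_num))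
    (exp_neg_leJ (r := 0.99) 14 (by norm_num) (by norm_num) (by norm_num) (by norm_num))
    (exp_neg_leJ (r := 0.023) 6 (by norm_num) (by norm_num) (by norm_num) (by norm_num))
    (exp_neg_leJ (r := 0.06) 14 (by norm_num) (by norm_num) (by norm_num) (by norm_num))
    (exp_neg_leJ (r := 0.494) 10 (by norm_num) (by norm_num) (by norm_num) (by norm_num))
    (exp_neg_leJ (r := 0.448) 6 (by norm_num) (by norm_num) (by norm_num) (by norm_num))
    (by norm_num)) (by norm_num) hN hβ.le (by norm_num)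

private theorem B5Kw_T25 {β x y : ℝ} (hβ : 0 < β) (hN : β * 7.518 ≤ 1) (hx1 : 0.6492 ≤ x) (hx2 : x ≤ 1.1615)
    (hy1 : 0.0829 ≤ y) (hy2 : y ≤ 0.5201) : ‖HH β (x + y * I) - 1‖ ≤ 0.12 := by
  rcases le_total y 0.476 with hyy | hyy
  · rcases le_total x 0.775 with hxx | hxx
    · exact B5Kw_T25_0_0 hβ hN (by linarith) (by linarith) (by linarith) (by linarith)
    rcases le_total x 0.954 with hxx | hxx
    · exact B5Kw_T25_0_1 hβ hN (by linarith) (by linarith) (by linarith) (by linarith)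
    exact B5Kw_T25_0_2 hβ hN (by linarith) (by linarith) (by linarith) (by linarith)
  rcases le_total x 0.727 with hxx | hxx
  · exact B5Kw_T25_1_0 hβ hN (by linarith) (by linarith) (by linarith) (by linarith)
  rcases le_total x 0.853 with hxx | hxx
  · exact B5Kw_T25_1_1 hβ hN (by linarith) (by linarith) (by linarith) (by linarith)
  rcases le_total x 1.028 with hxx | hxx
  · exact B5Kw_T25_1_2 hβ hN (by linarith) (by linarith) (by linarith) (by linarith)
  exact B5Kw_T25_1_3 hβ hN (by linarith) (by linarith) (by linarith) (by linarith)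

private theorem B5Kw_T26_0_0 {β x y : ℝ} (hβ : 0 < β) (hN : β * 7.518 ≤ 1) (hx1 : 1.4223 ≤ x) (hx2 : x ≤ 1.442)
    (hy1 : -0.4551 ≤ y) (hy2 : y ≤ -0.0979) : ‖HH β (x + y * I) - 1‖ ≤ 0.17 := by
  refine le_epsJ (C := 1.2756) (N0 := 7.518) (J_boxp 1.4223 1.442 0.4551 0 (-0.0979) 1.3884 1.5122 1.701 0.7973 0.5204 2.7419 7.518 1.0892 4.85 1.651 0.4454 0.6941 0.4421 0.7767 1.823 0.7972 2.4693 3.1782 3.446 0.005419 0.03605 0.002917 0.000001118 0.002513 0.0000003101 0.0000003101 0.0000003101 1.2756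
    hβ hN hx1 hx2 hy1 hy2 (by norm_num) (by norm_num) (by linarith) (by norm_num) (by norm_num) (by norm_num) (by norm_num) (by norm_num) (by norm_num) (by norm_num) (by norm_num) (by norm_num) (by norm_num) (by norm_num) (by norm_num) (by norm_num) (by norm_num) (by norm_num) (by norm_num) (by norm_num) (by norm_num) (by norm_num) (by norm_num) (by norm_num)
    (cube_sqrt_geJ (s := 0.798) (by norm_num) (by norm_num) (by norm_num) (by norm_num))
    (cube_sqrt_geJ (s := 0.9309) (by norm_num) (by norm_num) (by norm_num) (by norm_num))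
    (by norm_num) (by norm_num) (by norm_num) (by norm_num) (by norm_num) (by norm_num) (by norm_num) (by norm_num) (by norm_num) (by norm_num) (by norm_num) (by norm_num) (by norm_num) (by norm_num) (by norm_num) (by norm_num) (by norm_num) (by norm_num)
    (exp_neg_leJ (r := 0.218) 5 (by norm_num) (by norm_num) (by norm_num) (by norm_num))
    (exp_neg_leJ (r := 0.323) 3 (by norm_num) (by norm_num) (by norm_num) (by norm_num))
    (exp_neg_leJ (r := 0.839) 5 (by norm_num) (by norm_num) (by norm_num) (by norm_num))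
    (exp_neg_leJ (r := 0.705) 13 (by norm_num) (by norm_num) (by norm_num) (by norm_num))
    (exp_neg_leJ (r := 0.99) 5 (by norm_num) (by norm_num) (by norm_num) (by norm_num))
    (exp_neg_leJ (r := 0.99) 14 (by norm_num) (by norm_num) (by norm_num) (by norm_num))
    (exp_neg_leJ (r := 0.99) 14 (by norm_num) (by norm_num) (by norm_num) (by norm_num))
    (exp_neg_leJ (r := 0.99) 14 (by norm_num) (by norm_num) (by norm_num) (by norm_num))
    (by norm_num)) (by norm_num) hN hβ.le (by norm_num)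

private theorem B5Kw_T26_0_1 {β x y : ℝ} (hβ : 0 < β) (hN : β * 7.518 ≤ 1) (hx1 : 1.442 ≤ x) (hx2 : x ≤ 1.467)
    (hy1 : -0.4551 ≤ y) (hy2 : y ≤ -0.0979) : ‖HH β (x + y * I) - 1‖ ≤ 0.17 := by
  refine le_epsJ (C := 1.2779) (N0 := 7.518) (J_boxp 1.442 1.467 0.4551 0 (-0.0979) 1.4022 1.536 1.7222 0.7904 0.5236 2.7419 7.518 1.0955 4.906 1.656 0.4357 0.701 0.445 0.7835 1.8089 0.8068 2.4966 3.2176 3.4207 0.005144 0.03527 0.002774 0.000001243 0.002323 0.0000003101 0.0000003101 0.0000003101 1.2779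
    hβ hN hx1 hx2 hy1 hy2 (by norm_num) (by norm_num) (by linarith) (by norm_num) (by norm_num) (by norm_num) (by norm_num) (by norm_num) (by norm_num) (by norm_num) (by norm_num) (by norm_num) (by norm_num) (by norm_num) (by norm_num) (by norm_num) (by norm_num) (by norm_num) (by norm_num) (by norm_num) (by norm_num) (by norm_num) (by norm_num) (by norm_num)
    (cube_sqrt_geJ (s := 0.7967) (by norm_num) (by norm_num) (by norm_num) (by norm_num))
    (cube_sqrt_geJ (s := 0.9305) (by norm_num) (by norm_num) (by norm_num) (by norm_num))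
    (by norm_num) (by norm_num) (by norm_num) (by norm_num) (by norm_num) (by norm_num) (by norm_num) (by norm_num) (by norm_num) (by norm_num) (by norm_num) (by norm_num) (by norm_num) (by norm_num) (by norm_num) (by norm_num) (by norm_num) (by norm_num)
    (exp_neg_leJ (r := 0.27) 5 (by norm_num) (by norm_num) (by norm_num) (by norm_num))
    (exp_neg_leJ (r := 0.345) 3 (by norm_num) (by norm_num) (by norm_num) (by norm_num))
    (exp_neg_leJ (r := 0.89) 5 (by norm_num) (by norm_num) (by norm_num) (by norm_num))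
    (exp_neg_leJ (r := 0.599) 13 (by norm_num) (by norm_num) (by norm_num) (by norm_num))
    (exp_neg_leJ (r := 0.065) 6 (by norm_num) (by norm_num) (by norm_num) (by norm_num))
    (exp_neg_leJ (r := 0.99) 14 (by norm_num) (by norm_num) (by norm_num) (by norm_num))
    (exp_neg_leJ (r := 0.99) 14 (by norm_num) (by norm_num) (by norm_num) (by norm_num))
    (exp_neg_leJ (r := 0.99) 14 (by norm_num) (by norm_num) (by norm_num) (by norm_num))
    (by norm_num)) (by norm_num) hN hβ.le (by norm_num)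

private theorem B5Kw_T26_0_2 {β x y : ℝ} (hβ : 0 < β) (hN : β * 7.518 ≤ 1) (hx1 : 1.467 ≤ x) (hx2 : x ≤ 1.497)
    (hy1 : -0.4551 ≤ y) (hy2 : y ≤ -0.0979) : ‖HH β (x + y * I) - 1‖ ≤ 0.17 := by
  refine le_epsJ (C := 1.2764) (N0 := 7.518) (J_boxp 1.467 1.497 0.4551 0 (-0.0979) 1.4198 1.5647 1.7478 0.7815 0.5275 2.7419 7.518 1.1021 4.967 1.662 0.4242 0.7098 0.4491 0.792 1.7919 0.8189 2.5312 3.2676 3.3927 0.004816 0.03419 0.002604 0.000001412 0.002121 0.0000003101 0.0000003101 0.0000003101 1.2764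
    hβ hN hx1 hx2 hy1 hy2 (by norm_num) (by norm_num) (by linarith) (by norm_num) (by norm_num) (by norm_num) (by norm_num) (by norm_num) (by norm_num) (by norm_num) (by norm_num) (by norm_num) (by norm_num) (by norm_num) (by norm_num) (by norm_num) (by norm_num) (by norm_num) (by norm_num) (by norm_num) (by norm_num) (by norm_num) (by norm_num) (by norm_num)
    (cube_sqrt_geJ (s := 0.7953) (by norm_num) (by norm_num) (by norm_num) (by norm_num))
    (cube_sqrt_geJ (s := 0.93) (by norm_num) (by norm_num) (by norm_num) (by norm_num))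
    (by norm_num) (by norm_num) (by norm_num) (by norm_num) (by norm_num) (by norm_num) (by norm_num) (by norm_num) (by norm_num) (by norm_num) (by norm_num) (by norm_num) (by norm_num) (by norm_num) (by norm_num) (by norm_num) (by norm_num) (by norm_num)
    (exp_neg_leJ (r := 0.336) 5 (by norm_num) (by norm_num) (by norm_num) (by norm_num))
    (exp_neg_leJ (r := 0.376) 3 (by norm_num) (by norm_num) (by norm_num) (by norm_num))
    (exp_neg_leJ (r := 0.954) 5 (by norm_num) (by norm_num) (by norm_num) (by norm_num))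
    (exp_neg_leJ (r := 0.471) 13 (by norm_num) (by norm_num) (by norm_num) (by norm_num))
    (exp_neg_leJ (r := 0.156) 6 (by norm_num) (by norm_num) (by norm_num) (by norm_num))
    (exp_neg_leJ (r := 0.99) 14 (by norm_num) (by norm_num) (by norm_num) (by norm_num))
    (exp_neg_leJ (r := 0.99) 14 (by norm_num) (by norm_num) (by norm_num) (by norm_num))
    (exp_neg_leJ (r := 0.99) 14 (by norm_num) (by norm_num) (by norm_num) (by norm_num))
    (by norm_num)) (by norm_num) hN hβ.le (by norm_num)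

private theorem B5Kw_T26_0_3 {β x y : ℝ} (hβ : 0 < β) (hN : β * 7.518 ≤ 1) (hx1 : 1.497 ≤ x) (hx2 : x ≤ 1.534)
    (hy1 : -0.4551 ≤ y) (hy2 : y ≤ -0.0979) : ‖HH β (x + y * I) - 1‖ ≤ 0.17 := by
  refine le_epsJ (C := 1.2771) (N0 := 7.518) (J_boxp 1.497 1.534 0.4551 0 (-0.0979) 1.441 1.6001 1.7796 0.7712 0.5322 2.7419 7.518 1.1105 5.044 1.668 0.41 0.7204 0.4537 0.8023 1.771 0.8335 2.5727 3.3276 3.3565 0.00445 0.03305 0.002404 0.000001652 0.0019 0.0000003101 0.0000003101 0.0000003101 1.2771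
    hβ hN hx1 hx2 hy1 hy2 (by norm_num) (by norm_num) (by linarith) (by norm_num) (by norm_num) (by norm_num) (by norm_num) (by norm_num) (by norm_num) (by norm_num) (by norm_num) (by norm_num) (by norm_num) (by norm_num) (by norm_num) (by norm_num) (by norm_num) (by norm_num) (by norm_num) (by norm_num) (by norm_num) (by norm_num) (by norm_num) (by norm_num)
    (cube_sqrt_geJ (s := 0.7936) (by norm_num) (by norm_num) (by norm_num) (by norm_num))
    (cube_sqrt_geJ (s := 0.9295) (by norm_num) (by norm_num) (by norm_num) (by norm_num))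
    (by norm_num) (by norm_num) (by norm_num) (by norm_num) (by norm_num) (by norm_num) (by norm_num) (by norm_num) (by norm_num) (by norm_num) (by norm_num) (by norm_num) (by norm_num) (by norm_num) (by norm_num) (by norm_num) (by norm_num) (by norm_num)
    (exp_neg_leJ (r := 0.415) 5 (by norm_num) (by norm_num) (by norm_num) (by norm_num))
    (exp_neg_leJ (r := 0.41) 3 (by norm_num) (by norm_num) (by norm_num) (by norm_num))
    (exp_neg_leJ (r := 0.031) 6 (by norm_num) (by norm_num) (by norm_num) (by norm_num))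
    (exp_neg_leJ (r := 0.314) 13 (by norm_num) (by norm_num) (by norm_num) (by norm_num))
    (exp_neg_leJ (r := 0.266) 6 (by norm_num) (by norm_num) (by norm_num) (by norm_num))
    (exp_neg_leJ (r := 0.99) 14 (by norm_num) (by norm_num) (by norm_num) (by norm_num))
    (exp_neg_leJ (r := 0.99) 14 (by norm_num) (by norm_num) (by norm_num) (by norm_num))
    (exp_neg_leJ (r := 0.99) 14 (by norm_num) (by norm_num) (by norm_num) (by norm_num))
    (by norm_num)) (by norm_num) hN hβ.le (by norm_num)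

private theorem B5Kw_T26_0_4 {β x y : ℝ} (hβ : 0 < β) (hN : β * 7.518 ≤ 1) (hx1 : 1.534 ≤ x) (hx2 : x ≤ 1.579)
    (hy1 : -0.4551 ≤ y) (hy2 : y ≤ -0.0979) : ‖HH β (x + y * I) - 1‖ ≤ 0.17 := by
  refine le_epsJ (C := 1.277) (N0 := 7.518) (J_boxp 1.534 1.579 0.4551 0 (-0.0979) 1.467 1.6433 1.8186 0.759 0.538 2.7419 7.518 1.1202 5.136 1.677 0.3927 0.7334 0.4596 0.815 1.7454 0.8514 2.6239 3.4016 3.3131 0.004035 0.0316 0.002184 0.000002003 0.001662 0.0000003101 0.0000003101 0.0000003101 1.277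
    hβ hN hx1 hx2 hy1 hy2 (by norm_num) (by norm_num) (by linarith) (by norm_num) (by norm_num) (by norm_num) (by norm_num) (by norm_num) (by norm_num) (by norm_num) (by norm_num) (by norm_num) (by norm_num) (by norm_num) (by norm_num) (by norm_num) (by norm_num) (by norm_num) (by norm_num) (by norm_num) (by norm_num) (by norm_num) (by norm_num) (by norm_num)
    (cube_sqrt_geJ (s := 0.7915) (by norm_num) (by norm_num) (by norm_num) (by norm_num))
    (cube_sqrt_geJ (s := 0.9288) (by norm_num) (by norm_num) (by norm_num) (by norm_num))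
    (by norm_num) (by norm_num) (by norm_num) (by norm_num) (by norm_num) (by norm_num) (by norm_num) (by norm_num) (by norm_num) (by norm_num) (by norm_num) (by norm_num) (by norm_num) (by norm_num) (by norm_num) (by norm_num) (by norm_num) (by norm_num)
    (exp_neg_leJ (r := 0.513) 5 (by norm_num) (by norm_num) (by norm_num) (by norm_num))
    (exp_neg_leJ (r := 0.455) 3 (by norm_num) (by norm_num) (by norm_num) (by norm_num))
    (exp_neg_leJ (r := 0.127) 6 (by norm_num) (by norm_num) (by norm_num) (by norm_num))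
    (exp_neg_leJ (r := 0.121) 13 (by norm_num) (by norm_num) (by norm_num) (by norm_num))
    (exp_neg_leJ (r := 0.4) 6 (by norm_num) (by norm_num) (by norm_num) (by norm_num))
    (exp_neg_leJ (r := 0.99) 14 (by norm_num) (by norm_num) (by norm_num) (by norm_num))
    (exp_neg_leJ (r := 0.99) 14 (by norm_num) (by norm_num) (by norm_num) (by norm_num))
    (exp_neg_leJ (r := 0.99) 14 (by norm_num) (by norm_num) (by norm_num) (by norm_num))
    (by norm_num)) (by norm_num) hN hβ.le (by norm_num)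

private theorem B5Kw_T26_0_5 {β x y : ℝ} (hβ : 0 < β) (hN : β * 7.518 ≤ 1) (hx1 : 1.579 ≤ x) (hx2 : x ≤ 1.634)
    (hy1 : -0.4551 ≤ y) (hy2 : y ≤ -0.0979) : ‖HH β (x + y * I) - 1‖ ≤ 0.17 := by
  refine le_epsJ (C := 1.2778) (N0 := 7.518) (J_boxp 1.579 1.634 0.4551 0 (-0.0979) 1.4987 1.6962 1.8665 0.7447 0.5451 2.7419 7.518 1.1318 5.248 1.686 0.3715 0.7493 0.4666 0.8304 1.7142 0.8733 2.6863 3.4916 3.2593 0.00358 0.03 0.001946 0.000002537 0.00141 0.0000003101 0.0000003101 0.0000003101 1.2778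
    hβ hN hx1 hx2 hy1 hy2 (by norm_num) (by norm_num) (by linarith) (by norm_num) (by norm_num) (by norm_num) (by norm_num) (by norm_num) (by norm_num) (by norm_num) (by norm_num) (by norm_num) (by norm_num) (by norm_num) (by norm_num) (by norm_num) (by norm_num) (by norm_num) (by norm_num) (by norm_num) (by norm_num) (by norm_num) (by norm_num) (by norm_num)
    (cube_sqrt_geJ (s := 0.7891) (by norm_num) (by norm_num) (by norm_num) (by norm_num))
    (cube_sqrt_geJ (s := 0.9281) (by norm_num) (by norm_num) (by norm_num) (by norm_num))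
    (by norm_num) (by norm_num) (by norm_num) (by norm_num) (by norm_num) (by norm_num) (by norm_num) (by norm_num) (by norm_num) (by norm_num) (by norm_num) (by norm_num) (by norm_num) (by norm_num) (by norm_num) (by norm_num) (by norm_num) (by norm_num)
    (exp_neg_leJ (r := 0.633) 5 (by norm_num) (by norm_num) (by norm_num) (by norm_num))
    (exp_neg_leJ (r := 0.507) 3 (by norm_num) (by norm_num) (by norm_num) (by norm_num))
    (exp_neg_leJ (r := 0.242) 6 (by norm_num) (by norm_num) (by norm_num) (by norm_num))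
    (exp_neg_leJ (r := 0.887) 12 (by norm_num) (by norm_num) (by norm_num) (by norm_num))
    (exp_neg_leJ (r := 0.565) 6 (by norm_num) (by norm_num) (by norm_num) (by norm_num))
    (exp_neg_leJ (r := 0.99) 14 (by norm_num) (by norm_num) (by norm_num) (by norm_num))
    (exp_neg_leJ (r := 0.99) 14 (by norm_num) (by norm_num) (by norm_num) (by norm_num))
    (exp_neg_leJ (r := 0.99) 14 (by norm_num) (by norm_num) (by norm_num) (by norm_num))
    (by norm_num)) (by norm_num) hN hβ.le (by norm_num)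

private theorem B5Kw_T26_0_6 {β x y : ℝ} (hβ : 0 < β) (hN : β * 7.518 ≤ 1) (hx1 : 1.634 ≤ x) (hx2 : x ≤ 1.7)
    (hy1 : -0.4551 ≤ y) (hy2 : y ≤ -0.0979) : ‖HH β (x + y * I) - 1‖ ≤ 0.17 := by
  refine le_epsJ (C := 1.2766) (N0 := 7.518) (J_boxp 1.634 1.7 0.4551 0 (-0.0979) 1.5374 1.7599 1.9246 0.7278 0.5535 2.7419 7.518 1.1448 5.378 1.697 0.3461 0.7686 0.4753 0.8492 1.6766 0.9 2.7624 3.6016 3.1961 0.003099 0.02809 0.001689 0.00000336 0.001154 0.0000003101 0.0000003101 0.0000003101 1.2766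
    hβ hN hx1 hx2 hy1 hy2 (by norm_num) (by norm_num) (by linarith) (by norm_num) (by norm_num) (by norm_num) (by norm_num) (by norm_num) (by norm_num) (by norm_num) (by norm_num) (by norm_num) (by norm_num) (by norm_num) (by norm_num) (by norm_num) (by norm_num) (by norm_num) (by norm_num) (by norm_num) (by norm_num) (by norm_num) (by norm_num) (by norm_num)
    (cube_sqrt_geJ (s := 0.7863) (by norm_num) (by norm_num) (by norm_num) (by norm_num))
    (cube_sqrt_geJ (s := 0.9272) (by norm_num) (by norm_num) (by norm_num) (by norm_num))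
    (by norm_num) (by norm_num) (by norm_num) (by norm_num) (by norm_num) (by norm_num) (by norm_num) (by norm_num) (by norm_num) (by norm_num) (by norm_num) (by norm_num) (by norm_num) (by norm_num) (by norm_num) (by norm_num) (by norm_num) (by norm_num)
    (exp_neg_leJ (r := 0.778) 5 (by norm_num) (by norm_num) (by norm_num) (by norm_num))
    (exp_neg_leJ (r := 0.573) 3 (by norm_num) (by norm_num) (by norm_num) (by norm_num))
    (exp_neg_leJ (r := 0.384) 6 (by norm_num) (by norm_num) (by norm_num) (by norm_num))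
    (exp_neg_leJ (r := 0.604) 12 (by norm_num) (by norm_num) (by norm_num) (by norm_num))
    (exp_neg_leJ (r := 0.766) 6 (by norm_num) (by norm_num) (by norm_num) (by norm_num))
    (exp_neg_leJ (r := 0.99) 14 (by norm_num) (by norm_num) (by norm_num) (by norm_num))
    (exp_neg_leJ (r := 0.99) 14 (by norm_num) (by norm_num) (by norm_num) (by norm_num))
    (exp_neg_leJ (r := 0.99) 14 (by norm_num) (by norm_num) (by norm_num) (by norm_num))
    (by norm_num)) (by norm_num) hN hβ.le (by norm_num)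

private theorem B5Kw_T26_0_7 {β x y : ℝ} (hβ : 0 < β) (hN : β * 7.518 ≤ 1) (hx1 : 1.7 ≤ x) (hx2 : x ≤ 1.78)
    (hy1 : -0.4551 ≤ y) (hy2 : y ≤ -0.0979) : ‖HH β (x + y * I) - 1‖ ≤ 0.17 := by
  refine le_epsJ (C := 1.2767) (N0 := 7.518) (J_boxp 1.7 1.78 0.4551 0 (-0.0979) 1.5839 1.8373 1.9956 0.7087 0.5636 2.7419 7.518 1.16 5.535 1.71 0.3154 0.7919 0.4857 0.8718 1.6311 0.9321 2.8538 3.7336 3.1177 0.002606 0.02599 0.001425 0.000004729 0.0009056 0.0000003101 0.0000003101 0.0000003101 1.2767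
    hβ hN hx1 hx2 hy1 hy2 (by norm_num) (by norm_num) (by linarith) (by norm_num) (by norm_num) (by norm_num) (by norm_num) (by norm_num) (by norm_num) (by norm_num) (by norm_num) (by norm_num) (by norm_num) (by norm_num) (by norm_num) (by norm_num) (by norm_num) (by norm_num) (by norm_num) (by norm_num) (by norm_num) (by norm_num) (by norm_num) (by norm_num)
    (cube_sqrt_geJ (s := 0.7831) (by norm_num) (by norm_num) (by norm_num) (by norm_num))
    (cube_sqrt_geJ (s := 0.9262) (by norm_num) (by norm_num) (by norm_num) (by norm_num))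
    (by norm_num) (by norm_num) (by norm_num) (by norm_num) (by norm_num) (by norm_num) (by norm_num) (by norm_num) (by norm_num) (by norm_num) (by norm_num) (by norm_num) (by norm_num) (by norm_num) (by norm_num) (by norm_num) (by norm_num) (by norm_num)
    (exp_neg_leJ (r := 0.953) 5 (by norm_num) (by norm_num) (by norm_num) (by norm_num))
    (exp_neg_leJ (r := 0.651) 3 (by norm_num) (by norm_num) (by norm_num) (by norm_num))
    (exp_neg_leJ (r := 0.554) 6 (by norm_num) (by norm_num) (by norm_num) (by norm_num))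
    (exp_neg_leJ (r := 0.262) 12 (by norm_num) (by norm_num) (by norm_num) (by norm_num))
    (exp_neg_leJ (r := 0.007) 7 (by norm_num) (by norm_num) (by norm_num) (by norm_num))
    (exp_neg_leJ (r := 0.99) 14 (by norm_num) (by norm_num) (by norm_num) (by norm_num))
    (exp_neg_leJ (r := 0.99) 14 (by norm_num) (by norm_num) (by norm_num) (by norm_num))
    (exp_neg_leJ (r := 0.99) 14 (by norm_num) (by norm_num) (by norm_num) (by norm_num))
    (by norm_num)) (by norm_num) hN hβ.le (by norm_num)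

private theorem B5Kw_T26_0_8 {β x y : ℝ} (hβ : 0 < β) (hN : β * 7.518 ≤ 1) (hx1 : 1.78 ≤ x) (hx2 : x ≤ 1.876)
    (hy1 : -0.4551 ≤ y) (hy2 : y ≤ -0.0979) : ‖HH β (x + y * I) - 1‖ ≤ 0.17 := by
  refine le_epsJ (C := 1.2757) (N0 := 7.518) (J_boxp 1.78 1.876 0.4551 0 (-0.0979) 1.6402 1.9305 2.0817 0.6869 0.5756 2.7419 7.518 1.177 5.718 1.725 0.2784 0.82 0.4983 0.8992 1.5763 0.9709 2.9646 3.8936 3.0244 0.002104 0.02364 0.001161 0.000007152 0.0006763 0.0000003101 0.0000003101 0.0000003101 1.2757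
    hβ hN hx1 hx2 hy1 hy2 (by norm_num) (by norm_num) (by linarith) (by norm_num) (by norm_num) (by norm_num) (by norm_num) (by norm_num) (by norm_num) (by norm_num) (by norm_num) (by norm_num) (by norm_num) (by norm_num) (by norm_num) (by norm_num) (by norm_num) (by norm_num) (by norm_num) (by norm_num) (by norm_num) (by norm_num) (by norm_num) (by norm_num)
    (cube_sqrt_geJ (s := 0.7795) (by norm_num) (by norm_num) (by norm_num) (by norm_num))
    (cube_sqrt_geJ (s := 0.9251) (by norm_num) (by norm_num) (by norm_num) (by norm_num))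
    (by norm_num) (by norm_num) (by norm_num) (by norm_num) (by norm_num) (by norm_num) (by norm_num) (by norm_num) (by norm_num) (by norm_num) (by norm_num) (by norm_num) (by norm_num) (by norm_num) (by norm_num) (by norm_num) (by norm_num) (by norm_num)
    (exp_neg_leJ (r := 0.164) 6 (by norm_num) (by norm_num) (by norm_num) (by norm_num))
    (exp_neg_leJ (r := 0.746) 3 (by norm_num) (by norm_num) (by norm_num) (by norm_num))
    (exp_neg_leJ (r := 0.76) 6 (by norm_num) (by norm_num) (by norm_num) (by norm_num))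
    (exp_neg_leJ (r := 0.85) 11 (by norm_num) (by norm_num) (by norm_num) (by norm_num))
    (exp_neg_leJ (r := 0.299) 7 (by norm_num) (by norm_num) (by norm_num) (by norm_num))
    (exp_neg_leJ (r := 0.99) 14 (by norm_num) (by norm_num) (by norm_num) (by norm_num))
    (exp_neg_leJ (r := 0.99) 14 (by norm_num) (by norm_num) (by norm_num) (by norm_num))
    (exp_neg_leJ (r := 0.99) 14 (by norm_num) (by norm_num) (by norm_num) (by norm_num))
    (by norm_num)) (by norm_num) hN hβ.le (by norm_num)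

private theorem B5Kw_T26_0_9 {β x y : ℝ} (hβ : 0 < β) (hN : β * 7.518 ≤ 1) (hx1 : 1.876 ≤ x) (hx2 : x ≤ 1.9373)
    (hy1 : -0.4551 ≤ y) (hy2 : y ≤ -0.0979) : ‖HH β (x + y * I) - 1‖ ≤ 0.17 := by
  refine le_epsJ (C := 1.1608) (N0 := 7.518) (J_boxp 1.876 1.9373 0.4551 0 (-0.0979) 1.7078 1.9901 2.1371 0.6551 0.5833 2.7419 7.518 1.1654 5.592 1.715 0.2549 0.8538 0.5221 0.932 1.5414 1.0176 3.0975 4.0856 3.0544 0.001633 0.0198 0.0009065 0.000009281 0.0004764 0.0000003101 0.0000003101 0.0000003101 1.1608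
    hβ hN hx1 hx2 hy1 hy2 (by norm_num) (by norm_num) (by linarith) (by norm_num) (by norm_num) (by norm_num) (by norm_num) (by norm_num) (by norm_num) (by norm_num) (by norm_num) (by norm_num) (by norm_num) (by norm_num) (by norm_num) (by norm_num) (by norm_num) (by norm_num) (by norm_num) (by norm_num) (by norm_num) (by norm_num) (by norm_num) (by norm_num)
    (cube_sqrt_geJ (s := 0.782) (by norm_num) (by norm_num) (by norm_num) (by norm_num))
    (cube_sqrt_geJ (s := 0.9259) (by norm_num) (by norm_num) (by norm_num) (by norm_num))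
    (by norm_num) (by norm_num) (by norm_num) (by norm_num) (by norm_num) (by norm_num) (by norm_num) (by norm_num) (by norm_num) (by norm_num) (by norm_num) (by norm_num) (by norm_num) (by norm_num) (by norm_num) (by norm_num) (by norm_num) (by norm_num)
    (exp_neg_leJ (r := 0.418) 6 (by norm_num) (by norm_num) (by norm_num) (by norm_num))
    (exp_neg_leJ (r := 0.925) 3 (by norm_num) (by norm_num) (by norm_num) (by norm_num))
    (exp_neg_leJ (r := 0.006) 7 (by norm_num) (by norm_num) (by norm_num) (by norm_num))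
    (exp_neg_leJ (r := 0.588) 11 (by norm_num) (by norm_num) (by norm_num) (by norm_num))
    (exp_neg_leJ (r := 0.65) 7 (by norm_num) (by norm_num) (by norm_num) (by norm_num))
    (exp_neg_leJ (r := 0.99) 14 (by norm_num) (by norm_num) (by norm_num) (by norm_num))
    (exp_neg_leJ (r := 0.99) 14 (by norm_num) (by norm_num) (by norm_num) (by norm_num))
    (exp_neg_leJ (r := 0.99) 14 (by norm_num) (by norm_num) (by norm_num) (by norm_num))
    (by norm_num)) (by norm_num) hN hβ.le (by norm_num)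

private theorem B5Kw_T26 {β x y : ℝ} (hβ : 0 < β) (hN : β * 7.518 ≤ 1) (hx1 : 1.4223 ≤ x) (hx2 : x ≤ 1.9373)
    (hy1 : (-0.4551) ≤ y) (hy2 : y ≤ (-0.0979)) : ‖HH β (x + y * I) - 1‖ ≤ 0.17 := by
  rcases le_total x 1.442 with hxx | hxx
  · exact B5Kw_T26_0_0 hβ hN (by linarith) (by linarith) (by linarith) (by linarith)
  rcases le_total x 1.467 with hxx | hxx
  · exact B5Kw_T26_0_1 hβ hN (by linarith) (by linarith) (by linarith) (by linarith)
  rcases le_total x 1.497 with hxx | hxx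
  · exact B5Kw_T26_0_2 hβ hN (by linarith) (by linarith) (by linarith) (by linarith)
  rcases le_total x 1.534 with hxx | hxx
  · exact B5Kw_T26_0_3 hβ hN (by linarith) (by linarith) (by linarith) (by linarith)
  rcases le_total x 1.579 with hxx | hxx
  · exact B5Kw_T26_0_4 hβ hN (by linarith) (by linarith) (by linarith) (by linarith)
  rcases le_total x 1.634 with hxx | hxx
  · exact B5Kw_T26_0_5 hβ hN (by linarith) (by linarith) (by linarith) (by linarith)
  rcases le_total x 1.7 with hxx | hxx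
  · exact B5Kw_T26_0_6 hβ hN (by linarith) (by linarith) (by linarith) (by linarith)
  rcases le_total x 1.78 with hxx | hxx
  · exact B5Kw_T26_0_7 hβ hN (by linarith) (by linarith) (by linarith) (by linarith)
  rcases le_total x 1.876 with hxx | hxx
  · exact B5Kw_T26_0_8 hβ hN (by linarith) (by linarith) (by linarith) (by linarith)
  exact B5Kw_T26_0_9 hβ hN (by linarith) (by linarith) (by linarith) (by linarith)

private theorem B5Kw_C27 {β r t κ : ℝ} (hβ : 0 < β) (hr : 10 ≤ r) (hκ : κ = β * r) (hk1 : 1.25 ≤ κ) (hk2 : κ ≤ 1.33) (hta : 1.9163 ≤ t + κ)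
    (htb : t + κ ≤ 2.1437) : ‖F (cexp (I * β)) (r * cexp (I * ((t + β / 2 : ℝ) : ℂ)))‖ ≤
      1.8003 * Real.exp (r * (1.27904 - 0.41 * (t + κ))) + 0.2131 * Real.exp (r * 0) :=
  v5_H 0.41 1.25 1.33 1.9163 2.1437 1.27904 1.7114 0.336 0.1455 2.1569 0.6769 0.08971 0.4133 0.0000807 1.8003 0.2131 hβ hr hκ (by norm_num) hk1 hk2 hta htb (by norm_num) (B5Kw_G5 hk1 hk2).1 (B5Kw_G5 hk1 hk2).2 (by norm_num) (by norm_num) (by norm_num)
    (by norm_num) (by norm_num) (by norm_num) (by norm_num) (by norm_num) (by norm_num) (by norm_num) (by norm_num) (ex_un 0 0.897 (by norm_num) (by norm_num) (by norm_num) (by norm_num))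
    (v5_hump 1.2829 7.518 2.7419 0.00006505 0.0000807 hβ hr hκ hk1 hk2 (by norm_num) htb (by norm_num) (by norm_num) (by norm_num) (by norm_num) (by norm_num) (by norm_num) (by norm_num) (ex_un 9 0.6448 (by norm_num) (by norm_num) (by norm_num) (by norm_num)) (by norm_num)) (by norm_num) (by norm_num)

private theorem B5Kw_G28 {κ : ℝ} (hk1 : 1.25 ≤ κ) (hk2 : κ ≤ 1.33) : gG κ (-0.59) ≤ 1.48698 ∧ 4.3709 ≤ Real.exp (-(κ * (-0.59))) ^ 2 := by
  refine ⟨gG_le (-0.59) 1.25 1.33 1.48698 2.09071 2.19175 0.47832 0.45627 hk1 hk2 (by norm_num)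
    (ex_up 0.7375 (by norm_num) (by norm_num) (by norm_num) (by norm_num)) (ex_up 0.7847 (by norm_num) (by norm_num) (by norm_num) (by norm_num))
    (ex_um 0.7375 (by norm_num) (by norm_num) (by norm_num) (by norm_num)) (ex_um 0.7847 (by norm_num) (by norm_num) (by norm_num) (by norm_num))
    (by norm_num) (by norm_num), ?_⟩
  exact v5_M 2.09067 (ex_lp 0.7375 (by linarith) (by norm_num) (by norm_num)) (by norm_num) (by norm_num)

private theorem B5Kw_C29 {β r t κ : ℝ} (hβ : 0 < β) (hr : 10 ≤ r) (hκ : κ = β * r) (hk1 : 1.25 ≤ κ) (hk2 : κ ≤ 1.33) (hta : (-1.8536) ≤ t + κ)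
    (htb : t + κ ≤ (-1.6262)) : ‖F (cexp (I * β)) (r * cexp (I * ((t + β / 2 : ℝ) : ℂ)))‖ ≤
      0.7735 * Real.exp (r * (1.48698 - (-0.59) * (t + κ))) + 1.6774 * Real.exp (r * 0.0501) :=
  v5_HU (-0.59) 1.25 1.33 (-1.8536) (-1.6262) 1.48698 0.7735 4.3709 0.1455 0.6845 1.5283 0 0.0501 0.00000116 1.6774 hβ hr hκ (by norm_num) hk1 hk2 hta htb (by norm_num) (by norm_num) (B5Kw_G28 hk1 hk2).1 (B5Kw_G28 hk1 hk2).2 (by norm_num) (by norm_num) (by norm_num)
    (by norm_num) (by norm_num) (by norm_num) (by norm_num) (by norm_num) (by norm_num) (by norm_num)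
    (by norm_num) (by norm_num) (by norm_num) (v5_hump 5.0528 7.518 2.7419 0.0000009316 0.00000116 hβ hr hκ hk1 hk2 (by norm_num) htb (by norm_num) (by norm_num) (by norm_num) (by norm_num) (by norm_num) (by norm_num) (by norm_num) (ex_un 13 0.9 (by norm_num) (by norm_num) (by norm_num) (by norm_num)) (by norm_num)) (by norm_num)

private theorem B5Kw_C30 {β r t κ : ℝ} (hβ : 0 < β) (hr : 10 ≤ r) (hκ : κ = β * r) (hk1 : 1.25 ≤ κ) (hk2 : κ ≤ 1.33) (hta : 3.1729 ≤ t + κ)
    (htb : t + κ ≤ 3.4003) : ‖F (cexp (I * β)) (r * cexp (I * ((t + β / 2 : ℝ) : ℂ)))‖ ≤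
      2.096 * Real.exp (r * (0.01 + 1 / 20)) :=
  v5_UD 1.25 1.33 3.1729 3.4003 0.01 0.3569 0.01 1.0927 2.096 hβ hr hκ (by norm_num) hk1 hk2 hta htb (by norm_num) (by norm_num) (by norm_num) (by norm_num) (by norm_num) (by norm_num) (by norm_num) (by norm_num) (by norm_num) (by norm_num) (by norm_num)

private theorem B5Kw_Y31 {β r t κ h t' : ℝ} (hβ : 0 < β) (hκ : κ = β * r) (hN : β * 7.518 ≤ 1) (hk1 : 1.25 ≤ κ) (hk2 : κ ≤ 1.33)
    (ht : t' = t + (((1 : ℤ) : ℝ) - 1) * h) (hD : DomR κ t') (hta : 0.6597 ≤ t' + κ) (htb : t' + κ ≤ 0.754) :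
    0.6948 * Real.exp (r * sE κ t') ≤ ‖Xf β r h t 1‖ := by
  obtain ⟨⟨ya, yb⟩, ⟨xa, xb⟩, n1, Da, Db⟩ := B5Kw_B23 hD hk1 hk2 hta htb
  have J := B5Kw_T25 (x := sx κ t') (y := sy κ t') hβ hN (by linarith only [xa, xb, ya, yb]) (by linarith only [xa, xb, ya, yb]) (by linarith only [xa, xb, ya, yb]) (by linarith only [xa, xb, ya, yb])
  exact v5_Jlo hβ hκ (k := 1) ht hD 0.12 2.5728 0.6948 (by norm_num) J Db (by norm_num)

private theorem B5Kw_Y32 {β r t κ h t' : ℝ} (hβ : 0 < β) (hκ : κ = β * r) (hN : β * 7.518 ≤ 1) (hk1 : 1.25 ≤ κ) (hk2 : κ ≤ 1.33)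
    (ht : t' = t + (((0 : ℤ) : ℝ) - 1) * h) (hD : DomR κ t') (hta : (-0.597) ≤ t' + κ) (htb : t' + κ ≤ (-0.5026)) :
    0.6006 * Real.exp (r * sE κ t') ≤ ‖Xf β r h t 0‖ := by
  obtain ⟨⟨ya, yb⟩, ⟨xa, xb⟩, n1, Da, Db⟩ := B5Kw_B24 hD hk1 hk2 hta htb
  have J := B5Kw_T26 (x := sx κ t') (y := sy κ t') hβ hN (by linarith only [xa, xb, ya, yb]) (by linarith only [xa, xb, ya, yb]) (by linarith only [xa, xb, ya, yb]) (by linarith only [xa, xb, ya, yb])
  exact v5_Jlo hβ hκ (k := 0) ht hD 0.17 3.6456 0.6006 (by norm_num) J Db (by norm_num)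

private theorem B5Kw_V33 {κ t : ℝ} (hD : DomR κ t) (hk1 : 1.25 ≤ κ) (hk2 : κ ≤ 1.33) (hta : 0.6597 ≤ t + κ) (htb : t + κ ≤ 0.754) :
    1.08892 - 0.2585 * (t + κ) ≤ sE κ t := by
  have hκ0 : 0 < κ := hD.1
  exact v5_V1 hD 1.25 1.33 0.6597 0.754 0.02954 0.11687 0.27289 1.08892 0.2585 (by norm_num) hk1 hk2 (by norm_num) (by norm_num) hta htb (by norm_num) (clo5 1.25 1.33 0.27289 (by norm_num) hk1 hk2 (by norm_num) (by norm_num) (by norm_num))
      ((cup2 1.25 (by norm_num) hk1).trans (by norm_num)) (by norm_num) (by norm_num) (by norm_num) (by norm_num) (by norm_num) (by norm_num)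

private theorem B5Kw_V34 {κ t : ℝ} (hD : DomR κ t) (hk1 : 1.25 ≤ κ) (hk2 : κ ≤ 1.33) (hta : (-0.597) ≤ t + κ) (htb : t + κ ≤ (-0.5026)) :
    1.0627 + 0.2298 * (t + κ) ≤ sE κ t := by
  have hκ0 : 0 < κ := hD.1
  exact v5_V0 hD 1.25 1.33 (-0.597) (-0.5026) 0.5971 0.5355 0.04561 0.18596 0.05944 0.51903 1.0627 0.2298 (by norm_num) hk1 hk2 (by norm_num) hta htb (by norm_num) (by norm_num) (by norm_num) ((cup2 1.25 (by norm_num) hk1).trans (by norm_num))
      (by norm_num) (by norm_num) (by norm_num) (by norm_num) (by norm_num) (by norm_num) (by norm_num) (by norm_num) (by norm_num) (by norm_num) (by norm_num) (by norm_num) (by norm_num)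

private theorem B5Kw_S35 {β r t κ h t' : ℝ} (hβ : 0 < β) (hκ : κ = β * r) (hN : β * 7.518 ≤ 1) (hk1 : 1.25 ≤ κ) (hk2 : κ ≤ 1.33)
    (ht : t' = t + (((1 : ℤ) : ℝ) - 1) * h) (hD : DomR κ t') (hta : 0.6597 ≤ t' + κ) (htb : t' + κ ≤ 0.754) :
    Xf β r h t 1 ≠ 0 ∧ |(Ld β r h t 1).im - (sy κ t' / β + sx κ t' / sD κ t' * ((1 + sy κ t') / sD κ t' - 1 / 2))| ≤ 0.4364 ∧
      ‖Ld β r h t 1 - sg κ t' / β‖ ≤ 0.6407 ∧ -0.0006 ≤ sx κ t' / sD κ t' * ((1 + sy κ t') / sD κ t' - 1 / 2) ∧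
      (0.283 ≤ sy κ t' ∧ sy κ t' ≤ 0.32) ∧ (0.8493 ≤ sx κ t' ∧ sx κ t' ≤ 0.9614) := by
  obtain ⟨⟨y1, y2⟩, ⟨x1, x2⟩, n1, Da, Db⟩ := B5Kw_B23 hD hk1 hk2 hta htb
  have hd := v5_disc (β := β) (κ := κ) (t := t') (ε := 0.12) 0.2 0.6492 1.1615 0.0829 0.5201 0.8493 0.9614 0.283 0.32
    (fun x y g1 g2 g3 g4 => B5Kw_T25 hβ hN g1 g2 g3 g4) x1 x2 y1 y2 (by norm_num) (by norm_num) (by norm_num) (by norm_num)
  obtain ⟨nz, im, nL⟩ := v5_slope (h := h) (t := t) (k := 1) 0.2 0.12 1.0022 2.4531 0.6819 0.4364 hβ hκ ht hD (by norm_num) (by norm_num) (by linarith only [y1]) hd n1 (by norm_num) Da (by norm_num) (by norm_num) (by norm_num) (by norm_num)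
  have ex := ex_lo hD 1.0022 2.4531 2.5728 0.283 0.0014 0.0006 n1 (by norm_num) Da Db y1 (by norm_num) (by norm_num) (by norm_num) (by norm_num)
  exact ⟨nz, im, nL.trans (by norm_num), ex, ⟨y1, y2⟩, x1, x2⟩

private theorem B5Kw_S36 {β r t κ h t' : ℝ} (hβ : 0 < β) (hκ : κ = β * r) (hN : β * 7.518 ≤ 1) (hk1 : 1.25 ≤ κ) (hk2 : κ ≤ 1.33)
    (ht : t' = t + (((0 : ℤ) : ℝ) - 1) * h) (hD : DomR κ t') (hta : (-0.597) ≤ t' + κ) (htb : t' + κ ≤ (-0.5026)) :
    Xf β r h t 0 ≠ 0 ∧ |(Ld β r h t 0).im - (sy κ t' / β + sx κ t' / sD κ t' * ((1 + sy κ t') / sD κ t' - 1 / 2))| ≤ 1.4063 ∧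
      ‖Ld β r h t 0 - sg κ t' / β‖ ≤ 1.7002 ∧ sx κ t' / sD κ t' * ((1 + sy κ t') / sD κ t' - 1 / 2) ≤ 0.0001 ∧
      ((-0.305) ≤ sy κ t' ∧ sy κ t' ≤ (-0.248)) ∧ (1.5724 ≤ sx κ t' ∧ sx κ t' ≤ 1.7872) := by
  obtain ⟨⟨y1, y2⟩, ⟨x1, x2⟩, n1, Da, Db⟩ := B5Kw_B24 hD hk1 hk2 hta htb
  have hd := v5_disc (β := β) (κ := κ) (t := t') (ε := 0.17) 0.15 1.4223 1.9373 (-0.4551) (-0.0979) 1.5724 1.7872 (-0.305) (-0.248)
    (fun x y g1 g2 g3 g4 => B5Kw_T26 hβ hN g1 g2 g3 g4) x1 x2 y1 y2 (by norm_num) (by norm_num) (by norm_num) (by norm_num)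
  obtain ⟨nz, im, nL⟩ := v5_slope (h := h) (t := t) (k := 0) 0.15 0.17 1.8044 3.0698 1.3655 1.4063 hβ hκ ht hD (by norm_num) (by norm_num) (by linarith only [y1]) hd n1 (by norm_num) Da (by norm_num) (by norm_num) (by norm_num) (by norm_num)
  have ex := ex_hi hD 1.8044 3.0698 (-0.248) 0 0.0001 n1 (by norm_num) Da y2 (by norm_num) (by norm_num) (by norm_num) (by norm_num)
  exact ⟨nz, im, nL.trans (by norm_num), ex, ⟨y1, y2⟩, x1, x2⟩

private theorem B5Kw_L37 {β r κ t1 t0 : ℝ} {L0 L1 : ℂ} (hβ : 0 < β) (hr : 10 ≤ r) (hκ : κ = β * r) (hk1 : 1.25 ≤ κ)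
    (nA0 : ‖L0 - sg κ t0 / β‖ ≤ 1.7002) (nA1 : ‖L1 - sg κ t1 / β‖ ≤ 0.6407)
    (y0 : (-0.305) ≤ sy κ t0 ∧ sy κ t0 ≤ (-0.248)) (x0 : 1.5724 ≤ sx κ t0 ∧ sx κ t0 ≤ 1.7872)
    (y1 : 0.283 ≤ sy κ t1 ∧ sy κ t1 ≤ 0.32) (x1 : 0.8493 ≤ sx κ t1 ∧ sx κ t1 ≤ 0.9614) :
    ‖(1 : ℂ) * L0 + (-2 : ℂ) * L1‖ ≤ r * 1.1047 := by
  obtain ⟨y0a, y0b⟩ := y0
  obtain ⟨x0a, x0b⟩ := x0
  obtain ⟨y1a, y1b⟩ := y1
  obtain ⟨x1a, x1b⟩ := x1
  have hN := v5_cN (κ := κ) (t1 := t1) (t0 := t0) 1 (-2) 0.3505 0.9451 1.0081 (abs_le.2 ⟨by linarith only [x0a, x0b, x1a, x1b], by linarith only [x0a, x0b, x1a, x1b]⟩)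
    (abs_le.2 ⟨by linarith only [y0a, y0b, y1a, y1b], by linarith only [y0a, y0b, y1a, y1b]⟩) (by norm_num) (by norm_num)
  have h1 := v5_comb 1 (-2) 1.25 1.7002 0.6407 1.0081 1.1047 hβ hr hκ (by norm_num) hk1 nA0 nA1 hN (by norm_num [abs_of_neg, abs_of_pos])
  norm_num at h1 ⊢
  exact h1

private theorem B5Kw_L38 {β r κ t1 t0 : ℝ} {L0 L1 : ℂ} (hβ : 0 < β) (hr : 10 ≤ r) (hκ : κ = β * r) (hk1 : 1.25 ≤ κ)
    (nA0 : ‖L0 - sg κ t0 / β‖ ≤ 1.7002) (nA1 : ‖L1 - sg κ t1 / β‖ ≤ 0.6407)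
    (y0 : (-0.305) ≤ sy κ t0 ∧ sy κ t0 ≤ (-0.248)) (x0 : 1.5724 ≤ sx κ t0 ∧ sx κ t0 ≤ 1.7872)
    (y1 : 0.283 ≤ sy κ t1 ∧ sy κ t1 ≤ 0.32) (x1 : 0.8493 ≤ sx κ t1 ∧ sx κ t1 ≤ 0.9614) :
    ‖(-2 : ℂ) * L0 + (1 : ℂ) * L1‖ ≤ r * 2.7078 := by
  obtain ⟨y0a, y0b⟩ := y0
  obtain ⟨x0a, x0b⟩ := x0
  obtain ⟨y1a, y1b⟩ := y1
  obtain ⟨x1a, x1b⟩ := x1
  have hN := v5_cN (κ := κ) (t1 := t1) (t0 := t0) (-2) 1 2.7252 0.9301 2.8796 (abs_le.2 ⟨by linarith only [x0a, x0b, x1a, x1b], by linarith only [x0a, x0b, x1a, x1b]⟩)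
    (abs_le.2 ⟨by linarith only [y0a, y0b, y1a, y1b], by linarith only [y0a, y0b, y1a, y1b]⟩) (by norm_num) (by norm_num)
  have h1 := v5_comb (-2) 1 1.25 1.7002 0.6407 2.8796 2.7078 hβ hr hκ (by norm_num) hk1 nA0 nA1 hN (by norm_num [abs_of_neg, abs_of_pos])
  norm_num at h1 ⊢
  exact h1

private theorem B5Kw_L39 {β r κ t1 t0 : ℝ} {L0 L1 : ℂ} (hβ : 0 < β) (hr : 10 ≤ r) (hκ : κ = β * r) (hk1 : 1.25 ≤ κ)
    (nA0 : ‖L0 - sg κ t0 / β‖ ≤ 1.7002) (nA1 : ‖L1 - sg κ t1 / β‖ ≤ 0.6407)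
    (y0 : (-0.305) ≤ sy κ t0 ∧ sy κ t0 ≤ (-0.248)) (x0 : 1.5724 ≤ sx κ t0 ∧ sx κ t0 ≤ 1.7872)
    (y1 : 0.283 ≤ sy κ t1 ∧ sy κ t1 ≤ 0.32) (x1 : 0.8493 ≤ sx κ t1 ∧ sx κ t1 ≤ 0.9614) :
    ‖(-3 : ℂ) * L0 + (2 : ℂ) * L1‖ ≤ r * 3.8219 := by
  obtain ⟨y0a, y0b⟩ := y0
  obtain ⟨x0a, x0b⟩ := x0
  obtain ⟨y1a, y1b⟩ := y1
  obtain ⟨x1a, x1b⟩ := x1
  have hN := v5_cN (κ := κ) (t1 := t1) (t0 := t0) (-3) 2 3.6631 1.5551 3.9796 (abs_le.2 ⟨by linarith only [x0a, x0b, x1a, x1b], by linarith only [x0a, x0b, x1a, x1b]⟩)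
    (abs_le.2 ⟨by linarith only [y0a, y0b, y1a, y1b], by linarith only [y0a, y0b, y1a, y1b]⟩) (by norm_num) (by norm_num)
  have h1 := v5_comb (-3) 2 1.25 1.7002 0.6407 3.9796 3.8219 hβ hr hκ (by norm_num) hk1 nA0 nA1 hN (by norm_num [abs_of_neg, abs_of_pos])
  norm_num at h1 ⊢
  exact h1

private theorem B5Kw_K40 {β r t κ h : ℝ} (hβ : 0 < β) (hr : 10 ≤ r) (hκ : κ = β * r) (hk1 : 1.25 ≤ κ) (hk2 : κ ≤ 1.33)
    (hh : h = 2 * Real.pi / 5) (hh1 : 1.25663 ≤ h) (hh2 : h ≤ 1.25664) (hta : 0.6597 ≤ t + κ) (htb : t + κ ≤ 0.754)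
    (hβ1 : β ≤ 0.133)
    (hY : 0.6948 * Real.exp (r * sE κ t) ≤ ‖Xf β r h t 1‖) (hV : 1.08892 - 0.2585 * (t + κ) ≤ sE κ t) :
    ‖Xf β r h t 2‖ ≤ 0.0371 * ‖Xf β r h t 1‖ ∧ ‖Xf β r h (t + β) 2‖ ≤ 0.0223 * ‖Xf β r h t 1‖ := by
  constructor
  · rw [v5_X 2 1 (by push_cast; ring)]
    exact v5_cmp 0.425 0.01427 0.037 0.894 0.0001332 0.0000409 0.0371 hr (B5Kw_C27 (t := t + 1 * h) hβ hr hκ hk1 hk2 (by linarith only [hta, htb, hh1, hh2, hβ, hβ1]) (by linarith only [hta, htb, hh1, hh2, hβ, hβ1])) hY (by norm_num) (by norm_num) (by norm_num) (by norm_num) (by linarith only [hV, hta, htb, hh1, hh2]) (ex_un 4 0.2499 (by norm_num) (by norm_num) (by norm_num) (by norm_num)) (by norm_num) (by norm_num) (by linarith only [hV, hta, htb, hh1, hh2]) (ex_un 8 0.9399 (by norm_num) (by norm_num) (by norm_num) (by norm_num)) (by norm_num) (by norm_num)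
  · rw [v5_X 2 1 (by push_cast; ring)]
    have h1 := B5Kw_C27 (t := t + β + 1 * h) hβ hr hκ hk1 hk2 (by linarith only [hta, htb, hh1, hh2, hβ, hβ1]) (by linarith only [hta, htb, hh1, hh2, hβ, hβ1])
    rw [show t + β + 1 * h + κ = (t + 1 * h + κ) + β by ring] at h1
    exact v5_cmpS 0.599 0.425 0.01427 0.0222 0.894 0.0001332 0.0000409 0.0223 hr hκ h1 hY (by norm_num) (by norm_num) (by norm_num) (ex_um 0.5125 (by linarith only [hk1, hk2]) (by norm_num) (by norm_num) (by norm_num)) (by norm_num) (by linarith only [hV, hta, htb, hh1, hh2]) (ex_un 4 0.2499 (by norm_num) (by norm_num) (by norm_num) (by norm_num)) (by norm_num) (by norm_num) (by linarith only [hV, hta, htb, hh1, hh2]) (ex_un 8 0.9399 (by norm_num) (by norm_num) (by norm_num) (by norm_num)) (by norm_num) (by norm_num)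

private theorem B5Kw_K41 {β r t κ h : ℝ} (hβ : 0 < β) (hr : 10 ≤ r) (hκ : κ = β * r) (hk1 : 1.25 ≤ κ) (hk2 : κ ≤ 1.33)
    (hh : h = 2 * Real.pi / 5) (hh1 : 1.25663 ≤ h) (hh2 : h ≤ 1.25664) (hta : 0.6597 ≤ t + κ) (htb : t + κ ≤ 0.754)
    (hβ1 : β ≤ 0.133)
    (hY : 0.6006 * Real.exp (r * sE κ (t - h)) ≤ ‖Xf β r h t 0‖) (hV : 1.0627 + 0.2298 * (t - h + κ) ≤ sE κ (t - h)) :
    ‖Xf β r h t (-1)‖ ≤ 0.00946 * ‖Xf β r h t 0‖ ∧ ‖Xf β r h (t + β) (-1)‖ ≤ 0.0203 * ‖Xf β r h t 0‖ := by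
  constructor
  · rw [v5_X (-1) (-2) (by push_cast; ring)]
    exact v5_cmp 0.4981 0.006993 0.00901 0.8754 0.0001591 0.000445 0.00946 hr (B5Kw_C29 (t := t + (-2) * h) hβ hr hκ hk1 hk2 (by linarith only [hta, htb, hh1, hh2, hβ, hβ1]) (by linarith only [hta, htb, hh1, hh2, hβ, hβ1])) hY (by norm_num) (by norm_num) (by norm_num) (by norm_num) (by linarith only [hV, hta, htb, hh1, hh2]) (ex_un 4 0.9809 (by norm_num) (by norm_num) (by norm_num) (by norm_num)) (by norm_num) (by norm_num) (by linarith only [hV, hta, htb, hh1, hh2]) (ex_un 8 0.7539 (by norm_num) (by norm_num) (by norm_num) (by norm_num)) (by norm_num) (by norm_num)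
  · rw [v5_X (-1) (-2) (by push_cast; ring)]
    have h1 := B5Kw_C29 (t := t + β + (-2) * h) hβ hr hκ hk1 hk2 (by linarith only [hta, htb, hh1, hh2, hβ, hβ1]) (by linarith only [hta, htb, hh1, hh2, hβ, hβ1])
    rw [show t + β + (-2) * h + κ = (t + (-2) * h + κ) + β by ring] at h1
    exact v5_cmpS 2.19175 0.4981 0.006993 0.0198 0.8754 0.0001591 0.000445 0.0203 hr hκ h1 hY (by norm_num) (by norm_num) (by norm_num) (ex_up 0.7847 (by linarith only [hk1, hk2]) (by norm_num) (by norm_num) (by norm_num)) (by norm_num) (by linarith only [hV, hta, htb, hh1, hh2]) (ex_un 4 0.9809 (by norm_num) (by norm_num) (by norm_num) (by norm_num)) (by norm_num) (by norm_num) (by linarith only [hV, hta, htb, hh1, hh2]) (ex_un 8 0.7539 (by norm_num) (by norm_num) (by norm_num) (by norm_num)) (by norm_num) (by norm_num)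

private theorem B5Kw_K42 {β r t κ h : ℝ} (hβ : 0 < β) (hr : 10 ≤ r) (hκ : κ = β * r) (hk1 : 1.25 ≤ κ) (hk2 : κ ≤ 1.33)
    (hh : h = 2 * Real.pi / 5) (hh1 : 1.25663 ≤ h) (hh2 : h ≤ 1.25664) (hta : 0.6597 ≤ t + κ) (htb : t + κ ≤ 0.754)
    (hβ1 : β ≤ 0.133)
    (hY : 0.6006 * Real.exp (r * sE κ (t - h)) ≤ ‖Xf β r h t 0‖) (hV : 1.0627 + 0.2298 * (t - h + κ) ≤ sE κ (t - h)) :
    ‖Xf β r h t (-2)‖ ≤ 0.000612 * ‖Xf β r h t 0‖ ∧ ‖Xf β r h (t + β) (-2)‖ ≤ 0.000612 * ‖Xf β r h t 0‖ := by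
  constructor
  · rw [v5_Xm2 hh]
    exact v5_cmp0 0.8655 0.0001751 0.000612 hr (B5Kw_C30 (t := t + 2 * h) hβ hr hκ hk1 hk2 (by linarith only [hta, htb, hh1, hh2, hβ, hβ1]) (by linarith only [hta, htb, hh1, hh2, hβ, hβ1])) hY (by norm_num) (by norm_num) (by norm_num) (by linarith only [hV, hta, htb, hh1, hh2]) (ex_un 8 0.6549 (by norm_num) (by norm_num) (by norm_num) (by norm_num)) (by norm_num)
  · rw [v5_Xm2 hh]
    exact v5_cmp0 0.8655 0.0001751 0.000612 hr (B5Kw_C30 (t := t + β + 2 * h) hβ hr hκ hk1 hk2 (by linarith only [hta, htb, hh1, hh2, hβ, hβ1]) (by linarith only [hta, htb, hh1, hh2, hβ, hβ1])) hY (by norm_num) (by norm_num) (by norm_num) (by linarith only [hV, hta, htb, hh1, hh2]) (ex_un 8 0.6549 (by norm_num) (by norm_num) (by norm_num) (by norm_num)) (by norm_num)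

theorem B5Kw_W43 {β r t κ h : ℝ} (hβ : 0 < β) (hr : 10 ≤ r) (hκ : κ = β * r) (hk1 : 1.25 ≤ κ) (hk2 : κ ≤ 1.33)
    (hh : h = 2 * Real.pi / 5) (hta : 0.6597 ≤ t + κ) (htb : t + κ ≤ 0.754) :
    Xf β r h t 0 ≠ 0 ∧
    (‖Xf β r h t 2‖ ≤ 0.0433 * ‖Xf β r h t 1‖ ∧ ‖Xf β r h t (-1)‖ ≤ 0.00946 * ‖Xf β r h t 0‖ ∧
      ‖Xf β r h t (-2)‖ ≤ 0.000893 * ‖Xf β r h t 0‖) ∧
    (r * ‖Xf β r h (t + β) 2‖ + ‖Xf β r h t 2‖ * ‖(1 : ℂ) * Ld β r h t 0 + (-2 : ℂ) * Ld β r h t 1‖ ≤
        r * 0.0744 * ‖Xf β r h t 1‖ ∧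
      r * ‖Xf β r h (t + β) (-1)‖ + ‖Xf β r h t (-1)‖ * ‖(-2 : ℂ) * Ld β r h t 0 + (1 : ℂ) * Ld β r h t 1‖ ≤
        r * 0.046 * ‖Xf β r h t 0‖ ∧
      r * ‖Xf β r h (t + β) (-2)‖ + ‖Xf β r h t (-2)‖ * ‖(-3 : ℂ) * Ld β r h t 0 + (2 : ℂ) * Ld β r h t 1‖ ≤
        r * 0.0045 * ‖Xf β r h t 0‖) ∧
    r * 0.2009 ≤ (Ld β r h t 1 - Ld β r h t 0).im := by
  obtain ⟨hh1, hh2⟩ := v5_h hh
  have hκ0 : 0 < κ := by linarith only [hk1]
  have hN : β * 7.518 ≤ 1 := v5_hN 1.33 7.518 hβ hr hκ hk2 (by norm_num) (by norm_num)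
  have hD1 : DomR κ t := v5_dom hκ0 (by linarith only [hta, htb, hk1, hk2, hh1, hh2]) (Or.inr (by linarith only [hta, htb, hk1, hk2, hh1, hh2]))
  have hD0 : DomR κ (t - h) := v5_dom hκ0 (by linarith only [hta, htb, hk1, hk2, hh1, hh2]) (Or.inl (by linarith only [hk1]))
  have hβ1 : β ≤ 0.133 := by
    have := mul_le_mul_of_nonneg_left hr hβ.le
    linarith only [this, hκ, hk2]
  have h0a : (-0.597) ≤ t - h + κ := by linarith only [hta, htb, hh1, hh2]
  have h0b : t - h + κ ≤ (-0.5026) := by linarith only [hta, htb, hh1, hh2]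
  have e1 : t = t + (((1 : ℤ) : ℝ) - 1) * h := by push_cast; ring
  have e0 : t - h = t + (((0 : ℤ) : ℝ) - 1) * h := by push_cast; ring
  have hY1 := B5Kw_Y31 (h := h) hβ hκ hN hk1 hk2 e1 hD1 hta htb
  have hY0 := B5Kw_Y32 (h := h) hβ hκ hN hk1 hk2 e0 hD0 h0a h0b
  have hV1 := B5Kw_V33 hD1 hk1 hk2 hta htb
  have hV0 := B5Kw_V34 hD0 hk1 hk2 h0a h0b
  obtain ⟨nz1, im1, nA1, ex1, y1, x1⟩ := B5Kw_S35 (h := h) hβ hκ hN hk1 hk2 e1 hD1 hta htb
  obtain ⟨nz0, im0, nA0, ex0, y0, x0⟩ := B5Kw_S36 (h := h) hβ hκ hN hk1 hk2 e0 hD0 h0a h0b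
  obtain ⟨cp2, dp2⟩ := B5Kw_K40 hβ hr hκ hk1 hk2 hh hh1 hh2 hta htb hβ1 hY1 hV1
  obtain ⟨cm1, dm1⟩ := B5Kw_K41 hβ hr hκ hk1 hk2 hh hh1 hh2 hta htb hβ1 hY0 hV0
  obtain ⟨cm2, dm2⟩ := B5Kw_K42 hβ hr hκ hk1 hk2 hh hh1 hh2 hta htb hβ1 hY0 hV0
  have Lp2 := B5Kw_L37 hβ hr hκ hk1 nA0 nA1 y0 x0 y1 x1
  have Lm1 := B5Kw_L38 hβ hr hκ hk1 nA0 nA1 y0 x0 y1 x1
  have Lm2 := B5Kw_L39 hβ hr hκ hk1 nA0 nA1 y0 x0 y1 x1
  have hm : r * 0.2009 ≤ (Ld β r h t 1 - Ld β r h t 0).im :=
    v5_m 1.33 0.283 0.248 0.0006 0.0001 0.4364 1.4063 _ _ 0.2009 hβ hr hκ hk2 im1 im0 y1.1 (by linarith only [y0.2]) (by norm_num) ex1 ex0 (by norm_num) (by norm_num)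
  have hr0 : 0 < r := by linarith only [hr]
  refine ⟨nz0, ⟨v5_emax _ cp2 (norm_nonneg _) (by norm_num), v5_emax _ cm1 (norm_nonneg _) (by norm_num), v5_emax _ cm2 (norm_nonneg _) (by norm_num)⟩, ⟨?_, ?_, ?_⟩, hm⟩
  · exact v5_W hr0 dp2 cp2 Lp2 (norm_nonneg _) (norm_nonneg _) (norm_nonneg _) (by norm_num)
  · exact v5_W hr0 dm1 cm1 Lm1 (norm_nonneg _) (norm_nonneg _) (norm_nonneg _) (by norm_num)
  · exact v5_W hr0 dm2 cm2 Lm2 (norm_nonneg _) (norm_nonneg _) (norm_nonneg _) (by norm_num)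

end Sok
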