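import Pool.Agent.Lib.MP_816dec_an.R1V9

/-!
MP_816dec_an (A3, row R1), SINGLE CASE `b = 5`, `r ≥ 10`, `1.33 ≤ κ ≤ 1.36`: the window (generated file).
-/

set_option autoImplicit false
set_option linter.unusedVariables false

open Complex Set Filter Topology Metric

namespace Sok

private theorem B5Lw_B1 {κ t : ℝ} (h : DomR κ t) (hk1 : 1.33 ≤ κ) (hk2 : κ ≤ 1.36) (ht1 : 0.5654 ≤ t + κ) (ht2 : t + κ ≤ 0.6199) :
    (0.248 ≤ sy κ t ∧ sy κ t ≤ 0.27) ∧ (0.9786 ≤ sx κ t ∧ sx κ t ≤ 1.032) ∧ κ * Real.exp (-sy κ t) ≤ 1.0613 ∧ 2.5707 ≤ sD κ t ∧ sD κ t ≤ 2.6224 := by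
  have hy1 : 0.248 ≤ sy κ t := syR_ge h 1.33 1.36 0.5654 0.248 1.28145 1.28146 0.23367 0.23895 hk1 hk2 (by linarith) (by norm_num) (by norm_num)
    (expn_ge (by norm_num) (by norm_num)) (expn_le (by norm_num) (by norm_num) (by norm_num)) (by norm_num)
    (by norm_num) (by norm_num) (by norm_num) (by norm_num) (by norm_num) (by norm_num)
  have hy2 : sy κ t ≤ 0.27 := syR_le h 1.33 1.36 0.6199 0.27 1.30996 0.2585 0.26006 0.26594 hk1 hk2 (by linarith) (by norm_num) (by norm_num)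
    (expn_ge (by norm_num) (by norm_num)) (by norm_num) (by norm_num) (Or.inr ((mul_le_mul_of_nonneg_left (expn_le (E := 1.30997) (by norm_num) (by norm_num) (by norm_num)) (by norm_num)).trans (by norm_num))) (by norm_num) (by norm_num) (by norm_num)
  have hy1' : 0.248 ≤ sy κ t := by linarith
  have hy2' : sy κ t ≤ 0.27 := by linarith
  have hx1 : 0.9786 ≤ sx κ t := sx_lo h 1.33 0.27 0.2701 0.76337 0.9786 hk1 (by norm_num) hy2' (abs_le.2 ⟨by linarith, by linarith⟩) (ex_lm 0.27 (by norm_num) (by norm_num) (by norm_num) (by norm_num) (by norm_num)) (by norm_num) (by norm_num)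
  have hx2 : sx κ t ≤ 1.032 := sx_hi h 1.36 0.248 0.248 0.78036 1.032 hk2 hy1' (by norm_num) (le_trans (by linarith) (le_abs_self _)) (ex_um 0.248 (by norm_num) (by norm_num) (by norm_num) (by norm_num)) (by norm_num) (by norm_num)
  refine ⟨⟨hy1', hy2'⟩, ⟨hx1, hx2⟩, v5_n h 1.36 0.248 0.78036 1.0613 hk2 hy1' (ex_um 0.248 (by norm_num) (by norm_num) (by norm_num) (by norm_num)) (by norm_num), ?_, ?_⟩
  · exact v5_Dlo h 1.33 0.248 0.27 0.27 0.76337 2.5707 (by norm_num) hk1 hy1' hy2' (ex_lm 0.27 (by norm_num) (by norm_num) (by norm_num) (by norm_num) (by norm_num)) (by norm_num) (by norm_num) (by norm_num) (by norm_num)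
  · exact v5_Dup h 1.36 0.248 0.27 0.78036 0.76338 2.6224 hk2 hy1' hy2' (ex_um 0.248 (by norm_num) (by norm_num) (by norm_num) (by norm_num)) (ex_um 0.27 (by norm_num) (by norm_num) (by norm_num) (by norm_num)) (by norm_num) (by norm_num) (by norm_num)

private theorem B5Lw_B2 {κ t : ℝ} (h : DomR κ t) (hk1 : 1.33 ≤ κ) (hk2 : κ ≤ 1.36) (ht1 : (-0.6913) ≤ t + κ) (ht2 : t + κ ≤ (-0.6367)) :
    ((-0.341) ≤ sy κ t ∧ sy κ t ≤ (-0.31)) ∧ (1.7809 ≤ sx κ t ∧ sx κ t ≤ 1.8874) ∧ κ * Real.exp (-sy κ t) ≤ 1.9127 ∧ 3.6682 ≤ sD κ t ∧ sD κ t ≤ 3.9763 := by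
  have hy1 : -0.341 ≤ sy κ t := syL_ge h 1.33 1.36 0.6913 0.341 0.71105 0.71106 0.1772 0.17828 0.18231 hk1 hk2 (by linarith) (by norm_num) (by norm_num) (by norm_num)
    (expm_ge (by norm_num) (by norm_num) (by norm_num) (by norm_num)) (expm_le (by norm_num) (by norm_num) (by norm_num)) (by norm_num)
    (by norm_num) (by norm_num) (by norm_num) (by norm_num) (by norm_num) (by norm_num)
  have hy2 : sy κ t ≤ -0.31 := syL_le h 1.33 1.36 0.6367 0.31 0.73344 0.73345 0.16718 0.17096 hk1 hk2 (by linarith) (by norm_num) (by norm_num) (by norm_num)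
    (expm_ge (by norm_num) (by norm_num) (by norm_num) (by norm_num)) (expm_le (by norm_num) (by norm_num) (by norm_num)) (by norm_num)
    (by norm_num) (by norm_num) (by norm_num) (by norm_num) (by norm_num) (by norm_num)
  have hy1' : (-0.341) ≤ sy κ t := by linarith
  have hy2' : sy κ t ≤ (-0.31) := by linarith
  have hx1 : 1.7809 ≤ sx κ t := sx_lo h 1.33 (-0.31) 0.3411 1.36342 1.7809 hk1 (by norm_num) hy2' (abs_le.2 ⟨by linarith, by linarith⟩) (ex_lp 0.31 (by norm_num) (by norm_num) (by norm_num)) (by norm_num) (by norm_num)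
  have hx2 : sx κ t ≤ 1.8874 := sx_hi h 1.36 (-0.341) 0.31 1.40636 1.8874 hk2 hy1' (by norm_num) (le_trans (by linarith) (neg_le_abs _)) (ex_up 0.341 (by norm_num) (by norm_num) (by norm_num) (by norm_num)) (by norm_num) (by norm_num)
  refine ⟨⟨hy1', hy2'⟩, ⟨hx1, hx2⟩, v5_n h 1.36 (-0.341) 1.40636 1.9127 hk2 hy1' (ex_up 0.341 (by norm_num) (by norm_num) (by norm_num) (by norm_num)) (by norm_num), ?_, ?_⟩
  · exact v5_Dlo h 1.33 (-0.341) (-0.31) (-0.31) 1.36342 3.6682 (by norm_num) hk1 hy1' hy2' (ex_lp 0.31 (by norm_num) (by norm_num) (by norm_num)) (by norm_num) (by norm_num) (by norm_num) (by norm_num)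
  · exact v5_Dup h 1.36 (-0.341) (-0.31) 1.40636 1.36343 3.9763 hk2 hy1' hy2' (ex_up 0.341 (by norm_num) (by norm_num) (by norm_num) (by norm_num)) (ex_up 0.31 (by norm_num) (by norm_num) (by norm_num) (by norm_num)) (by norm_num) (by norm_num) (by norm_num)

private theorem B5Lw_T3_0_0 {β x y : ℝ} (hβ : 0 < β) (hN : β * 7.352 ≤ 1) (hx1 : 0.7785 ≤ x) (hx2 : x ≤ 0.904)
    (hy1 : -0 ≤ y) (hy2 : y ≤ 0.358) : ‖HH β (x + y * I) - 1‖ ≤ 0.1 := by
  refine le_epsJ (C := 0.7341) (N0 := 7.352) (J_boxp 0.7785 0.904 0 0.358 0.358 1.2582 0.9724 1.6314 0.9051 0.5096 2.7115 7.352 0.7729 2.837 1.417 1.0724 0.629 0.467 1.2747 3.5629 0.6966 1.5414 1.5922 1.9388 0.009819 0.0323 0.00008517 0.0000003101 0.005971 0.00001199 0.00000826 0.0000006451 0.7341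
    hβ hN hx1 hx2 hy1 hy2 (by norm_num) (by norm_num) (by linarith) (by norm_num) (by norm_num) (by norm_num) (by norm_num) (by norm_num) (by norm_num) (by norm_num) (by norm_num) (by norm_num) (by norm_num) (by norm_num) (by norm_num) (by norm_num) (by norm_num) (by norm_num) (by norm_num) (by norm_num) (by norm_num) (by norm_num) (by norm_num) (by norm_num)
    (cube_sqrt_geJ (s := 0.8616) (by norm_num) (by norm_num) (by norm_num) (by norm_num))
    (cube_sqrt_geJ (s := 0.9515) (by norm_num) (by norm_num) (by norm_num) (by norm_num))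
    (by norm_num) (by norm_num) (by norm_num) (by norm_num) (by norm_num) (by norm_num) (by norm_num) (by norm_num) (by norm_num) (by norm_num) (by norm_num) (by norm_num) (by norm_num) (by norm_num) (by norm_num) (by norm_num) (by norm_num) (by norm_num)
    (exp_neg_leJ (r := 0.624) 4 (by norm_num) (by norm_num) (by norm_num) (by norm_num))
    (exp_neg_leJ (r := 0.433) 3 (by norm_num) (by norm_num) (by norm_num) (by norm_num))
    (exp_neg_leJ (r := 0.371) 9 (by norm_num) (by norm_num) (by norm_num) (by norm_num))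
    (exp_neg_leJ (r := 0.99) 14 (by norm_num) (by norm_num) (by norm_num) (by norm_num))
    (exp_neg_leJ (r := 0.121) 5 (by norm_num) (by norm_num) (by norm_num) (by norm_num))
    (exp_neg_leJ (r := 0.332) 11 (by norm_num) (by norm_num) (by norm_num) (by norm_num))
    (exp_neg_leJ (r := 0.705) 11 (by norm_num) (by norm_num) (by norm_num) (by norm_num))
    (exp_neg_leJ (r := 0.254) 14 (by norm_num) (by norm_num) (by norm_num) (by norm_num))
    (by norm_num)) (by norm_num) hN hβ.le (by norm_num)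

private theorem B5Lw_T3_0_1 {β x y : ℝ} (hβ : 0 < β) (hN : β * 7.352 ≤ 1) (hx1 : 0.904 ≤ x) (hx2 : x ≤ 1.061)
    (hy1 : -0 ≤ y) (hy2 : y ≤ 0.358) : ‖HH β (x + y * I) - 1‖ ≤ 0.1 := by
  refine le_epsJ (C := 0.7351) (N0 := 7.352) (J_boxp 0.904 1.061 0 0.358 0.358 1.3466 1.1198 1.7234 0.8402 0.5238 2.7115 7.352 0.8316 3.116 1.457 1.012 0.6732 0.4866 1.3177 3.4747 0.7576 1.7151 1.8432 1.7892 0.007112 0.02797 0.00006214 0.0000003101 0.003816 0.000003344 0.000001304 0.000001938 0.7351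
    hβ hN hx1 hx2 hy1 hy2 (by norm_num) (by norm_num) (by linarith) (by norm_num) (by norm_num) (by norm_num) (by norm_num) (by norm_num) (by norm_num) (by norm_num) (by norm_num) (by norm_num) (by norm_num) (by norm_num) (by norm_num) (by norm_num) (by norm_num) (by norm_num) (by norm_num) (by norm_num) (by norm_num) (by norm_num) (by norm_num) (by norm_num)
    (cube_sqrt_geJ (s := 0.8501) (by norm_num) (by norm_num) (by norm_num) (by norm_num))
    (cube_sqrt_geJ (s := 0.9477) (by norm_num) (by norm_num) (by norm_num) (by norm_num))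
    (by norm_num) (by norm_num) (by norm_num) (by norm_num) (by norm_num) (by norm_num) (by norm_num) (by norm_num) (by norm_num) (by norm_num) (by norm_num) (by norm_num) (by norm_num) (by norm_num) (by norm_num) (by norm_num) (by norm_num) (by norm_num)
    (exp_neg_leJ (r := 0.949) 4 (by norm_num) (by norm_num) (by norm_num) (by norm_num))
    (exp_neg_leJ (r := 0.577) 3 (by norm_num) (by norm_num) (by norm_num) (by norm_num))
    (exp_neg_leJ (r := 0.687) 9 (by norm_num) (by norm_num) (by norm_num) (by norm_num))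
    (exp_neg_leJ (r := 0.99) 14 (by norm_num) (by norm_num) (by norm_num) (by norm_num))
    (exp_neg_leJ (r := 0.569) 5 (by norm_num) (by norm_num) (by norm_num) (by norm_num))
    (exp_neg_leJ (r := 0.609) 12 (by norm_num) (by norm_num) (by norm_num) (by norm_num))
    (exp_neg_leJ (r := 0.551) 13 (by norm_num) (by norm_num) (by norm_num) (by norm_num))
    (exp_neg_leJ (r := 0.154) 13 (by norm_num) (by norm_num) (by norm_num) (by norm_num))
    (by norm_num)) (by norm_num) hN hβ.le (by norm_num)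

private theorem B5Lw_T3_0_2 {β x y : ℝ} (hβ : 0 < β) (hN : β * 7.352 ≤ 1) (hx1 : 1.061 ≤ x) (hx2 : x ≤ 1.2321)
    (hy1 : -0 ≤ y) (hy2 : y ≤ 0.358) : ‖HH β (x + y * I) - 1‖ ≤ 0.1 := by
  refine le_epsJ (C := 0.7138) (N0 := 7.352) (J_boxp 1.061 1.2321 0 0.358 0.358 1.4571 1.2831 1.8337 0.7699 0.5403 2.7115 7.352 0.8806 3.375 1.491 0.9462 0.7285 0.5146 1.3714 3.3779 0.8338 1.9325 2.1572 1.6593 0.004725 0.02279 0.00004183 0.0000003101 0.002177 0.0000006761 0.0000003101 0.000005036 0.7138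
    hβ hN hx1 hx2 hy1 hy2 (by norm_num) (by norm_num) (by linarith) (by norm_num) (by norm_num) (by norm_num) (by norm_num) (by norm_num) (by norm_num) (by norm_num) (by norm_num) (by norm_num) (by norm_num) (by norm_num) (by norm_num) (by norm_num) (by norm_num) (by norm_num) (by norm_num) (by norm_num) (by norm_num) (by norm_num) (by norm_num) (by norm_num)
    (cube_sqrt_geJ (s := 0.8405) (by norm_num) (by norm_num) (by norm_num) (by norm_num))
    (cube_sqrt_geJ (s := 0.9445) (by norm_num) (by norm_num) (by norm_num) (by norm_num))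
    (by norm_num) (by norm_num) (by norm_num) (by norm_num) (by norm_num) (by norm_num) (by norm_num) (by norm_num) (by norm_num) (by norm_num) (by norm_num) (by norm_num) (by norm_num) (by norm_num) (by norm_num) (by norm_num) (by norm_num) (by norm_num)
    (exp_neg_leJ (r := 0.355) 5 (by norm_num) (by norm_num) (by norm_num) (by norm_num))
    (exp_neg_leJ (r := 0.783) 3 (by norm_num) (by norm_num) (by norm_num) (by norm_num))
    (exp_neg_leJ (r := 0.082) 10 (by norm_num) (by norm_num) (by norm_num) (by norm_num))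
    (exp_neg_leJ (r := 0.99) 14 (by norm_num) (by norm_num) (by norm_num) (by norm_num))
    (exp_neg_leJ (r := 0.13) 6 (by norm_num) (by norm_num) (by norm_num) (by norm_num))
    (exp_neg_leJ (r := 0.207) 14 (by norm_num) (by norm_num) (by norm_num) (by norm_num))
    (exp_neg_leJ (r := 0.99) 14 (by norm_num) (by norm_num) (by norm_num) (by norm_num))
    (exp_neg_leJ (r := 0.199) 12 (by norm_num) (by norm_num) (by norm_num) (by norm_num))
    (by norm_num)) (by norm_num) hN hβ.le (by norm_num)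

private theorem B5Lw_T3_1_0 {β x y : ℝ} (hβ : 0 < β) (hN : β * 7.352 ≤ 1) (hx1 : 0.7785 ≤ x) (hx2 : x ≤ 0.836)
    (hy1 : -0 ≤ y) (hy2 : y ≤ 0.4701) : ‖HH β (x + y * I) - 1‖ ≤ 0.1 := by
  refine le_epsJ (C := 0.734) (N0 := 7.352) (J_boxp 0.7785 0.836 0 0.4701 0.4701 1.2582 0.9592 1.6912 0.9215 0.5189 2.7115 7.352 0.7624 2.791 1.41 1.0985 0.629 0.4692 1.2747 3.5874 0.6852 1.5299 1.1114 1.4465 0.009819 0.03179 0.00008517 0.0000003101 0.006494 0.00001305 0.0002828 0.0000241 0.734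
    hβ hN hx1 hx2 hy1 hy2 (by norm_num) (by norm_num) (by linarith) (by norm_num) (by norm_num) (by norm_num) (by norm_num) (by norm_num) (by norm_num) (by norm_num) (by norm_num) (by norm_num) (by norm_num) (by norm_num) (by norm_num) (by norm_num) (by norm_num) (by norm_num) (by norm_num) (by norm_num) (by norm_num) (by norm_num) (by norm_num) (by norm_num)
    (cube_sqrt_geJ (s := 0.8636) (by norm_num) (by norm_num) (by norm_num) (by norm_num))
    (cube_sqrt_geJ (s := 0.9521) (by norm_num) (by norm_num) (by norm_num) (by norm_num))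
    (by norm_num) (by norm_num) (by norm_num) (by norm_num) (by norm_num) (by norm_num) (by norm_num) (by norm_num) (by norm_num) (by norm_num) (by norm_num) (by norm_num) (by norm_num) (by norm_num) (by norm_num) (by norm_num) (by norm_num) (by norm_num)
    (exp_neg_leJ (r := 0.624) 4 (by norm_num) (by norm_num) (by norm_num) (by norm_num))
    (exp_neg_leJ (r := 0.449) 3 (by norm_num) (by norm_num) (by norm_num) (by norm_num))
    (exp_neg_leJ (r := 0.371) 9 (by norm_num) (by norm_num) (by norm_num) (by norm_num))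
    (exp_neg_leJ (r := 0.99) 14 (by norm_num) (by norm_num) (by norm_num) (by norm_num))
    (exp_neg_leJ (r := 0.037) 5 (by norm_num) (by norm_num) (by norm_num) (by norm_num))
    (exp_neg_leJ (r := 0.247) 11 (by norm_num) (by norm_num) (by norm_num) (by norm_num))
    (exp_neg_leJ (r := 0.171) 8 (by norm_num) (by norm_num) (by norm_num) (by norm_num))
    (exp_neg_leJ (r := 0.634) 10 (by norm_num) (by norm_num) (by norm_num) (by norm_num))
    (by norm_num)) (by norm_num) hN hβ.le (by norm_num)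

private theorem B5Lw_T3_1_1 {β x y : ℝ} (hβ : 0 < β) (hN : β * 7.352 ≤ 1) (hx1 : 0.836 ≤ x) (hx2 : x ≤ 0.915)
    (hy1 : -0 ≤ y) (hy2 : y ≤ 0.4701) : ‖HH β (x + y * I) - 1‖ ≤ 0.1 := by
  refine le_epsJ (C := 0.7349) (N0 := 7.352) (J_boxp 0.836 0.915 0 0.4701 0.4701 1.2987 1.0287 1.7316 0.8892 0.525 2.7115 7.352 0.7921 2.925 1.43 1.0681 0.6493 0.4778 1.2944 3.5443 0.7131 1.6095 1.2264 1.3726 0.008466 0.02985 0.00007368 0.0000003101 0.00529 0.000007274 0.0001215 0.00004146 0.7349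
    hβ hN hx1 hx2 hy1 hy2 (by norm_num) (by norm_num) (by linarith) (by norm_num) (by norm_num) (by norm_num) (by norm_num) (by norm_num) (by norm_num) (by norm_num) (by norm_num) (by norm_num) (by norm_num) (by norm_num) (by norm_num) (by norm_num) (by norm_num) (by norm_num) (by norm_num) (by norm_num) (by norm_num) (by norm_num) (by norm_num) (by norm_num)
    (cube_sqrt_geJ (s := 0.8578) (by norm_num) (by norm_num) (by norm_num) (by norm_num))
    (cube_sqrt_geJ (s := 0.9502) (by norm_num) (by norm_num) (by norm_num) (by norm_num))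
    (by norm_num) (by norm_num) (by norm_num) (by norm_num) (by norm_num) (by norm_num) (by norm_num) (by norm_num) (by norm_num) (by norm_num) (by norm_num) (by norm_num) (by norm_num) (by norm_num) (by norm_num) (by norm_num) (by norm_num) (by norm_num)
    (exp_neg_leJ (r := 0.773) 4 (by norm_num) (by norm_num) (by norm_num) (by norm_num))
    (exp_neg_leJ (r := 0.512) 3 (by norm_num) (by norm_num) (by norm_num) (by norm_num))
    (exp_neg_leJ (r := 0.516) 9 (by norm_num) (by norm_num) (by norm_num) (by norm_num))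
    (exp_neg_leJ (r := 0.99) 14 (by norm_num) (by norm_num) (by norm_num) (by norm_num))
    (exp_neg_leJ (r := 0.242) 5 (by norm_num) (by norm_num) (by norm_num) (by norm_num))
    (exp_neg_leJ (r := 0.833) 11 (by norm_num) (by norm_num) (by norm_num) (by norm_num))
    (exp_neg_leJ (r := 0.016) 9 (by norm_num) (by norm_num) (by norm_num) (by norm_num))
    (exp_neg_leJ (r := 0.091) 10 (by norm_num) (by norm_num) (by norm_num) (by norm_num))
    (by norm_num)) (by norm_num) hN hβ.le (by norm_num)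

private theorem B5Lw_T3_1_2 {β x y : ℝ} (hβ : 0 < β) (hN : β * 7.352 ≤ 1) (hx1 : 0.915 ≤ x) (hx2 : x ≤ 1.018)
    (hy1 : -0 ≤ y) (hy2 : y ≤ 0.4701) : ‖HH β (x + y * I) - 1‖ ≤ 0.1 := by
  refine le_epsJ (C := 0.735) (N0 := 7.352) (J_boxp 0.915 1.018 0 0.4701 0.4701 1.3543 1.1214 1.7882 0.8485 0.5335 2.7115 7.352 0.8281 3.098 1.454 1.0285 0.6771 0.4902 1.3214 3.4875 0.7515 1.7189 1.3844 1.2786 0.006911 0.02726 0.00006049 0.0000003101 0.003987 0.000003252 0.000038 0.00008273 0.735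
    hβ hN hx1 hx2 hy1 hy2 (by norm_num) (by norm_num) (by linarith) (by norm_num) (by norm_num) (by norm_num) (by norm_num) (by norm_num) (by norm_num) (by norm_num) (by norm_num) (by norm_num) (by norm_num) (by norm_num) (by norm_num) (by norm_num) (by norm_num) (by norm_num) (by norm_num) (by norm_num) (by norm_num) (by norm_num) (by norm_num) (by norm_num)
    (cube_sqrt_geJ (s := 0.8508) (by norm_num) (by norm_num) (by norm_num) (by norm_num))
    (cube_sqrt_geJ (s := 0.9479) (by norm_num) (by norm_num) (by norm_num) (by norm_num))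
    (by norm_num) (by norm_num) (by norm_num) (by norm_num) (by norm_num) (by norm_num) (by norm_num) (by norm_num) (by norm_num) (by norm_num) (by norm_num) (by norm_num) (by norm_num) (by norm_num) (by norm_num) (by norm_num) (by norm_num) (by norm_num)
    (exp_neg_leJ (r := 0.978) 4 (by norm_num) (by norm_num) (by norm_num) (by norm_num))
    (exp_neg_leJ (r := 0.603) 3 (by norm_num) (by norm_num) (by norm_num) (by norm_num))
    (exp_neg_leJ (r := 0.714) 9 (by norm_num) (by norm_num) (by norm_num) (by norm_num))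
    (exp_neg_leJ (r := 0.99) 14 (by norm_num) (by norm_num) (by norm_num) (by norm_num))
    (exp_neg_leJ (r := 0.525) 5 (by norm_num) (by norm_num) (by norm_num) (by norm_num))
    (exp_neg_leJ (r := 0.637) 12 (by norm_num) (by norm_num) (by norm_num) (by norm_num))
    (exp_neg_leJ (r := 0.178) 10 (by norm_num) (by norm_num) (by norm_num) (by norm_num))
    (exp_neg_leJ (r := 0.4) 9 (by norm_num) (by norm_num) (by norm_num) (by norm_num))
    (by norm_num)) (by norm_num) hN hβ.le (by norm_num)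

private theorem B5Lw_T3_1_3 {β x y : ℝ} (hβ : 0 < β) (hN : β * 7.352 ≤ 1) (hx1 : 1.018 ≤ x) (hx2 : x ≤ 1.147)
    (hy1 : -0 ≤ y) (hy2 : y ≤ 0.4701) : ‖HH β (x + y * I) - 1‖ ≤ 0.1 := by
  refine le_epsJ (C := 0.7349) (N0 := 7.352) (J_boxp 1.018 1.147 0 0.4701 0.4701 1.4268 1.2396 1.8647 0.8013 0.5448 2.7115 7.352 0.8688 3.31 1.483 0.9789 0.7133 0.5067 1.3567 3.4159 0.8015 1.8615 1.5904 1.1633 0.00528 0.02414 0.00004675 0.0000003101 0.002768 0.000001141 0.000008367 0.0001933 0.7349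
    hβ hN hx1 hx2 hy1 hy2 (by norm_num) (by norm_num) (by linarith) (by norm_num) (by norm_num) (by norm_num) (by norm_num) (by norm_num) (by norm_num) (by norm_num) (by norm_num) (by norm_num) (by norm_num) (by norm_num) (by norm_num) (by norm_num) (by norm_num) (by norm_num) (by norm_num) (by norm_num) (by norm_num) (by norm_num) (by norm_num) (by norm_num)
    (cube_sqrt_geJ (s := 0.8428) (by norm_num) (by norm_num) (by norm_num) (by norm_num))
    (cube_sqrt_geJ (s := 0.9453) (by norm_num) (by norm_num) (by norm_num) (by norm_num))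
    (by norm_num) (by norm_num) (by norm_num) (by norm_num) (by norm_num) (by norm_num) (by norm_num) (by norm_num) (by norm_num) (by norm_num) (by norm_num) (by norm_num) (by norm_num) (by norm_num) (by norm_num) (by norm_num) (by norm_num) (by norm_num)
    (exp_neg_leJ (r := 0.244) 5 (by norm_num) (by norm_num) (by norm_num) (by norm_num))
    (exp_neg_leJ (r := 0.725) 3 (by norm_num) (by norm_num) (by norm_num) (by norm_num))
    (exp_neg_leJ (r := 0.974) 9 (by norm_num) (by norm_num) (by norm_num) (by norm_num))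
    (exp_neg_leJ (r := 0.99) 14 (by norm_num) (by norm_num) (by norm_num) (by norm_num))
    (exp_neg_leJ (r := 0.892) 5 (by norm_num) (by norm_num) (by norm_num) (by norm_num))
    (exp_neg_leJ (r := 0.685) 13 (by norm_num) (by norm_num) (by norm_num) (by norm_num))
    (exp_neg_leJ (r := 0.692) 11 (by norm_num) (by norm_num) (by norm_num) (by norm_num))
    (exp_neg_leJ (r := 0.552) 8 (by norm_num) (by norm_num) (by norm_num) (by norm_num))
    (by norm_num)) (by norm_num) hN hβ.le (by norm_num)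

private theorem B5Lw_T3_1_4 {β x y : ℝ} (hβ : 0 < β) (hN : β * 7.352 ≤ 1) (hx1 : 1.147 ≤ x) (hx2 : x ≤ 1.2321)
    (hy1 : -0 ≤ y) (hy2 : y ≤ 0.4701) : ‖HH β (x + y * I) - 1‖ ≤ 0.1 := by
  refine le_epsJ (C := 0.6486) (N0 := 7.352) (J_boxp 1.147 1.2321 0 0.4701 0.4701 1.5177 1.3188 1.9182 0.7408 0.5526 2.7115 7.352 0.869 3.311 1.483 0.9462 0.7588 0.539 1.4009 3.3682 0.8641 2.0402 1.8484 1.206 0.003782 0.01909 0.00003367 0.0000003101 0.001744 0.0000003101 0.000001255 0.0001414 0.6486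
    hβ hN hx1 hx2 hy1 hy2 (by norm_num) (by norm_num) (by linarith) (by norm_num) (by norm_num) (by norm_num) (by norm_num) (by norm_num) (by norm_num) (by norm_num) (by norm_num) (by norm_num) (by norm_num) (by norm_num) (by norm_num) (by norm_num) (by norm_num) (by norm_num) (by norm_num) (by norm_num) (by norm_num) (by norm_num) (by norm_num) (by norm_num)
    (cube_sqrt_geJ (s := 0.8428) (by norm_num) (by norm_num) (by norm_num) (by norm_num))
    (cube_sqrt_geJ (s := 0.9453) (by norm_num) (by norm_num) (by norm_num) (by norm_num))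
    (by norm_num) (by norm_num) (by norm_num) (by norm_num) (by norm_num) (by norm_num) (by norm_num) (by norm_num) (by norm_num) (by norm_num) (by norm_num) (by norm_num) (by norm_num) (by norm_num) (by norm_num) (by norm_num) (by norm_num) (by norm_num)
    (exp_neg_leJ (r := 0.578) 5 (by norm_num) (by norm_num) (by norm_num) (by norm_num))
    (exp_neg_leJ (r := 0.962) 3 (by norm_num) (by norm_num) (by norm_num) (by norm_num))
    (exp_neg_leJ (r := 0.299) 10 (by norm_num) (by norm_num) (by norm_num) (by norm_num))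
    (exp_neg_leJ (r := 0.99) 14 (by norm_num) (by norm_num) (by norm_num) (by norm_num))
    (exp_neg_leJ (r := 0.352) 6 (by norm_num) (by norm_num) (by norm_num) (by norm_num))
    (exp_neg_leJ (r := 0.99) 14 (by norm_num) (by norm_num) (by norm_num) (by norm_num))
    (exp_neg_leJ (r := 0.589) 13 (by norm_num) (by norm_num) (by norm_num) (by norm_num))
    (exp_neg_leJ (r := 0.866) 8 (by norm_num) (by norm_num) (by norm_num) (by norm_num))
    (by norm_num)) (by norm_num) hN hβ.le (by norm_num)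

private theorem B5Lw_T3 {β x y : ℝ} (hβ : 0 < β) (hN : β * 7.352 ≤ 1) (hx1 : 0.7785 ≤ x) (hx2 : x ≤ 1.2321)
    (hy1 : 0.0479 ≤ y) (hy2 : y ≤ 0.4701) : ‖HH β (x + y * I) - 1‖ ≤ 0.1 := by
  rcases le_total y 0.358 with hyy | hyy
  · rcases le_total x 0.904 with hxx | hxx
    · exact B5Lw_T3_0_0 hβ hN (by linarith) (by linarith) (by linarith) (by linarith)
    rcases le_total x 1.061 with hxx | hxx
    · exact B5Lw_T3_0_1 hβ hN (by linarith) (by linarith) (by linarith) (by linarith)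
    exact B5Lw_T3_0_2 hβ hN (by linarith) (by linarith) (by linarith) (by linarith)
  rcases le_total x 0.836 with hxx | hxx
  · exact B5Lw_T3_1_0 hβ hN (by linarith) (by linarith) (by linarith) (by linarith)
  rcases le_total x 0.915 with hxx | hxx
  · exact B5Lw_T3_1_1 hβ hN (by linarith) (by linarith) (by linarith) (by linarith)
  rcases le_total x 1.018 with hxx | hxx
  · exact B5Lw_T3_1_2 hβ hN (by linarith) (by linarith) (by linarith) (by linarith)
  rcases le_total x 1.147 with hxx | hxx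
  · exact B5Lw_T3_1_3 hβ hN (by linarith) (by linarith) (by linarith) (by linarith)
  exact B5Lw_T3_1_4 hβ hN (by linarith) (by linarith) (by linarith) (by linarith)

private theorem B5Lw_T4_0_0 {β x y : ℝ} (hβ : 0 < β) (hN : β * 7.352 ≤ 1) (hx1 : 1.6308 ≤ x) (hx2 : x ≤ 1.644)
    (hy1 : -0.4911 ≤ y) (hy2 : y ≤ -0.1599) : ‖HH β (x + y * I) - 1‖ ≤ 0.175 := by
  refine le_epsJ (C := 1.2865) (N0 := 7.352) (J_boxp 1.6308 1.644 0.4911 0 (-0.1599) 1.5096 1.7158 1.8463 0.7326 0.5421 2.7115 7.352 1.1366 5.295 1.69 0.3344 0.7547 0.4688 0.7913 1.5928 0.8788 2.758 3.4973 3.3096 0.003897 0.03188 0.002982 0.000008219 0.001565 0.0000003101 0.0000003101 0.0000003101 1.2865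
    hβ hN hx1 hx2 hy1 hy2 (by norm_num) (by norm_num) (by linarith) (by norm_num) (by norm_num) (by norm_num) (by norm_num) (by norm_num) (by norm_num) (by norm_num) (by norm_num) (by norm_num) (by norm_num) (by norm_num) (by norm_num) (by norm_num) (by norm_num) (by norm_num) (by norm_num) (by norm_num) (by norm_num) (by norm_num) (by norm_num) (by norm_num)
    (cube_sqrt_geJ (s := 0.7881) (by norm_num) (by norm_num) (by norm_num) (by norm_num))
    (cube_sqrt_geJ (s := 0.9278) (by norm_num) (by norm_num) (by norm_num) (by norm_num))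
    (by norm_num) (by norm_num) (by norm_num) (by norm_num) (by norm_num) (by norm_num) (by norm_num) (by norm_num) (by norm_num) (by norm_num) (by norm_num) (by norm_num) (by norm_num) (by norm_num) (by norm_num) (by norm_num) (by norm_num) (by norm_num)
    (exp_neg_leJ (r := 0.548) 5 (by norm_num) (by norm_num) (by norm_num) (by norm_num))
    (exp_neg_leJ (r := 0.446) 3 (by norm_num) (by norm_num) (by norm_num) (by norm_num))
    (exp_neg_leJ (r := 0.817) 5 (by norm_num) (by norm_num) (by norm_num) (by norm_num))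
    (exp_neg_leJ (r := 0.71) 11 (by norm_num) (by norm_num) (by norm_num) (by norm_num))
    (exp_neg_leJ (r := 0.46) 6 (by norm_num) (by norm_num) (by norm_num) (by norm_num))
    (exp_neg_leJ (r := 0.99) 14 (by norm_num) (by norm_num) (by norm_num) (by norm_num))
    (exp_neg_leJ (r := 0.99) 14 (by norm_num) (by norm_num) (by norm_num) (by norm_num))
    (exp_neg_leJ (r := 0.99) 14 (by norm_num) (by norm_num) (by norm_num) (by norm_num))
    (by norm_num)) (by norm_num) hN hβ.le (by norm_num)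

private theorem B5Lw_T4_0_1 {β x y : ℝ} (hβ : 0 < β) (hN : β * 7.352 ≤ 1) (hx1 : 1.644 ≤ x) (hx2 : x ≤ 1.66)
    (hy1 : -0.4911 ≤ y) (hy2 : y ≤ -0.1599) : ‖HH β (x + y * I) - 1‖ ≤ 0.175 := by
  refine le_epsJ (C := 1.2865) (N0 := 7.352) (J_boxp 1.644 1.66 0.4911 0 (-0.1599) 1.5189 1.7312 1.8605 0.7287 0.5442 2.7115 7.352 1.1398 5.328 1.693 0.3283 0.7594 0.4709 0.7958 1.5837 0.8852 2.7763 3.5237 3.2941 0.003763 0.03138 0.002886 0.000008786 0.001494 0.0000003101 0.0000003101 0.0000003101 1.2865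
    hβ hN hx1 hx2 hy1 hy2 (by norm_num) (by norm_num) (by linarith) (by norm_num) (by norm_num) (by norm_num) (by norm_num) (by norm_num) (by norm_num) (by norm_num) (by norm_num) (by norm_num) (by norm_num) (by norm_num) (by norm_num) (by norm_num) (by norm_num) (by norm_num) (by norm_num) (by norm_num) (by norm_num) (by norm_num) (by norm_num) (by norm_num)
    (cube_sqrt_geJ (s := 0.7874) (by norm_num) (by norm_num) (by norm_num) (by norm_num))
    (cube_sqrt_geJ (s := 0.9276) (by norm_num) (by norm_num) (by norm_num) (by norm_num))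
    (by norm_num) (by norm_num) (by norm_num) (by norm_num) (by norm_num) (by norm_num) (by norm_num) (by norm_num) (by norm_num) (by norm_num) (by norm_num) (by norm_num) (by norm_num) (by norm_num) (by norm_num) (by norm_num) (by norm_num) (by norm_num)
    (exp_neg_leJ (r := 0.583) 5 (by norm_num) (by norm_num) (by norm_num) (by norm_num))
    (exp_neg_leJ (r := 0.462) 3 (by norm_num) (by norm_num) (by norm_num) (by norm_num))
    (exp_neg_leJ (r := 0.85) 5 (by norm_num) (by norm_num) (by norm_num) (by norm_num))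
    (exp_neg_leJ (r := 0.643) 11 (by norm_num) (by norm_num) (by norm_num) (by norm_num))
    (exp_neg_leJ (r := 0.507) 6 (by norm_num) (by norm_num) (by norm_num) (by norm_num))
    (exp_neg_leJ (r := 0.99) 14 (by norm_num) (by norm_num) (by norm_num) (by norm_num))
    (exp_neg_leJ (r := 0.99) 14 (by norm_num) (by norm_num) (by norm_num) (by norm_num))
    (exp_neg_leJ (r := 0.99) 14 (by norm_num) (by norm_num) (by norm_num) (by norm_num))
    (by norm_num)) (by norm_num) hN hβ.le (by norm_num)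

private theorem B5Lw_T4_0_2 {β x y : ℝ} (hβ : 0 < β) (hN : β * 7.352 ≤ 1) (hx1 : 1.66 ≤ x) (hx2 : x ≤ 1.679)
    (hy1 : -0.4911 ≤ y) (hy2 : y ≤ -0.1599) : ‖HH β (x + y * I) - 1‖ ≤ 0.175 := by
  refine le_epsJ (C := 1.2853) (N0 := 7.352) (J_boxp 1.66 1.679 0.4911 0 (-0.1599) 1.5302 1.7494 1.8775 0.7239 0.5467 2.7115 7.352 1.1433 5.363 1.696 0.321 0.765 0.4735 0.8013 1.573 0.893 2.7984 3.5557 3.2767 0.003612 0.03079 0.002771 0.000009506 0.00141 0.0000003101 0.0000003101 0.0000003101 1.2853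
    hβ hN hx1 hx2 hy1 hy2 (by norm_num) (by norm_num) (by linarith) (by norm_num) (by norm_num) (by norm_num) (by norm_num) (by norm_num) (by norm_num) (by norm_num) (by norm_num) (by norm_num) (by norm_num) (by norm_num) (by norm_num) (by norm_num) (by norm_num) (by norm_num) (by norm_num) (by norm_num) (by norm_num) (by norm_num) (by norm_num) (by norm_num)
    (cube_sqrt_geJ (s := 0.7867) (by norm_num) (by norm_num) (by norm_num) (by norm_num))
    (cube_sqrt_geJ (s := 0.9273) (by norm_num) (by norm_num) (by norm_num) (by norm_num))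
    (by norm_num) (by norm_num) (by norm_num) (by norm_num) (by norm_num) (by norm_num) (by norm_num) (by norm_num) (by norm_num) (by norm_num) (by norm_num) (by norm_num) (by norm_num) (by norm_num) (by norm_num) (by norm_num) (by norm_num) (by norm_num)
    (exp_neg_leJ (r := 0.624) 5 (by norm_num) (by norm_num) (by norm_num) (by norm_num))
    (exp_neg_leJ (r := 0.481) 3 (by norm_num) (by norm_num) (by norm_num) (by norm_num))
    (exp_neg_leJ (r := 0.891) 5 (by norm_num) (by norm_num) (by norm_num) (by norm_num))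
    (exp_neg_leJ (r := 0.564) 11 (by norm_num) (by norm_num) (by norm_num) (by norm_num))
    (exp_neg_leJ (r := 0.565) 6 (by norm_num) (by norm_num) (by norm_num) (by norm_num))
    (exp_neg_leJ (r := 0.99) 14 (by norm_num) (by norm_num) (by norm_num) (by norm_num))
    (exp_neg_leJ (r := 0.99) 14 (by norm_num) (by norm_num) (by norm_num) (by norm_num))
    (exp_neg_leJ (r := 0.99) 14 (by norm_num) (by norm_num) (by norm_num) (by norm_num))
    (by norm_num)) (by norm_num) hN hβ.le (by norm_num)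

private theorem B5Lw_T4_0_3 {β x y : ℝ} (hβ : 0 < β) (hN : β * 7.352 ≤ 1) (hx1 : 1.679 ≤ x) (hx2 : x ≤ 1.702)
    (hy1 : -0.4911 ≤ y) (hy2 : y ≤ -0.1599) : ‖HH β (x + y * I) - 1‖ ≤ 0.175 := by
  refine le_epsJ (C := 1.2851) (N0 := 7.352) (J_boxp 1.679 1.702 0.4911 0 (-0.1599) 1.5436 1.7715 1.8981 0.7184 0.5497 2.7115 7.352 1.1477 5.408 1.7 0.3121 0.7717 0.4765 0.8078 1.5599 0.9022 2.8247 3.5937 3.2546 0.00344 0.03012 0.002645 0.00001047 0.001319 0.0000003101 0.0000003101 0.0000003101 1.2851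
    hβ hN hx1 hx2 hy1 hy2 (by norm_num) (by norm_num) (by linarith) (by norm_num) (by norm_num) (by norm_num) (by norm_num) (by norm_num) (by norm_num) (by norm_num) (by norm_num) (by norm_num) (by norm_num) (by norm_num) (by norm_num) (by norm_num) (by norm_num) (by norm_num) (by norm_num) (by norm_num) (by norm_num) (by norm_num) (by norm_num) (by norm_num)
    (cube_sqrt_geJ (s := 0.7857) (by norm_num) (by norm_num) (by norm_num) (by norm_num))
    (cube_sqrt_geJ (s := 0.927) (by norm_num) (by norm_num) (by norm_num) (by norm_num))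
    (by norm_num) (by norm_num) (by norm_num) (by norm_num) (by norm_num) (by norm_num) (by norm_num) (by norm_num) (by norm_num) (by norm_num) (by norm_num) (by norm_num) (by norm_num) (by norm_num) (by norm_num) (by norm_num) (by norm_num) (by norm_num)
    (exp_neg_leJ (r := 0.673) 5 (by norm_num) (by norm_num) (by norm_num) (by norm_num))
    (exp_neg_leJ (r := 0.503) 3 (by norm_num) (by norm_num) (by norm_num) (by norm_num))
    (exp_neg_leJ (r := 0.938) 5 (by norm_num) (by norm_num) (by norm_num) (by norm_num))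
    (exp_neg_leJ (r := 0.468) 11 (by norm_num) (by norm_num) (by norm_num) (by norm_num))
    (exp_neg_leJ (r := 0.632) 6 (by norm_num) (by norm_num) (by norm_num) (by norm_num))
    (exp_neg_leJ (r := 0.99) 14 (by norm_num) (by norm_num) (by norm_num) (by norm_num))
    (exp_neg_leJ (r := 0.99) 14 (by norm_num) (by norm_num) (by norm_num) (by norm_num))
    (exp_neg_leJ (r := 0.99) 14 (by norm_num) (by norm_num) (by norm_num) (by norm_num))
    (by norm_num)) (by norm_num) hN hβ.le (by norm_num)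

private theorem B5Lw_T4_0_4 {β x y : ℝ} (hβ : 0 < β) (hN : β * 7.352 ≤ 1) (hx1 : 1.702 ≤ x) (hx2 : x ≤ 1.73)
    (hy1 : -0.4911 ≤ y) (hy2 : y ≤ -0.1599) : ‖HH β (x + y * I) - 1‖ ≤ 0.175 := by
  refine le_epsJ (C := 1.2855) (N0 := 7.352) (J_boxp 1.702 1.73 0.4911 0 (-0.1599) 1.5597 1.7984 1.9232 0.712 0.5533 2.7115 7.352 1.1531 5.463 1.704 0.3014 0.7798 0.4801 0.8157 1.544 0.9134 2.8566 3.6397 3.2275 0.003241 0.02935 0.002513 0.00001176 0.001214 0.0000003101 0.0000003101 0.0000003101 1.2855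
    hβ hN hx1 hx2 hy1 hy2 (by norm_num) (by norm_num) (by linarith) (by norm_num) (by norm_num) (by norm_num) (by norm_num) (by norm_num) (by norm_num) (by norm_num) (by norm_num) (by norm_num) (by norm_num) (by norm_num) (by norm_num) (by norm_num) (by norm_num) (by norm_num) (by norm_num) (by norm_num) (by norm_num) (by norm_num) (by norm_num) (by norm_num)
    (cube_sqrt_geJ (s := 0.7846) (by norm_num) (by norm_num) (by norm_num) (by norm_num))
    (cube_sqrt_geJ (s := 0.9267) (by norm_num) (by norm_num) (by norm_num) (by norm_num))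
    (by norm_num) (by norm_num) (by norm_num) (by norm_num) (by norm_num) (by norm_num) (by norm_num) (by norm_num) (by norm_num) (by norm_num) (by norm_num) (by norm_num) (by norm_num) (by norm_num) (by norm_num) (by norm_num) (by norm_num) (by norm_num)
    (exp_neg_leJ (r := 0.733) 5 (by norm_num) (by norm_num) (by norm_num) (by norm_num))
    (exp_neg_leJ (r := 0.529) 3 (by norm_num) (by norm_num) (by norm_num) (by norm_num))
    (exp_neg_leJ (r := 0.99) 5 (by norm_num) (by norm_num) (by norm_num) (by norm_num))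
    (exp_neg_leJ (r := 0.351) 11 (by norm_num) (by norm_num) (by norm_num) (by norm_num))
    (exp_neg_leJ (r := 0.715) 6 (by norm_num) (by norm_num) (by norm_num) (by norm_num))
    (exp_neg_leJ (r := 0.99) 14 (by norm_num) (by norm_num) (by norm_num) (by norm_num))
    (exp_neg_leJ (r := 0.99) 14 (by norm_num) (by norm_num) (by norm_num) (by norm_num))
    (exp_neg_leJ (r := 0.99) 14 (by norm_num) (by norm_num) (by norm_num) (by norm_num))
    (by norm_num)) (by norm_num) hN hβ.le (by norm_num)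

private theorem B5Lw_T4_0_5 {β x y : ℝ} (hβ : 0 < β) (hN : β * 7.352 ≤ 1) (hx1 : 1.73 ≤ x) (hx2 : x ≤ 1.764)
    (hy1 : -0.4911 ≤ y) (hy2 : y ≤ -0.1599) : ‖HH β (x + y * I) - 1‖ ≤ 0.175 := by
  refine le_epsJ (C := 1.2847) (N0 := 7.352) (J_boxp 1.73 1.764 0.4911 0 (-0.1599) 1.5795 1.8311 1.9539 0.7042 0.5577 2.7115 7.352 1.1593 5.527 1.709 0.2883 0.7897 0.4845 0.8252 1.5247 0.927 2.8953 3.6957 3.1946 0.003017 0.0284 0.002321 0.00001356 0.001099 0.0000003101 0.0000003101 0.0000003101 1.2847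
    hβ hN hx1 hx2 hy1 hy2 (by norm_num) (by norm_num) (by linarith) (by norm_num) (by norm_num) (by norm_num) (by norm_num) (by norm_num) (by norm_num) (by norm_num) (by norm_num) (by norm_num) (by norm_num) (by norm_num) (by norm_num) (by norm_num) (by norm_num) (by norm_num) (by norm_num) (by norm_num) (by norm_num) (by norm_num) (by norm_num) (by norm_num)
    (cube_sqrt_geJ (s := 0.7833) (by norm_num) (by norm_num) (by norm_num) (by norm_num))
    (cube_sqrt_geJ (s := 0.9263) (by norm_num) (by norm_num) (by norm_num) (by norm_num))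
    (by norm_num) (by norm_num) (by norm_num) (by norm_num) (by norm_num) (by norm_num) (by norm_num) (by norm_num) (by norm_num) (by norm_num) (by norm_num) (by norm_num) (by norm_num) (by norm_num) (by norm_num) (by norm_num) (by norm_num) (by norm_num)
    (exp_neg_leJ (r := 0.805) 5 (by norm_num) (by norm_num) (by norm_num) (by norm_num))
    (exp_neg_leJ (r := 0.562) 3 (by norm_num) (by norm_num) (by norm_num) (by norm_num))
    (exp_neg_leJ (r := 0.066) 6 (by norm_num) (by norm_num) (by norm_num) (by norm_num))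
    (exp_neg_leJ (r := 0.209) 11 (by norm_num) (by norm_num) (by norm_num) (by norm_num))
    (exp_neg_leJ (r := 0.815) 6 (by norm_num) (by norm_num) (by norm_num) (by norm_num))
    (exp_neg_leJ (r := 0.99) 14 (by norm_num) (by norm_num) (by norm_num) (by norm_num))
    (exp_neg_leJ (r := 0.99) 14 (by norm_num) (by norm_num) (by norm_num) (by norm_num))
    (exp_neg_leJ (r := 0.99) 14 (by norm_num) (by norm_num) (by norm_num) (by norm_num))
    (by norm_num)) (by norm_num) hN hβ.le (by norm_num)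

private theorem B5Lw_T4_0_6 {β x y : ℝ} (hβ : 0 < β) (hN : β * 7.352 ≤ 1) (hx1 : 1.764 ≤ x) (hx2 : x ≤ 1.805)
    (hy1 : -0.4911 ≤ y) (hy2 : y ≤ -0.1599) : ‖HH β (x + y * I) - 1‖ ≤ 0.175 := by
  refine le_epsJ (C := 1.2849) (N0 := 7.352) (J_boxp 1.764 1.805 0.4911 0 (-0.1599) 1.6034 1.8707 1.991 0.695 0.563 2.7115 7.352 1.1668 5.607 1.716 0.2725 0.8016 0.4898 0.8369 1.5014 0.9435 2.9424 3.7637 3.1549 0.002765 0.02731 0.00213 0.00001608 0.0009749 0.0000003101 0.0000003101 0.0000003101 1.2849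
    hβ hN hx1 hx2 hy1 hy2 (by norm_num) (by norm_num) (by linarith) (by norm_num) (by norm_num) (by norm_num) (by norm_num) (by norm_num) (by norm_num) (by norm_num) (by norm_num) (by norm_num) (by norm_num) (by norm_num) (by norm_num) (by norm_num) (by norm_num) (by norm_num) (by norm_num) (by norm_num) (by norm_num) (by norm_num) (by norm_num) (by norm_num)
    (cube_sqrt_geJ (s := 0.7817) (by norm_num) (by norm_num) (by norm_num) (by norm_num))
    (cube_sqrt_geJ (s := 0.9258) (by norm_num) (by norm_num) (by norm_num) (by norm_num))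
    (by norm_num) (by norm_num) (by norm_num) (by norm_num) (by norm_num) (by norm_num) (by norm_num) (by norm_num) (by norm_num) (by norm_num) (by norm_num) (by norm_num) (by norm_num) (by norm_num) (by norm_num) (by norm_num) (by norm_num) (by norm_num)
    (exp_neg_leJ (r := 0.893) 5 (by norm_num) (by norm_num) (by norm_num) (by norm_num))
    (exp_neg_leJ (r := 0.601) 3 (by norm_num) (by norm_num) (by norm_num) (by norm_num))
    (exp_neg_leJ (r := 0.152) 6 (by norm_num) (by norm_num) (by norm_num) (by norm_num))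
    (exp_neg_leJ (r := 0.038) 11 (by norm_num) (by norm_num) (by norm_num) (by norm_num))
    (exp_neg_leJ (r := 0.936) 6 (by norm_num) (by norm_num) (by norm_num) (by norm_num))
    (exp_neg_leJ (r := 0.99) 14 (by norm_num) (by norm_num) (by norm_num) (by norm_num))
    (exp_neg_leJ (r := 0.99) 14 (by norm_num) (by norm_num) (by norm_num) (by norm_num))
    (exp_neg_leJ (r := 0.99) 14 (by norm_num) (by norm_num) (by norm_num) (by norm_num))
    (by norm_num)) (by norm_num) hN hβ.le (by norm_num)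

private theorem B5Lw_T4_0_7 {β x y : ℝ} (hβ : 0 < β) (hN : β * 7.352 ≤ 1) (hx1 : 1.805 ≤ x) (hx2 : x ≤ 1.855)
    (hy1 : -0.4911 ≤ y) (hy2 : y ≤ -0.1599) : ‖HH β (x + y * I) - 1‖ ≤ 0.175 := by
  refine le_epsJ (C := 1.2853) (N0 := 7.352) (J_boxp 1.805 1.855 0.4911 0 (-0.1599) 1.6323 1.919 2.0364 0.6843 0.5694 2.7115 7.352 1.1757 5.703 1.723 0.2533 0.8161 0.4963 0.8509 1.4729 0.9634 2.9992 3.8457 3.1056 0.002513 0.02606 0.001921 0.00001987 0.0008401 0.0000003101 0.0000003101 0.0000003101 1.2853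
    hβ hN hx1 hx2 hy1 hy2 (by norm_num) (by norm_num) (by linarith) (by norm_num) (by norm_num) (by norm_num) (by norm_num) (by norm_num) (by norm_num) (by norm_num) (by norm_num) (by norm_num) (by norm_num) (by norm_num) (by norm_num) (by norm_num) (by norm_num) (by norm_num) (by norm_num) (by norm_num) (by norm_num) (by norm_num) (by norm_num) (by norm_num)
    (cube_sqrt_geJ (s := 0.7798) (by norm_num) (by norm_num) (by norm_num) (by norm_num))
    (cube_sqrt_geJ (s := 0.9252) (by norm_num) (by norm_num) (by norm_num) (by norm_num))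
    (by norm_num) (by norm_num) (by norm_num) (by norm_num) (by norm_num) (by norm_num) (by norm_num) (by norm_num) (by norm_num) (by norm_num) (by norm_num) (by norm_num) (by norm_num) (by norm_num) (by norm_num) (by norm_num) (by norm_num) (by norm_num)
    (exp_neg_leJ (r := 0.99) 5 (by norm_num) (by norm_num) (by norm_num) (by norm_num))
    (exp_neg_leJ (r := 0.648) 3 (by norm_num) (by norm_num) (by norm_num) (by norm_num))
    (exp_neg_leJ (r := 0.255) 6 (by norm_num) (by norm_num) (by norm_num) (by norm_num))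
    (exp_neg_leJ (r := 0.828) 10 (by norm_num) (by norm_num) (by norm_num) (by norm_num))
    (exp_neg_leJ (r := 0.082) 7 (by norm_num) (by norm_num) (by norm_num) (by norm_num))
    (exp_neg_leJ (r := 0.99) 14 (by norm_num) (by norm_num) (by norm_num) (by norm_num))
    (exp_neg_leJ (r := 0.99) 14 (by norm_num) (by norm_num) (by norm_num) (by norm_num))
    (exp_neg_leJ (r := 0.99) 14 (by norm_num) (by norm_num) (by norm_num) (by norm_num))
    (by norm_num)) (by norm_num) hN hβ.le (by norm_num)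

private theorem B5Lw_T4_0_8 {β x y : ℝ} (hβ : 0 < β) (hN : β * 7.352 ≤ 1) (hx1 : 1.855 ≤ x) (hx2 : x ≤ 1.915)
    (hy1 : -0.4911 ≤ y) (hy2 : y ≤ -0.1599) : ‖HH β (x + y * I) - 1‖ ≤ 0.175 := by
  refine le_epsJ (C := 1.2844) (N0 := 7.352) (J_boxp 1.855 1.915 0.4911 0 (-0.1599) 1.6675 1.977 2.0912 0.6716 0.577 2.7115 7.352 1.1857 5.815 1.732 0.2302 0.8337 0.5042 0.868 1.4388 0.9877 3.0684 3.9457 3.048 0.002179 0.0246 0.001694 0.00002548 0.0007025 0.0000003101 0.0000003101 0.0000003101 1.2844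
    hβ hN hx1 hx2 hy1 hy2 (by norm_num) (by norm_num) (by linarith) (by norm_num) (by norm_num) (by norm_num) (by norm_num) (by norm_num) (by norm_num) (by norm_num) (by norm_num) (by norm_num) (by norm_num) (by norm_num) (by norm_num) (by norm_num) (by norm_num) (by norm_num) (by norm_num) (by norm_num) (by norm_num) (by norm_num) (by norm_num) (by norm_num)
    (cube_sqrt_geJ (s := 0.7776) (by norm_num) (by norm_num) (by norm_num) (by norm_num))
    (cube_sqrt_geJ (s := 0.9245) (by norm_num) (by norm_num) (by norm_num) (by norm_num))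
    (by norm_num) (by norm_num) (by norm_num) (by norm_num) (by norm_num) (by norm_num) (by norm_num) (by norm_num) (by norm_num) (by norm_num) (by norm_num) (by norm_num) (by norm_num) (by norm_num) (by norm_num) (by norm_num) (by norm_num) (by norm_num)
    (exp_neg_leJ (r := 0.129) 6 (by norm_num) (by norm_num) (by norm_num) (by norm_num))
    (exp_neg_leJ (r := 0.706) 3 (by norm_num) (by norm_num) (by norm_num) (by norm_num))
    (exp_neg_leJ (r := 0.381) 6 (by norm_num) (by norm_num) (by norm_num) (by norm_num))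
    (exp_neg_leJ (r := 0.578) 10 (by norm_num) (by norm_num) (by norm_num) (by norm_num))
    (exp_neg_leJ (r := 0.261) 7 (by norm_num) (by norm_num) (by norm_num) (by norm_num))
    (exp_neg_leJ (r := 0.99) 14 (by norm_num) (by norm_num) (by norm_num) (by norm_num))
    (exp_neg_leJ (r := 0.99) 14 (by norm_num) (by norm_num) (by norm_num) (by norm_num))
    (exp_neg_leJ (r := 0.99) 14 (by norm_num) (by norm_num) (by norm_num) (by norm_num))
    (by norm_num)) (by norm_num) hN hβ.le (by norm_num)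

private theorem B5Lw_T4_0_9 {β x y : ℝ} (hβ : 0 < β) (hN : β * 7.352 ≤ 1) (hx1 : 1.915 ≤ x) (hx2 : x ≤ 1.988)
    (hy1 : -0.4911 ≤ y) (hy2 : y ≤ -0.1599) : ‖HH β (x + y * I) - 1‖ ≤ 0.175 := by
  refine le_epsJ (C := 1.2855) (N0 := 7.352) (J_boxp 1.915 1.988 0.4911 0 (-0.1599) 1.7097 2.0478 2.1583 0.6572 0.5861 2.7115 7.352 1.1978 5.952 1.743 0.2021 0.8548 0.5135 0.8886 1.3972 1.0168 3.1515 4.0657 2.9755 0.001866 0.02297 0.001457 0.00003459 0.0005672 0.0000003101 0.0000003101 0.0000003101 1.2855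
    hβ hN hx1 hx2 hy1 hy2 (by norm_num) (by norm_num) (by linarith) (by norm_num) (by norm_num) (by norm_num) (by norm_num) (by norm_num) (by norm_num) (by norm_num) (by norm_num) (by norm_num) (by norm_num) (by norm_num) (by norm_num) (by norm_num) (by norm_num) (by norm_num) (by norm_num) (by norm_num) (by norm_num) (by norm_num) (by norm_num) (by norm_num)
    (cube_sqrt_geJ (s := 0.775) (by norm_num) (by norm_num) (by norm_num) (by norm_num))
    (cube_sqrt_geJ (s := 0.9237) (by norm_num) (by norm_num) (by norm_num) (by norm_num))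
    (by norm_num) (by norm_num) (by norm_num) (by norm_num) (by norm_num) (by norm_num) (by norm_num) (by norm_num) (by norm_num) (by norm_num) (by norm_num) (by norm_num) (by norm_num) (by norm_num) (by norm_num) (by norm_num) (by norm_num) (by norm_num)
    (exp_neg_leJ (r := 0.284) 6 (by norm_num) (by norm_num) (by norm_num) (by norm_num))
    (exp_neg_leJ (r := 0.775) 3 (by norm_num) (by norm_num) (by norm_num) (by norm_num))
    (exp_neg_leJ (r := 0.532) 6 (by norm_num) (by norm_num) (by norm_num) (by norm_num))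
    (exp_neg_leJ (r := 0.272) 10 (by norm_num) (by norm_num) (by norm_num) (by norm_num))
    (exp_neg_leJ (r := 0.475) 7 (by norm_num) (by norm_num) (by norm_num) (by norm_num))
    (exp_neg_leJ (r := 0.99) 14 (by norm_num) (by norm_num) (by norm_num) (by norm_num))
    (exp_neg_leJ (r := 0.99) 14 (by norm_num) (by norm_num) (by norm_num) (by norm_num))
    (exp_neg_leJ (r := 0.99) 14 (by norm_num) (by norm_num) (by norm_num) (by norm_num))
    (by norm_num)) (by norm_num) hN hβ.le (by norm_num)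

private theorem B5Lw_T4_0_10 {β x y : ℝ} (hβ : 0 < β) (hN : β * 7.352 ≤ 1) (hx1 : 1.988 ≤ x) (hx2 : x ≤ 2.0375)
    (hy1 : -0.4911 ≤ y) (hy2 : y ≤ -0.1599) : ‖HH β (x + y * I) - 1‖ ≤ 0.175 := by
  refine le_epsJ (C := 1.204) (N0 := 7.352) (J_boxp 1.988 2.0375 0.4911 0 (-0.1599) 1.7611 2.0959 2.2039 0.6353 0.5923 2.7115 7.352 1.1902 5.865 1.736 0.1831 0.8805 0.5312 0.9136 1.3689 1.0523 3.2526 4.2117 2.9908 0.001545 0.02019 0.001213 0.00004259 0.0004373 0.0000003101 0.0000003101 0.0000003101 1.204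
    hβ hN hx1 hx2 hy1 hy2 (by norm_num) (by norm_num) (by linarith) (by norm_num) (by norm_num) (by norm_num) (by norm_num) (by norm_num) (by norm_num) (by norm_num) (by norm_num) (by norm_num) (by norm_num) (by norm_num) (by norm_num) (by norm_num) (by norm_num) (by norm_num) (by norm_num) (by norm_num) (by norm_num) (by norm_num) (by norm_num) (by norm_num)
    (cube_sqrt_geJ (s := 0.7767) (by norm_num) (by norm_num) (by norm_num) (by norm_num))
    (cube_sqrt_geJ (s := 0.9242) (by norm_num) (by norm_num) (by norm_num) (by norm_num))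
    (by norm_num) (by norm_num) (by norm_num) (by norm_num) (by norm_num) (by norm_num) (by norm_num) (by norm_num) (by norm_num) (by norm_num) (by norm_num) (by norm_num) (by norm_num) (by norm_num) (by norm_num) (by norm_num) (by norm_num) (by norm_num)
    (exp_neg_leJ (r := 0.473) 6 (by norm_num) (by norm_num) (by norm_num) (by norm_num))
    (exp_neg_leJ (r := 0.905) 3 (by norm_num) (by norm_num) (by norm_num) (by norm_num))
    (exp_neg_leJ (r := 0.716) 6 (by norm_num) (by norm_num) (by norm_num) (by norm_num))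
    (exp_neg_leJ (r := 0.064) 10 (by norm_num) (by norm_num) (by norm_num) (by norm_num))
    (exp_neg_leJ (r := 0.736) 7 (by norm_num) (by norm_num) (by norm_num) (by norm_num))
    (exp_neg_leJ (r := 0.99) 14 (by norm_num) (by norm_num) (by norm_num) (by norm_num))
    (exp_neg_leJ (r := 0.99) 14 (by norm_num) (by norm_num) (by norm_num) (by norm_num))
    (exp_neg_leJ (r := 0.99) 14 (by norm_num) (by norm_num) (by norm_num) (by norm_num))
    (by norm_num)) (by norm_num) hN hβ.le (by norm_num)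

private theorem B5Lw_T4 {β x y : ℝ} (hβ : 0 < β) (hN : β * 7.352 ≤ 1) (hx1 : 1.6308 ≤ x) (hx2 : x ≤ 2.0375)
    (hy1 : (-0.4911) ≤ y) (hy2 : y ≤ (-0.1599)) : ‖HH β (x + y * I) - 1‖ ≤ 0.175 := by
  rcases le_total x 1.644 with hxx | hxx
  · exact B5Lw_T4_0_0 hβ hN (by linarith) (by linarith) (by linarith) (by linarith)
  rcases le_total x 1.66 with hxx | hxx
  · exact B5Lw_T4_0_1 hβ hN (by linarith) (by linarith) (by linarith) (by linarith)
  rcases le_total x 1.679 with hxx | hxx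
  · exact B5Lw_T4_0_2 hβ hN (by linarith) (by linarith) (by linarith) (by linarith)
  rcases le_total x 1.702 with hxx | hxx
  · exact B5Lw_T4_0_3 hβ hN (by linarith) (by linarith) (by linarith) (by linarith)
  rcases le_total x 1.73 with hxx | hxx
  · exact B5Lw_T4_0_4 hβ hN (by linarith) (by linarith) (by linarith) (by linarith)
  rcases le_total x 1.764 with hxx | hxx
  · exact B5Lw_T4_0_5 hβ hN (by linarith) (by linarith) (by linarith) (by linarith)
  rcases le_total x 1.805 with hxx | hxx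
  · exact B5Lw_T4_0_6 hβ hN (by linarith) (by linarith) (by linarith) (by linarith)
  rcases le_total x 1.855 with hxx | hxx
  · exact B5Lw_T4_0_7 hβ hN (by linarith) (by linarith) (by linarith) (by linarith)
  rcases le_total x 1.915 with hxx | hxx
  · exact B5Lw_T4_0_8 hβ hN (by linarith) (by linarith) (by linarith) (by linarith)
  rcases le_total x 1.988 with hxx | hxx
  · exact B5Lw_T4_0_9 hβ hN (by linarith) (by linarith) (by linarith) (by linarith)
  exact B5Lw_T4_0_10 hβ hN (by linarith) (by linarith) (by linarith) (by linarith)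

private theorem B5Lw_G5 {κ : ℝ} (hk1 : 1.33 ≤ κ) (hk2 : κ ≤ 1.36) : gG κ 0.4 ≤ 1.27031 ∧ 0.33688 ≤ Real.exp (-(κ * 0.4)) ^ 2 := by
  refine ⟨gG_le 0.4 1.33 1.36 1.27031 0.58743 0.58043 1.70234 1.72289 hk1 hk2 (by norm_num)
    (ex_um 0.532 (by norm_num) (by norm_num) (by norm_num) (by norm_num)) (ex_um 0.544 (by norm_num) (by norm_num) (by norm_num) (by norm_num))
    (ex_up 0.532 (by norm_num) (by norm_num) (by norm_num) (by norm_num)) (ex_up 0.544 (by norm_num) (by norm_num) (by norm_num) (by norm_num))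
    (by norm_num) (by norm_num), ?_⟩
  exact v5_M 0.58042 (ex_lm 0.544 (by linarith) (by norm_num) (by norm_num) (by norm_num) (by norm_num)) (by norm_num) (by norm_num)

private theorem B5Lw_C6 {β r t κ : ℝ} (hβ : 0 < β) (hr : 10 ≤ r) (hκ : κ = β * r) (hk1 : 1.33 ≤ κ) (hk2 : κ ≤ 1.36) (hta : 1.822 ≤ t + κ)
    (htb : t + κ ≤ 2.0126) : ‖F (cexp (I * β)) (r * cexp (I * ((t + β / 2 : ℝ) : ℂ)))‖ ≤
      1.701 * Real.exp (r * (1.27031 - 0.4 * (t + κ))) + 0.2197 * Real.exp (r * 0) :=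
  v5_H 0.4 1.33 1.36 1.822 2.0126 1.27031 1.6376 0.33688 0.1472 2.0326 0.888 0.09798 0.3823 0.0000549 1.701 0.2197 hβ hr hκ (by norm_num) hk1 hk2 hta htb (by norm_num) (B5Lw_G5 hk1 hk2).1 (B5Lw_G5 hk1 hk2).2 (by norm_num) (by norm_num) (by norm_num)
    (by norm_num) (by norm_num) (by norm_num) (by norm_num) (by norm_num) (by norm_num) (by norm_num) (by norm_num) (ex_un 0 0.9797 (by norm_num) (by norm_num) (by norm_num) (by norm_num))
    (v5_hump 1.3625 7.352 2.7115 0.00004464 0.0000549 hβ hr hκ hk1 hk2 (by norm_num) htb (by norm_num) (by norm_num) (by norm_num) (by norm_num) (by norm_num) (by norm_num) (by norm_num) (ex_un 10 0.017 (by norm_num) (by norm_num) (by norm_num) (by norm_num)) (by norm_num)) (by norm_num) (by norm_num)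

private theorem B5Lw_G7 {κ : ℝ} (hk1 : 1.33 ≤ κ) (hk2 : κ ≤ 1.36) : gG κ (-0.6) ≤ 1.52554 ∧ 4.93301 ≤ Real.exp (-(κ * (-0.6))) ^ 2 := by
  refine ⟨gG_le (-0.6) 1.33 1.36 1.52554 2.2211 2.26144 0.45024 0.44221 hk1 hk2 (by norm_num)
    (ex_up 0.798 (by norm_num) (by norm_num) (by norm_num) (by norm_num)) (ex_up 0.816 (by norm_num) (by norm_num) (by norm_num) (by norm_num))
    (ex_um 0.798 (by norm_num) (by norm_num) (by norm_num) (by norm_num)) (ex_um 0.816 (by norm_num) (by norm_num) (by norm_num) (by norm_num))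
    (by norm_num) (by norm_num), ?_⟩
  exact v5_M 2.22104 (ex_lp 0.798 (by linarith) (by norm_num) (by norm_num)) (by norm_num) (by norm_num)

private theorem B5Lw_C8 {β r t κ : ℝ} (hβ : 0 < β) (hr : 10 ≤ r) (hκ : κ = β * r) (hk1 : 1.33 ≤ κ) (hk2 : κ ≤ 1.36) (hta : (-1.9479) ≤ t + κ)
    (htb : t + κ ≤ (-1.7573)) : ‖F (cexp (I * β)) (r * cexp (I * ((t + β / 2 : ℝ) : ℂ)))‖ ≤
      0.7263 * Real.exp (r * (1.52554 - (-0.6) * (t + κ))) + 1.6657 * Real.exp (r * 0.0501) :=
  v5_HU (-0.6) 1.33 1.36 (-1.9479) (-1.7573) 1.52554 0.7263 4.93301 0.1472 0.6636 1.404 0 0.0501 0.00000115 1.6657 hβ hr hκ (by norm_num) hk1 hk2 hta htb (by norm_num) (by norm_num) (B5Lw_G7 hk1 hk2).1 (B5Lw_G7 hk1 hk2).2 (by norm_num) (by norm_num) (by norm_num)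
    (by norm_num) (by norm_num) (by norm_num) (by norm_num) (by norm_num) (by norm_num) (by norm_num)
    (by norm_num) (by norm_num) (by norm_num) (v5_hump 5.1324 7.352 2.7115 0.0000009316 0.00000115 hβ hr hκ hk1 hk2 (by norm_num) htb (by norm_num) (by norm_num) (by norm_num) (by norm_num) (by norm_num) (by norm_num) (by norm_num) (ex_un 13 0.9 (by norm_num) (by norm_num) (by norm_num) (by norm_num)) (by norm_num)) (by norm_num)

private theorem B5Lw_C9 {β r t κ : ℝ} (hβ : 0 < β) (hr : 10 ≤ r) (hκ : κ = β * r) (hk1 : 1.33 ≤ κ) (hk2 : κ ≤ 1.36) (hta : 3.0786 ≤ t + κ)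
    (htb : t + κ ≤ 3.2692) : ‖F (cexp (I * β)) (r * cexp (I * ((t + β / 2 : ℝ) : ℂ)))‖ ≤
      2.2951 * Real.exp (r * (0.01 + 1 / 20)) :=
  v5_UD 1.33 1.36 3.0786 3.2692 0.01 0.346 0.01 1.1965 2.2951 hβ hr hκ (by norm_num) hk1 hk2 hta htb (by norm_num) (by norm_num) (by norm_num) (by norm_num) (by norm_num) (by norm_num) (by norm_num) (by norm_num) (by norm_num) (by norm_num) (by norm_num)

private theorem B5Lw_Y10 {β r t κ h t' : ℝ} (hβ : 0 < β) (hκ : κ = β * r) (hN : β * 7.352 ≤ 1) (hk1 : 1.33 ≤ κ) (hk2 : κ ≤ 1.36)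
    (ht : t' = t + (((1 : ℤ) : ℝ) - 1) * h) (hD : DomR κ t') (hta : 0.5654 ≤ t' + κ) (htb : t' + κ ≤ 0.6199) :
    0.7072 * Real.exp (r * sE κ t') ≤ ‖Xf β r h t 1‖ := by
  obtain ⟨⟨ya, yb⟩, ⟨xa, xb⟩, n1, Da, Db⟩ := B5Lw_B1 hD hk1 hk2 hta htb
  have J := B5Lw_T3 (x := sx κ t') (y := sy κ t') hβ hN (by linarith only [xa, xb, ya, yb]) (by linarith only [xa, xb, ya, yb]) (by linarith only [xa, xb, ya, yb]) (by linarith only [xa, xb, ya, yb])
  exact v5_Jlo hβ hκ (k := 1) ht hD 0.1 2.6224 0.7072 (by norm_num) J Db (by norm_num)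

private theorem B5Lw_Y11 {β r t κ h t' : ℝ} (hβ : 0 < β) (hκ : κ = β * r) (hN : β * 7.352 ≤ 1) (hk1 : 1.33 ≤ κ) (hk2 : κ ≤ 1.36)
    (ht : t' = t + (((0 : ℤ) : ℝ) - 1) * h) (hD : DomR κ t') (hta : (-0.6913) ≤ t' + κ) (htb : t' + κ ≤ (-0.6367)) :
    0.5842 * Real.exp (r * sE κ t') ≤ ‖Xf β r h t 0‖ := by
  obtain ⟨⟨ya, yb⟩, ⟨xa, xb⟩, n1, Da, Db⟩ := B5Lw_B2 hD hk1 hk2 hta htb
  have J := B5Lw_T4 (x := sx κ t') (y := sy κ t') hβ hN (by linarith only [xa, xb, ya, yb]) (by linarith only [xa, xb, ya, yb]) (by linarith only [xa, xb, ya, yb]) (by linarith only [xa, xb, ya, yb])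
  exact v5_Jlo hβ hκ (k := 0) ht hD 0.175 3.9763 0.5842 (by norm_num) J Db (by norm_num)

private theorem B5Lw_V12 {κ t : ℝ} (hD : DomR κ t) (hk1 : 1.33 ≤ κ) (hk2 : κ ≤ 1.36) (hta : 0.5654 ≤ t + κ) (htb : t + κ ≤ 0.6199) :
    1.05898 - 0.2031 * (t + κ) ≤ sE κ t := by
  have hκ0 : 0 < κ := hD.1
  exact v5_V1 hD 1.33 1.36 0.5654 0.6199 0.02877 0.09856 0.26075 1.05898 0.2031 (by norm_num) hk1 hk2 (by norm_num) (by norm_num) hta htb (by norm_num) (clo5 1.33 1.36 0.26075 (by norm_num) hk1 hk2 (by norm_num) (by norm_num) (by norm_num))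
      ((cup2 1.33 (by norm_num) hk1).trans (by norm_num)) (by norm_num) (by norm_num) (by norm_num) (by norm_num) (by norm_num) (by norm_num)

private theorem B5Lw_V13 {κ t : ℝ} (hD : DomR κ t) (hk1 : 1.33 ≤ κ) (hk2 : κ ≤ 1.36) (hta : (-0.6913) ≤ t + κ) (htb : t + κ ≤ (-0.6367)) :
    1.08491 + 0.2562 * (t + κ) ≤ sE κ t := by
  have hκ0 : 0 < κ := hD.1
  exact v5_V0 hD 1.33 1.36 (-0.6913) (-0.6367) 0.6914 0.5342 0.0356 0.16116 0.04711 0.49117 1.08491 0.2562 (by norm_num) hk1 hk2 (by norm_num) hta htb (by norm_num) (by norm_num) (by norm_num) ((cup2 1.33 (by norm_num) hk1).trans (by norm_num))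
      (by norm_num) (by norm_num) (by norm_num) (by norm_num) (by norm_num) (by norm_num) (by norm_num) (by norm_num) (by norm_num) (by norm_num) (by norm_num) (by norm_num) (by norm_num)

private theorem B5Lw_S14 {β r t κ h t' : ℝ} (hβ : 0 < β) (hκ : κ = β * r) (hN : β * 7.352 ≤ 1) (hk1 : 1.33 ≤ κ) (hk2 : κ ≤ 1.36)
    (ht : t' = t + (((1 : ℤ) : ℝ) - 1) * h) (hD : DomR κ t') (hta : 0.5654 ≤ t' + κ) (htb : t' + κ ≤ 0.6199) :
    Xf β r h t 1 ≠ 0 ∧ |(Ld β r h t 1).im - (sy κ t' / β + sx κ t' / sD κ t' * ((1 + sy κ t') / sD κ t' - 1 / 2))| ≤ 0.3678 ∧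
      ‖Ld β r h t 1 - sg κ t' / β‖ ≤ 0.5743 ∧ -0.01 ≤ sx κ t' / sD κ t' * ((1 + sy κ t') / sD κ t' - 1 / 2) ∧
      (0.248 ≤ sy κ t' ∧ sy κ t' ≤ 0.27) ∧ (0.9786 ≤ sx κ t' ∧ sx κ t' ≤ 1.032) := by
  obtain ⟨⟨y1, y2⟩, ⟨x1, x2⟩, n1, Da, Db⟩ := B5Lw_B1 hD hk1 hk2 hta htb
  have hd := v5_disc (β := β) (κ := κ) (t := t') (ε := 0.1) 0.2 0.7785 1.2321 0.0479 0.4701 0.9786 1.032 0.248 0.27
    (fun x y g1 g2 g3 g4 => B5Lw_T3 hβ hN g1 g2 g3 g4) x1 x2 y1 y2 (by norm_num) (by norm_num) (by norm_num) (by norm_num)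
  obtain ⟨nz, im, nL⟩ := v5_slope (h := h) (t := t) (k := 1) 0.2 0.1 1.0613 2.5707 0.5556 0.3678 hβ hκ ht hD (by norm_num) (by norm_num) (by linarith only [y1]) hd n1 (by norm_num) Da (by norm_num) (by norm_num) (by norm_num) (by norm_num)
  have ex := ex_lo hD 1.0613 2.5707 2.6224 0.248 0.0242 0.01 n1 (by norm_num) Da Db y1 (by norm_num) (by norm_num) (by norm_num) (by norm_num)
  exact ⟨nz, im, nL.trans (by norm_num), ex, ⟨y1, y2⟩, x1, x2⟩

private theorem B5Lw_S15 {β r t κ h t' : ℝ} (hβ : 0 < β) (hκ : κ = β * r) (hN : β * 7.352 ≤ 1) (hk1 : 1.33 ≤ κ) (hk2 : κ ≤ 1.36)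
    (ht : t' = t + (((0 : ℤ) : ℝ) - 1) * h) (hD : DomR κ t') (hta : (-0.6913) ≤ t' + κ) (htb : t' + κ ≤ (-0.6367)) :
    Xf β r h t 0 ≠ 0 ∧ |(Ld β r h t 0).im - (sy κ t' / β + sx κ t' / sD κ t' * ((1 + sy κ t') / sD κ t' - 1 / 2))| ≤ 1.4124 ∧
      ‖Ld β r h t 0 - sg κ t' / β‖ ≤ 1.6732 ∧ sx κ t' / sD κ t' * ((1 + sy κ t') / sD κ t' - 1 / 2) ≤ 0.0001 ∧
      ((-0.341) ≤ sy κ t' ∧ sy κ t' ≤ (-0.31)) ∧ (1.7809 ≤ sx κ t' ∧ sx κ t' ≤ 1.8874) := by
  obtain ⟨⟨y1, y2⟩, ⟨x1, x2⟩, n1, Da, Db⟩ := B5Lw_B2 hD hk1 hk2 hta htb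
  have hd := v5_disc (β := β) (κ := κ) (t := t') (ε := 0.175) 0.15 1.6308 2.0375 (-0.4911) (-0.1599) 1.7809 1.8874 (-0.341) (-0.31)
    (fun x y g1 g2 g3 g4 => B5Lw_T4 hβ hN g1 g2 g3 g4) x1 x2 y1 y2 (by norm_num) (by norm_num) (by norm_num) (by norm_num)
  obtain ⟨nz, im, nL⟩ := v5_slope (h := h) (t := t) (k := 0) 0.15 0.175 1.9127 3.6682 1.4142 1.4124 hβ hκ ht hD (by norm_num) (by norm_num) (by linarith only [y1]) hd n1 (by norm_num) Da (by norm_num) (by norm_num) (by norm_num) (by norm_num)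
  have ex := ex_hi hD 1.9127 3.6682 (-0.31) 0 0.0001 n1 (by norm_num) Da y2 (by norm_num) (by norm_num) (by norm_num) (by norm_num)
  exact ⟨nz, im, nL.trans (by norm_num), ex, ⟨y1, y2⟩, x1, x2⟩

private theorem B5Lw_L16 {β r κ t1 t0 : ℝ} {L0 L1 : ℂ} (hβ : 0 < β) (hr : 10 ≤ r) (hκ : κ = β * r) (hk1 : 1.33 ≤ κ)
    (nA0 : ‖L0 - sg κ t0 / β‖ ≤ 1.6732) (nA1 : ‖L1 - sg κ t1 / β‖ ≤ 0.5743)
    (y0 : (-0.341) ≤ sy κ t0 ∧ sy κ t0 ≤ (-0.31)) (x0 : 1.7809 ≤ sx κ t0 ∧ sx κ t0 ≤ 1.8874)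
    (y1 : 0.248 ≤ sy κ t1 ∧ sy κ t1 ≤ 0.27) (x1 : 0.9786 ≤ sx κ t1 ∧ sx κ t1 ≤ 1.032) :
    ‖(1 : ℂ) * L0 + (-2 : ℂ) * L1‖ ≤ r * 0.9781 := by
  obtain ⟨y0a, y0b⟩ := y0
  obtain ⟨x0a, x0b⟩ := x0
  obtain ⟨y1a, y1b⟩ := y1
  obtain ⟨x1a, x1b⟩ := x1
  have hN := v5_cN (κ := κ) (t1 := t1) (t0 := t0) 1 (-2) 0.2832 0.8811 0.9255 (abs_le.2 ⟨by linarith only [x0a, x0b, x1a, x1b], by linarith only [x0a, x0b, x1a, x1b]⟩)
    (abs_le.2 ⟨by linarith only [y0a, y0b, y1a, y1b], by linarith only [y0a, y0b, y1a, y1b]⟩) (by norm_num) (by norm_num)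
  have h1 := v5_comb 1 (-2) 1.33 1.6732 0.5743 0.9255 0.9781 hβ hr hκ (by norm_num) hk1 nA0 nA1 hN (by norm_num [abs_of_neg, abs_of_pos])
  norm_num at h1 ⊢
  exact h1

private theorem B5Lw_L17 {β r κ t1 t0 : ℝ} {L0 L1 : ℂ} (hβ : 0 < β) (hr : 10 ≤ r) (hκ : κ = β * r) (hk1 : 1.33 ≤ κ)
    (nA0 : ‖L0 - sg κ t0 / β‖ ≤ 1.6732) (nA1 : ‖L1 - sg κ t1 / β‖ ≤ 0.5743)
    (y0 : (-0.341) ≤ sy κ t0 ∧ sy κ t0 ≤ (-0.31)) (x0 : 1.7809 ≤ sx κ t0 ∧ sx κ t0 ≤ 1.8874)
    (y1 : 0.248 ≤ sy κ t1 ∧ sy κ t1 ≤ 0.27) (x1 : 0.9786 ≤ sx κ t1 ∧ sx κ t1 ≤ 1.032) :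
    ‖(-2 : ℂ) * L0 + (1 : ℂ) * L1‖ ≤ r * 2.6132 := by
  obtain ⟨y0a, y0b⟩ := y0
  obtain ⟨x0a, x0b⟩ := x0
  obtain ⟨y1a, y1b⟩ := y1
  obtain ⟨x1a, x1b⟩ := x1
  have hN := v5_cN (κ := κ) (t1 := t1) (t0 := t0) (-2) 1 2.7963 0.9521 2.954 (abs_le.2 ⟨by linarith only [x0a, x0b, x1a, x1b], by linarith only [x0a, x0b, x1a, x1b]⟩)
    (abs_le.2 ⟨by linarith only [y0a, y0b, y1a, y1b], by linarith only [y0a, y0b, y1a, y1b]⟩) (by norm_num) (by norm_num)
  have h1 := v5_comb (-2) 1 1.33 1.6732 0.5743 2.954 2.6132 hβ hr hκ (by norm_num) hk1 nA0 nA1 hN (by norm_num [abs_of_neg, abs_of_pos])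
  norm_num at h1 ⊢
  exact h1

private theorem B5Lw_L18 {β r κ t1 t0 : ℝ} {L0 L1 : ℂ} (hβ : 0 < β) (hr : 10 ≤ r) (hκ : κ = β * r) (hk1 : 1.33 ≤ κ)
    (nA0 : ‖L0 - sg κ t0 / β‖ ≤ 1.6732) (nA1 : ‖L1 - sg κ t1 / β‖ ≤ 0.5743)
    (y0 : (-0.341) ≤ sy κ t0 ∧ sy κ t0 ≤ (-0.31)) (x0 : 1.7809 ≤ sx κ t0 ∧ sx κ t0 ≤ 1.8874)
    (y1 : 0.248 ≤ sy κ t1 ∧ sy κ t1 ≤ 0.27) (x1 : 0.9786 ≤ sx κ t1 ∧ sx κ t1 ≤ 1.032) :
    ‖(-3 : ℂ) * L0 + (2 : ℂ) * L1‖ ≤ r * 3.6405 := by
  obtain ⟨y0a, y0b⟩ := y0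
  obtain ⟨x0a, x0b⟩ := x0
  obtain ⟨y1a, y1b⟩ := y1
  obtain ⟨x1a, x1b⟩ := x1
  have hN := v5_cN (κ := κ) (t1 := t1) (t0 := t0) (-3) 2 3.7051 1.5631 4.0214 (abs_le.2 ⟨by linarith only [x0a, x0b, x1a, x1b], by linarith only [x0a, x0b, x1a, x1b]⟩)
    (abs_le.2 ⟨by linarith only [y0a, y0b, y1a, y1b], by linarith only [y0a, y0b, y1a, y1b]⟩) (by norm_num) (by norm_num)
  have h1 := v5_comb (-3) 2 1.33 1.6732 0.5743 4.0214 3.6405 hβ hr hκ (by norm_num) hk1 nA0 nA1 hN (by norm_num [abs_of_neg, abs_of_pos])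
  norm_num at h1 ⊢
  exact h1

private theorem B5Lw_K19 {β r t κ h : ℝ} (hβ : 0 < β) (hr : 10 ≤ r) (hκ : κ = β * r) (hk1 : 1.33 ≤ κ) (hk2 : κ ≤ 1.36)
    (hh : h = 2 * Real.pi / 5) (hh1 : 1.25663 ≤ h) (hh2 : h ≤ 1.25664) (hta : 0.5654 ≤ t + κ) (htb : t + κ ≤ 0.6199)
    (hβ1 : β ≤ 0.136)
    (hY : 0.7072 * Real.exp (r * sE κ t) ≤ ‖Xf β r h t 1‖) (hV : 1.05898 - 0.2031 * (t + κ) ≤ sE κ t) :
    ‖Xf β r h t 2‖ ≤ 0.0431 * ‖Xf β r h t 1‖ ∧ ‖Xf β r h (t + β) 2‖ ≤ 0.0254 * ‖Xf β r h t 1‖ := by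
  constructor
  · rw [v5_X 2 1 (by push_cast; ring)]
    exact v5_cmp 0.4026 0.01785 0.043 0.933 0.00008877 0.0000276 0.0431 hr (B5Lw_C6 (t := t + 1 * h) hβ hr hκ hk1 hk2 (by linarith only [hta, htb, hh1, hh2, hβ, hβ1]) (by linarith only [hta, htb, hh1, hh2, hβ, hβ1])) hY (by norm_num) (by norm_num) (by norm_num) (by norm_num) (by linarith only [hV, hta, htb, hh1, hh2]) (ex_un 4 0.0259 (by norm_num) (by norm_num) (by norm_num) (by norm_num)) (by norm_num) (by norm_num) (by linarith only [hV, hta, htb, hh1, hh2]) (ex_un 9 0.3299 (by norm_num) (by norm_num) (by norm_num) (by norm_num)) (by norm_num) (by norm_num)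
  · rw [v5_X 2 1 (by push_cast; ring)]
    have h1 := B5Lw_C6 (t := t + β + 1 * h) hβ hr hκ hk1 hk2 (by linarith only [hta, htb, hh1, hh2, hβ, hβ1]) (by linarith only [hta, htb, hh1, hh2, hβ, hβ1])
    rw [show t + β + 1 * h + κ = (t + 1 * h + κ) + β by ring] at h1
    exact v5_cmpS 0.58743 0.4026 0.01785 0.0253 0.933 0.00008877 0.0000276 0.0254 hr hκ h1 hY (by norm_num) (by norm_num) (by norm_num) (ex_um 0.532 (by linarith only [hk1, hk2]) (by norm_num) (by norm_num) (by norm_num)) (by norm_num) (by linarith only [hV, hta, htb, hh1, hh2]) (ex_un 4 0.0259 (by norm_num) (by norm_num) (by norm_num) (by norm_num)) (by norm_num) (by norm_num) (by linarith only [hV, hta, htb, hh1, hh2]) (ex_un 9 0.3299 (by norm_num) (by norm_num) (by norm_num) (by norm_num)) (by norm_num) (by norm_num)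

private theorem B5Lw_K20 {β r t κ h : ℝ} (hβ : 0 < β) (hr : 10 ≤ r) (hκ : κ = β * r) (hk1 : 1.33 ≤ κ) (hk2 : κ ≤ 1.36)
    (hh : h = 2 * Real.pi / 5) (hh1 : 1.25663 ≤ h) (hh2 : h ≤ 1.25664) (hta : 0.5654 ≤ t + κ) (htb : t + κ ≤ 0.6199)
    (hβ1 : β ≤ 0.136)
    (hY : 0.5842 * Real.exp (r * sE κ (t - h)) ≤ ‖Xf β r h t 0‖) (hV : 1.08491 + 0.2562 * (t - h + κ) ≤ sE κ (t - h)) :
    ‖Xf β r h t (-1)‖ ≤ 0.00662 * ‖Xf β r h t 0‖ ∧ ‖Xf β r h (t + β) (-1)‖ ≤ 0.0144 * ‖Xf β r h t 0‖ := by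
  constructor
  · rw [v5_X (-1) (-2) (by push_cast; ring)]
    exact v5_cmp 0.5322 0.004886 0.00608 0.8577 0.000189 0.000539 0.00662 hr (B5Lw_C8 (t := t + (-2) * h) hβ hr hκ hk1 hk2 (by linarith only [hta, htb, hh1, hh2, hβ, hβ1]) (by linarith only [hta, htb, hh1, hh2, hβ, hβ1])) hY (by norm_num) (by norm_num) (by norm_num) (by norm_num) (by linarith only [hV, hta, htb, hh1, hh2]) (ex_un 5 0.3219 (by norm_num) (by norm_num) (by norm_num) (by norm_num)) (by norm_num) (by norm_num) (by linarith only [hV, hta, htb, hh1, hh2]) (ex_un 8 0.5769 (by norm_num) (by norm_num) (by norm_num) (by norm_num)) (by norm_num) (by norm_num)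
  · rw [v5_X (-1) (-2) (by push_cast; ring)]
    have h1 := B5Lw_C8 (t := t + β + (-2) * h) hβ hr hκ hk1 hk2 (by linarith only [hta, htb, hh1, hh2, hβ, hβ1]) (by linarith only [hta, htb, hh1, hh2, hβ, hβ1])
    rw [show t + β + (-2) * h + κ = (t + (-2) * h + κ) + β by ring] at h1
    exact v5_cmpS 2.26144 0.5322 0.004886 0.0138 0.8577 0.000189 0.000539 0.0144 hr hκ h1 hY (by norm_num) (by norm_num) (by norm_num) (ex_up 0.816 (by linarith only [hk1, hk2]) (by norm_num) (by norm_num) (by norm_num)) (by norm_num) (by linarith only [hV, hta, htb, hh1, hh2]) (ex_un 5 0.3219 (by norm_num) (by norm_num) (by norm_num) (by norm_num)) (by norm_num) (by norm_num) (by linarith only [hV, hta, htb, hh1, hh2]) (ex_un 8 0.5769 (by norm_num) (by norm_num) (by norm_num) (by norm_num)) (by norm_num) (by norm_num)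

private theorem B5Lw_K21 {β r t κ h : ℝ} (hβ : 0 < β) (hr : 10 ≤ r) (hκ : κ = β * r) (hk1 : 1.33 ≤ κ) (hk2 : κ ≤ 1.36)
    (hh : h = 2 * Real.pi / 5) (hh1 : 1.25663 ≤ h) (hh2 : h ≤ 1.25664) (hta : 0.5654 ≤ t + κ) (htb : t + κ ≤ 0.6199)
    (hβ1 : β ≤ 0.136)
    (hY : 0.5842 * Real.exp (r * sE κ (t - h)) ≤ ‖Xf β r h t 0‖) (hV : 1.08491 + 0.2562 * (t - h + κ) ≤ sE κ (t - h)) :
    ‖Xf β r h t (-2)‖ ≤ 0.000819 * ‖Xf β r h t 0‖ ∧ ‖Xf β r h (t + β) (-2)‖ ≤ 0.000819 * ‖Xf β r h t 0‖ := by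
  constructor
  · rw [v5_Xm2 hh]
    exact v5_cmp0 0.8478 0.0002084 0.000819 hr (B5Lw_C9 (t := t + 2 * h) hβ hr hκ hk1 hk2 (by linarith only [hta, htb, hh1, hh2, hβ, hβ1]) (by linarith only [hta, htb, hh1, hh2, hβ, hβ1])) hY (by norm_num) (by norm_num) (by norm_num) (by linarith only [hV, hta, htb, hh1, hh2]) (ex_un 8 0.4779 (by norm_num) (by norm_num) (by norm_num) (by norm_num)) (by norm_num)
  · rw [v5_Xm2 hh]
    exact v5_cmp0 0.8478 0.0002084 0.000819 hr (B5Lw_C9 (t := t + β + 2 * h) hβ hr hκ hk1 hk2 (by linarith only [hta, htb, hh1, hh2, hβ, hβ1]) (by linarith only [hta, htb, hh1, hh2, hβ, hβ1])) hY (by norm_num) (by norm_num) (by norm_num) (by linarith only [hV, hta, htb, hh1, hh2]) (ex_un 8 0.4779 (by norm_num) (by norm_num) (by norm_num) (by norm_num)) (by norm_num)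

theorem B5Lw_W22 {β r t κ h : ℝ} (hβ : 0 < β) (hr : 10 ≤ r) (hκ : κ = β * r) (hk1 : 1.33 ≤ κ) (hk2 : κ ≤ 1.36)
    (hh : h = 2 * Real.pi / 5) (hta : 0.5654 ≤ t + κ) (htb : t + κ ≤ 0.6199) :
    Xf β r h t 0 ≠ 0 ∧
    (‖Xf β r h t 2‖ ≤ 0.0431 * ‖Xf β r h t 1‖ ∧ ‖Xf β r h t (-1)‖ ≤ 0.00933 * ‖Xf β r h t 0‖ ∧
      ‖Xf β r h t (-2)‖ ≤ 0.00082 * ‖Xf β r h t 0‖) ∧
    (r * ‖Xf β r h (t + β) 2‖ + ‖Xf β r h t 2‖ * ‖(1 : ℂ) * Ld β r h t 0 + (-2 : ℂ) * Ld β r h t 1‖ ≤
        r * 0.0676 * ‖Xf β r h t 1‖ ∧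
      r * ‖Xf β r h (t + β) (-1)‖ + ‖Xf β r h t (-1)‖ * ‖(-2 : ℂ) * Ld β r h t 0 + (1 : ℂ) * Ld β r h t 1‖ ≤
        r * 0.0433 * ‖Xf β r h t 0‖ ∧
      r * ‖Xf β r h (t + β) (-2)‖ + ‖Xf β r h t (-2)‖ * ‖(-3 : ℂ) * Ld β r h t 0 + (2 : ℂ) * Ld β r h t 1‖ ≤
        r * 0.00381 * ‖Xf β r h t 0‖) ∧
    r * 0.2312 ≤ (Ld β r h t 1 - Ld β r h t 0).im := by
  obtain ⟨hh1, hh2⟩ := v5_h hh
  have hκ0 : 0 < κ := by linarith only [hk1]
  have hN : β * 7.352 ≤ 1 := v5_hN 1.36 7.352 hβ hr hκ hk2 (by norm_num) (by norm_num)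
  have hD1 : DomR κ t := v5_dom hκ0 (by linarith only [hta, htb, hk1, hk2, hh1, hh2]) (Or.inr (by linarith only [hta, htb, hk1, hk2, hh1, hh2]))
  have hD0 : DomR κ (t - h) := v5_dom hκ0 (by linarith only [hta, htb, hk1, hk2, hh1, hh2]) (Or.inl (by linarith only [hk1]))
  have hβ1 : β ≤ 0.136 := by
    have := mul_le_mul_of_nonneg_left hr hβ.le
    linarith only [this, hκ, hk2]
  have h0a : (-0.6913) ≤ t - h + κ := by linarith only [hta, htb, hh1, hh2]
  have h0b : t - h + κ ≤ (-0.6367) := by linarith only [hta, htb, hh1, hh2]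
  have e1 : t = t + (((1 : ℤ) : ℝ) - 1) * h := by push_cast; ring
  have e0 : t - h = t + (((0 : ℤ) : ℝ) - 1) * h := by push_cast; ring
  have hY1 := B5Lw_Y10 (h := h) hβ hκ hN hk1 hk2 e1 hD1 hta htb
  have hY0 := B5Lw_Y11 (h := h) hβ hκ hN hk1 hk2 e0 hD0 h0a h0b
  have hV1 := B5Lw_V12 hD1 hk1 hk2 hta htb
  have hV0 := B5Lw_V13 hD0 hk1 hk2 h0a h0b
  obtain ⟨nz1, im1, nA1, ex1, y1, x1⟩ := B5Lw_S14 (h := h) hβ hκ hN hk1 hk2 e1 hD1 hta htb
  obtain ⟨nz0, im0, nA0, ex0, y0, x0⟩ := B5Lw_S15 (h := h) hβ hκ hN hk1 hk2 e0 hD0 h0a h0b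
  obtain ⟨cp2, dp2⟩ := B5Lw_K19 hβ hr hκ hk1 hk2 hh hh1 hh2 hta htb hβ1 hY1 hV1
  obtain ⟨cm1, dm1⟩ := B5Lw_K20 hβ hr hκ hk1 hk2 hh hh1 hh2 hta htb hβ1 hY0 hV0
  obtain ⟨cm2, dm2⟩ := B5Lw_K21 hβ hr hκ hk1 hk2 hh hh1 hh2 hta htb hβ1 hY0 hV0
  have Lp2 := B5Lw_L16 hβ hr hκ hk1 nA0 nA1 y0 x0 y1 x1
  have Lm1 := B5Lw_L17 hβ hr hκ hk1 nA0 nA1 y0 x0 y1 x1
  have Lm2 := B5Lw_L18 hβ hr hκ hk1 nA0 nA1 y0 x0 y1 x1
  have hm : r * 0.2312 ≤ (Ld β r h t 1 - Ld β r h t 0).im :=
    v5_m 1.36 0.248 0.31 0.01 0.0001 0.3678 1.4124 _ _ 0.2312 hβ hr hκ hk2 im1 im0 y1.1 (by linarith only [y0.2]) (by norm_num) ex1 ex0 (by norm_num) (by norm_num)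
  have hr0 : 0 < r := by linarith only [hr]
  refine ⟨nz0, ⟨v5_emax _ cp2 (norm_nonneg _) (by norm_num), v5_emax _ cm1 (norm_nonneg _) (by norm_num), v5_emax _ cm2 (norm_nonneg _) (by norm_num)⟩, ⟨?_, ?_, ?_⟩, hm⟩
  · exact v5_W hr0 dp2 cp2 Lp2 (norm_nonneg _) (norm_nonneg _) (norm_nonneg _) (by norm_num)
  · exact v5_W hr0 dm1 cm1 Lm1 (norm_nonneg _) (norm_nonneg _) (norm_nonneg _) (by norm_num)
  · exact v5_W hr0 dm2 cm2 Lm2 (norm_nonneg _) (norm_nonneg _) (norm_nonneg _) (by norm_num)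

private theorem B5Lw_B23 {κ t : ℝ} (h : DomR κ t) (hk1 : 1.33 ≤ κ) (hk2 : κ ≤ 1.36) (ht1 : 0.6199 ≤ t + κ) (ht2 : t + κ ≤ 0.6744) :
    (0.269 ≤ sy κ t ∧ sy κ t ≤ 0.291) ∧ (0.9506 ≤ sx κ t ∧ sx κ t ≤ 1.0039) ∧ κ * Real.exp (-sy κ t) ≤ 1.0393 ∧ 2.5703 ≤ sD κ t ∧ sD κ t ≤ 2.6181 := by
  have hy1 : 0.269 ≤ sy κ t := syR_ge h 1.33 1.36 0.6199 0.269 1.30865 1.30866 0.25884 0.26469 hk1 hk2 (by linarith) (by norm_num) (by norm_num)
    (expn_ge (by norm_num) (by norm_num)) (expn_le (by norm_num) (by norm_num) (by norm_num)) (by norm_num)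
    (by norm_num) (by norm_num) (by norm_num) (by norm_num) (by norm_num) (by norm_num)
  have hy2 : sy κ t ≤ 0.291 := syR_le h 1.33 1.36 0.6744 0.291 1.33776 0.2846 0.28624 0.29271 hk1 hk2 (by linarith) (by norm_num) (by norm_num)
    (expn_ge (by norm_num) (by norm_num)) (by norm_num) (by norm_num) (Or.inr ((mul_le_mul_of_nonneg_left (expn_le (E := 1.33777) (by norm_num) (by norm_num) (by norm_num)) (by norm_num)).trans (by norm_num))) (by norm_num) (by norm_num) (by norm_num)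
  have hy1' : 0.269 ≤ sy κ t := by linarith
  have hy2' : sy κ t ≤ 0.291 := by linarith
  have hx1 : 0.9506 ≤ sx κ t := sx_lo h 1.33 0.291 0.2911 0.74751 0.9506 hk1 (by norm_num) hy2' (abs_le.2 ⟨by linarith, by linarith⟩) (ex_lm 0.291 (by norm_num) (by norm_num) (by norm_num) (by norm_num) (by norm_num)) (by norm_num) (by norm_num)
  have hx2 : sx κ t ≤ 1.0039 := sx_hi h 1.36 0.269 0.269 0.76415 1.0039 hk2 hy1' (by norm_num) (le_trans (by linarith) (le_abs_self _)) (ex_um 0.269 (by norm_num) (by norm_num) (by norm_num) (by norm_num)) (by norm_num) (by norm_num)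
  refine ⟨⟨hy1', hy2'⟩, ⟨hx1, hx2⟩, v5_n h 1.36 0.269 0.76415 1.0393 hk2 hy1' (ex_um 0.269 (by norm_num) (by norm_num) (by norm_num) (by norm_num)) (by norm_num), ?_, ?_⟩
  · exact v5_Dlo h 1.33 0.269 0.291 0.284 0.75276 2.5703 (by norm_num) hk1 hy1' hy2' (ex_lm 0.284 (by norm_num) (by norm_num) (by norm_num) (by norm_num) (by norm_num)) (by norm_num) (by norm_num) (by norm_num) (by norm_num)
  · exact v5_Dup h 1.36 0.269 0.291 0.76415 0.74752 2.6181 hk2 hy1' hy2' (ex_um 0.269 (by norm_num) (by norm_num) (by norm_num) (by norm_num)) (ex_um 0.291 (by norm_num) (by norm_num) (by norm_num) (by norm_num)) (by norm_num) (by norm_num) (by norm_num)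

private theorem B5Lw_B24 {κ t : ℝ} (h : DomR κ t) (hk1 : 1.33 ≤ κ) (hk2 : κ ≤ 1.36) (ht1 : (-0.6368) ≤ t + κ) (ht2 : t + κ ≤ (-0.5822)) :
    ((-0.315) ≤ sy κ t ∧ sy κ t ≤ (-0.284)) ∧ (1.7384 ≤ sx κ t ∧ sx κ t ≤ 1.8418) ∧ κ * Real.exp (-sy κ t) ≤ 1.8636 ∧ 3.5536 ≤ sD κ t ∧ sD κ t ≤ 3.8429 := by
  have hy1 : -0.315 ≤ sy κ t := syL_ge h 1.33 1.36 0.6368 0.315 0.72978 0.72979 0.168 0.16902 0.17285 hk1 hk2 (by linarith) (by norm_num) (by norm_num) (by norm_num)
    (expm_ge (by norm_num) (by norm_num) (by norm_num) (by norm_num)) (expm_le (by norm_num) (by norm_num) (by norm_num)) (by norm_num)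
    (by norm_num) (by norm_num) (by norm_num) (by norm_num) (by norm_num) (by norm_num)
  have hy2 : sy κ t ≤ -0.284 := syL_le h 1.33 1.36 0.5822 0.284 0.75276 0.75277 0.15719 0.16075 hk1 hk2 (by linarith) (by norm_num) (by norm_num) (by norm_num)
    (expm_ge (by norm_num) (by norm_num) (by norm_num) (by norm_num)) (expm_le (by norm_num) (by norm_num) (by norm_num)) (by norm_num)
    (by norm_num) (by norm_num) (by norm_num) (by norm_num) (by norm_num) (by norm_num)
  have hy1' : (-0.315) ≤ sy κ t := by linarith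
  have hy2' : sy κ t ≤ (-0.284) := by linarith
  have hx1 : 1.7384 ≤ sx κ t := sx_lo h 1.33 (-0.284) 0.3151 1.32843 1.7384 hk1 (by norm_num) hy2' (abs_le.2 ⟨by linarith, by linarith⟩) (ex_lp 0.284 (by norm_num) (by norm_num) (by norm_num)) (by norm_num) (by norm_num)
  have hx2 : sx κ t ≤ 1.8418 := sx_hi h 1.36 (-0.315) 0.284 1.37026 1.8418 hk2 hy1' (by norm_num) (le_trans (by linarith) (neg_le_abs _)) (ex_up 0.315 (by norm_num) (by norm_num) (by norm_num) (by norm_num)) (by norm_num) (by norm_num)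
  refine ⟨⟨hy1', hy2'⟩, ⟨hx1, hx2⟩, v5_n h 1.36 (-0.315) 1.37026 1.8636 hk2 hy1' (ex_up 0.315 (by norm_num) (by norm_num) (by norm_num) (by norm_num)) (by norm_num), ?_, ?_⟩
  · exact v5_Dlo h 1.33 (-0.315) (-0.284) (-0.284) 1.32843 3.5536 (by norm_num) hk1 hy1' hy2' (ex_lp 0.284 (by norm_num) (by norm_num) (by norm_num)) (by norm_num) (by norm_num) (by norm_num) (by norm_num)
  · exact v5_Dup h 1.36 (-0.315) (-0.284) 1.37026 1.32844 3.8429 hk2 hy1' hy2' (ex_up 0.315 (by norm_num) (by norm_num) (by norm_num) (by norm_num)) (ex_up 0.284 (by norm_num) (by norm_num) (by norm_num) (by norm_num)) (by norm_num) (by norm_num) (by norm_num)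

private theorem B5Lw_T25_0_0 {β x y : ℝ} (hβ : 0 < β) (hN : β * 7.352 ≤ 1) (hx1 : 0.7505 ≤ x) (hx2 : x ≤ 0.866)
    (hy1 : -0 ≤ y) (hy2 : y ≤ 0.449) : ‖HH β (x + y * I) - 1‖ ≤ 0.11 := by
  refine le_epsJ (C := 0.8074) (N0 := 7.352) (J_boxp 0.7505 0.866 0 0.449 0.449 1.2385 0.9755 1.6881 0.9427 0.5184 2.7115 7.352 0.7877 2.904 1.427 1.087 0.6192 0.4566 1.2651 3.5738 0.6737 1.4933 1.1459 1.4456 0.01055 0.03488 0.00009134 0.0000003101 0.007084 0.00001714 0.0002196 0.00002425 0.8074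
    hβ hN hx1 hx2 hy1 hy2 (by norm_num) (by norm_num) (by linarith) (by norm_num) (by norm_num) (by norm_num) (by norm_num) (by norm_num) (by norm_num) (by norm_num) (by norm_num) (by norm_num) (by norm_num) (by norm_num) (by norm_num) (by norm_num) (by norm_num) (by norm_num) (by norm_num) (by norm_num) (by norm_num) (by norm_num) (by norm_num) (by norm_num)
    (cube_sqrt_geJ (s := 0.8587) (by norm_num) (by norm_num) (by norm_num) (by norm_num))
    (cube_sqrt_geJ (s := 0.9505) (by norm_num) (by norm_num) (by norm_num) (by norm_num))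
    (by norm_num) (by norm_num) (by norm_num) (by norm_num) (by norm_num) (by norm_num) (by norm_num) (by norm_num) (by norm_num) (by norm_num) (by norm_num) (by norm_num) (by norm_num) (by norm_num) (by norm_num) (by norm_num) (by norm_num) (by norm_num)
    (exp_neg_leJ (r := 0.552) 4 (by norm_num) (by norm_num) (by norm_num) (by norm_num))
    (exp_neg_leJ (r := 0.356) 3 (by norm_num) (by norm_num) (by norm_num) (by norm_num))
    (exp_neg_leJ (r := 0.301) 9 (by norm_num) (by norm_num) (by norm_num) (by norm_num))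
    (exp_neg_leJ (r := 0.99) 14 (by norm_num) (by norm_num) (by norm_num) (by norm_num))
    (exp_neg_leJ (r := 0.953) 4 (by norm_num) (by norm_num) (by norm_num) (by norm_num))
    (exp_neg_leJ (r := 0.978) 10 (by norm_num) (by norm_num) (by norm_num) (by norm_num))
    (exp_neg_leJ (r := 0.424) 8 (by norm_num) (by norm_num) (by norm_num) (by norm_num))
    (exp_neg_leJ (r := 0.628) 10 (by norm_num) (by norm_num) (by norm_num) (by norm_num))
    (by norm_num)) (by norm_num) hN hβ.le (by norm_num)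

private theorem B5Lw_T25_0_1 {β x y : ℝ} (hβ : 0 < β) (hN : β * 7.352 ≤ 1) (hx1 : 0.866 ≤ x) (hx2 : x ≤ 1.02)
    (hy1 : -0 ≤ y) (hy2 : y ≤ 0.449) : ‖HH β (x + y * I) - 1‖ ≤ 0.11 := by
  refine le_epsJ (C := 0.8085) (N0 := 7.352) (J_boxp 0.866 1.02 0 0.449 0.449 1.3198 1.1145 1.7721 0.878 0.5311 2.7115 7.352 0.8445 3.181 1.466 1.0278 0.6598 0.4741 1.3047 3.4888 0.7298 1.6532 1.3769 1.2988 0.007843 0.03066 0.0000683 0.0000003101 0.004678 0.000005268 0.00004019 0.00007137 0.8085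
    hβ hN hx1 hx2 hy1 hy2 (by norm_num) (by norm_num) (by linarith) (by norm_num) (by norm_num) (by norm_num) (by norm_num) (by norm_num) (by norm_num) (by norm_num) (by norm_num) (by norm_num) (by norm_num) (by norm_num) (by norm_num) (by norm_num) (by norm_num) (by norm_num) (by norm_num) (by norm_num) (by norm_num) (by norm_num) (by norm_num) (by norm_num)
    (cube_sqrt_geJ (s := 0.8476) (by norm_num) (by norm_num) (by norm_num) (by norm_num))
    (cube_sqrt_geJ (s := 0.9468) (by norm_num) (by norm_num) (by norm_num) (by norm_num))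
    (by norm_num) (by norm_num) (by norm_num) (by norm_num) (by norm_num) (by norm_num) (by norm_num) (by norm_num) (by norm_num) (by norm_num) (by norm_num) (by norm_num) (by norm_num) (by norm_num) (by norm_num) (by norm_num) (by norm_num) (by norm_num)
    (exp_neg_leJ (r := 0.85) 4 (by norm_num) (by norm_num) (by norm_num) (by norm_num))
    (exp_neg_leJ (r := 0.485) 3 (by norm_num) (by norm_num) (by norm_num) (by norm_num))
    (exp_neg_leJ (r := 0.592) 9 (by norm_num) (by norm_num) (by norm_num) (by norm_num))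
    (exp_neg_leJ (r := 0.99) 14 (by norm_num) (by norm_num) (by norm_num) (by norm_num))
    (exp_neg_leJ (r := 0.365) 5 (by norm_num) (by norm_num) (by norm_num) (by norm_num))
    (exp_neg_leJ (r := 0.154) 12 (by norm_num) (by norm_num) (by norm_num) (by norm_num))
    (exp_neg_leJ (r := 0.122) 10 (by norm_num) (by norm_num) (by norm_num) (by norm_num))
    (exp_neg_leJ (r := 0.548) 9 (by norm_num) (by norm_num) (by norm_num) (by norm_num))
    (by norm_num)) (by norm_num) hN hβ.le (by norm_num)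

private theorem B5Lw_T25_0_2 {β x y : ℝ} (hβ : 0 < β) (hN : β * 7.352 ≤ 1) (hx1 : 1.02 ≤ x) (hx2 : x ≤ 1.204)
    (hy1 : -0 ≤ y) (hy2 : y ≤ 0.449) : ‖HH β (x + y * I) - 1‖ ≤ 0.11 := by
  refine le_epsJ (C := 0.7958) (N0 := 7.352) (J_boxp 1.02 1.204 0 0.449 0.449 1.4282 1.285 1.884 0.8042 0.5476 2.7115 7.352 0.8998 3.484 1.505 0.957 0.714 0.4999 1.3574 3.386 0.8046 1.8665 1.6849 1.1433 0.005253 0.02537 0.00004652 0.0000003101 0.002706 0.0000011 0.000004173 0.0002238 0.7958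
    hβ hN hx1 hx2 hy1 hy2 (by norm_num) (by norm_num) (by linarith) (by norm_num) (by norm_num) (by norm_num) (by norm_num) (by norm_num) (by norm_num) (by norm_num) (by norm_num) (by norm_num) (by norm_num) (by norm_num) (by norm_num) (by norm_num) (by norm_num) (by norm_num) (by norm_num) (by norm_num) (by norm_num) (by norm_num) (by norm_num) (by norm_num)
    (cube_sqrt_geJ (s := 0.8366) (by norm_num) (by norm_num) (by norm_num) (by norm_num))
    (cube_sqrt_geJ (s := 0.9433) (by norm_num) (by norm_num) (by norm_num) (by norm_num))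
    (by norm_num) (by norm_num) (by norm_num) (by norm_num) (by norm_num) (by norm_num) (by norm_num) (by norm_num) (by norm_num) (by norm_num) (by norm_num) (by norm_num) (by norm_num) (by norm_num) (by norm_num) (by norm_num) (by norm_num) (by norm_num)
    (exp_neg_leJ (r := 0.249) 5 (by norm_num) (by norm_num) (by norm_num) (by norm_num))
    (exp_neg_leJ (r := 0.675) 3 (by norm_num) (by norm_num) (by norm_num) (by norm_num))
    (exp_neg_leJ (r := 0.979) 9 (by norm_num) (by norm_num) (by norm_num) (by norm_num))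
    (exp_neg_leJ (r := 0.99) 14 (by norm_num) (by norm_num) (by norm_num) (by norm_num))
    (exp_neg_leJ (r := 0.915) 5 (by norm_num) (by norm_num) (by norm_num) (by norm_num))
    (exp_neg_leJ (r := 0.722) 13 (by norm_num) (by norm_num) (by norm_num) (by norm_num))
    (exp_neg_leJ (r := 0.387) 12 (by norm_num) (by norm_num) (by norm_num) (by norm_num))
    (exp_neg_leJ (r := 0.405) 8 (by norm_num) (by norm_num) (by norm_num) (by norm_num))
    (by norm_num)) (by norm_num) hN hβ.le (by norm_num)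

private theorem B5Lw_T25_1_0 {β x y : ℝ} (hβ : 0 < β) (hN : β * 7.352 ≤ 1) (hx1 : 0.7505 ≤ x) (hx2 : x ≤ 0.836)
    (hy1 : -0 ≤ y) (hy2 : y ≤ 0.4911) : ‖HH β (x + y * I) - 1‖ ≤ 0.11 := by
  refine le_epsJ (C := 0.807) (N0 := 7.352) (J_boxp 0.7505 0.836 0 0.4911 0.4911 1.2385 0.9696 1.7095 0.9487 0.5217 2.7115 7.352 0.7829 2.883 1.423 1.0985 0.6192 0.4576 1.2651 3.5846 0.6694 1.489 0.9653 1.2633 0.01055 0.0346 0.00009134 0.0000003101 0.007311 0.00001767 0.0008285 0.00009263 0.807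
    hβ hN hx1 hx2 hy1 hy2 (by norm_num) (by norm_num) (by linarith) (by norm_num) (by norm_num) (by norm_num) (by norm_num) (by norm_num) (by norm_num) (by norm_num) (by norm_num) (by norm_num) (by norm_num) (by norm_num) (by norm_num) (by norm_num) (by norm_num) (by norm_num) (by norm_num) (by norm_num) (by norm_num) (by norm_num) (by norm_num) (by norm_num)
    (cube_sqrt_geJ (s := 0.8596) (by norm_num) (by norm_num) (by norm_num) (by norm_num))
    (cube_sqrt_geJ (s := 0.9508) (by norm_num) (by norm_num) (by norm_num) (by norm_num))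
    (by norm_num) (by norm_num) (by norm_num) (by norm_num) (by norm_num) (by norm_num) (by norm_num) (by norm_num) (by norm_num) (by norm_num) (by norm_num) (by norm_num) (by norm_num) (by norm_num) (by norm_num) (by norm_num) (by norm_num) (by norm_num)
    (exp_neg_leJ (r := 0.552) 4 (by norm_num) (by norm_num) (by norm_num) (by norm_num))
    (exp_neg_leJ (r := 0.364) 3 (by norm_num) (by norm_num) (by norm_num) (by norm_num))
    (exp_neg_leJ (r := 0.301) 9 (by norm_num) (by norm_num) (by norm_num) (by norm_num))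
    (exp_neg_leJ (r := 0.99) 14 (by norm_num) (by norm_num) (by norm_num) (by norm_num))
    (exp_neg_leJ (r := 0.921) 4 (by norm_num) (by norm_num) (by norm_num) (by norm_num))
    (exp_neg_leJ (r := 0.947) 10 (by norm_num) (by norm_num) (by norm_num) (by norm_num))
    (exp_neg_leJ (r := 0.096) 7 (by norm_num) (by norm_num) (by norm_num) (by norm_num))
    (exp_neg_leJ (r := 0.287) 9 (by norm_num) (by norm_num) (by norm_num) (by norm_num))
    (by norm_num)) (by norm_num) hN hβ.le (by norm_num)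

private theorem B5Lw_T25_1_1 {β x y : ℝ} (hβ : 0 < β) (hN : β * 7.352 ≤ 1) (hx1 : 0.836 ≤ x) (hx2 : x ≤ 0.955)
    (hy1 : -0 ≤ y) (hy2 : y ≤ 0.4911) : ‖HH β (x + y * I) - 1‖ ≤ 0.11 := by
  refine le_epsJ (C := 0.808) (N0 := 7.352) (J_boxp 0.836 0.955 0 0.4911 0.4911 1.2987 1.0739 1.7708 0.8992 0.5309 2.7115 7.352 0.827 3.093 1.454 1.0528 0.6493 0.4703 1.2944 3.5198 0.7109 1.6074 1.1363 1.1508 0.008466 0.03153 0.00007368 0.0000003101 0.005376 0.00000739 0.0002355 0.0002118 0.808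
    hβ hN hx1 hx2 hy1 hy2 (by norm_num) (by norm_num) (by linarith) (by norm_num) (by norm_num) (by norm_num) (by norm_num) (by norm_num) (by norm_num) (by norm_num) (by norm_num) (by norm_num) (by norm_num) (by norm_num) (by norm_num) (by norm_num) (by norm_num) (by norm_num) (by norm_num) (by norm_num) (by norm_num) (by norm_num) (by norm_num) (by norm_num)
    (cube_sqrt_geJ (s := 0.851) (by norm_num) (by norm_num) (by norm_num) (by norm_num))
    (cube_sqrt_geJ (s := 0.948) (by norm_num) (by norm_num) (by norm_num) (by norm_num))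
    (by norm_num) (by norm_num) (by norm_num) (by norm_num) (by norm_num) (by norm_num) (by norm_num) (by norm_num) (by norm_num) (by norm_num) (by norm_num) (by norm_num) (by norm_num) (by norm_num) (by norm_num) (by norm_num) (by norm_num) (by norm_num)
    (exp_neg_leJ (r := 0.773) 4 (by norm_num) (by norm_num) (by norm_num) (by norm_num))
    (exp_neg_leJ (r := 0.457) 3 (by norm_num) (by norm_num) (by norm_num) (by norm_num))
    (exp_neg_leJ (r := 0.516) 9 (by norm_num) (by norm_num) (by norm_num) (by norm_num))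
    (exp_neg_leJ (r := 0.99) 14 (by norm_num) (by norm_num) (by norm_num) (by norm_num))
    (exp_neg_leJ (r := 0.226) 5 (by norm_num) (by norm_num) (by norm_num) (by norm_num))
    (exp_neg_leJ (r := 0.817) 11 (by norm_num) (by norm_num) (by norm_num) (by norm_num))
    (exp_neg_leJ (r := 0.354) 8 (by norm_num) (by norm_num) (by norm_num) (by norm_num))
    (exp_neg_leJ (r := 0.46) 8 (by norm_num) (by norm_num) (by norm_num) (by norm_num))
    (by norm_num)) (by norm_num) hN hβ.le (by norm_num)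

private theorem B5Lw_T25_1_2 {β x y : ℝ} (hβ : 0 < β) (hN : β * 7.352 ≤ 1) (hx1 : 0.955 ≤ x) (hx2 : x ≤ 1.11)
    (hy1 : -0 ≤ y) (hy2 : y ≤ 0.4911) : ‖HH β (x + y * I) - 1‖ ≤ 0.11 := by
  refine le_epsJ (C := 0.8082) (N0 := 7.352) (J_boxp 0.955 1.11 0 0.4911 0.4911 1.3825 1.2138 1.8589 0.8388 0.544 2.7115 7.352 0.878 3.36 1.489 0.9931 0.6912 0.4889 1.3351 3.4342 0.7687 1.7722 1.3743 1.0085 0.006214 0.0275 0.00005472 0.0000003101 0.003517 0.000002196 0.00004096 0.0006029 0.8082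
    hβ hN hx1 hx2 hy1 hy2 (by norm_num) (by norm_num) (by linarith) (by norm_num) (by norm_num) (by norm_num) (by norm_num) (by norm_num) (by norm_num) (by norm_num) (by norm_num) (by norm_num) (by norm_num) (by norm_num) (by norm_num) (by norm_num) (by norm_num) (by norm_num) (by norm_num) (by norm_num) (by norm_num) (by norm_num) (by norm_num) (by norm_num)
    (cube_sqrt_geJ (s := 0.841) (by norm_num) (by norm_num) (by norm_num) (by norm_num))
    (cube_sqrt_geJ (s := 0.9447) (by norm_num) (by norm_num) (by norm_num) (by norm_num))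
    (by norm_num) (by norm_num) (by norm_num) (by norm_num) (by norm_num) (by norm_num) (by norm_num) (by norm_num) (by norm_num) (by norm_num) (by norm_num) (by norm_num) (by norm_num) (by norm_num) (by norm_num) (by norm_num) (by norm_num) (by norm_num)
    (exp_neg_leJ (r := 0.081) 5 (by norm_num) (by norm_num) (by norm_num) (by norm_num))
    (exp_neg_leJ (r := 0.594) 3 (by norm_num) (by norm_num) (by norm_num) (by norm_num))
    (exp_neg_leJ (r := 0.815) 9 (by norm_num) (by norm_num) (by norm_num) (by norm_num))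
    (exp_neg_leJ (r := 0.99) 14 (by norm_num) (by norm_num) (by norm_num) (by norm_num))
    (exp_neg_leJ (r := 0.651) 5 (by norm_num) (by norm_num) (by norm_num) (by norm_num))
    (exp_neg_leJ (r := 0.029) 13 (by norm_num) (by norm_num) (by norm_num) (by norm_num))
    (exp_neg_leJ (r := 0.103) 10 (by norm_num) (by norm_num) (by norm_num) (by norm_num))
    (exp_neg_leJ (r := 0.414) 7 (by norm_num) (by norm_num) (by norm_num) (by norm_num))
    (by norm_num)) (by norm_num) hN hβ.le (by norm_num)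

private theorem B5Lw_T25_1_3 {β x y : ℝ} (hβ : 0 < β) (hN : β * 7.352 ≤ 1) (hx1 : 1.11 ≤ x) (hx2 : x ≤ 1.204)
    (hy1 : -0 ≤ y) (hy2 : y ≤ 0.4911) : ‖HH β (x + y * I) - 1‖ ≤ 0.11 := by
  refine le_epsJ (C := 0.6798) (N0 := 7.352) (J_boxp 1.11 1.204 0 0.4911 0.4911 1.4916 1.3004 1.9166 0.76 0.5524 2.7115 7.352 0.8719 3.327 1.485 0.957 0.7457 0.529 1.3882 3.3819 0.844 1.9868 1.6843 1.0831 0.004162 0.02052 0.00003695 0.0000003101 0.00202 0.0000004539 0.000004194 0.0003496 0.6798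
    hβ hN hx1 hx2 hy1 hy2 (by norm_num) (by norm_num) (by linarith) (by norm_num) (by norm_num) (by norm_num) (by norm_num) (by norm_num) (by norm_num) (by norm_num) (by norm_num) (by norm_num) (by norm_num) (by norm_num) (by norm_num) (by norm_num) (by norm_num) (by norm_num) (by norm_num) (by norm_num) (by norm_num) (by norm_num) (by norm_num) (by norm_num)
    (cube_sqrt_geJ (s := 0.8422) (by norm_num) (by norm_num) (by norm_num) (by norm_num))
    (cube_sqrt_geJ (s := 0.9451) (by norm_num) (by norm_num) (by norm_num) (by norm_num))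
    (by norm_num) (by norm_num) (by norm_num) (by norm_num) (by norm_num) (by norm_num) (by norm_num) (by norm_num) (by norm_num) (by norm_num) (by norm_num) (by norm_num) (by norm_num) (by norm_num) (by norm_num) (by norm_num) (by norm_num) (by norm_num)
    (exp_neg_leJ (r := 0.482) 5 (by norm_num) (by norm_num) (by norm_num) (by norm_num))
    (exp_neg_leJ (r := 0.889) 3 (by norm_num) (by norm_num) (by norm_num) (by norm_num))
    (exp_neg_leJ (r := 0.206) 10 (by norm_num) (by norm_num) (by norm_num) (by norm_num))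
    (exp_neg_leJ (r := 0.99) 14 (by norm_num) (by norm_num) (by norm_num) (by norm_num))
    (exp_neg_leJ (r := 0.205) 6 (by norm_num) (by norm_num) (by norm_num) (by norm_num))
    (exp_neg_leJ (r := 0.606) 14 (by norm_num) (by norm_num) (by norm_num) (by norm_num))
    (exp_neg_leJ (r := 0.382) 12 (by norm_num) (by norm_num) (by norm_num) (by norm_num))
    (exp_neg_leJ (r := 0.962) 7 (by norm_num) (by norm_num) (by norm_num) (by norm_num))
    (by norm_num)) (by norm_num) hN hβ.le (by norm_num)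

private theorem B5Lw_T25 {β x y : ℝ} (hβ : 0 < β) (hN : β * 7.352 ≤ 1) (hx1 : 0.7505 ≤ x) (hx2 : x ≤ 1.204)
    (hy1 : 0.0689 ≤ y) (hy2 : y ≤ 0.4911) : ‖HH β (x + y * I) - 1‖ ≤ 0.11 := by
  rcases le_total y 0.449 with hyy | hyy
  · rcases le_total x 0.866 with hxx | hxx
    · exact B5Lw_T25_0_0 hβ hN (by linarith) (by linarith) (by linarith) (by linarith)
    rcases le_total x 1.02 with hxx | hxx
    · exact B5Lw_T25_0_1 hβ hN (by linarith) (by linarith) (by linarith) (by linarith)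
    exact B5Lw_T25_0_2 hβ hN (by linarith) (by linarith) (by linarith) (by linarith)
  rcases le_total x 0.836 with hxx | hxx
  · exact B5Lw_T25_1_0 hβ hN (by linarith) (by linarith) (by linarith) (by linarith)
  rcases le_total x 0.955 with hxx | hxx
  · exact B5Lw_T25_1_1 hβ hN (by linarith) (by linarith) (by linarith) (by linarith)
  rcases le_total x 1.11 with hxx | hxx
  · exact B5Lw_T25_1_2 hβ hN (by linarith) (by linarith) (by linarith) (by linarith)
  exact B5Lw_T25_1_3 hβ hN (by linarith) (by linarith) (by linarith) (by linarith)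

private theorem B5Lw_T26_0_0 {β x y : ℝ} (hβ : 0 < β) (hN : β * 7.352 ≤ 1) (hx1 : 1.5883 ≤ x) (hx2 : x ≤ 1.601)
    (hy1 : -0.4651 ≤ y) (hy2 : y ≤ -0.167) : ‖HH β (x + y * I) - 1‖ ≤ 0.165 := by
  refine le_epsJ (C := 1.2121) (N0 := 7.352) (J_boxp 1.5883 1.601 0.4651 0 (-0.167) 1.4981 1.6672 1.8048 0.7327 0.536 2.7115 7.352 1.1129 5.066 1.67 0.375 0.749 0.4711 0.8178 1.7008 0.8724 2.6991 3.483 3.3567 0.004064 0.03134 0.00245 0.000003713 0.001641 0.0000003101 0.0000003101 0.0000003101 1.2121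
    hβ hN hx1 hx2 hy1 hy2 (by norm_num) (by norm_num) (by linarith) (by norm_num) (by norm_num) (by norm_num) (by norm_num) (by norm_num) (by norm_num) (by norm_num) (by norm_num) (by norm_num) (by norm_num) (by norm_num) (by norm_num) (by norm_num) (by norm_num) (by norm_num) (by norm_num) (by norm_num) (by norm_num) (by norm_num) (by norm_num) (by norm_num)
    (cube_sqrt_geJ (s := 0.7931) (by norm_num) (by norm_num) (by norm_num) (by norm_num))
    (cube_sqrt_geJ (s := 0.9293) (by norm_num) (by norm_num) (by norm_num) (by norm_num))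
    (by norm_num) (by norm_num) (by norm_num) (by norm_num) (by norm_num) (by norm_num) (by norm_num) (by norm_num) (by norm_num) (by norm_num) (by norm_num) (by norm_num) (by norm_num) (by norm_num) (by norm_num) (by norm_num) (by norm_num) (by norm_num)
    (exp_neg_leJ (r := 0.506) 5 (by norm_num) (by norm_num) (by norm_num) (by norm_num))
    (exp_neg_leJ (r := 0.463) 3 (by norm_num) (by norm_num) (by norm_num) (by norm_num))
    (exp_neg_leJ (r := 0.012) 6 (by norm_num) (by norm_num) (by norm_num) (by norm_num))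
    (exp_neg_leJ (r := 0.504) 12 (by norm_num) (by norm_num) (by norm_num) (by norm_num))
    (exp_neg_leJ (r := 0.413) 6 (by norm_num) (by norm_num) (by norm_num) (by norm_num))
    (exp_neg_leJ (r := 0.99) 14 (by norm_num) (by norm_num) (by norm_num) (by norm_num))
    (exp_neg_leJ (r := 0.99) 14 (by norm_num) (by norm_num) (by norm_num) (by norm_num))
    (exp_neg_leJ (r := 0.99) 14 (by norm_num) (by norm_num) (by norm_num) (by norm_num))
    (by norm_num)) (by norm_num) hN hβ.le (by norm_num)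

private theorem B5Lw_T26_0_1 {β x y : ℝ} (hβ : 0 < β) (hN : β * 7.352 ≤ 1) (hx1 : 1.601 ≤ x) (hx2 : x ≤ 1.616)
    (hy1 : -0.4651 ≤ y) (hy2 : y ≤ -0.167) : ‖HH β (x + y * I) - 1‖ ≤ 0.165 := by
  refine le_epsJ (C := 1.2114) (N0 := 7.352) (J_boxp 1.601 1.616 0.4651 0 (-0.167) 1.5071 1.6816 1.8181 0.7288 0.538 2.7115 7.352 1.1158 5.094 1.673 0.3692 0.7535 0.4732 0.8221 1.6923 0.8785 2.7167 3.5084 3.343 0.003932 0.03088 0.002373 0.000003954 0.001569 0.0000003101 0.0000003101 0.0000003101 1.2114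
    hβ hN hx1 hx2 hy1 hy2 (by norm_num) (by norm_num) (by linarith) (by norm_num) (by norm_num) (by norm_num) (by norm_num) (by norm_num) (by norm_num) (by norm_num) (by norm_num) (by norm_num) (by norm_num) (by norm_num) (by norm_num) (by norm_num) (by norm_num) (by norm_num) (by norm_num) (by norm_num) (by norm_num) (by norm_num) (by norm_num) (by norm_num)
    (cube_sqrt_geJ (s := 0.7925) (by norm_num) (by norm_num) (by norm_num) (by norm_num))
    (cube_sqrt_geJ (s := 0.9291) (by norm_num) (by norm_num) (by norm_num) (by norm_num))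
    (by norm_num) (by norm_num) (by norm_num) (by norm_num) (by norm_num) (by norm_num) (by norm_num) (by norm_num) (by norm_num) (by norm_num) (by norm_num) (by norm_num) (by norm_num) (by norm_num) (by norm_num) (by norm_num) (by norm_num) (by norm_num)
    (exp_neg_leJ (r := 0.539) 5 (by norm_num) (by norm_num) (by norm_num) (by norm_num))
    (exp_neg_leJ (r := 0.478) 3 (by norm_num) (by norm_num) (by norm_num) (by norm_num))
    (exp_neg_leJ (r := 0.044) 6 (by norm_num) (by norm_num) (by norm_num) (by norm_num))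
    (exp_neg_leJ (r := 0.441) 12 (by norm_num) (by norm_num) (by norm_num) (by norm_num))
    (exp_neg_leJ (r := 0.458) 6 (by norm_num) (by norm_num) (by norm_num) (by norm_num))
    (exp_neg_leJ (r := 0.99) 14 (by norm_num) (by norm_num) (by norm_num) (by norm_num))
    (exp_neg_leJ (r := 0.99) 14 (by norm_num) (by norm_num) (by norm_num) (by norm_num))
    (exp_neg_leJ (r := 0.99) 14 (by norm_num) (by norm_num) (by norm_num) (by norm_num))
    (by norm_num)) (by norm_num) hN hβ.le (by norm_num)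

private theorem B5Lw_T26_0_2 {β x y : ℝ} (hβ : 0 < β) (hN : β * 7.352 ≤ 1) (hx1 : 1.616 ≤ x) (hx2 : x ≤ 1.634)
    (hy1 : -0.4651 ≤ y) (hy2 : y ≤ -0.167) : ‖HH β (x + y * I) - 1‖ ≤ 0.165 := by
  refine le_epsJ (C := 1.2113) (N0 := 7.352) (J_boxp 1.616 1.634 0.4651 0 (-0.167) 1.5177 1.699 1.8341 0.7244 0.5403 2.7115 7.352 1.1195 5.129 1.676 0.3623 0.7588 0.4756 0.8273 1.682 0.8858 2.7375 3.5384 3.3257 0.003782 0.03033 0.002284 0.000004262 0.001486 0.0000003101 0.0000003101 0.0000003101 1.2113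
    hβ hN hx1 hx2 hy1 hy2 (by norm_num) (by norm_num) (by linarith) (by norm_num) (by norm_num) (by norm_num) (by norm_num) (by norm_num) (by norm_num) (by norm_num) (by norm_num) (by norm_num) (by norm_num) (by norm_num) (by norm_num) (by norm_num) (by norm_num) (by norm_num) (by norm_num) (by norm_num) (by norm_num) (by norm_num) (by norm_num) (by norm_num)
    (cube_sqrt_geJ (s := 0.7917) (by norm_num) (by norm_num) (by norm_num) (by norm_num))
    (cube_sqrt_geJ (s := 0.9289) (by norm_num) (by norm_num) (by norm_num) (by norm_num))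
    (by norm_num) (by norm_num) (by norm_num) (by norm_num) (by norm_num) (by norm_num) (by norm_num) (by norm_num) (by norm_num) (by norm_num) (by norm_num) (by norm_num) (by norm_num) (by norm_num) (by norm_num) (by norm_num) (by norm_num) (by norm_num)
    (exp_neg_leJ (r := 0.578) 5 (by norm_num) (by norm_num) (by norm_num) (by norm_num))
    (exp_neg_leJ (r := 0.496) 3 (by norm_num) (by norm_num) (by norm_num) (by norm_num))
    (exp_neg_leJ (r := 0.082) 6 (by norm_num) (by norm_num) (by norm_num) (by norm_num))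
    (exp_neg_leJ (r := 0.366) 12 (by norm_num) (by norm_num) (by norm_num) (by norm_num))
    (exp_neg_leJ (r := 0.512) 6 (by norm_num) (by norm_num) (by norm_num) (by norm_num))
    (exp_neg_leJ (r := 0.99) 14 (by norm_num) (by norm_num) (by norm_num) (by norm_num))
    (exp_neg_leJ (r := 0.99) 14 (by norm_num) (by norm_num) (by norm_num) (by norm_num))
    (exp_neg_leJ (r := 0.99) 14 (by norm_num) (by norm_num) (by norm_num) (by norm_num))
    (by norm_num)) (by norm_num) hN hβ.le (by norm_num)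

private theorem B5Lw_T26_0_3 {β x y : ℝ} (hβ : 0 < β) (hN : β * 7.352 ≤ 1) (hx1 : 1.634 ≤ x) (hx2 : x ≤ 1.656)
    (hy1 : -0.4651 ≤ y) (hy2 : y ≤ -0.167) : ‖HH β (x + y * I) - 1‖ ≤ 0.165 := by
  refine le_epsJ (C := 1.2121) (N0 := 7.352) (J_boxp 1.634 1.656 0.4651 0 (-0.167) 1.5303 1.7201 1.8538 0.7193 0.5432 2.7115 7.352 1.1241 5.173 1.68 0.3538 0.7651 0.4784 0.8334 1.6696 0.8946 2.7624 3.5744 3.3043 0.003609 0.0297 0.002184 0.000004672 0.001393 0.0000003101 0.0000003101 0.0000003101 1.2121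
    hβ hN hx1 hx2 hy1 hy2 (by norm_num) (by norm_num) (by linarith) (by norm_num) (by norm_num) (by norm_num) (by norm_num) (by norm_num) (by norm_num) (by norm_num) (by norm_num) (by norm_num) (by norm_num) (by norm_num) (by norm_num) (by norm_num) (by norm_num) (by norm_num) (by norm_num) (by norm_num) (by norm_num) (by norm_num) (by norm_num) (by norm_num)
    (cube_sqrt_geJ (s := 0.7907) (by norm_num) (by norm_num) (by norm_num) (by norm_num))
    (cube_sqrt_geJ (s := 0.9286) (by norm_num) (by norm_num) (by norm_num) (by norm_num))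
    (by norm_num) (by norm_num) (by norm_num) (by norm_num) (by norm_num) (by norm_num) (by norm_num) (by norm_num) (by norm_num) (by norm_num) (by norm_num) (by norm_num) (by norm_num) (by norm_num) (by norm_num) (by norm_num) (by norm_num) (by norm_num)
    (exp_neg_leJ (r := 0.625) 5 (by norm_num) (by norm_num) (by norm_num) (by norm_num))
    (exp_neg_leJ (r := 0.517) 3 (by norm_num) (by norm_num) (by norm_num) (by norm_num))
    (exp_neg_leJ (r := 0.127) 6 (by norm_num) (by norm_num) (by norm_num) (by norm_num))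
    (exp_neg_leJ (r := 0.274) 12 (by norm_num) (by norm_num) (by norm_num) (by norm_num))
    (exp_neg_leJ (r := 0.577) 6 (by norm_num) (by norm_num) (by norm_num) (by norm_num))
    (exp_neg_leJ (r := 0.99) 14 (by norm_num) (by norm_num) (by norm_num) (by norm_num))
    (exp_neg_leJ (r := 0.99) 14 (by norm_num) (by norm_num) (by norm_num) (by norm_num))
    (exp_neg_leJ (r := 0.99) 14 (by norm_num) (by norm_num) (by norm_num) (by norm_num))
    (by norm_num)) (by norm_num) hN hβ.le (by norm_num)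

private theorem B5Lw_T26_0_4 {β x y : ℝ} (hβ : 0 < β) (hN : β * 7.352 ≤ 1) (hx1 : 1.656 ≤ x) (hx2 : x ≤ 1.682)
    (hy1 : -0.4651 ≤ y) (hy2 : y ≤ -0.167) : ‖HH β (x + y * I) - 1‖ ≤ 0.165 := by
  refine le_epsJ (C := 1.211) (N0 := 7.352) (J_boxp 1.656 1.682 0.4651 0 (-0.167) 1.5458 1.7452 1.877 0.7129 0.5466 2.7115 7.352 1.129 5.221 1.684 0.3438 0.7728 0.482 0.841 1.6548 0.9052 2.7929 3.6184 3.2801 0.003413 0.02894 0.002065 0.000005205 0.001289 0.0000003101 0.0000003101 0.0000003101 1.211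
    hβ hN hx1 hx2 hy1 hy2 (by norm_num) (by norm_num) (by linarith) (by norm_num) (by norm_num) (by norm_num) (by norm_num) (by norm_num) (by norm_num) (by norm_num) (by norm_num) (by norm_num) (by norm_num) (by norm_num) (by norm_num) (by norm_num) (by norm_num) (by norm_num) (by norm_num) (by norm_num) (by norm_num) (by norm_num) (by norm_num) (by norm_num)
    (cube_sqrt_geJ (s := 0.7897) (by norm_num) (by norm_num) (by norm_num) (by norm_num))
    (cube_sqrt_geJ (s := 0.9283) (by norm_num) (by norm_num) (by norm_num) (by norm_num))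
    (by norm_num) (by norm_num) (by norm_num) (by norm_num) (by norm_num) (by norm_num) (by norm_num) (by norm_num) (by norm_num) (by norm_num) (by norm_num) (by norm_num) (by norm_num) (by norm_num) (by norm_num) (by norm_num) (by norm_num) (by norm_num)
    (exp_neg_leJ (r := 0.681) 5 (by norm_num) (by norm_num) (by norm_num) (by norm_num))
    (exp_neg_leJ (r := 0.543) 3 (by norm_num) (by norm_num) (by norm_num) (by norm_num))
    (exp_neg_leJ (r := 0.183) 6 (by norm_num) (by norm_num) (by norm_num) (by norm_num))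
    (exp_neg_leJ (r := 0.166) 12 (by norm_num) (by norm_num) (by norm_num) (by norm_num))
    (exp_neg_leJ (r := 0.655) 6 (by norm_num) (by norm_num) (by norm_num) (by norm_num))
    (exp_neg_leJ (r := 0.99) 14 (by norm_num) (by norm_num) (by norm_num) (by norm_num))
    (exp_neg_leJ (r := 0.99) 14 (by norm_num) (by norm_num) (by norm_num) (by norm_num))
    (exp_neg_leJ (r := 0.99) 14 (by norm_num) (by norm_num) (by norm_num) (by norm_num))
    (by norm_num)) (by norm_num) hN hβ.le (by norm_num)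

private theorem B5Lw_T26_0_5 {β x y : ℝ} (hβ : 0 < β) (hN : β * 7.352 ≤ 1) (hx1 : 1.682 ≤ x) (hx2 : x ≤ 1.714)
    (hy1 : -0.4651 ≤ y) (hy2 : y ≤ -0.167) : ‖HH β (x + y * I) - 1‖ ≤ 0.165 := by
  refine le_epsJ (C := 1.2125) (N0 := 7.352) (J_boxp 1.682 1.714 0.4651 0 (-0.167) 1.5641 1.776 1.9057 0.7058 0.5508 2.7115 7.352 1.1355 5.285 1.689 0.3315 0.782 0.486 0.8499 1.6366 0.9179 2.8289 3.6704 3.2483 0.00319 0.02809 0.001935 0.000005951 0.001175 0.0000003101 0.0000003101 0.0000003101 1.2125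
    hβ hN hx1 hx2 hy1 hy2 (by norm_num) (by norm_num) (by linarith) (by norm_num) (by norm_num) (by norm_num) (by norm_num) (by norm_num) (by norm_num) (by norm_num) (by norm_num) (by norm_num) (by norm_num) (by norm_num) (by norm_num) (by norm_num) (by norm_num) (by norm_num) (by norm_num) (by norm_num) (by norm_num) (by norm_num) (by norm_num) (by norm_num)
    (cube_sqrt_geJ (s := 0.7883) (by norm_num) (by norm_num) (by norm_num) (by norm_num))
    (cube_sqrt_geJ (s := 0.9278) (by norm_num) (by norm_num) (by norm_num) (by norm_num))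
    (by norm_num) (by norm_num) (by norm_num) (by norm_num) (by norm_num) (by norm_num) (by norm_num) (by norm_num) (by norm_num) (by norm_num) (by norm_num) (by norm_num) (by norm_num) (by norm_num) (by norm_num) (by norm_num) (by norm_num) (by norm_num)
    (exp_neg_leJ (r := 0.749) 5 (by norm_num) (by norm_num) (by norm_num) (by norm_num))
    (exp_neg_leJ (r := 0.573) 3 (by norm_num) (by norm_num) (by norm_num) (by norm_num))
    (exp_neg_leJ (r := 0.248) 6 (by norm_num) (by norm_num) (by norm_num) (by norm_num))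
    (exp_neg_leJ (r := 0.032) 12 (by norm_num) (by norm_num) (by norm_num) (by norm_num))
    (exp_neg_leJ (r := 0.748) 6 (by norm_num) (by norm_num) (by norm_num) (by norm_num))
    (exp_neg_leJ (r := 0.99) 14 (by norm_num) (by norm_num) (by norm_num) (by norm_num))
    (exp_neg_leJ (r := 0.99) 14 (by norm_num) (by norm_num) (by norm_num) (by norm_num))
    (exp_neg_leJ (r := 0.99) 14 (by norm_num) (by norm_num) (by norm_num) (by norm_num))
    (by norm_num)) (by norm_num) hN hβ.le (by norm_num)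

private theorem B5Lw_T26_0_6 {β x y : ℝ} (hβ : 0 < β) (hN : β * 7.352 ≤ 1) (hx1 : 1.714 ≤ x) (hx2 : x ≤ 1.752)
    (hy1 : -0.4651 ≤ y) (hy2 : y ≤ -0.167) : ‖HH β (x + y * I) - 1‖ ≤ 0.165 := by
  refine le_epsJ (C := 1.2113) (N0 := 7.352) (J_boxp 1.714 1.752 0.4651 0 (-0.167) 1.5867 1.8127 1.94 0.6969 0.5557 2.7115 7.352 1.1425 5.355 1.695 0.3169 0.7933 0.4912 0.8608 1.615 0.9334 2.8732 3.7344 3.2126 0.002938 0.02704 0.001786 0.000006991 0.001049 0.0000003101 0.0000003101 0.0000003101 1.2113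
    hβ hN hx1 hx2 hy1 hy2 (by norm_num) (by norm_num) (by linarith) (by norm_num) (by norm_num) (by norm_num) (by norm_num) (by norm_num) (by norm_num) (by norm_num) (by norm_num) (by norm_num) (by norm_num) (by norm_num) (by norm_num) (by norm_num) (by norm_num) (by norm_num) (by norm_num) (by norm_num) (by norm_num) (by norm_num) (by norm_num) (by norm_num)
    (cube_sqrt_geJ (s := 0.7868) (by norm_num) (by norm_num) (by norm_num) (by norm_num))
    (cube_sqrt_geJ (s := 0.9274) (by norm_num) (by norm_num) (by norm_num) (by norm_num))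
    (by norm_num) (by norm_num) (by norm_num) (by norm_num) (by norm_num) (by norm_num) (by norm_num) (by norm_num) (by norm_num) (by norm_num) (by norm_num) (by norm_num) (by norm_num) (by norm_num) (by norm_num) (by norm_num) (by norm_num) (by norm_num)
    (exp_neg_leJ (r := 0.832) 5 (by norm_num) (by norm_num) (by norm_num) (by norm_num))
    (exp_neg_leJ (r := 0.611) 3 (by norm_num) (by norm_num) (by norm_num) (by norm_num))
    (exp_neg_leJ (r := 0.328) 6 (by norm_num) (by norm_num) (by norm_num) (by norm_num))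
    (exp_neg_leJ (r := 0.873) 11 (by norm_num) (by norm_num) (by norm_num) (by norm_num))
    (exp_neg_leJ (r := 0.862) 6 (by norm_num) (by norm_num) (by norm_num) (by norm_num))
    (exp_neg_leJ (r := 0.99) 14 (by norm_num) (by norm_num) (by norm_num) (by norm_num))
    (exp_neg_leJ (r := 0.99) 14 (by norm_num) (by norm_num) (by norm_num) (by norm_num))
    (exp_neg_leJ (r := 0.99) 14 (by norm_num) (by norm_num) (by norm_num) (by norm_num))
    (by norm_num)) (by norm_num) hN hβ.le (by norm_num)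

private theorem B5Lw_T26_0_7 {β x y : ℝ} (hβ : 0 < β) (hN : β * 7.352 ≤ 1) (hx1 : 1.752 ≤ x) (hx2 : x ≤ 1.798)
    (hy1 : -0.4651 ≤ y) (hy2 : y ≤ -0.167) : ‖HH β (x + y * I) - 1‖ ≤ 0.165 := by
  refine le_epsJ (C := 1.2129) (N0 := 7.352) (J_boxp 1.752 1.798 0.4651 0 (-0.167) 1.6134 1.8572 1.9816 0.687 0.5616 2.7115 7.352 1.1512 5.443 1.703 0.2992 0.8066 0.4971 0.8738 1.5888 0.9519 2.9258 3.8104 3.1676 0.002666 0.02591 0.001623 0.000008468 0.0009243 0.0000003101 0.0000003101 0.0000003101 1.2129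
    hβ hN hx1 hx2 hy1 hy2 (by norm_num) (by norm_num) (by linarith) (by norm_num) (by norm_num) (by norm_num) (by norm_num) (by norm_num) (by norm_num) (by norm_num) (by norm_num) (by norm_num) (by norm_num) (by norm_num) (by norm_num) (by norm_num) (by norm_num) (by norm_num) (by norm_num) (by norm_num) (by norm_num) (by norm_num) (by norm_num) (by norm_num)
    (cube_sqrt_geJ (s := 0.785) (by norm_num) (by norm_num) (by norm_num) (by norm_num))
    (cube_sqrt_geJ (s := 0.9268) (by norm_num) (by norm_num) (by norm_num) (by norm_num))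
    (by norm_num) (by norm_num) (by norm_num) (by norm_num) (by norm_num) (by norm_num) (by norm_num) (by norm_num) (by norm_num) (by norm_num) (by norm_num) (by norm_num) (by norm_num) (by norm_num) (by norm_num) (by norm_num) (by norm_num) (by norm_num)
    (exp_neg_leJ (r := 0.93) 5 (by norm_num) (by norm_num) (by norm_num) (by norm_num))
    (exp_neg_leJ (r := 0.654) 3 (by norm_num) (by norm_num) (by norm_num) (by norm_num))
    (exp_neg_leJ (r := 0.424) 6 (by norm_num) (by norm_num) (by norm_num) (by norm_num))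
    (exp_neg_leJ (r := 0.68) 11 (by norm_num) (by norm_num) (by norm_num) (by norm_num))
    (exp_neg_leJ (r := 0.99) 6 (by norm_num) (by norm_num) (by norm_num) (by norm_num))
    (exp_neg_leJ (r := 0.99) 14 (by norm_num) (by norm_num) (by norm_num) (by norm_num))
    (exp_neg_leJ (r := 0.99) 14 (by norm_num) (by norm_num) (by norm_num) (by norm_num))
    (exp_neg_leJ (r := 0.99) 14 (by norm_num) (by norm_num) (by norm_num) (by norm_num))
    (by norm_num)) (by norm_num) hN hβ.le (by norm_num)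

private theorem B5Lw_T26_0_8 {β x y : ℝ} (hβ : 0 < β) (hN : β * 7.352 ≤ 1) (hx1 : 1.798 ≤ x) (hx2 : x ≤ 1.853)
    (hy1 : -0.4651 ≤ y) (hy2 : y ≤ -0.167) : ‖HH β (x + y * I) - 1‖ ≤ 0.165 := by
  refine le_epsJ (C := 1.2123) (N0 := 7.352) (J_boxp 1.798 1.853 0.4651 0 (-0.167) 1.6458 1.9105 2.0317 0.6751 0.5687 2.7115 7.352 1.1609 5.545 1.711 0.2781 0.8228 0.5044 0.8896 1.5574 0.9742 2.9895 3.9024 3.1147 0.002361 0.02455 0.001445 0.00001066 0.0007756 0.0000003101 0.0000003101 0.0000003101 1.2123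
    hβ hN hx1 hx2 hy1 hy2 (by norm_num) (by norm_num) (by linarith) (by norm_num) (by norm_num) (by norm_num) (by norm_num) (by norm_num) (by norm_num) (by norm_num) (by norm_num) (by norm_num) (by norm_num) (by norm_num) (by norm_num) (by norm_num) (by norm_num) (by norm_num) (by norm_num) (by norm_num) (by norm_num) (by norm_num) (by norm_num) (by norm_num)
    (cube_sqrt_geJ (s := 0.7829) (by norm_num) (by norm_num) (by norm_num) (by norm_num))
    (cube_sqrt_geJ (s := 0.9262) (by norm_num) (by norm_num) (by norm_num) (by norm_num))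
    (by norm_num) (by norm_num) (by norm_num) (by norm_num) (by norm_num) (by norm_num) (by norm_num) (by norm_num) (by norm_num) (by norm_num) (by norm_num) (by norm_num) (by norm_num) (by norm_num) (by norm_num) (by norm_num) (by norm_num) (by norm_num)
    (exp_neg_leJ (r := 0.049) 6 (by norm_num) (by norm_num) (by norm_num) (by norm_num))
    (exp_neg_leJ (r := 0.708) 3 (by norm_num) (by norm_num) (by norm_num) (by norm_num))
    (exp_neg_leJ (r := 0.54) 6 (by norm_num) (by norm_num) (by norm_num) (by norm_num))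
    (exp_neg_leJ (r := 0.45) 11 (by norm_num) (by norm_num) (by norm_num) (by norm_num))
    (exp_neg_leJ (r := 0.162) 7 (by norm_num) (by norm_num) (by norm_num) (by norm_num))
    (exp_neg_leJ (r := 0.99) 14 (by norm_num) (by norm_num) (by norm_num) (by norm_num))
    (exp_neg_leJ (r := 0.99) 14 (by norm_num) (by norm_num) (by norm_num) (by norm_num))
    (exp_neg_leJ (r := 0.99) 14 (by norm_num) (by norm_num) (by norm_num) (by norm_num))
    (by norm_num)) (by norm_num) hN hβ.le (by norm_num)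

private theorem B5Lw_T26_0_9 {β x y : ℝ} (hβ : 0 < β) (hN : β * 7.352 ≤ 1) (hx1 : 1.853 ≤ x) (hx2 : x ≤ 1.919)
    (hy1 : -0.4651 ≤ y) (hy2 : y ≤ -0.167) : ‖HH β (x + y * I) - 1‖ ≤ 0.165 := by
  refine le_epsJ (C := 1.2128) (N0 := 7.352) (J_boxp 1.853 1.919 0.4651 0 (-0.167) 1.6845 1.9746 2.092 0.6616 0.5771 2.7115 7.352 1.1723 5.666 1.721 0.2527 0.8422 0.5131 0.9084 1.5198 1.0009 3.0656 4.0124 3.0505 0.002048 0.02304 0.00126 0.00001405 0.0006376 0.0000003101 0.0000003101 0.0000003101 1.2128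
    hβ hN hx1 hx2 hy1 hy2 (by norm_num) (by norm_num) (by linarith) (by norm_num) (by norm_num) (by norm_num) (by norm_num) (by norm_num) (by norm_num) (by norm_num) (by norm_num) (by norm_num) (by norm_num) (by norm_num) (by norm_num) (by norm_num) (by norm_num) (by norm_num) (by norm_num) (by norm_num) (by norm_num) (by norm_num) (by norm_num) (by norm_num)
    (cube_sqrt_geJ (s := 0.7805) (by norm_num) (by norm_num) (by norm_num) (by norm_num))
    (cube_sqrt_geJ (s := 0.9254) (by norm_num) (by norm_num) (by norm_num) (by norm_num))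
    (by norm_num) (by norm_num) (by norm_num) (by norm_num) (by norm_num) (by norm_num) (by norm_num) (by norm_num) (by norm_num) (by norm_num) (by norm_num) (by norm_num) (by norm_num) (by norm_num) (by norm_num) (by norm_num) (by norm_num) (by norm_num)
    (exp_neg_leJ (r := 0.191) 6 (by norm_num) (by norm_num) (by norm_num) (by norm_num))
    (exp_neg_leJ (r := 0.772) 3 (by norm_num) (by norm_num) (by norm_num) (by norm_num))
    (exp_neg_leJ (r := 0.678) 6 (by norm_num) (by norm_num) (by norm_num) (by norm_num))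
    (exp_neg_leJ (r := 0.173) 11 (by norm_num) (by norm_num) (by norm_num) (by norm_num))
    (exp_neg_leJ (r := 0.358) 7 (by norm_num) (by norm_num) (by norm_num) (by norm_num))
    (exp_neg_leJ (r := 0.99) 14 (by norm_num) (by norm_num) (by norm_num) (by norm_num))
    (exp_neg_leJ (r := 0.99) 14 (by norm_num) (by norm_num) (by norm_num) (by norm_num))
    (exp_neg_leJ (r := 0.99) 14 (by norm_num) (by norm_num) (by norm_num) (by norm_num))
    (by norm_num)) (by norm_num) hN hβ.le (by norm_num)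

private theorem B5Lw_T26_0_10 {β x y : ℝ} (hβ : 0 < β) (hN : β * 7.352 ≤ 1) (hx1 : 1.919 ≤ x) (hx2 : x ≤ 1.9919)
    (hy1 : -0.4651 ≤ y) (hy2 : y ≤ -0.167) : ‖HH β (x + y * I) - 1‖ ≤ 0.165 := by
  refine le_epsJ (C := 1.2) (N0 := 7.352) (J_boxp 1.919 1.9919 0.4651 0 (-0.167) 1.731 2.0455 2.1591 0.6452 0.5863 2.7115 7.352 1.1817 5.77 1.729 0.2246 0.8654 0.5245 0.931 1.4782 1.033 3.157 4.1444 2.9898 0.001726 0.0212 0.001068 0.00001912 0.0005037 0.0000003101 0.0000003101 0.0000003101 1.2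
    hβ hN hx1 hx2 hy1 hy2 (by norm_num) (by norm_num) (by linarith) (by norm_num) (by norm_num) (by norm_num) (by norm_num) (by norm_num) (by norm_num) (by norm_num) (by norm_num) (by norm_num) (by norm_num) (by norm_num) (by norm_num) (by norm_num) (by norm_num) (by norm_num) (by norm_num) (by norm_num) (by norm_num) (by norm_num) (by norm_num) (by norm_num)
    (cube_sqrt_geJ (s := 0.7785) (by norm_num) (by norm_num) (by norm_num) (by norm_num))
    (cube_sqrt_geJ (s := 0.9248) (by norm_num) (by norm_num) (by norm_num) (by norm_num))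
    (by norm_num) (by norm_num) (by norm_num) (by norm_num) (by norm_num) (by norm_num) (by norm_num) (by norm_num) (by norm_num) (by norm_num) (by norm_num) (by norm_num) (by norm_num) (by norm_num) (by norm_num) (by norm_num) (by norm_num) (by norm_num)
    (exp_neg_leJ (r := 0.362) 6 (by norm_num) (by norm_num) (by norm_num) (by norm_num))
    (exp_neg_leJ (r := 0.856) 3 (by norm_num) (by norm_num) (by norm_num) (by norm_num))
    (exp_neg_leJ (r := 0.844) 6 (by norm_num) (by norm_num) (by norm_num) (by norm_num))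
    (exp_neg_leJ (r := 0.867) 10 (by norm_num) (by norm_num) (by norm_num) (by norm_num))
    (exp_neg_leJ (r := 0.594) 7 (by norm_num) (by norm_num) (by norm_num) (by norm_num))
    (exp_neg_leJ (r := 0.99) 14 (by norm_num) (by norm_num) (by norm_num) (by norm_num))
    (exp_neg_leJ (r := 0.99) 14 (by norm_num) (by norm_num) (by norm_num) (by norm_num))
    (exp_neg_leJ (r := 0.99) 14 (by norm_num) (by norm_num) (by norm_num) (by norm_num))
    (by norm_num)) (by norm_num) hN hβ.le (by norm_num)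

private theorem B5Lw_T26_1_0 {β x y : ℝ} (hβ : 0 < β) (hN : β * 7.352 ≤ 1) (hx1 : 1.5883 ≤ x) (hx2 : x ≤ 1.9919)
    (hy1 : -0.167 ≤ y) (hy2 : y ≤ -0.1339) : ‖HH β (x + y * I) - 1‖ ≤ 0.165 := by
  refine le_epsJ (C := 1.1834) (N0 := 7.352) (J_boxp 1.5883 1.9919 0.167 0 (-0.1339) 1.7098 1.9989 2.1721 0.6593 0.588 2.7115 7.352 1.1691 5.632 1.718 0.4998 0.8548 0.5217 1.2883 2.4264 1.0352 2.6991 4.2933 2.455 0.001866 0.02164 0.00007707 0.0000003101 0.0004957 0.0000003101 0.0000003101 0.0000003101 1.1834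
    hβ hN hx1 hx2 hy1 hy2 (by norm_num) (by norm_num) (by linarith) (by norm_num) (by norm_num) (by norm_num) (by norm_num) (by norm_num) (by norm_num) (by norm_num) (by norm_num) (by norm_num) (by norm_num) (by norm_num) (by norm_num) (by norm_num) (by norm_num) (by norm_num) (by norm_num) (by norm_num) (by norm_num) (by norm_num) (by norm_num) (by norm_num)
    (cube_sqrt_geJ (s := 0.7812) (by norm_num) (by norm_num) (by norm_num) (by norm_num))
    (cube_sqrt_geJ (s := 0.9256) (by norm_num) (by norm_num) (by norm_num) (by norm_num))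
    (by norm_num) (by norm_num) (by norm_num) (by norm_num) (by norm_num) (by norm_num) (by norm_num) (by norm_num) (by norm_num) (by norm_num) (by norm_num) (by norm_num) (by norm_num) (by norm_num) (by norm_num) (by norm_num) (by norm_num) (by norm_num)
    (exp_neg_leJ (r := 0.284) 6 (by norm_num) (by norm_num) (by norm_num) (by norm_num))
    (exp_neg_leJ (r := 0.835) 3 (by norm_num) (by norm_num) (by norm_num) (by norm_num))
    (exp_neg_leJ (r := 0.471) 9 (by norm_num) (by norm_num) (by norm_num) (by norm_num))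
    (exp_neg_leJ (r := 0.99) 14 (by norm_num) (by norm_num) (by norm_num) (by norm_num))
    (exp_neg_leJ (r := 0.61) 7 (by norm_num) (by norm_num) (by norm_num) (by norm_num))
    (exp_neg_leJ (r := 0.99) 14 (by norm_num) (by norm_num) (by norm_num) (by norm_num))
    (exp_neg_leJ (r := 0.99) 14 (by norm_num) (by norm_num) (by norm_num) (by norm_num))
    (exp_neg_leJ (r := 0.99) 14 (by norm_num) (by norm_num) (by norm_num) (by norm_num))
    (by norm_num)) (by norm_num) hN hβ.le (by norm_num)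

private theorem B5Lw_T26 {β x y : ℝ} (hβ : 0 < β) (hN : β * 7.352 ≤ 1) (hx1 : 1.5883 ≤ x) (hx2 : x ≤ 1.9919)
    (hy1 : (-0.4651) ≤ y) (hy2 : y ≤ (-0.1339)) : ‖HH β (x + y * I) - 1‖ ≤ 0.165 := by
  rcases le_total y (-0.167) with hyy | hyy
  · rcases le_total x 1.601 with hxx | hxx
    · exact B5Lw_T26_0_0 hβ hN (by linarith) (by linarith) (by linarith) (by linarith)
    rcases le_total x 1.616 with hxx | hxx
    · exact B5Lw_T26_0_1 hβ hN (by linarith) (by linarith) (by linarith) (by linarith)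
    rcases le_total x 1.634 with hxx | hxx
    · exact B5Lw_T26_0_2 hβ hN (by linarith) (by linarith) (by linarith) (by linarith)
    rcases le_total x 1.656 with hxx | hxx
    · exact B5Lw_T26_0_3 hβ hN (by linarith) (by linarith) (by linarith) (by linarith)
    rcases le_total x 1.682 with hxx | hxx
    · exact B5Lw_T26_0_4 hβ hN (by linarith) (by linarith) (by linarith) (by linarith)
    rcases le_total x 1.714 with hxx | hxx
    · exact B5Lw_T26_0_5 hβ hN (by linarith) (by linarith) (by linarith) (by linarith)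
    rcases le_total x 1.752 with hxx | hxx
    · exact B5Lw_T26_0_6 hβ hN (by linarith) (by linarith) (by linarith) (by linarith)
    rcases le_total x 1.798 with hxx | hxx
    · exact B5Lw_T26_0_7 hβ hN (by linarith) (by linarith) (by linarith) (by linarith)
    rcases le_total x 1.853 with hxx | hxx
    · exact B5Lw_T26_0_8 hβ hN (by linarith) (by linarith) (by linarith) (by linarith)
    rcases le_total x 1.919 with hxx | hxx
    · exact B5Lw_T26_0_9 hβ hN (by linarith) (by linarith) (by linarith) (by linarith)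
    exact B5Lw_T26_0_10 hβ hN (by linarith) (by linarith) (by linarith) (by linarith)
  exact B5Lw_T26_1_0 hβ hN (by linarith) (by linarith) (by linarith) (by linarith)

private theorem B5Lw_G27 {κ : ℝ} (hk1 : 1.33 ≤ κ) (hk2 : κ ≤ 1.36) : gG κ 0.41 ≤ 1.28647 ∧ 0.32784 ≤ Real.exp (-(κ * 0.41)) ^ 2 := by
  refine ⟨gG_le 0.41 1.33 1.36 1.28647 0.57967 0.57259 1.72513 1.74648 hk1 hk2 (by norm_num)
    (ex_um 0.5453 (by norm_num) (by norm_num) (by norm_num) (by norm_num)) (ex_um 0.5576 (by norm_num) (by norm_num) (by norm_num) (by norm_num))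
    (ex_up 0.5453 (by norm_num) (by norm_num) (by norm_num) (by norm_num)) (ex_up 0.5576 (by norm_num) (by norm_num) (by norm_num) (by norm_num))
    (by norm_num) (by norm_num), ?_⟩
  exact v5_M 0.57258 (ex_lm 0.5576 (by linarith) (by norm_num) (by norm_num) (by norm_num) (by norm_num)) (by norm_num) (by norm_num)

private theorem B5Lw_C28 {β r t κ : ℝ} (hβ : 0 < β) (hr : 10 ≤ r) (hκ : κ = β * r) (hk1 : 1.33 ≤ κ) (hk2 : κ ≤ 1.36) (hta : 1.8765 ≤ t + κ)
    (htb : t + κ ≤ 2.0671) : ‖F (cexp (I * β)) (r * cexp (I * ((t + β / 2 : ℝ) : ℂ)))‖ ≤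
      1.7564 * Real.exp (r * (1.28647 - 0.41 * (t + κ))) + 0.2179 * Real.exp (r * 0) :=
  v5_H 0.41 1.33 1.36 1.8765 2.0671 1.28647 1.6799 0.32784 0.1472 2.0871 0.8335 0.08484 0.433 0.0000822 1.7564 0.2179 hβ hr hκ (by norm_num) hk1 hk2 hta htb (by norm_num) (B5Lw_G27 hk1 hk2).1 (B5Lw_G27 hk1 hk2).2 (by norm_num) (by norm_num) (by norm_num)
    (by norm_num) (by norm_num) (by norm_num) (by norm_num) (by norm_num) (by norm_num) (by norm_num) (by norm_num) (ex_un 0 0.8483 (by norm_num) (by norm_num) (by norm_num) (by norm_num))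
    (v5_hump 1.308 7.352 2.7115 0.00006688 0.0000822 hβ hr hκ hk1 hk2 (by norm_num) htb (by norm_num) (by norm_num) (by norm_num) (by norm_num) (by norm_num) (by norm_num) (by norm_num) (ex_un 9 0.6164 (by norm_num) (by norm_num) (by norm_num) (by norm_num)) (by norm_num)) (by norm_num) (by norm_num)

private theorem B5Lw_C29 {β r t κ : ℝ} (hβ : 0 < β) (hr : 10 ≤ r) (hκ : κ = β * r) (hk1 : 1.33 ≤ κ) (hk2 : κ ≤ 1.36) (hta : (-1.8934) ≤ t + κ)
    (htb : t + κ ≤ (-1.7028)) : ‖F (cexp (I * β)) (r * cexp (I * ((t + β / 2 : ℝ) : ℂ)))‖ ≤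
      0.7263 * Real.exp (r * (1.52554 - (-0.6) * (t + κ))) + 1.6618 * Real.exp (r * 0.0501) :=
  v5_HU (-0.6) 1.33 1.36 (-1.8934) (-1.7028) 1.52554 0.7263 4.93301 0.1472 0.6636 1.4585 0 0.0501 0.00000115 1.6618 hβ hr hκ (by norm_num) hk1 hk2 hta htb (by norm_num) (by norm_num) (B5Lw_G7 hk1 hk2).1 (B5Lw_G7 hk1 hk2).2 (by norm_num) (by norm_num) (by norm_num)
    (by norm_num) (by norm_num) (by norm_num) (by norm_num) (by norm_num) (by norm_num) (by norm_num)
    (by norm_num) (by norm_num) (by norm_num) (v5_hump 5.0779 7.352 2.7115 0.0000009316 0.00000115 hβ hr hκ hk1 hk2 (by norm_num) htb (by norm_num) (by norm_num) (by norm_num) (by norm_num) (by norm_num) (by norm_num) (by norm_num) (ex_un 13 0.9 (by norm_num) (by norm_num) (by norm_num) (by norm_num)) (by norm_num)) (by norm_num)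

private theorem B5Lw_C30 {β r t κ : ℝ} (hβ : 0 < β) (hr : 10 ≤ r) (hκ : κ = β * r) (hk1 : 1.33 ≤ κ) (hk2 : κ ≤ 1.36) (hta : 3.1331 ≤ t + κ)
    (htb : t + κ ≤ 3.3237) : ‖F (cexp (I * β)) (r * cexp (I * ((t + β / 2 : ℝ) : ℂ)))‖ ≤
      2.1483 * Real.exp (r * (0.01 + 1 / 20)) :=
  v5_UD 1.33 1.36 3.1331 3.3237 0.01 0.346 0.01 1.12 2.1483 hβ hr hκ (by norm_num) hk1 hk2 hta htb (by norm_num) (by norm_num) (by norm_num) (by norm_num) (by norm_num) (by norm_num) (by norm_num) (by norm_num) (by norm_num) (by norm_num) (by norm_num)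

private theorem B5Lw_Y31 {β r t κ h t' : ℝ} (hβ : 0 < β) (hκ : κ = β * r) (hN : β * 7.352 ≤ 1) (hk1 : 1.33 ≤ κ) (hk2 : κ ≤ 1.36)
    (ht : t' = t + (((1 : ℤ) : ℝ) - 1) * h) (hD : DomR κ t') (hta : 0.6199 ≤ t' + κ) (htb : t' + κ ≤ 0.6744) :
    0.6996 * Real.exp (r * sE κ t') ≤ ‖Xf β r h t 1‖ := by
  obtain ⟨⟨ya, yb⟩, ⟨xa, xb⟩, n1, Da, Db⟩ := B5Lw_B23 hD hk1 hk2 hta htb
  have J := B5Lw_T25 (x := sx κ t') (y := sy κ t') hβ hN (by linarith only [xa, xb, ya, yb]) (by linarith only [xa, xb, ya, yb]) (by linarith only [xa, xb, ya, yb]) (by linarith only [xa, xb, ya, yb])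
  exact v5_Jlo hβ hκ (k := 1) ht hD 0.11 2.6181 0.6996 (by norm_num) J Db (by norm_num)

private theorem B5Lw_Y32 {β r t κ h t' : ℝ} (hβ : 0 < β) (hκ : κ = β * r) (hN : β * 7.352 ≤ 1) (hk1 : 1.33 ≤ κ) (hk2 : κ ≤ 1.36)
    (ht : t' = t + (((0 : ℤ) : ℝ) - 1) * h) (hD : DomR κ t') (hta : (-0.6368) ≤ t' + κ) (htb : t' + κ ≤ (-0.5822)) :
    0.5963 * Real.exp (r * sE κ t') ≤ ‖Xf β r h t 0‖ := by
  obtain ⟨⟨ya, yb⟩, ⟨xa, xb⟩, n1, Da, Db⟩ := B5Lw_B24 hD hk1 hk2 hta htb
  have J := B5Lw_T26 (x := sx κ t') (y := sy κ t') hβ hN (by linarith only [xa, xb, ya, yb]) (by linarith only [xa, xb, ya, yb]) (by linarith only [xa, xb, ya, yb]) (by linarith only [xa, xb, ya, yb])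
  exact v5_Jlo hβ hκ (k := 0) ht hD 0.165 3.8429 0.5963 (by norm_num) J Db (by norm_num)

private theorem B5Lw_V33 {κ t : ℝ} (hD : DomR κ t) (hk1 : 1.33 ≤ κ) (hk2 : κ ≤ 1.36) (hta : 0.6199 ≤ t + κ) (htb : t + κ ≤ 0.6744) :
    1.06993 - 0.2208 * (t + κ) ≤ sE κ t := by
  have hκ0 : 0 < κ := hD.1
  exact v5_V1 hD 1.33 1.36 0.6199 0.6744 0.02848 0.09856 0.26075 1.06993 0.2208 (by norm_num) hk1 hk2 (by norm_num) (by norm_num) hta htb (by norm_num) (clo5 1.33 1.36 0.26075 (by norm_num) hk1 hk2 (by norm_num) (by norm_num) (by norm_num))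
      ((cup2 1.33 (by norm_num) hk1).trans (by norm_num)) (by norm_num) (by norm_num) (by norm_num) (by norm_num) (by norm_num) (by norm_num)

private theorem B5Lw_V34 {κ t : ℝ} (hD : DomR κ t) (hk1 : 1.33 ≤ κ) (hk2 : κ ≤ 1.36) (hta : (-0.6368) ≤ t + κ) (htb : t + κ ≤ (-0.5822)) :
    1.07103 + 0.2336 * (t + κ) ≤ sE κ t := by
  have hκ0 : 0 < κ := hD.1
  exact v5_V0 hD 1.33 1.36 (-0.6368) (-0.5822) 0.6369 0.5307 0.0356 0.16116 0.04711 0.49117 1.07103 0.2336 (by norm_num) hk1 hk2 (by norm_num) hta htb (by norm_num) (by norm_num) (by norm_num) ((cup2 1.33 (by norm_num) hk1).trans (by norm_num))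
      (by norm_num) (by norm_num) (by norm_num) (by norm_num) (by norm_num) (by norm_num) (by norm_num) (by norm_num) (by norm_num) (by norm_num) (by norm_num) (by norm_num) (by norm_num)

private theorem B5Lw_S35 {β r t κ h t' : ℝ} (hβ : 0 < β) (hκ : κ = β * r) (hN : β * 7.352 ≤ 1) (hk1 : 1.33 ≤ κ) (hk2 : κ ≤ 1.36)
    (ht : t' = t + (((1 : ℤ) : ℝ) - 1) * h) (hD : DomR κ t') (hta : 0.6199 ≤ t' + κ) (htb : t' + κ ≤ 0.6744) :
    Xf β r h t 1 ≠ 0 ∧ |(Ld β r h t 1).im - (sy κ t' / β + sx κ t' / sD κ t' * ((1 + sy κ t') / sD κ t' - 1 / 2))| ≤ 0.4007 ∧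
      ‖Ld β r h t 1 - sg κ t' / β‖ ≤ 0.6029 ∧ -0.0062 ≤ sx κ t' / sD κ t' * ((1 + sy κ t') / sD κ t' - 1 / 2) ∧
      (0.269 ≤ sy κ t' ∧ sy κ t' ≤ 0.291) ∧ (0.9506 ≤ sx κ t' ∧ sx κ t' ≤ 1.0039) := by
  obtain ⟨⟨y1, y2⟩, ⟨x1, x2⟩, n1, Da, Db⟩ := B5Lw_B23 hD hk1 hk2 hta htb
  have hd := v5_disc (β := β) (κ := κ) (t := t') (ε := 0.11) 0.2 0.7505 1.204 0.0689 0.4911 0.9506 1.0039 0.269 0.291
    (fun x y g1 g2 g3 g4 => B5Lw_T25 hβ hN g1 g2 g3 g4) x1 x2 y1 y2 (by norm_num) (by norm_num) (by norm_num) (by norm_num)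
  obtain ⟨nz, im, nL⟩ := v5_slope (h := h) (t := t) (k := 1) 0.2 0.11 1.0393 2.5703 0.618 0.4007 hβ hκ ht hD (by norm_num) (by norm_num) (by linarith only [y1]) hd n1 (by norm_num) Da (by norm_num) (by norm_num) (by norm_num) (by norm_num)
  have ex := ex_lo hD 1.0393 2.5703 2.6181 0.269 0.0153 0.0062 n1 (by norm_num) Da Db y1 (by norm_num) (by norm_num) (by norm_num) (by norm_num)
  exact ⟨nz, im, nL.trans (by norm_num), ex, ⟨y1, y2⟩, x1, x2⟩

private theorem B5Lw_S36 {β r t κ h t' : ℝ} (hβ : 0 < β) (hκ : κ = β * r) (hN : β * 7.352 ≤ 1) (hk1 : 1.33 ≤ κ) (hk2 : κ ≤ 1.36)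
    (ht : t' = t + (((0 : ℤ) : ℝ) - 1) * h) (hD : DomR κ t') (hta : (-0.6368) ≤ t' + κ) (htb : t' + κ ≤ (-0.5822)) :
    Xf β r h t 0 ≠ 0 ∧ |(Ld β r h t 0).im - (sy κ t' / β + sx κ t' / sD κ t' * ((1 + sy κ t') / sD κ t' - 1 / 2))| ≤ 1.3024 ∧
      ‖Ld β r h t 0 - sg κ t' / β‖ ≤ 1.5647 ∧ sx κ t' / sD κ t' * ((1 + sy κ t') / sD κ t' - 1 / 2) ≤ 0.0001 ∧
      ((-0.315) ≤ sy κ t' ∧ sy κ t' ≤ (-0.284)) ∧ (1.7384 ≤ sx κ t' ∧ sx κ t' ≤ 1.8418) := by
  obtain ⟨⟨y1, y2⟩, ⟨x1, x2⟩, n1, Da, Db⟩ := B5Lw_B24 hD hk1 hk2 hta htb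
  have hd := v5_disc (β := β) (κ := κ) (t := t') (ε := 0.165) 0.15 1.5883 1.9919 (-0.4651) (-0.1339) 1.7384 1.8418 (-0.315) (-0.284)
    (fun x y g1 g2 g3 g4 => B5Lw_T26 hβ hN g1 g2 g3 g4) x1 x2 y1 y2 (by norm_num) (by norm_num) (by norm_num) (by norm_num)
  obtain ⟨nz, im, nL⟩ := v5_slope (h := h) (t := t) (k := 0) 0.15 0.165 1.8636 3.5536 1.3174 1.3024 hβ hκ ht hD (by norm_num) (by norm_num) (by linarith only [y1]) hd n1 (by norm_num) Da (by norm_num) (by norm_num) (by norm_num) (by norm_num)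
  have ex := ex_hi hD 1.8636 3.5536 (-0.284) 0 0.0001 n1 (by norm_num) Da y2 (by norm_num) (by norm_num) (by norm_num) (by norm_num)
  exact ⟨nz, im, nL.trans (by norm_num), ex, ⟨y1, y2⟩, x1, x2⟩

private theorem B5Lw_L37 {β r κ t1 t0 : ℝ} {L0 L1 : ℂ} (hβ : 0 < β) (hr : 10 ≤ r) (hκ : κ = β * r) (hk1 : 1.33 ≤ κ)
    (nA0 : ‖L0 - sg κ t0 / β‖ ≤ 1.5647) (nA1 : ‖L1 - sg κ t1 / β‖ ≤ 0.6029)
    (y0 : (-0.315) ≤ sy κ t0 ∧ sy κ t0 ≤ (-0.284)) (x0 : 1.7384 ≤ sx κ t0 ∧ sx κ t0 ≤ 1.8418)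
    (y1 : 0.269 ≤ sy κ t1 ∧ sy κ t1 ≤ 0.291) (x1 : 0.9506 ≤ sx κ t1 ∧ sx κ t1 ≤ 1.0039) :
    ‖(1 : ℂ) * L0 + (-2 : ℂ) * L1‖ ≤ r * 0.9815 := by
  obtain ⟨y0a, y0b⟩ := y0
  obtain ⟨x0a, x0b⟩ := x0
  obtain ⟨y1a, y1b⟩ := y1
  obtain ⟨x1a, x1b⟩ := x1
  have hN := v5_cN (κ := κ) (t1 := t1) (t0 := t0) 1 (-2) 0.2695 0.8971 0.9368 (abs_le.2 ⟨by linarith only [x0a, x0b, x1a, x1b], by linarith only [x0a, x0b, x1a, x1b]⟩)
    (abs_le.2 ⟨by linarith only [y0a, y0b, y1a, y1b], by linarith only [y0a, y0b, y1a, y1b]⟩) (by norm_num) (by norm_num)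
  have h1 := v5_comb 1 (-2) 1.33 1.5647 0.6029 0.9368 0.9815 hβ hr hκ (by norm_num) hk1 nA0 nA1 hN (by norm_num [abs_of_neg, abs_of_pos])
  norm_num at h1 ⊢
  exact h1

private theorem B5Lw_L38 {β r κ t1 t0 : ℝ} {L0 L1 : ℂ} (hβ : 0 < β) (hr : 10 ≤ r) (hκ : κ = β * r) (hk1 : 1.33 ≤ κ)
    (nA0 : ‖L0 - sg κ t0 / β‖ ≤ 1.5647) (nA1 : ‖L1 - sg κ t1 / β‖ ≤ 0.6029)
    (y0 : (-0.315) ≤ sy κ t0 ∧ sy κ t0 ≤ (-0.284)) (x0 : 1.7384 ≤ sx κ t0 ∧ sx κ t0 ≤ 1.8418)
    (y1 : 0.269 ≤ sy κ t1 ∧ sy κ t1 ≤ 0.291) (x1 : 0.9506 ≤ sx κ t1 ∧ sx κ t1 ≤ 1.0039) :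
    ‖(-2 : ℂ) * L0 + (1 : ℂ) * L1‖ ≤ r * 2.5419 := by
  obtain ⟨y0a, y0b⟩ := y0
  obtain ⟨x0a, x0b⟩ := x0
  obtain ⟨y1a, y1b⟩ := y1
  obtain ⟨x1a, x1b⟩ := x1
  have hN := v5_cN (κ := κ) (t1 := t1) (t0 := t0) (-2) 1 2.7331 0.9211 2.8842 (abs_le.2 ⟨by linarith only [x0a, x0b, x1a, x1b], by linarith only [x0a, x0b, x1a, x1b]⟩)
    (abs_le.2 ⟨by linarith only [y0a, y0b, y1a, y1b], by linarith only [y0a, y0b, y1a, y1b]⟩) (by norm_num) (by norm_num)
  have h1 := v5_comb (-2) 1 1.33 1.5647 0.6029 2.8842 2.5419 hβ hr hκ (by norm_num) hk1 nA0 nA1 hN (by norm_num [abs_of_neg, abs_of_pos])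
  norm_num at h1 ⊢
  exact h1

private theorem B5Lw_L39 {β r κ t1 t0 : ℝ} {L0 L1 : ℂ} (hβ : 0 < β) (hr : 10 ≤ r) (hκ : κ = β * r) (hk1 : 1.33 ≤ κ)
    (nA0 : ‖L0 - sg κ t0 / β‖ ≤ 1.5647) (nA1 : ‖L1 - sg κ t1 / β‖ ≤ 0.6029)
    (y0 : (-0.315) ≤ sy κ t0 ∧ sy κ t0 ≤ (-0.284)) (x0 : 1.7384 ≤ sx κ t0 ∧ sx κ t0 ≤ 1.8418)
    (y1 : 0.269 ≤ sy κ t1 ∧ sy κ t1 ≤ 0.291) (x1 : 0.9506 ≤ sx κ t1 ∧ sx κ t1 ≤ 1.0039) :
    ‖(-3 : ℂ) * L0 + (2 : ℂ) * L1‖ ≤ r * 3.5471 := by
  obtain ⟨y0a, y0b⟩ := y0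
  obtain ⟨x0a, x0b⟩ := x0
  obtain ⟨y1a, y1b⟩ := y1
  obtain ⟨x1a, x1b⟩ := x1
  have hN := v5_cN (κ := κ) (t1 := t1) (t0 := t0) (-3) 2 3.6243 1.5271 3.9329 (abs_le.2 ⟨by linarith only [x0a, x0b, x1a, x1b], by linarith only [x0a, x0b, x1a, x1b]⟩)
    (abs_le.2 ⟨by linarith only [y0a, y0b, y1a, y1b], by linarith only [y0a, y0b, y1a, y1b]⟩) (by norm_num) (by norm_num)
  have h1 := v5_comb (-3) 2 1.33 1.5647 0.6029 3.9329 3.5471 hβ hr hκ (by norm_num) hk1 nA0 nA1 hN (by norm_num [abs_of_neg, abs_of_pos])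
  norm_num at h1 ⊢
  exact h1

private theorem B5Lw_K40 {β r t κ h : ℝ} (hβ : 0 < β) (hr : 10 ≤ r) (hκ : κ = β * r) (hk1 : 1.33 ≤ κ) (hk2 : κ ≤ 1.36)
    (hh : h = 2 * Real.pi / 5) (hh1 : 1.25663 ≤ h) (hh2 : h ≤ 1.25664) (hta : 0.6199 ≤ t + κ) (htb : t + κ ≤ 0.6744)
    (hβ1 : β ≤ 0.136)
    (hY : 0.6996 * Real.exp (r * sE κ t) ≤ ‖Xf β r h t 1‖) (hV : 1.06993 - 0.2208 * (t + κ) ≤ sE κ t) :
    ‖Xf β r h t 2‖ ≤ 0.0394 * ‖Xf β r h t 1‖ ∧ ‖Xf β r h (t + β) 2‖ ≤ 0.0229 * ‖Xf β r h t 1‖ := by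
  constructor
  · rw [v5_X 2 1 (by push_cast; ring)]
    exact v5_cmp 0.4159 0.01563 0.0393 0.921 0.0001001 0.0000312 0.0394 hr (B5Lw_C28 (t := t + 1 * h) hβ hr hκ hk1 hk2 (by linarith only [hta, htb, hh1, hh2, hβ, hβ1]) (by linarith only [hta, htb, hh1, hh2, hβ, hβ1])) hY (by norm_num) (by norm_num) (by norm_num) (by norm_num) (by linarith only [hV, hta, htb, hh1, hh2]) (ex_un 4 0.1589 (by norm_num) (by norm_num) (by norm_num) (by norm_num)) (by norm_num) (by norm_num) (by linarith only [hV, hta, htb, hh1, hh2]) (ex_un 9 0.2099 (by norm_num) (by norm_num) (by norm_num) (by norm_num)) (by norm_num) (by norm_num)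
  · rw [v5_X 2 1 (by push_cast; ring)]
    have h1 := B5Lw_C28 (t := t + β + 1 * h) hβ hr hκ hk1 hk2 (by linarith only [hta, htb, hh1, hh2, hβ, hβ1]) (by linarith only [hta, htb, hh1, hh2, hβ, hβ1])
    rw [show t + β + 1 * h + κ = (t + 1 * h + κ) + β by ring] at h1
    exact v5_cmpS 0.57967 0.4159 0.01563 0.0228 0.921 0.0001001 0.0000312 0.0229 hr hκ h1 hY (by norm_num) (by norm_num) (by norm_num) (ex_um 0.5453 (by linarith only [hk1, hk2]) (by norm_num) (by norm_num) (by norm_num)) (by norm_num) (by linarith only [hV, hta, htb, hh1, hh2]) (ex_un 4 0.1589 (by norm_num) (by norm_num) (by norm_num) (by norm_num)) (by norm_num) (by norm_num) (by linarith only [hV, hta, htb, hh1, hh2]) (ex_un 9 0.2099 (by norm_num) (by norm_num) (by norm_num) (by norm_num)) (by norm_num) (by norm_num)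

private theorem B5Lw_K41 {β r t κ h : ℝ} (hβ : 0 < β) (hr : 10 ≤ r) (hκ : κ = β * r) (hk1 : 1.33 ≤ κ) (hk2 : κ ≤ 1.36)
    (hh : h = 2 * Real.pi / 5) (hh1 : 1.25663 ≤ h) (hh2 : h ≤ 1.25664) (hta : 0.6199 ≤ t + κ) (htb : t + κ ≤ 0.6744)
    (hβ1 : β ≤ 0.136)
    (hY : 0.5963 * Real.exp (r * sE κ (t - h)) ≤ ‖Xf β r h t 0‖) (hV : 1.07103 + 0.2336 * (t - h + κ) ≤ sE κ (t - h)) :
    ‖Xf β r h t (-1)‖ ≤ 0.00769 * ‖Xf β r h t 0‖ ∧ ‖Xf β r h (t + β) (-1)‖ ≤ 0.0169 * ‖Xf β r h t 0‖ := by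
  constructor
  · rw [v5_X (-1) (-2) (by push_cast; ring)]
    exact v5_cmp 0.5127 0.005935 0.00723 0.8721 0.0001642 0.000458 0.00769 hr (B5Lw_C29 (t := t + (-2) * h) hβ hr hκ hk1 hk2 (by linarith only [hta, htb, hh1, hh2, hβ, hβ1]) (by linarith only [hta, htb, hh1, hh2, hβ, hβ1])) hY (by norm_num) (by norm_num) (by norm_num) (by norm_num) (by linarith only [hV, hta, htb, hh1, hh2]) (ex_un 5 0.1269 (by norm_num) (by norm_num) (by norm_num) (by norm_num)) (by norm_num) (by norm_num) (by linarith only [hV, hta, htb, hh1, hh2]) (ex_un 8 0.7209 (by norm_num) (by norm_num) (by norm_num) (by norm_num)) (by norm_num) (by norm_num)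
  · rw [v5_X (-1) (-2) (by push_cast; ring)]
    have h1 := B5Lw_C29 (t := t + β + (-2) * h) hβ hr hκ hk1 hk2 (by linarith only [hta, htb, hh1, hh2, hβ, hβ1]) (by linarith only [hta, htb, hh1, hh2, hβ, hβ1])
    rw [show t + β + (-2) * h + κ = (t + (-2) * h + κ) + β by ring] at h1
    exact v5_cmpS 2.26144 0.5127 0.005935 0.0164 0.8721 0.0001642 0.000458 0.0169 hr hκ h1 hY (by norm_num) (by norm_num) (by norm_num) (ex_up 0.816 (by linarith only [hk1, hk2]) (by norm_num) (by norm_num) (by norm_num)) (by norm_num) (by linarith only [hV, hta, htb, hh1, hh2]) (ex_un 5 0.1269 (by norm_num) (by norm_num) (by norm_num) (by norm_num)) (by norm_num) (by norm_num) (by linarith only [hV, hta, htb, hh1, hh2]) (ex_un 8 0.7209 (by norm_num) (by norm_num) (by norm_num) (by norm_num)) (by norm_num) (by norm_num)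

private theorem B5Lw_K42 {β r t κ h : ℝ} (hβ : 0 < β) (hr : 10 ≤ r) (hκ : κ = β * r) (hk1 : 1.33 ≤ κ) (hk2 : κ ≤ 1.36)
    (hh : h = 2 * Real.pi / 5) (hh1 : 1.25663 ≤ h) (hh2 : h ≤ 1.25664) (hta : 0.6199 ≤ t + κ) (htb : t + κ ≤ 0.6744)
    (hβ1 : β ≤ 0.136)
    (hY : 0.5963 * Real.exp (r * sE κ (t - h)) ≤ ‖Xf β r h t 0‖) (hV : 1.07103 + 0.2336 * (t - h + κ) ≤ sE κ (t - h)) :
    ‖Xf β r h t (-2)‖ ≤ 0.000652 * ‖Xf β r h t 0‖ ∧ ‖Xf β r h (t + β) (-2)‖ ≤ 0.000652 * ‖Xf β r h t 0‖ := by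
  constructor
  · rw [v5_Xm2 hh]
    exact v5_cmp0 0.8622 0.0001809 0.000652 hr (B5Lw_C30 (t := t + 2 * h) hβ hr hκ hk1 hk2 (by linarith only [hta, htb, hh1, hh2, hβ, hβ1]) (by linarith only [hta, htb, hh1, hh2, hβ, hβ1])) hY (by norm_num) (by norm_num) (by norm_num) (by linarith only [hV, hta, htb, hh1, hh2]) (ex_un 8 0.6219 (by norm_num) (by norm_num) (by norm_num) (by norm_num)) (by norm_num)
  · rw [v5_Xm2 hh]
    exact v5_cmp0 0.8622 0.0001809 0.000652 hr (B5Lw_C30 (t := t + β + 2 * h) hβ hr hκ hk1 hk2 (by linarith only [hta, htb, hh1, hh2, hβ, hβ1]) (by linarith only [hta, htb, hh1, hh2, hβ, hβ1])) hY (by norm_num) (by norm_num) (by norm_num) (by linarith only [hV, hta, htb, hh1, hh2]) (ex_un 8 0.6219 (by norm_num) (by norm_num) (by norm_num) (by norm_num)) (by norm_num)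

theorem B5Lw_W43 {β r t κ h : ℝ} (hβ : 0 < β) (hr : 10 ≤ r) (hκ : κ = β * r) (hk1 : 1.33 ≤ κ) (hk2 : κ ≤ 1.36)
    (hh : h = 2 * Real.pi / 5) (hta : 0.6199 ≤ t + κ) (htb : t + κ ≤ 0.6744) :
    Xf β r h t 0 ≠ 0 ∧
    (‖Xf β r h t 2‖ ≤ 0.0431 * ‖Xf β r h t 1‖ ∧ ‖Xf β r h t (-1)‖ ≤ 0.00933 * ‖Xf β r h t 0‖ ∧
      ‖Xf β r h t (-2)‖ ≤ 0.00082 * ‖Xf β r h t 0‖) ∧
    (r * ‖Xf β r h (t + β) 2‖ + ‖Xf β r h t 2‖ * ‖(1 : ℂ) * Ld β r h t 0 + (-2 : ℂ) * Ld β r h t 1‖ ≤
        r * 0.0676 * ‖Xf β r h t 1‖ ∧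
      r * ‖Xf β r h (t + β) (-1)‖ + ‖Xf β r h t (-1)‖ * ‖(-2 : ℂ) * Ld β r h t 0 + (1 : ℂ) * Ld β r h t 1‖ ≤
        r * 0.0433 * ‖Xf β r h t 0‖ ∧
      r * ‖Xf β r h (t + β) (-2)‖ + ‖Xf β r h t (-2)‖ * ‖(-3 : ℂ) * Ld β r h t 0 + (2 : ℂ) * Ld β r h t 1‖ ≤
        r * 0.00381 * ‖Xf β r h t 0‖) ∧
    r * 0.2312 ≤ (Ld β r h t 1 - Ld β r h t 0).im := by
  obtain ⟨hh1, hh2⟩ := v5_h hh
  have hκ0 : 0 < κ := by linarith only [hk1]
  have hN : β * 7.352 ≤ 1 := v5_hN 1.36 7.352 hβ hr hκ hk2 (by norm_num) (by norm_num)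
  have hD1 : DomR κ t := v5_dom hκ0 (by linarith only [hta, htb, hk1, hk2, hh1, hh2]) (Or.inr (by linarith only [hta, htb, hk1, hk2, hh1, hh2]))
  have hD0 : DomR κ (t - h) := v5_dom hκ0 (by linarith only [hta, htb, hk1, hk2, hh1, hh2]) (Or.inl (by linarith only [hk1]))
  have hβ1 : β ≤ 0.136 := by
    have := mul_le_mul_of_nonneg_left hr hβ.le
    linarith only [this, hκ, hk2]
  have h0a : (-0.6368) ≤ t - h + κ := by linarith only [hta, htb, hh1, hh2]
  have h0b : t - h + κ ≤ (-0.5822) := by linarith only [hta, htb, hh1, hh2]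
  have e1 : t = t + (((1 : ℤ) : ℝ) - 1) * h := by push_cast; ring
  have e0 : t - h = t + (((0 : ℤ) : ℝ) - 1) * h := by push_cast; ring
  have hY1 := B5Lw_Y31 (h := h) hβ hκ hN hk1 hk2 e1 hD1 hta htb
  have hY0 := B5Lw_Y32 (h := h) hβ hκ hN hk1 hk2 e0 hD0 h0a h0b
  have hV1 := B5Lw_V33 hD1 hk1 hk2 hta htb
  have hV0 := B5Lw_V34 hD0 hk1 hk2 h0a h0b
  obtain ⟨nz1, im1, nA1, ex1, y1, x1⟩ := B5Lw_S35 (h := h) hβ hκ hN hk1 hk2 e1 hD1 hta htb
  obtain ⟨nz0, im0, nA0, ex0, y0, x0⟩ := B5Lw_S36 (h := h) hβ hκ hN hk1 hk2 e0 hD0 h0a h0b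
  obtain ⟨cp2, dp2⟩ := B5Lw_K40 hβ hr hκ hk1 hk2 hh hh1 hh2 hta htb hβ1 hY1 hV1
  obtain ⟨cm1, dm1⟩ := B5Lw_K41 hβ hr hκ hk1 hk2 hh hh1 hh2 hta htb hβ1 hY0 hV0
  obtain ⟨cm2, dm2⟩ := B5Lw_K42 hβ hr hκ hk1 hk2 hh hh1 hh2 hta htb hβ1 hY0 hV0
  have Lp2 := B5Lw_L37 hβ hr hκ hk1 nA0 nA1 y0 x0 y1 x1
  have Lm1 := B5Lw_L38 hβ hr hκ hk1 nA0 nA1 y0 x0 y1 x1
  have Lm2 := B5Lw_L39 hβ hr hκ hk1 nA0 nA1 y0 x0 y1 x1
  have hm : r * 0.2312 ≤ (Ld β r h t 1 - Ld β r h t 0).im :=
    v5_m 1.36 0.269 0.284 0.0062 0.0001 0.4007 1.3024 _ _ 0.2312 hβ hr hκ hk2 im1 im0 y1.1 (by linarith only [y0.2]) (by norm_num) ex1 ex0 (by norm_num) (by norm_num)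
  have hr0 : 0 < r := by linarith only [hr]
  refine ⟨nz0, ⟨v5_emax _ cp2 (norm_nonneg _) (by norm_num), v5_emax _ cm1 (norm_nonneg _) (by norm_num), v5_emax _ cm2 (norm_nonneg _) (by norm_num)⟩, ⟨?_, ?_, ?_⟩, hm⟩
  · exact v5_W hr0 dp2 cp2 Lp2 (norm_nonneg _) (norm_nonneg _) (norm_nonneg _) (by norm_num)
  · exact v5_W hr0 dm1 cm1 Lm1 (norm_nonneg _) (norm_nonneg _) (norm_nonneg _) (by norm_num)
  · exact v5_W hr0 dm2 cm2 Lm2 (norm_nonneg _) (norm_nonneg _) (norm_nonneg _) (by norm_num)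

private theorem B5Lw_B44 {κ t : ℝ} (h : DomR κ t) (hk1 : 1.33 ≤ κ) (hk2 : κ ≤ 1.36) (ht1 : 0.6744 ≤ t + κ) (ht2 : t + κ ≤ 0.7289) :
    (0.29 ≤ sy κ t ∧ sy κ t ≤ 0.311) ∧ (0.9235 ≤ sx κ t ∧ sx κ t ≤ 0.9755) ∧ κ * Real.exp (-sy κ t) ≤ 1.0177 ∧ 2.5703 ≤ sD κ t ∧ sD κ t ≤ 2.6157 := by
  have hy1 : 0.29 ≤ sy κ t := syR_ge h 1.33 1.36 0.6744 0.29 1.33642 1.33643 0.28497 0.29141 hk1 hk2 (by linarith) (by norm_num) (by norm_num)
    (expn_ge (by norm_num) (by norm_num)) (expn_le (by norm_num) (by norm_num) (by norm_num)) (by norm_num)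
    (by norm_num) (by norm_num) (by norm_num) (by norm_num) (by norm_num) (by norm_num)
  have hy2 : sy κ t ≤ 0.311 := syR_le h 1.33 1.36 0.7289 0.311 1.36478 0.3103 0.31209 0.31914 hk1 hk2 (by linarith) (by norm_num) (by norm_num)
    (expn_ge (by norm_num) (by norm_num)) (by norm_num) (by norm_num) (Or.inr ((mul_le_mul_of_nonneg_left (expn_le (E := 1.36479) (by norm_num) (by norm_num) (by norm_num)) (by norm_num)).trans (by norm_num))) (by norm_num) (by norm_num) (by norm_num)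
  have hy1' : 0.29 ≤ sy κ t := by linarith
  have hy2' : sy κ t ≤ 0.311 := by linarith
  have hx1 : 0.9235 ≤ sx κ t := sx_lo h 1.33 0.311 0.3111 0.73271 0.9235 hk1 (by norm_num) hy2' (abs_le.2 ⟨by linarith, by linarith⟩) (ex_lm 0.311 (by norm_num) (by norm_num) (by norm_num) (by norm_num) (by norm_num)) (by norm_num) (by norm_num)
  have hx2 : sx κ t ≤ 0.9755 := sx_hi h 1.36 0.29 0.29 0.74827 0.9755 hk2 hy1' (by norm_num) (le_trans (by linarith) (le_abs_self _)) (ex_um 0.29 (by norm_num) (by norm_num) (by norm_num) (by norm_num)) (by norm_num) (by norm_num)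
  refine ⟨⟨hy1', hy2'⟩, ⟨hx1, hx2⟩, v5_n h 1.36 0.29 0.74827 1.0177 hk2 hy1' (ex_um 0.29 (by norm_num) (by norm_num) (by norm_num) (by norm_num)) (by norm_num), ?_, ?_⟩
  · exact v5_Dlo h 1.33 0.29 0.311 0.29 0.74826 2.5703 (by norm_num) hk1 hy1' hy2' (ex_lm 0.29 (by norm_num) (by norm_num) (by norm_num) (by norm_num) (by norm_num)) (by norm_num) (by norm_num) (by norm_num) (by norm_num)
  · exact v5_Dup h 1.36 0.29 0.311 0.74827 0.73272 2.6157 hk2 hy1' hy2' (ex_um 0.29 (by norm_num) (by norm_num) (by norm_num) (by norm_num)) (ex_um 0.311 (by norm_num) (by norm_num) (by norm_num) (by norm_num)) (by norm_num) (by norm_num) (by norm_num)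

private theorem B5Lw_B45 {κ t : ℝ} (h : DomR κ t) (hk1 : 1.33 ≤ κ) (hk2 : κ ≤ 1.36) (ht1 : (-0.5823) ≤ t + κ) (ht2 : t + κ ≤ (-0.5277)) :
    ((-0.288) ≤ sy κ t ∧ sy κ t ≤ (-0.257)) ∧ (1.6954 ≤ sx κ t ∧ sx κ t ≤ 1.7957) ∧ κ * Real.exp (-sy κ t) ≤ 1.814 ∧ 3.4435 ≤ sD κ t ∧ sD κ t ≤ 3.7143 := by
  have hy1 : -0.288 ≤ sy κ t := syL_ge h 1.33 1.36 0.5823 0.288 0.74976 0.74977 0.1578 0.15877 0.16236 hk1 hk2 (by linarith) (by norm_num) (by norm_num) (by norm_num)
    (expm_ge (by norm_num) (by norm_num) (by norm_num) (by norm_num)) (expm_le (by norm_num) (by norm_num) (by norm_num)) (by norm_num)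
    (by norm_num) (by norm_num) (by norm_num) (by norm_num) (by norm_num) (by norm_num)
  have hy2 : sy κ t ≤ -0.257 := syL_le h 1.33 1.36 0.5277 0.257 0.77336 0.77337 0.14614 0.14945 hk1 hk2 (by linarith) (by norm_num) (by norm_num) (by norm_num)
    (expm_ge (by norm_num) (by norm_num) (by norm_num) (by norm_num)) (expm_le (by norm_num) (by norm_num) (by norm_num)) (by norm_num)
    (by norm_num) (by norm_num) (by norm_num) (by norm_num) (by norm_num) (by norm_num)
  have hy1' : (-0.288) ≤ sy κ t := by linarith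
  have hy2' : sy κ t ≤ (-0.257) := by linarith
  have hx1 : 1.6954 ≤ sx κ t := sx_lo h 1.33 (-0.257) 0.2881 1.29304 1.6954 hk1 (by norm_num) hy2' (abs_le.2 ⟨by linarith, by linarith⟩) (ex_lp 0.257 (by norm_num) (by norm_num) (by norm_num)) (by norm_num) (by norm_num)
  have hx2 : sx κ t ≤ 1.7957 := sx_hi h 1.36 (-0.288) 0.257 1.33376 1.7957 hk2 hy1' (by norm_num) (le_trans (by linarith) (neg_le_abs _)) (ex_up 0.288 (by norm_num) (by norm_num) (by norm_num) (by norm_num)) (by norm_num) (by norm_num)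
  refine ⟨⟨hy1', hy2'⟩, ⟨hx1, hx2⟩, v5_n h 1.36 (-0.288) 1.33376 1.814 hk2 hy1' (ex_up 0.288 (by norm_num) (by norm_num) (by norm_num) (by norm_num)) (by norm_num), ?_, ?_⟩
  · exact v5_Dlo h 1.33 (-0.288) (-0.257) (-0.257) 1.29304 3.4435 (by norm_num) hk1 hy1' hy2' (ex_lp 0.257 (by norm_num) (by norm_num) (by norm_num)) (by norm_num) (by norm_num) (by norm_num) (by norm_num)
  · exact v5_Dup h 1.36 (-0.288) (-0.257) 1.33376 1.29305 3.7143 hk2 hy1' hy2' (ex_up 0.288 (by norm_num) (by norm_num) (by norm_num) (by norm_num)) (ex_up 0.257 (by norm_num) (by norm_num) (by norm_num) (by norm_num)) (by norm_num) (by norm_num) (by norm_num)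

private theorem B5Lw_T46_0_0 {β x y : ℝ} (hβ : 0 < β) (hN : β * 7.352 ≤ 1) (hx1 : 0.7234 ≤ x) (hx2 : x ≤ 0.84)
    (hy1 : -0 ≤ y) (hy2 : y ≤ 0.469) : ‖HH β (x + y * I) - 1‖ ≤ 0.115 := by
  refine le_epsJ (C := 0.8446) (N0 := 7.352) (J_boxp 0.7234 0.84 0 0.469 0.469 1.2194 0.9621 1.6923 0.9661 0.519 2.7115 7.352 0.789 2.911 1.428 1.097 0.6096 0.4493 1.2559 3.5854 0.6585 1.4537 1.0059 1.3336 0.01133 0.03678 0.00009777 0.0000003101 0.007914 0.00002286 0.0006144 0.00005532 0.8446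
    hβ hN hx1 hx2 hy1 hy2 (by norm_num) (by norm_num) (by linarith) (by norm_num) (by norm_num) (by norm_num) (by norm_num) (by norm_num) (by norm_num) (by norm_num) (by norm_num) (by norm_num) (by norm_num) (by norm_num) (by norm_num) (by norm_num) (by norm_num) (by norm_num) (by norm_num) (by norm_num) (by norm_num) (by norm_num) (by norm_num) (by norm_num)
    (cube_sqrt_geJ (s := 0.8584) (by norm_num) (by norm_num) (by norm_num) (by norm_num))
    (cube_sqrt_geJ (s := 0.9504) (by norm_num) (by norm_num) (by norm_num) (by norm_num))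
    (by norm_num) (by norm_num) (by norm_num) (by norm_num) (by norm_num) (by norm_num) (by norm_num) (by norm_num) (by norm_num) (by norm_num) (by norm_num) (by norm_num) (by norm_num) (by norm_num) (by norm_num) (by norm_num) (by norm_num) (by norm_num)
    (exp_neg_leJ (r := 0.481) 4 (by norm_num) (by norm_num) (by norm_num) (by norm_num))
    (exp_neg_leJ (r := 0.303) 3 (by norm_num) (by norm_num) (by norm_num) (by norm_num))
    (exp_neg_leJ (r := 0.233) 9 (by norm_num) (by norm_num) (by norm_num) (by norm_num))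
    (exp_neg_leJ (r := 0.99) 14 (by norm_num) (by norm_num) (by norm_num) (by norm_num))
    (exp_neg_leJ (r := 0.841) 4 (by norm_num) (by norm_num) (by norm_num) (by norm_num))
    (exp_neg_leJ (r := 0.687) 10 (by norm_num) (by norm_num) (by norm_num) (by norm_num))
    (exp_neg_leJ (r := 0.395) 7 (by norm_num) (by norm_num) (by norm_num) (by norm_num))
    (exp_neg_leJ (r := 0.804) 9 (by norm_num) (by norm_num) (by norm_num) (by norm_num))
    (by norm_num)) (by norm_num) hN hβ.le (by norm_num)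

private theorem B5Lw_T46_0_1 {β x y : ℝ} (hβ : 0 < β) (hN : β * 7.352 ≤ 1) (hx1 : 0.84 ≤ x) (hx2 : x ≤ 0.999)
    (hy1 : -0 ≤ y) (hy2 : y ≤ 0.469) : ‖HH β (x + y * I) - 1‖ ≤ 0.115 := by
  refine le_epsJ (C := 0.8448) (N0 := 7.352) (J_boxp 0.84 0.999 0 0.469 0.469 1.3015 1.1037 1.7766 0.8977 0.5318 2.7115 7.352 0.8481 3.2 1.468 1.0358 0.6507 0.4667 1.2958 3.4982 0.7151 1.6152 1.2391 1.1819 0.008382 0.03236 0.00007295 0.0000003101 0.005212 0.000006984 0.0001107 0.0001686 0.8448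
    hβ hN hx1 hx2 hy1 hy2 (by norm_num) (by norm_num) (by linarith) (by norm_num) (by norm_num) (by norm_num) (by norm_num) (by norm_num) (by norm_num) (by norm_num) (by norm_num) (by norm_num) (by norm_num) (by norm_num) (by norm_num) (by norm_num) (by norm_num) (by norm_num) (by norm_num) (by norm_num) (by norm_num) (by norm_num) (by norm_num) (by norm_num)
    (cube_sqrt_geJ (s := 0.8469) (by norm_num) (by norm_num) (by norm_num) (by norm_num))
    (cube_sqrt_geJ (s := 0.9466) (by norm_num) (by norm_num) (by norm_num) (by norm_num))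
    (by norm_num) (by norm_num) (by norm_num) (by norm_num) (by norm_num) (by norm_num) (by norm_num) (by norm_num) (by norm_num) (by norm_num) (by norm_num) (by norm_num) (by norm_num) (by norm_num) (by norm_num) (by norm_num) (by norm_num) (by norm_num)
    (exp_neg_leJ (r := 0.783) 4 (by norm_num) (by norm_num) (by norm_num) (by norm_num))
    (exp_neg_leJ (r := 0.431) 3 (by norm_num) (by norm_num) (by norm_num) (by norm_num))
    (exp_neg_leJ (r := 0.526) 9 (by norm_num) (by norm_num) (by norm_num) (by norm_num))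
    (exp_neg_leJ (r := 0.99) 14 (by norm_num) (by norm_num) (by norm_num) (by norm_num))
    (exp_neg_leJ (r := 0.257) 5 (by norm_num) (by norm_num) (by norm_num) (by norm_num))
    (exp_neg_leJ (r := 0.874) 11 (by norm_num) (by norm_num) (by norm_num) (by norm_num))
    (exp_neg_leJ (r := 0.109) 9 (by norm_num) (by norm_num) (by norm_num) (by norm_num))
    (exp_neg_leJ (r := 0.689) 8 (by norm_num) (by norm_num) (by norm_num) (by norm_num))
    (by norm_num)) (by norm_num) hN hβ.le (by norm_num)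

private theorem B5Lw_T46_0_2 {β x y : ℝ} (hβ : 0 < β) (hN : β * 7.352 ≤ 1) (hx1 : 0.999 ≤ x) (hx2 : x ≤ 1.1756)
    (hy1 : -0 ≤ y) (hy2 : y ≤ 0.469) : ‖HH β (x + y * I) - 1‖ ≤ 0.115 := by
  refine le_epsJ (C := 0.8066) (N0 := 7.352) (J_boxp 0.999 1.1756 0 0.469 0.469 1.4134 1.2657 1.8815 0.8164 0.5473 2.7115 7.352 0.8956 3.46 1.502 0.9679 0.7066 0.4957 1.3502 3.4 0.7924 1.8353 1.5571 1.0595 0.00555 0.02617 0.00004902 0.0000003101 0.002958 0.000001381 0.00001069 0.0004149 0.8066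
    hβ hN hx1 hx2 hy1 hy2 (by norm_num) (by norm_num) (by linarith) (by norm_num) (by norm_num) (by norm_num) (by norm_num) (by norm_num) (by norm_num) (by norm_num) (by norm_num) (by norm_num) (by norm_num) (by norm_num) (by norm_num) (by norm_num) (by norm_num) (by norm_num) (by norm_num) (by norm_num) (by norm_num) (by norm_num) (by norm_num) (by norm_num)
    (cube_sqrt_geJ (s := 0.8375) (by norm_num) (by norm_num) (by norm_num) (by norm_num))
    (cube_sqrt_geJ (s := 0.9435) (by norm_num) (by norm_num) (by norm_num) (by norm_num))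
    (by norm_num) (by norm_num) (by norm_num) (by norm_num) (by norm_num) (by norm_num) (by norm_num) (by norm_num) (by norm_num) (by norm_num) (by norm_num) (by norm_num) (by norm_num) (by norm_num) (by norm_num) (by norm_num) (by norm_num) (by norm_num)
    (exp_neg_leJ (r := 0.194) 5 (by norm_num) (by norm_num) (by norm_num) (by norm_num))
    (exp_neg_leJ (r := 0.644) 3 (by norm_num) (by norm_num) (by norm_num) (by norm_num))
    (exp_neg_leJ (r := 0.926) 9 (by norm_num) (by norm_num) (by norm_num) (by norm_num))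
    (exp_neg_leJ (r := 0.99) 14 (by norm_num) (by norm_num) (by norm_num) (by norm_num))
    (exp_neg_leJ (r := 0.825) 5 (by norm_num) (by norm_num) (by norm_num) (by norm_num))
    (exp_neg_leJ (r := 0.493) 13 (by norm_num) (by norm_num) (by norm_num) (by norm_num))
    (exp_neg_leJ (r := 0.447) 11 (by norm_num) (by norm_num) (by norm_num) (by norm_num))
    (exp_neg_leJ (r := 0.789) 7 (by norm_num) (by norm_num) (by norm_num) (by norm_num))
    (by norm_num)) (by norm_num) hN hβ.le (by norm_num)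

private theorem B5Lw_T46_1_0 {β x y : ℝ} (hβ : 0 < β) (hN : β * 7.352 ≤ 1) (hx1 : 0.7234 ≤ x) (hx2 : x ≤ 0.806)
    (hy1 : -0 ≤ y) (hy2 : y ≤ 0.5111) : ‖HH β (x + y * I) - 1‖ ≤ 0.115 := by
  refine le_epsJ (C := 0.845) (N0 := 7.352) (J_boxp 0.7234 0.806 0 0.5111 0.5111 1.2194 0.9544 1.7127 0.9719 0.5221 2.7115 7.352 0.7827 2.882 1.423 1.1101 0.6096 0.4506 1.2559 3.5979 0.6542 1.4494 0.8253 1.1562 0.01133 0.03645 0.00009777 0.0000003101 0.008169 0.0000236 0.002319 0.0002036 0.845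
    hβ hN hx1 hx2 hy1 hy2 (by norm_num) (by norm_num) (by linarith) (by norm_num) (by norm_num) (by norm_num) (by norm_num) (by norm_num) (by norm_num) (by norm_num) (by norm_num) (by norm_num) (by norm_num) (by norm_num) (by norm_num) (by norm_num) (by norm_num) (by norm_num) (by norm_num) (by norm_num) (by norm_num) (by norm_num) (by norm_num) (by norm_num)
    (cube_sqrt_geJ (s := 0.8597) (by norm_num) (by norm_num) (by norm_num) (by norm_num))
    (cube_sqrt_geJ (s := 0.9508) (by norm_num) (by norm_num) (by norm_num) (by norm_num))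
    (by norm_num) (by norm_num) (by norm_num) (by norm_num) (by norm_num) (by norm_num) (by norm_num) (by norm_num) (by norm_num) (by norm_num) (by norm_num) (by norm_num) (by norm_num) (by norm_num) (by norm_num) (by norm_num) (by norm_num) (by norm_num)
    (exp_neg_leJ (r := 0.481) 4 (by norm_num) (by norm_num) (by norm_num) (by norm_num))
    (exp_neg_leJ (r := 0.312) 3 (by norm_num) (by norm_num) (by norm_num) (by norm_num))
    (exp_neg_leJ (r := 0.233) 9 (by norm_num) (by norm_num) (by norm_num) (by norm_num))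
    (exp_neg_leJ (r := 0.99) 14 (by norm_num) (by norm_num) (by norm_num) (by norm_num))
    (exp_neg_leJ (r := 0.809) 4 (by norm_num) (by norm_num) (by norm_num) (by norm_num))
    (exp_neg_leJ (r := 0.655) 10 (by norm_num) (by norm_num) (by norm_num) (by norm_num))
    (exp_neg_leJ (r := 0.067) 6 (by norm_num) (by norm_num) (by norm_num) (by norm_num))
    (exp_neg_leJ (r := 0.5) 8 (by norm_num) (by norm_num) (by norm_num) (by norm_num))
    (by norm_num)) (by norm_num) hN hβ.le (by norm_num)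

private theorem B5Lw_T46_1_1 {β x y : ℝ} (hβ : 0 < β) (hN : β * 7.352 ≤ 1) (hx1 : 0.806 ≤ x) (hx2 : x ≤ 0.925)
    (hy1 : -0 ≤ y) (hy2 : y ≤ 0.5111) : ‖HH β (x + y * I) - 1‖ ≤ 0.115 := by
  refine le_epsJ (C := 0.8444) (N0 := 7.352) (J_boxp 0.806 0.925 0 0.5111 0.5111 1.2775 1.0569 1.7718 0.9219 0.5311 2.7115 7.352 0.8274 3.095 1.454 1.0643 0.6387 0.4625 1.2841 3.5336 0.6943 1.5638 0.9905 1.0427 0.009148 0.03338 0.00007949 0.0000003101 0.006073 0.00001017 0.0006879 0.0004693 0.8444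
    hβ hN hx1 hx2 hy1 hy2 (by norm_num) (by norm_num) (by linarith) (by norm_num) (by norm_num) (by norm_num) (by norm_num) (by norm_num) (by norm_num) (by norm_num) (by norm_num) (by norm_num) (by norm_num) (by norm_num) (by norm_num) (by norm_num) (by norm_num) (by norm_num) (by norm_num) (by norm_num) (by norm_num) (by norm_num) (by norm_num) (by norm_num)
    (cube_sqrt_geJ (s := 0.8509) (by norm_num) (by norm_num) (by norm_num) (by norm_num))
    (cube_sqrt_geJ (s := 0.9479) (by norm_num) (by norm_num) (by norm_num) (by norm_num))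
    (by norm_num) (by norm_num) (by norm_num) (by norm_num) (by norm_num) (by norm_num) (by norm_num) (by norm_num) (by norm_num) (by norm_num) (by norm_num) (by norm_num) (by norm_num) (by norm_num) (by norm_num) (by norm_num) (by norm_num) (by norm_num)
    (exp_neg_leJ (r := 0.695) 4 (by norm_num) (by norm_num) (by norm_num) (by norm_num))
    (exp_neg_leJ (r := 0.4) 3 (by norm_num) (by norm_num) (by norm_num) (by norm_num))
    (exp_neg_leJ (r := 0.44) 9 (by norm_num) (by norm_num) (by norm_num) (by norm_num))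
    (exp_neg_leJ (r := 0.99) 14 (by norm_num) (by norm_num) (by norm_num) (by norm_num))
    (exp_neg_leJ (r := 0.104) 5 (by norm_num) (by norm_num) (by norm_num) (by norm_num))
    (exp_neg_leJ (r := 0.497) 11 (by norm_num) (by norm_num) (by norm_num) (by norm_num))
    (exp_neg_leJ (r := 0.282) 7 (by norm_num) (by norm_num) (by norm_num) (by norm_num))
    (exp_neg_leJ (r := 0.665) 7 (by norm_num) (by norm_num) (by norm_num) (by norm_num))
    (by norm_num)) (by norm_num) hN hβ.le (by norm_num)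

private theorem B5Lw_T46_1_2 {β x y : ℝ} (hβ : 0 < β) (hN : β * 7.352 ≤ 1) (hx1 : 0.925 ≤ x) (hx2 : x ≤ 1.083)
    (hy1 : -0 ≤ y) (hy2 : y ≤ 0.5111) : ‖HH β (x + y * I) - 1‖ ≤ 0.115 := by
  refine le_epsJ (C := 0.8441) (N0 := 7.352) (J_boxp 0.925 1.083 0 0.5111 0.5111 1.3613 1.1976 1.8592 0.8585 0.544 2.7115 7.352 0.8798 3.371 1.491 1.0035 0.6806 0.481 1.3249 3.4469 0.7521 1.7286 1.2285 0.8983 0.006718 0.02914 0.00005895 0.0000003101 0.003971 0.00000303 0.0001197 0.001356 0.8441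
    hβ hN hx1 hx2 hy1 hy2 (by norm_num) (by norm_num) (by linarith) (by norm_num) (by norm_num) (by norm_num) (by norm_num) (by norm_num) (by norm_num) (by norm_num) (by norm_num) (by norm_num) (by norm_num) (by norm_num) (by norm_num) (by norm_num) (by norm_num) (by norm_num) (by norm_num) (by norm_num) (by norm_num) (by norm_num) (by norm_num) (by norm_num)
    (cube_sqrt_geJ (s := 0.8406) (by norm_num) (by norm_num) (by norm_num) (by norm_num))
    (cube_sqrt_geJ (s := 0.9446) (by norm_num) (by norm_num) (by norm_num) (by norm_num))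
    (by norm_num) (by norm_num) (by norm_num) (by norm_num) (by norm_num) (by norm_num) (by norm_num) (by norm_num) (by norm_num) (by norm_num) (by norm_num) (by norm_num) (by norm_num) (by norm_num) (by norm_num) (by norm_num) (by norm_num) (by norm_num)
    (exp_neg_leJ (r := 0.003) 5 (by norm_num) (by norm_num) (by norm_num) (by norm_num))
    (exp_neg_leJ (r := 0.536) 3 (by norm_num) (by norm_num) (by norm_num) (by norm_num))
    (exp_neg_leJ (r := 0.74) 9 (by norm_num) (by norm_num) (by norm_num) (by norm_num))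
    (exp_neg_leJ (r := 0.99) 14 (by norm_num) (by norm_num) (by norm_num) (by norm_num))
    (exp_neg_leJ (r := 0.529) 5 (by norm_num) (by norm_num) (by norm_num) (by norm_num))
    (exp_neg_leJ (r := 0.708) 12 (by norm_num) (by norm_num) (by norm_num) (by norm_num))
    (exp_neg_leJ (r := 0.031) 9 (by norm_num) (by norm_num) (by norm_num) (by norm_num))
    (exp_neg_leJ (r := 0.604) 6 (by norm_num) (by norm_num) (by norm_num) (by norm_num))
    (by norm_num)) (by norm_num) hN hβ.le (by norm_num)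

private theorem B5Lw_T46_1_3 {β x y : ℝ} (hβ : 0 < β) (hN : β * 7.352 ≤ 1) (hx1 : 1.083 ≤ x) (hx2 : x ≤ 1.1756)
    (hy1 : -0 ≤ y) (hy2 : y ≤ 0.5111) : ‖HH β (x + y * I) - 1‖ ≤ 0.115 := by
  refine le_epsJ (C := 0.6983) (N0 := 7.352) (J_boxp 1.083 1.1756 0 0.5111 0.5111 1.4726 1.2819 1.9146 0.7744 0.5521 2.7115 7.352 0.8706 3.32 1.484 0.9679 0.7362 0.5226 1.379 3.3956 0.8289 1.9474 1.5445 0.9851 0.004464 0.02149 0.00003955 0.0000003101 0.002257 0.0000006057 0.00001172 0.0007159 0.6983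
    hβ hN hx1 hx2 hy1 hy2 (by norm_num) (by norm_num) (by linarith) (by norm_num) (by norm_num) (by norm_num) (by norm_num) (by norm_num) (by norm_num) (by norm_num) (by norm_num) (by norm_num) (by norm_num) (by norm_num) (by norm_num) (by norm_num) (by norm_num) (by norm_num) (by norm_num) (by norm_num) (by norm_num) (by norm_num) (by norm_num) (by norm_num)
    (cube_sqrt_geJ (s := 0.8424) (by norm_num) (by norm_num) (by norm_num) (by norm_num))
    (cube_sqrt_geJ (s := 0.9452) (by norm_num) (by norm_num) (by norm_num) (by norm_num))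
    (by norm_num) (by norm_num) (by norm_num) (by norm_num) (by norm_num) (by norm_num) (by norm_num) (by norm_num) (by norm_num) (by norm_num) (by norm_num) (by norm_num) (by norm_num) (by norm_num) (by norm_num) (by norm_num) (by norm_num) (by norm_num)
    (exp_neg_leJ (r := 0.412) 5 (by norm_num) (by norm_num) (by norm_num) (by norm_num))
    (exp_neg_leJ (r := 0.842) 3 (by norm_num) (by norm_num) (by norm_num) (by norm_num))
    (exp_neg_leJ (r := 0.138) 10 (by norm_num) (by norm_num) (by norm_num) (by norm_num))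
    (exp_neg_leJ (r := 0.99) 14 (by norm_num) (by norm_num) (by norm_num) (by norm_num))
    (exp_neg_leJ (r := 0.094) 6 (by norm_num) (by norm_num) (by norm_num) (by norm_num))
    (exp_neg_leJ (r := 0.317) 14 (by norm_num) (by norm_num) (by norm_num) (by norm_num))
    (exp_neg_leJ (r := 0.355) 11 (by norm_num) (by norm_num) (by norm_num) (by norm_num))
    (exp_neg_leJ (r := 0.242) 7 (by norm_num) (by norm_num) (by norm_num) (by norm_num))
    (by norm_num)) (by norm_num) hN hβ.le (by norm_num)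

private theorem B5Lw_T46 {β x y : ℝ} (hβ : 0 < β) (hN : β * 7.352 ≤ 1) (hx1 : 0.7234 ≤ x) (hx2 : x ≤ 1.1756)
    (hy1 : 0.0899 ≤ y) (hy2 : y ≤ 0.5111) : ‖HH β (x + y * I) - 1‖ ≤ 0.115 := by
  rcases le_total y 0.469 with hyy | hyy
  · rcases le_total x 0.84 with hxx | hxx
    · exact B5Lw_T46_0_0 hβ hN (by linarith) (by linarith) (by linarith) (by linarith)
    rcases le_total x 0.999 with hxx | hxx
    · exact B5Lw_T46_0_1 hβ hN (by linarith) (by linarith) (by linarith) (by linarith)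
    exact B5Lw_T46_0_2 hβ hN (by linarith) (by linarith) (by linarith) (by linarith)
  rcases le_total x 0.806 with hxx | hxx
  · exact B5Lw_T46_1_0 hβ hN (by linarith) (by linarith) (by linarith) (by linarith)
  rcases le_total x 0.925 with hxx | hxx
  · exact B5Lw_T46_1_1 hβ hN (by linarith) (by linarith) (by linarith) (by linarith)
  rcases le_total x 1.083 with hxx | hxx
  · exact B5Lw_T46_1_2 hβ hN (by linarith) (by linarith) (by linarith) (by linarith)
  exact B5Lw_T46_1_3 hβ hN (by linarith) (by linarith) (by linarith) (by linarith)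

private theorem B5Lw_T47_0_0 {β x y : ℝ} (hβ : 0 < β) (hN : β * 7.352 ≤ 1) (hx1 : 1.5453 ≤ x) (hx2 : x ≤ 1.57)
    (hy1 : -0.4381 ≤ y) (hy2 : y ≤ -0.118) : ‖HH β (x + y * I) - 1‖ ≤ 0.16 := by
  refine le_epsJ (C := 1.1753) (N0 := 7.352) (J_boxp 1.5453 1.57 0.4381 0 (-0.118) 1.487 1.63 1.8008 0.7401 0.5354 2.7115 7.352 1.0962 4.913 1.657 0.4118 0.7434 0.4718 0.8457 1.8051 0.8662 2.6396 3.4704 3.3718 0.004233 0.03119 0.001996 0.000001724 0.001716 0.0000003101 0.0000003101 0.0000003101 1.1753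
    hβ hN hx1 hx2 hy1 hy2 (by norm_num) (by norm_num) (by linarith) (by norm_num) (by norm_num) (by norm_num) (by norm_num) (by norm_num) (by norm_num) (by norm_num) (by norm_num) (by norm_num) (by norm_num) (by norm_num) (by norm_num) (by norm_num) (by norm_num) (by norm_num) (by norm_num) (by norm_num) (by norm_num) (by norm_num) (by norm_num) (by norm_num)
    (cube_sqrt_geJ (s := 0.7966) (by norm_num) (by norm_num) (by norm_num) (by norm_num))
    (cube_sqrt_geJ (s := 0.9304) (by norm_num) (by norm_num) (by norm_num) (by norm_num))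
    (by norm_num) (by norm_num) (by norm_num) (by norm_num) (by norm_num) (by norm_num) (by norm_num) (by norm_num) (by norm_num) (by norm_num) (by norm_num) (by norm_num) (by norm_num) (by norm_num) (by norm_num) (by norm_num) (by norm_num) (by norm_num)
    (exp_neg_leJ (r := 0.465) 5 (by norm_num) (by norm_num) (by norm_num) (by norm_num))
    (exp_neg_leJ (r := 0.468) 3 (by norm_num) (by norm_num) (by norm_num) (by norm_num))
    (exp_neg_leJ (r := 0.217) 6 (by norm_num) (by norm_num) (by norm_num) (by norm_num))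
    (exp_neg_leJ (r := 0.271) 13 (by norm_num) (by norm_num) (by norm_num) (by norm_num))
    (exp_neg_leJ (r := 0.368) 6 (by norm_num) (by norm_num) (by norm_num) (by norm_num))
    (exp_neg_leJ (r := 0.99) 14 (by norm_num) (by norm_num) (by norm_num) (by norm_num))
    (exp_neg_leJ (r := 0.99) 14 (by norm_num) (by norm_num) (by norm_num) (by norm_num))
    (exp_neg_leJ (r := 0.99) 14 (by norm_num) (by norm_num) (by norm_num) (by norm_num))
    (by norm_num)) (by norm_num) hN hβ.le (by norm_num)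

private theorem B5Lw_T47_0_1 {β x y : ℝ} (hβ : 0 < β) (hN : β * 7.352 ≤ 1) (hx1 : 1.57 ≤ x) (hx2 : x ≤ 1.6)
    (hy1 : -0.4381 ≤ y) (hy2 : y ≤ -0.118) : ‖HH β (x + y * I) - 1‖ ≤ 0.16 := by
  refine le_epsJ (C := 1.1758) (N0 := 7.352) (J_boxp 1.57 1.6 0.4381 0 (-0.118) 1.5044 1.6589 1.827 0.7326 0.5393 2.7115 7.352 1.1027 4.972 1.662 0.4003 0.7521 0.4757 0.8541 1.7881 0.8782 2.6738 3.5198 3.3427 0.003971 0.0303 0.001876 0.000001954 0.001572 0.0000003101 0.0000003101 0.0000003101 1.1758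
    hβ hN hx1 hx2 hy1 hy2 (by norm_num) (by norm_num) (by linarith) (by norm_num) (by norm_num) (by norm_num) (by norm_num) (by norm_num) (by norm_num) (by norm_num) (by norm_num) (by norm_num) (by norm_num) (by norm_num) (by norm_num) (by norm_num) (by norm_num) (by norm_num) (by norm_num) (by norm_num) (by norm_num) (by norm_num) (by norm_num) (by norm_num)
    (cube_sqrt_geJ (s := 0.7952) (by norm_num) (by norm_num) (by norm_num) (by norm_num))
    (cube_sqrt_geJ (s := 0.93) (by norm_num) (by norm_num) (by norm_num) (by norm_num))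
    (by norm_num) (by norm_num) (by norm_num) (by norm_num) (by norm_num) (by norm_num) (by norm_num) (by norm_num) (by norm_num) (by norm_num) (by norm_num) (by norm_num) (by norm_num) (by norm_num) (by norm_num) (by norm_num) (by norm_num) (by norm_num)
    (exp_neg_leJ (r := 0.529) 5 (by norm_num) (by norm_num) (by norm_num) (by norm_num))
    (exp_neg_leJ (r := 0.497) 3 (by norm_num) (by norm_num) (by norm_num) (by norm_num))
    (exp_neg_leJ (r := 0.279) 6 (by norm_num) (by norm_num) (by norm_num) (by norm_num))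
    (exp_neg_leJ (r := 0.146) 13 (by norm_num) (by norm_num) (by norm_num) (by norm_num))
    (exp_neg_leJ (r := 0.456) 6 (by norm_num) (by norm_num) (by norm_num) (by norm_num))
    (exp_neg_leJ (r := 0.99) 14 (by norm_num) (by norm_num) (by norm_num) (by norm_num))
    (exp_neg_leJ (r := 0.99) 14 (by norm_num) (by norm_num) (by norm_num) (by norm_num))
    (exp_neg_leJ (r := 0.99) 14 (by norm_num) (by norm_num) (by norm_num) (by norm_num))
    (by norm_num)) (by norm_num) hN hβ.le (by norm_num)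

private theorem B5Lw_T47_0_2 {β x y : ℝ} (hβ : 0 < β) (hN : β * 7.352 ≤ 1) (hx1 : 1.6 ≤ x) (hx2 : x ≤ 1.636)
    (hy1 : -0.4381 ≤ y) (hy2 : y ≤ -0.118) : ‖HH β (x + y * I) - 1‖ ≤ 0.16 := by
  refine le_epsJ (C := 1.1758) (N0 := 7.352) (J_boxp 1.6 1.636 0.4381 0 (-0.118) 1.5256 1.6937 1.8587 0.7236 0.5439 2.7115 7.352 1.1102 5.041 1.668 0.3864 0.7627 0.4805 0.8644 1.7676 0.8928 2.7153 3.5798 3.3081 0.003674 0.02926 0.001739 0.000002292 0.001413 0.0000003101 0.0000003101 0.0000003101 1.1758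
    hβ hN hx1 hx2 hy1 hy2 (by norm_num) (by norm_num) (by linarith) (by norm_num) (by norm_num) (by norm_num) (by norm_num) (by norm_num) (by norm_num) (by norm_num) (by norm_num) (by norm_num) (by norm_num) (by norm_num) (by norm_num) (by norm_num) (by norm_num) (by norm_num) (by norm_num) (by norm_num) (by norm_num) (by norm_num) (by norm_num) (by norm_num)
    (cube_sqrt_geJ (s := 0.7936) (by norm_num) (by norm_num) (by norm_num) (by norm_num))
    (cube_sqrt_geJ (s := 0.9295) (by norm_num) (by norm_num) (by norm_num) (by norm_num))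
    (by norm_num) (by norm_num) (by norm_num) (by norm_num) (by norm_num) (by norm_num) (by norm_num) (by norm_num) (by norm_num) (by norm_num) (by norm_num) (by norm_num) (by norm_num) (by norm_num) (by norm_num) (by norm_num) (by norm_num) (by norm_num)
    (exp_neg_leJ (r := 0.607) 5 (by norm_num) (by norm_num) (by norm_num) (by norm_num))
    (exp_neg_leJ (r := 0.532) 3 (by norm_num) (by norm_num) (by norm_num) (by norm_num))
    (exp_neg_leJ (r := 0.355) 6 (by norm_num) (by norm_num) (by norm_num) (by norm_num))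
    (exp_neg_leJ (r := 0.99) 12 (by norm_num) (by norm_num) (by norm_num) (by norm_num))
    (exp_neg_leJ (r := 0.563) 6 (by norm_num) (by norm_num) (by norm_num) (by norm_num))
    (exp_neg_leJ (r := 0.99) 14 (by norm_num) (by norm_num) (by norm_num) (by norm_num))
    (exp_neg_leJ (r := 0.99) 14 (by norm_num) (by norm_num) (by norm_num) (by norm_num))
    (exp_neg_leJ (r := 0.99) 14 (by norm_num) (by norm_num) (by norm_num) (by norm_num))
    (by norm_num)) (by norm_num) hN hβ.le (by norm_num)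

private theorem B5Lw_T47_0_3 {β x y : ℝ} (hβ : 0 < β) (hN : β * 7.352 ≤ 1) (hx1 : 1.636 ≤ x) (hx2 : x ≤ 1.679)
    (hy1 : -0.4381 ≤ y) (hy2 : y ≤ -0.118) : ‖HH β (x + y * I) - 1‖ ≤ 0.16 := by
  refine le_epsJ (C := 1.1757) (N0 := 7.352) (J_boxp 1.636 1.679 0.4381 0 (-0.118) 1.5509 1.7353 1.8966 0.7131 0.5495 2.7115 7.352 1.1189 5.123 1.675 0.3699 0.7754 0.4862 0.8767 1.7431 0.9103 2.7652 3.6518 3.267 0.003349 0.02806 0.001589 0.000002724 0.001242 0.0000003101 0.0000003101 0.0000003101 1.1757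
    hβ hN hx1 hx2 hy1 hy2 (by norm_num) (by norm_num) (by linarith) (by norm_num) (by norm_num) (by norm_num) (by norm_num) (by norm_num) (by norm_num) (by norm_num) (by norm_num) (by norm_num) (by norm_num) (by norm_num) (by norm_num) (by norm_num) (by norm_num) (by norm_num) (by norm_num) (by norm_num) (by norm_num) (by norm_num) (by norm_num) (by norm_num)
    (cube_sqrt_geJ (s := 0.7918) (by norm_num) (by norm_num) (by norm_num) (by norm_num))
    (cube_sqrt_geJ (s := 0.9289) (by norm_num) (by norm_num) (by norm_num) (by norm_num))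
    (by norm_num) (by norm_num) (by norm_num) (by norm_num) (by norm_num) (by norm_num) (by norm_num) (by norm_num) (by norm_num) (by norm_num) (by norm_num) (by norm_num) (by norm_num) (by norm_num) (by norm_num) (by norm_num) (by norm_num) (by norm_num)
    (exp_neg_leJ (r := 0.7) 5 (by norm_num) (by norm_num) (by norm_num) (by norm_num))
    (exp_neg_leJ (r := 0.574) 3 (by norm_num) (by norm_num) (by norm_num) (by norm_num))
    (exp_neg_leJ (r := 0.445) 6 (by norm_num) (by norm_num) (by norm_num) (by norm_num))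
    (exp_neg_leJ (r := 0.815) 12 (by norm_num) (by norm_num) (by norm_num) (by norm_num))
    (exp_neg_leJ (r := 0.692) 6 (by norm_num) (by norm_num) (by norm_num) (by norm_num))
    (exp_neg_leJ (r := 0.99) 14 (by norm_num) (by norm_num) (by norm_num) (by norm_num))
    (exp_neg_leJ (r := 0.99) 14 (by norm_num) (by norm_num) (by norm_num) (by norm_num))
    (exp_neg_leJ (r := 0.99) 14 (by norm_num) (by norm_num) (by norm_num) (by norm_num))
    (by norm_num)) (by norm_num) hN hβ.le (by norm_num)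

private theorem B5Lw_T47_0_4 {β x y : ℝ} (hβ : 0 < β) (hN : β * 7.352 ≤ 1) (hx1 : 1.679 ≤ x) (hx2 : x ≤ 1.73)
    (hy1 : -0.4381 ≤ y) (hy2 : y ≤ -0.118) : ‖HH β (x + y * I) - 1‖ ≤ 0.16 := by
  refine le_epsJ (C := 1.175) (N0 := 7.352) (J_boxp 1.679 1.73 0.4381 0 (-0.118) 1.5812 1.7847 1.9419 0.7009 0.556 2.7115 7.352 1.1287 5.218 1.684 0.3503 0.7905 0.4931 0.8914 1.7141 0.9312 2.8247 3.7378 3.2187 0.002999 0.02667 0.001427 0.000003367 0.001066 0.0000003101 0.0000003101 0.0000003101 1.175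
    hβ hN hx1 hx2 hy1 hy2 (by norm_num) (by norm_num) (by linarith) (by norm_num) (by norm_num) (by norm_num) (by norm_num) (by norm_num) (by norm_num) (by norm_num) (by norm_num) (by norm_num) (by norm_num) (by norm_num) (by norm_num) (by norm_num) (by norm_num) (by norm_num) (by norm_num) (by norm_num) (by norm_num) (by norm_num) (by norm_num) (by norm_num)
    (cube_sqrt_geJ (s := 0.7897) (by norm_num) (by norm_num) (by norm_num) (by norm_num))
    (cube_sqrt_geJ (s := 0.9283) (by norm_num) (by norm_num) (by norm_num) (by norm_num))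
    (by norm_num) (by norm_num) (by norm_num) (by norm_num) (by norm_num) (by norm_num) (by norm_num) (by norm_num) (by norm_num) (by norm_num) (by norm_num) (by norm_num) (by norm_num) (by norm_num) (by norm_num) (by norm_num) (by norm_num) (by norm_num)
    (exp_neg_leJ (r := 0.811) 5 (by norm_num) (by norm_num) (by norm_num) (by norm_num))
    (exp_neg_leJ (r := 0.625) 3 (by norm_num) (by norm_num) (by norm_num) (by norm_num))
    (exp_neg_leJ (r := 0.553) 6 (by norm_num) (by norm_num) (by norm_num) (by norm_num))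
    (exp_neg_leJ (r := 0.602) 12 (by norm_num) (by norm_num) (by norm_num) (by norm_num))
    (exp_neg_leJ (r := 0.846) 6 (by norm_num) (by norm_num) (by norm_num) (by norm_num))
    (exp_neg_leJ (r := 0.99) 14 (by norm_num) (by norm_num) (by norm_num) (by norm_num))
    (exp_neg_leJ (r := 0.99) 14 (by norm_num) (by norm_num) (by norm_num) (by norm_num))
    (exp_neg_leJ (r := 0.99) 14 (by norm_num) (by norm_num) (by norm_num) (by norm_num))
    (by norm_num)) (by norm_num) hN hβ.le (by norm_num)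

private theorem B5Lw_T47_0_5 {β x y : ℝ} (hβ : 0 < β) (hN : β * 7.352 ≤ 1) (hx1 : 1.73 ≤ x) (hx2 : x ≤ 1.791)
    (hy1 : -0.4381 ≤ y) (hy2 : y ≤ -0.118) : ‖HH β (x + y * I) - 1‖ ≤ 0.16 := by
  refine le_epsJ (C := 1.1754) (N0 := 7.352) (J_boxp 1.73 1.791 0.4381 0 (-0.118) 1.6171 1.8439 1.9964 0.6871 0.5637 2.7115 7.352 1.1403 5.333 1.693 0.3268 0.8085 0.5012 0.9089 1.6793 0.9559 2.8953 3.8398 3.1598 0.00263 0.02515 0.001255 0.000004348 0.0008876 0.0000003101 0.0000003101 0.0000003101 1.1754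
    hβ hN hx1 hx2 hy1 hy2 (by norm_num) (by norm_num) (by linarith) (by norm_num) (by norm_num) (by norm_num) (by norm_num) (by norm_num) (by norm_num) (by norm_num) (by norm_num) (by norm_num) (by norm_num) (by norm_num) (by norm_num) (by norm_num) (by norm_num) (by norm_num) (by norm_num) (by norm_num) (by norm_num) (by norm_num) (by norm_num) (by norm_num)
    (cube_sqrt_geJ (s := 0.7873) (by norm_num) (by norm_num) (by norm_num) (by norm_num))
    (cube_sqrt_geJ (s := 0.9275) (by norm_num) (by norm_num) (by norm_num) (by norm_num))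
    (by norm_num) (by norm_num) (by norm_num) (by norm_num) (by norm_num) (by norm_num) (by norm_num) (by norm_num) (by norm_num) (by norm_num) (by norm_num) (by norm_num) (by norm_num) (by norm_num) (by norm_num) (by norm_num) (by norm_num) (by norm_num)
    (exp_neg_leJ (r := 0.944) 5 (by norm_num) (by norm_num) (by norm_num) (by norm_num))
    (exp_neg_leJ (r := 0.684) 3 (by norm_num) (by norm_num) (by norm_num) (by norm_num))
    (exp_neg_leJ (r := 0.682) 6 (by norm_num) (by norm_num) (by norm_num) (by norm_num))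
    (exp_neg_leJ (r := 0.346) 12 (by norm_num) (by norm_num) (by norm_num) (by norm_num))
    (exp_neg_leJ (r := 0.027) 7 (by norm_num) (by norm_num) (by norm_num) (by norm_num))
    (exp_neg_leJ (r := 0.99) 14 (by norm_num) (by norm_num) (by norm_num) (by norm_num))
    (exp_neg_leJ (r := 0.99) 14 (by norm_num) (by norm_num) (by norm_num) (by norm_num))
    (exp_neg_leJ (r := 0.99) 14 (by norm_num) (by norm_num) (by norm_num) (by norm_num))
    (by norm_num)) (by norm_num) hN hβ.le (by norm_num)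

private theorem B5Lw_T47_0_6 {β x y : ℝ} (hβ : 0 < β) (hN : β * 7.352 ≤ 1) (hx1 : 1.791 ≤ x) (hx2 : x ≤ 1.864)
    (hy1 : -0.4381 ≤ y) (hy2 : y ≤ -0.118) : ‖HH β (x + y * I) - 1‖ ≤ 0.16 := by
  refine le_epsJ (C := 1.1759) (N0 := 7.352) (J_boxp 1.791 1.864 0.4381 0 (-0.118) 1.6601 1.9148 2.0622 0.6714 0.5729 2.7115 7.352 1.1535 5.467 1.705 0.2987 0.83 0.5108 0.9298 1.6376 0.9856 2.9798 3.9618 3.089 0.002239 0.02343 0.001078 0.00000591 0.0007131 0.0000003101 0.0000003101 0.0000003101 1.1759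
    hβ hN hx1 hx2 hy1 hy2 (by norm_num) (by norm_num) (by linarith) (by norm_num) (by norm_num) (by norm_num) (by norm_num) (by norm_num) (by norm_num) (by norm_num) (by norm_num) (by norm_num) (by norm_num) (by norm_num) (by norm_num) (by norm_num) (by norm_num) (by norm_num) (by norm_num) (by norm_num) (by norm_num) (by norm_num) (by norm_num) (by norm_num)
    (cube_sqrt_geJ (s := 0.7845) (by norm_num) (by norm_num) (by norm_num) (by norm_num))
    (cube_sqrt_geJ (s := 0.9266) (by norm_num) (by norm_num) (by norm_num) (by norm_num))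
    (by norm_num) (by norm_num) (by norm_num) (by norm_num) (by norm_num) (by norm_num) (by norm_num) (by norm_num) (by norm_num) (by norm_num) (by norm_num) (by norm_num) (by norm_num) (by norm_num) (by norm_num) (by norm_num) (by norm_num) (by norm_num)
    (exp_neg_leJ (r := 0.102) 6 (by norm_num) (by norm_num) (by norm_num) (by norm_num))
    (exp_neg_leJ (r := 0.755) 3 (by norm_num) (by norm_num) (by norm_num) (by norm_num))
    (exp_neg_leJ (r := 0.835) 6 (by norm_num) (by norm_num) (by norm_num) (by norm_num))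
    (exp_neg_leJ (r := 0.039) 12 (by norm_num) (by norm_num) (by norm_num) (by norm_num))
    (exp_neg_leJ (r := 0.246) 7 (by norm_num) (by norm_num) (by norm_num) (by norm_num))
    (exp_neg_leJ (r := 0.99) 14 (by norm_num) (by norm_num) (by norm_num) (by norm_num))
    (exp_neg_leJ (r := 0.99) 14 (by norm_num) (by norm_num) (by norm_num) (by norm_num))
    (exp_neg_leJ (r := 0.99) 14 (by norm_num) (by norm_num) (by norm_num) (by norm_num))
    (by norm_num)) (by norm_num) hN hβ.le (by norm_num)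

private theorem B5Lw_T47_0_7 {β x y : ℝ} (hβ : 0 < β) (hN : β * 7.352 ≤ 1) (hx1 : 1.864 ≤ x) (hx2 : x ≤ 1.9458)
    (hy1 : -0.4381 ≤ y) (hy2 : y ≤ -0.118) : ‖HH β (x + y * I) - 1‖ ≤ 0.16 := by
  refine le_epsJ (C := 1.1658) (N0 := 7.352) (J_boxp 1.864 1.9458 0.4381 0 (-0.118) 1.7115 1.9946 2.1364 0.6528 0.5832 2.7115 7.352 1.1655 5.594 1.715 0.2673 0.8557 0.5232 0.9548 1.5909 1.021 3.0809 4.1078 3.0181 0.001853 0.02141 0.0008948 0.000008334 0.0005499 0.0000003101 0.0000003101 0.0000003101 1.1658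
    hβ hN hx1 hx2 hy1 hy2 (by norm_num) (by norm_num) (by linarith) (by norm_num) (by norm_num) (by norm_num) (by norm_num) (by norm_num) (by norm_num) (by norm_num) (by norm_num) (by norm_num) (by norm_num) (by norm_num) (by norm_num) (by norm_num) (by norm_num) (by norm_num) (by norm_num) (by norm_num) (by norm_num) (by norm_num) (by norm_num) (by norm_num)
    (cube_sqrt_geJ (s := 0.7819) (by norm_num) (by norm_num) (by norm_num) (by norm_num))
    (cube_sqrt_geJ (s := 0.9259) (by norm_num) (by norm_num) (by norm_num) (by norm_num))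
    (by norm_num) (by norm_num) (by norm_num) (by norm_num) (by norm_num) (by norm_num) (by norm_num) (by norm_num) (by norm_num) (by norm_num) (by norm_num) (by norm_num) (by norm_num) (by norm_num) (by norm_num) (by norm_num) (by norm_num) (by norm_num)
    (exp_neg_leJ (r := 0.291) 6 (by norm_num) (by norm_num) (by norm_num) (by norm_num))
    (exp_neg_leJ (r := 0.846) 3 (by norm_num) (by norm_num) (by norm_num) (by norm_num))
    (exp_neg_leJ (r := 0.019) 7 (by norm_num) (by norm_num) (by norm_num) (by norm_num))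
    (exp_neg_leJ (r := 0.696) 11 (by norm_num) (by norm_num) (by norm_num) (by norm_num))
    (exp_neg_leJ (r := 0.506) 7 (by norm_num) (by norm_num) (by norm_num) (by norm_num))
    (exp_neg_leJ (r := 0.99) 14 (by norm_num) (by norm_num) (by norm_num) (by norm_num))
    (exp_neg_leJ (r := 0.99) 14 (by norm_num) (by norm_num) (by norm_num) (by norm_num))
    (exp_neg_leJ (r := 0.99) 14 (by norm_num) (by norm_num) (by norm_num) (by norm_num))
    (by norm_num)) (by norm_num) hN hβ.le (by norm_num)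

private theorem B5Lw_T47_1_0 {β x y : ℝ} (hβ : 0 < β) (hN : β * 7.352 ≤ 1) (hx1 : 1.5453 ≤ x) (hx2 : x ≤ 1.9458)
    (hy1 : -0.118 ≤ y) (hy2 : y ≤ -0.1069) : ‖HH β (x + y * I) - 1‖ ≤ 0.16 := by
  refine le_epsJ (C := 1.0735) (N0 := 7.352) (J_boxp 1.5453 1.9458 0.118 0 (-0.1069) 1.7143 1.9494 2.141 0.6519 0.5838 2.7115 7.352 1.1372 5.302 1.691 0.5628 0.8571 0.5322 1.3509 2.6077 1.0411 2.6396 4.3405 2.5036 0.001835 0.02006 0.00004878 0.0000003101 0.0004745 0.0000003101 0.0000003101 0.0000003101 1.0735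
    hβ hN hx1 hx2 hy1 hy2 (by norm_num) (by norm_num) (by linarith) (by norm_num) (by norm_num) (by norm_num) (by norm_num) (by norm_num) (by norm_num) (by norm_num) (by norm_num) (by norm_num) (by norm_num) (by norm_num) (by norm_num) (by norm_num) (by norm_num) (by norm_num) (by norm_num) (by norm_num) (by norm_num) (by norm_num) (by norm_num) (by norm_num)
    (cube_sqrt_geJ (s := 0.7879) (by norm_num) (by norm_num) (by norm_num) (by norm_num))
    (cube_sqrt_geJ (s := 0.9277) (by norm_num) (by norm_num) (by norm_num) (by norm_num))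
    (by norm_num) (by norm_num) (by norm_num) (by norm_num) (by norm_num) (by norm_num) (by norm_num) (by norm_num) (by norm_num) (by norm_num) (by norm_num) (by norm_num) (by norm_num) (by norm_num) (by norm_num) (by norm_num) (by norm_num) (by norm_num)
    (exp_neg_leJ (r := 0.301) 6 (by norm_num) (by norm_num) (by norm_num) (by norm_num))
    (exp_neg_leJ (r := 0.912) 3 (by norm_num) (by norm_num) (by norm_num) (by norm_num))
    (exp_neg_leJ (r := 0.931) 9 (by norm_num) (by norm_num) (by norm_num) (by norm_num))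
    (exp_neg_leJ (r := 0.99) 14 (by norm_num) (by norm_num) (by norm_num) (by norm_num))
    (exp_neg_leJ (r := 0.654) 7 (by norm_num) (by norm_num) (by norm_num) (by norm_num))
    (exp_neg_leJ (r := 0.99) 14 (by norm_num) (by norm_num) (by norm_num) (by norm_num))
    (exp_neg_leJ (r := 0.99) 14 (by norm_num) (by norm_num) (by norm_num) (by norm_num))
    (exp_neg_leJ (r := 0.99) 14 (by norm_num) (by norm_num) (by norm_num) (by norm_num))
    (by norm_num)) (by norm_num) hN hβ.le (by norm_num)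

private theorem B5Lw_T47 {β x y : ℝ} (hβ : 0 < β) (hN : β * 7.352 ≤ 1) (hx1 : 1.5453 ≤ x) (hx2 : x ≤ 1.9458)
    (hy1 : (-0.4381) ≤ y) (hy2 : y ≤ (-0.1069)) : ‖HH β (x + y * I) - 1‖ ≤ 0.16 := by
  rcases le_total y (-0.118) with hyy | hyy
  · rcases le_total x 1.57 with hxx | hxx
    · exact B5Lw_T47_0_0 hβ hN (by linarith) (by linarith) (by linarith) (by linarith)
    rcases le_total x 1.6 with hxx | hxx
    · exact B5Lw_T47_0_1 hβ hN (by linarith) (by linarith) (by linarith) (by linarith)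
    rcases le_total x 1.636 with hxx | hxx
    · exact B5Lw_T47_0_2 hβ hN (by linarith) (by linarith) (by linarith) (by linarith)
    rcases le_total x 1.679 with hxx | hxx
    · exact B5Lw_T47_0_3 hβ hN (by linarith) (by linarith) (by linarith) (by linarith)
    rcases le_total x 1.73 with hxx | hxx
    · exact B5Lw_T47_0_4 hβ hN (by linarith) (by linarith) (by linarith) (by linarith)
    rcases le_total x 1.791 with hxx | hxx
    · exact B5Lw_T47_0_5 hβ hN (by linarith) (by linarith) (by linarith) (by linarith)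
    rcases le_total x 1.864 with hxx | hxx
    · exact B5Lw_T47_0_6 hβ hN (by linarith) (by linarith) (by linarith) (by linarith)
    exact B5Lw_T47_0_7 hβ hN (by linarith) (by linarith) (by linarith) (by linarith)
  exact B5Lw_T47_1_0 hβ hN (by linarith) (by linarith) (by linarith) (by linarith)

private theorem B5Lw_C48 {β r t κ : ℝ} (hβ : 0 < β) (hr : 10 ≤ r) (hκ : κ = β * r) (hk1 : 1.33 ≤ κ) (hk2 : κ ≤ 1.36) (hta : 1.931 ≤ t + κ)
    (htb : t + κ ≤ 2.1216) : ‖F (cexp (I * β)) (r * cexp (I * ((t + β / 2 : ℝ) : ℂ)))‖ ≤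
      1.7618 * Real.exp (r * (1.28647 - 0.41 * (t + κ))) + 0.2161 * Real.exp (r * 0) :=
  v5_H 0.41 1.33 1.36 1.931 2.1216 1.28647 1.6799 0.32784 0.1472 2.1416 0.779 0.08484 0.433 0.000123 1.7618 0.2161 hβ hr hκ (by norm_num) hk1 hk2 hta htb (by norm_num) (B5Lw_G27 hk1 hk2).1 (B5Lw_G27 hk1 hk2).2 (by norm_num) (by norm_num) (by norm_num)
    (by norm_num) (by norm_num) (by norm_num) (by norm_num) (by norm_num) (by norm_num) (by norm_num) (by norm_num) (ex_un 0 0.8483 (by norm_num) (by norm_num) (by norm_num) (by norm_num))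
    (v5_hump 1.2535 7.352 2.7115 0.00009948 0.000123 hβ hr hκ hk1 hk2 (by norm_num) htb (by norm_num) (by norm_num) (by norm_num) (by norm_num) (by norm_num) (by norm_num) (by norm_num) (ex_un 9 0.2157 (by norm_num) (by norm_num) (by norm_num) (by norm_num)) (by norm_num)) (by norm_num) (by norm_num)

private theorem B5Lw_G49 {κ : ℝ} (hk1 : 1.33 ≤ κ) (hk2 : κ ≤ 1.36) : gG κ (-0.58) ≤ 1.48887 ∧ 4.67748 ≤ Real.exp (-(κ * (-0.58))) ^ 2 := by
  refine ⟨gG_le (-0.58) 1.33 1.36 1.48887 2.1628 2.20076 0.46238 0.4544 hk1 hk2 (by norm_num)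
    (ex_up 0.7714 (by norm_num) (by norm_num) (by norm_num) (by norm_num)) (ex_up 0.7888 (by norm_num) (by norm_num) (by norm_num) (by norm_num))
    (ex_um 0.7714 (by norm_num) (by norm_num) (by norm_num) (by norm_num)) (ex_um 0.7888 (by norm_num) (by norm_num) (by norm_num) (by norm_num))
    (by norm_num) (by norm_num), ?_⟩
  exact v5_M 2.16275 (ex_lp 0.7714 (by linarith) (by norm_num) (by norm_num)) (by norm_num) (by norm_num)

private theorem B5Lw_C50 {β r t κ : ℝ} (hβ : 0 < β) (hr : 10 ≤ r) (hκ : κ = β * r) (hk1 : 1.33 ≤ κ) (hk2 : κ ≤ 1.36) (hta : (-1.8389) ≤ t + κ)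
    (htb : t + κ ≤ (-1.6483)) : ‖F (cexp (I * β)) (r * cexp (I * ((t + β / 2 : ℝ) : ℂ)))‖ ≤
      0.7358 * Real.exp (r * (1.48887 - (-0.58) * (t + κ))) + 1.6401 * Real.exp (r * 0.0501) :=
  v5_HU (-0.58) 1.33 1.36 (-1.8389) (-1.6483) 1.48887 0.7358 4.67748 0.1472 0.6636 1.513 0 0.0501 0.00000115 1.6401 hβ hr hκ (by norm_num) hk1 hk2 hta htb (by norm_num) (by norm_num) (B5Lw_G49 hk1 hk2).1 (B5Lw_G49 hk1 hk2).2 (by norm_num) (by norm_num) (by norm_num)
    (by norm_num) (by norm_num) (by norm_num) (by norm_num) (by norm_num) (by norm_num) (by norm_num)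
    (by norm_num) (by norm_num) (by norm_num) (v5_hump 5.0234 7.352 2.7115 0.0000009316 0.00000115 hβ hr hκ hk1 hk2 (by norm_num) htb (by norm_num) (by norm_num) (by norm_num) (by norm_num) (by norm_num) (by norm_num) (by norm_num) (ex_un 13 0.9 (by norm_num) (by norm_num) (by norm_num) (by norm_num)) (by norm_num)) (by norm_num)

private theorem B5Lw_C51 {β r t κ : ℝ} (hβ : 0 < β) (hr : 10 ≤ r) (hκ : κ = β * r) (hk1 : 1.33 ≤ κ) (hk2 : κ ≤ 1.36) (hta : 3.1876 ≤ t + κ)
    (htb : t + κ ≤ 3.3782) : ‖F (cexp (I * β)) (r * cexp (I * ((t + β / 2 : ℝ) : ℂ)))‖ ≤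
      2.0614 * Real.exp (r * (0.01 + 1 / 20)) :=
  v5_UD 1.33 1.36 3.1876 3.3782 0.01 0.346 0.01 1.0747 2.0614 hβ hr hκ (by norm_num) hk1 hk2 hta htb (by norm_num) (by norm_num) (by norm_num) (by norm_num) (by norm_num) (by norm_num) (by norm_num) (by norm_num) (by norm_num) (by norm_num) (by norm_num)

private theorem B5Lw_Y52 {β r t κ h t' : ℝ} (hβ : 0 < β) (hκ : κ = β * r) (hN : β * 7.352 ≤ 1) (hk1 : 1.33 ≤ κ) (hk2 : κ ≤ 1.36)
    (ht : t' = t + (((1 : ℤ) : ℝ) - 1) * h) (hD : DomR κ t') (hta : 0.6744 ≤ t' + κ) (htb : t' + κ ≤ 0.7289) :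
    0.6958 * Real.exp (r * sE κ t') ≤ ‖Xf β r h t 1‖ := by
  obtain ⟨⟨ya, yb⟩, ⟨xa, xb⟩, n1, Da, Db⟩ := B5Lw_B44 hD hk1 hk2 hta htb
  have J := B5Lw_T46 (x := sx κ t') (y := sy κ t') hβ hN (by linarith only [xa, xb, ya, yb]) (by linarith only [xa, xb, ya, yb]) (by linarith only [xa, xb, ya, yb]) (by linarith only [xa, xb, ya, yb])
  exact v5_Jlo hβ hκ (k := 1) ht hD 0.115 2.6157 0.6958 (by norm_num) J Db (by norm_num)

private theorem B5Lw_Y53 {β r t κ h t' : ℝ} (hβ : 0 < β) (hκ : κ = β * r) (hN : β * 7.352 ≤ 1) (hk1 : 1.33 ≤ κ) (hk2 : κ ≤ 1.36)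
    (ht : t' = t + (((0 : ℤ) : ℝ) - 1) * h) (hD : DomR κ t') (hta : (-0.5823) ≤ t' + κ) (htb : t' + κ ≤ (-0.5277)) :
    0.605 * Real.exp (r * sE κ t') ≤ ‖Xf β r h t 0‖ := by
  obtain ⟨⟨ya, yb⟩, ⟨xa, xb⟩, n1, Da, Db⟩ := B5Lw_B45 hD hk1 hk2 hta htb
  have J := B5Lw_T47 (x := sx κ t') (y := sy κ t') hβ hN (by linarith only [xa, xb, ya, yb]) (by linarith only [xa, xb, ya, yb]) (by linarith only [xa, xb, ya, yb]) (by linarith only [xa, xb, ya, yb])
  exact v5_Jlo hβ hκ (k := 0) ht hD 0.16 3.7143 0.605 (by norm_num) J Db (by norm_num)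

private theorem B5Lw_V54 {κ t : ℝ} (hD : DomR κ t) (hk1 : 1.33 ≤ κ) (hk2 : κ ≤ 1.36) (hta : 0.6744 ≤ t + κ) (htb : t + κ ≤ 0.7289) :
    1.08176 - 0.2384 * (t + κ) ≤ sE κ t := by
  have hκ0 : 0 < κ := hD.1
  exact v5_V1 hD 1.33 1.36 0.6744 0.7289 0.02818 0.09856 0.26075 1.08176 0.2384 (by norm_num) hk1 hk2 (by norm_num) (by norm_num) hta htb (by norm_num) (clo5 1.33 1.36 0.26075 (by norm_num) hk1 hk2 (by norm_num) (by norm_num) (by norm_num))
      ((cup2 1.33 (by norm_num) hk1).trans (by norm_num)) (by norm_num) (by norm_num) (by norm_num) (by norm_num) (by norm_num) (by norm_num)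

private theorem B5Lw_V55 {κ t : ℝ} (hD : DomR κ t) (hk1 : 1.33 ≤ κ) (hk2 : κ ≤ 1.36) (hta : (-0.5823) ≤ t + κ) (htb : t + κ ≤ (-0.5277)) :
    1.05852 + 0.2114 * (t + κ) ≤ sE κ t := by
  have hκ0 : 0 < κ := hD.1
  exact v5_V0 hD 1.33 1.36 (-0.5823) (-0.5277) 0.5824 0.5273 0.0356 0.16116 0.04711 0.49117 1.05852 0.2114 (by norm_num) hk1 hk2 (by norm_num) hta htb (by norm_num) (by norm_num) (by norm_num) ((cup2 1.33 (by norm_num) hk1).trans (by norm_num))
      (by norm_num) (by norm_num) (by norm_num) (by norm_num) (by norm_num) (by norm_num) (by norm_num) (by norm_num) (by norm_num) (by norm_num) (by norm_num) (by norm_num) (by norm_num)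

private theorem B5Lw_S56 {β r t κ h t' : ℝ} (hβ : 0 < β) (hκ : κ = β * r) (hN : β * 7.352 ≤ 1) (hk1 : 1.33 ≤ κ) (hk2 : κ ≤ 1.36)
    (ht : t' = t + (((1 : ℤ) : ℝ) - 1) * h) (hD : DomR κ t') (hta : 0.6744 ≤ t' + κ) (htb : t' + κ ≤ 0.7289) :
    Xf β r h t 1 ≠ 0 ∧ |(Ld β r h t 1).im - (sy κ t' / β + sx κ t' / sD κ t' * ((1 + sy κ t') / sD κ t' - 1 / 2))| ≤ 0.4125 ∧
      ‖Ld β r h t 1 - sg κ t' / β‖ ≤ 0.6105 ∧ -0.0028 ≤ sx κ t' / sD κ t' * ((1 + sy κ t') / sD κ t' - 1 / 2) ∧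
      (0.29 ≤ sy κ t' ∧ sy κ t' ≤ 0.311) ∧ (0.9235 ≤ sx κ t' ∧ sx κ t' ≤ 0.9755) := by
  obtain ⟨⟨y1, y2⟩, ⟨x1, x2⟩, n1, Da, Db⟩ := B5Lw_B44 hD hk1 hk2 hta htb
  have hd := v5_disc (β := β) (κ := κ) (t := t') (ε := 0.115) 0.2 0.7234 1.1756 0.0899 0.5111 0.9235 0.9755 0.29 0.311
    (fun x y g1 g2 g3 g4 => B5Lw_T46 hβ hN g1 g2 g3 g4) x1 x2 y1 y2 (by norm_num) (by norm_num) (by norm_num) (by norm_num)
  obtain ⟨nz, im, nL⟩ := v5_slope (h := h) (t := t) (k := 1) 0.2 0.115 1.0177 2.5703 0.6498 0.4125 hβ hκ ht hD (by norm_num) (by norm_num) (by linarith only [y1]) hd n1 (by norm_num) Da (by norm_num) (by norm_num) (by norm_num) (by norm_num)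
  have ex := ex_lo hD 1.0177 2.5703 2.6157 0.29 0.0069 0.0028 n1 (by norm_num) Da Db y1 (by norm_num) (by norm_num) (by norm_num) (by norm_num)
  exact ⟨nz, im, nL.trans (by norm_num), ex, ⟨y1, y2⟩, x1, x2⟩

private theorem B5Lw_S57 {β r t κ h t' : ℝ} (hβ : 0 < β) (hκ : κ = β * r) (hN : β * 7.352 ≤ 1) (hk1 : 1.33 ≤ κ) (hk2 : κ ≤ 1.36)
    (ht : t' = t + (((0 : ℤ) : ℝ) - 1) * h) (hD : DomR κ t') (hta : (-0.5823) ≤ t' + κ) (htb : t' + κ ≤ (-0.5277)) :
    Xf β r h t 0 ≠ 0 ∧ |(Ld β r h t 0).im - (sy κ t' / β + sx κ t' / sD κ t' * ((1 + sy κ t') / sD κ t' - 1 / 2))| ≤ 1.2414 ∧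
      ‖Ld β r h t 0 - sg κ t' / β‖ ≤ 1.5048 ∧ sx κ t' / sD κ t' * ((1 + sy κ t') / sD κ t' - 1 / 2) ≤ 0.0001 ∧
      ((-0.288) ≤ sy κ t' ∧ sy κ t' ≤ (-0.257)) ∧ (1.6954 ≤ sx κ t' ∧ sx κ t' ≤ 1.7957) := by
  obtain ⟨⟨y1, y2⟩, ⟨x1, x2⟩, n1, Da, Db⟩ := B5Lw_B45 hD hk1 hk2 hta htb
  have hd := v5_disc (β := β) (κ := κ) (t := t') (ε := 0.16) 0.15 1.5453 1.9458 (-0.4381) (-0.1069) 1.6954 1.7957 (-0.288) (-0.257)
    (fun x y g1 g2 g3 g4 => B5Lw_T47 hβ hN g1 g2 g3 g4) x1 x2 y1 y2 (by norm_num) (by norm_num) (by norm_num) (by norm_num)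
  obtain ⟨nz, im, nL⟩ := v5_slope (h := h) (t := t) (k := 0) 0.15 0.16 1.814 3.4435 1.2699 1.2414 hβ hκ ht hD (by norm_num) (by norm_num) (by linarith only [y1]) hd n1 (by norm_num) Da (by norm_num) (by norm_num) (by norm_num) (by norm_num)
  have ex := ex_hi hD 1.814 3.4435 (-0.257) 0 0.0001 n1 (by norm_num) Da y2 (by norm_num) (by norm_num) (by norm_num) (by norm_num)
  exact ⟨nz, im, nL.trans (by norm_num), ex, ⟨y1, y2⟩, x1, x2⟩

private theorem B5Lw_L58 {β r κ t1 t0 : ℝ} {L0 L1 : ℂ} (hβ : 0 < β) (hr : 10 ≤ r) (hκ : κ = β * r) (hk1 : 1.33 ≤ κ)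
    (nA0 : ‖L0 - sg κ t0 / β‖ ≤ 1.5048) (nA1 : ‖L1 - sg κ t1 / β‖ ≤ 0.6105)
    (y0 : (-0.288) ≤ sy κ t0 ∧ sy κ t0 ≤ (-0.257)) (x0 : 1.6954 ≤ sx κ t0 ∧ sx κ t0 ≤ 1.7957)
    (y1 : 0.29 ≤ sy κ t1 ∧ sy κ t1 ≤ 0.311) (x1 : 0.9235 ≤ sx κ t1 ∧ sx κ t1 ≤ 0.9755) :
    ‖(1 : ℂ) * L0 + (-2 : ℂ) * L1‖ ≤ r * 0.9835 := by
  obtain ⟨y0a, y0b⟩ := y0
  obtain ⟨x0a, x0b⟩ := x0
  obtain ⟨y1a, y1b⟩ := y1
  obtain ⟨x1a, x1b⟩ := x1
  have hN := v5_cN (κ := κ) (t1 := t1) (t0 := t0) 1 (-2) 0.2557 0.9101 0.9454 (abs_le.2 ⟨by linarith only [x0a, x0b, x1a, x1b], by linarith only [x0a, x0b, x1a, x1b]⟩)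
    (abs_le.2 ⟨by linarith only [y0a, y0b, y1a, y1b], by linarith only [y0a, y0b, y1a, y1b]⟩) (by norm_num) (by norm_num)
  have h1 := v5_comb 1 (-2) 1.33 1.5048 0.6105 0.9454 0.9835 hβ hr hκ (by norm_num) hk1 nA0 nA1 hN (by norm_num [abs_of_neg, abs_of_pos])
  norm_num at h1 ⊢
  exact h1

private theorem B5Lw_L59 {β r κ t1 t0 : ℝ} {L0 L1 : ℂ} (hβ : 0 < β) (hr : 10 ≤ r) (hκ : κ = β * r) (hk1 : 1.33 ≤ κ)
    (nA0 : ‖L0 - sg κ t0 / β‖ ≤ 1.5048) (nA1 : ‖L1 - sg κ t1 / β‖ ≤ 0.6105)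
    (y0 : (-0.288) ≤ sy κ t0 ∧ sy κ t0 ≤ (-0.257)) (x0 : 1.6954 ≤ sx κ t0 ∧ sx κ t0 ≤ 1.7957)
    (y1 : 0.29 ≤ sy κ t1 ∧ sy κ t1 ≤ 0.311) (x1 : 0.9235 ≤ sx κ t1 ∧ sx κ t1 ≤ 0.9755) :
    ‖(-2 : ℂ) * L0 + (1 : ℂ) * L1‖ ≤ r * 2.4761 := by
  obtain ⟨y0a, y0b⟩ := y0
  obtain ⟨x0a, x0b⟩ := x0
  obtain ⟨y1a, y1b⟩ := y1
  obtain ⟨x1a, x1b⟩ := x1
  have hN := v5_cN (κ := κ) (t1 := t1) (t0 := t0) (-2) 1 2.668 0.8871 2.8117 (abs_le.2 ⟨by linarith only [x0a, x0b, x1a, x1b], by linarith only [x0a, x0b, x1a, x1b]⟩)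
    (abs_le.2 ⟨by linarith only [y0a, y0b, y1a, y1b], by linarith only [y0a, y0b, y1a, y1b]⟩) (by norm_num) (by norm_num)
  have h1 := v5_comb (-2) 1 1.33 1.5048 0.6105 2.8117 2.4761 hβ hr hκ (by norm_num) hk1 nA0 nA1 hN (by norm_num [abs_of_neg, abs_of_pos])
  norm_num at h1 ⊢
  exact h1

private theorem B5Lw_L60 {β r κ t1 t0 : ℝ} {L0 L1 : ℂ} (hβ : 0 < β) (hr : 10 ≤ r) (hκ : κ = β * r) (hk1 : 1.33 ≤ κ)
    (nA0 : ‖L0 - sg κ t0 / β‖ ≤ 1.5048) (nA1 : ‖L1 - sg κ t1 / β‖ ≤ 0.6105)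
    (y0 : (-0.288) ≤ sy κ t0 ∧ sy κ t0 ≤ (-0.257)) (x0 : 1.6954 ≤ sx κ t0 ∧ sx κ t0 ≤ 1.7957)
    (y1 : 0.29 ≤ sy κ t1 ∧ sy κ t1 ≤ 0.311) (x1 : 0.9235 ≤ sx κ t1 ∧ sx κ t1 ≤ 0.9755) :
    ‖(-3 : ℂ) * L0 + (2 : ℂ) * L1‖ ≤ r * 3.4604 := by
  obtain ⟨y0a, y0b⟩ := y0
  obtain ⟨x0a, x0b⟩ := x0
  obtain ⟨y1a, y1b⟩ := y1
  obtain ⟨x1a, x1b⟩ := x1
  have hN := v5_cN (κ := κ) (t1 := t1) (t0 := t0) (-3) 2 3.5402 1.4861 3.8395 (abs_le.2 ⟨by linarith only [x0a, x0b, x1a, x1b], by linarith only [x0a, x0b, x1a, x1b]⟩)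
    (abs_le.2 ⟨by linarith only [y0a, y0b, y1a, y1b], by linarith only [y0a, y0b, y1a, y1b]⟩) (by norm_num) (by norm_num)
  have h1 := v5_comb (-3) 2 1.33 1.5048 0.6105 3.8395 3.4604 hβ hr hκ (by norm_num) hk1 nA0 nA1 hN (by norm_num [abs_of_neg, abs_of_pos])
  norm_num at h1 ⊢
  exact h1

private theorem B5Lw_K61 {β r t κ h : ℝ} (hβ : 0 < β) (hr : 10 ≤ r) (hκ : κ = β * r) (hk1 : 1.33 ≤ κ) (hk2 : κ ≤ 1.36)
    (hh : h = 2 * Real.pi / 5) (hh1 : 1.25663 ≤ h) (hh2 : h ≤ 1.25664) (hta : 0.6744 ≤ t + κ) (htb : t + κ ≤ 0.7289)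
    (hβ1 : β ≤ 0.136)
    (hY : 0.6958 * Real.exp (r * sE κ t) ≤ ‖Xf β r h t 1‖) (hV : 1.08176 - 0.2384 * (t + κ) ≤ sE κ t) :
    ‖Xf β r h t 2‖ ≤ 0.0359 * ‖Xf β r h t 1‖ ∧ ‖Xf β r h (t + β) 2‖ ≤ 0.0208 * ‖Xf β r h t 1‖ := by
  constructor
  · rw [v5_X 2 1 (by push_cast; ring)]
    exact v5_cmp 0.4262 0.0141 0.0358 0.9079 0.0001141 0.0000355 0.0359 hr (B5Lw_C48 (t := t + 1 * h) hβ hr hκ hk1 hk2 (by linarith only [hta, htb, hh1, hh2, hβ, hβ1]) (by linarith only [hta, htb, hh1, hh2, hβ, hβ1])) hY (by norm_num) (by norm_num) (by norm_num) (by norm_num) (by linarith only [hV, hta, htb, hh1, hh2]) (ex_un 4 0.2619 (by norm_num) (by norm_num) (by norm_num) (by norm_num)) (by norm_num) (by norm_num) (by linarith only [hV, hta, htb, hh1, hh2]) (ex_un 9 0.0789 (by norm_num) (by norm_num) (by norm_num) (by norm_num)) (by norm_num) (by norm_num)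
  · rw [v5_X 2 1 (by push_cast; ring)]
    have h1 := B5Lw_C48 (t := t + β + 1 * h) hβ hr hκ hk1 hk2 (by linarith only [hta, htb, hh1, hh2, hβ, hβ1]) (by linarith only [hta, htb, hh1, hh2, hβ, hβ1])
    rw [show t + β + 1 * h + κ = (t + 1 * h + κ) + β by ring] at h1
    exact v5_cmpS 0.57967 0.4262 0.0141 0.0207 0.9079 0.0001141 0.0000355 0.0208 hr hκ h1 hY (by norm_num) (by norm_num) (by norm_num) (ex_um 0.5453 (by linarith only [hk1, hk2]) (by norm_num) (by norm_num) (by norm_num)) (by norm_num) (by linarith only [hV, hta, htb, hh1, hh2]) (ex_un 4 0.2619 (by norm_num) (by norm_num) (by norm_num) (by norm_num)) (by norm_num) (by norm_num) (by linarith only [hV, hta, htb, hh1, hh2]) (ex_un 9 0.0789 (by norm_num) (by norm_num) (by norm_num) (by norm_num)) (by norm_num) (by norm_num)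

private theorem B5Lw_K62 {β r t κ h : ℝ} (hβ : 0 < β) (hr : 10 ≤ r) (hκ : κ = β * r) (hk1 : 1.33 ≤ κ) (hk2 : κ ≤ 1.36)
    (hh : h = 2 * Real.pi / 5) (hh1 : 1.25663 ≤ h) (hh2 : h ≤ 1.25664) (hta : 0.6744 ≤ t + κ) (htb : t + κ ≤ 0.7289)
    (hβ1 : β ≤ 0.136)
    (hY : 0.605 * Real.exp (r * sE κ (t - h)) ≤ ‖Xf β r h t 0‖) (hV : 1.05852 + 0.2114 * (t - h + κ) ≤ sE κ (t - h)) :
    ‖Xf β r h t (-1)‖ ≤ 0.00933 * ‖Xf β r h t 0‖ ∧ ‖Xf β r h (t + β) (-1)‖ ≤ 0.0201 * ‖Xf β r h t 0‖ := by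
  constructor
  · rw [v5_X (-1) (-2) (by push_cast; ring)]
    exact v5_cmp 0.493 0.007338 0.00893 0.8853 0.0001446 0.000392 0.00933 hr (B5Lw_C50 (t := t + (-2) * h) hβ hr hκ hk1 hk2 (by linarith only [hta, htb, hh1, hh2, hβ, hβ1]) (by linarith only [hta, htb, hh1, hh2, hβ, hβ1])) hY (by norm_num) (by norm_num) (by norm_num) (by norm_num) (by linarith only [hV, hta, htb, hh1, hh2]) (ex_un 4 0.9299 (by norm_num) (by norm_num) (by norm_num) (by norm_num)) (by norm_num) (by norm_num) (by linarith only [hV, hta, htb, hh1, hh2]) (ex_un 8 0.8529 (by norm_num) (by norm_num) (by norm_num) (by norm_num)) (by norm_num) (by norm_num)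
  · rw [v5_X (-1) (-2) (by push_cast; ring)]
    have h1 := B5Lw_C50 (t := t + β + (-2) * h) hβ hr hκ hk1 hk2 (by linarith only [hta, htb, hh1, hh2, hβ, hβ1]) (by linarith only [hta, htb, hh1, hh2, hβ, hβ1])
    rw [show t + β + (-2) * h + κ = (t + (-2) * h + κ) + β by ring] at h1
    exact v5_cmpS 2.20076 0.493 0.007338 0.0197 0.8853 0.0001446 0.000392 0.0201 hr hκ h1 hY (by norm_num) (by norm_num) (by norm_num) (ex_up 0.7888 (by linarith only [hk1, hk2]) (by norm_num) (by norm_num) (by norm_num)) (by norm_num) (by linarith only [hV, hta, htb, hh1, hh2]) (ex_un 4 0.9299 (by norm_num) (by norm_num) (by norm_num) (by norm_num)) (by norm_num) (by norm_num) (by linarith only [hV, hta, htb, hh1, hh2]) (ex_un 8 0.8529 (by norm_num) (by norm_num) (by norm_num) (by norm_num)) (by norm_num) (by norm_num)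

private theorem B5Lw_K63 {β r t κ h : ℝ} (hβ : 0 < β) (hr : 10 ≤ r) (hκ : κ = β * r) (hk1 : 1.33 ≤ κ) (hk2 : κ ≤ 1.36)
    (hh : h = 2 * Real.pi / 5) (hh1 : 1.25663 ≤ h) (hh2 : h ≤ 1.25664) (hta : 0.6744 ≤ t + κ) (htb : t + κ ≤ 0.7289)
    (hβ1 : β ≤ 0.136)
    (hY : 0.605 * Real.exp (r * sE κ (t - h)) ≤ ‖Xf β r h t 0‖) (hV : 1.05852 + 0.2114 * (t - h + κ) ≤ sE κ (t - h)) :
    ‖Xf β r h t (-2)‖ ≤ 0.000543 * ‖Xf β r h t 0‖ ∧ ‖Xf β r h (t + β) (-2)‖ ≤ 0.000543 * ‖Xf β r h t 0‖ := by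
  constructor
  · rw [v5_Xm2 hh]
    exact v5_cmp0 0.8754 0.0001591 0.000543 hr (B5Lw_C51 (t := t + 2 * h) hβ hr hκ hk1 hk2 (by linarith only [hta, htb, hh1, hh2, hβ, hβ1]) (by linarith only [hta, htb, hh1, hh2, hβ, hβ1])) hY (by norm_num) (by norm_num) (by norm_num) (by linarith only [hV, hta, htb, hh1, hh2]) (ex_un 8 0.7539 (by norm_num) (by norm_num) (by norm_num) (by norm_num)) (by norm_num)
  · rw [v5_Xm2 hh]
    exact v5_cmp0 0.8754 0.0001591 0.000543 hr (B5Lw_C51 (t := t + β + 2 * h) hβ hr hκ hk1 hk2 (by linarith only [hta, htb, hh1, hh2, hβ, hβ1]) (by linarith only [hta, htb, hh1, hh2, hβ, hβ1])) hY (by norm_num) (by norm_num) (by norm_num) (by linarith only [hV, hta, htb, hh1, hh2]) (ex_un 8 0.7539 (by norm_num) (by norm_num) (by norm_num) (by norm_num)) (by norm_num)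

theorem B5Lw_W64 {β r t κ h : ℝ} (hβ : 0 < β) (hr : 10 ≤ r) (hκ : κ = β * r) (hk1 : 1.33 ≤ κ) (hk2 : κ ≤ 1.36)
    (hh : h = 2 * Real.pi / 5) (hta : 0.6744 ≤ t + κ) (htb : t + κ ≤ 0.7289) :
    Xf β r h t 0 ≠ 0 ∧
    (‖Xf β r h t 2‖ ≤ 0.0431 * ‖Xf β r h t 1‖ ∧ ‖Xf β r h t (-1)‖ ≤ 0.00933 * ‖Xf β r h t 0‖ ∧
      ‖Xf β r h t (-2)‖ ≤ 0.00082 * ‖Xf β r h t 0‖) ∧
    (r * ‖Xf β r h (t + β) 2‖ + ‖Xf β r h t 2‖ * ‖(1 : ℂ) * Ld β r h t 0 + (-2 : ℂ) * Ld β r h t 1‖ ≤
        r * 0.0676 * ‖Xf β r h t 1‖ ∧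
      r * ‖Xf β r h (t + β) (-1)‖ + ‖Xf β r h t (-1)‖ * ‖(-2 : ℂ) * Ld β r h t 0 + (1 : ℂ) * Ld β r h t 1‖ ≤
        r * 0.0433 * ‖Xf β r h t 0‖ ∧
      r * ‖Xf β r h (t + β) (-2)‖ + ‖Xf β r h t (-2)‖ * ‖(-3 : ℂ) * Ld β r h t 0 + (2 : ℂ) * Ld β r h t 1‖ ≤
        r * 0.00381 * ‖Xf β r h t 0‖) ∧
    r * 0.2312 ≤ (Ld β r h t 1 - Ld β r h t 0).im := by
  obtain ⟨hh1, hh2⟩ := v5_h hh
  have hκ0 : 0 < κ := by linarith only [hk1]
  have hN : β * 7.352 ≤ 1 := v5_hN 1.36 7.352 hβ hr hκ hk2 (by norm_num) (by norm_num)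
  have hD1 : DomR κ t := v5_dom hκ0 (by linarith only [hta, htb, hk1, hk2, hh1, hh2]) (Or.inr (by linarith only [hta, htb, hk1, hk2, hh1, hh2]))
  have hD0 : DomR κ (t - h) := v5_dom hκ0 (by linarith only [hta, htb, hk1, hk2, hh1, hh2]) (Or.inl (by linarith only [hk1]))
  have hβ1 : β ≤ 0.136 := by
    have := mul_le_mul_of_nonneg_left hr hβ.le
    linarith only [this, hκ, hk2]
  have h0a : (-0.5823) ≤ t - h + κ := by linarith only [hta, htb, hh1, hh2]
  have h0b : t - h + κ ≤ (-0.5277) := by linarith only [hta, htb, hh1, hh2]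
  have e1 : t = t + (((1 : ℤ) : ℝ) - 1) * h := by push_cast; ring
  have e0 : t - h = t + (((0 : ℤ) : ℝ) - 1) * h := by push_cast; ring
  have hY1 := B5Lw_Y52 (h := h) hβ hκ hN hk1 hk2 e1 hD1 hta htb
  have hY0 := B5Lw_Y53 (h := h) hβ hκ hN hk1 hk2 e0 hD0 h0a h0b
  have hV1 := B5Lw_V54 hD1 hk1 hk2 hta htb
  have hV0 := B5Lw_V55 hD0 hk1 hk2 h0a h0b
  obtain ⟨nz1, im1, nA1, ex1, y1, x1⟩ := B5Lw_S56 (h := h) hβ hκ hN hk1 hk2 e1 hD1 hta htb
  obtain ⟨nz0, im0, nA0, ex0, y0, x0⟩ := B5Lw_S57 (h := h) hβ hκ hN hk1 hk2 e0 hD0 h0a h0b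
  obtain ⟨cp2, dp2⟩ := B5Lw_K61 hβ hr hκ hk1 hk2 hh hh1 hh2 hta htb hβ1 hY1 hV1
  obtain ⟨cm1, dm1⟩ := B5Lw_K62 hβ hr hκ hk1 hk2 hh hh1 hh2 hta htb hβ1 hY0 hV0
  obtain ⟨cm2, dm2⟩ := B5Lw_K63 hβ hr hκ hk1 hk2 hh hh1 hh2 hta htb hβ1 hY0 hV0
  have Lp2 := B5Lw_L58 hβ hr hκ hk1 nA0 nA1 y0 x0 y1 x1
  have Lm1 := B5Lw_L59 hβ hr hκ hk1 nA0 nA1 y0 x0 y1 x1
  have Lm2 := B5Lw_L60 hβ hr hκ hk1 nA0 nA1 y0 x0 y1 x1
  have hm : r * 0.2312 ≤ (Ld β r h t 1 - Ld β r h t 0).im :=
    v5_m 1.36 0.29 0.257 0.0028 0.0001 0.4125 1.2414 _ _ 0.2312 hβ hr hκ hk2 im1 im0 y1.1 (by linarith only [y0.2]) (by norm_num) ex1 ex0 (by norm_num) (by norm_num)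
  have hr0 : 0 < r := by linarith only [hr]
  refine ⟨nz0, ⟨v5_emax _ cp2 (norm_nonneg _) (by norm_num), v5_emax _ cm1 (norm_nonneg _) (by norm_num), v5_emax _ cm2 (norm_nonneg _) (by norm_num)⟩, ⟨?_, ?_, ?_⟩, hm⟩
  · exact v5_W hr0 dp2 cp2 Lp2 (norm_nonneg _) (norm_nonneg _) (norm_nonneg _) (by norm_num)
  · exact v5_W hr0 dm1 cm1 Lm1 (norm_nonneg _) (norm_nonneg _) (norm_nonneg _) (by norm_num)
  · exact v5_W hr0 dm2 cm2 Lm2 (norm_nonneg _) (norm_nonneg _) (norm_nonneg _) (by norm_num)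

end Sok
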