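import Pool.Agent.Lib.MP_816dec_an.B6W0
import Pool.Agent.Lib.MP_816dec_an.B6W1
import Pool.Agent.Lib.MP_816dec_an.B6W2
import Pool.Agent.Lib.MP_816dec_an.B6W3
import Pool.Agent.Lib.MP_816dec_an.B6W4
import Pool.Agent.Lib.MP_816dec_an.B6W5
import Pool.Agent.Lib.MP_816dec_an.B6W6
import Pool.Agent.Lib.MP_816dec_an.B6W7

/-!
MP_816dec_an (A3, row R1-b6): `b = 6`, `.3 ≤ β r ≤ 1.39`.
-/

set_option autoImplicit false

open Complex Set Filter Topology Metric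

namespace Sok

theorem cov6_r {κ r : ℝ} (hcov : Real.sqrt 3 / 2 * ((6 : ℝ) ^ 2 * (1 + κ ^ 2)) ≤ 2 * Real.pi * r) (hr : 0 ≤ r) :
    4.9619 * (1 + κ ^ 2) ≤ r := by
  have h3 : (1.73205 : ℝ) ≤ Real.sqrt 3 := by
    rw [show (1.73205 : ℝ) = Real.sqrt (1.73205 ^ 2) by rw [Real.sqrt_sq (by norm_num)]]
    exact Real.sqrt_le_sqrt (by norm_num)
  have hpi := Real.pi_lt_d6
  have hA : 0 ≤ (6 : ℝ) ^ 2 * (1 + κ ^ 2) := by positivity
  have h1 : (1.73205 : ℝ) / 2 * ((6 : ℝ) ^ 2 * (1 + κ ^ 2)) ≤ Real.sqrt 3 / 2 * ((6 : ℝ) ^ 2 * (1 + κ ^ 2)) := by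
    apply mul_le_mul_of_nonneg_right _ hA
    linarith
  have h2 : 2 * Real.pi * r ≤ 2 * 3.141593 * r := by
    apply mul_le_mul_of_nonneg_right _ hr
    linarith
  have h4 := h1.trans (hcov.trans h2)
  have h5 : 0 ≤ κ ^ 2 := sq_nonneg κ
  norm_num at h4 ⊢
  nlinarith

theorem R1_b6_big {p : ℤ} {β r : ℝ} (hp : IsCoprime (6 : ℤ) p) (hr : 10 ≤ r) (hβ : 0 < β) (hκ0 : 0.3 ≤ β * r)
    (hκ1 : β * r ≤ 1.39) (hcov : Real.sqrt 3 / 2 * ((6 : ℝ) ^ 2 * (1 + (β * r) ^ 2)) ≤ 2 * Real.pi * r) :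
    Circ (2 * Real.pi * p / 6 + β) r := by
  have hc := cov6_r hcov (by linarith)
  rcases le_total (β * r) 0.45 with g0 | f0
  · exact B6K0.box hp hβ hr rfl hc hκ0 g0
  rcases le_total (β * r) 0.6 with g1 | f1
  · exact B6K1.box hp hβ hr rfl hc f0 g1
  rcases le_total (β * r) 0.75 with g2 | f2
  · exact B6K2.box hp hβ hr rfl hc f1 g2
  rcases le_total (β * r) 0.9 with g3 | f3
  · exact B6K3.box hp hβ hr rfl hc f2 g3
  rcases le_total (β * r) 1 with g4 | f4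
  · exact B6K4.box hp hβ hr rfl hc f3 g4
  rcases le_total (β * r) 1.1 with g5 | f5
  · exact B6K5.box hp hβ hr rfl hc f4 g5
  rcases le_total (β * r) 1.25 with g6 | f6
  · exact B6K6.box hp hβ hr rfl hc f5 g6
  exact B6K7.box hp hβ hr rfl hc f6 hκ1

end Sok
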