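import Pool.Agent.Lib.MP_816dec_an.R1b7B

/-!
MP_816dec_an (A3, row R1), b = 7: slope of one copy, final assembly.
-/

set_option autoImplicit false
set_option maxHeartbeats 4000000

open Complex Set Filter Topology Metric

namespace Sok

theorem norm_sgx7 {κ t : ℝ} (h : DomR κ t) : ‖sg κ t‖ = κ * Real.exp (-sy κ t) := norm_sg h

theorem norm_sg_sq {κ t : ℝ} (h : DomR κ t) : ‖sg κ t‖ ^ 2 = sx κ t ^ 2 + sy κ t ^ 2 := by
  rw [norm_sgx7 h, s_sq h, mul_pow, ← Real.exp_nat_mul]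
  congr 2
  push_cast
  ring

/-- data of the logarithmic derivative of one copy -/
theorem copy7 {β r h κ T t t' : ℝ} {k : ℤ} (k1 k2 d ya EY E2 ρ v ε δ e c : ℝ) (P : Q7 β r h κ T)
    (ht : t' = t + (k - 1) * h) (hD : DomR κ t') (hk1 : k1 ≤ κ) (hk2 : κ ≤ k2) (hk0 : 0 ≤ k1)
    (hδ : 0 < δ) (hε : ε < 1) (hε0 : 0 ≤ ε) (hJ : ∀ s : ℂ, ‖s - sg κ t'‖ ≤ δ → ‖HH β s - 1‖ ≤ ε)
    (hya : ya ≤ sy κ t') (hyδ : -1 < ya - δ) (hd : d * (1 + κ ^ 2) ≤ sD κ t') (hd0 : 0 < d)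
    (hEY : Real.exp (-ya) ≤ EY) (hE2 : EY ^ 2 ≤ E2) (hρ0 : 0 ≤ ρ) (hρ1 : ρ ≤ 1)
    (hρ : k2 ^ 2 * E2 * (1 - ρ ^ 2) ≤ ρ ^ 2 * (1 + 2 * ya)) (hv0 : 0 ≤ v) (hv : 1 ≤ v ^ 2 * (d * (1 + k1 ^ 2)))
    (he : ρ * (ε / (δ * (1 - ε))) ≤ e) (hc : 1 / 2 * ρ * v + e ≤ c) :
    ‖Ld β r h t k‖ ≤ r * EY + c ∧
      |(Ld β r h t k).im - (r * sp κ t' + sx κ t' * (1 - (sx κ t' ^ 2 + sy κ t' ^ 2)) / (2 * sD κ t' ^ 2))| ≤ e := by
  have hκ0 := P.κ0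
  have hsd := sD_pos hD
  have hpos : 0 < δ * (1 - ε) := mul_pos hδ (by linarith)
  have hne : ‖1 - I * sg κ t'‖ = Real.sqrt (sD κ t') := norm_one_sub_sg
  have hS0 : 0 < Real.sqrt (sD κ t') := Real.sqrt_pos.2 hsd
  have hexp : Real.exp (-sy κ t') ≤ EY := (Real.exp_le_exp.2 (by linarith)).trans hEY
  have hEY0 : 0 ≤ EY := (Real.exp_pos _).le.trans hEY
  -- the ratio
  have hρ' : ‖sg κ t' / (1 - I * sg κ t')‖ ≤ ρ := by
    rw [norm_div, hne, div_le_iff₀ hS0]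
    apply le_of_sq_le_sq _ (by positivity)
    rw [mul_pow, Real.sq_sqrt hsd.le, norm_sg_sq hD]
    have e1 : sD κ t' = sx κ t' ^ 2 + sy κ t' ^ 2 + 1 + 2 * sy κ t' := by unfold sD; ring
    rw [e1]
    have h2 : sx κ t' ^ 2 + sy κ t' ^ 2 ≤ k2 ^ 2 * E2 := by
      rw [← norm_sg_sq hD, norm_sgx7 hD, mul_pow]
      have h3 : κ ^ 2 ≤ k2 ^ 2 := pow_le_pow_left₀ hκ0.le hk2 2
      have h4 : Real.exp (-sy κ t') ^ 2 ≤ E2 := (pow_le_pow_left₀ (Real.exp_pos _).le hexp 2).trans hE2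
      exact mul_le_mul h3 h4 (by positivity) (by positivity)
    have h5 : 0 ≤ 1 - ρ ^ 2 := by nlinarith
    have h6 := mul_le_mul_of_nonneg_right h2 h5
    have h7 := mul_le_mul_of_nonneg_left hya (sq_nonneg ρ)
    linarith
  have him : ∀ s : ℂ, ‖s - sg κ t'‖ ≤ δ → -1 < s.im := by
    intro s hs
    have h1 := (Complex.abs_im_le_norm _).trans hs
    have h2 := (abs_le.1 h1).1
    have h3 : (s - sg κ t').im = s.im - sy κ t' := by unfold sg; simp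
    rw [h3] at h2
    linarith
  have hL := Ld_close P ht hD hδ hε him hJ
  have hrate : ‖sg κ t' / (1 - I * sg κ t')‖ * (ε / (δ * (1 - ε))) ≤ e :=
    (mul_le_mul_of_nonneg_right hρ' (div_nonneg hε0 hpos.le)).trans he
  have hβr : κ / β = r := by rw [P.hκ]; have := P.hβ; field_simp
  constructor
  · have h1 : ‖sg κ t' / (β : ℂ)‖ ≤ r * EY := by
      rw [norm_div, norm_sgx7 hD, Complex.norm_real, Real.norm_of_nonneg P.hβ.le]
      have : κ * Real.exp (-sy κ t') / β = r * Real.exp (-sy κ t') := by rw [← hβr]; ring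
      rw [this]
      exact mul_le_mul_of_nonneg_left hexp P.r0.le
    have h2 : ‖I / 2 * sg κ t' / (1 - I * sg κ t') ^ 2‖ ≤ 1 / 2 * ρ * v := by
      have e1 : I / 2 * sg κ t' / (1 - I * sg κ t') ^ 2 =
          I / 2 * (sg κ t' / (1 - I * sg κ t')) * (1 - I * sg κ t')⁻¹ := by
        rw [div_eq_mul_inv, div_eq_mul_inv, sq, mul_inv]
        ring
      rw [e1, norm_mul, norm_mul, norm_inv, hne]
      have h3 : ‖(I / 2 : ℂ)‖ = 1 / 2 := by simp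
      rw [h3]
      have h4 : (Real.sqrt (sD κ t'))⁻¹ ≤ v := by
        rw [inv_le_iff_one_le_mul₀ hS0]
        have h5 : 1 ≤ (v * Real.sqrt (sD κ t')) ^ 2 := by
          rw [mul_pow, Real.sq_sqrt hsd.le]
          refine hv.trans (mul_le_mul_of_nonneg_left ?_ (sq_nonneg v))
          refine le_trans ?_ hd
          have := pow_le_pow_left₀ hk0 hk1 2
          exact mul_le_mul_of_nonneg_left (by linarith) hd0.le
        have h6 : 0 ≤ v * Real.sqrt (sD κ t') := by positivity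
        nlinarith
      exact mul_le_mul (mul_le_mul_of_nonneg_left hρ' (by norm_num)) h4 (by positivity) (by positivity)
    have h3 := norm_add_le (Ld β r h t k - (sg κ t' / β + I / 2 * sg κ t' / (1 - I * sg κ t') ^ 2))
      (sg κ t' / β + I / 2 * sg κ t' / (1 - I * sg κ t') ^ 2)
    rw [sub_add_cancel] at h3
    have h4 := norm_add_le (sg κ t' / (β : ℂ)) (I / 2 * sg κ t' / (1 - I * sg κ t') ^ 2)
    linarith
  · have h3 := (Complex.abs_im_le_norm _).trans (hL.trans hrate)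
    rw [Complex.sub_im, Complex.add_im, im_corr hD, Complex.div_ofReal_im] at h3
    have e1 : (sg κ t').im / β = r * sp κ t' := by
      have e2 : (sg κ t').im = sy κ t' := by unfold sg; simp
      rw [e2]
      unfold sp
      rw [← hβr]
      have := P.hβ
      field_simp
    rw [e1] at h3
    exact h3

/-- lower bound of the correction, `τ ≥ 0` -/
theorem corr1_ge {κ t : ℝ} (h : DomR κ t) (k1 k2 d c : ℝ) (hk1 : k1 ≤ κ) (hk2 : κ ≤ k2) (hk0 : 0 ≤ k1)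
    (hy : 0 ≤ sy κ t) (hd : d * (1 + κ ^ 2) ≤ sD κ t) (hd0 : 0 < d) (hc0 : 0 ≤ c)
    (hc : k2 ≤ 1 ∨ k2 * (k2 ^ 2 - 1) ≤ c * (2 * (d * (1 + k1 ^ 2)) ^ 2)) :
    -c ≤ sx κ t * (1 - (sx κ t ^ 2 + sy κ t ^ 2)) / (2 * sD κ t ^ 2) := by
  have hκ := h.1
  have hx := sx_pos h
  have hsd := sD_pos h
  have hS : sx κ t ^ 2 + sy κ t ^ 2 ≤ κ ^ 2 := by
    rw [s_sq h]
    have : Real.exp (-2 * sy κ t) ≤ 1 := by
      rw [← Real.exp_zero]; exact Real.exp_le_exp.2 (by linarith)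
    nlinarith [sq_nonneg κ]
  have hxκ : sx κ t ≤ κ := by
    apply le_of_sq_le_sq _ hκ.le
    nlinarith [sq_nonneg (sy κ t)]
  have hk2p : 0 < k2 := hκ.trans_le hk2
  have hκk : κ ^ 2 ≤ k2 ^ 2 := pow_le_pow_left₀ hκ.le hk2 2
  rw [le_div_iff₀ (by positivity)]
  rcases hc with hc | hc
  · have h1 : 0 ≤ 1 - (sx κ t ^ 2 + sy κ t ^ 2) := by nlinarith
    have h2 := mul_nonneg hx.le h1
    have h3 : 0 ≤ c * (2 * sD κ t ^ 2) := by positivity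
    linarith
  · rcases le_total (sx κ t ^ 2 + sy κ t ^ 2) 1 with h1 | h1
    · have h2 := mul_nonneg hx.le (sub_nonneg.2 h1)
      have h3 : 0 ≤ c * (2 * sD κ t ^ 2) := by positivity
      linarith
    · have h2 : sx κ t * ((sx κ t ^ 2 + sy κ t ^ 2) - 1) ≤ k2 * (k2 ^ 2 - 1) :=
        mul_le_mul (hxκ.trans hk2) (by linarith) (by linarith) hk2p.le
      have h4 : d * (1 + k1 ^ 2) ≤ sD κ t := by
        refine le_trans ?_ hd
        have := pow_le_pow_left₀ hk0 hk1 2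
        exact mul_le_mul_of_nonneg_left (by linarith) hd0.le
      have h5 : (d * (1 + k1 ^ 2)) ^ 2 ≤ sD κ t ^ 2 := pow_le_pow_left₀ (by positivity) h4 2
      have h6 := mul_le_mul_of_nonneg_left h5 (by positivity : 0 ≤ c * 2)
      linarith

/-- upper bound of the correction, `τ ≤ 0` -/
theorem corr0_le {κ t : ℝ} (h : DomR κ t) (k1 k2 d EY c : ℝ) (hk1 : k1 ≤ κ) (hk2 : κ ≤ k2) (hk0 : 0 ≤ k1)
    (hy : sy κ t ≤ 0) (hd : d * (1 + κ ^ 2) ≤ sD κ t) (hd0 : 0 < d) (hc0 : 0 ≤ c)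
    (hEY : Real.exp (-sy κ t) ≤ EY)
    (hc : 1 ≤ k1 ∨ k2 * EY * (1 - k1 ^ 2) ≤ c * (2 * (d * (1 + k1 ^ 2)) ^ 2)) :
    sx κ t * (1 - (sx κ t ^ 2 + sy κ t ^ 2)) / (2 * sD κ t ^ 2) ≤ c := by
  have hκ := h.1
  have hx := sx_pos h
  have hsd := sD_pos h
  have hS : κ ^ 2 ≤ sx κ t ^ 2 + sy κ t ^ 2 := by
    rw [s_sq h]
    have : 1 ≤ Real.exp (-2 * sy κ t) := Real.one_le_exp (by linarith)
    nlinarith [sq_nonneg κ]
  have hk2p : 0 < k2 := hκ.trans_le hk2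
  have hEY0 : 0 ≤ EY := (Real.exp_pos _).le.trans hEY
  have hκk : k1 ^ 2 ≤ κ ^ 2 := pow_le_pow_left₀ hk0 hk1 2
  have hxκ : sx κ t ≤ k2 * EY := by
    have h1 : sx κ t ≤ κ * Real.exp (-sy κ t) := by
      rw [← s_norm h]
      apply Real.le_sqrt_of_sq_le
      nlinarith [sq_nonneg (sy κ t)]
    exact h1.trans (mul_le_mul hk2 hEY (Real.exp_pos _).le hk2p.le)
  rw [div_le_iff₀ (by positivity)]
  have h3 : 0 ≤ c * (2 * sD κ t ^ 2) := by positivity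
  rcases le_total 1 (sx κ t ^ 2 + sy κ t ^ 2) with h1 | h1
  · have h2 := mul_nonneg hx.le (sub_nonneg.2 h1)
    linarith
  · rcases hc with hc | hc
    · have h2 : sx κ t ^ 2 + sy κ t ^ 2 = 1 := le_antisymm h1 (by nlinarith)
      rw [h2]; linarith
    · have h2 : sx κ t * (1 - (sx κ t ^ 2 + sy κ t ^ 2)) ≤ k2 * EY * (1 - k1 ^ 2) :=
        mul_le_mul hxκ (by linarith) (by linarith) (by positivity)
      have h4 : d * (1 + k1 ^ 2) ≤ sD κ t := by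
        refine le_trans ?_ hd
        exact mul_le_mul_of_nonneg_left (by linarith) hd0.le
      have h5 : (d * (1 + k1 ^ 2)) ^ 2 ≤ sD κ t ^ 2 := pow_le_pow_left₀ (by positivity) h4 2
      have h6 := mul_le_mul_of_nonneg_left h5 (by positivity : 0 ≤ c * 2)
      linarith

/-- the slope -/
theorem slope7 {β r h κ T t s : ℝ} (p1 p0 μ slo shi e1 e0 c1 c0 : ℝ) (P : Q7 β r h κ T) (hs : t + κ = s * h)
    (hs1 : slo ≤ s) (hs2 : s ≤ shi)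
    (hp1 : p1 * (t + κ) / (1 + κ ^ 2) ≤ sp κ t) (hp0 : sp κ (t - h) ≤ p0 * (t - h + κ) / (1 + κ ^ 2))
    (h1 : |(Ld β r h t 1).im - (r * sp κ t + sx κ t * (1 - (sx κ t ^ 2 + sy κ t ^ 2)) / (2 * sD κ t ^ 2))| ≤ e1)
    (h0 : |(Ld β r h t 0).im - (r * sp κ (t - h) + sx κ (t - h) * (1 - (sx κ (t - h) ^ 2 + sy κ (t - h) ^ 2)) /
      (2 * sD κ (t - h) ^ 2))| ≤ e0)
    (hc1 : -c1 ≤ sx κ t * (1 - (sx κ t ^ 2 + sy κ t ^ 2)) / (2 * sD κ t ^ 2))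
    (hc0 : sx κ (t - h) * (1 - (sx κ (t - h) ^ 2 + sy κ (t - h) ^ 2)) / (2 * sD κ (t - h) ^ 2) ≤ c0)
    (hμ1 : μ * 0.8975981 ≤ p1 * slo + p0 * (1 - slo)) (hμ2 : μ * 0.8975981 ≤ p1 * shi + p0 * (1 - shi)) (hμ0 : 0 ≤ μ) :
    T * μ - (e1 + e0 + c1 + c0) ≤ (Ld β r h t 1 - Ld β r h t 0).im := by
  have hA := P.A0
  have hr := P.r0
  have hh := P.h0
  have hT : 0 < T := by have := P.T5; linarith
  have a1 := (abs_le.1 h1).1
  have a0 := (abs_le.1 h0).2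
  have b1 := mul_le_mul_of_nonneg_left hp1 hr.le
  have b0 := mul_le_mul_of_nonneg_left hp0 hr.le
  have key : T * μ ≤ r * (p1 * (t + κ) / (1 + κ ^ 2)) - r * (p0 * (t - h + κ) / (1 + κ ^ 2)) := by
    have e1 : r * (p1 * (t + κ) / (1 + κ ^ 2)) - r * (p0 * (t - h + κ) / (1 + κ ^ 2)) =
        T * (p1 * s + p0 * (1 - s)) / h := by
      rw [show t - h + κ = (s - 1) * h by linear_combination hs, hs, P.hT]
      field_simp
      ring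
    rw [e1, le_div_iff₀ hh, mul_assoc]
    apply mul_le_mul_of_nonneg_left _ hT.le
    have h3 : μ * h ≤ μ * 0.8975981 := mul_le_mul_of_nonneg_left P.hhi hμ0
    have h4 : 0 ≤ (p0 - μ * 0.8975981) + (p1 - p0) * s := by
      rcases le_total 0 (p1 - p0) with hb | hb
      · have := mul_le_mul_of_nonneg_left hs1 hb; linarith
      · have := mul_le_mul_of_nonpos_left hs2 hb; linarith
    linarith
  rw [Complex.sub_im]
  linarith

theorem sum7 (f : ℤ → ℝ) : ∑ k ∈ far (-3) 7, f k = f (-3) + f (-2) + f (-1) + f 2 + f 3 := by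
  have : far (-3) 7 = {-3, -2, -1, 2, 3} := by decide
  rw [this]
  simp
  ring

/-- values on the five far copies -/
noncomputable def sel7 (x2 x3 y1 y2 y3 : ℝ) (k : ℤ) : ℝ :=
  if k = 2 then x2 else if k = 3 then x3 else if k = -1 then y1 else if k = -2 then y2 else y3

theorem mem7 {k : ℤ} (hk : k ∈ far (-3) 7) : k = -3 ∨ k = -2 ∨ k = -1 ∨ k = 2 ∨ k = 3 := by
  rw [mem_far] at hk
  obtain ⟨⟨h1, h2⟩, h3, h4⟩ := hk
  push_cast at h2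
  omega

/-- window bound of a far copy, at the angles `t` with `s ∈ [u, u + bb]`, relative to `N ℓ e^{-T g(u)}` -/
def WG (β r h κ T slo shi bb ℓ : ℝ) (g : ℝ → ℝ) (k : ℤ) (e : ℝ) : Prop :=
  ∀ t s u Y, t + κ = s * h → slo ≤ u → u ≤ shi → u ≤ s → s ≤ u + bb →
    eN r κ * (ℓ * Real.exp (-(T * g u))) ≤ Y → ‖Xf β r h t k‖ ≤ e * Y

def OutL (β r h κ lo hi : ℝ) : Prop :=
  ∀ t s, t + κ = s * h → lo ≤ s → s ≤ hi → ‖Xf β r h t 0‖ + (‖Xf β r h t (-3)‖ + ‖Xf β r h t (-2)‖ +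
    ‖Xf β r h t (-1)‖ + ‖Xf β r h t 2‖ + ‖Xf β r h t 3‖) < ‖Xf β r h t 1‖

def OutR (β r h κ lo hi : ℝ) : Prop :=
  ∀ t s, t + κ = s * h → lo ≤ s → s ≤ hi → ‖Xf β r h t 1‖ + (‖Xf β r h t (-3)‖ + ‖Xf β r h t (-2)‖ +
    ‖Xf β r h t (-1)‖ + ‖Xf β r h t 2‖ + ‖Xf β r h t 3‖) < ‖Xf β r h t 0‖

theorem fin7 {p : ℤ} (hp : IsCoprime (7 : ℤ) p) {β r h κ T : ℝ} (P : Q7 β r h κ T)
    {slo shi bb ℓ1 ℓ0 C0 e2 e3 f1 g1 f2 f3 a m η Λ0 Λ1 S1 : ℝ} (hlt : slo < shi) (ha : 1 < a) (hm : 0 < m)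
    (hη : 1 < a * (1 - η)) (hl0 : 0 < ℓ0) (hbb : 0.0741 ≤ bb * 0.897597) (hbb0 : 0 ≤ bb)
    (L1 : ∀ t s, t + κ = s * h → slo ≤ s → s ≤ shi → eN r κ * (ℓ1 * Real.exp (-(T * (1 / 2 * s ^ 2)))) ≤ ‖Xf β r h t 1‖)
    (L0 : ∀ t s, t + κ = s * h → slo ≤ s → s ≤ shi →
      eN r κ * (ℓ0 * Real.exp (-(T * (C0 * (1 - s) ^ 2)))) ≤ ‖Xf β r h t 0‖)
    (w2 : WG β r h κ T slo shi bb ℓ1 (fun u => 1 / 2 * u ^ 2) 2 e2)
    (w3 : WG β r h κ T slo shi bb ℓ1 (fun u => 1 / 2 * u ^ 2) 3 e3)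
    (v1 : WG β r h κ T slo shi 0 ℓ0 (fun u => C0 * (1 - u) ^ 2) (-1) f1)
    (v1' : WG β r h κ T slo shi bb ℓ0 (fun u => C0 * (1 - u) ^ 2) (-1) g1)
    (v2 : WG β r h κ T slo shi bb ℓ0 (fun u => C0 * (1 - u) ^ 2) (-2) f2)
    (v3 : WG β r h κ T slo shi bb ℓ0 (fun u => C0 * (1 - u) ^ 2) (-3) f3)
    (hA : OutL β r h κ 0.05 slo) (hC : OutR β r h κ shi 1.05)
    (hΛ0 : ∀ t s, t + κ = s * h → slo ≤ s → s ≤ shi → ‖Ld β r h t 0‖ ≤ Λ0)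
    (hΛ1 : ∀ t s, t + κ = s * h → slo ≤ s → s ≤ shi → ‖Ld β r h t 1‖ ≤ Λ1)
    (hS : ∀ t s, t + κ = s * h → slo ≤ s → s ≤ shi → m ≤ (Ld β r h t 1 - Ld β r h t 0).im)
    (hsum : f3 + f2 + f1 + e2 + e3 ≤ η)
    (hS1 : 3 * (a ^ 4 * f3) * a ^ 4 + 2 * (a ^ 3 * f2) * a ^ 3 + 1 * (a ^ 2 * f1) * a ^ 2 +
      2 * (a ^ 2 * e2) * a ^ 3 + 3 * (a ^ 3 * e3) * a ^ 4 ≤ S1) (hS11 : S1 < 1)
    (hS2 : a * ((a ^ 4 * (r * f3 + f3 * (4 * Λ0 + 3 * Λ1))) * a ^ 3 + (a ^ 3 * (r * f2 + f2 * (3 * Λ0 + 2 * Λ1))) * a ^ 2 +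
      (a ^ 2 * (r * g1 + f1 * (2 * Λ0 + 1 * Λ1))) * a ^ 1 + (a ^ 2 * (r * e2 + e2 * (1 * Λ0 + 2 * Λ1))) * a ^ 2 +
      (a ^ 3 * (r * e3 + e3 * (2 * Λ0 + 3 * Λ1))) * a ^ 3) < m * (1 - S1)) :
    Circ (2 * Real.pi * p / (7 : ℕ) + β) r := by
  have hh := P.h0
  have hβh : β ≤ bb * h := by
    have h1 := mul_le_mul_of_nonneg_left P.hlo hbb0
    have h2 := P.β74
    linarith
  have hsof : ∀ {t : ℝ}, t + κ = (t + κ) / h * h := by intro t; field_simp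
  have win : ∀ {t : ℝ}, slo * h ≤ t + κ → t + κ ≤ shi * h → slo ≤ (t + κ) / h ∧ (t + κ) / h ≤ shi := by
    intro t h1 h2
    exact ⟨(le_div_iff₀ hh).2 h1, (div_le_iff₀ hh).2 h2⟩
  have hshift : ∀ {t : ℝ}, (t + β) + κ = ((t + κ) / h + β / h) * h := by intro t; field_simp; ring
  have hb1 : 0 ≤ β / h := div_nonneg P.hβ.le hh.le
  have hb2 : β / h ≤ bb := by rw [div_le_iff₀ hh]; exact hβh
  refine circ_L (b := 7) (by norm_num) (by exact_mod_cast hp) P.r0 (h := h) (κ := κ) (by rw [P.hh]; norm_num)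
    (a0 := -3) (by norm_num) (by norm_num) (s0 := 0.05) (slo := slo) (shi := shi) (a := a) (m := m) (η := η) (Λ0 := Λ0)
    (Λ1 := Λ1) (E := sel7 e2 e3 f1 f2 f3) (D := sel7 (r * e2) (r * e3) (r * g1) (r * f2) (r * f3)) hlt ha hm hη
    ?_ ?_ ?_ ?_ ?_ ?_ ?_ ?_ ?_ ?_
  · intro t h1 h2
    obtain ⟨h3, h4⟩ := win h1 h2
    have := L0 t _ hsof h3 h4
    intro h0
    rw [h0, norm_zero] at this
    exact absurd this (not_le.2 (mul_pos (eN_pos r κ) (mul_pos hl0 (Real.exp_pos _))))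
  · intro t h1 h2 k hk
    obtain ⟨h3, h4⟩ := win h1 h2
    have y1 := (L1 t _ hsof h3 h4).trans (le_max_right ‖Xf β r h t 0‖ ‖Xf β r h t 1‖)
    have y0 := (L0 t _ hsof h3 h4).trans (le_max_left ‖Xf β r h t 0‖ ‖Xf β r h t 1‖)
    rcases mem7 hk with rfl | rfl | rfl | rfl | rfl
    · exact v3 t _ _ _ hsof h3 h4 le_rfl (by linarith) y0
    · exact v2 t _ _ _ hsof h3 h4 le_rfl (by linarith) y0
    · exact v1 t _ _ _ hsof h3 h4 le_rfl (by linarith) y0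
    · exact w2 t _ _ _ hsof h3 h4 le_rfl (by linarith) y1
    · exact w3 t _ _ _ hsof h3 h4 le_rfl (by linarith) y1
  · intro t h1 h2 k hk
    obtain ⟨h3, h4⟩ := win h1 h2
    have y1 := (L1 t _ hsof h3 h4).trans (le_max_right ‖Xf β r h t 0‖ ‖Xf β r h t 1‖)
    have y0 := (L0 t _ hsof h3 h4).trans (le_max_left ‖Xf β r h t 0‖ ‖Xf β r h t 1‖)
    have mul : ∀ {x e Y : ℝ}, x ≤ e * Y → r * x ≤ (r * e) * Y := by
      intro x e Y hx
      have := mul_le_mul_of_nonneg_left hx P.r0.le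
      linarith
    rcases mem7 hk with rfl | rfl | rfl | rfl | rfl
    · exact mul (v3 (t + β) _ _ _ hshift h3 h4 (by linarith) (by linarith) y0)
    · exact mul (v2 (t + β) _ _ _ hshift h3 h4 (by linarith) (by linarith) y0)
    · exact mul (v1' (t + β) _ _ _ hshift h3 h4 (by linarith) (by linarith) y0)
    · exact mul (w2 (t + β) _ _ _ hshift h3 h4 (by linarith) (by linarith) y1)
    · exact mul (w3 (t + β) _ _ _ hshift h3 h4 (by linarith) (by linarith) y1)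
  · intro t h1 h2
    obtain ⟨h3, h4⟩ := win h1 h2
    exact hΛ0 t _ hsof h3 h4
  · intro t h1 h2
    obtain ⟨h3, h4⟩ := win h1 h2
    exact hΛ1 t _ hsof h3 h4
  · intro t h1 h2
    obtain ⟨h3, h4⟩ := win h1 h2
    exact hS t _ hsof h3 h4
  · rw [sum7]
    simpa [sel7] using hsum
  · intro t h1 h2 h3
    rw [sum7]
    have h4 : 0.05 ≤ (t + κ) / h := (le_div_iff₀ hh).2 h1
    have h5 : (t + κ) / h ≤ 1.05 := (div_le_iff₀ hh).2 (by norm_num at h2 ⊢; linarith)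
    rcases h3 with h3 | h3
    · have := hA t _ hsof h4 ((div_le_iff₀ hh).2 h3.le)
      rw [lt_abs]
      left
      linarith
    · have := hC t _ hsof ((le_div_iff₀ hh).2 h3.le) h5
      rw [lt_abs]
      right
      linarith
  · rw [sum7]
    refine lt_of_le_of_lt ?_ hS11
    refine le_trans (le_of_eq ?_) hS1
    simp [sel7, pw]
  · rw [sum7, sum7]
    have hsum1 : ((-3 : ℤ).natAbs : ℝ) * (a ^ pw (-3) * sel7 e2 e3 f1 f2 f3 (-3)) * a ^ ((-3 : ℤ).natAbs + 1) +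
        ((-2 : ℤ).natAbs : ℝ) * (a ^ pw (-2) * sel7 e2 e3 f1 f2 f3 (-2)) * a ^ ((-2 : ℤ).natAbs + 1) +
        ((-1 : ℤ).natAbs : ℝ) * (a ^ pw (-1) * sel7 e2 e3 f1 f2 f3 (-1)) * a ^ ((-1 : ℤ).natAbs + 1) +
        ((2 : ℤ).natAbs : ℝ) * (a ^ pw 2 * sel7 e2 e3 f1 f2 f3 2) * a ^ ((2 : ℤ).natAbs + 1) +
        ((3 : ℤ).natAbs : ℝ) * (a ^ pw 3 * sel7 e2 e3 f1 f2 f3 3) * a ^ ((3 : ℤ).natAbs + 1) ≤ S1 := by
      refine le_trans (le_of_eq ?_) hS1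
      simp [sel7, pw]
    refine lt_of_lt_of_le ?_ (mul_le_mul_of_nonneg_left (by linarith [hsum1] : 1 - S1 ≤ _) hm.le)
    refine lt_of_eq_of_lt ?_ hS2
    simp [sel7, pw]
    norm_num

end Sok
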