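import Pool.Agent.Lib.MP_816dec_an.R1b7C
import Pool.Agent.Lib.MP_816dec_an.R1Small

/-!
MP_816dec_an (A3, row R1), b = 7: `κ ≤ 0.27`
-/

set_option autoImplicit false
set_option maxHeartbeats 4000000

open Complex Set Filter Topology Metric

namespace Sok

/-- the crude lower bound of `sy` -/
theorem syL_triv {κ t : ℝ} (h : DomR κ t) (k2 Y El : ℝ) (hk2 : κ ≤ k2) (hk36 : k2 ≤ 0.36) (hY0 : 0 ≤ Y) (hY1 : Y ≤ 1)
    (hEl : El ≤ Real.exp (-Y)) (hY : k2 ≤ Y * El) : -Y ≤ sy κ t := by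
  obtain ⟨hI, _⟩ := sy_spec h
  have hke : ¬ (Real.exp (-1) < κ) := by
    have h1 : (0.3678 : ℝ) ≤ Real.exp (-1) := by
      have := Real.exp_neg_one_gt_d9
      norm_num at this ⊢
      linarith
    intro h
    linarith
  have hy1 : -1 < sy κ t := by
    rcases hI.2 with h | h
    · exact absurd h hke
    · exact h
  by_contra hcon
  push Not at hcon
  have h1 := mul_exp_neg_mono (s := Y) (s' := -sy κ t) hY0 (by linarith) (by linarith)
  have h2 := hI.1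
  rw [abs_of_neg (by linarith)] at h2
  rw [neg_neg] at h1
  have h3 := mul_le_mul_of_nonneg_left hEl hY0
  linarith

theorem ndisc {s σ : ℂ} {n0 δ n : ℝ} (h : ‖σ‖ ≤ n0) (hs : ‖s - σ‖ ≤ δ) (hn : n0 + δ ≤ n) : ‖s‖ ≤ n := by
  have := norm_add_le (s - σ) σ
  rw [sub_add_cancel] at this
  linarith

/-- far copy, small `κ` -/
theorem farS {β r h κ T t Y g ℓ k2 : ℝ} {k : ℤ} (n : ℤ) (g2 L ω Eb : ℝ) {e : ℝ} (P : Q7 β r h κ T) (hk2 : κ ≤ k2)
    (h1 : Real.pi / 2 ≤ t + (k - 1) * h + 2 * Real.pi * n) (h2 : t + (k - 1) * h + 2 * Real.pi * n ≤ 3 * Real.pi / 2)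
    (hY : eN r κ * (ℓ * Real.exp (-(T * g))) ≤ Y) (hg0 : 0 ≤ g) (hg : g ≤ g2) (hk3 : k2 ≤ 0.3)
    (hl : 0 ≤ ℓ) (hL0 : 0 < L) (hL : L ^ 4 * (1 + k2 ^ 2) ≤ ℓ ^ 4)
    (hω : ω + 0.805683 * g2 ≤ 1) (hEb : Real.exp (-(10 * ω)) ≤ Eb) (hω0 : 0 ≤ ω) (he : 1.6 * Eb ≤ e * L) :
    ‖Xf β r h t k‖ ≤ e * Y := by
  have hr := P.r0
  have hκ := P.κ0
  have hX : ‖Xf β r h t k‖ ≤ 8 / 5 := by
    rw [Xf_period n]
    exact far_small P.hβ (by have := P.hr; linarith) (by rw [← P.hκ]; linarith) h1 h2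
  have hkk : κ ^ 2 ≤ k2 ^ 2 := pow_le_pow_left₀ hκ.le hk2 2
  have hg2 : 0 ≤ g2 := hg0.trans hg
  have hYe : L * Real.exp (r * ω) ≤ Y := by
    refine Y_exp (k1 := 0) P.hT hr.le le_rfl hκ.le hY hl hL0.le (le_trans ?_ hL) (le_trans ?_ hω) hg0
    · exact mul_le_mul_of_nonneg_left (by linarith) (by positivity)
    · have h3 : h ^ 2 * g ≤ 0.805683 * g2 := mul_le_mul P.h2hi hg hg0 (by norm_num)
      norm_num
      norm_num at h3
      linarith
  have h4 : Real.exp (10 * ω) ≤ Real.exp (r * ω) := Real.exp_le_exp.2 (mul_le_mul_of_nonneg_right P.hr hω0)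
  have h5 : 1 ≤ Eb * Real.exp (10 * ω) := by
    have := mul_le_mul_of_nonneg_right hEb (Real.exp_pos (10 * ω)).le
    rw [← Real.exp_add, neg_add_cancel, Real.exp_zero] at this
    exact this
  have hEb0 : 0 < Eb := lt_of_lt_of_le (Real.exp_pos _) hEb
  have he0 : 0 < e := by
    by_contra hcon
    push Not at hcon
    have := mul_nonpos_of_nonpos_of_nonneg hcon hL0.le
    linarith
  have h6 : 1.6 * 1 ≤ 1.6 * (Eb * Real.exp (10 * ω)) := mul_le_mul_of_nonneg_left h5 (by norm_num)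
  have h7 := mul_le_mul_of_nonneg_right he (Real.exp_pos (10 * ω)).le
  have h8 := mul_le_mul_of_nonneg_left ((mul_le_mul_of_nonneg_left h4 hL0.le).trans hYe) he0.le
  norm_num at h6 h7 hX
  linarith

/-- left tables -/
theorem VLs1x7 {κ t : ℝ} (h : DomR κ t) (hk : κ ≤ 1.39) (h0 : t + κ ≤ -1.1) (h1 : -1.6 ≤ t + κ) :
    sE κ t ≤ 1 - 0.3645 * (t + κ) ^ 2 / (1 + κ ^ 2) := by
  have hA : 0 < 1 + κ ^ 2 := by positivity
  have key : ∀ c : ℝ, 0.3645 ≤ c → sE κ t ≤ 1 - c * (t + κ) ^ 2 / (1 + κ ^ 2) →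
      sE κ t ≤ 1 - 0.3645 * (t + κ) ^ 2 / (1 + κ ^ 2) := by
    intro c hc h2
    have : 0.3645 * (t + κ) ^ 2 / (1 + κ ^ 2) ≤ c * (t + κ) ^ 2 / (1 + κ ^ 2) :=
      div_le_div_of_nonneg_right (mul_le_mul_of_nonneg_right hc (sq_nonneg _)) hA.le
    linarith
  rcases le_total (-(t + κ)) 1.2 with a | a
  · exact key _ (by norm_num) (VL_11_12 h (by linarith) (by linarith) a)
  rcases le_total (-(t + κ)) 1.3 with b | b
  · exact key _ (by norm_num) (VL_12_13 h (by linarith) a b)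
  rcases le_total (-(t + κ)) 1.4 with c | c
  · exact key _ (by norm_num) (VL_13_14 h (by linarith) b c)
  rcases le_total (-(t + κ)) 1.5 with d | d
  · exact key _ (by norm_num) (VL_14_15 h (by linarith) c d)
  · exact VL_15_16 h (by linarith) d (by linarith)

theorem VLs2x7 {κ t : ℝ} (h : DomR κ t) (hk : κ ≤ 1.39) (h0 : t + κ ≤ -0.8) (h1 : -1.3 ≤ t + κ) :
    sE κ t ≤ 1 - 0.406 * (t + κ) ^ 2 / (1 + κ ^ 2) := by
  have hA : 0 < 1 + κ ^ 2 := by positivity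
  have key : ∀ c : ℝ, 0.406 ≤ c → sE κ t ≤ 1 - c * (t + κ) ^ 2 / (1 + κ ^ 2) →
      sE κ t ≤ 1 - 0.406 * (t + κ) ^ 2 / (1 + κ ^ 2) := by
    intro c hc h2
    have : 0.406 * (t + κ) ^ 2 / (1 + κ ^ 2) ≤ c * (t + κ) ^ 2 / (1 + κ ^ 2) :=
      div_le_div_of_nonneg_right (mul_le_mul_of_nonneg_right hc (sq_nonneg _)) hA.le
    linarith
  rcases le_total (-(t + κ)) 0.9 with a | a
  · exact key _ (by norm_num) (VL_08_09 h (by linarith) (by linarith) a)
  rcases le_total (-(t + κ)) 1 with b | b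
  · exact key _ (by norm_num) (VL_09_10 h (by linarith) a b)
  rcases le_total (-(t + κ)) 1.1 with c | c
  · exact key _ (by norm_num) (VL_10_11 h (by linarith) b c)
  rcases le_total (-(t + κ)) 1.2 with d | d
  · exact key _ (by norm_num) (VL_11_12 h (by linarith) c d)
  · exact VL_12_13 h (by linarith) d (by linarith)

private theorem JG27p {β x y : ℝ} (hβ : 0 < β) (hN : β * 37 ≤ 1) (hn : ‖(x + y * I : ℂ)‖ ≤ 0.27) : ‖HH β (x + y * I) - 1‖ ≤ 0.0052 := by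
  refine le_epsJ (C := 0.1866) (N0 := 37) (J45_genN (N := 37) (r0 := 6.0828) (f := 2.9624) (n0 := 0.27) (a := 0.73) (wL := 1.405) (wR := 1.578)
    (E1 := 0.0005077) (E2 := 0.0000003101) (E3 := 0.001783) (E4 := 0.0000003101) (E5 := 0.0000003101) hβ (by norm_num) hN
    (by norm_num) (by norm_num) (by norm_num) hn (by norm_num) (by norm_num) (by norm_num)
    (cube_sqrt_geJ (s := 0.9526) (by norm_num) (by norm_num) (by norm_num) (by norm_num))
    (cube_sqrt_geJ (s := 0.9369) (by norm_num) (by norm_num) (by norm_num) (by norm_num))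
    (exp_neg_leJ (r := 0.586) 7 (by norm_num) (by norm_num) (by norm_num) (by norm_num))
    (exp_neg_leJ (r := 0.99) 14 (by norm_num) (by norm_num) (by norm_num) (by norm_num))
    (exp_neg_leJ (r := 0.33) 6 (by norm_num) (by norm_num) (by norm_num) (by norm_num))
    (exp_neg_leJ (r := 0.99) 14 (by norm_num) (by norm_num) (by norm_num) (by norm_num))
    (exp_neg_leJ (r := 0.99) 14 (by norm_num) (by norm_num) (by norm_num) (by norm_num))
    (by norm_num)) (by norm_num) hN hβ.le (by norm_num)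

theorem JG27 {β x y : ℝ} (hβ : 0 < β) (hb : β ≤ 0.027) (hn : ‖(x + y * I : ℂ)‖ ≤ 0.27) : ‖HH β (x + y * I) - 1‖ ≤ 0.0052 :=
  JG27p hβ (by linarith) hn

theorem JG27s {β : ℝ} {s : ℂ} (hβ : 0 < β) (hb : β ≤ 0.027) (hn : ‖s‖ ≤ 0.27) : ‖HH β s - 1‖ ≤ 0.0052 := by
  have e : s = ((s.re : ℝ) : ℂ) + ((s.im : ℝ) : ℂ) * I := (Complex.re_add_im s).symm
  rw [e] at hn ⊢
  exact JG27 hβ hb hn

private theorem JG37p {β x y : ℝ} (hβ : 0 < β) (hN : β * 37 ≤ 1) (hn : ‖(x + y * I : ℂ)‖ ≤ 0.37) : ‖HH β (x + y * I) - 1‖ ≤ 0.0154 := by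
  refine le_epsJ (C := 0.5636) (N0 := 37) (J45_genN (N := 37) (r0 := 6.0828) (f := 2.9624) (n0 := 0.37) (a := 0.63) (wL := 1.744) (wR := 2.126)
    (E1 := 0.001435) (E2 := 0.0000003101) (E3 := 0.008032) (E4 := 0.0000004314) (E5 := 0.0000003101) hβ (by norm_num) hN
    (by norm_num) (by norm_num) (by norm_num) hn (by norm_num) (by norm_num) (by norm_num)
    (cube_sqrt_geJ (s := 0.9236) (by norm_num) (by norm_num) (by norm_num) (by norm_num))
    (cube_sqrt_geJ (s := 0.8978) (by norm_num) (by norm_num) (by norm_num) (by norm_num))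
    (exp_neg_leJ (r := 0.547) 6 (by norm_num) (by norm_num) (by norm_num) (by norm_num))
    (exp_neg_leJ (r := 0.99) 14 (by norm_num) (by norm_num) (by norm_num) (by norm_num))
    (exp_neg_leJ (r := 0.826) 4 (by norm_num) (by norm_num) (by norm_num) (by norm_num))
    (exp_neg_leJ (r := 0.657) 14 (by norm_num) (by norm_num) (by norm_num) (by norm_num))
    (exp_neg_leJ (r := 0.99) 14 (by norm_num) (by norm_num) (by norm_num) (by norm_num))
    (by norm_num)) (by norm_num) hN hβ.le (by norm_num)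

theorem JG37 {β x y : ℝ} (hβ : 0 < β) (hb : β ≤ 0.027) (hn : ‖(x + y * I : ℂ)‖ ≤ 0.37) : ‖HH β (x + y * I) - 1‖ ≤ 0.0154 :=
  JG37p hβ (by linarith) hn

theorem JG37s {β : ℝ} {s : ℂ} (hβ : 0 < β) (hb : β ≤ 0.027) (hn : ‖s‖ ≤ 0.37) : ‖HH β s - 1‖ ≤ 0.0154 := by
  have e : s = ((s.re : ℝ) : ℂ) + ((s.im : ℝ) : ℂ) * I := (Complex.re_add_im s).symm
  rw [e] at hn ⊢
  exact JG37 hβ hb hn

private theorem JG42p {β x y : ℝ} (hβ : 0 < β) (hN : β * 37 ≤ 1) (hn : ‖(x + y * I : ℂ)‖ ≤ 0.42) : ‖HH β (x + y * I) - 1‖ ≤ 0.0286 := by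
  refine le_epsJ (C := 1.0517) (N0 := 37) (J45_genN (N := 37) (r0 := 6.0828) (f := 2.9624) (n0 := 0.42) (a := 0.58) (wL := 2.012) (wR := 2.601)
    (E1 := 0.002411) (E2 := 0.0000003101) (E3 := 0.01701) (E4 := 0.000008829) (E5 := 0.0000003101) hβ (by norm_num) hN
    (by norm_num) (by norm_num) (by norm_num) hn (by norm_num) (by norm_num) (by norm_num)
    (cube_sqrt_geJ (s := 0.9049) (by norm_num) (by norm_num) (by norm_num) (by norm_num))
    (cube_sqrt_geJ (s := 0.8723) (by norm_num) (by norm_num) (by norm_num) (by norm_num))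
    (exp_neg_leJ (r := 0.028) 6 (by norm_num) (by norm_num) (by norm_num) (by norm_num))
    (exp_neg_leJ (r := 0.99) 14 (by norm_num) (by norm_num) (by norm_num) (by norm_num))
    (exp_neg_leJ (r := 0.074) 4 (by norm_num) (by norm_num) (by norm_num) (by norm_num))
    (exp_neg_leJ (r := 0.638) 11 (by norm_num) (by norm_num) (by norm_num) (by norm_num))
    (exp_neg_leJ (r := 0.99) 14 (by norm_num) (by norm_num) (by norm_num) (by norm_num))
    (by norm_num)) (by norm_num) hN hβ.le (by norm_num)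

theorem JG42 {β x y : ℝ} (hβ : 0 < β) (hb : β ≤ 0.027) (hn : ‖(x + y * I : ℂ)‖ ≤ 0.42) : ‖HH β (x + y * I) - 1‖ ≤ 0.0286 :=
  JG42p hβ (by linarith) hn

theorem JG42s {β : ℝ} {s : ℂ} (hβ : 0 < β) (hb : β ≤ 0.027) (hn : ‖s‖ ≤ 0.42) : ‖HH β s - 1‖ ≤ 0.0286 := by
  have e : s = ((s.re : ℝ) : ℂ) + ((s.im : ℝ) : ℂ) * I := (Complex.re_add_im s).symm
  rw [e] at hn ⊢
  exact JG42 hβ hb hn

private theorem g7_yL1 {κ t : ℝ} (h : DomR κ t) (hk2 : κ ≤ 0.27) (ht1 : 0 ≤ t + κ) (ht2 : t + κ ≤ 0.5296) :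
    0 ≤ sy κ t ∧ sy κ t ≤ 0.218 :=
  ⟨sy_nonneg h (by linarith), syR_triv h 0.27 0.218 1.24358 hk2 (by norm_num) (expn_ge (by norm_num) (by norm_num)) (by norm_num)⟩

theorem g7_L1 {β r h κ T t s : ℝ} (B : Bx 0 0.27 0.2517 0 10 0.027 7.5093 β r h κ T) (hs : t + κ = s * h)
    (h1 : 0.05 ≤ s) (h2 : s ≤ 0.59) :
    eN r κ * (0.9087 * Real.exp (-(T * (1 / 2 * s ^ 2)))) ≤ ‖Xf β r h t 1‖ := by
  have a1 : 0.0448 ≤ t + κ := by rw [hs]; exact mlo7 B.P h1 (by norm_num) (by norm_num)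
  have a2 : t + κ ≤ 0.5296 := by rw [hs]; exact mhi7 B.P h2 (by norm_num) (by norm_num)
  have hk := B.P.κ0
  have hD : DomR κ t := dom7 B.P.κ0 (by linarith) (by linarith)
  have hy := g7_yL1 hD B.hk2 (by linarith) a2
  have hJ : ‖HH β (sg κ t) - 1‖ ≤ 0.0052 := JG27 B.P.hβ (by have := B.hβ0; linarith) (norm_sg_le hD 0.27 0 1 0.27 B.hk2 hy.1 (by simp) (by norm_num))
  have hd := Dup7 hD (0 ^ 2) (0.27 ^ 2) 1.436 0 0.218 1 0.64662 hy.1 hy.2 (pow_le_pow_left₀ (by norm_num) B.hk1 2) (pow_le_pow_left₀ B.P.κ0.le B.hk2 2)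
      (by norm_num)
      (by rw [show (-2 * 0.218 : ℝ) = -0.436 by norm_num]; exact expm_le (by norm_num) (by norm_num) (by norm_num)) (by norm_num) (by norm_num) (by norm_num) (by norm_num)
  have := loR7 (k := 1) 0 0.0052 1.436 0.9087 B.P (by norm_num) (by ring : t = t + 0 * h) hs (by linarith) hD (by norm_num) hJ hd (by norm_num) (by norm_num)
  rw [add_zero] at this
  exact this

private theorem g7_yL0 {κ t : ℝ} (h : DomR κ t) (hk2 : κ ≤ 0.27) (ht1 : (-0.5117) ≤ t + κ) (ht2 : t + κ ≤ 0) :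
    -0.171 ≤ sy κ t ∧ sy κ t ≤ 0 :=
  ⟨syL_ang h 0.27 0.5117 0.56 0.8472 0.5312 0.171 0.84282 hk2 (by norm_num) (by linarith) (by norm_num) (by norm_num) (cos_ge_num (by norm_num) (by norm_num)) (sin_le_num (by norm_num) (by norm_num)) (by norm_num)
    (expm_ge (by norm_num) (by norm_num) (by norm_num) (by norm_num)) (by norm_num) (by norm_num), sy_nonpos h (by linarith)⟩

private theorem g7_yL00 {κ t : ℝ} (h : DomR κ t) (hk2 : κ ≤ 0.27) (ht1 : 0 ≤ t + κ) (ht2 : t + κ ≤ 0.05) :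
    0 ≤ sy κ t ∧ sy κ t ≤ 0.218 :=
  ⟨sy_nonneg h (by linarith), syR_triv h 0.27 0.218 1.24358 hk2 (by norm_num) (expn_ge (by norm_num) (by norm_num)) (by norm_num)⟩

theorem g7_L0 {β r h κ T t s : ℝ} (B : Bx 0 0.27 0.2517 0 10 0.027 7.5093 β r h κ T) (hs : t + κ = s * h)
    (h1 : 0.43 ≤ s) (h2 : s ≤ 1.05) :
    eN r κ * (0.8994 * Real.exp (-(T * (0.5924 * (1 - s) ^ 2)))) ≤ ‖Xf β r h t 0‖ := by
  obtain ⟨t', ht'⟩ : ∃ t', t' = t + (-1) * h := ⟨_, rfl⟩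
  have hτ : t' + κ = (s + (-1)) * h := by rw [ht']; linear_combination hs
  have e : 0.5924 * (1 - s) ^ 2 = 0.5924 * (s + (-1)) ^ 2 := by ring
  rw [e]
  have b1 : -((s + (-1)) * h) ≤ 0.5117 := mhiN7 B.P (x2 := 0.57) (by linarith) (by norm_num) (by norm_num)
  have b2 : (s + (-1)) * h ≤ 0.05 := mhi7 B.P (x2 := 0.05) (by linarith) (by norm_num) (by norm_num)
  have hk := B.P.κ0
  have hk' := B.hk2
  rw [← hτ] at b1 b2
  have hD : DomR κ t' := dom7 B.P.κ0 (by linarith) (by linarith)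
  rcases le_total s 1 with hc | hc
  · have b3 : t' + κ ≤ 0 := by rw [hτ]; exact mul_nonpos_of_nonpos_of_nonneg (by linarith) B.P.h0.le
    have hy := g7_yL0 hD B.hk2 (by linarith) b3
    have hJ : ‖HH β (sg κ t') - 1‖ ≤ 0.0154 := JG37 B.P.hβ (by have := B.hβ0; linarith) (norm_sg_le hD 0.27 (-0.171) 1.1865 0.37 B.hk2 hy.1 (by rw [neg_neg]; exact expn_le (by norm_num) (by norm_num) (by norm_num)) (by norm_num))
    have hd := Dup7 hD (0 ^ 2) (0.27 ^ 2) 1.436 (-0.171) 0 1.40777 1 hy.1 hy.2 (pow_le_pow_left₀ (by norm_num) B.hk1 2) (pow_le_pow_left₀ B.P.κ0.le B.hk2 2)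
      (by rw [show (-2 * (-0.171) : ℝ) = 0.342 by norm_num]; exact expn_le (by norm_num) (by norm_num) (by norm_num))
      (by norm_num) (by norm_num) (by norm_num) (by norm_num) (by norm_num)
    exact loLB7 (k := 0) (-1) 0.0154 1.436 0.8994 0.5924 0.5117 0.5 0.068 1 B (by norm_num) ht' hs (by linarith) (by rw [← hτ]; exact b1) hD (by norm_num) hJ hd
      (by norm_num) (by norm_num) (by norm_num) (by norm_num) (by norm_num) (by norm_num) (by norm_num) (by norm_num) (by norm_num) (by norm_num) (by norm_num) (by norm_num) (by norm_num)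
  · have b3 : 0 ≤ t' + κ := by rw [hτ]; exact mul_nonneg (by linarith) B.P.h0.le
    have hy := g7_yL00 hD B.hk2 b3 b2
    have hJ : ‖HH β (sg κ t') - 1‖ ≤ 0.0154 := (JG27 B.P.hβ (by have := B.hβ0; linarith) (norm_sg_le hD 0.27 0 1 0.27 B.hk2 hy.1 (by simp) (by norm_num))).trans (by norm_num)
    have hd := Dup7 hD (0 ^ 2) (0.27 ^ 2) 1.436 0 0.218 1 0.64662 hy.1 hy.2 (pow_le_pow_left₀ (by norm_num) B.hk1 2) (pow_le_pow_left₀ B.P.κ0.le B.hk2 2)
      (by norm_num)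
      (by rw [show (-2 * 0.218 : ℝ) = -0.436 by norm_num]; exact expm_le (by norm_num) (by norm_num) (by norm_num)) (by norm_num) (by norm_num) (by norm_num) (by norm_num)
    have := loR7 (k := 0) (-1) 0.0154 1.436 0.8994 B.P (by norm_num) ht' hs (by linarith) hD (by norm_num) hJ hd (by norm_num) (by norm_num)
    exact le_trans (weak7 (by have := B.P.T5; linarith) (by norm_num) (by norm_num)) this

private theorem g7_W2_y {κ t : ℝ} (h : DomR κ t) (hk2 : κ ≤ 0.27) (ht1 : 1.2835 ≤ t + κ) (ht2 : t + κ ≤ 1.5014) :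
    0 ≤ sy κ t ∧ sy κ t ≤ 0.218 :=
  ⟨sy_nonneg h (by linarith), syR_triv h 0.27 0.218 1.24358 hk2 (by norm_num) (expn_ge (by norm_num) (by norm_num)) (by norm_num)⟩

theorem g7_W2 {β r h κ T t s u Y : ℝ} (B : Bx 0 0.27 0.2517 0 10 0.027 7.5093 β r h κ T) (hs : t + κ = s * h)
    (h1 : 0.43 ≤ u) (h2 : u ≤ 0.59) (h3 : u ≤ s) (h4 : s ≤ u + 0.0826)
    (hY : eN r κ * (0.9087 * Real.exp (-(T * (1 / 2 * u ^ 2)))) ≤ Y) :
    ‖Xf β r h t (2)‖ ≤ 0.01356 * Y := by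
  obtain ⟨t', ht'⟩ : ∃ t', t' = t + (1) * h := ⟨_, rfl⟩
  have hτ : t' + κ = (s + 1) * h := by rw [ht']; linear_combination hs
  have hpi := Real.pi_gt_d6
  have hpi' := Real.pi_lt_d6
  have hk := B.P.κ0
  have hk' := B.hk2
  have a1 : 1.2835 ≤ t' + κ := by rw [hτ]; exact mlo7 B.P (x1 := 1.43) (by linarith) (by norm_num) (by norm_num)
  have a2 : t' + κ ≤ 1.5014 := by rw [hτ]; exact mhi7 B.P (x2 := 1.6726) (by linarith) (by norm_num) (by norm_num)
  have hD : DomR κ t' := ⟨hk, by norm_num at hpi; linarith, Or.inr (by norm_num at hpi; linarith)⟩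
  have hy := g7_W2_y hD B.hk2 a1 a2
  have hJ : ‖HH β (sg κ t') - 1‖ ≤ 0.0052 := JG27 B.P.hβ (by have := B.hβ0; linarith) (norm_sg_le hD 0.27 0 1 0.27 B.hk2 hy.1 (by simp) (by norm_num))
  have hd := Dlo7 hD (0 ^ 2) (0.27 ^ 2) 1 0 0.218 0 1 hy.1 hy.2 (pow_le_pow_left₀ (by norm_num) B.hk1 2) (pow_le_pow_left₀ B.P.κ0.le B.hk2 2)
      (by norm_num) (by norm_num) (by norm_num) (by norm_num) (by norm_num) (by norm_num)
  have hc : sE κ t' ≤ 1 - 0.332 * (t' + κ) ^ 2 / (1 + κ ^ 2) := VR7 0.53 0.332 1.2835 1.5014 _ _ _ _ _ B hD a1 a2 (by norm_num) (by norm_num) (by norm_num) (by norm_num) rfl rfl (by norm_num) rfl rfl rfl (by norm_num) (by norm_num)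
  exact up7 1 0.0052 0.332 1 1.0053 0.9087 0.5864 0.01225 0.01356 B (by norm_num) ht' hs hD (by norm_num) hJ hc hd (by norm_num) (by norm_num) (by norm_num) hY (by norm_num)
    (ch1 (a := 1) (by norm_num) (sqR h1 h3 (by norm_num)) (by norm_num) h1 h2 (by norm_num) (by norm_num)) (by norm_num)
    (expn 4 0.4034 (by norm_num) (by norm_num) (by norm_num) (by norm_num)) (by norm_num) (by norm_num)

theorem g7_W3 {β r h κ T t s u Y : ℝ} (B : Bx 0 0.27 0.2517 0 10 0.027 7.5093 β r h κ T) (hs : t + κ = s * h)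
    (h1 : 0.43 ≤ u) (h2 : u ≤ 0.59) (h3 : u ≤ s) (h4 : s ≤ u + 0.0826)
    (hY : eN r κ * (0.9087 * Real.exp (-(T * (1 / 2 * u ^ 2)))) ≤ Y) :
    ‖Xf β r h t (3)‖ ≤ 0.0003321 * Y := by
  have hpi := Real.pi_gt_d6
  have hpi' := Real.pi_lt_d6
  have hk := B.P.κ0
  have hk' := B.hk2
  have e : t + (((3 : ℤ) : ℝ) - 1) * h + 2 * Real.pi * ((0 : ℤ) : ℝ) = (s + 2) * h - κ := by
    rw [B.P.hh] at hs ⊢; push_cast; linear_combination hs
  refine farS (n := 0) 0.1741 0.8928 0.8597 0.0001853 B.P B.hk2 ?_ ?_ hY g1_nn (g1_le (by linarith) h2 (by norm_num)) (by norm_num) (by norm_num) (by norm_num) (by norm_num) (by norm_num) (expn 8 0.597 (by norm_num) (by norm_num) (by norm_num) (by norm_num)) (by norm_num) (by norm_num)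
  · rw [e]
    have := mlo7 B.P (x := s + 2) (x1 := 2.43) (τ1 := 2.1811) (by linarith) (by norm_num) (by norm_num)
    norm_num at hpi hpi' hk' this ⊢
    linarith
  · rw [e]
    have := mhi7 B.P (x := s + 2) (x2 := 2.6726) (τ2 := 2.399) (by linarith) (by norm_num) (by norm_num)
    norm_num at hpi hpi' hk' this ⊢
    linarith

private theorem g7_Wm1R_y {κ t : ℝ} (h : DomR κ t) (hk2 : κ ≤ 0.27) (ht1 : (-1.4093) ≤ t + κ) (ht2 : t + κ ≤ (-1.2656)) :
    -0.405 ≤ sy κ t ∧ sy κ t ≤ 0 :=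
  ⟨syL_triv h 0.27 0.405 0.66697 hk2 (by norm_num) (by norm_num) (by norm_num) (expm_ge (by norm_num) (by norm_num) (by norm_num) (by norm_num)) (by norm_num), sy_nonpos h (by linarith)⟩

theorem g7_Wm1R {β r h κ T t s u Y : ℝ} (B : Bx 0 0.27 0.2517 0 10 0.027 7.5093 β r h κ T) (hs : t + κ = s * h)
    (h1 : 0.43 ≤ u) (h2 : u ≤ 0.59) (h3 : u ≤ s) (h4 : s ≤ u + 0) (hp : -(Real.pi / 2) < t + (-2) * h)
    (hY : eN r κ * (0.8994 * Real.exp (-(T * (0.5924 * (1 - u) ^ 2)))) ≤ Y) :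
    ‖Xf β r h t (-1)‖ ≤ 0.01596 * Y := by
  obtain ⟨t', ht'⟩ : ∃ t', t' = t + (-2) * h := ⟨_, rfl⟩
  have hτ : t' + κ = (s + (-2)) * h := by rw [ht']; linear_combination hs
  have hpi := Real.pi_gt_d6
  have hpi' := Real.pi_lt_d6
  have hk := B.P.κ0
  have hk' := B.hk2
  have a1 : (-1.4093) ≤ t' + κ := by rw [hτ]; have := mhiN7 B.P (x := s + (-2)) (x2 := 1.57) (τ2 := 1.4093) (by linarith) (by norm_num) (by norm_num); linarith
  have a2 : t' + κ ≤ (-1.2656) := by rw [hτ]; have := mloN7 B.P (x := s + (-2)) (x1 := 1.41) (τ1 := 1.2656) (by linarith) (by norm_num) (by norm_num); linarith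
  have hD : DomR κ t' := ⟨hk, by norm_num at hpi; linarith, Or.inr (by rw [ht']; exact hp)⟩
  have hy := g7_Wm1R_y hD B.hk2 a1 a2
  have hJ : ‖HH β (sg κ t') - 1‖ ≤ 0.0286 := JG42 B.P.hβ (by have := B.hβ0; linarith) (norm_sg_le hD 0.27 (-0.405) 1.49931 0.42 B.hk2 hy.1 (by rw [neg_neg]; exact expn_le (by norm_num) (by norm_num) (by norm_num)) (by norm_num))
  have hd := Dlo7 hD (0 ^ 2) (0.27 ^ 2) 0.19 (-0.405) 0 (-0.405) 2.24785 hy.1 hy.2 (pow_le_pow_left₀ (by norm_num) B.hk1 2) (pow_le_pow_left₀ B.P.κ0.le B.hk2 2)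
      (by rw [show (-2 * (-0.405) : ℝ) = 0.81 by norm_num]; exact expn_ge (by norm_num) (by norm_num)) (by norm_num) (by norm_num) (by norm_num) (by norm_num) (by norm_num)
  have hc : sE κ t' ≤ 1 - 0.3645 * (t' + κ) ^ 2 / (1 + κ ^ 2) := VLs1x7 hD (by linarith) (by linarith) (by linarith)
  exact up7 (-2) 0.0286 0.3645 0.19 1.558 0.8994 0.625 0.009208 0.01596 B (by norm_num) ht' hs hD (by norm_num) hJ hc hd (by norm_num) (by norm_num) (by norm_num) hY (by norm_num)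
    (ch0 (a := (-2)) (by norm_num) (sqL h2 h4 (by norm_num) (by norm_num)) (by norm_num) h1 h2 (by norm_num) (by norm_num)) (by norm_num)
    (expn 4 0.6933 (by norm_num) (by norm_num) (by norm_num) (by norm_num)) (by norm_num) (by norm_num)

theorem g7_Wm1F {β r h κ T t s u Y : ℝ} (B : Bx 0 0.27 0.2517 0 10 0.027 7.5093 β r h κ T) (hs : t + κ = s * h)
    (h1 : 0.43 ≤ u) (h2 : u ≤ 0.59) (h3 : u ≤ s) (h4 : s ≤ u + 0) (hp : t + (-2) * h ≤ -(Real.pi / 2))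
    (hY : eN r κ * (0.8994 * Real.exp (-(T * (0.5924 * (1 - u) ^ 2)))) ≤ Y) :
    ‖Xf β r h t (-1)‖ ≤ 0.0003882 * Y := by
  have hpi := Real.pi_gt_d6
  have hpi' := Real.pi_lt_d6
  have hk := B.P.κ0
  have hk' := B.hk2
  have e : t + (((-1 : ℤ) : ℝ) - 1) * h + 2 * Real.pi * ((1 : ℤ) : ℝ) = (s + 5) * h - κ := by
    rw [B.P.hh] at hs ⊢; push_cast; linear_combination hs
  refine farS (n := 1) 0.1925 0.8837 0.8449 0.0002144 B.P B.hk2 ?_ ?_ hY (g0_nn (by norm_num)) (g0_le (by norm_num) h1 h2 (by norm_num) (by norm_num)) (by norm_num) (by norm_num) (by norm_num) (by norm_num) (by norm_num) (expn 8 0.449 (by norm_num) (by norm_num) (by norm_num) (by norm_num)) (by norm_num) (by norm_num)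
  · rw [e]
    have := mlo7 B.P (x := s + 5) (x1 := 5.43) (τ1 := 4.8739) (by linarith) (by norm_num) (by norm_num)
    norm_num at hpi hpi' hk' this ⊢
    linarith
  · push_cast; norm_num at hp ⊢; linarith

theorem g7_Wm1 {β r h κ T t s u Y : ℝ} (B : Bx 0 0.27 0.2517 0 10 0.027 7.5093 β r h κ T) (hs : t + κ = s * h)
    (h1 : 0.43 ≤ u) (h2 : u ≤ 0.59) (h3 : u ≤ s) (h4 : s ≤ u + 0)
    (hY : eN r κ * (0.8994 * Real.exp (-(T * (0.5924 * (1 - u) ^ 2)))) ≤ Y) :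
    ‖Xf β r h t (-1)‖ ≤ 0.01596 * Y := by
  rcases lt_or_ge (-(Real.pi / 2)) (t + (-2) * h) with hp | hp
  · exact leE (g7_Wm1R B hs h1 h2 h3 h4 hp hY) (by norm_num) hY (by norm_num)
  · exact leE (g7_Wm1F B hs h1 h2 h3 h4 hp hY) (by norm_num) hY (by norm_num)

private theorem g7_Wm1pR_y {κ t : ℝ} (h : DomR κ t) (hk2 : κ ≤ 0.27) (ht1 : (-1.4093) ≤ t + κ) (ht2 : t + κ ≤ (-1.1914)) :
    -0.405 ≤ sy κ t ∧ sy κ t ≤ 0 :=
  ⟨syL_triv h 0.27 0.405 0.66697 hk2 (by norm_num) (by norm_num) (by norm_num) (expm_ge (by norm_num) (by norm_num) (by norm_num) (by norm_num)) (by norm_num), sy_nonpos h (by linarith)⟩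

theorem g7_Wm1pR {β r h κ T t s u Y : ℝ} (B : Bx 0 0.27 0.2517 0 10 0.027 7.5093 β r h κ T) (hs : t + κ = s * h)
    (h1 : 0.43 ≤ u) (h2 : u ≤ 0.59) (h3 : u ≤ s) (h4 : s ≤ u + 0.0826) (hp : -(Real.pi / 2) < t + (-2) * h)
    (hY : eN r κ * (0.8994 * Real.exp (-(T * (0.5924 * (1 - u) ^ 2)))) ≤ Y) :
    ‖Xf β r h t (-1)‖ ≤ 0.02947 * Y := by
  obtain ⟨t', ht'⟩ : ∃ t', t' = t + (-2) * h := ⟨_, rfl⟩
  have hτ : t' + κ = (s + (-2)) * h := by rw [ht']; linear_combination hs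
  have hpi := Real.pi_gt_d6
  have hpi' := Real.pi_lt_d6
  have hk := B.P.κ0
  have hk' := B.hk2
  have a1 : (-1.4093) ≤ t' + κ := by rw [hτ]; have := mhiN7 B.P (x := s + (-2)) (x2 := 1.57) (τ2 := 1.4093) (by linarith) (by norm_num) (by norm_num); linarith
  have a2 : t' + κ ≤ (-1.1914) := by rw [hτ]; have := mloN7 B.P (x := s + (-2)) (x1 := 1.3274) (τ1 := 1.1914) (by linarith) (by norm_num) (by norm_num); linarith
  have hD : DomR κ t' := ⟨hk, by norm_num at hpi; linarith, Or.inr (by rw [ht']; exact hp)⟩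
  have hy := g7_Wm1pR_y hD B.hk2 a1 a2
  have hJ : ‖HH β (sg κ t') - 1‖ ≤ 0.0286 := JG42 B.P.hβ (by have := B.hβ0; linarith) (norm_sg_le hD 0.27 (-0.405) 1.49931 0.42 B.hk2 hy.1 (by rw [neg_neg]; exact expn_le (by norm_num) (by norm_num) (by norm_num)) (by norm_num))
  have hd := Dlo7 hD (0 ^ 2) (0.27 ^ 2) 0.19 (-0.405) 0 (-0.405) 2.24785 hy.1 hy.2 (pow_le_pow_left₀ (by norm_num) B.hk1 2) (pow_le_pow_left₀ B.P.κ0.le B.hk2 2)
      (by rw [show (-2 * (-0.405) : ℝ) = 0.81 by norm_num]; exact expn_ge (by norm_num) (by norm_num)) (by norm_num) (by norm_num) (by norm_num) (by norm_num) (by norm_num)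
  have hc : sE κ t' ≤ 1 - 0.3645 * (t' + κ) ^ 2 / (1 + κ ^ 2) := VLs1x7 hD (by linarith) (by linarith) (by linarith)
  exact up7 (-2) 0.0286 0.3645 0.19 1.558 0.8994 0.5426 0.01701 0.02947 B (by norm_num) ht' hs hD (by norm_num) hJ hc hd (by norm_num) (by norm_num) (by norm_num) hY (by norm_num)
    (ch0 (a := (-1.9174)) (by norm_num) (sqL h2 h4 (by norm_num) (by norm_num)) (by norm_num) h1 h2 (by norm_num) (by norm_num)) (by norm_num)
    (expn 4 0.0745 (by norm_num) (by norm_num) (by norm_num) (by norm_num)) (by norm_num) (by norm_num)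

theorem g7_Wm1pF {β r h κ T t s u Y : ℝ} (B : Bx 0 0.27 0.2517 0 10 0.027 7.5093 β r h κ T) (hs : t + κ = s * h)
    (h1 : 0.43 ≤ u) (h2 : u ≤ 0.59) (h3 : u ≤ s) (h4 : s ≤ u + 0.0826) (hp : t + (-2) * h ≤ -(Real.pi / 2))
    (hY : eN r κ * (0.8994 * Real.exp (-(T * (0.5924 * (1 - u) ^ 2)))) ≤ Y) :
    ‖Xf β r h t (-1)‖ ≤ 0.0003882 * Y := by
  have hpi := Real.pi_gt_d6
  have hpi' := Real.pi_lt_d6
  have hk := B.P.κ0
  have hk' := B.hk2
  have e : t + (((-1 : ℤ) : ℝ) - 1) * h + 2 * Real.pi * ((1 : ℤ) : ℝ) = (s + 5) * h - κ := by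
    rw [B.P.hh] at hs ⊢; push_cast; linear_combination hs
  refine farS (n := 1) 0.1925 0.8837 0.8449 0.0002144 B.P B.hk2 ?_ ?_ hY (g0_nn (by norm_num)) (g0_le (by norm_num) h1 h2 (by norm_num) (by norm_num)) (by norm_num) (by norm_num) (by norm_num) (by norm_num) (by norm_num) (expn 8 0.449 (by norm_num) (by norm_num) (by norm_num) (by norm_num)) (by norm_num) (by norm_num)
  · rw [e]
    have := mlo7 B.P (x := s + 5) (x1 := 5.43) (τ1 := 4.8739) (by linarith) (by norm_num) (by norm_num)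
    norm_num at hpi hpi' hk' this ⊢
    linarith
  · push_cast; norm_num at hp ⊢; linarith

theorem g7_Wm1p {β r h κ T t s u Y : ℝ} (B : Bx 0 0.27 0.2517 0 10 0.027 7.5093 β r h κ T) (hs : t + κ = s * h)
    (h1 : 0.43 ≤ u) (h2 : u ≤ 0.59) (h3 : u ≤ s) (h4 : s ≤ u + 0.0826)
    (hY : eN r κ * (0.8994 * Real.exp (-(T * (0.5924 * (1 - u) ^ 2)))) ≤ Y) :
    ‖Xf β r h t (-1)‖ ≤ 0.02947 * Y := by
  rcases lt_or_ge (-(Real.pi / 2)) (t + (-2) * h) with hp | hp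
  · exact leE (g7_Wm1pR B hs h1 h2 h3 h4 hp hY) (by norm_num) hY (by norm_num)
  · exact leE (g7_Wm1pF B hs h1 h2 h3 h4 hp hY) (by norm_num) hY (by norm_num)

theorem g7_Wm2 {β r h κ T t s u Y : ℝ} (B : Bx 0 0.27 0.2517 0 10 0.027 7.5093 β r h κ T) (hs : t + κ = s * h)
    (h1 : 0.43 ≤ u) (h2 : u ≤ 0.59) (h3 : u ≤ s) (h4 : s ≤ u + 0.0826)
    (hY : eN r κ * (0.8994 * Real.exp (-(T * (0.5924 * (1 - u) ^ 2)))) ≤ Y) :
    ‖Xf β r h t (-2)‖ ≤ 0.0003882 * Y := by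
  have hpi := Real.pi_gt_d6
  have hpi' := Real.pi_lt_d6
  have hk := B.P.κ0
  have hk' := B.hk2
  have e : t + (((-2 : ℤ) : ℝ) - 1) * h + 2 * Real.pi * ((1 : ℤ) : ℝ) = (s + 4) * h - κ := by
    rw [B.P.hh] at hs ⊢; push_cast; linear_combination hs
  refine farS (n := 1) 0.1925 0.8837 0.8449 0.0002144 B.P B.hk2 ?_ ?_ hY (g0_nn (by norm_num)) (g0_le (by norm_num) h1 h2 (by norm_num) (by norm_num)) (by norm_num) (by norm_num) (by norm_num) (by norm_num) (by norm_num) (expn 8 0.449 (by norm_num) (by norm_num) (by norm_num) (by norm_num)) (by norm_num) (by norm_num)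
  · rw [e]
    have := mlo7 B.P (x := s + 4) (x1 := 4.43) (τ1 := 3.9763) (by linarith) (by norm_num) (by norm_num)
    norm_num at hpi hpi' hk' this ⊢
    linarith
  · rw [e]
    have := mhi7 B.P (x := s + 4) (x2 := 4.6726) (τ2 := 4.1942) (by linarith) (by norm_num) (by norm_num)
    norm_num at hpi hpi' hk' this ⊢
    linarith

theorem g7_Wm3 {β r h κ T t s u Y : ℝ} (B : Bx 0 0.27 0.2517 0 10 0.027 7.5093 β r h κ T) (hs : t + κ = s * h)
    (h1 : 0.43 ≤ u) (h2 : u ≤ 0.59) (h3 : u ≤ s) (h4 : s ≤ u + 0.0826)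
    (hY : eN r κ * (0.8994 * Real.exp (-(T * (0.5924 * (1 - u) ^ 2)))) ≤ Y) :
    ‖Xf β r h t (-3)‖ ≤ 0.0003882 * Y := by
  have hpi := Real.pi_gt_d6
  have hpi' := Real.pi_lt_d6
  have hk := B.P.κ0
  have hk' := B.hk2
  have e : t + (((-3 : ℤ) : ℝ) - 1) * h + 2 * Real.pi * ((1 : ℤ) : ℝ) = (s + 3) * h - κ := by
    rw [B.P.hh] at hs ⊢; push_cast; linear_combination hs
  refine farS (n := 1) 0.1925 0.8837 0.8449 0.0002144 B.P B.hk2 ?_ ?_ hY (g0_nn (by norm_num)) (g0_le (by norm_num) h1 h2 (by norm_num) (by norm_num)) (by norm_num) (by norm_num) (by norm_num) (by norm_num) (by norm_num) (expn 8 0.449 (by norm_num) (by norm_num) (by norm_num) (by norm_num)) (by norm_num) (by norm_num)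
  · rw [e]
    have := mlo7 B.P (x := s + 3) (x1 := 3.43) (τ1 := 3.0787) (by linarith) (by norm_num) (by norm_num)
    norm_num at hpi hpi' hk' this ⊢
    linarith
  · rw [e]
    have := mhi7 B.P (x := s + 3) (x2 := 3.6726) (τ2 := 3.2966) (by linarith) (by norm_num) (by norm_num)
    norm_num at hpi hpi' hk' this ⊢
    linarith

private theorem g7_Ao_y {κ t : ℝ} (h : DomR κ t) (hk2 : κ ≤ 0.27) (ht1 : (-0.8528) ≤ t + κ) (ht2 : t + κ ≤ (-0.5744)) :
    -0.304 ≤ sy κ t ∧ sy κ t ≤ 0 :=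
  ⟨syL_ang h 0.27 0.8528 0.98 0.557 0.8307 0.304 0.73786 hk2 (by norm_num) (by linarith) (by norm_num) (by norm_num) (cos_ge_num (by norm_num) (by norm_num)) (sin_le_num (by norm_num) (by norm_num)) (by norm_num)
    (expm_ge (by norm_num) (by norm_num) (by norm_num) (by norm_num)) (by norm_num) (by norm_num), sy_nonpos h (by linarith)⟩

theorem g7_Ao {β r h κ T t s u Y : ℝ} (B : Bx 0 0.27 0.2517 0 10 0.027 7.5093 β r h κ T) (hs : t + κ = s * h)
    (h1 : 0.05 ≤ u) (h2 : u ≤ 0.36) (h3 : u ≤ s) (h4 : s ≤ u + 0)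
    (hY : eN r κ * (0.9087 * Real.exp (-(T * (1 / 2 * u ^ 2)))) ≤ Y) :
    ‖Xf β r h t (0)‖ ≤ 0.5628 * Y := by
  obtain ⟨t', ht'⟩ : ∃ t', t' = t + (-1) * h := ⟨_, rfl⟩
  have hτ : t' + κ = (s + (-1)) * h := by rw [ht']; linear_combination hs
  have hpi := Real.pi_gt_d6
  have hpi' := Real.pi_lt_d6
  have hk := B.P.κ0
  have hk' := B.hk2
  have a1 : (-0.8528) ≤ t' + κ := by rw [hτ]; have := mhiN7 B.P (x := s + (-1)) (x2 := 0.95) (τ2 := 0.8528) (by linarith) (by norm_num) (by norm_num); linarith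
  have a2 : t' + κ ≤ (-0.5744) := by rw [hτ]; have := mloN7 B.P (x := s + (-1)) (x1 := 0.64) (τ1 := 0.5744) (by linarith) (by norm_num) (by norm_num); linarith
  have hD : DomR κ t' := ⟨hk, by norm_num at hpi; linarith, Or.inr (by norm_num at hpi; linarith)⟩
  have hy := g7_Ao_y hD B.hk2 a1 a2
  have hJ : ‖HH β (sg κ t') - 1‖ ≤ 0.0154 := JG37 B.P.hβ (by have := B.hβ0; linarith) (norm_sg_le hD 0.27 (-0.304) 1.35527 0.37 B.hk2 hy.1 (by rw [neg_neg]; exact expn_le (by norm_num) (by norm_num) (by norm_num)) (by norm_num))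
  have hd := Dlo7 hD (0 ^ 2) (0.27 ^ 2) 0.392 (-0.304) 0 (-0.304) 1.83674 hy.1 hy.2 (pow_le_pow_left₀ (by norm_num) B.hk1 2) (pow_le_pow_left₀ B.P.κ0.le B.hk2 2)
      (by rw [show (-2 * (-0.304) : ℝ) = 0.608 by norm_num]; exact expn_ge (by norm_num) (by norm_num)) (by norm_num) (by norm_num) (by norm_num) (by norm_num) (by norm_num)
  have hc : sE κ t' ≤ 1 - 0.4625 * (t' + κ) ^ 2 / (1 + κ ^ 2) := VLA7 hD (by linarith) (by linarith) (by linarith)
  exact up7 (-1) 0.0154 0.4625 0.392 1.2833 0.9087 0.1246 0.3985 0.5628 B (by norm_num) ht' hs hD (by norm_num) hJ hc hd (by norm_num) (by norm_num) (by norm_num) hY (by norm_num)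
    (ch1 (a := (-1)) (by norm_num) (sqL h2 h4 (by norm_num) (by norm_num)) (by norm_num) h1 h2 (by norm_num) (by norm_num)) (by norm_num)
    (expn 0 0.9356 (by norm_num) (by norm_num) (by norm_num) (by norm_num)) (by norm_num) (by norm_num)

private theorem g7_A2_y {κ t : ℝ} (h : DomR κ t) (hk2 : κ ≤ 0.27) (ht1 : 0.9424 ≤ t + κ) (ht2 : t + κ ≤ 1.2208) :
    0 ≤ sy κ t ∧ sy κ t ≤ 0.218 :=
  ⟨sy_nonneg h (by linarith), syR_triv h 0.27 0.218 1.24358 hk2 (by norm_num) (expn_ge (by norm_num) (by norm_num)) (by norm_num)⟩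

theorem g7_A2 {β r h κ T t s u Y : ℝ} (B : Bx 0 0.27 0.2517 0 10 0.027 7.5093 β r h κ T) (hs : t + κ = s * h)
    (h1 : 0.05 ≤ u) (h2 : u ≤ 0.36) (h3 : u ≤ s) (h4 : s ≤ u + 0)
    (hY : eN r κ * (0.9087 * Real.exp (-(T * (1 / 2 * u ^ 2)))) ≤ Y) :
    ‖Xf β r h t (2)‖ ≤ 0.05834 * Y := by
  obtain ⟨t', ht'⟩ : ∃ t', t' = t + (1) * h := ⟨_, rfl⟩
  have hτ : t' + κ = (s + 1) * h := by rw [ht']; linear_combination hs
  have hpi := Real.pi_gt_d6
  have hpi' := Real.pi_lt_d6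
  have hk := B.P.κ0
  have hk' := B.hk2
  have a1 : 0.9424 ≤ t' + κ := by rw [hτ]; exact mlo7 B.P (x1 := 1.05) (by linarith) (by norm_num) (by norm_num)
  have a2 : t' + κ ≤ 1.2208 := by rw [hτ]; exact mhi7 B.P (x2 := 1.36) (by linarith) (by norm_num) (by norm_num)
  have hD : DomR κ t' := ⟨hk, by norm_num at hpi; linarith, Or.inr (by norm_num at hpi; linarith)⟩
  have hy := g7_A2_y hD B.hk2 a1 a2
  have hJ : ‖HH β (sg κ t') - 1‖ ≤ 0.0052 := JG27 B.P.hβ (by have := B.hβ0; linarith) (norm_sg_le hD 0.27 0 1 0.27 B.hk2 hy.1 (by simp) (by norm_num))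
  have hd := Dlo7 hD (0 ^ 2) (0.27 ^ 2) 1 0 0.218 0 1 hy.1 hy.2 (pow_le_pow_left₀ (by norm_num) B.hk1 2) (pow_le_pow_left₀ B.P.κ0.le B.hk2 2)
      (by norm_num) (by norm_num) (by norm_num) (by norm_num) (by norm_num) (by norm_num)
  have hc : sE κ t' ≤ 1 - 0.3586 * (t' + κ) ^ 2 / (1 + κ ^ 2) := VR7 0.59 0.3586 0.9424 1.2208 _ _ _ _ _ B hD a1 a2 (by norm_num) (by norm_num) (by norm_num) (by norm_num) rfl rfl (by norm_num) rfl rfl rfl (by norm_num) (by norm_num)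
  exact up7 1 0.0052 0.3586 1 1.0053 0.9087 0.3941 0.05273 0.05834 B (by norm_num) ht' hs hD (by norm_num) hJ hc hd (by norm_num) (by norm_num) (by norm_num) hY (by norm_num)
    (ch1 (a := 1) (by norm_num) (sqR h1 h3 (by norm_num)) (by norm_num) h1 h2 (by norm_num) (by norm_num)) (by norm_num)
    (expn 2 0.9594 (by norm_num) (by norm_num) (by norm_num) (by norm_num)) (by norm_num) (by norm_num)

private theorem g7_A3R_y {κ t : ℝ} (h : DomR κ t) (hk2 : κ ≤ 0.27) (ht1 : 1.84 ≤ t + κ) (ht2 : t + κ ≤ 1.8408) :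
    0 ≤ sy κ t ∧ sy κ t ≤ 0.218 :=
  ⟨sy_nonneg h (by linarith), syR_triv h 0.27 0.218 1.24358 hk2 (by norm_num) (expn_ge (by norm_num) (by norm_num)) (by norm_num)⟩

theorem g7_A3R {β r h κ T t s u Y : ℝ} (B : Bx 0 0.27 0.2517 0 10 0.027 7.5093 β r h κ T) (hs : t + κ = s * h)
    (h1 : 0.05 ≤ u) (h2 : u ≤ 0.36) (h3 : u ≤ s) (h4 : s ≤ u + 0) (hp : t + 2 * h < Real.pi / 2)
    (hY : eN r κ * (0.9087 * Real.exp (-(T * (1 / 2 * u ^ 2)))) ≤ Y) :
    ‖Xf β r h t (3)‖ ≤ 0.00007637 * Y := by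
  obtain ⟨t', ht'⟩ : ∃ t', t' = t + (2) * h := ⟨_, rfl⟩
  have hτ : t' + κ = (s + 2) * h := by rw [ht']; linear_combination hs
  have hpi := Real.pi_gt_d6
  have hpi' := Real.pi_lt_d6
  have hk := B.P.κ0
  have hk' := B.hk2
  have a1 : 1.84 ≤ t' + κ := by rw [hτ]; exact mlo7 B.P (x1 := 2.05) (by linarith) (by norm_num) (by norm_num)
  have a2 : t' + κ ≤ 1.8408 := by
    rw [← ht'] at hp
    norm_num at hpi hpi' hk' ⊢
    linarith
  have hD : DomR κ t' := ⟨hk, by rw [ht']; exact hp, Or.inr (by norm_num at hpi; linarith)⟩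
  have hy := g7_A3R_y hD B.hk2 a1 a2
  have hJ : ‖HH β (sg κ t') - 1‖ ≤ 0.0052 := JG27 B.P.hβ (by have := B.hβ0; linarith) (norm_sg_le hD 0.27 0 1 0.27 B.hk2 hy.1 (by simp) (by norm_num))
  have hd := Dlo7 hD (0 ^ 2) (0.27 ^ 2) 1 0 0.218 0 1 hy.1 hy.2 (pow_le_pow_left₀ (by norm_num) B.hk1 2) (pow_le_pow_left₀ B.P.κ0.le B.hk2 2)
      (by norm_num) (by norm_num) (by norm_num) (by norm_num) (by norm_num) (by norm_num)
  have hc : sE κ t' ≤ 1 - 0.304 * (t' + κ) ^ 2 / (1 + κ ^ 2) := VR7 0.47 0.304 1.84 1.8408 _ _ _ _ _ B hD a1 a2 (by norm_num) (by norm_num) (by norm_num) (by norm_num) rfl rfl (by norm_num) rfl rfl rfl (by norm_num) (by norm_num)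
  exact up7 2 0.0052 0.304 1 1.0053 0.9087 1.2763 0.00006903 0.00007637 B (by norm_num) ht' hs hD (by norm_num) hJ hc hd (by norm_num) (by norm_num) (by norm_num) hY (by norm_num)
    (ch1 (a := 2) (by norm_num) (sqR h1 h3 (by norm_num)) (by norm_num) h1 h2 (by norm_num) (by norm_num)) (by norm_num)
    (expn 9 0.5841 (by norm_num) (by norm_num) (by norm_num) (by norm_num)) (by norm_num) (by norm_num)

theorem g7_A3F {β r h κ T t s u Y : ℝ} (B : Bx 0 0.27 0.2517 0 10 0.027 7.5093 β r h κ T) (hs : t + κ = s * h)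
    (h1 : 0.05 ≤ u) (h2 : u ≤ 0.36) (h3 : u ≤ s) (h4 : s ≤ u + 0) (hp : Real.pi / 2 ≤ t + (2) * h)
    (hY : eN r κ * (0.9087 * Real.exp (-(T * (1 / 2 * u ^ 2)))) ≤ Y) :
    ‖Xf β r h t (3)‖ ≤ 0.0001375 * Y := by
  have hpi := Real.pi_gt_d6
  have hpi' := Real.pi_lt_d6
  have hk := B.P.κ0
  have hk' := B.hk2
  have e : t + (((3 : ℤ) : ℝ) - 1) * h + 2 * Real.pi * ((0 : ℤ) : ℝ) = (s + 2) * h - κ := by
    rw [B.P.hh] at hs ⊢; push_cast; linear_combination hs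
  refine farS (n := 0) 0.0648 0.8928 0.9477 0.00007671 B.P B.hk2 ?_ ?_ hY g1_nn (g1_le (by linarith) h2 (by norm_num)) (by norm_num) (by norm_num) (by norm_num) (by norm_num) (by norm_num) (expn 9 0.477 (by norm_num) (by norm_num) (by norm_num) (by norm_num)) (by norm_num) (by norm_num)
  · push_cast; norm_num at hp ⊢; linarith
  · rw [e]
    have := mhi7 B.P (x := s + 2) (x2 := 2.36) (τ2 := 2.1184) (by linarith) (by norm_num) (by norm_num)
    norm_num at hpi hpi' hk' this ⊢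
    linarith

theorem g7_A3 {β r h κ T t s u Y : ℝ} (B : Bx 0 0.27 0.2517 0 10 0.027 7.5093 β r h κ T) (hs : t + κ = s * h)
    (h1 : 0.05 ≤ u) (h2 : u ≤ 0.36) (h3 : u ≤ s) (h4 : s ≤ u + 0)
    (hY : eN r κ * (0.9087 * Real.exp (-(T * (1 / 2 * u ^ 2)))) ≤ Y) :
    ‖Xf β r h t (3)‖ ≤ 0.0001375 * Y := by
  rcases lt_or_ge (t + (2) * h) (Real.pi / 2) with hp | hp
  · exact leE (g7_A3R B hs h1 h2 h3 h4 hp hY) (by norm_num) hY (by norm_num)
  · exact leE (g7_A3F B hs h1 h2 h3 h4 hp hY) (by norm_num) hY (by norm_num)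

private theorem g7_Am1R_y {κ t : ℝ} (h : DomR κ t) (hk2 : κ ≤ 0.27) (ht1 : (-1.5708) ≤ t + κ) (ht2 : t + κ ≤ (-1.472)) :
    -0.405 ≤ sy κ t ∧ sy κ t ≤ 0 :=
  ⟨syL_triv h 0.27 0.405 0.66697 hk2 (by norm_num) (by norm_num) (by norm_num) (expm_ge (by norm_num) (by norm_num) (by norm_num) (by norm_num)) (by norm_num), sy_nonpos h (by linarith)⟩

theorem g7_Am1R {β r h κ T t s u Y : ℝ} (B : Bx 0 0.27 0.2517 0 10 0.027 7.5093 β r h κ T) (hs : t + κ = s * h)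
    (h1 : 0.05 ≤ u) (h2 : u ≤ 0.36) (h3 : u ≤ s) (h4 : s ≤ u + 0) (hp : -(Real.pi / 2) < t + (-2) * h)
    (hY : eN r κ * (0.9087 * Real.exp (-(T * (1 / 2 * u ^ 2)))) ≤ Y) :
    ‖Xf β r h t (-1)‖ ≤ 0.001796 * Y := by
  obtain ⟨t', ht'⟩ : ∃ t', t' = t + (-2) * h := ⟨_, rfl⟩
  have hτ : t' + κ = (s + (-2)) * h := by rw [ht']; linear_combination hs
  have hpi := Real.pi_gt_d6
  have hpi' := Real.pi_lt_d6
  have hk := B.P.κ0
  have hk' := B.hk2
  have a1 : -1.5708 ≤ t' + κ := by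
    rw [← ht'] at hp
    norm_num at hpi hpi' ⊢
    linarith
  have a2 : t' + κ ≤ (-1.472) := by rw [hτ]; have := mloN7 B.P (x := s + (-2)) (x1 := 1.64) (τ1 := 1.472) (by linarith) (by norm_num) (by norm_num); linarith
  have hD : DomR κ t' := ⟨hk, by norm_num at hpi; linarith, Or.inr (by rw [ht']; exact hp)⟩
  have hy := g7_Am1R_y hD B.hk2 a1 a2
  have hJ : ‖HH β (sg κ t') - 1‖ ≤ 0.0286 := JG42 B.P.hβ (by have := B.hβ0; linarith) (norm_sg_le hD 0.27 (-0.405) 1.49931 0.42 B.hk2 hy.1 (by rw [neg_neg]; exact expn_le (by norm_num) (by norm_num) (by norm_num)) (by norm_num))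
  have hd := Dlo7 hD (0 ^ 2) (0.27 ^ 2) 0.19 (-0.405) 0 (-0.405) 2.24785 hy.1 hy.2 (pow_le_pow_left₀ (by norm_num) B.hk1 2) (pow_le_pow_left₀ B.P.κ0.le B.hk2 2)
      (by rw [show (-2 * (-0.405) : ℝ) = 0.81 by norm_num]; exact expn_ge (by norm_num) (by norm_num)) (by norm_num) (by norm_num) (by norm_num) (by norm_num) (by norm_num)
  have hc : sE κ t' ≤ 1 - 0.3645 * (t' + κ) ^ 2 / (1 + κ ^ 2) := VLs1x7 hD (by linarith) (by linarith) (by linarith)
  exact up7 (-2) 0.0286 0.3645 0.19 1.558 0.9087 0.9155 0.001047 0.001796 B (by norm_num) ht' hs hD (by norm_num) hJ hc hd (by norm_num) (by norm_num) (by norm_num) hY (by norm_num)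
    (ch1 (a := (-2)) (by norm_num) (sqL h2 h4 (by norm_num) (by norm_num)) (by norm_num) h1 h2 (by norm_num) (by norm_num)) (by norm_num)
    (expn 6 0.8747 (by norm_num) (by norm_num) (by norm_num) (by norm_num)) (by norm_num) (by norm_num)

theorem g7_Am1F {β r h κ T t s u Y : ℝ} (B : Bx 0 0.27 0.2517 0 10 0.027 7.5093 β r h κ T) (hs : t + κ = s * h)
    (h1 : 0.05 ≤ u) (h2 : u ≤ 0.36) (h3 : u ≤ s) (h4 : s ≤ u + 0) (hp : t + (-2) * h ≤ -(Real.pi / 2))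
    (hY : eN r κ * (0.9087 * Real.exp (-(T * (1 / 2 * u ^ 2)))) ≤ Y) :
    ‖Xf β r h t (-1)‖ ≤ 0.0001375 * Y := by
  have hpi := Real.pi_gt_d6
  have hpi' := Real.pi_lt_d6
  have hk := B.P.κ0
  have hk' := B.hk2
  have e : t + (((-1 : ℤ) : ℝ) - 1) * h + 2 * Real.pi * ((1 : ℤ) : ℝ) = (s + 5) * h - κ := by
    rw [B.P.hh] at hs ⊢; push_cast; linear_combination hs
  refine farS (n := 1) 0.0648 0.8928 0.9477 0.00007671 B.P B.hk2 ?_ ?_ hY g1_nn (g1_le (by linarith) h2 (by norm_num)) (by norm_num) (by norm_num) (by norm_num) (by norm_num) (by norm_num) (expn 9 0.477 (by norm_num) (by norm_num) (by norm_num) (by norm_num)) (by norm_num) (by norm_num)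
  · rw [e]
    have := mlo7 B.P (x := s + 5) (x1 := 5.05) (τ1 := 4.5328) (by linarith) (by norm_num) (by norm_num)
    norm_num at hpi hpi' hk' this ⊢
    linarith
  · push_cast; norm_num at hp ⊢; linarith

theorem g7_Am1 {β r h κ T t s u Y : ℝ} (B : Bx 0 0.27 0.2517 0 10 0.027 7.5093 β r h κ T) (hs : t + κ = s * h)
    (h1 : 0.05 ≤ u) (h2 : u ≤ 0.36) (h3 : u ≤ s) (h4 : s ≤ u + 0)
    (hY : eN r κ * (0.9087 * Real.exp (-(T * (1 / 2 * u ^ 2)))) ≤ Y) :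
    ‖Xf β r h t (-1)‖ ≤ 0.001796 * Y := by
  rcases lt_or_ge (-(Real.pi / 2)) (t + (-2) * h) with hp | hp
  · exact leE (g7_Am1R B hs h1 h2 h3 h4 hp hY) (by norm_num) hY (by norm_num)
  · exact leE (g7_Am1F B hs h1 h2 h3 h4 hp hY) (by norm_num) hY (by norm_num)

theorem g7_Am2 {β r h κ T t s u Y : ℝ} (B : Bx 0 0.27 0.2517 0 10 0.027 7.5093 β r h κ T) (hs : t + κ = s * h)
    (h1 : 0.05 ≤ u) (h2 : u ≤ 0.36) (h3 : u ≤ s) (h4 : s ≤ u + 0)
    (hY : eN r κ * (0.9087 * Real.exp (-(T * (1 / 2 * u ^ 2)))) ≤ Y) :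
    ‖Xf β r h t (-2)‖ ≤ 0.0001375 * Y := by
  have hpi := Real.pi_gt_d6
  have hpi' := Real.pi_lt_d6
  have hk := B.P.κ0
  have hk' := B.hk2
  have e : t + (((-2 : ℤ) : ℝ) - 1) * h + 2 * Real.pi * ((1 : ℤ) : ℝ) = (s + 4) * h - κ := by
    rw [B.P.hh] at hs ⊢; push_cast; linear_combination hs
  refine farS (n := 1) 0.0648 0.8928 0.9477 0.00007671 B.P B.hk2 ?_ ?_ hY g1_nn (g1_le (by linarith) h2 (by norm_num)) (by norm_num) (by norm_num) (by norm_num) (by norm_num) (by norm_num) (expn 9 0.477 (by norm_num) (by norm_num) (by norm_num) (by norm_num)) (by norm_num) (by norm_num)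
  · rw [e]
    have := mlo7 B.P (x := s + 4) (x1 := 4.05) (τ1 := 3.6352) (by linarith) (by norm_num) (by norm_num)
    norm_num at hpi hpi' hk' this ⊢
    linarith
  · rw [e]
    have := mhi7 B.P (x := s + 4) (x2 := 4.36) (τ2 := 3.9136) (by linarith) (by norm_num) (by norm_num)
    norm_num at hpi hpi' hk' this ⊢
    linarith

theorem g7_Am3 {β r h κ T t s u Y : ℝ} (B : Bx 0 0.27 0.2517 0 10 0.027 7.5093 β r h κ T) (hs : t + κ = s * h)
    (h1 : 0.05 ≤ u) (h2 : u ≤ 0.36) (h3 : u ≤ s) (h4 : s ≤ u + 0)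
    (hY : eN r κ * (0.9087 * Real.exp (-(T * (1 / 2 * u ^ 2)))) ≤ Y) :
    ‖Xf β r h t (-3)‖ ≤ 0.0001375 * Y := by
  have hpi := Real.pi_gt_d6
  have hpi' := Real.pi_lt_d6
  have hk := B.P.κ0
  have hk' := B.hk2
  have e : t + (((-3 : ℤ) : ℝ) - 1) * h + 2 * Real.pi * ((1 : ℤ) : ℝ) = (s + 3) * h - κ := by
    rw [B.P.hh] at hs ⊢; push_cast; linear_combination hs
  refine farS (n := 1) 0.0648 0.8928 0.9477 0.00007671 B.P B.hk2 ?_ ?_ hY g1_nn (g1_le (by linarith) h2 (by norm_num)) (by norm_num) (by norm_num) (by norm_num) (by norm_num) (by norm_num) (expn 9 0.477 (by norm_num) (by norm_num) (by norm_num) (by norm_num)) (by norm_num) (by norm_num)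
  · rw [e]
    have := mlo7 B.P (x := s + 3) (x1 := 3.05) (τ1 := 2.7376) (by linarith) (by norm_num) (by norm_num)
    norm_num at hpi hpi' hk' this ⊢
    linarith
  · rw [e]
    have := mhi7 B.P (x := s + 3) (x2 := 3.36) (τ2 := 3.016) (by linarith) (by norm_num) (by norm_num)
    norm_num at hpi hpi' hk' this ⊢
    linarith

private theorem g7_Bo_y {κ t : ℝ} (h : DomR κ t) (hk2 : κ ≤ 0.27) (ht1 : (-0.5745) ≤ t + κ) (ht2 : t + κ ≤ (-0.5116)) :
    -0.193 ≤ sy κ t ∧ sy κ t ≤ 0 :=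
  ⟨syL_ang h 0.27 0.5745 0.63 0.808 0.5892 0.193 0.82448 hk2 (by norm_num) (by linarith) (by norm_num) (by norm_num) (cos_ge_num (by norm_num) (by norm_num)) (sin_le_num (by norm_num) (by norm_num)) (by norm_num)
    (expm_ge (by norm_num) (by norm_num) (by norm_num) (by norm_num)) (by norm_num) (by norm_num), sy_nonpos h (by linarith)⟩

theorem g7_Bo {β r h κ T t s u Y : ℝ} (B : Bx 0 0.27 0.2517 0 10 0.027 7.5093 β r h κ T) (hs : t + κ = s * h)
    (h1 : 0.36 ≤ u) (h2 : u ≤ 0.43) (h3 : u ≤ s) (h4 : s ≤ u + 0)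
    (hY : eN r κ * (0.9087 * Real.exp (-(T * (1 / 2 * u ^ 2)))) ≤ Y) :
    ‖Xf β r h t (0)‖ ≤ 0.7785 * Y := by
  obtain ⟨t', ht'⟩ : ∃ t', t' = t + (-1) * h := ⟨_, rfl⟩
  have hτ : t' + κ = (s + (-1)) * h := by rw [ht']; linear_combination hs
  have hpi := Real.pi_gt_d6
  have hpi' := Real.pi_lt_d6
  have hk := B.P.κ0
  have hk' := B.hk2
  have a1 : (-0.5745) ≤ t' + κ := by rw [hτ]; have := mhiN7 B.P (x := s + (-1)) (x2 := 0.64) (τ2 := 0.5745) (by linarith) (by norm_num) (by norm_num); linarith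
  have a2 : t' + κ ≤ (-0.5116) := by rw [hτ]; have := mloN7 B.P (x := s + (-1)) (x1 := 0.57) (τ1 := 0.5116) (by linarith) (by norm_num) (by norm_num); linarith
  have hD : DomR κ t' := ⟨hk, by norm_num at hpi; linarith, Or.inr (by norm_num at hpi; linarith)⟩
  have hy := g7_Bo_y hD B.hk2 a1 a2
  have hJ : ‖HH β (sg κ t') - 1‖ ≤ 0.0154 := JG37 B.P.hβ (by have := B.hβ0; linarith) (norm_sg_le hD 0.27 (-0.193) 1.21289 0.37 B.hk2 hy.1 (by rw [neg_neg]; exact expn_le (by norm_num) (by norm_num) (by norm_num)) (by norm_num))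
  have hd := Dlo7 hD (0 ^ 2) (0.27 ^ 2) 0.614 (-0.193) 0 (-0.193) 1.47108 hy.1 hy.2 (pow_le_pow_left₀ (by norm_num) B.hk1 2) (pow_le_pow_left₀ B.P.κ0.le B.hk2 2)
      (by rw [show (-2 * (-0.193) : ℝ) = 0.386 by norm_num]; exact expn_ge (by norm_num) (by norm_num)) (by norm_num) (by norm_num) (by norm_num) (by norm_num) (by norm_num)
  have hc : sE κ t' ≤ 1 - 0.4835 * (t' + κ) ^ 2 / (1 + κ ^ 2) := VL_05_06 hD (by linarith) (by linarith) (by linarith)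
  exact up7 (-1) 0.0154 0.4835 0.614 1.1471 0.9087 0.0646 0.6167 0.7785 B (by norm_num) ht' hs hD (by norm_num) hJ hc hd (by norm_num) (by norm_num) (by norm_num) hY (by norm_num)
    (ch1 (a := (-1)) (by norm_num) (sqL h2 h4 (by norm_num) (by norm_num)) (by norm_num) h1 h2 (by norm_num) (by norm_num)) (by norm_num)
    (expn 0 0.4851 (by norm_num) (by norm_num) (by norm_num) (by norm_num)) (by norm_num) (by norm_num)

private theorem g7_B2_y {κ t : ℝ} (h : DomR κ t) (hk2 : κ ≤ 0.27) (ht1 : 1.2207 ≤ t + κ) (ht2 : t + κ ≤ 1.2836) :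
    0 ≤ sy κ t ∧ sy κ t ≤ 0.218 :=
  ⟨sy_nonneg h (by linarith), syR_triv h 0.27 0.218 1.24358 hk2 (by norm_num) (expn_ge (by norm_num) (by norm_num)) (by norm_num)⟩

theorem g7_B2 {β r h κ T t s u Y : ℝ} (B : Bx 0 0.27 0.2517 0 10 0.027 7.5093 β r h κ T) (hs : t + κ = s * h)
    (h1 : 0.36 ≤ u) (h2 : u ≤ 0.43) (h3 : u ≤ s) (h4 : s ≤ u + 0)
    (hY : eN r κ * (0.9087 * Real.exp (-(T * (1 / 2 * u ^ 2)))) ≤ Y) :
    ‖Xf β r h t (2)‖ ≤ 0.0135 * Y := by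
  obtain ⟨t', ht'⟩ : ∃ t', t' = t + (1) * h := ⟨_, rfl⟩
  have hτ : t' + κ = (s + 1) * h := by rw [ht']; linear_combination hs
  have hpi := Real.pi_gt_d6
  have hpi' := Real.pi_lt_d6
  have hk := B.P.κ0
  have hk' := B.hk2
  have a1 : 1.2207 ≤ t' + κ := by rw [hτ]; exact mlo7 B.P (x1 := 1.36) (by linarith) (by norm_num) (by norm_num)
  have a2 : t' + κ ≤ 1.2836 := by rw [hτ]; exact mhi7 B.P (x2 := 1.43) (by linarith) (by norm_num) (by norm_num)
  have hD : DomR κ t' := ⟨hk, by norm_num at hpi; linarith, Or.inr (by norm_num at hpi; linarith)⟩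
  have hy := g7_B2_y hD B.hk2 a1 a2
  have hJ : ‖HH β (sg κ t') - 1‖ ≤ 0.0052 := JG27 B.P.hβ (by have := B.hβ0; linarith) (norm_sg_le hD 0.27 0 1 0.27 B.hk2 hy.1 (by simp) (by norm_num))
  have hd := Dlo7 hD (0 ^ 2) (0.27 ^ 2) 1 0 0.218 0 1 hy.1 hy.2 (pow_le_pow_left₀ (by norm_num) B.hk1 2) (pow_le_pow_left₀ B.P.κ0.le B.hk2 2)
      (by norm_num) (by norm_num) (by norm_num) (by norm_num) (by norm_num) (by norm_num)
  have hc : sE κ t' ≤ 1 - 0.3524 * (t' + κ) ^ 2 / (1 + κ ^ 2) := VR7 0.58 0.3524 1.2207 1.2836 _ _ _ _ _ B hD a1 a2 (by norm_num) (by norm_num) (by norm_num) (by norm_num) rfl rfl (by norm_num) rfl rfl rfl (by norm_num) (by norm_num)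
  exact up7 1 0.0052 0.3524 1 1.0053 0.9087 0.5869 0.0122 0.0135 B (by norm_num) ht' hs hD (by norm_num) hJ hc hd (by norm_num) (by norm_num) (by norm_num) hY (by norm_num)
    (ch1 (a := 1) (by norm_num) (sqR h1 h3 (by norm_num)) (by norm_num) h1 h2 (by norm_num) (by norm_num)) (by norm_num)
    (expn 4 0.4072 (by norm_num) (by norm_num) (by norm_num) (by norm_num)) (by norm_num) (by norm_num)

theorem g7_B3 {β r h κ T t s u Y : ℝ} (B : Bx 0 0.27 0.2517 0 10 0.027 7.5093 β r h κ T) (hs : t + κ = s * h)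
    (h1 : 0.36 ≤ u) (h2 : u ≤ 0.43) (h3 : u ≤ s) (h4 : s ≤ u + 0)
    (hY : eN r κ * (0.9087 * Real.exp (-(T * (1 / 2 * u ^ 2)))) ≤ Y) :
    ‖Xf β r h t (3)‖ ≤ 0.0001716 * Y := by
  have hpi := Real.pi_gt_d6
  have hpi' := Real.pi_lt_d6
  have hk := B.P.κ0
  have hk' := B.hk2
  have e : t + (((3 : ℤ) : ℝ) - 1) * h + 2 * Real.pi * ((0 : ℤ) : ℝ) = (s + 2) * h - κ := by
    rw [B.P.hh] at hs ⊢; push_cast; linear_combination hs
  refine farS (n := 0) 0.0925 0.8928 0.9254 0.00009575 B.P B.hk2 ?_ ?_ hY g1_nn (g1_le (by linarith) h2 (by norm_num)) (by norm_num) (by norm_num) (by norm_num) (by norm_num) (by norm_num) (expn 9 0.254 (by norm_num) (by norm_num) (by norm_num) (by norm_num)) (by norm_num) (by norm_num)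
  · rw [e]
    have := mlo7 B.P (x := s + 2) (x1 := 2.36) (τ1 := 2.1183) (by linarith) (by norm_num) (by norm_num)
    norm_num at hpi hpi' hk' this ⊢
    linarith
  · rw [e]
    have := mhi7 B.P (x := s + 2) (x2 := 2.43) (τ2 := 2.1812) (by linarith) (by norm_num) (by norm_num)
    norm_num at hpi hpi' hk' this ⊢
    linarith

private theorem g7_Bm1R_y {κ t : ℝ} (h : DomR κ t) (hk2 : κ ≤ 0.27) (ht1 : (-1.4721) ≤ t + κ) (ht2 : t + κ ≤ (-1.4092)) :
    -0.405 ≤ sy κ t ∧ sy κ t ≤ 0 :=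
  ⟨syL_triv h 0.27 0.405 0.66697 hk2 (by norm_num) (by norm_num) (by norm_num) (expm_ge (by norm_num) (by norm_num) (by norm_num) (by norm_num)) (by norm_num), sy_nonpos h (by linarith)⟩

theorem g7_Bm1R {β r h κ T t s u Y : ℝ} (B : Bx 0 0.27 0.2517 0 10 0.027 7.5093 β r h κ T) (hs : t + κ = s * h)
    (h1 : 0.36 ≤ u) (h2 : u ≤ 0.43) (h3 : u ≤ s) (h4 : s ≤ u + 0) (hp : -(Real.pi / 2) < t + (-2) * h)
    (hY : eN r κ * (0.9087 * Real.exp (-(T * (1 / 2 * u ^ 2)))) ≤ Y) :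
    ‖Xf β r h t (-1)‖ ≤ 0.004035 * Y := by
  obtain ⟨t', ht'⟩ : ∃ t', t' = t + (-2) * h := ⟨_, rfl⟩
  have hτ : t' + κ = (s + (-2)) * h := by rw [ht']; linear_combination hs
  have hpi := Real.pi_gt_d6
  have hpi' := Real.pi_lt_d6
  have hk := B.P.κ0
  have hk' := B.hk2
  have a1 : (-1.4721) ≤ t' + κ := by rw [hτ]; have := mhiN7 B.P (x := s + (-2)) (x2 := 1.64) (τ2 := 1.4721) (by linarith) (by norm_num) (by norm_num); linarith
  have a2 : t' + κ ≤ (-1.4092) := by rw [hτ]; have := mloN7 B.P (x := s + (-2)) (x1 := 1.57) (τ1 := 1.4092) (by linarith) (by norm_num) (by norm_num); linarith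
  have hD : DomR κ t' := ⟨hk, by norm_num at hpi; linarith, Or.inr (by rw [ht']; exact hp)⟩
  have hy := g7_Bm1R_y hD B.hk2 a1 a2
  have hJ : ‖HH β (sg κ t') - 1‖ ≤ 0.0286 := JG42 B.P.hβ (by have := B.hβ0; linarith) (norm_sg_le hD 0.27 (-0.405) 1.49931 0.42 B.hk2 hy.1 (by rw [neg_neg]; exact expn_le (by norm_num) (by norm_num) (by norm_num)) (by norm_num))
  have hd := Dlo7 hD (0 ^ 2) (0.27 ^ 2) 0.19 (-0.405) 0 (-0.405) 2.24785 hy.1 hy.2 (pow_le_pow_left₀ (by norm_num) B.hk1 2) (pow_le_pow_left₀ B.P.κ0.le B.hk2 2)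
      (by rw [show (-2 * (-0.405) : ℝ) = 0.81 by norm_num]; exact expn_ge (by norm_num) (by norm_num)) (by norm_num) (by norm_num) (by norm_num) (by norm_num) (by norm_num)
  have hc : sE κ t' ≤ 1 - 0.3645 * (t' + κ) ^ 2 / (1 + κ ^ 2) := VLs1x7 hD (by linarith) (by linarith) (by linarith)
  exact up7 (-2) 0.0286 0.3645 0.19 1.558 0.9087 0.806 0.002353 0.004035 B (by norm_num) ht' hs hD (by norm_num) hJ hc hd (by norm_num) (by norm_num) (by norm_num) hY (by norm_num)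
    (ch1 (a := (-2)) (by norm_num) (sqL h2 h4 (by norm_num) (by norm_num)) (by norm_num) h1 h2 (by norm_num) (by norm_num)) (by norm_num)
    (expn 6 0.0524 (by norm_num) (by norm_num) (by norm_num) (by norm_num)) (by norm_num) (by norm_num)

theorem g7_Bm1F {β r h κ T t s u Y : ℝ} (B : Bx 0 0.27 0.2517 0 10 0.027 7.5093 β r h κ T) (hs : t + κ = s * h)
    (h1 : 0.36 ≤ u) (h2 : u ≤ 0.43) (h3 : u ≤ s) (h4 : s ≤ u + 0) (hp : t + (-2) * h ≤ -(Real.pi / 2))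
    (hY : eN r κ * (0.9087 * Real.exp (-(T * (1 / 2 * u ^ 2)))) ≤ Y) :
    ‖Xf β r h t (-1)‖ ≤ 0.0001716 * Y := by
  have hpi := Real.pi_gt_d6
  have hpi' := Real.pi_lt_d6
  have hk := B.P.κ0
  have hk' := B.hk2
  have e : t + (((-1 : ℤ) : ℝ) - 1) * h + 2 * Real.pi * ((1 : ℤ) : ℝ) = (s + 5) * h - κ := by
    rw [B.P.hh] at hs ⊢; push_cast; linear_combination hs
  refine farS (n := 1) 0.0925 0.8928 0.9254 0.00009575 B.P B.hk2 ?_ ?_ hY g1_nn (g1_le (by linarith) h2 (by norm_num)) (by norm_num) (by norm_num) (by norm_num) (by norm_num) (by norm_num) (expn 9 0.254 (by norm_num) (by norm_num) (by norm_num) (by norm_num)) (by norm_num) (by norm_num)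
  · rw [e]
    have := mlo7 B.P (x := s + 5) (x1 := 5.36) (τ1 := 4.8111) (by linarith) (by norm_num) (by norm_num)
    norm_num at hpi hpi' hk' this ⊢
    linarith
  · push_cast; norm_num at hp ⊢; linarith

theorem g7_Bm1 {β r h κ T t s u Y : ℝ} (B : Bx 0 0.27 0.2517 0 10 0.027 7.5093 β r h κ T) (hs : t + κ = s * h)
    (h1 : 0.36 ≤ u) (h2 : u ≤ 0.43) (h3 : u ≤ s) (h4 : s ≤ u + 0)
    (hY : eN r κ * (0.9087 * Real.exp (-(T * (1 / 2 * u ^ 2)))) ≤ Y) :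
    ‖Xf β r h t (-1)‖ ≤ 0.004035 * Y := by
  rcases lt_or_ge (-(Real.pi / 2)) (t + (-2) * h) with hp | hp
  · exact leE (g7_Bm1R B hs h1 h2 h3 h4 hp hY) (by norm_num) hY (by norm_num)
  · exact leE (g7_Bm1F B hs h1 h2 h3 h4 hp hY) (by norm_num) hY (by norm_num)

theorem g7_Bm2 {β r h κ T t s u Y : ℝ} (B : Bx 0 0.27 0.2517 0 10 0.027 7.5093 β r h κ T) (hs : t + κ = s * h)
    (h1 : 0.36 ≤ u) (h2 : u ≤ 0.43) (h3 : u ≤ s) (h4 : s ≤ u + 0)
    (hY : eN r κ * (0.9087 * Real.exp (-(T * (1 / 2 * u ^ 2)))) ≤ Y) :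
    ‖Xf β r h t (-2)‖ ≤ 0.0001716 * Y := by
  have hpi := Real.pi_gt_d6
  have hpi' := Real.pi_lt_d6
  have hk := B.P.κ0
  have hk' := B.hk2
  have e : t + (((-2 : ℤ) : ℝ) - 1) * h + 2 * Real.pi * ((1 : ℤ) : ℝ) = (s + 4) * h - κ := by
    rw [B.P.hh] at hs ⊢; push_cast; linear_combination hs
  refine farS (n := 1) 0.0925 0.8928 0.9254 0.00009575 B.P B.hk2 ?_ ?_ hY g1_nn (g1_le (by linarith) h2 (by norm_num)) (by norm_num) (by norm_num) (by norm_num) (by norm_num) (by norm_num) (expn 9 0.254 (by norm_num) (by norm_num) (by norm_num) (by norm_num)) (by norm_num) (by norm_num)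
  · rw [e]
    have := mlo7 B.P (x := s + 4) (x1 := 4.36) (τ1 := 3.9135) (by linarith) (by norm_num) (by norm_num)
    norm_num at hpi hpi' hk' this ⊢
    linarith
  · rw [e]
    have := mhi7 B.P (x := s + 4) (x2 := 4.43) (τ2 := 3.9764) (by linarith) (by norm_num) (by norm_num)
    norm_num at hpi hpi' hk' this ⊢
    linarith

theorem g7_Bm3 {β r h κ T t s u Y : ℝ} (B : Bx 0 0.27 0.2517 0 10 0.027 7.5093 β r h κ T) (hs : t + κ = s * h)
    (h1 : 0.36 ≤ u) (h2 : u ≤ 0.43) (h3 : u ≤ s) (h4 : s ≤ u + 0)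
    (hY : eN r κ * (0.9087 * Real.exp (-(T * (1 / 2 * u ^ 2)))) ≤ Y) :
    ‖Xf β r h t (-3)‖ ≤ 0.0001716 * Y := by
  have hpi := Real.pi_gt_d6
  have hpi' := Real.pi_lt_d6
  have hk := B.P.κ0
  have hk' := B.hk2
  have e : t + (((-3 : ℤ) : ℝ) - 1) * h + 2 * Real.pi * ((1 : ℤ) : ℝ) = (s + 3) * h - κ := by
    rw [B.P.hh] at hs ⊢; push_cast; linear_combination hs
  refine farS (n := 1) 0.0925 0.8928 0.9254 0.00009575 B.P B.hk2 ?_ ?_ hY g1_nn (g1_le (by linarith) h2 (by norm_num)) (by norm_num) (by norm_num) (by norm_num) (by norm_num) (by norm_num) (expn 9 0.254 (by norm_num) (by norm_num) (by norm_num) (by norm_num)) (by norm_num) (by norm_num)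
  · rw [e]
    have := mlo7 B.P (x := s + 3) (x1 := 3.36) (τ1 := 3.0159) (by linarith) (by norm_num) (by norm_num)
    norm_num at hpi hpi' hk' this ⊢
    linarith
  · rw [e]
    have := mhi7 B.P (x := s + 3) (x2 := 3.43) (τ2 := 3.0788) (by linarith) (by norm_num) (by norm_num)
    norm_num at hpi hpi' hk' this ⊢
    linarith

private theorem g7_Co_y {κ t : ℝ} (h : DomR κ t) (hk2 : κ ≤ 0.27) (ht1 : 0.5295 ≤ t + κ) (ht2 : t + κ ≤ 0.6732) :
    0 ≤ sy κ t ∧ sy κ t ≤ 0.218 :=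
  ⟨sy_nonneg h (by linarith), syR_triv h 0.27 0.218 1.24358 hk2 (by norm_num) (expn_ge (by norm_num) (by norm_num)) (by norm_num)⟩

theorem g7_Co {β r h κ T t s u Y : ℝ} (B : Bx 0 0.27 0.2517 0 10 0.027 7.5093 β r h κ T) (hs : t + κ = s * h)
    (h1 : 0.59 ≤ u) (h2 : u ≤ 0.75) (h3 : u ≤ s) (h4 : s ≤ u + 0)
    (hY : eN r κ * (0.8994 * Real.exp (-(T * (0.5924 * (1 - u) ^ 2)))) ≤ Y) :
    ‖Xf β r h t (1)‖ ≤ 0.7905 * Y := by
  obtain ⟨t', ht'⟩ : ∃ t', t' = t + (0) * h := ⟨_, rfl⟩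
  have hτ : t' + κ = (s + 0) * h := by rw [ht']; linear_combination hs
  have hpi := Real.pi_gt_d6
  have hpi' := Real.pi_lt_d6
  have hk := B.P.κ0
  have hk' := B.hk2
  have a1 : 0.5295 ≤ t' + κ := by rw [hτ]; exact mlo7 B.P (x1 := 0.59) (by linarith) (by norm_num) (by norm_num)
  have a2 : t' + κ ≤ 0.6732 := by rw [hτ]; exact mhi7 B.P (x2 := 0.75) (by linarith) (by norm_num) (by norm_num)
  have hD : DomR κ t' := ⟨hk, by norm_num at hpi; linarith, Or.inr (by norm_num at hpi; linarith)⟩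
  have hy := g7_Co_y hD B.hk2 a1 a2
  have hJ : ‖HH β (sg κ t') - 1‖ ≤ 0.0052 := JG27 B.P.hβ (by have := B.hβ0; linarith) (norm_sg_le hD 0.27 0 1 0.27 B.hk2 hy.1 (by simp) (by norm_num))
  have hd := Dlo7 hD (0 ^ 2) (0.27 ^ 2) 1 0 0.218 0 1 hy.1 hy.2 (pow_le_pow_left₀ (by norm_num) B.hk1 2) (pow_le_pow_left₀ B.P.κ0.le B.hk2 2)
      (by norm_num) (by norm_num) (by norm_num) (by norm_num) (by norm_num) (by norm_num)
  have hc : sE κ t' ≤ 1 - 0.419 * (t' + κ) ^ 2 / (1 + κ ^ 2) := VR7 0.76 0.419 0.5295 0.6732 _ _ _ _ _ B hD a1 a2 (by norm_num) (by norm_num) (by norm_num) (by norm_num) rfl rfl (by norm_num) rfl rfl rfl (by norm_num) (by norm_num)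
  exact up7 0 0.0052 0.419 1 1.0053 0.8994 0.0462 0.7072 0.7905 B (by norm_num) ht' hs hD (by norm_num) hJ hc hd (by norm_num) (by norm_num) (by norm_num) hY (by norm_num)
    (ch0 (a := 0) (by norm_num) (sqR h1 h3 (by norm_num)) (by norm_num) h1 h2 (by norm_num) (by norm_num)) (by norm_num)
    (expn 0 0.3469 (by norm_num) (by norm_num) (by norm_num) (by norm_num)) (by norm_num) (by norm_num)

private theorem g7_C2R_y {κ t : ℝ} (h : DomR κ t) (hk2 : κ ≤ 0.27) (ht1 : 1.4271 ≤ t + κ) (ht2 : t + κ ≤ 1.5708) :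
    0 ≤ sy κ t ∧ sy κ t ≤ 0.218 :=
  ⟨sy_nonneg h (by linarith), syR_triv h 0.27 0.218 1.24358 hk2 (by norm_num) (expn_ge (by norm_num) (by norm_num)) (by norm_num)⟩

theorem g7_C2R {β r h κ T t s u Y : ℝ} (B : Bx 0 0.27 0.2517 0 10 0.027 7.5093 β r h κ T) (hs : t + κ = s * h)
    (h1 : 0.59 ≤ u) (h2 : u ≤ 0.75) (h3 : u ≤ s) (h4 : s ≤ u + 0) (hp : t + 1 * h < Real.pi / 2)
    (hY : eN r κ * (0.8994 * Real.exp (-(T * (0.5924 * (1 - u) ^ 2)))) ≤ Y) :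
    ‖Xf β r h t (2)‖ ≤ 0.004863 * Y := by
  obtain ⟨t', ht'⟩ : ∃ t', t' = t + (1) * h := ⟨_, rfl⟩
  have hτ : t' + κ = (s + 1) * h := by rw [ht']; linear_combination hs
  have hpi := Real.pi_gt_d6
  have hpi' := Real.pi_lt_d6
  have hk := B.P.κ0
  have hk' := B.hk2
  have a1 : 1.4271 ≤ t' + κ := by rw [hτ]; exact mlo7 B.P (x1 := 1.59) (by linarith) (by norm_num) (by norm_num)
  have a2 : t' + κ ≤ 1.5708 := by rw [hτ]; exact mhi7 B.P (x2 := 1.75) (by linarith) (by norm_num) (by norm_num)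
  have hD : DomR κ t' := ⟨hk, by rw [ht']; exact hp, Or.inr (by norm_num at hpi; linarith)⟩
  have hy := g7_C2R_y hD B.hk2 a1 a2
  have hJ : ‖HH β (sg κ t') - 1‖ ≤ 0.0052 := JG27 B.P.hβ (by have := B.hβ0; linarith) (norm_sg_le hD 0.27 0 1 0.27 B.hk2 hy.1 (by simp) (by norm_num))
  have hd := Dlo7 hD (0 ^ 2) (0.27 ^ 2) 1 0 0.218 0 1 hy.1 hy.2 (pow_le_pow_left₀ (by norm_num) B.hk1 2) (pow_le_pow_left₀ B.P.κ0.le B.hk2 2)
      (by norm_num) (by norm_num) (by norm_num) (by norm_num) (by norm_num) (by norm_num)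
  have hc : sE κ t' ≤ 1 - 0.3259 * (t' + κ) ^ 2 / (1 + κ ^ 2) := VR7 0.52 0.3259 1.4271 1.5708 _ _ _ _ _ B hD a1 a2 (by norm_num) (by norm_num) (by norm_num) (by norm_num) rfl rfl (by norm_num) rfl rfl rfl (by norm_num) (by norm_num)
  exact up7 1 0.0052 0.3259 1 1.0053 0.8994 0.7243 0.00435 0.004863 B (by norm_num) ht' hs hD (by norm_num) hJ hc hd (by norm_num) (by norm_num) (by norm_num) hY (by norm_num)
    (ch0 (a := 1) (by norm_num) (sqR h1 h3 (by norm_num)) (by norm_num) h1 h2 (by norm_num) (by norm_num)) (by norm_num)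
    (expn 5 0.4389 (by norm_num) (by norm_num) (by norm_num) (by norm_num)) (by norm_num) (by norm_num)

theorem g7_C2F {β r h κ T t s u Y : ℝ} (B : Bx 0 0.27 0.2517 0 10 0.027 7.5093 β r h κ T) (hs : t + κ = s * h)
    (h1 : 0.59 ≤ u) (h2 : u ≤ 0.75) (h3 : u ≤ s) (h4 : s ≤ u + 0) (hp : Real.pi / 2 ≤ t + (1) * h)
    (hY : eN r κ * (0.8994 * Real.exp (-(T * (0.5924 * (1 - u) ^ 2)))) ≤ Y) :
    ‖Xf β r h t (2)‖ ≤ 0.0001836 * Y := by
  have hpi := Real.pi_gt_d6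
  have hpi' := Real.pi_lt_d6
  have hk := B.P.κ0
  have hk' := B.hk2
  have e : t + (((2 : ℤ) : ℝ) - 1) * h + 2 * Real.pi * ((0 : ℤ) : ℝ) = (s + 1) * h - κ := by
    rw [B.P.hh] at hs ⊢; push_cast; linear_combination hs
  refine farS (n := 0) 0.0996 0.8837 0.9197 0.0001014 B.P B.hk2 ?_ ?_ hY (g0_nn (by norm_num)) (g0_le (by norm_num) h1 h2 (by norm_num) (by norm_num)) (by norm_num) (by norm_num) (by norm_num) (by norm_num) (by norm_num) (expn 9 0.197 (by norm_num) (by norm_num) (by norm_num) (by norm_num)) (by norm_num) (by norm_num)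
  · push_cast; norm_num at hp ⊢; linarith
  · rw [e]
    have := mhi7 B.P (x := s + 1) (x2 := 1.75) (τ2 := 1.5708) (by linarith) (by norm_num) (by norm_num)
    norm_num at hpi hpi' hk' this ⊢
    linarith

theorem g7_C2 {β r h κ T t s u Y : ℝ} (B : Bx 0 0.27 0.2517 0 10 0.027 7.5093 β r h κ T) (hs : t + κ = s * h)
    (h1 : 0.59 ≤ u) (h2 : u ≤ 0.75) (h3 : u ≤ s) (h4 : s ≤ u + 0)
    (hY : eN r κ * (0.8994 * Real.exp (-(T * (0.5924 * (1 - u) ^ 2)))) ≤ Y) :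
    ‖Xf β r h t (2)‖ ≤ 0.004863 * Y := by
  rcases lt_or_ge (t + (1) * h) (Real.pi / 2) with hp | hp
  · exact leE (g7_C2R B hs h1 h2 h3 h4 hp hY) (by norm_num) hY (by norm_num)
  · exact leE (g7_C2F B hs h1 h2 h3 h4 hp hY) (by norm_num) hY (by norm_num)

theorem g7_C3 {β r h κ T t s u Y : ℝ} (B : Bx 0 0.27 0.2517 0 10 0.027 7.5093 β r h κ T) (hs : t + κ = s * h)
    (h1 : 0.59 ≤ u) (h2 : u ≤ 0.75) (h3 : u ≤ s) (h4 : s ≤ u + 0)
    (hY : eN r κ * (0.8994 * Real.exp (-(T * (0.5924 * (1 - u) ^ 2)))) ≤ Y) :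
    ‖Xf β r h t (3)‖ ≤ 0.0001836 * Y := by
  have hpi := Real.pi_gt_d6
  have hpi' := Real.pi_lt_d6
  have hk := B.P.κ0
  have hk' := B.hk2
  have e : t + (((3 : ℤ) : ℝ) - 1) * h + 2 * Real.pi * ((0 : ℤ) : ℝ) = (s + 2) * h - κ := by
    rw [B.P.hh] at hs ⊢; push_cast; linear_combination hs
  refine farS (n := 0) 0.0996 0.8837 0.9197 0.0001014 B.P B.hk2 ?_ ?_ hY (g0_nn (by norm_num)) (g0_le (by norm_num) h1 h2 (by norm_num) (by norm_num)) (by norm_num) (by norm_num) (by norm_num) (by norm_num) (by norm_num) (expn 9 0.197 (by norm_num) (by norm_num) (by norm_num) (by norm_num)) (by norm_num) (by norm_num)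
  · rw [e]
    have := mlo7 B.P (x := s + 2) (x1 := 2.59) (τ1 := 2.3247) (by linarith) (by norm_num) (by norm_num)
    norm_num at hpi hpi' hk' this ⊢
    linarith
  · rw [e]
    have := mhi7 B.P (x := s + 2) (x2 := 2.75) (τ2 := 2.4684) (by linarith) (by norm_num) (by norm_num)
    norm_num at hpi hpi' hk' this ⊢
    linarith

private theorem g7_Cm1_y {κ t : ℝ} (h : DomR κ t) (hk2 : κ ≤ 0.27) (ht1 : (-1.2657) ≤ t + κ) (ht2 : t + κ ≤ (-1.1219)) :
    -0.405 ≤ sy κ t ∧ sy κ t ≤ 0 :=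
  ⟨syL_triv h 0.27 0.405 0.66697 hk2 (by norm_num) (by norm_num) (by norm_num) (expm_ge (by norm_num) (by norm_num) (by norm_num) (by norm_num)) (by norm_num), sy_nonpos h (by linarith)⟩

theorem g7_Cm1 {β r h κ T t s u Y : ℝ} (B : Bx 0 0.27 0.2517 0 10 0.027 7.5093 β r h κ T) (hs : t + κ = s * h)
    (h1 : 0.59 ≤ u) (h2 : u ≤ 0.75) (h3 : u ≤ s) (h4 : s ≤ u + 0)
    (hY : eN r κ * (0.8994 * Real.exp (-(T * (0.5924 * (1 - u) ^ 2)))) ≤ Y) :
    ‖Xf β r h t (-1)‖ ≤ 0.01958 * Y := by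
  obtain ⟨t', ht'⟩ : ∃ t', t' = t + (-2) * h := ⟨_, rfl⟩
  have hτ : t' + κ = (s + (-2)) * h := by rw [ht']; linear_combination hs
  have hpi := Real.pi_gt_d6
  have hpi' := Real.pi_lt_d6
  have hk := B.P.κ0
  have hk' := B.hk2
  have a1 : (-1.2657) ≤ t' + κ := by rw [hτ]; have := mhiN7 B.P (x := s + (-2)) (x2 := 1.41) (τ2 := 1.2657) (by linarith) (by norm_num) (by norm_num); linarith
  have a2 : t' + κ ≤ (-1.1219) := by rw [hτ]; have := mloN7 B.P (x := s + (-2)) (x1 := 1.25) (τ1 := 1.1219) (by linarith) (by norm_num) (by norm_num); linarith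
  have hD : DomR κ t' := ⟨hk, by norm_num at hpi; linarith, Or.inr (by norm_num at hpi; linarith)⟩
  have hy := g7_Cm1_y hD B.hk2 a1 a2
  have hJ : ‖HH β (sg κ t') - 1‖ ≤ 0.0286 := JG42 B.P.hβ (by have := B.hβ0; linarith) (norm_sg_le hD 0.27 (-0.405) 1.49931 0.42 B.hk2 hy.1 (by rw [neg_neg]; exact expn_le (by norm_num) (by norm_num) (by norm_num)) (by norm_num))
  have hd := Dlo7 hD (0 ^ 2) (0.27 ^ 2) 0.19 (-0.405) 0 (-0.405) 2.24785 hy.1 hy.2 (pow_le_pow_left₀ (by norm_num) B.hk1 2) (pow_le_pow_left₀ B.P.κ0.le B.hk2 2)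
      (by rw [show (-2 * (-0.405) : ℝ) = 0.81 by norm_num]; exact expn_ge (by norm_num) (by norm_num)) (by norm_num) (by norm_num) (by norm_num) (by norm_num) (by norm_num)
  have hc : sE κ t' ≤ 1 - 0.406 * (t' + κ) ^ 2 / (1 + κ ^ 2) := VLs2x7 hD (by linarith) (by linarith) (by linarith)
  exact up7 (-2) 0.0286 0.406 0.19 1.558 0.8994 0.5973 0.0113 0.01958 B (by norm_num) ht' hs hD (by norm_num) hJ hc hd (by norm_num) (by norm_num) (by norm_num) hY (by norm_num)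
    (ch0 (a := (-2)) (by norm_num) (sqL h2 h4 (by norm_num) (by norm_num)) (by norm_num) h1 h2 (by norm_num) (by norm_num)) (by norm_num)
    (expn 4 0.4853 (by norm_num) (by norm_num) (by norm_num) (by norm_num)) (by norm_num) (by norm_num)

theorem g7_Cm2 {β r h κ T t s u Y : ℝ} (B : Bx 0 0.27 0.2517 0 10 0.027 7.5093 β r h κ T) (hs : t + κ = s * h)
    (h1 : 0.59 ≤ u) (h2 : u ≤ 0.75) (h3 : u ≤ s) (h4 : s ≤ u + 0)
    (hY : eN r κ * (0.8994 * Real.exp (-(T * (0.5924 * (1 - u) ^ 2)))) ≤ Y) :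
    ‖Xf β r h t (-2)‖ ≤ 0.0001836 * Y := by
  have hpi := Real.pi_gt_d6
  have hpi' := Real.pi_lt_d6
  have hk := B.P.κ0
  have hk' := B.hk2
  have e : t + (((-2 : ℤ) : ℝ) - 1) * h + 2 * Real.pi * ((1 : ℤ) : ℝ) = (s + 4) * h - κ := by
    rw [B.P.hh] at hs ⊢; push_cast; linear_combination hs
  refine farS (n := 1) 0.0996 0.8837 0.9197 0.0001014 B.P B.hk2 ?_ ?_ hY (g0_nn (by norm_num)) (g0_le (by norm_num) h1 h2 (by norm_num) (by norm_num)) (by norm_num) (by norm_num) (by norm_num) (by norm_num) (by norm_num) (expn 9 0.197 (by norm_num) (by norm_num) (by norm_num) (by norm_num)) (by norm_num) (by norm_num)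
  · rw [e]
    have := mlo7 B.P (x := s + 4) (x1 := 4.59) (τ1 := 4.1199) (by linarith) (by norm_num) (by norm_num)
    norm_num at hpi hpi' hk' this ⊢
    linarith
  · rw [e]
    have := mhi7 B.P (x := s + 4) (x2 := 4.75) (τ2 := 4.2636) (by linarith) (by norm_num) (by norm_num)
    norm_num at hpi hpi' hk' this ⊢
    linarith

theorem g7_Cm3 {β r h κ T t s u Y : ℝ} (B : Bx 0 0.27 0.2517 0 10 0.027 7.5093 β r h κ T) (hs : t + κ = s * h)
    (h1 : 0.59 ≤ u) (h2 : u ≤ 0.75) (h3 : u ≤ s) (h4 : s ≤ u + 0)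
    (hY : eN r κ * (0.8994 * Real.exp (-(T * (0.5924 * (1 - u) ^ 2)))) ≤ Y) :
    ‖Xf β r h t (-3)‖ ≤ 0.0001836 * Y := by
  have hpi := Real.pi_gt_d6
  have hpi' := Real.pi_lt_d6
  have hk := B.P.κ0
  have hk' := B.hk2
  have e : t + (((-3 : ℤ) : ℝ) - 1) * h + 2 * Real.pi * ((1 : ℤ) : ℝ) = (s + 3) * h - κ := by
    rw [B.P.hh] at hs ⊢; push_cast; linear_combination hs
  refine farS (n := 1) 0.0996 0.8837 0.9197 0.0001014 B.P B.hk2 ?_ ?_ hY (g0_nn (by norm_num)) (g0_le (by norm_num) h1 h2 (by norm_num) (by norm_num)) (by norm_num) (by norm_num) (by norm_num) (by norm_num) (by norm_num) (expn 9 0.197 (by norm_num) (by norm_num) (by norm_num) (by norm_num)) (by norm_num) (by norm_num)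
  · rw [e]
    have := mlo7 B.P (x := s + 3) (x1 := 3.59) (τ1 := 3.2223) (by linarith) (by norm_num) (by norm_num)
    norm_num at hpi hpi' hk' this ⊢
    linarith
  · rw [e]
    have := mhi7 B.P (x := s + 3) (x2 := 3.75) (τ2 := 3.366) (by linarith) (by norm_num) (by norm_num)
    norm_num at hpi hpi' hk' this ⊢
    linarith

private theorem g7_Do_y {κ t : ℝ} (h : DomR κ t) (hk2 : κ ≤ 0.27) (ht1 : 0.6731 ≤ t + κ) (ht2 : t + κ ≤ 0.9425) :
    0 ≤ sy κ t ∧ sy κ t ≤ 0.218 :=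
  ⟨sy_nonneg h (by linarith), syR_triv h 0.27 0.218 1.24358 hk2 (by norm_num) (expn_ge (by norm_num) (by norm_num)) (by norm_num)⟩

theorem g7_Do {β r h κ T t s u Y : ℝ} (B : Bx 0 0.27 0.2517 0 10 0.027 7.5093 β r h κ T) (hs : t + κ = s * h)
    (h1 : 0.75 ≤ u) (h2 : u ≤ 1.05) (h3 : u ≤ s) (h4 : s ≤ u + 0)
    (hY : eN r κ * (0.8994 * Real.exp (-(T * (0.5924 * (1 - u) ^ 2)))) ≤ Y) :
    ‖Xf β r h t (1)‖ ≤ 0.2868 * Y := by
  obtain ⟨t', ht'⟩ : ∃ t', t' = t + (0) * h := ⟨_, rfl⟩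
  have hτ : t' + κ = (s + 0) * h := by rw [ht']; linear_combination hs
  have hpi := Real.pi_gt_d6
  have hpi' := Real.pi_lt_d6
  have hk := B.P.κ0
  have hk' := B.hk2
  have a1 : 0.6731 ≤ t' + κ := by rw [hτ]; exact mlo7 B.P (x1 := 0.75) (by linarith) (by norm_num) (by norm_num)
  have a2 : t' + κ ≤ 0.9425 := by rw [hτ]; exact mhi7 B.P (x2 := 1.05) (by linarith) (by norm_num) (by norm_num)
  have hD : DomR κ t' := ⟨hk, by norm_num at hpi; linarith, Or.inr (by norm_num at hpi; linarith)⟩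
  have hy := g7_Do_y hD B.hk2 a1 a2
  have hJ : ‖HH β (sg κ t') - 1‖ ≤ 0.0052 := JG27 B.P.hβ (by have := B.hβ0; linarith) (norm_sg_le hD 0.27 0 1 0.27 B.hk2 hy.1 (by simp) (by norm_num))
  have hd := Dlo7 hD (0 ^ 2) (0.27 ^ 2) 1 0 0.218 0 1 hy.1 hy.2 (pow_le_pow_left₀ (by norm_num) B.hk1 2) (pow_le_pow_left₀ B.P.κ0.le B.hk2 2)
      (by norm_num) (by norm_num) (by norm_num) (by norm_num) (by norm_num) (by norm_num)
  have hc : sE κ t' ≤ 1 - 0.3882 * (t' + κ) ^ 2 / (1 + κ ^ 2) := VR7 0.67 0.3882 0.6731 0.9425 _ _ _ _ _ B hD a1 a2 (by norm_num) (by norm_num) (by norm_num) (by norm_num) rfl rfl (by norm_num) rfl rfl rfl (by norm_num) (by norm_num)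
  exact up7 0 0.0052 0.3882 1 1.0053 0.8994 0.1813 0.2565 0.2868 B (by norm_num) ht' hs hD (by norm_num) hJ hc hd (by norm_num) (by norm_num) (by norm_num) hY (by norm_num)
    (ch0 (a := 0) (by norm_num) (sqR h1 h3 (by norm_num)) (by norm_num) h1 h2 (by norm_num) (by norm_num)) (by norm_num)
    (expn 1 0.3614 (by norm_num) (by norm_num) (by norm_num) (by norm_num)) (by norm_num) (by norm_num)

private theorem g7_D2R_y {κ t : ℝ} (h : DomR κ t) (hk2 : κ ≤ 0.27) (ht1 : 1.5707 ≤ t + κ) (ht2 : t + κ ≤ 1.8401) :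
    0 ≤ sy κ t ∧ sy κ t ≤ 0.218 :=
  ⟨sy_nonneg h (by linarith), syR_triv h 0.27 0.218 1.24358 hk2 (by norm_num) (expn_ge (by norm_num) (by norm_num)) (by norm_num)⟩

theorem g7_D2R {β r h κ T t s u Y : ℝ} (B : Bx 0 0.27 0.2517 0 10 0.027 7.5093 β r h κ T) (hs : t + κ = s * h)
    (h1 : 0.75 ≤ u) (h2 : u ≤ 1.05) (h3 : u ≤ s) (h4 : s ≤ u + 0) (hp : t + 1 * h < Real.pi / 2)
    (hY : eN r κ * (0.8994 * Real.exp (-(T * (0.5924 * (1 - u) ^ 2)))) ≤ Y) :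
    ‖Xf β r h t (2)‖ ≤ 0.001365 * Y := by
  obtain ⟨t', ht'⟩ : ∃ t', t' = t + (1) * h := ⟨_, rfl⟩
  have hτ : t' + κ = (s + 1) * h := by rw [ht']; linear_combination hs
  have hpi := Real.pi_gt_d6
  have hpi' := Real.pi_lt_d6
  have hk := B.P.κ0
  have hk' := B.hk2
  have a1 : 1.5707 ≤ t' + κ := by rw [hτ]; exact mlo7 B.P (x1 := 1.75) (by linarith) (by norm_num) (by norm_num)
  have a2 : t' + κ ≤ 1.8401 := by rw [hτ]; exact mhi7 B.P (x2 := 2.05) (by linarith) (by norm_num) (by norm_num)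
  have hD : DomR κ t' := ⟨hk, by rw [ht']; exact hp, Or.inr (by norm_num at hpi; linarith)⟩
  have hy := g7_D2R_y hD B.hk2 a1 a2
  have hJ : ‖HH β (sg κ t') - 1‖ ≤ 0.0052 := JG27 B.P.hβ (by have := B.hβ0; linarith) (norm_sg_le hD 0.27 0 1 0.27 B.hk2 hy.1 (by simp) (by norm_num))
  have hd := Dlo7 hD (0 ^ 2) (0.27 ^ 2) 1 0 0.218 0 1 hy.1 hy.2 (pow_le_pow_left₀ (by norm_num) B.hk1 2) (pow_le_pow_left₀ B.P.κ0.le B.hk2 2)
      (by norm_num) (by norm_num) (by norm_num) (by norm_num) (by norm_num) (by norm_num)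
  have hc : sE κ t' ≤ 1 - 0.3041 * (t' + κ) ^ 2 / (1 + κ ^ 2) := VR7 0.47 0.3041 1.5707 1.8401 _ _ _ _ _ B hD a1 a2 (by norm_num) (by norm_num) (by norm_num) (by norm_num) rfl rfl (by norm_num) rfl rfl rfl (by norm_num) (by norm_num)
  exact up7 1 0.0052 0.3041 1 1.0053 0.8994 0.8942 0.001221 0.001365 B (by norm_num) ht' hs hD (by norm_num) hJ hc hd (by norm_num) (by norm_num) (by norm_num) hY (by norm_num)
    (ch0 (a := 1) (by norm_num) (sqR h1 h3 (by norm_num)) (by norm_num) h1 h2 (by norm_num) (by norm_num)) (by norm_num)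
    (expn 6 0.7148 (by norm_num) (by norm_num) (by norm_num) (by norm_num)) (by norm_num) (by norm_num)

theorem g7_D2F {β r h κ T t s u Y : ℝ} (B : Bx 0 0.27 0.2517 0 10 0.027 7.5093 β r h κ T) (hs : t + κ = s * h)
    (h1 : 0.75 ≤ u) (h2 : u ≤ 1.05) (h3 : u ≤ s) (h4 : s ≤ u + 0) (hp : Real.pi / 2 ≤ t + (1) * h)
    (hY : eN r κ * (0.8994 * Real.exp (-(T * (0.5924 * (1 - u) ^ 2)))) ≤ Y) :
    ‖Xf β r h t (2)‖ ≤ 0.0001115 * Y := by
  have hpi := Real.pi_gt_d6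
  have hpi' := Real.pi_lt_d6
  have hk := B.P.κ0
  have hk' := B.hk2
  have e : t + (((2 : ℤ) : ℝ) - 1) * h + 2 * Real.pi * ((0 : ℤ) : ℝ) = (s + 1) * h - κ := by
    rw [B.P.hh] at hs ⊢; push_cast; linear_combination hs
  refine farS (n := 0) 0.0371 0.8837 0.9701 0.00006158 B.P B.hk2 ?_ ?_ hY (g0_nn (by norm_num)) (g0_le (by norm_num) h1 h2 (by norm_num) (by norm_num)) (by norm_num) (by norm_num) (by norm_num) (by norm_num) (by norm_num) (expn 9 0.701 (by norm_num) (by norm_num) (by norm_num) (by norm_num)) (by norm_num) (by norm_num)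
  · push_cast; norm_num at hp ⊢; linarith
  · rw [e]
    have := mhi7 B.P (x := s + 1) (x2 := 2.05) (τ2 := 1.8401) (by linarith) (by norm_num) (by norm_num)
    norm_num at hpi hpi' hk' this ⊢
    linarith

theorem g7_D2 {β r h κ T t s u Y : ℝ} (B : Bx 0 0.27 0.2517 0 10 0.027 7.5093 β r h κ T) (hs : t + κ = s * h)
    (h1 : 0.75 ≤ u) (h2 : u ≤ 1.05) (h3 : u ≤ s) (h4 : s ≤ u + 0)
    (hY : eN r κ * (0.8994 * Real.exp (-(T * (0.5924 * (1 - u) ^ 2)))) ≤ Y) :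
    ‖Xf β r h t (2)‖ ≤ 0.001365 * Y := by
  rcases lt_or_ge (t + (1) * h) (Real.pi / 2) with hp | hp
  · exact leE (g7_D2R B hs h1 h2 h3 h4 hp hY) (by norm_num) hY (by norm_num)
  · exact leE (g7_D2F B hs h1 h2 h3 h4 hp hY) (by norm_num) hY (by norm_num)

theorem g7_D3 {β r h κ T t s u Y : ℝ} (B : Bx 0 0.27 0.2517 0 10 0.027 7.5093 β r h κ T) (hs : t + κ = s * h)
    (h1 : 0.75 ≤ u) (h2 : u ≤ 1.05) (h3 : u ≤ s) (h4 : s ≤ u + 0)
    (hY : eN r κ * (0.8994 * Real.exp (-(T * (0.5924 * (1 - u) ^ 2)))) ≤ Y) :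
    ‖Xf β r h t (3)‖ ≤ 0.0001115 * Y := by
  have hpi := Real.pi_gt_d6
  have hpi' := Real.pi_lt_d6
  have hk := B.P.κ0
  have hk' := B.hk2
  have e : t + (((3 : ℤ) : ℝ) - 1) * h + 2 * Real.pi * ((0 : ℤ) : ℝ) = (s + 2) * h - κ := by
    rw [B.P.hh] at hs ⊢; push_cast; linear_combination hs
  refine farS (n := 0) 0.0371 0.8837 0.9701 0.00006158 B.P B.hk2 ?_ ?_ hY (g0_nn (by norm_num)) (g0_le (by norm_num) h1 h2 (by norm_num) (by norm_num)) (by norm_num) (by norm_num) (by norm_num) (by norm_num) (by norm_num) (expn 9 0.701 (by norm_num) (by norm_num) (by norm_num) (by norm_num)) (by norm_num) (by norm_num)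
  · rw [e]
    have := mlo7 B.P (x := s + 2) (x1 := 2.75) (τ1 := 2.4683) (by linarith) (by norm_num) (by norm_num)
    norm_num at hpi hpi' hk' this ⊢
    linarith
  · rw [e]
    have := mhi7 B.P (x := s + 2) (x2 := 3.05) (τ2 := 2.7377) (by linarith) (by norm_num) (by norm_num)
    norm_num at hpi hpi' hk' this ⊢
    linarith

private theorem g7_Dm1_y {κ t : ℝ} (h : DomR κ t) (hk2 : κ ≤ 0.27) (ht1 : (-1.122) ≤ t + κ) (ht2 : t + κ ≤ (-0.8527)) :
    -0.387 ≤ sy κ t ∧ sy κ t ≤ 0 :=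
  ⟨syL_ang h 0.27 1.122 1.33 0.2382 0.9726 0.387 0.67909 hk2 (by norm_num) (by linarith) (by norm_num) (by norm_num) (cos_ge_num (by norm_num) (by norm_num)) (sin_le_num (by norm_num) (by norm_num)) (by norm_num)
    (expm_ge (by norm_num) (by norm_num) (by norm_num) (by norm_num)) (by norm_num) (by norm_num), sy_nonpos h (by linarith)⟩

theorem g7_Dm1 {β r h κ T t s u Y : ℝ} (B : Bx 0 0.27 0.2517 0 10 0.027 7.5093 β r h κ T) (hs : t + κ = s * h)
    (h1 : 0.75 ≤ u) (h2 : u ≤ 1.05) (h3 : u ≤ s) (h4 : s ≤ u + 0)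
    (hY : eN r κ * (0.8994 * Real.exp (-(T * (0.5924 * (1 - u) ^ 2)))) ≤ Y) :
    ‖Xf β r h t (-1)‖ ≤ 0.1079 * Y := by
  obtain ⟨t', ht'⟩ : ∃ t', t' = t + (-2) * h := ⟨_, rfl⟩
  have hτ : t' + κ = (s + (-2)) * h := by rw [ht']; linear_combination hs
  have hpi := Real.pi_gt_d6
  have hpi' := Real.pi_lt_d6
  have hk := B.P.κ0
  have hk' := B.hk2
  have a1 : (-1.122) ≤ t' + κ := by rw [hτ]; have := mhiN7 B.P (x := s + (-2)) (x2 := 1.25) (τ2 := 1.122) (by linarith) (by norm_num) (by norm_num); linarith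
  have a2 : t' + κ ≤ (-0.8527) := by rw [hτ]; have := mloN7 B.P (x := s + (-2)) (x1 := 0.95) (τ1 := 0.8527) (by linarith) (by norm_num) (by norm_num); linarith
  have hD : DomR κ t' := ⟨hk, by norm_num at hpi; linarith, Or.inr (by norm_num at hpi; linarith)⟩
  have hy := g7_Dm1_y hD B.hk2 a1 a2
  have hJ : ‖HH β (sg κ t') - 1‖ ≤ 0.0286 := JG42 B.P.hβ (by have := B.hβ0; linarith) (norm_sg_le hD 0.27 (-0.387) 1.47256 0.42 B.hk2 hy.1 (by rw [neg_neg]; exact expn_le (by norm_num) (by norm_num) (by norm_num)) (by norm_num))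
  have hd := Dlo7 hD (0 ^ 2) (0.27 ^ 2) 0.226 (-0.387) 0 (-0.387) 2.16838 hy.1 hy.2 (pow_le_pow_left₀ (by norm_num) B.hk1 2) (pow_le_pow_left₀ B.P.κ0.le B.hk2 2)
      (by rw [show (-2 * (-0.387) : ℝ) = 0.774 by norm_num]; exact expn_ge (by norm_num) (by norm_num)) (by norm_num) (by norm_num) (by norm_num) (by norm_num) (by norm_num)
  have hc : sE κ t' ≤ 1 - 0.406 * (t' + κ) ^ 2 / (1 + κ ^ 2) := VLs2x7 hD (by linarith) (by linarith) (by linarith)
  exact up7 (-2) 0.0286 0.406 0.226 1.4919 0.8994 0.3649 0.06502 0.1079 B (by norm_num) ht' hs hD (by norm_num) hJ hc hd (by norm_num) (by norm_num) (by norm_num) hY (by norm_num)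
    (ch0 (a := (-2)) (by norm_num) (sqL h2 h4 (by norm_num) (by norm_num)) (by norm_num) h1 h2 (by norm_num) (by norm_num)) (by norm_num)
    (expn 2 0.7401 (by norm_num) (by norm_num) (by norm_num) (by norm_num)) (by norm_num) (by norm_num)

theorem g7_Dm2 {β r h κ T t s u Y : ℝ} (B : Bx 0 0.27 0.2517 0 10 0.027 7.5093 β r h κ T) (hs : t + κ = s * h)
    (h1 : 0.75 ≤ u) (h2 : u ≤ 1.05) (h3 : u ≤ s) (h4 : s ≤ u + 0)
    (hY : eN r κ * (0.8994 * Real.exp (-(T * (0.5924 * (1 - u) ^ 2)))) ≤ Y) :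
    ‖Xf β r h t (-2)‖ ≤ 0.0001115 * Y := by
  have hpi := Real.pi_gt_d6
  have hpi' := Real.pi_lt_d6
  have hk := B.P.κ0
  have hk' := B.hk2
  have e : t + (((-2 : ℤ) : ℝ) - 1) * h + 2 * Real.pi * ((1 : ℤ) : ℝ) = (s + 4) * h - κ := by
    rw [B.P.hh] at hs ⊢; push_cast; linear_combination hs
  refine farS (n := 1) 0.0371 0.8837 0.9701 0.00006158 B.P B.hk2 ?_ ?_ hY (g0_nn (by norm_num)) (g0_le (by norm_num) h1 h2 (by norm_num) (by norm_num)) (by norm_num) (by norm_num) (by norm_num) (by norm_num) (by norm_num) (expn 9 0.701 (by norm_num) (by norm_num) (by norm_num) (by norm_num)) (by norm_num) (by norm_num)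
  · rw [e]
    have := mlo7 B.P (x := s + 4) (x1 := 4.75) (τ1 := 4.2635) (by linarith) (by norm_num) (by norm_num)
    norm_num at hpi hpi' hk' this ⊢
    linarith
  · rw [e]
    have := mhi7 B.P (x := s + 4) (x2 := 5.05) (τ2 := 4.5329) (by linarith) (by norm_num) (by norm_num)
    norm_num at hpi hpi' hk' this ⊢
    linarith

theorem g7_Dm3 {β r h κ T t s u Y : ℝ} (B : Bx 0 0.27 0.2517 0 10 0.027 7.5093 β r h κ T) (hs : t + κ = s * h)
    (h1 : 0.75 ≤ u) (h2 : u ≤ 1.05) (h3 : u ≤ s) (h4 : s ≤ u + 0)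
    (hY : eN r κ * (0.8994 * Real.exp (-(T * (0.5924 * (1 - u) ^ 2)))) ≤ Y) :
    ‖Xf β r h t (-3)‖ ≤ 0.0001115 * Y := by
  have hpi := Real.pi_gt_d6
  have hpi' := Real.pi_lt_d6
  have hk := B.P.κ0
  have hk' := B.hk2
  have e : t + (((-3 : ℤ) : ℝ) - 1) * h + 2 * Real.pi * ((1 : ℤ) : ℝ) = (s + 3) * h - κ := by
    rw [B.P.hh] at hs ⊢; push_cast; linear_combination hs
  refine farS (n := 1) 0.0371 0.8837 0.9701 0.00006158 B.P B.hk2 ?_ ?_ hY (g0_nn (by norm_num)) (g0_le (by norm_num) h1 h2 (by norm_num) (by norm_num)) (by norm_num) (by norm_num) (by norm_num) (by norm_num) (by norm_num) (expn 9 0.701 (by norm_num) (by norm_num) (by norm_num) (by norm_num)) (by norm_num) (by norm_num)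
  · rw [e]
    have := mlo7 B.P (x := s + 3) (x1 := 3.75) (τ1 := 3.3659) (by linarith) (by norm_num) (by norm_num)
    norm_num at hpi hpi' hk' this ⊢
    linarith
  · rw [e]
    have := mhi7 B.P (x := s + 3) (x2 := 4.05) (τ2 := 3.6353) (by linarith) (by norm_num) (by norm_num)
    norm_num at hpi hpi' hk' this ⊢
    linarith

private theorem g7_yS1 {κ t : ℝ} (h : DomR κ t) (hk2 : κ ≤ 0.27) (ht1 : 0.3859 ≤ t + κ) (ht2 : t + κ ≤ 0.5296) :
    0 ≤ sy κ t ∧ sy κ t ≤ 0.218 :=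
  ⟨sy_nonneg h (by linarith), syR_triv h 0.27 0.218 1.24358 hk2 (by norm_num) (expn_ge (by norm_num) (by norm_num)) (by norm_num)⟩

private theorem g7_yS0 {κ t : ℝ} (h : DomR κ t) (hk2 : κ ≤ 0.27) (ht1 : (-0.5117) ≤ t + κ) (ht2 : t + κ ≤ (-0.368)) :
    -0.171 ≤ sy κ t ∧ sy κ t ≤ 0 :=
  ⟨syL_ang h 0.27 0.5117 0.56 0.8472 0.5312 0.171 0.84282 hk2 (by norm_num) (by linarith) (by norm_num) (by norm_num) (cos_ge_num (by norm_num) (by norm_num)) (sin_le_num (by norm_num) (by norm_num)) (by norm_num)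
    (expm_ge (by norm_num) (by norm_num) (by norm_num) (by norm_num)) (by norm_num) (by norm_num), sy_nonpos h (by linarith)⟩

theorem g7_S {β r h κ T t s : ℝ} (B : Bx 0 0.27 0.2517 0 10 0.027 7.5093 β r h κ T) (hs : t + κ = s * h)
    (h1 : 0.43 ≤ s) (h2 : s ≤ 0.59) :
    ‖Ld β r h t 0‖ ≤ r * 1.1865 + 0.3467 ∧ ‖Ld β r h t 1‖ ≤ r * 1 + 0.1712 ∧
      T * 0.9332 - (0.0408 + 0.1202 + 0 + 0.37) ≤ (Ld β r h t 1 - Ld β r h t 0).im := by
  have a1 : 0.3859 ≤ t + κ := by rw [hs]; exact mlo7 B.P h1 (by norm_num) (by norm_num)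
  have a2 : t + κ ≤ 0.5296 := by rw [hs]; exact mhi7 B.P h2 (by norm_num) (by norm_num)
  have hτ : t - h + κ = (s + (-1)) * h := by linear_combination hs
  have b1 : (-0.5117) ≤ t - h + κ := by rw [hτ]; have := mhiN7 B.P (x := s + (-1)) (x2 := 0.57) (τ2 := 0.5117) (by linarith) (by norm_num) (by norm_num); linarith
  have b2 : t - h + κ ≤ (-0.368) := by rw [hτ]; have := mloN7 B.P (x := s + (-1)) (x1 := 0.41) (τ1 := 0.368) (by linarith) (by norm_num) (by norm_num); linarith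
  have hk := B.P.κ0
  have hk2 := B.hk2
  have hk' := B.P.hκ1
  have hb : β ≤ 0.027 := by have := B.hβ0; linarith
  have hD1 : DomR κ t := dom7 B.P.κ0 (by linarith) (by linarith)
  have hD0 : DomR κ (t - h) := dom7 B.P.κ0 (by linarith) (by linarith)
  have hy1 := g7_yS1 hD1 B.hk2 a1 a2
  have hy0 := g7_yS0 hD0 B.hk2 b1 b2
  have hd1 := Dlo7 hD1 (0 ^ 2) (0.27 ^ 2) 1 0 0.218 0 1 hy1.1 hy1.2 (pow_le_pow_left₀ (by norm_num) B.hk1 2) (pow_le_pow_left₀ B.P.κ0.le B.hk2 2)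
      (by norm_num) (by norm_num) (by norm_num) (by norm_num) (by norm_num) (by norm_num)
  have hd0 := Dlo7 hD0 (0 ^ 2) (0.27 ^ 2) 0.658 (-0.171) 0 (-0.171) 1.40776 hy0.1 hy0.2 (pow_le_pow_left₀ (by norm_num) B.hk1 2) (pow_le_pow_left₀ B.P.κ0.le B.hk2 2)
      (by rw [show (-2 * (-0.171) : ℝ) = 0.342 by norm_num]; exact expn_ge (by norm_num) (by norm_num)) (by norm_num) (by norm_num) (by norm_num) (by norm_num) (by norm_num)
  have hJ1 : ∀ s : ℂ, ‖s - sg κ (t)‖ ≤ 0.1 → ‖HH β s - 1‖ ≤ 0.0154 := fun s hs => JG37s B.P.hβ hb (ndisc (norm_sg_le hD1 0.27 0 1 0.27 B.hk2 hy1.1 (by simp) (by norm_num)) hs (by norm_num))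
  have hJ0 : ∀ s : ℂ, ‖s - sg κ (t - h)‖ ≤ 0.09 → ‖HH β s - 1‖ ≤ 0.0286 := fun s hs => JG42s B.P.hβ hb (ndisc (norm_sg_le hD0 0.27 (-0.171) 1.1865 0.320355 B.hk2 hy0.1 (by rw [neg_neg]; exact expn_le (by norm_num) (by norm_num) (by norm_num)) (by norm_num)) hs (by norm_num))
  obtain ⟨m1, n1⟩ := copy7 (t := t) (t' := t) (k := 1) 0 0.27 1 0 1 1 0.2607 1.0001 0.0154 0.1 0.0408 0.1712 B.P (by push_cast; ring) hD1 B.hk1 B.hk2 (by norm_num) (by norm_num) (by norm_num) (by norm_num) hJ1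
    hy1.1 (by norm_num) hd1 (by norm_num) (by simp) (by norm_num) (by norm_num) (by norm_num) (by norm_num) (by norm_num) (by norm_num) (by norm_num) (by norm_num)
  obtain ⟨m0, n0⟩ := copy7 (t := t) (t' := t - h) (k := 0) 0 0.27 0.658 (-0.171) 1.1865 1.4078 0.3674 1.2328 0.0286 0.09 0.1202 0.3467 B.P (by push_cast; ring) hD0 B.hk1 B.hk2 (by norm_num) (by norm_num) (by norm_num) (by norm_num) hJ0
    hy0.1 (by norm_num) hd0 (by norm_num) (by rw [neg_neg]; exact expn_le (by norm_num) (by norm_num) (by norm_num)) (by norm_num) (by norm_num) (by norm_num) (by norm_num) (by norm_num) (by norm_num) (by norm_num) (by norm_num)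
  refine ⟨m0, m1, ?_⟩
  have q1 := corr1_ge hD1 0 0.27 1 0 B.hk1 B.hk2 (by norm_num) (by linarith) hd1 (by norm_num) (by norm_num) (Or.inl (by norm_num))
  have q0 := corr0_le hD0 0 0.27 0.658 1.1865 0.37 B.hk1 B.hk2 (by norm_num) (by linarith) hd0 (by norm_num) (by norm_num)
    ((Real.exp_le_exp.2 (by linarith)).trans (show Real.exp (-(-0.171)) ≤ 1.1865 from (by rw [neg_neg]; exact expn_le (by norm_num) (by norm_num) (by norm_num)))) (Or.inr (by norm_num))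
  exact slope7 0.77 0.935 0.9332 0.43 0.59 0.0408 0.1202 0 0.37 B.P hs h1 h2 (pR_060 hD1 (by linarith) (by linarith) (by linarith)) (pL_060 hD0 hk' (by linarith) (by linarith)) n1 n0 q1 q0
    (by norm_num) (by norm_num) (by norm_num)

theorem box_g7 {p : ℤ} (hp : IsCoprime (7 : ℤ) p) {β r h κ T : ℝ} (P : Q7 β r h κ T) (hk2 : κ ≤ 0.27) :
    Circ (2 * Real.pi * p / (7 : ℕ) + β) r := by
  have B : Bx 0 0.27 0.2517 0 10 0.027 7.5093 β r h κ T :=
    { P := P, hk1 := P.κ0.le, hk2 := hk2, hψ := (psi_lo P.κ0.le hk2 (by norm_num)).trans (by norm_num), hψ1 := div_nonneg P.κ0.le P.A0.le, hR0 := P.hr.trans' (by norm_num), hβ0 := by have := P.βκ; linarith, hT0 := P.T8 hk2 (by norm_num) (by norm_num) }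
  have hT := B.hT0
  have hr := P.r_le (ν := 1.3317) hk2 (by norm_num)
  refine fin7 hp P (slo := 0.43) (shi := 0.59) (bb := 0.0826) (ℓ1 := 0.9087) (ℓ0 := 0.8994) (C0 := 0.5924) (e2 := 0.01356) (e3 := 0.0003321) (f1 := 0.01596) (g1 := 0.02947) (f2 := 0.0003882) (f3 := 0.0003882)
    (a := 1.06) (m := T * 0.9332 - (0.531)) (η := 0.0307) (Λ0 := r * 1.1865 + 0.3467) (Λ1 := r * 1 + 0.1712) (S1 := 0.0609)
    (by norm_num) (by norm_num) (by linarith) (by norm_num) (by norm_num) (by norm_num) (by norm_num)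
    ?_ ?_ ?_ ?_ ?_ ?_ ?_ ?_ ?_ ?_ ?_ ?_ ?_ (by norm_num) (by norm_num) (by norm_num) ?_
  · intro t s hs h1 h2
    exact g7_L1 B hs (by linarith) h2
  · intro t s hs h1 h2
    exact g7_L0 B hs h1 (by linarith)
  · intro t s u Y hs h1 h2 h3 h4 hY
    exact g7_W2 B hs h1 h2 h3 h4 hY
  · intro t s u Y hs h1 h2 h3 h4 hY
    exact g7_W3 B hs h1 h2 h3 h4 hY
  · intro t s u Y hs h1 h2 h3 h4 hY
    exact g7_Wm1 B hs h1 h2 h3 h4 hY
  · intro t s u Y hs h1 h2 h3 h4 hY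
    exact g7_Wm1p B hs h1 h2 h3 h4 hY
  · intro t s u Y hs h1 h2 h3 h4 hY
    exact g7_Wm2 B hs h1 h2 h3 h4 hY
  · intro t s u Y hs h1 h2 h3 h4 hY
    exact g7_Wm3 B hs h1 h2 h3 h4 hY
  · intro t s hs h1 h2
    have hY := g7_L1 B hs (by linarith) (by linarith)
    have hYp := lt_of_lt_of_le (mul_pos (eN_pos r κ) (mul_pos (by norm_num : (0 : ℝ) < 0.9087) (Real.exp_pos _))) hY
    rcases le_total s 0.36 with hc | hc
    · have x0 := g7_Ao B hs h1 hc le_rfl (by linarith) hY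
      have x2 := g7_A2 B hs h1 hc le_rfl (by linarith) hY
      have x3 := g7_A3 B hs h1 hc le_rfl (by linarith) hY
      have xm1 := g7_Am1 B hs h1 hc le_rfl (by linarith) hY
      have xm2 := g7_Am2 B hs h1 hc le_rfl (by linarith) hY
      have xm3 := g7_Am3 B hs h1 hc le_rfl (by linarith) hY
      linarith
    · have x0 := g7_Bo B hs hc h2 le_rfl (by linarith) hY
      have x2 := g7_B2 B hs hc h2 le_rfl (by linarith) hY
      have x3 := g7_B3 B hs hc h2 le_rfl (by linarith) hY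
      have xm1 := g7_Bm1 B hs hc h2 le_rfl (by linarith) hY
      have xm2 := g7_Bm2 B hs hc h2 le_rfl (by linarith) hY
      have xm3 := g7_Bm3 B hs hc h2 le_rfl (by linarith) hY
      linarith
  · intro t s hs h1 h2
    have hY := g7_L0 B hs (by linarith) (by linarith)
    have hYp := lt_of_lt_of_le (mul_pos (eN_pos r κ) (mul_pos (by norm_num : (0 : ℝ) < 0.8994) (Real.exp_pos _))) hY
    rcases le_total s 0.75 with hc | hc
    · have x0 := g7_Co B hs h1 hc le_rfl (by linarith) hY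
      have x2 := g7_C2 B hs h1 hc le_rfl (by linarith) hY
      have x3 := g7_C3 B hs h1 hc le_rfl (by linarith) hY
      have xm1 := g7_Cm1 B hs h1 hc le_rfl (by linarith) hY
      have xm2 := g7_Cm2 B hs h1 hc le_rfl (by linarith) hY
      have xm3 := g7_Cm3 B hs h1 hc le_rfl (by linarith) hY
      linarith
    · have x0 := g7_Do B hs hc h2 le_rfl (by linarith) hY
      have x2 := g7_D2 B hs hc h2 le_rfl (by linarith) hY
      have x3 := g7_D3 B hs hc h2 le_rfl (by linarith) hY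
      have xm1 := g7_Dm1 B hs hc h2 le_rfl (by linarith) hY
      have xm2 := g7_Dm2 B hs hc h2 le_rfl (by linarith) hY
      have xm3 := g7_Dm3 B hs hc h2 le_rfl (by linarith) hY
      linarith
  · intro t s hs h1 h2
    exact (g7_S B hs h1 h2).1
  · intro t s hs h1 h2
    exact (g7_S B hs h1 h2).2.1
  · intro t s hs h1 h2
    have := (g7_S B hs h1 h2).2.2
    linarith
  · linarith

end Sok
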