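import Pool.Agent.Lib.MP_816dec_an.R1b7C
import Pool.Agent.Lib.MP_816dec_an.JB7a
import Pool.Agent.Lib.MP_816dec_an.JB7b
import Pool.Agent.Lib.MP_816dec_an.T7S0b
import Pool.Agent.Lib.MP_816dec_an.T7S1b

/-!
MP_816dec_an (A3, row R1), b = 7: box 10
-/

set_option autoImplicit false
set_option maxHeartbeats 4000000

open Complex Set Filter Topology Metric

namespace Sok

private theorem b7_10_yL1 {κ t : ℝ} (h : DomR κ t) (hk1 : 1.26 ≤ κ) (hk2 : κ ≤ 1.39) (ht1 : 0 ≤ t + κ) (ht2 : t + κ ≤ 0.5296) :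
    0 ≤ sy κ t ∧ sy κ t ≤ 0.235 := by
  have hy1 : 0 ≤ sy κ t := sy_nonneg h (by linarith)
  have hy2 : sy κ t ≤ 0.235 := syR_le h 1.26 1.39 0.5296 0.235 1.2649 0.2267 0.21384 0.23592 hk1 hk2 (by linarith) (by norm_num) (by norm_num)
    (expn_ge (by norm_num) (by norm_num)) (by norm_num) (by norm_num) (Or.inr ((mul_le_mul_of_nonneg_left (expn_le (E := 1.26491) (by norm_num) (by norm_num) (by norm_num)) (by norm_num)).trans (by norm_num))) (by norm_num) (by norm_num) (by norm_num)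
  exact ⟨by linarith, by linarith⟩

theorem b7_10_L1 {β r h κ T t s : ℝ} (B : Bx 1.26 1.39 0.487 0.474 17.4758 0.0741 5.441 β r h κ T) (hs : t + κ = s * h)
    (h1 : 0.05 ≤ s) (h2 : s ≤ 0.59) :
    eN r κ * (0.9699 * Real.exp (-(T * (1 / 2 * s ^ 2)))) ≤ ‖Xf β r h t 1‖ := by
  have a1 : 0.0448 ≤ t + κ := by rw [hs]; exact mlo7 B.P h1 (by norm_num) (by norm_num)
  have a2 : t + κ ≤ 0.5296 := by rw [hs]; exact mhi7 B.P h2 (by norm_num) (by norm_num)
  have hk := B.hk1
  have hD : DomR κ t := dom7 B.P.κ0 (by linarith) (by linarith)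
  have hy := b7_10_yL1 hD B.hk1 B.hk2 (by linarith) a2
  have hJ := JB7_k1a hD B.P.hβ (by linarith) B.P.hκ1 (by linarith) (by linarith) B.P.βκ B.P.βR
  have hd := Dup7 hD (1.26 ^ 2) (1.39 ^ 2) 1 0 0.235 1 0.62501 hy.1 hy.2 (pow_le_pow_left₀ (by norm_num) B.hk1 2) (pow_le_pow_left₀ B.P.κ0.le B.hk2 2)
      (by norm_num)
      (by rw [show (-2 * 0.235 : ℝ) = -0.47 by norm_num]; exact expm_le (by norm_num) (by norm_num) (by norm_num)) (by norm_num) (by norm_num) (by norm_num) (by norm_num)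
  have := loR7 (k := 1) 0 0.03 1 0.9699 B.P (by norm_num) (by ring : t = t + 0 * h) hs (by linarith) hD (by norm_num) hJ hd (by norm_num) (by norm_num)
  rw [add_zero] at this
  exact this

private theorem b7_10_yL0 {κ t : ℝ} (h : DomR κ t) (hk1 : 1.26 ≤ κ) (hk2 : κ ≤ 1.39) (ht1 : (-0.5117) ≤ t + κ) (ht2 : t + κ ≤ 0) :
    (-0.26) ≤ sy κ t ∧ sy κ t ≤ 0 := by
  have hy1 : -0.26 ≤ sy κ t := syL_ge h 1.26 1.39 0.5117 0.26 0.77105 0.77106 0.1442 0.14422 0.15911 hk1 hk2 (by linarith) (by norm_num) (by norm_num) (by norm_num)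
    (expm_ge (by norm_num) (by norm_num) (by norm_num) (by norm_num)) (expm_le (by norm_num) (by norm_num) (by norm_num)) (by norm_num)
    (by norm_num) (by norm_num) (by norm_num) (by norm_num) (by norm_num) (by norm_num)
  have hy2 : sy κ t ≤ 0 := sy_nonpos h (by linarith)
  exact ⟨by linarith, by linarith⟩

private theorem b7_10_yL00 {κ t : ℝ} (h : DomR κ t) (hk1 : 1.26 ≤ κ) (hk2 : κ ≤ 1.39) (ht1 : 0 ≤ t + κ) (ht2 : t + κ ≤ 0.05) :
    0 ≤ sy κ t ∧ sy κ t ≤ 0.025 := by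
  have hy1 : 0 ≤ sy κ t := sy_nonneg h (by linarith)
  have hy2 : sy κ t ≤ 0.025 := syR_le h 1.26 1.39 0.05 0.025 1.02531 0.0179 0.01844 0.02035 hk1 hk2 (by linarith) (by norm_num) (by norm_num)
    (expn_ge (by norm_num) (by norm_num)) (by norm_num) (by norm_num) (Or.inr ((mul_le_mul_of_nonneg_left (expn_le (E := 1.02532) (by norm_num) (by norm_num) (by norm_num)) (by norm_num)).trans (by norm_num))) (by norm_num) (by norm_num) (by norm_num)
  exact ⟨by linarith, by linarith⟩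

theorem b7_10_L0 {β r h κ T t s : ℝ} (B : Bx 1.26 1.39 0.487 0.474 17.4758 0.0741 5.441 β r h κ T) (hs : t + κ = s * h)
    (h1 : 0.43 ≤ s) (h2 : s ≤ 1.05) :
    eN r κ * (0.8662 * Real.exp (-(T * (0.5279 * (1 - s) ^ 2)))) ≤ ‖Xf β r h t 0‖ := by
  obtain ⟨t', ht'⟩ : ∃ t', t' = t + (-1) * h := ⟨_, rfl⟩
  have hτ : t' + κ = (s + (-1)) * h := by rw [ht']; linear_combination hs
  have e : 0.5279 * (1 - s) ^ 2 = 0.5279 * (s + (-1)) ^ 2 := by ring
  rw [e]
  have b1 : -((s + (-1)) * h) ≤ 0.5117 := mhiN7 B.P (x2 := 0.57) (by linarith) (by norm_num) (by norm_num)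
  have b2 : (s + (-1)) * h ≤ 0.05 := mhi7 B.P (x2 := 0.05) (by linarith) (by norm_num) (by norm_num)
  have hk := B.hk1
  have hk' := B.P.hκ1
  rw [← hτ] at b1 b2
  have hD : DomR κ t' := dom7 B.P.κ0 (by linarith) (by linarith)
  have hJ := JB7_k0a hD B.P.hβ (by linarith) B.P.hκ1 (by linarith) (by linarith) B.P.βκ B.P.βR
  rcases le_total s 1 with hc | hc
  · have b3 : t' + κ ≤ 0 := by rw [hτ]; exact mul_nonpos_of_nonpos_of_nonneg (by linarith) B.P.h0.le
    have hy := b7_10_yL0 hD B.hk1 B.hk2 (by linarith) b3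
    have hd := Dup7 hD (1.26 ^ 2) (1.39 ^ 2) 1.2721 (-0.26) 0 1.68203 1 hy.1 hy.2 (pow_le_pow_left₀ (by norm_num) B.hk1 2) (pow_le_pow_left₀ B.P.κ0.le B.hk2 2)
      (by rw [show (-2 * (-0.26) : ℝ) = 0.52 by norm_num]; exact expn_le (by norm_num) (by norm_num) (by norm_num))
      (by norm_num) (by norm_num) (by norm_num) (by norm_num) (by norm_num)
    exact loLB7 (k := 0) (-1) 0.08 1.2721 0.8662 0.5279 0.5117 0.091 0.659 0.0578 B (by norm_num) ht' hs (by linarith) (by rw [← hτ]; exact b1) hD (by norm_num) hJ hd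
      (by norm_num) (by norm_num) (by norm_num) (by norm_num) (by norm_num) (by norm_num) (by norm_num) (by norm_num) (by norm_num) (by norm_num) (by norm_num) (by norm_num) (by norm_num)
  · have b3 : 0 ≤ t' + κ := by rw [hτ]; exact mul_nonneg (by linarith) B.P.h0.le
    have hy := b7_10_yL00 hD B.hk1 B.hk2 b3 b2
    have hd := Dup7 hD (1.26 ^ 2) (1.39 ^ 2) 1.2721 0 0.025 1 0.95123 hy.1 hy.2 (pow_le_pow_left₀ (by norm_num) B.hk1 2) (pow_le_pow_left₀ B.P.κ0.le B.hk2 2)
      (by norm_num)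
      (by rw [show (-2 * 0.025 : ℝ) = -0.05 by norm_num]; exact expm_le (by norm_num) (by norm_num) (by norm_num)) (by norm_num) (by norm_num) (by norm_num) (by norm_num)
    have := loR7 (k := 0) (-1) 0.08 1.2721 0.8662 B.P (by norm_num) ht' hs (by linarith) hD (by norm_num) hJ hd (by norm_num) (by norm_num)
    exact le_trans (weak7 (by have := B.P.T5; linarith) (by norm_num) (by norm_num)) this

private theorem b7_10_W2a_y {κ t : ℝ} (h : DomR κ t) (hk1 : 1.26 ≤ κ) (hk2 : κ ≤ 1.39) (ht1 : 1.2835 ≤ t + κ) (ht2 : t + κ ≤ 1.3981) :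
    0.471 ≤ sy κ t ∧ sy κ t ≤ 0.516 := by
  have hy1 : 0.471 ≤ sy κ t := syR_ge h 1.26 1.39 1.2835 0.471 1.60159 1.6016 0.54269 0.5987 hk1 hk2 (by linarith) (by norm_num) (by norm_num)
    (expn_ge (by norm_num) (by norm_num)) (expn_le (by norm_num) (by norm_num) (by norm_num)) (by norm_num)
    (by norm_num) (by norm_num) (by norm_num) (by norm_num) (by norm_num) (by norm_num)
  have hy2 : sy κ t ≤ 0.516 := syR_le h 1.26 1.39 1.3981 0.516 1.67531 0.6165 0.62191 0.68609 hk1 hk2 (by linarith) (by norm_num) (by norm_num)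
    (expn_ge (by norm_num) (by norm_num)) (by norm_num) (by norm_num) (Or.inr ((mul_le_mul_of_nonneg_left (expn_le (E := 1.67532) (by norm_num) (by norm_num) (by norm_num)) (by norm_num)).trans (by norm_num))) (by norm_num) (by norm_num) (by norm_num)
  exact ⟨by linarith, by linarith⟩

theorem b7_10_W2a {β r h κ T t s u Y : ℝ} (B : Bx 1.26 1.39 0.487 0.474 17.4758 0.0741 5.441 β r h κ T) (hs : t + κ = s * h)
    (h1 : 0.43 ≤ u) (h2 : u ≤ 0.475) (h3 : u ≤ s) (h4 : s ≤ u + 0.0826)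
    (hY : eN r κ * (0.9699 * Real.exp (-(T * (1 / 2 * u ^ 2)))) ≤ Y) :
    ‖Xf β r h t 2‖ ≤ 0.01925 * Y := by
  obtain ⟨t', ht'⟩ : ∃ t', t' = t + 1 * h := ⟨_, rfl⟩
  have hτ : t' + κ = (s + 1) * h := by rw [ht']; linear_combination hs
  have a1 : 1.2835 ≤ t' + κ := by rw [hτ]; exact mlo7 B.P (x1 := 1.43) (by linarith) (by norm_num) (by norm_num)
  have a2 : t' + κ ≤ 1.3981 := by rw [hτ]; exact mhi7 B.P (x2 := 1.5576) (by linarith) (by norm_num) (by norm_num)
  have hk := B.hk1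
  have hk' := B.P.hκ1
  have hD : DomR κ t' := dom7 B.P.κ0 (by linarith) (by linarith)
  have hy := b7_10_W2a_y hD B.hk1 B.hk2 a1 a2
  have hJ : ‖HH β (sg κ t') - 1‖ ≤ 0.06 := JB7_k2a hD B.P.hβ (by linarith) B.P.hκ1 (by linarith) (by linarith) B.P.βκ B.P.βR
  have hd := Dlo7 hD (1.26 ^ 2) (1.39 ^ 2) 0.9192 0.471 0.516 0.471 0.38984 hy.1 hy.2 (pow_le_pow_left₀ (by norm_num) B.hk1 2) (pow_le_pow_left₀ B.P.κ0.le B.hk2 2)
      (by rw [show (-2 * 0.471 : ℝ) = -0.942 by norm_num]; exact expm_ge (by norm_num) (by norm_num) (by norm_num) (by norm_num)) (by norm_num) (by norm_num) (by norm_num) (by norm_num) (by norm_num)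
  have hc : sE κ t' ≤ 1 - 0.4102 * (t' + κ) ^ 2 / (1 + κ ^ 2) := VR7 0.72 0.4102 1.2835 1.3981 _ _ _ _ _ B hD a1 a2 (by norm_num) (by norm_num) (by norm_num) (by norm_num) rfl rfl (by norm_num) rfl rfl rfl (by norm_num) (by norm_num)
  exact up7 1 0.06 0.4102 0.9192 1.0826 0.9699 0.7463 0.01724 0.01925 B (by norm_num) ht' hs hD (by norm_num) hJ hc hd (by norm_num) (by norm_num) (by norm_num) hY (by norm_num)
    (ch1 (a := 1) (by norm_num) (sqR h1 h3 (by norm_num)) (by norm_num) h1 h2 (by norm_num) (by norm_num)) (by norm_num)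
    (expn 4 0.0606 (by norm_num) (by norm_num) (by norm_num) (by norm_num)) (by norm_num) (by norm_num)

private theorem b7_10_W2b_y {κ t : ℝ} (h : DomR κ t) (hk1 : 1.26 ≤ κ) (hk2 : κ ≤ 1.39) (ht1 : 1.3239 ≤ t + κ) (ht2 : t + κ ≤ 1.5014) :
    0.48 ≤ sy κ t ∧ sy κ t ≤ 0.542 := by
  have hy1 : 0.48 ≤ sy κ t := syR_ge h 1.26 1.39 1.3239 0.48 1.61607 1.61608 0.55806 0.61565 hk1 hk2 (by linarith) (by norm_num) (by norm_num)
    (expn_ge (by norm_num) (by norm_num)) (expn_le (by norm_num) (by norm_num) (by norm_num)) (by norm_num)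
    (by norm_num) (by norm_num) (by norm_num) (by norm_num) (by norm_num) (by norm_num)
  have hy2 : sy κ t ≤ 0.542 := syR_le h 1.26 1.39 1.5014 0.542 1.71943 0.6531 0.67045 0.73964 hk1 hk2 (by linarith) (by norm_num) (by norm_num)
    (expn_ge (by norm_num) (by norm_num)) (by norm_num) (by norm_num) (Or.inr ((mul_le_mul_of_nonneg_left (expn_le (E := 1.71945) (by norm_num) (by norm_num) (by norm_num)) (by norm_num)).trans (by norm_num))) (by norm_num) (by norm_num) (by norm_num)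
  exact ⟨by linarith, by linarith⟩

theorem b7_10_W2b {β r h κ T t s u Y : ℝ} (B : Bx 1.26 1.39 0.487 0.474 17.4758 0.0741 5.441 β r h κ T) (hs : t + κ = s * h)
    (h1 : 0.475 ≤ u) (h2 : u ≤ 0.59) (h3 : u ≤ s) (h4 : s ≤ u + 0.0826)
    (hY : eN r κ * (0.9699 * Real.exp (-(T * (1 / 2 * u ^ 2)))) ≤ Y) :
    ‖Xf β r h t 2‖ ≤ 0.01913 * Y := by
  obtain ⟨t', ht'⟩ : ∃ t', t' = t + 1 * h := ⟨_, rfl⟩
  have hτ : t' + κ = (s + 1) * h := by rw [ht']; linear_combination hs
  have a1 : 1.3239 ≤ t' + κ := by rw [hτ]; exact mlo7 B.P (x1 := 1.475) (by linarith) (by norm_num) (by norm_num)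
  have a2 : t' + κ ≤ 1.5014 := by rw [hτ]; exact mhi7 B.P (x2 := 1.6726) (by linarith) (by norm_num) (by norm_num)
  have hk := B.hk1
  have hk' := B.P.hκ1
  have hD : DomR κ t' := dom7 B.P.κ0 (by linarith) (by linarith)
  have hy := b7_10_W2b_y hD B.hk1 B.hk2 a1 a2
  have hJ : ‖HH β (sg κ t') - 1‖ ≤ 0.15 := by
    rcases le_total (t' + κ) 1.39 with hc | hc
    · exact (JB7_k2a hD B.P.hβ (by linarith) B.P.hκ1 (by linarith) (by linarith) B.P.βκ B.P.βR).trans (by norm_num)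
    · exact JB7_k2b hD B.P.hβ (by linarith) B.P.hκ1 (by linarith) (by linarith) B.P.βκ B.P.βR
  have hd := Dlo7 hD (1.26 ^ 2) (1.39 ^ 2) 0.9207 0.48 0.542 0.48 0.38289 hy.1 hy.2 (pow_le_pow_left₀ (by norm_num) B.hk1 2) (pow_le_pow_left₀ B.P.κ0.le B.hk2 2)
      (by rw [show (-2 * 0.48 : ℝ) = -0.96 by norm_num]; exact expm_ge (by norm_num) (by norm_num) (by norm_num) (by norm_num)) (by norm_num) (by norm_num) (by norm_num) (by norm_num) (by norm_num)
  have hc : sE κ t' ≤ 1 - 0.4023 * (t' + κ) ^ 2 / (1 + κ ^ 2) := VR7 0.7 0.4023 1.3239 1.5014 _ _ _ _ _ B hD a1 a2 (by norm_num) (by norm_num) (by norm_num) (by norm_num) rfl rfl (by norm_num) rfl rfl rfl (by norm_num) (by norm_num)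
  exact up7 1 0.15 0.4023 0.9207 1.1741 0.9699 0.7624 0.0158 0.01913 B (by norm_num) ht' hs hD (by norm_num) hJ hc hd (by norm_num) (by norm_num) (by norm_num) hY (by norm_num)
    (ch1 (a := 1) (by norm_num) (sqR h1 h3 (by norm_num)) (by norm_num) h1 h2 (by norm_num) (by norm_num)) (by norm_num)
    (expn 4 0.1482 (by norm_num) (by norm_num) (by norm_num) (by norm_num)) (by norm_num) (by norm_num)

theorem b7_10_W3R {β r h κ T t s u Y : ℝ} (B : Bx 1.26 1.39 0.487 0.474 17.4758 0.0741 5.441 β r h κ T) (hs : t + κ = s * h)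
    (h1 : 0.43 ≤ u) (h2 : u ≤ 0.59) (h3 : u ≤ s) (h4 : s ≤ u + 0.0826) (htp : t + 2 * h ≤ Real.pi / 2)
    (hY : eN r κ * (0.9699 * Real.exp (-(T * (1 / 2 * u ^ 2)))) ≤ Y) :
    ‖Xf β r h t 3‖ ≤ 0.00019988 * Y := by
  refine leE (cR7 2 0.44 0.3224 2.1811 2.399 _ _ _ _ _ 0.3033 2.1596 0.3555 0.3181 0.824 0.9699 1.8112 0.00005311 0.0001183 0.1741 0.7411 0.9457 4.1805 0.00001755 0.00008158 B (by norm_num) hs htp
    (mlo7 B.P (x1 := 2.43) (by linarith) (by norm_num) (by norm_num)) (mhi7 B.P (x2 := 2.6726) (by linarith) (by norm_num) (by norm_num)) hY g1_nn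
    (g1_le (by linarith) h2 (by norm_num)) (ch1 (a := 2) (by norm_num) (sqR h1 h3 (by norm_num)) (by norm_num) h1 h2 (by norm_num) (by norm_num))
    (by norm_num) (by norm_num) (by norm_num) (by norm_num) rfl rfl (by norm_num) rfl rfl rfl (by norm_num) (by norm_num) (by norm_num) (by norm_num) (by norm_num) (by norm_num) (by norm_num) (by norm_num) (by norm_num) (by norm_num) (by norm_num) (by norm_num) (by norm_num) (by norm_num) (by norm_num) (by norm_num) (by norm_num) (by norm_num) (by norm_num)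
    (expn 9 0.8547 (by norm_num) (by norm_num) (by norm_num) (by norm_num)) (by norm_num) (by norm_num) (by norm_num) (by norm_num) (by norm_num) (by norm_num) (by norm_num) (by norm_num) (expn 10 0.9678 (by norm_num) (by norm_num) (by norm_num) (by norm_num)) (by norm_num) (by norm_num)) (by norm_num) hY (by norm_num)

theorem b7_10_W3 {β r h κ T t s u Y : ℝ} (B : Bx 1.26 1.39 0.487 0.474 17.4758 0.0741 5.441 β r h κ T) (hs : t + κ = s * h)
    (h1 : 0.43 ≤ u) (h2 : u ≤ 0.59) (h3 : u ≤ s) (h4 : s ≤ u + 0.0826)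
    (hY : eN r κ * (0.9699 * Real.exp (-(T * (1 / 2 * u ^ 2)))) ≤ Y) :
    ‖Xf β r h t 3‖ ≤ 0.00019988 * Y := by
  have hp : t + 2 * h ≤ Real.pi / 2 := by
    have e : t + 2 * h = (s + 2) * h - κ := by linear_combination hs
    have := mhi7 B.P (x := s + 2) (x2 := 2.6726) (by linarith) (by norm_num) (le_refl _)
    have := B.hk1
    have := Real.pi_gt_d6
    rw [e]
    norm_num at *
    linarith
  exact leE (b7_10_W3R B hs h1 h2 h3 h4 hp hY) (by norm_num) hY (by norm_num)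

theorem b7_10_Wm1 {β r h κ T t s u Y : ℝ} (B : Bx 1.26 1.39 0.487 0.474 17.4758 0.0741 5.441 β r h κ T) (hs : t + κ = s * h)
    (h1 : 0.43 ≤ u) (h2 : u ≤ 0.59) (h3 : u ≤ s) (h4 : s ≤ u + 0)
    (hY : eN r κ * (0.8662 * Real.exp (-(T * (0.5279 * (1 - u) ^ 2)))) ≤ Y) :
    ‖Xf β r h t (-1)‖ ≤ 0.0110502874 * Y := by
  refine leE (cL7 (-2) 0.94 0.487 1.2656 1.4093 _ _ _ _ _ 3.9715 1.1353 0.3555 0 0.6928 0.8662 0.8794 0.008428 0.01105 0.1716 0.6619 0.9465 4.1805 0.00000006568 0.0000002874 B (by norm_num) hs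
    (mloN7 B.P (x1 := 1.41) (by linarith) (by norm_num) (by norm_num)) (mhiN7 B.P (x2 := 1.57) (by linarith) (by norm_num) (by norm_num)) hY (g0_nn (by norm_num))
    (g0_le (by norm_num) h1 h2 (by norm_num) (by norm_num)) (ch0 (a := (-2)) (by norm_num) (sqL h2 h4 (by norm_num) (by norm_num)) (by norm_num) h1 h2 (by norm_num) (by norm_num))
    (by norm_num) (by norm_num) (by norm_num) (by norm_num) rfl rfl (by norm_num) rfl rfl rfl (by norm_num) (by norm_num) (by norm_num) (by norm_num) (by norm_num) (by norm_num) (by norm_num) (by norm_num) (by norm_num) (by norm_num) (by norm_num) (by norm_num) (by norm_num) (by norm_num) (by norm_num) (by norm_num) (by norm_num) (by norm_num)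
    (expn 4 0.7848 (by norm_num) (by norm_num) (by norm_num) (by norm_num)) (by norm_num) (by norm_num) (by norm_num) (by norm_num) (by norm_num) (by norm_num) (by norm_num) (by norm_num) (expn 16 0.5408 (by norm_num) (by norm_num) (by norm_num) (by norm_num)) (by norm_num) (by norm_num)) (by norm_num) hY (by norm_num)

theorem b7_10_Wm1p {β r h κ T t s u Y : ℝ} (B : Bx 1.26 1.39 0.487 0.474 17.4758 0.0741 5.441 β r h κ T) (hs : t + κ = s * h)
    (h1 : 0.43 ≤ u) (h2 : u ≤ 0.59) (h3 : u ≤ s) (h4 : s ≤ u + 0.0826)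
    (hY : eN r κ * (0.8662 * Real.exp (-(T * (0.5279 * (1 - u) ^ 2)))) ≤ Y) :
    ‖Xf β r h t (-1)‖ ≤ 0.0208002874 * Y := by
  refine leE (cL7 (-2) 0.94 0.4841 1.1914 1.4093 _ _ _ _ _ 3.7516 1.1516 0.3555 0 0.6928 0.8662 0.7642 0.01564 0.0208 0.1716 0.6619 0.9465 4.1805 0.00000006568 0.0000002874 B (by norm_num) hs
    (mloN7 B.P (x1 := 1.3274) (by linarith) (by norm_num) (by norm_num)) (mhiN7 B.P (x2 := 1.57) (by linarith) (by norm_num) (by norm_num)) hY (g0_nn (by norm_num))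
    (g0_le (by norm_num) h1 h2 (by norm_num) (by norm_num)) (ch0 (a := (-1.9174)) (by norm_num) (sqL h2 h4 (by norm_num) (by norm_num)) (by norm_num) h1 h2 (by norm_num) (by norm_num))
    (by norm_num) (by norm_num) (by norm_num) (by norm_num) rfl rfl (by norm_num) rfl rfl rfl (by norm_num) (by norm_num) (by norm_num) (by norm_num) (by norm_num) (by norm_num) (by norm_num) (by norm_num) (by norm_num) (by norm_num) (by norm_num) (by norm_num) (by norm_num) (by norm_num) (by norm_num) (by norm_num) (by norm_num) (by norm_num)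
    (expn 4 0.158 (by norm_num) (by norm_num) (by norm_num) (by norm_num)) (by norm_num) (by norm_num) (by norm_num) (by norm_num) (by norm_num) (by norm_num) (by norm_num) (by norm_num) (expn 16 0.5408 (by norm_num) (by norm_num) (by norm_num) (by norm_num)) (by norm_num) (by norm_num)) (by norm_num) hY (by norm_num)

theorem b7_10_Wm2 {β r h κ T t s u Y : ℝ} (B : Bx 1.26 1.39 0.487 0.474 17.4758 0.0741 5.441 β r h κ T) (hs : t + κ = s * h)
    (h1 : 0.43 ≤ u) (h2 : u ≤ 0.59) (h3 : u ≤ s) (h4 : s ≤ u + 0.0826)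
    (hY : eN r κ * (0.8662 * Real.exp (-(T * (0.5279 * (1 - u) ^ 2)))) ≤ Y) :
    ‖Xf β r h t (-2)‖ ≤ 0.0000029225 * Y := by
  refine leE (cL7 (-3) 0.84 0.4593 2.089 2.3069 _ _ _ _ _ 5.5346 1.0449 0.3555 0 0.8111 0.8662 2.3991 0.000002143 0.000002586 0.1716 0.6619 0.9465 4.1805 0.00000006568 0.0000003365 B (by norm_num) hs
    (mloN7 B.P (x1 := 2.3274) (by linarith) (by norm_num) (by norm_num)) (mhiN7 B.P (x2 := 2.57) (by linarith) (by norm_num) (by norm_num)) hY (g0_nn (by norm_num))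
    (g0_le (by norm_num) h1 h2 (by norm_num) (by norm_num)) (ch0 (a := (-2.9174)) (by norm_num) (sqL h2 h4 (by norm_num) (by norm_num)) (by norm_num) h1 h2 (by norm_num) (by norm_num))
    (by norm_num) (by norm_num) (by norm_num) (by norm_num) rfl rfl (by norm_num) rfl rfl rfl (by norm_num) (by norm_num) (by norm_num) (by norm_num) (by norm_num) (by norm_num) (by norm_num) (by norm_num) (by norm_num) (by norm_num) (by norm_num) (by norm_num) (by norm_num) (by norm_num) (by norm_num) (by norm_num) (by norm_num) (by norm_num)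
    (expn 13 0.0535 (by norm_num) (by norm_num) (by norm_num) (by norm_num)) (by norm_num) (by norm_num) (by norm_num) (by norm_num) (by norm_num) (by norm_num) (by norm_num) (by norm_num) (expn 16 0.5408 (by norm_num) (by norm_num) (by norm_num) (by norm_num)) (by norm_num) (by norm_num)) (by norm_num) hY (by norm_num)

theorem b7_10_Wm3 {β r h κ T t s u Y : ℝ} (B : Bx 1.26 1.39 0.487 0.474 17.4758 0.0741 5.441 β r h κ T) (hs : t + κ = s * h)
    (h1 : 0.43 ≤ u) (h2 : u ≤ 0.59) (h3 : u ≤ s) (h4 : s ≤ u + 0.0826)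
    (hY : eN r κ * (0.8662 * Real.exp (-(T * (0.5279 * (1 - u) ^ 2)))) ≤ Y) :
    ‖Xf β r h t (-3)‖ ≤ 0.0000006023 * Y := by
  refine cU7 1 (-4) 1.6887 3.2966 0.02 0.3555 0.02 1.0258 0.8662 0.1716 0.6619 0.9465 4.1805 0.00000009295 0.0000006023 B (by norm_num) hs
    (full7 B.P B.hk2 (x1 := 3.43) (by push_cast; linarith) (by norm_num) (by norm_num)) (mhi7 B.P (x2 := 3.6726) (by push_cast; linarith) (by norm_num) (by norm_num)) hY (g0_nn (by norm_num)) (g0_le (by norm_num) h1 h2 (by norm_num) (by norm_num))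
    (by norm_num) (by norm_num) (by norm_num) (by norm_num) (by norm_num) (by norm_num) (by norm_num) (by norm_num) (by norm_num) (by norm_num) (by norm_num) (by norm_num) (by norm_num) (by norm_num) (by norm_num) (by norm_num) (by norm_num) (by norm_num) (by norm_num)
    (expn 16 0.1913 (by norm_num) (by norm_num) (by norm_num) (by norm_num)) (by norm_num) (by norm_num)

private theorem b7_10_Ao_y {κ t : ℝ} (h : DomR κ t) (hk1 : 1.26 ≤ κ) (hk2 : κ ≤ 1.39) (ht1 : (-0.8528) ≤ t + κ) (ht2 : t + κ ≤ (-0.5744)) :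
    (-0.431) ≤ sy κ t ∧ sy κ t ≤ (-0.277) := by
  have hy1 : -0.431 ≤ sy κ t := syL_ge h 1.26 1.39 0.8528 0.431 0.64985 0.64986 0.2032 0.2015 0.2223 hk1 hk2 (by linarith) (by norm_num) (by norm_num) (by norm_num)
    (expm_ge (by norm_num) (by norm_num) (by norm_num) (by norm_num)) (expm_le (by norm_num) (by norm_num) (by norm_num)) (by norm_num)
    (by norm_num) (by norm_num) (by norm_num) (by norm_num) (by norm_num) (by norm_num)
  have hy2 : sy κ t ≤ -0.277 := syL_le h 1.26 1.39 0.5744 0.277 0.75805 0.75806 0.15106 0.16666 hk1 hk2 (by linarith) (by norm_num) (by norm_num) (by norm_num)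
    (expm_ge (by norm_num) (by norm_num) (by norm_num) (by norm_num)) (expm_le (by norm_num) (by norm_num) (by norm_num)) (by norm_num)
    (by norm_num) (by norm_num) (by norm_num) (by norm_num) (by norm_num) (by norm_num)
  exact ⟨by linarith, by linarith⟩

theorem b7_10_Ao {β r h κ T t s u Y : ℝ} (B : Bx 1.26 1.39 0.487 0.474 17.4758 0.0741 5.441 β r h κ T) (hs : t + κ = s * h)
    (h1 : 0.05 ≤ u) (h2 : u ≤ 0.36) (h3 : u ≤ s) (h4 : s ≤ u + 0)
    (hY : eN r κ * (0.9699 * Real.exp (-(T * (1 / 2 * u ^ 2)))) ≤ Y) :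
    ‖Xf β r h t 0‖ ≤ 0.5735 * Y := by
  obtain ⟨t', ht'⟩ : ∃ t', t' = t + (-1) * h := ⟨_, rfl⟩
  have hτ : t' + κ = (s + (-1)) * h := by rw [ht']; linear_combination hs
  have a1 : (-0.8528) ≤ t' + κ := by rw [hτ]; have := mhiN7 B.P (x := s + (-1)) (x2 := 0.95) (τ2 := 0.8528) (by linarith) (by norm_num) (by norm_num); linarith
  have a2 : t' + κ ≤ (-0.5744) := by rw [hτ]; have := mloN7 B.P (x := s + (-1)) (x1 := 0.64) (τ1 := 0.5744) (by linarith) (by norm_num) (by norm_num); linarith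
  have hk := B.hk1
  have hk' := B.P.hκ1
  have hD : DomR κ t' := dom7 B.P.κ0 (by linarith) (by linarith)
  have hy := b7_10_Ao_y hD B.hk1 B.hk2 a1 a2
  have hJ : ‖HH β (sg κ t') - 1‖ ≤ 0.15 := by
    rcases le_total (t' + κ) (-0.61) with hc | hc
    · exact JB7_k0b hD B.P.hβ (by linarith) B.P.hκ1 (by linarith) (by linarith) B.P.βκ B.P.βR
    · exact (JB7_k0a hD B.P.hβ (by linarith) B.P.hκ1 (by linarith) (by linarith) B.P.βκ B.P.βR).trans (by norm_num)
  have hd := Dlo7 hD (1.26 ^ 2) (1.39 ^ 2) 1.24 (-0.431) (-0.277) (-0.277) 1.74019 hy.1 hy.2 (pow_le_pow_left₀ (by norm_num) B.hk1 2) (pow_le_pow_left₀ B.P.κ0.le B.hk2 2)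
      (by rw [show (-2 * (-0.277) : ℝ) = 0.554 by norm_num]; exact expn_ge (by norm_num) (by norm_num)) (by norm_num) (by norm_num) (by norm_num) (by norm_num) (by norm_num)
  have hc : sE κ t' ≤ 1 - 0.4625 * (t' + κ) ^ 2 / (1 + κ ^ 2) := VLA7 hD B.P.hκ1 (by linarith) (by linarith)
  exact up7 (-1) 0.15 0.4625 1.24 1.0898 0.9699 0.1246 0.5104 0.5735 B (by norm_num) ht' hs hD (by norm_num) hJ hc hd (by norm_num) (by norm_num) (by norm_num) hY (by norm_num)
    (ch1 (a := (-1)) (by norm_num) (sqL h2 h4 (by norm_num) (by norm_num)) (by norm_num) h1 h2 (by norm_num) (by norm_num)) (by norm_num)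
    (expn 0 0.6779 (by norm_num) (by norm_num) (by norm_num) (by norm_num)) (by norm_num) (by norm_num)

private theorem b7_10_A2_y {κ t : ℝ} (h : DomR κ t) (hk1 : 1.26 ≤ κ) (hk2 : κ ≤ 1.39) (ht1 : 0.9424 ≤ t + κ) (ht2 : t + κ ≤ 1.2208) :
    0.378 ≤ sy κ t ∧ sy κ t ≤ 0.469 := by
  have hy1 : 0.378 ≤ sy κ t := syR_ge h 1.26 1.39 0.9424 0.378 1.45936 1.45937 0.39686 0.43782 hk1 hk2 (by linarith) (by norm_num) (by norm_num)
    (expn_ge (by norm_num) (by norm_num)) (expn_le (by norm_num) (by norm_num) (by norm_num)) (by norm_num)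
    (by norm_num) (by norm_num) (by norm_num) (by norm_num) (by norm_num) (by norm_num)
  have hy2 : sy κ t ≤ 0.469 := syR_le h 1.26 1.39 1.2208 0.469 1.59839 0.5253 0.53931 0.59497 hk1 hk2 (by linarith) (by norm_num) (by norm_num)
    (expn_ge (by norm_num) (by norm_num)) (by norm_num) (by norm_num) (Or.inr ((mul_le_mul_of_nonneg_left (expn_le (E := 1.5984) (by norm_num) (by norm_num) (by norm_num)) (by norm_num)).trans (by norm_num))) (by norm_num) (by norm_num) (by norm_num)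
  exact ⟨by linarith, by linarith⟩

theorem b7_10_A2 {β r h κ T t s u Y : ℝ} (B : Bx 1.26 1.39 0.487 0.474 17.4758 0.0741 5.441 β r h κ T) (hs : t + κ = s * h)
    (h1 : 0.05 ≤ u) (h2 : u ≤ 0.36) (h3 : u ≤ s) (h4 : s ≤ u + 0)
    (hY : eN r κ * (0.9699 * Real.exp (-(T * (1 / 2 * u ^ 2)))) ≤ Y) :
    ‖Xf β r h t 2‖ ≤ 0.09123 * Y := by
  obtain ⟨t', ht'⟩ : ∃ t', t' = t + 1 * h := ⟨_, rfl⟩
  have hτ : t' + κ = (s + 1) * h := by rw [ht']; linear_combination hs
  have a1 : 0.9424 ≤ t' + κ := by rw [hτ]; exact mlo7 B.P (x1 := 1.05) (by linarith) (by norm_num) (by norm_num)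
  have a2 : t' + κ ≤ 1.2208 := by rw [hτ]; exact mhi7 B.P (x2 := 1.36) (by linarith) (by norm_num) (by norm_num)
  have hk := B.hk1
  have hk' := B.P.hκ1
  have hD : DomR κ t' := dom7 B.P.κ0 (by linarith) (by linarith)
  have hy := b7_10_A2_y hD B.hk1 B.hk2 a1 a2
  have hJ : ‖HH β (sg κ t') - 1‖ ≤ 0.06 := JB7_k2a hD B.P.hβ (by linarith) B.P.hκ1 (by linarith) (by linarith) B.P.βκ B.P.βR
  have hd := Dlo7 hD (1.26 ^ 2) (1.39 ^ 2) 0.9082 0.378 0.469 0.378 0.46954 hy.1 hy.2 (pow_le_pow_left₀ (by norm_num) B.hk1 2) (pow_le_pow_left₀ B.P.κ0.le B.hk2 2)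
      (by rw [show (-2 * 0.378 : ℝ) = -0.756 by norm_num]; exact expm_ge (by norm_num) (by norm_num) (by norm_num) (by norm_num)) (by norm_num) (by norm_num) (by norm_num) (by norm_num) (by norm_num)
  have hc : sE κ t' ≤ 1 - 0.4195 * (t' + κ) ^ 2 / (1 + κ ^ 2) := VR7 0.75 0.4195 0.9424 1.2208 _ _ _ _ _ B hD a1 a2 (by norm_num) (by norm_num) (by norm_num) (by norm_num) rfl rfl (by norm_num) rfl rfl rfl (by norm_num) (by norm_num)
  exact up7 1 0.06 0.4195 0.9082 1.0859 0.9699 0.4612 0.08148 0.09123 B (by norm_num) ht' hs hD (by norm_num) hJ hc hd (by norm_num) (by norm_num) (by norm_num) hY (by norm_num)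
    (ch1 (a := 1) (by norm_num) (sqR h1 h3 (by norm_num)) (by norm_num) h1 h2 (by norm_num) (by norm_num)) (by norm_num)
    (expn 2 0.5093 (by norm_num) (by norm_num) (by norm_num) (by norm_num)) (by norm_num) (by norm_num)

theorem b7_10_A3R {β r h κ T t s u Y : ℝ} (B : Bx 1.26 1.39 0.487 0.474 17.4758 0.0741 5.441 β r h κ T) (hs : t + κ = s * h)
    (h1 : 0.05 ≤ u) (h2 : u ≤ 0.36) (h3 : u ≤ s) (h4 : s ≤ u + 0) (htp : t + 2 * h ≤ Real.pi / 2)
    (hY : eN r κ * (0.9699 * Real.exp (-(T * (1 / 2 * u ^ 2)))) ≤ Y) :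
    ‖Xf β r h t 3‖ ≤ 0.0012626 * Y := by
  refine leE (cR7 2 0.48 0.3414 1.84 2.1184 _ _ _ _ _ 0.3441 2.0926 0.3555 0.4405 0.8106 0.9699 1.4334 0.0004139 0.0008931 0.0648 0.7411 0.9798 4.1805 0.0000808 0.0003695 B (by norm_num) hs htp
    (mlo7 B.P (x1 := 2.05) (by linarith) (by norm_num) (by norm_num)) (mhi7 B.P (x2 := 2.36) (by linarith) (by norm_num) (by norm_num)) hY g1_nn
    (g1_le (by linarith) h2 (by norm_num)) (ch1 (a := 2) (by norm_num) (sqR h1 h3 (by norm_num)) (by norm_num) h1 h2 (by norm_num) (by norm_num))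
    (by norm_num) (by norm_num) (by norm_num) (by norm_num) rfl rfl (by norm_num) rfl rfl rfl (by norm_num) (by norm_num) (by norm_num) (by norm_num) (by norm_num) (by norm_num) (by norm_num) (by norm_num) (by norm_num) (by norm_num) (by norm_num) (by norm_num) (by norm_num) (by norm_num) (by norm_num) (by norm_num) (by norm_num) (by norm_num) (by norm_num)
    (expn 7 0.7991 (by norm_num) (by norm_num) (by norm_num) (by norm_num)) (by norm_num) (by norm_num) (by norm_num) (by norm_num) (by norm_num) (by norm_num) (by norm_num) (by norm_num) (expn 9 0.4246 (by norm_num) (by norm_num) (by norm_num) (by norm_num)) (by norm_num) (by norm_num)) (by norm_num) hY (by norm_num)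

theorem b7_10_A3 {β r h κ T t s u Y : ℝ} (B : Bx 1.26 1.39 0.487 0.474 17.4758 0.0741 5.441 β r h κ T) (hs : t + κ = s * h)
    (h1 : 0.05 ≤ u) (h2 : u ≤ 0.36) (h3 : u ≤ s) (h4 : s ≤ u + 0)
    (hY : eN r κ * (0.9699 * Real.exp (-(T * (1 / 2 * u ^ 2)))) ≤ Y) :
    ‖Xf β r h t 3‖ ≤ 0.0012626 * Y := by
  have hp : t + 2 * h ≤ Real.pi / 2 := by
    have e : t + 2 * h = (s + 2) * h - κ := by linear_combination hs
    have := mhi7 B.P (x := s + 2) (x2 := 2.36) (by linarith) (by norm_num) (le_refl _)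
    have := B.hk1
    have := Real.pi_gt_d6
    rw [e]
    norm_num at *
    linarith
  exact leE (b7_10_A3R B hs h1 h2 h3 h4 hp hY) (by norm_num) hY (by norm_num)

theorem b7_10_Am1 {β r h κ T t s u Y : ℝ} (B : Bx 1.26 1.39 0.487 0.474 17.4758 0.0741 5.441 β r h κ T) (hs : t + κ = s * h)
    (h1 : 0.05 ≤ u) (h2 : u ≤ 0.36) (h3 : u ≤ s) (h4 : s ≤ u + 0)
    (hY : eN r κ * (0.9699 * Real.exp (-(T * (1 / 2 * u ^ 2)))) ≤ Y) :
    ‖Xf β r h t (-1)‖ ≤ 0.0016021571 * Y := by
  refine leE (cL7 (-2) 0.9 0.4738 1.472 1.7504 _ _ _ _ _ 4.2449 1.1166 0.3555 0 0.7392 0.9699 1.2095 0.001391 0.001602 0.0648 0.7411 0.9798 4.1805 0.00000003766 0.0000001571 B (by norm_num) hs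
    (mloN7 B.P (x1 := 1.64) (by linarith) (by norm_num) (by norm_num)) (mhiN7 B.P (x2 := 1.95) (by linarith) (by norm_num) (by norm_num)) hY g1_nn
    (g1_le (by linarith) h2 (by norm_num)) (ch1 (a := (-2)) (by norm_num) (sqL h2 h4 (by norm_num) (by norm_num)) (by norm_num) h1 h2 (by norm_num) (by norm_num))
    (by norm_num) (by norm_num) (by norm_num) (by norm_num) rfl rfl (by norm_num) rfl rfl rfl (by norm_num) (by norm_num) (by norm_num) (by norm_num) (by norm_num) (by norm_num) (by norm_num) (by norm_num) (by norm_num) (by norm_num) (by norm_num) (by norm_num) (by norm_num) (by norm_num) (by norm_num) (by norm_num) (by norm_num) (by norm_num)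
    (expn 6 0.5808 (by norm_num) (by norm_num) (by norm_num) (by norm_num)) (by norm_num) (by norm_num) (by norm_num) (by norm_num) (by norm_num) (by norm_num) (by norm_num) (by norm_num) (expn 16 1.1227 (by norm_num) (by norm_num) (by norm_num) (by norm_num)) (by norm_num) (by norm_num)) (by norm_num) hY (by norm_num)

theorem b7_10_Am2 {β r h κ T t s u Y : ℝ} (B : Bx 1.26 1.39 0.487 0.474 17.4758 0.0741 5.441 β r h κ T) (hs : t + κ = s * h)
    (h1 : 0.05 ≤ u) (h2 : u ≤ 0.36) (h3 : u ≤ s) (h4 : s ≤ u + 0)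
    (hY : eN r κ * (0.9699 * Real.exp (-(T * (1 / 2 * u ^ 2)))) ≤ Y) :
    ‖Xf β r h t (-2)‖ ≤ 0.00000024829 * Y := by
  refine leE (cL7 (-3) 0.76 0.4455 2.3696 2.648 _ _ _ _ _ 5.6511 1.0395 0.3555 0 0.8372 0.9699 3.0401 0.00000006567 0.00000007039 0.0648 0.7411 0.9798 4.1805 0.00000003766 0.0000001779 B (by norm_num) hs
    (mloN7 B.P (x1 := 2.64) (by linarith) (by norm_num) (by norm_num)) (mhiN7 B.P (x2 := 2.95) (by linarith) (by norm_num) (by norm_num)) hY g1_nn
    (g1_le (by linarith) h2 (by norm_num)) (ch1 (a := (-3)) (by norm_num) (sqL h2 h4 (by norm_num) (by norm_num)) (by norm_num) h1 h2 (by norm_num) (by norm_num))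
    (by norm_num) (by norm_num) (by norm_num) (by norm_num) rfl rfl (by norm_num) rfl rfl rfl (by norm_num) (by norm_num) (by norm_num) (by norm_num) (by norm_num) (by norm_num) (by norm_num) (by norm_num) (by norm_num) (by norm_num) (by norm_num) (by norm_num) (by norm_num) (by norm_num) (by norm_num) (by norm_num) (by norm_num) (by norm_num)
    (expn 16 0.5411 (by norm_num) (by norm_num) (by norm_num) (by norm_num)) (by norm_num) (by norm_num) (by norm_num) (by norm_num) (by norm_num) (by norm_num) (by norm_num) (by norm_num) (expn 16 1.1227 (by norm_num) (by norm_num) (by norm_num) (by norm_num)) (by norm_num) (by norm_num)) (by norm_num) hY (by norm_num)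

theorem b7_10_Am3 {β r h κ T t s u Y : ℝ} (B : Bx 1.26 1.39 0.487 0.474 17.4758 0.0741 5.441 β r h κ T) (hs : t + κ = s * h)
    (h1 : 0.05 ≤ u) (h2 : u ≤ 0.36) (h3 : u ≤ s) (h4 : s ≤ u + 0)
    (hY : eN r κ * (0.9699 * Real.exp (-(T * (1 / 2 * u ^ 2)))) ≤ Y) :
    ‖Xf β r h t (-3)‖ ≤ 0.00003122 * Y := by
  refine cU7 1 (-4) 1.3476 3.016 0.25 0.3555 0.25 1.8994 0.9699 0.0648 0.7411 0.9798 4.1805 0.000002913 0.00003122 B (by norm_num) hs
    (full7 B.P B.hk2 (x1 := 3.05) (by push_cast; linarith) (by norm_num) (by norm_num)) (mhi7 B.P (x2 := 3.36) (by push_cast; linarith) (by norm_num) (by norm_num)) hY g1_nn (g1_le (by linarith) h2 (by norm_num))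
    (by norm_num) (by norm_num) (by norm_num) (by norm_num) (by norm_num) (by norm_num) (by norm_num) (by norm_num) (by norm_num) (by norm_num) (by norm_num) (by norm_num) (by norm_num) (by norm_num) (by norm_num) (by norm_num) (by norm_num) (by norm_num) (by norm_num)
    (expn 12 0.7538 (by norm_num) (by norm_num) (by norm_num) (by norm_num)) (by norm_num) (by norm_num)

private theorem b7_10_Bo_y {κ t : ℝ} (h : DomR κ t) (hk1 : 1.26 ≤ κ) (hk2 : κ ≤ 1.39) (ht1 : (-0.5745) ≤ t + κ) (ht2 : t + κ ≤ (-0.5116)) :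
    (-0.292) ≤ sy κ t ∧ sy κ t ≤ (-0.247) := by
  have hy1 : -0.292 ≤ sy κ t := syL_ge h 1.26 1.39 0.5745 0.292 0.74676 0.74677 0.1595 0.15687 0.17307 hk1 hk2 (by linarith) (by norm_num) (by norm_num) (by norm_num)
    (expm_ge (by norm_num) (by norm_num) (by norm_num) (by norm_num)) (expm_le (by norm_num) (by norm_num) (by norm_num)) (by norm_num)
    (by norm_num) (by norm_num) (by norm_num) (by norm_num) (by norm_num) (by norm_num)
  have hy2 : sy κ t ≤ -0.247 := syL_le h 1.26 1.39 0.5116 0.247 0.78114 0.78115 0.1388 0.15314 hk1 hk2 (by linarith) (by norm_num) (by norm_num) (by norm_num)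
    (expm_ge (by norm_num) (by norm_num) (by norm_num) (by norm_num)) (expm_le (by norm_num) (by norm_num) (by norm_num)) (by norm_num)
    (by norm_num) (by norm_num) (by norm_num) (by norm_num) (by norm_num) (by norm_num)
  exact ⟨by linarith, by linarith⟩

theorem b7_10_Bo {β r h κ T t s u Y : ℝ} (B : Bx 1.26 1.39 0.487 0.474 17.4758 0.0741 5.441 β r h κ T) (hs : t + κ = s * h)
    (h1 : 0.36 ≤ u) (h2 : u ≤ 0.43) (h3 : u ≤ s) (h4 : s ≤ u + 0)
    (hY : eN r κ * (0.9699 * Real.exp (-(T * (1 / 2 * u ^ 2)))) ≤ Y) :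
    ‖Xf β r h t 0‖ ≤ 0.749 * Y := by
  obtain ⟨t', ht'⟩ : ∃ t', t' = t + (-1) * h := ⟨_, rfl⟩
  have hτ : t' + κ = (s + (-1)) * h := by rw [ht']; linear_combination hs
  have a1 : (-0.5745) ≤ t' + κ := by rw [hτ]; have := mhiN7 B.P (x := s + (-1)) (x2 := 0.64) (τ2 := 0.5745) (by linarith) (by norm_num) (by norm_num); linarith
  have a2 : t' + κ ≤ (-0.5116) := by rw [hτ]; have := mloN7 B.P (x := s + (-1)) (x1 := 0.57) (τ1 := 0.5116) (by linarith) (by norm_num) (by norm_num); linarith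
  have hk := B.hk1
  have hk' := B.P.hκ1
  have hD : DomR κ t' := dom7 B.P.κ0 (by linarith) (by linarith)
  have hy := b7_10_Bo_y hD B.hk1 B.hk2 a1 a2
  have hJ : ‖HH β (sg κ t') - 1‖ ≤ 0.08 := JB7_k0a hD B.P.hβ (by linarith) B.P.hκ1 (by linarith) (by linarith) B.P.βκ B.P.βR
  have hd := Dlo7 hD (1.26 ^ 2) (1.39 ^ 2) 1.201 (-0.292) (-0.247) (-0.2515) 1.65367 hy.1 hy.2 (pow_le_pow_left₀ (by norm_num) B.hk1 2) (pow_le_pow_left₀ B.P.κ0.le B.hk2 2)
      (by rw [show (-2 * (-0.2515) : ℝ) = 0.503 by norm_num]; exact expn_ge (by norm_num) (by norm_num)) (by norm_num) (by norm_num) (by norm_num) (by norm_num) (by norm_num)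
  have hc : sE κ t' ≤ 1 - 0.4835 * (t' + κ) ^ 2 / (1 + κ ^ 2) := VL_05_06 hD (by linarith) (by linarith) (by linarith)
  exact up7 (-1) 0.08 0.4835 1.201 1.0317 0.9699 0.0646 0.7041 0.749 B (by norm_num) ht' hs hD (by norm_num) hJ hc hd (by norm_num) (by norm_num) (by norm_num) hY (by norm_num)
    (ch1 (a := (-1)) (by norm_num) (sqL h2 h4 (by norm_num) (by norm_num)) (by norm_num) h1 h2 (by norm_num) (by norm_num)) (by norm_num)
    (expn 0 0.3514 (by norm_num) (by norm_num) (by norm_num) (by norm_num)) (by norm_num) (by norm_num)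

private theorem b7_10_B2_y {κ t : ℝ} (h : DomR κ t) (hk1 : 1.26 ≤ κ) (hk2 : κ ≤ 1.39) (ht1 : 1.2207 ≤ t + κ) (ht2 : t + κ ≤ 1.2836) :
    0.455 ≤ sy κ t ∧ sy κ t ≤ 0.487 := by
  have hy1 : 0.455 ≤ sy κ t := syR_ge h 1.26 1.39 1.2207 0.455 1.57617 1.57618 0.51594 0.56918 hk1 hk2 (by linarith) (by norm_num) (by norm_num)
    (expn_ge (by norm_num) (by norm_num)) (expn_le (by norm_num) (by norm_num) (by norm_num)) (by norm_num)
    (by norm_num) (by norm_num) (by norm_num) (by norm_num) (by norm_num) (by norm_num)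
  have hy2 : sy κ t ≤ 0.487 := syR_le h 1.26 1.39 1.2836 0.487 1.62742 0.5554 0.57018 0.62902 hk1 hk2 (by linarith) (by norm_num) (by norm_num)
    (expn_ge (by norm_num) (by norm_num)) (by norm_num) (by norm_num) (Or.inr ((mul_le_mul_of_nonneg_left (expn_le (E := 1.62743) (by norm_num) (by norm_num) (by norm_num)) (by norm_num)).trans (by norm_num))) (by norm_num) (by norm_num) (by norm_num)
  exact ⟨by linarith, by linarith⟩

theorem b7_10_B2 {β r h κ T t s u Y : ℝ} (B : Bx 1.26 1.39 0.487 0.474 17.4758 0.0741 5.441 β r h κ T) (hs : t + κ = s * h)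
    (h1 : 0.36 ≤ u) (h2 : u ≤ 0.43) (h3 : u ≤ s) (h4 : s ≤ u + 0)
    (hY : eN r κ * (0.9699 * Real.exp (-(T * (1 / 2 * u ^ 2)))) ≤ Y) :
    ‖Xf β r h t 2‖ ≤ 0.02376 * Y := by
  obtain ⟨t', ht'⟩ : ∃ t', t' = t + 1 * h := ⟨_, rfl⟩
  have hτ : t' + κ = (s + 1) * h := by rw [ht']; linear_combination hs
  have a1 : 1.2207 ≤ t' + κ := by rw [hτ]; exact mlo7 B.P (x1 := 1.36) (by linarith) (by norm_num) (by norm_num)
  have a2 : t' + κ ≤ 1.2836 := by rw [hτ]; exact mhi7 B.P (x2 := 1.43) (by linarith) (by norm_num) (by norm_num)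
  have hk := B.hk1
  have hk' := B.P.hκ1
  have hD : DomR κ t' := dom7 B.P.κ0 (by linarith) (by linarith)
  have hy := b7_10_B2_y hD B.hk1 B.hk2 a1 a2
  have hJ : ‖HH β (sg κ t') - 1‖ ≤ 0.06 := JB7_k2a hD B.P.hβ (by linarith) B.P.hκ1 (by linarith) (by linarith) B.P.βκ B.P.βR
  have hd := Dlo7 hD (1.26 ^ 2) (1.39 ^ 2) 0.9166 0.455 0.487 0.455 0.40252 hy.1 hy.2 (pow_le_pow_left₀ (by norm_num) B.hk1 2) (pow_le_pow_left₀ B.P.κ0.le B.hk2 2)
      (by rw [show (-2 * 0.455 : ℝ) = -0.91 by norm_num]; exact expm_ge (by norm_num) (by norm_num) (by norm_num) (by norm_num)) (by norm_num) (by norm_num) (by norm_num) (by norm_num) (by norm_num)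
  have hc : sE κ t' ≤ 1 - 0.4189 * (t' + κ) ^ 2 / (1 + κ ^ 2) := VR7 0.75 0.4189 1.2207 1.2836 _ _ _ _ _ B hD a1 a2 (by norm_num) (by norm_num) (by norm_num) (by norm_num) rfl rfl (by norm_num) rfl rfl rfl (by norm_num) (by norm_num)
  exact up7 1 0.06 0.4189 0.9166 1.0834 0.9699 0.7099 0.02127 0.02376 B (by norm_num) ht' hs hD (by norm_num) hJ hc hd (by norm_num) (by norm_num) (by norm_num) hY (by norm_num)
    (ch1 (a := 1) (by norm_num) (sqR h1 h3 (by norm_num)) (by norm_num) h1 h2 (by norm_num) (by norm_num)) (by norm_num)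
    (expn 3 0.8625 (by norm_num) (by norm_num) (by norm_num) (by norm_num)) (by norm_num) (by norm_num)

theorem b7_10_B3R {β r h κ T t s u Y : ℝ} (B : Bx 1.26 1.39 0.487 0.474 17.4758 0.0741 5.441 β r h κ T) (hs : t + κ = s * h)
    (h1 : 0.36 ≤ u) (h2 : u ≤ 0.43) (h3 : u ≤ s) (h4 : s ≤ u + 0) (htp : t + 2 * h ≤ Real.pi / 2)
    (hY : eN r κ * (0.9699 * Real.exp (-(T * (1 / 2 * u ^ 2)))) ≤ Y) :
    ‖Xf β r h t 3‖ ≤ 0.00018057 * Y := by
  refine leE (cR7 2 0.48 0.341 2.1183 2.1812 _ _ _ _ _ 0.3123 2.1439 0.3555 0.3409 0.821 0.9699 1.8344 0.00004712 0.0001042 0.0925 0.7411 0.9711 4.1805 0.00001649 0.00007637 B (by norm_num) hs htp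
    (mlo7 B.P (x1 := 2.36) (by linarith) (by norm_num) (by norm_num)) (mhi7 B.P (x2 := 2.43) (by linarith) (by norm_num) (by norm_num)) hY g1_nn
    (g1_le (by linarith) h2 (by norm_num)) (ch1 (a := 2) (by norm_num) (sqR h1 h3 (by norm_num)) (by norm_num) h1 h2 (by norm_num) (by norm_num))
    (by norm_num) (by norm_num) (by norm_num) (by norm_num) rfl rfl (by norm_num) rfl rfl rfl (by norm_num) (by norm_num) (by norm_num) (by norm_num) (by norm_num) (by norm_num) (by norm_num) (by norm_num) (by norm_num) (by norm_num) (by norm_num) (by norm_num) (by norm_num) (by norm_num) (by norm_num) (by norm_num) (by norm_num) (by norm_num) (by norm_num)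
    (expn 9 0.9809 (by norm_num) (by norm_num) (by norm_num) (by norm_num)) (by norm_num) (by norm_num) (by norm_num) (by norm_num) (by norm_num) (by norm_num) (by norm_num) (by norm_num) (expn 11 0.0132 (by norm_num) (by norm_num) (by norm_num) (by norm_num)) (by norm_num) (by norm_num)) (by norm_num) hY (by norm_num)

theorem b7_10_B3 {β r h κ T t s u Y : ℝ} (B : Bx 1.26 1.39 0.487 0.474 17.4758 0.0741 5.441 β r h κ T) (hs : t + κ = s * h)
    (h1 : 0.36 ≤ u) (h2 : u ≤ 0.43) (h3 : u ≤ s) (h4 : s ≤ u + 0)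
    (hY : eN r κ * (0.9699 * Real.exp (-(T * (1 / 2 * u ^ 2)))) ≤ Y) :
    ‖Xf β r h t 3‖ ≤ 0.00018057 * Y := by
  have hp : t + 2 * h ≤ Real.pi / 2 := by
    have e : t + 2 * h = (s + 2) * h - κ := by linear_combination hs
    have := mhi7 B.P (x := s + 2) (x2 := 2.43) (by linarith) (by norm_num) (le_refl _)
    have := B.hk1
    have := Real.pi_gt_d6
    rw [e]
    norm_num at *
    linarith
  exact leE (b7_10_B3R B hs h1 h2 h3 h4 hp hY) (by norm_num) hY (by norm_num)

theorem b7_10_Bm1 {β r h κ T t s u Y : ℝ} (B : Bx 1.26 1.39 0.487 0.474 17.4758 0.0741 5.441 β r h κ T) (hs : t + κ = s * h)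
    (h1 : 0.36 ≤ u) (h2 : u ≤ 0.43) (h3 : u ≤ s) (h4 : s ≤ u + 0)
    (hY : eN r κ * (0.9699 * Real.exp (-(T * (1 / 2 * u ^ 2)))) ≤ Y) :
    ‖Xf β r h t (-1)‖ ≤ 0.0027021722 * Y := by
  refine leE (cL7 (-2) 0.94 0.4884 1.4092 1.4721 _ _ _ _ _ 4.3788 1.108 0.3555 0 0.7035 0.9699 1.1114 0.002365 0.002702 0.0925 0.7411 0.9711 4.1805 0.00000004338 0.0000001722 B (by norm_num) hs
    (mloN7 B.P (x1 := 1.57) (by linarith) (by norm_num) (by norm_num)) (mhiN7 B.P (x2 := 1.64) (by linarith) (by norm_num) (by norm_num)) hY g1_nn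
    (g1_le (by linarith) h2 (by norm_num)) (ch1 (a := (-2)) (by norm_num) (sqL h2 h4 (by norm_num) (by norm_num)) (by norm_num) h1 h2 (by norm_num) (by norm_num))
    (by norm_num) (by norm_num) (by norm_num) (by norm_num) rfl rfl (by norm_num) rfl rfl rfl (by norm_num) (by norm_num) (by norm_num) (by norm_num) (by norm_num) (by norm_num) (by norm_num) (by norm_num) (by norm_num) (by norm_num) (by norm_num) (by norm_num) (by norm_num) (by norm_num) (by norm_num) (by norm_num) (by norm_num) (by norm_num)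
    (expn 6 0.0471 (by norm_num) (by norm_num) (by norm_num) (by norm_num)) (by norm_num) (by norm_num) (by norm_num) (by norm_num) (by norm_num) (by norm_num) (by norm_num) (by norm_num) (expn 16 0.9707 (by norm_num) (by norm_num) (by norm_num) (by norm_num)) (by norm_num) (by norm_num)) (by norm_num) hY (by norm_num)

theorem b7_10_Bm2 {β r h κ T t s u Y : ℝ} (B : Bx 1.26 1.39 0.487 0.474 17.4758 0.0741 5.441 β r h κ T) (hs : t + κ = s * h)
    (h1 : 0.36 ≤ u) (h2 : u ≤ 0.43) (h3 : u ≤ s) (h4 : s ≤ u + 0)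
    (hY : eN r κ * (0.9699 * Real.exp (-(T * (1 / 2 * u ^ 2)))) ≤ Y) :
    ‖Xf β r h t (-2)‖ ≤ 0.0000003144 * Y := by
  refine leE (cL7 (-3) 0.82 0.46 2.3068 2.3697 _ _ _ _ _ 6.0915 1.0202 0.3555 0 0.8138 0.9699 2.9458 0.0000001095 0.0000001152 0.0925 0.7411 0.9711 4.1805 0.00000004338 0.0000001992 B (by norm_num) hs
    (mloN7 B.P (x1 := 2.57) (by linarith) (by norm_num) (by norm_num)) (mhiN7 B.P (x2 := 2.64) (by linarith) (by norm_num) (by norm_num)) hY g1_nn
    (g1_le (by linarith) h2 (by norm_num)) (ch1 (a := (-3)) (by norm_num) (sqL h2 h4 (by norm_num) (by norm_num)) (by norm_num) h1 h2 (by norm_num) (by norm_num))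
    (by norm_num) (by norm_num) (by norm_num) (by norm_num) rfl rfl (by norm_num) rfl rfl rfl (by norm_num) (by norm_num) (by norm_num) (by norm_num) (by norm_num) (by norm_num) (by norm_num) (by norm_num) (by norm_num) (by norm_num) (by norm_num) (by norm_num) (by norm_num) (by norm_num) (by norm_num) (by norm_num) (by norm_num) (by norm_num)
    (expn 16 0.028 (by norm_num) (by norm_num) (by norm_num) (by norm_num)) (by norm_num) (by norm_num) (by norm_num) (by norm_num) (by norm_num) (by norm_num) (by norm_num) (by norm_num) (expn 16 0.9707 (by norm_num) (by norm_num) (by norm_num) (by norm_num)) (by norm_num) (by norm_num)) (by norm_num) hY (by norm_num)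

theorem b7_10_Bm3 {β r h κ T t s u Y : ℝ} (B : Bx 1.26 1.39 0.487 0.474 17.4758 0.0741 5.441 β r h κ T) (hs : t + κ = s * h)
    (h1 : 0.36 ≤ u) (h2 : u ≤ 0.43) (h3 : u ≤ s) (h4 : s ≤ u + 0)
    (hY : eN r κ * (0.9699 * Real.exp (-(T * (1 / 2 * u ^ 2)))) ≤ Y) :
    ‖Xf β r h t (-3)‖ ≤ 0.000000406 * Y := by
  refine cU7 1 (-4) 1.6259 3.0788 0.02 0.3555 0.02 1.1855 0.9699 0.0925 0.7411 0.9711 4.1805 0.0000000607 0.000000406 B (by norm_num) hs
    (full7 B.P B.hk2 (x1 := 3.36) (by push_cast; linarith) (by norm_num) (by norm_num)) (mhi7 B.P (x2 := 3.43) (by push_cast; linarith) (by norm_num) (by norm_num)) hY g1_nn (g1_le (by linarith) h2 (by norm_num))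
    (by norm_num) (by norm_num) (by norm_num) (by norm_num) (by norm_num) (by norm_num) (by norm_num) (by norm_num) (by norm_num) (by norm_num) (by norm_num) (by norm_num) (by norm_num) (by norm_num) (by norm_num) (by norm_num) (by norm_num) (by norm_num) (by norm_num)
    (expn 16 0.6212 (by norm_num) (by norm_num) (by norm_num) (by norm_num)) (by norm_num) (by norm_num)

private theorem b7_10_Co_y {κ t : ℝ} (h : DomR κ t) (hk1 : 1.26 ≤ κ) (hk2 : κ ≤ 1.39) (ht1 : 0.5295 ≤ t + κ) (ht2 : t + κ ≤ 0.6732) :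
    0.233 ≤ sy κ t ∧ sy κ t ≤ 0.29 := by
  have hy1 : 0.233 ≤ sy κ t := syR_ge h 1.26 1.39 0.5295 0.233 1.26238 1.26239 0.2116 0.23345 hk1 hk2 (by linarith) (by norm_num) (by norm_num)
    (expn_ge (by norm_num) (by norm_num)) (expn_le (by norm_num) (by norm_num) (by norm_num)) (by norm_num)
    (by norm_num) (by norm_num) (by norm_num) (by norm_num) (by norm_num) (by norm_num)
  have hy2 : sy κ t ≤ 0.29 := syR_le h 1.26 1.39 0.6732 0.29 1.33642 0.286 0.27882 0.3076 hk1 hk2 (by linarith) (by norm_num) (by norm_num)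
    (expn_ge (by norm_num) (by norm_num)) (by norm_num) (by norm_num) (Or.inr ((mul_le_mul_of_nonneg_left (expn_le (E := 1.33643) (by norm_num) (by norm_num) (by norm_num)) (by norm_num)).trans (by norm_num))) (by norm_num) (by norm_num) (by norm_num)
  exact ⟨by linarith, by linarith⟩

theorem b7_10_Co {β r h κ T t s u Y : ℝ} (B : Bx 1.26 1.39 0.487 0.474 17.4758 0.0741 5.441 β r h κ T) (hs : t + κ = s * h)
    (h1 : 0.59 ≤ u) (h2 : u ≤ 0.75) (h3 : u ≤ s) (h4 : s ≤ u + 0)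
    (hY : eN r κ * (0.8662 * Real.exp (-(T * (0.5279 * (1 - u) ^ 2)))) ≤ Y) :
    ‖Xf β r h t 1‖ ≤ 0.835 * Y := by
  obtain ⟨t', ht'⟩ : ∃ t', t' = t + 0 * h := ⟨_, rfl⟩
  have hτ : t' + κ = (s + 0) * h := by rw [ht']; linear_combination hs
  have a1 : 0.5295 ≤ t' + κ := by rw [hτ]; exact mlo7 B.P (x1 := 0.59) (by linarith) (by norm_num) (by norm_num)
  have a2 : t' + κ ≤ 0.6732 := by rw [hτ]; exact mhi7 B.P (x2 := 0.75) (by linarith) (by norm_num) (by norm_num)
  have hk := B.hk1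
  have hk' := B.P.hκ1
  have hD : DomR κ t' := dom7 B.P.κ0 (by linarith) (by linarith)
  have hy := b7_10_Co_y hD B.hk1 B.hk2 a1 a2
  have hJ : ‖HH β (sg κ t') - 1‖ ≤ 0.035 := by
    rcases le_total (t' + κ) 0.61 with hc | hc
    · exact (JB7_k1a hD B.P.hβ (by linarith) B.P.hκ1 (by linarith) (by linarith) B.P.βκ B.P.βR).trans (by norm_num)
    · exact JB7_k1b hD B.P.hβ (by linarith) B.P.hκ1 (by linarith) (by linarith) B.P.βκ B.P.βR
  have hd := Dlo7 hD (1.26 ^ 2) (1.39 ^ 2) 0.9078 0.233 0.29 0.29 0.55989 hy.1 hy.2 (pow_le_pow_left₀ (by norm_num) B.hk1 2) (pow_le_pow_left₀ B.P.κ0.le B.hk2 2)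
      (by rw [show (-2 * 0.29 : ℝ) = -0.58 by norm_num]; exact expm_ge (by norm_num) (by norm_num) (by norm_num) (by norm_num)) (by norm_num) (by norm_num) (by norm_num) (by norm_num) (by norm_num)
  have hc : sE κ t' ≤ 1 - 0.4575 * (t' + κ) ^ 2 / (1 + κ ^ 2) := VR7 0.86 0.4575 0.5295 0.6732 _ _ _ _ _ B hD a1 a2 (by norm_num) (by norm_num) (by norm_num) (by norm_num) rfl rfl (by norm_num) rfl rfl rfl (by norm_num) (by norm_num)
  exact up7 0 0.035 0.4575 0.9078 1.0604 0.8662 0.0705 0.682 0.835 B (by norm_num) ht' hs hD (by norm_num) hJ hc hd (by norm_num) (by norm_num) (by norm_num) hY (by norm_num)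
    (ch0 (a := 0) (by norm_num) (sqR h1 h3 (by norm_num)) (by norm_num) h1 h2 (by norm_num) (by norm_num)) (by norm_num)
    (expn 0 0.3835 (by norm_num) (by norm_num) (by norm_num) (by norm_num)) (by norm_num) (by norm_num)

theorem b7_10_C2R {β r h κ T t s u Y : ℝ} (B : Bx 1.26 1.39 0.487 0.474 17.4758 0.0741 5.441 β r h κ T) (hs : t + κ = s * h)
    (h1 : 0.59 ≤ u) (h2 : u ≤ 0.75) (h3 : u ≤ s) (h4 : s ≤ u + 0) (htp : t + 1 * h ≤ Real.pi / 2)
    (hY : eN r κ * (0.8662 * Real.exp (-(T * (0.5279 * (1 - u) ^ 2)))) ≤ Y) :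
    ‖Xf β r h t 2‖ ≤ 0.021207 * Y := by
  refine leE (cR7 1 0.58 0.3843 1.4271 1.5708 _ _ _ _ _ 0.4565 1.9498 0.3555 0.54 0.774 0.8662 0.8828 0.008279 0.01864 0.0888 0.6619 0.9723 4.1805 0.000525 0.002567 B (by norm_num) hs htp
    (mlo7 B.P (x1 := 1.59) (by linarith) (by norm_num) (by norm_num)) (mhi7 B.P (x2 := 1.75) (by linarith) (by norm_num) (by norm_num)) hY (g0_nn (by norm_num))
    (g0_le (by norm_num) h1 h2 (by norm_num) (by norm_num)) (ch0 (a := 1) (by norm_num) (sqR h1 h3 (by norm_num)) (by norm_num) h1 h2 (by norm_num) (by norm_num))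
    (by norm_num) (by norm_num) (by norm_num) (by norm_num) rfl rfl (by norm_num) rfl rfl rfl (by norm_num) (by norm_num) (by norm_num) (by norm_num) (by norm_num) (by norm_num) (by norm_num) (by norm_num) (by norm_num) (by norm_num) (by norm_num) (by norm_num) (by norm_num) (by norm_num) (by norm_num) (by norm_num) (by norm_num) (by norm_num) (by norm_num)
    (expn 4 0.8033 (by norm_num) (by norm_num) (by norm_num) (by norm_num)) (by norm_num) (by norm_num) (by norm_num) (by norm_num) (by norm_num) (by norm_num) (by norm_num) (by norm_num) (expn 7 0.5547 (by norm_num) (by norm_num) (by norm_num) (by norm_num)) (by norm_num) (by norm_num)) (by norm_num) hY (by norm_num)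

theorem b7_10_C2 {β r h κ T t s u Y : ℝ} (B : Bx 1.26 1.39 0.487 0.474 17.4758 0.0741 5.441 β r h κ T) (hs : t + κ = s * h)
    (h1 : 0.59 ≤ u) (h2 : u ≤ 0.75) (h3 : u ≤ s) (h4 : s ≤ u + 0)
    (hY : eN r κ * (0.8662 * Real.exp (-(T * (0.5279 * (1 - u) ^ 2)))) ≤ Y) :
    ‖Xf β r h t 2‖ ≤ 0.021207 * Y := by
  have hp : t + 1 * h ≤ Real.pi / 2 := by
    have e : t + 1 * h = (s + 1) * h - κ := by linear_combination hs
    have := mhi7 B.P (x := s + 1) (x2 := 1.75) (by linarith) (by norm_num) (le_refl _)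
    have := B.hk1
    have := Real.pi_gt_d6
    rw [e]
    norm_num at *
    linarith
  exact leE (b7_10_C2R B hs h1 h2 h3 h4 hp hY) (by norm_num) hY (by norm_num)

theorem b7_10_C3R {β r h κ T t s u Y : ℝ} (B : Bx 1.26 1.39 0.487 0.474 17.4758 0.0741 5.441 β r h κ T) (hs : t + κ = s * h)
    (h1 : 0.59 ≤ u) (h2 : u ≤ 0.75) (h3 : u ≤ s) (h4 : s ≤ u + 0) (htp : t + 2 * h ≤ Real.pi / 2)
    (hY : eN r κ * (0.8662 * Real.exp (-(T * (0.5279 * (1 - u) ^ 2)))) ≤ Y) :
    ‖Xf β r h t 3‖ ≤ 0.00005687 * Y := by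
  refine leE (cR7 2 0.44 0.3214 2.3247 2.4684 _ _ _ _ _ 0.2711 2.2211 0.3555 0.267 0.8346 0.8662 2.0672 0.00001305 0.00003347 0.0888 0.6619 0.9723 4.1805 0.000004439 0.0000234 B (by norm_num) hs htp
    (mlo7 B.P (x1 := 2.59) (by linarith) (by norm_num) (by norm_num)) (mhi7 B.P (x2 := 2.75) (by linarith) (by norm_num) (by norm_num)) hY (g0_nn (by norm_num))
    (g0_le (by norm_num) h1 h2 (by norm_num) (by norm_num)) (ch0 (a := 2) (by norm_num) (sqR h1 h3 (by norm_num)) (by norm_num) h1 h2 (by norm_num) (by norm_num))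
    (by norm_num) (by norm_num) (by norm_num) (by norm_num) rfl rfl (by norm_num) rfl rfl rfl (by norm_num) (by norm_num) (by norm_num) (by norm_num) (by norm_num) (by norm_num) (by norm_num) (by norm_num) (by norm_num) (by norm_num) (by norm_num) (by norm_num) (by norm_num) (by norm_num) (by norm_num) (by norm_num) (by norm_num) (by norm_num) (by norm_num)
    (expn 11 0.2476 (by norm_num) (by norm_num) (by norm_num) (by norm_num)) (by norm_num) (by norm_num) (by norm_num) (by norm_num) (by norm_num) (by norm_num) (by norm_num) (by norm_num) (expn 12 0.3256 (by norm_num) (by norm_num) (by norm_num) (by norm_num)) (by norm_num) (by norm_num)) (by norm_num) hY (by norm_num)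

theorem b7_10_C3 {β r h κ T t s u Y : ℝ} (B : Bx 1.26 1.39 0.487 0.474 17.4758 0.0741 5.441 β r h κ T) (hs : t + κ = s * h)
    (h1 : 0.59 ≤ u) (h2 : u ≤ 0.75) (h3 : u ≤ s) (h4 : s ≤ u + 0)
    (hY : eN r κ * (0.8662 * Real.exp (-(T * (0.5279 * (1 - u) ^ 2)))) ≤ Y) :
    ‖Xf β r h t 3‖ ≤ 0.00005687 * Y := by
  have hp : t + 2 * h ≤ Real.pi / 2 := by
    have e : t + 2 * h = (s + 2) * h - κ := by linear_combination hs
    have := mhi7 B.P (x := s + 2) (x2 := 2.75) (by linarith) (by norm_num) (le_refl _)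
    have := B.hk1
    have := Real.pi_gt_d6
    rw [e]
    norm_num at *
    linarith
  exact leE (b7_10_C3R B hs h1 h2 h3 h4 hp hY) (by norm_num) hY (by norm_num)

theorem b7_10_Cm1 {β r h κ T t s u Y : ℝ} (B : Bx 1.26 1.39 0.487 0.474 17.4758 0.0741 5.441 β r h κ T) (hs : t + κ = s * h)
    (h1 : 0.59 ≤ u) (h2 : u ≤ 0.75) (h3 : u ≤ s) (h4 : s ≤ u + 0)
    (hY : eN r κ * (0.8662 * Real.exp (-(T * (0.5279 * (1 - u) ^ 2)))) ≤ Y) :
    ‖Xf β r h t (-1)‖ ≤ 0.0252301808 * Y := by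
  refine leE (cL7 (-2) 0.96 0.4902 1.1219 1.2657 _ _ _ _ _ 3.6859 1.1567 0.3555 0 0.6729 0.8662 0.7329 0.01889 0.02523 0.0888 0.6619 0.9723 4.1805 0.00000004254 0.0000001808 B (by norm_num) hs
    (mloN7 B.P (x1 := 1.25) (by linarith) (by norm_num) (by norm_num)) (mhiN7 B.P (x2 := 1.41) (by linarith) (by norm_num) (by norm_num)) hY (g0_nn (by norm_num))
    (g0_le (by norm_num) h1 h2 (by norm_num) (by norm_num)) (ch0 (a := (-2)) (by norm_num) (sqL h2 h4 (by norm_num) (by norm_num)) (by norm_num) h1 h2 (by norm_num) (by norm_num))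
    (by norm_num) (by norm_num) (by norm_num) (by norm_num) rfl rfl (by norm_num) rfl rfl rfl (by norm_num) (by norm_num) (by norm_num) (by norm_num) (by norm_num) (by norm_num) (by norm_num) (by norm_num) (by norm_num) (by norm_num) (by norm_num) (by norm_num) (by norm_num) (by norm_num) (by norm_num) (by norm_num) (by norm_num) (by norm_num)
    (expn 3 0.9877 (by norm_num) (by norm_num) (by norm_num) (by norm_num)) (by norm_num) (by norm_num) (by norm_num) (by norm_num) (by norm_num) (by norm_num) (by norm_num) (by norm_num) (expn 16 0.9917 (by norm_num) (by norm_num) (by norm_num) (by norm_num)) (by norm_num) (by norm_num)) (by norm_num) hY (by norm_num)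

theorem b7_10_Cm2 {β r h κ T t s u Y : ℝ} (B : Bx 1.26 1.39 0.487 0.474 17.4758 0.0741 5.441 β r h κ T) (hs : t + κ = s * h)
    (h1 : 0.59 ≤ u) (h2 : u ≤ 0.75) (h3 : u ≤ s) (h4 : s ≤ u + 0)
    (hY : eN r κ * (0.8662 * Real.exp (-(T * (0.5279 * (1 - u) ^ 2)))) ≤ Y) :
    ‖Xf β r h t (-2)‖ ≤ 0.0000041425 * Y := by
  refine leE (cL7 (-3) 0.86 0.4654 2.0195 2.1633 _ _ _ _ _ 5.5324 1.045 0.3555 0 0.7945 0.8662 2.323 0.000003256 0.000003929 0.0888 0.6619 0.9723 4.1805 0.00000004254 0.0000002135 B (by norm_num) hs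
    (mloN7 B.P (x1 := 2.25) (by linarith) (by norm_num) (by norm_num)) (mhiN7 B.P (x2 := 2.41) (by linarith) (by norm_num) (by norm_num)) hY (g0_nn (by norm_num))
    (g0_le (by norm_num) h1 h2 (by norm_num) (by norm_num)) (ch0 (a := (-3)) (by norm_num) (sqL h2 h4 (by norm_num) (by norm_num)) (by norm_num) h1 h2 (by norm_num) (by norm_num))
    (by norm_num) (by norm_num) (by norm_num) (by norm_num) rfl rfl (by norm_num) rfl rfl rfl (by norm_num) (by norm_num) (by norm_num) (by norm_num) (by norm_num) (by norm_num) (by norm_num) (by norm_num) (by norm_num) (by norm_num) (by norm_num) (by norm_num) (by norm_num) (by norm_num) (by norm_num) (by norm_num) (by norm_num) (by norm_num)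
    (expn 12 0.6394 (by norm_num) (by norm_num) (by norm_num) (by norm_num)) (by norm_num) (by norm_num) (by norm_num) (by norm_num) (by norm_num) (by norm_num) (by norm_num) (by norm_num) (expn 16 0.9917 (by norm_num) (by norm_num) (by norm_num) (by norm_num)) (by norm_num) (by norm_num)) (by norm_num) hY (by norm_num)

theorem b7_10_Cm3 {β r h κ T t s u Y : ℝ} (B : Bx 1.26 1.39 0.487 0.474 17.4758 0.0741 5.441 β r h κ T) (hs : t + κ = s * h)
    (h1 : 0.59 ≤ u) (h2 : u ≤ 0.75) (h3 : u ≤ s) (h4 : s ≤ u + 0)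
    (hY : eN r κ * (0.8662 * Real.exp (-(T * (0.5279 * (1 - u) ^ 2)))) ≤ Y) :
    ‖Xf β r h t (-3)‖ ≤ 0.0000004184 * Y := by
  refine cU7 1 (-4) 1.8323 3.366 0.02 0.3555 0.0306 0.9283 0.8662 0.0888 0.6619 0.9723 4.1805 0.00000007136 0.0000004184 B (by norm_num) hs
    (full7 B.P B.hk2 (x1 := 3.59) (by push_cast; linarith) (by norm_num) (by norm_num)) (mhi7 B.P (x2 := 3.75) (by push_cast; linarith) (by norm_num) (by norm_num)) hY (g0_nn (by norm_num)) (g0_le (by norm_num) h1 h2 (by norm_num) (by norm_num))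
    (by norm_num) (by norm_num) (by norm_num) (by norm_num) (by norm_num) (by norm_num) (by norm_num) (by norm_num) (by norm_num) (by norm_num) (by norm_num) (by norm_num) (by norm_num) (by norm_num) (by norm_num) (by norm_num) (by norm_num) (by norm_num) (by norm_num)
    (expn 16 0.4569 (by norm_num) (by norm_num) (by norm_num) (by norm_num)) (by norm_num) (by norm_num)

private theorem b7_10_Do_y {κ t : ℝ} (h : DomR κ t) (hk1 : 1.26 ≤ κ) (hk2 : κ ≤ 1.39) (ht1 : 0.6731 ≤ t + κ) (ht2 : t + κ ≤ 0.9425) :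
    0.288 ≤ sy κ t ∧ sy κ t ≤ 0.385 := by
  have hy1 : 0.288 ≤ sy κ t := syR_ge h 1.26 1.39 0.6731 0.288 1.33375 1.33376 0.27634 0.30486 hk1 hk2 (by linarith) (by norm_num) (by norm_num)
    (expn_ge (by norm_num) (by norm_num)) (expn_le (by norm_num) (by norm_num) (by norm_num)) (by norm_num)
    (by norm_num) (by norm_num) (by norm_num) (by norm_num) (by norm_num) (by norm_num)
  have hy2 : sy κ t ≤ 0.385 := syR_le h 1.26 1.39 0.9425 0.385 1.46961 0.3965 0.40705 0.44906 hk1 hk2 (by linarith) (by norm_num) (by norm_num)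
    (expn_ge (by norm_num) (by norm_num)) (by norm_num) (by norm_num) (Or.inr ((mul_le_mul_of_nonneg_left (expn_le (E := 1.46962) (by norm_num) (by norm_num) (by norm_num)) (by norm_num)).trans (by norm_num))) (by norm_num) (by norm_num) (by norm_num)
  exact ⟨by linarith, by linarith⟩

theorem b7_10_Do {β r h κ T t s u Y : ℝ} (B : Bx 1.26 1.39 0.487 0.474 17.4758 0.0741 5.441 β r h κ T) (hs : t + κ = s * h)
    (h1 : 0.75 ≤ u) (h2 : u ≤ 1.05) (h3 : u ≤ s) (h4 : s ≤ u + 0)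
    (hY : eN r κ * (0.8662 * Real.exp (-(T * (0.5279 * (1 - u) ^ 2)))) ≤ Y) :
    ‖Xf β r h t 1‖ ≤ 0.3842 * Y := by
  obtain ⟨t', ht'⟩ : ∃ t', t' = t + 0 * h := ⟨_, rfl⟩
  have hτ : t' + κ = (s + 0) * h := by rw [ht']; linear_combination hs
  have a1 : 0.6731 ≤ t' + κ := by rw [hτ]; exact mlo7 B.P (x1 := 0.75) (by linarith) (by norm_num) (by norm_num)
  have a2 : t' + κ ≤ 0.9425 := by rw [hτ]; exact mhi7 B.P (x2 := 1.05) (by linarith) (by norm_num) (by norm_num)
  have hk := B.hk1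
  have hk' := B.P.hκ1
  have hD : DomR κ t' := dom7 B.P.κ0 (by linarith) (by linarith)
  have hy := b7_10_Do_y hD B.hk1 B.hk2 a1 a2
  have hJ : ‖HH β (sg κ t') - 1‖ ≤ 0.035 := JB7_k1b hD B.P.hβ (by linarith) B.P.hκ1 (by linarith) (by linarith) B.P.βκ B.P.βR
  have hd := Dlo7 hD (1.26 ^ 2) (1.39 ^ 2) 0.9065 0.288 0.385 0.3268 0.52016 hy.1 hy.2 (pow_le_pow_left₀ (by norm_num) B.hk1 2) (pow_le_pow_left₀ B.P.κ0.le B.hk2 2)
      (by rw [show (-2 * 0.3268 : ℝ) = -0.6536 by norm_num]; exact expm_ge (by norm_num) (by norm_num) (by norm_num) (by norm_num)) (by norm_num) (by norm_num) (by norm_num) (by norm_num) (by norm_num)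
  have hc : sE κ t' ≤ 1 - 0.4376 * (t' + κ) ^ 2 / (1 + κ ^ 2) := VR7 0.81 0.4376 0.6731 0.9425 _ _ _ _ _ B hD a1 a2 (by norm_num) (by norm_num) (by norm_num) (by norm_num) rfl rfl (by norm_num) rfl rfl rfl (by norm_num) (by norm_num)
  exact up7 0 0.035 0.4376 0.9065 1.0608 0.8662 0.2131 0.3137 0.3842 B (by norm_num) ht' hs hD (by norm_num) hJ hc hd (by norm_num) (by norm_num) (by norm_num) hY (by norm_num)
    (ch0 (a := 0) (by norm_num) (sqR h1 h3 (by norm_num)) (by norm_num) h1 h2 (by norm_num) (by norm_num)) (by norm_num)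
    (expn 1 0.1594 (by norm_num) (by norm_num) (by norm_num) (by norm_num)) (by norm_num) (by norm_num)

theorem b7_10_D2R {β r h κ T t s u Y : ℝ} (B : Bx 1.26 1.39 0.487 0.474 17.4758 0.0741 5.441 β r h κ T) (hs : t + κ = s * h)
    (h1 : 0.75 ≤ u) (h2 : u ≤ 1.05) (h3 : u ≤ s) (h4 : s ≤ u + 0) (htp : t + 1 * h ≤ Real.pi / 2)
    (hY : eN r κ * (0.8662 * Real.exp (-(T * (0.5279 * (1 - u) ^ 2)))) ≤ Y) :
    ‖Xf β r h t 2‖ ≤ 0.008165 * Y := by
  refine leE (cR7 1 0.52 0.3601 1.5707 1.8401 _ _ _ _ _ 0.4077 2.0057 0.3555 0.5141 0.7898 0.8662 1.0698 0.002996 0.006938 0.033 0.6619 0.9897 4.1805 0.0002458 0.001227 B (by norm_num) hs htp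
    (mlo7 B.P (x1 := 1.75) (by linarith) (by norm_num) (by norm_num)) (mhi7 B.P (x2 := 2.05) (by linarith) (by norm_num) (by norm_num)) hY (g0_nn (by norm_num))
    (g0_le (by norm_num) h1 h2 (by norm_num) (by norm_num)) (ch0 (a := 1) (by norm_num) (sqR h1 h3 (by norm_num)) (by norm_num) h1 h2 (by norm_num) (by norm_num))
    (by norm_num) (by norm_num) (by norm_num) (by norm_num) rfl rfl (by norm_num) rfl rfl rfl (by norm_num) (by norm_num) (by norm_num) (by norm_num) (by norm_num) (by norm_num) (by norm_num) (by norm_num) (by norm_num) (by norm_num) (by norm_num) (by norm_num) (by norm_num) (by norm_num) (by norm_num) (by norm_num) (by norm_num) (by norm_num) (by norm_num)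
    (expn 5 0.8207 (by norm_num) (by norm_num) (by norm_num) (by norm_num)) (by norm_num) (by norm_num) (by norm_num) (by norm_num) (by norm_num) (by norm_num) (by norm_num) (by norm_num) (expn 8 0.3114 (by norm_num) (by norm_num) (by norm_num) (by norm_num)) (by norm_num) (by norm_num)) (by norm_num) hY (by norm_num)

theorem b7_10_D2 {β r h κ T t s u Y : ℝ} (B : Bx 1.26 1.39 0.487 0.474 17.4758 0.0741 5.441 β r h κ T) (hs : t + κ = s * h)
    (h1 : 0.75 ≤ u) (h2 : u ≤ 1.05) (h3 : u ≤ s) (h4 : s ≤ u + 0)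
    (hY : eN r κ * (0.8662 * Real.exp (-(T * (0.5279 * (1 - u) ^ 2)))) ≤ Y) :
    ‖Xf β r h t 2‖ ≤ 0.008165 * Y := by
  have hp : t + 1 * h ≤ Real.pi / 2 := by
    have e : t + 1 * h = (s + 1) * h - κ := by linear_combination hs
    have := mhi7 B.P (x := s + 1) (x2 := 2.05) (by linarith) (by norm_num) (le_refl _)
    have := B.hk1
    have := Real.pi_gt_d6
    rw [e]
    norm_num at *
    linarith
  exact leE (b7_10_D2R B hs h1 h2 h3 h4 hp hY) (by norm_num) hY (by norm_num)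

theorem b7_10_D3R {β r h κ T t s u Y : ℝ} (B : Bx 1.26 1.39 0.487 0.474 17.4758 0.0741 5.441 β r h κ T) (hs : t + κ = s * h)
    (h1 : 0.75 ≤ u) (h2 : u ≤ 1.05) (h3 : u ≤ s) (h4 : s ≤ u + 0) (htp : t + 2 * h ≤ Real.pi / 2)
    (hY : eN r κ * (0.8662 * Real.exp (-(T * (0.5279 * (1 - u) ^ 2)))) ≤ Y) :
    ‖Xf β r h t 3‖ ≤ 0.00001755 * Y := by
  refine leE (cR7 2 0.42 0.3091 2.4683 2.7377 _ _ _ _ _ 0.2041 2.3845 0.3555 0.2189 0.8566 0.8662 2.3045 0.000003594 0.000009894 0.033 0.6619 0.9897 4.1805 0.000001415 0.000007656 B (by norm_num) hs htp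
    (mlo7 B.P (x1 := 2.75) (by linarith) (by norm_num) (by norm_num)) (mhi7 B.P (x2 := 3.05) (by linarith) (by norm_num) (by norm_num)) hY (g0_nn (by norm_num))
    (g0_le (by norm_num) h1 h2 (by norm_num) (by norm_num)) (ch0 (a := 2) (by norm_num) (sqR h1 h3 (by norm_num)) (by norm_num) h1 h2 (by norm_num) (by norm_num))
    (by norm_num) (by norm_num) (by norm_num) (by norm_num) rfl rfl (by norm_num) rfl rfl rfl (by norm_num) (by norm_num) (by norm_num) (by norm_num) (by norm_num) (by norm_num) (by norm_num) (by norm_num) (by norm_num) (by norm_num) (by norm_num) (by norm_num) (by norm_num) (by norm_num) (by norm_num) (by norm_num) (by norm_num) (by norm_num) (by norm_num)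
    (expn 12 0.5387 (by norm_num) (by norm_num) (by norm_num) (by norm_num)) (by norm_num) (by norm_num) (by norm_num) (by norm_num) (by norm_num) (by norm_num) (by norm_num) (by norm_num) (expn 13 0.4703 (by norm_num) (by norm_num) (by norm_num) (by norm_num)) (by norm_num) (by norm_num)) (by norm_num) hY (by norm_num)

theorem b7_10_D3 {β r h κ T t s u Y : ℝ} (B : Bx 1.26 1.39 0.487 0.474 17.4758 0.0741 5.441 β r h κ T) (hs : t + κ = s * h)
    (h1 : 0.75 ≤ u) (h2 : u ≤ 1.05) (h3 : u ≤ s) (h4 : s ≤ u + 0)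
    (hY : eN r κ * (0.8662 * Real.exp (-(T * (0.5279 * (1 - u) ^ 2)))) ≤ Y) :
    ‖Xf β r h t 3‖ ≤ 0.00001755 * Y := by
  have hp : t + 2 * h ≤ Real.pi / 2 := by
    have e : t + 2 * h = (s + 2) * h - κ := by linear_combination hs
    have := mhi7 B.P (x := s + 2) (x2 := 3.05) (by linarith) (by norm_num) (le_refl _)
    have := B.hk1
    have := Real.pi_gt_d6
    rw [e]
    norm_num at *
    linarith
  exact leE (b7_10_D3R B hs h1 h2 h3 h4 hp hY) (by norm_num) hY (by norm_num)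

theorem b7_10_Dm1 {β r h κ T t s u Y : ℝ} (B : Bx 1.26 1.39 0.487 0.474 17.4758 0.0741 5.441 β r h κ T) (hs : t + κ = s * h)
    (h1 : 0.75 ≤ u) (h2 : u ≤ 1.05) (h3 : u ≤ s) (h4 : s ≤ u + 0)
    (hY : eN r κ * (0.8662 * Real.exp (-(T * (0.5279 * (1 - u) ^ 2)))) ≤ Y) :
    ‖Xf β r h t (-1)‖ ≤ 0.1295001318 * Y := by
  refine leE (cL7 (-2) 0.96 0.487 0.8527 1.122 _ _ _ _ _ 3.0224 1.2155 0.3555 0 0.6482 0.8662 0.4381 0.09228 0.1295 0.033 0.6619 0.9897 4.1805 0.00000003218 0.0000001318 B (by norm_num) hs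
    (mloN7 B.P (x1 := 0.95) (by linarith) (by norm_num) (by norm_num)) (mhiN7 B.P (x2 := 1.25) (by linarith) (by norm_num) (by norm_num)) hY (g0_nn (by norm_num))
    (g0_le (by norm_num) h1 h2 (by norm_num) (by norm_num)) (ch0 (a := (-2)) (by norm_num) (sqL h2 h4 (by norm_num) (by norm_num)) (by norm_num) h1 h2 (by norm_num) (by norm_num))
    (by norm_num) (by norm_num) (by norm_num) (by norm_num) rfl rfl (by norm_num) rfl rfl rfl (by norm_num) (by norm_num) (by norm_num) (by norm_num) (by norm_num) (by norm_num) (by norm_num) (by norm_num) (by norm_num) (by norm_num) (by norm_num) (by norm_num) (by norm_num) (by norm_num) (by norm_num) (by norm_num) (by norm_num) (by norm_num)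
    (expn 2 0.3837 (by norm_num) (by norm_num) (by norm_num) (by norm_num)) (by norm_num) (by norm_num) (by norm_num) (by norm_num) (by norm_num) (by norm_num) (by norm_num) (by norm_num) (expn 16 1.2957 (by norm_num) (by norm_num) (by norm_num) (by norm_num)) (by norm_num) (by norm_num)) (by norm_num) hY (by norm_num)

theorem b7_10_Dm2 {β r h κ T t s u Y : ℝ} (B : Bx 1.26 1.39 0.487 0.474 17.4758 0.0741 5.441 β r h κ T) (hs : t + κ = s * h)
    (h1 : 0.75 ≤ u) (h2 : u ≤ 1.05) (h3 : u ≤ s) (h4 : s ≤ u + 0)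
    (hY : eN r κ * (0.8662 * Real.exp (-(T * (0.5279 * (1 - u) ^ 2)))) ≤ Y) :
    ‖Xf β r h t (-2)‖ ≤ 0.0000811481 * Y := by
  refine leE (cL7 (-3) 0.88 0.4666 1.7503 2.0196 _ _ _ _ _ 4.8491 1.0801 0.3555 0 0.7776 0.8662 1.7729 0.00006495 0.00008099 0.033 0.6619 0.9897 4.1805 0.00000003218 0.0000001581 B (by norm_num) hs
    (mloN7 B.P (x1 := 1.95) (by linarith) (by norm_num) (by norm_num)) (mhiN7 B.P (x2 := 2.25) (by linarith) (by norm_num) (by norm_num)) hY (g0_nn (by norm_num))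
    (g0_le (by norm_num) h1 h2 (by norm_num) (by norm_num)) (ch0 (a := (-3)) (by norm_num) (sqL h2 h4 (by norm_num) (by norm_num)) (by norm_num) h1 h2 (by norm_num) (by norm_num))
    (by norm_num) (by norm_num) (by norm_num) (by norm_num) rfl rfl (by norm_num) rfl rfl rfl (by norm_num) (by norm_num) (by norm_num) (by norm_num) (by norm_num) (by norm_num) (by norm_num) (by norm_num) (by norm_num) (by norm_num) (by norm_num) (by norm_num) (by norm_num) (by norm_num) (by norm_num) (by norm_num) (by norm_num) (by norm_num)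
    (expn 9 0.6463 (by norm_num) (by norm_num) (by norm_num) (by norm_num)) (by norm_num) (by norm_num) (by norm_num) (by norm_num) (by norm_num) (by norm_num) (by norm_num) (by norm_num) (expn 16 1.2957 (by norm_num) (by norm_num) (by norm_num) (by norm_num)) (by norm_num) (by norm_num)) (by norm_num) hY (by norm_num)

theorem b7_10_Dm3 {β r h κ T t s u Y : ℝ} (B : Bx 1.26 1.39 0.487 0.474 17.4758 0.0741 5.441 β r h κ T) (hs : t + κ = s * h)
    (h1 : 0.75 ≤ u) (h2 : u ≤ 1.05) (h3 : u ≤ s) (h4 : s ≤ u + 0)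
    (hY : eN r κ * (0.8662 * Real.exp (-(T * (0.5279 * (1 - u) ^ 2)))) ≤ Y) :
    ‖Xf β r h t (-3)‖ ≤ 0.000008802 * Y := by
  refine cU7 1 (-4) 1.9759 3.6353 0.02 0.3555 0.2243 0.8967 0.8662 0.033 0.6619 0.9897 4.1805 0.000001554 0.000008802 B (by norm_num) hs
    (full7 B.P B.hk2 (x1 := 3.75) (by push_cast; linarith) (by norm_num) (by norm_num)) (mhi7 B.P (x2 := 4.05) (by push_cast; linarith) (by norm_num) (by norm_num)) hY (g0_nn (by norm_num)) (g0_le (by norm_num) h1 h2 (by norm_num) (by norm_num))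
    (by norm_num) (by norm_num) (by norm_num) (by norm_num) (by norm_num) (by norm_num) (by norm_num) (by norm_num) (by norm_num) (by norm_num) (by norm_num) (by norm_num) (by norm_num) (by norm_num) (by norm_num) (by norm_num) (by norm_num) (by norm_num) (by norm_num)
    (expn 13 0.3759 (by norm_num) (by norm_num) (by norm_num) (by norm_num)) (by norm_num) (by norm_num)

private theorem b7_10_yS1 {κ t : ℝ} (h : DomR κ t) (hk1 : 1.26 ≤ κ) (hk2 : κ ≤ 1.39) (ht1 : 0.3859 ≤ t + κ) (ht2 : t + κ ≤ 0.5296) :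
    0.174 ≤ sy κ t ∧ sy κ t ≤ 0.235 := by
  have hy1 : 0.174 ≤ sy κ t := syR_ge h 1.26 1.39 0.3859 0.174 1.19005 1.19006 0.14897 0.16435 hk1 hk2 (by linarith) (by norm_num) (by norm_num)
    (expn_ge (by norm_num) (by norm_num)) (expn_le (by norm_num) (by norm_num) (by norm_num)) (by norm_num)
    (by norm_num) (by norm_num) (by norm_num) (by norm_num) (by norm_num) (by norm_num)
  have hy2 : sy κ t ≤ 0.235 := syR_le h 1.26 1.39 0.5296 0.235 1.2649 0.2267 0.21384 0.23592 hk1 hk2 (by linarith) (by norm_num) (by norm_num)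
    (expn_ge (by norm_num) (by norm_num)) (by norm_num) (by norm_num) (Or.inr ((mul_le_mul_of_nonneg_left (expn_le (E := 1.26491) (by norm_num) (by norm_num) (by norm_num)) (by norm_num)).trans (by norm_num))) (by norm_num) (by norm_num) (by norm_num)
  exact ⟨by linarith, by linarith⟩

private theorem b7_10_yS0 {κ t : ℝ} (h : DomR κ t) (hk1 : 1.26 ≤ κ) (hk2 : κ ≤ 1.39) (ht1 : (-0.5117) ≤ t + κ) (ht2 : t + κ ≤ (-0.368)) :
    (-0.26) ≤ sy κ t ∧ sy κ t ≤ (-0.177) := by
  have hy1 : -0.26 ≤ sy κ t := syL_ge h 1.26 1.39 0.5117 0.26 0.77105 0.77106 0.1442 0.14422 0.15911 hk1 hk2 (by linarith) (by norm_num) (by norm_num) (by norm_num)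
    (expm_ge (by norm_num) (by norm_num) (by norm_num) (by norm_num)) (expm_le (by norm_num) (by norm_num) (by norm_num)) (by norm_num)
    (by norm_num) (by norm_num) (by norm_num) (by norm_num) (by norm_num) (by norm_num)
  have hy2 : sy κ t ≤ -0.177 := syL_le h 1.26 1.39 0.368 0.177 0.83777 0.83778 0.10668 0.11769 hk1 hk2 (by linarith) (by norm_num) (by norm_num) (by norm_num)
    (expm_ge (by norm_num) (by norm_num) (by norm_num) (by norm_num)) (expm_le (by norm_num) (by norm_num) (by norm_num)) (by norm_num)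
    (by norm_num) (by norm_num) (by norm_num) (by norm_num) (by norm_num) (by norm_num)
  exact ⟨by linarith, by linarith⟩

theorem b7_10_S {β r h κ T t s : ℝ} (B : Bx 1.26 1.39 0.487 0.474 17.4758 0.0741 5.441 β r h κ T) (hs : t + κ = s * h)
    (h1 : 0.43 ≤ s) (h2 : s ≤ 0.59) :
    ‖Ld β r h t 0‖ ≤ r * 1.29694 + 0.7784 ∧ ‖Ld β r h t 1‖ ≤ r * 0.8403 + 0.4279 ∧
      T * 0.9332 - (0.1971 + 0.5046 + 0.1161 + 0) ≤ (Ld β r h t 1 - Ld β r h t 0).im := by
  have a1 : 0.3859 ≤ t + κ := by rw [hs]; exact mlo7 B.P h1 (by norm_num) (by norm_num)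
  have a2 : t + κ ≤ 0.5296 := by rw [hs]; exact mhi7 B.P h2 (by norm_num) (by norm_num)
  have hτ : t - h + κ = (s + (-1)) * h := by linear_combination hs
  have b1 : (-0.5117) ≤ t - h + κ := by rw [hτ]; have := mhiN7 B.P (x := s + (-1)) (x2 := 0.57) (τ2 := 0.5117) (by linarith) (by norm_num) (by norm_num); linarith
  have b2 : t - h + κ ≤ (-0.368) := by rw [hτ]; have := mloN7 B.P (x := s + (-1)) (x1 := 0.41) (τ1 := 0.368) (by linarith) (by norm_num) (by norm_num); linarith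
  have hk := B.hk1
  have hk2 := B.hk2
  have hk' := B.P.hκ1
  have hD1 : DomR κ t := dom7 B.P.κ0 (by linarith) (by linarith)
  have hD0 : DomR κ (t - h) := dom7 B.P.κ0 (by linarith) (by linarith)
  have hy1 := b7_10_yS1 hD1 B.hk1 B.hk2 a1 a2
  have hy0 := b7_10_yS0 hD0 B.hk1 B.hk2 b1 b2
  have hd1 := Dlo7 hD1 (1.26 ^ 2) (1.39 ^ 2) 0.9131 0.174 0.235 0.2289 0.63267 hy1.1 hy1.2 (pow_le_pow_left₀ (by norm_num) B.hk1 2) (pow_le_pow_left₀ B.P.κ0.le B.hk2 2)
      (by rw [show (-2 * 0.2289 : ℝ) = -0.4578 by norm_num]; exact expm_ge (by norm_num) (by norm_num) (by norm_num) (by norm_num)) (by norm_num) (by norm_num) (by norm_num) (by norm_num) (by norm_num)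
  have hd0 := Dlo7 hD0 (1.26 ^ 2) (1.39 ^ 2) 1.1237 (-0.26) (-0.177) (-0.177) 1.42475 hy0.1 hy0.2 (pow_le_pow_left₀ (by norm_num) B.hk1 2) (pow_le_pow_left₀ B.P.κ0.le B.hk2 2)
      (by rw [show (-2 * (-0.177) : ℝ) = 0.354 by norm_num]; exact expn_ge (by norm_num) (by norm_num)) (by norm_num) (by norm_num) (by norm_num) (by norm_num) (by norm_num)
  have hJ1 := T7S1b hD1 B.P.hβ (by linarith) (by linarith) (by linarith) (by linarith) B.P.βκ B.P.βR
  have hJ0 := T7S0_10 hD0 B.P.hβ (by linarith) (by linarith) (by linarith) (by linarith) B.P.βκ B.P.βR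
  obtain ⟨m1, n1⟩ := copy7 (t := t) (t' := t) (k := 1) 1.26 1.39 0.9131 0.174 0.8403 0.7062 0.7093 0.6506 0.04 0.15 0.1971 0.4279 B.P (by push_cast; ring) hD1 B.hk1 B.hk2 (by norm_num) (by norm_num) (by norm_num) (by norm_num) hJ1
    hy1.1 (by norm_num) hd1 (by norm_num) (expm_le (by norm_num) (by norm_num) (by norm_num)) (by norm_num) (by norm_num) (by norm_num) (by norm_num) (by norm_num) (by norm_num) (by norm_num) (by norm_num)
  obtain ⟨m0, n0⟩ := copy7 (t := t) (t' := t - h) (k := 0) 1.26 1.39 1.1237 (-0.26) 1.29694 1.6821 0.9335 0.5865 0.075 0.15 0.5046 0.7784 B.P (by push_cast; ring) hD0 B.hk1 B.hk2 (by norm_num) (by norm_num) (by norm_num) (by norm_num) hJ0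
    hy0.1 (by norm_num) hd0 (by norm_num) (by rw [neg_neg]; exact expn_le (by norm_num) (by norm_num) (by norm_num)) (by norm_num) (by norm_num) (by norm_num) (by norm_num) (by norm_num) (by norm_num) (by norm_num) (by norm_num)
  refine ⟨m0, m1, ?_⟩
  have q1 := corr1_ge hD1 1.26 1.39 0.9131 0.1161 B.hk1 B.hk2 (by norm_num) (by linarith) hd1 (by norm_num) (by norm_num) (Or.inr (by norm_num))
  have q0 := corr0_le hD0 1.26 1.39 1.1237 1.29694 0 B.hk1 B.hk2 (by norm_num) (by linarith) hd0 (by norm_num) (by norm_num)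
    ((Real.exp_le_exp.2 (by linarith)).trans (show Real.exp (-(-0.26)) ≤ 1.29694 from (by rw [neg_neg]; exact expn_le (by norm_num) (by norm_num) (by norm_num)))) (Or.inl (by norm_num))
  exact slope7 0.77 0.935 0.9332 0.43 0.59 0.1971 0.5046 0.1161 0 B.P hs h1 h2 (pR_060 hD1 (by linarith) (by linarith) (by linarith)) (pL_060 hD0 hk' (by linarith) (by linarith)) n1 n0 q1 q0
    (by norm_num) (by norm_num) (by norm_num)

theorem boxb7_10 {p : ℤ} (hp : IsCoprime (7 : ℤ) p) {β r h κ T : ℝ} (P : Q7 β r h κ T) (hk1 : 1.26 ≤ κ) (hk2 : κ ≤ 1.39) :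
    Circ (2 * Real.pi * p / (7 : ℕ) + β) r := by
  have B : Bx 1.26 1.39 0.487 0.474 17.4758 0.0741 5.441 β r h κ T :=
    { P := P, hk1 := hk1, hk2 := hk2, hψ := (psi_hi hk1 (by norm_num)).trans (by norm_num), hψ1 := le_trans (by norm_num) (psi1_hi hk2 (by linarith)), hR0 := P.Rge (k1 := 1.26) (by norm_num) hk1 (by norm_num), hβ0 := P.β74, hT0 := P.T5 }
  have hT := B.hT0
  have hr := P.r_le (ν := 3.6393) hk2 (by norm_num)
  refine fin7 hp P (slo := 0.43) (shi := 0.59) (bb := 0.0826) (ℓ1 := 0.9699) (ℓ0 := 0.8662) (C0 := 0.5279) (e2 := 0.01925) (e3 := 0.00019988) (f1 := 0.0110502874) (g1 := 0.0208002874) (f2 := 0.0000029225) (f3 := 0.0000006023)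
    (a := 1.06) (m := T * 0.9332 - (0.8178)) (η := 0.0306) (Λ0 := r * 1.29694 + 0.7784) (Λ1 := r * 0.8403 + 0.4279) (S1 := 0.0664)
    (by norm_num) (by norm_num) (by linarith) (by norm_num) (by norm_num) (by norm_num) (by norm_num)
    ?_ ?_ ?_ ?_ ?_ ?_ ?_ ?_ ?_ ?_ ?_ ?_ ?_ (by norm_num) (by norm_num) (by norm_num) ?_
  · intro t s hs h1 h2
    exact b7_10_L1 B hs (by linarith) h2
  · intro t s hs h1 h2
    exact b7_10_L0 B hs h1 (by linarith)
  · intro t s u Y hs h1 h2 h3 h4 hY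
    have hY' : eN r κ * (0.9699 * Real.exp (-(T * (1 / 2 * u ^ 2)))) ≤ Y := hY
    rcases le_total u 0.475 with hc | hc
    · exact leE (b7_10_W2a B hs h1 hc h3 h4 hY') (by norm_num) hY' (by norm_num)
    · exact leE (b7_10_W2b B hs hc h2 h3 h4 hY') (by norm_num) hY' (by norm_num)
  · intro t s u Y hs h1 h2 h3 h4 hY
    exact b7_10_W3 B hs h1 h2 h3 h4 hY
  · intro t s u Y hs h1 h2 h3 h4 hY
    exact b7_10_Wm1 B hs h1 h2 h3 h4 hY
  · intro t s u Y hs h1 h2 h3 h4 hY
    exact b7_10_Wm1p B hs h1 h2 h3 h4 hY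
  · intro t s u Y hs h1 h2 h3 h4 hY
    exact b7_10_Wm2 B hs h1 h2 h3 h4 hY
  · intro t s u Y hs h1 h2 h3 h4 hY
    exact b7_10_Wm3 B hs h1 h2 h3 h4 hY
  · intro t s hs h1 h2
    have hY := b7_10_L1 B hs (by linarith) (by linarith)
    have hYp := lt_of_lt_of_le (mul_pos (eN_pos r κ) (mul_pos (by norm_num : (0 : ℝ) < 0.9699) (Real.exp_pos _))) hY
    rcases le_total s 0.36 with hc | hc
    · have x0 := b7_10_Ao B hs h1 hc le_rfl (by linarith) hY
      have x2 := b7_10_A2 B hs h1 hc le_rfl (by linarith) hY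
      have x3 := b7_10_A3 B hs h1 hc le_rfl (by linarith) hY
      have xm1 := b7_10_Am1 B hs h1 hc le_rfl (by linarith) hY
      have xm2 := b7_10_Am2 B hs h1 hc le_rfl (by linarith) hY
      have xm3 := b7_10_Am3 B hs h1 hc le_rfl (by linarith) hY
      linarith
    · have x0 := b7_10_Bo B hs hc h2 le_rfl (by linarith) hY
      have x2 := b7_10_B2 B hs hc h2 le_rfl (by linarith) hY
      have x3 := b7_10_B3 B hs hc h2 le_rfl (by linarith) hY
      have xm1 := b7_10_Bm1 B hs hc h2 le_rfl (by linarith) hY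
      have xm2 := b7_10_Bm2 B hs hc h2 le_rfl (by linarith) hY
      have xm3 := b7_10_Bm3 B hs hc h2 le_rfl (by linarith) hY
      linarith
  · intro t s hs h1 h2
    have hY := b7_10_L0 B hs (by linarith) (by linarith)
    have hYp := lt_of_lt_of_le (mul_pos (eN_pos r κ) (mul_pos (by norm_num : (0 : ℝ) < 0.8662) (Real.exp_pos _))) hY
    rcases le_total s 0.75 with hc | hc
    · have x0 := b7_10_Co B hs h1 hc le_rfl (by linarith) hY
      have x2 := b7_10_C2 B hs h1 hc le_rfl (by linarith) hY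
      have x3 := b7_10_C3 B hs h1 hc le_rfl (by linarith) hY
      have xm1 := b7_10_Cm1 B hs h1 hc le_rfl (by linarith) hY
      have xm2 := b7_10_Cm2 B hs h1 hc le_rfl (by linarith) hY
      have xm3 := b7_10_Cm3 B hs h1 hc le_rfl (by linarith) hY
      linarith
    · have x0 := b7_10_Do B hs hc h2 le_rfl (by linarith) hY
      have x2 := b7_10_D2 B hs hc h2 le_rfl (by linarith) hY
      have x3 := b7_10_D3 B hs hc h2 le_rfl (by linarith) hY
      have xm1 := b7_10_Dm1 B hs hc h2 le_rfl (by linarith) hY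
      have xm2 := b7_10_Dm2 B hs hc h2 le_rfl (by linarith) hY
      have xm3 := b7_10_Dm3 B hs hc h2 le_rfl (by linarith) hY
      linarith
  · intro t s hs h1 h2
    exact (b7_10_S B hs h1 h2).1
  · intro t s hs h1 h2
    exact (b7_10_S B hs h1 h2).2.1
  · intro t s hs h1 h2
    have := (b7_10_S B hs h1 h2).2.2
    linarith
  · linarith

end Sok
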