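import Pool.Agent.Lib.MP_816dec_an.R1b7C

/-!
MP_816dec_an (A3, row R1), b = 8: base file.
-/

set_option autoImplicit false
set_option maxHeartbeats 4000000

open Complex Set Filter Topology Metric

namespace Sok

/-- the standing hypotheses, `b = 8` -/
structure Q8 (β r h κ T : ℝ) : Prop where
  hβ : 0 < β
  hκ : κ = β * r
  hh : h = 2 * Real.pi / 8
  hr : 10 ≤ r
  hR : 8.821 * (1 + κ ^ 2) ≤ r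
  hT : T = r * h ^ 2 / (1 + κ ^ 2)
  hκ1 : κ ≤ 1.39

namespace Q8

variable {β r h κ T : ℝ}

theorem r0 (P : Q8 β r h κ T) : 0 < r := by have := P.hr; linarith

theorem κ0 (P : Q8 β r h κ T) : 0 < κ := by rw [P.hκ]; exact mul_pos P.hβ P.r0

theorem hlo (P : Q8 β r h κ T) : 0.785398 ≤ h := by
  rw [P.hh]; have := Real.pi_gt_d6; norm_num at this ⊢; linarith

theorem hhi (P : Q8 β r h κ T) : h ≤ 0.7853983 := by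
  rw [P.hh]; have := Real.pi_lt_d6; norm_num at this ⊢; linarith

theorem h0 (P : Q8 β r h κ T) : 0 < h := by have := P.hlo; linarith

theorem h2lo (P : Q8 β r h κ T) : 0.61685 ≤ h ^ 2 := by
  have := pow_le_pow_left₀ (by norm_num) P.hlo 2
  norm_num at this ⊢; linarith

theorem h2hi (P : Q8 β r h κ T) : h ^ 2 ≤ 0.616851 := by
  have := pow_le_pow_left₀ P.h0.le P.hhi 2
  norm_num at this ⊢; linarith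

theorem A0 (_P : Q8 β r h κ T) : 0 < 1 + κ ^ 2 := by positivity

theorem TA (P : Q8 β r h κ T) : T * (1 + κ ^ 2) = r * h ^ 2 := by
  rw [P.hT]; have := P.A0; field_simp

theorem T5 (P : Q8 β r h κ T) : 5.441 ≤ T := by
  have h1 := P.TA
  have h2 : 8.821 * (1 + κ ^ 2) * 0.61685 ≤ r * h ^ 2 := mul_le_mul P.hR P.h2lo (by norm_num) P.r0.le
  have h3 : 5.441 * (1 + κ ^ 2) ≤ T * (1 + κ ^ 2) := by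
    rw [h1]; refine le_trans ?_ h2; have := P.A0; nlinarith
  exact le_of_mul_le_mul_right h3 P.A0

theorem T8 (P : Q8 β r h κ T) {k2 T0 : ℝ} (hk : κ ≤ k2) (hT : T0 * (1 + k2 ^ 2) ≤ 6.1685) (hT0 : 0 ≤ T0) : T0 ≤ T := by
  have h1 := P.TA
  have h2 : 10 * 0.61685 ≤ r * h ^ 2 := mul_le_mul P.hr P.h2lo (by norm_num) P.r0.le
  have h4 : κ ^ 2 ≤ k2 ^ 2 := pow_le_pow_left₀ P.κ0.le hk 2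
  have h3 : T0 * (1 + κ ^ 2) ≤ T * (1 + κ ^ 2) := by
    rw [h1]; refine le_trans ?_ h2
    have := mul_le_mul_of_nonneg_left h4 hT0
    norm_num at hT ⊢; linarith
  exact le_of_mul_le_mul_right h3 P.A0

theorem βκ (P : Q8 β r h κ T) : β * 10 ≤ κ := by
  rw [P.hκ]; exact mul_le_mul_of_nonneg_left P.hr P.hβ.le

theorem βR (P : Q8 β r h κ T) : β * (8.82 * (1 + κ ^ 2)) ≤ κ := by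
  have h1 := mul_le_mul_of_nonneg_left P.hR P.hβ.le
  have h2 := mul_nonneg P.hβ.le P.A0.le
  have h3 := P.hκ
  linarith

theorem β56 (P : Q8 β r h κ T) : β ≤ 0.0567 := by
  have h1 := mul_le_mul_of_nonneg_left P.hR P.hβ.le
  rw [← P.hκ] at h1
  have h2 := P.κ0
  have h3 : 8.821 * (2 * κ) ≤ 8.821 * (1 + κ ^ 2) := by nlinarith [sq_nonneg (κ - 1)]
  have h4 := mul_le_mul_of_nonneg_left h3 P.hβ.le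
  have h5 : (β * 17.642) * κ ≤ 1 * κ := by linarith
  have h6 := le_of_mul_le_mul_right h5 h2
  linarith

end Q8

/-- a box of `κ` -/
structure By (k1 k2 ψ ψ1 R0 β0 T0 : ℝ) (β r h κ T : ℝ) : Prop where
  P : Q8 β r h κ T
  hk1 : k1 ≤ κ
  hk2 : κ ≤ k2
  hψ : κ / (1 + κ ^ 2) ≤ ψ
  hψ1 : ψ1 ≤ κ / (1 + κ ^ 2)
  hR0 : R0 ≤ r
  hβ0 : β ≤ β0
  hT0 : T0 ≤ T

section cells

variable {k1 k2 ψ ψ1 R0 β0 T0 : ℝ} {β r h κ T t s Y g : ℝ} {k : ℤ}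

/-- RIGHT far copy -/
theorem cR8 (a l c τ1 τm P w z φ E m0 U c0 E2 Gc ℓ q Ea ea g2 L ω ρ0 Eb eb : ℝ)
    (B : By k1 k2 ψ ψ1 R0 β0 T0 β r h κ T) (ha : (k : ℝ) - 1 = a) (hs : t + κ = s * h)
    (htp : t + a * h ≤ Real.pi / 2) (ht1 : τ1 ≤ (s + a) * h) (htm : (s + a) * h ≤ τm)
    (hY : eN r κ * (ℓ * Real.exp (-(T * g))) ≤ Y) (hg0 : 0 ≤ g) (hg2 : g ≤ g2)
    (hq : q ≤ c * (s + a) ^ 2 - g)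
    (hψ0 : 0 ≤ ψ1) (hk0 : 0 < k1) (hτ0 : 0 < τ1) (hl : 0 < l)
    (hP : P = l * τm / (1 + k1 ^ 2)) (hw : w = ψ * (l * τm)) (hw1 : w ≤ 1)
    (hz : z = ψ1 * (l * τ1)) (hφ : φ = 1 / 2 - z / 6 + z ^ 2 / 24)
    (hE' : E = 1 + w + w ^ 2 * (1 / 2 + w / 6 + w ^ 2 / 19))
    (hn1 : k1 ^ 2 * φ + (E / 2 + P ^ 2 * E ^ 3 / 24 + P ^ 4 * E ^ 5 / 24) ≤ (1 + k1 ^ 2) * (1 / l - c / l ^ 2))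
    (hn2 : k2 ^ 2 * φ + (E / 2 + P ^ 2 * E ^ 3 / 24 + P ^ 4 * E ^ 5 / 24) ≤ (1 + k2 ^ 2) * (1 / l - c / l ^ 2))
    (hqq : P * E ≤ 99 / 100) (hk22 : k2 ≤ 3 / 2)
    (hm0 : (m0 + w ^ 2) * E ^ 2 ≤ k1 ^ 2) (hm00 : 0 < m0) (hU0 : 0 ≤ U)
    (hU : 9 * (1 + k2 ^ 2) ≤ 4 * U ^ 4 * m0)
    (hR0 : 0 < R0) (hβ01 : β0 ≤ 11 / 100)
    (hc0 : 1 ≤ c0 ^ 2 * (6.2831 * k1)) (hc00 : 0 ≤ c0)
    (hE0 : P * (1.5708 - τ1 + k2) ≤ E2) (hE20 : 0 ≤ E2)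
    (hx : 5 * β0 ≤ 5.712 - τm - 1.7183 * k2) (hx' : 5 * β0 ≤ 4.712 - τm + k1)
    (hGc : c0 * (β0 / 3 + 3.1416 / R0 + 1 + 2 * w + β0 + 0.011) ≤ Gc)
    (hT00 : 0 ≤ T0) (hq0 : 0 ≤ q) (hEa : Real.exp (-(T0 * q)) ≤ Ea) (hl0 : 0 < ℓ) (hea : U * Ea ≤ ea * ℓ)
    (hL0 : 0 < L) (hL : L ^ 4 * (1 + k2 ^ 2) ≤ ℓ ^ 4) (hω : ω + 0.616851 * g2 / (1 + k1 ^ 2) ≤ 1)
    (hδ : 1 ≤ 2 * R0 * (ω - E2)) (hρ : R0 ≤ ρ0 ^ 2) (hρ0 : 0 ≤ ρ0)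
    (hEb : Real.exp (-(R0 * (ω - E2))) ≤ Eb) (hGc0 : 0 ≤ Gc) (heb : Gc * (ρ0 * Eb) ≤ eb * L) :
    ‖Xf β r h t k‖ ≤ (ea + eb) * Y := by
  have e : s + (k : ℝ) - 1 = s + a := by rw [← ha]; ring
  refine cellR l c k1 k2 ψ ψ1 τ1 τm P w z φ E m0 U R0 β0 c0 E2 Gc ℓ q T0 Ea ea 0.616851 g2 L ω ρ0 Eb eb
    B.P.hβ B.P.hκ hs B.P.hT B.P.h0 B.P.h2hi (by norm_num) B.hk1 B.hk2 B.hψ B.hψ1 ?_ ?_ ?_ B.hR0 B.hβ0 B.hT0 hY hg0 hg2 ?_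
    hψ0 hk0 hτ0 hl hP hw hw1 hz hφ hE' hn1 hn2 hqq hk22 hm0 hm00 hU0 hU hR0 hβ01 hc0 hc00 hE0 hE20 hx hx' hGc
    hT00 hq0 hEa hl0 hea hL0 hL hω hδ hρ hρ0 hEb hGc0 heb
  · rw [e]; linarith
  · rw [e]; exact ht1
  · rw [e]; exact htm
  · rw [e]; exact hq

/-- LEFT far copy -/
theorem cL8 (a l c b1 b2 P2 w1 w2 Φ G m0 U c0 E Gc ℓ q Ea ea g2 L ω ρ0 Eb eb : ℝ)
    (B : By k1 k2 ψ ψ1 R0 β0 T0 β r h κ T) (ha : (k : ℝ) - 1 = a) (hs : t + κ = s * h)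
    (hb1 : b1 ≤ -((s + a) * h)) (hb2 : -((s + a) * h) ≤ b2)
    (hY : eN r κ * (ℓ * Real.exp (-(T * g))) ≤ Y) (hg0 : 0 ≤ g) (hg2 : g ≤ g2)
    (hq : q ≤ c * (s + a) ^ 2 - g)
    (hψ0 : 0 ≤ ψ1) (hk0 : 0 < k1) (hb0 : 0 < b1) (hl : 0 < l)
    (hP : P2 = l * b2 / (1 + k1 ^ 2)) (hw2 : w2 = ψ * (l * b2)) (hw21 : w2 ≤ 1) (hw1 : w1 = ψ1 * (l * b1))
    (hΦ : Φ = 1 / 2 + w2 / 6 + w2 ^ 2 / 19) (hG : G = 1 - w1 + w1 ^ 2 / 2 - w1 ^ 3 / 6 + w1 ^ 4 / 24)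
    (hn1 : k1 ^ 2 * Φ + (G / 2 + P2 ^ 2 * G ^ 3 / 24 + P2 ^ 4 * G ^ 5 / 24) ≤ (1 + k1 ^ 2) * (1 / l - c / l ^ 2))
    (hn2 : k2 ^ 2 * Φ + (G / 2 + P2 ^ 2 * G ^ 3 / 24 + P2 ^ 4 * G ^ 5 / 24) ≤ (1 + k2 ^ 2) * (1 / l - c / l ^ 2))
    (hqq : P2 * G ≤ 99 / 100)
    (hm0 : m0 ≤ k1 ^ 2 * (1 + 2 * w1 + 2 * w1 ^ 2) - w2 ^ 2) (hm00 : 0 < m0) (hU0 : 0 ≤ U)
    (hU : 9 * (1 + k2 ^ 2) ≤ 4 * U ^ 4 * m0)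
    (hR0 : 0 < R0) (hβ01 : β0 ≤ 11 / 100) (hbk : b2 + k2 ≤ 4.7)
    (hc0 : 1 ≤ c0 ^ 2 * (6.2831 * k1)) (hc00 : 0 ≤ c0) (hE0 : 0 ≤ E) (hE : P2 * (1.5708 - b1 - k1) ≤ E)
    (hx : 5 * β0 ≤ 5.712 + b1 - 1.7183 * k2)
    (hGc : c0 * (β0 / (4.712 - b2 - k2) + 3.1416 / R0 + 1 + β0 + 0.011 + w2) ≤ Gc)
    (hT00 : 0 ≤ T0) (hq0 : 0 ≤ q) (hEa : Real.exp (-(T0 * q)) ≤ Ea) (hl0 : 0 < ℓ) (hea : U * Ea ≤ ea * ℓ)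
    (hL0 : 0 < L) (hL : L ^ 4 * (1 + k2 ^ 2) ≤ ℓ ^ 4) (hω : ω + 0.616851 * g2 / (1 + k1 ^ 2) ≤ 1)
    (hδ : 1 ≤ 2 * R0 * (ω - E)) (hρ : R0 ≤ ρ0 ^ 2) (hρ0 : 0 ≤ ρ0)
    (hEb : Real.exp (-(R0 * (ω - E))) ≤ Eb) (hGc0 : 0 ≤ Gc) (heb : Gc * (ρ0 * Eb) ≤ eb * L) :
    ‖Xf β r h t k‖ ≤ (ea + eb) * Y := by
  have e : s + (k : ℝ) - 1 = s + a := by rw [← ha]; ring
  refine cellL l c k1 k2 ψ ψ1 b1 b2 P2 w1 w2 Φ G m0 U R0 β0 c0 E Gc ℓ q T0 Ea ea 0.616851 g2 L ω ρ0 Eb eb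
    B.P.hβ B.P.hκ hs B.P.hT B.P.h0 B.P.h2hi (by norm_num) B.hk1 B.hk2 B.hψ B.hψ1 ?_ ?_ B.hR0 B.hβ0 B.hT0 hY hg0 hg2 ?_
    hψ0 hk0 hb0 hl hP hw2 hw21 hw1 hΦ hG hn1 hn2 hqq hm0 hm00 hU0 hU hR0 hβ01 hbk hc0 hc00 hE0 hE hx hGc
    hT00 hq0 hEa hl0 hea hL0 hL hω hδ hρ hρ0 hEb hGc0 heb
  · rw [e]; exact hb1
  · rw [e]; exact hb2
  · rw [e]; exact hq

/-- crude far copy -/
theorem cU8 (n : ℤ) (a τ1 τm δ c0 E Gc ℓ g2 L ω ρ0 Eb eb : ℝ)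
    (B : By k1 k2 ψ ψ1 R0 β0 T0 β r h κ T) (ha : (k : ℝ) - 1 = a) (hs : t + κ = s * h)
    (ht1 : τ1 ≤ (s + a + 8 * n) * h - κ) (htm : (s + a + 8 * n) * h ≤ τm)
    (hY : eN r κ * (ℓ * Real.exp (-(T * g))) ≤ Y) (hg0 : 0 ≤ g) (hg2 : g ≤ g2)
    (hk0 : 0 < k1) (hR0 : 0 < R0)
    (hδ : 0 < δ) (hδ1 : δ ≤ 1.57) (hδt : 1.5708 - δ < τ1) (htm' : τm ≤ 4.712 + k1)
    (hc0 : 1 ≤ c0 ^ 2 * (6.2831 * k1)) (hc00 : 0 ≤ c0)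
    (hE : δ ≤ E) (hE1 : τm - 5.712 + 1.7183 * k2 ≤ E * k2) (hE2 : E ≤ 1.7183)
    (hGc : c0 * (β0 / (τ1 - 1.5708 + δ) + δ + 3.1416 / R0 + 2 + 2 * β0) ≤ Gc)
    (hl0 : 0 < ℓ)
    (hL0 : 0 < L) (hL : L ^ 4 * (1 + k2 ^ 2) ≤ ℓ ^ 4) (hω : ω + 0.616851 * g2 / (1 + k1 ^ 2) ≤ 1)
    (hδ' : 1 ≤ 2 * R0 * (ω - E)) (hρ : R0 ≤ ρ0 ^ 2) (hρ0 : 0 ≤ ρ0)
    (hEb : Real.exp (-(R0 * (ω - E))) ≤ Eb) (hGc0 : 0 ≤ Gc) (heb : Gc * (ρ0 * Eb) ≤ eb * L) :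
    ‖Xf β r h t k‖ ≤ eb * Y := by
  have e : (s + (k : ℝ) - 1) * h + 2 * Real.pi * n = (s + a + 8 * n) * h := by
    rw [← ha, B.P.hh]; ring
  refine cellU n k1 k2 τ1 τm δ R0 β0 c0 E Gc ℓ 0.616851 g2 L ω ρ0 Eb eb
    B.P.hβ B.P.hκ hs B.P.hT B.P.h0 B.P.h2hi (by norm_num) B.hk1 B.hk2 ?_ ?_ B.hR0 B.hβ0 hY hg0 hg2
    hk0 hR0 hδ hδ1 hδt htm' hc0 hc00 hE hE1 hE2 hGc hl0 hL0 hL hω hδ' hρ hρ0 hEb hGc0 heb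
  · rw [e]; exact ht1
  · rw [e]; exact htm

end cells

end Sok
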