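import Pool.Agent.Lib.MP_816dec_an.R1b8A

/-!
MP_816dec_an (A3, row R1), b = 8: near copies, slope.
-/

set_option autoImplicit false
set_option maxHeartbeats 4000000

open Complex Set Filter Topology Metric

namespace Sok

private theorem aff {a b x x1 x2 : ℝ} (h1 : 0 ≤ a + b * x1) (h2 : 0 ≤ a + b * x2) (hx1 : x1 ≤ x) (hx2 : x ≤ x2) :
    0 ≤ a + b * x := by
  rcases le_total 0 b with hb | hb
  · have := mul_le_mul_of_nonneg_left hx1 hb; linarith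
  · have := mul_le_mul_of_nonpos_left hx2 hb; linarith

section near

variable {k1 k2 ψ ψ1 R0 β0 T0 : ℝ} {β r h κ T t s Y g : ℝ} {k : ℤ}

/-- lower bound of a near copy, `τ ≥ 0` -/
theorem loR8 {t' : ℝ} (a ε d ℓ : ℝ) (P : Q8 β r h κ T) (ha : (k : ℝ) - 1 = a) (ht' : t' = t + a * h)
    (hs : t + κ = s * h) (h0 : 0 ≤ s + a)
    (hD : DomR κ t') (hε : ε ≤ 1) (hJ : ‖HH β (sg κ t') - 1‖ ≤ ε)
    (hd : sD κ t' ≤ d * (1 + κ ^ 2)) (hl0 : 0 ≤ ℓ) (hl : ℓ ^ 4 * d ≤ (1 - ε) ^ 4) :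
    eN r κ * (ℓ * Real.exp (-(T * (1 / 2 * (s + a) ^ 2)))) ≤ ‖Xf β r h t k‖ := by
  subst ht'
  have hk3 : κ ^ 2 ≤ 3 := by
    have := pow_le_pow_left₀ P.κ0.le P.hκ1 2
    norm_num at this ⊢; linarith
  have hτ : 0 ≤ t + a * h + κ := by
    have := mul_nonneg h0 P.h0.le
    linarith
  have hq := low_quad hD hk3 hτ (t + a * h)
  refine X_lo P.hβ P.r0.le P.hκ (t' := t + a * h) (by rw [ha]) hD (d := d) hε hJ ?_ hd hl0 hl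
    (by linear_combination hs) P.hT
  have e : 1 - 1 / 2 * (t + a * h + κ) ^ 2 / (1 + κ ^ 2) = 1 - (t + a * h + κ) ^ 2 / (2 * (1 + κ ^ 2)) := by
    have := P.A0
    field_simp
  rw [e]
  linarith

/-- lower bound of a near copy, `τ ≤ 0` -/
theorem loL8 {t' : ℝ} (a ε d ℓ C τm a1 a2 a3 a4 : ℝ) (P : Q8 β r h κ T) (ha : (k : ℝ) - 1 = a) (ht' : t' = t + a * h)
    (hs : t + κ = s * h) (h0 : s + a ≤ 0) (h1 : -((s + a) * h) ≤ τm)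
    (hD : DomR κ t') (hε : ε ≤ 1) (hJ : ‖HH β (sg κ t') - 1‖ ≤ ε)
    (hd : sD κ t' ≤ d * (1 + κ ^ 2)) (hl0 : 0 ≤ ℓ) (hl : ℓ ^ 4 * d ≤ (1 - ε) ^ 4)
    (hτm : τm ≤ 1)
    (ha1 : κ * (1 / 2 - κ ^ 2 / 6) ≤ a1 * (1 + κ ^ 2) ^ 2) (ha2 : κ ^ 4 ≤ a2 * (1 + κ ^ 2) ^ 3)
    (ha3 : 1 ≤ a3 * (1 + κ ^ 2) ^ 3) (ha4 : κ ≤ a4 * (1 + κ ^ 2)) (h10 : 0 ≤ a1)
    (h20 : 0 ≤ a2) (h30 : 0 ≤ a3) (h40 : 0 ≤ a4)
    (hC : 1 / 2 + a1 * τm + a2 * τm ^ 2 / 12 + (1 + a4 * τm) * (a3 * τm ^ 2 / 12 + a3 * τm ^ 4 / 24) ≤ C) :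
    eN r κ * (ℓ * Real.exp (-(T * (C * (s + a) ^ 2)))) ≤ ‖Xf β r h t k‖ := by
  subst ht'
  have hτ : 0 ≤ -(t + a * h + κ) := by
    have := mul_nonneg (neg_nonneg.2 h0) P.h0.le
    linarith
  have hq := V0_lo hD C τm a1 a2 a3 a4 hτ (by linarith) hτm ha1 ha2 ha3 ha4 h10 h20 h30 h40 hC
  exact X_lo P.hβ P.r0.le P.hκ (t' := t + a * h) (by rw [ha]) hD (d := d) hε hJ hq hd hl0 hl
    (by linear_combination hs) P.hT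

/-- upper bound of a near copy -/
theorem up8 {t' : ℝ} (a ε c d U ℓ q Ea e : ℝ) (B : By k1 k2 ψ ψ1 R0 β0 T0 β r h κ T) (ha : (k : ℝ) - 1 = a)
    (ht' : t' = t + a * h) (hs : t + κ = s * h)
    (hD : DomR κ t') (hε : 0 ≤ ε) (hJ : ‖HH β (sg κ t') - 1‖ ≤ ε)
    (hc : sE κ t' ≤ 1 - c * (t' + κ) ^ 2 / (1 + κ ^ 2))
    (hd : d * (1 + κ ^ 2) ≤ sD κ t') (hd0 : 0 < d) (hU0 : 0 ≤ U) (hU : (1 + ε) ^ 4 ≤ d * U ^ 4)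
    (hY : eN r κ * (ℓ * Real.exp (-(T * g))) ≤ Y)
    (hT00 : 0 ≤ T0) (hq : q ≤ c * (s + a) ^ 2 - g) (hq0 : 0 ≤ q) (hEa : Real.exp (-(T0 * q)) ≤ Ea) (hl0 : 0 < ℓ)
    (he : U * Ea ≤ e * ℓ) : ‖Xf β r h t k‖ ≤ e * Y :=
  cmpT (eN_pos r κ) (X_up B.P.hβ B.P.r0.le B.P.hκ (t' := t') (by rw [ha, ht']) hD hε hJ hc hd0 hd hU0 hU
    (by rw [ht']; linear_combination hs) B.P.hT) hY B.hT0 hT00 hq hq0 hEa hU0 hl0 he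

/-- `VR_box6` at `t + a h` -/
theorem VR8 {t' : ℝ} (l c τ1 τm P w z φ E : ℝ) (B : By k1 k2 ψ ψ1 R0 β0 T0 β r h κ T) (hD : DomR κ t')
    (ht : τ1 ≤ t' + κ) (htm : t' + κ ≤ τm)
    (hψ0 : 0 ≤ ψ1) (hk0 : 0 ≤ k1) (hτ : 0 ≤ τ1)
    (hl : 0 < l) (hP : P = l * τm / (1 + k1 ^ 2)) (hw : w = ψ * (l * τm)) (hw1 : w ≤ 13 / 20)
    (hz : z = ψ1 * (l * τ1)) (hφ : φ = 1 / 2 - z / 6 + z ^ 2 / 24)
    (hE : E = 1 + w + w ^ 2 / 2 + w ^ 3 / 5) (hC : φ ≤ 1 / l - c / l ^ 2)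
    (hnum : E / 2 + P ^ 2 * E ^ 3 / 24 + P ^ 4 * E ^ 5 / 24 - (1 / l - c / l ^ 2) ≤
      k1 ^ 2 * ((1 / l - c / l ^ 2) - φ)) :
    sE κ t' ≤ 1 - c * (t' + κ) ^ 2 / (1 + κ ^ 2) :=
  VR_box6 hD l c k1 ψ ψ1 τ1 τm P w z φ E ht htm hτ B.hk1 B.hψ B.hψ1 hψ0 hk0
    hl hP hw hw1 hz hφ hE hC hnum

/-! ### small helpers -/

theorem mlo8 {x x1 τ1 : ℝ} (P : Q8 β r h κ T) (hx : x1 ≤ x) (hx1 : 0 ≤ x1) (hτ : τ1 ≤ x1 * 0.785398) : τ1 ≤ x * h :=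
  hτ.trans (mul_le_mul hx P.hlo (by norm_num) (hx1.trans hx))

theorem mhi8 {x x2 τ2 : ℝ} (P : Q8 β r h κ T) (hx : x ≤ x2) (hx2 : 0 ≤ x2) (hτ : x2 * 0.7853983 ≤ τ2) : x * h ≤ τ2 :=
  (mul_le_mul hx P.hhi P.h0.le hx2).trans hτ

theorem mloN8 {x x1 τ1 : ℝ} (P : Q8 β r h κ T) (hx : x ≤ -x1) (hx1 : 0 ≤ x1) (hτ : τ1 ≤ x1 * 0.785398) :
    τ1 ≤ -(x * h) := by
  have := mlo8 P (x := -x) (x1 := x1) (by linarith) hx1 hτ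
  linarith

theorem mhiN8 {x x2 τ2 : ℝ} (P : Q8 β r h κ T) (hx : -x2 ≤ x) (hx2 : 0 ≤ x2) (hτ : x2 * 0.7853983 ≤ τ2) :
    -(x * h) ≤ τ2 := by
  have := mhi8 P (x := -x) (x2 := x2) (by linarith) hx2 hτ
  linarith

theorem half8 {a τ1 : ℝ} (hs : t + κ = s * h) (hp : Real.pi / 2 ≤ t + a * h) (hτ : τ1 ≤ 1.5707) :
    τ1 ≤ (s + a + 8 * ((0 : ℤ) : ℝ)) * h - κ := by
  have hpi := Real.pi_gt_d6
  have e : (s + a + 8 * ((0 : ℤ) : ℝ)) * h - κ = t + a * h := by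
    push_cast
    linear_combination (-1 : ℝ) * hs
  rw [e]
  norm_num at hpi hτ
  linarith

theorem full8 {a x1 τ1 k2 : ℝ} (P : Q8 β r h κ T) (hk : κ ≤ k2) (hx : x1 ≤ s + a + 8 * ((1 : ℤ) : ℝ)) (hx1 : 0 ≤ x1)
    (hτ : τ1 ≤ x1 * 0.785398 - k2) : τ1 ≤ (s + a + 8 * ((1 : ℤ) : ℝ)) * h - κ := by
  have := mlo8 P hx hx1 (le_refl _)
  generalize (s + a + 8 * ((1 : ℤ) : ℝ)) * h = z at this ⊢
  linarith

end near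

/-- the lower bound on the left side from the box -/
theorem loLB8 {k1 k2 ψ ψ1 R0 β0 T0 : ℝ} {β r h κ T t t' s : ℝ} {k : ℤ} (a ε d ℓ C τm b1 b2 a3 : ℝ)
    (B : By k1 k2 ψ ψ1 R0 β0 T0 β r h κ T) (ha : (k : ℝ) - 1 = a) (ht' : t' = t + a * h)
    (hs : t + κ = s * h) (h0 : s + a ≤ 0) (h1 : -((s + a) * h) ≤ τm)
    (hD : DomR κ t') (hε : ε ≤ 1) (hJ : ‖HH β (sg κ t') - 1‖ ≤ ε)
    (hd : sD κ t' ≤ d * (1 + κ ^ 2)) (hl0 : 0 ≤ ℓ) (hl : ℓ ^ 4 * d ≤ (1 - ε) ^ 4)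
    (hτm : τm ≤ 1) (hk0 : 0 ≤ k1) (hψ0 : 0 ≤ ψ)
    (hb1 : 1 / 2 - k1 ^ 2 / 6 ≤ b1 * (1 + k1 ^ 2)) (hb10 : 0 ≤ b1)
    (hb2 : k2 ^ 2 * (1 - b2) ≤ b2) (hb20 : 0 ≤ b2) (hb21 : b2 ≤ 1)
    (ha3 : 1 ≤ a3 * (1 + k1 ^ 2) ^ 3) (h30 : 0 ≤ a3)
    (hC : 1 / 2 + (ψ * b1) * τm + (ψ ^ 2 * b2) * τm ^ 2 / 12 + (1 + ψ * τm) * (a3 * τm ^ 2 / 12 + a3 * τm ^ 4 / 24) ≤ C) :
    eN r κ * (ℓ * Real.exp (-(T * (C * (s + a) ^ 2)))) ≤ ‖Xf β r h t k‖ := by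
  have hκ := B.P.κ0
  have hA := B.P.A0
  have hψ : κ ≤ ψ * (1 + κ ^ 2) := by
    have := B.hψ
    rwa [div_le_iff₀ hA] at this
  have hk : k1 ^ 2 ≤ κ ^ 2 := pow_le_pow_left₀ hk0 B.hk1 2
  have hkk : κ ^ 2 ≤ k2 ^ 2 := pow_le_pow_left₀ hκ.le B.hk2 2
  have hk3 : κ ^ 2 ≤ 3 := by
    have := pow_le_pow_left₀ hκ.le B.P.hκ1 2
    norm_num at this ⊢; linarith
  refine loL8 a ε d ℓ C τm (ψ * b1) (ψ ^ 2 * b2) a3 ψ B.P ha ht' hs h0 h1 hD hε hJ hd hl0 hl hτm ?_ ?_ ?_ hψ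
    (by positivity) (by positivity) h30 hψ0 hC
  · have h2 : 1 / 2 - κ ^ 2 / 6 ≤ b1 * (1 + κ ^ 2) := by
      have := mul_le_mul_of_nonneg_left hk hb10
      linarith
    have h3 : 0 ≤ 1 / 2 - κ ^ 2 / 6 := by linarith
    have h4 := mul_le_mul hψ h2 h3 (by positivity)
    linarith
  · have h2 : κ ^ 2 ≤ b2 * (1 + κ ^ 2) := by
      have := mul_le_mul_of_nonneg_right hkk (sub_nonneg.2 hb21)
      linarith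
    have h3 : κ ^ 2 ≤ (ψ * (1 + κ ^ 2)) ^ 2 := pow_le_pow_left₀ hκ.le hψ 2
    have h4 := mul_le_mul h3 h2 (sq_nonneg κ) (by positivity)
    linarith
  · refine ha3.trans (mul_le_mul_of_nonneg_left ?_ h30)
    exact pow_le_pow_left₀ (by positivity) (by linarith) 3

theorem Q8.r_le {β r h κ T k2 ν : ℝ} (P : Q8 β r h κ T) (hk2 : κ ≤ k2) (hν : 1 + k2 ^ 2 ≤ ν * 0.61685) : r ≤ ν * T := by
  have h1 := P.TA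
  have hT : 0 < T := by have := P.T5; linarith
  have h2 := mul_le_mul_of_nonneg_left P.h2lo P.r0.le
  have h3 : κ ^ 2 ≤ k2 ^ 2 := pow_le_pow_left₀ P.κ0.le hk2 2
  have h4 : T * (1 + κ ^ 2) ≤ T * (ν * 0.61685) := mul_le_mul_of_nonneg_left (by linarith) hT.le
  linarith

theorem Q8.Rge {β r h κ T k1 R0 : ℝ} (P : Q8 β r h κ T) (hk0 : 0 ≤ k1) (hk1 : k1 ≤ κ) (h : R0 ≤ 8.821 * (1 + k1 ^ 2)) :
    R0 ≤ r := by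
  have h3 : k1 ^ 2 ≤ κ ^ 2 := pow_le_pow_left₀ hk0 hk1 2
  have := P.hR
  linarith

/-! ### the slope -/

theorem Ld_close8 {β r h κ T t t' δ ε : ℝ} {k : ℤ} (P : Q8 β r h κ T) (ht : t' = t + (k - 1) * h) (hD : DomR κ t')
    (hδ : 0 < δ) (hε : ε < 1) (him : ∀ s : ℂ, ‖s - sg κ t'‖ ≤ δ → -1 < s.im)
    (hJ : ∀ s : ℂ, ‖s - sg κ t'‖ ≤ δ → ‖HH β s - 1‖ ≤ ε) :
    ‖Ld β r h t k - (sg κ t' / β + I / 2 * sg κ t' / (1 - I * sg κ t') ^ 2)‖ ≤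
      ‖sg κ t' / (1 - I * sg κ t')‖ * (ε / (δ * (1 - ε))) := by
  have hs0 : sg κ t' ≠ 0 := by
    intro h0
    have h1 := congrArg Complex.re h0
    unfold sg at h1
    simp at h1
    exact absurd h1 (sx_pos hD).ne'
  obtain ⟨-, h2⟩ := slope_of_disc P.hβ hδ hε hs0 him hJ
  have hκ := P.hκ
  have hz : zs β (sg κ t') = r * cexp (I * ((t + (k - 1) * h + β / 2 : ℝ) : ℂ)) := by
    have h1 := s_point hD P.hβ.ne'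
    have e : κ / β = r := by rw [hκ]; have := P.hβ; field_simp
    rw [e] at h1
    rw [mul_comm I, ← ht, ← h1]
    rfl
  have hX : Xf β r h t k = F (cexp (I * β)) (zs β (sg κ t')) := by
    unfold Xf
    rw [hz]
  have hX1 : Xf β r h (t + β) k = F (cexp (I * β)) (cexp (I * β) * zs β (sg κ t')) := by
    unfold Xf
    rw [hz]
    congr 1
    rw [mul_left_comm, ← Complex.exp_add]
    congr 2
    push_cast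
    ring
  have e3 : Ld β r h t k =
      zs β (sg κ t') * F (cexp (I * β)) (cexp (I * β) * zs β (sg κ t')) / F (cexp (I * β)) (zs β (sg κ t')) := by
    unfold Ld
    rw [hX1, hX, hz]
  rw [e3]
  exact h2

end Sok
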