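import Pool.Agent.Lib.MP_816dec_an.R1b8C

/-!
MP_816dec_an (A3, row R1), b = 8: two more small lemmas.
-/

set_option autoImplicit false
set_option maxHeartbeats 4000000

open Complex Set Filter Topology Metric

namespace Sok

/-- the left table on `[.4, .8]` -/
theorem VLA8 {κ t : ℝ} (h : DomR κ t) (hk : κ ≤ 1.39) (h0 : t + κ ≤ -0.4) (h1 : -0.8 ≤ t + κ) :
    sE κ t ≤ 1 - 0.47 * (t + κ) ^ 2 / (1 + κ ^ 2) := by
  have hA : 0 < 1 + κ ^ 2 := by positivity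
  have key : ∀ c : ℝ, 0.47 ≤ c → sE κ t ≤ 1 - c * (t + κ) ^ 2 / (1 + κ ^ 2) →
      sE κ t ≤ 1 - 0.47 * (t + κ) ^ 2 / (1 + κ ^ 2) := by
    intro c hc h2
    have : 0.47 * (t + κ) ^ 2 / (1 + κ ^ 2) ≤ c * (t + κ) ^ 2 / (1 + κ ^ 2) :=
      div_le_div_of_nonneg_right (mul_le_mul_of_nonneg_right hc (sq_nonneg _)) hA.le
    linarith
  rcases le_total (-(t + κ)) 0.5 with a | a
  · exact key _ (by norm_num) (VL_04_05 h (by linarith) (by linarith) a)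
  rcases le_total (-(t + κ)) 0.6 with b | b
  · exact key _ (by norm_num) (VL_05_06 h (by linarith) a b)
  rcases le_total (-(t + κ)) 0.7 with c | c
  · exact key _ (by norm_num) (VL_06_07 h (by linarith) b c)
  · exact VL_07_08 h (by linarith) c (by linarith)

theorem fullz8 {β r h κ T s a x1 τ1 k2 : ℝ} (P : Q8 β r h κ T) (hk : κ ≤ k2) (hx : x1 ≤ s + a + 8 * ((0 : ℤ) : ℝ))
    (hx1 : 0 ≤ x1) (hτ : τ1 ≤ x1 * 0.785398 - k2) : τ1 ≤ (s + a + 8 * ((0 : ℤ) : ℝ)) * h - κ := by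
  have := mlo8 P hx hx1 (le_refl _)
  generalize (s + a + 8 * ((0 : ℤ) : ℝ)) * h = z at this ⊢
  linarith

end Sok
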