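import Pool.Agent.Lib.MP_816dec_an.R1KS2

/-!
MP_816dec_an (A3, row R1), SINGLE CASE `b = 8`, `κ = β r ≤ 0.3`, `r ≥ 10`.
-/

set_option autoImplicit false

open Complex Set Filter Topology Metric

namespace Sok

private theorem far8s (f : ℤ → ℝ) : ∑ k ∈ far (-3) 8, f k = f (-3) + f (-2) + f (-1) + f 2 + f 3 + f 4 := by
  have h : far (-3) 8 = {-3, -2, -1, 2, 3, 4} := by decide
  rw [h]
  simp [add_assoc]

private theorem far8s_mem {k : ℤ} (hk : k ∈ far (-3) 8) : k = -3 ∨ k = -2 ∨ k = -1 ∨ k = 2 ∨ k = 3 ∨ k = 4 := by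
  have h : far (-3) 8 = {-3, -2, -1, 2, 3, 4} := by decide
  rw [h] at hk
  simpa using hk

/-- relative sizes -/
private noncomputable def e8 (k : ℤ) : ℝ :=
  if k = -1 then 0.0242 else if k = 2 then 0.0352 else 0.0004

/-- relative derivatives, divided by `r` -/
private noncomputable def w8 (k : ℤ) : ℝ :=
  if k = -3 then 0.0037 else if k = -2 then 0.0028 else if k = -1 then 0.1105 else if k = 2 then 0.1528
  else if k = 3 then 0.0027 else if k = 4 then 0.0036 else 0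

/-! ### the linear upper bounds -/

private theorem g47 {κ : ℝ} (hk : 0 < κ) (hκ : κ ≤ 0.3) : gG κ 0.47 ≤ 1.1407 :=
  ks_g 0.47 1.1407 0.86849 1.15143 hk hκ
    (ex_um 0.141 (by norm_num) (by norm_num) (by norm_num) (by norm_num))
    (ex_up 0.141 (by norm_num) (by norm_num) (by norm_num) (by norm_num)) (by norm_num) (by norm_num)

private theorem g65 {κ : ℝ} (hk : 0 < κ) (hκ : κ ≤ 0.3) : gG κ 0.65 ≤ 1.2963 :=
  ks_g 0.65 1.2963 0.82284 1.21532 hk hκ
    (ex_um 0.195 (by norm_num) (by norm_num) (by norm_num) (by norm_num))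
    (ex_up 0.195 (by norm_num) (by norm_num) (by norm_num) (by norm_num)) (by norm_num) (by norm_num)

private theorem g70 {κ : ℝ} (hk : 0 < κ) (hκ : κ ≤ 0.3) : gG κ 0.7 ≤ 1.3558 :=
  ks_g 0.7 1.3558 0.81059 1.23368 hk hκ
    (ex_um 0.21 (by norm_num) (by norm_num) (by norm_num) (by norm_num))
    (ex_up 0.21 (by norm_num) (by norm_num) (by norm_num) (by norm_num)) (by norm_num) (by norm_num)

private theorem g46 {κ : ℝ} (hk : 0 < κ) (hκ : κ ≤ 0.3) : gG κ (-0.46) ≤ 1.1081 :=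
  ks_g (-0.46) 1.1081 1.14798 0.8711 hk hκ
    (ex_up 0.138 (by norm_num) (by norm_num) (by norm_num) (by norm_num))
    (ex_um 0.138 (by norm_num) (by norm_num) (by norm_num) (by norm_num)) (by norm_num) (by norm_num)

private theorem g90 {κ : ℝ} (hk : 0 < κ) (hκ : κ ≤ 0.3) : gG κ (-0.9) ≤ 1.4545 :=
  ks_g (-0.9) 1.4545 1.30997 0.76338 hk hκ
    (ex_up 0.27 (by norm_num) (by norm_num) (by norm_num) (by norm_num))
    (ex_um 0.27 (by norm_num) (by norm_num) (by norm_num) (by norm_num)) (by norm_num) (by norm_num)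

/-- data of a point on the circle -/
private structure P8 (β r h t κ : ℝ) : Prop where
  hβ : 0 < β
  hr : 10 ≤ r
  hκ : κ = β * r
  h3 : β * r ≤ 0.3
  h1 : 0.785398 ≤ h
  h2 : h ≤ 0.7853983
  h4 : 2 * h = Real.pi / 2

private theorem P8.k0 {β r h t κ : ℝ} (H : P8 β r h t κ) : 0 < κ := by
  rw [H.hκ]; have := H.hβ; have := H.hr; positivity

private theorem P8.k3 {β r h t κ : ℝ} (H : P8 β r h t κ) : κ ≤ 0.3 := by rw [H.hκ]; exact H.h3

/-- window, copy 1 as reference: copies 2, 3, 4 -/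
private theorem win1 {β r h t κ : ℝ} (H : P8 β r h t κ) (ha : 0.4 * h ≤ t + κ) (hb : t + κ ≤ 0.63 * h) {u : ℝ} (hu : 0 ≤ u)
    (hu' : u ≤ β) : ‖Xf β r h (t + u) 2‖ ≤ 0.0352 * ‖Xf β r h t 1‖ ∧ ‖Xf β r h (t + u) 3‖ ≤ 0.0004 * ‖Xf β r h t 1‖ ∧
      ‖Xf β r h (t + u) 4‖ ≤ 0.0004 * ‖Xf β r h t 1‖ := by
  have hk := H.k0
  have hk3 := H.k3
  obtain ⟨hβ, hr, hκ, h3, h1, h2, h4⟩ := H
  have hb3 := ks_beta hβ hr h3
  have hpi := Real.pi_gt_d6
  have hpi' := Real.pi_lt_d6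
  have t1 : -(Real.pi / 2) < t := by linarith
  have t2 : t < Real.pi / 2 := by linarith
  have hd := ks_dom hk t1 t2
  have hV := ks_Lr hd hk3 (by linarith)
  have hD := (ks_sD_r hd hk3 (by linarith)).2
  have hY : 0.8048 * Real.exp (r * sE κ t) ≤ ‖Xf β r h t 1‖ := by
    rw [hκ] at hD ⊢
    exact ks_loD 1.387 0.8048 hβ hr h3 (by push_cast; ring) t1 t2 (by linarith) (by norm_num)
  obtain ⟨τ, hτ⟩ : ∃ τ, τ = t + κ := ⟨_, rfl⟩
  rw [← hτ] at ha hb hV
  have q1 : 0 ≤ (τ - 0.314159) * (0.494802 - τ) := mul_nonneg (by linarith) (by linarith)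
  have hV2 : 0.877 ≤ 1 - τ ^ 2 / 2 := by linarith
  refine ⟨?_, ?_, ?_⟩
  · have s1 : -(Real.pi / 2) < t + u + h := by linarith
    have s2 : t + u + h < Real.pi / 2 := by linarith
    refine (ks_upR hβ hr h3 (t' := t + u + h) (by push_cast; ring) s1 s2 (by linarith)).trans ?_
    refine v5_term 0.02512 0.369 hr (by norm_num) hY (by norm_num) ?_
      (ex_un 3 0.69 (by norm_num) (by norm_num) (by norm_num) (by norm_num)) (by norm_num) (by norm_num)
    rw [← hκ]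
    have g3 := V_up (ks_dom hk s1 s2) 0.65 (g65 hk hk3)
    have g4 : t + u + h + κ = τ + u + h := by rw [hτ]; ring
    rw [g4] at g3
    linarith
  · refine ks_farL hβ hr h3 (t' := t + u + 2 * h) (by push_cast; ring) 0.8048 0.87 0.000168 0.0004 (by norm_num) hY
      ?_ ?_ ?_ ?_ (by norm_num)
      (ex_un 8 0.7 (by norm_num) (by norm_num) (by norm_num) (by norm_num)) (by norm_num)
    · linarith
    · linarith
    · intro g1 g2
      linarith
    · linarith
  · refine ks_farL hβ hr h3 (t' := t + u + 3 * h) (by push_cast; ring) 0.8048 0.87 0.000168 0.0004 (by norm_num) hY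
      ?_ ?_ ?_ ?_ (by norm_num)
      (ex_un 8 0.7 (by norm_num) (by norm_num) (by norm_num) (by norm_num)) (by norm_num)
    · linarith
    · linarith
    · intro g1 g2
      linarith
    · linarith

/-- data of the copy 0 in the window -/
private theorem dat0 {β r h t κ : ℝ} (H : P8 β r h t κ) (ha : 0.4 * h ≤ t + κ) (hb : t + κ ≤ 0.63 * h) :
    0.868 ≤ sE κ (t - h) ∧ 1 - 0.5922 * (t - h + κ) ^ 2 ≤ sE κ (t - h) ∧
      κ * Real.exp (-sy κ (t - h)) ≤ 0.3587 ∧ 0.772 ≤ sD κ (t - h) ∧ -0.1785 ≤ sy κ (t - h) := by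
  have hk := H.k0
  have hk3 := H.k3
  obtain ⟨hβ, hr, hκ, h3, h1, h2, h4⟩ := H
  have hpi := Real.pi_gt_d6
  have hpi' := Real.pi_lt_d6
  have t1 : -(Real.pi / 2) < t - h := by linarith
  have t2 : t - h < Real.pi / 2 := by linarith
  have hd := ks_dom hk t1 t2
  have hV := ks_Ll 0.47124 0.5922 hd hk3 (by linarith) (by norm_num) (by norm_num) (by norm_num)
  obtain ⟨x, hx⟩ : ∃ x, x = t - h + κ := ⟨_, rfl⟩
  have hx0 : t - h + κ ≤ 0 := by linarith
  rw [← hx] at hV hx0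
  have q1 : 0 ≤ (x + 0.47124) * (-0.2905 - x) := mul_nonneg (by linarith) (by linarith)
  have hV2 : 0.868 ≤ 1 - 0.5922 * x ^ 2 := by linarith
  have e17 : Real.exp 0.1785 ≤ 1.1955 := ex_up 0.1785 le_rfl (by norm_num) (by norm_num) (by norm_num)
  obtain ⟨r1, r2, r3⟩ := ks_rho (κ := κ) (t := t - h) 0.868 0.4968 0.1785 1.1955 0.3587 hd hk3
    (by linarith) (by linarith) (by norm_num) (by norm_num) (by norm_num) (by norm_num)
    (by norm_num at e17 ⊢; linarith) e17 (by norm_num) (by norm_num)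
  refine ⟨by linarith, by rw [← hx]; exact hV, r1, le_trans (by norm_num) r2, r3⟩

/-- window, copy 0 as reference: copies -1, -2, -3 -/
private theorem win0 {β r h t κ : ℝ} (H : P8 β r h t κ) (ha : 0.4 * h ≤ t + κ) (hb : t + κ ≤ 0.63 * h) {u : ℝ} (hu : 0 ≤ u)
    (hu' : u ≤ β) : ‖Xf β r h (t + u) (-1)‖ ≤ 0.0242 * ‖Xf β r h t 0‖ ∧
      ‖Xf β r h (t + u) (-2)‖ ≤ 0.0004 * ‖Xf β r h t 0‖ ∧ ‖Xf β r h (t + u) (-3)‖ ≤ 0.0004 * ‖Xf β r h t 0‖ := by
  obtain ⟨v1, hV, r1, -, -⟩ := dat0 H ha hb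
  have hk := H.k0
  have hk3 := H.k3
  obtain ⟨hβ, hr, hκ, h3, h1, h2, h4⟩ := H
  have hb3 := ks_beta hβ hr h3
  have hpi := Real.pi_gt_d6
  have hpi' := Real.pi_lt_d6
  have t1 : -(Real.pi / 2) < t - h := by linarith
  have t2 : t - h < Real.pi / 2 := by linarith
  have hd := ks_dom hk t1 t2
  have hD := ks_sD_l 0.3587 hd (by linarith) r1
  have hY : 0.8473 * Real.exp (r * sE κ (t - h)) ≤ ‖Xf β r h t 0‖ := by
    rw [hκ] at hD ⊢
    exact ks_loD (1 + 0.3587 ^ 2) 0.8473 hβ hr h3 (by push_cast; ring) t1 t2 hD (by norm_num)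
  obtain ⟨x, hx⟩ : ∃ x, x = t - h + κ := ⟨_, rfl⟩
  rw [← hx] at hV
  have q1 : 0 ≤ (x + 0.47124) * (-0.2905 - x) := mul_nonneg (by linarith) (by linarith)
  refine ⟨?_, ?_, ?_⟩
  · refine ks_farL hβ hr h3 (t' := t + u - 2 * h) (by push_cast; ring) 0.8473 0.436 0.0128 0.0242 (by norm_num) hY
      ?_ ?_ ?_ ?_ (by norm_num)
      (ex_un 4 0.36 (by norm_num) (by norm_num) (by norm_num) (by norm_num)) (by norm_num)
    · linarith
    · linarith
    · intro g1 g2
      rw [← hκ]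
      have g3 := V_up (ks_dom hk g1 g2) (-0.9) (g90 hk hk3)
      have g4 : t + u - 2 * h + κ = x + u - h := by rw [hx]; ring
      rw [g4] at g3
      linarith
    · linarith
  · refine ks_farL hβ hr h3 (t' := t + u - 3 * h) (by push_cast; ring) 0.8473 0.868 0.000171 0.0004 (by norm_num) hY
      ?_ ?_ ?_ ?_ (by norm_num)
      (ex_un 8 0.68 (by norm_num) (by norm_num) (by norm_num) (by norm_num)) (by norm_num)
    · linarith
    · linarith
    · intro g1 g2
      linarith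
    · linarith
  · refine ks_farL hβ hr h3 (t' := t + u - 4 * h) (by push_cast; ring) 0.8473 0.868 0.000171 0.0004 (by norm_num) hY
      ?_ ?_ ?_ ?_ (by norm_num)
      (ex_un 8 0.68 (by norm_num) (by norm_num) (by norm_num) (by norm_num)) (by norm_num)
    · linarith
    · linarith
    · intro g1 g2
      linarith
    · linarith

/-- window: the logarithmic derivatives -/
private theorem slope8 {β r h t κ : ℝ} (H : P8 β r h t κ) (ha : 0.4 * h ≤ t + κ) (hb : t + κ ≤ 0.63 * h) :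
    Xf β r h t 0 ≠ 0 ∧ ‖Ld β r h t 1‖ ≤ 1.038 * r ∧ ‖Ld β r h t 0‖ ≤ 1.264 * r ∧
      0.47 * r ≤ (Ld β r h t 1 - Ld β r h t 0).im := by
  obtain ⟨v1, hV, r1, hD0, r3⟩ := dat0 H ha hb
  have hk := H.k0
  have hk3 := H.k3
  obtain ⟨hβ, hr, hκ, h3, h1, h2, h4⟩ := H
  have hb3 := ks_beta hβ hr h3
  have hpi := Real.pi_gt_d6
  have hpi' := Real.pi_lt_d6
  have t1 : -(Real.pi / 2) < t := by linarith
  have t2 : t < Real.pi / 2 := by linarith
  have s1 : -(Real.pi / 2) < t - h := by linarith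
  have s2 : t - h < Real.pi / 2 := by linarith
  have hd := ks_dom hk t1 t2
  have hd0 := ks_dom hk s1 s2
  have e17 : Real.exp 0.1785 ≤ 1.1955 := ex_up 0.1785 le_rfl (by norm_num) (by norm_num) (by norm_num)
  have hy := sy_nonneg hd (by linarith)
  have hey : Real.exp (-sy κ t) ≤ 1 := Real.exp_le_one_iff.2 (by linarith)
  have hρ1 : κ * Real.exp (-sy κ t) ≤ 0.3 := by
    calc κ * Real.exp (-sy κ t) ≤ 0.3 * 1 := mul_le_mul hk3 hey (Real.exp_pos _).le (by norm_num)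
      _ = 0.3 := by norm_num
  have hD1 := (ks_sD_r hd hk3 (by linarith)).1
  have hr0 : 0 < r := by linarith
  -- slopes
  have p1 := ks_sp_r2 0.494802 0.8063 hd hk3 (by linarith) (by linarith) (by norm_num) (by norm_num) (by norm_num)
  have hV1 : sE κ (t - h) ≤ 1 := by
    have q0 := ks_Ql 0.6 1.15 hd0 hk3 (by linarith) (by norm_num) (by linarith) (by norm_num)
    have : 0 ≤ (t - h + κ) ^ 2 / (2 * 1.15) := by positivity
    linarith
  have p0 := ks_sp_l2 0.47124 0.868 0.1785 1.1955 0.511 0.8264 hd0 hk3 (by linarith) (by linarith) v1 hV1 (by linarith)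
    (by norm_num) e17 (by norm_num) (by norm_num) (by norm_num) (by norm_num) (by norm_num)
  have hs : 0.579 ≤ sp κ t - sp κ (t - h) := by
    obtain ⟨τ, hτ⟩ : ∃ τ, τ = t + κ := ⟨_, rfl⟩
    have e : t - h + κ = τ - h := by rw [hτ]; ring
    rw [e] at p0
    rw [← hτ] at p1 ha hb
    have q1 : 0 ≤ (τ - 0.314159) * (0.494802 - τ) := mul_nonneg (by linarith) (by linarith)
    linarith
  have hs2 := mul_le_mul_of_nonneg_left hs hr0.le
  rw [hκ] at hρ1 hD1 r1 hD0
  obtain ⟨-, -, c1, c2⟩ := ks_Ld (k := 1) (t' := t) (h := h) (t := t) 0.3 1 0.19 0.763 0.229 0.379 hβ hr h3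
    (by push_cast; ring) t1 t2 hρ1 (by norm_num) hD1 (by norm_num) (by norm_num) (by norm_num) (by norm_num)
    (by norm_num) (by norm_num) (by norm_num)
  obtain ⟨d0, -, d1, d2⟩ := ks_Ld (k := 0) (t' := t - h) (h := h) (t := t) 0.3587 0.772 0.1313 1.104 0.4508 0.6832 hβ hr h3
    (by push_cast; ring) s1 s2 r1 (by norm_num) hD0 (by norm_num) (by norm_num) (by norm_num) (by norm_num)
    (by norm_num) (by norm_num) (by norm_num)
  rw [← hκ] at c1 c2 d1 d2
  refine ⟨d0, ?_, ?_, ?_⟩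
  · have := mul_le_mul_of_nonneg_left hey hr0.le
    linarith
  · have e1 : Real.exp (-sy κ (t - h)) ≤ 1.1955 := (Real.exp_le_exp.2 (by linarith)).trans e17
    have := mul_le_mul_of_nonneg_left e1 hr0.le
    linarith
  · rw [Complex.sub_im]
    have a1 := (abs_le.1 c1).1
    have a2 := (abs_le.1 d1).2
    linarith

/-- outside the window, left part: the far copies -/
private theorem out1f {β r h t κ : ℝ} (H : P8 β r h t κ) (ha : 0 ≤ t + κ) (hb : t + κ < 0.4 * h) :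
    0.8206 * Real.exp (r * sE κ t) ≤ ‖Xf β r h t 1‖ ∧
    ‖Xf β r h t (-3)‖ ≤ 0.0003 * ‖Xf β r h t 1‖ ∧ ‖Xf β r h t (-2)‖ ≤ 0.0003 * ‖Xf β r h t 1‖ ∧
    ‖Xf β r h t (-1)‖ ≤ 0.0038 * ‖Xf β r h t 1‖ ∧ ‖Xf β r h t 3‖ ≤ 0.0013 * ‖Xf β r h t 1‖ ∧
    ‖Xf β r h t 4‖ ≤ 0.0003 * ‖Xf β r h t 1‖ := by
  have hk := H.k0
  have hk3 := H.k3
  obtain ⟨hβ, hr, hκ, h3, h1, h2, h4⟩ := H
  have hb3 := ks_beta hβ hr h3
  have hpi := Real.pi_gt_d6
  have hpi' := Real.pi_lt_d6
  have t1 : -(Real.pi / 2) < t := by linarith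
  have t2 : t < Real.pi / 2 := by linarith
  have hd := ks_dom hk t1 t2
  have hV := ks_Lr hd hk3 ha
  have hD := (ks_sD_r hd hk3 ha).2
  have hY : 0.8206 * Real.exp (r * sE κ t) ≤ ‖Xf β r h t 1‖ := by
    rw [hκ] at hD ⊢
    exact ks_loD 1.2786 0.8206 hβ hr h3 (by push_cast; ring) t1 t2 (by linarith) (by norm_num)
  obtain ⟨τ, hτ⟩ : ∃ τ, τ = t + κ := ⟨_, rfl⟩
  rw [← hτ] at ha hb hV
  have q1 : 0 ≤ τ * (0.31416 - τ) := mul_nonneg (by linarith) (by linarith)
  have hV2 : 0.9506 ≤ 1 - τ ^ 2 / 2 := by linarith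
  refine ⟨hY, ?_, ?_, ?_, ?_, ?_⟩
  · refine ks_farL hβ hr h3 (t' := t - 4 * h) (by push_cast; ring) 0.8206 0.9 0.000124 0.0003 (by norm_num) hY
      ?_ ?_ ?_ ?_ (by norm_num)
      (ex_un 9 0 (by norm_num) (by norm_num) (by norm_num) (by norm_num)) (by norm_num)
    · linarith
    · linarith
    · intro g1 g2
      linarith
    · linarith
  · refine ks_farL hβ hr h3 (t' := t - 3 * h) (by push_cast; ring) 0.8206 0.9 0.000124 0.0003 (by norm_num) hY
      ?_ ?_ ?_ ?_ (by norm_num)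
      (ex_un 9 0 (by norm_num) (by norm_num) (by norm_num) (by norm_num)) (by norm_num)
    · linarith
    · linarith
    · intro g1 g2
      linarith
    · linarith
  · refine ks_farL hβ hr h3 (t' := t - 2 * h) (by push_cast; ring) 0.8206 0.627 0.0019 0.0038 (by norm_num) hY
      ?_ ?_ ?_ ?_ (by norm_num)
      (ex_un 6 0.27 (by norm_num) (by norm_num) (by norm_num) (by norm_num)) (by norm_num)
    · linarith
    · linarith
    · intro g1 g2
      rw [← hκ]
      have g3 := V_up (ks_dom hk g1 g2) (-0.9) (g90 hk hk3)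
      have g4 : t - 2 * h + κ = τ - 2 * h := by rw [hτ]; ring
      rw [g4] at g3
      linarith
    · linarith
  · refine ks_farL hβ hr h3 (t' := t + 2 * h) (by push_cast; ring) 0.8206 0.74 0.00062 0.0013 (by norm_num) hY
      ?_ ?_ ?_ ?_ (by norm_num)
      (ex_un 7 0.4 (by norm_num) (by norm_num) (by norm_num) (by norm_num)) (by norm_num)
    · linarith
    · linarith
    · intro g1 g2
      rw [← hκ]
      have g3 := V_up (ks_dom hk g1 g2) 0.7 (g70 hk hk3)
      have g4 : t + 2 * h + κ = τ + 2 * h := by rw [hτ]; ring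
      rw [g4] at g3
      linarith
    · linarith
  · refine ks_farL hβ hr h3 (t' := t + 3 * h) (by push_cast; ring) 0.8206 0.9 0.000124 0.0003 (by norm_num) hY
      ?_ ?_ ?_ ?_ (by norm_num)
      (ex_un 9 0 (by norm_num) (by norm_num) (by norm_num) (by norm_num)) (by norm_num)
    · linarith
    · linarith
    · intro g1 g2
      linarith
    · linarith

/-- outside the window, left part: the copies 0 and 2 -/
private theorem out1n {β r h t κ : ℝ} (H : P8 β r h t κ) (ha : 0 ≤ t + κ) (hb : t + κ < 0.4 * h)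
    (hY : 0.8206 * Real.exp (r * sE κ t) ≤ ‖Xf β r h t 1‖) :
    ‖Xf β r h t 0‖ + ‖Xf β r h t 2‖ ≤ 0.95 * ‖Xf β r h t 1‖ := by
  have hk := H.k0
  have hk3 := H.k3
  obtain ⟨hβ, hr, hκ, h3, h1, h2, h4⟩ := H
  have hb3 := ks_beta hβ hr h3
  have hpi := Real.pi_gt_d6
  have hpi' := Real.pi_lt_d6
  have t1 : -(Real.pi / 2) < t := by linarith
  have t2 : t < Real.pi / 2 := by linarith
  have s1 : -(Real.pi / 2) < t - h := by linarith
  have s2 : t - h < Real.pi / 2 := by linarith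
  have u1 : -(Real.pi / 2) < t + h := by linarith
  have u2 : t + h < Real.pi / 2 := by linarith
  have hd := ks_dom hk t1 t2
  have hd0 := ks_dom hk s1 s2
  have hd2 := ks_dom hk u1 u2
  have hV := ks_Lr hd hk3 ha
  have hX2 : ‖Xf β r h t 2‖ ≤ 1.1267 * Real.exp (r * sE κ (t + h)) := by
    rw [hκ]
    exact ks_upR hβ hr h3 (by push_cast; ring) u1 u2 (by linarith)
  have g0 := V_up hd0 (-0.46) (g46 hk hk3)
  have g2 := V_up hd2 0.65 (g65 hk hk3)
  have hY0 : 0 < ‖Xf β r h t 1‖ := lt_of_lt_of_le (by positivity) hY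
  rcases le_total (t + κ) (0.3 * h) with hs | hs
  · have hX0 : ‖Xf β r h t 0‖ ≤ 1.578 * Real.exp (r * sE κ (t - h)) := by
      rw [hκ]
      exact ks_up hβ hr h3 (by push_cast; ring) s1 s2
    obtain ⟨τ, hτ⟩ : ∃ τ, τ = t + κ := ⟨_, rfl⟩
    have g4 : t - h + κ = τ - h := by rw [hτ]; ring
    have g5 : t + h + κ = τ + h := by rw [hτ]; ring
    rw [g4] at g0
    rw [g5] at g2
    rw [← hτ] at ha hb hV hs
    have q1 : 0 ≤ τ * (0.23562 - τ) := mul_nonneg (by linarith) (by linarith)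
    have z0 : ‖Xf β r h t 0‖ ≤ 0.62 * ‖Xf β r h t 1‖ := by
      refine hX0.trans (v5_term 0.3105 0.117 hr (by norm_num) hY (by norm_num) (by linarith)
        (ex_un 1 0.17 (by norm_num) (by norm_num) (by norm_num) (by norm_num)) (by norm_num) (by norm_num))
    have z2 : ‖Xf β r h t 2‖ ≤ 0.17 * ‖Xf β r h t 1‖ := by
      refine hX2.trans (v5_term 0.1185 0.2142 hr (by norm_num) hY (by norm_num) (by linarith)
        (ex_un 2 0.14 (by norm_num) (by norm_num) (by norm_num) (by norm_num)) (by norm_num) (by norm_num))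
    linarith
  · have hV0 := ks_Ll 0.55 0.6141 hd0 hk3 (by linarith) (by norm_num) (by norm_num) (by norm_num)
    obtain ⟨τ, hτ⟩ : ∃ τ, τ = t + κ := ⟨_, rfl⟩
    have g4 : t - h + κ = τ - h := by rw [hτ]; ring
    have g5 : t + h + κ = τ + h := by rw [hτ]; ring
    rw [g4] at g0 hV0
    rw [g5] at g2
    rw [← hτ] at ha hb hV hs
    have q1 : 0 ≤ (τ - 0.2356) * (0.31416 - τ) := mul_nonneg (by linarith) (by linarith)
    have hV00 : 0.8141 ≤ sE κ (t - h) := by
      have q2 : 0 ≤ ((τ - h) + 0.55) * (-0.47 - (τ - h)) := mul_nonneg (by linarith) (by linarith)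
      linarith
    have e21 : Real.exp 0.2175 ≤ 1.243 := ex_up 0.2175 le_rfl (by norm_num) (by norm_num) (by norm_num)
    obtain ⟨r1, r2, r3⟩ := ks_rho (κ := κ) (t := t - h) 0.8141 0.5808 0.2175 1.243 0.373 hd0 hk3
      (by linarith) hV00 (by norm_num) (by norm_num) (by norm_num) (by norm_num)
      (by norm_num at e21 ⊢; linarith) e21 (by norm_num) (by norm_num)
    have hX0 : ‖Xf β r h t 0‖ ≤ 1.23 * Real.exp (r * sE κ (t - h)) := by
      rw [hκ] at r2 ⊢
      exact ks_upD (1 - 2 * 0.373 * 0.5808 + 0.373 ^ 2) 1.23 hβ hr h3 (by push_cast; ring) s1 s2 r2 (by norm_num)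
        (by norm_num)
    have z0 : ‖Xf β r h t 0‖ ≤ 0.834 * ‖Xf β r h t 1‖ := by
      refine hX0.trans (v5_term 0.5562 0.059 hr (by norm_num) hY (by norm_num) (by linarith)
        (ex_un 0 0.59 (by norm_num) (by norm_num) (by norm_num) (by norm_num)) (by norm_num) (by norm_num))
    have z2 : ‖Xf β r h t 2‖ ≤ 0.048 * ‖Xf β r h t 1‖ := by
      refine hX2.trans (v5_term 0.0346 0.339 hr (by norm_num) hY (by norm_num) (by linarith)
        (ex_un 3 0.39 (by norm_num) (by norm_num) (by norm_num) (by norm_num)) (by norm_num) (by norm_num))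
    linarith

/-- outside the window, left part -/
private theorem out1 {β r h t κ : ℝ} (H : P8 β r h t κ) (ha : 0 ≤ t + κ) (hb : t + κ < 0.4 * h) :
    ‖Xf β r h t (-3)‖ + ‖Xf β r h t (-2)‖ + ‖Xf β r h t (-1)‖ + ‖Xf β r h t 2‖ + ‖Xf β r h t 3‖ + ‖Xf β r h t 4‖ <
      |‖Xf β r h t 1‖ - ‖Xf β r h t 0‖| := by
  obtain ⟨hY, a1, a2, a3, a4, a5⟩ := out1f H ha hb
  have a6 := out1n H ha hb hY
  have hY0 : 0 < ‖Xf β r h t 1‖ := lt_of_lt_of_le (by positivity) hY
  refine lt_of_lt_of_le ?_ (le_abs_self _)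
  linarith

/-- outside the window, right part: the copies 2, 3, 4, -2, -3 -/
private theorem out0f {β r h t κ : ℝ} (H : P8 β r h t κ) (ha : 0.63 * h < t + κ) (hb : t + κ ≤ h) :
    0.85 * Real.exp (r * sE κ (t - h)) ≤ ‖Xf β r h t 0‖ ∧ 1 - 0.5504 * (t - h + κ) ^ 2 ≤ sE κ (t - h) ∧
    ‖Xf β r h t 2‖ ≤ 0.0145 * ‖Xf β r h t 0‖ ∧ ‖Xf β r h t 3‖ ≤ 0.0003 * ‖Xf β r h t 0‖ ∧
    ‖Xf β r h t 4‖ ≤ 0.0003 * ‖Xf β r h t 0‖ ∧ ‖Xf β r h t (-2)‖ ≤ 0.0003 * ‖Xf β r h t 0‖ ∧
    ‖Xf β r h t (-3)‖ ≤ 0.0003 * ‖Xf β r h t 0‖ := by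
  have hk := H.k0
  have hk3 := H.k3
  obtain ⟨hβ, hr, hκ, h3, h1, h2, h4⟩ := H
  have hb3 := ks_beta hβ hr h3
  have hpi := Real.pi_gt_d6
  have hpi' := Real.pi_lt_d6
  have s1 : -(Real.pi / 2) < t - h := by linarith
  have s2 : t - h < Real.pi / 2 := by linarith
  have hd0 := ks_dom hk s1 s2
  have hV := ks_Ll 0.2907 0.5504 hd0 hk3 (by linarith) (by norm_num) (by norm_num) (by norm_num)
  have hx0 : t - h + κ ≤ 0 := by linarith
  have hxa : -0.2907 ≤ t - h + κ := by linarith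
  have q0 : 0 ≤ -(t - h + κ) * ((t - h + κ) + 0.2907) := mul_nonneg (by linarith) (by linarith)
  have hV2 : 0.9534 ≤ sE κ (t - h) := by linarith
  have e10 : Real.exp 0.1145 ≤ 1.1214 := ex_up 0.1145 le_rfl (by norm_num) (by norm_num) (by norm_num)
  obtain ⟨r1, -, -⟩ := ks_rho (κ := κ) (t := t - h) 0.9534 0.34 0.1145 1.1214 0.3365 hd0 hk3
    (by linarith) hV2 (by norm_num) (by norm_num) (by norm_num) (by norm_num)
    (by norm_num at e10 ⊢; linarith) e10 (by norm_num) (by norm_num)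
  have hD := ks_sD_l 0.3365 hd0 hx0 r1
  have hY : 0.85 * Real.exp (r * sE κ (t - h)) ≤ ‖Xf β r h t 0‖ := by
    rw [hκ] at hD ⊢
    exact ks_loD (1 + 0.3365 ^ 2) 0.85 hβ hr h3 (by push_cast; ring) s1 s2 hD (by norm_num)
  obtain ⟨x, hx⟩ : ∃ x, x = t - h + κ := ⟨_, rfl⟩
  have hVx := hV
  rw [← hx] at hV hx0 hxa q0
  have z2 : ‖Xf β r h t 2‖ ≤ 0.0145 * ‖Xf β r h t 0‖ := by
    refine ks_farL hβ hr h3 (t' := t + h) (by push_cast; ring) 0.85 0.489 0.0077 0.0145 (by norm_num) hY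
      ?_ ?_ ?_ ?_ (by norm_num)
      (ex_un 4 0.89 (by norm_num) (by norm_num) (by norm_num) (by norm_num)) (by norm_num)
    · linarith
    · linarith
    · intro g1 g2
      rw [← hκ]
      have g3 := V_up (ks_dom hk g1 g2) 0.65 (g65 hk hk3)
      have g4 : t + h + κ = x + 2 * h := by rw [hx]; ring
      rw [g4] at g3
      linarith
    · linarith
  have z3 : ‖Xf β r h t 3‖ ≤ 0.0003 * ‖Xf β r h t 0‖ := by
    refine ks_farL hβ hr h3 (t' := t + 2 * h) (by push_cast; ring) 0.85 0.9 0.000124 0.0003 (by norm_num) hY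
      ?_ ?_ ?_ ?_ (by norm_num)
      (ex_un 9 0 (by norm_num) (by norm_num) (by norm_num) (by norm_num)) (by norm_num)
    · linarith
    · linarith
    · intro g1 g2
      linarith
    · linarith
  have z4 : ‖Xf β r h t 4‖ ≤ 0.0003 * ‖Xf β r h t 0‖ := by
    refine ks_farL hβ hr h3 (t' := t + 3 * h) (by push_cast; ring) 0.85 0.9 0.000124 0.0003 (by norm_num) hY
      ?_ ?_ ?_ ?_ (by norm_num)
      (ex_un 9 0 (by norm_num) (by norm_num) (by norm_num) (by norm_num)) (by norm_num)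
    · linarith
    · linarith
    · intro g1 g2
      linarith
    · linarith
  have zm2 : ‖Xf β r h t (-2)‖ ≤ 0.0003 * ‖Xf β r h t 0‖ := by
    refine ks_farL hβ hr h3 (t' := t - 3 * h) (by push_cast; ring) 0.85 0.9 0.000124 0.0003 (by norm_num) hY
      ?_ ?_ ?_ ?_ (by norm_num)
      (ex_un 9 0 (by norm_num) (by norm_num) (by norm_num) (by norm_num)) (by norm_num)
    · linarith
    · linarith
    · intro g1 g2
      linarith
    · linarith
  have zm3 : ‖Xf β r h t (-3)‖ ≤ 0.0003 * ‖Xf β r h t 0‖ := by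
    refine ks_farL hβ hr h3 (t' := t - 4 * h) (by push_cast; ring) 0.85 0.9 0.000124 0.0003 (by norm_num) hY
      ?_ ?_ ?_ ?_ (by norm_num)
      (ex_un 9 0 (by norm_num) (by norm_num) (by norm_num) (by norm_num)) (by norm_num)
    · linarith
    · linarith
    · intro g1 g2
      linarith
    · linarith
  exact ⟨hY, hVx, z2, z3, z4, zm2, zm3⟩

/-- outside the window, right part: the copies 1 and -1 -/
private theorem out0n {β r h t κ : ℝ} (H : P8 β r h t κ) (ha : 0.63 * h < t + κ) (hb : t + κ ≤ h)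
    (hY : 0.85 * Real.exp (r * sE κ (t - h)) ≤ ‖Xf β r h t 0‖) (hV : 1 - 0.5504 * (t - h + κ) ^ 2 ≤ sE κ (t - h)) :
    ‖Xf β r h t 1‖ + ‖Xf β r h t (-1)‖ ≤ 0.95 * ‖Xf β r h t 0‖ := by
  have hk := H.k0
  have hk3 := H.k3
  obtain ⟨hβ, hr, hκ, h3, h1, h2, h4⟩ := H
  have hpi := Real.pi_gt_d6
  have hpi' := Real.pi_lt_d6
  have t1 : -(Real.pi / 2) < t := by linarith
  have t2 : t < Real.pi / 2 := by linarith
  have hd := ks_dom hk t1 t2
  have hX1 : ‖Xf β r h t 1‖ ≤ 1.1267 * Real.exp (r * sE κ t) := by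
    rw [hκ]
    exact ks_upR hβ hr h3 (by push_cast; ring) t1 t2 (by linarith)
  have hY0 : 0 < ‖Xf β r h t 0‖ := lt_of_lt_of_le (by positivity) hY
  have hx0 : t - h + κ ≤ 0 := by linarith
  have hxa : -0.2907 ≤ t - h + κ := by linarith
  have q0 : 0 ≤ -(t - h + κ) * ((t - h + κ) + 0.2907) := mul_nonneg (by linarith) (by linarith)
  obtain ⟨x, hx⟩ : ∃ x, x = t - h + κ := ⟨_, rfl⟩
  rw [← hx] at hV hx0 hxa q0
  have gm : -(Real.pi / 2) < t - 2 * h → t - 2 * h < Real.pi / 2 → sE (β * r) (t - 2 * h) ≤ 1.4545 + 0.9 * (x - h) := by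
    intro g1 g2
    rw [← hκ]
    have g3 := V_up (ks_dom hk g1 g2) (-0.9) (g90 hk hk3)
    have g4 : t - 2 * h + κ = x - h := by rw [hx]; ring
    rw [g4] at g3
    linarith
  have g1 := V_up hd 0.47 (g47 hk hk3)
  have g4 : t + κ = x + h := by rw [hx]; ring
  rw [g4] at g1
  rcases le_total x (-0.157) with hs | hs
  · have z1 : ‖Xf β r h t 1‖ ≤ 0.845 * ‖Xf β r h t 0‖ := by
      refine hX1.trans (v5_term 0.6372 0.0452 hr (by norm_num) hY (by norm_num) (by linarith)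
        (ex_un 0 0.452 (by norm_num) (by norm_num) (by norm_num) (by norm_num)) (by norm_num) (by norm_num))
    have zm1 : ‖Xf β r h t (-1)‖ ≤ 0.044 * ‖Xf β r h t 0‖ := by
      have q2 : 0 ≤ (-0.157 - x) * (x + 0.2907) := mul_nonneg (by linarith) (by linarith)
      refine ks_farL hβ hr h3 (t' := t - 2 * h) (by push_cast; ring) 0.85 0.379 0.0231 0.044 (by norm_num) hY
        ?_ ?_ ?_ ?_ (by norm_num)
        (ex_un 3 0.79 (by norm_num) (by norm_num) (by norm_num) (by norm_num)) (by norm_num)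
      · linarith
      · linarith
      · intro g1 g2
        have := gm g1 g2
        linarith
      · linarith
    linarith
  · have q2 : 0 ≤ -x * (x + 0.157) := mul_nonneg (by linarith) (by linarith)
    have z1 : ‖Xf β r h t 1‖ ≤ 0.34 * ‖Xf β r h t 0‖ := by
      refine hX1.trans (v5_term 0.2472 0.14 hr (by norm_num) hY (by norm_num) (by linarith)
        (ex_un 1 0.4 (by norm_num) (by norm_num) (by norm_num) (by norm_num)) (by norm_num) (by norm_num))
    have zm1 : ‖Xf β r h t (-1)‖ ≤ 0.16 * ‖Xf β r h t 0‖ := by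
      refine ks_farL hβ hr h3 (t' := t - 2 * h) (by push_cast; ring) 0.85 0.252 0.0807 0.16 (by norm_num) hY
        ?_ ?_ ?_ ?_ (by norm_num)
        (ex_un 2 0.52 (by norm_num) (by norm_num) (by norm_num) (by norm_num)) (by norm_num)
      · linarith
      · linarith
      · intro g1 g2
        have := gm g1 g2
        linarith
      · linarith
    linarith

/-- outside the window, right part -/
private theorem out0 {β r h t κ : ℝ} (H : P8 β r h t κ) (ha : 0.63 * h < t + κ) (hb : t + κ ≤ h) :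
    ‖Xf β r h t (-3)‖ + ‖Xf β r h t (-2)‖ + ‖Xf β r h t (-1)‖ + ‖Xf β r h t 2‖ + ‖Xf β r h t 3‖ + ‖Xf β r h t 4‖ <
      |‖Xf β r h t 1‖ - ‖Xf β r h t 0‖| := by
  obtain ⟨hY, hV, a1, a2, a3, a4, a5⟩ := out0f H ha hb
  have a6 := out0n H ha hb hY hV
  have hY0 : 0 < ‖Xf β r h t 0‖ := lt_of_lt_of_le (by positivity) hY
  rw [abs_sub_comm]
  refine lt_of_lt_of_le ?_ (le_abs_self _)
  linarith

private theorem wterm {β r h t e w L : ℝ} {k : ℤ} {L0 L1 : ℂ} {c0 c1 : ℂ} {Y : ℝ} (hr : 0 < r) (hY : 0 ≤ Y)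
    (h1 : ‖Xf β r h (t + β) k‖ ≤ e * Y) (h2 : ‖Xf β r h t k‖ ≤ e * Y) (he : 0 ≤ e)
    (hL : ‖c0 * L0 - c1 * L1‖ ≤ L * r) (hw : e * (1 + L) ≤ w) :
    r * ‖Xf β r h (t + β) k‖ + ‖Xf β r h t k‖ * ‖c0 * L0 - c1 * L1‖ ≤ w * r * Y := by
  have a1 := mul_le_mul_of_nonneg_left h1 hr.le
  have a2 : ‖Xf β r h t k‖ * ‖c0 * L0 - c1 * L1‖ ≤ (e * Y) * (L * r) :=
    mul_le_mul h2 hL (norm_nonneg _) (mul_nonneg he hY)
  have a3 := mul_le_mul_of_nonneg_right hw (mul_nonneg hr.le hY)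
  linarith

private theorem comb {L0 L1 : ℂ} {r : ℝ} (c0 c1 : ℂ) (n0 n1 A0 A1 L : ℝ) (h0 : ‖L0‖ ≤ A0 * r) (h1 : ‖L1‖ ≤ A1 * r)
    (e0 : ‖c0‖ = n0) (e1 : ‖c1‖ = n1) (hr : 0 ≤ r) (hn0 : 0 ≤ n0) (hn1 : 0 ≤ n1) (hL : n0 * A0 + n1 * A1 ≤ L) :
    ‖c0 * L0 - c1 * L1‖ ≤ L * r := by
  refine (norm_sub_le _ _).trans ?_
  rw [norm_mul, norm_mul, e0, e1]
  have a0 := mul_le_mul_of_nonneg_left h0 hn0
  have a1 := mul_le_mul_of_nonneg_left h1 hn1
  have a2 := mul_le_mul_of_nonneg_right hL hr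
  linarith

/-- **row R1, `b = 8`, `κ ≤ 0.3`**, with the cast of `b` -/
theorem R1_b8_smallN {p : ℤ} {β r : ℝ} (hp : IsCoprime (8 : ℤ) p) (hr : 10 ≤ r) (hβ : 0 < β) (hκ : β * r ≤ 0.3) :
    Circ (2 * Real.pi * p / (8 : ℕ) + β) r := by
  have hpi := Real.pi_gt_d6
  have hpi' := Real.pi_lt_d6
  have hr0 : 0 < r := by linarith
  obtain ⟨h, hh⟩ : ∃ h : ℝ, h = 2 * Real.pi / (8 : ℕ) := ⟨_, rfl⟩
  have h1 : 0.785398 ≤ h := by rw [hh]; push_cast; norm_num at *; linarith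
  have h2 : h ≤ 0.7853983 := by rw [hh]; push_cast; norm_num at *; linarith
  have h4 : 2 * h = Real.pi / 2 := by rw [hh]; push_cast; ring
  have H : ∀ t : ℝ, P8 β r h t (β * r) := fun t => ⟨hβ, hr, rfl, hκ, h1, h2, h4⟩
  refine circ_LW (b := 8) (by norm_num) (by exact_mod_cast hp) (κ := β * r) hr0 hh (a0 := -3) (by norm_num) (by norm_num)
    (s0 := 0) (slo := 0.4) (shi := 0.63) (a := 1.07) (m := 0.47 * r) (η := 0.061) (E := e8)
    (W := fun k => w8 k * r)
    (by norm_num) (by norm_num) (by positivity) (by norm_num) ?_ ?_ ?_ ?_ ?_ ?_ ?_ ?_ ?_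
  · intro t ta tb
    exact (slope8 (H t) ta tb).1
  · intro t ta tb k hk
    obtain ⟨a1, a2, a3⟩ := win1 (H t) ta tb (u := 0) le_rfl hβ.le
    obtain ⟨b1, b2, b3⟩ := win0 (H t) ta tb (u := 0) le_rfl hβ.le
    rw [add_zero] at a1 a2 a3 b1 b2 b3
    rcases far8s_mem hk with rfl | rfl | rfl | rfl | rfl | rfl
    · norm_num [e8, sd]; norm_num at b3; exact b3
    · norm_num [e8, sd]; norm_num at b2; exact b2
    · norm_num [e8, sd]; norm_num at b1; exact b1
    · norm_num [e8, sd]; norm_num at a1; exact a1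
    · norm_num [e8, sd]; norm_num at a2; exact a2
    · norm_num [e8, sd]; norm_num at a3; exact a3
  · intro t ta tb k hk
    obtain ⟨a1, a2, a3⟩ := win1 (H t) ta tb (u := 0) le_rfl hβ.le
    obtain ⟨b1, b2, b3⟩ := win0 (H t) ta tb (u := 0) le_rfl hβ.le
    rw [add_zero] at a1 a2 a3 b1 b2 b3
    obtain ⟨c1, c2, c3⟩ := win1 (H t) ta tb (u := β) hβ.le le_rfl
    obtain ⟨d1, d2, d3⟩ := win0 (H t) ta tb (u := β) hβ.le le_rfl
    obtain ⟨-, l1, l0, -⟩ := slope8 (H t) ta tb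
    rcases far8s_mem hk with rfl | rfl | rfl | rfl | rfl | rfl
    · have hw : w8 (-3) = 0.0037 := by norm_num [w8]
      have hs : sd (-3) = 0 := by norm_num [sd]
      simp only [hw, hs]
      refine wterm hr0 (norm_nonneg _) d3 b3 (by norm_num) (L := 8.17) ?_ (by norm_num)
      exact comb _ _ 4 3 1.264 1.038 8.17 l0 l1 (by norm_num) (by norm_num) hr0.le (by norm_num) (by norm_num) (by norm_num)
    · have hw : w8 (-2) = 0.0028 := by norm_num [w8]
      have hs : sd (-2) = 0 := by norm_num [sd]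
      simp only [hw, hs]
      refine wterm hr0 (norm_nonneg _) d2 b2 (by norm_num) (L := 5.868) ?_ (by norm_num)
      exact comb _ _ 3 2 1.264 1.038 5.868 l0 l1 (by norm_num) (by norm_num) hr0.le (by norm_num) (by norm_num) (by norm_num)
    · have hw : w8 (-1) = 0.1105 := by norm_num [w8]
      have hs : sd (-1) = 0 := by norm_num [sd]
      simp only [hw, hs]
      refine wterm hr0 (norm_nonneg _) d1 b1 (by norm_num) (L := 3.566) ?_ (by norm_num)
      exact comb _ _ 2 1 1.264 1.038 3.566 l0 l1 (by norm_num) (by norm_num) hr0.le (by norm_num) (by norm_num) (by norm_num)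
    · have hw : w8 2 = 0.1528 := by norm_num [w8]
      have hs : sd 2 = 1 := by norm_num [sd]
      simp only [hw, hs]
      refine wterm hr0 (norm_nonneg _) c1 a1 (by norm_num) (L := 3.34) ?_ (by norm_num)
      exact comb _ _ 1 2 1.264 1.038 3.34 l0 l1 (by norm_num) (by norm_num) hr0.le (by norm_num) (by norm_num) (by norm_num)
    · have hw : w8 3 = 0.0027 := by norm_num [w8]
      have hs : sd 3 = 1 := by norm_num [sd]
      simp only [hw, hs]
      refine wterm hr0 (norm_nonneg _) c2 a2 (by norm_num) (L := 5.642) ?_ (by norm_num)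
      exact comb _ _ 2 3 1.264 1.038 5.642 l0 l1 (by norm_num) (by norm_num) hr0.le (by norm_num) (by norm_num) (by norm_num)
    · have hw : w8 4 = 0.0036 := by norm_num [w8]
      have hs : sd 4 = 1 := by norm_num [sd]
      simp only [hw, hs]
      refine wterm hr0 (norm_nonneg _) c3 a3 (by norm_num) (L := 7.944) ?_ (by norm_num)
      exact comb _ _ 3 4 1.264 1.038 7.944 l0 l1 (by norm_num) (by norm_num) hr0.le (by norm_num) (by norm_num) (by norm_num)
  · intro t ta tb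
    exact (slope8 (H t) ta tb).2.2.2
  · rw [far8s]
    norm_num [e8]
  · intro t ta tb hor
    rw [far8s]
    rcases hor with ho | ho
    · exact out1 (H t) (by linarith) ho
    · exact out0 (H t) ho (by linarith)
  · intro k
    unfold e8
    split_ifs <;> norm_num
  · rw [far8s]
    norm_num [e8, pv]
  · rw [far8s, far8s]
    norm_num [e8, w8, pv]
    linarith

/-- **row R1, `b = 8`, `κ ≤ 0.3`** -/
theorem R1_b8_small {p : ℤ} {β r : ℝ} (hp : IsCoprime (8 : ℤ) p) (hr : 10 ≤ r) (hβ : 0 < β) (hκ : β * r ≤ 0.3) :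
    Circ (2 * Real.pi * p / 8 + β) r := by
  have h := R1_b8_smallN hp hr hβ hκ
  rwa [Nat.cast_ofNat] at h

end Sok
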