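import Pool.Agent.Lib.MP_816dec_an.R1b8D
import Pool.Agent.Lib.MP_816dec_an.JB8a
import Pool.Agent.Lib.MP_816dec_an.JB8b
import Pool.Agent.Lib.MP_816dec_an.JB8c
import Pool.Agent.Lib.MP_816dec_an.JB8w

/-!
MP_816dec_an (A3, row R1), b = 8: box 10
-/

set_option autoImplicit false
set_option maxHeartbeats 4000000

open Complex Set Filter Topology Metric

namespace Sok

private theorem b8_10_yL1 {κ t : ℝ} (h : DomR κ t) (hk1 : 1 ≤ κ) (hk2 : κ ≤ 1.13) (ht1 : 0 ≤ t + κ) (ht2 : t + κ ≤ 0.4634) :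
    0 ≤ sy κ t ∧ sy κ t ≤ 0.208 := by
  have hy1 : 0 ≤ sy κ t := sy_nonneg h (by linarith)
  have hy2 : sy κ t ≤ 0.208 := syR_le h 1 1.13 0.4634 0.208 1.23121 0.2192 0.22662 0.2561 hk1 hk2 (by linarith) (by norm_num) (by norm_num)
    (expn_ge (by norm_num) (by norm_num)) (by norm_num) (by norm_num) (Or.inr ((mul_le_mul_of_nonneg_left (expn_le (E := 1.23122) (by norm_num) (by norm_num) (by norm_num)) (by norm_num)).trans (by norm_num))) (by norm_num) (by norm_num) (by norm_num)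
  exact ⟨by linarith, by linarith⟩

theorem b8_10_L1 {β r h κ T t s : ℝ} (B : By 1 1.13 0.5 0.4962 17.642 0.0567 5.441 β r h κ T) (hs : t + κ = s * h)
    (h1 : 0.05 ≤ s) (h2 : s ≤ 0.59) :
    eN r κ * (0.961 * Real.exp (-(T * (1 / 2 * s ^ 2)))) ≤ ‖Xf β r h t 1‖ := by
  have a1 : 0.0392 ≤ t + κ := by rw [hs]; exact mlo8 B.P h1 (by norm_num) (by norm_num)
  have a2 : t + κ ≤ 0.4634 := by rw [hs]; exact mhi8 B.P h2 (by norm_num) (by norm_num)
  have hk := B.hk1
  have hD : DomR κ t := dom7 B.P.κ0 (by linarith) (by linarith)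
  have hy := b8_10_yL1 hD B.hk1 B.hk2 (by linarith) a2
  have hJ := JB8_k1 hD B.P.hβ (by linarith) B.P.hκ1 (by linarith) (by linarith) B.P.βκ B.P.βR
  have hd := Dup7 hD (1 ^ 2) (1.13 ^ 2) 1.0379 0 0.208 1 0.65969 hy.1 hy.2 (pow_le_pow_left₀ (by norm_num) B.hk1 2) (pow_le_pow_left₀ B.P.κ0.le B.hk2 2)
      (by norm_num)
      (by rw [show (-2 * 0.208 : ℝ) = -0.416 by norm_num]; exact expm_le (by norm_num) (by norm_num) (by norm_num)) (by norm_num) (by norm_num) (by norm_num) (by norm_num)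
  have := loR8 (k := 1) 0 0.03 1.0379 0.961 B.P (by norm_num) (by ring : t = t + 0 * h) hs (by linarith) hD (by norm_num) hJ hd (by norm_num) (by norm_num)
  rw [add_zero] at this
  exact this

private theorem b8_10_yL0 {κ t : ℝ} (h : DomR κ t) (hk1 : 1 ≤ κ) (hk2 : κ ≤ 1.13) (ht1 : (-0.4477) ≤ t + κ) (ht2 : t + κ ≤ 0) :
    (-0.246) ≤ sy κ t ∧ sy κ t ≤ 0 := by
  have hy1 : -0.246 ≤ sy κ t := syL_ge h 1 1.13 0.4477 0.246 0.78192 0.78193 0.1812 0.17022 0.19236 hk1 hk2 (by linarith) (by norm_num) (by norm_num) (by norm_num)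
    (expm_ge (by norm_num) (by norm_num) (by norm_num) (by norm_num)) (expm_le (by norm_num) (by norm_num) (by norm_num)) (by norm_num)
    (by norm_num) (by norm_num) (by norm_num) (by norm_num) (by norm_num) (by norm_num)
  have hy2 : sy κ t ≤ 0 := sy_nonpos h (by linarith)
  exact ⟨by linarith, by linarith⟩

private theorem b8_10_yL00 {κ t : ℝ} (h : DomR κ t) (hk1 : 1 ≤ κ) (hk2 : κ ≤ 1.13) (ht1 : 0 ≤ t + κ) (ht2 : t + κ ≤ 0.04) :
    0 ≤ sy κ t ∧ sy κ t ≤ 0.02 := by
  have hy1 : 0 ≤ sy κ t := sy_nonneg h (by linarith)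
  have hy2 : sy κ t ≤ 0.02 := syR_le h 1 1.13 0.04 0.02 1.0202 0.0176 0.01805 0.02041 hk1 hk2 (by linarith) (by norm_num) (by norm_num)
    (expn_ge (by norm_num) (by norm_num)) (by norm_num) (by norm_num) (Or.inr ((mul_le_mul_of_nonneg_left (expn_le (E := 1.02021) (by norm_num) (by norm_num) (by norm_num)) (by norm_num)).trans (by norm_num))) (by norm_num) (by norm_num) (by norm_num)
  exact ⟨by linarith, by linarith⟩

theorem b8_10_L0 {β r h κ T t s : ℝ} (B : By 1 1.13 0.5 0.4962 17.642 0.0567 5.441 β r h κ T) (hs : t + κ = s * h)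
    (h1 : 0.43 ≤ s) (h2 : s ≤ 1.05) :
    eN r κ * (0.8999 * Real.exp (-(T * (0.5425 * (1 - s) ^ 2)))) ≤ ‖Xf β r h t 0‖ := by
  obtain ⟨t', ht'⟩ : ∃ t', t' = t + (-1) * h := ⟨_, rfl⟩
  have hτ : t' + κ = (s + (-1)) * h := by rw [ht']; linear_combination hs
  have e : 0.5425 * (1 - s) ^ 2 = 0.5425 * (s + (-1)) ^ 2 := by ring
  rw [e]
  have b1 : -((s + (-1)) * h) ≤ 0.4477 := mhiN8 B.P (x2 := 0.57) (by linarith) (by norm_num) (by norm_num)
  have b2 : (s + (-1)) * h ≤ 0.04 := mhi8 B.P (x2 := 0.05) (by linarith) (by norm_num) (by norm_num)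
  have hk := B.hk1
  have hk' := B.P.hκ1
  rw [← hτ] at b1 b2
  have hD : DomR κ t' := dom7 B.P.κ0 (by linarith) (by linarith)
  have hJ := JB8_k0 hD B.P.hβ (by linarith) B.P.hκ1 (by linarith) (by linarith) B.P.βκ B.P.βR
  rcases le_total s 1 with hc | hc
  · have b3 : t' + κ ≤ 0 := by rw [hτ]; exact mul_nonpos_of_nonpos_of_nonneg (by linarith) B.P.h0.le
    have hy := b8_10_yL0 hD B.hk1 B.hk2 (by linarith) b3
    have hd := Dup7 hD (1 ^ 2) (1.13 ^ 2) 1.1404 (-0.246) 0 1.63559 1 hy.1 hy.2 (pow_le_pow_left₀ (by norm_num) B.hk1 2) (pow_le_pow_left₀ B.P.κ0.le B.hk2 2)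
      (by rw [show (-2 * (-0.246) : ℝ) = 0.492 by norm_num]; exact expn_le (by norm_num) (by norm_num) (by norm_num))
      (by norm_num) (by norm_num) (by norm_num) (by norm_num) (by norm_num)
    exact loLB8 (k := 0) (-1) 0.07 1.1404 0.8999 0.5425 0.4477 0.1667 0.5609 0.125 B (by norm_num) ht' hs (by linarith) (by rw [← hτ]; exact b1) hD (by norm_num) hJ hd
      (by norm_num) (by norm_num) (by norm_num) (by norm_num) (by norm_num) (by norm_num) (by norm_num) (by norm_num) (by norm_num) (by norm_num) (by norm_num) (by norm_num) (by norm_num)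
  · have b3 : 0 ≤ t' + κ := by rw [hτ]; exact mul_nonneg (by linarith) B.P.h0.le
    have hy := b8_10_yL00 hD B.hk1 B.hk2 b3 b2
    have hd := Dup7 hD (1 ^ 2) (1.13 ^ 2) 1.1404 0 0.02 1 0.96079 hy.1 hy.2 (pow_le_pow_left₀ (by norm_num) B.hk1 2) (pow_le_pow_left₀ B.P.κ0.le B.hk2 2)
      (by norm_num)
      (by rw [show (-2 * 0.02 : ℝ) = -0.04 by norm_num]; exact expm_le (by norm_num) (by norm_num) (by norm_num)) (by norm_num) (by norm_num) (by norm_num) (by norm_num)
    have := loR8 (k := 0) (-1) 0.07 1.1404 0.8999 B.P (by norm_num) ht' hs (by linarith) hD (by norm_num) hJ hd (by norm_num) (by norm_num)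
    exact le_trans (weak7 (by have := B.P.T5; linarith) (by norm_num) (by norm_num)) this

private theorem b8_10_W2a_y {κ t : ℝ} (h : DomR κ t) (hk1 : 1 ≤ κ) (hk2 : κ ≤ 1.13) (ht1 : 1.1231 ≤ t + κ) (ht2 : t + κ ≤ 1.2349) :
    0.402 ≤ sy κ t ∧ sy κ t ≤ 0.452 := by
  have hy1 : 0.402 ≤ sy κ t := syR_ge h 1 1.13 1.1231 0.402 1.49481 1.49482 0.53178 0.60092 hk1 hk2 (by linarith) (by norm_num) (by norm_num)
    (expn_ge (by norm_num) (by norm_num)) (expn_le (by norm_num) (by norm_num) (by norm_num)) (by norm_num)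
    (by norm_num) (by norm_num) (by norm_num) (by norm_num) (by norm_num) (by norm_num)
  have hy2 : sy κ t ≤ 0.452 := syR_le h 1 1.13 1.2349 0.452 1.57145 0.6081 0.62857 0.7103 hk1 hk2 (by linarith) (by norm_num) (by norm_num)
    (expn_ge (by norm_num) (by norm_num)) (by norm_num) (by norm_num) (Or.inr ((mul_le_mul_of_nonneg_left (expn_le (E := 1.57146) (by norm_num) (by norm_num) (by norm_num)) (by norm_num)).trans (by norm_num))) (by norm_num) (by norm_num) (by norm_num)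
  exact ⟨by linarith, by linarith⟩

theorem b8_10_W2a {β r h κ T t s u Y : ℝ} (B : By 1 1.13 0.5 0.4962 17.642 0.0567 5.441 β r h κ T) (hs : t + κ = s * h)
    (h1 : 0.43 ≤ u) (h2 : u ≤ 0.5) (h3 : u ≤ s) (h4 : s ≤ u + 0.0722)
    (hY : eN r κ * (0.961 * Real.exp (-(T * (1 / 2 * u ^ 2)))) ≤ Y) :
    ‖Xf β r h t 2‖ ≤ 0.0226 * Y := by
  obtain ⟨t', ht'⟩ : ∃ t', t' = t + 1 * h := ⟨_, rfl⟩
  have hτ : t' + κ = (s + 1) * h := by rw [ht']; linear_combination hs
  have a1 : 1.1231 ≤ t' + κ := by rw [hτ]; exact mlo8 B.P (x1 := 1.43) (by linarith) (by norm_num) (by norm_num)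
  have a2 : t' + κ ≤ 1.2349 := by rw [hτ]; exact mhi8 B.P (x2 := 1.5722) (by linarith) (by norm_num) (by norm_num)
  have hk := B.hk1
  have hk' := B.P.hκ1
  have hD : DomR κ t' := dom7 B.P.κ0 (by linarith) (by linarith)
  have hy := b8_10_W2a_y hD B.hk1 B.hk2 a1 a2
  have hJ : ‖HH β (sg κ t') - 1‖ ≤ 0.04 := JB8_k2 hD B.P.hβ (by linarith) B.P.hκ1 (by linarith) (by linarith) B.P.βκ B.P.βR
  have hd := Dlo7 hD (1 ^ 2) (1.13 ^ 2) 1.0432 0.402 0.452 0.402 0.44753 hy.1 hy.2 (pow_le_pow_left₀ (by norm_num) B.hk1 2) (pow_le_pow_left₀ B.P.κ0.le B.hk2 2)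
      (by rw [show (-2 * 0.402 : ℝ) = -0.804 by norm_num]; exact expm_ge (by norm_num) (by norm_num) (by norm_num) (by norm_num)) (by norm_num) (by norm_num) (by norm_num) (by norm_num) (by norm_num)
  have hc : sE κ t' ≤ 1 - 0.3931 * (t' + κ) ^ 2 / (1 + κ ^ 2) := VR8 0.68 0.3931 1.1231 1.2349 _ _ _ _ _ B hD a1 a2 (by norm_num) (by norm_num) (by norm_num) (by norm_num) rfl rfl (by norm_num) rfl rfl rfl (by norm_num) (by norm_num)
  exact up8 1 0.04 0.3931 1.0432 1.0291 0.961 0.7114 0.0211 0.0226 B (by norm_num) ht' hs hD (by norm_num) hJ hc hd (by norm_num) (by norm_num) (by norm_num) hY (by norm_num)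
    (ch1 (a := 1) (by norm_num) (sqR h1 h3 (by norm_num)) (by norm_num) h1 h2 (by norm_num) (by norm_num)) (by norm_num)
    (expn 3 0.8707 (by norm_num) (by norm_num) (by norm_num) (by norm_num)) (by norm_num) (by norm_num)

private theorem b8_10_W2b_y {κ t : ℝ} (h : DomR κ t) (hk1 : 1 ≤ κ) (hk2 : κ ≤ 1.13) (ht1 : 1.178 ≤ t + κ) (ht2 : t + κ ≤ 1.3055) :
    0.415 ≤ sy κ t ∧ sy κ t ≤ 0.469 := by
  have hy1 : 0.415 ≤ sy κ t := syR_ge h 1 1.13 1.178 0.415 1.51437 1.51438 0.55616 0.62847 hk1 hk2 (by linarith) (by norm_num) (by norm_num)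
    (expn_ge (by norm_num) (by norm_num)) (expn_le (by norm_num) (by norm_num) (by norm_num)) (by norm_num)
    (by norm_num) (by norm_num) (by norm_num) (by norm_num) (by norm_num) (by norm_num)
  have hy2 : sy κ t ≤ 0.469 := syR_le h 1 1.13 1.3055 0.469 1.59839 0.6418 0.6634 0.74965 hk1 hk2 (by linarith) (by norm_num) (by norm_num)
    (expn_ge (by norm_num) (by norm_num)) (by norm_num) (by norm_num) (Or.inr ((mul_le_mul_of_nonneg_left (expn_le (E := 1.5984) (by norm_num) (by norm_num) (by norm_num)) (by norm_num)).trans (by norm_num))) (by norm_num) (by norm_num) (by norm_num)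
  exact ⟨by linarith, by linarith⟩

theorem b8_10_W2b {β r h κ T t s u Y : ℝ} (B : By 1 1.13 0.5 0.4962 17.642 0.0567 5.441 β r h κ T) (hs : t + κ = s * h)
    (h1 : 0.5 ≤ u) (h2 : u ≤ 0.59) (h3 : u ≤ s) (h4 : s ≤ u + 0.0722)
    (hY : eN r κ * (0.961 * Real.exp (-(T * (1 / 2 * u ^ 2)))) ≤ Y) :
    ‖Xf β r h t 2‖ ≤ 0.01862 * Y := by
  obtain ⟨t', ht'⟩ : ∃ t', t' = t + 1 * h := ⟨_, rfl⟩
  have hτ : t' + κ = (s + 1) * h := by rw [ht']; linear_combination hs
  have a1 : 1.178 ≤ t' + κ := by rw [hτ]; exact mlo8 B.P (x1 := 1.5) (by linarith) (by norm_num) (by norm_num)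
  have a2 : t' + κ ≤ 1.3055 := by rw [hτ]; exact mhi8 B.P (x2 := 1.6622) (by linarith) (by norm_num) (by norm_num)
  have hk := B.hk1
  have hk' := B.P.hκ1
  have hD : DomR κ t' := dom7 B.P.κ0 (by linarith) (by linarith)
  have hy := b8_10_W2b_y hD B.hk1 B.hk2 a1 a2
  have hJ : ‖HH β (sg κ t') - 1‖ ≤ 0.05 := by
    rcases le_total (t' + κ) 1.245 with hc | hc
    · exact (JB8_k2 hD B.P.hβ (by linarith) B.P.hκ1 (by linarith) (by linarith) B.P.βκ B.P.βR).trans (by norm_num)
    · exact JB8_k2w hD B.P.hβ (by linarith) B.P.hκ1 (by linarith) (by linarith) B.P.βκ B.P.βR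
  have hd := Dlo7 hD (1 ^ 2) (1.13 ^ 2) 1.0482 0.415 0.469 0.415 0.43604 hy.1 hy.2 (pow_le_pow_left₀ (by norm_num) B.hk1 2) (pow_le_pow_left₀ B.P.κ0.le B.hk2 2)
      (by rw [show (-2 * 0.415 : ℝ) = -0.83 by norm_num]; exact expm_ge (by norm_num) (by norm_num) (by norm_num) (by norm_num)) (by norm_num) (by norm_num) (by norm_num) (by norm_num) (by norm_num)
  have hc : sE κ t' ≤ 1 - 0.3873 * (t' + κ) ^ 2 / (1 + κ ^ 2) := VR8 0.67 0.3873 1.178 1.3055 _ _ _ _ _ B hD a1 a2 (by norm_num) (by norm_num) (by norm_num) (by norm_num) rfl rfl (by norm_num) rfl rfl rfl (by norm_num) (by norm_num)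
  exact up8 1 0.05 0.3873 1.0482 1.0378 0.961 0.7464 0.01724 0.01862 B (by norm_num) ht' hs hD (by norm_num) hJ hc hd (by norm_num) (by norm_num) (by norm_num) hY (by norm_num)
    (ch1 (a := 1) (by norm_num) (sqR h1 h3 (by norm_num)) (by norm_num) h1 h2 (by norm_num) (by norm_num)) (by norm_num)
    (expn 4 0.0611 (by norm_num) (by norm_num) (by norm_num) (by norm_num)) (by norm_num) (by norm_num)

theorem b8_10_W3R {β r h κ T t s u Y : ℝ} (B : By 1 1.13 0.5 0.4962 17.642 0.0567 5.441 β r h κ T) (hs : t + κ = s * h)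
    (h1 : 0.43 ≤ u) (h2 : u ≤ 0.59) (h3 : u ≤ s) (h4 : s ≤ u + 0.0722) (htp : t + 2 * h ≤ Real.pi / 2)
    (hY : eN r κ * (0.961 * Real.exp (-(T * (1 / 2 * u ^ 2)))) ≤ Y) :
    ‖Xf β r h t 3‖ ≤ 0.0003052 * Y := by
  refine leE (cR8 2 0.42 0.3088 1.9085 2.0909 _ _ _ _ _ 0.2226 2.1903 0.399 0.3479 0.855 0.961 1.7309 0.00008134 0.0001854 0.1741 0.7823 0.9463 4.2003 0.00002609 0.0001198 B (by norm_num) hs htp
    (mlo8 B.P (x1 := 2.43) (by linarith) (by norm_num) (by norm_num)) (mhi8 B.P (x2 := 2.6622) (by linarith) (by norm_num) (by norm_num)) hY g1_nn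
    (g1_le (by linarith) h2 (by norm_num)) (ch1 (a := 2) (by norm_num) (sqR h1 h3 (by norm_num)) (by norm_num) h1 h2 (by norm_num) (by norm_num))
    (by norm_num) (by norm_num) (by norm_num) (by norm_num) rfl rfl (by norm_num) rfl rfl rfl (by norm_num) (by norm_num) (by norm_num) (by norm_num) (by norm_num) (by norm_num) (by norm_num) (by norm_num) (by norm_num) (by norm_num) (by norm_num) (by norm_num) (by norm_num) (by norm_num) (by norm_num) (by norm_num) (by norm_num) (by norm_num) (by norm_num)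
    (expn 9 0.4178 (by norm_num) (by norm_num) (by norm_num) (by norm_num)) (by norm_num) (by norm_num) (by norm_num) (by norm_num) (by norm_num) (by norm_num) (by norm_num) (by norm_num) (expn 10 0.5569 (by norm_num) (by norm_num) (by norm_num) (by norm_num)) (by norm_num) (by norm_num)) (by norm_num) hY (by norm_num)

theorem b8_10_W3 {β r h κ T t s u Y : ℝ} (B : By 1 1.13 0.5 0.4962 17.642 0.0567 5.441 β r h κ T) (hs : t + κ = s * h)
    (h1 : 0.43 ≤ u) (h2 : u ≤ 0.59) (h3 : u ≤ s) (h4 : s ≤ u + 0.0722)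
    (hY : eN r κ * (0.961 * Real.exp (-(T * (1 / 2 * u ^ 2)))) ≤ Y) :
    ‖Xf β r h t 3‖ ≤ 0.0003052 * Y := by
  have hp : t + 2 * h ≤ Real.pi / 2 := by
    have e : t + 2 * h = (s + 2) * h - κ := by linear_combination hs
    have := mhi8 B.P (x := s + 2) (x2 := 2.6622) (by linarith) (by norm_num) (le_refl _)
    have := B.hk1
    have := Real.pi_gt_d6
    rw [e]
    norm_num at *
    linarith
  exact leE (b8_10_W3R B hs h1 h2 h3 h4 hp hY) (by norm_num) hY (by norm_num)

theorem b8_10_W4 {β r h κ T t s u Y : ℝ} (B : By 1 1.13 0.5 0.4962 17.642 0.0567 5.441 β r h κ T) (hs : t + κ = s * h)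
    (h1 : 0.43 ≤ u) (h2 : u ≤ 0.59) (h3 : u ≤ s) (h4 : s ≤ u + 0.0722)
    (hY : eN r κ * (0.961 * Real.exp (-(T * (1 / 2 * u ^ 2)))) ≤ Y) :
    ‖Xf β r h t (4)‖ ≤ 0.0000009762 * Y := by
  refine cU8 0 (3) 1.5639 2.8763 0.03 0.399 0.03 1.9057 0.961 0.1741 0.7823 0.9463 4.2003 0.0000000954 0.0000009762 B (by norm_num) hs
    (fullz8 B.P B.hk2 (x1 := 3.43) (by push_cast; linarith) (by norm_num) (by norm_num)) (mhi8 B.P (x2 := 3.6622) (by push_cast; linarith) (by norm_num) (by norm_num)) hY g1_nn (g1_le (by linarith) h2 (by norm_num))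
    (by norm_num) (by norm_num) (by norm_num) (by norm_num) (by norm_num) (by norm_num) (by norm_num) (by norm_num) (by norm_num) (by norm_num) (by norm_num) (by norm_num) (by norm_num) (by norm_num) (by norm_num) (by norm_num) (by norm_num) (by norm_num) (by norm_num)
    (expn 16 0.1653 (by norm_num) (by norm_num) (by norm_num) (by norm_num)) (by norm_num) (by norm_num)

theorem b8_10_Wm1 {β r h κ T t s u Y : ℝ} (B : By 1 1.13 0.5 0.4962 17.642 0.0567 5.441 β r h κ T) (hs : t + κ = s * h)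
    (h1 : 0.43 ≤ u) (h2 : u ≤ 0.59) (h3 : u ≤ s) (h4 : s ≤ u + 0)
    (hY : eN r κ * (0.8999 * Real.exp (-(T * (0.5425 * (1 - u) ^ 2)))) ≤ Y) :
    ‖Xf β r h t (-1)‖ ≤ 0.0077362501 * Y := by
  refine leE (cL8 (-2) 1.04 0.5228 1.1074 1.2331 _ _ _ _ _ 2.3849 1.2107 0.399 0 0.7626 0.8999 0.9481 0.00575 0.007736 0.1763 0.7325 0.9456 4.2003 0.00000005719 0.0000002501 B (by norm_num) hs
    (mloN8 B.P (x1 := 1.41) (by linarith) (by norm_num) (by norm_num)) (mhiN8 B.P (x2 := 1.57) (by linarith) (by norm_num) (by norm_num)) hY (g0_nn (by norm_num))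
    (g0_le (by norm_num) h1 h2 (by norm_num) (by norm_num)) (ch0 (a := (-2)) (by norm_num) (sqL h2 h4 (by norm_num) (by norm_num)) (by norm_num) h1 h2 (by norm_num) (by norm_num))
    (by norm_num) (by norm_num) (by norm_num) (by norm_num) rfl rfl (by norm_num) rfl rfl rfl (by norm_num) (by norm_num) (by norm_num) (by norm_num) (by norm_num) (by norm_num) (by norm_num) (by norm_num) (by norm_num) (by norm_num) (by norm_num) (by norm_num) (by norm_num) (by norm_num) (by norm_num) (by norm_num) (by norm_num) (by norm_num)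
    (expn 5 0.1586 (by norm_num) (by norm_num) (by norm_num) (by norm_num)) (by norm_num) (by norm_num) (by norm_num) (by norm_num) (by norm_num) (by norm_num) (by norm_num) (by norm_num) (expn 16 0.6822 (by norm_num) (by norm_num) (by norm_num) (by norm_num)) (by norm_num) (by norm_num)) (by norm_num) hY (by norm_num)

theorem b8_10_Wm1p {β r h κ T t s u Y : ℝ} (B : By 1 1.13 0.5 0.4962 17.642 0.0567 5.441 β r h κ T) (hs : t + κ = s * h)
    (h1 : 0.43 ≤ u) (h2 : u ≤ 0.59) (h3 : u ≤ s) (h4 : s ≤ u + 0.0722)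
    (hY : eN r κ * (0.8999 * Real.exp (-(T * (0.5425 * (1 - u) ^ 2)))) ≤ Y) :
    ‖Xf β r h t (-1)‖ ≤ 0.0143902501 * Y := by
  refine leE (cL8 (-2) 1.04 0.5187 1.0507 1.2331 _ _ _ _ _ 2.2612 1.2269 0.399 0 0.7626 0.8999 0.8371 0.01055 0.01439 0.1763 0.7325 0.9456 4.2003 0.00000005719 0.0000002501 B (by norm_num) hs
    (mloN8 B.P (x1 := 1.3378) (by linarith) (by norm_num) (by norm_num)) (mhiN8 B.P (x2 := 1.57) (by linarith) (by norm_num) (by norm_num)) hY (g0_nn (by norm_num))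
    (g0_le (by norm_num) h1 h2 (by norm_num) (by norm_num)) (ch0 (a := (-1.9278)) (by norm_num) (sqL h2 h4 (by norm_num) (by norm_num)) (by norm_num) h1 h2 (by norm_num) (by norm_num))
    (by norm_num) (by norm_num) (by norm_num) (by norm_num) rfl rfl (by norm_num) rfl rfl rfl (by norm_num) (by norm_num) (by norm_num) (by norm_num) (by norm_num) (by norm_num) (by norm_num) (by norm_num) (by norm_num) (by norm_num) (by norm_num) (by norm_num) (by norm_num) (by norm_num) (by norm_num) (by norm_num) (by norm_num) (by norm_num)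
    (expn 4 0.5546 (by norm_num) (by norm_num) (by norm_num) (by norm_num)) (by norm_num) (by norm_num) (by norm_num) (by norm_num) (by norm_num) (by norm_num) (by norm_num) (by norm_num) (expn 16 0.6822 (by norm_num) (by norm_num) (by norm_num) (by norm_num)) (by norm_num) (by norm_num)) (by norm_num) hY (by norm_num)

theorem b8_10_Wm2 {β r h κ T t s u Y : ℝ} (B : By 1 1.13 0.5 0.4962 17.642 0.0567 5.441 β r h κ T) (hs : t + κ = s * h)
    (h1 : 0.43 ≤ u) (h2 : u ≤ 0.59) (h3 : u ≤ s) (h4 : s ≤ u + 0.0722)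
    (hY : eN r κ * (0.8999 * Real.exp (-(T * (0.5425 * (1 - u) ^ 2)))) ≤ Y) :
    ‖Xf β r h t (-2)‖ ≤ 0.0000008893 * Y := by
  refine leE (cL8 (-3) 0.94 0.506 1.8361 2.0185 _ _ _ _ _ 3.2796 1.118 0.399 0 0.8901 0.8999 2.6742 0.0000004808 0.0000005974 0.1763 0.7325 0.9456 4.2003 0.00000005719 0.0000002919 B (by norm_num) hs
    (mloN8 B.P (x1 := 2.3378) (by linarith) (by norm_num) (by norm_num)) (mhiN8 B.P (x2 := 2.57) (by linarith) (by norm_num) (by norm_num)) hY (g0_nn (by norm_num))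
    (g0_le (by norm_num) h1 h2 (by norm_num) (by norm_num)) (ch0 (a := (-2.9278)) (by norm_num) (sqL h2 h4 (by norm_num) (by norm_num)) (by norm_num) h1 h2 (by norm_num) (by norm_num))
    (by norm_num) (by norm_num) (by norm_num) (by norm_num) rfl rfl (by norm_num) rfl rfl rfl (by norm_num) (by norm_num) (by norm_num) (by norm_num) (by norm_num) (by norm_num) (by norm_num) (by norm_num) (by norm_num) (by norm_num) (by norm_num) (by norm_num) (by norm_num) (by norm_num) (by norm_num) (by norm_num) (by norm_num) (by norm_num)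
    (expn 14 0.5503 (by norm_num) (by norm_num) (by norm_num) (by norm_num)) (by norm_num) (by norm_num) (by norm_num) (by norm_num) (by norm_num) (by norm_num) (by norm_num) (by norm_num) (expn 16 0.6822 (by norm_num) (by norm_num) (by norm_num) (by norm_num)) (by norm_num) (by norm_num)) (by norm_num) hY (by norm_num)

theorem b8_10_Wm3 {β r h κ T t s u Y : ℝ} (B : By 1 1.13 0.5 0.4962 17.642 0.0567 5.441 β r h κ T) (hs : t + κ = s * h)
    (h1 : 0.43 ≤ u) (h2 : u ≤ 0.59) (h3 : u ≤ s) (h4 : s ≤ u + 0.0722)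
    (hY : eN r κ * (0.8999 * Real.exp (-(T * (0.5425 * (1 - u) ^ 2)))) ≤ Y) :
    ‖Xf β r h t (-3)‖ ≤ 0.0000004416 * Y := by
  refine cU8 1 (-4) 2.3493 3.6617 0.02 0.399 0.02 0.9507 0.8999 0.1763 0.7325 0.9456 4.2003 0.00000008099 0.0000004416 B (by norm_num) hs
    (full8 B.P B.hk2 (x1 := 4.43) (by push_cast; linarith) (by norm_num) (by norm_num)) (mhi8 B.P (x2 := 4.6622) (by push_cast; linarith) (by norm_num) (by norm_num)) hY (g0_nn (by norm_num)) (g0_le (by norm_num) h1 h2 (by norm_num) (by norm_num))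
    (by norm_num) (by norm_num) (by norm_num) (by norm_num) (by norm_num) (by norm_num) (by norm_num) (by norm_num) (by norm_num) (by norm_num) (by norm_num) (by norm_num) (by norm_num) (by norm_num) (by norm_num) (by norm_num) (by norm_num) (by norm_num) (by norm_num)
    (expn 16 0.3294 (by norm_num) (by norm_num) (by norm_num) (by norm_num)) (by norm_num) (by norm_num)

private theorem b8_10_Ao_y {κ t : ℝ} (h : DomR κ t) (hk1 : 1 ≤ κ) (hk2 : κ ≤ 1.13) (ht1 : (-0.7462) ≤ t + κ) (ht2 : t + κ ≤ (-0.4948)) :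
    (-0.423) ≤ sy κ t ∧ sy κ t ≤ (-0.262) := by
  have hy1 : -0.423 ≤ sy κ t := syL_ge h 1 1.13 0.7462 0.423 0.65507 0.65508 0.2638 0.24521 0.2771 hk1 hk2 (by linarith) (by norm_num) (by norm_num) (by norm_num)
    (expm_ge (by norm_num) (by norm_num) (by norm_num) (by norm_num)) (expm_le (by norm_num) (by norm_num) (by norm_num)) (by norm_num)
    (by norm_num) (by norm_num) (by norm_num) (by norm_num) (by norm_num) (by norm_num)
  have hy2 : sy κ t ≤ -0.262 := syL_le h 1 1.13 0.4948 0.262 0.76951 0.76952 0.17841 0.20162 hk1 hk2 (by linarith) (by norm_num) (by norm_num) (by norm_num)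
    (expm_ge (by norm_num) (by norm_num) (by norm_num) (by norm_num)) (expm_le (by norm_num) (by norm_num) (by norm_num)) (by norm_num)
    (by norm_num) (by norm_num) (by norm_num) (by norm_num) (by norm_num) (by norm_num)
  exact ⟨by linarith, by linarith⟩

theorem b8_10_Ao {β r h κ T t s u Y : ℝ} (B : By 1 1.13 0.5 0.4962 17.642 0.0567 5.441 β r h κ T) (hs : t + κ = s * h)
    (h1 : 0.05 ≤ u) (h2 : u ≤ 0.37) (h3 : u ≤ s) (h4 : s ≤ u + 0)
    (hY : eN r κ * (0.961 * Real.exp (-(T * (1 / 2 * u ^ 2)))) ≤ Y) :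
    ‖Xf β r h t 0‖ ≤ 0.577 * Y := by
  obtain ⟨t', ht'⟩ : ∃ t', t' = t + (-1) * h := ⟨_, rfl⟩
  have hτ : t' + κ = (s + (-1)) * h := by rw [ht']; linear_combination hs
  have a1 : (-0.7462) ≤ t' + κ := by rw [hτ]; have := mhiN8 B.P (x := s + (-1)) (x2 := 0.95) (τ2 := 0.7462) (by linarith) (by norm_num) (by norm_num); linarith
  have a2 : t' + κ ≤ (-0.4948) := by rw [hτ]; have := mloN8 B.P (x := s + (-1)) (x1 := 0.63) (τ1 := 0.4948) (by linarith) (by norm_num) (by norm_num); linarith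
  have hk := B.hk1
  have hk' := B.P.hκ1
  have hD : DomR κ t' := dom7 B.P.κ0 (by linarith) (by linarith)
  have hy := b8_10_Ao_y hD B.hk1 B.hk2 a1 a2
  have hJ : ‖HH β (sg κ t') - 1‖ ≤ 0.07 := JB8_k0 hD B.P.hβ (by linarith) B.P.hκ1 (by linarith) (by linarith) B.P.βκ B.P.βR
  have hd := Dlo7 hD (1 ^ 2) (1.13 ^ 2) 1.0823 (-0.423) (-0.262) (-0.262) 1.68876 hy.1 hy.2 (pow_le_pow_left₀ (by norm_num) B.hk1 2) (pow_le_pow_left₀ B.P.κ0.le B.hk2 2)
      (by rw [show (-2 * (-0.262) : ℝ) = 0.524 by norm_num]; exact expn_ge (by norm_num) (by norm_num)) (by norm_num) (by norm_num) (by norm_num) (by norm_num) (by norm_num)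
  have hc : sE κ t' ≤ 1 - 0.47 * (t' + κ) ^ 2 / (1 + κ ^ 2) := VLA8 hD B.P.hκ1 (by linarith) (by linarith)
  exact up8 (-1) 0.07 0.47 1.0823 1.0491 0.961 0.118 0.5285 0.577 B (by norm_num) ht' hs hD (by norm_num) hJ hc hd (by norm_num) (by norm_num) (by norm_num) hY (by norm_num)
    (ch1 (a := (-1)) (by norm_num) (sqL h2 h4 (by norm_num) (by norm_num)) (by norm_num) h1 h2 (by norm_num) (by norm_num)) (by norm_num)
    (expn 0 0.642 (by norm_num) (by norm_num) (by norm_num) (by norm_num)) (by norm_num) (by norm_num)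

private theorem b8_10_A2_y {κ t : ℝ} (h : DomR κ t) (hk1 : 1 ≤ κ) (hk2 : κ ≤ 1.13) (ht1 : 0.8246 ≤ t + κ) (ht2 : t + κ ≤ 1.076) :
    0.324 ≤ sy κ t ∧ sy κ t ≤ 0.411 := by
  have hy1 : 0.324 ≤ sy κ t := syR_ge h 1 1.13 0.8246 0.324 1.38264 1.38265 0.39643 0.44798 hk1 hk2 (by linarith) (by norm_num) (by norm_num)
    (expn_ge (by norm_num) (by norm_num)) (expn_le (by norm_num) (by norm_num) (by norm_num)) (by norm_num)
    (by norm_num) (by norm_num) (by norm_num) (by norm_num) (by norm_num) (by norm_num)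
  have hy2 : sy κ t ≤ 0.411 := syR_le h 1 1.13 1.076 0.411 1.50832 0.5307 0.5486 0.61993 hk1 hk2 (by linarith) (by norm_num) (by norm_num)
    (expn_ge (by norm_num) (by norm_num)) (by norm_num) (by norm_num) (Or.inr ((mul_le_mul_of_nonneg_left (expn_le (E := 1.50833) (by norm_num) (by norm_num) (by norm_num)) (by norm_num)).trans (by norm_num))) (by norm_num) (by norm_num) (by norm_num)
  exact ⟨by linarith, by linarith⟩

theorem b8_10_A2 {β r h κ T t s u Y : ℝ} (B : By 1 1.13 0.5 0.4962 17.642 0.0567 5.441 β r h κ T) (hs : t + κ = s * h)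
    (h1 : 0.05 ≤ u) (h2 : u ≤ 0.37) (h3 : u ≤ s) (h4 : s ≤ u + 0)
    (hY : eN r κ * (0.961 * Real.exp (-(T * (1 / 2 * u ^ 2)))) ≤ Y) :
    ‖Xf β r h t 2‖ ≤ 0.09618 * Y := by
  obtain ⟨t', ht'⟩ : ∃ t', t' = t + 1 * h := ⟨_, rfl⟩
  have hτ : t' + κ = (s + 1) * h := by rw [ht']; linear_combination hs
  have a1 : 0.8246 ≤ t' + κ := by rw [hτ]; exact mlo8 B.P (x1 := 1.05) (by linarith) (by norm_num) (by norm_num)
  have a2 : t' + κ ≤ 1.076 := by rw [hτ]; exact mhi8 B.P (x2 := 1.37) (by linarith) (by norm_num) (by norm_num)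
  have hk := B.hk1
  have hk' := B.P.hκ1
  have hD : DomR κ t' := dom7 B.P.κ0 (by linarith) (by linarith)
  have hy := b8_10_A2_y hD B.hk1 B.hk2 a1 a2
  have hJ : ‖HH β (sg κ t') - 1‖ ≤ 0.04 := JB8_k2 hD B.P.hβ (by linarith) B.P.hκ1 (by linarith) (by linarith) B.P.βκ B.P.βR
  have hd := Dlo7 hD (1 ^ 2) (1.13 ^ 2) 1.0171 0.324 0.411 0.324 0.52309 hy.1 hy.2 (pow_le_pow_left₀ (by norm_num) B.hk1 2) (pow_le_pow_left₀ B.P.κ0.le B.hk2 2)
      (by rw [show (-2 * 0.324 : ℝ) = -0.648 by norm_num]; exact expm_ge (by norm_num) (by norm_num) (by norm_num) (by norm_num)) (by norm_num) (by norm_num) (by norm_num) (by norm_num) (by norm_num)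
  have hc : sE κ t' ≤ 1 - 0.4042 * (t' + κ) ^ 2 / (1 + κ ^ 2) := VR8 0.72 0.4042 0.8246 1.076 _ _ _ _ _ B hD a1 a2 (by norm_num) (by norm_num) (by norm_num) (by norm_num) rfl rfl (by norm_num) rfl rfl rfl (by norm_num) (by norm_num)
  exact up8 1 0.04 0.4042 1.0171 1.0357 0.961 0.4443 0.08924 0.09618 B (by norm_num) ht' hs hD (by norm_num) hJ hc hd (by norm_num) (by norm_num) (by norm_num) hY (by norm_num)
    (ch1 (a := 1) (by norm_num) (sqR h1 h3 (by norm_num)) (by norm_num) h1 h2 (by norm_num) (by norm_num)) (by norm_num)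
    (expn 2 0.4174 (by norm_num) (by norm_num) (by norm_num) (by norm_num)) (by norm_num) (by norm_num)

theorem b8_10_A3R {β r h κ T t s u Y : ℝ} (B : By 1 1.13 0.5 0.4962 17.642 0.0567 5.441 β r h κ T) (hs : t + κ = s * h)
    (h1 : 0.05 ≤ u) (h2 : u ≤ 0.37) (h3 : u ≤ s) (h4 : s ≤ u + 0) (htp : t + 2 * h ≤ Real.pi / 2)
    (hY : eN r κ * (0.961 * Real.exp (-(T * (1 / 2 * u ^ 2)))) ≤ Y) :
    ‖Xf β r h t 3‖ ≤ 0.0018039 * Y := by
  refine leE (cR8 2 0.46 0.3276 1.61 1.8614 _ _ _ _ _ 0.2413 2.1466 0.399 0.467 0.8463 0.961 1.3754 0.0005632 0.001259 0.0685 0.7823 0.9788 4.2003 0.0001199 0.0005449 B (by norm_num) hs htp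
    (mlo8 B.P (x1 := 2.05) (by linarith) (by norm_num) (by norm_num)) (mhi8 B.P (x2 := 2.37) (by linarith) (by norm_num) (by norm_num)) hY g1_nn
    (g1_le (by linarith) h2 (by norm_num)) (ch1 (a := 2) (by norm_num) (sqR h1 h3 (by norm_num)) (by norm_num) h1 h2 (by norm_num) (by norm_num))
    (by norm_num) (by norm_num) (by norm_num) (by norm_num) rfl rfl (by norm_num) rfl rfl rfl (by norm_num) (by norm_num) (by norm_num) (by norm_num) (by norm_num) (by norm_num) (by norm_num) (by norm_num) (by norm_num) (by norm_num) (by norm_num) (by norm_num) (by norm_num) (by norm_num) (by norm_num) (by norm_num) (by norm_num) (by norm_num) (by norm_num)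
    (expn 7 0.4835 (by norm_num) (by norm_num) (by norm_num) (by norm_num)) (by norm_num) (by norm_num) (by norm_num) (by norm_num) (by norm_num) (by norm_num) (by norm_num) (by norm_num) (expn 9 0.0291 (by norm_num) (by norm_num) (by norm_num) (by norm_num)) (by norm_num) (by norm_num)) (by norm_num) hY (by norm_num)

theorem b8_10_A3 {β r h κ T t s u Y : ℝ} (B : By 1 1.13 0.5 0.4962 17.642 0.0567 5.441 β r h κ T) (hs : t + κ = s * h)
    (h1 : 0.05 ≤ u) (h2 : u ≤ 0.37) (h3 : u ≤ s) (h4 : s ≤ u + 0)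
    (hY : eN r κ * (0.961 * Real.exp (-(T * (1 / 2 * u ^ 2)))) ≤ Y) :
    ‖Xf β r h t 3‖ ≤ 0.0018039 * Y := by
  have hp : t + 2 * h ≤ Real.pi / 2 := by
    have e : t + 2 * h = (s + 2) * h - κ := by linear_combination hs
    have := mhi8 B.P (x := s + 2) (x2 := 2.37) (by linarith) (by norm_num) (le_refl _)
    have := B.hk1
    have := Real.pi_gt_d6
    rw [e]
    norm_num at *
    linarith
  exact leE (b8_10_A3R B hs h1 h2 h3 h4 hp hY) (by norm_num) hY (by norm_num)

theorem b8_10_A4 {β r h κ T t s u Y : ℝ} (B : By 1 1.13 0.5 0.4962 17.642 0.0567 5.441 β r h κ T) (hs : t + κ = s * h)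
    (h1 : 0.05 ≤ u) (h2 : u ≤ 0.37) (h3 : u ≤ s) (h4 : s ≤ u + 0)
    (hY : eN r κ * (0.961 * Real.exp (-(T * (1 / 2 * u ^ 2)))) ≤ Y) :
    ‖Xf β r h t (4)‖ ≤ 0.0002593 * Y := by
  refine cU8 0 (3) 1.2654 2.6468 0.4 0.399 0.4 1.3131 0.961 0.0685 0.7823 0.9788 4.2003 0.00003677 0.0002593 B (by norm_num) hs
    (fullz8 B.P B.hk2 (x1 := 3.05) (by push_cast; linarith) (by norm_num) (by norm_num)) (mhi8 B.P (x2 := 3.37) (by push_cast; linarith) (by norm_num) (by norm_num)) hY g1_nn (g1_le (by linarith) h2 (by norm_num))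
    (by norm_num) (by norm_num) (by norm_num) (by norm_num) (by norm_num) (by norm_num) (by norm_num) (by norm_num) (by norm_num) (by norm_num) (by norm_num) (by norm_num) (by norm_num) (by norm_num) (by norm_num) (by norm_num) (by norm_num) (by norm_num) (by norm_num)
    (expn 10 0.2111 (by norm_num) (by norm_num) (by norm_num) (by norm_num)) (by norm_num) (by norm_num)

theorem b8_10_Am1 {β r h κ T t s u Y : ℝ} (B : By 1 1.13 0.5 0.4962 17.642 0.0567 5.441 β r h κ T) (hs : t + κ = s * h)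
    (h1 : 0.05 ≤ u) (h2 : u ≤ 0.37) (h3 : u ≤ s) (h4 : s ≤ u + 0)
    (hY : eN r κ * (0.961 * Real.exp (-(T * (1 / 2 * u ^ 2)))) ≤ Y) :
    ‖Xf β r h t (-1)‖ ≤ 0.0013031507 * Y := by
  refine leE (cL8 (-2) 1.12 0.5 1.2801 1.5316 _ _ _ _ _ 2.6993 1.1738 0.399 0 0.8504 0.961 1.26 0.001066 0.001303 0.0685 0.7823 0.9788 4.2003 0.00000003299 0.0000001507 B (by norm_num) hs
    (mloN8 B.P (x1 := 1.63) (by linarith) (by norm_num) (by norm_num)) (mhiN8 B.P (x2 := 1.95) (by linarith) (by norm_num) (by norm_num)) hY g1_nn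
    (g1_le (by linarith) h2 (by norm_num)) (ch1 (a := (-2)) (by norm_num) (sqL h2 h4 (by norm_num) (by norm_num)) (by norm_num) h1 h2 (by norm_num) (by norm_num))
    (by norm_num) (by norm_num) (by norm_num) (by norm_num) rfl rfl (by norm_num) rfl rfl rfl (by norm_num) (by norm_num) (by norm_num) (by norm_num) (by norm_num) (by norm_num) (by norm_num) (by norm_num) (by norm_num) (by norm_num) (by norm_num) (by norm_num) (by norm_num) (by norm_num) (by norm_num) (by norm_num) (by norm_num) (by norm_num)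
    (expn 6 0.8556 (by norm_num) (by norm_num) (by norm_num) (by norm_num)) (by norm_num) (by norm_num) (by norm_num) (by norm_num) (by norm_num) (by norm_num) (by norm_num) (by norm_num) (expn 16 1.2679 (by norm_num) (by norm_num) (by norm_num) (by norm_num)) (by norm_num) (by norm_num)) (by norm_num) hY (by norm_num)

theorem b8_10_Am2 {β r h κ T t s u Y : ℝ} (B : By 1 1.13 0.5 0.4962 17.642 0.0567 5.441 β r h κ T) (hs : t + κ = s * h)
    (h1 : 0.05 ≤ u) (h2 : u ≤ 0.37) (h3 : u ≤ s) (h4 : s ≤ u + 0)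
    (hY : eN r κ * (0.961 * Real.exp (-(T * (1 / 2 * u ^ 2)))) ≤ Y) :
    ‖Xf β r h t (-2)‖ ≤ 0.00000018549 * Y := by
  refine leE (cL8 (-3) 0.76 0.4778 2.0655 2.317 _ _ _ _ _ 2.996 1.1436 0.399 0 0.8663 0.961 3.2364 0.00000002688 0.00000003199 0.0685 0.7823 0.9788 4.2003 0.00000003299 0.0000001535 B (by norm_num) hs
    (mloN8 B.P (x1 := 2.63) (by linarith) (by norm_num) (by norm_num)) (mhiN8 B.P (x2 := 2.95) (by linarith) (by norm_num) (by norm_num)) hY g1_nn
    (g1_le (by linarith) h2 (by norm_num)) (ch1 (a := (-3)) (by norm_num) (sqL h2 h4 (by norm_num) (by norm_num)) (by norm_num) h1 h2 (by norm_num) (by norm_num))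
    (by norm_num) (by norm_num) (by norm_num) (by norm_num) rfl rfl (by norm_num) rfl rfl rfl (by norm_num) (by norm_num) (by norm_num) (by norm_num) (by norm_num) (by norm_num) (by norm_num) (by norm_num) (by norm_num) (by norm_num) (by norm_num) (by norm_num) (by norm_num) (by norm_num) (by norm_num) (by norm_num) (by norm_num) (by norm_num)
    (expn 16 1.5 (by norm_num) (by norm_num) (by norm_num) (by norm_num)) (by norm_num) (by norm_num) (by norm_num) (by norm_num) (by norm_num) (by norm_num) (by norm_num) (by norm_num) (expn 16 1.2679 (by norm_num) (by norm_num) (by norm_num) (by norm_num)) (by norm_num) (by norm_num)) (by norm_num) hY (by norm_num)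

theorem b8_10_Am3 {β r h κ T t s u Y : ℝ} (B : By 1 1.13 0.5 0.4962 17.642 0.0567 5.441 β r h κ T) (hs : t + κ = s * h)
    (h1 : 0.05 ≤ u) (h2 : u ≤ 0.37) (h3 : u ≤ s) (h4 : s ≤ u + 0)
    (hY : eN r κ * (0.961 * Real.exp (-(T * (1 / 2 * u ^ 2)))) ≤ Y) :
    ‖Xf β r h t (-3)‖ ≤ 0.0000002376 * Y := by
  refine cU8 1 (-4) 2.0508 3.4322 0.02 0.399 0.02 0.9676 0.961 0.0685 0.7823 0.9788 4.2003 0.00000004572 0.0000002376 B (by norm_num) hs
    (full8 B.P B.hk2 (x1 := 4.05) (by push_cast; linarith) (by norm_num) (by norm_num)) (mhi8 B.P (x2 := 4.37) (by push_cast; linarith) (by norm_num) (by norm_num)) hY g1_nn (g1_le (by linarith) h2 (by norm_num))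
    (by norm_num) (by norm_num) (by norm_num) (by norm_num) (by norm_num) (by norm_num) (by norm_num) (by norm_num) (by norm_num) (by norm_num) (by norm_num) (by norm_num) (by norm_num) (by norm_num) (by norm_num) (by norm_num) (by norm_num) (by norm_num) (by norm_num)
    (expn 16 0.9151 (by norm_num) (by norm_num) (by norm_num) (by norm_num)) (by norm_num) (by norm_num)

private theorem b8_10_Bo_y {κ t : ℝ} (h : DomR κ t) (hk1 : 1 ≤ κ) (hk2 : κ ≤ 1.13) (ht1 : (-0.4949) ≤ t + κ) (ht2 : t + κ ≤ (-0.4476)) :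
    (-0.274) ≤ sy κ t ∧ sy κ t ≤ (-0.236) := by
  have hy1 : -0.274 ≤ sy κ t := syL_ge h 1 1.13 0.4949 0.274 0.76033 0.76034 0.1923 0.18436 0.20834 hk1 hk2 (by linarith) (by norm_num) (by norm_num) (by norm_num)
    (expm_ge (by norm_num) (by norm_num) (by norm_num) (by norm_num)) (expm_le (by norm_num) (by norm_num) (by norm_num)) (by norm_num)
    (by norm_num) (by norm_num) (by norm_num) (by norm_num) (by norm_num) (by norm_num)
  have hy2 : sy κ t ≤ -0.236 := syL_le h 1 1.13 0.4476 0.236 0.78978 0.78979 0.16494 0.1864 hk1 hk2 (by linarith) (by norm_num) (by norm_num) (by norm_num)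
    (expm_ge (by norm_num) (by norm_num) (by norm_num) (by norm_num)) (expm_le (by norm_num) (by norm_num) (by norm_num)) (by norm_num)
    (by norm_num) (by norm_num) (by norm_num) (by norm_num) (by norm_num) (by norm_num)
  exact ⟨by linarith, by linarith⟩

theorem b8_10_Bo {β r h κ T t s u Y : ℝ} (B : By 1 1.13 0.5 0.4962 17.642 0.0567 5.441 β r h κ T) (hs : t + κ = s * h)
    (h1 : 0.37 ≤ u) (h2 : u ≤ 0.43) (h3 : u ≤ s) (h4 : s ≤ u + 0)
    (hY : eN r κ * (0.961 * Real.exp (-(T * (1 / 2 * u ^ 2)))) ≤ Y) :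
    ‖Xf β r h t 0‖ ≤ 0.765 * Y := by
  obtain ⟨t', ht'⟩ : ∃ t', t' = t + (-1) * h := ⟨_, rfl⟩
  have hτ : t' + κ = (s + (-1)) * h := by rw [ht']; linear_combination hs
  have a1 : (-0.4949) ≤ t' + κ := by rw [hτ]; have := mhiN8 B.P (x := s + (-1)) (x2 := 0.63) (τ2 := 0.4949) (by linarith) (by norm_num) (by norm_num); linarith
  have a2 : t' + κ ≤ (-0.4476) := by rw [hτ]; have := mloN8 B.P (x := s + (-1)) (x1 := 0.57) (τ1 := 0.4476) (by linarith) (by norm_num) (by norm_num); linarith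
  have hk := B.hk1
  have hk' := B.P.hκ1
  have hD : DomR κ t' := dom7 B.P.κ0 (by linarith) (by linarith)
  have hy := b8_10_Bo_y hD B.hk1 B.hk2 a1 a2
  have hJ : ‖HH β (sg κ t') - 1‖ ≤ 0.07 := JB8_k0 hD B.P.hβ (by linarith) B.P.hκ1 (by linarith) (by linarith) B.P.βκ B.P.βR
  have hd := Dlo7 hD (1 ^ 2) (1.13 ^ 2) 1.0655 (-0.274) (-0.236) (-0.2436) 1.62775 hy.1 hy.2 (pow_le_pow_left₀ (by norm_num) B.hk1 2) (pow_le_pow_left₀ B.P.κ0.le B.hk2 2)
      (by rw [show (-2 * (-0.2436) : ℝ) = 0.4872 by norm_num]; exact expn_ge (by norm_num) (by norm_num)) (by norm_num) (by norm_num) (by norm_num) (by norm_num) (by norm_num)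
  have hc : sE κ t' ≤ 1 - 0.4885 * (t' + κ) ^ 2 / (1 + κ ^ 2) := VL_04_05 hD (by linarith) (by linarith) (by linarith)
  exact up8 (-1) 0.07 0.4885 1.0655 1.0532 0.961 0.0662 0.698 0.765 B (by norm_num) ht' hs hD (by norm_num) hJ hc hd (by norm_num) (by norm_num) (by norm_num) hY (by norm_num)
    (ch1 (a := (-1)) (by norm_num) (sqL h2 h4 (by norm_num) (by norm_num)) (by norm_num) h1 h2 (by norm_num) (by norm_num)) (by norm_num)
    (expn 0 0.3601 (by norm_num) (by norm_num) (by norm_num) (by norm_num)) (by norm_num) (by norm_num)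

private theorem b8_10_B2_y {κ t : ℝ} (h : DomR κ t) (hk1 : 1 ≤ κ) (hk2 : κ ≤ 1.13) (ht1 : 1.0759 ≤ t + κ) (ht2 : t + κ ≤ 1.1232) :
    0.391 ≤ sy κ t ∧ sy κ t ≤ 0.424 := by
  have hy1 : 0.391 ≤ sy κ t := syR_ge h 1 1.13 1.0759 0.391 1.47845 1.47846 0.51156 0.57808 hk1 hk2 (by linarith) (by norm_num) (by norm_num)
    (expn_ge (by norm_num) (by norm_num)) (expn_le (by norm_num) (by norm_num) (by norm_num)) (by norm_num)
    (by norm_num) (by norm_num) (by norm_num) (by norm_num) (by norm_num) (by norm_num)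
  have hy2 : sy κ t ≤ 0.424 := syR_le h 1 1.13 1.1232 0.424 1.52806 0.5547 0.57336 0.64791 hk1 hk2 (by linarith) (by norm_num) (by norm_num)
    (expn_ge (by norm_num) (by norm_num)) (by norm_num) (by norm_num) (Or.inr ((mul_le_mul_of_nonneg_left (expn_le (E := 1.52807) (by norm_num) (by norm_num) (by norm_num)) (by norm_num)).trans (by norm_num))) (by norm_num) (by norm_num) (by norm_num)
  exact ⟨by linarith, by linarith⟩

theorem b8_10_B2 {β r h κ T t s u Y : ℝ} (B : By 1 1.13 0.5 0.4962 17.642 0.0567 5.441 β r h κ T) (hs : t + κ = s * h)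
    (h1 : 0.37 ≤ u) (h2 : u ≤ 0.43) (h3 : u ≤ s) (h4 : s ≤ u + 0)
    (hY : eN r κ * (0.961 * Real.exp (-(T * (1 / 2 * u ^ 2)))) ≤ Y) :
    ‖Xf β r h t 2‖ ≤ 0.02558 * Y := by
  obtain ⟨t', ht'⟩ : ∃ t', t' = t + 1 * h := ⟨_, rfl⟩
  have hτ : t' + κ = (s + 1) * h := by rw [ht']; linear_combination hs
  have a1 : 1.0759 ≤ t' + κ := by rw [hτ]; exact mlo8 B.P (x1 := 1.37) (by linarith) (by norm_num) (by norm_num)
  have a2 : t' + κ ≤ 1.1232 := by rw [hτ]; exact mhi8 B.P (x2 := 1.43) (by linarith) (by norm_num) (by norm_num)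
  have hk := B.hk1
  have hk' := B.P.hκ1
  have hD : DomR κ t' := dom7 B.P.κ0 (by linarith) (by linarith)
  have hy := b8_10_B2_y hD B.hk1 B.hk2 a1 a2
  have hJ : ‖HH β (sg κ t') - 1‖ ≤ 0.04 := JB8_k2 hD B.P.hβ (by linarith) B.P.hκ1 (by linarith) (by linarith) B.P.βκ B.P.βR
  have hd := Dlo7 hD (1 ^ 2) (1.13 ^ 2) 1.0392 0.391 0.424 0.391 0.45749 hy.1 hy.2 (pow_le_pow_left₀ (by norm_num) B.hk1 2) (pow_le_pow_left₀ B.P.κ0.le B.hk2 2)
      (by rw [show (-2 * 0.391 : ℝ) = -0.782 by norm_num]; exact expm_ge (by norm_num) (by norm_num) (by norm_num) (by norm_num)) (by norm_num) (by norm_num) (by norm_num) (by norm_num) (by norm_num)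
  have hc : sE κ t' ≤ 1 - 0.403 * (t' + κ) ^ 2 / (1 + κ ^ 2) := VR8 0.71 0.403 1.0759 1.1232 _ _ _ _ _ B hD a1 a2 (by norm_num) (by norm_num) (by norm_num) (by norm_num) rfl rfl (by norm_num) rfl rfl rfl (by norm_num) (by norm_num)
  exact up8 1 0.04 0.403 1.0392 1.0301 0.961 0.6879 0.02386 0.02558 B (by norm_num) ht' hs hD (by norm_num) hJ hc hd (by norm_num) (by norm_num) (by norm_num) hY (by norm_num)
    (ch1 (a := 1) (by norm_num) (sqR h1 h3 (by norm_num)) (by norm_num) h1 h2 (by norm_num) (by norm_num)) (by norm_num)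
    (expn 3 0.7428 (by norm_num) (by norm_num) (by norm_num) (by norm_num)) (by norm_num) (by norm_num)

theorem b8_10_B3R {β r h κ T t s u Y : ℝ} (B : By 1 1.13 0.5 0.4962 17.642 0.0567 5.441 β r h κ T) (hs : t + κ = s * h)
    (h1 : 0.37 ≤ u) (h2 : u ≤ 0.43) (h3 : u ≤ s) (h4 : s ≤ u + 0) (htp : t + 2 * h ≤ Real.pi / 2)
    (hY : eN r κ * (0.961 * Real.exp (-(T * (1 / 2 * u ^ 2)))) ≤ Y) :
    ‖Xf β r h t 3‖ ≤ 0.0002628 * Y := by
  refine leE (cR8 2 0.46 0.327 1.8613 1.9086 _ _ _ _ _ 0.2227 2.1901 0.399 0.3686 0.855 0.961 1.7682 0.0000666 0.0001518 0.0925 0.7823 0.9714 4.2003 0.00002417 0.000111 B (by norm_num) hs htp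
    (mlo8 B.P (x1 := 2.37) (by linarith) (by norm_num) (by norm_num)) (mhi8 B.P (x2 := 2.43) (by linarith) (by norm_num) (by norm_num)) hY g1_nn
    (g1_le (by linarith) h2 (by norm_num)) (ch1 (a := 2) (by norm_num) (sqR h1 h3 (by norm_num)) (by norm_num) h1 h2 (by norm_num) (by norm_num))
    (by norm_num) (by norm_num) (by norm_num) (by norm_num) rfl rfl (by norm_num) rfl rfl rfl (by norm_num) (by norm_num) (by norm_num) (by norm_num) (by norm_num) (by norm_num) (by norm_num) (by norm_num) (by norm_num) (by norm_num) (by norm_num) (by norm_num) (by norm_num) (by norm_num) (by norm_num) (by norm_num) (by norm_num) (by norm_num) (by norm_num)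
    (expn 9 0.6207 (by norm_num) (by norm_num) (by norm_num) (by norm_num)) (by norm_num) (by norm_num) (by norm_num) (by norm_num) (by norm_num) (by norm_num) (by norm_num) (by norm_num) (expn 10 0.6345 (by norm_num) (by norm_num) (by norm_num) (by norm_num)) (by norm_num) (by norm_num)) (by norm_num) hY (by norm_num)

theorem b8_10_B3 {β r h κ T t s u Y : ℝ} (B : By 1 1.13 0.5 0.4962 17.642 0.0567 5.441 β r h κ T) (hs : t + κ = s * h)
    (h1 : 0.37 ≤ u) (h2 : u ≤ 0.43) (h3 : u ≤ s) (h4 : s ≤ u + 0)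
    (hY : eN r κ * (0.961 * Real.exp (-(T * (1 / 2 * u ^ 2)))) ≤ Y) :
    ‖Xf β r h t 3‖ ≤ 0.0002628 * Y := by
  have hp : t + 2 * h ≤ Real.pi / 2 := by
    have e : t + 2 * h = (s + 2) * h - κ := by linear_combination hs
    have := mhi8 B.P (x := s + 2) (x2 := 2.43) (by linarith) (by norm_num) (le_refl _)
    have := B.hk1
    have := Real.pi_gt_d6
    rw [e]
    norm_num at *
    linarith
  exact leE (b8_10_B3R B hs h1 h2 h3 h4 hp hY) (by norm_num) hY (by norm_num)

theorem b8_10_B4 {β r h κ T t s u Y : ℝ} (B : By 1 1.13 0.5 0.4962 17.642 0.0567 5.441 β r h κ T) (hs : t + κ = s * h)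
    (h1 : 0.37 ≤ u) (h2 : u ≤ 0.43) (h3 : u ≤ s) (h4 : s ≤ u + 0)
    (hY : eN r κ * (0.961 * Real.exp (-(T * (1 / 2 * u ^ 2)))) ≤ Y) :
    ‖Xf β r h t (4)‖ ≤ 0.000001456 * Y := by
  refine cU8 0 (3) 1.5167 2.694 0.08 0.399 0.08 1.8198 0.961 0.0925 0.7823 0.9714 4.2003 0.000000149 0.000001456 B (by norm_num) hs
    (fullz8 B.P B.hk2 (x1 := 3.37) (by push_cast; linarith) (by norm_num) (by norm_num)) (mhi8 B.P (x2 := 3.43) (by push_cast; linarith) (by norm_num) (by norm_num)) hY g1_nn (g1_le (by linarith) h2 (by norm_num))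
    (by norm_num) (by norm_num) (by norm_num) (by norm_num) (by norm_num) (by norm_num) (by norm_num) (by norm_num) (by norm_num) (by norm_num) (by norm_num) (by norm_num) (by norm_num) (by norm_num) (by norm_num) (by norm_num) (by norm_num) (by norm_num) (by norm_num)
    (expn 15 0.726 (by norm_num) (by norm_num) (by norm_num) (by norm_num)) (by norm_num) (by norm_num)

theorem b8_10_Bm1 {β r h κ T t s u Y : ℝ} (B : By 1 1.13 0.5 0.4962 17.642 0.0567 5.441 β r h κ T) (hs : t + κ = s * h)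
    (h1 : 0.37 ≤ u) (h2 : u ≤ 0.43) (h3 : u ≤ s) (h4 : s ≤ u + 0)
    (hY : eN r κ * (0.961 * Real.exp (-(T * (1 / 2 * u ^ 2)))) ≤ Y) :
    ‖Xf β r h t (-1)‖ ≤ 0.0023941653 * Y := by
  refine leE (cL8 (-2) 1.26 0.5 1.233 1.2802 _ _ _ _ _ 3.0798 1.1357 0.399 0 0.8287 0.961 1.14 0.002025 0.002394 0.0925 0.7823 0.9714 4.2003 0.00000003715 0.0000001653 B (by norm_num) hs
    (mloN8 B.P (x1 := 1.57) (by linarith) (by norm_num) (by norm_num)) (mhiN8 B.P (x2 := 1.63) (by linarith) (by norm_num) (by norm_num)) hY g1_nn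
    (g1_le (by linarith) h2 (by norm_num)) (ch1 (a := (-2)) (by norm_num) (sqL h2 h4 (by norm_num) (by norm_num)) (by norm_num) h1 h2 (by norm_num) (by norm_num))
    (by norm_num) (by norm_num) (by norm_num) (by norm_num) rfl rfl (by norm_num) rfl rfl rfl (by norm_num) (by norm_num) (by norm_num) (by norm_num) (by norm_num) (by norm_num) (by norm_num) (by norm_num) (by norm_num) (by norm_num) (by norm_num) (by norm_num) (by norm_num) (by norm_num) (by norm_num) (by norm_num) (by norm_num) (by norm_num)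
    (expn 6 0.2027 (by norm_num) (by norm_num) (by norm_num) (by norm_num)) (by norm_num) (by norm_num) (by norm_num) (by norm_num) (by norm_num) (by norm_num) (by norm_num) (by norm_num) (expn 16 1.1374 (by norm_num) (by norm_num) (by norm_num) (by norm_num)) (by norm_num) (by norm_num)) (by norm_num) hY (by norm_num)

theorem b8_10_Bm2 {β r h κ T t s u Y : ℝ} (B : By 1 1.13 0.5 0.4962 17.642 0.0567 5.441 β r h κ T) (hs : t + κ = s * h)
    (h1 : 0.37 ≤ u) (h2 : u ≤ 0.43) (h3 : u ≤ s) (h4 : s ≤ u + 0)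
    (hY : eN r κ * (0.961 * Real.exp (-(T * (1 / 2 * u ^ 2)))) ≤ Y) :
    ‖Xf β r h t (-2)‖ ≤ 0.00000020326 * Y := by
  refine leE (cL8 (-3) 0.84 0.5 2.0184 2.0656 _ _ _ _ _ 3.3454 1.1125 0.399 0 0.8582 0.961 3.21 0.00000002769 0.00000003206 0.0925 0.7823 0.9714 4.2003 0.00000003715 0.0000001712 B (by norm_num) hs
    (mloN8 B.P (x1 := 2.57) (by linarith) (by norm_num) (by norm_num)) (mhiN8 B.P (x2 := 2.63) (by linarith) (by norm_num) (by norm_num)) hY g1_nn
    (g1_le (by linarith) h2 (by norm_num)) (ch1 (a := (-3)) (by norm_num) (sqL h2 h4 (by norm_num) (by norm_num)) (by norm_num) h1 h2 (by norm_num) (by norm_num))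
    (by norm_num) (by norm_num) (by norm_num) (by norm_num) rfl rfl (by norm_num) rfl rfl rfl (by norm_num) (by norm_num) (by norm_num) (by norm_num) (by norm_num) (by norm_num) (by norm_num) (by norm_num) (by norm_num) (by norm_num) (by norm_num) (by norm_num) (by norm_num) (by norm_num) (by norm_num) (by norm_num) (by norm_num) (by norm_num)
    (expn 16 1.4656 (by norm_num) (by norm_num) (by norm_num) (by norm_num)) (by norm_num) (by norm_num) (by norm_num) (by norm_num) (by norm_num) (by norm_num) (by norm_num) (by norm_num) (expn 16 1.1374 (by norm_num) (by norm_num) (by norm_num) (by norm_num)) (by norm_num) (by norm_num)) (by norm_num) hY (by norm_num)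

theorem b8_10_Bm3 {β r h κ T t s u Y : ℝ} (B : By 1 1.13 0.5 0.4962 17.642 0.0567 5.441 β r h κ T) (hs : t + κ = s * h)
    (h1 : 0.37 ≤ u) (h2 : u ≤ 0.43) (h3 : u ≤ s) (h4 : s ≤ u + 0)
    (hY : eN r κ * (0.961 * Real.exp (-(T * (1 / 2 * u ^ 2)))) ≤ Y) :
    ‖Xf β r h t (-3)‖ ≤ 0.0000002649 * Y := by
  refine cU8 1 (-4) 2.3021 3.4794 0.02 0.399 0.02 0.9524 0.961 0.0925 0.7823 0.9714 4.2003 0.0000000518 0.0000002649 B (by norm_num) hs
    (full8 B.P B.hk2 (x1 := 4.37) (by push_cast; linarith) (by norm_num) (by norm_num)) (mhi8 B.P (x2 := 4.43) (by push_cast; linarith) (by norm_num) (by norm_num)) hY g1_nn (g1_le (by linarith) h2 (by norm_num))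
    (by norm_num) (by norm_num) (by norm_num) (by norm_num) (by norm_num) (by norm_num) (by norm_num) (by norm_num) (by norm_num) (by norm_num) (by norm_num) (by norm_num) (by norm_num) (by norm_num) (by norm_num) (by norm_num) (by norm_num) (by norm_num) (by norm_num)
    (expn 16 0.7845 (by norm_num) (by norm_num) (by norm_num) (by norm_num)) (by norm_num) (by norm_num)

private theorem b8_10_Co_y {κ t : ℝ} (h : DomR κ t) (hk1 : 1 ≤ κ) (hk2 : κ ≤ 1.13) (ht1 : 0.4633 ≤ t + κ) (ht2 : t + κ ≤ 0.5891) :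
    0.203 ≤ sy κ t ∧ sy κ t ≤ 0.256 := by
  have hy1 : 0.203 ≤ sy κ t := syR_ge h 1 1.13 0.4633 0.203 1.22507 1.22508 0.22007 0.2487 hk1 hk2 (by linarith) (by norm_num) (by norm_num)
    (expn_ge (by norm_num) (by norm_num)) (expn_le (by norm_num) (by norm_num) (by norm_num)) (by norm_num)
    (by norm_num) (by norm_num) (by norm_num) (by norm_num) (by norm_num) (by norm_num)
  have hy2 : sy κ t ≤ 0.256 := syR_le h 1 1.13 0.5891 0.256 1.29175 0.2831 0.29264 0.3307 hk1 hk2 (by linarith) (by norm_num) (by norm_num)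
    (expn_ge (by norm_num) (by norm_num)) (by norm_num) (by norm_num) (Or.inr ((mul_le_mul_of_nonneg_left (expn_le (E := 1.29176) (by norm_num) (by norm_num) (by norm_num)) (by norm_num)).trans (by norm_num))) (by norm_num) (by norm_num) (by norm_num)
  exact ⟨by linarith, by linarith⟩

theorem b8_10_Co {β r h κ T t s u Y : ℝ} (B : By 1 1.13 0.5 0.4962 17.642 0.0567 5.441 β r h κ T) (hs : t + κ = s * h)
    (h1 : 0.59 ≤ u) (h2 : u ≤ 0.75) (h3 : u ≤ s) (h4 : s ≤ u + 0)
    (hY : eN r κ * (0.8999 * Real.exp (-(T * (0.5425 * (1 - u) ^ 2)))) ≤ Y) :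
    ‖Xf β r h t 1‖ ≤ 0.81 * Y := by
  obtain ⟨t', ht'⟩ : ∃ t', t' = t + 0 * h := ⟨_, rfl⟩
  have hτ : t' + κ = (s + 0) * h := by rw [ht']; linear_combination hs
  have a1 : 0.4633 ≤ t' + κ := by rw [hτ]; exact mlo8 B.P (x1 := 0.59) (by linarith) (by norm_num) (by norm_num)
  have a2 : t' + κ ≤ 0.5891 := by rw [hτ]; exact mhi8 B.P (x2 := 0.75) (by linarith) (by norm_num) (by norm_num)
  have hk := B.hk1
  have hk' := B.P.hκ1
  have hD : DomR κ t' := dom7 B.P.κ0 (by linarith) (by linarith)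
  have hy := b8_10_Co_y hD B.hk1 B.hk2 a1 a2
  have hJ : ‖HH β (sg κ t') - 1‖ ≤ 0.03 := JB8_k1 hD B.P.hβ (by linarith) B.P.hκ1 (by linarith) (by linarith) B.P.βκ B.P.βR
  have hd := Dlo7 hD (1 ^ 2) (1.13 ^ 2) 0.9911 0.203 0.256 0.203 0.66631 hy.1 hy.2 (pow_le_pow_left₀ (by norm_num) B.hk1 2) (pow_le_pow_left₀ B.P.κ0.le B.hk2 2)
      (by rw [show (-2 * 0.203 : ℝ) = -0.406 by norm_num]; exact expm_ge (by norm_num) (by norm_num) (by norm_num) (by norm_num)) (by norm_num) (by norm_num) (by norm_num) (by norm_num) (by norm_num)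
  have hc : sE κ t' ≤ 1 - 0.4463 * (t' + κ) ^ 2 / (1 + κ ^ 2) := VR8 0.84 0.4463 0.4633 0.5891 _ _ _ _ _ B hD a1 a2 (by norm_num) (by norm_num) (by norm_num) (by norm_num) rfl rfl (by norm_num) rfl rfl rfl (by norm_num) (by norm_num)
  exact up8 0 0.03 0.4463 0.9911 1.0324 0.8999 0.0641 0.706 0.81 B (by norm_num) ht' hs hD (by norm_num) hJ hc hd (by norm_num) (by norm_num) (by norm_num) hY (by norm_num)
    (ch0 (a := 0) (by norm_num) (sqR h1 h3 (by norm_num)) (by norm_num) h1 h2 (by norm_num) (by norm_num)) (by norm_num)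
    (expn 0 0.3487 (by norm_num) (by norm_num) (by norm_num) (by norm_num)) (by norm_num) (by norm_num)

theorem b8_10_C2R {β r h κ T t s u Y : ℝ} (B : By 1 1.13 0.5 0.4962 17.642 0.0567 5.441 β r h κ T) (hs : t + κ = s * h)
    (h1 : 0.59 ≤ u) (h2 : u ≤ 0.75) (h3 : u ≤ s) (h4 : s ≤ u + 0) (htp : t + 1 * h ≤ Real.pi / 2)
    (hY : eN r κ * (0.8999 * Real.exp (-(T * (0.5425 * (1 - u) ^ 2)))) ≤ Y) :
    ‖Xf β r h t 2‖ ≤ 0.025696 * Y := by
  refine leE (cR8 1 0.56 0.3706 1.2487 1.3745 _ _ _ _ _ 0.3149 2.0084 0.399 0.5589 0.8118 0.8999 0.8457 0.01008 0.0225 0.0912 0.7325 0.9718 4.2003 0.0006864 0.003196 B (by norm_num) hs htp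
    (mlo8 B.P (x1 := 1.59) (by linarith) (by norm_num) (by norm_num)) (mhi8 B.P (x2 := 1.75) (by linarith) (by norm_num) (by norm_num)) hY (g0_nn (by norm_num))
    (g0_le (by norm_num) h1 h2 (by norm_num) (by norm_num)) (ch0 (a := 1) (by norm_num) (sqR h1 h3 (by norm_num)) (by norm_num) h1 h2 (by norm_num) (by norm_num))
    (by norm_num) (by norm_num) (by norm_num) (by norm_num) rfl rfl (by norm_num) rfl rfl rfl (by norm_num) (by norm_num) (by norm_num) (by norm_num) (by norm_num) (by norm_num) (by norm_num) (by norm_num) (by norm_num) (by norm_num) (by norm_num) (by norm_num) (by norm_num) (by norm_num) (by norm_num) (by norm_num) (by norm_num) (by norm_num) (by norm_num)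
    (expn 4 0.6014 (by norm_num) (by norm_num) (by norm_num) (by norm_num)) (by norm_num) (by norm_num) (by norm_num) (by norm_num) (by norm_num) (by norm_num) (by norm_num) (by norm_num) (expn 7 0.2843 (by norm_num) (by norm_num) (by norm_num) (by norm_num)) (by norm_num) (by norm_num)) (by norm_num) hY (by norm_num)

theorem b8_10_C2 {β r h κ T t s u Y : ℝ} (B : By 1 1.13 0.5 0.4962 17.642 0.0567 5.441 β r h κ T) (hs : t + κ = s * h)
    (h1 : 0.59 ≤ u) (h2 : u ≤ 0.75) (h3 : u ≤ s) (h4 : s ≤ u + 0)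
    (hY : eN r κ * (0.8999 * Real.exp (-(T * (0.5425 * (1 - u) ^ 2)))) ≤ Y) :
    ‖Xf β r h t 2‖ ≤ 0.025696 * Y := by
  have hp : t + 1 * h ≤ Real.pi / 2 := by
    have e : t + 1 * h = (s + 1) * h - κ := by linear_combination hs
    have := mhi8 B.P (x := s + 1) (x2 := 1.75) (by linarith) (by norm_num) (le_refl _)
    have := B.hk1
    have := Real.pi_gt_d6
    rw [e]
    norm_num at *
    linarith
  exact leE (b8_10_C2R B hs h1 h2 h3 h4 hp hY) (by norm_num) hY (by norm_num)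

theorem b8_10_C3R {β r h κ T t s u Y : ℝ} (B : By 1 1.13 0.5 0.4962 17.642 0.0567 5.441 β r h κ T) (hs : t + κ = s * h)
    (h1 : 0.59 ≤ u) (h2 : u ≤ 0.75) (h3 : u ≤ s) (h4 : s ≤ u + 0) (htp : t + 2 * h ≤ Real.pi / 2)
    (hY : eN r κ * (0.8999 * Real.exp (-(T * (0.5425 * (1 - u) ^ 2)))) ≤ Y) :
    ‖Xf β r h t 3‖ ≤ 0.00009278 * Y := by
  refine leE (cR8 2 0.42 0.3075 2.0341 2.1599 _ _ _ _ _ 0.1977 2.2563 0.399 0.3025 0.8666 0.8999 1.9715 0.0000221 0.00005542 0.0912 0.7325 0.9718 4.2003 0.000007518 0.00003736 B (by norm_num) hs htp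
    (mlo8 B.P (x1 := 2.59) (by linarith) (by norm_num) (by norm_num)) (mhi8 B.P (x2 := 2.75) (by linarith) (by norm_num) (by norm_num)) hY (g0_nn (by norm_num))
    (g0_le (by norm_num) h1 h2 (by norm_num) (by norm_num)) (ch0 (a := 2) (by norm_num) (sqR h1 h3 (by norm_num)) (by norm_num) h1 h2 (by norm_num) (by norm_num))
    (by norm_num) (by norm_num) (by norm_num) (by norm_num) rfl rfl (by norm_num) rfl rfl rfl (by norm_num) (by norm_num) (by norm_num) (by norm_num) (by norm_num) (by norm_num) (by norm_num) (by norm_num) (by norm_num) (by norm_num) (by norm_num) (by norm_num) (by norm_num) (by norm_num) (by norm_num) (by norm_num) (by norm_num) (by norm_num) (by norm_num)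
    (expn 10 0.7269 (by norm_num) (by norm_num) (by norm_num) (by norm_num)) (by norm_num) (by norm_num) (by norm_num) (by norm_num) (by norm_num) (by norm_num) (by norm_num) (by norm_num) (expn 11 0.8077 (by norm_num) (by norm_num) (by norm_num) (by norm_num)) (by norm_num) (by norm_num)) (by norm_num) hY (by norm_num)

theorem b8_10_C3 {β r h κ T t s u Y : ℝ} (B : By 1 1.13 0.5 0.4962 17.642 0.0567 5.441 β r h κ T) (hs : t + κ = s * h)
    (h1 : 0.59 ≤ u) (h2 : u ≤ 0.75) (h3 : u ≤ s) (h4 : s ≤ u + 0)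
    (hY : eN r κ * (0.8999 * Real.exp (-(T * (0.5425 * (1 - u) ^ 2)))) ≤ Y) :
    ‖Xf β r h t 3‖ ≤ 0.00009278 * Y := by
  have hp : t + 2 * h ≤ Real.pi / 2 := by
    have e : t + 2 * h = (s + 2) * h - κ := by linear_combination hs
    have := mhi8 B.P (x := s + 2) (x2 := 2.75) (by linarith) (by norm_num) (le_refl _)
    have := B.hk1
    have := Real.pi_gt_d6
    rw [e]
    norm_num at *
    linarith
  exact leE (b8_10_C3R B hs h1 h2 h3 h4 hp hY) (by norm_num) hY (by norm_num)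

theorem b8_10_C4 {β r h κ T t s u Y : ℝ} (B : By 1 1.13 0.5 0.4962 17.642 0.0567 5.441 β r h κ T) (hs : t + κ = s * h)
    (h1 : 0.59 ≤ u) (h2 : u ≤ 0.75) (h3 : u ≤ s) (h4 : s ≤ u + 0)
    (hY : eN r κ * (0.8999 * Real.exp (-(T * (0.5425 * (1 - u) ^ 2)))) ≤ Y) :
    ‖Xf β r h t (4)‖ ≤ 0.0000003203 * Y := by
  refine cU8 0 (3) 1.6895 2.9453 0.02 0.399 0.02 1.0854 0.8999 0.0912 0.7325 0.9718 4.2003 0.00000005145 0.0000003203 B (by norm_num) hs
    (fullz8 B.P B.hk2 (x1 := 3.59) (by push_cast; linarith) (by norm_num) (by norm_num)) (mhi8 B.P (x2 := 3.75) (by push_cast; linarith) (by norm_num) (by norm_num)) hY (g0_nn (by norm_num)) (g0_le (by norm_num) h1 h2 (by norm_num) (by norm_num))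
    (by norm_num) (by norm_num) (by norm_num) (by norm_num) (by norm_num) (by norm_num) (by norm_num) (by norm_num) (by norm_num) (by norm_num) (by norm_num) (by norm_num) (by norm_num) (by norm_num) (by norm_num) (by norm_num) (by norm_num) (by norm_num) (by norm_num)
    (expn 16 0.7916 (by norm_num) (by norm_num) (by norm_num) (by norm_num)) (by norm_num) (by norm_num)

theorem b8_10_Cm1 {β r h κ T t s u Y : ℝ} (B : By 1 1.13 0.5 0.4962 17.642 0.0567 5.441 β r h κ T) (hs : t + κ = s * h)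
    (h1 : 0.59 ≤ u) (h2 : u ≤ 0.75) (h3 : u ≤ s) (h4 : s ≤ u + 0)
    (hY : eN r κ * (0.8999 * Real.exp (-(T * (0.5425 * (1 - u) ^ 2)))) ≤ Y) :
    ‖Xf β r h t (-1)‖ ≤ 0.0193601568 * Y := by
  refine leE (cL8 (-2) 1.06 0.5228 0.9817 1.1075 _ _ _ _ _ 2.2213 1.2324 0.399 0 0.7405 0.8999 0.7829 0.01413 0.01936 0.0912 0.7325 0.9718 4.2003 0.00000003691 0.0000001568 B (by norm_num) hs
    (mloN8 B.P (x1 := 1.25) (by linarith) (by norm_num) (by norm_num)) (mhiN8 B.P (x2 := 1.41) (by linarith) (by norm_num) (by norm_num)) hY (g0_nn (by norm_num))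
    (g0_le (by norm_num) h1 h2 (by norm_num) (by norm_num)) (ch0 (a := (-2)) (by norm_num) (sqL h2 h4 (by norm_num) (by norm_num)) (by norm_num) h1 h2 (by norm_num) (by norm_num))
    (by norm_num) (by norm_num) (by norm_num) (by norm_num) rfl rfl (by norm_num) rfl rfl rfl (by norm_num) (by norm_num) (by norm_num) (by norm_num) (by norm_num) (by norm_num) (by norm_num) (by norm_num) (by norm_num) (by norm_num) (by norm_num) (by norm_num) (by norm_num) (by norm_num) (by norm_num) (by norm_num) (by norm_num) (by norm_num)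
    (expn 4 0.2597 (by norm_num) (by norm_num) (by norm_num) (by norm_num)) (by norm_num) (by norm_num) (by norm_num) (by norm_num) (by norm_num) (by norm_num) (by norm_num) (by norm_num) (expn 16 1.1444 (by norm_num) (by norm_num) (by norm_num) (by norm_num)) (by norm_num) (by norm_num)) (by norm_num) hY (by norm_num)

theorem b8_10_Cm2 {β r h κ T t s u Y : ℝ} (B : By 1 1.13 0.5 0.4962 17.642 0.0567 5.441 β r h κ T) (hs : t + κ = s * h)
    (h1 : 0.59 ≤ u) (h2 : u ≤ 0.75) (h3 : u ≤ s) (h4 : s ≤ u + 0)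
    (hY : eN r κ * (0.8999 * Real.exp (-(T * (0.5425 * (1 - u) ^ 2)))) ≤ Y) :
    ‖Xf β r h t (-2)‖ ≤ 0.0000013314 * Y := by
  refine leE (cL8 (-3) 0.98 0.5116 1.7671 1.8929 _ _ _ _ _ 3.335 1.1133 0.399 0 0.8806 0.8999 2.556 0.0000009253 0.000001145 0.0912 0.7325 0.9718 4.2003 0.00000003691 0.0000001864 B (by norm_num) hs
    (mloN8 B.P (x1 := 2.25) (by linarith) (by norm_num) (by norm_num)) (mhiN8 B.P (x2 := 2.41) (by linarith) (by norm_num) (by norm_num)) hY (g0_nn (by norm_num))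
    (g0_le (by norm_num) h1 h2 (by norm_num) (by norm_num)) (ch0 (a := (-3)) (by norm_num) (sqL h2 h4 (by norm_num) (by norm_num)) (by norm_num) h1 h2 (by norm_num) (by norm_num))
    (by norm_num) (by norm_num) (by norm_num) (by norm_num) rfl rfl (by norm_num) rfl rfl rfl (by norm_num) (by norm_num) (by norm_num) (by norm_num) (by norm_num) (by norm_num) (by norm_num) (by norm_num) (by norm_num) (by norm_num) (by norm_num) (by norm_num) (by norm_num) (by norm_num) (by norm_num) (by norm_num) (by norm_num) (by norm_num)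
    (expn 13 0.9071 (by norm_num) (by norm_num) (by norm_num) (by norm_num)) (by norm_num) (by norm_num) (by norm_num) (by norm_num) (by norm_num) (by norm_num) (by norm_num) (by norm_num) (expn 16 1.1444 (by norm_num) (by norm_num) (by norm_num) (by norm_num)) (by norm_num) (by norm_num)) (by norm_num) hY (by norm_num)

theorem b8_10_Cm3 {β r h κ T t s u Y : ℝ} (B : By 1 1.13 0.5 0.4962 17.642 0.0567 5.441 β r h κ T) (hs : t + κ = s * h)
    (h1 : 0.59 ≤ u) (h2 : u ≤ 0.75) (h3 : u ≤ s) (h4 : s ≤ u + 0)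
    (hY : eN r κ * (0.8999 * Real.exp (-(T * (0.5425 * (1 - u) ^ 2)))) ≤ Y) :
    ‖Xf β r h t (-3)‖ ≤ 0.0000002794 * Y := by
  refine cU8 1 (-4) 2.4749 3.7307 0.02 0.399 0.02 0.9468 0.8999 0.0912 0.7325 0.9718 4.2003 0.00000005145 0.0000002794 B (by norm_num) hs
    (full8 B.P B.hk2 (x1 := 4.59) (by push_cast; linarith) (by norm_num) (by norm_num)) (mhi8 B.P (x2 := 4.75) (by push_cast; linarith) (by norm_num) (by norm_num)) hY (g0_nn (by norm_num)) (g0_le (by norm_num) h1 h2 (by norm_num) (by norm_num))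
    (by norm_num) (by norm_num) (by norm_num) (by norm_num) (by norm_num) (by norm_num) (by norm_num) (by norm_num) (by norm_num) (by norm_num) (by norm_num) (by norm_num) (by norm_num) (by norm_num) (by norm_num) (by norm_num) (by norm_num) (by norm_num) (by norm_num)
    (expn 16 0.7916 (by norm_num) (by norm_num) (by norm_num) (by norm_num)) (by norm_num) (by norm_num)

private theorem b8_10_Do_y {κ t : ℝ} (h : DomR κ t) (hk1 : 1 ≤ κ) (hk2 : κ ≤ 1.13) (ht1 : 0.589 ≤ t + κ) (ht2 : t + κ ≤ 0.8247) :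
    0.249 ≤ sy κ t ∧ sy κ t ≤ 0.337 := by
  have hy1 : 0.249 ≤ sy κ t := syR_ge h 1 1.13 0.589 0.249 1.28274 1.28275 0.28265 0.31941 hk1 hk2 (by linarith) (by norm_num) (by norm_num)
    (expn_ge (by norm_num) (by norm_num)) (expn_le (by norm_num) (by norm_num) (by norm_num)) (by norm_num)
    (by norm_num) (by norm_num) (by norm_num) (by norm_num) (by norm_num) (by norm_num)
  have hy2 : sy κ t ≤ 0.337 := syR_le h 1 1.13 0.8247 0.337 1.40073 0.4041 0.41773 0.47205 hk1 hk2 (by linarith) (by norm_num) (by norm_num)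
    (expn_ge (by norm_num) (by norm_num)) (by norm_num) (by norm_num) (Or.inr ((mul_le_mul_of_nonneg_left (expn_le (E := 1.40074) (by norm_num) (by norm_num) (by norm_num)) (by norm_num)).trans (by norm_num))) (by norm_num) (by norm_num) (by norm_num)
  exact ⟨by linarith, by linarith⟩

theorem b8_10_Do {β r h κ T t s u Y : ℝ} (B : By 1 1.13 0.5 0.4962 17.642 0.0567 5.441 β r h κ T) (hs : t + κ = s * h)
    (h1 : 0.75 ≤ u) (h2 : u ≤ 1.05) (h3 : u ≤ s) (h4 : s ≤ u + 0)
    (hY : eN r κ * (0.8999 * Real.exp (-(T * (0.5425 * (1 - u) ^ 2)))) ≤ Y) :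
    ‖Xf β r h t 1‖ ≤ 0.3756 * Y := by
  obtain ⟨t', ht'⟩ : ∃ t', t' = t + 0 * h := ⟨_, rfl⟩
  have hτ : t' + κ = (s + 0) * h := by rw [ht']; linear_combination hs
  have a1 : 0.589 ≤ t' + κ := by rw [hτ]; exact mlo8 B.P (x1 := 0.75) (by linarith) (by norm_num) (by norm_num)
  have a2 : t' + κ ≤ 0.8247 := by rw [hτ]; exact mhi8 B.P (x2 := 1.05) (by linarith) (by norm_num) (by norm_num)
  have hk := B.hk1
  have hk' := B.P.hκ1
  have hD : DomR κ t' := dom7 B.P.κ0 (by linarith) (by linarith)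
  have hy := b8_10_Do_y hD B.hk1 B.hk2 a1 a2
  have hJ : ‖HH β (sg κ t') - 1‖ ≤ 0.03 := JB8_k1 hD B.P.hβ (by linarith) B.P.hκ1 (by linarith) (by linarith) B.P.βκ B.P.βR
  have hd := Dlo7 hD (1 ^ 2) (1.13 ^ 2) 0.9987 0.249 0.337 0.249 0.60774 hy.1 hy.2 (pow_le_pow_left₀ (by norm_num) B.hk1 2) (pow_le_pow_left₀ B.P.κ0.le B.hk2 2)
      (by rw [show (-2 * 0.249 : ℝ) = -0.498 by norm_num]; exact expm_ge (by norm_num) (by norm_num) (by norm_num) (by norm_num)) (by norm_num) (by norm_num) (by norm_num) (by norm_num) (by norm_num)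
  have hc : sE κ t' ≤ 1 - 0.4247 * (t' + κ) ^ 2 / (1 + κ ^ 2) := VR8 0.77 0.4247 0.589 0.8247 _ _ _ _ _ B hD a1 a2 (by norm_num) (by norm_num) (by norm_num) (by norm_num) rfl rfl (by norm_num) rfl rfl rfl (by norm_num) (by norm_num)
  exact up8 0 0.03 0.4247 0.9987 1.0304 0.8999 0.2049 0.328 0.3756 B (by norm_num) ht' hs hD (by norm_num) hJ hc hd (by norm_num) (by norm_num) (by norm_num) hY (by norm_num)
    (ch0 (a := 0) (by norm_num) (sqR h1 h3 (by norm_num)) (by norm_num) h1 h2 (by norm_num) (by norm_num)) (by norm_num)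
    (expn 1 0.1148 (by norm_num) (by norm_num) (by norm_num) (by norm_num)) (by norm_num) (by norm_num)

theorem b8_10_D2R {β r h κ T t s u Y : ℝ} (B : By 1 1.13 0.5 0.4962 17.642 0.0567 5.441 β r h κ T) (hs : t + κ = s * h)
    (h1 : 0.75 ≤ u) (h2 : u ≤ 1.05) (h3 : u ≤ s) (h4 : s ≤ u + 0) (htp : t + 1 * h ≤ Real.pi / 2)
    (hY : eN r κ * (0.8999 * Real.exp (-(T * (0.5425 * (1 - u) ^ 2)))) ≤ Y) :
    ‖Xf β r h t 2‖ ≤ 0.010104 * Y := by
  refine leE (cR8 1 0.5 0.3466 1.3744 1.6101 _ _ _ _ _ 0.2849 2.0593 0.399 0.534 0.8259 0.8999 1.0275 0.003745 0.00857 0.034 0.7325 0.9895 4.2003 0.0003237 0.001534 B (by norm_num) hs htp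
    (mlo8 B.P (x1 := 1.75) (by linarith) (by norm_num) (by norm_num)) (mhi8 B.P (x2 := 2.05) (by linarith) (by norm_num) (by norm_num)) hY (g0_nn (by norm_num))
    (g0_le (by norm_num) h1 h2 (by norm_num) (by norm_num)) (ch0 (a := 1) (by norm_num) (sqR h1 h3 (by norm_num)) (by norm_num) h1 h2 (by norm_num) (by norm_num))
    (by norm_num) (by norm_num) (by norm_num) (by norm_num) rfl rfl (by norm_num) rfl rfl rfl (by norm_num) (by norm_num) (by norm_num) (by norm_num) (by norm_num) (by norm_num) (by norm_num) (by norm_num) (by norm_num) (by norm_num) (by norm_num) (by norm_num) (by norm_num) (by norm_num) (by norm_num) (by norm_num) (by norm_num) (by norm_num) (by norm_num)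
    (expn 5 0.5906 (by norm_num) (by norm_num) (by norm_num) (by norm_num)) (by norm_num) (by norm_num) (by norm_num) (by norm_num) (by norm_num) (by norm_num) (by norm_num) (by norm_num) (expn 8 0.0359 (by norm_num) (by norm_num) (by norm_num) (by norm_num)) (by norm_num) (by norm_num)) (by norm_num) hY (by norm_num)

theorem b8_10_D2 {β r h κ T t s u Y : ℝ} (B : By 1 1.13 0.5 0.4962 17.642 0.0567 5.441 β r h κ T) (hs : t + κ = s * h)
    (h1 : 0.75 ≤ u) (h2 : u ≤ 1.05) (h3 : u ≤ s) (h4 : s ≤ u + 0)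
    (hY : eN r κ * (0.8999 * Real.exp (-(T * (0.5425 * (1 - u) ^ 2)))) ≤ Y) :
    ‖Xf β r h t 2‖ ≤ 0.010104 * Y := by
  have hp : t + 1 * h ≤ Real.pi / 2 := by
    have e : t + 1 * h = (s + 1) * h - κ := by linear_combination hs
    have := mhi8 B.P (x := s + 1) (x2 := 2.05) (by linarith) (by norm_num) (le_refl _)
    have := B.hk1
    have := Real.pi_gt_d6
    rw [e]
    norm_num at *
    linarith
  exact leE (b8_10_D2R B hs h1 h2 h3 h4 hp hY) (by norm_num) hY (by norm_num)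

theorem b8_10_D3R {β r h κ T t s u Y : ℝ} (B : By 1 1.13 0.5 0.4962 17.642 0.0567 5.441 β r h κ T) (hs : t + κ = s * h)
    (h1 : 0.75 ≤ u) (h2 : u ≤ 1.05) (h3 : u ≤ s) (h4 : s ≤ u + 0) (htp : t + 2 * h ≤ Real.pi / 2)
    (hY : eN r κ * (0.8999 * Real.exp (-(T * (0.5425 * (1 - u) ^ 2)))) ≤ Y) :
    ‖Xf β r h t 3‖ ≤ 0.00003035 * Y := by
  refine leE (cR8 2 0.4 0.2953 2.1598 2.3955 _ _ _ _ _ 0.1538 2.4024 0.399 0.2592 0.887 0.8999 2.1993 0.000006465 0.00001726 0.034 0.7325 0.9895 4.2003 0.000002572 0.00001309 B (by norm_num) hs htp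
    (mlo8 B.P (x1 := 2.75) (by linarith) (by norm_num) (by norm_num)) (mhi8 B.P (x2 := 3.05) (by linarith) (by norm_num) (by norm_num)) hY (g0_nn (by norm_num))
    (g0_le (by norm_num) h1 h2 (by norm_num) (by norm_num)) (ch0 (a := 2) (by norm_num) (sqR h1 h3 (by norm_num)) (by norm_num) h1 h2 (by norm_num) (by norm_num))
    (by norm_num) (by norm_num) (by norm_num) (by norm_num) rfl rfl (by norm_num) rfl rfl rfl (by norm_num) (by norm_num) (by norm_num) (by norm_num) (by norm_num) (by norm_num) (by norm_num) (by norm_num) (by norm_num) (by norm_num) (by norm_num) (by norm_num) (by norm_num) (by norm_num) (by norm_num) (by norm_num) (by norm_num) (by norm_num) (by norm_num)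
    (expn 11 0.9663 (by norm_num) (by norm_num) (by norm_num) (by norm_num)) (by norm_num) (by norm_num) (by norm_num) (by norm_num) (by norm_num) (by norm_num) (by norm_num) (by norm_num) (expn 12 0.8839 (by norm_num) (by norm_num) (by norm_num) (by norm_num)) (by norm_num) (by norm_num)) (by norm_num) hY (by norm_num)

theorem b8_10_D3 {β r h κ T t s u Y : ℝ} (B : By 1 1.13 0.5 0.4962 17.642 0.0567 5.441 β r h κ T) (hs : t + κ = s * h)
    (h1 : 0.75 ≤ u) (h2 : u ≤ 1.05) (h3 : u ≤ s) (h4 : s ≤ u + 0)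
    (hY : eN r κ * (0.8999 * Real.exp (-(T * (0.5425 * (1 - u) ^ 2)))) ≤ Y) :
    ‖Xf β r h t 3‖ ≤ 0.00003035 * Y := by
  have hp : t + 2 * h ≤ Real.pi / 2 := by
    have e : t + 2 * h = (s + 2) * h - κ := by linear_combination hs
    have := mhi8 B.P (x := s + 2) (x2 := 3.05) (by linarith) (by norm_num) (le_refl _)
    have := B.hk1
    have := Real.pi_gt_d6
    rw [e]
    norm_num at *
    linarith
  exact leE (b8_10_D3R B hs h1 h2 h3 h4 hp hY) (by norm_num) hY (by norm_num)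

theorem b8_10_D4 {β r h κ T t s u Y : ℝ} (B : By 1 1.13 0.5 0.4962 17.642 0.0567 5.441 β r h κ T) (hs : t + κ = s * h)
    (h1 : 0.75 ≤ u) (h2 : u ≤ 1.05) (h3 : u ≤ s) (h4 : s ≤ u + 0)
    (hY : eN r κ * (0.8999 * Real.exp (-(T * (0.5425 * (1 - u) ^ 2)))) ≤ Y) :
    ‖Xf β r h t (4)‖ ≤ 0.0000002215 * Y := by
  refine cU8 0 (3) 1.8152 3.1809 0.02 0.399 0.02 1.0079 0.8999 0.034 0.7325 0.9895 4.2003 0.00000003832 0.0000002215 B (by norm_num) hs
    (fullz8 B.P B.hk2 (x1 := 3.75) (by push_cast; linarith) (by norm_num) (by norm_num)) (mhi8 B.P (x2 := 4.05) (by push_cast; linarith) (by norm_num) (by norm_num)) hY (g0_nn (by norm_num)) (g0_le (by norm_num) h1 h2 (by norm_num) (by norm_num))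
    (by norm_num) (by norm_num) (by norm_num) (by norm_num) (by norm_num) (by norm_num) (by norm_num) (by norm_num) (by norm_num) (by norm_num) (by norm_num) (by norm_num) (by norm_num) (by norm_num) (by norm_num) (by norm_num) (by norm_num) (by norm_num) (by norm_num)
    (expn 16 1.1039 (by norm_num) (by norm_num) (by norm_num) (by norm_num)) (by norm_num) (by norm_num)

theorem b8_10_Dm1 {β r h κ T t s u Y : ℝ} (B : By 1 1.13 0.5 0.4962 17.642 0.0567 5.441 β r h κ T) (hs : t + κ = s * h)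
    (h1 : 0.75 ≤ u) (h2 : u ≤ 1.05) (h3 : u ≤ s) (h4 : s ≤ u + 0)
    (hY : eN r κ * (0.8999 * Real.exp (-(T * (0.5425 * (1 - u) ^ 2)))) ≤ Y) :
    ‖Xf β r h t (-1)‖ ≤ 0.1172001136 * Y := by
  refine leE (cL8 (-2) 1.04 0.5133 0.7461 0.9818 _ _ _ _ _ 1.8058 1.2979 0.399 0 0.7095 0.8999 0.4618 0.08122 0.1172 0.034 0.7325 0.9895 4.2003 0.00000002791 0.0000001136 B (by norm_num) hs
    (mloN8 B.P (x1 := 0.95) (by linarith) (by norm_num) (by norm_num)) (mhiN8 B.P (x2 := 1.25) (by linarith) (by norm_num) (by norm_num)) hY (g0_nn (by norm_num))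
    (g0_le (by norm_num) h1 h2 (by norm_num) (by norm_num)) (ch0 (a := (-2)) (by norm_num) (sqL h2 h4 (by norm_num) (by norm_num)) (by norm_num) h1 h2 (by norm_num) (by norm_num))
    (by norm_num) (by norm_num) (by norm_num) (by norm_num) rfl rfl (by norm_num) rfl rfl rfl (by norm_num) (by norm_num) (by norm_num) (by norm_num) (by norm_num) (by norm_num) (by norm_num) (by norm_num) (by norm_num) (by norm_num) (by norm_num) (by norm_num) (by norm_num) (by norm_num) (by norm_num) (by norm_num) (by norm_num) (by norm_num)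
    (expn 2 0.5126 (by norm_num) (by norm_num) (by norm_num) (by norm_num)) (by norm_num) (by norm_num) (by norm_num) (by norm_num) (by norm_num) (by norm_num) (by norm_num) (by norm_num) (expn 16 1.4567 (by norm_num) (by norm_num) (by norm_num) (by norm_num)) (by norm_num) (by norm_num)) (by norm_num) hY (by norm_num)

theorem b8_10_Dm2 {β r h κ T t s u Y : ℝ} (B : By 1 1.13 0.5 0.4962 17.642 0.0567 5.441 β r h κ T) (hs : t + κ = s * h)
    (h1 : 0.75 ≤ u) (h2 : u ≤ 1.05) (h3 : u ≤ s) (h4 : s ≤ u + 0)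
    (hY : eN r κ * (0.8999 * Real.exp (-(T * (0.5425 * (1 - u) ^ 2)))) ≤ Y) :
    ‖Xf β r h t (-2)‖ ≤ 0.0000344869 * Y := by
  refine leE (cL8 (-3) 0.98 0.5095 1.5315 1.7672 _ _ _ _ _ 2.8488 1.1581 0.399 0 0.8551 0.8999 1.936 0.00002669 0.00003435 0.034 0.7325 0.9895 4.2003 0.00000002791 0.0000001369 B (by norm_num) hs
    (mloN8 B.P (x1 := 1.95) (by linarith) (by norm_num) (by norm_num)) (mhiN8 B.P (x2 := 2.25) (by linarith) (by norm_num) (by norm_num)) hY (g0_nn (by norm_num))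
    (g0_le (by norm_num) h1 h2 (by norm_num) (by norm_num)) (ch0 (a := (-3)) (by norm_num) (sqL h2 h4 (by norm_num) (by norm_num)) (by norm_num) h1 h2 (by norm_num) (by norm_num))
    (by norm_num) (by norm_num) (by norm_num) (by norm_num) rfl rfl (by norm_num) rfl rfl rfl (by norm_num) (by norm_num) (by norm_num) (by norm_num) (by norm_num) (by norm_num) (by norm_num) (by norm_num) (by norm_num) (by norm_num) (by norm_num) (by norm_num) (by norm_num) (by norm_num) (by norm_num) (by norm_num) (by norm_num) (by norm_num)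
    (expn 10 0.5337 (by norm_num) (by norm_num) (by norm_num) (by norm_num)) (by norm_num) (by norm_num) (by norm_num) (by norm_num) (by norm_num) (by norm_num) (by norm_num) (by norm_num) (expn 16 1.4567 (by norm_num) (by norm_num) (by norm_num) (by norm_num)) (by norm_num) (by norm_num)) (by norm_num) hY (by norm_num)

theorem b8_10_Dm3 {β r h κ T t s u Y : ℝ} (B : By 1 1.13 0.5 0.4962 17.642 0.0567 5.441 β r h κ T) (hs : t + κ = s * h)
    (h1 : 0.75 ≤ u) (h2 : u ≤ 1.05) (h3 : u ≤ s) (h4 : s ≤ u + 0)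
    (hY : eN r κ * (0.8999 * Real.exp (-(T * (0.5425 * (1 - u) ^ 2)))) ≤ Y) :
    ‖Xf β r h t (-3)‖ ≤ 0.000003033 * Y := by
  refine cU8 1 (-4) 2.6006 3.9663 0.02 0.399 0.1735 0.9439 0.8999 0.034 0.7325 0.9895 4.2003 0.0000005602 0.000003033 B (by norm_num) hs
    (full8 B.P B.hk2 (x1 := 4.75) (by push_cast; linarith) (by norm_num) (by norm_num)) (mhi8 B.P (x2 := 5.05) (by push_cast; linarith) (by norm_num) (by norm_num)) hY (g0_nn (by norm_num)) (g0_le (by norm_num) h1 h2 (by norm_num) (by norm_num))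
    (by norm_num) (by norm_num) (by norm_num) (by norm_num) (by norm_num) (by norm_num) (by norm_num) (by norm_num) (by norm_num) (by norm_num) (by norm_num) (by norm_num) (by norm_num) (by norm_num) (by norm_num) (by norm_num) (by norm_num) (by norm_num) (by norm_num)
    (expn 14 0.3958 (by norm_num) (by norm_num) (by norm_num) (by norm_num)) (by norm_num) (by norm_num)

private theorem b8_10_yS1 {κ t : ℝ} (h : DomR κ t) (hk1 : 1 ≤ κ) (hk2 : κ ≤ 1.13) (ht1 : 0.3377 ≤ t + κ) (ht2 : t + κ ≤ 0.4634) :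
    0.154 ≤ sy κ t ∧ sy κ t ≤ 0.208 := by
  have hy1 : 0.154 ≤ sy κ t := syR_ge h 1 1.13 0.3377 0.154 1.16649 1.1665 0.15897 0.17965 hk1 hk2 (by linarith) (by norm_num) (by norm_num)
    (expn_ge (by norm_num) (by norm_num)) (expn_le (by norm_num) (by norm_num) (by norm_num)) (by norm_num)
    (by norm_num) (by norm_num) (by norm_num) (by norm_num) (by norm_num) (by norm_num)
  have hy2 : sy κ t ≤ 0.208 := syR_le h 1 1.13 0.4634 0.208 1.23121 0.2192 0.22662 0.2561 hk1 hk2 (by linarith) (by norm_num) (by norm_num)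
    (expn_ge (by norm_num) (by norm_num)) (by norm_num) (by norm_num) (Or.inr ((mul_le_mul_of_nonneg_left (expn_le (E := 1.23122) (by norm_num) (by norm_num) (by norm_num)) (by norm_num)).trans (by norm_num))) (by norm_num) (by norm_num) (by norm_num)
  exact ⟨by linarith, by linarith⟩

private theorem b8_10_yS0 {κ t : ℝ} (h : DomR κ t) (hk1 : 1 ≤ κ) (hk2 : κ ≤ 1.13) (ht1 : (-0.4477) ≤ t + κ) (ht2 : t + κ ≤ (-0.322)) :
    (-0.246) ≤ sy κ t ∧ sy κ t ≤ (-0.167) := by
  have hy1 : -0.246 ≤ sy κ t := syL_ge h 1 1.13 0.4477 0.246 0.78192 0.78193 0.1812 0.17022 0.19236 hk1 hk2 (by linarith) (by norm_num) (by norm_num) (by norm_num)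
    (expm_ge (by norm_num) (by norm_num) (by norm_num) (by norm_num)) (expm_le (by norm_num) (by norm_num) (by norm_num)) (by norm_num)
    (by norm_num) (by norm_num) (by norm_num) (by norm_num) (by norm_num) (by norm_num)
  have hy2 : sy κ t ≤ -0.167 := syL_le h 1 1.13 0.322 0.167 0.84619 0.8462 0.12505 0.14132 hk1 hk2 (by linarith) (by norm_num) (by norm_num) (by norm_num)
    (expm_ge (by norm_num) (by norm_num) (by norm_num) (by norm_num)) (expm_le (by norm_num) (by norm_num) (by norm_num)) (by norm_num)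
    (by norm_num) (by norm_num) (by norm_num) (by norm_num) (by norm_num) (by norm_num)
  exact ⟨by linarith, by linarith⟩

theorem b8_10_S {β r h κ T t s : ℝ} (B : By 1 1.13 0.5 0.4962 17.642 0.0567 5.441 β r h κ T) (hs : t + κ = s * h)
    (h1 : 0.43 ≤ s) (h2 : s ≤ 0.59) :
    ‖Ld β r h t 0‖ ≤ r * 1.2789 + 1.309 ∧ ‖Ld β r h t 1‖ ≤ r * 0.85728 + 0.5704 ∧
      T * 1.0972 - (0.3403 + 0.9966 + 0.0402 + 0) ≤ (Ld β r h t 1 - Ld β r h t 0).im := by
  have a1 : 0.3377 ≤ t + κ := by rw [hs]; exact mlo8 B.P h1 (by norm_num) (by norm_num)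
  have a2 : t + κ ≤ 0.4634 := by rw [hs]; exact mhi8 B.P h2 (by norm_num) (by norm_num)
  have hτ : t - h + κ = (s + (-1)) * h := by linear_combination hs
  have b1 : (-0.4477) ≤ t - h + κ := by rw [hτ]; have := mhiN8 B.P (x := s + (-1)) (x2 := 0.57) (τ2 := 0.4477) (by linarith) (by norm_num) (by norm_num); linarith
  have b2 : t - h + κ ≤ (-0.322) := by rw [hτ]; have := mloN8 B.P (x := s + (-1)) (x1 := 0.41) (τ1 := 0.322) (by linarith) (by norm_num) (by norm_num); linarith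
  have hk := B.hk1
  have hk2 := B.hk2
  have hk' := B.P.hκ1
  have hD1 : DomR κ t := dom7 B.P.κ0 (by linarith) (by linarith)
  have hD0 : DomR κ (t - h) := dom7 B.P.κ0 (by linarith) (by linarith)
  have hy1 := b8_10_yS1 hD1 B.hk1 B.hk2 a1 a2
  have hy0 := b8_10_yS0 hD0 B.hk1 B.hk2 b1 b2
  have hd1 := Dlo7 hD1 (1 ^ 2) (1.13 ^ 2) 0.9866 0.154 0.208 0.154 0.73491 hy1.1 hy1.2 (pow_le_pow_left₀ (by norm_num) B.hk1 2) (pow_le_pow_left₀ B.P.κ0.le B.hk2 2)
      (by rw [show (-2 * 0.154 : ℝ) = -0.308 by norm_num]; exact expm_ge (by norm_num) (by norm_num) (by norm_num) (by norm_num)) (by norm_num) (by norm_num) (by norm_num) (by norm_num) (by norm_num)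
  have hd0 := Dlo7 hD0 (1 ^ 2) (1.13 ^ 2) 1.0312 (-0.246) (-0.167) (-0.167) 1.39654 hy0.1 hy0.2 (pow_le_pow_left₀ (by norm_num) B.hk1 2) (pow_le_pow_left₀ B.P.κ0.le B.hk2 2)
      (by rw [show (-2 * (-0.167) : ℝ) = 0.334 by norm_num]; exact expn_ge (by norm_num) (by norm_num)) (by norm_num) (by norm_num) (by norm_num) (by norm_num) (by norm_num)
  have hJ1 := JB8_S1 hD1 B.P.hβ (by linarith) (by linarith) (by linarith) (by linarith) B.P.βκ B.P.βR
  have hJ0 := JB8_S0 hD0 B.P.hβ (by linarith) (by linarith) (by linarith) (by linarith) B.P.βκ B.P.βR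
  obtain ⟨m1, n1⟩ := copy8 (t := t) (t' := t) (k := 1) 1 1.13 0.9866 0.154 0.85728 0.735 0.6464 0.7119 0.05 0.1 0.3403 0.5704 B.P (by push_cast; ring) hD1 B.hk1 B.hk2 (by norm_num) (by norm_num) (by norm_num) (by norm_num) hJ1
    hy1.1 (by norm_num) hd1 (by norm_num) (expm_le (by norm_num) (by norm_num) (by norm_num)) (by norm_num) (by norm_num) (by norm_num) (by norm_num) (by norm_num) (by norm_num) (by norm_num) (by norm_num)
  obtain ⟨m0, n0⟩ := copy8 (t := t) (t' := t - h) (k := 0) 1 1.13 1.0312 (-0.246) 1.2789 1.6356 0.8969 0.6964 0.1 0.1 0.9966 1.309 B.P (by push_cast; ring) hD0 B.hk1 B.hk2 (by norm_num) (by norm_num) (by norm_num) (by norm_num) hJ0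
    hy0.1 (by norm_num) hd0 (by norm_num) (by rw [neg_neg]; exact expn_le (by norm_num) (by norm_num) (by norm_num)) (by norm_num) (by norm_num) (by norm_num) (by norm_num) (by norm_num) (by norm_num) (by norm_num) (by norm_num)
  refine ⟨m0, m1, ?_⟩
  have q1 := corr1_ge hD1 1 1.13 0.9866 0.0402 B.hk1 B.hk2 (by norm_num) (by linarith) hd1 (by norm_num) (by norm_num) (Or.inr (by norm_num))
  have q0 := corr0_le hD0 1 1.13 1.0312 1.2789 0 B.hk1 B.hk2 (by norm_num) (by linarith) hd0 (by norm_num) (by norm_num)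
    ((Real.exp_le_exp.2 (by linarith)).trans (show Real.exp (-(-0.246)) ≤ 1.2789 from (by rw [neg_neg]; exact expn_le (by norm_num) (by norm_num) (by norm_num)))) (Or.inl (by norm_num))
  exact slope8 0.797 0.955 1.0972 0.43 0.59 0.3403 0.9966 0.0402 0 B.P hs h1 h2 (pR_050 hD1 (by linarith) (by linarith) (by linarith)) (pL_050 hD0 (by linarith) (by linarith) (by linarith)) n1 n0 q1 q0
    (by norm_num) (by norm_num) (by norm_num)

theorem boxb8_10 {p : ℤ} (hp : IsCoprime (8 : ℤ) p) {β r h κ T : ℝ} (P : Q8 β r h κ T) (hk1 : 1 ≤ κ) (hk2 : κ ≤ 1.13) :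
    Circ (2 * Real.pi * p / (8 : ℕ) + β) r := by
  have B : By 1 1.13 0.5 0.4962 17.642 0.0567 5.441 β r h κ T :=
    { P := P, hk1 := hk1, hk2 := hk2, hψ := (psi_hi hk1 (by norm_num)).trans (by norm_num), hψ1 := le_trans (by norm_num) (psi1_hi hk2 (by linarith)), hR0 := P.Rge (k1 := 1) (by norm_num) hk1 (by norm_num), hβ0 := P.β56, hT0 := P.T5 }
  have hT := B.hT0
  have hr := P.r_le (ν := 3.6912) hk2 (by norm_num)
  have hbh : β ≤ 0.0722 * h := by
    have h1 := B.hβ0
    have h2 := mul_le_mul_of_nonneg_left P.hlo (by norm_num : (0 : ℝ) ≤ 0.0722)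
    linarith
  refine fin8 hp P (slo := 0.43) (shi := 0.59) (bb := 0.0722) (ℓ1 := 0.961) (ℓ0 := 0.8999) (C0 := 0.5425) (e2 := 0.0226) (e3 := 0.0003052) (e4 := 0.0000009762) (f1 := 0.0077362501) (g1 := 0.0143902501) (f2 := 0.0000008893) (f3 := 0.0000004416)
    (a := 1.04) (m := T * 1.0972 - (1.3771)) (η := 0.0307) (Λ0 := r * 1.2789 + 1.309) (Λ1 := r * 0.85728 + 0.5704) (S1 := 0.0653)
    (by norm_num) (by norm_num) (by linarith) (by norm_num) (by norm_num) hbh (by norm_num)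
    ?_ ?_ ?_ ?_ ?_ ?_ ?_ ?_ ?_ ?_ ?_ ?_ ?_ ?_ (by norm_num) (by norm_num) (by norm_num) ?_
  · intro t s hs h1 h2
    exact b8_10_L1 B hs (by linarith) h2
  · intro t s hs h1 h2
    exact b8_10_L0 B hs h1 (by linarith)
  · intro t s u Y hs h1 h2 h3 h4 hY
    have hY' : eN r κ * (0.961 * Real.exp (-(T * (1 / 2 * u ^ 2)))) ≤ Y := hY
    rcases le_total u 0.5 with hc | hc
    · exact leE (b8_10_W2a B hs h1 hc h3 h4 hY') (by norm_num) hY' (by norm_num)
    · exact leE (b8_10_W2b B hs hc h2 h3 h4 hY') (by norm_num) hY' (by norm_num)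
  · intro t s u Y hs h1 h2 h3 h4 hY
    exact b8_10_W3 B hs h1 h2 h3 h4 hY
  · intro t s u Y hs h1 h2 h3 h4 hY
    exact b8_10_W4 B hs h1 h2 h3 h4 hY
  · intro t s u Y hs h1 h2 h3 h4 hY
    exact b8_10_Wm1 B hs h1 h2 h3 h4 hY
  · intro t s u Y hs h1 h2 h3 h4 hY
    exact b8_10_Wm1p B hs h1 h2 h3 h4 hY
  · intro t s u Y hs h1 h2 h3 h4 hY
    exact b8_10_Wm2 B hs h1 h2 h3 h4 hY
  · intro t s u Y hs h1 h2 h3 h4 hY
    exact b8_10_Wm3 B hs h1 h2 h3 h4 hY
  · intro t s hs h1 h2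
    have hY := b8_10_L1 B hs (by linarith) (by linarith)
    have hYp := lt_of_lt_of_le (mul_pos (eN_pos r κ) (mul_pos (by norm_num : (0 : ℝ) < 0.961) (Real.exp_pos _))) hY
    rcases le_total s 0.37 with hc | hc
    · have x0 := b8_10_Ao B hs h1 hc le_rfl (by linarith) hY
      have x2 := b8_10_A2 B hs h1 hc le_rfl (by linarith) hY
      have x3 := b8_10_A3 B hs h1 hc le_rfl (by linarith) hY
      have x4 := b8_10_A4 B hs h1 hc le_rfl (by linarith) hY
      have xm1 := b8_10_Am1 B hs h1 hc le_rfl (by linarith) hY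
      have xm2 := b8_10_Am2 B hs h1 hc le_rfl (by linarith) hY
      have xm3 := b8_10_Am3 B hs h1 hc le_rfl (by linarith) hY
      linarith
    · have x0 := b8_10_Bo B hs hc h2 le_rfl (by linarith) hY
      have x2 := b8_10_B2 B hs hc h2 le_rfl (by linarith) hY
      have x3 := b8_10_B3 B hs hc h2 le_rfl (by linarith) hY
      have x4 := b8_10_B4 B hs hc h2 le_rfl (by linarith) hY
      have xm1 := b8_10_Bm1 B hs hc h2 le_rfl (by linarith) hY
      have xm2 := b8_10_Bm2 B hs hc h2 le_rfl (by linarith) hY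
      have xm3 := b8_10_Bm3 B hs hc h2 le_rfl (by linarith) hY
      linarith
  · intro t s hs h1 h2
    have hY := b8_10_L0 B hs (by linarith) (by linarith)
    have hYp := lt_of_lt_of_le (mul_pos (eN_pos r κ) (mul_pos (by norm_num : (0 : ℝ) < 0.8999) (Real.exp_pos _))) hY
    rcases le_total s 0.75 with hc | hc
    · have x0 := b8_10_Co B hs h1 hc le_rfl (by linarith) hY
      have x2 := b8_10_C2 B hs h1 hc le_rfl (by linarith) hY
      have x3 := b8_10_C3 B hs h1 hc le_rfl (by linarith) hY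
      have x4 := b8_10_C4 B hs h1 hc le_rfl (by linarith) hY
      have xm1 := b8_10_Cm1 B hs h1 hc le_rfl (by linarith) hY
      have xm2 := b8_10_Cm2 B hs h1 hc le_rfl (by linarith) hY
      have xm3 := b8_10_Cm3 B hs h1 hc le_rfl (by linarith) hY
      linarith
    · have x0 := b8_10_Do B hs hc h2 le_rfl (by linarith) hY
      have x2 := b8_10_D2 B hs hc h2 le_rfl (by linarith) hY
      have x3 := b8_10_D3 B hs hc h2 le_rfl (by linarith) hY
      have x4 := b8_10_D4 B hs hc h2 le_rfl (by linarith) hY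
      have xm1 := b8_10_Dm1 B hs hc h2 le_rfl (by linarith) hY
      have xm2 := b8_10_Dm2 B hs hc h2 le_rfl (by linarith) hY
      have xm3 := b8_10_Dm3 B hs hc h2 le_rfl (by linarith) hY
      linarith
  · intro t s hs h1 h2
    exact (b8_10_S B hs h1 h2).1
  · intro t s hs h1 h2
    exact (b8_10_S B hs h1 h2).2.1
  · intro t s hs h1 h2
    have := (b8_10_S B hs h1 h2).2.2
    linarith
  · linarith

end Sok
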