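import Pool.Agent.Lib.MP_816dec_an.R2Cls
import Pool.Agent.Lib.MP_816dec_an.R2Num6

/-!
MP_816dec_an, row R2, item (6): the numbers `e..`, `f0.` of the 37 classes `κ ≤ 20`
(`f02`, `f0L` of the three classes `c5_1`, `c5_2`, `c5_3` are not here), by a kernel-checkable test.
-/

set_option autoImplicit false

open Set Filter Topology Real

namespace Sok

namespace R2

/-- the upper bounds of the exponents, and the domain condition -/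
structure GeoU (b : ℕ) (κ : ℝ) (N : Num) : Prop where
  hκ : 1 ≤ κ
  dom : (N.z4 + 1) * hh b < κ + π / 2
  e0L : en b κ N.qL ≤ N.e0L
  e0R : en b κ N.qR ≤ N.e0R
  e04 : en b κ N.z4 ≤ N.e04
  e12 : en b κ (N.z2 + 1) ≤ N.e12
  e1L : en b κ (N.qL + 1) ≤ N.e1L
  e1R : en b κ (N.qR + 1) ≤ N.e1R

/-- the lower bounds on the left -/
structure GeoL (b : ℕ) (κ : ℝ) (N : Num) : Prop where
  f02 : N.f02 ≤ en b κ N.z2
  f0L : N.f0L ≤ en b κ N.qL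

/-! ### partial sums of the logarithm -/

/-- `2 Σ_{i < n} x^{2i+1} / (2i+1)` -/
def lgs {K : Type} [Field K] (x : K) (n : ℕ) : K := 2 * ∑ i ∈ Finset.range n, x ^ (2 * i + 1) / ((2 * i + 1 : ℕ) : K)

theorem lgs_cast (x : ℚ) (n : ℕ) : ((lgs x n : ℚ) : ℝ) = lgs (x : ℝ) n := by
  unfold lgs
  push_cast
  rfl

theorem lgs_le {x : ℝ} (h0 : 0 ≤ x) (h1 : x < 1) (n : ℕ) : lgs x n ≤ log ((1 + x) / (1 - x)) := by
  have h := sum_range_le_log_div h0 h1 n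
  unfold lgs
  push_cast
  linarith

/-- `log (1 + u) ≥ lgs (u / (2 + u))` -/
theorem lgs_add {u : ℝ} (hu : 0 ≤ u) (n : ℕ) : lgs (u / (2 + u)) n ≤ log (1 + u) := by
  have h0 : 0 ≤ u / (2 + u) := by positivity
  have h1 : u / (2 + u) < 1 := by rw [div_lt_one (by positivity)]; linarith
  have h := lgs_le h0 h1 n
  have e : (1 + u / (2 + u)) / (1 - u / (2 + u)) = 1 + u := by
    have : (2 + u) ≠ 0 := by positivity
    have h2 : 1 - u / (2 + u) = 2 / (2 + u) := by field_simp; ring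
    rw [h2]
    field_simp
    ring
  rwa [e] at h

/-- `log (1 - u) ≤ -lgs (u / (2 - u))` -/
theorem lgs_sub {u : ℝ} (hu : 0 ≤ u) (hu1 : u < 1) (n : ℕ) : log (1 - u) ≤ -lgs (u / (2 - u)) n := by
  have h2u : 0 < 2 - u := by linarith
  have h1u : 0 < 1 - u := by linarith
  have h0 : 0 ≤ u / (2 - u) := by positivity
  have h1 : u / (2 - u) < 1 := by rw [div_lt_one h2u]; linarith
  have h := lgs_le h0 h1 n
  have e : (1 + u / (2 - u)) / (1 - u / (2 - u)) = (1 - u)⁻¹ := by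
    have h2 : 1 - u / (2 - u) = 2 * (1 - u) / (2 - u) := by field_simp; ring
    rw [h2]
    field_simp
    ring
  rw [e, log_inv] at h
  linarith

/-! ### the test -/

/-- lower bound of `en (-z)` -/
def loQ (H z : ℚ) : ℚ := ((1 + z * H) * lgs (z * H / (2 + z * H)) 7 - z * H) / H ^ 2

/-- upper bound of `en z`, `z H < 1` -/
def hiQ (H z : ℚ) : ℚ := (z * H - (1 - z * H) * lgs (z * H / (2 - z * H)) 14) / H ^ 2

/-- test of `f ≤ en (-z)` -/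
def LoQ (H z f : ℚ) : Prop := 0 ≤ z ∧ f ≤ loQ H z

/-- test of `en (-z) ≤ e` -/
def LuQ (k1 z e : ℚ) : Prop := 0 ≤ z ∧ ((139 / 100 ≤ k1 ∧ 103 / 100 * z ^ 2 / 2 ≤ e) ∨ (3 ≤ k1 ^ 2 ∧ z ^ 2 / 2 ≤ e))

/-- test of `en z ≤ e` -/
def RuQ (k2 H z e : ℚ) : Prop := 0 ≤ z ∧ z * H < 1 ∧ (hiQ H z ≤ e ∨ (k2 ^ 2 ≤ 3 ∧ z ^ 2 / 2 ≤ e) ∨
  (k2 ≤ 19 / 10 ∧ 1005 / 1000 * z ^ 2 / 2 ≤ e) ∨ (k2 ≤ 21 / 10 ∧ 102 / 100 * z ^ 2 / 2 ≤ e) ∨
  (k2 ≤ 23 / 10 ∧ 104 / 100 * z ^ 2 / 2 ≤ e) ∨ (k2 ≤ 266 / 100 ∧ 108 / 100 * z ^ 2 / 2 ≤ e))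

instance (H z f : ℚ) : Decidable (LoQ H z f) := by unfold LoQ; infer_instance
instance (k1 z e : ℚ) : Decidable (LuQ k1 z e) := by unfold LuQ; infer_instance
instance (k2 H z e : ℚ) : Decidable (RuQ k2 H z e) := by unfold RuQ; infer_instance

theorem LoQ.le {b : ℕ} {κ : ℝ} {H z f : ℚ} (h : LoQ H z f) (hb : 1 ≤ b) (h1 : 1 ≤ κ) (hH : hh b ≤ H * κ)
    (hH0 : 0 < H) : (f : ℝ) ≤ en b κ (-(z : ℝ)) := by
  obtain ⟨hz, hf⟩ := h
  have hz' : (0 : ℝ) ≤ z := by exact_mod_cast hz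
  have hH' : (0 : ℝ) < H := by exact_mod_cast hH0
  have hf' : (f : ℝ) ≤ ((loQ H z : ℚ) : ℝ) := by exact_mod_cast hf
  have h3 := en_ge hb h1 hH hz'
  have h4 := lgs_add (u := (z : ℝ) * H) (by positivity) 7
  refine le_trans (le_trans hf' ?_) h3
  unfold loQ
  push_cast
  rw [lgs_cast]
  push_cast
  apply div_le_div_of_nonneg_right _ (by positivity)
  have h5 : 0 ≤ 1 + (z : ℝ) * H := by positivity
  linarith [mul_le_mul_of_nonneg_left h4 h5]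

theorem LuQ.le {b : ℕ} {κ : ℝ} {k1 z e : ℚ} (h : LuQ k1 z e) (hb : 1 ≤ b) (h1 : 1 ≤ κ) (hk : (k1 : ℝ) ≤ κ)
    (hk0 : 0 ≤ k1) : en b κ (-(z : ℝ)) ≤ e := by
  obtain ⟨hz, h⟩ := h
  have hz' : (0 : ℝ) ≤ z := by exact_mod_cast hz
  rcases h with ⟨h3, h4⟩ | ⟨h3, h4⟩
  · have h5 : (139 / 100 : ℝ) ≤ k1 := by
      have h' := (Rat.cast_le (K := ℝ)).2 h3
      push_cast at h'
      exact h'
    refine le_trans (en_le_left' hb (by linarith) hz').1 ?_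
    have h' := (Rat.cast_le (K := ℝ)).2 h4
    push_cast at h'
    exact h'
  · have h5 : (3 : ℝ) ≤ (k1 : ℝ) ^ 2 := by exact_mod_cast h3
    have h6 : (0 : ℝ) ≤ k1 := by exact_mod_cast hk0
    have h7 : (k1 : ℝ) ^ 2 ≤ κ ^ 2 := pow_le_pow_left₀ h6 hk 2
    refine le_trans (en_le_left hb h1 (by linarith) hz').1 ?_
    exact_mod_cast h4

theorem RuQ.le {b : ℕ} {κ : ℝ} {k2 H z e : ℚ} (h : RuQ k2 H z e) (hb : 1 ≤ b) (h1 : 1 ≤ κ) (hk : κ ≤ (k2 : ℝ))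
    (hH : hh b ≤ H * κ) (hH0 : 0 < H) : en b κ (z : ℝ) ≤ e := by
  obtain ⟨hz, hz1, h⟩ := h
  have hpi := pi_pos
  have hz' : (0 : ℝ) ≤ z := by exact_mod_cast hz
  have hz1' : (z : ℝ) * H < 1 := by exact_mod_cast hz1
  have hH' : (0 : ℝ) < H := by exact_mod_cast hH0
  have hdom : (z : ℝ) * hh b < κ + π / 2 := by
    have h2 : (z : ℝ) * hh b ≤ z * (H * κ) := mul_le_mul_of_nonneg_left hH hz'
    have h3 : (z : ℝ) * (H * κ) ≤ 1 * κ := by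
      rw [← mul_assoc]
      exact mul_le_mul_of_nonneg_right hz1'.le (by linarith)
    linarith
  rcases h with h | ⟨h3, h4⟩ | ⟨h3, h4⟩ | ⟨h3, h4⟩ | ⟨h3, h4⟩ | ⟨h3, h4⟩
  · have h' : ((hiQ H z : ℚ) : ℝ) ≤ e := by exact_mod_cast h
    refine le_trans (en_le_log hb h1 hH hz' hz1').1 (le_trans ?_ h')
    have h4 := lgs_sub (u := (z : ℝ) * H) (by positivity) hz1' 14
    unfold hiQ
    push_cast
    rw [lgs_cast]
    push_cast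
    apply div_le_div_of_nonneg_right _ (by positivity)
    have h5 : 0 ≤ 1 - (z : ℝ) * H := by linarith
    linarith [mul_le_mul_of_nonneg_left h4 h5]
  · have h5 : (k2 : ℝ) ^ 2 ≤ 3 := by exact_mod_cast h3
    have h7 : κ ^ 2 ≤ (k2 : ℝ) ^ 2 := pow_le_pow_left₀ (by linarith) hk 2
    have h8 := (en_le_of_right (b := b) (κ := κ) (c := 1) (z := z) hb h1 hz' hdom
      (fun s hs hs' => lv_le_right h1 (by linarith) hs hs')).1
    refine le_trans h8 ?_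
    rw [one_mul]
    exact_mod_cast h4
  · have h5 : (k2 : ℝ) ≤ 19 / 10 := by
      have h' := (Rat.cast_le (K := ℝ)).2 h3
      push_cast at h'
      exact h'
    have h8 := (en_le_of_right (b := b) (κ := κ) (c := 1005 / 1000) (z := z) hb h1 hz' hdom
      (fun s hs hs' => lv_le_right19 h1 (by linarith) hs hs')).1
    refine le_trans h8 ?_
    have h' := (Rat.cast_le (K := ℝ)).2 h4
    push_cast at h'
    exact h'
  · have h5 : (k2 : ℝ) ≤ 21 / 10 := by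
      have h' := (Rat.cast_le (K := ℝ)).2 h3
      push_cast at h'
      exact h'
    have h8 := (en_le_of_right (b := b) (κ := κ) (c := 102 / 100) (z := z) hb h1 hz' hdom
      (fun s hs hs' => lv_le_right21 h1 (by linarith) hs hs')).1
    refine le_trans h8 ?_
    have h' := (Rat.cast_le (K := ℝ)).2 h4
    push_cast at h'
    exact h'
  · have h5 : (k2 : ℝ) ≤ 23 / 10 := by
      have h' := (Rat.cast_le (K := ℝ)).2 h3
      push_cast at h'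
      exact h'
    have h8 := (en_le_of_right (b := b) (κ := κ) (c := 104 / 100) (z := z) hb h1 hz' hdom
      (fun s hs hs' => lv_le_right23 h1 (by linarith) hs hs')).1
    refine le_trans h8 ?_
    have h' := (Rat.cast_le (K := ℝ)).2 h4
    push_cast at h'
    exact h'
  · have h5 : (k2 : ℝ) ≤ 266 / 100 := by
      have h' := (Rat.cast_le (K := ℝ)).2 h3
      push_cast at h'
      exact h'
    have h8 := (en_le_of_right (b := b) (κ := κ) (c := 108 / 100) (z := z) hb h1 hz' hdom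
      (fun s hs hs' => lv_le_right266 h1 (by linarith) hs hs')).1
    refine le_trans h8 ?_
    have h' := (Rat.cast_le (K := ℝ)).2 h4
    push_cast at h'
    exact h'

/-- test of the class `q`, `b ≥ b0`, `κ ∈ [k1, k2]`, `H` an upper bound of `2π / (b0 k1)` -/
def geoUQ (q : NumQ) (b0 : ℕ) (k1 k2 H : ℚ) : Prop :=
  1 ≤ b0 ∧ 1 ≤ k1 ∧ 0 < H ∧ 31416 / 5000 ≤ b0 * (H * k1) ∧ 0 ≤ q.z4 + 1 ∧
  (q.z4 + 1) * (31416 / 5000) ≤ b0 * (k1 + 157 / 100) ∧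
  LuQ k1 (-q.qL) q.e0L ∧ LuQ k1 (-q.qR) q.e0R ∧ LuQ k1 (-q.z4) q.e04 ∧
  RuQ k2 H (q.z2 + 1) q.e12 ∧ RuQ k2 H (q.qL + 1) q.e1L ∧ RuQ k2 H (q.qR + 1) q.e1R

/-- test of the lower bounds -/
def geoLQ (q : NumQ) (b0 : ℕ) (k1 H : ℚ) : Prop :=
  1 ≤ b0 ∧ 1 ≤ k1 ∧ 0 < H ∧ 31416 / 5000 ≤ b0 * (H * k1) ∧ LoQ H (-q.z2) q.f02 ∧ LoQ H (-q.qL) q.f0L

instance (q : NumQ) (b0 : ℕ) (k1 k2 H : ℚ) : Decidable (geoUQ q b0 k1 k2 H) := by unfold geoUQ; infer_instance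
instance (q : NumQ) (b0 : ℕ) (k1 H : ℚ) : Decidable (geoLQ q b0 k1 H) := by unfold geoLQ; infer_instance

theorem hh_le {b b0 : ℕ} (hb0 : 1 ≤ b0) (hb : b0 ≤ b) : hh b ≤ 31416 / 5000 / b0 := by
  have h0 : (0 : ℝ) < b0 := by exact_mod_cast hb0
  have h1 : (b0 : ℝ) ≤ b := by exact_mod_cast hb
  have hpi := pi_lt_d4
  have hpi0 := pi_pos
  unfold hh
  calc 2 * π / b ≤ 2 * π / b0 := div_le_div_of_nonneg_left (by positivity) h0 h1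
    _ ≤ _ := div_le_div_of_nonneg_right (by linarith) h0.le

private theorem hh_le_mul {b b0 : ℕ} {κ : ℝ} {k1 H : ℚ} (hb0 : 1 ≤ b0) (hb : b0 ≤ b) (hH0 : 0 < H)
    (hH : 31416 / 5000 ≤ b0 * (H * k1)) (hk : (k1 : ℝ) ≤ κ) : hh b ≤ H * κ := by
  have h0 : (0 : ℝ) < b0 := by exact_mod_cast hb0
  have hH' : (31416 / 5000 : ℝ) ≤ b0 * (H * k1) := by
    have h' := (Rat.cast_le (K := ℝ)).2 hH
    push_cast at h'
    exact h'
  have hH0' : (0 : ℝ) < H := by exact_mod_cast hH0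
  refine le_trans (hh_le hb0 hb) ?_
  rw [div_le_iff₀ h0]
  have : (H : ℝ) * k1 ≤ H * κ := mul_le_mul_of_nonneg_left hk hH0'.le
  nlinarith

theorem geoU_of {q : NumQ} {b b0 : ℕ} {κ : ℝ} {k1 k2 H : ℚ} (h : geoUQ q b0 k1 k2 H) (hb : b0 ≤ b)
    (hk1 : (k1 : ℝ) ≤ κ) (hk2 : κ ≤ k2) : GeoU b κ q.num := by
  obtain ⟨hb0, h1, hH0, hH, hz4, hdom, h2, h3, h4, h5, h6, h7⟩ := h
  have hpi := pi_gt_d2
  have hh0 := hh_le hb0 hb
  have h0 : (0 : ℝ) < b0 := by exact_mod_cast hb0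
  have hκ : 1 ≤ κ := le_trans (by exact_mod_cast h1) hk1
  have hb1 : 1 ≤ b := le_trans hb0 hb
  have hHκ := hh_le_mul hb0 hb hH0 hH hk1
  have h1' : (0 : ℚ) ≤ k1 := le_trans zero_le_one h1
  refine ⟨hκ, ?_, ?_, ?_, ?_, ?_, ?_, ?_⟩
  · have hz4' : (0 : ℝ) ≤ (q.z4 : ℝ) + 1 := by exact_mod_cast hz4
    have hdom' : ((q.z4 : ℝ) + 1) * (31416 / 5000) ≤ b0 * ((k1 : ℝ) + 157 / 100) := by
      have h' := (Rat.cast_le (K := ℝ)).2 hdom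
      push_cast at h'
      exact h'
    show ((q.z4 : ℝ) + 1) * hh b < κ + π / 2
    have h8 : ((q.z4 : ℝ) + 1) * hh b ≤ ((q.z4 : ℝ) + 1) * (31416 / 5000 / b0) := mul_le_mul_of_nonneg_left hh0 hz4'
    have h9 : ((q.z4 : ℝ) + 1) * (31416 / 5000 / b0) ≤ (k1 : ℝ) + 157 / 100 := by
      rw [mul_div_assoc', div_le_iff₀ h0]
      linarith
    norm_num at hpi
    linarith
  · have := h2.le (κ := κ) hb1 hκ hk1 h1'
    push_cast at this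
    rw [neg_neg] at this
    exact this
  · have := h3.le (κ := κ) hb1 hκ hk1 h1'
    push_cast at this
    rw [neg_neg] at this
    exact this
  · have := h4.le (κ := κ) hb1 hκ hk1 h1'
    push_cast at this
    rw [neg_neg] at this
    exact this
  · have := h5.le (κ := κ) hb1 hκ hk2 hHκ hH0
    push_cast at this
    exact this
  · have := h6.le (κ := κ) hb1 hκ hk2 hHκ hH0
    push_cast at this
    exact this
  · have := h7.le (κ := κ) hb1 hκ hk2 hHκ hH0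
    push_cast at this
    exact this

theorem geoL_of {q : NumQ} {b b0 : ℕ} {κ : ℝ} {k1 H : ℚ} (h : geoLQ q b0 k1 H) (hb : b0 ≤ b)
    (hk1 : (k1 : ℝ) ≤ κ) : GeoL b κ q.num := by
  obtain ⟨hb0, h1, hH0, hH, h2, h3⟩ := h
  have hκ : 1 ≤ κ := le_trans (by exact_mod_cast h1) hk1
  have hb1 : 1 ≤ b := le_trans hb0 hb
  have hHκ := hh_le_mul hb0 hb hH0 hH hk1
  refine ⟨?_, ?_⟩
  · have := h2.le (κ := κ) hb1 hκ hHκ hH0
    push_cast at this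
    rw [neg_neg] at this
    exact this
  · have := h3.le (κ := κ) hb1 hκ hHκ hH0
    push_cast at this
    rw [neg_neg] at this
    exact this

/-! ### the classes -/

theorem geoU1_1 {b : ℕ} {κ : ℝ} (hb : 1 ≤ b) (h1 : (47 / 10 : ℝ) ≤ κ) (h2 : κ ≤ 28 / 5) : GeoU b κ c1_1.num :=
  geoU_of (b0 := 1) (k1 := 47 / 10) (k2 := 28 / 5) (H := 13369 / 10000) (by decide +kernel) hb (by push_cast; exact h1)
    (by push_cast; exact h2)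

theorem geoL1_1 {b : ℕ} {κ : ℝ} (hb : 1 ≤ b) (h1 : (47 / 10 : ℝ) ≤ κ) : GeoL b κ c1_1.num :=
  geoL_of (b0 := 1) (k1 := 47 / 10) (H := 13369 / 10000) (by decide +kernel) hb (by push_cast; exact h1)

theorem geoU1_2 {b : ℕ} {κ : ℝ} (hb : 1 ≤ b) (h1 : (28 / 5 : ℝ) ≤ κ) (h2 : κ ≤ 69 / 10) : GeoU b κ c1_2.num :=
  geoU_of (b0 := 1) (k1 := 28 / 5) (k2 := 69 / 10) (H := 561 / 500) (by decide +kernel) hb (by push_cast; exact h1)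
    (by push_cast; exact h2)

theorem geoL1_2 {b : ℕ} {κ : ℝ} (hb : 1 ≤ b) (h1 : (28 / 5 : ℝ) ≤ κ) : GeoL b κ c1_2.num :=
  geoL_of (b0 := 1) (k1 := 28 / 5) (H := 561 / 500) (by decide +kernel) hb (by push_cast; exact h1)

theorem geoU1_3 {b : ℕ} {κ : ℝ} (hb : 1 ≤ b) (h1 : (69 / 10 : ℝ) ≤ κ) (h2 : κ ≤ 77 / 10) : GeoU b κ c1_3.num :=
  geoU_of (b0 := 1) (k1 := 69 / 10) (k2 := 77 / 10) (H := 9107 / 10000) (by decide +kernel) hb (by push_cast; exact h1)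
    (by push_cast; exact h2)

theorem geoL1_3 {b : ℕ} {κ : ℝ} (hb : 1 ≤ b) (h1 : (69 / 10 : ℝ) ≤ κ) : GeoL b κ c1_3.num :=
  geoL_of (b0 := 1) (k1 := 69 / 10) (H := 9107 / 10000) (by decide +kernel) hb (by push_cast; exact h1)

theorem geoU1_4 {b : ℕ} {κ : ℝ} (hb : 1 ≤ b) (h1 : (77 / 10 : ℝ) ≤ κ) (h2 : κ ≤ 41 / 5) : GeoU b κ c1_4.num :=
  geoU_of (b0 := 1) (k1 := 77 / 10) (k2 := 41 / 5) (H := 102 / 125) (by decide +kernel) hb (by push_cast; exact h1)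
    (by push_cast; exact h2)

theorem geoL1_4 {b : ℕ} {κ : ℝ} (hb : 1 ≤ b) (h1 : (77 / 10 : ℝ) ≤ κ) : GeoL b κ c1_4.num :=
  geoL_of (b0 := 1) (k1 := 77 / 10) (H := 102 / 125) (by decide +kernel) hb (by push_cast; exact h1)

theorem geoU1_5 {b : ℕ} {κ : ℝ} (hb : 1 ≤ b) (h1 : (41 / 5 : ℝ) ≤ κ) (h2 : κ ≤ 19 / 2) : GeoU b κ c1_5.num :=
  geoU_of (b0 := 1) (k1 := 41 / 5) (k2 := 19 / 2) (H := 7663 / 10000) (by decide +kernel) hb (by push_cast; exact h1)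
    (by push_cast; exact h2)

theorem geoL1_5 {b : ℕ} {κ : ℝ} (hb : 1 ≤ b) (h1 : (41 / 5 : ℝ) ≤ κ) : GeoL b κ c1_5.num :=
  geoL_of (b0 := 1) (k1 := 41 / 5) (H := 7663 / 10000) (by decide +kernel) hb (by push_cast; exact h1)

theorem geoU1_6 {b : ℕ} {κ : ℝ} (hb : 1 ≤ b) (h1 : (19 / 2 : ℝ) ≤ κ) (h2 : κ ≤ 20) : GeoU b κ c1_6.num :=
  geoU_of (b0 := 1) (k1 := 19 / 2) (k2 := 20) (H := 3307 / 5000) (by decide +kernel) hb (by push_cast; exact h1)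
    (by push_cast; exact h2)

theorem geoL1_6 {b : ℕ} {κ : ℝ} (hb : 1 ≤ b) (h1 : (19 / 2 : ℝ) ≤ κ) : GeoL b κ c1_6.num :=
  geoL_of (b0 := 1) (k1 := 19 / 2) (H := 3307 / 5000) (by decide +kernel) hb (by push_cast; exact h1)

theorem geoU2_1 {b : ℕ} {κ : ℝ} (hb : 2 ≤ b) (h1 : (3 : ℝ) ≤ κ) (h2 : κ ≤ 7 / 2) : GeoU b κ c2_1.num :=
  geoU_of (b0 := 2) (k1 := 3) (k2 := 7 / 2) (H := 1309 / 1250) (by decide +kernel) hb (by push_cast; exact h1)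
    (by push_cast; exact h2)

theorem geoL2_1 {b : ℕ} {κ : ℝ} (hb : 2 ≤ b) (h1 : (3 : ℝ) ≤ κ) : GeoL b κ c2_1.num :=
  geoL_of (b0 := 2) (k1 := 3) (H := 1309 / 1250) (by decide +kernel) hb (by push_cast; exact h1)

theorem geoU2_2 {b : ℕ} {κ : ℝ} (hb : 2 ≤ b) (h1 : (7 / 2 : ℝ) ≤ κ) (h2 : κ ≤ 39 / 10) : GeoU b κ c2_2.num :=
  geoU_of (b0 := 2) (k1 := 7 / 2) (k2 := 39 / 10) (H := 561 / 625) (by decide +kernel) hb (by push_cast; exact h1)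
    (by push_cast; exact h2)

theorem geoL2_2 {b : ℕ} {κ : ℝ} (hb : 2 ≤ b) (h1 : (7 / 2 : ℝ) ≤ κ) : GeoL b κ c2_2.num :=
  geoL_of (b0 := 2) (k1 := 7 / 2) (H := 561 / 625) (by decide +kernel) hb (by push_cast; exact h1)

theorem geoU2_3 {b : ℕ} {κ : ℝ} (hb : 2 ≤ b) (h1 : (39 / 10 : ℝ) ≤ κ) (h2 : κ ≤ 21 / 5) : GeoU b κ c2_3.num :=
  geoU_of (b0 := 2) (k1 := 39 / 10) (k2 := 21 / 5) (H := 1007 / 1250) (by decide +kernel) hb (by push_cast; exact h1)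
    (by push_cast; exact h2)

theorem geoL2_3 {b : ℕ} {κ : ℝ} (hb : 2 ≤ b) (h1 : (39 / 10 : ℝ) ≤ κ) : GeoL b κ c2_3.num :=
  geoL_of (b0 := 2) (k1 := 39 / 10) (H := 1007 / 1250) (by decide +kernel) hb (by push_cast; exact h1)

theorem geoU2_4 {b : ℕ} {κ : ℝ} (hb : 2 ≤ b) (h1 : (21 / 5 : ℝ) ≤ κ) (h2 : κ ≤ 20) : GeoU b κ c2_4.num :=
  geoU_of (b0 := 2) (k1 := 21 / 5) (k2 := 20) (H := 187 / 250) (by decide +kernel) hb (by push_cast; exact h1)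
    (by push_cast; exact h2)

theorem geoL2_4 {b : ℕ} {κ : ℝ} (hb : 2 ≤ b) (h1 : (21 / 5 : ℝ) ≤ κ) : GeoL b κ c2_4.num :=
  geoL_of (b0 := 2) (k1 := 21 / 5) (H := 187 / 250) (by decide +kernel) hb (by push_cast; exact h1)

theorem geoU3_1 {b : ℕ} {κ : ℝ} (hb : 3 ≤ b) (h1 : (139 / 100 : ℝ) ≤ κ) (h2 : κ ≤ 8 / 5) : GeoU b κ c3_1.num :=
  geoU_of (b0 := 3) (k1 := 139 / 100) (k2 := 8 / 5) (H := 3767 / 2500) (by decide +kernel) hb (by push_cast; exact h1)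
    (by push_cast; exact h2)

theorem geoL3_1 {b : ℕ} {κ : ℝ} (hb : 3 ≤ b) (h1 : (139 / 100 : ℝ) ≤ κ) : GeoL b κ c3_1.num :=
  geoL_of (b0 := 3) (k1 := 139 / 100) (H := 3767 / 2500) (by decide +kernel) hb (by push_cast; exact h1)

theorem geoU3_2 {b : ℕ} {κ : ℝ} (hb : 3 ≤ b) (h1 : (8 / 5 : ℝ) ≤ κ) (h2 : κ ≤ 19 / 10) : GeoU b κ c3_2.num :=
  geoU_of (b0 := 3) (k1 := 8 / 5) (k2 := 19 / 10) (H := 1309 / 1000) (by decide +kernel) hb (by push_cast; exact h1)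
    (by push_cast; exact h2)

theorem geoL3_2 {b : ℕ} {κ : ℝ} (hb : 3 ≤ b) (h1 : (8 / 5 : ℝ) ≤ κ) : GeoL b κ c3_2.num :=
  geoL_of (b0 := 3) (k1 := 8 / 5) (H := 1309 / 1000) (by decide +kernel) hb (by push_cast; exact h1)

theorem geoU3_3 {b : ℕ} {κ : ℝ} (hb : 3 ≤ b) (h1 : (19 / 10 : ℝ) ≤ κ) (h2 : κ ≤ 21 / 10) : GeoU b κ c3_3.num :=
  geoU_of (b0 := 3) (k1 := 19 / 10) (k2 := 21 / 10) (H := 689 / 625) (by decide +kernel) hb (by push_cast; exact h1)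
    (by push_cast; exact h2)

theorem geoL3_3 {b : ℕ} {κ : ℝ} (hb : 3 ≤ b) (h1 : (19 / 10 : ℝ) ≤ κ) : GeoL b κ c3_3.num :=
  geoL_of (b0 := 3) (k1 := 19 / 10) (H := 689 / 625) (by decide +kernel) hb (by push_cast; exact h1)

theorem geoU3_4 {b : ℕ} {κ : ℝ} (hb : 3 ≤ b) (h1 : (21 / 10 : ℝ) ≤ κ) (h2 : κ ≤ 23 / 10) : GeoU b κ c3_4.num :=
  geoU_of (b0 := 3) (k1 := 21 / 10) (k2 := 23 / 10) (H := 4987 / 5000) (by decide +kernel) hb (by push_cast; exact h1)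
    (by push_cast; exact h2)

theorem geoL3_4 {b : ℕ} {κ : ℝ} (hb : 3 ≤ b) (h1 : (21 / 10 : ℝ) ≤ κ) : GeoL b κ c3_4.num :=
  geoL_of (b0 := 3) (k1 := 21 / 10) (H := 4987 / 5000) (by decide +kernel) hb (by push_cast; exact h1)

theorem geoU3_5 {b : ℕ} {κ : ℝ} (hb : 3 ≤ b) (h1 : (23 / 10 : ℝ) ≤ κ) (h2 : κ ≤ 5 / 2) : GeoU b κ c3_5.num :=
  geoU_of (b0 := 3) (k1 := 23 / 10) (k2 := 5 / 2) (H := 9107 / 10000) (by decide +kernel) hb (by push_cast; exact h1)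
    (by push_cast; exact h2)

theorem geoL3_5 {b : ℕ} {κ : ℝ} (hb : 3 ≤ b) (h1 : (23 / 10 : ℝ) ≤ κ) : GeoL b κ c3_5.num :=
  geoL_of (b0 := 3) (k1 := 23 / 10) (H := 9107 / 10000) (by decide +kernel) hb (by push_cast; exact h1)

theorem geoU3_6 {b : ℕ} {κ : ℝ} (hb : 3 ≤ b) (h1 : (5 / 2 : ℝ) ≤ κ) (h2 : κ ≤ 133 / 50) : GeoU b κ c3_6.num :=
  geoU_of (b0 := 3) (k1 := 5 / 2) (k2 := 133 / 50) (H := 4189 / 5000) (by decide +kernel) hb (by push_cast; exact h1)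
    (by push_cast; exact h2)

theorem geoL3_6 {b : ℕ} {κ : ℝ} (hb : 3 ≤ b) (h1 : (5 / 2 : ℝ) ≤ κ) : GeoL b κ c3_6.num :=
  geoL_of (b0 := 3) (k1 := 5 / 2) (H := 4189 / 5000) (by decide +kernel) hb (by push_cast; exact h1)

theorem geoU3_7 {b : ℕ} {κ : ℝ} (hb : 3 ≤ b) (h1 : (133 / 50 : ℝ) ≤ κ) (h2 : κ ≤ 20) : GeoU b κ c3_7.num :=
  geoU_of (b0 := 3) (k1 := 133 / 50) (k2 := 20) (H := 3937 / 5000) (by decide +kernel) hb (by push_cast; exact h1)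
    (by push_cast; exact h2)

theorem geoL3_7 {b : ℕ} {κ : ℝ} (hb : 3 ≤ b) (h1 : (133 / 50 : ℝ) ≤ κ) : GeoL b κ c3_7.num :=
  geoL_of (b0 := 3) (k1 := 133 / 50) (H := 3937 / 5000) (by decide +kernel) hb (by push_cast; exact h1)

theorem geoU4_1 {b : ℕ} {κ : ℝ} (hb : 4 ≤ b) (h1 : (139 / 100 : ℝ) ≤ κ) (h2 : κ ≤ 3 / 2) : GeoU b κ c4_1.num :=
  geoU_of (b0 := 4) (k1 := 139 / 100) (k2 := 3 / 2) (H := 11301 / 10000) (by decide +kernel) hb (by push_cast; exact h1)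
    (by push_cast; exact h2)

theorem geoL4_1 {b : ℕ} {κ : ℝ} (hb : 4 ≤ b) (h1 : (139 / 100 : ℝ) ≤ κ) : GeoL b κ c4_1.num :=
  geoL_of (b0 := 4) (k1 := 139 / 100) (H := 11301 / 10000) (by decide +kernel) hb (by push_cast; exact h1)

theorem geoU4_2 {b : ℕ} {κ : ℝ} (hb : 4 ≤ b) (h1 : (3 / 2 : ℝ) ≤ κ) (h2 : κ ≤ 8 / 5) : GeoU b κ c4_2.num :=
  geoU_of (b0 := 4) (k1 := 3 / 2) (k2 := 8 / 5) (H := 1309 / 1250) (by decide +kernel) hb (by push_cast; exact h1)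
    (by push_cast; exact h2)

theorem geoL4_2 {b : ℕ} {κ : ℝ} (hb : 4 ≤ b) (h1 : (3 / 2 : ℝ) ≤ κ) : GeoL b κ c4_2.num :=
  geoL_of (b0 := 4) (k1 := 3 / 2) (H := 1309 / 1250) (by decide +kernel) hb (by push_cast; exact h1)

theorem geoU4_3 {b : ℕ} {κ : ℝ} (hb : 4 ≤ b) (h1 : (8 / 5 : ℝ) ≤ κ) (h2 : κ ≤ 433 / 250) : GeoU b κ c4_3.num :=
  geoU_of (b0 := 4) (k1 := 8 / 5) (k2 := 433 / 250) (H := 4909 / 5000) (by decide +kernel) hb (by push_cast; exact h1)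
    (by push_cast; exact h2)

theorem geoL4_3 {b : ℕ} {κ : ℝ} (hb : 4 ≤ b) (h1 : (8 / 5 : ℝ) ≤ κ) : GeoL b κ c4_3.num :=
  geoL_of (b0 := 4) (k1 := 8 / 5) (H := 4909 / 5000) (by decide +kernel) hb (by push_cast; exact h1)

theorem geoU4_4 {b : ℕ} {κ : ℝ} (hb : 4 ≤ b) (h1 : (433 / 250 : ℝ) ≤ κ) (h2 : κ ≤ 91 / 50) : GeoU b κ c4_4.num :=
  geoU_of (b0 := 4) (k1 := 433 / 250) (k2 := 91 / 50) (H := 907 / 1000) (by decide +kernel) hb (by push_cast; exact h1)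
    (by push_cast; exact h2)

theorem geoL4_4 {b : ℕ} {κ : ℝ} (hb : 4 ≤ b) (h1 : (433 / 250 : ℝ) ≤ κ) : GeoL b κ c4_4.num :=
  geoL_of (b0 := 4) (k1 := 433 / 250) (H := 907 / 1000) (by decide +kernel) hb (by push_cast; exact h1)

theorem geoU4_5 {b : ℕ} {κ : ℝ} (hb : 4 ≤ b) (h1 : (91 / 50 : ℝ) ≤ κ) (h2 : κ ≤ 19 / 10) : GeoU b κ c4_5.num :=
  geoU_of (b0 := 4) (k1 := 91 / 50) (k2 := 19 / 10) (H := 8631 / 10000) (by decide +kernel) hb (by push_cast; exact h1)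
    (by push_cast; exact h2)

theorem geoL4_5 {b : ℕ} {κ : ℝ} (hb : 4 ≤ b) (h1 : (91 / 50 : ℝ) ≤ κ) : GeoL b κ c4_5.num :=
  geoL_of (b0 := 4) (k1 := 91 / 50) (H := 8631 / 10000) (by decide +kernel) hb (by push_cast; exact h1)

theorem geoU4_6 {b : ℕ} {κ : ℝ} (hb : 4 ≤ b) (h1 : (19 / 10 : ℝ) ≤ κ) (h2 : κ ≤ 23 / 10) : GeoU b κ c4_6.num :=
  geoU_of (b0 := 4) (k1 := 19 / 10) (k2 := 23 / 10) (H := 2067 / 2500) (by decide +kernel) hb (by push_cast; exact h1)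
    (by push_cast; exact h2)

theorem geoL4_6 {b : ℕ} {κ : ℝ} (hb : 4 ≤ b) (h1 : (19 / 10 : ℝ) ≤ κ) : GeoL b κ c4_6.num :=
  geoL_of (b0 := 4) (k1 := 19 / 10) (H := 2067 / 2500) (by decide +kernel) hb (by push_cast; exact h1)

theorem geoU4_7 {b : ℕ} {κ : ℝ} (hb : 4 ≤ b) (h1 : (23 / 10 : ℝ) ≤ κ) (h2 : κ ≤ 20) : GeoU b κ c4_7.num :=
  geoU_of (b0 := 4) (k1 := 23 / 10) (k2 := 20) (H := 683 / 1000) (by decide +kernel) hb (by push_cast; exact h1)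
    (by push_cast; exact h2)

theorem geoL4_7 {b : ℕ} {κ : ℝ} (hb : 4 ≤ b) (h1 : (23 / 10 : ℝ) ≤ κ) : GeoL b κ c4_7.num :=
  geoL_of (b0 := 4) (k1 := 23 / 10) (H := 683 / 1000) (by decide +kernel) hb (by push_cast; exact h1)

theorem geoU5_1 {b : ℕ} {κ : ℝ} (hb : 5 ≤ b) (h1 : (139 / 100 : ℝ) ≤ κ) (h2 : κ ≤ 71 / 50) : GeoU b κ c5_1.num :=
  geoU_of (b0 := 5) (k1 := 139 / 100) (k2 := 71 / 50) (H := 9041 / 10000) (by decide +kernel) hb (by push_cast; exact h1)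
    (by push_cast; exact h2)

theorem geoU5_2 {b : ℕ} {κ : ℝ} (hb : 5 ≤ b) (h1 : (71 / 50 : ℝ) ≤ κ) (h2 : κ ≤ 37 / 25) : GeoU b κ c5_2.num :=
  geoU_of (b0 := 5) (k1 := 71 / 50) (k2 := 37 / 25) (H := 177 / 200) (by decide +kernel) hb (by push_cast; exact h1)
    (by push_cast; exact h2)

theorem geoU5_3 {b : ℕ} {κ : ℝ} (hb : 5 ≤ b) (h1 : (37 / 25 : ℝ) ≤ κ) (h2 : κ ≤ 79 / 50) : GeoU b κ c5_3.num :=
  geoU_of (b0 := 5) (k1 := 37 / 25) (k2 := 79 / 50) (H := 8491 / 10000) (by decide +kernel) hb (by push_cast; exact h1)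
    (by push_cast; exact h2)

theorem geoU5_4 {b : ℕ} {κ : ℝ} (hb : 5 ≤ b) (h1 : (79 / 50 : ℝ) ≤ κ) (h2 : κ ≤ 433 / 250) : GeoU b κ c5_4.num :=
  geoU_of (b0 := 5) (k1 := 79 / 50) (k2 := 433 / 250) (H := 3977 / 5000) (by decide +kernel) hb (by push_cast; exact h1)
    (by push_cast; exact h2)

theorem geoL5_4 {b : ℕ} {κ : ℝ} (hb : 5 ≤ b) (h1 : (79 / 50 : ℝ) ≤ κ) : GeoL b κ c5_4.num :=
  geoL_of (b0 := 5) (k1 := 79 / 50) (H := 3977 / 5000) (by decide +kernel) hb (by push_cast; exact h1)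

theorem geoU5_5 {b : ℕ} {κ : ℝ} (hb : 5 ≤ b) (h1 : (433 / 250 : ℝ) ≤ κ) (h2 : κ ≤ 2) : GeoU b κ c5_5.num :=
  geoU_of (b0 := 5) (k1 := 433 / 250) (k2 := 2) (H := 907 / 1250) (by decide +kernel) hb (by push_cast; exact h1)
    (by push_cast; exact h2)

theorem geoL5_5 {b : ℕ} {κ : ℝ} (hb : 5 ≤ b) (h1 : (433 / 250 : ℝ) ≤ κ) : GeoL b κ c5_5.num :=
  geoL_of (b0 := 5) (k1 := 433 / 250) (H := 907 / 1250) (by decide +kernel) hb (by push_cast; exact h1)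

theorem geoU5_6 {b : ℕ} {κ : ℝ} (hb : 5 ≤ b) (h1 : (2 : ℝ) ≤ κ) (h2 : κ ≤ 20) : GeoU b κ c5_6.num :=
  geoU_of (b0 := 5) (k1 := 2) (k2 := 20) (H := 1571 / 2500) (by decide +kernel) hb (by push_cast; exact h1)
    (by push_cast; exact h2)

theorem geoL5_6 {b : ℕ} {κ : ℝ} (hb : 5 ≤ b) (h1 : (2 : ℝ) ≤ κ) : GeoL b κ c5_6.num :=
  geoL_of (b0 := 5) (k1 := 2) (H := 1571 / 2500) (by decide +kernel) hb (by push_cast; exact h1)

theorem geoU6_1 {b : ℕ} {κ : ℝ} (hb : 6 ≤ b) (h1 : (139 / 100 : ℝ) ≤ κ) (h2 : κ ≤ 31 / 20) : GeoU b κ c6_1.num :=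
  geoU_of (b0 := 6) (k1 := 139 / 100) (k2 := 31 / 20) (H := 3767 / 5000) (by decide +kernel) hb (by push_cast; exact h1)
    (by push_cast; exact h2)

theorem geoL6_1 {b : ℕ} {κ : ℝ} (hb : 6 ≤ b) (h1 : (139 / 100 : ℝ) ≤ κ) : GeoL b κ c6_1.num :=
  geoL_of (b0 := 6) (k1 := 139 / 100) (H := 3767 / 5000) (by decide +kernel) hb (by push_cast; exact h1)

theorem geoU6_2 {b : ℕ} {κ : ℝ} (hb : 6 ≤ b) (h1 : (31 / 20 : ℝ) ≤ κ) (h2 : κ ≤ 433 / 250) : GeoU b κ c6_2.num :=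
  geoU_of (b0 := 6) (k1 := 31 / 20) (k2 := 433 / 250) (H := 6757 / 10000) (by decide +kernel) hb (by push_cast; exact h1)
    (by push_cast; exact h2)

theorem geoL6_2 {b : ℕ} {κ : ℝ} (hb : 6 ≤ b) (h1 : (31 / 20 : ℝ) ≤ κ) : GeoL b κ c6_2.num :=
  geoL_of (b0 := 6) (k1 := 31 / 20) (H := 6757 / 10000) (by decide +kernel) hb (by push_cast; exact h1)

theorem geoU6_3 {b : ℕ} {κ : ℝ} (hb : 6 ≤ b) (h1 : (433 / 250 : ℝ) ≤ κ) (h2 : κ ≤ 20) : GeoU b κ c6_3.num :=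
  geoU_of (b0 := 6) (k1 := 433 / 250) (k2 := 20) (H := 6047 / 10000) (by decide +kernel) hb (by push_cast; exact h1)
    (by push_cast; exact h2)

theorem geoL6_3 {b : ℕ} {κ : ℝ} (hb : 6 ≤ b) (h1 : (433 / 250 : ℝ) ≤ κ) : GeoL b κ c6_3.num :=
  geoL_of (b0 := 6) (k1 := 433 / 250) (H := 6047 / 10000) (by decide +kernel) hb (by push_cast; exact h1)

theorem geoU7_1 {b : ℕ} {κ : ℝ} (hb : 7 ≤ b) (h1 : (139 / 100 : ℝ) ≤ κ) (h2 : κ ≤ 433 / 250) : GeoU b κ c7_1.num :=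
  geoU_of (b0 := 7) (k1 := 139 / 100) (k2 := 433 / 250) (H := 3229 / 5000) (by decide +kernel) hb (by push_cast; exact h1)
    (by push_cast; exact h2)

theorem geoL7_1 {b : ℕ} {κ : ℝ} (hb : 7 ≤ b) (h1 : (139 / 100 : ℝ) ≤ κ) : GeoL b κ c7_1.num :=
  geoL_of (b0 := 7) (k1 := 139 / 100) (H := 3229 / 5000) (by decide +kernel) hb (by push_cast; exact h1)

theorem geoU7_2 {b : ℕ} {κ : ℝ} (hb : 7 ≤ b) (h1 : (433 / 250 : ℝ) ≤ κ) (h2 : κ ≤ 20) : GeoU b κ c7_2.num :=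
  geoU_of (b0 := 7) (k1 := 433 / 250) (k2 := 20) (H := 5183 / 10000) (by decide +kernel) hb (by push_cast; exact h1)
    (by push_cast; exact h2)

theorem geoL7_2 {b : ℕ} {κ : ℝ} (hb : 7 ≤ b) (h1 : (433 / 250 : ℝ) ≤ κ) : GeoL b κ c7_2.num :=
  geoL_of (b0 := 7) (k1 := 433 / 250) (H := 5183 / 10000) (by decide +kernel) hb (by push_cast; exact h1)

theorem geoU8_1 {b : ℕ} {κ : ℝ} (hb : 8 ≤ b) (h1 : (139 / 100 : ℝ) ≤ κ) (h2 : κ ≤ 433 / 250) : GeoU b κ c8_1.num :=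
  geoU_of (b0 := 8) (k1 := 139 / 100) (k2 := 433 / 250) (H := 5651 / 10000) (by decide +kernel) hb (by push_cast; exact h1)
    (by push_cast; exact h2)

theorem geoL8_1 {b : ℕ} {κ : ℝ} (hb : 8 ≤ b) (h1 : (139 / 100 : ℝ) ≤ κ) : GeoL b κ c8_1.num :=
  geoL_of (b0 := 8) (k1 := 139 / 100) (H := 5651 / 10000) (by decide +kernel) hb (by push_cast; exact h1)

theorem geoU8_2 {b : ℕ} {κ : ℝ} (hb : 8 ≤ b) (h1 : (433 / 250 : ℝ) ≤ κ) (h2 : κ ≤ 20) : GeoU b κ c8_2.num :=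
  geoU_of (b0 := 8) (k1 := 433 / 250) (k2 := 20) (H := 907 / 2000) (by decide +kernel) hb (by push_cast; exact h1)
    (by push_cast; exact h2)

theorem geoL8_2 {b : ℕ} {κ : ℝ} (hb : 8 ≤ b) (h1 : (433 / 250 : ℝ) ≤ κ) : GeoL b κ c8_2.num :=
  geoL_of (b0 := 8) (k1 := 433 / 250) (H := 907 / 2000) (by decide +kernel) hb (by push_cast; exact h1)

end R2

end Sok
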