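import Pool.Agent.Lib.MP_816dec_an.R2Close
import Pool.Agent.Lib.MP_816dec_an.R2Six

/-!
MP_816dec_an (row R2): assembly of the hypotheses `Hyp` of the class theorem from its pieces.
-/

set_option autoImplicit false

open Complex Set Filter Topology

namespace Sok.R2

/-- the two main windows -/
structure NearH (b : ℕ) (β r : ℝ) (aw : ℤ) (n : ℕ) (N : Num) : Prop where
  h0hi : ∀ z ∈ Icc (-1 : ℝ) N.qL,
    ‖Xw b β aw n 0 (wz b β r z)‖ ≤ N.u0 * Real.exp (-(TT b β r * en b (β * r) z)) * GN β r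
  h0lo : ∀ z ∈ Icc N.qL (0 : ℝ),
    N.c0 * Real.exp (-(TT b β r * en b (β * r) z)) * GN β r ≤ ‖Xw b β aw n 0 (wz b β r z)‖
  h1lo : ∀ z ∈ Icc (-1 : ℝ) N.qR,
    N.l1 * Real.exp (-(TT b β r * en b (β * r) (z + 1))) * GN β r ≤ ‖Xw b β aw n 1 (wz b β r z)‖
  h1hi : ∀ z ∈ Icc N.qR N.z4,
    ‖Xw b β aw n 1 (wz b β r z)‖ ≤ N.c1 * Real.exp (-(TT b β r * en b (β * r) (z + 1))) * GN β r

/-- the slopes of the two main windows -/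
structure SlopeH (b : ℕ) (β r : ℝ) (aw : ℤ) (n : ℕ) (N : Num) : Prop where
  s0 : ∀ z ∈ Icc N.qL N.qR, hh b / TT b β r *
    ‖deriv (Xw b β aw n 0) (wz b β r z) / Xw b β aw n 0 (wz b β r z) - sig (β * r) (tk b β r 0 z) / β‖ ≤ N.δ0
  s1 : ∀ z ∈ Icc N.qL N.qR, hh b / TT b β r *
    ‖deriv (Xw b β aw n 1) (wz b β r z) / Xw b β aw n 1 (wz b β r z) - sig (β * r) (tk b β r 1 z) / β‖ ≤ N.δ1

/-- the values of the far windows -/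
structure FarH (b : ℕ) (β r : ℝ) (aw : ℤ) (n : ℕ) (N : Num) : Prop where
  h1far : ∀ z ∈ Icc N.z4 (0 : ℝ),
    ‖Xw b β aw n 1 (wz b β r z)‖ ≤ N.Kr * Real.exp (-(TT b β r * (N.Sr * (1 + z) - N.Cr))) * GN β r
  h2 : (2 : ℤ) ∈ sw b aw n → ∀ z ∈ Icc (-1 : ℝ) 0,
    ‖Xw b β aw n 2 (wz b β r z)‖ ≤ N.K2 * N.W2 (TT b β r) z * GN β r
  h3 : ∀ i : ℕ, (3 + i : ℤ) ∈ sw b aw n → ∀ z ∈ Icc (-1 : ℝ) 0,
    ‖Xw b β aw n (3 + i) (wz b β r z)‖ ≤ (1 / 5) ^ i * N.K3 * N.W3 (TT b β r) z * GN β r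
  hm : (-1 : ℤ) ∈ sw b aw n → ∀ z ∈ Icc (-1 : ℝ) 0,
    ‖Xw b β aw n (-1) (wz b β r z)‖ ≤ N.Km * N.Wm (TT b β r) z * GN β r
  hm2 : ∀ i : ℕ, (-2 - i : ℤ) ∈ sw b aw n → ∀ z ∈ Icc (-1 : ℝ) 0,
    ‖Xw b β aw n (-2 - i) (wz b β r z)‖ ≤ (1 / 5) ^ i * N.Km2 * N.Wm2 (TT b β r) z * GN β r

/-- the moments of the far windows -/
structure MomH (b : ℕ) (β r : ℝ) (aw : ℤ) (n : ℕ) (N : Num) : Prop where
  m2 : (2 : ℤ) ∈ sw b aw n → ∀ z ∈ Icc N.qL N.qR, hh b / TT b β r *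
    ‖deriv (Xw b β aw n 2) (wz b β r z) -
      (2 * sig (β * r) (tk b β r 1 z) - sig (β * r) (tk b β r 0 z)) / β * Xw b β aw n 2 (wz b β r z)‖ ≤
      N.P2 * N.W2 (TT b β r) z * GN β r
  m3 : ∀ i : ℕ, (3 + i : ℤ) ∈ sw b aw n → ∀ z ∈ Icc N.qL N.qR, hh b / TT b β r *
    ‖deriv (Xw b β aw n (3 + i)) (wz b β r z) -
      ((3 + i) * sig (β * r) (tk b β r 1 z) - (2 + i) * sig (β * r) (tk b β r 0 z)) / β *
        Xw b β aw n (3 + i) (wz b β r z)‖ ≤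
      (1 / 5) ^ i * (N.P3 + i * N.P4) * N.W3 (TT b β r) z * GN β r
  mm : (-1 : ℤ) ∈ sw b aw n → ∀ z ∈ Icc N.qL N.qR, hh b / TT b β r *
    ‖deriv (Xw b β aw n (-1)) (wz b β r z) -
      (2 * sig (β * r) (tk b β r 0 z) - sig (β * r) (tk b β r 1 z)) / β * Xw b β aw n (-1) (wz b β r z)‖ ≤
      N.Pm * N.Wm (TT b β r) z * GN β r
  mm2 : ∀ i : ℕ, (-2 - i : ℤ) ∈ sw b aw n → ∀ z ∈ Icc N.qL N.qR, hh b / TT b β r *
    ‖deriv (Xw b β aw n (-2 - i)) (wz b β r z) -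
      ((3 + i) * sig (β * r) (tk b β r 0 z) - (2 + i) * sig (β * r) (tk b β r 1 z)) / β *
        Xw b β aw n (-2 - i) (wz b β r z)‖ ≤
      (1 / 5) ^ i * (N.Pm2 + i * N.Pm3) * N.Wm2 (TT b β r) z * GN β r

theorem Hyp.of {b : ℕ} {β r : ℝ} {aw : ℤ} {n : ℕ} {N : Num} (hT : N.T0 ≤ TT b β r)
    (gU : GeoU b (β * r) N) (gL : GeoL b (β * r) N)
    (f1R : N.f1R ≤ en b (β * r) (N.qR + 1))
    (mu : ∀ z ∈ Icc N.qL N.qR, N.μ ≤ sn b (β * r) (z + 1) - sn b (β * r) z)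
    (A : NearH b β r aw n N) (B : SlopeH b β r aw n N) (F : FarH b β r aw n N) (M : MomH b β r aw n N) :
    Hyp b β r aw n N where
  hκ := gU.hκ
  dom := gU.dom
  hT := hT
  f02 := gL.f02
  f0L := gL.f0L
  e0L := gU.e0L
  e0R := gU.e0R
  e04 := gU.e04
  e12 := gU.e12
  e1L := gU.e1L
  e1R := gU.e1R
  f1R := f1R
  mu := mu
  h0hi := A.h0hi
  h0lo := A.h0lo
  h1lo := A.h1lo
  h1hi := A.h1hi
  h1far := F.h1far
  s0 := B.s0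
  s1 := B.s1
  h2 := F.h2
  h3 := F.h3
  m2 := M.m2
  m3 := M.m3
  hm := F.hm
  hm2 := F.hm2
  mm := M.mm
  mm2 := M.mm2

/-- lower bounds of `T` -/
theorem hT_of {b : ℕ} {β r k2 T0 : ℝ} (hb : 1 ≤ b) (hr : 10 ≤ r)
    (hC : Real.sqrt 3 / 2 * ((b : ℝ) ^ 2 * (1 + (β * r) ^ 2)) ≤ 2 * Real.pi * r) (h0 : 0 ≤ β * r)
    (h2 : β * r ≤ k2) (h : T0 ≤ 5441 / 1000 ∨ T0 * (b ^ 2 * (1 + k2 ^ 2)) ≤ 394784 / 1000) :
    T0 ≤ TT b β r := by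
  have hb' : (1 : ℝ) ≤ b := by exact_mod_cast hb
  have hpi := Real.pi_gt_d6
  have h1 : 0 < (b : ℝ) ^ 2 * (1 + (β * r) ^ 2) := by positivity
  have e : TT b β r = r * (4 * Real.pi ^ 2) / (b ^ 2 * (1 + (β * r) ^ 2)) := by
    unfold TT hh
    field_simp
    ring
  rw [e, le_div_iff₀ h1]
  rcases h with h | h
  ·
    have h3 : (173205 / 100000 : ℝ) ≤ Real.sqrt 3 := by
      apply Real.le_sqrt_of_sq_le
      norm_num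
    have h4 : 173205 / 100000 / 2 * ((b : ℝ) ^ 2 * (1 + (β * r) ^ 2)) ≤ 2 * Real.pi * r :=
      le_trans (mul_le_mul_of_nonneg_right (by linarith) h1.le) hC
    have h5 : T0 * ((b : ℝ) ^ 2 * (1 + (β * r) ^ 2)) ≤ 5441 / 1000 * ((b : ℝ) ^ 2 * (1 + (β * r) ^ 2)) :=
      mul_le_mul_of_nonneg_right h h1.le
    have h6 : 2 * Real.pi * (173205 / 100000 / 2 * ((b : ℝ) ^ 2 * (1 + (β * r) ^ 2))) ≤
        2 * Real.pi * (2 * Real.pi * r) := mul_le_mul_of_nonneg_left h4 (by positivity)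
    have h7 : 5441 / 1000 * ((b : ℝ) ^ 2 * (1 + (β * r) ^ 2)) ≤
        2 * Real.pi * (173205 / 100000 / 2) * ((b : ℝ) ^ 2 * (1 + (β * r) ^ 2)) :=
      mul_le_mul_of_nonneg_right (by linarith) h1.le
    linarith
  · have h8 : (394784 / 1000 : ℝ) ≤ r * (4 * Real.pi ^ 2) := by nlinarith
    rcases le_total T0 0 with h9 | h9
    · have : T0 * ((b : ℝ) ^ 2 * (1 + (β * r) ^ 2)) ≤ 0 := mul_nonpos_of_nonpos_of_nonneg h9 h1.le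
      linarith
    · have h10 : T0 * ((b : ℝ) ^ 2 * (1 + (β * r) ^ 2)) ≤ T0 * (b ^ 2 * (1 + k2 ^ 2)) := by gcongr
      linarith

theorem circ_of {b : ℕ} {p : ℤ} {β r : ℝ} {aw : ℤ} {n : ℕ} {N : Num} {A : Aux} (hb : 1 ≤ b)
    (hp : IsCoprime (b : ℤ) p) (hβ : 0 < β) (hr : 10 ≤ r) (hn : 1 ≤ n) (ha : aw ≤ 0)
    (ha1 : 1 < aw + n * b + b) (H : Hyp b β r aw n N) (O : Ok N A) : Circ (2 * Real.pi * p / b + β) r :=
  close hb hp hβ (by linarith) hn ha ha1 H O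

end Sok.R2
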