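import Mathlib

/-!
MP_816dec_an: half-line integrals with a Gaussian central part and an exponential tail (row F of R2).
-/

set_option autoImplicit false

open Set Filter Topology MeasureTheory

namespace Sok.R2

private theorem gauss0 {c l : ℝ} (hc : 0 < c) (hl : 0 ≤ l) :
    ∫ u in (0 : ℝ)..l, Real.exp (-(c / 2 * u ^ 2)) ≤ 1 / 2 * Real.sqrt (2 * Real.pi / c) := by
  have h1 := integral_gaussian_Ioi (c / 2)
  have h2 : Real.sqrt (Real.pi / (c / 2)) / 2 = 1 / 2 * Real.sqrt (2 * Real.pi / c) := by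
    rw [show Real.pi / (c / 2) = 2 * Real.pi / c by field_simp]; ring
  rw [← h2, ← h1, intervalIntegral.integral_of_le hl]
  have h3 : ∀ u : ℝ, Real.exp (-(c / 2 * u ^ 2)) = Real.exp (-(c / 2) * u ^ 2) := fun u => by congr 1; ring
  simp only [h3]
  refine setIntegral_mono_set ?_ (Eventually.of_forall fun u => (Real.exp_pos _).le) ?_
  · exact (integrable_exp_neg_mul_sq (by positivity : 0 < c / 2)).integrableOn
  · exact (Ioc_subset_Ioi_self).eventuallyLE

private theorem gauss1 {c l : ℝ} (hc : 0 < c) :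
    ∫ u in (0 : ℝ)..l, u * Real.exp (-(c / 2 * u ^ 2)) ≤ 1 / c := by
  have hd : ∀ u ∈ uIcc (0 : ℝ) l, HasDerivAt (fun u : ℝ => -(1 / c) * Real.exp (-(c / 2 * u ^ 2)))
      (u * Real.exp (-(c / 2 * u ^ 2))) u := by
    intro u _
    have h0 : HasDerivAt (fun u : ℝ => c / 2 * u ^ 2) (c / 2 * (2 * u)) u := by
      have := (hasDerivAt_pow 2 u).const_mul (c / 2)
      simpa using this
    have h1 := h0.fun_neg
    have h2 := (h1.exp).const_mul (-(1 / c))
    refine h2.congr_deriv ?_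
    field_simp
  rw [intervalIntegral.integral_eq_sub_of_hasDerivAt hd
    ((by fun_prop : Continuous fun u : ℝ => u * Real.exp (-(c / 2 * u ^ 2))).intervalIntegrable _ _)]
  have h3 : 0 ≤ 1 / c * Real.exp (-(c / 2 * l ^ 2)) := by positivity
  have h4 : Real.exp (-(c / 2 * (0 : ℝ) ^ 2)) = 1 := by simp
  rw [h4]
  linarith

private theorem tail_int {A B g ν l : ℝ} (hν : 0 < ν) (hA : 0 ≤ A) (hB : 0 ≤ B) (hl : 1 ≤ l) :
    ∫ u in (1 : ℝ)..l, (A + B * u) * Real.exp (-g - ν * (u - 1)) ≤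
      Real.exp (-g) * (A / ν + B * (1 / ν + 1 / ν ^ 2)) := by
  have hd : ∀ u ∈ uIcc (1 : ℝ) l, HasDerivAt
      (fun u : ℝ => -((A / ν + B * u / ν + B / ν ^ 2) * Real.exp (-g - ν * (u - 1))))
      ((A + B * u) * Real.exp (-g - ν * (u - 1))) u := by
    intro u _
    have h1 : HasDerivAt (fun u : ℝ => -g - ν * (u - 1)) (-(ν * 1)) u :=
      (((hasDerivAt_id u).sub_const 1).const_mul ν).const_sub (-g)
    have h2 : HasDerivAt (fun u : ℝ => A / ν + B * u / ν + B / ν ^ 2) (B * 1 / ν) u :=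
      ((((hasDerivAt_id u).const_mul B).div_const ν).const_add (A / ν)).add_const (B / ν ^ 2)
    have h3 := (h2.mul h1.exp).neg
    refine h3.congr_deriv ?_
    field_simp
    ring
  rw [intervalIntegral.integral_eq_sub_of_hasDerivAt hd
    ((by fun_prop : Continuous fun u : ℝ => (A + B * u) * Real.exp (-g - ν * (u - 1))).intervalIntegrable _ _)]
  have h3 : 0 ≤ (A / ν + B * l / ν + B / ν ^ 2) * Real.exp (-g - ν * (l - 1)) := by positivity
  have h4 : Real.exp (-g - ν * (1 - 1)) = Real.exp (-g) := by congr 1; ring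
  rw [h4]
  have h5 : (A / ν + B * 1 / ν + B / ν ^ 2) * Real.exp (-g) = Real.exp (-g) * (A / ν + B * (1 / ν + 1 / ν ^ 2)) := by
    ring
  linarith

/-- HALF LINE: Gaussian on `[0,1]`, exponential tail from `1` on -/
theorem half_int {G : ℝ → ℝ} (hG : Continuous G) {c g ν A B l : ℝ} (hc : 0 < c) (hν : 0 < ν) (hA : 0 ≤ A)
    (hB : 0 ≤ B) (hl : 0 ≤ l) (h0 : ∀ u, 0 ≤ u → u ≤ 1 → u ≤ l → G u ≤ -(c / 2 * u ^ 2))
    (h1 : ∀ u, 1 ≤ u → u ≤ l → G u ≤ -g - ν * (u - 1)) :
    ∫ u in (0 : ℝ)..l, (A + B * u) * Real.exp (G u) ≤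
      A * (1 / 2 * Real.sqrt (2 * Real.pi / c) + Real.exp (-g) / ν) +
      B * (1 / c + Real.exp (-g) * (1 / ν + 1 / ν ^ 2)) := by
  have hcf : Continuous fun u : ℝ => (A + B * u) * Real.exp (G u) := by fun_prop
  have key : ∀ m : ℝ, 0 ≤ m → m ≤ 1 → m ≤ l → ∫ u in (0 : ℝ)..m, (A + B * u) * Real.exp (G u) ≤
      A * (1 / 2 * Real.sqrt (2 * Real.pi / c)) + B * (1 / c) := by
    intro m hm0 hm1 hml
    have e1 : ∫ u in (0 : ℝ)..m, (A + B * u) * Real.exp (G u) ≤
        ∫ u in (0 : ℝ)..m, (A * Real.exp (-(c / 2 * u ^ 2)) + B * (u * Real.exp (-(c / 2 * u ^ 2)))) := by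
      refine intervalIntegral.integral_mono_on hm0 (hcf.intervalIntegrable _ _)
        ((by fun_prop : Continuous fun u : ℝ => (A * Real.exp (-(c / 2 * u ^ 2)) +
          B * (u * Real.exp (-(c / 2 * u ^ 2))))).intervalIntegrable _ _) ?_
      intro u hu
      have h2 := Real.exp_le_exp.2 (h0 u hu.1 (hu.2.trans hm1) (hu.2.trans hml))
      have h3 : 0 ≤ A + B * u := by have := mul_nonneg hB hu.1; linarith
      have h4 := mul_le_mul_of_nonneg_left h2 h3
      linarith
    rw [intervalIntegral.integral_add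
      ((by fun_prop : Continuous fun u : ℝ => A * Real.exp (-(c / 2 * u ^ 2))).intervalIntegrable _ _)
      ((by fun_prop : Continuous fun u : ℝ => B * (u * Real.exp (-(c / 2 * u ^ 2)))).intervalIntegrable _ _),
      intervalIntegral.integral_const_mul, intervalIntegral.integral_const_mul] at e1
    have e2 := mul_le_mul_of_nonneg_left (gauss0 hc hm0) hA
    have e3 := mul_le_mul_of_nonneg_left (gauss1 (l := m) hc) hB
    linarith
  rcases le_total l 1 with h | h
  · have e1 := key l hl h le_rfl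
    have e2 : 0 ≤ A * (Real.exp (-g) / ν) + B * (Real.exp (-g) * (1 / ν + 1 / ν ^ 2)) := by positivity
    linarith
  · have e1 := key 1 zero_le_one le_rfl h
    have e2 : ∫ u in (1 : ℝ)..l, (A + B * u) * Real.exp (G u) ≤
        ∫ u in (1 : ℝ)..l, (A + B * u) * Real.exp (-g - ν * (u - 1)) := by
      refine intervalIntegral.integral_mono_on h (hcf.intervalIntegrable _ _)
        ((by fun_prop : Continuous fun u : ℝ => (A + B * u) *
          Real.exp (-g - ν * (u - 1))).intervalIntegrable _ _) ?_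
      intro u hu
      have h2 := Real.exp_le_exp.2 (h1 u hu.1 hu.2)
      have h3 : 0 ≤ A + B * u := by have := mul_nonneg hB (zero_le_one.trans hu.1); linarith
      exact mul_le_mul_of_nonneg_left h2 h3
    have e3 := tail_int (g := g) hν hA hB h
    rw [← intervalIntegral.integral_add_adjacent_intervals (hcf.intervalIntegrable 0 1)
      (hcf.intervalIntegrable 1 l)]
    have e4 : Real.exp (-g) * (A / ν + B * (1 / ν + 1 / ν ^ 2)) =
      A * (Real.exp (-g) / ν) + B * (Real.exp (-g) * (1 / ν + 1 / ν ^ 2)) := by ring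
    linarith

/-- tangent of the cosine on `[-π/2, π/2]` -/
theorem cos_le_tangent {a b : ℝ} (ha : -(Real.pi / 2) ≤ a) (ha' : a ≤ Real.pi / 2) (hb : -(Real.pi / 2) ≤ b)
    (hb' : b ≤ Real.pi / 2) : Real.cos b ≤ Real.cos a - Real.sin a * (b - a) := by
  rcases lt_trichotomy a b with h | h | h
  · obtain ⟨ξ, hξ, h1⟩ := exists_deriv_eq_slope Real.cos h Real.continuousOn_cos
      (Real.differentiable_cos.differentiableOn)
    rw [Real.deriv_cos, eq_div_iff (by linarith : b - a ≠ 0)] at h1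
    have h2 : Real.sin a ≤ Real.sin ξ := Real.sin_le_sin_of_le_of_le_pi_div_two ha (by linarith [hξ.2]) hξ.1.le
    nlinarith
  · rw [h]; simp
  · obtain ⟨ξ, hξ, h1⟩ := exists_deriv_eq_slope Real.cos h Real.continuousOn_cos
      (Real.differentiable_cos.differentiableOn)
    rw [Real.deriv_cos, eq_div_iff (by linarith : a - b ≠ 0)] at h1
    have h2 : Real.sin ξ ≤ Real.sin a := Real.sin_le_sin_of_le_of_le_pi_div_two (by linarith [hξ.1]) ha' hξ.2.le
    nlinarith

end Sok.R2
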