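import Pool.Agent.Lib.MP_816dec_an.R2Close4

/-!
MP_816dec_an (row R2): the class theorem, `Hyp` and `Ok` imply `Circ`.
-/

set_option autoImplicit false

open Complex Set Filter Topology

namespace Sok.R2

variable {b : ℕ} {β r : ℝ} {aw : ℤ} {n : ℕ} {N : Num} {A : Aux}

theorem wz_of (hb : 0 < b) {w : ℂ} (hre : w.re = Real.log r) :
    wz b β r ((w.im + β * r - β / 2) / hh b) = w := by
  have hh0 := hhp0 hb
  unfold wz
  have e : -(β * r) + (w.im + β * r - β / 2) / hh b * hh b + β / 2 = w.im := by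
    rw [div_mul_cancel₀ _ hh0.ne']; ring
  rw [e, ← hre, Complex.re_add_im]

theorem slope_eq (hb : 0 < b) (hβ : 0 < β) (hr : 0 < r) (z : ℝ) :
    (sig (β * r) (tk b β r 1 z) / β - sig (β * r) (tk b β r 0 z) / β).im =
      TT b β r / hh b * (sn b (β * r) (z + 1) - sn b (β * r) z) := by
  have hh0 := hhp0 hb
  have hβ' : (β : ℂ) ≠ 0 := Complex.ofReal_ne_zero.2 hβ.ne'
  have e1 : tk b β r 1 z = (z + 1) * hh b - β * r := by unfold tk; push_cast; ring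
  have e0 : tk b β r 0 z = z * hh b - β * r := by unfold tk; push_cast; ring
  rw [← sub_div, Complex.div_ofReal_im, e1, e0]
  unfold sig TT sn yv
  simp only [Complex.sub_im, Complex.add_im, Complex.ofReal_im, Complex.mul_im, Complex.ofReal_re, Complex.I_im,
    Complex.I_re, mul_one, mul_zero, add_zero, zero_add]
  have h1 : (0 : ℝ) < 1 + (β * r) ^ 2 := by positivity
  field_simp

theorem Mk_nonneg (O : Ok N A) (k : ℤ) : 0 ≤ Mk N A k := by
  obtain ⟨u0, l1, c0, c1, K2, K3, Km, Km2, Kr⟩ := O.pos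
  obtain ⟨T0, a1, a5, o1, o2, o3, o4, o5⟩ := O.ord
  obtain ⟨t0, t6, tm, S0, Sm0, Sr0⟩ := O.pos2
  have ha : 0 < N.a := by linarith
  have hX2 : 0 ≤ A.X2 := O.X2.1.nonneg
  have hXm : 0 ≤ A.Xm := O.Xm.1.nonneg
  have hY1 : 0 ≤ A.Y1 := O.Y1.nonneg
  have hY0 : 0 ≤ A.Y0 := O.Y0.nonneg
  have hρ0 : 0 ≤ A.ρ := O.ρ.nonneg
  have hρm0 : 0 ≤ A.ρm := O.ρm.nonneg
  have aux : ∀ {x y l : ℝ}, 0 ≤ x → 0 < l → x ≤ y * l → 0 ≤ y := by
    intro x y l hx hl h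
    by_contra hc
    push Not at hc
    nlinarith
  have m2 : 0 ≤ A.M2 := aux (by positivity) l1 O.M2
  have m3 : 0 ≤ A.M3 := aux (by positivity) l1 O.M3
  have mm : 0 ≤ A.Mm := aux (by positivity) c0 O.Mm
  have mm2 : 0 ≤ A.Mm2 := aux (by positivity) c0 O.Mm2
  unfold Mk
  split_ifs <;> positivity

theorem Q_nonneg (O : Ok N A) : 0 ≤ A.Q2 ∧ 0 ≤ A.Q3 ∧ 0 ≤ A.Q4 ∧ 0 ≤ A.Qm ∧ 0 ≤ A.Qm2 ∧ 0 ≤ A.Qm3 := by
  obtain ⟨u0, l1, c0, c1, K2, K3, Km, Km2, Kr⟩ := O.pos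
  obtain ⟨T0, a1, a5, o1, o2, o3, o4, o5⟩ := O.ord
  obtain ⟨t0, t6, tm, S0, Sm0, Sr0⟩ := O.pos2
  obtain ⟨δ0, δ1, P2, P3, P4, Pm, Pm2, Pm3⟩ := O.pos3
  have ha : 0 < N.a := by linarith
  have hX2 : 0 ≤ A.X2 := O.X2.1.nonneg
  have hXm : 0 ≤ A.Xm := O.Xm.1.nonneg
  have hY1 : 0 ≤ A.Y1 := O.Y1.nonneg
  have hY0 : 0 ≤ A.Y0 := O.Y0.nonneg
  have hρ0 : 0 ≤ A.ρ := O.ρ.nonneg
  have hρm0 : 0 ≤ A.ρm := O.ρm.nonneg
  have m2 := Mk_nonneg O 2
  rw [Mk_2] at m2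
  have m3 := Mk_nonneg O (3 + (0 : ℕ))
  rw [Mk_3, pow_zero, mul_one] at m3
  have mm := Mk_nonneg O (-1)
  rw [Mk_m1] at mm
  have mm2 := Mk_nonneg O (-2 - (0 : ℕ))
  rw [Mk_m2, pow_zero, mul_one] at mm2
  have aux : ∀ {x y l u : ℝ}, 0 ≤ x → 0 < l → 0 ≤ u → x ≤ (y - u) * l → 0 ≤ y := by
    intro x y l u hx hl hu h
    by_contra hc
    push Not at hc
    nlinarith
  exact ⟨aux (by positivity) l1 (by positivity) O.Q2, aux (by positivity) l1 (by positivity) O.Q3,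
    aux (by positivity) l1 (by positivity) O.Q4, aux (by positivity) c0 (by positivity) O.Qm,
    aux (by positivity) c0 (by positivity) O.Qm2, aux (by positivity) c0 (by positivity) O.Qm3⟩

theorem small1 (O : Ok N A) (b : ℕ) (aw : ℤ) (n : ℕ) :
    ∑ k ∈ sw b aw n, (k.natAbs : ℝ) * Mk N A k * N.a ^ (k.natAbs + 1) ≤ A.S1 := by
  obtain ⟨T0, a1, a5, o1, o2, o3, o4, o5⟩ := O.ord
  have ha : 0 < N.a := by linarith
  have m2 := Mk_nonneg O 2
  rw [Mk_2] at m2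
  have m3 := Mk_nonneg O (3 + (0 : ℕ))
  rw [Mk_3, pow_zero, mul_one] at m3
  have mm := Mk_nonneg O (-1)
  rw [Mk_m1] at mm
  have mm2 := Mk_nonneg O (-2 - (0 : ℕ))
  rw [Mk_m2, pow_zero, mul_one] at mm2
  have h := sum_far (b := b) (aw := aw) (n := n) (F := fun k => (k.natAbs : ℝ) * Mk N A k * N.a ^ (k.natAbs + 1))
    (x := N.a ^ 2 / 5) (A2 := 2 * A.M2 * N.a ^ 3) (A3 := 3 * (N.a ^ 4 * A.M3)) (A4 := N.a ^ 4 * A.M3)
    (Bm := A.Mm * N.a ^ 2) (B2 := 2 * (N.a ^ 3 * A.Mm2)) (B3 := N.a ^ 3 * A.Mm2)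
    (by positivity) (by linarith) (by positivity) (by positivity) (by positivity) (by positivity) (by positivity)
    (by positivity)
    (fun _ => by
      show ((2 : ℤ).natAbs : ℝ) * Mk N A 2 * N.a ^ ((2 : ℤ).natAbs + 1) ≤ _
      rw [Mk_2]; norm_num)
    (fun i _ => by
      have e : (3 + (i : ℤ)).natAbs = 3 + i := by omega
      show ((3 + (i : ℤ)).natAbs : ℝ) * Mk N A (3 + i) * N.a ^ ((3 + (i : ℤ)).natAbs + 1) ≤ _
      rw [Mk_3, e]
      refine le_of_eq ?_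
      rw [div_pow, div_pow, pow_add, pow_add, ← pow_mul, mul_comm 2 i, pow_mul]
      push_cast
      ring)
    (fun _ => by
      show ((-1 : ℤ).natAbs : ℝ) * Mk N A (-1) * N.a ^ ((-1 : ℤ).natAbs + 1) ≤ _
      rw [Mk_m1]; norm_num)
    (fun i _ => by
      have e : (-2 - (i : ℤ)).natAbs = 2 + i := by omega
      show ((-2 - (i : ℤ)).natAbs : ℝ) * Mk N A (-2 - i) * N.a ^ ((-2 - (i : ℤ)).natAbs + 1) ≤ _
      rw [Mk_m2, e]
      refine le_of_eq ?_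
      rw [div_pow, div_pow, pow_add, pow_add, ← pow_mul, mul_comm 2 i, pow_mul]
      push_cast
      ring)
  refine h.trans (le_trans (le_of_eq ?_) O.S1)
  ring

theorem small2 (O : Ok N A) (b : ℕ) (aw : ℤ) (n : ℕ) :
    ∑ k ∈ sw b aw n, Qk N A k * N.a ^ k.natAbs ≤ A.S2 := by
  obtain ⟨T0, a1, a5, o1, o2, o3, o4, o5⟩ := O.ord
  have ha : 0 < N.a := by linarith
  obtain ⟨q2, q3, q4, qm, qm2, qm3⟩ := Q_nonneg O
  have h := sum_far (b := b) (aw := aw) (n := n) (F := fun k => Qk N A k * N.a ^ k.natAbs)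
    (x := N.a ^ 2 / 5) (A2 := A.Q2 * N.a ^ 2) (A3 := N.a ^ 3 * A.Q3) (A4 := N.a ^ 3 * A.Q4)
    (Bm := A.Qm * N.a) (B2 := N.a ^ 2 * A.Qm2) (B3 := N.a ^ 2 * A.Qm3)
    (by positivity) (by linarith) (by positivity) (by positivity) (by positivity) (by positivity) (by positivity)
    (by positivity)
    (fun _ => by
      show Qk N A 2 * N.a ^ (2 : ℤ).natAbs ≤ _
      rw [Qk_2]; norm_num)
    (fun i _ => by
      have e : (3 + (i : ℤ)).natAbs = 3 + i := by omega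
      show Qk N A (3 + i) * N.a ^ (3 + (i : ℤ)).natAbs ≤ _
      rw [Qk_3, e]
      refine le_of_eq ?_
      rw [div_pow, div_pow, pow_add, ← pow_mul, mul_comm 2 i, pow_mul]
      ring)
    (fun _ => by
      show Qk N A (-1) * N.a ^ (-1 : ℤ).natAbs ≤ _
      rw [Qk_m1]; norm_num)
    (fun i _ => by
      have e : (-2 - (i : ℤ)).natAbs = 2 + i := by omega
      show Qk N A (-2 - i) * N.a ^ (-2 - (i : ℤ)).natAbs ≤ _
      rw [Qk_m2, e]
      refine le_of_eq ?_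
      rw [div_pow, div_pow, pow_add, ← pow_mul, mul_comm 2 i, pow_mul]
      ring)
  refine h.trans (le_trans (le_of_eq ?_) O.S2)
  ring

theorem twoTermL (hb : 0 < b) (hβ : 0 < β) (hr : 0 < r) (H : Hyp b β r aw n N) (O : Ok N A) :
    TwoTermL (Xw b β aw n) (sw b aw n) (Real.log r) (-(β * r) + N.qL * hh b + β / 2)
      (-(β * r) + N.qR * hh b + β / 2) N.a ((N.μ - N.δ0 - N.δ1) * (TT b β r / hh b)) (Mk N A)
      (fun k => TT b β r / hh b * Qk N A k) := by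
  obtain ⟨T0, a1, a5, o1, o2, o3, o4, o5⟩ := O.ord
  obtain ⟨u0, l1, c0, c1, K2, K3, Km, Km2, Kr⟩ := O.pos
  have hG := GN_pos β r
  have hh0 := hhp0 hb
  have hTp : 0 < TT b β r := lt_of_lt_of_le T0 H.hT
  have hc : 0 < TT b β r / hh b := by positivity
  have hS1 := small1 O b aw n
  have hS2 := small2 O b aw n
  have hfin := O.fin
  have hS1' := O.S1'
  have hS20 : 0 ≤ A.S2 := by
    refine le_trans ?_ hS2
    apply Finset.sum_nonneg
    intro k _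
    obtain ⟨q2, q3, q4, qm, qm2, qm3⟩ := Q_nonneg O
    have ha : 0 < N.a := by linarith
    unfold Qk
    split_ifs <;> positivity
  have hμ : 0 < N.μ - N.δ0 - N.δ1 := by
    by_contra hcon
    push Not at hcon
    have : (N.μ - N.δ0 - N.δ1) * (1 - A.S1) ≤ 0 := mul_nonpos_of_nonpos_of_nonneg hcon (by linarith)
    have : 0 ≤ N.a * A.S2 := mul_nonneg (by linarith) hS20
    linarith
  have hpt : ∀ w ∈ vseg (Real.log r) (-(β * r) + N.qL * hh b + β / 2) (-(β * r) + N.qR * hh b + β / 2),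
      ∃ z ∈ Icc N.qL N.qR, w = wz b β r z := by
    intro w hw
    obtain ⟨h1, h2, h3⟩ := hw
    refine ⟨(w.im + β * r - β / 2) / hh b, ⟨?_, ?_⟩, (wz_of hb h1).symm⟩
    · rw [le_div_iff₀ hh0]; linarith
    · rw [div_le_iff₀ hh0]; linarith
  refine ⟨fun k => differentiable_XW hβ b _ _ k, a1, mul_pos hμ hc, ?_, ?_, ?_, ?_, ?_, ?_⟩
  · intro w hw
    obtain ⟨z, hz, rfl⟩ := hpt w hw
    have hn0 := H.h0lo z ⟨hz.1, by linarith [hz.2]⟩
    intro h0
    rw [h0, norm_zero] at hn0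
    have : 0 < N.c0 * Real.exp (-(TT b β r * en b (β * r) z)) * GN β r := by positivity
    linarith
  · intro w hw hA k hk
    obtain ⟨z, hz, rfl⟩ := hpt w hw
    exact (inner hb hβ H O hz hA hk).1
  · intro w hw hA k hk
    obtain ⟨z, hz, rfl⟩ := hpt w hw
    exact (inner hb hβ H O hz hA hk).2
  · intro w hw hA
    obtain ⟨z, hz, rfl⟩ := hpt w hw
    have conv : ∀ {x y : ℝ}, hh b / TT b β r * x ≤ y → x ≤ TT b β r / hh b * y := by
      intro x y h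
      have h1 := mul_le_mul_of_nonneg_left h hc.le
      have e : TT b β r / hh b * (hh b / TT b β r * x) = x := by field_simp
      rwa [e] at h1
    have h0 := conv (H.s0 z hz)
    have h1 := conv (H.s1 z hz)
    have hm := mul_le_mul_of_nonneg_left (H.mu z hz) hc.le
    rw [← slope_eq hb hβ hr z] at hm
    obtain ⟨S0, hS0⟩ : ∃ S, S = deriv (Xw b β aw n 0) (wz b β r z) / Xw b β aw n 0 (wz b β r z) := ⟨_, rfl⟩
    obtain ⟨S1, hS1⟩ : ∃ S, S = deriv (Xw b β aw n 1) (wz b β r z) / Xw b β aw n 1 (wz b β r z) := ⟨_, rfl⟩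
    rw [← hS0] at h0 ⊢
    rw [← hS1] at h1 ⊢
    have a0 := (Complex.abs_im_le_norm (S0 - sig (β * r) (tk b β r 0 z) / β)).trans h0
    have a1 := (Complex.abs_im_le_norm (S1 - sig (β * r) (tk b β r 1 z) / β)).trans h1
    rw [abs_le] at a0 a1
    simp only [Complex.sub_im] at a0 a1 hm ⊢
    have e : (N.μ - N.δ0 - N.δ1) * (TT b β r / hh b) = TT b β r / hh b * N.μ - TT b β r / hh b * N.δ0 -
        TT b β r / hh b * N.δ1 := by ring
    rw [e]
    linarith [a0.2, a1.1]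
  · exact lt_of_le_of_lt hS1 hS1'
  · have e : ∑ k ∈ sw b aw n, (fun k => TT b β r / hh b * Qk N A k) k * N.a ^ k.natAbs =
        TT b β r / hh b * ∑ k ∈ sw b aw n, Qk N A k * N.a ^ k.natAbs := by
      rw [Finset.mul_sum]
      apply Finset.sum_congr rfl
      intro k _
      ring
    rw [e]
    have h1 : N.a * ∑ k ∈ sw b aw n, Qk N A k * N.a ^ k.natAbs <
        (N.μ - N.δ0 - N.δ1) * (1 - ∑ k ∈ sw b aw n, (k.natAbs : ℝ) * Mk N A k * N.a ^ (k.natAbs + 1)) := by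
      have h2 := mul_le_mul_of_nonneg_left hS2 (by linarith : 0 ≤ N.a)
      have h3 : (N.μ - N.δ0 - N.δ1) * (1 - A.S1) ≤
          (N.μ - N.δ0 - N.δ1) * (1 - ∑ k ∈ sw b aw n, (k.natAbs : ℝ) * Mk N A k * N.a ^ (k.natAbs + 1)) :=
        mul_le_mul_of_nonneg_left (by linarith) hμ.le
      linarith
    have h2 := mul_lt_mul_of_pos_left h1 hc
    linarith

/-- **the class theorem** -/
theorem close {p : ℤ} (hb : 1 ≤ b) (hp : IsCoprime (b : ℤ) p) (hβ : 0 < β) (hr : 0 < r) (hn : 1 ≤ n)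
    (ha : aw ≤ 0) (ha1 : 1 < aw + n * b + b) (H : Hyp b β r aw n N) (O : Ok N A) :
    Circ (2 * Real.pi * p / b + β) r := by
  obtain ⟨T0, a1, a5, o1, o2, o3, o4, o5⟩ := O.ord
  obtain ⟨u0, l1, c0, c1, K2, K3, Km, Km2, Kr⟩ := O.pos
  have hb0 : 0 < b := by omega
  have hh0 := hhp0 hb0
  obtain ⟨u', p', hup⟩ := hp
  have hp' : (b : ℤ) ∣ p * p' - 1 := ⟨-u', by linarith⟩
  have hq : ‖ee (p / b) * Complex.exp (β * I)‖ ≤ 1 := by
    rw [norm_mul, norm_ee, Complex.norm_exp_ofReal_mul_I, one_mul]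
  have hFa : Fa (2 * Real.pi * p / b + β) = F (ee (p / b) * Complex.exp (β * I)) := by
    funext z
    unfold Fa ee
    rw [← Complex.exp_add]
    congr 2
    push_cast
    ring
  have hF : ∀ w j, F (ee (p / b) * Complex.exp (β * I)) (pt p b w j) =
      cc p b 0 * tot p p' b (Xw b β aw n) (sw b aw n) w j :=
    fun w j => F_windows hb0 hp' hβ hn ha ha1 w j
  have hto : ∀ w ∈ vseg (Real.log r) (-(β * r) + (-1) * hh b + β / 2)
      (-(β * r) + (-1) * hh b + β / 2 + 2 * Real.pi / b), ∃ z ∈ Icc (-1 : ℝ) 0, w = wz b β r z := by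
    intro w hw
    obtain ⟨h1, h2, h3⟩ := hw
    have e : 2 * Real.pi / b = hh b := rfl
    rw [e] at h3
    refine ⟨(w.im + β * r - β / 2) / hh b, ⟨?_, ?_⟩, (wz_of hb0 h1).symm⟩
    · rw [le_div_iff₀ hh0]; linarith
    · rw [div_le_iff₀ hh0]; linarith
  have him : ∀ z : ℝ, (wz b β r z).im = -(β * r) + z * hh b + β / 2 := by
    intro z; unfold wz; simp
  have hre : ∀ z : ℝ, (wz b β r z).re = Real.log r := by
    intro z; unfold wz; simp
  have key := valley_uniqueL hb0 hp' hq (cc_zero_ne hb0 hp') hF (θ0 := -(β * r) + (-1) * hh b + β / 2)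
    (η := A.η) (by nlinarith) (twoTermL hb0 hβ hr H O) O.hη ?_ ?_
  · rw [Real.exp_log hr] at key
    unfold Circ
    rw [hFa]
    exact ⟨fun z hz hzr => key.1 z hzr hz, fun z w hz hw hzr hwr => key.2 z w hzr hwr hz hw⟩
  · -- `hin`
    intro w hw
    have hG := GN_pos β r
    obtain ⟨z, hz, rfl⟩ : ∃ z ∈ Icc N.qL N.qR, w = wz b β r z := by
      obtain ⟨h1, h2, h3⟩ := hw
      refine ⟨(w.im + β * r - β / 2) / hh b, ⟨?_, ?_⟩, (wz_of hb0 h1).symm⟩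
      · rw [le_div_iff₀ hh0]; linarith
      · rw [div_le_iff₀ hh0]; linarith
    have hz01 : z ∈ Icc (-1 : ℝ) 0 := ⟨by linarith [hz.1], by linarith [hz.2]⟩
    have h1 := far_le H O hz01
    refine h1.trans ?_
    obtain ⟨w2, w3, wm, wm2⟩ := inner_bounds hb0 H O hz
    have hn1 := H.h1lo z ⟨hz01.1, hz.2⟩
    have hn0 := H.h0lo z ⟨hz.1, hz01.2⟩
    obtain ⟨m, hm⟩ : ∃ m, m = max ‖Xw b β aw n 0 (wz b β r z)‖ ‖Xw b β aw n 1 (wz b β r z)‖ := ⟨_, rfl⟩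
    rw [← hm]
    have hm1 := le_max_right ‖Xw b β aw n 0 (wz b β r z)‖ ‖Xw b β aw n 1 (wz b β r z)‖
    have hm0 := le_max_left ‖Xw b β aw n 0 (wz b β r z)‖ ‖Xw b β aw n 1 (wz b β r z)‖
    rw [← hm] at hm1 hm0
    obtain ⟨x1, hx1⟩ : ∃ x, x = Real.exp (-(TT b β r * en b (β * r) (z + 1))) * GN β r := ⟨_, rfl⟩
    obtain ⟨x0, hx0⟩ : ∃ x, x = Real.exp (-(TT b β r * en b (β * r) z)) * GN β r := ⟨_, rfl⟩
    have g1 : N.l1 * x1 ≤ m := by rw [hx1]; linarith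
    have g0 : N.c0 * x0 ≤ m := by rw [hx0]; linarith
    have t1 : x1 ≤ m / N.l1 := by rw [le_div_iff₀ l1]; linarith
    have t0 : x0 ≤ m / N.c0 := by rw [le_div_iff₀ c0]; linarith
    have v2 := mul_le_mul_of_nonneg_right w2 hG.le
    have v3 := mul_le_mul_of_nonneg_right w3 hG.le
    have vm := mul_le_mul_of_nonneg_right wm hG.le
    have vm2 := mul_le_mul_of_nonneg_right wm2 hG.le
    rw [mul_assoc, ← hx1] at v2
    rw [mul_assoc, ← hx1] at v3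
    rw [mul_assoc, ← hx0] at vm
    rw [mul_assoc, ← hx0] at vm2
    obtain ⟨q0, q6, qm, S0, Sm0, Sr0⟩ := O.pos2
    have hX2 : 0 ≤ A.X2 := O.X2.1.nonneg
    have hXm : 0 ≤ A.Xm := O.Xm.1.nonneg
    have hY1 : 0 ≤ A.Y1 := O.Y1.nonneg
    have hY0 : 0 ≤ A.Y0 := O.Y0.nonneg
    have hρ0 : 0 ≤ A.ρ := O.ρ.nonneg
    have hρm0 : 0 ≤ A.ρm := O.ρm.nonneg
    obtain ⟨P, hP⟩ : ∃ P, P = N.K2 * (A.X2 + N.τ * A.Y1) + 5 / 4 * (N.K3 * (A.X2 * A.ρ + N.τ * A.Y1)) := ⟨_, rfl⟩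
    obtain ⟨Q, hQ⟩ : ∃ Q, Q = N.Km * (A.Xm + N.τm * A.Y0) + 5 / 4 * (N.Km2 * (A.Xm * A.ρm + N.τm * A.Y0)) := ⟨_, rfl⟩
    have hP0 : 0 ≤ P := by rw [hP]; positivity
    have hQ0 : 0 ≤ Q := by rw [hQ]; positivity
    have hm0' : 0 ≤ m := (norm_nonneg _).trans hm0
    have b2 := mul_le_mul_of_nonneg_left v2 K2
    have b3 := mul_le_mul_of_nonneg_left v3 K3
    have bm := mul_le_mul_of_nonneg_left vm Km
    have bm2 := mul_le_mul_of_nonneg_left vm2 Km2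
    have h5 : N.FS (TT b β r) z * GN β r ≤ P * x1 + Q * x0 := by
      unfold Num.FS
      rw [hP, hQ]
      linarith
    have h6 := mul_le_mul_of_nonneg_left t1 hP0
    have h7 := mul_le_mul_of_nonneg_left t0 hQ0
    have h8 := mul_le_mul_of_nonneg_right O.r3 hm0'
    rw [← hP, ← hQ] at h8
    have e : (P / N.l1 + Q / N.c0) * m = P * (m / N.l1) + Q * (m / N.c0) := by ring
    linarith
  · intro w hw hnot
    obtain ⟨z, hz, rfl⟩ := hto w hw
    apply hout hb0 H O hz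
    by_contra hcon
    push Not at hcon
    apply hnot
    refine ⟨hre z, ?_, ?_⟩
    · rw [him]
      have := mul_le_mul_of_nonneg_right hcon.1 hh0.le
      linarith
    · rw [him]
      have := mul_le_mul_of_nonneg_right hcon.2 hh0.le
      linarith

end Sok.R2
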