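import Pool.Agent.Lib.MP_816dec_an.R2Defs

/-!
MP_816dec_an (row R2): lemmas for the class theorem (convexity of `ev`, sums over the far windows).
-/

set_option autoImplicit false

open Complex Set Filter Topology

namespace Sok.R2

theorem ev_convex {κ : ℝ} (hκ : 1 ≤ κ) : ConvexOn ℝ (Iio (κ + Real.pi / 2)) (ev κ) := by
  apply MonotoneOn.convexOn_of_deriv (convex_Iio _)
  · intro τ hτ
    exact (hasDerivAt_ev hκ hτ).continuousAt.continuousWithinAt
  · rw [interior_Iio]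
    intro τ hτ
    exact (hasDerivAt_ev hκ hτ).differentiableAt.differentiableWithinAt
  · rw [interior_Iio]
    intro s hs t ht hst
    rw [(hasDerivAt_ev hκ hs).deriv, (hasDerivAt_ev hκ ht).deriv]
    unfold yv
    have h0 : (0 : ℝ) < κ := by linarith
    have h1 := sy_mono hκ (by linarith [mem_Iio.1 ht] : t - κ < Real.pi / 2) (by linarith : s - κ ≤ t - κ)
    gcongr

theorem hhp0 {b : ℕ} (hb : 0 < b) : 0 < hh b := by
  unfold hh
  have : (0 : ℝ) < b := by exact_mod_cast hb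
  have := Real.pi_pos
  positivity

theorem en_convex {b : ℕ} {κ : ℝ} (hb : 0 < b) (hκ : 1 ≤ κ) :
    ConvexOn ℝ {z : ℝ | z * hh b < κ + Real.pi / 2} (en b κ) := by
  have hh0 := hhp0 hb
  have h1 := ev_convex hκ
  constructor
  · intro x hx y hy s t hs ht hst
    simp only [mem_ofPred_eq, smul_eq_mul] at *
    have := h1.1 (x := x * hh b) hx (y := y * hh b) hy hs ht hst
    simp only [smul_eq_mul, mem_Iio] at this
    calc (s * x + t * y) * hh b = s * (x * hh b) + t * (y * hh b) := by ring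
      _ < _ := this
  · intro x hx y hy s t hs ht hst
    simp only [mem_ofPred_eq, smul_eq_mul] at *
    have h2 := h1.2 (x := x * hh b) hx (y := y * hh b) hy hs ht hst
    simp only [smul_eq_mul] at h2
    unfold en
    have e : (s * x + t * y) * hh b = s * (x * hh b) + t * (y * hh b) := by ring
    rw [e]
    have h3 : 0 < hh b ^ 2 := by positivity
    rw [div_le_iff₀ h3]
    have e2 : (s * (ev κ (x * hh b) / hh b ^ 2) + t * (ev κ (y * hh b) / hh b ^ 2)) * hh b ^ 2 =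
        s * ev κ (x * hh b) + t * ev κ (y * hh b) := by
      field_simp
    rw [e2]
    exact h2

theorem en_zero {b : ℕ} {κ : ℝ} (hκ : 1 ≤ κ) : en b κ 0 = 0 := by
  unfold en
  rw [zero_mul, ev_zero hκ, zero_div]

theorem ev_nonneg {κ τ : ℝ} (hκ : 1 ≤ κ) (hτ : τ < κ + Real.pi / 2) : 0 ≤ ev κ τ := by
  have hpi := Real.pi_pos
  have hc := ev_convex hκ
  have h0 : (0 : ℝ) ∈ Iio (κ + Real.pi / 2) := by simp only [mem_Iio]; linarith
  have hd := hasDerivAt_ev hκ (show (0 : ℝ) < κ + Real.pi / 2 by linarith)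
  rw [yv_zero hκ] at hd
  rcases lt_trichotomy τ 0 with h | h | h
  · have h1 := hc.slope_le_of_hasDerivAt (x := τ) (y := 0) hτ h0 h hd
    rw [slope_def_field, ev_zero hκ, div_le_iff₀ (by linarith)] at h1
    linarith
  · rw [h, ev_zero hκ]
  · have h1 := hc.le_slope_of_hasDerivAt (x := 0) (y := τ) h0 hτ h hd
    rw [slope_def_field, ev_zero hκ, le_div_iff₀ (by linarith)] at h1
    linarith

theorem en_nonneg {b : ℕ} {κ z : ℝ} (hκ : 1 ≤ κ) (hz : z * hh b < κ + Real.pi / 2) : 0 ≤ en b κ z := by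
  unfold en
  exact div_nonneg (ev_nonneg hκ hz) (sq_nonneg _)

/-- decreasing on the left -/
theorem en_anti {b : ℕ} {κ x y : ℝ} (hb : 0 < b) (hκ : 1 ≤ κ) (hxy : x ≤ y) (hy : y ≤ 0) :
    en b κ y ≤ en b κ x := by
  have hh0 := hhp0 hb
  have hpi := Real.pi_pos
  rcases eq_or_lt_of_le hxy with h | h
  · rw [h]
  have hx0 : x < 0 := by linarith
  have hc := en_convex hb hκ
  have mx : x * hh b < κ + Real.pi / 2 := by nlinarith
  have m0 : (0 : ℝ) * hh b < κ + Real.pi / 2 := by nlinarith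
  have h2 := hc.2 (x := x) mx (y := 0) m0 (show 0 ≤ y / x from div_nonneg_of_nonpos hy hx0.le)
    (show 0 ≤ 1 - y / x by
      have : y / x ≤ 1 := by rw [div_le_iff_of_neg hx0]; linarith
      linarith) (by ring)
  simp only [smul_eq_mul, mul_zero, add_zero, en_zero hκ] at h2
  have e : y / x * x = y := div_mul_cancel₀ y hx0.ne
  rw [e] at h2
  have h3 := en_nonneg (b := b) hκ mx
  have h4 : y / x ≤ 1 := by rw [div_le_iff_of_neg hx0]; linarith
  nlinarith

/-- increasing on the right -/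
theorem en_mono {b : ℕ} {κ x y : ℝ} (hb : 0 < b) (hκ : 1 ≤ κ) (hx : 0 ≤ x) (hxy : x ≤ y)
    (hy : y * hh b < κ + Real.pi / 2) : en b κ x ≤ en b κ y := by
  have hh0 := hhp0 hb
  have hpi := Real.pi_pos
  rcases eq_or_lt_of_le (hx.trans hxy) with h | h
  · have : x = y := by linarith
    rw [this]
  have hc := en_convex hb hκ
  have m0 : (0 : ℝ) * hh b < κ + Real.pi / 2 := by nlinarith
  have h2 := hc.2 (x := y) hy (y := 0) m0 (show 0 ≤ x / y from div_nonneg hx h.le)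
    (show 0 ≤ 1 - x / y by
      have : x / y ≤ 1 := by rw [div_le_iff₀ h]; linarith
      linarith) (by ring)
  simp only [smul_eq_mul, mul_zero, add_zero, en_zero hκ] at h2
  have e : x / y * y = x := div_mul_cancel₀ x h.ne'
  rw [e] at h2
  have h3 := en_nonneg (b := b) hκ hy
  have h4 : x / y ≤ 1 := by rw [div_le_iff₀ h]; linarith
  nlinarith

/-- an affine function minus a convex function is bounded below by the values at the ends -/
theorem conc_ge {f : ℝ → ℝ} {s : Set ℝ} (hf : ConvexOn ℝ s f) {x y z A B g : ℝ} (hx : x ∈ s) (hy : y ∈ s)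
    (h1 : x ≤ z) (h2 : z ≤ y) (gx : g ≤ A + B * x - f x) (gy : g ≤ A + B * y - f y) : g ≤ A + B * z - f z := by
  rcases eq_or_lt_of_le (h1.trans h2) with h | h
  · have : z = x := by linarith
    rw [this]; exact gx
  have hd : 0 < y - x := by linarith
  have h3 := hf.2 hx hy (show 0 ≤ (y - z) / (y - x) from div_nonneg (by linarith) hd.le)
    (show 0 ≤ (z - x) / (y - x) from div_nonneg (by linarith) hd.le) (by field_simp; ring)
  simp only [smul_eq_mul] at h3
  have e : (y - z) / (y - x) * x + (z - x) / (y - x) * y = z := by field_simp; ring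
  rw [e] at h3
  obtain ⟨s', hs'⟩ : ∃ s', s' = (y - z) / (y - x) := ⟨_, rfl⟩
  obtain ⟨t', ht'⟩ : ∃ t', t' = (z - x) / (y - x) := ⟨_, rfl⟩
  have hs0 : 0 ≤ s' := by rw [hs']; exact div_nonneg (by linarith) hd.le
  have ht0 : 0 ≤ t' := by rw [ht']; exact div_nonneg (by linarith) hd.le
  have hst : s' + t' = 1 := by rw [hs', ht']; field_simp; ring
  rw [← hs', ← ht'] at h3 e
  have h5 := mul_le_mul_of_nonneg_left gx hs0
  have h6 := mul_le_mul_of_nonneg_left gy ht0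
  have e7 : s' * (A + B * x - f x) + t' * (A + B * y - f y) = A + B * z - (s' * f x + t' * f y) := by
    calc s' * (A + B * x - f x) + t' * (A + B * y - f y) =
        (s' + t') * A + B * (s' * x + t' * y) - (s' * f x + t' * f y) := by ring
      _ = _ := by rw [hst, e]; ring
  have e8 : s' * g + t' * g = g := by rw [← add_mul, hst, one_mul]
  linarith

theorem EB.le {T0 T g G X : ℝ} (h : EB T0 g X) (hT0 : 0 ≤ T0) (hT : T0 ≤ T) (hg : g ≤ G) :
    Real.exp (-(T * G)) ≤ X := by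
  refine le_trans (Real.exp_le_exp.2 ?_) h.2
  have h1 : T0 * g ≤ T0 * G := mul_le_mul_of_nonneg_left hg hT0
  have h2 : T0 * G ≤ T * G := mul_le_mul_of_nonneg_right hT (h.1.trans hg)
  linarith

theorem EB.nonneg {T0 g X : ℝ} (h : EB T0 g X) : 0 ≤ X := (Real.exp_pos _).le.trans h.2

/-! ### sums -/

theorem geo0 {x : ℝ} (h0 : 0 ≤ x) (h1 : x < 1) (n : ℕ) : ∑ i ∈ Finset.range n, x ^ i ≤ 1 / (1 - x) := by
  rw [one_div]
  exact sum_le_hasSum _ (fun i _ => pow_nonneg h0 i) (hasSum_geometric_of_lt_one h0 h1)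

theorem geo1 {x : ℝ} (h0 : 0 ≤ x) (h1 : x < 1) (n : ℕ) :
    ∑ i ∈ Finset.range n, (i : ℝ) * x ^ i ≤ x / (1 - x) ^ 2 := by
  have h : HasSum (fun i : ℕ => (i : ℝ) * x ^ i) (x / (1 - x) ^ 2) :=
    hasSum_coe_mul_geometric_of_norm_lt_one (by rwa [Real.norm_eq_abs, abs_of_nonneg h0])
  exact sum_le_hasSum _ (fun i _ => mul_nonneg (Nat.cast_nonneg i) (pow_nonneg h0 i)) h

theorem geo2 {x A B : ℝ} (h0 : 0 ≤ x) (h1 : x < 1) (hA : 0 ≤ A) (hB : 0 ≤ B) (n : ℕ) :
    ∑ i ∈ Finset.range n, (A + i * B) * x ^ i ≤ A / (1 - x) + B * x / (1 - x) ^ 2 := by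
  have e : ∑ i ∈ Finset.range n, (A + i * B) * x ^ i =
      A * ∑ i ∈ Finset.range n, x ^ i + B * ∑ i ∈ Finset.range n, (i : ℝ) * x ^ i := by
    rw [Finset.mul_sum, Finset.mul_sum, ← Finset.sum_add_distrib]
    apply Finset.sum_congr rfl
    intro i _
    ring
  rw [e]
  have h2 := mul_le_mul_of_nonneg_left (geo0 h0 h1 n) hA
  have h3 := mul_le_mul_of_nonneg_left (geo1 h0 h1 n) hB
  have e1 : A / (1 - x) = A * (1 / (1 - x)) := by ring
  have e2 : B * x / (1 - x) ^ 2 = B * (x / (1 - x) ^ 2) := by ring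
  rw [e1, e2]
  linarith

theorem mem_cases {b : ℕ} {aw : ℤ} {n : ℕ} {k : ℤ} (hk : k ∈ sw b aw n) :
    k = 2 ∨ k = -1 ∨ (∃ i : ℕ, k = 3 + i ∧ (i : ℤ) < |aw| + n * b + b) ∨
      (∃ i : ℕ, k = -2 - i ∧ (i : ℤ) < |aw| + n * b + b) := by
  unfold sw at hk
  rw [Finset.mem_erase, Finset.mem_erase, Finset.mem_Ico] at hk
  obtain ⟨h1, h0, h2, h3⟩ := hk
  have hnb : (0 : ℤ) ≤ n * b := by positivity
  have ha1 := neg_abs_le aw
  have ha2 := le_abs_self aw
  rcases lt_or_ge k 2 with h | h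
  · rcases lt_or_ge k (-1) with h' | h'
    · right; right; right
      exact ⟨(-2 - k).toNat, by omega, by omega⟩
    · right; left; omega
  · rcases eq_or_lt_of_le h with h' | h'
    · left; omega
    · right; right; left
      exact ⟨(k - 3).toNat, by omega, by omega⟩

/-- sums over the far windows -/
theorem sum_far {b : ℕ} {aw : ℤ} {n : ℕ} {F : ℤ → ℝ} {x A2 A3 A4 Bm B2 B3 : ℝ} (hx : 0 ≤ x) (hx1 : x < 1)
    (pA2 : 0 ≤ A2) (pA3 : 0 ≤ A3) (pA4 : 0 ≤ A4) (pBm : 0 ≤ Bm) (pB2 : 0 ≤ B2) (pB3 : 0 ≤ B3)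
    (h2 : (2 : ℤ) ∈ sw b aw n → F 2 ≤ A2)
    (h3 : ∀ i : ℕ, (3 + i : ℤ) ∈ sw b aw n → F (3 + i) ≤ (A3 + i * A4) * x ^ i)
    (hm : (-1 : ℤ) ∈ sw b aw n → F (-1) ≤ Bm)
    (hm2 : ∀ i : ℕ, (-2 - i : ℤ) ∈ sw b aw n → F (-2 - i) ≤ (B2 + i * B3) * x ^ i) :
    ∑ k ∈ sw b aw n, F k ≤ A2 + (A3 / (1 - x) + A4 * x / (1 - x) ^ 2) + Bm +
      (B2 / (1 - x) + B3 * x / (1 - x) ^ 2) := by
  obtain ⟨M, hM⟩ : ∃ M : ℕ, M = (|aw| + n * b + b).toNat := ⟨_, rfl⟩
  obtain ⟨g, hg⟩ : ∃ g : ℤ → ℝ, g = fun k => if k = 2 then A2 else if k = -1 then Bm else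
      if 3 ≤ k then (A3 + ((k - 3).toNat : ℝ) * A4) * x ^ (k - 3).toNat else
        (B2 + ((-2 - k).toNat : ℝ) * B3) * x ^ (-2 - k).toNat := ⟨_, rfl⟩
  have g2 : g 2 = A2 := by rw [hg]; simp
  have gm : g (-1) = Bm := by rw [hg]; simp
  have g3 : ∀ i : ℕ, g (3 + i) = (A3 + i * A4) * x ^ i := by
    intro i
    rw [hg]
    simp only
    rw [if_neg (by omega), if_neg (by omega), if_pos (by omega)]
    have e : (3 + (i : ℤ) - 3).toNat = i := by omega
    rw [e]
  have gm2 : ∀ i : ℕ, g (-2 - i) = (B2 + i * B3) * x ^ i := by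
    intro i
    rw [hg]
    simp only
    rw [if_neg (by omega), if_neg (by omega), if_neg (by omega)]
    have e : (-2 - (-2 - (i : ℤ))).toNat = i := by omega
    rw [e]
  have gn : ∀ k, 0 ≤ g k := by
    intro k
    rw [hg]
    simp only
    split_ifs <;> positivity
  have h4 : ∑ k ∈ sw b aw n, F k ≤ ∑ k ∈ sw b aw n, g k := by
    apply Finset.sum_le_sum
    intro k hk
    rcases mem_cases hk with h | h | ⟨i, h, _⟩ | ⟨i, h, _⟩
    · rw [h] at hk ⊢; rw [g2]; exact h2 hk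
    · rw [h] at hk ⊢; rw [gm]; exact hm hk
    · rw [h] at hk ⊢; rw [g3]; exact h3 i hk
    · rw [h] at hk ⊢; rw [gm2]; exact hm2 i hk
  obtain ⟨P, hP⟩ : ∃ P : Finset ℤ, P = (Finset.range M).image (fun i : ℕ => (3 : ℤ) + i) := ⟨_, rfl⟩
  obtain ⟨Q, hQ⟩ : ∃ Q : Finset ℤ, Q = (Finset.range M).image (fun i : ℕ => (-2 : ℤ) - i) := ⟨_, rfl⟩
  have hsub : sw b aw n ⊆ {2, -1} ∪ (P ∪ Q) := by
    intro k hk
    simp only [Finset.mem_union, Finset.mem_insert, Finset.mem_singleton, hP, hQ, Finset.mem_image, Finset.mem_range]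
    rcases mem_cases hk with h | h | ⟨i, h, hi⟩ | ⟨i, h, hi⟩
    · left; left; exact h
    · left; right; exact h
    · right; left; exact ⟨i, by omega, h.symm⟩
    · right; right; exact ⟨i, by omega, h.symm⟩
  have d1 : Disjoint P Q := by
    rw [Finset.disjoint_left]
    intro k h1 h2
    rw [hP, Finset.mem_image] at h1
    rw [hQ, Finset.mem_image] at h2
    obtain ⟨i, _, hi⟩ := h1
    obtain ⟨i', _, hi'⟩ := h2
    omega
  have d2 : Disjoint ({2, -1} : Finset ℤ) (P ∪ Q) := by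
    rw [Finset.disjoint_left]
    intro k h1 h2
    simp only [Finset.mem_insert, Finset.mem_singleton] at h1
    simp only [Finset.mem_union, hP, hQ, Finset.mem_image] at h2
    rcases h2 with ⟨i, _, hi⟩ | ⟨i, _, hi⟩ <;> omega
  have h5 : ∑ k ∈ sw b aw n, g k ≤ ∑ k ∈ {2, -1} ∪ (P ∪ Q), g k :=
    Finset.sum_le_sum_of_subset_of_nonneg hsub (fun k _ _ => gn k)
  rw [Finset.sum_union d2, Finset.sum_union d1, Finset.sum_pair (by norm_num), hP, hQ,
    Finset.sum_image (by intro x _ y _ h; simpa using h),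
    Finset.sum_image (by intro x _ y _ h; simpa using h), g2, gm,
    Finset.sum_congr rfl (fun i _ => g3 i), Finset.sum_congr rfl (fun i _ => gm2 i)] at h5
  have h6 := geo2 hx hx1 pA3 pA4 M
  have h7 := geo2 hx hx1 pB2 pB3 M
  linarith

end Sok.R2
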