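import Pool.Agent.Lib.MP_816dec_an.R2Close1

/-!
MP_816dec_an (row R2): the far windows are dominated outside the inner segment.
-/

set_option autoImplicit false

open Complex Set Filter Topology

namespace Sok.R2

/-- total weight of the far windows -/
noncomputable def Num.FS (N : Num) (T z : ℝ) : ℝ :=
  N.K2 * N.W2 T z + 5 / 4 * (N.K3 * N.W3 T z) + N.Km * N.Wm T z + 5 / 4 * (N.Km2 * N.Wm2 T z)

theorem fs_bound {N : Num} {T z E x2 y xm ρ ρm t : ℝ} (K2 : 0 ≤ N.K2) (K3 : 0 ≤ N.K3) (Km : 0 ≤ N.Km)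
    (Km2 : 0 ≤ N.Km2) (ht : (if z ≤ N.qR then N.τ else N.τ6) ≤ t) (t0 : 0 ≤ t) (tm : 0 ≤ N.τm)
    (h2 : Real.exp (-(T * (N.S * (2 + z) - N.C - E))) ≤ x2) (hy : Real.exp (-(T * (1 / 2 - E))) ≤ y)
    (hm : Real.exp (-(T * (N.Sm * (1 - z) - N.Cm - E))) ≤ xm) (hρ : Real.exp (-(T * N.S)) ≤ ρ)
    (hρm : Real.exp (-(T * N.Sm)) ≤ ρm) :
    N.FS T z ≤ (N.K2 * (x2 + t * y) + 5 / 4 * (N.K3 * (x2 * ρ + t * y)) + N.Km * (xm + N.τm * y) +
      5 / 4 * (N.Km2 * (xm * ρm + N.τm * y))) * Real.exp (-(T * E)) := by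
  have hE : 0 < Real.exp (-(T * E)) := Real.exp_pos _
  have e1 : Real.exp (-(T * (N.S * (2 + z) - N.C))) =
      Real.exp (-(T * (N.S * (2 + z) - N.C - E))) * Real.exp (-(T * E)) := by
    rw [← Real.exp_add]; congr 1; ring
  have e2 : Real.exp (-(T / 2)) = Real.exp (-(T * (1 / 2 - E))) * Real.exp (-(T * E)) := by
    rw [← Real.exp_add]; congr 1; ring
  have e3 : Real.exp (-(T * (N.S * (3 + z) - N.C))) =
      Real.exp (-(T * (N.S * (2 + z) - N.C - E))) * Real.exp (-(T * N.S)) * Real.exp (-(T * E)) := by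
    rw [← Real.exp_add, ← Real.exp_add]; congr 1; ring
  have e4 : Real.exp (-(T * (N.Sm * (1 - z) - N.Cm))) =
      Real.exp (-(T * (N.Sm * (1 - z) - N.Cm - E))) * Real.exp (-(T * E)) := by
    rw [← Real.exp_add]; congr 1; ring
  have e5 : Real.exp (-(T * (N.Sm * (2 - z) - N.Cm))) =
      Real.exp (-(T * (N.Sm * (1 - z) - N.Cm - E))) * Real.exp (-(T * N.Sm)) * Real.exp (-(T * E)) := by
    rw [← Real.exp_add, ← Real.exp_add]; congr 1; ring
  have x20 : 0 ≤ x2 := (Real.exp_pos _).le.trans h2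
  have xm0 : 0 ≤ xm := (Real.exp_pos _).le.trans hm
  have y0 : 0 ≤ y := (Real.exp_pos _).le.trans hy
  have w2 : N.W2 T z ≤ (x2 + t * y) * Real.exp (-(T * E)) := by
    unfold Num.W2
    rw [e1, e2, add_mul]
    have a1 := mul_le_mul_of_nonneg_right h2 hE.le
    have a2 : (if z ≤ N.qR then N.τ else N.τ6) * (Real.exp (-(T * (1 / 2 - E))) * Real.exp (-(T * E))) ≤
        t * (y * Real.exp (-(T * E))) := by
      refine mul_le_mul ht (mul_le_mul_of_nonneg_right hy hE.le) (by positivity) t0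
    linarith
  have w3 : N.W3 T z ≤ (x2 * ρ + t * y) * Real.exp (-(T * E)) := by
    unfold Num.W3
    rw [e3, e2, add_mul]
    have a1 : Real.exp (-(T * (N.S * (2 + z) - N.C - E))) * Real.exp (-(T * N.S)) * Real.exp (-(T * E)) ≤
        x2 * ρ * Real.exp (-(T * E)) :=
      mul_le_mul_of_nonneg_right (mul_le_mul h2 hρ (Real.exp_pos _).le x20) hE.le
    have a2 : (if z ≤ N.qR then N.τ else N.τ6) * (Real.exp (-(T * (1 / 2 - E))) * Real.exp (-(T * E))) ≤
        t * (y * Real.exp (-(T * E))) := by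
      refine mul_le_mul ht (mul_le_mul_of_nonneg_right hy hE.le) (by positivity) t0
    linarith
  have wm : N.Wm T z ≤ (xm + N.τm * y) * Real.exp (-(T * E)) := by
    unfold Num.Wm
    rw [e4, e2, add_mul]
    have a1 := mul_le_mul_of_nonneg_right hm hE.le
    have a2 : N.τm * (Real.exp (-(T * (1 / 2 - E))) * Real.exp (-(T * E))) ≤ N.τm * (y * Real.exp (-(T * E))) :=
      mul_le_mul_of_nonneg_left (mul_le_mul_of_nonneg_right hy hE.le) tm
    linarith
  have wm2 : N.Wm2 T z ≤ (xm * ρm + N.τm * y) * Real.exp (-(T * E)) := by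
    unfold Num.Wm2
    rw [e5, e2, add_mul]
    have a1 : Real.exp (-(T * (N.Sm * (1 - z) - N.Cm - E))) * Real.exp (-(T * N.Sm)) * Real.exp (-(T * E)) ≤
        xm * ρm * Real.exp (-(T * E)) :=
      mul_le_mul_of_nonneg_right (mul_le_mul hm hρm (Real.exp_pos _).le xm0) hE.le
    have a2 : N.τm * (Real.exp (-(T * (1 / 2 - E))) * Real.exp (-(T * E))) ≤ N.τm * (y * Real.exp (-(T * E))) :=
      mul_le_mul_of_nonneg_left (mul_le_mul_of_nonneg_right hy hE.le) tm
    linarith
  unfold Num.FS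
  have b2 := mul_le_mul_of_nonneg_left w2 K2
  have b3 := mul_le_mul_of_nonneg_left w3 K3
  have bm := mul_le_mul_of_nonneg_left wm Km
  have bm2 := mul_le_mul_of_nonneg_left wm2 Km2
  linarith

variable {b : ℕ} {β r : ℝ} {aw : ℤ} {n : ℕ} {N : Num} {A : Aux}

theorem GN_pos (β r : ℝ) : 0 < GN β r := by
  unfold GN
  have : 0 < 1 + (β * r) ^ 2 := by positivity
  positivity

theorem W2_nonneg (O : Ok N A) (T z : ℝ) : 0 ≤ N.W2 T z := by
  obtain ⟨h1, h2, _⟩ := O.pos2
  unfold Num.W2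
  have := Real.exp_pos (-(T * (N.S * (2 + z) - N.C)))
  have := Real.exp_pos (-(T / 2))
  split_ifs
  · positivity
  · have : 0 ≤ N.τ6 := h1.trans h2
    positivity

theorem W3_nonneg (O : Ok N A) (T z : ℝ) : 0 ≤ N.W3 T z := by
  obtain ⟨h1, h2, _⟩ := O.pos2
  unfold Num.W3
  have := Real.exp_pos (-(T * (N.S * (3 + z) - N.C)))
  have := Real.exp_pos (-(T / 2))
  split_ifs
  · positivity
  · have : 0 ≤ N.τ6 := h1.trans h2
    positivity

theorem Wm_nonneg (O : Ok N A) (T z : ℝ) : 0 ≤ N.Wm T z := by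
  obtain ⟨_, _, h3, _⟩ := O.pos2
  unfold Num.Wm
  positivity

theorem Wm2_nonneg (O : Ok N A) (T z : ℝ) : 0 ≤ N.Wm2 T z := by
  obtain ⟨_, _, h3, _⟩ := O.pos2
  unfold Num.Wm2
  positivity

/-- the sum of the far windows -/
theorem far_le (H : Hyp b β r aw n N) (O : Ok N A) {z : ℝ} (hz : z ∈ Icc (-1 : ℝ) 0) :
    ∑ k ∈ sw b aw n, ‖Xw b β aw n k (wz b β r z)‖ ≤ N.FS (TT b β r) z * GN β r := by
  obtain ⟨_, _, _, _, K2, K3, Km, Km2, _⟩ := O.pos
  have hG := GN_pos β r
  have w2 := W2_nonneg O (TT b β r) z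
  have w3 := W3_nonneg O (TT b β r) z
  have wm := Wm_nonneg O (TT b β r) z
  have wm2 := Wm2_nonneg O (TT b β r) z
  have h := sum_far (b := b) (aw := aw) (n := n) (F := fun k => ‖Xw b β aw n k (wz b β r z)‖) (x := 1 / 5)
    (A2 := N.K2 * N.W2 (TT b β r) z * GN β r) (A3 := N.K3 * N.W3 (TT b β r) z * GN β r) (A4 := 0)
    (Bm := N.Km * N.Wm (TT b β r) z * GN β r) (B2 := N.Km2 * N.Wm2 (TT b β r) z * GN β r) (B3 := 0)
    (by norm_num) (by norm_num) (by positivity) (by positivity) le_rfl (by positivity) (by positivity) le_rfl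
    (fun hk => H.h2 hk z hz) (fun i hk => ?_) (fun hk => H.hm hk z hz) (fun i hk => ?_)
  · refine h.trans (le_of_eq ?_)
    unfold Num.FS
    ring
  · have := H.h3 i hk z hz
    linarith
  · have := H.hm2 i hk z hz
    linarith

/-- region lemma: one of the two main windows beats everything else -/
theorem region {N0 N1 Sg E E' G l c f : ℝ} (hG : 0 < G) (T : ℝ) (h1 : l * Real.exp (-(T * E)) * G ≤ N1)
    (h0 : N0 ≤ c * Real.exp (-(T * E')) * G) (hs : Sg ≤ f * Real.exp (-(T * E)) * G)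
    {x : ℝ} (hc : 0 ≤ c) (hx : Real.exp (-(T * (E' - E))) ≤ x) (hnum : c * x + f < l) : N0 + Sg < N1 := by
  have hE : 0 < Real.exp (-(T * E)) := Real.exp_pos _
  have e1 : Real.exp (-(T * E')) = Real.exp (-(T * (E' - E))) * Real.exp (-(T * E)) := by
    rw [← Real.exp_add]; congr 1; ring
  have h2 : N0 ≤ c * x * Real.exp (-(T * E)) * G := by
    refine h0.trans ?_
    rw [e1]
    have := mul_le_mul_of_nonneg_right (mul_le_mul_of_nonneg_right hx hE.le) hG.le
    have := mul_le_mul_of_nonneg_left this hc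
    linarith
  have h3 : (c * x + f) * (Real.exp (-(T * E)) * G) < l * (Real.exp (-(T * E)) * G) :=
    mul_lt_mul_of_pos_right hnum (mul_pos hE hG)
  linarith

theorem abs_gt {x y s : ℝ} (h : x + s < y) : s < |y - x| := lt_of_lt_of_le (by linarith) (le_abs_self _)

/-- outside the inner segment -/
theorem hout (hb : 0 < b) (H : Hyp b β r aw n N) (O : Ok N A) {z : ℝ} (hz : z ∈ Icc (-1 : ℝ) 0)
    (hq : z < N.qL ∨ N.qR < z) :
    ∑ k ∈ sw b aw n, ‖Xw b β aw n k (wz b β r z)‖ <
      |‖Xw b β aw n 1 (wz b β r z)‖ - ‖Xw b β aw n 0 (wz b β r z)‖| := by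
  obtain ⟨T0, a1, a5, o1, o2, o3, o4, o5⟩ := O.ord
  obtain ⟨u0, l1, c0, c1, K2, K3, Km, Km2, Kr⟩ := O.pos
  obtain ⟨t0, t6, tm, S0, Sm0, Sr0⟩ := O.pos2
  have hG := GN_pos β r
  have hT := H.hT
  have hκ := H.hκ
  have hh0 := hhp0 hb
  obtain ⟨z1, z2⟩ := hz
  have hfar := far_le H O ⟨z1, z2⟩
  have hρ := O.ρ.le T0.le hT le_rfl
  have hρm := O.ρm.le T0.le hT le_rfl
  have hcv := en_convex hb hκ
  have hpi := Real.pi_pos
  rcases hq with hq | hq
  · -- window 1 dominates
    have ht : (if z ≤ N.qR then N.τ else N.τ6) ≤ N.τ := by rw [if_pos (by linarith)]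
    have hd1 : ∀ y, y ≤ N.z4 → (y + 1) * hh b < β * r + Real.pi / 2 := by
      intro y hy
      have := H.dom
      nlinarith
    have m1 : ∀ x y, -1 ≤ x → x ≤ y → y ≤ N.z4 → en b (β * r) (x + 1) ≤ en b (β * r) (y + 1) :=
      fun x y hx hxy hy => en_mono hb hκ (by linarith) (by linarith) (hd1 y hy)
    have hc1 : ConvexOn ℝ {y : ℝ | (y + 1) * hh b < β * r + Real.pi / 2} (fun y => en b (β * r) (y + 1)) := by
      have := hcv.translate_right (c := (1 : ℝ))
      refine ⟨?_, ?_⟩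
      · have h := this.1
        have e : (fun z : ℝ => 1 + z) ⁻¹' {z : ℝ | z * hh b < β * r + Real.pi / 2} =
            {y : ℝ | (y + 1) * hh b < β * r + Real.pi / 2} := by
          ext y
          simp only [mem_preimage, mem_ofPred_eq, add_comm]
        rwa [e] at h
      · intro x hx y hy s t hs ht hst
        have h := this.2 (x := x) (by simpa only [mem_preimage, mem_ofPred_eq, add_comm] using hx) (y := y)
          (by simpa only [mem_preimage, mem_ofPred_eq, add_comm] using hy) hs ht hst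
        simpa only [Function.comp, add_comm] using h
    have e0 : en b (β * r) (-1 + 1) = 0 := by rw [neg_add_cancel]; exact en_zero hκ
    rcases le_or_gt z N.z2 with hz2 | hz2
    · -- region 1
      have g2 : N.S * (2 + z) - N.C - en b (β * r) (z + 1) ≥ min (N.S - N.C) (N.S * (2 + N.z2) - N.C - N.e12) := by
        have := conc_ge hc1 (x := -1) (y := N.z2) (z := z) (A := N.S * 2 - N.C) (B := N.S)
          (g := min (N.S - N.C) (N.S * (2 + N.z2) - N.C - N.e12)) (hd1 _ (by linarith)) (hd1 _ (by linarith)) z1 hz2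
          ?_ ?_
        · linarith
        · rw [e0]
          have := min_le_left (N.S - N.C) (N.S * (2 + N.z2) - N.C - N.e12)
          linarith
        · skip
          have := min_le_right (N.S - N.C) (N.S * (2 + N.z2) - N.C - N.e12)
          have := H.e12
          linarith
      have E2 : EB N.T0 (min (N.S - N.C) (N.S * (2 + N.z2) - N.C - N.e12)) A.A2 := by
        rcases min_cases (N.S - N.C) (N.S * (2 + N.z2) - N.C - N.e12) with h | h
        · rw [h.1]; exact O.A2.1
        · rw [h.1]; exact O.A2.2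
      have hE1 : en b (β * r) (z + 1) ≤ N.e12 := (m1 z N.z2 z1 hz2 (by linarith)).trans H.e12
      have hE0 : N.f02 ≤ en b (β * r) z := H.f02.trans (en_anti hb hκ hz2 (by linarith))
      have hf := fs_bound (T := TT b β r) (z := z) (E := en b (β * r) (z + 1)) K2 K3 Km Km2 ht t0 tm
        (E2.le T0.le hT g2) (O.A4.le T0.le hT (by linarith))
        (O.A3.le T0.le hT (by nlinarith)) hρ hρm
      have hx := O.A1.le T0.le hT (show N.f02 - N.e12 ≤ en b (β * r) z - en b (β * r) (z + 1) by linarith)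
      exact abs_gt (region hG _ (H.h1lo z ⟨z1, by linarith⟩) (H.h0hi z ⟨z1, hq.le⟩)
        (hfar.trans (mul_le_mul_of_nonneg_right hf hG.le)) u0.le hx (by linarith [O.r1]))
    · -- region 2
      have g2 : N.S * (2 + z) - N.C - en b (β * r) (z + 1) ≥
          min (N.S * (2 + N.z2) - N.C - N.e12) (N.S * (2 + N.qL) - N.C - N.e1L) := by
        have := conc_ge hc1 (x := N.z2) (y := N.qL) (z := z) (A := N.S * 2 - N.C) (B := N.S)
          (g := min (N.S * (2 + N.z2) - N.C - N.e12) (N.S * (2 + N.qL) - N.C - N.e1L))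
          (hd1 _ (by linarith)) (hd1 _ (by linarith)) hz2.le hq.le ?_ ?_
        · linarith
        · skip
          have := min_le_left (N.S * (2 + N.z2) - N.C - N.e12) (N.S * (2 + N.qL) - N.C - N.e1L)
          have := H.e12
          linarith
        · skip
          have := min_le_right (N.S * (2 + N.z2) - N.C - N.e12) (N.S * (2 + N.qL) - N.C - N.e1L)
          have := H.e1L
          linarith
      have E2 : EB N.T0 (min (N.S * (2 + N.z2) - N.C - N.e12) (N.S * (2 + N.qL) - N.C - N.e1L)) A.B2 := by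
        rcases min_cases (N.S * (2 + N.z2) - N.C - N.e12) (N.S * (2 + N.qL) - N.C - N.e1L) with h | h
        · rw [h.1]; exact O.B2.1
        · rw [h.1]; exact O.B2.2
      have hE1 : en b (β * r) (z + 1) ≤ N.e1L := (m1 z N.qL z1 hq.le (by linarith)).trans H.e1L
      have hE0 : N.f0L ≤ en b (β * r) z := H.f0L.trans (en_anti hb hκ hq.le (by linarith))
      have hf := fs_bound (T := TT b β r) (z := z) (E := en b (β * r) (z + 1)) K2 K3 Km Km2 ht t0 tm
        (E2.le T0.le hT g2) (O.B4.le T0.le hT (by linarith))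
        (O.B3.le T0.le hT (by nlinarith)) hρ hρm
      have hx := O.B1.le T0.le hT (show N.f0L - N.e1L ≤ en b (β * r) z - en b (β * r) (z + 1) by linarith)
      exact abs_gt (region hG _ (H.h1lo z ⟨z1, by linarith⟩) (H.h0hi z ⟨z1, hq.le⟩)
        (hfar.trans (mul_le_mul_of_nonneg_right hf hG.le)) u0.le hx (by linarith [O.r2]))
  · -- window 0 dominates
    have ht : (if z ≤ N.qR then N.τ else N.τ6) ≤ N.τ6 := by split_ifs <;> linarith
    have t60 : 0 ≤ N.τ6 := t0.trans t6
    have hd0 : ∀ y, y ≤ 0 → y ∈ {z : ℝ | z * hh b < β * r + Real.pi / 2} := by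
      intro y hy
      show y * hh b < _
      nlinarith
    have key : ∀ {E : ℝ}, N.c0 * Real.exp (-(TT b β r * en b (β * r) z)) * GN β r ≤ E → E = E := fun _ => rfl
    have h0 := H.h0lo z ⟨by linarith, z2⟩
    rcases le_or_gt z N.z4 with hz4 | hz4
    · -- region 4
      have gm : N.Sm * (1 - z) - N.Cm - en b (β * r) z ≥
          min (N.Sm * (1 - N.qR) - N.Cm - N.e0R) (N.Sm * (1 - N.z4) - N.Cm - N.e04) := by
        have := conc_ge hcv (x := N.qR) (y := N.z4) (z := z) (A := N.Sm - N.Cm) (B := -N.Sm)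
          (g := min (N.Sm * (1 - N.qR) - N.Cm - N.e0R) (N.Sm * (1 - N.z4) - N.Cm - N.e04))
          (hd0 _ (by linarith)) (hd0 _ (by linarith)) hq.le hz4 ?_ ?_
        · linarith
        · have := min_le_left (N.Sm * (1 - N.qR) - N.Cm - N.e0R) (N.Sm * (1 - N.z4) - N.Cm - N.e04)
          have := H.e0R
          linarith
        · have := min_le_right (N.Sm * (1 - N.qR) - N.Cm - N.e0R) (N.Sm * (1 - N.z4) - N.Cm - N.e04)
          have := H.e04
          linarith
      have Em : EB N.T0 (min (N.Sm * (1 - N.qR) - N.Cm - N.e0R) (N.Sm * (1 - N.z4) - N.Cm - N.e04)) A.D3 := by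
        rcases min_cases (N.Sm * (1 - N.qR) - N.Cm - N.e0R) (N.Sm * (1 - N.z4) - N.Cm - N.e04) with h | h
        · rw [h.1]; exact O.D3.1
        · rw [h.1]; exact O.D3.2
      have hE0 : en b (β * r) z ≤ N.e0R := (en_anti hb hκ hq.le z2).trans H.e0R
      have hE1 : N.f1R ≤ en b (β * r) (z + 1) := H.f1R.trans
        (en_mono hb hκ (by linarith) (by linarith) (by have := H.dom; nlinarith))
      have hf := fs_bound (T := TT b β r) (z := z) (E := en b (β * r) z) K2 K3 Km Km2 ht t60 tm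
        (O.D2.le T0.le hT (by nlinarith)) (O.D4.le T0.le hT (by linarith))
        (Em.le T0.le hT gm) hρ hρm
      have hx := O.D1.le T0.le hT (show N.f1R - N.e0R ≤ en b (β * r) (z + 1) - en b (β * r) z by linarith)
      have := region hG _ h0 (H.h1hi z ⟨hq.le, hz4⟩)
        (hfar.trans (mul_le_mul_of_nonneg_right hf hG.le)) c1.le hx (by linarith [O.r4])
      rw [abs_sub_comm]
      exact abs_gt this
    · -- region 5
      have gm : N.Sm * (1 - z) - N.Cm - en b (β * r) z ≥
          min (N.Sm * (1 - N.z4) - N.Cm - N.e04) (N.Sm - N.Cm) := by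
        have := conc_ge hcv (x := N.z4) (y := 0) (z := z) (A := N.Sm - N.Cm) (B := -N.Sm)
          (g := min (N.Sm * (1 - N.z4) - N.Cm - N.e04) (N.Sm - N.Cm))
          (hd0 _ (by linarith)) (hd0 _ le_rfl) hz4.le z2 ?_ ?_
        · linarith
        · have := min_le_left (N.Sm * (1 - N.z4) - N.Cm - N.e04) (N.Sm - N.Cm)
          have := H.e04
          linarith
        · have := min_le_right (N.Sm * (1 - N.z4) - N.Cm - N.e04) (N.Sm - N.Cm)
          rw [en_zero hκ]
          linarith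
      have Em : EB N.T0 (min (N.Sm * (1 - N.z4) - N.Cm - N.e04) (N.Sm - N.Cm)) A.F3 := by
        rcases min_cases (N.Sm * (1 - N.z4) - N.Cm - N.e04) (N.Sm - N.Cm) with h | h
        · rw [h.1]; exact O.F3.1
        · rw [h.1]; exact O.F3.2
      have hE0 : en b (β * r) z ≤ N.e04 := (en_anti hb hκ hz4.le z2).trans H.e04
      have hf := fs_bound (T := TT b β r) (z := z) (E := en b (β * r) z) K2 K3 Km Km2 ht t60 tm
        (O.F2.le T0.le hT (by nlinarith)) (O.F4.le T0.le hT (by linarith))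
        (Em.le T0.le hT gm) hρ hρm
      have hx := O.F1.le T0.le hT (show N.Sr * (1 + N.z4) - N.Cr - N.e04 ≤
        (N.Sr * (1 + z) - N.Cr) - en b (β * r) z by nlinarith)
      have := region hG _ h0 (H.h1far z ⟨hz4.le, z2⟩)
        (hfar.trans (mul_le_mul_of_nonneg_right hf hG.le)) Kr hx (by linarith [O.r5])
      rw [abs_sub_comm]
      exact abs_gt this

end Sok.R2
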