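import Pool.Agent.Lib.MP_816dec_an.R2Close2

/-!
MP_816dec_an (row R2): the class theorem, `Hyp` and `Ok` imply `Circ`.
-/

set_option autoImplicit false

open Complex Set Filter Topology

namespace Sok.R2

theorem posk {a0 a1 a Y V : ℝ} {k : ℤ} {m : ℕ} (hk : k = m + 1) (h0 : 0 < a0) (h1 : 0 < a1) (h : a0 ≤ a * a1)
    (hV0 : 0 ≤ V) (hV : V ≤ Y * a1) : V * a0 ^ (k - 1) * a1 ^ (-k) ≤ Y * a ^ m := by
  have hY : 0 ≤ Y := by
    by_contra hc
    push Not at hc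
    nlinarith
  have e1 : a0 ^ (k - 1) = a0 ^ m := by rw [hk, add_sub_cancel_right, zpow_natCast]
  have e2 : a1 ^ (-k) = (a1 ^ m)⁻¹ * a1⁻¹ := by
    rw [hk, zpow_neg, zpow_add₀ h1.ne', zpow_natCast, zpow_one, mul_inv]
  rw [e1, e2]
  have h2 : V * a1⁻¹ ≤ Y := by rw [← div_eq_mul_inv, div_le_iff₀ h1]; exact hV
  have h3 : a0 ^ m * (a1 ^ m)⁻¹ ≤ a ^ m := by
    rw [← div_eq_mul_inv, ← div_pow]
    exact pow_le_pow_left₀ (by positivity) (by rw [div_le_iff₀ h1]; exact h) m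
  calc V * a0 ^ m * ((a1 ^ m)⁻¹ * a1⁻¹) = (V * a1⁻¹) * (a0 ^ m * (a1 ^ m)⁻¹) := by ring
    _ ≤ Y * a ^ m := mul_le_mul h2 h3 (by positivity) hY

theorem negk {a0 a1 a Y V : ℝ} {k : ℤ} {m : ℕ} (hk : k = -m) (h0 : 0 < a0) (h1 : 0 < a1) (h : a1 ≤ a * a0)
    (hV0 : 0 ≤ V) (hV : V ≤ Y * a0) : V * a0 ^ (k - 1) * a1 ^ (-k) ≤ Y * a ^ m := by
  have hY : 0 ≤ Y := by
    by_contra hc
    push Not at hc
    nlinarith
  have e1 : a0 ^ (k - 1) = (a0 ^ m)⁻¹ * a0⁻¹ := by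
    have : k - 1 = -((m : ℤ) + 1) := by rw [hk]; ring
    rw [this, zpow_neg, zpow_add₀ h0.ne', zpow_natCast, zpow_one, mul_inv]
  have e2 : a1 ^ (-k) = a1 ^ m := by rw [hk, neg_neg, zpow_natCast]
  rw [e1, e2]
  have h2 : V * a0⁻¹ ≤ Y := by rw [← div_eq_mul_inv, div_le_iff₀ h0]; exact hV
  have h3 : a1 ^ m * (a0 ^ m)⁻¹ ≤ a ^ m := by
    rw [← div_eq_mul_inv, ← div_pow]
    exact pow_le_pow_left₀ (by positivity) (by rw [div_le_iff₀ h0]; exact h) m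
  calc V * ((a0 ^ m)⁻¹ * a0⁻¹) * a1 ^ m = (V * a0⁻¹) * (a1 ^ m * (a0 ^ m)⁻¹) := by ring
    _ ≤ Y * a ^ m := mul_le_mul h2 h3 (by positivity) hY

theorem vbound {D X S0 S1 s0 s1 : ℂ} (p q : ℝ) :
    ‖D + X * ((p : ℂ) * S0 - (q : ℂ) * S1)‖ ≤ ‖D - ((q : ℂ) * s1 - (p : ℂ) * s0) * X‖ +
      ‖X‖ * (|p| * ‖S0 - s0‖ + |q| * ‖S1 - s1‖) := by
  have e : D + X * ((p : ℂ) * S0 - (q : ℂ) * S1) = (D - ((q : ℂ) * s1 - (p : ℂ) * s0) * X) +
      X * ((p : ℂ) * (S0 - s0) - (q : ℂ) * (S1 - s1)) := by ring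
  rw [e]
  refine (norm_add_le _ _).trans ?_
  gcongr
  rw [norm_mul]
  gcongr
  refine (norm_sub_le _ _).trans ?_
  rw [norm_mul, norm_mul, Complex.norm_real, Complex.norm_real, Real.norm_eq_abs, Real.norm_eq_abs]

variable {b : ℕ} {β r : ℝ} {aw : ℤ} {n : ℕ} {N : Num} {A : Aux}

/-- the bounds `M` -/
noncomputable def Mk (N : Num) (A : Aux) (k : ℤ) : ℝ :=
  if k = 2 then A.M2 else if k = -1 then A.Mm else
    if 3 ≤ k then A.M3 * (N.a / 5) ^ (k - 3).toNat else A.Mm2 * (N.a / 5) ^ (-2 - k).toNat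

/-- the bounds of the derivative in units `T / h` -/
noncomputable def Qk (N : Num) (A : Aux) (k : ℤ) : ℝ :=
  if k = 2 then A.Q2 else if k = -1 then A.Qm else
    if 3 ≤ k then (A.Q3 + ((k - 3).toNat : ℝ) * A.Q4) * (N.a / 5) ^ (k - 3).toNat else
      (A.Qm2 + ((-2 - k).toNat : ℝ) * A.Qm3) * (N.a / 5) ^ (-2 - k).toNat

theorem Mk_2 : Mk N A 2 = A.M2 := by unfold Mk; simp
theorem Mk_m1 : Mk N A (-1) = A.Mm := by unfold Mk; simp
theorem Mk_3 (i : ℕ) : Mk N A (3 + i) = A.M3 * (N.a / 5) ^ i := by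
  unfold Mk
  rw [if_neg (by omega), if_neg (by omega), if_pos (by omega)]
  have e : (3 + (i : ℤ) - 3).toNat = i := by omega
  rw [e]
theorem Mk_m2 (i : ℕ) : Mk N A (-2 - i) = A.Mm2 * (N.a / 5) ^ i := by
  unfold Mk
  rw [if_neg (by omega), if_neg (by omega), if_neg (by omega)]
  have e : (-2 - (-2 - (i : ℤ))).toNat = i := by omega
  rw [e]
theorem Qk_2 : Qk N A 2 = A.Q2 := by unfold Qk; simp
theorem Qk_m1 : Qk N A (-1) = A.Qm := by unfold Qk; simp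
theorem Qk_3 (i : ℕ) : Qk N A (3 + i) = (A.Q3 + i * A.Q4) * (N.a / 5) ^ i := by
  unfold Qk
  rw [if_neg (by omega), if_neg (by omega), if_pos (by omega)]
  have e : (3 + (i : ℤ) - 3).toNat = i := by omega
  rw [e]
theorem Qk_m2 (i : ℕ) : Qk N A (-2 - i) = (A.Qm2 + i * A.Qm3) * (N.a / 5) ^ i := by
  unfold Qk
  rw [if_neg (by omega), if_neg (by omega), if_neg (by omega)]
  have e : (-2 - (-2 - (i : ℤ))).toNat = i := by omega
  rw [e]

/-- the bounds of the two weights on the inner segment, relative to the main windows -/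
theorem inner_bounds (hb : 0 < b) (H : Hyp b β r aw n N) (O : Ok N A) {z : ℝ} (hz : z ∈ Icc N.qL N.qR) :
    N.W2 (TT b β r) z ≤ (A.X2 + N.τ * A.Y1) * Real.exp (-(TT b β r * en b (β * r) (z + 1))) ∧
    N.W3 (TT b β r) z ≤ (A.X2 * A.ρ + N.τ * A.Y1) * Real.exp (-(TT b β r * en b (β * r) (z + 1))) ∧
    N.Wm (TT b β r) z ≤ (A.Xm + N.τm * A.Y0) * Real.exp (-(TT b β r * en b (β * r) z)) ∧
    N.Wm2 (TT b β r) z ≤ (A.Xm * A.ρm + N.τm * A.Y0) * Real.exp (-(TT b β r * en b (β * r) z)) := by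
  obtain ⟨T0, a1, a5, o1, o2, o3, o4, o5⟩ := O.ord
  obtain ⟨t0, t6, tm, S0, Sm0, Sr0⟩ := O.pos2
  have hT := H.hT
  have hκ := H.hκ
  have hh0 := hhp0 hb
  have hpi := Real.pi_pos
  have hcv := en_convex hb hκ
  obtain ⟨z1, z2⟩ := hz
  obtain ⟨T, hTd⟩ : ∃ T, T = TT b β r := ⟨_, rfl⟩
  obtain ⟨E1, hE1⟩ : ∃ E, E = en b (β * r) (z + 1) := ⟨_, rfl⟩
  obtain ⟨E0, hE0⟩ : ∃ E, E = en b (β * r) z := ⟨_, rfl⟩
  have hd1 : ∀ y, y ≤ N.z4 → (y + 1) * hh b < β * r + Real.pi / 2 := by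
    intro y hy
    have := H.dom
    nlinarith
  have hc1 : ConvexOn ℝ {y : ℝ | (y + 1) * hh b < β * r + Real.pi / 2} (fun y => en b (β * r) (y + 1)) := by
    have := hcv.translate_right (c := (1 : ℝ))
    refine ⟨?_, ?_⟩
    · have h := this.1
      have e : (fun z : ℝ => 1 + z) ⁻¹' {z : ℝ | z * hh b < β * r + Real.pi / 2} =
          {y : ℝ | (y + 1) * hh b < β * r + Real.pi / 2} := by
        ext y
        simp only [mem_preimage, mem_ofPred_eq, add_comm]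
      rwa [e] at h
    · intro x hx y hy s t hs ht hst
      have h := this.2 (x := x) (by simpa only [mem_preimage, mem_ofPred_eq, add_comm] using hx) (y := y)
        (by simpa only [mem_preimage, mem_ofPred_eq, add_comm] using hy) hs ht hst
      simpa only [Function.comp, add_comm] using h
  have hd0 : ∀ y, y ≤ 0 → y ∈ {z : ℝ | z * hh b < β * r + Real.pi / 2} := by
    intro y hy
    show y * hh b < _
    nlinarith
  have hE1' : E1 ≤ N.e1R := by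
    rw [hE1]
    exact (en_mono hb hκ (by linarith) (by linarith) (hd1 _ o4)).trans H.e1R
  have hE0' : E0 ≤ N.e0L := by rw [hE0]; exact (en_anti hb hκ z1 (by linarith)).trans H.e0L
  -- right
  have g2 : N.S * (2 + z) - N.C - E1 ≥
      min (N.S * (2 + N.qL) - N.C - N.e1L) (N.S * (2 + N.qR) - N.C - N.e1R) := by
    have := conc_ge hc1 (x := N.qL) (y := N.qR) (z := z) (A := N.S * 2 - N.C) (B := N.S)
      (g := min (N.S * (2 + N.qL) - N.C - N.e1L) (N.S * (2 + N.qR) - N.C - N.e1R))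
      (hd1 _ (by linarith)) (hd1 _ (by linarith)) z1 z2 ?_ ?_
    · rw [hE1]; linarith
    · have := min_le_left (N.S * (2 + N.qL) - N.C - N.e1L) (N.S * (2 + N.qR) - N.C - N.e1R)
      have := H.e1L
      linarith
    · have := min_le_right (N.S * (2 + N.qL) - N.C - N.e1L) (N.S * (2 + N.qR) - N.C - N.e1R)
      have := H.e1R
      linarith
  have E2 : EB N.T0 (min (N.S * (2 + N.qL) - N.C - N.e1L) (N.S * (2 + N.qR) - N.C - N.e1R)) A.X2 := by
    rcases min_cases (N.S * (2 + N.qL) - N.C - N.e1L) (N.S * (2 + N.qR) - N.C - N.e1R) with h | h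
    · rw [h.1]; exact O.X2.1
    · rw [h.1]; exact O.X2.2
  have gm : N.Sm * (1 - z) - N.Cm - E0 ≥
      min (N.Sm * (1 - N.qR) - N.Cm - N.e0R) (N.Sm * (1 - N.qL) - N.Cm - N.e0L) := by
    have := conc_ge hcv (x := N.qL) (y := N.qR) (z := z) (A := N.Sm - N.Cm) (B := -N.Sm)
      (g := min (N.Sm * (1 - N.qR) - N.Cm - N.e0R) (N.Sm * (1 - N.qL) - N.Cm - N.e0L))
      (hd0 _ (by linarith)) (hd0 _ (by linarith)) z1 z2 ?_ ?_
    · rw [hE0]; linarith
    · have := min_le_right (N.Sm * (1 - N.qR) - N.Cm - N.e0R) (N.Sm * (1 - N.qL) - N.Cm - N.e0L)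
      have := H.e0L
      linarith
    · have := min_le_left (N.Sm * (1 - N.qR) - N.Cm - N.e0R) (N.Sm * (1 - N.qL) - N.Cm - N.e0L)
      have := H.e0R
      linarith
  have Em : EB N.T0 (min (N.Sm * (1 - N.qR) - N.Cm - N.e0R) (N.Sm * (1 - N.qL) - N.Cm - N.e0L)) A.Xm := by
    rcases min_cases (N.Sm * (1 - N.qR) - N.Cm - N.e0R) (N.Sm * (1 - N.qL) - N.Cm - N.e0L) with h | h
    · rw [h.1]; exact O.Xm.1
    · rw [h.1]; exact O.Xm.2
  have hρ := O.ρ.le T0.le hT le_rfl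
  have hρm := O.ρm.le T0.le hT le_rfl
  have hx2 := E2.le T0.le hT g2
  have hxm := Em.le T0.le hT gm
  have hy1 := O.Y1.le T0.le hT (show 1 / 2 - N.e1R ≤ 1 / 2 - E1 by linarith)
  have hy0 := O.Y0.le T0.le hT (show 1 / 2 - N.e0L ≤ 1 / 2 - E0 by linarith)
  rw [← hTd] at hρ hρm hx2 hxm hy1 hy0 ⊢
  rw [← hE1, ← hE0]
  have X20 : 0 ≤ A.X2 := O.X2.1.nonneg
  have Xm0 : 0 ≤ A.Xm := O.Xm.1.nonneg
  have p1 : 0 < Real.exp (-(T * E1)) := Real.exp_pos _
  have p0 : 0 < Real.exp (-(T * E0)) := Real.exp_pos _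
  have ht : (if z ≤ N.qR then N.τ else N.τ6) = N.τ := by rw [if_pos z2]
  have e1 : Real.exp (-(T * (N.S * (2 + z) - N.C))) =
      Real.exp (-(T * (N.S * (2 + z) - N.C - E1))) * Real.exp (-(T * E1)) := by
    rw [← Real.exp_add]; congr 1; ring
  have e2 : Real.exp (-(T / 2)) = Real.exp (-(T * (1 / 2 - E1))) * Real.exp (-(T * E1)) := by
    rw [← Real.exp_add]; congr 1; ring
  have e2' : Real.exp (-(T / 2)) = Real.exp (-(T * (1 / 2 - E0))) * Real.exp (-(T * E0)) := by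
    rw [← Real.exp_add]; congr 1; ring
  have e3 : Real.exp (-(T * (N.S * (3 + z) - N.C))) =
      Real.exp (-(T * (N.S * (2 + z) - N.C - E1))) * Real.exp (-(T * N.S)) * Real.exp (-(T * E1)) := by
    rw [← Real.exp_add, ← Real.exp_add]; congr 1; ring
  have e4 : Real.exp (-(T * (N.Sm * (1 - z) - N.Cm))) =
      Real.exp (-(T * (N.Sm * (1 - z) - N.Cm - E0))) * Real.exp (-(T * E0)) := by
    rw [← Real.exp_add]; congr 1; ring
  have e5 : Real.exp (-(T * (N.Sm * (2 - z) - N.Cm))) =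
      Real.exp (-(T * (N.Sm * (1 - z) - N.Cm - E0))) * Real.exp (-(T * N.Sm)) * Real.exp (-(T * E0)) := by
    rw [← Real.exp_add, ← Real.exp_add]; congr 1; ring
  have t1 : N.τ * (Real.exp (-(T * (1 / 2 - E1))) * Real.exp (-(T * E1))) ≤ N.τ * (A.Y1 * Real.exp (-(T * E1))) :=
    mul_le_mul_of_nonneg_left (mul_le_mul_of_nonneg_right hy1 p1.le) t0
  have t2 : N.τm * (Real.exp (-(T * (1 / 2 - E0))) * Real.exp (-(T * E0))) ≤ N.τm * (A.Y0 * Real.exp (-(T * E0))) :=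
    mul_le_mul_of_nonneg_left (mul_le_mul_of_nonneg_right hy0 p0.le) tm
  refine ⟨?_, ?_, ?_, ?_⟩
  · unfold Num.W2
    rw [ht, e1, e2, add_mul]
    have := mul_le_mul_of_nonneg_right hx2 p1.le
    linarith
  · unfold Num.W3
    rw [ht, e3, e2, add_mul]
    have := mul_le_mul_of_nonneg_right (mul_le_mul hx2 hρ (Real.exp_pos _).le X20) p1.le
    linarith
  · unfold Num.Wm
    rw [e4, e2', add_mul]
    have := mul_le_mul_of_nonneg_right hxm p0.le
    linarith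
  · unfold Num.Wm2
    rw [e5, e2', add_mul]
    have := mul_le_mul_of_nonneg_right (mul_le_mul hxm hρm (Real.exp_pos _).le Xm0) p0.le
    linarith

/-- from a weight to a bound relative to a main window -/
theorem rel {V K W x E G l N1 Mx : ℝ} (hG : 0 ≤ G) (hK : 0 ≤ K) (hl : 0 < l) (hV : V ≤ K * W * G)
    (hW : W ≤ x * E) (h1 : l * E * G ≤ N1) (hE : 0 < E) (hM : K * x ≤ Mx * l) (hx : 0 ≤ x) : V ≤ Mx * N1 := by
  have hMx : 0 ≤ Mx := by
    by_contra hc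
    push Not at hc
    nlinarith [mul_nonneg hK hx]
  have h2 : K * W * G ≤ K * (x * E) * G := mul_le_mul_of_nonneg_right (mul_le_mul_of_nonneg_left hW hK) hG
  have h3 : K * (x * E) * G ≤ Mx * (l * E * G) := by
    have := mul_le_mul_of_nonneg_right hM (mul_nonneg hE.le hG)
    linarith
  have h4 := mul_le_mul_of_nonneg_left h1 hMx
  linarith

end Sok.R2
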