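import Pool.Agent.Lib.MP_816dec_an.R2Close3

/-!
MP_816dec_an (row R2): the class theorem, `Hyp` and `Ok` imply `Circ`.
-/

set_option autoImplicit false

open Complex Set Filter Topology

namespace Sok.R2

variable {b : ℕ} {β r : ℝ} {aw : ℤ} {n : ℕ} {N : Num} {A : Aux}

theorem Ann.facts {X : ℤ → ℂ → ℂ} {a : ℝ} {w : ℂ} (ha : 1 < a) (h : Ann X a w) (h0 : X 0 w ≠ 0) :
    0 < ‖X 0 w‖ ∧ 0 < ‖X 1 w‖ ∧ ‖X 0 w‖ ≤ a * ‖X 1 w‖ ∧ ‖X 1 w‖ ≤ a * ‖X 0 w‖ := by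
  obtain ⟨h1, h2⟩ := h
  have p0 : 0 < ‖X 0 w‖ := norm_pos_iff.2 h0
  rw [norm_div] at h1 h2
  have ha0 : 0 < a := by linarith
  rw [le_div_iff₀ p0] at h1
  rw [div_le_iff₀ p0] at h2
  have h3 : ‖X 0 w‖ ≤ a * ‖X 1 w‖ := by
    have := mul_le_mul_of_nonneg_left h1 ha0.le
    rwa [← mul_assoc, mul_inv_cancel₀ ha0.ne', one_mul] at this
  refine ⟨p0, ?_, h3, h2⟩
  have : 0 < a⁻¹ * ‖X 0 w‖ := by positivity
  linarith

/-- the value and derivative bounds of one far window, right side -/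
theorem far_pos {X : ℤ → ℂ → ℂ} {w : ℂ} {k : ℤ} {m : ℕ} (hk : k = m + 1) {a c δ0 δ1 Mx Qx Dn : ℝ} {s0 s1 : ℂ}
    (hc : 0 < c) (p0 : 0 < ‖X 0 w‖) (p1 : 0 < ‖X 1 w‖) (ha : ‖X 0 w‖ ≤ a * ‖X 1 w‖)
    (hd0 : ‖deriv (X 0) w / X 0 w - s0‖ ≤ c * δ0) (hd1 : ‖deriv (X 1) w / X 1 w - s1‖ ≤ c * δ1)
    (hX : ‖X k w‖ ≤ Mx * ‖X 1 w‖)
    (hD : Dn ≤ (Qx - Mx * (m * δ0 + (m + 1) * δ1)) * ‖X 1 w‖)
    (hDn : ‖deriv (X k) w - (((m + 1 : ℝ) : ℂ) * s1 - ((m : ℝ) : ℂ) * s0) * X k w‖ ≤ c * Dn) :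
    ‖X k w‖ * ‖X 0 w‖ ^ (k - 1) * ‖X 1 w‖ ^ (-k) ≤ Mx * a ^ m ∧
    ‖deriv (X k) w + X k w * ((k - 1) * (deriv (X 0) w / X 0 w) - k * (deriv (X 1) w / X 1 w))‖ *
      ‖X 0 w‖ ^ (k - 1) * ‖X 1 w‖ ^ (-k) ≤ c * Qx * a ^ m := by
  refine ⟨posk hk p0 p1 ha (norm_nonneg _) hX, posk hk p0 p1 ha (norm_nonneg _) ?_⟩
  have e1 : ((k : ℂ) - 1) = ((m : ℝ) : ℂ) := by rw [hk]; push_cast; ring
  have e2 : (k : ℂ) = ((m + 1 : ℝ) : ℂ) := by rw [hk]; push_cast; ring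
  rw [e1, e2]
  refine (vbound (s0 := s0) (s1 := s1) (m : ℝ) (m + 1 : ℝ)).trans ?_
  have hm : (0 : ℝ) ≤ m := Nat.cast_nonneg m
  rw [abs_of_nonneg hm, abs_of_nonneg (by linarith : (0 : ℝ) ≤ m + 1)]
  have h1 : m * ‖deriv (X 0) w / X 0 w - s0‖ + (m + 1) * ‖deriv (X 1) w / X 1 w - s1‖ ≤
      c * (m * δ0 + (m + 1) * δ1) := by
    have a1 := mul_le_mul_of_nonneg_left hd0 hm
    have a2 := mul_le_mul_of_nonneg_left hd1 (by linarith : (0 : ℝ) ≤ m + 1)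
    linarith
  have h0' : 0 ≤ m * ‖deriv (X 0) w / X 0 w - s0‖ + (m + 1) * ‖deriv (X 1) w / X 1 w - s1‖ := by positivity
  have h2 : ‖X k w‖ * (m * ‖deriv (X 0) w / X 0 w - s0‖ + (m + 1) * ‖deriv (X 1) w / X 1 w - s1‖) ≤
      (Mx * ‖X 1 w‖) * (c * (m * δ0 + (m + 1) * δ1)) :=
    mul_le_mul hX h1 h0' ((norm_nonneg _).trans hX)
  have h3 := mul_le_mul_of_nonneg_left hD hc.le
  have e3 : c * Qx * ‖X 1 w‖ = c * ((Qx - Mx * (m * δ0 + (m + 1) * δ1)) * ‖X 1 w‖) +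
      (Mx * ‖X 1 w‖) * (c * (m * δ0 + (m + 1) * δ1)) := by ring
  rw [e3]
  linarith

/-- the value and derivative bounds of one far window, left side -/
theorem far_neg {X : ℤ → ℂ → ℂ} {w : ℂ} {k : ℤ} {m : ℕ} (hk : k = -m) {a c δ0 δ1 Mx Qx Dn : ℝ} {s0 s1 : ℂ}
    (hc : 0 < c) (p0 : 0 < ‖X 0 w‖) (p1 : 0 < ‖X 1 w‖) (ha : ‖X 1 w‖ ≤ a * ‖X 0 w‖)
    (hd0 : ‖deriv (X 0) w / X 0 w - s0‖ ≤ c * δ0) (hd1 : ‖deriv (X 1) w / X 1 w - s1‖ ≤ c * δ1)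
    (hX : ‖X k w‖ ≤ Mx * ‖X 0 w‖)
    (hD : Dn ≤ (Qx - Mx * ((m + 1) * δ0 + m * δ1)) * ‖X 0 w‖)
    (hDn : ‖deriv (X k) w - (((m + 1 : ℝ) : ℂ) * s0 - ((m : ℝ) : ℂ) * s1) * X k w‖ ≤ c * Dn) :
    ‖X k w‖ * ‖X 0 w‖ ^ (k - 1) * ‖X 1 w‖ ^ (-k) ≤ Mx * a ^ m ∧
    ‖deriv (X k) w + X k w * ((k - 1) * (deriv (X 0) w / X 0 w) - k * (deriv (X 1) w / X 1 w))‖ *
      ‖X 0 w‖ ^ (k - 1) * ‖X 1 w‖ ^ (-k) ≤ c * Qx * a ^ m := by
  refine ⟨negk hk p0 p1 ha (norm_nonneg _) hX, negk hk p0 p1 ha (norm_nonneg _) ?_⟩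
  have e1 : ((k : ℂ) - 1) = ((-(m + 1) : ℝ) : ℂ) := by rw [hk]; push_cast; ring
  have e2 : (k : ℂ) = ((-m : ℝ) : ℂ) := by rw [hk]; push_cast; ring
  rw [e1, e2]
  refine (vbound (s0 := s0) (s1 := s1) (-(m + 1) : ℝ) (-m : ℝ)).trans ?_
  have hm : (0 : ℝ) ≤ m := Nat.cast_nonneg m
  rw [abs_neg, abs_neg, abs_of_nonneg hm, abs_of_nonneg (by linarith : (0 : ℝ) ≤ m + 1)]
  have h1 : (m + 1) * ‖deriv (X 0) w / X 0 w - s0‖ + m * ‖deriv (X 1) w / X 1 w - s1‖ ≤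
      c * ((m + 1) * δ0 + m * δ1) := by
    have a1 := mul_le_mul_of_nonneg_left hd1 hm
    have a2 := mul_le_mul_of_nonneg_left hd0 (by linarith : (0 : ℝ) ≤ m + 1)
    linarith
  have h0' : 0 ≤ (m + 1) * ‖deriv (X 0) w / X 0 w - s0‖ + m * ‖deriv (X 1) w / X 1 w - s1‖ := by positivity
  have h2 : ‖X k w‖ * ((m + 1) * ‖deriv (X 0) w / X 0 w - s0‖ + m * ‖deriv (X 1) w / X 1 w - s1‖) ≤
      (Mx * ‖X 0 w‖) * (c * ((m + 1) * δ0 + m * δ1)) :=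
    mul_le_mul hX h1 h0' ((norm_nonneg _).trans hX)
  have h3 := mul_le_mul_of_nonneg_left hD hc.le
  have e3 : c * Qx * ‖X 0 w‖ = c * ((Qx - Mx * ((m + 1) * δ0 + m * δ1)) * ‖X 0 w‖) +
      (Mx * ‖X 0 w‖) * (c * ((m + 1) * δ0 + m * δ1)) := by ring
  have e4 : ((-m : ℝ) : ℂ) * s1 - ((-(m + 1) : ℝ) : ℂ) * s0 = ((m + 1 : ℝ) : ℂ) * s0 - ((m : ℝ) : ℂ) * s1 := by
    push_cast; ring
  rw [e3, e4]
  linarith

theorem inner (hb : 0 < b) (hβ : 0 < β) (H : Hyp b β r aw n N) (O : Ok N A) {z : ℝ}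
    (hz : z ∈ Icc N.qL N.qR) (hA : Ann (Xw b β aw n) N.a (wz b β r z)) {k : ℤ} (hk : k ∈ sw b aw n) :
    ‖Xw b β aw n k (wz b β r z)‖ * ‖Xw b β aw n 0 (wz b β r z)‖ ^ (k - 1) *
      ‖Xw b β aw n 1 (wz b β r z)‖ ^ (-k) ≤ Mk N A k ∧
    ‖deriv (Xw b β aw n k) (wz b β r z) + Xw b β aw n k (wz b β r z) *
      ((k - 1) * (deriv (Xw b β aw n 0) (wz b β r z) / Xw b β aw n 0 (wz b β r z)) -
        k * (deriv (Xw b β aw n 1) (wz b β r z) / Xw b β aw n 1 (wz b β r z)))‖ *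
      ‖Xw b β aw n 0 (wz b β r z)‖ ^ (k - 1) * ‖Xw b β aw n 1 (wz b β r z)‖ ^ (-k) ≤
      TT b β r / hh b * Qk N A k := by
  obtain ⟨T0, a1, a5, o1, o2, o3, o4, o5⟩ := O.ord
  obtain ⟨u0, l1, c0, c1, K2, K3, Km, Km2, Kr⟩ := O.pos
  obtain ⟨t0, t6, tm, S0, Sm0, Sr0⟩ := O.pos2
  obtain ⟨δ0, δ1, P2, P3, P4, Pm, Pm2, Pm3⟩ := O.pos3
  have hG := GN_pos β r
  have hh0 := hhp0 hb
  have hTp : 0 < TT b β r := lt_of_lt_of_le T0 H.hT
  have hc : 0 < TT b β r / hh b := by positivity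
  have hz01 : z ∈ Icc (-1 : ℝ) 0 := ⟨by linarith [hz.1], by linarith [hz.2]⟩
  obtain ⟨w2, w3, wm, wm2⟩ := inner_bounds hb H O hz
  have hn1 := H.h1lo z ⟨hz01.1, hz.2⟩
  have hn0 := H.h0lo z ⟨hz.1, hz01.2⟩
  have E1 : 0 < Real.exp (-(TT b β r * en b (β * r) (z + 1))) := Real.exp_pos _
  have E0 : 0 < Real.exp (-(TT b β r * en b (β * r) z)) := Real.exp_pos _
  have hne : Xw b β aw n 0 (wz b β r z) ≠ 0 := by
    intro h0
    rw [h0, norm_zero] at hn0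
    have : 0 < N.c0 * Real.exp (-(TT b β r * en b (β * r) z)) * GN β r := by positivity
    linarith
  obtain ⟨p0, p1, ha0, ha1⟩ := Ann.facts a1 hA hne
  have hs0 := H.s0 z hz
  have hs1 := H.s1 z hz
  have conv : ∀ {x y : ℝ}, hh b / TT b β r * x ≤ y → x ≤ TT b β r / hh b * y := by
    intro x y h
    have h1 := mul_le_mul_of_nonneg_left h hc.le
    have e : TT b β r / hh b * (hh b / TT b β r * x) = x := by field_simp
    rwa [e] at h1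
  have hs0' := conv hs0
  have hs1' := conv hs1
  have ha : 0 < N.a := by linarith
  have hX2 : 0 ≤ A.X2 := O.X2.1.nonneg
  have hXm : 0 ≤ A.Xm := O.Xm.1.nonneg
  have hY1 : 0 ≤ A.Y1 := O.Y1.nonneg
  have hY0 : 0 ≤ A.Y0 := O.Y0.nonneg
  have hρ0 : 0 ≤ A.ρ := O.ρ.nonneg
  have hρm0 : 0 ≤ A.ρm := O.ρm.nonneg
  have hβ' : (β : ℂ) ≠ 0 := Complex.ofReal_ne_zero.2 hβ.ne'
  rcases mem_cases hk with h | h | ⟨i, h, _⟩ | ⟨i, h, _⟩
  · rw [h] at hk ⊢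
    have hX : ‖Xw b β aw n 2 (wz b β r z)‖ ≤ A.M2 / N.a * ‖Xw b β aw n 1 (wz b β r z)‖ :=
      rel hG.le K2 l1 (H.h2 hk z hz01) w2 hn1 E1 (by
        have := O.M2
        rw [div_mul_eq_mul_div, le_div_iff₀ ha]; linarith) (by positivity)
    have hD : hh b / TT b β r * ‖deriv (Xw b β aw n 2) (wz b β r z) -
        (2 * sig (β * r) (tk b β r 1 z) - sig (β * r) (tk b β r 0 z)) / β * Xw b β aw n 2 (wz b β r z)‖ ≤
        (A.Q2 / N.a - A.M2 / N.a * (N.δ0 + 2 * N.δ1)) * ‖Xw b β aw n 1 (wz b β r z)‖ :=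
      rel hG.le P2 l1 (H.m2 hk z hz) w2 hn1 E1 (by
        have := O.Q2
        have e : (A.Q2 / N.a - A.M2 / N.a * (N.δ0 + 2 * N.δ1)) * N.l1 =
          ((A.Q2 - A.M2 * (N.δ0 + 2 * N.δ1)) * N.l1) / N.a := by field_simp
        rw [e, le_div_iff₀ ha]; linarith) (by positivity)
    have key := far_pos (X := Xw b β aw n) (w := wz b β r z) (k := 2) (m := 1) (by norm_num) (a := N.a)
      (c := TT b β r / hh b) (δ0 := N.δ0) (δ1 := N.δ1) (Mx := A.M2 / N.a) (Qx := A.Q2 / N.a)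
      (s0 := sig (β * r) (tk b β r 0 z) / β) (s1 := sig (β * r) (tk b β r 1 z) / β) hc p0 p1 ha0 hs0' hs1' hX
      (by
        refine hD.trans (le_of_eq ?_)
        push_cast
        ring)
      (by
        refine le_trans (le_of_eq ?_) (conv le_rfl)
        congr 2
        push_cast
        ring)
    rw [Mk_2, Qk_2]
    have e1 : A.M2 / N.a * N.a ^ 1 = A.M2 := by field_simp
    have e2 : TT b β r / hh b * (A.Q2 / N.a) * N.a ^ 1 = TT b β r / hh b * A.Q2 := by field_simp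
    rw [e1, e2] at key
    exact key
  · rw [h] at hk ⊢
    have hX : ‖Xw b β aw n (-1) (wz b β r z)‖ ≤ A.Mm / N.a * ‖Xw b β aw n 0 (wz b β r z)‖ :=
      rel hG.le Km c0 (H.hm hk z hz01) wm hn0 E0 (by
        have := O.Mm
        rw [div_mul_eq_mul_div, le_div_iff₀ ha]; linarith) (by positivity)
    have hD : hh b / TT b β r * ‖deriv (Xw b β aw n (-1)) (wz b β r z) -
        (2 * sig (β * r) (tk b β r 0 z) - sig (β * r) (tk b β r 1 z)) / β * Xw b β aw n (-1) (wz b β r z)‖ ≤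
        (A.Qm / N.a - A.Mm / N.a * (2 * N.δ0 + N.δ1)) * ‖Xw b β aw n 0 (wz b β r z)‖ :=
      rel hG.le Pm c0 (H.mm hk z hz) wm hn0 E0 (by
        have := O.Qm
        have e : (A.Qm / N.a - A.Mm / N.a * (2 * N.δ0 + N.δ1)) * N.c0 =
          ((A.Qm - A.Mm * (2 * N.δ0 + N.δ1)) * N.c0) / N.a := by field_simp
        rw [e, le_div_iff₀ ha]; linarith) (by positivity)
    have key := far_neg (X := Xw b β aw n) (w := wz b β r z) (k := -1) (m := 1) (by norm_num) (a := N.a)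
      (c := TT b β r / hh b) (δ0 := N.δ0) (δ1 := N.δ1) (Mx := A.Mm / N.a) (Qx := A.Qm / N.a)
      (s0 := sig (β * r) (tk b β r 0 z) / β) (s1 := sig (β * r) (tk b β r 1 z) / β) hc p0 p1 ha1 hs0' hs1' hX
      (by
        refine hD.trans (le_of_eq ?_)
        push_cast
        ring)
      (by
        refine le_trans (le_of_eq ?_) (conv le_rfl)
        congr 2
        push_cast
        ring)
    rw [Mk_m1, Qk_m1]
    have e1 : A.Mm / N.a * N.a ^ 1 = A.Mm := by field_simp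
    have e2 : TT b β r / hh b * (A.Qm / N.a) * N.a ^ 1 = TT b β r / hh b * A.Qm := by field_simp
    rw [e1, e2] at key
    exact key
  · rw [h] at hk ⊢
    have h5 : (0 : ℝ) < (1 / 5) ^ i := by positivity
    have hi : (0 : ℝ) ≤ i := Nat.cast_nonneg i
    have hX : ‖Xw b β aw n (3 + i) (wz b β r z)‖ ≤ A.M3 / N.a ^ 2 * (1 / 5) ^ i * ‖Xw b β aw n 1 (wz b β r z)‖ :=
      rel hG.le (mul_nonneg h5.le K3) l1 (H.h3 i hk z hz01) w3 hn1 E1 (by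
        have h6 := mul_le_mul_of_nonneg_left O.M3 h5.le
        have e : A.M3 / N.a ^ 2 * (1 / 5) ^ i * N.l1 = ((1 / 5) ^ i * (A.M3 * N.l1)) / N.a ^ 2 := by field_simp
        rw [e, le_div_iff₀ (by positivity)]
        linarith) (by positivity)
    have hD : hh b / TT b β r * ‖deriv (Xw b β aw n (3 + i)) (wz b β r z) -
        ((3 + i) * sig (β * r) (tk b β r 1 z) - (2 + i) * sig (β * r) (tk b β r 0 z)) / β *
          Xw b β aw n (3 + i) (wz b β r z)‖ ≤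
        ((A.Q3 + i * A.Q4) / N.a ^ 2 * (1 / 5) ^ i -
          A.M3 / N.a ^ 2 * (1 / 5) ^ i * ((2 + i) * N.δ0 + (3 + i) * N.δ1)) * ‖Xw b β aw n 1 (wz b β r z)‖ :=
      rel hG.le (mul_nonneg h5.le (by positivity)) l1 (H.m3 i hk z hz) w3 hn1 E1 (by
        have h6 := mul_le_mul_of_nonneg_left O.Q3 h5.le
        have h7 := mul_le_mul_of_nonneg_left O.Q4 (mul_nonneg h5.le hi)
        have e : ((A.Q3 + i * A.Q4) / N.a ^ 2 * (1 / 5) ^ i -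
          A.M3 / N.a ^ 2 * (1 / 5) ^ i * ((2 + i) * N.δ0 + (3 + i) * N.δ1)) * N.l1 =
          ((1 / 5) ^ i * ((A.Q3 - A.M3 * (2 * N.δ0 + 3 * N.δ1)) * N.l1) +
            (1 / 5) ^ i * i * ((A.Q4 - A.M3 * (N.δ0 + N.δ1)) * N.l1)) / N.a ^ 2 := by
          field_simp
          ring
        rw [e, le_div_iff₀ (by positivity)]
        linarith) (by positivity)
    have key := far_pos (X := Xw b β aw n) (w := wz b β r z) (k := 3 + i) (m := 2 + i) (by push_cast; ring) (a := N.a)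
      (c := TT b β r / hh b) (δ0 := N.δ0) (δ1 := N.δ1) (Mx := A.M3 / N.a ^ 2 * (1 / 5) ^ i)
      (Qx := (A.Q3 + i * A.Q4) / N.a ^ 2 * (1 / 5) ^ i)
      (s0 := sig (β * r) (tk b β r 0 z) / β) (s1 := sig (β * r) (tk b β r 1 z) / β) hc p0 p1 ha0 hs0' hs1' hX
      (by
        refine hD.trans (le_of_eq ?_)
        push_cast
        ring)
      (by
        refine le_trans (le_of_eq ?_) (conv le_rfl)
        congr 2
        push_cast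
        ring)
    rw [Mk_3, Qk_3]
    have e1 : A.M3 / N.a ^ 2 * (1 / 5) ^ i * N.a ^ (2 + i) = A.M3 * (N.a / 5) ^ i := by
      rw [pow_add, div_pow, div_pow, one_pow]; field_simp
    have e2 : TT b β r / hh b * ((A.Q3 + i * A.Q4) / N.a ^ 2 * (1 / 5) ^ i) * N.a ^ (2 + i) =
        TT b β r / hh b * ((A.Q3 + i * A.Q4) * (N.a / 5) ^ i) := by
      rw [pow_add, div_pow, div_pow, one_pow]; field_simp
    rw [e1, e2] at key
    exact key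
  · rw [h] at hk ⊢
    have h5 : (0 : ℝ) < (1 / 5) ^ i := by positivity
    have hi : (0 : ℝ) ≤ i := Nat.cast_nonneg i
    have hX : ‖Xw b β aw n (-2 - i) (wz b β r z)‖ ≤ A.Mm2 / N.a ^ 2 * (1 / 5) ^ i * ‖Xw b β aw n 0 (wz b β r z)‖ :=
      rel hG.le (mul_nonneg h5.le Km2) c0 (H.hm2 i hk z hz01) wm2 hn0 E0 (by
        have h6 := mul_le_mul_of_nonneg_left O.Mm2 h5.le
        have e : A.Mm2 / N.a ^ 2 * (1 / 5) ^ i * N.c0 = ((1 / 5) ^ i * (A.Mm2 * N.c0)) / N.a ^ 2 := by field_simp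
        rw [e, le_div_iff₀ (by positivity)]
        linarith) (by positivity)
    have hD : hh b / TT b β r * ‖deriv (Xw b β aw n (-2 - i)) (wz b β r z) -
        ((3 + i) * sig (β * r) (tk b β r 0 z) - (2 + i) * sig (β * r) (tk b β r 1 z)) / β *
          Xw b β aw n (-2 - i) (wz b β r z)‖ ≤
        ((A.Qm2 + i * A.Qm3) / N.a ^ 2 * (1 / 5) ^ i -
          A.Mm2 / N.a ^ 2 * (1 / 5) ^ i * ((3 + i) * N.δ0 + (2 + i) * N.δ1)) * ‖Xw b β aw n 0 (wz b β r z)‖ :=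
      rel hG.le (mul_nonneg h5.le (by positivity)) c0 (H.mm2 i hk z hz) wm2 hn0 E0 (by
        have h6 := mul_le_mul_of_nonneg_left O.Qm2 h5.le
        have h7 := mul_le_mul_of_nonneg_left O.Qm3 (mul_nonneg h5.le hi)
        have e : ((A.Qm2 + i * A.Qm3) / N.a ^ 2 * (1 / 5) ^ i -
          A.Mm2 / N.a ^ 2 * (1 / 5) ^ i * ((3 + i) * N.δ0 + (2 + i) * N.δ1)) * N.c0 =
          ((1 / 5) ^ i * ((A.Qm2 - A.Mm2 * (3 * N.δ0 + 2 * N.δ1)) * N.c0) +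
            (1 / 5) ^ i * i * ((A.Qm3 - A.Mm2 * (N.δ0 + N.δ1)) * N.c0)) / N.a ^ 2 := by
          field_simp
          ring
        rw [e, le_div_iff₀ (by positivity)]
        linarith) (by positivity)
    have key := far_neg (X := Xw b β aw n) (w := wz b β r z) (k := -2 - i) (m := 2 + i) (by push_cast; ring) (a := N.a)
      (c := TT b β r / hh b) (δ0 := N.δ0) (δ1 := N.δ1) (Mx := A.Mm2 / N.a ^ 2 * (1 / 5) ^ i)
      (Qx := (A.Qm2 + i * A.Qm3) / N.a ^ 2 * (1 / 5) ^ i)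
      (s0 := sig (β * r) (tk b β r 0 z) / β) (s1 := sig (β * r) (tk b β r 1 z) / β) hc p0 p1 ha1 hs0' hs1' hX
      (by
        refine hD.trans (le_of_eq ?_)
        push_cast
        ring)
      (by
        refine le_trans (le_of_eq ?_) (conv le_rfl)
        congr 2
        push_cast
        ring)
    rw [Mk_m2, Qk_m2]
    have e1 : A.Mm2 / N.a ^ 2 * (1 / 5) ^ i * N.a ^ (2 + i) = A.Mm2 * (N.a / 5) ^ i := by
      rw [pow_add, div_pow, div_pow, one_pow]; field_simp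
    have e2 : TT b β r / hh b * ((A.Qm2 + i * A.Qm3) / N.a ^ 2 * (1 / 5) ^ i) * N.a ^ (2 + i) =
        TT b β r / hh b * ((A.Qm2 + i * A.Qm3) * (N.a / 5) ^ i) := by
      rw [pow_add, div_pow, div_pow, one_pow]; field_simp
    rw [e1, e2] at key
    exact key

end Sok.R2
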