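import Pool.Agent.Lib.MP_816dec_an.R2Defs

/-!
MP_816dec_an (row R2): the windows `Xw` at the points `wz` in terms of `AA`, `CC`, `RR`.
-/

set_option autoImplicit false

open Complex Set Filter Topology

namespace Sok.R2

theorem wz_re {b : ℕ} {β r z : ℝ} (k : ℤ) :
    (wz b β r z + 2 * Real.pi * k / b * I).re = Real.log r := by
  have e : (2 * Real.pi * k / b * I : ℂ) = ((2 * Real.pi * k / b : ℝ) : ℂ) * I := by push_cast; ring
  rw [e]
  unfold wz
  simp

theorem wz_im {b : ℕ} {β r z : ℝ} (k : ℤ) :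
    (wz b β r z + 2 * Real.pi * k / b * I).im - β / 2 = tk b β r k z := by
  have e : (2 * Real.pi * k / b * I : ℂ) = ((2 * Real.pi * k / b : ℝ) : ℂ) * I := by push_cast; ring
  rw [e]
  unfold wz tk hh
  simp
  ring

theorem wz_re' {b : ℕ} {β r z : ℝ} (k : ℤ) :
    (wz b β r z + β * I + 2 * Real.pi * k / b * I).re = Real.log r := by
  rw [add_right_comm]
  rw [Complex.add_re, wz_re]
  simp

theorem wz_im' {b : ℕ} {β r z : ℝ} (k : ℤ) :
    (wz b β r z + β * I + 2 * Real.pi * k / b * I).im - β / 2 = tk b β r k z + β := by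
  rw [add_right_comm, Complex.add_im]
  have h := wz_im (b := b) (β := β) (r := r) (z := z) k
  have e : ((β : ℂ) * I).im = β := by simp
  rw [e]
  linarith

section
variable {b : ℕ} {β r : ℝ} {aw : ℤ} {n : ℕ} {k : ℤ}

theorem Xw_A (hr : 0 < r) (h : aw + b ≤ k) (h' : k < aw + n * b) (z : ℝ) :
    Xw b β aw n k (wz b β r z) = AA β r (tk b β r k z) := by
  rw [Xw, XW_A h h', Aw, wz_re, wz_im, Real.exp_log hr]

theorem Xw_C (hr : 0 < r) (h : aw + b ≤ k) (h' : aw + n * b ≤ k) (z : ℝ) :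
    Xw b β aw n k (wz b β r z) = CC β r (tk b β r k z) := by
  rw [Xw, XW_C h h', Cw, wz_re, wz_im, Real.exp_log hr]

theorem Xw_R (hr : 0 < r) (h : k < aw + b) (z : ℝ) :
    Xw b β aw n k (wz b β r z) = RR β r (tk b β r k z) := by
  rw [Xw, XW_R h, Rw_eq_RR, wz_re, wz_im, Real.exp_log hr]

theorem exp_wz (hr : 0 < r) (z : ℝ) :
    cexp (wz b β r z + 2 * Real.pi * k / b * I) = ew β r (tk b β r k z) := by
  rw [← ew_eq β, wz_re, wz_im, Real.exp_log hr]

theorem Xw_A_mom (hβ : 0 < β) (hr : 0 < r) (h : aw + b ≤ k) (h' : k < aw + n * b) (z : ℝ) (L : ℂ) :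
    deriv (Xw b β aw n k) (wz b β r z) - L / β * Xw b β aw n k (wz b β r z) =
      ew β r (tk b β r k z) * AA β r (tk b β r k z + β) - L / β * AA β r (tk b β r k z) := by
  rw [Xw_A hr h h', Xw, (hasDerivAt_XW hβ b aw (aw + n * b) k _).deriv, exp_wz hr, XW_A h h', Aw, wz_re', wz_im',
    Real.exp_log hr]

theorem Xw_C_mom (hβ : 0 < β) (hr : 0 < r) (h : aw + b ≤ k) (h' : aw + n * b ≤ k) (z : ℝ) (L : ℂ) :
    deriv (Xw b β aw n k) (wz b β r z) - L / β * Xw b β aw n k (wz b β r z) =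
      ew β r (tk b β r k z) * CC β r (tk b β r k z + β) - L / β * CC β r (tk b β r k z) := by
  rw [Xw_C hr h h', Xw, (hasDerivAt_XW hβ b aw (aw + n * b) k _).deriv, exp_wz hr, XW_C h h', Cw, wz_re', wz_im',
    Real.exp_log hr]

theorem Xw_R_mom (hβ : 0 < β) (hr : 0 < r) (h : k < aw + b) (z : ℝ) (L : ℂ) :
    deriv (Xw b β aw n k) (wz b β r z) - L / β * Xw b β aw n k (wz b β r z) =
      ew β r (tk b β r k z) * RR β r (tk b β r k z + β) - L / β * RR β r (tk b β r k z) := by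
  rw [Xw_R hr h, Xw, (hasDerivAt_XW hβ b aw (aw + n * b) k _).deriv, exp_wz hr, XW_R h, Rw_eq_RR, wz_re', wz_im',
    Real.exp_log hr]

/-- the slope field from the moment form -/
theorem slope_of_mom {X D s : ℂ} {c δ : ℝ} (hX : X ≠ 0) (h : c * ‖D - s * X‖ ≤ δ * ‖X‖) : c * ‖D / X - s‖ ≤ δ := by
  have h1 : D / X - s = (D - s * X) / X := by field_simp
  have h2 : 0 < ‖X‖ := norm_pos_iff.2 hX
  rw [h1, norm_div, ← mul_div_assoc, div_le_iff₀ h2]
  exact h

end

end Sok.R2
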