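import Pool.Agent.Lib.MP_816dec_an.A0MomB
import Pool.Agent.Lib.MP_816dec_an.R2Bump

/-!
MP_816dec_an: sharp far bounds for the left windows function, valley point `π / 2` (row F of R2).
-/

set_option autoImplicit false

open Complex Set Filter Topology MeasureTheory

namespace Sok.R2

private theorem nonneg_of_deriv {f f' : ℝ → ℝ} {a x : ℝ} (hax : a ≤ x) (h : ∀ t, HasDerivAt f (f' t) t)
    (h0 : 0 ≤ f a) (h1 : ∀ t, a ≤ t → t ≤ x → 0 ≤ f' t) : 0 ≤ f x := by
  have hm : MonotoneOn f (Icc a x) := by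
    refine monotoneOn_of_deriv_nonneg (convex_Icc a x) (fun t _ => (h t).continuousAt.continuousWithinAt)
      (fun t _ => (h t).differentiableAt.differentiableWithinAt) fun t ht => ?_
    rw [interior_Icc] at ht
    rw [(h t).deriv]
    exact h1 t ht.1.le ht.2.le
  exact h0.trans (hm ⟨le_rfl, hax⟩ ⟨hax, le_rfl⟩ hax)

private theorem sin3 {x : ℝ} (hx : 0 ≤ x) : x - x ^ 3 / 6 ≤ Real.sin x := by
  rcases hx.eq_or_lt with h | h
  · rw [← h]; simp
  · exact (Real.sin_gt_sub_cube h).le

private theorem cos4 {x : ℝ} (hx : 0 ≤ x) : Real.cos x ≤ 1 - x ^ 2 / 2 + x ^ 4 / 24 := by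
  have h := nonneg_of_deriv (f := fun t => 1 - t ^ 2 / 2 + t ^ 4 / 24 - Real.cos t)
    (f' := fun t => -t + t ^ 3 / 6 + Real.sin t) hx ?_ (by simp) ?_
  · linarith
  · intro t
    have h1 := ((((hasDerivAt_pow 2 t).div_const 2).const_sub 1).add ((hasDerivAt_pow 4 t).div_const 24)).sub
      (Real.hasDerivAt_cos t)
    refine h1.congr_deriv ?_
    push_cast; ring
  · intro t ht _
    have := sin3 ht
    linarith

private theorem sin5 {x : ℝ} (hx : 0 ≤ x) : Real.sin x ≤ x - x ^ 3 / 6 + x ^ 5 / 120 := by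
  have h := nonneg_of_deriv (f := fun t => t - t ^ 3 / 6 + t ^ 5 / 120 - Real.sin t)
    (f' := fun t => 1 - t ^ 2 / 2 + t ^ 4 / 24 - Real.cos t) hx ?_ (by simp) ?_
  · linarith
  · intro t
    have h1 := (((hasDerivAt_id t).sub ((hasDerivAt_pow 3 t).div_const 6)).add ((hasDerivAt_pow 5 t).div_const 120)).sub
      (Real.hasDerivAt_sin t)
    refine h1.congr_deriv ?_
    push_cast; ring
  · intro t ht _
    have := cos4 ht
    linarith

private theorem cos6 {x : ℝ} (hx : 0 ≤ x) : 1 - x ^ 2 / 2 + x ^ 4 / 24 - x ^ 6 / 720 ≤ Real.cos x := by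
  have h := nonneg_of_deriv (f := fun t => Real.cos t - (1 - t ^ 2 / 2 + t ^ 4 / 24 - t ^ 6 / 720))
    (f' := fun t => t - t ^ 3 / 6 + t ^ 5 / 120 - Real.sin t) hx ?_ (by simp) ?_
  · linarith
  · intro t
    have h1 := (Real.hasDerivAt_cos t).sub (((((hasDerivAt_pow 2 t).div_const 2).const_sub 1).add
      ((hasDerivAt_pow 4 t).div_const 24)).sub ((hasDerivAt_pow 6 t).div_const 720))
    refine h1.congr_deriv ?_
    push_cast; ring
  · intro t ht _
    have := sin5 ht
    linarith

private theorem sin7 {x : ℝ} (hx : 0 ≤ x) : x - x ^ 3 / 6 + x ^ 5 / 120 - x ^ 7 / 5040 ≤ Real.sin x := by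
  have h := nonneg_of_deriv (f := fun t => Real.sin t - (t - t ^ 3 / 6 + t ^ 5 / 120 - t ^ 7 / 5040))
    (f' := fun t => Real.cos t - (1 - t ^ 2 / 2 + t ^ 4 / 24 - t ^ 6 / 720)) hx ?_ (by simp) ?_
  · linarith
  · intro t
    have h1 := (Real.hasDerivAt_sin t).sub ((((hasDerivAt_id t).sub ((hasDerivAt_pow 3 t).div_const 6)).add
      ((hasDerivAt_pow 5 t).div_const 120)).sub ((hasDerivAt_pow 7 t).div_const 5040))
    refine h1.congr_deriv ?_
    push_cast; ring
  · intro t ht _
    have := cos6 ht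
    linarith

private theorem cos8 {x : ℝ} (hx : 0 ≤ x) :
    Real.cos x ≤ 1 - x ^ 2 / 2 + x ^ 4 / 24 - x ^ 6 / 720 + x ^ 8 / 40320 := by
  have h := nonneg_of_deriv (f := fun t => 1 - t ^ 2 / 2 + t ^ 4 / 24 - t ^ 6 / 720 + t ^ 8 / 40320 - Real.cos t)
    (f' := fun t => Real.sin t - (t - t ^ 3 / 6 + t ^ 5 / 120 - t ^ 7 / 5040)) hx ?_ (by simp) ?_
  · linarith
  · intro t
    have h1 := (((((hasDerivAt_pow 2 t).div_const 2).const_sub 1).add
      ((hasDerivAt_pow 4 t).div_const 24)).sub ((hasDerivAt_pow 6 t).div_const 720)).add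
      ((hasDerivAt_pow 8 t).div_const 40320) |>.sub (Real.hasDerivAt_cos t)
    refine h1.congr_deriv ?_
    push_cast; ring
  · intro t ht _
    have := sin7 ht
    linarith

private theorem cos1 : 0.5402 ≤ Real.cos 1 ∧ Real.cos 1 ≤ 0.5404 := by
  have h1 := cos6 (x := 1) zero_le_one
  have h2 := cos8 (x := 1) zero_le_one
  constructor <;> norm_num at h1 h2 ⊢ <;> linarith

private theorem sin1 : 0.8414 ≤ Real.sin 1 ∧ Real.sin 1 ≤ 0.842 := by
  have h1 := sin7 (x := 1) zero_le_one
  have h2 := sin5 (x := 1) zero_le_one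
  constructor <;> norm_num at h1 h2 ⊢ <;> linarith

/-- decay rate of the right tail -/
noncomputable def nuR (a e : ℝ) : ℝ := 0.8414 * a - 0.4598 * e
/-- decay rate of the left tail -/
noncomputable def nuL (a e : ℝ) : ℝ := 0.8414 * a + 0.4596 * e
/-- start of the right tail -/
noncomputable def gR (a e : ℝ) : ℝ := 0.4596 * a - 0.1586 * e
/-- start of the left tail -/
noncomputable def gL (a e : ℝ) : ℝ := 0.4596 * a + 0.158 * e
/-- Gaussian constant on the right, `c * a` -/
noncomputable def caR (a e : ℝ) : ℝ := 11 / 12 * a - e / 3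

/-- value constant of the line -/
noncomputable def K0 (a e : ℝ) : ℝ :=
  (1 / 2 * Real.sqrt (2 * Real.pi / caR a e) + Real.exp (-gR a e) / nuR a e) +
  (1 / 2 * Real.sqrt (2 * Real.pi / (11 / 12 * a)) + Real.exp (-gL a e) / nuL a e)

/-- moment constant of the line -/
noncomputable def K1 (a e : ℝ) : ℝ :=
  (1 / caR a e + Real.exp (-gR a e) * (1 / nuR a e + 1 / nuR a e ^ 2)) +
  (1 / (11 / 12 * a) + Real.exp (-gL a e) * (1 / nuL a e + 1 / nuL a e ^ 2))

theorem nuL_pos {a e : ℝ} (ha : 0 < a) (he : 0 ≤ e) : 0 < nuL a e := by unfold nuL; linarith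

theorem K0_nonneg {a e : ℝ} (ha : 0 < a) (he : 0 ≤ e) (hν : 0 < nuR a e) : 0 ≤ K0 a e := by
  have := nuL_pos ha he
  unfold K0; positivity

theorem K1_nonneg {a e : ℝ} (ha : 0 < a) (he : 0 ≤ e) (hν : 0 < nuR a e) (hc : 0 < caR a e) : 0 ≤ K1 a e := by
  have := nuL_pos ha he
  unfold K1; positivity

/-- the exponent on a horizontal line -/
noncomputable def phF (β r v X : ℝ) : ℝ := X * v / β + r * Real.cos X * Real.exp (-v)

private theorem ph_a {β r v w : ℝ} (hβ : 0 < β) (hvw : β * r * Real.sin w = v * Real.exp v) :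
    r * Real.exp (-v) * Real.sin w = v / β := by
  rw [eq_div_iff hβ.ne']
  have h1 : Real.exp v * Real.exp (-v) = 1 := by rw [← Real.exp_add, add_neg_cancel, Real.exp_zero]
  calc r * Real.exp (-v) * Real.sin w * β = (β * r * Real.sin w) * Real.exp (-v) := by ring
    _ = v * (Real.exp v * Real.exp (-v)) := by rw [hvw]; ring
    _ = v := by rw [h1, mul_one]

private theorem ph_right {β r v w a : ℝ} (hβ : 0 < β) (hvw : β * r * Real.sin w = v * Real.exp v)
    (ha : a = r * (Real.exp (-v) * Real.cos w)) (u : ℝ) :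
    phF β r v (w + u) = (a + v / β * w) + (a * (Real.cos u - 1) + v / β * (u - Real.sin u)) := by
  have h1 := ph_a hβ hvw
  unfold phF
  rw [Real.cos_add, ← h1, ha]
  have e1 : (w + u) * v / β = (w + u) * (r * Real.exp (-v) * Real.sin w) := by rw [h1]; ring
  rw [e1]; ring

private theorem ph_left {β r v w a : ℝ} (hβ : 0 < β) (hvw : β * r * Real.sin w = v * Real.exp v)
    (ha : a = r * (Real.exp (-v) * Real.cos w)) (u : ℝ) :
    phF β r v (w - u) = (a + v / β * w) + (a * (Real.cos u - 1) - v / β * (u - Real.sin u)) := by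
  have h1 := ph_a hβ hvw
  unfold phF
  rw [Real.cos_sub, ← h1, ha]
  have e1 : (w - u) * v / β = (w - u) * (r * Real.exp (-v) * Real.sin w) := by rw [h1]; ring
  rw [e1]; ring

private theorem cen {u : ℝ} (h0 : 0 ≤ u) (h1 : u ≤ 1) : Real.cos u - 1 ≤ -(11 / 24 * u ^ 2) ∧
    0 ≤ u - Real.sin u ∧ u - Real.sin u ≤ u ^ 2 / 6 := by
  have h2 := cos4 h0
  have h3 := sin3 h0
  have h4 := Real.sin_le h0
  have h5 : u ^ 4 ≤ u ^ 2 := pow_le_pow_of_le_one h0 h1 (by norm_num)
  have h6 : u ^ 3 ≤ u ^ 2 := pow_le_pow_of_le_one h0 h1 (by norm_num)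
  refine ⟨by linarith, by linarith, by linarith⟩

theorem mid_int {β r v w a : ℝ} (hβ : 0 < β) (hr : 0 < r) (hv : 0 ≤ v) (hw : 0 ≤ w) (hw' : w < Real.pi / 2)
    (hvw : β * r * Real.sin w = v * Real.exp v) (ha : a = r * (Real.exp (-v) * Real.cos w))
    (hν : 0 < nuR a (v / β)) (hc : 0 < caR a (v / β)) {A B : ℝ} (hA : 0 ≤ A) (hB : 0 ≤ B) :
    ∫ X in (-(Real.pi / 2))..(Real.pi / 2), (A + B * |X - w|) * Real.exp (phF β r v X) ≤
      Real.exp (a + v / β * w) * (A * K0 a (v / β) + B * K1 a (v / β)) := by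
  have hpi := Real.pi_pos
  have ha0 : 0 < a := by
    rw [ha]
    have := Real.cos_pos_of_mem_Ioo ⟨by linarith, hw'⟩
    positivity
  obtain ⟨e, hed⟩ : ∃ e : ℝ, e = v / β := ⟨_, rfl⟩
  have he0 : 0 ≤ e := by rw [hed]; positivity
  have h1 := ph_a hβ hvw
  rw [← hed] at hν hc h1 ⊢
  have hphc : Continuous fun X : ℝ => phF β r v X := by unfold phF; fun_prop
  obtain ⟨c1, c1'⟩ := cos1
  obtain ⟨s1, s1'⟩ := sin1
  have hcf : Continuous fun X : ℝ => (A + B * |X - w|) * Real.exp (phF β r v X) := by fun_prop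
  have hre : 0 ≤ r * Real.exp (-v) := by positivity
  -- the right part
  have hR : ∫ X in w..(Real.pi / 2), (A + B * |X - w|) * Real.exp (phF β r v X) ≤
      Real.exp (a + e * w) * (A * (1 / 2 * Real.sqrt (2 * Real.pi / caR a e) + Real.exp (-gR a e) / nuR a e) +
        B * (1 / caR a e + Real.exp (-gR a e) * (1 / nuR a e + 1 / nuR a e ^ 2))) := by
    have e1 : ∫ X in w..(Real.pi / 2), (A + B * |X - w|) * Real.exp (phF β r v X) =
        ∫ u in (0 : ℝ)..(Real.pi / 2 - w), Real.exp (a + e * w) *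
          ((A + B * u) * Real.exp (a * (Real.cos u - 1) + e * (u - Real.sin u))) := by
      have h := intervalIntegral.integral_comp_add_left (a := 0) (b := Real.pi / 2 - w)
        (fun X : ℝ => (A + B * |X - w|) * Real.exp (phF β r v X)) w
      rw [add_zero, show w + (Real.pi / 2 - w) = Real.pi / 2 by ring] at h
      rw [← h]
      apply intervalIntegral.integral_congr
      intro u hu
      rw [uIcc_of_le (by linarith)] at hu
      show (A + B * |w + u - w|) * Real.exp (phF β r v (w + u)) = _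
      rw [show w + u - w = u by ring, abs_of_nonneg hu.1, ph_right hβ hvw ha, ← hed, Real.exp_add]
      ring
    rw [e1, intervalIntegral.integral_const_mul]
    apply mul_le_mul_of_nonneg_left _ (Real.exp_pos _).le
    refine half_int (G := fun u => a * (Real.cos u - 1) + e * (u - Real.sin u)) (by fun_prop) hc hν hA hB
      (by linarith) (fun u hu0 hu1 _ => ?_) (fun u hu1 hul => ?_)
    · obtain ⟨k1, k2, k3⟩ := cen hu0 hu1
      have k4 := mul_le_mul_of_nonneg_left k1 ha0.le
      have k5 := mul_le_mul_of_nonneg_left k3 he0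
      show a * (Real.cos u - 1) + e * (u - Real.sin u) ≤ -(caR a e / 2 * u ^ 2)
      unfold caR
      nlinarith
    · have k1 := cos_le_tangent (a := w + 1) (b := w + u) (by linarith) (by linarith) (by linarith) (by linarith)
      rw [show w + u - (w + 1) = u - 1 by ring] at k1
      have k2 := mul_le_mul_of_nonneg_left k1 hre
      have k3 : r * Real.exp (-v) * Real.cos (w + u) = a * Real.cos u - e * Real.sin u := by
        rw [Real.cos_add, ha, ← h1]; ring
      have k4 : r * Real.exp (-v) * (Real.cos (w + 1) - Real.sin (w + 1) * (u - 1)) =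
          a * Real.cos 1 - e * Real.sin 1 - (e * Real.cos 1 + a * Real.sin 1) * (u - 1) := by
        rw [Real.cos_add, Real.sin_add, ha, ← h1]; ring
      rw [k3, k4] at k2
      show a * (Real.cos u - 1) + e * (u - Real.sin u) ≤ -gR a e - nuR a e * (u - 1)
      unfold gR nuR
      have k5 : 0 ≤ u - 1 := by linarith
      have k6 : a * Real.cos 1 ≤ 0.5404 * a := by nlinarith
      have k7 : 0.8414 * e ≤ e * Real.sin 1 := by nlinarith
      have k8 : e * (0.5402 : ℝ) + a * 0.8414 ≤ e * Real.cos 1 + a * Real.sin 1 := by nlinarith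
      have k9 := mul_le_mul_of_nonneg_right k8 k5
      linarith
  have hL : ∫ X in (-(Real.pi / 2))..w, (A + B * |X - w|) * Real.exp (phF β r v X) ≤
      Real.exp (a + e * w) * (A * (1 / 2 * Real.sqrt (2 * Real.pi / (11 / 12 * a)) + Real.exp (-gL a e) / nuL a e) +
        B * (1 / (11 / 12 * a) + Real.exp (-gL a e) * (1 / nuL a e + 1 / nuL a e ^ 2))) := by
    have e1 : ∫ X in (-(Real.pi / 2))..w, (A + B * |X - w|) * Real.exp (phF β r v X) =
        ∫ u in (0 : ℝ)..(w + Real.pi / 2), Real.exp (a + e * w) *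
          ((A + B * u) * Real.exp (a * (Real.cos u - 1) - e * (u - Real.sin u))) := by
      have h := intervalIntegral.integral_comp_sub_left (a := 0) (b := w + Real.pi / 2)
        (fun X : ℝ => (A + B * |X - w|) * Real.exp (phF β r v X)) w
      rw [sub_zero, show w - (w + Real.pi / 2) = -(Real.pi / 2) by ring] at h
      rw [← h]
      apply intervalIntegral.integral_congr
      intro u hu
      rw [uIcc_of_le (by linarith)] at hu
      show (A + B * |w - u - w|) * Real.exp (phF β r v (w - u)) = _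
      rw [show w - u - w = -u by ring, abs_neg, abs_of_nonneg hu.1, ph_left hβ hvw ha, ← hed, Real.exp_add]
      ring
    rw [e1, intervalIntegral.integral_const_mul]
    apply mul_le_mul_of_nonneg_left _ (Real.exp_pos _).le
    refine half_int (G := fun u => a * (Real.cos u - 1) - e * (u - Real.sin u)) (by fun_prop)
      (by positivity) (nuL_pos ha0 he0) hA hB (by linarith) (fun u hu0 hu1 _ => ?_) (fun u hu1 hul => ?_)
    · obtain ⟨k1, k2, k3⟩ := cen hu0 hu1
      have k4 := mul_le_mul_of_nonneg_left k1 ha0.le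
      have k5 := mul_nonneg he0 k2
      show a * (Real.cos u - 1) - e * (u - Real.sin u) ≤ -(11 / 12 * a / 2 * u ^ 2)
      nlinarith
    · have k1 := cos_le_tangent (a := w - 1) (b := w - u) (by linarith) (by linarith) (by linarith) (by linarith)
      rw [show w - u - (w - 1) = -(u - 1) by ring] at k1
      have k2 := mul_le_mul_of_nonneg_left k1 hre
      have k3 : r * Real.exp (-v) * Real.cos (w - u) = a * Real.cos u + e * Real.sin u := by
        rw [Real.cos_sub, ha, ← h1]; ring
      have k4 : r * Real.exp (-v) * (Real.cos (w - 1) - Real.sin (w - 1) * -(u - 1)) =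
          a * Real.cos 1 + e * Real.sin 1 + (e * Real.cos 1 - a * Real.sin 1) * (u - 1) := by
        rw [Real.cos_sub, Real.sin_sub, ha, ← h1]; ring
      rw [k3, k4] at k2
      show a * (Real.cos u - 1) - e * (u - Real.sin u) ≤ -gL a e - nuL a e * (u - 1)
      unfold gL nuL
      have k5 : 0 ≤ u - 1 := by linarith
      have k6 : a * Real.cos 1 ≤ 0.5404 * a := by nlinarith
      have k7 : e * Real.sin 1 ≤ 0.842 * e := by nlinarith
      have k8 : e * Real.cos 1 - a * Real.sin 1 ≤ e * 0.5404 - a * 0.8414 := by nlinarith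
      have k9 := mul_le_mul_of_nonneg_right k8 k5
      linarith
  rw [← intervalIntegral.integral_add_adjacent_intervals (hcf.intervalIntegrable (-(Real.pi / 2)) w)
    (hcf.intervalIntegrable w (Real.pi / 2))]
  have e5 : Real.exp (a + e * w) * (A * K0 a e + B * K1 a e) =
      Real.exp (a + e * w) * (A * (1 / 2 * Real.sqrt (2 * Real.pi / caR a e) + Real.exp (-gR a e) / nuR a e) +
        B * (1 / caR a e + Real.exp (-gR a e) * (1 / nuR a e + 1 / nuR a e ^ 2))) +
      Real.exp (a + e * w) * (A * (1 / 2 * Real.sqrt (2 * Real.pi / (11 / 12 * a)) + Real.exp (-gL a e) / nuL a e) +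
        B * (1 / (11 / 12 * a) + Real.exp (-gL a e) * (1 / nuL a e + 1 / nuL a e ^ 2))) := by
    unfold K0 K1; ring
  rw [e5]
  linarith

end Sok.R2
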