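import Pool.Agent.Lib.MP_816dec_an.R2FarC

/-!
MP_816dec_an (row R2): sharp line bounds for the windows of type `A` (any sign of the height), and of type `R`.
A line of height `v < 0` is the reflection `X ↦ -X` of a line of height `-v`, with `r` replaced by `r e^{-2v}`.
-/

set_option autoImplicit false

open Complex Set Filter Topology MeasureTheory

namespace Sok.R2

/-- sign condition of height and saddle angle -/
def Sgn (v w : ℝ) : Prop := (0 ≤ v ∧ 0 ≤ w ∧ w < Real.pi / 2) ∨ (v ≤ 0 ∧ w ≤ 0 ∧ -(Real.pi / 2) < w)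

theorem mg_flip (β r t X v : ℝ) : mg β r t (-X) v = mg β (r * Real.exp (-(2 * v))) (-t) X (-v) := by
  unfold mg
  rw [Real.cos_neg]
  have e1 : Real.exp (-(2 * v)) * Real.exp (- -v) = Real.exp (-v) := by rw [← Real.exp_add]; congr 1; ring
  congr 1
  calc (-X - t) * v / β + r * Real.cos X * Real.exp (-v) =
      (X - -t) * -v / β + r * Real.cos X * (Real.exp (-(2 * v)) * Real.exp (- -v)) := by rw [e1]; ring
    _ = _ := by ring

theorem Hor_flip (β r t a b v : ℝ) : Hor β r t a b v = Hor β (r * Real.exp (-(2 * v))) (-t) (-b) (-a) (-v) := by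
  unfold Hor
  have h := intervalIntegral.integral_comp_neg (a := -b) (b := -a) (fun X : ℝ => mg β r t X v)
  rw [neg_neg, neg_neg] at h
  rw [← h]
  congr 1
  funext X
  exact mg_flip β r t X v

theorem HorW_flip (β r t a b v w d : ℝ) :
    HorW β r t a b v w d = HorW β (r * Real.exp (-(2 * v))) (-t) (-b) (-a) (-v) (-w) d := by
  unfold HorW
  have h := intervalIntegral.integral_comp_neg (a := -b) (b := -a) (fun X : ℝ => (|X - w| + d) * mg β r t X v)
  rw [neg_neg, neg_neg] at h
  rw [← h]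
  congr 1
  funext X
  show (|-X - w| + d) * mg β r t (-X) v = _
  rw [mg_flip]
  have e : -X - w = -(X - -w) := by ring
  rw [e, abs_neg]

theorem outB_flip (β r v : ℝ) : outB β (r * Real.exp (-(2 * v))) (-v) = outB β r v := by
  unfold outB
  have e1 : r * Real.exp (-(2 * v)) * Real.exp (- -v) = r * Real.exp (-v) := by
    rw [mul_assoc, ← Real.exp_add]; congr 2; ring
  rw [abs_neg, e1]

theorem zP_flip (β r v a w : ℝ) : zP β (r * Real.exp (-(2 * v))) (-v) a (-w) = zP β r v a w := by
  unfold zP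
  rw [outB_flip]
  congr 3
  ring

private theorem mg_ph' (β r t X v : ℝ) : mg β r t X v = Real.exp (-(t * v / β)) * Real.exp (phF β r v X) := by
  unfold mg phF
  rw [← Real.exp_add]
  congr 1
  ring

private theorem Ebase' {β t v w a : ℝ} : Real.exp (-(t * v / β)) * Real.exp (a + v / β * w) =
    Real.exp (a + v / β * (w - t)) := by
  rw [← Real.exp_add]
  congr 1
  ring

/-- weighted period `[-π, π]`, `v ≥ 0` -/
private theorem per_pos {β r t v w a A B : ℝ} (hβ : 0 < β) (hr : 0 < r) (hv : 0 ≤ v) (hw : 0 ≤ w) (hw' : w < Real.pi / 2)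
    (hvw : β * r * Real.sin w = v * Real.exp v) (ha : a = r * (Real.exp (-v) * Real.cos w))
    (hν : 0 < nuR a (v / β)) (hc : 0 < caR a (v / β)) (hA : 0 ≤ A) (hB : 0 ≤ B) :
    ∫ X in (-Real.pi)..Real.pi, (A + B * |X - w|) * mg β r t X v ≤
      Real.exp (a + v / β * (w - t)) * (A * K0 a (v / β) + B * K1 a (v / β) +
        (A + B * (Real.pi + w)) * zP β r v a w) := by
  have hpi := Real.pi_pos
  have hphc : Continuous fun X : ℝ => phF β r v X := by unfold phF; fun_prop
  have hcf : Continuous fun X : ℝ => (A + B * |X - w|) * Real.exp (phF β r v X) := by fun_prop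
  have e0 : ∫ X in (-Real.pi)..Real.pi, (A + B * |X - w|) * mg β r t X v =
      Real.exp (-(t * v / β)) * ∫ X in (-Real.pi)..Real.pi,
        (A + B * |X - w|) * Real.exp (phF β r v X) := by
    rw [← intervalIntegral.integral_const_mul]
    congr 1
    funext X
    rw [mg_ph']
    ring
  have h1 := mid_int hβ hr hv hw hw' hvw ha hν hc hA hB
  have hcst : ∀ X : ℝ, -Real.pi ≤ X → X ≤ Real.pi → A + B * |X - w| ≤ A + B * (Real.pi + w) := by
    intro X hX hX'
    have k1 : |X - w| ≤ Real.pi + w := by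
      rw [abs_le]; constructor <;> linarith
    have := mul_le_mul_of_nonneg_left k1 hB
    linarith
  have hc1 : Continuous fun X : ℝ => (A + B * (Real.pi + w)) * Real.exp (phF β r v X) := by fun_prop
  have hwt : 0 ≤ A + B * (Real.pi + w) := by positivity
  have h2 : (∫ X in (-Real.pi)..(-(Real.pi / 2)), (A + B * |X - w|) * Real.exp (phF β r v X)) +
      (∫ X in (Real.pi / 2)..Real.pi, (A + B * |X - w|) * Real.exp (phF β r v X)) ≤
      Real.exp (a + v / β * w) * ((A + B * (Real.pi + w)) * zP β r v a w) := by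
    have i1 : ∫ X in (-Real.pi)..(-(Real.pi / 2)), (A + B * |X - w|) * Real.exp (phF β r v X) ≤
        (A + B * (Real.pi + w)) * ∫ X in (-Real.pi)..(-(Real.pi / 2)), Real.exp (phF β r v X) := by
      rw [← intervalIntegral.integral_const_mul]
      refine intervalIntegral.integral_mono_on (by linarith) (hcf.intervalIntegrable _ _)
        (hc1.intervalIntegrable _ _) ?_
      intro X hX
      exact mul_le_mul_of_nonneg_right (hcst X hX.1 (by linarith [hX.2])) (Real.exp_pos _).le
    have i2 : ∫ X in (Real.pi / 2)..Real.pi, (A + B * |X - w|) * Real.exp (phF β r v X) ≤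
        (A + B * (Real.pi + w)) * ∫ X in (Real.pi / 2)..Real.pi, Real.exp (phF β r v X) := by
      rw [← intervalIntegral.integral_const_mul]
      refine intervalIntegral.integral_mono_on (by linarith) (hcf.intervalIntegrable _ _)
        (hc1.intervalIntegrable _ _) ?_
      intro X hX
      exact mul_le_mul_of_nonneg_right (hcst X (by linarith [hX.1]) hX.2) (Real.exp_pos _).le
    have i3 := out_int (β := β) (r := r) (v := v) hβ hr.le
    have i4 := mul_le_mul_of_nonneg_left i3 hwt
    have e3 : Real.exp (a + v / β * w) * Real.exp (-(a + v / β * w)) = 1 := by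
      rw [← Real.exp_add, add_neg_cancel, Real.exp_zero]
    have e4 : Real.exp (a + v / β * w) * ((A + B * (Real.pi + w)) * zP β r v a w) =
        (A + B * (Real.pi + w)) * outB β r v := by
      unfold zP
      calc Real.exp (a + v / β * w) * ((A + B * (Real.pi + w)) * (outB β r v * Real.exp (-(a + v / β * w)))) =
          (Real.exp (a + v / β * w) * Real.exp (-(a + v / β * w))) * ((A + B * (Real.pi + w)) * outB β r v) := by ring
        _ = _ := by rw [e3, one_mul]
    rw [e4]
    refine le_trans (add_le_add i1 i2) (le_trans (le_of_eq ?_) i4)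
    unfold phF
    ring
  rw [e0, ← intervalIntegral.integral_add_adjacent_intervals
    (hcf.intervalIntegrable (-Real.pi) (Real.pi / 2)) (hcf.intervalIntegrable (Real.pi / 2) Real.pi),
    ← intervalIntegral.integral_add_adjacent_intervals
    (hcf.intervalIntegrable (-Real.pi) (-(Real.pi / 2))) (hcf.intervalIntegrable (-(Real.pi / 2)) (Real.pi / 2))]
  have h3 : (∫ X in (-Real.pi)..(-(Real.pi / 2)), (A + B * |X - w|) * Real.exp (phF β r v X)) +
      (∫ X in (-(Real.pi / 2))..(Real.pi / 2), (A + B * |X - w|) * Real.exp (phF β r v X)) +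
      (∫ X in (Real.pi / 2)..Real.pi, (A + B * |X - w|) * Real.exp (phF β r v X)) ≤
      Real.exp (a + v / β * w) * (A * K0 a (v / β) + B * K1 a (v / β) + (A + B * (Real.pi + w)) * zP β r v a w) := by
    linarith
  have h4 := mul_le_mul_of_nonneg_left h3 (Real.exp_pos (-(t * v / β))).le
  rw [← mul_assoc, Ebase'] at h4
  exact h4

private theorem hor_eq' (β r t a b v w : ℝ) : Hor β r t a b v = ∫ X in a..b, (1 + 0 * |X - w|) * mg β r t X v := by
  unfold Hor
  congr 1
  funext X
  ring

private theorem horW_eq' (β r t a b v w d : ℝ) : HorW β r t a b v w d = ∫ X in a..b, (d + 1 * |X - w|) * mg β r t X v := by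
  unfold HorW
  congr 1
  funext X
  ring

/-- data of a reflected line -/
private theorem flip_data {β r v w a : ℝ} (hr : 0 < r) (hvw : β * r * Real.sin w = v * Real.exp v)
    (ha : a = r * (Real.exp (-v) * Real.cos w)) :
    0 < r * Real.exp (-(2 * v)) ∧ β * (r * Real.exp (-(2 * v))) * Real.sin (-w) = -v * Real.exp (-v) ∧
      a = r * Real.exp (-(2 * v)) * (Real.exp (- -v) * Real.cos (-w)) := by
  have e1 : Real.exp (-(2 * v)) * Real.exp (- -v) = Real.exp (-v) := by rw [← Real.exp_add]; congr 1; ring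
  have e2 : Real.exp v * Real.exp (-(2 * v)) = Real.exp (-v) := by rw [← Real.exp_add]; congr 1; ring
  refine ⟨by positivity, ?_, ?_⟩
  · rw [Real.sin_neg]
    calc β * (r * Real.exp (-(2 * v))) * -Real.sin w = -(β * r * Real.sin w) * Real.exp (-(2 * v)) := by ring
      _ = -v * (Real.exp v * Real.exp (-(2 * v))) := by rw [hvw]; ring
      _ = _ := by rw [e2]
  · rw [Real.cos_neg, ha, ← e1]; ring

/-- **one period**, value, any sign of the height -/
theorem Hor_per {β r t v w a : ℝ} (hβ : 0 < β) (hr : 0 < r) (hs : Sgn v w)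
    (hvw : β * r * Real.sin w = v * Real.exp v) (ha : a = r * (Real.exp (-v) * Real.cos w))
    (hν : 0 < nuR a (|v| / β)) (hc : 0 < caR a (|v| / β)) :
    Hor β r t (-Real.pi) Real.pi v ≤
      Real.exp (a + v / β * (w - t)) * (K0 a (|v| / β) + zP β r v a w) := by
  rcases hs with ⟨hv, hw, hw'⟩ | ⟨hv, hw, hw'⟩
  · rw [abs_of_nonneg hv] at hν hc ⊢
    have h := per_pos (t := t) hβ hr hv hw hw' hvw ha hν hc zero_le_one le_rfl
    rw [← hor_eq'] at h
    refine h.trans (le_of_eq ?_)
    ring
  · rw [abs_of_nonpos hv] at hν hc ⊢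
    obtain ⟨f1, f2, f3⟩ := flip_data hr hvw ha
    have h := per_pos (t := -t) hβ f1 (by linarith : 0 ≤ -v) (by linarith : 0 ≤ -w) (by linarith) f2 f3
      hν hc zero_le_one le_rfl
    rw [← hor_eq'] at h
    rw [Hor_flip, neg_neg]
    refine h.trans (le_of_eq ?_)
    rw [zP_flip]
    have e : a + -v / β * (-w - -t) = a + v / β * (w - t) := by ring
    rw [e]
    ring

/-- **one period**, first moment, any sign of the height -/
theorem HorW_per {β r t v w a d : ℝ} (hβ : 0 < β) (hr : 0 < r) (hs : Sgn v w)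
    (hvw : β * r * Real.sin w = v * Real.exp v) (ha : a = r * (Real.exp (-v) * Real.cos w))
    (hν : 0 < nuR a (|v| / β)) (hc : 0 < caR a (|v| / β)) (hd : 0 ≤ d) :
    HorW β r t (-Real.pi) Real.pi v w d ≤
      Real.exp (a + v / β * (w - t)) * (d * K0 a (|v| / β) + K1 a (|v| / β) +
        (d + (Real.pi + |w|)) * zP β r v a w) := by
  rcases hs with ⟨hv, hw, hw'⟩ | ⟨hv, hw, hw'⟩
  · rw [abs_of_nonneg hv] at hν hc ⊢
    rw [abs_of_nonneg hw]
    have h := per_pos (t := t) hβ hr hv hw hw' hvw ha hν hc hd zero_le_one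
    rw [← horW_eq'] at h
    refine h.trans (le_of_eq ?_)
    ring
  · rw [abs_of_nonpos hv] at hν hc ⊢
    rw [abs_of_nonpos hw]
    obtain ⟨f1, f2, f3⟩ := flip_data hr hvw ha
    have h := per_pos (t := -t) hβ f1 (by linarith : 0 ≤ -v) (by linarith : 0 ≤ -w) (by linarith) f2 f3
      hν hc hd zero_le_one
    rw [← horW_eq'] at h
    rw [HorW_flip, neg_neg]
    refine h.trans (le_of_eq ?_)
    rw [zP_flip]
    have e : a + -v / β * (-w - -t) = a + v / β * (w - t) := by ring
    rw [e]
    ring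

private theorem inV0 (t : ℝ) : InV t 0 Real.pi := by
  have := inV_center t 0
  simpa using this

private theorem inVm (t : ℝ) : InV t (-1) (-Real.pi) := by
  have := inV_center t (-1)
  have e1 : (2 * ((-1 : ℤ) : ℝ) + 1) * Real.pi = -Real.pi := by push_cast; ring
  rwa [e1] at this

/-- **value of a window of type `A`** on a line, legs left open -/
theorem AA_line {β r t v w a : ℝ} (hβ : 0 < β) (hr : 0 < r) (hs : Sgn v w)
    (hvw : β * r * Real.sin w = v * Real.exp v) (ha : a = r * (Real.exp (-v) * Real.cos w))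
    (hν : 0 < nuR a (|v| / β)) (hc : 0 < caR a (|v| / β)) :
    ‖AA β r t‖ ≤ (Real.sqrt (2 * Real.pi * β))⁻¹ *
      (Real.exp (a + v / β * (w - t)) * (K0 a (|v| / β) + zP β r v a w) +
        Leg β r t (-Real.pi) v + Leg β r t Real.pi v) := by
  have hpi := Real.pi_pos
  refine (norm_AA_path hβ hr (inVm t) (inV0 t) (by linarith) v).trans ?_
  apply mul_le_mul_of_nonneg_left _ (by positivity)
  have h := Hor_per (t := t) hβ hr hs hvw ha hν hc
  linarith

/-- **first moment of a window of type `A`** on a line -/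
theorem AA_line_mom {β r t v w a d B₀ B₁ : ℝ} (hβ : 0 < β) (hr : 0 < r) (hs : Sgn v w)
    (hvw : β * r * Real.sin w = v * Real.exp v) (ha : a = r * (Real.exp (-v) * Real.cos w))
    (hν : 0 < nuR a (|v| / β)) (hc : 0 < caR a (|v| / β)) (L : ℂ)
    (hd : |w - t - L.re| + |v - L.im| ≤ d)
    (h0 : ∀ y ≤ v, LegW β r t Real.pi y v (|Real.pi - w| + d) ≤ B₀)
    (h1 : ∀ y ≤ v, LegW β r t (-Real.pi) y v (|-Real.pi - w| + d) ≤ B₁) :
    ‖ew β r t * AA β r (t + β) - L / β * AA β r t‖ ≤ (Real.sqrt (2 * Real.pi * β))⁻¹ *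
      (β⁻¹ * (Real.exp (a + v / β * (w - t)) * (d * K0 a (|v| / β) + K1 a (|v| / β) +
        (d + (Real.pi + |w|)) * zP β r v a w) + B₀ + B₁)) := by
  have hd0 : 0 ≤ d := le_trans (by positivity) hd
  refine (norm_AA_mom hβ hr L v w hd h0 h1).trans ?_
  have h2 := HorW_per (t := t) hβ hr hs hvw ha hν hc hd0
  have h3 : 0 ≤ β⁻¹ := inv_nonneg.2 hβ.le
  apply mul_le_mul_of_nonneg_left _ (by positivity)
  apply mul_le_mul_of_nonneg_left _ h3
  linarith

/-- **value of a window of type `R`**, height `v < 0`, leg left open -/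
theorem RR_line {β r t v w a : ℝ} (hβ : 0 < β) (hr : 0 < r) (hv : v < 0) (hw : w ≤ 0) (hw' : -(Real.pi / 2) < w)
    (hvw : β * r * Real.sin w = v * Real.exp v) (ha : a = r * (Real.exp (-v) * Real.cos w))
    (hν : 0 < nuR a (|v| / β)) (hc : 0 < caR a (|v| / β)) :
    ‖RR β r t‖ ≤ (Real.sqrt (2 * Real.pi * β))⁻¹ *
      (Real.exp (a + v / β * (w - t)) * (K0 a (|v| / β) + zP β r v a w) / (1 - Real.exp (2 * Real.pi * v / β)) +
        Leg β r t (-Real.pi) v) := by
  have hpi := Real.pi_pos
  refine (norm_RR_path hβ hr (inVm t) hv).trans ?_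
  apply mul_le_mul_of_nonneg_left _ (by positivity)
  have h := Hor_per (t := t) hβ hr (Or.inr ⟨hv.le, hw, hw'⟩) hvw ha hν hc
  rw [Hor_full] at h
  rw [HorR_full hβ hr.le hv]
  have h5 : Real.exp (2 * Real.pi * v / β) < 1 := Real.exp_lt_one_iff.2 (by
    exact div_neg_of_neg_of_pos (mul_neg_of_pos_of_neg (by positivity) hv) hβ)
  have h6 := div_le_div_of_nonneg_right h (by linarith : 0 ≤ 1 - Real.exp (2 * Real.pi * v / β))
  linarith

/-- **first moment of a window of type `R`**, height `v < 0` -/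
theorem RR_line_mom {β r t v w a d B₁ : ℝ} (hβ : 0 < β) (hr : 0 < r) (hv : v < 0) (hw : w ≤ 0) (hw' : -(Real.pi / 2) < w)
    (hvw : β * r * Real.sin w = v * Real.exp v) (ha : a = r * (Real.exp (-v) * Real.cos w))
    (hν : 0 < nuR a (|v| / β)) (hc : 0 < caR a (|v| / β)) (L : ℂ)
    (hd : |w - t - L.re| + |v - L.im| ≤ d)
    (h1 : ∀ y ≤ v, LegW β r t (-Real.pi) y v (|-Real.pi - w| + d) ≤ B₁) :
    ‖ew β r t * RR β r (t + β) - L / β * RR β r t‖ ≤ (Real.sqrt (2 * Real.pi * β))⁻¹ *
      (β⁻¹ * (Real.exp (a + v / β * (w - t)) * ((d * K0 a (|v| / β) + K1 a (|v| / β) +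
        (d + (Real.pi + |w|)) * zP β r v a w) / (1 - Real.exp (2 * Real.pi * v / β)) +
        2 * Real.pi * Real.exp (2 * Real.pi * v / β) * (K0 a (|v| / β) + zP β r v a w) /
          (1 - Real.exp (2 * Real.pi * v / β)) ^ 2) + B₁)) := by
  have hd0 : 0 ≤ d := le_trans (by positivity) hd
  have hs : Sgn v w := Or.inr ⟨hv.le, hw, hw'⟩
  have h2 := Hor_per (t := t) hβ hr hs hvw ha hν hc
  have h3 := HorW_per (t := t) hβ hr hs hvw ha hν hc hd0
  obtain ⟨f1, -, -⟩ := flip_data hr hvw ha
  have key : ∀ b, -Real.pi ≤ b → HorW β r t (-Real.pi) b v w d ≤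
      Real.exp (a + v / β * (w - t)) * ((d * K0 a (|v| / β) + K1 a (|v| / β) +
        (d + (Real.pi + |w|)) * zP β r v a w) / (1 - Real.exp (2 * Real.pi * v / β)) +
        2 * Real.pi * Real.exp (2 * Real.pi * v / β) * (K0 a (|v| / β) + zP β r v a w) /
          (1 - Real.exp (2 * Real.pi * v / β)) ^ 2) := by
    intro b _
    rw [Hor_flip, neg_neg] at h2
    rw [HorW_flip, neg_neg] at h3 ⊢
    have e0 : -Real.pi = Real.pi - 2 * Real.pi := by ring
    rw [e0] at h2 h3
    have h4 := HorW_ray (S := Real.pi) hβ f1 (by linarith : 0 < -v) hd0 h2 h3 (-b)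
    have e1 : -(2 * Real.pi * -v / β) = 2 * Real.pi * v / β := by ring
    rw [e1] at h4
    refine h4.trans (le_of_eq ?_)
    ring
  refine (norm_RR_mom hβ hr L hv w hd h1 key).trans (le_of_eq rfl)

end Sok.R2
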