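import Pool.Agent.Lib.MP_816dec_an.A0MomB

/-!
MP_816dec_an: periodic resummation of a horizontal ray ending at any point `S`, and the moment bound of the
left function with any valley point `S` (row F of R2).
-/

set_option autoImplicit false

open Complex Set Filter Topology MeasureTheory

namespace Sok.R2

private theorem mg_shiftS (β r t X v : ℝ) :
    mg β r t (X - 2 * Real.pi) v = Real.exp (-(2 * Real.pi * v / β)) * mg β r t X v := by
  unfold mg
  rw [Real.cos_sub_two_pi, ← Real.exp_add]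
  congr 1
  ring

private theorem mg_intS {β r t v : ℝ} (hβ : 0 < β) (hr : 0 ≤ r) (hv : 0 < v) (b : ℝ) :
    IntegrableOn (fun X : ℝ => mg β r t X v) (Iic b) := by
  have h := (gs_int_left (t := t) hβ hr hv b).norm
  simp only [norm_gs_mg] at h
  exact h

private theorem q_lt {β v : ℝ} (hβ : 0 < β) (hv : 0 < v) : Real.exp (-(2 * Real.pi * v / β)) < 1 := by
  refine Real.exp_lt_one_iff.2 ?_
  have := Real.pi_pos
  have : 0 < 2 * Real.pi * v / β := by positivity
  linarith

/-- the ray `(-∞, S]` from one period -/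
theorem HorL_ray {β r t v S H : ℝ} (hβ : 0 < β) (hr : 0 ≤ r) (hv : 0 < v)
    (h : Hor β r t (S - 2 * Real.pi) S v ≤ H) :
    HorL β r t S v ≤ H / (1 - Real.exp (-(2 * Real.pi * v / β))) := by
  have hpi := Real.pi_pos
  have h1 : HorL β r t S v = HorL β r t (S - 2 * Real.pi) v + Hor β r t (S - 2 * Real.pi) S v := by
    unfold HorL Hor
    have h2 := intervalIntegral.integral_Iic_sub_Iic (mg_intS (t := t) hβ hr hv (S - 2 * Real.pi))
      (mg_intS (t := t) hβ hr hv S)
    linarith
  have h3 : HorL β r t (S - 2 * Real.pi) v = Real.exp (-(2 * Real.pi * v / β)) * HorL β r t S v := by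
    unfold HorL
    rw [← integral_const_mul]
    have h4 := (measurePreserving_sub_right (volume : Measure ℝ) (2 * Real.pi)).setIntegral_preimage_emb
      (measurableEmbedding_subRight (2 * Real.pi)) (fun X => mg β r t X v) (Iic (S - 2 * Real.pi))
    have e1 : (fun x : ℝ => x - 2 * Real.pi) ⁻¹' (Iic (S - 2 * Real.pi)) = Iic S := by
      ext x
      simp only [mem_preimage, mem_Iic]
      constructor <;> intro h <;> linarith
    rw [e1] at h4
    rw [← h4]
    simp only [mg_shiftS]
  have h5 := q_lt hβ hv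
  rw [le_div_iff₀ (by linarith)]
  nlinarith

private theorem HorW_contS (β r t v w d : ℝ) : Continuous fun X : ℝ => (|X - w| + d) * mg β r t X v := by
  have := continuous_mg_X β r t v
  fun_prop

private theorem Hor_le_HorLS {β r t v S : ℝ} (hβ : 0 < β) (hr : 0 ≤ r) (hv : 0 < v) {a : ℝ} (ha : a ≤ S) :
    Hor β r t a S v ≤ HorL β r t S v := by
  have hi := mg_intS (t := t) hβ hr hv S
  have h2 := intervalIntegral.integral_Iic_sub_Iic (hi.mono_set (Iic_subset_Iic.2 ha)) hi
  have h3 := HorL_nonneg β r t a v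
  unfold Hor HorL at *
  linarith

/-- the weighted ray from one period -/
theorem HorW_ray {β r t v w d S H₀ H₁ : ℝ} (hβ : 0 < β) (hr : 0 < r) (hv : 0 < v) (hd : 0 ≤ d)
    (h0 : Hor β r t (S - 2 * Real.pi) S v ≤ H₀) (h1 : HorW β r t (S - 2 * Real.pi) S v w d ≤ H₁) (a : ℝ) :
    HorW β r t a S v w d ≤ H₁ / (1 - Real.exp (-(2 * Real.pi * v / β))) +
        2 * Real.pi * Real.exp (-(2 * Real.pi * v / β)) * H₀ / (1 - Real.exp (-(2 * Real.pi * v / β))) ^ 2 := by
  have hpi := Real.pi_pos
  obtain ⟨q, hq⟩ : ∃ q : ℝ, q = Real.exp (-(2 * Real.pi * v / β)) := ⟨_, rfl⟩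
  have hq0 : 0 < q := by rw [hq]; exact Real.exp_pos _
  have hq1 : q < 1 := by rw [hq]; exact q_lt hβ hv
  obtain ⟨G, hG⟩ : ∃ G : ℝ, G = H₀ / (1 - q) := ⟨_, rfl⟩
  have hGb : ∀ a ≤ S, Hor β r t a S v ≤ G := by
    intro a ha
    rw [hG, hq]
    exact (Hor_le_HorLS hβ hr.le hv ha).trans (HorL_ray hβ hr.le hv h0)
  obtain ⟨J, hJ⟩ : ∃ J : ℝ, J = (H₁ + 2 * Real.pi * q * G) / (1 - q) := ⟨_, rfl⟩
  have hG0 : 0 ≤ G := by
    have := hGb S le_rfl
    unfold Hor at this
    rw [intervalIntegral.integral_same] at this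
    exact this
  have hH1 : 0 ≤ H₁ := by
    refine le_trans ?_ h1
    unfold HorW
    refine intervalIntegral.integral_nonneg (by linarith) (fun X _ => ?_)
    have := (mg_pos β r t X v).le
    positivity
  have hJ0 : 0 ≤ J := by
    rw [hJ]
    apply div_nonneg _ (by linarith)
    positivity
  have hJe : J = H₁ + q * (J + 2 * Real.pi * G) := by
    rw [hJ]
    have : 1 - q ≠ 0 := by linarith
    field_simp
    ring
  have hind : ∀ n : ℕ, HorW β r t (S - 2 * Real.pi * n) S v w d ≤ J := by
    intro n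
    induction n with
    | zero =>
      unfold HorW
      simpa using hJ0
    | succ n ih =>
      have hc := HorW_contS β r t v w d
      have e1 : HorW β r t (S - 2 * Real.pi * ((n + 1 : ℕ) : ℝ)) S v w d =
          HorW β r t (S - 2 * Real.pi * ((n + 1 : ℕ) : ℝ)) (S - 2 * Real.pi) v w d +
          HorW β r t (S - 2 * Real.pi) S v w d := by
        unfold HorW
        rw [intervalIntegral.integral_add_adjacent_intervals (hc.intervalIntegrable _ _) (hc.intervalIntegrable _ _)]
      have hle : S - 2 * Real.pi * n ≤ S := by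
        have : (0 : ℝ) ≤ n := Nat.cast_nonneg n
        nlinarith
      have e2 : HorW β r t (S - 2 * Real.pi * ((n + 1 : ℕ) : ℝ)) (S - 2 * Real.pi) v w d ≤
          q * (HorW β r t (S - 2 * Real.pi * n) S v w d +
            2 * Real.pi * Hor β r t (S - 2 * Real.pi * n) S v) := by
        have f1 : HorW β r t (S - 2 * Real.pi * ((n + 1 : ℕ) : ℝ)) (S - 2 * Real.pi) v w d =
            ∫ X in (S - 2 * Real.pi * n)..S,
              (|X - 2 * Real.pi - w| + d) * mg β r t (X - 2 * Real.pi) v := by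
          unfold HorW
          rw [intervalIntegral.integral_comp_sub_right (fun X : ℝ => (|X - w| + d) * mg β r t X v)]
          congr 1
          push_cast; ring
        have f2 : q * (HorW β r t (S - 2 * Real.pi * n) S v w d +
            2 * Real.pi * Hor β r t (S - 2 * Real.pi * n) S v) =
            ∫ X in (S - 2 * Real.pi * n)..S, q * ((|X - w| + d + 2 * Real.pi) * mg β r t X v) := by
          unfold HorW Hor
          rw [← intervalIntegral.integral_const_mul (2 * Real.pi), ← intervalIntegral.integral_add,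
            ← intervalIntegral.integral_const_mul q]
          · congr 1
            funext X
            ring
          · exact hc.intervalIntegrable _ _
          · have := continuous_mg_X β r t v
            exact (by fun_prop : Continuous fun X : ℝ => 2 * Real.pi * mg β r t X v).intervalIntegrable _ _
        rw [f1, f2]
        have hm := continuous_mg_X β r t v
        refine intervalIntegral.integral_mono_on hle ?_ ?_ ?_
        · exact (by fun_prop : Continuous fun X : ℝ =>
            (|X - 2 * Real.pi - w| + d) * mg β r t (X - 2 * Real.pi) v).intervalIntegrable _ _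
        · exact (by fun_prop : Continuous fun X : ℝ =>
            q * ((|X - w| + d + 2 * Real.pi) * mg β r t X v)).intervalIntegrable _ _
        · intro X _
          rw [mg_shiftS, ← hq]
          have h1 : |X - 2 * Real.pi - w| ≤ |X - w| + 2 * Real.pi := by
            have h2 := abs_sub (X - w) (2 * Real.pi)
            rw [abs_of_pos (by positivity : (0:ℝ) < 2 * Real.pi)] at h2
            have h3 : X - w - 2 * Real.pi = X - 2 * Real.pi - w := by ring
            rwa [h3] at h2
          have h4 : 0 ≤ q * mg β r t X v := mul_nonneg hq0.le (mg_pos _ _ _ _ _).le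
          nlinarith
      have e4 := hGb _ hle
      rw [e1]
      rw [hJe]
      have e5 : q * (HorW β r t (S - 2 * Real.pi * n) S v w d +
            2 * Real.pi * Hor β r t (S - 2 * Real.pi * n) S v) ≤ q * (J + 2 * Real.pi * G) := by
        apply mul_le_mul_of_nonneg_left _ hq0.le
        have : 2 * Real.pi * Hor β r t (S - 2 * Real.pi * n) S v ≤ 2 * Real.pi * G :=
          mul_le_mul_of_nonneg_left e4 (by positivity)
        linarith
      linarith
  obtain ⟨n, hn⟩ := exists_nat_ge ((S - a) / (2 * Real.pi))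
  have hna : S - 2 * Real.pi * n ≤ a := by
    rw [div_le_iff₀ (by positivity)] at hn
    linarith
  have hmono : HorW β r t a S v w d ≤ HorW β r t (S - 2 * Real.pi * n) S v w d := by
    have hc := HorW_contS β r t v w d
    have e1 : HorW β r t (S - 2 * Real.pi * n) S v w d =
        HorW β r t (S - 2 * Real.pi * n) a v w d + HorW β r t a S v w d := by
      unfold HorW
      rw [intervalIntegral.integral_add_adjacent_intervals (hc.intervalIntegrable _ _) (hc.intervalIntegrable _ _)]
    have e2 : 0 ≤ HorW β r t (S - 2 * Real.pi * n) a v w d := by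
      unfold HorW
      refine intervalIntegral.integral_nonneg hna (fun X _ => ?_)
      have := (mg_pos β r t X v).le
      positivity
    linarith
  refine (hmono.trans (hind n)).trans (le_of_eq ?_)
  rw [hJ, hG, ← hq]
  have : 1 - q ≠ 0 := by linarith
  field_simp

/-! ### the moment of the left function with any valley point -/

private theorem gs_left_zeroS {β r t Y : ℝ} (hβ : 0 < β) (hr : 0 ≤ r) (hY : 0 < Y) :
    Tendsto (fun X : ℝ => gs β r t (X + Y * I)) atBot (𝓝 0) := by
  have h1 : Tendsto (fun X : ℝ => Real.exp (r * Real.exp (-Y) - t * Y / β + Y / β * X)) atBot (𝓝 0) := by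
    refine Real.tendsto_exp_atBot.comp ?_
    exact tendsto_atBot_add_const_left _ _ ((tendsto_const_mul_atBot_of_pos (div_pos hY hβ)).2 tendsto_id)
  refine squeeze_zero_norm (fun X => ?_) h1
  rw [norm_gs]
  apply Real.exp_le_exp.2
  have h2 : r * Real.cos X * Real.exp (-Y) ≤ r * Real.exp (-Y) := by
    have h4 : r * Real.cos X ≤ r := by nlinarith [Real.cos_le_one X]
    exact mul_le_mul_of_nonneg_right h4 (Real.exp_pos _).le
  have e1 : (X - t) * Y / β = Y / β * X - t * Y / β := by ring
  linarith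

private theorem gs_leg_zeroS {β r t : ℝ} {j : ℤ} {S : ℝ} (hβ : 0 < β) (hr : 0 < r) (h : InV t j S) :
    Tendsto (fun Y : ℝ => gs β r t (S + Y * I)) atBot (𝓝 0) := by
  obtain ⟨K, ε, hε, hK⟩ := h.vl hβ hr
  have h1 : Tendsto (fun Y : ℝ => Real.exp (K + ε * Y)) atBot (𝓝 0) := by
    refine Real.tendsto_exp_atBot.comp ?_
    exact tendsto_atBot_add_const_left _ _ ((tendsto_const_mul_atBot_of_pos hε).2 tendsto_id)
  refine squeeze_zero_norm' ?_ h1
  filter_upwards [eventually_le_atBot (0 : ℝ)] with Y hY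
  rw [norm_gs]
  exact Real.exp_le_exp.2 (hK S ⟨le_rfl, le_rfl⟩ Y hY)

private theorem hor_stepS {β r t : ℝ} {L : ℂ} {H : ℂ → ℂ} (hβ : 0 < β) (hH : ∀ s, HasDerivAt H (hm β r t L s) s)
    {a b v w₀ d : ℝ} (hab : a ≤ b) (hd : |w₀ - t - L.re| + |v - L.im| ≤ d) :
    ‖H (b + v * I) - H (a + v * I)‖ ≤ β⁻¹ * HorW β r t a b v w₀ d := by
  rw [← prim_hor (hm_diff β r t L) hH]
  refine (intervalIntegral.norm_integral_le_integral_norm hab).trans ?_
  unfold HorW
  rw [← intervalIntegral.integral_const_mul]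
  have hc1 : Continuous fun X : ℝ => ‖hm β r t L (X + v * I)‖ := by
    have := (hm_diff β r t L).continuous
    fun_prop
  have hc2 : Continuous fun X : ℝ => β⁻¹ * ((|X - w₀| + d) * mg β r t X v) := by
    have := continuous_mg_X β r t v
    fun_prop
  refine intervalIntegral.integral_mono_on hab (hc1.intervalIntegrable _ _) (hc2.intervalIntegrable _ _) ?_
  intro X _
  rw [norm_hm hβ]
  have h1 := dist_center t L w₀ v X v
  rw [sub_self, abs_zero, add_zero] at h1
  have h2 : ‖((X : ℂ) + v * I - t - L)‖ ≤ |X - w₀| + d := by linarith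
  have h3 := mul_le_mul_of_nonneg_right h2 (mg_pos β r t X v).le
  have h4 : 0 ≤ β⁻¹ := inv_nonneg.2 hβ.le
  calc ‖((X : ℂ) + v * I - t - L)‖ / β * mg β r t X v = β⁻¹ * (‖((X : ℂ) + v * I - t - L)‖ * mg β r t X v) := by
        field_simp
    _ ≤ _ := mul_le_mul_of_nonneg_left h3 h4

private theorem leg_stepS {β r t : ℝ} {L : ℂ} {H : ℂ → ℂ} (hβ : 0 < β) (hH : ∀ s, HasDerivAt H (hm β r t L s) s)
    {S y v w₀ A : ℝ} (hyv : y ≤ v) (hA : |S - w₀| + (|w₀ - t - L.re| + |v - L.im|) ≤ A) :
    ‖H (S + v * I) - H (S + y * I)‖ ≤ β⁻¹ * LegW β r t S y v A := by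
  rw [← prim_ver (hm_diff β r t L) hH, norm_mul, Complex.norm_I, one_mul]
  refine (intervalIntegral.norm_integral_le_integral_norm hyv).trans ?_
  unfold LegW
  rw [← intervalIntegral.integral_const_mul]
  have hc1 : Continuous fun Y : ℝ => ‖hm β r t L (S + Y * I)‖ := by
    have := (hm_diff β r t L).continuous
    fun_prop
  have hc2 : Continuous fun Y : ℝ => β⁻¹ * ((A + (v - Y)) * mg β r t S Y) := by
    have := continuous_mg_Y β r t S
    fun_prop
  refine intervalIntegral.integral_mono_on hyv (hc1.intervalIntegrable _ _) (hc2.intervalIntegrable _ _) ?_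
  intro Y hY
  rw [norm_hm hβ]
  have h1 := dist_center t L w₀ v S Y
  have h5 : |Y - v| = v - Y := by rw [abs_sub_comm]; exact abs_of_nonneg (by linarith [hY.2])
  have h2 : ‖((S : ℂ) + Y * I - t - L)‖ ≤ A + (v - Y) := by linarith
  have h3 := mul_le_mul_of_nonneg_right h2 (mg_pos β r t S Y).le
  have h4 : 0 ≤ β⁻¹ := inv_nonneg.2 hβ.le
  calc ‖((S : ℂ) + Y * I - t - L)‖ / β * mg β r t S Y = β⁻¹ * (‖((S : ℂ) + Y * I - t - L)‖ * mg β r t S Y) := by
        field_simp
    _ ≤ _ := mul_le_mul_of_nonneg_left h3 h4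

private theorem lim_bdS {f : ℝ → ℂ} {l : ℂ} {F : Filter ℝ} [F.NeBot] (hl : Tendsto f F (𝓝 l)) {z : ℂ} {B : ℝ}
    (hb : ∀ᶠ Y in F, ‖z - f Y‖ ≤ B) : ‖z - l‖ ≤ B :=
  le_of_tendsto (tendsto_const_nhds.sub hl).norm hb

/-- the primitive of the moment for the left function, valley point `S` -/
private theorem exists_CS {β r : ℝ} (hβ : 0 < β) (hr : 0 < r) (t : ℝ) (L : ℂ) {S : ℝ} (hS : InV t 0 S)
    (hS' : InV (t + β) 0 S) :
    ∃ (H : ℂ → ℂ) (W mL : ℂ), (∀ s, HasDerivAt H (hm β r t L s) s) ∧
      (∀ Y : ℝ, 0 < Y → Tendsto (fun X : ℝ => H (X + Y * I)) atBot (𝓝 mL)) ∧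
      Tendsto (fun Y : ℝ => H (S + Y * I)) atBot (𝓝 W) ∧
      W - mL = cF β * (ew β r t * CC β r (t + β) - L / β * CC β r t) := by
  obtain ⟨P, hP⟩ := exists_prim (gs_diff β r t)
  obtain ⟨V, lL, lR, hV, hF⟩ := exists_vals hβ hr hP
  obtain ⟨P', hP'⟩ := exists_prim (gs_diff β r (t + β))
  obtain ⟨V', lL', lR', hV', hF'⟩ := exists_vals hβ hr hP'
  have hβ' : (β : ℂ) ≠ 0 := Complex.ofReal_ne_zero.2 hβ.ne'
  refine ⟨fun s => ew β r t * P' s + I * gs β r t s - L / β * P s,
    ew β r t * V' 0 - L / β * V 0, ew β r t * lL' - L / β * lL, fun s => ?_, fun Y hY => ?_, ?_, ?_⟩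
  · have h1 := (((hP' s).const_mul (ew β r t)).add ((hasDerivAt_gs_s β r t s).const_mul I)).sub
      ((hP s).const_mul (L / β))
    refine h1.congr_deriv ?_
    have h2 := exp_mul_gs hβ.ne' r t s
    unfold hm ew
    have h3 : I * ((-(I * (s - t) / β) + I * (r * cexp (I * s))) * gs β r t s) =
        ((s - t) / β - r * cexp (I * s)) * gs β r t s := by
      have : (I : ℂ) * I = -1 := Complex.I_mul_I
      linear_combination ((-(s - t) / β + r * cexp (I * s)) * gs β r t s) * this
    rw [h3]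
    linear_combination (-(r : ℂ)) * h2
  · have h1 := (((hV'.left Y hY).const_mul (ew β r t)).add
      ((gs_left_zeroS (t := t) hβ hr.le hY).const_mul I)).sub ((hV.left Y hY).const_mul (L / β))
    simpa using h1
  · have w1 := hV'.val 0 S hS'.1 hS'.2
    have w2 := hV.val 0 S hS.1 hS.2
    have h1 := ((w1.const_mul (ew β r t)).add ((gs_leg_zeroS hβ hr hS).const_mul I)).sub
      (w2.const_mul (L / β))
    simpa using h1
  · have e1 := hV.CC0 hβ hr hP
    have e2 := hV'.CC0 hβ hr hP'
    linear_combination (ew β r t) * e2 - (L / β) * e1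

/-- MOMENT BOUND for the left function, valley point `S` -/
theorem norm_CC_momS {β r t S : ℝ} (hβ : 0 < β) (hr : 0 < r) (hS : InV t 0 S) (hS' : InV (t + β) 0 S) (L : ℂ)
    {v : ℝ} (hv : 0 < v) (w₀ : ℝ) {d B₀ BL : ℝ} (hd : |w₀ - t - L.re| + |v - L.im| ≤ d)
    (h0 : ∀ y ≤ v, LegW β r t S y v (|S - w₀| + d) ≤ B₀)
    (hL : ∀ a ≤ S, HorW β r t a S v w₀ d ≤ BL) :
    ‖ew β r t * CC β r (t + β) - L / β * CC β r t‖ ≤ (Real.sqrt (2 * Real.pi * β))⁻¹ * (β⁻¹ * (BL + B₀)) := by
  obtain ⟨H, W, mL, hH, hleft, hval, e1⟩ := exists_CS hβ hr t L hS hS'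
  have hb : 0 ≤ β⁻¹ := inv_nonneg.2 hβ.le
  have e2 : ew β r t * CC β r (t + β) - L / β * CC β r t = (cF β)⁻¹ * (W - mL) := by
    rw [e1, inv_mul_cancel_left₀ (cF_ne hβ)]
  have l0 : ‖H (S + v * I) - W‖ ≤ β⁻¹ * B₀ :=
    lim_bdS hval (by
      filter_upwards [eventually_le_atBot v] with Y hY
      refine (leg_stepS hβ hH hY (by linarith)).trans (mul_le_mul_of_nonneg_left (h0 Y hY) hb))
  have l1 : ‖H (S + v * I) - mL‖ ≤ β⁻¹ * BL :=
    lim_bdS (hleft v hv) (by
      filter_upwards [eventually_le_atBot S] with X hX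
      refine (hor_stepS hβ hH hX hd).trans (mul_le_mul_of_nonneg_left (hL X hX) hb))
  have e3 : W - mL = -(H (S + v * I) - W) + (H (S + v * I) - mL) := by ring
  rw [e2, norm_mul, norm_inv, norm_cF, e3]
  apply mul_le_mul_of_nonneg_left _ (by positivity)
  refine (norm_add_le _ _).trans ?_
  rw [norm_neg]
  linarith

end Sok.R2
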