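import Pool.Agent.Lib.MP_816dec_an.R2Far
import Pool.Agent.Lib.MP_816dec_an.R2Ray

/-!
MP_816dec_an: far bounds of the left function, valley points `π / 2` and `π` (row F of R2).
-/

set_option autoImplicit false

open Complex Set Filter Topology MeasureTheory

namespace Sok.R2

/-- what lies left of `-π/2`, relative -/
noncomputable def zQ (β v a w : ℝ) : ℝ := Real.pi * Real.exp (-(Real.pi / 2 * (v / β) + (a + v / β * w)))

/-- the outer part, relative -/
noncomputable def zP (β r v a w : ℝ) : ℝ := outB β r v * Real.exp (-(a + v / β * w))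

private theorem mg_ph (β r t X v : ℝ) : mg β r t X v = Real.exp (-(t * v / β)) * Real.exp (phF β r v X) := by
  unfold mg phF
  rw [← Real.exp_add]
  congr 1
  ring

private theorem Ebase {β t v w a : ℝ} : Real.exp (-(t * v / β)) * Real.exp (a + v / β * w) =
    Real.exp (a + v / β * (w - t)) := by
  rw [← Real.exp_add]
  congr 1
  ring

theorem zQ_nonneg (β v a w : ℝ) : 0 ≤ zQ β v a w := by
  have := Real.pi_pos
  unfold zQ; positivity

theorem zP_nonneg (β r v a w : ℝ) : 0 ≤ zP β r v a w := by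
  have := outB_nonneg β r v
  unfold zP; positivity

/-- weighted period ending at `π/2` -/
private theorem perQ {β r t v w a A B : ℝ} (hβ : 0 < β) (hr : 0 < r) (hv : 0 ≤ v) (hw : 0 ≤ w) (hw' : w < Real.pi / 2)
    (hvw : β * r * Real.sin w = v * Real.exp v) (ha : a = r * (Real.exp (-v) * Real.cos w))
    (hν : 0 < nuR a (v / β)) (hc : 0 < caR a (v / β)) (hA : 0 ≤ A) (hB : 0 ≤ B) :
    ∫ X in (Real.pi / 2 - 2 * Real.pi)..(Real.pi / 2), (A + B * |X - w|) * mg β r t X v ≤
      Real.exp (a + v / β * (w - t)) * (A * K0 a (v / β) + B * K1 a (v / β) + (A + B * (2 * Real.pi)) * zQ β v a w) := by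
  have hpi := Real.pi_pos
  have hphc : Continuous fun X : ℝ => phF β r v X := by unfold phF; fun_prop
  have hcf : Continuous fun X : ℝ => (A + B * |X - w|) * Real.exp (phF β r v X) := by fun_prop
  have e0 : ∫ X in (Real.pi / 2 - 2 * Real.pi)..(Real.pi / 2), (A + B * |X - w|) * mg β r t X v =
      Real.exp (-(t * v / β)) * ∫ X in (Real.pi / 2 - 2 * Real.pi)..(Real.pi / 2),
        (A + B * |X - w|) * Real.exp (phF β r v X) := by
    rw [← intervalIntegral.integral_const_mul]
    congr 1
    funext X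
    rw [mg_ph]
    ring
  have h1 := mid_int hβ hr hv hw hw' hvw ha hν hc hA hB
  have h2 : ∫ X in (Real.pi / 2 - 2 * Real.pi)..(-(Real.pi / 2)), (A + B * |X - w|) * Real.exp (phF β r v X) ≤
      Real.exp (a + v / β * w) * ((A + B * (2 * Real.pi)) * zQ β v a w) := by
    have e1 : Real.exp (a + v / β * w) * ((A + B * (2 * Real.pi)) * zQ β v a w) =
        ∫ _X in (Real.pi / 2 - 2 * Real.pi)..(-(Real.pi / 2)), (A + B * (2 * Real.pi)) *
          Real.exp (-(Real.pi / 2 * (v / β))) := by
      rw [intervalIntegral.integral_const, smul_eq_mul]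
      unfold zQ
      have e2 : Real.exp (-(Real.pi / 2 * (v / β) + (a + v / β * w))) =
        Real.exp (-(Real.pi / 2 * (v / β))) * Real.exp (-(a + v / β * w)) := by
        rw [← Real.exp_add]; congr 1; ring
      have e3 : Real.exp (a + v / β * w) * Real.exp (-(a + v / β * w)) = 1 := by
        rw [← Real.exp_add, add_neg_cancel, Real.exp_zero]
      rw [e2]
      calc Real.exp (a + v / β * w) * ((A + B * (2 * Real.pi)) * (Real.pi *
            (Real.exp (-(Real.pi / 2 * (v / β))) * Real.exp (-(a + v / β * w))))) =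
          (Real.exp (a + v / β * w) * Real.exp (-(a + v / β * w))) * ((A + B * (2 * Real.pi)) * (Real.pi *
            Real.exp (-(Real.pi / 2 * (v / β))))) := by ring
        _ = _ := by rw [e3]; ring
    rw [e1]
    refine intervalIntegral.integral_mono_on (by linarith) (hcf.intervalIntegrable _ _) (by simp) ?_
    intro X hX
    have k1 : |X - w| ≤ 2 * Real.pi := by
      rw [abs_le]; constructor <;> linarith [hX.1, hX.2]
    have k2 : Real.cos X ≤ 0 := by
      have h3 : Real.cos X = -Real.cos (X + Real.pi) := by rw [Real.cos_add_pi]; ring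
      rw [h3]
      have h4 : 0 ≤ Real.cos (X + Real.pi) := Real.cos_nonneg_of_mem_Icc ⟨by linarith [hX.1], by linarith [hX.2]⟩
      linarith
    have k3 : phF β r v X ≤ -(Real.pi / 2 * (v / β)) := by
      unfold phF
      have h3 : r * Real.cos X * Real.exp (-v) ≤ 0 :=
        mul_nonpos_of_nonpos_of_nonneg (mul_nonpos_of_nonneg_of_nonpos hr.le k2) (Real.exp_pos _).le
      have h4 : 0 ≤ v / β := by positivity
      have h5 : X * v / β = X * (v / β) := by ring
      rw [h5]
      nlinarith [hX.2]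
    have k4 : A + B * |X - w| ≤ A + B * (2 * Real.pi) := by
      have := mul_le_mul_of_nonneg_left k1 hB
      linarith
    have k5 : 0 ≤ A + B * (2 * Real.pi) := by positivity
    exact mul_le_mul k4 (Real.exp_le_exp.2 k3) (Real.exp_pos _).le k5
  rw [e0, ← intervalIntegral.integral_add_adjacent_intervals
    (hcf.intervalIntegrable (Real.pi / 2 - 2 * Real.pi) (-(Real.pi / 2)))
    (hcf.intervalIntegrable (-(Real.pi / 2)) (Real.pi / 2))]
  have h3 : (∫ X in (Real.pi / 2 - 2 * Real.pi)..(-(Real.pi / 2)), (A + B * |X - w|) * Real.exp (phF β r v X)) +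
      (∫ X in (-(Real.pi / 2))..(Real.pi / 2), (A + B * |X - w|) * Real.exp (phF β r v X)) ≤
      Real.exp (a + v / β * w) * (A * K0 a (v / β) + B * K1 a (v / β) + (A + B * (2 * Real.pi)) * zQ β v a w) := by
    linarith
  have h4 := mul_le_mul_of_nonneg_left h3 (Real.exp_pos (-(t * v / β))).le
  rw [← mul_assoc, Ebase] at h4
  exact h4

/-- weighted period `[-π, π]` -/
private theorem perP {β r t v w a A B : ℝ} (hβ : 0 < β) (hr : 0 < r) (hv : 0 ≤ v) (hw : 0 ≤ w) (hw' : w < Real.pi / 2)
    (hvw : β * r * Real.sin w = v * Real.exp v) (ha : a = r * (Real.exp (-v) * Real.cos w))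
    (hν : 0 < nuR a (v / β)) (hc : 0 < caR a (v / β)) (hA : 0 ≤ A) (hB : 0 ≤ B) :
    ∫ X in (-Real.pi)..Real.pi, (A + B * |X - w|) * mg β r t X v ≤
      Real.exp (a + v / β * (w - t)) * (A * K0 a (v / β) + B * K1 a (v / β) +
        (A + B * (Real.pi + w)) * zP β r v a w) := by
  have hpi := Real.pi_pos
  have hphc : Continuous fun X : ℝ => phF β r v X := by unfold phF; fun_prop
  have hcf : Continuous fun X : ℝ => (A + B * |X - w|) * Real.exp (phF β r v X) := by fun_prop
  have e0 : ∫ X in (-Real.pi)..Real.pi, (A + B * |X - w|) * mg β r t X v =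
      Real.exp (-(t * v / β)) * ∫ X in (-Real.pi)..Real.pi,
        (A + B * |X - w|) * Real.exp (phF β r v X) := by
    rw [← intervalIntegral.integral_const_mul]
    congr 1
    funext X
    rw [mg_ph]
    ring
  have h1 := mid_int hβ hr hv hw hw' hvw ha hν hc hA hB
  have hcst : ∀ X : ℝ, -Real.pi ≤ X → X ≤ Real.pi → A + B * |X - w| ≤ A + B * (Real.pi + w) := by
    intro X hX hX'
    have k1 : |X - w| ≤ Real.pi + w := by
      rw [abs_le]; constructor <;> linarith
    have := mul_le_mul_of_nonneg_left k1 hB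
    linarith
  have hc1 : Continuous fun X : ℝ => (A + B * (Real.pi + w)) * Real.exp (phF β r v X) := by fun_prop
  have hwt : 0 ≤ A + B * (Real.pi + w) := by positivity
  have h2 : (∫ X in (-Real.pi)..(-(Real.pi / 2)), (A + B * |X - w|) * Real.exp (phF β r v X)) +
      (∫ X in (Real.pi / 2)..Real.pi, (A + B * |X - w|) * Real.exp (phF β r v X)) ≤
      Real.exp (a + v / β * w) * ((A + B * (Real.pi + w)) * zP β r v a w) := by
    have i1 : ∫ X in (-Real.pi)..(-(Real.pi / 2)), (A + B * |X - w|) * Real.exp (phF β r v X) ≤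
        (A + B * (Real.pi + w)) * ∫ X in (-Real.pi)..(-(Real.pi / 2)), Real.exp (phF β r v X) := by
      rw [← intervalIntegral.integral_const_mul]
      refine intervalIntegral.integral_mono_on (by linarith) (hcf.intervalIntegrable _ _)
        (hc1.intervalIntegrable _ _) ?_
      intro X hX
      exact mul_le_mul_of_nonneg_right (hcst X hX.1 (by linarith [hX.2])) (Real.exp_pos _).le
    have i2 : ∫ X in (Real.pi / 2)..Real.pi, (A + B * |X - w|) * Real.exp (phF β r v X) ≤
        (A + B * (Real.pi + w)) * ∫ X in (Real.pi / 2)..Real.pi, Real.exp (phF β r v X) := by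
      rw [← intervalIntegral.integral_const_mul]
      refine intervalIntegral.integral_mono_on (by linarith) (hcf.intervalIntegrable _ _)
        (hc1.intervalIntegrable _ _) ?_
      intro X hX
      exact mul_le_mul_of_nonneg_right (hcst X (by linarith [hX.1]) hX.2) (Real.exp_pos _).le
    have i3 := out_int (β := β) (r := r) (v := v) hβ hr.le
    have i4 := mul_le_mul_of_nonneg_left i3 hwt
    have e3 : Real.exp (a + v / β * w) * Real.exp (-(a + v / β * w)) = 1 := by
      rw [← Real.exp_add, add_neg_cancel, Real.exp_zero]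
    have e4 : Real.exp (a + v / β * w) * ((A + B * (Real.pi + w)) * zP β r v a w) =
        (A + B * (Real.pi + w)) * outB β r v := by
      unfold zP
      calc Real.exp (a + v / β * w) * ((A + B * (Real.pi + w)) * (outB β r v * Real.exp (-(a + v / β * w)))) =
          (Real.exp (a + v / β * w) * Real.exp (-(a + v / β * w))) * ((A + B * (Real.pi + w)) * outB β r v) := by ring
        _ = _ := by rw [e3, one_mul]
    rw [e4]
    refine le_trans (add_le_add i1 i2) (le_trans (le_of_eq ?_) i4)
    unfold phF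
    ring
  rw [e0, ← intervalIntegral.integral_add_adjacent_intervals
    (hcf.intervalIntegrable (-Real.pi) (Real.pi / 2)) (hcf.intervalIntegrable (Real.pi / 2) Real.pi),
    ← intervalIntegral.integral_add_adjacent_intervals
    (hcf.intervalIntegrable (-Real.pi) (-(Real.pi / 2))) (hcf.intervalIntegrable (-(Real.pi / 2)) (Real.pi / 2))]
  have h3 : (∫ X in (-Real.pi)..(-(Real.pi / 2)), (A + B * |X - w|) * Real.exp (phF β r v X)) +
      (∫ X in (-(Real.pi / 2))..(Real.pi / 2), (A + B * |X - w|) * Real.exp (phF β r v X)) +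
      (∫ X in (Real.pi / 2)..Real.pi, (A + B * |X - w|) * Real.exp (phF β r v X)) ≤
      Real.exp (a + v / β * w) * (A * K0 a (v / β) + B * K1 a (v / β) + (A + B * (Real.pi + w)) * zP β r v a w) := by
    linarith
  have h4 := mul_le_mul_of_nonneg_left h3 (Real.exp_pos (-(t * v / β))).le
  rw [← mul_assoc, Ebase] at h4
  exact h4

private theorem q_lt {β v : ℝ} (hβ : 0 < β) (hv : 0 < v) : Real.exp (-(2 * Real.pi * v / β)) < 1 := by
  refine Real.exp_lt_one_iff.2 ?_
  have := Real.pi_pos
  have : 0 < 2 * Real.pi * v / β := by positivity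
  linarith

private theorem horW_eq (β r t a b v w d : ℝ) : HorW β r t a b v w d = ∫ X in a..b, (d + 1 * |X - w|) * mg β r t X v := by
  unfold HorW
  congr 1
  funext X
  ring

private theorem hor_eq (β r t a b v w : ℝ) : Hor β r t a b v = ∫ X in a..b, (1 + 0 * |X - w|) * mg β r t X v := by
  unfold Hor
  congr 1
  funext X
  ring

private theorem inVh {t : ℝ} (h : t < Real.pi / 2) : InV t 0 (Real.pi / 2) := by
  have hpi := Real.pi_pos
  have e1 : Real.pi / 2 - (2 * ((0 : ℤ) : ℝ) + 1) * Real.pi = -(Real.pi / 2) := by push_cast; ring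
  refine ⟨?_, Or.inr h⟩
  rw [e1, abs_neg, abs_of_pos (by positivity)]

private theorem inV0 (t : ℝ) : InV t 0 Real.pi := by
  have := inV_center t 0
  simpa using this

/-- the leg at `π/2` -/
private theorem legQ {β r t v w a : ℝ} :
    mg β r t (Real.pi / 2) v = Real.exp (a + v / β * (w - t)) *
      Real.exp (-(a + v / β * w - Real.pi / 2 * (v / β))) := by
  unfold mg
  rw [Real.cos_pi_div_two, ← Real.exp_add]
  congr 1
  ring

/-- FAR VALUE of the left function, valley point `π/2` -/
theorem CC_q {β r t v w a : ℝ} (hβ : 0 < β) (hr : 0 < r) (hv : 0 < v) (hw : 0 ≤ w) (hw' : w < Real.pi / 2)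
    (hvw : β * r * Real.sin w = v * Real.exp v) (ha : a = r * (Real.exp (-v) * Real.cos w))
    (hν : 0 < nuR a (v / β)) (hc : 0 < caR a (v / β)) (ht : t < Real.pi / 2) :
    ‖CC β r t‖ ≤ (Real.sqrt (2 * Real.pi * β))⁻¹ * (Real.exp (a + v / β * (w - t)) *
      ((K0 a (v / β) + zQ β v a w) / (1 - Real.exp (-(2 * Real.pi * v / β))) +
        Real.exp (-(a + v / β * w - Real.pi / 2 * (v / β))) * (β / (Real.pi / 2 - t)))) := by
  have hpi := Real.pi_pos
  refine (norm_CC_path hβ hr (inVh ht) hv).trans ?_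
  apply mul_le_mul_of_nonneg_left _ (by positivity)
  have h1 := perQ (t := t) hβ hr hv.le hw hw' hvw ha hν hc zero_le_one le_rfl
  rw [← hor_eq] at h1
  have h2 := HorL_ray hβ hr.le hv h1
  have hδ : 0 < (Real.pi / 2 - t) / β := div_pos (by linarith) hβ
  have h3 := Leg_le (β := β) (r := r) (t := t) (S := Real.pi / 2) (v := v) hr.le
    (by rw [Real.cos_pi_div_two]) (by rw [Real.cos_pi_div_two]; simpa using hδ)
  rw [Real.cos_pi_div_two, legQ (a := a) (w := w)] at h3
  have e1 : (Real.pi / 2 - t) / β - r * 0 * Real.exp (-v) = (Real.pi / 2 - t) / β := by ring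
  rw [e1] at h3
  refine le_trans (add_le_add h2 h3) (le_of_eq ?_)
  have h4 : Real.pi / 2 - t ≠ 0 := by linarith
  have h5 := q_lt hβ hv
  have h6 : 1 - Real.exp (-(2 * Real.pi * v / β)) ≠ 0 := by linarith
  field_simp
  ring

/-- FAR MOMENT of the left function, valley point `π/2` -/
theorem CC_q_mom {β r t v w a d : ℝ} (hβ : 0 < β) (hr : 0 < r) (hv : 0 < v) (hw : 0 ≤ w) (hw' : w < Real.pi / 2)
    (hvw : β * r * Real.sin w = v * Real.exp v) (ha : a = r * (Real.exp (-v) * Real.cos w))
    (hν : 0 < nuR a (v / β)) (hc : 0 < caR a (v / β)) (ht : t + β < Real.pi / 2) (L : ℂ)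
    (hd : |w - t - L.re| + |v - L.im| ≤ d) :
    ‖ew β r t * CC β r (t + β) - L / β * CC β r t‖ ≤ (Real.sqrt (2 * Real.pi * β))⁻¹ *
      (β⁻¹ * (Real.exp (a + v / β * (w - t)) *
      ((d * K0 a (v / β) + K1 a (v / β) + (d + 2 * Real.pi) * zQ β v a w) /
          (1 - Real.exp (-(2 * Real.pi * v / β))) +
        2 * Real.pi * Real.exp (-(2 * Real.pi * v / β)) * (K0 a (v / β) + zQ β v a w) /
          (1 - Real.exp (-(2 * Real.pi * v / β))) ^ 2 +
        Real.exp (-(a + v / β * w - Real.pi / 2 * (v / β))) *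
          ((Real.pi / 2 - w + d) * (β / (Real.pi / 2 - t)) + (β / (Real.pi / 2 - t)) ^ 2)))) := by
  have hpi := Real.pi_pos
  have hd0 : 0 ≤ d := le_trans (by positivity) hd
  have ht' : t < Real.pi / 2 := by linarith
  have h1 := perQ (t := t) hβ hr hv.le hw hw' hvw ha hν hc zero_le_one le_rfl
  rw [← hor_eq] at h1
  have h1' := perQ (t := t) hβ hr hv.le hw hw' hvw ha hν hc hd0 zero_le_one
  rw [← horW_eq] at h1'
  have h2 := HorW_ray hβ hr hv hd0 h1 h1'
  have hδ : 0 < (Real.pi / 2 - t) / β := div_pos (by linarith) hβ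
  have hA0 : 0 ≤ |Real.pi / 2 - w| + d := by positivity
  have h3 : ∀ y ≤ v, LegW β r t (Real.pi / 2) y v (|Real.pi / 2 - w| + d) ≤ _ := fun y hy =>
    LegW_le_top (β := β) (r := r) (t := t) (S := Real.pi / 2) (v := v) (A := |Real.pi / 2 - w| + d) hr.le
    (by rw [Real.cos_pi_div_two]) hA0 (by rw [Real.cos_pi_div_two]; simpa using hδ) hy
  rw [Real.cos_pi_div_two, legQ (a := a) (w := w), abs_of_pos (by linarith : 0 < Real.pi / 2 - w)] at h3
  have e1 : (Real.pi / 2 - t) / β - r * 0 * Real.exp (-v) = (Real.pi / 2 - t) / β := by ring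
  rw [e1] at h3
  have h4 := norm_CC_momS hβ hr (inVh ht') (inVh ht) L hv w hd
    (by rw [abs_of_pos (by linarith : 0 < Real.pi / 2 - w)]; exact h3) (fun a _ => h2 a)
  refine h4.trans (le_of_eq ?_)
  have h5 : Real.pi / 2 - t ≠ 0 := by linarith
  have h7 := q_lt hβ hv
  have h6 : 1 - Real.exp (-(2 * Real.pi * v / β)) ≠ 0 := by linarith
  congr 2
  field_simp
  ring

/-- FAR VALUE of the left function, valley point `π`, leg left as an integral -/
theorem CC_p {β r t v w a : ℝ} (hβ : 0 < β) (hr : 0 < r) (hv : 0 < v) (hw : 0 ≤ w) (hw' : w < Real.pi / 2)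
    (hvw : β * r * Real.sin w = v * Real.exp v) (ha : a = r * (Real.exp (-v) * Real.cos w))
    (hν : 0 < nuR a (v / β)) (hc : 0 < caR a (v / β)) :
    ‖CC β r t‖ ≤ (Real.sqrt (2 * Real.pi * β))⁻¹ * (Real.exp (a + v / β * (w - t)) *
      ((K0 a (v / β) + zP β r v a w) / (1 - Real.exp (-(2 * Real.pi * v / β)))) + Leg β r t Real.pi v) := by
  have hpi := Real.pi_pos
  refine (norm_CC_path hβ hr (inV0 t) hv).trans ?_
  apply mul_le_mul_of_nonneg_left _ (by positivity)
  have h1 := perP (t := t) hβ hr hv.le hw hw' hvw ha hν hc zero_le_one le_rfl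
  rw [← hor_eq] at h1
  have e0 : -Real.pi = Real.pi - 2 * Real.pi := by ring
  rw [e0] at h1
  have h2 := HorL_ray (S := Real.pi) hβ hr.le hv h1
  refine add_le_add (h2.trans (le_of_eq ?_)) le_rfl
  have h5 := q_lt hβ hv
  have h6 : 1 - Real.exp (-(2 * Real.pi * v / β)) ≠ 0 := by linarith
  field_simp
  ring

/-- FAR MOMENT of the left function, valley point `π`, leg left open -/
theorem CC_p_mom {β r t v w a d B₀ : ℝ} (hβ : 0 < β) (hr : 0 < r) (hv : 0 < v) (hw : 0 ≤ w) (hw' : w < Real.pi / 2)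
    (hvw : β * r * Real.sin w = v * Real.exp v) (ha : a = r * (Real.exp (-v) * Real.cos w))
    (hν : 0 < nuR a (v / β)) (hc : 0 < caR a (v / β)) (L : ℂ)
    (hd : |w - t - L.re| + |v - L.im| ≤ d)
    (h0 : ∀ y ≤ v, LegW β r t Real.pi y v (|Real.pi - w| + d) ≤ B₀) :
    ‖ew β r t * CC β r (t + β) - L / β * CC β r t‖ ≤ (Real.sqrt (2 * Real.pi * β))⁻¹ *
      (β⁻¹ * (Real.exp (a + v / β * (w - t)) *
      ((d * K0 a (v / β) + K1 a (v / β) + (d + (Real.pi + w)) * zP β r v a w) /
          (1 - Real.exp (-(2 * Real.pi * v / β))) +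
        2 * Real.pi * Real.exp (-(2 * Real.pi * v / β)) * (K0 a (v / β) + zP β r v a w) /
          (1 - Real.exp (-(2 * Real.pi * v / β))) ^ 2) + B₀)) := by
  have hpi := Real.pi_pos
  have hd0 : 0 ≤ d := le_trans (by positivity) hd
  have h1 := perP (t := t) hβ hr hv.le hw hw' hvw ha hν hc zero_le_one le_rfl
  rw [← hor_eq] at h1
  have h1' := perP (t := t) hβ hr hv.le hw hw' hvw ha hν hc hd0 zero_le_one
  rw [← horW_eq] at h1'
  have e0 : -Real.pi = Real.pi - 2 * Real.pi := by ring
  rw [e0] at h1 h1'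
  have h2 := HorW_ray (S := Real.pi) hβ hr hv hd0 h1 h1'
  have h4 := norm_CC_mom hβ hr L hv w hd h0 (fun a _ => h2 a)
  refine h4.trans (le_of_eq ?_)
  have h7 := q_lt hβ hv
  have h6 : 1 - Real.exp (-(2 * Real.pi * v / β)) ≠ 0 := by linarith
  congr 3
  field_simp
  ring

end Sok.R2
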