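import Pool.Agent.Lib.MP_816dec_an.R1Geo

/-!
MP_816dec_an, row R2-D: bounds of the curvature `K = -sE''` for `κ ≥ 1`.

`Lk κ y = (1 + κ²) x / (κ D²)`, `D² = x² + (1 + y)²`, so that `(1 + κ²) K (t) = Lk κ (sy κ t)`.
-/

set_option autoImplicit false

open Set Filter Topology Real

namespace Sok

namespace R2

/-- normalised curvature as a function of `y` -/
noncomputable def Lk (κ y : ℝ) : ℝ := (1 + κ ^ 2) * Xk κ y / (κ * (Xk κ y ^ 2 + (1 + y) ^ 2))

theorem Lk_pos {κ y : ℝ} (h : Iy κ y) : 0 < Lk κ y := by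
  have hx := h.xpos
  have hk := h.kpos
  unfold Lk
  positivity

theorem D_pos {κ y : ℝ} (h : Iy κ y) : 0 < Xk κ y ^ 2 + (1 + y) ^ 2 := by
  have hx := h.xpos
  positivity

/-- `sy' = κ L / (1 + κ²)` -/
theorem hasDerivAt_sy {κ t : ℝ} (h : DomR κ t) :
    HasDerivAt (sy κ) (κ / (1 + κ ^ 2) * Lk κ (sy κ t)) t := by
  have h1 := (hasStrictDerivAt_sy h).hasDerivAt
  have hk := h.1
  have hD := D_pos (sy_spec h).1
  refine h1.congr_deriv ?_
  unfold Lk sx
  field_simp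

theorem div_le_arctan {w : ℝ} (hw : 0 ≤ w) : w / (1 + w ^ 2) ≤ arctan w := by
  have h1 : sin (2 * arctan w) ≤ 2 * arctan w := sin_le (by have := arctan_nonneg.2 hw; linarith)
  have h2 : sin (2 * arctan w) = 2 * (w / (1 + w ^ 2)) := by
    rw [sin_two_mul, sin_arctan, cos_arctan]
    have h3 : sqrt (1 + w ^ 2) * sqrt (1 + w ^ 2) = 1 + w ^ 2 := mul_self_sqrt (by positivity)
    have h4 : 0 < sqrt (1 + w ^ 2) := sqrt_pos.2 (by positivity)
    have h5 : w / (1 + w ^ 2) = w / (sqrt (1 + w ^ 2) * sqrt (1 + w ^ 2)) := by rw [h3]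
    rw [h5]
    field_simp
  linarith

theorem x_sq_add {κ y : ℝ} (h : Iy κ y) : Xk κ y ^ 2 + y ^ 2 = κ ^ 2 * exp (-2 * y) := by
  rw [h.xsq]; unfold gk; ring

/-- `|t| ≤ κ / L` for `t ≥ -κ`, `|t| ≥ κ / L` for `t ≤ -κ`: negative side -/
theorem Lk_neg {κ y : ℝ} (hκ : 1 ≤ κ) (h : Iy κ y) (hy : y ≤ 0) : κ ≤ Lk κ y * (-Tk κ y) := by
  have hx := h.xpos
  have hk := h.kpos
  have hD := D_pos h
  obtain ⟨u, hu⟩ : ∃ u, u = -y := ⟨_, rfl⟩
  have hu0 : 0 ≤ u := by linarith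
  have hyu : y = -u := by linarith
  obtain ⟨x, hxd⟩ : ∃ x, x = Xk κ y := ⟨_, rfl⟩
  have hA := x_sq_add h
  unfold Lk Tk
  rw [← hxd] at hx hD hA ⊢
  rw [hyu] at hA hD ⊢
  have e1 : -(arctan (-u / x) - x) = x + arctan (u / x) := by rw [neg_div, arctan_neg]; ring
  rw [e1]
  have harc : u * x / (x ^ 2 + u ^ 2) ≤ arctan (u / x) := by
    refine le_trans (le_of_eq ?_) (div_le_arctan (div_nonneg hu0 hx.le))
    field_simp
  obtain ⟨A, hAd⟩ : ∃ A, A = x ^ 2 + u ^ 2 := ⟨_, rfl⟩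
  have hA0 : 0 < A := by rw [hAd]; positivity
  have hx2 : x ^ 2 = A - u ^ 2 := by rw [hAd]; ring
  have hA' : A = κ ^ 2 * exp (2 * u) := by
    rw [hAd]
    have : -2 * -u = 2 * u := by ring
    rw [this] at hA
    linarith
  have hexp : 1 + 2 * u + 2 * u ^ 2 ≤ exp (2 * u) := by
    have := quadratic_le_exp_of_nonneg (x := 2 * u) (by linarith)
    linarith
  have hAe : exp (2 * u) ≤ A := by
    rw [hA']
    have : 1 ≤ κ ^ 2 := by nlinarith
    nlinarith [exp_pos (2 * u)]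
  have hAu : u ^ 2 ≤ A := by rw [hAd]; nlinarith
  -- main polynomial inequality
  have key : A ^ 2 * (x ^ 2 + (1 + -u) ^ 2) ≤ (exp (2 * u) + A) * (x ^ 2 * (A + u)) := by
    have h1 : (1 + 2 * u + 2 * u ^ 2 + A) * (x ^ 2 * (A + u)) ≤ (exp (2 * u) + A) * (x ^ 2 * (A + u)) := by
      apply mul_le_mul_of_nonneg_right (by linarith)
      have : 0 ≤ A + u := by linarith
      positivity
    refine le_trans ?_ h1
    rw [hx2]
    have hA1 : 1 + 2 * u + 2 * u ^ 2 ≤ A := hexp.trans hAe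
    have h2 : (1 + 2 * u + 2 * u ^ 2) * (A * (5 * u + u ^ 2)) ≤ A * (A * (5 * u + u ^ 2)) :=
      mul_le_mul_of_nonneg_right hA1 (by positivity)
    have h3 : (1 + 2 * u + 2 * u ^ 2) * (u * (11 * u ^ 2)) ≤ A * (u * (11 * u ^ 2)) :=
      mul_le_mul_of_nonneg_right hA1 (by positivity)
    have h4 : 0 ≤ A * u := by positivity
    have h5 : 0 ≤ A * u ^ 2 := by positivity
    nlinarith [mul_nonneg hu0 hu0, pow_nonneg hu0 3, pow_nonneg hu0 4, pow_nonneg hu0 5]
  -- conclusion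
  have h6 : x ^ 2 * (A + u) / A ≤ x * (x + arctan (u / x)) := by
    have h7 : x * (x + u * x / A) ≤ x * (x + arctan (u / x)) := by
      apply mul_le_mul_of_nonneg_left _ hx.le
      rw [hAd]
      linarith
    refine le_trans (le_of_eq ?_) h7
    field_simp
  have h8 : A * (x ^ 2 + (1 + -u) ^ 2) ≤ (exp (2 * u) + A) * (x * (x + arctan (u / x))) := by
    calc A * (x ^ 2 + (1 + -u) ^ 2) = (A ^ 2 * (x ^ 2 + (1 + -u) ^ 2)) / A := by field_simp
      _ ≤ ((exp (2 * u) + A) * (x ^ 2 * (A + u))) / A := div_le_div_of_nonneg_right key hA0.le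
      _ = (exp (2 * u) + A) * (x ^ 2 * (A + u) / A) := by ring
      _ ≤ _ := mul_le_mul_of_nonneg_left h6 (by positivity)
  have h9 : κ ^ 2 * (x ^ 2 + (1 + -u) ^ 2) ≤ (1 + κ ^ 2) * (x * (x + arctan (u / x))) := by
    have he := exp_pos (2 * u)
    have h10 : exp (2 * u) * (κ ^ 2 * (x ^ 2 + (1 + -u) ^ 2)) ≤
        exp (2 * u) * ((1 + κ ^ 2) * (x * (x + arctan (u / x)))) := by
      calc exp (2 * u) * (κ ^ 2 * (x ^ 2 + (1 + -u) ^ 2)) = A * (x ^ 2 + (1 + -u) ^ 2) := by rw [hA']; ring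
        _ ≤ (exp (2 * u) + A) * (x * (x + arctan (u / x))) := h8
        _ = _ := by rw [hA']; ring
    exact le_of_mul_le_mul_left h10 he
  have h11 : (1 + κ ^ 2) * x / (κ * (x ^ 2 + (1 + -u) ^ 2)) * (x + arctan (u / x)) =
      ((1 + κ ^ 2) * (x * (x + arctan (u / x)))) / (κ * (x ^ 2 + (1 + -u) ^ 2)) := by ring
  rw [h11, le_div_iff₀ (by positivity)]
  calc κ * (κ * (x ^ 2 + (1 + -u) ^ 2)) = κ ^ 2 * (x ^ 2 + (1 + -u) ^ 2) := by ring
    _ ≤ _ := h9

/-- positive side -/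
theorem Lk_nonneg_le {κ y : ℝ} (h : Iy κ y) (hy : 0 ≤ y) : Lk κ y * (-Tk κ y) ≤ κ := by
  have hx := h.xpos
  have hk := h.kpos
  have hD := D_pos h
  obtain ⟨x, hxd⟩ : ∃ x, x = Xk κ y := ⟨_, rfl⟩
  have hA := x_sq_add h
  unfold Lk Tk
  rw [← hxd] at hx hD hA ⊢
  have e1 : -(arctan (y / x) - x) = x - arctan (y / x) := by ring
  rw [e1]
  have harc : y * x / (x ^ 2 + y ^ 2) ≤ arctan (y / x) := by
    refine le_trans (le_of_eq ?_) (div_le_arctan (div_nonneg hy hx.le))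
    field_simp
  obtain ⟨A, hAd⟩ : ∃ A, A = x ^ 2 + y ^ 2 := ⟨_, rfl⟩
  have hA0 : 0 < A := by rw [hAd]; positivity
  have hx2 : x ^ 2 = A - y ^ 2 := by rw [hAd]; ring
  rw [← hAd] at hA
  have hexp : exp (-2 * y) ≤ 1 := exp_le_one_iff.2 (by linarith)
  have hexp0 := exp_pos (-2 * y)
  have hAy : y ^ 2 ≤ A := by rw [hAd]; nlinarith
  have h6 : x * (x - arctan (y / x)) ≤ x ^ 2 * (A - y) / A := by
    have h7 : x * (x - arctan (y / x)) ≤ x * (x - y * x / A) := by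
      apply mul_le_mul_of_nonneg_left _ hx.le
      rw [hAd]
      linarith
    refine h7.trans (le_of_eq ?_)
    field_simp
  have key : (exp (-2 * y) + A) * (x ^ 2 * (A - y)) ≤ A ^ 2 * (x ^ 2 + (1 + y) ^ 2) := by
    rcases le_or_gt A y with h1 | h1
    · have h2 : (exp (-2 * y) + A) * (x ^ 2 * (A - y)) ≤ 0 := by
        apply mul_nonpos_of_nonneg_of_nonpos (by positivity)
        exact mul_nonpos_of_nonneg_of_nonpos (by positivity) (by linarith)
      have h3 : 0 ≤ A ^ 2 * (x ^ 2 + (1 + y) ^ 2) := by positivity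
      linarith
    · have h2 : (exp (-2 * y) + A) * (x ^ 2 * (A - y)) ≤ (1 + A) * (x ^ 2 * (A - y)) := by
        apply mul_le_mul_of_nonneg_right (by linarith)
        have : 0 ≤ A - y := by linarith
        positivity
      refine h2.trans ?_
      rw [hx2]
      have h3 : 0 ≤ A * y ^ 2 * (A - y) := mul_nonneg (by positivity) (by linarith)
      have h4 : 0 ≤ y * (A - y ^ 2) := mul_nonneg hy (by linarith)
      have h5 : 0 ≤ A * y ^ 2 := by positivity
      have h6 : 0 ≤ A ^ 2 * y := by positivity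
      nlinarith
  have h8 : (exp (-2 * y) + A) * (x * (x - arctan (y / x))) ≤ A * (x ^ 2 + (1 + y) ^ 2) := by
    calc (exp (-2 * y) + A) * (x * (x - arctan (y / x))) ≤ (exp (-2 * y) + A) * (x ^ 2 * (A - y) / A) :=
          mul_le_mul_of_nonneg_left h6 (by positivity)
      _ = ((exp (-2 * y) + A) * (x ^ 2 * (A - y))) / A := by ring
      _ ≤ (A ^ 2 * (x ^ 2 + (1 + y) ^ 2)) / A := div_le_div_of_nonneg_right key hA0.le
      _ = _ := by field_simp
  have h9 : (1 + κ ^ 2) * (x * (x - arctan (y / x))) ≤ κ ^ 2 * (x ^ 2 + (1 + y) ^ 2) := by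
    have h10 : exp (-2 * y) * ((1 + κ ^ 2) * (x * (x - arctan (y / x)))) ≤
        exp (-2 * y) * (κ ^ 2 * (x ^ 2 + (1 + y) ^ 2)) := by
      calc exp (-2 * y) * ((1 + κ ^ 2) * (x * (x - arctan (y / x)))) =
            (exp (-2 * y) + A) * (x * (x - arctan (y / x))) := by rw [hA]; ring
        _ ≤ A * (x ^ 2 + (1 + y) ^ 2) := h8
        _ = _ := by rw [hA]; ring
    exact le_of_mul_le_mul_left h10 hexp0
  have h11 : (1 + κ ^ 2) * x / (κ * (x ^ 2 + (1 + y) ^ 2)) * (x - arctan (y / x)) =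
      ((1 + κ ^ 2) * (x * (x - arctan (y / x)))) / (κ * (x ^ 2 + (1 + y) ^ 2)) := by ring
  rw [h11, div_le_iff₀ (by positivity)]
  calc (1 + κ ^ 2) * (x * (x - arctan (y / x))) ≤ κ ^ 2 * (x ^ 2 + (1 + y) ^ 2) := h9
    _ = _ := by ring

/-! ### integrated forms -/

theorem DomR_of {κ t : ℝ} (hκ : 1 ≤ κ) (ht : t < π / 2) : DomR κ t := by
  refine ⟨by linarith, ht, Or.inl ?_⟩
  have : exp (-1) < 1 := by rw [exp_lt_one_iff]; norm_num
  linarith

theorem sy_zero {κ : ℝ} (hκ : 1 ≤ κ) : sy κ (-κ) = 0 ∧ sx κ (-κ) = κ := by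
  have h1 := s_unique (κ := κ) (t := -κ) (x := κ) (y := 0) (by linarith) (by linarith) (by simp) (by simp)
    (by simp; exact pi_pos) (by simp; exact pi_pos)
    (Or.inl (by
      have : exp (-1) < 1 := by rw [exp_lt_one_iff]; norm_num
      linarith))
  exact ⟨h1.2, h1.1⟩

theorem sE_zero {κ : ℝ} (hκ : 1 ≤ κ) : sE κ (-κ) = 1 := by
  unfold sE
  rw [(sy_zero hκ).1, (sy_zero hκ).2]
  have : κ ≠ 0 := by linarith
  field_simp
  ring

theorem sy_mono {κ t t' : ℝ} (hκ : 1 ≤ κ) (ht' : t' < π / 2) (h : t ≤ t') : sy κ t ≤ sy κ t' := by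
  have h1 : MonotoneOn (sy κ) (Iio (π / 2)) := by
    apply monotoneOn_of_deriv_nonneg (convex_Iio _)
    · intro s hs
      exact (hasDerivAt_sy (DomR_of hκ hs)).continuousAt.continuousWithinAt
    · intro s hs
      rw [interior_Iio] at hs
      exact (hasDerivAt_sy (DomR_of hκ hs)).differentiableAt.differentiableWithinAt
    · intro s hs
      rw [interior_Iio] at hs
      have hd := DomR_of hκ hs
      rw [(hasDerivAt_sy hd).deriv]
      have := Lk_pos (sy_spec hd).1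
      have := hd.1
      positivity
  exact h1 (mem_Iio.2 (lt_of_le_of_lt h ht')) (mem_Iio.2 ht') h

theorem sy_nonpos {κ t : ℝ} (hκ : 1 ≤ κ) (h : t ≤ -κ) : sy κ t ≤ 0 := by
  have := sy_mono hκ (by linarith [pi_pos] : -κ < π / 2) h
  rwa [(sy_zero hκ).1] at this

theorem sy_nonneg {κ t : ℝ} (hκ : 1 ≤ κ) (h : -κ ≤ t) (ht : t < π / 2) : 0 ≤ sy κ t := by
  have := sy_mono hκ ht h
  rwa [(sy_zero hκ).1] at this

/-- `L ≥ κ / |t|` for `t ≤ -κ` -/
theorem L_neg {κ t : ℝ} (hκ : 1 ≤ κ) (h : t ≤ -κ) : κ / (-t) ≤ Lk κ (sy κ t) := by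
  have hd := DomR_of hκ (by linarith [pi_pos] : t < π / 2)
  obtain ⟨hI, hT⟩ := sy_spec hd
  have h1 := Lk_neg hκ hI (sy_nonpos hκ h)
  rw [hT] at h1
  rw [div_le_iff₀ (by linarith)]
  exact h1

/-- `L ≤ κ / |t|` for `-κ ≤ t < 0` -/
theorem L_pos {κ t : ℝ} (hκ : 1 ≤ κ) (h : -κ ≤ t) (ht : t < 0) : Lk κ (sy κ t) ≤ κ / (-t) := by
  have hd := DomR_of hκ (by linarith [pi_pos] : t < π / 2)
  obtain ⟨hI, hT⟩ := sy_spec hd
  have h1 := Lk_nonneg_le hI (sy_nonneg hκ h (by linarith [pi_pos]))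
  rw [hT] at h1
  rw [le_div_iff₀ (by linarith)]
  exact h1

private theorem hasDerivAt_aux {κ t : ℝ} (hκ : 1 ≤ κ) (ht : t < 0) :
    HasDerivAt (fun t => sy κ t + κ ^ 2 / (1 + κ ^ 2) * log (-t / κ))
      (κ / (1 + κ ^ 2) * (Lk κ (sy κ t) - κ / (-t))) t := by
  have h1 := hasDerivAt_sy (DomR_of hκ (by linarith [pi_pos] : t < π / 2))
  have h2 : HasDerivAt (fun t : ℝ => -t / κ) (-1 / κ) t := (hasDerivAt_neg t).div_const κ
  have hk : 0 < κ := by linarith
  have h3 : -t / κ ≠ 0 := by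
    have : 0 < -t / κ := div_pos (by linarith) hk
    exact this.ne'
  have h4 := (h2.log h3).const_mul (κ ^ 2 / (1 + κ ^ 2))
  refine (h1.add h4).congr_deriv ?_
  have ht' : t ≠ 0 := ht.ne
  field_simp
  ring

/-- `y ≤ λ log (κ / |t|)` for all `t < 0`, `λ = κ² / (1 + κ²)` -/
theorem sy_le {κ t : ℝ} (hκ : 1 ≤ κ) (ht : t < 0) : sy κ t ≤ -(κ ^ 2 / (1 + κ ^ 2) * log (-t / κ)) := by
  have hk : 0 < κ := by linarith
  obtain ⟨f, hf⟩ : ∃ f : ℝ → ℝ, f = fun t => sy κ t + κ ^ 2 / (1 + κ ^ 2) * log (-t / κ) := ⟨_, rfl⟩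
  have hder : ∀ s, s < 0 → HasDerivAt f (κ / (1 + κ ^ 2) * (Lk κ (sy κ s) - κ / (-s))) s := by
    intro s hs; rw [hf]; exact hasDerivAt_aux hκ hs
  have hf0 : f (-κ) = 0 := by
    rw [hf]
    simp only [neg_neg]
    rw [(sy_zero hκ).1, div_self hk.ne', log_one]; simp
  have hle : f t ≤ 0 := by
    rw [← hf0]
    rcases le_total t (-κ) with h | h
    · have h1 : MonotoneOn f (Iic (-κ)) := by
        apply monotoneOn_of_deriv_nonneg (convex_Iic _)
        · intro s hs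
          exact (hder s (by have := mem_Iic.1 hs; linarith)).continuousAt.continuousWithinAt
        · intro s hs
          rw [interior_Iic] at hs
          exact (hder s (by have := mem_Iio.1 hs; linarith)).differentiableAt.differentiableWithinAt
        · intro s hs
          rw [interior_Iic] at hs
          have hs' := mem_Iio.1 hs
          rw [(hder s (by linarith)).deriv]
          have := L_neg hκ hs'.le
          apply mul_nonneg (by positivity)
          linarith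
      exact h1 (mem_Iic.2 h) (mem_Iic.2 le_rfl) h
    · have h1 : AntitoneOn f (Ico (-κ) 0) := by
        apply antitoneOn_of_deriv_nonpos (convex_Ico _ _)
        · intro s hs
          exact (hder s hs.2).continuousAt.continuousWithinAt
        · intro s hs
          rw [interior_Ico] at hs
          exact (hder s hs.2).differentiableAt.differentiableWithinAt
        · intro s hs
          rw [interior_Ico] at hs
          rw [(hder s hs.2).deriv]
          have := L_pos hκ hs.1.le hs.2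
          apply mul_nonpos_of_nonneg_of_nonpos (by positivity)
          linarith
      exact h1 (mem_Ico.2 ⟨le_rfl, by linarith⟩) (mem_Ico.2 ⟨h, ht⟩) h
  rw [hf] at hle
  simp only at hle
  linarith

/-! ### the criterion on the positive side -/

/-- `L` in terms of `q = 1/κ²` -/
theorem Lk_q {κ y : ℝ} (h : Iy κ y) :
    Lk κ y = (1 + 1 / κ ^ 2) * sqrt ((exp (-2 * y) - 1 / κ ^ 2 * y ^ 2) /
      (exp (-2 * y) + 1 / κ ^ 2 * (1 + 2 * y)) ^ 2) := by
  have hk := h.kpos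
  have hD := D_pos h
  have e : Xk κ y ^ 2 + (1 + y) ^ 2 = κ ^ 2 * (exp (-2 * y) + 1 / κ ^ 2 * (1 + 2 * y)) := by
    have := x_sq_add h
    have h2 : κ ^ 2 * (exp (-2 * y) + 1 / κ ^ 2 * (1 + 2 * y)) = κ ^ 2 * exp (-2 * y) + (1 + 2 * y) := by
      field_simp
    rw [h2]
    linarith
  have hQ : 0 < exp (-2 * y) + 1 / κ ^ 2 * (1 + 2 * y) := by
    rw [e] at hD
    exact (pos_iff_pos_of_mul_pos hD).1 (by positivity)
  have hX : Xk κ y = κ * sqrt (exp (-2 * y) - 1 / κ ^ 2 * y ^ 2) := by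
    unfold Xk gk
    have : κ ^ 2 * exp (-2 * y) - y ^ 2 = κ ^ 2 * (exp (-2 * y) - 1 / κ ^ 2 * y ^ 2) := by
      field_simp
    rw [this, sqrt_mul (by positivity), sqrt_sq hk.le]
  unfold Lk
  rw [e, hX, sqrt_div' _ (by positivity), sqrt_sq hQ.le]
  field_simp
  ring

/-- increasing in `κ`, for `y ≥ 0` -/
theorem Lk_mono_kappa {κ₀ κ y : ℝ} (h : κ₀ ≤ κ) (hy : 0 ≤ y) (hI : Iy κ₀ y) :
    Lk κ₀ y ≤ Lk κ y := by
  have h0 := hI.kpos
  have hk : 0 < κ := lt_of_lt_of_le h0 h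
  have hI' : Iy κ y := ⟨lt_of_lt_of_le hI.1 h, Or.inr (by linarith)⟩
  rw [Lk_q hI, Lk_q hI']
  obtain ⟨q₀, hq₀⟩ : ∃ q₀, q₀ = 1 / κ₀ ^ 2 := ⟨_, rfl⟩
  obtain ⟨q, hq⟩ : ∃ q, q = 1 / κ ^ 2 := ⟨_, rfl⟩
  obtain ⟨g, hg⟩ : ∃ g, g = exp (-2 * y) := ⟨_, rfl⟩
  have hg0 : 0 < g := by rw [hg]; exact exp_pos _
  have hg1 : g ≤ 1 := by rw [hg]; exact exp_le_one_iff.2 (by linarith)
  have hqq : q ≤ q₀ := by
    rw [hq, hq₀]
    exact one_div_le_one_div_of_le (by positivity) (pow_le_pow_left₀ h0.le h 2)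
  have hqpos : 0 < q := by rw [hq]; positivity
  have hN0 : 0 ≤ g - q₀ * y ^ 2 := by
    have h1 := hI.gpos
    unfold gk at h1
    have h2 : κ₀ ^ 2 * (g - q₀ * y ^ 2) = κ₀ ^ 2 * exp (-2 * y) - y ^ 2 := by
      rw [hg, hq₀]; field_simp
    rw [← h2] at h1
    exact ((pos_iff_pos_of_mul_pos h1).1 (by positivity)).le
  rw [← hq₀, ← hq, ← hg]
  have hQ0 : 0 < g + q₀ * (1 + 2 * y) := by
    have : 0 < q₀ := lt_of_lt_of_le hqpos hqq
    positivity
  have hQ : 0 < g + q * (1 + 2 * y) := by positivity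
  rw [sqrt_div' _ (by positivity), sqrt_sq hQ0.le, sqrt_div' _ (by positivity), sqrt_sq hQ.le]
  have h1 : sqrt (g - q₀ * y ^ 2) ≤ sqrt (g - q * y ^ 2) := by
    apply sqrt_le_sqrt
    nlinarith [sq_nonneg y]
  have h2 : (1 + q₀) / (g + q₀ * (1 + 2 * y)) ≤ (1 + q) / (g + q * (1 + 2 * y)) := by
    rw [div_le_div_iff₀ hQ0 hQ]
    nlinarith [mul_nonneg (sub_nonneg.2 hqq) (by linarith : 0 ≤ 1 + 2 * y - g)]
  have h3 : 0 ≤ (1 + q) / (g + q * (1 + 2 * y)) := by positivity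
  calc (1 + q₀) * (sqrt (g - q₀ * y ^ 2) / (g + q₀ * (1 + 2 * y))) =
        (1 + q₀) / (g + q₀ * (1 + 2 * y)) * sqrt (g - q₀ * y ^ 2) := by ring
    _ ≤ (1 + q) / (g + q * (1 + 2 * y)) * sqrt (g - q * y ^ 2) := mul_le_mul h2 h1 (sqrt_nonneg _) h3
    _ = _ := by ring

private theorem chi_anti {q y y' : ℝ} (hq : 0 ≤ q) (hy : 0 ≤ y) (h : y ≤ y') :
    1 - q * ((3 + 3 * y' + 2 * y' ^ 2) * exp (2 * y')) - q ^ 2 * (y' * exp (4 * y')) ≤
      1 - q * ((3 + 3 * y + 2 * y ^ 2) * exp (2 * y)) - q ^ 2 * (y * exp (4 * y)) := by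
  have hy'0 : 0 ≤ y' := hy.trans h
  have h1 : (3 + 3 * y + 2 * y ^ 2) * exp (2 * y) ≤ (3 + 3 * y' + 2 * y' ^ 2) * exp (2 * y') := by
    have : 0 ≤ 3 + 3 * y' + 2 * y' ^ 2 := by positivity
    gcongr
  have h2 : y * exp (4 * y) ≤ y' * exp (4 * y') := by
    have : 0 ≤ y' := hy.trans h
    gcongr
  nlinarith [mul_le_mul_of_nonneg_left h1 hq, mul_le_mul_of_nonneg_left h2 (sq_nonneg q)]

/-- unimodality on the positive side -/
theorem Lk_min {κ y y' : ℝ} (hy : 0 ≤ y) (h : y ≤ y') (hI : Iy κ y') : min 1 (Lk κ y') ≤ Lk κ y := by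
  have hk := hI.kpos
  have hI0 : Iy κ 0 := Iy.zero hk
  have hIy : Iy κ y := hI0.between hI hy h
  obtain ⟨q, hq⟩ : ∃ q, q = 1 / κ ^ 2 := ⟨_, rfl⟩
  have hq0 : 0 < q := by rw [hq]; positivity
  obtain ⟨R, hR⟩ : ∃ R : ℝ → ℝ, R = fun y => (exp (-2 * y) - q * y ^ 2) / (exp (-2 * y) + q * (1 + 2 * y)) ^ 2 := ⟨_, rfl⟩
  have hLR : ∀ z, Iy κ z → Lk κ z = (1 + q) * sqrt (R z) := by
    intro z hz
    rw [Lk_q hz, hR, hq]
  have hder : ∀ z, 0 ≤ z → HasDerivAt R (2 * exp (-2 * z) ^ 2 *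
      (1 - q * ((3 + 3 * z + 2 * z ^ 2) * exp (2 * z)) - q ^ 2 * (z * exp (4 * z))) /
      (exp (-2 * z) + q * (1 + 2 * z)) ^ 3) z := by
    intro z hz
    have hg : HasDerivAt (fun z : ℝ => exp (-2 * z)) (exp (-2 * z) * (-2)) z := by
      have := ((hasDerivAt_id z).const_mul (-2 : ℝ)).exp
      simpa using this
    have hN : HasDerivAt (fun z : ℝ => exp (-2 * z) - q * z ^ 2) (exp (-2 * z) * (-2) - q * (2 * z)) z := by
      have h2 : HasDerivAt (fun z : ℝ => z ^ 2) (2 * z) z := by simpa using hasDerivAt_pow 2 z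
      exact hg.sub (h2.const_mul q)
    have hQ : HasDerivAt (fun z : ℝ => exp (-2 * z) + q * (1 + 2 * z)) (exp (-2 * z) * (-2) + q * 2) z := by
      have h2 : HasDerivAt (fun z : ℝ => 1 + 2 * z) 2 z := by
        simpa using ((hasDerivAt_id z).const_mul (2 : ℝ)).const_add 1
      exact hg.add (h2.const_mul q)
    have hQp : 0 < exp (-2 * z) + q * (1 + 2 * z) := by have := exp_pos (-2 * z); positivity
    have h3 := hN.div (hQ.fun_pow 2) (by positivity)
    rw [hR]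
    refine h3.congr_deriv ?_
    have e2 : exp (2 * z) = (exp (-2 * z))⁻¹ := by rw [← exp_neg]; congr 1; ring
    have e4 : exp (4 * z) = ((exp (-2 * z))⁻¹) ^ 2 := by
      rw [← exp_neg, ← exp_nat_mul]; congr 1; push_cast; ring
    rw [e2, e4]
    have hgp := exp_pos (-2 * z)
    obtain ⟨g, hgd⟩ : ∃ g, g = exp (-2 * z) := ⟨_, rfl⟩
    rw [← hgd] at hgp hQp ⊢
    simp only [Nat.cast_ofNat, Nat.add_one_sub_one, pow_one]
    field_simp
    ring
  have hR0 : (1 + q) * sqrt (R 0) = 1 := by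
    rw [hR]
    simp only [mul_zero, exp_zero, add_zero, mul_one]
    have : (1 - q * 0 ^ 2) / (1 + q) ^ 2 = (1 / (1 + q)) ^ 2 := by field_simp; ring
    rw [this, sqrt_sq (by positivity)]
    field_simp
  have hQp : ∀ z, 0 ≤ z → 0 < exp (-2 * z) + q * (1 + 2 * z) := by
    intro z hz; have := exp_pos (-2 * z); positivity
  rcases le_total 0 (1 - q * ((3 + 3 * y + 2 * y ^ 2) * exp (2 * y)) - q ^ 2 * (y * exp (4 * y))) with hc | hc
  · refine (min_le_left _ _).trans ?_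
    have h1 : MonotoneOn R (Icc 0 y) := by
      apply monotoneOn_of_deriv_nonneg (convex_Icc _ _)
      · intro z hz
        exact (hder z hz.1).continuousAt.continuousWithinAt
      · intro z hz
        rw [interior_Icc] at hz
        exact (hder z hz.1.le).differentiableAt.differentiableWithinAt
      · intro z hz
        rw [interior_Icc] at hz
        rw [(hder z hz.1.le).deriv]
        have h2 := chi_anti hq0.le hz.1.le hz.2.le
        have h3 := hQp z hz.1.le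
        apply div_nonneg _ (by positivity)
        apply mul_nonneg (by positivity)
        exact hc.trans h2
    have h2 := h1 (left_mem_Icc.2 hy) (right_mem_Icc.2 hy) hy
    rw [hLR y hIy]
    calc (1:ℝ) = (1 + q) * sqrt (R 0) := hR0.symm
      _ ≤ (1 + q) * sqrt (R y) := mul_le_mul_of_nonneg_left (sqrt_le_sqrt h2) (by positivity)
  · refine (min_le_right _ _).trans ?_
    have h1 : AntitoneOn R (Icc y y') := by
      apply antitoneOn_of_deriv_nonpos (convex_Icc _ _)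
      · intro z hz
        exact (hder z (hy.trans hz.1)).continuousAt.continuousWithinAt
      · intro z hz
        rw [interior_Icc] at hz
        exact (hder z (hy.trans hz.1.le)).differentiableAt.differentiableWithinAt
      · intro z hz
        rw [interior_Icc] at hz
        rw [(hder z (hy.trans hz.1.le)).deriv]
        have h2 := chi_anti hq0.le hy hz.1.le
        have h3 := hQp z (hy.trans hz.1.le)
        apply div_nonpos_of_nonpos_of_nonneg _ (by positivity)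
        apply mul_nonpos_of_nonneg_of_nonpos (by positivity)
        exact h2.trans hc
    have h2 := h1 (left_mem_Icc.2 h) (right_mem_Icc.2 h) h
    rw [hLR y hIy, hLR y' hI]
    exact mul_le_mul_of_nonneg_left (sqrt_le_sqrt h2) (by positivity)

/-- lower bound of `τ` in terms of `y ≥ 0` -/
theorem tau_ge {κ y : ℝ} (hy : 0 ≤ y) (hI : Iy κ y) :
    κ * (1 - exp (-y)) + ((2 * y - 1) * exp y + 1) / κ ≤ κ + Tk κ y := by
  have hk := hI.kpos
  have hI0 : Iy κ 0 := Iy.zero hk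
  obtain ⟨f, hf⟩ : ∃ f : ℝ → ℝ, f = fun y => Tk κ y - κ * (1 - exp (-y)) - ((2 * y - 1) * exp y + 1) / κ := ⟨_, rfl⟩
  have hder : ∀ z, Iy κ z → HasDerivAt f ((Xk κ z ^ 2 + (1 + z) ^ 2) / Xk κ z - κ * exp (-z) -
      (1 + 2 * z) * exp z / κ) z := by
    intro z hz
    have h1 := (hasStrictDerivAt_Tk hz).hasDerivAt
    have h2 : HasDerivAt (fun z : ℝ => κ * (1 - exp (-z))) (κ * exp (-z)) z := by
      have h3 : HasDerivAt (fun z : ℝ => exp (-z)) (exp (-z) * (-1)) z := (hasDerivAt_neg z).exp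
      have h4 := (h3.const_sub 1).const_mul κ
      refine h4.congr_deriv ?_
      ring
    have h3 : HasDerivAt (fun z : ℝ => ((2 * z - 1) * exp z + 1) / κ) ((1 + 2 * z) * exp z / κ) z := by
      have h4 : HasDerivAt (fun z : ℝ => 2 * z - 1) 2 z := by
        simpa using ((hasDerivAt_id z).const_mul (2 : ℝ)).sub_const 1
      have h5 := ((h4.mul (hasDerivAt_exp z)).add_const 1).div_const κ
      refine h5.congr_deriv ?_
      ring
    rw [hf]
    exact (h1.sub h2).sub h3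
  have hmono : MonotoneOn f (Icc 0 y) := by
    apply monotoneOn_of_deriv_nonneg (convex_Icc _ _)
    · intro z hz
      exact (hder z (hI0.between hI hz.1 hz.2)).continuousAt.continuousWithinAt
    · intro z hz
      rw [interior_Icc] at hz
      exact (hder z (hI0.between hI hz.1.le hz.2.le)).differentiableAt.differentiableWithinAt
    · intro z hz
      rw [interior_Icc] at hz
      have hz' := hI0.between hI hz.1.le hz.2.le
      rw [(hder z hz').deriv]
      have hx := hz'.xpos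
      have hsq := x_sq_add hz'
      have hxle : Xk κ z ≤ κ * exp (-z) := by
        have e : κ ^ 2 * exp (-2 * z) = (κ * exp (-z)) ^ 2 := by
          rw [mul_pow, ← exp_nat_mul]; congr 2; push_cast; ring
        apply (sq_le_sq₀ hx.le (by positivity)).1
        rw [← e, ← hsq]
        have := sq_nonneg z
        linarith
      have h1 : (Xk κ z ^ 2 + (1 + z) ^ 2) / (κ * exp (-z)) ≤ (Xk κ z ^ 2 + (1 + z) ^ 2) / Xk κ z :=
        div_le_div_of_nonneg_left (by positivity) hx hxle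
      have h2 : (Xk κ z ^ 2 + (1 + z) ^ 2) / (κ * exp (-z)) = κ * exp (-z) + (1 + 2 * z) * exp z / κ := by
        have e1 : Xk κ z ^ 2 + (1 + z) ^ 2 = κ ^ 2 * exp (-2 * z) + (1 + 2 * z) := by linarith
        have e2 : exp (-2 * z) = exp (-z) * exp (-z) := by rw [← exp_add]; congr 1; ring
        have e3 : exp z = (exp (-z))⁻¹ := by rw [← exp_neg, neg_neg]
        rw [e1, e2, e3]
        have := exp_pos (-z)
        field_simp
      linarith
  have h1 := hmono (left_mem_Icc.2 hy) (right_mem_Icc.2 hy) hy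
  have h0 : f 0 = -κ := by
    rw [hf]
    simp only [neg_zero, exp_zero, sub_self, mul_zero, zero_sub]
    have : Tk κ 0 = -κ := by
      unfold Tk Xk gk
      simp [sqrt_sq hk.le]
    rw [this]; ring
  rw [h0, hf] at h1
  simp only at h1
  linarith

/-- **criterion**: a lower bound of `L` on `0 ≤ τ ≤ τm` -/
theorem L_ge {κ₀ κ y' l τm t : ℝ} (hκ : κ₀ ≤ κ) (h1κ : 1 ≤ κ) (hy' : 0 ≤ y') (hI : Iy κ₀ y') (hl1 : l ≤ 1)
    (hl : l ≤ Lk κ₀ y') (hτ : τm ≤ κ * (1 - exp (-y')) + ((2 * y' - 1) * exp y' + 1) / κ)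
    (ht0 : -κ ≤ t) (ht : t + κ ≤ τm) (htp : t < π / 2) : l ≤ Lk κ (sy κ t) ∧ sy κ t ≤ y' := by
  have hI' : Iy κ y' := ⟨lt_of_lt_of_le hI.1 hκ, Or.inr (by linarith)⟩
  have hd := DomR_of h1κ htp
  obtain ⟨hIs, hT⟩ := sy_spec hd
  have hs0 := sy_nonneg h1κ ht0 htp
  have h1 := tau_ge hy' hI'
  have h2 : sy κ t ≤ y' := by
    by_contra hcon
    push Not at hcon
    have h3 := Tk_strictMono hI' hIs hcon
    rw [hT] at h3
    linarith
  refine ⟨?_, h2⟩
  have h3 := Lk_min hs0 h2 hI'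
  have h4 := Lk_mono_kappa hκ hy' hI
  exact (le_min hl1 (hl.trans h4)).trans h3

end R2

end Sok
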