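import Pool.Agent.Lib.MP_816dec_an.R2FarA

/-!
MP_816dec_an (row R2, class `κ ≥ 20`): constants of the far lines.
A line is given by `(v, w, a)` with `a ≥ 40` and `|v|/β ≤ a/50`; all values are in units of `√(2π/a)`.
-/

set_option autoImplicit false

open Complex Set Filter Topology MeasureTheory

namespace Sok.R2.K20

/-- data of a line -/
structure LineK (β r v w a : ℝ) : Prop where
  hβ : 0 < β
  hr : 0 < r
  hs : Sgn v w
  hvw : β * r * Real.sin w = v * Real.exp v
  ha : a = r * (Real.exp (-v) * Real.cos w)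
  a40 : 40 ≤ a
  he : |v| / β ≤ a / 50
  hw1 : |w| ≤ 1 / 10

theorem exp16 : Real.exp (-16 : ℝ) ≤ 1 / 1000000 := by
  have h1 := Real.exp_one_gt_d9
  have h2 : Real.exp (-16 : ℝ) = (Real.exp 1 ^ 16)⁻¹ := by
    rw [Real.exp_neg]
    congr 1
    rw [← Real.exp_nat_mul]
    norm_num
  rw [h2]
  have h3 : (27 / 10 : ℝ) ^ 16 ≤ Real.exp 1 ^ 16 := pow_le_pow_left₀ (by norm_num) (by linarith) 16
  have h4 : (1000000 : ℝ) ≤ Real.exp 1 ^ 16 := le_trans (by norm_num) h3
  rw [one_div]
  exact inv_anti₀ (by norm_num) h4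

/-- tiny exponentials -/
theorem tiny0 {a : ℝ} (ha : 40 ≤ a) : Real.exp (-(2 / 5 * a)) ≤ 1 / 1000000 :=
  le_trans (Real.exp_le_exp.2 (by linarith)) exp16

theorem tinyA {a x : ℝ} (ha : 40 ≤ a) (hx : 9 / 10 * a ≤ x) : Real.exp (-x) ≤ 1 / 1000000 * (2 / a) := by
  have h1 : Real.exp (-x) ≤ Real.exp (-(2 / 5 * a)) * Real.exp (-(a / 2)) := by
    rw [← Real.exp_add]
    exact Real.exp_le_exp.2 (by linarith)
  have h2 : Real.exp (-(a / 2)) ≤ 2 / a := by
    rw [Real.exp_neg]
    have h3 := Real.add_one_le_exp (a / 2)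
    have h4 : a / 2 ≤ Real.exp (a / 2) := by linarith
    have h5 : (Real.exp (a / 2))⁻¹ ≤ (a / 2)⁻¹ := inv_anti₀ (by linarith) h4
    rwa [inv_div] at h5
  exact h1.trans (mul_le_mul (tiny0 ha) h2 (Real.exp_pos _).le (by norm_num))

theorem sqrt_cmp {x y c : ℝ} (hc : 0 ≤ c) (h : y ≤ c ^ 2 * x) : Real.sqrt y ≤ c * Real.sqrt x := by
  have h1 := Real.sqrt_le_sqrt h
  rwa [Real.sqrt_mul (sq_nonneg c), Real.sqrt_sq hc] at h1

/-- `1/a` against `√(2π/a)` -/
theorem inv_le_R {a : ℝ} (ha : 40 ≤ a) : 1 / a ≤ 7 / 100 * Real.sqrt (2 * Real.pi / a) := by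
  have hpi := Real.pi_gt_three
  have hpi' := Real.pi_lt_d2
  have h0 : (0 : ℝ) < a := by linarith
  have h1 : 2 * Real.pi / a ≤ (4 / 10) ^ 2 := by
    rw [div_le_iff₀ h0]; nlinarith
  have h2 : Real.sqrt (2 * Real.pi / a) ≤ 4 / 10 := by
    rw [Real.sqrt_le_left (by norm_num)]; exact h1
  have h3 : Real.sqrt (2 * Real.pi / a) * Real.sqrt (2 * Real.pi / a) = 2 * Real.pi / a :=
    Real.mul_self_sqrt (by positivity)
  have h4 := Real.sqrt_nonneg (2 * Real.pi / a)
  have h5 : 2 * Real.pi / a = 2 * Real.pi * (1 / a) := by ring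
  have h6 : 0 ≤ 1 / a := by positivity
  nlinarith

/-- `u/a` against `√(2π/a)` for `u² ≤ a/4` -/
theorem u_le_R {a u : ℝ} (ha : 40 ≤ a) (hua : u ^ 2 ≤ a / 4) :
    u / a ≤ 1996 / 10000 * Real.sqrt (2 * Real.pi / a) := by
  have hpi := Real.pi_gt_d2
  have h0 : (0 : ℝ) < a := by linarith
  have h3 : Real.sqrt (2 * Real.pi / a) * Real.sqrt (2 * Real.pi / a) = 2 * Real.pi / a :=
    Real.mul_self_sqrt (by positivity)
  have h4 := Real.sqrt_nonneg (2 * Real.pi / a)
  apply le_of_sq_le_sq _ (by positivity)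
  have e1 : (1996 / 10000 * Real.sqrt (2 * Real.pi / a)) ^ 2 = (1996 / 10000) ^ 2 * (2 * Real.pi / a) := by
    rw [mul_pow, sq (Real.sqrt _), h3]
  rw [e1, div_pow, div_le_iff₀ (by positivity)]
  have e2 : (1996 / 10000 : ℝ) ^ 2 * (2 * Real.pi / a) * a ^ 2 = (1996 / 10000) ^ 2 * (2 * Real.pi) * a := by
    field_simp
  rw [e2]
  nlinarith
where
  le_of_sq_le_sq {x y : ℝ} (h : x ^ 2 ≤ y ^ 2) (hy : 0 ≤ y) : x ≤ y := by
    have := abs_le_abs_of_sq_le_sq h
    exact le_trans (le_abs_self x) (by rwa [abs_of_nonneg hy] at this)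
  abs_le_abs_of_sq_le_sq {x y : ℝ} (h : x ^ 2 ≤ y ^ 2) : |x| ≤ |y| := sq_le_sq.1 h

theorem K0_le {a e : ℝ} (ha : 40 ≤ a) (he0 : 0 ≤ e) (he : e ≤ a / 50) :
    K0 a e ≤ 1047 / 1000 * Real.sqrt (2 * Real.pi / a) := by
  have hpi := Real.pi_pos
  have h0 : (0 : ℝ) < a := by linarith
  have hR := Real.sqrt_nonneg (2 * Real.pi / a)
  have c1 : 91 / 100 * a ≤ caR a e := by unfold caR; linarith
  have s1 : Real.sqrt (2 * Real.pi / caR a e) ≤ 10484 / 10000 * Real.sqrt (2 * Real.pi / a) := by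
    apply sqrt_cmp (by norm_num)
    have h1 : 2 * Real.pi / caR a e ≤ 2 * Real.pi / (91 / 100 * a) :=
      div_le_div_of_nonneg_left (by positivity) (by positivity) c1
    refine h1.trans ?_
    have e1 : 2 * Real.pi / (91 / 100 * a) = 100 / 91 * (2 * Real.pi / a) := by field_simp
    rw [e1]
    apply mul_le_mul_of_nonneg_right (by norm_num) (by positivity)
  have s2 : Real.sqrt (2 * Real.pi / (11 / 12 * a)) ≤ 10445 / 10000 * Real.sqrt (2 * Real.pi / a) := by
    apply sqrt_cmp (by norm_num)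
    have e1 : 2 * Real.pi / (11 / 12 * a) = 12 / 11 * (2 * Real.pi / a) := by field_simp
    rw [e1]
    apply mul_le_mul_of_nonneg_right (by norm_num) (by positivity)
  have t := tiny0 ha
  have t1 : Real.exp (-gR a e) ≤ 1 / 1000000 := by
    refine le_trans (Real.exp_le_exp.2 ?_) t
    unfold gR; linarith
  have t2 : Real.exp (-gL a e) ≤ 1 / 1000000 := by
    refine le_trans (Real.exp_le_exp.2 ?_) t
    unfold gL; linarith
  have n1 : 1 / 2 * a ≤ nuR a e := by unfold nuR; linarith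
  have n2 : 1 / 2 * a ≤ nuL a e := by unfold nuL; linarith
  have q1 : Real.exp (-gR a e) / nuR a e ≤ 2 / 1000000 * (1 / a) := by
    have := div_le_div₀ (by norm_num) t1 (by linarith : 0 < 1 / 2 * a) n1
    refine this.trans (le_of_eq ?_)
    field_simp
  have q2 : Real.exp (-gL a e) / nuL a e ≤ 2 / 1000000 * (1 / a) := by
    have := div_le_div₀ (by norm_num) t2 (by linarith : 0 < 1 / 2 * a) n2
    refine this.trans (le_of_eq ?_)
    field_simp
  have hi := inv_le_R ha
  unfold K0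
  linarith

theorem K1_le {a e : ℝ} (ha : 40 ≤ a) (he0 : 0 ≤ e) (he : e ≤ a / 50) : K1 a e ≤ 2192 / 1000 * (1 / a) := by
  have h0 : (0 : ℝ) < a := by linarith
  have hi : (0 : ℝ) < 1 / a := by positivity
  have c1 : 91 / 100 * a ≤ caR a e := by unfold caR; linarith
  have s1 : 1 / caR a e ≤ 100 / 91 * (1 / a) := by
    have h1 : 1 / caR a e ≤ 1 / (91 / 100 * a) := one_div_le_one_div_of_le (by positivity) c1
    refine h1.trans (le_of_eq ?_)
    field_simp
  have s2 : 1 / (11 / 12 * a) = 12 / 11 * (1 / a) := by field_simp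
  have t := tiny0 ha
  have t1 : Real.exp (-gR a e) ≤ 1 / 1000000 := by
    refine le_trans (Real.exp_le_exp.2 ?_) t
    unfold gR; linarith
  have t2 : Real.exp (-gL a e) ≤ 1 / 1000000 := by
    refine le_trans (Real.exp_le_exp.2 ?_) t
    unfold gL; linarith
  have n1 : 1 / 2 * a ≤ nuR a e := by unfold nuR; linarith
  have n2 : 1 / 2 * a ≤ nuL a e := by unfold nuL; linarith
  have i40 : 1 / a ≤ 1 / 40 := one_div_le_one_div_of_le (by norm_num) ha
  have key : ∀ x ν : ℝ, 0 ≤ x → x ≤ 1 / 1000000 → 1 / 2 * a ≤ ν → x * (1 / ν + 1 / ν ^ 2) ≤ 3 / 1000000 * (1 / a) := by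
    intro x ν hx0 hx hν
    have k1 : 1 / ν ≤ 2 * (1 / a) := by
      have h1 : 1 / ν ≤ 1 / (1 / 2 * a) := one_div_le_one_div_of_le (by positivity) hν
      refine h1.trans (le_of_eq ?_)
      field_simp
    have k0 : 0 < 1 / ν := by
      have : 0 < ν := lt_of_lt_of_le (by positivity) hν
      positivity
    have k2 : 1 / ν ^ 2 ≤ 1 / 20 * (2 * (1 / a)) := by
      rw [one_div, ← inv_pow, ← one_div, sq]
      exact mul_le_mul (by linarith) k1 k0.le (by norm_num)
    have k3 : 1 / ν + 1 / ν ^ 2 ≤ 3 * (1 / a) := by linarith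
    calc x * (1 / ν + 1 / ν ^ 2) ≤ 1 / 1000000 * (3 * (1 / a)) := by
          apply mul_le_mul hx k3 (by positivity) (by norm_num)
      _ = _ := by ring
  have q1 := key _ _ (Real.exp_pos (-gR a e)).le t1 n1
  have q2 := key _ _ (Real.exp_pos (-gL a e)).le t2 n2
  unfold K1
  rw [s2]
  linarith

namespace LineK

variable {β r v w a : ℝ}

theorem apos (D : LineK β r v w a) : 0 < a := by linarith [D.a40]

theorem vw (D : LineK β r v w a) : 0 ≤ v / β * w := by
  rcases D.hs with ⟨h1, h2, -⟩ | ⟨h1, h2, -⟩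
  · exact mul_nonneg (div_nonneg h1 D.hβ.le) h2
  · exact mul_nonneg_of_nonpos_of_nonpos (div_nonpos_of_nonpos_of_nonneg h1 D.hβ.le) h2

theorem a_le (D : LineK β r v w a) : a ≤ r * Real.exp (-v) := by
  rw [D.ha]
  have h1 := Real.cos_le_one w
  have h2 : 0 < r * Real.exp (-v) := mul_pos D.hr (Real.exp_pos _)
  nlinarith

theorem nu (D : LineK β r v w a) : 0 < nuR a (|v| / β) := by
  have h1 := D.he
  have h2 := D.a40
  unfold nuR; linarith

theorem ca (D : LineK β r v w a) : 0 < caR a (|v| / β) := by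
  have h1 := D.he
  have h2 := D.a40
  unfold caR; linarith

theorem zP_le (D : LineK β r v w a) : zP β r v a w ≤ 1 / 100000 * (1 / a) := by
  have ha := D.a40
  have h0 := D.apos
  have hβ := D.hβ
  have hpi := Real.pi_lt_d2
  have hpi0 := Real.pi_gt_three
  have he := D.he
  have hal := D.a_le
  have he0 : 0 ≤ |v| / β := div_nonneg (abs_nonneg _) hβ.le
  have e1 : |v| * Real.pi / (2 * β) = (|v| / β) * (Real.pi / 2) := by field_simp
  have e2 : |v| * Real.pi / β = (|v| / β) * Real.pi := by field_simp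
  have m0 : (|v| / β) * (Real.pi / 2) ≤ a / 25 := by nlinarith
  have m1 : Real.exp (|v| * Real.pi / (2 * β)) ≤ Real.exp (a / 25) := by
    rw [e1]; exact Real.exp_le_exp.2 m0
  have m2 : Real.exp (|v| * Real.pi / β - r * Real.exp (-v)) ≤ Real.exp (a / 25) := by
    rw [e2]; apply Real.exp_le_exp.2; nlinarith
  have m3 : Real.exp (-(|v| * Real.pi / (2 * β))) ≤ Real.exp (a / 25) := by
    apply Real.exp_le_exp.2
    have : 0 ≤ |v| * Real.pi / (2 * β) := by positivity
    linarith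
  have o : outB β r v ≤ 16 / 5 * Real.exp (a / 25) := by
    unfold outB
    have h1 := max_le m1 m2
    have hE := Real.exp_pos (a / 25)
    have h2 : max (Real.exp (|v| * Real.pi / (2 * β))) (Real.exp (|v| * Real.pi / β - r * Real.exp (-v))) +
        Real.exp (-(|v| * Real.pi / (2 * β))) ≤ 2 * Real.exp (a / 25) := by linarith
    calc _ ≤ Real.pi / 2 * (2 * Real.exp (a / 25)) := mul_le_mul_of_nonneg_left h2 (by positivity)
      _ ≤ _ := by nlinarith
  have t := tinyA (a := a) (x := 24 / 25 * a) ha (by linarith)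
  unfold zP
  have h3 : Real.exp (-(a + v / β * w)) ≤ Real.exp (-a) := Real.exp_le_exp.2 (by linarith [D.vw])
  calc outB β r v * Real.exp (-(a + v / β * w)) ≤ 16 / 5 * Real.exp (a / 25) * Real.exp (-a) :=
        mul_le_mul o h3 (Real.exp_pos _).le (by positivity)
    _ = 16 / 5 * Real.exp (-(24 / 25 * a)) := by
        rw [mul_assoc, ← Real.exp_add]; congr 2; ring
    _ ≤ 16 / 5 * (1 / 1000000 * (2 / a)) := mul_le_mul_of_nonneg_left t (by norm_num)
    _ ≤ _ := by
        have : 0 < 1 / a := by positivity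
        have e : 2 / a = 2 * (1 / a) := by ring
        rw [e]; linarith

theorem zP0 (_D : LineK β r v w a) : 0 ≤ zP β r v a w := zP_nonneg _ _ _ _ _

/-- the value constant -/
theorem V_le (D : LineK β r v w a) : K0 a (|v| / β) + zP β r v a w + 2 * (1 / 100000 * (1 / a)) ≤
    10471 / 10000 * Real.sqrt (2 * Real.pi / a) := by
  have h1 := K0_le D.a40 (div_nonneg (abs_nonneg v) D.hβ.le) D.he
  have h2 := D.zP_le
  have h3 := inv_le_R D.a40
  have h4 := Real.sqrt_nonneg (2 * Real.pi / a)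
  linarith

/-- legs, values -/
theorem leg_pi (D : LineK β r v w a) {t : ℝ} (ht : t ≤ Real.pi) :
    Leg β r t Real.pi v ≤ Real.exp (a + v / β * (w - t)) * (1 / 100000 * (1 / a)) := by
  have ha := D.a40
  have h0 := D.apos
  have hβ := D.hβ
  have hpi := Real.pi_lt_d2
  have hpi0 := Real.pi_gt_three
  have he := D.he
  have hal := D.a_le
  have h1 : 0 ≤ (Real.pi - t) / β := div_nonneg (by linarith) hβ.le
  have h2 : a ≤ (Real.pi - t) / β + r * Real.exp (-v) := by linarith
  refine (Leg_pi_le D.hr.le (by linarith)).trans ?_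
  have e1 : v / β ≤ |v| / β := div_le_div_of_nonneg_right (le_abs_self v) hβ.le
  have e0 : 0 ≤ |v| / β := div_nonneg (abs_nonneg _) hβ.le
  have e2 : Real.pi * v / β ≤ 4 * (a / 50) := by
    have : Real.pi * v / β = Real.pi * (v / β) := by ring
    rw [this]
    have : Real.pi * (v / β) ≤ Real.pi * (|v| / β) := mul_le_mul_of_nonneg_left e1 (by positivity)
    nlinarith
  have h3 : Real.exp (Real.pi * v / β - r * Real.exp (-v)) / ((Real.pi - t) / β + r * Real.exp (-v)) ≤
      Real.exp (-(9 / 10 * a)) / a :=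
    div_le_div₀ (Real.exp_pos _).le (Real.exp_le_exp.2 (by linarith)) h0 h2
  have h4 := mul_le_mul_of_nonneg_left h3 (Real.exp_pos (-(t * v / β))).le
  refine h4.trans ?_
  have e3 : Real.exp (a + v / β * (w - t)) = Real.exp (-(t * v / β)) * Real.exp (a + v / β * w) := by
    rw [← Real.exp_add]; congr 1; ring
  rw [e3, mul_assoc]
  apply mul_le_mul_of_nonneg_left _ (Real.exp_pos _).le
  have h5 : (1 : ℝ) ≤ Real.exp (a + v / β * w) := Real.one_le_exp (by linarith [D.vw])
  have t := tinyA (a := a) (x := 9 / 10 * a) ha le_rfl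
  have i0 : 0 < 1 / a := by positivity
  have i40 : 1 / a ≤ 1 / 40 := one_div_le_one_div_of_le (by norm_num) ha
  calc Real.exp (-(9 / 10 * a)) / a = Real.exp (-(9 / 10 * a)) * (1 / a) := by ring
    _ ≤ 1 / 1000000 * (1 / a) := by
        apply mul_le_mul_of_nonneg_right _ i0.le
        refine t.trans ?_
        have e : 2 / a = 2 * (1 / a) := by ring
        rw [e]; linarith
    _ ≤ 1 * (1 / 100000 * (1 / a)) := by linarith
    _ ≤ _ := mul_le_mul_of_nonneg_right h5 (by positivity)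

theorem leg_neg (D : LineK β r v w a) {t : ℝ} (ht : t ≤ -Real.pi) :
    Leg β r t (-Real.pi) v ≤ Real.exp (a + v / β * (w - t)) * (1 / 100000 * (1 / a)) := by
  have ha := D.a40
  have h0 := D.apos
  have hβ := D.hβ
  have hpi := Real.pi_lt_d2
  have hpi0 := Real.pi_gt_three
  have he := D.he
  have hal := D.a_le
  have h1 : 0 ≤ (-Real.pi - t) / β := div_nonneg (by linarith) hβ.le
  have h2 : a ≤ (-Real.pi - t) / β + r * Real.exp (-v) := by linarith
  refine (Leg_neg_pi_le D.hr.le (by linarith)).trans ?_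
  have e1 : -(v / β) ≤ |v| / β := by
    rw [← neg_div]; exact div_le_div_of_nonneg_right (neg_le_abs v) hβ.le
  have e0 : 0 ≤ |v| / β := div_nonneg (abs_nonneg _) hβ.le
  have e2 : -(Real.pi * v / β) ≤ 4 * (a / 50) := by
    have : -(Real.pi * v / β) = Real.pi * -(v / β) := by ring
    rw [this]
    have : Real.pi * -(v / β) ≤ Real.pi * (|v| / β) := mul_le_mul_of_nonneg_left e1 (by positivity)
    nlinarith
  have h3 : Real.exp (-(Real.pi * v / β) - r * Real.exp (-v)) / ((-Real.pi - t) / β + r * Real.exp (-v)) ≤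
      Real.exp (-(9 / 10 * a)) / a :=
    div_le_div₀ (Real.exp_pos _).le (Real.exp_le_exp.2 (by linarith)) h0 h2
  have h4 := mul_le_mul_of_nonneg_left h3 (Real.exp_pos (-(t * v / β))).le
  refine h4.trans ?_
  have e3 : Real.exp (a + v / β * (w - t)) = Real.exp (-(t * v / β)) * Real.exp (a + v / β * w) := by
    rw [← Real.exp_add]; congr 1; ring
  rw [e3, mul_assoc]
  apply mul_le_mul_of_nonneg_left _ (Real.exp_pos _).le
  have h5 : (1 : ℝ) ≤ Real.exp (a + v / β * w) := Real.one_le_exp (by linarith [D.vw])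
  have t := tinyA (a := a) (x := 9 / 10 * a) ha le_rfl
  have i0 : 0 < 1 / a := by positivity
  have i40 : 1 / a ≤ 1 / 40 := one_div_le_one_div_of_le (by norm_num) ha
  calc Real.exp (-(9 / 10 * a)) / a = Real.exp (-(9 / 10 * a)) * (1 / a) := by ring
    _ ≤ 1 / 1000000 * (1 / a) := by
        apply mul_le_mul_of_nonneg_right _ i0.le
        refine t.trans ?_
        have e : 2 / a = 2 * (1 / a) := by ring
        rw [e]; linarith
    _ ≤ 1 * (1 / 100000 * (1 / a)) := by linarith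
    _ ≤ _ := mul_le_mul_of_nonneg_right h5 (by positivity)

end LineK

end Sok.R2.K20
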