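import Pool.Agent.Lib.MP_816dec_an.R2K20A

/-!
MP_816dec_an (row R2, class `κ ≥ 20`): values and first moments of the far windows on a line.
-/

set_option autoImplicit false

open Complex Set Filter Topology MeasureTheory

namespace Sok.R2.K20

namespace LineK

variable {β r v w a : ℝ}

theorem w_lo (D : LineK β r v w a) : -(Real.pi / 2) < w := by
  have h1 := (abs_le.1 D.hw1).1
  have h2 := Real.pi_gt_three
  linarith

theorem w_hi (D : LineK β r v w a) : w < Real.pi / 2 := by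
  have h1 := (abs_le.1 D.hw1).2
  have h2 := Real.pi_gt_three
  linarith

/-- **value, type `A`** -/
theorem AA_val (D : LineK β r v w a) {t : ℝ} (ht : t ≤ -Real.pi) :
    ‖AA β r t‖ ≤ (Real.sqrt (2 * Real.pi * β))⁻¹ *
      (Real.exp (a + v / β * (w - t)) * (10471 / 10000 * Real.sqrt (2 * Real.pi / a))) := by
  have hpi := Real.pi_pos
  refine (AA_line (t := t) D.hβ D.hr D.hs D.hvw D.ha D.nu D.ca).trans ?_
  apply mul_le_mul_of_nonneg_left _ (by positivity)
  have h1 := D.leg_neg ht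
  have h2 := D.leg_pi (by linarith : t ≤ Real.pi)
  have h3 := mul_le_mul_of_nonneg_left D.V_le (Real.exp_pos (a + v / β * (w - t))).le
  linarith

theorem inv_q {q : ℝ} (hq : q ≤ 1 / 100) : 1 / (1 - q) ≤ 10102 / 10000 ∧ 0 < 1 - q ∧ 0 < 1 / (1 - q) := by
  have h1 : 0 < 1 - q := by linarith
  refine ⟨?_, h1, by positivity⟩
  rw [div_le_iff₀ h1]
  linarith

/-- **value, type `C`** -/
theorem CC_val (D : LineK β r v w a) (hv : 0 < v) {t : ℝ} (ht : t ≤ Real.pi)
    (hq : Real.exp (-(2 * Real.pi * v / β)) ≤ 1 / 100) :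
    ‖CC β r t‖ ≤ (Real.sqrt (2 * Real.pi * β))⁻¹ *
      (Real.exp (a + v / β * (w - t)) * (1058 / 1000 * Real.sqrt (2 * Real.pi / a))) := by
  have hpi := Real.pi_pos
  have hw : 0 ≤ w := by
    rcases D.hs with ⟨-, h, -⟩ | ⟨h, -, -⟩
    · exact h
    · exact absurd hv (not_lt.2 h)
  have hab : |v| / β = v / β := by rw [abs_of_pos hv]
  have hν := D.nu
  have hc := D.ca
  rw [hab] at hν hc
  refine (CC_p (t := t) D.hβ D.hr hv hw D.w_hi D.hvw D.ha hν hc).trans ?_
  apply mul_le_mul_of_nonneg_left _ (by positivity)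
  have h2 := D.leg_pi ht
  have h4 := D.V_le
  rw [hab] at h4
  obtain ⟨i1, i2, i3⟩ := inv_q hq
  have h5 : 0 < 1 / a := by have := D.apos; positivity
  have h6 : (K0 a (v / β) + zP β r v a w) / (1 - Real.exp (-(2 * Real.pi * v / β))) + 1 / 100000 * (1 / a) ≤
      1058 / 1000 * Real.sqrt (2 * Real.pi / a) := by
    have hR := Real.sqrt_nonneg (2 * Real.pi / a)
    have k0 : 0 ≤ K0 a (v / β) + zP β r v a w := by
      have := K0_nonneg D.apos (div_nonneg hv.le D.hβ.le) hν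
      have := D.zP0
      linarith
    rw [div_eq_mul_one_div]
    have := mul_le_mul_of_nonneg_left i1 k0
    linarith
  have h7 := mul_le_mul_of_nonneg_left h6 (Real.exp_pos (a + v / β * (w - t))).le
  linarith

/-- **value, type `R`** -/
theorem RR_val (D : LineK β r v w a) (hv : v < 0) {t : ℝ} (ht : t ≤ -Real.pi)
    (hq : Real.exp (2 * Real.pi * v / β) ≤ 1 / 100) :
    ‖RR β r t‖ ≤ (Real.sqrt (2 * Real.pi * β))⁻¹ *
      (Real.exp (a + v / β * (w - t)) * (1058 / 1000 * Real.sqrt (2 * Real.pi / a))) := by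
  have hpi := Real.pi_pos
  have hw : w ≤ 0 := by
    rcases D.hs with ⟨h, -, -⟩ | ⟨-, h, -⟩
    · exact absurd hv (not_lt.2 h)
    · exact h
  refine (RR_line (t := t) D.hβ D.hr hv hw D.w_lo D.hvw D.ha D.nu D.ca).trans ?_
  apply mul_le_mul_of_nonneg_left _ (by positivity)
  have h2 := D.leg_neg ht
  have h4 := D.V_le
  obtain ⟨i1, i2, i3⟩ := inv_q hq
  have h5 : 0 < 1 / a := by have := D.apos; positivity
  have h6 : (K0 a (|v| / β) + zP β r v a w) / (1 - Real.exp (2 * Real.pi * v / β)) + 1 / 100000 * (1 / a) ≤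
      1058 / 1000 * Real.sqrt (2 * Real.pi / a) := by
    have hR := Real.sqrt_nonneg (2 * Real.pi / a)
    have k0 : 0 ≤ K0 a (|v| / β) + zP β r v a w := by
      have := K0_nonneg D.apos (div_nonneg (abs_nonneg v) D.hβ.le) D.nu
      have := D.zP0
      linarith
    rw [div_eq_mul_one_div]
    have := mul_le_mul_of_nonneg_left i1 k0
    linarith
  have h7 := mul_le_mul_of_nonneg_left h6 (Real.exp_pos (a + v / β * (w - t))).le
  rw [mul_add] at h7
  have e1 : Real.exp (a + v / β * (w - t)) * (K0 a (|v| / β) + zP β r v a w) / (1 - Real.exp (2 * Real.pi * v / β)) =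
    Real.exp (a + v / β * (w - t)) * ((K0 a (|v| / β) + zP β r v a w) / (1 - Real.exp (2 * Real.pi * v / β))) := by
    rw [mul_div_assoc]
  rw [e1]
  linarith

/-! ### moments -/

private theorem tiny7 {a : ℝ} (ha : 40 ≤ a) : Real.exp (-(9 / 10 * a)) ≤ 1 / 10000000 := by
  have t := tinyA (a := a) (x := 9 / 10 * a) ha le_rfl
  have i40 : 1 / a ≤ 1 / 40 := one_div_le_one_div_of_le (by norm_num) ha
  have e : 2 / a = 2 * (1 / a) := by ring
  rw [e] at t
  linarith

private theorem legW_gen {a A δ : ℝ} (ha : 40 ≤ a) (hδ : a ≤ δ) (hA : 0 ≤ A) :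
    A / δ + 1 / δ ^ 2 ≤ (A + 1) * (1 / a) := by
  have h0 : (0 : ℝ) < a := by linarith
  have h1 : A / δ ≤ A * (1 / a) := by
    rw [← mul_one_div]
    exact mul_le_mul_of_nonneg_left (one_div_le_one_div_of_le h0 hδ) hA
  have h2 : 1 / δ ^ 2 ≤ 1 / a := by
    apply one_div_le_one_div_of_le h0
    nlinarith
  linarith

/-- weighted legs -/
theorem legW_pi (D : LineK β r v w a) {t d : ℝ} (ht : t ≤ Real.pi) (hd : 0 ≤ d) :
    ∀ y ≤ v, LegW β r t Real.pi y v (|Real.pi - w| + d) ≤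
      Real.exp (a + v / β * (w - t)) * (1 / 10000000 * ((d + 5) * (1 / a))) := by
  intro y hy
  have ha := D.a40
  have h0 := D.apos
  have hβ := D.hβ
  have hpi := Real.pi_lt_d2
  have hpi0 := Real.pi_gt_three
  have he := D.he
  have hal := D.a_le
  have h1 : 0 ≤ (Real.pi - t) / β := div_nonneg (by linarith) hβ.le
  have h2 : a ≤ (Real.pi - t) / β + r * Real.exp (-v) := by linarith
  have hA : 0 ≤ |Real.pi - w| + d := by positivity
  refine (LegW_pi_le D.hr.le hA (by linarith) hy).trans ?_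
  have e1 : v / β ≤ |v| / β := div_le_div_of_nonneg_right (le_abs_self v) hβ.le
  have e0 : 0 ≤ |v| / β := div_nonneg (abs_nonneg _) hβ.le
  have e2 : Real.pi * v / β ≤ 4 * (a / 50) := by
    have : Real.pi * v / β = Real.pi * (v / β) := by ring
    rw [this]
    have : Real.pi * (v / β) ≤ Real.pi * (|v| / β) := mul_le_mul_of_nonneg_left e1 (by positivity)
    nlinarith
  have h3 : Real.exp (Real.pi * v / β - r * Real.exp (-v)) ≤ 1 / 10000000 :=
    (Real.exp_le_exp.2 (by linarith)).trans (tiny7 ha)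
  have h4 := legW_gen ha h2 hA
  have h5 : |Real.pi - w| ≤ 4 := by
    have h6 := abs_le.1 D.hw1
    rw [abs_le]; constructor <;> linarith [h6.1, h6.2]
  have i0 : 0 < 1 / a := by positivity
  have h6 : (|Real.pi - w| + d + 1) * (1 / a) ≤ (d + 5) * (1 / a) :=
    mul_le_mul_of_nonneg_right (by linarith) i0.le
  have h7 : 0 ≤ (|Real.pi - w| + d) / ((Real.pi - t) / β + r * Real.exp (-v)) +
      1 / ((Real.pi - t) / β + r * Real.exp (-v)) ^ 2 := by
    have : 0 < (Real.pi - t) / β + r * Real.exp (-v) := by linarith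
    positivity
  have h8 := mul_le_mul h3 (h4.trans h6) h7 (by norm_num : (0 : ℝ) ≤ 1 / 10000000)
  have e3 : Real.exp (a + v / β * (w - t)) = Real.exp (-(t * v / β)) * Real.exp (a + v / β * w) := by
    rw [← Real.exp_add]; congr 1; ring
  have h9 : (1 : ℝ) ≤ Real.exp (a + v / β * w) := Real.one_le_exp (by linarith [D.vw])
  rw [e3, mul_assoc]
  apply mul_le_mul_of_nonneg_left _ (Real.exp_pos _).le
  refine h8.trans ?_
  have h10 : 0 ≤ 1 / 10000000 * ((d + 5) * (1 / a)) := by positivity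
  calc _ = 1 * (1 / 10000000 * ((d + 5) * (1 / a))) := by ring
    _ ≤ _ := mul_le_mul_of_nonneg_right h9 h10

theorem legW_neg (D : LineK β r v w a) {t d : ℝ} (ht : t ≤ -Real.pi) (hd : 0 ≤ d) :
    ∀ y ≤ v, LegW β r t (-Real.pi) y v (|-Real.pi - w| + d) ≤
      Real.exp (a + v / β * (w - t)) * (1 / 10000000 * ((d + 5) * (1 / a))) := by
  intro y hy
  have ha := D.a40
  have h0 := D.apos
  have hβ := D.hβ
  have hpi := Real.pi_lt_d2
  have hpi0 := Real.pi_gt_three
  have he := D.he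
  have hal := D.a_le
  have h1 : 0 ≤ (-Real.pi - t) / β := div_nonneg (by linarith) hβ.le
  have h2 : a ≤ (-Real.pi - t) / β + r * Real.exp (-v) := by linarith
  have hA : 0 ≤ |-Real.pi - w| + d := by positivity
  refine (LegW_neg_pi_le D.hr.le hA (by linarith) hy).trans ?_
  have e1 : -(v / β) ≤ |v| / β := by
    rw [← neg_div]; exact div_le_div_of_nonneg_right (neg_le_abs v) hβ.le
  have e0 : 0 ≤ |v| / β := div_nonneg (abs_nonneg _) hβ.le
  have e2 : -(Real.pi * v / β) ≤ 4 * (a / 50) := by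
    have : -(Real.pi * v / β) = Real.pi * -(v / β) := by ring
    rw [this]
    have : Real.pi * -(v / β) ≤ Real.pi * (|v| / β) := mul_le_mul_of_nonneg_left e1 (by positivity)
    nlinarith
  have h3 : Real.exp (-(Real.pi * v / β) - r * Real.exp (-v)) ≤ 1 / 10000000 :=
    (Real.exp_le_exp.2 (by linarith)).trans (tiny7 ha)
  have h4 := legW_gen ha h2 hA
  have h5 : |-Real.pi - w| ≤ 4 := by
    have h6 := abs_le.1 D.hw1
    rw [abs_le]; constructor <;> linarith [h6.1, h6.2]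
  have i0 : 0 < 1 / a := by positivity
  have h6 : (|-Real.pi - w| + d + 1) * (1 / a) ≤ (d + 5) * (1 / a) :=
    mul_le_mul_of_nonneg_right (by linarith) i0.le
  have h7 : 0 ≤ (|-Real.pi - w| + d) / ((-Real.pi - t) / β + r * Real.exp (-v)) +
      1 / ((-Real.pi - t) / β + r * Real.exp (-v)) ^ 2 := by
    have : 0 < (-Real.pi - t) / β + r * Real.exp (-v) := by linarith
    positivity
  have h8 := mul_le_mul h3 (h4.trans h6) h7 (by norm_num : (0 : ℝ) ≤ 1 / 10000000)
  have e3 : Real.exp (a + v / β * (w - t)) = Real.exp (-(t * v / β)) * Real.exp (a + v / β * w) := by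
    rw [← Real.exp_add]; congr 1; ring
  have h9 : (1 : ℝ) ≤ Real.exp (a + v / β * w) := Real.one_le_exp (by linarith [D.vw])
  rw [e3, mul_assoc]
  apply mul_le_mul_of_nonneg_left _ (Real.exp_pos _).le
  refine h8.trans ?_
  have h10 : 0 ≤ 1 / 10000000 * ((d + 5) * (1 / a)) := by positivity
  calc _ = 1 * (1 / 10000000 * ((d + 5) * (1 / a))) := by ring
    _ ≤ _ := mul_le_mul_of_nonneg_right h9 h10

/-- the moment constant of the main part -/
theorem M_le (D : LineK β r v w a) {u d Dd : ℝ} (hu : 0 ≤ u) (hd : 0 ≤ d) (hud : u * d ≤ Dd)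
    (hua : u ^ 2 ≤ a / 4) :
    u * (d * K0 a (|v| / β) + K1 a (|v| / β) + (d + (Real.pi + |w|)) * zP β r v a w +
      2 * (1 / 10000000 * ((d + 5) * (1 / a)))) ≤
      (10471 / 10000 * Dd + 438 / 1000) * Real.sqrt (2 * Real.pi / a) := by
  have hpi := Real.pi_lt_d2
  have e0 : 0 ≤ |v| / β := div_nonneg (abs_nonneg _) D.hβ.le
  have h1 := K0_le D.a40 e0 D.he
  have h2 := K1_le D.a40 e0 D.he
  have h3 := D.zP_le
  have h4 := inv_le_R D.a40
  have h5 := u_le_R D.a40 hua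
  have hR := Real.sqrt_nonneg (2 * Real.pi / a)
  obtain ⟨R, hRe⟩ : ∃ R, R = Real.sqrt (2 * Real.pi / a) := ⟨_, rfl⟩
  rw [← hRe] at h1 h4 h5 hR ⊢
  have hK0 := K0_nonneg D.apos e0 D.nu
  have hDd : 0 ≤ Dd := le_trans (mul_nonneg hu hd) hud
  have i0 : 0 < 1 / a := by have := D.apos; positivity
  have m1 : (u * d) * K0 a (|v| / β) ≤ Dd * (1047 / 1000 * R) := mul_le_mul hud h1 hK0 hDd
  have m2 : u * K1 a (|v| / β) ≤ 2192 / 1000 * (u / a) := by
    have := mul_le_mul_of_nonneg_left h2 hu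
    calc _ ≤ _ := this
      _ = _ := by ring
  have hw4 : Real.pi + |w| ≤ 4 := by have := D.hw1; linarith
  have m3 : (d + (Real.pi + |w|)) * zP β r v a w ≤ (d + 4) * (1 / 100000 * (1 / a)) :=
    mul_le_mul (by linarith) h3 D.zP0 (by linarith)
  have m4 := mul_le_mul_of_nonneg_left m3 hu
  have m5 : u * ((d + 4) * (1 / 100000 * (1 / a))) = 1 / 100000 * ((u * d) * (1 / a)) + 4 / 100000 * (u / a) := by ring
  have m6 : u * (2 * (1 / 10000000 * ((d + 5) * (1 / a)))) =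
      2 / 10000000 * ((u * d) * (1 / a)) + 10 / 10000000 * (u / a) := by ring
  have m7 : (u * d) * (1 / a) ≤ Dd * (7 / 100 * R) := mul_le_mul hud h4 i0.le hDd
  have m8 : 0 ≤ Dd * R := mul_nonneg hDd hR
  have e : u * (d * K0 a (|v| / β) + K1 a (|v| / β) + (d + (Real.pi + |w|)) * zP β r v a w +
      2 * (1 / 10000000 * ((d + 5) * (1 / a)))) = (u * d) * K0 a (|v| / β) + u * K1 a (|v| / β) +
      u * ((d + (Real.pi + |w|)) * zP β r v a w) + u * (2 * (1 / 10000000 * ((d + 5) * (1 / a)))) := by ring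
  rw [e]
  linarith

/-- **moment, type `A`** -/
theorem AA_mo (D : LineK β r v w a) {t c d Dd : ℝ} (ht : t ≤ -Real.pi) (L : ℂ) (hc : 0 ≤ c)
    (hd : |w - t - L.re| + |v - L.im| ≤ d) (hud : c * β⁻¹ * d ≤ Dd) (hua : (c * β⁻¹) ^ 2 ≤ a / 4) :
    c * ‖ew β r t * AA β r (t + β) - L / β * AA β r t‖ ≤ (Real.sqrt (2 * Real.pi * β))⁻¹ *
      (Real.exp (a + v / β * (w - t)) * ((10471 / 10000 * Dd + 438 / 1000) * Real.sqrt (2 * Real.pi / a))) := by
  have hpi := Real.pi_pos
  have hd0 : 0 ≤ d := le_trans (by positivity) hd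
  have hu : 0 ≤ c * β⁻¹ := mul_nonneg hc (inv_nonneg.2 D.hβ.le)
  have h1 := AA_line_mom (t := t) D.hβ D.hr D.hs D.hvw D.ha D.nu D.ca L hd
    (D.legW_pi (by linarith : t ≤ Real.pi) hd0) (D.legW_neg ht hd0)
  have h2 := mul_le_mul_of_nonneg_left h1 hc
  refine h2.trans ?_
  have h3 := D.M_le hu hd0 hud hua
  have h4 := mul_le_mul_of_nonneg_left h3 (Real.exp_pos (a + v / β * (w - t))).le
  have h5 := mul_le_mul_of_nonneg_left h4 (inv_nonneg.2 (Real.sqrt_nonneg (2 * Real.pi * β)))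
  refine le_trans (le_of_eq ?_) h5
  ring

private theorem mo_aux {q A B R u V : ℝ} (hq0 : 0 ≤ q) (hq : q ≤ 1 / 100) (hR : 0 ≤ R) (hu : 0 ≤ u) (hV0 : 0 ≤ V)
    (hV : V ≤ 10471 / 10000 * R) (hA0 : 0 ≤ A) (hB : 0 ≤ B) :
    u * (A / (1 - q) + 2 * Real.pi * q * V / (1 - q) ^ 2 + B) ≤
      10102 / 10000 * (u * (A + B)) + 672 / 100 * (u * q) * R := by
  obtain ⟨i1, i2, i3⟩ := inv_q hq
  have hpi := Real.pi_lt_d4
  have hpi0 := Real.pi_pos
  have h1 : A / (1 - q) ≤ A * (10102 / 10000) := by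
    rw [div_eq_mul_one_div]; exact mul_le_mul_of_nonneg_left i1 hA0
  have h2 : 1 / (1 - q) ^ 2 ≤ (10102 / 10000) ^ 2 := by
    rw [← one_div_pow]; exact pow_le_pow_left₀ i3.le i1 2
  have h3 : 2 * Real.pi * q * V / (1 - q) ^ 2 ≤ (2 * 31416 / 10000 * q * (10471 / 10000 * R)) * (10102 / 10000) ^ 2 := by
    rw [div_eq_mul_one_div]
    apply mul_le_mul _ h2 (by positivity) (by positivity)
    apply mul_le_mul _ hV hV0 (by positivity)
    apply mul_le_mul_of_nonneg_right _ hq0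
    linarith
  have h4 := mul_le_mul_of_nonneg_left (add_le_add (add_le_add h1 h3) (le_refl B)) hu
  refine h4.trans ?_
  have h5 : 0 ≤ u * B := mul_nonneg hu hB
  have h6 : 0 ≤ u * q * R := by positivity
  nlinarith

/-- **moment, type `C`** -/
theorem CC_mo (D : LineK β r v w a) (hv : 0 < v) {t c d Dd : ℝ} (ht : t ≤ Real.pi) (L : ℂ) (hc : 0 ≤ c)
    (hq : Real.exp (-(2 * Real.pi * v / β)) ≤ 1 / 100)
    (hd : |w - t - L.re| + |v - L.im| ≤ d) (hud : c * β⁻¹ * d ≤ Dd) (hua : (c * β⁻¹) ^ 2 ≤ a / 4) :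
    c * ‖ew β r t * CC β r (t + β) - L / β * CC β r t‖ ≤ (Real.sqrt (2 * Real.pi * β))⁻¹ *
      (Real.exp (a + v / β * (w - t)) * ((1058 / 1000 * Dd + 443 / 1000 +
        672 / 100 * (c * β⁻¹ * Real.exp (-(2 * Real.pi * v / β)))) * Real.sqrt (2 * Real.pi / a))) := by
  have hpi := Real.pi_pos
  have hw : 0 ≤ w := by
    rcases D.hs with ⟨-, h, -⟩ | ⟨h, -, -⟩
    · exact h
    · exact absurd hv (not_lt.2 h)
  have hd0 : 0 ≤ d := le_trans (by positivity) hd
  have hu : 0 ≤ c * β⁻¹ := mul_nonneg hc (inv_nonneg.2 D.hβ.le)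
  have hDd : 0 ≤ Dd := le_trans (mul_nonneg hu hd0) hud
  have hab : |v| / β = v / β := by rw [abs_of_pos hv]
  have hν := D.nu
  have hca := D.ca
  rw [hab] at hν hca
  have h1 := CC_p_mom (t := t) D.hβ D.hr hv hw D.w_hi D.hvw D.ha hν hca L hd (D.legW_pi ht hd0)
  have h2 := mul_le_mul_of_nonneg_left h1 hc
  refine h2.trans ?_
  have h3 := D.M_le hu hd0 hud hua
  rw [hab, abs_of_nonneg hw] at h3
  have hVl := D.V_le
  rw [hab] at hVl
  have hR := Real.sqrt_nonneg (2 * Real.pi / a)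
  have ha0 := D.apos
  have i0 : 0 < 1 / a := by positivity
  have e0 : 0 ≤ v / β := div_nonneg hv.le D.hβ.le
  have k0 := K0_nonneg D.apos e0 hν
  have k1 := K1_nonneg D.apos e0 hν hca
  have hV0 : 0 ≤ K0 a (v / β) + zP β r v a w := by have := D.zP0; linarith
  have hV : K0 a (v / β) + zP β r v a w ≤ 10471 / 10000 * Real.sqrt (2 * Real.pi / a) := by linarith
  have hA0 : 0 ≤ d * K0 a (v / β) + K1 a (v / β) + (d + (Real.pi + w)) * zP β r v a w := by
    have := D.zP0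
    positivity
  have hB0 : 0 ≤ 1 / 10000000 * ((d + 5) * (1 / a)) := by positivity
  have h4 := mo_aux (Real.exp_pos (-(2 * Real.pi * v / β))).le hq hR hu hV0 hV hA0 hB0
  have h5 : c * β⁻¹ * (d * K0 a (v / β) + K1 a (v / β) + (d + (Real.pi + w)) * zP β r v a w +
      1 / 10000000 * ((d + 5) * (1 / a))) ≤
      (10471 / 10000 * Dd + 438 / 1000) * Real.sqrt (2 * Real.pi / a) := by
    refine le_trans (mul_le_mul_of_nonneg_left ?_ hu) h3
    linarith
  have h6 : c * β⁻¹ * ((d * K0 a (v / β) + K1 a (v / β) + (d + (Real.pi + w)) * zP β r v a w) /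
      (1 - Real.exp (-(2 * Real.pi * v / β))) +
        2 * Real.pi * Real.exp (-(2 * Real.pi * v / β)) * (K0 a (v / β) + zP β r v a w) /
          (1 - Real.exp (-(2 * Real.pi * v / β))) ^ 2 + 1 / 10000000 * ((d + 5) * (1 / a))) ≤
      (1058 / 1000 * Dd + 443 / 1000 +
        672 / 100 * (c * β⁻¹ * Real.exp (-(2 * Real.pi * v / β)))) * Real.sqrt (2 * Real.pi / a) := by
    refine h4.trans ?_
    have : 0 ≤ Dd * Real.sqrt (2 * Real.pi / a) := mul_nonneg hDd hR
    linarith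
  have h7 := mul_le_mul_of_nonneg_left h6 (Real.exp_pos (a + v / β * (w - t))).le
  have h8 := mul_le_mul_of_nonneg_left h7 (inv_nonneg.2 (Real.sqrt_nonneg (2 * Real.pi * β)))
  refine le_trans (le_of_eq ?_) h8
  ring

/-- **moment, type `R`** -/
theorem RR_mo (D : LineK β r v w a) (hv : v < 0) {t c d Dd : ℝ} (ht : t ≤ -Real.pi) (L : ℂ) (hc : 0 ≤ c)
    (hq : Real.exp (2 * Real.pi * v / β) ≤ 1 / 100)
    (hd : |w - t - L.re| + |v - L.im| ≤ d) (hud : c * β⁻¹ * d ≤ Dd) (hua : (c * β⁻¹) ^ 2 ≤ a / 4) :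
    c * ‖ew β r t * RR β r (t + β) - L / β * RR β r t‖ ≤ (Real.sqrt (2 * Real.pi * β))⁻¹ *
      (Real.exp (a + v / β * (w - t)) * ((1058 / 1000 * Dd + 443 / 1000 +
        672 / 100 * (c * β⁻¹ * Real.exp (2 * Real.pi * v / β))) * Real.sqrt (2 * Real.pi / a))) := by
  have hpi := Real.pi_pos
  have hw : w ≤ 0 := by
    rcases D.hs with ⟨h, -, -⟩ | ⟨-, h, -⟩
    · exact absurd hv (not_lt.2 h)
    · exact h
  have hd0 : 0 ≤ d := le_trans (by positivity) hd
  have hu : 0 ≤ c * β⁻¹ := mul_nonneg hc (inv_nonneg.2 D.hβ.le)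
  have hDd : 0 ≤ Dd := le_trans (mul_nonneg hu hd0) hud
  have h1 := RR_line_mom (t := t) D.hβ D.hr hv hw D.w_lo D.hvw D.ha D.nu D.ca L hd (D.legW_neg ht hd0)
  have h2 := mul_le_mul_of_nonneg_left h1 hc
  refine h2.trans ?_
  have h3 := D.M_le hu hd0 hud hua
  have hVl := D.V_le
  have hR := Real.sqrt_nonneg (2 * Real.pi / a)
  have ha0 := D.apos
  have i0 : 0 < 1 / a := by positivity
  have e0 : 0 ≤ |v| / β := div_nonneg (abs_nonneg v) D.hβ.le
  have k0 := K0_nonneg D.apos e0 D.nu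
  have k1 := K1_nonneg D.apos e0 D.nu D.ca
  have hV0 : 0 ≤ K0 a (|v| / β) + zP β r v a w := by have := D.zP0; linarith
  have hV : K0 a (|v| / β) + zP β r v a w ≤ 10471 / 10000 * Real.sqrt (2 * Real.pi / a) := by linarith
  have hA0 : 0 ≤ d * K0 a (|v| / β) + K1 a (|v| / β) + (d + (Real.pi + |w|)) * zP β r v a w := by
    have := D.zP0
    positivity
  have hB0 : 0 ≤ 1 / 10000000 * ((d + 5) * (1 / a)) := by positivity
  have h4 := mo_aux (Real.exp_pos (2 * Real.pi * v / β)).le hq hR hu hV0 hV hA0 hB0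
  have h5 : c * β⁻¹ * (d * K0 a (|v| / β) + K1 a (|v| / β) + (d + (Real.pi + |w|)) * zP β r v a w +
      1 / 10000000 * ((d + 5) * (1 / a))) ≤
      (10471 / 10000 * Dd + 438 / 1000) * Real.sqrt (2 * Real.pi / a) := by
    refine le_trans (mul_le_mul_of_nonneg_left ?_ hu) h3
    linarith
  have h6 : c * β⁻¹ * ((d * K0 a (|v| / β) + K1 a (|v| / β) + (d + (Real.pi + |w|)) * zP β r v a w) /
      (1 - Real.exp (2 * Real.pi * v / β)) +
        2 * Real.pi * Real.exp (2 * Real.pi * v / β) * (K0 a (|v| / β) + zP β r v a w) /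
          (1 - Real.exp (2 * Real.pi * v / β)) ^ 2 + 1 / 10000000 * ((d + 5) * (1 / a))) ≤
      (1058 / 1000 * Dd + 443 / 1000 +
        672 / 100 * (c * β⁻¹ * Real.exp (2 * Real.pi * v / β))) * Real.sqrt (2 * Real.pi / a) := by
    refine h4.trans ?_
    have : 0 ≤ Dd * Real.sqrt (2 * Real.pi / a) := mul_nonneg hDd hR
    linarith
  have h7 := mul_le_mul_of_nonneg_left h6 (Real.exp_pos (a + v / β * (w - t))).le
  have h8 := mul_le_mul_of_nonneg_left h7 (inv_nonneg.2 (Real.sqrt_nonneg (2 * Real.pi * β)))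
  refine le_trans (le_of_eq ?_) h8
  ring

end LineK

end Sok.R2.K20
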