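import Pool.Agent.Lib.MP_816dec_an.R2K20B
import Pool.Agent.Lib.MP_816dec_an.R2Line
import Pool.Agent.Lib.MP_816dec_an.R2Defs

/-!
MP_816dec_an (row R2, class `κ ≥ 20`): the lines of slope `s`, `|s| ≤ 9/10`; exponents, prefactors; the windows.
-/

set_option autoImplicit false

open Complex Set Filter Topology MeasureTheory

namespace Sok.R2.K20

/-- the class -/
structure Big (b : ℕ) (β r : ℝ) : Prop where
  hb : 1 ≤ b
  hβ : 0 < β
  hr : 0 < r
  hκ : 20 ≤ β * r
  hT : 5441 / 1000 ≤ TT b β r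

namespace Big

variable {b : ℕ} {β r : ℝ}

theorem bpos (B : Big b β r) : (1 : ℝ) ≤ b := by exact_mod_cast B.hb

theorem hpos (B : Big b β r) : 0 < hh b := by
  have := B.bpos
  have := Real.pi_pos
  unfold hh; positivity

theorem h_le (B : Big b β r) : hh b ≤ 2 * Real.pi := by
  have h1 := B.bpos
  have h2 := Real.pi_pos
  unfold hh
  exact div_le_self (by positivity) h1

theorem h_le' (B : Big b β r) : hh b ≤ 62832 / 10000 := by
  have h1 := B.h_le
  have h2 := Real.pi_lt_d4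
  linarith

theorem hb_mul (B : Big b β r) : hh b * b = 2 * Real.pi := by
  have h1 := B.bpos
  unfold hh
  field_simp

theorem Tpos (B : Big b β r) : 0 < TT b β r := by linarith [B.hT]

theorem kpos (B : Big b β r) : 0 < β * r := by linarith [B.hκ]

theorem k1 (B : Big b β r) : 1 ≤ β * r := by linarith [B.hκ]

theorem Teq (_B : Big b β r) : TT b β r * (1 + (β * r) ^ 2) = r * hh b ^ 2 := by
  unfold TT
  field_simp

theorem ksq (B : Big b β r) : 400 ≤ (β * r) ^ 2 := by nlinarith [B.hκ]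

theorem r_ge (B : Big b β r) : 5526 / 100 ≤ r := by
  have h1 := B.Teq
  have h2 := B.ksq
  have h3 := B.h_le'
  have h4 := B.hpos
  have h5 : hh b ^ 2 ≤ (62832 / 10000) ^ 2 := pow_le_pow_left₀ h4.le h3 2
  have h6 : 5441 / 1000 * 401 ≤ TT b β r * (1 + (β * r) ^ 2) :=
    mul_le_mul B.hT (by linarith) (by norm_num) B.Tpos.le
  have h7 : TT b β r * (1 + (β * r) ^ 2) ≤ r * (62832 / 10000) ^ 2 := by
    rw [h1]; exact mul_le_mul_of_nonneg_left h5 B.hr.le
  nlinarith

/-- `κ h / (1 + κ²) ≤ .3134` -/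
theorem H_le (B : Big b β r) : (β * r) * hh b / (1 + (β * r) ^ 2) ≤ 3134 / 10000 := by
  have h0 : 0 < 1 + (β * r) ^ 2 := by positivity
  rw [div_le_iff₀ h0]
  have h1 := B.hκ
  have h2 := B.h_le'
  have h3 : (β * r) * hh b ≤ (β * r) * (62832 / 10000) := mul_le_mul_of_nonneg_left h2 B.kpos.le
  nlinarith

theorem H_pos (B : Big b β r) : 0 < (β * r) * hh b / (1 + (β * r) ^ 2) := by
  have h1 := B.kpos
  have h2 := B.hpos
  positivity

end Big

/-- the height of the line of slope `s` -/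
noncomputable def vS (b : ℕ) (β r s : ℝ) : ℝ := s * ((β * r) * hh b / (1 + (β * r) ^ 2))
/-- its saddle angle -/
noncomputable def wS (b : ℕ) (β r s : ℝ) : ℝ := Real.arctan (vS b β r s / Xk (β * r) (vS b β r s))
/-- its curvature -/
noncomputable def aS (b : ℕ) (β r s : ℝ) : ℝ := r * (Xk (β * r) (vS b β r s) / (β * r))

theorem exp_lo : 5568 / 10000 ≤ Real.exp (-(5642 / 10000) : ℝ) := by
  have h := Real.one_sub_div_pow_le_exp_neg (n := 8) (t := 5642 / 10000) (by norm_num)
  refine le_trans ?_ h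
  norm_num

/-- the data of the line of slope `s` -/
structure SL (b : ℕ) (β r s : ℝ) : Prop where
  B : Big b β r
  s9 : |s| ≤ 9 / 10
  I : Iy (β * r) (vS b β r s)

namespace SL

variable {b : ℕ} {β r s : ℝ}

theorem v_le (D : SL b β r s) : |vS b β r s| ≤ 28206 / 100000 := by
  unfold vS
  rw [abs_mul, abs_of_pos D.B.H_pos]
  have h1 := D.s9
  have h2 := D.B.H_le
  have h3 := D.B.H_pos
  nlinarith [abs_nonneg s]

theorem X_ge (D : SL b β r s) : 7441 / 10000 * (β * r) ≤ Xk (β * r) (vS b β r s) := by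
  have hv := D.v_le
  have hk := D.B.kpos
  have hk2 := D.B.ksq
  have hx := D.I.xsq
  have hxp := D.I.xpos
  apply le_of_sq_le hxp.le
  rw [hx]
  unfold gk
  have h1 : Real.exp (-(5642 / 10000) : ℝ) ≤ Real.exp (-2 * vS b β r s) := by
    apply Real.exp_le_exp.2
    have := (abs_le.1 hv).2
    linarith
  have h2 := exp_lo.trans h1
  have h3 : vS b β r s ^ 2 ≤ (28206 / 100000) ^ 2 := by
    rw [← sq_abs (vS b β r s)]
    exact pow_le_pow_left₀ (abs_nonneg _) hv 2
  have h4 := mul_le_mul_of_nonneg_left h2 (sq_nonneg (β * r))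
  have h5 : (7441 / 10000 * (β * r)) ^ 2 = (7441 / 10000) ^ 2 * (β * r) ^ 2 := by ring
  rw [h5]
  nlinarith
where
  le_of_sq_le {x y : ℝ} (hy : 0 ≤ y) (h : x ^ 2 ≤ y ^ 2) : x ≤ y :=
    le_trans (le_abs_self x) (abs_le_of_sq_le_sq h hy |> fun h' => h')

/-- on the left `X ≥ κ` -/
theorem X_ge_neg (D : SL b β r s) (hs : s ≤ 0) : β * r ≤ Xk (β * r) (vS b β r s) := by
  have hk := D.B.kpos
  have hx := D.I.xsq
  have hxp := D.I.xpos
  have hv0 : vS b β r s ≤ 0 := mul_nonpos_of_nonpos_of_nonneg hs D.B.H_pos.le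
  have hv := (abs_le.1 D.v_le).1
  apply abs_le_of_sq_le_sq' _ hxp.le |>.2
  rw [hx]
  unfold gk
  have h1 := Real.add_one_le_exp (-2 * vS b β r s)
  have h2 := mul_le_mul_of_nonneg_left h1 (sq_nonneg (β * r))
  have h3 := D.B.ksq
  nlinarith

theorem v_sgn_pos (D : SL b β r s) (hs : 0 ≤ s) : 0 ≤ vS b β r s := mul_nonneg hs D.B.H_pos.le
theorem v_sgn_neg (D : SL b β r s) (hs : s ≤ 0) : vS b β r s ≤ 0 :=
  mul_nonpos_of_nonpos_of_nonneg hs D.B.H_pos.le

theorem sgn (D : SL b β r s) : Sgn (vS b β r s) (wS b β r s) := by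
  have hx := D.I.xpos
  rcases le_total 0 s with h | h
  · left
    have h1 := D.v_sgn_pos h
    exact ⟨h1, Real.arctan_nonneg.2 (div_nonneg h1 hx.le), Real.arctan_lt_pi_div_two _⟩
  · right
    have h1 := D.v_sgn_neg h
    refine ⟨h1, ?_, Real.neg_pi_div_two_lt_arctan _⟩
    have h2 : vS b β r s / Xk (β * r) (vS b β r s) ≤ 0 := div_nonpos_of_nonpos_of_nonneg h1 hx.le
    have := Real.arctan_mono h2
    rwa [Real.arctan_zero] at this

theorem abs_w_le (D : SL b β r s) : |wS b β r s| ≤ |vS b β r s| / Xk (β * r) (vS b β r s) := by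
  have hx := D.I.xpos
  have h1 : ∀ x : ℝ, 0 ≤ x → |Real.arctan x| ≤ x := by
    intro x hx
    rw [abs_of_nonneg (Real.arctan_nonneg.2 hx)]
    rcases hx.eq_or_lt with h | h
    · rw [← h, Real.arctan_zero]
    · have h2 := Real.lt_tan (Real.arctan_pos.2 h) (Real.arctan_lt_pi_div_two x)
      rw [Real.tan_arctan] at h2
      exact h2.le
  unfold wS
  rcases le_total 0 (vS b β r s) with h | h
  · rw [abs_of_nonneg h]
    exact h1 _ (div_nonneg h hx.le)
  · rw [abs_of_nonpos h]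
    have h2 := h1 (-vS b β r s / Xk (β * r) (vS b β r s)) (div_nonneg (by linarith) hx.le)
    rwa [neg_div, Real.arctan_neg, abs_neg, ← neg_div] at h2

theorem line (D : SL b β r s) : LineK β r (vS b β r s) (wS b β r s) (aS b β r s) where
  hβ := D.B.hβ
  hr := D.B.hr
  hs := D.sgn
  hvw := (Mv_spec D.I).1
  ha := by
    have h1 := (Mv_spec D.I).2
    have hk := D.B.kpos
    have hE : Real.exp (-vS b β r s) * Real.exp (vS b β r s) = 1 := by rw [← Real.exp_add]; simp
    unfold aS wS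
    congr 1
    rw [div_eq_iff hk.ne']
    calc Xk (β * r) (vS b β r s) = Xk (β * r) (vS b β r s) * (Real.exp (-vS b β r s) * Real.exp (vS b β r s)) := by
          rw [hE, mul_one]
      _ = Real.exp (-vS b β r s) * (Xk (β * r) (vS b β r s) * Real.exp (vS b β r s)) := by ring
      _ = _ := by rw [← h1]; ring
  a40 := by
    have h1 := D.X_ge
    have h2 := D.B.r_ge
    have hk := D.B.kpos
    have h3 : 7441 / 10000 ≤ Xk (β * r) (vS b β r s) / (β * r) := by
      rw [le_div_iff₀ hk]; exact h1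
    unfold aS
    nlinarith
  he := by
    have h1 := D.X_ge
    have h2 := D.v_le
    have hκ := D.B.hκ
    have hk := D.B.kpos
    have hβ := D.B.hβ
    have hr := D.B.hr
    unfold aS
    rw [div_le_iff₀ hβ]
    have e : r * (Xk (β * r) (vS b β r s) / (β * r)) / 50 * β = Xk (β * r) (vS b β r s) / 50 := by
      field_simp
    rw [e]
    linarith
  hw1 := by
    refine D.abs_w_le.trans ?_
    rw [div_le_iff₀ D.I.xpos]
    have h1 := D.X_ge
    have h2 := D.v_le
    have hκ := D.B.hκ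
    linarith

/-- the exponent -/
theorem expo (D : SL b β r s) {C : ℝ} (hC : (1 + (β * r) ^ 2) * (Mv (β * r) (vS b β r s) + vS b β r s - 1) ≤ hh b ^ 2 * C)
    (k : ℤ) (z : ℝ) :
    Real.exp (aS b β r s + vS b β r s / β * (wS b β r s - tk b β r k z)) ≤
      Real.exp (-(TT b β r * (s * (k + z) - C))) * Real.exp r := by
  rw [← Real.exp_add]
  apply Real.exp_le_exp.2
  have hk := D.B.kpos
  have hβ := D.B.hβ
  have hr := D.B.hr
  have hT := D.B.Teq
  have h0 : 0 < 1 + (β * r) ^ 2 := by positivity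
  have e1 : aS b β r s + vS b β r s / β * wS b β r s = r * Mv (β * r) (vS b β r s) := by
    unfold aS wS Mv
    field_simp
  have e2 : vS b β r s / β * hh b = s * TT b β r := by
    unfold vS TT
    field_simp
  have e3 : vS b β r s / β * (β * r) = r * vS b β r s := by field_simp
  have e4 : aS b β r s + vS b β r s / β * (wS b β r s - tk b β r k z) =
      r * Mv (β * r) (vS b β r s) + r * vS b β r s - s * TT b β r * (k + z) := by
    unfold tk
    calc _ = (aS b β r s + vS b β r s / β * wS b β r s) + vS b β r s / β * (β * r) -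
        (vS b β r s / β * hh b) * (k + z) := by ring
      _ = _ := by rw [e1, e2, e3]
  rw [e4]
  have h1 : r * (Mv (β * r) (vS b β r s) + vS b β r s - 1) ≤ TT b β r * C := by
    have h2 := mul_le_mul_of_nonneg_left hC hr.le
    have h3 : r * (hh b ^ 2 * C) = (1 + (β * r) ^ 2) * (TT b β r * C) := by
      rw [← mul_assoc, ← hT]; ring
    have h4 : r * ((1 + (β * r) ^ 2) * (Mv (β * r) (vS b β r s) + vS b β r s - 1)) =
      (1 + (β * r) ^ 2) * (r * (Mv (β * r) (vS b β r s) + vS b β r s - 1)) := by ring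
    rw [h3, h4] at h2
    exact le_of_mul_le_mul_left h2 h0
  linarith

/-- the prefactor -/
theorem pref (D : SL b β r s) {p : ℝ} (hp : 0 ≤ p)
    (h : Real.sqrt (1 + (β * r) ^ 2) ≤ p ^ 2 * Xk (β * r) (vS b β r s)) :
    (Real.sqrt (2 * Real.pi * β))⁻¹ * Real.sqrt (2 * Real.pi / aS b β r s) ≤
      p / Real.sqrt (Real.sqrt (1 + (β * r) ^ 2)) := by
  have hk := D.B.kpos
  have hβ := D.B.hβ
  have hr := D.B.hr
  have hx := D.I.xpos
  have hpi := Real.pi_pos
  have h0 : 0 < 1 + (β * r) ^ 2 := by positivity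
  have h1 : 0 < Real.sqrt (1 + (β * r) ^ 2) := Real.sqrt_pos.2 h0
  have h2 : 0 < Real.sqrt (Real.sqrt (1 + (β * r) ^ 2)) := Real.sqrt_pos.2 h1
  have h3 : 0 < Real.sqrt (2 * Real.pi * β) := Real.sqrt_pos.2 (by positivity)
  rw [le_div_iff₀ h2, inv_mul_eq_div, div_mul_eq_mul_div, div_le_iff₀ h3]
  have ha : 0 < aS b β r s := D.line.apos
  have e1 : Real.sqrt (2 * Real.pi / aS b β r s) * Real.sqrt (Real.sqrt (1 + (β * r) ^ 2)) =
      Real.sqrt (2 * Real.pi / aS b β r s * Real.sqrt (1 + (β * r) ^ 2)) := (Real.sqrt_mul (by positivity) _).symm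
  rw [e1]
  apply sqrt_cmp hp
  have e2 : 2 * Real.pi / aS b β r s * Real.sqrt (1 + (β * r) ^ 2) =
      2 * Real.pi * β * (Real.sqrt (1 + (β * r) ^ 2) / Xk (β * r) (vS b β r s)) := by
    unfold aS
    field_simp
  rw [e2]
  have h4 : Real.sqrt (1 + (β * r) ^ 2) / Xk (β * r) (vS b β r s) ≤ p ^ 2 := by
    rw [div_le_iff₀ hx]; exact h
  have h5 := mul_le_mul_of_nonneg_left h4 (by positivity : 0 ≤ 2 * Real.pi * β)
  linarith

theorem sq_le (B : Big b β r) : Real.sqrt (1 + (β * r) ^ 2) ≤ 100125 / 100000 * (β * r) := by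
  have hk := B.kpos
  rw [Real.sqrt_le_left (by positivity)]
  have := B.ksq
  nlinarith

theorem pref_r (D : SL b β r s) : (Real.sqrt (2 * Real.pi * β))⁻¹ * Real.sqrt (2 * Real.pi / aS b β r s) ≤
      (116 / 100) / Real.sqrt (Real.sqrt (1 + (β * r) ^ 2)) := by
  apply D.pref (by norm_num)
  have h1 := sq_le D.B
  have h2 := D.X_ge
  have hk := D.B.kpos
  linarith

theorem pref_l (D : SL b β r s) (hs : s ≤ 0) :
    (Real.sqrt (2 * Real.pi * β))⁻¹ * Real.sqrt (2 * Real.pi / aS b β r s) ≤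
      (1001 / 1000) / Real.sqrt (Real.sqrt (1 + (β * r) ^ 2)) := by
  apply D.pref (by norm_num)
  have h1 := sq_le D.B
  have h2 := D.X_ge_neg hs
  have hk := D.B.kpos
  linarith

/-- from a bound on the line to a bound in units of `GN` -/
theorem toGN {p x e K : ℝ} {k : ℤ} {z C : ℝ} (hx : 0 ≤ x)
    (hpre : (Real.sqrt (2 * Real.pi * β))⁻¹ * Real.sqrt (2 * Real.pi / aS b β r s) ≤
      p / Real.sqrt (Real.sqrt (1 + (β * r) ^ 2)))
    (he : e ≤ Real.exp (-(TT b β r * (s * (k + z) - C))) * Real.exp r) (he0 : 0 ≤ e) (hp : p * x ≤ K) :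
    (Real.sqrt (2 * Real.pi * β))⁻¹ * (e * (x * Real.sqrt (2 * Real.pi / aS b β r s))) ≤
      K * Real.exp (-(TT b β r * (s * (k + z) - C))) * GN β r := by
  have h2 : 0 ≤ Real.sqrt (Real.sqrt (1 + (β * r) ^ 2)) := Real.sqrt_nonneg _
  have hE := Real.exp_pos (-(TT b β r * (s * (k + z) - C)))
  have hEr := Real.exp_pos r
  have h0 : 0 ≤ (Real.sqrt (2 * Real.pi * β))⁻¹ * Real.sqrt (2 * Real.pi / aS b β r s) := by positivity
  calc (Real.sqrt (2 * Real.pi * β))⁻¹ * (e * (x * Real.sqrt (2 * Real.pi / aS b β r s))) =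
        x * (((Real.sqrt (2 * Real.pi * β))⁻¹ * Real.sqrt (2 * Real.pi / aS b β r s)) * e) := by ring
    _ ≤ x * ((p / Real.sqrt (Real.sqrt (1 + (β * r) ^ 2))) *
        (Real.exp (-(TT b β r * (s * (k + z) - C))) * Real.exp r)) := by
        apply mul_le_mul_of_nonneg_left _ hx
        exact mul_le_mul hpre he he0 (le_trans h0 hpre)
    _ = (p * x) * (Real.exp (-(TT b β r * (s * (k + z) - C))) * GN β r) := by unfold GN; ring
    _ ≤ K * (Real.exp (-(TT b β r * (s * (k + z) - C))) * GN β r) := by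
        apply mul_le_mul_of_nonneg_right hp
        unfold GN; positivity
    _ = _ := by ring

/-- `u² ≤ a/4` for `u = h / (T β)` -/
theorem u_sq (D : SL b β r s) : (hh b / TT b β r * β⁻¹) ^ 2 ≤ aS b β r s / 4 := by
  have hk := D.B.kpos
  have hk2 := D.B.ksq
  have hβ := D.B.hβ
  have hr := D.B.hr
  have hT := D.B.Teq
  have hTp := D.B.Tpos
  have hT0 := D.B.hT
  have hx := D.X_ge
  have h0 : 0 < 1 + (β * r) ^ 2 := by positivity
  have hh2 : hh b ^ 2 = TT b β r * (1 + (β * r) ^ 2) / r := by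
    rw [hT]; field_simp
  have e1 : (hh b / TT b β r * β⁻¹) ^ 2 = (1 + (β * r) ^ 2) / (r * TT b β r * β ^ 2) := by
    rw [mul_pow, div_pow, hh2]
    field_simp
  have e2 : aS b β r s / 4 = r * Xk (β * r) (vS b β r s) / (4 * (β * r)) := by
    unfold aS
    field_simp
  rw [e1, e2, div_le_div_iff₀ (by positivity) (by positivity)]
  have h1 : 4 * (1 + (β * r) ^ 2) ≤ 401 / 100 * (β * r) ^ 2 := by linarith
  have h2 : 7441 / 10000 * (5441 / 1000) * (β * r) ≤ Xk (β * r) (vS b β r s) * TT b β r := by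
    calc 7441 / 10000 * (5441 / 1000) * (β * r) = (7441 / 10000 * (β * r)) * (5441 / 1000) := by ring
      _ ≤ _ := mul_le_mul hx hT0 (by norm_num) D.I.xpos.le
  have h3 : 4 * (1 + (β * r) ^ 2) ≤ (β * r) * (Xk (β * r) (vS b β r s) * TT b β r) := by
    have := mul_le_mul_of_nonneg_left h2 hk.le
    nlinarith
  have h4 := mul_le_mul_of_nonneg_left h3 hk.le
  calc (1 + (β * r) ^ 2) * (4 * (β * r)) = (β * r) * (4 * (1 + (β * r) ^ 2)) := by ring
    _ ≤ _ := h4
    _ = _ := by ring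

/-- the decay of a period -/
theorem q_eq (B : Big b β r) (s : ℝ) : 2 * Real.pi * vS b β r s / β = s * TT b β r * b := by
  have hk := B.kpos
  have hβ := B.hβ
  have h1 := B.hb_mul
  have h0 : 0 < 1 + (β * r) ^ 2 := by positivity
  rw [← h1]
  unfold vS TT
  field_simp

end SL

end Sok.R2.K20
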