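import Pool.Agent.Lib.MP_816dec_an.R2K20C
import Pool.Agent.Lib.MP_816dec_an.R2Num6

/-!
MP_816dec_an (row R2, class `κ ≥ 20`): the windows, and the distances `d_k`.
-/

set_option autoImplicit false

open Complex Set Filter Topology MeasureTheory

namespace Sok.R2.K20

/-! ### the windows in terms of `AA`, `CC`, `RR` -/

section win

variable {b : ℕ} {β r : ℝ}

private theorem W_re (k : ℤ) (z : ℝ) (c : ℝ) :
    (wz b β r z + c * I + 2 * Real.pi * k / b * I).re = Real.log r := by
  unfold wz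
  have e : (2 * Real.pi * k / b * I : ℂ) = ((2 * Real.pi * k / b : ℝ) : ℂ) * I := by push_cast; ring
  rw [e]
  simp [-Complex.ofReal_div, -Complex.ofReal_mul]

private theorem W_im (k : ℤ) (z : ℝ) (c : ℝ) :
    (wz b β r z + c * I + 2 * Real.pi * k / b * I).im - β / 2 = tk b β r k z + c := by
  unfold wz tk hh
  have e : (2 * Real.pi * k / b * I : ℂ) = ((2 * Real.pi * k / b : ℝ) : ℂ) * I := by push_cast; ring
  rw [e]
  simp [-Complex.ofReal_div, -Complex.ofReal_mul]
  ring

private theorem W0 (k : ℤ) (z : ℝ) : wz b β r z + 2 * Real.pi * k / b * I =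
    wz b β r z + ((0 : ℝ) : ℂ) * I + 2 * Real.pi * k / b * I := by push_cast; ring

theorem deriv_Xw (hβ : 0 < β) (hr : 0 < r) (aw : ℤ) (n : ℕ) (k : ℤ) (z : ℝ) :
    deriv (Xw b β aw n k) (wz b β r z) = ew β r (tk b β r k z) * Xw b β aw n k (wz b β r z + β * I) := by
  unfold Xw
  rw [(hasDerivAt_XW hβ b aw (aw + n * b) k (wz b β r z)).deriv]
  congr 1
  rw [W0, ← ew_eq β, W_re, W_im, Real.exp_log hr, add_zero]

variable {aw : ℤ} {n : ℕ} {k : ℤ}

theorem Xw_A (hr : 0 < r) (h : aw + b ≤ k) (h' : k < aw + n * b) (z : ℝ) :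
    Xw b β aw n k (wz b β r z) = AA β r (tk b β r k z) ∧
    Xw b β aw n k (wz b β r z + β * I) = AA β r (tk b β r k z + β) := by
  unfold Xw
  constructor
  · rw [XW_A h h', W0]
    unfold Aw
    rw [W_re, W_im, Real.exp_log hr, add_zero]
  · rw [XW_A h h']
    unfold Aw
    rw [W_re, W_im, Real.exp_log hr]

theorem Xw_C (hr : 0 < r) (h : aw + b ≤ k) (h' : aw + n * b ≤ k) (z : ℝ) :
    Xw b β aw n k (wz b β r z) = CC β r (tk b β r k z) ∧
    Xw b β aw n k (wz b β r z + β * I) = CC β r (tk b β r k z + β) := by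
  unfold Xw
  constructor
  · rw [XW_C h h', W0]
    unfold Cw
    rw [W_re, W_im, Real.exp_log hr, add_zero]
  · rw [XW_C h h']
    unfold Cw
    rw [W_re, W_im, Real.exp_log hr]

theorem Xw_R (hr : 0 < r) (h : k < aw + b) (z : ℝ) :
    Xw b β aw n k (wz b β r z) = RR β r (tk b β r k z) ∧
    Xw b β aw n k (wz b β r z + β * I) = RR β r (tk b β r k z + β) := by
  unfold Xw
  constructor
  · rw [XW_R h, W0, Rw_eq_RR, W_re, W_im, Real.exp_log hr, add_zero]
  · rw [XW_R h, Rw_eq_RR, W_re, W_im, Real.exp_log hr]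

end win

/-! ### the saddles -/

theorem X_ge_gen {κ y : ℝ} (hκ : 20 ≤ κ) (I : Iy κ y) (hy : |y| ≤ 28206 / 100000) : 7441 / 10000 * κ ≤ Xk κ y := by
  have hk2 : 400 ≤ κ ^ 2 := by nlinarith
  have hx := I.xsq
  have hxp := I.xpos
  apply (abs_le_of_sq_le_sq' _ hxp.le).2
  rw [hx]
  unfold gk
  have h1 : Real.exp (-(5642 / 10000) : ℝ) ≤ Real.exp (-2 * y) := by
    apply Real.exp_le_exp.2
    have := (abs_le.1 hy).2
    linarith
  have h2 := exp_lo.trans h1
  have h3 : y ^ 2 ≤ (28206 / 100000) ^ 2 := by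
    rw [← sq_abs y]
    exact pow_le_pow_left₀ (abs_nonneg _) hy 2
  have h4 := mul_le_mul_of_nonneg_left h2 (sq_nonneg κ)
  have h5 : (7441 / 10000 * κ) ^ 2 = (7441 / 10000) ^ 2 * κ ^ 2 := by ring
  rw [h5]
  nlinarith

theorem X_ge_gen' {κ y : ℝ} (hκ : 20 ≤ κ) (I : Iy κ y) (hy : y ≤ 0) (hy' : -1 ≤ y) : κ ≤ Xk κ y := by
  have hk2 : 400 ≤ κ ^ 2 := by nlinarith
  have hx := I.xsq
  have hxp := I.xpos
  apply (abs_le_of_sq_le_sq' _ hxp.le).2
  rw [hx]
  unfold gk
  have h1 := Real.add_one_le_exp (-2 * y)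
  have h2 := mul_le_mul_of_nonneg_left h1 (sq_nonneg κ)
  nlinarith

theorem arctan_abs {x : ℝ} : |Real.arctan x| ≤ |x| := by
  have h1 : ∀ x : ℝ, 0 ≤ x → |Real.arctan x| ≤ x := by
    intro x hx
    rw [abs_of_nonneg (Real.arctan_nonneg.2 hx)]
    rcases hx.eq_or_lt with h | h
    · rw [← h, Real.arctan_zero]
    · have h2 := Real.lt_tan (Real.arctan_pos.2 h) (Real.arctan_lt_pi_div_two x)
      rw [Real.tan_arctan] at h2
      exact h2.le
  rcases le_total 0 x with h | h
  · rw [abs_of_nonneg h]; exact h1 x h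
  · rw [abs_of_nonpos h]
    have h2 := h1 (-x) (by linarith)
    rwa [Real.arctan_neg, abs_neg] at h2

namespace Big

variable {b : ℕ} {β r : ℝ}

/-- `u = h / (T β)` -/
noncomputable def uu (b : ℕ) (β r : ℝ) : ℝ := hh b / TT b β r * β⁻¹

theorem u_eq (B : Big b β r) : uu b β r = (1 + (β * r) ^ 2) / ((β * r) * hh b) := by
  have := B.hβ
  have := B.hr
  have := B.hpos
  have h0 : 0 < 1 + (β * r) ^ 2 := by positivity
  unfold uu TT
  field_simp

theorem u_pos (B : Big b β r) : 0 < uu b β r := by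
  rw [B.u_eq]
  have := B.kpos
  have := B.hpos
  positivity

theorem u_v (B : Big b β r) (s : ℝ) : uu b β r * vS b β r s = s := by
  rw [B.u_eq]
  have := B.hβ
  have := B.hr
  have := B.hpos
  have h0 : 0 < 1 + (β * r) ^ 2 := by positivity
  unfold vS
  field_simp

theorem u_sy (B : Big b β r) (z : ℝ) : uu b β r * sy (β * r) (z * hh b - β * r) = sn b (β * r) z := by
  rw [B.u_eq]
  have := B.hβ
  have := B.hr
  have := B.hpos
  unfold sn yv
  field_simp

theorem H_le20 (B : Big b β r) : hh b ≤ 31416 / 100000 * (β * r) := by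
  have h1 := B.h_le'
  have h2 := B.hκ
  linarith

/-- the two saddles on the crossing interval -/
theorem sn_bounds (B : Big b β r) {z : ℝ} (h1 : -(58 / 100) ≤ z) (h2 : z ≤ -(405 / 1000)) :
    0 ≤ sn b (β * r) (z + 1) ∧ sn b (β * r) (z + 1) ≤ 66 / 100 ∧ -(58 / 100) ≤ sn b (β * r) z ∧ sn b (β * r) z ≤ 0 := by
  have hb := B.hb
  have hk := B.k1
  have hκ := B.hκ
  have hhp := B.hpos
  have hhl := B.h_le'
  have hpi := Real.pi_pos
  refine ⟨?_, ?_, ?_, ?_⟩
  · unfold sn yv
    have h0 : 0 ≤ sy (β * r) ((z + 1) * hh b - β * r) := by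
      apply sy_nonneg hk
      · nlinarith
      · nlinarith
    positivity
  · have h3 := (en_le_log (b := b) (κ := β * r) (H := 31416 / 100000) (z := z + 1) hb hk B.H_le20 (by linarith)
      (by nlinarith)).2
    refine h3.trans ?_
    have h4 : Real.log (1 - (z + 1) * (31416 / 100000)) ≥ -(2073 / 10000) := by
      have h5 : (8130 / 10000 : ℝ) ≤ 1 - (z + 1) * (31416 / 100000) := by linarith
      have h6 := Real.log_le_log (by norm_num) h5
      have h7 : -(2073 / 10000) ≤ Real.log (8130 / 10000 : ℝ) := by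
        rw [Real.le_log_iff_exp_le (by norm_num)]
        have h8 := Real.exp_bound_div_one_sub_of_interval (x := 2073 / 40000) (by norm_num) (by norm_num)
        have h9 : Real.exp (-(2073 / 10000) : ℝ) = (Real.exp (2073 / 40000))⁻¹ ^ 4 := by
          rw [← Real.exp_neg, ← Real.exp_nat_mul]
          congr 1
          norm_num
        have h10 := Real.quadratic_le_exp_of_nonneg (x := 2073 / 40000) (by norm_num)
        have h11 : (Real.exp (2073 / 40000))⁻¹ ≤ (1 + 2073 / 40000 + (2073 / 40000) ^ 2 / 2)⁻¹ :=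
          inv_anti₀ (by norm_num) h10
        rw [h9]
        have h12 := pow_le_pow_left₀ (inv_nonneg.2 (Real.exp_pos _).le) h11 4
        refine h12.trans ?_
        norm_num
      linarith
    have e : -(Real.log (1 - (z + 1) * (31416 / 100000)) / (31416 / 100000)) =
      -Real.log (1 - (z + 1) * (31416 / 100000)) / (31416 / 100000) := by ring
    rw [e, div_le_iff₀ (by norm_num)]
    linarith
  · have h3 := (en_le_left (b := b) (κ := β * r) (z := -z) hb hk (by have := B.ksq; linarith) (by linarith)).2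
    rw [neg_neg] at h3
    linarith
  · unfold sn yv
    have h0 : sy (β * r) (z * hh b - β * r) ≤ 0 := by
      apply sy_nonpos hk
      nlinarith
    have h4 : (1 + (β * r) ^ 2) * sy (β * r) (z * hh b - β * r) / (β * r) ≤ 0 := by
      apply div_nonpos_of_nonpos_of_nonneg _ B.kpos.le
      exact mul_nonpos_of_nonneg_of_nonpos (by positivity) h0
    exact div_nonpos_of_nonpos_of_nonneg h4 hhp.le

end Big

end Sok.R2.K20
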