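import Pool.Agent.Lib.MP_816dec_an.R2K20D

/-!
MP_816dec_an (row R2, class `κ ≥ 20`): the distances `u d_k`, values and moments of the far windows.
-/

set_option autoImplicit false

open Complex Set Filter Topology MeasureTheory

namespace Sok.R2.K20

open Big

/-- centre of window `k`: `x σ_1 - (x - 1) σ_0` -/
noncomputable def LL (b : ℕ) (β r z x : ℝ) : ℂ :=
  (x : ℂ) * sig (β * r) (tk b β r 1 z) - ((x - 1 : ℝ) : ℂ) * sig (β * r) (tk b β r 0 z)

namespace SL

variable {b : ℕ} {β r s : ℝ}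

/-- `u d_k` -/
theorem ud_le (D : SL b β r s) {z : ℝ} (h1 : -(58 / 100) ≤ z) (h2 : z ≤ -(405 / 1000)) (k : ℤ) :
    uu b β r * (|wS b β r s - tk b β r k z - (LL b β r z k).re| + |vS b β r s - (LL b β r z k).im|) ≤
      |s - k * sn b (β * r) (z + 1) + (k - 1) * sn b (β * r) z| +
        (672 / 10000 * |s| + 672 / 10000 * (|(k : ℝ)| * sn b (β * r) (z + 1)) +
          5 / 100 * (|(k : ℝ) - 1| * (-sn b (β * r) z))) := by
  have B := D.B
  have hκ := B.hκ
  have hk := B.kpos
  have hk1 := B.k1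
  have hhp := B.hpos
  have hu := B.u_pos
  obtain ⟨n1, n2, n3, n4⟩ := B.sn_bounds h1 h2
  have hpi := Real.pi_pos
  have hhl := B.h_le'
  have et1 : tk b β r 1 z = (z + 1) * hh b - β * r := by unfold tk; push_cast; ring
  have et0 : tk b β r 0 z = z * hh b - β * r := by unfold tk; push_cast; ring
  have d1 : DomR (β * r) (tk b β r 1 z) := DomR_of hk1 (by rw [et1]; nlinarith)
  have d0 : DomR (β * r) (tk b β r 0 z) := DomR_of hk1 (by rw [et0]; nlinarith)
  obtain ⟨I1, T1⟩ := sy_spec d1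
  obtain ⟨I0, T0⟩ := sy_spec d0
  obtain ⟨y1, hy1⟩ : ∃ y, y = sy (β * r) (tk b β r 1 z) := ⟨_, rfl⟩
  obtain ⟨y0, hy0⟩ : ∃ y, y = sy (β * r) (tk b β r 0 z) := ⟨_, rfl⟩
  have u1 : uu b β r * y1 = sn b (β * r) (z + 1) := by rw [hy1, et1, B.u_sy]
  have u0 : uu b β r * y0 = sn b (β * r) z := by rw [hy0, et0, B.u_sy]
  have uv := B.u_v s
  -- sizes of `y1`, `y0`
  have hH := B.H_le
  have hHp := B.H_pos
  have hue : uu b β r * ((β * r) * hh b / (1 + (β * r) ^ 2)) = 1 := by
    have h3 := B.u_v 1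
    unfold vS at h3
    rw [one_mul] at h3
    exact h3
  have hu31 : 1 ≤ uu b β r * (3134 / 10000) := by
    rw [← hue]; exact mul_le_mul_of_nonneg_left hH hu.le
  have y1p : 0 ≤ y1 := by
    by_contra hcon
    push Not at hcon
    have := mul_neg_of_pos_of_neg hu hcon
    linarith
  have y1l : |y1| ≤ 28206 / 100000 := by
    rw [abs_of_nonneg y1p]
    by_contra hcon
    push Not at hcon
    have : uu b β r * (28206 / 100000) < uu b β r * y1 := mul_lt_mul_of_pos_left hcon hu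
    linarith
  have y0n : y0 ≤ 0 := by
    by_contra hcon
    push Not at hcon
    have := mul_pos hu hcon
    linarith
  have y0l : -1 ≤ y0 := by
    by_contra hcon
    push Not at hcon
    have : uu b β r * y0 < uu b β r * (-1) := mul_lt_mul_of_pos_left hcon hu
    linarith
  rw [← hy1] at I1 T1
  rw [← hy0] at I0 T0
  have X1 := X_ge_gen hκ I1 y1l
  have X0 := X_ge_gen' hκ I0 y0n y0l
  have Xs := D.X_ge
  -- the real part
  have hre : wS b β r s - tk b β r k z - (LL b β r z k).re =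
      wS b β r s - k * Real.arctan (y1 / Xk (β * r) y1) + (k - 1) * Real.arctan (y0 / Xk (β * r) y0) := by
    have e1 : (LL b β r z k).re = k * Xk (β * r) y1 - (k - 1) * Xk (β * r) y0 := by
      unfold LL sig sx
      rw [← hy1, ← hy0]
      simp [-Complex.ofReal_sub]
    have e2 : tk b β r k z = k * tk b β r 1 z - (k - 1) * tk b β r 0 z := by
      unfold tk; push_cast; ring
    rw [e1, e2, ← T1, ← T0]
    unfold Tk
    ring
  have him : vS b β r s - (LL b β r z k).im = vS b β r s - k * y1 + (k - 1) * y0 := by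
    have e1 : (LL b β r z k).im = k * y1 - (k - 1) * y0 := by
      unfold LL sig
      rw [← hy1, ← hy0]
      simp [-Complex.ofReal_sub]
    rw [e1]; ring
  rw [hre, him, mul_add]
  have m2 : uu b β r * |vS b β r s - k * y1 + (k - 1) * y0| =
      |s - k * sn b (β * r) (z + 1) + (k - 1) * sn b (β * r) z| := by
    rw [← abs_of_pos hu, ← abs_mul]
    congr 1
    rw [← u1, ← u0]
    calc _ = uu b β r * vS b β r s - k * (uu b β r * y1) + (k - 1) * (uu b β r * y0) := by ring
      _ = _ := by rw [uv]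
  have quo : ∀ y X : ℝ, 7441 / 10000 * (β * r) ≤ X → uu b β r * (|y| / X) ≤ 672 / 10000 * (uu b β r * |y|) := by
    intro y X hX
    have hX0 : 0 < X := by linarith
    have h3 : |y| / X ≤ 672 / 10000 * |y| := by
      rw [div_le_iff₀ hX0]
      have : (1 : ℝ) ≤ 672 / 10000 * X := by linarith
      nlinarith [abs_nonneg y]
    have := mul_le_mul_of_nonneg_left h3 hu.le
    linarith
  have quo0 : ∀ y X : ℝ, (β * r) ≤ X → uu b β r * (|y| / X) ≤ 5 / 100 * (uu b β r * |y|) := by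
    intro y X hX
    have hX0 : 0 < X := by linarith
    have h3 : |y| / X ≤ 5 / 100 * |y| := by
      rw [div_le_iff₀ hX0]
      have : (1 : ℝ) ≤ 5 / 100 * X := by linarith
      nlinarith [abs_nonneg y]
    have := mul_le_mul_of_nonneg_left h3 hu.le
    linarith
  have absu : ∀ y : ℝ, uu b β r * |y| = |uu b β r * y| := by
    intro y; rw [abs_mul, abs_of_pos hu]
  have a1 : uu b β r * |Real.arctan (y1 / Xk (β * r) y1)| ≤ 672 / 10000 * sn b (β * r) (z + 1) := by
    have h3 := arctan_abs (x := y1 / Xk (β * r) y1)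
    rw [abs_div, abs_of_pos I1.xpos] at h3
    have h4 := mul_le_mul_of_nonneg_left h3 hu.le
    have h5 := quo y1 _ X1
    rw [absu, u1, abs_of_nonneg n1] at h5
    linarith
  have a0 : uu b β r * |Real.arctan (y0 / Xk (β * r) y0)| ≤ 5 / 100 * (-sn b (β * r) z) := by
    have h3 := arctan_abs (x := y0 / Xk (β * r) y0)
    rw [abs_div, abs_of_pos I0.xpos] at h3
    have h4 := mul_le_mul_of_nonneg_left h3 hu.le
    have h5 := quo0 y0 _ X0
    rw [absu, u0, abs_of_nonpos n4] at h5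
    linarith
  have aw : uu b β r * |wS b β r s| ≤ 672 / 10000 * |s| := by
    have h3 := D.abs_w_le
    have h4 := mul_le_mul_of_nonneg_left h3 hu.le
    have h5 := quo (vS b β r s) _ Xs
    rw [absu, uv] at h5
    linarith
  have m1 : uu b β r * |wS b β r s - k * Real.arctan (y1 / Xk (β * r) y1) + (k - 1) * Real.arctan (y0 / Xk (β * r) y0)| ≤
      672 / 10000 * |s| + 672 / 10000 * (|(k : ℝ)| * sn b (β * r) (z + 1)) +
          5 / 100 * (|(k : ℝ) - 1| * (-sn b (β * r) z)) := by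
    have h3 : |wS b β r s - k * Real.arctan (y1 / Xk (β * r) y1) + (k - 1) * Real.arctan (y0 / Xk (β * r) y0)| ≤
        |wS b β r s| + |(k : ℝ)| * |Real.arctan (y1 / Xk (β * r) y1)| +
          |(k : ℝ) - 1| * |Real.arctan (y0 / Xk (β * r) y0)| := by
      rw [← abs_mul, ← abs_mul]
      refine (abs_add_le _ _).trans ?_
      have := abs_sub (wS b β r s) (k * Real.arctan (y1 / Xk (β * r) y1))
      linarith
    have h4 := mul_le_mul_of_nonneg_left h3 hu.le
    have h5 := mul_le_mul_of_nonneg_left a1 (abs_nonneg (k : ℝ))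
    have h6 := mul_le_mul_of_nonneg_left a0 (abs_nonneg ((k : ℝ) - 1))
    refine h4.trans (le_trans (le_of_eq ?_) (add_le_add (add_le_add aw h5) h6) |>.trans (le_of_eq ?_))
    · ring
    · ring
  rw [m2]
  linarith

theorem ud_right (D : SL b β r (8955 / 10000)) {z : ℝ} (h1 : -(58 / 100) ≤ z) (h2 : z ≤ -(405 / 1000)) {k : ℤ}
    (hk : 2 ≤ k) :
    uu b β r * (|wS b β r (8955 / 10000) - tk b β r k z - (LL b β r z k).re| +
      |vS b β r (8955 / 10000) - (LL b β r z k).im|) ≤ 12 / 10 + 132 / 100 * ((k : ℝ) - 2) := by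
  refine (D.ud_le h1 h2 k).trans ?_
  obtain ⟨n1, n2, n3, n4⟩ := D.B.sn_bounds h1 h2
  have hk' : (2 : ℝ) ≤ k := by exact_mod_cast hk
  rw [abs_of_nonneg (by linarith : (0 : ℝ) ≤ k), abs_of_nonneg (by linarith : (0 : ℝ) ≤ (k : ℝ) - 1),
    abs_of_nonneg (by norm_num : (0 : ℝ) ≤ 8955 / 10000)]
  have m1 : (k : ℝ) * sn b (β * r) (z + 1) ≤ k * (66 / 100) := mul_le_mul_of_nonneg_left n2 (by linarith)
  have m1' : 0 ≤ (k : ℝ) * sn b (β * r) (z + 1) := mul_nonneg (by linarith) n1
  have m2 : ((k : ℝ) - 1) * (-sn b (β * r) z) ≤ (k - 1) * (58 / 100) := mul_le_mul_of_nonneg_left (by linarith) (by linarith)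
  have m2' : 0 ≤ ((k : ℝ) - 1) * (-sn b (β * r) z) := mul_nonneg (by linarith) (by linarith)
  have m3 : |8955 / 10000 - k * sn b (β * r) (z + 1) + (k - 1) * sn b (β * r) z| ≤
      k * (66 / 100) + (k - 1) * (58 / 100) - 8955 / 10000 := by
    rw [abs_le]; constructor <;> linarith
  linarith

theorem ud_left (D : SL b β r (-(865 / 1000))) {z : ℝ} (h1 : -(58 / 100) ≤ z) (h2 : z ≤ -(405 / 1000)) {k : ℤ}
    (hk : k ≤ -1) :
    uu b β r * (|wS b β r (-(865 / 1000)) - tk b β r k z - (LL b β r z k).re| +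
      |vS b β r (-(865 / 1000)) - (LL b β r z k).im|) ≤ 112 / 100 + 132 / 100 * (-1 - (k : ℝ)) := by
  refine (D.ud_le h1 h2 k).trans ?_
  obtain ⟨n1, n2, n3, n4⟩ := D.B.sn_bounds h1 h2
  have hk' : (k : ℝ) ≤ -1 := by exact_mod_cast hk
  rw [abs_of_nonpos (by linarith : (k : ℝ) ≤ 0), abs_of_nonpos (by linarith : (k : ℝ) - 1 ≤ 0),
    abs_of_nonpos (by norm_num : (-(865 / 1000) : ℝ) ≤ 0)]
  have m1 : -(k : ℝ) * sn b (β * r) (z + 1) ≤ -k * (66 / 100) := mul_le_mul_of_nonneg_left n2 (by linarith)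
  have m1' : 0 ≤ -(k : ℝ) * sn b (β * r) (z + 1) := mul_nonneg (by linarith) n1
  have m2 : -((k : ℝ) - 1) * (-sn b (β * r) z) ≤ -(k - 1) * (58 / 100) := mul_le_mul_of_nonneg_left (by linarith) (by linarith)
  have m2' : 0 ≤ -((k : ℝ) - 1) * (-sn b (β * r) z) := mul_nonneg (by linarith) (by linarith)
  have m3 : |-(865 / 1000) - k * sn b (β * r) (z + 1) + (k - 1) * sn b (β * r) z| ≤
      -k * (66 / 100) + -(k - 1) * (58 / 100) - 865 / 1000 := by
    rw [abs_le]; constructor <;> linarith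
  linarith

end SL

end Sok.R2.K20
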