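import Pool.Agent.Lib.MP_816dec_an.R2K20E

/-!
MP_816dec_an (row R2, class `κ ≥ 20`): far windows, all types.
-/

set_option autoImplicit false

open Complex Set Filter Topology MeasureTheory

namespace Sok.R2.K20

open Big

/-- the choice of the windows -/
structure Sel (b : ℕ) (β r : ℝ) (M : ℕ) : Prop where
  B : Big b β r
  hM : 2 ≤ M
  lo : 2 * Real.pi * M + Real.pi ≤ β * r
  hi : β * r < 2 * Real.pi * (M + 1) + Real.pi

/-- first index -/
def aM (b M : ℕ) : ℤ := 1 - (M * b : ℤ) - b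
/-- number of periods -/
def nM (M : ℕ) : ℕ := 2 * M + 1

theorem nMb (b M : ℕ) : ((nM M : ℕ) : ℤ) * b = 2 * (M * b : ℤ) + b := by unfold nM; push_cast; ring

namespace Sel

variable {b : ℕ} {β r : ℝ} {M : ℕ}

theorem Mb_pos (S : Sel b β r M) : 2 * (b : ℤ) ≤ (M * b : ℤ) := by
  have h1 := S.hM
  have h2 : (2 : ℤ) ≤ M := by exact_mod_cast h1
  nlinarith [(Int.natCast_nonneg b : (0 : ℤ) ≤ b)]

theorem b_pos (S : Sel b β r M) : (1 : ℤ) ≤ b := by exact_mod_cast S.B.hb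

theorem tA (S : Sel b β r M) {k : ℤ} (hk : k ≤ (M * b : ℤ)) {z : ℝ} (hz : z ≤ 0) : tk b β r k z ≤ -Real.pi := by
  have h1 := S.B.hb_mul
  have h2 := S.B.hpos
  have h3 := S.lo
  have hk' : (k : ℝ) ≤ M * b := by exact_mod_cast hk
  unfold tk
  have h4 : ((k : ℝ) + z) * hh b ≤ (M * b) * hh b := mul_le_mul_of_nonneg_right (by linarith) h2.le
  have h5 : ((M : ℝ) * b) * hh b = 2 * Real.pi * M := by rw [← h1]; ring
  linarith

theorem tC (S : Sel b β r M) {k : ℤ} (hk : k ≤ (M * b : ℤ) + b) {z : ℝ} (hz : z ≤ 0) : tk b β r k z ≤ Real.pi := by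
  have h1 := S.B.hb_mul
  have h2 := S.B.hpos
  have h3 := S.lo
  have hk' : (k : ℝ) ≤ M * b + b := by exact_mod_cast hk
  unfold tk
  have h4 : ((k : ℝ) + z) * hh b ≤ (M * b + b) * hh b := mul_le_mul_of_nonneg_right (by linarith) h2.le
  have h5 : ((M : ℝ) * b + b) * hh b = 2 * Real.pi * M + 2 * Real.pi := by rw [← h1]; ring
  linarith

/-! ### values -/

theorem q_pos (B : Big b β r) {s : ℝ} (hs : 0 < s) (hs' : 865 / 1000 ≤ s) :
    Real.exp (-(s * TT b β r)) ≤ 91 / 10000 := by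
  have h1 := B.hT
  have h2 : (47 / 10 : ℝ) ≤ s * TT b β r := by nlinarith
  refine (Real.exp_le_exp.2 (neg_le_neg h2)).trans ?_
  have h3 : Real.exp (-(47 / 10) : ℝ) = (Real.exp (47 / 80))⁻¹ ^ 8 := by
    rw [← Real.exp_neg, ← Real.exp_nat_mul]
    congr 1
    norm_num
  have h4 := Real.sum_le_exp_of_nonneg (x := 47 / 80) (by norm_num) 8
  have h5 : (1.7994 : ℝ) ≤ Real.exp (47 / 80) := by
    refine le_trans ?_ h4
    norm_num [Finset.sum_range_succ, Nat.factorial]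
  have h6 : (Real.exp (47 / 80))⁻¹ ≤ (1.7994 : ℝ)⁻¹ := inv_anti₀ (by norm_num) h5
  rw [h3]
  refine (pow_le_pow_left₀ (inv_nonneg.2 (Real.exp_pos _).le) h6 8).trans ?_
  norm_num

theorem q_b (B : Big b β r) {s : ℝ} (hs : 0 < s) :
    Real.exp (-(s * TT b β r * b)) ≤ Real.exp (-(s * TT b β r)) := by
  apply Real.exp_le_exp.2
  have h1 := B.bpos
  have h2 : 0 < s * TT b β r := mul_pos hs B.Tpos
  nlinarith

theorem valA (S : Sel b β r M) {s C p K : ℝ} (D : SL b β r s)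
    (hC : (1 + (β * r) ^ 2) * (Mv (β * r) (vS b β r s) + vS b β r s - 1) ≤ hh b ^ 2 * C)
    (hpre : (Real.sqrt (2 * Real.pi * β))⁻¹ * Real.sqrt (2 * Real.pi / aS b β r s) ≤
      p / Real.sqrt (Real.sqrt (1 + (β * r) ^ 2))) (hK : p * (10471 / 10000) ≤ K)
    {k : ℤ} (hk1 : 1 - (M * b : ℤ) ≤ k) (hk2 : k ≤ (M * b : ℤ)) {z : ℝ} (hz : z ≤ 0) :
    ‖Xw b β (aM b M) (nM M) k (wz b β r z)‖ ≤ K * Real.exp (-(TT b β r * (s * (k + z) - C))) * GN β r := by
  have e1 : aM b M + b ≤ k := by unfold aM; omega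
  have e2 : k < aM b M + nM M * b := by rw [nMb]; unfold aM; omega
  rw [(Xw_A S.B.hr e1 e2 z).1]
  refine (D.line.AA_val (S.tA hk2 hz)).trans ?_
  exact SL.toGN (k := k) (z := z) (by norm_num) hpre (D.expo hC k z) (Real.exp_pos _).le hK

theorem valC (S : Sel b β r M) {s C p K : ℝ} (D : SL b β r s) (hs : 0 < s) (hs' : 865 / 1000 ≤ s)
    (hC : (1 + (β * r) ^ 2) * (Mv (β * r) (vS b β r s) + vS b β r s - 1) ≤ hh b ^ 2 * C)
    (hpre : (Real.sqrt (2 * Real.pi * β))⁻¹ * Real.sqrt (2 * Real.pi / aS b β r s) ≤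
      p / Real.sqrt (Real.sqrt (1 + (β * r) ^ 2))) (hK : p * (1058 / 1000) ≤ K)
    {k : ℤ} (hk1 : (M * b : ℤ) + 1 ≤ k) (hk2 : k ≤ (M * b : ℤ) + b) {z : ℝ} (hz : z ≤ 0) :
    ‖Xw b β (aM b M) (nM M) k (wz b β r z)‖ ≤ K * Real.exp (-(TT b β r * (s * (k + z) - C))) * GN β r := by
  have hb := S.b_pos
  have hMb := S.Mb_pos
  have e1 : aM b M + b ≤ k := by unfold aM; omega
  have e2 : aM b M + nM M * b ≤ k := by rw [nMb]; unfold aM; omega
  rw [(Xw_C S.B.hr e1 e2 z).1]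
  have hv : 0 < vS b β r s := mul_pos hs S.B.H_pos
  have hq : Real.exp (-(2 * Real.pi * vS b β r s / β)) ≤ 1 / 100 := by
    rw [SL.q_eq S.B]
    exact ((q_b S.B hs).trans (q_pos S.B hs hs')).trans (by norm_num)
  refine (D.line.CC_val hv (S.tC hk2 hz) hq).trans ?_
  exact SL.toGN (k := k) (z := z) (by norm_num) hpre (D.expo hC k z) (Real.exp_pos _).le hK

theorem valR (S : Sel b β r M) {s C p K : ℝ} (D : SL b β r (-s)) (hs : 0 < s) (hs' : 865 / 1000 ≤ s)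
    (hC : (1 + (β * r) ^ 2) * (Mv (β * r) (vS b β r (-s)) + vS b β r (-s) - 1) ≤ hh b ^ 2 * C)
    (hpre : (Real.sqrt (2 * Real.pi * β))⁻¹ * Real.sqrt (2 * Real.pi / aS b β r (-s)) ≤
      p / Real.sqrt (Real.sqrt (1 + (β * r) ^ 2))) (hK : p * (1058 / 1000) ≤ K)
    {k : ℤ} (hk2 : k ≤ -(M * b : ℤ)) {z : ℝ} (hz : z ≤ 0) :
    ‖Xw b β (aM b M) (nM M) k (wz b β r z)‖ ≤ K * Real.exp (-(TT b β r * (-s * (k + z) - C))) * GN β r := by
  have hb := S.b_pos
  have hMb := S.Mb_pos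
  have e1 : k < aM b M + b := by unfold aM; omega
  rw [(Xw_R S.B.hr e1 z).1]
  have hv : vS b β r (-s) < 0 := mul_neg_of_neg_of_pos (by linarith) S.B.H_pos
  have hq : Real.exp (2 * Real.pi * vS b β r (-s) / β) ≤ 1 / 100 := by
    rw [SL.q_eq S.B]
    have e : -s * TT b β r * b = -(s * TT b β r * b) := by ring
    rw [e]
    exact ((q_b S.B hs).trans (q_pos S.B hs hs')).trans (by norm_num)
  refine (D.line.RR_val hv (S.tA (by omega) hz) hq).trans ?_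
  exact SL.toGN (k := k) (z := z) (by norm_num) hpre (D.expo hC k z) (Real.exp_pos _).le hK

/-! ### moments -/

theorem moA (S : Sel b β r M) {s C p K Dd : ℝ} (D : SL b β r s)
    (hC : (1 + (β * r) ^ 2) * (Mv (β * r) (vS b β r s) + vS b β r s - 1) ≤ hh b ^ 2 * C)
    (hpre : (Real.sqrt (2 * Real.pi * β))⁻¹ * Real.sqrt (2 * Real.pi / aS b β r s) ≤
      p / Real.sqrt (Real.sqrt (1 + (β * r) ^ 2))) (hDd : 0 ≤ Dd) (hK : p * (10471 / 10000 * Dd + 438 / 1000) ≤ K)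
    {k : ℤ} (hk1 : 1 - (M * b : ℤ) ≤ k) (hk2 : k ≤ (M * b : ℤ)) {z : ℝ} (hz : z ≤ 0)
    (hd : uu b β r * (|wS b β r s - tk b β r k z - (LL b β r z k).re| + |vS b β r s - (LL b β r z k).im|) ≤ Dd) :
    hh b / TT b β r * ‖deriv (Xw b β (aM b M) (nM M) k) (wz b β r z) -
      LL b β r z k / β * Xw b β (aM b M) (nM M) k (wz b β r z)‖ ≤
      K * Real.exp (-(TT b β r * (s * (k + z) - C))) * GN β r := by
  have e1 : aM b M + b ≤ k := by unfold aM; omega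
  have e2 : k < aM b M + nM M * b := by rw [nMb]; unfold aM; omega
  have hc : 0 ≤ hh b / TT b β r := div_nonneg S.B.hpos.le S.B.Tpos.le
  rw [deriv_Xw S.B.hβ S.B.hr, (Xw_A S.B.hr e1 e2 z).1, (Xw_A S.B.hr e1 e2 z).2]
  refine (D.line.AA_mo (S.tA hk2 hz) (LL b β r z k) hc le_rfl hd D.u_sq).trans ?_
  exact SL.toGN (k := k) (z := z) (by positivity) hpre (D.expo hC k z) (Real.exp_pos _).le hK

theorem moC (S : Sel b β r M) {s C p Dd : ℝ} (D : SL b β r s) (hs : 0 < s) (hs' : 865 / 1000 ≤ s)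
    (hC : (1 + (β * r) ^ 2) * (Mv (β * r) (vS b β r s) + vS b β r s - 1) ≤ hh b ^ 2 * C)
    (hpre : (Real.sqrt (2 * Real.pi * β))⁻¹ * Real.sqrt (2 * Real.pi / aS b β r s) ≤
      p / Real.sqrt (Real.sqrt (1 + (β * r) ^ 2))) (hDd : 0 ≤ Dd)
    {k : ℤ} (hk1 : (M * b : ℤ) + 1 ≤ k) (hk2 : k ≤ (M * b : ℤ) + b) {z : ℝ} (hz : z ≤ 0)
    (hd : uu b β r * (|wS b β r s - tk b β r k z - (LL b β r z k).re| + |vS b β r s - (LL b β r z k).im|) ≤ Dd) :
    hh b / TT b β r * ‖deriv (Xw b β (aM b M) (nM M) k) (wz b β r z) -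
      LL b β r z k / β * Xw b β (aM b M) (nM M) k (wz b β r z)‖ ≤
      (p * (1058 / 1000 * Dd + 443 / 1000 + 672 / 100 * (uu b β r * Real.exp (-(s * TT b β r * b))))) *
        Real.exp (-(TT b β r * (s * (k + z) - C))) * GN β r := by
  have hb := S.b_pos
  have hMb := S.Mb_pos
  have e1 : aM b M + b ≤ k := by unfold aM; omega
  have e2 : aM b M + nM M * b ≤ k := by rw [nMb]; unfold aM; omega
  have hc : 0 ≤ hh b / TT b β r := div_nonneg S.B.hpos.le S.B.Tpos.le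
  have hv : 0 < vS b β r s := mul_pos hs S.B.H_pos
  have hq : Real.exp (-(2 * Real.pi * vS b β r s / β)) ≤ 1 / 100 := by
    rw [SL.q_eq S.B]
    exact ((q_b S.B hs).trans (q_pos S.B hs hs')).trans (by norm_num)
  have hu := S.B.u_pos
  rw [deriv_Xw S.B.hβ S.B.hr, (Xw_C S.B.hr e1 e2 z).1, (Xw_C S.B.hr e1 e2 z).2]
  refine (D.line.CC_mo hv (S.tC hk2 hz) (LL b β r z k) hc hq le_rfl hd D.u_sq).trans ?_
  rw [SL.q_eq S.B]
  exact SL.toGN (k := k) (z := z) (by unfold uu at hu; positivity) hpre (D.expo hC k z) (Real.exp_pos _).le le_rfl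

theorem moR (S : Sel b β r M) {s C p Dd : ℝ} (D : SL b β r (-s)) (hs : 0 < s) (hs' : 865 / 1000 ≤ s)
    (hC : (1 + (β * r) ^ 2) * (Mv (β * r) (vS b β r (-s)) + vS b β r (-s) - 1) ≤ hh b ^ 2 * C)
    (hpre : (Real.sqrt (2 * Real.pi * β))⁻¹ * Real.sqrt (2 * Real.pi / aS b β r (-s)) ≤
      p / Real.sqrt (Real.sqrt (1 + (β * r) ^ 2))) (hDd : 0 ≤ Dd)
    {k : ℤ} (hk2 : k ≤ -(M * b : ℤ)) {z : ℝ} (hz : z ≤ 0)
    (hd : uu b β r * (|wS b β r (-s) - tk b β r k z - (LL b β r z k).re| +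
      |vS b β r (-s) - (LL b β r z k).im|) ≤ Dd) :
    hh b / TT b β r * ‖deriv (Xw b β (aM b M) (nM M) k) (wz b β r z) -
      LL b β r z k / β * Xw b β (aM b M) (nM M) k (wz b β r z)‖ ≤
      (p * (1058 / 1000 * Dd + 443 / 1000 + 672 / 100 * (uu b β r * Real.exp (-(s * TT b β r * b))))) *
        Real.exp (-(TT b β r * (-s * (k + z) - C))) * GN β r := by
  have hb := S.b_pos
  have hMb := S.Mb_pos
  have e1 : k < aM b M + b := by unfold aM; omega
  have hc : 0 ≤ hh b / TT b β r := div_nonneg S.B.hpos.le S.B.Tpos.le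
  have hv : vS b β r (-s) < 0 := mul_neg_of_neg_of_pos (by linarith) S.B.H_pos
  have e : -s * TT b β r * b = -(s * TT b β r * b) := by ring
  have hq : Real.exp (2 * Real.pi * vS b β r (-s) / β) ≤ 1 / 100 := by
    rw [SL.q_eq S.B, e]
    exact ((q_b S.B hs).trans (q_pos S.B hs hs')).trans (by norm_num)
  have hu := S.B.u_pos
  rw [deriv_Xw S.B.hβ S.B.hr, (Xw_R S.B.hr e1 z).1, (Xw_R S.B.hr e1 z).2]
  refine (D.line.RR_mo hv (S.tA (by omega) hz) (LL b β r z k) hc hq le_rfl hd D.u_sq).trans ?_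
  rw [SL.q_eq S.B, e]
  exact SL.toGN (k := k) (z := z) (by unfold uu at hu; positivity) hpre (D.expo hC k z) (Real.exp_pos _).le le_rfl

/-! ### absorption of the extra term -/

theorem pow_b (n : ℕ) (hn : 1 ≤ n) {E : ℝ} (hE0 : 0 ≤ E) (hE : E ≤ 1 / 100) : (n : ℝ) * E ^ n ≤ E := by
  induction n, hn using Nat.le_induction with
  | base => simp
  | succ n hn ih =>
    have h1 : (1 : ℝ) ≤ n := by exact_mod_cast hn
    have h2 : 0 ≤ E ^ n := pow_nonneg hE0 n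
    have h3 : ((n + 1 : ℕ) : ℝ) * E ≤ n := by push_cast; nlinarith
    calc ((n + 1 : ℕ) : ℝ) * E ^ (n + 1) = (((n + 1 : ℕ) : ℝ) * E) * E ^ n := by rw [pow_succ]; ring
      _ ≤ n * E ^ n := mul_le_mul_of_nonneg_right h3 h2
      _ ≤ E := ih

theorem pow_i (i : ℕ) : ((i : ℝ) + 351 / 100) * (1 / 20) ^ i ≤ 351 / 100 := by
  induction i with
  | zero => norm_num
  | succ i ih =>
    have h1 : (0 : ℝ) < (1 / 20) ^ i := by positivity
    have h2 : (((i + 1 : ℕ) : ℝ) + 351 / 100) * (1 / 20) ≤ (i : ℝ) + 351 / 100 := by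
      push_cast
      have : (0 : ℝ) ≤ i := Nat.cast_nonneg i
      linarith
    calc (((i + 1 : ℕ) : ℝ) + 351 / 100) * (1 / 20) ^ (i + 1) =
          ((((i + 1 : ℕ) : ℝ) + 351 / 100) * (1 / 20)) * (1 / 20) ^ i := by rw [pow_succ]; ring
      _ ≤ ((i : ℝ) + 351 / 100) * (1 / 20) ^ i := mul_le_mul_of_nonneg_right h2 h1.le
      _ ≤ _ := ih

theorem absorb (S : Sel b β r M) {s : ℝ} (hs : 0 < s) (hs' : 865 / 1000 ≤ s) {i : ℕ}
    (hi : (M * b : ℤ) ≤ i + 2) :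
    Real.exp (-(s * TT b β r)) ^ i * (672 / 100 * (uu b β r * Real.exp (-(s * TT b β r * b)))) ≤
      (1 / 5) ^ i * (215 / 1000) := by
  have B := S.B
  have hκ := B.hκ
  have hk := B.kpos
  have hpi := Real.pi_gt_three
  have hb := S.b_pos
  obtain ⟨E, hE⟩ : ∃ E, E = Real.exp (-(s * TT b β r)) := ⟨_, rfl⟩
  have hE0 : 0 < E := by rw [hE]; exact Real.exp_pos _
  have hE1 : E ≤ 91 / 10000 := by rw [hE]; exact q_pos B hs hs'
  have e1 : Real.exp (-(s * TT b β r * b)) = E ^ b := by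
    rw [hE, ← Real.exp_nat_mul]; congr 1; ring
  rw [e1, ← hE]
  have h1 := pow_b b B.hb hE0.le (by linarith)
  have hu : uu b β r = (b : ℝ) * (((β * r) + 1 / (β * r)) / (2 * Real.pi)) := by
    rw [B.u_eq]
    have := B.bpos
    unfold hh
    field_simp
    ring
  have h2 : uu b β r * E ^ b ≤ ((β * r) + 1 / (β * r)) / (2 * Real.pi) * (91 / 10000) := by
    rw [hu]
    have h3 : 0 ≤ ((β * r) + 1 / (β * r)) / (2 * Real.pi) := by positivity
    calc (b : ℝ) * (((β * r) + 1 / (β * r)) / (2 * Real.pi)) * E ^ b =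
          ((β * r) + 1 / (β * r)) / (2 * Real.pi) * (b * E ^ b) := by ring
      _ ≤ _ := mul_le_mul_of_nonneg_left (h1.trans hE1) h3
  have h3 : ((β * r) + 1 / (β * r)) / (2 * Real.pi) ≤ (i : ℝ) + 351 / 100 := by
    rw [div_le_iff₀ (by positivity)]
    have h4 : 1 / (β * r) ≤ 1 / 20 := one_div_le_one_div_of_le (by norm_num) hκ
    have h5 := S.hi
    have h6 : (M : ℝ) ≤ i + 2 := by
      have h7 : (M : ℤ) ≤ M * b := by nlinarith [(Int.natCast_nonneg M : (0 : ℤ) ≤ M)]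
      have h8 : (M : ℤ) ≤ i + 2 := h7.trans hi
      exact_mod_cast h8
    nlinarith
  have h4 := pow_i i
  have h5 : E ^ i ≤ (1 / 5) ^ i * (1 / 20) ^ i := by
    rw [← mul_pow]
    exact pow_le_pow_left₀ hE0.le (by linarith) i
  have h6 : uu b β r * E ^ b ≤ ((i : ℝ) + 351 / 100) * (91 / 10000) :=
    h2.trans (mul_le_mul_of_nonneg_right h3 (by norm_num))
  have h7 : 0 ≤ uu b β r * E ^ b := mul_nonneg B.u_pos.le (pow_nonneg hE0.le b)
  calc E ^ i * (672 / 100 * (uu b β r * E ^ b)) ≤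
        ((1 / 5) ^ i * (1 / 20) ^ i) * (672 / 100 * (((i : ℝ) + 351 / 100) * (91 / 10000))) := by
        apply mul_le_mul h5 _ (by positivity) (by positivity)
        linarith
    _ = (1 / 5) ^ i * ((672 / 100 * (91 / 10000)) * (((i : ℝ) + 351 / 100) * (1 / 20) ^ i)) := by ring
    _ ≤ (1 / 5) ^ i * (215 / 1000) := by
        apply mul_le_mul_of_nonneg_left _ (by positivity)
        nlinarith

end Sel

end Sok.R2.K20
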