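import Pool.Agent.Lib.MP_816dec_an.R2Asm

/-!
MP_816dec_an (row R2): the numbers of the class `κ ≥ 20`, and the numeric conditions.
-/

set_option autoImplicit false

namespace Sok.R2.K20

/-- the class `κ ≥ 20` -/
def c20 : NumQ where
  a := 111 / 100
  T0 := 5441 / 1000
  z2 := -7 / 10
  qL := -29 / 50
  qR := -81 / 200
  z4 := -8 / 25
  u0 := 21 / 20
  l1 := 4 / 5
  c0 := 433 / 500
  c1 := 1353 / 1000
  S := 1791 / 2000
  C := 403 / 1000
  K2 := 13 / 10
  K3 := 13 / 10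
  τ := 0
  τ6 := 0
  Sm := 173 / 200
  Cm := 103 / 250
  Km := 23 / 20
  Km2 := 23 / 20
  τm := 0
  Sr := 1393 / 2000
  Cr := 61 / 250
  Kr := 13 / 10
  δ0 := 1 / 10
  δ1 := 3 / 20
  μ := 9 / 10
  P2 := 27 / 10
  P3 := 22 / 5
  P4 := 17 / 10
  Pm := 12 / 5
  Pm2 := 39 / 10
  Pm3 := 3 / 2
  f02 := 457 / 2000
  f0L := 397 / 2500
  f1R := 1761 / 10000
  e12 := 93 / 2000
  e1L := 231 / 2500
  e1R := 1893 / 10000
  e0L := 841 / 5000
  e0R := 821 / 10000
  e04 := 32 / 625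

/-- auxiliary numbers of `c20` -/
def x20 : AuxQ where
  η := 5057 / 100000
  ρ := 1531 / 200000
  ρm := 9037 / 1000000
  A1 := 9287 / 25000
  A2 := 13717 / 200000
  A3 := 2031 / 500000
  A4 := 42399 / 500000
  B1 := 696783 / 1000000
  B2 := 10239 / 500000
  B3 := 9171 / 1000000
  B4 := 54427 / 500000
  X2 := 293 / 20000
  Y1 := 23053 / 125000
  Xm := 19759 / 1000000
  Y0 := 82211 / 500000
  D1 := 74953 / 125000
  D2 := 1181 / 200000
  D3 := 6229 / 250000
  D4 := 102921 / 1000000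
  F1 := 378787 / 1000000
  F2 := 3299 / 1000000
  F3 := 85029 / 1000000
  F4 := 43497 / 500000
  M2 := 1057 / 40000
  M3 := 9 / 40000
  Mm := 14563 / 500000
  Mm2 := 293 / 1000000
  Q2 := 65453 / 1000000
  Q3 := 907 / 1000000
  Q4 := 7 / 20000
  Qm := 70977 / 1000000
  Qm2 := 1167 / 1000000
  Qm3 := 91 / 200000
  S1 := 110911 / 1000000
  S2 := 32687 / 200000

theorem okB20 : okB c20 x20 = true := by decide +kernel

theorem ok20 : Ok c20.num x20.aux := ok_of_okB okB20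

end Sok.R2.K20
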