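import Pool.Agent.Lib.MP_816dec_an.R2Gap

/-!
MP_816dec_an, row R2 (6): generic numeric lemma for the step tables (lower bounds of `lv κ τ`, `0 ≤ τ ≤ τm`,
uniform in `κ ≥ κ₀`).
-/

set_option autoImplicit false

open Set Filter Topology Real

namespace Sok

namespace R2

/-- Taylor bounds of `exp` on `[0, 2]` -/
theorem exp_bds {y Fl Fh : ℝ} (hy : 0 ≤ y) (hy2 : y ≤ 2)
    (h1 : Fl ≤ ∑ i ∈ Finset.range 14, y ^ i / (i.factorial : ℝ))
    (h2 : (∑ i ∈ Finset.range 8, (y / 2) ^ i / (i.factorial : ℝ) +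
      (y / 2) ^ 8 * (8 + 1) / ((Nat.factorial 8 : ℝ) * 8)) ^ 2 ≤ Fh) :
    Fl ≤ exp y ∧ exp y ≤ Fh := by
  refine ⟨h1.trans (Real.sum_le_exp_of_nonneg hy 14), ?_⟩
  have h3 := Real.exp_bound' (x := y / 2) (by linarith) (by linarith) (n := 8) (by norm_num)
  have h4 : exp y = exp (y / 2) ^ 2 := by
    rw [← Real.exp_nat_mul]; congr 1; push_cast; ring
  rw [h4]
  refine le_trans (pow_le_pow_left₀ (exp_pos _).le h3 2) ?_
  push_cast at h2 ⊢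
  exact h2

/-- lower bound of `lv κ τ`, `0 ≤ τ ≤ τm`, for all `κ ≥ κ₀` from rational side conditions -/
theorem lv_ge_of {κ₀ y Fl Fh x a c l τm : ℝ} (h1 : 1 ≤ κ₀) (hy : 0 ≤ y) (hFl0 : 0 < Fl)
    (hF : Fl ≤ exp y ∧ exp y ≤ Fh) (hI : y * Fh < κ₀) (hl1 : l ≤ 1) (hl0 : 0 ≤ l) (hx : 0 ≤ x)
    (hx2 : Fh ^ 2 * (x ^ 2 + y ^ 2) ≤ κ₀ ^ 2)
    (hl : l * κ₀ * (κ₀ ^ 2 + (1 + 2 * y) * Fl ^ 2) ≤ (1 + κ₀ ^ 2) * x * Fl ^ 2)
    (ha : a * Fl ≤ Fl - 1) (ha0 : 0 < a) (hc : c ≤ (2 * y - 1) * Fl + 1) (hc' : c ≤ (2 * y - 1) * Fh + 1)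
    (hτ : τm ^ 2 ≤ 4 * a * c ∨ (τm ≤ 2 * a * κ₀ ∧ τm * κ₀ ≤ a * κ₀ ^ 2 + c))
    (hτ0 : τm ≤ κ₀ + 157 / 100) {κ τ : ℝ} (hκ : κ₀ ≤ κ) (h0 : 0 ≤ τ) (hm : τ ≤ τm) : l ≤ lv κ τ := by
  have hk0 : 0 < κ₀ := by linarith
  have hk : 0 < κ := by linarith
  obtain ⟨hF1, hF2⟩ := hF
  have hE := exp_pos y
  have hI' : Iy κ₀ y := by
    refine ⟨?_, Or.inr (by linarith)⟩
    rw [abs_of_nonneg hy]
    exact lt_of_le_of_lt (mul_le_mul_of_nonneg_left hF2 hy) hI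
  have hp := Real.pi_gt_d2
  have hE2 : exp (-2 * y) = 1 / exp y ^ 2 := by
    rw [show -2 * y = -(2 * y) by ring, exp_neg, one_div, ← Real.exp_nat_mul]
    congr 2
  have hEn : exp (-y) = 1 / exp y := by rw [exp_neg, one_div]
  refine (L_ge (κ₀ := κ₀) (y' := y) (τm := τm) (t := τ - κ) hκ (by linarith) hy hI' hl1 ?_ ?_
    (by linarith) (by linarith) (by linarith)).1
  · -- the value
    have hxs := x_sq_add hI'
    have hxp := hI'.xpos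
    have hxle : x ≤ Xk κ₀ y := by
      apply (sq_le_sq₀ hx hxp.le).1
      have h2 : x ^ 2 + y ^ 2 ≤ κ₀ ^ 2 * (1 / exp y ^ 2) := by
        rw [mul_one_div, le_div_iff₀ (by positivity)]
        calc (x ^ 2 + y ^ 2) * exp y ^ 2 ≤ (x ^ 2 + y ^ 2) * Fh ^ 2 :=
              mul_le_mul_of_nonneg_left (pow_le_pow_left₀ hE.le hF2 2) (by positivity)
          _ ≤ κ₀ ^ 2 := by rw [mul_comm]; exact hx2
      rw [hE2] at hxs
      linarith
    unfold Lk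
    have hD : Xk κ₀ y ^ 2 + (1 + y) ^ 2 ≤ κ₀ ^ 2 / Fl ^ 2 + (1 + 2 * y) := by
      have h3 : Xk κ₀ y ^ 2 + (1 + y) ^ 2 = κ₀ ^ 2 * exp (-2 * y) + (1 + 2 * y) := by
        rw [← hxs]; ring
      rw [h3, hE2, mul_one_div]
      gcongr
    have hDp : 0 < Xk κ₀ y ^ 2 + (1 + y) ^ 2 := by positivity
    rw [le_div_iff₀ (by positivity)]
    calc l * (κ₀ * (Xk κ₀ y ^ 2 + (1 + y) ^ 2)) ≤ l * (κ₀ * (κ₀ ^ 2 / Fl ^ 2 + (1 + 2 * y))) := by gcongr
      _ = (l * κ₀ * (κ₀ ^ 2 + (1 + 2 * y) * Fl ^ 2)) / Fl ^ 2 := by field_simp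
      _ ≤ ((1 + κ₀ ^ 2) * x * Fl ^ 2) / Fl ^ 2 := by gcongr
      _ = (1 + κ₀ ^ 2) * x := by field_simp
      _ ≤ _ := by gcongr
  · -- the abscissa
    have ha' : a ≤ 1 - exp (-y) := by
      rw [hEn]
      have h4 : 1 / exp y ≤ 1 / Fl := one_div_le_one_div_of_le hFl0 hF1
      have h5 : a ≤ 1 - 1 / Fl := by
        rw [show 1 - 1 / Fl = (Fl - 1) / Fl by field_simp, le_div_iff₀ hFl0]
        exact ha
      linarith
    have hc'' : c ≤ (2 * y - 1) * exp y + 1 := by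
      rcases le_total 0 (2 * y - 1) with h | h
      · have := mul_le_mul_of_nonneg_left hF1 h
        linarith
      · have := mul_le_mul_of_nonpos_left hF2 h
        linarith
    have h6 : τm ≤ κ * a + c / κ := by
      rw [show κ * a + c / κ = (a * κ ^ 2 + c) / κ by field_simp, le_div_iff₀ hk]
      rcases hτ with h | ⟨h, h'⟩
      · have h7 : 0 ≤ (2 * a * κ - τm) ^ 2 := sq_nonneg _
        have h8 : 0 ≤ 4 * a * (a * κ ^ 2 + c - τm * κ) := by nlinarith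
        have h9 : 0 ≤ a * κ ^ 2 + c - τm * κ := by
          by_contra hcon
          push Not at hcon
          have := mul_neg_of_pos_of_neg (by linarith : 0 < 4 * a) hcon
          linarith
        linarith
      · have h7 : 0 ≤ (κ - κ₀) * (2 * a * κ₀ - τm) := mul_nonneg (by linarith) (by linarith)
        have h8 : 0 ≤ a * (κ - κ₀) ^ 2 := by positivity
        nlinarith
    have h10 : κ * a ≤ κ * (1 - exp (-y)) := mul_le_mul_of_nonneg_left ha' hk.le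
    have h11 : c / κ ≤ ((2 * y - 1) * exp y + 1) / κ := by gcongr
    linarith

end R2

end Sok
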