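import Pool.Agent.Lib.MP_816dec_an.R2K20F
import Pool.Agent.Lib.MP_816dec_an.R2K20N
import Pool.Agent.Lib.MP_816dec_an.R2Tab
import Pool.Agent.Lib.MP_816dec_an.R2LineN

/-!
MP_816dec_an (row R2, class `κ ≥ 20`): lines, tangents, and the hypotheses on the far windows.
-/

set_option autoImplicit false

open Complex Set Filter Topology MeasureTheory

namespace Sok.R2.K20

open Big

/-! ### the lower bound of `lv` -/

theorem lv20 {κ τ : ℝ} (hκ : 20 ≤ κ) (h0 : 0 ≤ τ) (h1 : τ ≤ 566 / 100) : 995 / 1000 ≤ lv κ τ :=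
  lv_ge_of (κ₀ := 20) (y := 4 / 10) (Fl := 14918 / 10000) (Fh := 14919 / 10000) (x := 1339 / 100) (a := 3296 / 10000)
    (c := 701 / 1000) (l := 995 / 1000) (τm := 566 / 100) (by norm_num) (by norm_num) (by norm_num)
    (exp_bds (by norm_num) (by norm_num) (by norm_num [Finset.sum_range_succ, Nat.factorial])
      (by norm_num [Finset.sum_range_succ, Nat.factorial])) (by norm_num) (by norm_num) (by norm_num) (by norm_num)
    (by norm_num) (by norm_num) (by norm_num) (by norm_num) (by norm_num) (by norm_num) (Or.inr (by norm_num))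
    (by norm_num) hκ h0 h1

namespace Big

variable {b : ℕ} {β r : ℝ}

theorem lineG (B : Big b β r) {x S' C' : ℝ} (hx0 : 0 ≤ x) (hx : x ≤ 9 / 10) (hS : S' ≤ 0 + 995 / 1000 * (x - 0))
    (hC : 0 + 995 / 1000 * (x ^ 2 - 0 ^ 2) / 2 ≤ C') : Line (β * r) (hh b) x S' C' := by
  have hk := B.k1
  have hh0 := B.hpos
  have hhl := B.h_le'
  have hpi := Real.pi_pos
  have hκ := B.hκ
  have h1 : x * hh b ≤ 566 / 100 := by nlinarith
  exact Line.stepN (a := 0) (l := 995 / 1000) (τm := 566 / 100) hk hh0.le (Line.zero hk) hx0 (by norm_num)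
    (fun τ h0 h2 => lv20 hκ h0 h2) h1 (by linarith) hS hC

theorem L9 (B : Big b β r) : Line (β * r) (hh b) (9 / 10) (8955 / 10000) (403 / 1000) :=
  B.lineG (by norm_num) (by norm_num) (by norm_num) (by norm_num)

theorem L7 (B : Big b β r) : Line (β * r) (hh b) (7 / 10) (6965 / 10000) (244 / 1000) :=
  B.lineG (by norm_num) (by norm_num) (by norm_num) (by norm_num)

theorem L6 (B : Big b β r) : Line (β * r) (hh b) (595 / 1000) (592 / 1000) (17613 / 100000) :=
  B.lineG (by norm_num) (by norm_num) (by norm_num) (by norm_num)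

theorem v_eq (_B : Big b β r) (s : ℝ) : (1 + (β * r) ^ 2) * vS b β r s = (β * r) * (hh b * s) := by
  have h0 : 0 < 1 + (β * r) ^ 2 := by positivity
  unfold vS
  field_simp

theorem slR {x s C : ℝ} (B : Big b β r) (L : Line (β * r) (hh b) x s C) (hs : 0 ≤ s) (hs9 : s ≤ 9 / 10) :
    SL b β r s ∧ (1 + (β * r) ^ 2) * (Mv (β * r) (vS b β r s) + vS b β r s - 1) ≤ hh b ^ 2 * C := by
  have hv0 : 0 ≤ vS b β r s := mul_nonneg hs B.H_pos.le
  refine ⟨⟨B, by rw [abs_of_nonneg hs]; exact hs9, L.Iy B.k1 hv0 (B.v_eq s).le⟩, ?_⟩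
  exact L.tangent B.k1 B.hpos hv0 (B.v_eq s)

theorem slL (B : Big b β r) : SL b β r (-(865 / 1000)) ∧
    (1 + (β * r) ^ 2) * (Mv (β * r) (vS b β r (-(865 / 1000))) + vS b β r (-(865 / 1000)) - 1) ≤
      hh b ^ 2 * (412 / 1000) := by
  have hv0 : vS b β r (-(865 / 1000)) ≤ 0 := mul_nonpos_of_nonpos_of_nonneg (by norm_num) B.H_pos.le
  have hk := B.kpos
  have hh0 := B.hpos
  refine ⟨⟨B, by rw [abs_of_nonpos (by norm_num)]; norm_num, Iy_neg B.k1 hv0⟩, ?_⟩
  have h1 := tangent_neg' (κ := β * r) (h := hh b) (S := 865 / 1000) (v := vS b β r (-(865 / 1000))) B.k1 hv0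
    (by have := B.v_eq (-(865 / 1000)); linarith)
  refine h1.trans ?_
  obtain ⟨x, hx⟩ : ∃ x, x = 865 / 1000 * (hh b / (β * r)) := ⟨_, rfl⟩
  have hx0 : 0 ≤ x := by rw [hx]; positivity
  have hx1 : x ≤ 2718 / 10000 := by
    have h2 : hh b / (β * r) ≤ 31416 / 100000 := by
      rw [div_le_iff₀ hk]; exact B.H_le20
    rw [hx]; linarith
  rw [← hx]
  have h2 := Real.exp_bound (x := x) (by rw [abs_of_nonneg hx0]; linarith) (n := 4) (by norm_num)
  rw [abs_of_nonneg hx0] at h2
  have h3 := (abs_le.1 h2).2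
  norm_num [Finset.sum_range_succ, Nat.factorial] at h3
  have h4 : Real.exp x - 1 - x ≤ x ^ 2 * (5492 / 10000) := by
    have h5 : 0 ≤ x ^ 2 := sq_nonneg x
    have h6 : x ^ 3 ≤ x ^ 2 * (2718 / 10000) := by
      rw [pow_succ]; exact mul_le_mul_of_nonneg_left hx1 h5
    have h7 : x ^ 4 ≤ x ^ 2 * (2718 / 10000) ^ 2 := by
      have : x ^ 4 = x ^ 2 * x ^ 2 := by ring
      rw [this]
      exact mul_le_mul_of_nonneg_left (pow_le_pow_left₀ hx0 hx1 2) h5
    nlinarith
  have h5 := mul_le_mul_of_nonneg_left h4 (sq_nonneg (β * r))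
  refine h5.trans ?_
  have e : (β * r) ^ 2 * (x ^ 2 * (5492 / 10000)) = hh b ^ 2 * ((865 / 1000) ^ 2 * (5492 / 10000)) := by
    rw [hx]
    have : (β * r) ≠ 0 := hk.ne'
    field_simp
    exact div_self this
  rw [e]
  apply mul_le_mul_of_nonneg_left _ (sq_nonneg _)
  norm_num

end Big

/-! ### numbers of `c20` -/

theorem W2_20 (T z : ℝ) : c20.num.W2 T z = Real.exp (-(T * (8955 / 10000 * (2 + z) - 403 / 1000))) := by
  unfold Num.W2
  simp only [c20, NumQ.num]
  norm_num
theorem W3_20 (T z : ℝ) : c20.num.W3 T z = Real.exp (-(T * (8955 / 10000 * (3 + z) - 403 / 1000))) := by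
  unfold Num.W3
  simp only [c20, NumQ.num]
  norm_num
theorem Wm_20 (T z : ℝ) : c20.num.Wm T z = Real.exp (-(T * (865 / 1000 * (1 - z) - 412 / 1000))) := by
  unfold Num.Wm
  simp only [c20, NumQ.num]
  norm_num
theorem Wm2_20 (T z : ℝ) : c20.num.Wm2 T z = Real.exp (-(T * (865 / 1000 * (2 - z) - 412 / 1000))) := by
  unfold Num.Wm2
  simp only [c20, NumQ.num]
  norm_num

namespace Sel

variable {b : ℕ} {β r : ℝ} {M : ℕ}

theorem GN_nonneg : 0 ≤ GN β r := by unfold GN; positivity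

/-- right windows, values -/
theorem far_r (S : Sel b β r M) {k : ℤ} (hk : 2 ≤ k) (hk2 : k ≤ (M * b : ℤ) + b) {z : ℝ} (hz : z ≤ 0) :
    ‖Xw b β (aM b M) (nM M) k (wz b β r z)‖ ≤
      13 / 10 * Real.exp (-(TT b β r * (8955 / 10000 * (k + z) - 403 / 1000))) * GN β r := by
  have hMb := S.Mb_pos
  have hb := S.b_pos
  obtain ⟨D, hC⟩ := S.B.slR S.B.L9 (by norm_num) (by norm_num)
  rcases le_or_gt k (M * b : ℤ) with h | h
  · exact S.valA D hC D.pref_r (by norm_num) (by omega) h hz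
  · exact S.valC D (by norm_num) (by norm_num) hC D.pref_r (by norm_num) (by omega) hk2 hz

/-- left windows, values -/
theorem far_l (S : Sel b β r M) {k : ℤ} (hk : k ≤ -1) {z : ℝ} (hz : z ≤ 0) :
    ‖Xw b β (aM b M) (nM M) k (wz b β r z)‖ ≤
      115 / 100 * Real.exp (-(TT b β r * (-(865 / 1000) * (k + z) - 412 / 1000))) * GN β r := by
  have hMb := S.Mb_pos
  have hb := S.b_pos
  obtain ⟨D, hC⟩ := S.B.slL
  have hp := D.pref_l (by norm_num)
  rcases le_or_gt k (-(M * b : ℤ)) with h | h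
  · exact S.valR D (by norm_num) (by norm_num) hC hp (by norm_num) h hz
  · exact S.valA D hC hp (by norm_num) (by omega) (by omega) hz

/-- the first window on the far right of the circle -/
theorem far_1 (S : Sel b β r M) {z : ℝ} (hz : z ≤ 0) :
    ‖Xw b β (aM b M) (nM M) 1 (wz b β r z)‖ ≤
      13 / 10 * Real.exp (-(TT b β r * (6965 / 10000 * (1 + z) - 244 / 1000))) * GN β r := by
  have hMb := S.Mb_pos
  have hb := S.b_pos
  obtain ⟨D, hC⟩ := S.B.slR S.B.L7 (by norm_num) (by norm_num)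
  have h := S.valA (k := 1) D hC D.pref_r (K := 13 / 10) (by norm_num) (by omega) (by omega) hz
  push_cast at h
  exact h

theorem e5_r (B : Big b β r) : Real.exp (-(8955 / 10000 * TT b β r)) ≤ 1 / 5 :=
  (q_pos B (by norm_num) (by norm_num)).trans (by norm_num)
theorem e5_l (B : Big b β r) : Real.exp (-(865 / 1000 * TT b β r)) ≤ 1 / 5 :=
  (q_pos B (by norm_num) (by norm_num)).trans (by norm_num)

theorem split_r (_B : Big b β r) (i : ℕ) (z : ℝ) :
    Real.exp (-(TT b β r * (8955 / 10000 * ((3 + i : ℤ) + z) - 403 / 1000))) =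
      Real.exp (-(8955 / 10000 * TT b β r)) ^ i * Real.exp (-(TT b β r * (8955 / 10000 * (3 + z) - 403 / 1000))) := by
  rw [← Real.exp_nat_mul, ← Real.exp_add]
  congr 1
  push_cast
  ring

theorem split_l (_B : Big b β r) (i : ℕ) (z : ℝ) :
    Real.exp (-(TT b β r * (-(865 / 1000) * ((-2 - i : ℤ) + z) - 412 / 1000))) =
      Real.exp (-(865 / 1000 * TT b β r)) ^ i * Real.exp (-(TT b β r * (865 / 1000 * (2 - z) - 412 / 1000))) := by
  rw [← Real.exp_nat_mul, ← Real.exp_add]
  congr 1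
  push_cast
  ring

/-- the values of the far windows -/
theorem farH (S : Sel b β r M) : FarH b β r (aM b M) (nM M) c20.num where
  h1far := by
    intro z hz
    have h := S.far_1 hz.2
    simp only [c20, NumQ.num]
    norm_num at h ⊢
    exact h
  h2 := by
    intro _ z hz
    have hMb := S.Mb_pos
    have hb := S.b_pos
    have h := S.far_r (k := 2) le_rfl (by omega) hz.2
    have e : c20.num.K2 = 13 / 10 := by norm_num [c20, NumQ.num]
    rw [W2_20, e]
    push_cast at h
    exact h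
  h3 := by
    intro i hi z hz
    unfold sw at hi
    rw [Finset.mem_erase, Finset.mem_erase, Finset.mem_Ico, nMb] at hi
    have hk2 : (3 + i : ℤ) ≤ (M * b : ℤ) + b := by
      have := hi.2.2.2
      unfold aM at this
      omega
    have h := S.far_r (k := 3 + i) (by omega) hk2 hz.2
    have e : c20.num.K3 = 13 / 10 := by norm_num [c20, NumQ.num]
    rw [split_r S.B] at h
    rw [W3_20, e]
    refine h.trans ?_
    apply mul_le_mul_of_nonneg_right _ GN_nonneg
    have h1 : Real.exp (-(8955 / 10000 * TT b β r)) ^ i ≤ (1 / 5) ^ i :=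
      pow_le_pow_left₀ (Real.exp_pos _).le (e5_r S.B) i
    have h2 := mul_le_mul_of_nonneg_right h1
      (Real.exp_pos (-(TT b β r * (8955 / 10000 * (3 + z) - 403 / 1000)))).le
    linarith
  hm := by
    intro _ z hz
    have h := S.far_l (k := -1) le_rfl hz.2
    have e : c20.num.Km = 115 / 100 := by norm_num [c20, NumQ.num]
    rw [Wm_20, e]
    have e2 : -(TT b β r * (-(865 / 1000) * (((-1 : ℤ) : ℝ) + z) - 412 / 1000)) =
        -(TT b β r * (865 / 1000 * (1 - z) - 412 / 1000)) := by push_cast; ring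
    rw [e2] at h
    exact h
  hm2 := by
    intro i hi z hz
    have h := S.far_l (k := -2 - i) (by omega) hz.2
    have e : c20.num.Km2 = 115 / 100 := by norm_num [c20, NumQ.num]
    rw [split_l S.B] at h
    rw [Wm2_20, e]
    refine h.trans ?_
    apply mul_le_mul_of_nonneg_right _ GN_nonneg
    have h1 : Real.exp (-(865 / 1000 * TT b β r)) ^ i ≤ (1 / 5) ^ i :=
      pow_le_pow_left₀ (Real.exp_pos _).le (e5_l S.B) i
    have h2 := mul_le_mul_of_nonneg_right h1
      (Real.exp_pos (-(TT b β r * (865 / 1000 * (2 - z) - 412 / 1000)))).le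
    linarith

end Sel

end Sok.R2.K20
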