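import Pool.Agent.Lib.MP_816dec_an.R2K20G

/-!
MP_816dec_an (row R2, class `κ ≥ 20`): moments of the far windows, and the geometry.
-/

set_option autoImplicit false

open Complex Set Filter Topology MeasureTheory

namespace Sok.R2.K20

open Big

namespace Sel

variable {b : ℕ} {β r : ℝ} {M : ℕ}

/-- final step of a moment of window `±(3 + i)` -/
theorem fin_mo {X x p A E e0 uq P : ℝ} {i : ℕ} (hX : X ≤ p * (A + 672 / 100 * uq) * (E ^ i * e0) * GN β r)
    (hp : 0 ≤ p) (hE0 : 0 ≤ E) (hE : E ≤ 1 / 5) (hA : 0 ≤ A) (he0 : 0 ≤ e0)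
    (hab : E ^ i * (672 / 100 * uq) ≤ (1 / 5) ^ i * x) (hP : p * (A + x) ≤ P) :
    X ≤ (1 / 5) ^ i * P * e0 * GN β r := by
  refine hX.trans ?_
  apply mul_le_mul_of_nonneg_right _ GN_nonneg
  have h1 : E ^ i ≤ (1 / 5) ^ i := pow_le_pow_left₀ hE0 hE i
  have h2 : p * (A + 672 / 100 * uq) * E ^ i ≤ (1 / 5) ^ i * P := by
    have h3 : E ^ i * A ≤ (1 / 5) ^ i * A := mul_le_mul_of_nonneg_right h1 hA
    calc p * (A + 672 / 100 * uq) * E ^ i = p * (E ^ i * A + E ^ i * (672 / 100 * uq)) := by ring
      _ ≤ p * ((1 / 5) ^ i * A + (1 / 5) ^ i * x) := mul_le_mul_of_nonneg_left (add_le_add h3 hab) hp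
      _ = (1 / 5) ^ i * (p * (A + x)) := by ring
      _ ≤ _ := mul_le_mul_of_nonneg_left hP (by positivity)
  calc p * (A + 672 / 100 * uq) * (E ^ i * e0) = (p * (A + 672 / 100 * uq) * E ^ i) * e0 := by ring
    _ ≤ _ := mul_le_mul_of_nonneg_right h2 he0

/-- the moments of the far windows -/
theorem momH (S : Sel b β r M) : MomH b β r (aM b M) (nM M) c20.num where
  m2 := by
    intro _ z hz
    have e1 : c20.num.qL = -(58 / 100) := by norm_num [c20, NumQ.num]
    have e2 : c20.num.qR = -(405 / 1000) := by norm_num [c20, NumQ.num]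
    rw [e1, e2] at hz
    have hMb := S.Mb_pos
    have hb := S.b_pos
    obtain ⟨D, hC⟩ := S.B.slR S.B.L9 (by norm_num) (by norm_num)
    have hd := D.ud_right hz.1 hz.2 (k := 2) le_rfl
    have h := S.moA D hC D.pref_r (Dd := 12 / 10) (K := 27 / 10) (k := 2) (by norm_num) (by norm_num) (by omega)
      (by omega) (by linarith [hz.2]) (hd.trans (le_of_eq (by push_cast; ring)))
    have e3 : LL b β r z ((2 : ℤ) : ℝ) =
        2 * sig (β * r) (tk b β r 1 z) - sig (β * r) (tk b β r 0 z) := by
      unfold LL; push_cast; ring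
    rw [e3] at h
    have e : c20.num.P2 = 27 / 10 := by norm_num [c20, NumQ.num]
    rw [W2_20, e]
    push_cast at h
    exact h
  m3 := by
    intro i hi z hz
    have e1 : c20.num.qL = -(58 / 100) := by norm_num [c20, NumQ.num]
    have e2 : c20.num.qR = -(405 / 1000) := by norm_num [c20, NumQ.num]
    rw [e1, e2] at hz
    unfold sw at hi
    rw [Finset.mem_erase, Finset.mem_erase, Finset.mem_Ico, nMb] at hi
    have hk2 : (3 + i : ℤ) ≤ (M * b : ℤ) + b := by
      have := hi.2.2.2
      unfold aM at this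
      omega
    have hMb := S.Mb_pos
    have hb := S.b_pos
    have hz0 : z ≤ 0 := by linarith [hz.2]
    have hi0 : (0 : ℝ) ≤ i := Nat.cast_nonneg i
    obtain ⟨D, hC⟩ := S.B.slR S.B.L9 (by norm_num) (by norm_num)
    have hd := D.ud_right hz.1 hz.2 (k := 3 + i) (by omega)
    have e3 : LL b β r z ((3 + i : ℤ) : ℝ) =
        (3 + i) * sig (β * r) (tk b β r 1 z) - (2 + i) * sig (β * r) (tk b β r 0 z) := by
      unfold LL; push_cast; ring
    have e4 : 12 / 10 + 132 / 100 * (((3 + i : ℤ) : ℝ) - 2) = 12 / 10 + 132 / 100 * (1 + (i : ℝ)) := by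
      push_cast; ring
    rw [e4] at hd
    have e5 : c20.num.P3 = 44 / 10 := by norm_num [c20, NumQ.num]
    have e6 : c20.num.P4 = 17 / 10 := by norm_num [c20, NumQ.num]
    rw [W3_20, e5, e6]
    rcases le_or_gt (3 + i : ℤ) (M * b : ℤ) with h0 | h0
    · have h := S.moA D hC D.pref_r (Dd := 12 / 10 + 132 / 100 * (1 + (i : ℝ)))
        (K := (116 / 100) * (10471 / 10000 * (12 / 10 + 132 / 100 * (1 + (i : ℝ))) + 438 / 1000)) (k := 3 + i)
        (by positivity) le_rfl (by omega) h0 hz0 hd
      rw [e3, split_r S.B] at h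
      have h' : _ ≤ (116 / 100) * ((10471 / 10000 * (12 / 10 + 132 / 100 * (1 + (i : ℝ))) + 438 / 1000) +
          672 / 100 * 0) * (Real.exp (-(8955 / 10000 * TT b β r)) ^ i *
            Real.exp (-(TT b β r * (8955 / 10000 * (3 + z) - 403 / 1000)))) * GN β r :=
        h.trans (le_of_eq (by ring))
      refine fin_mo h' (x := 0) (by norm_num) (Real.exp_pos _).le (e5_r S.B) (by positivity) (Real.exp_pos _).le
        (by simp) ?_
      nlinarith
    · have h := S.moC D (by norm_num) (by norm_num) hC D.pref_r (Dd := 12 / 10 + 132 / 100 * (1 + (i : ℝ)))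
        (k := 3 + i) (by positivity) (by omega) hk2 hz0 hd
      rw [e3, split_r S.B] at h
      have hab := S.absorb (s := 8955 / 10000) (by norm_num) (by norm_num) (i := i) (by omega)
      refine fin_mo h (x := 215 / 1000) (by norm_num) (Real.exp_pos _).le (e5_r S.B) (by positivity)
        (Real.exp_pos _).le hab ?_
      nlinarith
  mm := by
    intro _ z hz
    have e1 : c20.num.qL = -(58 / 100) := by norm_num [c20, NumQ.num]
    have e2 : c20.num.qR = -(405 / 1000) := by norm_num [c20, NumQ.num]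
    rw [e1, e2] at hz
    have hMb := S.Mb_pos
    have hb := S.b_pos
    obtain ⟨D, hC⟩ := S.B.slL
    have hd := D.ud_left hz.1 hz.2 (k := -1) le_rfl
    have h := S.moA D hC (D.pref_l (by norm_num)) (Dd := 112 / 100) (K := 24 / 10) (k := -1) (by norm_num) (by norm_num)
      (by omega) (by omega) (by linarith [hz.2]) (hd.trans (le_of_eq (by push_cast; ring)))
    have e3 : LL b β r z ((-1 : ℤ) : ℝ) =
        2 * sig (β * r) (tk b β r 0 z) - sig (β * r) (tk b β r 1 z) := by
      unfold LL; push_cast; ring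
    have e4 : -(TT b β r * (-(865 / 1000) * (((-1 : ℤ) : ℝ) + z) - 412 / 1000)) =
        -(TT b β r * (865 / 1000 * (1 - z) - 412 / 1000)) := by push_cast; ring
    rw [e3, e4] at h
    have e : c20.num.Pm = 24 / 10 := by norm_num [c20, NumQ.num]
    rw [Wm_20, e]
    exact h
  mm2 := by
    intro i hi z hz
    have e1 : c20.num.qL = -(58 / 100) := by norm_num [c20, NumQ.num]
    have e2 : c20.num.qR = -(405 / 1000) := by norm_num [c20, NumQ.num]
    rw [e1, e2] at hz
    have hMb := S.Mb_pos
    have hb := S.b_pos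
    have hz0 : z ≤ 0 := by linarith [hz.2]
    have hi0 : (0 : ℝ) ≤ i := Nat.cast_nonneg i
    obtain ⟨D, hC⟩ := S.B.slL
    have hp := D.pref_l (by norm_num)
    have hd := D.ud_left hz.1 hz.2 (k := -2 - i) (by omega)
    have e3 : LL b β r z ((-2 - i : ℤ) : ℝ) =
        (3 + i) * sig (β * r) (tk b β r 0 z) - (2 + i) * sig (β * r) (tk b β r 1 z) := by
      unfold LL; push_cast; ring
    have e4 : 112 / 100 + 132 / 100 * (-1 - ((-2 - i : ℤ) : ℝ)) = 112 / 100 + 132 / 100 * (1 + (i : ℝ)) := by
      push_cast; ring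
    rw [e4] at hd
    have e5 : c20.num.Pm2 = 39 / 10 := by norm_num [c20, NumQ.num]
    have e6 : c20.num.Pm3 = 15 / 10 := by norm_num [c20, NumQ.num]
    rw [Wm2_20, e5, e6]
    rcases le_or_gt (-2 - i : ℤ) (-(M * b : ℤ)) with h0 | h0
    · have h := S.moR D (by norm_num) (by norm_num) hC hp (Dd := 112 / 100 + 132 / 100 * (1 + (i : ℝ)))
        (k := -2 - i) (by positivity) h0 hz0 hd
      rw [e3, split_l S.B] at h
      have hab := S.absorb (s := 865 / 1000) (by norm_num) (by norm_num) (i := i) (by omega)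
      refine fin_mo h (x := 215 / 1000) (by norm_num) (Real.exp_pos _).le (e5_l S.B) (by positivity)
        (Real.exp_pos _).le hab ?_
      nlinarith
    · have h := S.moA D hC hp (Dd := 112 / 100 + 132 / 100 * (1 + (i : ℝ)))
        (K := (1001 / 1000) * (10471 / 10000 * (112 / 100 + 132 / 100 * (1 + (i : ℝ))) + 438 / 1000)) (k := -2 - i)
        (by positivity) le_rfl (by omega) (by omega) hz0 hd
      rw [e3, split_l S.B] at h
      have h' : _ ≤ (1001 / 1000) * ((10471 / 10000 * (112 / 100 + 132 / 100 * (1 + (i : ℝ))) + 438 / 1000) +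
          672 / 100 * 0) * (Real.exp (-(865 / 1000 * TT b β r)) ^ i *
            Real.exp (-(TT b β r * (865 / 1000 * (2 - z) - 412 / 1000)))) * GN β r :=
        h.trans (le_of_eq (by ring))
      refine fin_mo h' (x := 0) (by norm_num) (Real.exp_pos _).le (e5_l S.B) (by positivity) (Real.exp_pos _).le
        (by simp) ?_
      nlinarith

end Sel

/-! ### geometry -/

namespace Big

variable {b : ℕ} {β r : ℝ}

theorem f1R (B : Big b β r) : c20.num.f1R ≤ en b (β * r) (c20.num.qR + 1) := by
  have e1 : c20.num.qR = -(405 / 1000) := by norm_num [c20, NumQ.num]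
  have e2 : c20.num.f1R = 1761 / 10000 := by norm_num [c20, NumQ.num]
  have hhl := B.h_le'
  have hpi := Real.pi_pos
  have hκ := B.hκ
  rw [e1, e2]
  have h := B.L6.f1R (z := 595 / 1000) (f := 1761 / 10000) (τm := 566 / 100) B.k1 B.hpos (by norm_num)
    (by linarith) (by linarith) (by norm_num)
  have e3 : (-(405 / 1000) + 1 : ℝ) = 595 / 1000 := by norm_num
  unfold en
  rw [e3]
  exact h

theorem mu20 (B : Big b β r) : ∀ z ∈ Icc c20.num.qL c20.num.qR,
    c20.num.μ ≤ sn b (β * r) (z + 1) - sn b (β * r) z := by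
  have e1 : c20.num.qL = -(58 / 100) := by norm_num [c20, NumQ.num]
  have e2 : c20.num.qR = -(405 / 1000) := by norm_num [c20, NumQ.num]
  have e3 : c20.num.μ = 9 / 10 := by norm_num [c20, NumQ.num]
  have hhl := B.h_le'
  have hpi := Real.pi_pos
  have hκ := B.hκ
  rw [e1, e2, e3]
  exact mu_piece (l := 995 / 1000) (τm := 566 / 100) (H₁ := 31416 / 100000) (mp := 53 / 100) (mq := 38 / 100)
    B.k1 B.hpos B.H_le20 (Line.zero B.k1) (by norm_num) (by norm_num) (by norm_num)
    (fun τ h0 h1 => lv20 hκ h0 h1) (by linarith) (by linarith)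
    (exp_le_bd (by norm_num) (by norm_num) (by norm_num [Finset.sum_range_succ, Nat.factorial]))
    (exp_le_bd (by norm_num) (by norm_num) (by norm_num [Finset.sum_range_succ, Nat.factorial]))
    (by norm_num) (by norm_num)

theorem geoL (B : Big b β r) : GeoL b (β * r) c20.num :=
  geoL_of (b0 := 1) (k1 := 20) (H := 31416 / 100000) (by decide +kernel) B.hb (by push_cast; exact B.hκ)

theorem geoUQ20 (k2 : ℚ) : geoUQ c20 1 20 k2 (31416 / 100000) := by
  refine ⟨by norm_num, by norm_num, by norm_num, by norm_num, by decide +kernel, by decide +kernel, by decide +kernel,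
    by decide +kernel, by decide +kernel, ⟨by decide +kernel, by decide +kernel, Or.inl (by decide +kernel)⟩,
    ⟨by decide +kernel, by decide +kernel, Or.inl (by decide +kernel)⟩,
    ⟨by decide +kernel, by decide +kernel, Or.inl (by decide +kernel)⟩⟩

theorem geoU (B : Big b β r) : GeoU b (β * r) c20.num := by
  obtain ⟨k2, hk2⟩ := exists_nat_ge (β * r)
  exact geoU_of (geoUQ20 (k2 : ℚ)) B.hb (by push_cast; exact B.hκ) (by push_cast; exact hk2)

end Big

end Sok.R2.K20
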