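import Pool.Agent.Lib.MP_816dec_an.R2K20H
import Pool.Agent.Lib.MP_816dec_an.N1X0

/-!
MP_816dec_an (row R2, class `κ ≥ 20`): values of the main windows.
-/

set_option autoImplicit false

open Complex Set Filter Topology MeasureTheory

namespace Sok.R2.K20

open Big Sok.Mid Sok.N1

/-- data of a main window at the angle `t`: saddle `a + i y`, `x = a - t` -/
structure NW (b : ℕ) (β r t : ℝ) (y a : ℝ) : Prop where
  B : Big b β r
  h : Sad β r t a y
  I : Iy (β * r) y
  hx : a - t = Xk (β * r) y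
  ha : a = Real.arctan (y / Xk (β * r) y)
  hyl : -(3134 / 10000) ≤ y
  hyu : y ≤ 28206 / 100000
  ht : t ≤ -Real.pi

namespace NW

variable {b : ℕ} {β r t y a : ℝ}

theorem X_ge (D : NW b β r t y a) : 7441 / 10000 * (β * r) ≤ a - t := by
  rw [D.hx]
  rcases le_total 0 y with h | h
  · exact X_ge_gen D.B.hκ D.I (by rw [abs_of_nonneg h]; exact D.hyu)
  · have := X_ge_gen' D.B.hκ D.I h (by linarith [D.hyl])
    have := D.B.kpos
    linarith

theorem X_ge_neg (D : NW b β r t y a) (h : y ≤ 0) : β * r ≤ a - t := by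
  rw [D.hx]
  exact X_ge_gen' D.B.hκ D.I h (by linarith [D.hyl])

theorem xpos (D : NW b β r t y a) : 0 < a - t := by rw [D.hx]; exact D.I.xpos

theorem y50 (D : NW b β r t y a) : 50 * |y| ≤ a - t := by
  have hκ := D.B.hκ
  rcases le_total 0 y with h | h
  · rw [abs_of_nonneg h]
    have h1 := D.X_ge
    have h2 := D.hyu
    linarith
  · rw [abs_of_nonpos h]
    have h1 := D.X_ge_neg h
    have h2 := D.hyl
    linarith

theorem x14 (D : NW b β r t y a) : 1488 / 100 ≤ a - t := by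
  have := D.X_ge
  have := D.B.hκ
  linarith

theorem abs_a (D : NW b β r t y a) : |a| ≤ 1 / 50 := by
  have h1 := arctan_abs (x := y / Xk (β * r) y)
  rw [← D.ha, abs_div, abs_of_pos D.I.xpos, ← D.hx] at h1
  refine h1.trans ?_
  rw [div_le_iff₀ D.xpos]
  have := D.y50
  linarith

theorem sgn (D : NW b β r t y a) : Sgn y a := by
  have hx := D.I.xpos
  have ha := D.ha
  rcases le_total 0 y with h | h
  · left
    refine ⟨h, ?_, ?_⟩
    · rw [ha]; exact Real.arctan_nonneg.2 (div_nonneg h hx.le)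
    · rw [ha]; exact Real.arctan_lt_pi_div_two _
  · right
    refine ⟨h, ?_, ?_⟩
    · rw [ha]
      have := Real.arctan_mono (div_nonpos_of_nonpos_of_nonneg h hx.le)
      rwa [Real.arctan_zero] at this
    · rw [ha]; exact Real.neg_pi_div_two_lt_arctan _

/-- `A = x / β` -/
theorem A_ge (D : NW b β r t y a) : 40 ≤ (a - t) / β := by
  have h1 := D.X_ge
  have h2 := D.B.r_ge
  have hβ := D.B.hβ
  rw [le_div_iff₀ hβ]
  nlinarith

theorem line (D : NW b β r t y a) : LineK β r y a ((a - t) / β) where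
  hβ := D.B.hβ
  hr := D.B.hr
  hs := D.sgn
  hvw := by
    have h1 := D.h.hs
    have hE : Real.exp (-y) * Real.exp y = 1 := by rw [← Real.exp_add]; simp
    calc β * r * Real.sin a = β * r * Real.sin a * (Real.exp (-y) * Real.exp y) := by rw [hE, mul_one]
      _ = (β * r * Real.exp (-y) * Real.sin a) * Real.exp y := by ring
      _ = _ := by rw [h1]
  ha := by
    have h1 := D.h.hc
    have hβ := D.B.hβ
    rw [← h1]
    field_simp
  a40 := D.A_ge
  he := by
    have h1 := D.y50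
    have hβ := D.B.hβ
    rw [div_le_iff₀ hβ]
    have e : (a - t) / β / 50 * β = (a - t) / 50 := by field_simp
    rw [e]; linarith
  hw1 := D.abs_a.trans (by norm_num)

theorem expo (D : NW b β r t y a) : (a - t) / β + y / β * (a - t) = (a - t) * (1 + y) / β := by
  have hβ := D.B.hβ
  field_simp

theorem nS_eq (D : NW b β r t y a) : nS (a - t) y = β * r * Real.exp (-y) := by
  rw [← norm_Lx D.h]
  unfold Lx
  rw [norm_xy]

theorem nS_ge (_D : NW b β r t y a) : a - t ≤ nS (a - t) y := by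
  unfold nS
  apply Real.le_sqrt_of_sq_le
  nlinarith [sq_nonneg y]

theorem nS_le (D : NW b β r t y a) : nS (a - t) y ≤ 1001 / 1000 * (a - t) := by
  have h1 := D.y50
  have hx := D.xpos
  unfold nS
  rw [Real.sqrt_le_left (by positivity)]
  have h2 : y ^ 2 ≤ ((a - t) / 50) ^ 2 := by
    rw [← sq_abs y]
    exact pow_le_pow_left₀ (abs_nonneg _) (by linarith) 2
  nlinarith

theorem nD_le (D : NW b β r t y a) : nD (a - t) y ≤ 101 / 100 * (a - t) := by
  have hx := D.x14
  have h2 := D.hyl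
  have h3 := D.hyu
  unfold nD
  rw [Real.sqrt_le_left (by linarith)]
  nlinarith

end NW

/-- the central part, `cL = cR = 4/5` -/
theorem central20 {β x y : ℝ} (hx : 0 < x) (hA : 40 ≤ x / β) (hn : nS x y ≤ 1001 / 1000 * x)
    (hd : nD x y ≤ 101 / 100 * x) : epsC β 1 0 x y 1 (1 / 6) (1 / 24) (4 / 5) (4 / 5) ≤ 15 / 1000 := by
  obtain ⟨A, hAd⟩ : ∃ A : ℝ, A = x / β := ⟨_, rfl⟩
  unfold epsC
  rw [aq_hor, ← hAd]
  rw [← hAd] at hA
  have hA0 : 0 < A := by linarith
  have hρ : nS x y / x ≤ 1001 / 1000 := by rw [div_le_iff₀ hx]; exact hn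
  have hρ0 : 0 ≤ nS x y / x := by unfold nS; positivity
  have hD1 : Real.sqrt (nD x y / x) ≤ 1005 / 1000 := by
    rw [Real.sqrt_le_left (by norm_num), div_le_iff₀ hx]
    nlinarith
  have hs8 : (8944 / 10000 : ℝ) ≤ Real.sqrt (4 / 5) := by
    apply Real.le_sqrt_of_sq_le; norm_num
  have hs80 : 0 < Real.sqrt (4 / 5 : ℝ) := by linarith
  have q : (1 / 6 : ℝ) ^ 2 / ((4 / 5) ^ 3 * Real.sqrt (4 / 5)) ≤ 6067 / 100000 := by
    rw [div_le_iff₀ (by positivity)]
    nlinarith
  have q0 : 0 ≤ (1 / 6 : ℝ) ^ 2 / ((4 / 5) ^ 3 * Real.sqrt (4 / 5)) := by positivity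
  have hρ2 : (nS x y / x) ^ 2 ≤ (1001 / 1000) ^ 2 := pow_le_pow_left₀ hρ0 hρ 2
  have m1 : 3 / 2 * (nS x y / x) * (1 / 24 + 1 / 24) ≤ 12513 / 100000 := by linarith
  have m2 : 15 / 4 * (nS x y / x) ^ 2 * ((1 / 6) ^ 2 / ((4 / 5) ^ 3 * Real.sqrt (4 / 5)) +
      (1 / 6) ^ 2 / ((4 / 5) ^ 3 * Real.sqrt (4 / 5))) ≤ 4560 / 10000 := by
    have h1 : 15 / 4 * (nS x y / x) ^ 2 ≤ 15 / 4 * (1001 / 1000) ^ 2 := by linarith
    have h2 : (1 / 6 : ℝ) ^ 2 / ((4 / 5) ^ 3 * Real.sqrt (4 / 5)) + (1 / 6) ^ 2 / ((4 / 5) ^ 3 * Real.sqrt (4 / 5)) ≤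
      12134 / 100000 := by linarith
    refine (mul_le_mul h1 h2 (by linarith) (by norm_num)).trans ?_
    norm_num
  have m3 : 2 * Real.exp (-(A / 2) * 1 ^ 2) / (Real.sqrt (2 * Real.pi * A) * 1) ≤ 1 / 100000 := by
    have hpi := Real.pi_gt_three
    have h1 : Real.exp (-(A / 2) * 1 ^ 2) ≤ 1 / 1000000 := by
      refine le_trans (Real.exp_le_exp.2 ?_) exp16
      linarith
    have h2 : 1 ≤ Real.sqrt (2 * Real.pi * A) := by
      rw [Real.one_le_sqrt]; nlinarith
    rw [mul_one]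
    have h3 : 0 < Real.exp (-(A / 2) * 1 ^ 2) := Real.exp_pos _
    rw [div_le_iff₀ (by linarith)]
    nlinarith
  have m4 : (3 / 2 * (nS x y / x) * (1 / 24 + 1 / 24) + 15 / 4 * (nS x y / x) ^ 2 *
      ((1 / 6) ^ 2 / ((4 / 5) ^ 3 * Real.sqrt (4 / 5)) + (1 / 6) ^ 2 / ((4 / 5) ^ 3 * Real.sqrt (4 / 5)))) / A ≤
      5812 / 400000 := by
    rw [div_le_iff₀ hA0]
    nlinarith
  have m5 : 0 ≤ (3 / 2 * (nS x y / x) * (1 / 24 + 1 / 24) + 15 / 4 * (nS x y / x) ^ 2 *
      ((1 / 6) ^ 2 / ((4 / 5) ^ 3 * Real.sqrt (4 / 5)) + (1 / 6) ^ 2 / ((4 / 5) ^ 3 * Real.sqrt (4 / 5)))) / A := by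
    positivity
  have m6 : 0 ≤ 2 * Real.exp (-(A / 2) * 1 ^ 2) / (Real.sqrt (2 * Real.pi * A) * 1) := by positivity
  refine (mul_le_mul hD1 (add_le_add m4 m3) (by positivity) (by norm_num)).trans ?_
  norm_num

namespace NW

variable {b : ℕ} {β r t y a : ℝ}

/-- the tails, `y ≥ 0` -/
theorem tail (D : NW b β r t y a) (hy : 0 ≤ y) :
    Tail β r t a y 1 0 1 ≤ Real.exp ((a - t) * (1 + y) / β) * (1 / 10000 * (1 / ((a - t) / β))) := by
  have hβ := D.B.hβ
  have hr := D.B.hr
  have hpi3 := Real.pi_gt_d2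
  have hpi4 := Real.pi_lt_d2
  have hx := D.x14
  have hyx := D.y50
  rw [abs_of_nonneg hy] at hyx
  have haa := abs_le.1 D.abs_a
  have ha0 : 0 ≤ a := by rw [D.ha]; exact Real.arctan_nonneg.2 (div_nonneg hy D.I.xpos.le)
  have hw := D.nS_eq
  have hn := D.nS_ge
  obtain ⟨hc1, hc2⟩ := cos_one_bds
  have hs1 : 0.8414 ≤ Real.sin 1 := by
    have h1 := Real.sin_sq_add_cos_sq 1
    have h2 : 0 < Real.sin 1 := Real.sin_pos_of_pos_of_lt_pi one_pos (by linarith)
    nlinarith
  have hs1' : Real.sin 1 ≤ 1 := Real.sin_le_one 1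
  have hA := D.A_ge
  have hleg := D.line.leg_neg D.ht
  have ee : (a - t) / β + y / β * (a - t) = (a - t) * (1 + y) / β := D.expo
  rw [ee] at hleg
  unfold Tail
  have e0 : y + 0 * 1 = y := by ring
  have e1 : y - 0 * 1 = y := by ring
  have e2 : a - 1 * 1 = a + (-1) := by ring
  have e3 : a + 1 * 1 = a + 1 := by ring
  rw [e0, e1, e2, e3]
  obtain ⟨x, hxd⟩ : ∃ x : ℝ, x = a - t := ⟨_, rfl⟩
  have hx0 : 0 < x := by rw [hxd]; exact D.xpos
  have hR := right_tail (β := β) (r := r) (t := t) (X := a + 1) (v := y) (m := 0.64) (S := 0.6 * x) hβ hr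
    (by linarith) (by linarith)
    (by
      have h1 : Real.sin 1 ≤ Real.sin (a + 1) :=
        Real.sin_le_sin_of_le_of_le_pi_div_two (by linarith) (by linarith) (by linarith)
      linarith)
    (by
      have h1 := Real.one_sub_sq_div_two_le_cos (x := a + 1)
      nlinarith)
    (by positivity)
    (by rw [← hw]; rw [← hxd] at hn hyx ⊢; nlinarith)
    (by rw [← hw]; have := D.ht; rw [← hxd] at hn hyx ⊢; nlinarith)
  have hL := left_tail (β := β) (r := r) (t := t) (X := a + (-1)) (v := y) (m := 0.6) (S := 0.6 * x) hβ hr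
    (by linarith) (by linarith)
    (by
      have e : -(a + -1) = 1 - a := by ring
      rw [e]
      have h2 := Real.sin_gt_sub_cube (x := 1 - a) (by linarith)
      have h4 : (1 - a) ^ 3 ≤ 1 := pow_le_one₀ (by linarith) (by linarith)
      linarith)
    (by
      have h1 := Real.one_sub_sq_div_two_le_cos (x := a + (-1))
      nlinarith)
    (by positivity)
    (by rw [← hw]; rw [← hxd] at hn hyx ⊢; nlinarith)
  have hmR : mg β r t (a + 1) y ≤ Real.exp ((a - t) * (1 + y) / β) * (1 / 1000000) := by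
    have h1 := mg_rel D.h 1 0
    rw [add_zero] at h1
    rw [h1]
    apply mul_le_mul_of_nonneg_left _ (Real.exp_pos _).le
    refine le_trans (Real.exp_le_exp.2 ?_) (tiny0 hA)
    have e7 : -(2 / 5 * ((a - t) / β)) = -(2 / 5 * (a - t)) / β := by ring
    rw [e7]
    apply div_le_div_of_nonneg_right _ hβ.le
    unfold NN
    rw [neg_zero, Real.exp_zero]
    have h2 : (a - t) * Real.cos 1 ≤ (a - t) * 0.5404 := mul_le_mul_of_nonneg_left hc2 (by linarith)
    have h3 : y * 0.8414 ≤ y * Real.sin 1 := mul_le_mul_of_nonneg_left hs1 hy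
    linarith
  have hmL : mg β r t (a + (-1)) y ≤ Real.exp ((a - t) * (1 + y) / β) * (1 / 1000000) := by
    have h1 := mg_rel D.h (-1) 0
    rw [add_zero] at h1
    rw [h1]
    apply mul_le_mul_of_nonneg_left _ (Real.exp_pos _).le
    refine le_trans (Real.exp_le_exp.2 ?_) (tiny0 hA)
    have e7 : -(2 / 5 * ((a - t) / β)) = -(2 / 5 * (a - t)) / β := by ring
    rw [e7]
    apply div_le_div_of_nonneg_right _ hβ.le
    unfold NN
    rw [neg_zero, Real.exp_zero, Real.cos_neg, Real.sin_neg]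
    have h2 : (a - t) * Real.cos 1 ≤ (a - t) * 0.5404 := mul_le_mul_of_nonneg_left hc2 (by linarith)
    have h3 : y * Real.sin 1 ≤ y * 1 := mul_le_mul_of_nonneg_left hs1' hy
    linarith
  have hG := Real.exp_pos ((a - t) * (1 + y) / β)
  obtain ⟨G, hGd⟩ : ∃ G : ℝ, G = Real.exp ((a - t) * (1 + y) / β) := ⟨_, rfl⟩
  rw [← hGd] at hmR hmL hleg hG ⊢
  rw [← hxd] at hleg ⊢
  have k1 : β / (0.6 * x) ≤ 2 * (1 / (x / β)) := by
    have : β / (0.6 * x) = (1 / 0.6) * (1 / (x / β)) := by field_simp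
    rw [this]
    apply mul_le_mul_of_nonneg_right _ (by positivity)
    norm_num
  have k0 : 0 ≤ β / (0.6 * x) := by positivity
  have g1 := mul_le_mul hmR k1 k0 (by positivity)
  have g2 := mul_le_mul hmL k1 k0 (by positivity)
  have e9 : 0 < G * (1 / (x / β)) := by positivity
  linarith [hR.trans g1, hL.trans g2]

/-- **value**, `y ≥ 0` -/
theorem val1 (D : NW b β r t y a) (hy : 0 ≤ y) :
    |‖AA β r t‖ * Real.sqrt (nD (a - t) y) * Real.exp (-((a - t) * (1 + y) / β)) - 1| ≤ 2 / 100 := by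
  have hβ := D.B.hβ
  have hpi3 := Real.pi_gt_d2
  have haa := abs_le.1 D.abs_a
  have ha0 : 0 ≤ a := by rw [D.ha]; exact Real.arctan_nonneg.2 (div_nonneg hy D.I.xpos.le)
  have hx := D.x14
  have hyu := D.hyu
  have hnS := D.nS_le
  have hval := value (c := 1) (s := 0) (T := 1) (φ3 := 1 / 6) (φ4 := 1 / 24) (cL := 4 / 5) (cR := 4 / 5) D.h
    (by norm_num) le_rfl (by linarith) (by linarith) (by linarith) one_pos (by rw [aq_hor]; linarith) (phB_hor 1)
    (by norm_num) (by norm_num) (by norm_num) (by norm_num) (by norm_num)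
    (by rw [aq_hor, k3_hor]; linarith) (by rw [aq_hor, k3_hor]; linarith)
  refine hval.trans ?_
  have hA := D.A_ge
  have hcen := central20 (y := y) D.xpos hA hnS D.nD_le
  have htail := D.tail hy
  obtain ⟨A, hAd⟩ : ∃ A : ℝ, A = (a - t) / β := ⟨_, rfl⟩
  rw [← hAd] at htail hA
  have hA0 : 0 < A := by linarith
  have hE := Real.exp_pos ((a - t) * (1 + y) / β)
  have hEE : Real.exp (-((a - t) * (1 + y) / β)) * Real.exp ((a - t) * (1 + y) / β) = 1 := by
    rw [← Real.exp_add, neg_add_cancel, Real.exp_zero]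
  have hK : Real.sqrt (nD (a - t) y / (2 * Real.pi * β)) ≤ A := by
    rw [Real.sqrt_le_left hA0.le, div_le_iff₀ (by positivity)]
    have h1 := D.nD_le
    have h2 : A ^ 2 * (2 * Real.pi * β) = A * (2 * Real.pi) * (a - t) := by
      rw [hAd]; field_simp
    rw [h2]
    have h3 : 2 ≤ A * (2 * Real.pi) := by nlinarith
    have h4 := mul_le_mul_of_nonneg_right h3 D.xpos.le
    linarith [D.xpos]
  have hfin : Real.sqrt (nD (a - t) y / (2 * Real.pi * β)) * Real.exp (-((a - t) * (1 + y) / β)) *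
      Tail β r t a y 1 0 1 ≤ 1 / 10000 := by
    have hT0 : 0 ≤ Tail β r t a y 1 0 1 := by
      unfold Tail
      have := Leg_nonneg β r t (-Real.pi) (y + 0 * 1)
      have := Leg_nonneg β r t Real.pi (y - 0 * 1)
      have := Hor_nonneg β r t (y + 0 * 1) (a := -Real.pi) (b := a - 1 * 1) (by linarith)
      have := Hor_nonneg β r t (y - 0 * 1) (a := a + 1 * 1) (b := Real.pi) (by linarith)
      positivity
    have h3 := Real.exp_pos (-((a - t) * (1 + y) / β))
    refine (mul_le_mul (mul_le_mul_of_nonneg_right hK h3.le) htail hT0 (by positivity)).trans (le_of_eq ?_)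
    calc A * Real.exp (-((a - t) * (1 + y) / β)) * (Real.exp ((a - t) * (1 + y) / β) * (1 / 10000 * (1 / A))) =
          (Real.exp (-((a - t) * (1 + y) / β)) * Real.exp ((a - t) * (1 + y) / β)) * (1 / 10000) * (A * (1 / A)) := by
          ring
      _ = _ := by rw [hEE]; field_simp
  linarith

/-- **value**, both signs -/
theorem val (D : NW b β r t y a) :
    |‖AA β r t‖ * Real.sqrt (nD (a - t) y) * Real.exp (-((a - t) * (1 + y) / β)) - 1| ≤ 2 / 100 := by
  rcases le_total 0 y with hy | hy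
  · exact D.val1 hy
  · have hκ := D.B.hκ
    have hr := D.B.r_ge
    have hs := D.sgn
    have ha0 : a ≤ 0 := by
      rw [D.ha]
      have := Real.arctan_mono (div_nonpos_of_nonpos_of_nonneg hy D.I.xpos.le)
      rwa [Real.arctan_zero] at this
    have h1 := val0 D.h (by linarith) (by linarith) (by linarith [D.hyl]) hy
      (by rw [D.ha]; exact Real.neg_pi_div_two_lt_arctan _) ha0
    refine h1.trans ?_
    rw [div_le_iff₀ (by linarith)]
    linarith

end NW

end Sok.R2.K20
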