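import Pool.Agent.Lib.MP_816dec_an.R2K20I
import Pool.Agent.Lib.MP_816dec_an.A0Sec6

/-!
MP_816dec_an (row R2, class `κ ≥ 20`): slopes of the main windows.
-/

set_option autoImplicit false

open Complex Set Filter Topology MeasureTheory

namespace Sok.R2.K20

open Big Sok.Mid Sok.N1

theorem tinyB {A x : ℝ} (hA : 40 ≤ A) (hx : 9 / 10 * A ≤ x) : A ^ 2 * Real.exp (-x) ≤ 1 / 100000 := by
  have h1 : Real.exp (-x) ≤ Real.exp (-(2 / 5 * A)) * Real.exp (-(A / 2)) := by
    rw [← Real.exp_add]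
    exact Real.exp_le_exp.2 (by linarith)
  have h2 := tiny0 hA
  have h3 := Real.quadratic_le_exp_of_nonneg (x := A / 2) (by linarith)
  have h4 : A ^ 2 * Real.exp (-(A / 2)) ≤ 8 := by
    rw [Real.exp_neg, ← div_eq_mul_inv, div_le_iff₀ (Real.exp_pos _)]
    nlinarith
  have h5 := Real.exp_pos (-(A / 2))
  calc A ^ 2 * Real.exp (-x) ≤ A ^ 2 * (Real.exp (-(2 / 5 * A)) * Real.exp (-(A / 2))) :=
        mul_le_mul_of_nonneg_left h1 (by positivity)
    _ = Real.exp (-(2 / 5 * A)) * (A ^ 2 * Real.exp (-(A / 2))) := by ring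
    _ ≤ 1 / 1000000 * 8 := mul_le_mul h2 h4 (by positivity) (by norm_num)
    _ ≤ _ := by norm_num

namespace Big

variable {b : ℕ} {β r : ℝ}

theorem u_sq_gen (B : Big b β r) {X : ℝ} (hx : 7441 / 10000 * (β * r) ≤ X) : uu b β r ^ 2 ≤ X / β / 4 := by
  have hk := B.kpos
  have hk2 := B.ksq
  have hβ := B.hβ
  have hr := B.hr
  have hT := B.Teq
  have hTp := B.Tpos
  have hT0 := B.hT
  have hX0 : 0 < X := by linarith
  have h0 : 0 < 1 + (β * r) ^ 2 := by positivity
  have hh2 : hh b ^ 2 = TT b β r * (1 + (β * r) ^ 2) / r := by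
    rw [hT]; field_simp
  have e1 : uu b β r ^ 2 = (1 + (β * r) ^ 2) / (r * TT b β r * β ^ 2) := by
    unfold uu
    rw [mul_pow, div_pow, hh2]
    field_simp
  rw [e1, div_div, div_le_div_iff₀ (by positivity) (by positivity)]
  have h1 : 4 * (1 + (β * r) ^ 2) ≤ 401 / 100 * (β * r) ^ 2 := by linarith
  have h2 : 7441 / 10000 * (5441 / 1000) * (β * r) ≤ X * TT b β r := by
    calc 7441 / 10000 * (5441 / 1000) * (β * r) = (7441 / 10000 * (β * r)) * (5441 / 1000) := by ring
      _ ≤ _ := mul_le_mul hx hT0 (by norm_num) hX0.le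
  have h3 : 4 * (1 + (β * r) ^ 2) ≤ (β * r) * (X * TT b β r) := by
    have := mul_le_mul_of_nonneg_left h2 hk.le
    nlinarith
  have h4 := mul_le_mul_of_nonneg_left h3 hβ.le
  calc (1 + (β * r) ^ 2) * (β * 4) = β * (4 * (1 + (β * r) ^ 2)) := by ring
    _ ≤ _ := h4
    _ = _ := by ring

theorem beta_le (B : Big b β r) : β ≤ 37 / 100 := by
  have hk := B.kpos
  have hβ := B.hβ
  have hr := B.hr
  have hT := B.Teq
  have hT0 := B.hT
  have hH := B.H_le
  have hhl := B.h_le'
  have hhp := B.hpos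
  have h0 : 0 < 1 + (β * r) ^ 2 := by positivity
  have h1 : 5441 / 1000 * (1 + (β * r) ^ 2) ≤ r * hh b ^ 2 := by
    rw [← hT]; exact mul_le_mul_of_nonneg_right hT0 h0.le
  rw [div_le_iff₀ h0] at hH
  -- `β * r * h ≤ .3134 (1 + κ²)`
  have h2 : β * (r * hh b ^ 2) ≤ 3134 / 10000 * (1 + (β * r) ^ 2) * hh b := by
    have := mul_le_mul_of_nonneg_right hH hhp.le
    nlinarith
  have h3 : β * (5441 / 1000 * (1 + (β * r) ^ 2)) ≤ β * (r * hh b ^ 2) := mul_le_mul_of_nonneg_left h1 hβ.le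
  have h4 : 3134 / 10000 * (1 + (β * r) ^ 2) * hh b ≤ 3134 / 10000 * (1 + (β * r) ^ 2) * (62832 / 10000) :=
    mul_le_mul_of_nonneg_left hhl (by positivity)
  by_contra hcon
  push Not at hcon
  have h5 : 37 / 100 * (5441 / 1000 * (1 + (β * r) ^ 2)) < β * (5441 / 1000 * (1 + (β * r) ^ 2)) :=
    mul_lt_mul_of_pos_right hcon (by positivity)
  nlinarith

end Big

namespace NW

variable {b : ℕ} {β r t y a : ℝ}

theorem scl_le (D : NW b β r t y a) : scl β (a - t) ≤ ((a - t) / β) ^ 2 := by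
  have hβ := D.B.hβ
  have hA := D.A_ge
  obtain ⟨A, hAd⟩ : ∃ A : ℝ, A = (a - t) / β := ⟨_, rfl⟩
  rw [← hAd] at hA ⊢
  have hA0 : 0 < A := by linarith
  rw [scl_eq hβ hA0 (by rw [hAd]; field_simp)]
  have h2 := sqrt_two_pi
  rw [div_le_iff₀ (by linarith)]
  have h3 : Real.sqrt A ≤ A := by
    rw [Real.sqrt_le_left hA0.le]; nlinarith
  have h4 := Real.sqrt_nonneg A
  have h5 : A * Real.sqrt A ≤ A * A := mul_le_mul_of_nonneg_left h3 hA0.le
  nlinarith

/-- both halves of the line -/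
theorem hB_le (D : NW b β r t y a) {c g ν : ℝ} (hc : 9 / 10 * (a - t) ≤ c) (hg : 44 / 100 * (a - t) ≤ g)
    (hν : 6 / 10 * (a - t) ≤ ν) : scl β (a - t) * hB β c g ν ≤ 2931 / 10000 := by
  have hβ := D.B.hβ
  have hA := D.A_ge
  have h1 := hB_scale (β := β) (x := a - t) (c := c) (g := g) (ν := ν) (γ₁ := 9 / 10) (g₁ := 44 / 100) (ν₁ := 6 / 10)
    (l₁ := 40) (s := 633 / 100) (e := 1 / 1000000) (G := 293 / 1000) hβ D.xpos (by norm_num) (by norm_num) (by norm_num)
    hc hg hν (by norm_num) (by rw [le_div_iff₀ hβ] at hA; exact hA) (by norm_num)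
    (by rw [Real.sqrt_le_left (by norm_num)]; norm_num)
    (by refine le_trans (Real.exp_le_exp.2 ?_) exp16; norm_num)
    (by
      have h2 : (9486 / 10000 : ℝ) ≤ Real.sqrt (9 / 10) := by
        apply Real.le_sqrt_of_sq_le; norm_num
      nlinarith)
  refine h1.trans ?_
  unfold qc
  norm_num

/-- a leg, `S = ±π` -/
theorem legS (D : NW b β r t y a) {w : ℝ} {B : ℝ} (hB : B = Real.exp (-((t + β) * y / β)) * Real.exp (-(9 / 10 * ((a - t) / β))))
    (hw2 : 0 ≤ 2 + w) (hw3 : 2 + w ≤ 6) :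
    scl β (a - t) * (Real.exp (-((a - t) * (1 + y) / β)) * ((2 + w) * Real.exp y * B)) ≤ 1 / 10000 := by
  have hβ := D.B.hβ
  have hA := D.A_ge
  have hs := D.scl_le
  have hs0 := (scl_pos hβ D.xpos).le
  have hay : 0 ≤ y / β * a := D.line.vw
  have e1 : Real.exp (-((a - t) * (1 + y) / β)) * ((2 + w) * Real.exp y * B) =
      (2 + w) * Real.exp (-((a - t) / β) - y / β * a - 9 / 10 * ((a - t) / β)) := by
    rw [hB]
    have e2 : Real.exp (-((a - t) / β) - y / β * a - 9 / 10 * ((a - t) / β)) =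
        Real.exp (-((a - t) * (1 + y) / β)) * Real.exp y * Real.exp (-((t + β) * y / β)) *
          Real.exp (-(9 / 10 * ((a - t) / β))) := by
      rw [← Real.exp_add, ← Real.exp_add, ← Real.exp_add]
      congr 1
      field_simp
      ring
    rw [e2]; ring
  rw [e1]
  have h1 : Real.exp (-((a - t) / β) - y / β * a - 9 / 10 * ((a - t) / β)) ≤
      Real.exp (-(9 / 10 * ((a - t) / β))) := Real.exp_le_exp.2 (by linarith)
  have h2 := tinyB hA (le_refl (9 / 10 * ((a - t) / β)))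
  have h3 : (2 + w) * Real.exp (-((a - t) / β) - y / β * a - 9 / 10 * ((a - t) / β)) ≤
      6 * Real.exp (-(9 / 10 * ((a - t) / β))) := mul_le_mul hw3 h1 (Real.exp_pos _).le (by norm_num)
  calc _ ≤ ((a - t) / β) ^ 2 * (6 * Real.exp (-(9 / 10 * ((a - t) / β)))) :=
        mul_le_mul hs h3 (mul_nonneg hw2 (Real.exp_pos _).le) (by positivity)
    _ = 6 * (((a - t) / β) ^ 2 * Real.exp (-(9 / 10 * ((a - t) / β)))) := by ring
    _ ≤ 6 * (1 / 100000) := by linarith
    _ ≤ _ := by norm_num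

private theorem inv2 {A δ : ℝ} (hA : 40 ≤ A) (hδ : A ≤ δ) : 1 / δ + 1 / δ ^ 2 ≤ 1 := by
  have h1 : 1 / δ ≤ 1 / 40 := one_div_le_one_div_of_le (by norm_num) (by linarith)
  have h2 : 1 / δ ^ 2 ≤ 1 / 40 := by
    apply one_div_le_one_div_of_le (by norm_num)
    nlinarith
  linarith

theorem leg1 (D : NW b β r t y a) (htβ : t + β ≤ -Real.pi) : ∀ z ≤ y, LegW β r (t + β) (-Real.pi) z y 1 ≤
    Real.exp (-((t + β) * y / β)) * Real.exp (-(9 / 10 * ((a - t) / β))) := by
  intro z hz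
  have hβ := D.B.hβ
  have hr := D.B.hr
  have hA := D.A_ge
  have hal := D.line.a_le
  have he := D.line.he
  have hpi := Real.pi_lt_d2
  have hpi0 := Real.pi_pos
  have h1 : 0 ≤ (-Real.pi - (t + β)) / β := div_nonneg (by linarith) hβ.le
  refine (LegW_neg_pi_le hr.le zero_le_one (by linarith) hz).trans ?_
  apply mul_le_mul_of_nonneg_left _ (Real.exp_pos _).le
  have e1 : -(y / β) ≤ |y| / β := by
    rw [← neg_div]; exact div_le_div_of_nonneg_right (neg_le_abs y) hβ.le
  have e0 : 0 ≤ |y| / β := div_nonneg (abs_nonneg _) hβ.le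
  have e2 : -(Real.pi * y / β) ≤ 4 * ((a - t) / β / 50) := by
    have : -(Real.pi * y / β) = Real.pi * -(y / β) := by ring
    rw [this]
    have : Real.pi * -(y / β) ≤ Real.pi * (|y| / β) := mul_le_mul_of_nonneg_left e1 (by positivity)
    nlinarith
  have h3 : Real.exp (-(Real.pi * y / β) - r * Real.exp (-y)) ≤ Real.exp (-(9 / 10 * ((a - t) / β))) :=
    Real.exp_le_exp.2 (by linarith)
  have h4 := inv2 hA (by linarith : (a - t) / β ≤ (-Real.pi - (t + β)) / β + r * Real.exp (-y))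
  have h5 : 0 < (-Real.pi - (t + β)) / β + r * Real.exp (-y) := by linarith
  refine (mul_le_mul h3 h4 (by positivity) (Real.exp_pos _).le).trans (le_of_eq (mul_one _))

theorem leg0 (D : NW b β r t y a) (htβ : t + β ≤ -Real.pi) : ∀ z ≤ y, LegW β r (t + β) Real.pi z y 1 ≤
    Real.exp (-((t + β) * y / β)) * Real.exp (-(9 / 10 * ((a - t) / β))) := by
  intro z hz
  have hβ := D.B.hβ
  have hr := D.B.hr
  have hA := D.A_ge
  have hal := D.line.a_le
  have he := D.line.he
  have hpi := Real.pi_lt_d2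
  have hpi0 := Real.pi_pos
  have h1 : 0 ≤ (Real.pi - (t + β)) / β := div_nonneg (by linarith) hβ.le
  refine (LegW_pi_le hr.le zero_le_one (by linarith) hz).trans ?_
  apply mul_le_mul_of_nonneg_left _ (Real.exp_pos _).le
  have e1 : y / β ≤ |y| / β := div_le_div_of_nonneg_right (le_abs_self y) hβ.le
  have e0 : 0 ≤ |y| / β := div_nonneg (abs_nonneg _) hβ.le
  have e2 : Real.pi * y / β ≤ 4 * ((a - t) / β / 50) := by
    have : Real.pi * y / β = Real.pi * (y / β) := by ring
    rw [this]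
    have : Real.pi * (y / β) ≤ Real.pi * (|y| / β) := mul_le_mul_of_nonneg_left e1 (by positivity)
    nlinarith
  have h3 : Real.exp (Real.pi * y / β - r * Real.exp (-y)) ≤ Real.exp (-(9 / 10 * ((a - t) / β))) :=
    Real.exp_le_exp.2 (by linarith)
  have h4 := inv2 hA (by linarith : (a - t) / β ≤ (Real.pi - (t + β)) / β + r * Real.exp (-y))
  have h5 : 0 < (Real.pi - (t + β)) / β + r * Real.exp (-y) := by linarith
  refine (mul_le_mul h3 h4 (by positivity) (Real.exp_pos _).le).trans (le_of_eq (mul_one _))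

/-- the leg at `π / 2` -/
theorem legP (D : NW b β r t y a) (hy : 0 ≤ y) (htβ : t + β ≤ -Real.pi) :
    scl β (a - t) * (Real.exp (-((a - t) * (1 + y) / β)) * ((2 + (Real.pi / 2 - a)) *
      (Real.exp ((Real.pi / 2 - t) * y / β) *
          (1 / ((Real.pi / 2 - t - β) / β) + 1 / ((Real.pi / 2 - t - β) / β) ^ 2)))) ≤ 1 / 10000 := by
  have hβ := D.B.hβ
  have hβ1 := D.B.beta_le
  have hA := D.A_ge
  have hpi := Real.pi_lt_d2
  have hpi0 := Real.pi_gt_three
  have hs := D.scl_le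
  have haa := abs_le.1 D.abs_a
  have ha0 : 0 ≤ a := by rw [D.ha]; exact Real.arctan_nonneg.2 (div_nonneg hy D.I.xpos.le)
  have he := D.line.he
  rw [abs_of_nonneg hy] at he
  have h1 : 1 ≤ (Real.pi / 2 - t - β) / β := by
    rw [le_div_iff₀ hβ]; linarith
  have h2 : 1 / ((Real.pi / 2 - t - β) / β) + 1 / ((Real.pi / 2 - t - β) / β) ^ 2 ≤ 2 := by
    have h3 : 1 / ((Real.pi / 2 - t - β) / β) ≤ 1 := by rw [div_le_one (by linarith)]; exact h1
    have h4 : 1 / ((Real.pi / 2 - t - β) / β) ^ 2 ≤ 1 := by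
      rw [div_le_one (by positivity)]; nlinarith
    linarith
  have h20 : 0 ≤ 1 / ((Real.pi / 2 - t - β) / β) + 1 / ((Real.pi / 2 - t - β) / β) ^ 2 := by positivity
  have e1 : Real.exp (-((a - t) * (1 + y) / β)) * Real.exp ((Real.pi / 2 - t) * y / β) ≤
      Real.exp (-(9 / 10 * ((a - t) / β))) := by
    rw [← Real.exp_add]
    apply Real.exp_le_exp.2
    have e2 : -((a - t) * (1 + y) / β) + (Real.pi / 2 - t) * y / β = -((a - t) / β) + (Real.pi / 2 - a) * (y / β) := by
      field_simp; ring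
    rw [e2]
    have h0 : 0 ≤ y / β := div_nonneg hy hβ.le
    nlinarith
  have h5 := tinyB hA (le_refl (9 / 10 * ((a - t) / β)))
  calc _ = scl β (a - t) * ((2 + (Real.pi / 2 - a)) *
        ((Real.exp (-((a - t) * (1 + y) / β)) * Real.exp ((Real.pi / 2 - t) * y / β)) *
          (1 / ((Real.pi / 2 - t - β) / β) + 1 / ((Real.pi / 2 - t - β) / β) ^ 2))) := by ring
    _ ≤ ((a - t) / β) ^ 2 * (4 * (Real.exp (-(9 / 10 * ((a - t) / β))) * 2)) := by
        apply mul_le_mul hs _ _ (by positivity)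
        · apply mul_le_mul (by linarith) _ (by positivity) (by norm_num)
          exact mul_le_mul e1 h2 h20 (Real.exp_pos _).le
        · have : 0 ≤ 2 + (Real.pi / 2 - a) := by linarith
          positivity
    _ = 8 * (((a - t) / β) ^ 2 * Real.exp (-(9 / 10 * ((a - t) / β)))) := by ring
    _ ≤ 8 * (1 / 100000) := by linarith
    _ ≤ _ := by norm_num

/-- **slope** -/
theorem slope (D : NW b β r t y a) (htβ : t + β ≤ -Real.pi) :
    ‖ew β r t * AA β r (t + β) / AA β r t - Lx t a y / β‖ ≤ 61 / 100 * (1 / (a - t)) := by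
  have hβ := D.B.hβ
  have hx := D.xpos
  have hx14 := D.x14
  have hpi := Real.pi_lt_d2
  have hpi0 := Real.pi_gt_three
  have haa := abs_le.1 D.abs_a
  have hv := (abs_le.1 D.val).1
  have hyl := D.hyl
  have hyx := D.y50
  have hm : nS (a - t) y ≤ 1001 / 1000 * (1 / (a - t)) * (Real.sqrt (nD (a - t) y) * ((a - t) * Real.sqrt (a - t))) := by
    refine D.nS_le.trans ?_
    have h1 : a - t ≤ nD (a - t) y := by
      unfold nD
      apply Real.le_sqrt_of_sq_le
      nlinarith [sq_nonneg (1 + y)]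
    have h2 : Real.sqrt (a - t) ≤ Real.sqrt (nD (a - t) y) := Real.sqrt_le_sqrt h1
    have h3 : a - t = Real.sqrt (a - t) * Real.sqrt (a - t) := (Real.mul_self_sqrt hx.le).symm
    have h4 := Real.sqrt_nonneg (a - t)
    have e : 1001 / 1000 * (1 / (a - t)) * (Real.sqrt (nD (a - t) y) * ((a - t) * Real.sqrt (a - t))) =
        1001 / 1000 * (Real.sqrt (nD (a - t) y) * Real.sqrt (a - t)) := by field_simp
    rw [e]
    have := mul_le_mul_of_nonneg_right h2 h4
    linarith
  have hval : 1 - 2 / 100 ≤ ‖AA β r t‖ * Real.sqrt (nD (a - t) y) * Real.exp (-((a - t) * (1 + y) / β)) := by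
    linarith
  have fin : ∀ z : ℂ, ‖z‖ ≤ 1001 / 1000 * (1 / (a - t)) * (59 / 100) / (1 - 2 / 100) → ‖z‖ ≤ 61 / 100 * (1 / (a - t)) := by
    intro z hz
    refine hz.trans ?_
    have : 0 < 1 / (a - t) := by positivity
    rw [div_le_iff₀ (by norm_num)]
    linarith
  have hs0 := (scl_pos hβ hx).le
  rcases le_total 0 y with hy | hy
  · have ha0 : 0 ≤ a := by rw [D.ha]; exact Real.arctan_nonneg.2 (div_nonneg hy D.I.xpos.le)
    rw [abs_of_nonneg hy] at hyx
    have h := slopeR D.h hy ha0 (by linarith) (by linarith) (by linarith) (D.leg1 htβ)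
    refine fin _ (slope_quot hβ hx (by linarith) h ?_ (by norm_num) (by norm_num) hval hm)
    have p1 := D.hB_le (c := 11 / 12 * (a - t)) (g := 11 / 24 * (a - t)) (ν := 7 / 10 * (a - t)) (by linarith)
      (by linarith) (by linarith)
    have p2 := D.hB_le (c := 11 / 12 * (a - t) - y / 3) (g := 11 / 24 * (a - t) - y / 6) (ν := 5 / 6 * (a - t) - y / 2)
      (by linarith) (by linarith) (by linarith)
    have p3 := D.legP hy htβ
    have p4 := D.legS (w := a + Real.pi) rfl (by linarith) (by linarith)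
    linarith
  · have ha0 : a ≤ 0 := by
      rw [D.ha]
      have := Real.arctan_mono (div_nonpos_of_nonpos_of_nonneg hy D.I.xpos.le)
      rwa [Real.arctan_zero] at this
    rw [abs_of_nonpos hy] at hyx
    have h := slopeL D.h hy ha0 (by linarith) (by linarith) (D.leg0 htβ) (D.leg1 htβ)
    refine fin _ (slope_quot hβ hx (by linarith) h ?_ (by norm_num) (by norm_num) hval hm)
    have p1 := D.hB_le (c := 11 / 12 * (a - t)) (g := 11 / 24 * (a - t)) (ν := 7 / 10 * (a - t)) (by linarith)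
      (by linarith) (by linarith)
    have p2 := D.hB_le (c := 11 / 12 * (a - t) + y / 3) (g := 11 / 24 * (a - t) + y / 6) (ν := 7 / 10 * (a - t) + 7 / 5 * y)
      (by linarith) (by linarith) (by linarith)
    have p3 := D.legS (w := Real.pi - a) rfl (by linarith) (by linarith)
    have p4 := D.legS (w := a + Real.pi) rfl (by linarith) (by linarith)
    linarith

end NW

end Sok.R2.K20
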