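import Pool.Agent.Lib.MP_816dec_an.R2Conv
import Pool.Agent.Lib.MP_816dec_an.R2Line
import Pool.Agent.Lib.MP_816dec_an.N1K

/-!
MP_816dec_an (rows N1, R2): the two main windows in the form of the class theorem.
-/

set_option autoImplicit false

open Complex Set Filter Topology

namespace Sok.R2

open Sok.Mid Sok.N1

/-- `D²` -/
noncomputable def DD (κ t : ℝ) : ℝ := κ ^ 2 * Real.exp (-2 * sy κ t) + 1 + 2 * sy κ t

theorem DD_eq {κ t : ℝ} (h : DomR κ t) : DD κ t = sx κ t ^ 2 + (1 + sy κ t) ^ 2 := by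
  unfold DD; have := s_sq h; linarith

theorem sadN_of {β r t : ℝ} (hβ : 0 < β) (hr : 0 < r) (h : DomR (β * r) t) :
    Sad β r t (t + sx (β * r) t) (sy (β * r) t) := by
  obtain ⟨h1, h2⟩ := s_data h
  exact ⟨hβ, hr, by rw [← h1]; ring, h2.symm⟩

/-- the normalised exponential -/
theorem near_exp {b : ℕ} {β r z : ℝ} (hb : 1 ≤ b) :
    Real.exp (-(TT b β r * en b (β * r) z)) * GN β r =
      Real.exp (r * sE (β * r) (-(β * r) + z * hh b)) / Real.sqrt (Real.sqrt (1 + (β * r) ^ 2)) := by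
  have hb' : (0 : ℝ) < b := by exact_mod_cast hb
  have hh0 : hh b ≠ 0 := by
    unfold hh
    have := Real.pi_pos
    positivity
  have h1 : 1 + (β * r) ^ 2 ≠ 0 := by positivity
  have e : TT b β r * en b (β * r) z = r - r * sE (β * r) (-(β * r) + z * hh b) := by
    unfold TT en ev
    have e1 : z * hh b - β * r = -(β * r) + z * hh b := by ring
    rw [e1]
    field_simp
  unfold GN
  rw [e, ← mul_div_assoc, ← Real.exp_add]
  congr 2
  ring

private theorem q4 {x : ℝ} (hx : 0 ≤ x) : Real.sqrt (Real.sqrt x) ^ 4 = x := by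
  have e : Real.sqrt (Real.sqrt x) ^ 4 = (Real.sqrt (Real.sqrt x) ^ 2) ^ 2 := by ring
  rw [e, Real.sq_sqrt (Real.sqrt_nonneg x), Real.sq_sqrt hx]

/-- upper bound from the value at the saddle -/
theorem near_hi {β r t ε c : ℝ} (hβ : 0 < β) (hr : 0 < r) (h : DomR (β * r) t) (hc : 0 ≤ c)
    (hv : |‖AA β r t‖ * Real.sqrt (nD (t + sx (β * r) t - t) (sy (β * r) t)) *
      Real.exp (-((t + sx (β * r) t - t) * (1 + sy (β * r) t) / β)) - 1| ≤ ε)
    (hn : (1 + ε) ^ 4 * (1 + (β * r) ^ 2) ≤ c ^ 4 * DD (β * r) t) :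
    ‖AA β r t‖ ≤ c * (Real.exp (r * sE (β * r) t) / Real.sqrt (Real.sqrt (1 + (β * r) ^ 2))) := by
  have hx := sx_pos h
  have e0 : t + sx (β * r) t - t = sx (β * r) t := by ring
  rw [e0] at hv
  have eE : sx (β * r) t * (1 + sy (β * r) t) / β = r * sE (β * r) t := by
    unfold sE; field_simp
  rw [eE] at hv
  rw [DD_eq h] at hn
  have hDp : 0 < nD (sx (β * r) t) (sy (β * r) t) := by
    unfold nD; apply Real.sqrt_pos.2; positivity
  have hq : 0 < Real.sqrt (Real.sqrt (1 + (β * r) ^ 2)) := by positivity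
  have hd4 : Real.sqrt (nD (sx (β * r) t) (sy (β * r) t)) ^ 4 = sx (β * r) t ^ 2 + (1 + sy (β * r) t) ^ 2 := by
    unfold nD; exact q4 (by positivity)
  have hq4 := q4 (x := 1 + (β * r) ^ 2) (by positivity)
  have hd : 0 < Real.sqrt (nD (sx (β * r) t) (sy (β * r) t)) := Real.sqrt_pos.2 hDp
  generalize Real.sqrt (nD (sx (β * r) t) (sy (β * r) t)) = d at hv hd4 hd
  generalize Real.sqrt (Real.sqrt (1 + (β * r) ^ 2)) = q at hq hq4 ⊢
  have h1 : (1 + ε) * q ≤ c * d := by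
    apply le_of_pow_le_pow_left₀ (by norm_num : (4:ℕ) ≠ 0) (by positivity)
    rw [mul_pow, mul_pow, hd4, hq4]
    exact hn
  have h2 := (abs_le.1 hv).2
  have hE := Real.exp_pos (r * sE (β * r) t)
  have hEE : Real.exp (-(r * sE (β * r) t)) * Real.exp (r * sE (β * r) t) = 1 := by
    rw [← Real.exp_add, neg_add_cancel, Real.exp_zero]
  generalize Real.exp (r * sE (β * r) t) = E at hE hEE ⊢
  have h3 : ‖AA β r t‖ * d ≤ (1 + ε) * E := by
    have h4 : ‖AA β r t‖ * d * Real.exp (-(r * sE (β * r) t)) * E ≤ (1 + ε) * E :=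
      mul_le_mul_of_nonneg_right (by linarith) hE.le
    rwa [mul_assoc, hEE, mul_one] at h4
  rw [← mul_div_assoc, le_div_iff₀ hq]
  have h5 : (‖AA β r t‖ * q) * d ≤ (c * E) * d := by
    calc (‖AA β r t‖ * q) * d = (‖AA β r t‖ * d) * q := by ring
      _ ≤ ((1 + ε) * E) * q := mul_le_mul_of_nonneg_right h3 hq.le
      _ = ((1 + ε) * q) * E := by ring
      _ ≤ (c * d) * E := mul_le_mul_of_nonneg_right h1 hE.le
      _ = (c * E) * d := by ring
  exact le_of_mul_le_mul_right h5 hd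

/-- lower bound from the value at the saddle -/
theorem near_lo {β r t ε c : ℝ} (hβ : 0 < β) (hr : 0 < r) (h : DomR (β * r) t) (hε : 0 ≤ 1 - ε)
    (hv : |‖AA β r t‖ * Real.sqrt (nD (t + sx (β * r) t - t) (sy (β * r) t)) *
      Real.exp (-((t + sx (β * r) t - t) * (1 + sy (β * r) t) / β)) - 1| ≤ ε)
    (hn : c ^ 4 * DD (β * r) t ≤ (1 - ε) ^ 4 * (1 + (β * r) ^ 2)) :
    c * (Real.exp (r * sE (β * r) t) / Real.sqrt (Real.sqrt (1 + (β * r) ^ 2))) ≤ ‖AA β r t‖ := by
  have hx := sx_pos h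
  have e0 : t + sx (β * r) t - t = sx (β * r) t := by ring
  rw [e0] at hv
  have eE : sx (β * r) t * (1 + sy (β * r) t) / β = r * sE (β * r) t := by
    unfold sE; field_simp
  rw [eE] at hv
  rw [DD_eq h] at hn
  have hDp : 0 < nD (sx (β * r) t) (sy (β * r) t) := by
    unfold nD; apply Real.sqrt_pos.2; positivity
  have hq : 0 < Real.sqrt (Real.sqrt (1 + (β * r) ^ 2)) := by positivity
  have hd4 : Real.sqrt (nD (sx (β * r) t) (sy (β * r) t)) ^ 4 = sx (β * r) t ^ 2 + (1 + sy (β * r) t) ^ 2 := by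
    unfold nD; exact q4 (by positivity)
  have hq4 := q4 (x := 1 + (β * r) ^ 2) (by positivity)
  have hd : 0 < Real.sqrt (nD (sx (β * r) t) (sy (β * r) t)) := Real.sqrt_pos.2 hDp
  generalize Real.sqrt (nD (sx (β * r) t) (sy (β * r) t)) = d at hv hd4 hd
  generalize Real.sqrt (Real.sqrt (1 + (β * r) ^ 2)) = q at hq hq4 ⊢
  have h1 : c * d ≤ (1 - ε) * q := by
    apply le_of_pow_le_pow_left₀ (by norm_num : (4:ℕ) ≠ 0) (by positivity)
    rw [mul_pow, mul_pow, hd4, hq4]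
    exact hn
  have h2 := (abs_le.1 hv).1
  have hE := Real.exp_pos (r * sE (β * r) t)
  have hEE : Real.exp (-(r * sE (β * r) t)) * Real.exp (r * sE (β * r) t) = 1 := by
    rw [← Real.exp_add, neg_add_cancel, Real.exp_zero]
  generalize Real.exp (r * sE (β * r) t) = E at hE hEE ⊢
  have h3 : (1 - ε) * E ≤ ‖AA β r t‖ * d := by
    have h4 : (1 - ε) * E ≤ ‖AA β r t‖ * d * Real.exp (-(r * sE (β * r) t)) * E :=
      mul_le_mul_of_nonneg_right (by linarith) hE.le
    rwa [mul_assoc (‖AA β r t‖ * d), hEE, mul_one] at h4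
  rw [← mul_div_assoc, div_le_iff₀ hq]
  have h5 : (c * E) * d ≤ (‖AA β r t‖ * q) * d := by
    calc (c * E) * d = (c * d) * E := by ring
      _ ≤ ((1 - ε) * q) * E := mul_le_mul_of_nonneg_right h1 hE.le
      _ = ((1 - ε) * E) * q := by ring
      _ ≤ (‖AA β r t‖ * d) * q := mul_le_mul_of_nonneg_right h3 hq.le
      _ = (‖AA β r t‖ * q) * d := by ring
  exact le_of_mul_le_mul_right h5 hd

end Sok.R2
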