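import Pool.Agent.Lib.MP_816dec_an.R2N1

/-!
MP_816dec_an (rows N1, R2): the left main window (window `0`) in the form of the class theorem.
-/

set_option autoImplicit false

open Complex Set Filter Topology

namespace Sok.R2

open Sok.Mid Sok.N1

theorem dom_left {κ t : ℝ} (hk : 1 ≤ κ) (ht : t ≤ -κ) : DomR κ t :=
  DomR_of hk (by linarith [Real.pi_pos])

/-- a lower bound of `y` on the left -/
theorem sy_ge {κ t S X σ ka δ : ℝ} (hka : 1 ≤ ka) (hk : ka ≤ κ) (ht : -κ - δ ≤ t) (htt : t ≤ -κ) (hS : 0 ≤ S)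
    (hX : X ^ 2 ≤ Real.exp (2 * S) - S ^ 2 / ka ^ 2) (hX1 : 1 ≤ X) (hσ : σ * Real.exp S ≤ S)
    (hm : σ ≤ (X - 1) * ka ^ 2) (hd : δ ≤ ka * (X - 1) + σ / ka) : -S ≤ sy κ t := by
  by_contra hcon
  push Not at hcon
  have hk1 : 1 ≤ κ := hka.trans hk
  have hk0 : 0 < κ := by linarith
  have hka0 : 0 < ka := by linarith
  obtain ⟨hI, hT⟩ := sy_spec (dom_left hk1 htt)
  have hIS : Iy κ (-S) := Iy_neg hk1 (by linarith)
  have h1 := Tk_strictMono hI hIS hcon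
  rw [hT] at h1
  have hx0 := hIS.xpos
  have hxs : Xk κ (-S) ^ 2 = κ ^ 2 * Real.exp (2 * S) - S ^ 2 := by
    rw [hIS.xsq]; unfold gk
    have e : -2 * -S = 2 * S := by ring
    rw [e]; ring
  unfold Tk at h1
  generalize Xk κ (-S) = x at h1 hx0 hxs
  have e1 : Real.arctan (-S / x) = -Real.arctan (S / x) := by rw [neg_div, Real.arctan_neg]
  rw [e1] at h1
  have hxX : κ * X ≤ x := by
    apply le_of_sq_le_sq _ hx0.le
    rw [hxs]
    have q1 : κ ^ 2 * X ^ 2 ≤ κ ^ 2 * (Real.exp (2 * S) - S ^ 2 / ka ^ 2) :=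
      mul_le_mul_of_nonneg_left hX (by positivity)
    have q2 : S ^ 2 ≤ κ ^ 2 * (S ^ 2 / ka ^ 2) := by
      have q3 : ka ^ 2 ≤ κ ^ 2 := pow_le_pow_left₀ hka0.le hk 2
      rw [← mul_div_assoc, le_div_iff₀ (by positivity)]
      nlinarith [sq_nonneg S]
    have e2 : (κ * X) ^ 2 = κ ^ 2 * X ^ 2 := by ring
    rw [e2]
    linarith
  have hA : σ / κ ≤ Real.arctan (S / x) := by
    have hθ : 0 ≤ Real.arctan (S / x) := Real.arctan_nonneg.2 (by positivity)
    refine le_trans ?_ (Real.sin_le hθ)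
    rw [Real.sin_arctan]
    have e3 : Real.sqrt (1 + (S / x) ^ 2) = κ * Real.exp S / x := by
      have e4 : 1 + (S / x) ^ 2 = (κ * Real.exp S / x) ^ 2 := by
        have e5 : Real.exp (2 * S) = Real.exp S ^ 2 := by rw [← Real.exp_nat_mul]; congr 1
        have e6 : (κ * Real.exp S) ^ 2 = x ^ 2 + S ^ 2 := by rw [hxs, e5]; ring
        rw [div_pow, div_pow, e6]
        field_simp
      rw [e4, Real.sqrt_sq (by positivity)]
    rw [e3, div_div_div_cancel_right₀ hx0.ne', div_le_div_iff₀ hk0 (by positivity)]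
    nlinarith [Real.exp_pos S]
  have hf : ka * (X - 1) + σ / ka ≤ κ * (X - 1) + σ / κ := by
    have e7 : κ * (X - 1) + σ / κ - (ka * (X - 1) + σ / ka) = (κ - ka) * ((X - 1) - σ / (ka * κ)) := by
      field_simp
      ring
    have q4 : σ / (ka * κ) ≤ X - 1 := by
      rw [div_le_iff₀ (by positivity)]
      have : (X - 1) * ka ^ 2 ≤ (X - 1) * (ka * κ) := by
        apply mul_le_mul_of_nonneg_left _ (by linarith)
        nlinarith
      linarith
    have q5 : 0 ≤ (κ - ka) * ((X - 1) - σ / (ka * κ)) := mul_nonneg (by linarith) (by linarith)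
    linarith
  linarith

/-- `-1 < y` -/
theorem syN_gt_neg_one {κ t : ℝ} (hk : 1.39 ≤ κ) (ht : -κ - 1.59 * κ ≤ t) (htt : t ≤ -κ) : -1 < sy κ t := by
  have h2 : (7.24 : ℝ) ≤ Real.exp (2 * 0.99) := by
    have h := Real.sum_le_exp_of_nonneg (x := 2 * 0.99) (by norm_num) 12
    refine le_trans ?_ h
    norm_num [Finset.sum_range_succ, Nat.factorial]
  have h := sy_ge (κ := κ) (t := t) (S := 0.99) (X := 2.594) (σ := 0) (ka := κ) (δ := 1.59 * κ) (by linarith) le_rfl ht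
    htt (by norm_num) (by
      have q : (0.99 : ℝ) ^ 2 / κ ^ 2 ≤ 0.51 := by
        rw [div_le_iff₀ (by positivity)]
        nlinarith
      refine le_trans ?_ (sub_le_sub h2 q)
      norm_num)
    (by norm_num) (by norm_num) (by nlinarith [sq_nonneg κ]) (by rw [zero_div]; linarith)
  linarith

/-- facts about the left saddle -/
theorem left_facts {β r t : ℝ} (hβ : 0 < β) (hr : 10 ≤ r) (hk : 1.39 ≤ β * r) (ht : t ≤ -(β * r))
    (ht2 : -(β * r) - 1.59 * (β * r) ≤ t) :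
    DomR (β * r) t ∧ -1 < sy (β * r) t ∧ sy (β * r) t ≤ 0 ∧ β * r ≤ sx (β * r) t ∧
      -0.2746 ≤ t + sx (β * r) t ∧ t + sx (β * r) t ≤ 0 ∧
      |‖AA β r t‖ * Real.sqrt (nD (t + sx (β * r) t - t) (sy (β * r) t)) *
        Real.exp (-((t + sx (β * r) t - t) * (1 + sy (β * r) t) / β)) - 1| ≤ 0.671 * (β / sx (β * r) t) := by
  have hr0 : 0 < r := by linarith
  have hd := dom_left (κ := β * r) (by linarith) ht
  have hS := sadN_of hβ hr0 hd
  have hy := syN_gt_neg_one hk ht2 ht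
  have hy0 := sy_nonpos (κ := β * r) (by linarith) ht
  obtain ⟨a1, a2⟩ := s_angle hd
  have ha0 : t + sx (β * r) t ≤ 0 := by
    by_contra hn
    push Not at hn
    have h1 := (s_data hd).2
    have h2 : 0 < Real.sin (t + sx (β * r) t) := Real.sin_pos_of_pos_of_lt_pi hn (by linarith [Real.pi_pos])
    have h3 : 0 < β * r * Real.exp (-sy (β * r) t) * Real.sin (t + sx (β * r) t) :=
      mul_pos (mul_pos (mul_pos hβ hr0) (Real.exp_pos _)) h2
    linarith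
  have hv := val0x hS hk hr hy hy0 a1 ha0
  obtain ⟨g1, g2, g3, g4, g5⟩ := geo_neg hS hk hy hy0 a1 ha0
  have e0 : t + sx (β * r) t - t = sx (β * r) t := by ring
  rw [e0] at g1 g2
  refine ⟨hd, hy, hy0, g1, g3, ha0, ?_⟩
  rw [e0] at hv ⊢
  exact hv

/-- `D² ≥ 1 + κ²` on the left -/
theorem DD_ge_left {κ t : ℝ} (hk : 1 ≤ κ) (hy : sy κ t ≤ 0) : 1 + κ ^ 2 ≤ DD κ t := by
  unfold DD
  have h1 := Real.add_one_le_exp (-2 * sy κ t)
  have h2 : κ ^ 2 * (-2 * sy κ t + 1) ≤ κ ^ 2 * Real.exp (-2 * sy κ t) := mul_le_mul_of_nonneg_left h1 (by positivity)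
  nlinarith [mul_nonneg (by linarith : (0:ℝ) ≤ -sy κ t) (by nlinarith : (0:ℝ) ≤ κ ^ 2 - 1)]

/-- `D²` is monotone on the left -/
theorem DD_le_left {κ s S : ℝ} (hk : 1 ≤ κ) (h0 : 0 ≤ s) (h : s ≤ S) :
    κ ^ 2 * Real.exp (2 * s) + 1 - 2 * s ≤ κ ^ 2 * Real.exp (2 * S) + 1 - 2 * S := by
  have h1 : Real.exp (2 * S) = Real.exp (2 * s) * Real.exp (2 * (S - s)) := by rw [← Real.exp_add]; congr 1; ring
  have h2 := Real.add_one_le_exp (2 * (S - s))
  have h3 : 1 ≤ Real.exp (2 * s) := Real.one_le_exp (by linarith)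
  have h4 : Real.exp (2 * s) * (2 * (S - s) + 1) ≤ Real.exp (2 * S) := by
    rw [h1]; exact mul_le_mul_of_nonneg_left h2 (by linarith)
  have h5 : 2 * (S - s) ≤ Real.exp (2 * s) * (2 * (S - s)) := by nlinarith
  have h6 : 2 * (S - s) ≤ Real.exp (2 * S) - Real.exp (2 * s) := by linarith
  have h7 : 1 ≤ κ ^ 2 := by nlinarith
  nlinarith

/-- window `0` from above -/
theorem left_hi {β r t δq : ℝ} (hβ : 0 < β) (hr : 10 ≤ r) (hk : 1.39 ≤ β * r) (ht : t ≤ -(β * r) - δq)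
    (ht2 : -(β * r) - 1.59 * (β * r) ≤ t) (hq : 0 ≤ δq)
    (hn : 13.42 ≤ r ∨ (0.2746 ≤ δq ∧ 1.067 * (1 + (β * r) ^ 2) ≤ (β * r + (δq - 0.2746)) ^ 2)) :
    ‖AA β r t‖ ≤ 21 / 20 * (Real.exp (r * sE (β * r) t) / Real.sqrt (Real.sqrt (1 + (β * r) ^ 2))) := by
  obtain ⟨hd, hy, hy0, hx, ha, ha0, hv⟩ := left_facts hβ hr hk (by linarith) ht2
  have hr0 : 0 < r := by linarith
  have hx0 := sx_pos hd
  rcases hn with hn | ⟨hn0, hn⟩
  · refine near_hi (ε := 1 / 20) hβ hr0 hd (by norm_num) (hv.trans ?_) ?_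
    · have h1 : β / sx (β * r) t ≤ 1 / 13.42 := by
        rw [div_le_div_iff₀ hx0 (by norm_num)]
        nlinarith
      linarith
    · have := DD_ge_left (κ := β * r) (t := t) (by linarith) hy0
      norm_num
      linarith
  · refine near_hi (ε := 0.0671) hβ hr0 hd (by norm_num) (hv.trans ?_) ?_
    · have h1 : β / sx (β * r) t ≤ 1 / 10 := by
        rw [div_le_div_iff₀ hx0 (by norm_num)]
        nlinarith
      linarith
    · have h2 : (β * r + (δq - 0.2746)) ^ 2 ≤ DD (β * r) t := by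
        rw [DD_eq hd]
        have h3 : β * r + (δq - 0.2746) ≤ sx (β * r) t := by linarith
        have h4 := pow_le_pow_left₀ (by linarith) h3 2
        nlinarith [sq_nonneg (1 + sy (β * r) t)]
      have h5 := hn.trans h2
      norm_num at h5 ⊢
      nlinarith

/-- window `0` from below, general `κ ∈ [ka, kb]` -/
theorem left_lo {β r t ka kb r0 δ S X σ s' X' ES Es' e0 e1 c0 : ℝ} (hβ : 0 < β) (hr : 10 ≤ r) (hr0 : r0 ≤ r)
    (hka : 1.39 ≤ ka) (h1 : ka ≤ β * r) (h2 : β * r ≤ kb) (ht : t ≤ -(β * r)) (ht' : -(β * r) - δ ≤ t)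
    (hδ : δ ≤ 1.59 * ka) (hS0 : 0 ≤ S) (hX : X ^ 2 ≤ Real.exp (2 * S) - S ^ 2 / ka ^ 2) (hX1 : 1 ≤ X)
    (hσ : σ * Real.exp S ≤ S) (hm : σ ≤ (X - 1) * ka ^ 2) (hd : δ ≤ ka * (X - 1) + σ / ka)
    (hr00 : 0 < r0) (hs0 : 0 ≤ s') (hs1 : s' ≤ 1) (hX' : X' ^ 2 ≤ Real.exp (2 * s') - s' ^ 2 / ka ^ 2) (hX'0 : 0 < X')
    (hES : Real.exp (2 * S) ≤ ES) (hEs : Real.exp (2 * s') ≤ Es') (he0 : 0.671 ≤ e0 * r0) (he1 : 0.671 ≤ e1 * (r0 * X'))
    (he01 : e0 ≤ 1) (he11 : e1 ≤ 1)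
    (A : c0 ^ 4 * (kb ^ 2 * ES + 1 - 2 * S) ≤ (1 - e1) ^ 4 * (1 + kb ^ 2)) (A0 : c0 ^ 4 * (1 - 2 * S) ≤ (1 - e1) ^ 4)
    (B : c0 ^ 4 * (kb ^ 2 * Es' + 1 - 2 * s') ≤ (1 - e0) ^ 4 * (1 + kb ^ 2)) (B0 : c0 ^ 4 * (1 - 2 * s') ≤ (1 - e0) ^ 4) :
    c0 * (Real.exp (r * sE (β * r) t) / Real.sqrt (Real.sqrt (1 + (β * r) ^ 2))) ≤ ‖AA β r t‖ := by
  obtain ⟨hdm, hy, hy0, hx, ha, ha0, hv⟩ := left_facts hβ hr (by linarith) ht (by linarith)
  have hrp : 0 < r := by linarith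
  have hx0 := sx_pos hdm
  have hsS := sy_ge (κ := β * r) (by linarith) h1 ht' ht hS0 hX hX1 hσ hm hd
  have lin : ∀ {P Q κ2 kb2 : ℝ}, 0 ≤ κ2 → κ2 ≤ kb2 → 0 ≤ Q → 0 ≤ P * kb2 + Q → 0 ≤ P * κ2 + Q := by
    intro P Q κ2 kb2 i1 i2 i3 i4
    rcases le_total 0 P with i5 | i5
    · positivity
    · nlinarith
  have hk2 : (β * r) ^ 2 ≤ kb ^ 2 := pow_le_pow_left₀ (by linarith) h2 2
  have hka0 : 0 < ka := by linarith
  obtain ⟨s, hs⟩ : ∃ s : ℝ, s = -sy (β * r) t := ⟨_, rfl⟩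
  have hDD : DD (β * r) t = (β * r) ^ 2 * Real.exp (2 * s) + 1 - 2 * s := by
    unfold DD; rw [hs]
    have e : -2 * sy (β * r) t = 2 * -sy (β * r) t := by ring
    rw [e]; ring
  have hs00 : 0 ≤ s := by rw [hs]; linarith
  have hsS' : s ≤ S := by rw [hs]; linarith
  rcases le_total s' s with hc1 | hc1
  · have hxX : β * r * X' ≤ sx (β * r) t := by
      apply le_of_sq_le_sq _ hx0.le
      have q1 := s_sq hdm
      have q2 : sx (β * r) t ^ 2 = (β * r) ^ 2 * Real.exp (2 * s) - s ^ 2 := by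
        have e : -2 * sy (β * r) t = 2 * s := by rw [hs]; ring
        rw [e] at q1
        have e2 : sy (β * r) t ^ 2 = s ^ 2 := by rw [hs]; ring
        linarith
      rw [q2]
      have q3 : Real.exp (2 * s') + 2 * (s - s') ≤ Real.exp (2 * s) := by
        have i1 : Real.exp (2 * s) = Real.exp (2 * s') * Real.exp (2 * (s - s')) := by rw [← Real.exp_add]; congr 1; ring
        have i2 := Real.add_one_le_exp (2 * (s - s'))
        have i3 : 1 ≤ Real.exp (2 * s') := Real.one_le_exp (by linarith)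
        rw [i1]
        nlinarith
      have hκ1 : 1 ≤ (β * r) ^ 2 := by nlinarith
      have q4 : (β * r) ^ 2 * X' ^ 2 ≤ (β * r) ^ 2 * (Real.exp (2 * s') - s' ^ 2 / ka ^ 2) :=
        mul_le_mul_of_nonneg_left hX' (by positivity)
      have q5 : s' ^ 2 ≤ (β * r) ^ 2 * (s' ^ 2 / ka ^ 2) := by
        have i3 : ka ^ 2 ≤ (β * r) ^ 2 := pow_le_pow_left₀ hka0.le h1 2
        rw [← mul_div_assoc, le_div_iff₀ (by positivity)]
        nlinarith [sq_nonneg s']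
      have q6 : (β * r) ^ 2 * (Real.exp (2 * s') + 2 * (s - s')) ≤ (β * r) ^ 2 * Real.exp (2 * s) :=
        mul_le_mul_of_nonneg_left q3 (by positivity)
      have q7 : (s - s') * (s + s') ≤ (β * r) ^ 2 * (2 * (s - s')) := by
        have i4 : s + s' ≤ 2 := by
          have : s ≤ 1 := by rw [hs]; linarith
          linarith
        have i5 : (s - s') * (s + s') ≤ (s - s') * 2 := mul_le_mul_of_nonneg_left i4 (by linarith)
        nlinarith
      have e : (β * r * X') ^ 2 = (β * r) ^ 2 * X' ^ 2 := by ring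
      rw [e]
      nlinarith
    refine near_lo (ε := e1) hβ hrp hdm (by linarith) (hv.trans ?_) ?_
    · have i1 : β / sx (β * r) t ≤ 1 / (r0 * X') := by
        rw [div_le_div_iff₀ hx0 (by positivity)]
        have i2 : β * (r0 * X') ≤ β * (r * X') :=
          mul_le_mul_of_nonneg_left (mul_le_mul_of_nonneg_right hr0 hX'0.le) hβ.le
        linarith
      have i3 : (0.671 : ℝ) * (1 / (r0 * X')) ≤ e1 := by
        rw [mul_one_div, div_le_iff₀ (by positivity)]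
        exact he1
      have i4 := mul_le_mul_of_nonneg_left i1 (by norm_num : (0:ℝ) ≤ 0.671)
      linarith
    · rw [hDD]
      have i1 := DD_le_left (κ := β * r) (by linarith) hs00 hsS'
      have i2 : (β * r) ^ 2 * Real.exp (2 * S) ≤ (β * r) ^ 2 * ES := mul_le_mul_of_nonneg_left hES (by positivity)
      have i3 : c0 ^ 4 * ((β * r) ^ 2 * Real.exp (2 * s) + 1 - 2 * s) ≤ c0 ^ 4 * ((β * r) ^ 2 * ES + 1 - 2 * S) :=
        mul_le_mul_of_nonneg_left (by linarith) (by positivity)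
      have i4 := lin (P := (1 - e1) ^ 4 - c0 ^ 4 * ES) (Q := (1 - e1) ^ 4 - c0 ^ 4 * (1 - 2 * S)) (sq_nonneg (β * r)) hk2
        (by linarith) (by linarith)
      linarith
  · refine near_lo (ε := e0) hβ hrp hdm (by linarith) (hv.trans ?_) ?_
    · have i1 : β / sx (β * r) t ≤ 1 / r0 := by
        rw [div_le_div_iff₀ hx0 hr00]
        have i2 : β * r0 ≤ β * r := mul_le_mul_of_nonneg_left hr0 hβ.le
        linarith
      have i3 : (0.671 : ℝ) * (1 / r0) ≤ e0 := by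
        rw [mul_one_div, div_le_iff₀ hr00]
        exact he0
      have i4 := mul_le_mul_of_nonneg_left i1 (by norm_num : (0:ℝ) ≤ 0.671)
      linarith
    · rw [hDD]
      have i1 := DD_le_left (κ := β * r) (by linarith) hs00 hc1
      have i2 : (β * r) ^ 2 * Real.exp (2 * s') ≤ (β * r) ^ 2 * Es' := mul_le_mul_of_nonneg_left hEs (by positivity)
      have i3 : c0 ^ 4 * ((β * r) ^ 2 * Real.exp (2 * s) + 1 - 2 * s) ≤ c0 ^ 4 * ((β * r) ^ 2 * Es' + 1 - 2 * s') :=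
        mul_le_mul_of_nonneg_left (by linarith) (by positivity)
      have i4 := lin (P := (1 - e0) ^ 4 - c0 ^ 4 * Es') (Q := (1 - e0) ^ 4 - c0 ^ 4 * (1 - 2 * s')) (sq_nonneg (β * r)) hk2
        (by linarith) (by linarith)
      linarith

/-- window `0` from below, `κ ≥ ka` -/
theorem left_lo_big {β r t ka r0 δ e0 c0 : ℝ} (hβ : 0 < β) (hr : 10 ≤ r) (hr0 : r0 ≤ r)
    (hka : 1.39 ≤ ka) (h1 : ka ≤ β * r) (ht : t ≤ -(β * r)) (ht' : -(β * r) - δ ≤ t) (hδ0 : 0 ≤ δ)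
    (hδ : δ ≤ 1.59 * ka) (hr00 : 0 < r0) (he0 : 0.671 ≤ e0 * r0) (he01 : e0 ≤ 1)
    (A : c0 ^ 4 * ((ka + δ) ^ 2 + 1) ≤ (1 - e0) ^ 4 * (1 + ka ^ 2)) (B : c0 ^ 4 * δ ≤ ((1 - e0) ^ 4 - c0 ^ 4) * ka) :
    c0 * (Real.exp (r * sE (β * r) t) / Real.sqrt (Real.sqrt (1 + (β * r) ^ 2))) ≤ ‖AA β r t‖ := by
  obtain ⟨hdm, hy, hy0, hx, ha, ha0, hv⟩ := left_facts hβ hr (by linarith) ht (by linarith)
  have hrp : 0 < r := by linarith
  have hx0 := sx_pos hdm
  refine near_lo (ε := e0) hβ hrp hdm (by linarith) (hv.trans ?_) ?_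
  · have i1 : β / sx (β * r) t ≤ 1 / r0 := by
      rw [div_le_div_iff₀ hx0 hr00]
      have i2 : β * r0 ≤ β * r := mul_le_mul_of_nonneg_left hr0 hβ.le
      linarith
    have i3 : (0.671 : ℝ) * (1 / r0) ≤ e0 := by
      rw [mul_one_div, div_le_iff₀ hr00]
      exact he0
    have i4 := mul_le_mul_of_nonneg_left i1 (by norm_num : (0:ℝ) ≤ 0.671)
    linarith
  · rw [DD_eq hdm]
    have q1 : sx (β * r) t ≤ β * r + δ := by linarith
    have q2 : sx (β * r) t ^ 2 ≤ (β * r + δ) ^ 2 := pow_le_pow_left₀ hx0.le q1 2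
    have q3 : (1 + sy (β * r) t) ^ 2 ≤ 1 := by
      have : (1 + sy (β * r) t) ^ 2 ≤ 1 ^ 2 := pow_le_pow_left₀ (by linarith) (by linarith) 2
      linarith
    have q4 : c0 ^ 4 * (sx (β * r) t ^ 2 + (1 + sy (β * r) t) ^ 2) ≤ c0 ^ 4 * ((β * r + δ) ^ 2 + 1) :=
      mul_le_mul_of_nonneg_left (by linarith) (by positivity)
    refine q4.trans ?_
    have hC0 : 0 ≤ c0 ^ 4 := by positivity
    generalize c0 ^ 4 = C at A B hC0 ⊢
    generalize (1 - e0) ^ 4 = G at A B ⊢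
    have hka0 : 0 < ka := by linarith
    have hGC : 0 ≤ G - C := by
      by_contra hn
      push Not at hn
      have h3 : (G - C) * ka < 0 := mul_neg_of_neg_of_pos hn hka0
      have h4 := mul_nonneg hC0 hδ0
      linarith
    have q5 : 0 ≤ (β * r - ka) * ((G - C) * (β * r + ka) - 2 * C * δ) := by
      apply mul_nonneg (by linarith)
      have q6 : 0 ≤ (G - C) * (β * r - ka) := mul_nonneg hGC (by linarith)
      linarith
    nlinarith

end Sok.R2
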