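import Pool.Agent.Lib.MP_816dec_an.R2N1

/-!
MP_816dec_an (rows N1, R2): the right main window (window `1`) in the form of the class theorem.
-/

set_option autoImplicit false

open Complex Set Filter Topology

namespace Sok.R2

open Sok.Mid Sok.N1

/-- facts about the right saddle -/
theorem right_facts {β r t : ℝ} (hβ : 0 < β) (hr : 0 < r) (hk : 1 ≤ β * r) (ht : -(β * r) ≤ t) (htt : t < Real.pi / 2) :
    DomR (β * r) t ∧ Sad β r t (t + sx (β * r) t) (sy (β * r) t) ∧ 0 ≤ sy (β * r) t ∧ 0 ≤ t + sx (β * r) t ∧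
      t + sx (β * r) t < Real.pi / 2 := by
  have hd := DomR_of hk htt
  have hy := sy_nonneg hk ht htt
  obtain ⟨a1, a2⟩ := s_angle hd
  refine ⟨hd, sadN_of hβ hr hd, hy, ?_, a2⟩
  by_contra hn
  push Not at hn
  have h1 := (s_data hd).2
  have h2 : Real.sin (t + sx (β * r) t) < 0 := Real.sin_neg_of_neg_of_neg_pi_lt hn (by linarith [Real.pi_pos])
  have h3 : β * r * Real.exp (-sy (β * r) t) * Real.sin (t + sx (β * r) t) < 0 :=
    mul_neg_of_pos_of_neg (mul_pos (mul_pos hβ hr) (Real.exp_pos _)) h2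
  linarith

theorem DD_ge_one {κ t : ℝ} (hk : 0 < κ) : 2 + 2 * Real.log κ ≤ DD κ t := by
  unfold DD
  have h1 := Real.add_one_le_exp (2 * Real.log κ + -2 * sy κ t)
  have h2 : Real.exp (2 * Real.log κ + -2 * sy κ t) = κ ^ 2 * Real.exp (-2 * sy κ t) := by
    rw [Real.exp_add]
    congr 1
    have : Real.exp (2 * Real.log κ) = Real.exp (Real.log κ) ^ 2 := by rw [← Real.exp_nat_mul]; congr 1
    rw [this, Real.exp_log hk]
  linarith

theorem DD_ge_m {κ t m : ℝ} (hk : 0 < κ) (hm : 1 ≤ m) (hw : m ≤ κ * Real.exp (-sy κ t)) :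
    1 + m ^ 2 + 2 * Real.log (κ / m) ≤ DD κ t := by
  have hm0 : 0 < m := by linarith
  obtain ⟨w, hwd⟩ : ∃ w : ℝ, w = κ * Real.exp (-sy κ t) := ⟨_, rfl⟩
  rw [← hwd] at hw
  have hw0 : 0 < w := by linarith
  have h1 : DD κ t = w ^ 2 + 1 + 2 * sy κ t := by
    unfold DD
    have : Real.exp (-2 * sy κ t) = Real.exp (-sy κ t) ^ 2 := by rw [← Real.exp_nat_mul]; congr 1; push_cast; ring
    rw [hwd, this]; ring
  have h2 : Real.log w = Real.log κ - sy κ t := by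
    rw [hwd, Real.log_mul hk.ne' (Real.exp_pos _).ne', Real.log_exp]; ring
  have h3 : Real.log (κ / m) = sy κ t + Real.log (w / m) := by
    rw [Real.log_div hk.ne' hm0.ne', Real.log_div hw0.ne' hm0.ne', h2]; ring
  have h4 : Real.log (w / m) ≤ w / m - 1 := Real.log_le_sub_one_of_pos (by positivity)
  have h5 : 2 * (w / m - 1) ≤ w ^ 2 - m ^ 2 := by
    have e : w / m - 1 = (w - m) / m := by field_simp
    rw [e]
    have h6 : (w - m) / m ≤ (w - m) := div_le_self (by linarith) hm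
    nlinarith
  rw [h1, h3]
  linarith

theorem DD_ge_x {β r t τ : ℝ} (hβ : 0 < β) (hr : 0 < r) (hk : 1 ≤ β * r) (ht : -(β * r) ≤ t) (htt : t < Real.pi / 2)
    (hτ : t + β * r ≤ τ) (hkτ : τ ≤ β * r) : 1 + (β * r - τ) ^ 2 ≤ DD (β * r) t := by
  obtain ⟨hd, hS, hy, ha, ha2⟩ := right_facts hβ hr hk ht htt
  rw [DD_eq hd]
  have h1 : β * r - τ ≤ sx (β * r) t := by linarith
  have h2 := pow_le_pow_left₀ (by linarith) h1 2
  have h3 : 1 ≤ (1 + sy (β * r) t) ^ 2 := by nlinarith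
  linarith

/-- numeric closing on `[ka, kb]` -/
theorem num_M {κ ka kb m L G C D : ℝ} (h1 : ka ≤ κ) (h2 : κ ≤ kb) (hka : 0 < ka) (hm : 0 < m) (hL : m * Real.exp L ≤ kb)
    (hC : 0 ≤ C) (hG : 0 ≤ G) (hGC : C ≤ G * ka ^ 2) (A : G * (1 + kb ^ 2) ≤ C * (D + 2 * L)) :
    G * (1 + κ ^ 2) ≤ C * (D + 2 * Real.log (κ / m)) := by
  have hk0 : 0 < κ := hka.trans_le h1
  have hkb0 : 0 < kb := hk0.trans_le h2
  have hL2 : L ≤ Real.log (kb / m) := by
    rw [Real.le_log_iff_exp_le (by positivity), le_div_iff₀ hm]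
    linarith
  have h3 : Real.log (kb / m) ≤ Real.log (κ / m) + (kb / κ - 1) := by
    have e : kb / m = (κ / m) * (kb / κ) := by field_simp
    rw [e, Real.log_mul (by positivity) (by positivity)]
    have := Real.log_le_sub_one_of_pos (x := kb / κ) (by positivity)
    linarith
  have h4 : kb / κ - 1 = (kb - κ) / κ := by field_simp
  have h5 : C * (2 * ((kb - κ) / κ)) ≤ G * ((kb - κ) * (kb + κ)) := by
    have h6 : C ≤ G * (κ * ((kb + κ) / 2)) := by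
      refine hGC.trans ?_
      apply mul_le_mul_of_nonneg_left _ hG
      nlinarith
    have h7 : 0 ≤ 2 * ((kb - κ) / κ) := by
      have : 0 ≤ kb - κ := by linarith
      positivity
    calc C * (2 * ((kb - κ) / κ)) ≤ G * (κ * ((kb + κ) / 2)) * (2 * ((kb - κ) / κ)) := mul_le_mul_of_nonneg_right h6 h7
      _ = G * ((kb - κ) * (kb + κ)) := by field_simp
  have h8 : C * (D + 2 * L) ≤ C * (D + 2 * Real.log (κ / m)) + C * (2 * ((kb - κ) / κ)) := by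
    rw [← mul_add]
    apply mul_le_mul_of_nonneg_left _ hC
    rw [h4] at h3
    linarith
  nlinarith

/-- window `1` from above, minimum of `D²` -/
theorem right_hi_M1 {β r t ε c ka kb L : ℝ} (hβ : 0 < β) (hr : 0 < r) (htt : t < Real.pi / 2)
    (hka : 1 ≤ ka) (h1 : ka ≤ β * r) (h2 : β * r ≤ kb) (hc : 0 ≤ c)
    (hv : |‖AA β r t‖ * Real.sqrt (nD (t + sx (β * r) t - t) (sy (β * r) t)) *
      Real.exp (-((t + sx (β * r) t - t) * (1 + sy (β * r) t) / β)) - 1| ≤ ε)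
    (hL : 1 * Real.exp L ≤ kb) (hGC : c ^ 4 ≤ (1 + ε) ^ 4 * ka ^ 2)
    (A : (1 + ε) ^ 4 * (1 + kb ^ 2) ≤ c ^ 4 * (2 + 2 * L)) :
    ‖AA β r t‖ ≤ c * (Real.exp (r * sE (β * r) t) / Real.sqrt (Real.sqrt (1 + (β * r) ^ 2))) := by
  have hd := DomR_of (κ := β * r) (by linarith) htt
  refine near_hi hβ hr hd hc hv ?_
  have h3 := num_M (m := 1) h1 h2 (by linarith) (by norm_num) hL (by positivity) (by positivity) hGC A
  rw [div_one] at h3
  exact h3.trans (mul_le_mul_of_nonneg_left (DD_ge_one (by linarith)) (by positivity))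

/-- window `1` from above, with a lower bound of `|σ|` -/
theorem right_hi_M2 {β r t ε c ka kb m L : ℝ} (hβ : 0 < β) (hr : 0 < r) (ht : -(β * r) ≤ t) (htt : t < Real.pi / 2)
    (hka : 1 ≤ ka) (h1 : ka ≤ β * r) (h2 : β * r ≤ kb) (hc : 0 ≤ c)
    (hv : |‖AA β r t‖ * Real.sqrt (nD (t + sx (β * r) t - t) (sy (β * r) t)) *
      Real.exp (-((t + sx (β * r) t - t) * (1 + sy (β * r) t) / β)) - 1| ≤ ε) (hm : 1 ≤ m)
    (hmw : m ≤ nS (t + sx (β * r) t - t) (sy (β * r) t))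
    (hL : m * Real.exp L ≤ kb) (hGC : c ^ 4 ≤ (1 + ε) ^ 4 * ka ^ 2)
    (A : (1 + ε) ^ 4 * (1 + kb ^ 2) ≤ c ^ 4 * (1 + m ^ 2 + 2 * L)) :
    ‖AA β r t‖ ≤ c * (Real.exp (r * sE (β * r) t) / Real.sqrt (Real.sqrt (1 + (β * r) ^ 2))) := by
  obtain ⟨hd, hS, hy, ha, ha2⟩ := right_facts hβ hr (by linarith) ht htt
  refine near_hi hβ hr hd hc hv ?_
  rw [← sad_w hS] at hmw
  have h3 := num_M (m := m) (D := 1 + m ^ 2) h1 h2 (by linarith) (by linarith) hL (by positivity) (by positivity) hGC A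
  exact h3.trans (mul_le_mul_of_nonneg_left (DD_ge_m (by linarith) hm hmw) (by positivity))

/-- window `1` from above, `κ ≥ ka` -/
theorem right_hi_M3 {β r t ε c ka τ : ℝ} (hβ : 0 < β) (hr : 0 < r) (ht : -(β * r) ≤ t) (htt : t < Real.pi / 2)
    (hka : 1 ≤ ka) (h1 : ka ≤ β * r) (hτ : t + β * r ≤ τ) (hkτ : τ ≤ ka) (hc : 0 ≤ c)
    (hv : |‖AA β r t‖ * Real.sqrt (nD (t + sx (β * r) t - t) (sy (β * r) t)) *
      Real.exp (-((t + sx (β * r) t - t) * (1 + sy (β * r) t) / β)) - 1| ≤ ε) (hτ0 : 0 ≤ τ)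
    (A : (1 + ε) ^ 4 * (1 + ka ^ 2) ≤ c ^ 4 * (1 + (ka - τ) ^ 2)) (B : c ^ 4 * τ ≤ (c ^ 4 - (1 + ε) ^ 4) * ka) :
    ‖AA β r t‖ ≤ c * (Real.exp (r * sE (β * r) t) / Real.sqrt (Real.sqrt (1 + (β * r) ^ 2))) := by
  have hd := DomR_of (κ := β * r) (by linarith) htt
  refine near_hi hβ hr hd hc hv ?_
  have h3 := DD_ge_x hβ hr (by linarith) ht htt hτ (by linarith)
  have hC0 : 0 ≤ c ^ 4 := by positivity
  refine le_trans ?_ (mul_le_mul_of_nonneg_left h3 hC0)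
  generalize c ^ 4 = C at A B hC0 ⊢
  generalize (1 + ε) ^ 4 = G at A B ⊢
  have hka0 : 0 < ka := by linarith
  have hGC : 0 ≤ C - G := by
    by_contra hn
    push Not at hn
    have h3 : (C - G) * ka < 0 := mul_neg_of_neg_of_pos hn hka0
    have h4 := mul_nonneg hC0 hτ0
    linarith
  have q5 : 0 ≤ (β * r - ka) * ((C - G) * (β * r + ka) - 2 * C * τ) := by
    apply mul_nonneg (by linarith)
    have q6 : 0 ≤ (C - G) * (β * r - ka) := mul_nonneg hGC (by linarith)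
    linarith
  nlinarith

/-- window `1` from below -/
theorem right_lo {β r t ε : ℝ} (hβ : 0 < β) (hr : 0 < r) (hk : 1 ≤ β * r) (ht : -(β * r) ≤ t) (htt : t < Real.pi / 2)
    (hv : |‖AA β r t‖ * Real.sqrt (nD (t + sx (β * r) t - t) (sy (β * r) t)) *
      Real.exp (-((t + sx (β * r) t - t) * (1 + sy (β * r) t) / β)) - 1| ≤ ε) (hε : 0 ≤ 1 - ε)
    (hy : 1 + 2 * sy (β * r) t + 2 * sy (β * r) t ^ 2 ≤ (β * r) ^ 2 * (1 + sy (β * r) t)) :
    (1 - ε) * (Real.exp (r * sE (β * r) t) / Real.sqrt (Real.sqrt (1 + (β * r) ^ 2))) ≤ ‖AA β r t‖ := by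
  obtain ⟨hd, hS, hy0, ha, ha2⟩ := right_facts hβ hr hk ht htt
  refine near_lo hβ hr hd hε hv ?_
  apply mul_le_mul_of_nonneg_left _ (by positivity)
  unfold DD
  generalize sy (β * r) t = y at hy hy0 ⊢
  have h1 := Real.quadratic_le_exp_of_nonneg (x := 2 * y) (by linarith)
  have h2 : Real.exp (-2 * y) * Real.exp (2 * y) = 1 := by rw [← Real.exp_add]; ring_nf; exact Real.exp_zero
  have h3 : Real.exp (-2 * y) * (1 + 2 * y + 2 * y ^ 2) ≤ 1 := by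
    have h4 : Real.exp (-2 * y) * (1 + 2 * y + (2 * y) ^ 2 / 2) ≤ Real.exp (-2 * y) * Real.exp (2 * y) :=
      mul_le_mul_of_nonneg_left h1 (Real.exp_pos _).le
    rw [h2] at h4
    have e : 1 + 2 * y + (2 * y) ^ 2 / 2 = 1 + 2 * y + 2 * y ^ 2 := by ring
    rwa [e] at h4
  have hp : 0 < 1 + 2 * y + 2 * y ^ 2 := by positivity
  have h5 : Real.exp (-2 * y) ≤ 1 / (1 + 2 * y + 2 * y ^ 2) := by
    rw [le_div_iff₀ hp]; exact h3
  have h6 : (β * r) ^ 2 * Real.exp (-2 * y) ≤ (β * r) ^ 2 * (1 / (1 + 2 * y + 2 * y ^ 2)) :=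
    mul_le_mul_of_nonneg_left h5 (by positivity)
  have h7 : (β * r) ^ 2 * (1 / (1 + 2 * y + 2 * y ^ 2)) + 2 * y ≤ (β * r) ^ 2 := by
    have e : (β * r) ^ 2 * (1 / (1 + 2 * y + 2 * y ^ 2)) = (β * r) ^ 2 / (1 + 2 * y + 2 * y ^ 2) := by ring
    rw [e]
    have h8 : (β * r) ^ 2 / (1 + 2 * y + 2 * y ^ 2) ≤ (β * r) ^ 2 - 2 * y := by
      rw [div_le_iff₀ hp]
      nlinarith
    linarith
  linarith

/-- upper bound of `y` in terms of `κ ≥ ka` -/
theorem y_le_kappa {β r t a y ka τb Y E1 E2 E2' : ℝ} (h : Sad β r t a y) (hy0 : 0 ≤ y) (ha0 : 0 ≤ a)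
    (ha2 : a < Real.pi / 2) (hka : 0 < ka) (h1 : ka ≤ β * r) (hτ : t + β * r ≤ τb) (hY : 0 ≤ Y)
    (hE1 : Real.exp (-Y) ≤ E1) (hE2 : E2 ≤ Real.exp Y) (hE2' : Real.exp Y ≤ E2')
    (A : τb * ka < ka ^ 2 * (1 - E1) + (Y + Y ^ 2 / 2) * E2) (B : (Y + Y ^ 2 / 2) * E2' ≤ (1 - E1) * ka ^ 2) : y ≤ Y := by
  by_contra hcon
  push Not at hcon
  obtain ⟨κ, hκd⟩ : ∃ κ : ℝ, κ = β * r := ⟨_, rfl⟩
  have hκ0 : 0 < κ := by rw [hκd]; exact mul_pos h.hβ h.hr
  have h2 := h.hc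
  have h3 := h.hs
  rw [← hκd] at h2 h3 h1 hτ
  have hw0 : 0 < κ * Real.exp (-y) := mul_pos hκ0 (Real.exp_pos _)
  have hu : κ * Real.exp (-y) * (Real.exp y / κ) = 1 := by
    have : Real.exp (-y) * Real.exp y = 1 := by rw [← Real.exp_add, neg_add_cancel, Real.exp_zero]
    field_simp
    linarith
  have hs : Real.sin a = y * (Real.exp y / κ) := by
    have : (Real.exp y / κ) * (κ * Real.exp (-y) * Real.sin a) = (Real.exp y / κ) * y := by rw [h3]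
    linear_combination this - Real.sin a * hu
  have k1 := angle_ge ha0
  have k2 := mul_le_mul_of_nonneg_left (cos_le_sin ha0 ha2.le) hw0.le
  rw [h2] at k2
  have hu0 : 0 < Real.exp y / κ := by positivity
  have hsn : 0 ≤ Real.sin a := by rw [hs]; positivity
  have k3 : κ * Real.exp (-y) * (1 - Real.sin a ^ 2 / 2 - Real.sin a ^ 4 / 8) ≤
      κ * Real.exp (-y) - y ^ 2 / 2 * (Real.exp y / κ) := by
    have e : κ * Real.exp (-y) * (1 - Real.sin a ^ 2 / 2 - Real.sin a ^ 4 / 8) =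
        κ * Real.exp (-y) - y ^ 2 / 2 * (Real.exp y / κ) - κ * Real.exp (-y) * (Real.sin a ^ 4 / 8) := by
      rw [hs]
      linear_combination (-(y ^ 2 / 2) * (Real.exp y / κ)) * hu
    rw [e]
    have : 0 ≤ κ * Real.exp (-y) * (Real.sin a ^ 4 / 8) := by positivity
    linarith
  have k4 : y * (Real.exp y / κ) ≤ a := by
    have : 0 ≤ Real.sin a ^ 3 / 6 := by positivity
    linarith
  -- `f (κ, y) ≤ τ`
  have k5 : κ * (1 - Real.exp (-y)) + (y + y ^ 2 / 2) * (Real.exp y / κ) ≤ τb := by linarith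
  have k6 : Real.exp (-y) ≤ Real.exp (-Y) := Real.exp_le_exp.2 (by linarith)
  have k7 : Real.exp Y ≤ Real.exp y := Real.exp_le_exp.2 hcon.le
  have k8 : (Y + Y ^ 2 / 2) * (Real.exp Y / κ) ≤ (y + y ^ 2 / 2) * (Real.exp y / κ) := by
    apply mul_le_mul _ (div_le_div_of_nonneg_right k7 hκ0.le) (by positivity) (by positivity)
    nlinarith
  have k9 : κ * (1 - E1) ≤ κ * (1 - Real.exp (-y)) := mul_le_mul_of_nonneg_left (by linarith) hκ0.le
  have k10 : κ * (1 - E1) + (Y + Y ^ 2 / 2) * (Real.exp Y / κ) ≤ τb := by linarith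
  have k11 : ka * (1 - E1) + (Y + Y ^ 2 / 2) * (Real.exp Y / ka) ≤
      κ * (1 - E1) + (Y + Y ^ 2 / 2) * (Real.exp Y / κ) := by
    have e : κ * (1 - E1) + (Y + Y ^ 2 / 2) * (Real.exp Y / κ) -
        (ka * (1 - E1) + (Y + Y ^ 2 / 2) * (Real.exp Y / ka)) =
        (κ - ka) * ((1 - E1) - (Y + Y ^ 2 / 2) * Real.exp Y / (ka * κ)) := by
      field_simp
      ring
    have q4 : (Y + Y ^ 2 / 2) * Real.exp Y / (ka * κ) ≤ 1 - E1 := by
      rw [div_le_iff₀ (by positivity)]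
      have q1 : (Y + Y ^ 2 / 2) * Real.exp Y ≤ (Y + Y ^ 2 / 2) * E2' := mul_le_mul_of_nonneg_left hE2' (by positivity)
      have q2 : 0 ≤ 1 - E1 := by
        by_contra hn
        push Not at hn
        have q3 : (1 - E1) * ka ^ 2 < 0 := mul_neg_of_neg_of_pos hn (by positivity)
        have q5 : 0 ≤ (Y + Y ^ 2 / 2) * Real.exp Y := by positivity
        linarith
      have q6 : (1 - E1) * ka ^ 2 ≤ (1 - E1) * (ka * κ) := by
        apply mul_le_mul_of_nonneg_left _ q2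
        nlinarith
      linarith
    have q5 : 0 ≤ (κ - ka) * ((1 - E1) - (Y + Y ^ 2 / 2) * Real.exp Y / (ka * κ)) :=
      mul_nonneg (by linarith) (by linarith)
    linarith
  have k12 : ka * (1 - E1) + (Y + Y ^ 2 / 2) * (Real.exp Y / ka) ≤ τb := k11.trans k10
  have k13 : ka ^ 2 * (1 - E1) + (Y + Y ^ 2 / 2) * Real.exp Y ≤ τb * ka := by
    have e : (ka * (1 - E1) + (Y + Y ^ 2 / 2) * (Real.exp Y / ka)) * ka =
        ka ^ 2 * (1 - E1) + (Y + Y ^ 2 / 2) * Real.exp Y := by field_simp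
    rw [← e]
    exact mul_le_mul_of_nonneg_right k12 hka.le
  have k14 : (Y + Y ^ 2 / 2) * E2 ≤ (Y + Y ^ 2 / 2) * Real.exp Y := mul_le_mul_of_nonneg_left hE2 (by positivity)
  linarith

theorem DD_ge_Y {κ t Y : ℝ} (hy : sy κ t ≤ Y) (h1 : 1 ≤ κ ^ 2 * Real.exp (-2 * Y)) :
    κ ^ 2 * Real.exp (-2 * Y) + 1 + 2 * Y ≤ DD κ t := by
  unfold DD
  have h2 : Real.exp (-2 * sy κ t) = Real.exp (-2 * Y) * Real.exp (2 * (Y - sy κ t)) := by
    rw [← Real.exp_add]; congr 1; ring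
  have h3 := Real.add_one_le_exp (2 * (Y - sy κ t))
  have h4 : κ ^ 2 * Real.exp (-2 * Y) * (2 * (Y - sy κ t) + 1) ≤ κ ^ 2 * Real.exp (-2 * Y) * Real.exp (2 * (Y - sy κ t)) :=
    mul_le_mul_of_nonneg_left h3 (by linarith)
  have h5 : 0 ≤ (κ ^ 2 * Real.exp (-2 * Y) - 1) * (2 * (Y - sy κ t)) := mul_nonneg (by linarith) (by linarith)
  rw [h2, ← mul_assoc]
  linarith

/-- window `1` from above, with an upper bound of `y` -/
theorem right_hi_M4 {β r t ε c ka kb τ Y E1 E2 E2' E3 : ℝ} (hβ : 0 < β) (hr : 0 < r) (ht : -(β * r) ≤ t) (htt : t < Real.pi / 2)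
    (hka : 1 ≤ ka) (h1 : ka ≤ β * r) (h2 : β * r ≤ kb) (hτ : t + β * r ≤ τ) (hc : 0 ≤ c)
    (hv : |‖AA β r t‖ * Real.sqrt (nD (t + sx (β * r) t - t) (sy (β * r) t)) *
      Real.exp (-((t + sx (β * r) t - t) * (1 + sy (β * r) t) / β)) - 1| ≤ ε) (hY : 0 ≤ Y)
    (hE1 : Real.exp (-Y) ≤ E1) (hE2 : E2 ≤ Real.exp Y) (hE2' : Real.exp Y ≤ E2') (hE3 : E3 ≤ Real.exp (-2 * Y))
    (A : τ * ka < ka ^ 2 * (1 - E1) + (Y + Y ^ 2 / 2) * E2) (B : (Y + Y ^ 2 / 2) * E2' ≤ (1 - E1) * ka ^ 2)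
    (C1 : 1 ≤ ka ^ 2 * E3) (C2 : (1 + ε) ^ 4 * (1 + kb ^ 2) ≤ c ^ 4 * (kb ^ 2 * E3 + 1 + 2 * Y))
    (C3 : (1 + ε) ^ 4 ≤ c ^ 4 * (1 + 2 * Y)) :
    ‖AA β r t‖ ≤ c * (Real.exp (r * sE (β * r) t) / Real.sqrt (Real.sqrt (1 + (β * r) ^ 2))) := by
  obtain ⟨hd, hS, hy, ha, ha2⟩ := right_facts hβ hr (by linarith) ht htt
  refine near_hi hβ hr hd hc hv ?_
  have hyY := y_le_kappa hS hy ha ha2 (by linarith) h1 hτ hY hE1 hE2 hE2' A B
  have hE30 : 0 ≤ E3 := by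
    by_contra hn
    push Not at hn
    have : ka ^ 2 * E3 < 0 := mul_neg_of_pos_of_neg (by positivity) hn
    linarith
  have hk2 : ka ^ 2 ≤ (β * r) ^ 2 := pow_le_pow_left₀ (by linarith) h1 2
  have hk3 : (β * r) ^ 2 ≤ kb ^ 2 := pow_le_pow_left₀ (by linarith) h2 2
  have h3 : (β * r) ^ 2 * E3 ≤ (β * r) ^ 2 * Real.exp (-2 * Y) := mul_le_mul_of_nonneg_left hE3 (by positivity)
  have h4 : ka ^ 2 * E3 ≤ (β * r) ^ 2 * E3 := mul_le_mul_of_nonneg_right hk2 hE30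
  have h5 := DD_ge_Y (κ := β * r) hyY (by linarith)
  have hC0 : 0 ≤ c ^ 4 := by positivity
  have h6 : c ^ 4 * ((β * r) ^ 2 * E3 + 1 + 2 * Y) ≤ c ^ 4 * DD (β * r) t :=
    mul_le_mul_of_nonneg_left (by linarith) hC0
  refine le_trans ?_ h6
  generalize c ^ 4 = C at C2 C3 ⊢
  generalize (1 + ε) ^ 4 = G at C2 C3 ⊢
  generalize (β * r) ^ 2 = q at hk3 hk2 ⊢
  have hq0 : 0 ≤ q := by nlinarith
  have lin : 0 ≤ (C * E3 - G) * q + (C * (1 + 2 * Y) - G) := by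
    rcases le_total 0 (C * E3 - G) with i | i
    · have := mul_nonneg i hq0
      linarith
    · have : (C * E3 - G) * kb ^ 2 ≤ (C * E3 - G) * q := mul_le_mul_of_nonpos_left hk3 i
      linarith
  linarith

end Sok.R2
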