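import Pool.Agent.Lib.MP_816dec_an.R2N2
import Pool.Agent.Lib.MP_816dec_an.R2N3

/-!
MP_816dec_an (rows N1, R2): the fields of `NearH` (the two main windows), general part.
-/

set_option autoImplicit false

open Complex Set Filter Topology

namespace Sok.R2

open Sok.Mid Sok.N1

theorem exp_ge_of {x E : ℝ} (n : ℕ) (hx : 0 ≤ x) (h : E ≤ ∑ m ∈ Finset.range n, x ^ m / (m.factorial : ℝ)) :
    E ≤ Real.exp x := h.trans (Real.sum_le_exp_of_nonneg hx n)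

/-- the right side of the fields -/
theorem fld0 {b : ℕ} {β r z c : ℝ} {aw : ℤ} {n : ℕ} (hb : 1 ≤ b) (hr : 0 < r) (hw1 : aw + b ≤ 0) (hw2 : 0 < aw + n * b) :
    (‖Xw b β aw n 0 (wz b β r z)‖ ≤ c * Real.exp (-(TT b β r * en b (β * r) z)) * GN β r ↔
      ‖AA β r (-(β * r) + z * hh b)‖ ≤
        c * (Real.exp (r * sE (β * r) (-(β * r) + z * hh b)) / Real.sqrt (Real.sqrt (1 + (β * r) ^ 2)))) ∧
    (c * Real.exp (-(TT b β r * en b (β * r) z)) * GN β r ≤ ‖Xw b β aw n 0 (wz b β r z)‖ ↔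
      c * (Real.exp (r * sE (β * r) (-(β * r) + z * hh b)) / Real.sqrt (Real.sqrt (1 + (β * r) ^ 2))) ≤
        ‖AA β r (-(β * r) + z * hh b)‖) := by
  have e1 : tk b β r 0 z = -(β * r) + z * hh b := by unfold tk; push_cast; ring
  rw [Xw_A hr hw1 hw2, e1, mul_assoc, near_exp hb]
  exact ⟨Iff.rfl, Iff.rfl⟩

theorem fld1 {b : ℕ} {β r z c : ℝ} {aw : ℤ} {n : ℕ} (hb : 1 ≤ b) (hr : 0 < r) (hw1 : aw + b ≤ 1) (hw2 : 1 < aw + n * b) :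
    (‖Xw b β aw n 1 (wz b β r z)‖ ≤ c * Real.exp (-(TT b β r * en b (β * r) (z + 1))) * GN β r ↔
      ‖AA β r (-(β * r) + (z + 1) * hh b)‖ ≤
        c * (Real.exp (r * sE (β * r) (-(β * r) + (z + 1) * hh b)) / Real.sqrt (Real.sqrt (1 + (β * r) ^ 2)))) ∧
    (c * Real.exp (-(TT b β r * en b (β * r) (z + 1))) * GN β r ≤ ‖Xw b β aw n 1 (wz b β r z)‖ ↔
      c * (Real.exp (r * sE (β * r) (-(β * r) + (z + 1) * hh b)) / Real.sqrt (Real.sqrt (1 + (β * r) ^ 2))) ≤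
        ‖AA β r (-(β * r) + (z + 1) * hh b)‖) := by
  have e1 : tk b β r 1 z = -(β * r) + (z + 1) * hh b := by unfold tk; push_cast; ring
  rw [Xw_A hr hw1 hw2, e1, mul_assoc, near_exp hb]
  exact ⟨Iff.rfl, Iff.rfl⟩

theorem hh_bds {b : ℕ} (hb : 1 ≤ b) : 6.283 / b ≤ hh b ∧ hh b ≤ 6.2832 / b := by
  have h1 := Real.pi_gt_d4
  have h2 := Real.pi_lt_d4
  have hb' : (0 : ℝ) < b := by exact_mod_cast hb
  unfold hh
  exact ⟨div_le_div_of_nonneg_right (by linarith) hb'.le, div_le_div_of_nonneg_right (by linarith) hb'.le⟩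

theorem rc_of {b : ℕ} {β r : ℝ} (hb : 1 ≤ b) (hT : 5.441 ≤ TT b β r) : 0.1378 * (b : ℝ) ^ 2 * (1 + (β * r) ^ 2) ≤ r := by
  have hb' : (0 : ℝ) < b := by exact_mod_cast hb
  have hp0 := Real.pi_pos
  have hp := Real.pi_lt_d4
  unfold TT hh at hT
  rw [le_div_iff₀ (by positivity)] at hT
  have e : r * (2 * Real.pi / b) ^ 2 = r * (4 * Real.pi ^ 2) / b ^ 2 := by field_simp; ring
  rw [e, le_div_iff₀ (by positivity)] at hT
  have h1 : 4 * Real.pi ^ 2 ≤ 39.4787 := by nlinarith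
  have hr0 : 0 ≤ r := by
    by_contra hn
    push Not at hn
    have h3 : r * (4 * Real.pi ^ 2) < 0 := mul_neg_of_neg_of_pos hn (by positivity)
    have h4 : 0 ≤ 5.441 * (1 + (β * r) ^ 2) * (b : ℝ) ^ 2 := by positivity
    linarith
  have h2 : r * (4 * Real.pi ^ 2) ≤ r * 39.4787 := mul_le_mul_of_nonneg_left h1 hr0
  have h5 : 0 ≤ (b : ℝ) ^ 2 * (1 + (β * r) ^ 2) := by positivity
  linarith

theorem r0_of {κ r ka c r0 : ℝ} (hrc : c * (1 + κ ^ 2) ≤ r) (h1 : ka ≤ κ) (h0 : 0 ≤ ka) (hc : 0 ≤ c)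
    (hn : r0 ≤ c * (1 + ka ^ 2)) : r0 ≤ r := by
  have h2 : ka ^ 2 ≤ κ ^ 2 := pow_le_pow_left₀ h0 h1 2
  have h3 : c * (1 + ka ^ 2) ≤ c * (1 + κ ^ 2) := mul_le_mul_of_nonneg_left (by linarith) hc
  linarith

/-- `left_lo` with numbers only -/
theorem left_loN {β r t ka kb r0 δ S X σ s' X' EL E1 ES EL' Es' e0 e1 c0 : ℝ} (hβ : 0 < β) (hr : 10 ≤ r) (hr0 : r0 ≤ r)
    (h1 : ka ≤ β * r) (h2 : β * r ≤ kb) (ht : t ≤ -(β * r)) (ht' : -(β * r) - δ ≤ t)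
    (hEL : EL ≤ Real.exp (2 * S)) (hES : Real.exp (2 * S) ≤ ES) (hE1 : Real.exp S ≤ E1)
    (hEL' : EL' ≤ Real.exp (2 * s')) (hEs : Real.exp (2 * s') ≤ Es')
    (hka : 1.39 ≤ ka) (hδ : δ ≤ 1.59 * ka) (hS0 : 0 ≤ S) (hX : X ^ 2 * ka ^ 2 ≤ EL * ka ^ 2 - S ^ 2) (hX1 : 1 ≤ X)
    (hσ : σ * E1 ≤ S) (hσ0 : 0 ≤ σ) (hm : σ ≤ (X - 1) * ka ^ 2) (hd : δ * ka ≤ ka ^ 2 * (X - 1) + σ)
    (hr00 : 0 < r0) (hs0 : 0 ≤ s') (hs1 : s' ≤ 1) (hX' : X' ^ 2 * ka ^ 2 ≤ EL' * ka ^ 2 - s' ^ 2) (hX'0 : 0 < X')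
    (he0 : 0.671 ≤ e0 * r0) (he1 : 0.671 ≤ e1 * (r0 * X')) (he01 : e0 ≤ 1) (he11 : e1 ≤ 1)
    (A : c0 ^ 4 * (kb ^ 2 * ES + 1 - 2 * S) ≤ (1 - e1) ^ 4 * (1 + kb ^ 2)) (A0 : c0 ^ 4 * (1 - 2 * S) ≤ (1 - e1) ^ 4)
    (B : c0 ^ 4 * (kb ^ 2 * Es' + 1 - 2 * s') ≤ (1 - e0) ^ 4 * (1 + kb ^ 2)) (B0 : c0 ^ 4 * (1 - 2 * s') ≤ (1 - e0) ^ 4) :
    c0 * (Real.exp (r * sE (β * r) t) / Real.sqrt (Real.sqrt (1 + (β * r) ^ 2))) ≤ ‖AA β r t‖ := by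
  have hka0 : 0 < ka := by linarith
  have hka2 : 0 < ka ^ 2 := by positivity
  refine left_lo (X := X) (σ := σ) (s' := s') (X' := X') (e0 := e0) (e1 := e1) hβ hr hr0 hka h1 h2 ht ht' hδ hS0 ?_ hX1
    ?_ hm ?_ hr00 hs0 hs1 ?_ hX'0 hES hEs he0 he1 he01 he11 A A0 B B0
  · have h3 : X ^ 2 ≤ EL - S ^ 2 / ka ^ 2 := by
      rw [le_sub_iff_add_le, ← le_sub_iff_add_le', div_le_iff₀ hka2]
      linarith
    linarith
  · exact (mul_le_mul_of_nonneg_left hE1 hσ0).trans hσ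
  · have h3 : δ - ka * (X - 1) ≤ σ / ka := by
      rw [le_div_iff₀ hka0]
      linarith
    linarith
  · have h3 : X' ^ 2 ≤ EL' - s' ^ 2 / ka ^ 2 := by
      rw [le_sub_iff_add_le, ← le_sub_iff_add_le', div_le_iff₀ hka2]
      linarith
    linarith

/-- the value on the right, `b = 1` -/
theorem rv1 {β r t : ℝ} (hβ : 0 < β) (hr : 10 ≤ r) (hrc : 0.1378 * (1 + (β * r) ^ 2) ≤ r) (hk : 4.7 ≤ β * r)
    (ht : -(β * r) ≤ t) (hτ : t + β * r ≤ 3.8956) :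
    |‖AA β r t‖ * Real.sqrt (nD (t + sx (β * r) t - t) (sy (β * r) t)) *
      Real.exp (-((t + sx (β * r) t - t) * (1 + sy (β * r) t) / β)) - 1| ≤ 0.2 := by
  obtain ⟨hd, hS, hy, ha, ha2⟩ := right_facts hβ (by linarith) (by linarith) ht (by linarith [Real.pi_gt_d2])
  exact val1_b1 hS hy ha ha2 hk hτ hr hrc

theorem rv1f {β r t : ℝ} (hβ : 0 < β) (hr : 10 ≤ r) (hrc : 0.1378 * (1 + (β * r) ^ 2) ≤ r) (hk : 5.6 ≤ β * r)
    (ht : -(β * r) ≤ t) (hτ : t + β * r ≤ 4.2726) :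
    |‖AA β r t‖ * Real.sqrt (nD (t + sx (β * r) t - t) (sy (β * r) t)) *
      Real.exp (-((t + sx (β * r) t - t) * (1 + sy (β * r) t) / β)) - 1| ≤ 0.2 := by
  obtain ⟨hd, hS, hy, ha, ha2⟩ := right_facts hβ (by linarith) (by linarith) ht (by linarith [Real.pi_gt_d2])
  exact val1_b1f hS hy ha ha2 hk hτ hr hrc

theorem rv1g {β r t : ℝ} (hβ : 0 < β) (hr : 10 ≤ r) (hrc : 0.1378 * (1 + (β * r) ^ 2) ≤ r) (hk : 5 ≤ β * r)
    (ht : -(β * r) ≤ t) (hτ : t + β * r ≤ 4.2726) :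
    |‖AA β r t‖ * Real.sqrt (nD (t + sx (β * r) t - t) (sy (β * r) t)) *
      Real.exp (-((t + sx (β * r) t - t) * (1 + sy (β * r) t) / β)) - 1| ≤ 0.24 := by
  obtain ⟨hd, hS, hy, ha, ha2⟩ := right_facts hβ (by linarith) (by linarith) ht (by linarith [Real.pi_gt_d2])
  exact val1_b1g hS hy ha ha2 hk hτ hr hrc

theorem rv1c {β r t : ℝ} (hβ : 0 < β) (hr : 10 ≤ r) (hrc : 0.1378 * (1 + (β * r) ^ 2) ≤ r) (hk : 4.7 ≤ β * r)
    (ht : -(β * r) ≤ t) (hτ : t + β * r ≤ 4.2726) :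
    |‖AA β r t‖ * Real.sqrt (nD (t + sx (β * r) t - t) (sy (β * r) t)) *
      Real.exp (-((t + sx (β * r) t - t) * (1 + sy (β * r) t) / β)) - 1| ≤ 0.28 := by
  obtain ⟨hd, hS, hy, ha, ha2⟩ := right_facts hβ (by linarith) (by linarith) ht (by linarith [Real.pi_gt_d2])
  exact val1_b1c hS hy ha ha2 hk hτ hr hrc

theorem rv2 {β r t : ℝ} (hβ : 0 < β) (hr : 10 ≤ r) (hrc : 0.5512 * (1 + (β * r) ^ 2) ≤ r) (hk : 3 ≤ β * r)
    (ht : -(β * r) ≤ t) (hτ : t + β * r ≤ 2.1363) :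
    |‖AA β r t‖ * Real.sqrt (nD (t + sx (β * r) t - t) (sy (β * r) t)) *
      Real.exp (-((t + sx (β * r) t - t) * (1 + sy (β * r) t) / β)) - 1| ≤ 0.1 := by
  obtain ⟨hd, hS, hy, ha, ha2⟩ := right_facts hβ (by linarith) (by linarith) ht (by linarith [Real.pi_gt_d2])
  exact val1_b2 hS hy ha ha2 hk hτ hr hrc

theorem rv3 {β r t : ℝ} (hβ : 0 < β) (hr : 10 ≤ r) (hrc : 1.2402 * (1 + (β * r) ^ 2) ≤ r) (hk : 1.39 ≤ β * r)
    (ht : -(β * r) ≤ t) (hτ : t + β * r ≤ 1.4242) :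
    |‖AA β r t‖ * Real.sqrt (nD (t + sx (β * r) t - t) (sy (β * r) t)) *
      Real.exp (-((t + sx (β * r) t - t) * (1 + sy (β * r) t) / β)) - 1| ≤ 0.1 := by
  obtain ⟨hd, hS, hy, ha, ha2⟩ := right_facts hβ (by linarith) (by linarith) ht (by linarith [Real.pi_gt_d2])
  exact val1_b3 hS hy ha ha2 hk hτ hr hrc

/-- the condition of `right_lo` for `κ ≥ 2.42` -/
theorem ylo_big {β r t : ℝ} (hβ : 0 < β) (hr : 0 < r) (hk : 2.42 ≤ β * r) (ht : -(β * r) ≤ t) (htt : t < Real.pi / 2) :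
    1 + 2 * sy (β * r) t + 2 * sy (β * r) t ^ 2 ≤ (β * r) ^ 2 * (1 + sy (β * r) t) := by
  obtain ⟨hd, hS, hy, ha, ha2⟩ := right_facts hβ hr (by linarith) ht htt
  have h1 := (s_data hd).2
  have h2 : sy (β * r) t ≤ β * r := by
    have h3 : β * r * Real.exp (-sy (β * r) t) * Real.sin (t + sx (β * r) t) ≤ β * r * 1 * 1 := by
      apply mul_le_mul
      · apply mul_le_mul_of_nonneg_left _ (by linarith)
        rw [Real.exp_le_one_iff]; linarith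
      · exact Real.sin_le_one _
      · exact Real.sin_nonneg_of_nonneg_of_le_pi ha (by linarith [Real.pi_pos])
      · linarith
    linarith
  generalize sy (β * r) t = y at hy h2 ⊢
  generalize β * r = κ at hk h2 ⊢
  have h4 : 2 * κ ≤ κ ^ 2 - 1 := by nlinarith
  nlinarith [mul_nonneg hy (by linarith : (0:ℝ) ≤ κ ^ 2 - 2 * y)]

/-- `y ≤ 0.553` for `b ≥ 3` -/
theorem y_b3 {β r t : ℝ} (hβ : 0 < β) (hr : 0 < r) (hk : 1.39 ≤ β * r) (ht : -(β * r) ≤ t) (hτ : t + β * r ≤ 1.4242) :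
    sy (β * r) t ≤ 0.553 := by
  obtain ⟨hd, hS, hy, ha, ha2⟩ := right_facts hβ hr (by linarith) ht (by linarith [Real.pi_gt_d2])
  have hw : 0.82 ≤ nS (t + sx (β * r) t - t) (sy (β * r) t) := by
    have hE : Real.exp 0.5277 ≤ 1.69512 := exp_le_of 5 (by norm_num) (by norm_num) (by norm_num)
      (by norm_num [Finset.sum_range_succ, Nat.factorial])
    have hS' := sin_le_five (z := 0.69) (by norm_num)
    refine w_ge (y1 := 0.5277) (a1 := 0.69) (x1 := 0.6277) hS ha ha2 hk hτ (by norm_num) (by norm_num) (by norm_num)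
      (by norm_num) ?_ ?_ (by norm_num) (by norm_num) (by norm_num)
    · linarith
    · norm_num at hS'
      linarith
  exact y_le (w1 := 0.82) (v := 0) (m := 2) hS hy ha ha2 hτ hw (by norm_num) (by rw [zero_mul]; norm_num) (by norm_num)
    (by norm_num) (by norm_num) (by intro w hw; nlinarith [sq_nonneg (w - 1)]) (by norm_num)

theorem ylo_b3 {β r t : ℝ} (hβ : 0 < β) (hr : 0 < r) (hk : 1.39 ≤ β * r) (ht : -(β * r) ≤ t) (hτ : t + β * r ≤ 1.4242) :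
    1 + 2 * sy (β * r) t + 2 * sy (β * r) t ^ 2 ≤ (β * r) ^ 2 * (1 + sy (β * r) t) := by
  obtain ⟨hd, hS, hy, ha, ha2⟩ := right_facts hβ hr (by linarith) ht (by linarith [Real.pi_gt_d2])
  have h1 := y_b3 hβ hr hk ht hτ
  generalize sy (β * r) t = y at hy h1 ⊢
  have h2 : 1.932 ≤ (β * r) ^ 2 := by nlinarith
  have h3 : 1.932 * (1 + y) ≤ (β * r) ^ 2 * (1 + y) := mul_le_mul_of_nonneg_right h2 (by linarith)
  nlinarith

/-- `right_hi_M4` with numbers only -/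
theorem right_hi_M4N {β r t ε c ka kb τ Y E1 E2 E2' E3 : ℝ} (hβ : 0 < β) (hr : 0 < r) (ht : -(β * r) ≤ t)
    (h1 : ka ≤ β * r) (h2 : β * r ≤ kb) (hτ : t + β * r ≤ τ)
    (hv : |‖AA β r t‖ * Real.sqrt (nD (t + sx (β * r) t - t) (sy (β * r) t)) *
      Real.exp (-((t + sx (β * r) t - t) * (1 + sy (β * r) t) / β)) - 1| ≤ ε)
    (hE1 : Real.exp (-Y) ≤ E1) (hE2 : E2 ≤ Real.exp Y) (hE2' : Real.exp Y ≤ E2') (hE3 : E3 * E2' ^ 2 ≤ 1)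
    (hτk : τ ≤ ka + 1.57) (hka : 1 ≤ ka) (hc : 0 ≤ c) (hY : 0 ≤ Y) (hE30 : 0 ≤ E3)
    (A : τ * ka < ka ^ 2 * (1 - E1) + (Y + Y ^ 2 / 2) * E2) (B : (Y + Y ^ 2 / 2) * E2' ≤ (1 - E1) * ka ^ 2)
    (C1 : 1 ≤ ka ^ 2 * E3) (C2 : (1 + ε) ^ 4 * (1 + kb ^ 2) ≤ c ^ 4 * (kb ^ 2 * E3 + 1 + 2 * Y))
    (C3 : (1 + ε) ^ 4 ≤ c ^ 4 * (1 + 2 * Y)) :
    ‖AA β r t‖ ≤ c * (Real.exp (r * sE (β * r) t) / Real.sqrt (Real.sqrt (1 + (β * r) ^ 2))) := by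
  have hpi := Real.pi_gt_d4
  refine right_hi_M4 (Y := Y) (E1 := E1) (E2 := E2) (E2' := E2') (E3 := E3) hβ hr ht (by linarith) hka h1 h2 hτ hc hv hY
    hE1 hE2 hE2' ?_ A B C1 C2 C3
  have h3 : Real.exp (-2 * Y) * Real.exp Y ^ 2 = 1 := by
    rw [← Real.exp_nat_mul, ← Real.exp_add]
    have : -2 * Y + ((2 : ℕ) : ℝ) * Y = 0 := by push_cast; ring
    rw [this, Real.exp_zero]
  have h4 : Real.exp Y ^ 2 ≤ E2' ^ 2 := pow_le_pow_left₀ (Real.exp_pos _).le hE2' 2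
  have h5 : E3 * Real.exp Y ^ 2 ≤ Real.exp (-2 * Y) * Real.exp Y ^ 2 := by
    rw [h3]
    exact (mul_le_mul_of_nonneg_left h4 hE30).trans hE3
  exact le_of_mul_le_mul_right h5 (by positivity)

theorem kmax_of {κ r c km : ℝ} (hrc : c * (1 + κ ^ 2) ≤ r) (hr : r ≤ 13.42) (hc : 0 < c) (h0 : 0 ≤ km)
    (hn : 13.42 ≤ c * (1 + km ^ 2)) : κ ≤ km := by
  by_contra hcon
  push Not at hcon
  have h1 : km ^ 2 < κ ^ 2 := pow_lt_pow_left₀ hcon h0 (by norm_num)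
  have h2 : c * (1 + km ^ 2) < c * (1 + κ ^ 2) := mul_lt_mul_of_pos_left (by linarith) hc
  linarith

end Sok.R2
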