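import Pool.Agent.Lib.MP_816dec_an.R2N4
import Pool.Agent.Lib.MP_816dec_an.R2Asm

/-!
MP_816dec_an (rows N1, R2): the fields of `NearH` from bounds of `AA`.
-/

set_option autoImplicit false

open Complex Set Filter Topology

namespace Sok.R2

open Sok.Mid Sok.N1

section
variable {b : ℕ} {β r : ℝ} {aw : ℤ} {n : ℕ}

theorem f_hi0 (hb : 1 ≤ b) (hβ : 0 < β) (hr : 10 ≤ r) (hw1 : aw + b ≤ 0) (hw2 : 0 < aw + n * b) {qL h0 h1 δq u0 : ℝ}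
    (hk : 1.39 ≤ β * r) (hh0 : h0 ≤ hh b) (hh1 : hh b ≤ h1) (hq : qL ≤ 0) (hδ : δq ≤ -qL * h0) (hδ0 : 0 ≤ δq)
    (hκ : h1 ≤ 1.59 * (β * r))
    (hn : 13.42 ≤ r ∨ (0.2746 ≤ δq ∧ 1.067 * (1 + (β * r) ^ 2) ≤ (β * r + (δq - 0.2746)) ^ 2)) (hu : u0 = 21 / 20) :
    ∀ z ∈ Icc (-1 : ℝ) qL, ‖Xw b β aw n 0 (wz b β r z)‖ ≤ u0 * Real.exp (-(TT b β r * en b (β * r) z)) * GN β r := by
  intro z hz
  have hhp := hh_pos hb
  refine (fld0 hb (by linarith) hw1 hw2).1.2 ?_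
  rw [hu]
  have e1 : z * hh b ≤ -δq := by
    have h2 : z * hh b ≤ qL * hh b := mul_le_mul_of_nonneg_right hz.2 hhp.le
    have h3 : -qL * h0 ≤ -qL * hh b := mul_le_mul_of_nonneg_left hh0 (by linarith)
    linarith
  have e2 : -(1.59 * (β * r)) ≤ z * hh b := by
    have h2 : (-1) * hh b ≤ z * hh b := mul_le_mul_of_nonneg_right hz.1 hhp.le
    linarith
  exact left_hi (δq := δq) hβ hr hk (by linarith) (by linarith) hδ0 hn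

theorem f_lo0 (hb : 1 ≤ b) (hr : 10 ≤ r) (hw1 : aw + b ≤ 0) (hw2 : 0 < aw + n * b) {qL h1 δ c0 : ℝ}
    (hh1 : hh b ≤ h1) (hq : qL ≤ 0) (hδ : -qL * h1 ≤ δ)
    (H : ∀ t, t ≤ -(β * r) → -(β * r) - δ ≤ t →
      c0 * (Real.exp (r * sE (β * r) t) / Real.sqrt (Real.sqrt (1 + (β * r) ^ 2))) ≤ ‖AA β r t‖) :
    ∀ z ∈ Icc qL (0 : ℝ), c0 * Real.exp (-(TT b β r * en b (β * r) z)) * GN β r ≤ ‖Xw b β aw n 0 (wz b β r z)‖ := by
  intro z hz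
  have hhp := hh_pos hb
  refine (fld0 hb (by linarith) hw1 hw2).2.2 (H _ ?_ ?_)
  · have : z * hh b ≤ 0 := mul_nonpos_of_nonpos_of_nonneg hz.2 hhp.le
    linarith
  · have h2 : qL * hh b ≤ z * hh b := mul_le_mul_of_nonneg_right hz.1 hhp.le
    have h3 : -qL * hh b ≤ -qL * h1 := mul_le_mul_of_nonneg_left hh1 (by linarith)
    linarith

theorem f_lo1 (hb : 1 ≤ b) (hr : 10 ≤ r) (hw1 : aw + b ≤ 1) (hw2 : 1 < aw + n * b) {qR h1 τ l1 : ℝ}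
    (hh1 : hh b ≤ h1) (hq : -1 ≤ qR) (hτ : (1 + qR) * h1 ≤ τ)
    (H : ∀ t, -(β * r) ≤ t → t + β * r ≤ τ →
      l1 * (Real.exp (r * sE (β * r) t) / Real.sqrt (Real.sqrt (1 + (β * r) ^ 2))) ≤ ‖AA β r t‖) :
    ∀ z ∈ Icc (-1 : ℝ) qR,
      l1 * Real.exp (-(TT b β r * en b (β * r) (z + 1))) * GN β r ≤ ‖Xw b β aw n 1 (wz b β r z)‖ := by
  intro z hz
  have hhp := hh_pos hb
  refine (fld1 hb (by linarith) hw1 hw2).2.2 (H _ ?_ ?_)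
  · have : 0 ≤ (z + 1) * hh b := mul_nonneg (by linarith [hz.1]) hhp.le
    linarith
  · have h2 : (z + 1) * hh b ≤ (1 + qR) * hh b := mul_le_mul_of_nonneg_right (by linarith [hz.2]) hhp.le
    have h3 : (1 + qR) * hh b ≤ (1 + qR) * h1 := mul_le_mul_of_nonneg_left hh1 (by linarith)
    linarith

theorem f_hi1 (hb : 1 ≤ b) (hr : 10 ≤ r) (hw1 : aw + b ≤ 1) (hw2 : 1 < aw + n * b) {qR z4 h1 τ c1 : ℝ}
    (hh1 : hh b ≤ h1) (hq : -1 ≤ qR) (hq4 : -1 ≤ z4) (hτ : (1 + z4) * h1 ≤ τ)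
    (H : ∀ t, -(β * r) ≤ t → t + β * r ≤ τ →
      ‖AA β r t‖ ≤ c1 * (Real.exp (r * sE (β * r) t) / Real.sqrt (Real.sqrt (1 + (β * r) ^ 2)))) :
    ∀ z ∈ Icc qR z4,
      ‖Xw b β aw n 1 (wz b β r z)‖ ≤ c1 * Real.exp (-(TT b β r * en b (β * r) (z + 1))) * GN β r := by
  intro z hz
  have hhp := hh_pos hb
  refine (fld1 hb (by linarith) hw1 hw2).1.2 (H _ ?_ ?_)
  · have : 0 ≤ (z + 1) * hh b := mul_nonneg (by linarith [hz.1]) hhp.le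
    linarith
  · have h2 : (z + 1) * hh b ≤ (1 + z4) * hh b := mul_le_mul_of_nonneg_right (by linarith [hz.2]) hhp.le
    have h3 : (1 + z4) * hh b ≤ (1 + z4) * h1 := mul_le_mul_of_nonneg_left hh1 (by linarith)
    linarith

end

/-- the second alternative in `f_hi0` on `[k1, k2]` -/
theorem alt2 {κ k1 k2 δ : ℝ} (h1 : k1 ≤ κ) (h2 : κ ≤ k2) (A1 : 1.067 * (1 + k1 ^ 2) ≤ (k1 + δ) ^ 2)
    (A2 : 1.067 * (1 + k2 ^ 2) ≤ (k2 + δ) ^ 2) : 1.067 * (1 + κ ^ 2) ≤ (κ + δ) ^ 2 := by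
  have h3 : 0 ≤ (κ - k1) * (k2 - κ) := mul_nonneg (by linarith) (by linarith)
  rcases eq_or_lt_of_le (h1.trans h2) with h | h
  · have : κ = k1 := le_antisymm (by linarith) h1
    rw [this]; exact A1
  · have h4 : 0 < k2 - k1 := by linarith
    -- the difference is concave in `κ`
    have e : (k2 - k1) * ((κ + δ) ^ 2 - 1.067 * (1 + κ ^ 2)) =
        (k2 - κ) * ((k1 + δ) ^ 2 - 1.067 * (1 + k1 ^ 2)) + (κ - k1) * ((k2 + δ) ^ 2 - 1.067 * (1 + k2 ^ 2)) +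
          0.067 * (k2 - k1) * ((κ - k1) * (k2 - κ)) := by ring
    have h5 : 0 ≤ (k2 - k1) * ((κ + δ) ^ 2 - 1.067 * (1 + κ ^ 2)) := by
      rw [e]
      have i1 : 0 ≤ (k2 - κ) * ((k1 + δ) ^ 2 - 1.067 * (1 + k1 ^ 2)) := mul_nonneg (by linarith) (by linarith)
      have i2 : 0 ≤ (κ - k1) * ((k2 + δ) ^ 2 - 1.067 * (1 + k2 ^ 2)) := mul_nonneg (by linarith) (by linarith)
      have i3 : 0 ≤ 0.067 * (k2 - k1) * ((κ - k1) * (k2 - κ)) := by positivity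
      linarith
    have := nonneg_of_mul_nonneg_right h5 h4
    linarith

theorem right_hi_M1N {β r t ε c ka kb L : ℝ} (hβ : 0 < β) (hr : 0 < r) (htt : t < Real.pi / 2)
    (h1 : ka ≤ β * r) (h2 : β * r ≤ kb)
    (hv : |‖AA β r t‖ * Real.sqrt (nD (t + sx (β * r) t - t) (sy (β * r) t)) *
      Real.exp (-((t + sx (β * r) t - t) * (1 + sy (β * r) t) / β)) - 1| ≤ ε)
    (hL : Real.exp L ≤ kb) (hka : 1 ≤ ka) (hc : 0 ≤ c) (hGC : c ^ 4 ≤ (1 + ε) ^ 4 * ka ^ 2)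
    (A : (1 + ε) ^ 4 * (1 + kb ^ 2) ≤ c ^ 4 * (2 + 2 * L)) :
    ‖AA β r t‖ ≤ c * (Real.exp (r * sE (β * r) t) / Real.sqrt (Real.sqrt (1 + (β * r) ^ 2))) :=
  right_hi_M1 hβ hr htt hka h1 h2 hc hv (by rw [one_mul]; exact hL) hGC A

end Sok.R2
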