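import Pool.Agent.Lib.MP_816dec_an.R2N5
import Pool.Agent.Lib.MP_816dec_an.R2Cls

/-!
MP_816dec_an (rows N1, R2): `NearH` for the classes near1_1, near1_2 (helper40; split by helper24).
-/

set_option autoImplicit false

open Complex Set Filter Topology

namespace Sok.R2

open Sok.Mid Sok.N1

theorem near1_1 {b : ℕ} {β r : ℝ} (hb : b = 1) (hβ : 0 < β) (hr : 10 ≤ r) (hT : c1_1.num.T0 ≤ TT b β r)
    (h1 : (47 / 10 : ℝ) ≤ β * r) (h2 : β * r ≤ 28 / 5) : NearH b β r (-1) 3 c1_1.num := by
  subst hb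
  have hb1 : (1 : ℕ) ≤ 1 := by norm_num
  have hT1 : (5.441 : ℝ) ≤ TT 1 β r := le_trans (by norm_num [c1_1, NumQ.num]) hT
  have hr0 : 0 < r := by linarith
  replace h1 : 4.7 ≤ β * r := by norm_num at h1 ⊢; linarith
  replace h2 : β * r ≤ 5.6 := by norm_num at h2 ⊢; linarith
  have hrc : 0.1378 * (1 + (β * r) ^ 2) ≤ r := by
    have h := rc_of hb1 hT1
    norm_num at h ⊢
    linarith
  have hl : 6.28299 ≤ hh 1 := by
    have h := (hh_bds hb1).1
    norm_num at h ⊢
    linarith
  have hu : hh 1 ≤ 6.2832 := by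
    have h := (hh_bds hb1).2
    norm_num at h ⊢
    linarith
  have e_u0 : c1_1.num.u0 = 21 / 20 := by norm_num [c1_1, NumQ.num]
  have e_c0 : c1_1.num.c0 = 0.663 := by norm_num [c1_1, NumQ.num]
  have e_l1 : c1_1.num.l1 = 1 - 0.2 := by norm_num [c1_1, NumQ.num]
  have e_c1 : c1_1.num.c1 = 1.873 := by norm_num [c1_1, NumQ.num]
  have e_qL : c1_1.num.qL = -0.58 := by norm_num [c1_1, NumQ.num]
  have e_qR : c1_1.num.qR = -0.41 := by norm_num [c1_1, NumQ.num]
  have e_z4 : c1_1.num.z4 = -0.32 := by norm_num [c1_1, NumQ.num]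
  refine ⟨?_, ?_, ?_, ?_⟩
  · rw [e_qL, e_u0]
    refine f_hi0 (h0 := 6.28299) (h1 := 6.2832) (δq := 3.6441) hb1 hβ hr (by norm_num) (by norm_num) (by linarith) hl hu (by norm_num) (by norm_num)
      (by norm_num) (by linarith) ?_ rfl
    exact Or.inr ⟨by norm_num, alt2 (k1 := 4.7) (k2 := 5.6) (by linarith) h2 (by norm_num) (by norm_num)⟩
  · rw [e_qL, e_c0]
    refine f_lo0 (h1 := 6.2832) (δ := 3.644256) hb1 hr (by norm_num) (by norm_num) hu (by norm_num) (by norm_num) ?_
    intro t ht ht'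
    exact left_lo_big (ka := 4.7) (r0 := 10) (δ := 3.644256) (e0 := 0.06711) hβ hr hr (by norm_num) h1 ht ht' (by
      norm_num) (by norm_num) (by norm_num) (by norm_num) (by norm_num) (by norm_num) (by norm_num)
  · rw [e_qR, e_l1]
    refine f_lo1 (h1 := 6.2832) (τ := 3.8956) hb1 hr (by norm_num) (by norm_num) hu (by norm_num) (by norm_num) ?_
    intro t ht ht'
    have hv := rv1 hβ hr hrc (by linarith) ht (by linarith)
    exact right_lo hβ hr0 (by linarith) ht (by linarith [Real.pi_gt_d2]) hv (by norm_num)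
      (ylo_big hβ hr0 (by linarith) ht (by linarith [Real.pi_gt_d2]))
  · rw [e_qR, e_z4, e_c1]
    refine f_hi1 (h1 := 6.2832) (τ := 4.2726) hb1 hr (by norm_num) (by norm_num) hu (by norm_num) (by norm_num) (by norm_num) ?_
    intro t ht ht'
    have htt : t < Real.pi / 2 := by linarith [Real.pi_gt_d2]
    rcases le_total (β * r) 5 with d5 | d5
    · have hv := rv1c hβ hr hrc (by linarith) ht (by linarith)
      exact right_hi_M4N (ka := 4.7) (kb := 5) (τ := 4.2726) (Y := 1.1119) (E1 := 0.328934) (E2 := 3.040129) (E2'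
        := 3.04013) (E3 := 0.108197) hβ hr0 ht h1 d5 ht' hv (exp_neg_le_of 10 (by norm_num) (by norm_num) (by
        norm_num [Finset.sum_range_succ, Nat.factorial])) (exp_ge_of 11 (by norm_num) (by norm_num
        [Finset.sum_range_succ, Nat.factorial])) (exp_le_of 7 (by norm_num) (by norm_num) (by norm_num) (by
        norm_num [Finset.sum_range_succ, Nat.factorial])) (by norm_num) (by norm_num) (by norm_num) (by norm_num)
        (by norm_num) (by norm_num) (by norm_num) (by norm_num) (by norm_num) (by norm_num) (by norm_num)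
    · have hv := rv1g hβ hr hrc (by linarith) ht (by linarith)
      exact right_hi_M4N (ka := 5) (kb := 5.6) (τ := 4.2726) (Y := 1.0778) (E1 := 0.340344) (E2 := 2.938208) (E2'
        := 2.938209) (E3 := 0.115833) hβ hr0 ht d5 h2 ht' hv (exp_neg_le_of 10 (by norm_num) (by norm_num) (by
        norm_num [Finset.sum_range_succ, Nat.factorial])) (exp_ge_of 11 (by norm_num) (by norm_num
        [Finset.sum_range_succ, Nat.factorial])) (exp_le_of 8 (by norm_num) (by norm_num) (by norm_num) (by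
        norm_num [Finset.sum_range_succ, Nat.factorial])) (by norm_num) (by norm_num) (by norm_num) (by norm_num)
        (by norm_num) (by norm_num) (by norm_num) (by norm_num) (by norm_num) (by norm_num) (by norm_num)

theorem near1_2 {b : ℕ} {β r : ℝ} (hb : b = 1) (hβ : 0 < β) (hr : 10 ≤ r) (hT : c1_2.num.T0 ≤ TT b β r)
    (h1 : (28 / 5 : ℝ) ≤ β * r) (h2 : β * r ≤ 69 / 10) : NearH b β r (-1) 3 c1_2.num := by
  subst hb
  have hb1 : (1 : ℕ) ≤ 1 := by norm_num
  have hT1 : (5.441 : ℝ) ≤ TT 1 β r := le_trans (by norm_num [c1_2, NumQ.num]) hT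
  have hr0 : 0 < r := by linarith
  replace h1 : 5.6 ≤ β * r := by norm_num at h1 ⊢; linarith
  replace h2 : β * r ≤ 6.9 := by norm_num at h2 ⊢; linarith
  have hrc : 0.1378 * (1 + (β * r) ^ 2) ≤ r := by
    have h := rc_of hb1 hT1
    norm_num at h ⊢
    linarith
  have hl : 6.28299 ≤ hh 1 := by
    have h := (hh_bds hb1).1
    norm_num at h ⊢
    linarith
  have hu : hh 1 ≤ 6.2832 := by
    have h := (hh_bds hb1).2
    norm_num at h ⊢
    linarith
  have e_u0 : c1_2.num.u0 = 21 / 20 := by norm_num [c1_2, NumQ.num]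
  have e_c0 : c1_2.num.c0 = 0.696 := by norm_num [c1_2, NumQ.num]
  have e_l1 : c1_2.num.l1 = 1 - 0.2 := by norm_num [c1_2, NumQ.num]
  have e_c1 : c1_2.num.c1 = 1.881 := by norm_num [c1_2, NumQ.num]
  have e_qL : c1_2.num.qL = -0.585 := by norm_num [c1_2, NumQ.num]
  have e_qR : c1_2.num.qR = -0.37 := by norm_num [c1_2, NumQ.num]
  have e_z4 : c1_2.num.z4 = -0.32 := by norm_num [c1_2, NumQ.num]
  refine ⟨?_, ?_, ?_, ?_⟩
  · rw [e_qL, e_u0]
    refine f_hi0 (h0 := 6.28299) (h1 := 6.2832) (δq := 3.6755) hb1 hβ hr (by norm_num) (by norm_num) (by linarith) hl hu (by norm_num) (by norm_num)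
      (by norm_num) (by linarith) ?_ rfl
    exact Or.inr ⟨by norm_num, alt2 (k1 := 5.6) (k2 := 6.9) (by linarith) h2 (by norm_num) (by norm_num)⟩
  · rw [e_qL, e_c0]
    refine f_lo0 (h1 := 6.2832) (δ := 3.675672) hb1 hr (by norm_num) (by norm_num) hu (by norm_num) (by norm_num) ?_
    intro t ht ht'
    exact left_lo_big (ka := 5.6) (r0 := 10) (δ := 3.675672) (e0 := 0.06711) hβ hr hr (by norm_num) h1 ht ht' (by
      norm_num) (by norm_num) (by norm_num) (by norm_num) (by norm_num) (by norm_num) (by norm_num)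
  · rw [e_qR, e_l1]
    refine f_lo1 (h1 := 6.2832) (τ := 4.2726) hb1 hr (by norm_num) (by norm_num) hu (by norm_num) (by norm_num) ?_
    intro t ht ht'
    have hv := rv1f hβ hr hrc (by linarith) ht (by linarith)
    exact right_lo hβ hr0 (by linarith) ht (by linarith [Real.pi_gt_d2]) hv (by norm_num)
      (ylo_big hβ hr0 (by linarith) ht (by linarith [Real.pi_gt_d2]))
  · rw [e_qR, e_z4, e_c1]
    refine f_hi1 (h1 := 6.2832) (τ := 4.2726) hb1 hr (by norm_num) (by norm_num) hu (by norm_num) (by norm_num) (by norm_num) ?_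
    intro t ht ht'
    have htt : t < Real.pi / 2 := by linarith [Real.pi_gt_d2]
    have hv := rv1f hβ hr hrc (by linarith) ht (by linarith)
    exact right_hi_M4N (ka := 5.6) (kb := 6.9) (τ := 4.2726) (Y := 1.0013) (E1 := 0.367402) (E2 := 2.721817) (E2'
      := 2.721818) (E3 := 0.134983) hβ hr0 ht h1 h2 ht' hv (exp_neg_le_of 9 (by norm_num) (by norm_num) (by
      norm_num [Finset.sum_range_succ, Nat.factorial])) (exp_ge_of 10 (by norm_num) (by norm_num
      [Finset.sum_range_succ, Nat.factorial])) (exp_le_of 8 (by norm_num) (by norm_num) (by norm_num) (by norm_num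
      [Finset.sum_range_succ, Nat.factorial])) (by norm_num) (by norm_num) (by norm_num) (by norm_num) (by
      norm_num) (by norm_num) (by norm_num) (by norm_num) (by norm_num) (by norm_num) (by norm_num)

end Sok.R2
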