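import Pool.Agent.Lib.MP_816dec_an.R2Defs

/-!
MP_816dec_an (row R2): a kernel-checkable test for the numeric conditions `Ok` of the class theorem.
`NumQ`, `AuxQ`: rational classes; `okB N A = true` implies `Ok N.num A.aux`.
-/

set_option autoImplicit false
set_option linter.unusedTactic false

namespace Sok.R2

/-! ### lower bounds of `exp` -/

/-- `hs t n m = 1 + t/m (1 + t/(m+1) (1 + ...))`, `n` steps. -/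
def hs {K : Type} [Field K] (t : K) : ℕ → ℕ → K
  | 0, _ => 1
  | n + 1, m => 1 + t / (m : K) * hs t n (m + 1)

theorem hs_cast (t : ℚ) (n m : ℕ) : ((hs t n m : ℚ) : ℝ) = hs (t : ℝ) n m := by
  induction n generalizing m with
  | zero => simp [hs]
  | succ n ih =>
    simp only [hs]
    push_cast
    rw [ih]

theorem hs_sum (t : ℝ) (n m : ℕ) :
    hs t n (m + 1) * (t ^ m / m.factorial) + ∑ i ∈ Finset.range m, t ^ i / (i.factorial : ℝ) =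
      ∑ i ∈ Finset.range (m + n + 1), t ^ i / (i.factorial : ℝ) := by
  induction n generalizing m with
  | zero =>
    rw [add_zero, Finset.sum_range_succ]
    simp only [hs]
    ring
  | succ n ih =>
    have h1 := ih (m + 1)
    have h2 : m + 1 + n + 1 = m + (n + 1) + 1 := by ring
    rw [h2] at h1
    rw [← h1, Finset.sum_range_succ]
    simp only [hs]
    have h3 : ((m + 1).factorial : ℝ) = ((m : ℝ) + 1) * m.factorial := by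
      rw [Nat.factorial_succ]
      push_cast
      ring
    have h4 : (m.factorial : ℝ) ≠ 0 := by exact_mod_cast m.factorial_ne_zero
    have h5 : (m : ℝ) + 1 ≠ 0 := by positivity
    rw [h3]
    push_cast
    field_simp
    ring

theorem hs_le_exp {t : ℝ} (ht : 0 ≤ t) (n : ℕ) : hs t n 1 ≤ Real.exp t := by
  have h1 := hs_sum t n 0
  rw [zero_add] at h1
  have h2 : hs t n 1 = ∑ i ∈ Finset.range (0 + n + 1), t ^ i / (i.factorial : ℝ) := by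
    rw [← h1]
    simp
  rw [h2]
  exact Real.sum_le_exp_of_nonneg ht _

/-- The rational check of `EB`. -/
def EBQ (T0 g X : ℚ) : Prop := 0 ≤ g ∧ 0 ≤ X ∧ 1 ≤ X * hs (T0 * g) 34 1

instance (T0 g X : ℚ) : Decidable (EBQ T0 g X) := by unfold EBQ; infer_instance

theorem EBQ.eb {T0 g X : ℚ} (h : EBQ T0 g X) (hT : 0 < T0) : EB (T0 : ℝ) (g : ℝ) (X : ℝ) := by
  obtain ⟨h1, h2, h3⟩ := h
  have h1' : (0 : ℝ) ≤ (g : ℝ) := by exact_mod_cast h1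
  have hT' : (0 : ℝ) < (T0 : ℝ) := by exact_mod_cast hT
  have h2' : (0 : ℝ) ≤ (X : ℝ) := by exact_mod_cast h2
  refine ⟨h1', ?_⟩
  have h4 : (1 : ℝ) ≤ (X : ℝ) * hs ((T0 * g : ℚ) : ℝ) 34 1 := by
    rw [← hs_cast]
    exact_mod_cast h3
  have h5 : (0 : ℝ) ≤ (T0 : ℝ) * (g : ℝ) := by positivity
  have h6 := hs_le_exp h5 34
  have h7 : (1 : ℝ) ≤ (X : ℝ) * Real.exp ((T0 : ℝ) * (g : ℝ)) := by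
    refine h4.trans ?_
    push_cast
    exact mul_le_mul_of_nonneg_left h6 h2'
  rw [Real.exp_neg, inv_le_iff_one_le_mul₀ (Real.exp_pos _)]
  exact h7

/-! ### rational classes -/

/-- the numbers of a class, rational -/
structure NumQ where
  (a T0 z2 qL qR z4 : ℚ)
  (u0 l1 c0 c1 : ℚ)
  (S C K2 K3 τ τ6 : ℚ)
  (Sm Cm Km Km2 τm : ℚ)
  (Sr Cr Kr : ℚ)
  (δ0 δ1 μ : ℚ)
  (P2 P3 P4 Pm Pm2 Pm3 : ℚ)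
  (f02 f0L f1R e12 e1L e1R e0L e0R e04 : ℚ)

/-- the real numbers of a rational class -/
noncomputable def NumQ.num (q : NumQ) : Num where
  a := q.a
  T0 := q.T0
  z2 := q.z2
  qL := q.qL
  qR := q.qR
  z4 := q.z4
  u0 := q.u0
  l1 := q.l1
  c0 := q.c0
  c1 := q.c1
  S := q.S
  C := q.C
  K2 := q.K2
  K3 := q.K3
  τ := q.τ
  τ6 := q.τ6
  Sm := q.Sm
  Cm := q.Cm
  Km := q.Km
  Km2 := q.Km2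
  τm := q.τm
  Sr := q.Sr
  Cr := q.Cr
  Kr := q.Kr
  δ0 := q.δ0
  δ1 := q.δ1
  μ := q.μ
  P2 := q.P2
  P3 := q.P3
  P4 := q.P4
  Pm := q.Pm
  Pm2 := q.Pm2
  Pm3 := q.Pm3
  f02 := q.f02
  f0L := q.f0L
  f1R := q.f1R
  e12 := q.e12
  e1L := q.e1L
  e1R := q.e1R
  e0L := q.e0L
  e0R := q.e0R
  e04 := q.e04

/-- the auxiliary numbers, rational -/
structure AuxQ where
  (η ρ ρm : ℚ)
  (A1 A2 A3 A4 : ℚ)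
  (B1 B2 B3 B4 : ℚ)
  (X2 Y1 Xm Y0 : ℚ)
  (D1 D2 D3 D4 : ℚ)
  (F1 F2 F3 F4 : ℚ)
  (M2 M3 Mm Mm2 Q2 Q3 Q4 Qm Qm2 Qm3 S1 S2 : ℚ)

/-- the real auxiliary numbers -/
noncomputable def AuxQ.aux (q : AuxQ) : Aux where
  η := q.η
  ρ := q.ρ
  ρm := q.ρm
  A1 := q.A1
  A2 := q.A2
  A3 := q.A3
  A4 := q.A4
  B1 := q.B1
  B2 := q.B2
  B3 := q.B3
  B4 := q.B4
  X2 := q.X2
  Y1 := q.Y1
  Xm := q.Xm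
  Y0 := q.Y0
  D1 := q.D1
  D2 := q.D2
  D3 := q.D3
  D4 := q.D4
  F1 := q.F1
  F2 := q.F2
  F3 := q.F3
  F4 := q.F4
  M2 := q.M2
  M3 := q.M3
  Mm := q.Mm
  Mm2 := q.Mm2
  Q2 := q.Q2
  Q3 := q.Q3
  Q4 := q.Q4
  Qm := q.Qm
  Qm2 := q.Qm2
  Qm3 := q.Qm3
  S1 := q.S1
  S2 := q.S2

/-- the rational form of `Ok` -/
structure OkQ (N : NumQ) (A : AuxQ) : Prop where
  ord : 0 < N.T0 ∧ 1 < N.a ∧ N.a ^ 2 < 5 ∧ -1 ≤ N.z2 ∧ N.z2 ≤ N.qL ∧ N.qL < N.qR ∧ N.qR ≤ N.z4 ∧ N.z4 ≤ 0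
  pos : 0 < N.u0 ∧ 0 < N.l1 ∧ 0 < N.c0 ∧ 0 < N.c1 ∧ 0 ≤ N.K2 ∧ 0 ≤ N.K3 ∧ 0 ≤ N.Km ∧ 0 ≤ N.Km2 ∧ 0 ≤ N.Kr
  pos2 : 0 ≤ N.τ ∧ N.τ ≤ N.τ6 ∧ 0 ≤ N.τm ∧ 0 ≤ N.S ∧ 0 ≤ N.Sm ∧ 0 ≤ N.Sr
  pos3 : 0 ≤ N.δ0 ∧ 0 ≤ N.δ1 ∧ 0 ≤ N.P2 ∧ 0 ≤ N.P3 ∧ 0 ≤ N.P4 ∧ 0 ≤ N.Pm ∧ 0 ≤ N.Pm2 ∧ 0 ≤ N.Pm3
  ρ : EBQ N.T0 N.S A.ρ
  ρm : EBQ N.T0 N.Sm A.ρm
  A1 : EBQ N.T0 (N.f02 - N.e12) A.A1
  A2 : EBQ N.T0 (N.S - N.C) A.A2 ∧ EBQ N.T0 (N.S * (2 + N.z2) - N.C - N.e12) A.A2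
  A3 : EBQ N.T0 (N.Sm * (1 - N.z2) - N.Cm - N.e12) A.A3
  A4 : EBQ N.T0 (1 / 2 - N.e12) A.A4
  r1 : N.u0 * A.A1 + N.K2 * (A.A2 + N.τ * A.A4) + 5 / 4 * (N.K3 * (A.A2 * A.ρ + N.τ * A.A4)) +
    N.Km * (A.A3 + N.τm * A.A4) + 5 / 4 * (N.Km2 * (A.A3 * A.ρm + N.τm * A.A4)) < N.l1
  B1 : EBQ N.T0 (N.f0L - N.e1L) A.B1
  B2 : EBQ N.T0 (N.S * (2 + N.z2) - N.C - N.e12) A.B2 ∧ EBQ N.T0 (N.S * (2 + N.qL) - N.C - N.e1L) A.B2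
  B3 : EBQ N.T0 (N.Sm * (1 - N.qL) - N.Cm - N.e1L) A.B3
  B4 : EBQ N.T0 (1 / 2 - N.e1L) A.B4
  r2 : N.u0 * A.B1 + N.K2 * (A.B2 + N.τ * A.B4) + 5 / 4 * (N.K3 * (A.B2 * A.ρ + N.τ * A.B4)) +
    N.Km * (A.B3 + N.τm * A.B4) + 5 / 4 * (N.Km2 * (A.B3 * A.ρm + N.τm * A.B4)) < N.l1
  X2 : EBQ N.T0 (N.S * (2 + N.qL) - N.C - N.e1L) A.X2 ∧ EBQ N.T0 (N.S * (2 + N.qR) - N.C - N.e1R) A.X2
  Y1 : EBQ N.T0 (1 / 2 - N.e1R) A.Y1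
  Xm : EBQ N.T0 (N.Sm * (1 - N.qR) - N.Cm - N.e0R) A.Xm ∧ EBQ N.T0 (N.Sm * (1 - N.qL) - N.Cm - N.e0L) A.Xm
  Y0 : EBQ N.T0 (1 / 2 - N.e0L) A.Y0
  r3 : (N.K2 * (A.X2 + N.τ * A.Y1) + 5 / 4 * (N.K3 * (A.X2 * A.ρ + N.τ * A.Y1))) / N.l1 +
    (N.Km * (A.Xm + N.τm * A.Y0) + 5 / 4 * (N.Km2 * (A.Xm * A.ρm + N.τm * A.Y0))) / N.c0 ≤ A.η
  hη : 1 < N.a * (1 - A.η)
  D1 : EBQ N.T0 (N.f1R - N.e0R) A.D1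
  D2 : EBQ N.T0 (N.S * (2 + N.qR) - N.C - N.e0R) A.D2
  D3 : EBQ N.T0 (N.Sm * (1 - N.qR) - N.Cm - N.e0R) A.D3 ∧ EBQ N.T0 (N.Sm * (1 - N.z4) - N.Cm - N.e04) A.D3
  D4 : EBQ N.T0 (1 / 2 - N.e0R) A.D4
  r4 : N.c1 * A.D1 + N.K2 * (A.D2 + N.τ6 * A.D4) + 5 / 4 * (N.K3 * (A.D2 * A.ρ + N.τ6 * A.D4)) +
    N.Km * (A.D3 + N.τm * A.D4) + 5 / 4 * (N.Km2 * (A.D3 * A.ρm + N.τm * A.D4)) < N.c0
  F1 : EBQ N.T0 (N.Sr * (1 + N.z4) - N.Cr - N.e04) A.F1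
  F2 : EBQ N.T0 (N.S * (2 + N.z4) - N.C - N.e04) A.F2
  F3 : EBQ N.T0 (N.Sm * (1 - N.z4) - N.Cm - N.e04) A.F3 ∧ EBQ N.T0 (N.Sm - N.Cm) A.F3
  F4 : EBQ N.T0 (1 / 2 - N.e04) A.F4
  r5 : N.Kr * A.F1 + N.K2 * (A.F2 + N.τ6 * A.F4) + 5 / 4 * (N.K3 * (A.F2 * A.ρ + N.τ6 * A.F4)) +
    N.Km * (A.F3 + N.τm * A.F4) + 5 / 4 * (N.Km2 * (A.F3 * A.ρm + N.τm * A.F4)) < N.c0
  M2 : N.a * N.K2 * (A.X2 + N.τ * A.Y1) ≤ A.M2 * N.l1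
  M3 : N.a ^ 2 * N.K3 * (A.X2 * A.ρ + N.τ * A.Y1) ≤ A.M3 * N.l1
  Mm : N.a * N.Km * (A.Xm + N.τm * A.Y0) ≤ A.Mm * N.c0
  Mm2 : N.a ^ 2 * N.Km2 * (A.Xm * A.ρm + N.τm * A.Y0) ≤ A.Mm2 * N.c0
  Q2 : N.a * N.P2 * (A.X2 + N.τ * A.Y1) ≤ (A.Q2 - A.M2 * (N.δ0 + 2 * N.δ1)) * N.l1
  Q3 : N.a ^ 2 * N.P3 * (A.X2 * A.ρ + N.τ * A.Y1) ≤ (A.Q3 - A.M3 * (2 * N.δ0 + 3 * N.δ1)) * N.l1
  Q4 : N.a ^ 2 * N.P4 * (A.X2 * A.ρ + N.τ * A.Y1) ≤ (A.Q4 - A.M3 * (N.δ0 + N.δ1)) * N.l1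
  Qm : N.a * N.Pm * (A.Xm + N.τm * A.Y0) ≤ (A.Qm - A.Mm * (2 * N.δ0 + N.δ1)) * N.c0
  Qm2 : N.a ^ 2 * N.Pm2 * (A.Xm * A.ρm + N.τm * A.Y0) ≤ (A.Qm2 - A.Mm2 * (3 * N.δ0 + 2 * N.δ1)) * N.c0
  Qm3 : N.a ^ 2 * N.Pm3 * (A.Xm * A.ρm + N.τm * A.Y0) ≤ (A.Qm3 - A.Mm2 * (N.δ0 + N.δ1)) * N.c0
  S1 : 2 * A.M2 * N.a ^ 3 + N.a ^ 4 * A.M3 * (3 / (1 - N.a ^ 2 / 5) + (N.a ^ 2 / 5) / (1 - N.a ^ 2 / 5) ^ 2) +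
    A.Mm * N.a ^ 2 + N.a ^ 3 * A.Mm2 * (2 / (1 - N.a ^ 2 / 5) + (N.a ^ 2 / 5) / (1 - N.a ^ 2 / 5) ^ 2) ≤ A.S1
  S1' : A.S1 < 1
  S2 : A.Q2 * N.a ^ 2 + N.a ^ 3 * (A.Q3 / (1 - N.a ^ 2 / 5) + A.Q4 * (N.a ^ 2 / 5) / (1 - N.a ^ 2 / 5) ^ 2) +
    A.Qm * N.a + N.a ^ 2 * (A.Qm2 / (1 - N.a ^ 2 / 5) + A.Qm3 * (N.a ^ 2 / 5) / (1 - N.a ^ 2 / 5) ^ 2) ≤ A.S2
  fin : N.a * A.S2 < (N.μ - N.δ0 - N.δ1) * (1 - A.S1)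

theorem OkQ.ok {N : NumQ} {A : AuxQ} (h : OkQ N A) : Ok N.num A.aux := by
  have hT := h.ord.1
  constructor
  · obtain ⟨h1, h2, h3, h4, h5, h6, h7, h8⟩ := h.ord
    simp only [NumQ.num]
    refine ⟨?_, ?_, ?_, ?_, ?_, ?_, ?_, ?_⟩ <;> exact_mod_cast ‹_›
  · obtain ⟨h1, h2, h3, h4, h5, h6, h7, h8, h9⟩ := h.pos
    simp only [NumQ.num]
    refine ⟨?_, ?_, ?_, ?_, ?_, ?_, ?_, ?_, ?_⟩ <;> exact_mod_cast ‹_›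
  · obtain ⟨h1, h2, h3, h4, h5, h6⟩ := h.pos2
    simp only [NumQ.num]
    refine ⟨?_, ?_, ?_, ?_, ?_, ?_⟩ <;> exact_mod_cast ‹_›
  · obtain ⟨h1, h2, h3, h4, h5, h6, h7, h8⟩ := h.pos3
    simp only [NumQ.num]
    refine ⟨?_, ?_, ?_, ?_, ?_, ?_, ?_, ?_⟩ <;> exact_mod_cast ‹_›
  · have h1 := h.ρ.eb hT
    push_cast at h1
    exact h1
  · have h1 := h.ρm.eb hT
    push_cast at h1
    exact h1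
  · have h1 := h.A1.eb hT
    push_cast at h1
    exact h1
  · have h1 := h.A2.1.eb hT
    have h2 := h.A2.2.eb hT
    push_cast at h1 h2
    exact ⟨h1, h2⟩
  · have h1 := h.A3.eb hT
    push_cast at h1
    exact h1
  · have h1 := h.A4.eb hT
    push_cast at h1
    exact h1
  · have h1 := (Rat.cast_lt (K := ℝ)).2 h.r1
    push_cast at h1
    exact h1
  · have h1 := h.B1.eb hT
    push_cast at h1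
    exact h1
  · have h1 := h.B2.1.eb hT
    have h2 := h.B2.2.eb hT
    push_cast at h1 h2
    exact ⟨h1, h2⟩
  · have h1 := h.B3.eb hT
    push_cast at h1
    exact h1
  · have h1 := h.B4.eb hT
    push_cast at h1
    exact h1
  · have h1 := (Rat.cast_lt (K := ℝ)).2 h.r2
    push_cast at h1
    exact h1
  · have h1 := h.X2.1.eb hT
    have h2 := h.X2.2.eb hT
    push_cast at h1 h2
    exact ⟨h1, h2⟩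
  · have h1 := h.Y1.eb hT
    push_cast at h1
    exact h1
  · have h1 := h.Xm.1.eb hT
    have h2 := h.Xm.2.eb hT
    push_cast at h1 h2
    exact ⟨h1, h2⟩
  · have h1 := h.Y0.eb hT
    push_cast at h1
    exact h1
  · have h1 := (Rat.cast_le (K := ℝ)).2 h.r3
    push_cast at h1
    exact h1
  · have h1 := (Rat.cast_lt (K := ℝ)).2 h.hη
    push_cast at h1
    exact h1
  · have h1 := h.D1.eb hT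
    push_cast at h1
    exact h1
  · have h1 := h.D2.eb hT
    push_cast at h1
    exact h1
  · have h1 := h.D3.1.eb hT
    have h2 := h.D3.2.eb hT
    push_cast at h1 h2
    exact ⟨h1, h2⟩
  · have h1 := h.D4.eb hT
    push_cast at h1
    exact h1
  · have h1 := (Rat.cast_lt (K := ℝ)).2 h.r4
    push_cast at h1
    exact h1
  · have h1 := h.F1.eb hT
    push_cast at h1
    exact h1
  · have h1 := h.F2.eb hT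
    push_cast at h1
    exact h1
  · have h1 := h.F3.1.eb hT
    have h2 := h.F3.2.eb hT
    push_cast at h1 h2
    exact ⟨h1, h2⟩
  · have h1 := h.F4.eb hT
    push_cast at h1
    exact h1
  · have h1 := (Rat.cast_lt (K := ℝ)).2 h.r5
    push_cast at h1
    exact h1
  · have h1 := (Rat.cast_le (K := ℝ)).2 h.M2
    push_cast at h1
    exact h1
  · have h1 := (Rat.cast_le (K := ℝ)).2 h.M3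
    push_cast at h1
    exact h1
  · have h1 := (Rat.cast_le (K := ℝ)).2 h.Mm
    push_cast at h1
    exact h1
  · have h1 := (Rat.cast_le (K := ℝ)).2 h.Mm2
    push_cast at h1
    exact h1
  · have h1 := (Rat.cast_le (K := ℝ)).2 h.Q2
    push_cast at h1
    exact h1
  · have h1 := (Rat.cast_le (K := ℝ)).2 h.Q3
    push_cast at h1
    exact h1
  · have h1 := (Rat.cast_le (K := ℝ)).2 h.Q4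
    push_cast at h1
    exact h1
  · have h1 := (Rat.cast_le (K := ℝ)).2 h.Qm
    push_cast at h1
    exact h1
  · have h1 := (Rat.cast_le (K := ℝ)).2 h.Qm2
    push_cast at h1
    exact h1
  · have h1 := (Rat.cast_le (K := ℝ)).2 h.Qm3
    push_cast at h1
    exact h1
  · have h1 := (Rat.cast_le (K := ℝ)).2 h.S1
    push_cast at h1
    exact h1
  · have h1 := (Rat.cast_lt (K := ℝ)).2 h.S1'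
    push_cast at h1
    exact h1
  · have h1 := (Rat.cast_le (K := ℝ)).2 h.S2
    push_cast at h1
    exact h1
  · have h1 := (Rat.cast_lt (K := ℝ)).2 h.fin
    push_cast at h1
    exact h1

/-- conditions, part 0 -/
def OkG0 (N : NumQ) (A : AuxQ) : Prop :=
    (0 < N.T0 ∧ 1 < N.a ∧ N.a ^ 2 < 5 ∧ -1 ≤ N.z2 ∧ N.z2 ≤ N.qL ∧ N.qL < N.qR ∧ N.qR ≤ N.z4 ∧ N.z4 ≤ 0) ∧
    (0 < N.u0 ∧ 0 < N.l1 ∧ 0 < N.c0 ∧ 0 < N.c1 ∧ 0 ≤ N.K2 ∧ 0 ≤ N.K3 ∧ 0 ≤ N.Km ∧ 0 ≤ N.Km2 ∧ 0 ≤ N.Kr) ∧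
    (0 ≤ N.τ ∧ N.τ ≤ N.τ6 ∧ 0 ≤ N.τm ∧ 0 ≤ N.S ∧ 0 ≤ N.Sm ∧ 0 ≤ N.Sr) ∧
    (0 ≤ N.δ0 ∧ 0 ≤ N.δ1 ∧ 0 ≤ N.P2 ∧ 0 ≤ N.P3 ∧ 0 ≤ N.P4 ∧ 0 ≤ N.Pm ∧ 0 ≤ N.Pm2 ∧ 0 ≤ N.Pm3) ∧
    (EBQ N.T0 N.S A.ρ) ∧
    (EBQ N.T0 N.Sm A.ρm)

instance (N : NumQ) (A : AuxQ) : Decidable (OkG0 N A) := by unfold OkG0; infer_instance

/-- conditions, part 1 -/
def OkG1 (N : NumQ) (A : AuxQ) : Prop :=
    (EBQ N.T0 (N.f02 - N.e12) A.A1) ∧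
    (EBQ N.T0 (N.S - N.C) A.A2 ∧ EBQ N.T0 (N.S * (2 + N.z2) - N.C - N.e12) A.A2) ∧
    (EBQ N.T0 (N.Sm * (1 - N.z2) - N.Cm - N.e12) A.A3) ∧
    (EBQ N.T0 (1 / 2 - N.e12) A.A4) ∧
    (N.u0 * A.A1 + N.K2 * (A.A2 + N.τ * A.A4) + 5 / 4 * (N.K3 * (A.A2 * A.ρ + N.τ * A.A4)) + N.Km * (A.A3 + N.τm * A.A4) + 5 / 4 * (N.Km2 * (A.A3 * A.ρm + N.τm * A.A4)) < N.l1) ∧
    (EBQ N.T0 (N.f0L - N.e1L) A.B1)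

instance (N : NumQ) (A : AuxQ) : Decidable (OkG1 N A) := by unfold OkG1; infer_instance

/-- conditions, part 2 -/
def OkG2 (N : NumQ) (A : AuxQ) : Prop :=
    (EBQ N.T0 (N.S * (2 + N.z2) - N.C - N.e12) A.B2 ∧ EBQ N.T0 (N.S * (2 + N.qL) - N.C - N.e1L) A.B2) ∧
    (EBQ N.T0 (N.Sm * (1 - N.qL) - N.Cm - N.e1L) A.B3) ∧
    (EBQ N.T0 (1 / 2 - N.e1L) A.B4) ∧
    (N.u0 * A.B1 + N.K2 * (A.B2 + N.τ * A.B4) + 5 / 4 * (N.K3 * (A.B2 * A.ρ + N.τ * A.B4)) + N.Km * (A.B3 + N.τm * A.B4) + 5 / 4 * (N.Km2 * (A.B3 * A.ρm + N.τm * A.B4)) < N.l1) ∧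
    (EBQ N.T0 (N.S * (2 + N.qL) - N.C - N.e1L) A.X2 ∧ EBQ N.T0 (N.S * (2 + N.qR) - N.C - N.e1R) A.X2) ∧
    (EBQ N.T0 (1 / 2 - N.e1R) A.Y1)

instance (N : NumQ) (A : AuxQ) : Decidable (OkG2 N A) := by unfold OkG2; infer_instance

/-- conditions, part 3 -/
def OkG3 (N : NumQ) (A : AuxQ) : Prop :=
    (EBQ N.T0 (N.Sm * (1 - N.qR) - N.Cm - N.e0R) A.Xm ∧ EBQ N.T0 (N.Sm * (1 - N.qL) - N.Cm - N.e0L) A.Xm) ∧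
    (EBQ N.T0 (1 / 2 - N.e0L) A.Y0) ∧
    ((N.K2 * (A.X2 + N.τ * A.Y1) + 5 / 4 * (N.K3 * (A.X2 * A.ρ + N.τ * A.Y1))) / N.l1 + (N.Km * (A.Xm + N.τm * A.Y0) + 5 / 4 * (N.Km2 * (A.Xm * A.ρm + N.τm * A.Y0))) / N.c0 ≤ A.η) ∧
    (1 < N.a * (1 - A.η)) ∧
    (EBQ N.T0 (N.f1R - N.e0R) A.D1) ∧
    (EBQ N.T0 (N.S * (2 + N.qR) - N.C - N.e0R) A.D2)

instance (N : NumQ) (A : AuxQ) : Decidable (OkG3 N A) := by unfold OkG3; infer_instance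

/-- conditions, part 4 -/
def OkG4 (N : NumQ) (A : AuxQ) : Prop :=
    (EBQ N.T0 (N.Sm * (1 - N.qR) - N.Cm - N.e0R) A.D3 ∧ EBQ N.T0 (N.Sm * (1 - N.z4) - N.Cm - N.e04) A.D3) ∧
    (EBQ N.T0 (1 / 2 - N.e0R) A.D4) ∧
    (N.c1 * A.D1 + N.K2 * (A.D2 + N.τ6 * A.D4) + 5 / 4 * (N.K3 * (A.D2 * A.ρ + N.τ6 * A.D4)) + N.Km * (A.D3 + N.τm * A.D4) + 5 / 4 * (N.Km2 * (A.D3 * A.ρm + N.τm * A.D4)) < N.c0) ∧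
    (EBQ N.T0 (N.Sr * (1 + N.z4) - N.Cr - N.e04) A.F1) ∧
    (EBQ N.T0 (N.S * (2 + N.z4) - N.C - N.e04) A.F2) ∧
    (EBQ N.T0 (N.Sm * (1 - N.z4) - N.Cm - N.e04) A.F3 ∧ EBQ N.T0 (N.Sm - N.Cm) A.F3)

instance (N : NumQ) (A : AuxQ) : Decidable (OkG4 N A) := by unfold OkG4; infer_instance

/-- conditions, part 5 -/
def OkG5 (N : NumQ) (A : AuxQ) : Prop :=
    (EBQ N.T0 (1 / 2 - N.e04) A.F4) ∧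
    (N.Kr * A.F1 + N.K2 * (A.F2 + N.τ6 * A.F4) + 5 / 4 * (N.K3 * (A.F2 * A.ρ + N.τ6 * A.F4)) + N.Km * (A.F3 + N.τm * A.F4) + 5 / 4 * (N.Km2 * (A.F3 * A.ρm + N.τm * A.F4)) < N.c0) ∧
    (N.a * N.K2 * (A.X2 + N.τ * A.Y1) ≤ A.M2 * N.l1) ∧
    (N.a ^ 2 * N.K3 * (A.X2 * A.ρ + N.τ * A.Y1) ≤ A.M3 * N.l1) ∧
    (N.a * N.Km * (A.Xm + N.τm * A.Y0) ≤ A.Mm * N.c0) ∧
    (N.a ^ 2 * N.Km2 * (A.Xm * A.ρm + N.τm * A.Y0) ≤ A.Mm2 * N.c0)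

instance (N : NumQ) (A : AuxQ) : Decidable (OkG5 N A) := by unfold OkG5; infer_instance

/-- conditions, part 6 -/
def OkG6 (N : NumQ) (A : AuxQ) : Prop :=
    (N.a * N.P2 * (A.X2 + N.τ * A.Y1) ≤ (A.Q2 - A.M2 * (N.δ0 + 2 * N.δ1)) * N.l1) ∧
    (N.a ^ 2 * N.P3 * (A.X2 * A.ρ + N.τ * A.Y1) ≤ (A.Q3 - A.M3 * (2 * N.δ0 + 3 * N.δ1)) * N.l1) ∧
    (N.a ^ 2 * N.P4 * (A.X2 * A.ρ + N.τ * A.Y1) ≤ (A.Q4 - A.M3 * (N.δ0 + N.δ1)) * N.l1) ∧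
    (N.a * N.Pm * (A.Xm + N.τm * A.Y0) ≤ (A.Qm - A.Mm * (2 * N.δ0 + N.δ1)) * N.c0) ∧
    (N.a ^ 2 * N.Pm2 * (A.Xm * A.ρm + N.τm * A.Y0) ≤ (A.Qm2 - A.Mm2 * (3 * N.δ0 + 2 * N.δ1)) * N.c0) ∧
    (N.a ^ 2 * N.Pm3 * (A.Xm * A.ρm + N.τm * A.Y0) ≤ (A.Qm3 - A.Mm2 * (N.δ0 + N.δ1)) * N.c0)

instance (N : NumQ) (A : AuxQ) : Decidable (OkG6 N A) := by unfold OkG6; infer_instance

/-- conditions, part 7 -/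
def OkG7 (N : NumQ) (A : AuxQ) : Prop :=
    (2 * A.M2 * N.a ^ 3 + N.a ^ 4 * A.M3 * (3 / (1 - N.a ^ 2 / 5) + (N.a ^ 2 / 5) / (1 - N.a ^ 2 / 5) ^ 2) + A.Mm * N.a ^ 2 + N.a ^ 3 * A.Mm2 * (2 / (1 - N.a ^ 2 / 5) + (N.a ^ 2 / 5) / (1 - N.a ^ 2 / 5) ^ 2) ≤ A.S1) ∧
    (A.S1 < 1) ∧
    (A.Q2 * N.a ^ 2 + N.a ^ 3 * (A.Q3 / (1 - N.a ^ 2 / 5) + A.Q4 * (N.a ^ 2 / 5) / (1 - N.a ^ 2 / 5) ^ 2) + A.Qm * N.a + N.a ^ 2 * (A.Qm2 / (1 - N.a ^ 2 / 5) + A.Qm3 * (N.a ^ 2 / 5) / (1 - N.a ^ 2 / 5) ^ 2) ≤ A.S2) ∧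
    (N.a * A.S2 < (N.μ - N.δ0 - N.δ1) * (1 - A.S1))

instance (N : NumQ) (A : AuxQ) : Decidable (OkG7 N A) := by unfold OkG7; infer_instance

/-- the check -/
def okB (N : NumQ) (A : AuxQ) : Bool :=
  decide (OkG0 N A) && decide (OkG1 N A) && decide (OkG2 N A) && decide (OkG3 N A) && decide (OkG4 N A) && decide (OkG5 N A) && decide (OkG6 N A) && decide (OkG7 N A)

theorem okQ_of_okB {N : NumQ} {A : AuxQ} (h : okB N A = true) : OkQ N A := by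
  simp only [okB, Bool.and_eq_true, decide_eq_true_eq] at h
  obtain ⟨⟨⟨⟨⟨⟨⟨g0, g1⟩, g2⟩, g3⟩, g4⟩, g5⟩, g6⟩, g7⟩ := h
  obtain ⟨h0_0, h0_1, h0_2, h0_3, h0_4, h0_5⟩ := g0
  obtain ⟨h1_0, h1_1, h1_2, h1_3, h1_4, h1_5⟩ := g1
  obtain ⟨h2_0, h2_1, h2_2, h2_3, h2_4, h2_5⟩ := g2
  obtain ⟨h3_0, h3_1, h3_2, h3_3, h3_4, h3_5⟩ := g3
  obtain ⟨h4_0, h4_1, h4_2, h4_3, h4_4, h4_5⟩ := g4
  obtain ⟨h5_0, h5_1, h5_2, h5_3, h5_4, h5_5⟩ := g5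
  obtain ⟨h6_0, h6_1, h6_2, h6_3, h6_4, h6_5⟩ := g6
  obtain ⟨h7_0, h7_1, h7_2, h7_3⟩ := g7
  exact ⟨h0_0, h0_1, h0_2, h0_3, h0_4, h0_5, h1_0, h1_1, h1_2, h1_3, h1_4, h1_5, h2_0, h2_1, h2_2, h2_3, h2_4, h2_5, h3_0, h3_1, h3_2, h3_3, h3_4, h3_5, h4_0, h4_1, h4_2, h4_3, h4_4, h4_5, h5_0, h5_1, h5_2, h5_3, h5_4, h5_5, h6_0, h6_1, h6_2, h6_3, h6_4, h6_5, h7_0, h7_1, h7_2, h7_3⟩

theorem ok_of_okB {N : NumQ} {A : AuxQ} (h : okB N A = true) : Ok N.num A.aux :=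
  (okQ_of_okB h).ok

end Sok.R2
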