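import Pool.Agent.Lib.MP_816dec_an.R2Defs
import Pool.Agent.Lib.MP_816dec_an.R2Line

/-!
MP_816dec_an (row R2, item (4)): second differences of the saddle points, definitions.
`t_k = -κ + (k + z) h`, `σ_k = sx + i sy`, `φ_k = sx κ t_k + t_k = arctan (y_k / x_k)`, `u = (1 + κ²) / (κ h)`.
-/

set_option autoImplicit false

open Set Filter Topology Real

namespace Sok.R2

/-- the angle of window `k`, in terms of `κ` -/
noncomputable def tz (b : ℕ) (κ : ℝ) (k : ℤ) (z : ℝ) : ℝ := -κ + (k + z) * hh b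

theorem tk_eq_tz (b : ℕ) (β r : ℝ) (k : ℤ) (z : ℝ) : tk b β r k z = tz b (β * r) k z := rfl

/-- the argument of the saddle -/
noncomputable def ph (κ t : ℝ) : ℝ := sx κ t + t

/-- bounds of the slopes `sn` on `[qL, qR]` -/
structure SecY (b : ℕ) (κ : ℝ) (N : Num) (a1 a0 b1 dI2 dIm Sig : ℝ) : Prop where
  a1 : ∀ z ∈ Icc N.qL N.qR, sn b κ (z + 1) ≤ a1
  b1 : ∀ z ∈ Icc N.qL N.qR, b1 ≤ sn b κ (z + 1)
  a0 : ∀ z ∈ Icc N.qL N.qR, -sn b κ z ≤ a0
  i2 : ∀ z ∈ Icc N.qL N.qR, |N.S - (2 * sn b κ (z + 1) - sn b κ z)| ≤ dI2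
  im : ∀ z ∈ Icc N.qL N.qR, |N.Sm - (sn b κ (z + 1) - 2 * sn b κ z)| ≤ dIm
  sg : ∀ z ∈ Icc N.qL N.qR, sn b κ (z + 1) - sn b κ z ≤ Sig

/-- second differences of the saddle points; `w` is the argument of the saddle of the far line at height `v` -/
structure SecD (b : ℕ) (κ : ℝ) (N : Num) (D2 Dm Sg : ℝ) : Prop where
  d2 : ∀ z ∈ Icc N.qL N.qR, ∀ v w : ℝ, (1 + κ ^ 2) * v = κ * (hh b * N.S) → w = arctan (v / Xk κ v) →
    |w - (2 * ph κ (tz b κ 1 z) - ph κ (tz b κ 0 z))| +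
      |v - (2 * sy κ (tz b κ 1 z) - sy κ (tz b κ 0 z))| ≤ D2 * (κ * hh b / (1 + κ ^ 2))
  dm : ∀ z ∈ Icc N.qL N.qR, ∀ v w : ℝ, (1 + κ ^ 2) * v = -(κ * (hh b * N.Sm)) → w = arctan (v / Xk κ v) →
    |w - (2 * ph κ (tz b κ 0 z) - ph κ (tz b κ 1 z))| +
      |v - (2 * sy κ (tz b κ 0 z) - sy κ (tz b κ 1 z))| ≤ Dm * (κ * hh b / (1 + κ ^ 2))
  sg : ∀ z ∈ Icc N.qL N.qR,
    (ph κ (tz b κ 1 z) - ph κ (tz b κ 0 z)) + (sy κ (tz b κ 1 z) - sy κ (tz b κ 0 z)) ≤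
      Sg * (κ * hh b / (1 + κ ^ 2))

/-- `u y₁ = sn (z + 1)` -/
theorem sy_one {b : ℕ} {κ z : ℝ} (hκ : 1 ≤ κ) (hb : 0 < hh b) :
    sy κ (tz b κ 1 z) = sn b κ (z + 1) * (κ * hh b / (1 + κ ^ 2)) := by
  have e : tz b κ 1 z = (z + 1) * hh b - κ := by unfold tz; push_cast; ring
  rw [e]
  unfold sn yv
  have h1 : (0 : ℝ) < 1 + κ ^ 2 := by positivity
  have h2 : κ ≠ 0 := by linarith
  field_simp

/-- `u y₀ = sn z` -/
theorem sy_zero' {b : ℕ} {κ z : ℝ} (hκ : 1 ≤ κ) (hb : 0 < hh b) :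
    sy κ (tz b κ 0 z) = sn b κ z * (κ * hh b / (1 + κ ^ 2)) := by
  have e : tz b κ 0 z = z * hh b - κ := by unfold tz; push_cast; ring
  rw [e]
  unfold sn yv
  have h1 : (0 : ℝ) < 1 + κ ^ 2 := by positivity
  have h2 : κ ≠ 0 := by linarith
  field_simp

/-- the argument of a saddle -/
theorem ph_eq {κ t : ℝ} (h : DomR κ t) : ph κ t = arctan (sy κ t / sx κ t) := by
  rw [s_arctan h]
  unfold ph
  ring

/-- sine and cosine of the argument -/
theorem sin_arctan_Xk {κ y : ℝ} (h : Iy κ y) :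
    κ * sin (arctan (y / Xk κ y)) = y * exp y ∧ κ * cos (arctan (y / Xk κ y)) = Xk κ y * exp y := by
  have hx := h.xpos
  have hk := h.kpos
  have hE := exp_pos y
  have h1 : 1 + (y / Xk κ y) ^ 2 = (κ * exp (-y) / Xk κ y) ^ 2 := by
    have h2 := x_sq_add h
    have h3 : exp (-2 * y) = exp (-y) ^ 2 := by
      rw [← Real.exp_nat_mul]
      congr 1
      push_cast
      ring
    rw [h3] at h2
    rw [div_pow, div_pow, mul_pow]
    field_simp
    linarith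
  have h4 : sqrt (1 + (y / Xk κ y) ^ 2) = κ * exp (-y) / Xk κ y := by
    rw [h1, sqrt_sq (by positivity)]
  have h5 : exp (-y) = (exp y)⁻¹ := exp_neg y
  constructor
  · rw [Real.sin_arctan, h4, h5]
    field_simp
  · rw [Real.cos_arctan, h4, h5]
    field_simp

/-- the argument from the equation `κ sin w = v e^v` -/
theorem w_of_sin {κ v w : ℝ} (h : Iy κ v) (hw : |w| < π / 2) (hs : κ * sin w = v * exp v) :
    w = arctan (v / Xk κ v) := by
  have hk := h.kpos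
  have h1 := (sin_arctan_Xk h).1
  have h2 : sin w = sin (arctan (v / Xk κ v)) := by
    have : κ * sin w = κ * sin (arctan (v / Xk κ v)) := by rw [hs, h1]
    exact mul_left_cancel₀ hk.ne' this
  rw [abs_lt] at hw
  exact Real.injOn_sin ⟨by linarith, by linarith⟩
    ⟨(Real.neg_pi_div_two_lt_arctan _).le, (Real.arctan_lt_pi_div_two _).le⟩ h2

end Sok.R2
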