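import Pool.Agent.Lib.MP_816dec_an.R2SecDefs

/-!
MP_816dec_an (row R2, item (4)): second differences of the saddle points, the arguments, general part.
-/

set_option autoImplicit false

open Set Filter Topology Real

namespace Sok.R2

private theorem arctan_le' {w : ℝ} (hw : 0 ≤ w) : arctan w ≤ w := by
  have h := Real.le_tan (x := arctan w) (by rw [← arctan_zero]; exact arctan_mono hw)
    (arctan_lt_pi_div_two w)
  rwa [tan_arctan] at h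

private theorem kq_le {k1 κ : ℝ} (h1 : 1 ≤ k1) (h : k1 ≤ κ) : κ / (1 + κ ^ 2) ≤ k1 / (1 + k1 ^ 2) := by
  rw [div_le_div_iff₀ (by positivity) (by positivity)]
  have h2 : 0 ≤ (κ - k1) * (κ * k1 - 1) := mul_nonneg (by linarith) (by nlinarith)
  nlinarith

/-- upper bound of the argument, `y ≥ 0` -/
theorem phi_pos {k1 κ h H s F p y : ℝ} (hk1 : 1 ≤ k1) (hκ : k1 ≤ κ) (hh : 0 < h) (hH : h ≤ H)
    (hs : 0 ≤ s) (hF : exp (2 * (s * H * (k1 / (1 + k1 ^ 2)))) ≤ F) (hp : 0 ≤ p)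
    (hb : F * (s * H / (1 + k1 ^ 2)) ^ 2 < 1)
    (hc : s ^ 2 * F ≤ p ^ 2 * k1 ^ 2 * (1 - F * (s * H / (1 + k1 ^ 2)) ^ 2))
    (hy0 : 0 ≤ y) (hy : y ≤ s * (κ * h / (1 + κ ^ 2))) :
    Iy κ y ∧ arctan (y / Xk κ y) ≤ p * (κ * h / (1 + κ ^ 2)) := by
  obtain ⟨q, hq⟩ : ∃ q, q = κ * h / (1 + κ ^ 2) := ⟨_, rfl⟩
  rw [← hq] at hy ⊢
  have hk : 1 ≤ κ := hk1.trans hκ
  have hk0 : 0 < κ := by linarith
  have hq0 : 0 < q := by rw [hq]; positivity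
  have hFp : 0 < F := lt_of_lt_of_le (exp_pos _) hF
  have hqe : q = κ / (1 + κ ^ 2) * h := by rw [hq]; ring
  have hk2 : k1 ^ 2 ≤ κ ^ 2 := pow_le_pow_left₀ (by linarith) hκ 2
  have hsq : s * q ≤ s * H * (k1 / (1 + k1 ^ 2)) := by
    rw [hqe]
    have h1 := mul_le_mul (kq_le hk1 hκ) hH hh.le (by positivity : 0 ≤ k1 / (1 + k1 ^ 2))
    have h2 := mul_le_mul_of_nonneg_left h1 hs
    linarith
  have hE : exp (2 * y) ≤ F := (exp_le_exp.2 (by linarith)).trans hF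
  have hE0 := exp_pos (2 * y)
  obtain ⟨B, hB⟩ : ∃ B, B = (s * H / (1 + k1 ^ 2)) ^ 2 := ⟨_, rfl⟩
  rw [← hB] at hb hc
  have hsqB : (s * q) ^ 2 ≤ κ ^ 2 * B := by
    have e1 : s * q = κ * (s * h / (1 + κ ^ 2)) := by rw [hq]; ring
    rw [e1, hB, mul_pow]
    have h3 : s * h / (1 + κ ^ 2) ≤ s * H / (1 + k1 ^ 2) :=
      div_le_div₀ (mul_nonneg hs (hh.le.trans hH)) (mul_le_mul_of_nonneg_left hH hs) (by positivity)
        (by linarith)
    exact mul_le_mul_of_nonneg_left (pow_le_pow_left₀ (by positivity) h3 2) (by positivity)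
  have hyB : y ^ 2 ≤ κ ^ 2 * B := (pow_le_pow_left₀ hy0 hy 2).trans hsqB
  have hI : Iy κ y := by
    refine ⟨?_, Or.inl ?_⟩
    · rw [abs_of_nonneg hy0]
      have h1 : (y * exp y) ^ 2 < κ ^ 2 := by
        have e : exp y ^ 2 = exp (2 * y) := by rw [← Real.exp_nat_mul]; congr 1
        rw [mul_pow, e]
        calc y ^ 2 * exp (2 * y) ≤ (κ ^ 2 * B) * F :=
              mul_le_mul hyB hE hE0.le (by rw [hB]; positivity)
          _ = κ ^ 2 * (F * B) := by ring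
          _ < κ ^ 2 * 1 := mul_lt_mul_of_pos_left hb (by positivity)
          _ = κ ^ 2 := mul_one _
      exact lt_of_pow_lt_pow_left₀ 2 hk0.le h1
    · have : exp (-1 : ℝ) < 1 := by rw [exp_lt_one_iff]; norm_num
      linarith
  refine ⟨hI, ?_⟩
  have hX := hI.xpos
  have hX2 := x_sq_add hI
  have e2 : exp (-2 * y) = (exp (2 * y))⁻¹ := by rw [← exp_neg]; congr 1; ring
  have h1 : 1 ≤ F * exp (-2 * y) := by
    rw [e2, ← div_eq_mul_inv, le_div_iff₀ hE0]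
    linarith
  have h2 : κ ^ 2 * (1 - F * B) ≤ F * Xk κ y ^ 2 := by
    have h3 : F * y ^ 2 ≤ F * (κ ^ 2 * B) := mul_le_mul_of_nonneg_left hyB hFp.le
    have h4 : κ ^ 2 * 1 ≤ κ ^ 2 * (F * exp (-2 * y)) := mul_le_mul_of_nonneg_left h1 (by positivity)
    nlinarith
  have h5 : k1 ^ 2 * (1 - F * B) ≤ F * Xk κ y ^ 2 :=
    (mul_le_mul_of_nonneg_right hk2 (by linarith)).trans h2
  have h6 : s ^ 2 * F ≤ p ^ 2 * (F * Xk κ y ^ 2) := by
    refine hc.trans ?_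
    rw [mul_assoc]
    exact mul_le_mul_of_nonneg_left h5 (by positivity)
  have h7 : s ^ 2 ≤ (p * Xk κ y) ^ 2 := by
    have : s ^ 2 * F ≤ (p * Xk κ y) ^ 2 * F := by rw [mul_pow]; linarith
    exact le_of_mul_le_mul_right this hFp
  have h8 : s ≤ p * Xk κ y := (pow_le_pow_iff_left₀ hs (by positivity) two_ne_zero).1 h7
  refine (arctan_le' (by positivity)).trans ?_
  rw [div_le_iff₀ hX]
  calc y ≤ s * q := hy
    _ ≤ (p * Xk κ y) * q := mul_le_mul_of_nonneg_right h8 hq0.le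
    _ = p * q * Xk κ y := by ring

/-- `κ e^{cκ/(1+κ²)}` is increasing if `c k1 / (1 + k1²) ≤ 1` -/
private theorem ke_mono {k1 κ c : ℝ} (hk1 : 1 ≤ k1) (hκ : k1 ≤ κ)
    (hc : c * (k1 / (1 + k1 ^ 2)) ≤ 1) :
    k1 * exp (c * (k1 / (1 + k1 ^ 2))) ≤ κ * exp (c * (κ / (1 + κ ^ 2))) := by
  have hk0 : 0 < k1 := by linarith
  have hκ0 : 0 < κ := by linarith
  obtain ⟨δ, hδ⟩ : ∃ δ, δ = c * (k1 / (1 + k1 ^ 2)) - c * (κ / (1 + κ ^ 2)) := ⟨_, rfl⟩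
  have h1 : δ ≤ 1 - k1 / κ := by
    have e : δ = c * (k1 / (1 + k1 ^ 2)) * ((κ - k1) * (κ * k1 - 1) / (k1 * (1 + κ ^ 2))) := by
      rw [hδ]
      field_simp
      ring
    have h2 : 0 ≤ (κ - k1) * (κ * k1 - 1) / (k1 * (1 + κ ^ 2)) :=
      div_nonneg (mul_nonneg (by linarith) (by nlinarith)) (by positivity)
    have h3 : δ ≤ (κ - k1) * (κ * k1 - 1) / (k1 * (1 + κ ^ 2)) := by
      rw [e]
      calc _ ≤ 1 * ((κ - k1) * (κ * k1 - 1) / (k1 * (1 + κ ^ 2))) :=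
            mul_le_mul_of_nonneg_right hc h2
        _ = _ := one_mul _
    refine h3.trans ?_
    have e2 : 1 - k1 / κ = (κ - k1) / κ := by field_simp
    rw [e2, div_le_div_iff₀ (by positivity) hκ0, mul_assoc]
    refine mul_le_mul_of_nonneg_left ?_ (by linarith)
    nlinarith
  have h2 : k1 / κ ≤ exp (-δ) := by
    have := add_one_le_exp (-δ)
    linarith
  have h3 : exp (c * (κ / (1 + κ ^ 2))) = exp (-δ) * exp (c * (k1 / (1 + k1 ^ 2))) := by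
    rw [← exp_add, hδ]
    congr 1
    ring
  rw [h3]
  have h4 : k1 ≤ κ * exp (-δ) := by
    rw [div_le_iff₀ hκ0] at h2
    linarith
  calc k1 * exp (c * (k1 / (1 + k1 ^ 2))) ≤ (κ * exp (-δ)) * exp (c * (k1 / (1 + k1 ^ 2))) :=
        mul_le_mul_of_nonneg_right h4 (exp_pos _).le
    _ = _ := by ring

/-- upper bound of the argument, `y = -η ≤ 0` -/
theorem phi_neg {k1 κ h H Hl s G p η : ℝ} (hk1 : 1 ≤ k1) (hκ : k1 ≤ κ) (hh : 0 < h)
    (hl : Hl ≤ h) (hH : h ≤ H) (hs : 0 ≤ s) (hs1 : s * H * (k1 / (1 + k1 ^ 2)) ≤ 1)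
    (hG : G ≤ exp (2 * (s * Hl * (k1 / (1 + k1 ^ 2))))) (hp : 0 ≤ p)
    (hc : s ^ 2 + p ^ 2 * (s * H * (k1 / (1 + k1 ^ 2))) ^ 2 ≤ p ^ 2 * k1 ^ 2 * G)
    (hη0 : 0 ≤ η) (hη : η ≤ s * (κ * h / (1 + κ ^ 2))) :
    arctan (η / Xk κ (-η)) ≤ p * (κ * h / (1 + κ ^ 2)) := by
  obtain ⟨q, hq⟩ : ∃ q, q = κ * h / (1 + κ ^ 2) := ⟨_, rfl⟩
  rw [← hq] at hη ⊢
  have hk : 1 ≤ κ := hk1.trans hκ
  have hk0 : 0 < κ := by linarith
  have hq0 : 0 < q := by rw [hq]; positivity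
  have hqe : q = κ / (1 + κ ^ 2) * h := by rw [hq]; ring
  have hI : Iy κ (-η) := Iy_neg hk (by linarith)
  have hX := hI.xpos
  have hX2 := x_sq_add hI
  have hsq : s * q ≤ s * H * (k1 / (1 + k1 ^ 2)) := by
    rw [hqe]
    have h1 := mul_le_mul (kq_le hk1 hκ) hH hh.le (by positivity : 0 ≤ k1 / (1 + k1 ^ 2))
    have h2 := mul_le_mul_of_nonneg_left h1 hs
    linarith
  have hm := mul_exp_neg_mono hη0 hη (hsq.trans hs1)
  -- κ e^{Y} ≥ k1 e^{Y1}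
  have hke : k1 * exp (s * Hl * (k1 / (1 + k1 ^ 2))) ≤ κ * exp (s * q) := by
    have h1 : s * Hl * (k1 / (1 + k1 ^ 2)) ≤ 1 := by
      refine le_trans ?_ hs1
      exact mul_le_mul_of_nonneg_right (mul_le_mul_of_nonneg_left (hl.trans hH) hs) (by positivity)
    refine (ke_mono hk1 hκ h1).trans ?_
    refine mul_le_mul_of_nonneg_left (exp_le_exp.2 ?_) hk0.le
    rw [hqe]
    have h2 : s * (κ / (1 + κ ^ 2)) * Hl ≤ s * (κ / (1 + κ ^ 2)) * h :=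
      mul_le_mul_of_nonneg_left hl (by positivity)
    linarith
  have hke2 : k1 ^ 2 * G ≤ κ ^ 2 * exp (2 * (s * q)) := by
    have h1 := pow_le_pow_left₀ (by positivity) hke 2
    rw [mul_pow, mul_pow, ← Real.exp_nat_mul, ← Real.exp_nat_mul] at h1
    push_cast at h1
    exact (mul_le_mul_of_nonneg_left hG (by positivity)).trans h1
  have h1 : s ^ 2 + p ^ 2 * (s * q) ^ 2 ≤ p ^ 2 * (κ ^ 2 * exp (2 * (s * q))) := by
    have h2 : p ^ 2 * (s * q) ^ 2 ≤ p ^ 2 * (s * H * (k1 / (1 + k1 ^ 2))) ^ 2 :=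
      mul_le_mul_of_nonneg_left (pow_le_pow_left₀ (by positivity) hsq 2) (by positivity)
    have h3 := mul_le_mul_of_nonneg_left hke2 (sq_nonneg p)
    linarith
  -- η² e^{-2η} ≤ (s q)² e^{-2 s q}
  have h2 : η ^ 2 * exp (-2 * η) ≤ (s * q) ^ 2 * exp (-2 * (s * q)) := by
    have h3 := pow_le_pow_left₀ (mul_nonneg hη0 (exp_pos _).le) hm 2
    rw [mul_pow, mul_pow, ← Real.exp_nat_mul, ← Real.exp_nat_mul] at h3
    push_cast at h3
    have e1 : (2 : ℝ) * -η = -2 * η := by ring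
    have e2 : (2 : ℝ) * -(s * q) = -2 * (s * q) := by ring
    rwa [e1, e2] at h3
  have h3 : η ^ 2 ≤ (p * q) ^ 2 * Xk κ (-η) ^ 2 := by
    have hE := exp_pos (2 * η)
    have e0 : exp (2 * η) * exp (-2 * η) = 1 := by rw [← exp_add, ← exp_zero]; congr 1; ring
    have e1 : exp (2 * (s * q)) * exp (-2 * (s * q)) = 1 := by
      rw [← exp_add, ← exp_zero]; congr 1; ring
    have h4 : (1 + p ^ 2 * q ^ 2) * (η ^ 2 * exp (-2 * η)) ≤ p ^ 2 * q ^ 2 * κ ^ 2 := by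
      calc (1 + p ^ 2 * q ^ 2) * (η ^ 2 * exp (-2 * η))
          ≤ (1 + p ^ 2 * q ^ 2) * ((s * q) ^ 2 * exp (-2 * (s * q))) :=
            mul_le_mul_of_nonneg_left h2 (by positivity)
        _ = (s ^ 2 + p ^ 2 * (s * q) ^ 2) * (q ^ 2 * exp (-2 * (s * q))) := by ring
        _ ≤ (p ^ 2 * (κ ^ 2 * exp (2 * (s * q)))) * (q ^ 2 * exp (-2 * (s * q))) :=
            mul_le_mul_of_nonneg_right h1 (by positivity)
        _ = p ^ 2 * q ^ 2 * κ ^ 2 * (exp (2 * (s * q)) * exp (-2 * (s * q))) := by ring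
        _ = p ^ 2 * q ^ 2 * κ ^ 2 := by rw [e1, mul_one]
    have h5 := mul_le_mul_of_nonneg_left h4 hE.le
    have e2 : exp (2 * η) * ((1 + p ^ 2 * q ^ 2) * (η ^ 2 * exp (-2 * η))) =
        (1 + p ^ 2 * q ^ 2) * η ^ 2 * (exp (2 * η) * exp (-2 * η)) := by ring
    rw [e2, e0, mul_one] at h5
    have e3 : -2 * -η = 2 * η := by ring
    rw [e3] at hX2
    have e4 : (-η) ^ 2 = η ^ 2 := by ring
    have h6 : Xk κ (-η) ^ 2 = κ ^ 2 * exp (2 * η) - η ^ 2 := by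
      rw [e4] at hX2
      linarith
    have e5 : (p * q) ^ 2 * (κ ^ 2 * exp (2 * η) - η ^ 2) =
        exp (2 * η) * (p ^ 2 * q ^ 2 * κ ^ 2) - p ^ 2 * q ^ 2 * η ^ 2 := by ring
    rw [h6, e5]
    linarith
  have h4 : η ≤ p * q * Xk κ (-η) := by
    rw [← mul_pow] at h3
    exact (pow_le_pow_iff_left₀ hη0 (by positivity) two_ne_zero).1 h3
  refine (arctan_le' (by positivity)).trans ?_
  rw [div_le_iff₀ hX]
  exact h4

/-- lower bound of the argument, `y ≥ 0` -/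
theorem phi_ge {κ k2 y s q G : ℝ} (hI : Iy κ y) (hκ : κ ≤ k2) (hy : s * q ≤ y) (hs : 0 ≤ s) (hq : 0 ≤ q)
    (hG0 : 0 ≤ G) (hG : G ≤ exp y) : s * G / k2 * q ≤ arctan (y / Xk κ y) := by
  have hX := hI.xpos
  have hk := hI.kpos
  have hy0 : 0 ≤ y := (mul_nonneg hs hq).trans hy
  have h0 : 0 ≤ arctan (y / Xk κ y) := by rw [← arctan_zero]; exact arctan_mono (by positivity)
  have h1 := (sin_arctan_Xk hI).1
  have h2 := Real.sin_le h0
  have h3 : y * exp y ≤ κ * arctan (y / Xk κ y) := by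
    rw [← h1]
    exact mul_le_mul_of_nonneg_left h2 hk.le
  have h4 : s * q * G ≤ y * exp y := mul_le_mul hy hG hG0 hy0
  have h5 : s * G * q ≤ k2 * arctan (y / Xk κ y) := by
    have := mul_le_mul_of_nonneg_right hκ h0
    linarith
  rw [div_mul_eq_mul_div, div_le_iff₀ (by linarith)]
  linarith

/-- lower bound of the argument, `y = -η ≤ 0` -/
theorem phi_neg_ge {k2 κ h H s F : ℝ} (hκ : 1 ≤ κ) (hκ2 : κ ≤ k2) (hh : 0 < h) (hH : h ≤ H) (hs : 0 ≤ s)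
    (hs1 : s * H * (κ / (1 + κ ^ 2)) ≤ 1) (hF : exp (s * H * (k2 / (1 + k2 ^ 2))) ≤ F) :
    s / (k2 * F) * (κ * h / (1 + κ ^ 2)) ≤
      arctan ((s * (κ * h / (1 + κ ^ 2))) / Xk κ (-(s * (κ * h / (1 + κ ^ 2))))) := by
  obtain ⟨q, hq⟩ : ∃ q, q = κ * h / (1 + κ ^ 2) := ⟨_, rfl⟩
  rw [← hq]
  have hk0 : 0 < κ := by linarith
  have hk20 : 0 < k2 := by linarith
  have hq0 : 0 < q := by rw [hq]; positivity
  have hF0 : 0 < F := lt_of_lt_of_le (exp_pos _) hF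
  have hη0 : 0 ≤ s * q := by positivity
  have hI : Iy κ (-(s * q)) := Iy_neg hκ (by linarith)
  have hX := hI.xpos
  have h0 : 0 ≤ arctan (s * q / Xk κ (-(s * q))) := by
    rw [← arctan_zero]
    exact arctan_mono (by positivity)
  have h1 := (sin_arctan_Xk hI).1
  rw [neg_div, arctan_neg, sin_neg] at h1
  have h2 := Real.sin_le h0
  have h3 : s * q * exp (-(s * q)) ≤ κ * arctan (s * q / Xk κ (-(s * q))) := by
    have := mul_le_mul_of_nonneg_left h2 hk0.le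
    linarith
  have h4 : κ * exp (s * q) ≤ k2 * F := by
    have h5 : s * q ≤ s * H * (κ / (1 + κ ^ 2)) := by
      have h6 : s * (κ / (1 + κ ^ 2)) * h ≤ s * (κ / (1 + κ ^ 2)) * H :=
        mul_le_mul_of_nonneg_left hH (by positivity)
      have e : s * q = s * (κ / (1 + κ ^ 2)) * h := by rw [hq]; ring
      rw [e]
      linarith
    calc κ * exp (s * q) ≤ κ * exp (s * H * (κ / (1 + κ ^ 2))) :=
          mul_le_mul_of_nonneg_left (exp_le_exp.2 h5) hk0.le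
      _ ≤ k2 * exp (s * H * (k2 / (1 + k2 ^ 2))) := ke_mono hκ hκ2 hs1
      _ ≤ k2 * F := mul_le_mul_of_nonneg_left hF hk20.le
  have h5 : s * q ≤ (k2 * F) * arctan (s * q / Xk κ (-(s * q))) := by
    have e0 : exp (-(s * q)) * exp (s * q) = 1 := by rw [← exp_add, neg_add_cancel, exp_zero]
    calc s * q = (s * q * exp (-(s * q))) * exp (s * q) := by rw [mul_assoc, e0, mul_one]
      _ ≤ (κ * arctan (s * q / Xk κ (-(s * q)))) * exp (s * q) :=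
          mul_le_mul_of_nonneg_right h3 (exp_pos _).le
      _ = (κ * exp (s * q)) * arctan (s * q / Xk κ (-(s * q))) := by ring
      _ ≤ _ := mul_le_mul_of_nonneg_right h4 h0
  rw [div_mul_eq_mul_div, div_le_iff₀ (by positivity)]
  linarith

/-- the numeric conditions of the argument part -/
structure PhOk (k1 k2 H Hl S Sm a1 a0 b1 F1 Fv Fm G0 Gm Gl p1 p0 pv pl pw pm : ℝ) : Prop where
  hk1 : 1 ≤ k1
  hHl : 0 ≤ Hl
  nn : 0 ≤ S ∧ 0 ≤ Sm ∧ 0 ≤ a1 ∧ 0 ≤ a0 ∧ 0 ≤ b1 ∧ 0 ≤ p1 ∧ 0 ≤ p0 ∧ 0 ≤ pv ∧ 0 ≤ pw ∧ 0 ≤ Gl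
  -- exponentials
  eF1 : exp (2 * (a1 * H * (k1 / (1 + k1 ^ 2)))) ≤ F1
  eFv : exp (2 * (S * H * (k1 / (1 + k1 ^ 2)))) ≤ Fv
  eFm : exp (Sm * H * (k2 / (1 + k2 ^ 2))) ≤ Fm
  eG0 : G0 ≤ exp (2 * (a0 * Hl * (k1 / (1 + k1 ^ 2))))
  eGm : Gm ≤ exp (2 * (Sm * Hl * (k1 / (1 + k1 ^ 2))))
  eGl : Gl ≤ exp (S * Hl * (k2 / (1 + k2 ^ 2)))
  bb1 : F1 * (a1 * H / (1 + k1 ^ 2)) ^ 2 < 1
  cc1 : a1 ^ 2 * F1 ≤ p1 ^ 2 * k1 ^ 2 * (1 - F1 * (a1 * H / (1 + k1 ^ 2)) ^ 2)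
  bbv : Fv * (S * H / (1 + k1 ^ 2)) ^ 2 < 1
  ccv : S ^ 2 * Fv ≤ pv ^ 2 * k1 ^ 2 * (1 - Fv * (S * H / (1 + k1 ^ 2)) ^ 2)
  ss0 : a0 * H * (k1 / (1 + k1 ^ 2)) ≤ 1
  cc0 : a0 ^ 2 + p0 ^ 2 * (a0 * H * (k1 / (1 + k1 ^ 2))) ^ 2 ≤ p0 ^ 2 * k1 ^ 2 * G0
  ssm : Sm * H * (k1 / (1 + k1 ^ 2)) ≤ 1
  ccm : Sm ^ 2 + pw ^ 2 * (Sm * H * (k1 / (1 + k1 ^ 2))) ^ 2 ≤ pw ^ 2 * k1 ^ 2 * Gm
  hpl : pl ≤ S * Gl / k2
  hpm : pm ≤ Sm / (k2 * Fm)

theorem secD_of {b : ℕ} {κ : ℝ} {N : Num} {a1 a0 b1 dI2 dIm Sig D2 Dm Sg : ℝ}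
    {k1 k2 H Hl F1 Fv Fm G0 Gm Gl p1 p0 pv pl pw pm : ℝ} (hY : SecY b κ N a1 a0 b1 dI2 dIm Sig)
    (hO : PhOk k1 k2 H Hl N.S N.Sm a1 a0 b1 F1 Fv Fm G0 Gm Gl p1 p0 pv pl pw pm)
    (hκ1 : k1 ≤ κ) (hκ2 : κ ≤ k2) (hb : 0 < hh b) (hHl : Hl ≤ hh b) (hH : hh b ≤ H)
    (hz : -1 ≤ N.qL ∧ N.qR ≤ 0) (hdom : (N.qR + 1) * H ≤ k1 + 157 / 100)
    (h2 : dI2 + (pv - 2 * (b1 / k2)) ≤ D2) (h2' : dI2 + (2 * p1 + p0 - pl) ≤ D2)
    (hm : dIm + pw ≤ Dm) (hm' : dIm + (2 * p0 + p1 - pm) ≤ Dm) (hs : Sig + (p1 + p0) ≤ Sg) :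
    SecD b κ N D2 Dm Sg := by
  have hk1 := hO.hk1
  have hκ : 1 ≤ κ := hk1.trans hκ1
  have hκ0 : 0 < κ := by linarith
  have hk20 : 0 < k2 := by linarith
  obtain ⟨n1, n2, n3, n4, n5, n6, n7, n8, n9, n10⟩ := hO.nn
  obtain ⟨q, hq⟩ : ∃ q, q = κ * hh b / (1 + κ ^ 2) := ⟨_, rfl⟩
  have hq0 : 0 < q := by rw [hq]; positivity
  have hpi := Real.pi_gt_d2
  have hH0 : 0 < H := hb.trans_le hH
  -- the two main saddles
  have hd0 : ∀ z ∈ Icc N.qL N.qR, DomR κ (tz b κ 0 z) := fun z hz' => by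
    refine DomR_of hκ ?_
    have : z * hh b ≤ 0 := mul_nonpos_of_nonpos_of_nonneg (by linarith [hz'.2]) hb.le
    unfold tz
    push_cast
    linarith
  have hd1 : ∀ z ∈ Icc N.qL N.qR, DomR κ (tz b κ 1 z) := fun z hz' => by
    refine DomR_of hκ ?_
    have h1 : (z + 1) * hh b ≤ (N.qR + 1) * H :=
      mul_le_mul (by linarith [hz'.2]) hH hb.le (by linarith [hz'.1, hz'.2])
    unfold tz
    push_cast
    linarith
  have f1 : ∀ z ∈ Icc N.qL N.qR, b1 / k2 * q ≤ ph κ (tz b κ 1 z) ∧ ph κ (tz b κ 1 z) ≤ p1 * q := by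
    intro z hz'
    have e1 := sy_one (z := z) hκ hb
    rw [← hq] at e1
    have hy0 : 0 ≤ sy κ (tz b κ 1 z) := by
      refine sy_nonneg hκ ?_ (hd1 z hz').2.1
      have : 0 ≤ (1 + z) * hh b := mul_nonneg (by linarith [hz'.1]) hb.le
      unfold tz
      push_cast
      linarith
    have hy1 : sy κ (tz b κ 1 z) ≤ a1 * q := by
      rw [e1]
      exact mul_le_mul_of_nonneg_right (hY.a1 z hz') hq0.le
    have hyb : b1 * q ≤ sy κ (tz b κ 1 z) := by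
      rw [e1]
      exact mul_le_mul_of_nonneg_right (hY.b1 z hz') hq0.le
    rw [ph_eq (hd1 z hz')]
    refine ⟨?_, ?_⟩
    · have h3 := phi_ge (G := 1) (sy_spec (hd1 z hz')).1 hκ2 hyb n5 hq0.le zero_le_one
        (one_le_exp hy0)
      rw [mul_one] at h3
      exact h3
    · rw [hq]
      exact (phi_pos hk1 hκ1 hb hH n3 hO.eF1 n6 hO.bb1 hO.cc1 hy0 (by rw [← hq]; exact hy1)).2
  have f0 : ∀ z ∈ Icc N.qL N.qR, ph κ (tz b κ 0 z) ≤ 0 ∧ -(p0 * q) ≤ ph κ (tz b κ 0 z) := by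
    intro z hz'
    have e1 := sy_zero' (z := z) hκ hb
    rw [← hq] at e1
    have hy0 : sy κ (tz b κ 0 z) ≤ 0 := by
      refine sy_nonpos hκ ?_
      have : z * hh b ≤ 0 := mul_nonpos_of_nonpos_of_nonneg (by linarith [hz'.2]) hb.le
      unfold tz
      push_cast
      linarith
    have hy1 : -sy κ (tz b κ 0 z) ≤ a0 * q := by
      rw [e1, ← neg_mul]
      exact mul_le_mul_of_nonneg_right (hY.a0 z hz') hq0.le
    have hx := sx_pos (hd0 z hz')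
    rw [ph_eq (hd0 z hz')]
    refine ⟨?_, ?_⟩
    · rw [← arctan_zero]
      exact arctan_mono (div_nonpos_of_nonpos_of_nonneg hy0 hx.le)
    · have h3 := phi_neg (η := -sy κ (tz b κ 0 z)) hk1 hκ1 hb hHl hH n4 hO.ss0 hO.eG0 n7 hO.cc0
        (by linarith) (by rw [← hq]; exact hy1)
      rw [neg_neg, neg_div, arctan_neg, ← hq] at h3
      have e2 : Xk κ (sy κ (tz b κ 0 z)) = sx κ (tz b κ 0 z) := rfl
      rw [e2] at h3
      linarith
  have e1k : (0 : ℝ) < 1 + κ ^ 2 := by positivity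
  refine ⟨?_, ?_, ?_⟩
  · intro z hz' v w hv hw
    obtain ⟨g1, g2⟩ := f1 z hz'
    obtain ⟨g3, g4⟩ := f0 z hz'
    have ev : v = N.S * q := by
      rw [hq]
      field_simp
      linarith
    have hv0 : 0 ≤ v := by rw [ev]; positivity
    obtain ⟨hI, hw1⟩ := phi_pos (y := v) hk1 hκ1 hb hH n1 hO.eFv n8 hO.bbv hO.ccv hv0
      (by rw [← hq]; exact ev.le)
    rw [← hq] at hw1
    have hvl : N.S * Hl * (k2 / (1 + k2 ^ 2)) ≤ v := by
      rw [ev, hq]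
      have h5 := mul_le_mul (kq_le hκ hκ2) hHl hO.hHl (by positivity : 0 ≤ κ / (1 + κ ^ 2))
      have h6 := mul_le_mul_of_nonneg_left h5 n1
      calc N.S * Hl * (k2 / (1 + k2 ^ 2)) = N.S * (k2 / (1 + k2 ^ 2) * Hl) := by ring
        _ ≤ N.S * (κ / (1 + κ ^ 2) * hh b) := h6
        _ = _ := by ring
    have hw2 : pl * q ≤ w := by
      have h7 := phi_ge (G := Gl) hI hκ2 ev.ge n1 hq0.le n10 (hO.eGl.trans (exp_le_exp.2 hvl))
      rw [hw]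
      exact (mul_le_mul_of_nonneg_right hO.hpl hq0.le).trans h7
    rw [← hw] at hw1
    have ey1 := sy_one (z := z) hκ hb
    have ey0 := sy_zero' (z := z) hκ hb
    rw [← hq] at ey1 ey0 ⊢
    have h8 : |v - (2 * sy κ (tz b κ 1 z) - sy κ (tz b κ 0 z))| ≤ dI2 * q := by
      rw [ev, ey1, ey0]
      have e3 : N.S * q - (2 * (sn b κ (z + 1) * q) - sn b κ z * q) =
          (N.S - (2 * sn b κ (z + 1) - sn b κ z)) * q := by ring
      rw [e3, abs_mul, abs_of_pos hq0]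
      exact mul_le_mul_of_nonneg_right (hY.i2 z hz') hq0.le
    have h9 : |w - (2 * ph κ (tz b κ 1 z) - ph κ (tz b κ 0 z))| ≤ (D2 - dI2) * q := by
      rw [abs_le]
      have i1 : (2 * p1 + p0 - pl) * q ≤ (D2 - dI2) * q :=
        mul_le_mul_of_nonneg_right (by linarith) hq0.le
      have i2 : (pv - 2 * (b1 / k2)) * q ≤ (D2 - dI2) * q :=
        mul_le_mul_of_nonneg_right (by linarith) hq0.le
      constructor
      · linarith
      · linarith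
    linarith
  · intro z hz' v w hv hw
    obtain ⟨g1, g2⟩ := f1 z hz'
    obtain ⟨g3, g4⟩ := f0 z hz'
    have g1' : 0 ≤ ph κ (tz b κ 1 z) := le_trans (by positivity) g1
    have ev : v = -(N.Sm * q) := by
      rw [hq]
      field_simp
      linarith
    have hv0 : 0 ≤ -v := by rw [ev, neg_neg]; positivity
    have h3 := phi_neg (η := -v) hk1 hκ1 hb hHl hH n2 hO.ssm hO.eGm n9 hO.ccm hv0
      (by rw [← hq, ev, neg_neg])
    rw [neg_neg, neg_div, arctan_neg, ← hq, ← hw] at h3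
    have hw0 : w ≤ -(pm * q) := by
      have hs1 : N.Sm * H * (κ / (1 + κ ^ 2)) ≤ 1 :=
        (mul_le_mul_of_nonneg_left (kq_le hk1 hκ1) (mul_nonneg n2 hH0.le)).trans hO.ssm
      have h4 := phi_neg_ge hκ hκ2 hb hH n2 hs1 hO.eFm
      rw [← hq, ← ev, neg_eq_iff_eq_neg.1 ev.symm, neg_div, arctan_neg, ← hw] at h4
      have h5 := mul_le_mul_of_nonneg_right hO.hpm hq0.le
      linarith
    have ey1 := sy_one (z := z) hκ hb
    have ey0 := sy_zero' (z := z) hκ hb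
    rw [← hq] at ey1 ey0 ⊢
    have h8 : |v - (2 * sy κ (tz b κ 0 z) - sy κ (tz b κ 1 z))| ≤ dIm * q := by
      rw [ev, ey1, ey0]
      have e3 : -(N.Sm * q) - (2 * (sn b κ z * q) - sn b κ (z + 1) * q) =
          -((N.Sm - (sn b κ (z + 1) - 2 * sn b κ z)) * q) := by ring
      rw [e3, abs_neg, abs_mul, abs_of_pos hq0]
      exact mul_le_mul_of_nonneg_right (hY.im z hz') hq0.le
    have h9 : |w - (2 * ph κ (tz b κ 0 z) - ph κ (tz b κ 1 z))| ≤ (Dm - dIm) * q := by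
      rw [abs_le]
      have i1 : (2 * p0 + p1 - pm) * q ≤ (Dm - dIm) * q :=
        mul_le_mul_of_nonneg_right (by linarith) hq0.le
      have i2 : pw * q ≤ (Dm - dIm) * q :=
        mul_le_mul_of_nonneg_right (by linarith) hq0.le
      constructor
      · linarith
      · linarith
    linarith
  · intro z hz'
    obtain ⟨g1, g2⟩ := f1 z hz'
    obtain ⟨g3, g4⟩ := f0 z hz'
    have ey1 := sy_one (z := z) hκ hb
    have ey0 := sy_zero' (z := z) hκ hb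
    rw [← hq] at ey1 ey0 ⊢
    have h8 : sy κ (tz b κ 1 z) - sy κ (tz b κ 0 z) ≤ Sig * q := by
      rw [ey1, ey0, ← sub_mul]
      exact mul_le_mul_of_nonneg_right (hY.sg z hz') hq0.le
    have h9 : (Sig + (p1 + p0)) * q ≤ Sg * q := mul_le_mul_of_nonneg_right hs hq0.le
    linarith

end Sok.R2
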