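import Pool.Agent.Lib.MP_816dec_an.R2SecP
import Pool.Agent.Lib.MP_816dec_an.R2Cls

/-!
MP_816dec_an (row R2, item (4)): the argument part of the second differences for the 37 classes
`κ ≤ 20`: `SecY` (bounds of the slopes) implies `SecD`.
-/

set_option autoImplicit false

open Set Filter Topology Real

namespace Sok.R2

/-- upper bound of `exp t`, `0 ≤ t ≤ 4` -/
def ehi {K : Type} [Field K] (t : K) : K := (hs (t / 4) 11 1 + (t / 4) ^ 12 * (13 / (479001600 * 12))) ^ 4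

theorem ehi_cast (t : ℚ) : ((ehi t : ℚ) : ℝ) = ehi (t : ℝ) := by
  unfold ehi
  push_cast
  rw [hs_cast]
  push_cast
  rfl

theorem exp_le_ehi {t : ℝ} (h0 : 0 ≤ t) (h1 : t ≤ 4) : exp t ≤ ehi t := by
  have h2 := Real.exp_bound' (x := t / 4) (by linarith) (by linarith) (n := 12) (by norm_num)
  have h3 : exp t = exp (t / 4) ^ 4 := by
    rw [← Real.exp_nat_mul]
    congr 1
    push_cast
    ring
  have h4 := hs_sum (t / 4) 11 0
  have h5 : hs (t / 4) 11 1 = ∑ i ∈ Finset.range 12, (t / 4) ^ i / (i.factorial : ℝ) := by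
    have e : 0 + 11 + 1 = 12 := rfl
    rw [e] at h4
    rw [← h4]
    simp
  rw [h3]
  unfold ehi
  refine pow_le_pow_left₀ (exp_pos _).le (h2.trans (le_of_eq ?_)) 4
  rw [h5]
  congr 1
  have e2 : ((Nat.factorial 12 : ℕ) : ℝ) = 479001600 := by norm_num [Nat.factorial]
  rw [e2]
  push_cast
  ring

/-- rational data of the argument part -/
structure PhQ where
  (k1 k2 H Hl a1 a0 b1 dI2 dIm Sig : ℚ)
  (F1 Fv Fm G0 Gm Gl p1 p0 pv pl pw pm D2 Dm Sg : ℚ)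

/-- the numeric conditions, rational -/
def PhQ.Okq (p : PhQ) (N : NumQ) : Prop :=
  (1 ≤ p.k1 ∧ p.k1 ≤ p.k2 ∧ 0 ≤ p.Hl ∧ 0 ≤ p.H) ∧
  (0 ≤ N.S ∧ 0 ≤ N.Sm ∧ 0 ≤ p.a1 ∧ 0 ≤ p.a0 ∧ 0 ≤ p.b1 ∧ 0 ≤ p.p1 ∧ 0 ≤ p.p0 ∧ 0 ≤ p.pv ∧ 0 ≤ p.pw ∧ 0 ≤ p.Gl) ∧
  (2 * (p.a1 * p.H * (p.k1 / (1 + p.k1 ^ 2))) ≤ 4 ∧ ehi (2 * (p.a1 * p.H * (p.k1 / (1 + p.k1 ^ 2)))) ≤ p.F1) ∧
  (2 * (N.S * p.H * (p.k1 / (1 + p.k1 ^ 2))) ≤ 4 ∧ ehi (2 * (N.S * p.H * (p.k1 / (1 + p.k1 ^ 2)))) ≤ p.Fv) ∧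
  (N.Sm * p.H * (p.k2 / (1 + p.k2 ^ 2)) ≤ 4 ∧ ehi (N.Sm * p.H * (p.k2 / (1 + p.k2 ^ 2))) ≤ p.Fm) ∧
  p.G0 ≤ hs (2 * (p.a0 * p.Hl * (p.k1 / (1 + p.k1 ^ 2)))) 20 1 ∧
  p.Gm ≤ hs (2 * (N.Sm * p.Hl * (p.k1 / (1 + p.k1 ^ 2)))) 20 1 ∧
  p.Gl ≤ hs (N.S * p.Hl * (p.k2 / (1 + p.k2 ^ 2))) 20 1 ∧
  (p.F1 * (p.a1 * p.H / (1 + p.k1 ^ 2)) ^ 2 < 1 ∧
    p.a1 ^ 2 * p.F1 ≤ p.p1 ^ 2 * p.k1 ^ 2 * (1 - p.F1 * (p.a1 * p.H / (1 + p.k1 ^ 2)) ^ 2)) ∧
  (p.Fv * (N.S * p.H / (1 + p.k1 ^ 2)) ^ 2 < 1 ∧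
    N.S ^ 2 * p.Fv ≤ p.pv ^ 2 * p.k1 ^ 2 * (1 - p.Fv * (N.S * p.H / (1 + p.k1 ^ 2)) ^ 2)) ∧
  (p.a0 * p.H * (p.k1 / (1 + p.k1 ^ 2)) ≤ 1 ∧
    p.a0 ^ 2 + p.p0 ^ 2 * (p.a0 * p.H * (p.k1 / (1 + p.k1 ^ 2))) ^ 2 ≤ p.p0 ^ 2 * p.k1 ^ 2 * p.G0) ∧
  (N.Sm * p.H * (p.k1 / (1 + p.k1 ^ 2)) ≤ 1 ∧
    N.Sm ^ 2 + p.pw ^ 2 * (N.Sm * p.H * (p.k1 / (1 + p.k1 ^ 2))) ^ 2 ≤ p.pw ^ 2 * p.k1 ^ 2 * p.Gm) ∧
  (p.pl ≤ N.S * p.Gl / p.k2 ∧ p.pm ≤ N.Sm / (p.k2 * p.Fm)) ∧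
  ((-1 ≤ N.qL ∧ N.qR ≤ 0) ∧ (N.qR + 1) * p.H ≤ p.k1 + 157 / 100) ∧
  (p.dI2 + (p.pv - 2 * (p.b1 / p.k2)) ≤ p.D2 ∧ p.dI2 + (2 * p.p1 + p.p0 - p.pl) ≤ p.D2) ∧
  (p.dIm + p.pw ≤ p.Dm ∧ p.dIm + (2 * p.p0 + p.p1 - p.pm) ≤ p.Dm) ∧
  p.Sig + (p.p1 + p.p0) ≤ p.Sg

instance (p : PhQ) (N : NumQ) : Decidable (p.Okq N) := by unfold PhQ.Okq; infer_instance

private theorem exp_up {t F : ℚ} (h0 : 0 ≤ t) (h : t ≤ 4 ∧ ehi t ≤ F) : exp (t : ℝ) ≤ (F : ℝ) := by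
  have h1 : ((t : ℚ) : ℝ) ≤ 4 := by exact_mod_cast h.1
  have h2 : (0 : ℝ) ≤ ((t : ℚ) : ℝ) := by exact_mod_cast h0
  refine (exp_le_ehi h2 h1).trans ?_
  rw [← ehi_cast]
  exact_mod_cast h.2

private theorem exp_lo {t G : ℚ} (h0 : 0 ≤ t) (h : G ≤ hs t 20 1) : (G : ℝ) ≤ exp (t : ℝ) := by
  have h2 : (0 : ℝ) ≤ ((t : ℚ) : ℝ) := by exact_mod_cast h0
  refine le_trans ?_ (hs_le_exp h2 20)
  rw [← hs_cast]
  exact_mod_cast h

/-- `SecY` implies `SecD` at rational data -/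
theorem PhQ.Okq.secD {p : PhQ} {N : NumQ} (h : p.Okq N) {b : ℕ} {κ : ℝ}
    (hY : SecY b κ N.num (p.a1 : ℝ) (p.a0 : ℝ) (p.b1 : ℝ) (p.dI2 : ℝ) (p.dIm : ℝ) (p.Sig : ℝ))
    (hκ1 : (p.k1 : ℝ) ≤ κ) (hκ2 : κ ≤ (p.k2 : ℝ)) (hb : 0 < hh b) (hHl : (p.Hl : ℝ) ≤ hh b)
    (hH : hh b ≤ (p.H : ℝ)) : SecD b κ N.num (p.D2 : ℝ) (p.Dm : ℝ) (p.Sg : ℝ) := by
  obtain ⟨⟨a1, a2, a3, a4⟩, ⟨n1, n2, n3, n4, n5, n6, n7, n8, n9, n10⟩, f1, fv, fm, g0, gm, gl, ⟨c1, c2⟩, ⟨c3, c4⟩,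
    ⟨c5, c6⟩, ⟨c7, c8⟩, ⟨l1, l2⟩, ⟨⟨z1, z2⟩, z3⟩, ⟨d1, d2⟩, ⟨d3, d4⟩, d5⟩ := h
  have hk1 : (0 : ℚ) < p.k1 := lt_of_lt_of_le one_pos a1
  have hk2 : (0 : ℚ) < p.k2 := hk1.trans_le a2
  have E1 := exp_up (by positivity) f1
  have Ev := exp_up (by positivity) fv
  have Em := exp_up (by positivity) fm
  have L0 := exp_lo (by positivity) g0
  have Lm := exp_lo (by positivity) gm
  have Ll := exp_lo (by positivity) gl
  push_cast at E1 Ev Em L0 Lm Ll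
  have hO : PhOk (p.k1 : ℝ) p.k2 p.H p.Hl (N.S : ℝ) (N.Sm : ℝ) p.a1 p.a0 p.b1 p.F1 p.Fv p.Fm p.G0 p.Gm p.Gl p.p1 p.p0
      p.pv p.pl p.pw p.pm :=
    { hk1 := by exact_mod_cast a1
      hHl := by exact_mod_cast a3
      nn := ⟨by exact_mod_cast n1, by exact_mod_cast n2, by exact_mod_cast n3,
        by exact_mod_cast n4, by exact_mod_cast n5, by exact_mod_cast n6, by exact_mod_cast n7,
        by exact_mod_cast n8, by exact_mod_cast n9, by exact_mod_cast n10⟩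
      eF1 := E1
      eFv := Ev
      eFm := Em
      eG0 := L0
      eGm := Lm
      eGl := Ll
      bb1 := by exact_mod_cast c1
      cc1 := by exact_mod_cast c2
      bbv := by exact_mod_cast c3
      ccv := by exact_mod_cast c4
      ss0 := by exact_mod_cast c5
      cc0 := by exact_mod_cast c6
      ssm := by exact_mod_cast c7
      ccm := by exact_mod_cast c8
      hpl := by exact_mod_cast l1
      hpm := by exact_mod_cast l2 }
  have hz : (-1 : ℝ) ≤ (N.qL : ℝ) ∧ (N.qR : ℝ) ≤ 0 := ⟨by exact_mod_cast z1, by exact_mod_cast z2⟩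
  have hz3 : ((N.qR : ℝ) + 1) * (p.H : ℝ) ≤ (p.k1 : ℝ) + 157 / 100 := by
    have h3 : (((N.qR + 1) * p.H : ℚ) : ℝ) ≤ ((p.k1 + 157 / 100 : ℚ) : ℝ) := by exact_mod_cast z3
    push_cast at h3
    exact h3
  exact secD_of hY hO hκ1 hκ2 hb hHl hH hz hz3 (by exact_mod_cast d1) (by exact_mod_cast d2) (by exact_mod_cast d3)
    (by exact_mod_cast d4) (by exact_mod_cast d5)

private theorem hh_lo (b : ℕ) (hb : 0 < (b : ℝ)) : 6283 / 1000 / b ≤ hh b := by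
  have := Real.pi_gt_d4
  unfold hh
  rw [div_le_div_iff_of_pos_right hb]
  linarith

private theorem hh_hi (b : ℕ) (hb : 0 < (b : ℝ)) : hh b ≤ 3927 / 625 / b := by
  have := Real.pi_lt_d4
  unfold hh
  rw [div_le_div_iff_of_pos_right hb]
  linarith

private theorem hh_pos' {b : ℕ} (hb : 1 ≤ b) : 0 < hh b := by
  have : (0 : ℝ) < b := by exact_mod_cast hb
  unfold hh
  positivity

private theorem hh_hi8 {b : ℕ} (hb : 8 ≤ b) : hh b ≤ 3927 / 5000 := by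
  have h1 : (8 : ℝ) ≤ b := by exact_mod_cast hb
  refine (hh_hi b (by linarith)).trans ?_
  rw [div_le_iff₀ (by linarith)]
  linarith

/-- argument data of the class `c1_1` -/
def ph1_1 : PhQ where
  k1 := 47 / 10
  k2 := 28 / 5
  H := 3927 / 625
  Hl := 6283 / 1000
  a1 := 41 / 50
  a0 := 29 / 50
  b1 := 417 / 1000
  dI2 := 679 / 500
  dIm := 1181 / 1000
  Sig := 1231 / 1000
  F1 := 81457 / 10000
  Fv := 58713 / 10000
  Fm := 19839 / 10000
  G0 := 8817 / 2000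
  Gm := 50099 / 10000
  Gl := 21221 / 10000
  p1 := 6459 / 10000
  p0 := 59 / 1000
  pv := 401 / 1000
  pl := 1311 / 5000
  pw := 601 / 10000
  pm := 567 / 10000
  D2 := 49 / 20
  Dm := 189 / 100
  Sg := 97 / 50

theorem okph1_1 : ph1_1.Okq c1_1 := by decide +kernel

theorem secD1_1 {b : ℕ} {κ : ℝ} (hb : b = 1) (h1 : 47 / 10 ≤ κ) (h2 : κ ≤ 28 / 5)
    (hY : SecY b κ c1_1.num (41 / 50) (29 / 50) (417 / 1000) (679 / 500) (1181 / 1000) (1231 / 1000)) :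
    SecD b κ c1_1.num (49 / 20) (189 / 100) (97 / 50) := by
  subst hb
  have g1 := hh_lo 1 (by norm_num)
  have g2 := hh_hi 1 (by norm_num)
  norm_num at g1 g2
  have h := okph1_1.secD (b := 1) (κ := κ)
  norm_num [ph1_1] at h
  exact h hY h1 h2 (hh_pos' (by norm_num)) g1 g2

/-- argument data of the class `c1_2` -/
def ph1_2 : PhQ where
  k1 := 28 / 5
  k2 := 69 / 10
  H := 3927 / 625
  Hl := 6283 / 1000
  a1 := 891 / 1000
  a0 := 117 / 200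
  b1 := 103 / 250
  dI2 := 339 / 250
  dIm := 589 / 500
  Sig := 1263 / 1000
  F1 := 34711 / 5000
  Fv := 11293 / 2000
  Fm := 18177 / 10000
  G0 := 8921 / 2500
  Gm := 42929 / 10000
  Gl := 10169 / 5000
  p1 := 471 / 1000
  p0 := 111 / 2000
  pv := 227 / 625
  pl := 1173 / 5000
  pw := 579 / 10000
  pm := 267 / 5000
  D2 := 53 / 25
  Dm := 171 / 100
  Sg := 179 / 100

theorem okph1_2 : ph1_2.Okq c1_2 := by decide +kernel

theorem secD1_2 {b : ℕ} {κ : ℝ} (hb : b = 1) (h1 : 28 / 5 ≤ κ) (h2 : κ ≤ 69 / 10)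
    (hY : SecY b κ c1_2.num (891 / 1000) (117 / 200) (103 / 250) (339 / 250) (589 / 500) (1263 / 1000)) :
    SecD b κ c1_2.num (53 / 25) (171 / 100) (179 / 100) := by
  subst hb
  have g1 := hh_lo 1 (by norm_num)
  have g2 := hh_hi 1 (by norm_num)
  norm_num at g1 g2
  have h := okph1_2.secD (b := 1) (κ := κ)
  norm_num [ph1_2] at h
  exact h hY h1 h2 (hh_pos' (by norm_num)) g1 g2

/-- argument data of the class `c1_3` -/
def ph1_3 : PhQ where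
  k1 := 69 / 10
  k2 := 77 / 10
  H := 3927 / 625
  Hl := 6283 / 1000
  a1 := 453 / 500
  a0 := 59 / 100
  b1 := 407 / 1000
  dI2 := 1371 / 1000
  dIm := 1143 / 1000
  Sig := 1263 / 1000
  F1 := 25167 / 5000
  Fv := 20683 / 5000
  Fm := 17679 / 10000
  G0 := 7161 / 2500
  Gm := 35481 / 10000
  Gl := 947 / 500
  p1 := 1527 / 5000
  p0 := 253 / 5000
  pv := 6 / 25
  pl := 1957 / 10000
  pw := 547 / 10000
  pm := 521 / 10000
  D2 := 46 / 25
  Dm := 3 / 2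
  Sg := 81 / 50

theorem okph1_3 : ph1_3.Okq c1_3 := by decide +kernel

theorem secD1_3 {b : ℕ} {κ : ℝ} (hb : b = 1) (h1 : 69 / 10 ≤ κ) (h2 : κ ≤ 77 / 10)
    (hY : SecY b κ c1_3.num (453 / 500) (59 / 100) (407 / 1000) (1371 / 1000) (1143 / 1000) (1263 / 1000)) :
    SecD b κ c1_3.num (46 / 25) (3 / 2) (81 / 50) := by
  subst hb
  have g1 := hh_lo 1 (by norm_num)
  have g2 := hh_hi 1 (by norm_num)
  norm_num at g1 g2
  have h := okph1_3.secD (b := 1) (κ := κ)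
  norm_num [ph1_3] at h
  exact h hY h1 h2 (hh_pos' (by norm_num)) g1 g2

/-- argument data of the class `c1_4` -/
def ph1_4 : PhQ where
  k1 := 77 / 10
  k2 := 41 / 5
  H := 3927 / 625
  Hl := 6283 / 1000
  a1 := 913 / 1000
  a0 := 119 / 200
  b1 := 201 / 500
  dI2 := 137 / 100
  dIm := 28 / 25
  Sig := 251 / 200
  F1 := 43289 / 10000
  Fv := 17939 / 5000
  Fm := 17353 / 10000
  G0 := 1624 / 625
  Gm := 3227 / 1000
  Gl := 9119 / 5000
  p1 := 2517 / 10000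
  p0 := 6 / 125
  pv := 1983 / 10000
  pl := 177 / 1000
  pw := 529 / 10000
  pm := 513 / 10000
  D2 := 7 / 4
  Dm := 71 / 50
  Sg := 39 / 25

theorem okph1_4 : ph1_4.Okq c1_4 := by decide +kernel

theorem secD1_4 {b : ℕ} {κ : ℝ} (hb : b = 1) (h1 : 77 / 10 ≤ κ) (h2 : κ ≤ 41 / 5)
    (hY : SecY b κ c1_4.num (913 / 1000) (119 / 200) (201 / 500) (137 / 100) (28 / 25) (251 / 200)) :
    SecD b κ c1_4.num (7 / 4) (71 / 50) (39 / 25) := by
  subst hb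
  have g1 := hh_lo 1 (by norm_num)
  have g2 := hh_hi 1 (by norm_num)
  norm_num at g1 g2
  have h := okph1_4.secD (b := 1) (κ := κ)
  norm_num [ph1_4] at h
  exact h hY h1 h2 (hh_pos' (by norm_num)) g1 g2

/-- argument data of the class `c1_5` -/
def ph1_5 : PhQ where
  k1 := 41 / 5
  k2 := 19 / 2
  H := 3927 / 625
  Hl := 6283 / 1000
  a1 := 91 / 100
  a0 := 3 / 5
  b1 := 199 / 500
  dI2 := 63 / 50
  dIm := 1107 / 1000
  Sig := 1247 / 1000
  F1 := 39517 / 10000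
  Fv := 38661 / 10000
  Fm := 16227 / 10000
  G0 := 24743 / 10000
  Gm := 3821 / 1250
  Gl := 17963 / 10000
  p1 := 1119 / 5000
  p0 := 233 / 5000
  pv := 2177 / 10000
  pl := 1693 / 10000
  pw := 517 / 10000
  pm := 6 / 125
  D2 := 159 / 100
  Dm := 69 / 50
  Sg := 38 / 25

theorem okph1_5 : ph1_5.Okq c1_5 := by decide +kernel

theorem secD1_5 {b : ℕ} {κ : ℝ} (hb : b = 1) (h1 : 41 / 5 ≤ κ) (h2 : κ ≤ 19 / 2)
    (hY : SecY b κ c1_5.num (91 / 100) (3 / 5) (199 / 500) (63 / 50) (1107 / 1000) (1247 / 1000)) :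
    SecD b κ c1_5.num (159 / 100) (69 / 50) (38 / 25) := by
  subst hb
  have g1 := hh_lo 1 (by norm_num)
  have g2 := hh_hi 1 (by norm_num)
  norm_num at g1 g2
  have h := okph1_5.secD (b := 1) (κ := κ)
  norm_num [ph1_5] at h
  exact h hY h1 h2 (hh_pos' (by norm_num)) g1 g2

/-- argument data of the class `c1_6` -/
def ph1_6 : PhQ where
  k1 := 19 / 2
  k2 := 20
  H := 3927 / 625
  Hl := 6283 / 1000
  a1 := 17 / 20
  a0 := 119 / 200
  b1 := 201 / 500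
  dI2 := 231 / 200
  dIm := 129 / 125
  Sig := 601 / 500
  F1 := 15203 / 5000
  Fv := 32271 / 10000
  Fm := 1271 / 1000
  G0 := 21779 / 10000
  Gm := 6801 / 2500
  Gl := 13239 / 10000
  p1 := 1569 / 10000
  p0 := 17 / 400
  pv := 213 / 1250
  pl := 37 / 625
  pw := 489 / 10000
  pm := 3 / 100
  D2 := 73 / 50
  Dm := 5 / 4
  Sg := 141 / 100

theorem okph1_6 : ph1_6.Okq c1_6 := by decide +kernel

theorem secD1_6 {b : ℕ} {κ : ℝ} (hb : b = 1) (h1 : 19 / 2 ≤ κ) (h2 : κ ≤ 20)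
    (hY : SecY b κ c1_6.num (17 / 20) (119 / 200) (201 / 500) (231 / 200) (129 / 125) (601 / 500)) :
    SecD b κ c1_6.num (73 / 50) (5 / 4) (141 / 100) := by
  subst hb
  have g1 := hh_lo 1 (by norm_num)
  have g2 := hh_hi 1 (by norm_num)
  norm_num at g1 g2
  have h := okph1_6.secD (b := 1) (κ := κ)
  norm_num [ph1_6] at h
  exact h hY h1 h2 (hh_pos' (by norm_num)) g1 g2

/-- argument data of the class `c2_1` -/
def ph2_1 : PhQ where
  k1 := 3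
  k2 := 7 / 2
  H := 3927 / 1250
  Hl := 6283 / 2000
  a1 := 143 / 200
  a0 := 57 / 100
  b1 := 427 / 1000
  dI2 := 531 / 500
  dIm := 1011 / 1000
  Sig := 1121 / 1000
  F1 := 4811 / 1250
  Fv := 1719 / 400
  Fm := 17583 / 10000
  G0 := 14641 / 5000
  Gm := 9007 / 2500
  Gl := 19 / 10
  p1 := 5209 / 10000
  p0 := 1117 / 10000
  pv := 1547 / 2500
  pl := 4199 / 10000
  pw := 601 / 5000
  pm := 69 / 625
  D2 := 9 / 5
  Dm := 33 / 20
  Sg := 44 / 25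

theorem okph2_1 : ph2_1.Okq c2_1 := by decide +kernel

theorem secD2_1 {b : ℕ} {κ : ℝ} (hb : b = 2) (h1 : 3 ≤ κ) (h2 : κ ≤ 7 / 2)
    (hY : SecY b κ c2_1.num (143 / 200) (57 / 100) (427 / 1000) (531 / 500) (1011 / 1000) (1121 / 1000)) :
    SecD b κ c2_1.num (9 / 5) (33 / 20) (44 / 25) := by
  subst hb
  have g1 := hh_lo 2 (by norm_num)
  have g2 := hh_hi 2 (by norm_num)
  norm_num at g1 g2
  have h := okph2_1.secD (b := 2) (κ := κ)
  norm_num [ph2_1] at h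
  exact h hY h1 h2 (hh_pos' (by norm_num)) g1 g2

/-- argument data of the class `c2_2` -/
def ph2_2 : PhQ where
  k1 := 7 / 2
  k2 := 39 / 10
  H := 3927 / 1250
  Hl := 6283 / 2000
  a1 := 761 / 1000
  a0 := 23 / 40
  b1 := 211 / 500
  dI2 := 1011 / 1000
  dIm := 1007 / 1000
  Sig := 571 / 500
  F1 := 17681 / 5000
  Fv := 21957 / 5000
  Fm := 17103 / 10000
  G0 := 1623 / 625
  Gm := 3249 / 1000
  Gl := 19617 / 10000
  p1 := 4347 / 10000
  p0 := 64 / 625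
  pv := 2977 / 5000
  pl := 1121 / 2500
  pw := 1131 / 10000
  pm := 133 / 1250
  D2 := 77 / 50
  Dm := 31 / 20
  Sg := 42 / 25

theorem okph2_2 : ph2_2.Okq c2_2 := by decide +kernel

theorem secD2_2 {b : ℕ} {κ : ℝ} (hb : b = 2) (h1 : 7 / 2 ≤ κ) (h2 : κ ≤ 39 / 10)
    (hY : SecY b κ c2_2.num (761 / 1000) (23 / 40) (211 / 500) (1011 / 1000) (1007 / 1000) (571 / 500)) :
    SecD b κ c2_2.num (77 / 50) (31 / 20) (42 / 25) := by
  subst hb
  have g1 := hh_lo 2 (by norm_num)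
  have g2 := hh_hi 2 (by norm_num)
  norm_num at g1 g2
  have h := okph2_2.secD (b := 2) (κ := κ)
  norm_num [ph2_2] at h
  exact h hY h1 h2 (hh_pos' (by norm_num)) g1 g2

/-- argument data of the class `c2_3` -/
def ph2_3 : PhQ where
  k1 := 39 / 10
  k2 := 21 / 5
  H := 3927 / 1250
  Hl := 6283 / 2000
  a1 := 771 / 1000
  a0 := 29 / 50
  b1 := 417 / 1000
  dI2 := 917 / 1000
  dIm := 993 / 1000
  Sig := 1143 / 1000
  F1 := 8019 / 2500
  Fv := 45003 / 10000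
  Fm := 8383 / 5000
  G0 := 2403 / 1000
  Gm := 15073 / 5000
  Gl := 1264 / 625
  p1 := 147 / 400
  p0 := 481 / 5000
  pv := 1483 / 2500
  pl := 4791 / 10000
  pw := 541 / 5000
  pm := 259 / 2500
  D2 := 33 / 25
  Dm := 29 / 20
  Sg := 161 / 100

theorem okph2_3 : ph2_3.Okq c2_3 := by decide +kernel

theorem secD2_3 {b : ℕ} {κ : ℝ} (hb : b = 2) (h1 : 39 / 10 ≤ κ) (h2 : κ ≤ 21 / 5)
    (hY : SecY b κ c2_3.num (771 / 1000) (29 / 50) (417 / 1000) (917 / 1000) (993 / 1000) (1143 / 1000)) :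
    SecD b κ c2_3.num (33 / 25) (29 / 20) (161 / 100) := by
  subst hb
  have g1 := hh_lo 2 (by norm_num)
  have g2 := hh_hi 2 (by norm_num)
  norm_num at g1 g2
  have h := okph2_3.secD (b := 2) (κ := κ)
  norm_num [ph2_3] at h
  exact h hY h1 h2 (hh_pos' (by norm_num)) g1 g2

/-- argument data of the class `c2_4` -/
def ph2_4 : PhQ where
  k1 := 21 / 5
  k2 := 20
  H := 3927 / 1250
  Hl := 6283 / 2000
  a1 := 393 / 500
  a0 := 23 / 40
  b1 := 211 / 500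
  dI2 := 119 / 125
  dIm := 124 / 125
  Sig := 581 / 500
  F1 := 7607 / 2500
  Fv := 8181 / 2000
  Fm := 11239 / 10000
  G0 := 22569 / 10000
  Gm := 2871 / 1000
  Gl := 11687 / 10000
  p1 := 839 / 2500
  p0 := 457 / 5000
  pv := 2547 / 5000
  pl := 581 / 10000
  pw := 21 / 200
  pm := 331 / 10000
  D2 := 83 / 50
  Dm := 37 / 25
  Sg := 159 / 100

theorem okph2_4 : ph2_4.Okq c2_4 := by decide +kernel

theorem secD2_4 {b : ℕ} {κ : ℝ} (hb : b = 2) (h1 : 21 / 5 ≤ κ) (h2 : κ ≤ 20)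
    (hY : SecY b κ c2_4.num (393 / 500) (23 / 40) (211 / 500) (119 / 125) (124 / 125) (581 / 500)) :
    SecD b κ c2_4.num (83 / 50) (37 / 25) (159 / 100) := by
  subst hb
  have g1 := hh_lo 2 (by norm_num)
  have g2 := hh_hi 2 (by norm_num)
  norm_num at g1 g2
  have h := okph2_4.secD (b := 2) (κ := κ)
  norm_num [ph2_4] at h
  exact h hY h1 h2 (hh_pos' (by norm_num)) g1 g2

/-- argument data of the class `c3_1` -/
def ph3_1 : PhQ where
  k1 := 139 / 100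
  k2 := 8 / 5
  H := 1309 / 625
  Hl := 6283 / 3000
  a1 := 113 / 200
  a0 := 11227 / 20000
  b1 := 37 / 100
  dI2 := 43 / 40
  dIm := 973 / 1000
  Sig := 1017 / 1000
  F1 := 30709 / 10000
  Fv := 27179 / 10000
  Fm := 8837 / 5000
  G0 := 6097 / 2000
  Gm := 6649 / 2000
  Gl := 8031 / 5000
  p1 := 2519 / 2500
  p0 := 2377 / 10000
  pv := 927 / 1250
  pl := 2527 / 5000
  pw := 1229 / 5000
  pm := 2139 / 10000
  D2 := 283 / 100
  Dm := 9 / 4
  Sg := 227 / 100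

theorem okph3_1 : ph3_1.Okq c3_1 := by decide +kernel

theorem secD3_1 {b : ℕ} {κ : ℝ} (hb : b = 3) (h1 : 139 / 100 ≤ κ) (h2 : κ ≤ 8 / 5)
    (hY : SecY b κ c3_1.num (113 / 200) (11227 / 20000) (37 / 100) (43 / 40) (973 / 1000) (1017 / 1000)) :
    SecD b κ c3_1.num (283 / 100) (9 / 4) (227 / 100) := by
  subst hb
  have g1 := hh_lo 3 (by norm_num)
  have g2 := hh_hi 3 (by norm_num)
  norm_num at g1 g2
  have h := okph3_1.secD (b := 3) (κ := κ)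
  norm_num [ph3_1] at h
  exact h hY h1 h2 (hh_pos' (by norm_num)) g1 g2

/-- argument data of the class `c3_2` -/
def ph3_2 : PhQ where
  k1 := 8 / 5
  k2 := 19 / 10
  H := 1309 / 625
  Hl := 6283 / 3000
  a1 := 11457 / 20000
  a0 := 1133 / 2000
  b1 := 393 / 1000
  dI2 := 519 / 500
  dIm := 951 / 1000
  Sig := 1019 / 1000
  F1 := 14701 / 5000
  Fv := 28217 / 10000
  Fm := 17301 / 10000
  G0 := 581 / 200
  Gm := 33049 / 10000
  Gl := 16089 / 10000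
  p1 := 7523 / 10000
  p0 := 2119 / 10000
  pv := 6897 / 10000
  pl := 933 / 2000
  pw := 2231 / 10000
  pm := 1931 / 10000
  D2 := 229 / 100
  Dm := 97 / 50
  Sg := 199 / 100

theorem okph3_2 : ph3_2.Okq c3_2 := by decide +kernel

theorem secD3_2 {b : ℕ} {κ : ℝ} (hb : b = 3) (h1 : 8 / 5 ≤ κ) (h2 : κ ≤ 19 / 10)
    (hY : SecY b κ c3_2.num (11457 / 20000) (1133 / 2000) (393 / 1000) (519 / 500) (951 / 1000) (1019 / 1000)) :
    SecD b κ c3_2.num (229 / 100) (97 / 50) (199 / 100) := by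
  subst hb
  have g1 := hh_lo 3 (by norm_num)
  have g2 := hh_hi 3 (by norm_num)
  norm_num at g1 g2
  have h := okph3_2.secD (b := 3) (κ := κ)
  norm_num [ph3_2] at h
  exact h hY h1 h2 (hh_pos' (by norm_num)) g1 g2

/-- argument data of the class `c3_3` -/
def ph3_3 : PhQ where
  k1 := 19 / 10
  k2 := 21 / 10
  H := 1309 / 625
  Hl := 6283 / 3000
  a1 := 2907 / 5000
  a0 := 111 / 200
  b1 := 421 / 1000
  dI2 := 917 / 1000
  dIm := 447 / 500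
  Sig := 253 / 250
  F1 := 5457 / 2000
  Fv := 257 / 80
  Fm := 17241 / 10000
  G0 := 6517 / 2500
  Gm := 1987 / 625
  Gl := 4331 / 2500
  p1 := 2809 / 5000
  p0 := 229 / 1250
  pv := 7639 / 10000
  pl := 697 / 1250
  pw := 251 / 1250
  pm := 37 / 200
  D2 := 167 / 100
  Dm := 41 / 25
  Sg := 44 / 25

theorem okph3_3 : ph3_3.Okq c3_3 := by decide +kernel

theorem secD3_3 {b : ℕ} {κ : ℝ} (hb : b = 3) (h1 : 19 / 10 ≤ κ) (h2 : κ ≤ 21 / 10)
    (hY : SecY b κ c3_3.num (2907 / 5000) (111 / 200) (421 / 1000) (917 / 1000) (447 / 500) (253 / 250)) :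
    SecD b κ c3_3.num (167 / 100) (41 / 25) (44 / 25) := by
  subst hb
  have g1 := hh_lo 3 (by norm_num)
  have g2 := hh_hi 3 (by norm_num)
  norm_num at g1 g2
  have h := okph3_3.secD (b := 3) (κ := κ)
  norm_num [ph3_3] at h
  exact h hY h1 h2 (hh_pos' (by norm_num)) g1 g2

/-- argument data of the class `c3_4` -/
def ph3_4 : PhQ where
  k1 := 21 / 10
  k2 := 23 / 10
  H := 1309 / 625
  Hl := 6283 / 3000
  a1 := 377 / 625
  a0 := 14 / 25
  b1 := 431 / 1000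
  dI2 := 421 / 500
  dIm := 111 / 125
  Sig := 128 / 125
  F1 := 13333 / 5000
  Fv := 2238 / 625
  Fm := 16963 / 10000
  G0 := 4971 / 2000
  Gm := 15353 / 5000
  Gl := 3647 / 2000
  p1 := 2537 / 5000
  p0 := 427 / 2500
  pv := 8639 / 10000
  pl := 6219 / 10000
  pw := 949 / 5000
  pm := 221 / 1250
  D2 := 141 / 100
  Dm := 157 / 100
  Sg := 171 / 100

theorem okph3_4 : ph3_4.Okq c3_4 := by decide +kernel

theorem secD3_4 {b : ℕ} {κ : ℝ} (hb : b = 3) (h1 : 21 / 10 ≤ κ) (h2 : κ ≤ 23 / 10)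
    (hY : SecY b κ c3_4.num (377 / 625) (14 / 25) (431 / 1000) (421 / 500) (111 / 125) (128 / 125)) :
    SecD b κ c3_4.num (141 / 100) (157 / 100) (171 / 100) := by
  subst hb
  have g1 := hh_lo 3 (by norm_num)
  have g2 := hh_hi 3 (by norm_num)
  norm_num at g1 g2
  have h := okph3_4.secD (b := 3) (κ := κ)
  norm_num [ph3_4] at h
  exact h hY h1 h2 (hh_pos' (by norm_num)) g1 g2

/-- argument data of the class `c3_5` -/
def ph3_5 : PhQ where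
  k1 := 23 / 10
  k2 := 5 / 2
  H := 1309 / 625
  Hl := 6283 / 3000
  a1 := 1593 / 2500
  a0 := 57 / 100
  b1 := 427 / 1000
  dI2 := 857 / 1000
  dIm := 179 / 200
  Sig := 131 / 125
  F1 := 13269 / 5000
  Fv := 17773 / 5000
  Fm := 167 / 100
  G0 := 23941 / 10000
  Gm := 29667 / 10000
  Gl := 2273 / 1250
  p1 := 481 / 1000
  p0 := 807 / 5000
  pv := 1589 / 2000
  pl := 3011 / 5000
  pw := 181 / 1000
  pm := 17 / 100
  D2 := 69 / 50
  Dm := 153 / 100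
  Sg := 17 / 10

theorem okph3_5 : ph3_5.Okq c3_5 := by decide +kernel

theorem secD3_5 {b : ℕ} {κ : ℝ} (hb : b = 3) (h1 : 23 / 10 ≤ κ) (h2 : κ ≤ 5 / 2)
    (hY : SecY b κ c3_5.num (1593 / 2500) (57 / 100) (427 / 1000) (857 / 1000) (179 / 200) (131 / 125)) :
    SecD b κ c3_5.num (69 / 50) (153 / 100) (17 / 10) := by
  subst hb
  have g1 := hh_lo 3 (by norm_num)
  have g2 := hh_hi 3 (by norm_num)
  norm_num at g1 g2
  have h := okph3_5.secD (b := 3) (κ := κ)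
  norm_num [ph3_5] at h
  exact h hY h1 h2 (hh_pos' (by norm_num)) g1 g2

/-- argument data of the class `c3_6` -/
def ph3_6 : PhQ where
  k1 := 5 / 2
  k2 := 133 / 50
  H := 1309 / 625
  Hl := 6283 / 3000
  a1 := 3267 / 5000
  a0 := 23 / 40
  b1 := 211 / 500
  dI2 := 767 / 1000
  dIm := 221 / 250
  Sig := 1049 / 1000
  F1 := 25697 / 10000
  Fv := 38623 / 10000
  Fm := 1649 / 1000
  G0 := 1434 / 625
  Gm := 5699 / 2000
  Gl := 9533 / 5000
  p1 := 1099 / 2500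
  p0 := 191 / 1250
  pv := 217 / 250
  pl := 1341 / 2000
  pw := 433 / 2500
  pm := 413 / 2500
  D2 := 33 / 25
  Dm := 147 / 100
  Sg := 33 / 20

theorem okph3_6 : ph3_6.Okq c3_6 := by decide +kernel

theorem secD3_6 {b : ℕ} {κ : ℝ} (hb : b = 3) (h1 : 5 / 2 ≤ κ) (h2 : κ ≤ 133 / 50)
    (hY : SecY b κ c3_6.num (3267 / 5000) (23 / 40) (211 / 500) (767 / 1000) (221 / 250) (1049 / 1000)) :
    SecD b κ c3_6.num (33 / 25) (147 / 100) (33 / 20) := by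
  subst hb
  have g1 := hh_lo 3 (by norm_num)
  have g2 := hh_hi 3 (by norm_num)
  norm_num at g1 g2
  have h := okph3_6.secD (b := 3) (κ := κ)
  norm_num [ph3_6] at h
  exact h hY h1 h2 (hh_pos' (by norm_num)) g1 g2

/-- argument data of the class `c3_7` -/
def ph3_7 : PhQ where
  k1 := 133 / 50
  k2 := 20
  H := 1309 / 625
  Hl := 6283 / 3000
  a1 := 37 / 50
  a0 := 29 / 50
  b1 := 417 / 1000
  dI2 := 903 / 1000
  dIm := 971 / 1000
  Sig := 563 / 500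
  F1 := 347 / 125
  Fv := 37709 / 10000
  Fm := 10799 / 10000
  G0 := 1113 / 500
  Gm := 1723 / 625
  Gl := 11057 / 10000
  p1 := 1223 / 2500
  p0 := 1469 / 10000
  pv := 8029 / 10000
  pl := 531 / 10000
  pw := 419 / 2500
  pm := 17 / 500
  D2 := 99 / 50
  Dm := 43 / 25
  Sg := 177 / 100

theorem okph3_7 : ph3_7.Okq c3_7 := by decide +kernel

theorem secD3_7 {b : ℕ} {κ : ℝ} (hb : b = 3) (h1 : 133 / 50 ≤ κ) (h2 : κ ≤ 20)
    (hY : SecY b κ c3_7.num (37 / 50) (29 / 50) (417 / 1000) (903 / 1000) (971 / 1000) (563 / 500)) :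
    SecD b κ c3_7.num (99 / 50) (43 / 25) (177 / 100) := by
  subst hb
  have g1 := hh_lo 3 (by norm_num)
  have g2 := hh_hi 3 (by norm_num)
  norm_num at g1 g2
  have h := okph3_7.secD (b := 3) (κ := κ)
  norm_num [ph3_7] at h
  exact h hY h1 h2 (hh_pos' (by norm_num)) g1 g2

/-- argument data of the class `c4_1` -/
def ph4_1 : PhQ where
  k1 := 139 / 100
  k2 := 3 / 2
  H := 3927 / 2500
  Hl := 6283 / 4000
  a1 := 57 / 100
  a0 := 11433 / 20000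
  b1 := 97 / 250
  dI2 := 121 / 125
  dIm := 231 / 250
  Sig := 1017 / 1000
  F1 := 23371 / 10000
  Fv := 24991 / 10000
  Fm := 3239 / 2000
  G0 := 23427 / 10000
  Gm := 13461 / 5000
  Gl := 7809 / 5000
  p1 := 7089 / 10000
  p0 := 2743 / 10000
  pv := 4097 / 5000
  pl := 6403 / 10000
  pw := 747 / 2500
  pm := 2737 / 10000
  D2 := 101 / 50
  Dm := 191 / 100
  Sg := 201 / 100

theorem okph4_1 : ph4_1.Okq c4_1 := by decide +kernel

theorem secD4_1 {b : ℕ} {κ : ℝ} (hb : b = 4) (h1 : 139 / 100 ≤ κ) (h2 : κ ≤ 3 / 2)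
    (hY : SecY b κ c4_1.num (57 / 100) (11433 / 20000) (97 / 250) (121 / 125) (231 / 250) (1017 / 1000)) :
    SecD b κ c4_1.num (101 / 50) (191 / 100) (201 / 100) := by
  subst hb
  have g1 := hh_lo 4 (by norm_num)
  have g2 := hh_hi 4 (by norm_num)
  norm_num at g1 g2
  have h := okph4_1.secD (b := 4) (κ := κ)
  norm_num [ph4_1] at h
  exact h hY h1 h2 (hh_pos' (by norm_num)) g1 g2

/-- argument data of the class `c4_2` -/
def ph4_2 : PhQ where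
  k1 := 3 / 2
  k2 := 8 / 5
  H := 3927 / 2500
  Hl := 6283 / 4000
  a1 := 23 / 40
  a0 := 721 / 1250
  b1 := 197 / 500
  dI2 := 947 / 1000
  dIm := 457 / 500
  Sig := 1017 / 1000
  F1 := 23019 / 10000
  Fv := 507 / 200
  Fm := 8081 / 5000
  G0 := 11539 / 5000
  Gm := 26803 / 10000
  Gl := 983 / 625
  p1 := 3207 / 5000
  p0 := 103 / 400
  pv := 783 / 1000
  pl := 1261 / 2000
  pw := 2827 / 10000
  pm := 2629 / 10000
  D2 := 93 / 50
  Dm := 181 / 100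
  Sg := 48 / 25

theorem okph4_2 : ph4_2.Okq c4_2 := by decide +kernel

theorem secD4_2 {b : ℕ} {κ : ℝ} (hb : b = 4) (h1 : 3 / 2 ≤ κ) (h2 : κ ≤ 8 / 5)
    (hY : SecY b κ c4_2.num (23 / 40) (721 / 1250) (197 / 500) (947 / 1000) (457 / 500) (1017 / 1000)) :
    SecD b κ c4_2.num (93 / 50) (181 / 100) (48 / 25) := by
  subst hb
  have g1 := hh_lo 4 (by norm_num)
  have g2 := hh_hi 4 (by norm_num)
  norm_num at g1 g2
  have h := okph4_2.secD (b := 4) (κ := κ)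
  norm_num [ph4_2] at h
  exact h hY h1 h2 (hh_pos' (by norm_num)) g1 g2

/-- argument data of the class `c4_3` -/
def ph4_3 : PhQ where
  k1 := 8 / 5
  k2 := 433 / 250
  H := 3927 / 2500
  Hl := 6283 / 4000
  a1 := 117 / 200
  a0 := 11639 / 20000
  b1 := 2 / 5
  dI2 := 437 / 500
  dIm := 113 / 125
  Sig := 1017 / 1000
  F1 := 11421 / 5000
  Fv := 1111 / 400
  Fm := 4011 / 2500
  G0 := 11371 / 5000
  Gm := 13339 / 5000
  Gl := 16357 / 10000
  p1 := 3001 / 5000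
  p0 := 153 / 625
  pv := 8901 / 10000
  pl := 427 / 625
  pw := 677 / 2500
  pm := 2501 / 10000
  D2 := 41 / 25
  Dm := 7 / 4
  Sg := 187 / 100

theorem okph4_3 : ph4_3.Okq c4_3 := by decide +kernel

theorem secD4_3 {b : ℕ} {κ : ℝ} (hb : b = 4) (h1 : 8 / 5 ≤ κ) (h2 : κ ≤ 433 / 250)
    (hY : SecY b κ c4_3.num (117 / 200) (11639 / 20000) (2 / 5) (437 / 500) (113 / 125) (1017 / 1000)) :
    SecD b κ c4_3.num (41 / 25) (7 / 4) (187 / 100) := by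
  subst hb
  have g1 := hh_lo 4 (by norm_num)
  have g2 := hh_hi 4 (by norm_num)
  norm_num at g1 g2
  have h := okph4_3.secD (b := 4) (κ := κ)
  norm_num [ph4_3] at h
  exact h hY h1 h2 (hh_pos' (by norm_num)) g1 g2

/-- argument data of the class `c4_4` -/
def ph4_4 : PhQ where
  k1 := 433 / 250
  k2 := 91 / 50
  H := 3927 / 2500
  Hl := 6283 / 4000
  a1 := 11859 / 20000
  a0 := 5871 / 10000
  b1 := 407 / 1000
  dI2 := 849 / 1000
  dIm := 897 / 1000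
  Sig := 51 / 50
  F1 := 5601 / 2500
  Fv := 703 / 250
  Fm := 16011 / 10000
  G0 := 889 / 400
  Gm := 26269 / 10000
  Gl := 331 / 200
  p1 := 1367 / 2500
  p0 := 1151 / 5000
  pv := 17 / 20
  pl := 691 / 1000
  pw := 321 / 1250
  pm := 609 / 2500
  D2 := 149 / 100
  Dm := 167 / 100
  Sg := 9 / 5

theorem okph4_4 : ph4_4.Okq c4_4 := by decide +kernel

theorem secD4_4 {b : ℕ} {κ : ℝ} (hb : b = 4) (h1 : 433 / 250 ≤ κ) (h2 : κ ≤ 91 / 50)
    (hY : SecY b κ c4_4.num (11859 / 20000) (5871 / 10000) (407 / 1000) (849 / 1000) (897 / 1000) (51 / 50)) :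
    SecD b κ c4_4.num (149 / 100) (167 / 100) (9 / 5) := by
  subst hb
  have g1 := hh_lo 4 (by norm_num)
  have g2 := hh_hi 4 (by norm_num)
  norm_num at g1 g2
  have h := okph4_4.secD (b := 4) (κ := κ)
  norm_num [ph4_4] at h
  exact h hY h1 h2 (hh_pos' (by norm_num)) g1 g2

/-- argument data of the class `c4_5` -/
def ph4_5 : PhQ where
  k1 := 91 / 50
  k2 := 19 / 10
  H := 3927 / 2500
  Hl := 6283 / 4000
  a1 := 11859 / 20000
  a0 := 57 / 100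
  b1 := 207 / 500
  dI2 := 407 / 500
  dIm := 853 / 1000
  Sig := 1003 / 1000
  F1 := 439 / 200
  Fv := 14111 / 5000
  Fm := 15939 / 10000
  G0 := 21291 / 10000
  Gm := 3247 / 1250
  Gl := 3319 / 2000
  p1 := 1019 / 2000
  p0 := 2169 / 10000
  pv := 2057 / 2500
  pl := 3417 / 5000
  pw := 311 / 1250
  pm := 2377 / 10000
  D2 := 137 / 100
  Dm := 39 / 25
  Sg := 173 / 100

theorem okph4_5 : ph4_5.Okq c4_5 := by decide +kernel

theorem secD4_5 {b : ℕ} {κ : ℝ} (hb : b = 4) (h1 : 91 / 50 ≤ κ) (h2 : κ ≤ 19 / 10)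
    (hY : SecY b κ c4_5.num (11859 / 20000) (57 / 100) (207 / 500) (407 / 500) (853 / 1000) (1003 / 1000)) :
    SecD b κ c4_5.num (137 / 100) (39 / 25) (173 / 100) := by
  subst hb
  have g1 := hh_lo 4 (by norm_num)
  have g2 := hh_hi 4 (by norm_num)
  norm_num at g1 g2
  have h := okph4_5.secD (b := 4) (κ := κ)
  norm_num [ph4_5] at h
  exact h hY h1 h2 (hh_pos' (by norm_num)) g1 g2

/-- argument data of the class `c4_6` -/
def ph4_6 : PhQ where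
  k1 := 19 / 10
  k2 := 23 / 10
  H := 3927 / 2500
  Hl := 6283 / 4000
  a1 := 1547 / 2500
  a0 := 23 / 40
  b1 := 207 / 500
  dI2 := 97 / 125
  dIm := 867 / 1000
  Sig := 128 / 125
  F1 := 22283 / 10000
  Fv := 30749 / 10000
  Fm := 7583 / 5000
  G0 := 21053 / 10000
  Gm := 12783 / 5000
  Gl := 8229 / 5000
  p1 := 2561 / 5000
  p0 := 1053 / 5000
  pv := 9363 / 10000
  pl := 6207 / 10000
  pw := 151 / 625
  pm := 1039 / 5000
  D2 := 7 / 5
  Dm := 8 / 5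
  Sg := 7 / 4

theorem okph4_6 : ph4_6.Okq c4_6 := by decide +kernel

theorem secD4_6 {b : ℕ} {κ : ℝ} (hb : b = 4) (h1 : 19 / 10 ≤ κ) (h2 : κ ≤ 23 / 10)
    (hY : SecY b κ c4_6.num (1547 / 2500) (23 / 40) (207 / 500) (97 / 125) (867 / 1000) (128 / 125)) :
    SecD b κ c4_6.num (7 / 5) (8 / 5) (7 / 4) := by
  subst hb
  have g1 := hh_lo 4 (by norm_num)
  have g2 := hh_hi 4 (by norm_num)
  norm_num at g1 g2
  have h := okph4_6.secD (b := 4) (κ := κ)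
  norm_num [ph4_6] at h
  exact h hY h1 h2 (hh_pos' (by norm_num)) g1 g2

/-- argument data of the class `c4_7` -/
def ph4_7 : PhQ where
  k1 := 23 / 10
  k2 := 20
  H := 3927 / 2500
  Hl := 6283 / 4000
  a1 := 367 / 500
  a0 := 23 / 40
  b1 := 211 / 500
  dI2 := 183 / 200
  dIm := 191 / 200
  Sig := 57 / 50
  F1 := 11619 / 5000
  Fv := 1203 / 400
  Fm := 5307 / 5000
  G0 := 19357 / 10000
  Gm := 23941 / 10000
  Gl := 10779 / 10000
  p1 := 5067 / 10000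
  p0 := 1807 / 10000
  pv := 993 / 1250
  pl := 129 / 2500
  pw := 269 / 1250
  pm := 179 / 5000
  D2 := 103 / 50
  Dm := 179 / 100
  Sg := 183 / 100

theorem okph4_7 : ph4_7.Okq c4_7 := by decide +kernel

theorem secD4_7 {b : ℕ} {κ : ℝ} (hb : b = 4) (h1 : 23 / 10 ≤ κ) (h2 : κ ≤ 20)
    (hY : SecY b κ c4_7.num (367 / 500) (23 / 40) (211 / 500) (183 / 200) (191 / 200) (57 / 50)) :
    SecD b κ c4_7.num (103 / 50) (179 / 100) (183 / 100) := by
  subst hb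
  have g1 := hh_lo 4 (by norm_num)
  have g2 := hh_hi 4 (by norm_num)
  norm_num at g1 g2
  have h := okph4_7.secD (b := 4) (κ := κ)
  norm_num [ph4_7] at h
  exact h hY h1 h2 (hh_pos' (by norm_num)) g1 g2

/-- argument data of the class `c5_1` -/
def ph5_1 : PhQ where
  k1 := 139 / 100
  k2 := 71 / 50
  H := 3927 / 3125
  Hl := 6283 / 5000
  a1 := 29 / 50
  a0 := 1133 / 2000
  b1 := 81 / 200
  dI2 := 41 / 50
  dIm := 613 / 1000
  Sig := 1017 / 1000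
  F1 := 9979 / 5000
  Fv := 25133 / 10000
  Fm := 17751 / 10000
  G0 := 19639 / 10000
  Gm := 31761 / 10000
  Gl := 7901 / 5000
  p1 := 787 / 1250
  p0 := 2953 / 10000
  pv := 1037 / 1000
  pl := 8607 / 10000
  pw := 4027 / 10000
  pm := 481 / 1250
  D2 := 38 / 25
  Dm := 29 / 20
  Sg := 39 / 20

theorem okph5_1 : ph5_1.Okq c5_1 := by decide +kernel

theorem secD5_1 {b : ℕ} {κ : ℝ} (hb : b = 5) (h1 : 139 / 100 ≤ κ) (h2 : κ ≤ 71 / 50)
    (hY : SecY b κ c5_1.num (29 / 50) (1133 / 2000) (81 / 200) (41 / 50) (613 / 1000) (1017 / 1000)) :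
    SecD b κ c5_1.num (38 / 25) (29 / 20) (39 / 20) := by
  subst hb
  have g1 := hh_lo 5 (by norm_num)
  have g2 := hh_hi 5 (by norm_num)
  norm_num at g1 g2
  have h := okph5_1.secD (b := 5) (κ := κ)
  norm_num [ph5_1] at h
  exact h hY h1 h2 (hh_pos' (by norm_num)) g1 g2

/-- argument data of the class `c5_2` -/
def ph5_2 : PhQ where
  k1 := 71 / 50
  k2 := 37 / 25
  H := 3927 / 3125
  Hl := 6283 / 5000
  a1 := 29 / 50
  a0 := 1133 / 2000
  b1 := 51 / 125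
  dI2 := 811 / 1000
  dIm := 309 / 500
  Sig := 1017 / 1000
  F1 := 19863 / 10000
  Fv := 631 / 250
  Fm := 1097 / 625
  G0 := 9773 / 5000
  Gm := 31321 / 10000
  Gl := 15779 / 10000
  p1 := 6123 / 10000
  p0 := 181 / 625
  pv := 2047 / 2000
  pl := 4171 / 5000
  pw := 3943 / 10000
  pm := 1857 / 5000
  D2 := 3 / 2
  Dm := 36 / 25
  Sg := 48 / 25

theorem okph5_2 : ph5_2.Okq c5_2 := by decide +kernel

theorem secD5_2 {b : ℕ} {κ : ℝ} (hb : b = 5) (h1 : 71 / 50 ≤ κ) (h2 : κ ≤ 37 / 25)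
    (hY : SecY b κ c5_2.num (29 / 50) (1133 / 2000) (51 / 125) (811 / 1000) (309 / 500) (1017 / 1000)) :
    SecD b κ c5_2.num (3 / 2) (36 / 25) (48 / 25) := by
  subst hb
  have g1 := hh_lo 5 (by norm_num)
  have g2 := hh_hi 5 (by norm_num)
  norm_num at g1 g2
  have h := okph5_2.secD (b := 5) (κ := κ)
  norm_num [ph5_2] at h
  exact h hY h1 h2 (hh_pos' (by norm_num)) g1 g2

/-- argument data of the class `c5_3` -/
def ph5_3 : PhQ where
  k1 := 37 / 25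
  k2 := 79 / 50
  H := 3927 / 3125
  Hl := 6283 / 5000
  a1 := 29 / 50
  a0 := 1133 / 2000
  b1 := 413 / 1000
  dI2 := 99 / 125
  dIm := 633 / 1000
  Sig := 1017 / 1000
  F1 := 3933 / 2000
  Fv := 6361 / 2500
  Fm := 1072 / 625
  G0 := 4839 / 2500
  Gm := 30269 / 10000
  Gl := 15759 / 10000
  p1 := 2901 / 5000
  p0 := 697 / 2500
  pv := 9991 / 10000
  pl := 7989 / 10000
  pw := 1889 / 5000
  pm := 701 / 2000
  D2 := 36 / 25
  Dm := 143 / 100
  Sg := 47 / 25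

theorem okph5_3 : ph5_3.Okq c5_3 := by decide +kernel

theorem secD5_3 {b : ℕ} {κ : ℝ} (hb : b = 5) (h1 : 37 / 25 ≤ κ) (h2 : κ ≤ 79 / 50)
    (hY : SecY b κ c5_3.num (29 / 50) (1133 / 2000) (413 / 1000) (99 / 125) (633 / 1000) (1017 / 1000)) :
    SecD b κ c5_3.num (36 / 25) (143 / 100) (47 / 25) := by
  subst hb
  have g1 := hh_lo 5 (by norm_num)
  have g2 := hh_hi 5 (by norm_num)
  norm_num at g1 g2
  have h := okph5_3.secD (b := 5) (κ := κ)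
  norm_num [ph5_3] at h
  exact h hY h1 h2 (hh_pos' (by norm_num)) g1 g2

/-- argument data of the class `c5_4` -/
def ph5_4 : PhQ where
  k1 := 79 / 50
  k2 := 433 / 250
  H := 3927 / 3125
  Hl := 6283 / 5000
  a1 := 59 / 100
  a0 := 5871 / 10000
  b1 := 101 / 250
  dI2 := 193 / 250
  dIm := 87 / 100
  Sig := 509 / 500
  F1 := 3909 / 2000
  Fv := 12849 / 5000
  Fm := 7459 / 5000
  G0 := 19479 / 10000
  Gm := 11521 / 5000
  Gl := 15717 / 10000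
  p1 := 5467 / 10000
  p0 := 1347 / 5000
  pv := 2401 / 2500
  pl := 377 / 500
  pw := 3113 / 10000
  pm := 711 / 2500
  D2 := 139 / 100
  Dm := 42 / 25
  Sg := 46 / 25

theorem okph5_4 : ph5_4.Okq c5_4 := by decide +kernel

theorem secD5_4 {b : ℕ} {κ : ℝ} (hb : b = 5) (h1 : 79 / 50 ≤ κ) (h2 : κ ≤ 433 / 250)
    (hY : SecY b κ c5_4.num (59 / 100) (5871 / 10000) (101 / 250) (193 / 250) (87 / 100) (509 / 500)) :
    SecD b κ c5_4.num (139 / 100) (42 / 25) (46 / 25) := by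
  subst hb
  have g1 := hh_lo 5 (by norm_num)
  have g2 := hh_hi 5 (by norm_num)
  norm_num at g1 g2
  have h := okph5_4.secD (b := 5) (κ := κ)
  norm_num [ph5_4] at h
  exact h hY h1 h2 (hh_pos' (by norm_num)) g1 g2

/-- argument data of the class `c5_5` -/
def ph5_5 : PhQ where
  k1 := 433 / 250
  k2 := 2
  H := 3927 / 3125
  Hl := 6283 / 5000
  a1 := 5967 / 10000
  a0 := 11639 / 20000
  b1 := 419 / 1000
  dI2 := 187 / 250
  dIm := 429 / 500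
  Sig := 513 / 500
  F1 := 2393 / 1250
  Fv := 1293 / 500
  Fm := 14579 / 10000
  G0 := 9419 / 5000
  Gm := 11309 / 5000
  Gl := 3877 / 2500
  p1 := 617 / 1250
  p0 := 2471 / 10000
  pv := 1129 / 1250
  pl := 6769 / 10000
  pw := 729 / 2500
  pm := 643 / 2500
  D2 := 131 / 100
  Dm := 159 / 100
  Sg := 177 / 100

theorem okph5_5 : ph5_5.Okq c5_5 := by decide +kernel

theorem secD5_5 {b : ℕ} {κ : ℝ} (hb : b = 5) (h1 : 433 / 250 ≤ κ) (h2 : κ ≤ 2)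
    (hY : SecY b κ c5_5.num (5967 / 10000) (11639 / 20000) (419 / 1000) (187 / 250) (429 / 500) (513 / 500)) :
    SecD b κ c5_5.num (131 / 100) (159 / 100) (177 / 100) := by
  subst hb
  have g1 := hh_lo 5 (by norm_num)
  have g2 := hh_hi 5 (by norm_num)
  norm_num at g1 g2
  have h := okph5_5.secD (b := 5) (κ := κ)
  norm_num [ph5_5] at h
  exact h hY h1 h2 (hh_pos' (by norm_num)) g1 g2

/-- argument data of the class `c5_6` -/
def ph5_6 : PhQ where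
  k1 := 2
  k2 := 20
  H := 3927 / 3125
  Hl := 6283 / 5000
  a1 := 137 / 200
  a0 := 57 / 100
  b1 := 213 / 500
  dI2 := 847 / 1000
  dIm := 903 / 1000
  Sig := 277 / 250
  F1 := 19911 / 10000
  Fv := 2569 / 1000
  Fm := 5249 / 5000
  G0 := 3547 / 2000
  Gm := 10897 / 5000
  Gl := 2121 / 2000
  p1 := 4983 / 10000
  p0 := 2153 / 10000
  pv := 13 / 16
  pl := 497 / 10000
  pw := 331 / 1250
  pm := 369 / 10000
  D2 := 201 / 100
  Dm := 9 / 5
  Sg := 183 / 100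

theorem okph5_6 : ph5_6.Okq c5_6 := by decide +kernel

theorem secD5_6 {b : ℕ} {κ : ℝ} (hb : b = 5) (h1 : 2 ≤ κ) (h2 : κ ≤ 20)
    (hY : SecY b κ c5_6.num (137 / 200) (57 / 100) (213 / 500) (847 / 1000) (903 / 1000) (277 / 250)) :
    SecD b κ c5_6.num (201 / 100) (9 / 5) (183 / 100) := by
  subst hb
  have g1 := hh_lo 5 (by norm_num)
  have g2 := hh_hi 5 (by norm_num)
  norm_num at g1 g2
  have h := okph5_6.secD (b := 5) (κ := κ)
  norm_num [ph5_6] at h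
  exact h hY h1 h2 (hh_pos' (by norm_num)) g1 g2

/-- argument data of the class `c6_1` -/
def ph6_1 : PhQ where
  k1 := 139 / 100
  k2 := 31 / 20
  H := 1309 / 1250
  Hl := 6283 / 6000
  a1 := 29 / 50
  a0 := 11639 / 20000
  b1 := 401 / 1000
  dI2 := 97 / 125
  dIm := 427 / 500
  Sig := 1017 / 1000
  F1 := 17787 / 10000
  Fv := 22517 / 10000
  Fm := 3567 / 2500
  G0 := 891 / 500
  Gm := 2619 / 1250
  Gl := 14769 / 10000
  p1 := 5791 / 10000
  p0 := 397 / 1250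
  pv := 4909 / 5000
  pl := 7789 / 10000
  pw := 3767 / 10000
  pm := 421 / 1250
  D2 := 37 / 25
  Dm := 87 / 50
  Sg := 48 / 25

theorem okph6_1 : ph6_1.Okq c6_1 := by decide +kernel

theorem secD6_1 {b : ℕ} {κ : ℝ} (hb : b = 6) (h1 : 139 / 100 ≤ κ) (h2 : κ ≤ 31 / 20)
    (hY : SecY b κ c6_1.num (29 / 50) (11639 / 20000) (401 / 1000) (97 / 125) (427 / 500) (1017 / 1000)) :
    SecD b κ c6_1.num (37 / 25) (87 / 50) (48 / 25) := by
  subst hb
  have g1 := hh_lo 6 (by norm_num)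
  have g2 := hh_hi 6 (by norm_num)
  norm_num at g1 g2
  have h := okph6_1.secD (b := 6) (κ := κ)
  norm_num [ph6_1] at h
  exact h hY h1 h2 (hh_pos' (by norm_num)) g1 g2

/-- argument data of the class `c6_2` -/
def ph6_2 : PhQ where
  k1 := 31 / 20
  k2 := 433 / 250
  H := 1309 / 1250
  Hl := 6283 / 6000
  a1 := 29 / 50
  a0 := 11639 / 20000
  b1 := 413 / 1000
  dI2 := 183 / 250
  dIm := 839 / 1000
  Sig := 1017 / 1000
  F1 := 1087 / 625
  Fv := 91 / 40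
  Fm := 2823 / 2000
  G0 := 17423 / 10000
  Gm := 20649 / 10000
  Gl := 14779 / 10000
  p1 := 2539 / 5000
  p0 := 2871 / 10000
  pv := 9147 / 10000
  pl := 7351 / 10000
  pw := 3459 / 10000
  pm := 777 / 2500
  D2 := 13 / 10
  Dm := 81 / 50
  Sg := 91 / 50

theorem okph6_2 : ph6_2.Okq c6_2 := by decide +kernel

theorem secD6_2 {b : ℕ} {κ : ℝ} (hb : b = 6) (h1 : 31 / 20 ≤ κ) (h2 : κ ≤ 433 / 250)
    (hY : SecY b κ c6_2.num (29 / 50) (11639 / 20000) (413 / 1000) (183 / 250) (839 / 1000) (1017 / 1000)) :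
    SecD b κ c6_2.num (13 / 10) (81 / 50) (91 / 50) := by
  subst hb
  have g1 := hh_lo 6 (by norm_num)
  have g2 := hh_hi 6 (by norm_num)
  norm_num at g1 g2
  have h := okph6_2.secD (b := 6) (κ := κ)
  norm_num [ph6_2] at h
  exact h hY h1 h2 (hh_pos' (by norm_num)) g1 g2

/-- argument data of the class `c6_3` -/
def ph6_3 : PhQ where
  k1 := 433 / 250
  k2 := 20
  H := 1309 / 1250
  Hl := 6283 / 6000
  a1 := 333 / 500
  a0 := 5871 / 10000
  b1 := 419 / 1000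
  dI2 := 853 / 1000
  dIm := 23 / 25
  Sig := 1113 / 1000
  F1 := 3659 / 2000
  Fv := 5691 / 2500
  Fm := 651 / 625
  G0 := 1703 / 1000
  Gm := 10143 / 5000
  Gl := 2097 / 2000
  p1 := 5353 / 10000
  p0 := 327 / 1250
  pv := 8463 / 10000
  pl := 19 / 400
  pw := 639 / 2000
  pm := 187 / 5000
  D2 := 107 / 50
  Dm := 39 / 20
  Sg := 191 / 100

theorem okph6_3 : ph6_3.Okq c6_3 := by decide +kernel

theorem secD6_3 {b : ℕ} {κ : ℝ} (hb : b = 6) (h1 : 433 / 250 ≤ κ) (h2 : κ ≤ 20)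
    (hY : SecY b κ c6_3.num (333 / 500) (5871 / 10000) (419 / 1000) (853 / 1000) (23 / 25) (1113 / 1000)) :
    SecD b κ c6_3.num (107 / 50) (39 / 20) (191 / 100) := by
  subst hb
  have g1 := hh_lo 6 (by norm_num)
  have g2 := hh_hi 6 (by norm_num)
  norm_num at g1 g2
  have h := okph6_3.secD (b := 6) (κ := κ)
  norm_num [ph6_3] at h
  exact h hY h1 h2 (hh_pos' (by norm_num)) g1 g2

/-- argument data of the class `c7_1` -/
def ph7_1 : PhQ where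
  k1 := 139 / 100
  k2 := 433 / 250
  H := 561 / 625
  Hl := 6283 / 7000
  a1 := 29 / 50
  a0 := 11639 / 20000
  b1 := 203 / 500
  dI2 := 149 / 200
  dIm := 829 / 1000
  Sig := 1017 / 1000
  F1 := 16383 / 10000
  Fv := 5147 / 2500
  Fm := 13489 / 10000
  G0 := 16409 / 10000
  Gm := 2407 / 1250
  Gl := 6953 / 5000
  p1 := 1097 / 2000
  p0 := 3301 / 10000
  pv := 9439 / 10000
  pl := 1703 / 2500
  pw := 4051 / 10000
  pm := 659 / 2000
  D2 := 3 / 2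
  Dm := 171 / 100
  Sg := 19 / 10

theorem okph7_1 : ph7_1.Okq c7_1 := by decide +kernel

theorem secD7_1 {b : ℕ} {κ : ℝ} (hb : b = 7) (h1 : 139 / 100 ≤ κ) (h2 : κ ≤ 433 / 250)
    (hY : SecY b κ c7_1.num (29 / 50) (11639 / 20000) (203 / 500) (149 / 200) (829 / 1000) (1017 / 1000)) :
    SecD b κ c7_1.num (3 / 2) (171 / 100) (19 / 10) := by
  subst hb
  have g1 := hh_lo 7 (by norm_num)
  have g2 := hh_hi 7 (by norm_num)
  norm_num at g1 g2
  have h := okph7_1.secD (b := 7) (κ := κ)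
  norm_num [ph7_1] at h
  exact h hY h1 h2 (hh_pos' (by norm_num)) g1 g2

/-- argument data of the class `c7_2` -/
def ph7_2 : PhQ where
  k1 := 433 / 250
  k2 := 20
  H := 561 / 625
  Hl := 6283 / 7000
  a1 := 16 / 25
  a0 := 11639 / 20000
  b1 := 213 / 500
  dI2 := 789 / 1000
  dIm := 869 / 1000
  Sig := 273 / 250
  F1 := 16447 / 10000
  Fv := 20589 / 10000
  Fm := 10367 / 10000
  G0 := 393 / 250
  Gm := 2337 / 1250
  Gl := 1303 / 1250
  p1 := 2411 / 5000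
  p0 := 539 / 2000
  pv := 4033 / 5000
  pl := 121 / 2500
  pw := 343 / 1000
  pm := 97 / 2500
  D2 := 99 / 50
  Dm := 93 / 50
  Sg := 37 / 20

theorem okph7_2 : ph7_2.Okq c7_2 := by decide +kernel

theorem secD7_2 {b : ℕ} {κ : ℝ} (hb : b = 7) (h1 : 433 / 250 ≤ κ) (h2 : κ ≤ 20)
    (hY : SecY b κ c7_2.num (16 / 25) (11639 / 20000) (213 / 500) (789 / 1000) (869 / 1000) (273 / 250)) :
    SecD b κ c7_2.num (99 / 50) (93 / 50) (37 / 20) := by
  subst hb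
  have g1 := hh_lo 7 (by norm_num)
  have g2 := hh_hi 7 (by norm_num)
  norm_num at g1 g2
  have h := okph7_2.secD (b := 7) (κ := κ)
  norm_num [ph7_2] at h
  exact h hY h1 h2 (hh_pos' (by norm_num)) g1 g2

/-- argument data of the class `c8_1` -/
def ph8_1 : PhQ where
  k1 := 139 / 100
  k2 := 433 / 250
  H := 3927 / 5000
  Hl := 0
  a1 := 23 / 40
  a0 := 721 / 1250
  b1 := 83 / 200
  dI2 := 717 / 1000
  dIm := 201 / 250
  Sig := 1017 / 1000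
  F1 := 3069 / 2000
  Fv := 19129 / 10000
  Fm := 13083 / 10000
  G0 := 1
  Gm := 1
  Gl := 1
  p1 := 5221 / 10000
  p0 := 4201 / 10000
  pv := 9157 / 10000
  pl := 1257 / 2500
  pw := 727 / 1250
  pm := 1743 / 5000
  D2 := 42 / 25
  Dm := 91 / 50
  Sg := 49 / 25

theorem okph8_1 : ph8_1.Okq c8_1 := by decide +kernel

theorem secD8_1 {b : ℕ} {κ : ℝ} (hb : 8 ≤ b) (h1 : 139 / 100 ≤ κ) (h2 : κ ≤ 433 / 250)
    (hY : SecY b κ c8_1.num (23 / 40) (721 / 1250) (83 / 200) (717 / 1000) (201 / 250) (1017 / 1000)) :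
    SecD b κ c8_1.num (42 / 25) (91 / 50) (49 / 25) := by
  have g2 := hh_hi8 hb
  have h := okph8_1.secD (b := b) (κ := κ)
  norm_num [ph8_1] at h
  exact h hY h1 h2 (hh_pos' (by omega)) (hh_pos' (by omega)).le g2

/-- argument data of the class `c8_2` -/
def ph8_2 : PhQ where
  k1 := 433 / 250
  k2 := 20
  H := 3927 / 5000
  Hl := 0
  a1 := 5 / 8
  a0 := 721 / 1250
  b1 := 54 / 125
  dI2 := 749 / 1000
  dIm := 209 / 250
  Sig := 1079 / 1000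
  F1 := 7649 / 5000
  Fv := 3801 / 2000
  Fm := 10327 / 10000
  G0 := 1
  Gm := 1
  Gl := 1
  p1 := 1129 / 2500
  p0 := 419 / 1250
  pv := 1943 / 2500
  pl := 59 / 1250
  pw := 2399 / 5000
  pm := 397 / 10000
  D2 := 39 / 20
  Dm := 48 / 25
  Sg := 187 / 100

theorem okph8_2 : ph8_2.Okq c8_2 := by decide +kernel

theorem secD8_2 {b : ℕ} {κ : ℝ} (hb : 8 ≤ b) (h1 : 433 / 250 ≤ κ) (h2 : κ ≤ 20)
    (hY : SecY b κ c8_2.num (5 / 8) (721 / 1250) (54 / 125) (749 / 1000) (209 / 250) (1079 / 1000)) :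
    SecD b κ c8_2.num (39 / 20) (48 / 25) (187 / 100) := by
  have g2 := hh_hi8 hb
  have h := okph8_2.secD (b := b) (κ := κ)
  norm_num [ph8_2] at h
  exact h hY h1 h2 (hh_pos' (by omega)) (hh_pos' (by omega)).le g2

end Sok.R2
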