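import Pool.Agent.Lib.MP_816dec_an.R2Tab

/-!
MP_816dec_an, row R2 (6): sharp criterion, `min 1 (lv κ τ)` is monotone in `κ ≥ 1` for fixed `τ ≥ 0`.
-/

set_option autoImplicit false

open Set Filter Topology Real

namespace Sok

namespace R2

private theorem poly1 {κ x p : ℝ} (hκ : 1 ≤ κ) (hx : 0 < x) (hp : 1 ≤ p) (hpx : p * x ≤ κ) :
    0 ≤ x ^ 3 * p ^ 2 * (κ ^ 2 - 2) + x * p ^ 4 * (κ ^ 2 - 1) - x ^ 5 +
      (1 + κ ^ 2) * (x * (3 * p ^ 2 - 2 * p ^ 3) - (1 + 2 * p) * x ^ 3 + κ * (p ^ 4 - p ^ 3) + 3 * p * κ * x ^ 2) := by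
  obtain ⟨v, hv⟩ : ∃ v, v = p - 1 := ⟨_, rfl⟩
  have hv0 : 0 ≤ v := by linarith
  have hpv : p = 1 + v := by linarith
  have hp0 : 0 < p := by linarith
  -- monotonicity in κ
  have mono : ∀ k : ℝ, 0 ≤ k → k ≤ κ →
      0 ≤ (κ - k) * ((p ^ 4 - p ^ 3 + 3 * p * x ^ 2) * (κ ^ 2 + κ * k + k ^ 2 + 1) +
        (x ^ 3 * (p ^ 2 - 2 * p - 1) + x * p ^ 2 * (p ^ 2 - 2 * p + 3)) * (κ + k)) := by
    intro k hk0 hk
    apply mul_nonneg (by linarith)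
    have h1 : 3 * p * x ^ 2 ≤ p ^ 4 - p ^ 3 + 3 * p * x ^ 2 := by
      have h : 0 ≤ p ^ 3 * v := by positivity
      have e : p ^ 4 - p ^ 3 = p ^ 3 * v := by rw [hv]; ring
      linarith
    have h2 : -(2 * x ^ 3) ≤ x ^ 3 * (p ^ 2 - 2 * p - 1) + x * p ^ 2 * (p ^ 2 - 2 * p + 3) := by
      have e : x ^ 3 * (p ^ 2 - 2 * p - 1) + x * p ^ 2 * (p ^ 2 - 2 * p + 3) + 2 * x ^ 3 =
          x ^ 3 * v ^ 2 + x * p ^ 2 * (v ^ 2 + 2) := by rw [hv]; ring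
      have : 0 ≤ x ^ 3 * v ^ 2 + x * p ^ 2 * (v ^ 2 + 2) := by positivity
      linarith
    have h3 : (3 * p * x ^ 2) * ((p * x) * (κ + k)) ≤
        (p ^ 4 - p ^ 3 + 3 * p * x ^ 2) * (κ ^ 2 + κ * k + k ^ 2 + 1) := by
      apply mul_le_mul h1 _ (by positivity) (by linarith [show 0 ≤ 3 * p * x ^ 2 by positivity])
      have h4 : (p * x) * (κ + k) ≤ κ * (κ + k) := mul_le_mul_of_nonneg_right hpx (by linarith)
      nlinarith [sq_nonneg k]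
    have h5 : -(2 * x ^ 3) * (κ + k) ≤
        (x ^ 3 * (p ^ 2 - 2 * p - 1) + x * p ^ 2 * (p ^ 2 - 2 * p + 3)) * (κ + k) :=
      mul_le_mul_of_nonneg_right h2 (by linarith)
    have h6 : 0 ≤ x ^ 3 * (κ + k) * (3 * p ^ 2 - 2) := by
      apply mul_nonneg (by positivity)
      nlinarith
    nlinarith
  have e0 : ∀ k : ℝ, x ^ 3 * p ^ 2 * (κ ^ 2 - 2) + x * p ^ 4 * (κ ^ 2 - 1) - x ^ 5 +
      (1 + κ ^ 2) * (x * (3 * p ^ 2 - 2 * p ^ 3) - (1 + 2 * p) * x ^ 3 + κ * (p ^ 4 - p ^ 3) + 3 * p * κ * x ^ 2) =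
      (x ^ 3 * p ^ 2 * (k ^ 2 - 2) + x * p ^ 4 * (k ^ 2 - 1) - x ^ 5 +
      (1 + k ^ 2) * (x * (3 * p ^ 2 - 2 * p ^ 3) - (1 + 2 * p) * x ^ 3 + k * (p ^ 4 - p ^ 3) + 3 * p * k * x ^ 2)) +
      (κ - k) * ((p ^ 4 - p ^ 3 + 3 * p * x ^ 2) * (κ ^ 2 + κ * k + k ^ 2 + 1) +
        (x ^ 3 * (p ^ 2 - 2 * p - 1) + x * p ^ 2 * (p ^ 2 - 2 * p + 3)) * (κ + k)) := by
    intro k; ring
  rcases le_total 1 (p * x) with h | h
  · -- `κ₁ = p x`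
    rw [e0 (p * x)]
    have hm := mono (p * x) (by positivity) hpx
    have h1 : 1 ≤ p ^ 2 * x ^ 2 := by
      have := mul_le_mul h h (by norm_num) (by positivity)
      nlinarith
    have e1 : x ^ 3 * p ^ 2 * ((p * x) ^ 2 - 2) + x * p ^ 4 * ((p * x) ^ 2 - 1) - x ^ 5 +
        (1 + (p * x) ^ 2) * (x * (3 * p ^ 2 - 2 * p ^ 3) - (1 + 2 * p) * x ^ 3 + (p * x) * (p ^ 4 - p ^ 3) +
          3 * p * (p * x) * x ^ 2) =
        x * ((4 * p ^ 4 - 2 * p ^ 3 - p ^ 2 - 1) * x ^ 4 +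
          (9 * v + 20 * v ^ 2 + 27 * v ^ 3 + 28 * v ^ 4 + 19 * v ^ 5 + 7 * v ^ 6 + v ^ 7) * x ^ 2 +
          p ^ 2 * (v * (v ^ 2 + v - 3))) := by
      rw [hv]; ring
    rw [e1]
    have h2 : 0 ≤ 4 * p ^ 4 - 2 * p ^ 3 - p ^ 2 - 1 := by
      rw [hpv]
      have : 4 * (1 + v) ^ 4 - 2 * (1 + v) ^ 3 - (1 + v) ^ 2 - 1 = 8 * v + 17 * v ^ 2 + 14 * v ^ 3 + 4 * v ^ 4 := by ring
      rw [this]; positivity
    have h3 : 3 * v * p ^ 2 ≤ 3 * v * p ^ 2 * (p ^ 2 * x ^ 2) := by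
      have : 0 ≤ 3 * v * p ^ 2 := by positivity
      nlinarith
    have h4 : 0 ≤ (9 * v + 20 * v ^ 2 + 27 * v ^ 3 + 28 * v ^ 4 + 19 * v ^ 5 + 7 * v ^ 6 + v ^ 7) * x ^ 2 -
        3 * v * p ^ 4 * x ^ 2 := by
      have e : (9 * v + 20 * v ^ 2 + 27 * v ^ 3 + 28 * v ^ 4 + 19 * v ^ 5 + 7 * v ^ 6 + v ^ 7) * x ^ 2 -
        3 * v * p ^ 4 * x ^ 2 = (6 * v + 8 * v ^ 2 + 9 * v ^ 3 + 16 * v ^ 4 + 16 * v ^ 5 + 7 * v ^ 6 + v ^ 7) * x ^ 2 := by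
        rw [hpv]; ring
      rw [e]; positivity
    have h5 : -(3 * v * p ^ 2) ≤ p ^ 2 * (v * (v ^ 2 + v - 3)) := by
      have : 0 ≤ p ^ 2 * (v * (v ^ 2 + v)) := by positivity
      nlinarith
    have h6 : 0 ≤ (4 * p ^ 4 - 2 * p ^ 3 - p ^ 2 - 1) * x ^ 4 := mul_nonneg h2 (by positivity)
    have h7 : 0 ≤ (4 * p ^ 4 - 2 * p ^ 3 - p ^ 2 - 1) * x ^ 4 +
          (9 * v + 20 * v ^ 2 + 27 * v ^ 3 + 28 * v ^ 4 + 19 * v ^ 5 + 7 * v ^ 6 + v ^ 7) * x ^ 2 +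
          p ^ 2 * (v * (v ^ 2 + v - 3)) := by nlinarith
    have h8 := mul_nonneg hx.le h7
    linarith
  · -- `κ₁ = 1`
    rw [e0 1]
    have hm := mono 1 (by norm_num) hκ
    have hx1 : x ≤ 1 := by nlinarith
    have h1 : 0 ≤ x ^ 3 * p ^ 2 * ((1:ℝ) ^ 2 - 2) + x * p ^ 4 * ((1:ℝ) ^ 2 - 1) - x ^ 5 +
        (1 + (1:ℝ) ^ 2) * (x * (3 * p ^ 2 - 2 * p ^ 3) - (1 + 2 * p) * x ^ 3 + 1 * (p ^ 4 - p ^ 3) +
          3 * p * 1 * x ^ 2) := by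
      have e1 : x ^ 3 * p ^ 2 * ((1:ℝ) ^ 2 - 2) + x * p ^ 4 * ((1:ℝ) ^ 2 - 1) - x ^ 5 +
        (1 + (1:ℝ) ^ 2) * (x * (3 * p ^ 2 - 2 * p ^ 3) - (1 + 2 * p) * x ^ 3 + 1 * (p ^ 4 - p ^ 3) +
          3 * p * 1 * x ^ 2) =
          (1 - x) * (6 * v ^ 2 + 4 * v ^ 3) + (2 * v + 2 * v ^ 3 + 2 * v ^ 4) +
          (2 * x + 6 * (p * x ^ 2) - (p * x) * (p * x ^ 2) - x ^ 5 - 2 * x ^ 3 - 4 * (p * x ^ 2) * x) := by
        rw [hv]; ring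
      rw [e1]
      have h2 : 0 ≤ (1 - x) * (6 * v ^ 2 + 4 * v ^ 3) := mul_nonneg (by linarith) (by positivity)
      have h3 : 0 ≤ 2 * v + 2 * v ^ 3 + 2 * v ^ 4 := by positivity
      have h4 : x ^ 2 ≤ p * x ^ 2 := by nlinarith [sq_nonneg x]
      have h5 : (p * x) * (p * x ^ 2) ≤ 1 * (p * x ^ 2) := mul_le_mul_of_nonneg_right h (by positivity)
      have h6 : x ^ 2 * (5 - 4 * x) ≤ p * x ^ 2 * (5 - 4 * x) := mul_le_mul_of_nonneg_right h4 (by linarith)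
      have h7 : x ^ 2 ≤ x := by nlinarith
      have h8 : x ^ 3 ≤ x ^ 2 := by nlinarith [sq_nonneg x]
      have h9 : x ^ 5 ≤ x ^ 2 := by
        have : x ^ 3 ≤ 1 := pow_le_one₀ hx.le hx1
        calc x ^ 5 = x ^ 2 * x ^ 3 := by ring
          _ ≤ x ^ 2 * 1 := mul_le_mul_of_nonneg_left this (by positivity)
          _ = x ^ 2 := by ring
      nlinarith
    linarith

/-- the polynomial inequality behind the monotonicity -/
private theorem poly2 {κ x p : ℝ} (hκ : 1 ≤ κ) (hx : 0 < x) (hp : 1 ≤ p) (hpx : p * x ≤ κ)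
    (hL : (1 + κ ^ 2) * x ≤ κ * (x ^ 2 + p ^ 2)) :
    0 ≤ x * (κ ^ 2 - 1) * (x ^ 2 + p ^ 2) ^ 2 + (1 + κ ^ 2) * x * (3 * p ^ 2 - 2 * p ^ 3 - (1 + 2 * p) * x ^ 2) +
      (1 + κ ^ 2) * κ * (p ^ 4 - p ^ 3 - x ^ 4 + 3 * p * x ^ 2) := by
  have h1 := poly1 hκ hx hp hpx
  have h2 : 0 ≤ κ * x ^ 3 * (κ * (x ^ 2 + p ^ 2) - (1 + κ ^ 2) * x) :=
    mul_nonneg (by positivity) (by linarith)
  nlinarith

/-- an elementary implicit function derivative -/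
theorem implicit_deriv {F : ℝ × ℝ → ℝ} {F' : ℝ × ℝ →L[ℝ] ℝ} {Y : ℝ → ℝ} {k : ℝ}
    (hF : HasFDerivAt F F' (k, Y k)) (hY : ContinuousAt Y k) (h0 : ∀ᶠ k' in 𝓝 k, F (k', Y k') = F (k, Y k))
    (hne : F' (0, 1) ≠ 0) : HasDerivAt Y (-(F' (1, 0)) / F' (0, 1)) k := by
  have ht : Tendsto (fun k' => (k', Y k')) (𝓝 k) (𝓝 (k, Y k)) := (continuousAt_id.prodMk hY)
  have h1 := hF.isLittleO.comp_tendsto ht
  -- linear form
  have hlin : ∀ a b : ℝ, F' (a, b) = a * F' (1, 0) + b * F' (0, 1) := by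
    intro a b
    have : ((a, b) : ℝ × ℝ) = a • ((1, 0) : ℝ × ℝ) + b • ((0, 1) : ℝ × ℝ) := by
      ext <;> simp
    rw [this, map_add, map_smul, map_smul]
    rfl
  obtain ⟨A, hA⟩ : ∃ A, A = F' (1, 0) := ⟨_, rfl⟩
  obtain ⟨B, hB⟩ : ∃ B, B = F' (0, 1) := ⟨_, rfl⟩
  rw [← hB] at hne
  have h2 : (fun k' => (Y k' - Y k) + (A / B) * (k' - k)) =o[𝓝 k] (fun k' => ((k', Y k') : ℝ × ℝ) - (k, Y k)) := by
    have h3 : (fun k' => F (k', Y k') - F (k, Y k) - F' ((k', Y k') - (k, Y k))) =o[𝓝 k]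
        (fun k' => ((k', Y k') : ℝ × ℝ) - (k, Y k)) := h1
    have h4 := h3.const_mul_left (-(1 / B))
    refine h4.congr' ?_ EventuallyEq.rfl
    filter_upwards [h0] with k' hk'
    rw [hk', Prod.mk_sub_mk, hlin, ← hA, ← hB]
    field_simp
    ring
  have h5 : (fun k' => ((k', Y k') : ℝ × ℝ) - (k, Y k)) =O[𝓝 k] (fun k' => k' - k) := by
    have h6 : ∀ᶠ k' in 𝓝 k, ‖(Y k' - Y k) + (A / B) * (k' - k)‖ ≤ (1 / 2) * ‖((k', Y k') : ℝ × ℝ) - (k, Y k)‖ :=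
      h2.bound (by norm_num)
    refine Asymptotics.IsBigO.of_bound (2 * |A / B| + 1) ?_
    filter_upwards [h6] with k' hk'
    rw [Prod.mk_sub_mk, Prod.norm_mk] at hk' ⊢
    simp only [Real.norm_eq_abs] at hk' ⊢
    have h7 : |Y k' - Y k| ≤ |(Y k' - Y k) + (A / B) * (k' - k)| + |A / B| * |k' - k| := by
      rw [← abs_mul]
      have := abs_sub ((Y k' - Y k) + (A / B) * (k' - k)) ((A / B) * (k' - k))
      rwa [add_sub_cancel_right] at this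
    have h8 := abs_nonneg (k' - k)
    have h9 := mul_nonneg (abs_nonneg (A / B)) h8
    rcases le_total |k' - k| |Y k' - Y k| with h | h
    · rw [max_eq_right h] at hk' ⊢
      nlinarith
    · rw [max_eq_left h] at hk' ⊢
      nlinarith
  have h6 := h2.trans_isBigO h5
  rw [hasDerivAt_iff_isLittleO]
  refine h6.congr' ?_ EventuallyEq.rfl
  refine Eventually.of_forall fun k' => ?_
  simp only [smul_eq_mul]
  rw [← hA, ← hB]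
  ring

theorem hasDerivAt_Xk_kappa {κ y : ℝ} (h : Iy κ y) :
    HasDerivAt (fun k => Xk k y) (κ * exp (-2 * y) / Xk κ y) κ := by
  have h1 : HasDerivAt (fun k : ℝ => k ^ 2 * exp (-2 * y) - y ^ 2) (2 * κ * exp (-2 * y)) κ := by
    have h2 : HasDerivAt (fun k : ℝ => k ^ 2) (2 * κ) κ := by simpa using hasDerivAt_pow 2 κ
    exact (h2.mul_const _).sub_const _
  have h2 := h1.sqrt (by have := h.gpos.ne'; unfold gk at this; exact this)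
  have e : 2 * κ * exp (-2 * y) / (2 * sqrt (κ ^ 2 * exp (-2 * y) - y ^ 2)) = κ * exp (-2 * y) / Xk κ y := by
    have hx : sqrt (κ ^ 2 * exp (-2 * y) - y ^ 2) = Xk κ y := rfl
    rw [hx]
    have := h.xpos.ne'
    field_simp
  rw [e] at h2
  exact h2

theorem hasDerivAt_Tk_kappa {κ y : ℝ} (h : Iy κ y) :
    HasDerivAt (fun k => Tk k y) (-(y + κ ^ 2 * exp (-2 * y)) / (κ * Xk κ y)) κ := by
  have hx := h.xpos
  have hk := h.kpos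
  have h1 := hasDerivAt_Xk_kappa h
  have h2' : HasDerivAt (fun k => y / Xk k y) ((0 * Xk κ y - y * (κ * exp (-2 * y) / Xk κ y)) / Xk κ y ^ 2) κ :=
    (hasDerivAt_const κ y).div h1 hx.ne'
  have h2 := h2'.arctan.sub h1
  have hs := x_sq_add h
  have e : (1 / (1 + (y / Xk κ y) ^ 2)) * ((0 * Xk κ y - y * (κ * exp (-2 * y) / Xk κ y)) / Xk κ y ^ 2) -
      κ * exp (-2 * y) / Xk κ y = -(y + κ ^ 2 * exp (-2 * y)) / (κ * Xk κ y) := by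
    have h4 : 0 < Xk κ y ^ 2 + y ^ 2 := by positivity
    have h5 : 1 + (y / Xk κ y) ^ 2 = (Xk κ y ^ 2 + y ^ 2) / Xk κ y ^ 2 := by field_simp
    have hE := exp_pos (-2 * y)
    rw [h5, hs]
    field_simp
    ring
  rw [e] at h2
  exact h2

private theorem eventually_Iy_kappa {κ y : ℝ} (hκ : 1 ≤ κ) (h : Iy κ y) : ∀ᶠ k in 𝓝 κ, Iy k y := by
  have he : exp (-1) < κ := by
    have : exp (-1) < 1 := by rw [exp_lt_one_iff]; norm_num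
    linarith
  filter_upwards [lt_mem_nhds h.1, lt_mem_nhds he] with k hk hk'
  exact ⟨hk, Or.inl hk'⟩

private theorem eventually_DomR {κ τ : ℝ} (hκ : 1 ≤ κ) (hτ : τ < κ + π / 2) : ∀ᶠ k in 𝓝 κ, DomR k (τ - k) := by
  have he : exp (-1) < κ := by
    have : exp (-1) < 1 := by rw [exp_lt_one_iff]; norm_num
    linarith
  have h1 : τ - π / 2 < κ := by linarith
  filter_upwards [lt_mem_nhds he, lt_mem_nhds h1, lt_mem_nhds (show (0:ℝ) < κ by linarith)] with k hk hk' hk0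
  exact ⟨hk0, by linarith, Or.inl hk⟩

theorem continuousAt_syk {κ τ : ℝ} (hκ : 1 ≤ κ) (hτ : τ < κ + π / 2) :
    ContinuousAt (fun k => sy k (τ - k)) κ := by
  have hd : DomR κ (τ - κ) := DomR_of hκ (by linarith)
  obtain ⟨hI, hT⟩ := sy_spec hd
  have hDom := eventually_DomR hκ hτ
  apply tendsto_order.2
  constructor
  · intro a ha
    obtain ⟨a', ha', haI⟩ : ∃ a' ∈ Ioo a (sy κ (τ - κ)), Iy κ a' := by
      have h1 : ∀ᶠ z in 𝓝[<] (sy κ (τ - κ)), Iy κ z := (eventually_Iy hI).filter_mono nhdsWithin_le_nhds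
      have h2 : ∀ᶠ z in 𝓝[<] (sy κ (τ - κ)), z ∈ Ioo a (sy κ (τ - κ)) := Ioo_mem_nhdsLT ha
      obtain ⟨z, hz⟩ := (h2.and h1).exists
      exact ⟨z, hz.1, hz.2⟩
    have h3 := Tk_strictMono haI hI ha'.2
    have hc : ContinuousAt (fun k => Tk k a' + k) κ := (hasDerivAt_Tk_kappa haI).continuousAt.add continuousAt_id
    have h4 : ∀ᶠ k in 𝓝 κ, Tk k a' + k < τ := hc.eventually (gt_mem_nhds (by rw [hT] at h3; linarith))
    filter_upwards [hDom, eventually_Iy_kappa hκ haI, h4] with k hk hkI hk4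
    obtain ⟨hI', hT'⟩ := sy_spec hk
    by_contra hcon
    push Not at hcon
    have h5 : Tk k (sy k (τ - k)) ≤ Tk k a' := by
      rcases eq_or_lt_of_le (hcon.trans ha'.1.le) with h | h
      · rw [h]
      · exact (Tk_strictMono hI' hkI h).le
    linarith
  · intro a ha
    obtain ⟨a', ha', haI⟩ : ∃ a' ∈ Ioo (sy κ (τ - κ)) a, Iy κ a' := by
      have h1 : ∀ᶠ z in 𝓝[>] (sy κ (τ - κ)), Iy κ z := (eventually_Iy hI).filter_mono nhdsWithin_le_nhds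
      have h2 : ∀ᶠ z in 𝓝[>] (sy κ (τ - κ)), z ∈ Ioo (sy κ (τ - κ)) a := Ioo_mem_nhdsGT ha
      obtain ⟨z, hz⟩ := (h2.and h1).exists
      exact ⟨z, hz.1, hz.2⟩
    have h3 := Tk_strictMono hI haI ha'.1
    have hc : ContinuousAt (fun k => Tk k a' + k) κ := (hasDerivAt_Tk_kappa haI).continuousAt.add continuousAt_id
    have h4 : ∀ᶠ k in 𝓝 κ, τ < Tk k a' + k := hc.eventually (lt_mem_nhds (by rw [hT] at h3; linarith))
    filter_upwards [hDom, eventually_Iy_kappa hκ haI, h4] with k hk hkI hk4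
    obtain ⟨hI', hT'⟩ := sy_spec hk
    by_contra hcon
    push Not at hcon
    have h5 : Tk k a' ≤ Tk k (sy k (τ - k)) := by
      rcases eq_or_lt_of_le (ha'.2.le.trans hcon) with h | h
      · rw [← h]
      · exact (Tk_strictMono hkI hI' h).le
    linarith

private theorem diffAt_F {κ y : ℝ} (h : Iy κ y) :
    DifferentiableAt ℝ (fun q : ℝ × ℝ => Tk q.1 q.2 + q.1) (κ, y) := by
  have hg : κ ^ 2 * exp (-2 * y) - y ^ 2 ≠ 0 := by have := h.gpos.ne'; unfold gk at this; exact this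
  have h1 : DifferentiableAt ℝ (fun q : ℝ × ℝ => q.1 ^ 2 * exp (-2 * q.2) - q.2 ^ 2) (κ, y) := by fun_prop
  have h2 : DifferentiableAt ℝ (fun q : ℝ × ℝ => sqrt (q.1 ^ 2 * exp (-2 * q.2) - q.2 ^ 2)) (κ, y) := h1.sqrt hg
  have hx : sqrt (κ ^ 2 * exp (-2 * y) - y ^ 2) ≠ 0 := h.xpos.ne'
  have h3 : DifferentiableAt ℝ (fun q : ℝ × ℝ => q.2 / sqrt (q.1 ^ 2 * exp (-2 * q.2) - q.2 ^ 2)) (κ, y) := by
    have h4 := h2.inv hx
    have h5 : DifferentiableAt ℝ (fun q : ℝ × ℝ => q.2 * (sqrt (q.1 ^ 2 * exp (-2 * q.2) - q.2 ^ 2))⁻¹) (κ, y) :=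
      differentiableAt_snd.fun_mul h4
    simpa only [div_eq_mul_inv] using h5
  exact (h3.arctan.sub h2).add differentiableAt_fst

/-- derivative in `κ` of the saddle at fixed `τ` -/
theorem hasDerivAt_syk {κ τ : ℝ} (hκ : 1 ≤ κ) (hτ : τ < κ + π / 2) :
    HasDerivAt (fun k => sy k (τ - k))
      (((sx κ (τ - κ) ^ 2 + sy κ (τ - κ) ^ 2 + sy κ (τ - κ)) / κ - sx κ (τ - κ)) /
        (sx κ (τ - κ) ^ 2 + (1 + sy κ (τ - κ)) ^ 2)) κ := by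
  have hd : DomR κ (τ - κ) := DomR_of hκ (by linarith)
  obtain ⟨hI, hT⟩ := sy_spec hd
  have hF := (diffAt_F hI).hasFDerivAt
  have hk0 : 0 < κ := by linarith
  have h10 : (fderiv ℝ (fun q : ℝ × ℝ => Tk q.1 q.2 + q.1) (κ, sy κ (τ - κ))) (1, 0) =
      -(sy κ (τ - κ) + κ ^ 2 * exp (-2 * sy κ (τ - κ))) / (κ * Xk κ (sy κ (τ - κ))) + 1 := by
    have h1 : HasDerivAt (fun k : ℝ => ((k, sy κ (τ - κ)) : ℝ × ℝ)) (1, 0) κ :=
      (hasDerivAt_id κ).prodMk (hasDerivAt_const κ _)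
    have h2 : HasDerivAt (fun k : ℝ => Tk k (sy κ (τ - κ)) + k)
        ((fderiv ℝ (fun q : ℝ × ℝ => Tk q.1 q.2 + q.1) (κ, sy κ (τ - κ))) (1, 0)) κ :=
      HasFDerivAt.comp_hasDerivAt (x := κ) (f := fun k : ℝ => ((k, sy κ (τ - κ)) : ℝ × ℝ)) hF h1
    exact h2.unique ((hasDerivAt_Tk_kappa hI).add (hasDerivAt_id κ))
  have h01 : (fderiv ℝ (fun q : ℝ × ℝ => Tk q.1 q.2 + q.1) (κ, sy κ (τ - κ))) (0, 1) =
      (Xk κ (sy κ (τ - κ)) ^ 2 + (1 + sy κ (τ - κ)) ^ 2) / Xk κ (sy κ (τ - κ)) := by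
    have h1 : HasDerivAt (fun z : ℝ => ((κ, z) : ℝ × ℝ)) (0, 1) (sy κ (τ - κ)) :=
      (hasDerivAt_const _ κ).prodMk (hasDerivAt_id _)
    have h2 : HasDerivAt (fun z : ℝ => Tk κ z + κ)
        ((fderiv ℝ (fun q : ℝ × ℝ => Tk q.1 q.2 + q.1) (κ, sy κ (τ - κ))) (0, 1)) (sy κ (τ - κ)) :=
      HasFDerivAt.comp_hasDerivAt (x := sy κ (τ - κ)) (f := fun z : ℝ => ((κ, z) : ℝ × ℝ)) hF h1
    exact h2.unique ((hasStrictDerivAt_Tk hI).hasDerivAt.add_const κ)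
  have hx : 0 < Xk κ (sy κ (τ - κ)) := hI.xpos
  have hD := D_pos hI
  have h3 := implicit_deriv (F := fun q : ℝ × ℝ => Tk q.1 q.2 + q.1) (Y := fun k => sy k (τ - k)) (k := κ) hF
    (continuousAt_syk hκ hτ) (by
      filter_upwards [eventually_DomR hκ hτ] with k hk
      have h1 := (sy_spec hk).2
      show Tk k (sy k (τ - k)) + k = Tk κ (sy κ (τ - κ)) + κ
      rw [h1, hT]; ring) (by rw [h01]; positivity)
  refine h3.congr_deriv ?_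
  rw [h10, h01]
  have hs := x_sq_add hI
  unfold sx
  rw [← hs]
  field_simp
  ring

private theorem hasDerivAt_sxk {κ τ : ℝ} (hκ : 1 ≤ κ) (hτ : τ < κ + π / 2) :
    HasDerivAt (fun k => sx k (τ - k))
      ((sx κ (τ - κ) / κ + (sx κ (τ - κ) ^ 2 + sy κ (τ - κ) ^ 2 + sy κ (τ - κ))) /
        (sx κ (τ - κ) ^ 2 + (1 + sy κ (τ - κ)) ^ 2)) κ := by
  have hd : DomR κ (τ - κ) := DomR_of hκ (by linarith)
  obtain ⟨hI, hT⟩ := sy_spec hd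
  have hk0 : 0 < κ := by linarith
  have hY := hasDerivAt_syk hκ hτ
  have h1 : HasDerivAt (fun k : ℝ => k ^ 2) (2 * κ) κ := by simpa using hasDerivAt_pow 2 κ
  have h2 := (hY.const_mul (-2 : ℝ)).exp
  have h3 := h1.mul h2
  have h4 := hY.pow 2
  have h5 := (h3.sub h4).sqrt (by
    have := hI.gpos.ne'
    unfold gk at this
    exact this)
  have h6 : HasDerivAt (fun k => sx k (τ - k)) _ κ := h5
  refine h6.congr_deriv ?_
  have hs := x_sq_add hI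
  have hx : 0 < Xk κ (sy κ (τ - κ)) := hI.xpos
  have hsq : sqrt ((((fun k : ℝ => k ^ 2) * fun k => exp (-2 * sy k (τ - k))) - (fun k => sy k (τ - k)) ^ 2) κ) =
      Xk κ (sy κ (τ - κ)) := rfl
  rw [hsq]
  have hD := D_pos hI
  have hD' : Xk κ (sy κ (τ - κ)) ^ 2 + (1 + sy κ (τ - κ)) ^ 2 =
      (Xk κ (sy κ (τ - κ)) ^ 2 + sy κ (τ - κ) ^ 2 + sy κ (τ - κ)) + 1 + sy κ (τ - κ) := by ring
  unfold sx
  obtain ⟨x, hxd⟩ : ∃ x, x = Xk κ (sy κ (τ - κ)) := ⟨_, rfl⟩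
  obtain ⟨y, hyd⟩ : ∃ y, y = sy κ (τ - κ) := ⟨_, rfl⟩
  simp only [← hyd] at hxd hs hx hD hD' ⊢
  simp only [← hxd] at hs hx hD hD' ⊢
  obtain ⟨E, hE⟩ : ∃ E, E = exp (-2 * y) := ⟨_, rfl⟩
  rw [← hE] at hs ⊢
  have hEe : E = (x ^ 2 + y ^ 2) / κ ^ 2 := by rw [hs]; field_simp
  rw [hEe]
  field_simp
  ring

private theorem num_nonneg {κ x y p Y' X' : ℝ} (hκ : 1 ≤ κ) (hx : 0 < x) (hp : 1 ≤ p) (hy : y = p - 1) (hpx : p * x ≤ κ)
    (hL : (1 + κ ^ 2) * x ≤ κ * (x ^ 2 + p ^ 2))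
    (hY' : Y' = ((x ^ 2 + y ^ 2 + y) / κ - x) / (x ^ 2 + p ^ 2))
    (hX' : X' = (x / κ + (x ^ 2 + y ^ 2 + y)) / (x ^ 2 + p ^ 2)) :
    0 ≤ (2 * κ * x + (1 + κ ^ 2) * X') * (κ * (x ^ 2 + p ^ 2)) -
      (1 + κ ^ 2) * x * (1 * (x ^ 2 + p ^ 2) + κ * (2 * x * X' + 2 * p * Y')) := by
  have h1 := poly2 hκ hx hp hpx hL
  have hD : 0 < x ^ 2 + p ^ 2 := by positivity
  have hk : 0 < κ := by linarith
  have e : (2 * κ * x + (1 + κ ^ 2) * X') * (κ * (x ^ 2 + p ^ 2)) -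
      (1 + κ ^ 2) * x * (1 * (x ^ 2 + p ^ 2) + κ * (2 * x * X' + 2 * p * Y')) =
      (x * (κ ^ 2 - 1) * (x ^ 2 + p ^ 2) ^ 2 + (1 + κ ^ 2) * x * (3 * p ^ 2 - 2 * p ^ 3 - (1 + 2 * p) * x ^ 2) +
      (1 + κ ^ 2) * κ * (p ^ 4 - p ^ 3 - x ^ 4 + 3 * p * x ^ 2)) / (x ^ 2 + p ^ 2) := by
    rw [hY', hX', hy]
    field_simp
    ring
  rw [e]
  positivity

/-- derivative of `lv κ τ` in `κ`: nonnegative as long as `lv κ τ ≤ 1` -/
theorem lv_deriv {κ τ : ℝ} (hκ : 1 ≤ κ) (h0 : 0 ≤ τ) (hτ : τ < κ + π / 2) :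
    ∃ N, HasDerivAt (fun k => lv k τ) N κ ∧ (lv κ τ ≤ 1 → 0 ≤ N) := by
  have hd : DomR κ (τ - κ) := DomR_of hκ (by linarith)
  obtain ⟨hI, hT⟩ := sy_spec hd
  have hk0 : 0 < κ := by linarith
  have hY := hasDerivAt_syk hκ hτ
  have hX := hasDerivAt_sxk hκ hτ
  have hy0 : 0 ≤ sy κ (τ - κ) := sy_nonneg hκ (by linarith) (by linarith)
  have hx : 0 < sx κ (τ - κ) := hI.xpos
  have hs := x_sq_add hI
  obtain ⟨y, hyd⟩ : ∃ y, y = sy κ (τ - κ) := ⟨_, rfl⟩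
  obtain ⟨x, hxd⟩ : ∃ x, x = sx κ (τ - κ) := ⟨_, rfl⟩
  have hxd' : Xk κ (sy κ (τ - κ)) = x := hxd.symm
  obtain ⟨Y', hY'⟩ : ∃ Y', Y' = ((x ^ 2 + y ^ 2 + y) / κ - x) / (x ^ 2 + (1 + y) ^ 2) := ⟨_, rfl⟩
  obtain ⟨X', hX'⟩ : ∃ X', X' = (x / κ + (x ^ 2 + y ^ 2 + y)) / (x ^ 2 + (1 + y) ^ 2) := ⟨_, rfl⟩
  rw [← hyd, ← hxd, ← hY'] at hY
  rw [← hyd, ← hxd, ← hX'] at hX
  rw [← hxd] at hx
  rw [← hyd] at hy0
  rw [hxd', ← hyd] at hs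
  have hD : 0 < x ^ 2 + (1 + y) ^ 2 := by positivity
  have h1 : HasDerivAt (fun k : ℝ => 1 + k ^ 2) (2 * κ) κ := by
    simpa using (hasDerivAt_pow 2 κ).const_add (1:ℝ)
  have h2 : HasDerivAt (fun k => (1 + k ^ 2) * sx k (τ - k)) (2 * κ * x + (1 + κ ^ 2) * X') κ := by
    have := h1.fun_mul hX
    rw [← hxd] at this
    exact this
  have h3 : HasDerivAt (fun k => sx k (τ - k) ^ 2 + (1 + sy k (τ - k)) ^ 2) (2 * x * X' + 2 * (1 + y) * Y') κ := by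
    have h4 := (hX.fun_pow 2).fun_add ((hY.const_add 1).fun_pow 2)
    refine h4.congr_deriv ?_
    rw [← hxd, ← hyd]
    norm_num
  have h4 : HasDerivAt (fun k => k * (sx k (τ - k) ^ 2 + (1 + sy k (τ - k)) ^ 2))
      (1 * (x ^ 2 + (1 + y) ^ 2) + κ * (2 * x * X' + 2 * (1 + y) * Y')) κ := by
    have := (hasDerivAt_id κ).fun_mul h3
    rw [← hxd, ← hyd] at this
    exact this
  have hne : κ * (sx κ (τ - κ) ^ 2 + (1 + sy κ (τ - κ)) ^ 2) ≠ 0 := by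
    rw [← hxd, ← hyd]; positivity
  have h5 := h2.fun_div h4 hne
  refine ⟨_, h5, fun hL => ?_⟩
  have hlv : lv κ τ = (1 + κ ^ 2) * x / (κ * (x ^ 2 + (1 + y) ^ 2)) := by
    unfold lv Lk
    rw [hxd', ← hyd]
  rw [hlv, div_le_one (by positivity)] at hL
  rw [← hxd, ← hyd]
  apply div_nonneg _ (by positivity)
  apply num_nonneg hκ hx (by linarith) (by ring : y = (1 + y) - 1) _ hL hY' hX'
  -- `(1 + y) x ≤ κ`
  have h6 : x ≤ κ * exp (-y) := by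
    apply (sq_le_sq₀ hx.le (by positivity)).1
    have e : (κ * exp (-y)) ^ 2 = κ ^ 2 * exp (-2 * y) := by
      rw [mul_pow, ← exp_nat_mul]; congr 2; push_cast; ring
    rw [e, ← hs]
    nlinarith [sq_nonneg y]
  have h7 : 1 + y ≤ exp y := by linarith [add_one_le_exp y]
  calc (1 + y) * x ≤ exp y * (κ * exp (-y)) := mul_le_mul h7 h6 hx.le (exp_pos _).le
    _ = κ := by rw [mul_comm, mul_assoc, ← exp_add, neg_add_cancel, exp_zero, mul_one]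

/-- monotonicity in `κ` below the level `1` -/
theorem lv_mono {κ₀ κ τ : ℝ} (h1 : 1 ≤ κ₀) (h : κ₀ ≤ κ) (h0 : 0 ≤ τ) (hτ : τ < κ₀ + π / 2) :
    min 1 (lv κ₀ τ) ≤ lv κ τ := by
  by_contra hcon
  push Not at hcon
  obtain ⟨m, hm⟩ : ∃ m, m = min 1 (lv κ₀ τ) := ⟨_, rfl⟩
  rw [← hm] at hcon
  have hder : ∀ k ∈ Icc κ₀ κ, ∃ N, HasDerivAt (fun k => lv k τ) N k ∧ (lv k τ ≤ 1 → 0 ≤ N) := by
    intro k hk
    exact lv_deriv (h1.trans hk.1) h0 (by linarith [hk.1])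
  have hcont : ContinuousOn (fun k => lv k τ) (Icc κ₀ κ) := by
    intro k hk
    obtain ⟨N, hN, -⟩ := hder k hk
    exact hN.continuousAt.continuousWithinAt
  -- the last point where the value is at least `m`
  have hS : IsCompact {k ∈ Icc κ₀ κ | m ≤ lv k τ} := by
    apply IsCompact.of_isClosed_subset (isCompact_Icc (a := κ₀) (b := κ)) _ (fun k hk => hk.1)
    exact hcont.preimage_isClosed_of_isClosed isClosed_Icc isClosed_Ici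
  have hne : {k ∈ Icc κ₀ κ | m ≤ lv k τ}.Nonempty :=
    ⟨κ₀, ⟨left_mem_Icc.2 h, by rw [hm]; exact min_le_right _ _⟩⟩
  obtain ⟨ks, hks, hmax⟩ := hS.exists_isGreatest hne
  have hlt : ks < κ := by
    rcases eq_or_lt_of_le hks.1.2 with h2 | h2
    · rw [h2] at hks
      exact absurd hks.2 (not_le.2 hcon)
    · exact h2
  have hmono : MonotoneOn (fun k => lv k τ) (Icc ks κ) := by
    apply monotoneOn_of_deriv_nonneg (convex_Icc _ _)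
    · exact hcont.mono (Icc_subset_Icc_left hks.1.1)
    · intro k hk
      rw [interior_Icc] at hk
      obtain ⟨N, hN, -⟩ := hder k ⟨hks.1.1.trans hk.1.le, hk.2.le⟩
      exact hN.differentiableAt.differentiableWithinAt
    · intro k hk
      rw [interior_Icc] at hk
      have hkI : k ∈ Icc κ₀ κ := ⟨hks.1.1.trans hk.1.le, hk.2.le⟩
      obtain ⟨N, hN, hN'⟩ := hder k hkI
      rw [hN.deriv]
      apply hN'
      by_contra hc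
      push Not at hc
      have : k ≤ ks := hmax ⟨hkI, by rw [hm]; exact (min_le_left _ _).trans hc.le⟩
      linarith [hk.1]
  have h2 := hmono (left_mem_Icc.2 hlt.le) (right_mem_Icc.2 hlt.le) hlt.le
  simp only at h2
  linarith [hks.2]

/-- **sharp criterion**: a lower bound of `lv κ τ`, `0 ≤ τ ≤ τm`, for all `κ ≥ κ₀` -/
theorem lv_ge_sharp {κ₀ κ y l τm τ : ℝ} (h1 : 1 ≤ κ₀) (hκ : κ₀ ≤ κ) (hI : Iy κ₀ y) (hl1 : l ≤ 1)
    (hl : l ≤ Lk κ₀ y) (hτ : τm ≤ κ₀ + Tk κ₀ y) (hτm : τm < κ₀ + π / 2) (h0 : 0 ≤ τ) (hm : τ ≤ τm) :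
    l ≤ lv κ τ := by
  have hd : DomR κ₀ (τ - κ₀) := DomR_of h1 (by linarith)
  obtain ⟨hIs, hT⟩ := sy_spec hd
  have hs0 : 0 ≤ sy κ₀ (τ - κ₀) := sy_nonneg h1 (by linarith) (by linarith)
  have h2 : sy κ₀ (τ - κ₀) ≤ y := by
    by_contra hcon
    push Not at hcon
    have h3 := Tk_strictMono hI hIs hcon
    rw [hT] at h3
    linarith
  have h3 := Lk_min hs0 h2 hI
  have h4 : min 1 (Lk κ₀ y) ≤ lv κ₀ τ := h3
  have h5 := lv_mono h1 hκ h0 (by linarith : τ < κ₀ + π / 2)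
  have h6 : l ≤ lv κ₀ τ := (le_min hl1 hl).trans h4
  exact (le_min hl1 h6).trans h5

/-! ### numeric version -/

private theorem sincos12 {θ : ℝ} (h0 : 0 ≤ θ) (h1 : θ ≤ 6) :
    1 - θ ^ 2 / 2 + θ ^ 4 / 24 - θ ^ 6 / 720 + θ ^ 8 / 40320 - θ ^ 10 / 3628800 - θ ^ 12 / 239500800 ≤ cos θ ∧
    sin θ ≤ θ - θ ^ 3 / 6 + θ ^ 5 / 120 - θ ^ 7 / 5040 + θ ^ 9 / 362880 - θ ^ 11 / 39916800 + θ ^ 12 / 239500800 := by
  have hn : ‖(θ : ℂ) * Complex.I‖ = θ := by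
    rw [norm_mul, Complex.norm_I, mul_one, Complex.norm_real, norm_of_nonneg h0]
  have h2 := Complex.exp_bound' (x := (θ : ℂ) * Complex.I) (n := 12) (by rw [hn]; norm_num; linarith)
  rw [hn] at h2
  obtain ⟨Cc, hC⟩ : ∃ Cc : ℝ, Cc = 1 - θ ^ 2 / 2 + θ ^ 4 / 24 - θ ^ 6 / 720 + θ ^ 8 / 40320 - θ ^ 10 / 3628800 := ⟨_, rfl⟩
  obtain ⟨Sc, hS⟩ : ∃ Sc : ℝ, Sc = θ - θ ^ 3 / 6 + θ ^ 5 / 120 - θ ^ 7 / 5040 + θ ^ 9 / 362880 - θ ^ 11 / 39916800 := ⟨_, rfl⟩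
  have I2 : Complex.I ^ 2 = -1 := Complex.I_sq
  have I3 : Complex.I ^ 3 = -Complex.I := by rw [pow_succ, I2]; ring
  have I4 : Complex.I ^ 4 = 1 := by rw [show 4 = 2 * 2 from rfl, pow_mul, I2]; norm_num
  have I5 : Complex.I ^ 5 = Complex.I := by rw [show 5 = 4 + 1 from rfl, pow_add, I4]; ring
  have I6 : Complex.I ^ 6 = -1 := by rw [show 6 = 4 + 2 from rfl, pow_add, I4, I2]; ring
  have I7 : Complex.I ^ 7 = -Complex.I := by rw [show 7 = 4 + 3 from rfl, pow_add, I4, I3]; ring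
  have I8 : Complex.I ^ 8 = 1 := by rw [show 8 = 4 + 4 from rfl, pow_add, I4]; ring
  have I9 : Complex.I ^ 9 = Complex.I := by rw [show 9 = 8 + 1 from rfl, pow_add, I8]; ring
  have I10 : Complex.I ^ 10 = -1 := by rw [show 10 = 8 + 2 from rfl, pow_add, I8, I2]; ring
  have I11 : Complex.I ^ 11 = -Complex.I := by rw [show 11 = 8 + 3 from rfl, pow_add, I8, I3]; ring
  have hsum : ∑ m ∈ Finset.range 12, ((θ : ℂ) * Complex.I) ^ m / (m.factorial : ℂ) = (Cc : ℂ) + (Sc : ℂ) * Complex.I := by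
    rw [hC, hS]
    simp only [Finset.sum_range_succ, Finset.sum_range_zero, mul_pow, I2, I3, I4, I5, I6, I7, I8, I9, I10, I11,
      Nat.factorial]
    push_cast
    ring
  rw [hsum] at h2
  have hexp : Complex.exp ((θ : ℂ) * Complex.I) = (cos θ : ℂ) + (sin θ : ℂ) * Complex.I := by
    rw [Complex.exp_mul_I, Complex.ofReal_cos, Complex.ofReal_sin]
  have e : Complex.exp ((θ : ℂ) * Complex.I) - ((Cc : ℂ) + (Sc : ℂ) * Complex.I) =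
      ((cos θ - Cc : ℝ) : ℂ) + ((sin θ - Sc : ℝ) : ℂ) * Complex.I := by
    rw [hexp]; push_cast; ring
  rw [e] at h2
  have hre := (Complex.abs_re_le_norm _).trans h2
  have him := (Complex.abs_im_le_norm _).trans h2
  simp only [Complex.add_re, Complex.ofReal_re, Complex.mul_re, Complex.I_re, mul_zero, Complex.ofReal_im,
    Complex.I_im, mul_one, sub_self, add_zero, Complex.add_im, Complex.mul_im, zero_add] at hre him
  have hf : θ ^ 12 / ((Nat.factorial 12 : ℕ) : ℝ) * 2 = θ ^ 12 / 239500800 := by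
    norm_num [Nat.factorial]
    ring
  rw [hf] at hre him
  have h3 := (abs_le.1 hre).1
  have h4 := (abs_le.1 him).2
  constructor <;> linarith

/-- lower bound of `arctan` -/
theorem le_arctan_of {θ q : ℝ} (h0 : 0 ≤ θ) (h1 : θ ≤ 157 / 100) (hq : sin θ ≤ q * cos θ) : θ ≤ arctan q := by
  have hp := Real.pi_gt_d2
  have hc : 0 < cos θ := cos_pos_of_mem_Ioo ⟨by linarith, by linarith⟩
  rw [← arctan_tan (x := θ) (by linarith) (by linarith)]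
  apply arctan_le_arctan_iff.2
  rw [tan_eq_sin_div_cos, div_le_iff₀ hc]
  exact hq

/-- the sharp criterion with rational side conditions -/
theorem lv_ge_num {κ₀ y Fl Fh xl xh l τm θ : ℝ} (h1 : 1 ≤ κ₀) (hy : 0 ≤ y) (hFl0 : 0 < Fl)
    (hF : Fl ≤ exp y ∧ exp y ≤ Fh) (hI : y * Fh < κ₀) (hl1 : l ≤ 1) (hl0 : 0 ≤ l) (hxl : 0 ≤ xl)
    (hxl2 : Fh ^ 2 * (xl ^ 2 + y ^ 2) ≤ κ₀ ^ 2) (hxh : 0 < xh) (hxh2 : κ₀ ^ 2 ≤ Fl ^ 2 * (xh ^ 2 + y ^ 2))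
    (hl : l * κ₀ * (κ₀ ^ 2 + (1 + 2 * y) * Fl ^ 2) ≤ (1 + κ₀ ^ 2) * xl * Fl ^ 2)
    (hθ0 : 0 ≤ θ) (hθ1 : θ ≤ 157 / 100)
    (hθ : (θ - θ ^ 3 / 6 + θ ^ 5 / 120 - θ ^ 7 / 5040 + θ ^ 9 / 362880 - θ ^ 11 / 39916800 + θ ^ 12 / 239500800) * xh ≤
      y * (1 - θ ^ 2 / 2 + θ ^ 4 / 24 - θ ^ 6 / 720 + θ ^ 8 / 40320 - θ ^ 10 / 3628800 - θ ^ 12 / 239500800))
    (hτ : τm + xh ≤ κ₀ + θ) {κ τ : ℝ} (hκ : κ₀ ≤ κ) (h0 : 0 ≤ τ) (hm : τ ≤ τm) :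
    l ≤ lv κ τ := by
  have hk0 : 0 < κ₀ := by linarith
  obtain ⟨hF1, hF2⟩ := hF
  have hE := exp_pos y
  have hI' : Iy κ₀ y := by
    refine ⟨?_, Or.inr (by linarith)⟩
    rw [abs_of_nonneg hy]
    exact lt_of_le_of_lt (mul_le_mul_of_nonneg_left hF2 hy) hI
  have hp := Real.pi_gt_d2
  have hE2 : exp (-2 * y) = 1 / exp y ^ 2 := by
    rw [show -2 * y = -(2 * y) by ring, exp_neg, one_div, ← Real.exp_nat_mul]
    congr 2
  have hxs := x_sq_add hI'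
  have hxp := hI'.xpos
  rw [hE2, mul_one_div] at hxs
  have hxle : xl ≤ Xk κ₀ y := by
    apply (sq_le_sq₀ hxl hxp.le).1
    have h2 : xl ^ 2 + y ^ 2 ≤ κ₀ ^ 2 / exp y ^ 2 := by
      rw [le_div_iff₀ (by positivity)]
      calc (xl ^ 2 + y ^ 2) * exp y ^ 2 ≤ (xl ^ 2 + y ^ 2) * Fh ^ 2 :=
            mul_le_mul_of_nonneg_left (pow_le_pow_left₀ hE.le hF2 2) (by positivity)
        _ ≤ κ₀ ^ 2 := by rw [mul_comm]; exact hxl2
    linarith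
  have hxge : Xk κ₀ y ≤ xh := by
    apply (sq_le_sq₀ hxp.le hxh.le).1
    have h2 : κ₀ ^ 2 / exp y ^ 2 ≤ xh ^ 2 + y ^ 2 := by
      rw [div_le_iff₀ (by positivity)]
      calc κ₀ ^ 2 ≤ (xh ^ 2 + y ^ 2) * Fl ^ 2 := by rw [mul_comm]; exact hxh2
        _ ≤ (xh ^ 2 + y ^ 2) * exp y ^ 2 :=
            mul_le_mul_of_nonneg_left (pow_le_pow_left₀ hFl0.le hF1 2) (by positivity)
    linarith
  refine lv_ge_sharp (y := y) (τm := τm) h1 hκ hI' hl1 ?_ ?_ (by linarith) h0 hm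
  · -- the value
    unfold Lk
    have hD : Xk κ₀ y ^ 2 + (1 + y) ^ 2 ≤ κ₀ ^ 2 / Fl ^ 2 + (1 + 2 * y) := by
      have h3 : Xk κ₀ y ^ 2 + (1 + y) ^ 2 = κ₀ ^ 2 / exp y ^ 2 + (1 + 2 * y) := by
        rw [← hxs]; ring
      rw [h3]
      gcongr
    have hDp : 0 < Xk κ₀ y ^ 2 + (1 + y) ^ 2 := by positivity
    rw [le_div_iff₀ (by positivity)]
    calc l * (κ₀ * (Xk κ₀ y ^ 2 + (1 + y) ^ 2)) ≤ l * (κ₀ * (κ₀ ^ 2 / Fl ^ 2 + (1 + 2 * y))) := by gcongr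
      _ = (l * κ₀ * (κ₀ ^ 2 + (1 + 2 * y) * Fl ^ 2)) / Fl ^ 2 := by field_simp
      _ ≤ ((1 + κ₀ ^ 2) * xl * Fl ^ 2) / Fl ^ 2 := by gcongr
      _ = (1 + κ₀ ^ 2) * xl := by field_simp
      _ ≤ _ := by gcongr
  · -- the abscissa
    obtain ⟨hc, hs⟩ := sincos12 hθ0 (by linarith : θ ≤ 6)
    have h3 : θ ≤ arctan (y / xh) := by
      apply le_arctan_of hθ0 hθ1
      rw [div_mul_eq_mul_div, le_div_iff₀ hxh]
      calc sin θ * xh ≤ _ := mul_le_mul_of_nonneg_right hs hxh.le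
        _ ≤ _ := hθ
        _ ≤ y * cos θ := mul_le_mul_of_nonneg_left hc hy
    have h4 : arctan (y / xh) ≤ arctan (y / Xk κ₀ y) := by
      apply arctan_le_arctan_iff.2
      gcongr
    unfold Tk
    linarith

end R2

end Sok
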