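import Pool.Agent.Lib.MP_816dec_an.A0Sec9
import Pool.Agent.Lib.MP_816dec_an.R2Asm
import Pool.Agent.Lib.MP_816dec_an.R2Ok

/-!
MP_816dec_an (R2, N2): the slopes `s0`, `s1` of a class from numerical conditions.
-/

set_option autoImplicit false

open Complex Set Filter Topology

namespace Sok.R2

open Sok Sok.Mid Sok.N1

/-! ### geometry at the windows -/

theorem hh_pos' {b : ℕ} (hb : 0 < b) : 0 < hh b := by
  unfold hh
  have := Real.pi_pos
  have : (0:ℝ) < b := by exact_mod_cast hb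
  positivity

theorem slF_eq {b : ℕ} {β r : ℝ} (hb : 0 < b) (hr : 0 < r) :
    hh b / TT b β r = (1 + (β * r) ^ 2) / (r * hh b) := by
  have := hh_pos' hb
  unfold TT
  field_simp

/-- saddle data at `t` -/
theorem sad_of {β r t : ℝ} (hβ : 0 < β) (hr : 0 < r) (hκ : 1 ≤ β * r) (ht : t < Real.pi / 2) :
    Sad β r t (t + sx (β * r) t) (sy (β * r) t) := by
  have hD := DomR_of hκ ht
  obtain ⟨h1, h2⟩ := s_data hD
  refine ⟨hβ, hr, ?_, ?_⟩
  · rw [← h1]; ring
  · rw [← h2]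

theorem sig_eq_Lx (κ t : ℝ) : sig κ t = Lx t (t + sx κ t) (sy κ t) := by
  unfold sig Lx
  congr 2
  ring

/-- `-1 < y` up to `-t ≤ 2 κ` -/
theorem sy_gt_neg_one {κ t : ℝ} (hκ : 1.39 ≤ κ) (ht : t ≤ -κ) (ht' : -(2 * κ) ≤ t) : -1 < sy κ t := by
  have hpi := Real.pi_pos
  have hD := DomR_of (κ := κ) (by linarith) (by linarith : t < Real.pi / 2)
  obtain ⟨h1, h2⟩ := s_data hD
  obtain ⟨k1, k2⟩ := s_angle hD
  have hy0 := sy_nonpos (κ := κ) (by linarith) ht
  by_contra hcon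
  have hy : sy κ t ≤ -1 := not_lt.1 hcon
  have hx := sx_pos hD
  obtain ⟨y, hyd⟩ : ∃ y : ℝ, y = sy κ t := ⟨_, rfl⟩
  obtain ⟨x, hxd⟩ : ∃ x : ℝ, x = sx κ t := ⟨_, rfl⟩
  rw [← hyd, ← hxd] at h1 h2
  rw [← hxd] at k1 k2 hx
  rw [← hyd] at hy hy0
  obtain ⟨w, hw⟩ : ∃ w : ℝ, w = κ * Real.exp (-y) := ⟨_, rfl⟩
  rw [← hw] at h1 h2
  have hw0 : 0 < w := by rw [hw]; positivity
  have ha0 : t + x ≤ 0 := by
    by_contra hc
    have hc' := not_le.1 hc
    have h3 : 0 < Real.sin (t + x) := Real.sin_pos_of_pos_of_lt_pi hc' (by linarith)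
    have h4 : 0 < w * Real.sin (t + x) := mul_pos hw0 h3
    linarith
  have hx2 : x ≤ 2 * κ := by linarith
  have hsq : x ^ 2 + y ^ 2 = w ^ 2 := by
    calc x ^ 2 + y ^ 2 = (w * Real.cos (t + x)) ^ 2 + (w * Real.sin (t + x)) ^ 2 := by rw [← h1, ← h2]
      _ = w ^ 2 * (Real.sin (t + x) ^ 2 + Real.cos (t + x) ^ 2) := by ring
      _ = w ^ 2 := by rw [Real.sin_sq_add_cos_sq, mul_one]
  have he1 : 2.7182 < Real.exp 1 := by have := Real.exp_one_gt_d9; linarith
  have hes : 2.7182 * (-y) ≤ Real.exp (-y) := by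
    have h3 := Real.add_one_le_exp (-y - 1)
    have h4 : Real.exp (-y) = Real.exp 1 * Real.exp (-y - 1) := by rw [← Real.exp_add]; congr 1; ring
    rw [h4]
    have h5 : -y ≤ Real.exp (-y - 1) := by linarith
    exact mul_le_mul he1.le h5 (by linarith) (by linarith)
  have hκy : κ * (2.7182 * (-y)) ≤ w := by rw [hw]; exact mul_le_mul_of_nonneg_left hes (by linarith)
  have hA : (κ * (2.7182 * (-y))) ^ 2 ≤ w ^ 2 := by
    apply pow_le_pow_left₀ _ hκy
    have : 0 ≤ κ * (2.7182 * (-y)) := by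
      apply mul_nonneg (by linarith)
      linarith
    exact this
  have hx2' : x ^ 2 ≤ (2 * κ) ^ 2 := pow_le_pow_left₀ hx.le hx2 2
  have hy2 : 1 ≤ y ^ 2 := by nlinarith
  have hk2 : 1.9321 ≤ κ ^ 2 := by nlinarith
  -- κ² (2.7182² y²) ≤ 4κ² + y²
  have hB : κ ^ 2 * (7.3886 * y ^ 2) ≤ 4 * κ ^ 2 + y ^ 2 := by
    have e1 : (κ * (2.7182 * (-y))) ^ 2 = κ ^ 2 * ((2.7182 ^ 2) * y ^ 2) := by ring
    have e2 : κ ^ 2 * (7.3886 * y ^ 2) ≤ κ ^ 2 * ((2.7182 ^ 2) * y ^ 2) := by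
      apply mul_le_mul_of_nonneg_left _ (by positivity)
      apply mul_le_mul_of_nonneg_right _ (by positivity)
      norm_num
    have e3 : (2 * κ) ^ 2 = 4 * κ ^ 2 := by ring
    linarith
  have hC : κ ^ 2 * 4 ≤ κ ^ 2 * (4 * y ^ 2) := mul_le_mul_of_nonneg_left (by linarith) (by positivity)
  have hE : 1.9321 * (3.3886 * y ^ 2) ≤ κ ^ 2 * (3.3886 * y ^ 2) :=
    mul_le_mul_of_nonneg_right hk2 (by positivity)
  have hF : κ ^ 2 * (7.3886 * y ^ 2) = κ ^ 2 * (4 * y ^ 2) + κ ^ 2 * (3.3886 * y ^ 2) := by ring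
  linarith

/-! ### the windows at the points `wz` -/

private theorem sl_re {b : ℕ} {β r z : ℝ} (k : ℤ) :
    (wz b β r z + 2 * Real.pi * k / b * I).re = Real.log r := by
  have e : (2 * Real.pi * k / b * I : ℂ) = ((2 * Real.pi * k / b : ℝ) : ℂ) * I := by push_cast; ring
  rw [e]
  unfold wz
  simp

private theorem sl_im {b : ℕ} {β r z : ℝ} (k : ℤ) :
    (wz b β r z + 2 * Real.pi * k / b * I).im - β / 2 = tk b β r k z := by
  have e : (2 * Real.pi * k / b * I : ℂ) = ((2 * Real.pi * k / b : ℝ) : ℂ) * I := by push_cast; ring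
  rw [e]
  unfold wz tk hh
  simp
  ring

private theorem sl_XwA {b : ℕ} {β r : ℝ} {aw : ℤ} {n : ℕ} {k : ℤ} (hr : 0 < r) (h : aw + b ≤ k)
    (h' : k < aw + n * b) (z : ℝ) : Xw b β aw n k (wz b β r z) = AA β r (tk b β r k z) := by
  rw [Xw, XW_A h h', Aw, sl_re, sl_im, Real.exp_log hr]

private theorem sl_der {b : ℕ} {β r : ℝ} {aw : ℤ} {n : ℕ} {k : ℤ} (hβ : 0 < β) (hr : 0 < r) (h : aw + b ≤ k)
    (h' : k < aw + n * b) (z : ℝ) :
    deriv (Xw b β aw n k) (wz b β r z) = ew β r (tk b β r k z) * AA β r (tk b β r k z + β) := by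
  have e1 : cexp (wz b β r z + 2 * Real.pi * k / b * I) = ew β r (tk b β r k z) := by
    rw [← ew_eq β, sl_re, sl_im, Real.exp_log hr]
  have e2 : (wz b β r z + β * I + 2 * Real.pi * k / b * I).re = Real.log r := by
    rw [add_right_comm, Complex.add_re, sl_re]
    simp
  have e3 : (wz b β r z + β * I + 2 * Real.pi * k / b * I).im - β / 2 = tk b β r k z + β := by
    rw [add_right_comm, Complex.add_im]
    have h := sl_im (b := b) (β := β) (r := r) (z := z) k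
    have e : ((β : ℂ) * I).im = β := by simp
    rw [e]
    linarith
  rw [Xw, (hasDerivAt_XW hβ b aw (aw + n * b) k _).deriv, e1, XW_A h h', Aw, e2, e3, Real.exp_log hr]

/-! ### the left window -/

/-- numerical condition of a sub-class, left window -/
def Cond0 (c η k₁ k₂ h₁ h₂ T0 qR δ : ℝ) : Prop :=
  (c * h₂ ≤ δ * T0 * (k₁ - η - qR * h₂) ∧ δ * T0 * (-qR) ≤ c) ∨
    c * (1 + k₂ ^ 2) ≤ δ * (10 * h₁ * (k₁ - η - qR * h₁))

/-- the admissible constants -/
def Cst (c η k₁ h₁ h₂ qL qR : ℝ) : Prop :=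
  (c = 0.7783 ∧ η = 0.2746) ∨
    (c = 0.7492 ∧ η = 0.25 ∧ ∃ s₀ : ℝ, 1 + -qL * h₂ / k₁ ≤ Real.exp s₀ ∧ s₀ ≤ 0.25 * (k₁ - 0.2746 - qR * h₁))

theorem s0_of {b : ℕ} {β r : ℝ} {aw : ℤ} {n : ℕ} {c η k₁ k₂ h₁ h₂ T0 qL qR δ : ℝ} (hb : 0 < b) (haw : aw + b ≤ 0)
    (haw' : 1 < aw + n * b) (hβ : 0 < β) (hr : 10 ≤ r) (hT : T0 ≤ TT b β r) (hT0 : 0 < T0)
    (hk : 1.39 ≤ k₁) (hk1 : k₁ ≤ β * r) (hk2 : β * r ≤ k₂) (hh1 : h₁ ≤ hh b) (hh1' : 0 ≤ h₁) (hh2 : hh b ≤ h₂)
    (hqR : qR ≤ 0) (hqL : -qL * h₂ ≤ k₁) (hδ : 0 ≤ δ) (hC : Cond0 c η k₁ k₂ h₁ h₂ T0 qR δ)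
    (hcst : Cst c η k₁ h₁ h₂ qL qR) :
    ∀ z ∈ Icc qL qR, hh b / TT b β r *
      ‖deriv (Xw b β aw n 0) (wz b β r z) / Xw b β aw n 0 (wz b β r z) - sig (β * r) (tk b β r 0 z) / β‖ ≤ δ := by
  intro z hz
  have hpi := Real.pi_pos
  have hr0 : 0 < r := by linarith
  have hh0 := hh_pos' hb
  have hκ1 : 1.39 ≤ β * r := by linarith
  obtain ⟨t, htd⟩ : ∃ t : ℝ, t = tk b β r 0 z := ⟨_, rfl⟩
  have hte : t = -(β * r) + z * hh b := by rw [htd]; unfold tk; push_cast; ring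
  have hz1 := hz.1
  have hz2 := hz.2
  have hzh : z * hh b ≤ qR * hh b := mul_le_mul_of_nonneg_right hz2 hh0.le
  have hqRh : qR * hh b ≤ 0 := mul_nonpos_of_nonpos_of_nonneg hqR hh0.le
  have ht0 : t ≤ -(β * r) := by linarith
  have hzL : -z * hh b ≤ -qL * h₂ := by
    rcases le_total 0 (-z) with h0 | h0
    · calc -z * hh b ≤ -z * h₂ := mul_le_mul_of_nonneg_left hh2 h0
        _ ≤ -qL * h₂ := mul_le_mul_of_nonneg_right (by linarith) (hh0.le.trans hh2)
    · have h1 : -z * hh b ≤ 0 := mul_nonpos_of_nonpos_of_nonneg h0 hh0.le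
      have h2 : 0 ≤ -qL * h₂ := mul_nonneg (by linarith) (hh0.le.trans hh2)
      linarith
  have ht1 : -(2 * (β * r)) ≤ t := by linarith
  have hsad := sad_of hβ hr0 (by linarith) (by linarith : t < Real.pi / 2)
  have hD := DomR_of (κ := β * r) (by linarith) (by linarith : t < Real.pi / 2)
  obtain ⟨k1, k2⟩ := s_angle hD
  have hy0 := sy_nonpos (κ := β * r) (by linarith) ht0
  have hy1 := sy_gt_neg_one hκ1 ht0 ht1
  have ha0 : t + sx (β * r) t ≤ 0 := by
    by_contra hc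
    have hc' := not_le.1 hc
    have h3 : 0 < Real.sin (t + sx (β * r) t) := Real.sin_pos_of_pos_of_lt_pi hc' (by linarith)
    have h5 := hsad.hs
    have h4 : 0 < β * r * Real.exp (-sy (β * r) t) * Real.sin (t + sx (β * r) t) := by positivity
    linarith
  obtain ⟨g1, -, g3, -, -⟩ := geo_neg hsad hκ1 hy1 hy0 k1 ha0
  have hx0 : 0 < t + sx (β * r) t - t := by linarith
  -- the slope, in terms of `x`
  have hm : ‖ew β r t * AA β r (t + β) / AA β r t - Lx t (t + sx (β * r) t) (sy (β * r) t) / β‖ ≤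
      c / (t + sx (β * r) t - t) ∧ k₁ - η - qR * hh b ≤ t + sx (β * r) t - t ∧ 0 < c := by
    rcases hcst with ⟨c1, c2⟩ | ⟨c1, c2, s₀, c3, c4⟩
    · have hm := slope0_num (m := 1.0371 / (t + sx (β * r) t - t)) hsad hκ1 hr hy1 hy0 k1 ha0 (by
        rw [div_mul_cancel₀ _ hx0.ne'])
      refine ⟨hm.trans ?_, by rw [c2]; linarith, by rw [c1]; norm_num⟩
      rw [c1, mul_div_assoc', div_le_div_iff_of_pos_right hx0]
      norm_num
    · have hX : k₁ - 0.2746 - qR * h₁ ≤ t + sx (β * r) t - t := by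
        have := mul_le_mul_of_nonneg_left hh1 (by linarith : 0 ≤ -qR)
        linarith
      have hκpos : 0 < β * r := by linarith
      have hk0 : 0 < k₁ := by linarith
      -- `e^{-y} ≤ 1 + σ/κ ≤ e^{s₀}`
      have h1 := exp_neg_le hsad hy1.le k1 ha0
      have h2 : Real.exp (-sy (β * r) t) ≤ 1 + -qL * h₂ / k₁ := by
        have h3 : Real.exp (-sy (β * r) t) ≤ -t / (β * r) := by
          rw [le_div_iff₀ hκpos]
          linarith
        refine h3.trans ?_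
        rw [div_le_iff₀ hκpos]
        have h4 : -qL * h₂ ≤ -qL * h₂ / k₁ * (β * r) := by
          rw [div_mul_eq_mul_div, le_div_iff₀ hk0]
          apply mul_le_mul_of_nonneg_left hk1
          exact mul_nonneg (by linarith) (hh0.le.trans hh2)
        have h5 : (1 + -qL * h₂ / k₁) * (β * r) = β * r + -qL * h₂ / k₁ * (β * r) := by ring
        linarith
      have h3 : -sy (β * r) t ≤ s₀ := by
        have h4 := h2.trans c3
        exact Real.exp_le_exp.1 h4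
      have hη : -sy (β * r) t ≤ 0.25 * (t + sx (β * r) t - t) := by
        have := mul_le_mul_of_nonneg_left hX (by norm_num : (0:ℝ) ≤ 0.25)
        linarith
      have hm := slope0b_num hsad hκ1 hr hy1 hy0 k1 ha0 hη
      refine ⟨by rw [c1]; exact hm, ?_, by rw [c1]; norm_num⟩
      -- `|a| ≤ tan |a| = |y| / x ≤ 0.25`
      have ha : -0.25 ≤ t + sx (β * r) t := by
        have h5 : -(t + sx (β * r) t) ≤ Real.tan (-(t + sx (β * r) t)) := Real.le_tan (by linarith) (by linarith)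
        have hca : 0 < Real.cos (t + sx (β * r) t) := Real.cos_pos_of_mem_Ioo ⟨k1, k2⟩
        have h6 : Real.tan (-(t + sx (β * r) t)) * (t + sx (β * r) t - t) = -sy (β * r) t := by
          have q1 := hsad.hc
          have q2 := hsad.hs
          rw [Real.tan_neg, Real.tan_eq_sin_div_cos]
          generalize β * r * Real.exp (-sy (β * r) t) = w at q1 q2
          generalize sy (β * r) t = y at q1 q2 ⊢
          rw [← q1, ← q2]
          field_simp
        have h7 := mul_le_mul_of_nonneg_right h5 hx0.le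
        have h8 : -(t + sx (β * r) t) * (t + sx (β * r) t - t) ≤ 0.25 * (t + sx (β * r) t - t) := by linarith
        have h9 := le_of_mul_le_mul_right h8 hx0
        linarith
      rw [c2]
      linarith
  obtain ⟨hm, hX, hc0⟩ := hm
  have hAA : Xw b β aw n 0 (wz b β r z) = AA β r t := by rw [sl_XwA hr0 haw (by linarith), htd]
  have hder : deriv (Xw b β aw n 0) (wz b β r z) = ew β r t * AA β r (t + β) := by
    rw [sl_der hβ hr0 haw (by linarith), htd]
  rw [hAA, hder, ← htd, sig_eq_Lx]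
  have hTT : 0 < TT b β r := by linarith
  have hF0 : 0 ≤ hh b / TT b β r := div_nonneg hh0.le hTT.le
  refine (mul_le_mul_of_nonneg_left hm hF0).trans ?_
  rw [mul_div_assoc', div_le_iff₀ hx0]
  have hη1 : η ≤ 0.2746 := by
    rcases hcst with ⟨-, c2⟩ | ⟨-, c2, -⟩
    · rw [c2]
    · rw [c2]; norm_num
  have hX0 : 0 < k₁ - η - qR * hh b := by linarith
  refine le_trans ?_ (mul_le_mul_of_nonneg_left hX hδ)
  rcases hC with ⟨c1, c2⟩ | c1
  · have h1 : hh b / TT b β r ≤ hh b / T0 := div_le_div_of_nonneg_left hh0.le hT0 hT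
    refine (mul_le_mul_of_nonneg_right h1 hc0.le).trans ?_
    rw [div_mul_eq_mul_div, div_le_iff₀ hT0]
    have h3 : 0 ≤ (c - δ * T0 * (-qR)) * (h₂ - hh b) := mul_nonneg (by linarith) (by linarith)
    have e2 : δ * (k₁ - η - qR * hh b) * T0 = δ * T0 * (k₁ - η - qR * h₂) +
        δ * T0 * qR * (h₂ - hh b) := by ring
    have e3 : (c - δ * T0 * (-qR)) * (h₂ - hh b) = c * h₂ - c * hh b +
        δ * T0 * qR * (h₂ - hh b) := by ring
    linarith
  · have h1 : hh b / TT b β r ≤ (1 + k₂ ^ 2) / (10 * hh b) := by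
      rw [slF_eq hb hr0, div_le_div_iff₀ (by positivity) (by positivity)]
      have h2 : 1 + (β * r) ^ 2 ≤ 1 + k₂ ^ 2 := by
        have := pow_le_pow_left₀ (by linarith : 0 ≤ β * r) hk2 2
        linarith
      exact mul_le_mul h2 (mul_le_mul_of_nonneg_right hr hh0.le) (by positivity) (by positivity)
    refine (mul_le_mul_of_nonneg_right h1 hc0.le).trans ?_
    rw [div_mul_eq_mul_div, div_le_iff₀ (by positivity)]
    have h3 : h₁ * (k₁ - η - qR * h₁) ≤ hh b * (k₁ - η - qR * hh b) := by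
      apply mul_le_mul hh1 _ _ hh0.le
      · have := mul_le_mul_of_nonneg_left hh1 (by linarith : 0 ≤ -qR)
        linarith
      · have : qR * h₁ ≤ 0 := mul_nonpos_of_nonpos_of_nonneg hqR hh1'
        linarith
    have h4 := mul_le_mul_of_nonneg_left h3 (by positivity : 0 ≤ δ * 10)
    have e2 : δ * (k₁ - η - qR * hh b) * (10 * hh b) = δ * 10 * (hh b * (k₁ - η - qR * hh b)) := by ring
    have e3 : δ * (10 * h₁ * (k₁ - η - qR * h₁)) = δ * 10 * (h₁ * (k₁ - η - qR * h₁)) := by ring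
    linarith

/-! ### the right window -/

/-- the value hypothesis at the right window -/
def ValH (b : ℕ) (β r ε : ℝ) (z : ℝ) : Prop :=
  1 - ε ≤ ‖AA β r (tk b β r 1 z)‖ * Real.sqrt (nD (sx (β * r) (tk b β r 1 z)) (sy (β * r) (tk b β r 1 z))) *
    Real.exp (-(sx (β * r) (tk b β r 1 z) * (1 + sy (β * r) (tk b β r 1 z)) / β))

/-- numerical condition of a sub-class, right window -/
structure Cond1 (N : NR) (h₁ h₂ T0 qL qR δ ε kc F : ℝ) : Prop where
  cτ : (1 + qR) * h₂ ≤ N.τ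
  cτm : N.τm ≤ (1 + qL) * h₁
  cqL : 0 ≤ 1 + qL
  ckc : (N.ρ * kc ≤ 10 ∧ N.κ₂ ≤ kc) ∨
    (1 ≤ kc ∧ N.ρ * kc * h₂ ^ 2 ≤ T0 * (1 + kc ^ 2) ∧ (N.ρ * kc ≤ 10 ∨ kc ≤ N.κ₁))
  cF0 : 0 ≤ F
  cF : h₂ ≤ F * T0 ∨ 1 + N.κ₂ ^ 2 ≤ 10 * h₁ * F
  cT0 : 0 < T0
  cε : ε < 1
  fin : F * (N.m * N.C) ≤ δ * (1 - ε)

theorem s1_of {b : ℕ} {β r : ℝ} {aw : ℤ} {n : ℕ} (N : NR) (hN : N.Ok) {h₁ h₂ T0 qL qR δ ε kc F : ℝ}
    (hC : Cond1 N h₁ h₂ T0 qL qR δ ε kc F) (hb : 0 < b) (haw : aw + b ≤ 0)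
    (haw' : 1 < aw + n * b) (hβ : 0 < β) (hr : 10 ≤ r) (hT : T0 ≤ TT b β r)
    (hk1 : N.κ₁ ≤ β * r) (hk2 : β * r ≤ N.κ₂) (hh1 : h₁ ≤ hh b) (hh2 : hh b ≤ h₂)
    {z : ℝ} (hz : z ∈ Icc qL qR) (hv : ValH b β r ε z) :
    hh b / TT b β r *
      ‖deriv (Xw b β aw n 1) (wz b β r z) / Xw b β aw n 1 (wz b β r z) - sig (β * r) (tk b β r 1 z) / β‖ ≤ δ := by
  have hpi := Real.pi_pos
  have hr0 : 0 < r := by linarith
  have hh0 := hh_pos' hb
  have hκ1 : 1 ≤ β * r := hN.hκ.1.trans hk1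
  obtain ⟨t, htd⟩ : ∃ t : ℝ, t = tk b β r 1 z := ⟨_, rfl⟩
  have hte : t = -(β * r) + (1 + z) * hh b := by rw [htd]; unfold tk; push_cast; ring
  unfold ValH at hv
  rw [← htd] at hv
  have hz1 := hz.1
  have hz2 := hz.2
  have hqL := hC.cqL
  have ht0 : -(β * r) ≤ t := by
    have : 0 ≤ (1 + z) * hh b := mul_nonneg (by linarith) hh0.le
    linarith
  have ht : t ≤ -(β * r) + N.τ := by
    have h1 : (1 + z) * hh b ≤ (1 + qR) * h₂ := mul_le_mul (by linarith) hh2 hh0.le (by linarith)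
    linarith [hC.cτ]
  have ht' : -(β * r) + N.τm ≤ t := by
    have h1 : (1 + qL) * h₁ ≤ (1 + qL) * hh b := mul_le_mul_of_nonneg_left hh1 hqL
    have h2 : (1 + qL) * hh b ≤ (1 + z) * hh b := mul_le_mul_of_nonneg_right (by linarith) hh0.le
    linarith [hC.cτm]
  have htπ : t < Real.pi / 2 := by
    -- `t ≤ -κ + τ < A ≤ η ≤ 0.7`
    have h1 := hN.hA
    have h2 : N.η - N.η ^ 3 / 3 + N.η ^ 5 / 5 - N.η ^ 7 / 7 ≤ Real.arctan N.η := arctan_lower7 hN.η0.1.le
    have h3 := Real.arctan_lt_pi_div_two N.η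
    linarith [h1.1, h1.2.2]
  have hsad := sad_of hβ hr0 hκ1 htπ
  have hD := DomR_of (κ := β * r) hκ1 htπ
  obtain ⟨k1, k2⟩ := s_angle hD
  have hy0 := sy_nonneg hκ1 ht0 htπ
  have ha0 : 0 ≤ t + sx (β * r) t := by
    by_contra hc
    have hc' := not_le.1 hc
    have h3 : Real.sin (t + sx (β * r) t) < 0 := Real.sin_neg_of_neg_of_neg_pi_lt hc' (by linarith)
    have h5 := hsad.hs
    have h4 : β * r * Real.exp (-sy (β * r) t) * Real.sin (t + sx (β * r) t) < 0 :=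
      mul_neg_of_pos_of_neg (by positivity) h3
    linarith
  have hρ : N.ρ * (β * r) ≤ r := by
    have hρ0 := hN.hρ
    rcases hC.ckc with ⟨c1, c2⟩ | ⟨c0, h2, c1⟩
    · have := mul_le_mul_of_nonneg_left (hk2.trans c2) hρ0.le
      linarith
    · have hcase : N.ρ * kc ≤ 10 ∧ β * r ≤ kc ∨ kc ≤ β * r := by
        rcases c1 with c1 | c1
        · rcases le_total (β * r) kc with h1 | h1
          · exact Or.inl ⟨c1, h1⟩
          · exact Or.inr h1
        · exact Or.inr (c1.trans hk1)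
      rcases hcase with ⟨c1, h1⟩ | h1
      · have := mul_le_mul_of_nonneg_left h1 hρ0.le
        linarith
      · -- `(1 + κ²)/κ` increases
        have hκ0 : 0 < β * r := by positivity
        have h3 : (1 + kc ^ 2) * (β * r) ≤ (1 + (β * r) ^ 2) * kc := by
          have h4 : 0 ≤ (β * r - kc) * ((β * r) * kc - 1) := by
            apply mul_nonneg (by linarith)
            have : 1 * 1 ≤ (β * r) * kc := mul_le_mul hκ1 c0 zero_le_one hκ0.le
            linarith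
          have e1 : (1 + (β * r) ^ 2) * kc - (1 + kc ^ 2) * (β * r) = (β * r - kc) * ((β * r) * kc - 1) := by ring
          linarith
        have h5 : T0 * (1 + (β * r) ^ 2) ≤ r * hh b ^ 2 := by
          have h6 : TT b β r = r * hh b ^ 2 / (1 + (β * r) ^ 2) := rfl
          rw [h6, le_div_iff₀ (by positivity)] at hT
          exact hT
        have h7 : N.ρ * (β * r) * (kc * h₂ ^ 2) ≤ r * (kc * h₂ ^ 2) := by
          calc N.ρ * (β * r) * (kc * h₂ ^ 2) = (N.ρ * kc * h₂ ^ 2) * (β * r) := by ring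
            _ ≤ (T0 * (1 + kc ^ 2)) * (β * r) := mul_le_mul_of_nonneg_right h2 hκ0.le
            _ = T0 * ((1 + kc ^ 2) * (β * r)) := by ring
            _ ≤ T0 * ((1 + (β * r) ^ 2) * kc) := mul_le_mul_of_nonneg_left h3 hC.cT0.le
            _ = (T0 * (1 + (β * r) ^ 2)) * kc := by ring
            _ ≤ (r * hh b ^ 2) * kc := mul_le_mul_of_nonneg_right h5 (by linarith)
            _ ≤ (r * h₂ ^ 2) * kc := by
              apply mul_le_mul_of_nonneg_right _ (by linarith)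
              exact mul_le_mul_of_nonneg_left (pow_le_pow_left₀ hh0.le hh2 2) hr0.le
            _ = _ := by ring
        have hh20 : 0 < h₂ := hh0.trans_le hh2
        exact le_of_mul_le_mul_right h7 (by positivity)
  have e0 : t + sx (β * r) t - t = sx (β * r) t := by ring
  have hm := slope1_num (ε := ε) N hN hsad ha0 k2 hk1 hk2 ht ht' hr hρ hC.cε (by rw [e0]; exact hv)
  have hAA : Xw b β aw n 1 (wz b β r z) = AA β r t := by rw [sl_XwA hr0 (by linarith) haw', htd]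
  have hder : deriv (Xw b β aw n 1) (wz b β r z) = ew β r t * AA β r (t + β) := by
    rw [sl_der hβ hr0 (by linarith) haw', htd]
  rw [hAA, hder, ← htd, sig_eq_Lx]
  have hTT : 0 < TT b β r := lt_of_lt_of_le hC.cT0 hT
  have hF0 : 0 ≤ hh b / TT b β r := div_nonneg hh0.le hTT.le
  refine (mul_le_mul_of_nonneg_left hm hF0).trans ?_
  have hF : hh b / TT b β r ≤ F := by
    rcases hC.cF with h1 | h1
    · refine (div_le_div_of_nonneg_left hh0.le hC.cT0 hT).trans ?_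
      rw [div_le_iff₀ hC.cT0]
      linarith
    · rw [slF_eq hb hr0, div_le_iff₀ (by positivity)]
      have h2 : 1 + (β * r) ^ 2 ≤ 1 + N.κ₂ ^ 2 := by
        have := pow_le_pow_left₀ (by linarith : 0 ≤ β * r) hk2 2
        linarith
      have h3 : 10 * h₁ ≤ r * hh b := by
        calc 10 * h₁ ≤ 10 * hh b := by linarith
          _ ≤ r * hh b := mul_le_mul_of_nonneg_right hr hh0.le
      have h4 := mul_le_mul_of_nonneg_right h3 hC.cF0
      linarith
  have hε1 : 0 < 1 - ε := by linarith [hC.cε]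
  have hmC : 0 ≤ N.m * N.C / (1 - ε) := (norm_nonneg _).trans hm
  refine (mul_le_mul_of_nonneg_right hF hmC).trans ?_
  rw [mul_div_assoc', div_le_iff₀ hε1]
  exact hC.fin

end Sok.R2
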