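import Pool.Agent.Lib.MP_816dec_an.R2Sl

/-!
MP_816dec_an (R2, N2): kernel-checkable tests for the numerical conditions of the slopes.
-/

set_option autoImplicit false

open Set

namespace Sok.R2

open Sok Sok.Mid Sok.N1

/-- `exp (-x) ≤ u`, rational test -/
def XLe (x u : ℚ) : Prop := 0 ≤ x ∧ 0 ≤ u ∧ 1 ≤ u * hs x 60 1

/-- Taylor upper bound of `exp (x/8)` -/
def hb8 (x : ℚ) : ℚ := hs (x / 8) 11 1 + (x / 8) ^ 12 * 13 / 5748019200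

/-- `u ≤ exp (-x)`, rational test -/
def XGe (x u : ℚ) : Prop := 0 ≤ x ∧ x ≤ 8 ∧ 0 ≤ u ∧ u * (hb8 x) ^ 8 ≤ 1

/-- `v ≤ exp x`, rational test -/
def XUp (x v : ℚ) : Prop := 0 ≤ x ∧ v ≤ hs x 30 1

instance (x u : ℚ) : Decidable (XLe x u) := by unfold XLe; infer_instance
instance (x u : ℚ) : Decidable (XGe x u) := by unfold XGe; infer_instance
instance (x u : ℚ) : Decidable (XUp x u) := by unfold XUp; infer_instance

theorem XLe.r {x u : ℚ} (h : XLe x u) : Real.exp (-(x : ℝ)) ≤ (u : ℝ) := by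
  obtain ⟨h1, h2, h3⟩ := h
  have h1' : (0 : ℝ) ≤ (x : ℝ) := by exact_mod_cast h1
  have h2' : (0 : ℝ) ≤ (u : ℝ) := by exact_mod_cast h2
  have h4 : (1 : ℝ) ≤ (u : ℝ) * hs (x : ℝ) 60 1 := by
    rw [← hs_cast]
    exact_mod_cast h3
  have h6 := hs_le_exp h1' 60
  have h7 : (1 : ℝ) ≤ (u : ℝ) * Real.exp (x : ℝ) := h4.trans (mul_le_mul_of_nonneg_left h6 h2')
  rw [Real.exp_neg, inv_le_iff_one_le_mul₀ (Real.exp_pos _)]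
  exact h7

theorem XUp.r {x v : ℚ} (h : XUp x v) : (v : ℝ) ≤ Real.exp (x : ℝ) := by
  obtain ⟨h1, h2⟩ := h
  have h1' : (0 : ℝ) ≤ (x : ℝ) := by exact_mod_cast h1
  have h4 : (v : ℝ) ≤ hs (x : ℝ) 30 1 := by
    rw [← hs_cast]
    exact_mod_cast h2
  exact h4.trans (hs_le_exp h1' 30)

theorem hs_sum1 (t : ℝ) (n : ℕ) : hs t n 1 = ∑ i ∈ Finset.range (n + 1), t ^ i / (i.factorial : ℝ) := by
  have h1 := hs_sum t n 0
  rw [zero_add] at h1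
  have : 0 + n + 1 = n + 1 := by ring
  rw [this] at h1
  rw [← h1]
  simp

theorem XGe.r {x u : ℚ} (h : XGe x u) : (u : ℝ) ≤ Real.exp (-(x : ℝ)) := by
  obtain ⟨h1, h2, h3, h4⟩ := h
  have h1' : (0 : ℝ) ≤ (x : ℝ) / 8 := by
    have : (0 : ℝ) ≤ (x : ℝ) := by exact_mod_cast h1
    positivity
  have h2' : (x : ℝ) / 8 ≤ 1 := by
    have : (x : ℝ) ≤ 8 := by exact_mod_cast h2
    linarith
  have h3' : (0 : ℝ) ≤ (u : ℝ) := by exact_mod_cast h3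
  have h5 := Real.exp_bound' h1' h2' (n := 12) (by norm_num)
  have h6 : (((hb8 x : ℚ)) : ℝ) = hs ((x : ℝ) / 8) 11 1 + ((x : ℝ) / 8) ^ 12 * 13 / 5748019200 := by
    unfold hb8
    push_cast
    rw [hs_cast]
    push_cast
    rfl
  have h7 : Real.exp ((x : ℝ) / 8) ≤ ((hb8 x : ℚ) : ℝ) := by
    rw [h6, hs_sum1]
    refine h5.trans (le_of_eq ?_)
    norm_num [Nat.factorial]
  have h8 : Real.exp (x : ℝ) ≤ ((hb8 x : ℚ) : ℝ) ^ 8 := by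
    have e : Real.exp (x : ℝ) = Real.exp ((x : ℝ) / 8) ^ 8 := by
      rw [← Real.exp_nat_mul]; congr 1; push_cast; ring
    rw [e]
    exact pow_le_pow_left₀ (Real.exp_pos _).le h7 8
  have h9 : (u : ℝ) * ((hb8 x : ℚ) : ℝ) ^ 8 ≤ 1 := by exact_mod_cast h4
  have h10 : (u : ℝ) * Real.exp (x : ℝ) ≤ 1 := (mul_le_mul_of_nonneg_left h8 h3').trans h9
  rw [Real.exp_neg, ← one_div, le_div_iff₀ (Real.exp_pos _)]
  exact h10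

/-- rational numerical data of a sub-class, right window -/
structure NRQ where
  (κ₁ κ₂ τ τm η A C₁ C₂ X E ρ u₁ u₂ : ℚ)
  (l s e₀ e₁ e₂ sγ G g₂ q : ℚ)
  (K Y ua ub v L e p g W₁ W₂ ℓ : ℚ)
  (R m C gG : ℚ)

/-- the real data -/
noncomputable def NRQ.nr (N : NRQ) : NR where
  κ₁ := N.κ₁
  κ₂ := N.κ₂
  τ := N.τ
  τm := N.τm
  η := N.η
  A := N.A
  C₁ := N.C₁
  C₂ := N.C₂
  X := N.X
  E := N.E
  ρ := N.ρ
  u₁ := N.u₁
  u₂ := N.u₂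
  l := N.l
  s := N.s
  e₀ := N.e₀
  e₁ := N.e₁
  e₂ := N.e₂
  sγ := N.sγ
  G := N.G
  g₂ := N.g₂
  q := N.q
  K := N.K
  Y := N.Y
  ua := N.ua
  ub := N.ub
  v := N.v
  L := N.L
  e := N.e
  p := N.p
  g := N.g
  W₁ := N.W₁
  W₂ := N.W₂
  ℓ := N.ℓ
  R := N.R
  m := N.m
  C := N.C

def qcQ (ν l : ℚ) : ℚ := 1 / (2 * ν) + 1 / (ν ^ 2 * l) + 1 / (ν ^ 3 * l ^ 2)

theorem qcQ_cast (ν l : ℚ) : ((qcQ ν l : ℚ) : ℝ) = qc (ν : ℝ) (l : ℝ) := by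
  unfold qcQ qc
  push_cast
  rfl

/-- conditions, part 1 -/
def NRQ.P1 (N : NRQ) : Prop :=
  (0 < N.η ∧ N.η ≤ (7 / 10)) ∧
  (N.A ≤ N.η - N.η ^ 3 / 3 + N.η ^ 5 / 5 - N.η ^ 7 / 7 ∧ N.A ≤ N.τ ∧ 0 < N.κ₁ - N.τ + N.A) ∧
  (0 ≤ N.C₁ ∧ N.C₁ ^ 2 ≤ 1 + N.η ^ 2 ∧ 1 + N.η ^ 2 ≤ N.C₂ ^ 2 ∧ 0 < N.C₂) ∧
  (1 ≤ N.κ₁ ∧ 0 < N.X ∧ 0 ≤ N.τ) ∧
  (XLe ((N.κ₁ - N.τ + N.A) * N.η) N.u₁ ∧ N.κ₁ * N.u₁ ≤ (N.κ₁ - N.τ + N.A) * N.C₁) ∧
  (XGe (N.X * N.η) N.u₂ ∧ N.X * N.C₂ ≤ N.κ₁ * N.u₂) ∧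
  (0 ≤ N.E ∧ N.E ≤ N.X * (1 + N.X * N.η))

/-- conditions, part 2 -/
def NRQ.P2 (N : NRQ) : Prop :=
  (0 < N.ρ) ∧
  (0 < N.l ∧ N.l ≤ N.X * N.ρ ∧ 12 ≤ 11 * N.l) ∧
  (0 ≤ N.s ∧ N.l ≤ N.s ^ 2) ∧
  (XLe (11 / 24 * N.l) N.e₀) ∧
  (XLe ((11 / 24 - N.η / 6) * N.l) N.e₁ ∧ 1 ≤ 2 * (11 / 24 - N.η / 6) * N.l) ∧
  (0 ≤ N.sγ ∧ N.sγ ^ 2 ≤ 11 / 12 - N.η / 3 ∧ 1 ≤ 4 * N.G * ((11 / 12 - N.η / 3) * N.sγ)) ∧
  (0 < N.g₂ ∧ ((15708 / 10000) - N.η + N.η ^ 3 / 3) * N.η ≤ 1 - N.g₂) ∧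
  (XLe (N.g₂ * N.l) N.e₂ ∧ 1 ≤ 2 * N.g₂ * N.l)

/-- conditions, part 3 -/
def NRQ.P3 (N : NRQ) : Prop :=
  (0 < N.q ∧ N.q ≤ 1 ∧ 1 / N.ρ ≤ (15707 / 10000) - N.η ∧
    (N.κ₂ - N.τm + N.η) * (1 - N.q) ≤ N.q * ((15707 / 10000) - N.η - 1 / N.ρ) ∧ 1 / N.ρ < (15707 / 10000) - N.η) ∧
  (N.κ₂ ≤ N.K ∨ (15708 / 10000) + N.τ + 1 / N.ρ ≤ N.K) ∧
  (XUp N.Y (N.K / N.X) ∧ 0 < N.X ∧ 0 < N.K) ∧
  (0 < N.ua ∧ N.ua * N.K ≤ (15707 / 10000)) ∧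
  (((31416 / 10000) + N.τ + 1 / N.ρ) ≤ (1 + N.ub) * N.κ₁ ∧ N.ub ≤ (26 / 10)) ∧
  (0 < N.v ∧ XUp N.L N.v) ∧
  (N.ua * (N.ua / N.v + N.L - 2) ≤ -N.p ∧ N.ub * (N.ub / N.v + N.L - 2) ≤ -N.p)

/-- conditions, part 4 -/
def NRQ.P4 (N : NRQ) : Prop :=
  (N.e * N.K ≤ N.E ∧ 0 ≤ N.e ∧ (15 / 100) ≤ N.e + N.p) ∧
  (XLe (10 * (N.e + N.p)) N.W₁ ∧
    (731 / 10) * (N.K / N.X * ((N.Y + 7 / 3) * ((1 / 10) + (N.Y + 4 / 3)) + (1 / 100))) * N.W₁ ≤ N.ℓ) ∧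
  (N.g * (N.X + N.τ) ≤ 2 * N.X ∨ (0 ≤ N.gG ∧ N.gG ^ 2 ≤ (25132 / 1000) * N.E ∧ N.g * N.κ₂ ≤ N.gG - (31416 / 10000))) ∧
  ((15 / 100) ≤ N.g) ∧
  (XLe (10 * N.g) N.W₂ ∧ 147 * N.W₂ ≤ N.ℓ) ∧
  (N.R ^ 2 ≤ N.X ^ 4 + N.E ^ 2 ∧ 0 ≤ N.m ∧ 1 + N.η ^ 2 ≤ N.m ^ 2 * N.R) ∧
  ((2849 / 10000) + N.s * N.e₀ * qcQ (7 / 10) N.l / (25066 / 10000) + (N.G + N.s * N.e₁ * qcQ (5 / 6 - N.η / 2) N.l / (25066 / 10000)) +
    N.s * N.e₂ * ((35708 / 10000) * (N.q + N.q ^ 2 / N.l)) / (25066 / 10000) + N.ℓ ≤ N.C)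

instance (N : NRQ) : Decidable N.P1 := by unfold NRQ.P1; infer_instance
instance (N : NRQ) : Decidable N.P2 := by unfold NRQ.P2; infer_instance
instance (N : NRQ) : Decidable N.P3 := by unfold NRQ.P3; infer_instance
instance (N : NRQ) : Decidable N.P4 := by unfold NRQ.P4; infer_instance

/-- the kernel-checkable test -/
def NRQ.ok (N : NRQ) : Bool := decide N.P1 && decide N.P2 && decide N.P3 && decide N.P4

theorem NRQ.ok_nr {N : NRQ} (h : N.ok = true) : N.nr.Ok := by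
  unfold NRQ.ok at h
  rw [Bool.and_eq_true, Bool.and_eq_true, Bool.and_eq_true] at h
  obtain ⟨⟨⟨h1, h2⟩, h3⟩, h4⟩ := h
  have p1 := of_decide_eq_true h1
  have p2 := of_decide_eq_true h2
  have p3 := of_decide_eq_true h3
  have p4 := of_decide_eq_true h4
  clear h1 h2 h3 h4
  obtain ⟨⟨a1, a2⟩, ⟨a3, a4, a5⟩, ⟨a6, a7, a8, a9⟩, ⟨a10, a11, a12⟩, ⟨a13, a14⟩, ⟨a15, a16⟩, ⟨a17, a18⟩⟩ := p1
  obtain ⟨b1, ⟨b2, b3, b4⟩, ⟨b5, b6⟩, b7, ⟨b8, b9⟩, ⟨b10, b11, b12⟩, ⟨b13, b14⟩, ⟨b15, b16⟩⟩ := p2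
  obtain ⟨⟨c1, c2, c3, c4, c5⟩, c6, ⟨c7, c8, c9⟩, ⟨c10, c11⟩, ⟨c12, c13⟩, ⟨c14, c15⟩, ⟨c16, c17⟩⟩ := p3
  obtain ⟨⟨d1, d2, d3⟩, ⟨d4, d5⟩, d6, d7, ⟨d8, d9⟩, ⟨d10, d11, d12⟩, d13⟩ := p4
  have x13 := a13.r
  have x15 := a15.r
  have x7 := b7.r
  have x8 := b8.r
  have xb15 := b15.r
  have xc7 := c7.r
  have xc15 := c15.r
  have xd4 := d4.r
  have xd8 := d8.r
  push_cast at x13 x15 x7 x8 xb15 xc7 xc15 xd4 xd8
  have hX : (0:ℝ) < (N.X : ℝ) := by exact_mod_cast c8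
  have hv : (0:ℝ) < (N.v : ℝ) := by exact_mod_cast c14
  have hd13 := (Rat.cast_le (K := ℝ)).2 d13
  push_cast at hd13
  rw [qcQ_cast, qcQ_cast] at hd13
  push_cast at hd13
  constructor <;> simp only [NRQ.nr]
  · exact ⟨by (have h2 := (Rat.cast_lt (K := ℝ)).2 a1; push_cast at h2; linarith), by (have h2 := (Rat.cast_le (K := ℝ)).2 a2; push_cast at h2; linarith)⟩
  · exact ⟨by (have h2 := (Rat.cast_le (K := ℝ)).2 a3; push_cast at h2; linarith), by (have h2 := (Rat.cast_le (K := ℝ)).2 a4; push_cast at h2; linarith), by (have h2 := (Rat.cast_lt (K := ℝ)).2 a5; push_cast at h2; linarith)⟩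
  · exact ⟨by (have h2 := (Rat.cast_le (K := ℝ)).2 a6; push_cast at h2; linarith), by (have h2 := (Rat.cast_le (K := ℝ)).2 a7; push_cast at h2; linarith), by (have h2 := (Rat.cast_le (K := ℝ)).2 a8; push_cast at h2; linarith), by (have h2 := (Rat.cast_lt (K := ℝ)).2 a9; push_cast at h2; linarith)⟩
  · exact ⟨by (have h2 := (Rat.cast_le (K := ℝ)).2 a10; push_cast at h2; linarith), by (have h2 := (Rat.cast_lt (K := ℝ)).2 a11; push_cast at h2; linarith), by (have h2 := (Rat.cast_le (K := ℝ)).2 a12; push_cast at h2; linarith)⟩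
  · exact ⟨x13, by (have h2 := (Rat.cast_le (K := ℝ)).2 a14; push_cast at h2; linarith)⟩
  · exact ⟨x15, by (have h2 := (Rat.cast_le (K := ℝ)).2 a16; push_cast at h2; linarith)⟩
  · exact ⟨by (have h2 := (Rat.cast_le (K := ℝ)).2 a17; push_cast at h2; linarith), by (have h2 := (Rat.cast_le (K := ℝ)).2 a18; push_cast at h2; linarith)⟩
  · (have h2 := (Rat.cast_lt (K := ℝ)).2 b1; push_cast at h2; linarith)
  · exact ⟨by (have h2 := (Rat.cast_lt (K := ℝ)).2 b2; push_cast at h2; linarith), by (have h2 := (Rat.cast_le (K := ℝ)).2 b3; push_cast at h2; linarith), by (have h2 := (Rat.cast_le (K := ℝ)).2 b4; push_cast at h2; linarith)⟩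
  · exact ⟨by (have h2 := (Rat.cast_le (K := ℝ)).2 b5; push_cast at h2; linarith), by (have h2 := (Rat.cast_le (K := ℝ)).2 b6; push_cast at h2; linarith)⟩
  · exact x7
  · exact ⟨x8, by (have h2 := (Rat.cast_le (K := ℝ)).2 b9; push_cast at h2; linarith)⟩
  · exact ⟨by (have h2 := (Rat.cast_le (K := ℝ)).2 b10; push_cast at h2; linarith), by (have h2 := (Rat.cast_le (K := ℝ)).2 b11; push_cast at h2; linarith), by (have h2 := (Rat.cast_le (K := ℝ)).2 b12; push_cast at h2; linarith)⟩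
  · exact ⟨by (have h2 := (Rat.cast_lt (K := ℝ)).2 b13; push_cast at h2; linarith), by (have h2 := (Rat.cast_le (K := ℝ)).2 b14; push_cast at h2; linarith)⟩
  · exact ⟨xb15, by (have h2 := (Rat.cast_le (K := ℝ)).2 b16; push_cast at h2; linarith)⟩
  · exact ⟨by (have h2 := (Rat.cast_lt (K := ℝ)).2 c1; push_cast at h2; linarith), by (have h2 := (Rat.cast_le (K := ℝ)).2 c2; push_cast at h2; linarith), by (have h2 := (Rat.cast_le (K := ℝ)).2 c3; push_cast at h2; linarith), by (have h2 := (Rat.cast_le (K := ℝ)).2 c4; push_cast at h2; linarith), by (have h2 := (Rat.cast_lt (K := ℝ)).2 c5; push_cast at h2; linarith)⟩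
  · rcases c6 with c6 | c6
    · left; (have h2 := (Rat.cast_le (K := ℝ)).2 c6; push_cast at h2; linarith)
    · right; (have h2 := (Rat.cast_le (K := ℝ)).2 c6; push_cast at h2; linarith)
  · refine ⟨?_, by (have h2 := (Rat.cast_le (K := ℝ)).2 c7.1; push_cast at h2; linarith), by (have h2 := (Rat.cast_lt (K := ℝ)).2 c9; push_cast at h2; linarith)⟩
    rw [div_le_iff₀ hX] at xc7
    linarith
  · exact ⟨by (have h2 := (Rat.cast_lt (K := ℝ)).2 c10; push_cast at h2; linarith), by (have h2 := (Rat.cast_le (K := ℝ)).2 c11; push_cast at h2; linarith)⟩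
  · exact ⟨by (have h2 := (Rat.cast_le (K := ℝ)).2 c12; push_cast at h2; linarith), by (have h2 := (Rat.cast_le (K := ℝ)).2 c13; push_cast at h2; linarith)⟩
  · exact ⟨hv, (Real.log_le_iff_le_exp hv).2 xc15⟩
  · exact ⟨by (have h2 := (Rat.cast_le (K := ℝ)).2 c16; push_cast at h2; linarith), by (have h2 := (Rat.cast_le (K := ℝ)).2 c17; push_cast at h2; linarith)⟩
  · exact ⟨by (have h2 := (Rat.cast_le (K := ℝ)).2 d1; push_cast at h2; linarith), by (have h2 := (Rat.cast_le (K := ℝ)).2 d2; push_cast at h2; linarith), by (have h2 := (Rat.cast_le (K := ℝ)).2 d3; push_cast at h2; linarith)⟩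
  · exact ⟨xd4, by (have h2 := (Rat.cast_le (K := ℝ)).2 d5; push_cast at h2; linarith)⟩
  · rcases d6 with d6 | ⟨d6, d6', d6''⟩
    · left; (have h2 := (Rat.cast_le (K := ℝ)).2 d6; push_cast at h2; linarith)
    · right
      exact ⟨(N.gG : ℝ), by (have h2 := (Rat.cast_le (K := ℝ)).2 d6; push_cast at h2; linarith), by (have h2 := (Rat.cast_le (K := ℝ)).2 d6'; push_cast at h2; linarith), by (have h2 := (Rat.cast_le (K := ℝ)).2 d6''; push_cast at h2; linarith)⟩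
  · (have h2 := (Rat.cast_le (K := ℝ)).2 d7; push_cast at h2; linarith)
  · exact ⟨xd8, by (have h2 := (Rat.cast_le (K := ℝ)).2 d9; push_cast at h2; linarith)⟩
  · exact ⟨by (have h2 := (Rat.cast_le (K := ℝ)).2 d10; push_cast at h2; linarith), by (have h2 := (Rat.cast_le (K := ℝ)).2 d11; push_cast at h2; linarith), by (have h2 := (Rat.cast_le (K := ℝ)).2 d12; push_cast at h2; linarith)⟩
  · refine le_trans (le_of_eq ?_) hd13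
    generalize qc (7 / 10) (N.l : ℝ) = Q₁
    generalize qc (5 / 6 - (N.η : ℝ) / 2) (N.l : ℝ) = Q₂
    ring

/-! ### class conditions -/

/-- `Cond1`, rational -/
def C1Q (N : NRQ) (h₁ h₂ T0 qL qR δ ε kc F : ℚ) : Prop :=
  ((1 + qR) * h₂ ≤ N.τ) ∧
  (N.τm ≤ (1 + qL) * h₁) ∧
  (0 ≤ 1 + qL) ∧
  ((N.ρ * kc ≤ 10 ∧ N.κ₂ ≤ kc) ∨
    (1 ≤ kc ∧ N.ρ * kc * h₂ ^ 2 ≤ T0 * (1 + kc ^ 2) ∧ (N.ρ * kc ≤ 10 ∨ kc ≤ N.κ₁))) ∧
  (0 ≤ F) ∧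
  (h₂ ≤ F * T0 ∨ 1 + N.κ₂ ^ 2 ≤ 10 * h₁ * F) ∧
  (0 < T0) ∧
  (ε < 1) ∧
  (F * (N.m * N.C) ≤ δ * (1 - ε))

instance (N : NRQ) (h₁ h₂ T0 qL qR δ ε kc F : ℚ) : Decidable (C1Q N h₁ h₂ T0 qL qR δ ε kc F) := by
  unfold C1Q; infer_instance

theorem C1Q.r {N : NRQ} {h₁ h₂ T0 qL qR δ ε kc F : ℚ} (h : C1Q N h₁ h₂ T0 qL qR δ ε kc F) :
    Cond1 N.nr h₁ h₂ T0 qL qR δ ε kc F := by
  obtain ⟨c1, c2, c3, c4, c7, c8, c9, c10, c11⟩ := h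
  constructor <;> try simp only [NRQ.nr]
  · (have h2 := (Rat.cast_le (K := ℝ)).2 c1; push_cast at h2; linarith)
  · (have h2 := (Rat.cast_le (K := ℝ)).2 c2; push_cast at h2; linarith)
  · (have h2 := (Rat.cast_le (K := ℝ)).2 c3; push_cast at h2; linarith)
  · rcases c4 with ⟨c4, c5⟩ | ⟨c4, c5, c6⟩
    · left; exact ⟨by (have h2 := (Rat.cast_le (K := ℝ)).2 c4; push_cast at h2; linarith), by (have h2 := (Rat.cast_le (K := ℝ)).2 c5; push_cast at h2; linarith)⟩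
    · right
      refine ⟨by (have h2 := (Rat.cast_le (K := ℝ)).2 c4; push_cast at h2; linarith), by (have h2 := (Rat.cast_le (K := ℝ)).2 c5; push_cast at h2; linarith), ?_⟩
      rcases c6 with c6 | c6
      · left; (have h2 := (Rat.cast_le (K := ℝ)).2 c6; push_cast at h2; linarith)
      · right; (have h2 := (Rat.cast_le (K := ℝ)).2 c6; push_cast at h2; linarith)
  · (have h2 := (Rat.cast_le (K := ℝ)).2 c7; push_cast at h2; linarith)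
  · rcases c8 with c8 | c8
    · left; (have h2 := (Rat.cast_le (K := ℝ)).2 c8; push_cast at h2; linarith)
    · right; (have h2 := (Rat.cast_le (K := ℝ)).2 c8; push_cast at h2; linarith)
  · (have h2 := (Rat.cast_lt (K := ℝ)).2 c9; push_cast at h2; linarith)
  · (have h2 := (Rat.cast_lt (K := ℝ)).2 c10; push_cast at h2; linarith)
  · (have h2 := (Rat.cast_le (K := ℝ)).2 c11; push_cast at h2; linarith)

/-- the constants of the left window: `none` general, `some s₀` for `-y ≤ s₀ ≤ x / 4` -/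
def cc0 : Option ℚ → ℚ
  | none => 7783 / 10000
  | some _ => 7492 / 10000

def ee0 : Option ℚ → ℚ
  | none => 2746 / 10000
  | some _ => 1 / 4

def Cst0 (k₁ h₁ h₂ qL qR : ℚ) : Option ℚ → Prop
  | none => True
  | some s₀ => XUp s₀ (1 + -qL * h₂ / k₁) ∧ s₀ ≤ 1 / 4 * (k₁ - 2746 / 10000 - qR * h₁)

instance (k₁ h₁ h₂ qL qR : ℚ) (o : Option ℚ) : Decidable (Cst0 k₁ h₁ h₂ qL qR o) := by
  cases o <;> unfold Cst0 <;> infer_instance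

theorem Cst0.r {k₁ h₁ h₂ qL qR : ℚ} {o : Option ℚ} (h : Cst0 k₁ h₁ h₂ qL qR o) :
    Cst (cc0 o) (ee0 o) k₁ h₁ h₂ qL qR := by
  cases o with
  | none =>
    left
    constructor <;> simp only [cc0, ee0] <;> push_cast <;> norm_num
  | some s₀ =>
    right
    obtain ⟨h1, h2⟩ := h
    have h3 := h1.r
    push_cast at h3
    refine ⟨?_, ?_, s₀, h3, ?_⟩
    · simp only [cc0]; push_cast; norm_num
    · simp only [ee0]; push_cast; norm_num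
    · (have h2 := (Rat.cast_le (K := ℝ)).2 h2; push_cast at h2; linarith)

/-- `Cond0`, rational -/
def C0Q (c η k₁ k₂ h₁ h₂ T0 qR δ : ℚ) : Prop :=
  (c * h₂ ≤ δ * T0 * (k₁ - η - qR * h₂) ∧ δ * T0 * (-qR) ≤ c) ∨
    c * (1 + k₂ ^ 2) ≤ δ * (10 * h₁ * (k₁ - η - qR * h₁))

instance (c η k₁ k₂ h₁ h₂ T0 qR δ : ℚ) : Decidable (C0Q c η k₁ k₂ h₁ h₂ T0 qR δ) := by
  unfold C0Q; infer_instance

theorem C0Q.r {c η k₁ k₂ h₁ h₂ T0 qR δ : ℚ} (h : C0Q c η k₁ k₂ h₁ h₂ T0 qR δ) :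
    Cond0 c η k₁ k₂ h₁ h₂ T0 qR δ := by
  rcases h with ⟨h1, h2⟩ | h1
  · left
    exact ⟨by (have h2 := (Rat.cast_le (K := ℝ)).2 h1; push_cast at h2; linarith), by (have h2 := (Rat.cast_le (K := ℝ)).2 h2; push_cast at h2; linarith)⟩
  · right
    (have h2 := (Rat.cast_le (K := ℝ)).2 h1; push_cast at h2; linarith)

/-- test of a list of sub-classes, right window -/
def chk1 (h₁ h₂ T0 qL qR δ ε : ℚ) : List (NRQ × ℚ × ℚ) → ℚ → ℚ → Bool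
  | [], _, _ => false
  | (N, kc, F) :: L, k, k2 => N.ok && decide (N.κ₁ ≤ k) && decide (C1Q N h₁ h₂ T0 qL qR δ ε kc F) &&
      (decide (k2 ≤ N.κ₂) || chk1 h₁ h₂ T0 qL qR δ ε L N.κ₂ k2)

theorem chk1_spec {h₁ h₂ T0 qL qR δ ε k2 : ℚ} (L : List (NRQ × ℚ × ℚ)) {k : ℚ}
    (h : chk1 h₁ h₂ T0 qL qR δ ε L k k2 = true) {κ : ℝ} (h1 : (k : ℝ) ≤ κ) (h2 : κ ≤ (k2 : ℝ)) :
    ∃ (N : NR) (kc F : ℝ), N.Ok ∧ Cond1 N h₁ h₂ T0 qL qR δ ε kc F ∧ N.κ₁ ≤ κ ∧ κ ≤ N.κ₂ := by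
  induction L generalizing k with
  | nil => simp [chk1] at h
  | cons x L ih =>
    obtain ⟨N, kc, F⟩ := x
    unfold chk1 at h
    rw [Bool.and_eq_true, Bool.and_eq_true, Bool.and_eq_true] at h
    obtain ⟨⟨⟨g1, g2⟩, g3⟩, g4⟩ := h
    have g2' : N.κ₁ ≤ k := of_decide_eq_true g2
    have g3' := of_decide_eq_true g3
    rcases le_total κ (N.κ₂ : ℝ) with hle | hle
    · refine ⟨N.nr, kc, F, NRQ.ok_nr g1, g3'.r, ?_, hle⟩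
      have : (N.κ₁ : ℝ) ≤ (k : ℝ) := by exact_mod_cast g2'
      show (N.κ₁ : ℝ) ≤ κ
      linarith
    · rw [Bool.or_eq_true] at g4
      rcases g4 with g4 | g4
      · have g4' : k2 ≤ N.κ₂ := of_decide_eq_true g4
        have g5 : (k2 : ℝ) ≤ (N.κ₂ : ℝ) := by exact_mod_cast g4'
        refine ⟨N.nr, kc, F, NRQ.ok_nr g1, g3'.r, ?_, ?_⟩
        · have : (N.κ₁ : ℝ) ≤ (k : ℝ) := by exact_mod_cast g2'
          show (N.κ₁ : ℝ) ≤ κ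
          linarith
        · show κ ≤ (N.κ₂ : ℝ)
          linarith
      · exact ih g4 hle

/-- test of a list of break points, left window -/
def chk0 (o : Option ℚ) (h₁ h₂ T0 qL qR δ : ℚ) : List ℚ → ℚ → ℚ → Bool
  | [], k, k2 => decide (C0Q (cc0 o) (ee0 o) k k2 h₁ h₂ T0 qR δ) && decide (Cst0 k h₁ h₂ qL qR o)
  | m :: L, k, k2 => decide (C0Q (cc0 o) (ee0 o) k m h₁ h₂ T0 qR δ) && decide (Cst0 k h₁ h₂ qL qR o) &&
      decide (k ≤ m) && chk0 o h₁ h₂ T0 qL qR δ L m k2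

theorem chk0_spec {o : Option ℚ} {h₁ h₂ T0 qL qR δ k2 : ℚ} (L : List ℚ) {k : ℚ}
    (h : chk0 o h₁ h₂ T0 qL qR δ L k k2 = true) {κ : ℝ} (h1 : (k : ℝ) ≤ κ) (h2 : κ ≤ (k2 : ℝ)) :
    ∃ k₁ k₂ : ℝ, Cond0 (cc0 o) (ee0 o) k₁ k₂ h₁ h₂ T0 qR δ ∧ Cst (cc0 o) (ee0 o) k₁ h₁ h₂ qL qR ∧
      k₁ ≤ κ ∧ κ ≤ k₂ ∧ (k : ℝ) ≤ k₁ := by
  induction L generalizing k with
  | nil =>
    unfold chk0 at h
    rw [Bool.and_eq_true] at h
    exact ⟨k, k2, (of_decide_eq_true h.1 : C0Q _ _ _ _ _ _ _ _ _).r, (of_decide_eq_true h.2 : Cst0 _ _ _ _ _ _).r,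
      h1, h2, le_rfl⟩
  | cons m L ih =>
    unfold chk0 at h
    rw [Bool.and_eq_true, Bool.and_eq_true, Bool.and_eq_true] at h
    obtain ⟨⟨⟨g1, g1'⟩, g2⟩, g3⟩ := h
    have g2' : k ≤ m := of_decide_eq_true g2
    have g2'' : (k : ℝ) ≤ (m : ℝ) := by exact_mod_cast g2'
    rcases le_total κ (m : ℝ) with hle | hle
    · exact ⟨k, m, (of_decide_eq_true g1 : C0Q _ _ _ _ _ _ _ _ _).r, (of_decide_eq_true g1' : Cst0 _ _ _ _ _ _).r,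
        h1, hle, le_rfl⟩
    · obtain ⟨a, b, c1, c5, c2, c3, c4⟩ := ih g3 hle
      exact ⟨a, b, c1, c5, c2, c3, g2''.trans c4⟩

/-- the test of a class -/
def chkS (N : NumQ) (ε k1 k2 h₁ h₂ : ℚ) (L1 : List (NRQ × ℚ × ℚ)) (o : Option ℚ) (L0 : List ℚ) : Bool :=
  chk1 h₁ h₂ N.T0 N.qL N.qR N.δ1 ε L1 k1 k2 && chk0 o h₁ h₂ N.T0 N.qL N.qR N.δ0 L0 k1 k2 &&
    decide (0 < N.T0 ∧ 139 / 100 ≤ k1 ∧ 0 ≤ h₁ ∧ N.qR ≤ 0 ∧ -N.qL * h₂ ≤ k1 ∧ 0 ≤ N.δ0)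

theorem slopeH_of {b : ℕ} {β r : ℝ} {aw : ℤ} {n : ℕ} {N : NumQ} {ε k1 k2 h₁ h₂ : ℚ} {L1 : List (NRQ × ℚ × ℚ)}
    {o : Option ℚ} {L0 : List ℚ} (hc : chkS N ε k1 k2 h₁ h₂ L1 o L0 = true) (hb : 0 < b) (haw : aw + b ≤ 0)
    (haw' : 1 < aw + n * b) (hβ : 0 < β) (hr : 10 ≤ r) (hT : N.num.T0 ≤ TT b β r)
    (h1 : (k1 : ℝ) ≤ β * r) (h2 : β * r ≤ (k2 : ℝ)) (hh1 : (h₁ : ℝ) ≤ hh b) (hh2 : hh b ≤ (h₂ : ℝ))
    (hv : ∀ z ∈ Icc N.num.qL N.num.qR, ValH b β r ε z) : SlopeH b β r aw n N.num := by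
  unfold chkS at hc
  rw [Bool.and_eq_true, Bool.and_eq_true] at hc
  obtain ⟨⟨g1, g2⟩, g3⟩ := hc
  obtain ⟨d1, d2, d3, d4, d5, d6⟩ := of_decide_eq_true g3
  have e1 : (0 : ℝ) < (N.T0 : ℝ) := by exact_mod_cast d1
  have e2 : (1.39 : ℝ) ≤ (k1 : ℝ) := by
    have h := (Rat.cast_le (K := ℝ)).2 d2
    push_cast at h
    linarith
  have e3 : (0 : ℝ) ≤ (h₁ : ℝ) := by exact_mod_cast d3
  have e4 : (N.qR : ℝ) ≤ 0 := by exact_mod_cast d4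
  have e5 : -(N.qL : ℝ) * (h₂ : ℝ) ≤ (k1 : ℝ) := by exact_mod_cast d5
  have e6 : (0 : ℝ) ≤ (N.δ0 : ℝ) := by exact_mod_cast d6
  constructor
  · obtain ⟨a, c, c1, c5, c2, c3, c4⟩ := chk0_spec L0 g2 h1 h2
    exact s0_of (k₁ := a) (k₂ := c) (h₁ := h₁) (h₂ := h₂) (T0 := N.T0) (qL := N.qL) (qR := N.qR) (δ := N.δ0)
      hb haw haw' hβ hr hT e1 (e2.trans c4) c2 c3 hh1 e3 hh2 e4 (e5.trans c4) e6 c1 c5
  · obtain ⟨M, kc, F, m1, m2, m3, m4⟩ := chk1_spec L1 g1 h1 h2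
    intro z hz
    exact s1_of M m1 m2 hb haw haw' hβ hr hT m3 m4 hh1 hh2 hz (hv z hz)

theorem hh_lower {b : ℕ} (hb : 0 < b) {h : ℝ} (h1 : h * b ≤ 6.283184) : h ≤ hh b := by
  have hb' : (0:ℝ) < b := by exact_mod_cast hb
  have := Real.pi_gt_d6
  unfold hh
  rw [le_div_iff₀ hb']
  linarith

theorem hh_upper {b : ℕ} (hb : 0 < b) {h : ℝ} (h1 : 6.283186 ≤ h * b) : hh b ≤ h := by
  have hb' : (0:ℝ) < b := by exact_mod_cast hb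
  have := Real.pi_lt_d6
  unfold hh
  rw [div_le_iff₀ hb']
  linarith

end Sok.R2
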