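import Pool.Agent.Lib.MP_816dec_an.R2Sl
import Pool.Agent.Lib.MP_816dec_an.R2N4
import Pool.Agent.Lib.MP_816dec_an.R2Cls

/-!
MP_816dec_an (row R2): the value of the right main window
-/

set_option autoImplicit false

open Complex Set Filter Topology

namespace Sok.R2

open Sok.Mid Sok.N1

variable {b : ℕ} {β r z ε : ℝ}

theorem val_of {t : ℝ} (e : tk b β r 1 z = t)
    (hv : |‖AA β r t‖ * Real.sqrt (nD (t + sx (β * r) t - t) (sy (β * r) t)) *
      Real.exp (-((t + sx (β * r) t - t) * (1 + sy (β * r) t) / β)) - 1| ≤ ε) : ValH b β r ε z := by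
  unfold ValH
  rw [e]
  rw [add_sub_cancel_left] at hv
  have := (abs_le.1 hv).1
  linarith

theorem tk_one : tk b β r 1 z = -(β * r) + (1 + z) * hh b := by
  unfold tk; push_cast; ring

theorem val_b1 (hb : b = 1) (hβ : 0 < β) (hr : 10 ≤ r) (hT : 5.441 ≤ TT b β r) (hk : 4.7 ≤ β * r) (h0 : -1 ≤ z)
    (h1 : (1 + z) * 6.2832 ≤ 3.8956) : ValH b β r (1 / 5) z := by
  have hb1 : 1 ≤ b := by omega
  have hrc := rc_of hb1 hT
  have hu := (hh_bds hb1).2
  have hh0 := (hh_bds hb1).1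
  subst hb
  norm_num at hrc hu hh0
  have h2 : (1 + z) * hh 1 ≤ (1 + z) * 6.2832 := mul_le_mul_of_nonneg_left (by norm_num; linarith) (by linarith)
  have h3 : 0 ≤ (1 + z) * hh 1 := mul_nonneg (by linarith) (by linarith)
  have hv := rv1 (t := -(β * r) + (1 + z) * hh 1) hβ hr (by norm_num; linarith) hk (by linarith) (by linarith)
  norm_num at hv
  refine val_of tk_one ?_
  norm_num
  exact hv

theorem val_b1f (hb : b = 1) (hβ : 0 < β) (hr : 10 ≤ r) (hT : 5.441 ≤ TT b β r) (hk : 5.6 ≤ β * r) (h0 : -1 ≤ z)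
    (h1 : (1 + z) * 6.2832 ≤ 4.2726) : ValH b β r (1 / 5) z := by
  have hb1 : 1 ≤ b := by omega
  have hrc := rc_of hb1 hT
  have hu := (hh_bds hb1).2
  have hh0 := (hh_bds hb1).1
  subst hb
  norm_num at hrc hu hh0
  have h2 : (1 + z) * hh 1 ≤ (1 + z) * 6.2832 := mul_le_mul_of_nonneg_left (by norm_num; linarith) (by linarith)
  have h3 : 0 ≤ (1 + z) * hh 1 := mul_nonneg (by linarith) (by linarith)
  have hv := rv1f (t := -(β * r) + (1 + z) * hh 1) hβ hr (by norm_num; linarith) hk (by linarith) (by linarith)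
  norm_num at hv
  refine val_of tk_one ?_
  norm_num
  exact hv

theorem val_b2 (hb : b = 2) (hβ : 0 < β) (hr : 10 ≤ r) (hT : 5.441 ≤ TT b β r) (hk : 3 ≤ β * r) (h0 : -1 ≤ z)
    (h1 : (1 + z) * 3.1416 ≤ 2.1363) : ValH b β r (1 / 10) z := by
  have hb1 : 1 ≤ b := by omega
  have hrc := rc_of hb1 hT
  have hu := (hh_bds hb1).2
  have hh0 := (hh_bds hb1).1
  subst hb
  norm_num at hrc hu hh0
  have h2 : (1 + z) * hh 2 ≤ (1 + z) * 3.1416 := mul_le_mul_of_nonneg_left (by norm_num; linarith) (by linarith)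
  have h3 : 0 ≤ (1 + z) * hh 2 := mul_nonneg (by linarith) (by linarith)
  have hv := rv2 (t := -(β * r) + (1 + z) * hh 2) hβ hr (by norm_num; linarith) hk (by linarith) (by linarith)
  norm_num at hv
  refine val_of tk_one ?_
  norm_num
  exact hv

theorem val_b3 {n : ℕ} (hn : 3 ≤ n) (hb : n ≤ b) (hβ : 0 < β) (hr : 10 ≤ r) (hT : 5.441 ≤ TT b β r) (hk : 1.39 ≤ β * r)
    (h0 : -1 ≤ z) (h1 : (1 + z) * 6.2832 ≤ 1.4242 * n) : ValH b β r (1 / 10) z := by
  have hb1 : 1 ≤ b := by omega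
  have hrc := rc_of hb1 hT
  have hu := (hh_bds hb1).2
  have hh0 := (hh_bds hb1).1
  have hn0 : (0 : ℝ) < n := by exact_mod_cast (by omega : 0 < n)
  have hnb : (n : ℝ) ≤ b := by exact_mod_cast hb
  have hb0 : (0 : ℝ) < b := lt_of_lt_of_le hn0 hnb
  have hb3 : (3 : ℝ) ≤ b := by exact_mod_cast (by omega : 3 ≤ b)
  have hh1 : 0 ≤ hh b := le_trans (by positivity) hh0
  have h2 : (1 + z) * hh b ≤ 1.4242 := by
    calc (1 + z) * hh b ≤ (1 + z) * (6.2832 / b) := mul_le_mul_of_nonneg_left hu (by linarith)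
      _ = (1 + z) * 6.2832 / b := by ring
      _ ≤ 1.4242 := by
        rw [div_le_iff₀ hb0]
        nlinarith
  have h3 : 0 ≤ (1 + z) * hh b := mul_nonneg (by linarith) hh1
  have hrc3 : 1.2402 * (1 + (β * r) ^ 2) ≤ r := by
    refine le_trans ?_ hrc
    have : (9 : ℝ) ≤ (b : ℝ) ^ 2 := by nlinarith
    have h5 : 0 ≤ 1 + (β * r) ^ 2 := by positivity
    nlinarith
  have hv := rv3 (t := -(β * r) + (1 + z) * hh b) hβ hr hrc3 hk (by linarith) (by linarith)
  norm_num at hv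
  refine val_of tk_one ?_
  norm_num
  exact hv

end Sok.R2
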