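import Pool.Agent.Lib.MP_816dec_an.R2Val0

/-!
MP_816dec_an (row R2): the value of the right main window, part A
-/

set_option autoImplicit false

open Complex Set Filter Topology

namespace Sok.R2

open Sok.Mid Sok.N1

theorem val1_1 {b : ℕ} {β r : ℝ} (hb : b = 1) (hβ : 0 < β) (hr : 10 ≤ r) (hT : c1_1.num.T0 ≤ TT b β r)
    (h1 : (47 / 10 : ℝ) ≤ β * r) (_h2 : β * r ≤ 28 / 5) : ∀ z ∈ Icc c1_1.num.qL c1_1.num.qR, ValH b β r (1 / 5) z := by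
  intro z hz
  exact val_b1 hb hβ hr (le_trans (by norm_num [c1_1, NumQ.num]) hT) (by norm_num at h1 ⊢; linarith)
    (by norm_num [c1_1, NumQ.num] at hz ⊢; linarith [hz.1]) (by norm_num [c1_1, NumQ.num] at hz ⊢; linarith [hz.2])

theorem val1_2 {b : ℕ} {β r : ℝ} (hb : b = 1) (hβ : 0 < β) (hr : 10 ≤ r) (hT : c1_2.num.T0 ≤ TT b β r)
    (h1 : (28 / 5 : ℝ) ≤ β * r) (_h2 : β * r ≤ 69 / 10) : ∀ z ∈ Icc c1_2.num.qL c1_2.num.qR, ValH b β r (1 / 5) z := by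
  intro z hz
  exact val_b1f hb hβ hr (le_trans (by norm_num [c1_2, NumQ.num]) hT) (by norm_num at h1 ⊢; linarith)
    (by norm_num [c1_2, NumQ.num] at hz ⊢; linarith [hz.1]) (by norm_num [c1_2, NumQ.num] at hz ⊢; linarith [hz.2])

theorem val1_3 {b : ℕ} {β r : ℝ} (hb : b = 1) (hβ : 0 < β) (hr : 10 ≤ r) (hT : c1_3.num.T0 ≤ TT b β r)
    (h1 : (69 / 10 : ℝ) ≤ β * r) (_h2 : β * r ≤ 77 / 10) : ∀ z ∈ Icc c1_3.num.qL c1_3.num.qR, ValH b β r (1 / 5) z := by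
  intro z hz
  exact val_b1f hb hβ hr (le_trans (by norm_num [c1_3, NumQ.num]) hT) (by norm_num at h1 ⊢; linarith)
    (by norm_num [c1_3, NumQ.num] at hz ⊢; linarith [hz.1]) (by norm_num [c1_3, NumQ.num] at hz ⊢; linarith [hz.2])

theorem val1_4 {b : ℕ} {β r : ℝ} (hb : b = 1) (hβ : 0 < β) (hr : 10 ≤ r) (hT : c1_4.num.T0 ≤ TT b β r)
    (h1 : (77 / 10 : ℝ) ≤ β * r) (_h2 : β * r ≤ 41 / 5) : ∀ z ∈ Icc c1_4.num.qL c1_4.num.qR, ValH b β r (1 / 5) z := by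
  intro z hz
  exact val_b1f hb hβ hr (le_trans (by norm_num [c1_4, NumQ.num]) hT) (by norm_num at h1 ⊢; linarith)
    (by norm_num [c1_4, NumQ.num] at hz ⊢; linarith [hz.1]) (by norm_num [c1_4, NumQ.num] at hz ⊢; linarith [hz.2])

theorem val1_5 {b : ℕ} {β r : ℝ} (hb : b = 1) (hβ : 0 < β) (hr : 10 ≤ r) (hT : c1_5.num.T0 ≤ TT b β r)
    (h1 : (41 / 5 : ℝ) ≤ β * r) (_h2 : β * r ≤ 19 / 2) : ∀ z ∈ Icc c1_5.num.qL c1_5.num.qR, ValH b β r (1 / 5) z := by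
  intro z hz
  exact val_b1f hb hβ hr (le_trans (by norm_num [c1_5, NumQ.num]) hT) (by norm_num at h1 ⊢; linarith)
    (by norm_num [c1_5, NumQ.num] at hz ⊢; linarith [hz.1]) (by norm_num [c1_5, NumQ.num] at hz ⊢; linarith [hz.2])

theorem val1_6 {b : ℕ} {β r : ℝ} (hb : b = 1) (hβ : 0 < β) (hr : 10 ≤ r) (hT : c1_6.num.T0 ≤ TT b β r)
    (h1 : (19 / 2 : ℝ) ≤ β * r) (_h2 : β * r ≤ 20) : ∀ z ∈ Icc c1_6.num.qL c1_6.num.qR, ValH b β r (1 / 5) z := by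
  intro z hz
  exact val_b1f hb hβ hr (le_trans (by norm_num [c1_6, NumQ.num]) hT) (by norm_num at h1 ⊢; linarith)
    (by norm_num [c1_6, NumQ.num] at hz ⊢; linarith [hz.1]) (by norm_num [c1_6, NumQ.num] at hz ⊢; linarith [hz.2])

theorem val2_1 {b : ℕ} {β r : ℝ} (hb : b = 2) (hβ : 0 < β) (hr : 10 ≤ r) (hT : c2_1.num.T0 ≤ TT b β r)
    (h1 : (3 : ℝ) ≤ β * r) (_h2 : β * r ≤ 7 / 2) : ∀ z ∈ Icc c2_1.num.qL c2_1.num.qR, ValH b β r (1 / 10) z := by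
  intro z hz
  exact val_b2 hb hβ hr (le_trans (by norm_num [c2_1, NumQ.num]) hT) (by norm_num at h1 ⊢; linarith)
    (by norm_num [c2_1, NumQ.num] at hz ⊢; linarith [hz.1]) (by norm_num [c2_1, NumQ.num] at hz ⊢; linarith [hz.2])

theorem val2_2 {b : ℕ} {β r : ℝ} (hb : b = 2) (hβ : 0 < β) (hr : 10 ≤ r) (hT : c2_2.num.T0 ≤ TT b β r)
    (h1 : (7 / 2 : ℝ) ≤ β * r) (_h2 : β * r ≤ 39 / 10) : ∀ z ∈ Icc c2_2.num.qL c2_2.num.qR, ValH b β r (1 / 10) z := by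
  intro z hz
  exact val_b2 hb hβ hr (le_trans (by norm_num [c2_2, NumQ.num]) hT) (by norm_num at h1 ⊢; linarith)
    (by norm_num [c2_2, NumQ.num] at hz ⊢; linarith [hz.1]) (by norm_num [c2_2, NumQ.num] at hz ⊢; linarith [hz.2])

theorem val2_3 {b : ℕ} {β r : ℝ} (hb : b = 2) (hβ : 0 < β) (hr : 10 ≤ r) (hT : c2_3.num.T0 ≤ TT b β r)
    (h1 : (39 / 10 : ℝ) ≤ β * r) (_h2 : β * r ≤ 21 / 5) : ∀ z ∈ Icc c2_3.num.qL c2_3.num.qR, ValH b β r (1 / 10) z := by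
  intro z hz
  exact val_b2 hb hβ hr (le_trans (by norm_num [c2_3, NumQ.num]) hT) (by norm_num at h1 ⊢; linarith)
    (by norm_num [c2_3, NumQ.num] at hz ⊢; linarith [hz.1]) (by norm_num [c2_3, NumQ.num] at hz ⊢; linarith [hz.2])

theorem val2_4 {b : ℕ} {β r : ℝ} (hb : b = 2) (hβ : 0 < β) (hr : 10 ≤ r) (hT : c2_4.num.T0 ≤ TT b β r)
    (h1 : (21 / 5 : ℝ) ≤ β * r) (_h2 : β * r ≤ 20) : ∀ z ∈ Icc c2_4.num.qL c2_4.num.qR, ValH b β r (1 / 10) z := by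
  intro z hz
  exact val_b2 hb hβ hr (le_trans (by norm_num [c2_4, NumQ.num]) hT) (by norm_num at h1 ⊢; linarith)
    (by norm_num [c2_4, NumQ.num] at hz ⊢; linarith [hz.1]) (by norm_num [c2_4, NumQ.num] at hz ⊢; linarith [hz.2])

end Sok.R2
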