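import Pool.Agent.Lib.MP_816dec_an.R2WVal
import Pool.Agent.Lib.MP_816dec_an.R2Asm

/-!
MP_816dec_an (row R2, far windows): the class theorem for the far windows.  A record `W` of numbers with the side
conditions `W.Ok N` gives `FarH` at every point of the class.
-/

set_option autoImplicit false

open Complex Set Filter Topology MeasureTheory

namespace Sok.R2

/-- numbers of the far windows of a class: right line, left line, right line of window `1` -/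
structure WC where
  (R L Q : FC)
  (h0 : ℝ)
  (v1 vr V0 : ℝ)
  (U Uq χ6 χq χr : ℝ)
  (P5 θ Tr : ℝ)
  (g6 gq gr gm e6 eq er em : ℝ)
  (qm um : ℝ)

namespace WC

noncomputable def aK6 (W : WC) : ℝ := W.P5 * (W.R.A * W.R.sR * (1 / W.R.R0 + (W.v1 + 4 / 3)) * W.e6)
noncomputable def aKq (W : WC) : ℝ := W.P5 * (W.R.A * W.R.sR * (1 / W.R.R0 + (W.v1 + 4 / 3)) * W.eq)
noncomputable def aJq (W : WC) : ℝ := W.P5 * (W.R.J1 * W.R.R0 * (3.1416 * (1 / W.R.R0 + (W.v1 + 4 / 3)) +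
  ((W.v1 + 4 / 3) / W.R.R0 + (1 / W.R.R0) ^ 2 + (W.v1 + 4 / 3) ^ 2)) * W.eq)
noncomputable def aKr (W : WC) : ℝ := W.Q.A * W.Q.sR * (1 / W.Q.R0 + (W.vr + 4 / 3)) * W.er
noncomputable def aKm (W : WC) : ℝ := W.P5 * (W.L.A * W.L.sR * (1 / W.L.R0 + 4 / 3) * W.em)
noncomputable def aJm (W : WC) : ℝ := W.P5 * (W.L.J1 * W.L.R0 * (3.1416 * (1 / W.L.R0 + 4 / 3) +
  (4 / 3 / W.L.R0 + (1 / W.L.R0) ^ 2 + (4 / 3) ^ 2)) * W.em)

end WC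

/-- the side conditions of the values -/
structure WC.Ok (W : WC) (N : Num) : Prop where
  R : W.R.Ok
  L : W.L.Ok
  Q : W.Q.Ok
  kL : W.L.k1 = W.R.k1 ∧ W.L.k2 = W.R.k2 ∧ W.L.T0 = W.R.T0 ∧ W.L.R0 = W.R.R0 ∧ W.L.b1 = W.R.b1
  kQ : W.Q.k1 = W.R.k1 ∧ W.Q.k2 = W.R.k2 ∧ W.Q.T0 = W.R.T0 ∧ W.Q.R0 = W.R.R0 ∧ W.Q.b1 = W.R.b1
  kS : W.R.S = N.S ∧ W.L.S = N.Sm ∧ W.Q.S = N.Sr ∧ W.R.T0 = N.T0
  -- heights
  v1 : 6.2832 * N.S * W.R.k1 ≤ W.v1 * (W.R.b1 * (1 + W.R.k1 ^ 2))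
  E1 : W.R.E ≤ Real.exp (-W.v1)
  η1 : 6.2832 * N.S ≤ W.R.η1 * (W.R.b1 * (1 + W.R.k1 ^ 2))
  vr : 6.2832 * N.Sr * W.R.k1 ≤ W.vr * (W.R.b1 * (1 + W.R.k1 ^ 2))
  Er : W.Q.E ≤ Real.exp (-W.vr)
  ηr : 6.2832 * N.Sr ≤ W.Q.η1 * (W.R.b1 * (1 + W.R.k1 ^ 2))
  V0 : 0 ≤ W.V0 ∧ W.V0 * (1 + W.R.k2 ^ 2) ≤ W.R.k2 * (W.h0 * N.Sm)
  EL : W.L.E ≤ Real.exp W.V0
  ηL : 6.2832 * N.Sm ≤ W.L.η1 * (W.R.b1 * (1 + W.R.k1 ^ 2))
  VL : 6.2832 * N.Sm * W.R.k1 ≤ 4 / 3 * (W.R.b1 * (1 + W.R.k1 ^ 2))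
  -- legs
  kk : 1.384 ≤ W.R.k1
  U : W.U ≤ 2.79 ∧ 3.1416 + 6.2832 / W.R.b1 ≤ (1 + W.U) * W.R.k1
  Uq : W.Uq ≤ 2.79 ∧ 3.1416 + 6.2832 / W.R.b1 * (1 + N.qR) ≤ (1 + W.Uq) * W.R.k1
  qR : 0 ≤ 1 + N.qR
  χ6 : W.χ6 ≤ W.R.E * ((W.v1 + 1.693) / 2)
  χ6' : W.U * (Real.log W.U - 1) ≤ -W.χ6
  χq : W.χq ≤ W.R.E * ((W.v1 + 1.693) / 2)
  χq' : W.Uq * (Real.log W.Uq - 1) ≤ -W.χq
  χr : W.χr ≤ W.Q.E * ((W.vr + 1.693) / 2)
  χr' : W.U * (Real.log W.U - 1) ≤ -W.χr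
  P5 : 1 ≤ W.P5 ∧ 0 ≤ W.θ
  Tr : (6.2832 / W.R.b1) ^ 2 ≤ 2 * W.Tr * (1 + W.R.k1 ^ 2)
  g6 : W.g6 ≤ 1 + W.χ6 - W.θ - W.Tr ∧ 1 ≤ W.R.R0 * W.g6 ∧ Real.exp (-(W.R.R0 * W.g6)) ≤ W.e6
  gq : W.gq ≤ 1 + W.χq - W.θ - W.Tr ∧ 1 ≤ W.R.R0 * W.gq ∧ Real.exp (-(W.R.R0 * W.gq)) ≤ W.eq
  gr : W.gr ≤ 1 + W.χr - 2 * W.Tr * (N.Sr - N.Cr) ∧ 1 ≤ W.Q.R0 * W.gr ∧ Real.exp (-(W.Q.R0 * W.gr)) ≤ W.er
  gm : W.gm ≤ 1.84 - W.θ - W.Tr ∧ 1 ≤ W.L.R0 * W.gm ∧ Real.exp (-(W.L.R0 * W.gm)) ≤ W.em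
  SrCr : 0 ≤ N.Sr - N.Cr
  hk : 6.2832 / W.R.b1 ≤ W.R.k1 + 3.1415
  -- the constants
  ρ5 : Real.exp (-(N.T0 * N.S)) ≤ 1 / 5
  ρm5 : Real.exp (-(N.T0 * N.Sm)) ≤ 1 / 5
  q0 : 0 ≤ W.qm ∧ 0 ≤ W.um
  K2 : W.R.KK ≤ N.K2
  K2' : W.aK6 ≤ N.K2 * N.τ6
  K2'' : W.aKq ≤ N.K2 * N.τ
  Kr : W.Q.KK * (1 + W.Q.Q) + W.aKr ≤ N.Kr
  Km : W.L.KK * (1 + W.qm) ≤ N.Km
  Km' : W.aKm ≤ N.Km * N.τm
  Km2 : W.L.KK * (1 + W.qm) ≤ N.Km2
  Km2' : W.aKm ≤ N.Km2 * N.τm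

/-- the side conditions of the windows `k ≥ 3` -/
structure WC.Ok3 (W : WC) (N : Num) : Prop where
  K3 : W.R.KK ≤ N.K3
  K3' : W.aK6 ≤ N.K3 * N.τ6
  K3'' : W.aKq ≤ N.K3 * N.τ

/-- a point of the class, with its lines -/
structure WP (b : ℕ) (β r : ℝ) (aw : ℤ) (n : ℕ) (N : Num) (W : WC) : Prop where
  hb : 1 ≤ b
  hb1 : W.R.b1 ≤ b
  h0 : W.h0 ≤ hh b
  hβ : 0 < β
  hk1 : W.R.k1 ≤ β * r
  hk2 : β * r ≤ W.R.k2
  hR : W.R.R0 ≤ r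
  hT : N.T0 ≤ TT b β r
  hc : aw + n * b = 2
  h1 : b = 1 → -1 ≤ aw
  hρ : aw + b ≤ 1
  hρ2 : ((aw + b - 1 : ℤ) : ℝ) * hh b + Real.pi ≤ 0
  hρ3 : aw + b ≤ -1 → 2 - b ≤ aw + b
  hqm : aw + b ≤ -1 → W.L.Q ≤ W.qm ∧ 6.2832 * W.L.UQ ≤ W.um
  fp : ∀ i : ℕ, i + 2 ≤ b → (5 : ℝ) ^ i ≤ W.P5 * Real.exp (W.θ * r)
  LR : ∃ th, Line (β * r) (hh b) th N.S N.C
  LQ : ∃ th, Line (β * r) (hh b) th N.Sr N.Cr
  LT : ∀ V : ℝ, 0 < V → (1 + (β * r) ^ 2) * V = β * r * (hh b * N.Sm) →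
    (1 + (β * r) ^ 2) * (Mv (β * r) (-V) + -V - 1) ≤ hh b ^ 2 * N.Cm

section
variable {b : ℕ} {β r : ℝ} {aw : ℤ} {n : ℕ} {N : Num} {W : WC}

theorem WP.pR (O : W.Ok N) (P : WP b β r aw n N W) : Pt b β r W.R :=
  ⟨P.hb, P.hb1, P.hβ, P.hk1, P.hk2, P.hR, by rw [O.kS.2.2.2]; exact P.hT⟩

theorem WP.pL (O : W.Ok N) (P : WP b β r aw n N W) : Pt b β r W.L := by
  obtain ⟨h1, h2, h3, h4, h5⟩ := O.kL
  exact ⟨P.hb, by rw [h5]; exact P.hb1, P.hβ, by rw [h1]; exact P.hk1, by rw [h2]; exact P.hk2,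
    by rw [h4]; exact P.hR, by rw [h3, O.kS.2.2.2]; exact P.hT⟩

theorem WP.pQ (O : W.Ok N) (P : WP b β r aw n N W) : Pt b β r W.Q := by
  obtain ⟨h1, h2, h3, h4, h5⟩ := O.kQ
  exact ⟨P.hb, by rw [h5]; exact P.hb1, P.hβ, by rw [h1]; exact P.hk1, by rw [h2]; exact P.hk2,
    by rw [h4]; exact P.hR, by rw [h3, O.kS.2.2.2]; exact P.hT⟩

theorem WP.rp (O : W.Ok N) (P : WP b β r aw n N W) : 0 < r := (P.pR O).rp O.R

theorem WP.kap (O : W.Ok N) (P : WP b β r aw n N W) : 1 ≤ β * r := O.R.k1.trans P.hk1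

theorem WP.hb1p (O : W.Ok N) : 0 < W.R.b1 := by linarith [O.R.b1]

/-- `h ≤ 6.2832 / b₁` -/
theorem WP.hh_le (O : W.Ok N) (P : WP b β r aw n N W) : hh b ≤ 6.2832 / W.R.b1 := by
  have hb : (0 : ℝ) < b := by exact_mod_cast P.hb
  unfold hh
  exact div_le_div₀ (by norm_num) (by linarith [Real.pi_lt_d4]) (WP.hb1p O) P.hb1

/-- the height of a line of slope `S` -/
noncomputable def hv (b : ℕ) (κ S : ℝ) : ℝ := κ * (hh b * S) / (1 + κ ^ 2)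

theorem hv_spec {b : ℕ} {κ S : ℝ} : (1 + κ ^ 2) * hv b κ S = κ * (hh b * S) := by
  unfold hv; field_simp

theorem WP.hv_pos (O : W.Ok N) (P : WP b β r aw n N W) {S : ℝ} (hS : 0 < S) : 0 < hv b (β * r) S := by
  have := P.kap O
  have := hh_posW P.hb
  unfold hv; positivity

theorem WP.hv_le (O : W.Ok N) (P : WP b β r aw n N W) {S v1 : ℝ} (hS : 0 < S)
    (h : 6.2832 * S * W.R.k1 ≤ v1 * (W.R.b1 * (1 + W.R.k1 ^ 2))) : hv b (β * r) S ≤ v1 := by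
  have hκ := P.kap O
  have hk := O.R.k1
  have hb1 := WP.hb1p O
  have hh0 := hh_posW P.hb
  have h1 := P.hh_le O
  have h2 : hh b * W.R.b1 ≤ 6.2832 := by rwa [le_div_iff₀ hb1] at h1
  unfold hv
  rw [div_le_iff₀ (by positivity)]
  have h3 : β * r * (1 + W.R.k1 ^ 2) ≤ W.R.k1 * (1 + (β * r) ^ 2) := by
    have : 0 ≤ (β * r - W.R.k1) * (W.R.k1 * (β * r) - 1) := by
      apply mul_nonneg (by linarith [P.hk1])
      nlinarith [P.hk1]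
    nlinarith
  have h4 : 0 < W.R.b1 * (1 + W.R.k1 ^ 2) := by positivity
  have h5 : (β * r * (hh b * S)) * (W.R.b1 * (1 + W.R.k1 ^ 2)) ≤ (v1 * (1 + (β * r) ^ 2)) * (W.R.b1 * (1 + W.R.k1 ^ 2)) := by
    calc (β * r * (hh b * S)) * (W.R.b1 * (1 + W.R.k1 ^ 2)) =
        (β * r * (1 + W.R.k1 ^ 2)) * ((hh b * W.R.b1) * S) := by ring
      _ ≤ (W.R.k1 * (1 + (β * r) ^ 2)) * (6.2832 * S) := by
          apply mul_le_mul h3 (mul_le_mul_of_nonneg_right h2 hS.le) (by positivity) (by positivity)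
      _ = (6.2832 * S * W.R.k1) * (1 + (β * r) ^ 2) := by ring
      _ ≤ (v1 * (W.R.b1 * (1 + W.R.k1 ^ 2))) * (1 + (β * r) ^ 2) := mul_le_mul_of_nonneg_right h (by positivity)
      _ = _ := by ring
  exact le_of_mul_le_mul_right h5 h4

theorem WP.eta_le (O : W.Ok N) (P : WP b β r aw n N W) {S η1 : ℝ} (hS : 0 < S)
    (h : 6.2832 * S ≤ η1 * (W.R.b1 * (1 + W.R.k1 ^ 2))) : hv b (β * r) S / (β * r) ≤ η1 := by
  have hκ := P.kap O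
  have hk := O.R.k1
  have hb1 := WP.hb1p O
  have hh0 := hh_posW P.hb
  have h1 := P.hh_le O
  have h2 : hh b * W.R.b1 ≤ 6.2832 := by rwa [le_div_iff₀ hb1] at h1
  have e1 : hv b (β * r) S / (β * r) = hh b * S / (1 + (β * r) ^ 2) := by
    have : β * r ≠ 0 := by linarith
    unfold hv
    rw [div_div, div_eq_div_iff (by positivity) (by positivity)]
    ring
  rw [e1, div_le_iff₀ (by positivity)]
  have h4 : 0 < W.R.b1 * (1 + W.R.k1 ^ 2) := by positivity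
  have h3 : 1 + W.R.k1 ^ 2 ≤ 1 + (β * r) ^ 2 := by
    have := pow_le_pow_left₀ (by linarith) P.hk1 2
    linarith
  have h5 : (hh b * S) * (W.R.b1 * (1 + W.R.k1 ^ 2)) ≤ (η1 * (1 + (β * r) ^ 2)) * (W.R.b1 * (1 + W.R.k1 ^ 2)) := by
    calc (hh b * S) * (W.R.b1 * (1 + W.R.k1 ^ 2)) = ((hh b * W.R.b1) * S) * (1 + W.R.k1 ^ 2) := by ring
      _ ≤ (6.2832 * S) * (1 + (β * r) ^ 2) := by
          apply mul_le_mul (mul_le_mul_of_nonneg_right h2 hS.le) h3 (by positivity) (by positivity)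
      _ ≤ (η1 * (W.R.b1 * (1 + W.R.k1 ^ 2))) * (1 + (β * r) ^ 2) := mul_le_mul_of_nonneg_right h (by positivity)
      _ = _ := by ring
  exact le_of_mul_le_mul_right h5 h4

theorem WP.rl (O : W.Ok N) (P : WP b β r aw n N W) : RL b β r W.R N.C (hv b (β * r) N.S) := by
  obtain ⟨th, L⟩ := P.LR
  have hS : 0 < N.S := by rw [← O.kS.1]; exact O.R.S
  have h0 := P.hv_pos O hS
  have h1 := P.hv_le O hS O.v1
  refine ⟨h0, ?_, L.Iy (P.kap O) h0.le hv_spec.le, L.tangent (P.kap O) (hh_posW P.hb) h0.le hv_spec, ?_,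
    P.eta_le O hS O.η1⟩
  · rw [O.kS.1]; exact hv_spec
  · exact O.E1.trans (Real.exp_le_exp.2 (by linarith))

theorem WP.rq (O : W.Ok N) (P : WP b β r aw n N W) : RL b β r W.Q N.Cr (hv b (β * r) N.Sr) := by
  obtain ⟨th, L⟩ := P.LQ
  have hS : 0 < N.Sr := by rw [← O.kS.2.2.1]; exact O.Q.S
  have h0 := P.hv_pos O hS
  have h1 := P.hv_le O hS O.vr
  refine ⟨h0, ?_, L.Iy (P.kap O) h0.le hv_spec.le, L.tangent (P.kap O) (hh_posW P.hb) h0.le hv_spec, ?_,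
    P.eta_le O hS O.ηr⟩
  · rw [O.kS.2.2.1]; exact hv_spec
  · exact O.Er.trans (Real.exp_le_exp.2 (by linarith))

theorem WP.ll (O : W.Ok N) (P : WP b β r aw n N W) : LL b β r W.L N.Cm (hv b (β * r) N.Sm) := by
  have hS : 0 < N.Sm := by rw [← O.kS.2.1]; exact O.L.S
  have h0 := P.hv_pos O hS
  refine ⟨h0, ?_, P.LT _ h0 hv_spec, ?_, P.eta_le O hS O.ηL⟩
  · rw [O.kS.2.1]; exact hv_spec
  · refine O.EL.trans (Real.exp_le_exp.2 ?_)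
    have hκ := P.kap O
    have hk2 : 0 < W.R.k2 := by linarith [P.hk2]
    have h1 : W.R.k2 * (1 + (β * r) ^ 2) ≤ β * r * (1 + W.R.k2 ^ 2) := by
      have : 0 ≤ (W.R.k2 - β * r) * (W.R.k2 * (β * r) - 1) := by
        apply mul_nonneg (by linarith [P.hk2])
        nlinarith [P.hk2]
      nlinarith
    unfold hv
    rw [le_div_iff₀ (by positivity)]
    have h2 : W.h0 * N.Sm ≤ hh b * N.Sm := mul_le_mul_of_nonneg_right P.h0 hS.le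
    have h3 : W.V0 * (1 + W.R.k2 ^ 2) ≤ W.R.k2 * (hh b * N.Sm) :=
      O.V0.2.trans (mul_le_mul_of_nonneg_left h2 hk2.le)
    have h4 : (W.V0 * (1 + (β * r) ^ 2)) * (1 + W.R.k2 ^ 2) ≤ (β * r * (hh b * N.Sm)) * (1 + W.R.k2 ^ 2) := by
      calc (W.V0 * (1 + (β * r) ^ 2)) * (1 + W.R.k2 ^ 2) = (W.V0 * (1 + W.R.k2 ^ 2)) * (1 + (β * r) ^ 2) := by ring
        _ ≤ (W.R.k2 * (hh b * N.Sm)) * (1 + (β * r) ^ 2) := mul_le_mul_of_nonneg_right h3 (by positivity)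
        _ = (hh b * N.Sm) * (W.R.k2 * (1 + (β * r) ^ 2)) := by ring
        _ ≤ (hh b * N.Sm) * (β * r * (1 + W.R.k2 ^ 2)) := by
            apply mul_le_mul_of_nonneg_left h1
            have := hh_posW P.hb
            positivity
        _ = _ := by ring
    exact le_of_mul_le_mul_right h4 (by positivity)

theorem WP.VL (O : W.Ok N) (P : WP b β r aw n N W) : hv b (β * r) N.Sm ≤ 4 / 3 :=
  P.hv_le O (by rw [← O.kS.2.1]; exact O.L.S) O.VL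

/-- `T / 2 ≤ r Tr` -/
theorem WP.T2 (O : W.Ok N) (P : WP b β r aw n N W) : TT b β r / 2 ≤ r * W.Tr := by
  have hr := P.rp O
  have h1 := P.hh_le O
  have hh0 := hh_posW P.hb
  have hk : 0 < W.R.k1 := by linarith [O.R.k1]
  unfold TT
  rw [div_div, div_le_iff₀ (by positivity)]
  have h2 : hh b ^ 2 ≤ (6.2832 / W.R.b1) ^ 2 := pow_le_pow_left₀ hh0.le h1 2
  have h3 : 1 + W.R.k1 ^ 2 ≤ 1 + (β * r) ^ 2 := by
    have := pow_le_pow_left₀ hk.le P.hk1 2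
    linarith
  have hT0 : 0 ≤ W.Tr := by
    have h4 : 0 ≤ 2 * W.Tr * (1 + W.R.k1 ^ 2) := le_trans (by positivity) O.Tr
    by_contra h5
    push Not at h5
    have : 2 * W.Tr * (1 + W.R.k1 ^ 2) < 0 := by
      have : 0 < 1 + W.R.k1 ^ 2 := by positivity
      nlinarith
    linarith
  have h4 : hh b ^ 2 ≤ 2 * W.Tr * (1 + (β * r) ^ 2) :=
    (h2.trans O.Tr).trans (mul_le_mul_of_nonneg_left h3 (by positivity))
  have h5 := mul_le_mul_of_nonneg_left h4 hr.le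
  linarith

/-- the tangents of the legs: `t_k - π ≤ U κ` -/
theorem WP.tU (O : W.Ok N) (P : WP b β r aw n N W) {k : ℤ} {z q U : ℝ} (hk : k ≤ b + 1) (hz : z ≤ q) (hq : 0 ≤ 1 + q)
    (hU : 3.1416 + 6.2832 / W.R.b1 * (1 + q) ≤ (1 + U) * W.R.k1) : tk b β r k z - Real.pi ≤ U * (β * r) := by
  have hh0 := hh_posW P.hb
  have hb : (0 : ℝ) < b := by exact_mod_cast P.hb
  have h1 := P.hh_le O
  have hbh : (b : ℝ) * hh b = 2 * Real.pi := by unfold hh; field_simp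
  have hk' : (k : ℝ) ≤ b + 1 := by exact_mod_cast hk
  have h2 : ((k : ℝ) + z) * hh b ≤ 2 * Real.pi + (1 + q) * hh b := by
    have : ((k : ℝ) + z) * hh b ≤ (b + 1 + q) * hh b := mul_le_mul_of_nonneg_right (by linarith) hh0.le
    linarith
  have h3 : (1 + q) * hh b ≤ 6.2832 / W.R.b1 * (1 + q) := by
    rw [mul_comm]; exact mul_le_mul_of_nonneg_right h1 hq
  have hκ := P.kap O
  have h4 : (1 + U) * W.R.k1 ≤ (1 + U) * (β * r) := by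
    apply mul_le_mul_of_nonneg_left P.hk1
    have h5 : 0 ≤ (1 + U) * W.R.k1 := by
      have : 0 ≤ 6.2832 / W.R.b1 * (1 + q) := by
        have := WP.hb1p O
        positivity
      linarith
    by_contra h6
    push Not at h6
    have : (1 + U) * W.R.k1 < 0 := mul_neg_of_neg_of_pos h6 (by linarith [O.R.k1])
    linarith
  unfold tk
  linarith [Real.pi_lt_d4]

/-- `xf` at `k ≥ 3`: gain of `5^{-i}` -/
theorem WP.gain (P : WP b β r aw n N W) {S C Y : ℝ} (h5 : Real.exp (-(N.T0 * S)) ≤ 1 / 5)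
    (hS : 0 < S) (i : ℕ) : xf b β r S C (Y + i) ≤ (1 / 5) ^ i * xf b β r S C Y := by
  rw [xf_add, mul_comm]
  apply mul_le_mul_of_nonneg_right _ (Real.exp_pos _).le
  have e1 : -((i : ℝ) * (TT b β r * S)) = (i : ℝ) * -(TT b β r * S) := by ring
  rw [e1, Real.exp_nat_mul]
  apply pow_le_pow_left₀ (Real.exp_pos _).le
  refine le_trans (Real.exp_le_exp.2 ?_) h5
  have := mul_le_mul_of_nonneg_right P.hT hS.le
  linarith

/-- the absolute leg against `e^{-T/2}` with `5^i` -/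
theorem WP.abs_le (O : W.Ok N) (P : WP b β r aw n N W) {a K τ X : ℝ} {i : ℕ} (hi : i = 0 ∨ i + 2 ≤ b) (ha : 0 ≤ a)
    (h : Real.exp (W.θ * r + TT b β r / 2) * a ≤ X) (hX : W.P5 * X ≤ K * τ) :
    a ≤ (1 / 5) ^ i * (K * (τ * Real.exp (-(TT b β r / 2)))) := by
  have hr := P.rp O
  have h1 : (5 : ℝ) ^ i ≤ W.P5 * Real.exp (W.θ * r) := by
    rcases hi with hi | hi
    · rw [hi, pow_zero]
      have h2 : 1 ≤ Real.exp (W.θ * r) := Real.one_le_exp (mul_nonneg O.P5.2 hr.le)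
      have h3 := O.P5.1
      nlinarith
    · exact P.fp i hi
  have h2 : (5 : ℝ) ^ i * a ≤ W.P5 * Real.exp (W.θ * r) * a := mul_le_mul_of_nonneg_right h1 ha
  have h3 : Real.exp (W.θ * r) = Real.exp (W.θ * r + TT b β r / 2) * Real.exp (-(TT b β r / 2)) := by
    rw [← Real.exp_add]; congr 1; ring
  have h4 : W.P5 * Real.exp (W.θ * r) * a ≤ K * τ * Real.exp (-(TT b β r / 2)) := by
    calc W.P5 * Real.exp (W.θ * r) * a =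
        W.P5 * (Real.exp (W.θ * r + TT b β r / 2) * a) * Real.exp (-(TT b β r / 2)) := by rw [h3]; ring
      _ ≤ W.P5 * X * Real.exp (-(TT b β r / 2)) := by
          apply mul_le_mul_of_nonneg_right _ (Real.exp_pos _).le
          exact mul_le_mul_of_nonneg_left h (by linarith [O.P5.1])
      _ ≤ K * τ * Real.exp (-(TT b β r / 2)) := mul_le_mul_of_nonneg_right hX (Real.exp_pos _).le
  have h5 : (1 / 5 : ℝ) ^ i * 5 ^ i = 1 := by rw [← mul_pow]; norm_num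
  calc a = ((1 / 5 : ℝ) ^ i * 5 ^ i) * a := by rw [h5, one_mul]
    _ = (1 / 5 : ℝ) ^ i * (5 ^ i * a) := by ring
    _ ≤ (1 / 5 : ℝ) ^ i * (K * τ * Real.exp (-(TT b β r / 2))) :=
        mul_le_mul_of_nonneg_left (h2.trans h4) (by positivity)
    _ = _ := by ring

end

end Sok.R2
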