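import Pool.Agent.Lib.MP_816dec_an.R2WLeg
import Pool.Agent.Lib.MP_816dec_an.R2Defs

/-!
MP_816dec_an (row R2, far windows): class bounds of the constants of a line.
-/

set_option autoImplicit false

open Complex Set Filter Topology MeasureTheory

namespace Sok.R2

private theorem nonneg_of_derivC {f f' : ℝ → ℝ} {a x : ℝ} (hax : a ≤ x) (h : ∀ t, HasDerivAt f (f' t) t)
    (h0 : 0 ≤ f a) (h1 : ∀ t, a ≤ t → t ≤ x → 0 ≤ f' t) : 0 ≤ f x := by
  have hm : MonotoneOn f (Icc a x) := by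
    refine monotoneOn_of_deriv_nonneg (convex_Icc a x) (fun t _ => (h t).continuousAt.continuousWithinAt)
      (fun t _ => (h t).differentiableAt.differentiableWithinAt) fun t ht => ?_
    rw [interior_Icc] at ht
    rw [(h t).deriv]
    exact h1 t ht.1.le ht.2.le
  exact h0.trans (hm ⟨le_rfl, hax⟩ ⟨hax, le_rfl⟩ hax)

private theorem sin3C {x : ℝ} (hx : 0 ≤ x) : x - x ^ 3 / 6 ≤ Real.sin x := by
  rcases hx.eq_or_lt with h | h
  · rw [← h]; simp
  · exact (Real.sin_gt_sub_cube h).le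

private theorem cos4C {x : ℝ} (hx : 0 ≤ x) : Real.cos x ≤ 1 - x ^ 2 / 2 + x ^ 4 / 24 := by
  have h := nonneg_of_derivC (f := fun t => 1 - t ^ 2 / 2 + t ^ 4 / 24 - Real.cos t)
    (f' := fun t => -t + t ^ 3 / 6 + Real.sin t) hx ?_ (by simp) ?_
  · linarith
  · intro t
    have h1 := ((((hasDerivAt_pow 2 t).div_const 2).const_sub 1).add ((hasDerivAt_pow 4 t).div_const 24)).sub
      (Real.hasDerivAt_cos t)
    refine h1.congr_deriv ?_
    push_cast; ring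
  · intro t ht _
    have := sin3C ht
    linarith

private theorem sin5C {x : ℝ} (hx : 0 ≤ x) : Real.sin x ≤ x - x ^ 3 / 6 + x ^ 5 / 120 := by
  have h := nonneg_of_derivC (f := fun t => t - t ^ 3 / 6 + t ^ 5 / 120 - Real.sin t)
    (f' := fun t => 1 - t ^ 2 / 2 + t ^ 4 / 24 - Real.cos t) hx ?_ (by simp) ?_
  · linarith
  · intro t
    have h1 := (((hasDerivAt_id t).sub ((hasDerivAt_pow 3 t).div_const 6)).add ((hasDerivAt_pow 5 t).div_const 120)).sub
      (Real.hasDerivAt_sin t)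
    refine h1.congr_deriv ?_
    push_cast; ring
  · intro t ht _
    have := cos4C ht
    linarith

/-- lower Taylor polynomial of the cosine -/
noncomputable def cosp (x : ℝ) : ℝ := 1 - x ^ 2 / 2 + x ^ 4 / 24 - x ^ 6 / 720

theorem cosp_le {x : ℝ} (hx : 0 ≤ x) : cosp x ≤ Real.cos x := by
  have h := nonneg_of_derivC (f := fun t => Real.cos t - (1 - t ^ 2 / 2 + t ^ 4 / 24 - t ^ 6 / 720))
    (f' := fun t => t - t ^ 3 / 6 + t ^ 5 / 120 - Real.sin t) hx ?_ (by simp) ?_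
  · unfold cosp; linarith
  · intro t
    have h1 := (Real.hasDerivAt_cos t).sub (((((hasDerivAt_pow 2 t).div_const 2).const_sub 1).add
      ((hasDerivAt_pow 4 t).div_const 24)).sub ((hasDerivAt_pow 6 t).div_const 720))
    refine h1.congr_deriv ?_
    push_cast; ring
  · intro t ht _
    have := sin5C ht
    linarith

/-- `r e^{-rα}` decreases from `R` on -/
theorem sup_one {r R α : ℝ} (hR : 0 < R) (hr : R ≤ r) (h : 1 ≤ R * α) :
    r * Real.exp (-(r * α)) ≤ R * Real.exp (-(R * α)) := by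
  have h1 : r / R - 1 + 1 ≤ Real.exp (r / R - 1) := Real.add_one_le_exp _
  have h2 : r / R - 1 ≤ (r - R) * α := by
    have h3 : r / R - 1 = (r - R) * (1 / R) := by field_simp
    rw [h3]
    apply mul_le_mul_of_nonneg_left _ (by linarith)
    rw [div_le_iff₀ hR]; linarith
  have h4 : r / R ≤ Real.exp ((r - R) * α) := by
    refine le_trans (by linarith) (h1.trans (Real.exp_le_exp.2 h2))
  have h5 : r ≤ R * Real.exp ((r - R) * α) := by
    rw [div_le_iff₀ hR] at h4; linarith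
  have h6 := mul_le_mul_of_nonneg_right h5 (Real.exp_pos (-(r * α))).le
  have h7 : R * Real.exp ((r - R) * α) * Real.exp (-(r * α)) = R * Real.exp (-(R * α)) := by
    rw [mul_assoc, ← Real.exp_add]; congr 2; ring
  linarith

/-- `√(r/2π) e^{-rα}` decreases from `R` on -/
theorem sup_half {r R α s : ℝ} (hR : 0 < R) (hr : R ≤ r) (h : 1 ≤ R * α) (hs : 0 ≤ s)
    (hs' : R ≤ s ^ 2 * (2 * Real.pi)) :
    Real.sqrt (r / (2 * Real.pi)) * Real.exp (-(r * α)) ≤ s * Real.exp (-(R * α)) := by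
  have hpi := Real.pi_pos
  have h1 := sup_one (α := 2 * α) hR hr (by linarith)
  apply le_of_sq_le_sq _ (by positivity)
  have e1 : (Real.sqrt (r / (2 * Real.pi)) * Real.exp (-(r * α))) ^ 2 =
      (r * Real.exp (-(r * (2 * α)))) / (2 * Real.pi) := by
    rw [mul_pow, Real.sq_sqrt (div_nonneg (by linarith) (by positivity)), ← Real.exp_nat_mul]
    have : ((2 : ℕ) : ℝ) * -(r * α) = -(r * (2 * α)) := by push_cast; ring
    rw [this]; ring
  have e2 : (s * Real.exp (-(R * α))) ^ 2 = s ^ 2 * Real.exp (-(R * (2 * α))) := by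
    rw [mul_pow, ← Real.exp_nat_mul]
    have : ((2 : ℕ) : ℝ) * -(R * α) = -(R * (2 * α)) := by push_cast; ring
    rw [this]
  rw [e1, e2, div_le_iff₀ (by positivity)]
  have h2 := mul_le_mul_of_nonneg_right hs' (Real.exp_pos (-(R * (2 * α)))).le
  linarith

/-- numbers of a line -/
structure FC where
  (k1 k2 T0 R0 b1 S : ℝ)
  (A J1 sR : ℝ)
  (E η1 ξ x0 α x1 α' : ℝ)
  (s1 s2 X1 X2 zE oE lE Q UQ : ℝ)

/-- the numeric conditions of a line -/
structure FC.Ok (N : FC) : Prop where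
  k1 : 1 ≤ N.k1
  k2 : N.k1 ≤ N.k2
  T0 : 0 < N.T0
  R0 : 1 ≤ N.R0
  b1 : 1 ≤ N.b1
  S : 0 < N.S
  A : 0 < N.A ∧ 1 + 1 / N.k1 ^ 2 ≤ N.A ^ 4
  J1 : 0 < N.J1 ∧ N.A ^ 6 ≤ N.J1 ^ 2 * (6.283 * N.T0)
  sR : 0 < N.sR ∧ N.R0 ≤ N.sR ^ 2 * 6.283
  E : 0 < N.E ∧ 0 < N.ξ ∧ 0 ≤ N.η1 ∧ N.ξ ^ 2 + N.η1 ^ 2 ≤ N.E ^ 2
  mono : 1.5708 * N.η1 ≤ N.E
  c : 0 < 11 / 12 * N.ξ - N.η1 / 3
  ν : 0 < 0.8414 * N.ξ - 0.4598 * N.η1
  g : 0 ≤ 0.4596 * N.ξ - 0.1586 * N.η1
  s1 : 0 < N.s1 ∧ 1 ≤ 4 * N.s1 ^ 2 * (11 / 12 * N.ξ - N.η1 / 3)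
  s2 : 0 < N.s2 ∧ 1 ≤ 4 * N.s2 ^ 2 * (11 / 12 * N.ξ)
  X1 : Real.exp (-(N.R0 * (0.4596 * N.ξ - 0.1586 * N.η1))) ≤ N.X1
  X2 : Real.exp (-(N.R0 * (0.4596 * N.ξ))) ≤ N.X2
  z1 : 1 ≤ N.R0 * N.E
  zE : Real.exp (-(N.R0 * N.E)) ≤ N.zE
  x0 : 0 ≤ N.x0 ∧ N.x0 ≤ 1.57 ∧ N.α ≤ N.E * cosp N.x0 - N.η1 * (1.5708 - N.x0)
  α1 : 1 ≤ N.R0 * N.α
  oE : Real.exp (-(N.R0 * N.α)) ≤ N.oE
  x1 : 0 ≤ N.x1 ∧ N.x1 ≤ 1.57 ∧ N.α' ≤ N.E * (1 + cosp N.x1) - N.η1 * (3.1416 - N.x1)
  α1' : 0 ≤ N.α'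
  lE : Real.exp (-(N.R0 * N.α')) ≤ N.lE
  q1 : 1 ≤ N.b1 * (N.T0 * N.S)
  Q : Real.exp (-(N.b1 * (N.T0 * N.S))) ≤ N.Q
  Q1 : N.Q < 1
  UQ : (1 + N.k2 ^ 2) / N.k2 * (N.b1 / 6.283) * N.Q ≤ N.UQ

namespace FC

noncomputable def N0 (N : FC) : ℝ := N.s1 + N.s2 + N.sR / N.R0 *
  (N.X1 / (0.8414 * N.ξ - 0.4598 * N.η1) + N.X2 / (0.8414 * N.ξ))
noncomputable def N1 (N : FC) : ℝ := 1 / (11 / 12 * N.ξ - N.η1 / 3) + 1 / (11 / 12 * N.ξ) +
  N.X1 * (1 / (0.8414 * N.ξ - 0.4598 * N.η1) + 1 / (N.R0 * (0.8414 * N.ξ - 0.4598 * N.η1) ^ 2)) +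
  N.X2 * (1 / (0.8414 * N.ξ) + 1 / (N.R0 * (0.8414 * N.ξ) ^ 2))
noncomputable def B0 (N : FC) : ℝ := N.A * (N.N0 + 1.5708 * N.sR * (N.zE + N.oE))
noncomputable def B1 (N : FC) : ℝ := N.J1 * (N.N1 + 1.5708 * N.R0 * (4.7124 * N.zE + 3.1416 * N.oE))
noncomputable def L0 (N : FC) : ℝ := N.A * (N.sR / N.R0) * (2 / N.E) * N.lE
noncomputable def L1 (N : FC) : ℝ := N.J1 * N.lE * (6.2832 / N.E + 4 / (N.E ^ 2 * N.R0))
/-- the value constant -/
noncomputable def KK (N : FC) : ℝ := N.B0 / (1 - N.Q) + N.L0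
/-- the moment constant -/
noncomputable def JJ (N : FC) : ℝ := N.B1 / (1 - N.Q) + 6.2832 * N.UQ * N.B0 / (1 - N.Q) ^ 2 + N.L1

theorem Ok.X1p {N : FC} (H : N.Ok) : 0 < N.X1 := lt_of_lt_of_le (Real.exp_pos _) H.X1
theorem Ok.X2p {N : FC} (H : N.Ok) : 0 < N.X2 := lt_of_lt_of_le (Real.exp_pos _) H.X2
theorem Ok.zEp {N : FC} (H : N.Ok) : 0 < N.zE := lt_of_lt_of_le (Real.exp_pos _) H.zE
theorem Ok.oEp {N : FC} (H : N.Ok) : 0 < N.oE := lt_of_lt_of_le (Real.exp_pos _) H.oE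
theorem Ok.lEp {N : FC} (H : N.Ok) : 0 < N.lE := lt_of_lt_of_le (Real.exp_pos _) H.lE
theorem Ok.Qp {N : FC} (H : N.Ok) : 0 < N.Q := lt_of_lt_of_le (Real.exp_pos _) H.Q
theorem Ok.R0p {N : FC} (H : N.Ok) : 0 < N.R0 := lt_of_lt_of_le one_pos H.R0

theorem Ok.N0p {N : FC} (H : N.Ok) : 0 < N.N0 := by
  have h1 := H.X1p; have h2 := H.X2p; have h3 := H.R0p; have h4 := H.sR.1; have h5 := H.s1.1; have h6 := H.s2.1
  have h7 := H.ν; have h8 := H.E.2.1
  unfold N0; positivity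

theorem Ok.N1p {N : FC} (H : N.Ok) : 0 < N.N1 := by
  have h1 := H.X1p; have h2 := H.X2p; have h3 := H.R0p; have h4 := H.c
  have h7 := H.ν; have h8 := H.E.2.1
  unfold N1; positivity

theorem Ok.B0p {N : FC} (H : N.Ok) : 0 < N.B0 := by
  have h1 := H.N0p; have h2 := H.A.1; have h3 := H.sR.1; have h4 := H.zEp; have h5 := H.oEp
  unfold B0; positivity

theorem Ok.B1p {N : FC} (H : N.Ok) : 0 < N.B1 := by
  have h1 := H.N1p; have h2 := H.J1.1; have h3 := H.R0p; have h4 := H.zEp; have h5 := H.oEp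
  unfold B1; positivity

theorem Ok.L0p {N : FC} (H : N.Ok) : 0 < N.L0 := by
  have h1 := H.lEp; have h2 := H.A.1; have h3 := H.R0p; have h4 := H.sR.1; have h5 := H.E.1
  unfold L0; positivity

theorem Ok.L1p {N : FC} (H : N.Ok) : 0 < N.L1 := by
  have h1 := H.lEp; have h2 := H.J1.1; have h3 := H.R0p; have h5 := H.E.1
  unfold L1; positivity

end FC

private theorem pi_lo : (6.283 : ℝ) ≤ 2 * Real.pi := by have := Real.pi_gt_d4; linarith
private theorem pi_hi : Real.pi ≤ 3.1416 := Real.pi_lt_d4.le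

/-- the geometry of a line: `n = E cos w`, `η = E sin w` -/
structure Geo (N : FC) (r Ev w n η : ℝ) : Prop where
  hr : N.R0 ≤ r
  hE : N.E ≤ Ev
  hw : 0 ≤ w
  hw' : w < Real.pi / 2
  hn : n = Ev * Real.cos w
  hη : η = Ev * Real.sin w
  h1 : η ≤ N.η1

section
variable {N : FC} {r Ev w n η : ℝ}

theorem Geo.rp (H : N.Ok) (G : Geo N r Ev w n η) : 0 < r := lt_of_lt_of_le H.R0p G.hr

theorem Geo.η0 (H : N.Ok) (G : Geo N r Ev w n η) : 0 ≤ η := by
  rw [G.hη]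
  exact mul_nonneg (H.E.1.le.trans G.hE)
    (Real.sin_nonneg_of_nonneg_of_le_pi G.hw (by linarith [G.hw', Real.pi_pos]))

theorem Geo.xi_le (H : N.Ok) (G : Geo N r Ev w n η) : N.ξ ≤ n := by
  obtain ⟨hE, hξ, hη1, hs⟩ := H.E
  have hEv : 0 < Ev := lt_of_lt_of_le hE G.hE
  have hn0 : 0 ≤ n := by
    rw [G.hn]
    exact mul_nonneg hEv.le (Real.cos_nonneg_of_mem_Icc ⟨by linarith [G.hw, Real.pi_pos], G.hw'.le⟩)
  have h1 : n ^ 2 + η ^ 2 = Ev ^ 2 := by
    rw [G.hn, G.hη]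
    have := Real.sin_sq_add_cos_sq w
    nlinarith
  have h2 : η ^ 2 ≤ N.η1 ^ 2 := pow_le_pow_left₀ (G.η0 H) G.h1 2
  have h3 : N.E ^ 2 ≤ Ev ^ 2 := pow_le_pow_left₀ hE.le G.hE 2
  exact le_of_sq_le_sq (by linarith) hn0

/-- `a + e w ≥ r E` and the tangents -/
theorem Geo.tan (H : N.Ok) (G : Geo N r Ev w n η) {x : ℝ} (hx : 0 ≤ x) (hx' : x ≤ Real.pi / 2) :
    r * (Ev * Real.cos x + η * x) ≤ r * n + r * η * w := by
  have hr := G.rp H
  have hEv : 0 < Ev := lt_of_lt_of_le H.E.1 G.hE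
  have h1 := cos_le_tangent (a := w) (b := x) (by linarith [G.hw, Real.pi_pos]) G.hw'.le
    (by linarith [Real.pi_pos]) hx'
  have h2 := mul_le_mul_of_nonneg_left h1 hEv.le
  have h3 : Ev * Real.cos x + η * x ≤ n + η * w := by
    rw [G.hn, G.hη]
    linarith
  have h4 := mul_le_mul_of_nonneg_left h3 hr.le
  linarith

theorem Geo.eE (H : N.Ok) (G : Geo N r Ev w n η) : r * N.E ≤ r * n + r * η * w := by
  have h1 := G.tan H le_rfl (by linarith [Real.pi_pos])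
  rw [Real.cos_zero, mul_one, mul_zero, add_zero] at h1
  exact (mul_le_mul_of_nonneg_left G.hE (G.rp H).le).trans h1

theorem Geo.eα (H : N.Ok) (G : Geo N r Ev w n η) : r * N.α ≤ r * n + r * η * w - Real.pi / 2 * (r * η) := by
  obtain ⟨h0, h1, h2⟩ := H.x0
  have hpi := Real.pi_gt_d4
  have hr := G.rp H
  have h3 := G.tan H h0 (by linarith)
  have h4 : N.E * cosp N.x0 ≤ Ev * Real.cos N.x0 := by
    have hc := cosp_le h0
    have hc0 : 0 ≤ Real.cos N.x0 := Real.cos_nonneg_of_mem_Icc ⟨by linarith, by linarith⟩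
    have k1 := mul_le_mul_of_nonneg_left hc H.E.1.le
    have k2 := mul_le_mul_of_nonneg_right G.hE hc0
    linarith
  have h5 : η * (Real.pi / 2 - N.x0) ≤ N.η1 * (1.5708 - N.x0) := by
    have k1 : η * (Real.pi / 2 - N.x0) ≤ N.η1 * (Real.pi / 2 - N.x0) :=
      mul_le_mul_of_nonneg_right G.h1 (by linarith)
    have k2 : N.η1 * (Real.pi / 2 - N.x0) ≤ N.η1 * (1.5708 - N.x0) :=
      mul_le_mul_of_nonneg_left (by linarith [pi_hi]) H.E.2.2.1
    linarith
  have h6 : r * N.α ≤ r * (Ev * Real.cos N.x0 + η * N.x0 - Real.pi / 2 * η) :=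
    mul_le_mul_of_nonneg_left (by linarith) hr.le
  linarith

theorem Geo.eα' (H : N.Ok) (G : Geo N r Ev w n η) :
    r * N.α' ≤ r * n + r * η * w - Real.pi * (r * η) + r * Ev := by
  obtain ⟨h0, h1, h2⟩ := H.x1
  have hpi := Real.pi_gt_d4
  have hr := G.rp H
  have h3 := G.tan H h0 (by linarith)
  have h4 : N.E * (1 + cosp N.x1) ≤ Ev * (1 + Real.cos N.x1) := by
    have hc := cosp_le h0
    have hc0 : 0 ≤ Real.cos N.x1 := Real.cos_nonneg_of_mem_Icc ⟨by linarith, by linarith⟩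
    have k1 := mul_le_mul_of_nonneg_left hc H.E.1.le
    have k2 := mul_le_mul_of_nonneg_right G.hE hc0
    linarith [G.hE]
  have h5 : η * (Real.pi - N.x1) ≤ N.η1 * (3.1416 - N.x1) := by
    have k1 : η * (Real.pi - N.x1) ≤ N.η1 * (Real.pi - N.x1) :=
      mul_le_mul_of_nonneg_right G.h1 (by linarith)
    have k2 : N.η1 * (Real.pi - N.x1) ≤ N.η1 * (3.1416 - N.x1) :=
      mul_le_mul_of_nonneg_left (by linarith [pi_hi]) H.E.2.2.1
    linarith
  have h6 : r * N.α' ≤ r * (Ev * Real.cos N.x1 + η * N.x1 - Real.pi * η + Ev) :=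
    mul_le_mul_of_nonneg_left (by linarith) hr.le
  linarith

theorem Geo.nu_ge (H : N.Ok) (G : Geo N r Ev w n η) :
    r * (0.8414 * N.ξ - 0.4598 * N.η1) ≤ nuR (r * n) (r * η) := by
  have h1 := G.xi_le H
  have h2 := G.h1
  have h3 : r * (0.8414 * N.ξ - 0.4598 * N.η1) ≤ r * (0.8414 * n - 0.4598 * η) :=
    mul_le_mul_of_nonneg_left (by linarith) (G.rp H).le
  unfold nuR
  linarith

theorem Geo.ca_ge (H : N.Ok) (G : Geo N r Ev w n η) :
    r * (11 / 12 * N.ξ - N.η1 / 3) ≤ caR (r * n) (r * η) := by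
  have h1 := G.xi_le H
  have h2 := G.h1
  have h3 : r * (11 / 12 * N.ξ - N.η1 / 3) ≤ r * (11 / 12 * n - η / 3) :=
    mul_le_mul_of_nonneg_left (by linarith) (G.rp H).le
  unfold caR
  linarith

private theorem gauss_le {r c x s : ℝ} (hr : 0 < r) (hc : 0 < c) (hx : r * c ≤ x) (hs : 0 < s)
    (h : 1 ≤ 4 * s ^ 2 * c) :
    Real.sqrt (r / (2 * Real.pi)) * (1 / 2 * Real.sqrt (2 * Real.pi / x)) ≤ s := by
  have hpi := Real.pi_pos
  have hrc : 0 < r * c := by positivity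
  have hx0 : 0 < x := by linarith
  have e1 : Real.sqrt (r / (2 * Real.pi)) * (1 / 2 * Real.sqrt (2 * Real.pi / x)) =
      1 / 2 * Real.sqrt (r / x) := by
    have : r / x = r / (2 * Real.pi) * (2 * Real.pi / x) := by field_simp
    rw [this, Real.sqrt_mul (by positivity)]
    ring
  rw [e1]
  have h1 : Real.sqrt (r / x) ≤ 2 * s := by
    rw [Real.sqrt_le_left (by positivity), div_le_iff₀ hx0]
    nlinarith
  linarith

private theorem tail_le {r R g ν s X y : ℝ} (hR : 0 < R) (hr : R ≤ r) (hg : 0 ≤ g) (hν : 0 < ν) (hs : 0 < s)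
    (hs' : R ≤ s ^ 2 * 6.283) (hX : Real.exp (-(R * g)) ≤ X) {G : ℝ} (hG : r * g ≤ G) (hy : r * ν ≤ y) :
    Real.sqrt (r / (2 * Real.pi)) * (Real.exp (-G) / y) ≤ s / R * (X / ν) := by
  have hpi := Real.pi_pos
  have hrp : 0 < r := by linarith
  have hX0 : 0 < X := lt_of_lt_of_le (Real.exp_pos _) hX
  have hy0 : 0 < y := lt_of_lt_of_le (mul_pos hrp hν) hy
  have h1 : Real.exp (-G) / y ≤ X / (r * ν) := by
    apply div_le_div₀ hX0.le _ (by positivity) hy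
    refine le_trans (Real.exp_le_exp.2 ?_) hX
    have : R * g ≤ r * g := mul_le_mul_of_nonneg_right hr hg
    linarith
  have h2 : Real.sqrt (r / (2 * Real.pi)) ≤ s / R * r := by
    rw [Real.sqrt_le_left (by positivity), div_le_iff₀ (by positivity)]
    have h3 : R ≤ s ^ 2 * (2 * Real.pi) := by
      have := mul_le_mul_of_nonneg_left pi_lo (by positivity : 0 ≤ s ^ 2)
      linarith
    have e1 : (s / R * r) ^ 2 * (2 * Real.pi) = s ^ 2 * (2 * Real.pi) * (r / R ^ 2 * r) := by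
      field_simp
    rw [e1]
    have h4 : R * (r / R ^ 2 * r) ≤ s ^ 2 * (2 * Real.pi) * (r / R ^ 2 * r) :=
      mul_le_mul_of_nonneg_right h3 (by positivity)
    have h5 : r ≤ R * (r / R ^ 2 * r) := by
      have e2 : R * (r / R ^ 2 * r) = r * (r / R) := by field_simp
      rw [e2]
      have : 1 ≤ r / R := by rw [le_div_iff₀ hR]; linarith
      nlinarith
    linarith
  calc Real.sqrt (r / (2 * Real.pi)) * (Real.exp (-G) / y) ≤ (s / R * r) * (X / (r * ν)) :=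
        mul_le_mul h2 h1 (by positivity) (by positivity)
    _ = s / R * (X / ν) := by field_simp

theorem Geo.K0_le (H : N.Ok) (G : Geo N r Ev w n η) :
    Real.sqrt (r / (2 * Real.pi)) * K0 (r * n) (r * η) ≤ N.N0 := by
  have hr := G.rp H
  have hξ := H.E.2.1
  have hη0 := G.η0 H
  have hx := G.xi_le H
  have h1 := gauss_le hr H.c (G.ca_ge H) H.s1.1 H.s1.2
  have h2 := gauss_le (x := 11 / 12 * (r * n)) hr (by positivity : 0 < 11 / 12 * N.ξ)
    (by have := mul_le_mul_of_nonneg_left hx hr.le; linarith) H.s2.1 H.s2.2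
  have h3 := tail_le H.R0p G.hr H.g H.ν H.sR.1 H.sR.2 H.X1 (G := gR (r * n) (r * η))
    (y := nuR (r * n) (r * η)) (by
      have h3 : r * (0.4596 * N.ξ - 0.1586 * N.η1) ≤ r * (0.4596 * n - 0.1586 * η) :=
        mul_le_mul_of_nonneg_left (by linarith [G.h1]) hr.le
      unfold gR
      linarith) (G.nu_ge H)
  have h4 := tail_le (g := 0.4596 * N.ξ) (ν := 0.8414 * N.ξ) H.R0p G.hr (by positivity) (by positivity)
    H.sR.1 H.sR.2 H.X2 (G := gL (r * n) (r * η)) (y := nuL (r * n) (r * η)) (by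
      have h3 : r * (0.4596 * N.ξ) ≤ r * (0.4596 * n) := mul_le_mul_of_nonneg_left (by linarith) hr.le
      have h5 : 0 ≤ r * η := by positivity
      unfold gL
      linarith) (by
      have h3 : r * (0.8414 * N.ξ) ≤ r * (0.8414 * n) := mul_le_mul_of_nonneg_left (by linarith) hr.le
      have h5 : 0 ≤ r * η := by positivity
      unfold nuL
      linarith)
  unfold K0 FC.N0
  linarith

private theorem mom_le {r R g ν X y G : ℝ} (hR : 0 < R) (hr : R ≤ r) (hg : 0 ≤ g) (hν : 0 < ν)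
    (hX : Real.exp (-(R * g)) ≤ X) (hG : r * g ≤ G) (hy : r * ν ≤ y) :
    r * (Real.exp (-G) * (1 / y + 1 / y ^ 2)) ≤ X * (1 / ν + 1 / (R * ν ^ 2)) := by
  have hrp : 0 < r := by linarith
  have hX0 : 0 < X := lt_of_lt_of_le (Real.exp_pos _) hX
  have hrν : 0 < r * ν := by positivity
  have hy0 : 0 < y := by linarith
  have h1 : Real.exp (-G) ≤ X := by
    refine le_trans (Real.exp_le_exp.2 ?_) hX
    have : R * g ≤ r * g := mul_le_mul_of_nonneg_right hr hg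
    linarith
  have h2 : r * (1 / y + 1 / y ^ 2) ≤ 1 / ν + 1 / (R * ν ^ 2) := by
    have h3 : r * (1 / y) ≤ 1 / ν := by
      rw [mul_one_div, div_le_div_iff₀ hy0 hν]; linarith
    have h4 : r * (1 / y ^ 2) ≤ 1 / (R * ν ^ 2) := by
      rw [mul_one_div, div_le_div_iff₀ (by positivity) (by positivity)]
      have h5 : (r * ν) ^ 2 ≤ y ^ 2 := pow_le_pow_left₀ hrν.le hy 2
      have h6 : r * (R * ν ^ 2) ≤ (r * ν) ^ 2 := by
        have : r * R ≤ r * r := mul_le_mul_of_nonneg_left hr hrp.le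
        have h7 := mul_le_mul_of_nonneg_right this (by positivity : 0 ≤ ν ^ 2)
        nlinarith
      linarith
    linarith
  calc r * (Real.exp (-G) * (1 / y + 1 / y ^ 2)) = Real.exp (-G) * (r * (1 / y + 1 / y ^ 2)) := by ring
    _ ≤ X * (1 / ν + 1 / (R * ν ^ 2)) := mul_le_mul h1 h2 (by positivity) hX0.le

theorem Geo.K1_le (H : N.Ok) (G : Geo N r Ev w n η) : r * K1 (r * n) (r * η) ≤ N.N1 := by
  have hr := G.rp H
  have hξ := H.E.2.1
  have hη0 := G.η0 H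
  have hx := G.xi_le H
  have hrx := mul_le_mul_of_nonneg_left hx hr.le
  have hc := H.c
  have h1 : r * (1 / caR (r * n) (r * η)) ≤ 1 / (11 / 12 * N.ξ - N.η1 / 3) := by
    have h2 := G.ca_ge H
    have h3 : 0 < r * (11 / 12 * N.ξ - N.η1 / 3) := by positivity
    rw [mul_one_div, div_le_div_iff₀ (by linarith) hc]; linarith
  have h2 : r * (1 / (11 / 12 * (r * n))) ≤ 1 / (11 / 12 * N.ξ) := by
    have h3 : 0 < r * N.ξ := by positivity
    rw [mul_one_div, div_le_div_iff₀ (by linarith) (by positivity)]; linarith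
  have h3 := mom_le H.R0p G.hr H.g H.ν H.X1 (G := gR (r * n) (r * η))
    (y := nuR (r * n) (r * η)) (by
      have h3 : r * (0.4596 * N.ξ - 0.1586 * N.η1) ≤ r * (0.4596 * n - 0.1586 * η) :=
        mul_le_mul_of_nonneg_left (by linarith [G.h1]) hr.le
      unfold gR
      linarith) (G.nu_ge H)
  have h4 := mom_le (g := 0.4596 * N.ξ) (ν := 0.8414 * N.ξ) H.R0p G.hr (by positivity) (by positivity)
    H.X2 (G := gL (r * n) (r * η)) (y := nuL (r * n) (r * η)) (by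
      have h5 : 0 ≤ r * η := by positivity
      unfold gL
      linarith) (by
      have h5 : 0 ≤ r * η := by positivity
      unfold nuL
      linarith)
  unfold K1 FC.N1
  linarith

theorem Geo.zz_le (H : N.Ok) (G : Geo N r Ev w n η) :
    Real.sqrt (r / (2 * Real.pi)) * zz (r * n) (r * η) w ≤ 1.5708 * N.sR * N.zE ∧
      r * zz (r * n) (r * η) w ≤ 1.5708 * N.R0 * N.zE := by
  have hpi := Real.pi_pos
  have hr := G.rp H
  have h1 := G.eE H
  have hη0 := G.η0 H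
  have h2 : zz (r * n) (r * η) w ≤ 1.5708 * Real.exp (-(r * N.E)) := by
    unfold zz
    apply mul_le_mul (by linarith [pi_hi]) (Real.exp_le_exp.2 ?_) (Real.exp_pos _).le (by norm_num)
    have : 0 ≤ Real.pi / 2 * (r * η) := by positivity
    linarith
  have hs : N.R0 ≤ N.sR ^ 2 * (2 * Real.pi) := by
    have := mul_le_mul_of_nonneg_left pi_lo (by positivity : 0 ≤ N.sR ^ 2)
    linarith [H.sR.2]
  have h3 := sup_half H.R0p G.hr H.z1 H.sR.1.le hs
  have h4 := sup_one H.R0p G.hr H.z1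
  have h5 := mul_le_mul_of_nonneg_left H.zE H.sR.1.le
  have h6 := mul_le_mul_of_nonneg_left H.zE H.R0p.le
  have h7 := mul_le_mul_of_nonneg_left h2 (Real.sqrt_nonneg (r / (2 * Real.pi)))
  have h8 := mul_le_mul_of_nonneg_left h2 hr.le
  constructor <;> linarith

theorem Geo.oo_le (H : N.Ok) (G : Geo N r Ev w n η) :
    Real.sqrt (r / (2 * Real.pi)) * oo (r * n) (r * η) w ≤ 1.5708 * N.sR * N.oE ∧
      r * oo (r * n) (r * η) w ≤ 1.5708 * N.R0 * N.oE := by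
  have hpi := Real.pi_pos
  have hr := G.rp H
  have h1 := G.eα H
  have h2 : oo (r * n) (r * η) w ≤ 1.5708 * Real.exp (-(r * N.α)) := by
    unfold oo
    apply mul_le_mul (by linarith [pi_hi]) (Real.exp_le_exp.2 ?_) (Real.exp_pos _).le (by norm_num)
    linarith
  have hs : N.R0 ≤ N.sR ^ 2 * (2 * Real.pi) := by
    have := mul_le_mul_of_nonneg_left pi_lo (by positivity : 0 ≤ N.sR ^ 2)
    linarith [H.sR.2]
  have h3 := sup_half H.R0p G.hr H.α1 H.sR.1.le hs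
  have h4 := sup_one H.R0p G.hr H.α1
  have h5 := mul_le_mul_of_nonneg_left H.oE H.sR.1.le
  have h6 := mul_le_mul_of_nonneg_left H.oE H.R0p.le
  have h7 := mul_le_mul_of_nonneg_left h2 (Real.sqrt_nonneg (r / (2 * Real.pi)))
  have h8 := mul_le_mul_of_nonneg_left h2 hr.le
  constructor <;> linarith

theorem Geo.V0_le (H : N.Ok) (G : Geo N r Ev w n η) :
    Real.sqrt (r / (2 * Real.pi)) * V0 (r * n) (r * η) w ≤ N.N0 + 1.5708 * N.sR * (N.zE + N.oE) := by
  have h1 := G.K0_le H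
  have h2 := (G.zz_le H).1
  have h3 := (G.oo_le H).1
  unfold V0
  linarith

theorem Geo.V1_le (H : N.Ok) (G : Geo N r Ev w n η) :
    r * V1 (r * n) (r * η) w ≤ N.N1 + 1.5708 * N.R0 * (4.7124 * N.zE + 3.1416 * N.oE) := by
  have hpi := Real.pi_pos
  have hr := G.rp H
  have h1 := G.K1_le H
  have h2 := (G.zz_le H).2
  have h3 := (G.oo_le H).2
  have hz := zz_nonneg (r * n) (r * η) w
  have ho := oo_nonneg (r * n) (r * η) w
  have h4 : 3 * Real.pi / 2 * (r * zz (r * n) (r * η) w) ≤ 4.7124 * (1.5708 * N.R0 * N.zE) :=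
    mul_le_mul (by linarith [pi_hi]) h2 (by positivity) (by norm_num)
  have h5 : Real.pi * (r * oo (r * n) (r * η) w) ≤ 3.1416 * (1.5708 * N.R0 * N.oE) :=
    mul_le_mul pi_hi h3 (by positivity) (by norm_num)
  unfold V1
  linarith

theorem Geo.V0_nonneg (H : N.Ok) (G : Geo N r Ev w n η) : 0 ≤ V0 (r * n) (r * η) w := by
  have hr := G.rp H
  have hη0 := G.η0 H
  have hn : 0 < n := lt_of_lt_of_le H.E.2.1 (G.xi_le H)
  have hν : 0 < nuR (r * n) (r * η) := lt_of_lt_of_le (mul_pos hr H.ν) (G.nu_ge H)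
  have h1 := K0_nonneg (a := r * n) (e := r * η) (by positivity) (by positivity) hν
  have hz := zz_nonneg (r * n) (r * η) w
  have ho := oo_nonneg (r * n) (r * η) w
  unfold V0
  linarith

theorem Geo.V1_nonneg (H : N.Ok) (G : Geo N r Ev w n η) : 0 ≤ V1 (r * n) (r * η) w := by
  have hpi := Real.pi_pos
  have hr := G.rp H
  have hη0 := G.η0 H
  have hn : 0 < n := lt_of_lt_of_le H.E.2.1 (G.xi_le H)
  have hν : 0 < nuR (r * n) (r * η) := lt_of_lt_of_le (mul_pos hr H.ν) (G.nu_ge H)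
  have hc : 0 < caR (r * n) (r * η) := lt_of_lt_of_le (mul_pos hr H.c) (G.ca_ge H)
  have h1 := K1_nonneg (a := r * n) (e := r * η) (by positivity) (by positivity) hν hc
  have hz := zz_nonneg (r * n) (r * η) w
  have ho := oo_nonneg (r * n) (r * η) w
  unfold V1
  positivity

/-- relative leg, exponential factor -/
noncomputable def lg (r Ev n η w : ℝ) : ℝ := Real.exp (-(r * n + r * η * w - Real.pi * (r * η) + r * Ev))

theorem Geo.lg_le (H : N.Ok) (G : Geo N r Ev w n η) : lg r Ev n η w ≤ N.lE := by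
  refine le_trans (Real.exp_le_exp.2 ?_) H.lE
  have h1 := G.eα' H
  have h2 : N.R0 * N.α' ≤ r * N.α' := mul_le_mul_of_nonneg_right G.hr H.α1'
  linarith

end

end Sok.R2
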