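import Pool.Agent.Lib.MP_816dec_an.R2WQ
import Pool.Agent.Lib.MP_816dec_an.R2Cls

/-!
MP_816dec_an (row R2, far windows): the numbers of the far windows, `b ≥ 6`; each condition by one kernel computation.
-/

set_option autoImplicit false

namespace Sok.R2

/-- far numbers of `c6_1` -/
def w6_1 : WCQ where
  R := {
    k1 := 139 / 100, k2 := 31 / 20, T0 := 5441 / 1000, R0 := 727 / 50, b1 := 6, S := 327 / 400,
    A := 111 / 100, J1 := 117 / 500, sR := 15213 / 10000, E := 6663 / 10000, η1 := 73 / 250, ξ := 5989 / 10000,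
    x0 := 9 / 20, α := 1363 / 5000, x1 := 9 / 20, α' := 4803 / 10000, s1 := 93 / 125, s2 := 6749 / 10000,
    X1 := 112 / 3125, X2 := 4569 / 250000, zE := 6203 / 100000000, oE := 3799 / 200000, lE := 927 / 1000000, Q := 2761 / 1000000000000000,
    UQ := 1 / 100000000 }
  L := {
    k1 := 139 / 100, k2 := 31 / 20, T0 := 5441 / 1000, R0 := 727 / 50, b1 := 6, S := 149 / 200,
    A := 111 / 100, J1 := 117 / 500, sR := 15213 / 10000, E := 7133 / 5000, η1 := 2661 / 10000, ξ := 2803 / 2000,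
    x0 := 19 / 100, α := 5167 / 5000, x1 := 19 / 100, α' := 20421 / 10000, s1 := 1143 / 2500, s2 := 1103 / 2500,
    X1 := 3163 / 20000000, X2 := 4281 / 50000000, zE := 9833 / 10000000000000, oE := 1491 / 5000000000, lE := 3131 / 20000000000000000, Q := 1403 / 50000000000000,
    UQ := 1 / 100000000 }
  Q := {
    k1 := 139 / 100, k2 := 31 / 20, T0 := 5441 / 1000, R0 := 727 / 50, b1 := 6, S := 1227 / 2000,
    A := 111 / 100, J1 := 117 / 500, sR := 15213 / 10000, E := 3687 / 5000, η1 := 137 / 625, ξ := 88 / 125,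
    x0 := 3 / 10, α := 4259 / 10000, x1 := 3 / 10, α' := 8189 / 10000, s1 := 661 / 1000, s2 := 249 / 400,
    X1 := 1501 / 100000, X2 := 1811 / 200000, zE := 1103 / 50000000, oE := 409 / 200000, lE := 1349 / 200000000, Q := 2007 / 1000000000000,
    UQ := 1 / 100000000 }
  h0 := 10471 / 10000
  v1 := 4059 / 10000
  vr := 1523 / 5000
  V0 := 3553 / 10000
  U := 1007 / 500
  Uq := 849 / 500
  χ6 := 6037 / 10000
  χq := 437 / 625
  χr := 6037 / 10000
  P5 := 1
  θ := 1 / 2
  Tr := 1871 / 10000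
  g6 := 4583 / 5000
  gq := 10121 / 10000
  gr := 3627 / 2500
  gm := 11529 / 10000
  e6 := 16293 / 10000000000
  eq := 127 / 312500000
  er := 3461 / 5000000000000
  em := 5247 / 100000000000
  qm := 1403 / 50000000000000
  um := 3927 / 62500000000

theorem okW6_1 : w6_1.wc.Ok c6_1.num :=
  wokB_ok (W := w6_1) (N := c6_1) (by decide +kernel) (fokB_ok (N := w6_1.R) (by decide +kernel))
    (fokB_ok (N := w6_1.L) (by decide +kernel)) (fokB_ok (N := w6_1.Q) (by decide +kernel))

theorem okV6_1 : w6_1.wc.Ok3 c6_1.num := wok3B_ok (W := w6_1) (N := c6_1) (by decide +kernel)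

theorem okM6_1 : w6_1.wc.OkM c6_1.num (37 / 25) (87 / 50) := by
  have h := wokMB_ok (W := w6_1) (N := c6_1) (D2 := 37 / 25) (Dm := 87 / 50) (by decide +kernel)
  push_cast at h
  exact h

theorem okN6_1 : w6_1.wc.OkM3 c6_1.num (37 / 25) (87 / 50) (48 / 25) := by
  have h := wokM3B_ok (W := w6_1) (N := c6_1) (D2 := 37 / 25) (Dm := 87 / 50) (Sg := 48 / 25) (by decide +kernel)
  push_cast at h
  exact h

theorem okP6_1 : w6_1.wc.OkP c6_1.num := wokPB_ok (W := w6_1) (N := c6_1) (by decide +kernel)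

theorem okR6_1 : w6_1.wc.OkR := wokRB_ok (W := w6_1) (by decide +kernel)

theorem okT6_1 : w6_1.wc.OkT c6_1.num (37669 / 50000) (876447 / 500000) := by
  have h := wokTB_ok (W := w6_1) (N := c6_1) (H1 := 37669 / 50000) (X3 := 876447 / 500000) (by decide +kernel)
  push_cast at h
  exact h

/-- far numbers of `c6_2` -/
def w6_2 : WCQ where
  R := {
    k1 := 31 / 20, k2 := 433 / 250, T0 := 5441 / 1000, R0 := 422 / 25, b1 := 6, S := 1723 / 2000,
    A := 10909 / 10000, J1 := 2221 / 10000, sR := 16391 / 10000, E := 6629 / 10000, η1 := 663 / 2500, ξ := 243 / 400,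
    x0 := 41 / 100, α := 3001 / 10000, x1 := 41 / 100, α' := 683 / 1250, s1 := 3653 / 5000, s2 := 6701 / 10000,
    X1 := 18261 / 1000000, X2 := 4489 / 500000, zE := 1727 / 125000000, oE := 631 / 100000, lE := 617 / 6250000, Q := 6913 / 10000000000000000,
    UQ := 1 / 100000000 }
  L := {
    k1 := 31 / 20, k2 := 433 / 250, T0 := 5441 / 1000, R0 := 422 / 25, b1 := 6, S := 19 / 25,
    A := 10909 / 10000, J1 := 2221 / 10000, sR := 16391 / 10000, E := 882 / 625, η1 := 117 / 500, ξ := 3479 / 2500,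
    x0 := 17 / 100, α := 1063 / 1000, x1 := 17 / 100, α' := 21067 / 10000, s1 := 4569 / 10000, s2 := 4427 / 10000,
    X1 := 479 / 12500000, X2 := 8 / 390625, zE := 4601 / 100000000000000, oE := 403 / 25000000000, lE := 4087 / 5000000000000000000, Q := 8657 / 500000000000000,
    UQ := 1 / 100000000 }
  Q := {
    k1 := 31 / 20, k2 := 433 / 250, T0 := 5441 / 1000, R0 := 422 / 25, b1 := 6, S := 1277 / 2000,
    A := 10909 / 10000, J1 := 2221 / 10000, sR := 16391 / 10000, E := 3687 / 5000, η1 := 983 / 5000, ξ := 7107 / 10000,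
    x0 := 27 / 100, α := 4549 / 10000, x1 := 27 / 100, α' := 1767 / 2000, s1 := 1633 / 2500, s2 := 1239 / 2000,
    X1 := 853 / 125000, X2 := 63 / 15625, zE := 3929 / 1000000000, oE := 2313 / 5000000, lE := 417 / 1250000000, Q := 2221 / 2500000000000,
    UQ := 1 / 100000000 }
  h0 := 10471 / 10000
  v1 := 411 / 1000
  vr := 1523 / 5000
  V0 := 689 / 2000
  U := 1703 / 1000
  Uq := 1419 / 1000
  χ6 := 6973 / 10000
  χq := 6973 / 10000
  χr := 1473 / 2000
  P5 := 1
  θ := 1 / 2
  Tr := 403 / 2500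
  g6 := 10361 / 10000
  gq := 10361 / 10000
  gr := 8001 / 5000
  gm := 2947 / 2500
  e6 := 2539 / 100000000000
  eq := 2539 / 100000000000
  er := 1009 / 500000000000000
  em := 1143 / 500000000000
  qm := 8657 / 500000000000000
  um := 3927 / 62500000000

theorem okW6_2 : w6_2.wc.Ok c6_2.num :=
  wokB_ok (W := w6_2) (N := c6_2) (by decide +kernel) (fokB_ok (N := w6_2.R) (by decide +kernel))
    (fokB_ok (N := w6_2.L) (by decide +kernel)) (fokB_ok (N := w6_2.Q) (by decide +kernel))

theorem okV6_2 : w6_2.wc.Ok3 c6_2.num := wok3B_ok (W := w6_2) (N := c6_2) (by decide +kernel)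

theorem okM6_2 : w6_2.wc.OkM c6_2.num (13 / 10) (81 / 50) := by
  have h := wokMB_ok (W := w6_2) (N := c6_2) (D2 := 13 / 10) (Dm := 81 / 50) (by decide +kernel)
  push_cast at h
  exact h

theorem okN6_2 : w6_2.wc.OkM3 c6_2.num (13 / 10) (81 / 50) (91 / 50) := by
  have h := wokM3B_ok (W := w6_2) (N := c6_2) (D2 := 13 / 10) (Dm := 81 / 50) (Sg := 91 / 50) (by decide +kernel)
  push_cast at h
  exact h

theorem okP6_2 : w6_2.wc.OkP c6_2.num := wokPB_ok (W := w6_2) (N := c6_2) (by decide +kernel)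

theorem okR6_2 : w6_2.wc.OkR := wokRB_ok (W := w6_2) (by decide +kernel)

theorem okT6_2 : w6_2.wc.OkT c6_2.num (168903 / 250000) (16710717 / 10000000) := by
  have h := wokTB_ok (W := w6_2) (N := c6_2) (H1 := 168903 / 250000) (X3 := 16710717 / 10000000) (by decide +kernel)
  push_cast at h
  exact h

/-- far numbers of `c6_3` -/
def w6_3 : WCQ where
  R := {
    k1 := 433 / 250, k2 := 20, T0 := 5441 / 1000, R0 := 496 / 25, b1 := 6, S := 907 / 1000,
    A := 5373 / 5000, J1 := 2123 / 10000, sR := 1777 / 1000, E := 6627 / 10000, η1 := 19 / 80, ξ := 3093 / 5000,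
    x0 := 37 / 100, α := 1663 / 5000, x1 := 37 / 100, α' := 3111 / 5000, s1 := 7159 / 10000, s2 := 83 / 125,
    X1 := 7497 / 1000000, X2 := 3551 / 1000000, zE := 3899 / 2000000000, oE := 13621 / 10000000, lE := 2177 / 500000000, Q := 16911 / 100000000000000000,
    UQ := 1 / 100000000 }
  L := {
    k1 := 433 / 250, k2 := 20, T0 := 5441 / 1000, R0 := 496 / 25, b1 := 6, S := 39 / 50,
    A := 5373 / 5000, J1 := 2123 / 10000, sR := 1777 / 1000, E := 2083 / 2000, η1 := 2043 / 10000, ξ := 2553 / 2500,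
    x0 := 1 / 5, α := 3703 / 5000, x1 := 1 / 5, α' := 3653 / 2500, s1 := 5367 / 10000, s2 := 323 / 625,
    X1 := 3437 / 20000000, X2 := 2259 / 25000000, zE := 2661 / 2500000000000, oE := 4157 / 10000000000, lE := 3033 / 10000000000000000, Q := 1823 / 200000000000000,
    UQ := 1 / 100000000 }
  Q := {
    k1 := 433 / 250, k2 := 20, T0 := 5441 / 1000, R0 := 496 / 25, b1 := 6, S := 1327 / 2000,
    A := 5373 / 5000, J1 := 2123 / 10000, sR := 1777 / 1000, E := 7401 / 10000, η1 := 869 / 5000, ξ := 3597 / 5000,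
    x0 := 6 / 25, α := 39 / 80, x1 := 6 / 25, α' := 4773 / 5000, s1 := 6447 / 10000, s2 := 3079 / 5000,
    X1 := 2447 / 1000000, X2 := 7081 / 5000000, zE := 2099 / 5000000000, oE := 6303 / 100000000, lE := 2979 / 500000000000, Q := 3937 / 10000000000000,
    UQ := 1 / 100000000 }
  h0 := 10471 / 10000
  v1 := 4113 / 10000
  vr := 3009 / 10000
  V0 := 407 / 10000
  U := 1419 / 1000
  Uq := 146 / 125
  χ6 := 1743 / 2500
  χq := 1743 / 2500
  χr := 3689 / 5000
  P5 := 1
  θ := 1 / 2
  Tr := 1371 / 10000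
  g6 := 10601 / 10000
  gq := 10601 / 10000
  gr := 16181 / 10000
  gm := 12029 / 10000
  e6 := 3683 / 5000000000000
  eq := 3683 / 5000000000000
  er := 3397 / 200000000000000000
  em := 4403 / 100000000000000
  qm := 1823 / 200000000000000
  um := 3927 / 62500000000

theorem okW6_3 : w6_3.wc.Ok c6_3.num :=
  wokB_ok (W := w6_3) (N := c6_3) (by decide +kernel) (fokB_ok (N := w6_3.R) (by decide +kernel))
    (fokB_ok (N := w6_3.L) (by decide +kernel)) (fokB_ok (N := w6_3.Q) (by decide +kernel))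

theorem okV6_3 : w6_3.wc.Ok3 c6_3.num := wok3B_ok (W := w6_3) (N := c6_3) (by decide +kernel)

theorem okM6_3 : w6_3.wc.OkM c6_3.num (107 / 50) (39 / 20) := by
  have h := wokMB_ok (W := w6_3) (N := c6_3) (D2 := 107 / 50) (Dm := 39 / 20) (by decide +kernel)
  push_cast at h
  exact h

theorem okN6_3 : w6_3.wc.OkM3 c6_3.num (107 / 50) (39 / 20) (191 / 100) := by
  have h := wokM3B_ok (W := w6_3) (N := c6_3) (D2 := 107 / 50) (Dm := 39 / 20) (Sg := 191 / 100) (by decide +kernel)
  push_cast at h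
  exact h

theorem okP6_3 : w6_3.wc.OkP c6_3.num := wokPB_ok (W := w6_3) (N := c6_3) (by decide +kernel)

theorem okR6_3 : w6_3.wc.OkR := wokRB_ok (W := w6_3) (by decide +kernel)

theorem okT6_3 : w6_3.wc.OkT c6_3.num (302309 / 500000) (4006399 / 2500000) := by
  have h := wokTB_ok (W := w6_3) (N := c6_3) (H1 := 302309 / 500000) (X3 := 4006399 / 2500000) (by decide +kernel)
  push_cast at h
  exact h

/-- far numbers of `c7_1` -/
def w7_1 : WCQ where
  R := {
    k1 := 139 / 100, k2 := 433 / 250, T0 := 5441 / 1000, R0 := 99 / 5, b1 := 7, S := 1697 / 2000,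
    A := 111 / 100, J1 := 117 / 500, sR := 17753 / 10000, E := 6969 / 10000, η1 := 1299 / 5000, ξ := 3233 / 5000,
    x0 := 19 / 50, α := 1689 / 5000, x1 := 19 / 50, α' := 3133 / 5000, s1 := 7029 / 10000, s2 := 1299 / 2000,
    X1 := 3147 / 500000, X2 := 87 / 31250, zE := 10171 / 10000000000, oE := 12453 / 10000000, lE := 1023 / 250000000, Q := 7003 / 500000000000000000,
    UQ := 1 / 100000000 }
  L := {
    k1 := 139 / 100, k2 := 433 / 250, T0 := 5441 / 1000, R0 := 99 / 5, b1 := 7, S := 77 / 100,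
    A := 111 / 100, J1 := 117 / 500, sR := 17753 / 10000, E := 13487 / 10000, η1 := 1179 / 5000, ξ := 13279 / 10000,
    x0 := 9 / 50, α := 9989 / 10000, x1 := 9 / 50, α' := 4943 / 2500, s1 := 2343 / 5000, s2 := 1133 / 2500,
    X1 := 11847 / 1000000000, X2 := 113 / 20000000, zE := 1359 / 500000000000000, oE := 2577 / 1000000000000, lE := 857 / 20000000000000000000, Q := 2207 / 10000000000000000,
    UQ := 1 / 100000000 }
  Q := {
    k1 := 139 / 100, k2 := 433 / 250, T0 := 5441 / 1000, R0 := 99 / 5, b1 := 7, S := 157 / 250,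
    A := 111 / 100, J1 := 117 / 500, sR := 17753 / 10000, E := 3827 / 5000, η1 := 1923 / 10000, ξ := 463 / 625,
    x0 := 1 / 4, α := 1219 / 2500, x1 := 1 / 4, α' := 9509 / 10000, s1 := 797 / 1250, s2 := 1517 / 2500,
    X1 := 2161 / 1000000, X2 := 11811 / 10000000, zE := 2621 / 10000000000, oE := 3207 / 50000000, lE := 333 / 50000000000, Q := 2089 / 50000000000000,
    UQ := 1 / 100000000 }
  h0 := 359 / 400
  v1 := 3611 / 10000
  vr := 2673 / 10000
  V0 := 187 / 625
  U := 953 / 500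
  Uq := 327 / 200
  χ6 := 1691 / 2500
  χq := 7157 / 10000
  χr := 1691 / 2500
  P5 := 1
  θ := 1 / 2
  Tr := 687 / 5000
  g6 := 1039 / 1000
  gq := 10783 / 10000
  gr := 781 / 500
  gm := 6013 / 5000
  e6 := 5829 / 5000000000000
  eq := 1341 / 2500000000000
  er := 2483 / 50000000000000000
  em := 929 / 20000000000000
  qm := 2207 / 10000000000000000
  um := 3927 / 62500000000

theorem okW7_1 : w7_1.wc.Ok c7_1.num :=
  wokB_ok (W := w7_1) (N := c7_1) (by decide +kernel) (fokB_ok (N := w7_1.R) (by decide +kernel))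
    (fokB_ok (N := w7_1.L) (by decide +kernel)) (fokB_ok (N := w7_1.Q) (by decide +kernel))

theorem okV7_1 : w7_1.wc.Ok3 c7_1.num := wok3B_ok (W := w7_1) (N := c7_1) (by decide +kernel)

theorem okM7_1 : w7_1.wc.OkM c7_1.num (3 / 2) (171 / 100) := by
  have h := wokMB_ok (W := w7_1) (N := c7_1) (D2 := 3 / 2) (Dm := 171 / 100) (by decide +kernel)
  push_cast at h
  exact h

theorem okN7_1 : w7_1.wc.OkM3 c7_1.num (3 / 2) (171 / 100) (19 / 10) := by
  have h := wokM3B_ok (W := w7_1) (N := c7_1) (D2 := 3 / 2) (Dm := 171 / 100) (Sg := 19 / 10) (by decide +kernel)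
  push_cast at h
  exact h

theorem okP7_1 : w7_1.wc.OkP c7_1.num := wokPB_ok (W := w7_1) (N := c7_1) (by decide +kernel)

theorem okR7_1 : w7_1.wc.OkR := wokRB_ok (W := w7_1) (by decide +kernel)

theorem okT7_1 : w7_1.wc.OkT c7_1.num (322877 / 500000) (1027601 / 625000) := by
  have h := wokTB_ok (W := w7_1) (N := c7_1) (H1 := 322877 / 500000) (X3 := 1027601 / 625000) (by decide +kernel)
  push_cast at h
  exact h

/-- far numbers of `c7_2` -/
def w7_2 : WCQ where
  R := {
    k1 := 433 / 250, k2 := 20, T0 := 5441 / 1000, R0 := 2701 / 100, b1 := 7, S := 929 / 1000,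
    A := 5373 / 5000, J1 := 2123 / 10000, sR := 10367 / 5000, E := 6969 / 10000, η1 := 417 / 2000, ξ := 6649 / 10000,
    x0 := 3 / 10, α := 501 / 1250, x1 := 3 / 10, α' := 3851 / 5000, s1 := 1361 / 2000, s2 := 1281 / 2000,
    X1 := 3179 / 5000000, X2 := 2603 / 10000000, zE := 669 / 100000000000, oE := 4971 / 250000000, lE := 9259 / 10000000000000, Q := 1903 / 2000000000000000000,
    UQ := 1 / 100000000 }
  L := {
    k1 := 433 / 250, k2 := 20, T0 := 5441 / 1000, R0 := 2701 / 100, b1 := 7, S := 161 / 200,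
    A := 5373 / 5000, J1 := 2123 / 10000, sR := 10367 / 5000, E := 5183 / 5000, η1 := 1807 / 10000, ξ := 10207 / 10000,
    x0 := 9 / 50, α := 1537 / 2000, x1 := 9 / 50, α' := 3803 / 2500, s1 := 334 / 625, s2 := 517 / 1000,
    X1 := 6813 / 1000000000, X2 := 1571 / 500000000, zE := 7799 / 10000000000000000, oE := 9693 / 10000000000000, lE := 591 / 62500000000000000000, Q := 1589 / 25000000000000000,
    UQ := 1 / 100000000 }
  Q := {
    k1 := 433 / 250, k2 := 20, T0 := 5441 / 1000, R0 := 2701 / 100, b1 := 7, S := 84 / 125,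
    A := 5373 / 5000, J1 := 2123 / 10000, sR := 10367 / 5000, E := 7701 / 10000, η1 := 1509 / 10000, ξ := 7551 / 10000,
    x0 := 1 / 5, α := 2739 / 5000, x1 := 1 / 5, α' := 10809 / 10000, s1 := 6241 / 10000, s2 := 601 / 1000,
    X1 := 4053 / 25000000, X2 := 4247 / 50000000, zE := 2321 / 2500000000000, oE := 469 / 1250000000, lE := 2499 / 10000000000000000, Q := 8021 / 1000000000000000,
    UQ := 1 / 100000000 }
  h0 := 359 / 400
  v1 := 3611 / 10000
  vr := 653 / 2500
  V0 := 9 / 250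
  U := 1333 / 1000
  Uq := 139 / 125
  χ6 := 7157 / 10000
  χq := 7157 / 10000
  χr := 1881 / 2500
  P5 := 1
  θ := 1 / 2
  Tr := 63 / 625
  g6 := 11149 / 10000
  gq := 11149 / 10000
  gr := 3327 / 2000
  gm := 1549 / 1250
  e6 := 5279 / 50000000000000000
  eq := 5279 / 50000000000000000
  er := 5563 / 10000000000000000000000
  em := 1251 / 250000000000000000
  qm := 1589 / 25000000000000000
  um := 3927 / 62500000000

theorem okW7_2 : w7_2.wc.Ok c7_2.num :=
  wokB_ok (W := w7_2) (N := c7_2) (by decide +kernel) (fokB_ok (N := w7_2.R) (by decide +kernel))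
    (fokB_ok (N := w7_2.L) (by decide +kernel)) (fokB_ok (N := w7_2.Q) (by decide +kernel))

theorem okV7_2 : w7_2.wc.Ok3 c7_2.num := wok3B_ok (W := w7_2) (N := c7_2) (by decide +kernel)

theorem okM7_2 : w7_2.wc.OkM c7_2.num (99 / 50) (93 / 50) := by
  have h := wokMB_ok (W := w7_2) (N := c7_2) (D2 := 99 / 50) (Dm := 93 / 50) (by decide +kernel)
  push_cast at h
  exact h

theorem okN7_2 : w7_2.wc.OkM3 c7_2.num (99 / 50) (93 / 50) (37 / 20) := by
  have h := wokM3B_ok (W := w7_2) (N := c7_2) (D2 := 99 / 50) (Dm := 93 / 50) (Sg := 37 / 20) (by decide +kernel)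
  push_cast at h
  exact h

theorem okP7_2 : w7_2.wc.OkP c7_2.num := wokPB_ok (W := w7_2) (N := c7_2) (by decide +kernel)

theorem okR7_2 : w7_2.wc.OkR := wokRB_ok (W := w7_2) (by decide +kernel)

theorem okT7_2 : w7_2.wc.OkT c7_2.num (129561 / 250000) (3035371 / 2000000) := by
  have h := wokTB_ok (W := w7_2) (N := c7_2) (H1 := 129561 / 250000) (X3 := 3035371 / 2000000) (by decide +kernel)
  push_cast at h
  exact h

/-- far numbers of `c8_1` -/
def w8_1 : WCQ where
  R := {
    k1 := 139 / 100, k2 := 433 / 250, T0 := 5441 / 1000, R0 := 1293 / 50, b1 := 8, S := 871 / 1000,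
    A := 111 / 100, J1 := 117 / 500, sR := 1268 / 625, E := 723 / 1000, η1 := 1167 / 5000, ξ := 3421 / 5000,
    x0 := 33 / 100, α := 3943 / 10000, x1 := 33 / 100, α' := 7507 / 10000, s1 := 3373 / 5000, s2 := 3157 / 5000,
    X1 := 3829 / 5000000, X2 := 2941 / 10000000, zE := 949 / 125000000000, oE := 373 / 10000000, lE := 3711 / 1000000000000, Q := 11563 / 100000000000000000000,
    UQ := 1 / 100000000 }
  L := {
    k1 := 139 / 100, k2 := 433 / 250, T0 := 5441 / 1000, R0 := 1293 / 50, b1 := 8, S := 79 / 100,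
    A := 111 / 100, J1 := 117 / 500, sR := 1268 / 625, E := 1, η1 := 2117 / 10000, ξ := 9773 / 10000,
    x0 := 21 / 100, α := 6899 / 10000, x1 := 21 / 100, α' := 6787 / 5000, s1 := 344 / 625, s2 := 5283 / 10000,
    X1 := 2151 / 100000000, X2 := 4513 / 500000000, zE := 1237 / 200000000000000, oE := 8931 / 500000000000, lE := 6047 / 5000000000000000000, Q := 2243 / 1000000000000000000,
    UQ := 1 / 100000000 }
  Q := {
    k1 := 139 / 100, k2 := 433 / 250, T0 := 5441 / 1000, R0 := 1293 / 50, b1 := 8, S := 1277 / 2000,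
    A := 111 / 100, J1 := 117 / 500, sR := 1268 / 625, E := 7883 / 10000, η1 := 1711 / 10000, ξ := 1539 / 2000,
    x0 := 11 / 50, α := 5381 / 10000, x1 := 11 / 50, α' := 10577 / 10000, s1 := 621 / 1000, s2 := 2977 / 5000,
    X1 := 269 / 1250000, X2 := 2667 / 25000000, zE := 439 / 312500000000, oE := 9051 / 10000000000, lE := 14517 / 10000000000000000, Q := 9501 / 10000000000000000,
    UQ := 1 / 100000000 }
  h0 := 0
  v1 := 3243 / 10000
  vr := 1189 / 5000
  V0 := 0
  U := 913 / 500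
  Uq := 793 / 500
  χ6 := 7263 / 10000
  χq := 1823 / 2500
  χr := 7263 / 10000
  P5 := 1
  θ := 1 / 2
  Tr := 263 / 2500
  g6 := 11211 / 10000
  gq := 281 / 250
  gr := 2047 / 1250
  gm := 3087 / 2500
  e6 := 3029 / 10000000000000000
  eq := 1411 / 5000000000000000
  er := 3649 / 1000000000000000000000
  em := 19831 / 1000000000000000000
  qm := 2243 / 1000000000000000000
  um := 3927 / 62500000000

theorem okW8_1 : w8_1.wc.Ok c8_1.num :=
  wokB_ok (W := w8_1) (N := c8_1) (by decide +kernel) (fokB_ok (N := w8_1.R) (by decide +kernel))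
    (fokB_ok (N := w8_1.L) (by decide +kernel)) (fokB_ok (N := w8_1.Q) (by decide +kernel))

theorem okV8_1 : w8_1.wc.Ok3 c8_1.num := wok3B_ok (W := w8_1) (N := c8_1) (by decide +kernel)

theorem okM8_1 : w8_1.wc.OkM c8_1.num (42 / 25) (91 / 50) := by
  have h := wokMB_ok (W := w8_1) (N := c8_1) (D2 := 42 / 25) (Dm := 91 / 50) (by decide +kernel)
  push_cast at h
  exact h

theorem okN8_1 : w8_1.wc.OkM3 c8_1.num (42 / 25) (91 / 50) (49 / 25) := by
  have h := wokM3B_ok (W := w8_1) (N := c8_1) (D2 := 42 / 25) (Dm := 91 / 50) (Sg := 49 / 25) (by decide +kernel)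
  push_cast at h
  exact h

theorem okP8_1 : w8_1.wc.OkP c8_1.num := wokPB_ok (W := w8_1) (N := c8_1) (by decide +kernel)

theorem okR8_1 : w8_1.wc.OkR := wokRB_ok (W := w8_1) (by decide +kernel)

theorem okT8_1 : w8_1.wc.OkT c8_1.num (113007 / 200000) (3125283 / 2000000) := by
  have h := wokTB_ok (W := w8_1) (N := c8_1) (H1 := 113007 / 200000) (X3 := 3125283 / 2000000) (by decide +kernel)
  push_cast at h
  exact h

/-- far numbers of `c8_2` -/
def w8_2 : WCQ where
  R := {
    k1 := 433 / 250, k2 := 20, T0 := 5441 / 1000, R0 := 882 / 25, b1 := 8, S := 118 / 125,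
    A := 5373 / 5000, J1 := 2123 / 10000, sR := 23697 / 10000, E := 7253 / 10000, η1 := 927 / 5000, ξ := 1753 / 2500,
    x0 := 13 / 50, α := 4579 / 10000, x1 := 13 / 50, α' := 8919 / 10000, s1 := 82 / 125, s2 := 6237 / 10000,
    X1 := 3257 / 100000000, X2 := 577 / 50000000, zE := 8067 / 1000000000000000, oE := 9641 / 100000000000, lE := 303 / 10000000000000000, Q := 2359 / 250000000000000000000,
    UQ := 1 / 100000000 }
  L := {
    k1 := 433 / 250, k2 := 20, T0 := 5441 / 1000, R0 := 882 / 25, b1 := 8, S := 41 / 50,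
    A := 5373 / 5000, J1 := 2123 / 10000, sR := 23697 / 10000, E := 1, η1 := 1611 / 10000, ξ := 9869 / 10000,
    x0 := 4 / 25, α := 7599 / 10000, x1 := 4 / 25, α' := 3767 / 2500, s1 := 5421 / 10000, s2 := 5257 / 10000,
    X1 := 1383 / 5000000000, X2 := 11229 / 100000000000, zE := 2597 / 2500000000000000000, oE := 491 / 200000000000000, lE := 2447 / 1000000000000000000000000, Q := 7309 / 10000000000000000000,
    UQ := 1 / 100000000 }
  Q := {
    k1 := 433 / 250, k2 := 20, T0 := 5441 / 1000, R0 := 882 / 25, b1 := 8, S := 339 / 500,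
    A := 5373 / 5000, J1 := 2123 / 10000, sR := 23697 / 10000, E := 397 / 500, η1 := 333 / 2500, ξ := 7827 / 10000,
    x0 := 17 / 100, α := 5959 / 10000, x1 := 17 / 100, α' := 11807 / 10000, s1 := 1219 / 2000, s2 := 5903 / 10000,
    X1 := 3243 / 500000000, X2 := 1539 / 500000000, zE := 7697 / 10000000000000000, oE := 929 / 1250000000000, lE := 3071 / 500000000000000000000, Q := 927 / 5000000000000000,
    UQ := 1 / 100000000 }
  h0 := 0
  v1 := 3211 / 10000
  vr := 1153 / 5000
  V0 := 0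
  U := 317 / 250
  Uq := 1073 / 1000
  χ6 := 913 / 1250
  χq := 913 / 1250
  χr := 1909 / 2500
  P5 := 1
  θ := 1 / 2
  Tr := 193 / 2500
  g6 := 2883 / 2500
  gq := 2883 / 2500
  gr := 16951 / 10000
  gm := 3157 / 2500
  e6 := 12881 / 1000000000000000000000
  eq := 12881 / 1000000000000000000000
  er := 649 / 12500000000000000000000000
  em := 1823 / 2500000000000000000000
  qm := 7309 / 10000000000000000000
  um := 3927 / 62500000000

theorem okW8_2 : w8_2.wc.Ok c8_2.num :=
  wokB_ok (W := w8_2) (N := c8_2) (by decide +kernel) (fokB_ok (N := w8_2.R) (by decide +kernel))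
    (fokB_ok (N := w8_2.L) (by decide +kernel)) (fokB_ok (N := w8_2.Q) (by decide +kernel))

theorem okV8_2 : w8_2.wc.Ok3 c8_2.num := wok3B_ok (W := w8_2) (N := c8_2) (by decide +kernel)

theorem okM8_2 : w8_2.wc.OkM c8_2.num (39 / 20) (48 / 25) := by
  have h := wokMB_ok (W := w8_2) (N := c8_2) (D2 := 39 / 20) (Dm := 48 / 25) (by decide +kernel)
  push_cast at h
  exact h

theorem okN8_2 : w8_2.wc.OkM3 c8_2.num (39 / 20) (48 / 25) (187 / 100) := by
  have h := wokM3B_ok (W := w8_2) (N := c8_2) (D2 := 39 / 20) (Dm := 48 / 25) (Sg := 187 / 100) (by decide +kernel)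
  push_cast at h
  exact h

theorem okP8_2 : w8_2.wc.OkP c8_2.num := wokPB_ok (W := w8_2) (N := c8_2) (by decide +kernel)

theorem okR8_2 : w8_2.wc.OkR := wokRB_ok (W := w8_2) (by decide +kernel)

theorem okT8_2 : w8_2.wc.OkT c8_2.num (56683 / 125000) (906501 / 625000) := by
  have h := wokTB_ok (W := w8_2) (N := c8_2) (H1 := 56683 / 125000) (X3 := 906501 / 625000) (by decide +kernel)
  push_cast at h
  exact h

end Sok.R2
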