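import Pool.Agent.Lib.MP_816dec_an.R2WWB
import Pool.Agent.Lib.MP_816dec_an.R2WWC
import Pool.Agent.Lib.MP_816dec_an.R2WEnd0
import Pool.Agent.Lib.MP_816dec_an.R2Lin
import Pool.Agent.Lib.MP_816dec_an.R2X5N
import Pool.Agent.Lib.MP_816dec_an.R2SecF

/-!
MP_816dec_an (row R2, far windows): `FarH` and `MomH` of the classes.
-/

set_option autoImplicit false

open Complex Set Filter Topology

namespace Sok.R2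

private theorem wp5_1 {b : ℕ} {β r : ℝ} (hb : b = 5) (hβ : 0 < β) (hr : 10 ≤ r) (hT : c5_1.num.T0 ≤ TT b β r)
    (h1 : (139 / 100 : ℝ) ≤ β * r) (h2 : β * r ≤ 71 / 50) : WP b β r (-2 * (b : ℤ) + 2) 2 c5_1.num w5_1.wc := by
  have LD := line5_1 (b := b) (κ := β * r) (by omega) h1
  exact WP.of2 okW5_1 okP5_1 (fun _ => okR5_1) (by omega) (by rw [hb]; norm_num [w5_1, WCQ.wc, FCQ.fc]) (Or.inr (by rw [hb]; norm_num [w5_1, WCQ.wc, FCQ.fc])) (fun _ h => absurd h (by norm_num [w5_1, WCQ.wc, FCQ.fc])) (fun _ => ⟨by norm_num [w5_1, WCQ.wc, FCQ.fc], by omega⟩) hβ hr hT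
    (le_trans (by norm_num [w5_1, WCQ.wc, FCQ.fc]) h1) (le_trans h2 (by norm_num [w5_1, WCQ.wc, FCQ.fc])) ⟨_, LD.L⟩ ⟨_, LD.Lr⟩
    (by
      intro V hV hv
      subst hb
      exact tanN5_1 h1 h2 (by rw [neg_neg]; exact hv))

theorem far5_1 {b : ℕ} {β r : ℝ} (hb : b = 5) (hβ : 0 < β) (hr : 10 ≤ r) (hT : c5_1.num.T0 ≤ TT b β r)
    (h1 : (139 / 100 : ℝ) ≤ β * r) (h2 : β * r ≤ 71 / 50) : FarH b β r (-2 * (b : ℤ) + 2) 2 c5_1.num :=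
  (wp5_1 hb hβ hr hT h1 h2).farH okW5_1 (fun _ => okV5_1)

theorem mom5_1 {b : ℕ} {β r : ℝ} (hb : b = 5) (hβ : 0 < β) (hr : 10 ≤ r) (hT : c5_1.num.T0 ≤ TT b β r)
    (h1 : (139 / 100 : ℝ) ≤ β * r) (h2 : β * r ≤ 71 / 50) : MomH b β r (-2 * (b : ℤ) + 2) 2 c5_1.num :=
  (wp5_1 hb hβ hr hT h1 h2).momH okW5_1 okM5_1 (Sg := (39 / 20)) (fun _ => okN5_1)
    (secF5_1 hb h1 h2)

private theorem wp5_2 {b : ℕ} {β r : ℝ} (hb : b = 5) (hβ : 0 < β) (hr : 10 ≤ r) (hT : c5_2.num.T0 ≤ TT b β r)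
    (h1 : (71 / 50 : ℝ) ≤ β * r) (h2 : β * r ≤ 37 / 25) : WP b β r (-2 * (b : ℤ) + 2) 2 c5_2.num w5_2.wc := by
  have LD := line5_2 (b := b) (κ := β * r) (by omega) h1
  exact WP.of2 okW5_2 okP5_2 (fun _ => okR5_2) (by omega) (by rw [hb]; norm_num [w5_2, WCQ.wc, FCQ.fc]) (Or.inr (by rw [hb]; norm_num [w5_2, WCQ.wc, FCQ.fc])) (fun _ h => absurd h (by norm_num [w5_2, WCQ.wc, FCQ.fc])) (fun _ => ⟨by norm_num [w5_2, WCQ.wc, FCQ.fc], by omega⟩) hβ hr hT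
    (le_trans (by norm_num [w5_2, WCQ.wc, FCQ.fc]) h1) (le_trans h2 (by norm_num [w5_2, WCQ.wc, FCQ.fc])) ⟨_, LD.L⟩ ⟨_, LD.Lr⟩
    (by
      intro V hV hv
      subst hb
      exact tanN5_2 h1 h2 (by rw [neg_neg]; exact hv))

theorem far5_2 {b : ℕ} {β r : ℝ} (hb : b = 5) (hβ : 0 < β) (hr : 10 ≤ r) (hT : c5_2.num.T0 ≤ TT b β r)
    (h1 : (71 / 50 : ℝ) ≤ β * r) (h2 : β * r ≤ 37 / 25) : FarH b β r (-2 * (b : ℤ) + 2) 2 c5_2.num :=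
  (wp5_2 hb hβ hr hT h1 h2).farH okW5_2 (fun _ => okV5_2)

theorem mom5_2 {b : ℕ} {β r : ℝ} (hb : b = 5) (hβ : 0 < β) (hr : 10 ≤ r) (hT : c5_2.num.T0 ≤ TT b β r)
    (h1 : (71 / 50 : ℝ) ≤ β * r) (h2 : β * r ≤ 37 / 25) : MomH b β r (-2 * (b : ℤ) + 2) 2 c5_2.num :=
  (wp5_2 hb hβ hr hT h1 h2).momH okW5_2 okM5_2 (Sg := (48 / 25)) (fun _ => okN5_2)
    (secF5_2 hb h1 h2)

private theorem wp5_3 {b : ℕ} {β r : ℝ} (hb : b = 5) (hβ : 0 < β) (hr : 10 ≤ r) (hT : c5_3.num.T0 ≤ TT b β r)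
    (h1 : (37 / 25 : ℝ) ≤ β * r) (h2 : β * r ≤ 79 / 50) : WP b β r (-2 * (b : ℤ) + 2) 2 c5_3.num w5_3.wc := by
  have LD := line5_3 (b := b) (κ := β * r) (by omega) h1
  exact WP.of2 okW5_3 okP5_3 (fun _ => okR5_3) (by omega) (by rw [hb]; norm_num [w5_3, WCQ.wc, FCQ.fc]) (Or.inr (by rw [hb]; norm_num [w5_3, WCQ.wc, FCQ.fc])) (fun _ h => absurd h (by norm_num [w5_3, WCQ.wc, FCQ.fc])) (fun _ => ⟨by norm_num [w5_3, WCQ.wc, FCQ.fc], by omega⟩) hβ hr hT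
    (le_trans (by norm_num [w5_3, WCQ.wc, FCQ.fc]) h1) (le_trans h2 (by norm_num [w5_3, WCQ.wc, FCQ.fc])) ⟨_, LD.L⟩ ⟨_, LD.Lr⟩
    (by
      intro V hV hv
      subst hb
      exact tanN5_3 h1 h2 (by rw [neg_neg]; exact hv))

theorem far5_3 {b : ℕ} {β r : ℝ} (hb : b = 5) (hβ : 0 < β) (hr : 10 ≤ r) (hT : c5_3.num.T0 ≤ TT b β r)
    (h1 : (37 / 25 : ℝ) ≤ β * r) (h2 : β * r ≤ 79 / 50) : FarH b β r (-2 * (b : ℤ) + 2) 2 c5_3.num :=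
  (wp5_3 hb hβ hr hT h1 h2).farH okW5_3 (fun _ => okV5_3)

theorem mom5_3 {b : ℕ} {β r : ℝ} (hb : b = 5) (hβ : 0 < β) (hr : 10 ≤ r) (hT : c5_3.num.T0 ≤ TT b β r)
    (h1 : (37 / 25 : ℝ) ≤ β * r) (h2 : β * r ≤ 79 / 50) : MomH b β r (-2 * (b : ℤ) + 2) 2 c5_3.num :=
  (wp5_3 hb hβ hr hT h1 h2).momH okW5_3 okM5_3 (Sg := (47 / 25)) (fun _ => okN5_3)
    (secF5_3 hb h1 h2)

private theorem wp5_4 {b : ℕ} {β r : ℝ} (hb : b = 5) (hβ : 0 < β) (hr : 10 ≤ r) (hT : c5_4.num.T0 ≤ TT b β r)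
    (h1 : (79 / 50 : ℝ) ≤ β * r) (h2 : β * r ≤ 433 / 250) : WP b β r (-2 * (b : ℤ) + 2) 2 c5_4.num w5_4.wc := by
  have LD := line5_4 (b := b) (κ := β * r) (by omega) h1
  exact WP.of2 okW5_4 okP5_4 (fun _ => okR5_4) (by omega) (by rw [hb]; norm_num [w5_4, WCQ.wc, FCQ.fc]) (Or.inr (by rw [hb]; norm_num [w5_4, WCQ.wc, FCQ.fc])) (fun _ h => absurd h (by norm_num [w5_4, WCQ.wc, FCQ.fc])) (fun _ => ⟨by norm_num [w5_4, WCQ.wc, FCQ.fc], by omega⟩) hβ hr hT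
    (le_trans (by norm_num [w5_4, WCQ.wc, FCQ.fc]) h1) (le_trans h2 (by norm_num [w5_4, WCQ.wc, FCQ.fc])) ⟨_, LD.L⟩ ⟨_, LD.Lr⟩
    (lt_of okW5_4 okT5_4 (by omega) (by rw [hb]; norm_num [w5_4, WCQ.wc, FCQ.fc]) (le_trans (by norm_num [w5_4, WCQ.wc, FCQ.fc]) h1))

theorem far5_4 {b : ℕ} {β r : ℝ} (hb : b = 5) (hβ : 0 < β) (hr : 10 ≤ r) (hT : c5_4.num.T0 ≤ TT b β r)
    (h1 : (79 / 50 : ℝ) ≤ β * r) (h2 : β * r ≤ 433 / 250) : FarH b β r (-2 * (b : ℤ) + 2) 2 c5_4.num :=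
  (wp5_4 hb hβ hr hT h1 h2).farH okW5_4 (fun _ => okV5_4)

theorem mom5_4 {b : ℕ} {β r : ℝ} (hb : b = 5) (hβ : 0 < β) (hr : 10 ≤ r) (hT : c5_4.num.T0 ≤ TT b β r)
    (h1 : (79 / 50 : ℝ) ≤ β * r) (h2 : β * r ≤ 433 / 250) : MomH b β r (-2 * (b : ℤ) + 2) 2 c5_4.num :=
  (wp5_4 hb hβ hr hT h1 h2).momH okW5_4 okM5_4 (Sg := (46 / 25)) (fun _ => okN5_4)
    (secF5_4 hb h1 h2)

private theorem wp5_5 {b : ℕ} {β r : ℝ} (hb : b = 5) (hβ : 0 < β) (hr : 10 ≤ r) (hT : c5_5.num.T0 ≤ TT b β r)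
    (h1 : (433 / 250 : ℝ) ≤ β * r) (h2 : β * r ≤ 2) : WP b β r (-2 * (b : ℤ) + 2) 2 c5_5.num w5_5.wc := by
  have LD := line5_5 (b := b) (κ := β * r) (by omega) h1
  exact WP.of2 okW5_5 okP5_5 (fun _ => okR5_5) (by omega) (by rw [hb]; norm_num [w5_5, WCQ.wc, FCQ.fc]) (Or.inr (by rw [hb]; norm_num [w5_5, WCQ.wc, FCQ.fc])) (fun _ h => absurd h (by norm_num [w5_5, WCQ.wc, FCQ.fc])) (fun _ => ⟨by norm_num [w5_5, WCQ.wc, FCQ.fc], by omega⟩) hβ hr hT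
    (le_trans (by norm_num [w5_5, WCQ.wc, FCQ.fc]) h1) (le_trans h2 (by norm_num [w5_5, WCQ.wc, FCQ.fc])) ⟨_, LD.L⟩ ⟨_, LD.Lr⟩
    (lt_of okW5_5 okT5_5 (by omega) (by rw [hb]; norm_num [w5_5, WCQ.wc, FCQ.fc]) (le_trans (by norm_num [w5_5, WCQ.wc, FCQ.fc]) h1))

theorem far5_5 {b : ℕ} {β r : ℝ} (hb : b = 5) (hβ : 0 < β) (hr : 10 ≤ r) (hT : c5_5.num.T0 ≤ TT b β r)
    (h1 : (433 / 250 : ℝ) ≤ β * r) (h2 : β * r ≤ 2) : FarH b β r (-2 * (b : ℤ) + 2) 2 c5_5.num :=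
  (wp5_5 hb hβ hr hT h1 h2).farH okW5_5 (fun _ => okV5_5)

theorem mom5_5 {b : ℕ} {β r : ℝ} (hb : b = 5) (hβ : 0 < β) (hr : 10 ≤ r) (hT : c5_5.num.T0 ≤ TT b β r)
    (h1 : (433 / 250 : ℝ) ≤ β * r) (h2 : β * r ≤ 2) : MomH b β r (-2 * (b : ℤ) + 2) 2 c5_5.num :=
  (wp5_5 hb hβ hr hT h1 h2).momH okW5_5 okM5_5 (Sg := (177 / 100)) (fun _ => okN5_5)
    (secF5_5 hb h1 h2)

private theorem wp5_6 {b : ℕ} {β r : ℝ} (hb : b = 5) (hβ : 0 < β) (hr : 10 ≤ r) (hT : c5_6.num.T0 ≤ TT b β r)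
    (h1 : (2 : ℝ) ≤ β * r) (h2 : β * r ≤ 20) : WP b β r (-2 * (b : ℤ) + 2) 2 c5_6.num w5_6.wc := by
  have LD := line5_6 (b := b) (κ := β * r) (by omega) h1
  exact WP.of2 okW5_6 okP5_6 (fun _ => okR5_6) (by omega) (by rw [hb]; norm_num [w5_6, WCQ.wc, FCQ.fc]) (Or.inr (by rw [hb]; norm_num [w5_6, WCQ.wc, FCQ.fc])) (fun _ h => absurd h (by norm_num [w5_6, WCQ.wc, FCQ.fc])) (fun _ => ⟨by norm_num [w5_6, WCQ.wc, FCQ.fc], by omega⟩) hβ hr hT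
    (le_trans (by norm_num [w5_6, WCQ.wc, FCQ.fc]) h1) (le_trans h2 (by norm_num [w5_6, WCQ.wc, FCQ.fc])) ⟨_, LD.L⟩ ⟨_, LD.Lr⟩
    (lt_of okW5_6 okT5_6 (by omega) (by rw [hb]; norm_num [w5_6, WCQ.wc, FCQ.fc]) (le_trans (by norm_num [w5_6, WCQ.wc, FCQ.fc]) h1))

theorem far5_6 {b : ℕ} {β r : ℝ} (hb : b = 5) (hβ : 0 < β) (hr : 10 ≤ r) (hT : c5_6.num.T0 ≤ TT b β r)
    (h1 : (2 : ℝ) ≤ β * r) (h2 : β * r ≤ 20) : FarH b β r (-2 * (b : ℤ) + 2) 2 c5_6.num :=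
  (wp5_6 hb hβ hr hT h1 h2).farH okW5_6 (fun _ => okV5_6)

theorem mom5_6 {b : ℕ} {β r : ℝ} (hb : b = 5) (hβ : 0 < β) (hr : 10 ≤ r) (hT : c5_6.num.T0 ≤ TT b β r)
    (h1 : (2 : ℝ) ≤ β * r) (h2 : β * r ≤ 20) : MomH b β r (-2 * (b : ℤ) + 2) 2 c5_6.num :=
  (wp5_6 hb hβ hr hT h1 h2).momH okW5_6 okM5_6 (Sg := (183 / 100)) (fun _ => okN5_6)
    (secF5_6 hb h1 h2)

private theorem wp6_1 {b : ℕ} {β r : ℝ} (hb : b = 6) (hβ : 0 < β) (hr : 10 ≤ r) (hT : c6_1.num.T0 ≤ TT b β r)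
    (h1 : (139 / 100 : ℝ) ≤ β * r) (h2 : β * r ≤ 31 / 20) : WP b β r (-2 * (b : ℤ) + 2) 2 c6_1.num w6_1.wc := by
  have LD := line6_1 (b := b) (κ := β * r) (by omega) h1
  exact WP.of2 okW6_1 okP6_1 (fun _ => okR6_1) (by omega) (by rw [hb]; norm_num [w6_1, WCQ.wc, FCQ.fc]) (Or.inr (by rw [hb]; norm_num [w6_1, WCQ.wc, FCQ.fc])) (fun _ h => absurd h (by norm_num [w6_1, WCQ.wc, FCQ.fc])) (fun _ => ⟨by norm_num [w6_1, WCQ.wc, FCQ.fc], by omega⟩) hβ hr hT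
    (le_trans (by norm_num [w6_1, WCQ.wc, FCQ.fc]) h1) (le_trans h2 (by norm_num [w6_1, WCQ.wc, FCQ.fc])) ⟨_, LD.L⟩ ⟨_, LD.Lr⟩
    (lt_of okW6_1 okT6_1 (by omega) (by rw [hb]; norm_num [w6_1, WCQ.wc, FCQ.fc]) (le_trans (by norm_num [w6_1, WCQ.wc, FCQ.fc]) h1))

theorem far6_1 {b : ℕ} {β r : ℝ} (hb : b = 6) (hβ : 0 < β) (hr : 10 ≤ r) (hT : c6_1.num.T0 ≤ TT b β r)
    (h1 : (139 / 100 : ℝ) ≤ β * r) (h2 : β * r ≤ 31 / 20) : FarH b β r (-2 * (b : ℤ) + 2) 2 c6_1.num :=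
  (wp6_1 hb hβ hr hT h1 h2).farH okW6_1 (fun _ => okV6_1)

theorem mom6_1 {b : ℕ} {β r : ℝ} (hb : b = 6) (hβ : 0 < β) (hr : 10 ≤ r) (hT : c6_1.num.T0 ≤ TT b β r)
    (h1 : (139 / 100 : ℝ) ≤ β * r) (h2 : β * r ≤ 31 / 20) : MomH b β r (-2 * (b : ℤ) + 2) 2 c6_1.num :=
  (wp6_1 hb hβ hr hT h1 h2).momH okW6_1 okM6_1 (Sg := (48 / 25)) (fun _ => okN6_1)
    (secF6_1 hb h1 h2)

private theorem wp6_2 {b : ℕ} {β r : ℝ} (hb : b = 6) (hβ : 0 < β) (hr : 10 ≤ r) (hT : c6_2.num.T0 ≤ TT b β r)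
    (h1 : (31 / 20 : ℝ) ≤ β * r) (h2 : β * r ≤ 433 / 250) : WP b β r (-2 * (b : ℤ) + 2) 2 c6_2.num w6_2.wc := by
  have LD := line6_2 (b := b) (κ := β * r) (by omega) h1
  exact WP.of2 okW6_2 okP6_2 (fun _ => okR6_2) (by omega) (by rw [hb]; norm_num [w6_2, WCQ.wc, FCQ.fc]) (Or.inr (by rw [hb]; norm_num [w6_2, WCQ.wc, FCQ.fc])) (fun _ h => absurd h (by norm_num [w6_2, WCQ.wc, FCQ.fc])) (fun _ => ⟨by norm_num [w6_2, WCQ.wc, FCQ.fc], by omega⟩) hβ hr hT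
    (le_trans (by norm_num [w6_2, WCQ.wc, FCQ.fc]) h1) (le_trans h2 (by norm_num [w6_2, WCQ.wc, FCQ.fc])) ⟨_, LD.L⟩ ⟨_, LD.Lr⟩
    (lt_of okW6_2 okT6_2 (by omega) (by rw [hb]; norm_num [w6_2, WCQ.wc, FCQ.fc]) (le_trans (by norm_num [w6_2, WCQ.wc, FCQ.fc]) h1))

theorem far6_2 {b : ℕ} {β r : ℝ} (hb : b = 6) (hβ : 0 < β) (hr : 10 ≤ r) (hT : c6_2.num.T0 ≤ TT b β r)
    (h1 : (31 / 20 : ℝ) ≤ β * r) (h2 : β * r ≤ 433 / 250) : FarH b β r (-2 * (b : ℤ) + 2) 2 c6_2.num :=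
  (wp6_2 hb hβ hr hT h1 h2).farH okW6_2 (fun _ => okV6_2)

theorem mom6_2 {b : ℕ} {β r : ℝ} (hb : b = 6) (hβ : 0 < β) (hr : 10 ≤ r) (hT : c6_2.num.T0 ≤ TT b β r)
    (h1 : (31 / 20 : ℝ) ≤ β * r) (h2 : β * r ≤ 433 / 250) : MomH b β r (-2 * (b : ℤ) + 2) 2 c6_2.num :=
  (wp6_2 hb hβ hr hT h1 h2).momH okW6_2 okM6_2 (Sg := (91 / 50)) (fun _ => okN6_2)
    (secF6_2 hb h1 h2)

private theorem wp6_3 {b : ℕ} {β r : ℝ} (hb : b = 6) (hβ : 0 < β) (hr : 10 ≤ r) (hT : c6_3.num.T0 ≤ TT b β r)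
    (h1 : (433 / 250 : ℝ) ≤ β * r) (h2 : β * r ≤ 20) : WP b β r (-2 * (b : ℤ) + 2) 2 c6_3.num w6_3.wc := by
  have LD := line6_3 (b := b) (κ := β * r) (by omega) h1
  exact WP.of2 okW6_3 okP6_3 (fun _ => okR6_3) (by omega) (by rw [hb]; norm_num [w6_3, WCQ.wc, FCQ.fc]) (Or.inr (by rw [hb]; norm_num [w6_3, WCQ.wc, FCQ.fc])) (fun _ h => absurd h (by norm_num [w6_3, WCQ.wc, FCQ.fc])) (fun _ => ⟨by norm_num [w6_3, WCQ.wc, FCQ.fc], by omega⟩) hβ hr hT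
    (le_trans (by norm_num [w6_3, WCQ.wc, FCQ.fc]) h1) (le_trans h2 (by norm_num [w6_3, WCQ.wc, FCQ.fc])) ⟨_, LD.L⟩ ⟨_, LD.Lr⟩
    (lt_of okW6_3 okT6_3 (by omega) (by rw [hb]; norm_num [w6_3, WCQ.wc, FCQ.fc]) (le_trans (by norm_num [w6_3, WCQ.wc, FCQ.fc]) h1))

theorem far6_3 {b : ℕ} {β r : ℝ} (hb : b = 6) (hβ : 0 < β) (hr : 10 ≤ r) (hT : c6_3.num.T0 ≤ TT b β r)
    (h1 : (433 / 250 : ℝ) ≤ β * r) (h2 : β * r ≤ 20) : FarH b β r (-2 * (b : ℤ) + 2) 2 c6_3.num :=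
  (wp6_3 hb hβ hr hT h1 h2).farH okW6_3 (fun _ => okV6_3)

theorem mom6_3 {b : ℕ} {β r : ℝ} (hb : b = 6) (hβ : 0 < β) (hr : 10 ≤ r) (hT : c6_3.num.T0 ≤ TT b β r)
    (h1 : (433 / 250 : ℝ) ≤ β * r) (h2 : β * r ≤ 20) : MomH b β r (-2 * (b : ℤ) + 2) 2 c6_3.num :=
  (wp6_3 hb hβ hr hT h1 h2).momH okW6_3 okM6_3 (Sg := (191 / 100)) (fun _ => okN6_3)
    (secF6_3 hb h1 h2)

private theorem wp7_1 {b : ℕ} {β r : ℝ} (hb : b = 7) (hβ : 0 < β) (hr : 10 ≤ r) (hT : c7_1.num.T0 ≤ TT b β r)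
    (h1 : (139 / 100 : ℝ) ≤ β * r) (h2 : β * r ≤ 433 / 250) : WP b β r (-2 * (b : ℤ) + 2) 2 c7_1.num w7_1.wc := by
  have LD := line7_1 (b := b) (κ := β * r) (by omega) h1
  exact WP.of2 okW7_1 okP7_1 (fun _ => okR7_1) (by omega) (by rw [hb]; norm_num [w7_1, WCQ.wc, FCQ.fc]) (Or.inr (by rw [hb]; norm_num [w7_1, WCQ.wc, FCQ.fc])) (fun _ h => absurd h (by norm_num [w7_1, WCQ.wc, FCQ.fc])) (fun _ => ⟨by norm_num [w7_1, WCQ.wc, FCQ.fc], by omega⟩) hβ hr hT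
    (le_trans (by norm_num [w7_1, WCQ.wc, FCQ.fc]) h1) (le_trans h2 (by norm_num [w7_1, WCQ.wc, FCQ.fc])) ⟨_, LD.L⟩ ⟨_, LD.Lr⟩
    (lt_of okW7_1 okT7_1 (by omega) (by rw [hb]; norm_num [w7_1, WCQ.wc, FCQ.fc]) (le_trans (by norm_num [w7_1, WCQ.wc, FCQ.fc]) h1))

theorem far7_1 {b : ℕ} {β r : ℝ} (hb : b = 7) (hβ : 0 < β) (hr : 10 ≤ r) (hT : c7_1.num.T0 ≤ TT b β r)
    (h1 : (139 / 100 : ℝ) ≤ β * r) (h2 : β * r ≤ 433 / 250) : FarH b β r (-2 * (b : ℤ) + 2) 2 c7_1.num :=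
  (wp7_1 hb hβ hr hT h1 h2).farH okW7_1 (fun _ => okV7_1)

theorem mom7_1 {b : ℕ} {β r : ℝ} (hb : b = 7) (hβ : 0 < β) (hr : 10 ≤ r) (hT : c7_1.num.T0 ≤ TT b β r)
    (h1 : (139 / 100 : ℝ) ≤ β * r) (h2 : β * r ≤ 433 / 250) : MomH b β r (-2 * (b : ℤ) + 2) 2 c7_1.num :=
  (wp7_1 hb hβ hr hT h1 h2).momH okW7_1 okM7_1 (Sg := (19 / 10)) (fun _ => okN7_1)
    (secF7_1 hb h1 h2)

private theorem wp7_2 {b : ℕ} {β r : ℝ} (hb : b = 7) (hβ : 0 < β) (hr : 10 ≤ r) (hT : c7_2.num.T0 ≤ TT b β r)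
    (h1 : (433 / 250 : ℝ) ≤ β * r) (h2 : β * r ≤ 20) : WP b β r (-2 * (b : ℤ) + 2) 2 c7_2.num w7_2.wc := by
  have LD := line7_2 (b := b) (κ := β * r) (by omega) h1
  exact WP.of2 okW7_2 okP7_2 (fun _ => okR7_2) (by omega) (by rw [hb]; norm_num [w7_2, WCQ.wc, FCQ.fc]) (Or.inr (by rw [hb]; norm_num [w7_2, WCQ.wc, FCQ.fc])) (fun _ h => absurd h (by norm_num [w7_2, WCQ.wc, FCQ.fc])) (fun _ => ⟨by norm_num [w7_2, WCQ.wc, FCQ.fc], by omega⟩) hβ hr hT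
    (le_trans (by norm_num [w7_2, WCQ.wc, FCQ.fc]) h1) (le_trans h2 (by norm_num [w7_2, WCQ.wc, FCQ.fc])) ⟨_, LD.L⟩ ⟨_, LD.Lr⟩
    (lt_of okW7_2 okT7_2 (by omega) (by rw [hb]; norm_num [w7_2, WCQ.wc, FCQ.fc]) (le_trans (by norm_num [w7_2, WCQ.wc, FCQ.fc]) h1))

theorem far7_2 {b : ℕ} {β r : ℝ} (hb : b = 7) (hβ : 0 < β) (hr : 10 ≤ r) (hT : c7_2.num.T0 ≤ TT b β r)
    (h1 : (433 / 250 : ℝ) ≤ β * r) (h2 : β * r ≤ 20) : FarH b β r (-2 * (b : ℤ) + 2) 2 c7_2.num :=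
  (wp7_2 hb hβ hr hT h1 h2).farH okW7_2 (fun _ => okV7_2)

theorem mom7_2 {b : ℕ} {β r : ℝ} (hb : b = 7) (hβ : 0 < β) (hr : 10 ≤ r) (hT : c7_2.num.T0 ≤ TT b β r)
    (h1 : (433 / 250 : ℝ) ≤ β * r) (h2 : β * r ≤ 20) : MomH b β r (-2 * (b : ℤ) + 2) 2 c7_2.num :=
  (wp7_2 hb hβ hr hT h1 h2).momH okW7_2 okM7_2 (Sg := (37 / 20)) (fun _ => okN7_2)
    (secF7_2 hb h1 h2)

private theorem wp8_1 {b : ℕ} {β r : ℝ} (hb : 8 ≤ b) (hβ : 0 < β) (hr : 10 ≤ r) (hT : c8_1.num.T0 ≤ TT b β r)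
    (h1 : (139 / 100 : ℝ) ≤ β * r) (h2 : β * r ≤ 433 / 250) : WP b β r (-2 * (b : ℤ) + 2) 2 c8_1.num w8_1.wc := by
  have LD := line8_1 (b := b) (κ := β * r) (by omega) h1
  exact WP.of2 okW8_1 okP8_1 (fun _ => okR8_1) (by omega) (b1_8 hb (by norm_num [w8_1, WCQ.wc, FCQ.fc])) (Or.inl (by norm_num [w8_1, WCQ.wc, FCQ.fc])) (fun _ h => absurd h (by norm_num [w8_1, WCQ.wc, FCQ.fc])) (fun _ => ⟨by norm_num [w8_1, WCQ.wc, FCQ.fc], by omega⟩) hβ hr hT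
    (le_trans (by norm_num [w8_1, WCQ.wc, FCQ.fc]) h1) (le_trans h2 (by norm_num [w8_1, WCQ.wc, FCQ.fc])) ⟨_, LD.L⟩ ⟨_, LD.Lr⟩
    (lt_of okW8_1 okT8_1 (by omega) (b1_8 hb (by norm_num [w8_1, WCQ.wc, FCQ.fc])) (le_trans (by norm_num [w8_1, WCQ.wc, FCQ.fc]) h1))

theorem far8_1 {b : ℕ} {β r : ℝ} (hb : 8 ≤ b) (hβ : 0 < β) (hr : 10 ≤ r) (hT : c8_1.num.T0 ≤ TT b β r)
    (h1 : (139 / 100 : ℝ) ≤ β * r) (h2 : β * r ≤ 433 / 250) : FarH b β r (-2 * (b : ℤ) + 2) 2 c8_1.num :=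
  (wp8_1 hb hβ hr hT h1 h2).farH okW8_1 (fun _ => okV8_1)

theorem mom8_1 {b : ℕ} {β r : ℝ} (hb : 8 ≤ b) (hβ : 0 < β) (hr : 10 ≤ r) (hT : c8_1.num.T0 ≤ TT b β r)
    (h1 : (139 / 100 : ℝ) ≤ β * r) (h2 : β * r ≤ 433 / 250) : MomH b β r (-2 * (b : ℤ) + 2) 2 c8_1.num :=
  (wp8_1 hb hβ hr hT h1 h2).momH okW8_1 okM8_1 (Sg := (49 / 25)) (fun _ => okN8_1)
    (secF8_1 hb h1 h2)

private theorem wp8_2 {b : ℕ} {β r : ℝ} (hb : 8 ≤ b) (hβ : 0 < β) (hr : 10 ≤ r) (hT : c8_2.num.T0 ≤ TT b β r)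
    (h1 : (433 / 250 : ℝ) ≤ β * r) (h2 : β * r ≤ 20) : WP b β r (-2 * (b : ℤ) + 2) 2 c8_2.num w8_2.wc := by
  have LD := line8_2 (b := b) (κ := β * r) (by omega) h1
  exact WP.of2 okW8_2 okP8_2 (fun _ => okR8_2) (by omega) (b1_8 hb (by norm_num [w8_2, WCQ.wc, FCQ.fc])) (Or.inl (by norm_num [w8_2, WCQ.wc, FCQ.fc])) (fun _ h => absurd h (by norm_num [w8_2, WCQ.wc, FCQ.fc])) (fun _ => ⟨by norm_num [w8_2, WCQ.wc, FCQ.fc], by omega⟩) hβ hr hT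
    (le_trans (by norm_num [w8_2, WCQ.wc, FCQ.fc]) h1) (le_trans h2 (by norm_num [w8_2, WCQ.wc, FCQ.fc])) ⟨_, LD.L⟩ ⟨_, LD.Lr⟩
    (lt_of okW8_2 okT8_2 (by omega) (b1_8 hb (by norm_num [w8_2, WCQ.wc, FCQ.fc])) (le_trans (by norm_num [w8_2, WCQ.wc, FCQ.fc]) h1))

theorem far8_2 {b : ℕ} {β r : ℝ} (hb : 8 ≤ b) (hβ : 0 < β) (hr : 10 ≤ r) (hT : c8_2.num.T0 ≤ TT b β r)
    (h1 : (433 / 250 : ℝ) ≤ β * r) (h2 : β * r ≤ 20) : FarH b β r (-2 * (b : ℤ) + 2) 2 c8_2.num :=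
  (wp8_2 hb hβ hr hT h1 h2).farH okW8_2 (fun _ => okV8_2)

theorem mom8_2 {b : ℕ} {β r : ℝ} (hb : 8 ≤ b) (hβ : 0 < β) (hr : 10 ≤ r) (hT : c8_2.num.T0 ≤ TT b β r)
    (h1 : (433 / 250 : ℝ) ≤ β * r) (h2 : β * r ≤ 20) : MomH b β r (-2 * (b : ℤ) + 2) 2 c8_2.num :=
  (wp8_2 hb hβ hr hT h1 h2).momH okW8_2 okM8_2 (Sg := (187 / 100)) (fun _ => okN8_2)
    (secF8_2 hb h1 h2)

end Sok.R2
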