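import Pool.Agent.Lib.MP_816dec_an.R2WCls

/-!
MP_816dec_an (row R2, far windows): values of the far windows, `FarH`.
-/

set_option autoImplicit false

open Complex Set Filter Topology MeasureTheory

namespace Sok.R2

section
variable {b : ℕ} {β r : ℝ} {aw : ℤ} {n : ℕ} {N : Num} {W : WC}

/-- windows on the right -/
theorem WP.right_val (O : W.Ok N) (P : WP b β r aw n N W) {k : ℤ} (hk : 2 ≤ k) (hk' : k ≤ b + 1) {i : ℕ}
    (hi : i = 0 ∨ i + 2 ≤ b) {K : ℝ} (hK6 : W.aK6 ≤ K * N.τ6) (hKq : W.aKq ≤ K * N.τ) {z : ℝ} (hz : z ≤ 0) :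
    ‖Xw b β aw n k (wz b β r z)‖ ≤ (W.R.KK * xf b β r N.S N.C (k + z) +
      (1 / 5) ^ i * (K * ((if z ≤ N.qR then N.τ else N.τ6) * Real.exp (-(TT b β r / 2))))) * GN β r := by
  have hr := P.rp O
  have L := P.rl O
  have hS := O.kS.1
  have hv1 := P.hv_le O (by rw [← hS]; exact O.R.S) O.v1
  have ht : tk b β r k z = -(β * r) + (k + z) * hh b := rfl
  rw [Xw_C hr (by have := P.hρ; omega) (by have := P.hc; omega)]
  have hg := GN_posW β r
  have hT2 := P.T2 O
  have hv0 := L.v0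
  by_cases hzq : z ≤ N.qR
  · rw [if_pos hzq]
    have h1 := CC_val O.R (P.pR O) L hv1 O.E1 O.Uq.1 O.χq O.χq' ht (P.tU O hk' hzq O.qR O.Uq.2)
    rw [hS] at h1
    refine h1.trans ?_
    apply mul_le_mul_of_nonneg_right _ hg.le
    apply add_le_add le_rfl
    have h2 := ab0_le (s := hv b (β * r) N.S + 4 / 3) (s1 := W.v1 + 4 / 3) (χ := W.χq) (g := W.gq) (e := W.eq)
      (Z := W.θ * r + TT b β r / 2) O.R (P.pR O) (by linarith) (by linarith) (by
        have := mul_le_mul_of_nonneg_left O.gq.1 hr.le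
        linarith) O.gq.2.1 O.gq.2.2
    refine P.abs_le O hi (ab0_nonneg O.R (P.pR O) (by linarith)) h2 ?_
    exact hKq
  · rw [if_neg hzq]
    have h1 := CC_val O.R (P.pR O) L hv1 O.E1 O.U.1 O.χ6 O.χ6' ht (P.tU (q := 0) O hk' hz (by norm_num)
      (by rw [add_zero, mul_one]; exact O.U.2))
    rw [hS] at h1
    refine h1.trans ?_
    apply mul_le_mul_of_nonneg_right _ hg.le
    apply add_le_add le_rfl
    have h2 := ab0_le (s := hv b (β * r) N.S + 4 / 3) (s1 := W.v1 + 4 / 3) (χ := W.χ6) (g := W.g6) (e := W.e6)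
      (Z := W.θ * r + TT b β r / 2) O.R (P.pR O) (by linarith) (by linarith) (by
        have := mul_le_mul_of_nonneg_left O.g6.1 hr.le
        linarith) O.g6.2.1 O.g6.2.2
    refine P.abs_le O hi (ab0_nonneg O.R (P.pR O) (by linarith)) h2 ?_
    exact hK6

/-- windows on the left -/
theorem WP.left_val (O : W.Ok N) (P : WP b β r aw n N W) {k : ℤ} (hk : k ≤ -1) {i : ℕ}
    (hi : aw + b ≤ k → i = 0 ∨ i + 2 ≤ b) {K : ℝ} (hK : W.aKm ≤ K * N.τm) (hK0 : 0 ≤ K * N.τm) {z : ℝ} (hz : z ≤ 0) :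
    ‖Xw b β aw n k (wz b β r z)‖ ≤ (W.L.KK * (1 + W.qm) * xf b β r N.Sm N.Cm (-(k + z)) +
      (1 / 5) ^ i * (K * (N.τm * Real.exp (-(TT b β r / 2))))) * GN β r := by
  have hr := P.rp O
  have L := P.ll O
  have hS := O.kS.2.1
  have hκ := P.kap O
  have hh0 := hh_posW P.hb
  have hpi := Real.pi_pos
  have ht : tk b β r k z = -(β * r) + (k + z) * hh b := rfl
  have hg := GN_posW β r
  have hKK : 0 ≤ W.L.KK := by
    have h1 := O.L.B0p
    have h2 := O.L.L0p
    have h3 : 0 < 1 - W.L.Q := by linarith [O.L.Q1]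
    unfold FC.KK
    positivity
  have hx0 : 0 < xf b β r N.Sm N.Cm (-(k + z)) := Real.exp_pos _
  have hE0 : 0 ≤ (1 / 5 : ℝ) ^ i * (K * (N.τm * Real.exp (-(TT b β r / 2)))) := by
    rw [← mul_assoc K]
    positivity
  have hV0 := L.v0
  have hqm := O.q0.1
  rcases lt_or_ge k (aw + b) with hR | hA
  · rw [Xw_R hr hR]
    have hk1 : (k : ℝ) ≤ ((aw + b - 1 : ℤ) : ℝ) := by exact_mod_cast (by omega : k ≤ aw + b - 1)
    have h2 : (k + z) * hh b ≤ ((aw + b - 1 : ℤ) : ℝ) * hh b := mul_le_mul_of_nonneg_right (by linarith) hh0.le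
    have h3 := P.hρ2
    have h1 := RR_rel O.L (P.pL O) L ht (by
      have : 0 ≤ β * r * (Real.exp (hv b (β * r) N.Sm) / 2) := by positivity
      rw [ht]
      linarith)
    rw [hS] at h1
    refine h1.trans ?_
    apply mul_le_mul_of_nonneg_right _ hg.le
    have h4 : 0 ≤ W.L.KK * W.qm * xf b β r N.Sm N.Cm (-(k + z)) := by positivity
    linarith
  · rw [Xw_A hr hA (by have := P.hc; omega), AA_eq_RR P.hβ hr]
    have hρ1 : aw + b ≤ -1 := by omega
    obtain ⟨hq1, hq2⟩ := P.hqm hρ1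
    have hk1 : (k : ℝ) ≤ -1 := by exact_mod_cast hk
    have h2 : (k + z) * hh b ≤ -1 * hh b := mul_le_mul_of_nonneg_right (by linarith) hh0.le
    have hkk := O.kk.trans P.hk1
    have h1 := RR_val O.L (P.pL O) L (P.VL O) ht (by
      rw [ht]
      linarith [Real.pi_lt_d4])
    have ht2 : tk b β r k z - 2 * Real.pi = -(β * r) + ((k + z) - b) * hh b := by
      have hb : (0 : ℝ) < b := by exact_mod_cast P.hb
      have hbh : (b : ℝ) * hh b = 2 * Real.pi := by unfold hh; field_simp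
      rw [ht]
      linarith
    have h3 := RR_rel O.L (P.pL O) L ht2 (by
      have : 0 ≤ β * r * (Real.exp (hv b (β * r) N.Sm) / 2) := by positivity
      rw [ht]
      linarith)
    rw [hS] at h1 h3
    have e1 : -((k : ℝ) + z - b) = -(k + z) + b := by ring
    have h4 : xf b β r N.Sm N.Cm (-((k : ℝ) + z - b)) ≤ xf b β r N.Sm N.Cm (-(k + z)) * W.qm := by
      rw [e1, xf_add]
      apply mul_le_mul_of_nonneg_left _ hx0.le
      have h5 := ((P.pL O).q_le O.L L.hv).1
      rw [(P.pL O).q_eq O.L L.hv, hS] at h5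
      exact h5.trans hq1
    have h6 := ab0_le (s := -hv b (β * r) N.Sm + 4 / 3) (s1 := 4 / 3) (χ := 0.84) (g := W.gm) (e := W.em)
      (Z := W.θ * r + TT b β r / 2) O.L (P.pL O) (by linarith [P.VL O]) (by linarith) (by
        have := mul_le_mul_of_nonneg_left O.gm.1 hr.le
        have := P.T2 O
        linarith) O.gm.2.1 O.gm.2.2
    have h7 := P.abs_le O (hi hA) (ab0_nonneg O.L (P.pL O) (by linarith [P.VL O])) h6 (K := K) (τ := N.τm) hK
    have h8 := norm_sub_le (RR β r (tk b β r k z)) (RR β r (tk b β r k z - 2 * Real.pi))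
    have h9 := mul_le_mul_of_nonneg_left h4 hKK
    have h10 := mul_le_mul_of_nonneg_right (add_le_add h9 h7) hg.le
    linarith

theorem WC.Ok.KKp (O : W.Ok N) : 0 ≤ W.R.KK ∧ 0 ≤ W.L.KK ∧ 0 ≤ W.Q.KK := by
  have h (F : FC) (H : F.Ok) : 0 ≤ F.KK := by
    have h1 := H.B0p
    have h2 := H.L0p
    have h3 : 0 < 1 - F.Q := by linarith [H.Q1]
    unfold FC.KK
    positivity
  exact ⟨h _ O.R, h _ O.L, h _ O.Q⟩

/-- VALUES of the far windows -/
theorem WP.farH (O : W.Ok N) (O3 : 2 ≤ b → W.Ok3 N) (P : WP b β r aw n N W) : FarH b β r aw n N := by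
  have hr := P.rp O
  have hg := GN_posW β r
  have hpi := Real.pi_pos
  have hb0 : (0 : ℝ) < b := by exact_mod_cast P.hb
  obtain ⟨hKR, hKL, hKQ⟩ := O.KKp
  have haKm : 0 ≤ W.aKm := by
    have h1 := O.L.A.1
    have h2 := O.L.sR.1
    have h3 := O.L.R0p
    have h4 : 0 ≤ W.em := le_trans (Real.exp_pos _).le O.gm.2.2
    have h5 : 0 ≤ W.P5 := by linarith [O.P5.1]
    unfold WC.aKm
    positivity
  refine ⟨?_, ?_, ?_, ?_, ?_⟩
  · -- window 1
    intro z hz
    have L := P.rq O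
    have hS := O.kS.2.2.1
    have hv1 := P.hv_le O (by rw [← hS]; exact O.Q.S) O.vr
    have ht : tk b β r 1 z = -(β * r) + (1 + z) * hh b := by unfold tk; norm_num
    rw [Xw_A hr (by have := P.hρ; omega) (by have := P.hc; omega), AA_eq_CC P.hβ hr]
    have hh0 := hh_posW P.hb
    have hκ := P.kap O
    have h1 := CC_rel O.Q (P.pQ O) L ht (by
      have h2 : 0 ≤ β * r * (Real.exp (-hv b (β * r) N.Sr) / 2) := by positivity
      have h3 := P.hh_le O
      have h4 := O.hk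
      have h5 := P.hk1
      have h6 : (1 + z) * hh b ≤ 1 * hh b := mul_le_mul_of_nonneg_right (by linarith [hz.2]) hh0.le
      rw [ht]
      linarith [Real.pi_gt_d4])
    have hbh : (b : ℝ) * hh b = 2 * Real.pi := by unfold hh; field_simp
    have ht2 : tk b β r 1 z + 2 * Real.pi = -(β * r) + ((1 + z) + b) * hh b := by
      rw [ht]; linarith
    have ht3 : tk b β r 1 z + 2 * Real.pi - Real.pi ≤ W.U * (β * r) := by
      have h2 := P.tU (k := b + 1) (z := z) (q := 0) (U := W.U) O le_rfl hz.2 (by norm_num)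
        (by rw [add_zero, mul_one]; exact O.U.2)
      have e1 : tk b β r ((b : ℤ) + 1) z = tk b β r 1 z + 2 * Real.pi := by
        rw [ht2]; unfold tk; push_cast; ring
      rwa [e1] at h2
    have h3 := CC_val O.Q (P.pQ O) L hv1 O.Er O.U.1 O.χr O.χr' ht2 ht3
    rw [hS] at h1 h3
    have hx0 : 0 < xf b β r N.Sr N.Cr (1 + z) := Real.exp_pos _
    have h4 : xf b β r N.Sr N.Cr ((1 + z) + b) ≤ xf b β r N.Sr N.Cr (1 + z) * W.Q.Q := by
      rw [xf_add]
      apply mul_le_mul_of_nonneg_left _ hx0.le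
      have h5 := ((P.pQ O).q_le O.Q L.hv).1
      rwa [(P.pQ O).q_eq O.Q L.hv, hS] at h5
    have hT := (P.pR O).Tp O.R
    have hv0 := L.v0
    have h6 := ab0_le (s := hv b (β * r) N.Sr + 4 / 3) (s1 := W.vr + 4 / 3) (χ := W.χr) (g := W.gr) (e := W.er)
      (Z := TT b β r * (N.Sr * (1 + z) - N.Cr)) O.Q (P.pQ O) (by linarith) (by linarith) (by
        have k1 := mul_le_mul_of_nonneg_left O.gr.1 hr.le
        have k2 := mul_le_mul_of_nonneg_right (P.T2 O) O.SrCr
        have hSr : 0 < N.Sr := by rw [← hS]; exact O.Q.S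
        have k3 : TT b β r * (N.Sr * (1 + z) - N.Cr) ≤ TT b β r * (N.Sr - N.Cr) := by
          apply mul_le_mul_of_nonneg_left _ hT.le
          have : N.Sr * z ≤ 0 := mul_nonpos_of_nonneg_of_nonpos hSr.le hz.2
          linarith
        linarith) O.gr.2.1 O.gr.2.2
    have h7 : ab0 β r (hv b (β * r) N.Sr + 4 / 3) W.χr ≤ xf b β r N.Sr N.Cr (1 + z) * W.aKr := by
      have e1 : ab0 β r (hv b (β * r) N.Sr + 4 / 3) W.χr = xf b β r N.Sr N.Cr (1 + z) *
          (Real.exp (TT b β r * (N.Sr * (1 + z) - N.Cr)) * ab0 β r (hv b (β * r) N.Sr + 4 / 3) W.χr) := by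
        have : xf b β r N.Sr N.Cr (1 + z) * Real.exp (TT b β r * (N.Sr * (1 + z) - N.Cr)) = 1 := by
          unfold xf
          rw [← Real.exp_add, neg_add_cancel, Real.exp_zero]
        rw [← mul_assoc, this, one_mul]
      rw [e1]
      exact mul_le_mul_of_nonneg_left h6 hx0.le
    have h8 := norm_sub_le (CC β r (tk b β r 1 z)) (CC β r (tk b β r 1 z + 2 * Real.pi))
    have h9 := mul_le_mul_of_nonneg_left h4 hKQ
    have h10 := mul_le_mul_of_nonneg_right (add_le_add h9 h7) hg.le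
    have h11 := mul_le_mul_of_nonneg_right (mul_le_mul_of_nonneg_right O.Kr hx0.le) hg.le
    have e2 : Real.exp (-(TT b β r * (N.Sr * (1 + z) - N.Cr))) = xf b β r N.Sr N.Cr (1 + z) := rfl
    rw [e2]
    linarith
  · -- window 2
    intro _ z hz
    have h1 := P.right_val (k := 2) (i := 0) O le_rfl (by have := P.hb; omega) (Or.inl rfl) O.K2' O.K2'' hz.2
    refine h1.trans ?_
    apply mul_le_mul_of_nonneg_right _ hg.le
    rw [pow_zero, one_mul, Num.W2, mul_add N.K2]
    apply add_le_add _ le_rfl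
    have e1 : Real.exp (-(TT b β r * (N.S * (2 + z) - N.C))) = xf b β r N.S N.C (((2 : ℤ) : ℝ) + z) := by
      unfold xf; norm_num
    rw [e1]
    exact mul_le_mul_of_nonneg_right O.K2 (Real.exp_pos _).le
  · -- windows 3 + i
    intro i hi z hz
    have hmem : (3 + (i : ℤ)) < 2 + b := by
      unfold sw at hi
      rw [Finset.mem_erase, Finset.mem_erase, Finset.mem_Ico, P.hc] at hi
      exact hi.2.2.2
    have O3' := O3 (by omega)
    have h1 := P.right_val (k := 3 + i) (i := i) O (by omega) (by omega) (Or.inr (by omega)) O3'.K3' O3'.K3'' hz.2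
    refine h1.trans ?_
    apply mul_le_mul_of_nonneg_right _ hg.le
    rw [Num.W3, mul_assoc, mul_add N.K3, mul_add ((1 / 5 : ℝ) ^ i)]
    apply add_le_add _ le_rfl
    have e1 : Real.exp (-(TT b β r * (N.S * (3 + z) - N.C))) = xf b β r N.S N.C (3 + z) := rfl
    have e2 : (((3 + i : ℤ)) : ℝ) + z = (3 + z) + i := by push_cast; ring
    rw [e1, e2]
    have h2 := P.gain (C := N.C) (Y := 3 + z) O.ρ5 (by rw [← O.kS.1]; exact O.R.S) i
    have hx0 : 0 < xf b β r N.S N.C (3 + z) := Real.exp_pos _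
    calc W.R.KK * xf b β r N.S N.C (3 + z + i) ≤ W.R.KK * ((1 / 5) ^ i * xf b β r N.S N.C (3 + z)) :=
          mul_le_mul_of_nonneg_left h2 hKR
      _ = (1 / 5) ^ i * (W.R.KK * xf b β r N.S N.C (3 + z)) := by ring
      _ ≤ (1 / 5) ^ i * (N.K3 * xf b β r N.S N.C (3 + z)) := by
          apply mul_le_mul_of_nonneg_left _ (by positivity)
          exact mul_le_mul_of_nonneg_right O3'.K3 hx0.le
  · -- window -1
    intro _ z hz
    have h1 := P.left_val (k := -1) (i := 0) O le_rfl (fun _ => Or.inl rfl) O.Km' (haKm.trans O.Km') hz.2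
    refine h1.trans ?_
    apply mul_le_mul_of_nonneg_right _ hg.le
    rw [pow_zero, one_mul, Num.Wm, mul_add N.Km]
    apply add_le_add _ le_rfl
    have e1 : Real.exp (-(TT b β r * (N.Sm * (1 - z) - N.Cm))) = xf b β r N.Sm N.Cm (-(((-1 : ℤ) : ℝ) + z)) := by
      unfold xf; congr 5; push_cast; ring
    rw [e1]
    exact mul_le_mul_of_nonneg_right O.Km (Real.exp_pos _).le
  · -- windows -2 - i
    intro i hi z hz
    have h1 := P.left_val (k := -2 - i) (i := i) O (by omega) (fun hA => by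
      have := P.hρ3 (by omega)
      right; omega) O.Km2' (haKm.trans O.Km2') hz.2
    refine h1.trans ?_
    apply mul_le_mul_of_nonneg_right _ hg.le
    rw [Num.Wm2, mul_assoc ((1 / 5 : ℝ) ^ i) N.Km2, mul_add N.Km2, mul_add ((1 / 5 : ℝ) ^ i)]
    apply add_le_add _ le_rfl
    have e1 : Real.exp (-(TT b β r * (N.Sm * (2 - z) - N.Cm))) = xf b β r N.Sm N.Cm (2 - z) := rfl
    have e2 : -((((-2 - i : ℤ)) : ℝ) + z) = (2 - z) + i := by push_cast; ring
    rw [e1, e2]
    have h2 := P.gain (C := N.Cm) (Y := 2 - z) O.ρm5 (by rw [← O.kS.2.1]; exact O.L.S) i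
    have hx0 : 0 < xf b β r N.Sm N.Cm (2 - z) := Real.exp_pos _
    have hq := O.q0.1
    calc W.L.KK * (1 + W.qm) * xf b β r N.Sm N.Cm (2 - z + i) ≤
          W.L.KK * (1 + W.qm) * ((1 / 5) ^ i * xf b β r N.Sm N.Cm (2 - z)) :=
          mul_le_mul_of_nonneg_left h2 (by positivity)
      _ = (1 / 5) ^ i * (W.L.KK * (1 + W.qm) * xf b β r N.Sm N.Cm (2 - z)) := by ring
      _ ≤ (1 / 5) ^ i * (N.Km2 * xf b β r N.Sm N.Cm (2 - z)) := by
          apply mul_le_mul_of_nonneg_left _ (by positivity)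
          exact mul_le_mul_of_nonneg_right O.Km2 hx0.le

end

end Sok.R2
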