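import Pool.Agent.Lib.MP_816dec_an.R2WNrm

/-!
MP_816dec_an (row R2, far windows): the bounds of the left and right functions in the normalisation of the classes.
-/

set_option autoImplicit false

open Complex Set Filter Topology MeasureTheory

namespace Sok.R2

section
variable {b : ℕ} {β r : ℝ} {N : FC}

/-- absolute leg, value -/
noncomputable def ab0 (β r s χ : ℝ) : ℝ := nrm β r * (1 / r + s) * Real.exp (-(r * (1 + χ)))

/-- absolute leg, moment -/
noncomputable def ab1 (b : ℕ) (β r s χ : ℝ) : ℝ := uu b β r * nrm β r *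
  (Real.pi * (1 / r + s) + (s / r + (1 / r) ^ 2 + s ^ 2)) * Real.exp (-(r * (1 + χ)))

/-- the exponential factor of a line -/
noncomputable def xf (b : ℕ) (β r S C Y : ℝ) : ℝ := Real.exp (-(TT b β r * (S * Y - C)))

theorem ab0_nonneg (H : N.Ok) (P : Pt b β r N) {s χ : ℝ} (hs : 0 ≤ s) : 0 ≤ ab0 β r s χ := by
  have := P.rp H
  have := nrm_pos (r := r) P.hβ
  unfold ab0; positivity

theorem ab1_nonneg (H : N.Ok) (P : Pt b β r N) {s χ : ℝ} (hs : 0 ≤ s) : 0 ≤ ab1 b β r s χ := by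
  have := P.rp H
  have := nrm_pos (r := r) P.hβ
  have := uu_pos P.hb P.hβ (P.rp H)
  have := Real.pi_pos
  unfold ab1; positivity

theorem expoW (P : Pt b β r N) {C Y X : ℝ}
    (hX : X ≤ r + TT b β r * C - TT b β r * (N.S * Y)) :
    (Real.sqrt (2 * Real.pi * β))⁻¹ * Real.exp X ≤ nrm β r * GN β r * xf b β r N.S C Y := by
  have hpi := Real.pi_pos
  have h1 : Real.exp X ≤ Real.exp r * xf b β r N.S C Y := by
    unfold xf
    rw [← Real.exp_add]
    apply Real.exp_le_exp.2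
    linarith
  have h2 := mul_le_mul_of_nonneg_left h1 (by positivity : 0 ≤ (Real.sqrt (2 * Real.pi * β))⁻¹)
  refine h2.trans (le_of_eq ?_)
  rw [← mul_assoc, nrm_GN P.hβ]

theorem tanTW (H : N.Ok) (P : Pt b β r N) {C m : ℝ}
    (h : (1 + (β * r) ^ 2) * m ≤ hh b ^ 2 * C) : r * m ≤ TT b β r * C := by
  have hr := P.rp H
  unfold TT
  rw [div_mul_eq_mul_div, le_div_iff₀ (by positivity)]
  have := mul_le_mul_of_nonneg_left h hr.le
  linarith

theorem vbhW (P : Pt b β r N) (hr : 0 < r) {v : ℝ} (hv : (1 + (β * r) ^ 2) * v = β * r * (hh b * N.S)) :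
    v / β * hh b = TT b β r * N.S := by
  have hβ := P.hβ
  have hh0 := hh_posW P.hb
  have e1 : v = β * r * (hh b * N.S) / (1 + (β * r) ^ 2) := by
    rw [eq_div_iff (by positivity)]; linarith
  rw [e1]
  unfold TT
  field_simp

/-- combination, value: relative part -/
theorem comb0W (H : N.Ok) (P : Pt b β r N) {Ev w n η v C Y X : ℝ} (G : Geo N r Ev w n η)
    (he : v / β = r * η) (hv : (1 + (β * r) ^ 2) * v = β * r * (hh b * N.S))
    (hX : X ≤ r + TT b β r * C - TT b β r * (N.S * Y)) :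
    (Real.sqrt (2 * Real.pi * β))⁻¹ * (Real.exp X * R0c β v w (r * n)) ≤
      N.B0 / (1 - N.Q) * xf b β r N.S C Y * GN β r ∧
    (Real.sqrt (2 * Real.pi * β))⁻¹ * (Real.exp X * (lg r Ev n η w * (2 / (r * Ev)))) ≤
      N.L0 * xf b β r N.S C Y * GN β r := by
  have hr := P.rp H
  have hEv : 0 < Ev := lt_of_lt_of_le H.E.1 G.hE
  have hx0 : 0 < xf b β r N.S C Y := Real.exp_pos _
  have hg := GN_posW β r
  have h1 := expoW P hX
  obtain ⟨h2, h3⟩ := R0c_le H P G he hv
  have h4 := (leg_le H P G).1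
  have h5 : 0 ≤ lg r Ev n η w * (2 / (r * Ev)) := by
    have : 0 < lg r Ev n η w := Real.exp_pos _
    positivity
  constructor
  · have k1 := mul_le_mul_of_nonneg_right h1 h2
    have k2 := mul_le_mul_of_nonneg_right h3 (by positivity : 0 ≤ xf b β r N.S C Y * GN β r)
    nlinarith
  · have k1 := mul_le_mul_of_nonneg_right h1 h5
    have k2 := mul_le_mul_of_nonneg_right h4 (by positivity : 0 ≤ xf b β r N.S C Y * GN β r)
    nlinarith

/-- combination, moment: relative part -/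
theorem comb1W (H : N.Ok) (P : Pt b β r N) {Ev w n η v C Y X d D : ℝ} (G : Geo N r Ev w n η)
    (he : v / β = r * η) (hv : (1 + (β * r) ^ 2) * v = β * r * (hh b * N.S))
    (hX : X ≤ r + TT b β r * C - TT b β r * (N.S * Y)) (hd : 0 ≤ d) (hD : uu b β r * d ≤ D) :
    uu b β r * ((Real.sqrt (2 * Real.pi * β))⁻¹ * (Real.exp X * (d * R0c β v w (r * n) + R1c β v w (r * n)))) ≤
      (D * (N.B0 / (1 - N.Q)) + (N.B1 / (1 - N.Q) + 6.2832 * N.UQ * N.B0 / (1 - N.Q) ^ 2)) *
        xf b β r N.S C Y * GN β r ∧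
    uu b β r * ((Real.sqrt (2 * Real.pi * β))⁻¹ * (Real.exp X *
      (lg r Ev n η w * ((Real.pi + d) * (2 / (r * Ev)) + (2 / (r * Ev)) ^ 2)))) ≤
      (D * N.L0 + N.L1) * xf b β r N.S C Y * GN β r := by
  have hpi := Real.pi_pos
  have hr := P.rp H
  have hEv : 0 < Ev := lt_of_lt_of_le H.E.1 G.hE
  have hx0 : 0 < xf b β r N.S C Y := Real.exp_pos _
  have hg := GN_posW β r
  have hu := uu_pos P.hb P.hβ hr
  have hn := nrm_pos (r := r) P.hβ
  have h1 := mul_le_mul_of_nonneg_left (expoW P hX) hu.le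
  obtain ⟨h2, h3⟩ := R0c_le H P G he hv
  obtain ⟨h2', h3'⟩ := R1c_le H P G he hv
  obtain ⟨h4, h4'⟩ := leg_le H P G
  have hlg : 0 < lg r Ev n η w := Real.exp_pos _
  have hxg : 0 ≤ xf b β r N.S C Y * GN β r := by positivity
  have hD0 : 0 ≤ D := le_trans (by positivity) hD
  constructor
  · have k1 := mul_le_mul_of_nonneg_right h1 (by positivity : 0 ≤ d * R0c β v w (r * n) + R1c β v w (r * n))
    have k2 : (uu b β r * d) * (nrm β r * R0c β v w (r * n)) ≤ D * (N.B0 / (1 - N.Q)) :=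
      mul_le_mul hD h3 (by positivity) hD0
    have k3 := mul_le_mul_of_nonneg_right (add_le_add k2 h3') hxg
    nlinarith
  · have k0 : 0 ≤ lg r Ev n η w * ((Real.pi + d) * (2 / (r * Ev)) + (2 / (r * Ev)) ^ 2) := by positivity
    have k1 := mul_le_mul_of_nonneg_right h1 k0
    have k2 : (uu b β r * d) * (nrm β r * (lg r Ev n η w * (2 / (r * Ev)))) ≤ D * N.L0 :=
      mul_le_mul hD h4 (by positivity) hD0
    have k3 := mul_le_mul_of_nonneg_right (add_le_add k2 h4') hxg
    nlinarith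

theorem abs0W (P : Pt b β r N) {s χ : ℝ} :
    (Real.sqrt (2 * Real.pi * β))⁻¹ * ((1 / r + s) * Real.exp (-(r * χ))) = ab0 β r s χ * GN β r := by
  have h1 : Real.exp (-(r * χ)) = Real.exp r * Real.exp (-(r * (1 + χ))) := by
    rw [← Real.exp_add]; congr 1; ring
  have h2 := nrm_GN (r := r) P.hβ
  unfold ab0
  rw [h1]
  calc (Real.sqrt (2 * Real.pi * β))⁻¹ * ((1 / r + s) * (Real.exp r * Real.exp (-(r * (1 + χ))))) =
      ((Real.sqrt (2 * Real.pi * β))⁻¹ * Real.exp r) * (1 / r + s) * Real.exp (-(r * (1 + χ))) := by ring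
    _ = _ := by rw [h2]; ring

theorem abs1W (H : N.Ok) (P : Pt b β r N) {s χ d D : ℝ} (hs : 0 ≤ s) (hD : uu b β r * d ≤ D) :
    uu b β r * ((Real.sqrt (2 * Real.pi * β))⁻¹ * (((Real.pi + d) * (1 / r + s) + (s / r + (1 / r) ^ 2 + s ^ 2)) *
      Real.exp (-(r * χ)))) ≤ (D * ab0 β r s χ + ab1 b β r s χ) * GN β r := by
  have hr := P.rp H
  have h1 : Real.exp (-(r * χ)) = Real.exp r * Real.exp (-(r * (1 + χ))) := by
    rw [← Real.exp_add]; congr 1; ring
  have h2 := nrm_GN (r := r) P.hβ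
  have h0 := ab0_nonneg (χ := χ) H P hs
  have hg := GN_posW β r
  have h3 := mul_le_mul_of_nonneg_right hD (mul_nonneg h0 hg.le)
  have e1 : uu b β r * ((Real.sqrt (2 * Real.pi * β))⁻¹ * (((Real.pi + d) * (1 / r + s) +
      (s / r + (1 / r) ^ 2 + s ^ 2)) * Real.exp (-(r * χ)))) =
      uu b β r * d * (ab0 β r s χ * GN β r) + ab1 b β r s χ * GN β r := by
    unfold ab0 ab1
    rw [h1]
    calc uu b β r * ((Real.sqrt (2 * Real.pi * β))⁻¹ * (((Real.pi + d) * (1 / r + s) +
          (s / r + (1 / r) ^ 2 + s ^ 2)) * (Real.exp r * Real.exp (-(r * (1 + χ)))))) =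
        ((Real.sqrt (2 * Real.pi * β))⁻¹ * Real.exp r) * (uu b β r * ((Real.pi + d) * (1 / r + s) +
          (s / r + (1 / r) ^ 2 + s ^ 2)) * Real.exp (-(r * (1 + χ)))) := by ring
      _ = _ := by rw [h2]; ring
  rw [e1]
  linarith

/-! ### right -/

/-- the line on the right -/
structure RL (b : ℕ) (β r : ℝ) (N : FC) (C v : ℝ) : Prop where
  v0 : 0 < v
  hv : (1 + (β * r) ^ 2) * v = β * r * (hh b * N.S)
  hI : Iy (β * r) v
  tan : (1 + (β * r) ^ 2) * (Mv (β * r) v + v - 1) ≤ hh b ^ 2 * C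
  hE : N.E ≤ Real.exp (-v)
  hη : v / (β * r) ≤ N.η1

/-- the angle of the line -/
noncomputable def wv (κ v : ℝ) : ℝ := Real.arctan (v / Xk κ v)

theorem RL.geo {C v : ℝ} (P : Pt b β r N) (L : RL b β r N C v) :
    Geo N r (Real.exp (-v)) (wv (β * r) v) (Xk (β * r) v / (β * r)) (v / (β * r)) := by
  have hx := L.hI.xpos
  have hk := L.hI.kpos
  obtain ⟨h1, h2⟩ := Mv_spec L.hI
  have h3 : Real.exp (-v) * Real.exp v = 1 := by rw [← Real.exp_add, neg_add_cancel, Real.exp_zero]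
  refine ⟨P.hR, L.hE, ?_, Real.arctan_lt_pi_div_two _, ?_, ?_, L.hη⟩
  · unfold wv
    rw [Real.arctan_nonneg]
    exact div_nonneg L.v0.le hx.le
  · unfold wv
    rw [div_eq_iff hk.ne']
    calc Xk (β * r) v = (Xk (β * r) v * Real.exp v) * Real.exp (-v) := by rw [mul_assoc, mul_comm (Real.exp v), h3, mul_one]
      _ = _ := by rw [← h2]; ring
  · unfold wv
    rw [div_eq_iff hk.ne']
    calc v = (v * Real.exp v) * Real.exp (-v) := by rw [mul_assoc, mul_comm (Real.exp v), h3, mul_one]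
      _ = _ := by rw [← h1]; ring

theorem RL.lin {C v : ℝ} (H : N.Ok) (P : Pt b β r N) (L : RL b β r N C v) :
    WLin β r v (wv (β * r) v) (r * (Xk (β * r) v / (β * r))) := by
  have G := L.geo P
  have hr := P.rp H
  have hβ := P.hβ
  have hpi := Real.pi_pos
  have he : v / β = r * (v / (β * r)) := by field_simp
  refine ⟨hβ, hr, L.v0, G.hw, G.hw', (Mv_spec L.hI).1, by rw [G.hn], ?_, ?_, ?_⟩
  · rw [he]; exact lt_of_lt_of_le (mul_pos hr H.ν) (G.nu_ge H)
  · rw [he]; exact lt_of_lt_of_le (mul_pos hr H.c) (G.ca_ge H)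
  · rw [he]
    have h1 : Real.pi / 2 * (v / (β * r)) ≤ Real.exp (-v) := by
      have h2 : Real.pi / 2 * (v / (β * r)) ≤ 1.5708 * N.η1 :=
        mul_le_mul (by linarith [Real.pi_lt_d4]) L.hη (G.η0 H) (by norm_num)
      linarith [H.mono, L.hE]
    have h3 := mul_le_mul_of_nonneg_left h1 hr.le
    linarith

theorem RL.expo {C v t y : ℝ} (H : N.Ok) (P : Pt b β r N) (L : RL b β r N C v)
    (ht : t = -(β * r) + y * hh b) :
    r * (Xk (β * r) v / (β * r)) + v / β * (wv (β * r) v - t) ≤ r + TT b β r * C - TT b β r * (N.S * y) := by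
  have hr := P.rp H
  have hβ := P.hβ
  have h1 := tanTW H P L.tan
  have h2 := vbhW P hr L.hv
  have e1 : r * (Xk (β * r) v / (β * r)) + v / β * (wv (β * r) v - t) =
      r * Mv (β * r) v + r * v - (v / β * hh b) * y := by
    rw [ht]
    unfold Mv wv
    field_simp
    ring
  rw [e1, h2]
  linarith

theorem leg_splitW {β r v t w n η : ℝ} (hη : v / β = r * η) :
    Real.exp (-(t * v / β)) * Real.exp (Real.pi * v / β - r * Real.exp (-v)) =
      Real.exp (r * n + v / β * (w - t)) * lg r (Real.exp (-v)) n η w := by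
  have e1 : t * v / β = t * (v / β) := by ring
  have e2 : Real.pi * v / β = Real.pi * (v / β) := by ring
  unfold lg
  rw [← Real.exp_add, ← Real.exp_add, e1, e2, hη]
  congr 1
  ring

/-- VALUE on the right, no leg above the valley -/
theorem CC_rel {C v t y : ℝ} (H : N.Ok) (P : Pt b β r N) (L : RL b β r N C v)
    (ht : t = -(β * r) + y * hh b) (ht' : t - Real.pi ≤ β * r * (Real.exp (-v) / 2)) :
    ‖CC β r t‖ ≤ N.KK * xf b β r N.S C y * GN β r := by
  have hr := P.rp H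
  have hβ := P.hβ
  have hpi := Real.pi_pos
  have he : v / β = r * (v / (β * r)) := by field_simp
  obtain ⟨h1, h2⟩ := comb0W H P (L.geo P) he L.hv (L.expo H P ht)
  have h3 := CC_lin (t := t) (L.lin H P)
  have h4 := Leg_rel hβ hr ht'
  rw [← mul_assoc, leg_splitW (w := wv (β * r) v) (n := Xk (β * r) v / (β * r)) he] at h4
  have h5 := mul_le_mul_of_nonneg_left h4 (by positivity : 0 ≤ (Real.sqrt (2 * Real.pi * β))⁻¹)
  unfold FC.KK
  rw [mul_add] at h3
  nlinarith

/-- VALUE on the right, leg above the valley -/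
theorem CC_abs {C v t y χ : ℝ} (H : N.Ok) (P : Pt b β r N) (L : RL b β r N C v)
    (ht : t = -(β * r) + y * hh b) (ht1 : Real.pi < t) (ht2 : t - Real.pi ≤ 2.79 * (β * r))
    (hχ : (t - Real.pi) / (β * r) * (Real.log ((t - Real.pi) / (β * r)) - 1) ≤ -χ) :
    ‖CC β r t‖ ≤ (N.KK * xf b β r N.S C y + ab0 β r (v + 4 / 3) χ) * GN β r := by
  have hr := P.rp H
  have hβ := P.hβ
  have hpi := Real.pi_pos
  have he : v / β = r * (v / (β * r)) := by field_simp
  obtain ⟨h1, h2⟩ := comb0W H P (L.geo P) he L.hv (L.expo H P ht)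
  have h3 := CC_lin (t := t) (L.lin H P)
  have h4 := Leg_abs (v := v) hβ hr ht1 ht2 (by linarith [L.v0]) hχ
  have h5 := mul_le_mul_of_nonneg_left h4 (by positivity : 0 ≤ (Real.sqrt (2 * Real.pi * β))⁻¹)
  rw [abs0W P] at h5
  have h6 : 0 ≤ N.L0 * xf b β r N.S C y * GN β r := by
    have := H.L0p
    have := GN_posW β r
    have : 0 < xf b β r N.S C y := Real.exp_pos _
    positivity
  unfold FC.KK
  rw [mul_add] at h3
  nlinarith

theorem Aw_leW {w d : ℝ} (hw : 0 ≤ w) (hw' : w < Real.pi / 2) : |Real.pi - w| + d ≤ Real.pi + d := by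
  have := Real.pi_pos
  rw [abs_of_nonneg (by linarith)]
  linarith

/-- MOMENT on the right, no leg above the valley -/
theorem CC_rel_mom {C v t y d D : ℝ} (H : N.Ok) (P : Pt b β r N) (L : RL b β r N C v)
    (ht : t = -(β * r) + y * hh b) (ht' : t - Real.pi ≤ β * r * (Real.exp (-v) / 2)) (Λ : ℂ)
    (hd : |wv (β * r) v - t - Λ.re| + |v - Λ.im| ≤ d) (hD : uu b β r * d ≤ D) :
    hh b / TT b β r * ‖ew β r t * CC β r (t + β) - Λ / β * CC β r t‖ ≤
      (D * N.KK + N.JJ) * xf b β r N.S C y * GN β r := by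
  have hr := P.rp H
  have hβ := P.hβ
  have hpi := Real.pi_pos
  have G := L.geo P
  have hd0 : 0 ≤ d := le_trans (by positivity) hd
  have he : v / β = r * (v / (β * r)) := by field_simp
  obtain ⟨h1, h2⟩ := comb1W H P G he L.hv (L.expo H P ht) hd0 hD
  have hA : |Real.pi - wv (β * r) v| + d ≤ Real.pi + d := Aw_leW G.hw G.hw'
  have h4 : ∀ z ≤ v, LegW β r t Real.pi z v (|Real.pi - wv (β * r) v| + d) ≤
      Real.exp (r * (Xk (β * r) v / (β * r)) + v / β * (wv (β * r) v - t)) *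
        (lg r (Real.exp (-v)) (Xk (β * r) v / (β * r)) (v / (β * r)) (wv (β * r) v) *
          ((Real.pi + d) * (2 / (r * Real.exp (-v))) + (2 / (r * Real.exp (-v))) ^ 2)) := by
    intro z hz
    refine (LegW_rel hβ hr ht' (by positivity) hz).trans ?_
    rw [← mul_assoc, leg_splitW (w := wv (β * r) v) (n := Xk (β * r) v / (β * r)) he, mul_assoc]
    apply mul_le_mul_of_nonneg_left _ (Real.exp_pos _).le
    apply mul_le_mul_of_nonneg_left _ (Real.exp_pos _).le
    have : 0 ≤ 2 / (r * Real.exp (-v)) := by positivity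
    have := mul_le_mul_of_nonneg_right hA this
    linarith
  have h3 := CC_lin_mom (L.lin H P) Λ hd h4
  have hT : 0 < hh b / TT b β r := div_pos (hh_posW P.hb) (P.Tp H)
  have h5 := mul_le_mul_of_nonneg_left h3 hT.le
  refine h5.trans ?_
  have e1 : ∀ x y z : ℝ, hh b / TT b β r * (x * (β⁻¹ * (y + z))) = uu b β r * (x * y) + uu b β r * (x * z) := by
    intro x y z
    rw [← hT_uu P.hb hβ hr]; ring
  rw [e1]
  refine (add_le_add h1 h2).trans (le_of_eq ?_)
  unfold FC.KK FC.JJ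
  ring

/-- MOMENT on the right, leg above the valley -/
theorem CC_abs_mom {C v t y χ d D : ℝ} (H : N.Ok) (P : Pt b β r N) (L : RL b β r N C v)
    (ht : t = -(β * r) + y * hh b) (ht1 : Real.pi < t) (ht2 : t - Real.pi ≤ 2.79 * (β * r))
    (hχ : (t - Real.pi) / (β * r) * (Real.log ((t - Real.pi) / (β * r)) - 1) ≤ -χ) (Λ : ℂ)
    (hd : |wv (β * r) v - t - Λ.re| + |v - Λ.im| ≤ d) (hD : uu b β r * d ≤ D) :
    hh b / TT b β r * ‖ew β r t * CC β r (t + β) - Λ / β * CC β r t‖ ≤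
      ((D * N.KK + N.JJ) * xf b β r N.S C y + (D * ab0 β r (v + 4 / 3) χ + ab1 b β r (v + 4 / 3) χ)) * GN β r := by
  have hr := P.rp H
  have hβ := P.hβ
  have hpi := Real.pi_pos
  have G := L.geo P
  have hv0 := L.v0
  have hd0 : 0 ≤ d := le_trans (by positivity) hd
  have hu := uu_pos P.hb P.hβ hr
  have hD0 : 0 ≤ D := le_trans (by positivity) hD
  have he : v / β = r * (v / (β * r)) := by field_simp
  obtain ⟨h1, -⟩ := comb1W H P G he L.hv (L.expo H P ht) hd0 hD
  have h2 := abs1W (χ := χ) H P (by linarith : 0 ≤ v + 4 / 3) hD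
  have hA : |Real.pi - wv (β * r) v| + d ≤ Real.pi + d := Aw_leW G.hw G.hw'
  have h4 : ∀ z ≤ v, LegW β r t Real.pi z v (|Real.pi - wv (β * r) v| + d) ≤
      ((Real.pi + d) * (1 / r + (v + 4 / 3)) + ((v + 4 / 3) / r + (1 / r) ^ 2 + (v + 4 / 3) ^ 2)) *
        Real.exp (-(r * χ)) := by
    intro z hz
    refine (LegW_abs hβ hr ht1 ht2 (by linarith) hχ (by positivity) hz).trans ?_
    apply mul_le_mul_of_nonneg_right _ (Real.exp_pos _).le
    have : 0 ≤ 1 / r + (v + 4 / 3) := by positivity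
    have := mul_le_mul_of_nonneg_right hA this
    linarith
  have h3 := CC_lin_mom (L.lin H P) Λ hd h4
  have hT : 0 < hh b / TT b β r := div_pos (hh_posW P.hb) (P.Tp H)
  have h5 := mul_le_mul_of_nonneg_left h3 hT.le
  refine h5.trans ?_
  have e1 : ∀ x y z : ℝ, hh b / TT b β r * (x * (β⁻¹ * (y + z))) = uu b β r * (x * y) + uu b β r * (x * z) := by
    intro x y z
    rw [← hT_uu P.hb hβ hr]; ring
  rw [e1]
  have h6 : 0 ≤ (D * N.L0 + N.L1) * xf b β r N.S C y * GN β r := by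
    have := H.L0p
    have := H.L1p
    have := GN_posW β r
    have : 0 < xf b β r N.S C y := Real.exp_pos _
    positivity
  unfold FC.KK FC.JJ
  linarith

end

end Sok.R2
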