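import Pool.Agent.Lib.MP_816dec_an.R2WFin

/-!
MP_816dec_an (row R2, far windows): the bounds of the right function `RR` (lines below the axis).
-/

set_option autoImplicit false

open Complex Set Filter Topology MeasureTheory

namespace Sok.R2

section
variable {b : ℕ} {β r : ℝ} {N : FC}

/-- the line on the left, at height `-V` -/
structure LL (b : ℕ) (β r : ℝ) (N : FC) (C V : ℝ) : Prop where
  v0 : 0 < V
  hv : (1 + (β * r) ^ 2) * V = β * r * (hh b * N.S)
  tan : (1 + (β * r) ^ 2) * (Mv (β * r) (-V) + -V - 1) ≤ hh b ^ 2 * C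
  hE : N.E ≤ Real.exp V
  hη : V / (β * r) ≤ N.η1

/-- the angle of the line -/
noncomputable def wl (κ V : ℝ) : ℝ := Real.arctan (V / Xk κ (-V))

theorem wl_eq (κ V : ℝ) : wl κ V = -Real.arctan (-V / Xk κ (-V)) := by
  unfold wl
  rw [neg_div, Real.arctan_neg, neg_neg]

theorem LL.iy {C V : ℝ} (H : N.Ok) (P : Pt b β r N) (L : LL b β r N C V) : Iy (β * r) (-V) :=
  Iy_neg (H.k1.trans P.hk1) (by linarith [L.v0])

theorem LL.geo {C V : ℝ} (H : N.Ok) (P : Pt b β r N) (L : LL b β r N C V) :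
    Geo N r (Real.exp V) (wl (β * r) V) (Xk (β * r) (-V) / (β * r)) (V / (β * r)) := by
  have hI := L.iy H P
  have hx := hI.xpos
  have hk := hI.kpos
  obtain ⟨h1, h2⟩ := Mv_spec hI
  have h3 : Real.exp V * Real.exp (-V) = 1 := by rw [← Real.exp_add, add_neg_cancel, Real.exp_zero]
  refine ⟨P.hR, L.hE, ?_, Real.arctan_lt_pi_div_two _, ?_, ?_, L.hη⟩
  · unfold wl
    rw [Real.arctan_nonneg]
    exact div_nonneg L.v0.le hx.le
  · rw [wl_eq, Real.cos_neg, div_eq_iff hk.ne']
    calc Xk (β * r) (-V) = (Xk (β * r) (-V) * Real.exp (-V)) * Real.exp V := by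
          rw [mul_assoc, mul_comm (Real.exp (-V)), h3, mul_one]
      _ = _ := by rw [← h2]; ring
  · rw [wl_eq, Real.sin_neg, div_eq_iff hk.ne']
    calc V = (V * Real.exp (-V)) * Real.exp V := by rw [mul_assoc, mul_comm (Real.exp (-V)), h3, mul_one]
      _ = -(-V * Real.exp (-V)) * Real.exp V := by ring
      _ = _ := by rw [← h1]; ring

theorem LL.lin {C V : ℝ} (H : N.Ok) (P : Pt b β r N) (L : LL b β r N C V) :
    WLin β (r * Real.exp (2 * V)) V (wl (β * r) V) (r * (Xk (β * r) (-V) / (β * r))) := by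
  have G := L.geo H P
  have hI := L.iy H P
  have hr := P.rp H
  have hβ := P.hβ
  have hpi := Real.pi_pos
  have he : V / β = r * (V / (β * r)) := by field_simp
  have h3 : Real.exp (2 * V) * Real.exp (-V) = Real.exp V := by rw [← Real.exp_add]; congr 1; ring
  refine ⟨hβ, by positivity, L.v0, G.hw, G.hw', ?_, ?_, ?_, ?_, ?_⟩
  · have h1 := (Mv_spec hI).1
    rw [wl_eq, Real.sin_neg]
    calc β * (r * Real.exp (2 * V)) * -Real.sin (Real.arctan (-V / Xk (β * r) (-V))) =
        -(β * r * Real.sin (Real.arctan (-V / Xk (β * r) (-V)))) * Real.exp (2 * V) := by ring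
      _ = V * (Real.exp (2 * V) * Real.exp (-V)) := by rw [h1]; ring
      _ = _ := by rw [h3]
  · rw [G.hn]
    calc r * (Real.exp V * Real.cos (wl (β * r) V)) =
        r * ((Real.exp (2 * V) * Real.exp (-V)) * Real.cos (wl (β * r) V)) := by rw [h3]
      _ = _ := by ring
  · rw [he]; exact lt_of_lt_of_le (mul_pos hr H.ν) (G.nu_ge H)
  · rw [he]; exact lt_of_lt_of_le (mul_pos hr H.c) (G.ca_ge H)
  · rw [he, mul_assoc, h3]
    have h1 : Real.pi / 2 * (V / (β * r)) ≤ Real.exp V := by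
      have h2 : Real.pi / 2 * (V / (β * r)) ≤ 1.5708 * N.η1 :=
        mul_le_mul (by linarith [Real.pi_lt_d4]) L.hη (G.η0 H) (by norm_num)
      linarith [H.mono, L.hE]
    have h4 := mul_le_mul_of_nonneg_left h1 hr.le
    linarith

theorem LL.expo {C V t y : ℝ} (H : N.Ok) (P : Pt b β r N) (L : LL b β r N C V)
    (ht : t = -(β * r) + y * hh b) :
    r * (Xk (β * r) (-V) / (β * r)) + V / β * (wl (β * r) V + t) ≤
      r + TT b β r * C - TT b β r * (N.S * (-y)) := by
  have hr := P.rp H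
  have hβ := P.hβ
  have h1 := tanTW H P L.tan
  have h2 := vbhW P hr L.hv
  have e1 : r * (Xk (β * r) (-V) / (β * r)) + V / β * (wl (β * r) V + t) =
      r * Mv (β * r) (-V) - r * V + (V / β * hh b) * y := by
    rw [ht]
    unfold Mv
    rw [wl_eq]
    field_simp
    ring
  rw [e1, h2]
  linarith

theorem leg_splitL {β r V t w n η : ℝ} (hη : V / β = r * η) :
    Real.exp (-((t + 2 * Real.pi) * -V / β)) * Real.exp (Real.pi * -V / β - r * Real.exp V) =
      Real.exp (r * n + V / β * (w + t)) * lg r (Real.exp V) n η w := by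
  have e1 : (t + 2 * Real.pi) * -V / β = -((t + 2 * Real.pi) * (V / β)) := by ring
  have e2 : Real.pi * -V / β = -(Real.pi * (V / β)) := by ring
  unfold lg
  rw [← Real.exp_add, ← Real.exp_add, e1, e2, hη]
  congr 1
  ring

/-- VALUE on the left, no leg above the valley -/
theorem RR_rel {C V t y : ℝ} (H : N.Ok) (P : Pt b β r N) (L : LL b β r N C V)
    (ht : t = -(β * r) + y * hh b) (ht' : t + Real.pi ≤ β * r * (Real.exp V / 2)) :
    ‖RR β r t‖ ≤ N.KK * xf b β r N.S C (-y) * GN β r := by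
  have hr := P.rp H
  have hβ := P.hβ
  have hpi := Real.pi_pos
  have he : V / β = r * (V / (β * r)) := by field_simp
  obtain ⟨h1, h2⟩ := comb0W H P (L.geo H P) he L.hv (L.expo H P ht)
  have h3 := RR_lin (t := t) hr (L.lin H P)
  have h4 := Leg_rel (t := t + 2 * Real.pi) (v := -V) hβ hr (by rw [neg_neg]; linarith)
  rw [neg_neg, ← Leg_shift, ← mul_assoc, leg_splitL (w := wl (β * r) V) (n := Xk (β * r) (-V) / (β * r)) he] at h4
  have h5 := mul_le_mul_of_nonneg_left h4 (by positivity : 0 ≤ (Real.sqrt (2 * Real.pi * β))⁻¹)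
  unfold FC.KK
  rw [mul_add] at h3
  nlinarith

/-- VALUE on the left, leg above the valley -/
theorem RR_abs {C V t y χ : ℝ} (H : N.Ok) (P : Pt b β r N) (L : LL b β r N C V) (hV : V ≤ 4 / 3)
    (ht : t = -(β * r) + y * hh b) (ht1 : 0 < t + Real.pi) (ht2 : t + Real.pi ≤ 2.79 * (β * r))
    (hχ : (t + Real.pi) / (β * r) * (Real.log ((t + Real.pi) / (β * r)) - 1) ≤ -χ) :
    ‖RR β r t‖ ≤ (N.KK * xf b β r N.S C (-y) + ab0 β r (-V + 4 / 3) χ) * GN β r := by
  have hr := P.rp H
  have hβ := P.hβ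
  have hpi := Real.pi_pos
  have he : V / β = r * (V / (β * r)) := by field_simp
  obtain ⟨h1, h2⟩ := comb0W H P (L.geo H P) he L.hv (L.expo H P ht)
  have h3 := RR_lin (t := t) hr (L.lin H P)
  have e0 : t + 2 * Real.pi - Real.pi = t + Real.pi := by ring
  have h4 := Leg_abs (t := t + 2 * Real.pi) (v := -V) (χ := χ) hβ hr (by linarith) (by rw [e0]; exact ht2)
    (by linarith) (by rw [e0]; exact hχ)
  rw [← Leg_shift] at h4
  have h5 := mul_le_mul_of_nonneg_left h4 (by positivity : 0 ≤ (Real.sqrt (2 * Real.pi * β))⁻¹)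
  rw [abs0W P] at h5
  have h6 : 0 ≤ N.L0 * xf b β r N.S C (-y) * GN β r := by
    have := H.L0p
    have := GN_posW β r
    have : 0 < xf b β r N.S C (-y) := Real.exp_pos _
    positivity
  unfold FC.KK
  rw [mul_add] at h3
  nlinarith

theorem Aw_leL {w d : ℝ} (hw : 0 ≤ w) (hw' : w < Real.pi / 2) : |-Real.pi - -w| + d ≤ Real.pi + d := by
  have := Real.pi_pos
  rw [show -Real.pi - -w = -(Real.pi - w) by ring, abs_neg, abs_of_nonneg (by linarith)]
  linarith

/-- MOMENT on the left, no leg above the valley -/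
theorem RR_rel_mom {C V t y d D : ℝ} (H : N.Ok) (P : Pt b β r N) (L : LL b β r N C V)
    (ht : t = -(β * r) + y * hh b) (ht' : t + Real.pi ≤ β * r * (Real.exp V / 2)) (Λ : ℂ)
    (hd : |-wl (β * r) V - t - Λ.re| + |-V - Λ.im| ≤ d) (hD : uu b β r * d ≤ D) :
    hh b / TT b β r * ‖ew β r t * RR β r (t + β) - Λ / β * RR β r t‖ ≤
      (D * N.KK + N.JJ) * xf b β r N.S C (-y) * GN β r := by
  have hr := P.rp H
  have hβ := P.hβ
  have hpi := Real.pi_pos
  have G := L.geo H P
  have hd0 : 0 ≤ d := le_trans (by positivity) hd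
  have he : V / β = r * (V / (β * r)) := by field_simp
  obtain ⟨h1, h2⟩ := comb1W H P G he L.hv (L.expo H P ht) hd0 hD
  have hA : |-Real.pi - -wl (β * r) V| + d ≤ Real.pi + d := Aw_leL G.hw G.hw'
  have h4 : ∀ z ≤ -V, LegW β r t (-Real.pi) z (-V) (|-Real.pi - -wl (β * r) V| + d) ≤
      Real.exp (r * (Xk (β * r) (-V) / (β * r)) + V / β * (wl (β * r) V + t)) *
        (lg r (Real.exp V) (Xk (β * r) (-V) / (β * r)) (V / (β * r)) (wl (β * r) V) *
          ((Real.pi + d) * (2 / (r * Real.exp V)) + (2 / (r * Real.exp V)) ^ 2)) := by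
    intro z hz
    have k1 := LegW_rel (t := t + 2 * Real.pi) (v := -V) (A := |-Real.pi - -wl (β * r) V| + d) hβ hr
      (by rw [neg_neg]; linarith) (by positivity) hz
    rw [neg_neg, ← LegW_shift, ← mul_assoc,
      leg_splitL (w := wl (β * r) V) (n := Xk (β * r) (-V) / (β * r)) he, mul_assoc] at k1
    refine k1.trans ?_
    apply mul_le_mul_of_nonneg_left _ (Real.exp_pos _).le
    apply mul_le_mul_of_nonneg_left _ (Real.exp_pos _).le
    have : 0 ≤ 2 / (r * Real.exp V) := by positivity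
    have := mul_le_mul_of_nonneg_right hA this
    linarith
  have h3 := RR_lin_mom hr (L.lin H P) Λ hd h4
  have hT : 0 < hh b / TT b β r := div_pos (hh_posW P.hb) (P.Tp H)
  have h5 := mul_le_mul_of_nonneg_left h3 hT.le
  refine h5.trans ?_
  have e1 : ∀ x y z : ℝ, hh b / TT b β r * (x * (β⁻¹ * (y + z))) = uu b β r * (x * y) + uu b β r * (x * z) := by
    intro x y z
    rw [← hT_uu P.hb hβ hr]; ring
  rw [e1]
  refine (add_le_add h1 h2).trans (le_of_eq ?_)
  unfold FC.KK FC.JJ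
  ring

/-- MOMENT on the left, leg above the valley -/
theorem RR_abs_mom {C V t y χ d D : ℝ} (H : N.Ok) (P : Pt b β r N) (L : LL b β r N C V) (hV : V ≤ 4 / 3)
    (ht : t = -(β * r) + y * hh b) (ht1 : 0 < t + Real.pi) (ht2 : t + Real.pi ≤ 2.79 * (β * r))
    (hχ : (t + Real.pi) / (β * r) * (Real.log ((t + Real.pi) / (β * r)) - 1) ≤ -χ) (Λ : ℂ)
    (hd : |-wl (β * r) V - t - Λ.re| + |-V - Λ.im| ≤ d) (hD : uu b β r * d ≤ D) :
    hh b / TT b β r * ‖ew β r t * RR β r (t + β) - Λ / β * RR β r t‖ ≤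
      ((D * N.KK + N.JJ) * xf b β r N.S C (-y) +
        (D * ab0 β r (-V + 4 / 3) χ + ab1 b β r (-V + 4 / 3) χ)) * GN β r := by
  have hr := P.rp H
  have hβ := P.hβ
  have hpi := Real.pi_pos
  have G := L.geo H P
  have hv0 := L.v0
  have hd0 : 0 ≤ d := le_trans (by positivity) hd
  have hu := uu_pos P.hb P.hβ hr
  have hD0 : 0 ≤ D := le_trans (by positivity) hD
  have he : V / β = r * (V / (β * r)) := by field_simp
  obtain ⟨h1, -⟩ := comb1W H P G he L.hv (L.expo H P ht) hd0 hD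
  have h2 := abs1W (χ := χ) H P (by linarith : 0 ≤ -V + 4 / 3) hD
  have hA : |-Real.pi - -wl (β * r) V| + d ≤ Real.pi + d := Aw_leL G.hw G.hw'
  have e0 : t + 2 * Real.pi - Real.pi = t + Real.pi := by ring
  have h4 : ∀ z ≤ -V, LegW β r t (-Real.pi) z (-V) (|-Real.pi - -wl (β * r) V| + d) ≤
      ((Real.pi + d) * (1 / r + (-V + 4 / 3)) + ((-V + 4 / 3) / r + (1 / r) ^ 2 + (-V + 4 / 3) ^ 2)) *
        Real.exp (-(r * χ)) := by
    intro z hz
    have k1 := LegW_abs (t := t + 2 * Real.pi) (v := -V) (χ := χ) (A := |-Real.pi - -wl (β * r) V| + d) hβ hr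
      (by linarith) (by rw [e0]; exact ht2) (by linarith) (by rw [e0]; exact hχ) (by positivity) hz
    rw [← LegW_shift] at k1
    refine k1.trans ?_
    apply mul_le_mul_of_nonneg_right _ (Real.exp_pos _).le
    have : 0 ≤ 1 / r + (-V + 4 / 3) := by
      have : 0 ≤ 1 / r := by positivity
      linarith
    have := mul_le_mul_of_nonneg_right hA this
    linarith
  have h3 := RR_lin_mom hr (L.lin H P) Λ hd h4
  have hT : 0 < hh b / TT b β r := div_pos (hh_posW P.hb) (P.Tp H)
  have h5 := mul_le_mul_of_nonneg_left h3 hT.le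
  refine h5.trans ?_
  have e1 : ∀ x y z : ℝ, hh b / TT b β r * (x * (β⁻¹ * (y + z))) = uu b β r * (x * y) + uu b β r * (x * z) := by
    intro x y z
    rw [← hT_uu P.hb hβ hr]; ring
  rw [e1]
  have h6 : 0 ≤ (D * N.L0 + N.L1) * xf b β r N.S C (-y) * GN β r := by
    have := H.L0p
    have := H.L1p
    have := GN_posW β r
    have : 0 < xf b β r N.S C (-y) := Real.exp_pos _
    positivity
  unfold FC.KK FC.JJ
  linarith

end

end Sok.R2
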