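import Pool.Agent.Lib.MP_816dec_an.R2WLin

/-!
MP_816dec_an (row R2, far windows): the legs at `π` and `-π`.
-/

set_option autoImplicit false

open Complex Set Filter Topology MeasureTheory

namespace Sok.R2

theorem Leg_shift (β r t v : ℝ) : Leg β r t (-Real.pi) v = Leg β r (t + 2 * Real.pi) Real.pi v := by
  unfold Leg
  congr 1
  funext Y
  unfold mg
  rw [Real.cos_neg]
  congr 2
  ring

theorem LegW_shift (β r t y v A : ℝ) : LegW β r t (-Real.pi) y v A = LegW β r (t + 2 * Real.pi) Real.pi y v A := by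
  unfold LegW
  congr 1
  funext Y
  unfold mg
  rw [Real.cos_neg]
  congr 3
  ring

/-- relative leg, value -/
theorem Leg_rel {β r t v : ℝ} (hβ : 0 < β) (hr : 0 < r) (ht : t - Real.pi ≤ β * r * (Real.exp (-v) / 2)) :
    Leg β r t Real.pi v ≤ Real.exp (-(t * v / β)) *
      (Real.exp (Real.pi * v / β - r * Real.exp (-v)) * (2 / (r * Real.exp (-v)))) := by
  have hre : 0 < r * Real.exp (-v) := by positivity
  have hδ : r * Real.exp (-v) / 2 ≤ (Real.pi - t) / β + r * Real.exp (-v) := by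
    have h1 : -(r * Real.exp (-v) / 2) ≤ (Real.pi - t) / β := by
      rw [le_div_iff₀ hβ]
      linarith
    linarith
  refine (Leg_pi_le hr.le (by linarith)).trans ?_
  apply mul_le_mul_of_nonneg_left _ (Real.exp_pos _).le
  rw [div_eq_mul_inv]
  apply mul_le_mul_of_nonneg_left _ (Real.exp_pos _).le
  rw [inv_eq_one_div, div_le_div_iff₀ (by linarith) hre]
  linarith

/-- relative leg, weighted -/
theorem LegW_rel {β r t v A : ℝ} (hβ : 0 < β) (hr : 0 < r) (ht : t - Real.pi ≤ β * r * (Real.exp (-v) / 2))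
    (hA : 0 ≤ A) {y : ℝ} (hy : y ≤ v) :
    LegW β r t Real.pi y v A ≤ Real.exp (-(t * v / β)) *
      (Real.exp (Real.pi * v / β - r * Real.exp (-v)) * (A * (2 / (r * Real.exp (-v))) +
        (2 / (r * Real.exp (-v))) ^ 2)) := by
  have hre : 0 < r * Real.exp (-v) := by positivity
  have hδ : r * Real.exp (-v) / 2 ≤ (Real.pi - t) / β + r * Real.exp (-v) := by
    have h1 : -(r * Real.exp (-v) / 2) ≤ (Real.pi - t) / β := by
      rw [le_div_iff₀ hβ]
      linarith
    linarith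
  have hδ0 : 0 < (Real.pi - t) / β + r * Real.exp (-v) := by linarith
  refine (LegW_pi_le hr.le hA hδ0 hy).trans ?_
  apply mul_le_mul_of_nonneg_left _ (Real.exp_pos _).le
  apply mul_le_mul_of_nonneg_left _ (Real.exp_pos _).le
  have h1 : 1 / ((Real.pi - t) / β + r * Real.exp (-v)) ≤ 2 / (r * Real.exp (-v)) := by
    rw [div_le_div_iff₀ hδ0 hre]
    linarith
  have h2 : A / ((Real.pi - t) / β + r * Real.exp (-v)) ≤ A * (2 / (r * Real.exp (-v))) := by
    rw [div_eq_mul_one_div]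
    exact mul_le_mul_of_nonneg_left h1 hA
  have h3 : 1 / ((Real.pi - t) / β + r * Real.exp (-v)) ^ 2 ≤ (2 / (r * Real.exp (-v))) ^ 2 := by
    rw [← one_div_pow]
    exact pow_le_pow_left₀ (by positivity) h1 2
  linarith

/-- convexity of `u (log u - 1)` -/
theorem psi_le {p U u χ : ℝ} (hp : 0 < p) (h1 : p ≤ u) (h2 : u ≤ U) (hχ : p * (Real.log p - 1) ≤ -χ)
    (hχ' : U * (Real.log U - 1) ≤ -χ) : u * (Real.log u - 1) ≤ -χ := by
  have hc : ConvexOn ℝ (Ici (0 : ℝ)) (fun x : ℝ => x * Real.log x + (-x)) :=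
    Real.convexOn_mul_log.add ((LinearMap.id : ℝ →ₗ[ℝ] ℝ).concaveOn (convex_Ici 0)).neg
  have h3 := hc.le_max_of_mem_Icc (x := p) (y := U) (z := u) (mem_Ici.2 hp.le) (mem_Ici.2 (by linarith)) ⟨h1, h2⟩
  have e1 : u * (Real.log u - 1) = u * Real.log u + -u := by ring
  rw [e1]
  refine h3.trans (max_le ?_ ?_)
  · show p * Real.log p + -p ≤ -χ
    linarith
  · show U * Real.log U + -U ≤ -χ
    linarith

private theorem exp43 : (2.79 : ℝ) + 1 ≤ Real.exp (-(-(4 / 3))) := by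
  have h3 := Real.sum_le_exp_of_nonneg (x := 4 / 3) (by norm_num) 9
  have h4 : (-(-(4 / 3)) : ℝ) = 4 / 3 := by norm_num
  rw [h4]
  refine le_trans ?_ h3
  norm_num [Finset.sum_range_succ, Nat.factorial]

private theorem delta43 {β r t S : ℝ} (hβ : 0 < β) (hr : 0 < r) (hc : Real.cos S = -1)
    (ht' : t - S ≤ 2.79 * (β * r)) : r ≤ (S - t) / β - r * Real.cos S * Real.exp (-(-(4 / 3))) := by
  rw [hc]
  have h1 : (S - t) / β = -((t - S) / β) := by ring
  have h2 : (t - S) / β ≤ 2.79 * r := by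
    rw [div_le_iff₀ hβ]; linarith
  have h3 := mul_le_mul_of_nonneg_left exp43 hr.le
  rw [h1]
  linarith

/-- absolute leg, value -/
theorem Leg_abs {β r t v χ : ℝ} (hβ : 0 < β) (hr : 0 < r) (ht : Real.pi < t)
    (ht' : t - Real.pi ≤ 2.79 * (β * r)) (hv : -(4 / 3) ≤ v)
    (hχ : (t - Real.pi) / (β * r) * (Real.log ((t - Real.pi) / (β * r)) - 1) ≤ -χ) :
    Leg β r t Real.pi v ≤ (1 / r + (v + 4 / 3)) * Real.exp (-(r * χ)) := by
  have hκ : 0 < β * r := by positivity
  obtain ⟨M, hM⟩ : ∃ M : ℝ, M = Real.exp (-(r * χ)) := ⟨_, rfl⟩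
  have hM0 : 0 < M := by rw [hM]; exact Real.exp_pos _
  have hmax : ∀ Y : ℝ, mg β r t Real.pi Y ≤ M := by
    intro Y
    refine (mg_le_max hβ hr Real.cos_pi ht Y).trans ?_
    rw [hM]
    apply Real.exp_le_exp.2
    have e1 : (t - Real.pi) / β = r * ((t - Real.pi) / (β * r)) := by field_simp
    rw [e1, mul_assoc]
    have := mul_le_mul_of_nonneg_left hχ hr.le
    linarith
  rw [← hM]
  have hc0 : Real.cos Real.pi ≤ 0 := by rw [Real.cos_pi]; norm_num
  have hδ := delta43 hβ hr Real.cos_pi ht'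
  have hδ0 := lt_of_lt_of_le hr hδ
  have h1 : Leg β r t Real.pi (-(4 / 3)) ≤ M / r := by
    refine (Leg_le hr.le hc0 hδ0).trans ?_
    exact div_le_div₀ hM0.le (hmax _) hr hδ
  have h2 := Leg_split (M := M) hv (Leg_int hr.le hc0 hδ0 v) (fun Y _ _ => hmax Y)
  have e1 : (1 / r + (v + 4 / 3)) * M = M / r + M * (v - -(4 / 3)) := by ring
  rw [e1]
  linarith

/-- absolute leg, weighted -/
theorem LegW_abs {β r t v χ A : ℝ} (hβ : 0 < β) (hr : 0 < r) (ht : Real.pi < t)
    (ht' : t - Real.pi ≤ 2.79 * (β * r)) (hv : -(4 / 3) ≤ v)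
    (hχ : (t - Real.pi) / (β * r) * (Real.log ((t - Real.pi) / (β * r)) - 1) ≤ -χ) (hA : 0 ≤ A)
    {y : ℝ} (hy : y ≤ v) :
    LegW β r t Real.pi y v A ≤ (A * (1 / r + (v + 4 / 3)) +
      ((v + 4 / 3) / r + (1 / r) ^ 2 + (v + 4 / 3) ^ 2)) * Real.exp (-(r * χ)) := by
  have hκ : 0 < β * r := by positivity
  obtain ⟨M, hM⟩ : ∃ M : ℝ, M = Real.exp (-(r * χ)) := ⟨_, rfl⟩
  have hM0 : 0 < M := by rw [hM]; exact Real.exp_pos _
  have hmax : ∀ Y : ℝ, mg β r t Real.pi Y ≤ M := by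
    intro Y
    refine (mg_le_max hβ hr Real.cos_pi ht Y).trans ?_
    rw [hM]
    apply Real.exp_le_exp.2
    have e1 : (t - Real.pi) / β = r * ((t - Real.pi) / (β * r)) := by field_simp
    rw [e1, mul_assoc]
    have := mul_le_mul_of_nonneg_left hχ hr.le
    linarith
  rw [← hM]
  have hc0 : Real.cos Real.pi ≤ 0 := by rw [Real.cos_pi]; norm_num
  have hcont : Continuous fun Y : ℝ => (A + (v - Y)) * mg β r t Real.pi Y := by
    have := continuous_mg_Y β r t Real.pi
    fun_prop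
  have hv' : 0 ≤ v + 4 / 3 := by linarith
  have hup : ∀ z, -(4 / 3) ≤ z → z ≤ v → ∫ Y in z..v, (A + (v - Y)) * mg β r t Real.pi Y ≤
      (A + (v + 4 / 3)) * (v + 4 / 3) * M := by
    intro z hz hzv
    have h1 : ∫ Y in z..v, (A + (v - Y)) * mg β r t Real.pi Y ≤ ∫ _Y in z..v, (A + (v + 4 / 3)) * M := by
      refine intervalIntegral.integral_mono_on hzv (hcont.intervalIntegrable _ _) (by simp) ?_
      intro Y hY
      exact mul_le_mul (by linarith [hY.1]) (hmax Y) (mg_pos _ _ _ _ _).le (by linarith)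
    rw [intervalIntegral.integral_const, smul_eq_mul] at h1
    refine h1.trans ?_
    have h2 : 0 ≤ (A + (v + 4 / 3)) * M := by positivity
    nlinarith
  have hδ := delta43 hβ hr Real.cos_pi ht'
  have hlow : ∀ z ≤ -(4 / 3 : ℝ), ∫ Y in z..(-(4 / 3)), (A + (v - Y)) * mg β r t Real.pi Y ≤
      ((A + (v + 4 / 3)) / r + (1 / r) ^ 2) * M := by
    intro z hz
    have h1 := LegW_le_top (β := β) (t := t) (A := A + (v + 4 / 3)) (v := -(4 / 3)) hr.le hc0 (by linarith)
      (lt_of_lt_of_le hr hδ) hz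
    unfold LegW at h1
    have e1 : ∀ Y : ℝ, (A + (v + 4 / 3) + (-(4 / 3) - Y)) = A + (v - Y) := fun Y => by ring
    simp only [e1] at h1
    refine h1.trans ?_
    have h2 : (A + (v + 4 / 3)) / ((Real.pi - t) / β - r * Real.cos Real.pi * Real.exp (-(-(4 / 3)))) +
        1 / ((Real.pi - t) / β - r * Real.cos Real.pi * Real.exp (-(-(4 / 3)))) ^ 2 ≤
        (A + (v + 4 / 3)) / r + (1 / r) ^ 2 := by
      have h3 : (A + (v + 4 / 3)) / ((Real.pi - t) / β - r * Real.cos Real.pi * Real.exp (-(-(4 / 3)))) ≤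
          (A + (v + 4 / 3)) / r := div_le_div_of_nonneg_left (by linarith) hr hδ
      have h4 : 1 / ((Real.pi - t) / β - r * Real.cos Real.pi * Real.exp (-(-(4 / 3)))) ^ 2 ≤ (1 / r) ^ 2 := by
        rw [one_div_pow]
        exact div_le_div_of_nonneg_left zero_le_one (by positivity) (pow_le_pow_left₀ hr.le hδ 2)
      linarith
    rw [mul_comm _ M]
    refine mul_le_mul (hmax _) h2 ?_ hM0.le
    have h5 : 0 < (Real.pi - t) / β - r * Real.cos Real.pi * Real.exp (-(-(4 / 3))) := lt_of_lt_of_le hr hδ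
    have h6 : 0 ≤ A + (v + 4 / 3) := by linarith
    positivity
  have e2 : (A * (1 / r + (v + 4 / 3)) + ((v + 4 / 3) / r + (1 / r) ^ 2 + (v + 4 / 3) ^ 2)) * M =
      ((A + (v + 4 / 3)) / r + (1 / r) ^ 2) * M + (A + (v + 4 / 3)) * (v + 4 / 3) * M := by ring
  rw [e2]
  unfold LegW
  rcases le_total y (-(4 / 3)) with h | h
  · rw [← intervalIntegral.integral_add_adjacent_intervals (hcont.intervalIntegrable y (-(4 / 3)))
      (hcont.intervalIntegrable (-(4 / 3)) v)]
    have h1 := hlow y h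
    have h2 := hup (-(4 / 3)) le_rfl hv
    linarith
  · have h2 := hup y h hy
    have h3 : 0 ≤ ((A + (v + 4 / 3)) / r + (1 / r) ^ 2) * M := by positivity
    linarith

/-- the decay of the legs: heights `0 ≤ v ≤ v₁` -/
theorem chi_right {v v1 E U u χ : ℝ} (hv1 : v ≤ v1) (hv0 : 0 ≤ v) (hE : E ≤ Real.exp (-v1))
    (h1 : Real.exp (-v) / 2 ≤ u) (h2 : u ≤ U) (hχ : χ ≤ E * ((v1 + 1.693) / 2))
    (hχ' : U * (Real.log U - 1) ≤ -χ) : u * (Real.log u - 1) ≤ -χ := by
  refine psi_le (p := Real.exp (-v) / 2) (by positivity) h1 h2 ?_ hχ'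
  have hl2 : 0.693 ≤ Real.log 2 := by have := Real.log_two_gt_d9; linarith
  rw [Real.log_div (Real.exp_pos _).ne' (by norm_num), Real.log_exp]
  have k1 : Real.exp (-v1) * (v1 + 1.693) ≤ Real.exp (-v) * (v + 1.693) := by
    have k2 : Real.exp (-v) = Real.exp (v1 - v) * Real.exp (-v1) := by
      rw [← Real.exp_add]; congr 1; ring
    have k3 : v1 - v + 1 ≤ Real.exp (v1 - v) := Real.add_one_le_exp _
    have k4 : (v1 - v + 1) * (v + 1.693) ≤ Real.exp (v1 - v) * (v + 1.693) :=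
      mul_le_mul_of_nonneg_right k3 (by linarith)
    have k5 : v1 + 1.693 ≤ (v1 - v + 1) * (v + 1.693) := by
      have : 0 ≤ (v1 - v) * (v + 0.693) := mul_nonneg (by linarith) (by linarith)
      linarith
    rw [k2]
    have k6 := mul_le_mul_of_nonneg_left (k5.trans k4) (Real.exp_pos (-v1)).le
    linarith
  have k7 : E * (v1 + 1.693) ≤ Real.exp (-v1) * (v1 + 1.693) :=
    mul_le_mul_of_nonneg_right hE (by linarith)
  have k8 : Real.exp (-v) / 2 * (-v - Real.log 2 - 1) ≤ -(Real.exp (-v) * (v + 1.693) / 2) := by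
    have := mul_le_mul_of_nonneg_left hl2 (Real.exp_pos (-v)).le
    linarith
  linarith

/-- the decay of the legs: heights below `0` -/
theorem chi_left {v u : ℝ} (hv : v ≤ 0) (h1 : Real.exp (-v) / 2 ≤ u) (h2 : u ≤ 1.27) :
    u * (Real.log u - 1) ≤ -0.84 := by
  have h3 : 1 ≤ Real.exp (-v) := Real.one_le_exp (by linarith)
  refine psi_le (p := 1 / 2) (by norm_num) (by linarith) h2 ?_ ?_
  · have hl2 : 0.693 ≤ Real.log 2 := by have := Real.log_two_gt_d9; linarith
    rw [one_div, Real.log_inv]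
    linarith
  · have h4 := Real.log_le_sub_one_of_pos (x := 1.27) (by norm_num)
    linarith

end Sok.R2
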