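import Pool.Agent.Lib.MP_816dec_an.R2Far
import Pool.Agent.Lib.MP_816dec_an.R2Ray

/-!
MP_816dec_an (row R2, far windows): the horizontal line `(-∞, π]` at height `v > 0`, value and first moment, and
the mirror image for the line `[-π, ∞)` at height `-v`.
-/

set_option autoImplicit false

open Complex Set Filter Topology MeasureTheory

namespace Sok.R2

/-- the outer part on the left, relative -/
noncomputable def zz (a e w : ℝ) : ℝ := Real.pi / 2 * Real.exp (-(a + e * w + Real.pi / 2 * e))

/-- the outer part on the right, relative -/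
noncomputable def oo (a e w : ℝ) : ℝ := Real.pi / 2 * Real.exp (-(a + e * w - Real.pi / 2 * e))

/-- value constant of one period -/
noncomputable def V0 (a e w : ℝ) : ℝ := K0 a e + zz a e w + oo a e w

/-- moment constant of one period -/
noncomputable def V1 (a e w : ℝ) : ℝ := K1 a e + 3 * Real.pi / 2 * zz a e w + Real.pi * oo a e w

theorem zz_nonneg (a e w : ℝ) : 0 ≤ zz a e w := by
  have := Real.pi_pos
  unfold zz; positivity

theorem oo_nonneg (a e w : ℝ) : 0 ≤ oo a e w := by
  have := Real.pi_pos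
  unfold oo; positivity

private theorem mg_phL (β r t X v : ℝ) : mg β r t X v = Real.exp (-(t * v / β)) * Real.exp (phF β r v X) := by
  unfold mg phF
  rw [← Real.exp_add]
  congr 1
  ring

private theorem EbaseL {β t v w a : ℝ} : Real.exp (-(t * v / β)) * Real.exp (a + v / β * w) =
    Real.exp (a + v / β * (w - t)) := by
  rw [← Real.exp_add]
  congr 1
  ring

/-- weighted period `[-π, π]` -/
theorem perV {β r t v w a A B : ℝ} (hβ : 0 < β) (hr : 0 < r) (hv : 0 ≤ v) (hw : 0 ≤ w) (hw' : w < Real.pi / 2)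
    (hvw : β * r * Real.sin w = v * Real.exp v) (ha : a = r * (Real.exp (-v) * Real.cos w))
    (hν : 0 < nuR a (v / β)) (hc : 0 < caR a (v / β)) (hE : Real.pi / 2 * (v / β) ≤ r * Real.exp (-v))
    (hA : 0 ≤ A) (hB : 0 ≤ B) :
    ∫ X in (-Real.pi)..Real.pi, (A + B * |X - w|) * mg β r t X v ≤
      Real.exp (a + v / β * (w - t)) * (A * V0 a (v / β) w + B * V1 a (v / β) w) := by
  have hpi := Real.pi_pos
  obtain ⟨e, he⟩ : ∃ e : ℝ, e = v / β := ⟨_, rfl⟩
  have he0 : 0 ≤ e := by rw [he]; positivity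
  have hphc : Continuous fun X : ℝ => phF β r v X := by unfold phF; fun_prop
  have hcf : Continuous fun X : ℝ => (A + B * |X - w|) * Real.exp (phF β r v X) := by fun_prop
  have e0 : ∫ X in (-Real.pi)..Real.pi, (A + B * |X - w|) * mg β r t X v =
      Real.exp (-(t * v / β)) * ∫ X in (-Real.pi)..Real.pi,
        (A + B * |X - w|) * Real.exp (phF β r v X) := by
    rw [← intervalIntegral.integral_const_mul]
    congr 1
    funext X
    rw [mg_phL]
    ring
  have h1 := mid_int hβ hr hv hw hw' hvw ha hν hc hA hB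
  rw [← he] at h1 hE
  have hcst : ∀ c : ℝ, ∫ _X in (Real.pi / 2)..Real.pi, c = Real.pi / 2 * c := by
    intro c
    rw [intervalIntegral.integral_const, smul_eq_mul]
    ring
  have hcst' : ∀ c : ℝ, ∫ _X in (-Real.pi)..(-(Real.pi / 2)), c = Real.pi / 2 * c := by
    intro c
    rw [intervalIntegral.integral_const, smul_eq_mul]
    ring
  have hone : Real.exp (a + e * w) * Real.exp (-(a + e * w)) = 1 := by
    rw [← Real.exp_add, add_neg_cancel, Real.exp_zero]
  -- left outer part
  have h2 : ∫ X in (-Real.pi)..(-(Real.pi / 2)), (A + B * |X - w|) * Real.exp (phF β r v X) ≤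
      Real.exp (a + e * w) * ((A + B * (3 * Real.pi / 2)) * zz a e w) := by
    have e1 : Real.exp (a + e * w) * ((A + B * (3 * Real.pi / 2)) * zz a e w) =
        ∫ _X in (-Real.pi)..(-(Real.pi / 2)), (A + B * (3 * Real.pi / 2)) * Real.exp (-(Real.pi / 2 * e)) := by
      rw [hcst']
      unfold zz
      have e2 : Real.exp (-(a + e * w + Real.pi / 2 * e)) =
        Real.exp (-(Real.pi / 2 * e)) * Real.exp (-(a + e * w)) := by
        rw [← Real.exp_add]; congr 1; ring
      rw [e2]
      calc Real.exp (a + e * w) * ((A + B * (3 * Real.pi / 2)) * (Real.pi / 2 *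
            (Real.exp (-(Real.pi / 2 * e)) * Real.exp (-(a + e * w))))) =
          (Real.exp (a + e * w) * Real.exp (-(a + e * w))) * (Real.pi / 2 * ((A + B * (3 * Real.pi / 2)) *
            Real.exp (-(Real.pi / 2 * e)))) := by ring
        _ = _ := by rw [hone]; ring
    rw [e1]
    refine intervalIntegral.integral_mono_on (by linarith) (hcf.intervalIntegrable _ _) (by simp) ?_
    intro X hX
    have k1 : |X - w| ≤ 3 * Real.pi / 2 := by
      rw [abs_le]; constructor <;> linarith [hX.1, hX.2]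
    have k2 : Real.cos X ≤ 0 := by
      have h3 : Real.cos X = Real.cos (-X) := by rw [Real.cos_neg]
      rw [h3]
      exact Real.cos_nonpos_of_pi_div_two_le_of_le (by linarith [hX.2]) (by linarith [hX.1])
    have k3 : phF β r v X ≤ -(Real.pi / 2 * e) := by
      unfold phF
      have h3 : r * Real.cos X * Real.exp (-v) ≤ 0 :=
        mul_nonpos_of_nonpos_of_nonneg (mul_nonpos_of_nonneg_of_nonpos hr.le k2) (Real.exp_pos _).le
      have h5 : X * v / β = X * e := by rw [he]; ring
      rw [h5]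
      nlinarith [hX.2]
    have k4 : A + B * |X - w| ≤ A + B * (3 * Real.pi / 2) := by
      have := mul_le_mul_of_nonneg_left k1 hB
      linarith
    have k5 : 0 ≤ A + B * (3 * Real.pi / 2) := by positivity
    exact mul_le_mul k4 (Real.exp_le_exp.2 k3) (Real.exp_pos _).le k5
  -- right outer part
  have h3 : ∫ X in (Real.pi / 2)..Real.pi, (A + B * |X - w|) * Real.exp (phF β r v X) ≤
      Real.exp (a + e * w) * ((A + B * Real.pi) * oo a e w) := by
    have e1 : Real.exp (a + e * w) * ((A + B * Real.pi) * oo a e w) =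
        ∫ _X in (Real.pi / 2)..Real.pi, (A + B * Real.pi) * Real.exp (Real.pi / 2 * e) := by
      rw [hcst]
      unfold oo
      have e2 : Real.exp (-(a + e * w - Real.pi / 2 * e)) =
        Real.exp (Real.pi / 2 * e) * Real.exp (-(a + e * w)) := by
        rw [← Real.exp_add]; congr 1; ring
      rw [e2]
      calc Real.exp (a + e * w) * ((A + B * Real.pi) * (Real.pi / 2 *
            (Real.exp (Real.pi / 2 * e) * Real.exp (-(a + e * w))))) =
          (Real.exp (a + e * w) * Real.exp (-(a + e * w))) * (Real.pi / 2 * ((A + B * Real.pi) *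
            Real.exp (Real.pi / 2 * e))) := by ring
        _ = _ := by rw [hone]; ring
    rw [e1]
    refine intervalIntegral.integral_mono_on (by linarith) (hcf.intervalIntegrable _ _) (by simp) ?_
    intro X hX
    have k1 : |X - w| ≤ Real.pi := by
      rw [abs_le]; constructor <;> linarith [hX.1, hX.2]
    have k2 : Real.cos X ≤ -(2 / Real.pi * (X - Real.pi / 2)) := by
      have h4 := Real.mul_le_sin (x := X - Real.pi / 2) (by linarith [hX.1]) (by linarith [hX.2])
      rw [Real.sin_sub_pi_div_two] at h4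
      linarith
    have k3 : phF β r v X ≤ Real.pi / 2 * e := by
      unfold phF
      have h5 : X * v / β = X * e := by rw [he]; ring
      have h6 : r * Real.cos X * Real.exp (-v) ≤ -((X - Real.pi / 2) * e) := by
        have h7 : 0 ≤ X - Real.pi / 2 := by linarith [hX.1]
        have h8 : Real.cos X * (r * Real.exp (-v)) ≤ -(2 / Real.pi * (X - Real.pi / 2)) * (r * Real.exp (-v)) :=
          mul_le_mul_of_nonneg_right k2 (by positivity)
        have h9 : (2 / Real.pi * (X - Real.pi / 2)) * (Real.pi / 2 * e) ≤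
            (2 / Real.pi * (X - Real.pi / 2)) * (r * Real.exp (-v)) :=
          mul_le_mul_of_nonneg_left hE (by positivity)
        have h10 : (2 / Real.pi * (X - Real.pi / 2)) * (Real.pi / 2 * e) = (X - Real.pi / 2) * e := by
          field_simp
        have h11 : r * Real.cos X * Real.exp (-v) = Real.cos X * (r * Real.exp (-v)) := by ring
        rw [h11]
        linarith
      rw [h5]
      linarith
    have k4 : A + B * |X - w| ≤ A + B * Real.pi := by
      have := mul_le_mul_of_nonneg_left k1 hB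
      linarith
    have k5 : 0 ≤ A + B * Real.pi := by positivity
    exact mul_le_mul k4 (Real.exp_le_exp.2 k3) (Real.exp_pos _).le k5
  rw [e0, ← intervalIntegral.integral_add_adjacent_intervals
    (hcf.intervalIntegrable (-Real.pi) (Real.pi / 2)) (hcf.intervalIntegrable (Real.pi / 2) Real.pi),
    ← intervalIntegral.integral_add_adjacent_intervals
    (hcf.intervalIntegrable (-Real.pi) (-(Real.pi / 2))) (hcf.intervalIntegrable (-(Real.pi / 2)) (Real.pi / 2))]
  have h4 : (∫ X in (-Real.pi)..(-(Real.pi / 2)), (A + B * |X - w|) * Real.exp (phF β r v X)) +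
      (∫ X in (-(Real.pi / 2))..(Real.pi / 2), (A + B * |X - w|) * Real.exp (phF β r v X)) +
      (∫ X in (Real.pi / 2)..Real.pi, (A + B * |X - w|) * Real.exp (phF β r v X)) ≤
      Real.exp (a + e * w) * (A * V0 a e w + B * V1 a e w) := by
    have e1 : Real.exp (a + e * w) * (A * V0 a e w + B * V1 a e w) =
        Real.exp (a + e * w) * ((A + B * (3 * Real.pi / 2)) * zz a e w) +
        Real.exp (a + e * w) * (A * K0 a e + B * K1 a e) +
        Real.exp (a + e * w) * ((A + B * Real.pi) * oo a e w) := by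
      unfold V0 V1; ring
    rw [e1]
    linarith
  have h5 := mul_le_mul_of_nonneg_left h4 (Real.exp_pos (-(t * v / β))).le
  rw [he, ← mul_assoc, EbaseL] at h5
  exact h5

private theorem q_ltL {β v : ℝ} (hβ : 0 < β) (hv : 0 < v) : Real.exp (-(2 * Real.pi * v / β)) < 1 := by
  refine Real.exp_lt_one_iff.2 ?_
  have := Real.pi_pos
  have : 0 < 2 * Real.pi * v / β := by positivity
  linarith

/-- the hypotheses on a line -/
structure WLin (β r v w a : ℝ) : Prop where
  hβ : 0 < β
  hr : 0 < r
  hv : 0 < v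
  hw : 0 ≤ w
  hw' : w < Real.pi / 2
  hvw : β * r * Real.sin w = v * Real.exp v
  ha : a = r * (Real.exp (-v) * Real.cos w)
  hν : 0 < nuR a (v / β)
  hc : 0 < caR a (v / β)
  hE : Real.pi / 2 * (v / β) ≤ r * Real.exp (-v)

/-- value constant of the ray -/
noncomputable def R0c (β v w a : ℝ) : ℝ := V0 a (v / β) w / (1 - Real.exp (-(2 * Real.pi * v / β)))

/-- moment constant of the ray -/
noncomputable def R1c (β v w a : ℝ) : ℝ := V1 a (v / β) w / (1 - Real.exp (-(2 * Real.pi * v / β))) +
  2 * Real.pi * Real.exp (-(2 * Real.pi * v / β)) * V0 a (v / β) w / (1 - Real.exp (-(2 * Real.pi * v / β))) ^ 2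

theorem HorL_lin {β r t v w a : ℝ} (H : WLin β r v w a) :
    HorL β r t Real.pi v ≤ Real.exp (a + v / β * (w - t)) * R0c β v w a := by
  have h1 := perV (t := t) H.hβ H.hr H.hv.le H.hw H.hw' H.hvw H.ha H.hν H.hc H.hE zero_le_one le_rfl
  have e0 : -Real.pi = Real.pi - 2 * Real.pi := by ring
  have e1 : Hor β r t (Real.pi - 2 * Real.pi) Real.pi v =
      ∫ X in (-Real.pi)..Real.pi, (1 + 0 * |X - w|) * mg β r t X v := by
    unfold Hor
    rw [← e0]
    congr 1
    funext X
    ring
  rw [← e1] at h1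
  refine (HorL_ray H.hβ H.hr.le H.hv h1).trans (le_of_eq ?_)
  unfold R0c
  ring

theorem HorW_lin {β r t v w a d : ℝ} (H : WLin β r v w a) (hd : 0 ≤ d) (c : ℝ) :
    HorW β r t c Real.pi v w d ≤ Real.exp (a + v / β * (w - t)) * (d * R0c β v w a + R1c β v w a) := by
  have h0 := perV (t := t) H.hβ H.hr H.hv.le H.hw H.hw' H.hvw H.ha H.hν H.hc H.hE zero_le_one le_rfl
  have h1 := perV (t := t) H.hβ H.hr H.hv.le H.hw H.hw' H.hvw H.ha H.hν H.hc H.hE hd zero_le_one
  have e0 : -Real.pi = Real.pi - 2 * Real.pi := by ring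
  have e1 : Hor β r t (Real.pi - 2 * Real.pi) Real.pi v =
      ∫ X in (-Real.pi)..Real.pi, (1 + 0 * |X - w|) * mg β r t X v := by
    unfold Hor
    rw [← e0]
    congr 1
    funext X
    ring
  have e2 : HorW β r t (Real.pi - 2 * Real.pi) Real.pi v w d =
      ∫ X in (-Real.pi)..Real.pi, (d + 1 * |X - w|) * mg β r t X v := by
    unfold HorW
    rw [← e0]
    congr 1
    funext X
    ring
  rw [← e1] at h0
  rw [← e2] at h1
  refine (HorW_ray H.hβ H.hr H.hv hd h0 h1 c).trans (le_of_eq ?_)
  have h5 := q_ltL H.hβ H.hv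
  have h6 : 1 - Real.exp (-(2 * Real.pi * v / β)) ≠ 0 := by linarith
  unfold R0c R1c
  field_simp
  ring

private theorem inV0L (t : ℝ) : InV t 0 Real.pi := by
  have := inV_center t 0
  simpa using this

private theorem inVmL (t : ℝ) : InV t (-1) (-Real.pi) := by
  have := inV_center t (-1)
  have e1 : (2 * ((-1 : ℤ) : ℝ) + 1) * Real.pi = -Real.pi := by push_cast; ring
  rwa [e1] at this

/-- VALUE on the right -/
theorem CC_lin {β r t v w a : ℝ} (H : WLin β r v w a) :
    ‖CC β r t‖ ≤ (Real.sqrt (2 * Real.pi * β))⁻¹ *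
      (Real.exp (a + v / β * (w - t)) * R0c β v w a + Leg β r t Real.pi v) := by
  have hpi := Real.pi_pos
  refine (norm_CC_path H.hβ H.hr (inV0L t) H.hv).trans ?_
  exact mul_le_mul_of_nonneg_left (add_le_add (HorL_lin H) le_rfl) (by positivity)

/-- MOMENT on the right -/
theorem CC_lin_mom {β r t v w a d B₀ : ℝ} (H : WLin β r v w a) (L : ℂ) (hd : |w - t - L.re| + |v - L.im| ≤ d)
    (h0 : ∀ y ≤ v, LegW β r t Real.pi y v (|Real.pi - w| + d) ≤ B₀) :
    ‖ew β r t * CC β r (t + β) - L / β * CC β r t‖ ≤ (Real.sqrt (2 * Real.pi * β))⁻¹ *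
      (β⁻¹ * (Real.exp (a + v / β * (w - t)) * (d * R0c β v w a + R1c β v w a) + B₀)) := by
  have hd0 : 0 ≤ d := le_trans (by positivity) hd
  exact norm_CC_mom H.hβ H.hr L H.hv w hd h0 (fun c _ => HorW_lin H hd0 c)

/-! ### the mirror image -/

theorem mg_mir (β r t X v : ℝ) :
    mg β r t X (-v) = mg β (r * Real.exp (2 * v)) (-t) (-X) v := by
  unfold mg
  congr 1
  rw [Real.cos_neg, neg_neg]
  have e1 : r * Real.exp (2 * v) * Real.cos X * Real.exp (-v) = r * Real.cos X * Real.exp v := by
    have : Real.exp (2 * v) * Real.exp (-v) = Real.exp v := by rw [← Real.exp_add]; congr 1; ring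
    calc r * Real.exp (2 * v) * Real.cos X * Real.exp (-v) =
        r * Real.cos X * (Real.exp (2 * v) * Real.exp (-v)) := by ring
      _ = _ := by rw [this]
  rw [e1]
  ring

theorem HorR_mir (β r t v : ℝ) :
    HorR β r t (-Real.pi) (-v) = HorL β (r * Real.exp (2 * v)) (-t) Real.pi v := by
  unfold HorR HorL
  have h1 := integral_comp_neg_Ioi (-Real.pi) (fun X : ℝ => mg β (r * Real.exp (2 * v)) (-t) X v)
  rw [neg_neg] at h1
  rw [← h1]
  refine setIntegral_congr_fun measurableSet_Ioi fun X _ => ?_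
  exact mg_mir β r t X v

theorem HorW_mir (β r t b v w d : ℝ) :
    HorW β r t (-Real.pi) b (-v) (-w) d = HorW β (r * Real.exp (2 * v)) (-t) (-b) Real.pi v w d := by
  unfold HorW
  have h1 := intervalIntegral.integral_comp_neg (a := -Real.pi) (b := b)
    (fun X : ℝ => (|X - w| + d) * mg β (r * Real.exp (2 * v)) (-t) X v)
  rw [neg_neg] at h1
  rw [← h1]
  apply intervalIntegral.integral_congr
  intro X _
  show (|X - -w| + d) * mg β r t X (-v) = (|-X - w| + d) * mg β (r * Real.exp (2 * v)) (-t) (-X) v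
  rw [mg_mir]
  congr 2
  rw [show -X - w = -(X - -w) by ring, abs_neg]

/-- VALUE on the left: height `-v`, the line of `(β, r e^{2v}, v, w, a)` -/
theorem RR_lin {β r t v w a : ℝ} (hr : 0 < r) (H : WLin β (r * Real.exp (2 * v)) v w a) :
    ‖RR β r t‖ ≤ (Real.sqrt (2 * Real.pi * β))⁻¹ *
      (Real.exp (a + v / β * (w + t)) * R0c β v w a + Leg β r t (-Real.pi) (-v)) := by
  have hpi := Real.pi_pos
  unfold RR
  refine (norm_RR_path H.hβ hr (inVmL t) (by linarith [H.hv] : -v < 0)).trans ?_
  rw [HorR_mir, add_comm]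
  have h1 := HorL_lin (t := -t) H
  rw [sub_neg_eq_add] at h1
  exact mul_le_mul_of_nonneg_left (add_le_add h1 le_rfl) (by positivity)

/-- MOMENT on the left -/
theorem RR_lin_mom {β r t v w a d B₁ : ℝ} (hr : 0 < r) (H : WLin β (r * Real.exp (2 * v)) v w a) (L : ℂ)
    (hd : |-w - t - L.re| + |-v - L.im| ≤ d)
    (h1 : ∀ y ≤ -v, LegW β r t (-Real.pi) y (-v) (|-Real.pi - -w| + d) ≤ B₁) :
    ‖ew β r t * RR β r (t + β) - L / β * RR β r t‖ ≤ (Real.sqrt (2 * Real.pi * β))⁻¹ *
      (β⁻¹ * (Real.exp (a + v / β * (w + t)) * (d * R0c β v w a + R1c β v w a) + B₁)) := by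
  have hd0 : 0 ≤ d := le_trans (by positivity) hd
  refine norm_RR_mom H.hβ hr L (by linarith [H.hv] : -v < 0) (-w) hd h1 (fun b _ => ?_)
  rw [HorW_mir]
  have h2 := HorW_lin (t := -t) H hd0 (-b)
  rwa [sub_neg_eq_add] at h2

end Sok.R2
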