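import Pool.Agent.Lib.MP_816dec_an.R2WFar
import Pool.Agent.Lib.MP_816dec_an.R2SecDefs

/-!
MP_816dec_an (row R2, far windows): moments of the far windows, `MomH`.
-/

set_option autoImplicit false

open Complex Set Filter Topology MeasureTheory

namespace Sok.R2

theorem FC.Ok.JJp {F : FC} (H : F.Ok) : 0 ≤ F.JJ := by
  have h1 := H.B0p
  have h2 := H.B1p
  have h3 : 0 < 1 - F.Q := by linarith [H.Q1]
  have h4 := H.L1p
  have h5 : 0 ≤ F.UQ := by
    refine le_trans ?_ H.UQ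
    have h6 := H.k1
    have h7 := H.k2
    have h8 := H.b1
    have h9 := H.Qp
    have h10 : 0 < F.k2 := by linarith
    positivity
  unfold FC.JJ
  positivity

/-- side conditions of the moments, windows `2` and `-1` -/
structure WC.OkM (W : WC) (N : Num) (D2 Dm : ℝ) : Prop where
  q : -1 ≤ N.qL ∧ N.qR ≤ 0
  dom : 6.2832 / W.R.b1 * (N.qR + 1) ≤ W.R.k1 + 1.57
  P2 : D2 * W.R.KK + W.R.JJ ≤ N.P2
  P2' : D2 * W.aKq + W.aJq ≤ N.P2 * N.τ
  Pm : (1 + W.qm) * (Dm * W.L.KK + W.L.JJ) + W.um * W.L.KK ≤ N.Pm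
  Pm' : Dm * W.aKm + W.aJm ≤ N.Pm * N.τm

/-- side conditions of the moments, windows `3 + i` and `-2 - i` -/
structure WC.OkM3 (W : WC) (N : Num) (D2 Dm Sg : ℝ) : Prop where
  S : 0 ≤ Sg
  P3 : (D2 + Sg) * W.R.KK + W.R.JJ ≤ N.P3
  P3' : (D2 + Sg) * W.aKq + W.aJq ≤ N.P3 * N.τ
  P4 : Sg * W.R.KK ≤ N.P4
  P4' : Sg * W.aKq ≤ N.P4 * N.τ
  Pm2 : (1 + W.qm) * ((Dm + Sg) * W.L.KK + W.L.JJ) + W.um * W.L.KK ≤ N.Pm2
  Pm2' : (Dm + Sg) * W.aKm + W.aJm ≤ N.Pm2 * N.τm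
  Pm3 : (1 + W.qm) * (Sg * W.L.KK) ≤ N.Pm3
  Pm3' : Sg * W.aKm ≤ N.Pm3 * N.τm

section
variable {b : ℕ} {β r : ℝ} {aw : ℤ} {n : ℕ} {N : Num} {W : WC}

/-- the saddles of windows `0` and `1` are on the two sides -/
private theorem signs {κ : ℝ} (hκ : 1 ≤ κ) (hb : 1 ≤ b) {z : ℝ} (hz : z ∈ Icc (-1 : ℝ) 0)
    (hd : (z + 1) * hh b < κ + Real.pi / 2) :
    sy κ (tz b κ 0 z) ≤ 0 ∧ 0 ≤ sy κ (tz b κ 1 z) ∧ ph κ (tz b κ 0 z) ≤ 0 ∧ 0 ≤ ph κ (tz b κ 1 z) := by
  have hh0 := hh_posW hb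
  have hpi := Real.pi_pos
  have h0 : tz b κ 0 z ≤ -κ := by
    unfold tz
    have : ((0 : ℤ) + z) * hh b ≤ 0 := by
      push_cast
      exact mul_nonpos_of_nonpos_of_nonneg (by linarith [hz.2]) hh0.le
    linarith
  have h1 : -κ ≤ tz b κ 1 z := by
    unfold tz
    have : 0 ≤ ((1 : ℤ) + z) * hh b := by
      push_cast
      exact mul_nonneg (by linarith [hz.1]) hh0.le
    linarith
  have h2 : tz b κ 1 z < Real.pi / 2 := by
    unfold tz
    push_cast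
    linarith
  have d0 : DomR κ (tz b κ 0 z) := DomR_of hκ (by linarith)
  have d1 : DomR κ (tz b κ 1 z) := DomR_of hκ h2
  have y0 := sy_nonpos hκ h0
  have y1 := sy_nonneg hκ h1 h2
  refine ⟨y0, y1, ?_, ?_⟩
  · rw [ph_eq d0]
    have hx : 0 < sx κ (tz b κ 0 z) := sx_pos d0
    have h3 : sy κ (tz b κ 0 z) / sx κ (tz b κ 0 z) ≤ 0 := div_nonpos_of_nonpos_of_nonneg y0 hx.le
    have h4 := Real.arctan_mono h3
    rwa [Real.arctan_zero] at h4
  · rw [ph_eq d1, Real.arctan_nonneg]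
    exact div_nonneg y1 (sx_pos d1).le

/-- moments of the windows on the right -/
theorem WP.right_mom (O : W.Ok N) (P : WP b β r aw n N W) {k : ℤ} (hk : 2 ≤ k) (hk' : k ≤ b + 1) {i : ℕ}
    (hi : i = 0 ∨ i + 2 ≤ b) {z d D K : ℝ} (hz : z ≤ N.qR) (Λ : ℂ)
    (hd : |wv (β * r) (hv b (β * r) N.S) - tk b β r k z - Λ.re| + |hv b (β * r) N.S - Λ.im| ≤ d)
    (hD : uu b β r * d ≤ D) (hK : D * W.aKq + W.aJq ≤ K * N.τ) :
    hh b / TT b β r * ‖deriv (Xw b β aw n k) (wz b β r z) - Λ / β * Xw b β aw n k (wz b β r z)‖ ≤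
      ((D * W.R.KK + W.R.JJ) * xf b β r N.S N.C (k + z) +
        (1 / 5) ^ i * (K * (N.τ * Real.exp (-(TT b β r / 2))))) * GN β r := by
  have hr := P.rp O
  have L := P.rl O
  have hS := O.kS.1
  have hv1 := P.hv_le O (by rw [← hS]; exact O.R.S) O.v1
  have ht : tk b β r k z = -(β * r) + (k + z) * hh b := rfl
  rw [Xw_C_mom P.hβ hr (by have := P.hρ; omega) (by have := P.hc; omega)]
  have hg := GN_posW β r
  have hT2 := P.T2 O
  have hv0 := L.v0
  have hd0 : 0 ≤ d := le_trans (by positivity) hd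
  have hu := uu_pos P.hb P.hβ hr
  have hD0 : 0 ≤ D := le_trans (by positivity) hD
  have h1 := CC_mom O.R (P.pR O) L hv1 O.E1 O.Uq.1 O.χq O.χq' ht (P.tU O hk' hz O.qR O.Uq.2) Λ hd hD
  rw [hS] at h1
  refine h1.trans ?_
  apply mul_le_mul_of_nonneg_right _ hg.le
  apply add_le_add le_rfl
  have hs0 : 0 ≤ hv b (β * r) N.S + 4 / 3 := by linarith
  have hs1 : hv b (β * r) N.S + 4 / 3 ≤ W.v1 + 4 / 3 := by linarith
  have hZ : W.θ * r + TT b β r / 2 ≤ r * (1 + W.χq - W.gq) := by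
    have := mul_le_mul_of_nonneg_left O.gq.1 hr.le
    linarith
  have h2 := ab0_le (χ := W.χq) (g := W.gq) (e := W.eq) (Z := W.θ * r + TT b β r / 2) O.R (P.pR O) hs0 hs1 hZ
    O.gq.2.1 O.gq.2.2
  have h3 := ab1_le (χ := W.χq) (g := W.gq) (e := W.eq) (Z := W.θ * r + TT b β r / 2) O.R (P.pR O) hs0 hs1 hZ
    O.gq.2.1 O.gq.2.2
  have h4 := ab0_nonneg (χ := W.χq) O.R (P.pR O) hs0
  have h5 := ab1_nonneg (χ := W.χq) O.R (P.pR O) hs0
  refine P.abs_le O hi (by positivity) (X := D * (W.R.A * W.R.sR * (1 / W.R.R0 + (W.v1 + 4 / 3)) * W.eq) +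
    W.R.J1 * W.R.R0 * (3.1416 * (1 / W.R.R0 + (W.v1 + 4 / 3)) +
      ((W.v1 + 4 / 3) / W.R.R0 + (1 / W.R.R0) ^ 2 + (W.v1 + 4 / 3) ^ 2)) * W.eq) ?_ ?_
  · have h6 := mul_le_mul_of_nonneg_left h2 hD0
    linarith
  · refine le_trans (le_of_eq ?_) hK
    unfold WC.aKq WC.aJq
    ring

/-- moments of the windows on the left -/
theorem WP.left_mom (O : W.Ok N) (P : WP b β r aw n N W) {k : ℤ} (hk : k ≤ -1) {i : ℕ}
    (hi : aw + b ≤ k → i = 0 ∨ i + 2 ≤ b) {z d D K : ℝ} (hz : z ≤ 0) (Λ : ℂ)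
    (hd : |-wl (β * r) (hv b (β * r) N.Sm) - tk b β r k z - Λ.re| + |-hv b (β * r) N.Sm - Λ.im| ≤ d)
    (hD : uu b β r * d ≤ D) (hK : D * W.aKm + W.aJm ≤ K * N.τm) (hK0 : 0 ≤ K * N.τm) :
    hh b / TT b β r * ‖deriv (Xw b β aw n k) (wz b β r z) - Λ / β * Xw b β aw n k (wz b β r z)‖ ≤
      (((1 + W.qm) * (D * W.L.KK + W.L.JJ) + W.um * W.L.KK) * xf b β r N.Sm N.Cm (-(k + z)) +
        (1 / 5) ^ i * (K * (N.τm * Real.exp (-(TT b β r / 2))))) * GN β r := by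
  have hr := P.rp O
  have L := P.ll O
  have hS := O.kS.2.1
  have hκ := P.kap O
  have hh0 := hh_posW P.hb
  have hpi := Real.pi_pos
  have ht : tk b β r k z = -(β * r) + (k + z) * hh b := rfl
  have hg := GN_posW β r
  have hKK := O.KKp.2.1
  have hJJ : 0 ≤ W.L.JJ := O.L.JJp
  have hx0 : 0 < xf b β r N.Sm N.Cm (-(k + z)) := Real.exp_pos _
  have hE0 : 0 ≤ (1 / 5 : ℝ) ^ i * (K * (N.τm * Real.exp (-(TT b β r / 2)))) := by
    rw [← mul_assoc K]
    positivity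
  have hV0 := L.v0
  have hqm := O.q0.1
  have hum := O.q0.2
  have hd0 : 0 ≤ d := le_trans (by positivity) hd
  have hu := uu_pos P.hb P.hβ hr
  have hD0 : 0 ≤ D := le_trans (by positivity) hD
  rcases lt_or_ge k (aw + b) with hR | hA
  · rw [Xw_R_mom P.hβ hr hR]
    have hk1 : (k : ℝ) ≤ ((aw + b - 1 : ℤ) : ℝ) := by exact_mod_cast (by omega : k ≤ aw + b - 1)
    have h2 : (k + z) * hh b ≤ ((aw + b - 1 : ℤ) : ℝ) * hh b := mul_le_mul_of_nonneg_right (by linarith) hh0.le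
    have h3 := P.hρ2
    have h1 := RR_rel_mom O.L (P.pL O) L ht (by
      have : 0 ≤ β * r * (Real.exp (hv b (β * r) N.Sm) / 2) := by positivity
      rw [ht]
      linarith) Λ hd hD
    rw [hS] at h1
    refine h1.trans ?_
    apply mul_le_mul_of_nonneg_right _ hg.le
    have h4 : 0 ≤ (W.qm * (D * W.L.KK + W.L.JJ) + W.um * W.L.KK) * xf b β r N.Sm N.Cm (-(k + z)) := by positivity
    linarith
  · rw [Xw_A_mom P.hβ hr hA (by have := P.hc; omega)]
    have hρ1 : aw + b ≤ -1 := by omega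
    obtain ⟨hq1, hq2⟩ := P.hqm hρ1
    have hk1 : (k : ℝ) ≤ -1 := by exact_mod_cast hk
    have h2 : (k + z) * hh b ≤ -1 * hh b := mul_le_mul_of_nonneg_right (by linarith) hh0.le
    have hkk := O.kk.trans P.hk1
    have h1 := RR_mom O.L (P.pL O) L (P.VL O) ht (by
      rw [ht]
      linarith [Real.pi_lt_d4]) Λ hd hD
    have ht2 : tk b β r k z - 2 * Real.pi = -(β * r) + ((k + z) - b) * hh b := by
      have hb : (0 : ℝ) < b := by exact_mod_cast P.hb
      have hbh : (b : ℝ) * hh b = 2 * Real.pi := by unfold hh; field_simp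
      rw [ht]
      linarith
    have hd2 : |-wl (β * r) (hv b (β * r) N.Sm) - (tk b β r k z - 2 * Real.pi) - Λ.re| +
        |-hv b (β * r) N.Sm - Λ.im| ≤ d + 2 * Real.pi := by
      have e1 : -wl (β * r) (hv b (β * r) N.Sm) - (tk b β r k z - 2 * Real.pi) - Λ.re =
          (-wl (β * r) (hv b (β * r) N.Sm) - tk b β r k z - Λ.re) + 2 * Real.pi := by ring
      have e2 := abs_add_le (-wl (β * r) (hv b (β * r) N.Sm) - tk b β r k z - Λ.re) (2 * Real.pi)
      rw [abs_of_nonneg (by positivity : 0 ≤ 2 * Real.pi)] at e2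
      rw [e1]
      linarith
    have h3 := RR_rel_mom O.L (P.pL O) L ht2 (by
      have : 0 ≤ β * r * (Real.exp (hv b (β * r) N.Sm) / 2) := by positivity
      rw [ht]
      linarith) Λ hd2 (D := D + 2 * Real.pi * uu b β r) (by linarith)
    rw [hS] at h1 h3
    have e1 : -((k : ℝ) + z - b) = -(k + z) + b := by ring
    have e5 : tk b β r k z - 2 * Real.pi + β = tk b β r k z + β - 2 * Real.pi := by ring
    rw [ew_per, e5] at h3
    have h5 := (P.pL O).q_le O.L L.hv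
    rw [(P.pL O).q_eq O.L L.hv, hS] at h5
    have e6 : xf b β r N.Sm N.Cm (-((k : ℝ) + z - b)) = xf b β r N.Sm N.Cm (-(k + z)) *
        Real.exp (-((b : ℝ) * (TT b β r * N.Sm))) := by rw [e1, xf_add]
    have h4 : ((D + 2 * Real.pi * uu b β r) * W.L.KK + W.L.JJ) * xf b β r N.Sm N.Cm (-((k : ℝ) + z - b)) ≤
        (W.qm * (D * W.L.KK + W.L.JJ) + W.um * W.L.KK) * xf b β r N.Sm N.Cm (-(k + z)) := by
      rw [e6]
      have k1 : (D * W.L.KK + W.L.JJ) * Real.exp (-((b : ℝ) * (TT b β r * N.Sm))) ≤ (D * W.L.KK + W.L.JJ) * W.qm :=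
        mul_le_mul_of_nonneg_left (h5.1.trans hq1) (by positivity)
      have k2 : W.L.KK * (2 * Real.pi * (uu b β r * Real.exp (-((b : ℝ) * (TT b β r * N.Sm))))) ≤ W.L.KK * W.um :=
        mul_le_mul_of_nonneg_left (h5.2.trans hq2) hKK
      calc ((D + 2 * Real.pi * uu b β r) * W.L.KK + W.L.JJ) * (xf b β r N.Sm N.Cm (-(k + z)) *
            Real.exp (-((b : ℝ) * (TT b β r * N.Sm)))) =
          ((D * W.L.KK + W.L.JJ) * Real.exp (-((b : ℝ) * (TT b β r * N.Sm))) +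
            W.L.KK * (2 * Real.pi * (uu b β r * Real.exp (-((b : ℝ) * (TT b β r * N.Sm)))))) *
            xf b β r N.Sm N.Cm (-(k + z)) := by ring
        _ ≤ ((D * W.L.KK + W.L.JJ) * W.qm + W.L.KK * W.um) * xf b β r N.Sm N.Cm (-(k + z)) :=
            mul_le_mul_of_nonneg_right (add_le_add k1 k2) hx0.le
        _ = _ := by ring
    have hs0 : 0 ≤ -hv b (β * r) N.Sm + 4 / 3 := by linarith [P.VL O]
    have hs1 : -hv b (β * r) N.Sm + 4 / 3 ≤ 4 / 3 := by linarith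
    have hZ : W.θ * r + TT b β r / 2 ≤ r * (1 + 0.84 - W.gm) := by
      have := mul_le_mul_of_nonneg_left O.gm.1 hr.le
      have := P.T2 O
      linarith
    have h6 := ab0_le (χ := 0.84) (g := W.gm) (e := W.em) (Z := W.θ * r + TT b β r / 2) O.L (P.pL O) hs0 hs1 hZ
      O.gm.2.1 O.gm.2.2
    have h6' := ab1_le (χ := 0.84) (g := W.gm) (e := W.em) (Z := W.θ * r + TT b β r / 2) O.L (P.pL O) hs0 hs1 hZ
      O.gm.2.1 O.gm.2.2
    have h7 := ab0_nonneg (χ := 0.84) O.L (P.pL O) hs0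
    have h7' := ab1_nonneg (χ := 0.84) O.L (P.pL O) hs0
    have h8 : D * ab0 β r (-hv b (β * r) N.Sm + 4 / 3) 0.84 + ab1 b β r (-hv b (β * r) N.Sm + 4 / 3) 0.84 ≤
        (1 / 5) ^ i * (K * (N.τm * Real.exp (-(TT b β r / 2)))) := by
      refine P.abs_le O (hi hA) (by positivity) (X := D * (W.L.A * W.L.sR * (1 / W.L.R0 + 4 / 3) * W.em) +
        W.L.J1 * W.L.R0 * (3.1416 * (1 / W.L.R0 + 4 / 3) +
          (4 / 3 / W.L.R0 + (1 / W.L.R0) ^ 2 + (4 / 3) ^ 2)) * W.em) ?_ ?_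
      · have h9 := mul_le_mul_of_nonneg_left h6 hD0
        linarith
      · refine le_trans (le_of_eq ?_) hK
        unfold WC.aKm WC.aJm
        ring
    have e7 : ew β r (tk b β r k z) * AA β r (tk b β r k z + β) - Λ / β * AA β r (tk b β r k z) =
        (ew β r (tk b β r k z) * RR β r (tk b β r k z + β) - Λ / β * RR β r (tk b β r k z)) -
        (ew β r (tk b β r k z) * RR β r (tk b β r k z + β - 2 * Real.pi) -
          Λ / β * RR β r (tk b β r k z - 2 * Real.pi)) := by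
      rw [AA_eq_RR P.hβ hr, AA_eq_RR P.hβ hr]
      ring
    rw [e7]
    have hT : 0 < hh b / TT b β r := div_pos hh0 ((P.pL O).Tp O.L)
    have h9 := mul_le_mul_of_nonneg_left (norm_sub_le
      (ew β r (tk b β r k z) * RR β r (tk b β r k z + β) - Λ / β * RR β r (tk b β r k z))
      (ew β r (tk b β r k z) * RR β r (tk b β r k z + β - 2 * Real.pi) -
          Λ / β * RR β r (tk b β r k z - 2 * Real.pi))) hT.le
    have h10 := mul_le_mul_of_nonneg_right (add_le_add h4 h8) hg.le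
    linarith

/-- second differences, right -/
private theorem sec_right {κ D2 Dm Sg : ℝ} (hκ : 1 ≤ κ) (hb : 1 ≤ b) (hq : -1 ≤ N.qL ∧ N.qR ≤ 0)
    (S : SecD b κ N D2 Dm Sg) {z : ℝ} (hz : z ∈ Icc N.qL N.qR) (hd : (z + 1) * hh b < κ + Real.pi / 2)
    {j : ℝ} (hj : 0 ≤ j) {t : ℝ} (ht : t = -κ + (2 + j + z) * hh b) {Λ : ℂ}
    (hΛ : Λ = (2 + j) * sig κ (tz b κ 1 z) - (1 + j) * sig κ (tz b κ 0 z)) :
    |wv κ (hv b κ N.S) - t - Λ.re| + |hv b κ N.S - Λ.im| ≤ (D2 + j * Sg) * (κ * hh b / (1 + κ ^ 2)) := by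
  obtain ⟨y0, y1, p0, p1⟩ := signs hκ hb (z := z) ⟨by linarith [hz.1], by linarith [hz.2]⟩ hd
  have h1 := S.d2 z hz (hv b κ N.S) (wv κ (hv b κ N.S)) hv_spec rfl
  have h2 := S.sg z hz
  have e1 : Λ.re = (2 + j) * sx κ (tz b κ 1 z) - (1 + j) * sx κ (tz b κ 0 z) := by
    rw [hΛ]; unfold sig; simp
  have e2 : Λ.im = (2 + j) * sy κ (tz b κ 1 z) - (1 + j) * sy κ (tz b κ 0 z) := by
    rw [hΛ]; unfold sig; simp
  have e3 : wv κ (hv b κ N.S) - t - Λ.re = (wv κ (hv b κ N.S) - (2 * ph κ (tz b κ 1 z) - ph κ (tz b κ 0 z))) -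
      j * (ph κ (tz b κ 1 z) - ph κ (tz b κ 0 z)) := by
    rw [e1, ht]
    unfold ph tz
    push_cast
    ring
  have e4 : hv b κ N.S - Λ.im = (hv b κ N.S - (2 * sy κ (tz b κ 1 z) - sy κ (tz b κ 0 z))) -
      j * (sy κ (tz b κ 1 z) - sy κ (tz b κ 0 z)) := by
    rw [e2]; ring
  have k1 := abs_sub (wv κ (hv b κ N.S) - (2 * ph κ (tz b κ 1 z) - ph κ (tz b κ 0 z)))
    (j * (ph κ (tz b κ 1 z) - ph κ (tz b κ 0 z)))
  have k2 := abs_sub (hv b κ N.S - (2 * sy κ (tz b κ 1 z) - sy κ (tz b κ 0 z)))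
    (j * (sy κ (tz b κ 1 z) - sy κ (tz b κ 0 z)))
  rw [abs_of_nonneg (mul_nonneg hj (by linarith) : 0 ≤ j * (ph κ (tz b κ 1 z) - ph κ (tz b κ 0 z)))] at k1
  rw [abs_of_nonneg (mul_nonneg hj (by linarith) : 0 ≤ j * (sy κ (tz b κ 1 z) - sy κ (tz b κ 0 z)))] at k2
  rw [e3, e4]
  have k3 := mul_le_mul_of_nonneg_left h2 hj
  linarith

/-- second differences, left -/
private theorem sec_left {κ D2 Dm Sg : ℝ} (hκ : 1 ≤ κ) (hb : 1 ≤ b) (hq : -1 ≤ N.qL ∧ N.qR ≤ 0)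
    (S : SecD b κ N D2 Dm Sg) {z : ℝ} (hz : z ∈ Icc N.qL N.qR) (hd : (z + 1) * hh b < κ + Real.pi / 2)
    {j : ℝ} (hj : 0 ≤ j) {t : ℝ} (ht : t = -κ + (-1 - j + z) * hh b) {Λ : ℂ}
    (hΛ : Λ = (2 + j) * sig κ (tz b κ 0 z) - (1 + j) * sig κ (tz b κ 1 z)) :
    |-wl κ (hv b κ N.Sm) - t - Λ.re| + |-hv b κ N.Sm - Λ.im| ≤ (Dm + j * Sg) * (κ * hh b / (1 + κ ^ 2)) := by
  obtain ⟨y0, y1, p0, p1⟩ := signs hκ hb (z := z) ⟨by linarith [hz.1], by linarith [hz.2]⟩ hd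
  have h1 := S.dm z hz (-hv b κ N.Sm) (-wl κ (hv b κ N.Sm)) (by
    rw [mul_neg, hv_spec]) (by rw [wl_eq, neg_neg])
  have h2 := S.sg z hz
  have e1 : Λ.re = (2 + j) * sx κ (tz b κ 0 z) - (1 + j) * sx κ (tz b κ 1 z) := by
    rw [hΛ]; unfold sig; simp
  have e2 : Λ.im = (2 + j) * sy κ (tz b κ 0 z) - (1 + j) * sy κ (tz b κ 1 z) := by
    rw [hΛ]; unfold sig; simp
  have e3 : -wl κ (hv b κ N.Sm) - t - Λ.re = (-wl κ (hv b κ N.Sm) - (2 * ph κ (tz b κ 0 z) - ph κ (tz b κ 1 z))) +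
      j * (ph κ (tz b κ 1 z) - ph κ (tz b κ 0 z)) := by
    rw [e1, ht]
    unfold ph tz
    push_cast
    ring
  have e4 : -hv b κ N.Sm - Λ.im = (-hv b κ N.Sm - (2 * sy κ (tz b κ 0 z) - sy κ (tz b κ 1 z))) +
      j * (sy κ (tz b κ 1 z) - sy κ (tz b κ 0 z)) := by
    rw [e2]; ring
  have k1 := abs_add_le (-wl κ (hv b κ N.Sm) - (2 * ph κ (tz b κ 0 z) - ph κ (tz b κ 1 z)))
    (j * (ph κ (tz b κ 1 z) - ph κ (tz b κ 0 z)))
  have k2 := abs_add_le (-hv b κ N.Sm - (2 * sy κ (tz b κ 0 z) - sy κ (tz b κ 1 z)))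
    (j * (sy κ (tz b κ 1 z) - sy κ (tz b κ 0 z)))
  rw [abs_of_nonneg (mul_nonneg hj (by linarith) : 0 ≤ j * (ph κ (tz b κ 1 z) - ph κ (tz b κ 0 z)))] at k1
  rw [abs_of_nonneg (mul_nonneg hj (by linarith) : 0 ≤ j * (sy κ (tz b κ 1 z) - sy κ (tz b κ 0 z)))] at k2
  rw [e3, e4]
  have k3 := mul_le_mul_of_nonneg_left h2 hj
  linarith

private theorem uu_mul {D : ℝ} (hb : 1 ≤ b) (hβ : 0 < β) (hr : 0 < r) :
    uu b β r * (D * (β * r * hh b / (1 + (β * r) ^ 2))) = D := by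
  have := hh_posW hb
  unfold uu
  field_simp

/-- MOMENTS of the far windows -/
theorem WP.momH {D2 Dm Sg : ℝ} (O : W.Ok N) (M : W.OkM N D2 Dm)
    (M3 : 2 ≤ b → W.OkM3 N D2 Dm Sg) (P : WP b β r aw n N W) (S : SecD b (β * r) N D2 Dm Sg) :
    MomH b β r aw n N := by
  have hr := P.rp O
  have hβ := P.hβ
  have hκ := P.kap O
  have hb := P.hb
  have hg := GN_posW β r
  have hpi := Real.pi_gt_d4
  obtain ⟨hKR, hKL, hKQ⟩ := O.KKp
  have hdom : ∀ z ∈ Icc N.qL N.qR, (z + 1) * hh b < β * r + Real.pi / 2 := by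
    intro z hz
    have h1 := P.hh_le O
    have h2 : (z + 1) * hh b ≤ (N.qR + 1) * hh b := mul_le_mul_of_nonneg_right (by linarith [hz.2]) (hh_posW hb).le
    have h3 : (N.qR + 1) * hh b ≤ (N.qR + 1) * (6.2832 / W.R.b1) :=
      mul_le_mul_of_nonneg_left h1 (by linarith [O.qR])
    have h4 := M.dom
    have h5 := P.hk1
    linarith
  have haKm : 0 ≤ W.aKm := by
    have h1 := O.L.A.1
    have h2 := O.L.sR.1
    have h3 := O.L.R0p
    have h4 : 0 ≤ W.em := le_trans (Real.exp_pos _).le O.gm.2.2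
    have h5 : 0 ≤ W.P5 := by linarith [O.P5.1]
    unfold WC.aKm
    positivity
  have haJm : 0 ≤ W.aJm := by
    have h1 := O.L.J1.1
    have h3 := O.L.R0p
    have h4 : 0 ≤ W.em := le_trans (Real.exp_pos _).le O.gm.2.2
    have h5 : 0 ≤ W.P5 := by linarith [O.P5.1]
    unfold WC.aJm
    positivity
  have hu := uu_pos hb hβ hr
  have hh0 := hh_posW hb
  have hκ0 : 0 < β * r := by linarith
  refine ⟨?_, ?_, ?_, ?_⟩
  · -- window 2
    intro _ z hz
    have hz0 : z ≤ 0 := hz.2.trans M.q.2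
    have hd := sec_right (Dm := Dm) (D2 := D2) (Sg := Sg) hκ hb M.q S hz (hdom z hz) (j := 0) le_rfl
      (t := tk b β r 2 z) (by unfold tk; push_cast; ring)
      (Λ := 2 * sig (β * r) (tk b β r 1 z) - sig (β * r) (tk b β r 0 z)) (by
        rw [tk_eq_tz, tk_eq_tz]; push_cast; ring)
    have h1 := P.right_mom (k := 2) (i := 0) O le_rfl (by omega) (Or.inl rfl) hz.2 _ hd
      (le_of_eq (uu_mul hb hβ hr)) (K := N.P2) (by rw [zero_mul, add_zero]; exact M.P2')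
    refine h1.trans ?_
    apply mul_le_mul_of_nonneg_right _ hg.le
    rw [pow_zero, one_mul, Num.W2, if_pos hz.2, mul_add N.P2]
    apply add_le_add _ le_rfl
    have e1 : Real.exp (-(TT b β r * (N.S * (2 + z) - N.C))) = xf b β r N.S N.C (((2 : ℤ) : ℝ) + z) := by
      unfold xf; norm_num
    rw [e1]
    refine mul_le_mul_of_nonneg_right ?_ (Real.exp_pos _).le
    rw [zero_mul, add_zero]
    exact M.P2
  · -- windows 3 + i
    intro i hi z hz
    have hz0 : z ≤ 0 := hz.2.trans M.q.2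
    have hmem : (3 + (i : ℤ)) < 2 + b := by
      unfold sw at hi
      rw [Finset.mem_erase, Finset.mem_erase, Finset.mem_Ico, P.hc] at hi
      exact hi.2.2.2
    have M3' := M3 (by omega)
    have hi0 : (0 : ℝ) ≤ i := Nat.cast_nonneg i
    have hd := sec_right (Dm := Dm) (D2 := D2) (Sg := Sg) hκ hb M.q S hz (hdom z hz) (j := 1 + i) (by positivity)
      (t := tk b β r (3 + i) z) (by unfold tk; push_cast; ring)
      (Λ := (3 + i) * sig (β * r) (tk b β r 1 z) - (2 + i) * sig (β * r) (tk b β r 0 z)) (by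
        rw [tk_eq_tz, tk_eq_tz]; push_cast; ring)
    have h1 := P.right_mom (k := 3 + i) (i := i) O (by omega) (by omega) (Or.inr (by omega)) hz.2 _ hd
      (le_of_eq (uu_mul hb hβ hr)) (K := N.P3 + i * N.P4) (by
        have k1 := mul_le_mul_of_nonneg_left M3'.P4' hi0
        have k2 := M3'.P3'
        linarith)
    refine h1.trans ?_
    apply mul_le_mul_of_nonneg_right _ hg.le
    rw [Num.W3, if_pos hz.2, mul_assoc ((1 / 5 : ℝ) ^ i), mul_add (N.P3 + i * N.P4), mul_add ((1 / 5 : ℝ) ^ i)]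
    apply add_le_add _ le_rfl
    have e1 : Real.exp (-(TT b β r * (N.S * (3 + z) - N.C))) = xf b β r N.S N.C (3 + z) := rfl
    have e2 : (((3 + i : ℤ)) : ℝ) + z = (3 + z) + i := by push_cast; ring
    rw [e1, e2]
    have h2 := P.gain (C := N.C) (Y := 3 + z) O.ρ5 (by rw [← O.kS.1]; exact O.R.S) i
    have hx0 : 0 < xf b β r N.S N.C (3 + z) := Real.exp_pos _
    have hJJ : 0 ≤ W.R.JJ := O.R.JJp
    have hD2 : 0 ≤ (D2 + (1 + i) * Sg) := by
      have h3 : 0 ≤ (D2 + (1 + i) * Sg) * (β * r * hh b / (1 + (β * r) ^ 2)) :=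
        le_trans (by positivity) hd
      have h4 : 0 < β * r * hh b / (1 + (β * r) ^ 2) := by positivity
      exact nonneg_of_mul_nonneg_left h3 h4
    calc ((D2 + (1 + i) * Sg) * W.R.KK + W.R.JJ) * xf b β r N.S N.C (3 + z + i) ≤
          ((D2 + (1 + i) * Sg) * W.R.KK + W.R.JJ) * ((1 / 5) ^ i * xf b β r N.S N.C (3 + z)) :=
          mul_le_mul_of_nonneg_left h2 (by positivity)
      _ = (1 / 5) ^ i * (((D2 + (1 + i) * Sg) * W.R.KK + W.R.JJ) * xf b β r N.S N.C (3 + z)) := by ring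
      _ ≤ (1 / 5) ^ i * ((N.P3 + i * N.P4) * xf b β r N.S N.C (3 + z)) := by
          apply mul_le_mul_of_nonneg_left _ (by positivity)
          apply mul_le_mul_of_nonneg_right _ hx0.le
          have k1 := mul_le_mul_of_nonneg_left M3'.P4 hi0
          have k2 := M3'.P3
          linarith
  · -- window -1
    intro _ z hz
    have hz0 : z ≤ 0 := hz.2.trans M.q.2
    have hd := sec_left (Dm := Dm) (D2 := D2) (Sg := Sg) hκ hb M.q S hz (hdom z hz) (j := 0) le_rfl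
      (t := tk b β r (-1) z) (by unfold tk; push_cast; ring)
      (Λ := 2 * sig (β * r) (tk b β r 0 z) - sig (β * r) (tk b β r 1 z)) (by
        rw [tk_eq_tz, tk_eq_tz]; push_cast; ring)
    have hDm : 0 ≤ Dm := by
      have h3 : 0 ≤ (Dm + 0 * Sg) * (β * r * hh b / (1 + (β * r) ^ 2)) :=
        le_trans (by positivity) hd
      have h4 : 0 < β * r * hh b / (1 + (β * r) ^ 2) := by positivity
      have h5 := nonneg_of_mul_nonneg_left h3 h4
      linarith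
    have hK0 : 0 ≤ N.Pm * N.τm := le_trans (by positivity) M.Pm'
    have h1 := P.left_mom (k := -1) (i := 0) O le_rfl (fun _ => Or.inl rfl) hz0 _ hd
      (le_of_eq (uu_mul hb hβ hr)) (K := N.Pm) (by rw [zero_mul, add_zero]; exact M.Pm') hK0
    refine h1.trans ?_
    apply mul_le_mul_of_nonneg_right _ hg.le
    rw [pow_zero, one_mul, Num.Wm, mul_add N.Pm]
    apply add_le_add _ le_rfl
    have e1 : Real.exp (-(TT b β r * (N.Sm * (1 - z) - N.Cm))) = xf b β r N.Sm N.Cm (-(((-1 : ℤ) : ℝ) + z)) := by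
      unfold xf; congr 5; push_cast; ring
    rw [e1]
    refine mul_le_mul_of_nonneg_right ?_ (Real.exp_pos _).le
    rw [zero_mul, add_zero]
    exact M.Pm
  · -- windows -2 - i
    intro i hi z hz
    have hz0 : z ≤ 0 := hz.2.trans M.q.2
    have hmem : aw ≤ -2 - (i : ℤ) := by
      unfold sw at hi
      rw [Finset.mem_erase, Finset.mem_erase, Finset.mem_Ico] at hi
      exact hi.2.2.1
    have hb2 : 2 ≤ b := by
      by_contra hcon
      have hb1 : b = 1 := by omega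
      have := P.h1 hb1
      omega
    have M3' := M3 hb2
    have hi0 : (0 : ℝ) ≤ i := Nat.cast_nonneg i
    have hd := sec_left (Dm := Dm) (D2 := D2) (Sg := Sg) hκ hb M.q S hz (hdom z hz) (j := 1 + i) (by positivity)
      (t := tk b β r (-2 - i) z) (by unfold tk; push_cast; ring)
      (Λ := (3 + i) * sig (β * r) (tk b β r 0 z) - (2 + i) * sig (β * r) (tk b β r 1 z)) (by
        rw [tk_eq_tz, tk_eq_tz]; push_cast; ring)
    have hDm : 0 ≤ (Dm + (1 + i) * Sg) := by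
      have h3 : 0 ≤ (Dm + (1 + i) * Sg) * (β * r * hh b / (1 + (β * r) ^ 2)) :=
        le_trans (by positivity) hd
      have h4 : 0 < β * r * hh b / (1 + (β * r) ^ 2) := by positivity
      exact nonneg_of_mul_nonneg_left h3 h4
    have hK : (Dm + (1 + i) * Sg) * W.aKm + W.aJm ≤ (N.Pm2 + i * N.Pm3) * N.τm := by
      have k1 := mul_le_mul_of_nonneg_left M3'.Pm3' hi0
      have k2 := M3'.Pm2'
      linarith
    have h1 := P.left_mom (k := -2 - i) (i := i) O (by omega) (fun hA => by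
      have := P.hρ3 (by omega)
      right; omega) hz0 _ hd
      (le_of_eq (uu_mul hb hβ hr)) (K := N.Pm2 + i * N.Pm3) hK (le_trans (by positivity) hK)
    refine h1.trans ?_
    apply mul_le_mul_of_nonneg_right _ hg.le
    rw [Num.Wm2, mul_assoc ((1 / 5 : ℝ) ^ i), mul_add (N.Pm2 + i * N.Pm3), mul_add ((1 / 5 : ℝ) ^ i)]
    apply add_le_add _ le_rfl
    have e1 : Real.exp (-(TT b β r * (N.Sm * (2 - z) - N.Cm))) = xf b β r N.Sm N.Cm (2 - z) := rfl
    have e2 : -((((-2 - i : ℤ)) : ℝ) + z) = (2 - z) + i := by push_cast; ring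
    rw [e1, e2]
    have h2 := P.gain (C := N.Cm) (Y := 2 - z) O.ρm5 (by rw [← O.kS.2.1]; exact O.L.S) i
    have hx0 : 0 < xf b β r N.Sm N.Cm (2 - z) := Real.exp_pos _
    have hq := O.q0.1
    have hum := O.q0.2
    have hJJ : 0 ≤ W.L.JJ := O.L.JJp
    calc ((1 + W.qm) * ((Dm + (1 + i) * Sg) * W.L.KK + W.L.JJ) + W.um * W.L.KK) * xf b β r N.Sm N.Cm (2 - z + i) ≤
          ((1 + W.qm) * ((Dm + (1 + i) * Sg) * W.L.KK + W.L.JJ) + W.um * W.L.KK) *
            ((1 / 5) ^ i * xf b β r N.Sm N.Cm (2 - z)) :=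
          mul_le_mul_of_nonneg_left h2 (by positivity)
      _ = (1 / 5) ^ i * (((1 + W.qm) * ((Dm + (1 + i) * Sg) * W.L.KK + W.L.JJ) + W.um * W.L.KK) *
            xf b β r N.Sm N.Cm (2 - z)) := by ring
      _ ≤ (1 / 5) ^ i * ((N.Pm2 + i * N.Pm3) * xf b β r N.Sm N.Cm (2 - z)) := by
          apply mul_le_mul_of_nonneg_left _ (by positivity)
          apply mul_le_mul_of_nonneg_right _ hx0.le
          have k1 := mul_le_mul_of_nonneg_left M3'.Pm3 hi0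
          have k2 := M3'.Pm2
          linarith

end

end Sok.R2
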