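import Pool.Agent.Lib.MP_816dec_an.R2WCst
import Pool.Agent.Lib.MP_816dec_an.R2Line

/-!
MP_816dec_an (row R2, far windows): normalisation, and the bounds of the left and right functions.
-/

set_option autoImplicit false

open Complex Set Filter Topology MeasureTheory

namespace Sok.R2

/-- the normalising factor -/
noncomputable def nrm (β r : ℝ) : ℝ :=
  Real.sqrt (Real.sqrt (1 + (β * r) ^ 2)) / Real.sqrt (2 * Real.pi * β)

theorem nrm_pos {β r : ℝ} (hβ : 0 < β) : 0 < nrm β r := by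
  have hpi := Real.pi_pos
  unfold nrm; positivity

theorem GN_posW (β r : ℝ) : 0 < GN β r := by unfold GN; positivity

theorem nrm_GN {β r : ℝ} (hβ : 0 < β) :
    (Real.sqrt (2 * Real.pi * β))⁻¹ * Real.exp r = nrm β r * GN β r := by
  have hpi := Real.pi_pos
  have h1 : 0 < Real.sqrt (Real.sqrt (1 + (β * r) ^ 2)) := by positivity
  have h2 : 0 < Real.sqrt (2 * Real.pi * β) := by positivity
  unfold nrm GN
  field_simp

private theorem nrm_sq {β r : ℝ} (hβ : 0 < β) :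
    nrm β r ^ 2 = Real.sqrt (1 + (β * r) ^ 2) / (2 * Real.pi * β) := by
  have hpi := Real.pi_pos
  unfold nrm
  rw [div_pow, Real.sq_sqrt (by positivity), Real.sq_sqrt (by positivity)]

private theorem sqrt_kappa {β r k1 A : ℝ} (hβ : 0 < β) (hr : 0 < r) (hk : 0 < k1) (h1 : k1 ≤ β * r) (hA : 0 < A)
    (h : 1 + 1 / k1 ^ 2 ≤ A ^ 4) : 1 + (β * r) ^ 2 ≤ A ^ 4 * (β * r) ^ 2 ∧
      Real.sqrt (1 + (β * r) ^ 2) ≤ A ^ 2 * (β * r) := by
  have hκ : 0 < β * r := by positivity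
  have h2 : 1 + (β * r) ^ 2 ≤ A ^ 4 * (β * r) ^ 2 := by
    have h3 : 1 ≤ 1 / k1 ^ 2 * (β * r) ^ 2 := by
      rw [one_div_mul_eq_div, le_div_iff₀ (by positivity)]
      have := pow_le_pow_left₀ hk.le h1 2
      linarith
    have h4 := mul_le_mul_of_nonneg_right h (by positivity : 0 ≤ (β * r) ^ 2)
    linarith
  refine ⟨h2, ?_⟩
  rw [Real.sqrt_le_left (by positivity)]
  linarith

theorem nrm_le {β r k1 A : ℝ} (hβ : 0 < β) (hr : 0 < r) (hk : 0 < k1) (h1 : k1 ≤ β * r) (hA : 0 < A)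
    (h : 1 + 1 / k1 ^ 2 ≤ A ^ 4) : nrm β r ≤ A * Real.sqrt (r / (2 * Real.pi)) := by
  have hpi := Real.pi_pos
  have h2 := (sqrt_kappa hβ hr hk h1 hA h).2
  apply le_of_sq_le_sq _ (by positivity)
  rw [nrm_sq hβ, mul_pow A, Real.sq_sqrt (by positivity), div_le_iff₀ (by positivity)]
  have e1 : A ^ 2 * (r / (2 * Real.pi)) * (2 * Real.pi * β) = A ^ 2 * (β * r) := by field_simp
  rw [e1]
  exact h2

/-- the unit of the moments -/
noncomputable def uu (b : ℕ) (β r : ℝ) : ℝ := (1 + (β * r) ^ 2) / (β * r * hh b)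

theorem hh_posW {b : ℕ} (hb : 1 ≤ b) : 0 < hh b := by
  have : (0 : ℝ) < b := by exact_mod_cast hb
  have := Real.pi_pos
  unfold hh; positivity

theorem uu_pos {b : ℕ} {β r : ℝ} (hb : 1 ≤ b) (hβ : 0 < β) (hr : 0 < r) : 0 < uu b β r := by
  have := hh_posW hb
  unfold uu; positivity

/-- `(h / T) β⁻¹ = u` -/
theorem hT_uu {b : ℕ} {β r : ℝ} (hb : 1 ≤ b) (hβ : 0 < β) (hr : 0 < r) :
    hh b / TT b β r * β⁻¹ = uu b β r := by
  have := hh_posW hb
  unfold uu TT
  field_simp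

theorem unrm_le {b : ℕ} {β r k1 A J T0 : ℝ} (hb : 1 ≤ b) (hβ : 0 < β) (hr : 0 < r) (hk : 0 < k1) (h1 : k1 ≤ β * r)
    (hA : 0 < A) (h : 1 + 1 / k1 ^ 2 ≤ A ^ 4) (hJ : 0 < J) (hT0 : 0 < T0) (hJ' : A ^ 6 ≤ J ^ 2 * (6.283 * T0))
    (hT : T0 ≤ TT b β r) : uu b β r * nrm β r ≤ J * r := by
  have hpi := Real.pi_pos
  have hh0 := hh_posW hb
  obtain ⟨h2, h3⟩ := sqrt_kappa hβ hr hk h1 hA h
  have hκ : 0 < β * r := by positivity
  apply le_of_sq_le_sq _ (by positivity)
  rw [mul_pow, nrm_sq hβ]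
  have h4 : T0 * (1 + (β * r) ^ 2) ≤ r * hh b ^ 2 := by
    unfold TT at hT
    rwa [le_div_iff₀ (by positivity)] at hT
  have h5 : uu b β r ^ 2 ≤ A ^ 4 * (r / T0) := by
    unfold uu
    rw [div_pow, div_le_iff₀ (by positivity)]
    have e1 : A ^ 4 * (r / T0) * (β * r * hh b) ^ 2 = (A ^ 4 * (β * r) ^ 2) * (r * hh b ^ 2) / T0 := by
      field_simp
    rw [e1, le_div_iff₀ hT0]
    calc (1 + (β * r) ^ 2) ^ 2 * T0 = (1 + (β * r) ^ 2) * (T0 * (1 + (β * r) ^ 2)) := by ring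
      _ ≤ (A ^ 4 * (β * r) ^ 2) * (r * hh b ^ 2) := mul_le_mul h2 h4 (by positivity) (by positivity)
  have h6 : Real.sqrt (1 + (β * r) ^ 2) / (2 * Real.pi * β) ≤ A ^ 2 * (r / (2 * Real.pi)) := by
    rw [div_le_iff₀ (by positivity)]
    have e1 : A ^ 2 * (r / (2 * Real.pi)) * (2 * Real.pi * β) = A ^ 2 * (β * r) := by field_simp
    rw [e1]; exact h3
  calc uu b β r ^ 2 * (Real.sqrt (1 + (β * r) ^ 2) / (2 * Real.pi * β)) ≤
      (A ^ 4 * (r / T0)) * (A ^ 2 * (r / (2 * Real.pi))) := mul_le_mul h5 h6 (by positivity) (by positivity)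
    _ = A ^ 6 * (r ^ 2 / (T0 * (2 * Real.pi))) := by field_simp
    _ ≤ (J ^ 2 * (6.283 * T0)) * (r ^ 2 / (T0 * (2 * Real.pi))) := mul_le_mul_of_nonneg_right hJ' (by positivity)
    _ ≤ (J ^ 2 * ((2 * Real.pi) * T0)) * (r ^ 2 / (T0 * (2 * Real.pi))) := by
        apply mul_le_mul_of_nonneg_right _ (by positivity)
        have := Real.pi_gt_d4
        have h7 : 6.283 * T0 ≤ 2 * Real.pi * T0 := mul_le_mul_of_nonneg_right (by linarith) hT0.le
        exact mul_le_mul_of_nonneg_left h7 (by positivity)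
    _ = (J * r) ^ 2 := by field_simp

/-- a point of the class of `N` -/
structure Pt (b : ℕ) (β r : ℝ) (N : FC) : Prop where
  hb : 1 ≤ b
  hb' : N.b1 ≤ b
  hβ : 0 < β
  hk1 : N.k1 ≤ β * r
  hk2 : β * r ≤ N.k2
  hR : N.R0 ≤ r
  hT : N.T0 ≤ TT b β r

section
variable {b : ℕ} {β r : ℝ} {N : FC} {Ev w n η v : ℝ}

theorem Pt.rp (H : N.Ok) (P : Pt b β r N) : 0 < r := lt_of_lt_of_le H.R0p P.hR

theorem Pt.nrm_le (H : N.Ok) (P : Pt b β r N) : nrm β r ≤ N.A * Real.sqrt (r / (2 * Real.pi)) :=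
  Sok.R2.nrm_le P.hβ (P.rp H) (lt_of_lt_of_le one_pos H.k1) P.hk1 H.A.1 H.A.2

theorem Pt.unrm_le (H : N.Ok) (P : Pt b β r N) : uu b β r * nrm β r ≤ N.J1 * r :=
  Sok.R2.unrm_le P.hb P.hβ (P.rp H) (lt_of_lt_of_le one_pos H.k1) P.hk1 H.A.1 H.A.2 H.J1.1 H.T0 H.J1.2 P.hT

theorem Pt.Tp (H : N.Ok) (P : Pt b β r N) : 0 < TT b β r := lt_of_lt_of_le H.T0 P.hT

/-- `q` -/
theorem Pt.q_eq (H : N.Ok) (P : Pt b β r N) (hv : (1 + (β * r) ^ 2) * v = β * r * (hh b * N.S)) :
    2 * Real.pi * v / β = b * (TT b β r * N.S) := by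
  have hpi := Real.pi_pos
  have hr := P.rp H
  have hβ := P.hβ
  have hb : (0 : ℝ) < b := by exact_mod_cast P.hb
  have hh0 := hh_posW P.hb
  have e1 : v = β * r * (hh b * N.S) / (1 + (β * r) ^ 2) := by
    rw [eq_div_iff (by positivity)]; linarith
  have e2 : 2 * Real.pi = b * hh b := by unfold hh; field_simp
  rw [e1, e2]
  unfold TT
  field_simp

theorem Pt.q_le (H : N.Ok) (P : Pt b β r N) (hv : (1 + (β * r) ^ 2) * v = β * r * (hh b * N.S)) :
    Real.exp (-(2 * Real.pi * v / β)) ≤ N.Q ∧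
      2 * Real.pi * (uu b β r * Real.exp (-(2 * Real.pi * v / β))) ≤ 6.2832 * N.UQ := by
  have hpi := Real.pi_pos
  have hb : (0 : ℝ) < b := by exact_mod_cast P.hb
  have hr := P.rp H
  have hβ := P.hβ
  have hS := H.S
  have hTS : N.T0 * N.S ≤ TT b β r * N.S := mul_le_mul_of_nonneg_right P.hT hS.le
  have hTS0 : 0 < N.T0 * N.S := mul_pos H.T0 hS
  have hb1 : 0 < N.b1 := by linarith [H.b1]
  rw [P.q_eq H hv]
  have h1 : Real.exp (-((b : ℝ) * (TT b β r * N.S))) ≤ Real.exp (-((b : ℝ) * (N.T0 * N.S))) := by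
    apply Real.exp_le_exp.2
    have := mul_le_mul_of_nonneg_left hTS hb.le
    linarith
  have h2 : Real.exp (-((b : ℝ) * (N.T0 * N.S))) ≤ Real.exp (-(N.b1 * (N.T0 * N.S))) := by
    apply Real.exp_le_exp.2
    have := mul_le_mul_of_nonneg_right P.hb' hTS0.le
    linarith
  have h3 := sup_one (α := N.T0 * N.S) hb1 P.hb' H.q1
  refine ⟨h1.trans (h2.trans H.Q), ?_⟩
  have hk2p : 0 < N.k2 := by linarith [H.k1, H.k2]
  have hκ1 : 1 ≤ β * r := H.k1.trans P.hk1
  have h4 : uu b β r ≤ (1 + N.k2 ^ 2) / N.k2 * (b / (2 * Real.pi)) := by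
    have e1 : uu b β r = (1 + (β * r) ^ 2) / (β * r) * (b / (2 * Real.pi)) := by
      unfold uu hh; field_simp
    rw [e1]
    apply mul_le_mul_of_nonneg_right _ (by positivity)
    rw [div_le_div_iff₀ (by linarith) hk2p]
    have h5 : 0 ≤ (N.k2 - β * r) * (N.k2 * (β * r) - 1) := by
      apply mul_nonneg (by linarith [P.hk2])
      nlinarith [P.hk2]
    nlinarith
  have h5 : 0 < (1 + N.k2 ^ 2) / N.k2 := by positivity
  calc 2 * Real.pi * (uu b β r * Real.exp (-((b : ℝ) * (TT b β r * N.S))))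
      ≤ 2 * Real.pi * (((1 + N.k2 ^ 2) / N.k2 * (b / (2 * Real.pi))) * Real.exp (-((b : ℝ) * (N.T0 * N.S)))) := by
        apply mul_le_mul_of_nonneg_left _ (by positivity)
        exact mul_le_mul h4 h1 (Real.exp_pos _).le (by positivity)
    _ = (1 + N.k2 ^ 2) / N.k2 * (b * Real.exp (-((b : ℝ) * (N.T0 * N.S)))) := by field_simp
    _ ≤ (1 + N.k2 ^ 2) / N.k2 * (N.b1 * Real.exp (-(N.b1 * (N.T0 * N.S)))) := mul_le_mul_of_nonneg_left h3 h5.le
    _ ≤ (1 + N.k2 ^ 2) / N.k2 * (N.b1 * N.Q) := by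
        apply mul_le_mul_of_nonneg_left _ h5.le
        exact mul_le_mul_of_nonneg_left H.Q hb1.le
    _ = 6.283 * ((1 + N.k2 ^ 2) / N.k2 * (N.b1 / 6.283) * N.Q) := by field_simp
    _ ≤ 6.283 * N.UQ := mul_le_mul_of_nonneg_left H.UQ (by norm_num)
    _ ≤ 6.2832 * N.UQ := by
        apply mul_le_mul_of_nonneg_right (by norm_num)
        refine le_trans ?_ H.UQ
        have := H.Qp
        positivity

/-- class bound of the value constant -/
theorem R0c_le (H : N.Ok) (P : Pt b β r N) (G : Geo N r Ev w n η) (he : v / β = r * η)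
    (hv : (1 + (β * r) ^ 2) * v = β * r * (hh b * N.S)) :
    0 ≤ R0c β v w (r * n) ∧ nrm β r * R0c β v w (r * n) ≤ N.B0 / (1 - N.Q) := by
  have hq := (P.q_le H hv).1
  have h1 : 0 < 1 - N.Q := by linarith [H.Q1]
  have h0 := G.V0_nonneg H
  have h2 : nrm β r * V0 (r * n) (r * η) w ≤ N.B0 := by
    have h3 := mul_le_mul_of_nonneg_right (P.nrm_le H) h0
    have h4 := mul_le_mul_of_nonneg_left (G.V0_le H) H.A.1.le
    unfold FC.B0
    linarith
  unfold R0c
  rw [he]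
  constructor
  · exact div_nonneg h0 (by linarith)
  · rw [← mul_div_assoc]
    exact div_le_div₀ H.B0p.le h2 h1 (by linarith)

/-- class bound of the moment constant -/
theorem R1c_le (H : N.Ok) (P : Pt b β r N) (G : Geo N r Ev w n η) (he : v / β = r * η)
    (hv : (1 + (β * r) ^ 2) * v = β * r * (hh b * N.S)) :
    0 ≤ R1c β v w (r * n) ∧ uu b β r * nrm β r * R1c β v w (r * n) ≤
      N.B1 / (1 - N.Q) + 6.2832 * N.UQ * N.B0 / (1 - N.Q) ^ 2 := by
  have hpi := Real.pi_pos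
  obtain ⟨hq, hq'⟩ := P.q_le H hv
  have hr := P.rp H
  have h1 : 0 < 1 - N.Q := by linarith [H.Q1]
  have h0 := G.V0_nonneg H
  have h0' := G.V1_nonneg H
  have hu := uu_pos P.hb P.hβ hr
  have hn := nrm_pos (r := r) P.hβ
  have h2 : nrm β r * V0 (r * n) (r * η) w ≤ N.B0 := by
    have h3 := mul_le_mul_of_nonneg_right (P.nrm_le H) h0
    have h4 := mul_le_mul_of_nonneg_left (G.V0_le H) H.A.1.le
    unfold FC.B0
    linarith
  have h3 : uu b β r * nrm β r * V1 (r * n) (r * η) w ≤ N.B1 := by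
    have h3 := mul_le_mul_of_nonneg_right (P.unrm_le H) h0'
    have h4 := mul_le_mul_of_nonneg_left (G.V1_le H) H.J1.1.le
    unfold FC.B1
    linarith
  have h5 : 0 < 1 - Real.exp (-(2 * Real.pi * v / β)) := by linarith
  unfold R1c
  rw [he]
  constructor
  · positivity
  · have e1 : uu b β r * nrm β r * (V1 (r * n) (r * η) w / (1 - Real.exp (-(2 * Real.pi * v / β))) +
        2 * Real.pi * Real.exp (-(2 * Real.pi * v / β)) * V0 (r * n) (r * η) w /
          (1 - Real.exp (-(2 * Real.pi * v / β))) ^ 2) =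
        (uu b β r * nrm β r * V1 (r * n) (r * η) w) / (1 - Real.exp (-(2 * Real.pi * v / β))) +
        (2 * Real.pi * (uu b β r * Real.exp (-(2 * Real.pi * v / β)))) * (nrm β r * V0 (r * n) (r * η) w) /
          (1 - Real.exp (-(2 * Real.pi * v / β))) ^ 2 := by ring
    rw [e1]
    have hUQ : 0 ≤ 6.2832 * N.UQ := le_trans (by positivity) hq'
    apply add_le_add
    · exact div_le_div₀ H.B1p.le h3 h1 (by linarith)
    · apply div_le_div₀ (mul_nonneg hUQ H.B0p.le)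
      · exact mul_le_mul hq' h2 (mul_nonneg hn.le h0) hUQ
      · positivity
      · exact pow_le_pow_left₀ h1.le (by linarith) 2

/-- class bound of the relative leg -/
theorem leg_le (H : N.Ok) (P : Pt b β r N) (G : Geo N r Ev w n η) :
    nrm β r * (lg r Ev n η w * (2 / (r * Ev))) ≤ N.L0 ∧
      uu b β r * nrm β r * (lg r Ev n η w * (Real.pi * (2 / (r * Ev)) + (2 / (r * Ev)) ^ 2)) ≤ N.L1 := by
  have hpi := Real.pi_pos
  have hr := P.rp H
  have hE := H.E.1
  have hEv : 0 < Ev := lt_of_lt_of_le hE G.hE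
  have hlg : 0 ≤ lg r Ev n η w := (Real.exp_pos _).le
  have h1 := G.lg_le H
  have hu := uu_pos P.hb P.hβ hr
  have hn := nrm_pos (r := r) P.hβ
  have hs := H.sR.1
  have hR0 := H.R0p
  have h2 : 2 / Ev ≤ 2 / N.E := div_le_div_of_nonneg_left (by norm_num) hE G.hE
  constructor
  · have h3 : Real.sqrt (r / (2 * Real.pi)) ≤ N.sR / N.R0 * r := by
      rw [Real.sqrt_le_left (by positivity), div_le_iff₀ (by positivity)]
      have h3 : N.R0 ≤ N.sR ^ 2 * (2 * Real.pi) := by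
        have := mul_le_mul_of_nonneg_left (by linarith [Real.pi_gt_d4] : (6.283 : ℝ) ≤ 2 * Real.pi)
          (by positivity : 0 ≤ N.sR ^ 2)
        linarith [H.sR.2]
      have e1 : (N.sR / N.R0 * r) ^ 2 * (2 * Real.pi) = N.sR ^ 2 * (2 * Real.pi) * (r / N.R0 ^ 2 * r) := by
        field_simp
      rw [e1]
      have h4 : N.R0 * (r / N.R0 ^ 2 * r) ≤ N.sR ^ 2 * (2 * Real.pi) * (r / N.R0 ^ 2 * r) :=
        mul_le_mul_of_nonneg_right h3 (by positivity)
      have h5 : r ≤ N.R0 * (r / N.R0 ^ 2 * r) := by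
        have e2 : N.R0 * (r / N.R0 ^ 2 * r) = r * (r / N.R0) := by field_simp
        rw [e2]
        have : 1 ≤ r / N.R0 := by rw [le_div_iff₀ hR0]; linarith [P.hR]
        nlinarith
      linarith
    have h4 : nrm β r ≤ N.A * (N.sR / N.R0 * r) :=
      (P.nrm_le H).trans (mul_le_mul_of_nonneg_left h3 H.A.1.le)
    calc nrm β r * (lg r Ev n η w * (2 / (r * Ev))) ≤ (N.A * (N.sR / N.R0 * r)) * (N.lE * (2 / (r * Ev))) := by
          apply mul_le_mul h4 _ (by positivity) (by have := H.A.1; positivity)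
          exact mul_le_mul_of_nonneg_right h1 (by positivity)
      _ = N.A * (N.sR / N.R0) * (2 / Ev) * N.lE := by field_simp
      _ ≤ N.L0 := by
          unfold FC.L0
          apply mul_le_mul_of_nonneg_right _ H.lEp.le
          apply mul_le_mul_of_nonneg_left h2
          have := H.A.1
          positivity
  · have h4 : uu b β r * nrm β r ≤ N.J1 * r := P.unrm_le H
    have hJ := H.J1.1
    have hlE := H.lEp
    calc uu b β r * nrm β r * (lg r Ev n η w * (Real.pi * (2 / (r * Ev)) + (2 / (r * Ev)) ^ 2))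
        ≤ (N.J1 * r) * (N.lE * (Real.pi * (2 / (r * Ev)) + (2 / (r * Ev)) ^ 2)) := by
          apply mul_le_mul h4 _ (by positivity) (by positivity)
          exact mul_le_mul_of_nonneg_right h1 (by positivity)
      _ = N.J1 * N.lE * ((2 * Real.pi) / Ev + 4 / (Ev ^ 2 * r)) := by field_simp; ring
      _ ≤ N.L1 := by
          unfold FC.L1
          apply mul_le_mul_of_nonneg_left _ (by positivity)
          apply add_le_add
          · exact div_le_div₀ (by norm_num) (by linarith [Real.pi_lt_d4]) hE G.hE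
          · apply div_le_div_of_nonneg_left (by norm_num) (by positivity)
            exact mul_le_mul (pow_le_pow_left₀ hE.le G.hE 2) P.hR hR0.le (by positivity)

end

end Sok.R2
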