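import Pool.Agent.Lib.MP_816dec_an.R2WMom

/-!
MP_816dec_an (row R2, far windows): construction of the points of a class.
-/

set_option autoImplicit false

open Complex Set Filter Topology MeasureTheory

namespace Sok.R2

/-- numeric conditions which do not involve the point -/
structure WC.OkP (W : WC) (N : Num) : Prop where
  R0 : W.R.R0 ≤ 10 ∨ W.R.R0 * 39.4785 ≤ N.T0 * (W.R.b1 ^ 2 * (1 + W.R.k1 ^ 2))
  T0 : 5.44 ≤ N.T0

/-- the images of the left line, `b ≥ 3` -/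
def WC.OkR (W : WC) : Prop := W.L.Q ≤ W.qm ∧ 6.2832 * W.L.UQ ≤ W.um

/-- numeric conditions of the left tangent -/
structure WC.OkT (W : WC) (N : Num) (H1 X3 : ℝ) : Prop where
  h1 : 0 < H1 ∧ 6.283186 ≤ H1 * (W.R.b1 * W.R.k1)
  x3 : Real.exp (N.Sm * H1) ≤ X3
  C : X3 - 1 - N.Sm * H1 ≤ N.Cm * H1 ^ 2

private theorem quot_mono {y Y : ℝ} (hy : 0 < y) (h : y ≤ Y) :
    (Real.exp y - 1 - y) / y ^ 2 ≤ (Real.exp Y - 1 - Y) / Y ^ 2 := by
  have key : ∀ x : ℝ, 0 < x → 0 ≤ x * Real.exp x + x - 2 * Real.exp x + 2 := by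
    intro x hx
    have hm : MonotoneOn (fun t : ℝ => t * Real.exp t + t - 2 * Real.exp t + 2) (Icc 0 x) := by
      have hd : ∀ t : ℝ, HasDerivAt (fun t : ℝ => t * Real.exp t + t - 2 * Real.exp t + 2)
          (1 + (t - 1) * Real.exp t) t := by
        intro t
        have h1 := ((((hasDerivAt_id t).mul (Real.hasDerivAt_exp t)).add (hasDerivAt_id t)).sub
          ((Real.hasDerivAt_exp t).const_mul 2)).add_const 2
        refine h1.congr_deriv ?_
        simp only [id]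
        ring
      refine monotoneOn_of_deriv_nonneg (convex_Icc 0 x) (fun t _ => (hd t).continuousAt.continuousWithinAt)
        (fun t _ => (hd t).differentiableAt.differentiableWithinAt) fun t _ => ?_
      rw [(hd t).deriv]
      have h1 := Real.add_one_le_exp (-t)
      have h2 : Real.exp (-t) * Real.exp t = 1 := by rw [← Real.exp_add]; simp
      have h3 := mul_le_mul_of_nonneg_right h1 (Real.exp_pos t).le
      rw [h2] at h3
      linarith
    have h1 := hm ⟨le_rfl, hx.le⟩ ⟨hx.le, le_rfl⟩ hx.le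
    simp only [Real.exp_zero, mul_one] at h1
    linarith
  have hd : ∀ t : ℝ, 0 < t → HasDerivAt (fun t : ℝ => (Real.exp t - 1 - t) / t ^ 2)
      ((t * Real.exp t + t - 2 * Real.exp t + 2) / t ^ 3) t := by
    intro t ht
    have h1 := (((Real.hasDerivAt_exp t).sub_const 1).sub (hasDerivAt_id t)).div (hasDerivAt_pow 2 t)
      (by positivity)
    refine h1.congr_deriv ?_
    simp only [Pi.sub_apply, id]
    field_simp
    push_cast
    ring
  have hm : MonotoneOn (fun t : ℝ => (Real.exp t - 1 - t) / t ^ 2) (Icc y Y) := by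
    refine monotoneOn_of_deriv_nonneg (convex_Icc y Y)
      (fun t ht => (hd t (by linarith [ht.1])).continuousAt.continuousWithinAt)
      (fun t ht => ?_) fun t ht => ?_
    · rw [interior_Icc] at ht
      exact (hd t (by linarith [ht.1])).differentiableAt.differentiableWithinAt
    · rw [interior_Icc] at ht
      have ht0 : 0 < t := by linarith [ht.1]
      rw [(hd t ht0).deriv]
      exact div_nonneg (key t ht0) (by positivity)
  exact hm ⟨le_rfl, h⟩ ⟨h, le_rfl⟩ h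

/-- the left tangent of a class -/
theorem left_tan {b : ℕ} {κ Sm Cm b1 k1 H1 X3 : ℝ} (hb : 1 ≤ b) (hb1 : b1 ≤ b) (hb0 : 0 < b1) (hk0 : 1 ≤ k1)
    (hk : k1 ≤ κ) (hS : 0 < Sm) (hH0 : 0 < H1) (hH : 6.283186 ≤ H1 * (b1 * k1)) (hX : Real.exp (Sm * H1) ≤ X3)
    (hC : X3 - 1 - Sm * H1 ≤ Cm * H1 ^ 2) (V : ℝ) (hV : 0 < V) (hv : (1 + κ ^ 2) * V = κ * (hh b * Sm)) :
    (1 + κ ^ 2) * (Mv κ (-V) + -V - 1) ≤ hh b ^ 2 * Cm := by
  have hh0 := hh_posW hb
  have hκ : 1 ≤ κ := hk0.trans hk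
  have h1 := tangent_neg' (κ := κ) (h := hh b) (S := Sm) (v := -V) hκ (by linarith) (by rw [neg_neg]; exact hv)
  refine h1.trans ?_
  have hx : hh b / κ ≤ H1 := by
    rw [div_le_iff₀ (by linarith)]
    have hb' : (0 : ℝ) < b := by exact_mod_cast hb
    have h2 : hh b * b1 ≤ 2 * Real.pi := by
      unfold hh
      rw [div_mul_eq_mul_div, div_le_iff₀ hb']
      exact mul_le_mul_of_nonneg_left hb1 (by positivity)
    have h3 : hh b * b1 ≤ H1 * κ * b1 := by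
      calc hh b * b1 ≤ 2 * Real.pi := h2
        _ ≤ 6.283186 := by linarith [Real.pi_lt_d6]
        _ ≤ H1 * (b1 * k1) := hH
        _ ≤ H1 * (b1 * κ) := by
            apply mul_le_mul_of_nonneg_left _ hH0.le
            exact mul_le_mul_of_nonneg_left hk hb0.le
        _ = H1 * κ * b1 := by ring
    exact le_of_mul_le_mul_right h3 hb0
  have hx0 : 0 < hh b / κ := by positivity
  have h4 := quot_mono (y := Sm * (hh b / κ)) (Y := Sm * H1) (by positivity) (mul_le_mul_of_nonneg_left hx hS.le)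
  have h5 : (Real.exp (Sm * H1) - 1 - Sm * H1) / (Sm * H1) ^ 2 ≤ Cm / Sm ^ 2 := by
    rw [div_le_div_iff₀ (by positivity) (by positivity)]
    have : Real.exp (Sm * H1) - 1 - Sm * H1 ≤ Cm * H1 ^ 2 := by linarith
    have := mul_le_mul_of_nonneg_right this (by positivity : 0 ≤ Sm ^ 2)
    linarith
  have h6 : Real.exp (Sm * (hh b / κ)) - 1 - Sm * (hh b / κ) ≤ Cm / Sm ^ 2 * (Sm * (hh b / κ)) ^ 2 := by
    have := h4.trans h5
    rwa [div_le_iff₀ (by positivity)] at this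
  have h7 := mul_le_mul_of_nonneg_left h6 (sq_nonneg κ)
  refine h7.trans (le_of_eq ?_)
  field_simp

private theorem exp161 : (5 : ℝ) ≤ Real.exp 1.61 := by
  have h := Real.sum_le_exp_of_nonneg (show (0 : ℝ) ≤ 1.61 by norm_num) 10
  refine le_trans ?_ h
  norm_num [Finset.sum_range_succ, Nat.factorial]

/-- `5^i ≤ e^{r/2}` -/
theorem five_pow {b i : ℕ} {r κ T0 : ℝ} (hb : 4 ≤ b) (hi : i + 2 ≤ b) (hr : 10 ≤ r) (hκ : 1.384 ≤ κ)
    (hT0 : 5.44 ≤ T0) (hT : T0 ≤ r * hh b ^ 2 / (1 + κ ^ 2)) : (5 : ℝ) ^ i ≤ Real.exp (1 / 2 * r) := by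
  have hb' : (4 : ℝ) ≤ b := by exact_mod_cast hb
  have hi' : (i : ℝ) ≤ b - 2 := by
    have : ((i + 2 : ℕ) : ℝ) ≤ b := by exact_mod_cast hi
    push_cast at this
    linarith
  have h1 : T0 * (1 + κ ^ 2) ≤ r * hh b ^ 2 := by rwa [le_div_iff₀ (by positivity)] at hT
  have h2 : hh b ^ 2 * (b : ℝ) ^ 2 ≤ 39.4785 := by
    have e : hh b ^ 2 * (b : ℝ) ^ 2 = 4 * Real.pi ^ 2 := by unfold hh; field_simp; ring
    rw [e]
    have := Real.pi_lt_d6
    have := Real.pi_pos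
    nlinarith
  have h3 : 5.44 * 2.915 * (b : ℝ) ^ 2 ≤ r * 39.4785 := by
    have h4 : (2.915 : ℝ) ≤ 1 + κ ^ 2 := by nlinarith
    have h5 : 5.44 * 2.915 ≤ T0 * (1 + κ ^ 2) := mul_le_mul hT0 h4 (by norm_num) (by linarith)
    have h6 := mul_le_mul_of_nonneg_right (h5.trans h1) (by positivity : 0 ≤ (b : ℝ) ^ 2)
    have h7 := mul_le_mul_of_nonneg_left h2 (by linarith : 0 ≤ r)
    linarith
  have h8 : 1.61 * (i : ℝ) ≤ 1 / 2 * r := by
    rcases Nat.lt_or_ge b 5 with h | h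
    · have : (b : ℝ) = 4 := by
        have : b = 4 := by omega
        rw [this]; norm_num
      rw [this] at hi'
      linarith
    · have h5' : (5 : ℝ) ≤ b := by exact_mod_cast h
      have h9 : 1.61 * (i : ℝ) ≤ 1.61 * (b - 2) := by linarith
      have h10 : 1.61 * ((b : ℝ) - 2) * 39.4785 ≤ 1 / 2 * (5.44 * 2.915 * (b : ℝ) ^ 2) := by nlinarith
      linarith
  calc (5 : ℝ) ^ i ≤ (Real.exp 1.61) ^ i := pow_le_pow_left₀ (by norm_num) exp161 i
    _ = Real.exp (1.61 * i) := by rw [← Real.exp_nat_mul, mul_comm]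
    _ ≤ _ := Real.exp_le_exp.2 h8

section
variable {b : ℕ} {β r : ℝ} {N : Num} {W : WC}

/-- the lower bound of `r` -/
private theorem r_ge {R0 T0 b1 k1 : ℝ} (hb : 1 ≤ b) (hb1 : b1 ≤ b) (hb0 : 0 < b1) (hk0 : 1 ≤ k1) (hk : k1 ≤ β * r)
    (hr : 10 ≤ r) (hT0 : 0 < T0) (hT : T0 ≤ TT b β r)
    (h : R0 ≤ 10 ∨ R0 * 39.4785 ≤ T0 * (b1 ^ 2 * (1 + k1 ^ 2))) : R0 ≤ r := by
  rcases h with h | h
  · linarith
  · have hb' : (0 : ℝ) < b := by exact_mod_cast hb
    have h1 : T0 * (1 + (β * r) ^ 2) ≤ r * hh b ^ 2 := by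
      unfold TT at hT
      rwa [le_div_iff₀ (by positivity)] at hT
    have h2 : hh b ^ 2 * (b : ℝ) ^ 2 ≤ 39.4785 := by
      have e : hh b ^ 2 * (b : ℝ) ^ 2 = 4 * Real.pi ^ 2 := by unfold hh; field_simp; ring
      rw [e]
      have := Real.pi_lt_d6
      have := Real.pi_pos
      nlinarith
    have h3 : b1 ^ 2 * (1 + k1 ^ 2) ≤ (b : ℝ) ^ 2 * (1 + (β * r) ^ 2) := by
      have k1' := pow_le_pow_left₀ hb0.le hb1 2
      have k2' := pow_le_pow_left₀ (by linarith) hk 2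
      exact mul_le_mul k1' (by linarith) (by positivity) (by positivity)
    have h4 : R0 * 39.4785 ≤ r * 39.4785 := by
      calc R0 * 39.4785 ≤ T0 * (b1 ^ 2 * (1 + k1 ^ 2)) := h
        _ ≤ T0 * ((b : ℝ) ^ 2 * (1 + (β * r) ^ 2)) := mul_le_mul_of_nonneg_left h3 hT0.le
        _ = T0 * (1 + (β * r) ^ 2) * (b : ℝ) ^ 2 := by ring
        _ ≤ r * hh b ^ 2 * (b : ℝ) ^ 2 := mul_le_mul_of_nonneg_right h1 (by positivity)
        _ = r * (hh b ^ 2 * (b : ℝ) ^ 2) := by ring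
        _ ≤ r * 39.4785 := mul_le_mul_of_nonneg_left h2 (by linarith)
    linarith

private theorem h0_le (hb : 1 ≤ b) {h0 : ℝ} (h : h0 ≤ 0 ∨ h0 * b ≤ 6.283184) : h0 ≤ hh b := by
  have hb' : (0 : ℝ) < b := by exact_mod_cast hb
  rcases h with h | h
  · exact h.trans (hh_posW hb).le
  · unfold hh
    rw [le_div_iff₀ hb']
    linarith [Real.pi_gt_d6]

/-- the point of a class, `b ≥ 2` -/
theorem WP.of2 (O : W.Ok N) (OP : W.OkP N) (OR : 3 ≤ b → W.OkR) (hb : 2 ≤ b) (hb1 : W.R.b1 ≤ b)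
    (h0 : W.h0 ≤ 0 ∨ W.h0 * b ≤ 6.283184) (hP5 : 3 ≤ b → W.θ = 0 → b = 3 ∧ 5 ≤ W.P5)
    (hθ : W.θ ≠ 0 → W.θ = 1 / 2 ∧ 4 ≤ b)
    (hβ : 0 < β) (hr : 10 ≤ r) (hT : N.T0 ≤ TT b β r) (hk1 : W.R.k1 ≤ β * r) (hk2 : β * r ≤ W.R.k2)
    (LR : ∃ th, Line (β * r) (hh b) th N.S N.C) (LQ : ∃ th, Line (β * r) (hh b) th N.Sr N.Cr)
    (LT : ∀ V : ℝ, 0 < V → (1 + (β * r) ^ 2) * V = β * r * (hh b * N.Sm) →
      (1 + (β * r) ^ 2) * (Mv (β * r) (-V) + -V - 1) ≤ hh b ^ 2 * N.Cm) :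
    WP b β r (-2 * (b : ℤ) + 2) 2 N W where
  hb := by omega
  hb1 := hb1
  h0 := h0_le (by omega) h0
  hβ := hβ
  hk1 := hk1
  hk2 := hk2
  hR := r_ge (by omega) hb1 (WP.hb1p O) O.R.k1 hk1 hr (by linarith [OP.T0]) hT OP.R0
  hT := hT
  hc := by push_cast; ring
  h1 := by omega
  hρ := by omega
  hρ2 := by
    have hb' : (0 : ℝ) < b := by exact_mod_cast (by omega : 0 < b)
    have hb2 : (2 : ℝ) ≤ b := by exact_mod_cast hb
    have hpi := Real.pi_pos
    have e : (((-2 * (b : ℤ) + 2 + b - 1 : ℤ)) : ℝ) * hh b = -(2 * Real.pi) + hh b := by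
      unfold hh
      push_cast
      field_simp
      ring
    have h1 : hh b ≤ Real.pi := by
      unfold hh
      rw [div_le_iff₀ hb']
      nlinarith
    rw [e]
    linarith
  hρ3 := by omega
  hqm := fun h => OR (by omega)
  fp := by
    intro i hi
    by_cases hθ0 : W.θ = 0
    · rw [hθ0, zero_mul, Real.exp_zero, mul_one]
      rcases Nat.lt_or_ge b 3 with h | h
      · have : i = 0 := by omega
        rw [this, pow_zero]
        exact O.P5.1
      · obtain ⟨h3, h5⟩ := hP5 h hθ0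
        have : i ≤ 1 := by omega
        calc (5 : ℝ) ^ i ≤ 5 ^ 1 := pow_le_pow_right₀ (by norm_num) this
          _ ≤ _ := by linarith
    · obtain ⟨h1, h2⟩ := hθ hθ0
      rw [h1]
      have h3 := five_pow h2 hi hr (O.kk.trans hk1) OP.T0 hT
      have h4 : 0 < Real.exp (1 / 2 * r) := Real.exp_pos _
      have h5 := O.P5.1
      nlinarith
  LR := LR
  LQ := LQ
  LT := LT

/-- the point of a class, `b = 1` -/
theorem WP.of1 (O : W.Ok N) (OP : W.OkP N) (hb : b = 1) (hb1 : W.R.b1 ≤ b)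
    (h0 : W.h0 ≤ 0 ∨ W.h0 * b ≤ 6.283184)
    (hβ : 0 < β) (hr : 10 ≤ r) (hT : N.T0 ≤ TT b β r) (hk1 : W.R.k1 ≤ β * r) (hk2 : β * r ≤ W.R.k2)
    (LR : ∃ th, Line (β * r) (hh b) th N.S N.C) (LQ : ∃ th, Line (β * r) (hh b) th N.Sr N.Cr)
    (LT : ∀ V : ℝ, 0 < V → (1 + (β * r) ^ 2) * V = β * r * (hh b * N.Sm) →
      (1 + (β * r) ^ 2) * (Mv (β * r) (-V) + -V - 1) ≤ hh b ^ 2 * N.Cm) :
    WP b β r (-1) 3 N W where
  hb := by omega
  hb1 := hb1
  h0 := h0_le (by omega) h0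
  hβ := hβ
  hk1 := hk1
  hk2 := hk2
  hR := r_ge (by omega) hb1 (WP.hb1p O) O.R.k1 hk1 hr (by linarith [OP.T0]) hT OP.R0
  hT := hT
  hc := by rw [hb]; norm_num
  h1 := by omega
  hρ := by omega
  hρ2 := by
    subst hb
    have hpi := Real.pi_pos
    have e : (((-1 + (1 : ℕ) - 1 : ℤ)) : ℝ) * hh 1 = -(2 * Real.pi) := by
      unfold hh
      push_cast
      ring
    rw [e]
    linarith
  hρ3 := by omega
  hqm := by omega
  fp := by intro i hi; omega
  LR := LR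
  LQ := LQ
  LT := LT

end

end Sok.R2
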