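import Pool.Agent.Lib.MP_816dec_an.R2WPt
import Pool.Agent.Lib.MP_816dec_an.R2Ok

/-!
MP_816dec_an (row R2, far windows): kernel-checkable test for the side conditions `WC.Ok`, `WC.Ok3`, `WC.OkM`,
`WC.OkM3` of the far windows.  `FCQ`, `WCQ`: the rational records.
-/

set_option autoImplicit false
set_option linter.unusedTactic false
set_option linter.unusedVariables false
set_option linter.unusedSimpArgs false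

namespace Sok.R2

/-! ### exponentials -/

/-- the check of `exp (-x) ≤ X` -/
def EX (x X : ℚ) : Prop := 0 ≤ x ∧ 0 ≤ X ∧ 1 ≤ X * hs x (24 + 3 * x.ceil.toNat) 1

instance (x X : ℚ) : Decidable (EX x X) := by unfold EX; infer_instance

theorem EX.le {x X : ℚ} (h : EX x X) : Real.exp (-(x : ℝ)) ≤ (X : ℝ) := by
  obtain ⟨h1, h2, h3⟩ := h
  have h1' : (0 : ℝ) ≤ (x : ℝ) := by exact_mod_cast h1
  have h2' : (0 : ℝ) ≤ (X : ℝ) := by exact_mod_cast h2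
  have h4 : (1 : ℝ) ≤ (X : ℝ) * hs ((x : ℚ) : ℝ) (24 + 3 * x.ceil.toNat) 1 := by
    rw [← hs_cast]
    exact_mod_cast h3
  have h6 := hs_le_exp h1' (24 + 3 * x.ceil.toNat)
  have h7 : (1 : ℝ) ≤ (X : ℝ) * Real.exp (x : ℝ) := h4.trans (mul_le_mul_of_nonneg_left h6 h2')
  rw [Real.exp_neg, inv_le_iff_one_le_mul₀ (Real.exp_pos _)]
  exact h7

/-- the check of `E ≤ exp v` -/
def EU (E v : ℚ) : Prop := 0 ≤ v ∧ E ≤ hs v 20 1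

instance (E v : ℚ) : Decidable (EU E v) := by unfold EU; infer_instance

theorem EU.le {E v : ℚ} (h : EU E v) : (E : ℝ) ≤ Real.exp (v : ℝ) := by
  obtain ⟨h1, h2⟩ := h
  have h1' : (0 : ℝ) ≤ (v : ℝ) := by exact_mod_cast h1
  have h4 : (E : ℝ) ≤ hs ((v : ℚ) : ℝ) 20 1 := by
    rw [← hs_cast]
    exact_mod_cast h2
  exact h4.trans (hs_le_exp h1' 20)

/-- upper bound of `exp x` on `[0, 1]` -/
def eub (x : ℚ) : ℚ := hs x 15 1 + x ^ 16 * 17 / (20922789888000 * 16)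

theorem exp_le_eub {x : ℚ} (h0 : 0 ≤ x) (h1 : x ≤ 1) : Real.exp (x : ℝ) ≤ ((eub x : ℚ) : ℝ) := by
  have h0' : (0 : ℝ) ≤ (x : ℝ) := by exact_mod_cast h0
  have h1' : (x : ℝ) ≤ 1 := by exact_mod_cast h1
  have h2 := Real.exp_bound' h0' h1' (n := 16) (by norm_num)
  have h3 := hs_sum (x : ℝ) 15 0
  simp only [zero_add, pow_zero, Nat.factorial_zero, Nat.cast_one, div_one, mul_one, Finset.range_zero,
    Finset.sum_empty, add_zero] at h3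
  have h4 : ((eub x : ℚ) : ℝ) = hs (x : ℝ) 15 1 + (x : ℝ) ^ 16 * 17 / (20922789888000 * 16) := by
    unfold eub
    push_cast
    rw [hs_cast]
  have h5 : ((16 : ℕ).factorial : ℝ) = 20922789888000 := by norm_num [Nat.factorial]
  rw [h4, h3]
  refine h2.trans (le_of_eq ?_)
  rw [h5]
  norm_num

/-- the check of `E ≤ exp (-v)` -/
def ED (E v : ℚ) : Prop := 0 ≤ E ∧ 0 ≤ v ∧ v ≤ 4 ∧ E * eub (v / 4) ^ 4 ≤ 1

instance (E v : ℚ) : Decidable (ED E v) := by unfold ED; infer_instance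

theorem ED.le {E v : ℚ} (h : ED E v) : (E : ℝ) ≤ Real.exp (-(v : ℝ)) := by
  obtain ⟨h0, h1, h2, h3⟩ := h
  have h0' : (0 : ℝ) ≤ (E : ℝ) := by exact_mod_cast h0
  have h4 := exp_le_eub (x := v / 4) (by linarith) (by linarith)
  have h5 : Real.exp (v : ℝ) ≤ ((eub (v / 4) : ℚ) : ℝ) ^ 4 := by
    have h6 : Real.exp (v : ℝ) = Real.exp ((v / 4 : ℚ) : ℝ) ^ 4 := by
      rw [← Real.exp_nat_mul]
      congr 1
      push_cast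
      ring
    rw [h6]
    exact pow_le_pow_left₀ (Real.exp_pos _).le h4 4
  have h7 : (E : ℝ) * ((eub (v / 4) : ℚ) : ℝ) ^ 4 ≤ 1 := by exact_mod_cast h3
  have h8 : (E : ℝ) * Real.exp (v : ℝ) ≤ 1 := (mul_le_mul_of_nonneg_left h5 h0').trans h7
  rw [Real.exp_neg, ← one_div, le_div_iff₀ (Real.exp_pos _)]
  exact h8

/-- the check of `exp x ≤ X` -/
def EV (x X : ℚ) : Prop := 0 ≤ x ∧ x ≤ 4 ∧ eub (x / 4) ^ 4 ≤ X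

instance (x X : ℚ) : Decidable (EV x X) := by unfold EV; infer_instance

theorem EV.le {x X : ℚ} (h : EV x X) : Real.exp (x : ℝ) ≤ (X : ℝ) := by
  obtain ⟨h1, h2, h3⟩ := h
  have h4 := exp_le_eub (x := x / 4) (by linarith) (by linarith)
  have h6 : Real.exp (x : ℝ) = Real.exp ((x / 4 : ℚ) : ℝ) ^ 4 := by
    rw [← Real.exp_nat_mul]
    congr 1
    push_cast
    ring
  have h7 : ((eub (x / 4) : ℚ) : ℝ) ^ 4 ≤ (X : ℝ) := by exact_mod_cast h3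
  rw [h6]
  exact (pow_le_pow_left₀ (Real.exp_pos _).le h4 4).trans h7

/-- the check of `U * (log U - 1) ≤ -χ` -/
def UL (U χ : ℚ) : Prop :=
  0 < U ∧ ((0 ≤ 1 - χ / U ∧ U ≤ hs (1 - χ / U) 24 1) ∨
    (0 ≤ χ / U - 1 ∧ χ / U - 1 ≤ 4 ∧ U * eub ((χ / U - 1) / 4) ^ 4 ≤ 1))

instance (U χ : ℚ) : Decidable (UL U χ) := by unfold UL; infer_instance

theorem UL.le {U χ : ℚ} (h : UL U χ) : (U : ℝ) * (Real.log (U : ℝ) - 1) ≤ -(χ : ℝ) := by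
  obtain ⟨h0, h⟩ := h
  have h0' : (0 : ℝ) < (U : ℝ) := by exact_mod_cast h0
  have key : (U : ℝ) ≤ Real.exp (1 - (χ : ℝ) / (U : ℝ)) := by
    rcases h with ⟨h1, h2⟩ | ⟨h1, h2, h3⟩
    · have h1' : (0 : ℝ) ≤ ((1 - χ / U : ℚ) : ℝ) := by exact_mod_cast h1
      have h4 : (U : ℝ) ≤ hs ((1 - χ / U : ℚ) : ℝ) 24 1 := by
        rw [← hs_cast]
        exact_mod_cast h2
      have h5 := h4.trans (hs_le_exp h1' 24)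
      push_cast at h5
      exact h5
    · have h4 : ED U (χ / U - 1) := ⟨h0.le, h1, h2, h3⟩
      have h5 := h4.le
      push_cast at h5
      have h6 : -((χ : ℝ) / (U : ℝ) - 1) = 1 - (χ : ℝ) / (U : ℝ) := by ring
      rwa [h6] at h5
  have h1 : Real.log (U : ℝ) ≤ 1 - (χ : ℝ) / (U : ℝ) := (Real.log_le_iff_le_exp h0').2 key
  have h2 := mul_le_mul_of_nonneg_left (sub_le_sub_right h1 1) h0'.le
  refine h2.trans (le_of_eq ?_)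
  field_simp
  ring

/-! ### a line -/

/-- numbers of a line, rational -/
structure FCQ where
  (k1 k2 T0 R0 b1 S : ℚ)
  (A J1 sR : ℚ)
  (E η1 ξ x0 α x1 α' : ℚ)
  (s1 s2 X1 X2 zE oE lE Q UQ : ℚ)

/-- the real numbers of a line -/
noncomputable def FCQ.fc (q : FCQ) : FC where
  k1 := q.k1
  k2 := q.k2
  T0 := q.T0
  R0 := q.R0
  b1 := q.b1
  S := q.S
  A := q.A
  J1 := q.J1
  sR := q.sR
  E := q.E
  η1 := q.η1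
  ξ := q.ξ
  x0 := q.x0
  α := q.α
  x1 := q.x1
  α' := q.α'
  s1 := q.s1
  s2 := q.s2
  X1 := q.X1
  X2 := q.X2
  zE := q.zE
  oE := q.oE
  lE := q.lE
  Q := q.Q
  UQ := q.UQ

/-- lower Taylor polynomial of the cosine -/
def cospQ (x : ℚ) : ℚ := 1 - x ^ 2 / 2 + x ^ 4 / 24 - x ^ 6 / 720

theorem cospQ_cast (x : ℚ) : ((cospQ x : ℚ) : ℝ) = cosp (x : ℝ) := by
  unfold cospQ cosp
  push_cast
  rfl

namespace FCQ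

def N0 (N : FCQ) : ℚ := N.s1 + N.s2 + N.sR / N.R0 *
  (N.X1 / (0.8414 * N.ξ - 0.4598 * N.η1) + N.X2 / (0.8414 * N.ξ))
def N1 (N : FCQ) : ℚ := 1 / (11 / 12 * N.ξ - N.η1 / 3) + 1 / (11 / 12 * N.ξ) +
  N.X1 * (1 / (0.8414 * N.ξ - 0.4598 * N.η1) + 1 / (N.R0 * (0.8414 * N.ξ - 0.4598 * N.η1) ^ 2)) +
  N.X2 * (1 / (0.8414 * N.ξ) + 1 / (N.R0 * (0.8414 * N.ξ) ^ 2))
def B0 (N : FCQ) : ℚ := N.A * (N.N0 + 1.5708 * N.sR * (N.zE + N.oE))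
def B1 (N : FCQ) : ℚ := N.J1 * (N.N1 + 1.5708 * N.R0 * (4.7124 * N.zE + 3.1416 * N.oE))
def L0 (N : FCQ) : ℚ := N.A * (N.sR / N.R0) * (2 / N.E) * N.lE
def L1 (N : FCQ) : ℚ := N.J1 * N.lE * (6.2832 / N.E + 4 / (N.E ^ 2 * N.R0))
/-- the value constant -/
def KK (N : FCQ) : ℚ := N.B0 / (1 - N.Q) + N.L0
/-- the moment constant -/
def JJ (N : FCQ) : ℚ := N.B1 / (1 - N.Q) + 6.2832 * N.UQ * N.B0 / (1 - N.Q) ^ 2 + N.L1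

theorem N0_cast (N : FCQ) : ((N.N0 : ℚ) : ℝ) = N.fc.N0 := by
  unfold FCQ.N0 FC.N0
  push_cast
  rfl

theorem N1_cast (N : FCQ) : ((N.N1 : ℚ) : ℝ) = N.fc.N1 := by
  unfold FCQ.N1 FC.N1
  push_cast
  rfl

theorem B0_cast (N : FCQ) : ((N.B0 : ℚ) : ℝ) = N.fc.B0 := by
  unfold FCQ.B0 FC.B0
  push_cast [N0_cast]
  rfl

theorem B1_cast (N : FCQ) : ((N.B1 : ℚ) : ℝ) = N.fc.B1 := by
  unfold FCQ.B1 FC.B1
  push_cast [N1_cast]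
  rfl

theorem L0_cast (N : FCQ) : ((N.L0 : ℚ) : ℝ) = N.fc.L0 := by
  unfold FCQ.L0 FC.L0
  push_cast
  rfl

theorem L1_cast (N : FCQ) : ((N.L1 : ℚ) : ℝ) = N.fc.L1 := by
  unfold FCQ.L1 FC.L1
  push_cast
  rfl

theorem KK_cast (N : FCQ) : ((N.KK : ℚ) : ℝ) = N.fc.KK := by
  unfold FCQ.KK FC.KK
  push_cast [B0_cast, L0_cast]
  rfl

theorem JJ_cast (N : FCQ) : ((N.JJ : ℚ) : ℝ) = N.fc.JJ := by
  unfold FCQ.JJ FC.JJ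
  push_cast [B0_cast, B1_cast, L1_cast]
  rfl

end FCQ

/-- conditions of `FC.Ok`, part 0 -/
def fokB0 (N : FCQ) : Prop :=
    (1 ≤ N.k1) ∧
    (N.k1 ≤ N.k2) ∧
    (0 < N.T0) ∧
    (1 ≤ N.R0) ∧
    (1 ≤ N.b1)

instance (N : FCQ) : Decidable (fokB0 N) := by unfold fokB0; infer_instance

/-- conditions of `FC.Ok`, part 1 -/
def fokB1 (N : FCQ) : Prop :=
    (0 < N.S) ∧
    (0 < N.A ∧ 1 + 1 / N.k1 ^ 2 ≤ N.A ^ 4) ∧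
    (0 < N.J1 ∧ N.A ^ 6 ≤ N.J1 ^ 2 * (6.283 * N.T0)) ∧
    (0 < N.sR ∧ N.R0 ≤ N.sR ^ 2 * 6.283) ∧
    (0 < N.E ∧ 0 < N.ξ ∧ 0 ≤ N.η1 ∧ N.ξ ^ 2 + N.η1 ^ 2 ≤ N.E ^ 2)

instance (N : FCQ) : Decidable (fokB1 N) := by unfold fokB1; infer_instance

/-- conditions of `FC.Ok`, part 2 -/
def fokB2 (N : FCQ) : Prop :=
    (1.5708 * N.η1 ≤ N.E) ∧
    (0 < 11 / 12 * N.ξ - N.η1 / 3) ∧
    (0 < 0.8414 * N.ξ - 0.4598 * N.η1) ∧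
    (0 ≤ 0.4596 * N.ξ - 0.1586 * N.η1) ∧
    (0 < N.s1 ∧ 1 ≤ 4 * N.s1 ^ 2 * (11 / 12 * N.ξ - N.η1 / 3))

instance (N : FCQ) : Decidable (fokB2 N) := by unfold fokB2; infer_instance

/-- conditions of `FC.Ok`, part 3 -/
def fokB3 (N : FCQ) : Prop :=
    (0 < N.s2 ∧ 1 ≤ 4 * N.s2 ^ 2 * (11 / 12 * N.ξ)) ∧
    (EX (N.R0 * (0.4596 * N.ξ - 0.1586 * N.η1)) (N.X1)) ∧
    (EX (N.R0 * (0.4596 * N.ξ)) (N.X2)) ∧
    (1 ≤ N.R0 * N.E) ∧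
    (EX (N.R0 * N.E) (N.zE))

instance (N : FCQ) : Decidable (fokB3 N) := by unfold fokB3; infer_instance

/-- conditions of `FC.Ok`, part 4 -/
def fokB4 (N : FCQ) : Prop :=
    (0 ≤ N.x0 ∧ N.x0 ≤ 1.57 ∧ N.α ≤ N.E * cospQ N.x0 - N.η1 * (1.5708 - N.x0)) ∧
    (1 ≤ N.R0 * N.α) ∧
    (EX (N.R0 * N.α) (N.oE)) ∧
    (0 ≤ N.x1 ∧ N.x1 ≤ 1.57 ∧ N.α' ≤ N.E * (1 + cospQ N.x1) - N.η1 * (3.1416 - N.x1)) ∧
    (0 ≤ N.α')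

instance (N : FCQ) : Decidable (fokB4 N) := by unfold fokB4; infer_instance

/-- conditions of `FC.Ok`, part 5 -/
def fokB5 (N : FCQ) : Prop :=
    (EX (N.R0 * N.α') (N.lE)) ∧
    (1 ≤ N.b1 * (N.T0 * N.S)) ∧
    (EX (N.b1 * (N.T0 * N.S)) (N.Q)) ∧
    (N.Q < 1) ∧
    ((1 + N.k2 ^ 2) / N.k2 * (N.b1 / 6.283) * N.Q ≤ N.UQ)

instance (N : FCQ) : Decidable (fokB5 N) := by unfold fokB5; infer_instance

/-- the check of `FC.Ok` -/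
def fokB (N : FCQ) : Bool :=
  decide (fokB0 N) && decide (fokB1 N) && decide (fokB2 N) && decide (fokB3 N) && decide (fokB4 N) && decide (fokB5 N)

theorem fokB_ok {N : FCQ} (h : fokB N = true) : N.fc.Ok := by
  simp only [fokB, Bool.and_eq_true, decide_eq_true_eq] at h
  obtain ⟨⟨⟨⟨⟨g0, g1⟩, g2⟩, g3⟩, g4⟩, g5⟩ := h
  obtain ⟨h0_0, h0_1, h0_2, h0_3, h0_4⟩ := g0
  obtain ⟨h1_0, ⟨h1_1_0, h1_1_1⟩, ⟨h1_2_0, h1_2_1⟩, ⟨h1_3_0, h1_3_1⟩, ⟨h1_4_0, h1_4_1, h1_4_2, h1_4_3⟩⟩ := g1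
  obtain ⟨h2_0, h2_1, h2_2, h2_3, ⟨h2_4_0, h2_4_1⟩⟩ := g2
  obtain ⟨⟨h3_0_0, h3_0_1⟩, h3_1, h3_2, h3_3, h3_4⟩ := g3
  obtain ⟨⟨h4_0_0, h4_0_1, h4_0_2⟩, h4_1, h4_2, ⟨h4_3_0, h4_3_1, h4_3_2⟩, h4_4⟩ := g4
  obtain ⟨h5_0, h5_1, h5_2, h5_3, h5_4⟩ := g5
  exact {
    k1 := (by have h1 := (Rat.cast_le (K := ℝ)).2 h0_0; push_cast [cospQ_cast] at h1; exact h1)
    k2 := (by have h1 := (Rat.cast_le (K := ℝ)).2 h0_1; push_cast [cospQ_cast] at h1; exact h1)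
    T0 := (by have h1 := (Rat.cast_lt (K := ℝ)).2 h0_2; push_cast [cospQ_cast] at h1; exact h1)
    R0 := (by have h1 := (Rat.cast_le (K := ℝ)).2 h0_3; push_cast [cospQ_cast] at h1; exact h1)
    b1 := (by have h1 := (Rat.cast_le (K := ℝ)).2 h0_4; push_cast [cospQ_cast] at h1; exact h1)
    S := (by have h1 := (Rat.cast_lt (K := ℝ)).2 h1_0; push_cast [cospQ_cast] at h1; exact h1)
    A := ⟨(by have h1 := (Rat.cast_lt (K := ℝ)).2 h1_1_0; push_cast [cospQ_cast] at h1; exact h1),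
      (by have h1 := (Rat.cast_le (K := ℝ)).2 h1_1_1; push_cast [cospQ_cast] at h1; exact h1)⟩
    J1 := ⟨(by have h1 := (Rat.cast_lt (K := ℝ)).2 h1_2_0; push_cast [cospQ_cast] at h1; exact h1),
      (by have h1 := (Rat.cast_le (K := ℝ)).2 h1_2_1; push_cast [cospQ_cast] at h1; exact h1)⟩
    sR := ⟨(by have h1 := (Rat.cast_lt (K := ℝ)).2 h1_3_0; push_cast [cospQ_cast] at h1; exact h1),
      (by have h1 := (Rat.cast_le (K := ℝ)).2 h1_3_1; push_cast [cospQ_cast] at h1; exact h1)⟩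
    E := ⟨(by have h1 := (Rat.cast_lt (K := ℝ)).2 h1_4_0; push_cast [cospQ_cast] at h1; exact h1),
      (by have h1 := (Rat.cast_lt (K := ℝ)).2 h1_4_1; push_cast [cospQ_cast] at h1; exact h1),
      (by have h1 := (Rat.cast_le (K := ℝ)).2 h1_4_2; push_cast [cospQ_cast] at h1; exact h1),
      (by have h1 := (Rat.cast_le (K := ℝ)).2 h1_4_3; push_cast [cospQ_cast] at h1; exact h1)⟩
    mono := (by have h1 := (Rat.cast_le (K := ℝ)).2 h2_0; push_cast [cospQ_cast] at h1; exact h1)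
    c := (by have h1 := (Rat.cast_lt (K := ℝ)).2 h2_1; push_cast [cospQ_cast] at h1; exact h1)
    ν := (by have h1 := (Rat.cast_lt (K := ℝ)).2 h2_2; push_cast [cospQ_cast] at h1; exact h1)
    g := (by have h1 := (Rat.cast_le (K := ℝ)).2 h2_3; push_cast [cospQ_cast] at h1; exact h1)
    s1 := ⟨(by have h1 := (Rat.cast_lt (K := ℝ)).2 h2_4_0; push_cast [cospQ_cast] at h1; exact h1),
      (by have h1 := (Rat.cast_le (K := ℝ)).2 h2_4_1; push_cast [cospQ_cast] at h1; exact h1)⟩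
    s2 := ⟨(by have h1 := (Rat.cast_lt (K := ℝ)).2 h3_0_0; push_cast [cospQ_cast] at h1; exact h1),
      (by have h1 := (Rat.cast_le (K := ℝ)).2 h3_0_1; push_cast [cospQ_cast] at h1; exact h1)⟩
    X1 := (by have h1 := h3_1.le; push_cast [cospQ_cast] at h1; exact h1)
    X2 := (by have h1 := h3_2.le; push_cast [cospQ_cast] at h1; exact h1)
    z1 := (by have h1 := (Rat.cast_le (K := ℝ)).2 h3_3; push_cast [cospQ_cast] at h1; exact h1)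
    zE := (by have h1 := h3_4.le; push_cast [cospQ_cast] at h1; exact h1)
    x0 := ⟨(by have h1 := (Rat.cast_le (K := ℝ)).2 h4_0_0; push_cast [cospQ_cast] at h1; exact h1),
      (by have h1 := (Rat.cast_le (K := ℝ)).2 h4_0_1; push_cast [cospQ_cast] at h1; exact h1),
      (by have h1 := (Rat.cast_le (K := ℝ)).2 h4_0_2; push_cast [cospQ_cast] at h1; exact h1)⟩
    α1 := (by have h1 := (Rat.cast_le (K := ℝ)).2 h4_1; push_cast [cospQ_cast] at h1; exact h1)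
    oE := (by have h1 := h4_2.le; push_cast [cospQ_cast] at h1; exact h1)
    x1 := ⟨(by have h1 := (Rat.cast_le (K := ℝ)).2 h4_3_0; push_cast [cospQ_cast] at h1; exact h1),
      (by have h1 := (Rat.cast_le (K := ℝ)).2 h4_3_1; push_cast [cospQ_cast] at h1; exact h1),
      (by have h1 := (Rat.cast_le (K := ℝ)).2 h4_3_2; push_cast [cospQ_cast] at h1; exact h1)⟩
    α1' := (by have h1 := (Rat.cast_le (K := ℝ)).2 h4_4; push_cast [cospQ_cast] at h1; exact h1)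
    lE := (by have h1 := h5_0.le; push_cast [cospQ_cast] at h1; exact h1)
    q1 := (by have h1 := (Rat.cast_le (K := ℝ)).2 h5_1; push_cast [cospQ_cast] at h1; exact h1)
    Q := (by have h1 := h5_2.le; push_cast [cospQ_cast] at h1; exact h1)
    Q1 := (by have h1 := (Rat.cast_lt (K := ℝ)).2 h5_3; push_cast [cospQ_cast] at h1; exact h1)
    UQ := (by have h1 := (Rat.cast_le (K := ℝ)).2 h5_4; push_cast [cospQ_cast] at h1; exact h1) }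

/-! ### a class -/

/-- numbers of the far windows of a class, rational -/
structure WCQ where
  (R L Q : FCQ)
  (h0 : ℚ)
  (v1 vr V0 : ℚ)
  (U Uq χ6 χq χr : ℚ)
  (P5 θ Tr : ℚ)
  (g6 gq gr gm e6 eq er em : ℚ)
  (qm um : ℚ)

/-- the real numbers of a class -/
noncomputable def WCQ.wc (q : WCQ) : WC where
  R := q.R.fc
  L := q.L.fc
  Q := q.Q.fc
  h0 := q.h0
  v1 := q.v1
  vr := q.vr
  V0 := q.V0
  U := q.U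
  Uq := q.Uq
  χ6 := q.χ6
  χq := q.χq
  χr := q.χr
  P5 := q.P5
  θ := q.θ
  Tr := q.Tr
  g6 := q.g6
  gq := q.gq
  gr := q.gr
  gm := q.gm
  e6 := q.e6
  eq := q.eq
  er := q.er
  em := q.em
  qm := q.qm
  um := q.um

namespace WCQ

def aK6 (W : WCQ) : ℚ := W.P5 * (W.R.A * W.R.sR * (1 / W.R.R0 + (W.v1 + 4 / 3)) * W.e6)
def aKq (W : WCQ) : ℚ := W.P5 * (W.R.A * W.R.sR * (1 / W.R.R0 + (W.v1 + 4 / 3)) * W.eq)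
def aJq (W : WCQ) : ℚ := W.P5 * (W.R.J1 * W.R.R0 * (3.1416 * (1 / W.R.R0 + (W.v1 + 4 / 3)) +
  ((W.v1 + 4 / 3) / W.R.R0 + (1 / W.R.R0) ^ 2 + (W.v1 + 4 / 3) ^ 2)) * W.eq)
def aKr (W : WCQ) : ℚ := W.Q.A * W.Q.sR * (1 / W.Q.R0 + (W.vr + 4 / 3)) * W.er
def aKm (W : WCQ) : ℚ := W.P5 * (W.L.A * W.L.sR * (1 / W.L.R0 + 4 / 3) * W.em)
def aJm (W : WCQ) : ℚ := W.P5 * (W.L.J1 * W.L.R0 * (3.1416 * (1 / W.L.R0 + 4 / 3) +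
  (4 / 3 / W.L.R0 + (1 / W.L.R0) ^ 2 + (4 / 3) ^ 2)) * W.em)

theorem aK6_cast (W : WCQ) : ((W.aK6 : ℚ) : ℝ) = W.wc.aK6 := by
  unfold WCQ.aK6 WC.aK6
  push_cast
  rfl

theorem aKq_cast (W : WCQ) : ((W.aKq : ℚ) : ℝ) = W.wc.aKq := by
  unfold WCQ.aKq WC.aKq
  push_cast
  rfl

theorem aJq_cast (W : WCQ) : ((W.aJq : ℚ) : ℝ) = W.wc.aJq := by
  unfold WCQ.aJq WC.aJq
  push_cast
  rfl

theorem aKr_cast (W : WCQ) : ((W.aKr : ℚ) : ℝ) = W.wc.aKr := by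
  unfold WCQ.aKr WC.aKr
  push_cast
  rfl

theorem aKm_cast (W : WCQ) : ((W.aKm : ℚ) : ℝ) = W.wc.aKm := by
  unfold WCQ.aKm WC.aKm
  push_cast
  rfl

theorem aJm_cast (W : WCQ) : ((W.aJm : ℚ) : ℝ) = W.wc.aJm := by
  unfold WCQ.aJm WC.aJm
  push_cast
  rfl

end WCQ

/-- conditions of `WC.Ok`, part 0 -/
def wokB0 (W : WCQ) (N : NumQ) : Prop :=
    (W.L.k1 = W.R.k1 ∧ W.L.k2 = W.R.k2 ∧ W.L.T0 = W.R.T0 ∧ W.L.R0 = W.R.R0 ∧ W.L.b1 = W.R.b1) ∧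
    (W.Q.k1 = W.R.k1 ∧ W.Q.k2 = W.R.k2 ∧ W.Q.T0 = W.R.T0 ∧ W.Q.R0 = W.R.R0 ∧ W.Q.b1 = W.R.b1) ∧
    (W.R.S = N.S ∧ W.L.S = N.Sm ∧ W.Q.S = N.Sr ∧ W.R.T0 = N.T0) ∧
    (6.2832 * N.S * W.R.k1 ≤ W.v1 * (W.R.b1 * (1 + W.R.k1 ^ 2))) ∧
    (ED (W.R.E) (W.v1))

instance (W : WCQ) (N : NumQ) : Decidable (wokB0 W N) := by unfold wokB0; infer_instance

/-- conditions of `WC.Ok`, part 1 -/
def wokB1 (W : WCQ) (N : NumQ) : Prop :=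
    (6.2832 * N.S ≤ W.R.η1 * (W.R.b1 * (1 + W.R.k1 ^ 2))) ∧
    (6.2832 * N.Sr * W.R.k1 ≤ W.vr * (W.R.b1 * (1 + W.R.k1 ^ 2))) ∧
    (ED (W.Q.E) (W.vr)) ∧
    (6.2832 * N.Sr ≤ W.Q.η1 * (W.R.b1 * (1 + W.R.k1 ^ 2))) ∧
    (0 ≤ W.V0 ∧ W.V0 * (1 + W.R.k2 ^ 2) ≤ W.R.k2 * (W.h0 * N.Sm))

instance (W : WCQ) (N : NumQ) : Decidable (wokB1 W N) := by unfold wokB1; infer_instance

/-- conditions of `WC.Ok`, part 2 -/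
def wokB2 (W : WCQ) (N : NumQ) : Prop :=
    (EU (W.L.E) (W.V0)) ∧
    (6.2832 * N.Sm ≤ W.L.η1 * (W.R.b1 * (1 + W.R.k1 ^ 2))) ∧
    (6.2832 * N.Sm * W.R.k1 ≤ 4 / 3 * (W.R.b1 * (1 + W.R.k1 ^ 2))) ∧
    (1.384 ≤ W.R.k1) ∧
    (W.U ≤ 2.79 ∧ 3.1416 + 6.2832 / W.R.b1 ≤ (1 + W.U) * W.R.k1)

instance (W : WCQ) (N : NumQ) : Decidable (wokB2 W N) := by unfold wokB2; infer_instance

/-- conditions of `WC.Ok`, part 3 -/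
def wokB3 (W : WCQ) (N : NumQ) : Prop :=
    (W.Uq ≤ 2.79 ∧ 3.1416 + 6.2832 / W.R.b1 * (1 + N.qR) ≤ (1 + W.Uq) * W.R.k1) ∧
    (0 ≤ 1 + N.qR) ∧
    (W.χ6 ≤ W.R.E * ((W.v1 + 1.693) / 2)) ∧
    (UL (W.U) (W.χ6)) ∧
    (W.χq ≤ W.R.E * ((W.v1 + 1.693) / 2))

instance (W : WCQ) (N : NumQ) : Decidable (wokB3 W N) := by unfold wokB3; infer_instance

/-- conditions of `WC.Ok`, part 4 -/
def wokB4 (W : WCQ) (N : NumQ) : Prop :=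
    (UL (W.Uq) (W.χq)) ∧
    (W.χr ≤ W.Q.E * ((W.vr + 1.693) / 2)) ∧
    (UL (W.U) (W.χr)) ∧
    (1 ≤ W.P5 ∧ 0 ≤ W.θ) ∧
    ((6.2832 / W.R.b1) ^ 2 ≤ 2 * W.Tr * (1 + W.R.k1 ^ 2))

instance (W : WCQ) (N : NumQ) : Decidable (wokB4 W N) := by unfold wokB4; infer_instance

/-- conditions of `WC.Ok`, part 5 -/
def wokB5 (W : WCQ) (N : NumQ) : Prop :=
    (W.g6 ≤ 1 + W.χ6 - W.θ - W.Tr ∧ 1 ≤ W.R.R0 * W.g6 ∧ EX (W.R.R0 * W.g6) (W.e6)) ∧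
    (W.gq ≤ 1 + W.χq - W.θ - W.Tr ∧ 1 ≤ W.R.R0 * W.gq ∧ EX (W.R.R0 * W.gq) (W.eq)) ∧
    (W.gr ≤ 1 + W.χr - 2 * W.Tr * (N.Sr - N.Cr) ∧ 1 ≤ W.Q.R0 * W.gr ∧ EX (W.Q.R0 * W.gr) (W.er)) ∧
    (W.gm ≤ 1.84 - W.θ - W.Tr ∧ 1 ≤ W.L.R0 * W.gm ∧ EX (W.L.R0 * W.gm) (W.em)) ∧
    (0 ≤ N.Sr - N.Cr)

instance (W : WCQ) (N : NumQ) : Decidable (wokB5 W N) := by unfold wokB5; infer_instance

/-- conditions of `WC.Ok`, part 6 -/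
def wokB6 (W : WCQ) (N : NumQ) : Prop :=
    (6.2832 / W.R.b1 ≤ W.R.k1 + 3.1415) ∧
    (EX (N.T0 * N.S) (1 / 5)) ∧
    (EX (N.T0 * N.Sm) (1 / 5)) ∧
    (0 ≤ W.qm ∧ 0 ≤ W.um) ∧
    (W.R.KK ≤ N.K2)

instance (W : WCQ) (N : NumQ) : Decidable (wokB6 W N) := by unfold wokB6; infer_instance

/-- conditions of `WC.Ok`, part 7 -/
def wokB7 (W : WCQ) (N : NumQ) : Prop :=
    (W.aK6 ≤ N.K2 * N.τ6) ∧
    (W.aKq ≤ N.K2 * N.τ) ∧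
    (W.Q.KK * (1 + W.Q.Q) + W.aKr ≤ N.Kr) ∧
    (W.L.KK * (1 + W.qm) ≤ N.Km) ∧
    (W.aKm ≤ N.Km * N.τm)

instance (W : WCQ) (N : NumQ) : Decidable (wokB7 W N) := by unfold wokB7; infer_instance

/-- conditions of `WC.Ok`, part 8 -/
def wokB8 (W : WCQ) (N : NumQ) : Prop :=
    (W.L.KK * (1 + W.qm) ≤ N.Km2) ∧
    (W.aKm ≤ N.Km2 * N.τm)

instance (W : WCQ) (N : NumQ) : Decidable (wokB8 W N) := by unfold wokB8; infer_instance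

/-- the check of `WC.Ok` -/
def wokB (W : WCQ) (N : NumQ) : Bool :=
  decide (wokB0 W N) && decide (wokB1 W N) && decide (wokB2 W N) && decide (wokB3 W N) && decide (wokB4 W N) && decide (wokB5 W N) && decide (wokB6 W N) && decide (wokB7 W N) && decide (wokB8 W N)

theorem wokB_ok {W : WCQ} {N : NumQ} (h : wokB W N = true) (hR : W.wc.R.Ok) (hL : W.wc.L.Ok)
    (hQ : W.wc.Q.Ok) : W.wc.Ok N.num := by
  simp only [wokB, Bool.and_eq_true, decide_eq_true_eq] at h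
  obtain ⟨⟨⟨⟨⟨⟨⟨⟨g0, g1⟩, g2⟩, g3⟩, g4⟩, g5⟩, g6⟩, g7⟩, g8⟩ := h
  obtain ⟨⟨h0_0_0, h0_0_1, h0_0_2, h0_0_3, h0_0_4⟩, ⟨h0_1_0, h0_1_1, h0_1_2, h0_1_3, h0_1_4⟩, ⟨h0_2_0, h0_2_1, h0_2_2, h0_2_3⟩, h0_3, h0_4⟩ := g0
  obtain ⟨h1_0, h1_1, h1_2, h1_3, ⟨h1_4_0, h1_4_1⟩⟩ := g1
  obtain ⟨h2_0, h2_1, h2_2, h2_3, ⟨h2_4_0, h2_4_1⟩⟩ := g2
  obtain ⟨⟨h3_0_0, h3_0_1⟩, h3_1, h3_2, h3_3, h3_4⟩ := g3
  obtain ⟨h4_0, h4_1, h4_2, ⟨h4_3_0, h4_3_1⟩, h4_4⟩ := g4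
  obtain ⟨⟨h5_0_0, h5_0_1, h5_0_2⟩, ⟨h5_1_0, h5_1_1, h5_1_2⟩, ⟨h5_2_0, h5_2_1, h5_2_2⟩, ⟨h5_3_0, h5_3_1, h5_3_2⟩, h5_4⟩ := g5
  obtain ⟨h6_0, h6_1, h6_2, ⟨h6_3_0, h6_3_1⟩, h6_4⟩ := g6
  obtain ⟨h7_0, h7_1, h7_2, h7_3, h7_4⟩ := g7
  obtain ⟨h8_0, h8_1⟩ := g8
  exact {
    R := hR
    L := hL
    Q := hQ
    kL := ⟨(by have h1 := congrArg (Rat.cast : ℚ → ℝ) h0_0_0; exact h1),
      (by have h1 := congrArg (Rat.cast : ℚ → ℝ) h0_0_1; exact h1),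
      (by have h1 := congrArg (Rat.cast : ℚ → ℝ) h0_0_2; exact h1),
      (by have h1 := congrArg (Rat.cast : ℚ → ℝ) h0_0_3; exact h1),
      (by have h1 := congrArg (Rat.cast : ℚ → ℝ) h0_0_4; exact h1)⟩
    kQ := ⟨(by have h1 := congrArg (Rat.cast : ℚ → ℝ) h0_1_0; exact h1),
      (by have h1 := congrArg (Rat.cast : ℚ → ℝ) h0_1_1; exact h1),
      (by have h1 := congrArg (Rat.cast : ℚ → ℝ) h0_1_2; exact h1),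
      (by have h1 := congrArg (Rat.cast : ℚ → ℝ) h0_1_3; exact h1),
      (by have h1 := congrArg (Rat.cast : ℚ → ℝ) h0_1_4; exact h1)⟩
    kS := ⟨(by have h1 := congrArg (Rat.cast : ℚ → ℝ) h0_2_0; exact h1),
      (by have h1 := congrArg (Rat.cast : ℚ → ℝ) h0_2_1; exact h1),
      (by have h1 := congrArg (Rat.cast : ℚ → ℝ) h0_2_2; exact h1),
      (by have h1 := congrArg (Rat.cast : ℚ → ℝ) h0_2_3; exact h1)⟩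
    v1 := (by have h1 := (Rat.cast_le (K := ℝ)).2 h0_3; push_cast [FCQ.KK_cast, FCQ.JJ_cast, cospQ_cast, WCQ.aK6_cast, WCQ.aKq_cast, WCQ.aJq_cast, WCQ.aKr_cast, WCQ.aKm_cast, WCQ.aJm_cast] at h1; exact h1)
    E1 := (by have h1 := h0_4.le; push_cast [FCQ.KK_cast, FCQ.JJ_cast, cospQ_cast, WCQ.aK6_cast, WCQ.aKq_cast, WCQ.aJq_cast, WCQ.aKr_cast, WCQ.aKm_cast, WCQ.aJm_cast] at h1; exact h1)
    η1 := (by have h1 := (Rat.cast_le (K := ℝ)).2 h1_0; push_cast [FCQ.KK_cast, FCQ.JJ_cast, cospQ_cast, WCQ.aK6_cast, WCQ.aKq_cast, WCQ.aJq_cast, WCQ.aKr_cast, WCQ.aKm_cast, WCQ.aJm_cast] at h1; exact h1)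
    vr := (by have h1 := (Rat.cast_le (K := ℝ)).2 h1_1; push_cast [FCQ.KK_cast, FCQ.JJ_cast, cospQ_cast, WCQ.aK6_cast, WCQ.aKq_cast, WCQ.aJq_cast, WCQ.aKr_cast, WCQ.aKm_cast, WCQ.aJm_cast] at h1; exact h1)
    Er := (by have h1 := h1_2.le; push_cast [FCQ.KK_cast, FCQ.JJ_cast, cospQ_cast, WCQ.aK6_cast, WCQ.aKq_cast, WCQ.aJq_cast, WCQ.aKr_cast, WCQ.aKm_cast, WCQ.aJm_cast] at h1; exact h1)
    ηr := (by have h1 := (Rat.cast_le (K := ℝ)).2 h1_3; push_cast [FCQ.KK_cast, FCQ.JJ_cast, cospQ_cast, WCQ.aK6_cast, WCQ.aKq_cast, WCQ.aJq_cast, WCQ.aKr_cast, WCQ.aKm_cast, WCQ.aJm_cast] at h1; exact h1)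
    V0 := ⟨(by have h1 := (Rat.cast_le (K := ℝ)).2 h1_4_0; push_cast [FCQ.KK_cast, FCQ.JJ_cast, cospQ_cast, WCQ.aK6_cast, WCQ.aKq_cast, WCQ.aJq_cast, WCQ.aKr_cast, WCQ.aKm_cast, WCQ.aJm_cast] at h1; exact h1),
      (by have h1 := (Rat.cast_le (K := ℝ)).2 h1_4_1; push_cast [FCQ.KK_cast, FCQ.JJ_cast, cospQ_cast, WCQ.aK6_cast, WCQ.aKq_cast, WCQ.aJq_cast, WCQ.aKr_cast, WCQ.aKm_cast, WCQ.aJm_cast] at h1; exact h1)⟩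
    EL := (by have h1 := h2_0.le; push_cast [FCQ.KK_cast, FCQ.JJ_cast, cospQ_cast, WCQ.aK6_cast, WCQ.aKq_cast, WCQ.aJq_cast, WCQ.aKr_cast, WCQ.aKm_cast, WCQ.aJm_cast] at h1; exact h1)
    ηL := (by have h1 := (Rat.cast_le (K := ℝ)).2 h2_1; push_cast [FCQ.KK_cast, FCQ.JJ_cast, cospQ_cast, WCQ.aK6_cast, WCQ.aKq_cast, WCQ.aJq_cast, WCQ.aKr_cast, WCQ.aKm_cast, WCQ.aJm_cast] at h1; exact h1)
    VL := (by have h1 := (Rat.cast_le (K := ℝ)).2 h2_2; push_cast [FCQ.KK_cast, FCQ.JJ_cast, cospQ_cast, WCQ.aK6_cast, WCQ.aKq_cast, WCQ.aJq_cast, WCQ.aKr_cast, WCQ.aKm_cast, WCQ.aJm_cast] at h1; exact h1)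
    kk := (by have h1 := (Rat.cast_le (K := ℝ)).2 h2_3; push_cast [FCQ.KK_cast, FCQ.JJ_cast, cospQ_cast, WCQ.aK6_cast, WCQ.aKq_cast, WCQ.aJq_cast, WCQ.aKr_cast, WCQ.aKm_cast, WCQ.aJm_cast] at h1; exact h1)
    U := ⟨(by have h1 := (Rat.cast_le (K := ℝ)).2 h2_4_0; push_cast [FCQ.KK_cast, FCQ.JJ_cast, cospQ_cast, WCQ.aK6_cast, WCQ.aKq_cast, WCQ.aJq_cast, WCQ.aKr_cast, WCQ.aKm_cast, WCQ.aJm_cast] at h1; exact h1),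
      (by have h1 := (Rat.cast_le (K := ℝ)).2 h2_4_1; push_cast [FCQ.KK_cast, FCQ.JJ_cast, cospQ_cast, WCQ.aK6_cast, WCQ.aKq_cast, WCQ.aJq_cast, WCQ.aKr_cast, WCQ.aKm_cast, WCQ.aJm_cast] at h1; exact h1)⟩
    Uq := ⟨(by have h1 := (Rat.cast_le (K := ℝ)).2 h3_0_0; push_cast [FCQ.KK_cast, FCQ.JJ_cast, cospQ_cast, WCQ.aK6_cast, WCQ.aKq_cast, WCQ.aJq_cast, WCQ.aKr_cast, WCQ.aKm_cast, WCQ.aJm_cast] at h1; exact h1),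
      (by have h1 := (Rat.cast_le (K := ℝ)).2 h3_0_1; push_cast [FCQ.KK_cast, FCQ.JJ_cast, cospQ_cast, WCQ.aK6_cast, WCQ.aKq_cast, WCQ.aJq_cast, WCQ.aKr_cast, WCQ.aKm_cast, WCQ.aJm_cast] at h1; exact h1)⟩
    qR := (by have h1 := (Rat.cast_le (K := ℝ)).2 h3_1; push_cast [FCQ.KK_cast, FCQ.JJ_cast, cospQ_cast, WCQ.aK6_cast, WCQ.aKq_cast, WCQ.aJq_cast, WCQ.aKr_cast, WCQ.aKm_cast, WCQ.aJm_cast] at h1; exact h1)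
    χ6 := (by have h1 := (Rat.cast_le (K := ℝ)).2 h3_2; push_cast [FCQ.KK_cast, FCQ.JJ_cast, cospQ_cast, WCQ.aK6_cast, WCQ.aKq_cast, WCQ.aJq_cast, WCQ.aKr_cast, WCQ.aKm_cast, WCQ.aJm_cast] at h1; exact h1)
    χ6' := (by have h1 := h3_3.le; push_cast [FCQ.KK_cast, FCQ.JJ_cast, cospQ_cast, WCQ.aK6_cast, WCQ.aKq_cast, WCQ.aJq_cast, WCQ.aKr_cast, WCQ.aKm_cast, WCQ.aJm_cast] at h1; exact h1)
    χq := (by have h1 := (Rat.cast_le (K := ℝ)).2 h3_4; push_cast [FCQ.KK_cast, FCQ.JJ_cast, cospQ_cast, WCQ.aK6_cast, WCQ.aKq_cast, WCQ.aJq_cast, WCQ.aKr_cast, WCQ.aKm_cast, WCQ.aJm_cast] at h1; exact h1)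
    χq' := (by have h1 := h4_0.le; push_cast [FCQ.KK_cast, FCQ.JJ_cast, cospQ_cast, WCQ.aK6_cast, WCQ.aKq_cast, WCQ.aJq_cast, WCQ.aKr_cast, WCQ.aKm_cast, WCQ.aJm_cast] at h1; exact h1)
    χr := (by have h1 := (Rat.cast_le (K := ℝ)).2 h4_1; push_cast [FCQ.KK_cast, FCQ.JJ_cast, cospQ_cast, WCQ.aK6_cast, WCQ.aKq_cast, WCQ.aJq_cast, WCQ.aKr_cast, WCQ.aKm_cast, WCQ.aJm_cast] at h1; exact h1)
    χr' := (by have h1 := h4_2.le; push_cast [FCQ.KK_cast, FCQ.JJ_cast, cospQ_cast, WCQ.aK6_cast, WCQ.aKq_cast, WCQ.aJq_cast, WCQ.aKr_cast, WCQ.aKm_cast, WCQ.aJm_cast] at h1; exact h1)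
    P5 := ⟨(by have h1 := (Rat.cast_le (K := ℝ)).2 h4_3_0; push_cast [FCQ.KK_cast, FCQ.JJ_cast, cospQ_cast, WCQ.aK6_cast, WCQ.aKq_cast, WCQ.aJq_cast, WCQ.aKr_cast, WCQ.aKm_cast, WCQ.aJm_cast] at h1; exact h1),
      (by have h1 := (Rat.cast_le (K := ℝ)).2 h4_3_1; push_cast [FCQ.KK_cast, FCQ.JJ_cast, cospQ_cast, WCQ.aK6_cast, WCQ.aKq_cast, WCQ.aJq_cast, WCQ.aKr_cast, WCQ.aKm_cast, WCQ.aJm_cast] at h1; exact h1)⟩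
    Tr := (by have h1 := (Rat.cast_le (K := ℝ)).2 h4_4; push_cast [FCQ.KK_cast, FCQ.JJ_cast, cospQ_cast, WCQ.aK6_cast, WCQ.aKq_cast, WCQ.aJq_cast, WCQ.aKr_cast, WCQ.aKm_cast, WCQ.aJm_cast] at h1; exact h1)
    g6 := ⟨(by have h1 := (Rat.cast_le (K := ℝ)).2 h5_0_0; push_cast [FCQ.KK_cast, FCQ.JJ_cast, cospQ_cast, WCQ.aK6_cast, WCQ.aKq_cast, WCQ.aJq_cast, WCQ.aKr_cast, WCQ.aKm_cast, WCQ.aJm_cast] at h1; exact h1),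
      (by have h1 := (Rat.cast_le (K := ℝ)).2 h5_0_1; push_cast [FCQ.KK_cast, FCQ.JJ_cast, cospQ_cast, WCQ.aK6_cast, WCQ.aKq_cast, WCQ.aJq_cast, WCQ.aKr_cast, WCQ.aKm_cast, WCQ.aJm_cast] at h1; exact h1),
      (by have h1 := h5_0_2.le; push_cast [FCQ.KK_cast, FCQ.JJ_cast, cospQ_cast, WCQ.aK6_cast, WCQ.aKq_cast, WCQ.aJq_cast, WCQ.aKr_cast, WCQ.aKm_cast, WCQ.aJm_cast] at h1; exact h1)⟩
    gq := ⟨(by have h1 := (Rat.cast_le (K := ℝ)).2 h5_1_0; push_cast [FCQ.KK_cast, FCQ.JJ_cast, cospQ_cast, WCQ.aK6_cast, WCQ.aKq_cast, WCQ.aJq_cast, WCQ.aKr_cast, WCQ.aKm_cast, WCQ.aJm_cast] at h1; exact h1),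
      (by have h1 := (Rat.cast_le (K := ℝ)).2 h5_1_1; push_cast [FCQ.KK_cast, FCQ.JJ_cast, cospQ_cast, WCQ.aK6_cast, WCQ.aKq_cast, WCQ.aJq_cast, WCQ.aKr_cast, WCQ.aKm_cast, WCQ.aJm_cast] at h1; exact h1),
      (by have h1 := h5_1_2.le; push_cast [FCQ.KK_cast, FCQ.JJ_cast, cospQ_cast, WCQ.aK6_cast, WCQ.aKq_cast, WCQ.aJq_cast, WCQ.aKr_cast, WCQ.aKm_cast, WCQ.aJm_cast] at h1; exact h1)⟩
    gr := ⟨(by have h1 := (Rat.cast_le (K := ℝ)).2 h5_2_0; push_cast [FCQ.KK_cast, FCQ.JJ_cast, cospQ_cast, WCQ.aK6_cast, WCQ.aKq_cast, WCQ.aJq_cast, WCQ.aKr_cast, WCQ.aKm_cast, WCQ.aJm_cast] at h1; exact h1),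
      (by have h1 := (Rat.cast_le (K := ℝ)).2 h5_2_1; push_cast [FCQ.KK_cast, FCQ.JJ_cast, cospQ_cast, WCQ.aK6_cast, WCQ.aKq_cast, WCQ.aJq_cast, WCQ.aKr_cast, WCQ.aKm_cast, WCQ.aJm_cast] at h1; exact h1),
      (by have h1 := h5_2_2.le; push_cast [FCQ.KK_cast, FCQ.JJ_cast, cospQ_cast, WCQ.aK6_cast, WCQ.aKq_cast, WCQ.aJq_cast, WCQ.aKr_cast, WCQ.aKm_cast, WCQ.aJm_cast] at h1; exact h1)⟩
    gm := ⟨(by have h1 := (Rat.cast_le (K := ℝ)).2 h5_3_0; push_cast [FCQ.KK_cast, FCQ.JJ_cast, cospQ_cast, WCQ.aK6_cast, WCQ.aKq_cast, WCQ.aJq_cast, WCQ.aKr_cast, WCQ.aKm_cast, WCQ.aJm_cast] at h1; exact h1),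
      (by have h1 := (Rat.cast_le (K := ℝ)).2 h5_3_1; push_cast [FCQ.KK_cast, FCQ.JJ_cast, cospQ_cast, WCQ.aK6_cast, WCQ.aKq_cast, WCQ.aJq_cast, WCQ.aKr_cast, WCQ.aKm_cast, WCQ.aJm_cast] at h1; exact h1),
      (by have h1 := h5_3_2.le; push_cast [FCQ.KK_cast, FCQ.JJ_cast, cospQ_cast, WCQ.aK6_cast, WCQ.aKq_cast, WCQ.aJq_cast, WCQ.aKr_cast, WCQ.aKm_cast, WCQ.aJm_cast] at h1; exact h1)⟩
    SrCr := (by have h1 := (Rat.cast_le (K := ℝ)).2 h5_4; push_cast [FCQ.KK_cast, FCQ.JJ_cast, cospQ_cast, WCQ.aK6_cast, WCQ.aKq_cast, WCQ.aJq_cast, WCQ.aKr_cast, WCQ.aKm_cast, WCQ.aJm_cast] at h1; exact h1)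
    hk := (by have h1 := (Rat.cast_le (K := ℝ)).2 h6_0; push_cast [FCQ.KK_cast, FCQ.JJ_cast, cospQ_cast, WCQ.aK6_cast, WCQ.aKq_cast, WCQ.aJq_cast, WCQ.aKr_cast, WCQ.aKm_cast, WCQ.aJm_cast] at h1; exact h1)
    ρ5 := (by have h1 := h6_1.le; push_cast [FCQ.KK_cast, FCQ.JJ_cast, cospQ_cast, WCQ.aK6_cast, WCQ.aKq_cast, WCQ.aJq_cast, WCQ.aKr_cast, WCQ.aKm_cast, WCQ.aJm_cast] at h1; exact h1)
    ρm5 := (by have h1 := h6_2.le; push_cast [FCQ.KK_cast, FCQ.JJ_cast, cospQ_cast, WCQ.aK6_cast, WCQ.aKq_cast, WCQ.aJq_cast, WCQ.aKr_cast, WCQ.aKm_cast, WCQ.aJm_cast] at h1; exact h1)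
    q0 := ⟨(by have h1 := (Rat.cast_le (K := ℝ)).2 h6_3_0; push_cast [FCQ.KK_cast, FCQ.JJ_cast, cospQ_cast, WCQ.aK6_cast, WCQ.aKq_cast, WCQ.aJq_cast, WCQ.aKr_cast, WCQ.aKm_cast, WCQ.aJm_cast] at h1; exact h1),
      (by have h1 := (Rat.cast_le (K := ℝ)).2 h6_3_1; push_cast [FCQ.KK_cast, FCQ.JJ_cast, cospQ_cast, WCQ.aK6_cast, WCQ.aKq_cast, WCQ.aJq_cast, WCQ.aKr_cast, WCQ.aKm_cast, WCQ.aJm_cast] at h1; exact h1)⟩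
    K2 := (by have h1 := (Rat.cast_le (K := ℝ)).2 h6_4; push_cast [FCQ.KK_cast, FCQ.JJ_cast, cospQ_cast, WCQ.aK6_cast, WCQ.aKq_cast, WCQ.aJq_cast, WCQ.aKr_cast, WCQ.aKm_cast, WCQ.aJm_cast] at h1; exact h1)
    K2' := (by have h1 := (Rat.cast_le (K := ℝ)).2 h7_0; push_cast [FCQ.KK_cast, FCQ.JJ_cast, cospQ_cast, WCQ.aK6_cast, WCQ.aKq_cast, WCQ.aJq_cast, WCQ.aKr_cast, WCQ.aKm_cast, WCQ.aJm_cast] at h1; exact h1)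
    K2'' := (by have h1 := (Rat.cast_le (K := ℝ)).2 h7_1; push_cast [FCQ.KK_cast, FCQ.JJ_cast, cospQ_cast, WCQ.aK6_cast, WCQ.aKq_cast, WCQ.aJq_cast, WCQ.aKr_cast, WCQ.aKm_cast, WCQ.aJm_cast] at h1; exact h1)
    Kr := (by have h1 := (Rat.cast_le (K := ℝ)).2 h7_2; push_cast [FCQ.KK_cast, FCQ.JJ_cast, cospQ_cast, WCQ.aK6_cast, WCQ.aKq_cast, WCQ.aJq_cast, WCQ.aKr_cast, WCQ.aKm_cast, WCQ.aJm_cast] at h1; exact h1)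
    Km := (by have h1 := (Rat.cast_le (K := ℝ)).2 h7_3; push_cast [FCQ.KK_cast, FCQ.JJ_cast, cospQ_cast, WCQ.aK6_cast, WCQ.aKq_cast, WCQ.aJq_cast, WCQ.aKr_cast, WCQ.aKm_cast, WCQ.aJm_cast] at h1; exact h1)
    Km' := (by have h1 := (Rat.cast_le (K := ℝ)).2 h7_4; push_cast [FCQ.KK_cast, FCQ.JJ_cast, cospQ_cast, WCQ.aK6_cast, WCQ.aKq_cast, WCQ.aJq_cast, WCQ.aKr_cast, WCQ.aKm_cast, WCQ.aJm_cast] at h1; exact h1)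
    Km2 := (by have h1 := (Rat.cast_le (K := ℝ)).2 h8_0; push_cast [FCQ.KK_cast, FCQ.JJ_cast, cospQ_cast, WCQ.aK6_cast, WCQ.aKq_cast, WCQ.aJq_cast, WCQ.aKr_cast, WCQ.aKm_cast, WCQ.aJm_cast] at h1; exact h1)
    Km2' := (by have h1 := (Rat.cast_le (K := ℝ)).2 h8_1; push_cast [FCQ.KK_cast, FCQ.JJ_cast, cospQ_cast, WCQ.aK6_cast, WCQ.aKq_cast, WCQ.aJq_cast, WCQ.aKr_cast, WCQ.aKm_cast, WCQ.aJm_cast] at h1; exact h1) }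

/-- conditions of `WC.Ok3`, part 0 -/
def wok3B0 (W : WCQ) (N : NumQ) : Prop :=
    (W.R.KK ≤ N.K3) ∧
    (W.aK6 ≤ N.K3 * N.τ6) ∧
    (W.aKq ≤ N.K3 * N.τ)

instance (W : WCQ) (N : NumQ) : Decidable (wok3B0 W N) := by unfold wok3B0; infer_instance

/-- the check of `WC.Ok3` -/
def wok3B (W : WCQ) (N : NumQ) : Bool :=
  decide (wok3B0 W N)

theorem wok3B_ok {W : WCQ} {N : NumQ} (h : wok3B W N = true) : W.wc.Ok3 N.num := by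
  simp only [wok3B, Bool.and_eq_true, decide_eq_true_eq] at h
  have g0 := h
  obtain ⟨h0_0, h0_1, h0_2⟩ := g0
  exact {
    K3 := (by have h1 := (Rat.cast_le (K := ℝ)).2 h0_0; push_cast [FCQ.KK_cast, FCQ.JJ_cast, cospQ_cast, WCQ.aK6_cast, WCQ.aKq_cast, WCQ.aJq_cast, WCQ.aKr_cast, WCQ.aKm_cast, WCQ.aJm_cast] at h1; exact h1)
    K3' := (by have h1 := (Rat.cast_le (K := ℝ)).2 h0_1; push_cast [FCQ.KK_cast, FCQ.JJ_cast, cospQ_cast, WCQ.aK6_cast, WCQ.aKq_cast, WCQ.aJq_cast, WCQ.aKr_cast, WCQ.aKm_cast, WCQ.aJm_cast] at h1; exact h1)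
    K3'' := (by have h1 := (Rat.cast_le (K := ℝ)).2 h0_2; push_cast [FCQ.KK_cast, FCQ.JJ_cast, cospQ_cast, WCQ.aK6_cast, WCQ.aKq_cast, WCQ.aJq_cast, WCQ.aKr_cast, WCQ.aKm_cast, WCQ.aJm_cast] at h1; exact h1) }

/-- conditions of `WC.OkM`, part 0 -/
def wokMB0 (W : WCQ) (N : NumQ) (D2 Dm : ℚ) : Prop :=
    (-1 ≤ N.qL ∧ N.qR ≤ 0) ∧
    (6.2832 / W.R.b1 * (N.qR + 1) ≤ W.R.k1 + 1.57) ∧
    (D2 * W.R.KK + W.R.JJ ≤ N.P2) ∧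
    (D2 * W.aKq + W.aJq ≤ N.P2 * N.τ) ∧
    ((1 + W.qm) * (Dm * W.L.KK + W.L.JJ) + W.um * W.L.KK ≤ N.Pm) ∧
    (Dm * W.aKm + W.aJm ≤ N.Pm * N.τm)

instance (W : WCQ) (N : NumQ) (D2 Dm : ℚ) : Decidable (wokMB0 W N D2 Dm) := by unfold wokMB0; infer_instance

/-- the check of `WC.OkM` -/
def wokMB (W : WCQ) (N : NumQ) (D2 Dm : ℚ) : Bool :=
  decide (wokMB0 W N D2 Dm)

theorem wokMB_ok {W : WCQ} {N : NumQ} {D2 Dm : ℚ} (h : wokMB W N D2 Dm = true) : W.wc.OkM N.num (D2 : ℝ) (Dm : ℝ) := by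
  simp only [wokMB, Bool.and_eq_true, decide_eq_true_eq] at h
  have g0 := h
  obtain ⟨⟨h0_0_0, h0_0_1⟩, h0_1, h0_2, h0_3, h0_4, h0_5⟩ := g0
  exact {
    q := ⟨(by have h1 := (Rat.cast_le (K := ℝ)).2 h0_0_0; push_cast [FCQ.KK_cast, FCQ.JJ_cast, cospQ_cast, WCQ.aK6_cast, WCQ.aKq_cast, WCQ.aJq_cast, WCQ.aKr_cast, WCQ.aKm_cast, WCQ.aJm_cast] at h1; exact h1),
      (by have h1 := (Rat.cast_le (K := ℝ)).2 h0_0_1; push_cast [FCQ.KK_cast, FCQ.JJ_cast, cospQ_cast, WCQ.aK6_cast, WCQ.aKq_cast, WCQ.aJq_cast, WCQ.aKr_cast, WCQ.aKm_cast, WCQ.aJm_cast] at h1; exact h1)⟩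
    dom := (by have h1 := (Rat.cast_le (K := ℝ)).2 h0_1; push_cast [FCQ.KK_cast, FCQ.JJ_cast, cospQ_cast, WCQ.aK6_cast, WCQ.aKq_cast, WCQ.aJq_cast, WCQ.aKr_cast, WCQ.aKm_cast, WCQ.aJm_cast] at h1; exact h1)
    P2 := (by have h1 := (Rat.cast_le (K := ℝ)).2 h0_2; push_cast [FCQ.KK_cast, FCQ.JJ_cast, cospQ_cast, WCQ.aK6_cast, WCQ.aKq_cast, WCQ.aJq_cast, WCQ.aKr_cast, WCQ.aKm_cast, WCQ.aJm_cast] at h1; exact h1)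
    P2' := (by have h1 := (Rat.cast_le (K := ℝ)).2 h0_3; push_cast [FCQ.KK_cast, FCQ.JJ_cast, cospQ_cast, WCQ.aK6_cast, WCQ.aKq_cast, WCQ.aJq_cast, WCQ.aKr_cast, WCQ.aKm_cast, WCQ.aJm_cast] at h1; exact h1)
    Pm := (by have h1 := (Rat.cast_le (K := ℝ)).2 h0_4; push_cast [FCQ.KK_cast, FCQ.JJ_cast, cospQ_cast, WCQ.aK6_cast, WCQ.aKq_cast, WCQ.aJq_cast, WCQ.aKr_cast, WCQ.aKm_cast, WCQ.aJm_cast] at h1; exact h1)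
    Pm' := (by have h1 := (Rat.cast_le (K := ℝ)).2 h0_5; push_cast [FCQ.KK_cast, FCQ.JJ_cast, cospQ_cast, WCQ.aK6_cast, WCQ.aKq_cast, WCQ.aJq_cast, WCQ.aKr_cast, WCQ.aKm_cast, WCQ.aJm_cast] at h1; exact h1) }

/-- conditions of `WC.OkM3`, part 0 -/
def wokM3B0 (W : WCQ) (N : NumQ) (D2 Dm Sg : ℚ) : Prop :=
    (0 ≤ Sg) ∧
    ((D2 + Sg) * W.R.KK + W.R.JJ ≤ N.P3) ∧
    ((D2 + Sg) * W.aKq + W.aJq ≤ N.P3 * N.τ) ∧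
    (Sg * W.R.KK ≤ N.P4) ∧
    (Sg * W.aKq ≤ N.P4 * N.τ)

instance (W : WCQ) (N : NumQ) (D2 Dm Sg : ℚ) : Decidable (wokM3B0 W N D2 Dm Sg) := by unfold wokM3B0; infer_instance

/-- conditions of `WC.OkM3`, part 1 -/
def wokM3B1 (W : WCQ) (N : NumQ) (D2 Dm Sg : ℚ) : Prop :=
    ((1 + W.qm) * ((Dm + Sg) * W.L.KK + W.L.JJ) + W.um * W.L.KK ≤ N.Pm2) ∧
    ((Dm + Sg) * W.aKm + W.aJm ≤ N.Pm2 * N.τm) ∧
    ((1 + W.qm) * (Sg * W.L.KK) ≤ N.Pm3) ∧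
    (Sg * W.aKm ≤ N.Pm3 * N.τm)

instance (W : WCQ) (N : NumQ) (D2 Dm Sg : ℚ) : Decidable (wokM3B1 W N D2 Dm Sg) := by unfold wokM3B1; infer_instance

/-- the check of `WC.OkM3` -/
def wokM3B (W : WCQ) (N : NumQ) (D2 Dm Sg : ℚ) : Bool :=
  decide (wokM3B0 W N D2 Dm Sg) && decide (wokM3B1 W N D2 Dm Sg)

theorem wokM3B_ok {W : WCQ} {N : NumQ} {D2 Dm Sg : ℚ} (h : wokM3B W N D2 Dm Sg = true) : W.wc.OkM3 N.num (D2 : ℝ) (Dm : ℝ) (Sg : ℝ) := by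
  simp only [wokM3B, Bool.and_eq_true, decide_eq_true_eq] at h
  obtain ⟨g0, g1⟩ := h
  obtain ⟨h0_0, h0_1, h0_2, h0_3, h0_4⟩ := g0
  obtain ⟨h1_0, h1_1, h1_2, h1_3⟩ := g1
  exact {
    S := (by have h1 := (Rat.cast_le (K := ℝ)).2 h0_0; push_cast [FCQ.KK_cast, FCQ.JJ_cast, cospQ_cast, WCQ.aK6_cast, WCQ.aKq_cast, WCQ.aJq_cast, WCQ.aKr_cast, WCQ.aKm_cast, WCQ.aJm_cast] at h1; exact h1)
    P3 := (by have h1 := (Rat.cast_le (K := ℝ)).2 h0_1; push_cast [FCQ.KK_cast, FCQ.JJ_cast, cospQ_cast, WCQ.aK6_cast, WCQ.aKq_cast, WCQ.aJq_cast, WCQ.aKr_cast, WCQ.aKm_cast, WCQ.aJm_cast] at h1; exact h1)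
    P3' := (by have h1 := (Rat.cast_le (K := ℝ)).2 h0_2; push_cast [FCQ.KK_cast, FCQ.JJ_cast, cospQ_cast, WCQ.aK6_cast, WCQ.aKq_cast, WCQ.aJq_cast, WCQ.aKr_cast, WCQ.aKm_cast, WCQ.aJm_cast] at h1; exact h1)
    P4 := (by have h1 := (Rat.cast_le (K := ℝ)).2 h0_3; push_cast [FCQ.KK_cast, FCQ.JJ_cast, cospQ_cast, WCQ.aK6_cast, WCQ.aKq_cast, WCQ.aJq_cast, WCQ.aKr_cast, WCQ.aKm_cast, WCQ.aJm_cast] at h1; exact h1)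
    P4' := (by have h1 := (Rat.cast_le (K := ℝ)).2 h0_4; push_cast [FCQ.KK_cast, FCQ.JJ_cast, cospQ_cast, WCQ.aK6_cast, WCQ.aKq_cast, WCQ.aJq_cast, WCQ.aKr_cast, WCQ.aKm_cast, WCQ.aJm_cast] at h1; exact h1)
    Pm2 := (by have h1 := (Rat.cast_le (K := ℝ)).2 h1_0; push_cast [FCQ.KK_cast, FCQ.JJ_cast, cospQ_cast, WCQ.aK6_cast, WCQ.aKq_cast, WCQ.aJq_cast, WCQ.aKr_cast, WCQ.aKm_cast, WCQ.aJm_cast] at h1; exact h1)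
    Pm2' := (by have h1 := (Rat.cast_le (K := ℝ)).2 h1_1; push_cast [FCQ.KK_cast, FCQ.JJ_cast, cospQ_cast, WCQ.aK6_cast, WCQ.aKq_cast, WCQ.aJq_cast, WCQ.aKr_cast, WCQ.aKm_cast, WCQ.aJm_cast] at h1; exact h1)
    Pm3 := (by have h1 := (Rat.cast_le (K := ℝ)).2 h1_2; push_cast [FCQ.KK_cast, FCQ.JJ_cast, cospQ_cast, WCQ.aK6_cast, WCQ.aKq_cast, WCQ.aJq_cast, WCQ.aKr_cast, WCQ.aKm_cast, WCQ.aJm_cast] at h1; exact h1)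
    Pm3' := (by have h1 := (Rat.cast_le (K := ℝ)).2 h1_3; push_cast [FCQ.KK_cast, FCQ.JJ_cast, cospQ_cast, WCQ.aK6_cast, WCQ.aKq_cast, WCQ.aJq_cast, WCQ.aKr_cast, WCQ.aKm_cast, WCQ.aJm_cast] at h1; exact h1) }

/-- the check of `WC.OkP` -/
def wokPB (W : WCQ) (N : NumQ) : Bool :=
  decide ((W.R.R0 ≤ 10 ∨ W.R.R0 * 39.4785 ≤ N.T0 * (W.R.b1 ^ 2 * (1 + W.R.k1 ^ 2))) ∧ 5.44 ≤ N.T0)

theorem wokPB_ok {W : WCQ} {N : NumQ} (h : wokPB W N = true) : W.wc.OkP N.num := by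
  simp only [wokPB, decide_eq_true_eq] at h
  obtain ⟨h0, h1⟩ := h
  refine ⟨?_, ?_⟩
  · rcases h0 with h2 | h2
    · left
      have h3 := (Rat.cast_le (K := ℝ)).2 h2
      push_cast at h3
      exact h3
    · right
      have h3 := (Rat.cast_le (K := ℝ)).2 h2
      push_cast at h3
      exact h3
  · have h3 := (Rat.cast_le (K := ℝ)).2 h1
    push_cast at h3
    exact h3

/-- the check of `WC.OkR` -/
def wokRB (W : WCQ) : Bool := decide (W.L.Q ≤ W.qm ∧ 6.2832 * W.L.UQ ≤ W.um)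

theorem wokRB_ok {W : WCQ} (h : wokRB W = true) : W.wc.OkR := by
  simp only [wokRB, decide_eq_true_eq] at h
  obtain ⟨h0, h1⟩ := h
  refine ⟨?_, ?_⟩
  · have h3 := (Rat.cast_le (K := ℝ)).2 h0
    exact h3
  · have h3 := (Rat.cast_le (K := ℝ)).2 h1
    push_cast at h3
    exact h3

/-- the check of `WC.OkT` -/
def wokTB (W : WCQ) (N : NumQ) (H1 X3 : ℚ) : Bool :=
  decide ((0 < H1 ∧ 6.283186 ≤ H1 * (W.R.b1 * W.R.k1)) ∧ EV (N.Sm * H1) X3 ∧ X3 - 1 - N.Sm * H1 ≤ N.Cm * H1 ^ 2)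

theorem wokTB_ok {W : WCQ} {N : NumQ} {H1 X3 : ℚ} (h : wokTB W N H1 X3 = true) :
    W.wc.OkT N.num (H1 : ℝ) (X3 : ℝ) := by
  simp only [wokTB, decide_eq_true_eq] at h
  obtain ⟨⟨h0, h1⟩, h2, h3⟩ := h
  refine ⟨⟨?_, ?_⟩, ?_, ?_⟩
  · exact_mod_cast h0
  · have h4 := (Rat.cast_le (K := ℝ)).2 h1
    push_cast at h4
    exact h4
  · have h4 := h2.le
    push_cast at h4
    exact h4
  · have h4 := (Rat.cast_le (K := ℝ)).2 h3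
    push_cast at h4
    exact h4

/-- the whole check; `t`: also the windows `k ≥ 3`, `k ≤ -2` (needed for `b ≥ 2`) -/
def wB (t : Bool) (W : WCQ) (N : NumQ) (D2 Dm Sg : ℚ) : Bool :=
  fokB W.R && fokB W.L && fokB W.Q && wokB W N && wokMB W N D2 Dm && (!t || (wok3B W N && wokM3B W N D2 Dm Sg))

theorem wB_ok {t : Bool} {W : WCQ} {N : NumQ} {D2 Dm Sg : ℚ} (h : wB t W N D2 Dm Sg = true) :
    W.wc.Ok N.num ∧ W.wc.OkM N.num (D2 : ℝ) (Dm : ℝ) := by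
  simp only [wB, Bool.and_eq_true] at h
  obtain ⟨⟨⟨⟨⟨h1, h2⟩, h3⟩, h4⟩, h5⟩, _⟩ := h
  exact ⟨wokB_ok h4 (fokB_ok h1) (fokB_ok h2) (fokB_ok h3), wokMB_ok h5⟩

theorem wB_ok3 {W : WCQ} {N : NumQ} {D2 Dm Sg : ℚ} (h : wB true W N D2 Dm Sg = true) :
    W.wc.Ok3 N.num ∧ W.wc.OkM3 N.num (D2 : ℝ) (Dm : ℝ) (Sg : ℝ) := by
  simp only [wB, Bool.and_eq_true, Bool.not_true, Bool.false_or] at h
  obtain ⟨_, h1, h2⟩ := h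
  exact ⟨wok3B_ok h1, wokM3B_ok h2⟩

end Sok.R2
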