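import Pool.Agent.Lib.MP_816dec_an.R2WFinL
import Pool.Agent.Lib.MP_816dec_an.R2Conv

/-!
MP_816dec_an (row R2, far windows): all legs together; numeric bounds of the absolute legs; evaluation of the windows.
-/

set_option autoImplicit false

open Complex Set Filter Topology MeasureTheory

namespace Sok.R2

section
variable {b : ℕ} {β r : ℝ} {N : FC}

/-- VALUE on the right, any `t ≤ π + U κ` -/
theorem CC_val {C v v1 t y U χ : ℝ} (H : N.Ok) (P : Pt b β r N) (L : RL b β r N C v)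
    (hv1 : v ≤ v1) (hE1 : N.E ≤ Real.exp (-v1)) (hU : U ≤ 2.79) (hχ : χ ≤ N.E * ((v1 + 1.693) / 2))
    (hχ' : U * (Real.log U - 1) ≤ -χ) (ht : t = -(β * r) + y * hh b) (htU : t - Real.pi ≤ U * (β * r)) :
    ‖CC β r t‖ ≤ (N.KK * xf b β r N.S C y + ab0 β r (v + 4 / 3) χ) * GN β r := by
  have hκ := L.hI.kpos
  have hv0 := L.v0
  rcases le_total (t - Real.pi) (β * r * (Real.exp (-v) / 2)) with h | h
  · have h1 := CC_rel H P L ht h
    have h2 := ab0_nonneg (χ := χ) (s := v + 4 / 3) H P (by linarith)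
    have h3 := mul_nonneg h2 (GN_posW β r).le
    linarith
  · have h0 : 0 < β * r * (Real.exp (-v) / 2) := by positivity
    have h1 : Real.pi < t := by linarith
    have h2 : Real.exp (-v) / 2 ≤ (t - Real.pi) / (β * r) := by
      rw [le_div_iff₀ hκ]; linarith
    have h3 : (t - Real.pi) / (β * r) ≤ U := by
      rw [div_le_iff₀ hκ]; exact htU
    have h4 := chi_right hv1 hv0.le hE1 h2 h3 hχ hχ'
    refine CC_abs H P L ht h1 ?_ h4
    exact htU.trans (mul_le_mul_of_nonneg_right hU hκ.le)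

/-- MOMENT on the right, any `t ≤ π + U κ` -/
theorem CC_mom {C v v1 t y U χ d D : ℝ} (H : N.Ok) (P : Pt b β r N) (L : RL b β r N C v)
    (hv1 : v ≤ v1) (hE1 : N.E ≤ Real.exp (-v1)) (hU : U ≤ 2.79) (hχ : χ ≤ N.E * ((v1 + 1.693) / 2))
    (hχ' : U * (Real.log U - 1) ≤ -χ) (ht : t = -(β * r) + y * hh b) (htU : t - Real.pi ≤ U * (β * r)) (Λ : ℂ)
    (hd : |wv (β * r) v - t - Λ.re| + |v - Λ.im| ≤ d) (hD : uu b β r * d ≤ D) :
    hh b / TT b β r * ‖ew β r t * CC β r (t + β) - Λ / β * CC β r t‖ ≤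
      ((D * N.KK + N.JJ) * xf b β r N.S C y + (D * ab0 β r (v + 4 / 3) χ + ab1 b β r (v + 4 / 3) χ)) * GN β r := by
  have hκ := L.hI.kpos
  have hv0 := L.v0
  have hd0 : 0 ≤ d := le_trans (by positivity) hd
  have hu := uu_pos P.hb P.hβ (P.rp H)
  have hD0 : 0 ≤ D := le_trans (by positivity) hD
  rcases le_total (t - Real.pi) (β * r * (Real.exp (-v) / 2)) with h | h
  · have h1 := CC_rel_mom H P L ht h Λ hd hD
    have h2 := ab0_nonneg (χ := χ) (s := v + 4 / 3) H P (by linarith)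
    have h2' := ab1_nonneg (χ := χ) (s := v + 4 / 3) H P (by linarith)
    have h3 : 0 ≤ (D * ab0 β r (v + 4 / 3) χ + ab1 b β r (v + 4 / 3) χ) * GN β r := by
      have := GN_posW β r
      positivity
    linarith
  · have h0 : 0 < β * r * (Real.exp (-v) / 2) := by positivity
    have h1 : Real.pi < t := by linarith
    have h2 : Real.exp (-v) / 2 ≤ (t - Real.pi) / (β * r) := by
      rw [le_div_iff₀ hκ]; linarith
    have h3 : (t - Real.pi) / (β * r) ≤ U := by
      rw [div_le_iff₀ hκ]; exact htU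
    have h4 := chi_right hv1 hv0.le hE1 h2 h3 hχ hχ'
    refine CC_abs_mom H P L ht h1 ?_ h4 Λ hd hD
    exact htU.trans (mul_le_mul_of_nonneg_right hU hκ.le)

/-- VALUE on the left, any `t ≤ -π + 1.27 κ` -/
theorem RR_val {C V t y : ℝ} (H : N.Ok) (P : Pt b β r N) (L : LL b β r N C V) (hV : V ≤ 4 / 3)
    (ht : t = -(β * r) + y * hh b) (htU : t + Real.pi ≤ 1.27 * (β * r)) :
    ‖RR β r t‖ ≤ (N.KK * xf b β r N.S C (-y) + ab0 β r (-V + 4 / 3) 0.84) * GN β r := by
  have hκ := (L.iy H P).kpos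
  have hv0 := L.v0
  rcases le_total (t + Real.pi) (β * r * (Real.exp V / 2)) with h | h
  · have h1 := RR_rel H P L ht h
    have h2 := ab0_nonneg (χ := 0.84) (s := -V + 4 / 3) H P (by linarith)
    have h3 := mul_nonneg h2 (GN_posW β r).le
    linarith
  · have h0 : 0 < β * r * (Real.exp V / 2) := by positivity
    have h2 : Real.exp (- -V) / 2 ≤ (t + Real.pi) / (β * r) := by
      rw [neg_neg, le_div_iff₀ hκ]; linarith
    have h3 : (t + Real.pi) / (β * r) ≤ 1.27 := by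
      rw [div_le_iff₀ hκ]; exact htU
    have h4 := chi_left (v := -V) (by linarith) h2 h3
    refine RR_abs H P L hV ht (by linarith) ?_ h4
    exact htU.trans (mul_le_mul_of_nonneg_right (by norm_num) hκ.le)

/-- MOMENT on the left, any `t ≤ -π + 1.27 κ` -/
theorem RR_mom {C V t y d D : ℝ} (H : N.Ok) (P : Pt b β r N) (L : LL b β r N C V) (hV : V ≤ 4 / 3)
    (ht : t = -(β * r) + y * hh b) (htU : t + Real.pi ≤ 1.27 * (β * r)) (Λ : ℂ)
    (hd : |-wl (β * r) V - t - Λ.re| + |-V - Λ.im| ≤ d) (hD : uu b β r * d ≤ D) :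
    hh b / TT b β r * ‖ew β r t * RR β r (t + β) - Λ / β * RR β r t‖ ≤
      ((D * N.KK + N.JJ) * xf b β r N.S C (-y) +
        (D * ab0 β r (-V + 4 / 3) 0.84 + ab1 b β r (-V + 4 / 3) 0.84)) * GN β r := by
  have hκ := (L.iy H P).kpos
  have hv0 := L.v0
  have hd0 : 0 ≤ d := le_trans (by positivity) hd
  have hu := uu_pos P.hb P.hβ (P.rp H)
  have hD0 : 0 ≤ D := le_trans (by positivity) hD
  rcases le_total (t + Real.pi) (β * r * (Real.exp V / 2)) with h | h
  · have h1 := RR_rel_mom H P L ht h Λ hd hD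
    have h2 := ab0_nonneg (χ := 0.84) (s := -V + 4 / 3) H P (by linarith)
    have h2' := ab1_nonneg (χ := 0.84) (s := -V + 4 / 3) H P (by linarith)
    have h3 : 0 ≤ (D * ab0 β r (-V + 4 / 3) 0.84 + ab1 b β r (-V + 4 / 3) 0.84) * GN β r := by
      have := GN_posW β r
      positivity
    linarith
  · have h0 : 0 < β * r * (Real.exp V / 2) := by positivity
    have h2 : Real.exp (- -V) / 2 ≤ (t + Real.pi) / (β * r) := by
      rw [neg_neg, le_div_iff₀ hκ]; linarith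
    have h3 : (t + Real.pi) / (β * r) ≤ 1.27 := by
      rw [div_le_iff₀ hκ]; exact htU
    have h4 := chi_left (v := -V) (by linarith) h2 h3
    refine RR_abs_mom H P L hV ht (by linarith) ?_ h4 Λ hd hD
    exact htU.trans (mul_le_mul_of_nonneg_right (by norm_num) hκ.le)

/-- numeric bound of the absolute leg, value -/
theorem ab0_le {s s1 χ g e Z : ℝ} (H : N.Ok) (P : Pt b β r N) (hs : 0 ≤ s) (hs1 : s ≤ s1)
    (hZ : Z ≤ r * (1 + χ - g)) (hg : 1 ≤ N.R0 * g) (he : Real.exp (-(N.R0 * g)) ≤ e) :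
    Real.exp Z * ab0 β r s χ ≤ N.A * N.sR * (1 / N.R0 + s1) * e := by
  have hpi := Real.pi_pos
  have hr := P.rp H
  have hR0 := H.R0p
  have hA := H.A.1
  have hsR := H.sR.1
  have h1 : Real.exp Z * Real.exp (-(r * (1 + χ))) ≤ Real.exp (-(r * g)) := by
    rw [← Real.exp_add]
    apply Real.exp_le_exp.2
    linarith
  have hs' : N.R0 ≤ N.sR ^ 2 * (2 * Real.pi) := by
    have := mul_le_mul_of_nonneg_left (by linarith [Real.pi_gt_d4] : (6.283 : ℝ) ≤ 2 * Real.pi)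
      (by positivity : 0 ≤ N.sR ^ 2)
    linarith [H.sR.2]
  have h2 := sup_half H.R0p P.hR hg hsR.le hs'
  have h3 : 1 / r + s ≤ 1 / N.R0 + s1 := add_le_add (one_div_le_one_div_of_le hR0 P.hR) hs1
  have hs1' : 0 ≤ s1 := hs.trans hs1
  have h0 : 0 ≤ 1 / r + s := by positivity
  have h0' : 0 ≤ 1 / N.R0 + s1 := by positivity
  have hn := nrm_pos (r := r) P.hβ
  unfold ab0
  calc Real.exp Z * (nrm β r * (1 / r + s) * Real.exp (-(r * (1 + χ)))) =
      nrm β r * (1 / r + s) * (Real.exp Z * Real.exp (-(r * (1 + χ)))) := by ring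
    _ ≤ nrm β r * (1 / r + s) * Real.exp (-(r * g)) := mul_le_mul_of_nonneg_left h1 (by positivity)
    _ ≤ (N.A * Real.sqrt (r / (2 * Real.pi))) * (1 / N.R0 + s1) * Real.exp (-(r * g)) := by
        apply mul_le_mul_of_nonneg_right _ (Real.exp_pos _).le
        exact mul_le_mul (P.nrm_le H) h3 h0 (by positivity)
    _ = N.A * (1 / N.R0 + s1) * (Real.sqrt (r / (2 * Real.pi)) * Real.exp (-(r * g))) := by ring
    _ ≤ N.A * (1 / N.R0 + s1) * (N.sR * e) := by
        apply mul_le_mul_of_nonneg_left _ (by positivity)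
        exact h2.trans (mul_le_mul_of_nonneg_left he hsR.le)
    _ = _ := by ring

/-- numeric bound of the absolute leg, moment -/
theorem ab1_le {s s1 χ g e Z : ℝ} (H : N.Ok) (P : Pt b β r N) (hs : 0 ≤ s) (hs1 : s ≤ s1)
    (hZ : Z ≤ r * (1 + χ - g)) (hg : 1 ≤ N.R0 * g) (he : Real.exp (-(N.R0 * g)) ≤ e) :
    Real.exp Z * ab1 b β r s χ ≤ N.J1 * N.R0 *
      (3.1416 * (1 / N.R0 + s1) + (s1 / N.R0 + (1 / N.R0) ^ 2 + s1 ^ 2)) * e := by
  have hpi := Real.pi_pos
  have hr := P.rp H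
  have hR0 := H.R0p
  have hJ := H.J1.1
  have hs1' : 0 ≤ s1 := hs.trans hs1
  have h1 : Real.exp Z * Real.exp (-(r * (1 + χ))) ≤ Real.exp (-(r * g)) := by
    rw [← Real.exp_add]
    apply Real.exp_le_exp.2
    linarith
  have h2 := sup_one H.R0p P.hR hg
  have h3 : 1 / r ≤ 1 / N.R0 := one_div_le_one_div_of_le hR0 P.hR
  have h4 : Real.pi * (1 / r + s) + (s / r + (1 / r) ^ 2 + s ^ 2) ≤
      3.1416 * (1 / N.R0 + s1) + (s1 / N.R0 + (1 / N.R0) ^ 2 + s1 ^ 2) := by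
    have k1 : Real.pi * (1 / r + s) ≤ 3.1416 * (1 / N.R0 + s1) :=
      mul_le_mul Real.pi_lt_d4.le (add_le_add h3 hs1) (by positivity) (by norm_num)
    have k2 : s / r ≤ s1 / N.R0 := div_le_div₀ hs1' hs1 hR0 P.hR
    have k3 : (1 / r) ^ 2 ≤ (1 / N.R0) ^ 2 := pow_le_pow_left₀ (by positivity) h3 2
    have k4 : s ^ 2 ≤ s1 ^ 2 := pow_le_pow_left₀ hs hs1 2
    linarith
  have hu := uu_pos P.hb P.hβ hr
  have hn := nrm_pos (r := r) P.hβ
  unfold ab1
  calc Real.exp Z * (uu b β r * nrm β r * (Real.pi * (1 / r + s) + (s / r + (1 / r) ^ 2 + s ^ 2)) *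
        Real.exp (-(r * (1 + χ)))) =
      uu b β r * nrm β r * (Real.pi * (1 / r + s) + (s / r + (1 / r) ^ 2 + s ^ 2)) *
        (Real.exp Z * Real.exp (-(r * (1 + χ)))) := by ring
    _ ≤ uu b β r * nrm β r * (Real.pi * (1 / r + s) + (s / r + (1 / r) ^ 2 + s ^ 2)) *
        Real.exp (-(r * g)) := mul_le_mul_of_nonneg_left h1 (by positivity)
    _ ≤ (N.J1 * r) * (3.1416 * (1 / N.R0 + s1) + (s1 / N.R0 + (1 / N.R0) ^ 2 + s1 ^ 2)) *
        Real.exp (-(r * g)) := by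
        apply mul_le_mul_of_nonneg_right _ (Real.exp_pos _).le
        exact mul_le_mul (P.unrm_le H) h4 (by positivity) (by positivity)
    _ = N.J1 * (3.1416 * (1 / N.R0 + s1) + (s1 / N.R0 + (1 / N.R0) ^ 2 + s1 ^ 2)) *
        (r * Real.exp (-(r * g))) := by ring
    _ ≤ N.J1 * (3.1416 * (1 / N.R0 + s1) + (s1 / N.R0 + (1 / N.R0) ^ 2 + s1 ^ 2)) * (N.R0 * e) := by
        apply mul_le_mul_of_nonneg_left _ (by positivity)
        exact h2.trans (mul_le_mul_of_nonneg_left he hR0.le)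
    _ = _ := by ring

/-- shifting the exponential factor by `j` windows -/
theorem xf_add (S C Y j : ℝ) : xf b β r S C (Y + j) = xf b β r S C Y * Real.exp (-(j * (TT b β r * S))) := by
  unfold xf
  rw [← Real.exp_add]
  congr 1
  ring

end

/-! ### evaluation of the windows -/

section
variable {b : ℕ} {β r : ℝ}

theorem AA_eq_RR (hβ : 0 < β) (hr : 0 < r) (t : ℝ) : AA β r t = RR β r t - RR β r (t - 2 * Real.pi) := by
  have h1 := Rw_step hβ (((Real.log r : ℝ) : ℂ) + ((t + β / 2 : ℝ) : ℂ) * I)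
  have e1 : (((Real.log r : ℝ) : ℂ) + ((t + β / 2 : ℝ) : ℂ) * I).re = Real.log r := by
    rw [Complex.add_re, Complex.re_ofReal_mul]; simp
  have e2 : (((Real.log r : ℝ) : ℂ) + ((t + β / 2 : ℝ) : ℂ) * I).im = t + β / 2 := by
    rw [Complex.add_im, Complex.im_ofReal_mul]; simp
  have e3 : (((Real.log r : ℝ) : ℂ) + ((t + β / 2 : ℝ) : ℂ) * I - 2 * Real.pi * I) =
      ((Real.log r : ℝ) : ℂ) + ((t - 2 * Real.pi + β / 2 : ℝ) : ℂ) * I := by push_cast; ring
  have e4 : (((Real.log r : ℝ) : ℂ) + ((t - 2 * Real.pi + β / 2 : ℝ) : ℂ) * I).re = Real.log r := by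
    rw [Complex.add_re, Complex.re_ofReal_mul]; simp
  have e5 : (((Real.log r : ℝ) : ℂ) + ((t - 2 * Real.pi + β / 2 : ℝ) : ℂ) * I).im = t - 2 * Real.pi + β / 2 := by
    rw [Complex.add_im, Complex.im_ofReal_mul]; simp
  rw [e3, Rw_eq_RR, Rw_eq_RR, Aw, e1, e2, e4, e5, Real.exp_log hr] at h1
  have e6 : t + β / 2 - β / 2 = t := by ring
  have e7 : t - 2 * Real.pi + β / 2 - β / 2 = t - 2 * Real.pi := by ring
  rw [e6, e7] at h1
  rw [h1]
  ring

theorem AA_eq_CC (hβ : 0 < β) (hr : 0 < r) (t : ℝ) : AA β r t = CC β r t - CC β r (t + 2 * Real.pi) := by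
  have h1 := CC_step hβ hr t
  rw [h1]
  ring

theorem ew_per (β r t : ℝ) : ew β r (t - 2 * Real.pi) = ew β r t := by
  unfold ew
  congr 1
  have e1 : I * (((t - 2 * Real.pi : ℝ) : ℂ) + (β : ℂ) / 2) = I * ((t : ℂ) + (β : ℂ) / 2) - 2 * Real.pi * I := by
    push_cast; ring
  rw [e1, Complex.exp_sub, Complex.exp_two_pi_mul_I, div_one]

end

end Sok.R2
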