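import Pool.Agent.Lib.MP_816dec_an.R2WQ
import Pool.Agent.Lib.MP_816dec_an.R2Cls

/-!
MP_816dec_an (row R2, far windows): the numbers of the far windows, `b ≤ 3`; each condition by one kernel computation.
-/

set_option autoImplicit false

namespace Sok.R2

/-- far numbers of `c1_1` -/
def w1_1 : WCQ where
  R := {
    k1 := 47 / 10, k2 := 28 / 5, T0 := 12199 / 1000, R0 := 10, b1 := 1, S := 173 / 250,
    A := 632 / 625, J1 := 591 / 5000, sR := 1577 / 1250, E := 2063 / 5000, η1 := 471 / 2500, ξ := 367 / 1000,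
    x0 := 47 / 100, α := 401 / 2500, x1 := 47 / 100, α' := 2771 / 10000, s1 := 9559 / 10000, s2 := 8621 / 10000,
    X1 := 156 / 625, X2 := 18513 / 100000, zE := 4037 / 250000, oE := 2011 / 10000, lE := 313 / 5000, Q := 2157 / 10000000,
    UQ := 19839 / 100000000 }
  L := {
    k1 := 47 / 10, k2 := 28 / 5, T0 := 12199 / 1000, R0 := 10, b1 := 1, S := 63 / 100,
    A := 632 / 625, J1 := 591 / 5000, sR := 1577 / 1250, E := 19837 / 10000, η1 := 343 / 2000, ξ := 9881 / 5000,
    x0 := 9 / 100, α := 17217 / 10000, x1 := 9 / 100, α' := 859 / 250, s1 := 151 / 400, s2 := 743 / 2000,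
    X1 := 2983 / 20000000, X2 := 11363 / 100000000, zE := 243 / 100000000000, oE := 3333 / 100000000000, lE := 287 / 125000000000000000, Q := 1149 / 2500000,
    UQ := 42271 / 100000000 }
  Q := {
    k1 := 47 / 10, k2 := 28 / 5, T0 := 12199 / 1000, R0 := 10, b1 := 1, S := 173 / 250,
    A := 632 / 625, J1 := 591 / 5000, sR := 1577 / 1250, E := 2063 / 5000, η1 := 471 / 2500, ξ := 367 / 1000,
    x0 := 47 / 100, α := 401 / 2500, x1 := 47 / 100, α' := 2771 / 10000, s1 := 9559 / 10000, s2 := 8621 / 10000,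
    X1 := 156 / 625, X2 := 18513 / 100000, zE := 4037 / 250000, oE := 2011 / 10000, lE := 313 / 5000, Q := 2157 / 10000000,
    UQ := 19839 / 100000000 }
  h0 := 62831 / 10000
  v1 := 8851 / 10000
  vr := 8851 / 10000
  V0 := 137 / 200
  U := 503 / 500
  Uq := 1
  χ6 := 2659 / 5000
  χq := 2659 / 5000
  χr := 2659 / 5000
  P5 := 1
  θ := 0
  Tr := 8549 / 10000
  g6 := 6769 / 10000
  gq := 6769 / 10000
  gr := 3803 / 5000
  gm := 9851 / 10000
  e6 := 11489 / 10000000
  eq := 11489 / 10000000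
  er := 199 / 400000
  em := 527 / 10000000
  qm := 0
  um := 0

theorem okW1_1 : w1_1.wc.Ok c1_1.num :=
  wokB_ok (W := w1_1) (N := c1_1) (by decide +kernel) (fokB_ok (N := w1_1.R) (by decide +kernel))
    (fokB_ok (N := w1_1.L) (by decide +kernel)) (fokB_ok (N := w1_1.Q) (by decide +kernel))

theorem okM1_1 : w1_1.wc.OkM c1_1.num (49 / 20) (189 / 100) := by
  have h := wokMB_ok (W := w1_1) (N := c1_1) (D2 := 49 / 20) (Dm := 189 / 100) (by decide +kernel)
  push_cast at h
  exact h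

theorem okP1_1 : w1_1.wc.OkP c1_1.num := wokPB_ok (W := w1_1) (N := c1_1) (by decide +kernel)

theorem okT1_1 : w1_1.wc.OkT c1_1.num (1336849 / 1000000) (2901879 / 1250000) := by
  have h := wokTB_ok (W := w1_1) (N := c1_1) (H1 := 1336849 / 1000000) (X3 := 2901879 / 1250000) (by decide +kernel)
  push_cast at h
  exact h

/-- far numbers of `c1_2` -/
def w1_2 : WCQ where
  R := {
    k1 := 28 / 5, k2 := 69 / 10, T0 := 8121 / 1000, R0 := 10, b1 := 1, S := 199 / 250,
    A := 10079 / 10000, J1 := 717 / 5000, sR := 1577 / 1250, E := 4207 / 10000, η1 := 773 / 5000, ξ := 489 / 1250,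
    x0 := 19 / 50, α := 413 / 2000, x1 := 19 / 50, α' := 961 / 2500, s1 := 564 / 625, s2 := 167 / 200,
    X1 := 2117 / 10000, X2 := 4141 / 25000, zE := 14891 / 1000000, oE := 6341 / 50000, lE := 2141 / 100000, Q := 15581 / 10000000,
    UQ := 34941 / 20000000 }
  L := {
    k1 := 28 / 5, k2 := 69 / 10, T0 := 8121 / 1000, R0 := 10, b1 := 1, S := 67 / 100,
    A := 10079 / 10000, J1 := 717 / 5000, sR := 1577 / 1250, E := 727 / 400, η1 := 1301 / 10000, ξ := 1133 / 625,
    x0 := 7 / 100, α := 16177 / 10000, x1 := 7 / 100, α' := 32309 / 10000, s1 := 3931 / 10000, s2 := 3879 / 10000,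
    X1 := 37 / 125000, X2 := 301 / 1250000, zE := 12789 / 1000000000000, oE := 9429 / 100000000000, lE := 2821 / 200000000000000000, Q := 867 / 200000,
    UQ := 48607 / 10000000 }
  Q := {
    k1 := 28 / 5, k2 := 69 / 10, T0 := 8121 / 1000, R0 := 10, b1 := 1, S := 1393 / 2000,
    A := 10079 / 10000, J1 := 717 / 5000, sR := 1577 / 1250, E := 293 / 625, η1 := 1353 / 10000, ξ := 561 / 1250,
    x0 := 29 / 100, α := 2759 / 10000, x1 := 29 / 100, α' := 2661 / 5000, s1 := 4131 / 5000, s2 := 1949 / 2500,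
    X1 := 7877 / 50000, X2 := 1589 / 12500, zE := 4603 / 500000, oE := 198 / 3125, lE := 4883 / 1000000, Q := 437 / 125000,
    UQ := 97999 / 25000000 }
  h0 := 62831 / 10000
  v1 := 541 / 625
  vr := 3787 / 5000
  V0 := 239 / 400
  U := 1
  Uq := 1
  χ6 := 2691 / 5000
  χq := 2691 / 5000
  χr := 5743 / 10000
  P5 := 1
  θ := 0
  Tr := 61 / 100
  g6 := 4641 / 5000
  gq := 4641 / 5000
  gr := 5111 / 5000
  gm := 123 / 100
  e6 := 9309 / 100000000
  eq := 9309 / 100000000
  er := 3637 / 100000000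
  em := 569 / 125000000
  qm := 0
  um := 0

theorem okW1_2 : w1_2.wc.Ok c1_2.num :=
  wokB_ok (W := w1_2) (N := c1_2) (by decide +kernel) (fokB_ok (N := w1_2.R) (by decide +kernel))
    (fokB_ok (N := w1_2.L) (by decide +kernel)) (fokB_ok (N := w1_2.Q) (by decide +kernel))

theorem okM1_2 : w1_2.wc.OkM c1_2.num (53 / 25) (171 / 100) := by
  have h := wokMB_ok (W := w1_2) (N := c1_2) (D2 := 53 / 25) (Dm := 171 / 100) (by decide +kernel)
  push_cast at h
  exact h

theorem okP1_2 : w1_2.wc.OkP c1_2.num := wokPB_ok (W := w1_2) (N := c1_2) (by decide +kernel)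

theorem okT1_2 : w1_2.wc.OkT c1_2.num (560999 / 500000) (530171 / 250000) := by
  have h := wokTB_ok (W := w1_2) (N := c1_2) (H1 := 560999 / 500000) (X3 := 530171 / 250000) (by decide +kernel)
  push_cast at h
  exact h

/-- far numbers of `c1_3` -/
def w1_3 : WCQ where
  R := {
    k1 := 69 / 10, k2 := 77 / 10, T0 := 1637 / 250, R0 := 10, b1 := 1, S := 199 / 250,
    A := 10053 / 10000, J1 := 99 / 625, sR := 1577 / 1250, E := 1229 / 2500, η1 := 1029 / 10000, ξ := 4807 / 10000,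
    x0 := 21 / 100, α := 3407 / 10000, x1 := 21 / 100, α' := 6707 / 10000, s1 := 1961 / 2500, s2 := 7533 / 10000,
    X1 := 3231 / 25000, X2 := 5489 / 50000, zE := 7329 / 1000000, oE := 663 / 20000, lE := 191 / 156250, Q := 109 / 20000,
    UQ := 679179 / 100000000 }
  L := {
    k1 := 69 / 10, k2 := 77 / 10, T0 := 1637 / 250, R0 := 10, b1 := 1, S := 71 / 100,
    A := 10053 / 10000, J1 := 99 / 625, sR := 1577 / 1250, E := 17677 / 10000, η1 := 459 / 5000, ξ := 17653 / 10000,
    x0 := 1 / 20, α := 8129 / 5000, x1 := 1 / 20, α' := 32493 / 10000, s1 := 3969 / 10000, s2 := 3931 / 10000,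
    X1 := 693 / 2000000, X2 := 749 / 2500000, zE := 421 / 20000000000, oE := 1739 / 20000000000, lE := 11953 / 1000000000000000000, Q := 9571 / 1000000,
    UQ := 596369 / 50000000 }
  Q := {
    k1 := 69 / 10, k2 := 77 / 10, T0 := 1637 / 250, R0 := 10, b1 := 1, S := 1393 / 2000,
    A := 10053 / 10000, J1 := 99 / 625, sR := 1577 / 1250, E := 1343 / 2500, η1 := 901 / 10000, ξ := 1059 / 2000,
    x0 := 17 / 100, α := 252 / 625, x1 := 17 / 100, α' := 7989 / 10000, s1 := 741 / 1000, s2 := 7177 / 10000,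
    X1 := 253 / 2500, X2 := 8773 / 100000, zE := 929 / 200000, oE := 17739 / 1000000, lE := 53 / 156250, Q := 2091 / 200000,
    UQ := 651451 / 50000000 }
  h0 := 62831 / 10000
  v1 := 71 / 100
  vr := 1553 / 2500
  V0 := 5697 / 10000
  U := 1
  Uq := 1
  χ6 := 2953 / 5000
  χq := 2953 / 5000
  χr := 1243 / 2000
  P5 := 1
  θ := 0
  Tr := 4061 / 10000
  g6 := 2369 / 2000
  gq := 2369 / 2000
  gr := 12539 / 10000
  gm := 14339 / 10000
  e6 := 287 / 40000000
  eq := 287 / 40000000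
  er := 717 / 200000000
  em := 237 / 400000000
  qm := 0
  um := 0

theorem okW1_3 : w1_3.wc.Ok c1_3.num :=
  wokB_ok (W := w1_3) (N := c1_3) (by decide +kernel) (fokB_ok (N := w1_3.R) (by decide +kernel))
    (fokB_ok (N := w1_3.L) (by decide +kernel)) (fokB_ok (N := w1_3.Q) (by decide +kernel))

theorem okM1_3 : w1_3.wc.OkM c1_3.num (46 / 25) (3 / 2) := by
  have h := wokMB_ok (W := w1_3) (N := c1_3) (D2 := 46 / 25) (Dm := 3 / 2) (by decide +kernel)
  push_cast at h
  exact h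

theorem okP1_3 : w1_3.wc.OkP c1_3.num := wokPB_ok (W := w1_3) (N := c1_3) (by decide +kernel)

theorem okT1_3 : w1_3.wc.OkT c1_3.num (910607 / 1000000) (19089073 / 10000000) := by
  have h := wokTB_ok (W := w1_3) (N := c1_3) (H1 := 910607 / 1000000) (X3 := 19089073 / 10000000) (by decide +kernel)
  push_cast at h
  exact h

/-- far numbers of `c1_4` -/
def w1_4 : WCQ where
  R := {
    k1 := 77 / 10, k2 := 41 / 5, T0 := 1157 / 200, R0 := 10, b1 := 1, S := 199 / 250,
    A := 5021 / 5000, J1 := 21 / 125, sR := 1577 / 1250, E := 5279 / 10000, η1 := 83 / 1000, ξ := 5213 / 10000,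
    x0 := 4 / 25, α := 101 / 250, x1 := 4 / 25, α' := 1603 / 2000, s1 := 1863 / 2500, s2 := 3617 / 5000,
    X1 := 10391 / 100000, X2 := 911 / 10000, zE := 2549 / 500000, oE := 8799 / 500000, lE := 661 / 2000000, Q := 2501 / 250000,
    UQ := 1325049 / 100000000 }
  L := {
    k1 := 77 / 10, k2 := 41 / 5, T0 := 1157 / 200, R0 := 10, b1 := 1, S := 73 / 100,
    A := 5021 / 5000, J1 := 21 / 125, sR := 1577 / 1250, E := 17351 / 10000, η1 := 761 / 10000, ξ := 8667 / 5000,
    x0 := 1 / 25, α := 4043 / 2500, x1 := 1 / 25, α' := 32327 / 10000, s1 := 3999 / 10000, s2 := 3967 / 10000,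
    X1 := 1957 / 5000000, X2 := 3469 / 10000000, zE := 583 / 20000000000, oE := 2369 / 25000000000, lE := 6939 / 500000000000000000, Q := 7327 / 500000,
    UQ := 38819 / 2000000 }
  Q := {
    k1 := 77 / 10, k2 := 41 / 5, T0 := 1157 / 200, R0 := 10, b1 := 1, S := 1393 / 2000,
    A := 5021 / 5000, J1 := 21 / 125, sR := 1577 / 1250, E := 5717 / 10000, η1 := 363 / 5000, ξ := 567 / 1000,
    x0 := 13 / 100, α := 2311 / 5000, x1 := 13 / 100, α' := 9199 / 10000, s1 := 7103 / 10000, s2 := 867 / 1250,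
    X1 := 1657 / 20000, X2 := 923 / 12500, zE := 329 / 100000, oE := 4917 / 500000, lE := 2023 / 20000000, Q := 4447 / 250000,
    UQ := 1178027 / 50000000 }
  h0 := 62831 / 10000
  v1 := 1597 / 2500
  vr := 559 / 1000
  V0 := 5511 / 10000
  U := 1
  Uq := 1
  χ6 := 3077 / 5000
  χq := 3077 / 5000
  χr := 6437 / 10000
  P5 := 1
  θ := 0
  Tr := 131 / 400
  g6 := 12879 / 10000
  gq := 12879 / 10000
  gr := 13473 / 10000
  gm := 121 / 80
  e6 := 319 / 125000000
  eq := 319 / 125000000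
  er := 2817 / 2000000000
  em := 27 / 100000000
  qm := 0
  um := 0

theorem okW1_4 : w1_4.wc.Ok c1_4.num :=
  wokB_ok (W := w1_4) (N := c1_4) (by decide +kernel) (fokB_ok (N := w1_4.R) (by decide +kernel))
    (fokB_ok (N := w1_4.L) (by decide +kernel)) (fokB_ok (N := w1_4.Q) (by decide +kernel))

theorem okM1_4 : w1_4.wc.OkM c1_4.num (7 / 4) (71 / 50) := by
  have h := wokMB_ok (W := w1_4) (N := c1_4) (D2 := 7 / 4) (Dm := 71 / 50) (by decide +kernel)
  push_cast at h
  exact h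

theorem okP1_4 : w1_4.wc.OkP c1_4.num := wokPB_ok (W := w1_4) (N := c1_4) (by decide +kernel)

theorem okT1_4 : w1_4.wc.OkT c1_4.num (815999 / 1000000) (1814263 / 1000000) := by
  have h := wokTB_ok (W := w1_4) (N := c1_4) (H1 := 815999 / 1000000) (X3 := 1814263 / 1000000) (by decide +kernel)
  push_cast at h
  exact h

/-- far numbers of `c1_5` -/
def w1_5 : WCQ where
  R := {
    k1 := 41 / 5, k2 := 19 / 2, T0 := 5441 / 1000, R0 := 10, b1 := 1, S := 1791 / 2000,
    A := 10037 / 10000, J1 := 173 / 1000, sR := 1577 / 1250, E := 1017 / 2000, η1 := 33 / 400, ξ := 5017 / 10000,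
    x0 := 4 / 25, α := 241 / 625, x1 := 4 / 25, α' := 1529 / 2000, s1 := 1901 / 2500, s2 := 7373 / 10000,
    X1 := 5681 / 50000, X2 := 623 / 6250, zE := 6189 / 1000000, oE := 529 / 25000, lE := 957 / 2000000, Q := 1531 / 200000,
    UQ := 585137 / 50000000 }
  L := {
    k1 := 41 / 5, k2 := 19 / 2, T0 := 5441 / 1000, R0 := 10, b1 := 1, S := 37 / 50,
    A := 10037 / 10000, J1 := 173 / 1000, sR := 1577 / 1250, E := 649 / 400, η1 := 341 / 5000, ξ := 1621 / 1000,
    x0 := 1 / 25, α := 948 / 625, x1 := 1 / 25, α' := 30321 / 10000, s1 := 2067 / 5000, s2 := 2051 / 5000,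
    X1 := 3239 / 5000000, X2 := 2907 / 5000000, zE := 8987 / 100000000000, oE := 1293 / 5000000000, lE := 17 / 195312500000000, Q := 223 / 12500,
    UQ := 2727327 / 100000000 }
  Q := {
    k1 := 41 / 5, k2 := 19 / 2, T0 := 5441 / 1000, R0 := 10, b1 := 1, S := 1393 / 2000,
    A := 10037 / 10000, J1 := 173 / 1000, sR := 1577 / 1250, E := 591 / 1000, η1 := 321 / 5000, ξ := 47 / 80,
    x0 := 11 / 100, α := 617 / 1250, x1 := 11 / 100, α' := 9837 / 10000, s1 := 6953 / 10000, s2 := 3407 / 5000,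
    X1 := 93 / 1250, X2 := 42 / 625, zE := 2713 / 1000000, oE := 449 / 62500, lE := 167 / 3125000, Q := 2261 / 100000,
    UQ := 69131 / 2000000 }
  h0 := 62831 / 10000
  v1 := 3381 / 5000
  vr := 5259 / 10000
  V0 := 121 / 250
  U := 1
  Uq := 1
  χ6 := 6023 / 10000
  χq := 6023 / 10000
  χr := 1639 / 2500
  P5 := 1
  θ := 0
  Tr := 2893 / 10000
  g6 := 1313 / 1000
  gq := 1313 / 1000
  gr := 13937 / 10000
  gm := 15507 / 10000
  e6 := 2481 / 1250000000
  eq := 2481 / 1250000000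
  er := 8857 / 10000000000
  em := 737 / 4000000000
  qm := 0
  um := 0

theorem okW1_5 : w1_5.wc.Ok c1_5.num :=
  wokB_ok (W := w1_5) (N := c1_5) (by decide +kernel) (fokB_ok (N := w1_5.R) (by decide +kernel))
    (fokB_ok (N := w1_5.L) (by decide +kernel)) (fokB_ok (N := w1_5.Q) (by decide +kernel))

theorem okM1_5 : w1_5.wc.OkM c1_5.num (159 / 100) (69 / 50) := by
  have h := wokMB_ok (W := w1_5) (N := c1_5) (D2 := 159 / 100) (Dm := 69 / 50) (by decide +kernel)
  push_cast at h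
  exact h

theorem okP1_5 : w1_5.wc.OkP c1_5.num := wokPB_ok (W := w1_5) (N := c1_5) (by decide +kernel)

theorem okT1_5 : w1_5.wc.OkT c1_5.num (766243 / 1000000) (4407513 / 2500000) := by
  have h := wokTB_ok (W := w1_5) (N := c1_5) (H1 := 766243 / 1000000) (X3 := 4407513 / 2500000) (by decide +kernel)
  push_cast at h
  exact h

/-- far numbers of `c1_6` -/
def w1_6 : WCQ where
  R := {
    k1 := 19 / 2, k2 := 20, T0 := 5441 / 1000, R0 := 1257 / 100, b1 := 1, S := 1791 / 2000,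
    A := 2507 / 2500, J1 := 69 / 400, sR := 2829 / 2000, E := 2783 / 5000, η1 := 617 / 10000, ξ := 5531 / 10000,
    x0 := 11 / 100, α := 4631 / 10000, x1 := 11 / 100, α' := 9227 / 10000, s1 := 7169 / 10000, s2 := 7023 / 10000,
    X1 := 579 / 12500, X2 := 128 / 3125, zE := 143 / 156250, oE := 593 / 200000, lE := 4591 / 500000000, Q := 1531 / 200000,
    UQ := 1221413 / 50000000 }
  L := {
    k1 := 19 / 2, k2 := 20, T0 := 5441 / 1000, R0 := 1257 / 100, b1 := 1, S := 153 / 200,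
    A := 2507 / 2500, J1 := 69 / 400, sR := 2829 / 2000, E := 3177 / 2500, η1 := 527 / 10000, ξ := 12697 / 10000,
    x0 := 1 / 25, α := 11891 / 10000, x1 := 1 / 25, α' := 23771 / 10000, s1 := 467 / 1000, s2 := 927 / 2000,
    X1 := 1811 / 2500000, X2 := 3261 / 5000000, zE := 11551 / 100000000000, oE := 1613 / 5000000000, lE := 1641 / 12500000000000000, Q := 15571 / 1000000,
    UQ := 4968941 / 100000000 }
  Q := {
    k1 := 19 / 2, k2 := 20, T0 := 5441 / 1000, R0 := 1257 / 100, b1 := 1, S := 1393 / 2000,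
    A := 2507 / 2500, J1 := 69 / 400, sR := 2829 / 2000, E := 317 / 500, η1 := 6 / 125, ξ := 6321 / 10000,
    x0 := 2 / 25, α := 1401 / 2500, x1 := 2 / 25, α' := 1119 / 1000, s1 := 3331 / 5000, s2 := 6569 / 10000,
    X1 := 357 / 12500, X2 := 519 / 20000, zE := 3459 / 10000000, oE := 349 / 400000, lE := 3893 / 5000000000, Q := 2261 / 100000,
    UQ := 901899 / 12500000 }
  h0 := 62831 / 10000
  v1 := 2929 / 5000
  vr := 4557 / 10000
  V0 := 2397 / 10000
  U := 1
  Uq := 1
  χ6 := 6341 / 10000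
  χq := 6341 / 10000
  χr := 6811 / 10000
  P5 := 1
  θ := 0
  Tr := 541 / 2500
  g6 := 14177 / 10000
  gq := 14177 / 10000
  gr := 3713 / 2500
  gm := 4059 / 2500
  e6 := 18229 / 1000000000000
  eq := 18229 / 1000000000000
  er := 3903 / 500000000000
  em := 6863 / 5000000000000
  qm := 0
  um := 0

theorem okW1_6 : w1_6.wc.Ok c1_6.num :=
  wokB_ok (W := w1_6) (N := c1_6) (by decide +kernel) (fokB_ok (N := w1_6.R) (by decide +kernel))
    (fokB_ok (N := w1_6.L) (by decide +kernel)) (fokB_ok (N := w1_6.Q) (by decide +kernel))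

theorem okM1_6 : w1_6.wc.OkM c1_6.num (73 / 50) (5 / 4) := by
  have h := wokMB_ok (W := w1_6) (N := c1_6) (D2 := 73 / 50) (Dm := 5 / 4) (by decide +kernel)
  push_cast at h
  exact h

theorem okP1_6 : w1_6.wc.OkP c1_6.num := wokPB_ok (W := w1_6) (N := c1_6) (by decide +kernel)

theorem okT1_6 : w1_6.wc.OkT c1_6.num (165347 / 250000) (16585801 / 10000000) := by
  have h := wokTB_ok (W := w1_6) (N := c1_6) (H1 := 165347 / 250000) (X3 := 16585801 / 10000000) (by decide +kernel)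
  push_cast at h
  exact h

/-- far numbers of `c2_1` -/
def w2_1 : WCQ where
  R := {
    k1 := 3, k2 := 7 / 2, T0 := 931 / 125, R0 := 10, b1 := 2, S := 1547 / 2000,
    A := 10267 / 10000, J1 := 1583 / 10000, sR := 1577 / 1250, E := 4823 / 10000, η1 := 2431 / 10000, ξ := 833 / 2000,
    x0 := 53 / 100, α := 1631 / 10000, x1 := 53 / 100, α' := 527 / 2000, s1 := 4559 / 5000, s2 := 8093 / 10000,
    X1 := 2169 / 10000, X2 := 7373 / 50000, zE := 8043 / 1000000, oE := 9787 / 50000, lE := 1793 / 25000, Q := 991 / 100000000,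
    UQ := 239 / 20000000 }
  L := {
    k1 := 3, k2 := 7 / 2, T0 := 931 / 125, R0 := 10, b1 := 2, S := 17 / 25,
    A := 10267 / 10000, J1 := 1583 / 10000, sR := 1577 / 1250, E := 879 / 500, η1 := 2137 / 10000, ξ := 17449 / 10000,
    x0 := 3 / 25, α := 14353 / 10000, x1 := 3 / 25, α' := 1786 / 625, s1 := 809 / 2000, s2 := 1977 / 5000,
    X1 := 4617 / 10000000, X2 := 329 / 1000000, zE := 2319 / 100000000000, oE := 5843 / 10000000000, lE := 2247 / 5000000000000000, Q := 399 / 10000000,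
    UQ := 4809 / 100000000 }
  Q := {
    k1 := 3, k2 := 7 / 2, T0 := 931 / 125, R0 := 10, b1 := 2, S := 1381 / 2000,
    A := 10267 / 10000, J1 := 1583 / 10000, sR := 1577 / 1250, E := 326 / 625, η1 := 217 / 1000, ξ := 4743 / 10000,
    x0 := 43 / 100, α := 453 / 2000, x1 := 43 / 100, α' := 509 / 1250, s1 := 4153 / 5000, s2 := 7583 / 10000,
    X1 := 319 / 2000, X2 := 5653 / 50000, zE := 543 / 100000, oE := 649 / 6250, lE := 4261 / 250000, Q := 853 / 25000000,
    UQ := 257 / 6250000 }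
  h0 := 6283 / 2000
  v1 := 7291 / 10000
  vr := 1627 / 2500
  V0 := 2821 / 5000
  U := 219 / 200
  Uq := 1
  χ6 := 73 / 125
  χq := 73 / 125
  χr := 382 / 625
  P5 := 1
  θ := 0
  Tr := 987 / 2000
  g6 := 2181 / 2000
  gq := 2181 / 2000
  gr := 2333 / 2000
  gm := 2693 / 2000
  e6 := 18367 / 1000000000
  eq := 18367 / 1000000000
  er := 859 / 100000000
  em := 7099 / 5000000000
  qm := 0
  um := 0

theorem okW2_1 : w2_1.wc.Ok c2_1.num :=
  wokB_ok (W := w2_1) (N := c2_1) (by decide +kernel) (fokB_ok (N := w2_1.R) (by decide +kernel))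
    (fokB_ok (N := w2_1.L) (by decide +kernel)) (fokB_ok (N := w2_1.Q) (by decide +kernel))

theorem okV2_1 : w2_1.wc.Ok3 c2_1.num := wok3B_ok (W := w2_1) (N := c2_1) (by decide +kernel)

theorem okM2_1 : w2_1.wc.OkM c2_1.num (9 / 5) (33 / 20) := by
  have h := wokMB_ok (W := w2_1) (N := c2_1) (D2 := 9 / 5) (Dm := 33 / 20) (by decide +kernel)
  push_cast at h
  exact h

theorem okN2_1 : w2_1.wc.OkM3 c2_1.num (9 / 5) (33 / 20) (44 / 25) := by
  have h := wokM3B_ok (W := w2_1) (N := c2_1) (D2 := 9 / 5) (Dm := 33 / 20) (Sg := 44 / 25) (by decide +kernel)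
  push_cast at h
  exact h

theorem okP2_1 : w2_1.wc.OkP c2_1.num := wokPB_ok (W := w2_1) (N := c2_1) (by decide +kernel)

theorem okT2_1 : w2_1.wc.OkT c2_1.num (523599 / 500000) (20382563 / 10000000) := by
  have h := wokTB_ok (W := w2_1) (N := c2_1) (H1 := 523599 / 500000) (X3 := 20382563 / 10000000) (by decide +kernel)
  push_cast at h
  exact h

/-- far numbers of `c2_2` -/
def w2_2 : WCQ where
  R := {
    k1 := 7 / 2, k2 := 39 / 10, T0 := 761 / 125, R0 := 10, b1 := 2, S := 1783 / 2000,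
    A := 10199 / 10000, J1 := 429 / 2500, sR := 1577 / 1250, E := 4771 / 10000, η1 := 1057 / 5000, ξ := 4277 / 10000,
    x0 := 23 / 50, α := 963 / 5000, x1 := 23 / 50, α' := 3377 / 10000, s1 := 8817 / 10000, s2 := 3993 / 5000,
    X1 := 3917 / 20000, X2 := 7003 / 50000, zE := 1059 / 125000, oE := 14573 / 100000, lE := 683 / 20000, Q := 1931 / 100000000,
    UQ := 511 / 20000000 }
  L := {
    k1 := 7 / 2, k2 := 39 / 10, T0 := 761 / 125, R0 := 10, b1 := 2, S := 71 / 100,
    A := 10199 / 10000, J1 := 429 / 2500, sR := 1577 / 1250, E := 17101 / 10000, η1 := 421 / 2500, ξ := 17017 / 10000,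
    x0 := 1 / 10, α := 7269 / 5000, x1 := 1 / 10, α' := 14497 / 5000, s1 := 2039 / 5000, s2 := 1001 / 2500,
    X1 := 5241 / 10000000, X2 := 4013 / 10000000, zE := 3743 / 100000000000, oE := 607 / 1250000000, lE := 3023 / 10000000000000000, Q := 8801 / 50000000,
    UQ := 23289 / 100000000 }
  Q := {
    k1 := 7 / 2, k2 := 39 / 10, T0 := 761 / 125, R0 := 10, b1 := 2, S := 1393 / 2000,
    A := 10199 / 10000, J1 := 429 / 2500, sR := 1577 / 1250, E := 561 / 1000, η1 := 413 / 2500, ξ := 5361 / 10000,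
    x0 := 3 / 10, α := 163 / 500, x1 := 3 / 10, α' := 251 / 400, s1 := 757 / 1000, s2 := 7133 / 10000,
    X1 := 553 / 5000, X2 := 8511 / 100000, zE := 1831 / 500000, oE := 3839 / 100000, lE := 4707 / 2500000, Q := 83 / 400000,
    UQ := 13727 / 50000000 }
  h0 := 6283 / 2000
  v1 := 7399 / 10000
  vr := 289 / 500
  V0 := 2683 / 5000
  U := 1
  Uq := 1
  χ6 := 5803 / 10000
  χq := 5803 / 10000
  χr := 637 / 1000
  P5 := 1
  θ := 0
  Tr := 149 / 400
  g6 := 6039 / 5000
  gq := 6039 / 5000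
  gr := 6499 / 5000
  gm := 587 / 400
  e6 := 1421 / 250000000
  eq := 1421 / 250000000
  er := 453 / 200000000
  em := 2117 / 5000000000
  qm := 0
  um := 0

theorem okW2_2 : w2_2.wc.Ok c2_2.num :=
  wokB_ok (W := w2_2) (N := c2_2) (by decide +kernel) (fokB_ok (N := w2_2.R) (by decide +kernel))
    (fokB_ok (N := w2_2.L) (by decide +kernel)) (fokB_ok (N := w2_2.Q) (by decide +kernel))

theorem okV2_2 : w2_2.wc.Ok3 c2_2.num := wok3B_ok (W := w2_2) (N := c2_2) (by decide +kernel)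

theorem okM2_2 : w2_2.wc.OkM c2_2.num (77 / 50) (31 / 20) := by
  have h := wokMB_ok (W := w2_2) (N := c2_2) (D2 := 77 / 50) (Dm := 31 / 20) (by decide +kernel)
  push_cast at h
  exact h

theorem okN2_2 : w2_2.wc.OkM3 c2_2.num (77 / 50) (31 / 20) (42 / 25) := by
  have h := wokM3B_ok (W := w2_2) (N := c2_2) (D2 := 77 / 50) (Dm := 31 / 20) (Sg := 42 / 25) (by decide +kernel)
  push_cast at h
  exact h

theorem okP2_2 : w2_2.wc.OkP c2_2.num := wokPB_ok (W := w2_2) (N := c2_2) (by decide +kernel)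

theorem okT2_2 : w2_2.wc.OkT c2_2.num (448799 / 500000) (18913571 / 10000000) := by
  have h := wokTB_ok (W := w2_2) (N := c2_2) (H1 := 448799 / 500000) (X3 := 18913571 / 10000000) (by decide +kernel)
  push_cast at h
  exact h

/-- far numbers of `c2_3` -/
def w2_3 : WCQ where
  R := {
    k1 := 39 / 10, k2 := 21 / 5, T0 := 5441 / 1000, R0 := 10, b1 := 2, S := 199 / 200,
    A := 10161 / 10000, J1 := 359 / 2000, sR := 1577 / 1250, E := 4713 / 10000, η1 := 1929 / 10000, ξ := 43 / 100,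
    x0 := 21 / 50, α := 2083 / 10000, x1 := 21 / 50, α' := 1883 / 5000, s1 := 4353 / 5000, s2 := 1991 / 2500,
    X1 := 18819 / 100000, X2 := 13859 / 100000, zE := 4489 / 500000, oE := 1557 / 12500, lE := 463 / 20000, Q := 3969 / 200000000,
    UQ := 701 / 25000000 }
  L := {
    k1 := 39 / 10, k2 := 21 / 5, T0 := 5441 / 1000, R0 := 10, b1 := 2, S := 73 / 100,
    A := 10161 / 10000, J1 := 359 / 2000, sR := 1577 / 1250, E := 4191 / 2500, η1 := 283 / 2000, ξ := 1044 / 625,
    x0 := 2 / 25, α := 73 / 50, x1 := 2 / 25, α' := 14571 / 5000, s1 := 821 / 2000, s2 := 4041 / 10000,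
    X1 := 5799 / 10000000, X2 := 4633 / 10000000, zE := 5243 / 100000000000, oE := 1141 / 2500000000, lE := 657 / 2500000000000000, Q := 3549 / 10000000,
    UQ := 25069 / 50000000 }
  Q := {
    k1 := 39 / 10, k2 := 21 / 5, T0 := 5441 / 1000, R0 := 10, b1 := 2, S := 1393 / 2000,
    A := 10161 / 10000, J1 := 359 / 2000, sR := 1577 / 1250, E := 2953 / 5000, η1 := 27 / 200, ξ := 5749 / 10000,
    x0 := 23 / 100, α := 197 / 500, x1 := 23 / 100, α' := 309 / 400, s1 := 3601 / 5000, s2 := 861 / 1250,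
    X1 := 8821 / 100000, X2 := 7121 / 100000, zE := 681 / 250000, oE := 19449 / 1000000, lE := 4417 / 10000000, Q := 511 / 1000000,
    UQ := 72191 / 100000000 }
  h0 := 6283 / 2000
  v1 := 7521 / 10000
  vr := 1053 / 2000
  V0 := 5167 / 10000
  U := 1
  Uq := 1
  χ6 := 5761 / 10000
  χq := 5761 / 10000
  χr := 3277 / 5000
  P5 := 1
  θ := 0
  Tr := 609 / 2000
  g6 := 3179 / 2500
  gq := 3179 / 2500
  gr := 6899 / 5000
  gm := 3071 / 2000
  e6 := 3003 / 1000000000
  eq := 3003 / 1000000000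
  er := 10177 / 10000000000
  em := 429 / 2000000000
  qm := 0
  um := 0

theorem okW2_3 : w2_3.wc.Ok c2_3.num :=
  wokB_ok (W := w2_3) (N := c2_3) (by decide +kernel) (fokB_ok (N := w2_3.R) (by decide +kernel))
    (fokB_ok (N := w2_3.L) (by decide +kernel)) (fokB_ok (N := w2_3.Q) (by decide +kernel))

theorem okV2_3 : w2_3.wc.Ok3 c2_3.num := wok3B_ok (W := w2_3) (N := c2_3) (by decide +kernel)

theorem okM2_3 : w2_3.wc.OkM c2_3.num (33 / 25) (29 / 20) := by
  have h := wokMB_ok (W := w2_3) (N := c2_3) (D2 := 33 / 25) (Dm := 29 / 20) (by decide +kernel)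
  push_cast at h
  exact h

theorem okN2_3 : w2_3.wc.OkM3 c2_3.num (33 / 25) (29 / 20) (161 / 100) := by
  have h := wokM3B_ok (W := w2_3) (N := c2_3) (D2 := 33 / 25) (Dm := 29 / 20) (Sg := 161 / 100) (by decide +kernel)
  push_cast at h
  exact h

theorem okP2_3 : w2_3.wc.OkP c2_3.num := wokPB_ok (W := w2_3) (N := c2_3) (by decide +kernel)

theorem okT2_3 : w2_3.wc.OkT c2_3.num (805537 / 1000000) (18004597 / 10000000) := by
  have h := wokTB_ok (W := w2_3) (N := c2_3) (H1 := 805537 / 1000000) (X3 := 18004597 / 10000000) (by decide +kernel)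
  push_cast at h
  exact h

/-- far numbers of `c2_4` -/
def w2_4 : WCQ where
  R := {
    k1 := 21 / 5, k2 := 20, T0 := 5441 / 1000, R0 := 1027 / 100, b1 := 2, S := 199 / 200,
    A := 10139 / 10000, J1 := 1783 / 10000, sR := 6393 / 5000, E := 309 / 625, η1 := 1677 / 10000, ξ := 93 / 200,
    x0 := 7 / 20, α := 649 / 2500, x1 := 7 / 20, α' := 2453 / 5000, s1 := 8217 / 10000, s2 := 7659 / 10000,
    X1 := 3659 / 25000, X2 := 5569 / 50000, zE := 1559 / 250000, oE := 6953 / 100000, lE := 1621 / 250000, Q := 3969 / 200000000,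
    UQ := 6333 / 50000000 }
  L := {
    k1 := 21 / 5, k2 := 20, T0 := 5441 / 1000, R0 := 1027 / 100, b1 := 2, S := 149 / 200,
    A := 10139 / 10000, J1 := 1783 / 10000, sR := 6393 / 5000, E := 11237 / 10000, η1 := 157 / 1250, ξ := 5583 / 5000,
    x0 := 11 / 100, α := 4667 / 5000, x1 := 11 / 100, α' := 9299 / 5000, s1 := 5047 / 10000, s2 := 4943 / 10000,
    X1 := 6309 / 1000000, X2 := 2571 / 500000, zE := 973 / 100000000, oE := 6869 / 100000000, lE := 5073 / 1000000000000, Q := 1507 / 5000000,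
    UQ := 192363 / 100000000 }
  Q := {
    k1 := 21 / 5, k2 := 20, T0 := 5441 / 1000, R0 := 1027 / 100, b1 := 2, S := 1393 / 2000,
    A := 10139 / 10000, J1 := 1783 / 10000, sR := 6393 / 5000, E := 6107 / 10000, η1 := 587 / 5000, ξ := 5993 / 10000,
    x0 := 19 / 100, α := 547 / 1250, x1 := 19 / 100, α' := 4319 / 5000, s1 := 7 / 10, s2 := 3373 / 5000,
    X1 := 3577 / 50000, X2 := 5909 / 100000, zE := 18887 / 10000000, oE := 447 / 40000, lE := 7019 / 50000000, Q := 511 / 1000000,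
    UQ := 40767 / 12500000 }
  h0 := 6283 / 2000
  v1 := 1761 / 2500
  vr := 4931 / 10000
  V0 := 1167 / 10000
  U := 1
  Uq := 1
  χ6 := 2963 / 5000
  χq := 2963 / 5000
  χr := 267 / 400
  P5 := 1
  θ := 0
  Tr := 331 / 1250
  g6 := 6639 / 5000
  gq := 6639 / 5000
  gr := 7139 / 5000
  gm := 1969 / 1250
  e6 := 11961 / 10000000000
  eq := 11961 / 10000000000
  er := 4283 / 10000000000
  em := 4713 / 50000000000
  qm := 0
  um := 0

theorem okW2_4 : w2_4.wc.Ok c2_4.num :=
  wokB_ok (W := w2_4) (N := c2_4) (by decide +kernel) (fokB_ok (N := w2_4.R) (by decide +kernel))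
    (fokB_ok (N := w2_4.L) (by decide +kernel)) (fokB_ok (N := w2_4.Q) (by decide +kernel))

theorem okV2_4 : w2_4.wc.Ok3 c2_4.num := wok3B_ok (W := w2_4) (N := c2_4) (by decide +kernel)

theorem okM2_4 : w2_4.wc.OkM c2_4.num (83 / 50) (37 / 25) := by
  have h := wokMB_ok (W := w2_4) (N := c2_4) (D2 := 83 / 50) (Dm := 37 / 25) (by decide +kernel)
  push_cast at h
  exact h

theorem okN2_4 : w2_4.wc.OkM3 c2_4.num (83 / 50) (37 / 25) (159 / 100) := by
  have h := wokM3B_ok (W := w2_4) (N := c2_4) (D2 := 83 / 50) (Dm := 37 / 25) (Sg := 159 / 100) (by decide +kernel)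
  push_cast at h
  exact h

theorem okP2_4 : w2_4.wc.OkP c2_4.num := wokPB_ok (W := w2_4) (N := c2_4) (by decide +kernel)

theorem okT2_4 : w2_4.wc.OkT c2_4.num (747999 / 1000000) (1745881 / 1000000) := by
  have h := wokTB_ok (W := w2_4) (N := c2_4) (H1 := 747999 / 1000000) (X3 := 1745881 / 1000000) (by decide +kernel)
  push_cast at h
  exact h

/-- far numbers of `c3_1` -/
def w3_1 : WCQ where
  R := {
    k1 := 139 / 100, k2 := 8 / 5, T0 := 12321 / 1000, R0 := 10, b1 := 3, S := 1007 / 2000,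
    A := 111 / 100, J1 := 311 / 2000, sR := 1577 / 1250, E := 1213 / 2000, η1 := 3597 / 10000, ξ := 4883 / 10000,
    x0 := 63 / 100, α := 379 / 2500, x1 := 63 / 100, α' := 1931 / 10000, s1 := 1747 / 2000, s2 := 3737 / 5000,
    X1 := 3751 / 20000, X2 := 10601 / 100000, zE := 2323 / 1000000, oE := 549 / 2500, lE := 14501 / 100000, Q := 517 / 62500000000,
    UQ := 1 / 100000000 }
  L := {
    k1 := 139 / 100, k2 := 8 / 5, T0 := 12321 / 1000, R0 := 10, b1 := 3, S := 121 / 200,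
    A := 111 / 100, J1 := 311 / 2000, sR := 1577 / 1250, E := 2209 / 1250, η1 := 2161 / 5000, ξ := 3427 / 2000,
    x0 := 1 / 4, α := 5707 / 5000, x1 := 1 / 4, α' := 22297 / 10000, s1 := 4187 / 10000, s2 := 399 / 1000,
    X1 := 7543 / 10000000, X2 := 3801 / 10000000, zE := 423 / 20000000000, oE := 69 / 6250000, lE := 2089 / 10000000000000, Q := 1223 / 6250000000000,
    UQ := 1 / 100000000 }
  Q := {
    k1 := 139 / 100, k2 := 8 / 5, T0 := 12321 / 1000, R0 := 10, b1 := 3, S := 1007 / 2000,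
    A := 111 / 100, J1 := 311 / 2000, sR := 1577 / 1250, E := 1213 / 2000, η1 := 3597 / 10000, ξ := 4883 / 10000,
    x0 := 63 / 100, α := 379 / 2500, x1 := 63 / 100, α' := 1931 / 10000, s1 := 1747 / 2000, s2 := 3737 / 5000,
    X1 := 3751 / 20000, X2 := 10601 / 100000, zE := 2323 / 1000000, oE := 549 / 2500, lE := 14501 / 100000, Q := 517 / 62500000000,
    UQ := 1 / 100000000 }
  h0 := 20943 / 10000
  v1 := 1 / 2
  vr := 1 / 2
  V0 := 2847 / 5000
  U := 2767 / 1000
  Uq := 264 / 125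
  χ6 := -493 / 10000
  χq := 333 / 625
  χr := -493 / 10000
  P5 := 5
  θ := 0
  Tr := 7481 / 10000
  g6 := 1013 / 5000
  gq := 7847 / 10000
  gr := 857 / 2000
  gm := 10919 / 10000
  e6 := 13187 / 100000
  eq := 391 / 1000000
  er := 6887 / 500000
  em := 18111 / 1000000000
  qm := 1223 / 6250000000000
  um := 3927 / 62500000000

theorem okW3_1 : w3_1.wc.Ok c3_1.num :=
  wokB_ok (W := w3_1) (N := c3_1) (by decide +kernel) (fokB_ok (N := w3_1.R) (by decide +kernel))
    (fokB_ok (N := w3_1.L) (by decide +kernel)) (fokB_ok (N := w3_1.Q) (by decide +kernel))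

theorem okV3_1 : w3_1.wc.Ok3 c3_1.num := wok3B_ok (W := w3_1) (N := c3_1) (by decide +kernel)

theorem okM3_1 : w3_1.wc.OkM c3_1.num (283 / 100) (9 / 4) := by
  have h := wokMB_ok (W := w3_1) (N := c3_1) (D2 := 283 / 100) (Dm := 9 / 4) (by decide +kernel)
  push_cast at h
  exact h

theorem okN3_1 : w3_1.wc.OkM3 c3_1.num (283 / 100) (9 / 4) (227 / 100) := by
  have h := wokM3B_ok (W := w3_1) (N := c3_1) (D2 := 283 / 100) (Dm := 9 / 4) (Sg := 227 / 100) (by decide +kernel)
  push_cast at h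
  exact h

theorem okP3_1 : w3_1.wc.OkP c3_1.num := wokPB_ok (W := w3_1) (N := c3_1) (by decide +kernel)

theorem okR3_1 : w3_1.wc.OkR := wokRB_ok (W := w3_1) (by decide +kernel)

theorem okT3_1 : w3_1.wc.OkT c3_1.num (37669 / 25000) (24882753 / 10000000) := by
  have h := wokTB_ok (W := w3_1) (N := c3_1) (H1 := 37669 / 25000) (X3 := 24882753 / 10000000) (by decide +kernel)
  push_cast at h
  exact h

/-- far numbers of `c3_2` -/
def w3_2 : WCQ where
  R := {
    k1 := 8 / 5, k2 := 19 / 10, T0 := 1903 / 200, R0 := 10, b1 := 3, S := 551 / 1000,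
    A := 543 / 500, J1 := 1657 / 10000, sR := 1577 / 1250, E := 372 / 625, η1 := 1621 / 5000, ξ := 4991 / 10000,
    x0 := 29 / 50, α := 883 / 5000, x1 := 29 / 50, α' := 21 / 80, s1 := 8459 / 10000, s2 := 7393 / 10000,
    X1 := 1687 / 10000, X2 := 1261 / 12500, zE := 2601 / 1000000, oE := 8551 / 50000, lE := 1811 / 25000, Q := 923 / 6250000000,
    UQ := 9 / 50000000 }
  L := {
    k1 := 8 / 5, k2 := 19 / 10, T0 := 1903 / 200, R0 := 10, b1 := 3, S := 127 / 200,
    A := 543 / 500, J1 := 1657 / 10000, sR := 1577 / 1250, E := 17299 / 10000, η1 := 467 / 1250, ξ := 1689 / 1000,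
    x0 := 11 / 50, α := 2367 / 2000, x1 := 11 / 50, α' := 4653 / 2000, s1 := 4191 / 10000, s2 := 4019 / 10000,
    X1 := 7693 / 10000000, X2 := 2127 / 5000000, zE := 3071 / 100000000000, oE := 7247 / 1000000000, lE := 7983 / 100000000000000, Q := 1343 / 100000000000,
    UQ := 1 / 50000000 }
  Q := {
    k1 := 8 / 5, k2 := 19 / 10, T0 := 1903 / 200, R0 := 10, b1 := 3, S := 551 / 1000,
    A := 543 / 500, J1 := 1657 / 10000, sR := 1577 / 1250, E := 372 / 625, η1 := 1621 / 5000, ξ := 4991 / 10000,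
    x0 := 29 / 50, α := 883 / 5000, x1 := 29 / 50, α' := 21 / 80, s1 := 8459 / 10000, s2 := 7393 / 10000,
    X1 := 1687 / 10000, X2 := 1261 / 12500, zE := 2601 / 1000000, oE := 8551 / 50000, lE := 1811 / 25000, Q := 923 / 6250000000,
    UQ := 9 / 50000000 }
  h0 := 20943 / 10000
  v1 := 5187 / 10000
  vr := 5187 / 10000
  V0 := 5481 / 10000
  U := 2273 / 1000
  Uq := 171 / 100
  χ6 := 254 / 625
  χq := 3291 / 5000
  χr := 254 / 625
  P5 := 5
  θ := 0
  Tr := 6161 / 10000
  g6 := 7903 / 10000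
  gq := 10421 / 10000
  gr := 2353 / 2500
  gm := 12239 / 10000
  e6 := 3697 / 10000000
  eq := 2981 / 100000000
  er := 4087 / 50000000
  em := 4839 / 1000000000
  qm := 1343 / 100000000000
  um := 3927 / 31250000000

theorem okW3_2 : w3_2.wc.Ok c3_2.num :=
  wokB_ok (W := w3_2) (N := c3_2) (by decide +kernel) (fokB_ok (N := w3_2.R) (by decide +kernel))
    (fokB_ok (N := w3_2.L) (by decide +kernel)) (fokB_ok (N := w3_2.Q) (by decide +kernel))

theorem okV3_2 : w3_2.wc.Ok3 c3_2.num := wok3B_ok (W := w3_2) (N := c3_2) (by decide +kernel)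

theorem okM3_2 : w3_2.wc.OkM c3_2.num (229 / 100) (97 / 50) := by
  have h := wokMB_ok (W := w3_2) (N := c3_2) (D2 := 229 / 100) (Dm := 97 / 50) (by decide +kernel)
  push_cast at h
  exact h

theorem okN3_2 : w3_2.wc.OkM3 c3_2.num (229 / 100) (97 / 50) (199 / 100) := by
  have h := wokM3B_ok (W := w3_2) (N := c3_2) (D2 := 229 / 100) (Dm := 97 / 50) (Sg := 199 / 100) (by decide +kernel)
  push_cast at h
  exact h

theorem okP3_2 : w3_2.wc.OkP c3_2.num := wokPB_ok (W := w3_2) (N := c3_2) (by decide +kernel)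

theorem okR3_2 : w3_2.wc.OkR := wokRB_ok (W := w3_2) (by decide +kernel)

theorem okT3_2 : w3_2.wc.OkT c3_2.num (654499 / 500000) (22961039 / 10000000) := by
  have h := wokTB_ok (W := w3_2) (N := c3_2) (H1 := 654499 / 500000) (X3 := 22961039 / 10000000) (by decide +kernel)
  push_cast at h
  exact h

/-- far numbers of `c3_3` -/
def w3_3 : WCQ where
  R := {
    k1 := 19 / 10, k2 := 21 / 10, T0 := 2027 / 250, R0 := 10, b1 := 3, S := 169 / 250,
    A := 10631 / 10000, J1 := 421 / 2500, sR := 1577 / 1250, E := 2789 / 5000, η1 := 192 / 625, ξ := 931 / 2000,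
    x0 := 29 / 50, α := 811 / 5000, x1 := 29 / 50, α' := 1187 / 5000, s1 := 439 / 500, s2 := 1531 / 2000,
    X1 := 19163 / 100000, X2 := 11773 / 100000, zE := 3781 / 1000000, oE := 19751 / 100000, lE := 9311 / 100000, Q := 7227 / 100000000000,
    UQ := 9 / 100000000 }
  L := {
    k1 := 19 / 10, k2 := 21 / 10, T0 := 2027 / 250, R0 := 10, b1 := 3, S := 67 / 100,
    A := 10631 / 10000, J1 := 421 / 2500, sR := 1577 / 1250, E := 17239 / 10000, η1 := 761 / 2500, ξ := 2121 / 1250,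
    x0 := 9 / 50, α := 6363 / 5000, x1 := 9 / 50, α' := 1574 / 625, s1 := 4147 / 10000, s2 := 401 / 1000,
    X1 := 6651 / 10000000, X2 := 513 / 1250000, zE := 3261 / 100000000000, oE := 2973 / 1000000000, lE := 11997 / 1000000000000000, Q := 4181 / 50000000000,
    UQ := 11 / 100000000 }
  Q := {
    k1 := 19 / 10, k2 := 21 / 10, T0 := 2027 / 250, R0 := 10, b1 := 3, S := 307 / 500,
    A := 10631 / 10000, J1 := 421 / 2500, sR := 1577 / 1250, E := 1177 / 2000, η1 := 279 / 1000, ξ := 5181 / 10000,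
    x0 := 49 / 100, α := 2177 / 10000, x1 := 49 / 100, α' := 3679 / 10000, s1 := 8091 / 10000, s2 := 907 / 1250,
    X1 := 1439 / 10000, X2 := 1849 / 20000, zE := 2781 / 1000000, oE := 11339 / 100000, lE := 101 / 4000, Q := 653 / 2000000000,
    UQ := 41 / 100000000 }
  h0 := 20943 / 10000
  v1 := 1459 / 2500
  vr := 5301 / 10000
  V0 := 2723 / 5000
  U := 439 / 250
  Uq := 641 / 500
  χ6 := 6349 / 10000
  χq := 6349 / 10000
  χr := 6541 / 10000
  P5 := 5
  θ := 0
  Tr := 2379 / 5000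
  g6 := 11591 / 10000
  gq := 11591 / 10000
  gr := 6303 / 5000
  gm := 6821 / 5000
  e6 := 9249 / 1000000000
  eq := 9249 / 1000000000
  er := 419 / 125000000
  em := 2379 / 2000000000
  qm := 4181 / 50000000000
  um := 43197 / 62500000000

theorem okW3_3 : w3_3.wc.Ok c3_3.num :=
  wokB_ok (W := w3_3) (N := c3_3) (by decide +kernel) (fokB_ok (N := w3_3.R) (by decide +kernel))
    (fokB_ok (N := w3_3.L) (by decide +kernel)) (fokB_ok (N := w3_3.Q) (by decide +kernel))

theorem okV3_3 : w3_3.wc.Ok3 c3_3.num := wok3B_ok (W := w3_3) (N := c3_3) (by decide +kernel)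

theorem okM3_3 : w3_3.wc.OkM c3_3.num (167 / 100) (41 / 25) := by
  have h := wokMB_ok (W := w3_3) (N := c3_3) (D2 := 167 / 100) (Dm := 41 / 25) (by decide +kernel)
  push_cast at h
  exact h

theorem okN3_3 : w3_3.wc.OkM3 c3_3.num (167 / 100) (41 / 25) (44 / 25) := by
  have h := wokM3B_ok (W := w3_3) (N := c3_3) (D2 := 167 / 100) (Dm := 41 / 25) (Sg := 44 / 25) (by decide +kernel)
  push_cast at h
  exact h

theorem okP3_3 : w3_3.wc.OkP c3_3.num := wokPB_ok (W := w3_3) (N := c3_3) (by decide +kernel)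

theorem okR3_3 : w3_3.wc.OkR := wokRB_ok (W := w3_3) (by decide +kernel)

theorem okT3_3 : w3_3.wc.OkT c3_3.num (551157 / 500000) (4185799 / 2000000) := by
  have h := wokTB_ok (W := w3_3) (N := c3_3) (H1 := 551157 / 500000) (X3 := 4185799 / 2000000) (by decide +kernel)
  push_cast at h
  exact h

/-- far numbers of `c3_4` -/
def w3_4 : WCQ where
  R := {
    k1 := 21 / 10, k2 := 23 / 10, T0 := 6973 / 1000, R0 := 10, b1 := 3, S := 1569 / 2000,
    A := 421 / 400, J1 := 881 / 5000, sR := 1577 / 1250, E := 1321 / 2500, η1 := 1519 / 5000, ξ := 4323 / 10000,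
    x0 := 61 / 100, α := 353 / 2500, x1 := 61 / 100, α' := 481 / 2500, s1 := 4603 / 5000, s2 := 7943 / 10000,
    X1 := 2221 / 10000, X2 := 13713 / 100000, zE := 5073 / 1000000, oE := 2437 / 10000, lE := 14603 / 100000, Q := 3731 / 50000000000,
    UQ := 1 / 10000000 }
  L := {
    k1 := 21 / 10, k2 := 23 / 10, T0 := 6973 / 1000, R0 := 10, b1 := 3, S := 69 / 100,
    A := 421 / 400, J1 := 881 / 5000, sR := 1577 / 1250, E := 8481 / 5000, η1 := 167 / 625, ξ := 67 / 40,
    x0 := 4 / 25, α := 519 / 400, x1 := 4 / 25, α' := 1287 / 500, s1 := 2079 / 5000, s2 := 1009 / 2500,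
    X1 := 693 / 1000000, X2 := 567 / 1250000, zE := 4301 / 100000000000, oE := 1159 / 500000000, lE := 1739 / 250000000000000, Q := 1347 / 2500000000,
    UQ := 71 / 100000000 }
  Q := {
    k1 := 21 / 10, k2 := 23 / 10, T0 := 6973 / 1000, R0 := 10, b1 := 3, S := 13 / 20,
    A := 421 / 400, J1 := 881 / 5000, sR := 1577 / 1250, E := 2947 / 5000, η1 := 2517 / 10000, ξ := 5329 / 10000,
    x0 := 11 / 25, α := 1243 / 5000, x1 := 11 / 25, α' := 2213 / 5000, s1 := 7861 / 10000, s2 := 3577 / 5000,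
    X1 := 6437 / 50000, X2 := 8637 / 100000, zE := 689 / 250000, oE := 333 / 4000, lE := 11963 / 1000000, Q := 6219 / 5000000000,
    UQ := 163 / 100000000 }
  h0 := 20943 / 10000
  v1 := 3189 / 5000
  vr := 1057 / 2000
  V0 := 1321 / 2500
  U := 747 / 500
  Uq := 43 / 40
  χ6 := 6157 / 10000
  χq := 6157 / 10000
  χr := 3273 / 5000
  P5 := 5
  θ := 0
  Tr := 811 / 2000
  g6 := 6051 / 5000
  gq := 6051 / 5000
  gr := 6521 / 5000
  gm := 2869 / 2000
  e6 := 5549 / 1000000000
  eq := 5549 / 1000000000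
  er := 271 / 125000000
  em := 589 / 1000000000
  qm := 1347 / 2500000000
  um := 278817 / 62500000000

theorem okW3_4 : w3_4.wc.Ok c3_4.num :=
  wokB_ok (W := w3_4) (N := c3_4) (by decide +kernel) (fokB_ok (N := w3_4.R) (by decide +kernel))
    (fokB_ok (N := w3_4.L) (by decide +kernel)) (fokB_ok (N := w3_4.Q) (by decide +kernel))

theorem okV3_4 : w3_4.wc.Ok3 c3_4.num := wok3B_ok (W := w3_4) (N := c3_4) (by decide +kernel)

theorem okM3_4 : w3_4.wc.OkM c3_4.num (141 / 100) (157 / 100) := by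
  have h := wokMB_ok (W := w3_4) (N := c3_4) (D2 := 141 / 100) (Dm := 157 / 100) (by decide +kernel)
  push_cast at h
  exact h

theorem okN3_4 : w3_4.wc.OkM3 c3_4.num (141 / 100) (157 / 100) (171 / 100) := by
  have h := wokM3B_ok (W := w3_4) (N := c3_4) (D2 := 141 / 100) (Dm := 157 / 100) (Sg := 171 / 100) (by decide +kernel)
  push_cast at h
  exact h

theorem okP3_4 : w3_4.wc.OkP c3_4.num := wokPB_ok (W := w3_4) (N := c3_4) (by decide +kernel)

theorem okR3_4 : w3_4.wc.OkR := wokRB_ok (W := w3_4) (by decide +kernel)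

theorem okT3_4 : w3_4.wc.OkT c3_4.num (249333 / 250000) (19900487 / 10000000) := by
  have h := wokTB_ok (W := w3_4) (N := c3_4) (H1 := 249333 / 250000) (X3 := 19900487 / 10000000) (by decide +kernel)
  push_cast at h
  exact h

/-- far numbers of `c3_5` -/
def w3_5 : WCQ where
  R := {
    k1 := 23 / 10, k2 := 5 / 2, T0 := 121 / 20, R0 := 10, b1 := 3, S := 207 / 250,
    A := 10443 / 10000, J1 := 231 / 1250, sR := 1577 / 1250, E := 5303 / 10000, η1 := 1379 / 5000, ξ := 4529 / 10000,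
    x0 := 11 / 20, α := 341 / 2000, x1 := 11 / 20, α' := 669 / 2500, s1 := 1759 / 2000, s2 := 7761 / 10000,
    X1 := 19319 / 100000, X2 := 6237 / 50000, zE := 4977 / 1000000, oE := 9089 / 50000, lE := 1721 / 25000, Q := 1487 / 5000000000,
    UQ := 21 / 50000000 }
  L := {
    k1 := 23 / 10, k2 := 5 / 2, T0 := 121 / 20, R0 := 10, b1 := 3, S := 71 / 100,
    A := 10443 / 10000, J1 := 231 / 1250, sR := 1577 / 1250, E := 16697 / 10000, η1 := 473 / 2000, ξ := 1033 / 625,
    x0 := 7 / 50, α := 13149 / 10000, x1 := 7 / 50, α' := 26131 / 10000, s1 := 4173 / 10000, s2 := 4063 / 10000,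
    X1 := 731 / 1000000, X2 := 157 / 312500, zE := 2803 / 50000000000, oE := 779 / 400000000, lE := 4747 / 1000000000000000, Q := 2533 / 1000000000,
    UQ := 351 / 100000000 }
  Q := {
    k1 := 23 / 10, k2 := 5 / 2, T0 := 121 / 20, R0 := 10, b1 := 3, S := 1351 / 2000,
    A := 10443 / 10000, J1 := 231 / 1250, sR := 1577 / 1250, E := 149 / 250, η1 := 9 / 40, ξ := 2759 / 5000,
    x0 := 39 / 100, α := 571 / 2000, x1 := 39 / 100, α' := 5281 / 10000, s1 := 3809 / 5000, s2 := 7031 / 10000,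
    X1 := 11313 / 100000, X2 := 3959 / 50000, zE := 129 / 50000, oE := 1439 / 25000, lE := 159 / 31250, Q := 37 / 7812500,
    UQ := 41 / 6250000 }
  h0 := 20943 / 10000
  v1 := 3171 / 5000
  vr := 2587 / 5000
  V0 := 5127 / 10000
  U := 1277 / 1000
  Uq := 1
  χ6 := 617 / 1000
  χq := 617 / 1000
  χr := 3293 / 5000
  P5 := 5
  θ := 0
  Tr := 3487 / 10000
  g6 := 12683 / 10000
  gq := 12683 / 10000
  gr := 13489 / 10000
  gm := 14913 / 10000
  e6 := 97 / 31250000
  eq := 97 / 31250000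
  er := 6931 / 5000000000
  em := 1669 / 5000000000
  qm := 2533 / 1000000000
  um := 1378377 / 62500000000

theorem okW3_5 : w3_5.wc.Ok c3_5.num :=
  wokB_ok (W := w3_5) (N := c3_5) (by decide +kernel) (fokB_ok (N := w3_5.R) (by decide +kernel))
    (fokB_ok (N := w3_5.L) (by decide +kernel)) (fokB_ok (N := w3_5.Q) (by decide +kernel))

theorem okV3_5 : w3_5.wc.Ok3 c3_5.num := wok3B_ok (W := w3_5) (N := c3_5) (by decide +kernel)

theorem okM3_5 : w3_5.wc.OkM c3_5.num (69 / 50) (153 / 100) := by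
  have h := wokMB_ok (W := w3_5) (N := c3_5) (D2 := 69 / 50) (Dm := 153 / 100) (by decide +kernel)
  push_cast at h
  exact h

theorem okN3_5 : w3_5.wc.OkM3 c3_5.num (69 / 50) (153 / 100) (17 / 10) := by
  have h := wokM3B_ok (W := w3_5) (N := c3_5) (D2 := 69 / 50) (Dm := 153 / 100) (Sg := 17 / 10) (by decide +kernel)
  push_cast at h
  exact h

theorem okP3_5 : w3_5.wc.OkP c3_5.num := wokPB_ok (W := w3_5) (N := c3_5) (by decide +kernel)

theorem okR3_5 : w3_5.wc.OkR := wokRB_ok (W := w3_5) (by decide +kernel)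

theorem okT3_5 : w3_5.wc.OkT c3_5.num (910607 / 1000000) (19089073 / 10000000) := by
  have h := wokTB_ok (W := w3_5) (N := c3_5) (H1 := 910607 / 1000000) (X3 := 19089073 / 10000000) (by decide +kernel)
  push_cast at h
  exact h

/-- far numbers of `c3_6` -/
def w3_6 : WCQ where
  R := {
    k1 := 5 / 2, k2 := 133 / 50, T0 := 5441 / 1000, R0 := 10, b1 := 3, S := 1871 / 2000,
    A := 10379 / 10000, J1 := 1913 / 10000, sR := 1577 / 1250, E := 318 / 625, η1 := 2703 / 10000, ξ := 431 / 1000,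
    x0 := 14 / 25, α := 789 / 5000, x1 := 14 / 25, α' := 121 / 500, s1 := 4527 / 5000, s2 := 1591 / 2000,
    X1 := 1059 / 5000, X2 := 2759 / 20000, zE := 6171 / 1000000, oE := 129 / 625, lE := 8893 / 100000, Q := 467 / 2000000000,
    UQ := 17 / 50000000 }
  L := {
    k1 := 5 / 2, k2 := 133 / 50, T0 := 5441 / 1000, R0 := 10, b1 := 3, S := 29 / 40,
    A := 10379 / 10000, J1 := 1913 / 10000, sR := 1577 / 1250, E := 2061 / 1250, η1 := 419 / 2000, ξ := 8177 / 5000,
    x0 := 13 / 100, α := 1333 / 1000, x1 := 13 / 100, α' := 26527 / 10000, s1 := 4183 / 10000, s2 := 1021 / 2500,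
    X1 := 7587 / 10000000, X2 := 2721 / 5000000, zE := 6909 / 100000000000, oE := 16251 / 10000000000, lE := 807 / 250000000000000, Q := 7253 / 1000000000,
    UQ := 263 / 25000000 }
  Q := {
    k1 := 5 / 2, k2 := 133 / 50, T0 := 5441 / 1000, R0 := 10, b1 := 3, S := 1383 / 2000,
    A := 10379 / 10000, J1 := 1913 / 10000, sR := 1577 / 1250, E := 1517 / 2500, η1 := 999 / 5000, ξ := 5729 / 10000,
    x0 := 17 / 50, α := 3261 / 10000, x1 := 17 / 50, α' := 6191 / 10000, s1 := 923 / 1250, s2 := 69 / 100,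
    X1 := 4933 / 50000, X2 := 3593 / 50000, zE := 579 / 250000, oE := 959 / 25000, lE := 32 / 15625, Q := 12531 / 1000000000,
    UQ := 1817 / 100000000 }
  h0 := 20943 / 10000
  v1 := 6757 / 10000
  vr := 999 / 2000
  V0 := 5001 / 10000
  U := 219 / 200
  Uq := 1
  χ6 := 241 / 400
  χq := 241 / 400
  χr := 1663 / 2500
  P5 := 5
  θ := 0
  Tr := 1513 / 5000
  g6 := 12999 / 10000
  gq := 12999 / 10000
  gr := 557 / 400
  gm := 7687 / 5000
  e6 := 2263 / 1000000000
  eq := 2263 / 1000000000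
  er := 8963 / 10000000000
  em := 421 / 2000000000
  qm := 7253 / 1000000000
  um := 1032801 / 15625000000

theorem okW3_6 : w3_6.wc.Ok c3_6.num :=
  wokB_ok (W := w3_6) (N := c3_6) (by decide +kernel) (fokB_ok (N := w3_6.R) (by decide +kernel))
    (fokB_ok (N := w3_6.L) (by decide +kernel)) (fokB_ok (N := w3_6.Q) (by decide +kernel))

theorem okV3_6 : w3_6.wc.Ok3 c3_6.num := wok3B_ok (W := w3_6) (N := c3_6) (by decide +kernel)

theorem okM3_6 : w3_6.wc.OkM c3_6.num (33 / 25) (147 / 100) := by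
  have h := wokMB_ok (W := w3_6) (N := c3_6) (D2 := 33 / 25) (Dm := 147 / 100) (by decide +kernel)
  push_cast at h
  exact h

theorem okN3_6 : w3_6.wc.OkM3 c3_6.num (33 / 25) (147 / 100) (33 / 20) := by
  have h := wokM3B_ok (W := w3_6) (N := c3_6) (D2 := 33 / 25) (Dm := 147 / 100) (Sg := 33 / 20) (by decide +kernel)
  push_cast at h
  exact h

theorem okP3_6 : w3_6.wc.OkP c3_6.num := wokPB_ok (W := w3_6) (N := c3_6) (by decide +kernel)

theorem okR3_6 : w3_6.wc.OkR := wokRB_ok (W := w3_6) (by decide +kernel)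

theorem okT3_6 : w3_6.wc.OkT c3_6.num (837759 / 1000000) (2294509 / 1250000) := by
  have h := wokTB_ok (W := w3_6) (N := c3_6) (H1 := 837759 / 1000000) (X3 := 2294509 / 1250000) (by decide +kernel)
  push_cast at h
  exact h

/-- far numbers of `c3_7` -/
def w3_7 : WCQ where
  R := {
    k1 := 133 / 50, k2 := 20, T0 := 5441 / 1000, R0 := 1001 / 100, b1 := 3, S := 481 / 500,
    A := 10337 / 10000, J1 := 189 / 1000, sR := 12623 / 10000, E := 5149 / 10000, η1 := 499 / 2000, ξ := 563 / 1250,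
    x0 := 51 / 100, α := 1847 / 10000, x1 := 51 / 100, α' := 769 / 2500, s1 := 2177 / 2500, s2 := 3891 / 5000,
    X1 := 2339 / 12500, X2 := 12593 / 100000, zE := 361 / 62500, oE := 7871 / 50000, lE := 4601 / 100000, Q := 303 / 2000000000,
    UQ := 73 / 50000000 }
  L := {
    k1 := 133 / 50, k2 := 20, T0 := 5441 / 1000, R0 := 1001 / 100, b1 := 3, S := 147 / 200,
    A := 10337 / 10000, J1 := 189 / 1000, sR := 12623 / 10000, E := 10797 / 10000, η1 := 1907 / 10000, ξ := 10627 / 10000,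
    x0 := 9 / 50, α := 797 / 1000, x1 := 9 / 50, α' := 15771 / 10000, s1 := 131 / 250, s2 := 2533 / 5000,
    X1 := 10191 / 1000000, X2 := 7529 / 1000000, zE := 81 / 4000000, oE := 343 / 1000000, lE := 13929 / 100000000000, Q := 6161 / 1000000000,
    UQ := 5899 / 100000000 }
  Q := {
    k1 := 133 / 50, k2 := 20, T0 := 5441 / 1000, R0 := 1001 / 100, b1 := 3, S := 1393 / 2000,
    A := 10337 / 10000, J1 := 189 / 1000, sR := 12623 / 10000, E := 773 / 1250, η1 := 1807 / 10000, ξ := 2957 / 5000,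
    x0 := 3 / 10, α := 3611 / 10000, x1 := 3 / 10, α' := 6957 / 10000, s1 := 7203 / 10000, s2 := 6791 / 10000,
    X1 := 877 / 10000, X2 := 6583 / 100000, zE := 41 / 20000, oE := 2693 / 100000, lE := 4727 / 5000000, Q := 11549 / 1000000000,
    UQ := 11057 / 100000000 }
  h0 := 20943 / 10000
  v1 := 6637 / 10000
  vr := 961 / 2000
  V0 := 767 / 10000
  U := 1
  Uq := 1
  χ6 := 6067 / 10000
  χq := 6067 / 10000
  χr := 84 / 125
  P5 := 5
  θ := 0
  Tr := 679 / 2500
  g6 := 13351 / 10000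
  gq := 13351 / 10000
  gr := 7131 / 5000
  gm := 3921 / 2500
  e6 := 7851 / 5000000000
  eq := 7851 / 5000000000
  er := 6309 / 10000000000
  em := 3799 / 25000000000
  qm := 6161 / 1000000000
  um := 23165373 / 62500000000

theorem okW3_7 : w3_7.wc.Ok c3_7.num :=
  wokB_ok (W := w3_7) (N := c3_7) (by decide +kernel) (fokB_ok (N := w3_7.R) (by decide +kernel))
    (fokB_ok (N := w3_7.L) (by decide +kernel)) (fokB_ok (N := w3_7.Q) (by decide +kernel))

theorem okV3_7 : w3_7.wc.Ok3 c3_7.num := wok3B_ok (W := w3_7) (N := c3_7) (by decide +kernel)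

theorem okM3_7 : w3_7.wc.OkM c3_7.num (99 / 50) (43 / 25) := by
  have h := wokMB_ok (W := w3_7) (N := c3_7) (D2 := 99 / 50) (Dm := 43 / 25) (by decide +kernel)
  push_cast at h
  exact h

theorem okN3_7 : w3_7.wc.OkM3 c3_7.num (99 / 50) (43 / 25) (177 / 100) := by
  have h := wokM3B_ok (W := w3_7) (N := c3_7) (D2 := 99 / 50) (Dm := 43 / 25) (Sg := 177 / 100) (by decide +kernel)
  push_cast at h
  exact h

theorem okP3_7 : w3_7.wc.OkP c3_7.num := wokPB_ok (W := w3_7) (N := c3_7) (by decide +kernel)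

theorem okR3_7 : w3_7.wc.OkR := wokRB_ok (W := w3_7) (by decide +kernel)

theorem okT3_7 : w3_7.wc.OkT c3_7.num (787367 / 1000000) (4459361 / 2500000) := by
  have h := wokTB_ok (W := w3_7) (N := c3_7) (H1 := 787367 / 1000000) (X3 := 4459361 / 2500000) (by decide +kernel)
  push_cast at h
  exact h

end Sok.R2
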