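import Pool.Agent.Lib.MP_816dec_an.A2Kernel
import Pool.Agent.Lib.MP_816dec_an.A2real

/-!
MP_816dec_an: `|F|²` as a real series on a circle, and the ray lemma: `F(-ir; e^{iβ}) ≠ 0` for
`0 < β`, `β r ≤ 1.6`, `r ≥ 10`.
-/

set_option autoImplicit false

open Complex Set Filter Topology

namespace Sok

/-- `|F(re^{iθ}; e^{iβ})|² = Σ (2r cos(θ + (n-1)β/2))^n / n!` -/
theorem normSq_hasSum (r β θ : ℝ) :
    HasSum (fun n : ℕ => (2 * r * Real.cos (θ + ((n:ℝ) - 1) * (β / 2))) ^ n / (n.factorial : ℝ))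
      (Complex.normSq (F (Complex.exp (β * I)) (r * Complex.exp (θ * I)))) := by
  obtain ⟨ω, hωd⟩ : ∃ ω : ℂ, ω = Complex.exp (((β / 2 : ℝ) : ℂ) * I) := ⟨_, rfl⟩
  have hω : ‖ω‖ = 1 := by rw [hωd]; exact Complex.norm_exp_ofReal_mul_I _
  have hω2 : ω ^ 2 = Complex.exp (β * I) := by
    rw [hωd, ← Complex.exp_nat_mul]
    congr 1
    push_cast; ring
  obtain ⟨z, hz⟩ : ∃ z : ℂ, z = r * Complex.exp (θ * I) := ⟨_, rfl⟩
  rw [← hz, ← hω2]
  have h := kernel_hasSum hω z z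
  rw [Complex.mul_conj] at h
  rw [← Complex.hasSum_ofReal]
  convert h using 1
  funext n
  have hw : ω ^ ((n : ℤ) - 1) * z = ((r : ℝ) : ℂ) * Complex.exp (((θ + ((n:ℝ) - 1) * (β / 2) : ℝ) : ℂ) * I) := by
    rw [hωd, hz, ← Complex.exp_int_mul]
    have e3 : ((θ + ((n:ℝ) - 1) * (β / 2) : ℝ) : ℂ) * I = (((n : ℤ) - 1 : ℤ) : ℂ) * (((β / 2 : ℝ) : ℂ) * I) + θ * I := by
      push_cast; ring
    rw [e3, Complex.exp_add]
    ring
  rw [conj_zpow hω, Complex.add_conj, hw, Complex.re_ofReal_mul, Complex.exp_ofReal_mul_I_re]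
  push_cast
  ring

/-- |sin y| ≤ 0.2176 y for y ≥ π -/
theorem abs_sin_le_lin2 {y : ℝ} (hy : Real.pi ≤ y) : |Real.sin y| ≤ 0.2176 * y := by
  have hpi := Real.pi_gt_d4
  have hpi2 := Real.pi_lt_d4
  rcases le_or_gt 4.6 y with h | h
  · refine (Real.abs_sin_le_one y).trans ?_
    linarith
  · have h1 : |Real.sin y| = Real.cos (3 * Real.pi / 2 - y) := by
      have e1 : Real.sin y = -Real.cos (3 * Real.pi / 2 - y) := by
        have : 3 * Real.pi / 2 - y = Real.pi + (Real.pi / 2 - y) := by ring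
        rw [this, add_comm, Real.cos_add_pi, Real.cos_pi_div_two_sub, neg_neg]
      have e2 : 0 ≤ Real.cos (3 * Real.pi / 2 - y) := by
        apply Real.cos_nonneg_of_neg_pi_div_two_le_of_le <;> linarith
      rw [e1, abs_neg, abs_of_nonneg e2]
    have h2 := cos_le_quartic (x := 3 * Real.pi / 2 - y) (by linarith)
    rw [h1]
    obtain ⟨x, hx⟩ : ∃ x, x = 3 * Real.pi / 2 - y := ⟨_, rfl⟩
    rw [← hx] at h2 ⊢
    have hx1 : x ≤ 1.5708 := by linarith
    have hx0 : 0.11 ≤ x := by linarith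
    have hxu : y = 3 * Real.pi / 2 - x := by rw [hx]; ring
    rw [hxu]
    have h3 : x ^ 4 ≤ 2.4675 * x ^ 2 := by
      have : x ^ 2 ≤ 2.4675 := by nlinarith
      nlinarith [sq_nonneg x]
    have h5 : (x ^ 2 - 0.04) ^ 2 = x ^ 4 - 0.08 * x ^ 2 + 0.0016 := by ring
    rcases le_or_gt x 0.5 with h6 | h6
    · have h7 : x ^ 4 ≤ 0.25 * x ^ 2 := by
        have : x ^ 2 ≤ 0.25 := by nlinarith
        nlinarith [sq_nonneg x]
      nlinarith [sq_nonneg (x - 0.22)]
    · nlinarith [sq_nonneg (x - 0.5)]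


/-- terms of the series on the ray θ = -π/2 -/
noncomputable def tR (r β : ℝ) (n : ℕ) : ℝ :=
  (2 * r * Real.sin (((n:ℝ) - 1) * (β / 2))) ^ n / (n.factorial : ℝ)

theorem tR_lower {r β : ℝ} (hr : 10 ≤ r) (hβ : 0 < β) (hκ : β * r ≤ 1.6) (n : ℕ) (hneg : tR r β n < 0) :
    41 ≤ n ∧ -((β * r) ^ 2 / 2.56 * 0.9465 ^ n) ≤ tR r β n := by
  have hr0 : 0 < r := by linarith
  have hpi := Real.pi_gt_d4
  have hfac : (0:ℝ) < (n.factorial : ℝ) := by positivity
  have hβ1 : β ≤ 0.16 := by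
    have : β * 10 ≤ β * r := by gcongr
    linarith
  have hκ0 : 0 < β * r := by positivity
  have hn0 : n ≠ 0 := by
    rintro rfl
    unfold tR at hneg
    norm_num at hneg
  have hn1 : (1:ℝ) ≤ n := by exact_mod_cast Nat.one_le_iff_ne_zero.2 hn0
  obtain ⟨y, hy⟩ : ∃ y, y = ((n:ℝ) - 1) * (β / 2) := ⟨_, rfl⟩
  have hy0 : 0 ≤ y := by rw [hy]; apply mul_nonneg <;> linarith
  have hs : Real.sin y < 0 := by
    by_contra h
    push Not at h
    have : 0 ≤ tR r β n := by unfold tR; rw [← hy]; positivity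
    linarith
  have hypi : Real.pi < y := by
    by_contra h
    push Not at h
    have := Real.sin_nonneg_of_nonneg_of_le_pi hy0 h
    linarith
  have hn41 : 41 ≤ n := by
    by_contra h
    push Not at h
    have h1 : (n:ℝ) ≤ 40 := by exact_mod_cast Nat.lt_succ_iff.1 h
    have h2 : ((n:ℝ) - 1) * (β / 2) ≤ 39 * (0.16 / 2) := by
      apply mul_le_mul <;> linarith
    rw [← hy] at h2
    linarith
  refine ⟨hn41, ?_⟩
  have hbase : Real.exp 1 * |2 * r * Real.sin y| / (n:ℝ) ≤ 0.9465 * (β * r / 1.6) := by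
    rw [div_le_iff₀ (by linarith), abs_mul, abs_of_pos (by positivity : (0:ℝ) < 2 * r)]
    have h4 := abs_sin_le_lin2 hypi.le
    have h5 : Real.exp 1 * 0.2176 ≤ 0.9465 / 1.6 := by
      have := Real.exp_one_lt_d9
      norm_num at this ⊢
      linarith
    calc Real.exp 1 * (2 * r * |Real.sin y|) ≤ Real.exp 1 * (2 * r * (0.2176 * y)) := by gcongr
      _ = (Real.exp 1 * 0.2176) * (2 * r * y) := by ring
      _ ≤ (0.9465 / 1.6) * (2 * r * y) := by gcongr
      _ = (0.9465 / 1.6) * ((β * r) * ((n:ℝ) - 1)) := by rw [hy]; ring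
      _ ≤ (0.9465 / 1.6) * ((β * r) * n) := by gcongr; linarith
      _ = _ := by ring
  have habs : |tR r β n| ≤ (β * r) ^ 2 / 2.56 * 0.9465 ^ n := by
    have e1 : |tR r β n| = |2 * r * Real.sin y| ^ n / (n.factorial : ℝ) := by
      unfold tR
      rw [abs_div, abs_pow, abs_of_pos hfac, ← hy]
    rw [e1]
    refine (pow_div_factorial_le (abs_nonneg _) hn0).trans ?_
    refine (pow_le_pow_left₀ (by positivity) hbase _).trans ?_
    rw [mul_pow, mul_comm]
    refine mul_le_mul_of_nonneg_right ?_ (by positivity)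
    have h6 : β * r / 1.6 ≤ 1 := by rw [div_le_one (by norm_num)]; exact hκ
    calc (β * r / 1.6) ^ n ≤ (β * r / 1.6) ^ 2 := pow_le_pow_of_le_one (by positivity) h6 (by omega)
      _ = (β * r) ^ 2 / 2.56 := by ring
  have := neg_abs_le (tR r β n)
  linarith

/-- on the ray `θ = -π/2`, `|F|² ≥ 3/10` -/
theorem normSq_ray_ge {r β : ℝ} (hr : 10 ≤ r) (hβ : 0 < β) (hκ : β * r ≤ 1.6) :
    0.3 ≤ Complex.normSq (F (Complex.exp (β * I)) (-(r * I))) := by
  have hr0 : 0 < r := by linarith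
  have hκ0 : 0 < β * r := by positivity
  have hβ1 : β ≤ 0.16 := by
    have : β * 10 ≤ β * r := by gcongr
    linarith
  have hz : (r : ℂ) * Complex.exp (((-(Real.pi / 2) : ℝ) : ℂ) * I) = -(r * I) := by
    have e1 : (((-(Real.pi / 2) : ℝ) : ℂ) * I) = -(Real.pi / 2 * I) := by push_cast; ring
    rw [e1, Complex.exp_neg, Complex.exp_pi_div_two_mul_I, Complex.inv_I]
    ring
  have h := normSq_hasSum r β (-(Real.pi / 2))
  rw [hz] at h
  have e2 : (fun n : ℕ => (2 * r * Real.cos (-(Real.pi / 2) + ((n:ℝ) - 1) * (β / 2))) ^ n / (n.factorial : ℝ)) = tR r β := by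
    funext n
    unfold tR
    rw [show -(Real.pi / 2) + ((n:ℝ) - 1) * (β / 2) = ((n:ℝ) - 1) * (β / 2) - Real.pi / 2 by ring,
      Real.cos_sub_pi_div_two]
  rw [e2] at h
  have hsum := h.summable
  rw [← h.tsum_eq, ← hsum.sum_add_tsum_nat_add 41]
  have hnn : ∀ j, j < 41 → 0 ≤ tR r β j := by
    intro j hj
    by_contra hc
    push Not at hc
    have := (tR_lower hr hβ hκ j hc).1
    omega
  have hlow : ∀ j, -((β * r) ^ 2 / 2.56 * 0.9465 ^ j) ≤ tR r β j := by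
    intro j
    by_cases hc : tR r β j < 0
    · exact (tR_lower hr hβ hκ j hc).2
    · push Not at hc
      refine le_trans ?_ hc
      rw [neg_nonpos]; positivity
  have hfin : tR r β 0 + tR r β 2 ≤ ∑ i ∈ Finset.range 41, tR r β i := by
    have h1 : ∑ i ∈ ({0, 2} : Finset ℕ), tR r β i ≤ ∑ i ∈ Finset.range 41, tR r β i := by
      refine Finset.sum_le_sum_of_subset_of_nonneg ?_ (fun i hi _ => hnn i (Finset.mem_range.1 hi))
      intro i hi
      simp only [Finset.mem_insert, Finset.mem_singleton] at hi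
      rw [Finset.mem_range]; omega
    rw [Finset.sum_pair (by norm_num)] at h1
    exact h1
  have ht0 : tR r β 0 = 1 := by unfold tR; simp
  have ht2 : 0.498 * (β * r) ^ 2 ≤ tR r β 2 := by
    unfold tR
    have h3 := (Real.sin_gt_sub_cube (by positivity : 0 < β / 2)).le
    have h4 : (β / 2) ^ 3 / 6 ≤ 0.001 * β := by
      have h5 : β ^ 2 ≤ 0.0256 := by nlinarith
      have e : (β / 2) ^ 3 / 6 = β ^ 2 * β / 48 := by ring
      rw [e]
      nlinarith
    have h6 : 0.499 * β ≤ Real.sin (β / 2) := by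
      have : 0.499 * β ≤ β / 2 - (β / 2) ^ 3 / 6 := by linarith
      exact this.trans h3
    have e3 : (((2:ℕ):ℝ) - 1) * (β / 2) = β / 2 := by push_cast; ring
    rw [e3]
    have h7 : 2 * r * (0.499 * β) ≤ 2 * r * Real.sin (β / 2) := by gcongr
    have h8 := pow_le_pow_left₀ (by positivity) h7 2
    have e4 : (2 * r * (0.499 * β)) ^ 2 = 0.996004 * (β * r) ^ 2 := by ring
    rw [e4] at h8
    have e5 : ((2:ℕ).factorial : ℝ) = 2 := by norm_num [Nat.factorial]
    rw [e5, le_div_iff₀ (by norm_num)]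
    nlinarith [sq_nonneg (β * r)]
  have e6 : (fun j : ℕ => -((β * r) ^ 2 / 2.56 * (0.9465:ℝ) ^ (j + 41))) =
      fun j : ℕ => (-((β * r) ^ 2 / 2.56 * (0.9465:ℝ) ^ 41)) * (0.9465:ℝ) ^ j := by
    funext j; rw [pow_add]; ring
  have hs2 : Summable (fun j : ℕ => -((β * r) ^ 2 / 2.56 * (0.9465:ℝ) ^ (j + 41))) := by
    rw [e6]
    exact (summable_geometric_of_lt_one (by norm_num) (by norm_num)).mul_left _
  have htail : ∑' j : ℕ, (-((β * r) ^ 2 / 2.56 * (0.9465:ℝ) ^ (j + 41))) ≤ ∑' j : ℕ, tR r β (j + 41) :=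
    hs2.tsum_le_tsum (fun j => hlow (j + 41)) ((summable_nat_add_iff 41).2 hsum)
  have hval : ∑' j : ℕ, (-((β * r) ^ 2 / 2.56 * (0.9465:ℝ) ^ (j + 41))) =
      -((β * r) ^ 2 * ((0.9465:ℝ) ^ 41 / (1 - 0.9465) / 2.56)) := by
    rw [e6, tsum_mul_left, tsum_geometric_of_lt_one (by norm_num) (by norm_num)]
    ring
  rw [hval] at htail
  have hnum : (0.9465:ℝ) ^ 41 / (1 - 0.9465) / 2.56 ≤ 0.77 := by norm_num
  have h9 : (β * r) ^ 2 * ((0.9465:ℝ) ^ 41 / (1 - 0.9465) / 2.56) ≤ (β * r) ^ 2 * 0.77 := by gcongr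
  have h10 : (β * r) ^ 2 ≤ 2.56 := by nlinarith
  rw [ht0] at hfin
  linarith

/-- ray lemma -/
theorem F_ray_ne_zero {r β : ℝ} (hr : 10 ≤ r) (hβ : 0 < β) (hκ : β * r ≤ 1.6) :
    F (Complex.exp (β * I)) (-(r * I)) ≠ 0 := by
  intro h
  have := normSq_ray_ge hr hβ hκ
  rw [h, map_zero] at this
  norm_num at this

end Sok
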