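import Pool.Agent.Lib.MP_816dec_an.Legs
import Pool.Agent.Lib.MP_816dec_an.SadSeg

/-!
MP_816dec_an, b = 1: the integrand `KK β r θ` near a saddle `y0 = θ + L`, `L = β r e^{i(θ+L)}`.
-/

set_option autoImplicit false

open Complex Set Filter Topology MeasureTheory

namespace Sok.W

/-- `θ + L` is a saddle of `KK β r θ` -/
def Sad (β r θ : ℝ) (L : ℂ) : Prop := L = β * (r * cexp (I * (θ + L)))

theorem KK_saddle {β r θ : ℝ} (hβ : β ≠ 0) {L : ℂ} (h : Sad β r θ L) (u : ℂ) :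
    KK β r θ (θ + L + u) = cexp ((L - I * L ^ 2 / 2) / β) * cexp (Psi L u / β) := by
  have hβ' : (β : ℂ) ≠ 0 := by exact_mod_cast hβ
  have h2 : r * cexp (I * (θ + L)) = L / β := by
    rw [eq_div_iff hβ', mul_comm]; exact h.symm
  have h3 : r * cexp (I * (θ + L + u)) = L / β * cexp (I * u) := by
    rw [mul_add I (θ + L : ℂ) u, Complex.exp_add, ← mul_assoc, h2]
  unfold KK
  rw [h3, ← Complex.exp_add]
  congr 1
  unfold Psi
  have e : (θ : ℂ) + L + u - θ = L + u := by ring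
  rw [e]
  field_simp
  ring

/-- real part of the exponent -/
noncomputable def gre (R h X Y : ℝ) : ℝ :=
  X * Y + Real.exp (-Y) * (R * Real.cos X - h * Real.sin X) - R + R * Y + h * X

theorem re_Psi (R h X Y : ℝ) : (Psi (R + h * I) (X + Y * I)).re = gre R h X Y := by
  have e1 : cexp (I * ((X : ℂ) + Y * I)) = (Real.exp (-Y) : ℝ) * (Real.cos X + Real.sin X * I) := by
    have : I * ((X : ℂ) + Y * I) = ((-Y : ℝ) : ℂ) + (X : ℂ) * I := by
      push_cast
      linear_combination (Y : ℂ) * Complex.I_sq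
    rw [this, Complex.exp_add, Complex.exp_mul_I, ← Complex.ofReal_exp, ← Complex.ofReal_cos, ← Complex.ofReal_sin]
  rw [Psi, e1, gre]
  generalize Real.exp (-Y) = E
  generalize Real.cos X = C
  generalize Real.sin X = S
  simp [pow_two]
  ring

theorem re_Psi_div (β R h X Y : ℝ) : (Psi (R + h * I) (X + Y * I) / β).re = gre R h X Y / β := by
  rw [Complex.div_ofReal_re, re_Psi]

theorem norm_E (β R h : ℝ) :
    ‖cexp (((R + h * I : ℂ) - I * (R + h * I : ℂ) ^ 2 / 2) / β)‖ = Real.exp (R * (1 + h) / β) := by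
  rw [Complex.norm_exp, Complex.div_ofReal_re]
  congr 2
  simp [pow_two]
  ring

/-- the integrands relative to the saddle -/
noncomputable def KU (β r θ : ℝ) (L : ℂ) (p : ℕ) (y : ℂ) : ℂ := (y - (θ + L)) ^ p * KK β r θ y

theorem differentiable_KU (β r θ : ℝ) (L : ℂ) (p : ℕ) : Differentiable ℂ (KU β r θ L p) := by
  unfold KU KK; fun_prop

theorem bd_KU (β r θ : ℝ) (L : ℂ) {p : ℕ} (hp : p ≤ 1) : BdKK β r θ (KU β r θ L p) (|θ| + ‖L‖ + 1) := by
  intro X Y
  unfold KU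
  rw [norm_mul, norm_pow]
  refine mul_le_mul_of_nonneg_right ?_ (norm_nonneg _)
  have h1 : ‖(X : ℂ) + Y * I - (θ + L)‖ ≤ |X| + |Y| + (|θ| + ‖L‖) := by
    refine (norm_sub_le _ _).trans ?_
    refine add_le_add ((norm_add_le _ _).trans ?_) ((norm_add_le _ _).trans ?_)
    · rw [norm_mul, Complex.norm_I, mul_one, Complex.norm_real, Complex.norm_real, Real.norm_eq_abs, Real.norm_eq_abs]
    · rw [Complex.norm_real, Real.norm_eq_abs]
  have h2 : 0 ≤ |X| + |Y| + (|θ| + ‖L‖) := (norm_nonneg _).trans h1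
  interval_cases p
  · rw [pow_zero]; linarith
  · rw [pow_one]; linarith

theorem exists_pack_KU {β r : ℝ} (hβ : 0 < β) (hr : 0 < r) (θ : ℝ) (L : ℂ) {p : ℕ} (hp : p ≤ 1) :
    ∃ (P : ℂ → ℂ) (lL V lR : ℂ), Pack (KU β r θ L p) P lL V lR := by
  obtain ⟨P, hP⟩ := exists_prim (differentiable_KU β r θ L p)
  obtain ⟨lL, V, lR, h, _⟩ := exists_pack hβ hr (θ := θ) (by positivity : 0 ≤ |θ| + ‖L‖ + 1)
    (differentiable_KU β r θ L p) (bd_KU β r θ L hp) hP
  exact ⟨P, lL, V, lR, h⟩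

theorem norm_KU {β r θ : ℝ} (hβ : β ≠ 0) {R h : ℝ} (hs : Sad β r θ (R + h * I)) (p : ℕ) (X Y : ℝ) :
    ‖KU β r θ (R + h * I) p (θ + (R + h * I) + (X + Y * I))‖ =
      ‖(X + Y * I : ℂ)‖ ^ p * (Real.exp (R * (1 + h) / β) * Real.exp (gre R h X Y / β)) := by
  unfold KU
  rw [norm_mul, norm_pow, KK_saddle hβ hs, norm_mul, norm_E, Complex.norm_exp (Psi _ _ / β), re_Psi_div]
  congr 2
  congr 1
  ring

/-- `XL (K1) - L XL (KK) = XL (KU 1)`, `XL (KK) = XL (KU 0)` -/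
theorem XL_KU_zero (β r θ : ℝ) (L : ℂ) : XL (KU β r θ L 0) = XL (KK β r θ) := by
  have : KU β r θ L 0 = KK β r θ := by funext y; simp [KU]
  rw [this]

theorem YR_KU_zero (β r θ : ℝ) (L : ℂ) : YR (KU β r θ L 0) = YR (KK β r θ) := by
  have : KU β r θ L 0 = KK β r θ := by funext y; simp [KU]
  rw [this]

theorem K1_eq (β r θ : ℝ) (L y : ℂ) : K1 β r θ y = KU β r θ L 1 y + L * KK β r θ y := by
  unfold K1 KU; ring

theorem XL_K1 {β r : ℝ} (hβ : 0 < β) (hr : 0 < r) (θ : ℝ) (L : ℂ) :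
    XL (K1 β r θ) = XL (KU β r θ L 1) + L * XL (KK β r θ) := by
  obtain ⟨P, lL, V, lR, h1⟩ := exists_pack_KU hβ hr θ L le_rfl
  obtain ⟨P', lL', V', lR', h0⟩ := exists_pack_KU hβ hr θ L (p := 0) zero_le_one
  have e0 : KU β r θ L 0 = KK β r θ := by funext y; simp [KU]
  rw [e0] at h0
  have e1 : (∫ X in Iic Real.pi, K1 β r θ (X + (1 : ℝ) * I)) =
      (∫ X in Iic Real.pi, KU β r θ L 1 (X + (1 : ℝ) * I)) + L * ∫ X in Iic Real.pi, KK β r θ (X + (1 : ℝ) * I) := by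
    rw [← integral_const_mul, ← integral_add (h1.left_int 1 one_pos _) ((h0.left_int 1 one_pos _).const_mul L)]
    refine integral_congr_ae (Filter.Eventually.of_forall fun X => ?_)
    exact K1_eq β r θ L _
  have e2 : (∫ s in Iic (1 : ℝ), K1 β r θ ((Real.pi : ℝ) + s * I)) =
      (∫ s in Iic (1 : ℝ), KU β r θ L 1 ((Real.pi : ℝ) + s * I)) + L * ∫ s in Iic (1 : ℝ), KK β r θ ((Real.pi : ℝ) + s * I) := by
    rw [← integral_const_mul, ← integral_add (h1.valley_int _) ((h0.valley_int _).const_mul L)]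
    refine integral_congr_ae (Filter.Eventually.of_forall fun X => ?_)
    exact K1_eq β r θ L _
  unfold XL
  rw [e1, e2]
  ring

theorem YR_K1 {β r : ℝ} (hβ : 0 < β) (hr : 0 < r) (θ : ℝ) (L : ℂ) :
    YR (K1 β r θ) = YR (KU β r θ L 1) + L * YR (KK β r θ) := by
  obtain ⟨P, lL, V, lR, h1⟩ := exists_pack_KU hβ hr θ L le_rfl
  obtain ⟨P', lL', V', lR', h0⟩ := exists_pack_KU hβ hr θ L (p := 0) zero_le_one
  have e0 : KU β r θ L 0 = KK β r θ := by funext y; simp [KU]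
  rw [e0] at h0
  have e1 : (∫ X in Ioi Real.pi, K1 β r θ (X + (-1 : ℝ) * I)) =
      (∫ X in Ioi Real.pi, KU β r θ L 1 (X + (-1 : ℝ) * I)) + L * ∫ X in Ioi Real.pi, KK β r θ (X + (-1 : ℝ) * I) := by
    rw [← integral_const_mul, ← integral_add (h1.right_int (-1) (by norm_num) _)
      ((h0.right_int (-1) (by norm_num) _).const_mul L)]
    refine integral_congr_ae (Filter.Eventually.of_forall fun X => ?_)
    exact K1_eq β r θ L _
  have e2 : (∫ s in Iic (-1 : ℝ), K1 β r θ ((Real.pi : ℝ) + s * I)) =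
      (∫ s in Iic (-1 : ℝ), KU β r θ L 1 ((Real.pi : ℝ) + s * I)) + L * ∫ s in Iic (-1 : ℝ), KK β r θ ((Real.pi : ℝ) + s * I) := by
    rw [← integral_const_mul, ← integral_add (h1.valley_int _) ((h0.valley_int _).const_mul L)]
    refine integral_congr_ae (Filter.Eventually.of_forall fun X => ?_)
    exact K1_eq β r θ L _
  unfold YR
  rw [e1, e2]
  ring

/-- the central piece in terms of `Psi` -/
theorem KU_seg {β r θ : ℝ} (hβ : β ≠ 0) {L : ℂ} (h : Sad β r θ L) (p : ℕ) (ω : ℂ) (a b : ℝ) :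
    ω * ∫ t in a..b, KU β r θ L p (θ + L + t * ω) =
      cexp ((L - I * L ^ 2 / 2) / β) * (ω ^ (p + 1) * ∫ t in a..b, (t : ℂ) ^ p * cexp (Psi L (t * ω) / β)) := by
  have e : ∀ t : ℝ, KU β r θ L p (θ + L + t * ω) =
      (cexp ((L - I * L ^ 2 / 2) / β) * ω ^ p) * ((t : ℂ) ^ p * cexp (Psi L (t * ω) / β)) := by
    intro t
    unfold KU
    rw [KK_saddle hβ h, show (θ : ℂ) + L + t * ω - (θ + L) = t * ω by ring, mul_pow]
    ring
  simp only [e]
  rw [intervalIntegral.integral_const_mul]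
  ring

end Sok.W
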