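import Pool.Agent.Lib.MP_816dec_an.A0F
import Pool.Agent.Lib.MP_816dec_an.Cover

/-!
MP_816dec_an, b = 1: splitting of the integral at the valley `Re y = π` and the derivative along the circle.
`KK β r θ y = exp (-i (y-θ)²/(2β) + r e^{iy})`, `θ = arg z - β/2`.
-/

set_option autoImplicit false

open Complex Set Filter Topology MeasureTheory

namespace Sok.W

/-- the integrand in the variable `y = x + θ` -/
noncomputable def KK (β r θ : ℝ) (y : ℂ) : ℂ := cexp (-(I * (y - θ) ^ 2 / (2 * β)) + r * cexp (I * y))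

theorem continuous_KK (β r θ : ℝ) : Continuous (KK β r θ) := by unfold KK; fun_prop

theorem GG_eq_KK (β r θ : ℝ) (x : ℂ) :
    GG β (r * cexp (((θ + β / 2 : ℝ) : ℂ) * I)) x = KK β r θ (x + θ) := by
  unfold GG KK
  rw [← Complex.exp_add]
  congr 1
  have e : (r : ℂ) * cexp (((θ + β / 2 : ℝ) : ℂ) * I) * cexp (-(I * β / 2)) * cexp (I * x) = r * cexp (I * (x + θ)) := by
    rw [mul_assoc, mul_assoc, ← Complex.exp_add, ← Complex.exp_add]
    congr 2
    push_cast
    ring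
  rw [e]
  congr 2
  ring

theorem norm_KK {β : ℝ} (r θ t s : ℝ) :
    ‖KK β r θ (t + s * I)‖ = Real.exp ((t - θ) * s / β + r * Real.exp (-s) * Real.cos t) := by
  rw [KK, Complex.norm_exp]
  congr 1
  rw [Complex.add_re]
  congr 1
  · have e1 : -(I * ((t : ℂ) + s * I - θ) ^ 2 / (2 * β)) =
        (((t - θ) * s / β : ℝ) : ℂ) + ((-((t - θ) ^ 2 - s ^ 2) / (2 * β) : ℝ) : ℂ) * I := by
      push_cast
      rcases eq_or_ne (β : ℂ) 0 with h | h
      · rw [h]; simp
      · field_simp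
        have := Complex.I_sq
        linear_combination (-2 * ((t : ℂ) - θ) * s - I * s ^ 2) * this
    rw [e1, Complex.add_re, Complex.ofReal_re, Complex.re_ofReal_mul]
    simp
  · have e2 : I * ((t : ℂ) + s * I) = ((-s : ℝ) : ℂ) + (t : ℂ) * I := by
      push_cast
      linear_combination (s : ℂ) * Complex.I_sq
    rw [e2, Complex.exp_add, ← Complex.ofReal_exp, Complex.re_ofReal_mul, Complex.re_ofReal_mul, Complex.exp_ofReal_mul_I_re]
    ring

/-- derivative in `θ` of the integral over a leg -/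
theorem hasDerivAt_leg {β r : ℝ} (hβ : 0 < β) {γ : ℝ → ℂ} (hγ : Continuous γ) {S : Set ℝ} (θ₀ : ℝ)
    {g : ℝ → ℝ} (hg : IntegrableOn g S)
    (hb : ∀ u ∈ S, ∀ θ : ℝ, |θ - θ₀| < 1 → ‖γ u - θ‖ * ‖KK β r θ (γ u)‖ ≤ g u)
    (hi : IntegrableOn (fun u => KK β r θ₀ (γ u)) S) (hS : MeasurableSet S) :
    HasDerivAt (fun θ : ℝ => ∫ u in S, KK β r θ (γ u))
      (I / β * ∫ u in S, (γ u - θ₀) * KK β r θ₀ (γ u)) θ₀ := by
  have hβ' : (β : ℂ) ≠ 0 := by exact_mod_cast hβ.ne'
  have h := hasDerivAt_integral_of_dominated_loc_of_deriv_le (𝕜 := ℝ) (μ := volume.restrict S)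
    (F := fun (θ : ℝ) (u : ℝ) => KK β r θ (γ u)) (F' := fun (θ : ℝ) (u : ℝ) => I / β * ((γ u - θ) * KK β r θ (γ u)))
    (x₀ := θ₀) (bound := fun u => 1 / β * g u) (s := Metric.ball θ₀ 1) (Metric.ball_mem_nhds θ₀ one_pos) ?_ hi ?_ ?_ ?_ ?_
  · have h2 := h.2
    rw [integral_const_mul] at h2
    exact h2
  · refine Filter.Eventually.of_forall (fun θ => ?_)
    have : Continuous (fun u => KK β r θ (γ u)) := (continuous_KK β r θ).comp hγ
    exact this.aestronglyMeasurable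
  · have : Continuous (fun u => I / (β : ℂ) * ((γ u - θ₀) * KK β r θ₀ (γ u))) := by
      have := (continuous_KK β r θ₀).comp hγ
      simp only [Function.comp_def] at this
      fun_prop
    exact this.aestronglyMeasurable
  · refine (ae_restrict_iff' hS).2 (Filter.Eventually.of_forall (fun u hu θ hθ => ?_))
    rw [Metric.mem_ball, Real.dist_eq] at hθ
    rw [norm_mul, norm_mul, norm_div, Complex.norm_I, Complex.norm_real, Real.norm_eq_abs, abs_of_pos hβ]
    exact mul_le_mul_of_nonneg_left (hb u hu θ hθ) (by positivity)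
  · exact hg.const_mul _
  · refine (ae_restrict_iff' hS).2 (Filter.Eventually.of_forall (fun u hu θ hθ => ?_))
    have h1 : HasDerivAt (fun θ : ℝ => γ u - (θ : ℂ)) (-1) θ := by
      have := (Complex.ofRealCLM.hasDerivAt (x := θ)).const_sub (γ u)
      simpa using this
    have h2 : HasDerivAt (fun θ : ℝ => -(I * (γ u - (θ : ℂ)) ^ 2 / (2 * β)) + r * cexp (I * γ u))
        (I / β * (γ u - θ)) θ := by
      have h3 := (((h1.pow 2).const_mul I).div_const (2 * (β : ℂ))).neg.add_const ((r : ℂ) * cexp (I * γ u))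
      refine h3.congr_deriv ?_
      field_simp
      ring
    have h4 := h2.cexp
    refine h4.congr_deriv ?_
    unfold KK
    ring

private theorem exp_int' {c : ℝ} (hc : 0 < c) (b : ℝ) : IntegrableOn (fun u : ℝ => Real.exp (c * u)) (Iic b) :=
  integrableOn_exp_mul_Iic hc b

/-- `(|u| + A) e^{c u} ≤ C e^{(c/2) u}` on `u ≤ b` -/
theorem lin_exp {c : ℝ} (hc : 0 < c) (A b : ℝ) (hA : 0 ≤ A) :
    ∃ C : ℝ, 0 ≤ C ∧ ∀ u : ℝ, u ≤ b → (|u| + A) * Real.exp (c * u) ≤ C * Real.exp (c / 2 * u) := by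
  refine ⟨(2 / c + |b| + A) * Real.exp (c / 2 * |b|), by positivity, fun u hu => ?_⟩
  have e : Real.exp (c * u) = Real.exp (c / 2 * u) * Real.exp (c / 2 * u) := by
    rw [← Real.exp_add]; congr 1; ring
  rw [e, ← mul_assoc]
  refine mul_le_mul_of_nonneg_right ?_ (Real.exp_pos _).le
  rcases le_total u 0 with h | h
  · have h1 : |u| * Real.exp (c / 2 * u) ≤ 2 / c := by
      rw [abs_of_nonpos h]
      have h2 : -(c / 2 * u) ≤ Real.exp (-(c / 2 * u)) := by
        linarith [Real.add_one_le_exp (-(c / 2 * u))]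
      have h3 : Real.exp (-(c / 2 * u)) * Real.exp (c / 2 * u) = 1 := by
        rw [← Real.exp_add]; simp
      have h4 : -(c / 2 * u) * Real.exp (c / 2 * u) ≤ 1 := by
        rw [← h3]; exact mul_le_mul_of_nonneg_right h2 (Real.exp_pos _).le
      rw [le_div_iff₀ hc]
      nlinarith
    have h5 : Real.exp (c / 2 * u) ≤ 1 := Real.exp_le_one_iff.2 (by nlinarith)
    have h6 : 1 ≤ Real.exp (c / 2 * |b|) := Real.one_le_exp (by positivity)
    have h7 : 0 ≤ 2 / c + |b| + A := by positivity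
    have h8 : 0 ≤ |b| := abs_nonneg b
    nlinarith [Real.exp_pos (c / 2 * u), mul_le_mul_of_nonneg_left h5 hA]
  · have h1 : |u| ≤ |b| := by rw [abs_of_nonneg h]; exact hu.trans (le_abs_self b)
    have h2 : Real.exp (c / 2 * u) ≤ Real.exp (c / 2 * |b|) := by
      apply Real.exp_le_exp.2
      rw [abs_of_nonneg h] at h1
      nlinarith
    have h3 : 0 ≤ 2 / c := by positivity
    calc (|u| + A) * Real.exp (c / 2 * u) ≤ (2 / c + |b| + A) * Real.exp (c / 2 * |b|) := by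
          apply mul_le_mul _ h2 (Real.exp_pos _).le (by positivity)
          linarith

/-- decay in the left valley -/
def DecL (h : ℂ → ℂ) : Prop := ∀ a b : ℝ, 0 < a → a ≤ b → ∃ M c : ℝ, 0 < c ∧ 0 ≤ M ∧
  ∀ X Y : ℝ, X ≤ 0 → a ≤ Y → Y ≤ b → ‖h (X + Y * I)‖ ≤ M * Real.exp (c * X)

/-- decay in the right valley -/
def DecR (h : ℂ → ℂ) : Prop := DecL (fun x => h (-x))

/-- decay in the valley `Re = a`, `Im → -∞` -/
def DecV (h : ℂ → ℂ) (a : ℝ) : Prop := ∀ b : ℝ, ∃ M : ℝ, 0 ≤ M ∧ ∀ s : ℝ, s ≤ b → ‖h (a + s * I)‖ ≤ M * Real.exp s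

theorem DecL.int {h : ℂ → ℂ} (hh : DecL h) (hd : Continuous h) {Y : ℝ} (hY : 0 < Y) (a : ℝ) :
    IntegrableOn (fun X : ℝ => h (X + Y * I)) (Iic a) := by
  obtain ⟨M, c, hc, hM, hb⟩ := hh Y Y hY le_rfl
  have hcont : Continuous fun X : ℝ => h (X + Y * I) := by fun_prop
  have h1 : IntegrableOn (fun X : ℝ => h (X + Y * I)) (Iic 0) := by
    have h2 : IntegrableOn (fun X : ℝ => M * Real.exp (c * X)) (Iic 0) := (exp_int' hc 0).const_mul M
    refine h2.mono' hcont.aestronglyMeasurable ?_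
    refine (ae_restrict_iff' measurableSet_Iic).2 (Filter.Eventually.of_forall fun X hX => ?_)
    exact hb X Y hX le_rfl le_rfl
  rcases le_total a 0 with h | h
  · exact h1.mono_set (Iic_subset_Iic.2 h)
  · rw [← Iic_union_Ioc_eq_Iic h]
    exact h1.union (hcont.integrableOn_Icc.mono_set Ioc_subset_Icc_self)

theorem DecL.lim {h P : ℂ → ℂ} (hh : DecL h) (hd : Differentiable ℂ h) (hP : ∀ x, HasDerivAt P (h x) x) :
    ∃ l : ℂ, ∀ Y : ℝ, 0 < Y → (Tendsto (fun X : ℝ => P (X + Y * I)) atBot (𝓝 l)) ∧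
      ∀ a : ℝ, ∫ X in Iic a, h (X + Y * I) = P (a + Y * I) - l := by
  have key : ∀ Y : ℝ, 0 < Y → ∀ a : ℝ, Tendsto (fun X : ℝ => P (X + Y * I)) atBot
      (𝓝 (P (a + Y * I) - ∫ X in Iic a, h (X + Y * I))) := by
    intro Y hY a
    have h2 := intervalIntegral_tendsto_integral_Iic a (hh.int hd.continuous hY a) tendsto_id
    have h3 := (tendsto_const_nhds (x := P (a + Y * I))).sub h2
    refine h3.congr fun X => ?_
    rw [prim_hor hd hP]
    simp
  refine ⟨P ((0 : ℝ) + (1 : ℝ) * I) - ∫ X in Iic (0 : ℝ), h (X + (1 : ℝ) * I), fun Y hY => ?_⟩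
  have h2 : Tendsto (fun X : ℝ => P (X + Y * I) - P (X + (1 : ℝ) * I)) atBot (𝓝 0) := by
    obtain ⟨M, c, hc, hM, hb⟩ := hh (min Y 1) (max Y 1) (lt_min hY one_pos) min_le_max
    have h3 : Tendsto (fun X : ℝ => (M * Real.exp (c * X)) * |Y - 1|) atBot (𝓝 0) := by
      have h4 : Tendsto (fun X : ℝ => c * X) atBot atBot := tendsto_id.const_mul_atBot hc
      have h5 := Real.tendsto_exp_atBot.comp h4
      have h6 := (h5.const_mul M).mul_const |Y - 1|
      simpa using h6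
    refine squeeze_zero_norm' ?_ h3
    filter_upwards [eventually_le_atBot (0 : ℝ)] with X hX
    rw [← prim_ver hd hP, norm_mul, Complex.norm_I, one_mul]
    refine intervalIntegral.norm_integral_le_of_norm_le_const (a := (1 : ℝ)) (b := Y)
      (f := fun Y : ℝ => h (X + Y * I)) (C := M * Real.exp (c * X)) ?_
    intro y hy
    rw [uIoc_comm, uIoc] at hy
    exact hb X y hX hy.1.le hy.2
  have h4 : Tendsto (fun X : ℝ => P (X + Y * I)) atBot
      (𝓝 (0 + (P ((0 : ℝ) + (1 : ℝ) * I) - ∫ X in Iic (0 : ℝ), h (X + (1 : ℝ) * I)))) := by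
    refine (h2.add (key 1 one_pos 0)).congr fun X => ?_
    ring
  rw [zero_add] at h4
  refine ⟨h4, fun a => ?_⟩
  have h3 := tendsto_nhds_unique (key Y hY a) h4
  linear_combination -h3

theorem DecR.int {h : ℂ → ℂ} (hh : DecR h) (hd : Continuous h) {Y : ℝ} (hY : Y < 0) (a : ℝ) :
    IntegrableOn (fun X : ℝ => h (X + Y * I)) (Ioi a) := by
  have h1 := DecL.int hh (by fun_prop) (Y := -Y) (by linarith) (-a)
  have h2 := (integrableOn_Iic_iff_integrableOn_Iio).1 h1
  have h3 := (MeasurePreserving.integrableOn_comp_preimage (Measure.measurePreserving_neg (volume : Measure ℝ))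
    (Homeomorph.neg ℝ).measurableEmbedding).2 h2
  have e : (fun x : ℝ => -x) ⁻¹' Iio (-a) = Ioi a := by
    ext x; simp
  rw [e] at h3
  refine h3.congr_fun (fun X _ => ?_) measurableSet_Ioi
  simp only [Function.comp]
  congr 1
  push_cast
  ring

theorem DecR.lim {h P : ℂ → ℂ} (hh : DecR h) (hd : Differentiable ℂ h) (hP : ∀ x, HasDerivAt P (h x) x) :
    ∃ l : ℂ, ∀ Y : ℝ, Y < 0 → (Tendsto (fun X : ℝ => P (X + Y * I)) atTop (𝓝 l)) ∧
      ∀ a : ℝ, ∫ X in Ioi a, h (X + Y * I) = l - P (a + Y * I) := by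
  have hP' : ∀ x, HasDerivAt (fun x => -P (-x)) (h (-x)) x := by
    intro x
    have h1 := ((hP (-x)).comp x (hasDerivAt_neg x)).neg
    rw [mul_neg_one, neg_neg] at h1
    exact h1
  obtain ⟨l, hl⟩ := DecL.lim hh (hd.comp differentiable_neg) hP'
  refine ⟨-l, fun Y hY => ⟨?_, fun a => ?_⟩⟩
  · have h1 := ((hl (-Y) (by linarith)).1.comp tendsto_neg_atTop_atBot).neg
    refine h1.congr fun X => ?_
    simp only [Function.comp, neg_neg]
    congr 1
    push_cast
    ring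
  have h1 := (hl (-Y) (by linarith)).2 (-a)
  have h2 := integral_comp_neg_Ioi a (fun X : ℝ => h (-((X : ℂ) + ((-Y : ℝ) : ℂ) * I)))
  rw [h1] at h2
  have e1 : -(((-a : ℝ) : ℂ) + ((-Y : ℝ) : ℂ) * I) = a + Y * I := by push_cast; ring
  rw [e1] at h2
  have e2 : ∫ X in Ioi a, h (X + Y * I) = ∫ X in Ioi a, h (-(((-X : ℝ) : ℂ) + ((-Y : ℝ) : ℂ) * I)) := by
    congr 1
    funext X
    congr 1
    push_cast
    ring
  rw [e2, h2]
  ring

theorem DecV.int {h : ℂ → ℂ} {a : ℝ} (hh : DecV h a) (hd : Continuous h) (b : ℝ) :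
    IntegrableOn (fun s : ℝ => h (a + s * I)) (Iic b) := by
  obtain ⟨M, hM, hb⟩ := hh b
  have h2 : IntegrableOn (fun s : ℝ => M * Real.exp (1 * s)) (Iic b) := (exp_int' one_pos b).const_mul M
  refine h2.mono' (by fun_prop : Continuous fun s : ℝ => h (a + s * I)).aestronglyMeasurable ?_
  refine (ae_restrict_iff' measurableSet_Iic).2 (Filter.Eventually.of_forall fun s hs => ?_)
  rw [one_mul]
  exact hb s hs

theorem DecV.lim {h P : ℂ → ℂ} {a : ℝ} (hh : DecV h a) (hd : Differentiable ℂ h) (hP : ∀ x, HasDerivAt P (h x) x) :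
    ∃ V : ℂ, ∀ b : ℝ, I * ∫ s in Iic b, h (a + s * I) = P (a + b * I) - V := by
  refine ⟨P (a + (0 : ℝ) * I) - I * ∫ s in Iic (0 : ℝ), h (a + s * I), fun b => ?_⟩
  have h1 := intervalIntegral.integral_Iic_sub_Iic (a := (0:ℝ)) (b := b) (hh.int hd.continuous 0) (hh.int hd.continuous b)
  have h2 := prim_ver hd hP 0 b a
  rw [← h1] at h2
  linear_combination h2

/-! the two integrands -/

theorem decL_of_KK {β r θ : ℝ} (hβ : 0 < β) {h : ℂ → ℂ} {A : ℝ} (hA : 0 ≤ A)
    (hh : ∀ X Y : ℝ, ‖h (X + Y * I)‖ ≤ (|X| + |Y| + A) * ‖KK β r θ (X + Y * I)‖) : DecL h := by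
  intro a b ha hab
  have hc : 0 < a / β := by positivity
  obtain ⟨C, hC, hl⟩ := lin_exp hc (b + A) 0 (by linarith)
  refine ⟨C * Real.exp (|θ| * b / β + |r|), a / β / 2, by positivity, by positivity, fun X Y hX hY1 hY2 => ?_⟩
  refine (hh X Y).trans ?_
  have hY0 : 0 < Y := ha.trans_le hY1
  have h1 : ‖KK β r θ (X + Y * I)‖ ≤ Real.exp (a / β * X) * Real.exp (|θ| * b / β + |r|) := by
    rw [norm_KK, ← Real.exp_add]
    apply Real.exp_le_exp.2
    have h2 : (X - θ) * Y / β ≤ a / β * X + |θ| * b / β := by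
      have e1 : (X - θ) * Y / β = X * Y / β + (-θ) * Y / β := by ring
      have e2 : X * Y / β ≤ a / β * X := by
        rw [div_mul_eq_mul_div]
        apply div_le_div_of_nonneg_right _ hβ.le
        nlinarith
      have e3 : (-θ) * Y / β ≤ |θ| * b / β := by
        apply div_le_div_of_nonneg_right _ hβ.le
        have := neg_le_abs θ
        have := abs_nonneg θ
        nlinarith
      linarith
    have h3 : r * Real.exp (-Y) * Real.cos X ≤ |r| := by
      refine (le_abs_self _).trans ?_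
      rw [abs_mul, abs_mul, Real.abs_exp]
      have h4 : Real.exp (-Y) ≤ 1 := Real.exp_le_one_iff.2 (by linarith)
      have h5 := Real.abs_cos_le_one X
      calc |r| * Real.exp (-Y) * |Real.cos X| ≤ |r| * 1 * 1 := by
            apply mul_le_mul (mul_le_mul_of_nonneg_left h4 (abs_nonneg r)) h5 (abs_nonneg _) (by positivity)
        _ = |r| := by ring
    linarith
  have h4 : |X| + |Y| + A ≤ |X| + (b + A) := by
    rw [abs_of_pos hY0]; linarith
  calc (|X| + |Y| + A) * ‖KK β r θ (X + Y * I)‖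
      ≤ (|X| + (b + A)) * (Real.exp (a / β * X) * Real.exp (|θ| * b / β + |r|)) := by
        apply mul_le_mul h4 h1 (norm_nonneg _)
        have : 0 ≤ |X| := abs_nonneg X
        linarith [abs_nonneg X, ha.trans_le hab]
    _ = ((|X| + (b + A)) * Real.exp (a / β * X)) * Real.exp (|θ| * b / β + |r|) := by ring
    _ ≤ (C * Real.exp (a / β / 2 * X)) * Real.exp (|θ| * b / β + |r|) :=
        mul_le_mul_of_nonneg_right (hl X hX) (Real.exp_pos _).le
    _ = _ := by ring

theorem decR_of_KK {β r θ : ℝ} (hβ : 0 < β) {h : ℂ → ℂ} {A : ℝ} (hA : 0 ≤ A)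
    (hh : ∀ X Y : ℝ, ‖h (X + Y * I)‖ ≤ (|X| + |Y| + A) * ‖KK β r θ (X + Y * I)‖) : DecR h := by
  intro a b ha hab
  have hc : 0 < a / β := by positivity
  obtain ⟨C, hC, hl⟩ := lin_exp hc (b + A) 0 (by linarith)
  refine ⟨C * Real.exp (|θ| * b / β + |r| * Real.exp b), a / β / 2, by positivity, by positivity,
    fun X Y hX hY1 hY2 => ?_⟩
  have e0 : -((X : ℂ) + Y * I) = ((-X : ℝ) : ℂ) + ((-Y : ℝ) : ℂ) * I := by push_cast; ring
  show ‖h (-((X : ℂ) + Y * I))‖ ≤ _
  rw [e0]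
  refine (hh (-X) (-Y)).trans ?_
  rw [abs_neg, abs_neg]
  have hY0 : 0 < Y := ha.trans_le hY1
  have h1 : ‖KK β r θ (((-X : ℝ) : ℂ) + ((-Y : ℝ) : ℂ) * I)‖ ≤
      Real.exp (a / β * X) * Real.exp (|θ| * b / β + |r| * Real.exp b) := by
    rw [norm_KK, ← Real.exp_add]
    apply Real.exp_le_exp.2
    have h2 : (-X - θ) * (-Y) / β ≤ a / β * X + |θ| * b / β := by
      have e1 : (-X - θ) * (-Y) / β = X * Y / β + θ * Y / β := by ring
      have e2 : X * Y / β ≤ a / β * X := by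
        rw [div_mul_eq_mul_div]
        apply div_le_div_of_nonneg_right _ hβ.le
        nlinarith
      have e3 : θ * Y / β ≤ |θ| * b / β := by
        apply div_le_div_of_nonneg_right _ hβ.le
        have := le_abs_self θ
        have := abs_nonneg θ
        nlinarith
      linarith
    have h3 : r * Real.exp (-(-Y)) * Real.cos (-X) ≤ |r| * Real.exp b := by
      refine (le_abs_self _).trans ?_
      rw [abs_mul, abs_mul, Real.abs_exp, neg_neg]
      have h4 : Real.exp Y ≤ Real.exp b := Real.exp_le_exp.2 hY2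
      have h5 := Real.abs_cos_le_one (-X)
      calc |r| * Real.exp Y * |Real.cos (-X)| ≤ |r| * Real.exp b * 1 := by
            apply mul_le_mul (mul_le_mul_of_nonneg_left h4 (abs_nonneg r)) h5 (abs_nonneg _) (by positivity)
        _ = |r| * Real.exp b := by ring
    linarith
  have h4 : |X| + |Y| + A ≤ |X| + (b + A) := by
    rw [abs_of_pos hY0]; linarith
  calc (|X| + |Y| + A) * ‖KK β r θ (((-X : ℝ) : ℂ) + ((-Y : ℝ) : ℂ) * I)‖
      ≤ (|X| + (b + A)) * (Real.exp (a / β * X) * Real.exp (|θ| * b / β + |r| * Real.exp b)) := by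
        apply mul_le_mul h4 h1 (norm_nonneg _)
        linarith [abs_nonneg X, ha.trans_le hab]
    _ = ((|X| + (b + A)) * Real.exp (a / β * X)) * Real.exp (|θ| * b / β + |r| * Real.exp b) := by ring
    _ ≤ (C * Real.exp (a / β / 2 * X)) * Real.exp (|θ| * b / β + |r| * Real.exp b) :=
        mul_le_mul_of_nonneg_right (hl X hX) (Real.exp_pos _).le
    _ = _ := by ring

/-- the valley at `Re y = π` -/
theorem KK_valley {β r : ℝ} (hβ : 0 < β) (hr : 0 < r) (Θ b : ℝ) : ∃ M : ℝ, 0 ≤ M ∧ ∀ θ s : ℝ, |θ| ≤ Θ → s ≤ b →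
    ‖KK β r θ ((Real.pi : ℝ) + s * I)‖ ≤ M * Real.exp (2 * s) := by
  obtain ⟨K, hK⟩ : ∃ K : ℝ, K = (Real.pi + Θ) / β + 2 := ⟨_, rfl⟩
  refine ⟨Real.exp (K ^ 2 / (2 * r) + K * |b|), (Real.exp_pos _).le, fun θ s hθ hs => ?_⟩
  have hΘ : 0 ≤ Θ := (abs_nonneg θ).trans hθ
  have hK0 : 0 ≤ K := by rw [hK]; have := Real.pi_pos; positivity
  rw [norm_KK, Real.cos_pi, ← Real.exp_add]
  apply Real.exp_le_exp.2
  have h1 : (Real.pi - θ) * s / β - 2 * s ≤ K * |s| := by
    have e1 : (Real.pi - θ) * s / β - 2 * s = ((Real.pi - θ) / β - 2) * s := by ring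
    rw [e1]
    refine (le_abs_self _).trans ?_
    rw [abs_mul]
    apply mul_le_mul_of_nonneg_right _ (abs_nonneg s)
    rw [hK]
    have h2 : |(Real.pi - θ) / β| ≤ (Real.pi + Θ) / β := by
      rw [abs_div, abs_of_pos hβ]
      apply div_le_div_of_nonneg_right _ hβ.le
      have := Real.pi_pos
      have h3 := abs_sub (Real.pi) θ
      rw [abs_of_pos this] at h3
      linarith
    have h4 := abs_sub ((Real.pi - θ) / β) 2
    rw [abs_two] at h4
    linarith
  rcases le_total s 0 with h | h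
  · have h2 : 1 + (-s) + (-s) ^ 2 / 2 ≤ Real.exp (-s) := Real.quadratic_le_exp_of_nonneg (by linarith)
    rw [abs_of_nonpos h] at h1
    have h3 : K * (-s) - r * (s ^ 2 / 2) ≤ K ^ 2 / (2 * r) := by
      rw [le_div_iff₀ (by positivity)]
      nlinarith [sq_nonneg (r * s + K)]
    have h4 : r * (s ^ 2 / 2) ≤ r * Real.exp (-s) := by
      apply mul_le_mul_of_nonneg_left _ hr.le
      nlinarith
    have h5 : 0 ≤ K * |b| := by positivity
    nlinarith
  · have h2 : 0 < r * Real.exp (-s) := by positivity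
    rw [abs_of_nonneg h] at h1
    have h3 : s ≤ |b| := hs.trans (le_abs_self b)
    have h4 : 0 ≤ K ^ 2 / (2 * r) := by positivity
    nlinarith [mul_le_mul_of_nonneg_left h3 hK0]

theorem decV_of_KK {β r θ : ℝ} (hβ : 0 < β) (hr : 0 < r) {h : ℂ → ℂ} {A : ℝ} (hA : 0 ≤ A)
    (hh : ∀ X Y : ℝ, ‖h (X + Y * I)‖ ≤ (|X| + |Y| + A) * ‖KK β r θ (X + Y * I)‖) : DecV h Real.pi := by
  intro b
  obtain ⟨M, hM, hb⟩ := KK_valley hβ hr |θ| b
  obtain ⟨C, hC, hl⟩ := lin_exp (c := 2) two_pos (Real.pi + A) b (by have := Real.pi_pos; linarith)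
  refine ⟨C * M, by positivity, fun s hs => ?_⟩
  refine (hh Real.pi s).trans ?_
  rw [abs_of_pos Real.pi_pos]
  have h1 := hb θ s le_rfl hs
  have h2 := hl s hs
  rw [show (2:ℝ) / 2 * s = s by ring] at h2
  have hpi := Real.pi_pos
  calc (Real.pi + |s| + A) * ‖KK β r θ ((Real.pi : ℝ) + s * I)‖
      ≤ (Real.pi + |s| + A) * (M * Real.exp (2 * s)) := mul_le_mul_of_nonneg_left h1 (by positivity)
    _ = M * ((|s| + (Real.pi + A)) * Real.exp (2 * s)) := by ring
    _ ≤ M * (C * Real.exp s) := mul_le_mul_of_nonneg_left h2 hM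
    _ = _ := by ring

end Sok.W
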