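import Pool.Agent.Lib.MP_816dec_an.Basic

/-!
MP_816dec_an (B0): F(.;q) has no zero in |z| |1-q| < 1/e, for all |q| ≤ 1.
-/

open Complex Set Filter Topology

namespace Sok

/-- Gronwall along a segment in a ball in which |F'| ≤ e |F| -/
theorem gronwall_segment {q : ℂ} (hq : ‖q‖ ≤ 1) {ρ : ℝ}
    (h : ∀ z, ‖z‖ < ρ → ‖F q (q * z)‖ ≤ Real.exp 1 * ‖F q z‖) {a b : ℂ} (ha : ‖a‖ < ρ) (hb : ‖b‖ < ρ) :
    ‖F q b‖ ≤ ‖F q a‖ * Real.exp (Real.exp 1 * ‖b - a‖) := by
  have hseg : ∀ s ∈ Icc (0:ℝ) 1, ‖a + (s:ℂ) * (b - a)‖ < ρ := by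
    intro s hs
    have e : a + (s:ℂ) * (b - a) = ((1 - s : ℝ) : ℂ) * a + (s:ℂ) * b := by push_cast; ring
    rw [e]
    refine lt_of_le_of_lt (norm_add_le _ _) ?_
    rw [norm_mul, norm_mul, Complex.norm_real, Complex.norm_real, Real.norm_eq_abs, Real.norm_eq_abs,
      abs_of_nonneg hs.1, abs_of_nonneg (by linarith [hs.2])]
    rcases eq_or_lt_of_le hs.1 with h0 | h0
    · rw [← h0]; simpa using ha
    · have h1 := mul_le_mul_of_nonneg_left ha.le (show 0 ≤ 1 - s by linarith [hs.2])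
      have h2 := mul_lt_mul_of_pos_left hb h0
      nlinarith
  have hder : ∀ s : ℝ, HasDerivAt (fun s : ℝ => F q (a + (s:ℂ) * (b - a)))
      (F q (q * (a + (s:ℂ) * (b - a))) * (b - a)) s := by
    intro s
    have h1 : HasDerivAt (fun s : ℂ => a + s * (b - a)) (b - a) (s:ℂ) := by
      simpa using ((hasDerivAt_id (s:ℂ)).mul_const (b - a)).const_add a
    have h2 := (hasDerivAt_F hq (a + (s:ℂ) * (b - a))).comp (s:ℂ) h1
    exact h2.comp_ofReal
  have hg := norm_le_gronwallBound_of_norm_deriv_right_le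
    (f := fun s : ℝ => F q (a + (s:ℂ) * (b - a)))
    (f' := fun s : ℝ => F q (q * (a + (s:ℂ) * (b - a))) * (b - a))
    (δ := ‖F q a‖) (K := Real.exp 1 * ‖b - a‖) (ε := 0) (a := 0) (b := 1)
    (fun s _ => (hder s).continuousAt.continuousWithinAt)
    (fun s _ => (hder s).hasDerivWithinAt)
    (by simp)
    (by
      intro s hs
      have h1 := h _ (hseg s ⟨hs.1, hs.2.le⟩)
      rw [norm_mul, add_zero]
      have := norm_nonneg (b - a)
      calc ‖F q (q * (a + (s:ℂ) * (b - a)))‖ * ‖b - a‖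
          ≤ (Real.exp 1 * ‖F q (a + (s:ℂ) * (b - a))‖) * ‖b - a‖ := by gcongr
        _ = _ := by ring)
    1 ⟨zero_le_one, le_refl _⟩
  rw [gronwallBound_ε0] at hg
  simpa using hg

/-- zero-free disc, with the bound for F'/F -/
theorem zero_free_aux {q : ℂ} (hq : ‖q‖ ≤ 1) {R : ℝ} (hR : R * ‖1 - q‖ < Real.exp (-1)) :
    ∀ z, ‖z‖ ≤ R → ‖F q (q * z)‖ < Real.exp 1 * ‖F q z‖ := by
  by_contra hcon
  push Not at hcon
  have hcF : Continuous (F q) := (differentiable_F hq).continuous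
  obtain ⟨B, hB⟩ : ∃ B : Set ℂ, B = {z | ‖z‖ ≤ R ∧ Real.exp 1 * ‖F q z‖ ≤ ‖F q (q * z)‖} := ⟨_, rfl⟩
  have hBne : B.Nonempty := by
    obtain ⟨z, h1, h2⟩ := hcon
    exact ⟨z, by rw [hB]; exact ⟨h1, h2⟩⟩
  have hBc : IsCompact B := by
    have h1 : B = Metric.closedBall 0 R ∩ {z | Real.exp 1 * ‖F q z‖ ≤ ‖F q (q * z)‖} := by
      rw [hB]; ext z; simp
    rw [h1]
    apply (isCompact_closedBall (0:ℂ) R).inter_right
    apply isClosed_le
    · exact continuous_const.mul hcF.norm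
    · exact (hcF.comp (continuous_const.mul continuous_id)).norm
  obtain ⟨w, hwB, hwmin⟩ := hBc.exists_isMinOn hBne continuous_norm.continuousOn
  have hw := hwB
  rw [hB] at hw
  obtain ⟨hw1, hw2⟩ := hw
  have hsmall : ∀ z, ‖z‖ < ‖w‖ → ‖F q (q * z)‖ ≤ Real.exp 1 * ‖F q z‖ := by
    intro z hz
    by_contra h
    push Not at h
    have hzB : z ∈ B := by rw [hB]; exact ⟨by linarith, h.le⟩
    have := hwmin hzB
    simp only [mem_setOf_eq] at this
    linarith
  have hw0 : 0 < ‖w‖ := by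
    rw [norm_pos_iff]
    rintro rfl
    rw [mul_zero, F_zero] at hw2
    simp only [norm_one, mul_one] at hw2
    have := Real.add_one_lt_exp (one_ne_zero)
    linarith
  have hqw : ‖q * w‖ ≤ ‖w‖ := by
    rw [norm_mul]; nlinarith
  have hcl : closure (Ico (0:ℝ) 1) = Icc 0 1 := closure_Ico (by norm_num)
  -- value at w is nonzero
  have hlow : 1 ≤ ‖F q w‖ * Real.exp (Real.exp 1 * ‖w‖) := by
    have := le_on_closure (s := Ico (0:ℝ) 1) (f := fun _ => (1:ℝ))
      (g := fun t : ℝ => ‖F q ((t:ℂ) * w)‖ * Real.exp (Real.exp 1 * ‖w‖)) (x := 1) ?_ continuousOn_const ?_ ?_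
    · simpa using this
    · intro t ht
      have htw : ‖(t:ℂ) * w‖ < ‖w‖ := by
        rw [norm_mul, Complex.norm_real, Real.norm_eq_abs, abs_of_nonneg ht.1]
        nlinarith [ht.2]
      have h1 := gronwall_segment hq hsmall (a := (t:ℂ) * w) (b := 0) htw (by simpa using hw0)
      rw [F_zero] at h1
      simp only [norm_one] at h1
      refine h1.trans ?_
      gcongr
      rw [zero_sub, norm_neg]
      exact htw.le
    · apply Continuous.continuousOn
      exact (hcF.comp (Complex.continuous_ofReal.mul continuous_const)).norm.mul continuous_const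
    · rw [hcl]; exact ⟨zero_le_one, le_refl _⟩
  have hFw : 0 < ‖F q w‖ := by
    by_contra h
    have h0 : ‖F q w‖ = 0 := le_antisymm (not_lt.1 h) (norm_nonneg _)
    rw [h0, zero_mul] at hlow
    linarith
  have hup : ‖F q (q * w)‖ ≤ ‖F q w‖ * Real.exp (Real.exp 1 * (‖1 - q‖ * ‖w‖)) := by
    have := le_on_closure (s := Ico (0:ℝ) 1) (f := fun t : ℝ => ‖F q ((t:ℂ) * (q * w))‖)
      (g := fun t : ℝ => ‖F q ((t:ℂ) * w)‖ * Real.exp (Real.exp 1 * (‖1 - q‖ * ‖w‖))) (x := 1) ?_ ?_ ?_ ?_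
    · simpa using this
    · intro t ht
      have htw : ‖(t:ℂ) * w‖ < ‖w‖ := by
        rw [norm_mul, Complex.norm_real, Real.norm_eq_abs, abs_of_nonneg ht.1]
        nlinarith [ht.2]
      have htqw : ‖(t:ℂ) * (q * w)‖ < ‖w‖ := by
        have e : (t:ℂ) * (q * w) = q * ((t:ℂ) * w) := by ring
        rw [e, norm_mul]
        have := norm_nonneg ((t:ℂ) * w)
        nlinarith [norm_nonneg q]
      have h1 := gronwall_segment hq hsmall htw htqw
      refine h1.trans ?_
      gcongr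
      have e : (t:ℂ) * (q * w) - (t:ℂ) * w = -((1 - q) * ((t:ℂ) * w)) := by ring
      rw [e, norm_neg, norm_mul]
      gcongr
    · apply Continuous.continuousOn
      exact (hcF.comp (Complex.continuous_ofReal.mul continuous_const)).norm
    · apply Continuous.continuousOn
      exact (hcF.comp (Complex.continuous_ofReal.mul continuous_const)).norm.mul continuous_const
    · rw [hcl]; exact ⟨zero_le_one, le_refl _⟩
  have hlt : Real.exp 1 * (‖1 - q‖ * ‖w‖) < 1 := by
    have h1 : ‖w‖ * ‖1 - q‖ ≤ R * ‖1 - q‖ := by gcongr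
    have h2 : Real.exp 1 * (R * ‖1 - q‖) < Real.exp 1 * Real.exp (-1) := by gcongr
    rw [← Real.exp_add] at h2
    simp only [add_neg_cancel, Real.exp_zero] at h2
    have h3 : 0 < Real.exp 1 := Real.exp_pos 1
    nlinarith
  have h5 : ‖F q w‖ * Real.exp (Real.exp 1 * (‖1 - q‖ * ‖w‖)) < ‖F q w‖ * Real.exp 1 := by
    gcongr
  linarith

/-- zero-free disc -/
theorem zero_free {q z : ℂ} (hq : ‖q‖ ≤ 1) (hz : ‖z‖ * ‖1 - q‖ < Real.exp (-1)) : F q z ≠ 0 := by
  intro h
  have := zero_free_aux hq hz z le_rfl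
  rw [h] at this
  simp only [norm_zero, mul_zero] at this
  linarith [norm_nonneg (F q (q * z))]

end Sok
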